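import Mathlib

/-! Parts: Lib_helper13.Chains, Lib_helper13.ChainMap, Lib_helper13.CharBasic, Lib_helper13.Central, Lib_helper13.Complete, Lib_helper13.Little, Lib_helper13.Modulus, Lib_helper13.Weights, Lib_helper13.Brauer, Lib_helper13.Mult -/

section

set_option linter.unusedSectionVars false

/-! Chains of `ℓ`-subgroups. -/

namespace Pool.Agent.Lib_helper13

section Chains

variable {G : Type*} [Group G]

/-- The stabilizer of a set of subgroups, elementwise. -/
def stb (σ : Finset (Subgroup G)) : Subgroup G := ⨅ D ∈ σ, Subgroup.normalizer (D : Set G)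

theorem mem_stb {σ : Finset (Subgroup G)} {g : G} :
    g ∈ stb σ ↔ ∀ D ∈ σ, D.map (MulAut.conj g).toMonoidHom = D := by
  simp only [stb, Subgroup.mem_iInf]
  refine forall₂_congr fun D _ => ?_
  rw [Subgroup.mem_normalizer_iff_map_conj_eq]
  rfl

theorem mem_stb' {σ : Finset (Subgroup G)} {g : G} :
    g ∈ stb σ ↔ ∀ D ∈ σ, ∀ x, x ∈ D ↔ g * x * g⁻¹ ∈ D := by
  simp only [stb, Subgroup.mem_iInf]
  refine forall₂_congr fun D _ => ?_
  rw [Subgroup.mem_normalizer_iff]

theorem stb_empty : stb (∅ : Finset (Subgroup G)) = ⊤ := by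
  simp [stb]

/-- `σ` is a chain of `ℓ`-subgroups properly containing `Z`. -/
def IsCh (ℓ : ℕ) (Z : Subgroup G) (σ : Finset (Subgroup G)) : Prop :=
  (∀ D ∈ σ, IsPGroup ℓ D ∧ Z < D) ∧ IsChain (· ≤ ·) (σ : Set (Subgroup G))

theorem IsCh.total {ℓ : ℕ} {Z : Subgroup G} {σ : Finset (Subgroup G)} (h : IsCh ℓ Z σ)
    {D E : Subgroup G} (hD : D ∈ σ) (hE : E ∈ σ) : D ≤ E ∨ E ≤ D :=
  h.2.total (Finset.mem_coe.mpr hD) (Finset.mem_coe.mpr hE)

theorem IsCh.subset {ℓ : ℕ} {Z : Subgroup G} {σ σ' : Finset (Subgroup G)} (h : IsCh ℓ Z σ)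
    (hs : σ' ⊆ σ) : IsCh ℓ Z σ' :=
  ⟨fun D hD => h.1 D (hs hD), h.2.mono (Finset.coe_subset.mpr hs)⟩

theorem IsCh.insert {ℓ : ℕ} {Z : Subgroup G} {σ : Finset (Subgroup G)} (h : IsCh ℓ Z σ)
    [DecidableEq (Subgroup G)] {E : Subgroup G} (hE : IsPGroup ℓ E) (hZ : Z < E)
    (hc : ∀ D ∈ σ, D ≤ E ∨ E ≤ D) : IsCh ℓ Z (insert E σ) := by
  constructor
  · intro D hD
    rcases Finset.mem_insert.mp hD with rfl | hD
    · exact ⟨hE, hZ⟩
    · exact h.1 D hD
  · rw [Finset.coe_insert]
    apply h.2.insert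
    intro D hD _
    exact (hc D hD).symm

theorem isCh_empty (ℓ : ℕ) (Z : Subgroup G) : IsCh ℓ Z ∅ := by
  constructor
  · simp
  · simp

/-- The greatest member of a nonempty chain. -/
theorem IsCh.exists_top {ℓ : ℕ} {Z : Subgroup G} {σ : Finset (Subgroup G)} (h : IsCh ℓ Z σ)
    (hne : σ.Nonempty) : ∃ T ∈ σ, ∀ D ∈ σ, D ≤ T := by
  obtain ⟨T, hT⟩ := σ.exists_maximal hne
  refine ⟨T, hT.1, fun D hD => ?_⟩
  rcases h.total hD hT.1 with h1 | h1
  · exact h1
  · exact hT.2 hD h1

theorem IsCh.exists_bot {ℓ : ℕ} {Z : Subgroup G} {σ : Finset (Subgroup G)} (h : IsCh ℓ Z σ)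
    (hne : σ.Nonempty) : ∃ T ∈ σ, ∀ D ∈ σ, T ≤ D := by
  obtain ⟨T, hT⟩ := σ.exists_minimal hne
  refine ⟨T, hT.1, fun D hD => ?_⟩
  rcases h.total hD hT.1 with h1 | h1
  · exact hT.2 hD h1
  · exact h1

variable [Fintype G]

open Classical in
/-- All chains. -/
noncomputable def Ch (ℓ : ℕ) (Z : Subgroup G) : Finset (Finset (Subgroup G)) :=
  Finset.univ.filter (IsCh ℓ Z)

theorem mem_Ch {ℓ : ℕ} {Z : Subgroup G} {σ : Finset (Subgroup G)} :
    σ ∈ Ch ℓ Z ↔ IsCh ℓ Z σ := by
  classical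
  simp [Ch]

/-- Alternating sums over chains vanish when there is a larger normal `ℓ`-subgroup. -/
theorem sum_chains_eq_zero {ℓ : ℕ} [Fact ℓ.Prime] (Z O : Subgroup G) (hO : IsPGroup ℓ O)
    [O.Normal] (hZO : Z < O) {M : Type*} [AddCommGroup M] (W : Subgroup G → M) :
    ∑ σ ∈ Ch ℓ Z, (-1 : ℤ) ^ σ.card • W (stb σ) = 0 := by
  classical
  let E : Finset (Subgroup G) → Subgroup G := fun σ =>
    ((σ.filter (fun D => ¬ O ≤ D)).sup id) ⊔ O
  have hOE : ∀ σ, O ≤ E σ := fun σ => le_sup_right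
  have hE1 : ∀ σ, E (insert (E σ) σ) = E σ := by
    intro σ
    have : (insert (E σ) σ).filter (fun D => ¬ O ≤ D) = σ.filter (fun D => ¬ O ≤ D) := by
      rw [Finset.filter_insert, if_neg (not_not.mpr (hOE σ))]
    change ((((insert (E σ) σ).filter (fun D => ¬ O ≤ D))).sup id) ⊔ O = _
    rw [this]
  have hE2 : ∀ σ, E (σ.erase (E σ)) = E σ := by
    intro σ
    have : (σ.erase (E σ)).filter (fun D => ¬ O ≤ D) = σ.filter (fun D => ¬ O ≤ D) := by
      rw [Finset.filter_erase, Finset.erase_eq_of_notMem]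
      intro h
      exact (Finset.mem_filter.mp h).2 (hOE σ)
    change ((((σ.erase (E σ)).filter (fun D => ¬ O ≤ D))).sup id) ⊔ O = _
    rw [this]
  have hcomp : ∀ σ, IsCh ℓ Z σ → ∀ D ∈ σ, D ≤ E σ ∨ E σ ≤ D := by
    intro σ hσ D hD
    by_cases h : O ≤ D
    · right
      apply sup_le _ h
      rw [Finset.sup_le_iff]
      intro D' hD'
      rw [Finset.mem_filter] at hD'
      rcases hσ.total hD'.1 hD with h1 | h1
      · exact h1
      · exact absurd (h.trans h1) hD'.2
    · left
      refine le_trans ?_ le_sup_left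
      exact Finset.le_sup (f := id) (Finset.mem_filter.mpr ⟨hD, h⟩)
  have hEp : ∀ σ, IsCh ℓ Z σ → IsPGroup ℓ (E σ) := by
    intro σ hσ
    apply IsPGroup.to_sup_of_normal_right _ hO
    rcases (σ.filter (fun D => ¬ O ≤ D)).eq_empty_or_nonempty with h | h
    · rw [h, Finset.sup_empty]
      exact IsPGroup.of_bot
    · obtain ⟨T, hT, hT'⟩ := (hσ.subset (Finset.filter_subset _ _)).exists_top h
      have : (σ.filter (fun D => ¬ O ≤ D)).sup id = T := by
        apply le_antisymm
        · rw [Finset.sup_le_iff]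
          exact hT'
        · exact Finset.le_sup (f := id) hT
      rw [this]
      exact (hσ.1 T (Finset.mem_filter.mp hT).1).1
  have hmap : ∀ (g : G) (σ : Finset (Subgroup G)),
      (∀ D ∈ σ, ¬ O ≤ D → D.map (MulAut.conj g).toMonoidHom = D) →
      (E σ).map (MulAut.conj g).toMonoidHom = E σ := by
    intro g σ h
    change (((σ.filter (fun D => ¬ O ≤ D)).sup id) ⊔ O).map _ = _
    rw [Subgroup.map_sup]
    congr 1
    · have h1 : ∀ s : Finset (Subgroup G), (s.sup id).map (MulAut.conj g).toMonoidHom =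
          s.sup (fun D => D.map (MulAut.conj g).toMonoidHom) := by
        intro s
        induction s using Finset.induction_on with
        | empty => rw [Finset.sup_empty, Finset.sup_empty, Subgroup.map_bot]
        | insert a s _ ih =>
          rw [Finset.sup_insert, Finset.sup_insert, Subgroup.map_sup, ih]
          rfl
      rw [h1]
      apply Finset.sup_congr rfl
      intro D hD
      rw [Finset.mem_filter] at hD
      exact h D hD.1 hD.2
    · have := Subgroup.mem_normalizer_iff_map_conj_eq.mp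
        (show g ∈ Subgroup.normalizer (O : Set G) by
          rw [Subgroup.normalizer_eq_top_iff.mpr inferInstance]
          trivial)
      exact this
  have hs1 : ∀ σ, stb (insert (E σ) σ) = stb σ := by
    intro σ
    ext g
    rw [mem_stb, mem_stb]
    constructor
    · intro h D hD
      exact h D (Finset.mem_insert_of_mem hD)
    · intro h D hD
      rcases Finset.mem_insert.mp hD with rfl | hD
      · exact hmap g σ fun D hD _ => h D hD
      · exact h D hD
  have hs2 : ∀ σ, stb (σ.erase (E σ)) = stb σ := by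
    intro σ
    ext g
    rw [mem_stb, mem_stb]
    constructor
    · intro h D hD
      by_cases hDE : D = E σ
      · rw [hDE]
        apply hmap
        intro D' hD' hO'
        apply h D'
        rw [Finset.mem_erase]
        refine ⟨?_, hD'⟩
        rintro rfl
        exact hO' (hOE σ)
      · exact h D (Finset.mem_erase.mpr ⟨hDE, hD⟩)
    · intro h D hD
      exact h D (Finset.mem_of_mem_erase hD)
  apply Finset.sum_involution (fun σ _ => if E σ ∈ σ then σ.erase (E σ) else insert (E σ) σ)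
  · intro σ hσ
    split_ifs with h
    · rw [hs2, Finset.card_erase_of_mem h]
      have h1 : 0 < σ.card := Finset.card_pos.mpr ⟨_, h⟩
      obtain ⟨n, hn⟩ : ∃ n, σ.card = n + 1 := ⟨σ.card - 1, by omega⟩
      rw [hn, Nat.add_sub_cancel, pow_succ, ← add_smul]
      simp
    · rw [hs1, Finset.card_insert_of_notMem h, pow_succ, ← add_smul]
      simp
  · intro σ hσ _
    split_ifs with h
    · intro h1
      have h2 := Finset.notMem_erase (E σ) σ
      rw [h1] at h2
      exact h2 h
    · intro h1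
      apply h
      have h2 := Finset.mem_insert_self (E σ) σ
      rw [h1] at h2
      exact h2
  · intro σ hσ
    rw [mem_Ch] at hσ ⊢
    split_ifs with h
    · exact hσ.subset (Finset.erase_subset _ _)
    · exact hσ.insert (hEp σ hσ) (lt_of_lt_of_le hZO (hOE σ)) (hcomp σ hσ)
  · intro σ hσ
    by_cases h : E σ ∈ σ
    · simp only [h, if_true]
      rw [hE2, if_neg (Finset.notMem_erase _ _), Finset.insert_erase h]
    · simp only [h, if_false]
      rw [hE1, if_pos (Finset.mem_insert_self _ _), Finset.erase_insert h]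

end Chains

end Pool.Agent.Lib_helper13


end

section

set_option linter.unusedSectionVars false

/-! Transport of chains along injective homomorphisms. -/

namespace Pool.Agent.Lib_helper13

section ChainMap

variable {A B C : Type*} [Group A] [Group B] [Group C]

open Classical in
/-- The image of a chain. -/
noncomputable def mapCh (i : A →* B) (τ : Finset (Subgroup A)) : Finset (Subgroup B) :=
  τ.image (Subgroup.map i)

theorem mem_mapCh {i : A →* B} {τ : Finset (Subgroup A)} {E : Subgroup B} :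
    E ∈ mapCh i τ ↔ ∃ D ∈ τ, D.map i = E := by
  classical
  simp [mapCh]

theorem card_mapCh {i : A →* B} (hi : Function.Injective i) (τ : Finset (Subgroup A)) :
    (mapCh i τ).card = τ.card := by
  classical
  rw [mapCh, Finset.card_image_of_injective _ (Subgroup.map_injective hi)]

theorem mapCh_injective {i : A →* B} (hi : Function.Injective i) :
    Function.Injective (mapCh i) := by
  classical
  exact Finset.image_injective (Subgroup.map_injective hi)

theorem mapCh_comp (i : A →* B) (j : B →* C) (τ : Finset (Subgroup A)) :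
    mapCh j (mapCh i τ) = mapCh (j.comp i) τ := by
  ext E
  simp only [mem_mapCh]
  constructor
  · rintro ⟨D', ⟨D, hD, rfl⟩, rfl⟩
    exact ⟨D, hD, (Subgroup.map_map _ _ _).symm⟩
  · rintro ⟨D, hD, rfl⟩
    exact ⟨D.map i, ⟨D, hD, rfl⟩, Subgroup.map_map _ _ _⟩

theorem mapCh_id (τ : Finset (Subgroup A)) : mapCh (MonoidHom.id A) τ = τ := by
  ext E
  simp [mem_mapCh]

theorem isCh_mapCh_iff {i : A →* B} (hi : Function.Injective i) {ℓ : ℕ} {Z : Subgroup A}
    {τ : Finset (Subgroup A)} : IsCh ℓ (Z.map i) (mapCh i τ) ↔ IsCh ℓ Z τ := by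
  have hle : ∀ D E : Subgroup A, D.map i ≤ E.map i ↔ D ≤ E := fun D E =>
    Subgroup.map_le_map_iff_of_injective hi
  constructor
  · rintro ⟨h1, h2⟩
    refine ⟨fun D hD => ?_, ?_⟩
    · obtain ⟨h3, h4⟩ := h1 (D.map i) (mem_mapCh.mpr ⟨D, hD, rfl⟩)
      refine ⟨h3.of_injective ((D.equivMapOfInjective i hi).toMonoidHom)
        (D.equivMapOfInjective i hi).injective, ?_⟩
      exact lt_of_le_not_ge ((hle _ _).mp h4.le) (fun h5 => h4.not_ge ((hle _ _).mpr h5))
    · intro D hD E hE _
      have h3 := h2.total (Finset.mem_coe.mpr (mem_mapCh.mpr ⟨D, hD, rfl⟩))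
        (Finset.mem_coe.mpr (mem_mapCh.mpr ⟨E, hE, rfl⟩))
      rwa [hle, hle] at h3
  · rintro ⟨h1, h2⟩
    refine ⟨fun D' hD' => ?_, ?_⟩
    · obtain ⟨D, hD, rfl⟩ := mem_mapCh.mp hD'
      obtain ⟨h3, h4⟩ := h1 D hD
      refine ⟨h3.map i, ?_⟩
      exact lt_of_le_not_ge ((hle _ _).mpr h4.le) (fun h5 => h4.not_ge ((hle _ _).mp h5))
    · intro D' hD' E' hE' _
      obtain ⟨D, hD, rfl⟩ := mem_mapCh.mp (Finset.mem_coe.mp hD')
      obtain ⟨E, hE, rfl⟩ := mem_mapCh.mp (Finset.mem_coe.mp hE')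
      have h3 := h2.total (Finset.mem_coe.mpr hD) (Finset.mem_coe.mpr hE)
      exact h3.imp (hle _ _).mpr (hle _ _).mpr

theorem comap_stb_mapCh {i : A →* B} (hi : Function.Injective i) (τ : Finset (Subgroup A)) :
    (stb (mapCh i τ)).comap i = stb τ := by
  ext g
  rw [Subgroup.mem_comap, mem_stb', mem_stb']
  constructor
  · intro h D hD x
    have h1 := h (D.map i) (mem_mapCh.mpr ⟨D, hD, rfl⟩) (i x)
    have h2 : i g * i x * (i g)⁻¹ = i (g * x * g⁻¹) := by simp
    rw [h2, Subgroup.mem_map_iff_mem hi, Subgroup.mem_map_iff_mem hi] at h1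
    exact h1
  · intro h D' hD' y
    obtain ⟨D, hD, rfl⟩ := mem_mapCh.mp hD'
    constructor
    · rintro ⟨x, hx, rfl⟩
      refine ⟨g * x * g⁻¹, (h D hD x).mp hx, by simp⟩
    · rintro ⟨x, hx, hx'⟩
      refine ⟨g⁻¹ * x * g, ?_, ?_⟩
      · have h3 : g * (g⁻¹ * x * g) * g⁻¹ = x := by group
        have := h D hD (g⁻¹ * x * g)
        rw [h3] at this
        exact this.mpr hx
      · rw [map_mul, map_mul, hx', map_inv]
        group

theorem stb_mapCh_equiv (e : A ≃* B) (τ : Finset (Subgroup A)) :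
    stb (mapCh e.toMonoidHom τ) = (stb τ).map e.toMonoidHom := by
  rw [← comap_stb_mapCh (i := e.toMonoidHom) e.injective τ]
  rw [Subgroup.map_comap_eq_self_of_surjective]
  exact e.surjective

theorem exists_mapCh {i : A →* B} {σ : Finset (Subgroup B)} (h : ∀ D ∈ σ, D ≤ i.range) :
    ∃ τ, mapCh i τ = σ := by
  classical
  refine ⟨σ.image (Subgroup.comap i), ?_⟩
  ext E
  rw [mem_mapCh]
  constructor
  · rintro ⟨D, hD, rfl⟩
    obtain ⟨D', hD', rfl⟩ := Finset.mem_image.mp hD
    rw [Subgroup.map_comap_eq_self (h D' hD')]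
    exact hD'
  · intro hE
    exact ⟨E.comap i, Finset.mem_image_of_mem _ hE, Subgroup.map_comap_eq_self (h E hE)⟩

variable [Fintype A] [Fintype B]

theorem sum_Ch_range {i : A →* B} (hi : Function.Injective i) (ℓ : ℕ) (Z : Subgroup A)
    {M : Type*} [AddCommMonoid M] (F : Finset (Subgroup B) → M)
    [DecidablePred fun σ : Finset (Subgroup B) => ∀ D ∈ σ, D ≤ i.range] :
    ∑ σ ∈ (Ch ℓ (Z.map i)).filter (fun σ => ∀ D ∈ σ, D ≤ i.range), F σ =
      ∑ τ ∈ Ch ℓ Z, F (mapCh i τ) := by
  classical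
  symm
  apply Finset.sum_bij (fun τ _ => mapCh i τ)
  · intro τ hτ
    rw [Finset.mem_filter, mem_Ch, isCh_mapCh_iff hi]
    refine ⟨mem_Ch.mp hτ, ?_⟩
    intro D' hD'
    obtain ⟨D, hD, rfl⟩ := mem_mapCh.mp hD'
    rw [MonoidHom.range_eq_map]
    exact Subgroup.map_mono le_top
  · intro a _ b _ h
    exact mapCh_injective hi h
  · intro σ hσ
    rw [Finset.mem_filter, mem_Ch] at hσ
    obtain ⟨τ, h1⟩ := exists_mapCh hσ.2
    refine ⟨τ, ?_, h1⟩
    rw [mem_Ch, ← isCh_mapCh_iff hi, h1]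
    exact hσ.1
  · intro τ _
    rfl

theorem sum_Ch_equiv (e : A ≃* B) (ℓ : ℕ) (Z : Subgroup A)
    {M : Type*} [AddCommMonoid M] (F : Finset (Subgroup B) → M) :
    ∑ σ ∈ Ch ℓ (Z.map e.toMonoidHom), F σ = ∑ τ ∈ Ch ℓ Z, F (mapCh e.toMonoidHom τ) := by
  classical
  rw [← sum_Ch_range (i := e.toMonoidHom) e.injective, Finset.filter_true_of_mem]
  intro σ _ D _
  rw [MonoidHom.range_eq_top.mpr e.surjective]
  exact le_top

end ChainMap

end Pool.Agent.Lib_helper13


end

section

/-! Basic ordinary character theory of finite groups, at the level of functions. -/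

namespace Pool.Agent.Lib_helper13

open Representation

/-- `χ : H → ℂ` is an irreducible complex character of the group `H`: it is the character of an
irreducible representation of `H` on some `ℂ ^ n`. -/
def IsIrr {H : Type*} [Group H] (χ : H → ℂ) : Prop :=
  ∃ (n : ℕ) (ρ : Representation ℂ H (Fin n → ℂ)), ρ.IsIrreducible ∧ ρ.character = χ

section Criterion

variable {H : Type*} [Group H] [Fintype H]

theorem natCard_ne_zero : (Nat.card H : ℂ) ≠ 0 := by
  have : Nat.card H ≠ 0 := Nat.card_pos.ne'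
  exact_mod_cast this

noncomputable instance invNatCard : Invertible (Nat.card H : ℂ) :=
  invertibleOfNonzero natCard_ne_zero

variable {V : Type*} [AddCommGroup V] [Module ℂ V] [FiniteDimensional ℂ V]
variable {W : Type*} [AddCommGroup W] [Module ℂ W] [FiniteDimensional ℂ W]

theorem sum_char_eq_finrank (ρ : Representation ℂ H V) (σ : Representation ℂ H W) :
    ∑ g : H, σ.character g * ρ.character g⁻¹ =
      (Nat.card H : ℂ) * Module.finrank ℂ (IntertwiningMap ρ σ) := by
  have h := card_inv_mul_sum_char_mul_char_eq_finrank ρ σ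
  rw [← h, ← mul_assoc, mul_inv_cancel₀ natCard_ne_zero, one_mul]

theorem sum_char_self (ρ : Representation ℂ H V) [ρ.IsIrreducible] :
    ∑ g : H, ρ.character g * ρ.character g⁻¹ = Nat.card H := by
  rw [sum_char_eq_finrank, IsIrreducible.finrank_intertwiningMap_self]
  simp

theorem irreducible_of_sum (ρ : Representation ℂ H V)
    (h : ∑ g : H, ρ.character g * ρ.character g⁻¹ = Nat.card H) : ρ.IsIrreducible := by
  rw [sum_char_eq_finrank] at h
  have h1 : Module.finrank ℂ (IntertwiningMap ρ ρ) = 1 := by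
    have := mul_left_cancel₀ natCard_ne_zero (h.trans (mul_one _).symm)
    exact_mod_cast this
  obtain ⟨v, hv, hv'⟩ := finrank_eq_one_iff'.mp h1
  have hnt : Nontrivial V := by
    by_contra hc
    rw [not_nontrivial_iff_subsingleton] at hc
    apply hv
    ext x
    exact Subsingleton.elim _ _
  -- every intertwining map is a scalar
  have hid : ∃ c : ℂ, c • v = IntertwiningMap.id ρ := hv' _
  obtain ⟨c, hc⟩ := hid
  have hidne : IntertwiningMap.id ρ ≠ 0 := by
    intro h0
    obtain ⟨x, hx⟩ := exists_ne (0 : V)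
    apply hx
    have := congrArg (fun f : IntertwiningMap ρ ρ => f x) h0
    simpa using this
  have hc0 : c ≠ 0 := by
    rintro rfl
    apply hidne
    rw [← hc, zero_smul]
  have hscal : ∀ f : IntertwiningMap ρ ρ, ∃ a : ℂ, ∀ x, f x = a • x := by
    intro f
    obtain ⟨a, ha⟩ := hv' f
    refine ⟨a * c⁻¹, fun x => ?_⟩
    have h2 : v = c⁻¹ • IntertwiningMap.id ρ := by
      rw [← hc, smul_smul, inv_mul_cancel₀ hc0, one_smul]
    rw [← ha, h2]
    simp [smul_smul]
  have : ComplementedLattice (Subrepresentation ρ) :=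
    (inferInstance : IsSemisimpleRepresentation ρ)
  refine { exists_pair_ne := ⟨⊥, ⊤, ?_⟩, eq_bot_or_eq_top := ?_ }
  · intro hbt
    obtain ⟨x, hx⟩ := exists_ne (0 : V)
    apply hx
    have hxt : x ∈ (⊤ : Subrepresentation ρ) := by
      change x ∈ (⊤ : Submodule ℂ V); trivial
    rw [← hbt] at hxt
    change x ∈ (⊥ : Submodule ℂ V) at hxt
    simpa using hxt
  · intro a
    obtain ⟨b, hab⟩ := exists_isCompl a
    have hab' : IsCompl a.toSubmodule b.toSubmodule := by
      constructor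
      · rw [disjoint_iff]
        exact congrArg Subrepresentation.toSubmodule (disjoint_iff.mp hab.1)
      · rw [codisjoint_iff]
        exact congrArg Subrepresentation.toSubmodule (codisjoint_iff.mp hab.2)
    let p : V →ₗ[ℂ] V := a.toSubmodule.subtype ∘ₗ Submodule.projectionOnto _ _ hab'
    have hp_a : ∀ x ∈ a.toSubmodule, p x = x := by
      intro x hx
      simp only [p, LinearMap.comp_apply, Submodule.subtype_apply]
      rw [Submodule.projectionOnto_apply_left hab' ⟨x, hx⟩]
    have hp_b : ∀ x ∈ b.toSubmodule, p x = 0 := by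
      intro x hx
      simp only [p, LinearMap.comp_apply, Submodule.subtype_apply]
      rw [(Submodule.projectionOnto_apply_eq_zero_iff hab').mpr hx]
      rfl
    have hpint : ∀ g : H, ∀ x : V, p (ρ g x) = ρ g (p x) := by
      intro g x
      obtain ⟨y, hy, z, hz, rfl⟩ : ∃ y ∈ a.toSubmodule, ∃ z ∈ b.toSubmodule, y + z = x := by
        have : x ∈ a.toSubmodule ⊔ b.toSubmodule := by
          rw [hab'.sup_eq_top]; trivial
        exact Submodule.mem_sup.mp this
      rw [map_add, map_add, map_add, map_add, hp_a y hy, hp_b z hz, hp_a _ (a.2 g hy),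
        hp_b _ (b.2 g hz), map_zero]
    obtain ⟨s, hs⟩ := hscal ⟨p, fun g => LinearMap.ext fun x => hpint g x⟩
    by_cases hs0 : s = 0
    · left
      ext x
      constructor
      · intro hx
        have := hs x
        rw [hs0, zero_smul] at this
        change p x = 0 at this
        rw [hp_a x hx] at this
        rw [this]
        change (0 : V) ∈ (⊥ : Submodule ℂ V)
        exact zero_mem _
      · intro hx
        change x ∈ (⊥ : Submodule ℂ V) at hx
        rw [Submodule.mem_bot] at hx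
        rw [hx]
        exact a.toSubmodule.zero_mem
    · right
      ext x
      constructor
      · intro _
        change x ∈ (⊤ : Submodule ℂ V); trivial
      · intro _
        have := hs x
        change p x = s • x at this
        have h3 : p x ∈ a.toSubmodule := by
          simp only [p, LinearMap.comp_apply, Submodule.subtype_apply]
          exact Submodule.coe_mem _
        rw [this] at h3
        have h4 := a.toSubmodule.smul_mem s⁻¹ h3
        rw [smul_smul, inv_mul_cancel₀ hs0, one_smul] at h4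
        exact h4

theorem irreducible_iff_sum (ρ : Representation ℂ H V) :
    ρ.IsIrreducible ↔ ∑ g : H, ρ.character g * ρ.character g⁻¹ = Nat.card H :=
  ⟨fun _ => sum_char_self ρ, irreducible_of_sum ρ⟩

end Criterion

section IsIrr

variable {H : Type*} [Group H] [Fintype H]

/-- Transport of a representation along a linear equivalence. -/
def transport {V W : Type*} [AddCommGroup V] [Module ℂ V] [AddCommGroup W] [Module ℂ W]
    (e : V ≃ₗ[ℂ] W) (ρ : Representation ℂ H V) : Representation ℂ H W where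
  toFun g := e.toLinearMap ∘ₗ ρ g ∘ₗ e.symm.toLinearMap
  map_one' := by ext x; simp
  map_mul' x y := by ext z; simp

omit [Fintype H] in
theorem transport_character {V W : Type*} [AddCommGroup V] [Module ℂ V] [AddCommGroup W]
    [Module ℂ W] (e : V ≃ₗ[ℂ] W) (ρ : Representation ℂ H V) :
    (transport e ρ).character = ρ.character := by
  ext g
  exact LinearMap.trace_conj' (ρ g) e

theorem isIrr_of_rep {V : Type*} [AddCommGroup V] [Module ℂ V] [FiniteDimensional ℂ V]
    (ρ : Representation ℂ H V) (h : ρ.IsIrreducible) : IsIrr ρ.character := by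
  let b := Module.finBasis ℂ V
  refine ⟨_, transport b.equivFun ρ, ?_, transport_character _ _⟩
  rw [irreducible_iff_sum, transport_character]
  exact (irreducible_iff_sum ρ).mp h

theorem isIrr_of_rep_sum {V : Type*} [AddCommGroup V] [Module ℂ V] [FiniteDimensional ℂ V]
    (ρ : Representation ℂ H V)
    (h : ∑ g : H, ρ.character g * ρ.character g⁻¹ = Nat.card H) : IsIrr ρ.character :=
  isIrr_of_rep ρ ((irreducible_iff_sum ρ).mpr h)

theorem IsIrr.sum_self {χ : H → ℂ} (h : IsIrr χ) : ∑ g, χ g * χ g⁻¹ = Nat.card H := by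
  obtain ⟨n, ρ, hρ, rfl⟩ := h
  exact (irreducible_iff_sum ρ).mp hρ

theorem IsIrr.sum_ne {χ ψ : H → ℂ} (h : IsIrr χ) (h' : IsIrr ψ) (hne : χ ≠ ψ) :
    ∑ g, χ g * ψ g⁻¹ = 0 := by
  obtain ⟨n, ρ, hρ, rfl⟩ := h
  obtain ⟨m, σ, hσ, rfl⟩ := h'
  have hE : IsEmpty (Representation.Equiv σ ρ) := by
    constructor
    intro e
    exact hne (char_iso e).symm
  rw [sum_char_eq_finrank]
  have : Subsingleton (IntertwiningMap σ ρ) := inferInstance
  rw [Module.finrank_zero_of_subsingleton]
  simp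

omit [Fintype H] in
theorem IsIrr.exists_degree {χ : H → ℂ} (h : IsIrr χ) : ∃ n : ℕ, 0 < n ∧ χ 1 = n := by
  obtain ⟨n, ρ, hρ, rfl⟩ := h
  refine ⟨n, ?_, by simp⟩
  rcases Nat.eq_zero_or_pos n with rfl | hn
  · exfalso
    obtain ⟨a, b, hab⟩ := hρ.exists_pair_ne
    apply hab
    ext x
    have : x = 0 := Subsingleton.elim _ _
    subst this
    constructor
    · intro _; exact b.toSubmodule.zero_mem
    · intro _; exact a.toSubmodule.zero_mem
  · exact hn

omit [Fintype H] in
theorem IsIrr.one_ne_zero {χ : H → ℂ} (h : IsIrr χ) : χ 1 ≠ 0 := by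
  obtain ⟨n, hn, h1⟩ := h.exists_degree
  rw [h1]
  exact_mod_cast hn.ne'

omit [Fintype H] in
theorem IsIrr.conj_eq {χ : H → ℂ} (h : IsIrr χ) (g x : H) : χ (g * x * g⁻¹) = χ x := by
  obtain ⟨n, ρ, hρ, rfl⟩ := h
  exact char_conj ρ x g

omit [Fintype H] in
theorem IsIrr.isConj {χ : H → ℂ} (h : IsIrr χ) {x y : H} (hxy : IsConj x y) : χ x = χ y := by
  obtain ⟨c, rfl⟩ := isConj_iff.mp hxy
  rw [h.conj_eq]

/-- Transport of irreducible characters along group isomorphisms. -/
theorem IsIrr.comp_mulEquiv {H' : Type*} [Group H'] {χ : H → ℂ} (h : IsIrr χ) (e : H' ≃* H) :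
    IsIrr (χ ∘ e) := by
  have : Fintype H' := Fintype.ofEquiv H e.symm.toEquiv
  obtain ⟨n, ρ, hρ, rfl⟩ := h
  have h1 : (Representation.character (ρ.comp e.toMonoidHom : Representation ℂ H' (Fin n → ℂ)))
      = ρ.character ∘ e := rfl
  rw [← h1]
  apply isIrr_of_rep_sum
  rw [h1]
  have h2 := (irreducible_iff_sum ρ).mp hρ
  rw [Nat.card_congr e.toEquiv, ← h2]
  refine Fintype.sum_equiv e.toEquiv _ _ ?_
  intro x
  simp

/-- The irreducible characters are linearly independent, hence finite in number. -/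
theorem finite_isIrr : {χ : H → ℂ | IsIrr χ}.Finite := by
  have hli : LinearIndepOn ℂ (id : (H → ℂ) → (H → ℂ)) {χ : H → ℂ | IsIrr χ} := by
    rw [linearIndepOn_iff']
    intro s g hs hsum χ hχ
    have h0 : ∑ x : H, (∑ ψ ∈ s, g ψ • (id ψ : H → ℂ)) x * χ x⁻¹ = 0 := by
      rw [hsum]; simp
    have h1 : ∑ x : H, (∑ ψ ∈ s, g ψ • (id ψ : H → ℂ)) x * χ x⁻¹ = g χ * Nat.card H := by
      have : ∀ x : H, (∑ ψ ∈ s, g ψ • (id ψ : H → ℂ)) x * χ x⁻¹ =
          ∑ ψ ∈ s, g ψ * (ψ x * χ x⁻¹) := by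
        intro x
        simp only [Finset.sum_apply, Pi.smul_apply, id, smul_eq_mul, Finset.sum_mul]
        exact Finset.sum_congr rfl fun _ _ => by ring
      simp_rw [this]
      rw [Finset.sum_comm]
      simp_rw [← Finset.mul_sum]
      rw [Finset.sum_eq_single χ]
      · rw [(hs hχ : IsIrr χ).sum_self]
      · intro ψ hψ hne
        rw [(hs hψ : IsIrr ψ).sum_ne (hs hχ) hne, mul_zero]
      · intro h; exact absurd hχ h
    rw [h0] at h1
    rcases mul_eq_zero.mp h1.symm with h2 | h2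
    · exact h2
    · exact absurd h2 natCard_ne_zero
  exact hli.finite_of_isNoetherian

instance : Finite {χ : H → ℂ // IsIrr χ} := finite_isIrr.to_subtype

end IsIrr

end Pool.Agent.Lib_helper13


end

section

set_option linter.unusedSectionVars false

/-! Central characters: scalars, integrality, and vanishing modulo `ℓ` off centralizers of
normal `ℓ`-subgroups. -/

namespace Pool.Agent.Lib_helper13

open Representation

section Scalar

variable {H : Type*} [Group H]

theorem exists_scalar {V : Type*} [AddCommGroup V] [Module ℂ V] [FiniteDimensional ℂ V]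
    (ρ : Representation ℂ H V) (hρ : ρ.IsIrreducible) (T : V →ₗ[ℂ] V)
    (hT : ∀ g x, T (ρ g x) = ρ g (T x)) : ∃ c : ℂ, T = c • LinearMap.id := by
  have hb := (IsIrreducible.algebraMap_intertwiningMap_bijective_of_isAlgClosed (ρ := ρ)).2
  obtain ⟨c, hc⟩ := hb ⟨T, fun g => LinearMap.ext fun x => hT g x⟩
  refine ⟨c, ?_⟩
  ext x
  have := congrArg (fun f : IntertwiningMap ρ ρ => f x) hc
  change _ = T x at this
  rw [← this]
  simp [IntertwiningMap.algebraMap_apply]

/-- The scalar `∑ z(y) χ(y) / χ(1)` attached to an element of the integral group ring. -/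
noncomputable def om [Fintype H] (χ : H → ℂ) (z : MonoidAlgebra ℤ H) : ℂ :=
  (∑ y : H, (z.coeff y : ℂ) * χ y) / χ 1

theorem lift_eq_sum [Fintype H] {A : Type*} [Ring A] (F : H →* A) (z : MonoidAlgebra ℤ H) :
    MonoidAlgebra.lift ℤ A H F z = ∑ y : H, (z.coeff y) • F y := by
  rw [MonoidAlgebra.lift_apply]
  exact Finsupp.sum_fintype _ _ (by simp)

theorem om_scalar [Fintype H] {n : ℕ} (ρ : Representation ℂ H (Fin n → ℂ)) (hρ : ρ.IsIrreducible)
    (z : MonoidAlgebra ℤ H) (hz : z ∈ Subalgebra.center ℤ (MonoidAlgebra ℤ H)) :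
    MonoidAlgebra.lift ℤ (Module.End ℂ (Fin n → ℂ)) H ρ z = om ρ.character z • LinearMap.id := by
  obtain ⟨c, hc⟩ := exists_scalar ρ hρ (MonoidAlgebra.lift ℤ (Module.End ℂ (Fin n → ℂ)) H ρ z) (by
    intro g x
    have h1 : z * MonoidAlgebra.single g 1 = MonoidAlgebra.single g 1 * z :=
      (Subalgebra.mem_center_iff.mp hz _).symm
    have h2 := congrArg (MonoidAlgebra.lift ℤ (Module.End ℂ (Fin n → ℂ)) H ρ) h1
    rw [map_mul, map_mul, MonoidAlgebra.lift_single, one_smul] at h2
    exact congrArg (fun f : Module.End ℂ (Fin n → ℂ) => f x) h2)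
  rw [hc]
  congr 1
  have h1 : (ρ.character 1 : ℂ) ≠ 0 := IsIrr.one_ne_zero ⟨n, ρ, hρ, rfl⟩
  rw [om, eq_div_iff h1]
  have h2 := congrArg (LinearMap.trace ℂ (Fin n → ℂ)) hc
  rw [lift_eq_sum, map_sum] at h2
  have h3 : ∀ y : H, LinearMap.trace ℂ (Fin n → ℂ) (z.coeff y • ρ y) =
      (z.coeff y : ℂ) * ρ.character y := by
    intro y
    rw [← Int.cast_smul_eq_zsmul ℂ, map_smul]
    rfl
  simp_rw [h3] at h2
  rw [h2, map_smul, char_one]
  simp

theorem om_mul [Fintype H] {χ : H → ℂ} (hχ : IsIrr χ) {z w : MonoidAlgebra ℤ H}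
    (hz : z ∈ Subalgebra.center ℤ (MonoidAlgebra ℤ H))
    (hw : w ∈ Subalgebra.center ℤ (MonoidAlgebra ℤ H)) : om χ (z * w) = om χ z * om χ w := by
  obtain ⟨n, ρ, hρ, rfl⟩ := hχ
  have hn := IsIrr.one_ne_zero (χ := ρ.character) ⟨n, ρ, hρ, rfl⟩
  have h1 := om_scalar ρ hρ (z * w) (mul_mem hz hw)
  rw [map_mul, om_scalar ρ hρ z hz, om_scalar ρ hρ w hw] at h1
  have h2 := congrArg (LinearMap.trace ℂ (Fin n → ℂ)) h1
  rw [char_one] at hn
  have h4 : (om ρ.character z • (LinearMap.id : (Fin n → ℂ) →ₗ[ℂ] (Fin n → ℂ))) *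
      (om ρ.character w • (LinearMap.id : (Fin n → ℂ) →ₗ[ℂ] (Fin n → ℂ))) =
      (om ρ.character z * om ρ.character w) • LinearMap.id := by
    apply LinearMap.ext
    intro x
    simp [smul_smul, mul_comm]
  rw [h4, map_smul, map_smul] at h2
  have h3 : LinearMap.trace ℂ (Fin n → ℂ) LinearMap.id ≠ 0 := by
    rw [LinearMap.trace_id]; exact hn
  exact (mul_right_cancel₀ h3 h2).symm

theorem om_one [Fintype H] {χ : H → ℂ} (hχ : IsIrr χ) : om χ (1 : MonoidAlgebra ℤ H) = 1 := by
  classical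
  rw [om, MonoidAlgebra.one_def]
  simp only [MonoidAlgebra.coeff_single, Finsupp.single_apply]
  rw [Finset.sum_eq_single 1]
  · simp [div_self hχ.one_ne_zero]
  · intro b _ hb
    simp [Ne.symm hb]
  · simp

theorem om_add [Fintype H] (χ : H → ℂ) (z w : MonoidAlgebra ℤ H) :
    om χ (z + w) = om χ z + om χ w := by
  simp [om, add_mul, Finset.sum_add_distrib, add_div]

theorem om_zero [Fintype H] (χ : H → ℂ) : om χ (0 : MonoidAlgebra ℤ H) = 0 := by
  simp [om]

theorem om_smul [Fintype H] (χ : H → ℂ) (a : ℤ) (z : MonoidAlgebra ℤ H) :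
    om χ (a • z) = a * om χ z := by
  have h : ∀ y, ((a • z).coeff y : ℂ) = a * z.coeff y := fun y => by
    rw [MonoidAlgebra.coeff_smul_apply, smul_eq_mul]
    push_cast
    rfl
  simp_rw [om, h, mul_assoc, ← Finset.mul_sum, mul_div_assoc]

/-- The central character as a ring homomorphism. -/
noncomputable def omHom [Fintype H] {χ : H → ℂ} (hχ : IsIrr χ) :
    Subalgebra.center ℤ (MonoidAlgebra ℤ H) →+* ℂ where
  toFun z := om χ z
  map_one' := om_one hχ
  map_mul' z w := om_mul hχ z.2 w.2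
  map_zero' := om_zero χ
  map_add' z w := om_add χ z w

instance centerIntegral [Finite H] :
    Algebra.IsIntegral ℤ (Subalgebra.center ℤ (MonoidAlgebra ℤ H)) := by
  have : Module.Finite ℤ (MonoidAlgebra ℤ H) := inferInstance
  have : Module.Finite ℤ (Subalgebra.center ℤ (MonoidAlgebra ℤ H)) :=
    Module.Finite.of_injective (Subalgebra.center ℤ (MonoidAlgebra ℤ H)).val.toLinearMap
      Subtype.val_injective
  infer_instance

theorem isIntegral_om [Fintype H] {χ : H → ℂ} (hχ : IsIrr χ) {z : MonoidAlgebra ℤ H}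
    (hz : z ∈ Subalgebra.center ℤ (MonoidAlgebra ℤ H)) : IsIntegral ℤ (om χ z) := by
  have h1 : IsIntegral ℤ (⟨z, hz⟩ : Subalgebra.center ℤ (MonoidAlgebra ℤ H)) :=
    Algebra.IsIntegral.isIntegral _
  exact h1.map (omHom hχ).toIntAlgHom

end Scalar

section PGroupSums

/-- Sums of invariant functions over a set acted on by an `ℓ`-group, with values in a group killed
by `ℓ`, localize on the fixed points. -/
theorem sum_eq_sum_fixed {ℓ : ℕ} [Fact ℓ.Prime] {Q X M : Type*} [Group Q] (hQ : IsPGroup ℓ Q)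
    [MulAction Q X] [Fintype X] [AddCommGroup M] (hM : ∀ m : M, ℓ • m = 0)
    (F : X → M) (hF : ∀ (q : Q) (x : X), F (q • x) = F x)
    [DecidablePred fun x : X => ∀ q : Q, q • x = x] :
    ∑ x : X, F x = ∑ x ∈ Finset.univ.filter (fun x : X => ∀ q : Q, q • x = x), F x := by
  classical
  have key : ∀ s t : Finset X, (∀ v : M, (s.filter (fun x => F x = v)).card ≡
      (t.filter (fun x => F x = v)).card [MOD ℓ]) → ∑ x ∈ s, F x = ∑ x ∈ t, F x := by
    intro s t h
    have hs : ∀ s : Finset X, ∑ x ∈ s, F x =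
        ∑ v ∈ Finset.univ.image F, (s.filter (fun x => F x = v)).card • v := by
      intro s
      rw [← Finset.sum_fiberwise_of_maps_to (s := s) (t := Finset.univ.image F) (g := F)
        (fun i _ => Finset.mem_image_of_mem _ (Finset.mem_univ _))]
      refine Finset.sum_congr rfl fun v _ => ?_
      rw [Finset.card_eq_sum_ones, Finset.sum_smul]
      refine Finset.sum_congr rfl fun x hx => ?_
      rw [(Finset.mem_filter.mp hx).2, one_smul]
    rw [hs s, hs t]
    refine Finset.sum_congr rfl fun v _ => ?_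
    have hmul : ∀ a b : ℕ, a ≡ b [MOD ℓ] → a • v = b • v := by
      have h1 : ∀ a b : ℕ, a ≤ b → a ≡ b [MOD ℓ] → a • v = b • v := by
        intro a b hab h
        obtain ⟨c, rfl⟩ := Nat.exists_eq_add_of_le hab
        have : ℓ ∣ c := by
          have := (Nat.modEq_iff_dvd' hab).mp h
          simpa using this
        obtain ⟨d, rfl⟩ := this
        rw [add_smul, mul_comm, mul_smul, hM, smul_zero, add_zero]
      intro a b h
      rcases le_total a b with hab | hab
      · exact h1 a b hab h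
      · exact (h1 b a hab h.symm).symm
    exact hmul _ _ (h v)
  apply key
  intro v
  -- the action of `Q` on the fibre
  let Y := {x : X // F x = v}
  let _ : MulAction Q Y :=
    { smul := fun q y => ⟨q • y.1, by rw [hF]; exact y.2⟩
      one_smul := fun y => Subtype.ext (one_smul _ _)
      mul_smul := fun a b y => Subtype.ext (mul_smul _ _ _) }
  have h := hQ.card_modEq_card_fixedPoints Y
  have e1 : Nat.card Y = (Finset.univ.filter (fun x => F x = v)).card := by
    rw [Nat.card_eq_fintype_card, Fintype.card_subtype]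
  have e2 : Nat.card (MulAction.fixedPoints Q Y) =
      ((Finset.univ.filter (fun x : X => ∀ q : Q, q • x = x)).filter (fun x => F x = v)).card := by
    rw [Finset.filter_filter]
    rw [← Fintype.card_subtype, ← Nat.card_eq_fintype_card]
    refine Nat.card_congr ⟨fun y => ⟨y.1.1, ⟨fun q => ?_, y.1.2⟩⟩,
      fun x => ⟨⟨x.1, x.2.2⟩, fun q => Subtype.ext (x.2.1 q)⟩, fun _ => rfl, fun _ => rfl⟩
    exact congrArg Subtype.val (y.2 q)
  rw [e1, e2] at h
  exact h

theorem exists_pow_idem {M : Type*} [Monoid M] [Finite M] (a : M) :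
    ∃ N, 0 < N ∧ a ^ N * a ^ N = a ^ N := by
  obtain ⟨i, j, hij, h⟩ := Finite.exists_ne_map_eq_of_infinite (fun n : ℕ => a ^ n)
  wlog hlt : i < j generalizing i j
  · exact this j i hij.symm h.symm (lt_of_le_of_ne (not_lt.mp hlt) hij.symm)
  obtain ⟨p, hp, rfl⟩ : ∃ p, 0 < p ∧ j = i + p :=
    ⟨j - i, Nat.sub_pos_of_lt hlt, (Nat.add_sub_of_le hlt.le).symm⟩
  have h1 : ∀ n, i ≤ n → a ^ (n + p) = a ^ n := by
    intro n hn
    obtain ⟨c, rfl⟩ := Nat.exists_eq_add_of_le hn
    rw [add_right_comm, pow_add, ← h, ← pow_add]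
  have h2 : ∀ k n, i ≤ n → a ^ (n + k * p) = a ^ n := by
    intro k
    induction k with
    | zero => intro n _; simp
    | succ k ih =>
      intro n hn
      rw [Nat.succ_mul, ← add_assoc, h1 _ (hn.trans (Nat.le_add_right _ _)), ih n hn]
  refine ⟨(i + 1) * p, Nat.mul_pos (Nat.succ_pos _) hp, ?_⟩
  rw [← pow_add]
  exact h2 (i + 1) ((i + 1) * p) (by nlinarith)

end PGroupSums

section Nilpotent

variable {H : Type*} [Group H] [Fintype H]

/-- The group ring element with coefficient function `c`. -/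
noncomputable def elt (c : H → ℤ) : MonoidAlgebra ℤ H := ∑ y, MonoidAlgebra.single y (c y)

theorem elt_coeff (c : H → ℤ) (x : H) : (elt c).coeff x = c x := by
  classical
  rw [elt, MonoidAlgebra.coeff_sum, Finsupp.finsetSum_apply, Finset.sum_eq_single x]
  · simp
  · intro b _ hb
    simp [MonoidAlgebra.coeff_single, hb]
  · simp

theorem om_elt (χ : H → ℂ) (c : H → ℤ) : om χ (elt c) = (∑ y, (c y : ℂ) * χ y) / χ 1 := by
  simp [om, elt_coeff]

theorem mem_center_of_comm {R : Type*} [CommRing R] (z : MonoidAlgebra R H)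
    (h : ∀ g : H, MonoidAlgebra.single g 1 * z = z * MonoidAlgebra.single g 1) :
    z ∈ Subalgebra.center R (MonoidAlgebra R H) := by
  rw [Subalgebra.mem_center_iff]
  intro b
  induction b using MonoidAlgebra.induction_linear with
  | zero => simp
  | add x y hx hy => rw [add_mul, mul_add, hx, hy]
  | single g a =>
    have : MonoidAlgebra.single g a = a • (MonoidAlgebra.single g (1 : R)) := by
      rw [MonoidAlgebra.smul_single, smul_eq_mul, mul_one]
    rw [this, smul_mul_assoc, mul_smul_comm, h g]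

theorem elt_mem_center (c : H → ℤ) (hc : ∀ g x, c (g * x * g⁻¹) = c x) :
    elt c ∈ Subalgebra.center ℤ (MonoidAlgebra ℤ H) := by
  apply mem_center_of_comm
  intro g
  rw [elt, Finset.mul_sum, Finset.sum_mul]
  refine Fintype.sum_equiv (MulAut.conj g).toEquiv _ _ ?_
  intro x
  have : (MulAut.conj g).toEquiv x = g * x * g⁻¹ := rfl
  rw [this, MonoidAlgebra.single_mul_single, MonoidAlgebra.single_mul_single, hc]
  simp

theorem elt_map (ℓ : ℕ) (c : H → ℤ) :
    MonoidAlgebra.mapRingHom H (Int.castRingHom (ZMod ℓ)) (elt c) =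
      ∑ y, MonoidAlgebra.single y (c y : ZMod ℓ) := by
  rw [elt, map_sum]
  refine Finset.sum_congr rfl fun y _ => ?_
  rw [MonoidAlgebra.mapRingHom_single]
  rfl

theorem elt_pow_zero {ℓ : ℕ} [Fact ℓ.Prime] (Q : Subgroup H) [Q.Normal] (hQ : IsPGroup ℓ Q)
    (c : H → ℤ) (hc : ∀ g x, c (g * x * g⁻¹) = c x)
    (hc0 : ∀ y, (∀ q ∈ Q, q * y = y * q) → c y = 0) :
    ∃ N, 0 < N ∧ (MonoidAlgebra.mapRingHom H (Int.castRingHom (ZMod ℓ)) (elt c)) ^ N = 0 := by
  classical
  set z := MonoidAlgebra.mapRingHom H (Int.castRingHom (ZMod ℓ)) (elt c) with hz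
  have hfin : Finite (MonoidAlgebra (ZMod ℓ) H) :=
    Finite.of_equiv (H →₀ ZMod ℓ) MonoidAlgebra.coeffEquiv.symm
  obtain ⟨N, hN, hid⟩ := exists_pow_idem z
  refine ⟨N, hN, ?_⟩
  by_contra hne
  have hzc : ∀ w, w * z = z * w := by
    intro w
    have h1 : z ∈ Subalgebra.center (ZMod ℓ) (MonoidAlgebra (ZMod ℓ) H) := by
      apply mem_center_of_comm
      intro g
      have h2 := Subalgebra.mem_center_iff.mp (elt_mem_center c hc) (MonoidAlgebra.single g 1)
      have h3 := congrArg (MonoidAlgebra.mapRingHom H (Int.castRingHom (ZMod ℓ))) h2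
      rw [map_mul, map_mul, MonoidAlgebra.mapRingHom_single, map_one] at h3
      exact h3
    exact Subalgebra.mem_center_iff.mp h1 w
  have hec : ∀ w, w * z ^ N = z ^ N * w := fun w => (Commute.pow_right (hzc w) N : _)
  -- the additive group of elements fixed by the idempotent
  let K : AddSubgroup (MonoidAlgebra (ZMod ℓ) H) :=
    { carrier := {m | z ^ N * m = m}
      add_mem' := by
        intro a b ha hb
        simp only [Set.mem_ofPred_eq] at ha hb ⊢
        rw [mul_add, ha, hb]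
      zero_mem' := by simp
      neg_mem' := by
        intro a ha
        simp only [Set.mem_ofPred_eq] at ha ⊢
        rw [mul_neg, ha] }
  have hkill : ∀ m : MonoidAlgebra (ZMod ℓ) H, ℓ • m = 0 := by
    intro m
    have : (ℓ : ZMod ℓ) • m = 0 := by simp
    rwa [Nat.cast_smul_eq_nsmul] at this
  let _ : MulAction Q K :=
    { smul := fun q m => ⟨MonoidAlgebra.single (q : H) 1 * m.1, by
        change z ^ N * (MonoidAlgebra.single (q : H) 1 * m.1) = _
        rw [← mul_assoc, ← hec, mul_assoc]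
        congr 1
        exact m.2⟩
      one_smul := fun m => Subtype.ext (by
        change MonoidAlgebra.single ((1 : Q) : H) 1 * m.1 = m.1
        rw [OneMemClass.coe_one, ← MonoidAlgebra.one_def, one_mul])
      mul_smul := fun a b m => Subtype.ext (by
        change MonoidAlgebra.single ((a * b : Q) : H) 1 * m.1 =
          MonoidAlgebra.single (a : H) 1 * (MonoidAlgebra.single (b : H) 1 * m.1)
        rw [← mul_assoc, MonoidAlgebra.single_mul_single, one_mul, Subgroup.coe_mul]) }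
  have hdvd : ℓ ∣ Nat.card K := by
    have h1 : addOrderOf (⟨z ^ N, hid⟩ : K) = ℓ := by
      apply addOrderOf_eq_prime
      · exact Subtype.ext (hkill _)
      · intro h0
        exact hne (congrArg Subtype.val h0)
    have h2 := addOrderOf_dvd_natCard (⟨z ^ N, hid⟩ : K)
    rwa [h1] at h2
  obtain ⟨m, hm, hm0⟩ := hQ.exists_fixed_point_of_prime_dvd_card_of_fixed_point K hdvd
    (a := (0 : K)) (by
      intro q
      apply Subtype.ext
      change MonoidAlgebra.single (q : H) 1 * (0 : MonoidAlgebra (ZMod ℓ) H) = 0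
      rw [mul_zero])
  have hfix : ∀ q ∈ Q, MonoidAlgebra.single q 1 * m.1 = m.1 := fun q hq =>
    congrArg Subtype.val (hm ⟨q, hq⟩)
  -- `z` kills `m`
  have hzm : z * m.1 = 0 := by
    rw [hz, elt_map, Finset.sum_mul]
    let _ : MulAction Q H :=
      { smul := fun q y => q.1 * y * q.1⁻¹
        one_smul := fun y => by change ((1 : Q) : H) * y * ((1 : Q) : H)⁻¹ = y; simp
        mul_smul := fun a b y => by
          change ((a * b : Q) : H) * y * ((a * b : Q) : H)⁻¹ = a.1 * (b.1 * y * b.1⁻¹) * a.1⁻¹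
          simp [mul_assoc] }
    have hsmul : ∀ (q : Q) (y : H), q • y = q.1 * y * q.1⁻¹ := fun _ _ => rfl
    rw [sum_eq_sum_fixed hQ hkill]
    · apply Finset.sum_eq_zero
      intro y hy
      have h1 := (Finset.mem_filter.mp hy).2
      have h2 : c y = 0 := by
        apply hc0
        intro q hq
        have h3 := h1 ⟨q, hq⟩
        rw [hsmul] at h3
        exact mul_inv_eq_iff_eq_mul.mp h3
      rw [h2]
      simp
    · intro q y
      rw [hsmul, hc]
      have h1 : (MonoidAlgebra.single (q.1 * y * q.1⁻¹) ((c y : ℤ) : ZMod ℓ)) =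
          MonoidAlgebra.single y ((c y : ℤ) : ZMod ℓ) *
            MonoidAlgebra.single (y⁻¹ * q.1 * y) 1 * MonoidAlgebra.single (q.1⁻¹) 1 := by
        rw [MonoidAlgebra.single_mul_single, MonoidAlgebra.single_mul_single]
        congr 1
        · group
        · ring
      rw [h1, mul_assoc, mul_assoc, hfix _ (Q.inv_mem q.2), hfix]
      have := Subgroup.Normal.conj_mem (H := Q) inferInstance q.1 q.2 y⁻¹
      simpa using this
  apply hm0
  apply Subtype.ext
  obtain ⟨N', rfl⟩ : ∃ N', N = N' + 1 := ⟨N - 1, by omega⟩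
  have h1 : z ^ (N' + 1) * m.1 = m.1 := m.2
  rw [pow_succ, mul_assoc, hzm, mul_zero] at h1
  exact h1

end Nilpotent

end Pool.Agent.Lib_helper13


end

section

set_option linter.unusedSectionVars false

/-! Completeness of the irreducible characters among class functions. -/

namespace Pool.Agent.Lib_helper13

open Representation

section

variable {H : Type*} [Group H] [Fintype H]

/-- The operator `∑ f(g) ρ(g⁻¹)`. -/
noncomputable def opSum {V : Type*} [AddCommGroup V] [Module ℂ V] (f : H → ℂ)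
    (ρ : Representation ℂ H V) : V →ₗ[ℂ] V := ∑ g, f g • ρ g⁻¹

theorem opSum_apply {V : Type*} [AddCommGroup V] [Module ℂ V] (f : H → ℂ)
    (ρ : Representation ℂ H V) (x : V) : opSum f ρ x = ∑ g, f g • ρ g⁻¹ x := by
  simp [opSum, LinearMap.sum_apply]

theorem opSum_comm {V : Type*} [AddCommGroup V] [Module ℂ V] (f : H → ℂ)
    (hf : ∀ g x, f (g * x * g⁻¹) = f x) (ρ : Representation ℂ H V) (h : H) (x : V) :
    opSum f ρ (ρ h x) = ρ h (opSum f ρ x) := by
  simp only [opSum_apply, map_sum, map_smul]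
  refine Fintype.sum_equiv (MulAut.conj h⁻¹).toEquiv _ _ ?_
  intro g
  have h1 : (MulAut.conj h⁻¹).toEquiv g = h⁻¹ * g * h⁻¹⁻¹ := rfl
  rw [h1, hf]
  congr 1
  rw [← Module.End.mul_apply, ← map_mul, ← Module.End.mul_apply, ← map_mul]
  congr 2
  group

/-- Restriction of a representation to a subrepresentation, on the nose. -/
theorem opSum_eq_zero_aux (f : H → ℂ) (hf : ∀ g x, f (g * x * g⁻¹) = f x)
    (h : ∀ χ : H → ℂ, IsIrr χ → ∑ g, f g * χ g⁻¹ = 0) :
    ∀ (n : ℕ) {V : Type} [AddCommGroup V] [Module ℂ V] [FiniteDimensional ℂ V]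
    (ρ : Representation ℂ H V), Module.finrank ℂ V = n → opSum f ρ = 0 := by
  intro n
  induction n using Nat.strong_induction_on with
  | _ n ih =>
    intro V _ _ _ ρ hn
    by_cases hirr : ρ.IsIrreducible
    · obtain ⟨c, hc⟩ := exists_scalar ρ hirr (opSum f ρ) (fun g x => opSum_comm f hf ρ g x)
      have h1 : LinearMap.trace ℂ V (opSum f ρ) = 0 := by
        rw [opSum, map_sum]
        have := h ρ.character (isIrr_of_rep ρ hirr)
        simp only [map_smul, smul_eq_mul]
        exact this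
      rw [hc, map_smul, LinearMap.trace_id, smul_eq_mul] at h1
      have h2 : (Module.finrank ℂ V : ℂ) ≠ 0 := by
        have := (isIrr_of_rep ρ hirr).one_ne_zero
        rwa [char_one] at this
      have h3 : c = 0 := by
        rcases mul_eq_zero.mp h1 with h | h
        · exact h
        · exact absurd h h2
      rw [hc, h3, zero_smul]
    · by_cases hsub : Subsingleton V
      · apply LinearMap.ext
        intro x
        exact Subsingleton.elim _ _
      · have hnt : Nontrivial V := not_subsingleton_iff_nontrivial.mp hsub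
        -- a proper nonzero subrepresentation
        have hex : ∃ a : Subrepresentation ρ, a ≠ ⊥ ∧ a ≠ ⊤ := by
          by_contra hcon
          push Not at hcon
          apply hirr
          refine { exists_pair_ne := ⟨⊥, ⊤, ?_⟩, eq_bot_or_eq_top := ?_ }
          · intro hbt
            obtain ⟨x, hx⟩ := exists_ne (0 : V)
            apply hx
            have hxt : x ∈ (⊤ : Subrepresentation ρ) := by
              change x ∈ (⊤ : Submodule ℂ V); trivial
            rw [← hbt] at hxt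
            change x ∈ (⊥ : Submodule ℂ V) at hxt
            simpa using hxt
          · intro a
            by_cases ha : a = ⊥
            · exact Or.inl ha
            · exact Or.inr (hcon a ha)
        obtain ⟨a, ha, ha'⟩ := hex
        have hcl : ComplementedLattice (Subrepresentation ρ) :=
          (inferInstance : IsSemisimpleRepresentation ρ)
        obtain ⟨b, hab⟩ := exists_isCompl a
        have hb' : b ≠ ⊤ := by
          rintro rfl
          apply ha
          have := disjoint_iff.mp hab.1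
          rwa [inf_top_eq] at this
        have key : ∀ s : Subrepresentation ρ, s ≠ ⊤ → ∀ x ∈ s, opSum f ρ x = 0 := by
          intro s hs x hx
          have hlt : Module.finrank ℂ s.toSubmodule < n := by
            rw [← hn]
            apply Submodule.finrank_lt
            intro htop
            apply hs
            apply Subrepresentation.toSubmodule_injective
            exact htop
          have h1 := ih _ hlt s.toRepresentation rfl
          have h2 := congrArg (fun T : s.toSubmodule →ₗ[ℂ] s.toSubmodule =>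
            ((T ⟨x, hx⟩ : s.toSubmodule) : V)) h1
          simp only [opSum_apply, LinearMap.zero_apply, ZeroMemClass.coe_zero] at h2
          rw [opSum_apply, ← h2]
          rw [AddSubmonoidClass.coe_finsetSum]
          rfl
        apply LinearMap.ext
        intro x
        have hx : x ∈ (a ⊔ b).toSubmodule := by
          rw [codisjoint_iff.mp hab.2]
          change x ∈ (⊤ : Submodule ℂ V); trivial
        obtain ⟨y, hy, z, hz, rfl⟩ := Submodule.mem_sup.mp hx
        rw [map_add, key a ha' y hy, key b hb' z hz, add_zero, LinearMap.zero_apply]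

/-- A class function orthogonal to all irreducible characters vanishes. -/
theorem class_fn_eq_zero (f : H → ℂ) (hf : ∀ g x, f (g * x * g⁻¹) = f x)
    (h : ∀ χ : H → ℂ, IsIrr χ → ∑ g, f g * χ g⁻¹ = 0) : f = 0 := by
  classical
  -- the regular representation on functions
  let n := Fintype.card H
  let ρ : Representation ℂ H (H → ℂ) :=
    { toFun := fun g =>
        { toFun := fun F x => F (g⁻¹ * x)
          map_add' := fun _ _ => rfl
          map_smul' := fun _ _ => rfl }
      map_one' := by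
        apply LinearMap.ext
        intro F
        ext x
        change F (1⁻¹ * x) = F x
        simp
      map_mul' := by
        intro g k
        apply LinearMap.ext
        intro F
        ext x
        change F ((g * k)⁻¹ * x) = F (k⁻¹ * (g⁻¹ * x))
        rw [mul_inv_rev, mul_assoc] }
  let e : H ≃ Fin n := Fintype.equivFin H
  let E : (H → ℂ) ≃ₗ[ℂ] (Fin n → ℂ) := LinearEquiv.funCongrLeft ℂ ℂ e.symm
  have h1 := opSum_eq_zero_aux f hf h _ (transport E ρ) rfl
  have h2 : ∀ F : H → ℂ, opSum f ρ F = 0 := by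
    intro F
    have h3 := congrArg (fun T : (Fin n → ℂ) →ₗ[ℂ] (Fin n → ℂ) => T (E F)) h1
    simp only [opSum_apply, LinearMap.zero_apply] at h3
    rw [opSum_apply]
    apply E.injective
    rw [map_sum, map_zero, ← h3]
    refine Finset.sum_congr rfl fun g _ => ?_
    rw [map_smul]
    congr 1
    change E (ρ g⁻¹ F) = E (ρ g⁻¹ (E.symm (E F)))
    rw [E.symm_apply_apply]
  ext x
  have h4 := congrFun (h2 (Pi.single 1 1)) x⁻¹
  rw [opSum_apply, Finset.sum_apply] at h4
  have h5 : ∀ g : H, (f g • ρ g⁻¹ (Pi.single 1 1 : H → ℂ)) x⁻¹ = if g = x then f g else 0 := by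
    intro g
    change f g * (Pi.single 1 1 : H → ℂ) (g⁻¹⁻¹ * x⁻¹) = _
    rw [inv_inv, Pi.single_apply]
    by_cases hg : g = x
    · subst hg; simp
    · rw [if_neg hg, if_neg, mul_zero]
      intro h6
      exact hg (mul_inv_eq_one.mp h6)
  simp only [h5] at h4
  rw [Finset.sum_ite_eq' Finset.univ x f] at h4
  simpa using h4

/-- A nonzero class function has a nonzero inner product with some irreducible character. -/
theorem exists_irr_of_ne_zero (f : H → ℂ) (hf : ∀ g x, f (g * x * g⁻¹) = f x) (h0 : f ≠ 0) :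
    ∃ χ : H → ℂ, IsIrr χ ∧ ∑ g, f g * χ g⁻¹ ≠ 0 := by
  by_contra hcon
  push Not at hcon
  exact h0 (class_fn_eq_zero f hf hcon)

end

end Pool.Agent.Lib_helper13


end

section

set_option linter.unusedSectionVars false

/-! The method of little groups for a semidirect product `A ⋊ K` with `A` abelian. -/

namespace Pool.Agent.Lib_helper13

open Representation

section Cosets

variable {K : Type*} [Group K] [Fintype K]

theorem sum_cosets (S : Subgroup K) [Fintype (K ⧸ S)] (F : K → ℂ)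
    (hF : ∀ t, ∀ h ∈ S, F (t * h) = F t) :
    ∑ t : K, F t = Nat.card S * ∑ c : K ⧸ S, F c.out := by
  classical
  have hb : Function.Bijective (fun p : (K ⧸ S) × S => p.1.out * (p.2 : K)) := by
    constructor
    · rintro ⟨c, h⟩ ⟨c', h'⟩ heq
      simp only at heq
      have h1 : c = c' := by
        have e1 : (QuotientGroup.mk (c.out * (h : K)) : K ⧸ S) = c := by
          rw [QuotientGroup.mk_mul_of_mem _ h.2, QuotientGroup.out_eq']
        have e2 : (QuotientGroup.mk (c'.out * (h' : K)) : K ⧸ S) = c' := by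
          rw [QuotientGroup.mk_mul_of_mem _ h'.2, QuotientGroup.out_eq']
        rw [← e1, ← e2, heq]
      subst h1
      rw [Prod.mk.injEq]
      exact ⟨rfl, Subtype.ext (mul_left_cancel heq)⟩
    · intro t
      refine ⟨(QuotientGroup.mk t, ⟨(QuotientGroup.mk t : K ⧸ S).out⁻¹ * t, ?_⟩), ?_⟩
      · rw [← QuotientGroup.eq, QuotientGroup.out_eq']
      · simp
  rw [← Fintype.sum_bijective _ hb (fun p => F (p.1.out * p.2)) F (fun _ => rfl),
    Fintype.sum_prod_type, Finset.mul_sum]
  refine Finset.sum_congr rfl fun c _ => ?_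
  have : ∀ y : S, F (c.out * (y : K)) = F c.out := fun y => hF _ _ y.2
  simp only [this, Finset.sum_const, Finset.card_univ, nsmul_eq_mul, Nat.card_eq_fintype_card]

end Cosets

section Trace

/-- Trace of a block monomial operator. -/
theorem trace_block {ι : Type*} [Fintype ι] [DecidableEq ι] {V : Type*} [AddCommGroup V]
    [Module ℂ V] [FiniteDimensional ℂ V] (π : ι → ι) (T : ι → V →ₗ[ℂ] V) :
    LinearMap.trace ℂ (ι → V) (LinearMap.pi fun c => (T c) ∘ₗ LinearMap.proj (π c)) =
      ∑ c, if π c = c then LinearMap.trace ℂ V (T c) else 0 := by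
  have h1 : (LinearMap.pi fun c => (T c) ∘ₗ LinearMap.proj (π c) : (ι → V) →ₗ[ℂ] (ι → V)) =
      ∑ c, LinearMap.single ℂ (fun _ : ι => V) c ∘ₗ ((T c) ∘ₗ LinearMap.proj (π c)) := by
    apply LinearMap.ext
    intro f
    ext d
    rw [LinearMap.sum_apply, Finset.sum_apply, Finset.sum_eq_single d]
    · simp
    · intro b _ hb
      simp [Ne.symm hb]
    · simp
  rw [h1, map_sum]
  refine Finset.sum_congr rfl fun c _ => ?_
  rw [LinearMap.trace_comp_comm']
  split_ifs with hc
  · congr 1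
    ext v
    simp [hc]
  · have : ((T c) ∘ₗ LinearMap.proj (π c)) ∘ₗ LinearMap.single ℂ (fun _ : ι => V) c = 0 := by
      ext v
      simp [hc]
    rw [this, map_zero]

end Trace

section Induced

variable {A K : Type*} [CommGroup A] [Group K] (φ : K →* MulAut A) (lam : A →* ℂˣ)

/-- The stabilizer in `K` of a linear character of `A`. -/
def stab : Subgroup K where
  carrier := {k | ∀ a, lam (φ k a) = lam a}
  one_mem' := by simp
  mul_mem' := by
    intro a b ha hb x
    rw [map_mul, MulAut.mul_apply, ha, hb]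
  inv_mem' := by
    intro k hk a
    have h1 := hk (φ k⁻¹ a)
    rw [← MulAut.mul_apply, ← map_mul, mul_inv_cancel, map_one, MulAut.one_apply] at h1
    exact h1.symm

theorem mem_stab {k : K} : k ∈ stab φ lam ↔ ∀ a, lam (φ k a) = lam a := Iff.rfl

theorem coset_mem (k : K) (c : K ⧸ stab φ lam) :
    c.out⁻¹ * k * (k⁻¹ • c).out ∈ stab φ lam := by
  have h1 : (QuotientGroup.mk (k * (k⁻¹ • c).out) : K ⧸ stab φ lam) = c := by
    have : (QuotientGroup.mk (k * (k⁻¹ • c).out) : K ⧸ stab φ lam) =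
        k • (QuotientGroup.mk (k⁻¹ • c).out : K ⧸ stab φ lam) := rfl
    rw [this, QuotientGroup.out_eq', smul_inv_smul]
  have h2 : (QuotientGroup.mk c.out : K ⧸ stab φ lam) = QuotientGroup.mk (k * (k⁻¹ • c).out) := by
    rw [h1, QuotientGroup.out_eq']
  rw [QuotientGroup.eq] at h2
  rwa [mul_assoc]

/-- Extension by zero of a representation of a subgroup. -/
noncomputable def sgExt {K : Type*} [Group K] {S : Subgroup K} {V : Type*} [AddCommGroup V]
    [Module ℂ V] (σ : Representation ℂ S V) (k : K) : V →ₗ[ℂ] V :=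
  open Classical in if h : k ∈ S then σ ⟨k, h⟩ else 0

theorem sgExt_of_mem {K : Type*} [Group K] {S : Subgroup K} {V : Type*} [AddCommGroup V]
    [Module ℂ V] (σ : Representation ℂ S V) {k : K} (h : k ∈ S) : sgExt σ k = σ ⟨k, h⟩ := by
  simp [sgExt, h]

theorem sgExt_one {K : Type*} [Group K] {S : Subgroup K} {V : Type*} [AddCommGroup V]
    [Module ℂ V] (σ : Representation ℂ S V) (v : V) : sgExt σ 1 v = v := by
  rw [sgExt_of_mem σ S.one_mem]
  have : (⟨1, S.one_mem⟩ : S) = 1 := rfl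
  rw [this, map_one]
  rfl

theorem sgExt_mul {K : Type*} [Group K] {S : Subgroup K} {V : Type*} [AddCommGroup V]
    [Module ℂ V] (σ : Representation ℂ S V) {k l : K} (h : k ∈ S) (h' : l ∈ S) (v : V) :
    sgExt σ (k * l) v = sgExt σ k (sgExt σ l v) := by
  rw [sgExt_of_mem σ h, sgExt_of_mem σ h', sgExt_of_mem σ (mul_mem h h')]
  have : (⟨k * l, mul_mem h h'⟩ : S) = ⟨k, h⟩ * ⟨l, h'⟩ := rfl
  rw [this, map_mul]
  rfl

/-- The representation of `A ⋊ K` induced from `lam ⊗ σ` on `A ⋊ stab lam`. -/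
noncomputable def indRep {V : Type*} [AddCommGroup V] [Module ℂ V]
    (σ : Representation ℂ (stab φ lam) V) :
    Representation ℂ (A ⋊[φ] K) ((K ⧸ stab φ lam) → V) where
  toFun x := LinearMap.pi fun c =>
    (((lam (φ c.out⁻¹ x.left) : ℂˣ) : ℂ) •
      sgExt σ (c.out⁻¹ * x.right * (x.right⁻¹ • c).out)) ∘ₗ LinearMap.proj (x.right⁻¹ • c)
  map_one' := by
    apply LinearMap.ext
    intro f
    ext1 c
    have h1 : (1 : K)⁻¹ • c = c := by simp
    simp only [LinearMap.pi_apply, LinearMap.comp_apply, map_one, LinearMap.smul_apply,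
      SemidirectProduct.one_left, SemidirectProduct.one_right, LinearMap.proj_apply, h1,
      Units.val_one, one_smul, Module.End.one_apply, mul_one, inv_mul_cancel, sgExt_one]
  map_mul' x y := by
    apply LinearMap.ext
    intro f
    ext1 c
    simp only [LinearMap.pi_apply, LinearMap.comp_apply, LinearMap.smul_apply,
      LinearMap.proj_apply, Module.End.mul_apply, map_smul, smul_smul]
    have h1 : (y.right⁻¹ * x.right⁻¹) • c = (x * y).right⁻¹ • c := by
      rw [SemidirectProduct.mul_right, mul_inv_rev]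
    have h2 : c.out⁻¹ * (x * y).right * ((x * y).right⁻¹ • c).out =
        (c.out⁻¹ * x.right * (x.right⁻¹ • c).out) *
        ((x.right⁻¹ • c).out⁻¹ * y.right * (y.right⁻¹ • (x.right⁻¹ • c)).out) := by
      rw [smul_smul, h1, SemidirectProduct.mul_right]
      group
    rw [h2, sgExt_mul σ (coset_mem φ lam x.right c) (coset_mem φ lam y.right (x.right⁻¹ • c)),
      smul_smul, h1]
    congr 1
    rw [SemidirectProduct.mul_left, map_mul, map_mul]
    have h3 : lam (φ c.out⁻¹ (φ x.right y.left)) = lam (φ (x.right⁻¹ • c).out⁻¹ y.left) := by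
      have h4 := coset_mem φ lam x.right c (φ (x.right⁻¹ • c).out⁻¹ y.left)
      rw [← h4, ← MulAut.mul_apply, ← map_mul, ← MulAut.mul_apply, ← map_mul]
      congr 3
      group
    rw [h3]
    push_cast
    ring

theorem indRep_character [Fintype K] [DecidableEq (K ⧸ stab φ lam)] [Fintype (K ⧸ stab φ lam)]
    {V : Type*} [AddCommGroup V] [Module ℂ V] [FiniteDimensional ℂ V]
    (σ : Representation ℂ (stab φ lam) V) (x : A ⋊[φ] K) :
    (indRep φ lam σ).character x = ∑ c : K ⧸ stab φ lam, if x.right⁻¹ • c = c then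
      ((lam (φ c.out⁻¹ x.left) : ℂˣ) : ℂ) * σ.character ⟨c.out⁻¹ * x.right * (x.right⁻¹ • c).out,
        coset_mem φ lam x.right c⟩ else 0 := by
  have h := trace_block (fun c : K ⧸ stab φ lam => x.right⁻¹ • c) (fun c =>
    (((lam (φ c.out⁻¹ x.left) : ℂˣ) : ℂ) •
      sgExt σ (c.out⁻¹ * x.right * (x.right⁻¹ • c).out)))
  refine h.trans ?_
  refine Finset.sum_congr rfl fun c _ => ?_
  rw [map_smul, sgExt_of_mem σ (coset_mem φ lam x.right c)]
  rfl

/-- Extension by zero of a function on a subgroup. -/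
noncomputable def ext0 {K : Type*} [Group K] {S : Subgroup K} (ψ : S → ℂ) (k : K) : ℂ :=
  open Classical in if h : k ∈ S then ψ ⟨k, h⟩ else 0

theorem ext0_of_mem {K : Type*} [Group K] {S : Subgroup K} (ψ : S → ℂ) {k : K} (h : k ∈ S) :
    ext0 ψ k = ψ ⟨k, h⟩ := by simp [ext0, h]

theorem ext0_of_not_mem {K : Type*} [Group K] {S : Subgroup K} (ψ : S → ℂ) {k : K} (h : k ∉ S) :
    ext0 ψ k = 0 := by simp [ext0, h]

/-- The induced class function. -/
noncomputable def indChar [Fintype K] (ψ : stab φ lam → ℂ) (x : A ⋊[φ] K) : ℂ :=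
  (∑ t : K, ((lam (φ t⁻¹ x.left) : ℂˣ) : ℂ) * ext0 ψ (t⁻¹ * x.right * t)) /
    Nat.card (stab φ lam)

theorem indRep_character_eq [Fintype K] {n : ℕ} (σ : Representation ℂ (stab φ lam) (Fin n → ℂ)) :
    (indRep φ lam σ).character = indChar φ lam σ.character := by
  classical
  ext x
  rw [indRep_character, indChar]
  rw [sum_cosets (stab φ lam)]
  · rw [mul_comm, mul_div_assoc, div_self (natCard_ne_zero (H := stab φ lam)), mul_one]
    refine Finset.sum_congr rfl fun c _ => ?_
    have hiff : x.right⁻¹ • c = c ↔ c.out⁻¹ * x.right * c.out ∈ stab φ lam := by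
      have h1 : (QuotientGroup.mk (x.right * c.out) : K ⧸ stab φ lam) = x.right • c := by
        have : (QuotientGroup.mk (x.right * c.out) : K ⧸ stab φ lam) =
          x.right • (QuotientGroup.mk c.out : K ⧸ stab φ lam) := rfl
        rw [this, QuotientGroup.out_eq']
      rw [mul_assoc, ← QuotientGroup.eq, h1, QuotientGroup.out_eq', inv_smul_eq_iff]
    split_ifs with hc
    · rw [ext0_of_mem _ (hiff.mp hc)]
      congr 3
      rw [hc]
    · rw [ext0_of_not_mem _ (fun h => hc (hiff.mpr h)), mul_zero]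
  · intro t h hh
    have h1 : lam (φ (t * h)⁻¹ x.left) = lam (φ t⁻¹ x.left) := by
      rw [mul_inv_rev, map_mul, MulAut.mul_apply]
      exact (stab φ lam).inv_mem hh _
    rw [h1]
    congr 1
    by_cases hm : t⁻¹ * x.right * t ∈ stab φ lam
    · have hm' : (t * h)⁻¹ * x.right * (t * h) ∈ stab φ lam := by
        have : (t * h)⁻¹ * x.right * (t * h) = h⁻¹ * (t⁻¹ * x.right * t) * h := by group
        rw [this]
        exact mul_mem (mul_mem (inv_mem hh) hm) hh
      rw [ext0_of_mem _ hm, ext0_of_mem _ hm']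
      have := char_conj σ ⟨t⁻¹ * x.right * t, hm⟩ (⟨h, hh⟩⁻¹ : stab φ lam)
      rw [← this]
      congr 1
      apply Subtype.ext
      change (t * h)⁻¹ * x.right * (t * h) = h⁻¹ * (t⁻¹ * x.right * t) * h⁻¹⁻¹
      group
    · have hm' : (t * h)⁻¹ * x.right * (t * h) ∉ stab φ lam := by
        intro hm'
        apply hm
        have : t⁻¹ * x.right * t = h * ((t * h)⁻¹ * x.right * (t * h)) * h⁻¹ := by group
        rw [this]
        exact mul_mem (mul_mem hh hm') (inv_mem hh)
      rw [ext0_of_not_mem _ hm, ext0_of_not_mem _ hm']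

end Induced

end Pool.Agent.Lib_helper13


end

section

set_option linter.unusedSectionVars false

/-! Congruences modulo a maximal ideal of the ring of algebraic integers. -/

namespace Pool.Agent.Lib_helper13

open Representation

/-- `a ≡ b` modulo the ideal `𝔐` of the ring of algebraic integers. -/
def CongrMod (𝔐 : Ideal (integralClosure ℤ ℂ)) (a b : ℂ) : Prop :=
  ∃ m : integralClosure ℤ ℂ, m ∈ 𝔐 ∧ (m : ℂ) = a - b

section Red

variable (𝔐 : Ideal (integralClosure ℤ ℂ))

/-- Reduction modulo `𝔐` of algebraic integers (junk value `0` on other complex numbers). -/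
noncomputable def red (a : ℂ) : (integralClosure ℤ ℂ) ⧸ 𝔐 :=
  open Classical in if h : IsIntegral ℤ a then Ideal.Quotient.mk 𝔐 ⟨a, h⟩ else 0

theorem red_of_integral {a : ℂ} (h : IsIntegral ℤ a) :
    red 𝔐 a = Ideal.Quotient.mk 𝔐 ⟨a, h⟩ := by
  simp [red, h]

theorem red_eq_iff {a b : ℂ} (ha : IsIntegral ℤ a) (hb : IsIntegral ℤ b) :
    red 𝔐 a = red 𝔐 b ↔ CongrMod 𝔐 a b := by
  rw [red_of_integral 𝔐 ha, red_of_integral 𝔐 hb, Ideal.Quotient.eq]
  constructor
  · intro h
    exact ⟨_, h, rfl⟩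
  · rintro ⟨m, hm, hm'⟩
    have : m = (⟨a, ha⟩ - ⟨b, hb⟩ : integralClosure ℤ ℂ) := Subtype.ext hm'
    rw [← this]
    exact hm

theorem red_add {a b : ℂ} (ha : IsIntegral ℤ a) (hb : IsIntegral ℤ b) :
    red 𝔐 (a + b) = red 𝔐 a + red 𝔐 b := by
  rw [red_of_integral 𝔐 ha, red_of_integral 𝔐 hb, red_of_integral 𝔐 (ha.add hb), ← map_add]
  rfl

theorem red_mul {a b : ℂ} (ha : IsIntegral ℤ a) (hb : IsIntegral ℤ b) :
    red 𝔐 (a * b) = red 𝔐 a * red 𝔐 b := by
  rw [red_of_integral 𝔐 ha, red_of_integral 𝔐 hb, red_of_integral 𝔐 (ha.mul hb), ← map_mul]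
  rfl

theorem red_zero : red 𝔐 0 = 0 := by
  rw [red_of_integral 𝔐 isIntegral_zero]
  exact map_zero _

theorem red_one : red 𝔐 1 = 1 := by
  rw [red_of_integral 𝔐 isIntegral_one]
  exact map_one _

theorem isIntegral_sum {ι : Type*} (s : Finset ι) (f : ι → ℂ) (h : ∀ i ∈ s, IsIntegral ℤ (f i)) :
    IsIntegral ℤ (∑ i ∈ s, f i) := IsIntegral.sum _ h

theorem red_sum {ι : Type*} (s : Finset ι) (f : ι → ℂ) (h : ∀ i ∈ s, IsIntegral ℤ (f i)) :
    red 𝔐 (∑ i ∈ s, f i) = ∑ i ∈ s, red 𝔐 (f i) := by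
  classical
  induction s using Finset.induction_on with
  | empty => simp [red_zero]
  | insert a s ha ih =>
    rw [Finset.sum_insert ha, Finset.sum_insert ha,
      red_add 𝔐 (h a (Finset.mem_insert_self _ _))
        (isIntegral_sum s f fun i hi => h i (Finset.mem_insert_of_mem hi)),
      ih fun i hi => h i (Finset.mem_insert_of_mem hi)]

theorem red_eq_zero_of_mem {a : ℂ} (h : ∃ m : integralClosure ℤ ℂ, m ∈ 𝔐 ∧ (m : ℂ) = a) :
    red 𝔐 a = 0 := by
  obtain ⟨m, hm, rfl⟩ := h
  rw [red_of_integral 𝔐 m.2]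
  exact Ideal.Quotient.eq_zero_iff_mem.mpr hm

theorem isIntegral_natCast (n : ℕ) : IsIntegral ℤ (n : ℂ) := by
  have := isIntegral_algebraMap (R := ℤ) (A := ℂ) (x := (n : ℤ))
  simpa using this

theorem red_natCast_mul (n : ℕ) {a : ℂ} (ha : IsIntegral ℤ a) :
    red 𝔐 (n * a) = n • red 𝔐 a := by
  induction n with
  | zero => simp [red_zero]
  | succ n ih =>
    rw [Nat.cast_succ, add_mul, one_mul, red_add 𝔐 ((isIntegral_natCast n).mul ha) ha, ih,
      succ_nsmul]

theorem nsmul_quot_eq_zero {ℓ : ℕ} (hℓ : (ℓ : integralClosure ℤ ℂ) ∈ 𝔐)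
    (m : (integralClosure ℤ ℂ) ⧸ 𝔐) : ℓ • m = 0 := by
  rw [nsmul_eq_mul]
  have : ((ℓ : ℕ) : (integralClosure ℤ ℂ) ⧸ 𝔐) = 0 := by
    rw [← map_natCast (Ideal.Quotient.mk 𝔐)]
    exact Ideal.Quotient.eq_zero_iff_mem.mpr hℓ
  rw [this, zero_mul]

end Red

section Vanish

variable {H : Type*} [Group H] [Fintype H]
variable (𝔐 : Ideal (integralClosure ℤ ℂ)) [h𝔐 : 𝔐.IsPrime]

theorem om_mem_of_normal {ℓ : ℕ} [Fact ℓ.Prime] (hℓ : (ℓ : integralClosure ℤ ℂ) ∈ 𝔐)
    {χ : H → ℂ} (hχ : IsIrr χ) (Q : Subgroup H) [Q.Normal] (hQ : IsPGroup ℓ Q)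
    (c : H → ℤ) (hc : ∀ g x, c (g * x * g⁻¹) = c x)
    (hc0 : ∀ y, (∀ q ∈ Q, q * y = y * q) → c y = 0) :
    red 𝔐 (om χ (elt c)) = 0 := by
  classical
  obtain ⟨N, hN, hz⟩ := elt_pow_zero Q hQ c hc hc0
  have hzc := elt_mem_center c hc
  rw [← map_pow] at hz
  have hdiv : ∀ y, (ℓ : ℤ) ∣ ((elt c) ^ N).coeff y := by
    intro y
    have h1 := congrArg (fun t : MonoidAlgebra (ZMod ℓ) H => t.coeff y) hz
    simp only [MonoidAlgebra.coeff_mapRingHom, MonoidAlgebra.coeff_zero, Finsupp.coe_zero,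
      Pi.zero_apply] at h1
    exact (ZMod.intCast_zmod_eq_zero_iff_dvd _ _).mp h1
  choose w hw using hdiv
  have hwz : (elt c) ^ N = (ℓ : ℤ) • elt w := by
    apply MonoidAlgebra.ext
    ext y
    rw [hw, MonoidAlgebra.coeff_smul_apply, elt_coeff, smul_eq_mul]
  have hℓ0 : (ℓ : ℤ) ≠ 0 := by exact_mod_cast (Fact.out : ℓ.Prime).ne_zero
  have hwc : elt w ∈ Subalgebra.center ℤ (MonoidAlgebra ℤ H) := by
    have h1 : (ℓ : ℤ) • elt w ∈ Subalgebra.center ℤ (MonoidAlgebra ℤ H) := by
      rw [← hwz]; exact pow_mem hzc N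
    rw [Subalgebra.mem_center_iff] at h1 ⊢
    intro b
    have h2 := h1 b
    rw [mul_smul_comm, smul_mul_assoc] at h2
    apply MonoidAlgebra.ext
    ext y
    have h3 := congrArg (fun t : MonoidAlgebra ℤ H => t.coeff y) h2
    simp only [MonoidAlgebra.coeff_smul_apply, smul_eq_mul] at h3
    exact mul_left_cancel₀ hℓ0 h3
  have h1 : om χ (elt c) ^ N = ℓ * om χ (elt w) := by
    have h2 := om_smul χ ℓ (elt w)
    rw [← hwz] at h2
    have h3 : om χ ((elt c) ^ N) = om χ (elt c) ^ N := by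
      have := map_pow (omHom hχ) ⟨elt c, hzc⟩ N
      exact this
    rw [← h3, h2]
    simp
  have hi1 := isIntegral_om hχ hzc
  have hi2 := isIntegral_om hχ hwc
  apply red_eq_zero_of_mem
  refine ⟨⟨_, hi1⟩, ?_, rfl⟩
  apply h𝔐.mem_of_pow_mem N
  have h4 : (⟨om χ (elt c), hi1⟩ : integralClosure ℤ ℂ) ^ N = ℓ * ⟨om χ (elt w), hi2⟩ := by
    apply Subtype.ext
    push_cast
    exact h1
  rw [h4]
  exact 𝔐.mul_mem_right _ hℓ

end Vanish

end Pool.Agent.Lib_helper13


end

section

set_option linter.unusedSectionVars false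

/-! Normalized sums of irreducible characters against class functions. -/

namespace Pool.Agent.Lib_helper13

open Representation

section Wt

variable {Y : Type*} [Group Y] [Fintype Y]

/-- `∑ f(y) ψ(y) / ψ(1)`. -/
noncomputable def wt (ψ f : Y → ℂ) : ℂ := (∑ y, f y * ψ y) / ψ 1

theorem wt_add (ψ f f' : Y → ℂ) : wt ψ (f + f') = wt ψ f + wt ψ f' := by
  simp [wt, add_mul, Finset.sum_add_distrib, add_div]

theorem wt_sum {ι : Type*} (s : Finset ι) (ψ : Y → ℂ) (f : ι → Y → ℂ) :
    wt ψ (fun y => ∑ i ∈ s, f i y) = ∑ i ∈ s, wt ψ (f i) := by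
  simp only [wt, Finset.sum_mul]
  rw [Finset.sum_comm, Finset.sum_div]

theorem wt_smul (ψ f : Y → ℂ) (a : ℂ) : wt ψ (fun y => a * f y) = a * wt ψ f := by
  simp only [wt, mul_assoc, ← Finset.mul_sum, mul_div_assoc]

/-- Expansion of a normalized sum along a class function pulled back from a bigger group. -/
theorem wt_comp_classes {K : Type*} [Group K] [Fintype K] [Fintype (ConjClasses K)]
    [DecidableEq (ConjClasses K)] (ι : Y → K) (ψ : Y → ℂ) (f : ConjClasses K → ℂ) :
    wt ψ (fun y => f (ConjClasses.mk (ι y))) =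
      ∑ L : ConjClasses K, f L * wt ψ (fun y => if ConjClasses.mk (ι y) = L then 1 else 0) := by
  simp_rw [← wt_smul]
  rw [← wt_sum]
  congr 1
  ext y
  rw [Finset.sum_eq_single (ConjClasses.mk (ι y))]
  · simp
  · intro b _ hb
    simp [Ne.symm hb]
  · simp

theorem exists_lift_class {K : Type*} [Group K] (f : K → ℂ) (hf : ∀ g x, f (g * x * g⁻¹) = f x) :
    ∃ F : ConjClasses K → ℂ, ∀ x, F (ConjClasses.mk x) = f x := by
  refine ⟨fun L => Quotient.liftOn L f ?_, fun x => rfl⟩
  intro a b hab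
  obtain ⟨c, rfl⟩ := isConj_iff.mp hab
  rw [hf]

theorem isIntegral_wt {ψ : Y → ℂ} (hψ : IsIrr ψ) (f : Y → ℂ)
    (hf : ∀ g x, f (g * x * g⁻¹) = f x) (hi : ∀ y, IsIntegral ℤ (f y)) :
    IsIntegral ℤ (wt ψ f) := by
  classical
  obtain ⟨F, hF⟩ := exists_lift_class f hf
  have h1 : f = fun y => F (ConjClasses.mk (id y)) := by ext y; rw [hF]; rfl
  rw [h1, wt_comp_classes]
  apply isIntegral_sum
  intro L _
  obtain ⟨x, rfl⟩ := L.exists_rep
  apply IsIntegral.mul
  · have := hi x
    rwa [← hF x] at this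
  · have h2 := isIntegral_om hψ (elt_mem_center (fun y : Y => if ConjClasses.mk y =
      ConjClasses.mk x then (1 : ℤ) else 0) (by
        intro g y
        have : ConjClasses.mk (g * y * g⁻¹) = ConjClasses.mk y := by
          rw [ConjClasses.mk_eq_mk_iff_isConj]
          exact isConj_iff.mpr ⟨g⁻¹, by group⟩
        rw [this]))
    rw [om_elt] at h2
    have h3 : (wt ψ fun y => if ConjClasses.mk (id y) = ConjClasses.mk x then 1 else 0) =
        (∑ y, ((if ConjClasses.mk y = ConjClasses.mk x then (1 : ℤ) else 0 : ℤ) : ℂ) * ψ y) /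
          ψ 1 := by
      rw [wt]
      congr 2 with y
      push_cast
      rfl
    change IsIntegral ℤ (wt ψ fun y => if ConjClasses.mk (id y) = ConjClasses.mk x then 1 else 0)
    rw [h3]
    exact h2

variable (𝔐 : Ideal (integralClosure ℤ ℂ)) [h𝔐 : 𝔐.IsPrime]

theorem red_wt_eq {ℓ : ℕ} [Fact ℓ.Prime] (hℓ : (ℓ : integralClosure ℤ ℂ) ∈ 𝔐)
    {ψ : Y → ℂ} (hψ : IsIrr ψ) (Q : Subgroup Y) [Q.Normal] (hQ : IsPGroup ℓ Q) (f f' : Y → ℂ)
    (hf : ∀ g x, f (g * x * g⁻¹) = f x) (hi : ∀ y, IsIntegral ℤ (f y))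
    (hf' : ∀ g x, f' (g * x * g⁻¹) = f' x) (hi' : ∀ y, IsIntegral ℤ (f' y))
    (heq : ∀ y, (∀ q ∈ Q, q * y = y * q) → red 𝔐 (f y) = red 𝔐 (f' y)) :
    red 𝔐 (wt ψ f) = red 𝔐 (wt ψ f') := by
  classical
  obtain ⟨F, hF⟩ := exists_lift_class f hf
  obtain ⟨F', hF'⟩ := exists_lift_class f' hf'
  have h1 : f = fun y => F (ConjClasses.mk (id y)) := by ext y; rw [hF]; rfl
  have h1' : f' = fun y => F' (ConjClasses.mk (id y)) := by ext y; rw [hF']; rfl
  have hcl : ∀ x g y : Y, (if ConjClasses.mk (g * y * g⁻¹) = ConjClasses.mk x then (1 : ℤ) else 0) =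
      if ConjClasses.mk y = ConjClasses.mk x then (1 : ℤ) else 0 := by
    intro x g y
    have : ConjClasses.mk (g * y * g⁻¹) = ConjClasses.mk y := by
      rw [ConjClasses.mk_eq_mk_iff_isConj]
      exact isConj_iff.mpr ⟨g⁻¹, by group⟩
    rw [this]
  have hom : ∀ x : Y, wt ψ (fun y => if ConjClasses.mk (id y) = ConjClasses.mk x then 1 else 0) =
      om ψ (elt (fun y : Y => if ConjClasses.mk y = ConjClasses.mk x then (1 : ℤ) else 0)) := by
    intro x
    rw [om_elt, wt]
    congr 2 with y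
    push_cast
    rfl
  have hint : ∀ x : Y, IsIntegral ℤ
      (wt ψ (fun y => if ConjClasses.mk (id y) = ConjClasses.mk x then 1 else 0)) := by
    intro x
    rw [hom]
    exact isIntegral_om hψ (elt_mem_center _ (hcl x))
  rw [h1, h1', wt_comp_classes, wt_comp_classes, red_sum, red_sum]
  · refine Finset.sum_congr rfl fun L _ => ?_
    obtain ⟨x, rfl⟩ := L.exists_rep
    change red 𝔐 (F (ConjClasses.mk x) * _) = red 𝔐 (F' (ConjClasses.mk x) * _)
    rw [hF, hF', red_mul 𝔐 (hi x) (hint x), red_mul 𝔐 (hi' x) (hint x)]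
    by_cases hx : ∀ q ∈ Q, q * x = x * q
    · rw [heq x hx]
    · have : red 𝔐 (wt ψ (fun y => if ConjClasses.mk (id y) = ConjClasses.mk x then 1 else 0)) =
          0 := by
        rw [hom]
        apply om_mem_of_normal 𝔐 hℓ hψ Q hQ _ (hcl x)
        intro y hy
        rw [if_neg]
        intro hxy
        apply hx
        rw [ConjClasses.mk_eq_mk_iff_isConj] at hxy
        obtain ⟨c, rfl⟩ := isConj_iff.mp hxy
        intro q hq
        have h2 := hy (c⁻¹ * q * c) (by
          have := Subgroup.Normal.conj_mem (H := Q) inferInstance q hq c⁻¹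
          simpa using this)
        have h3 : q * (c * y * c⁻¹) = c * ((c⁻¹ * q * c) * y) * c⁻¹ := by group
        rw [h3, h2]
        group
      rw [this, mul_zero, mul_zero]
  · intro L _
    obtain ⟨x, rfl⟩ := L.exists_rep
    change IsIntegral ℤ (F' (ConjClasses.mk x) * _)
    rw [hF']
    exact (hi' x).mul (hint x)
  · intro L _
    obtain ⟨x, rfl⟩ := L.exists_rep
    change IsIntegral ℤ (F (ConjClasses.mk x) * _)
    rw [hF]
    exact (hi x).mul (hint x)

end Wt

end Pool.Agent.Lib_helper13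


end

section

set_option linter.unusedSectionVars false

/-! Induced central functions modulo `𝔐` are multiplicative (Brauer homomorphism argument). -/

namespace Pool.Agent.Lib_helper13

open Representation

section Nilp

variable {H : Type*} [Group H] [Fintype H]

/-- Integral class functions of a subgroup `Y`, extended by zero to the ambient group. -/
def SuppClass (Y : Subgroup H) (c : H → ℤ) : Prop :=
  (∀ x, x ∉ Y → c x = 0) ∧ ∀ g ∈ Y, ∀ x, c (g * x * g⁻¹) = c x

theorem commute_single_elt (Y : Subgroup H) (c : H → ℤ) (hc : SuppClass Y c) {g : H}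
    (hg : g ∈ Y) : MonoidAlgebra.single g 1 * elt c = elt c * MonoidAlgebra.single g 1 := by
  rw [elt, Finset.mul_sum, Finset.sum_mul]
  refine Fintype.sum_equiv (MulAut.conj g).toEquiv _ _ ?_
  intro x
  have : (MulAut.conj g).toEquiv x = g * x * g⁻¹ := rfl
  rw [this, MonoidAlgebra.single_mul_single, MonoidAlgebra.single_mul_single, hc.2 g hg]
  simp

theorem elt_pow_zero' {ℓ : ℕ} [Fact ℓ.Prime] (Y Q : Subgroup H) (hQY : Q ≤ Y)
    (hQ : IsPGroup ℓ Q) (hn : ∀ g ∈ Y, ∀ q ∈ Q, g * q * g⁻¹ ∈ Q)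
    (c : H → ℤ) (hc : SuppClass Y c)
    (hc0 : ∀ y ∈ Y, (∀ q ∈ Q, q * y = y * q) → c y = 0) :
    ∃ N, 0 < N ∧ (MonoidAlgebra.mapRingHom H (Int.castRingHom (ZMod ℓ)) (elt c)) ^ N = 0 := by
  classical
  set z := MonoidAlgebra.mapRingHom H (Int.castRingHom (ZMod ℓ)) (elt c) with hz
  have hfin : Finite (MonoidAlgebra (ZMod ℓ) H) :=
    Finite.of_equiv (H →₀ ZMod ℓ) MonoidAlgebra.coeffEquiv.symm
  obtain ⟨N, hN, hid⟩ := exists_pow_idem z
  refine ⟨N, hN, ?_⟩
  by_contra hne
  have hzc : ∀ g ∈ Y, MonoidAlgebra.single g 1 * z = z * MonoidAlgebra.single g 1 := by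
    intro g hg
    have h3 := congrArg (MonoidAlgebra.mapRingHom H (Int.castRingHom (ZMod ℓ)))
      (commute_single_elt Y c hc hg)
    rw [map_mul, map_mul, MonoidAlgebra.mapRingHom_single, map_one] at h3
    exact h3
  have hec : ∀ g ∈ Y, MonoidAlgebra.single g 1 * z ^ N = z ^ N * MonoidAlgebra.single g 1 :=
    fun g hg => (Commute.pow_right (hzc g hg) N : _)
  -- the additive group of elements fixed by the idempotent
  let K : AddSubgroup (MonoidAlgebra (ZMod ℓ) H) :=
    { carrier := {m | z ^ N * m = m}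
      add_mem' := by
        intro a b ha hb
        simp only [Set.mem_ofPred_eq] at ha hb ⊢
        rw [mul_add, ha, hb]
      zero_mem' := by simp
      neg_mem' := by
        intro a ha
        simp only [Set.mem_ofPred_eq] at ha ⊢
        rw [mul_neg, ha] }
  have hkill : ∀ m : MonoidAlgebra (ZMod ℓ) H, ℓ • m = 0 := by
    intro m
    have : (ℓ : ZMod ℓ) • m = 0 := by simp
    rwa [Nat.cast_smul_eq_nsmul] at this
  let _ : MulAction Q K :=
    { smul := fun q m => ⟨MonoidAlgebra.single (q : H) 1 * m.1, by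
        change z ^ N * (MonoidAlgebra.single (q : H) 1 * m.1) = _
        rw [← mul_assoc, ← hec _ (hQY q.2), mul_assoc]
        congr 1
        exact m.2⟩
      one_smul := fun m => Subtype.ext (by
        change MonoidAlgebra.single ((1 : Q) : H) 1 * m.1 = m.1
        rw [OneMemClass.coe_one, ← MonoidAlgebra.one_def, one_mul])
      mul_smul := fun a b m => Subtype.ext (by
        change MonoidAlgebra.single ((a * b : Q) : H) 1 * m.1 =
          MonoidAlgebra.single (a : H) 1 * (MonoidAlgebra.single (b : H) 1 * m.1)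
        rw [← mul_assoc, MonoidAlgebra.single_mul_single, one_mul, Subgroup.coe_mul]) }
  have hdvd : ℓ ∣ Nat.card K := by
    have h1 : addOrderOf (⟨z ^ N, hid⟩ : K) = ℓ := by
      apply addOrderOf_eq_prime
      · exact Subtype.ext (hkill _)
      · intro h0
        exact hne (congrArg Subtype.val h0)
    have h2 := addOrderOf_dvd_natCard (⟨z ^ N, hid⟩ : K)
    rwa [h1] at h2
  obtain ⟨m, hm, hm0⟩ := hQ.exists_fixed_point_of_prime_dvd_card_of_fixed_point K hdvd
    (a := (0 : K)) (by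
      intro q
      apply Subtype.ext
      change MonoidAlgebra.single (q : H) 1 * (0 : MonoidAlgebra (ZMod ℓ) H) = 0
      rw [mul_zero])
  have hfix : ∀ q ∈ Q, MonoidAlgebra.single q 1 * m.1 = m.1 := fun q hq =>
    congrArg Subtype.val (hm ⟨q, hq⟩)
  -- `z` kills `m`
  have hzm : z * m.1 = 0 := by
    rw [hz, elt_map, Finset.sum_mul]
    let _ : MulAction Q H :=
      { smul := fun q y => q.1 * y * q.1⁻¹
        one_smul := fun y => by change ((1 : Q) : H) * y * ((1 : Q) : H)⁻¹ = y; simp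
        mul_smul := fun a b y => by
          change ((a * b : Q) : H) * y * ((a * b : Q) : H)⁻¹ = a.1 * (b.1 * y * b.1⁻¹) * a.1⁻¹
          simp [mul_assoc] }
    have hsmul : ∀ (q : Q) (y : H), q • y = q.1 * y * q.1⁻¹ := fun _ _ => rfl
    rw [sum_eq_sum_fixed hQ hkill]
    · apply Finset.sum_eq_zero
      intro y hy
      have h1 := (Finset.mem_filter.mp hy).2
      have h2 : c y = 0 := by
        by_cases hyY : y ∈ Y
        · apply hc0 y hyY
          intro q hq
          have h3 := h1 ⟨q, hq⟩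
          rw [hsmul] at h3
          exact mul_inv_eq_iff_eq_mul.mp h3
        · exact hc.1 y hyY
      rw [h2]
      simp
    · intro q y
      rw [hsmul, hc.2 _ (hQY q.2)]
      by_cases hyY : y ∈ Y
      · have h1 : (MonoidAlgebra.single (q.1 * y * q.1⁻¹) ((c y : ℤ) : ZMod ℓ)) =
            MonoidAlgebra.single y ((c y : ℤ) : ZMod ℓ) *
              MonoidAlgebra.single (y⁻¹ * q.1 * y) 1 * MonoidAlgebra.single (q.1⁻¹) 1 := by
          rw [MonoidAlgebra.single_mul_single, MonoidAlgebra.single_mul_single]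
          congr 1
          · group
          · ring
        rw [h1, mul_assoc, mul_assoc, hfix _ (Q.inv_mem q.2), hfix]
        have := hn y⁻¹ (Y.inv_mem hyY) q.1 q.2
        simpa using this
      · rw [hc.1 y hyY]
        simp
  apply hm0
  apply Subtype.ext
  obtain ⟨N', rfl⟩ : ∃ N', N = N' + 1 := ⟨N - 1, by omega⟩
  have h1 : z ^ (N' + 1) * m.1 = m.1 := m.2
  rw [pow_succ, mul_assoc, hzm, mul_zero] at h1
  exact h1

/-- Convolution of functions on a group. -/
def conv (c c' : H → ℤ) (x : H) : ℤ := ∑ y, c y * c' (y⁻¹ * x)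

theorem elt_injective : Function.Injective (elt : (H → ℤ) → MonoidAlgebra ℤ H) := by
  intro c c' h
  ext x
  rw [← elt_coeff c, h, elt_coeff]

theorem elt_conv (c c' : H → ℤ) : elt (conv c c') = elt c * elt c' := by
  classical
  rw [elt, elt, elt, Finset.sum_mul]
  simp only [Finset.mul_sum, MonoidAlgebra.single_mul_single]
  have h1 : ∀ y : H, ∑ x : H, MonoidAlgebra.single (y * x) (c y * c' x) =
      ∑ x : H, MonoidAlgebra.single x (c y * c' (y⁻¹ * x)) := by
    intro y
    refine Fintype.sum_equiv (Equiv.mulLeft y) _ _ ?_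
    intro x
    simp
  simp only [h1]
  rw [Finset.sum_comm]
  refine Finset.sum_congr rfl fun x _ => ?_
  rw [conv]
  exact map_sum (MonoidAlgebra.singleAddHom x) _ _

theorem conv_supp (Y : Subgroup H) {c c' : H → ℤ} (hc : SuppClass Y c) (hc' : SuppClass Y c') :
    SuppClass Y (conv c c') := by
  constructor
  · intro x hx
    apply Finset.sum_eq_zero
    intro y _
    by_cases hy : y ∈ Y
    · rw [hc'.1, mul_zero]
      intro h
      apply hx
      have := mul_mem hy h
      simpa using this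
    · rw [hc.1 y hy, zero_mul]
  · intro g hg x
    rw [conv, conv]
    symm
    refine Fintype.sum_equiv (MulAut.conj g).toEquiv _ _ ?_
    intro y
    have h1 : (MulAut.conj g).toEquiv y = g * y * g⁻¹ := rfl
    rw [h1, hc.2 g hg]
    congr 1
    have h2 : (g * y * g⁻¹)⁻¹ * (g * x * g⁻¹) = g * (y⁻¹ * x) * g⁻¹ := by group
    rw [h2, hc'.2 g hg]

end Nilp

end Pool.Agent.Lib_helper13


end

section

set_option linter.unusedSectionVars false

/-! Multiplicativity of induced central functions modulo `𝔐`. -/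

namespace Pool.Agent.Lib_helper13

open Representation

section Mult

variable {H : Type*} [Group H] [Fintype H]
variable (𝔐 : Ideal (integralClosure ℤ ℂ))
variable {S : Subgroup H} [Fintype S]

/-- The reduced central value of an integral function on a subgroup. -/
noncomputable def Lam (ψ : S → ℂ) (c : H → ℤ) : (integralClosure ℤ ℂ) ⧸ 𝔐 :=
  red 𝔐 (wt ψ (fun s => ((c (s : H) : ℤ) : ℂ)))

/-- Multiplicativity on integral class functions of `Y`. -/
def MultOn (ψ : S → ℂ) (Y : Subgroup H) : Prop :=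
  ∀ c c' : H → ℤ, SuppClass Y c → SuppClass Y c' →
    Lam 𝔐 ψ (conv c c') = Lam 𝔐 ψ c * Lam 𝔐 ψ c'

theorem isIntegral_wt_int {ψ : S → ℂ} (hψ : IsIrr ψ) (c : H → ℤ)
    (hc : ∀ g ∈ S, ∀ x, c (g * x * g⁻¹) = c x) :
    IsIntegral ℤ (wt ψ (fun s => ((c (s : H) : ℤ) : ℂ))) := by
  apply isIntegral_wt hψ
  · intro g x
    have := hc g g.2 x
    change ((c ((g : H) * x * (g : H)⁻¹) : ℤ) : ℂ) = _
    rw [this]
  · intro y
    exact isIntegral_algebraMap (R := ℤ) (A := ℂ) (x := c y)

theorem Lam_add {ψ : S → ℂ} (hψ : IsIrr ψ) (c c' : H → ℤ)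
    (hc : ∀ g ∈ S, ∀ x, c (g * x * g⁻¹) = c x) (hc' : ∀ g ∈ S, ∀ x, c' (g * x * g⁻¹) = c' x) :
    Lam 𝔐 ψ (fun x => c x + c' x) = Lam 𝔐 ψ c + Lam 𝔐 ψ c' := by
  rw [Lam, Lam, Lam, ← red_add 𝔐 (isIntegral_wt_int hψ c hc) (isIntegral_wt_int hψ c' hc'),
    ← wt_add]
  congr 2
  ext s
  push_cast
  rfl

theorem Lam_congr (ψ : S → ℂ) (c c' : H → ℤ) (h : ∀ x ∈ S, c x = c' x) :
    Lam 𝔐 ψ c = Lam 𝔐 ψ c' := by
  rw [Lam, Lam]
  congr 2
  ext s
  rw [h s s.2]

theorem Lam_mul_nat {ℓ : ℕ} (hℓ : (ℓ : integralClosure ℤ ℂ) ∈ 𝔐) {ψ : S → ℂ} (hψ : IsIrr ψ)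
    (w : H → ℤ) (hw : ∀ g ∈ S, ∀ x, w (g * x * g⁻¹) = w x) :
    Lam 𝔐 ψ (fun x => ℓ * w x) = 0 := by
  have h1 : wt ψ (fun s => (((ℓ * w (s : H) : ℤ)) : ℂ)) =
      (ℓ : ℂ) * wt ψ (fun s => ((w (s : H) : ℤ) : ℂ)) := by
    rw [← wt_smul]
    congr 1
    ext s
    push_cast
    rfl
  rw [Lam, h1, red_natCast_mul 𝔐 ℓ (isIntegral_wt_int hψ w hw), nsmul_quot_eq_zero 𝔐 hℓ]

theorem multOn_self {ψ : S → ℂ} (hψ : IsIrr ψ) : MultOn 𝔐 ψ S := by
  classical
  intro c c' hc hc'
  have hr : ∀ c : H → ℤ, SuppClass S c → elt (fun s : S => c s) ∈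
      Subalgebra.center ℤ (MonoidAlgebra ℤ S) := by
    intro c hc
    apply elt_mem_center
    intro g x
    exact hc.2 g g.2 x
  have h1 : ∀ c : H → ℤ, wt ψ (fun s => ((c (s : H) : ℤ) : ℂ)) =
      om ψ (elt (fun s : S => c s)) := by
    intro c
    rw [om_elt, wt]
  have h2 : (fun s : S => conv c c' (s : H)) =
      conv (fun s : S => c s) (fun s : S => c' s) := by
    ext s
    rw [conv, conv]
    rw [← Finset.sum_subset (Finset.subset_univ (Finset.univ.filter (fun k => k ∈ S)))]
    · rw [← Finset.sum_subtype_eq_sum_filter, Finset.subtype_univ]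
      exact Fintype.sum_equiv (Equiv.refl _) _ _ (fun x => rfl)
    · intro y _ hy
      rw [hc.1 y (fun h => hy (Finset.mem_filter.mpr ⟨Finset.mem_univ _, h⟩)), zero_mul]
  rw [Lam, Lam, Lam, ← red_mul 𝔐 (isIntegral_wt_int hψ c (fun g hg x => hc.2 g hg x))
    (isIntegral_wt_int hψ c' (fun g hg x => hc'.2 g hg x))]
  congr 1
  rw [h1, h1, h1, ← om_mul hψ (hr c hc) (hr c' hc'), ← elt_conv, h2]

/-- Convolution powers. -/
noncomputable def cpow (c : H → ℤ) : ℕ → (H → ℤ)
  | 0 => open Classical in fun x => if x = 1 then 1 else 0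
  | n + 1 => conv (cpow c n) c

theorem elt_cpow (c : H → ℤ) (n : ℕ) : elt (cpow c n) = (elt c) ^ n := by
  classical
  induction n with
  | zero =>
    rw [pow_zero]
    apply MonoidAlgebra.ext
    ext x
    rw [elt_coeff, cpow, MonoidAlgebra.one_def, MonoidAlgebra.coeff_single, Finsupp.single_apply]
    simp only [eq_comm]
  | succ n ih => rw [cpow, elt_conv, ih, pow_succ]

theorem cpow_supp (Y : Subgroup H) {c : H → ℤ} (hc : SuppClass Y c) (n : ℕ) :
    SuppClass Y (cpow c n) := by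
  classical
  induction n with
  | zero =>
    constructor
    · intro x hx
      simp only [cpow]
      rw [if_neg]
      rintro rfl
      exact hx Y.one_mem
    · intro g _ x
      simp only [cpow]
      by_cases h : x = 1
      · subst h
        simp
      · rw [if_neg, if_neg h]
        intro h1
        apply h
        have : x = g⁻¹ * (g * x * g⁻¹) * g := by group
        rw [this, h1]
        group
  | succ n ih => exact conv_supp Y ih hc

theorem Lam_one {ψ : S → ℂ} (hψ : IsIrr ψ) (c : H → ℤ) : Lam 𝔐 ψ (cpow c 0) = 1 := by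
  classical
  rw [Lam, wt, ← red_one 𝔐]
  congr 1
  rw [div_eq_one_iff_eq hψ.one_ne_zero, Finset.sum_eq_single (1 : S)]
  · simp [cpow]
  · intro b _ hb
    have : (b : H) ≠ 1 := fun h => hb (Subtype.ext h)
    simp [cpow, this]
  · simp

theorem Lam_cpow {ψ : S → ℂ} (hψ : IsIrr ψ) {Y : Subgroup H} (hm : MultOn 𝔐 ψ Y)
    {c : H → ℤ} (hc : SuppClass Y c) (n : ℕ) : Lam 𝔐 ψ (cpow c n) = Lam 𝔐 ψ c ^ n := by
  induction n with
  | zero => rw [pow_zero, Lam_one 𝔐 hψ]
  | succ n ih => rw [cpow, hm _ _ (cpow_supp Y hc n) hc, ih, pow_succ]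

theorem Lam_eq_zero [h𝔐 : 𝔐.IsPrime] {ℓ : ℕ} [Fact ℓ.Prime]
    (hℓ : (ℓ : integralClosure ℤ ℂ) ∈ 𝔐) {ψ : S → ℂ} (hψ : IsIrr ψ) {Y : Subgroup H}
    (hS : S ≤ Y) (hm : MultOn 𝔐 ψ Y) (Q : Subgroup H) (hQY : Q ≤ Y) (hQ : IsPGroup ℓ Q)
    (hn : ∀ g ∈ Y, ∀ q ∈ Q, g * q * g⁻¹ ∈ Q) {c : H → ℤ} (hc : SuppClass Y c)
    (hc0 : ∀ y ∈ Y, (∀ q ∈ Q, q * y = y * q) → c y = 0) : Lam 𝔐 ψ c = 0 := by
  obtain ⟨N, hN, hz⟩ := elt_pow_zero' Y Q hQY hQ hn c hc hc0
  rw [← map_pow, ← elt_cpow] at hz
  have hdiv : ∀ y, (ℓ : ℤ) ∣ cpow c N y := by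
    intro y
    have h1 := congrArg (fun t : MonoidAlgebra (ZMod ℓ) H => t.coeff y) hz
    simp only [MonoidAlgebra.coeff_mapRingHom, MonoidAlgebra.coeff_zero, Finsupp.coe_zero,
      Pi.zero_apply] at h1
    rw [elt_coeff] at h1
    exact (ZMod.intCast_zmod_eq_zero_iff_dvd _ _).mp h1
  choose w hw using hdiv
  have hℓ0 : (ℓ : ℤ) ≠ 0 := by exact_mod_cast (Fact.out : ℓ.Prime).ne_zero
  have h1 : Lam 𝔐 ψ (cpow c N) = 0 := by
    have h2 : cpow c N = fun x => ℓ * w x := funext hw
    rw [h2]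
    apply Lam_mul_nat 𝔐 hℓ hψ
    intro g hg x
    have h3 := (cpow_supp Y hc N).2 g (hS hg) x
    rw [hw, hw x] at h3
    exact mul_left_cancel₀ hℓ0 h3
  rw [Lam_cpow 𝔐 hψ hm hc] at h1
  exact pow_eq_zero_iff (Nat.pos_iff_ne_zero.mp hN) |>.mp h1

theorem multOn_step [h𝔐 : 𝔐.IsPrime] {ℓ : ℕ} [Fact ℓ.Prime]
    (hℓ : (ℓ : integralClosure ℤ ℂ) ∈ 𝔐) {ψ : S → ℂ} (hψ : IsIrr ψ) {Y' Y : Subgroup H}
    (hS : S ≤ Y') (hY : Y' ≤ Y) (hm : MultOn 𝔐 ψ Y') (Q : Subgroup H) (hQY : Q ≤ Y')
    (hQ : IsPGroup ℓ Q) (hn : ∀ g ∈ Y', ∀ q ∈ Q, g * q * g⁻¹ ∈ Q)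
    (hcent : ∀ y ∈ Y, (∀ q ∈ Q, q * y = y * q) → y ∈ Y') : MultOn 𝔐 ψ Y := by
  classical
  intro c c' hc hc'
  -- restriction to `Y'`
  have hres : ∀ c : H → ℤ, SuppClass Y c → SuppClass Y' (fun x => if x ∈ Y' then c x else 0) := by
    intro c hc
    constructor
    · intro x hx
      simp only
      rw [if_neg hx]
    · intro g hg x
      have h1 : g * x * g⁻¹ ∈ Y' ↔ x ∈ Y' := by
        constructor
        · intro h
          have : x = g⁻¹ * (g * x * g⁻¹) * g := by group
          rw [this]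
          exact mul_mem (mul_mem (inv_mem hg) h) hg
        · intro h
          exact mul_mem (mul_mem hg h) (inv_mem hg)
      simp only [h1]
      rw [hc.2 g (hY hg)]
  set c₁ : H → ℤ := fun x => if x ∈ Y' then c x else 0 with hc₁
  set c₁' : H → ℤ := fun x => if x ∈ Y' then c' x else 0 with hc₁'
  have hs1 : SuppClass Y' c₁ := hres c hc
  have hs1' : SuppClass Y' c₁' := hres c' hc'
  set Δ : H → ℤ := fun x => if x ∈ Y' then conv c c' x - conv c₁ c₁' x else 0 with hΔ
  have hsΔ : SuppClass Y' Δ := by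
    constructor
    · intro x hx
      rw [hΔ]
      simp only
      rw [if_neg hx]
    · intro g hg x
      have h1 : g * x * g⁻¹ ∈ Y' ↔ x ∈ Y' := by
        constructor
        · intro h
          have : x = g⁻¹ * (g * x * g⁻¹) * g := by group
          rw [this]
          exact mul_mem (mul_mem (inv_mem hg) h) hg
        · intro h
          exact mul_mem (mul_mem hg h) (inv_mem hg)
      rw [hΔ]
      simp only [h1]
      rw [(conv_supp Y hc hc').2 g (hY hg), (conv_supp Y' hs1 hs1').2 g hg]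
  have hdvd : ∀ x ∈ Y', (∀ q ∈ Q, q * x = x * q) → (ℓ : ℤ) ∣ Δ x := by
    intro x hx hxQ
    have h1 : Δ x = ∑ y : H, if y ∈ Y' then 0 else c y * c' (y⁻¹ * x) := by
      rw [hΔ]
      simp only
      rw [if_pos hx, conv, conv, ← Finset.sum_sub_distrib]
      refine Finset.sum_congr rfl fun y _ => ?_
      rw [hc₁, hc₁']
      simp only
      by_cases hy : y ∈ Y'
      · rw [if_pos hy, if_pos hy, if_pos (mul_mem (inv_mem hy) hx)]
        ring
      · rw [if_neg hy, if_neg hy]
        ring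
    rw [h1, ← ZMod.intCast_zmod_eq_zero_iff_dvd, Int.cast_sum]
    let _ : MulAction Q H :=
      { smul := fun q y => q.1 * y * q.1⁻¹
        one_smul := fun y => by change ((1 : Q) : H) * y * ((1 : Q) : H)⁻¹ = y; simp
        mul_smul := fun a b y => by
          change ((a * b : Q) : H) * y * ((a * b : Q) : H)⁻¹ = a.1 * (b.1 * y * b.1⁻¹) * a.1⁻¹
          simp [mul_assoc] }
    have hsmul : ∀ (q : Q) (y : H), q • y = q.1 * y * q.1⁻¹ := fun _ _ => rfl
    rw [sum_eq_sum_fixed hQ (M := ZMod ℓ) (by intro m; simp)]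
    · apply Finset.sum_eq_zero
      intro y hy
      have h2 := (Finset.mem_filter.mp hy).2
      have h3 : ∀ q ∈ Q, q * y = y * q := by
        intro q hq
        have h3 := h2 ⟨q, hq⟩
        rw [hsmul] at h3
        exact mul_inv_eq_iff_eq_mul.mp h3
      by_cases hyY : y ∈ Y
      · rw [if_pos (hcent y hyY h3)]
        simp
      · rw [hc.1 y hyY]
        simp
    · intro q y
      rw [hsmul]
      have h4 : q.1 * y * q.1⁻¹ ∈ Y' ↔ y ∈ Y' := by
        constructor
        · intro h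
          have : y = q.1⁻¹ * (q.1 * y * q.1⁻¹) * q.1 := by group
          rw [this]
          exact mul_mem (mul_mem (inv_mem (hQY q.2)) h) (hQY q.2)
        · intro h
          exact mul_mem (mul_mem (hQY q.2) h) (inv_mem (hQY q.2))
      simp only [h4]
      congr 1
      by_cases hy : y ∈ Y'
      · rw [if_pos hy, if_pos hy]
      · rw [if_neg hy, if_neg hy, hc.2 _ (hY (hQY q.2))]
        congr 1
        have h5 : (q.1 * y * q.1⁻¹)⁻¹ * x = q.1 * (y⁻¹ * x) * q.1⁻¹ := by
          have h6 := hxQ q.1⁻¹ (inv_mem q.2)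
          calc (q.1 * y * q.1⁻¹)⁻¹ * x = q.1 * y⁻¹ * (q.1⁻¹ * x) := by group
            _ = q.1 * y⁻¹ * (x * q.1⁻¹) := by rw [h6]
            _ = _ := by group
        rw [h5, hc'.2 _ (hY (hQY q.2))]
  have hcentn : ∀ g ∈ Y', ∀ x, (∀ q ∈ Q, q * (g * x * g⁻¹) = (g * x * g⁻¹) * q) ↔
      (∀ q ∈ Q, q * x = x * q) := by
    intro g hg x
    constructor
    · intro h q hq
      have h1 := h (g * q * g⁻¹) (hn g hg q hq)
      have h2 : g * (q * x) * g⁻¹ = g * (x * q) * g⁻¹ := by
        calc g * (q * x) * g⁻¹ = g * q * g⁻¹ * (g * x * g⁻¹) := by group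
          _ = g * x * g⁻¹ * (g * q * g⁻¹) := h1
          _ = _ := by group
      exact mul_left_cancel (mul_right_cancel h2)
    · intro h q hq
      have h1 := hn g⁻¹ (inv_mem hg) q hq
      rw [inv_inv] at h1
      have h2 := h _ h1
      calc q * (g * x * g⁻¹) = g * ((g⁻¹ * q * g) * x) * g⁻¹ := by group
        _ = g * (x * (g⁻¹ * q * g)) * g⁻¹ := by rw [h2]
        _ = _ := by group
  set Δ₁ : H → ℤ := fun x => if ∀ q ∈ Q, q * x = x * q then 0 else Δ x with hΔ₁
  set Δ₂ : H → ℤ := fun x => if ∀ q ∈ Q, q * x = x * q then Δ x / ℓ else 0 with hΔ₂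
  have hs₁ : SuppClass Y' Δ₁ := by
    constructor
    · intro x hx
      rw [hΔ₁]
      simp only
      rw [hsΔ.1 x hx]
      simp
    · intro g hg x
      rw [hΔ₁]
      simp only [hcentn g hg x]
      rw [hsΔ.2 g hg]
  have hs₂ : SuppClass Y' Δ₂ := by
    constructor
    · intro x hx
      rw [hΔ₂]
      simp only
      rw [hsΔ.1 x hx]
      simp
    · intro g hg x
      rw [hΔ₂]
      simp only [hcentn g hg x]
      rw [hsΔ.2 g hg]
  have hsplit : ∀ x ∈ Y', Δ x = Δ₁ x + ℓ * Δ₂ x := by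
    intro x hx
    rw [hΔ₁, hΔ₂]
    simp only
    by_cases h : ∀ q ∈ Q, q * x = x * q
    · rw [if_pos h, if_pos h, zero_add, Int.mul_ediv_cancel' (hdvd x hx h)]
    · rw [if_neg h, if_neg h, mul_zero, add_zero]
  have hz1 : Lam 𝔐 ψ Δ₁ = 0 := by
    apply Lam_eq_zero 𝔐 hℓ hψ hS hm Q hQY hQ hn hs₁
    intro y _ hy
    rw [hΔ₁]
    simp only
    rw [if_pos hy]
  have hz2 : Lam 𝔐 ψ (fun x => ℓ * Δ₂ x) = 0 :=
    Lam_mul_nat 𝔐 hℓ hψ Δ₂ (fun g hg x => hs₂.2 g (hS hg) x)
  have hcl2 : ∀ g ∈ S, ∀ x, (fun x => (ℓ : ℤ) * Δ₂ x) (g * x * g⁻¹) =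
      (fun x => (ℓ : ℤ) * Δ₂ x) x := by
    intro g hg x
    simp only
    rw [hs₂.2 g (hS hg)]
  have hzΔ : Lam 𝔐 ψ Δ = 0 := by
    have h1 : Lam 𝔐 ψ Δ = Lam 𝔐 ψ (fun x => Δ₁ x + ℓ * Δ₂ x) :=
      Lam_congr 𝔐 ψ _ _ fun x hx => hsplit x (hS hx)
    rw [h1, Lam_add 𝔐 hψ Δ₁ (fun x => ℓ * Δ₂ x) (fun g hg x => hs₁.2 g (hS hg) x) hcl2, hz1, hz2,
      add_zero]
  have h1 : Lam 𝔐 ψ (conv c c') = Lam 𝔐 ψ (fun x => conv c₁ c₁' x + Δ x) := by
    apply Lam_congr
    intro x hx
    rw [hΔ]
    simp only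
    rw [if_pos (hS hx)]
    ring
  rw [h1, Lam_add 𝔐 hψ (conv c₁ c₁') Δ
    (fun g hg x => (conv_supp Y' hs1 hs1').2 g (hS hg) x) (fun g hg x => hsΔ.2 g (hS hg) x),
    hzΔ, add_zero, hm c₁ c₁' hs1 hs1']
  have e1 : Lam 𝔐 ψ c₁ = Lam 𝔐 ψ c := by
    apply Lam_congr
    intro x hx
    rw [hc₁]
    simp only
    rw [if_pos (hS hx)]
  have e2 : Lam 𝔐 ψ c₁' = Lam 𝔐 ψ c' := by
    apply Lam_congr
    intro x hx
    rw [hc₁']
    simp only
    rw [if_pos (hS hx)]
  rw [e1, e2]

/-- Class functions of `Y` with values congruent on the centralizer of a normal `ℓ`-subgroup of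
`Y` have the same weight. -/
theorem red_wt_eq' [h𝔐 : 𝔐.IsPrime] {ℓ : ℕ} [Fact ℓ.Prime]
    (hℓ : (ℓ : integralClosure ℤ ℂ) ∈ 𝔐) {ψ : S → ℂ} (hψ : IsIrr ψ) {Y : Subgroup H}
    (hS : S ≤ Y) (hm : MultOn 𝔐 ψ Y) (Q : Subgroup H) (hQY : Q ≤ Y) (hQ : IsPGroup ℓ Q)
    (hn : ∀ g ∈ Y, ∀ q ∈ Q, g * q * g⁻¹ ∈ Q) (f f' : H → ℂ)
    (hf : ∀ g ∈ Y, ∀ x ∈ Y, f (g * x * g⁻¹) = f x) (hi : ∀ y ∈ Y, IsIntegral ℤ (f y))
    (hf' : ∀ g ∈ Y, ∀ x ∈ Y, f' (g * x * g⁻¹) = f' x) (hi' : ∀ y ∈ Y, IsIntegral ℤ (f' y))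
    (heq : ∀ y ∈ Y, (∀ q ∈ Q, q * y = y * q) → red 𝔐 (f y) = red 𝔐 (f' y)) :
    red 𝔐 (wt ψ (fun s => f s)) = red 𝔐 (wt ψ (fun s => f' s)) := by
  classical
  have hYf : Fintype Y := Fintype.ofFinite _
  obtain ⟨F, hF⟩ := exists_lift_class (fun y : Y => f y) (fun g x => hf g g.2 x x.2)
  obtain ⟨F', hF'⟩ := exists_lift_class (fun y : Y => f' y) (fun g x => hf' g g.2 x x.2)
  let ι : S → Y := fun s => ⟨s, hS s.2⟩
  have h1 : (fun s : S => f s) = fun s => F (ConjClasses.mk (ι s)) := by ext y; rw [hF]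
  have h1' : (fun s : S => f' s) = fun s => F' (ConjClasses.mk (ι s)) := by ext y; rw [hF']
  let ind : Y → H → ℤ := fun x y => if ∃ h : y ∈ Y, ConjClasses.mk (⟨y, h⟩ : Y) =
    ConjClasses.mk x then 1 else 0
  have hind : ∀ x : Y, SuppClass Y (ind x) := by
    intro x
    constructor
    · intro y hy
      simp only [ind]
      rw [if_neg]
      rintro ⟨h, -⟩
      exact hy h
    · intro g hg y
      simp only [ind]
      congr 1
      apply propext
      constructor
      · rintro ⟨h, h2⟩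
        have hy : y ∈ Y := by
          have : y = g⁻¹ * (g * y * g⁻¹) * g := by group
          rw [this]
          exact mul_mem (mul_mem (inv_mem hg) h) hg
        refine ⟨hy, ?_⟩
        rw [← h2, ConjClasses.mk_eq_mk_iff_isConj]
        exact isConj_iff.mpr ⟨⟨g, hg⟩, rfl⟩
      · rintro ⟨h, h2⟩
        refine ⟨mul_mem (mul_mem hg h) (inv_mem hg), ?_⟩
        rw [← h2, ConjClasses.mk_eq_mk_iff_isConj]
        apply IsConj.symm
        exact isConj_iff.mpr ⟨⟨g, hg⟩, rfl⟩
  have hom : ∀ x : Y, (fun s : S => if ConjClasses.mk (ι s) = ConjClasses.mk x then (1 : ℂ) else 0)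
      = fun s : S => ((ind x (s : H) : ℤ) : ℂ) := by
    intro x
    ext s
    simp only [ind]
    by_cases h : ConjClasses.mk (ι s) = ConjClasses.mk x
    · rw [if_pos h, if_pos ⟨hS s.2, h⟩]
      simp
    · rw [if_neg h, if_neg]
      · simp
      · rintro ⟨h2, h3⟩
        exact h h3
  have hint : ∀ x : Y, IsIntegral ℤ
      (wt ψ (fun s => if ConjClasses.mk (ι s) = ConjClasses.mk x then 1 else 0)) := by
    intro x
    rw [hom]
    exact isIntegral_wt_int hψ _ (fun g hg y => (hind x).2 g (hS hg) y)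
  rw [h1, h1', wt_comp_classes, wt_comp_classes, red_sum, red_sum]
  · refine Finset.sum_congr rfl fun L _ => ?_
    obtain ⟨x, rfl⟩ := L.exists_rep
    change red 𝔐 (F (ConjClasses.mk x) * _) = red 𝔐 (F' (ConjClasses.mk x) * _)
    rw [hF, hF', red_mul 𝔐 (hi x x.2) (hint x), red_mul 𝔐 (hi' x x.2) (hint x)]
    by_cases hx : ∀ q ∈ Q, q * (x : H) = x * q
    · rw [heq x x.2 hx]
    · have : red 𝔐 (wt ψ (fun s => if ConjClasses.mk (ι s) = ConjClasses.mk x then 1 else 0)) =
          0 := by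
        rw [hom]
        apply Lam_eq_zero 𝔐 hℓ hψ hS hm Q hQY hQ hn (hind x)
        intro y _ hy
        simp only [ind]
        rw [if_neg]
        rintro ⟨hyY, hxy⟩
        apply hx
        rw [ConjClasses.mk_eq_mk_iff_isConj] at hxy
        obtain ⟨c, hc⟩ := isConj_iff.mp hxy
        have hc' : (c : H) * y * (c : H)⁻¹ = x := congrArg Subtype.val hc
        rw [← hc']
        intro q hq
        have h1 := hn (c : H)⁻¹ (inv_mem c.2) q hq
        rw [inv_inv] at h1
        have h2 := hy _ h1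
        calc q * ((c : H) * y * (c : H)⁻¹) = c * (((c : H)⁻¹ * q * c) * y) * (c : H)⁻¹ := by group
          _ = c * (y * ((c : H)⁻¹ * q * c)) * (c : H)⁻¹ := by rw [h2]
          _ = _ := by group
      rw [this, mul_zero, mul_zero]
  · intro L _
    obtain ⟨x, rfl⟩ := L.exists_rep
    change IsIntegral ℤ (F' (ConjClasses.mk x) * _)
    rw [hF']
    exact (hi' x x.2).mul (hint x)
  · intro L _
    obtain ⟨x, rfl⟩ := L.exists_rep
    change IsIntegral ℤ (F (ConjClasses.mk x) * _)
    rw [hF]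
    exact (hi x x.2).mul (hint x)

end Mult

end Pool.Agent.Lib_helper13


end
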