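import Mathlib
import Pool.Agent.DAM.C01
import Pool.Agent.Lib_helper13.DadeDefs

/-! Parts: Lib_helper13.Fourier, Lib_helper13.SdpChains, Lib_helper13.LittleCount, Lib_helper13.DualFix, Lib_helper13.Cen, Lib_helper13.ClaimC, Lib_helper13.MainLemma, Lib_helper13.Good, Lib_helper13.Bridge -/

section

set_option linter.unusedSectionVars false

/-! Classification of the irreducible characters of `A ⋊ K`, `A` abelian. -/

namespace Pool.Agent.Lib_helper13

open Representation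

section LinChar

variable {A : Type*} [CommGroup A]

instance finiteLinChar [Finite A] : Finite (A →* ℂˣ) := by
  have : NeZero (Monoid.exponent A : ℂ) := by
    constructor
    have := Monoid.exponent_ne_zero_of_finite (G := A)
    exact_mod_cast this
  obtain ⟨e⟩ := CommGroup.monoidHom_mulEquiv_of_hasEnoughRootsOfUnity A ℂ
  exact Finite.of_equiv A e.symm.toEquiv

theorem exists_linChar_ne_one [Finite A] {a : A} (ha : a ≠ 1) : ∃ μ : A →* ℂˣ, μ a ≠ 1 := by
  have : NeZero (Monoid.exponent A : ℂ) := by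
    constructor
    have := Monoid.exponent_ne_zero_of_finite (G := A)
    exact_mod_cast this
  exact CommGroup.exists_apply_ne_one_of_hasEnoughRootsOfUnity A ℂ ha

theorem sum_lin [Fintype A] (μ : A →* ℂˣ) [Decidable (μ = 1)] :
    ∑ a, ((μ a : ℂˣ) : ℂ) = if μ = 1 then (Nat.card A : ℂ) else 0 := by
  split_ifs with h
  · subst h
    simp [Nat.card_eq_fintype_card]
  · have := sum_hom_units_eq_zero ((Units.coeHom ℂ).comp μ) (by
      intro h1
      apply h
      ext a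
      exact congrArg (fun f : A →* ℂ => f a) h1)
    exact this

theorem sum_dual [Finite A] [Fintype (A →* ℂˣ)] {a : A} (ha : a ≠ 1) :
    ∑ μ : A →* ℂˣ, ((μ a : ℂˣ) : ℂ) = 0 := by
  obtain ⟨ν, hν⟩ := exists_linChar_ne_one ha
  have h1 : ∑ μ : A →* ℂˣ, ((μ a : ℂˣ) : ℂ) = ∑ μ : A →* ℂˣ, (((ν * μ) a : ℂˣ) : ℂ) :=
    (Fintype.sum_equiv (Equiv.mulLeft ν) _ _ fun μ => rfl).symm
  have h2 : ∑ μ : A →* ℂˣ, (((ν * μ) a : ℂˣ) : ℂ) =
      ((ν a : ℂˣ) : ℂ) * ∑ μ : A →* ℂˣ, ((μ a : ℂˣ) : ℂ) := by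
    rw [Finset.mul_sum]
    refine Finset.sum_congr rfl fun μ _ => ?_
    simp
  rw [h2] at h1
  have h3 : ((ν a : ℂˣ) : ℂ) ≠ 1 := by
    intro h
    exact hν (Units.ext h)
  have h4 : (((ν a : ℂˣ) : ℂ) - 1) * ∑ μ : A →* ℂˣ, ((μ a : ℂˣ) : ℂ) = 0 := by
    rw [sub_mul, one_mul, ← h1, sub_self]
  rcases mul_eq_zero.mp h4 with h | h
  · exact absurd (sub_eq_zero.mp h) h3
  · exact h

end LinChar

section Sdp

variable {A K : Type*} [CommGroup A] [Fintype A] [Group K] [Fintype K] (φ : K →* MulAut A)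

noncomputable instance fintypeSdp : Fintype (A ⋊[φ] K) :=
  Fintype.ofEquiv (A × K) (SemidirectProduct.equivProd (φ := φ)).symm

theorem sum_sdp {M : Type*} [AddCommMonoid M] (F : A ⋊[φ] K → M) :
    ∑ x, F x = ∑ k : K, ∑ a : A, F ⟨a, k⟩ := by
  rw [← Fintype.sum_equiv (SemidirectProduct.equivProd (φ := φ)).symm
    (fun p : A × K => F ⟨p.1, p.2⟩) F (fun _ => rfl), Fintype.sum_prod_type_right]

theorem natCard_sdp : Nat.card (A ⋊[φ] K) = Nat.card A * Nat.card K := SemidirectProduct.card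

end Sdp

section Fou

variable {A K : Type*} [CommGroup A] [Fintype A] [Group K] [Fintype K] {φ : K →* MulAut A}
  (lam : A →* ℂˣ)

noncomputable instance fintypeStab {A K : Type*} [CommGroup A] [Group K] [Finite K]
    {φ : K →* MulAut A} {lam : A →* ℂˣ} : Fintype (stab φ lam) := Fintype.ofFinite _

/-- The `lam`-component of a function on `A ⋊ K`. -/
noncomputable def fou (θ : A ⋊[φ] K → ℂ) (k : K) : ℂ :=
  (∑ a : A, (((lam a)⁻¹ : ℂˣ) : ℂ) * θ ⟨a, k⟩) / Nat.card A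

theorem conj_inr (t k : K) (a : A) :
    (SemidirectProduct.inr t : A ⋊[φ] K) * ⟨a, k⟩ * (SemidirectProduct.inr t)⁻¹ =
      ⟨φ t a, t * k * t⁻¹⟩ := by
  ext <;> simp

theorem fou_conj {θ : A ⋊[φ] K → ℂ} (hθ : ∀ g x, θ (g * x * g⁻¹) = θ x) {t : K}
    (ht : t ∈ stab φ lam) (k : K) : fou lam θ (t * k * t⁻¹) = fou lam θ k := by
  rw [fou, fou]
  congr 1
  symm
  refine Fintype.sum_equiv (φ t).toEquiv _ _ ?_
  intro a
  have h1 : (φ t).toEquiv a = φ t a := rfl
  rw [h1, ht a, ← conj_inr, hθ]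

/-- Frobenius reciprocity for `indChar`. -/
theorem sum_mul_indChar {θ : A ⋊[φ] K → ℂ} (hθ : ∀ g x, θ (g * x * g⁻¹) = θ x)
    (ψ : stab φ lam → ℂ) :
    ∑ x, θ x * indChar φ lam ψ x⁻¹ =
      (Nat.card K * Nat.card A / Nat.card (stab φ lam)) *
        ∑ k : stab φ lam, fou lam θ (k : K) * ψ k⁻¹ := by
  classical
  -- the summand attached to `t`
  have h1 : ∀ t : K, ∑ x : A ⋊[φ] K, θ x *
      (((lam (φ t⁻¹ (x⁻¹).left) : ℂˣ) : ℂ) * ext0 ψ (t⁻¹ * (x⁻¹).right * t)) =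
      ∑ x : A ⋊[φ] K, θ x * (((lam (x⁻¹).left : ℂˣ) : ℂ) * ext0 ψ ((x⁻¹).right)) := by
    intro t
    refine Fintype.sum_equiv (MulAut.conj (SemidirectProduct.inr t⁻¹ : A ⋊[φ] K)).toEquiv _ _ ?_
    intro x
    have h2 : (MulAut.conj (SemidirectProduct.inr t⁻¹ : A ⋊[φ] K)).toEquiv x =
      SemidirectProduct.inr t⁻¹ * x * (SemidirectProduct.inr t⁻¹)⁻¹ := rfl
    rw [h2, hθ]
    congr 1
    have h3 : (SemidirectProduct.inr t⁻¹ * x * (SemidirectProduct.inr t⁻¹)⁻¹ : A ⋊[φ] K)⁻¹ =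
      SemidirectProduct.inr t⁻¹ * x⁻¹ * (SemidirectProduct.inr t⁻¹)⁻¹ := by group
    rw [h3]
    obtain ⟨b, l⟩ := x⁻¹
    rw [conj_inr]
    simp
  have h2 : ∑ x : A ⋊[φ] K, θ x * (((lam (x⁻¹).left : ℂˣ) : ℂ) * ext0 ψ ((x⁻¹).right)) =
      Nat.card A * ∑ k : stab φ lam, fou lam θ (k : K) * ψ k⁻¹ := by
    rw [sum_sdp]
    have h3 : ∀ k : K, ∑ a : A, θ (⟨a, k⟩ : A ⋊[φ] K) *
        (((lam ((⟨a, k⟩ : A ⋊[φ] K)⁻¹).left : ℂˣ) : ℂ) *
          ext0 ψ (((⟨a, k⟩ : A ⋊[φ] K)⁻¹).right)) =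
        if h : k ∈ stab φ lam then Nat.card A * (fou lam θ k * ψ ⟨k, h⟩⁻¹) else 0 := by
      intro k
      split_ifs with hk
      · have h4 : ∀ a : A, lam ((⟨a, k⟩ : A ⋊[φ] K)⁻¹).left = (lam a)⁻¹ := by
          intro a
          rw [SemidirectProduct.inv_left]
          change lam (φ k⁻¹ a⁻¹) = _
          rw [(stab φ lam).inv_mem hk, map_inv]
        have h5 : ∀ a : A, ((⟨a, k⟩ : A ⋊[φ] K)⁻¹).right = k⁻¹ := fun a => rfl
        simp only [h4, h5]
        rw [ext0_of_mem ψ ((stab φ lam).inv_mem hk), fou]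
        have hA : (Nat.card A : ℂ) ≠ 0 := natCard_ne_zero
        field_simp
        rw [Finset.sum_mul]
        refine Finset.sum_congr rfl fun a _ => ?_
        change _ = _ * ψ ⟨k⁻¹, _⟩
        ring
      · apply Finset.sum_eq_zero
        intro a _
        rw [ext0_of_not_mem, mul_zero, mul_zero]
        intro h
        exact hk (by simpa using (stab φ lam).inv_mem h)
    simp only [h3]
    rw [Finset.mul_sum]
    rw [← Finset.sum_subset (Finset.subset_univ (Finset.univ.filter (fun k => k ∈ stab φ lam)))]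
    · rw [← Finset.sum_subtype_eq_sum_filter, Finset.subtype_univ]
      refine Fintype.sum_equiv (Equiv.refl _) _ _ ?_
      rintro ⟨k, hk⟩
      simp only [Equiv.refl_apply]
      rw [dif_pos hk]
    · intro k _ hk
      rw [dif_neg]
      intro h
      exact hk (Finset.mem_filter.mpr ⟨Finset.mem_univ _, h⟩)
  have h3 : ∀ x : A ⋊[φ] K, θ x * indChar φ lam ψ x⁻¹ = (∑ t : K, θ x *
      (((lam (φ t⁻¹ (x⁻¹).left) : ℂˣ) : ℂ) * ext0 ψ (t⁻¹ * (x⁻¹).right * t))) /
        Nat.card (stab φ lam) := by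
    intro x
    rw [indChar, ← Finset.mul_sum, mul_div_assoc]
  simp only [h3]
  rw [← Finset.sum_div, Finset.sum_comm]
  simp only [h1, h2]
  rw [Finset.sum_const, Finset.card_univ, nsmul_eq_mul, Nat.card_eq_fintype_card (α := K)]
  ring

theorem lin_comp_eq_iff (t : K) : (lam⁻¹ * lam.comp (φ t⁻¹).toMonoidHom = 1) ↔
    t ∈ stab φ lam := by
  constructor
  · intro h
    rw [← Subgroup.inv_mem_iff]
    intro a
    have := congrArg (fun f : A →* ℂˣ => f a) h
    simp only [MonoidHom.mul_apply, MonoidHom.inv_apply, MonoidHom.comp_apply,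
      MonoidHom.one_apply] at this
    exact (inv_mul_eq_one.mp this).symm
  · intro h
    ext a
    have := (stab φ lam).inv_mem h a
    simp only [MonoidHom.mul_apply, MonoidHom.inv_apply, MonoidHom.comp_apply,
      MonoidHom.one_apply]
    change (((lam a)⁻¹ * lam (φ t⁻¹ a) : ℂˣ) : ℂ) = 1
    rw [this, inv_mul_cancel, Units.val_one]

theorem fou_indChar {ψ : stab φ lam → ℂ} (hψ : ∀ g x, ψ (g * x * g⁻¹) = ψ x)
    (k : stab φ lam) : fou lam (indChar φ lam ψ) (k : K) = ψ k := by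
  classical
  have hA : (Nat.card A : ℂ) ≠ 0 := natCard_ne_zero
  have hS : (Nat.card (stab φ lam) : ℂ) ≠ 0 := natCard_ne_zero
  rw [fou, div_eq_iff hA]
  have h1 : ∀ a : A, (((lam a)⁻¹ : ℂˣ) : ℂ) * indChar φ lam ψ ⟨a, (k : K)⟩ =
      (∑ t : K, (((lam⁻¹ * lam.comp (φ t⁻¹).toMonoidHom) a : ℂˣ) : ℂ) *
        ext0 ψ (t⁻¹ * k * t)) / Nat.card (stab φ lam) := by
    intro a
    rw [indChar, mul_div_assoc', Finset.mul_sum]
    congr 1
    refine Finset.sum_congr rfl fun t _ => ?_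
    rw [← mul_assoc]
    rfl
  simp only [h1]
  rw [← Finset.sum_div, Finset.sum_comm]
  simp only [← Finset.sum_mul]
  rw [div_eq_iff hS]
  have h2 : ∀ t : K, (∑ a : A, (((lam⁻¹ * lam.comp (φ t⁻¹).toMonoidHom) a : ℂˣ) : ℂ)) *
      ext0 ψ (t⁻¹ * k * t) = if t ∈ stab φ lam then Nat.card A * ψ k else 0 := by
    intro t
    rw [sum_lin]
    split_ifs with h h' h'
    · congr 1
      have h3 : t⁻¹ * (k : K) * t ∈ stab φ lam := mul_mem (mul_mem (inv_mem h') k.2) h'
      rw [ext0_of_mem ψ h3]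
      have := hψ ⟨t, h'⟩⁻¹ k
      rw [← this]
      congr 1
      apply Subtype.ext
      change t⁻¹ * (k : K) * t = t⁻¹ * (k : K) * t⁻¹⁻¹
      rw [inv_inv]
    · exact absurd ((lin_comp_eq_iff lam t).mp h) h'
    · exact absurd ((lin_comp_eq_iff lam t).mpr h') h
    · rw [zero_mul]
  simp only [h2]
  rw [← Finset.sum_filter, Finset.sum_const, nsmul_eq_mul]
  have h3 : ((Finset.univ.filter (fun t => t ∈ stab φ lam)).card : ℂ) =
      Nat.card (stab φ lam) := by
    rw [Nat.card_eq_fintype_card, Fintype.card_subtype]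
  rw [h3]
  ring

theorem isIrr_indChar {ψ : stab φ lam → ℂ} (hψ : IsIrr ψ) : IsIrr (indChar φ lam ψ) := by
  obtain ⟨n, σ, hσ, rfl⟩ := hψ
  have hψ : IsIrr σ.character := ⟨n, σ, hσ, rfl⟩
  rw [← indRep_character_eq]
  apply isIrr_of_rep_sum
  have hcl : ∀ g x, (indRep φ lam σ).character (g * x * g⁻¹) = (indRep φ lam σ).character x :=
    fun g x => char_conj _ _ _
  rw [indRep_character_eq] at hcl ⊢
  have h1 := sum_mul_indChar lam hcl σ.character
  rw [h1]
  have h2 : ∀ k : stab φ lam, fou lam (indChar φ lam σ.character) (k : K) = σ.character k :=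
    fun k => fou_indChar lam (fun g x => hψ.conj_eq g x) k
  simp only [h2]
  rw [hψ.sum_self, natCard_sdp]
  have hS : (Nat.card (stab φ lam) : ℂ) ≠ 0 := natCard_ne_zero
  push_cast
  field_simp

theorem exists_of_fou_ne_zero {θ : A ⋊[φ] K → ℂ} (hθ : IsIrr θ)
    (h : ∃ k ∈ stab φ lam, fou lam θ k ≠ 0) :
    ∃ ψ : stab φ lam → ℂ, IsIrr ψ ∧ indChar φ lam ψ = θ := by
  obtain ⟨k₀, hk₀, hk₀'⟩ := h
  obtain ⟨ψ, hψ, hne⟩ := exists_irr_of_ne_zero (fun k : stab φ lam => fou lam θ (k : K))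
    (fun g x => fou_conj lam (fun g x => hθ.conj_eq g x) g.2 _) (by
      intro h0
      exact hk₀' (congrFun h0 ⟨k₀, hk₀⟩))
  refine ⟨ψ, hψ, ?_⟩
  by_contra hcon
  have h1 := hθ.sum_ne (isIrr_indChar lam hψ) (fun h => hcon h.symm)
  rw [sum_mul_indChar lam (fun g x => hθ.conj_eq g x)] at h1
  have hS : (Nat.card (stab φ lam) : ℂ) ≠ 0 := natCard_ne_zero
  have hA : (Nat.card A : ℂ) ≠ 0 := natCard_ne_zero
  have hK : (Nat.card K : ℂ) ≠ 0 := natCard_ne_zero
  rcases mul_eq_zero.mp h1 with h2 | h2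
  · exact (div_ne_zero (mul_ne_zero hK hA) hS) h2
  · exact hne h2

end Fou

end Pool.Agent.Lib_helper13


end

section

set_option linter.unusedSectionVars false

/-! Chains of `ℓ`-subgroups of `V ⋊ H` with `V` abelian of order prime to `ℓ`. -/

namespace Pool.Agent.Lib_helper13

section SdpChains

variable {V H : Type*} [CommGroup V] [Fintype V] [Group H] [Fintype H] {φ : H →* MulAut V}

/-- Every `ℓ`-subgroup of `V ⋊ H` is conjugate to a subgroup of `H` under `V`. -/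
theorem exists_conj_inr {ℓ : ℕ} [Fact ℓ.Prime] (hV : ¬ ℓ ∣ Nat.card V) (D : Subgroup (V ⋊[φ] H))
    (hD : IsPGroup ℓ D) :
    ∃ u : V, ∀ y ∈ D, y = SemidirectProduct.inl u * SemidirectProduct.inr y.right *
      (SemidirectProduct.inl u)⁻¹ := by
  classical
  have hDf : Fintype D := Fintype.ofFinite _
  obtain ⟨k, hk⟩ := hD.exists_card_eq
  have hcop : (Nat.card V).Coprime (Nat.card D) := by
    rw [hk]
    apply Nat.Coprime.pow_right
    exact ((Fact.out : ℓ.Prime).coprime_iff_not_dvd.mpr hV).symm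
  set w : V := ∏ x : D, x.1.left with hw
  obtain ⟨u, hu⟩ := (powCoprime hcop).surjective w
  have hu' : u ^ Nat.card D = w := hu
  refine ⟨u, fun y hy => ?_⟩
  have h1 : y.left ^ Nat.card D * φ y.right w = w := by
    have h2 : ∏ x : D, ((⟨y, hy⟩ * x : D) : V ⋊[φ] H).left = w :=
      Fintype.prod_equiv (Equiv.mulLeft (⟨y, hy⟩ : D)) _ _ (fun x => rfl)
    have h3 : ∀ x : D, ((⟨y, hy⟩ * x : D) : V ⋊[φ] H).left = y.left * φ y.right x.1.left :=
      fun x => rfl
    simp only [h3] at h2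
    rw [Finset.prod_mul_distrib, Finset.prod_const, Finset.card_univ,
      ← Nat.card_eq_fintype_card, ← map_prod] at h2
    exact h2
  have h4 : y.left * φ y.right u = u := by
    apply (powCoprime hcop).injective
    change (y.left * φ y.right u) ^ Nat.card D = u ^ Nat.card D
    rw [mul_pow, ← map_pow, hu', h1]
  ext
  · simp only [SemidirectProduct.mul_left, SemidirectProduct.left_inl,
      SemidirectProduct.right_inl, SemidirectProduct.left_inr, map_one, mul_one,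
      SemidirectProduct.mul_right, SemidirectProduct.right_inr, one_mul,
      SemidirectProduct.inv_left, inv_one, map_inv, MulAut.one_apply]
    rw [eq_mul_inv_iff_mul_eq]
    exact h4
  · simp

/-- The elements of `V` fixed by all members of a set of subgroups of `H`. -/
def fixV (φ : H →* MulAut V) (τ : Finset (Subgroup H)) : Subgroup V where
  carrier := {v | ∀ D ∈ τ, ∀ d ∈ D, φ d v = v}
  one_mem' := by
    intro D _ d _
    exact map_one _
  mul_mem' := by
    intro a b ha hb D hD d hd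
    rw [map_mul, ha D hD d hd, hb D hD d hd]
  inv_mem' := by
    intro a ha D hD d hd
    rw [map_inv, ha D hD d hd]

theorem mem_fixV {τ : Finset (Subgroup H)} {v : V} :
    v ∈ fixV φ τ ↔ ∀ D ∈ τ, ∀ d ∈ D, φ d v = v := Iff.rfl

/-- The embedding of `H` into `V ⋊ H` twisted by conjugation with `v`. -/
def emb (φ : H →* MulAut V) (v : V) : H →* V ⋊[φ] H :=
  (MulAut.conj (SemidirectProduct.inl v : V ⋊[φ] H)).toMonoidHom.comp SemidirectProduct.inr

theorem emb_apply (v : V) (h : H) : emb φ v h = ⟨v * (φ h v)⁻¹, h⟩ := by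
  change SemidirectProduct.inl v * SemidirectProduct.inr h * (SemidirectProduct.inl v)⁻¹ = _
  ext <;> simp

theorem emb_injective (v : V) : Function.Injective (emb φ v) := by
  intro a b h
  rw [emb_apply, emb_apply] at h
  exact congrArg SemidirectProduct.right h

theorem rightHom_comp_emb (v : V) :
    (SemidirectProduct.rightHom : V ⋊[φ] H →* H).comp (emb φ v) = MonoidHom.id H := by
  ext h
  rw [MonoidHom.comp_apply, emb_apply]
  rfl

theorem emb_mapZ {Z : Subgroup H} (hZ : ∀ z ∈ Z, ∀ v, φ z v = v) (v : V) :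
    Z.map (emb φ v) = Z.map SemidirectProduct.inr := by
  apply SetLike.ext'
  rw [Subgroup.coe_map, Subgroup.coe_map]
  apply Set.image_congr
  intro z hz
  rw [emb_apply, hZ z hz]
  ext <;> simp

theorem mapCh_rightHom (v : V) (τ : Finset (Subgroup H)) :
    mapCh (SemidirectProduct.rightHom : V ⋊[φ] H →* H) (mapCh (emb φ v) τ) = τ := by
  rw [mapCh_comp, rightHom_comp_emb, mapCh_id]

theorem isCh_emb {ℓ : ℕ} {Z : Subgroup H} (hZ : ∀ z ∈ Z, ∀ v, φ z v = v) (v : V)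
    (τ : Finset (Subgroup H)) :
    IsCh ℓ (Z.map (SemidirectProduct.inr : H →* V ⋊[φ] H)) (mapCh (emb φ v) τ) ↔ IsCh ℓ Z τ := by
  rw [← emb_mapZ hZ v, isCh_mapCh_iff (emb_injective v)]

theorem exists_emb {ℓ : ℕ} [Fact ℓ.Prime] (hV : ¬ ℓ ∣ Nat.card V) {Z : Subgroup H}
    (hZ : ∀ z ∈ Z, ∀ v, φ z v = v) {σ : Finset (Subgroup (V ⋊[φ] H))}
    (hσ : IsCh ℓ (Z.map SemidirectProduct.inr) σ) :
    ∃ v τ, IsCh ℓ Z τ ∧ mapCh (emb φ v) τ = σ := by
  rcases σ.eq_empty_or_nonempty with rfl | hne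
  · refine ⟨1, ∅, isCh_empty _ _, ?_⟩
    simp [mapCh]
  · obtain ⟨T, hT, hT'⟩ := hσ.exists_top hne
    obtain ⟨u, hu⟩ := exists_conj_inr hV T (hσ.1 T hT).1
    obtain ⟨τ, hτ⟩ := exists_mapCh (i := emb φ u) (σ := σ) (by
      intro D hD y hy
      exact ⟨y.right, (hu y (hT' D hD hy)).symm⟩)
    refine ⟨u, τ, ?_, hτ⟩
    rw [← isCh_emb hZ u, hτ]
    exact hσ

theorem mapCh_emb_eq_iff (v v₀ : V) (τ : Finset (Subgroup H)) :
    mapCh (emb φ v) τ = mapCh (emb φ v₀) τ ↔ v₀⁻¹ * v ∈ fixV φ τ := by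
  have hkey : ∀ d : H, emb φ v d = emb φ v₀ d ↔ φ d (v₀⁻¹ * v) = v₀⁻¹ * v := by
    intro d
    rw [emb_apply, emb_apply]
    rw [map_mul, map_inv]
    constructor
    · intro h'
      have h : v * (φ d v)⁻¹ = v₀ * (φ d v₀)⁻¹ := congrArg SemidirectProduct.left h'
      rw [mul_inv_eq_iff_eq_mul] at h
      rw [eq_inv_mul_iff_mul_eq, ← mul_assoc]
      exact h.symm
    · intro h
      have h2 : v * (φ d v)⁻¹ = v₀ * (φ d v₀)⁻¹ := by
        rw [eq_inv_mul_iff_mul_eq, ← mul_assoc] at h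
        rw [mul_inv_eq_iff_eq_mul]
        exact h.symm
      rw [h2]
  constructor
  · intro h D hD d hd
    rw [← hkey]
    have h1 : D.map (emb φ v) ∈ mapCh (emb φ v₀) τ := by
      rw [← h]
      exact mem_mapCh.mpr ⟨D, hD, rfl⟩
    obtain ⟨D', _, h2⟩ := mem_mapCh.mp h1
    have h3 : emb φ v d ∈ D'.map (emb φ v₀) := by
      rw [h2]
      exact ⟨d, hd, rfl⟩
    obtain ⟨d', _, h4⟩ := h3
    have h5 : d' = d := by
      rw [emb_apply, emb_apply] at h4
      exact congrArg SemidirectProduct.right h4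
    rw [← h4, h5]
  · intro h
    ext E
    rw [mem_mapCh, mem_mapCh]
    have h1 : ∀ D ∈ τ, D.map (emb φ v) = D.map (emb φ v₀) := by
      intro D hD
      apply SetLike.ext'
      rw [Subgroup.coe_map, Subgroup.coe_map]
      apply Set.image_congr
      intro d hd
      exact (hkey d).mpr (h D hD d hd)
    constructor
    · rintro ⟨D, hD, rfl⟩
      exact ⟨D, hD, (h1 D hD).symm⟩
    · rintro ⟨D, hD, rfl⟩
      exact ⟨D, hD, h1 D hD⟩

theorem sum_Ch_sdp {ℓ : ℕ} [Fact ℓ.Prime] (hV : ¬ ℓ ∣ Nat.card V) {Z : Subgroup H}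
    (hZ : ∀ z ∈ Z, ∀ v, φ z v = v) (F : Finset (Subgroup (V ⋊[φ] H)) → ℚ)
    (hF : ∀ v τ, F (mapCh (emb φ v) τ) = F (mapCh SemidirectProduct.inr τ)) :
    ∑ σ ∈ Ch ℓ (Z.map (SemidirectProduct.inr : H →* V ⋊[φ] H)), F σ =
      ∑ τ ∈ Ch ℓ Z, (Nat.card V : ℚ) / Nat.card (fixV φ τ) *
        F (mapCh SemidirectProduct.inr τ) := by
  classical
  have hmaps : ∀ p ∈ (Finset.univ : Finset V) ×ˢ Ch ℓ Z, mapCh (emb φ p.1) p.2 ∈
      Ch ℓ (Z.map (SemidirectProduct.inr : H →* V ⋊[φ] H)) := by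
    intro p hp
    rw [Finset.mem_product] at hp
    rw [mem_Ch, isCh_emb hZ]
    exact mem_Ch.mp hp.2
  have h1 := Finset.sum_fiberwise_of_maps_to hmaps
    (fun p => F (mapCh (emb φ p.1) p.2) / Nat.card (fixV φ p.2))
  have h2 : ∀ σ ∈ Ch ℓ (Z.map (SemidirectProduct.inr : H →* V ⋊[φ] H)),
      ∑ p ∈ (Finset.univ : Finset V) ×ˢ Ch ℓ Z with mapCh (emb φ p.1) p.2 = σ,
        F (mapCh (emb φ p.1) p.2) / Nat.card (fixV φ p.2) = F σ := by
    intro σ hσ
    obtain ⟨v₀, τ₀, hτ₀, rfl⟩ := exists_emb hV hZ (mem_Ch.mp hσ)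
    have h3 : ∀ p ∈ (((Finset.univ : Finset V) ×ˢ Ch ℓ Z).filter
        (fun p => mapCh (emb φ p.1) p.2 = mapCh (emb φ v₀) τ₀)),
        F (mapCh (emb φ p.1) p.2) / Nat.card (fixV φ p.2) =
          F (mapCh (emb φ v₀) τ₀) / Nat.card (fixV φ τ₀) := by
      intro p hp
      have h4 := (Finset.mem_filter.mp hp).2
      have h5 : p.2 = τ₀ := by
        have := congrArg (mapCh (SemidirectProduct.rightHom : V ⋊[φ] H →* H)) h4
        rwa [mapCh_rightHom, mapCh_rightHom] at this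
      rw [h4, h5]
    rw [Finset.sum_congr rfl h3, Finset.sum_const, nsmul_eq_mul]
    have h6 : ((((Finset.univ : Finset V) ×ˢ Ch ℓ Z).filter
        (fun p => mapCh (emb φ p.1) p.2 = mapCh (emb φ v₀) τ₀))).card =
          Nat.card (fixV φ τ₀) := by
      have hfin : Fintype (fixV φ τ₀) := Fintype.ofFinite _
      rw [Nat.card_eq_fintype_card, ← Finset.card_univ]
      symm
      apply Finset.card_bij (fun (w : fixV φ τ₀) _ => ((v₀ * (w : V), τ₀) : V × _))
      · intro w _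
        rw [Finset.mem_filter, Finset.mem_product]
        refine ⟨⟨Finset.mem_univ _, mem_Ch.mpr hτ₀⟩, ?_⟩
        rw [mapCh_emb_eq_iff, inv_mul_cancel_left]
        exact w.2
      · intro w _ w' _ h
        rw [Prod.mk.injEq] at h
        exact Subtype.ext (mul_left_cancel h.1)
      · rintro ⟨v, τ⟩ hp
        have h4 := (Finset.mem_filter.mp hp).2
        have h5 : τ = τ₀ := by
          have := congrArg (mapCh (SemidirectProduct.rightHom : V ⋊[φ] H →* H)) h4
          rwa [mapCh_rightHom, mapCh_rightHom] at this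
        subst h5
        rw [mapCh_emb_eq_iff] at h4
        exact ⟨⟨v₀⁻¹ * v, h4⟩, Finset.mem_univ _, by simp⟩
    rw [h6]
    have h7 : (Nat.card (fixV φ τ₀) : ℚ) ≠ 0 := by
      have : Nat.card (fixV φ τ₀) ≠ 0 := Nat.card_pos.ne'
      exact_mod_cast this
    field_simp
  rw [Finset.sum_congr rfl h2] at h1
  rw [h1, Finset.sum_product_right]
  refine Finset.sum_congr rfl fun τ _ => ?_
  simp only [hF]
  rw [Finset.sum_const, Finset.card_univ, nsmul_eq_mul, Nat.card_eq_fintype_card (α := V)]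
  ring

theorem mem_stb_inr {τ : Finset (Subgroup H)} {x : V ⋊[φ] H} :
    x ∈ stb (mapCh (SemidirectProduct.inr : H →* V ⋊[φ] H) τ) ↔
      x.right ∈ stb τ ∧ x.left ∈ fixV φ τ := by
  have hconj : ∀ d : H, x * SemidirectProduct.inr d * x⁻¹ =
      (⟨x.left * (φ (x.right * d * x.right⁻¹) x.left)⁻¹, x.right * d * x.right⁻¹⟩ :
        V ⋊[φ] H) := by
    intro d
    ext
    · simp [map_mul, MulAut.mul_apply]
    · simp
  constructor
  · intro h
    rw [mem_stb'] at h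
    have hA : ∀ D ∈ τ, ∀ d ∈ D, x.right * d * x.right⁻¹ ∈ D ∧
        φ (x.right * d * x.right⁻¹) x.left = x.left := by
      intro D hD d hd
      have h1 := (h (D.map SemidirectProduct.inr) (mem_mapCh.mpr ⟨D, hD, rfl⟩)
        (SemidirectProduct.inr d)).mp ⟨d, hd, rfl⟩
      rw [hconj] at h1
      obtain ⟨d', hd', h2⟩ := h1
      have h3 := congrArg SemidirectProduct.right h2
      have h4 := congrArg SemidirectProduct.left h2
      simp only [SemidirectProduct.right_inr, SemidirectProduct.left_inr] at h3 h4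
      rw [← h3]
      refine ⟨hd', ?_⟩
      rw [h3]
      exact (mul_inv_eq_one.mp h4.symm).symm
    have hB : ∀ D ∈ τ, ∀ d, x.right * d * x.right⁻¹ ∈ D → d ∈ D := by
      intro D hD d hd
      have h1 := (h (D.map SemidirectProduct.inr) (mem_mapCh.mpr ⟨D, hD, rfl⟩)
        (x⁻¹ * SemidirectProduct.inr (x.right * d * x.right⁻¹) * x)).mpr (by
          refine ⟨x.right * d * x.right⁻¹, hd, ?_⟩
          group)
      obtain ⟨d', hd', h2⟩ := h1
      have h3 := congrArg SemidirectProduct.right h2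
      have h4 : d' = d := by
        simp only [SemidirectProduct.right_inr, SemidirectProduct.mul_right,
          SemidirectProduct.inv_right] at h3
        rw [h3]
        group
      rw [← h4]
      exact hd'
    refine ⟨?_, ?_⟩
    · rw [mem_stb']
      intro D hD d
      exact ⟨fun hd => (hA D hD d hd).1, hB D hD d⟩
    · intro D hD d hd
      have h1 : x.right⁻¹ * d * x.right ∈ D := by
        apply hB D hD
        have : x.right * (x.right⁻¹ * d * x.right) * x.right⁻¹ = d := by group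
        rwa [this]
      have h2 := (hA D hD _ h1).2
      have : x.right * (x.right⁻¹ * d * x.right) * x.right⁻¹ = d := by group
      rwa [this] at h2
  · rintro ⟨h1, h2⟩
    rw [mem_stb] at h1 ⊢
    intro D' hD'
    obtain ⟨D, hD, rfl⟩ := mem_mapCh.mp hD'
    have h3 := h1 D hD
    apply SetLike.ext'
    rw [Subgroup.coe_map, Subgroup.coe_map]
    conv_rhs => rw [← h3, Subgroup.coe_map]
    rw [Set.image_image, Set.image_image]
    apply Set.image_congr
    intro d hd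
    change x * SemidirectProduct.inr d * x⁻¹ = SemidirectProduct.inr (x.right * d * x.right⁻¹)
    rw [hconj]
    have h4 : x.right * d * x.right⁻¹ ∈ D := by
      rw [← h3]
      exact ⟨d, hd, rfl⟩
    rw [h2 D hD _ h4, mul_inv_cancel]
    rfl

/-- Restriction of an action by automorphisms. -/
def resAct {V H : Type*} [Group V] [Group H] (φ : H →* MulAut V) (S : Subgroup H)
    (U : Subgroup V) (hU : ∀ s ∈ S, ∀ u ∈ U, φ s u ∈ U) : S →* MulAut U where
  toFun s :=
    { toFun := fun u => ⟨φ s u, hU s s.2 u u.2⟩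
      invFun := fun u => ⟨φ (s : H)⁻¹ u, hU _ (S.inv_mem s.2) u u.2⟩
      left_inv := fun u => Subtype.ext (by
        change φ (s : H)⁻¹ (φ s u) = u
        rw [← MulAut.mul_apply, ← map_mul, inv_mul_cancel, map_one, MulAut.one_apply])
      right_inv := fun u => Subtype.ext (by
        change φ s (φ (s : H)⁻¹ u) = u
        rw [← MulAut.mul_apply, ← map_mul, mul_inv_cancel, map_one, MulAut.one_apply])
      map_mul' := fun u v => Subtype.ext (by
        change φ s (u * v : V) = φ s u * φ s v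
        rw [map_mul]) }
  map_one' := by
    ext u
    change φ ((1 : S) : H) u = u
    rw [OneMemClass.coe_one, map_one, MulAut.one_apply]
  map_mul' := by
    intro a b
    ext u
    change φ ((a * b : S) : H) u = φ a (φ b u)
    rw [Subgroup.coe_mul, map_mul, MulAut.mul_apply]

theorem resAct_apply {V H : Type*} [Group V] [Group H] (φ : H →* MulAut V) (S : Subgroup H)
    (U : Subgroup V) (hU : ∀ s ∈ S, ∀ u ∈ U, φ s u ∈ U) (s : S) (u : U) :
    ((resAct φ S U hU s u : U) : V) = φ s u := rfl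

theorem stb_fixV (τ : Finset (Subgroup H)) : ∀ s ∈ stb τ, ∀ u ∈ fixV φ τ, φ s u ∈ fixV φ τ := by
  intro s hs u hu D hD d hd
  have h1 : s⁻¹ * d * s ∈ D := by
    have := (mem_stb'.mp hs D hD (s⁻¹ * d * s)).mpr (by
      have : s * (s⁻¹ * d * s) * s⁻¹ = d := by group
      rwa [this])
    exact this
  have h2 := hu D hD _ h1
  have h3 : φ d (φ s u) = φ s (φ (s⁻¹ * d * s) u) := by
    rw [← MulAut.mul_apply, ← MulAut.mul_apply, ← map_mul, ← map_mul]
    have : s * (s⁻¹ * d * s) = d * s := by group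
    rw [this]
  rw [h3, h2]

/-- The stabilizer of a chain of `H` in `V ⋊ H`. -/
def stbEquiv (φ : H →* MulAut V) (τ : Finset (Subgroup H)) :
    (fixV φ τ) ⋊[resAct φ (stb τ) (fixV φ τ) (stb_fixV τ)] (stb τ) ≃*
      stb (mapCh (SemidirectProduct.inr : H →* V ⋊[φ] H) τ) where
  toFun x := ⟨⟨x.left, x.right⟩, mem_stb_inr.mpr ⟨x.right.2, x.left.2⟩⟩
  invFun x := ⟨⟨x.1.left, (mem_stb_inr.mp x.2).2⟩, ⟨x.1.right, (mem_stb_inr.mp x.2).1⟩⟩
  left_inv x := by
    ext <;> rfl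
  right_inv x := by
    apply Subtype.ext
    ext <;> rfl
  map_mul' x y := by
    apply Subtype.ext
    ext <;> rfl

end SdpChains

end Pool.Agent.Lib_helper13


end

section

set_option linter.unusedSectionVars false

/-! Counting irreducible characters of `A ⋊ K` by little groups. -/

namespace Pool.Agent.Lib_helper13

open Representation

section

variable {A K : Type*} [CommGroup A] [Fintype A] [Group K] [Fintype K] {φ : K →* MulAut A}

noncomputable instance fintypeLinChar {A : Type*} [CommGroup A] [Finite A] :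
    Fintype (A →* ℂˣ) := Fintype.ofFinite _

theorem exists_fou_one_ne_zero {θ : A ⋊[φ] K → ℂ} (hθ : IsIrr θ) :
    ∃ lam : A →* ℂˣ, fou lam θ (1 : K) ≠ 0 := by
  classical
  by_contra hcon
  push Not at hcon
  have hA : (Nat.card A : ℂ) ≠ 0 := natCard_ne_zero
  have h1 : ∑ lam : A →* ℂˣ, (Nat.card A : ℂ) * fou lam θ (1 : K) = 0 := by
    apply Finset.sum_eq_zero
    intro lam _
    rw [hcon, mul_zero]
  have h2 : ∀ lam : A →* ℂˣ, (Nat.card A : ℂ) * fou lam θ (1 : K) =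
      ∑ a : A, (((lam a⁻¹) : ℂˣ) : ℂ) * θ ⟨a, 1⟩ := by
    intro lam
    rw [fou, mul_div_cancel₀ _ hA]
    simp only [map_inv]
  simp only [h2] at h1
  rw [Finset.sum_comm] at h1
  simp only [← Finset.sum_mul] at h1
  rw [Finset.sum_eq_single (1 : A)] at h1
  · have h3 : (∑ lam : A →* ℂˣ, (((lam (1 : A)⁻¹) : ℂˣ) : ℂ)) = Fintype.card (A →* ℂˣ) := by
      simp
    rw [h3] at h1
    rcases mul_eq_zero.mp h1 with h4 | h4
    · have : Fintype.card (A →* ℂˣ) ≠ 0 := Fintype.card_ne_zero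
      exact this (by exact_mod_cast h4)
    · exact hθ.one_ne_zero h4
  · intro b _ hb
    rw [sum_dual (fun h => hb (by simpa using h)), zero_mul]
  · simp

/-- The elements of `K` carrying `lam` to `lam'`. -/
noncomputable def transp (φ : K →* MulAut A) (lam lam' : A →* ℂˣ) : Finset K :=
  open Classical in Finset.univ.filter fun t : K => ∀ a, lam (φ t⁻¹ a) = lam' a

theorem mem_transp {lam lam' : A →* ℂˣ} {t : K} :
    t ∈ transp φ lam lam' ↔ ∀ a, lam (φ t⁻¹ a) = lam' a := by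
  classical
  simp [transp]

theorem fou_one_indChar (lam lam' : A →* ℂˣ) (ψ : stab φ lam → ℂ) :
    fou lam' (indChar φ lam ψ) (1 : K) = (ψ 1 / Nat.card (stab φ lam)) *
      (transp φ lam lam').card := by
  classical
  have hA : (Nat.card A : ℂ) ≠ 0 := natCard_ne_zero
  have hS : (Nat.card (stab φ lam) : ℂ) ≠ 0 := natCard_ne_zero
  rw [fou, div_eq_iff hA]
  have h1 : ∀ a : A, (((lam' a)⁻¹ : ℂˣ) : ℂ) * indChar φ lam ψ ⟨a, (1 : K)⟩ =
      (∑ t : K, (((lam'⁻¹ * lam.comp (φ t⁻¹).toMonoidHom) a : ℂˣ) : ℂ) * ψ 1) /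
        Nat.card (stab φ lam) := by
    intro a
    rw [indChar, mul_div_assoc', Finset.mul_sum]
    congr 1
    refine Finset.sum_congr rfl fun t _ => ?_
    have h2 : ext0 ψ (t⁻¹ * (1 : K) * t) = ψ 1 := by
      have : t⁻¹ * (1 : K) * t = 1 := by group
      rw [this, ext0_of_mem ψ (stab φ lam).one_mem]
      rfl
    change _ * ((_ : ℂ) * ext0 ψ (t⁻¹ * (1 : K) * t)) = _
    rw [h2, ← mul_assoc]
    rfl
  simp only [h1]
  rw [← Finset.sum_div, Finset.sum_comm]
  simp only [← Finset.sum_mul]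
  have h2 : ∀ t : K, (∑ a : A, (((lam'⁻¹ * lam.comp (φ t⁻¹).toMonoidHom) a : ℂˣ) : ℂ)) =
      if t ∈ transp φ lam lam' then (Nat.card A : ℂ) else 0 := by
    intro t
    rw [sum_lin]
    congr 1
    apply propext
    rw [mem_transp]
    constructor
    · intro h a
      have := congrArg (fun f : A →* ℂˣ => f a) h
      change (lam' a)⁻¹ * lam (φ t⁻¹ a) = 1 at this
      exact (inv_mul_eq_one.mp this).symm
    · intro h
      ext a
      change (((lam' a)⁻¹ * lam (φ t⁻¹ a) : ℂˣ) : ℂ) = 1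
      rw [h, inv_mul_cancel, Units.val_one]
  simp only [h2]
  rw [Finset.sum_ite_mem, Finset.univ_inter, Finset.sum_const, nsmul_eq_mul]
  ring

theorem card_transporter {lam lam' : A →* ℂˣ} (h : (transp φ lam lam').Nonempty) :
    (transp φ lam lam').card = Nat.card (stab φ lam') := by
  classical
  obtain ⟨t₀, ht₀⟩ := h
  rw [mem_transp] at ht₀
  rw [Nat.card_eq_fintype_card, ← Finset.card_univ]
  symm
  apply Finset.card_bij (fun (s : stab φ lam') _ => (s : K) * t₀)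
  · intro s _
    rw [mem_transp]
    intro a
    rw [mul_inv_rev, map_mul, MulAut.mul_apply, ht₀]
    exact (stab φ lam').inv_mem s.2 a
  · intro s _ s' _ h
    exact Subtype.ext (mul_right_cancel h)
  · intro t ht
    rw [mem_transp] at ht
    have h1 : (t * t₀⁻¹)⁻¹ ∈ stab φ lam' := by
      intro a
      rw [← ht₀, ← MulAut.mul_apply, ← map_mul]
      have : t₀⁻¹ * (t * t₀⁻¹)⁻¹ = t⁻¹ := by group
      rw [this, ht]
    refine ⟨⟨t * t₀⁻¹, by simpa using (stab φ lam').inv_mem h1⟩, Finset.mem_univ _, by simp⟩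

theorem sum_card_transp (lam : A →* ℂˣ) :
    ∑ lam' : A →* ℂˣ, (transp φ lam lam').card = Nat.card K := by
  classical
  rw [Nat.card_eq_fintype_card, ← Finset.card_univ]
  have h := Finset.card_eq_sum_card_fiberwise (s := (Finset.univ : Finset K))
    (t := (Finset.univ : Finset (A →* ℂˣ))) (f := fun t => lam.comp (φ t⁻¹).toMonoidHom)
    (fun _ _ => Finset.mem_univ _)
  rw [h]
  refine Finset.sum_congr rfl fun lam' _ => ?_
  congr 1
  ext t
  rw [mem_transp, Finset.mem_filter]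
  constructor
  · intro h
    refine ⟨Finset.mem_univ _, ?_⟩
    ext a
    exact congrArg Units.val (h a)
  · rintro ⟨-, h⟩ a
    exact congrArg (fun f : A →* ℂˣ => f a) h

/-- For an irreducible character `θ`, the weighted number of constituents on `A` is `|K|`. -/
theorem sum_stab_of_irr {θ : A ⋊[φ] K → ℂ} (hθ : IsIrr θ)
    [DecidablePred fun lam : A →* ℂˣ => ∃ k ∈ stab φ lam, fou lam θ k ≠ 0] :
    ∑ lam : A →* ℂˣ, (if ∃ k ∈ stab φ lam, fou lam θ k ≠ 0 then Nat.card (stab φ lam) else 0) =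
      Nat.card K := by
  classical
  obtain ⟨lam, hlam⟩ := exists_fou_one_ne_zero hθ
  obtain ⟨ψ, hψ, rfl⟩ := exists_of_fou_ne_zero lam hθ ⟨1, one_mem _, hlam⟩
  have hψ1 : ψ 1 / Nat.card (stab φ lam) ≠ 0 :=
    div_ne_zero hψ.one_ne_zero natCard_ne_zero
  rw [← sum_card_transp (φ := φ) lam]
  refine Finset.sum_congr rfl fun lam' _ => ?_
  split_ifs with h
  · obtain ⟨ψ', hψ', hind⟩ := exists_of_fou_ne_zero lam' hθ h
    have h1 : fou lam' (indChar φ lam ψ) (1 : K) ≠ 0 := by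
      rw [← hind]
      have h2 := fou_indChar lam' (fun g x => hψ'.conj_eq g x) (1 : stab φ lam')
      rw [OneMemClass.coe_one] at h2
      rw [h2]
      exact hψ'.one_ne_zero
    rw [fou_one_indChar] at h1
    have h3 : (transp φ lam lam').card ≠ 0 := by
      intro h4
      rw [h4] at h1
      simp at h1
    rw [card_transporter (Finset.card_pos.mp (Nat.pos_of_ne_zero h3))]
  · by_contra hne
    apply h
    refine ⟨1, one_mem _, ?_⟩
    rw [fou_one_indChar]
    apply mul_ne_zero hψ1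
    intro h5
    exact hne (by exact_mod_cast h5.symm)

/-- Counting irreducible characters of `A ⋊ K` satisfying a predicate. -/
theorem card_irr_sdp (P : (A ⋊[φ] K → ℂ) → Prop) :
    Nat.card {θ : A ⋊[φ] K → ℂ // IsIrr θ ∧ P θ} * Nat.card K =
      ∑ lam : A →* ℂˣ, Nat.card (stab φ lam) *
        Nat.card {ψ : stab φ lam → ℂ // IsIrr ψ ∧ P (indChar φ lam ψ)} := by
  classical
  have hfin : (Set.Finite {θ : A ⋊[φ] K → ℂ | IsIrr θ ∧ P θ}) :=
    finite_isIrr.subset fun θ h => h.1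
  let T : Finset (A ⋊[φ] K → ℂ) := hfin.toFinset
  have hT : ∀ θ, θ ∈ T ↔ IsIrr θ ∧ P θ := fun θ => by simp [T]
  have hcard : Nat.card {θ : A ⋊[φ] K → ℂ // IsIrr θ ∧ P θ} = T.card := by
    have : Nat.card {θ : A ⋊[φ] K → ℂ // IsIrr θ ∧ P θ} = Nat.card T :=
      Nat.card_congr (Equiv.subtypeEquivRight fun θ => (hT θ).symm)
    rw [this]
    simp
  have hlam : ∀ lam : A →* ℂˣ,
      Nat.card {ψ : stab φ lam → ℂ // IsIrr ψ ∧ P (indChar φ lam ψ)} =
        (T.filter fun θ => ∃ k ∈ stab φ lam, fou lam θ k ≠ 0).card := by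
    intro lam
    have h1 : (T.filter fun θ => ∃ k ∈ stab φ lam, fou lam θ k ≠ 0).card =
        Nat.card {θ // θ ∈ T.filter fun θ => ∃ k ∈ stab φ lam, fou lam θ k ≠ 0} := by
      rw [Nat.card_eq_fintype_card, Fintype.card_coe]
    rw [h1]
    refine Nat.card_congr (Equiv.ofBijective (fun ψ => ⟨indChar φ lam ψ.1, ?_⟩) ⟨?_, ?_⟩)
    · rw [Finset.mem_filter, hT]
      refine ⟨⟨isIrr_indChar lam ψ.2.1, ψ.2.2⟩, 1, one_mem _, ?_⟩
      have h2 := fou_indChar lam (fun g x => ψ.2.1.conj_eq g x) (1 : stab φ lam)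
      rw [OneMemClass.coe_one] at h2
      rw [h2]
      exact ψ.2.1.one_ne_zero
    · rintro ⟨ψ, hψ, hP⟩ ⟨ψ', hψ', hP'⟩ h
      apply Subtype.ext
      ext k
      have h2 := fou_indChar lam (fun g x => hψ.conj_eq g x) k
      have h3 := fou_indChar lam (fun g x => hψ'.conj_eq g x) k
      have h4 : indChar φ lam ψ = indChar φ lam ψ' := congrArg Subtype.val h
      change ψ k = ψ' k
      rw [← h2, ← h3, h4]
    · rintro ⟨θ, hθ⟩
      rw [Finset.mem_filter, hT] at hθ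
      obtain ⟨ψ, hψ, hind⟩ := exists_of_fou_ne_zero lam hθ.1.1 hθ.2
      refine ⟨⟨ψ, hψ, ?_⟩, Subtype.ext hind⟩
      rw [hind]
      exact hθ.1.2
  rw [hcard]
  simp only [hlam]
  simp only [Finset.card_filter, Finset.mul_sum]
  rw [Finset.sum_comm]
  rw [Finset.card_eq_sum_ones, Finset.sum_mul]
  refine Finset.sum_congr rfl fun θ hθ => ?_
  rw [one_mul, ← sum_stab_of_irr ((hT θ).mp hθ).1]
  refine Finset.sum_congr rfl fun lam _ => ?_
  split_ifs <;> simp

end

end Pool.Agent.Lib_helper13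


end

section

set_option linter.unusedSectionVars false

/-! Invariant linear characters of `V` are the linear characters of the fixed points. -/

namespace Pool.Agent.Lib_helper13

section DualFix

variable {V H : Type*} [CommGroup V] [Fintype V] [Group H] [Fintype H] {φ : H →* MulAut V}

theorem IsCh.exists_join {ℓ : ℕ} {Z : Subgroup H} {τ : Finset (Subgroup H)} (h : IsCh ℓ Z τ) :
    ∃ T : Subgroup H, IsPGroup ℓ T ∧ ∀ S : Subgroup H, (∀ D ∈ τ, D ≤ S) ↔ T ≤ S := by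
  rcases τ.eq_empty_or_nonempty with rfl | hne
  · refine ⟨⊥, IsPGroup.of_bot, fun S => ?_⟩
    simp
  · obtain ⟨T, hT, hT'⟩ := h.exists_top hne
    exact ⟨T, (h.1 T hT).1, fun S => ⟨fun h1 => h1 T hT, fun h1 D hD => (hT' D hD).trans h1⟩⟩

/-- The stabilizer of a point. -/
def ptStab (φ : H →* MulAut V) (v : V) : Subgroup H where
  carrier := {h | φ h v = v}
  one_mem' := by simp
  mul_mem' := by
    intro a b ha hb
    simp only [Set.mem_ofPred_eq] at ha hb ⊢
    rw [map_mul, MulAut.mul_apply, hb, ha]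
  inv_mem' := by
    intro a ha
    simp only [Set.mem_ofPred_eq] at ha ⊢
    conv_lhs => rw [← ha]
    rw [← MulAut.mul_apply, ← map_mul, inv_mul_cancel, map_one, MulAut.one_apply]

theorem mem_fixV_iff {τ : Finset (Subgroup H)} {T : Subgroup H}
    (hT : ∀ S : Subgroup H, (∀ D ∈ τ, D ≤ S) ↔ T ≤ S) (v : V) :
    v ∈ fixV φ τ ↔ ∀ t ∈ T, φ t v = v := hT (ptStab φ v)

/-- The norm map of an `ℓ`-subgroup acting on `V`. -/
noncomputable def normT (φ : H →* MulAut V) (T : Subgroup H) [Fintype T] : V →* V :=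
  ∏ t : T, (φ t).toMonoidHom

theorem normT_apply (T : Subgroup H) [Fintype T] (v : V) :
    normT φ T v = ∏ t : T, φ t v := by
  rw [normT, MonoidHom.finsetProd_apply]
  rfl

theorem normT_fixed (T : Subgroup H) [Fintype T] (v : V) (s : H) (hs : s ∈ T) :
    φ s (normT φ T v) = normT φ T v := by
  rw [normT_apply, map_prod]
  refine Fintype.prod_equiv (Equiv.mulLeft (⟨s, hs⟩ : T)) _ _ ?_
  intro t
  change φ s (φ t v) = φ ((⟨s, hs⟩ * t : T) : H) v
  rw [← MulAut.mul_apply, ← map_mul]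
  rfl

theorem normT_of_fixed (T : Subgroup H) [Fintype T] (v : V) (hv : ∀ t ∈ T, φ t v = v) :
    normT φ T v = v ^ Nat.card T := by
  rw [normT_apply, Finset.prod_congr rfl (fun (t : T) _ => hv t t.2), Finset.prod_const,
    Finset.card_univ, Nat.card_eq_fintype_card]

theorem lin_normT (T : Subgroup H) [Fintype T] (lam : V →* ℂˣ) (hT : T ≤ stab φ lam) (v : V) :
    lam (normT φ T v) = lam v ^ Nat.card T := by
  rw [normT_apply, map_prod, Finset.prod_congr rfl (fun (t : T) _ => hT t.2 v),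
    Finset.prod_const, Finset.card_univ, Nat.card_eq_fintype_card]

variable {ℓ : ℕ} [Fact ℓ.Prime]

theorem coprime_card (hV : ¬ ℓ ∣ Nat.card V) {T : Subgroup H} (hT : IsPGroup ℓ T) :
    (Nat.card V).Coprime (Nat.card T) := by
  obtain ⟨k, hk⟩ := hT.exists_card_eq
  rw [hk]
  apply Nat.Coprime.pow_right
  exact ((Fact.out : ℓ.Prime).coprime_iff_not_dvd.mpr hV).symm

/-- An invariant character is determined by its restriction to the fixed points. -/
theorem lin_ext_fixV (hV : ¬ ℓ ∣ Nat.card V) {Z : Subgroup H} {τ : Finset (Subgroup H)}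
    (hτ : IsCh ℓ Z τ) {lam lam' : V →* ℂˣ} (h : ∀ D ∈ τ, D ≤ stab φ lam)
    (h' : ∀ D ∈ τ, D ≤ stab φ lam') (heq : ∀ v ∈ fixV φ τ, lam v = lam' v) : lam = lam' := by
  obtain ⟨T, hTp, hT⟩ := hτ.exists_join
  have : Fintype T := Fintype.ofFinite _
  have hc := coprime_card hV hTp
  ext v
  congr 1
  have h1 : (v ^ Nat.card T) ^ (Nat.card V).gcdB (Nat.card T) = v := (powCoprime hc).left_inv v
  have h2 : lam (normT φ T v) = lam' (normT φ T v) :=
    heq _ ((mem_fixV_iff hT _).mpr fun t ht => normT_fixed T v t ht)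
  rw [lin_normT T lam ((hT _).mp h), lin_normT T lam' ((hT _).mp h')] at h2
  rw [← h1, map_zpow, map_pow, map_zpow, map_pow, h2]

theorem exists_lin_ext_fixV (hV : ¬ ℓ ∣ Nat.card V) {Z : Subgroup H} {τ : Finset (Subgroup H)}
    (hτ : IsCh ℓ Z τ) (μ : fixV φ τ →* ℂˣ) :
    ∃ lam : V →* ℂˣ, (∀ D ∈ τ, D ≤ stab φ lam) ∧ lam.comp (fixV φ τ).subtype = μ := by
  obtain ⟨T, hTp, hT⟩ := hτ.exists_join
  have : Fintype T := Fintype.ofFinite _
  have hc := coprime_card hV hTp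
  let N : V →* fixV φ τ := (normT φ T).codRestrict (fixV φ τ)
    (fun v => (mem_fixV_iff hT _).mpr fun t ht => normT_fixed T v t ht)
  let m : ℤ := (Nat.card V).gcdB (Nat.card T)
  refine ⟨(zpowGroupHom m).comp (μ.comp N), ?_, ?_⟩
  · rw [hT]
    intro t ht v
    have h1 : N (φ t v) = N v := by
      apply Subtype.ext
      change normT φ T (φ t v) = normT φ T v
      rw [normT_apply, normT_apply]
      refine Fintype.prod_equiv (Equiv.mulRight (⟨t, ht⟩ : T)) _ _ ?_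
      intro s
      change φ s (φ t v) = φ ((s * ⟨t, ht⟩ : T) : H) v
      rw [← MulAut.mul_apply, ← map_mul]
      rfl
    change (μ (N (φ t v))) ^ m = (μ (N v)) ^ m
    rw [h1]
  · ext v
    congr 1
    change (μ (N (v : V))) ^ m = μ v
    have h1 : N (v : V) = v ^ Nat.card T := by
      apply Subtype.ext
      change normT φ T (v : V) = ((v ^ Nat.card T : fixV φ τ) : V)
      rw [normT_of_fixed T (v : V) ((mem_fixV_iff hT _).mp v.2)]
      rfl
    have h2 : (v ^ Nat.card T) ^ m = v := by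
      apply Subtype.ext
      have := (powCoprime hc).left_inv (v : V)
      exact this
    rw [h1, ← map_zpow, h2]

theorem sum_dual_fixV (hV : ¬ ℓ ∣ Nat.card V) {Z : Subgroup H} {τ : Finset (Subgroup H)}
    (hτ : IsCh ℓ Z τ) {M : Type*} [AddCommMonoid M] (F : (fixV φ τ →* ℂˣ) → M)
    [DecidablePred fun lam : V →* ℂˣ => ∀ D ∈ τ, D ≤ stab φ lam] :
    ∑ μ : fixV φ τ →* ℂˣ, F μ = ∑ lam : V →* ℂˣ with ∀ D ∈ τ, D ≤ stab φ lam,
      F (lam.comp (fixV φ τ).subtype) := by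
  symm
  apply Finset.sum_bij (fun lam _ => lam.comp (fixV φ τ).subtype)
  · intro lam _
    exact Finset.mem_univ _
  · intro lam hlam lam' hlam' h
    apply lin_ext_fixV hV hτ (Finset.mem_filter.mp hlam).2 (Finset.mem_filter.mp hlam').2
    intro v hv
    exact congrArg (fun f : fixV φ τ →* ℂˣ => f ⟨v, hv⟩) h
  · intro μ _
    obtain ⟨lam, h1, h2⟩ := exists_lin_ext_fixV hV hτ μ
    exact ⟨lam, Finset.mem_filter.mpr ⟨Finset.mem_univ _, h1⟩, h2⟩
  · intro _ _
    rfl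

theorem mem_stab_res (hV : ¬ ℓ ∣ Nat.card V) {Z : Subgroup H} {τ : Finset (Subgroup H)}
    (hτ : IsCh ℓ Z τ) {lam : V →* ℂˣ} (h : ∀ D ∈ τ, D ≤ stab φ lam) (k : stb τ) :
    k ∈ stab (resAct φ (stb τ) (fixV φ τ) (stb_fixV τ)) (lam.comp (fixV φ τ).subtype) ↔
      (k : H) ∈ stab φ lam := by
  constructor
  · intro hk
    have h1 : lam.comp (φ (k : H)).toMonoidHom = lam := by
      apply lin_ext_fixV hV hτ _ h
      · intro v hv
        exact hk ⟨v, hv⟩
      · intro D hD d hd v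
        change lam (φ (k : H) (φ d v)) = lam (φ (k : H) v)
        have h2 : (k : H) * d * (k : H)⁻¹ ∈ D := (mem_stb'.mp k.2 D hD d).mp hd
        have h3 : φ (k : H) (φ d v) = φ ((k : H) * d * (k : H)⁻¹) (φ (k : H) v) := by
          rw [← MulAut.mul_apply, ← MulAut.mul_apply, ← map_mul, ← map_mul]
          have : (k : H) * d * (k : H)⁻¹ * k = k * d := by group
          rw [this]
        rw [h3]
        exact h D hD h2 _
    intro v
    exact congrArg (fun f : V →* ℂˣ => f v) h1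
  · intro hk v
    exact hk v

/-- The inertia group in the chain stabilizer. -/
def stabEquiv (hV : ¬ ℓ ∣ Nat.card V) {Z : Subgroup H} {τ : Finset (Subgroup H)}
    (hτ : IsCh ℓ Z τ) {lam : V →* ℂˣ} (h : ∀ D ∈ τ, D ≤ stab φ lam) :
    stab (resAct φ (stb τ) (fixV φ τ) (stb_fixV τ)) (lam.comp (fixV φ τ).subtype) ≃*
      (stb τ ⊓ stab φ lam : Subgroup H) where
  toFun k := ⟨((k : stb τ) : H), ⟨(k : stb τ).2, (mem_stab_res hV hτ h k.1).mp k.2⟩⟩
  invFun k := ⟨⟨(k : H), k.2.1⟩, (mem_stab_res hV hτ h ⟨(k : H), k.2.1⟩).mpr k.2.2⟩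
  left_inv k := rfl
  right_inv k := rfl
  map_mul' a b := rfl

theorem stabEquiv_coe (hV : ¬ ℓ ∣ Nat.card V) {Z : Subgroup H} {τ : Finset (Subgroup H)}
    (hτ : IsCh ℓ Z τ) {lam : V →* ℂˣ} (h : ∀ D ∈ τ, D ≤ stab φ lam)
    (k : stab (resAct φ (stb τ) (fixV φ τ) (stb_fixV τ)) (lam.comp (fixV φ τ).subtype)) :
    ((stabEquiv hV hτ h k : (stb τ ⊓ stab φ lam : Subgroup H)) : H) = ((k : stb τ) : H) := rfl

end DualFix

end Pool.Agent.Lib_helper13


end

section

set_option linter.unusedSectionVars false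

/-! Induced central functions, defects, and counts of irreducible characters. -/

namespace Pool.Agent.Lib_helper13

open Representation

open Classical in
/-- The indicator function of conjugacy. -/
noncomputable def conjInd {G : Type*} [Group G] (x g : G) : ℂ := if IsConj x g then 1 else 0

theorem conjInd_congr {G G' : Type*} [Group G] [Group G'] {x g : G} {x' g' : G'}
    (h : IsConj x g ↔ IsConj x' g') : conjInd x g = conjInd x' g' := by
  classical
  rw [conjInd, conjInd]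
  exact if_congr h rfl rfl

theorem conjInd_left {G : Type*} [Group G] {x x' : G} (h : IsConj x x') (g : G) :
    conjInd x g = conjInd x' g :=
  conjInd_congr ⟨fun h1 => h.symm.trans h1, fun h1 => h.trans h1⟩

theorem conjInd_right {G : Type*} [Group G] {g g' : G} (h : IsConj g g') (x : G) :
    conjInd x g = conjInd x g' :=
  conjInd_congr ⟨fun h1 => h1.trans h, fun h1 => h1.trans h.symm⟩

theorem conjInd_conj {G : Type*} [Group G] (a x g : G) :
    conjInd (a * x * a⁻¹) g = conjInd x g :=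
  (conjInd_left (isConj_iff.mpr ⟨a, rfl⟩) g).symm

theorem isIntegral_conjInd {G : Type*} [Group G] (x g : G) : IsIntegral ℤ (conjInd x g) := by
  classical
  rw [conjInd]
  split_ifs
  · exact isIntegral_one
  · exact isIntegral_zero

section Cen

variable {Y Y' G : Type*} [Group Y] [Fintype Y] [Group Y'] [Fintype Y'] [Group G]

/-- Transport of weights along an isomorphism. -/
theorem wt_comp_equiv (e : Y ≃* Y') (ψ f : Y' → ℂ) :
    wt (fun y => ψ (e y)) (fun y => f (e y)) = wt ψ f := by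
  rw [wt, wt, map_one]
  congr 1
  exact Fintype.sum_equiv e.toEquiv _ _ (fun y => rfl)

/-- `χ` has `ℓ`-defect `d`: the `ℓ`-part of `|Y|/χ(1)` is `ℓ ^ d`. -/
def HasDefect (ℓ : ℕ) (χ : Y → ℂ) (d : ℕ) : Prop :=
  ∃ n : ℕ, χ 1 = n ∧ padicValNat ℓ (Nat.card Y) = d + padicValNat ℓ n

theorem hasDefect_comp_equiv (e : Y ≃* Y') {ℓ d : ℕ} {ψ : Y' → ℂ} :
    HasDefect ℓ (fun y => ψ (e y)) d ↔ HasDefect ℓ ψ d := by
  unfold HasDefect
  simp only [map_one]
  rw [Nat.card_congr e.toEquiv]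

/-- Transport of counts of irreducible characters along an isomorphism. -/
theorem card_irr_equiv (e : Y ≃* Y') (P : (Y → ℂ) → Prop) (P' : (Y' → ℂ) → Prop)
    (h : ∀ ψ : Y' → ℂ, IsIrr ψ → (P (fun y => ψ (e y)) ↔ P' ψ)) :
    Nat.card {ψ : Y → ℂ // IsIrr ψ ∧ P ψ} = Nat.card {ψ : Y' → ℂ // IsIrr ψ ∧ P' ψ} := by
  refine Nat.card_congr ⟨fun ψ => ⟨fun y => ψ.1 (e.symm y), ?_, ?_⟩,
    fun ψ => ⟨fun y => ψ.1 (e y), ?_, ?_⟩, ?_, ?_⟩
  · exact ψ.2.1.comp_mulEquiv e.symm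
  · refine (h (fun y => ψ.1 (e.symm y)) (ψ.2.1.comp_mulEquiv e.symm)).mp ?_
    have : (fun y => (fun y => ψ.1 (e.symm y)) (e y)) = ψ.1 := by
      ext y
      simp
    rw [this]
    exact ψ.2.2
  · exact ψ.2.1.comp_mulEquiv e
  · exact (h ψ.1 ψ.2.1).mpr ψ.2.2
  · intro ψ
    apply Subtype.ext
    ext y
    simp
  · intro ψ
    apply Subtype.ext
    ext y
    simp

variable (𝔐 : Ideal (integralClosure ℤ ℂ))

/-- The central function of `θ`, induced along `i`, reduced modulo `𝔐`. -/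
noncomputable def cen (i : Y →* G) (θ : Y → ℂ) (g : G) : (integralClosure ℤ ℂ) ⧸ 𝔐 :=
  red 𝔐 (wt θ (fun y => conjInd (i y) g))

theorem cen_comp_equiv (e : Y ≃* Y') (i : Y' →* G) (θ : Y' → ℂ) :
    cen 𝔐 (i.comp e.toMonoidHom) (fun y => θ (e y)) = cen 𝔐 i θ := by
  ext g
  rw [cen, cen, ← wt_comp_equiv e]
  rfl

theorem cen_conj {i i' : Y →* G} (h : ∀ y, IsConj (i y) (i' y)) (θ : Y → ℂ) :
    cen 𝔐 i θ = cen 𝔐 i' θ := by
  ext g
  rw [cen, cen]
  congr 2
  ext y
  exact conjInd_left (h y) g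

/-- The number of irreducible characters of `Y` of defect `d` whose induced central function
is `ω`. -/
noncomputable def cnt (ℓ d : ℕ) (i : Y →* G) (ω : G → (integralClosure ℤ ℂ) ⧸ 𝔐) : ℕ :=
  Nat.card {θ : Y → ℂ // IsIrr θ ∧ (HasDefect ℓ θ d ∧ ∀ g, cen 𝔐 i θ g = ω g)}

theorem cnt_comp_equiv (ℓ d : ℕ) (e : Y ≃* Y') (i : Y' →* G)
    (ω : G → (integralClosure ℤ ℂ) ⧸ 𝔐) :
    cnt 𝔐 ℓ d (i.comp e.toMonoidHom) ω = cnt 𝔐 ℓ d i ω := by
  apply card_irr_equiv e
  intro ψ _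
  rw [hasDefect_comp_equiv, cen_comp_equiv]

theorem cnt_conj (ℓ d : ℕ) {i i' : Y →* G} (h : ∀ y, IsConj (i y) (i' y))
    (ω : G → (integralClosure ℤ ℂ) ⧸ 𝔐) : cnt 𝔐 ℓ d i ω = cnt 𝔐 ℓ d i' ω := by
  rw [cnt, cnt, ]
  simp only [cen_conj 𝔐 h]

theorem cen_isConj (i : Y →* G) (θ : Y → ℂ) {g g' : G} (h : IsConj g g') :
    cen 𝔐 i θ g = cen 𝔐 i θ g' := by
  rw [cen, cen]
  congr 2
  ext y
  exact conjInd_right h _

end Cen

section Ind

variable {A K : Type*} [CommGroup A] [Fintype A] [Group K] [Fintype K] {φ : K →* MulAut A}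
  (lam : A →* ℂˣ)

theorem indChar_one (ψ : stab φ lam → ℂ) :
    indChar φ lam ψ 1 = (Nat.card K : ℂ) / Nat.card (stab φ lam) * ψ 1 := by
  rw [indChar]
  have h : ∀ t : K, ((lam (φ t⁻¹ (1 : A ⋊[φ] K).left) : ℂˣ) : ℂ) *
      ext0 ψ (t⁻¹ * (1 : A ⋊[φ] K).right * t) = ψ 1 := by
    intro t
    have : t⁻¹ * (1 : A ⋊[φ] K).right * t = 1 := by simp
    rw [this, ext0_of_mem ψ (stab φ lam).one_mem]
    simp only [SemidirectProduct.one_left, map_one, Units.val_one, one_mul]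
    rfl
  simp only [h]
  rw [Finset.sum_const, Finset.card_univ, nsmul_eq_mul, Nat.card_eq_fintype_card (α := K)]
  ring

theorem wt_indChar (ψ : stab φ lam → ℂ) (f : A ⋊[φ] K → ℂ)
    (hf : ∀ g x, f (g * x * g⁻¹) = f x) :
    wt (indChar φ lam ψ) f =
      wt ψ (fun k => ∑ a : A, f ⟨a, (k : K)⟩ * ((lam a : ℂˣ) : ℂ)) := by
  classical
  have hS : (Nat.card (stab φ lam) : ℂ) ≠ 0 := natCard_ne_zero
  have hK : (Nat.card K : ℂ) ≠ 0 := natCard_ne_zero
  rw [wt, wt, indChar_one]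
  have h1 : ∀ t : K, ∑ x : A ⋊[φ] K, f x *
      (((lam (φ t⁻¹ x.left) : ℂˣ) : ℂ) * ext0 ψ (t⁻¹ * x.right * t)) =
      ∑ x : A ⋊[φ] K, f x * (((lam x.left : ℂˣ) : ℂ) * ext0 ψ (x.right)) := by
    intro t
    refine Fintype.sum_equiv (MulAut.conj (SemidirectProduct.inr t⁻¹ : A ⋊[φ] K)).toEquiv _ _ ?_
    intro x
    have h2 : (MulAut.conj (SemidirectProduct.inr t⁻¹ : A ⋊[φ] K)).toEquiv x =
      SemidirectProduct.inr t⁻¹ * x * (SemidirectProduct.inr t⁻¹)⁻¹ := rfl
    rw [h2, hf]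
    congr 1
    obtain ⟨b, l⟩ := x
    rw [conj_inr]
    simp
  have h2 : ∑ x : A ⋊[φ] K, f x * indChar φ lam ψ x =
      (Nat.card K : ℂ) / Nat.card (stab φ lam) *
        ∑ x : A ⋊[φ] K, f x * (((lam x.left : ℂˣ) : ℂ) * ext0 ψ (x.right)) := by
    have h3 : ∀ x : A ⋊[φ] K, f x * indChar φ lam ψ x = (∑ t : K, f x *
        (((lam (φ t⁻¹ x.left) : ℂˣ) : ℂ) * ext0 ψ (t⁻¹ * x.right * t))) /
          Nat.card (stab φ lam) := by
      intro x
      rw [indChar, ← Finset.mul_sum, mul_div_assoc]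
    simp only [h3]
    rw [← Finset.sum_div, Finset.sum_comm]
    simp only [h1]
    rw [Finset.sum_const, Finset.card_univ, nsmul_eq_mul, Nat.card_eq_fintype_card (α := K)]
    ring
  have h3 : ∑ x : A ⋊[φ] K, f x * (((lam x.left : ℂˣ) : ℂ) * ext0 ψ (x.right)) =
      ∑ k : stab φ lam, (∑ a : A, f ⟨a, (k : K)⟩ * ((lam a : ℂˣ) : ℂ)) * ψ k := by
    rw [sum_sdp]
    have h4 : ∀ k : K, ∑ a : A, f (⟨a, k⟩ : A ⋊[φ] K) *
        (((lam (⟨a, k⟩ : A ⋊[φ] K).left : ℂˣ) : ℂ) * ext0 ψ (⟨a, k⟩ : A ⋊[φ] K).right) =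
        if h : k ∈ stab φ lam then (∑ a : A, f ⟨a, k⟩ * ((lam a : ℂˣ) : ℂ)) * ψ ⟨k, h⟩
          else 0 := by
      intro k
      split_ifs with hk
      · rw [Finset.sum_mul]
        refine Finset.sum_congr rfl fun a _ => ?_
        simp only
        rw [ext0_of_mem ψ hk]
        ring
      · apply Finset.sum_eq_zero
        intro a _
        simp only
        rw [ext0_of_not_mem ψ hk]
        ring
    simp only [h4]
    rw [← Finset.sum_subset (Finset.subset_univ (Finset.univ.filter (fun k => k ∈ stab φ lam)))]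
    · rw [← Finset.sum_subtype_eq_sum_filter, Finset.subtype_univ]
      refine Fintype.sum_equiv (Equiv.refl _) _ _ ?_
      rintro ⟨k, hk⟩
      simp only [Equiv.refl_apply]
      rw [dif_pos hk]
    · intro k _ hk
      rw [dif_neg]
      intro h
      exact hk (Finset.mem_filter.mpr ⟨Finset.mem_univ _, h⟩)
  rw [h2, h3]
  by_cases hψ : ψ 1 = 0
  · rw [hψ]; simp
  · field_simp

theorem hasDefect_indChar {ℓ : ℕ} [hℓ : Fact ℓ.Prime] (hA : ¬ ℓ ∣ Nat.card A)
    {ψ : stab φ lam → ℂ} (hψ : IsIrr ψ) (d : ℕ) :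
    HasDefect ℓ (indChar φ lam ψ) d ↔ HasDefect ℓ ψ d := by
  obtain ⟨n, hn, hn'⟩ := hψ.exists_degree
  have hS : (Nat.card (stab φ lam) : ℂ) ≠ 0 := natCard_ne_zero
  have hS0 : Nat.card (stab φ lam) ≠ 0 := Nat.card_pos.ne'
  have hi0 : (stab φ lam).index ≠ 0 := Subgroup.index_ne_zero_of_finite
  have hcard : Nat.card (stab φ lam) * (stab φ lam).index = Nat.card K :=
    Subgroup.card_mul_index _
  have h1 : indChar φ lam ψ 1 = (((stab φ lam).index * n : ℕ) : ℂ) := by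
    rw [indChar_one, hn', ← hcard]
    push_cast
    field_simp
  have hv1 : padicValNat ℓ (Nat.card (A ⋊[φ] K)) =
      padicValNat ℓ (Nat.card (stab φ lam)) + padicValNat ℓ (stab φ lam).index := by
    rw [natCard_sdp, padicValNat.mul Nat.card_pos.ne' Nat.card_pos.ne',
      padicValNat.eq_zero_of_not_dvd hA, zero_add, ← hcard, padicValNat.mul hS0 hi0]
  have hv2 : padicValNat ℓ ((stab φ lam).index * n) =
      padicValNat ℓ (stab φ lam).index + padicValNat ℓ n := padicValNat.mul hi0 hn.ne'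
  constructor
  · rintro ⟨m, hm, hm'⟩
    rw [h1] at hm
    have hm2 : (stab φ lam).index * n = m := by exact_mod_cast hm
    refine ⟨n, hn', ?_⟩
    rw [← hm2, hv1, hv2] at hm'
    omega
  · rintro ⟨m, hm, hm'⟩
    rw [hn'] at hm
    have hm2 : n = m := by exact_mod_cast hm
    refine ⟨(stab φ lam).index * n, h1, ?_⟩
    rw [hv1, hv2, hm2]
    omega

end Ind

end Pool.Agent.Lib_helper13


end

section

set_option linter.unusedSectionVars false

/-! Passing from fixed points to the whole of `V` in the induced central functions. -/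

namespace Pool.Agent.Lib_helper13

open Representation

section ChainInd

variable {H : Type*} [Group H] [Fintype H]
variable (𝔐 : Ideal (integralClosure ℤ ℂ)) [h𝔐 : 𝔐.IsPrime]
variable {S : Subgroup H} [Fintype S]

theorem multOn_chain {ℓ : ℕ} [Fact ℓ.Prime] (hℓ : (ℓ : integralClosure ℤ ℂ) ∈ 𝔐)
    {ψ : S → ℂ} (hψ : IsIrr ψ) (L Z : Subgroup H) : ∀ (n : ℕ) (τ : Finset (Subgroup H)),
    τ.card = n → IsCh ℓ Z τ → (∀ D ∈ τ, D ≤ L) → S ≤ L ⊓ stb τ → MultOn 𝔐 ψ (L ⊓ stb τ) →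
      MultOn 𝔐 ψ L := by
  classical
  intro n
  induction n with
  | zero =>
    intro τ hn _ _ _ hm
    rw [Finset.card_eq_zero] at hn
    subst hn
    rwa [stb_empty, inf_top_eq] at hm
  | succ n ih =>
    intro τ hn hτ hL hS hm
    have hne : τ.Nonempty := by
      rw [← Finset.card_pos]; omega
    obtain ⟨D₁, hD₁, hbot⟩ := hτ.exists_bot hne
    have hle : L ⊓ stb τ ≤ L ⊓ stb (τ.erase D₁) := by
      apply inf_le_inf_left
      intro g hg
      rw [mem_stb'] at hg ⊢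
      intro D hD
      exact hg D (Finset.mem_of_mem_erase hD)
    apply ih (τ.erase D₁)
    · rw [Finset.card_erase_of_mem hD₁, hn, Nat.add_sub_cancel]
    · exact hτ.subset (Finset.erase_subset _ _)
    · intro D hD
      exact hL D (Finset.mem_of_mem_erase hD)
    · exact hS.trans hle
    · apply multOn_step 𝔐 hℓ hψ hS hle hm D₁ _ (hτ.1 D₁ hD₁).1
      · intro g hg q hq
        exact (mem_stb'.mp hg.2 D₁ hD₁ q).mp hq
      · intro y hy hyc
        refine ⟨hy.1, mem_stb'.mpr ?_⟩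
        intro D hD
        by_cases h : D = D₁
        · subst h
          have hfix : ∀ q ∈ D, y * q * y⁻¹ = q := by
            intro q hq
            rw [← hyc q hq]
            group
          intro x
          constructor
          · intro hx
            rw [hfix x hx]
            exact hx
          · intro hx
            have h1 := hfix _ hx
            have h2 : y * x * y⁻¹ = x := by
              have h3 : y * (y * x * y⁻¹) * y⁻¹ = y * x * y⁻¹ := h1
              exact mul_left_cancel (mul_right_cancel h3)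
            rw [h2] at hx
            exact hx
        · exact mem_stb'.mp hy.2 D (Finset.mem_erase.mpr ⟨h, hD⟩)
      · intro x hx
        refine ⟨hL D₁ hD₁ hx, mem_stb'.mpr ?_⟩
        intro D hD z
        have hxD : x ∈ D := hbot D hD hx
        constructor
        · intro hz
          exact mul_mem (mul_mem hxD hz) (inv_mem hxD)
        · intro hz
          have h4 : z = x⁻¹ * (x * z * x⁻¹) * x := by group
          rw [h4]
          exact mul_mem (mul_mem (inv_mem hxD) hz) hxD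

end ChainInd

theorem isIntegral_linChar {V : Type*} [CommGroup V] [Finite V] (lam : V →* ℂˣ) (v : V) :
    IsIntegral ℤ ((lam v : ℂˣ) : ℂ) := by
  apply IsIntegral.of_pow (n := Nat.card V) Nat.card_pos
  rw [← Units.val_pow_eq_pow_val, ← map_pow, pow_card_eq_one', map_one, Units.val_one]
  exact isIntegral_one

section ClaimC

variable {V H : Type*} [CommGroup V] [Fintype V] [Group H] [Fintype H] {φ : H →* MulAut V}
variable (𝔐 : Ideal (integralClosure ℤ ℂ)) [h𝔐 : 𝔐.IsPrime]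

theorem claimC {ℓ : ℕ} [Fact ℓ.Prime] (hℓ : (ℓ : integralClosure ℤ ℂ) ∈ 𝔐) (lam : V →* ℂˣ)
    {Z : Subgroup H} {τ : Finset (Subgroup H)} (hτ : IsCh ℓ Z τ)
    (hlam : ∀ D ∈ τ, D ≤ stab φ lam) [Fintype (stb τ ⊓ stab φ lam : Subgroup H)]
    [Fintype (fixV φ τ)]
    {ψ : (stb τ ⊓ stab φ lam : Subgroup H) → ℂ} (hψ : IsIrr ψ) (f : V ⋊[φ] H → ℂ)
    (hf : ∀ g x, f (g * x * g⁻¹) = f x) (hi : ∀ x, IsIntegral ℤ (f x)) :
    red 𝔐 (wt ψ (fun k => ∑ a : fixV φ τ, f ⟨(a : V), (k : H)⟩ * ((lam (a : V) : ℂˣ) : ℂ))) =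
      red 𝔐 (wt ψ (fun k => ∑ v : V, f ⟨v, (k : H)⟩ * ((lam v : ℂˣ) : ℂ))) := by
  classical
  rcases τ.eq_empty_or_nonempty with rfl | hne
  · congr 2
    ext k
    refine Fintype.sum_bijective (fun a : fixV φ ∅ => (a : V)) ⟨Subtype.val_injective, ?_⟩ _ _
      (fun a => rfl)
    intro v
    refine ⟨⟨v, ?_⟩, rfl⟩
    intro D hD
    simp at hD
  obtain ⟨T, hT, hT'⟩ := hτ.exists_top hne
  have hTp : IsPGroup ℓ T := (hτ.1 T hT).1
  have hTlam : T ≤ stab φ lam := hlam T hT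
  have hTY : T ≤ stab φ lam ⊓ Subgroup.normalizer (T : Set H) :=
    le_inf hTlam Subgroup.le_normalizer
  -- the group on which the averaging argument takes place
  have hY : (stab φ lam ⊓ Subgroup.normalizer (T : Set H)) ⊓ stb τ = stb τ ⊓ stab φ lam := by
    apply le_antisymm
    · intro x hx
      exact ⟨hx.2, hx.1.1⟩
    · intro x hx
      refine ⟨⟨hx.2, ?_⟩, hx.1⟩
      have := mem_stb'.mp hx.1 T hT
      exact Subgroup.mem_normalizer_iff.mpr this
  have hm : MultOn 𝔐 ψ (stab φ lam ⊓ Subgroup.normalizer (T : Set H)) := by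
    apply multOn_chain 𝔐 hℓ hψ _ Z τ.card τ rfl hτ
    · intro D hD
      exact (hT' D hD).trans hTY
    · rw [hY]
    · rw [hY]
      exact multOn_self 𝔐 hψ
  have hS : (stb τ ⊓ stab φ lam : Subgroup H) ≤
      stab φ lam ⊓ Subgroup.normalizer (T : Set H) := by
    rw [← hY]
    exact inf_le_left
  have hfix : ∀ v, v ∈ fixV φ τ ↔ ∀ t ∈ T, φ t v = v := by
    intro v
    constructor
    · intro h t ht
      exact h T hT t ht
    · intro h D hD d hd
      exact h d (hT' D hD hd)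
  have hconj : ∀ h ∈ stab φ lam, ∀ x v, f ⟨φ h v, h * x * h⁻¹⟩ * ((lam (φ h v) : ℂˣ) : ℂ) =
      f ⟨v, x⟩ * ((lam v : ℂˣ) : ℂ) := by
    intro h hh x v
    rw [← conj_inr, hf, hh v]
  refine red_wt_eq' 𝔐 hℓ hψ hS hm T hTY hTp ?_
    (fun k => ∑ a : fixV φ τ, f ⟨(a : V), k⟩ * ((lam (a : V) : ℂˣ) : ℂ))
    (fun k => ∑ v : V, f ⟨v, k⟩ * ((lam v : ℂˣ) : ℂ)) ?_ ?_ ?_ ?_ ?_
  · intro g hg q hq
    exact (Subgroup.mem_normalizer_iff.mp hg.2 q).mp hq
  · intro h hh x _
    have hpres : ∀ h ∈ stab φ lam ⊓ Subgroup.normalizer (T : Set H), ∀ v ∈ fixV φ τ,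
        φ h v ∈ fixV φ τ := by
      intro h hh v hv
      rw [hfix] at hv ⊢
      intro t ht
      have h1 : h⁻¹ * t * h ∈ T := by
        have := (Subgroup.mem_normalizer_iff.mp (inv_mem hh.2) t).mp ht
        simpa using this
      have h3 : φ t (φ h v) = φ h (φ (h⁻¹ * t * h) v) := by
        rw [← MulAut.mul_apply, ← MulAut.mul_apply, ← map_mul, ← map_mul]
        have : h * (h⁻¹ * t * h) = t * h := by group
        rw [this]
      rw [h3, hv _ h1]
    symm
    refine Fintype.sum_bijective (fun a : fixV φ τ => (⟨φ h a, hpres h hh a a.2⟩ : fixV φ τ))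
      ⟨?_, ?_⟩ _ _ ?_
    · intro a b hab
      apply Subtype.ext
      exact (φ h).injective (congrArg Subtype.val hab)
    · intro a
      refine ⟨⟨φ h⁻¹ a, hpres h⁻¹ (inv_mem hh) a a.2⟩, ?_⟩
      apply Subtype.ext
      change φ h (φ h⁻¹ a) = a
      rw [← MulAut.mul_apply, ← map_mul, mul_inv_cancel, map_one, MulAut.one_apply]
    · intro a
      exact (hconj h hh.1 x a).symm
  · intro y _
    exact isIntegral_sum _ _ fun a _ => (hi _).mul (isIntegral_linChar lam _)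
  · intro h hh x _
    symm
    refine Fintype.sum_equiv (φ h).toEquiv _ _ ?_
    intro v
    exact (hconj h hh.1 x v).symm
  · intro y _
    exact isIntegral_sum _ _ fun a _ => (hi _).mul (isIntegral_linChar lam _)
  · intro y _ hyc
    rw [red_sum, red_sum]
    · let _ : MulAction T V :=
        { smul := fun t v => φ t v
          one_smul := fun v => by
            change φ ((1 : T) : H) v = v
            rw [OneMemClass.coe_one, map_one, MulAut.one_apply]
          mul_smul := fun a b v => by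
            change φ ((a * b : T) : H) v = φ a (φ b v)
            rw [Subgroup.coe_mul, map_mul, MulAut.mul_apply] }
      rw [sum_eq_sum_fixed hTp (nsmul_quot_eq_zero 𝔐 hℓ)
        (fun v : V => red 𝔐 (f ⟨v, y⟩ * ((lam v : ℂˣ) : ℂ)))]
      · rw [← Finset.sum_subtype_eq_sum_filter, Finset.subtype_univ]
        refine Fintype.sum_equiv (Equiv.subtypeEquivRight ?_) _ _ ?_
        · intro v
          rw [hfix]
          constructor
          · intro h q
            exact h q q.2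
          · intro h t ht
            exact h ⟨t, ht⟩
        · intro a
          rfl
      · intro t v
        change red 𝔐 (f ⟨φ t v, y⟩ * ((lam (φ t v) : ℂˣ) : ℂ)) = _
        congr 1
        have h1 : (t : H) * y * (t : H)⁻¹ = y := by
          rw [hyc t t.2]
          group
        have h2 := hconj t (hTlam t.2) y v
        rw [h1] at h2
        exact h2
    · intro v _
      exact (hi _).mul (isIntegral_linChar lam _)
    · intro v _
      exact (hi _).mul (isIntegral_linChar lam _)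

end ClaimC

end Pool.Agent.Lib_helper13


end

section

set_option linter.unusedSectionVars false

/-! The chain sum of `V ⋊ H` in terms of the stabilizers in `H` of characters of `V`. -/

namespace Pool.Agent.Lib_helper13

open Representation

noncomputable instance (priority := 2000) subFintype {G : Type*} [Group G] [Finite G]
    (S : Subgroup G) : Fintype S := Fintype.ofFinite S

section Counts

variable {Y Y' G : Type*} [Group Y] [Fintype Y] [Group Y'] [Fintype Y']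
variable (𝔐 : Ideal (integralClosure ℤ ℂ))

/-- Irreducible characters of defect `d` with prescribed reduced sums. -/
noncomputable def cntF (ℓ d : ℕ) (F : G → Y → ℂ) (ω : G → (integralClosure ℤ ℂ) ⧸ 𝔐) : ℕ :=
  Nat.card {ψ : Y → ℂ // IsIrr ψ ∧ (HasDefect ℓ ψ d ∧ ∀ g, red 𝔐 (wt ψ (F g)) = ω g)}

theorem cntF_equiv (ℓ d : ℕ) (e : Y ≃* Y') (F : G → Y → ℂ) (F' : G → Y' → ℂ)
    (h : ∀ g y, F g y = F' g (e y)) (ω : G → (integralClosure ℤ ℂ) ⧸ 𝔐) :
    cntF 𝔐 ℓ d F ω = cntF 𝔐 ℓ d F' ω := by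
  apply card_irr_equiv e
  intro ψ _
  rw [hasDefect_comp_equiv]
  have : ∀ g, F g = fun y => F' g (e y) := fun g => funext fun y => h g y
  simp only [this, wt_comp_equiv]

end Counts

section KK

variable {G : Type*} [Group G] [Fintype G]
variable (𝔐 : Ideal (integralClosure ℤ ℂ))

/-- The chain sum (weighted over all chains instead of over orbits). -/
noncomputable def KK (ℓ d : ℕ) (Z : Subgroup G) (ω : G → (integralClosure ℤ ℂ) ⧸ 𝔐) : ℚ :=
  ∑ σ ∈ Ch ℓ Z, (-1 : ℚ) ^ σ.card * (Nat.card (stb σ) * cnt 𝔐 ℓ d (stb σ).subtype ω)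

theorem card_map_conj (S : Subgroup G) (g : G) :
    Nat.card (S.map (MulAut.conj g).toMonoidHom) = Nat.card S :=
  (Nat.card_congr (S.equivMapOfInjective _ (MulAut.conj g).injective).toEquiv).symm

theorem cnt_map_conj (ℓ d : ℕ) (S : Subgroup G) (g : G)
    (ω : G → (integralClosure ℤ ℂ) ⧸ 𝔐) :
    cnt 𝔐 ℓ d (S.map (MulAut.conj g).toMonoidHom).subtype ω = cnt 𝔐 ℓ d S.subtype ω := by
  rw [← cnt_comp_equiv 𝔐 ℓ d (S.equivMapOfInjective _ (MulAut.conj g).injective)]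
  apply cnt_conj
  intro y
  apply IsConj.symm
  exact isConj_iff.mpr ⟨g, rfl⟩

end KK

section MainLemma

variable {V H : Type*} [CommGroup V] [Fintype V] [Group H] [Fintype H] {φ : H →* MulAut V}
variable (𝔐 : Ideal (integralClosure ℤ ℂ)) [h𝔐 : 𝔐.IsPrime]

/-- The function on `H` attached to a character of `V` and an element of `V ⋊ H`. -/
noncomputable def Fl (φ : H →* MulAut V) (lam : V →* ℂˣ) (g : V ⋊[φ] H) (k : H) : ℂ :=
  ∑ v : V, conjInd (⟨v, k⟩ : V ⋊[φ] H) g * ((lam v : ℂˣ) : ℂ)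

theorem cnt_little {ℓ : ℕ} [Fact ℓ.Prime] (hℓ : (ℓ : integralClosure ℤ ℂ) ∈ 𝔐) (d : ℕ)
    (hV : ¬ ℓ ∣ Nat.card V) {Z : Subgroup H} {τ : Finset (Subgroup H)} (hτ : IsCh ℓ Z τ)
    (ω : V ⋊[φ] H → (integralClosure ℤ ℂ) ⧸ 𝔐) {lam : V →* ℂˣ}
    (h : ∀ D ∈ τ, D ≤ stab φ lam) :
    Nat.card {ψ : stab (resAct φ (stb τ) (fixV φ τ) (stb_fixV τ))
        (lam.comp (fixV φ τ).subtype) → ℂ // IsIrr ψ ∧
          (HasDefect ℓ (indChar _ (lam.comp (fixV φ τ).subtype) ψ) d ∧
            ∀ g, cen 𝔐 ((stb (mapCh (SemidirectProduct.inr : H →* V ⋊[φ] H) τ)).subtype.comp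
              (stbEquiv φ τ).toMonoidHom) (indChar _ (lam.comp (fixV φ τ).subtype) ψ) g = ω g)} =
      cntF 𝔐 ℓ d (fun g (k : (stb τ ⊓ stab φ lam : Subgroup H)) => Fl φ lam g k) ω := by
  classical
  apply card_irr_equiv (stabEquiv hV hτ h)
  intro ψ hψ
  have hψ' : IsIrr (fun y => ψ (stabEquiv hV hτ h y)) := hψ.comp_mulEquiv (stabEquiv hV hτ h)
  have hA : ¬ ℓ ∣ Nat.card (fixV φ τ) :=
    fun h1 => hV (h1.trans (Subgroup.card_subgroup_dvd_card _))
  rw [hasDefect_indChar _ hA hψ', hasDefect_comp_equiv]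
  have hcen : ∀ g, cen 𝔐 ((stb (mapCh (SemidirectProduct.inr : H →* V ⋊[φ] H) τ)).subtype.comp
      (stbEquiv φ τ).toMonoidHom) (indChar _ (lam.comp (fixV φ τ).subtype)
        (fun y => ψ (stabEquiv hV hτ h y))) g =
      red 𝔐 (wt ψ (fun k : (stb τ ⊓ stab φ lam : Subgroup H) => Fl φ lam g k)) := by
    intro g
    rw [cen, wt_indChar]
    · have h1 := claimC 𝔐 hℓ lam hτ h hψ (fun x : V ⋊[φ] H => conjInd x g)
        (fun a x => conjInd_conj a x g) (fun x => isIntegral_conjInd x g)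
      refine Eq.trans ?_ h1
      rw [← wt_comp_equiv (stabEquiv hV hτ h) ψ]
      rfl
    · intro a x
      rw [map_mul, map_mul, map_inv, conjInd_conj]
  simp only [hcen]

theorem stb_emb (v : V) (τ : Finset (Subgroup H)) :
    stb (mapCh (emb φ v) τ) = (stb (mapCh (SemidirectProduct.inr : H →* V ⋊[φ] H) τ)).map
      (MulAut.conj (SemidirectProduct.inl v : V ⋊[φ] H)).toMonoidHom := by
  rw [← stb_mapCh_equiv, mapCh_comp]
  rfl

/-- The contribution of one chain. -/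
noncomputable def term (ℓ d : ℕ) (φ : H →* MulAut V)
    (ω : V ⋊[φ] H → (integralClosure ℤ ℂ) ⧸ 𝔐) (τ : Finset (Subgroup H)) (lam : V →* ℂˣ) : ℚ :=
  (Nat.card (stb τ ⊓ stab φ lam : Subgroup H) : ℚ) *
    cntF 𝔐 ℓ d (fun g (k : (stb τ ⊓ stab φ lam : Subgroup H)) => Fl φ lam g k) ω

theorem KK_sdp_aux {ℓ : ℕ} [Fact ℓ.Prime] (hℓ : (ℓ : integralClosure ℤ ℂ) ∈ 𝔐) (d : ℕ)
    (hV : ¬ ℓ ∣ Nat.card V) {Z : Subgroup H}
    (ω : V ⋊[φ] H → (integralClosure ℤ ℂ) ⧸ 𝔐) {τ : Finset (Subgroup H)} (hτ : IsCh ℓ Z τ)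
    [DecidablePred fun lam : V →* ℂˣ => ∀ D ∈ τ, D ≤ stab φ lam] :
    (Nat.card V : ℚ) / Nat.card (fixV φ τ) * ((-1) ^ τ.card *
      (Nat.card (stb (mapCh (SemidirectProduct.inr : H →* V ⋊[φ] H) τ)) *
        cnt 𝔐 ℓ d (stb (mapCh (SemidirectProduct.inr : H →* V ⋊[φ] H) τ)).subtype ω)) =
    Nat.card V * ∑ lam : V →* ℂˣ with ∀ D ∈ τ, D ≤ stab φ lam,
      (-1) ^ τ.card * term 𝔐 ℓ d φ ω τ lam := by
  have h1 : Nat.card (stb (mapCh (SemidirectProduct.inr : H →* V ⋊[φ] H) τ)) =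
      Nat.card (fixV φ τ) * Nat.card (stb τ) := by
    rw [← Nat.card_congr (stbEquiv φ τ).toEquiv, natCard_sdp]
  have h2 : cnt 𝔐 ℓ d (stb (mapCh (SemidirectProduct.inr : H →* V ⋊[φ] H) τ)).subtype ω *
      Nat.card (stb τ) = ∑ lam : V →* ℂˣ with ∀ D ∈ τ, D ≤ stab φ lam,
        (Nat.card (stb τ ⊓ stab φ lam : Subgroup H)) *
          cntF 𝔐 ℓ d (fun g (k : (stb τ ⊓ stab φ lam : Subgroup H)) => Fl φ lam g k) ω := by
    rw [← cnt_comp_equiv 𝔐 ℓ d (stbEquiv φ τ), cnt, card_irr_sdp, sum_dual_fixV hV hτ]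
    refine Finset.sum_congr rfl fun lam hlam => ?_
    have h := (Finset.mem_filter.mp hlam).2
    rw [cnt_little 𝔐 hℓ d hV hτ ω h, Nat.card_congr (stabEquiv hV hτ h).toEquiv]
  have h3 : (cnt 𝔐 ℓ d (stb (mapCh (SemidirectProduct.inr : H →* V ⋊[φ] H) τ)).subtype ω : ℚ) *
      Nat.card (stb τ) = ∑ lam : V →* ℂˣ with ∀ D ∈ τ, D ≤ stab φ lam,
        term 𝔐 ℓ d φ ω τ lam := by
    simp only [term]
    exact_mod_cast h2
  rw [← Finset.mul_sum, ← h3, h1]
  have h4 : (Nat.card (fixV φ τ) : ℚ) ≠ 0 := by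
    have : Nat.card (fixV φ τ) ≠ 0 := Nat.card_pos.ne'
    exact_mod_cast this
  push_cast
  field_simp

theorem term_mapCh (ℓ d : ℕ) (ω : V ⋊[φ] H → (integralClosure ℤ ℂ) ⧸ 𝔐) (lam : V →* ℂˣ)
    (τ : Finset (Subgroup (stab φ lam))) :
    term 𝔐 ℓ d φ ω (mapCh (stab φ lam).subtype τ) lam =
      Nat.card (stb τ) * cntF 𝔐 ℓ d (fun g (k : stb τ) => Fl φ lam g ((k : stab φ lam) : H)) ω := by
  have h1 : (stb τ).map (stab φ lam).subtype =
      stb (mapCh (stab φ lam).subtype τ) ⊓ stab φ lam := by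
    rw [← comap_stb_mapCh (i := (stab φ lam).subtype) Subtype.val_injective τ]
    exact Subgroup.subgroupOf_map_subtype _ _
  let e : stb τ ≃* (stb (mapCh (stab φ lam).subtype τ) ⊓ stab φ lam : Subgroup H) :=
    ((stb τ).equivMapOfInjective (stab φ lam).subtype Subtype.val_injective).trans
      (MulEquiv.subgroupCongr h1)
  rw [term, Nat.card_congr e.toEquiv]
  congr 2
  symm
  apply cntF_equiv 𝔐 ℓ d e
  intro g y
  rfl

/-- The chain sum for `V ⋊ H`. -/
theorem KK_sdp {ℓ : ℕ} [Fact ℓ.Prime] (hℓ : (ℓ : integralClosure ℤ ℂ) ∈ 𝔐) (d : ℕ)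
    (hV : ¬ ℓ ∣ Nat.card V) {Z : Subgroup H} (hZ : ∀ z ∈ Z, ∀ v, φ z v = v)
    (ω : V ⋊[φ] H → (integralClosure ℤ ℂ) ⧸ 𝔐) :
    KK 𝔐 ℓ d (Z.map (SemidirectProduct.inr : H →* V ⋊[φ] H)) ω =
      (Nat.card V : ℚ) * ∑ lam : V →* ℂˣ, ∑ τ ∈ Ch ℓ (Z.subgroupOf (stab φ lam)),
        (-1 : ℚ) ^ τ.card * (Nat.card (stb τ) *
          cntF 𝔐 ℓ d (fun g (k : stb τ) => Fl φ lam g ((k : stab φ lam) : H)) ω) := by
  classical
  rw [KK, sum_Ch_sdp hV hZ]
  · have h1 : ∀ τ ∈ Ch ℓ Z, (Nat.card V : ℚ) / Nat.card (fixV φ τ) *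
        ((-1) ^ (mapCh (SemidirectProduct.inr : H →* V ⋊[φ] H) τ).card *
        (Nat.card (stb (mapCh (SemidirectProduct.inr : H →* V ⋊[φ] H) τ)) *
        cnt 𝔐 ℓ d (stb (mapCh (SemidirectProduct.inr : H →* V ⋊[φ] H) τ)).subtype ω)) =
        Nat.card V * ∑ lam : V →* ℂˣ with ∀ D ∈ τ, D ≤ stab φ lam,
          (-1) ^ τ.card * term 𝔐 ℓ d φ ω τ lam := by
      intro τ hτ
      rw [card_mapCh SemidirectProduct.inr_injective]
      exact KK_sdp_aux 𝔐 hℓ d hV ω (mem_Ch.mp hτ)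
    rw [Finset.sum_congr rfl h1, ← Finset.mul_sum]
    congr 1
    simp only [Finset.sum_filter]
    rw [Finset.sum_comm]
    refine Finset.sum_congr rfl fun lam _ => ?_
    rw [← Finset.sum_filter]
    have hZle : Z ≤ stab φ lam := by
      intro z hz v
      rw [hZ z hz]
    have h2 : (Z.subgroupOf (stab φ lam)).map (stab φ lam).subtype = Z := by
      rw [Subgroup.subgroupOf_map_subtype, inf_eq_left.mpr hZle]
    have h3 := sum_Ch_range (i := (stab φ lam).subtype) Subtype.val_injective ℓ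
      (Z.subgroupOf (stab φ lam)) (fun τ => (-1) ^ τ.card * term 𝔐 ℓ d φ ω τ lam)
    rw [h2, Subgroup.range_subtype] at h3
    rw [h3]
    refine Finset.sum_congr rfl fun τ _ => ?_
    rw [term_mapCh, card_mapCh Subtype.val_injective]
  · intro v τ
    rw [card_mapCh (emb_injective v), card_mapCh SemidirectProduct.inr_injective, stb_emb,
      card_map_conj, cnt_map_conj]

end MainLemma

end Pool.Agent.Lib_helper13


end

section

set_option linter.unusedSectionVars false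

/-! Groups for which the chain sums of positive defect vanish, and their behaviour under
semidirect products with abelian `ℓ'`-groups. -/

namespace Pool.Agent.Lib_helper13

open Representation

theorem conjInd_eq {G : Type*} [Group G] {x g : G} {P : Prop} [Decidable P]
    (h : P ↔ IsConj x g) : (if P then (1 : ℂ) else 0) = conjInd x g := by
  classical
  by_cases hP : P
  · rw [if_pos hP, conjInd, if_pos (h.mp hP)]
  · rw [if_neg hP, conjInd, if_neg (fun h' => hP (h.mpr h'))]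

section Pair

variable {Y L G : Type*} [Group Y] [Fintype Y] [Group L] [Fintype L]
variable (𝔐 : Ideal (integralClosure ℤ ℂ))

/-- Pairing of an integral class function with a central function. -/
noncomputable def pair (f : L → ℂ) (c : L → (integralClosure ℤ ℂ) ⧸ 𝔐) :
    (integralClosure ℤ ℂ) ⧸ 𝔐 :=
  ∑ᶠ C : ConjClasses L, red 𝔐 (f C.out) * c C.out

theorem red_wt_eq_pair (i : Y →* L) {ψ : Y → ℂ} (hψ : IsIrr ψ) (f : L → ℂ)
    (hf : ∀ g x, f (g * x * g⁻¹) = f x) (hi : ∀ x, IsIntegral ℤ (f x)) :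
    red 𝔐 (wt ψ (fun y => f (i y))) = pair 𝔐 f (cen 𝔐 i ψ) := by
  classical
  obtain ⟨F, hF⟩ := exists_lift_class f hf
  have h1 : (fun y => f (i y)) = fun y => F (ConjClasses.mk (i y)) := by ext y; rw [hF]
  have hind : ∀ C : ConjClasses L, (fun y : Y => if ConjClasses.mk (i y) = C then (1 : ℂ) else 0) =
      fun y => conjInd (i y) C.out := by
    intro C
    ext y
    have h2 : ConjClasses.mk C.out = C := Quotient.out_eq C
    apply conjInd_eq
    conv_lhs => rw [← h2]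
    rw [ConjClasses.mk_eq_mk_iff_isConj]
  have hint : ∀ x : L, IsIntegral ℤ (wt ψ (fun y => conjInd (i y) x)) := by
    intro x
    apply isIntegral_wt hψ
    · intro g y
      rw [map_mul, map_mul, map_inv, conjInd_conj]
    · intro y
      exact isIntegral_conjInd _ _
  rw [h1, wt_comp_classes, red_sum, pair, finsum_eq_sum_of_fintype]
  · refine Finset.sum_congr rfl fun C _ => ?_
    rw [hind, red_mul, cen]
    · have h2 : ConjClasses.mk C.out = C := Quotient.out_eq C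
      rw [← hF C.out, h2]
    · have h2 : ConjClasses.mk C.out = C := Quotient.out_eq C
      rw [← h2, hF]
      exact hi _
    · exact hint _
  · intro C _
    rw [hind]
    apply IsIntegral.mul _ (hint _)
    have h2 : ConjClasses.mk C.out = C := Quotient.out_eq C
    rw [← h2, hF]
    exact hi _

theorem finite_cen (i : Y →* L) :
    {c : L → (integralClosure ℤ ℂ) ⧸ 𝔐 | ∃ ψ : Y → ℂ, IsIrr ψ ∧ cen 𝔐 i ψ = c}.Finite := by
  have h := (finite_isIrr (H := Y)).image (fun ψ => cen 𝔐 i ψ)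
  refine h.subset ?_
  rintro c ⟨ψ, hψ, rfl⟩
  exact ⟨ψ, hψ, rfl⟩

theorem cntF_eq_sum (ℓ d : ℕ) (i : Y →* L) (F : G → L → ℂ)
    (hF : ∀ u g x, F u (g * x * g⁻¹) = F u x) (hi : ∀ u x, IsIntegral ℤ (F u x))
    (ω : G → (integralClosure ℤ ℂ) ⧸ 𝔐) (C : Finset (L → (integralClosure ℤ ℂ) ⧸ 𝔐))
    (hC : ∀ ψ : Y → ℂ, IsIrr ψ → cen 𝔐 i ψ ∈ C)
    [DecidablePred fun c : L → (integralClosure ℤ ℂ) ⧸ 𝔐 => ∀ u, pair 𝔐 (F u) c = ω u] :
    cntF 𝔐 ℓ d (fun u y => F u (i y)) ω =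
      ∑ c ∈ C with ∀ u, pair 𝔐 (F u) c = ω u, cnt 𝔐 ℓ d i c := by
  classical
  have hfin : ∀ Q : (Y → ℂ) → Prop, (Set.Finite {ψ : Y → ℂ | IsIrr ψ ∧ Q ψ}) :=
    fun Q => finite_isIrr.subset fun θ h => h.1
  have hcard : ∀ Q : (Y → ℂ) → Prop, Nat.card {ψ : Y → ℂ // IsIrr ψ ∧ Q ψ} =
      (hfin Q).toFinset.card := by
    intro Q
    have : Nat.card {ψ : Y → ℂ // IsIrr ψ ∧ Q ψ} = Nat.card (hfin Q).toFinset :=
      Nat.card_congr (Equiv.subtypeEquivRight fun θ => by simp)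
    rw [this, Nat.card_eq_fintype_card, Fintype.card_coe]
  have hcnt : ∀ c, cnt 𝔐 ℓ d i c = (hfin (fun ψ => HasDefect ℓ ψ d ∧
      ∀ g, cen 𝔐 i ψ g = c g)).toFinset.card := fun c => hcard _
  simp only [hcnt]
  rw [cntF, hcard]
  rw [Finset.card_eq_sum_card_fiberwise (f := fun ψ => cen 𝔐 i ψ)
    (t := C.filter (fun c => ∀ u, pair 𝔐 (F u) c = ω u))]
  · refine Finset.sum_congr rfl fun c hc => ?_
    congr 1
    ext ψ
    simp only [Finset.mem_filter, Set.Finite.mem_toFinset, Set.mem_ofPred_eq]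
    constructor
    · rintro ⟨⟨h1, h2, h3⟩, h4⟩
      exact ⟨h1, h2, fun g => congrFun h4 g⟩
    · rintro ⟨h1, h2, h3⟩
      have h4 : cen 𝔐 i ψ = c := funext h3
      refine ⟨⟨h1, h2, fun u => ?_⟩, h4⟩
      rw [red_wt_eq_pair 𝔐 i h1 (F u) (hF u) (hi u), h4]
      exact (Finset.mem_filter.mp hc).2 u
  · intro ψ hψ
    simp only [Set.Finite.coe_toFinset, Set.mem_ofPred_eq] at hψ
    rw [Finset.mem_coe, Finset.mem_filter]
    refine ⟨hC ψ hψ.1, fun u => ?_⟩
    rw [← red_wt_eq_pair 𝔐 i hψ.1 (F u) (hF u) (hi u)]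
    exact hψ.2.2 u

theorem exists_cen_set (ℓ : ℕ) (Z : Subgroup L) : ∃ C : Finset (L → (integralClosure ℤ ℂ) ⧸ 𝔐),
    ∀ τ ∈ Ch ℓ Z, ∀ ψ : stb τ → ℂ, IsIrr ψ → cen 𝔐 (stb τ).subtype ψ ∈ C := by
  have h : (⋃ τ ∈ Ch ℓ Z, {c : L → (integralClosure ℤ ℂ) ⧸ 𝔐 | ∃ ψ : stb τ → ℂ, IsIrr ψ ∧
      cen 𝔐 (stb τ).subtype ψ = c}).Finite := by
    apply Set.Finite.biUnion (Finset.finite_toSet _)
    intro τ _
    exact finite_cen 𝔐 _
  refine ⟨h.toFinset, fun τ hτ ψ hψ => ?_⟩
  rw [Set.Finite.mem_toFinset, Set.mem_iUnion₂]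
  exact ⟨τ, hτ, ψ, hψ, rfl⟩

theorem sum_cntF (ℓ : ℕ) (Z : Subgroup L) (F : G → L → ℂ)
    (hF : ∀ u g x, F u (g * x * g⁻¹) = F u x) (hi : ∀ u x, IsIntegral ℤ (F u x))
    (ω : G → (integralClosure ℤ ℂ) ⧸ 𝔐) : ∃ C : Finset (L → (integralClosure ℤ ℂ) ⧸ 𝔐),
      (∀ c ∈ C, ∀ u, pair 𝔐 (F u) c = ω u) ∧
      (∀ d, ∑ τ ∈ Ch ℓ Z, (-1 : ℚ) ^ τ.card * (Nat.card (stb τ) *
          cntF 𝔐 ℓ d (fun u (k : stb τ) => F u (k : L)) ω) = ∑ c ∈ C, KK 𝔐 ℓ d Z c) ∧
      (∀ (c : L → (integralClosure ℤ ℂ) ⧸ 𝔐) τ, τ ∈ Ch ℓ Z → ∀ ψ : stb τ → ℂ, IsIrr ψ →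
        cen 𝔐 (stb τ).subtype ψ = c → (∀ u, pair 𝔐 (F u) c = ω u) → c ∈ C) := by
  classical
  obtain ⟨C, hC⟩ := exists_cen_set 𝔐 ℓ Z
  refine ⟨C.filter (fun c => ∀ u, pair 𝔐 (F u) c = ω u), ?_, ?_, ?_⟩
  · intro c hc
    exact (Finset.mem_filter.mp hc).2
  · intro d
    have h1 : ∀ τ ∈ Ch ℓ Z, (-1 : ℚ) ^ τ.card * (Nat.card (stb τ) *
          cntF 𝔐 ℓ d (fun u (k : stb τ) => F u (k : L)) ω) =
        ∑ c ∈ C with ∀ u, pair 𝔐 (F u) c = ω u,
          (-1 : ℚ) ^ τ.card * (Nat.card (stb τ) * cnt 𝔐 ℓ d (stb τ).subtype c) := by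
      intro τ hτ
      have h2 := cntF_eq_sum 𝔐 ℓ d (stb τ).subtype F hF hi ω C (hC τ hτ)
      rw [← Finset.mul_sum, ← Finset.mul_sum]
      congr 2
      have h3 : cntF 𝔐 ℓ d (fun u (k : stb τ) => F u (k : L)) ω =
        cntF 𝔐 ℓ d (fun u y => F u ((stb τ).subtype y)) ω := rfl
      rw [h3, h2]
      push_cast
      rfl
    rw [Finset.sum_congr rfl h1, Finset.sum_comm]
    rfl
  · intro c τ hτ ψ hψ hc hp
    rw [Finset.mem_filter]
    refine ⟨?_, hp⟩
    rw [← hc]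
    exact hC τ hτ ψ hψ

end Pair

section Good

variable (𝔐 : Ideal (integralClosure ℤ ℂ))

/-- All chain sums (from the trivial subgroup) of positive defect vanish, and those of defect
`0` are supported on central functions of characters of defect `0`. -/
def Good (ℓ : ℕ) (G : Type*) [Group G] [Fintype G] : Prop :=
  ∀ ω : G → (integralClosure ℤ ℂ) ⧸ 𝔐,
    (∀ d, 0 < d → KK 𝔐 ℓ d (⊥ : Subgroup G) ω = 0) ∧
    (KK 𝔐 ℓ 0 (⊥ : Subgroup G) ω ≠ 0 → ∃ χ : G → ℂ, IsIrr χ ∧ HasDefect ℓ χ 0 ∧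
      ∀ g, cen 𝔐 (MonoidHom.id G) χ g = ω g)

theorem KK_eq_zero {G : Type*} [Group G] [Fintype G] {ℓ : ℕ} [Fact ℓ.Prime] (d : ℕ)
    {Z O : Subgroup G} [O.Normal] (hO : IsPGroup ℓ O) (hZO : Z < O)
    (ω : G → (integralClosure ℤ ℂ) ⧸ 𝔐) : KK 𝔐 ℓ d Z ω = 0 := by
  have h := sum_chains_eq_zero Z O hO hZO (fun S : Subgroup G =>
    ((Nat.card S : ℚ) * cnt 𝔐 ℓ d S.subtype ω))
  rw [KK, ← h]
  refine Finset.sum_congr rfl fun σ _ => ?_
  rw [zsmul_eq_mul]
  push_cast
  rfl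

theorem good_of_normal {G : Type*} [Group G] [Fintype G] {ℓ : ℕ} [Fact ℓ.Prime]
    {O : Subgroup G} [O.Normal] (hO : IsPGroup ℓ O) (hne : O ≠ ⊥) : Good 𝔐 ℓ G := by
  intro ω
  have h := fun d => KK_eq_zero 𝔐 (ℓ := ℓ) d hO (bot_lt_iff_ne_bot.mpr hne) ω
  exact ⟨fun d _ => h d, fun h1 => absurd (h 0) h1⟩

theorem good_of_coprime {G : Type*} [Group G] [Fintype G] {ℓ : ℕ} [Fact ℓ.Prime]
    (hG : ¬ ℓ ∣ Nat.card G) : Good 𝔐 ℓ G := by
  classical
  have hCh : Ch ℓ (⊥ : Subgroup G) = {∅} := by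
    ext σ
    rw [mem_Ch, Finset.mem_singleton]
    constructor
    · intro h
      by_contra hne
      obtain ⟨D, hD⟩ := Finset.nonempty_iff_ne_empty.mpr hne
      obtain ⟨h1, h2⟩ := h.1 D hD
      obtain ⟨k, hk⟩ := h1.exists_card_eq
      rcases Nat.eq_zero_or_pos k with rfl | hk0
      · rw [pow_zero, Subgroup.card_eq_one] at hk
        rw [hk] at h2
        exact lt_irrefl _ h2
      · apply hG
        have h3 : ℓ ∣ Nat.card D := by
          rw [hk]
          exact dvd_pow_self ℓ hk0.ne'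
        exact h3.trans (Subgroup.card_subgroup_dvd_card D)
    · rintro rfl
      exact isCh_empty _ _
  have hnd : ∀ d, 0 < d → ∀ (Y : Subgroup G) (χ : Y → ℂ), ¬ HasDefect ℓ χ d := by
    rintro d hd Y χ ⟨n, _, hn⟩
    have h1 : padicValNat ℓ (Nat.card Y) = 0 :=
      padicValNat.eq_zero_of_not_dvd fun h => hG (h.trans (Subgroup.card_subgroup_dvd_card Y))
    omega
  intro ω
  constructor
  · intro d hd
    rw [KK, hCh, Finset.sum_singleton]
    have : cnt 𝔐 ℓ d (stb (∅ : Finset (Subgroup G))).subtype ω = 0 := by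
      rw [cnt, Nat.card_eq_zero]
      left
      constructor
      rintro ⟨χ, _, h, _⟩
      exact hnd d hd _ χ h
    rw [this]
    simp
  · intro h
    rw [KK, hCh, Finset.sum_singleton, stb_empty] at h
    have h1 : cnt 𝔐 ℓ 0 (⊤ : Subgroup G).subtype ω ≠ 0 := by
      intro h0
      rw [h0] at h
      simp at h
    have h2 : cnt 𝔐 ℓ 0 (MonoidHom.id G) ω ≠ 0 := by
      have h3 := cnt_comp_equiv 𝔐 ℓ 0 (Subgroup.topEquiv (G := G)) (MonoidHom.id G) ω
      rw [← h3]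
      exact h1
    rw [cnt] at h2
    obtain ⟨⟨χ, h3, h4, h5⟩⟩ := (Nat.card_ne_zero.mp h2).1
    exact ⟨χ, h3, h4, h5⟩

theorem KK_equiv {G G' : Type*} [Group G] [Fintype G] [Group G'] [Fintype G'] (ℓ d : ℕ)
    (e : G ≃* G') (Z : Subgroup G) (ω : G' → (integralClosure ℤ ℂ) ⧸ 𝔐) :
    KK 𝔐 ℓ d (Z.map e.toMonoidHom) ω = KK 𝔐 ℓ d Z (fun g => ω (e g)) := by
  rw [KK, KK, sum_Ch_equiv]
  refine Finset.sum_congr rfl fun τ _ => ?_
  rw [card_mapCh (i := e.toMonoidHom) e.injective, stb_mapCh_equiv]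
  congr 2
  · congr 1
    exact (Nat.card_congr ((stb τ).equivMapOfInjective _ e.injective).toEquiv).symm
  · congr 1
    rw [← cnt_comp_equiv 𝔐 ℓ d ((stb τ).equivMapOfInjective e.toMonoidHom e.injective)]
    have h1 : ((stb τ).map e.toMonoidHom).subtype.comp
        ((stb τ).equivMapOfInjective e.toMonoidHom e.injective).toMonoidHom =
        e.toMonoidHom.comp (stb τ).subtype := rfl
    rw [h1]
    have h2 : ∀ (θ : stb τ → ℂ) g, cen 𝔐 (e.toMonoidHom.comp (stb τ).subtype) θ (e g) =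
        cen 𝔐 (stb τ).subtype θ g := by
      intro θ g
      rw [cen, cen]
      congr 2
      ext y
      apply conjInd_congr
      constructor
      · intro h
        have := (e.symm : G' →* G).map_isConj h
        simpa using this
      · intro h
        exact (e : G →* G').map_isConj h
    rw [cnt, cnt]
    have h3 : ∀ θ : stb τ → ℂ, (∀ g, cen 𝔐 (e.toMonoidHom.comp (stb τ).subtype) θ g = ω g) ↔
        (∀ g, cen 𝔐 (stb τ).subtype θ g = ω (e g)) := by
      intro θ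
      constructor
      · intro h g
        rw [← h2]
        exact h _
      · intro h g
        obtain ⟨g, rfl⟩ := e.surjective g
        rw [h2]
        exact h g
    simp only [h3]

theorem Good.equiv {G G' : Type*} [Group G] [Fintype G] [Group G'] [Fintype G'] {ℓ : ℕ}
    (h : Good 𝔐 ℓ G) (e : G ≃* G') : Good 𝔐 ℓ G' := by
  intro ω
  have hb : (⊥ : Subgroup G).map e.toMonoidHom = ⊥ := Subgroup.map_bot _
  obtain ⟨h1, h2⟩ := h (fun g => ω (e g))
  constructor
  · intro d hd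
    rw [← hb, KK_equiv]
    exact h1 d hd
  · intro h0
    rw [← hb, KK_equiv] at h0
    obtain ⟨χ, h3, h4, h5⟩ := h2 h0
    refine ⟨fun g => χ (e.symm g), h3.comp_mulEquiv e.symm, ?_, ?_⟩
    · exact (hasDefect_comp_equiv e.symm).mpr h4
    · intro g
      obtain ⟨g, rfl⟩ := e.surjective g
      rw [← h5 g]
      have h6 := cen_comp_equiv 𝔐 e.symm (MonoidHom.id G) χ
      rw [← h6, cen, cen]
      congr 2
      ext y
      apply conjInd_congr
      obtain ⟨y, rfl⟩ := e.surjective y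
      constructor
      · intro h
        have := (e.symm : G' →* G).map_isConj h
        simpa using this
      · intro h
        have := (e : G →* G').map_isConj h
        simpa using this

variable [h𝔐 : 𝔐.IsPrime]

theorem Fl_class {V H : Type*} [CommGroup V] [Fintype V] [Group H] [Fintype H]
    {φ : H →* MulAut V} (lam : V →* ℂˣ) (u : V ⋊[φ] H) (g x : stab φ lam) :
    Fl φ lam u ((g * x * g⁻¹ : stab φ lam) : H) = Fl φ lam u (x : H) := by
  rw [Fl, Fl]
  symm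
  refine Fintype.sum_equiv (φ (g : H)).toEquiv _ _ ?_
  intro v
  change _ = conjInd (⟨φ (g : H) v, (g : H) * x * (g : H)⁻¹⟩ : V ⋊[φ] H) u *
    ((lam (φ (g : H) v) : ℂˣ) : ℂ)
  rw [← conj_inr, conjInd_conj, g.2 v]

theorem isIntegral_Fl {V H : Type*} [CommGroup V] [Fintype V] [Group H] [Fintype H]
    {φ : H →* MulAut V} (lam : V →* ℂˣ) (u : V ⋊[φ] H) (x : H) : IsIntegral ℤ (Fl φ lam u x) :=
  isIntegral_sum _ _ fun v _ => (isIntegral_conjInd _ _).mul (isIntegral_linChar lam v)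

theorem cen_indChar {V H : Type*} [CommGroup V] [Fintype V] [Group H] [Fintype H]
    {φ : H →* MulAut V} (lam : V →* ℂˣ) {ψ : stab φ lam → ℂ} (hψ : IsIrr ψ) (u : V ⋊[φ] H) :
    cen 𝔐 (MonoidHom.id _) (indChar φ lam ψ) u =
      pair 𝔐 (fun x : stab φ lam => Fl φ lam u x) (cen 𝔐 (MonoidHom.id _) ψ) := by
  rw [← red_wt_eq_pair 𝔐 (MonoidHom.id _) hψ _ (fun g x => Fl_class lam u g x)
    (fun x => isIntegral_Fl lam u x), cen, wt_indChar]
  · rfl
  · intro g x
    simp only [MonoidHom.id_apply]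
    exact conjInd_conj _ _ _

theorem good_sdp {V H : Type*} [CommGroup V] [Fintype V] [Group H] [Fintype H]
    {φ : H →* MulAut V} {ℓ : ℕ} [Fact ℓ.Prime] (hℓ : (ℓ : integralClosure ℤ ℂ) ∈ 𝔐)
    (hV : ¬ ℓ ∣ Nat.card V) (h : ∀ lam : V →* ℂˣ, Good 𝔐 ℓ (stab φ lam)) :
    Good 𝔐 ℓ (V ⋊[φ] H) := by
  classical
  intro ω
  have hb : (⊥ : Subgroup H).map (SemidirectProduct.inr : H →* V ⋊[φ] H) = ⊥ :=
    Subgroup.map_bot _
  have hZ : ∀ z ∈ (⊥ : Subgroup H), ∀ v, φ z v = v := by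
    intro z hz v
    rw [Subgroup.mem_bot] at hz
    rw [hz, map_one, MulAut.one_apply]
  have hsub : ∀ lam : V →* ℂˣ, (⊥ : Subgroup H).subgroupOf (stab φ lam) = ⊥ := fun lam => by
    rw [Subgroup.bot_subgroupOf]
  have hS := fun lam : V →* ℂˣ => sum_cntF 𝔐 ℓ (⊥ : Subgroup (stab φ lam))
    (fun (u : V ⋊[φ] H) (x : stab φ lam) => Fl φ lam u x) (fun u g x => Fl_class lam u g x)
    (fun u x => isIntegral_Fl lam u x) ω
  choose C hC1 hC2 hC3 using hS
  have hKK' : ∀ d, KK 𝔐 ℓ d (⊥ : Subgroup (V ⋊[φ] H)) ω =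
      (Nat.card V : ℚ) * ∑ lam : V →* ℂˣ, ∑ c ∈ C lam, KK 𝔐 ℓ d (⊥ : Subgroup (stab φ lam)) c := by
    intro d
    rw [← hb, KK_sdp 𝔐 hℓ d hV hZ ω]
    congr 1
    refine Finset.sum_congr rfl fun lam _ => ?_
    rw [hsub, ← hC2 lam d]
  constructor
  · intro d hd
    rw [hKK']
    rw [Finset.sum_eq_zero, mul_zero]
    intro lam _
    apply Finset.sum_eq_zero
    intro c _
    exact (h lam c).1 d hd
  · intro h0
    rw [hKK'] at h0
    have h1 := right_ne_zero_of_mul h0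
    obtain ⟨lam, _, h2⟩ := Finset.exists_ne_zero_of_sum_ne_zero h1
    obtain ⟨c, hc, h3⟩ := Finset.exists_ne_zero_of_sum_ne_zero h2
    obtain ⟨ψ, hψ, hd, hcen⟩ := (h lam c).2 h3
    refine ⟨indChar φ lam ψ, isIrr_indChar lam hψ, (hasDefect_indChar lam hV hψ 0).mpr hd, ?_⟩
    intro g
    rw [cen_indChar 𝔐 lam hψ]
    have h4 : cen 𝔐 (MonoidHom.id _) ψ = c := funext hcen
    rw [h4]
    exact hC1 lam c hc g

end Good

end Pool.Agent.Lib_helper13


end

section

set_option linter.unusedSectionVars false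

/-! From weighted sums over all chains to Dade's alternating sums over orbits. -/

namespace Pool.Agent.Lib_helper13

open Representation Dade

section Bridge

variable {G : Type*} [Group G] [Fintype G]
variable (𝔐 : Ideal (integralClosure ℤ ℂ))

theorem indCentral_eq (S : Subgroup G) (θ : S → ℂ) (g : G) :
    indCentral S θ g = wt θ (fun s => conjInd (S.subtype s) g) := by
  classical
  rw [indCentral, wt, finsum_eq_sum_of_fintype]
  congr 1
  refine Finset.sum_congr rfl fun s _ => ?_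
  rw [finsum_eq_if, conjInd]
  by_cases h : IsConj (s : G) g
  · have h' : IsConj (S.subtype s) g := h
    rw [if_pos h, if_pos h', one_mul]
  · have h' : ¬ IsConj (S.subtype s) g := h
    rw [if_neg h, if_neg h', zero_mul]

theorem central_eq (χ : G → ℂ) (g : G) :
    central χ g = wt χ (fun x => conjInd (MonoidHom.id G x) g) := by
  classical
  rw [central, wt, finsum_eq_sum_of_fintype]
  congr 1
  refine Finset.sum_congr rfl fun s _ => ?_
  rw [finsum_eq_if, conjInd]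
  by_cases h : IsConj s g
  · rw [if_pos h, MonoidHom.id_apply, if_pos h, one_mul]
  · rw [if_neg h, MonoidHom.id_apply, if_neg h, zero_mul]

theorem isIntegral_wt_conj {Y : Type*} [Group Y] [Fintype Y] (i : Y →* G) {θ : Y → ℂ}
    (hθ : IsIrr θ) (g : G) : IsIntegral ℤ (wt θ (fun y => conjInd (i y) g)) := by
  apply isIntegral_wt hθ
  · intro a y
    rw [map_mul, map_mul, map_inv, conjInd_conj]
  · intro y
    exact isIntegral_conjInd _ _

theorem inducesTo_iff {S : Subgroup G} {θ : S → ℂ} (hθ : IsIrr θ) {χ : G → ℂ} (hχ : IsIrr χ) :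
    InducesTo 𝔐 S θ χ ↔ ∀ g, cen 𝔐 S.subtype θ g = cen 𝔐 (MonoidHom.id G) χ g := by
  refine forall_congr' fun g => ?_
  rw [indCentral_eq, central_eq, cen, cen]
  exact (red_eq_iff 𝔐 (isIntegral_wt_conj _ hθ g) (isIntegral_wt_conj _ hχ g)).symm

theorem sameBlock_iff {χ χ' : G → ℂ} (hχ : IsIrr χ) (hχ' : IsIrr χ') :
    SameBlock 𝔐 χ χ' ↔ cen 𝔐 (MonoidHom.id G) χ = cen 𝔐 (MonoidHom.id G) χ' := by
  rw [funext_iff]
  refine forall_congr' fun g => ?_
  rw [central_eq, central_eq, cen, cen]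
  exact (red_eq_iff 𝔐 (isIntegral_wt_conj _ hχ g) (isIntegral_wt_conj _ hχ' g)).symm

theorem kd_eq (ℓ d : ℕ) {χ : G → ℂ} (hχ : IsIrr χ) (S : Subgroup G) :
    kd 𝔐 ℓ χ d S = cnt 𝔐 ℓ d S.subtype (cen 𝔐 (MonoidHom.id G) χ) := by
  rw [kd, cnt]
  apply Nat.card_congr
  apply Equiv.subtypeEquivRight
  intro θ
  constructor
  · rintro ⟨h1, h2, h3⟩
    exact ⟨h1, h2, (inducesTo_iff 𝔐 h1 hχ).mp h3⟩
  · rintro ⟨h1, h2, h3⟩
    exact ⟨h1, h2, (inducesTo_iff 𝔐 h1 hχ).mpr h3⟩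

theorem isLChain_iff (ℓ : ℕ) (σ : Finset (Subgroup G)) :
    IsLChain ℓ σ ↔ IsCh ℓ (pCore ℓ G) σ := by
  constructor
  · rintro ⟨h1, h2⟩
    refine ⟨h1, ?_⟩
    intro D hD E hE _
    exact h2 D hD E hE
  · intro h
    exact ⟨h.1, fun D hD E hE => h.total hD hE⟩

theorem chainSetoid_iff {ℓ : ℕ} (σ τ : {σ : Finset (Subgroup G) // IsLChain ℓ σ}) :
    (chainSetoid ℓ G) σ τ ↔ ∃ g : G, mapCh (MulAut.conj g).toMonoidHom σ.1 = τ.1 := by
  classical
  refine exists_congr fun g => ?_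
  rw [mapCh, ← Finset.coe_inj, Finset.coe_image, eq_comm]

theorem mapCh_conj_mul (a b : G) (σ : Finset (Subgroup G)) :
    mapCh (MulAut.conj a).toMonoidHom (mapCh (MulAut.conj b).toMonoidHom σ) =
      mapCh (MulAut.conj (a * b)).toMonoidHom σ := by
  rw [mapCh_comp, map_mul]
  rfl

theorem mapCh_conj_one (σ : Finset (Subgroup G)) :
    mapCh (MulAut.conj (1 : G)).toMonoidHom σ = σ := by
  have : (MulAut.conj (1 : G)).toMonoidHom = MonoidHom.id G := by
    ext x
    simp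
  rw [this, mapCh_id]

theorem mapCh_conj_eq_iff {ℓ : ℕ} {Z : Subgroup G} {σ : Finset (Subgroup G)}
    (hσ : IsCh ℓ Z σ) (g : G) :
    mapCh (MulAut.conj g).toMonoidHom σ = σ ↔ g ∈ stb σ := by
  have hcard : ∀ D : Subgroup G, Nat.card (D.map (MulAut.conj g).toMonoidHom) = Nat.card D :=
    fun D => card_map_conj D g
  constructor
  · intro h
    rw [mem_stb]
    intro D hD
    have h1 : D.map (MulAut.conj g).toMonoidHom ∈ σ := by
      rw [← h]
      exact mem_mapCh.mpr ⟨D, hD, rfl⟩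
    rcases hσ.total h1 hD with h2 | h2
    · exact Subgroup.eq_of_le_of_card_ge h2 (hcard D).ge
    · exact (Subgroup.eq_of_le_of_card_ge h2 (hcard D).le).symm
  · intro h
    rw [mem_stb] at h
    ext E
    rw [mem_mapCh]
    constructor
    · rintro ⟨D, hD, rfl⟩
      rw [h D hD]
      exact hD
    · intro hE
      exact ⟨E, hE, h E hE⟩

/-- Orbit counting. -/
theorem sum_orbits (ℓ : ℕ) (f : Finset (Subgroup G) → ℚ)
    (hf : ∀ (g : G) σ, f (mapCh (MulAut.conj g).toMonoidHom σ) = f σ)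
    [Fintype (Quotient (chainSetoid ℓ G))] :
    (Nat.card G : ℚ) * ∑ o : Quotient (chainSetoid ℓ G), f o.out.1 =
      ∑ σ ∈ Ch ℓ (pCore ℓ G), Nat.card (stb σ) * f σ := by
  classical
  have hfin : Finite {σ : Finset (Subgroup G) // IsLChain ℓ σ} := inferInstance
  have hft : Fintype {σ : Finset (Subgroup G) // IsLChain ℓ σ} := Fintype.ofFinite _
  -- sum over the subtype
  have h1 : ∑ σ ∈ Ch ℓ (pCore ℓ G), (Nat.card (stb σ) : ℚ) * f σ =
      ∑ σ : {σ : Finset (Subgroup G) // IsLChain ℓ σ}, (Nat.card (stb σ.1) : ℚ) * f σ.1 := by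
    symm
    apply Finset.sum_bij (fun σ _ => σ.1)
    · intro σ _
      rw [mem_Ch, ← isLChain_iff]
      exact σ.2
    · intro a _ b _ h
      exact Subtype.ext h
    · intro σ hσ
      rw [mem_Ch, ← isLChain_iff] at hσ
      exact ⟨⟨σ, hσ⟩, Finset.mem_univ _, rfl⟩
    · intro _ _
      rfl
  rw [h1]
  rw [← Finset.sum_fiberwise_of_maps_to (s := Finset.univ)
    (t := (Finset.univ : Finset (Quotient (chainSetoid ℓ G))))
    (g := fun σ => Quotient.mk (chainSetoid ℓ G) σ) (fun _ _ => Finset.mem_univ _),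
    Finset.mul_sum]
  refine Finset.sum_congr rfl fun o _ => ?_
  -- the orbit `o`
  have hrel : ∀ σ : {σ : Finset (Subgroup G) // IsLChain ℓ σ},
      Quotient.mk (chainSetoid ℓ G) σ = o ↔
        ∃ g : G, mapCh (MulAut.conj g).toMonoidHom o.out.1 = σ.1 := by
    intro σ
    rw [← chainSetoid_iff]
    constructor
    · intro h
      apply Quotient.exact
      rw [Quotient.out_eq, h]
    · intro h
      rw [← Quotient.out_eq o]
      exact (Quotient.sound h).symm
  have hterm : ∀ σ ∈ Finset.univ.filter (fun σ : {σ : Finset (Subgroup G) // IsLChain ℓ σ} =>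
      Quotient.mk (chainSetoid ℓ G) σ = o), (Nat.card (stb σ.1) : ℚ) * f σ.1 =
        Nat.card (stb o.out.1) * f o.out.1 := by
    intro σ hσ
    obtain ⟨g, hg⟩ := (hrel σ).mp (Finset.mem_filter.mp hσ).2
    rw [← hg, hf, stb_mapCh_equiv, card_map_conj]
  rw [Finset.sum_congr rfl hterm, Finset.sum_const, nsmul_eq_mul]
  -- orbit-stabilizer
  have hcount : Nat.card G = (Finset.univ.filter
      (fun σ : {σ : Finset (Subgroup G) // IsLChain ℓ σ} =>
        Quotient.mk (chainSetoid ℓ G) σ = o)).card * Nat.card (stb o.out.1) := by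
    have hact : ∀ g : G, IsLChain ℓ (mapCh (MulAut.conj g).toMonoidHom o.out.1) := by
      intro g
      have h2 := (isLChain_iff ℓ o.out.1).mp o.out.2
      rw [isLChain_iff]
      have h3 : (pCore ℓ G).map (MulAut.conj g).toMonoidHom = pCore ℓ G := by
        have hle : ∀ g : G, (pCore ℓ G).map (MulAut.conj g).toMonoidHom ≤ pCore ℓ G := by
          intro g
          rw [Subgroup.map_le_iff_le_comap]
          apply sSup_le
          rintro N ⟨hN1, hN2⟩ x hx
          rw [Subgroup.mem_comap]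
          have h4 : (MulAut.conj g).toMonoidHom x ∈ N := hN1.conj_mem x hx g
          exact (le_sSup (show N ∈ {N : Subgroup G | N.Normal ∧ IsPGroup ℓ N} from
            ⟨hN1, hN2⟩)) h4
        apply Subgroup.eq_of_le_of_card_ge (hle g)
        rw [card_map_conj]
      rw [← h3]
      exact (isCh_mapCh_iff (MulAut.conj g).injective).mpr h2
    rw [Nat.card_eq_fintype_card, ← Finset.card_univ]
    rw [Finset.card_eq_sum_card_fiberwise
      (f := fun g : G => (⟨mapCh (MulAut.conj g).toMonoidHom o.out.1, hact g⟩ :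
        {σ : Finset (Subgroup G) // IsLChain ℓ σ}))
      (t := Finset.univ.filter (fun σ : {σ : Finset (Subgroup G) // IsLChain ℓ σ} =>
        Quotient.mk (chainSetoid ℓ G) σ = o))]
    · rw [Finset.card_eq_sum_ones, Finset.sum_mul]
      refine Finset.sum_congr rfl fun σ hσ => ?_
      obtain ⟨g₀, hg₀⟩ := (hrel σ).mp (Finset.mem_filter.mp hσ).2
      rw [one_mul, Nat.card_eq_fintype_card, ← Finset.card_univ]
      symm
      apply Finset.card_bij (fun (s : stb o.out.1) _ => g₀ * (s : G))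
      · intro s _
        rw [Finset.mem_filter]
        refine ⟨Finset.mem_univ _, Subtype.ext ?_⟩
        change mapCh (MulAut.conj (g₀ * (s : G))).toMonoidHom o.out.1 = σ.1
        rw [← mapCh_conj_mul, (mapCh_conj_eq_iff ((isLChain_iff ℓ _).mp o.out.2) (s : G)).mpr s.2,
          hg₀]
      · intro s _ s' _ h
        exact Subtype.ext (mul_left_cancel h)
      · intro g hg
        have h2 := congrArg Subtype.val (Finset.mem_filter.mp hg).2
        have h3 : mapCh (MulAut.conj g).toMonoidHom o.out.1 = σ.1 := h2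
        refine ⟨⟨g₀⁻¹ * g, ?_⟩, Finset.mem_univ _, by simp⟩
        rw [← mapCh_conj_eq_iff ((isLChain_iff ℓ _).mp o.out.2), ← mapCh_conj_mul, h3, ← hg₀,
          mapCh_conj_mul, inv_mul_cancel, mapCh_conj_one]
    · intro g _
      rw [Finset.mem_coe, Finset.mem_filter]
      exact ⟨Finset.mem_univ _, (hrel _).mpr ⟨g, rfl⟩⟩
  rw [hcount]
  push_cast
  ring

theorem dadeSum_eq (ℓ d : ℕ) {χ : G → ℂ} (hχ : IsIrr χ) :
    (Nat.card G : ℚ) * (dadeSum 𝔐 ℓ χ d : ℚ) =
      KK 𝔐 ℓ d (pCore ℓ G) (cen 𝔐 (MonoidHom.id G) χ) := by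
  classical
  have hft : Fintype (Quotient (chainSetoid ℓ G)) := Fintype.ofFinite _
  rw [dadeSum, finsum_eq_sum_of_fintype]
  have h := sum_orbits ℓ (fun σ : Finset (Subgroup G) => (-1 : ℚ) ^ σ.card *
    cnt 𝔐 ℓ d (stb σ).subtype (cen 𝔐 (MonoidHom.id G) χ)) (by
      intro g σ
      rw [card_mapCh (MulAut.conj g).injective, stb_mapCh_equiv, cnt_map_conj])
  push_cast
  simp only [kd_eq 𝔐 ℓ d hχ]
  refine Eq.trans h ?_
  rw [KK]
  refine Finset.sum_congr rfl fun σ _ => ?_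
  ring

theorem isIntegral_char {χ : G → ℂ} (hχ : IsIrr χ) (x : G) : IsIntegral ℤ (χ x) := by
  obtain ⟨n, ρ, _, rfl⟩ := hχ
  have h1 : ρ.character x = LinearMap.trace ℂ _ (ρ x) := rfl
  rw [h1, Module.End.trace_eq_sum_roots_charpoly_of_splits (IsAlgClosed.splits _)]
  apply Multiset.sum_induction (p := fun z : ℂ => IsIntegral ℤ z)
  · intro a b ha hb
    exact ha.add hb
  · exact isIntegral_zero
  · intro μ hμ
    have h2 : (ρ x).charpoly.IsRoot μ := (Polynomial.mem_roots'.mp hμ).2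
    rw [← Module.End.hasEigenvalue_iff_isRoot_charpoly] at h2
    obtain ⟨v, hv⟩ := h2.exists_hasEigenvector
    have h3 : (ρ x ^ Nat.card G) v = μ ^ Nat.card G • v := by
      rw [hv.pow_apply]
    rw [← map_pow, pow_card_eq_one', map_one, Module.End.one_apply] at h3
    have h4 : μ ^ Nat.card G = 1 := by
      have h5 : (μ ^ Nat.card G - 1) • v = 0 := by
        rw [sub_smul, one_smul, ← h3, sub_self]
      rcases smul_eq_zero.mp h5 with h6 | h6
      · exact sub_eq_zero.mp h6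
      · exact absurd h6 hv.2
    apply IsIntegral.of_pow (n := Nat.card G) Nat.card_pos
    rw [h4]
    exact isIntegral_one

/-- A character of defect zero is alone in its block. -/
theorem eq_of_defect_zero [h𝔐 : 𝔐.IsPrime] {ℓ : ℕ} [Fact ℓ.Prime]
    (hℓ : (ℓ : integralClosure ℤ ℂ) ∈ 𝔐) {χ χ' : G → ℂ} (hχ : IsIrr χ) (hχ' : IsIrr χ')
    (hd : Dade.HasDefect ℓ χ 0)
    (hb : cen 𝔐 (MonoidHom.id G) χ = cen 𝔐 (MonoidHom.id G) χ') : χ = χ' := by
  classical
  by_contra hne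
  obtain ⟨n, hn, hv⟩ := hd
  rw [zero_add] at hv
  have hn0 : n ≠ 0 := by
    rintro rfl
    exact hχ.one_ne_zero (by rw [hn]; simp)
  -- class function `x ↦ χ(x⁻¹)`
  have hcl : ∀ g x : G, χ (g * x * g⁻¹)⁻¹ = χ x⁻¹ := by
    intro g x
    have : (g * x * g⁻¹)⁻¹ = g * x⁻¹ * g⁻¹ := by group
    rw [this, hχ.conj_eq]
  have hint : ∀ x : G, IsIntegral ℤ (χ x⁻¹) := fun x => isIntegral_char hχ _
  have h1 := red_wt_eq_pair 𝔐 (MonoidHom.id G) hχ (fun x => χ x⁻¹) hcl hint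
  have h2 := red_wt_eq_pair 𝔐 (MonoidHom.id G) hχ' (fun x => χ x⁻¹) hcl hint
  rw [hb, ← h2] at h1
  have h3 : wt χ (fun y => χ (MonoidHom.id G y)⁻¹) = Nat.card G / n := by
    rw [wt, hn]
    congr 1
    rw [← hχ.sum_self]
    refine Finset.sum_congr rfl fun y _ => ?_
    rw [mul_comm]
    rfl
  have h4 : wt χ' (fun y => χ (MonoidHom.id G y)⁻¹) = 0 := by
    rw [wt]
    have : ∑ y, χ (MonoidHom.id G y)⁻¹ * χ' y = 0 := by
      rw [← hχ'.sum_ne hχ (fun h => hne h.symm)]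
      refine Finset.sum_congr rfl fun y _ => ?_
      rw [mul_comm]
      rfl
    rw [this, zero_div]
  rw [h3, h4, red_zero] at h1
  -- `|G|/n` is integral and lies in `𝔐`
  have h5 : IsIntegral ℤ ((Nat.card G : ℂ) / n) := by
    rw [← h3]
    exact isIntegral_wt hχ _ hcl hint
  rw [red_of_integral 𝔐 h5, Ideal.Quotient.eq_zero_iff_mem] at h1
  -- the `ℓ'`-parts
  have hG0 : Nat.card G ≠ 0 := Nat.card_pos.ne'
  obtain ⟨a, ha⟩ : ∃ a, Nat.card G = ℓ ^ (padicValNat ℓ (Nat.card G)) * a := by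
    obtain ⟨a, ha⟩ := pow_padicValNat_dvd (p := ℓ) (n := Nat.card G)
    exact ⟨a, ha⟩
  obtain ⟨b, hb'⟩ : ∃ b, n = ℓ ^ (padicValNat ℓ n) * b := by
    obtain ⟨b, hb'⟩ := pow_padicValNat_dvd (p := ℓ) (n := n)
    exact ⟨b, hb'⟩
  have hℓ0 : (ℓ : ℕ) ≠ 0 := (Fact.out : ℓ.Prime).ne_zero
  have ha' : ¬ ℓ ∣ a := by
    intro hdvd
    have h6 : ℓ ^ (padicValNat ℓ (Nat.card G) + 1) ∣ Nat.card G := by
      rw [pow_succ]
      conv_rhs => rw [ha]
      exact Nat.mul_dvd_mul_left _ hdvd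
    exact pow_succ_padicValNat_not_dvd hG0 h6
  have hq : (b : ℂ) * ((Nat.card G : ℂ) / n) = a := by
    have h7 : (n : ℂ) = (ℓ : ℂ) ^ (padicValNat ℓ n) * b := by exact_mod_cast hb'
    have h8 : (Nat.card G : ℂ) = (ℓ : ℂ) ^ (padicValNat ℓ (Nat.card G)) * a := by
      exact_mod_cast ha
    have hb0 : (b : ℂ) ≠ 0 := by
      intro h
      apply hn0
      have : (n : ℂ) = 0 := by rw [h7, h, mul_zero]
      exact_mod_cast this
    have hl0 : (ℓ : ℂ) ≠ 0 := by exact_mod_cast hℓ0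
    rw [h7, h8, hv]
    field_simp
  have h9 : (a : integralClosure ℤ ℂ) ∈ 𝔐 := by
    have h10 : (a : integralClosure ℤ ℂ) = (b : integralClosure ℤ ℂ) *
        ⟨(Nat.card G : ℂ) / n, h5⟩ := by
      apply Subtype.ext
      push_cast
      rw [hq]
    rw [h10]
    exact 𝔐.mul_mem_left _ h1
  apply h𝔐.ne_top
  rw [Ideal.eq_top_iff_one]
  have h11 : Nat.Coprime ℓ a := (Fact.out : ℓ.Prime).coprime_iff_not_dvd.mpr ha'
  have h12 : IsCoprime (ℓ : ℤ) (a : ℤ) := Nat.isCoprime_iff_coprime.mpr h11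
  obtain ⟨s, t, hst⟩ := h12
  have h13 : (1 : integralClosure ℤ ℂ) = (s : integralClosure ℤ ℂ) * ℓ +
      (t : integralClosure ℤ ℂ) * a := by
    exact_mod_cast congrArg (fun z : ℤ => (z : integralClosure ℤ ℂ)) hst.symm
  rw [h13]
  exact 𝔐.add_mem (𝔐.mul_mem_left _ hℓ) (𝔐.mul_mem_left _ h9)

/-- Good groups with trivial `O_ℓ` satisfy Dade's conjecture. -/
theorem dadeHolds_of_good {ℓ : ℕ} [Fact ℓ.Prime]
    (hG : ∀ 𝔐 : Ideal (integralClosure ℤ ℂ), 𝔐.IsMaximal → (ℓ : integralClosure ℤ ℂ) ∈ 𝔐 →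
      Good 𝔐 ℓ G) (hcore : pCore ℓ G = ⊥) : DadeHolds ℓ G := by
  rintro 𝔐 h𝔐 hℓ χ hχ ⟨χ', e, hχ', hb, hd, he⟩ d
  have := h𝔐.isPrime
  have hχi : IsIrr χ := hχ
  have hχi' : IsIrr χ' := hχ'
  have hcen := (sameBlock_iff 𝔐 hχi' hχi).mp hb
  have he0 : 0 < e := by
    rcases Nat.eq_zero_or_pos e with rfl | h
    · rw [hcore] at he
      simp at he
    · exact h
  obtain ⟨h1, h2⟩ := hG 𝔐 h𝔐 hℓ (cen 𝔐 (MonoidHom.id G) χ)
  have h3 : KK 𝔐 ℓ d (pCore ℓ G) (cen 𝔐 (MonoidHom.id G) χ) = 0 := by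
    rw [hcore]
    rcases Nat.eq_zero_or_pos d with rfl | hd0
    · by_contra hne
      obtain ⟨χ₁, h4, h5, h6⟩ := h2 hne
      have h7 : cen 𝔐 (MonoidHom.id G) χ₁ = cen 𝔐 (MonoidHom.id G) χ' := by
        rw [hcen]
        exact funext h6
      have h8 := eq_of_defect_zero 𝔐 hℓ h4 hχi' h5 h7
      rw [h8] at h5
      obtain ⟨n, hn, hn'⟩ := h5
      obtain ⟨m, hm, hm'⟩ := hd
      rw [hn] at hm
      have : n = m := by exact_mod_cast hm
      subst this
      omega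
    · exact h1 d hd0
  rw [← dadeSum_eq 𝔐 ℓ d hχi] at h3
  have h4 : (Nat.card G : ℚ) ≠ 0 := by
    have : Nat.card G ≠ 0 := Nat.card_pos.ne'
    exact_mod_cast this
  rcases mul_eq_zero.mp h3 with h5 | h5
  · exact absurd h5 h4
  · exact_mod_cast h5

end Bridge

end Pool.Agent.Lib_helper13


end
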