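import Mathlib
import Pool.Agent.DAM.C02

/-! Parts: Lib_helper13.Descent, Lib_helper13.Descent2 -/

section

set_option linter.unusedSectionVars false

/-! Dade's conjecture descends from `V ⋊ H` to stabilizers of characters of `V`. -/

namespace Pool.Agent.Lib_helper13

open Representation Dade

theorem conjInd_of {G : Type*} [Group G] {x g : G} (h : IsConj x g) : conjInd x g = 1 := by
  classical
  rw [conjInd]
  exact if_pos h

theorem conjInd_of_not {G : Type*} [Group G] {x g : G} (h : ¬ IsConj x g) :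
    conjInd x g = 0 := by
  classical
  rw [conjInd]
  exact if_neg h

section Descent

variable {V H : Type*} [CommGroup V] [Fintype V] [Group H] [Fintype H] {φ : H →* MulAut V}
variable (𝔐 : Ideal (integralClosure ℤ ℂ))

/-- Expansion of a class function of `V ⋊ H` integrated against a character of `V`. -/
theorem pair_Fl {Y : Type*} [Group Y] [Fintype Y] (μ : V →* ℂˣ) (i : Y →* H)
    (hi : ∀ y, i y ∈ stab φ μ) {ψ : Y → ℂ} (hψ : IsIrr ψ) (E : V ⋊[φ] H → ℂ)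
    (hE : ∀ g x, E (g * x * g⁻¹) = E x) (hEi : ∀ x, IsIntegral ℤ (E x)) :
    pair 𝔐 E (fun g => red 𝔐 (wt ψ (fun y => Fl φ μ g (i y)))) =
      red 𝔐 (wt ψ (fun y => ∑ v : V, E ⟨v, i y⟩ * ((μ v : ℂˣ) : ℂ))) := by
  classical
  have hint : ∀ g, IsIntegral ℤ (wt ψ (fun y => Fl φ μ g (i y))) := by
    intro g
    apply isIntegral_wt hψ
    · intro a y
      have := Fl_class μ g (⟨i a, hi a⟩ : stab φ μ) ⟨i y, hi y⟩
      rw [map_mul, map_mul, map_inv]
      exact this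
    · intro y
      exact isIntegral_Fl μ g _
  have h1 : ∀ x : V ⋊[φ] H, E x = ∑ C : ConjClasses (V ⋊[φ] H), E C.out * conjInd x C.out := by
    intro x
    have hout : ∀ C : ConjClasses (V ⋊[φ] H), ConjClasses.mk C.out = C := fun C =>
      Quotient.out_eq C
    rw [Finset.sum_eq_single (ConjClasses.mk x)]
    · have h2 : IsConj x (ConjClasses.mk x).out := by
        rw [← ConjClasses.mk_eq_mk_iff_isConj, hout]
      rw [conjInd, if_pos h2, mul_one]
      obtain ⟨c, hc⟩ := isConj_iff.mp h2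
      rw [← hc, hE]
    · intro C _ hC
      rw [conjInd, if_neg, mul_zero]
      intro h2
      apply hC
      rw [← hout C, ConjClasses.mk_eq_mk_iff_isConj]
      exact h2.symm
    · simp
  have h2 : (fun y => ∑ v : V, E ⟨v, i y⟩ * ((μ v : ℂˣ) : ℂ)) =
      fun y => ∑ C : ConjClasses (V ⋊[φ] H), E C.out * Fl φ μ C.out (i y) := by
    ext y
    simp only [Fl, Finset.mul_sum]
    rw [Finset.sum_comm]
    refine Finset.sum_congr rfl fun v _ => ?_
    rw [h1 ⟨v, i y⟩, Finset.sum_mul]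
    refine Finset.sum_congr rfl fun C _ => ?_
    ring
  rw [h2, wt_sum, red_sum, pair, finsum_eq_sum_of_fintype]
  · refine Finset.sum_congr rfl fun C _ => ?_
    rw [wt_smul, red_mul 𝔐 (hEi _) (hint _)]
  · intro C _
    rw [wt_smul]
    exact (hEi _).mul (hint _)

/-- The condition selecting the conjugates of the pair `(lam, l)`. -/
def selP (φ : H →* MulAut V) (lam : V →* ℂˣ) (l : stab φ lam) (μ : V →* ℂˣ) (h : H) : Prop :=
  ∃ t : H, (∀ a, lam (φ t⁻¹ a) = μ a) ∧ ∃ s : stab φ lam, IsConj s l ∧ h = t * s * t⁻¹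

open Classical in
/-- The class function of `V ⋊ H` attached to a class of the stabilizer of `lam`. -/
noncomputable def selE (φ : H →* MulAut V) (lam : V →* ℂˣ) (l : stab φ lam)
    (x : V ⋊[φ] H) : ℂ :=
  ∑ μ : V →* ℂˣ, (if selP φ lam l μ x.right then (1 : ℂ) else 0) * (((μ x.left)⁻¹ : ℂˣ) : ℂ)

theorem selP_stab {lam : V →* ℂˣ} {l : stab φ lam} {μ : V →* ℂˣ} {h : H}
    (hs : selP φ lam l μ h) : h ∈ stab φ μ := by
  obtain ⟨t, ht, s, _, rfl⟩ := hs
  intro a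
  rw [← ht, ← ht, ← MulAut.mul_apply, ← map_mul]
  have h1 : t⁻¹ * (t * s * t⁻¹) = (s : H) * t⁻¹ := by group
  rw [h1, map_mul, MulAut.mul_apply]
  exact s.2 _

theorem selP_conj (lam : V →* ℂˣ) (l : stab φ lam) (μ : V →* ℂˣ) (h s : H) :
    selP φ lam l (μ.comp (φ s⁻¹).toMonoidHom) (s * h * s⁻¹) ↔ selP φ lam l μ h := by
  constructor
  · rintro ⟨t, ht, k, hk, hh⟩
    refine ⟨s⁻¹ * t, ?_, k, hk, ?_⟩
    · intro a
      have h1 := ht (φ s a)
      change lam (φ t⁻¹ (φ s a)) = μ (φ s⁻¹ (φ s a)) at h1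
      rw [← MulAut.mul_apply, ← map_mul, ← MulAut.mul_apply, ← map_mul, inv_mul_cancel, map_one,
        MulAut.one_apply] at h1
      rw [← h1, mul_inv_rev, inv_inv]
    · have : h = s⁻¹ * (s * h * s⁻¹) * s := by group
      rw [this, hh]
      group
  · rintro ⟨t, ht, k, hk, hh⟩
    refine ⟨s * t, ?_, k, hk, ?_⟩
    · intro a
      change lam (φ (s * t)⁻¹ a) = μ (φ s⁻¹ a)
      rw [← ht, mul_inv_rev, map_mul, MulAut.mul_apply]
    · rw [hh]
      group

theorem selE_class (lam : V →* ℂˣ) (l : stab φ lam) (g x : V ⋊[φ] H) :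
    selE φ lam l (g * x * g⁻¹) = selE φ lam l x := by
  classical
  -- conjugation by `V`
  have h1 : ∀ (w : V) (x : V ⋊[φ] H), selE φ lam l
      (SemidirectProduct.inl w * x * (SemidirectProduct.inl w)⁻¹) = selE φ lam l x := by
    intro w x
    rw [selE, selE]
    refine Finset.sum_congr rfl fun μ _ => ?_
    have hr : (SemidirectProduct.inl w * x * (SemidirectProduct.inl w)⁻¹ : V ⋊[φ] H).right =
        x.right := by simp
    have hl : (SemidirectProduct.inl w * x * (SemidirectProduct.inl w)⁻¹ : V ⋊[φ] H).left =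
        w * x.left * (φ x.right w)⁻¹ := by simp
    rw [hr, hl]
    by_cases hP : selP φ lam l μ x.right
    · have h2 := selP_stab hP w
      have h3 : μ (w * x.left * (φ x.right w)⁻¹) = μ x.left := by
        rw [map_mul, map_mul, map_inv, h2, mul_comm (μ w), mul_inv_cancel_right]
      rw [h3]
    · rw [if_neg hP, zero_mul, zero_mul]
  -- conjugation by `H`
  have h2 : ∀ (s : H) (x : V ⋊[φ] H), selE φ lam l
      (SemidirectProduct.inr s * x * (SemidirectProduct.inr s)⁻¹) = selE φ lam l x := by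
    intro s x
    obtain ⟨a, k⟩ := x
    rw [conj_inr, selE, selE]
    let e : (V →* ℂˣ) ≃ (V →* ℂˣ) :=
      { toFun := fun μ => μ.comp (φ s⁻¹).toMonoidHom
        invFun := fun μ => μ.comp (φ s).toMonoidHom
        left_inv := fun μ => by
          refine MonoidHom.ext fun a => ?_
          change μ (φ s⁻¹ (φ s a)) = μ a
          rw [← MulAut.mul_apply, ← map_mul, inv_mul_cancel, map_one, MulAut.one_apply]
        right_inv := fun μ => by
          refine MonoidHom.ext fun a => ?_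
          change μ (φ s (φ s⁻¹ a)) = μ a
          rw [← MulAut.mul_apply, ← map_mul, mul_inv_cancel, map_one, MulAut.one_apply] }
    symm
    refine Fintype.sum_equiv e _ _ ?_
    intro μ
    change _ = (if selP φ lam l (μ.comp (φ s⁻¹).toMonoidHom) (s * k * s⁻¹) then (1 : ℂ) else 0) *
      (((μ (φ s⁻¹ (φ s a)))⁻¹ : ℂˣ) : ℂ)
    rw [← MulAut.mul_apply, ← map_mul, inv_mul_cancel, map_one, MulAut.one_apply]
    simp only [selP_conj]
  have hg : g = SemidirectProduct.inl g.left * SemidirectProduct.inr g.right :=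
    (SemidirectProduct.inl_left_mul_inr_right g).symm
  have h3 : g * x * g⁻¹ = SemidirectProduct.inl g.left * (SemidirectProduct.inr g.right * x *
      (SemidirectProduct.inr g.right)⁻¹) * (SemidirectProduct.inl g.left)⁻¹ := by
    conv_lhs => rw [hg]
    group
  rw [h3, h1, h2]

theorem isIntegral_selE (lam : V →* ℂˣ) (l : stab φ lam) (x : V ⋊[φ] H) :
    IsIntegral ℤ (selE φ lam l x) := by
  classical
  apply isIntegral_sum
  intro μ _
  apply IsIntegral.mul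
  · split_ifs
    · exact isIntegral_one
    · exact isIntegral_zero
  · rw [← map_inv]
    exact isIntegral_linChar μ _

open Classical in
theorem sum_selE (lam : V →* ℂˣ) (l : stab φ lam) (μ : V →* ℂˣ) (k : H) :
    ∑ v : V, selE φ lam l ⟨v, k⟩ * ((μ v : ℂˣ) : ℂ) =
      if selP φ lam l μ k then (Nat.card V : ℂ) else 0 := by
  classical
  simp only [selE, Finset.sum_mul]
  rw [Finset.sum_comm]
  have h1 : ∀ μ' : V →* ℂˣ, ∑ v : V, (if selP φ lam l μ' k then (1 : ℂ) else 0) *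
      (((μ' v)⁻¹ : ℂˣ) : ℂ) * ((μ v : ℂˣ) : ℂ) =
      (if selP φ lam l μ' k then (1 : ℂ) else 0) * (if μ'⁻¹ * μ = 1 then (Nat.card V : ℂ) else 0)
      := by
    intro μ'
    rw [← sum_lin, Finset.mul_sum]
    refine Finset.sum_congr rfl fun v _ => ?_
    rw [mul_assoc]
    congr 1
  refine (Finset.sum_congr rfl fun μ' _ => h1 μ').trans ?_
  have hiff : ∀ μ' : V →* ℂˣ, μ'⁻¹ * μ = 1 ↔ μ' = μ := by
    intro μ'
    constructor
    · intro h
      ext v
      have h2 := congrArg (fun f : V →* ℂˣ => f v) h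
      have h3 : (μ' v)⁻¹ * μ v = 1 := h2
      rw [inv_mul_eq_one.mp h3]
    · rintro rfl
      ext v
      change (((μ' v)⁻¹ * μ' v : ℂˣ) : ℂ) = 1
      rw [inv_mul_cancel, Units.val_one]
  rw [Finset.sum_eq_single μ]
  · rw [if_pos ((hiff μ).mpr rfl)]
    split_ifs <;> simp
  · intro μ' _ hne
    rw [if_neg (fun h => hne ((hiff μ').mp h)), mul_zero]
  · simp

theorem selP_self (lam : V →* ℂˣ) (l k : stab φ lam) :
    selP φ lam l lam (k : H) ↔ IsConj k l := by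
  constructor
  · rintro ⟨t, ht, s, hs, hk⟩
    have ht' : t ∈ stab φ lam := by
      rw [← (stab φ lam).inv_mem_iff]
      exact ht
    refine IsConj.trans ?_ hs
    apply IsConj.symm
    rw [isConj_iff]
    exact ⟨⟨t, ht'⟩, Subtype.ext hk.symm⟩
  · intro h
    exact ⟨1, by simp, k, h, by simp⟩

variable [h𝔐 : 𝔐.IsPrime]

theorem red_card_ne_zero {ℓ : ℕ} [Fact ℓ.Prime] (hℓ : (ℓ : integralClosure ℤ ℂ) ∈ 𝔐) {n : ℕ}
    (hn : ¬ ℓ ∣ n) : red 𝔐 (n : ℂ) ≠ 0 := by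
  rw [red_of_integral 𝔐 (isIntegral_natCast n), Ne, Ideal.Quotient.eq_zero_iff_mem]
  intro h9
  have h9' : (n : integralClosure ℤ ℂ) ∈ 𝔐 := h9
  apply h𝔐.ne_top
  rw [Ideal.eq_top_iff_one]
  have h11 : Nat.Coprime ℓ n := (Fact.out : ℓ.Prime).coprime_iff_not_dvd.mpr hn
  have h12 : IsCoprime (ℓ : ℤ) (n : ℤ) := Nat.isCoprime_iff_coprime.mpr h11
  obtain ⟨s, t, hst⟩ := h12
  have h13 : (1 : integralClosure ℤ ℂ) = (s : integralClosure ℤ ℂ) * ℓ +
      (t : integralClosure ℤ ℂ) * n := by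
    exact_mod_cast congrArg (fun z : ℤ => (z : integralClosure ℤ ℂ)) hst.symm
  rw [h13]
  exact 𝔐.add_mem (𝔐.mul_mem_left _ hℓ) (𝔐.mul_mem_left _ h9')

theorem cen_indChar' (lam : V →* ℂˣ) {χ₀ : stab φ lam → ℂ} (hχ₀ : IsIrr χ₀)
    (g : V ⋊[φ] H) : cen 𝔐 (MonoidHom.id _) (indChar φ lam χ₀) g =
      red 𝔐 (wt χ₀ (fun k => Fl φ lam g ((stab φ lam).subtype k))) := by
  have h1 := red_wt_eq_pair 𝔐 (MonoidHom.id (stab φ lam)) hχ₀
    (fun x : stab φ lam => Fl φ lam g x) (fun a x => Fl_class lam g a x)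
    (fun x => isIntegral_Fl lam g x)
  rw [cen_indChar 𝔐 lam hχ₀, ← h1]
  rfl

theorem pair_selE_self {Y : Type*} [Group Y] [Fintype Y] (lam : V →* ℂˣ) (i : Y →* stab φ lam)
    {ψ : Y → ℂ} (hψ : IsIrr ψ) (l : stab φ lam) :
    pair 𝔐 (selE φ lam l) (fun g => red 𝔐 (wt ψ (fun y => Fl φ lam g (i y)))) =
      red 𝔐 (Nat.card V) * cen 𝔐 i ψ l := by
  classical
  have h1 := pair_Fl 𝔐 lam ((stab φ lam).subtype.comp i) (fun y => (i y).2) hψ (selE φ lam l)
    (fun g x => selE_class lam l g x) (fun x => isIntegral_selE lam l x)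
  have h2 : (fun y => ∑ v : V, selE φ lam l ⟨v, ((stab φ lam).subtype.comp i) y⟩ *
      ((lam v : ℂˣ) : ℂ)) = fun y => (Nat.card V : ℂ) * conjInd (i y) l := by
    ext y
    rw [sum_selE]
    have h3 := selP_self lam l (i y)
    rw [conjInd]
    by_cases h : IsConj (i y) l
    · rw [if_pos h, mul_one]
      exact if_pos (h3.mpr h)
    · rw [if_neg h, mul_zero]
      exact if_neg (fun h4 => h (h3.mp h4))
  rw [h2, wt_smul, red_mul 𝔐 (isIntegral_natCast _) (isIntegral_wt_conj i hψ l)] at h1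
  exact h1

theorem iff_cen {ℓ : ℕ} [Fact ℓ.Prime] (hℓ : (ℓ : integralClosure ℤ ℂ) ∈ 𝔐)
    (hV : ¬ ℓ ∣ Nat.card V) {Y : Type*} [Group Y] [Fintype Y] (lam : V →* ℂˣ)
    (i : Y →* stab φ lam) {ψ : Y → ℂ} (hψ : IsIrr ψ) {χ₀ : stab φ lam → ℂ} (hχ₀ : IsIrr χ₀) :
    (∀ g, red 𝔐 (wt ψ (fun y => Fl φ lam g (i y))) =
      cen 𝔐 (MonoidHom.id _) (indChar φ lam χ₀) g) ↔
      ∀ l, cen 𝔐 i ψ l = cen 𝔐 (MonoidHom.id _) χ₀ l := by
  constructor
  · intro h l
    have h1 := pair_selE_self 𝔐 lam i hψ l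
    have h2 := pair_selE_self 𝔐 lam (MonoidHom.id (stab φ lam)) hχ₀ l
    have h3 : (fun g => red 𝔐 (wt ψ (fun y => Fl φ lam g (i y)))) =
        fun g => red 𝔐 (wt χ₀ (fun y => Fl φ lam g (MonoidHom.id (stab φ lam) y))) := by
      ext g
      rw [h, cen_indChar' 𝔐 lam hχ₀]
      rfl
    rw [h3, h2] at h1
    exact (mul_left_cancel₀ (red_card_ne_zero 𝔐 hℓ hV) h1).symm
  · intro h g
    have h1 := red_wt_eq_pair 𝔐 i hψ (fun x : stab φ lam => Fl φ lam g x)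
      (fun a x => Fl_class lam g a x) (fun x => isIntegral_Fl lam g x)
    have h2 : cen 𝔐 i ψ = cen 𝔐 (MonoidHom.id _) χ₀ := funext h
    rw [h1, h2, cen_indChar 𝔐 lam hχ₀]

theorem exists_of_eq {ℓ : ℕ} [Fact ℓ.Prime] (hℓ : (ℓ : integralClosure ℤ ℂ) ∈ 𝔐)
    (hV : ¬ ℓ ∣ Nat.card V) {Y : Type*} [Group Y] [Fintype Y] (lam μ : V →* ℂˣ)
    (i : Y →* H) (hi : ∀ y, i y ∈ stab φ μ) {ψ : Y → ℂ} (hψ : IsIrr ψ)
    {χ₀ : stab φ lam → ℂ} (hχ₀ : IsIrr χ₀)
    (h : ∀ g, red 𝔐 (wt ψ (fun y => Fl φ μ g (i y))) =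
      cen 𝔐 (MonoidHom.id _) (indChar φ lam χ₀) g) : ∃ t : H, ∀ a, lam (φ t⁻¹ a) = μ a := by
  classical
  by_contra hcon
  have h1 := pair_selE_self 𝔐 lam (MonoidHom.id (stab φ lam)) hχ₀ 1
  have h2 := pair_Fl 𝔐 μ i hi hψ (selE φ lam 1)
    (fun g x => selE_class lam 1 g x) (fun x => isIntegral_selE lam 1 x)
  have h3 : (fun g => red 𝔐 (wt ψ (fun y => Fl φ μ g (i y)))) =
      fun g => red 𝔐 (wt χ₀ (fun y => Fl φ lam g (MonoidHom.id (stab φ lam) y))) := by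
    ext g
    rw [h, cen_indChar' 𝔐 lam hχ₀]
    rfl
  rw [h3, h1] at h2
  have h4 : (fun y => ∑ v : V, selE φ lam 1 ⟨v, i y⟩ * ((μ v : ℂˣ) : ℂ)) = fun _ => 0 := by
    ext y
    rw [sum_selE, if_neg]
    rintro ⟨t, ht, _⟩
    exact hcon ⟨t, ht⟩
  have h5 : wt ψ (fun _ => (0 : ℂ)) = 0 := by simp [wt]
  have h6 : cen 𝔐 (MonoidHom.id _) χ₀ 1 = 1 := by
    rw [cen, ← red_one 𝔐, wt]
    congr 1
    rw [div_eq_one_iff_eq hχ₀.one_ne_zero, Finset.sum_eq_single (1 : stab φ lam)]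
    · rw [MonoidHom.id_apply, conjInd_of (IsConj.refl _), one_mul]
    · intro b _ hb
      rw [MonoidHom.id_apply, conjInd_of_not, zero_mul]
      intro hc
      exact hb (isConj_one_left.mp hc)
    · simp
  rw [h4, h5, red_zero, h6, mul_one] at h2
  exact red_card_ne_zero 𝔐 hℓ hV h2

end Descent

end Pool.Agent.Lib_helper13


end

section

set_option linter.unusedSectionVars false

/-! The descent theorem. -/

namespace Pool.Agent.Lib_helper13

open Representation Dade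

section Descent2

variable {V H : Type*} [CommGroup V] [Fintype V] [Group H] [Fintype H] {φ : H →* MulAut V}
variable (𝔐 : Ideal (integralClosure ℤ ℂ))

open Classical in
theorem inner_eq [h𝔐 : 𝔐.IsPrime] (ℓ d : ℕ) {Z : Subgroup H} (hZ : ∀ z ∈ Z, ∀ v, φ z v = v)
    (ω : V ⋊[φ] H → (integralClosure ℤ ℂ) ⧸ 𝔐) (lam : V →* ℂˣ) :
    ∑ τ ∈ Ch ℓ (Z.subgroupOf (stab φ lam)),
        (-1 : ℚ) ^ τ.card * (Nat.card (stb τ) *
          cntF 𝔐 ℓ d (fun g (k : stb τ) => Fl φ lam g ((k : stab φ lam) : H)) ω) =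
      ∑ τ ∈ Ch ℓ Z, if ∀ D ∈ τ, D ≤ stab φ lam then
        (-1 : ℚ) ^ τ.card * term 𝔐 ℓ d φ ω τ lam else 0 := by
  rw [← Finset.sum_filter]
  have hZle : Z ≤ stab φ lam := by
    intro z hz v
    rw [hZ z hz]
  have h2 : (Z.subgroupOf (stab φ lam)).map (stab φ lam).subtype = Z := by
    rw [Subgroup.subgroupOf_map_subtype, inf_eq_left.mpr hZle]
  have h3 := sum_Ch_range (i := (stab φ lam).subtype) Subtype.val_injective ℓ
    (Z.subgroupOf (stab φ lam)) (fun τ => (-1) ^ τ.card * term 𝔐 ℓ d φ ω τ lam)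
  rw [h2, Subgroup.range_subtype] at h3
  rw [h3]
  refine Finset.sum_congr rfl fun τ _ => ?_
  rw [term_mapCh, card_mapCh Subtype.val_injective]

theorem Fl_conj {lam μ : V →* ℂˣ} {t : H} (ht : ∀ a, lam (φ t⁻¹ a) = μ a) (g : V ⋊[φ] H)
    (k : H) : Fl φ μ g (t * k * t⁻¹) = Fl φ lam g k := by
  rw [Fl, Fl]
  symm
  refine Fintype.sum_equiv (φ t).toEquiv _ _ ?_
  intro v
  change _ = conjInd (⟨φ t v, t * k * t⁻¹⟩ : V ⋊[φ] H) g * ((μ (φ t v) : ℂˣ) : ℂ)
  rw [← conj_inr, conjInd_conj, ← ht, ← MulAut.mul_apply, ← map_mul, inv_mul_cancel, map_one,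
    MulAut.one_apply]

theorem stab_conj {lam μ : V →* ℂˣ} {t : H} (ht : ∀ a, lam (φ t⁻¹ a) = μ a) :
    stab φ μ = (stab φ lam).map (MulAut.conj t).toMonoidHom := by
  ext k
  constructor
  · intro hk
    refine ⟨t⁻¹ * k * t, ?_, ?_⟩
    · intro a
      have h1 := hk (φ t a)
      rw [← ht, ← ht, ← MulAut.mul_apply, ← MulAut.mul_apply, ← MulAut.mul_apply, ← map_mul,
        ← map_mul, ← map_mul] at h1
      rw [inv_mul_cancel, map_one, MulAut.one_apply] at h1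
      exact h1
    · change t * (t⁻¹ * k * t) * t⁻¹ = k
      group
  · rintro ⟨s, hs, rfl⟩ a
    change μ (φ (t * s * t⁻¹) a) = μ a
    rw [← ht, ← ht, ← MulAut.mul_apply, ← map_mul]
    have h1 : t⁻¹ * (t * s * t⁻¹) = s * t⁻¹ := by group
    rw [h1, map_mul, MulAut.mul_apply]
    exact hs _

theorem term_conj (ℓ d : ℕ) (ω : V ⋊[φ] H → (integralClosure ℤ ℂ) ⧸ 𝔐) {lam μ : V →* ℂˣ}
    {t : H} (ht : ∀ a, lam (φ t⁻¹ a) = μ a) (τ : Finset (Subgroup H)) :
    term 𝔐 ℓ d φ ω (mapCh (MulAut.conj t).toMonoidHom τ) μ = term 𝔐 ℓ d φ ω τ lam := by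
  have h1 : (stb τ ⊓ stab φ lam).map (MulAut.conj t).toMonoidHom =
      stb (mapCh (MulAut.conj t).toMonoidHom τ) ⊓ stab φ μ := by
    rw [Subgroup.map_inf_eq _ _ _ (MulAut.conj t).injective, stb_mapCh_equiv, stab_conj ht]
  let e : (stb τ ⊓ stab φ lam : Subgroup H) ≃*
      (stb (mapCh (MulAut.conj t).toMonoidHom τ) ⊓ stab φ μ : Subgroup H) :=
    ((stb τ ⊓ stab φ lam).equivMapOfInjective _ (MulAut.conj t).injective).trans
      (MulEquiv.subgroupCongr h1)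
  rw [term, term, Nat.card_congr e.toEquiv]
  congr 2
  symm
  apply cntF_equiv 𝔐 ℓ d e
  intro g y
  exact (Fl_conj ht g (y : H)).symm

open Classical in
theorem inner_conj (ℓ d : ℕ) {Z : Subgroup H} [hZn : Z.Normal]
    (ω : V ⋊[φ] H → (integralClosure ℤ ℂ) ⧸ 𝔐) {lam μ : V →* ℂˣ}
    {t : H} (ht : ∀ a, lam (φ t⁻¹ a) = μ a) :
    (∑ τ ∈ Ch ℓ Z, if ∀ D ∈ τ, D ≤ stab φ μ then
        (-1 : ℚ) ^ τ.card * term 𝔐 ℓ d φ ω τ μ else 0) =
      ∑ τ ∈ Ch ℓ Z, if ∀ D ∈ τ, D ≤ stab φ lam then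
        (-1 : ℚ) ^ τ.card * term 𝔐 ℓ d φ ω τ lam else 0 := by
  have h1 := sum_Ch_equiv (MulAut.conj t) ℓ Z (fun τ => if ∀ D ∈ τ, D ≤ stab φ μ then
        (-1 : ℚ) ^ τ.card * term 𝔐 ℓ d φ ω τ μ else 0)
  have h2 : Z.map (MulAut.conj t).toMonoidHom = Z := by
    have := Subgroup.mem_normalizer_iff_map_conj_eq.mp
      (show t ∈ Subgroup.normalizer (Z : Set H) by
        rw [Subgroup.normalizer_eq_top_iff.mpr inferInstance]
        trivial)
    exact this
  rw [h2] at h1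
  rw [h1]
  refine Finset.sum_congr rfl fun τ _ => ?_
  rw [term_conj 𝔐 ℓ d ω ht, card_mapCh (MulAut.conj t).injective]
  have h3 : (∀ D ∈ mapCh (MulAut.conj t).toMonoidHom τ, D ≤ stab φ μ) ↔
      ∀ D ∈ τ, D ≤ stab φ lam := by
    rw [stab_conj ht]
    constructor
    · intro h D hD
      have h4 := h _ (mem_mapCh.mpr ⟨D, hD, rfl⟩)
      exact (Subgroup.map_le_map_iff_of_injective (MulAut.conj t).injective).mp h4
    · intro h D' hD'
      obtain ⟨D, hD, rfl⟩ := mem_mapCh.mp hD'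
      exact Subgroup.map_mono (h D hD)
  simp only [h3]

variable [h𝔐 : 𝔐.IsPrime]

theorem KK_descent {ℓ : ℕ} [Fact ℓ.Prime] (hℓ : (ℓ : integralClosure ℤ ℂ) ∈ 𝔐) (d : ℕ)
    (hV : ¬ ℓ ∣ Nat.card V) {Z : Subgroup H} [hZn : Z.Normal] (hZ : ∀ z ∈ Z, ∀ v, φ z v = v)
    (lam : V →* ℂˣ) {χ₀ : stab φ lam → ℂ} (hχ₀ : IsIrr χ₀)
    (h0 : KK 𝔐 ℓ d (Z.map (SemidirectProduct.inr : H →* V ⋊[φ] H))
      (cen 𝔐 (MonoidHom.id _) (indChar φ lam χ₀)) = 0) :
    KK 𝔐 ℓ d (Z.subgroupOf (stab φ lam)) (cen 𝔐 (MonoidHom.id _) χ₀) = 0 := by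
  classical
  set ω := cen 𝔐 (MonoidHom.id _) (indChar φ lam χ₀) with hω
  rw [KK_sdp 𝔐 hℓ d hV hZ] at h0
  have hVc : (Nat.card V : ℚ) ≠ 0 := by
    have : Nat.card V ≠ 0 := Nat.card_pos.ne'
    exact_mod_cast this
  have h1 := (mul_eq_zero.mp h0).resolve_left hVc
  -- the contribution of `lam`
  have hself : ∑ τ ∈ Ch ℓ (Z.subgroupOf (stab φ lam)),
        (-1 : ℚ) ^ τ.card * (Nat.card (stb τ) *
          cntF 𝔐 ℓ d (fun g (k : stb τ) => Fl φ lam g ((k : stab φ lam) : H)) ω) =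
      KK 𝔐 ℓ d (Z.subgroupOf (stab φ lam)) (cen 𝔐 (MonoidHom.id _) χ₀) := by
    rw [KK]
    refine Finset.sum_congr rfl fun τ _ => ?_
    congr 3
    rw [cntF, cnt]
    apply Nat.card_congr
    apply Equiv.subtypeEquivRight
    intro ψ
    constructor
    · rintro ⟨h2, h3, h4⟩
      exact ⟨h2, h3, (iff_cen 𝔐 hℓ hV lam (stb τ).subtype h2 hχ₀).mp h4⟩
    · rintro ⟨h2, h3, h4⟩
      exact ⟨h2, h3, (iff_cen 𝔐 hℓ hV lam (stb τ).subtype h2 hχ₀).mpr h4⟩
  -- the contribution of the other characters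
  have hoth : ∀ μ : V →* ℂˣ, ∑ τ ∈ Ch ℓ (Z.subgroupOf (stab φ μ)),
        (-1 : ℚ) ^ τ.card * (Nat.card (stb τ) *
          cntF 𝔐 ℓ d (fun g (k : stb τ) => Fl φ μ g ((k : stab φ μ) : H)) ω) =
      (if ∃ t : H, ∀ a, lam (φ t⁻¹ a) = μ a then (1 : ℚ) else 0) *
        KK 𝔐 ℓ d (Z.subgroupOf (stab φ lam)) (cen 𝔐 (MonoidHom.id _) χ₀) := by
    intro μ
    split_ifs with hμ
    · obtain ⟨t, ht⟩ := hμ
      rw [one_mul, ← hself, inner_eq 𝔐 ℓ d hZ, inner_eq 𝔐 ℓ d hZ, inner_conj 𝔐 ℓ d ω ht]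
    · rw [zero_mul]
      apply Finset.sum_eq_zero
      intro τ _
      have h2 : cntF 𝔐 ℓ d (fun g (k : stb τ) => Fl φ μ g ((k : stab φ μ) : H)) ω = 0 := by
        rw [cntF, Nat.card_eq_zero]
        left
        constructor
        rintro ⟨ψ, h3, h4, h5⟩
        exact hμ (exists_of_eq 𝔐 hℓ hV lam μ ((stab φ μ).subtype.comp (stb τ).subtype)
          (fun y => (y : stab φ μ).2) h3 hχ₀ h5)
      rw [h2]
      simp
  simp only [hoth] at h1
  rw [← Finset.sum_mul] at h1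
  rcases mul_eq_zero.mp h1 with h2 | h2
  · exfalso
    have h3 : (0 : ℚ) < ∑ μ : V →* ℂˣ,
        (if ∃ t : H, ∀ a, lam (φ t⁻¹ a) = μ a then (1 : ℚ) else 0) := by
      apply Finset.sum_pos'
      · intro μ _
        split_ifs <;> norm_num
      · refine ⟨lam, Finset.mem_univ _, ?_⟩
        rw [if_pos ⟨1, by simp⟩]
        norm_num
    rw [h2] at h3
    exact lt_irrefl _ h3
  · exact h2

end Descent2

/-- Dade's conjecture descends to the stabilizers of characters of `V`. -/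
theorem dadeHolds_descent {V H : Type*} [CommGroup V] [Finite V] [Group H] [Finite H]
    {φ : H →* MulAut V} {ℓ : ℕ} [Fact ℓ.Prime] (hV : ¬ ℓ ∣ Nat.card V) {Z : Subgroup H}
    [hZn : Z.Normal] (hZ : ∀ z ∈ Z, ∀ v, φ z v = v) (lam : V →* ℂˣ)
    (hcX : pCore ℓ (V ⋊[φ] H) = Z.map SemidirectProduct.inr)
    (hcL : pCore ℓ (stab φ lam) = Z.subgroupOf (stab φ lam))
    (hD : DadeHolds ℓ (V ⋊[φ] H)) : DadeHolds ℓ (stab φ lam) := by
  have hVf : Fintype V := Fintype.ofFinite V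
  have hHf : Fintype H := Fintype.ofFinite H
  rintro 𝔐 h𝔐 hℓ χ hχ ⟨χ', e, hχ', hb, hd, he⟩ d
  have := h𝔐.isPrime
  have hχi : IsIrr χ := hχ
  have hχi' : IsIrr χ' := hχ'
  have hcen := (sameBlock_iff 𝔐 hχi' hχi).mp hb
  have hZle : Z ≤ stab φ lam := by
    intro z hz v
    rw [hZ z hz]
  have hXi := isIrr_indChar (φ := φ) lam hχi
  have hXi' := isIrr_indChar (φ := φ) lam hχi'
  have hcard : Nat.card (pCore ℓ (V ⋊[φ] H)) = Nat.card (pCore ℓ (stab φ lam)) := by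
    rw [hcX, hcL]
    rw [Nat.card_congr (Subgroup.subgroupOfEquivOfLe hZle).toEquiv]
    exact (Nat.card_congr (Z.equivMapOfInjective _ SemidirectProduct.inr_injective).toEquiv).symm
  have h1 := hD 𝔐 h𝔐 hℓ (indChar φ lam χ) hXi ⟨indChar φ lam χ', e, hXi', by
    rw [sameBlock_iff 𝔐 hXi' hXi]
    ext g
    rw [cen_indChar 𝔐 lam hχi', cen_indChar 𝔐 lam hχi, hcen],
    (hasDefect_indChar lam hV hχi' e).mpr hd, by rwa [hcard]⟩ d
  have h2 := dadeSum_eq 𝔐 ℓ d hXi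
  rw [h1, Int.cast_zero, mul_zero, hcX] at h2
  have h3 := KK_descent 𝔐 hℓ d hV hZ lam hχi h2.symm
  rw [← hcL, ← dadeSum_eq 𝔐 ℓ d hχi] at h3
  have h4 : (Nat.card (stab φ lam) : ℚ) ≠ 0 := by
    have : Nat.card (stab φ lam) ≠ 0 := Nat.card_pos.ne'
    exact_mod_cast this
  rcases mul_eq_zero.mp h3 with h5 | h5
  · exact absurd h5 h4
  · exact_mod_cast h5

/-- Dade's conjecture is invariant under isomorphisms. -/
theorem dadeHolds_equiv {G G' : Type*} [Group G] [Finite G] [Group G'] [Finite G'] {ℓ : ℕ}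
    (e : G ≃* G') (h : DadeHolds ℓ G) : DadeHolds ℓ G' := by
  have hGf : Fintype G := Fintype.ofFinite G
  have hGf' : Fintype G' := Fintype.ofFinite G'
  have hcore : (pCore ℓ G).map e.toMonoidHom = pCore ℓ G' := by
    apply le_antisymm
    · rw [Subgroup.map_le_iff_le_comap]
      apply sSup_le
      rintro N ⟨hN1, hN2⟩
      rw [← Subgroup.map_le_iff_le_comap]
      apply le_sSup
      exact ⟨hN1.map _ e.surjective, hN2.map _⟩
    · apply sSup_le
      rintro N ⟨hN1, hN2⟩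
      have h1 : N.comap e.toMonoidHom ≤ pCore ℓ G := by
        apply le_sSup
        refine ⟨hN1.comap _, hN2.comap_of_injective _ e.injective⟩
      have h2 := Subgroup.map_mono (f := e.toMonoidHom) h1
      rwa [Subgroup.map_comap_eq_self_of_surjective e.surjective] at h2
  rintro 𝔐 h𝔐 hℓ χ hχ ⟨χ', k, hχ', hb, hd, he⟩ d
  have hχi : IsIrr χ := hχ
  have hχi' : IsIrr χ' := hχ'
  have hcen := (sameBlock_iff 𝔐 hχi' hχi).mp hb
  have hpull : ∀ χ : G' → ℂ, ∀ g, cen 𝔐 (MonoidHom.id G) (fun x => χ (e x)) g =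
      cen 𝔐 (MonoidHom.id G') χ (e g) := by
    intro χ g
    have h6 := cen_comp_equiv 𝔐 e (MonoidHom.id G') χ
    rw [← h6, cen, cen]
    congr 2
    ext y
    apply conjInd_congr
    constructor
    · intro h
      exact (e : G →* G').map_isConj h
    · intro h
      have := (e.symm : G' →* G).map_isConj h
      simpa using this
  have h1 : IsIrr (fun x => χ (e x)) := hχi.comp_mulEquiv e
  have h1' : IsIrr (fun x => χ' (e x)) := hχi'.comp_mulEquiv e
  have h2 := h 𝔐 h𝔐 hℓ (fun x => χ (e x)) h1 ⟨fun x => χ' (e x), k, h1', by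
    rw [sameBlock_iff 𝔐 h1' h1]
    ext g
    rw [hpull, hpull, hcen], (hasDefect_comp_equiv e).mpr hd, by
    rw [← hcore, ← Nat.card_congr ((pCore ℓ G).equivMapOfInjective _ e.injective).toEquiv] at he
    exact he⟩ d
  have h3 := dadeSum_eq 𝔐 ℓ d h1
  have h4 := dadeSum_eq 𝔐 ℓ d hχi
  rw [← hcore, KK_equiv] at h4
  have h5 : (fun g => cen 𝔐 (MonoidHom.id G') χ (e g)) =
      cen 𝔐 (MonoidHom.id G) (fun x => χ (e x)) := by
    ext g
    rw [hpull]
  rw [h5, ← h3, h2, Int.cast_zero, mul_zero] at h4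
  have h6 : (Nat.card G' : ℚ) ≠ 0 := by
    have : Nat.card G' ≠ 0 := Nat.card_pos.ne'
    exact_mod_cast this
  rcases mul_eq_zero.mp h4 with h7 | h7
  · exact absurd h7 h6
  · exact_mod_cast h7

end Pool.Agent.Lib_helper13


end
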