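import Mathlib
import Pool.Agent.DAM.C01

/-! Parts: Lib_helper13.Toggle, Lib_helper13.JoinSum, Lib_helper13.Outside -/

section

set_option linter.unusedSectionVars false

/-! Cancellation in alternating sums over chains, and chains of subgroups of powers of a group. -/

namespace Pool.Agent.Lib_helper13

section Toggle

theorem sum_toggle {α : Type*} [DecidableEq α] (C : Finset (Finset α))
    (E : Finset α → α) (F : Finset α → ℚ)
    (h1 : ∀ σ ∈ C, E σ ∉ σ →
      insert (E σ) σ ∈ C ∧ E (insert (E σ) σ) = E σ ∧ F (insert (E σ) σ) = F σ)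
    (h2 : ∀ σ ∈ C, E σ ∈ σ → σ.erase (E σ) ∈ C ∧ E (σ.erase (E σ)) = E σ) :
    ∑ σ ∈ C, (-1 : ℚ) ^ σ.card * F σ = 0 := by
  have h3 : ∀ σ ∈ C, E σ ∈ σ → F (σ.erase (E σ)) = F σ := by
    intro σ hσ h
    obtain ⟨h4, h5⟩ := h2 σ hσ h
    have h6 := (h1 _ h4 (by rw [h5]; exact Finset.notMem_erase _ _)).2.2
    rw [h5, Finset.insert_erase h] at h6
    exact h6.symm
  apply Finset.sum_involution (fun σ _ => if E σ ∈ σ then σ.erase (E σ) else insert (E σ) σ)
  · intro σ hσ
    split_ifs with h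
    · rw [h3 σ hσ h, Finset.card_erase_of_mem h]
      have h4 : 0 < σ.card := Finset.card_pos.mpr ⟨_, h⟩
      obtain ⟨n, hn⟩ : ∃ n, σ.card = n + 1 := ⟨σ.card - 1, by omega⟩
      rw [hn, Nat.add_sub_cancel, pow_succ]
      ring
    · rw [(h1 σ hσ h).2.2, Finset.card_insert_of_notMem h, pow_succ]
      ring
  · intro σ hσ _
    split_ifs with h
    · intro h4
      have h5 := Finset.notMem_erase (E σ) σ
      rw [h4] at h5
      exact h5 h
    · intro h4
      apply h
      have h5 := Finset.mem_insert_self (E σ) σ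
      rw [h4] at h5
      exact h5
  · intro σ hσ
    split_ifs with h
    · exact (h2 σ hσ h).1
    · exact (h1 σ hσ h).1
  · intro σ hσ
    by_cases h : E σ ∈ σ
    · simp only [h, if_true]
      rw [(h2 σ hσ h).2, if_neg (Finset.notMem_erase _ _), Finset.insert_erase h]
    · simp only [h, if_false]
      rw [(h1 σ hσ h).2.1, if_pos (Finset.mem_insert_self _ _), Finset.erase_insert h]

/-- The supremum of a nonempty chain is its greatest member. -/
theorem sup_mem_of_chain {G : Type*} [Group G] {s : Finset (Subgroup G)}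
    (h : ∀ D ∈ s, ∀ E ∈ s, D ≤ E ∨ E ≤ D) (hne : s.Nonempty) : s.sup id ∈ s := by
  obtain ⟨T, hT⟩ := s.exists_maximal hne
  have h1 : ∀ D ∈ s, D ≤ T := by
    intro D hD
    rcases h D hD T hT.1 with h1 | h1
    · exact h1
    · exact hT.2 hD h1
  have : s.sup id = T := by
    apply le_antisymm
    · rw [Finset.sup_le_iff]
      exact h1
    · exact Finset.le_sup (f := id) hT.1
  rw [this]
  exact hT.1

end Toggle

section PiSub

variable {ι G : Type*} [Group G]

/-- The projection of a subgroup of a power of `G` to a coordinate. -/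
def prj (j : ι) (D : Subgroup (ι → G)) : Subgroup G := D.map (Pi.evalMonoidHom (fun _ => G) j)

/-- The product of a family of subgroups. -/
def pK (K : ι → Subgroup G) : Subgroup (ι → G) := Subgroup.pi Set.univ K

theorem mem_pK {K : ι → Subgroup G} {x : ι → G} : x ∈ pK K ↔ ∀ j, x j ∈ K j := by
  rw [pK, Subgroup.mem_pi]
  simp

theorem mem_prj {j : ι} {D : Subgroup (ι → G)} {g : G} : g ∈ prj j D ↔ ∃ x ∈ D, x j = g := by
  rw [prj, Subgroup.mem_map]
  rfl

theorem prj_pK (K : ι → Subgroup G) (j : ι) : prj j (pK K) = K j := by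
  classical
  ext g
  rw [mem_prj]
  constructor
  · rintro ⟨x, hx, rfl⟩
    exact mem_pK.mp hx j
  · intro hg
    refine ⟨Pi.mulSingle j g, ?_, by simp⟩
    rw [mem_pK]
    intro k
    by_cases hk : k = j
    · subst hk
      simpa using hg
    · rw [Pi.mulSingle_eq_of_ne hk]
      exact one_mem _

theorem pK_le_pK {K L : ι → Subgroup G} : pK K ≤ pK L ↔ ∀ j, K j ≤ L j := by
  constructor
  · intro h j
    rw [← prj_pK K, ← prj_pK L]
    exact Subgroup.map_mono h
  · intro h x hx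
    rw [mem_pK] at hx ⊢
    exact fun j => h j (hx j)

theorem pK_injective : Function.Injective (pK : (ι → Subgroup G) → Subgroup (ι → G)) := by
  intro K L h
  ext1 j
  rw [← prj_pK K, h, prj_pK]

theorem pK_bot : pK (fun _ => ⊥ : ι → Subgroup G) = ⊥ := by
  ext x
  rw [mem_pK, Subgroup.mem_bot]
  simp only [Subgroup.mem_bot]
  exact funext_iff.symm

/-- The product closure. -/
def cl (D : Subgroup (ι → G)) : Subgroup (ι → G) := pK (fun j => prj j D)

theorem le_cl (D : Subgroup (ι → G)) : D ≤ cl D := by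
  intro x hx
  rw [cl, mem_pK]
  exact fun j => mem_prj.mpr ⟨x, hx, rfl⟩

theorem prj_cl (D : Subgroup (ι → G)) (j : ι) : prj j (cl D) = prj j D := prj_pK _ j

theorem cl_cl (D : Subgroup (ι → G)) : cl (cl D) = cl D := by
  rw [cl, cl]
  congr 1
  ext1 j
  exact prj_pK _ j

theorem cl_pK (K : ι → Subgroup G) : cl (pK K) = pK K := by
  rw [cl]
  congr 1
  ext1 j
  exact prj_pK _ j

theorem cl_mono {D E : Subgroup (ι → G)} (h : D ≤ E) : cl D ≤ cl E := by
  rw [cl, cl, pK_le_pK]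
  intro j
  exact Subgroup.map_mono h

theorem isPGroup_pK [Finite ι] {ℓ : ℕ} {K : ι → Subgroup G} (h : ∀ j, IsPGroup ℓ (K j)) :
    IsPGroup ℓ (pK K) := by
  classical
  have hf : Fintype ι := Fintype.ofFinite ι
  rintro ⟨x, hx⟩
  rw [mem_pK] at hx
  choose k hk using fun j => h j ⟨x j, hx j⟩
  refine ⟨∑ j, k j, ?_⟩
  apply Subtype.ext
  ext j
  change (x ^ ℓ ^ (∑ j, k j)) j = 1
  rw [Pi.pow_apply]
  have h1 : (x j) ^ ℓ ^ (k j) = 1 := congrArg Subtype.val (hk j)
  obtain ⟨m, hm⟩ := pow_dvd_pow ℓ (Finset.single_le_sum (f := k) (fun _ _ => Nat.zero_le _)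
    (Finset.mem_univ j))
  rw [hm, pow_mul, h1, one_pow]

theorem isPGroup_prj {ℓ : ℕ} {D : Subgroup (ι → G)} (h : IsPGroup ℓ D) (j : ι) :
    IsPGroup ℓ (prj j D) := h.map _

/-- Automorphisms of the power which permute the coordinates. -/
def wAct (s : Equiv.Perm ι) (n : ι → G) : (ι → G) →* (ι → G) where
  toFun x j := n j * x (s j) * (n j)⁻¹
  map_one' := by
    ext j
    simp
  map_mul' x y := by
    ext j
    simp only [Pi.mul_apply]
    group

theorem wAct_apply (s : Equiv.Perm ι) (n x : ι → G) (j : ι) :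
    wAct s n x j = n j * x (s j) * (n j)⁻¹ := rfl

theorem wAct_conj (n : ι → G) : wAct 1 n = (MulAut.conj n).toMonoidHom := by
  ext x j
  rfl

theorem prj_wAct (s : Equiv.Perm ι) (n : ι → G) (D : Subgroup (ι → G)) (j : ι) :
    prj j (D.map (wAct s n)) = (prj (s j) D).map (MulAut.conj (n j)).toMonoidHom := by
  rw [prj, prj, Subgroup.map_map, Subgroup.map_map]
  rfl

theorem pK_wAct (s : Equiv.Perm ι) (n : ι → G) (K : ι → Subgroup G) :
    (pK K).map (wAct s n) = pK (fun j => (K (s j)).map (MulAut.conj (n j)).toMonoidHom) := by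
  ext x
  rw [Subgroup.mem_map, mem_pK]
  constructor
  · rintro ⟨y, hy, rfl⟩ j
    rw [mem_pK] at hy
    exact ⟨y (s j), hy (s j), rfl⟩
  · intro h
    choose y hy hy' using h
    refine ⟨fun k => y (s.symm k), ?_, ?_⟩
    · rw [mem_pK]
      intro k
      have := hy (s.symm k)
      rwa [Equiv.apply_symm_apply] at this
    · ext j
      rw [wAct_apply, Equiv.symm_apply_apply]
      exact hy' j

theorem cl_wAct (s : Equiv.Perm ι) (n : ι → G) (D : Subgroup (ι → G)) :
    cl (D.map (wAct s n)) = (cl D).map (wAct s n) := by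
  rw [cl, cl, pK_wAct]
  congr 1
  ext1 j
  exact prj_wAct s n D j

/-- Closure does not change stabilizers. -/
theorem cl_fixed {s : Equiv.Perm ι} {n : ι → G} {D : Subgroup (ι → G)}
    (h : D.map (wAct s n) = D) : (cl D).map (wAct s n) = cl D := by
  rw [← cl_wAct, h]

theorem stb_insert_cl [DecidableEq (Subgroup (ι → G))] {σ : Finset (Subgroup (ι → G))}
    {D : Subgroup (ι → G)} (hD : D ∈ σ) : stb (insert (cl D) σ) = stb σ := by
  ext g
  rw [mem_stb, mem_stb]
  constructor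
  · intro h E hE
    exact h E (Finset.mem_insert_of_mem hE)
  · intro h E hE
    rcases Finset.mem_insert.mp hE with rfl | hE
    · have h1 := h D hD
      rw [← wAct_conj] at h1 ⊢
      exact cl_fixed h1
    · exact h E hE

variable [Fintype ι] [DecidableEq ι] [Fintype G]

open Classical in
/-- Chains of product subgroups. -/
noncomputable def ClCh (ι : Type*) (G : Type*) [Group G] [Fintype ι] [DecidableEq ι] [Fintype G] (ℓ : ℕ) :
    Finset (Finset (Subgroup (ι → G))) :=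
  (Ch ℓ (⊥ : Subgroup (ι → G))).filter (fun σ => ∀ D ∈ σ, cl D = D)

theorem mem_ClCh {ℓ : ℕ} {σ : Finset (Subgroup (ι → G))} :
    σ ∈ ClCh ι G ℓ ↔ IsCh ℓ ⊥ σ ∧ ∀ D ∈ σ, cl D = D := by
  classical
  rw [ClCh, Finset.mem_filter, mem_Ch]

theorem sum_closed (ℓ : ℕ) (F : Finset (Subgroup (ι → G)) → ℚ)
    [DecidableEq (Subgroup (ι → G))]
    (hF : ∀ σ ∈ Ch ℓ (⊥ : Subgroup (ι → G)), ∀ D ∈ σ, F (insert (cl D) σ) = F σ) :
    ∑ σ ∈ Ch ℓ (⊥ : Subgroup (ι → G)), (-1 : ℚ) ^ σ.card * F σ =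
      ∑ σ ∈ ClCh ι G ℓ, (-1 : ℚ) ^ σ.card * F σ := by
  classical
  have hCl : ClCh ι G ℓ = (Ch ℓ (⊥ : Subgroup (ι → G))).filter (fun σ => ∀ D ∈ σ, cl D = D) := by
    ext σ
    rw [mem_ClCh, Finset.mem_filter, mem_Ch]
  rw [hCl, ← Finset.sum_filter_add_sum_filter_not (Ch ℓ (⊥ : Subgroup (ι → G)))
    (fun σ => ∀ D ∈ σ, cl D = D)]
  rw [add_eq_left]
  obtain ⟨C, hC⟩ : ∃ C : Finset (Finset (Subgroup (ι → G))),
      C = (Ch ℓ (⊥ : Subgroup (ι → G))).filter (fun σ => ¬ ∀ D ∈ σ, cl D = D) := ⟨_, rfl⟩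
  obtain ⟨T, hT⟩ : ∃ T : Finset (Subgroup (ι → G)) → Subgroup (ι → G),
      ∀ σ, T σ = (σ.filter (fun D => cl D ≠ D)).sup id := ⟨_, fun _ => rfl⟩
  rw [← hC]
  have hmem : ∀ σ ∈ C, T σ ∈ σ ∧ cl (T σ) ≠ T σ := by
    intro σ hσ
    rw [hC, Finset.mem_filter, mem_Ch] at hσ
    obtain ⟨h1, h2⟩ := hσ
    push Not at h2
    obtain ⟨D, hD, hD'⟩ := h2
    have h3 : T σ ∈ σ.filter (fun D => cl D ≠ D) := by
      rw [hT]
      apply sup_mem_of_chain
      · intro A hA B hB
        exact h1.total (Finset.mem_filter.mp hA).1 (Finset.mem_filter.mp hB).1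
      · exact ⟨D, Finset.mem_filter.mpr ⟨hD, hD'⟩⟩
    rw [Finset.mem_filter] at h3
    exact h3
  have hins : ∀ σ, T (insert (cl (T σ)) σ) = T σ := by
    intro σ
    rw [hT (insert (cl (T σ)) σ), Finset.filter_insert, if_neg, ← hT]
    rw [not_not]
    exact cl_cl _
  have hers : ∀ σ, T (σ.erase (cl (T σ))) = T σ := by
    intro σ
    rw [hT (σ.erase (cl (T σ))), Finset.filter_erase, Finset.erase_eq_of_notMem, ← hT]
    intro h
    exact (Finset.mem_filter.mp h).2 (cl_cl _)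
  apply sum_toggle C (fun σ => cl (T σ)) F
  · intro σ hσ hn
    obtain ⟨h1, h2⟩ := hmem σ hσ
    have hσ' := hσ
    rw [hC, Finset.mem_filter, mem_Ch] at hσ'
    refine ⟨?_, by rw [hins], hF σ (mem_Ch.mpr hσ'.1) _ h1⟩
    rw [hC, Finset.mem_filter, mem_Ch]
    refine ⟨hσ'.1.insert ?_ ?_ ?_, ?_⟩
    · exact isPGroup_pK fun j => isPGroup_prj (hσ'.1.1 _ h1).1 j
    · exact lt_of_lt_of_le (hσ'.1.1 _ h1).2 (le_cl _)
    · intro D hD
      by_cases hDT : D ≤ T σ
      · left
        exact hDT.trans (le_cl _)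
      · right
        have h3 : T σ ≤ D := (hσ'.1.total hD h1).resolve_left hDT
        have h4 : cl D = D := by
          by_contra h5
          apply hDT
          rw [hT]
          exact Finset.le_sup (f := id) (Finset.mem_filter.mpr ⟨hD, h5⟩)
        rw [← h4]
        exact cl_mono h3
    · push Not
      exact ⟨T σ, Finset.mem_insert_of_mem h1, h2⟩
  · intro σ hσ hn
    obtain ⟨h1, h2⟩ := hmem σ hσ
    have hσ' := hσ
    rw [hC, Finset.mem_filter, mem_Ch] at hσ'
    refine ⟨?_, by rw [hers]⟩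
    rw [hC, Finset.mem_filter, mem_Ch]
    refine ⟨hσ'.1.subset (Finset.erase_subset _ _), ?_⟩
    push Not
    exact ⟨T σ, Finset.mem_erase.mpr ⟨fun h => h2 h.symm, h1⟩, h2⟩

open Classical in
/-- The chains of coordinates of a chain. -/
noncomputable def comp (σ : Finset (Subgroup (ι → G))) (j : ι) : Finset (Subgroup G) :=
  (σ.image (prj j)).erase ⊥

theorem mem_comp {σ : Finset (Subgroup (ι → G))} {j : ι} {K : Subgroup G} :
    K ∈ comp σ j ↔ K ≠ ⊥ ∧ ∃ D ∈ σ, prj j D = K := by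
  classical
  rw [comp, Finset.mem_erase, Finset.mem_image]

theorem comp_isCh {ℓ : ℕ} {σ : Finset (Subgroup (ι → G))} (hσ : IsCh ℓ ⊥ σ) (j : ι) :
    IsCh ℓ ⊥ (comp σ j) := by
  constructor
  · intro K hK
    obtain ⟨h1, D, hD, rfl⟩ := mem_comp.mp hK
    exact ⟨isPGroup_prj (hσ.1 D hD).1 j, bot_lt_iff_ne_bot.mpr h1⟩
  · intro K hK L hL _
    obtain ⟨_, D, hD, rfl⟩ := mem_comp.mp (Finset.mem_coe.mp hK)
    obtain ⟨_, E, hE, rfl⟩ := mem_comp.mp (Finset.mem_coe.mp hL)
    rcases hσ.total hD hE with h | h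
    · exact Or.inl (Subgroup.map_mono h)
    · exact Or.inr (Subgroup.map_mono h)

theorem sup_chain_mem_or {ℓ : ℕ} {s : Finset (Subgroup G)} (h : IsCh ℓ ⊥ s) :
    s.sup id ∈ s ∨ (s = ∅ ∧ s.sup id = ⊥) := by
  rcases s.eq_empty_or_nonempty with rfl | hne
  · right
    simp
  · left
    exact sup_mem_of_chain (fun D hD E hE => h.total hD hE) hne

open Classical in
theorem sum_below (ℓ : ℕ) (p : ι → Finset (Subgroup G)) (hp : ∀ j, IsCh ℓ ⊥ (p j)) :
    ∑ σ ∈ (ClCh ι G ℓ).filter (fun σ => ∀ j, comp σ j ⊆ p j), (-1 : ℚ) ^ σ.card =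
      if ∀ j, p j = ∅ then 1 else 0 := by
  classical
  split_ifs with h
  · have : (ClCh ι G ℓ).filter (fun σ => ∀ j, comp σ j ⊆ p j) = {∅} := by
      ext σ
      rw [Finset.mem_filter, mem_ClCh, Finset.mem_singleton]
      constructor
      · rintro ⟨⟨h1, h2⟩, h3⟩
        by_contra hne
        obtain ⟨D, hD⟩ := Finset.nonempty_iff_ne_empty.mpr hne
        have h4 : D = ⊥ := by
          rw [← h2 D hD, cl, ← pK_bot]
          congr 1
          ext1 j
          by_contra h5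
          have h6 := h3 j (mem_comp.mpr ⟨h5, D, hD, rfl⟩)
          rw [h j] at h6
          exact Finset.notMem_empty _ h6
        exact (h1.1 D hD).2.ne' h4
      · rintro rfl
        refine ⟨⟨isCh_empty _ _, by simp⟩, ?_⟩
        intro j K hK
        obtain ⟨_, D, hD, _⟩ := mem_comp.mp hK
        simp at hD
    rw [this]
    simp
  · push Not at h
    obtain ⟨j₀, hj₀⟩ := h
    set E : Subgroup (ι → G) := pK (fun j => (p j).sup id) with hE
    have hsup : ∀ j, (p j).sup id ∈ p j ∨ (p j = ∅ ∧ (p j).sup id = ⊥) :=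
      fun j => sup_chain_mem_or (hp j)
    have hEp : IsPGroup ℓ E := by
      apply isPGroup_pK
      intro j
      rcases hsup j with h1 | h1
      · exact ((hp j).1 _ h1).1
      · rw [h1.2]
        exact IsPGroup.of_bot
    have hEne : ⊥ < E := by
      rw [bot_lt_iff_ne_bot, hE, ← pK_bot]
      intro h1
      have h2 : (p j₀).sup id = ⊥ := congrFun (pK_injective h1) j₀
      rcases hsup j₀ with h3 | h3
      · exact ((hp j₀).1 _ h3).2.ne' h2
      · exact hj₀.ne_empty h3.1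
    have hEcl : cl E = E := cl_pK _
    have hle : ∀ σ ∈ (ClCh ι G ℓ).filter (fun σ => ∀ j, comp σ j ⊆ p j), ∀ D ∈ σ, D ≤ E := by
      intro σ hσ D hD
      rw [Finset.mem_filter, mem_ClCh] at hσ
      rw [← hσ.1.2 D hD, cl, hE, pK_le_pK]
      intro j
      by_cases h1 : prj j D = ⊥
      · rw [h1]
        exact bot_le
      · exact Finset.le_sup (f := id) (hσ.2 j (mem_comp.mpr ⟨h1, D, hD, rfl⟩))
    have key := sum_toggle ((ClCh ι G ℓ).filter (fun σ => ∀ j, comp σ j ⊆ p j))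
      (fun _ => E) (fun _ => 1) ?_ ?_
    · simpa using key
    · intro σ hσ hn
      have hle' := hle σ hσ
      rw [Finset.mem_filter, mem_ClCh] at hσ
      refine ⟨?_, rfl, rfl⟩
      rw [Finset.mem_filter, mem_ClCh]
      refine ⟨⟨hσ.1.1.insert hEp hEne fun D hD => Or.inl (hle' D hD), ?_⟩, ?_⟩
      · intro D hD
        rcases Finset.mem_insert.mp hD with rfl | hD
        · exact hEcl
        · exact hσ.1.2 D hD
      · intro j K hK
        obtain ⟨hK0, D, hD, rfl⟩ := mem_comp.mp hK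
        rcases Finset.mem_insert.mp hD with rfl | hD
        · rw [hE, prj_pK] at hK0 ⊢
          rcases hsup j with h1 | h1
          · exact h1
          · exact absurd h1.2 hK0
        · exact hσ.2 j (mem_comp.mpr ⟨hK0, D, hD, rfl⟩)
    · intro σ hσ hn
      rw [Finset.mem_filter, mem_ClCh] at hσ
      refine ⟨?_, rfl⟩
      rw [Finset.mem_filter, mem_ClCh]
      refine ⟨⟨hσ.1.1.subset (Finset.erase_subset _ _), ?_⟩, ?_⟩
      · intro D hD
        exact hσ.1.2 D (Finset.mem_of_mem_erase hD)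
      · intro j K hK
        obtain ⟨hK0, D, hD, rfl⟩ := mem_comp.mp hK
        exact hσ.2 j (mem_comp.mpr ⟨hK0, D, Finset.mem_of_mem_erase hD, rfl⟩)

end PiSub

end Pool.Agent.Lib_helper13


end

section

set_option linter.unusedSectionVars false

/-! Alternating sums over chains of product subgroups of a power of a group factor. -/

namespace Pool.Agent.Lib_helper13

section Join

variable {ι G : Type*} [Group G] [Fintype ι] [DecidableEq ι] [Fintype G]

open Classical in
/-- The signed number of chains with given chains of coordinates. -/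
noncomputable def gsum (ℓ : ℕ) (p : ι → Finset (Subgroup G)) : ℚ :=
  ∑ σ ∈ (ClCh ι G ℓ).filter (fun σ => comp σ = p), (-1 : ℚ) ^ σ.card

open Classical in
theorem sum_gsum_powerset (ℓ : ℕ) (p : ι → Finset (Subgroup G)) (hp : ∀ j, IsCh ℓ ⊥ (p j)) :
    ∑ T ∈ Fintype.piFinset (fun j => (p j).powerset), gsum ℓ T =
      if ∀ j, p j = ∅ then 1 else 0 := by
  classical
  rw [← sum_below ℓ p hp]
  rw [← Finset.sum_fiberwise_of_maps_to (s := (ClCh ι G ℓ).filter (fun σ => ∀ j, comp σ j ⊆ p j))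
    (t := Fintype.piFinset (fun j => (p j).powerset)) (g := fun σ => comp σ)]
  · refine Finset.sum_congr rfl fun T hT => ?_
    rw [gsum]
    apply Finset.sum_congr _ fun _ _ => rfl
    ext σ
    rw [Finset.mem_filter, Finset.mem_filter, Finset.mem_filter]
    constructor
    · rintro ⟨h1, h2⟩
      refine ⟨⟨h1, fun j => ?_⟩, h2⟩
      rw [h2]
      exact Finset.mem_powerset.mp (Fintype.mem_piFinset.mp hT j)
    · rintro ⟨⟨h1, _⟩, h2⟩
      exact ⟨h1, h2⟩
  · intro σ hσ
    rw [Fintype.mem_piFinset]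
    intro j
    exact Finset.mem_powerset.mpr ((Finset.mem_filter.mp hσ).2 j)

theorem sum_sign_powerset (p : ι → Finset (Subgroup G)) [Decidable (∀ j, p j = ∅)] :
    ∑ T ∈ Fintype.piFinset (fun j => (p j).powerset), ∏ j, (-1 : ℚ) ^ (T j).card =
      if ∀ j, p j = ∅ then 1 else 0 := by
  classical
  have h := Finset.prod_univ_sum (fun j => (p j).powerset) (fun j t => (-1 : ℚ) ^ t.card)
  rw [← h]
  have h1 : ∀ j, ∑ t ∈ (p j).powerset, (-1 : ℚ) ^ t.card = if p j = ∅ then 1 else 0 := by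
    intro j
    have h2 := Finset.sum_powerset_neg_one_pow_card (x := p j)
    have h3 : ∑ t ∈ (p j).powerset, (-1 : ℚ) ^ t.card =
        ((∑ t ∈ (p j).powerset, (-1 : ℤ) ^ t.card : ℤ) : ℚ) := by
      push_cast
      rfl
    rw [h3, h2]
    split_ifs <;> simp
  rw [Finset.prod_congr rfl fun j _ => h1 j]
  split_ifs with h
  · exact Finset.prod_eq_one fun j _ => by rw [if_pos (h j)]
  · push Not at h
    obtain ⟨j, hj⟩ := h
    exact Finset.prod_eq_zero (Finset.mem_univ j) (if_neg hj.ne_empty)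

theorem gsum_eq (ℓ : ℕ) : ∀ (n : ℕ) (p : ι → Finset (Subgroup G)), (∀ j, IsCh ℓ ⊥ (p j)) →
    ∑ j, (p j).card = n → gsum ℓ p = ∏ j, (-1 : ℚ) ^ (p j).card := by
  classical
  intro n
  induction n using Nat.strong_induction_on with
  | _ n ih =>
    intro p hp hn
    have h1 := sum_gsum_powerset ℓ p hp
    have h2 := sum_sign_powerset p
    have h3 : ∑ T ∈ Fintype.piFinset (fun j => (p j).powerset),
        (gsum ℓ T - ∏ j, (-1 : ℚ) ^ (T j).card) = 0 := by
      rw [Finset.sum_sub_distrib, h1, h2, sub_self]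
    have hpm : p ∈ Fintype.piFinset (fun j => (p j).powerset) := by
      rw [Fintype.mem_piFinset]
      intro j
      exact Finset.mem_powerset_self _
    rw [Finset.sum_eq_single_of_mem p hpm] at h3
    · exact sub_eq_zero.mp h3
    · intro T hT hne
      rw [Fintype.mem_piFinset] at hT
      rw [ih (∑ j, (T j).card) _ T _ rfl, sub_self]
      · rw [← hn]
        obtain ⟨j, hj⟩ : ∃ j, T j ≠ p j := by
          by_contra hcon
          push Not at hcon
          exact hne (funext hcon)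
        apply Finset.sum_lt_sum
        · intro k _
          exact Finset.card_le_card (Finset.mem_powerset.mp (hT k))
        · refine ⟨j, Finset.mem_univ j, ?_⟩
          exact Finset.card_lt_card (lt_of_le_of_ne (Finset.mem_powerset.mp (hT j)) hj)
      · intro j
        exact (hp j).subset (Finset.mem_powerset.mp (hT j))

/-- Summation over chains of product subgroups in terms of the chains of coordinates. -/
theorem sum_closed_comp (ℓ : ℕ) (Φ : (ι → Finset (Subgroup G)) → ℚ) :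
    ∑ σ ∈ ClCh ι G ℓ, (-1 : ℚ) ^ σ.card * Φ (comp σ) =
      ∑ p ∈ Fintype.piFinset (fun _ : ι => Ch ℓ (⊥ : Subgroup G)),
        (∏ j, (-1 : ℚ) ^ (p j).card) * Φ p := by
  classical
  rw [← Finset.sum_fiberwise_of_maps_to (s := ClCh ι G ℓ)
    (t := Fintype.piFinset (fun _ : ι => Ch ℓ (⊥ : Subgroup G))) (g := fun σ => comp σ)]
  · refine Finset.sum_congr rfl fun p hp => ?_
    rw [Fintype.mem_piFinset] at hp
    rw [← gsum_eq ℓ _ p (fun j => mem_Ch.mp (hp j)) rfl, gsum, Finset.sum_mul]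
    refine Finset.sum_congr rfl fun σ hσ => ?_
    rw [(Finset.mem_filter.mp hσ).2]
  · intro σ hσ
    rw [Fintype.mem_piFinset]
    intro j
    exact mem_Ch.mpr (comp_isCh (mem_ClCh.mp hσ).1 j)

/-- The product form. -/
theorem sum_closed_prod (ℓ : ℕ) (f : ι → Finset (Subgroup G) → ℚ) :
    ∑ σ ∈ ClCh ι G ℓ, (-1 : ℚ) ^ σ.card * ∏ j, f j (comp σ j) =
      ∏ j, ∑ τ ∈ Ch ℓ (⊥ : Subgroup G), (-1 : ℚ) ^ τ.card * f j τ := by
  classical
  rw [sum_closed_comp ℓ (fun p => ∏ j, f j (p j)), Finset.prod_univ_sum]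
  refine Finset.sum_congr rfl fun p _ => ?_
  rw [Finset.prod_mul_distrib]

theorem prj_wAct_fixed {s : Equiv.Perm ι} {n : ι → G} {D : Subgroup (ι → G)} (hD : cl D = D) :
    D.map (wAct s n) = D ↔ ∀ j, (prj (s j) D).map (MulAut.conj (n j)).toMonoidHom = prj j D := by
  constructor
  · intro h j
    rw [← prj_wAct, h]
  · intro h
    rw [← hD, ← cl_wAct, cl, cl]
    congr 1
    ext1 j
    rw [prj_wAct, h]

/-- The stabilizer of a chain of product subgroups. -/
theorem stb_closed {σ : Finset (Subgroup (ι → G))} (hσ : ∀ D ∈ σ, cl D = D) :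
    stb σ = pK (fun j => stb (comp σ j)) := by
  ext n
  rw [mem_stb, mem_pK]
  constructor
  · intro h j
    rw [mem_stb]
    intro K hK
    obtain ⟨_, D, hD, rfl⟩ := mem_comp.mp hK
    have h1 := h D hD
    rw [← wAct_conj, prj_wAct_fixed (hσ D hD)] at h1
    exact h1 j
  · intro h D hD
    rw [← wAct_conj, prj_wAct_fixed (hσ D hD)]
    intro j
    change (prj j D).map _ = _
    by_cases h1 : prj j D = ⊥
    · rw [h1, Subgroup.map_bot]
    · exact mem_stb.mp (h j) _ (mem_comp.mpr ⟨h1, D, hD, rfl⟩)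

end Join

end Pool.Agent.Lib_helper13


end

section

set_option linter.unusedSectionVars false

/-! Cancellation among the chains with members outside a normal subgroup. -/

namespace Pool.Agent.Lib_helper13

section Outside

variable {X : Type*} [Group X]

theorem inf_mem_of_chain {s : Finset (Subgroup X)}
    (h : ∀ D ∈ s, ∀ E ∈ s, D ≤ E ∨ E ≤ D) (hne : s.Nonempty) : s.inf id ∈ s := by
  obtain ⟨T, hT⟩ := s.exists_minimal hne
  have h1 : ∀ D ∈ s, T ≤ D := by
    intro D hD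
    rcases h D hD T hT.1 with h1 | h1
    · exact hT.2 hD h1
    · exact h1
  have : s.inf id = T := by
    apply le_antisymm
    · exact Finset.inf_le (f := id) hT.1
    · rw [Finset.le_inf_iff]
      exact h1
  rw [this]
  exact hT.1

theorem lt_inf_normalizer {ℓ : ℕ} [Fact ℓ.Prime] [Finite X] {P D : Subgroup X}
    (hD : IsPGroup ℓ D) (hPD : P < D) : P < D ⊓ Subgroup.normalizer (P : Set X) := by
  have hnil : Group.IsNilpotent D := hD.isNilpotent
  have h1 : P.subgroupOf D < ⊤ := by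
    rw [lt_top_iff_ne_top]
    intro h
    rw [Subgroup.subgroupOf_eq_top] at h
    exact hPD.not_ge h
  have h2 := Group.normalizerCondition_of_isNilpotent (G := D) _ h1
  obtain ⟨x, hx, hx'⟩ := SetLike.exists_of_lt h2
  rw [Subgroup.mem_subgroupOf] at hx'
  refine lt_of_le_of_ne (le_inf hPD.le Subgroup.le_normalizer) ?_
  intro h3
  apply hx'
  rw [h3]
  refine ⟨x.2, ?_⟩
  rw [Subgroup.mem_normalizer_iff] at hx
  change (x : X) ∈ Subgroup.normalizer (P : Set X)
  rw [Subgroup.mem_normalizer_iff]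
  intro y
  constructor
  · intro hy
    have h4 := (hx ⟨y, hPD.le hy⟩).mp (Subgroup.mem_subgroupOf.mpr hy)
    exact Subgroup.mem_subgroupOf.mp h4
  · intro hy
    have hyD : y ∈ D := by
      have h5 : y = (x : X)⁻¹ * (x * y * (x : X)⁻¹) * x := by group
      rw [h5]
      exact D.mul_mem (D.mul_mem (D.inv_mem x.2) (hPD.le hy)) x.2
    have h4 := (hx ⟨y, hyD⟩).mpr (Subgroup.mem_subgroupOf.mpr hy)
    exact Subgroup.mem_subgroupOf.mp h4

theorem map_conj_inf (g : X) (A B : Subgroup X) :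
    (A ⊓ B).map (MulAut.conj g).toMonoidHom =
      A.map (MulAut.conj g).toMonoidHom ⊓ B.map (MulAut.conj g).toMonoidHom :=
  Subgroup.map_inf_eq _ _ _ (MulAut.conj g).injective

theorem map_conj_normalizer {g : X} {P : Subgroup X}
    (h : P.map (MulAut.conj g).toMonoidHom = P) :
    (Subgroup.normalizer (P : Set X)).map (MulAut.conj g).toMonoidHom =
      Subgroup.normalizer (P : Set X) := by
  have hg : g ∈ Subgroup.normalizer (P : Set X) := by
    rw [Subgroup.mem_normalizer_iff_map_conj_eq]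
    exact h
  have h1 : g ∈ Subgroup.normalizer ((Subgroup.normalizer (P : Set X) : Subgroup X) : Set X) :=
    Subgroup.le_normalizer hg
  rw [Subgroup.mem_normalizer_iff_map_conj_eq] at h1
  exact h1

variable [Fintype X]

open Classical in
/-- The chains whose first member is a complement-like subgroup normalized by all members. -/
noncomputable def OCh (ℓ : ℕ) (M : Subgroup X) : Finset (Finset (Subgroup X)) :=
  (Ch ℓ (⊥ : Subgroup X)).filter (fun σ => σ.Nonempty ∧ ¬ σ.inf id ≤ M ∧ σ.inf id ⊓ M = ⊥ ∧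
    ∀ D ∈ σ, D ≤ Subgroup.normalizer ((σ.inf id : Subgroup X) : Set X))

theorem mem_OCh {ℓ : ℕ} {M : Subgroup X} {σ : Finset (Subgroup X)} : σ ∈ OCh ℓ M ↔
    IsCh ℓ ⊥ σ ∧ σ.Nonempty ∧ ¬ σ.inf id ≤ M ∧ σ.inf id ⊓ M = ⊥ ∧
      ∀ D ∈ σ, D ≤ Subgroup.normalizer ((σ.inf id : Subgroup X) : Set X) := by
  classical
  rw [OCh, Finset.mem_filter, mem_Ch]

open Classical in
theorem sum_outside1 {ℓ : ℕ} (M : Subgroup X) [M.Normal] (W : Subgroup X → ℚ) :
    ∑ σ ∈ (Ch ℓ (⊥ : Subgroup X)).filter (fun σ => ¬ ∀ D ∈ σ, D ≤ M),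
      (-1 : ℚ) ^ σ.card * W (stb σ) =
      ∑ σ ∈ (Ch ℓ (⊥ : Subgroup X)).filter
        (fun σ => σ.Nonempty ∧ ¬ σ.inf id ≤ M ∧ σ.inf id ⊓ M = ⊥),
        (-1 : ℚ) ^ σ.card * W (stb σ) := by
  classical
  obtain ⟨T, hT⟩ : ∃ T : Finset (Subgroup X) → Subgroup X,
      ∀ σ, T σ = (σ.filter (fun D => ¬ D ≤ M)).inf id := ⟨_, fun _ => rfl⟩
  have hmem : ∀ σ, IsCh ℓ ⊥ σ → (¬ ∀ D ∈ σ, D ≤ M) → T σ ∈ σ ∧ ¬ T σ ≤ M := by
    intro σ h1 h2
    push Not at h2
    obtain ⟨D, hD, hD'⟩ := h2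
    have h3 : T σ ∈ σ.filter (fun D => ¬ D ≤ M) := by
      rw [hT]
      apply inf_mem_of_chain
      · intro A hA B hB
        exact h1.total (Finset.mem_filter.mp hA).1 (Finset.mem_filter.mp hB).1
      · exact ⟨D, Finset.mem_filter.mpr ⟨hD, hD'⟩⟩
    rw [Finset.mem_filter] at h3
    exact h3
  have hle : ∀ σ, ∀ D ∈ σ, ¬ D ≤ M → T σ ≤ D := by
    intro σ D hD hD'
    rw [hT]
    exact Finset.inf_le (f := id) (Finset.mem_filter.mpr ⟨hD, hD'⟩)
  have hins : ∀ σ, ∀ E, E ≤ M → T (insert E σ) = T σ := by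
    intro σ E hE
    rw [hT (insert E σ), Finset.filter_insert, if_neg (not_not.mpr hE), ← hT]
  have hers : ∀ σ, ∀ E, E ≤ M → T (σ.erase E) = T σ := by
    intro σ E hE
    rw [hT (σ.erase E), Finset.filter_erase, Finset.erase_eq_of_notMem, ← hT]
    intro h
    exact (Finset.mem_filter.mp h).2 hE
  -- the chains which survive
  have hB : (Ch ℓ (⊥ : Subgroup X)).filter
      (fun σ => σ.Nonempty ∧ ¬ σ.inf id ≤ M ∧ σ.inf id ⊓ M = ⊥) =
      ((Ch ℓ (⊥ : Subgroup X)).filter (fun σ => ¬ ∀ D ∈ σ, D ≤ M)).filter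
        (fun σ => T σ ⊓ M = ⊥) := by
    ext σ
    simp only [Finset.mem_filter, mem_Ch]
    constructor
    · rintro ⟨h1, h2, h3, h4⟩
      have h5 : σ.inf id ∈ σ := inf_mem_of_chain (fun D hD E hE => h1.total hD hE) h2
      have h6 : ¬ ∀ D ∈ σ, D ≤ M := fun h => h3 (h _ h5)
      refine ⟨⟨h1, h6⟩, ?_⟩
      have h7 : T σ = σ.inf id := by
        apply le_antisymm
        · exact hle σ _ h5 h3
        · exact Finset.inf_le (f := id) (hmem σ h1 h6).1
      rw [h7]
      exact h4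
    · rintro ⟨⟨h1, h2⟩, h3⟩
      obtain ⟨h4, h5⟩ := hmem σ h1 h2
      have h6 : T σ = σ.inf id := by
        apply le_antisymm
        · rw [Finset.le_inf_iff]
          intro D hD
          by_cases h7 : D ≤ M
          · exfalso
            have h8 : D ≤ T σ := by
              rcases h1.total hD h4 with h9 | h9
              · exact h9
              · exact absurd (h9.trans h7) h5
            have h9 : D ≤ T σ ⊓ M := le_inf h8 h7
            rw [h3] at h9
            exact (h1.1 D hD).2.not_ge h9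
          · exact hle σ D hD h7
        · exact Finset.inf_le (f := id) h4
      refine ⟨h1, ⟨_, h4⟩, ?_, ?_⟩
      · rw [← h6]
        exact h5
      · rw [← h6]
        exact h3
  rw [hB, ← Finset.sum_filter_add_sum_filter_not
    ((Ch ℓ (⊥ : Subgroup X)).filter (fun σ => ¬ ∀ D ∈ σ, D ≤ M)) (fun σ => T σ ⊓ M = ⊥),
    add_eq_left]
  obtain ⟨C, hC⟩ : ∃ C : Finset (Finset (Subgroup X)), C =
    ((Ch ℓ (⊥ : Subgroup X)).filter (fun σ => ¬ ∀ D ∈ σ, D ≤ M)).filter
      (fun σ => ¬ T σ ⊓ M = ⊥) := ⟨_, rfl⟩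
  rw [← hC]
  have hCm : ∀ σ, σ ∈ C ↔ (IsCh ℓ ⊥ σ ∧ ¬ ∀ D ∈ σ, D ≤ M) ∧ ¬ T σ ⊓ M = ⊥ := by
    intro σ
    rw [hC, Finset.mem_filter, Finset.mem_filter, mem_Ch]
  apply sum_toggle C (fun σ => T σ ⊓ M) (fun σ => W (stb σ))
  · intro σ hσ hn
    obtain ⟨⟨h1, h2⟩, h3⟩ := (hCm σ).mp hσ
    obtain ⟨h4, h5⟩ := hmem σ h1 h2
    refine ⟨?_, by rw [hins σ _ inf_le_right], ?_⟩
    · rw [hCm, hins σ _ inf_le_right]
      refine ⟨⟨h1.insert ?_ ?_ ?_, ?_⟩, h3⟩
      · exact (h1.1 _ h4).1.to_le inf_le_left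
      · exact bot_lt_iff_ne_bot.mpr h3
      · intro D hD
        by_cases h6 : D ≤ M
        · left
          refine le_inf ?_ h6
          rcases h1.total hD h4 with h7 | h7
          · exact h7
          · exact absurd (h7.trans h6) h5
        · right
          exact inf_le_left.trans (hle σ D hD h6)
      · intro h
        exact h2 fun D hD => h D (Finset.mem_insert_of_mem hD)
    · congr 1
      ext g
      rw [mem_stb, mem_stb]
      constructor
      · intro h D hD
        exact h D (Finset.mem_insert_of_mem hD)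
      · intro h D hD
        rcases Finset.mem_insert.mp hD with rfl | hD
        · rw [map_conj_inf, h _ h4]
          congr 1
          have := Subgroup.mem_normalizer_iff_map_conj_eq.mp
            (show g ∈ Subgroup.normalizer (M : Set X) by
              rw [Subgroup.normalizer_eq_top_iff.mpr inferInstance]
              trivial)
          exact this
        · exact h D hD
  · intro σ hσ hn
    obtain ⟨⟨h1, h2⟩, h3⟩ := (hCm σ).mp hσ
    obtain ⟨h4, h5⟩ := hmem σ h1 h2
    refine ⟨?_, by rw [hers σ _ inf_le_right]⟩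
    rw [hCm, hers σ _ inf_le_right]
    refine ⟨⟨h1.subset (Finset.erase_subset _ _), ?_⟩, h3⟩
    intro h
    apply h5
    apply h
    rw [Finset.mem_erase]
    refine ⟨?_, h4⟩
    intro h6
    apply h5
    rw [h6]
    exact inf_le_right

theorem sum_outside2 {ℓ : ℕ} [Fact ℓ.Prime] (M : Subgroup X) (W : Subgroup X → ℚ)
    [DecidablePred fun σ : Finset (Subgroup X) =>
      σ.Nonempty ∧ ¬ σ.inf id ≤ M ∧ σ.inf id ⊓ M = ⊥] :
    ∑ σ ∈ (Ch ℓ (⊥ : Subgroup X)).filter
        (fun σ => σ.Nonempty ∧ ¬ σ.inf id ≤ M ∧ σ.inf id ⊓ M = ⊥),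
        (-1 : ℚ) ^ σ.card * W (stb σ) =
      ∑ σ ∈ OCh ℓ M, (-1 : ℚ) ^ σ.card * W (stb σ) := by
  classical
  obtain ⟨B, hB⟩ : ∃ B : Finset (Finset (Subgroup X)), B = (Ch ℓ (⊥ : Subgroup X)).filter
        (fun σ => σ.Nonempty ∧ ¬ σ.inf id ≤ M ∧ σ.inf id ⊓ M = ⊥) := ⟨_, rfl⟩
  have hBm : ∀ σ, σ ∈ B ↔ IsCh ℓ ⊥ σ ∧ σ.Nonempty ∧ ¬ σ.inf id ≤ M ∧ σ.inf id ⊓ M = ⊥ := by
    intro σ
    rw [hB, Finset.mem_filter, mem_Ch]
  rw [← hB]
  have hO : OCh ℓ M = B.filter
      (fun σ => ∀ D ∈ σ, D ≤ Subgroup.normalizer ((σ.inf id : Subgroup X) : Set X)) := by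
    ext σ
    rw [mem_OCh, Finset.mem_filter, hBm]
    tauto
  rw [hO, ← Finset.sum_filter_add_sum_filter_not B
    (fun σ => ∀ D ∈ σ, D ≤ Subgroup.normalizer ((σ.inf id : Subgroup X) : Set X)), add_eq_left]
  obtain ⟨T, hT⟩ : ∃ T : Finset (Subgroup X) → Subgroup X, ∀ σ, T σ = (σ.filter
      (fun D => ¬ D ≤ Subgroup.normalizer ((σ.inf id : Subgroup X) : Set X))).inf id :=
    ⟨_, fun _ => rfl⟩
  obtain ⟨C, hC⟩ : ∃ C : Finset (Finset (Subgroup X)), C = B.filter
      (fun σ => ¬ ∀ D ∈ σ, D ≤ Subgroup.normalizer ((σ.inf id : Subgroup X) : Set X)) :=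
    ⟨_, rfl⟩
  rw [← hC]
  have hCm : ∀ σ, σ ∈ C ↔ (IsCh ℓ ⊥ σ ∧ σ.Nonempty ∧ ¬ σ.inf id ≤ M ∧ σ.inf id ⊓ M = ⊥) ∧
      ¬ ∀ D ∈ σ, D ≤ Subgroup.normalizer ((σ.inf id : Subgroup X) : Set X) := by
    intro σ
    rw [hC, Finset.mem_filter, hBm]
  have hmem : ∀ σ ∈ C, T σ ∈ σ ∧ ¬ T σ ≤ Subgroup.normalizer ((σ.inf id : Subgroup X) : Set X) := by
    intro σ hσ
    obtain ⟨⟨h1, _⟩, h2⟩ := (hCm σ).mp hσ
    push Not at h2
    obtain ⟨D, hD, hD'⟩ := h2
    have h3 : T σ ∈ σ.filter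
        (fun D => ¬ D ≤ Subgroup.normalizer ((σ.inf id : Subgroup X) : Set X)) := by
      rw [hT]
      apply inf_mem_of_chain
      · intro A hA B hB
        exact h1.total (Finset.mem_filter.mp hA).1 (Finset.mem_filter.mp hB).1
      · exact ⟨D, Finset.mem_filter.mpr ⟨hD, hD'⟩⟩
    rw [Finset.mem_filter] at h3
    exact h3
  obtain ⟨E, hE⟩ : ∃ E : Finset (Subgroup X) → Subgroup X, ∀ σ, E σ =
      T σ ⊓ Subgroup.normalizer ((σ.inf id : Subgroup X) : Set X) := ⟨_, fun _ => rfl⟩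
  have hEfacts : ∀ σ ∈ C, σ.inf id < E σ ∧ σ.inf id ∈ σ := by
    intro σ hσ
    obtain ⟨⟨h1, h2, _, _⟩, _⟩ := (hCm σ).mp hσ
    obtain ⟨h4, h5⟩ := hmem σ hσ
    have h6 : σ.inf id ∈ σ := inf_mem_of_chain (fun D hD E hE => h1.total hD hE) h2
    refine ⟨?_, h6⟩
    rw [hE]
    apply lt_inf_normalizer (h1.1 _ h4).1
    refine lt_of_le_of_ne (Finset.inf_le (f := id) h4) ?_
    intro h7
    apply h5
    rw [← h7]
    exact Subgroup.le_normalizer
  have hins : ∀ σ ∈ C, (insert (E σ) σ).inf id = σ.inf id ∧ E (insert (E σ) σ) = E σ := by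
    intro σ hσ
    have h1 : (insert (E σ) σ).inf id = σ.inf id := by
      rw [Finset.inf_insert]
      exact inf_eq_right.mpr (hEfacts σ hσ).1.le
    refine ⟨h1, ?_⟩
    have h2 : T (insert (E σ) σ) = T σ := by
      rw [hT (insert (E σ) σ), h1, Finset.filter_insert, if_neg, ← hT]
      rw [not_not, hE]
      exact inf_le_right
    rw [hE (insert (E σ) σ), h1, h2, ← hE]
  have hers : ∀ σ ∈ C, (σ.erase (E σ)).inf id = σ.inf id ∧ E (σ.erase (E σ)) = E σ := by
    intro σ hσ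
    obtain ⟨h3, h4⟩ := hEfacts σ hσ
    have h1 : (σ.erase (E σ)).inf id = σ.inf id := by
      apply le_antisymm
      · exact Finset.inf_le (f := id) (Finset.mem_erase.mpr ⟨h3.ne, h4⟩)
      · exact Finset.inf_mono (Finset.erase_subset _ _)
    refine ⟨h1, ?_⟩
    have h2 : T (σ.erase (E σ)) = T σ := by
      rw [hT (σ.erase (E σ)), h1, Finset.filter_erase, Finset.erase_eq_of_notMem, ← hT]
      intro h5
      apply (Finset.mem_filter.mp h5).2
      rw [hE]
      exact inf_le_right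
    rw [hE (σ.erase (E σ)), h1, h2, ← hE]
  apply sum_toggle C E (fun σ => W (stb σ))
  · intro σ hσ hn
    obtain ⟨⟨h1, h2, h3, h4⟩, h5⟩ := (hCm σ).mp hσ
    obtain ⟨h6, h7⟩ := hmem σ hσ
    obtain ⟨h8, h9⟩ := hEfacts σ hσ
    obtain ⟨h10, h11⟩ := hins σ hσ
    refine ⟨?_, h11, ?_⟩
    · rw [hCm, h10]
      refine ⟨⟨h1.insert ?_ ?_ ?_, Finset.insert_nonempty _ _, h3, h4⟩, ?_⟩
      · apply (h1.1 _ h6).1.to_le
        rw [hE]
        exact inf_le_left
      · exact lt_of_le_of_lt bot_le h8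
      · intro D hD
        rw [hE]
        by_cases h12 : D ≤ Subgroup.normalizer ((σ.inf id : Subgroup X) : Set X)
        · left
          refine le_inf ?_ h12
          rcases h1.total hD h6 with h13 | h13
          · exact h13
          · exact absurd (h13.trans h12) h7
        · right
          refine inf_le_left.trans ?_
          rw [hT]
          exact Finset.inf_le (f := id) (Finset.mem_filter.mpr ⟨hD, h12⟩)
      · intro h
        exact h5 fun D hD => h D (Finset.mem_insert_of_mem hD)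
    · congr 1
      ext g
      rw [mem_stb, mem_stb]
      constructor
      · intro h D hD
        exact h D (Finset.mem_insert_of_mem hD)
      · intro h D hD
        rcases Finset.mem_insert.mp hD with rfl | hD
        · rw [hE, map_conj_inf, h _ h6, map_conj_normalizer (h _ h9)]
        · exact h D hD
  · intro σ hσ hn
    obtain ⟨⟨h1, h2, h3, h4⟩, h5⟩ := (hCm σ).mp hσ
    obtain ⟨h6, h7⟩ := hmem σ hσ
    obtain ⟨h8, h9⟩ := hEfacts σ hσ
    obtain ⟨h10, h11⟩ := hers σ hσ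
    refine ⟨?_, h11⟩
    rw [hCm, h10]
    refine ⟨⟨h1.subset (Finset.erase_subset _ _), ⟨_, Finset.mem_erase.mpr ⟨h8.ne, h9⟩⟩, h3, h4⟩,
      ?_⟩
    intro h
    apply h7
    apply h
    rw [Finset.mem_erase]
    refine ⟨?_, h6⟩
    intro h12
    apply h7
    rw [h12, hE]
    exact inf_le_right

end Outside

end Pool.Agent.Lib_helper13


end
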