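import Mathlib
import Pool.Agent.DAM.C02
import Pool.Agent.DAM.C04

/-! Parts: Lib_helper13.Expand, Lib_helper13.ProdChar, Lib_helper13.CntPi, Lib_helper13.Clifford, Lib_helper13.CliffCount, Lib_helper13.Wreath -/

section

set_option linter.unusedSectionVars false

/-! Characters, multiplicities, expansion of class functions in irreducible characters. -/

namespace Pool.Agent.Lib_helper13

open Representation

section Chr

variable {Y Y' : Type*} [Group Y] [Group Y']

/-- `ψ` is the character of a finite-dimensional complex representation. -/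
def IsChr (ψ : Y → ℂ) : Prop :=
  ∃ (n : ℕ) (ρ : Representation ℂ Y (Fin n → ℂ)), ρ.character = ψ

theorem isChr_of_rep {V : Type*} [AddCommGroup V] [Module ℂ V] [FiniteDimensional ℂ V]
    (ρ : Representation ℂ Y V) : IsChr ρ.character := by
  let b := Module.finBasis ℂ V
  exact ⟨_, transport b.equivFun ρ, transport_character _ _⟩

theorem IsIrr.isChr {ψ : Y → ℂ} (h : IsIrr ψ) : IsChr ψ := by
  obtain ⟨n, ρ, _, h⟩ := h
  exact ⟨n, ρ, h⟩

theorem IsChr.mul {ψ φ : Y → ℂ} (h : IsChr ψ) (h' : IsChr φ) : IsChr (fun x => ψ x * φ x) := by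
  obtain ⟨n, ρ, rfl⟩ := h
  obtain ⟨m, σ, rfl⟩ := h'
  have h1 := isChr_of_rep (tprod ρ σ)
  rw [char_tensor] at h1
  exact h1

theorem isChr_one : IsChr (fun _ : Y => (1 : ℂ)) := by
  refine ⟨1, (1 : Y →* ((Fin 1 → ℂ) →ₗ[ℂ] (Fin 1 → ℂ))), ?_⟩
  ext y
  change LinearMap.trace ℂ (Fin 1 → ℂ) (1 : (Fin 1 → ℂ) →ₗ[ℂ] (Fin 1 → ℂ)) = 1
  rw [LinearMap.trace_one]
  simp

theorem IsChr.prod {ι : Type*} (s : Finset ι) (ψ : ι → Y → ℂ) (h : ∀ j, IsChr (ψ j)) :
    IsChr (fun x => ∏ j ∈ s, ψ j x) := by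
  classical
  induction s using Finset.induction_on with
  | empty =>
    simp only [Finset.prod_empty]
    exact isChr_one
  | insert a s ha ih =>
    simp only [Finset.prod_insert ha]
    exact (h a).mul ih

theorem IsChr.comp {ψ : Y → ℂ} (h : IsChr ψ) (f : Y' →* Y) : IsChr (fun x => ψ (f x)) := by
  obtain ⟨n, ρ, rfl⟩ := h
  exact ⟨n, (ρ.comp f : Y' →* ((Fin n → ℂ) →ₗ[ℂ] (Fin n → ℂ))), rfl⟩

theorem IsChr.conj_eq {ψ : Y → ℂ} (h : IsChr ψ) (g x : Y) : ψ (g * x * g⁻¹) = ψ x := by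
  obtain ⟨n, ρ, rfl⟩ := h
  exact char_conj ρ x g

theorem IsChr.isIrr [Fintype Y] {ψ : Y → ℂ} (h : IsChr ψ)
    (hs : ∑ g, ψ g * ψ g⁻¹ = Nat.card Y) : IsIrr ψ := by
  obtain ⟨n, ρ, rfl⟩ := h
  exact isIrr_of_rep_sum ρ hs

theorem IsChr.exists_mult [Fintype Y] {ψ φ : Y → ℂ} (h : IsChr ψ) (h' : IsChr φ) :
    ∃ m : ℕ, ∑ g, ψ g * φ g⁻¹ = Nat.card Y * m := by
  obtain ⟨n, ρ, rfl⟩ := h
  obtain ⟨m, σ, rfl⟩ := h'
  exact ⟨_, sum_char_eq_finrank σ ρ⟩

end Chr

section Expand

variable {Y : Type*} [Group Y] [Fintype Y]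

/-- The finite set of irreducible characters. -/
noncomputable def irrF (Y : Type*) [Group Y] [Fintype Y] : Finset (Y → ℂ) :=
  (finite_isIrr (H := Y)).toFinset

theorem mem_irrF {χ : Y → ℂ} : χ ∈ irrF Y ↔ IsIrr χ := by
  rw [irrF, Set.Finite.mem_toFinset]
  rfl

/-- The inner product of functions, normalized. -/
noncomputable def ip (f χ : Y → ℂ) : ℂ := (∑ g, f g * χ g⁻¹) / Nat.card Y

theorem ip_self {χ : Y → ℂ} (h : IsIrr χ) : ip χ χ = 1 := by
  rw [ip, h.sum_self, div_self natCard_ne_zero]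

theorem ip_ne {χ χ' : Y → ℂ} (h : IsIrr χ) (h' : IsIrr χ') (hne : χ ≠ χ') : ip χ χ' = 0 := by
  rw [ip, h.sum_ne h' hne, zero_div]

theorem ip_sum {α : Type*} (s : Finset α) (c : α → ℂ) (f : α → Y → ℂ) (χ : Y → ℂ) :
    ip (fun x => ∑ a ∈ s, c a * f a x) χ = ∑ a ∈ s, c a * ip (f a) χ := by
  simp only [ip, Finset.sum_mul]
  rw [Finset.sum_comm, Finset.sum_div]
  refine Finset.sum_congr rfl fun a _ => ?_
  rw [← mul_div_assoc, Finset.mul_sum]
  congr 1
  exact Finset.sum_congr rfl fun g _ => by ring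

theorem class_fn_expand (f : Y → ℂ) (hf : ∀ g x, f (g * x * g⁻¹) = f x) :
    f = fun x => ∑ χ ∈ irrF Y, ip f χ * χ x := by
  classical
  have h := class_fn_eq_zero (fun x => f x - ∑ χ ∈ irrF Y, ip f χ * χ x) ?_ ?_
  · ext x
    have := congrFun h x
    exact sub_eq_zero.mp this
  · intro g x
    rw [hf]
    congr 1
    refine Finset.sum_congr rfl fun χ hχ => ?_
    rw [(mem_irrF.mp hχ).conj_eq]
  · intro χ hχ
    have h1 : ip (fun x => ∑ χ ∈ irrF Y, ip f χ * χ x) χ = ip f χ := by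
      rw [ip_sum, Finset.sum_eq_single χ]
      · rw [ip_self hχ, mul_one]
      · intro χ' hχ' hne
        rw [ip_ne (mem_irrF.mp hχ') hχ hne, mul_zero]
      · intro h
        exact absurd (mem_irrF.mpr hχ) h
    rw [ip, ip, div_left_inj' natCard_ne_zero] at h1
    simp only [sub_mul]
    rw [Finset.sum_sub_distrib, h1, sub_self]

theorem ip_expand (f f' : Y → ℂ) (hf : ∀ g x, f (g * x * g⁻¹) = f x) :
    ip f f' = ∑ χ ∈ irrF Y, ip f χ * ip χ f' := by
  conv_lhs => rw [class_fn_expand f hf]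
  exact ip_sum _ _ _ _

theorem ip_comm (f f' : Y → ℂ) : ip f f' = ip f' f := by
  rw [ip, ip]
  congr 1
  refine Fintype.sum_equiv (Equiv.inv Y) _ _ fun g => ?_
  simp [mul_comm]

theorem IsChr.exists_ip {ψ φ : Y → ℂ} (h : IsChr ψ) (h' : IsChr φ) : ∃ m : ℕ, ip ψ φ = m := by
  obtain ⟨m, hm⟩ := h.exists_mult h'
  refine ⟨m, ?_⟩
  rw [ip, hm, mul_comm, mul_div_assoc, div_self natCard_ne_zero, mul_one]

theorem sum_sq : ∑ χ ∈ irrF Y, χ 1 * χ 1 = (Nat.card Y : ℂ) := by
  classical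
  have h := class_fn_expand (Y := Y) (fun x => if x = 1 then 1 else 0) (by
    intro g x
    by_cases h : x = 1
    · subst h
      simp
    · rw [if_neg, if_neg h]
      intro h'
      apply h
      have : x = g⁻¹ * (g * x * g⁻¹) * g := by group
      rw [this, h']
      group)
  have h1 := congrFun h 1
  simp only [if_true] at h1
  have h2 : ∀ χ : Y → ℂ, ip (fun x : Y => if x = 1 then (1 : ℂ) else 0) χ =
      χ 1 / Nat.card Y := by
    intro χ
    rw [ip]
    congr 1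
    rw [Finset.sum_eq_single (1 : Y)]
    · simp
    · intro b _ hb
      rw [if_neg hb, zero_mul]
    · simp
  simp only [h2] at h1
  have h3 : ∑ χ ∈ irrF Y, χ 1 / (Nat.card Y : ℂ) * χ 1 =
      (∑ χ ∈ irrF Y, χ 1 * χ 1) / Nat.card Y := by
    rw [Finset.sum_div]
    exact Finset.sum_congr rfl fun _ _ => by ring
  rw [h3, eq_div_iff natCard_ne_zero, one_mul] at h1
  exact h1.symm

/-- The degree divides the group order. -/
theorem IsIrr.degree_dvd {χ : Y → ℂ} (h : IsIrr χ) {n : ℕ} (hn : χ 1 = n) :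
    n ∣ Nat.card Y := by
  have hn0 : n ≠ 0 := by
    rintro rfl
    exact h.one_ne_zero (by rw [hn]; simp)
  have h1 : IsIntegral ℤ (wt χ (fun x => χ x⁻¹)) := by
    apply isIntegral_wt h
    · intro g x
      have : (g * x * g⁻¹)⁻¹ = g * x⁻¹ * g⁻¹ := by group
      rw [this, h.conj_eq]
    · intro x
      exact isIntegral_char h _
  have h2 : wt χ (fun x => χ x⁻¹) = Nat.card Y / n := by
    rw [wt, hn, ← h.sum_self]
    congr 1
    exact Finset.sum_congr rfl fun x _ => mul_comm _ _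
  rw [h2] at h1
  have h3 : ((Nat.card Y : ℂ) / n) = algebraMap ℚ ℂ ((Nat.card Y : ℚ) / n) := by
    rw [map_div₀, map_natCast, map_natCast]
  rw [h3, isIntegral_algebraMap_iff (algebraMap ℚ ℂ).injective] at h1
  obtain ⟨z, hz⟩ := IsIntegrallyClosed.isIntegral_iff.mp h1
  have h4 : (Nat.card Y : ℚ) = z * n := by
    have h5 : (z : ℚ) = (Nat.card Y : ℚ) / n := hz
    rw [h5]
    field_simp
  have h5 : (Nat.card Y : ℤ) = z * n := by exact_mod_cast h4
  have h6 : (n : ℤ) ∣ Nat.card Y := ⟨z, by rw [h5, mul_comm]⟩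
  exact_mod_cast h6

theorem HasDefect.unique {ℓ : ℕ} {χ : Y → ℂ} {d e : ℕ} (h : HasDefect ℓ χ d)
    (h' : HasDefect ℓ χ e) : d = e := by
  obtain ⟨n, hn, hn'⟩ := h
  obtain ⟨m, hm, hm'⟩ := h'
  rw [hn] at hm
  have : n = m := by exact_mod_cast hm
  subst this
  omega

theorem IsIrr.exists_defect {ℓ : ℕ} [Fact ℓ.Prime] {χ : Y → ℂ} (h : IsIrr χ) :
    ∃ d, HasDefect ℓ χ d := by
  obtain ⟨n, hn, hn'⟩ := h.exists_degree
  obtain ⟨m, hm⟩ := h.degree_dvd hn'
  have hm0 : m ≠ 0 := by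
    rintro rfl
    exact Nat.card_pos.ne' (by rw [hm, mul_zero])
  refine ⟨padicValNat ℓ m, n, hn', ?_⟩
  rw [hm, padicValNat.mul hn.ne' hm0, add_comm]

end Expand

end Pool.Agent.Lib_helper13


end

section

set_option linter.unusedSectionVars false

/-! Irreducible characters of finite direct products. -/

namespace Pool.Agent.Lib_helper13

open Representation

section ProdChar

variable {ι : Type*} [Fintype ι] [DecidableEq ι] {S : ι → Type*} [∀ j, Group (S j)]
  [∀ j, Fintype (S j)]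

/-- The outer product of functions. -/
noncomputable def prodFn (θ : ∀ j, S j → ℂ) : (∀ j, S j) → ℂ := fun x => ∏ j, θ j (x j)

theorem prodFn_one (θ : ∀ j, S j → ℂ) : prodFn θ 1 = ∏ j, θ j 1 := rfl

theorem sum_prodFn (θ : ∀ j, S j → ℂ) : ∑ x, prodFn θ x = ∏ j, ∑ s, θ j s := by
  simp only [prodFn]
  rw [Finset.prod_univ_sum, Fintype.piFinset_univ]

theorem card_pi : (Nat.card (∀ j, S j) : ℂ) = ∏ j, (Nat.card (S j) : ℂ) := by
  rw [Nat.card_pi, Nat.cast_prod]

theorem isChr_prodFn {θ : ∀ j, S j → ℂ} (h : ∀ j, IsChr (θ j)) : IsChr (prodFn θ) := by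
  have h1 := IsChr.prod (Y := ∀ j, S j) Finset.univ
    (fun j x => θ j (Pi.evalMonoidHom S j x)) (fun j => (h j).comp _)
  exact h1

theorem isIrr_prodFn {θ : ∀ j, S j → ℂ} (h : ∀ j, IsIrr (θ j)) : IsIrr (prodFn θ) := by
  apply (isChr_prodFn fun j => (h j).isChr).isIrr
  have h1 : ∀ x : ∀ j, S j, prodFn θ x * prodFn θ x⁻¹ =
      prodFn (fun j s => θ j s * θ j s⁻¹) x := by
    intro x
    simp only [prodFn, ← Finset.prod_mul_distrib]
    rfl
  simp only [h1]
  rw [sum_prodFn, card_pi]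
  exact Finset.prod_congr rfl fun j _ => (h j).sum_self

theorem ip_prodFn (θ θ' : ∀ j, S j → ℂ) : ip (prodFn θ) (prodFn θ') = ∏ j, ip (θ j) (θ' j) := by
  have h1 : ∀ x : ∀ j, S j, prodFn θ x * prodFn θ' x⁻¹ =
      prodFn (fun j s => θ j s * θ' j s⁻¹) x := by
    intro x
    simp only [prodFn, ← Finset.prod_mul_distrib]
    rfl
  simp only [ip, h1]
  rw [sum_prodFn, card_pi, Finset.prod_div_distrib]

theorem prodFn_inj {θ θ' : ∀ j, S j → ℂ} (h : ∀ j, IsIrr (θ j)) (h' : ∀ j, IsIrr (θ' j))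
    (heq : prodFn θ = prodFn θ') : θ = θ' := by
  by_contra hne
  obtain ⟨j, hj⟩ : ∃ j, θ j ≠ θ' j := by
    by_contra hcon
    push Not at hcon
    exact hne (funext hcon)
  have h1 : ip (prodFn θ) (prodFn θ') = 0 := by
    rw [ip_prodFn]
    exact Finset.prod_eq_zero (Finset.mem_univ j) (ip_ne (h j) (h' j) hj)
  rw [heq, ip_self (isIrr_prodFn h')] at h1
  exact one_ne_zero h1

/-- Every irreducible character of a product is an outer product. -/
theorem exists_prodFn {ψ : (∀ j, S j) → ℂ} (hψ : IsIrr ψ) :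
    ∃ θ : ∀ j, S j → ℂ, (∀ j, IsIrr (θ j)) ∧ prodFn θ = ψ := by
  classical
  by_contra hcon
  push Not at hcon
  set A : Finset ((∀ j, S j) → ℂ) := (Fintype.piFinset fun j => irrF (S j)).image prodFn with hA
  have hAsub : A ⊆ irrF (∀ j, S j) := by
    intro φ hφ
    obtain ⟨θ, hθ, rfl⟩ := Finset.mem_image.mp hφ
    rw [Fintype.mem_piFinset] at hθ
    exact mem_irrF.mpr (isIrr_prodFn fun j => mem_irrF.mp (hθ j))
  have hnot : ψ ∉ A := by
    intro h
    obtain ⟨θ, hθ, h1⟩ := Finset.mem_image.mp h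
    rw [Fintype.mem_piFinset] at hθ
    exact hcon θ (fun j => mem_irrF.mp (hθ j)) h1
  have h1 : ∑ φ ∈ A, φ 1 * φ 1 = (Nat.card (∀ j, S j) : ℂ) := by
    rw [hA, Finset.sum_image]
    · have h2 : ∀ θ ∈ Fintype.piFinset fun j => irrF (S j),
          prodFn θ 1 * prodFn θ 1 = ∏ j, (θ j 1 * θ j 1) := by
        intro θ _
        rw [prodFn_one, Finset.prod_mul_distrib]
      rw [Finset.sum_congr rfl h2, ← Finset.prod_univ_sum (fun j => irrF (S j))
        (fun j θ => θ 1 * θ 1), card_pi]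
      exact Finset.prod_congr rfl fun j _ => sum_sq
    · intro θ hθ θ' hθ' heq
      rw [Finset.mem_coe, Fintype.mem_piFinset] at hθ hθ'
      exact prodFn_inj (fun j => mem_irrF.mp (hθ j)) (fun j => mem_irrF.mp (hθ' j)) heq
  have h2 := sum_sq (Y := ∀ j, S j)
  rw [← Finset.sum_sdiff hAsub, h1, add_eq_right] at h2
  have hdeg : ∀ φ : (∀ j, S j) → ℂ, ∃ n : ℕ, IsIrr φ → 0 < n ∧ φ 1 = n := by
    intro φ
    by_cases h : IsIrr φ
    · obtain ⟨n, hn, hn'⟩ := h.exists_degree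
      exact ⟨n, fun _ => ⟨hn, hn'⟩⟩
    · exact ⟨0, fun h' => absurd h' h⟩
  choose n hn using hdeg
  have h3 : ∑ φ ∈ irrF (∀ j, S j) \ A, φ 1 * φ 1 =
      ((∑ φ ∈ irrF (∀ j, S j) \ A, n φ * n φ : ℕ) : ℂ) := by
    push_cast
    refine Finset.sum_congr rfl fun φ hφ => ?_
    rw [(hn φ (mem_irrF.mp (Finset.mem_sdiff.mp hφ).1)).2]
  rw [h3] at h2
  have h4 : ∑ φ ∈ irrF (∀ j, S j) \ A, n φ * n φ = 0 := by exact_mod_cast h2
  rw [Finset.sum_eq_zero_iff] at h4
  have h5 := h4 ψ (Finset.mem_sdiff.mpr ⟨mem_irrF.mpr hψ, hnot⟩)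
  have h6 := (hn ψ hψ).1
  nlinarith

theorem card_irr_pi (P : ((∀ j, S j) → ℂ) → Prop) :
    Nat.card {ψ : (∀ j, S j) → ℂ // IsIrr ψ ∧ P ψ} =
      Nat.card {θ : ∀ j, S j → ℂ // (∀ j, IsIrr (θ j)) ∧ P (prodFn θ)} := by
  symm
  refine Nat.card_congr (Equiv.ofBijective
    (fun θ => ⟨prodFn θ.1, isIrr_prodFn θ.2.1, θ.2.2⟩) ⟨?_, ?_⟩)
  · intro θ θ' h
    apply Subtype.ext
    exact prodFn_inj θ.2.1 θ'.2.1 (congrArg Subtype.val h)
  · rintro ⟨ψ, hψ, hP⟩
    obtain ⟨θ, hθ, rfl⟩ := exists_prodFn hψ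
    exact ⟨⟨θ, hθ, hP⟩, rfl⟩

theorem padicValNat_prod {ℓ : ℕ} [Fact ℓ.Prime] (s : Finset ι) (f : ι → ℕ)
    (hf : ∀ j, f j ≠ 0) : padicValNat ℓ (∏ j ∈ s, f j) = ∑ j ∈ s, padicValNat ℓ (f j) := by
  classical
  induction s using Finset.induction_on with
  | empty => simp
  | insert a s ha ih =>
    rw [Finset.prod_insert ha, Finset.sum_insert ha,
      padicValNat.mul (hf a) (Finset.prod_ne_zero_iff.mpr fun j _ => hf j), ih]

theorem hasDefect_prodFn {ℓ : ℕ} [Fact ℓ.Prime] {θ : ∀ j, S j → ℂ} (h : ∀ j, IsIrr (θ j))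
    {d : ι → ℕ} (hd : ∀ j, HasDefect ℓ (θ j) (d j)) (e : ℕ) :
    HasDefect ℓ (prodFn θ) e ↔ ∑ j, d j = e := by
  choose n hn hn' using hd
  have hn0 : ∀ j, n j ≠ 0 := by
    intro j h0
    apply (h j).one_ne_zero
    rw [hn, h0]
    simp
  have h1 : HasDefect ℓ (prodFn θ) (∑ j, d j) := by
    refine ⟨∏ j, n j, ?_, ?_⟩
    · rw [prodFn_one]
      push_cast
      exact Finset.prod_congr rfl fun j _ => hn j
    · rw [Nat.card_pi, padicValNat_prod _ _ fun j => Nat.card_pos.ne', padicValNat_prod _ _ hn0,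
        ← Finset.sum_add_distrib]
      exact Finset.sum_congr rfl fun j _ => hn' j
  constructor
  · intro h2
    exact h1.unique h2
  · rintro rfl
    exact h1

/-- The product homomorphism. -/
def piHom {T : ι → Type*} [∀ j, Group (T j)] (i : ∀ j, S j →* T j) : (∀ j, S j) →* (∀ j, T j) where
  toFun x j := i j (x j)
  map_one' := by
    ext j
    simp
  map_mul' x y := by
    ext j
    simp

theorem isConj_pi_iff {T : ι → Type*} [∀ j, Group (T j)] {x y : ∀ j, T j} :
    IsConj x y ↔ ∀ j, IsConj (x j) (y j) := by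
  constructor
  · intro h j
    obtain ⟨c, rfl⟩ := isConj_iff.mp h
    exact isConj_iff.mpr ⟨c j, rfl⟩
  · intro h
    choose c hc using fun j => isConj_iff.mp (h j)
    exact isConj_iff.mpr ⟨c, funext hc⟩

theorem conjInd_pi {T : ι → Type*} [∀ j, Group (T j)] (x y : ∀ j, T j) :
    conjInd x y = ∏ j, conjInd (x j) (y j) := by
  classical
  by_cases h : IsConj x y
  · rw [conjInd, if_pos h]
    symm
    apply Finset.prod_eq_one
    intro j _
    rw [conjInd, if_pos (isConj_pi_iff.mp h j)]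
  · rw [conjInd, if_neg h]
    rw [isConj_pi_iff] at h
    push Not at h
    obtain ⟨j, hj⟩ := h
    symm
    apply Finset.prod_eq_zero (Finset.mem_univ j)
    rw [conjInd, if_neg hj]

theorem wt_prodFn (θ f : ∀ j, S j → ℂ) : wt (prodFn θ) (prodFn f) = ∏ j, wt (θ j) (f j) := by
  have h1 : ∀ x : ∀ j, S j, prodFn f x * prodFn θ x = prodFn (fun j s => f j s * θ j s) x := by
    intro x
    simp only [prodFn, ← Finset.prod_mul_distrib]
  simp only [wt, h1]
  rw [sum_prodFn, prodFn_one, Finset.prod_div_distrib]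

variable (𝔐 : Ideal (integralClosure ℤ ℂ))

theorem red_prod {α : Type*} (s : Finset α) (f : α → ℂ) (h : ∀ i ∈ s, IsIntegral ℤ (f i)) :
    red 𝔐 (∏ i ∈ s, f i) = ∏ i ∈ s, red 𝔐 (f i) := by
  classical
  induction s using Finset.induction_on with
  | empty => simp [red_one]
  | insert a s ha ih =>
    rw [Finset.prod_insert ha, Finset.prod_insert ha,
      red_mul 𝔐 (h a (Finset.mem_insert_self _ _))
        (IsIntegral.prod _ fun i hi => h i (Finset.mem_insert_of_mem hi)),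
      ih fun i hi => h i (Finset.mem_insert_of_mem hi)]

variable {G : Type*} [Group G] [Fintype G]

theorem cen_prodFn (i : ∀ j, S j →* G) {θ : ∀ j, S j → ℂ} (h : ∀ j, IsIrr (θ j)) (x : ι → G) :
    cen 𝔐 (piHom i : (∀ j, S j) →* (ι → G)) (prodFn θ) x = ∏ j, cen 𝔐 (i j) (θ j) (x j) := by
  have h1 : (fun y : ∀ j, S j => conjInd (piHom i y : ι → G) x) =
      prodFn (fun j s => conjInd (i j s) (x j)) := by
    ext y
    rw [conjInd_pi]
    rfl
  simp only [cen]
  rw [h1, wt_prodFn, red_prod]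
  intro j _
  exact isIntegral_wt_conj (i j) (h j) (x j)


end ProdChar

end Pool.Agent.Lib_helper13


end

section

set_option linter.unusedSectionVars false

/-! Counts of irreducible characters of products, and chain sums of powers of a group. -/

namespace Pool.Agent.Lib_helper13

open Representation

section CntPi

variable (𝔐 : Ideal (integralClosure ℤ ℂ))

theorem natCard_irr_eq {Y : Type*} [Group Y] [Fintype Y] (P : (Y → ℂ) → Prop)
    [DecidablePred P] : Nat.card {θ : Y → ℂ // IsIrr θ ∧ P θ} = ((irrF Y).filter P).card := by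
  classical
  have : Nat.card {θ : Y → ℂ // IsIrr θ ∧ P θ} = Nat.card ((irrF Y).filter P) :=
    Nat.card_congr (Equiv.subtypeEquivRight fun θ => by
      rw [Finset.mem_filter, mem_irrF])
  rw [this, Nat.card_eq_fintype_card, Fintype.card_coe]

theorem cen_at_one {Y G : Type*} [Group Y] [Fintype Y] [Group G] {i : Y →* G}
    (hi : Function.Injective i) {θ : Y → ℂ} (hθ : IsIrr θ) : cen 𝔐 i θ 1 = 1 := by
  classical
  rw [cen, ← red_one 𝔐, wt]
  congr 1
  rw [div_eq_one_iff_eq hθ.one_ne_zero, Finset.sum_eq_single (1 : Y)]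
  · rw [map_one, conjInd, if_pos (IsConj.refl _), one_mul]
  · intro b _ hb
    rw [conjInd, if_neg, zero_mul]
    intro hc
    apply hb
    apply hi
    rw [map_one]
    exact isConj_one_left.mp hc
  · simp

variable {ι : Type*} [Fintype ι] [DecidableEq ι] {S : ι → Type*} [∀ j, Group (S j)]
  [∀ j, Fintype (S j)] {G : Type*} [Group G] [Fintype G]

/-- The product block function. -/
noncomputable def powFn (ι : Type*) [Fintype ι] {G : Type*}
    (ω : G → (integralClosure ℤ ℂ) ⧸ 𝔐) (x : ι → G) : (integralClosure ℤ ℂ) ⧸ 𝔐 := ∏ j, ω (x j)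

theorem prod_eq_powFn_iff {lam : ι → G → (integralClosure ℤ ℂ) ⧸ 𝔐}
    {ω : G → (integralClosure ℤ ℂ) ⧸ 𝔐} (h1 : ∀ j, lam j 1 = 1) (hω : ω 1 = 1) :
    (∀ x : ι → G, ∏ j, lam j (x j) = powFn 𝔐 ι ω x) ↔ ∀ j g, lam j g = ω g := by
  constructor
  · intro h j g
    have h2 := h (Pi.mulSingle j g)
    rw [powFn, Finset.prod_eq_single j, Finset.prod_eq_single j, Pi.mulSingle_eq_same] at h2
    · exact h2
    · intro k _ hk
      rw [Pi.mulSingle_eq_of_ne hk, hω]
    · simp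
    · intro k _ hk
      rw [Pi.mulSingle_eq_of_ne hk, h1]
    · simp
  · intro h x
    rw [powFn]
    exact Finset.prod_congr rfl fun j _ => h j _

theorem cnt_pi {ℓ : ℕ} [Fact ℓ.Prime] (d : ℕ) (i : ∀ j, S j →* G)
    (hi : ∀ j, Function.Injective (i j)) (ω : G → (integralClosure ℤ ℂ) ⧸ 𝔐) (hω : ω 1 = 1) :
    cnt 𝔐 ℓ d (piHom i : (∀ j, S j) →* (ι → G)) (powFn 𝔐 ι ω) =
      ∑ e ∈ Finset.piAntidiag (Finset.univ : Finset ι) d, ∏ j, cnt 𝔐 ℓ (e j) (i j) ω := by
  classical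
  let F : ∀ j : ι, ℕ → Finset (S j → ℂ) := fun j e =>
    (irrF (S j)).filter (fun θ => HasDefect ℓ θ e ∧ ∀ g, cen 𝔐 (i j) θ g = ω g)
  have hF : ∀ j e, cnt 𝔐 ℓ e (i j) ω = (F j e).card := fun j e => natCard_irr_eq _
  have hFm : ∀ j e θ, θ ∈ F j e ↔ IsIrr θ ∧ HasDefect ℓ θ e ∧ ∀ g, cen 𝔐 (i j) θ g = ω g := by
    intro j e θ
    rw [Finset.mem_filter, mem_irrF]
  have hU : cnt 𝔐 ℓ d (piHom i : (∀ j, S j) →* (ι → G)) (powFn 𝔐 ι ω) =
      ((Finset.piAntidiag (Finset.univ : Finset ι) d).biUnion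
        (fun e => Fintype.piFinset (fun j => F j (e j)))).card := by
    rw [cnt, card_irr_pi]
    rw [← Fintype.card_coe, ← Nat.card_eq_fintype_card]
    apply Nat.card_congr
    apply Equiv.subtypeEquivRight
    intro θ
    rw [Finset.mem_biUnion]
    constructor
    · rintro ⟨h1, h2, h3⟩
      choose e he using fun j => (h1 j).exists_defect (ℓ := ℓ)
      refine ⟨e, ?_, ?_⟩
      · rw [Finset.mem_piAntidiag]
        exact ⟨(hasDefect_prodFn h1 he d).mp h2, fun j _ => Finset.mem_univ j⟩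
      · rw [Fintype.mem_piFinset]
        intro j
        rw [hFm]
        refine ⟨h1 j, he j, ?_⟩
        refine (prod_eq_powFn_iff 𝔐 (fun j => cen_at_one 𝔐 (hi j) (h1 j)) hω).mp ?_ j
        intro x
        rw [← cen_prodFn 𝔐 i h1]
        exact h3 x
    · rintro ⟨e, he, h⟩
      rw [Fintype.mem_piFinset] at h
      have h' := fun j => (hFm j (e j) (θ j)).mp (h j)
      refine ⟨fun j => (h' j).1, ?_, ?_⟩
      · rw [Finset.mem_piAntidiag] at he
        exact (hasDefect_prodFn (fun j => (h' j).1) (fun j => (h' j).2.1) d).mpr he.1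
      · intro x
        rw [cen_prodFn 𝔐 i (fun j => (h' j).1)]
        exact (prod_eq_powFn_iff 𝔐 (fun j => cen_at_one 𝔐 (hi j) (h' j).1) hω).mpr
          (fun j g => (h' j).2.2 g) x
  rw [hU, Finset.card_biUnion]
  · refine Finset.sum_congr rfl fun e _ => ?_
    rw [Fintype.card_piFinset]
    exact Finset.prod_congr rfl fun j _ => (hF j (e j)).symm
  · intro e _ e' _ hne
    rw [Function.onFun, Finset.disjoint_left]
    intro θ hθ hθ'
    rw [Fintype.mem_piFinset] at hθ hθ'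
    apply hne
    ext j
    exact ((hFm j _ _).mp (hθ j)).2.1.unique ((hFm j _ _).mp (hθ' j)).2.1

/-- A product of subgroups as a product of groups. -/
def pKEquiv (K : ι → Subgroup G) : (∀ j, K j) ≃* pK K where
  toFun x := ⟨fun j => x j, mem_pK.mpr fun j => (x j).2⟩
  invFun x j := ⟨x.1 j, mem_pK.mp x.2 j⟩
  left_inv _ := rfl
  right_inv _ := rfl
  map_mul' _ _ := rfl

theorem cnt_pK {ℓ : ℕ} [Fact ℓ.Prime] (d : ℕ) (K : ι → Subgroup G)
    (ω : G → (integralClosure ℤ ℂ) ⧸ 𝔐) (hω : ω 1 = 1) :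
    cnt 𝔐 ℓ d (pK K).subtype (powFn 𝔐 ι ω) =
      ∑ e ∈ Finset.piAntidiag (Finset.univ : Finset ι) d,
        ∏ j, cnt 𝔐 ℓ (e j) (K j).subtype ω := by
  rw [← cnt_pi 𝔐 d (fun j => (K j).subtype) (fun j => Subtype.val_injective) ω hω,
    ← cnt_comp_equiv 𝔐 ℓ d (pKEquiv K)]
  rfl

theorem card_pK (K : ι → Subgroup G) : Nat.card (pK K) = ∏ j, Nat.card (K j) := by
  rw [← Nat.card_congr (pKEquiv K).toEquiv, Nat.card_pi]

/-- Chain sums of a power of a group. -/
theorem KK_pi {ℓ : ℕ} [Fact ℓ.Prime] (d : ℕ) (ω : G → (integralClosure ℤ ℂ) ⧸ 𝔐)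
    (hω : ω 1 = 1) :
    KK 𝔐 ℓ d (⊥ : Subgroup (ι → G)) (powFn 𝔐 ι ω) =
      ∑ e ∈ Finset.piAntidiag (Finset.univ : Finset ι) d,
        ∏ j, KK 𝔐 ℓ (e j) (⊥ : Subgroup G) ω := by
  classical
  rw [KK, sum_closed ℓ (fun σ => (Nat.card (stb σ) : ℚ) *
    cnt 𝔐 ℓ d (stb σ).subtype (powFn 𝔐 ι ω))]
  · have h1 : ∀ σ ∈ ClCh ι G ℓ, (-1 : ℚ) ^ σ.card * ((Nat.card (stb σ) : ℚ) *
        cnt 𝔐 ℓ d (stb σ).subtype (powFn 𝔐 ι ω)) =
        ∑ e ∈ Finset.piAntidiag (Finset.univ : Finset ι) d, (-1 : ℚ) ^ σ.card *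
          ∏ j, ((Nat.card (stb (comp σ j)) : ℚ) *
            cnt 𝔐 ℓ (e j) (stb (comp σ j)).subtype ω) := by
      intro σ hσ
      have h2 := stb_closed (mem_ClCh.mp hσ).2
      rw [h2, cnt_pK 𝔐 d _ ω hω, card_pK]
      push_cast
      rw [Finset.mul_sum, Finset.mul_sum]
      refine Finset.sum_congr rfl fun e _ => ?_
      rw [Finset.prod_mul_distrib]
    rw [Finset.sum_congr rfl h1, Finset.sum_comm]
    refine Finset.sum_congr rfl fun e _ => ?_
    rw [sum_closed_prod ℓ (fun j τ => (Nat.card (stb τ) : ℚ) *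
      cnt 𝔐 ℓ (e j) (stb τ).subtype ω)]
    rfl
  · intro σ _ D hD
    rw [stb_insert_cl hD]

end CntPi

end Pool.Agent.Lib_helper13


end

section

set_option linter.unusedSectionVars false

/-! Clifford theory for normal subgroups of prime index. -/

namespace Pool.Agent.Lib_helper13

open Representation

theorem isChr_lin {Y : Type*} [Group Y] (χ : Y →* ℂˣ) :
    IsChr (fun y : Y => ((χ y : ℂˣ) : ℂ)) := by
  refine ⟨1, (((algebraMap ℂ (Module.End ℂ (Fin 1 → ℂ))) : ℂ →* Module.End ℂ (Fin 1 → ℂ)).comp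
    ((Units.coeHom ℂ).comp χ) : Y →* Module.End ℂ (Fin 1 → ℂ)), ?_⟩
  ext y
  change LinearMap.trace ℂ (Fin 1 → ℂ) (algebraMap ℂ (Module.End ℂ (Fin 1 → ℂ)) (χ y)) = _
  rw [Algebra.algebraMap_eq_smul_one, map_smul, LinearMap.trace_one]
  simp

section Column

variable {Y : Type*} [Group Y] [Fintype Y]

open Classical in
theorem column_orth (x y : Y) :
    ∑ ψ ∈ irrF Y, ψ x * ψ y⁻¹ = ((Finset.univ.filter (fun z : Y => z * y * z⁻¹ = x)).card : ℂ) := by
  classical
  have hcl : ∀ g x : Y, (((Finset.univ.filter (fun z : Y => z * y * z⁻¹ = g * x * g⁻¹)).card : ℂ)) =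
      ((Finset.univ.filter (fun z : Y => z * y * z⁻¹ = x)).card : ℂ) := by
    intro g x
    congr 1
    refine Finset.card_bij (fun z _ => g⁻¹ * z) ?_ ?_ ?_
    · intro z hz
      rw [Finset.mem_filter] at hz ⊢
      refine ⟨Finset.mem_univ _, ?_⟩
      have h1 : g⁻¹ * z * y * (g⁻¹ * z)⁻¹ = g⁻¹ * (z * y * z⁻¹) * g := by group
      rw [h1, hz.2]
      group
    · intro z _ z' _ h
      exact mul_left_cancel h
    · intro z hz
      rw [Finset.mem_filter] at hz
      refine ⟨g * z, ?_, by group⟩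
      rw [Finset.mem_filter]
      refine ⟨Finset.mem_univ _, ?_⟩
      have h1 : g * z * y * (g * z)⁻¹ = g * (z * y * z⁻¹) * g⁻¹ := by group
      rw [h1, hz.2]
  have h := class_fn_expand (Y := Y)
    (fun x => ((Finset.univ.filter (fun z : Y => z * y * z⁻¹ = x)).card : ℂ)) hcl
  have h1 : ∀ ψ ∈ irrF Y, ip (fun x => ((Finset.univ.filter
      (fun z : Y => z * y * z⁻¹ = x)).card : ℂ)) ψ = ψ y⁻¹ := by
    intro ψ hψ
    rw [ip]
    have h2 : ∀ x : Y, ((Finset.univ.filter (fun z : Y => z * y * z⁻¹ = x)).card : ℂ) * ψ x⁻¹ =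
        ∑ z : Y, if z * y * z⁻¹ = x then ψ x⁻¹ else 0 := by
      intro x
      rw [Finset.card_filter]
      push_cast
      rw [Finset.sum_mul]
      refine Finset.sum_congr rfl fun z _ => ?_
      split_ifs <;> simp
    simp only [h2]
    rw [Finset.sum_comm]
    have h3 : ∀ z : Y, ∑ x : Y, (if z * y * z⁻¹ = x then ψ x⁻¹ else 0) = ψ y⁻¹ := by
      intro z
      rw [Finset.sum_ite_eq Finset.univ (z * y * z⁻¹) (fun x => ψ x⁻¹), if_pos (Finset.mem_univ _)]
      have h4 : (z * y * z⁻¹)⁻¹ = z * y⁻¹ * z⁻¹ := by group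
      rw [h4, (mem_irrF.mp hψ).conj_eq]
    simp only [h3]
    rw [Finset.sum_const, Finset.card_univ, nsmul_eq_mul, ← Nat.card_eq_fintype_card,
      mul_comm, mul_div_assoc, div_self natCard_ne_zero, mul_one]
  have h2 := congrFun h x
  rw [h2]
  refine Finset.sum_congr rfl fun ψ hψ => ?_
  rw [h1 ψ hψ, mul_comm]

end Column

section Cliff

variable {Y K C : Type*} [Group Y] [Fintype Y] [Group K] [Fintype K] [CommGroup C] [Finite C]

/-- A normal subgroup of prime index. -/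
structure Cliff (j : K →* Y) (π : Y →* C) (c : Y →* MulAut K) (q : ℕ) : Prop where
  prime : q.Prime
  inj : Function.Injective j
  surj : Function.Surjective π
  ker : ∀ y, π y = 1 ↔ y ∈ j.range
  act : ∀ y k, j (c y k) = y * j k * y⁻¹
  card : Nat.card C = q

variable {j : K →* Y} {π : Y →* C} {c : Y →* MulAut K} {q : ℕ}

/-- Conjugate characters. -/
def cfn (c : Y →* MulAut K) (θ : K → ℂ) (y : Y) : K → ℂ := fun k => θ (c y k)

theorem IsIrr.cfn {θ : K → ℂ} (h : IsIrr θ) (y : Y) : IsIrr (cfn c θ y) :=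
  h.comp_mulEquiv (c y)

theorem cfn_mul (θ : K → ℂ) (x y : Y) : cfn c (cfn c θ x) y = cfn c θ (x * y) := by
  ext k
  simp [cfn, map_mul, MulAut.mul_apply]

theorem cfn_one (θ : K → ℂ) : cfn c θ 1 = θ := by
  ext k
  simp [cfn]

theorem cfn_deg (θ : K → ℂ) (y : Y) : cfn c θ y 1 = θ 1 := by
  rw [cfn, map_one]

/-- Restriction. -/
def resj (j : K →* Y) (ψ : Y → ℂ) : K → ℂ := fun k => ψ (j k)

theorem IsIrr.resj {ψ : Y → ℂ} (h : IsIrr ψ) (j : K →* Y) : IsChr (resj j ψ) := h.isChr.comp j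

theorem resj_class {ψ : Y → ℂ} (h : IsIrr ψ) (g x : K) :
    resj j ψ (g * x * g⁻¹) = resj j ψ x := (h.resj j).conj_eq g x

theorem Cliff.cfn_range (hc : Cliff j π c q) {θ : K → ℂ} (hθ : IsIrr θ) (k : K) :
    cfn c θ (j k) = θ := by
  ext x
  rw [cfn]
  have h1 : c (j k) x = k * x * k⁻¹ := by
    apply hc.inj
    rw [hc.act, map_mul, map_mul, map_inv]
  rw [h1, hθ.conj_eq]

open Classical in
theorem Cliff.sum_mult (hc : Cliff j π c q) {θ θ' : K → ℂ} (hθ : IsIrr θ) (hθ' : IsIrr θ') :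
    (Nat.card K : ℂ) * ∑ ψ ∈ irrF Y, ip (resj j ψ) θ * ip (resj j ψ) θ' =
      ((Finset.univ.filter (fun y : Y => cfn c θ y = θ')).card : ℂ) := by
  classical
  have hK : (Nat.card K : ℂ) ≠ 0 := natCard_ne_zero
  have h1 : ∀ ψ ∈ irrF Y, (Nat.card K : ℂ) * (Nat.card K : ℂ) *
      (ip (resj j ψ) θ * ip (resj j ψ) θ') =
      ∑ k : K, ∑ k' : K, θ k⁻¹ * θ' k' * (ψ (j k) * ψ (j k')⁻¹) := by
    intro ψ _
    have h2 : ip (resj j ψ) θ' = ip θ' (resj j ψ) := ip_comm _ _
    rw [h2, ip, ip]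
    have h3 : (Nat.card K : ℂ) * (Nat.card K : ℂ) *
        ((∑ g, resj j ψ g * θ g⁻¹) / (Nat.card K : ℂ) *
          ((∑ g, θ' g * resj j ψ g⁻¹) / (Nat.card K : ℂ))) =
        (∑ g, resj j ψ g * θ g⁻¹) * (∑ g, θ' g * resj j ψ g⁻¹) := by
      field_simp
    rw [h3, Finset.sum_mul_sum]
    refine Finset.sum_congr rfl fun k _ => Finset.sum_congr rfl fun k' _ => ?_
    rw [resj, resj, map_inv]
    ring
  have h2 : (Nat.card K : ℂ) * (Nat.card K : ℂ) *
      ∑ ψ ∈ irrF Y, ip (resj j ψ) θ * ip (resj j ψ) θ' =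
      ∑ k : K, ∑ k' : K, θ k⁻¹ * θ' k' *
        ((Finset.univ.filter (fun z : Y => z * j k' * z⁻¹ = j k)).card : ℂ) := by
    rw [Finset.mul_sum, Finset.sum_congr rfl h1, Finset.sum_comm]
    refine Finset.sum_congr rfl fun k _ => ?_
    rw [Finset.sum_comm]
    refine Finset.sum_congr rfl fun k' _ => ?_
    rw [← Finset.mul_sum, column_orth]
  have h3 : ∑ k : K, ∑ k' : K, θ k⁻¹ * θ' k' *
        ((Finset.univ.filter (fun z : Y => z * j k' * z⁻¹ = j k)).card : ℂ) =
      ∑ z : Y, ∑ k' : K, θ' k' * cfn c θ z k'⁻¹ := by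
    have h4 : ∀ k k' : K, θ k⁻¹ * θ' k' *
        ((Finset.univ.filter (fun z : Y => z * j k' * z⁻¹ = j k)).card : ℂ) =
        ∑ z : Y, if c z k' = k then θ' k' * θ k⁻¹ else 0 := by
      intro k k'
      rw [Finset.card_filter]
      push_cast
      rw [Finset.mul_sum]
      refine Finset.sum_congr rfl fun z _ => ?_
      have h5 : z * j k' * z⁻¹ = j k ↔ c z k' = k := by
        rw [← hc.act]
        exact hc.inj.eq_iff
      simp only [h5]
      split_ifs
      · ring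
      · ring
    simp only [h4]
    rw [Finset.sum_comm]
    have h5 : ∀ k' : K, ∑ k : K, ∑ z : Y, (if c z k' = k then θ' k' * θ k⁻¹ else 0) =
        ∑ z : Y, θ' k' * cfn c θ z k'⁻¹ := by
      intro k'
      rw [Finset.sum_comm]
      refine Finset.sum_congr rfl fun z _ => ?_
      rw [Finset.sum_ite_eq Finset.univ (c z k') (fun k => θ' k' * θ k⁻¹),
        if_pos (Finset.mem_univ _), cfn, map_inv]
    simp only [h5]
    rw [Finset.sum_comm]
  have h4 : ∀ z : Y, ∑ k' : K, θ' k' * cfn c θ z k'⁻¹ =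
      (Nat.card K : ℂ) * if cfn c θ z = θ' then 1 else 0 := by
    intro z
    split_ifs with h
    · rw [h, hθ'.sum_self, mul_one]
    · rw [hθ'.sum_ne (hθ.cfn z) (fun h' => h h'.symm), mul_zero]
  rw [h3] at h2
  simp only [h4] at h2
  rw [← Finset.mul_sum, mul_assoc] at h2
  have h5 := mul_left_cancel₀ hK h2
  rw [h5, Finset.card_filter]
  push_cast
  rfl

/-- If some irreducible character of `Y` lies over both characters, they are conjugate. -/
theorem Cliff.exists_conj (hc : Cliff j π c q) {θ θ' : K → ℂ} (hθ : IsIrr θ) (hθ' : IsIrr θ')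
    {ψ : Y → ℂ} (hψ : IsIrr ψ) (h : ip (resj j ψ) θ ≠ 0) (h' : ip (resj j ψ) θ' ≠ 0) :
    ∃ y, cfn c θ y = θ' := by
  classical
  by_contra hcon
  push Not at hcon
  have h1 := hc.sum_mult hθ hθ'
  rw [Finset.filter_false_of_mem (fun y _ => hcon y), Finset.card_empty, Nat.cast_zero] at h1
  have h2 := (mul_eq_zero.mp h1).resolve_left natCard_ne_zero
  have hnat : ∀ φ : Y → ℂ, ∃ m : ℕ, IsIrr φ → ip (resj j φ) θ * ip (resj j φ) θ' = m := by
    intro φ
    by_cases hφ : IsIrr φ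
    · obtain ⟨a, ha⟩ := (hφ.resj j).exists_ip hθ.isChr
      obtain ⟨b, hb⟩ := (hφ.resj j).exists_ip hθ'.isChr
      refine ⟨a * b, fun _ => ?_⟩
      rw [ha, hb]
      push_cast
      rfl
    · exact ⟨0, fun h => absurd h hφ⟩
  choose m hm using hnat
  have h3 : ∑ φ ∈ irrF Y, ip (resj j φ) θ * ip (resj j φ) θ' =
      ((∑ φ ∈ irrF Y, m φ : ℕ) : ℂ) := by
    push_cast
    exact Finset.sum_congr rfl fun φ hφ => hm φ (mem_irrF.mp hφ)
  rw [h3] at h2
  have h4 : ∑ φ ∈ irrF Y, m φ = 0 := by exact_mod_cast h2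
  rw [Finset.sum_eq_zero_iff] at h4
  have h5 := h4 ψ (mem_irrF.mpr hψ)
  have h6 := hm ψ hψ
  rw [h5, Nat.cast_zero] at h6
  exact mul_ne_zero h h' h6

theorem Cliff.ip_cfn (hc : Cliff j π c q) {θ ψ} (hψ : IsIrr ψ) (y : Y) :
    ip (resj j ψ) (cfn c θ y) = ip (resj j ψ) θ := by
  rw [ip, ip]
  congr 1
  refine Fintype.sum_equiv (c y).toEquiv _ _ fun k => ?_
  change resj j ψ k * θ (c y k⁻¹) = resj j ψ (c y k) * θ (c y k)⁻¹
  rw [resj, resj, hc.act, hψ.conj_eq, map_inv]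

theorem Cliff.card_mul (hc : Cliff j π c q) : Nat.card Y = q * Nat.card K := by
  have h1 := Subgroup.card_mul_index j.range
  have h2 : π.ker = j.range := by
    ext y
    rw [MonoidHom.mem_ker]
    exact hc.ker y
  rw [← h2, Subgroup.index_ker, MonoidHom.range_eq_top.mpr hc.surj, h2] at h1
  rw [← h1, mul_comm, ← hc.card]
  congr 1
  · exact Nat.card_congr Subgroup.topEquiv.toEquiv
  · exact Nat.card_congr (MonoidHom.ofInjective hc.inj).symm.toEquiv

theorem Cliff.sum_range (hc : Cliff j π c q) {M : Type*} [AddCommMonoid M] (f : Y → M)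
    (hf : ∀ y, π y ≠ 1 → f y = 0) : ∑ y, f y = ∑ k, f (j k) := by
  classical
  have h1 : ∑ k, f (j k) = ∑ y ∈ Finset.univ.image j, f y := by
    rw [Finset.sum_image]
    intro a _ b _ h
    exact hc.inj h
  rw [h1]
  symm
  apply Finset.sum_subset (Finset.subset_univ _)
  intro y _ hy
  apply hf
  intro h
  apply hy
  obtain ⟨k, rfl⟩ := (hc.ker y).mp h
  exact Finset.mem_image_of_mem _ (Finset.mem_univ k)

/-- The norm of the restriction is `1` or `q`. -/
theorem Cliff.norm_res (hc : Cliff j π c q) {ψ : Y → ℂ} (hψ : IsIrr ψ) :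
    ip (resj j ψ) (resj j ψ) = 1 ∨ ip (resj j ψ) (resj j ψ) = q := by
  classical
  have hfX : Fintype (C →* ℂˣ) := Fintype.ofFinite _
  have hXcard : Nat.card (C →* ℂˣ) = q := by
    have : NeZero (Monoid.exponent C : ℂ) := by
      constructor
      have := Monoid.exponent_ne_zero_of_finite (G := C)
      exact_mod_cast this
    obtain ⟨e⟩ := CommGroup.monoidHom_mulEquiv_of_hasEnoughRootsOfUnity C ℂ
    rw [Nat.card_congr e.toEquiv, hc.card]
  -- twists
  have htw : ∀ lam : C →* ℂˣ, IsIrr (fun y => ψ y * ((lam (π y) : ℂˣ) : ℂ)) := by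
    intro lam
    have h1 : IsChr (fun y : Y => ((lam (π y) : ℂˣ) : ℂ)) := isChr_lin (lam.comp π)
    apply (hψ.isChr.mul h1).isIrr
    rw [← hψ.sum_self]
    refine Finset.sum_congr rfl fun g _ => ?_
    rw [map_inv, map_inv, mul_mul_mul_comm, ← Units.val_mul, mul_inv_cancel, Units.val_one,
      mul_one]
  let St : Subgroup (C →* ℂˣ) :=
    { carrier := {lam | ∀ y, ψ y * ((lam (π y) : ℂˣ) : ℂ) = ψ y}
      one_mem' := by
        intro y
        simp
      mul_mem' := by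
        intro a b ha hb y
        rw [MonoidHom.mul_apply, Units.val_mul, ← mul_assoc, ha, hb]
      inv_mem' := by
        intro a ha y
        conv_lhs => rw [← ha y]
        rw [MonoidHom.inv_apply, mul_assoc, ← Units.val_mul, mul_inv_cancel, Units.val_one,
          mul_one] }
  have hSt : Nat.card St ∣ q := by
    rw [← hXcard]
    exact Subgroup.card_subgroup_dvd_card St
  have hcount : (Nat.card St : ℂ) * Nat.card Y = q * (Nat.card K * ip (resj j ψ) (resj j ψ)) := by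
    have h1 : ∑ lam : C →* ℂˣ, ∑ y : Y, ψ y * ((lam (π y) : ℂˣ) : ℂ) * ψ y⁻¹ =
        (Nat.card St : ℂ) * Nat.card Y := by
      have h2 : ∀ lam : C →* ℂˣ, ∑ y : Y, ψ y * ((lam (π y) : ℂˣ) : ℂ) * ψ y⁻¹ =
          if lam ∈ St then (Nat.card Y : ℂ) else 0 := by
        intro lam
        split_ifs with h
        · rw [← hψ.sum_self]
          refine Finset.sum_congr rfl fun y _ => ?_
          rw [h y]
        · apply (htw lam).sum_ne hψ
          intro h3
          exact h fun y => congrFun h3 y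
      simp only [h2]
      rw [← Finset.sum_filter, Finset.sum_const, nsmul_eq_mul, Nat.card_eq_fintype_card (α := St),
        Fintype.card_subtype]
    have h2 : ∑ lam : C →* ℂˣ, ∑ y : Y, ψ y * ((lam (π y) : ℂˣ) : ℂ) * ψ y⁻¹ =
        q * (Nat.card K * ip (resj j ψ) (resj j ψ)) := by
      rw [Finset.sum_comm]
      have h3 : ∀ y : Y, ∑ lam : C →* ℂˣ, ψ y * ((lam (π y) : ℂˣ) : ℂ) * ψ y⁻¹ =
          ψ y * ψ y⁻¹ * ∑ lam : C →* ℂˣ, ((lam (π y) : ℂˣ) : ℂ) := by
        intro y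
        rw [Finset.mul_sum]
        exact Finset.sum_congr rfl fun lam _ => by ring
      simp only [h3]
      rw [hc.sum_range]
      · have h4 : ∀ k : K, ψ (j k) * ψ (j k)⁻¹ * ∑ lam : C →* ℂˣ, ((lam (π (j k)) : ℂˣ) : ℂ) =
            q * (resj j ψ k * resj j ψ k⁻¹) := by
          intro k
          rw [(hc.ker (j k)).mpr ⟨k, rfl⟩]
          simp only [map_one, Units.val_one]
          rw [Finset.sum_const, Finset.card_univ, ← Nat.card_eq_fintype_card, hXcard,
            nsmul_eq_mul, mul_one, mul_comm, resj, resj, map_inv]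
        simp only [h4]
        rw [← Finset.mul_sum, ip, mul_div_cancel₀ _ natCard_ne_zero]
      · intro y hy
        rw [sum_dual hy, mul_zero]
    rw [← h1, h2]
  have hq0 : (q : ℂ) ≠ 0 := by
    exact_mod_cast hc.prime.ne_zero
  have hK : (Nat.card K : ℂ) ≠ 0 := natCard_ne_zero
  have hres : ip (resj j ψ) (resj j ψ) = Nat.card St := by
    rw [hc.card_mul] at hcount
    push_cast at hcount
    have h1 : (q : ℂ) * Nat.card K * ip (resj j ψ) (resj j ψ) = q * Nat.card K * Nat.card St := by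
      rw [mul_assoc, ← hcount]
      ring
    exact mul_left_cancel₀ (mul_ne_zero hq0 hK) h1
  rcases (Nat.dvd_prime hc.prime).mp hSt with h | h
  · left
    rw [hres, h, Nat.cast_one]
  · right
    rw [hres, h]

end Cliff

end Pool.Agent.Lib_helper13


end

section

set_option linter.unusedSectionVars false

/-! Counting irreducible characters over a normal subgroup of prime index. -/

namespace Pool.Agent.Lib_helper13

open Representation

section Count

variable {Y K C : Type*} [Group Y] [Fintype Y] [Group K] [Fintype K] [CommGroup C] [Finite C]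
variable {j : K →* Y} {π : Y →* C} {c : Y →* MulAut K} {q : ℕ}

/-- Invariant characters. -/
def Inv (c : Y →* MulAut K) (θ : K → ℂ) : Prop := ∀ y, cfn c θ y = θ

theorem Cliff.res_inv (hc : Cliff j π c q) {θ : K → ℂ} (hθ : IsIrr θ) (hinv : Inv c θ)
    {ψ : Y → ℂ} (hψ : IsIrr ψ) (h : ip (resj j ψ) θ ≠ 0) : resj j ψ = θ := by
  classical
  have h1 := class_fn_expand (resj j ψ) (resj_class hψ)
  have h2 : ∀ θ' ∈ irrF K, θ' ≠ θ → ip (resj j ψ) θ' = 0 := by
    intro θ' hθ' hne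
    by_contra h3
    obtain ⟨y, hy⟩ := hc.exists_conj hθ (mem_irrF.mp hθ') hψ h h3
    exact hne (by rw [← hy, hinv y])
  have h3 : resj j ψ = fun x => ip (resj j ψ) θ * θ x := by
    conv_lhs => rw [h1]
    ext x
    rw [Finset.sum_eq_single θ]
    · intro θ' hθ' hne
      rw [h2 θ' hθ' hne, zero_mul]
    · intro h4
      exact absurd (mem_irrF.mpr hθ) h4
  obtain ⟨m, hm⟩ := (hψ.resj j).exists_ip hθ.isChr
  have h4 : ip (resj j ψ) (resj j ψ) = m * m := by
    have h5 : ip (resj j ψ) (resj j ψ) = ip θ (resj j ψ) * m := by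
      conv_lhs => rw [h3]
      rw [hm]
      simp only [ip]
      have : ∀ g, (m : ℂ) * θ g * (m * θ g⁻¹) = m * (θ g * (m * θ g⁻¹)) := fun g => by ring
      simp only [this]
      rw [← Finset.mul_sum, mul_div_assoc, mul_comm]
      congr 3
      ext g
      have h6 := congrFun h3 g⁻¹
      rw [hm] at h6
      rw [← h6]
    rw [h5, ip_comm, hm]
  have hm1 : m = 1 := by
    rcases hc.norm_res hψ with h5 | h5
    · rw [h4] at h5
      have h6 : m * m = 1 := by exact_mod_cast h5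
      exact Nat.eq_one_of_mul_eq_one_right h6
    · rw [h4] at h5
      have h6 : m * m = q := by exact_mod_cast h5
      by_contra h7
      exact Nat.not_prime_mul h7 h7 (by rw [h6]; exact hc.prime)
  rw [h3, hm, hm1]
  ext x
  simp

theorem Cliff.card_stab (hc : Cliff j π c q) {θ : K → ℂ} (hθ : IsIrr θ)
    [DecidablePred fun y : Y => cfn c θ y = θ] :
    (Inv c θ ∧ (Finset.univ.filter (fun y : Y => cfn c θ y = θ)).card = q * Nat.card K) ∨
      (¬ Inv c θ ∧ (Finset.univ.filter (fun y : Y => cfn c θ y = θ)).card = Nat.card K) := by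
  classical
  by_cases h : Inv c θ
  · left
    refine ⟨h, ?_⟩
    rw [Finset.filter_true_of_mem fun y _ => h y, Finset.card_univ, ← Nat.card_eq_fintype_card,
      hc.card_mul]
  · right
    refine ⟨h, ?_⟩
    let St : Subgroup Y :=
      { carrier := {y | cfn c θ y = θ}
        one_mem' := cfn_one θ
        mul_mem' := by
          intro a b ha hb
          change cfn c θ (a * b) = θ
          rw [← cfn_mul, ha, hb]
        inv_mem' := by
          intro a ha
          change cfn c θ a⁻¹ = θ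
          have h1 : cfn c (cfn c θ a) a⁻¹ = θ := by
            rw [cfn_mul, mul_inv_cancel, cfn_one]
          rwa [ha] at h1 }
    have hSt : (Finset.univ.filter (fun y : Y => cfn c θ y = θ)).card = Nat.card St := by
      rw [Nat.card_eq_fintype_card, Fintype.card_subtype]
      apply congrArg Finset.card
      ext y
      rw [Finset.mem_filter, Finset.mem_filter]
      exact Iff.rfl
    rw [hSt]
    have hle : j.range ≤ St := by
      rintro _ ⟨k, rfl⟩
      exact hc.cfn_range hθ k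
    have hr : Nat.card j.range = Nat.card K :=
      (Nat.card_congr (MonoidHom.ofInjective hc.inj).toEquiv).symm
    obtain ⟨a, ha⟩ := Subgroup.card_dvd_of_le hle
    obtain ⟨b, hb⟩ := Subgroup.card_subgroup_dvd_card St
    rw [hr] at ha
    rw [ha, hc.card_mul] at hb
    have hK : 0 < Nat.card K := Nat.card_pos
    have hab : q = a * b := by
      apply Nat.eq_of_mul_eq_mul_left hK
      rw [mul_comm, hb]
      ring
    rcases (Nat.dvd_prime hc.prime).mp ⟨b, hab⟩ with h1 | h1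
    · rw [ha, h1, mul_one]
    · exfalso
      apply h
      have h2 : St = ⊤ := by
        apply Subgroup.eq_top_of_card_eq
        rw [ha, hc.card_mul, h1, mul_comm]
      intro y
      have : y ∈ St := by
        rw [h2]
        trivial
      exact this

/-- Natural number multiplicities. -/
theorem exists_mult (j : K →* Y) {θ : K → ℂ} (hθ : IsIrr θ) :
    ∃ m : (Y → ℂ) → ℕ, ∀ ψ, IsIrr ψ → ip (resj j ψ) θ = m ψ := by
  have : ∀ ψ : Y → ℂ, ∃ m : ℕ, IsIrr ψ → ip (resj j ψ) θ = m := by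
    intro ψ
    by_cases h : IsIrr ψ
    · obtain ⟨m, hm⟩ := (h.resj j).exists_ip hθ.isChr
      exact ⟨m, fun _ => hm⟩
    · exact ⟨0, fun h' => absurd h' h⟩
  choose m hm using this
  exact ⟨m, hm⟩

theorem Cliff.sum_sq_mult (hc : Cliff j π c q) {θ : K → ℂ} (hθ : IsIrr θ) {m : (Y → ℂ) → ℕ}
    (hm : ∀ ψ, IsIrr ψ → ip (resj j ψ) θ = m ψ) :
    (Inv c θ ∧ ∑ ψ ∈ irrF Y, m ψ * m ψ = q) ∨ (¬ Inv c θ ∧ ∑ ψ ∈ irrF Y, m ψ * m ψ = 1) := by
  classical
  have h1 := hc.sum_mult hθ hθ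
  have h2 : ∑ ψ ∈ irrF Y, ip (resj j ψ) θ * ip (resj j ψ) θ =
      ((∑ ψ ∈ irrF Y, m ψ * m ψ : ℕ) : ℂ) := by
    push_cast
    exact Finset.sum_congr rfl fun ψ hψ => by rw [hm ψ (mem_irrF.mp hψ)]
  rw [h2] at h1
  have h3 : Nat.card K * (∑ ψ ∈ irrF Y, m ψ * m ψ) =
      (Finset.univ.filter (fun y : Y => cfn c θ y = θ)).card := by exact_mod_cast h1
  have hK : 0 < Nat.card K := Nat.card_pos
  rcases hc.card_stab hθ with ⟨h4, h5⟩ | ⟨h4, h5⟩
  · left
    refine ⟨h4, ?_⟩
    rw [h5, mul_comm q] at h3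
    exact Nat.eq_of_mul_eq_mul_left hK h3
  · right
    refine ⟨h4, ?_⟩
    rw [h5] at h3
    apply Nat.eq_of_mul_eq_mul_left hK
    rw [h3, mul_one]

open Classical in
theorem Cliff.card_over_inv (hc : Cliff j π c q) {θ : K → ℂ} (hθ : IsIrr θ) (h : Inv c θ) :
    ((irrF Y).filter (fun ψ => ip (resj j ψ) θ ≠ 0)).card = q := by
  classical
  obtain ⟨m, hm⟩ := exists_mult j hθ
  rcases hc.sum_sq_mult hθ hm with ⟨_, h2⟩ | ⟨h1, _⟩
  · rw [← h2, Finset.card_filter]
    refine Finset.sum_congr rfl fun ψ hψ => ?_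
    have hψ' := mem_irrF.mp hψ
    split_ifs with h3
    · have h4 := hc.res_inv hθ h hψ' h3
      have h5 := hm ψ hψ'
      rw [h4, ip_self hθ] at h5
      have h6 : m ψ = 1 := by exact_mod_cast h5.symm
      rw [h6]
    · rw [not_not] at h3
      rw [hm ψ hψ'] at h3
      have h6 : m ψ = 0 := by exact_mod_cast h3
      rw [h6]
  · exact absurd h h1

open Classical in
theorem Cliff.card_over_moved (hc : Cliff j π c q) {θ : K → ℂ} (hθ : IsIrr θ) (h : ¬ Inv c θ) :
    ((irrF Y).filter (fun ψ => ip (resj j ψ) θ ≠ 0)).card = 1 ∧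
      ∀ ψ, IsIrr ψ → ip (resj j ψ) θ ≠ 0 → ip (resj j ψ) θ = 1 := by
  classical
  obtain ⟨m, hm⟩ := exists_mult j hθ
  rcases hc.sum_sq_mult hθ hm with ⟨h1, _⟩ | ⟨_, h2⟩
  · exact absurd h1 h
  · have h3 : ∀ ψ ∈ irrF Y, m ψ * m ψ = 0 ∨ m ψ * m ψ = 1 := by
      intro ψ hψ
      have := Finset.single_le_sum (f := fun ψ => m ψ * m ψ) (fun _ _ => Nat.zero_le _) hψ
      rw [h2] at this
      omega
    have h4 : ∀ ψ ∈ irrF Y, ip (resj j ψ) θ ≠ 0 → m ψ = 1 := by
      intro ψ hψ h5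
      rcases h3 ψ hψ with h6 | h6
      · exfalso
        apply h5
        rw [hm ψ (mem_irrF.mp hψ)]
        have : m ψ = 0 := by
          rcases Nat.mul_eq_zero.mp h6 with h | h <;> exact h
        rw [this, Nat.cast_zero]
      · exact Nat.eq_one_of_mul_eq_one_right h6
    refine ⟨?_, ?_⟩
    · rw [← h2, Finset.card_filter]
      refine Finset.sum_congr rfl fun ψ hψ => ?_
      split_ifs with h5
      · rw [h4 ψ hψ h5]
      · rw [not_not, hm ψ (mem_irrF.mp hψ)] at h5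
        have h6 : m ψ = 0 := by exact_mod_cast h5
        rw [h6]
    · intro ψ hψ h5
      rw [hm ψ hψ, h4 ψ (mem_irrF.mpr hψ) h5, Nat.cast_one]

theorem not_inv_cfn {θ : K → ℂ} (h : ¬ Inv c θ) (y : Y) :
    ¬ Inv c (cfn c θ y) := by
  intro h1
  apply h
  have h2 : cfn c θ y = θ := by
    have h3 := h1 y⁻¹
    rw [cfn_mul, mul_inv_cancel, cfn_one] at h3
    exact h3.symm
  rw [← h2]
  exact h1

open Classical in
theorem Cliff.card_under_moved (hc : Cliff j π c q) {θ : K → ℂ} (hθ : IsIrr θ) (h : ¬ Inv c θ)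
    {ψ : Y → ℂ} (hψ : IsIrr ψ) (hr : ip (resj j ψ) θ ≠ 0) :
    ((irrF K).filter (fun θ' => ip (resj j ψ) θ' ≠ 0)).card = q ∧ ψ 1 = q * θ 1 := by
  classical
  have h1 : ∀ θ' ∈ irrF K, ip (resj j ψ) θ' ≠ 0 →
      ip (resj j ψ) θ' = 1 ∧ θ' 1 = θ 1 := by
    intro θ' hθ' hr'
    obtain ⟨y, rfl⟩ := hc.exists_conj hθ (mem_irrF.mp hθ') hψ hr hr'
    exact ⟨(hc.card_over_moved (mem_irrF.mp hθ') (not_inv_cfn h y)).2 ψ hψ hr', cfn_deg θ y⟩
  have h2 : ip (resj j ψ) (resj j ψ) =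
      (((irrF K).filter (fun θ' => ip (resj j ψ) θ' ≠ 0)).card : ℂ) := by
    rw [ip_expand _ _ (resj_class hψ), Finset.card_filter]
    push_cast
    refine Finset.sum_congr rfl fun θ' hθ' => ?_
    rw [ip_comm θ']
    split_ifs with h3
    · rw [(h1 θ' hθ' h3).1, mul_one]
    · rw [not_not.mp h3, mul_zero]
  have hcard : ((irrF K).filter (fun θ' => ip (resj j ψ) θ' ≠ 0)).card = q := by
    rcases hc.norm_res hψ with h3 | h3
    · exfalso
      rw [h2] at h3
      have h4 : ((irrF K).filter (fun θ' => ip (resj j ψ) θ' ≠ 0)).card = 1 := by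
        exact_mod_cast h3
      rw [Finset.card_eq_one] at h4
      obtain ⟨θ₀, h4⟩ := h4
      apply h
      intro y
      have h5 : θ ∈ (irrF K).filter (fun θ' => ip (resj j ψ) θ' ≠ 0) :=
        Finset.mem_filter.mpr ⟨mem_irrF.mpr hθ, hr⟩
      have h6 : cfn c θ y ∈ (irrF K).filter (fun θ' => ip (resj j ψ) θ' ≠ 0) := by
        rw [Finset.mem_filter]
        refine ⟨mem_irrF.mpr (hθ.cfn y), ?_⟩
        rw [hc.ip_cfn hψ]
        exact hr
      rw [h4, Finset.mem_singleton] at h5 h6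
      rw [h6]
      exact h5.symm
    · rw [h2] at h3
      exact_mod_cast h3
  refine ⟨hcard, ?_⟩
  have h3 := congrFun (class_fn_expand (resj j ψ) (resj_class hψ)) 1
  have h4 : resj j ψ 1 = ψ 1 := by rw [resj, map_one]
  rw [← h4, h3]
  have h5 : ∀ θ' ∈ irrF K, ip (resj j ψ) θ' * θ' 1 =
      if ip (resj j ψ) θ' ≠ 0 then θ 1 else 0 := by
    intro θ' hθ'
    split_ifs with h6
    · rw [(h1 θ' hθ' h6).1, (h1 θ' hθ' h6).2, one_mul]
    · rw [not_not.mp h6, zero_mul]
  rw [Finset.sum_congr rfl h5, ← Finset.sum_filter, Finset.sum_const, hcard, nsmul_eq_mul]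

theorem Cliff.exists_under {ψ : Y → ℂ} (hψ : IsIrr ψ) (j : K →* Y) :
    ∃ θ : K → ℂ, IsIrr θ ∧ ip (resj j ψ) θ ≠ 0 := by
  by_contra hcon
  push Not at hcon
  have h3 := congrFun (class_fn_expand (resj j ψ) (resj_class hψ)) 1
  rw [Finset.sum_eq_zero] at h3
  · apply hψ.one_ne_zero
    rw [← h3, resj, map_one]
  · intro θ hθ
    rw [hcon θ (mem_irrF.mp hθ), zero_mul]

/-- Counting characters of `Y` by means of characters of `K`. -/
theorem Cliff.count (hc : Cliff j π c q) (P : (Y → ℂ) → Prop) (A B : (K → ℂ) → Prop)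
    [DecidablePred P] [DecidablePred fun θ => ¬ Inv c θ ∧ B θ]
    [DecidablePred fun θ => Inv c θ ∧ A θ]
    (hA : ∀ ψ θ, IsIrr ψ → IsIrr θ → Inv c θ → ip (resj j ψ) θ ≠ 0 → (P ψ ↔ A θ))
    (hB : ∀ ψ θ, IsIrr ψ → IsIrr θ → ¬ Inv c θ → ip (resj j ψ) θ ≠ 0 → (P ψ ↔ B θ)) :
    q * ((irrF Y).filter P).card =
      ((irrF K).filter (fun θ => ¬ Inv c θ ∧ B θ)).card +
        q * (q * ((irrF K).filter (fun θ => Inv c θ ∧ A θ)).card) := by
  classical
  set PI := ((irrF Y).filter P).filter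
    (fun ψ => ∃ θ, IsIrr θ ∧ Inv c θ ∧ ip (resj j ψ) θ ≠ 0) with hPI
  set PM := ((irrF Y).filter P).filter
    (fun ψ => ¬ ∃ θ, IsIrr θ ∧ Inv c θ ∧ ip (resj j ψ) θ ≠ 0) with hPM
  have hsplit : ((irrF Y).filter P).card = PI.card + PM.card :=
    (Finset.card_filter_add_card_filter_not _).symm
  -- invariant part
  have hI : PI.card = q * ((irrF K).filter (fun θ => Inv c θ ∧ A θ)).card := by
    have h1 : ∑ θ ∈ (irrF K).filter (fun θ => Inv c θ ∧ A θ), ∑ ψ ∈ PI,
        (if ip (resj j ψ) θ ≠ 0 then 1 else 0) =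
        q * ((irrF K).filter (fun θ => Inv c θ ∧ A θ)).card := by
      rw [mul_comm, ← smul_eq_mul, ← Finset.sum_const]
      refine Finset.sum_congr rfl fun θ hθ => ?_
      rw [Finset.mem_filter, mem_irrF] at hθ
      rw [← Finset.card_filter, ← hc.card_over_inv hθ.1 hθ.2.1]
      congr 1
      ext ψ
      rw [hPI]
      simp only [Finset.mem_filter, mem_irrF]
      constructor
      · rintro ⟨⟨⟨h1, _⟩, _⟩, h3⟩
        exact ⟨h1, h3⟩
      · rintro ⟨h1, h2⟩
        exact ⟨⟨⟨h1, (hA ψ θ h1 hθ.1 hθ.2.1 h2).mpr hθ.2.2⟩, θ, hθ.1, hθ.2.1, h2⟩, h2⟩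
    rw [← h1, Finset.sum_comm, Finset.card_eq_sum_ones]
    refine Finset.sum_congr rfl fun ψ hψ => ?_
    rw [hPI] at hψ
    simp only [Finset.mem_filter, mem_irrF] at hψ
    obtain ⟨⟨h2, h3⟩, θ, h4, h5, h6⟩ := hψ
    have h7 := hc.res_inv h4 h5 h2 h6
    rw [Finset.sum_eq_single θ]
    · rw [if_pos h6]
    · intro θ' hθ' hne
      rw [Finset.mem_filter, mem_irrF] at hθ'
      rw [if_neg]
      rw [not_not, h7]
      exact ip_ne h4 hθ'.1 hne.symm
    · intro h8
      exfalso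
      apply h8
      rw [Finset.mem_filter, mem_irrF]
      exact ⟨h4, h5, (hA ψ θ h2 h4 h5 h6).mp h3⟩
  -- moved part
  have hM : q * PM.card = ((irrF K).filter (fun θ => ¬ Inv c θ ∧ B θ)).card := by
    have h1 : ∑ θ ∈ (irrF K).filter (fun θ => ¬ Inv c θ ∧ B θ), ∑ ψ ∈ PM,
        (if ip (resj j ψ) θ ≠ 0 then 1 else 0) =
        ((irrF K).filter (fun θ => ¬ Inv c θ ∧ B θ)).card := by
      rw [Finset.card_eq_sum_ones]
      refine Finset.sum_congr rfl fun θ hθ => ?_
      rw [Finset.mem_filter, mem_irrF] at hθ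
      rw [← Finset.card_filter, ← (hc.card_over_moved hθ.1 hθ.2.1).1]
      congr 1
      ext ψ
      rw [hPM]
      simp only [Finset.mem_filter, mem_irrF]
      constructor
      · rintro ⟨⟨⟨h1, _⟩, _⟩, h3⟩
        exact ⟨h1, h3⟩
      · rintro ⟨h1, h2⟩
        refine ⟨⟨⟨h1, (hB ψ θ h1 hθ.1 hθ.2.1 h2).mpr hθ.2.2⟩, ?_⟩, h2⟩
        rintro ⟨θ', h3, h4, h5⟩
        obtain ⟨y, hy⟩ := hc.exists_conj h3 hθ.1 h1 h5 h2
        apply hθ.2.1
        rw [← hy, h4 y]
        exact h4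
    rw [← h1, Finset.sum_comm, mul_comm, ← smul_eq_mul, ← Finset.sum_const]
    refine Finset.sum_congr rfl fun ψ hψ => ?_
    rw [hPM] at hψ
    simp only [Finset.mem_filter, mem_irrF] at hψ
    obtain ⟨⟨h2, h3⟩, h4⟩ := hψ
    obtain ⟨θ, h5, h6⟩ := Cliff.exists_under h2 j
    have h7 : ¬ Inv c θ := fun h => h4 ⟨θ, h5, h, h6⟩
    rw [← Finset.card_filter, ← (hc.card_under_moved h5 h7 h2 h6).1]
    congr 1
    ext θ'
    simp only [Finset.mem_filter, mem_irrF]
    constructor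
    · rintro ⟨h8, h9⟩
      have h10 : ¬ Inv c θ' := fun h => h4 ⟨θ', h8, h, h9⟩
      exact ⟨⟨h8, h10, (hB ψ θ' h2 h8 h10 h9).mp h3⟩, h9⟩
    · rintro ⟨⟨h8, _⟩, h9⟩
      exact ⟨h8, h9⟩
  rw [hsplit, mul_add, hM, hI, add_comm]

/-- Normalized sums of class functions supported on `K`. -/
theorem Cliff.wt_eq (hc : Cliff j π c q) {θ : K → ℂ} (hθ : IsIrr θ) {ψ : Y → ℂ} (hψ : IsIrr ψ)
    (hr : ip (resj j ψ) θ ≠ 0) (f : Y → ℂ) (hf : ∀ g x, f (g * x * g⁻¹) = f x)
    (hs : ∀ y, π y ≠ 1 → f y = 0) : wt ψ f = wt θ (fun k => f (j k)) := by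
  classical
  have h0 : ∀ θ' ∈ irrF K, ip (resj j ψ) θ' ≠ 0 →
      ∑ k, f (j k) * θ' k = θ' 1 * wt θ (fun k => f (j k)) := by
    intro θ' hθ' hr'
    obtain ⟨y, rfl⟩ := hc.exists_conj hθ (mem_irrF.mp hθ') hψ hr hr'
    rw [cfn_deg, wt, mul_div_cancel₀ _ hθ.one_ne_zero]
    refine Fintype.sum_equiv (c y).toEquiv _ _ fun k => ?_
    change f (j k) * θ (c y k) = f (j (c y k)) * θ (c y k)
    rw [hc.act, hf]
  have hexp := class_fn_expand (resj j ψ) (resj_class hψ)
  have h1 : ∑ y, f y * ψ y = ψ 1 * wt θ (fun k => f (j k)) := by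
    rw [hc.sum_range (fun y => f y * ψ y) (fun y hy => by rw [hs y hy, zero_mul])]
    have h2 : ∀ k, f (j k) * ψ (j k) = ∑ θ' ∈ irrF K, ip (resj j ψ) θ' * (f (j k) * θ' k) := by
      intro k
      have h3 := congrFun hexp k
      have h4 : resj j ψ k = ψ (j k) := rfl
      rw [← h4, h3, Finset.mul_sum]
      exact Finset.sum_congr rfl fun θ' _ => by ring
    simp only [h2]
    rw [Finset.sum_comm]
    have h3 : ∀ θ' ∈ irrF K, ∑ k, ip (resj j ψ) θ' * (f (j k) * θ' k) =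
        (ip (resj j ψ) θ' * θ' 1) * wt θ (fun k => f (j k)) := by
      intro θ' hθ'
      rw [← Finset.mul_sum]
      by_cases h4 : ip (resj j ψ) θ' = 0
      · rw [h4, zero_mul, zero_mul, zero_mul]
      · rw [h0 θ' hθ' h4, mul_assoc]
    rw [Finset.sum_congr rfl h3, ← Finset.sum_mul]
    congr 1
    have h5 := congrFun hexp 1
    rw [← h5, resj, map_one]
  rw [wt, h1, mul_comm, mul_div_assoc, div_self hψ.one_ne_zero, mul_one]

theorem Cliff.hasDefect_inv (hc : Cliff j π c q) {ℓ : ℕ} [Fact ℓ.Prime] {θ : K → ℂ}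
    (hθ : IsIrr θ) (hinv : Inv c θ) {ψ : Y → ℂ} (hψ : IsIrr ψ) (hr : ip (resj j ψ) θ ≠ 0)
    (d : ℕ) : HasDefect ℓ ψ d ↔ ∃ e, HasDefect ℓ θ e ∧ e + padicValNat ℓ q = d := by
  have h1 := hc.res_inv hθ hinv hψ hr
  have h2 : ψ 1 = θ 1 := by
    rw [← h1, resj, map_one]
  obtain ⟨e, he⟩ := hθ.exists_defect (ℓ := ℓ)
  have h3 : HasDefect ℓ ψ (e + padicValNat ℓ q) := by
    obtain ⟨n, hn, hn'⟩ := he
    refine ⟨n, by rw [h2, hn], ?_⟩
    rw [hc.card_mul, padicValNat.mul hc.prime.ne_zero Nat.card_pos.ne', hn']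
    ring
  constructor
  · intro h
    exact ⟨e, he, h3.unique h⟩
  · rintro ⟨e', he', rfl⟩
    rw [he'.unique he]
    exact h3

theorem Cliff.hasDefect_moved (hc : Cliff j π c q) {ℓ : ℕ} [Fact ℓ.Prime] {θ : K → ℂ}
    (hθ : IsIrr θ) (hinv : ¬ Inv c θ) {ψ : Y → ℂ} (hψ : IsIrr ψ) (hr : ip (resj j ψ) θ ≠ 0)
    (d : ℕ) : HasDefect ℓ ψ d ↔ HasDefect ℓ θ d := by
  have h2 := (hc.card_under_moved hθ hinv hψ hr).2
  obtain ⟨e, he⟩ := hθ.exists_defect (ℓ := ℓ)
  have h3 : HasDefect ℓ ψ e := by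
    obtain ⟨n, hn, hn'⟩ := he
    have hn0 : n ≠ 0 := by
      rintro rfl
      exact hθ.one_ne_zero (by rw [hn]; simp)
    refine ⟨q * n, by rw [h2, hn]; push_cast; rfl, ?_⟩
    rw [hc.card_mul, padicValNat.mul hc.prime.ne_zero Nat.card_pos.ne',
      padicValNat.mul hc.prime.ne_zero hn0, hn']
    ring
  constructor
  · intro h
    rw [h3.unique h] at he
    exact he
  · intro h
    rw [he.unique h] at h3
    exact h3

end Count

end Pool.Agent.Lib_helper13


end

section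

set_option linter.unusedSectionVars false

/-! Regular wreath products with groups of prime order: conjugacy and block functions. -/

namespace Pool.Agent.Lib_helper13

open Representation

section Wr

variable {G Q : Type*} [Group G] [CommGroup Q]

noncomputable instance fintypeWr [Finite G] [Finite Q] : Fintype (G ≀ᵣ Q) := Fintype.ofFinite _

/-- The embedding of the base group. -/
def bse : (Q → G) →* (G ≀ᵣ Q) where
  toFun x := ⟨x, 1⟩
  map_one' := rfl
  map_mul' x y := by ext <;> simp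

theorem bse_left (x : Q → G) : (bse x : G ≀ᵣ Q).left = x := rfl

theorem bse_right (x : Q → G) : (bse x : G ≀ᵣ Q).right = 1 := rfl

theorem bse_injective : Function.Injective (bse : (Q → G) →* (G ≀ᵣ Q)) := by
  intro x y h
  exact congrArg RegularWreathProduct.left h

theorem mem_range_bse {g : G ≀ᵣ Q} : g ∈ (bse : (Q → G) →* (G ≀ᵣ Q)).range ↔ g.right = 1 := by
  constructor
  · rintro ⟨x, rfl⟩
    rfl
  · intro h
    refine ⟨g.left, ?_⟩
    ext1
    · rfl
    · exact h.symm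

/-- The permutation of coordinates. -/
def sft (t : Q) : Equiv.Perm Q := Equiv.mulLeft t⁻¹

theorem conj_bse (g : G ≀ᵣ Q) (x : Q → G) :
    g * bse x * g⁻¹ = bse (wAct (sft g.right) g.left x) := by
  ext1
  · ext k
    simp [bse, wAct, sft]
  · simp [bse]

/-- Shifts. -/
def shf (t : Q) (u : Q → G) : Q → G := fun i => u (t⁻¹ * i)

theorem shf_one (u : Q → G) : shf 1 u = u := by
  ext i
  simp [shf]

theorem shf_mul (t s : Q) (u : Q → G) : shf t (shf s u) = shf (t * s) u := by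
  ext i
  simp only [shf]
  congr 1
  rw [mul_inv_rev, mul_assoc]

theorem shf_conj {u v : Q → G} (h : IsConj u v) (t : Q) : IsConj (shf t u) (shf t v) := by
  obtain ⟨c, rfl⟩ := isConj_iff.mp h
  exact isConj_iff.mpr ⟨shf t c, rfl⟩

theorem isConj_bse {k u : Q → G} :
    IsConj (bse k : G ≀ᵣ Q) (bse u) ↔ ∃ t : Q, IsConj k (shf t u) := by
  constructor
  · intro h
    obtain ⟨g, hg⟩ := isConj_iff.mp h.symm
    rw [conj_bse] at hg
    have h1 := bse_injective hg
    refine ⟨g.right, ?_⟩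
    apply IsConj.symm
    rw [isConj_iff]
    refine ⟨g.left, ?_⟩
    rw [← h1]
    rfl
  · rintro ⟨t, h⟩
    apply IsConj.symm
    obtain ⟨n, hn⟩ := isConj_iff.mp h.symm
    rw [isConj_iff]
    refine ⟨⟨n, t⟩, ?_⟩
    rw [conj_bse, ← hn]
    rfl

/-- All shifts are conjugate. -/
def ShInv (u : Q → G) : Prop := ∀ t : Q, IsConj (shf t u) u

theorem shInv_of_ne {q : ℕ} [Fact q.Prime] (hq : Nat.card Q = q) {u : Q → G} {s : Q}
    (hs : s ≠ 1) (h : IsConj (shf s u) u) : ShInv u := by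
  have h1 : ∀ r : ℕ, IsConj (shf (s ^ r) u) u := by
    intro r
    induction r with
    | zero =>
      rw [pow_zero, shf_one]
    | succ r ih =>
      rw [pow_succ, ← shf_mul]
      exact (shf_conj h _).trans ih
  intro t
  have hfin : Finite Q := Nat.finite_of_card_ne_zero (by rw [hq]; exact (Fact.out : q.Prime).ne_zero)
  have h2 : t ∈ Subgroup.zpowers s := by
    rw [zpowers_eq_top_of_prime_card hq hs]
    trivial
  obtain ⟨r, rfl⟩ := (mem_powers_iff_mem_zpowers.mpr h2 : t ∈ Submonoid.powers s)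
  exact h1 r

variable [Fintype Q]

open Classical in
theorem conjInd_bse {q : ℕ} [Fact q.Prime] (hq : Nat.card Q = q) (k u : Q → G) :
    conjInd (bse k : G ≀ᵣ Q) (bse u) =
      if ShInv u then conjInd k u else ∑ t : Q, conjInd k (shf t u) := by
  classical
  split_ifs with h
  · apply conjInd_congr
    rw [isConj_bse]
    constructor
    · rintro ⟨t, ht⟩
      exact ht.trans (h t)
    · intro h1
      exact ⟨1, by rwa [shf_one]⟩
  · by_cases h1 : IsConj (bse k : G ≀ᵣ Q) (bse u)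
    · rw [conjInd, if_pos h1]
      obtain ⟨t, ht⟩ := isConj_bse.mp h1
      rw [Finset.sum_eq_single t]
      · rw [conjInd, if_pos ht]
      · intro s _ hs
        rw [conjInd, if_neg]
        intro h2
        apply h
        have h3 : IsConj (shf s u) (shf t u) := h2.symm.trans ht
        have h4 := shf_conj h3 t⁻¹
        rw [shf_mul, shf_mul, inv_mul_cancel, shf_one] at h4
        refine shInv_of_ne hq ?_ h4
        intro h5
        apply hs
        rw [inv_mul_eq_one] at h5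
        exact h5.symm
      · simp
    · rw [conjInd, if_neg h1]
      symm
      apply Finset.sum_eq_zero
      intro t _
      rw [conjInd, if_neg]
      intro h2
      exact h1 (isConj_bse.mpr ⟨t, h2⟩)

end Wr

section Block

variable {Q : Type*} [CommGroup Q] [Fintype Q]

/-- Recovering a constant family from the elementary symmetric data of its shifts. -/
theorem const_of_sums {k : Type*} [CommRing k] [IsDomain k] {q : ℕ} [hqf : Fact q.Prime]
    (hq : Nat.card Q = q) (v : Q → k) (c : k)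
    (hS : ∀ A : Finset Q, ∑ t : Q, ∏ i ∈ A, v (t * i) = (q : k) * c ^ A.card)
    (hD : ∏ i, v i = c ^ q) (hchar : (q : k) ≠ 0 ∨ CharP k q) : ∀ i, v i = c := by
  classical
  have hcard : (Finset.univ : Finset Q).card = q := by
    rw [Finset.card_univ, ← Nat.card_eq_fintype_card, hq]
  -- expansion of products
  have hexp : ∀ (R : Finset Q) (a : k), ∑ t : Q, ∏ i ∈ R, (v (t * i) - a) =
      (q : k) * (c - a) ^ R.card := by
    intro R a
    have h1 : ∀ t : Q, ∏ i ∈ R, (v (t * i) - a) =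
        ∑ A ∈ R.powerset, (∏ i ∈ A, v (t * i)) * ∏ i ∈ R \ A, (-a) := by
      intro t
      simp only [sub_eq_add_neg]
      rw [Finset.prod_add]
    simp only [h1]
    rw [Finset.sum_comm]
    have h2 : ∀ A ∈ R.powerset, ∑ t : Q, (∏ i ∈ A, v (t * i)) * ∏ i ∈ R \ A, (-a) =
        (q : k) * ((∏ i ∈ A, c) * ∏ i ∈ R \ A, (-a)) := by
      intro A _
      rw [← Finset.sum_mul, hS, Finset.prod_const c, mul_assoc]
    rw [Finset.sum_congr rfl h2, ← Finset.mul_sum, ← Finset.prod_add, Finset.prod_const,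
      ← sub_eq_add_neg]
  rcases hchar with hchar | hchar
  · intro i₀
    have h1 := hexp Finset.univ (v i₀)
    have h2 : ∑ t : Q, ∏ i, (v (t * i) - v i₀) = 0 := by
      apply Finset.sum_eq_zero
      intro t _
      apply Finset.prod_eq_zero (Finset.mem_univ (t⁻¹ * i₀))
      rw [mul_inv_cancel_left, sub_self]
    rw [h2] at h1
    have h3 := (mul_eq_zero.mp h1.symm).resolve_left hchar
    exact (sub_eq_zero.mp (pow_eq_zero_iff (Finset.card_ne_zero.mpr Finset.univ_nonempty) |>.mp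
      h3)).symm
  · have hconst : ∀ i i₀, v i = v i₀ := by
      intro i₁ i₀
      by_contra hne
      set R : Finset Q := Finset.univ.filter (fun i => v i ≠ v i₀) with hR
      have h1 := hexp R (v i₀)
      rw [CharP.cast_eq_zero, zero_mul] at h1
      rw [Finset.sum_eq_single (1 : Q)] at h1
      · rw [Finset.prod_eq_zero_iff] at h1
        obtain ⟨i, hi, h2⟩ := h1
        rw [one_mul, sub_eq_zero] at h2
        exact (Finset.mem_filter.mp hi).2 h2
      · intro t _ ht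
        by_contra h2
        rw [Finset.prod_eq_zero_iff] at h2
        push Not at h2
        have h3 : ∀ i ∈ R, t * i ∈ R := by
          intro i hi
          rw [hR, Finset.mem_filter]
          exact ⟨Finset.mem_univ _, fun h => h2 i hi (sub_eq_zero.mpr h)⟩
        have h4 : ∀ (r : ℕ), ∀ i ∈ R, t ^ r * i ∈ R := by
          intro r
          induction r with
          | zero => intro i hi; simpa using hi
          | succ r ih =>
            intro i hi
            rw [pow_succ, mul_assoc]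
            exact ih _ (h3 i hi)
        have h5 : i₀ * i₁⁻¹ ∈ Subgroup.zpowers t := by
          rw [zpowers_eq_top_of_prime_card hq ht]
          trivial
        obtain ⟨r, hr⟩ := (mem_powers_iff_mem_zpowers.mpr h5 : _ ∈ Submonoid.powers t)
        have h6 := h4 r i₁ (Finset.mem_filter.mpr ⟨Finset.mem_univ _, hne⟩)
        have hr' : t ^ r = i₀ * i₁⁻¹ := hr
        rw [hr', inv_mul_cancel_right, hR, Finset.mem_filter] at h6
        exact h6.2 rfl
      · simp
    intro i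
    have h1 : ∏ i', v i' = v i ^ q := by
      rw [Finset.prod_congr rfl fun i' _ => hconst i' i, Finset.prod_const, hcard]
    rw [hD] at h1
    have h2 : (c - v i) ^ q = 0 := by
      rw [sub_pow_char, h1, sub_self]
    exact (sub_eq_zero.mp (pow_eq_zero_iff hqf.out.ne_zero |>.mp h2)).symm

variable {G : Type*} [Group G]

theorem block_of_sums {k : Type*} [CommRing k] [IsDomain k] {q : ℕ} [hqf : Fact q.Prime]
    (hq : Nat.card Q = q) (lam : Q → G → k) (ω : G → k) (h1 : ∀ j, lam j 1 = 1)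
    (hω : ω 1 = 1) (hS : ∀ u : Q → G, ∑ t : Q, ∏ j, lam j (shf t u j) = (q : k) * ∏ j, ω (u j))
    (hD : ∀ x, ∏ i, lam i x = ω x ^ q) (hchar : (q : k) ≠ 0 ∨ CharP k q) :
    ∀ j g, lam j g = ω g := by
  classical
  intro j g
  refine const_of_sums hq (fun i => lam i g) (ω g) ?_ (hD g) hchar j
  intro A
  have h2 := hS (fun i => if i ∈ A then g else 1)
  have h3 : ∏ j, ω (if j ∈ A then g else 1) = ω g ^ A.card := by
    have : ∀ j, ω (if j ∈ A then g else 1) = if j ∈ A then ω g else 1 := by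
      intro j
      split_ifs
      · rfl
      · exact hω
    simp only [this]
    rw [Finset.prod_ite_mem, Finset.univ_inter, Finset.prod_const]
  rw [h3] at h2
  rw [← h2]
  refine Finset.sum_congr rfl fun t _ => ?_
  have h4 : ∀ j, lam j (shf t (fun i => if i ∈ A then g else 1) j) =
      if t⁻¹ * j ∈ A then lam j g else 1 := by
    intro j
    rw [shf]
    split_ifs
    · rfl
    · exact h1 j
  simp only [h4]
  rw [← Finset.prod_filter]
  refine Finset.prod_bij (fun i _ => t * i) ?_ ?_ ?_ ?_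
  · intro i hi
    rw [Finset.mem_filter, inv_mul_cancel_left]
    exact ⟨Finset.mem_univ _, hi⟩
  · intro a _ b _ h
    exact mul_left_cancel h
  · intro b hb
    exact ⟨t⁻¹ * b, (Finset.mem_filter.mp hb).2, by rw [mul_inv_cancel_left]⟩
  · intro i _
    rfl

end Block

end Pool.Agent.Lib_helper13


end
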