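import Mathlib
import Pool.Agent.DAM.C03
import Pool.Agent.DAM.C04
import Pool.Agent.DAM.C05

/-! Parts: Lib_helper13.WreathCnt, Lib_helper13.WreathSum, Lib_helper13.WreathSum2, Lib_helper13.Outside2, Lib_helper13.DgCount -/

section

set_option linter.unusedSectionVars false

/-! Counting characters of subgroups of wreath products over a given block function. -/

namespace Pool.Agent.Lib_helper13

open Representation

section Basic

variable (𝔐 : Ideal (integralClosure ℤ ℂ))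

theorem red_natCast (n : ℕ) : red 𝔐 (n : ℂ) = (n : (integralClosure ℤ ℂ) ⧸ 𝔐) := by
  have h := red_natCast_mul 𝔐 n (a := 1) isIntegral_one
  rw [mul_one, red_one, nsmul_eq_mul, mul_one] at h
  exact h

theorem quot_char [h𝔐 : 𝔐.IsPrime] {ℓ : ℕ} [hℓf : Fact ℓ.Prime]
    (hℓ : (ℓ : integralClosure ℤ ℂ) ∈ 𝔐) : CharP ((integralClosure ℤ ℂ) ⧸ 𝔐) ℓ := by
  rw [CharP.charP_iff_prime_eq_zero hℓf.out, ← map_natCast (Ideal.Quotient.mk 𝔐)]
  exact Ideal.Quotient.eq_zero_iff_mem.mpr hℓ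

theorem quot_cases [h𝔐 : 𝔐.IsPrime] {ℓ : ℕ} [hℓf : Fact ℓ.Prime]
    (hℓ : (ℓ : integralClosure ℤ ℂ) ∈ 𝔐) (q : ℕ) [hq : Fact q.Prime] :
    (q : (integralClosure ℤ ℂ) ⧸ 𝔐) ≠ 0 ∨ CharP ((integralClosure ℤ ℂ) ⧸ 𝔐) q := by
  by_cases h : q = ℓ
  · right
    rw [h]
    exact quot_char 𝔐 hℓ
  · left
    rw [← red_natCast]
    apply red_card_ne_zero 𝔐 hℓ
    intro h1
    rcases (Nat.dvd_prime hq.out).mp h1 with h2 | h2
    · exact hℓf.out.one_lt.ne' h2
    · exact h h2.symm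

theorem exists_conjAct {Y K : Type*} [Group Y] [Group K] (j : K →* Y)
    (hj : Function.Injective j) (hn : j.range.Normal) :
    ∃ c : Y →* MulAut K, ∀ y k, j (c y k) = y * j k * y⁻¹ := by
  let e := MonoidHom.ofInjective hj
  refine ⟨(MulAut.congr e.symm).toMonoidHom.comp MulAut.conjNormal, ?_⟩
  intro y k
  have h1 : ∀ x : j.range, j (e.symm x) = x := by
    intro x
    have := congrArg Subtype.val (e.apply_symm_apply x)
    exact this
  change j (e.symm (MulAut.conjNormal y (e.symm.symm k))) = _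
  rw [h1]
  rfl

end Basic

section Blk

variable {G Q : Type*} [Group G] [Fintype G] [CommGroup Q] [Fintype Q] [DecidableEq Q]
variable (𝔐 : Ideal (integralClosure ℤ ℂ))

open Classical in
/-- The restriction to the base group of the block function over a power of `ω`. -/
noncomputable def Wf (Q : Type*) [CommGroup Q] [Fintype Q]
    (ω : G → (integralClosure ℤ ℂ) ⧸ 𝔐) (u : Q → G) : (integralClosure ℤ ℂ) ⧸ 𝔐 :=
  if ShInv u then ∏ j, ω (u j) else (Nat.card Q : (integralClosure ℤ ℂ) ⧸ 𝔐) * ∏ j, ω (u j)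

theorem prod_shf {M : Type*} [CommMonoid M] (f : G → M) (t : Q) (u : Q → G) :
    ∏ j, f (shf t u j) = ∏ j, f (u j) :=
  Fintype.prod_equiv (Equiv.mulLeft t⁻¹) _ _ fun _ => rfl

open Classical in
theorem wf_iff [h𝔐 : 𝔐.IsPrime] {ℓ : ℕ} [Fact ℓ.Prime]
    (hℓ : (ℓ : integralClosure ℤ ℂ) ∈ 𝔐) {q : ℕ} [hqf : Fact q.Prime]
    (hq : Nat.card Q = q) (lam : Q → G → (integralClosure ℤ ℂ) ⧸ 𝔐)
    (ω : G → (integralClosure ℤ ℂ) ⧸ 𝔐) (h1 : ∀ j, lam j 1 = 1) (hω : ω 1 = 1)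
    (hcl : ∀ j g g', IsConj g g' → lam j g = lam j g') :
    (∀ u : Q → G, (if ShInv u then ∏ j, lam j (u j) else ∑ t : Q, ∏ j, lam j (shf t u j)) =
      Wf 𝔐 Q ω u) ↔ ∀ j g, lam j g = ω g := by
  constructor
  · intro h
    apply block_of_sums hq lam ω h1 hω
    · intro u
      have h2 := h u
      rw [Wf, hq] at h2
      by_cases h3 : ShInv u
      · rw [if_pos h3, if_pos h3] at h2
        have h4 : ∀ t : Q, ∏ j, lam j (shf t u j) = ∏ j, lam j (u j) := by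
          intro t
          refine Finset.prod_congr rfl fun j _ => ?_
          exact hcl j _ _ (isConj_pi_iff.mp (h3 t) j)
        simp only [h4]
        rw [Finset.sum_const, Finset.card_univ, ← Nat.card_eq_fintype_card, hq, nsmul_eq_mul, h2]
      · rw [if_neg h3, if_neg h3] at h2
        exact h2
    · intro x
      have h2 := h (fun _ => x)
      have h3 : ShInv (fun _ : Q => x) := fun t => IsConj.refl _
      rw [if_pos h3, Wf, if_pos h3] at h2
      rw [h2, Finset.prod_const, Finset.card_univ, ← Nat.card_eq_fintype_card, hq]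
    · exact quot_cases 𝔐 hℓ q
  · intro h u
    have h2 : ∀ u : Q → G, ∏ j, lam j (u j) = ∏ j, ω (u j) := fun u =>
      Finset.prod_congr rfl fun j _ => h j _
    rw [Wf]
    split_ifs with h3
    · exact h2 u
    · simp only [h2, prod_shf ω]
      rw [Finset.sum_const, Finset.card_univ, ← Nat.card_eq_fintype_card, nsmul_eq_mul]

variable {S : Q → Type*} [∀ j, Group (S j)] [∀ j, Fintype (S j)]

open Classical in
theorem red_wt_bse {q : ℕ} [hqf : Fact q.Prime] (hq : Nat.card Q = q) (i : ∀ j, S j →* G)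
    {θ : ∀ j, S j → ℂ} (hθ : ∀ j, IsIrr (θ j)) (u : Q → G) :
    red 𝔐 (wt (prodFn θ) (fun k => conjInd (bse (piHom i k : Q → G) : G ≀ᵣ Q) (bse u))) =
      if ShInv u then ∏ j, cen 𝔐 (i j) (θ j) (u j)
        else ∑ t : Q, ∏ j, cen 𝔐 (i j) (θ j) (shf t u j) := by
  split_ifs with h
  · rw [← cen_prodFn 𝔐 i hθ, cen]
    congr 2
    ext k
    rw [conjInd_bse hq, if_pos h]
  · have h1 : (fun k : ∀ j, S j => conjInd (bse (piHom i k : Q → G) : G ≀ᵣ Q) (bse u)) =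
        fun k => ∑ t : Q, conjInd (piHom i k : Q → G) (shf t u) := by
      ext k
      rw [conjInd_bse hq, if_neg h]
    rw [h1, wt_sum, red_sum]
    · refine Finset.sum_congr rfl fun t _ => ?_
      rw [← cen_prodFn 𝔐 i hθ, cen]
    · intro t _
      exact isIntegral_wt_conj (piHom i : (∀ j, S j) →* (Q → G)) (isIrr_prodFn hθ) _

/-- The block condition. -/
theorem blk_iff [h𝔐 : 𝔐.IsPrime] {ℓ : ℕ} [Fact ℓ.Prime]
    (hℓ : (ℓ : integralClosure ℤ ℂ) ∈ 𝔐) {q : ℕ} [hqf : Fact q.Prime]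
    (hq : Nat.card Q = q) (i : ∀ j, S j →* G) (hi : ∀ j, Function.Injective (i j))
    (ω : G → (integralClosure ℤ ℂ) ⧸ 𝔐) (hω : ω 1 = 1) {ψ : (∀ j, S j) → ℂ} (hψ : IsIrr ψ) :
    (∀ u : Q → G, red 𝔐 (wt ψ (fun k => conjInd (bse (piHom i k : Q → G) : G ≀ᵣ Q) (bse u))) =
      Wf 𝔐 Q ω u) ↔ ∀ x, cen 𝔐 (piHom i : (∀ j, S j) →* (Q → G)) ψ x = powFn 𝔐 Q ω x := by
  classical
  obtain ⟨θ, hθ, rfl⟩ := exists_prodFn hψ
  simp only [red_wt_bse 𝔐 hq i hθ, cen_prodFn 𝔐 i hθ]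
  rw [wf_iff 𝔐 hℓ hq (fun j => cen 𝔐 (i j) (θ j)) ω (fun j => cen_at_one 𝔐 (hi j) (hθ j)) hω
    (fun j g g' h => cen_isConj 𝔐 (i j) (θ j) h)]
  exact (prod_eq_powFn_iff 𝔐 (fun j => cen_at_one 𝔐 (hi j) (hθ j)) hω).symm

/-- Characters of `S` of defect `d` over the power of `ω`. -/
noncomputable def cN (ℓ d : ℕ) (ω : G → (integralClosure ℤ ℂ) ⧸ 𝔐)
    (S : Subgroup (G ≀ᵣ Q)) : ℕ :=
  cntF 𝔐 ℓ d (fun (u : Q → G) (k : S) => conjInd (k : G ≀ᵣ Q) (bse u)) (Wf 𝔐 Q ω)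

theorem cN_map_conj (ℓ d : ℕ) (ω : G → (integralClosure ℤ ℂ) ⧸ 𝔐)
    (S : Subgroup (G ≀ᵣ Q)) (g : G ≀ᵣ Q) :
    cN 𝔐 ℓ d ω (S.map (MulAut.conj g).toMonoidHom) = cN 𝔐 ℓ d ω S := by
  symm
  apply cntF_equiv 𝔐 ℓ d (S.equivMapOfInjective _ (MulAut.conj g).injective)
  intro u y
  exact (conjInd_conj g (y : G ≀ᵣ Q) (bse u)).symm

/-- Subgroups of the base group. -/
theorem cN_base [h𝔐 : 𝔐.IsPrime] {ℓ : ℕ} [Fact ℓ.Prime]
    (hℓ : (ℓ : integralClosure ℤ ℂ) ∈ 𝔐) {q : ℕ} [hqf : Fact q.Prime]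
    (hq : Nat.card Q = q) (d : ℕ) (ω : G → (integralClosure ℤ ℂ) ⧸ 𝔐) (hω : ω 1 = 1)
    (K : Q → Subgroup G) :
    cN 𝔐 ℓ d ω ((pK K).map bse) = cnt 𝔐 ℓ d (pK K).subtype (powFn 𝔐 Q ω) := by
  rw [← cnt_comp_equiv 𝔐 ℓ d (pKEquiv K)]
  symm
  apply card_irr_equiv ((pKEquiv K).trans ((pK K).equivMapOfInjective bse bse_injective))
  intro ψ hψ
  rw [hasDefect_comp_equiv]
  have hψ' : IsIrr (fun y => ψ (((pKEquiv K).trans
      ((pK K).equivMapOfInjective bse bse_injective)) y)) := hψ.comp_mulEquiv _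
  have h1 := blk_iff 𝔐 hℓ hq (fun j => (K j).subtype) (fun j => Subtype.val_injective) ω hω hψ'
  refine and_congr Iff.rfl ?_
  refine Iff.trans h1.symm ?_
  refine forall_congr' fun u => ?_
  rw [← wt_comp_equiv ((pKEquiv K).trans ((pK K).equivMapOfInjective bse bse_injective)) ψ]
  rfl

end Blk

section Wsub

variable {G Q : Type*} [Group G] [Fintype G] [CommGroup Q] [Fintype Q] [DecidableEq Q]
variable (𝔐 : Ideal (integralClosure ℤ ℂ))

/-- The wreath product of a subgroup. -/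
def wrSub (Q : Type*) [CommGroup Q] (H : Subgroup G) : Subgroup (G ≀ᵣ Q) where
  carrier := {g | ∀ i, g.left i ∈ H}
  one_mem' := fun i => H.one_mem
  mul_mem' := by
    intro a b ha hb i
    exact H.mul_mem (ha i) (hb _)
  inv_mem' := by
    intro a ha i
    exact H.inv_mem (ha _)

theorem mem_wrSub {H : Subgroup G} {g : G ≀ᵣ Q} : g ∈ wrSub Q H ↔ ∀ i, g.left i ∈ H := Iff.rfl

/-- The embedding of the base group. -/
def wj (H : Subgroup G) : (Q → H) →* wrSub Q H where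
  toFun k := ⟨⟨fun i => k i, 1⟩, fun i => (k i).2⟩
  map_one' := rfl
  map_mul' x y := by
    apply Subtype.ext
    ext1
    · ext i
      simp
    · simp

/-- The projection. -/
def wπ (H : Subgroup G) : wrSub Q H →* Q :=
  (RegularWreathProduct.rightHom : G ≀ᵣ Q →* Q).comp (wrSub Q H).subtype

theorem wj_injective (H : Subgroup G) : Function.Injective (wj H : (Q → H) →* wrSub Q H) := by
  intro x y h
  ext i
  have := congrArg (fun z : wrSub Q H => z.1.left i) h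
  exact this

theorem wπ_eq_one (H : Subgroup G) (y : wrSub Q H) : wπ H y = 1 ↔ y ∈ (wj H).range := by
  constructor
  · intro h
    refine ⟨fun i => ⟨y.1.left i, y.2 i⟩, ?_⟩
    apply Subtype.ext
    ext1
    · rfl
    · exact h.symm
  · rintro ⟨k, rfl⟩
    rfl

theorem exists_cliff (H : Subgroup G) {q : ℕ} [hqf : Fact q.Prime] (hq : Nat.card Q = q) :
    ∃ c : wrSub Q H →* MulAut (Q → H), Cliff (wj H) (wπ H) c q := by
  have hn : (wj H : (Q → H) →* wrSub Q H).range.Normal := by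
    have h1 : (wj H : (Q → H) →* wrSub Q H).range = (wπ H).ker := by
      ext y
      rw [MonoidHom.mem_ker, wπ_eq_one]
    rw [h1]
    infer_instance
  obtain ⟨c, hc⟩ := exists_conjAct (wj H) (wj_injective H) hn
  refine ⟨c, hqf.out, wj_injective H, ?_, wπ_eq_one H, hc, hq⟩
  intro t
  exact ⟨⟨⟨1, t⟩, fun i => H.one_mem⟩, rfl⟩

theorem wr_act {H : Subgroup G} {q : ℕ} {c : wrSub Q H →* MulAut (Q → H)}
    (hc : Cliff (wj H) (wπ H) c q) (y : wrSub Q H) (k : Q → H) (i : Q) :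
    c y k i = ⟨y.1.left i, y.2 i⟩ * k (y.1.right⁻¹ * i) * (⟨y.1.left i, y.2 i⟩ : H)⁻¹ := by
  apply Subtype.ext
  have h1 := congrArg (fun z : wrSub Q H => z.1.left i) (hc.act y k)
  have h2 : ((c y k i : H) : G) = (wj H (c y k)).1.left i := rfl
  rw [h2, h1]
  simp [wj]

theorem wr_inv {H : Subgroup G} {q : ℕ} {c : wrSub Q H →* MulAut (Q → H)}
    (hc : Cliff (wj H) (wπ H) c q) {θ : Q → H → ℂ} (hθ : ∀ i, IsIrr (θ i)) :
    Inv c (prodFn θ) ↔ ∀ i, θ i = θ 1 := by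
  constructor
  · intro h i
    have h1 := h ⟨⟨1, i⟩, fun _ => H.one_mem⟩
    have h2 : cfn c (prodFn θ) ⟨⟨1, i⟩, fun _ => H.one_mem⟩ = prodFn (fun j => θ (i * j)) := by
      ext k
      rw [cfn, prodFn, prodFn]
      symm
      refine Fintype.prod_equiv (Equiv.mulLeft i) _ _ fun j => ?_
      rw [wr_act hc]
      simp only [Equiv.coe_mulLeft, Pi.one_apply]
      rw [inv_mul_cancel_left]
      congr 1
      apply Subtype.ext
      simp
    rw [h2] at h1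
    have h3 := prodFn_inj (fun j => hθ (i * j)) hθ h1
    have h4 := congrFun h3 1
    rw [mul_one] at h4
    exact h4
  · intro h y
    ext k
    rw [cfn, prodFn, prodFn]
    have h1 : ∀ i, θ i (c y k i) = θ 1 (k (y.1.right⁻¹ * i)) := by
      intro i
      rw [h i, wr_act hc, (hθ 1).conj_eq]
    simp only [h1]
    rw [Fintype.prod_equiv (Equiv.mulLeft y.1.right⁻¹) (fun i => θ 1 (k (y.1.right⁻¹ * i)))
      (fun i => θ 1 (k i)) (fun _ => rfl)]
    exact Finset.prod_congr rfl fun i _ => by rw [h i]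

/-- Counts at `d / q`. -/
noncomputable def cq (ℓ q d : ℕ) (H : Subgroup G) (ω : G → (integralClosure ℤ ℂ) ⧸ 𝔐) : ℕ :=
  if q ∣ d then cnt 𝔐 ℓ (d / q) H.subtype ω else 0

open Classical in
theorem card_inv {ℓ : ℕ} [Fact ℓ.Prime] {H : Subgroup G} {q : ℕ}
    (hq : Nat.card Q = q)
    {c : wrSub Q H →* MulAut (Q → H)} (hc : Cliff (wj H) (wπ H) c q) (d : ℕ)
    (ω : G → (integralClosure ℤ ℂ) ⧸ 𝔐) (hω : ω 1 = 1) :
    ((irrF (Q → H)).filter (fun θ => Inv c θ ∧ HasDefect ℓ θ d ∧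
      ∀ x, cen 𝔐 (piHom (fun _ => H.subtype) : (Q → H) →* (Q → G)) θ x =
        powFn 𝔐 Q ω x)).card = cq 𝔐 ℓ q d H ω := by
  classical
  have hcardQ : (Finset.univ : Finset Q).card = q := by
    rw [Finset.card_univ, ← Nat.card_eq_fintype_card, hq]
  rw [cq]
  split_ifs with hd
  · obtain ⟨e, rfl⟩ := hd
    rw [Nat.mul_div_cancel_left e hc.prime.pos, cnt, natCard_irr_eq]
    symm
    refine Finset.card_bij (fun θ _ => prodFn (fun _ : Q => θ)) ?_ ?_ ?_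
    · intro θ hθ
      rw [Finset.mem_filter, mem_irrF] at hθ
      obtain ⟨h1, h2, h3⟩ := hθ
      rw [Finset.mem_filter, mem_irrF]
      refine ⟨isIrr_prodFn fun _ => h1, (wr_inv hc fun _ => h1).mpr fun _ => rfl, ?_, ?_⟩
      · rw [hasDefect_prodFn (fun _ => h1) (fun _ => h2), Finset.sum_const, hcardQ, smul_eq_mul]
      · intro x
        rw [cen_prodFn 𝔐 _ fun _ => h1, powFn]
        exact Finset.prod_congr rfl fun j _ => h3 _
    · intro θ hθ θ' hθ' h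
      rw [Finset.mem_filter, mem_irrF] at hθ hθ'
      exact congrFun (prodFn_inj (fun _ => hθ.1) (fun _ => hθ'.1) h) 1
    · intro ψ hψ
      rw [Finset.mem_filter, mem_irrF] at hψ
      obtain ⟨h1, h2, h3, h4⟩ := hψ
      obtain ⟨θ, hθ, rfl⟩ := exists_prodFn h1
      have h5 := (wr_inv hc hθ).mp h2
      have h6 : θ = fun _ => θ 1 := funext h5
      have h7 : ∀ j g, cen 𝔐 H.subtype (θ j) g = ω g := by
        refine (prod_eq_powFn_iff 𝔐 (fun j => cen_at_one 𝔐 Subtype.val_injective (hθ j))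
          hω).mp ?_
        intro x
        rw [← h4 x, cen_prodFn 𝔐 _ hθ]
      refine ⟨θ 1, ?_, by rw [← h6]⟩
      rw [Finset.mem_filter, mem_irrF]
      refine ⟨hθ 1, ?_, h7 1⟩
      obtain ⟨e', he'⟩ := (hθ 1).exists_defect (ℓ := ℓ)
      have h8 : ∀ j, HasDefect ℓ (θ j) e' := by
        intro j
        rw [h5 j]
        exact he'
      rw [hasDefect_prodFn hθ h8, Finset.sum_const, hcardQ, smul_eq_mul] at h3
      rw [← Nat.eq_of_mul_eq_mul_left hc.prime.pos h3]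
      exact he'
  · rw [Finset.card_eq_zero, Finset.filter_eq_empty_iff]
    rintro ψ hψ ⟨h2, h3, h4⟩
    obtain ⟨θ, hθ, rfl⟩ := exists_prodFn (mem_irrF.mp hψ)
    have h5 := (wr_inv hc hθ).mp h2
    obtain ⟨e', he'⟩ := (hθ 1).exists_defect (ℓ := ℓ)
    have h8 : ∀ j, HasDefect ℓ (θ j) e' := by
      intro j
      rw [h5 j]
      exact he'
    rw [hasDefect_prodFn hθ h8, Finset.sum_const, hcardQ, smul_eq_mul] at h3
    exact hd ⟨e', h3.symm⟩

/-- Counts at `(d - v) / q`. -/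
noncomputable def cq' (ℓ q d : ℕ) (H : Subgroup G) (ω : G → (integralClosure ℤ ℂ) ⧸ 𝔐) : ℕ :=
  if padicValNat ℓ q ≤ d then cq 𝔐 ℓ q (d - padicValNat ℓ q) H ω else 0

theorem cN_wrSub [h𝔐 : 𝔐.IsPrime] {ℓ : ℕ} [Fact ℓ.Prime]
    (hℓ : (ℓ : integralClosure ℤ ℂ) ∈ 𝔐) {q : ℕ} [hqf : Fact q.Prime]
    (hq : Nat.card Q = q) (d : ℕ) (ω : G → (integralClosure ℤ ℂ) ⧸ 𝔐) (hω : ω 1 = 1)
    (H : Subgroup G) :
    q * cN 𝔐 ℓ d ω (wrSub Q H) + cq 𝔐 ℓ q d H ω =
      cnt 𝔐 ℓ d (piHom (fun _ => H.subtype) : (Q → H) →* (Q → G)) (powFn 𝔐 Q ω) +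
        q * (q * cq' 𝔐 ℓ q d H ω) := by
  classical
  obtain ⟨c, hc⟩ := exists_cliff (Q := Q) H hq
  set blk : ((Q → H) → ℂ) → Prop := fun θ =>
    ∀ x, cen 𝔐 (piHom (fun _ => H.subtype) : (Q → H) →* (Q → G)) θ x = powFn 𝔐 Q ω x with hblk
  have hbl : ∀ ψ θ, IsIrr ψ → IsIrr θ → ip (resj (wj H) ψ) θ ≠ 0 →
      ((∀ u : Q → G, red 𝔐 (wt ψ (fun k : wrSub Q H => conjInd (k : G ≀ᵣ Q) (bse u))) =
        Wf 𝔐 Q ω u) ↔ blk θ) := by
    intro ψ θ hψ hθ hr
    rw [hblk]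
    simp only
    rw [← blk_iff 𝔐 hℓ hq (fun _ => H.subtype) (fun _ => Subtype.val_injective) ω hω hθ]
    refine forall_congr' fun u => ?_
    rw [hc.wt_eq hθ hψ hr (fun k : wrSub Q H => conjInd (k : G ≀ᵣ Q) (bse u))]
    · rfl
    · intro g x
      exact conjInd_conj (g : G ≀ᵣ Q) (x : G ≀ᵣ Q) (bse u)
    · intro y hy
      rw [conjInd, if_neg]
      intro h1
      apply hy
      obtain ⟨a, ha⟩ := isConj_iff.mp h1
      have h2 := congrArg RegularWreathProduct.right ha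
      have h3 : a.right * (y : G ≀ᵣ Q).right * a.right⁻¹ = 1 := h2
      rw [mul_comm a.right, mul_inv_cancel_right] at h3
      exact h3
  have hcount := hc.count
    (fun ψ => HasDefect ℓ ψ d ∧
      ∀ u : Q → G, red 𝔐 (wt ψ (fun k : wrSub Q H => conjInd (k : G ≀ᵣ Q) (bse u))) =
        Wf 𝔐 Q ω u)
    (fun θ => (∃ e, HasDefect ℓ θ e ∧ e + padicValNat ℓ q = d) ∧ blk θ)
    (fun θ => HasDefect ℓ θ d ∧ blk θ)
    (by
      intro ψ θ hψ hθ hinv hr
      rw [hc.hasDefect_inv hθ hinv hψ hr, hbl ψ θ hψ hθ hr])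
    (by
      intro ψ θ hψ hθ hinv hr
      rw [hc.hasDefect_moved hθ hinv hψ hr, hbl ψ θ hψ hθ hr])
  have h1 : cN 𝔐 ℓ d ω (wrSub Q H) = ((irrF (wrSub Q H)).filter (fun ψ => HasDefect ℓ ψ d ∧
      ∀ u : Q → G, red 𝔐 (wt ψ (fun k : wrSub Q H => conjInd (k : G ≀ᵣ Q) (bse u))) =
        Wf 𝔐 Q ω u)).card := natCard_irr_eq _
  have h2 : cnt 𝔐 ℓ d (piHom (fun _ => H.subtype) : (Q → H) →* (Q → G)) (powFn 𝔐 Q ω) =
      ((irrF (Q → H)).filter (fun θ => HasDefect ℓ θ d ∧ blk θ)).card := natCard_irr_eq _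
  have h3 : ((irrF (Q → H)).filter (fun θ => HasDefect ℓ θ d ∧ blk θ)).card =
      ((irrF (Q → H)).filter (fun θ => ¬ Inv c θ ∧ HasDefect ℓ θ d ∧ blk θ)).card +
        cq 𝔐 ℓ q d H ω := by
    rw [← card_inv 𝔐 hq hc d ω hω]
    rw [← Finset.card_filter_add_card_filter_not (s := (irrF (Q → H)).filter
      (fun θ => HasDefect ℓ θ d ∧ blk θ)) (fun θ => ¬ Inv c θ)]
    congr 1
    · congr 1
      ext θ
      simp only [Finset.mem_filter]
      tauto
    · congr 1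
      ext θ
      simp only [Finset.mem_filter, hblk, not_not]
      tauto
  have h4 : ((irrF (Q → H)).filter (fun θ => Inv c θ ∧
      (∃ e, HasDefect ℓ θ e ∧ e + padicValNat ℓ q = d) ∧ blk θ)).card =
        cq' 𝔐 ℓ q d H ω := by
    rw [cq']
    split_ifs with hv
    · rw [← card_inv 𝔐 hq hc (d - padicValNat ℓ q) ω hω]
      congr 1
      ext θ
      simp only [Finset.mem_filter, hblk]
      refine and_congr Iff.rfl (and_congr Iff.rfl (and_congr ?_ Iff.rfl))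
      constructor
      · rintro ⟨e, he, rfl⟩
        rw [Nat.add_sub_cancel]
        exact he
      · intro h
        exact ⟨_, h, Nat.sub_add_cancel hv⟩
    · rw [Finset.card_eq_zero, Finset.filter_eq_empty_iff]
      rintro θ _ ⟨_, ⟨e, _, he⟩, _⟩
      omega
  rw [h1, hcount, h2, h3, h4]
  ring

end Wsub

end Pool.Agent.Lib_helper13


end

section

set_option linter.unusedSectionVars false

/-! The contribution of the chains in the base group of a wreath product. -/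

namespace Pool.Agent.Lib_helper13

open Representation

section BaseChains

variable {G Q : Type*} [Group G] [Fintype G] [CommGroup Q] [Fintype Q] [DecidableEq Q]

theorem map_bse_conj (g : G ≀ᵣ Q) (D : Subgroup (Q → G)) :
    (D.map bse).map (MulAut.conj g).toMonoidHom = (D.map (wAct (sft g.right) g.left)).map bse := by
  rw [Subgroup.map_map, Subgroup.map_map]
  congr 1
  exact MonoidHom.ext fun x => conj_bse g x

theorem mem_stb_bse {τ : Finset (Subgroup (Q → G))} {g : G ≀ᵣ Q} :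
    g ∈ stb (mapCh bse τ) ↔ ∀ D ∈ τ, D.map (wAct (sft g.right) g.left) = D := by
  rw [mem_stb]
  constructor
  · intro h D hD
    have h1 := h _ (mem_mapCh.mpr ⟨D, hD, rfl⟩)
    rw [map_bse_conj] at h1
    exact Subgroup.map_injective bse_injective h1
  · intro h E hE
    obtain ⟨D, hD, rfl⟩ := mem_mapCh.mp hE
    rw [map_bse_conj, h D hD]

theorem stb_bse_insert [DecidableEq (Subgroup (Q → G))] {τ : Finset (Subgroup (Q → G))}
    {D : Subgroup (Q → G)} (hD : D ∈ τ) :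
    stb (mapCh (bse : (Q → G) →* (G ≀ᵣ Q)) (insert (cl D) τ)) = stb (mapCh bse τ) := by
  ext g
  rw [mem_stb_bse, mem_stb_bse]
  constructor
  · intro h E hE
    exact h E (Finset.mem_insert_of_mem hE)
  · intro h E hE
    rcases Finset.mem_insert.mp hE with rfl | hE
    · exact cl_fixed (h D hD)
    · exact h E hE

theorem sft_one : sft (1 : Q) = 1 := by
  ext i
  simp [sft]

theorem stb_bse_of_trivial {τ : Finset (Subgroup (Q → G))} (hτ : ∀ D ∈ τ, cl D = D)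
    (h : ∀ g ∈ stb (mapCh (bse : (Q → G) →* (G ≀ᵣ Q)) τ), g.right = 1) :
    stb (mapCh (bse : (Q → G) →* (G ≀ᵣ Q)) τ) = (pK (fun j => stb (comp τ j))).map bse := by
  rw [← stb_closed hτ]
  ext g
  constructor
  · intro hg
    have h1 := h g hg
    obtain ⟨x, rfl⟩ := mem_range_bse.mpr h1
    refine ⟨x, ?_, rfl⟩
    rw [mem_stb_bse] at hg
    rw [SetLike.mem_coe, mem_stb]
    intro D hD
    have h2 := hg D hD
    rw [bse_right, bse_left, sft_one, wAct_conj] at h2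
    exact h2
  · rintro ⟨x, hx, rfl⟩
    rw [SetLike.mem_coe, mem_stb] at hx
    rw [mem_stb_bse]
    intro D hD
    rw [bse_right, bse_left, sft_one, wAct_conj]
    exact hx D hD

open Classical in
/-- The diagonal chain. -/
noncomputable def dg (Q : Type*) (ρ : Finset (Subgroup G)) : Finset (Subgroup (Q → G)) :=
  ρ.image (fun D => pK (fun _ => D))

theorem mem_dg {ρ : Finset (Subgroup G)} {E : Subgroup (Q → G)} :
    E ∈ dg Q ρ ↔ ∃ D ∈ ρ, pK (fun _ => D) = E := by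
  classical
  rw [dg, Finset.mem_image]

theorem pKc_injective : Function.Injective (fun D : Subgroup G => pK (fun _ : Q => D)) := by
  intro D E h
  exact congrFun (pK_injective h) 1

theorem card_dg (ρ : Finset (Subgroup G)) : (dg Q ρ).card = ρ.card := by
  classical
  rw [dg, Finset.card_image_of_injective _ pKc_injective]

theorem dg_closed {ρ : Finset (Subgroup G)} : ∀ D ∈ dg Q ρ, cl D = D := by
  intro E hE
  obtain ⟨D, _, rfl⟩ := mem_dg.mp hE
  exact cl_pK _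

theorem dg_isCh {ℓ : ℕ} {ρ : Finset (Subgroup G)} (h : IsCh ℓ ⊥ ρ) : IsCh ℓ ⊥ (dg Q ρ) := by
  constructor
  · intro E hE
    obtain ⟨D, hD, rfl⟩ := mem_dg.mp hE
    refine ⟨isPGroup_pK fun _ => (h.1 D hD).1, ?_⟩
    rw [bot_lt_iff_ne_bot, ← pK_bot]
    intro h1
    exact (h.1 D hD).2.ne' (congrFun (pK_injective h1) 1)
  · intro E hE F hF _
    obtain ⟨D, hD, rfl⟩ := mem_dg.mp (Finset.mem_coe.mp hE)
    obtain ⟨D', hD', rfl⟩ := mem_dg.mp (Finset.mem_coe.mp hF)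
    rcases h.total hD hD' with h1 | h1
    · exact Or.inl (pK_le_pK.mpr fun _ => h1)
    · exact Or.inr (pK_le_pK.mpr fun _ => h1)

theorem comp_dg {ℓ : ℕ} {ρ : Finset (Subgroup G)} (h : IsCh ℓ ⊥ ρ) (j : Q) :
    comp (dg Q ρ) j = ρ := by
  ext K
  rw [mem_comp]
  constructor
  · rintro ⟨_, E, hE, rfl⟩
    obtain ⟨D, hD, rfl⟩ := mem_dg.mp hE
    rw [prj_pK]
    exact hD
  · intro hK
    exact ⟨(h.1 K hK).2.ne', _, mem_dg.mpr ⟨K, hK, rfl⟩, prj_pK _ _⟩

theorem stb_dg {ℓ : ℕ} {ρ : Finset (Subgroup G)} (h : IsCh ℓ ⊥ ρ) :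
    stb (dg Q ρ) = pK (fun _ => stb ρ) := by
  rw [stb_closed dg_closed]
  simp only [comp_dg h]

theorem stb_bse_dg {ρ : Finset (Subgroup G)} :
    stb (mapCh (bse : (Q → G) →* (G ≀ᵣ Q)) (dg Q ρ)) = wrSub Q (stb ρ) := by
  ext g
  rw [mem_stb_bse, mem_wrSub]
  constructor
  · intro h i
    rw [mem_stb]
    intro D hD
    have h1 := h _ (mem_dg.mpr ⟨D, hD, rfl⟩)
    rw [prj_wAct_fixed (cl_pK _)] at h1
    have h2 := h1 i
    rw [prj_pK, prj_pK] at h2
    exact h2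
  · intro h E hE
    obtain ⟨D, hD, rfl⟩ := mem_dg.mp hE
    rw [prj_wAct_fixed (cl_pK _)]
    intro i
    rw [prj_pK, prj_pK]
    exact mem_stb.mp (h i) D hD

theorem card_wrSub (H : Subgroup G) {q : ℕ} (hq : Nat.card Q = q) :
    Nat.card (wrSub Q H) = q * Nat.card H ^ q := by
  have e : wrSub Q H ≃ Q × (Q → H) :=
    { toFun := fun g => (g.1.right, fun i => ⟨g.1.left i, g.2 i⟩)
      invFun := fun p => ⟨⟨fun i => (p.2 i : G), p.1⟩, fun i => (p.2 i).2⟩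
      left_inv := fun _ => rfl
      right_inv := fun _ => rfl }
  rw [Nat.card_congr e, Nat.card_prod, Nat.card_fun, hq]

/-- A chain of product subgroups stabilized by an element outside the base group is conjugate to
a diagonal chain. -/
theorem exists_conj_dg {ℓ : ℕ} {q : ℕ} [Fact q.Prime] (hq : Nat.card Q = q)
    {τ : Finset (Subgroup (Q → G))} (hτ : τ ∈ ClCh Q G ℓ) {g : G ≀ᵣ Q}
    (hg : g ∈ stb (mapCh (bse : (Q → G) →* (G ≀ᵣ Q)) τ)) (hg1 : g.right ≠ 1) :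
    ∃ m : Q → G, mapCh (MulAut.conj m).toMonoidHom (dg Q (comp τ 1)) = τ := by
  obtain ⟨hch, hcl⟩ := mem_ClCh.mp hτ
  rw [mem_stb_bse] at hg
  have h1 : ∀ D ∈ τ, ∀ i, (prj (g.right⁻¹ * i) D).map (MulAut.conj (g.left i)).toMonoidHom =
      prj i D := by
    intro D hD i
    have h2 := hg D hD
    rw [prj_wAct_fixed (hcl D hD)] at h2
    exact h2 i
  have h2 : ∀ r : ℕ, ∃ m : G, ∀ D ∈ τ, (prj 1 D).map (MulAut.conj m).toMonoidHom =
      prj (g.right ^ r) D := by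
    intro r
    induction r with
    | zero =>
      refine ⟨1, fun D _ => ?_⟩
      have h3 : (MulAut.conj (1 : G)).toMonoidHom = MonoidHom.id G := by
        ext x
        simp
      rw [h3, Subgroup.map_id, pow_zero]
    | succ r ih =>
      obtain ⟨m, hm⟩ := ih
      refine ⟨g.left (g.right ^ (r + 1)) * m, fun D hD => ?_⟩
      have h3 := h1 D hD (g.right ^ (r + 1))
      rw [pow_succ', inv_mul_cancel_left, ← hm D hD, Subgroup.map_map] at h3
      rw [pow_succ', ← h3, map_mul]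
      rfl
  have h3 : ∀ i : Q, ∃ m : G, ∀ D ∈ τ, (prj 1 D).map (MulAut.conj m).toMonoidHom = prj i D := by
    intro i
    have h4 : i ∈ Subgroup.zpowers g.right := by
      rw [zpowers_eq_top_of_prime_card hq hg1]
      trivial
    obtain ⟨r, rfl⟩ := (mem_powers_iff_mem_zpowers.mpr h4 : i ∈ Submonoid.powers g.right)
    exact h2 r
  choose m hm using h3
  have h4 : ∀ D ∈ τ, (pK (fun _ : Q => prj 1 D)).map (MulAut.conj m).toMonoidHom = D := by
    intro D hD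
    rw [← wAct_conj, pK_wAct]
    conv_rhs => rw [← hcl D hD, cl]
    congr 1
    ext1 i
    exact hm i D hD
  refine ⟨m, ?_⟩
  ext E
  rw [mem_mapCh]
  constructor
  · rintro ⟨F, hF, rfl⟩
    obtain ⟨K, hK, rfl⟩ := mem_dg.mp hF
    obtain ⟨_, D, hD, rfl⟩ := mem_comp.mp hK
    rw [h4 D hD]
    exact hD
  · intro hE
    refine ⟨_, mem_dg.mpr ⟨prj 1 E, mem_comp.mpr ⟨?_, E, hE, rfl⟩, rfl⟩, h4 E hE⟩
    intro h5
    apply (hch.1 E hE).2.ne'
    rw [← h4 E hE, h5, pK_bot, Subgroup.map_bot]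

theorem mapCh_conj_ClCh {ℓ : ℕ} {τ : Finset (Subgroup (Q → G))} (hτ : τ ∈ ClCh Q G ℓ)
    (n : Q → G) : mapCh (MulAut.conj n).toMonoidHom τ ∈ ClCh Q G ℓ := by
  rw [mem_ClCh] at hτ ⊢
  constructor
  · have h1 := (isCh_mapCh_iff (i := (MulAut.conj n).toMonoidHom) (MulAut.conj n).injective
      (ℓ := ℓ) (Z := ⊥) (τ := τ)).mpr hτ.1
    rwa [Subgroup.map_bot] at h1
  · intro E hE
    obtain ⟨D, hD, rfl⟩ := mem_mapCh.mp hE
    rw [← wAct_conj, cl_wAct, hτ.2 D hD]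

theorem comp_mapCh_conj (τ : Finset (Subgroup (Q → G))) (n : Q → G) (j : Q) :
    comp (mapCh (MulAut.conj n).toMonoidHom τ) j =
      mapCh (MulAut.conj (n j)).toMonoidHom (comp τ j) := by
  ext K
  rw [mem_comp, mem_mapCh]
  constructor
  · rintro ⟨hK, E, hE, rfl⟩
    obtain ⟨D, hD, rfl⟩ := mem_mapCh.mp hE
    rw [← wAct_conj, prj_wAct] at hK ⊢
    refine ⟨prj j D, mem_comp.mpr ⟨?_, D, hD, rfl⟩, rfl⟩
    intro h
    apply hK
    change (prj j D).map _ = ⊥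
    rw [h, Subgroup.map_bot]
  · rintro ⟨L, hL, rfl⟩
    obtain ⟨hL0, D, hD, rfl⟩ := mem_comp.mp hL
    refine ⟨?_, _, mem_mapCh.mpr ⟨D, hD, rfl⟩, ?_⟩
    · rw [Ne, Subgroup.map_eq_bot_iff_of_injective _ (MulAut.conj (n j)).injective]
      exact hL0
    · rw [← wAct_conj, prj_wAct]
      rfl

theorem mapCh_bse_conj (τ : Finset (Subgroup (Q → G))) (n : Q → G) :
    mapCh (bse : (Q → G) →* (G ≀ᵣ Q)) (mapCh (MulAut.conj n).toMonoidHom τ) =
      mapCh (MulAut.conj (bse n : G ≀ᵣ Q)).toMonoidHom (mapCh bse τ) := by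
  rw [mapCh_comp, mapCh_comp]
  congr 1
  ext x
  all_goals simp

end BaseChains

end Pool.Agent.Lib_helper13


end

section

set_option linter.unusedSectionVars false

/-! The contribution of the chains in the base group of a wreath product: evaluation. -/

namespace Pool.Agent.Lib_helper13

open Representation

section Sum

variable {G Q : Type*} [Group G] [Fintype G] [CommGroup Q] [Fintype Q] [DecidableEq Q]
variable (𝔐 : Ideal (integralClosure ℤ ℂ))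

/-- The excess of a chain. -/
noncomputable def RR (ℓ d : ℕ) (ω : G → (integralClosure ℤ ℂ) ⧸ 𝔐)
    (τ : Finset (Subgroup (Q → G))) : ℚ :=
  (Nat.card (stb (mapCh (bse : (Q → G) →* (G ≀ᵣ Q)) τ)) : ℚ) *
      cN 𝔐 ℓ d ω (stb (mapCh (bse : (Q → G) →* (G ≀ᵣ Q)) τ)) -
    Nat.card (stb τ) * cnt 𝔐 ℓ d (stb τ).subtype (powFn 𝔐 Q ω)

theorem RR_conj (ℓ d : ℕ) (ω : G → (integralClosure ℤ ℂ) ⧸ 𝔐)
    (τ : Finset (Subgroup (Q → G))) (n : Q → G) :
    RR 𝔐 ℓ d ω (mapCh (MulAut.conj n).toMonoidHom τ) = RR 𝔐 ℓ d ω τ := by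
  rw [RR, RR, mapCh_bse_conj, stb_mapCh_equiv, stb_mapCh_equiv, card_map_conj, card_map_conj,
    cN_map_conj, cnt_map_conj]

theorem RR_trivial [h𝔐 : 𝔐.IsPrime] {ℓ : ℕ} [Fact ℓ.Prime]
    (hℓ : (ℓ : integralClosure ℤ ℂ) ∈ 𝔐) {q : ℕ} [hqf : Fact q.Prime]
    (hq : Nat.card Q = q) (d : ℕ) (ω : G → (integralClosure ℤ ℂ) ⧸ 𝔐) (hω : ω 1 = 1)
    {τ : Finset (Subgroup (Q → G))} (hτ : ∀ D ∈ τ, cl D = D)
    (h : ∀ g ∈ stb (mapCh (bse : (Q → G) →* (G ≀ᵣ Q)) τ), g.right = 1) :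
    RR 𝔐 ℓ d ω τ = 0 := by
  rw [RR, stb_bse_of_trivial hτ h, stb_closed hτ, cN_base 𝔐 hℓ hq d ω hω,
    ← Nat.card_congr ((pK fun j => stb (comp τ j)).equivMapOfInjective bse bse_injective).toEquiv,
    sub_self]

theorem RR_dg [h𝔐 : 𝔐.IsPrime] {ℓ : ℕ} [Fact ℓ.Prime]
    (hℓ : (ℓ : integralClosure ℤ ℂ) ∈ 𝔐) {q : ℕ} [hqf : Fact q.Prime]
    (hq : Nat.card Q = q) (d : ℕ) (ω : G → (integralClosure ℤ ℂ) ⧸ 𝔐) (hω : ω 1 = 1)
    {ρ : Finset (Subgroup G)} (hρ : IsCh ℓ ⊥ ρ) :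
    RR 𝔐 ℓ d ω (dg Q ρ) = (Nat.card (stb ρ) : ℚ) ^ q *
      ((q : ℚ) ^ 2 * cq' 𝔐 ℓ q d (stb ρ) ω - cq 𝔐 ℓ q d (stb ρ) ω) := by
  have h1 := cN_wrSub 𝔐 hℓ hq d ω hω (stb ρ)
  have h2 : cnt 𝔐 ℓ d (pK (fun _ : Q => stb ρ)).subtype (powFn 𝔐 Q ω) =
      cnt 𝔐 ℓ d (piHom (fun _ => (stb ρ).subtype) : (Q → stb ρ) →* (Q → G)) (powFn 𝔐 Q ω) := by
    rw [← cnt_comp_equiv 𝔐 ℓ d (pKEquiv (fun _ : Q => stb ρ))]
    rfl
  have h3 : Nat.card (pK (fun _ : Q => stb ρ)) = Nat.card (stb ρ) ^ q := by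
    rw [card_pK, Finset.prod_const, Finset.card_univ, ← Nat.card_eq_fintype_card, hq]
  rw [RR, stb_bse_dg, stb_dg hρ, card_wrSub _ hq, h2, h3]
  have h4 : (q : ℚ) * cN 𝔐 ℓ d ω (wrSub Q (stb ρ)) + cq 𝔐 ℓ q d (stb ρ) ω =
      cnt 𝔐 ℓ d (piHom (fun _ => (stb ρ).subtype) : (Q → stb ρ) →* (Q → G)) (powFn 𝔐 Q ω) +
        q * (q * cq' 𝔐 ℓ q d (stb ρ) ω) := by exact_mod_cast h1
  push_cast
  linear_combination ((Nat.card (stb ρ) : ℚ) ^ q) * h4

theorem card_eval_mem {q : ℕ} (hq : Nat.card Q = q) (S : Subgroup G)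
    [DecidablePred fun n : Q → G => n 1 ∈ S] :
    ((Finset.univ.filter (fun n : Q → G => n 1 ∈ S)).card : ℚ) =
      Nat.card S * ((Nat.card G : ℚ) ^ q / Nat.card G) := by
  have h1 : (Finset.univ.filter (fun n : Q → G => n 1 ∈ S)).card =
      Nat.card (S.comap (Pi.evalMonoidHom (fun _ : Q => G) 1)) := by
    classical
    rw [Nat.card_eq_fintype_card, Fintype.card_subtype]
    apply congrArg Finset.card
    ext n
    rw [Finset.mem_filter, Finset.mem_filter]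
    exact Iff.rfl
  have h2 := Subgroup.card_mul_index (S.comap (Pi.evalMonoidHom (fun _ : Q => G) 1))
  rw [Subgroup.index_comap_of_surjective S (f := Pi.evalMonoidHom (fun _ : Q => G) 1)
    (Function.surjective_eval 1), ← h1, Nat.card_fun, hq] at h2
  have h3 := Subgroup.card_mul_index S
  have hG : (Nat.card G : ℚ) ≠ 0 := by exact_mod_cast Nat.card_pos.ne'
  have hi : (S.index : ℚ) ≠ 0 := by exact_mod_cast Subgroup.index_ne_zero_of_finite
  have h2' : ((Finset.univ.filter (fun n : Q → G => n 1 ∈ S)).card : ℚ) * S.index =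
      (Nat.card G : ℚ) ^ q := by exact_mod_cast h2
  have h3' : (Nat.card S : ℚ) * S.index = Nat.card G := by exact_mod_cast h3
  rw [← mul_div_assoc, eq_div_iff hG]
  apply mul_right_cancel₀ hi
  linear_combination (Nat.card G : ℚ) * h2' - (Nat.card G : ℚ) ^ q * h3'

theorem card_conj_dg {ℓ : ℕ} {q : ℕ} (hq : Nat.card Q = q) {ρ : Finset (Subgroup G)}
    (hρ : IsCh ℓ ⊥ ρ) {τ : Finset (Subgroup (Q → G))} {m : Q → G}
    (hm : mapCh (MulAut.conj m).toMonoidHom (dg Q ρ) = τ)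
    [DecidablePred fun n : Q → G => mapCh (MulAut.conj n).toMonoidHom (dg Q ρ) = τ] :
    (Finset.univ.filter (fun n : Q → G =>
      mapCh (MulAut.conj n).toMonoidHom (dg Q ρ) = τ)).card = Nat.card (stb ρ) ^ q := by
  have h3 : Nat.card (pK (fun _ : Q => stb ρ)) = Nat.card (stb ρ) ^ q := by
    rw [card_pK, Finset.prod_const, Finset.card_univ, ← Nat.card_eq_fintype_card, hq]
  rw [← h3, ← stb_dg hρ, Nat.card_eq_fintype_card, ← Finset.card_univ]
  symm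
  apply Finset.card_bij (fun (s : stb (dg Q ρ)) _ => m * (s : Q → G))
  · intro s _
    rw [Finset.mem_filter]
    refine ⟨Finset.mem_univ _, ?_⟩
    rw [← mapCh_conj_mul, (mapCh_conj_eq_iff (dg_isCh hρ) (s : Q → G)).mpr s.2, hm]
  · intro s _ s' _ h
    exact Subtype.ext (mul_left_cancel h)
  · intro n hn
    have h2 := (Finset.mem_filter.mp hn).2
    refine ⟨⟨m⁻¹ * n, ?_⟩, Finset.mem_univ _, by simp⟩
    rw [← mapCh_conj_eq_iff (dg_isCh hρ), ← mapCh_conj_mul, h2, ← hm, mapCh_conj_mul,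
      inv_mul_cancel, mapCh_conj_one]

theorem sum_RR [h𝔐 : 𝔐.IsPrime] {ℓ : ℕ} [Fact ℓ.Prime]
    (hℓ : (ℓ : integralClosure ℤ ℂ) ∈ 𝔐) {q : ℕ} [hqf : Fact q.Prime]
    (hq : Nat.card Q = q) (d : ℕ) (ω : G → (integralClosure ℤ ℂ) ⧸ 𝔐) (hω : ω 1 = 1) :
    ∑ τ ∈ ClCh Q G ℓ, (-1 : ℚ) ^ τ.card * RR 𝔐 ℓ d ω τ =
      ((Nat.card G : ℚ) ^ q / Nat.card G) * ∑ ρ ∈ Ch ℓ (⊥ : Subgroup G), (-1 : ℚ) ^ ρ.card *
        (Nat.card (stb ρ) * ((q : ℚ) ^ 2 * cq' 𝔐 ℓ q d (stb ρ) ω - cq 𝔐 ℓ q d (stb ρ) ω)) := by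
  classical
  have hS0 : ∀ ρ : Finset (Subgroup G), (Nat.card (stb ρ) : ℚ) ^ q ≠ 0 := by
    intro ρ
    have : (Nat.card (stb ρ) : ℚ) ≠ 0 := by exact_mod_cast Nat.card_pos.ne'
    exact pow_ne_zero _ this
  -- weights
  have ha : ∀ τ ∈ ClCh Q G ℓ, (-1 : ℚ) ^ τ.card * RR 𝔐 ℓ d ω τ =
      ∑ n : Q → G, if mapCh (MulAut.conj n).toMonoidHom (dg Q (comp τ 1)) = τ then
        (-1 : ℚ) ^ τ.card * RR 𝔐 ℓ d ω τ / (Nat.card (stb (comp τ 1)) : ℚ) ^ q else 0 := by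
    intro τ hτ
    have hch := (mem_ClCh.mp hτ).1
    rw [← Finset.sum_filter, Finset.sum_const, nsmul_eq_mul]
    by_cases hm : ∃ m : Q → G, mapCh (MulAut.conj m).toMonoidHom (dg Q (comp τ 1)) = τ
    · obtain ⟨m, hm⟩ := hm
      rw [card_conj_dg hq (comp_isCh hch 1) hm]
      push_cast
      rw [mul_div_cancel₀ _ (hS0 _)]
    · have h1 : RR 𝔐 ℓ d ω τ = 0 := by
        apply RR_trivial 𝔐 hℓ hq d ω hω (mem_ClCh.mp hτ).2
        intro g hg
        by_contra hg1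
        exact hm (exists_conj_dg hq hτ hg hg1)
      rw [h1]
      simp
  rw [Finset.sum_congr rfl ha]
  rw [← Finset.sum_fiberwise_of_maps_to (s := ClCh Q G ℓ) (t := Ch ℓ (⊥ : Subgroup G))
    (g := fun τ => comp τ 1)
    (fun τ hτ => mem_Ch.mpr (comp_isCh (mem_ClCh.mp hτ).1 1)), Finset.mul_sum]
  refine Finset.sum_congr rfl fun ρ hρ => ?_
  have hρ' := mem_Ch.mp hρ
  rw [Finset.sum_comm]
  have hb : ∀ n : Q → G, ∑ τ ∈ (ClCh Q G ℓ).filter (fun τ => comp τ 1 = ρ),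
      (if mapCh (MulAut.conj n).toMonoidHom (dg Q (comp τ 1)) = τ then
        (-1 : ℚ) ^ τ.card * RR 𝔐 ℓ d ω τ / (Nat.card (stb (comp τ 1)) : ℚ) ^ q else 0) =
      if n 1 ∈ stb ρ then (-1 : ℚ) ^ ρ.card *
        ((q : ℚ) ^ 2 * cq' 𝔐 ℓ q d (stb ρ) ω - cq 𝔐 ℓ q d (stb ρ) ω) else 0 := by
    intro n
    have h1 : ∀ τ ∈ (ClCh Q G ℓ).filter (fun τ => comp τ 1 = ρ),
        (if mapCh (MulAut.conj n).toMonoidHom (dg Q (comp τ 1)) = τ then
        (-1 : ℚ) ^ τ.card * RR 𝔐 ℓ d ω τ / (Nat.card (stb (comp τ 1)) : ℚ) ^ q else 0) =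
        if mapCh (MulAut.conj n).toMonoidHom (dg Q ρ) = τ then
        (-1 : ℚ) ^ τ.card * RR 𝔐 ℓ d ω τ / (Nat.card (stb ρ) : ℚ) ^ q else 0 := by
      intro τ hτ
      rw [(Finset.mem_filter.mp hτ).2]
    rw [Finset.sum_congr rfl h1]
    have h2 : comp (mapCh (MulAut.conj n).toMonoidHom (dg Q ρ)) 1 =
        mapCh (MulAut.conj (n 1)).toMonoidHom ρ := by
      rw [comp_mapCh_conj, comp_dg hρ']
    have h3 : mapCh (MulAut.conj n).toMonoidHom (dg Q ρ) ∈ ClCh Q G ℓ :=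
      mapCh_conj_ClCh (mem_ClCh.mpr ⟨dg_isCh hρ', dg_closed⟩) n
    by_cases hn : n 1 ∈ stb ρ
    · rw [if_pos hn, Finset.sum_eq_single (mapCh (MulAut.conj n).toMonoidHom (dg Q ρ))]
      · rw [if_pos rfl, RR_conj, RR_dg 𝔐 hℓ hq d ω hω hρ',
          card_mapCh (i := (MulAut.conj n).toMonoidHom) (MulAut.conj n).injective, card_dg]
        have h4 := hS0 ρ
        field_simp
      · intro τ _ hne
        rw [if_neg (fun h => hne h.symm)]
      · intro h4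
        exfalso
        apply h4
        rw [Finset.mem_filter]
        refine ⟨h3, ?_⟩
        rw [h2, (mapCh_conj_eq_iff hρ' (n 1)).mpr hn]
    · rw [if_neg hn]
      apply Finset.sum_eq_zero
      intro τ hτ
      rw [if_neg]
      intro h4
      apply hn
      rw [← mapCh_conj_eq_iff hρ' (n 1), ← h2, h4]
      exact (Finset.mem_filter.mp hτ).2
  simp only [hb]
  rw [← Finset.sum_filter, Finset.sum_const, nsmul_eq_mul, card_eval_mem hq]
  ring

/-- The contribution of the base group. -/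
theorem base_sum [h𝔐 : 𝔐.IsPrime] {ℓ : ℕ} [Fact ℓ.Prime]
    (hℓ : (ℓ : integralClosure ℤ ℂ) ∈ 𝔐) {q : ℕ} [hqf : Fact q.Prime]
    (hq : Nat.card Q = q) (d : ℕ) (ω : G → (integralClosure ℤ ℂ) ⧸ 𝔐) (hω : ω 1 = 1) :
    ∑ τ ∈ Ch ℓ (⊥ : Subgroup (Q → G)), (-1 : ℚ) ^ τ.card *
      ((Nat.card (stb (mapCh (bse : (Q → G) →* (G ≀ᵣ Q)) τ)) : ℚ) *
        cN 𝔐 ℓ d ω (stb (mapCh (bse : (Q → G) →* (G ≀ᵣ Q)) τ))) =
      KK 𝔐 ℓ d (⊥ : Subgroup (Q → G)) (powFn 𝔐 Q ω) +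
      ((Nat.card G : ℚ) ^ q / Nat.card G) * ∑ ρ ∈ Ch ℓ (⊥ : Subgroup G), (-1 : ℚ) ^ ρ.card *
        (Nat.card (stb ρ) * ((q : ℚ) ^ 2 * cq' 𝔐 ℓ q d (stb ρ) ω - cq 𝔐 ℓ q d (stb ρ) ω)) := by
  classical
  rw [sum_closed ℓ (fun τ => (Nat.card (stb (mapCh (bse : (Q → G) →* (G ≀ᵣ Q)) τ)) : ℚ) *
        cN 𝔐 ℓ d ω (stb (mapCh (bse : (Q → G) →* (G ≀ᵣ Q)) τ)))]
  · rw [KK, sum_closed ℓ (fun σ => (Nat.card (stb σ) : ℚ) *
      cnt 𝔐 ℓ d (stb σ).subtype (powFn 𝔐 Q ω)) (fun σ _ D hD => by rw [stb_insert_cl hD]),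
      ← sum_RR 𝔐 hℓ hq d ω hω, ← Finset.sum_add_distrib]
    refine Finset.sum_congr rfl fun τ _ => ?_
    rw [RR]
    ring
  · intro σ _ D hD
    rw [stb_bse_insert hD]

end Sum

end Pool.Agent.Lib_helper13


end

section

set_option linter.unusedSectionVars false

/-! The chains of a wreath product which leave the base group. -/

namespace Pool.Agent.Lib_helper13

open Representation

section DgP

variable {G Q : Type*} [Group G] [CommGroup Q]

/-- The product of the diagonal of a subgroup with the complement `Q`. -/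
def dgP (Q : Type*) [CommGroup Q] (D : Subgroup G) : Subgroup (G ≀ᵣ Q) where
  carrier := {g | ∃ d ∈ D, g.left = fun _ => d}
  one_mem' := ⟨1, D.one_mem, rfl⟩
  mul_mem' := by
    rintro a b ⟨d, hd, hd'⟩ ⟨e, he, he'⟩
    refine ⟨d * e, D.mul_mem hd he, ?_⟩
    rw [RegularWreathProduct.mul_left, hd', he']
    rfl
  inv_mem' := by
    rintro a ⟨d, hd, hd'⟩
    refine ⟨d⁻¹, D.inv_mem hd, ?_⟩
    rw [RegularWreathProduct.inv_left, hd']
    rfl

theorem mem_dgP {D : Subgroup G} {g : G ≀ᵣ Q} : g ∈ dgP Q D ↔ ∃ d ∈ D, g.left = fun _ => d :=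
  Iff.rfl

theorem dgP_le {D E : Subgroup G} : dgP Q D ≤ dgP Q E ↔ D ≤ E := by
  constructor
  · intro h d hd
    obtain ⟨e, he, he'⟩ := h (show (⟨fun _ => d, 1⟩ : G ≀ᵣ Q) ∈ dgP Q D from ⟨d, hd, rfl⟩)
    have : d = e := congrFun he' 1
    rw [this]
    exact he
  · rintro h g ⟨d, hd, hd'⟩
    exact ⟨d, h hd, hd'⟩

theorem dgP_injective : Function.Injective (dgP Q : Subgroup G → Subgroup (G ≀ᵣ Q)) := by
  intro D E h
  apply le_antisymm
  · exact dgP_le.mp h.le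
  · exact dgP_le.mp h.ge

theorem mem_dgP_bot {g : G ≀ᵣ Q} : g ∈ dgP Q (⊥ : Subgroup G) ↔ g.left = 1 := by
  constructor
  · rintro ⟨d, hd, hd'⟩
    rw [Subgroup.mem_bot] at hd
    rw [hd', hd]
    rfl
  · intro h
    exact ⟨1, Subgroup.one_mem _, h⟩

theorem card_dgP (D : Subgroup G) : Nat.card (dgP Q D) = Nat.card D * Nat.card Q := by
  rw [← Nat.card_prod]
  symm
  refine Nat.card_congr (Equiv.ofBijective
    (fun p : D × Q => (⟨⟨fun _ => p.1, p.2⟩, ⟨p.1, p.1.2, rfl⟩⟩ : dgP Q D)) ⟨?_, ?_⟩)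
  · rintro ⟨d, t⟩ ⟨d', t'⟩ h
    have h1 := congrArg (fun z : dgP Q D => z.1.left 1) h
    have h2 := congrArg (fun z : dgP Q D => z.1.right) h
    exact Prod.ext (Subtype.ext h1) h2
  · rintro ⟨g, d, hd, hd'⟩
    refine ⟨(⟨d, hd⟩, g.right), ?_⟩
    apply Subtype.ext
    ext1
    · exact hd'.symm
    · rfl

theorem isPGroup_dgP {ℓ : ℕ} [Fact ℓ.Prime] [Finite G] [Finite Q] (hQ : Nat.card Q = ℓ)
    {D : Subgroup G} : IsPGroup ℓ (dgP Q D) ↔ IsPGroup ℓ D := by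
  rw [IsPGroup.iff_card, IsPGroup.iff_card, card_dgP, hQ]
  have hℓ0 : 0 < ℓ := (Fact.out : ℓ.Prime).pos
  constructor
  · rintro ⟨n, hn⟩
    rcases Nat.eq_zero_or_pos n with rfl | hn0
    · exfalso
      rw [pow_zero] at hn
      have h1 := Nat.eq_one_of_mul_eq_one_left hn
      exact (Fact.out : ℓ.Prime).one_lt.ne' h1
    · refine ⟨n - 1, ?_⟩
      apply Nat.eq_of_mul_eq_mul_right hℓ0
      rw [hn, ← pow_succ, Nat.sub_add_cancel hn0]
  · rintro ⟨n, hn⟩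
    exact ⟨n + 1, by rw [hn, pow_succ]⟩

theorem conj_dgP {D : Subgroup G} {g : G ≀ᵣ Q} {c : G} (hg : g.left = fun _ => c) :
    (dgP Q D).map (MulAut.conj g).toMonoidHom =
      dgP Q (D.map (MulAut.conj c).toMonoidHom) := by
  have hc : ∀ x : G ≀ᵣ Q, ∀ d : G, x.left = (fun _ => d) →
      (g * x * g⁻¹).left = fun _ => c * d * c⁻¹ := by
    intro x d hx
    ext i
    simp only [RegularWreathProduct.mul_left, RegularWreathProduct.inv_left, hg, hx]
    rfl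
  ext x
  constructor
  · rintro ⟨y, ⟨d, hd, hd'⟩, rfl⟩
    exact ⟨c * d * c⁻¹, ⟨d, hd, rfl⟩, hc y d hd'⟩
  · rintro ⟨_, ⟨d, hd, rfl⟩, hx⟩
    refine ⟨g⁻¹ * x * g, ⟨d, hd, ?_⟩, ?_⟩
    · have h1 : (g⁻¹ * x * g).left = fun _ => c⁻¹ * (c * d * c⁻¹) * c := by
        ext i
        simp only [RegularWreathProduct.mul_left, RegularWreathProduct.inv_left, hg, hx]
        rfl
      rw [h1]
      ext i
      group
    · change g * (g⁻¹ * x * g) * g⁻¹ = x
      group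

theorem mem_normalizer_dgP_bot {g : G ≀ᵣ Q} :
    g ∈ Subgroup.normalizer ((dgP Q (⊥ : Subgroup G) : Subgroup (G ≀ᵣ Q)) : Set (G ≀ᵣ Q)) ↔
      g ∈ dgP Q (⊤ : Subgroup G) := by
  rw [Subgroup.mem_normalizer_iff_map_conj_eq]
  constructor
  · intro h
    refine ⟨g.left 1, trivial, ?_⟩
    ext j
    have h1 : (⟨1, j⟩ : G ≀ᵣ Q) ∈ dgP Q (⊥ : Subgroup G) := mem_dgP_bot.mpr rfl
    have h2 : g * ⟨1, j⟩ * g⁻¹ ∈ dgP Q (⊥ : Subgroup G) := by
      have h3 : ((dgP Q (⊥ : Subgroup G)).map (MulAut.conj g).toMonoidHom) =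
        dgP Q (⊥ : Subgroup G) := h
      rw [← h3]
      exact ⟨_, h1, rfl⟩
    have h3 := congrFun (mem_dgP_bot.mp h2) j
    simp only [RegularWreathProduct.mul_left, RegularWreathProduct.inv_left, Pi.mul_apply,
      Pi.one_apply, Pi.inv_apply, mul_one, RegularWreathProduct.mul_right] at h3
    have h4 : g.right * ((g.right * j)⁻¹ * j) = 1 := by
      rw [mul_inv]
      have : g.right * (g.right⁻¹ * j⁻¹ * j) = g.right * g.right⁻¹ * (j⁻¹ * j) := by
        rw [mul_assoc g.right⁻¹, mul_assoc]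
      rw [this, mul_inv_cancel, inv_mul_cancel, one_mul]
    rw [h4] at h3
    exact mul_inv_eq_one.mp h3
  · rintro ⟨c, _, hc⟩
    have h1 := conj_dgP (D := (⊥ : Subgroup G)) hc
    rw [Subgroup.map_bot] at h1
    exact h1

/-- Complements of the base group are conjugate to the standard one. -/
theorem exists_conj_P {ℓ : ℕ} [Fact ℓ.Prime] (hQ : Nat.card Q = ℓ) {P : Subgroup (G ≀ᵣ Q)}
    (h1 : ¬ P ≤ (bse : (Q → G) →* (G ≀ᵣ Q)).range)
    (h2 : P ⊓ (bse : (Q → G) →* (G ≀ᵣ Q)).range = ⊥) :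
    ∃ m : Q → G, (dgP Q (⊥ : Subgroup G)).map (MulAut.conj (bse m : G ≀ᵣ Q)).toMonoidHom = P := by
  have hinj : ∀ x ∈ P, ∀ y ∈ P, x.right = y.right → x = y := by
    intro x hx y hy hxy
    have h3 : x * y⁻¹ ∈ P ⊓ (bse : (Q → G) →* (G ≀ᵣ Q)).range := by
      refine ⟨P.mul_mem hx (P.inv_mem hy), ?_⟩
      refine mem_range_bse.mpr ?_
      change x.right * y.right⁻¹ = 1
      rw [hxy, mul_inv_cancel]
    rw [h2, Subgroup.mem_bot] at h3
    exact mul_inv_eq_one.mp h3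
  obtain ⟨x₀, hx₀, hx₀'⟩ := SetLike.not_le_iff_exists.mp h1
  rw [mem_range_bse] at hx₀'
  have hsurj : ∀ t : Q, ∃ p ∈ P, p.right = t := by
    intro t
    have h4 : t ∈ Subgroup.zpowers x₀.right := by
      rw [zpowers_eq_top_of_prime_card hQ hx₀']
      trivial
    obtain ⟨r, rfl⟩ := Subgroup.mem_zpowers_iff.mp h4
    refine ⟨x₀ ^ r, P.zpow_mem hx₀ r, ?_⟩
    exact map_zpow (RegularWreathProduct.rightHom : G ≀ᵣ Q →* Q) x₀ r
  choose p hp hp' using hsurj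
  have hmul : ∀ t j : Q, p j = p t * p (t⁻¹ * j) := by
    intro t j
    apply hinj _ (hp j) _ (P.mul_mem (hp t) (hp _))
    change (p j).right = (p t).right * (p (t⁻¹ * j)).right
    rw [hp', hp', hp', mul_inv_cancel_left]
  refine ⟨fun j => (p j).left j, ?_⟩
  have key : ∀ t : Q, (bse (fun j => (p j).left j) : G ≀ᵣ Q) * ⟨1, t⟩ *
      (bse (fun j => (p j).left j) : G ≀ᵣ Q)⁻¹ = p t := by
    intro t
    ext1
    · ext j
      have h3 := congrArg (fun z : G ≀ᵣ Q => z.left j) (hmul t j)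
      simp only [RegularWreathProduct.mul_left, Pi.mul_apply, hp'] at h3
      simp only [bse, RegularWreathProduct.mul_left, RegularWreathProduct.inv_left, Pi.mul_apply,
        Pi.one_apply, Pi.inv_apply, RegularWreathProduct.mul_right, one_mul,
        MonoidHom.coe_mk, OneHom.coe_mk, mul_one]
      rw [h3]
      group
    · change 1 * t * 1⁻¹ = (p t).right
      rw [hp']
      simp
  ext x
  constructor
  · rintro ⟨y, hy, rfl⟩
    have h3 : y = ⟨1, y.right⟩ := by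
      ext1
      · exact mem_dgP_bot.mp hy
      · rfl
    rw [h3]
    have h4 := key y.right
    change _ * _ * _ ∈ P
    rw [h4]
    exact hp _
  · intro hx
    refine ⟨⟨1, x.right⟩, mem_dgP_bot.mpr rfl, ?_⟩
    have h4 := key x.right
    change _ * _ * _ = x
    rw [h4]
    exact hinj _ (hp _) _ hx (hp' _)

variable [Fintype G] [Fintype Q] [DecidableEq Q]

theorem card_conj_P {P : Subgroup (G ≀ᵣ Q)} {m : Q → G}
    (hm : (dgP Q (⊥ : Subgroup G)).map (MulAut.conj (bse m : G ≀ᵣ Q)).toMonoidHom = P)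
    [DecidablePred fun n : Q → G =>
      (dgP Q (⊥ : Subgroup G)).map (MulAut.conj (bse n : G ≀ᵣ Q)).toMonoidHom = P] :
    (Finset.univ.filter (fun n : Q → G =>
      (dgP Q (⊥ : Subgroup G)).map (MulAut.conj (bse n : G ≀ᵣ Q)).toMonoidHom = P)).card =
      Nat.card G := by
  have hmap : ∀ a b : G ≀ᵣ Q, (dgP Q (⊥ : Subgroup G)).map (MulAut.conj (a * b)).toMonoidHom =
      ((dgP Q (⊥ : Subgroup G)).map (MulAut.conj b).toMonoidHom).map
        (MulAut.conj a).toMonoidHom := by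
    intro a b
    rw [Subgroup.map_map, map_mul]
    rfl
  rw [Nat.card_eq_fintype_card, ← Finset.card_univ]
  symm
  apply Finset.card_bij (fun (c : G) _ => m * (fun _ => c))
  · intro c _
    rw [Finset.mem_filter]
    refine ⟨Finset.mem_univ _, ?_⟩
    rw [map_mul (bse : (Q → G) →* (G ≀ᵣ Q)), hmap, conj_dgP (c := c) rfl, Subgroup.map_bot, hm]
  · intro c _ c' _ h
    exact congrFun (mul_left_cancel h) 1
  · intro n hn
    have h2 := (Finset.mem_filter.mp hn).2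
    have h3 : (dgP Q (⊥ : Subgroup G)).map (MulAut.conj (bse (m⁻¹ * n) : G ≀ᵣ Q)).toMonoidHom =
        dgP Q (⊥ : Subgroup G) := by
      rw [map_mul (bse : (Q → G) →* (G ≀ᵣ Q)), hmap, h2, ← hm, ← hmap,
        map_inv (bse : (Q → G) →* (G ≀ᵣ Q)), inv_mul_cancel]
      have : (MulAut.conj (1 : G ≀ᵣ Q)).toMonoidHom = MonoidHom.id _ := by
        refine MonoidHom.ext fun x => ?_
        simp
      rw [this, Subgroup.map_id]
    have h4 : (bse (m⁻¹ * n) : G ≀ᵣ Q) ∈ dgP Q (⊤ : Subgroup G) := by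
      rw [← mem_normalizer_dgP_bot, Subgroup.mem_normalizer_iff_map_conj_eq]
      exact h3
    obtain ⟨c, _, hc⟩ := h4
    refine ⟨c, Finset.mem_univ _, ?_⟩
    rw [← hc]
    change m * (m⁻¹ * n) = n
    rw [mul_inv_cancel_left]

open Classical in
/-- The chain of the wreath product attached to a chain of `G`. -/
noncomputable def upC (Q : Type*) [CommGroup Q] (ρ : Finset (Subgroup G)) :
    Finset (Subgroup (G ≀ᵣ Q)) := (insert ⊥ ρ).image (dgP Q)

theorem mem_upC {ρ : Finset (Subgroup G)} {E : Subgroup (G ≀ᵣ Q)} :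
    E ∈ upC Q ρ ↔ ∃ D, (D = ⊥ ∨ D ∈ ρ) ∧ dgP Q D = E := by
  classical
  rw [upC, Finset.mem_image]
  simp only [Finset.mem_insert]

theorem card_upC {ℓ : ℕ} {ρ : Finset (Subgroup G)} (hρ : IsCh ℓ ⊥ ρ) :
    (upC Q ρ).card = ρ.card + 1 := by
  classical
  rw [upC, Finset.card_image_of_injective _ dgP_injective, Finset.card_insert_of_notMem]
  intro h
  exact lt_irrefl _ (hρ.1 ⊥ h).2

theorem inf_upC (ρ : Finset (Subgroup G)) : (upC Q ρ).inf id = dgP Q ⊥ := by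
  apply le_antisymm
  · exact Finset.inf_le (f := id) (mem_upC.mpr ⟨⊥, Or.inl rfl, rfl⟩)
  · rw [Finset.le_inf_iff]
    intro E hE
    obtain ⟨D, _, rfl⟩ := mem_upC.mp hE
    exact dgP_le.mpr bot_le

theorem stb_upC {ρ : Finset (Subgroup G)} : stb (upC Q ρ) = dgP Q (stb ρ) := by
  ext g
  rw [mem_stb]
  constructor
  · intro h
    have h1 := h _ (mem_upC.mpr ⟨⊥, Or.inl rfl, rfl⟩)
    have h2 : g ∈ dgP Q (⊤ : Subgroup G) := by
      rw [← mem_normalizer_dgP_bot, Subgroup.mem_normalizer_iff_map_conj_eq]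
      exact h1
    obtain ⟨c, _, hc⟩ := h2
    refine ⟨c, ?_, hc⟩
    rw [mem_stb]
    intro D hD
    have h3 := h _ (mem_upC.mpr ⟨D, Or.inr hD, rfl⟩)
    rw [conj_dgP hc] at h3
    exact dgP_injective h3
  · rintro ⟨c, hc, hc'⟩ E hE
    obtain ⟨D, hD, rfl⟩ := mem_upC.mp hE
    rw [conj_dgP hc']
    rcases hD with rfl | hD
    · rw [Subgroup.map_bot]
    · rw [mem_stb.mp hc D hD]

theorem dgP_bot_inf : dgP Q (⊥ : Subgroup G) ⊓ (bse : (Q → G) →* (G ≀ᵣ Q)).range = ⊥ := by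
  rw [eq_bot_iff]
  rintro g ⟨h1, h2⟩
  rw [Subgroup.mem_bot]
  ext1
  · exact mem_dgP_bot.mp h1
  · exact mem_range_bse.mp h2

theorem upC_mem {ℓ : ℕ} [hℓf : Fact ℓ.Prime] (hQ : Nat.card Q = ℓ) {ρ : Finset (Subgroup G)}
    (hρ : IsCh ℓ ⊥ ρ) : upC Q ρ ∈ OCh ℓ (bse : (Q → G) →* (G ≀ᵣ Q)).range := by
  rw [mem_OCh, inf_upC]
  have hnt : ∃ t : Q, t ≠ 1 := by
    by_contra hcon
    push Not at hcon
    have h1 : Nat.card Q = 1 := by
      rw [Nat.card_eq_one_iff_unique]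
      exact ⟨⟨fun a b => by rw [hcon a, hcon b]⟩, ⟨1⟩⟩
    rw [hQ] at h1
    exact hℓf.out.one_lt.ne' h1
  obtain ⟨t, ht⟩ := hnt
  have hnle : ¬ dgP Q (⊥ : Subgroup G) ≤ (bse : (Q → G) →* (G ≀ᵣ Q)).range := by
    intro h
    have h1 : (⟨1, t⟩ : G ≀ᵣ Q) ∈ (bse : (Q → G) →* (G ≀ᵣ Q)).range :=
      h (mem_dgP_bot.mpr rfl)
    exact ht (mem_range_bse.mp h1)
  have hbot : (⊥ : Subgroup (G ≀ᵣ Q)) < dgP Q (⊥ : Subgroup G) := by
    rw [bot_lt_iff_ne_bot]
    intro h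
    apply hnle
    rw [h]
    exact bot_le
  refine ⟨⟨?_, ?_⟩, ⟨_, mem_upC.mpr ⟨⊥, Or.inl rfl, rfl⟩⟩, hnle, dgP_bot_inf, ?_⟩
  · intro E hE
    obtain ⟨D, hD, rfl⟩ := mem_upC.mp hE
    refine ⟨(isPGroup_dgP hQ).mpr ?_, lt_of_lt_of_le hbot (dgP_le.mpr bot_le)⟩
    rcases hD with rfl | hD
    · exact IsPGroup.of_bot
    · exact (hρ.1 D hD).1
  · intro E hE F hF _
    obtain ⟨D, hD, rfl⟩ := mem_upC.mp (Finset.mem_coe.mp hE)
    obtain ⟨D', hD', rfl⟩ := mem_upC.mp (Finset.mem_coe.mp hF)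
    rcases hD with rfl | hD
    · exact Or.inl (dgP_le.mpr bot_le)
    · rcases hD' with rfl | hD'
      · exact Or.inr (dgP_le.mpr bot_le)
      · rcases hρ.total hD hD' with h | h
        · exact Or.inl (dgP_le.mpr h)
        · exact Or.inr (dgP_le.mpr h)
  · intro E hE
    obtain ⟨D, _, rfl⟩ := mem_upC.mp hE
    intro g hg
    rw [mem_normalizer_dgP_bot]
    exact dgP_le.mpr le_top hg

theorem exists_upC {ℓ : ℕ} [hℓf : Fact ℓ.Prime] (hQ : Nat.card Q = ℓ)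
    {σ : Finset (Subgroup (G ≀ᵣ Q))} (hσ : σ ∈ OCh ℓ (bse : (Q → G) →* (G ≀ᵣ Q)).range)
    (hinf : σ.inf id = dgP Q ⊥) : ∃ ρ, IsCh ℓ (⊥ : Subgroup G) ρ ∧ upC Q ρ = σ := by
  classical
  obtain ⟨h1, h2, h3, h4, h5⟩ := mem_OCh.mp hσ
  have hmem : dgP Q (⊥ : Subgroup G) ∈ σ := by
    rw [← hinf]
    exact inf_mem_of_chain (fun D hD E hE => h1.total hD hE) h2
  have hle : ∀ E ∈ σ, dgP Q (⊥ : Subgroup G) ≤ E := by
    intro E hE
    rw [← hinf]
    exact Finset.inf_le (f := id) hE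
  let em : G →* G ≀ᵣ Q :=
    { toFun := fun g => ⟨fun _ => g, 1⟩
      map_one' := rfl
      map_mul' := by
        intro a b
        ext1
        · rfl
        · simp }
  have hunder : ∀ E ∈ σ, dgP Q (E.comap em) = E := by
    intro E hE
    have hEn := h5 E hE
    rw [hinf] at hEn
    ext x
    constructor
    · rintro ⟨d, hd, hd'⟩
      have h6 : x = em d * ⟨1, x.right⟩ := by
        ext1
        · rw [hd']
          ext i
          simp [em]
        · simp [em]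
      rw [h6]
      exact E.mul_mem hd (hle E hE (mem_dgP_bot.mpr rfl))
    · intro hx
      have h6 := hEn hx
      rw [mem_normalizer_dgP_bot] at h6
      obtain ⟨c, _, hc⟩ := h6
      refine ⟨c, ?_, hc⟩
      rw [Subgroup.mem_comap]
      have h7 : em c = x * (⟨1, x.right⟩ : G ≀ᵣ Q)⁻¹ := by
        ext1
        · rw [RegularWreathProduct.mul_left, hc]
          ext i
          simp [em]
        · simp [em]
      rw [h7]
      exact E.mul_mem hx (E.inv_mem (hle E hE (mem_dgP_bot.mpr rfl)))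
  refine ⟨(σ.image (Subgroup.comap em)).erase ⊥, ⟨?_, ?_⟩, ?_⟩
  · intro D hD
    rw [Finset.mem_erase, Finset.mem_image] at hD
    obtain ⟨h6, E, hE, rfl⟩ := hD
    refine ⟨?_, bot_lt_iff_ne_bot.mpr h6⟩
    rw [← isPGroup_dgP (Q := Q) hQ, hunder E hE]
    exact (h1.1 E hE).1
  · intro D hD D' hD' _
    rw [Finset.mem_coe, Finset.mem_erase, Finset.mem_image] at hD hD'
    obtain ⟨_, E, hE, rfl⟩ := hD
    obtain ⟨_, E', hE', rfl⟩ := hD'
    rcases h1.total hE hE' with h | h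
    · exact Or.inl (Subgroup.comap_mono h)
    · exact Or.inr (Subgroup.comap_mono h)
  · ext E
    rw [mem_upC]
    constructor
    · rintro ⟨D, hD, rfl⟩
      rcases hD with rfl | hD
      · exact hmem
      · rw [Finset.mem_erase, Finset.mem_image] at hD
        obtain ⟨_, E, hE, rfl⟩ := hD
        rw [hunder E hE]
        exact hE
    · intro hE
      refine ⟨E.comap em, ?_, hunder E hE⟩
      by_cases h6 : E.comap em = ⊥
      · exact Or.inl h6
      · right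
        rw [Finset.mem_erase, Finset.mem_image]
        exact ⟨h6, E, hE, rfl⟩

theorem inf_mapCh_conj {X : Type*} [Group X] (g : X) (σ : Finset (Subgroup X)) :
    (mapCh (MulAut.conj g).toMonoidHom σ).inf id =
      (σ.inf id).map (MulAut.conj g).toMonoidHom := by
  classical
  rw [mapCh, Finset.inf_image]
  induction σ using Finset.induction_on with
  | empty =>
    rw [Finset.inf_empty, Finset.inf_empty]
    exact (Subgroup.map_top_of_surjective _ (MulAut.conj g).surjective).symm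
  | insert a s _ ih =>
    rw [Finset.inf_insert, Finset.inf_insert, map_conj_inf, ih]
    rfl

theorem mapCh_conj_OCh {X : Type*} [Group X] [Fintype X] {ℓ : ℕ} {M : Subgroup X} [M.Normal]
    {σ : Finset (Subgroup X)} (hσ : σ ∈ OCh ℓ M) (g : X) :
    mapCh (MulAut.conj g).toMonoidHom σ ∈ OCh ℓ M := by
  obtain ⟨h1, h2, h3, h4, h5⟩ := mem_OCh.mp hσ
  have hM : M.map (MulAut.conj g).toMonoidHom = M := by
    have := Subgroup.mem_normalizer_iff_map_conj_eq.mp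
      (show g ∈ Subgroup.normalizer (M : Set X) by
        rw [Subgroup.normalizer_eq_top_iff.mpr inferInstance]
        trivial)
    exact this
  rw [mem_OCh, inf_mapCh_conj]
  refine ⟨?_, ?_, ?_, ?_, ?_⟩
  · have h6 := (isCh_mapCh_iff (i := (MulAut.conj g).toMonoidHom) (MulAut.conj g).injective
      (ℓ := ℓ) (Z := ⊥) (τ := σ)).mpr h1
    rwa [Subgroup.map_bot] at h6
  · obtain ⟨D, hD⟩ := h2
    exact ⟨_, mem_mapCh.mpr ⟨D, hD, rfl⟩⟩
  · intro h6
    apply h3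
    rw [← hM] at h6
    exact (Subgroup.map_le_map_iff_of_injective (MulAut.conj g).injective).mp h6
  · conv_lhs => rw [← hM]
    rw [← map_conj_inf, h4, Subgroup.map_bot]
  · intro E hE
    obtain ⟨D, hD, rfl⟩ := mem_mapCh.mp hE
    have h6 := Subgroup.map_mono (f := (MulAut.conj g).toMonoidHom) (h5 D hD)
    refine h6.trans ?_
    intro x hx
    obtain ⟨y, hy, rfl⟩ := hx
    rw [SetLike.mem_coe, Subgroup.mem_normalizer_iff_map_conj_eq] at hy
    rw [Subgroup.mem_normalizer_iff_map_conj_eq]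
    change ((σ.inf id).map (MulAut.conj g).toMonoidHom).map
      (MulAut.conj (g * y * g⁻¹)).toMonoidHom = _
    have hy' : (σ.inf id).map (MulAut.conj y).toMonoidHom = σ.inf id := hy
    rw [Subgroup.map_map]
    have h7 : (MulAut.conj (g * y * g⁻¹)).toMonoidHom.comp (MulAut.conj g).toMonoidHom =
        (MulAut.conj g).toMonoidHom.comp (MulAut.conj y).toMonoidHom := by
      refine MonoidHom.ext fun x => ?_
      simp [mul_assoc]
    rw [h7, ← Subgroup.map_map, hy']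

/-- The sum over the chains which leave the base group. -/
theorem sum_OCh {ℓ : ℕ} [hℓf : Fact ℓ.Prime] (hQ : Nat.card Q = ℓ)
    (W : Subgroup (G ≀ᵣ Q) → ℚ)
    (hW : ∀ S g, W (S.map (MulAut.conj g).toMonoidHom) = W S) :
    ∑ σ ∈ OCh ℓ (bse : (Q → G) →* (G ≀ᵣ Q)).range, (-1 : ℚ) ^ σ.card * W (stb σ) =
      -(((Nat.card G : ℚ) ^ ℓ / Nat.card G) * ∑ ρ ∈ Ch ℓ (⊥ : Subgroup G),
        (-1 : ℚ) ^ ρ.card * W (dgP Q (stb ρ))) := by
  classical
  have hnorm : (bse : (Q → G) →* (G ≀ᵣ Q)).range.Normal := by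
    constructor
    rintro _ ⟨x, rfl⟩ g
    rw [conj_bse]
    exact ⟨_, rfl⟩
  have hG0 : (Nat.card G : ℚ) ≠ 0 := by exact_mod_cast Nat.card_pos.ne'
  set O := OCh ℓ (bse : (Q → G) →* (G ≀ᵣ Q)).range with hO
  have ha : ∀ σ ∈ O, (-1 : ℚ) ^ σ.card * W (stb σ) = ∑ n : Q → G,
      if (dgP Q (⊥ : Subgroup G)).map (MulAut.conj (bse n : G ≀ᵣ Q)).toMonoidHom = σ.inf id then
        (-1 : ℚ) ^ σ.card * W (stb σ) / Nat.card G else 0 := by
    intro σ hσ
    obtain ⟨h1, h2, h3, h4, h5⟩ := mem_OCh.mp hσ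
    obtain ⟨m, hm⟩ := exists_conj_P hQ h3 h4
    rw [← Finset.sum_filter, Finset.sum_const, nsmul_eq_mul, card_conj_P hm,
      mul_div_cancel₀ _ hG0]
  have hc : ∀ n : Q → G, ∑ σ ∈ O,
      (if (dgP Q (⊥ : Subgroup G)).map (MulAut.conj (bse n : G ≀ᵣ Q)).toMonoidHom = σ.inf id then
        (-1 : ℚ) ^ σ.card * W (stb σ) / Nat.card G else 0) =
      ∑ ρ ∈ Ch ℓ (⊥ : Subgroup G), -((-1 : ℚ) ^ ρ.card * W (dgP Q (stb ρ)) / Nat.card G) := by
    intro n
    rw [← Finset.sum_filter]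
    symm
    refine Finset.sum_bij
      (fun ρ _ => mapCh (MulAut.conj (bse n : G ≀ᵣ Q)).toMonoidHom (upC Q ρ)) ?_ ?_ ?_ ?_
    · intro ρ hρ
      rw [Finset.mem_filter]
      refine ⟨mapCh_conj_OCh (upC_mem hQ (mem_Ch.mp hρ)) _, ?_⟩
      rw [inf_mapCh_conj, inf_upC]
    · intro ρ hρ ρ' hρ' h
      have h1 := mapCh_injective (MulAut.conj (bse n : G ≀ᵣ Q)).injective h
      rw [upC, upC] at h1
      have h2 := Finset.image_injective dgP_injective h1
      have h3 : ⊥ ∉ ρ := fun h => lt_irrefl _ ((mem_Ch.mp hρ).1 ⊥ h).2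
      have h4 : ⊥ ∉ ρ' := fun h => lt_irrefl _ ((mem_Ch.mp hρ').1 ⊥ h).2
      rw [← Finset.erase_insert h3, h2, Finset.erase_insert h4]
    · intro σ hσ
      rw [Finset.mem_filter] at hσ
      obtain ⟨h1, h2⟩ := hσ
      have h3 := mapCh_conj_OCh h1 (bse n : G ≀ᵣ Q)⁻¹
      have h4 : (mapCh (MulAut.conj (bse n : G ≀ᵣ Q)⁻¹).toMonoidHom σ).inf id = dgP Q ⊥ := by
        rw [inf_mapCh_conj, ← h2, Subgroup.map_map]
        have : (MulAut.conj (bse n : G ≀ᵣ Q)⁻¹).toMonoidHom.comp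
            (MulAut.conj (bse n : G ≀ᵣ Q)).toMonoidHom = MonoidHom.id _ := by
          refine MonoidHom.ext fun x => ?_
          change (bse n : G ≀ᵣ Q)⁻¹ * (bse n * x * (bse n : G ≀ᵣ Q)⁻¹) *
            ((bse n : G ≀ᵣ Q)⁻¹)⁻¹ = x
          group
        rw [this, Subgroup.map_id]
      obtain ⟨ρ, hρ, hρ'⟩ := exists_upC hQ h3 h4
      refine ⟨ρ, mem_Ch.mpr hρ, ?_⟩
      rw [hρ', mapCh_conj_mul, mul_inv_cancel, mapCh_conj_one]
    · intro ρ hρ
      rw [card_mapCh (i := (MulAut.conj (bse n : G ≀ᵣ Q)).toMonoidHom)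
        (MulAut.conj (bse n : G ≀ᵣ Q)).injective, card_upC (mem_Ch.mp hρ), stb_mapCh_equiv, hW,
        stb_upC, pow_succ]
      ring
  rw [Finset.sum_congr rfl ha, Finset.sum_comm]
  simp only [hc]
  rw [Finset.sum_const, Finset.card_univ, ← Nat.card_eq_fintype_card, Nat.card_fun, hQ,
    nsmul_eq_mul, Finset.sum_neg_distrib, ← Finset.sum_div]
  push_cast
  field_simp

end DgP

end Pool.Agent.Lib_helper13


end

section

set_option linter.unusedSectionVars false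

/-! The characters of the stabilizers of the chains which leave the base group of a wreath
product. -/

namespace Pool.Agent.Lib_helper13

open Representation

section DgCount

variable {G Q : Type*} [Group G] [Fintype G] [CommGroup Q] [Fintype Q] [DecidableEq Q]
variable (𝔐 : Ideal (integralClosure ℤ ℂ))

/-- The diagonal embedding. -/
def dj (Q : Type*) [CommGroup Q] (H : Subgroup G) : H →* dgP Q H where
  toFun h := ⟨⟨fun _ => h, 1⟩, ⟨h, h.2, rfl⟩⟩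
  map_one' := rfl
  map_mul' x y := by
    apply Subtype.ext
    ext1
    · ext i
      simp
    · simp

/-- The projection. -/
def dπ (Q : Type*) [CommGroup Q] (H : Subgroup G) : dgP Q H →* Q :=
  (RegularWreathProduct.rightHom : G ≀ᵣ Q →* Q).comp (dgP Q H).subtype

theorem dj_injective (H : Subgroup G) : Function.Injective (dj Q H) := by
  intro x y h
  apply Subtype.ext
  exact congrArg (fun z : dgP Q H => z.1.left 1) h

theorem dπ_eq_one (H : Subgroup G) (y : dgP Q H) : dπ Q H y = 1 ↔ y ∈ (dj Q H).range := by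
  constructor
  · intro h
    obtain ⟨d, hd, hd'⟩ := y.2
    refine ⟨⟨d, hd⟩, ?_⟩
    apply Subtype.ext
    ext1
    · exact hd'.symm
    · exact h.symm
  · rintro ⟨k, rfl⟩
    rfl

theorem exists_cliff_dg (H : Subgroup G) {q : ℕ} [hqf : Fact q.Prime] (hq : Nat.card Q = q) :
    ∃ c : dgP Q H →* MulAut H, Cliff (dj Q H) (dπ Q H) c q := by
  have hn : (dj Q H).range.Normal := by
    have h1 : (dj Q H).range = (dπ Q H).ker := by
      ext y
      rw [MonoidHom.mem_ker, dπ_eq_one]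
    rw [h1]
    infer_instance
  obtain ⟨c, hc⟩ := exists_conjAct (dj Q H) (dj_injective H) hn
  refine ⟨c, hqf.out, dj_injective H, ?_, dπ_eq_one H, hc, hq⟩
  intro t
  exact ⟨⟨⟨fun _ => 1, t⟩, ⟨1, H.one_mem, rfl⟩⟩, rfl⟩

theorem dg_inv {H : Subgroup G} {q : ℕ} {c : dgP Q H →* MulAut H}
    (hc : Cliff (dj Q H) (dπ Q H) c q) {θ : H → ℂ} (hθ : IsIrr θ) : Inv c θ := by
  intro y
  obtain ⟨d, hd, hd'⟩ := y.2
  ext k
  rw [cfn]
  have h1 : c y k = ⟨d, hd⟩ * k * (⟨d, hd⟩ : H)⁻¹ := by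
    apply Subtype.ext
    have h2 := congrArg (fun z : dgP Q H => z.1.left 1) (hc.act y k)
    have h3 : ((c y k : H) : G) = (dj Q H (c y k)).1.left 1 := rfl
    rw [h3, h2]
    simp [dj, hd']
  rw [h1, hθ.conj_eq]

theorem isConj_bse_const {h : G} {u : Q → G} :
    IsConj (bse (fun _ => h) : G ≀ᵣ Q) (bse u) ↔ ∀ j, IsConj h (u j) := by
  rw [isConj_bse]
  constructor
  · rintro ⟨t, ht⟩ j
    have := isConj_pi_iff.mp ht (t * j)
    rw [shf, inv_mul_cancel_left] at this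
    exact this
  · intro h1
    refine ⟨1, ?_⟩
    rw [shf_one, isConj_pi_iff]
    exact h1

theorem shInv_iff {u : Q → G} : ShInv u ↔ ∀ j, IsConj (u 1) (u j) := by
  constructor
  · intro h j
    have h1 := isConj_pi_iff.mp (h j) j
    rw [shf, inv_mul_cancel] at h1
    exact h1
  · intro h t
    rw [isConj_pi_iff]
    intro j
    exact (h _).symm.trans (h j)

theorem dg_blk [h𝔐 : 𝔐.IsPrime] {ℓ : ℕ} [Fact ℓ.Prime]
    (hℓ : (ℓ : integralClosure ℤ ℂ) ∈ 𝔐) (hq : Nat.card Q = ℓ)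
    (ω : G → (integralClosure ℤ ℂ) ⧸ 𝔐) (hcl : ∀ g g', IsConj g g' → ω g = ω g')
    {H : Subgroup G} {θ : H → ℂ} :
    (∀ u : Q → G, red 𝔐 (wt θ (fun k => conjInd ((dj Q H k : dgP Q H) : G ≀ᵣ Q) (bse u))) =
      Wf 𝔐 Q ω u) ↔ ∀ g, cen 𝔐 H.subtype θ g = ω g ^ ℓ := by
  classical
  have hcardQ : (Finset.univ : Finset Q).card = ℓ := by
    rw [Finset.card_univ, ← Nat.card_eq_fintype_card, hq]
  have hconj : ∀ (k : H) (u : Q → G), IsConj ((dj Q H k : dgP Q H) : G ≀ᵣ Q) (bse u) ↔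
      ∀ j, IsConj (k : G) (u j) := fun k u => isConj_bse_const
  constructor
  · intro h g
    have h1 := h (fun _ => g)
    have h2 : ShInv (fun _ : Q => g) := shInv_iff.mpr fun _ => IsConj.refl _
    rw [Wf, if_pos h2, Finset.prod_const, hcardQ] at h1
    rw [← h1, cen]
    congr 2
    ext k
    apply conjInd_congr
    rw [hconj]
    exact ⟨fun h3 _ => h3, fun h3 => h3 1⟩
  · intro h u
    by_cases h2 : ShInv u
    · have h3 := shInv_iff.mp h2
      rw [Wf, if_pos h2, Finset.prod_congr rfl fun j _ => (hcl _ _ (h3 j)).symm,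
        Finset.prod_const, hcardQ, ← h, cen]
      congr 2
      ext k
      apply conjInd_congr
      rw [hconj]
      exact ⟨fun h4 => h4 1, fun h4 j => h4.trans (h3 j)⟩
    · have hc0 : ((Nat.card Q : ℕ) : (integralClosure ℤ ℂ) ⧸ 𝔐) = 0 := by
        have := quot_char 𝔐 hℓ
        rw [hq]
        exact CharP.cast_eq_zero _ _
      rw [Wf, if_neg h2, hc0, zero_mul]
      have h3 : (fun k : H => conjInd ((dj Q H k : dgP Q H) : G ≀ᵣ Q) (bse u)) = fun _ => 0 := by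
        ext k
        rw [conjInd, if_neg]
        intro h4
        apply h2
        rw [hconj] at h4
        rw [shInv_iff]
        intro j
        exact (h4 1).symm.trans (h4 j)
      rw [h3, wt]
      simp only [zero_mul, Finset.sum_const_zero, zero_div]
      exact red_zero 𝔐

/-- Counts of defect `d - 1` over the Frobenius twist. -/
noncomputable def cF (ℓ d : ℕ) (H : Subgroup G) (ω : G → (integralClosure ℤ ℂ) ⧸ 𝔐) : ℕ :=
  if d = 0 then 0 else cnt 𝔐 ℓ (d - 1) H.subtype (fun g => ω g ^ ℓ)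

theorem cN_dgP [h𝔐 : 𝔐.IsPrime] {ℓ : ℕ} [hℓf : Fact ℓ.Prime]
    (hℓ : (ℓ : integralClosure ℤ ℂ) ∈ 𝔐) (hq : Nat.card Q = ℓ) (d : ℕ)
    (ω : G → (integralClosure ℤ ℂ) ⧸ 𝔐) (hcl : ∀ g g', IsConj g g' → ω g = ω g')
    (H : Subgroup G) : cN 𝔐 ℓ d ω (dgP Q H) = ℓ * cF 𝔐 ℓ d H ω := by
  classical
  obtain ⟨c, hc⟩ := exists_cliff_dg (Q := Q) H hq
  have hbl : ∀ ψ θ, IsIrr ψ → IsIrr θ → ip (resj (dj Q H) ψ) θ ≠ 0 →
      ((∀ u : Q → G, red 𝔐 (wt ψ (fun k : dgP Q H => conjInd (k : G ≀ᵣ Q) (bse u))) =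
        Wf 𝔐 Q ω u) ↔ ∀ g, cen 𝔐 H.subtype θ g = ω g ^ ℓ) := by
    intro ψ θ hψ hθ hr
    rw [← dg_blk 𝔐 hℓ hq ω hcl]
    refine forall_congr' fun u => ?_
    rw [hc.wt_eq hθ hψ hr (fun k : dgP Q H => conjInd (k : G ≀ᵣ Q) (bse u))]
    · intro g x
      exact conjInd_conj (g : G ≀ᵣ Q) (x : G ≀ᵣ Q) (bse u)
    · intro y hy
      rw [conjInd, if_neg]
      intro h1
      apply hy
      obtain ⟨a, ha⟩ := isConj_iff.mp h1
      have h2 := congrArg RegularWreathProduct.right ha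
      have h3 : a.right * (y : G ≀ᵣ Q).right * a.right⁻¹ = 1 := h2
      rw [mul_comm a.right, mul_inv_cancel_right] at h3
      exact h3
  have hcount := hc.count
    (fun ψ => HasDefect ℓ ψ d ∧
      ∀ u : Q → G, red 𝔐 (wt ψ (fun k : dgP Q H => conjInd (k : G ≀ᵣ Q) (bse u))) =
        Wf 𝔐 Q ω u)
    (fun θ => (∃ e, HasDefect ℓ θ e ∧ e + padicValNat ℓ ℓ = d) ∧
      ∀ g, cen 𝔐 H.subtype θ g = ω g ^ ℓ)
    (fun θ => HasDefect ℓ θ d ∧ ∀ g, cen 𝔐 H.subtype θ g = ω g ^ ℓ)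
    (by
      intro ψ θ hψ hθ hinv hr
      rw [hc.hasDefect_inv hθ hinv hψ hr, hbl ψ θ hψ hθ hr])
    (by
      intro ψ θ hψ hθ hinv hr
      rw [hc.hasDefect_moved hθ hinv hψ hr, hbl ψ θ hψ hθ hr])
  have h1 : cN 𝔐 ℓ d ω (dgP Q H) = ((irrF (dgP Q H)).filter (fun ψ => HasDefect ℓ ψ d ∧
      ∀ u : Q → G, red 𝔐 (wt ψ (fun k : dgP Q H => conjInd (k : G ≀ᵣ Q) (bse u))) =
        Wf 𝔐 Q ω u)).card := natCard_irr_eq _
  have h2 : ((irrF H).filter (fun θ => ¬ Inv c θ ∧ HasDefect ℓ θ d ∧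
      ∀ g, cen 𝔐 H.subtype θ g = ω g ^ ℓ)).card = 0 := by
    rw [Finset.card_eq_zero, Finset.filter_eq_empty_iff]
    rintro θ hθ ⟨h3, _⟩
    exact h3 (dg_inv hc (mem_irrF.mp hθ))
  have h3 : ((irrF H).filter (fun θ => Inv c θ ∧
      (∃ e, HasDefect ℓ θ e ∧ e + padicValNat ℓ ℓ = d) ∧
      ∀ g, cen 𝔐 H.subtype θ g = ω g ^ ℓ)).card = cF 𝔐 ℓ d H ω := by
    rw [cF, padicValNat_self]
    split_ifs with hd
    · rw [Finset.card_eq_zero, Finset.filter_eq_empty_iff]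
      rintro θ _ ⟨_, ⟨e, _, he⟩, _⟩
      omega
    · rw [cnt, natCard_irr_eq]
      congr 1
      ext θ
      simp only [Finset.mem_filter, mem_irrF]
      constructor
      · rintro ⟨h4, h5, ⟨e, h6, h7⟩, h8⟩
        refine ⟨h4, ?_, h8⟩
        have : d - 1 = e := by omega
        rw [this]
        exact h6
      · rintro ⟨h4, h5, h6⟩
        exact ⟨h4, dg_inv hc h4, ⟨d - 1, h5, by omega⟩, h6⟩
  rw [h2, h3, zero_add] at hcount
  rw [h1]
  exact Nat.eq_of_mul_eq_mul_left hℓf.out.pos hcount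

end DgCount

end Pool.Agent.Lib_helper13


end
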