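import Mathlib
import Pool.Agent.DAM.C02
import Pool.Agent.DAM.C05

/-! Parts: Lib_helper13.Extend, DPB.Defs -/

section

set_option linter.unusedSectionVars false

/-! Multiplicative central functions are central functions of characters of the whole group. -/

namespace Pool.Agent.Lib_helper13

open Representation

section Ext

variable {H : Type*} [Group H] [Fintype H]

/-- Convolution of complex functions. -/
noncomputable def cv (f f' : H → ℂ) (x : H) : ℂ := ∑ y, f y * f' (y⁻¹ * x)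

open Classical in
/-- Class indicators. -/
noncomputable def iz (C : ConjClasses H) (x : H) : ℤ := if ConjClasses.mk x = C then 1 else 0

theorem mk_conj (g x : H) : ConjClasses.mk (g * x * g⁻¹) = ConjClasses.mk x := by
  rw [ConjClasses.mk_eq_mk_iff_isConj]
  exact isConj_iff.mpr ⟨g⁻¹, by group⟩

theorem iz_conj (C : ConjClasses H) (g x : H) : iz C (g * x * g⁻¹) = iz C x := by
  rw [iz, iz, mk_conj]

theorem iz_supp (C : ConjClasses H) : SuppClass (⊤ : Subgroup H) (iz C) :=
  ⟨fun _ hx => absurd trivial hx, fun g _ x => iz_conj C g x⟩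

theorem cv_conj {f f' : H → ℂ} (hf : ∀ g x, f (g * x * g⁻¹) = f x)
    (hf' : ∀ g x, f' (g * x * g⁻¹) = f' x) (g x : H) : cv f f' (g * x * g⁻¹) = cv f f' x := by
  rw [cv, cv]
  symm
  refine Fintype.sum_equiv (MulAut.conj g).toEquiv _ _ fun y => ?_
  have h1 : (MulAut.conj g).toEquiv y = g * y * g⁻¹ := rfl
  rw [h1, hf]
  congr 1
  have h2 : (g * y * g⁻¹)⁻¹ * (g * x * g⁻¹) = g * (y⁻¹ * x) * g⁻¹ := by group
  rw [h2, hf']

theorem isIntegral_cv {f f' : H → ℂ} (hf : ∀ x, IsIntegral ℤ (f x))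
    (hf' : ∀ x, IsIntegral ℤ (f' x)) (x : H) : IsIntegral ℤ (cv f f' x) :=
  isIntegral_sum _ _ fun _ _ => (hf _).mul (hf' _)

theorem isIntegral_intCast (n : ℤ) : IsIntegral ℤ (n : ℂ) :=
  isIntegral_algebraMap (R := ℤ) (A := ℂ) (x := n)

theorem expand_iz [Fintype (ConjClasses H)] {f : H → ℂ} {F : ConjClasses H → ℂ}
    (hF : ∀ x, F (ConjClasses.mk x) = f x) (x : H) : f x = ∑ C, F C * (iz C x : ℂ) := by
  classical
  rw [Finset.sum_eq_single (ConjClasses.mk x)]
  · rw [hF, iz, if_pos rfl]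
    simp
  · intro C _ hC
    rw [iz, if_neg (Ne.symm hC)]
    simp
  · simp

variable (𝔐 : Ideal (integralClosure ℤ ℂ))
variable {S : Subgroup H} [Fintype S]

theorem isIntegral_wt_iz {ψ : S → ℂ} (hψ : IsIrr ψ) (C : ConjClasses H) :
    IsIntegral ℤ (wt ψ (fun s => ((iz C (s : H) : ℤ) : ℂ))) :=
  isIntegral_wt_int hψ _ fun g _ x => iz_conj C g x

theorem red_wt_expand [Fintype (ConjClasses H)] {ψ : S → ℂ} (hψ : IsIrr ψ) {f : H → ℂ}
    {F : ConjClasses H → ℂ} (hF : ∀ x, F (ConjClasses.mk x) = f x)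
    (hi : ∀ C, IsIntegral ℤ (F C)) :
    red 𝔐 (wt ψ (fun s => f s)) = ∑ C, red 𝔐 (F C) * Lam 𝔐 ψ (iz C) := by
  have h1 : (fun s : S => f s) = fun s : S => ∑ C, F C * ((iz C (s : H) : ℤ) : ℂ) := by
    ext s
    exact expand_iz hF s
  rw [h1, wt_sum, red_sum]
  · refine Finset.sum_congr rfl fun C _ => ?_
    rw [wt_smul, red_mul 𝔐 (hi C) (isIntegral_wt_iz hψ C)]
    rfl
  · intro C _
    rw [wt_smul]
    exact (hi C).mul (isIntegral_wt_iz hψ C)

/-- Multiplicativity on integral complex class functions. -/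
theorem red_wt_cv {ψ : S → ℂ} (hψ : IsIrr ψ) (hm : MultOn 𝔐 ψ ⊤) {f f' : H → ℂ}
    (hf : ∀ g x, f (g * x * g⁻¹) = f x) (hf' : ∀ g x, f' (g * x * g⁻¹) = f' x)
    (hi : ∀ x, IsIntegral ℤ (f x)) (hi' : ∀ x, IsIntegral ℤ (f' x)) :
    red 𝔐 (wt ψ (fun s => cv f f' s)) =
      red 𝔐 (wt ψ (fun s => f s)) * red 𝔐 (wt ψ (fun s => f' s)) := by
  classical
  have hft : Fintype (ConjClasses H) := Fintype.ofFinite _
  obtain ⟨F, hF⟩ := exists_lift_class f hf
  obtain ⟨F', hF'⟩ := exists_lift_class f' hf'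
  have hFi : ∀ C, IsIntegral ℤ (F C) := by
    intro C
    obtain ⟨x, rfl⟩ := C.exists_rep
    have := hi x
    rwa [← hF] at this
  have hFi' : ∀ C, IsIntegral ℤ (F' C) := by
    intro C
    obtain ⟨x, rfl⟩ := C.exists_rep
    have := hi' x
    rwa [← hF'] at this
  have hcv : ∀ x, cv f f' x =
      ∑ C : ConjClasses H, ∑ D : ConjClasses H, F C * F' D * ((conv (iz C) (iz D) x : ℤ) : ℂ) := by
    intro x
    rw [cv]
    have h1 : ∀ y : H, f y * f' (y⁻¹ * x) = ∑ C : ConjClasses H, ∑ D : ConjClasses H,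
        F C * F' D * ((iz C y : ℂ) * (iz D (y⁻¹ * x) : ℂ)) := by
      intro y
      rw [expand_iz hF y, expand_iz hF' (y⁻¹ * x), Finset.sum_mul_sum]
      refine Finset.sum_congr rfl fun C _ => Finset.sum_congr rfl fun D _ => ?_
      ring
    simp only [h1]
    rw [Finset.sum_comm]
    refine Finset.sum_congr rfl fun C _ => ?_
    rw [Finset.sum_comm]
    refine Finset.sum_congr rfl fun D _ => ?_
    rw [← Finset.mul_sum, conv]
    push_cast
    rfl
  have hcl : ∀ (C D : ConjClasses H), ∀ g ∈ S, ∀ x,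
      conv (iz C) (iz D) (g * x * g⁻¹) = conv (iz C) (iz D) x := by
    intro C D g _ x
    exact (conv_supp (⊤ : Subgroup H) (iz_supp C) (iz_supp D)).2 g trivial x
  have h1 : (fun s : S => cv f f' s) = fun s : S => ∑ C : ConjClasses H, ∑ D : ConjClasses H,
      F C * F' D * ((conv (iz C) (iz D) (s : H) : ℤ) : ℂ) := by
    ext s
    exact hcv s
  rw [h1, wt_sum, red_sum]
  · rw [red_wt_expand 𝔐 hψ hF hFi, red_wt_expand 𝔐 hψ hF' hFi', Finset.sum_mul_sum]
    refine Finset.sum_congr rfl fun C _ => ?_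
    rw [wt_sum, red_sum]
    · refine Finset.sum_congr rfl fun D _ => ?_
      rw [wt_smul, red_mul 𝔐 ((hFi C).mul (hFi' D)) (isIntegral_wt_int hψ _ (hcl C D)),
        red_mul 𝔐 (hFi C) (hFi' D)]
      have h2 := hm (iz C) (iz D) (iz_supp C) (iz_supp D)
      rw [Lam] at h2
      rw [h2]
      ring
    · intro D _
      rw [wt_smul]
      exact ((hFi C).mul (hFi' D)).mul (isIntegral_wt_int hψ _ (hcl C D))
  · intro C _
    rw [wt_sum]
    apply isIntegral_sum
    intro D _
    rw [wt_smul]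
    exact ((hFi C).mul (hFi' D)).mul (isIntegral_wt_int hψ _ (hcl C D))

open Classical in
/-- The unit of convolution. -/
noncomputable def dl (x : H) : ℂ := if x = 1 then 1 else 0

theorem dl_conj (g x : H) : dl (g * x * g⁻¹) = dl x := by
  classical
  rw [dl, dl]
  congr 1
  apply propext
  constructor
  · intro h
    have : x = g⁻¹ * (g * x * g⁻¹) * g := by group
    rw [this, h]
    group
  · rintro rfl
    group

theorem isIntegral_dl (x : H) : IsIntegral ℤ (dl x) := by
  classical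
  rw [dl]
  split_ifs
  · exact isIntegral_one
  · exact isIntegral_zero

theorem wt_dl {ψ : S → ℂ} (hψ : IsIrr ψ) : wt ψ (fun s => dl (s : H)) = 1 := by
  classical
  rw [wt, div_eq_one_iff_eq hψ.one_ne_zero, Finset.sum_eq_single (1 : S)]
  · simp [dl]
  · intro b _ hb
    have : (b : H) ≠ 1 := fun h => hb (Subtype.ext h)
    simp [dl, this]
  · simp

/-- Products of shifted class sums. -/
theorem exists_prod_fn {ι : Type*} (T : Finset ι) (g : ι → H) (a : ι → ℂ)
    (ha : ∀ i, IsIntegral ℤ (a i)) : ∃ w : H → ℂ, (∀ g x, w (g * x * g⁻¹) = w x) ∧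
      (∀ x, IsIntegral ℤ (w x)) ∧ ∀ (𝔐 : Ideal (integralClosure ℤ ℂ)) (S : Subgroup H)
        [Fintype S] (ψ : S → ℂ), IsIrr ψ → MultOn 𝔐 ψ ⊤ →
          red 𝔐 (wt ψ (fun s => w s)) = ∏ i ∈ T, (cen 𝔐 S.subtype ψ (g i) - red 𝔐 (a i)) := by
  classical
  induction T using Finset.induction_on with
  | empty =>
    refine ⟨dl, dl_conj, isIntegral_dl, ?_⟩
    intro 𝔐 S _ ψ hψ _
    rw [wt_dl hψ, red_one, Finset.prod_empty]
  | insert i T hi ih =>
    obtain ⟨w, hw1, hw2, hw3⟩ := ih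
    have hb1 : ∀ h x : H, conjInd (h * x * h⁻¹) (g i) - a i * dl (h * x * h⁻¹) =
        conjInd x (g i) - a i * dl x := by
      intro h x
      rw [conjInd_conj, dl_conj]
    have hb2 : ∀ x : H, IsIntegral ℤ (conjInd x (g i) - a i * dl x) := by
      intro x
      exact (isIntegral_conjInd _ _).sub ((ha i).mul (isIntegral_dl x))
    refine ⟨cv w (fun x => conjInd x (g i) - a i * dl x), cv_conj hw1 hb1,
      isIntegral_cv hw2 hb2, ?_⟩
    intro 𝔐 S _ ψ hψ hm
    rw [red_wt_cv 𝔐 hψ hm hw1 hb1 hw2 hb2, hw3 𝔐 S ψ hψ hm, Finset.prod_insert hi, mul_comm]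
    congr 1
    have h1 : wt ψ (fun s : S => conjInd (s : H) (g i) - a i * dl (s : H)) =
        wt ψ (fun s : S => conjInd (s : H) (g i)) + -(a i) := by
      have h2 : (fun s : S => conjInd (s : H) (g i) - a i * dl (s : H)) =
          (fun s : S => conjInd (s : H) (g i)) + fun s : S => -(a i) * dl (s : H) := by
        ext s
        simp [sub_eq_add_neg]
      rw [h2, wt_add, wt_smul, wt_dl hψ, mul_one]
    have h2 : IsIntegral ℤ (wt ψ (fun s : S => conjInd (s : H) (g i))) :=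
      isIntegral_wt_conj S.subtype hψ (g i)
    rw [h1, red_add 𝔐 h2 (ha i).neg, sub_eq_add_neg]
    refine congrArg₂ _ rfl ?_
    rw [red_of_integral 𝔐 (ha i).neg, red_of_integral 𝔐 (ha i), ← map_neg]
    rfl

/-- Multiplicative central functions come from irreducible characters. -/
theorem exists_irr_of_mult [h𝔐 : 𝔐.IsPrime] {ψ : S → ℂ} (hψ : IsIrr ψ) (hm : MultOn 𝔐 ψ ⊤) :
    ∃ χ : H → ℂ, IsIrr χ ∧ cen 𝔐 (MonoidHom.id H) χ = cen 𝔐 S.subtype ψ := by
  classical
  by_contra hcon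
  push Not at hcon
  have h1 : ∀ χ : H → ℂ, ∃ g : H, IsIrr χ →
      cen 𝔐 (MonoidHom.id H) χ g ≠ cen 𝔐 S.subtype ψ g := by
    intro χ
    by_cases h : IsIrr χ
    · have h2 := hcon χ h
      rw [Ne, funext_iff, not_forall] at h2
      obtain ⟨g, hg⟩ := h2
      exact ⟨g, fun _ => hg⟩
    · exact ⟨1, fun h' => absurd h' h⟩
  choose g hg using h1
  obtain ⟨a, ha⟩ : ∃ a : (H → ℂ) → ℂ, ∀ χ, a χ =
      if IsIrr χ then wt χ (fun x => conjInd x (g χ)) else 0 := ⟨_, fun _ => rfl⟩
  have hai : ∀ χ, IsIntegral ℤ (a χ) := by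
    intro χ
    rw [ha]
    split_ifs with h
    · exact isIntegral_wt_conj (MonoidHom.id H) h (g χ)
    · exact isIntegral_zero
  obtain ⟨w, hw1, hw2, hw3⟩ := exists_prod_fn (irrF H) g a hai
  have hw0 : ∀ χ : H → ℂ, IsIrr χ → ∑ x, w x * χ x = 0 := by
    intro χ hχ
    have hψ' : IsIrr (fun s : (⊤ : Subgroup H) => χ (Subgroup.topEquiv s)) :=
      hχ.comp_mulEquiv Subgroup.topEquiv
    have h2 := hw3 ⊥ ⊤ (fun s : (⊤ : Subgroup H) => χ (Subgroup.topEquiv s)) hψ'
      (multOn_self ⊥ hψ')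
    have h3 : ∏ i ∈ irrF H, (cen ⊥ (⊤ : Subgroup H).subtype
        (fun s : (⊤ : Subgroup H) => χ (Subgroup.topEquiv s)) (g i) - red ⊥ (a i)) = 0 := by
      apply Finset.prod_eq_zero (mem_irrF.mpr hχ)
      rw [sub_eq_zero, ha, if_pos hχ, cen]
      congr 1
      exact wt_comp_equiv (Subgroup.topEquiv (G := H)) χ (fun x => conjInd x (g χ))
    rw [h3] at h2
    have h4 : wt (fun s : (⊤ : Subgroup H) => χ (Subgroup.topEquiv s))
        (fun s => w (s : H)) = wt χ w :=
      wt_comp_equiv (Subgroup.topEquiv (G := H)) χ w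
    rw [h4, ← red_zero (⊥ : Ideal (integralClosure ℤ ℂ)),
      red_eq_iff ⊥ (isIntegral_wt hχ w hw1 hw2) isIntegral_zero] at h2
    obtain ⟨m, hm', hm''⟩ := h2
    rw [Ideal.mem_bot] at hm'
    rw [hm', sub_zero, ZeroMemClass.coe_zero, wt] at hm''
    rcases div_eq_zero_iff.mp hm''.symm with h5 | h5
    · exact h5
    · exact absurd h5 hχ.one_ne_zero
  have hw : w = 0 := by
    have h2 : (fun x => w x⁻¹) = 0 := by
      apply class_fn_eq_zero
      · intro g x
        have : (g * x * g⁻¹)⁻¹ = g * x⁻¹ * g⁻¹ := by group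
        rw [this, hw1]
      · intro χ hχ
        rw [← hw0 χ hχ]
        refine Fintype.sum_equiv (Equiv.inv H) _ _ fun x => ?_
        rfl
    ext x
    have := congrFun h2 x⁻¹
    simpa using this
  have h2 := hw3 𝔐 S ψ hψ hm
  have h3 : red 𝔐 (wt ψ (fun s : S => w s)) = 0 := by
    rw [hw, wt]
    simp only [Pi.zero_apply, zero_mul, Finset.sum_const_zero, zero_div]
    exact red_zero 𝔐
  rw [h3] at h2
  obtain ⟨χ, hχ, h4⟩ := Finset.prod_eq_zero_iff.mp h2.symm
  have hχ' := mem_irrF.mp hχ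
  apply hg χ hχ'
  rw [sub_eq_zero, ha, if_pos hχ'] at h4
  rw [h4]
  rfl

/-- Central functions induced from stabilizers of chains come from irreducible characters. -/
theorem exists_irr_of_chain [h𝔐 : 𝔐.IsPrime] {ℓ : ℕ} [Fact ℓ.Prime]
    (hℓ : (ℓ : integralClosure ℤ ℂ) ∈ 𝔐) {Z : Subgroup H} {τ : Finset (Subgroup H)}
    (hτ : IsCh ℓ Z τ) {ψ : stb τ → ℂ} (hψ : IsIrr ψ) : MultOn 𝔐 ψ ⊤ := by
  apply multOn_chain 𝔐 hℓ hψ ⊤ Z τ.card τ rfl hτ (fun _ _ => le_top)
  · rw [top_inf_eq]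
  · rw [top_inf_eq]
    exact multOn_self 𝔐 hψ

end Ext

end Pool.Agent.Lib_helper13


end

section

/-!
# Groups with Sylow `ℓ`-subgroups of order `ℓ`: definitions
-/

namespace Pool.Agent.DPB

open Representation

section CF

variable (ℓ : ℕ) (F H : Type) [Field F] [Group H]

/-- The class functions with values in `F`. -/
def CF : Submodule F (H → F) where
  carrier := {φ | ∀ g x, φ (g * x * g⁻¹) = φ x}
  zero_mem' := fun _ _ => rfl
  add_mem' := by
    intro φ ψ hφ hψ g x
    rw [Pi.add_apply, Pi.add_apply, hφ, hψ]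
  smul_mem' := by
    intro c φ hφ g x
    rw [Pi.smul_apply, Pi.smul_apply, hφ]

/-- The class functions which depend only on the `ℓ'`-parts. -/
def CFr : Submodule F (H → F) where
  carrier := {φ | (∀ g x, φ (g * x * g⁻¹) = φ x) ∧
    ∀ x u, x * u = u * x → (∃ k : ℕ, u ^ ℓ ^ k = 1) → φ (x * u) = φ x}
  zero_mem' := ⟨fun _ _ => rfl, fun _ _ _ _ => rfl⟩
  add_mem' := by
    rintro φ ψ ⟨hφ, hφ'⟩ ⟨hψ, hψ'⟩
    refine ⟨fun g x => ?_, fun x u h h' => ?_⟩
    · rw [Pi.add_apply, Pi.add_apply, hφ, hψ]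
    · rw [Pi.add_apply, Pi.add_apply, hφ' x u h h', hψ' x u h h']
  smul_mem' := by
    rintro c φ ⟨hφ, hφ'⟩
    refine ⟨fun g x => ?_, fun x u h h' => ?_⟩
    · rw [Pi.smul_apply, Pi.smul_apply, hφ]
    · rw [Pi.smul_apply, Pi.smul_apply, hφ' x u h h']

variable {F H}

/-- The operator of the function `z` on the functions on `H`: `(L_z φ)(g) = Σ_h z(h) φ(hg)`. -/
def Lz [Fintype H] (z : H → F) : Module.End F (H → F) where
  toFun φ := fun g => ∑ h, z h * φ (h * g)
  map_add' φ ψ := by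
    funext g
    simp [mul_add, Finset.sum_add_distrib]
  map_smul' c φ := by
    funext g
    simp only [Pi.smul_apply, smul_eq_mul, RingHom.id_apply, Finset.mul_sum]
    refine Finset.sum_congr rfl fun h _ => ?_
    ring

theorem Lz_apply [Fintype H] (z φ : H → F) (g : H) : Lz z φ g = ∑ h, z h * φ (h * g) := rfl

/-- The multiplicity of `μ` as a generalized eigenvalue of `f` on `W`. -/
noncomputable def mlt {V : Type} [AddCommGroup V] [Module F V] (W : Submodule F V)
    (f : Module.End F V) (μ : F) : ℕ :=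
  Module.finrank F ↥(f.maxGenEigenspace μ ⊓ W)

variable (F) in
/-- `φ` is the trace function of an irreducible representation over `F`. -/
def IsBr (φ : H → F) : Prop :=
  ∃ (n : ℕ) (ρ : Representation F H (Fin n → F)), ρ.IsIrreducible ∧ ρ.character = φ

section Rep

variable {V W V' : Type} [AddCommGroup V] [Module F V] [AddCommGroup W] [Module F W]
  [AddCommGroup V'] [Module F V']

/-- The operator of `Σ z(h) h`. -/
def Zop [Fintype H] (ρ : Representation F H V) (z : H → F) : Module.End F V := ∑ h, z h • ρ h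

open Classical in
/-- The trace over the subgroup `P`. -/
noncomputable def tN [Fintype H] (P : Subgroup H) (ρ : Representation F H V) : Module.End F V :=
  ∑ h, if h ∈ P then ρ h else 0

/-- A linear map which commutes with the representations. -/
def Eqv (ρ : Representation F H V) (σ : Representation F H W) (f : V →ₗ[F] W) : Prop :=
  ∀ (g : H) (v : V), f (ρ g v) = σ g (f v)

/-- The normalizer of `P`. -/
abbrev NP (P : Subgroup H) : Type := ↥(Subgroup.normalizer (P : Set H))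

/-- The restriction to the normalizer. -/
abbrev rN (P : Subgroup H) (ρ : Representation F H V) : Representation F (NP P) V :=
  ρ.comp (Subgroup.normalizer (P : Set H)).subtype

open Classical in
/-- The Brauer homomorphism. -/
noncomputable def brz (P : Subgroup H) (z : H → F) (n : NP P) : F :=
  if (n : H) ∈ Subgroup.centralizer (P : Set H) then z n else 0

/-- `σ` occurs in `V^P / Tr_P V`. -/
def Emb [Fintype H] (P : Subgroup H) (ρ : Representation F H V) (σ : Representation F (NP P) W) :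
    Prop :=
  ∃ j : W →ₗ[F] V, (∀ (n : NP P) (w : W), j (σ n w) = ρ (n : H) (j w)) ∧
    ∃ w, j w ∉ LinearMap.range (tN P ρ)

/-- `V` is not projective: there is a fixed vector of `P` which is not a trace. -/
def NPr [Fintype H] (P : Subgroup H) (ρ : Representation F H V) : Prop :=
  ∃ v : V, (∀ p ∈ P, ρ p v = v) ∧ v ∉ LinearMap.range (tN P ρ)

end Rep

end CF

end Pool.Agent.DPB


end
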