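import Mathlib
import Pool.Agent.DAM.C05
import Pool.Agent.DAM.C06
import Pool.Agent.DAM.C07

/-! Parts: DP.Pow, Lib_helper13.NoZero, Lib_helper13.Total, Lib_helper13.Dict, DP.Defs, DP.DefsR, DP.Stmts, DP.StmtsR -/

section

/-!
# The action of a permutation group on a power of a group
-/

namespace Pool.Agent.DP

/-- `R` acts on the functions `Ω → G` by permutation of the coordinates: `(r x)(i) = x(r⁻¹ i)`. -/
def pAct (R Ω G : Type*) [Group R] [MulAction R Ω] [Group G] : R →* MulAut (Ω → G) where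
  toFun r :=
    { toFun := fun x i => x (r⁻¹ • i)
      invFun := fun x i => x (r • i)
      left_inv := fun x => by ext i; simp
      right_inv := fun x => by ext i; simp
      map_mul' := fun _ _ => rfl }
  map_one' := by ext x i; simp
  map_mul' r s := by ext x i; simp [mul_smul]

/-- The group `G ^ Ω ⋊ R`. -/
abbrev Gam (R Ω G : Type*) [Group R] [MulAction R Ω] [Group G] : Type _ :=
  (Ω → G) ⋊[pAct R Ω G] R

/-- The character `χ` of `G ^ Ω ⋊ R` lies over the product of the characters `ξ i` of `G`: the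
inner product of its restriction to `G ^ Ω` with this product is not zero. -/
def LiesOver {R Ω G : Type*} [Group R] [MulAction R Ω] [Group G] [Fintype Ω]
    (χ : Gam R Ω G → ℂ) (ξ : Ω → G → ℂ) : Prop :=
  ∑ᶠ n : Ω → G, χ (SemidirectProduct.inl n) * ∏ i, ξ i (n i)⁻¹ ≠ 0

end Pool.Agent.DP


end

section

set_option linter.unusedSectionVars false

/-! A group with a nontrivial normal `ℓ`-subgroup has no characters of defect zero. -/

namespace Pool.Agent.Lib_helper13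

open Representation

section NoZero

variable {H : Type*} [Group H] [Fintype H]
variable (𝔐 : Ideal (integralClosure ℤ ℂ))

theorem conv_self {χ : H → ℂ} (hχ : IsIrr χ) (x : H) :
    ∑ g, χ g * χ (g⁻¹ * x) = (Nat.card H / χ 1) * χ x := by
  have hχ' := hχ
  obtain ⟨n, ρ, hρ, rfl⟩ := hχ
  obtain ⟨c, hc⟩ := exists_scalar ρ hρ (opSum ρ.character ρ)
    (fun g x => opSum_comm ρ.character (fun g x => char_conj ρ x g) ρ g x)
  have h0 : ρ.character 1 ≠ 0 := hχ'.one_ne_zero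
  have h1 : ∀ x : H, ∑ g, ρ.character g * ρ.character (g⁻¹ * x) = c * ρ.character x := by
    intro x
    have h2 := congrArg (fun T : (Fin n → ℂ) →ₗ[ℂ] (Fin n → ℂ) =>
      LinearMap.trace ℂ (Fin n → ℂ) (T ∘ₗ ρ x)) hc
    simp only [opSum] at h2
    rw [LinearMap.smul_comp, LinearMap.id_comp, map_smul, smul_eq_mul] at h2
    have h3 : LinearMap.trace ℂ (Fin n → ℂ) (ρ x) = ρ.character x := rfl
    rw [h3] at h2
    rw [← h2]
    have h4 : (∑ g, ρ.character g • ρ g⁻¹) ∘ₗ ρ x = ∑ g, ρ.character g • ρ (g⁻¹ * x) := by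
      apply LinearMap.ext
      intro v
      simp only [LinearMap.comp_apply, LinearMap.sum_apply, LinearMap.smul_apply]
      refine Finset.sum_congr rfl fun g _ => ?_
      rw [map_mul]
      rfl
    rw [h4, map_sum]
    refine Finset.sum_congr rfl fun g _ => ?_
    rw [map_smul, smul_eq_mul]
    rfl
  have h2 : c = Nat.card H / ρ.character 1 := by
    rw [eq_div_iff h0, ← h1 1, ← hχ'.sum_self]
    simp only [mul_one]
  rw [h1, h2]

theorem red_eq_one_of_pow [h𝔐 : 𝔐.IsPrime] {ℓ : ℕ} [Fact ℓ.Prime]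
    (hℓ : (ℓ : integralClosure ℤ ℂ) ∈ 𝔐) {c : ℂ} {k : ℕ} (hc : c ^ ℓ ^ k = 1) :
    IsIntegral ℤ c ∧ red 𝔐 c = 1 := by
  have hi : IsIntegral ℤ c := by
    apply IsIntegral.of_pow (n := ℓ ^ k) (pow_pos (Fact.out : ℓ.Prime).pos k)
    rw [hc]
    exact isIntegral_one
  refine ⟨hi, ?_⟩
  have hchar := quot_char 𝔐 hℓ
  have h1 : red 𝔐 c ^ ℓ ^ k = 1 := by
    rw [← red_one 𝔐, ← hc, red_of_integral 𝔐 hi, red_of_integral 𝔐 (hi.pow _), ← map_pow]
    rfl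
  have h2 : (red 𝔐 c - 1) ^ ℓ ^ k = 0 := by
    rw [sub_pow_char_pow, h1, one_pow, sub_self]
  have h3 := pow_eq_zero_iff (pow_pos (Fact.out : ℓ.Prime).pos k).ne' |>.mp h2
  exact sub_eq_zero.mp h3

theorem red_central_mul [h𝔐 : 𝔐.IsPrime] {ℓ : ℕ} [Fact ℓ.Prime]
    (hℓ : (ℓ : integralClosure ℤ ℂ) ∈ 𝔐) {μ : H → ℂ} (hμ : IsIrr μ) {q : H}
    (hq : ∀ y, q * y = y * q) {k : ℕ} (hqk : q ^ ℓ ^ k = 1) (z : H) :
    red 𝔐 (μ (q * z)) = red 𝔐 (μ z) := by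
  have hμ' := hμ
  obtain ⟨n, ρ, hρ, rfl⟩ := hμ
  obtain ⟨c, hc⟩ := exists_scalar ρ hρ (ρ q) (by
    intro g x
    rw [← Module.End.mul_apply, ← map_mul, hq, map_mul, Module.End.mul_apply])
  have h1 : ∀ z, ρ.character (q * z) = c * ρ.character z := by
    intro z
    change LinearMap.trace ℂ _ (ρ (q * z)) = c * LinearMap.trace ℂ _ (ρ z)
    rw [map_mul, hc]
    have : (c • LinearMap.id : (Fin n → ℂ) →ₗ[ℂ] (Fin n → ℂ)) * ρ z = c • ρ z := by
      apply LinearMap.ext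
      intro v
      rfl
    rw [this, map_smul, smul_eq_mul]
  have h2 : ∀ m : ℕ, ρ.character (q ^ m) = c ^ m * ρ.character 1 := by
    intro m
    induction m with
    | zero => simp
    | succ m ih => rw [pow_succ', h1, ih, pow_succ']; ring
  have h3 := h2 (ℓ ^ k)
  rw [hqk] at h3
  have h4 : c ^ ℓ ^ k = 1 := by
    have h5 : c ^ ℓ ^ k * ρ.character 1 = 1 * ρ.character 1 := by rw [← h3, one_mul]
    exact mul_right_cancel₀ hμ'.one_ne_zero h5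
  obtain ⟨h5, h6⟩ := red_eq_one_of_pow 𝔐 hℓ h4
  rw [h1, red_mul 𝔐 h5 (isIntegral_char hμ' z), h6, one_mul]

theorem red_mul_of_commute [h𝔐 : 𝔐.IsPrime] {ℓ : ℕ} [Fact ℓ.Prime]
    (hℓ : (ℓ : integralClosure ℤ ℂ) ∈ 𝔐) {χ : H → ℂ} (hχ : IsIrr χ) {q z : H}
    (hc : z * q = q * z) {k : ℕ} (hqk : q ^ ℓ ^ k = 1) : red 𝔐 (χ (q * z)) = red 𝔐 (χ z) := by
  classical
  obtain ⟨Y, hY⟩ : ∃ Y : Subgroup H, Y = Subgroup.centralizer {q} := ⟨_, rfl⟩
  have hqY : q ∈ Y := by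
    rw [hY, Subgroup.mem_centralizer_singleton_iff]
  have hzY : z ∈ Y := by
    rw [hY, Subgroup.mem_centralizer_singleton_iff]
    exact hc
  have hYc : ∀ y ∈ Y, y * q = q * y := by
    intro y hy
    rw [hY, Subgroup.mem_centralizer_singleton_iff] at hy
    exact hy
  have hexp := class_fn_expand (resj Y.subtype χ) (resj_class hχ)
  have hval : ∀ y : Y, χ y = ∑ μ ∈ irrF Y, ip (resj Y.subtype χ) μ * μ y := fun y =>
    congrFun hexp y
  have hm : ∀ μ : Y → ℂ, ∃ m : ℕ, IsIrr μ → ip (resj Y.subtype χ) μ = m := by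
    intro μ
    by_cases h : IsIrr μ
    · obtain ⟨m, hm⟩ := (hχ.resj Y.subtype).exists_ip h.isChr
      exact ⟨m, fun _ => hm⟩
    · exact ⟨0, fun h' => absurd h' h⟩
  choose m hm using hm
  have hred : ∀ y : Y, red 𝔐 (χ y) = ∑ μ ∈ irrF Y, m μ • red 𝔐 (μ y) := by
    intro y
    rw [hval, red_sum]
    · refine Finset.sum_congr rfl fun μ hμ => ?_
      rw [hm μ (mem_irrF.mp hμ), red_natCast_mul 𝔐 _ (isIntegral_char (mem_irrF.mp hμ) y)]
    · intro μ hμ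
      rw [hm μ (mem_irrF.mp hμ)]
      exact (isIntegral_natCast _).mul (isIntegral_char (mem_irrF.mp hμ) y)
  have h1 := hred (⟨q, hqY⟩ * ⟨z, hzY⟩)
  have h2 := hred ⟨z, hzY⟩
  change red 𝔐 (χ (q * z)) = _ at h1
  change red 𝔐 (χ z) = _ at h2
  rw [h1, h2]
  refine Finset.sum_congr rfl fun μ hμ => ?_
  congr 1
  apply red_central_mul 𝔐 hℓ (mem_irrF.mp hμ) (k := k)
  · intro y
    apply Subtype.ext
    exact (hYc y y.2).symm
  · apply Subtype.ext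
    rw [SubmonoidClass.coe_pow]
    exact hqk

/-- A group with a nontrivial normal `ℓ`-subgroup has no characters of defect zero. -/
theorem no_defect_zero [h𝔐 : 𝔐.IsPrime] {ℓ : ℕ} [hℓf : Fact ℓ.Prime]
    (hℓ : (ℓ : integralClosure ℤ ℂ) ∈ 𝔐) (Q : Subgroup H) [hQn : Q.Normal] (hQ : IsPGroup ℓ Q)
    (hne : Q ≠ ⊥) {χ : H → ℂ} (hχ : IsIrr χ) : red 𝔐 (Nat.card H / χ 1) = 0 := by
  classical
  have hcint : IsIntegral ℤ ((Nat.card H : ℂ) / χ 1) := by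
    have h3 : wt χ (fun y => χ y⁻¹) = Nat.card H / χ 1 := by
      rw [wt]
      congr 1
      rw [← hχ.sum_self]
      exact Finset.sum_congr rfl fun y _ => mul_comm _ _
    rw [← h3]
    apply isIntegral_wt hχ
    · intro g x
      have : (g * x * g⁻¹)⁻¹ = g * x⁻¹ * g⁻¹ := by group
      rw [this, hχ.conj_eq]
    · intro y
      exact isIntegral_char hχ _
  by_contra hc0
  have hnt : Nontrivial Q := by
    rw [Subgroup.nontrivial_iff_ne_bot]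
    exact hne
  have hcn : Nontrivial (Subgroup.center Q) := hQ.center_nontrivial
  obtain ⟨z, hz⟩ := exists_ne (1 : Subgroup.center Q)
  have hzQ : ((z : Q) : H) ∈ Q := (z : Q).2
  have hzc : ∀ q ∈ Q, q * ((z : Q) : H) = ((z : Q) : H) * q := by
    intro q hq
    have := Subgroup.mem_center_iff.mp z.2 ⟨q, hq⟩
    exact congrArg Subtype.val this
  have hz1 : ((z : Q) : H) ≠ 1 := by
    intro h
    apply hz
    exact Subtype.ext (Subtype.ext h)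
  -- the subgroup generated by `z`
  obtain ⟨Z, hZ⟩ : ∃ Z : Subgroup H, Z = Subgroup.zpowers ((z : Q) : H) := ⟨_, rfl⟩
  have hZQ : Z ≤ Q := by
    rw [hZ, Subgroup.zpowers_le]
    exact hzQ
  have hZc : ∀ w ∈ Z, ∀ q ∈ Q, q * w = w * q := by
    intro w hw q hq
    rw [hZ] at hw
    obtain ⟨r, rfl⟩ := Subgroup.mem_zpowers_iff.mp hw
    exact (Commute.zpow_right (hzc q hq) r : _)
  have hord : ∀ w ∈ Q, ∃ k, w ^ ℓ ^ k = 1 := by
    intro w hw
    obtain ⟨k, hk⟩ := hQ ⟨w, hw⟩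
    exact ⟨k, congrArg Subtype.val hk⟩
  -- `χ` vanishes modulo `𝔐` on the centralizer of `Q`
  have hvan : ∀ x : H, (∀ q ∈ Q, q * x = x * q) → red 𝔐 (χ x) = 0 := by
    intro x hx
    have h1 := congrArg (red 𝔐) (conv_self hχ x)
    rw [red_mul 𝔐 hcint (isIntegral_char hχ x), red_sum] at h1
    swap
    · intro g _
      exact (isIntegral_char hχ _).mul (isIntegral_char hχ _)
    let _ : MulAction Q H :=
      { smul := fun q y => q.1 * y * q.1⁻¹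
        one_smul := fun y => by change ((1 : Q) : H) * y * ((1 : Q) : H)⁻¹ = y; simp
        mul_smul := fun a b y => by
          change ((a * b : Q) : H) * y * ((a * b : Q) : H)⁻¹ = a.1 * (b.1 * y * b.1⁻¹) * a.1⁻¹
          simp [mul_assoc] }
    have hsmul : ∀ (q : Q) (y : H), q • y = q.1 * y * q.1⁻¹ := fun _ _ => rfl
    rw [sum_eq_sum_fixed hQ (nsmul_quot_eq_zero 𝔐 hℓ)] at h1
    swap
    · intro q y
      rw [hsmul, hχ.conj_eq]
      have h5 : (q.1 * y * q.1⁻¹)⁻¹ * x = q.1 * (y⁻¹ * x) * q.1⁻¹ := by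
        have h6 := hx q.1⁻¹ (Q.inv_mem q.2)
        calc (q.1 * y * q.1⁻¹)⁻¹ * x = q.1 * y⁻¹ * (q.1⁻¹ * x) := by group
          _ = q.1 * y⁻¹ * (x * q.1⁻¹) := by rw [h6]
          _ = _ := by group
      rw [h5, hχ.conj_eq]
    have hfix : ∀ y : H, (∀ q : Q, q • y = y) ↔ ∀ q ∈ Q, q * y = y * q := by
      intro y
      constructor
      · intro h q hq
        have h3 := h ⟨q, hq⟩
        rw [hsmul] at h3
        exact mul_inv_eq_iff_eq_mul.mp h3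
      · intro h q
        rw [hsmul, h q.1 q.2]
        group
    have h2 : ∑ y ∈ Finset.univ.filter (fun y : H => ∀ q : Q, q • y = y),
        red 𝔐 (χ y * χ (y⁻¹ * x)) = ∑ y : H, if ∀ q ∈ Q, q * y = y * q then
          red 𝔐 (χ y * χ (y⁻¹ * x)) else 0 := by
      rw [← Finset.sum_filter]
      refine Finset.sum_congr ?_ fun _ _ => rfl
      ext y
      rw [Finset.mem_filter, Finset.mem_filter, hfix]
    rw [h2] at h1
    have h3 : ∑ y : H, (if ∀ q ∈ Q, q * y = y * q then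
          red 𝔐 (χ y * χ (y⁻¹ * x)) else 0) = 0 := by
      let _ : MulAction Z H :=
        { smul := fun q y => q.1 * y
          one_smul := fun y => by change ((1 : Z) : H) * y = y; simp
          mul_smul := fun a b y => by
            change ((a * b : Z) : H) * y = a.1 * (b.1 * y)
            simp [mul_assoc] }
      have hsm : ∀ (q : Z) (y : H), q • y = q.1 * y := fun _ _ => rfl
      have hZp : IsPGroup ℓ Z := hQ.to_le hZQ
      rw [sum_eq_sum_fixed hZp (nsmul_quot_eq_zero 𝔐 hℓ)]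
      · apply Finset.sum_eq_zero
        intro y hy
        exfalso
        have h4 := (Finset.mem_filter.mp hy).2
        have h5 : ((z : Q) : H) ∈ Z := by
          rw [hZ]
          exact Subgroup.mem_zpowers _
        have h6 := h4 ⟨_, h5⟩
        rw [hsm] at h6
        exact hz1 (mul_eq_right.mp h6)
      · intro w y
        rw [hsm]
        have hiff : (∀ q ∈ Q, q * (w.1 * y) = w.1 * y * q) ↔ ∀ q ∈ Q, q * y = y * q := by
          constructor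
          · intro h q hq
            have h4 := h q hq
            rw [← mul_assoc, hZc w.1 w.2 q hq, mul_assoc, mul_assoc] at h4
            exact mul_left_cancel h4
          · intro h q hq
            rw [← mul_assoc, hZc w.1 w.2 q hq, mul_assoc, h q hq, mul_assoc]
        by_cases hy : ∀ q ∈ Q, q * y = y * q
        · rw [if_pos (hiff.mpr hy), if_pos hy]
          obtain ⟨k, hk⟩ := hord w.1 (hZQ w.2)
          obtain ⟨k', hk'⟩ := hord w.1⁻¹ (Q.inv_mem (hZQ w.2))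
          have h4 : red 𝔐 (χ (w.1 * y)) = red 𝔐 (χ y) :=
            red_mul_of_commute 𝔐 hℓ hχ (hy _ (hZQ w.2)).symm hk
          have h5 : (w.1 * y)⁻¹ * x = w.1⁻¹ * (y⁻¹ * x) := by
            have h6 := hy _ (Q.inv_mem (hZQ w.2))
            have h7 : y⁻¹ * w.1⁻¹ = w.1⁻¹ * y⁻¹ := by
              calc y⁻¹ * w.1⁻¹ = y⁻¹ * (w.1⁻¹ * y) * y⁻¹ := by group
                _ = y⁻¹ * (y * w.1⁻¹) * y⁻¹ := by rw [h6]
                _ = _ := by group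
            rw [mul_inv_rev, h7, mul_assoc]
          have h8 : red 𝔐 (χ (w.1⁻¹ * (y⁻¹ * x))) = red 𝔐 (χ (y⁻¹ * x)) := by
            apply red_mul_of_commute 𝔐 hℓ hχ _ hk'
            have h6 := hy _ (Q.inv_mem (hZQ w.2))
            have h9 := hx _ (Q.inv_mem (hZQ w.2))
            have h7 : y⁻¹ * w.1⁻¹ = w.1⁻¹ * y⁻¹ := by
              calc y⁻¹ * w.1⁻¹ = y⁻¹ * (w.1⁻¹ * y) * y⁻¹ := by group
                _ = y⁻¹ * (y * w.1⁻¹) * y⁻¹ := by rw [h6]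
                _ = _ := by group
            rw [mul_assoc, ← h9, ← mul_assoc, h7, mul_assoc]
          rw [h5, red_mul 𝔐 (isIntegral_char hχ _) (isIntegral_char hχ _), h4, h8,
            ← red_mul 𝔐 (isIntegral_char hχ _) (isIntegral_char hχ _)]
        · rw [if_neg (fun h => hy (hiff.mp h)), if_neg hy]
    rw [h3] at h1
    exact (mul_eq_zero.mp h1.symm).resolve_left hc0
  apply hc0
  have h1 : red 𝔐 (wt χ (fun y => χ y⁻¹)) = red 𝔐 (wt χ (fun _ => 0)) := by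
    apply red_wt_eq 𝔐 hℓ hχ Q hQ
    · intro g x
      have : (g * x * g⁻¹)⁻¹ = g * x⁻¹ * g⁻¹ := by group
      rw [this, hχ.conj_eq]
    · intro y
      exact isIntegral_char hχ _
    · intro _ _
      rfl
    · intro _
      exact isIntegral_zero
    · intro y hy
      rw [red_zero]
      apply hvan
      intro q hq
      have h2 := hy q hq
      calc q * y⁻¹ = y⁻¹ * (y * q) * y⁻¹ := by group
        _ = y⁻¹ * (q * y) * y⁻¹ := by rw [h2]
        _ = _ := by group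
  have h2 : wt χ (fun y => χ y⁻¹) = Nat.card H / χ 1 := by
    rw [wt]
    congr 1
    rw [← hχ.sum_self]
    exact Finset.sum_congr rfl fun y _ => mul_comm _ _
  rw [h2] at h1
  rw [h1, wt]
  simp only [zero_mul, Finset.sum_const_zero, zero_div]
  exact red_zero 𝔐

end NoZero

end Pool.Agent.Lib_helper13


end

section

set_option linter.unusedSectionVars false

/-! The chain sums of a wreath product with a group of prime order. -/

namespace Pool.Agent.Lib_helper13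

open Representation

section AA

variable {G : Type*} [Group G] [Fintype G]
variable (𝔐 : Ideal (integralClosure ℤ ℂ))

/-- The averaged chain sum. -/
noncomputable def aa (ℓ d : ℕ) (ω : G → (integralClosure ℤ ℂ) ⧸ 𝔐) : ℚ :=
  KK 𝔐 ℓ d (⊥ : Subgroup G) ω / Nat.card G

theorem card_mul_aa (ℓ d : ℕ) (ω : G → (integralClosure ℤ ℂ) ⧸ 𝔐) :
    (Nat.card G : ℚ) * aa 𝔐 ℓ d ω = KK 𝔐 ℓ d (⊥ : Subgroup G) ω := by
  have h : (Nat.card G : ℚ) ≠ 0 := by exact_mod_cast Nat.card_pos.ne'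
  rw [aa, mul_div_cancel₀ _ h]

theorem KK_ne_zero {ℓ d : ℕ} {Z : Subgroup G} {ω : G → (integralClosure ℤ ℂ) ⧸ 𝔐}
    (h : KK 𝔐 ℓ d Z ω ≠ 0) : ∃ τ, IsCh ℓ Z τ ∧ ∃ ψ : stb τ → ℂ, IsIrr ψ ∧
      HasDefect ℓ ψ d ∧ ∀ g, cen 𝔐 (stb τ).subtype ψ g = ω g := by
  rw [KK] at h
  obtain ⟨τ, hτ, h1⟩ := Finset.exists_ne_zero_of_sum_ne_zero h
  refine ⟨τ, mem_Ch.mp hτ, ?_⟩
  have h2 : cnt 𝔐 ℓ d (stb τ).subtype ω ≠ 0 := by
    intro h3
    rw [h3] at h1
    simp at h1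
  rw [cnt, Nat.card_ne_zero] at h2
  obtain ⟨⟨ψ, h3, h4, h5⟩⟩ := h2.1
  exact ⟨ψ, h3, h4, h5⟩

/-- Averaged chain sums of powers. -/
theorem aa_pi {ι : Type*} [Fintype ι] [DecidableEq ι] {ℓ : ℕ} [Fact ℓ.Prime] (d : ℕ)
    (ω : G → (integralClosure ℤ ℂ) ⧸ 𝔐) (hω : ω 1 = 1) :
    aa 𝔐 ℓ d (powFn 𝔐 ι ω) =
      ∑ e ∈ Finset.piAntidiag (Finset.univ : Finset ι) d, ∏ j, aa 𝔐 ℓ (e j) ω := by
  rw [aa, KK_pi 𝔐 d ω hω, Finset.sum_div]
  refine Finset.sum_congr rfl fun e _ => ?_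
  simp only [aa]
  rw [Finset.prod_div_distrib, Finset.prod_const, Nat.card_fun, Finset.card_univ,
    Nat.card_eq_fintype_card (α := ι)]
  push_cast
  rfl

end AA

section Total

variable {G Q : Type*} [Group G] [Fintype G] [CommGroup Q] [Fintype Q] [DecidableEq Q]
variable (𝔐 : Ideal (integralClosure ℤ ℂ))

theorem sum_base_outside {ℓ : ℕ} [Fact ℓ.Prime] (W : Subgroup (G ≀ᵣ Q) → ℚ) :
    ∑ σ ∈ Ch ℓ (⊥ : Subgroup (G ≀ᵣ Q)), (-1 : ℚ) ^ σ.card * W (stb σ) =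
      ∑ τ ∈ Ch ℓ (⊥ : Subgroup (Q → G)), (-1 : ℚ) ^ τ.card *
        W (stb (mapCh (bse : (Q → G) →* (G ≀ᵣ Q)) τ)) +
      ∑ σ ∈ OCh ℓ (bse : (Q → G) →* (G ≀ᵣ Q)).range, (-1 : ℚ) ^ σ.card * W (stb σ) := by
  classical
  have hnorm : (bse : (Q → G) →* (G ≀ᵣ Q)).range.Normal := by
    constructor
    rintro _ ⟨x, rfl⟩ g
    rw [conj_bse]
    exact ⟨_, rfl⟩
  rw [← sum_outside2 (ℓ := ℓ) (bse : (Q → G) →* (G ≀ᵣ Q)).range W,
    ← sum_outside1 (ℓ := ℓ) (bse : (Q → G) →* (G ≀ᵣ Q)).range W,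
    ← Finset.sum_filter_add_sum_filter_not (Ch ℓ (⊥ : Subgroup (G ≀ᵣ Q)))
      (fun σ => ∀ D ∈ σ, D ≤ (bse : (Q → G) →* (G ≀ᵣ Q)).range)]
  congr 1
  have h1 := sum_Ch_range (i := (bse : (Q → G) →* (G ≀ᵣ Q))) bse_injective ℓ
    (⊥ : Subgroup (Q → G)) (fun σ => (-1 : ℚ) ^ σ.card * W (stb σ))
  rw [Subgroup.map_bot] at h1
  rw [h1]
  refine Finset.sum_congr rfl fun τ _ => ?_
  rw [card_mapCh bse_injective]

theorem OCh_eq_empty {ℓ : ℕ} [hℓf : Fact ℓ.Prime] {q : ℕ} [hqf : Fact q.Prime]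
    (hq : Nat.card Q = q) (hne : q ≠ ℓ) : OCh ℓ (bse : (Q → G) →* (G ≀ᵣ Q)).range = ∅ := by
  rw [Finset.eq_empty_iff_forall_notMem]
  intro σ hσ
  obtain ⟨h1, h2, h3, _⟩ := mem_OCh.mp hσ
  have h4 : σ.inf id ∈ σ := inf_mem_of_chain (fun D hD E hE => h1.total hD hE) h2
  apply h3
  intro x hx
  rw [mem_range_bse]
  have h5 : IsPGroup ℓ (σ.inf id : Subgroup (G ≀ᵣ Q)) := (h1.1 _ h4).1
  obtain ⟨k, hk⟩ := h5 ⟨x, hx⟩
  have h6 : x ^ ℓ ^ k = 1 := congrArg Subtype.val hk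
  have h7 : x.right ^ ℓ ^ k = 1 := by
    have h8 := congrArg (RegularWreathProduct.rightHom : G ≀ᵣ Q →* Q) h6
    rw [map_pow, map_one] at h8
    exact h8
  have h9 : x.right ^ q = 1 := by
    rw [← hq]
    exact pow_card_eq_one'
  have h10 : Nat.Coprime (ℓ ^ k) q := by
    apply Nat.Coprime.pow_left
    rw [Nat.coprime_primes hℓf.out hqf.out]
    exact fun h => hne h.symm
  have h11 : orderOf x.right ∣ Nat.gcd (ℓ ^ k) q :=
    Nat.dvd_gcd (orderOf_dvd_of_pow_eq_one h7) (orderOf_dvd_of_pow_eq_one h9)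
  rw [h10] at h11
  exact orderOf_eq_one_iff.mp (Nat.dvd_one.mp h11)

/-- The chain sums of a wreath product with a group of prime order. -/
theorem wreath_total' [h𝔐 : 𝔐.IsPrime] {ℓ : ℕ} [hℓf : Fact ℓ.Prime]
    (hℓ : (ℓ : integralClosure ℤ ℂ) ∈ 𝔐) {q : ℕ} [hqf : Fact q.Prime]
    (hq : Nat.card Q = q) (ω : G → (integralClosure ℤ ℂ) ⧸ 𝔐) (hω : ω 1 = 1)
    (hcl : ∀ g g', IsConj g g' → ω g = ω g') :
    ∃ C : Finset (G ≀ᵣ Q → (integralClosure ℤ ℂ) ⧸ 𝔐),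
      (∀ c ∈ C, ∀ u : Q → G, pair 𝔐 (fun x => conjInd x (bse u)) c = Wf 𝔐 Q ω u) ∧
      (∀ c ∈ C, ∃ d, KK 𝔐 ℓ d ⊥ c ≠ 0) ∧
      (∀ c, (∀ u : Q → G, pair 𝔐 (fun x => conjInd x (bse u)) c = Wf 𝔐 Q ω u) →
        (∃ d, KK 𝔐 ℓ d ⊥ c ≠ 0) → c ∈ C) ∧
      ∀ d, (q : ℚ) * ∑ c ∈ C, aa 𝔐 ℓ d c = aa 𝔐 ℓ d (powFn 𝔐 Q ω) +
        ((q : ℚ) ^ 2 * (if padicValNat ℓ q ≤ d ∧ q ∣ d - padicValNat ℓ q then
            aa 𝔐 ℓ ((d - padicValNat ℓ q) / q) ω else 0) -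
          (if q ∣ d then aa 𝔐 ℓ (d / q) ω else 0)) -
        (if q = ℓ ∧ d ≠ 0 then (ℓ : ℚ) ^ 2 * aa 𝔐 ℓ (d - 1) (fun g => ω g ^ ℓ) else 0) := by
  classical
  obtain ⟨C₀, hC1, hC2, hC3⟩ := sum_cntF 𝔐 ℓ (⊥ : Subgroup (G ≀ᵣ Q))
    (fun (u : Q → G) (x : G ≀ᵣ Q) => conjInd x (bse u))
    (fun u g x => conjInd_conj g x (bse u)) (fun u x => isIntegral_conjInd x (bse u))
    (Wf 𝔐 Q ω)
  refine ⟨C₀.filter (fun c => ∃ d, KK 𝔐 ℓ d ⊥ c ≠ 0), ?_, ?_, ?_, ?_⟩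
  · intro c hc
    exact hC1 c (Finset.mem_filter.mp hc).1
  · intro c hc
    exact (Finset.mem_filter.mp hc).2
  · intro c hc hne
    rw [Finset.mem_filter]
    refine ⟨?_, hne⟩
    obtain ⟨d, hd⟩ := hne
    obtain ⟨τ, hτ, ψ, hψ, _, hcen⟩ := KK_ne_zero 𝔐 hd
    exact hC3 c τ (mem_Ch.mpr hτ) ψ hψ (funext hcen) hc
  intro d
  have hG0 : (Nat.card G : ℚ) ≠ 0 := by exact_mod_cast Nat.card_pos.ne'
  have hq0 : (q : ℚ) ≠ 0 := by exact_mod_cast hqf.out.ne_zero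
  have hΓ : (Nat.card (G ≀ᵣ Q) : ℚ) = q * (Nat.card G : ℚ) ^ q := by
    rw [RegularWreathProduct.card, hq]
    push_cast
    ring
  have hsum : ∑ c ∈ C₀.filter (fun c => ∃ d, KK 𝔐 ℓ d ⊥ c ≠ 0), aa 𝔐 ℓ d c =
      (∑ c ∈ C₀, KK 𝔐 ℓ d ⊥ c) / (q * (Nat.card G : ℚ) ^ q) := by
    rw [Finset.sum_filter, Finset.sum_div]
    refine Finset.sum_congr rfl fun c _ => ?_
    rw [aa, hΓ]
    split_ifs with h
    · rfl
    · push Not at h
      rw [h d, zero_div]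
  have hW := sum_base_outside (G := G) (Q := Q) (ℓ := ℓ)
    (fun S => (Nat.card S : ℚ) * cN 𝔐 ℓ d ω S)
  have hC2' := hC2 d
  have hLHS : ∑ τ ∈ Ch ℓ (⊥ : Subgroup (G ≀ᵣ Q)), (-1 : ℚ) ^ τ.card * (Nat.card (stb τ) *
      cntF 𝔐 ℓ d (fun (u : Q → G) (k : stb τ) => conjInd (k : G ≀ᵣ Q) (bse u)) (Wf 𝔐 Q ω)) =
      ∑ σ ∈ Ch ℓ (⊥ : Subgroup (G ≀ᵣ Q)), (-1 : ℚ) ^ σ.card *
        ((Nat.card (stb σ) : ℚ) * cN 𝔐 ℓ d ω (stb σ)) := rfl
  rw [hLHS, hW, base_sum 𝔐 hℓ hq d ω hω] at hC2'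
  have hK1 : ∑ ρ ∈ Ch ℓ (⊥ : Subgroup G), (-1 : ℚ) ^ ρ.card *
      (Nat.card (stb ρ) * ((q : ℚ) ^ 2 * cq' 𝔐 ℓ q d (stb ρ) ω - cq 𝔐 ℓ q d (stb ρ) ω)) =
      Nat.card G * ((q : ℚ) ^ 2 * (if padicValNat ℓ q ≤ d ∧ q ∣ d - padicValNat ℓ q then
            aa 𝔐 ℓ ((d - padicValNat ℓ q) / q) ω else 0) -
          (if q ∣ d then aa 𝔐 ℓ (d / q) ω else 0)) := by
    have h1 : ∀ e : ℕ, ∑ ρ ∈ Ch ℓ (⊥ : Subgroup G), (-1 : ℚ) ^ ρ.card *
        (Nat.card (stb ρ) * cq 𝔐 ℓ q e (stb ρ) ω) =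
        Nat.card G * (if q ∣ e then aa 𝔐 ℓ (e / q) ω else 0) := by
      intro e
      simp only [cq]
      split_ifs with h
      · rw [card_mul_aa]
        rfl
      · simp
    have h2 : ∑ ρ ∈ Ch ℓ (⊥ : Subgroup G), (-1 : ℚ) ^ ρ.card *
        (Nat.card (stb ρ) * cq' 𝔐 ℓ q d (stb ρ) ω) =
        Nat.card G * (if padicValNat ℓ q ≤ d ∧ q ∣ d - padicValNat ℓ q then
            aa 𝔐 ℓ ((d - padicValNat ℓ q) / q) ω else 0) := by
      simp only [cq']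
      by_cases h : padicValNat ℓ q ≤ d
      · simp only [true_and, h]
        exact h1 _
      · simp [h]
    rw [mul_sub, ← h1 d]
    have h3 : (Nat.card G : ℚ) * ((q : ℚ) ^ 2 *
        (if padicValNat ℓ q ≤ d ∧ q ∣ d - padicValNat ℓ q then
            aa 𝔐 ℓ ((d - padicValNat ℓ q) / q) ω else 0)) = (q : ℚ) ^ 2 * (Nat.card G *
        (if padicValNat ℓ q ≤ d ∧ q ∣ d - padicValNat ℓ q then
            aa 𝔐 ℓ ((d - padicValNat ℓ q) / q) ω else 0)) := by ring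
    rw [h3, ← h2, Finset.mul_sum, ← Finset.sum_sub_distrib]
    refine Finset.sum_congr rfl fun ρ _ => ?_
    ring
  have hK2 : ∑ σ ∈ OCh ℓ (bse : (Q → G) →* (G ≀ᵣ Q)).range, (-1 : ℚ) ^ σ.card *
      ((Nat.card (stb σ) : ℚ) * cN 𝔐 ℓ d ω (stb σ)) =
      -((Nat.card G : ℚ) ^ q *
        (if q = ℓ ∧ d ≠ 0 then (ℓ : ℚ) ^ 2 * aa 𝔐 ℓ (d - 1) (fun g => ω g ^ ℓ) else 0)) := by
    by_cases hqℓ : q = ℓ
    · subst hqℓ
      rw [sum_OCh hq (fun S => (Nat.card S : ℚ) * cN 𝔐 q d ω S)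
        (fun S g => by rw [card_map_conj, cN_map_conj])]
      congr 1
      have h1 : ∀ ρ ∈ Ch q (⊥ : Subgroup G), (-1 : ℚ) ^ ρ.card *
          ((Nat.card (dgP Q (stb ρ)) : ℚ) * cN 𝔐 q d ω (dgP Q (stb ρ))) =
          (q : ℚ) ^ 2 * ((-1 : ℚ) ^ ρ.card * (Nat.card (stb ρ) * cF 𝔐 q d (stb ρ) ω)) := by
        intro ρ _
        rw [card_dgP, cN_dgP 𝔐 hℓ hq d ω hcl, hq]
        push_cast
        ring
      rw [Finset.sum_congr rfl h1, ← Finset.mul_sum]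
      by_cases hd : d = 0
      · subst hd
        simp [cF]
      · rw [if_pos ⟨rfl, hd⟩]
        have h2 : ∑ ρ ∈ Ch q (⊥ : Subgroup G), (-1 : ℚ) ^ ρ.card *
            (Nat.card (stb ρ) * cF 𝔐 q d (stb ρ) ω) =
            Nat.card G * aa 𝔐 q (d - 1) (fun g => ω g ^ q) := by
          rw [card_mul_aa, KK]
          simp only [cF, if_neg hd]
        rw [h2]
        field_simp
    · rw [OCh_eq_empty hq hqℓ]
      simp [hqℓ]
  rw [hK1, hK2, ← card_mul_aa] at hC2'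
  have hpow : (Nat.card (Q → G) : ℚ) = (Nat.card G : ℚ) ^ q := by
    rw [Nat.card_fun, hq]
    push_cast
    rfl
  rw [hpow] at hC2'
  rw [hsum, ← hC2']
  field_simp
  ring

theorem wreath_total [h𝔐 : 𝔐.IsPrime] {ℓ : ℕ} [hℓf : Fact ℓ.Prime]
    (hℓ : (ℓ : integralClosure ℤ ℂ) ∈ 𝔐) {q : ℕ} [hqf : Fact q.Prime]
    (hq : Nat.card Q = q) (ω : G → (integralClosure ℤ ℂ) ⧸ 𝔐) (hω : ω 1 = 1)
    (hcl : ∀ g g', IsConj g g' → ω g = ω g') :
    ∃ C : Finset (G ≀ᵣ Q → (integralClosure ℤ ℂ) ⧸ 𝔐),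
      (∀ c ∈ C, ∀ u : Q → G, pair 𝔐 (fun x => conjInd x (bse u)) c = Wf 𝔐 Q ω u) ∧
      (∀ c ∈ C, ∃ d, KK 𝔐 ℓ d ⊥ c ≠ 0) ∧
      ∀ d, (q : ℚ) * ∑ c ∈ C, aa 𝔐 ℓ d c = aa 𝔐 ℓ d (powFn 𝔐 Q ω) +
        ((q : ℚ) ^ 2 * (if padicValNat ℓ q ≤ d ∧ q ∣ d - padicValNat ℓ q then
            aa 𝔐 ℓ ((d - padicValNat ℓ q) / q) ω else 0) -
          (if q ∣ d then aa 𝔐 ℓ (d / q) ω else 0)) -
        (if q = ℓ ∧ d ≠ 0 then (ℓ : ℚ) ^ 2 * aa 𝔐 ℓ (d - 1) (fun g => ω g ^ ℓ) else 0) := by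
  obtain ⟨C, h1, h2, _, h3⟩ := wreath_total' 𝔐 hℓ hq ω hω hcl
  exact ⟨C, h1, h2, h3⟩

end Total

end Pool.Agent.Lib_helper13


end

section

set_option linter.unusedSectionVars false

/-! Dade's alternating sums and averaged chain sums. -/

namespace Pool.Agent.Lib_helper13

open Representation Dade

section Codeg

variable {Y : Type*} [Group Y] [Fintype Y]
variable (𝔐 : Ideal (integralClosure ℤ ℂ))

theorem exists_codeg {ℓ : ℕ} [Fact ℓ.Prime] {χ : Y → ℂ} (h : IsIrr χ) {d : ℕ}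
    (hd : HasDefect ℓ χ d) : ∃ n N : ℕ, 0 < n ∧ χ 1 = n ∧ Nat.card Y = n * N ∧
      padicValNat ℓ N = d := by
  obtain ⟨n, hn, hn'⟩ := h.exists_degree
  obtain ⟨m, hm⟩ := h.degree_dvd hn'
  have hm0 : m ≠ 0 := by
    rintro rfl
    exact Nat.card_pos.ne' (by rw [hm, mul_zero])
  refine ⟨n, m, hn, hn', hm, ?_⟩
  apply HasDefect.unique (ℓ := ℓ) (χ := χ) _ hd
  exact ⟨n, hn', by rw [hm, padicValNat.mul hn.ne' hm0, add_comm]⟩

theorem red_codeg_ne_zero [h𝔐 : 𝔐.IsPrime] {ℓ : ℕ} [Fact ℓ.Prime]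
    (hℓ : (ℓ : integralClosure ℤ ℂ) ∈ 𝔐) {χ : Y → ℂ} (h : IsIrr χ) (hd : HasDefect ℓ χ 0) :
    red 𝔐 (Nat.card Y / χ 1) ≠ 0 := by
  obtain ⟨n, N, hn, hn', hN, hv⟩ := exists_codeg h hd
  have hn0 : (n : ℂ) ≠ 0 := by exact_mod_cast hn.ne'
  have hN0 : N ≠ 0 := by
    rintro rfl
    exact Nat.card_pos.ne' (by rw [hN, mul_zero])
  have h1 : (Nat.card Y : ℂ) / χ 1 = (N : ℂ) := by
    rw [hn', hN]
    push_cast
    field_simp
  rw [h1]
  apply red_card_ne_zero 𝔐 hℓ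
  intro hdvd
  rw [padicValNat.eq_zero_iff] at hv
  rcases hv with h2 | h2 | h2
  · exact (Fact.out : ℓ.Prime).one_lt.ne' h2
  · exact hN0 h2
  · exact h2 hdvd

/-- Defect zero is inherited by characters of subgroups with the same central function. -/
theorem defect_zero_of_cen {G : Type*} [Group G] [Fintype G] [h𝔐 : 𝔐.IsPrime] {ℓ : ℕ}
    [Fact ℓ.Prime] (hℓ : (ℓ : integralClosure ℤ ℂ) ∈ 𝔐) {χ : G → ℂ} (hχ : IsIrr χ)
    (h0 : HasDefect ℓ χ 0) (i : Y →* G) {ψ : Y → ℂ} (hψ : IsIrr ψ)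
    (hcen : ∀ g, cen 𝔐 i ψ g = cen 𝔐 (MonoidHom.id G) χ g) : HasDefect ℓ ψ 0 := by
  classical
  obtain ⟨d, hd⟩ := hψ.exists_defect (ℓ := ℓ)
  obtain ⟨n, N, hn, hn', hN, hv⟩ := exists_codeg hψ hd
  rcases Nat.eq_zero_or_pos d with rfl | hd0
  · exact hd
  exfalso
  have hcl : ∀ g x : G, χ (g * x * g⁻¹)⁻¹ = χ x⁻¹ := by
    intro g x
    have : (g * x * g⁻¹)⁻¹ = g * x⁻¹ * g⁻¹ := by group
    rw [this, hχ.conj_eq]
  have hint : ∀ x : G, IsIntegral ℤ (χ x⁻¹) := fun x => isIntegral_char hχ _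
  have h1 := red_wt_eq_pair 𝔐 (MonoidHom.id G) hχ (fun x => χ x⁻¹) hcl hint
  have h2 := red_wt_eq_pair 𝔐 i hψ (fun x => χ x⁻¹) hcl hint
  rw [funext hcen, ← h1] at h2
  have h3 : wt χ (fun y => χ (MonoidHom.id G y)⁻¹) = Nat.card G / χ 1 := by
    rw [wt]
    congr 1
    rw [← hχ.sum_self]
    refine Finset.sum_congr rfl fun y _ => ?_
    rw [mul_comm]
    rfl
  obtain ⟨m, hm⟩ := hψ.isChr.exists_mult (hχ.isChr.comp i)
  have hn0 : (n : ℂ) ≠ 0 := by exact_mod_cast hn.ne'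
  have h4 : wt ψ (fun y => χ (i y)⁻¹) = ((N * m : ℕ) : ℂ) := by
    have h5 : ∑ y, χ (i y)⁻¹ * ψ y = Nat.card Y * m := by
      rw [← hm]
      refine Finset.sum_congr rfl fun y _ => ?_
      rw [mul_comm, map_inv]
    rw [wt, h5, hn', hN]
    push_cast
    field_simp
  rw [h3, h4] at h2
  have h5 : ℓ ∣ N * m := by
    apply Dvd.dvd.mul_right
    have h6 : padicValNat ℓ N ≠ 0 := by omega
    exact dvd_of_one_le_padicValNat (by omega)
  obtain ⟨r, hr⟩ := h5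
  apply red_codeg_ne_zero 𝔐 hℓ hχ h0
  have h6 : (((N * m : ℕ)) : ℂ) = (ℓ : ℂ) * (r : ℂ) := by
    rw [hr]
    push_cast
    rfl
  rw [← h2, h6, red_natCast_mul 𝔐 ℓ (isIntegral_natCast r), nsmul_quot_eq_zero 𝔐 hℓ]

end Codeg

section Dict

variable {G : Type*} [Group G] [Fintype G]
variable (𝔐 : Ideal (integralClosure ℤ ℂ)) [h𝔐 : 𝔐.IsPrime]

/-- The chain sums of defect zero are supported on central functions of characters of defect
zero. -/
theorem KK_zero {ℓ : ℕ} [Fact ℓ.Prime] (hℓ : (ℓ : integralClosure ℤ ℂ) ∈ 𝔐)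
    {ω : G → (integralClosure ℤ ℂ) ⧸ 𝔐} (h : KK 𝔐 ℓ 0 (⊥ : Subgroup G) ω ≠ 0) :
    ∃ χ : G → ℂ, IsIrr χ ∧ HasDefect ℓ χ 0 ∧ ∀ g, cen 𝔐 (MonoidHom.id G) χ g = ω g := by
  obtain ⟨τ, hτ, ψ, hψ, h0, hcen⟩ := KK_ne_zero 𝔐 h
  rcases τ.eq_empty_or_nonempty with rfl | hne
  · let e : G ≃* stb (∅ : Finset (Subgroup G)) :=
      (Subgroup.topEquiv (G := G)).symm.trans (MulEquiv.subgroupCongr stb_empty.symm)
    refine ⟨fun g => ψ (e g), hψ.comp_mulEquiv e, (hasDefect_comp_equiv e).mpr h0, ?_⟩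
    intro g
    rw [← hcen g, ← cen_comp_equiv 𝔐 e (stb ∅).subtype ψ]
    rfl
  · exfalso
    obtain ⟨D, hD, hbot⟩ := hτ.exists_bot hne
    have hDS : D ≤ stb τ := by
      intro x hx
      rw [mem_stb']
      intro E hE z
      have hxE : x ∈ E := hbot E hE hx
      constructor
      · intro hz
        exact mul_mem (mul_mem hxE hz) (inv_mem hxE)
      · intro hz
        have h4 : z = x⁻¹ * (x * z * x⁻¹) * x := by group
        rw [h4]
        exact mul_mem (mul_mem (inv_mem hxE) hz) hxE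
    have hn : (D.subgroupOf (stb τ)).Normal := by
      constructor
      intro y hy g
      rw [Subgroup.mem_subgroupOf] at hy ⊢
      exact (mem_stb'.mp g.2 D hD (y : G)).mp hy
    have hp : IsPGroup ℓ (D.subgroupOf (stb τ)) := by
      apply (hτ.1 D hD).1.of_injective
        ((Subgroup.subgroupOfEquivOfLe hDS).toMonoidHom) (Subgroup.subgroupOfEquivOfLe hDS).injective
    have hne' : D.subgroupOf (stb τ) ≠ ⊥ := by
      intro h1
      have h2 : D = ⊥ := by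
        rw [eq_bot_iff]
        intro x hx
        have h3 : (⟨x, hDS hx⟩ : stb τ) ∈ D.subgroupOf (stb τ) :=
          Subgroup.mem_subgroupOf.mpr hx
        rw [h1, Subgroup.mem_bot] at h3
        rw [Subgroup.mem_bot]
        exact congrArg Subtype.val h3
      exact (hτ.1 D hD).2.ne' h2
    exact red_codeg_ne_zero 𝔐 hℓ hψ h0 (no_defect_zero 𝔐 hℓ _ hp hne' hψ)

/-- A nonvanishing chain sum of defect zero forces the others to vanish. -/
theorem KK_eq_zero_of_zero {ℓ : ℕ} [Fact ℓ.Prime] (hℓ : (ℓ : integralClosure ℤ ℂ) ∈ 𝔐)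
    {ω : G → (integralClosure ℤ ℂ) ⧸ 𝔐} (h : KK 𝔐 ℓ 0 (⊥ : Subgroup G) ω ≠ 0) {d : ℕ}
    (hd : 0 < d) : KK 𝔐 ℓ d (⊥ : Subgroup G) ω = 0 := by
  obtain ⟨χ, hχ, h0, hcen⟩ := KK_zero 𝔐 hℓ h
  by_contra hne
  obtain ⟨τ, _, ψ, hψ, hd', hcen'⟩ := KK_ne_zero 𝔐 hne
  have h1 := defect_zero_of_cen 𝔐 hℓ hχ h0 (stb τ).subtype hψ
    (fun g => by rw [hcen' g, hcen g])
  have := h1.unique hd'
  omega

/-- A nonvanishing chain sum of positive defect belongs to a block of positive defect. -/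
theorem exists_of_KK_ne_zero {ℓ : ℕ} [Fact ℓ.Prime] (hℓ : (ℓ : integralClosure ℤ ℂ) ∈ 𝔐)
    {ω : G → (integralClosure ℤ ℂ) ⧸ 𝔐} {d : ℕ} (hd : 0 < d)
    (h : KK 𝔐 ℓ d (⊥ : Subgroup G) ω ≠ 0) :
    ∃ χ : G → ℂ, IsIrr χ ∧ cen 𝔐 (MonoidHom.id G) χ = ω ∧ ∃ e, 0 < e ∧ HasDefect ℓ χ e := by
  obtain ⟨τ, hτ, ψ, hψ, hd', hcen'⟩ := KK_ne_zero 𝔐 h
  obtain ⟨χ, hχ, hcen⟩ := exists_irr_of_mult 𝔐 hψ (exists_irr_of_chain 𝔐 hℓ hτ hψ)
  refine ⟨χ, hχ, ?_, ?_⟩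
  · rw [hcen]
    exact funext hcen'
  · obtain ⟨e, he⟩ := hχ.exists_defect (ℓ := ℓ)
    refine ⟨e, ?_, he⟩
    rcases Nat.eq_zero_or_pos e with rfl | he0
    · have h1 := defect_zero_of_cen 𝔐 hℓ hχ he (stb τ).subtype hψ
        (fun g => by rw [hcen])
      have := h1.unique hd'
      omega
    · exact he0

theorem aa_eq_dadeSum {ℓ d : ℕ} (hcore : pCore ℓ G = ⊥) {χ : G → ℂ} (hχ : IsIrr χ) :
    aa 𝔐 ℓ d (cen 𝔐 (MonoidHom.id G) χ) = (dadeSum 𝔐 ℓ χ d : ℚ) := by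
  have h := dadeSum_eq 𝔐 ℓ d hχ
  have hG0 : (Nat.card G : ℚ) ≠ 0 := by exact_mod_cast Nat.card_pos.ne'
  rw [aa, ← hcore, ← h, mul_comm, mul_div_cancel_right₀ _ hG0]

/-- The condition on the block of `χ` in Dade's conjecture. -/
def PosBlock (ℓ : ℕ) (χ : G → ℂ) : Prop :=
  ∃ (χ' : G → ℂ) (e : ℕ), IsIrrChar χ' ∧ SameBlock 𝔐 χ' χ ∧ Dade.HasDefect ℓ χ' e ∧
    Nat.card (pCore ℓ G) < ℓ ^ e

/-- From chain sums to Dade's sums. -/
theorem exists_dadeSum {ℓ : ℕ} [Fact ℓ.Prime] (hℓ : (ℓ : integralClosure ℤ ℂ) ∈ 𝔐)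
    (hcore : pCore ℓ G = ⊥) {ω : G → (integralClosure ℤ ℂ) ⧸ 𝔐} {d : ℕ} (hd : 0 < d)
    (h : aa 𝔐 ℓ d ω ≠ 0) : ∃ χ : G → ℂ, IsIrrChar χ ∧ PosBlock 𝔐 ℓ χ ∧
      cen 𝔐 (MonoidHom.id G) χ = ω ∧ (dadeSum 𝔐 ℓ χ d : ℚ) = aa 𝔐 ℓ d ω := by
  have h1 : KK 𝔐 ℓ d (⊥ : Subgroup G) ω ≠ 0 := by
    intro h2
    apply h
    rw [aa, h2, zero_div]
  obtain ⟨χ, hχ, rfl, e, he, he'⟩ := exists_of_KK_ne_zero 𝔐 hℓ hd h1
  refine ⟨χ, hχ, ⟨χ, e, hχ, (sameBlock_iff 𝔐 hχ hχ).mpr rfl, he', ?_⟩, rfl,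
    (aa_eq_dadeSum 𝔐 hcore hχ).symm⟩
  rw [hcore]
  simp only [Subgroup.card_bot]
  exact Nat.one_lt_pow he.ne' (Fact.out : ℓ.Prime).one_lt

theorem aa_int (ℓ d : ℕ) [Fact ℓ.Prime] (hcore : pCore ℓ G = ⊥)
    (hℓ : (ℓ : integralClosure ℤ ℂ) ∈ 𝔐) (ω : G → (integralClosure ℤ ℂ) ⧸ 𝔐) (hd : 0 < d) :
    ∃ z : ℤ, aa 𝔐 ℓ d ω = z := by
  by_cases h : aa 𝔐 ℓ d ω = 0
  · exact ⟨0, by rw [h]; simp⟩
  · obtain ⟨χ, _, _, _, h1⟩ := exists_dadeSum 𝔐 hℓ hcore hd h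
    exact ⟨dadeSum 𝔐 ℓ χ d, h1.symm⟩

/-- For trivial `O_ℓ`, Dade's conjecture amounts to the vanishing of the averaged chain sums of
positive defect. -/
theorem dadeHolds_of_aa {ℓ : ℕ} [Fact ℓ.Prime] (hcore : pCore ℓ G = ⊥)
    (h : ∀ 𝔐 : Ideal (integralClosure ℤ ℂ), 𝔐.IsMaximal → (ℓ : integralClosure ℤ ℂ) ∈ 𝔐 →
      ∀ (ω : G → (integralClosure ℤ ℂ) ⧸ 𝔐) (d : ℕ), 0 < d → aa 𝔐 ℓ d ω = 0) :
    DadeHolds ℓ G := by
  apply dadeHolds_of_good _ hcore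
  intro 𝔐 h𝔐 hℓ ω
  have := h𝔐.isPrime
  refine ⟨fun d hd => ?_, fun h1 => KK_zero 𝔐 hℓ h1⟩
  rw [← card_mul_aa, h 𝔐 h𝔐 hℓ ω d hd, mul_zero]

end Dict

end Pool.Agent.Lib_helper13


end

section

/-!
# Dade's conjecture for `G ^ Ω ⋊ R`: definitions
-/

namespace Pool.Agent.DP

open Pool.Agent.Lib_helper13 Representation

/-! ### The group -/

/-- The embedding of the base group. -/
abbrev iN (R Ω G : Type*) [Group R] [MulAction R Ω] [Group G] : (Ω → G) →* Gam R Ω G :=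
  SemidirectProduct.inl

/-- The embedding of the complement. -/
abbrev iR (R Ω G : Type*) [Group R] [MulAction R Ω] [Group G] : R →* Gam R Ω G :=
  SemidirectProduct.inr

noncomputable instance gamFintype (R Ω G : Type*) [Group R] [MulAction R Ω] [Group G]
    [Finite R] [Finite Ω] [Finite G] : Fintype (Gam R Ω G) :=
  @Fintype.ofFinite _ (Finite.of_equiv _ (SemidirectProduct.equivProd (φ := pAct R Ω G)).symm)

/-! ### Outer and inner chains -/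

section Split

variable {X : Type*} [Group X]

/-- The greatest member of a chain above `Z` (and `Z` for the empty chain). -/
def tp (Z : Subgroup X) (c : Finset (Subgroup X)) : Subgroup X := c.sup id ⊔ Z

/-- The centralizer of `Q` in `N`. -/
def cN (N Q : Subgroup X) : Subgroup X := N ⊓ Subgroup.centralizer (Q : Set X)

variable [Fintype X]

open Classical in
/-- Chains above `Z` whose members meet `N` trivially. -/
noncomputable def OutC (ℓ : ℕ) (Z N : Subgroup X) : Finset (Finset (Subgroup X)) :=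
  (Ch ℓ Z).filter (fun c => ∀ D ∈ c, D ⊓ N = ⊥)

/-- The inner sum of a chain `c`: over the chains of the centralizer in `N` of the greatest
member of `c`. -/
noncomputable def innerS (ℓ : ℕ) (Z N : Subgroup X) (W : Subgroup X → ℚ)
    (c : Finset (Subgroup X)) : ℚ :=
  ∑ τ ∈ Ch ℓ (⊥ : Subgroup (cN N (tp Z c))),
    (-1 : ℚ) ^ τ.card * W (stb c ⊓ stb (mapCh (cN N (tp Z c)).subtype τ))

end Split

/-! ### Characters of subgroups as functions on the group -/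

section IrrOn

variable {G : Type*} [Group G]

/-- `f` is an irreducible character of `S`, extended by zero to `G`. -/
def IrrOn (S : Subgroup G) (f : G → ℂ) : Prop :=
  IsIrr (fun s : S => f s) ∧ ∀ x, x ∉ S → f x = 0

open Classical in
/-- The finite set of irreducible characters of `S`, extended by zero. -/
noncomputable def irrOn [Fintype G] (S : Subgroup G) : Finset (G → ℂ) :=
  (irrF S).image (fun ψ => ext0 ψ)

/-- The defect of the irreducible character `f` of `S`. -/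
noncomputable def df (ℓ : ℕ) (S : Subgroup G) (f : G → ℂ) : ℕ :=
  padicValNat ℓ (Nat.card S) - padicValNat ℓ ⌊(f 1).re⌋₊

/-- The central function on `G` of a function `f` on `G`. -/
noncomputable def cg (𝔐 : Ideal (integralClosure ℤ ℂ)) [Fintype G] (f : G → ℂ) (g : G) :
    (integralClosure ℤ ℂ) ⧸ 𝔐 :=
  red 𝔐 ((∑ x, conjInd x g * f x) / f 1)

end IrrOn

/-! ### Chains of product subgroups with characters -/

section Prt

variable {O G : Type*} [Group G]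

/-- `g` transports the data (chain and character) at the coordinate `a` to those at `b`. -/
def trP (τ : Finset (Subgroup (O → G))) (θ : O → G → ℂ) (a b : O) (g : G) : Prop :=
  (∀ D ∈ τ, (prj a D).map (MulAut.conj g).toMonoidHom = prj b D) ∧
    ∀ x, θ b (g * x * g⁻¹) = θ a x

/-- The partition of the coordinates: two coordinates are equivalent if an element of `G`
transports the data of one to those of the other. -/
def prt (τ : Finset (Subgroup (O → G))) (θ : O → G → ℂ) : Setoid O where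
  r a b := ∃ g, trP τ θ a b g
  iseqv := by
    refine ⟨fun a => ⟨1, ?_, ?_⟩, ?_, ?_⟩
    · intro D _
      have h : (MulAut.conj (1 : G)).toMonoidHom = MonoidHom.id G := by
        ext x
        simp
      rw [h, Subgroup.map_id]
    · intro x
      simp
    · rintro a b ⟨g, h1, h2⟩
      refine ⟨g⁻¹, ?_, ?_⟩
      · intro D hD
        rw [← h1 D hD, Subgroup.map_map]
        have h : ((MulAut.conj g⁻¹).toMonoidHom).comp (MulAut.conj g).toMonoidHom =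
            MonoidHom.id G := by
          ext x
          simp [mul_assoc]
        rw [h, Subgroup.map_id]
      · intro x
        rw [← h2]
        congr 1
        group
    · rintro a b c ⟨g, h1, h2⟩ ⟨g', h1', h2'⟩
      refine ⟨g' * g, ?_, ?_⟩
      · intro D hD
        rw [← h1' D hD, ← h1 D hD, Subgroup.map_map]
        congr 1
        ext x
        simp [mul_assoc]
      · intro x
        rw [← h2, ← h2']
        congr 1
        group

end Prt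

/-! ### Clifford theory -/

section Cliff

variable {A Y K : Type*} [Group A] [Group Y] [Group K]

/-- `j` embeds `A` as a normal subgroup of `Y`, `c` is the conjugation action and `A` is the
kernel of `p`. -/
structure ClG (j : A →* Y) (c : Y →* MulAut A) (p : Y →* K) : Prop where
  inj : Function.Injective j
  act : ∀ y a, j (c y a) = y * j a * y⁻¹
  ker : ∀ y, p y = 1 ↔ y ∈ j.range

/-- The inertia group. -/
def inert (c : Y →* MulAut A) (θ : A → ℂ) : Subgroup Y where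
  carrier := {y | ∀ a, θ (c y a) = θ a}
  one_mem' := by
    intro a
    rw [map_one, MulAut.one_apply]
  mul_mem' := by
    intro x y hx hy a
    rw [map_mul, MulAut.mul_apply, hx, hy]
  inv_mem' := by
    intro x hx a
    have h := hx (c x⁻¹ a)
    rw [← h, ← MulAut.mul_apply, ← map_mul, mul_inv_cancel, map_one, MulAut.one_apply]

/-- The induced class function. -/
noncomputable def indc [Fintype Y] (S : Subgroup Y) (f : S → ℂ) (y : Y) : ℂ :=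
  (∑ z : Y, ext0 f (z⁻¹ * y * z)) / Nat.card S

end Cliff

/-! ### Matrices and the extended character -/

section Mat

variable {O G : Type*} [Group G]

/-- `M` is a matrix representation of size `m` of `S` with character `θ`. -/
structure MD (S : Subgroup G) (θ : G → ℂ) (m : ℕ) (M : G → ℕ → ℕ → ℂ) : Prop where
  one : ∀ i < m, ∀ j < m, M 1 i j = if i = j then 1 else 0
  mul : ∀ s ∈ S, ∀ t ∈ S, ∀ i < m, ∀ j < m,
    M (s * t) i j = ∑ k ∈ Finset.range m, M s i k * M t k j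
  tr : ∀ s ∈ S, θ s = ∑ i ∈ Finset.range m, M s i i

/-- The value at `(n, k)` of the canonical extension of an outer product of characters. -/
noncomputable def TH [Fintype O] [DecidableEq O] (m : O → ℕ) (M : O → G → ℕ → ℕ → ℂ)
    (k : Equiv.Perm O) (n : O → G) : ℂ :=
  ∑ f ∈ Fintype.piFinset (fun o => Finset.range (m o)), ∏ o, M o (n o) (f o) (f (k⁻¹ o))

/-- The subgroup of `G ^ O ⋊ L` of the elements with coordinates in the `S o`. -/
def stdS {L : Type*} [Group L] [MulAction L O] (S : O → Subgroup G)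
    (hS : ∀ (l : L) o, S (l • o) = S o) : Subgroup (Gam L O G) where
  carrier := {y | ∀ o, y.left o ∈ S o}
  one_mem' := fun o => (S o).one_mem
  mul_mem' := by
    intro x y hx hy o
    change x.left o * y.left (x.right⁻¹ • o) ∈ S o
    refine (S o).mul_mem (hx o) ?_
    have h := hy (x.right⁻¹ • o)
    rwa [hS] at h
  inv_mem' := by
    intro x hx o
    change (x.left (x.right⁻¹⁻¹ • o))⁻¹ ∈ S o
    have h := hx (x.right⁻¹⁻¹ • o)
    rw [hS] at h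
    exact (S o).inv_mem h

/-- The weighted sum over the elements of a coset. -/
noncomputable def aS [Fintype O] [DecidableEq O] [Fintype G] (S : O → Subgroup G)
    (θ : O → G → ℂ) (m : O → ℕ) (M : O → G → ℕ → ℕ → ℂ) (k : Equiv.Perm O)
    (F : (O → G) → ℂ) : ℂ :=
  (∑ n : ∀ o, S o, F (fun o => n o) * TH m M k (fun o => n o)) / ∏ o, θ o 1

end Mat

/-! ### Standard data -/

section Std

/-- The elements of `K` which preserve all the classes of `π`. -/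
def Kp (K : Type*) {O : Type*} [Group K] [MulAction K O] (π : Setoid O) : Subgroup K where
  carrier := {k | ∀ o, π (k⁻¹ • o) o}
  one_mem' := by
    intro o
    rw [inv_one, one_smul]
  mul_mem' := by
    intro k l hk hl o
    rw [mul_inv_rev, mul_smul]
    exact π.trans (hl (k⁻¹ • o)) (hk o)
  inv_mem' := by
    intro k hk o
    have h := hk (k • o)
    rw [inv_smul_smul] at h
    rw [inv_inv]
    exact π.symm h

variable {K O G X : Type*} [Group K] [Finite K] [MulAction K O] [Fintype O] [DecidableEq O]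
  [Group G] [Fintype G] [Group X]

/-- Standard data: subgroups, irreducible characters and matrices which are constant on the
classes of `π` and have prescribed central functions. -/
structure SD (𝔐 : Ideal (integralClosure ℤ ℂ)) (ℓ : ℕ) (π : Setoid O)
    (b : O → G → (integralClosure ℤ ℂ) ⧸ 𝔐) (S : O → Subgroup G) (θ : O → G → ℂ) (m : O → ℕ)
    (M : O → G → ℕ → ℕ → ℂ) : Prop where
  cS : ∀ x y, π x y → S x = S y
  cθ : ∀ x y, π x y → θ x = θ y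
  cm : ∀ x y, π x y → m x = m y
  cM : ∀ x y, π x y → M x = M y
  irr : ∀ o, IrrOn (S o) (θ o)
  md : ∀ o, MD (S o) (θ o) (m o) (M o)
  dz : ∀ o, df ℓ (S o) (θ o) = 0 → S o = ⊤
  cg : ∀ o, cg 𝔐 (θ o) = b o

/-- The number of characters of the quotient of the inertia group, times its order. -/
noncomputable def NN (𝔐 : Ideal (integralClosure ℤ ℂ)) (ℓ d : ℕ) (i : Gam K O G →* X)
    (ω : X → (integralClosure ℤ ℂ) ⧸ 𝔐) (π : Setoid O) (e : ℕ) (S : O → Subgroup G)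
    (θ : O → G → ℂ) (m : O → ℕ) (M : O → G → ℕ → ℕ → ℂ) : ℚ :=
  Nat.card (Kp K π) * Nat.card {η : Kp K π → ℂ // IsIrr η ∧
    (∃ d', HasDefect ℓ η d' ∧ e + d' = d) ∧
    ∀ g, red 𝔐 (wt η (fun k => aS S θ m M (MulAction.toPerm (k : K))
      (fun n => conjInd (i ⟨n, (k : K)⟩) g))) = ω g}

end Std

/-! ### The stabilizer of a chain of the base group -/

section Stab

theorem conj_iN {K O G : Type*} [Group K] [MulAction K O] [Group G] (y : Gam K O G) (n : O → G) :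
    iN K O G (fun o => y.left o * n (y.right⁻¹ • o) * (y.left o)⁻¹) = y * iN K O G n * y⁻¹ := by
  apply SemidirectProduct.ext
  · ext o
    simp [pAct, mul_assoc]
  · simp

variable (K : Type*) {O G : Type*} [Group K] [MulAction K O] [Group G]
  (τ : Finset (Subgroup (O → G)))

/-- The stabilizer in `G ^ O ⋊ K` of a chain of the base group. -/
noncomputable abbrev YT : Subgroup (Gam K O G) := stb (mapCh (iN K O G) τ)

theorem iN_mem_YT {n : O → G} : iN K O G n ∈ YT K τ ↔ n ∈ stb τ := by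
  rw [← comap_stb_mapCh (i := iN K O G) SemidirectProduct.inl_injective τ, Subgroup.mem_comap]

/-- The embedding of the stabilizer in the base group. -/
noncomputable def jT : stb τ →* YT K τ :=
  ((iN K O G).comp (stb τ).subtype).codRestrict (YT K τ) (fun a => (iN_mem_YT K τ).mpr a.2)

/-- The projection to `K`. -/
noncomputable def pT : YT K τ →* K := SemidirectProduct.rightHom.comp (YT K τ).subtype

/-- The action by conjugation on the stabilizer in the base group. -/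
noncomputable def cT : YT K τ →* MulAut (stb τ) where
  toFun y :=
    { toFun := fun a => ⟨fun o => (y : Gam K O G).left o *
        (a : O → G) ((y : Gam K O G).right⁻¹ • o) * ((y : Gam K O G).left o)⁻¹, by
          rw [← iN_mem_YT K τ, conj_iN]
          exact mul_mem (mul_mem y.2 ((iN_mem_YT K τ).mpr a.2)) (inv_mem y.2)⟩
      invFun := fun a => ⟨fun o => (y⁻¹ : Gam K O G).left o *
        (a : O → G) ((y⁻¹ : Gam K O G).right⁻¹ • o) * ((y⁻¹ : Gam K O G).left o)⁻¹, by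
          rw [← iN_mem_YT K τ, conj_iN]
          exact mul_mem (mul_mem (inv_mem y.2) ((iN_mem_YT K τ).mpr a.2)) (inv_mem (inv_mem y.2))⟩
      left_inv := by
        intro a
        apply Subtype.ext
        apply SemidirectProduct.inl_injective (φ := pAct K O G)
        change iN K O G _ = iN K O G _
        rw [conj_iN, conj_iN]
        group
      right_inv := by
        intro a
        apply Subtype.ext
        apply SemidirectProduct.inl_injective (φ := pAct K O G)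
        change iN K O G _ = iN K O G _
        rw [conj_iN, conj_iN]
        group
      map_mul' := by
        intro a b
        apply Subtype.ext
        apply SemidirectProduct.inl_injective (φ := pAct K O G)
        change iN K O G _ = iN K O G _
        rw [conj_iN]
        change _ = iN K O G ((fun o => (y : Gam K O G).left o *
          (a : O → G) ((y : Gam K O G).right⁻¹ • o) * ((y : Gam K O G).left o)⁻¹) *
          (fun o => (y : Gam K O G).left o *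
          (b : O → G) ((y : Gam K O G).right⁻¹ • o) * ((y : Gam K O G).left o)⁻¹))
        rw [map_mul, conj_iN, conj_iN]
        change (y : Gam K O G) * iN K O G ((a : O → G) * (b : O → G)) * (y : Gam K O G)⁻¹ = _
        rw [map_mul]
        group }
  map_one' := by
    ext a o
    simp
  map_mul' := by
    intro x y
    apply MulEquiv.ext
    intro a
    apply Subtype.ext
    apply SemidirectProduct.inl_injective (φ := pAct K O G)
    change iN K O G (fun o => ((x : Gam K O G) * y).left o *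
      (a : O → G) (((x : Gam K O G) * y).right⁻¹ • o) * (((x : Gam K O G) * y).left o)⁻¹) =
      iN K O G (fun o => (x : Gam K O G).left o *
        (fun o => (y : Gam K O G).left o * (a : O → G) ((y : Gam K O G).right⁻¹ • o) *
          ((y : Gam K O G).left o)⁻¹) ((x : Gam K O G).right⁻¹ • o) * ((x : Gam K O G).left o)⁻¹)
    have h1 := conj_iN (x : Gam K O G) (fun o => (y : Gam K O G).left o *
      (a : O → G) ((y : Gam K O G).right⁻¹ • o) * ((y : Gam K O G).left o)⁻¹)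
    refine Eq.trans ?_ h1.symm
    rw [conj_iN, conj_iN]
    group

theorem cT_apply (y : YT K τ) (a : stb τ) (o : O) :
    (cT K τ y a : O → G) o = (y : Gam K O G).left o *
      (a : O → G) ((y : Gam K O G).right⁻¹ • o) * ((y : Gam K O G).left o)⁻¹ := rfl

theorem clG_T : ClG (jT K τ) (cT K τ) (pT K τ) where
  inj := by
    intro a b h
    apply Subtype.ext
    apply SemidirectProduct.inl_injective (φ := pAct K O G)
    exact congrArg Subtype.val h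
  act := by
    intro y a
    apply Subtype.ext
    exact conj_iN (y : Gam K O G) (a : O → G)
  ker := by
    intro y
    constructor
    · intro h
      have h1 : (y : Gam K O G).right = 1 := h
      have h2 : (y : Gam K O G) = iN K O G (y : Gam K O G).left := by
        apply SemidirectProduct.ext
        · simp
        · rw [h1]
          simp
      refine ⟨⟨(y : Gam K O G).left, (iN_mem_YT K τ).mp (by rw [← h2]; exact y.2)⟩, ?_⟩
      apply Subtype.ext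
      exact h2.symm
    · rintro ⟨a, rfl⟩
      rfl

end Stab

end Pool.Agent.DP


end

section

/-!
# Dade's conjecture for groups with a normal subgroup `G ^ Ω` on which a cyclic group of outer
automorphisms of order prime to `ℓ` acts: definitions (theorem R)
-/

namespace Pool.Agent.DP

open Pool.Agent.Lib_helper13 Representation
open Pool.Agent.Lib_helper13.Dade (pCore DadeHolds)

/-! ### Local theory -/

section Loc

variable {G B C : Type*} [Group G] [Group B] [Group C]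

open Classical in
/-- The indicator of conjugacy under the subgroup `T`. -/
noncomputable def cjT (T : Subgroup B) (x g : B) : ℂ := if ∃ t ∈ T, x = t * g * t⁻¹ then 1 else 0

/-- The reduced central function with respect to conjugacy under the subgroup `T`. -/
noncomputable def cgT (𝔐 : Ideal (integralClosure ℤ ℂ)) [Fintype B] (T : Subgroup B) (f : B → ℂ)
    (g : B) : (integralClosure ℤ ℂ) ⧸ 𝔐 :=
  red 𝔐 ((∑ x, cjT T x g * f x) / f 1)

open Classical in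
/-- The reduced central function of a function on `G` with respect to the orbits of the
subgroup `T` of `B`, acting on `G` through `κ`. -/
noncomputable def cgO (𝔐 : Ideal (integralClosure ℤ ℂ)) [Fintype G] (κ : B →* MulAut G)
    (T : Subgroup B) (ψ : G → ℂ) (g : G) : (integralClosure ℤ ℂ) ⧸ 𝔐 :=
  red 𝔐 ((∑ x, (if ∃ t ∈ T, x = κ t g then 1 else 0) * ψ x) / ψ 1)

/-- `G` is a normal subgroup of `B` with trivial centralizer, `C = B / G` is cyclic of order prime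
to `ℓ`, and `O_ℓ(G) = 1`. -/
structure LocS (ℓ : ℕ) (ι : G →* B) (κ : B →* MulAut G) (ρ : B →* C) : Prop where
  cl : ClG ι κ ρ
  surj : Function.Surjective ρ
  cyc : IsCyclic C
  cop : ¬ ℓ ∣ Nat.card C
  fth : Function.Injective κ
  core : pCore ℓ G = ⊥
  nt : Nontrivial G

/-- The stabilizer in `B` of the chain `σ` and the function `ψ`. -/
def Stx (κ : B →* MulAut G) (σ : Finset (Subgroup G)) (ψ : G → ℂ) : Subgroup B where
  carrier := {b | (∀ D ∈ σ, D.map (κ b).toMonoidHom = D) ∧ ∀ g, ψ (κ b g) = ψ g}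
  one_mem' := by
    constructor
    · intro D _
      rw [map_one]
      exact Subgroup.map_id D
    · intro g
      rw [map_one, MulAut.one_apply]
  mul_mem' := by
    rintro x y ⟨hx1, hx2⟩ ⟨hy1, hy2⟩
    constructor
    · intro D hD
      have h1 : (κ (x * y)).toMonoidHom = (κ x).toMonoidHom.comp (κ y).toMonoidHom := by
        ext g
        simp
      rw [h1, ← Subgroup.map_map, hy1 D hD, hx1 D hD]
    · intro g
      rw [map_mul, MulAut.mul_apply, hx2, hy2]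
  inv_mem' := by
    rintro x ⟨hx1, hx2⟩
    constructor
    · intro D hD
      have h1 : ((κ x⁻¹).toMonoidHom).comp (κ x).toMonoidHom = MonoidHom.id G := by
        ext g
        simp
      calc D.map (κ x⁻¹).toMonoidHom
          = (D.map (κ x).toMonoidHom).map (κ x⁻¹).toMonoidHom := by rw [hx1 D hD]
        _ = D := by rw [Subgroup.map_map, h1, Subgroup.map_id]
    · intro g
      have h := hx2 (κ x⁻¹ g)
      rw [← h, ← MulAut.mul_apply, ← map_mul, mul_inv_cancel, map_one, MulAut.one_apply]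

/-- The image in `C` of the stabilizer, met with `L`. -/
def KL (κ : B →* MulAut G) (ρ : B →* C) (σ : Finset (Subgroup G)) (ψ : G → ℂ)
    (L : Subgroup C) : Subgroup C :=
  (Stx κ σ ψ).map ρ ⊓ L

/-- `f` is an extension of `ψ` to the stabilizer of `(σ, ψ)` in the inverse image of `L`. -/
def ExtL (ι : G →* B) (κ : B →* MulAut G) (ρ : B →* C) (σ : Finset (Subgroup G)) (ψ : G → ℂ)
    (L : Subgroup C) (f : B → ℂ) : Prop :=
  IrrOn (Stx κ σ ψ ⊓ L.comap ρ) f ∧ ∀ h, f (ι h) = ψ h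

/-- The class of the central functions of the extensions. -/
def bet (𝔐 : Ideal (integralClosure ℤ ℂ)) [Fintype B] (ι : G →* B) (κ : B →* MulAut G)
    (ρ : B →* C) (σ : Finset (Subgroup G)) (ψ : G → ℂ) (L : Subgroup C) :
    Set (B → (integralClosure ℤ ℂ) ⧸ 𝔐) :=
  {b | ∃ f, ExtL ι κ ρ σ ψ L f ∧ b = cgT 𝔐 ι.range f}

/-- A class of central functions of the type of a character of defect zero. -/
def dzT (𝔐 : Ideal (integralClosure ℤ ℂ)) (ℓ : ℕ) [Fintype G] (ι : G →* B)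
    (β : Set (B → (integralClosure ℤ ℂ) ⧸ 𝔐)) : Prop :=
  ∃ b ∈ β, ∃ θ : G → ℂ, IsIrr θ ∧ HasDefect ℓ θ 0 ∧ ∀ g, b (ι g) = cg 𝔐 θ g

open Classical in
/-- Truncation to the inverse image of `L`. -/
noncomputable def trn {A : Type*} [Zero A] (ρ : B →* C) (L : Subgroup C) (b : B → A) (x : B) : A :=
  if ρ x ∈ L then b x else 0

open Classical in
/-- The local sum: over the chains `σ` of `G` and the irreducible characters `ψ` of the
stabilizer of `σ` whose stabilizer covers `L`, with given defect and given class. -/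
noncomputable def VS (𝔐 : Ideal (integralClosure ℤ ℂ)) (ℓ : ℕ) [Fintype G] [Fintype B]
    (ι : G →* B) (κ : B →* MulAut G) (ρ : B →* C) (L : Subgroup C)
    (β : Set (B → (integralClosure ℤ ℂ) ⧸ 𝔐)) (e : ℕ) : ℚ :=
  ∑ σ ∈ Ch ℓ (⊥ : Subgroup G), (-1 : ℚ) ^ σ.card * ∑ ψ ∈ irrOn (stb σ),
    (Nat.card (stb σ) : ℚ) * (if L ≤ (Stx κ σ ψ).map ρ ∧ df ℓ (stb σ) ψ = e ∧
      bet 𝔐 ι κ ρ σ ψ L = β then 1 else 0)

end Loc

/-! ### Chains of a normal subgroup -/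

section StabR

variable {A Y K : Type*} [Group A] [Group Y] [Group K] {j : A →* Y} {c : Y →* MulAut A}
  {p : Y →* K}

/-- The stabilizer in `Y` of a chain of the normal subgroup. -/
noncomputable abbrev YS (j : A →* Y) (τ : Finset (Subgroup A)) : Subgroup Y := stb (mapCh j τ)

theorem mem_YS (h : ClG j c p) (τ : Finset (Subgroup A)) {a : A} : j a ∈ YS j τ ↔ a ∈ stb τ := by
  rw [← comap_stb_mapCh (i := j) h.inj τ, Subgroup.mem_comap]

/-- The embedding of the stabilizer in the normal subgroup. -/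
noncomputable def jS (h : ClG j c p) (τ : Finset (Subgroup A)) : stb τ →* YS j τ :=
  (j.comp (stb τ).subtype).codRestrict (YS j τ) (fun a => (mem_YS h τ).mpr a.2)

/-- The projection. -/
noncomputable def pS (p : Y →* K) (j : A →* Y) (τ : Finset (Subgroup A)) : YS j τ →* K :=
  p.comp (YS j τ).subtype

theorem mem_stb_act (h : ClG j c p) (τ : Finset (Subgroup A)) (y : YS j τ) (a : stb τ) :
    c (y : Y) (a : A) ∈ stb τ := by
  rw [← mem_YS h τ, h.act]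
  exact mul_mem (mul_mem y.2 ((mem_YS h τ).mpr a.2)) (inv_mem y.2)

/-- The action by conjugation on the stabilizer in the normal subgroup. -/
noncomputable def cS (h : ClG j c p) (τ : Finset (Subgroup A)) : YS j τ →* MulAut (stb τ) where
  toFun y :=
    { toFun := fun a => ⟨c (y : Y) (a : A), mem_stb_act h τ y a⟩
      invFun := fun a => ⟨c ((y⁻¹ : YS j τ) : Y) (a : A), mem_stb_act h τ y⁻¹ a⟩
      left_inv := by
        intro a
        apply Subtype.ext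
        change c ((y⁻¹ : YS j τ) : Y) (c (y : Y) (a : A)) = a
        rw [← MulAut.mul_apply, ← map_mul]
        simp
      right_inv := by
        intro a
        apply Subtype.ext
        change c (y : Y) (c ((y⁻¹ : YS j τ) : Y) (a : A)) = a
        rw [← MulAut.mul_apply, ← map_mul]
        simp
      map_mul' := by
        intro a b
        apply Subtype.ext
        change c (y : Y) ((a * b : stb τ) : A) = c (y : Y) (a : A) * c (y : Y) (b : A)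
        simp }
  map_one' := by
    ext a
    simp
  map_mul' := by
    intro x y
    ext a
    simp

theorem cS_apply (h : ClG j c p) (τ : Finset (Subgroup A)) (y : YS j τ) (a : stb τ) :
    (cS h τ y a : A) = c (y : Y) (a : A) := rfl

theorem clG_S (h : ClG j c p) (τ : Finset (Subgroup A)) : ClG (jS h τ) (cS h τ) (pS p j τ) where
  inj := by
    intro a b hab
    apply Subtype.ext
    apply h.inj
    exact congrArg Subtype.val hab
  act := by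
    intro y a
    apply Subtype.ext
    exact h.act (y : Y) (a : A)
  ker := by
    intro y
    constructor
    · intro hy
      obtain ⟨a, ha⟩ := (h.ker (y : Y)).mp hy
      refine ⟨⟨a, (mem_YS h τ).mp (by rw [ha]; exact y.2)⟩, ?_⟩
      apply Subtype.ext
      exact ha
    · rintro ⟨a, rfl⟩
      exact (h.ker (j (a : A))).mpr ⟨a, rfl⟩

end StabR

/-! ### Extensions of powers -/

section Glob

variable {O G B C Y K X : Type*} [Group G] [Group B] [Group C] [Group Y] [Group K] [Group X]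

/-- The action of `B ≀ Sym(O)` on `G ^ O`: `(y n)(o) = κ(y_o)(n(y⁻¹ o))`. -/
def wB (κ : B →* MulAut G) (O : Type*) : Gam (Equiv.Perm O) O B →* MulAut (O → G) where
  toFun y :=
    { toFun := fun n o => κ (y.left o) (n (y.right⁻¹ • o))
      invFun := fun n o => κ (y⁻¹.left o) (n (y⁻¹.right⁻¹ • o))
      left_inv := by
        intro n
        ext o
        simp only [SemidirectProduct.inv_left, SemidirectProduct.inv_right, inv_inv]
        change κ ((y.left (y.right⁻¹⁻¹ • o))⁻¹) (κ (y.left (y.right • o))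
          (n (y.right⁻¹ • y.right • o))) = n o
        rw [← MulAut.mul_apply, ← map_mul, inv_inv, inv_mul_cancel, map_one, inv_smul_smul,
          MulAut.one_apply]
      right_inv := by
        intro n
        ext o
        simp only [SemidirectProduct.inv_left, SemidirectProduct.inv_right, inv_inv]
        change κ (y.left o) (κ ((y.left (y.right⁻¹⁻¹ • y.right⁻¹ • o))⁻¹)
          (n (y.right • y.right⁻¹ • o))) = n o
        rw [← MulAut.mul_apply, ← map_mul, inv_inv, smul_inv_smul, mul_inv_cancel, map_one,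
          MulAut.one_apply]
      map_mul' := by
        intro a b
        ext o
        simp }
  map_one' := by
    ext n o
    simp
  map_mul' := by
    intro x y
    ext n o
    change κ (x.left o * y.left (x.right⁻¹ • o)) (n ((x.right * y.right)⁻¹ • o)) =
      κ (x.left o) (κ (y.left (x.right⁻¹ • o)) (n (y.right⁻¹ • x.right⁻¹ • o)))
    rw [map_mul, MulAut.mul_apply, mul_inv_rev, mul_smul]

theorem wB_apply (κ : B →* MulAut G) (y : Gam (Equiv.Perm O) O B) (n : O → G) (o : O) :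
    wB κ O y n o = κ (y.left o) (n (y.right⁻¹ • o)) := rfl

/-- `Y` has the normal subgroup `G ^ O`, embedded by `j`, on which it acts through
`φ : Y → B ≀ Sym(O)`; the quotient is `K`. -/
structure ExtS (ι : G →* B) (κ : B →* MulAut G) (j : (O → G) →* Y) (p : Y →* K)
    (φ : Y →* Gam (Equiv.Perm O) O B) : Prop where
  cl : ClG j ((wB κ O).comp φ) p
  surj : Function.Surjective p
  jn : ∀ n : O → G, φ (j n) = SemidirectProduct.inl (fun o => ι (n o))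

/-- `g` transports the data (chain and character) at the coordinate `a` to those at `b`. -/
def trB (κ : B →* MulAut G) (τ : Finset (Subgroup (O → G))) (θ : O → G → ℂ) (a b : O)
    (g : B) : Prop :=
  (∀ D ∈ τ, (prj a D).map (κ g).toMonoidHom = prj b D) ∧ ∀ x, θ b (κ g x) = θ a x

theorem trB.mul {κ : B →* MulAut G} {τ : Finset (Subgroup (O → G))} {θ : O → G → ℂ} {a b c : O}
    {g g' : B} (h' : trB κ τ θ b c g') (h : trB κ τ θ a b g) : trB κ τ θ a c (g' * g) := by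
  constructor
  · intro D hD
    rw [← h'.1 D hD, ← h.1 D hD, Subgroup.map_map]
    congr 1
    ext x
    simp
  · intro x
    rw [map_mul, MulAut.mul_apply, h'.2, h.2]

theorem trB.inv {κ : B →* MulAut G} {τ : Finset (Subgroup (O → G))} {θ : O → G → ℂ} {a b : O}
    {g : B} (h : trB κ τ θ a b g) : trB κ τ θ b a g⁻¹ := by
  constructor
  · intro D hD
    rw [← h.1 D hD, Subgroup.map_map]
    have h1 : ((κ g⁻¹).toMonoidHom).comp (κ g).toMonoidHom = MonoidHom.id G := by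
      ext x
      simp
    rw [h1, Subgroup.map_id]
  · intro x
    rw [← h.2, ← MulAut.mul_apply, ← map_mul, mul_inv_cancel, map_one, MulAut.one_apply]

theorem trB.one (κ : B →* MulAut G) (τ : Finset (Subgroup (O → G))) (θ : O → G → ℂ) (a : O) :
    trB κ τ θ a a 1 := by
  constructor
  · intro D _
    rw [map_one]
    exact Subgroup.map_id _
  · intro x
    rw [map_one, MulAut.one_apply]

/-- The stabilizer in `Y` of the data `(τ, θ)`. -/
def InY (κ : B →* MulAut G) (φ : Y →* Gam (Equiv.Perm O) O B) (τ : Finset (Subgroup (O → G)))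
    (θ : O → G → ℂ) : Subgroup Y where
  carrier := {y | ∀ o, trB κ τ θ ((φ y).right⁻¹ • o) o ((φ y).left o)}
  one_mem' := by
    intro o
    rw [map_one]
    exact trB.one κ τ θ o
  mul_mem' := by
    intro x y hx hy o
    rw [map_mul]
    change trB κ τ θ (((φ x).right * (φ y).right)⁻¹ • o) o
      ((φ x).left o * (φ y).left ((φ x).right⁻¹ • o))
    rw [mul_inv_rev, mul_smul]
    exact (hx o).mul (hy _)
  inv_mem' := by
    intro x hx o
    rw [map_inv]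
    change trB κ τ θ ((φ x).right⁻¹⁻¹ • o) o ((φ x).left ((φ x).right⁻¹⁻¹ • o))⁻¹
    have h := (hx ((φ x).right⁻¹⁻¹ • o)).inv
    rw [inv_inv, inv_smul_smul] at h
    rw [inv_inv]
    exact h

/-- The image in `K` of the stabilizer of the data. -/
def KB (κ : B →* MulAut G) (p : Y →* K) (φ : Y →* Gam (Equiv.Perm O) O B)
    (τ : Finset (Subgroup (O → G))) (θ : O → G → ℂ) : Subgroup K :=
  (InY κ φ τ θ).map p

/-- The vertex group at `o` of a subgroup of `K`. -/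
def vg (ρ : B →* C) (p : Y →* K) (φ : Y →* Gam (Equiv.Perm O) O B) (J : Subgroup K) (o : O) :
    Subgroup C where
  carrier := {c | ∃ y, p y ∈ J ∧ (φ y).right • o = o ∧ ρ ((φ y).left o) = c}
  one_mem' := ⟨1, by simp [J.one_mem]⟩
  mul_mem' := by
    rintro _ _ ⟨x, hx1, hx2, rfl⟩ ⟨y, hy1, hy2, rfl⟩
    refine ⟨x * y, ?_, ?_, ?_⟩
    · rw [map_mul]
      exact J.mul_mem hx1 hy1
    · rw [map_mul, SemidirectProduct.mul_right, mul_smul, hy2, hx2]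
    · rw [map_mul]
      change ρ ((φ x).left o * (φ y).left ((φ x).right⁻¹ • o)) = _
      have h : (φ x).right⁻¹ • o = o := by
        rw [inv_smul_eq_iff, hx2]
      rw [h, map_mul]
  inv_mem' := by
    rintro _ ⟨x, hx1, hx2, rfl⟩
    refine ⟨x⁻¹, ?_, ?_, ?_⟩
    · rw [map_inv]
      exact J.inv_mem hx1
    · rw [map_inv, SemidirectProduct.inv_right, inv_smul_eq_iff, hx2]
    · rw [map_inv]
      change ρ (((φ x).left ((φ x).right⁻¹⁻¹ • o))⁻¹) = _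
      rw [inv_inv, hx2, map_inv]

/-- The classes of the data at all coordinates, for a subgroup `J` of `K`. -/
def bts (𝔐 : Ideal (integralClosure ℤ ℂ)) [Fintype B] (ι : G →* B) (κ : B →* MulAut G)
    (ρ : B →* C) (p : Y →* K) (φ : Y →* Gam (Equiv.Perm O) O B) [DecidableEq O] [Fintype O]
    (τ : Finset (Subgroup (O → G))) (θ : O → G → ℂ) (J : Subgroup K) (o : O) :
    Set (B → (integralClosure ℤ ℂ) ⧸ 𝔐) :=
  bet 𝔐 ι κ ρ (comp τ o) (θ o) (vg ρ p φ J o)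

/-- Representatives of the orbits of `J` on the coordinates, and transporting elements. -/
structure RepJ (p : Y →* K) (φ : Y →* Gam (Equiv.Perm O) O B) (J : Subgroup K) (r : O → O)
    (t : O → Y) : Prop where
  mem : ∀ o, p (t o) ∈ J
  map : ∀ o, (φ (t o)).right • r o = o
  con : ∀ y, p y ∈ J → ∀ o, r ((φ y).right • o) = r o
  one : ∀ o, r o = o → t o = 1

/-- The left components of an element, standardized by `g`. -/
def zz (φ : Y →* Gam (Equiv.Perm O) O B) (g : O → B) (y : Y) (o : O) : B :=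
  (g o)⁻¹ * (φ y).left o * g ((φ y).right⁻¹ • o)

/-- Standard data for a subgroup `J` of `K`. -/
structure SDR (ℓ : ℕ) (ι : G →* B) (ρ : B →* C) (p : Y →* K)
    (φ : Y →* Gam (Equiv.Perm O) O B) (J : Subgroup K) (g : O → B) (S : O → Subgroup B)
    (θ : O → B → ℂ) (m : O → ℕ) (M : O → B → ℕ → ℕ → ℂ) : Prop where
  cS : ∀ y, p y ∈ J → ∀ o, S ((φ y).right • o) = S o
  cθ : ∀ y, p y ∈ J → ∀ o, θ ((φ y).right • o) = θ o
  cm : ∀ y, p y ∈ J → ∀ o, m ((φ y).right • o) = m o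
  cM : ∀ y, p y ∈ J → ∀ o, M ((φ y).right • o) = M o
  irr : ∀ o, IrrOn (S o) (θ o)
  res : ∀ o, IrrOn ((S o).comap ι) (fun h => θ o (ι h))
  md : ∀ o, MD (S o) (θ o) (m o) (M o)
  dz : ∀ o, df ℓ ((S o).comap ι) (fun h => θ o (ι h)) = 0 → (S o).comap ι = ⊤
  img : ∀ o, (S o).map ρ = vg ρ p φ J o
  adp : ∀ y, p y ∈ J → ∀ o, ρ (zz φ g y o) ∈ (S o).map ρ

open Classical in
/-- The weighted sum over the elements of `Y` above `k`. -/
noncomputable def AS [Fintype Y] [Fintype O] [DecidableEq O] (p : Y →* K)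
    (φ : Y →* Gam (Equiv.Perm O) O B) (g : O → B) (S : O → Subgroup B) (θ : O → B → ℂ)
    (m : O → ℕ) (M : O → B → ℕ → ℕ → ℂ) (k : K) (F : Y → ℂ) : ℂ :=
  (∑ y : Y, if p y = k ∧ ∀ o, zz φ g y o ∈ S o then F y * TH m M (φ y).right (zz φ g y) else 0) /
    ∏ o, θ o 1

/-- The number of characters of `J`, times its order. -/
noncomputable def NNR [Fintype Y] [Fintype O] [DecidableEq O] [Finite K]
    (𝔐 : Ideal (integralClosure ℤ ℂ)) (ℓ d : ℕ)
    (i : Y →* X) (ω : X → (integralClosure ℤ ℂ) ⧸ 𝔐) (p : Y →* K)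
    (φ : Y →* Gam (Equiv.Perm O) O B) (J : Subgroup K) (e : ℕ) (g : O → B)
    (S : O → Subgroup B) (θ : O → B → ℂ) (m : O → ℕ) (M : O → B → ℕ → ℕ → ℂ) : ℚ :=
  Nat.card J * Nat.card {η : J → ℂ // IsIrr η ∧ (∃ d', HasDefect ℓ η d' ∧ e + d' = d) ∧
    ∀ x, red 𝔐 (wt η (fun k => AS p φ g S θ m M (k : K) (fun y => conjInd (i y) x))) = ω x}

end Glob

end Pool.Agent.DP


end

section

/-!
# Dade's conjecture for `G ^ Ω ⋊ R`: statements of the modules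
-/

namespace Pool.Agent.DP

open Pool.Agent.Lib_helper13 Representation
open Pool.Agent.Lib_helper13.Dade (pCore DadeHolds)

/-! ### Group theory of chains -/

/-- SPLIT: an alternating sum over chains is a sum over the chains meeting `N` trivially of sums
over chains of centralizers. -/
def Stmt_SPLIT : Prop :=
  ∀ (X : Type) [Group X] [Fintype X] (ℓ : ℕ) [Fact ℓ.Prime] (Z N : Subgroup X) [Z.Normal]
    [N.Normal], IsPGroup ℓ Z → Z ⊓ N = ⊥ → ∀ W : Subgroup X → ℚ,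
    ∑ σ ∈ Ch ℓ Z, (-1 : ℚ) ^ σ.card * W (stb σ) =
      ∑ c ∈ OutC ℓ Z N, (-1 : ℚ) ^ c.card * innerS ℓ Z N W c

/-- CORE: the inner sum vanishes if the centralizer has a normal `ℓ`-subgroup. -/
def Stmt_CORE : Prop :=
  ∀ (X : Type) [Group X] [Fintype X] (ℓ : ℕ) [Fact ℓ.Prime] (Z N : Subgroup X) [Z.Normal]
    [N.Normal] (W : Subgroup X → ℚ) (c : Finset (Subgroup X)), IsCh ℓ Z c →
    pCore ℓ (cN N (tp Z c)) ≠ ⊥ → innerS ℓ Z N W c = 0

/-- COMPL: a complement up to conjugation. -/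
def Stmt_COMPL : Prop :=
  ∀ (R Ω G : Type) [Group R] [Finite R] [MulAction R Ω] [Finite Ω] [Group G] [Finite G] (ℓ : ℕ)
    [Fact ℓ.Prime] (Q : Subgroup (Gam R Ω G)), IsPGroup ℓ Q → Q ⊓ (iN R Ω G).range = ⊥ →
    pCore ℓ (cN (iN R Ω G).range Q) = ⊥ →
    ∃ n : Ω → G, Q.map (MulAut.conj (iN R Ω G n)).toMonoidHom ≤ (iR R Ω G).range

/-- CONJ: the inner sum is invariant under conjugation. -/
def Stmt_CONJ : Prop :=
  ∀ (X : Type) [Group X] [Fintype X] (ℓ : ℕ) (Z N : Subgroup X) [Z.Normal] [N.Normal]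
    (W : Subgroup X → ℚ), (∀ (g : X) (S : Subgroup X), W (S.map (MulAut.conj g).toMonoidHom) = W S)
    → ∀ (c : Finset (Subgroup X)) (g : X),
    innerS ℓ Z N W (mapCh (MulAut.conj g).toMonoidHom c) = innerS ℓ Z N W c

/-- INNER: the inner sum of a chain of the complement. -/
def Stmt_INNER : Prop :=
  ∀ (R Ω G : Type) [Group R] [Finite R] [MulAction R Ω] [Finite Ω] [Group G] [Fintype G] (ℓ : ℕ)
    [Fact ℓ.Prime] (Z' : Subgroup R) [Z'.Normal], IsPGroup ℓ Z' →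
    (∀ z ∈ Z', ∀ w : Ω, z • w = w) → ∀ c : Finset (Subgroup R), IsCh ℓ Z' c →
    ∃ (K O : Type) (_ : Group K) (_ : Finite K) (_ : Fintype O) (_ : DecidableEq O)
      (_ : MulAction K O) (i : Gam K O G →* Gam R Ω G) (π : Ω → O),
      Function.Injective i ∧ Function.Surjective π ∧
      (∀ o, ∃ k, Nat.card {w : Ω // π w = o} = ℓ ^ k) ∧
      (∀ n : O → G, i (iN K O G n) = iN R Ω G (fun w => n (π w))) ∧
      (∀ x, (i x).right = 1 → x.right = 1) ∧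
      ∀ W : Subgroup (Gam R Ω G) → ℚ,
        innerS ℓ (Z'.map (iR R Ω G)) (iN R Ω G).range W (mapCh (iR R Ω G) c) =
          ∑ τ ∈ Ch ℓ (⊥ : Subgroup (O → G)), (-1 : ℚ) ^ τ.card * W ((YT K τ).map i)

/-- CLOSED: restriction to chains of product subgroups. -/
def Stmt_CLOSED : Prop :=
  ∀ (K O G : Type) [Group K] [Finite K] [MulAction K O] [Fintype O] [DecidableEq O] [Group G]
    [Fintype G] (ℓ : ℕ) (W : Subgroup (Gam K O G) → ℚ),
    ∑ τ ∈ Ch ℓ (⊥ : Subgroup (O → G)), (-1 : ℚ) ^ τ.card * W (YT K τ) =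
      ∑ τ ∈ ClCh O G ℓ, (-1 : ℚ) ^ τ.card * W (YT K τ)

/-- ZR: `O_ℓ(G ^ Ω ⋊ R)`. -/
def Stmt_ZR : Prop :=
  ∀ (R Ω G : Type) [Group R] [Finite R] [MulAction R Ω] [Finite Ω] [Group G] [Finite G] (ℓ : ℕ)
    [Fact ℓ.Prime], pCore ℓ G = ⊥ → Nontrivial G →
    ∃ Z' : Subgroup R, Z'.Normal ∧ IsPGroup ℓ Z' ∧ (∀ z ∈ Z', ∀ w : Ω, z • w = w) ∧
      pCore ℓ (Gam R Ω G) = Z'.map (iR R Ω G)

/-- DZT: a chain whose stabilizer has a character of defect zero is empty. -/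
def Stmt_DZT : Prop :=
  ∀ (G : Type) [Group G] [Fintype G] (ℓ : ℕ) [Fact ℓ.Prime] (σ : Finset (Subgroup G)),
    IsCh ℓ ⊥ σ → ∀ ψ : stb σ → ℂ, IsIrr ψ → HasDefect ℓ ψ 0 → σ = ∅

/-- NODZ: if Dade's conjecture holds, only characters of defect zero contribute. -/
def Stmt_NODZ : Prop :=
  ∀ (G : Type) [Group G] [Fintype G] (𝔐 : Ideal (integralClosure ℤ ℂ)) (ℓ : ℕ) [Fact ℓ.Prime],
    𝔐.IsMaximal → (ℓ : integralClosure ℤ ℂ) ∈ 𝔐 → pCore ℓ G = ⊥ → DadeHolds ℓ G →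
    ∀ (d : ℕ) (b : G → (integralClosure ℤ ℂ) ⧸ 𝔐), KK 𝔐 ℓ d (⊥ : Subgroup G) b ≠ 0 →
      ∃ χ : G → ℂ, IsIrr χ ∧ HasDefect ℓ χ 0 ∧ cen 𝔐 (MonoidHom.id G) χ = b

/-! ### Clifford theory -/

/-- IND: elementary properties of induced functions. -/
def Stmt_IND : Prop :=
  ∀ (Y : Type) [Group Y] [Fintype Y] (S : Subgroup Y) (ψ : S → ℂ),
    (indc S ψ 1 * Nat.card S = Nat.card Y * ψ 1) ∧
    (∀ g x, indc S ψ (g * x * g⁻¹) = indc S ψ x) ∧
    (∀ χ : Y → ℂ, (∀ g x, χ (g * x * g⁻¹) = χ x) →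
      ip (indc S ψ) χ = ip ψ (fun s : S => χ s)) ∧
    (ψ 1 ≠ 0 → ∀ f : Y → ℂ, (∀ g x, f (g * x * g⁻¹) = f x) →
      wt (indc S ψ) f = wt ψ (fun s : S => f s))

/-- SUMM: multiplicities for a normal subgroup. -/
def Stmt_SUMM : Prop :=
  ∀ (A Y K : Type) [Group A] [Fintype A] [Group Y] [Fintype Y] [Group K]
    (j : A →* Y) (c : Y →* MulAut A) (p : Y →* K), ClG j c p →
    (∀ θ θ' : A → ℂ, IsIrr θ → IsIrr θ' →
      (Nat.card A : ℂ) * ∑ χ ∈ irrF Y, ip (resj j χ) θ * ip (resj j χ) θ' =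
        (Nat.card {y : Y // ∀ a, θ (c y a) = θ' a} : ℂ)) ∧
    (∀ (θ θ' : A → ℂ) (χ : Y → ℂ), IsIrr θ → IsIrr θ' → IsIrr χ → ip (resj j χ) θ ≠ 0 →
      ip (resj j χ) θ' ≠ 0 → ∃ y, ∀ a, θ (c y a) = θ' a) ∧
    (∀ (θ : A → ℂ) (χ : Y → ℂ) (y : Y), IsIrr χ →
      ip (resj j χ) (fun a => θ (c y a)) = ip (resj j χ) θ) ∧
    (∀ (θ : A → ℂ) (χ f : Y → ℂ), IsIrr θ → IsIrr χ → ip (resj j χ) θ ≠ 0 →
      (∀ g x, f (g * x * g⁻¹) = f x) → (∀ y, y ∉ j.range → f y = 0) →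
      wt χ f = wt θ (fun a => f (j a)))

/-- COSET: the norm of an extension on a coset. -/
def Stmt_COSET : Prop :=
  ∀ (A Y K : Type) [Group A] [Fintype A] [Group Y] [Fintype Y] [Group K]
    (j : A →* Y) (c : Y →* MulAut A) (p : Y →* K), ClG j c p →
    ∀ (θ : A → ℂ) (E : Y → ℂ), IsIrr θ → IsChr E → (∀ a, E (j a) = θ a) →
    ∀ y, ∑ a, E (y * j a) * E (y * j a)⁻¹ = (Nat.card A : ℂ)

/-- GALL: characters over an extendible character. -/
def Stmt_GALL : Prop :=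
  ∀ (A Y L : Type) [Group A] [Fintype A] [Group Y] [Fintype Y] [Group L] [Fintype L]
    (j : A →* Y) (c : Y →* MulAut A) (q : Y →* L), ClG j c q → Function.Surjective q →
    ∀ (θ : A → ℂ) (E : Y → ℂ), IsIrr θ → IsChr E → (∀ a, E (j a) = θ a) →
    (∀ η : L → ℂ, IsIrr η → IsIrr (fun y => E y * η (q y)) ∧
      ip (resj j (fun y => E y * η (q y))) θ ≠ 0) ∧
    (∀ η η' : L → ℂ, IsIrr η → IsIrr η' →
      (fun y => E y * η (q y)) = (fun y => E y * η' (q y)) → η = η') ∧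
    (∀ ψ : Y → ℂ, IsIrr ψ → ip (resj j ψ) θ ≠ 0 →
      ∃ η : L → ℂ, IsIrr η ∧ ψ = fun y => E y * η (q y))

/-- CCOR: the Clifford correspondence. -/
def Stmt_CCOR : Prop :=
  ∀ (A Y K : Type) [Group A] [Fintype A] [Group Y] [Fintype Y] [Group K]
    (j : A →* Y) (c : Y →* MulAut A) (p : Y →* K), ClG j c p → ∀ θ : A → ℂ, IsIrr θ →
    (∀ ψ : inert c θ → ℂ, IsIrr ψ → ip (fun a => ext0 ψ (j a)) θ ≠ 0 →
      IsIrr (indc (inert c θ) ψ) ∧ ip (resj j (indc (inert c θ) ψ)) θ ≠ 0) ∧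
    (∀ ψ ψ' : inert c θ → ℂ, IsIrr ψ → IsIrr ψ' → ip (fun a => ext0 ψ (j a)) θ ≠ 0 →
      ip (fun a => ext0 ψ' (j a)) θ ≠ 0 → indc (inert c θ) ψ = indc (inert c θ) ψ' → ψ = ψ') ∧
    (∀ χ : Y → ℂ, IsIrr χ → ip (resj j χ) θ ≠ 0 → ∃ ψ : inert c θ → ℂ, IsIrr ψ ∧
      ip (fun a => ext0 ψ (j a)) θ ≠ 0 ∧ indc (inert c θ) ψ = χ)

/-- CLG: counting characters when all characters extend to their inertia groups. -/
def Stmt_CLG : Prop :=
  ∀ (A Y K : Type) [Group A] [Fintype A] [Group Y] [Fintype Y] [Group K] [Finite K]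
    (j : A →* Y) (c : Y →* MulAut A) (p : Y →* K), ClG j c p →
    ∀ (L : (A → ℂ) → Subgroup K) (E : ∀ θ : A → ℂ, inert c θ → ℂ),
    (∀ θ, IsIrr θ → (inert c θ).map p = L θ ∧ IsChr (E θ) ∧
      ∀ a (ha : j a ∈ inert c θ), E θ ⟨j a, ha⟩ = θ a) →
    (∀ θ, IsIrr θ → ∀ η : L θ → ℂ, IsIrr η →
      IsIrr (indc (inert c θ) (fun s => E θ s * ext0 η (p s))) ∧
      ip (resj j (indc (inert c θ) (fun s => E θ s * ext0 η (p s)))) θ ≠ 0) ∧
    ∀ P : (Y → ℂ) → Prop,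
      (Nat.card Y : ℚ) * Nat.card {χ : Y → ℂ // IsIrr χ ∧ P χ} =
        ∑ θ ∈ irrF A, (Nat.card (inert c θ) : ℚ) * Nat.card {η : L θ → ℂ // IsIrr η ∧
          P (indc (inert c θ) (fun s => E θ s * ext0 η (p s)))}

/-- IRRPI: irreducible characters of a product subgroup. -/
def Stmt_IRRPI : Prop :=
  ∀ (O G : Type) [Fintype O] [DecidableEq O] [Group G] [Fintype G] (S : O → Subgroup G)
    (A : Subgroup (O → G)), A = pK S →
    (∀ θ : O → G → ℂ, (∀ o, IrrOn (S o) (θ o)) →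
      IsIrr (fun a : A => ∏ o, θ o ((a : O → G) o))) ∧
    (∀ θ θ' : O → G → ℂ, (∀ o, IrrOn (S o) (θ o)) → (∀ o, IrrOn (S o) (θ' o)) →
      (∀ a : A, ∏ o, θ o ((a : O → G) o) = ∏ o, θ' o ((a : O → G) o)) → θ = θ') ∧
    ∀ H : (A → ℂ) → ℚ, ∑ θ ∈ irrF A, H θ =
      ∑ θ ∈ Fintype.piFinset (fun o => irrOn (S o)), H (fun a => ∏ o, θ o ((a : O → G) o))

/-! ### The extension -/

/-- TENS: matrices, and the extension of an outer product of characters. -/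
def Stmt_TENS : Prop :=
  (∀ (G : Type) [Group G] [Fintype G] (S : Subgroup G) (θ : G → ℂ), IrrOn S θ →
    ∃ m M, MD S θ m M) ∧
  ∀ (L O G : Type) [Group L] [Finite L] [MulAction L O] [Fintype O] [DecidableEq O] [Group G]
    [Fintype G] (S : O → Subgroup G) (hS : ∀ (l : L) o, S (l • o) = S o) (θ : O → G → ℂ)
    (m : O → ℕ) (M : O → G → ℕ → ℕ → ℂ), (∀ (l : L) o, m (l • o) = m o) →
    (∀ (l : L) o, M (l • o) = M o) → (∀ o, MD (S o) (θ o) (m o) (M o)) →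
    IsChr (fun y : stdS (L := L) S hS =>
      TH m M (MulAction.toPerm (y : Gam L O G).right) (y : Gam L O G).left) ∧
    ∀ n : O → G, (∀ o, n o ∈ S o) → TH m M 1 n = ∏ o, θ o (n o)

/-- AAK: the key identity. -/
def Stmt_AAK : Prop :=
  ∀ (O G : Type) [Fintype O] [DecidableEq O] [Group G] [Fintype G] (k : Equiv.Perm O)
    (S : O → Subgroup G) (θ : O → G → ℂ) (m : O → ℕ) (M : O → G → ℕ → ℕ → ℂ),
    (∀ o, S (k o) = S o) → (∀ o, m (k o) = m o) → (∀ o, M (k o) = M o) →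
    (∀ o, MD (S o) (θ o) (m o) (M o)) → (∀ o, θ o 1 ≠ 0) →
    ∀ F : (O → G) → ℂ, (∀ x n : O → G, F (fun o => x o * n o * (x (k⁻¹ o))⁻¹) = F n) →
    ∀ (o : O) (k' : Equiv.Perm O), k o ≠ o → k' = Equiv.swap o (k o) * k →
    ∀ F' : (O → G) → ℂ, (∀ n, n o = 1 → F' n = F n) → (∀ n, n o ≠ 1 → F' n = 0) →
      (∀ x n : O → G, F' (fun a => x a * n a * (x (k'⁻¹ a))⁻¹) = F' n) ∧
      aS S θ m M k F = (Nat.card (S o) : ℂ) / θ o 1 * aS S θ m M k' F'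

/-- AA: modulo `𝔐` the weighted sum depends only on the central functions. -/
def Stmt_AA : Prop :=
  ∀ (O G : Type) [Fintype O] [DecidableEq O] [Group G] [Fintype G]
    (𝔐 : Ideal (integralClosure ℤ ℂ)) (ℓ : ℕ) [Fact ℓ.Prime], 𝔐.IsMaximal →
    (ℓ : integralClosure ℤ ℂ) ∈ 𝔐 → ∀ (k : Equiv.Perm O)
    (S S' : O → Subgroup G) (θ θ' : O → G → ℂ) (m m' : O → ℕ) (M M' : O → G → ℕ → ℕ → ℂ),
    (∀ o, S (k o) = S o) → (∀ o, θ (k o) = θ o) → (∀ o, m (k o) = m o) →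
    (∀ o, M (k o) = M o) → (∀ o, S' (k o) = S' o) → (∀ o, θ' (k o) = θ' o) →
    (∀ o, m' (k o) = m' o) → (∀ o, M' (k o) = M' o) →
    (∀ o, IrrOn (S o) (θ o)) → (∀ o, IrrOn (S' o) (θ' o)) →
    (∀ o, MD (S o) (θ o) (m o) (M o)) → (∀ o, MD (S' o) (θ' o) (m' o) (M' o)) →
    (∀ o, df ℓ (S o) (θ o) = 0 → S o = ⊤) → (∀ o, df ℓ (S' o) (θ' o) = 0 → S' o = ⊤) →
    (∀ o, cg 𝔐 (θ o) = cg 𝔐 (θ' o)) →
    ∀ F : (O → G) → ℂ, (∀ x n : O → G, F (fun o => x o * n o * (x (k⁻¹ o))⁻¹) = F n) →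
    (∀ n, IsIntegral ℤ (F n)) →
      IsIntegral ℤ (aS S θ m M k F) ∧ IsIntegral ℤ (aS S' θ' m' M' k F) ∧
      red 𝔐 (aS S θ m M k F) = red 𝔐 (aS S' θ' m' M' k F)

/-- AACL: the weighted sums of a class function form a class function. -/
def Stmt_AACL : Prop :=
  ∀ (K O G : Type) [Group K] [Finite K] [MulAction K O] [Fintype O] [DecidableEq O] [Group G]
    [Fintype G] (S : O → Subgroup G) (θ : O → G → ℂ) (m : O → ℕ) (M : O → G → ℕ → ℕ → ℂ)
    (l k : K), (∀ o, S (l • o) = S o) → (∀ o, m (l • o) = m o) → (∀ o, M (l • o) = M o) →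
    ∀ F : Gam K O G → ℂ, (∀ g x, F (g * x * g⁻¹) = F x) →
      aS S θ m M (MulAction.toPerm (l * k * l⁻¹)) (fun n => F ⟨n, l * k * l⁻¹⟩) =
        aS S θ m M (MulAction.toPerm k) (fun n => F ⟨n, k⟩)

/-- MIND: the count depends only on the central functions. -/
def Stmt_MIND : Prop :=
  ∀ (K O G X : Type) [Group K] [Finite K] [MulAction K O] [Fintype O] [DecidableEq O] [Group G]
    [Fintype G] [Group X] (𝔐 : Ideal (integralClosure ℤ ℂ)) (ℓ : ℕ) [Fact ℓ.Prime],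
    𝔐.IsMaximal → (ℓ : integralClosure ℤ ℂ) ∈ 𝔐 → ∀ (d e : ℕ) (i : Gam K O G →* X)
    (ω : X → (integralClosure ℤ ℂ) ⧸ 𝔐) (π : Setoid O) (b : O → G → (integralClosure ℤ ℂ) ⧸ 𝔐)
    (S S' : O → Subgroup G) (θ θ' : O → G → ℂ) (m m' : O → ℕ) (M M' : O → G → ℕ → ℕ → ℂ),
    SD 𝔐 ℓ π b S θ m M → SD 𝔐 ℓ π b S' θ' m' M' →
      NN 𝔐 ℓ d i ω π e S θ m M = NN 𝔐 ℓ d i ω π e S' θ' m' M'

/-- TRC: transporters. -/
def Stmt_TRC : Prop :=
  ∀ (O G : Type) [Fintype O] [DecidableEq O] [Group G] [Fintype G]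
    (τ : Finset (Subgroup (O → G))) (θ : O → G → ℂ), (∀ o, IrrOn (stb (comp τ o)) (θ o)) →
    (∀ o g, trP τ θ o o g ↔ g ∈ stb (comp τ o)) ∧
    (∀ a b g, trP τ θ a b g →
      (stb (comp τ a)).map (MulAut.conj g).toMonoidHom = stb (comp τ b)) ∧
    (∀ a b, prt τ θ a b → Nat.card (stb (comp τ a)) = Nat.card (stb (comp τ b)) ∧
      Nat.card {g : G // trP τ θ a b g} = Nat.card (stb (comp τ b)))

/-- PER1: the inertia group. -/
def Stmt_PERA : Prop :=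
  ∀ (K O G : Type) [Group K] [Finite K] [MulAction K O] [Fintype O] [DecidableEq O] [Group G]
    [Fintype G] (ℓ : ℕ) (τ : Finset (Subgroup (O → G))) (θ : O → G → ℂ), τ ∈ ClCh O G ℓ →
    (∀ o, IrrOn (stb (comp τ o)) (θ o)) →
    (∀ y : YT K τ, y ∈ inert (cT K τ) (fun a => ∏ o, θ o ((a : O → G) o)) ↔
      ∀ o, trP τ θ ((y : Gam K O G).right⁻¹ • o) o ((y : Gam K O G).left o)) ∧
    (inert (cT K τ) (fun a => ∏ o, θ o ((a : O → G) o))).map (pT K τ) = Kp K (prt τ θ) ∧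
    Nat.card (inert (cT K τ) (fun a => ∏ o, θ o ((a : O → G) o))) =
      Nat.card (Kp K (prt τ θ)) * ∏ o, Nat.card (stb (comp τ o)) ∧
    ∀ y : Gam K O G,
      (∀ o, trP τ θ (y.right⁻¹ • o) o (y.left o)) → y ∈ YT K τ ∧ y.right ∈ Kp K (prt τ θ)

/-- PERB: standardization. -/
def Stmt_PERB : Prop :=
  ∀ (O G : Type) [Fintype O] [DecidableEq O] [Group G]
    [Fintype G] (𝔐 : Ideal (integralClosure ℤ ℂ)) (ℓ : ℕ) [Fact ℓ.Prime]
    (τ : Finset (Subgroup (O → G))) (θ : O → G → ℂ), τ ∈ ClCh O G ℓ →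
    (∀ o, IrrOn (stb (comp τ o)) (θ o)) →
    ∃ (g : O → G) (S' : O → Subgroup G) (θ' : O → G → ℂ) (m : O → ℕ) (M : O → G → ℕ → ℕ → ℂ),
      SD 𝔐 ℓ (prt τ θ) (fun o => cg 𝔐 (θ o)) S' θ' m M ∧
      (∀ o, S' o = (stb (comp τ o)).map (MulAut.conj (g o)⁻¹).toMonoidHom) ∧
      (∀ o x, θ' o x = θ o (g o * x * (g o)⁻¹)) ∧
      ∀ a b x, prt τ θ a b → (trP τ θ a b x ↔ (g b)⁻¹ * x * g a ∈ S' b)

/-- PERC: the extension to the inertia group, in terms of standard data. -/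
def Stmt_PERC : Prop :=
  ∀ (K O G : Type) [Group K] [Finite K] [MulAction K O] [Fintype O] [DecidableEq O] [Group G]
    [Fintype G] (𝔐 : Ideal (integralClosure ℤ ℂ)) (ℓ : ℕ) [Fact ℓ.Prime]
    (τ : Finset (Subgroup (O → G))) (θ : O → G → ℂ), τ ∈ ClCh O G ℓ →
    (∀ o, IrrOn (stb (comp τ o)) (θ o)) →
    ∃ (S' : O → Subgroup G) (θ' : O → G → ℂ) (m : O → ℕ) (M : O → G → ℕ → ℕ → ℂ)
      (E : inert (cT K τ) (fun a => ∏ o, θ o ((a : O → G) o)) → ℂ),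
      SD 𝔐 ℓ (prt τ θ) (fun o => cg 𝔐 (θ o)) S' θ' m M ∧ IsChr E ∧
      (∀ a (ha : jT K τ a ∈ inert (cT K τ) (fun a => ∏ o, θ o ((a : O → G) o))),
        E ⟨jT K τ a, ha⟩ = ∏ o, θ o ((a : O → G) o)) ∧
      ∀ η : Kp K (prt τ θ) → ℂ, IsIrr η → ∀ F : Gam K O G → ℂ,
        (∀ g x, F (g * x * g⁻¹) = F x) →
        wt (fun s => E s * ext0 η (pT K τ s))
            (fun s => F ((s : YT K τ) : Gam K O G)) =
          wt η (fun k => aS S' θ' m M (MulAction.toPerm (k : K)) (fun n => F ⟨n, (k : K)⟩))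

/-- PERD: the count for one character of the base group. -/
def Stmt_PERD : Prop :=
  ∀ (K O G X : Type) [Group K] [Finite K] [MulAction K O] [Fintype O] [DecidableEq O] [Group G]
    [Fintype G] [Group X] (𝔐 : Ideal (integralClosure ℤ ℂ)) (ℓ : ℕ) [Fact ℓ.Prime] (d : ℕ)
    (i : Gam K O G →* X) (ω : X → (integralClosure ℤ ℂ) ⧸ 𝔐)
    (τ : Finset (Subgroup (O → G))) (θ : O → G → ℂ), τ ∈ ClCh O G ℓ →
    (∀ o, IrrOn (stb (comp τ o)) (θ o)) →
    ∃ (S' : O → Subgroup G) (θ' : O → G → ℂ) (m : O → ℕ) (M : O → G → ℕ → ℕ → ℂ)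
      (E : inert (cT K τ) (fun a => ∏ o, θ o ((a : O → G) o)) → ℂ),
      SD 𝔐 ℓ (prt τ θ) (fun o => cg 𝔐 (θ o)) S' θ' m M ∧ IsChr E ∧
      (∀ a (ha : jT K τ a ∈ inert (cT K τ) (fun a => ∏ o, θ o ((a : O → G) o))),
        E ⟨jT K τ a, ha⟩ = ∏ o, θ o ((a : O → G) o)) ∧
      (Nat.card (inert (cT K τ) (fun a => ∏ o, θ o ((a : O → G) o))) : ℚ) *
        Nat.card {η : Kp K (prt τ θ) → ℂ // IsIrr η ∧
          (HasDefect ℓ (indc (inert (cT K τ) (fun a => ∏ o, θ o ((a : O → G) o)))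
              (fun s => E s * ext0 η (pT K τ s))) d ∧
            ∀ g, cen 𝔐 (i.comp (YT K τ).subtype)
              (indc (inert (cT K τ) (fun a => ∏ o, θ o ((a : O → G) o)))
                (fun s => E s * ext0 η (pT K τ s))) g = ω g)} =
        (∏ o, (Nat.card (stb (comp τ o)) : ℚ)) *
          NN 𝔐 ℓ d i ω (prt τ θ) (∑ o, df ℓ (stb (comp τ o)) (θ o)) S' θ' m M

/-- CLIFF: Clifford theory for the stabilizers of the chains of the base group. -/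
def Stmt_CLIFF : Prop :=
  ∀ (K O G X : Type) [Group K] [Finite K] [MulAction K O] [Fintype O] [DecidableEq O] [Group G]
    [Fintype G] [Group X] (𝔐 : Ideal (integralClosure ℤ ℂ)) (ℓ : ℕ) [Fact ℓ.Prime],
    𝔐.IsMaximal → (ℓ : integralClosure ℤ ℂ) ∈ 𝔐 → ∀ (d : ℕ) (i : Gam K O G →* X)
    (ω : X → (integralClosure ℤ ℂ) ⧸ 𝔐),
    ∃ Φ : Setoid O → ℕ → (O → G → (integralClosure ℤ ℂ) ⧸ 𝔐) → ℚ,
      (∀ τ ∈ ClCh O G ℓ,
        (Nat.card (YT K τ) : ℚ) * cnt 𝔐 ℓ d (i.comp (YT K τ).subtype) ω =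
        (∏ o, (Nat.card (stb (comp τ o)) : ℚ)) *
          ∑ θ ∈ Fintype.piFinset (fun o => irrOn (stb (comp τ o))),
            Φ (prt τ θ) (∑ o, df ℓ (stb (comp τ o)) (θ o)) (fun o => cg 𝔐 (θ o))) ∧
      (∀ π e b, Φ π e b ≠ 0 → ∃ τ ∈ ClCh O G ℓ, ∃ θ : O → G → ℂ,
        (∀ o, IrrOn (stb (comp τ o)) (θ o)) ∧ (∀ o, cg 𝔐 (θ o) = b o) ∧
        ∃ ψ : YT K τ → ℂ, IsIrr ψ ∧ (∀ g, cen 𝔐 (i.comp (YT K τ).subtype) ψ g = ω g) ∧
          ip (resj (jT K τ) ψ) (fun a => ∏ o, θ o ((a : O → G) o)) ≠ 0) ∧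
      ∀ τ ∈ ClCh O G ℓ, ∀ θ : O → G → ℂ, (∀ o, IrrOn (stb (comp τ o)) (θ o)) →
        ∀ (S' : O → Subgroup G) (θ' : O → G → ℂ) (m : O → ℕ) (M : O → G → ℕ → ℕ → ℂ),
          SD 𝔐 ℓ (prt τ θ) (fun o => cg 𝔐 (θ o)) S' θ' m M →
          Φ (prt τ θ) (∑ o, df ℓ (stb (comp τ o)) (θ o)) (fun o => cg 𝔐 (θ o)) =
            NN 𝔐 ℓ d i ω (prt τ θ) (∑ o, df ℓ (stb (comp τ o)) (θ o)) S' θ' m M

/-! ### Combinatorics -/

open Classical in
/-- FIX: chains and characters with prescribed transports. -/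
def Stmt_FIX : Prop :=
  ∀ (O Q G : Type) [Fintype O] [DecidableEq O] [Fintype Q] [DecidableEq Q] [Group G] [Fintype G]
    (𝔐 : Ideal (integralClosure ℤ ℂ)) (ℓ : ℕ) (q : O → Q) (s : Q → O) (g : O → G),
    (∀ w, q (s w) = w) → (∀ w, g (s w) = 1) →
    ∀ φ : (O → ℕ) → (O → G → (integralClosure ℤ ℂ) ⧸ 𝔐) → ℚ,
    ∑ τ ∈ ClCh O G ℓ, (-1 : ℚ) ^ τ.card *
      ∑ θ ∈ (Fintype.piFinset (fun o => irrOn (stb (comp τ o)))).filter
        (fun θ => ∀ o, trP τ θ (s (q o)) o (g o)),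
        (∏ w, (Nat.card (stb (comp τ (s w))) : ℚ)) *
          φ (fun o => df ℓ (stb (comp τ o)) (θ o)) (fun o => cg 𝔐 (θ o)) =
    ∑ τ ∈ ClCh Q G ℓ, (-1 : ℚ) ^ τ.card *
      ∑ θ ∈ Fintype.piFinset (fun w => irrOn (stb (comp τ w))),
        (∏ w, (Nat.card (stb (comp τ w)) : ℚ)) *
          φ (fun o => df ℓ (stb (comp τ (q o))) (θ (q o))) (fun o => cg 𝔐 (θ (q o)))

open Classical in
/-- EVAL: the product formula. -/
def Stmt_EVAL : Prop :=
  ∀ (Q G : Type) [Fintype Q] [DecidableEq Q] [Group G] [Fintype G]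
    (𝔐 : Ideal (integralClosure ℤ ℂ)) (ℓ : ℕ) [Fact ℓ.Prime] (e : Q → ℕ)
    (b : Q → G → (integralClosure ℤ ℂ) ⧸ 𝔐),
    ∑ τ ∈ ClCh Q G ℓ, (-1 : ℚ) ^ τ.card *
      ∑ θ ∈ Fintype.piFinset (fun w => irrOn (stb (comp τ w))),
        (∏ w, (Nat.card (stb (comp τ w)) : ℚ)) *
          (if ∀ w, df ℓ (stb (comp τ w)) (θ w) = e w ∧ cg 𝔐 (θ w) = b w then 1 else 0) =
      ∏ w, KK 𝔐 ℓ (e w) (⊥ : Subgroup G) (b w)

/-- COMB: the vanishing of the combinatorial sum. -/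
def Stmt_COMB : Prop :=
  ∀ (O G : Type) [Fintype O] [DecidableEq O] [Group G] [Fintype G]
    (𝔐 : Ideal (integralClosure ℤ ℂ)) (ℓ : ℕ) [Fact ℓ.Prime]
    (Φ : Setoid O → ℕ → (O → G → (integralClosure ℤ ℂ) ⧸ 𝔐) → ℚ),
    (∀ π e b, Φ π e b ≠ 0 → ∃ o, ∀ d, KK 𝔐 ℓ d (⊥ : Subgroup G) (b o) = 0) →
    ∑ τ ∈ ClCh O G ℓ, (-1 : ℚ) ^ τ.card * ((∏ o, (Nat.card (stb (comp τ o)) : ℚ)) *
      ∑ θ ∈ Fintype.piFinset (fun o => irrOn (stb (comp τ o))),
        Φ (prt τ θ) (∑ o, df ℓ (stb (comp τ o)) (θ o)) (fun o => cg 𝔐 (θ o))) = 0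

/-! ### Blocks -/

/-- BLKA: an integer valued class function separating the defect zero characters. -/
def Stmt_BLKA : Prop :=
  ∀ (G : Type) [Group G] [Fintype G] (𝔐 : Ideal (integralClosure ℤ ℂ)) (ℓ : ℕ) [Fact ℓ.Prime],
    𝔐.IsMaximal → (ℓ : integralClosure ℤ ℂ) ∈ 𝔐 →
    ∃ f : G → ℤ, (∀ g x, f (g * x * g⁻¹) = f x) ∧
      (∀ (χ : G → ℂ) (e : ℕ), IsIrr χ → HasDefect ℓ χ e → 0 < e →
        red 𝔐 (wt χ (fun x => (f x : ℂ))) = 0) ∧
      ∀ χ : G → ℂ, IsIrr χ → HasDefect ℓ χ 0 → red 𝔐 (wt χ (fun x => (f x : ℂ))) ≠ 0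

/-- BLKB: blocks over a character of positive defect do not contain induced blocks over
characters of defect zero. -/
def Stmt_BLKB : Prop :=
  ∀ (R Ω K O G : Type) [Group R] [Finite R] [MulAction R Ω] [Fintype Ω] [DecidableEq Ω]
    [Group K] [Finite K] [MulAction K O] [Fintype O] [DecidableEq O] [Group G] [Fintype G]
    (𝔐 : Ideal (integralClosure ℤ ℂ)) (ℓ : ℕ) [Fact ℓ.Prime],
    𝔐.IsMaximal → (ℓ : integralClosure ℤ ℂ) ∈ 𝔐 →
    ∀ (i : Gam K O G →* Gam R Ω G) (π : Ω → O),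
      (∀ o, ∃ k, Nat.card {w : Ω // π w = o} = ℓ ^ k) →
      (∀ n : O → G, i (iN K O G n) = iN R Ω G (fun w => n (π w))) →
      (∀ x, (i x).right = 1 → x.right = 1) →
    ∀ (χ : Gam R Ω G → ℂ) (ξ : Ω → G → ℂ) (w : Ω) (e : ℕ), IsIrr χ → (∀ a, IsIrr (ξ a)) →
      ip (resj (iN R Ω G) χ) (fun n => ∏ a, ξ a (n a)) ≠ 0 → HasDefect ℓ (ξ w) e → 0 < e →
    ∀ (ψ : Gam K O G → ℂ) (θ : O → G → ℂ), IsIrr ψ → (∀ o, IsIrr (θ o)) →
      (∀ o, HasDefect ℓ (θ o) 0) → ip (resj (iN K O G) ψ) (fun n => ∏ o, θ o (n o)) ≠ 0 →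
      ¬ ∀ g, cen 𝔐 i ψ g = cen 𝔐 (MonoidHom.id (Gam R Ω G)) χ g

/-- BLKC: only the empty chain contributes to products of defect zero. -/
def Stmt_BLKC : Prop :=
  ∀ (K O G X : Type) [Group K] [Finite K] [MulAction K O] [Fintype O] [DecidableEq O] [Group G]
    [Fintype G] [Group X] (𝔐 : Ideal (integralClosure ℤ ℂ)) (ℓ : ℕ) [Fact ℓ.Prime],
    𝔐.IsMaximal → (ℓ : integralClosure ℤ ℂ) ∈ 𝔐 → pCore ℓ G = ⊥ → DadeHolds ℓ G →
    ∀ (i : Gam K O G →* X) (τ : Finset (Subgroup (O → G))) (θ : O → G → ℂ), τ ∈ ClCh O G ℓ →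
    (∀ o, IrrOn (stb (comp τ o)) (θ o)) → ∀ ψ : YT K τ → ℂ, IsIrr ψ →
    ip (resj (jT K τ) ψ) (fun a => ∏ o, θ o ((a : O → G) o)) ≠ 0 →
    (∀ o, ∃ d, KK 𝔐 ℓ d (⊥ : Subgroup G) (cg 𝔐 (θ o)) ≠ 0) →
    (∀ o, IsIrr (θ o)) ∧ (∀ o, HasDefect ℓ (θ o) 0) ∧
    ∃ ψ' : Gam K O G → ℂ, IsIrr ψ' ∧ ip (resj (iN K O G) ψ') (fun n => ∏ o, θ o (n o)) ≠ 0 ∧
      ∀ g, cen 𝔐 i ψ' g = cen 𝔐 (i.comp (YT K τ).subtype) ψ g

end Pool.Agent.DP


end

section

/-!
# Dade's conjecture for groups with a normal subgroup `G ^ Ω` on which a cyclic group of outer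
automorphisms of order prime to `ℓ` acts: statements of the modules (theorem R)
-/

namespace Pool.Agent.DP

open Pool.Agent.Lib_helper13 Representation
open Pool.Agent.Lib_helper13.Dade (pCore DadeHolds)

/-! ### Extensions -/

/-- EXTC: an invariant character extends if the quotient is cyclic. -/
def Stmt_EXTC : Prop :=
  ∀ (A Y K : Type) [Group A] [Fintype A] [Group Y] [Fintype Y] [Group K]
    (j : A →* Y) (c : Y →* MulAut A) (q : Y →* K), ClG j c q → Function.Surjective q →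
    IsCyclic K → ∀ θ : A → ℂ, IsIrr θ → (∀ y a, θ (c y a) = θ a) →
    ∃ E : Y → ℂ, IsIrr E ∧ ∀ a, E (j a) = θ a

/-- INTH: integrality of weights of functions which are invariant under `G`. -/
def Stmt_INTH : Prop :=
  ∀ (G B C : Type) [Group G] [Fintype G] [Group B] [Fintype B] [Group C]
    (ι : G →* B) (κ : B →* MulAut G) (ρ : B →* C), ClG ι κ ρ →
    ∀ (S : Subgroup B) (f : B → ℂ), IrrOn S f → IrrOn (S.comap ι) (fun h => f (ι h)) →
    ∀ F : B → ℂ, (∀ x, IsIntegral ℤ (F x)) → (∀ h x, F (ι h * x * (ι h)⁻¹) = F x) →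
      IsIntegral ℤ ((∑ x, F x * f x) / f 1)

/-- EXTAR: the extensions of `ψ`. -/
def Stmt_EXTAR : Prop :=
  ∀ (G B C : Type) [Group G] [Fintype G] [Group B] [Fintype B] [Group C] (ℓ : ℕ) [Fact ℓ.Prime]
    (ι : G →* B) (κ : B →* MulAut G) (ρ : B →* C), LocS ℓ ι κ ρ →
    ∀ (σ : Finset (Subgroup G)) (ψ : G → ℂ), IrrOn (stb σ) ψ → ∀ L : Subgroup C,
    (Stx κ σ ψ ⊓ L.comap ρ).comap ι = stb σ ∧
    (Stx κ σ ψ ⊓ L.comap ρ).map ρ = KL κ ρ σ ψ L ∧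
    (∃ f, ExtL ι κ ρ σ ψ L f) ∧
    (∀ f (lam : C →* ℂˣ), ExtL ι κ ρ σ ψ L f →
      ExtL ι κ ρ σ ψ L (fun x => f x * ((lam (ρ x) : ℂˣ) : ℂ))) ∧
    (∀ f f', ExtL ι κ ρ σ ψ L f → ExtL ι κ ρ σ ψ L f' →
      ∃ lam : C →* ℂˣ, f' = fun x => f x * ((lam (ρ x) : ℂˣ) : ℂ)) ∧
    Nat.card {f : B → ℂ // ExtL ι κ ρ σ ψ L f} = Nat.card (KL κ ρ σ ψ L)

/-- EXTBR: truncation of extensions. -/
def Stmt_EXTBR : Prop :=
  ∀ (G B C : Type) [Group G] [Fintype G] [Group B] [Fintype B] [Group C]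
    (𝔐 : Ideal (integralClosure ℤ ℂ)) (ℓ : ℕ) [Fact ℓ.Prime]
    (ι : G →* B) (κ : B →* MulAut G) (ρ : B →* C), LocS ℓ ι κ ρ →
    ∀ (σ : Finset (Subgroup G)) (ψ : G → ℂ), IrrOn (stb σ) ψ → ∀ L' L : Subgroup C, L' ≤ L →
    (∀ f, ExtL ι κ ρ σ ψ L f → ExtL ι κ ρ σ ψ L' (trn ρ L' f)) ∧
    (∀ P : (B → ℂ) → Prop,
      Nat.card (KL κ ρ σ ψ L) * Nat.card {f : B → ℂ // ExtL ι κ ρ σ ψ L' f ∧ P f} =
        Nat.card (KL κ ρ σ ψ L') *
          Nat.card {f : B → ℂ // ExtL ι κ ρ σ ψ L f ∧ P (trn ρ L' f)}) ∧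
    bet 𝔐 ι κ ρ σ ψ L' = (fun b => trn ρ L' b) '' bet 𝔐 ι κ ρ σ ψ L

/-- CGT: elementary properties of the central functions. -/
def Stmt_CGT : Prop :=
  ∀ (G B C : Type) [Group G] [Fintype G] [Group B] [Fintype B] [Group C]
    (𝔐 : Ideal (integralClosure ℤ ℂ)) (ι : G →* B) (κ : B →* MulAut G) (ρ : B →* C),
    ClG ι κ ρ →
    (∀ (T : Subgroup B) (f : B → ℂ) (g : G),
      cgT 𝔐 T f (ι g) = cgO 𝔐 κ T (fun h => f (ι h)) g) ∧
    (∀ (f : B → ℂ) (g : G), cgT 𝔐 ι.range f (ι g) = cg 𝔐 (fun h => f (ι h)) g) ∧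
    (∀ (f : B → ℂ) (b x : B),
      cgT 𝔐 ι.range (fun y => f (b⁻¹ * y * b)) x = cgT 𝔐 ι.range f (b⁻¹ * x * b)) ∧
    (∀ (T : Subgroup B) (L : Subgroup C) (f : B → ℂ) (x : B), (∀ t ∈ T, ∀ y,
      ρ (t * y * t⁻¹) ∈ L ↔ ρ y ∈ L) → cgT 𝔐 T (trn ρ L f) x = trn ρ L (cgT 𝔐 T f) x) ∧
    ∀ (f : B → ℂ) (h : G) (x : B), cgT 𝔐 ι.range f (ι h * x * (ι h)⁻¹) = cgT 𝔐 ι.range f x

/-- BETG: twists of the central functions; the class is determined by one member. -/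
def Stmt_BETG : Prop :=
  ∀ (G B C : Type) [Group G] [Fintype G] [Group B] [Fintype B] [Group C]
    (𝔐 : Ideal (integralClosure ℤ ℂ)) (ℓ : ℕ) [Fact ℓ.Prime]
    (ι : G →* B) (κ : B →* MulAut G) (ρ : B →* C), LocS ℓ ι κ ρ →
    (∀ (S : Subgroup B) (f : B → ℂ), IrrOn S f → IrrOn (S.comap ι) (fun h => f (ι h)) →
      ∀ (lam : C →* ℂˣ) (x : B), cgT 𝔐 ι.range (fun y => f y * ((lam (ρ y) : ℂˣ) : ℂ)) x =
        red 𝔐 ((lam (ρ x) : ℂˣ) : ℂ) * cgT 𝔐 ι.range f x) ∧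
    ∀ (σ σ' : Finset (Subgroup G)) (ψ ψ' : G → ℂ), IrrOn (stb σ) ψ → IrrOn (stb σ') ψ' →
      ∀ (L : Subgroup C) (f f' : B → ℂ), ExtL ι κ ρ σ ψ L f → ExtL ι κ ρ σ' ψ' L f' →
      cgT 𝔐 ι.range f = cgT 𝔐 ι.range f' → bet 𝔐 ι κ ρ σ ψ L = bet 𝔐 ι κ ρ σ' ψ' L

/-! ### The local vanishing theorem -/

/-- LKA: the chains of the inverse image of `L`. -/
def Stmt_LKA : Prop :=
  ∀ (G B C : Type) [Group G] [Fintype G] [Group B] [Fintype B] [Group C] (ℓ : ℕ) [Fact ℓ.Prime]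
    (ι : G →* B) (κ : B →* MulAut G) (ρ : B →* C), LocS ℓ ι κ ρ →
    ∀ (L : Subgroup C) [Fintype (L.comap ρ)], pCore ℓ (L.comap ρ) = ⊥ ∧
    ∀ W : Subgroup (L.comap ρ) → ℚ,
      ∑ σ ∈ Ch ℓ (⊥ : Subgroup (L.comap ρ)), (-1 : ℚ) ^ σ.card * W (stb σ) =
        ∑ σ ∈ Ch ℓ (⊥ : Subgroup G), (-1 : ℚ) ^ σ.card *
          W ((Stx κ σ (fun _ => 0)).comap (L.comap ρ).subtype)

/-- LKB: Clifford theory in the inverse image of `L`. -/
def Stmt_LKB : Prop :=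
  ∀ (G B C : Type) [Group G] [Fintype G] [Group B] [Fintype B] [Group C]
    (𝔐 : Ideal (integralClosure ℤ ℂ)) (ℓ : ℕ) [Fact ℓ.Prime]
    (ι : G →* B) (κ : B →* MulAut G) (ρ : B →* C), LocS ℓ ι κ ρ → 𝔐.IsMaximal →
    (ℓ : integralClosure ℤ ℂ) ∈ 𝔐 →
    ∀ (L : Subgroup C) [Fintype (L.comap ρ)] (σ : Finset (Subgroup G)) (Y : Subgroup (L.comap ρ))
      [Fintype Y], Y = (Stx κ σ (fun _ => 0)).comap (L.comap ρ).subtype →
    ∀ (e : ℕ) (ω : L.comap ρ → (integralClosure ℤ ℂ) ⧸ 𝔐),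
      (Nat.card Y : ℚ) * cnt 𝔐 ℓ e Y.subtype ω =
        ∑ ψ ∈ irrOn (stb σ), (Nat.card (stb σ) : ℚ) * Nat.card (KL κ ρ σ ψ L) *
          Nat.card {f : B → ℂ // ExtL ι κ ρ σ ψ L f ∧ df ℓ (stb σ) ψ = e ∧
            ∀ g : L.comap ρ, cgT 𝔐 (L.comap ρ) f g = ω g}

/-- LDZ: the values of the chain sum which do not vanish. -/
def Stmt_LDZ : Prop :=
  ∀ (G B C : Type) [Group G] [Fintype G] [Group B] [Fintype B] [Group C]
    (𝔐 : Ideal (integralClosure ℤ ℂ)) (ℓ : ℕ) [Fact ℓ.Prime]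
    (ι : G →* B) (κ : B →* MulAut G) (ρ : B →* C), LocS ℓ ι κ ρ → 𝔐.IsMaximal →
    (ℓ : integralClosure ℤ ℂ) ∈ 𝔐 → (∀ T : Subgroup B, ι.range ≤ T → DadeHolds ℓ T) →
    ∀ (L : Subgroup C) [Fintype (L.comap ρ)] (e : ℕ)
      (ω : L.comap ρ → (integralClosure ℤ ℂ) ⧸ 𝔐),
      KK 𝔐 ℓ e (⊥ : Subgroup (L.comap ρ)) ω ≠ 0 →
      ∃ θ : G → ℂ, IsIrr θ ∧ HasDefect ℓ θ 0 ∧ ∃ f, ExtL ι κ ρ ∅ θ L f ∧
        ∀ g : L.comap ρ, cgT 𝔐 (L.comap ρ) f g = ω g

/-- LTR: transitivity of the central functions. -/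
def Stmt_LTR : Prop :=
  ∀ (G B C : Type) [Group G] [Fintype G] [Group B] [Fintype B] [Group C]
    (𝔐 : Ideal (integralClosure ℤ ℂ)) (ℓ : ℕ) [Fact ℓ.Prime]
    (ι : G →* B) (κ : B →* MulAut G) (ρ : B →* C), LocS ℓ ι κ ρ →
    ∀ L' L : Subgroup C, L' ≤ L → ∃ Θ : (L'.comap ρ → (integralClosure ℤ ℂ) ⧸ 𝔐) →
      B → (integralClosure ℤ ℂ) ⧸ 𝔐,
      ∀ (σ : Finset (Subgroup G)) (ψ : G → ℂ) (f : B → ℂ), IrrOn (stb σ) ψ →
        ExtL ι κ ρ σ ψ L' f →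
        cgT 𝔐 (L.comap ρ) f = Θ (fun g => cgT 𝔐 (L'.comap ρ) f g)

/-- LTI: for characters whose stabilizer covers `L`. -/
def Stmt_LTI : Prop :=
  ∀ (G B C : Type) [Group G] [Fintype G] [Group B] [Fintype B] [Group C]
    (𝔐 : Ideal (integralClosure ℤ ℂ)) (ℓ : ℕ) [Fact ℓ.Prime]
    (ι : G →* B) (κ : B →* MulAut G) (ρ : B →* C), LocS ℓ ι κ ρ → 𝔐.IsMaximal →
    (ℓ : integralClosure ℤ ℂ) ∈ 𝔐 →
    ∀ (L : Subgroup C) (σ σ' : Finset (Subgroup G)) (ψ ψ' : G → ℂ) (f f' : B → ℂ),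
      IrrOn (stb σ) ψ → IrrOn (stb σ') ψ' → L ≤ (Stx κ σ ψ).map ρ → L ≤ (Stx κ σ' ψ').map ρ →
      ExtL ι κ ρ σ ψ L f → ExtL ι κ ρ σ' ψ' L f' →
      (cgT 𝔐 (L.comap ρ) f = cgT 𝔐 (L.comap ρ) f' ↔ cgT 𝔐 ι.range f = cgT 𝔐 ι.range f')

/-- LSEP: characters of defect zero are separated. -/
def Stmt_LSEP : Prop :=
  ∀ (G B : Type) [Group G] [Fintype G] [Group B] [Fintype B]
    (𝔐 : Ideal (integralClosure ℤ ℂ)) (ℓ : ℕ) [Fact ℓ.Prime] (κ : B →* MulAut G),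
    𝔐.IsMaximal → (ℓ : integralClosure ℤ ℂ) ∈ 𝔐 →
    ∀ T : Subgroup B, (∀ g : G, ∃ t ∈ T, κ t = MulAut.conj g) →
    ∀ (S : Subgroup G) (ψ θ : G → ℂ), IrrOn S ψ → IsIrr θ → HasDefect ℓ θ 0 →
      cgO 𝔐 κ T ψ = cgO 𝔐 κ T θ → df ℓ S ψ = 0

open Classical in
/-- MOBA: Möbius coefficients of the subgroups of a cyclic group. -/
def Stmt_MOBA : Prop :=
  ∀ (C : Type) [Group C] [Finite C] [Fintype (Subgroup C)], IsCyclic C → ∀ L : Subgroup C,
    ∃ a : Subgroup C → ℚ,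
      (∀ K : Subgroup C, K < L → ∀ h : Subgroup C → ℚ, ∑ L', (if L' ≤ L then
        a L' * h (L' ⊓ K) else 0) = 0) ∧
      ∀ K0 : Subgroup C, K0 ≤ L → ∑ L', (if K0 ≤ L' ∧ L' ≤ L then
        a L' * (Nat.card L' : ℚ) ^ 2 else 0) ≠ 0

open Classical in
/-- MOBB: inversion. -/
def Stmt_MOBB : Prop :=
  ∀ (C I V : Type) [Group C] [Finite C] [Fintype I], IsCyclic C →
    ∀ (L : Subgroup C) (w : I → ℚ) (k : I → Subgroup C) (v : I → V)
      (r : Subgroup C → V → V) (good : V → Prop),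
      (∀ i, k i ≤ L) → (∀ i, r (k i) (v i) = v i) →
      (∀ L' L'' u, r L' (r L'' u) = r (L' ⊓ L'') u) → (∀ L' u, good (r L' u) ↔ good u) →
      (∀ L' ≤ L, ∀ u, good u → ∑ i, w i * (((Nat.card (L' ⊓ k i : Subgroup C) : ℚ) ^ 2 /
        Nat.card (k i)) * (if r L' (v i) = u then 1 else 0)) = 0) →
      ∀ u, good u → ∑ i, w i * (if k i = L ∧ v i = u then 1 else 0) = 0

/-- VV: the local sum vanishes outside the type of defect zero. -/
def Stmt_VV : Prop :=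
  ∀ (G B C : Type) [Group G] [Fintype G] [Group B] [Fintype B] [Group C]
    (𝔐 : Ideal (integralClosure ℤ ℂ)) (ℓ : ℕ) [Fact ℓ.Prime]
    (ι : G →* B) (κ : B →* MulAut G) (ρ : B →* C), LocS ℓ ι κ ρ → 𝔐.IsMaximal →
    (ℓ : integralClosure ℤ ℂ) ∈ 𝔐 → (∀ T : Subgroup B, ι.range ≤ T → DadeHolds ℓ T) →
    ∀ (L : Subgroup C) (β : Set (B → (integralClosure ℤ ℂ) ⧸ 𝔐)) (e : ℕ),
      ¬ dzT 𝔐 ℓ ι β → VS 𝔐 ℓ ι κ ρ L β e = 0

/-! ### The weighted sums -/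

open Classical in
/-- AAKH: the key identity. -/
def Stmt_AAKH : Prop :=
  ∀ (O G B C : Type) [Fintype O] [DecidableEq O] [Group G] [Fintype G] [Group B] [Fintype B]
    [Group C] [Fintype C] (ι : G →* B) (κ : B →* MulAut G) (ρ : B →* C), ClG ι κ ρ →
    Function.Surjective ρ → ∀ (k : Equiv.Perm O)
    (S : O → Subgroup B) (θ : O → B → ℂ) (m : O → ℕ) (M : O → B → ℕ → ℕ → ℂ),
    (∀ o, S (k o) = S o) → (∀ o, m (k o) = m o) → (∀ o, M (k o) = M o) →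
    (∀ o, MD (S o) (θ o) (m o) (M o)) → (∀ o, θ o 1 ≠ 0) →
    ∀ F : (O → B) → ℂ,
    (∀ (x : O → G) (z : O → B), F (fun o => ι (x o) * z o * (ι (x (k⁻¹ o)))⁻¹) = F z) →
    ∀ (o : O) (k' : Equiv.Perm O), k o ≠ o → k' = Equiv.swap o (k o) * k →
    ∀ s : C → B, (∀ c, ρ (s c) = c) →
    ∀ F' : (O → B) → ℂ, (∀ z, z o = 1 → F' z = ∑ c : C, if c ∈ (S o).map ρ then
      F (fun a => if a = o then s c else if a = k o then z (k o) * (s c)⁻¹ else z a) else 0) →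
      (∀ z, z o ≠ 1 → F' z = 0) →
      (∀ (x : O → G) (z : O → B), F' (fun a => ι (x a) * z a * (ι (x (k'⁻¹ a)))⁻¹) = F' z) ∧
      aS S θ m M k F = (Nat.card ((S o).comap ι) : ℂ) / θ o 1 * aS S θ m M k' F'

/-- AAH: modulo `𝔐` the weighted sum depends only on the central functions. -/
def Stmt_AAH : Prop :=
  ∀ (O G B C : Type) [Fintype O] [DecidableEq O] [Group G] [Fintype G] [Group B] [Fintype B]
    [Group C] (𝔐 : Ideal (integralClosure ℤ ℂ)) (ℓ : ℕ) [Fact ℓ.Prime], 𝔐.IsMaximal →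
    (ℓ : integralClosure ℤ ℂ) ∈ 𝔐 → ∀ (ι : G →* B) (κ : B →* MulAut G) (ρ : B →* C),
    ClG ι κ ρ → Function.Surjective ρ → ∀ (k : Equiv.Perm O)
    (S S' : O → Subgroup B) (θ θ' : O → B → ℂ) (m m' : O → ℕ) (M M' : O → B → ℕ → ℕ → ℂ),
    (∀ o, S (k o) = S o) → (∀ o, θ (k o) = θ o) → (∀ o, m (k o) = m o) →
    (∀ o, M (k o) = M o) → (∀ o, S' (k o) = S' o) → (∀ o, θ' (k o) = θ' o) →
    (∀ o, m' (k o) = m' o) → (∀ o, M' (k o) = M' o) →
    (∀ o, IrrOn (S o) (θ o)) → (∀ o, IrrOn ((S o).comap ι) (fun h => θ o (ι h))) →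
    (∀ o, IrrOn (S' o) (θ' o)) → (∀ o, IrrOn ((S' o).comap ι) (fun h => θ' o (ι h))) →
    (∀ o, MD (S o) (θ o) (m o) (M o)) → (∀ o, MD (S' o) (θ' o) (m' o) (M' o)) →
    (∀ o, df ℓ ((S o).comap ι) (fun h => θ o (ι h)) = 0 → (S o).comap ι = ⊤) →
    (∀ o, df ℓ ((S' o).comap ι) (fun h => θ' o (ι h)) = 0 → (S' o).comap ι = ⊤) →
    (∀ o, (S o).map ρ = (S' o).map ρ) →
    (∀ o, cgT 𝔐 ι.range (θ o) = cgT 𝔐 ι.range (θ' o)) →
    ∀ F : (O → B) → ℂ,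
    (∀ (x : O → G) (z : O → B), F (fun o => ι (x o) * z o * (ι (x (k⁻¹ o)))⁻¹) = F z) →
    (∀ z, IsIntegral ℤ (F z)) →
      IsIntegral ℤ (aS S θ m M k F) ∧ IsIntegral ℤ (aS S' θ' m' M' k F) ∧
      red 𝔐 (aS S θ m M k F) = red 𝔐 (aS S' θ' m' M' k F)

/-- ASH: the weighted sums over `Y` depend only on the central functions. -/
def Stmt_ASH : Prop :=
  ∀ (O G B C Y K : Type) [Fintype O] [DecidableEq O] [Group G] [Fintype G] [Group B] [Fintype B]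
    [Group C] [Group Y] [Fintype Y] [Group K] (𝔐 : Ideal (integralClosure ℤ ℂ)) (ℓ : ℕ)
    [Fact ℓ.Prime], 𝔐.IsMaximal → (ℓ : integralClosure ℤ ℂ) ∈ 𝔐 →
    ∀ (ι : G →* B) (κ : B →* MulAut G) (ρ : B →* C), LocS ℓ ι κ ρ →
    ∀ (j : (O → G) →* Y) (p : Y →* K) (φ : Y →* Gam (Equiv.Perm O) O B), ExtS ι κ j p φ →
    ∀ (J : Subgroup K) (g g' : O → B) (S S' : O → Subgroup B) (θ θ' : O → B → ℂ)
      (m m' : O → ℕ) (M M' : O → B → ℕ → ℕ → ℂ),
      SDR ℓ ι ρ p φ J g S θ m M → SDR ℓ ι ρ p φ J g' S' θ' m' M' →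
      (∀ o, ρ (g' o) = ρ (g o)) → (∀ o, cgT 𝔐 ι.range (θ o) = cgT 𝔐 ι.range (θ' o)) →
      ∀ k ∈ J, ∀ F : Y → ℂ, (∀ y x, F (y * x * y⁻¹) = F x) → (∀ y, IsIntegral ℤ (F y)) →
        IsIntegral ℤ (AS p φ g S θ m M k F) ∧ IsIntegral ℤ (AS p φ g' S' θ' m' M' k F) ∧
        red 𝔐 (AS p φ g S θ m M k F) = red 𝔐 (AS p φ g' S' θ' m' M' k F)

/-- ASC: the weighted sums form a class function. -/
def Stmt_ASC : Prop :=
  ∀ (O G B C Y K : Type) [Fintype O] [DecidableEq O] [Group G] [Fintype G] [Group B] [Fintype B]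
    [Group C] [Group Y] [Fintype Y] [Group K] (ℓ : ℕ)
    (ι : G →* B) (κ : B →* MulAut G) (ρ : B →* C), LocS ℓ ι κ ρ →
    ∀ (j : (O → G) →* Y) (p : Y →* K) (φ : Y →* Gam (Equiv.Perm O) O B), ExtS ι κ j p φ →
    ∀ (J : Subgroup K) (g : O → B) (S : O → Subgroup B) (θ : O → B → ℂ)
      (m : O → ℕ) (M : O → B → ℕ → ℕ → ℂ), SDR ℓ ι ρ p φ J g S θ m M →
      ∀ k ∈ J, ∀ l ∈ J, ∀ F : Y → ℂ, (∀ y x, F (y * x * y⁻¹) = F x) →
        AS p φ g S θ m M (l * k * l⁻¹) F = AS p φ g S θ m M k F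

/-- TWR: twists of standard data. -/
def Stmt_TWR : Prop :=
  ∀ (O G B C Y K X : Type) [Fintype O] [DecidableEq O] [Group G] [Fintype G] [Group B]
    [Fintype B] [Group C] [Group Y] [Fintype Y] [Group K] [Finite K] [Group X]
    (𝔐 : Ideal (integralClosure ℤ ℂ)) (ℓ : ℕ)
    (ι : G →* B) (κ : B →* MulAut G) (ρ : B →* C), LocS ℓ ι κ ρ →
    ∀ (j : (O → G) →* Y) (p : Y →* K) (φ : Y →* Gam (Equiv.Perm O) O B), ExtS ι κ j p φ →
    ∀ (J : Subgroup K) (g : O → B) (S : O → Subgroup B) (θ : O → B → ℂ)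
      (m : O → ℕ) (M : O → B → ℕ → ℕ → ℂ), SDR ℓ ι ρ p φ J g S θ m M →
      ∀ lam : O → C →* ℂˣ, (∀ y, p y ∈ J → ∀ o, lam ((φ y).right • o) = lam o) →
      SDR ℓ ι ρ p φ J g S (fun o x => θ o x * ((lam o (ρ x) : ℂˣ) : ℂ)) m
        (fun o x a b => M o x a b * ((lam o (ρ x) : ℂˣ) : ℂ)) ∧
      ∀ (d e : ℕ) (i : Y →* X) (ω : X → (integralClosure ℤ ℂ) ⧸ 𝔐),
        NNR 𝔐 ℓ d i ω p φ J e g S (fun o x => θ o x * ((lam o (ρ x) : ℂˣ) : ℂ)) m
          (fun o x a b => M o x a b * ((lam o (ρ x) : ℂˣ) : ℂ)) =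
        NNR 𝔐 ℓ d i ω p φ J e g S θ m M

/-- MINDR: the count depends only on the classes of the central functions. -/
def Stmt_MINDR : Prop :=
  ∀ (O G B C Y K X : Type) [Fintype O] [DecidableEq O] [Group G] [Fintype G] [Group B]
    [Fintype B] [Group C] [Group Y] [Fintype Y] [Group K] [Finite K] [Group X]
    (𝔐 : Ideal (integralClosure ℤ ℂ)) (ℓ : ℕ) [Fact ℓ.Prime], 𝔐.IsMaximal →
    (ℓ : integralClosure ℤ ℂ) ∈ 𝔐 →
    ∀ (ι : G →* B) (κ : B →* MulAut G) (ρ : B →* C), LocS ℓ ι κ ρ →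
    ∀ (j : (O → G) →* Y) (p : Y →* K) (φ : Y →* Gam (Equiv.Perm O) O B), ExtS ι κ j p φ →
    ∀ (J : Subgroup K) (g g' : O → B) (S S' : O → Subgroup B) (θ θ' : O → B → ℂ)
      (m m' : O → ℕ) (M M' : O → B → ℕ → ℕ → ℂ),
      SDR ℓ ι ρ p φ J g S θ m M → SDR ℓ ι ρ p φ J g' S' θ' m' M' →
      (∀ o, ρ (g' o) = ρ (g o)) →
      (∀ o, ∃ lam : C →* ℂˣ, cgT 𝔐 ι.range (θ' o) =
        cgT 𝔐 ι.range (fun x => θ o x * ((lam (ρ x) : ℂˣ) : ℂ))) →
      ∀ (d e : ℕ) (i : Y →* X) (ω : X → (integralClosure ℤ ℂ) ⧸ 𝔐),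
        NNR 𝔐 ℓ d i ω p φ J e g' S' θ' m' M' = NNR 𝔐 ℓ d i ω p φ J e g S θ m M

/-! ### Clifford theory for the stabilizers of the chains -/

/-- TRBR: transporters. -/
def Stmt_TRBR : Prop :=
  ∀ (O G B C : Type) [Fintype O] [DecidableEq O] [Group G] [Fintype G] [Group B] [Fintype B]
    [Group C] (𝔐 : Ideal (integralClosure ℤ ℂ)) (ℓ : ℕ) [Fact ℓ.Prime]
    (ι : G →* B) (κ : B →* MulAut G) (ρ : B →* C), LocS ℓ ι κ ρ →
    ∀ (τ : Finset (Subgroup (O → G))) (θ : O → G → ℂ), (∀ o, IrrOn (stb (comp τ o)) (θ o)) →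
    (∀ o g, trB κ τ θ o o g ↔ g ∈ Stx κ (comp τ o) (θ o)) ∧
    (∀ a b g, trB κ τ θ a b g →
      (stb (comp τ a)).map (κ g).toMonoidHom = stb (comp τ b) ∧
      df ℓ (stb (comp τ a)) (θ a) = df ℓ (stb (comp τ b)) (θ b) ∧
      (Stx κ (comp τ a) (θ a)).map (MulAut.conj g).toMonoidHom = Stx κ (comp τ b) (θ b) ∧
      Nat.card {h : B // trB κ τ θ a b h ∧ ρ h = ρ g} = Nat.card (stb (comp τ b)) ∧
      (∀ (L : Subgroup C) (f : B → ℂ), ExtL ι κ ρ (comp τ a) (θ a) L f →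
        ExtL ι κ ρ (comp τ b) (θ b) L (fun x => f (g⁻¹ * x * g))) ∧
      ∀ L : Subgroup C, bet 𝔐 ι κ ρ (comp τ b) (θ b) L =
        (fun b0 x => b0 (g⁻¹ * x * g)) '' bet 𝔐 ι κ ρ (comp τ a) (θ a) L)

/-- PERAR: the inertia group. -/
def Stmt_PERAR : Prop :=
  ∀ (O G B C Y K : Type) [Fintype O] [DecidableEq O] [Group G] [Fintype G] [Group B] [Fintype B]
    [Group C] [Group Y] [Fintype Y] [Group K] [Finite K] (ℓ : ℕ) [Fact ℓ.Prime]
    (ι : G →* B) (κ : B →* MulAut G) (ρ : B →* C), LocS ℓ ι κ ρ →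
    ∀ (j : (O → G) →* Y) (p : Y →* K) (φ : Y →* Gam (Equiv.Perm O) O B)
      (h : ExtS ι κ j p φ), ∀ τ ∈ ClCh O G ℓ, ∀ θ : O → G → ℂ,
      (∀ o, IrrOn (stb (comp τ o)) (θ o)) →
      InY κ φ τ θ ≤ YS j τ ∧
      (∀ y : YS j τ, y ∈ inert (cS h.cl τ) (fun a => ∏ o, θ o ((a : O → G) o)) ↔
        (y : Y) ∈ InY κ φ τ θ) ∧
      (inert (cS h.cl τ) (fun a => ∏ o, θ o ((a : O → G) o))).map (pS p j τ) =
        KB κ p φ τ θ ∧
      Nat.card (inert (cS h.cl τ) (fun a => ∏ o, θ o ((a : O → G) o))) =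
        Nat.card (KB κ p φ τ θ) * ∏ o, Nat.card (stb (comp τ o)) ∧
      ∀ o, vg ρ p φ (KB κ p φ τ θ) o ≤ (Stx κ (comp τ o) (θ o)).map ρ

/-- REPJ: representatives, and vertex groups along orbits. -/
def Stmt_REPJ : Prop :=
  ∀ (O G B C Y K : Type) [Fintype O] [DecidableEq O] [Group G] [Fintype G] [Group B] [Fintype B]
    [Group C] [Group Y] [Fintype Y] [Group K] (ℓ : ℕ)
    (ι : G →* B) (κ : B →* MulAut G) (ρ : B →* C), LocS ℓ ι κ ρ →
    ∀ (j : (O → G) →* Y) (p : Y →* K) (φ : Y →* Gam (Equiv.Perm O) O B), ExtS ι κ j p φ →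
    ∀ J : Subgroup K, (∃ (r : O → O) (t : O → Y), RepJ p φ J r t) ∧
      (∀ y, p y ∈ J → ∀ o, vg ρ p φ J ((φ y).right • o) = vg ρ p φ J o) ∧
      ∀ (r : O → O) (t : O → Y), RepJ p φ J r t →
        (∀ o, r (r o) = r o) ∧ (∀ o, vg ρ p φ J (r o) = vg ρ p φ J o) ∧
        ∀ y, p y ∈ J → ∀ g : O → B, (∀ o, ρ (g o) = ρ ((φ (t o)).left o)) →
          ∀ o, ρ (zz φ g y o) ∈ vg ρ p φ J (r o)

/-- Standard data of a chain and a character. -/
structure StdR {O G B C Y K : Type} [Fintype O] [DecidableEq O] [Group G] [Group B]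
    [Group C] [Group Y] [Group K] (ℓ : ℕ) (ι : G →* B) (κ : B →* MulAut G) (ρ : B →* C)
    (p : Y →* K) (φ : Y →* Gam (Equiv.Perm O) O B) (τ : Finset (Subgroup (O → G)))
    (θ : O → G → ℂ) (r : O → O) (t : O → Y) (g : O → B) (S : O → Subgroup B)
    (f : O → B → ℂ) (m : O → ℕ) (M : O → B → ℕ → ℕ → ℂ) : Prop where
  sd : SDR ℓ ι ρ p φ (KB κ p φ τ θ) g S f m M
  rp : RepJ p φ (KB κ p φ τ θ) r t
  rg : ∀ o, ρ (g o) = ρ ((φ (t o)).left o)
  tr : ∀ o, trB κ τ θ (r o) o (g o)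
  hS : ∀ o, S o = Stx κ (comp τ (r o)) (θ (r o)) ⊓
    (vg ρ p φ (KB κ p φ τ θ) (r o)).comap ρ
  ex : ∀ o, ExtL ι κ ρ (comp τ (r o)) (θ (r o)) (vg ρ p φ (KB κ p φ τ θ) (r o)) (f o)

/-- PERBR: standardization. -/
def Stmt_PERBR : Prop :=
  ∀ (O G B C Y K : Type) [Fintype O] [DecidableEq O] [Group G] [Fintype G] [Group B] [Fintype B]
    [Group C] [Group Y] [Fintype Y] [Group K] [Finite K] (ℓ : ℕ) [Fact ℓ.Prime]
    (ι : G →* B) (κ : B →* MulAut G) (ρ : B →* C), LocS ℓ ι κ ρ →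
    ∀ (j : (O → G) →* Y) (p : Y →* K) (φ : Y →* Gam (Equiv.Perm O) O B), ExtS ι κ j p φ →
    ∀ τ ∈ ClCh O G ℓ, ∀ θ : O → G → ℂ, (∀ o, IrrOn (stb (comp τ o)) (θ o)) →
    ∀ (r : O → O) (t : O → Y), RepJ p φ (KB κ p φ τ θ) r t →
      ∃ (g : O → B) (S : O → Subgroup B) (f : O → B → ℂ) (m : O → ℕ)
        (M : O → B → ℕ → ℕ → ℂ), StdR ℓ ι κ ρ p φ τ θ r t g S f m M

/-- PERCR: the extension to the inertia group, in terms of standard data. -/
def Stmt_PERCR : Prop :=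
  ∀ (O G B C Y K : Type) [Fintype O] [DecidableEq O] [Group G] [Fintype G] [Group B] [Fintype B]
    [Group C] [Group Y] [Fintype Y] [Group K] [Finite K] (ℓ : ℕ) [Fact ℓ.Prime]
    (ι : G →* B) (κ : B →* MulAut G) (ρ : B →* C), LocS ℓ ι κ ρ →
    ∀ (j : (O → G) →* Y) (p : Y →* K) (φ : Y →* Gam (Equiv.Perm O) O B)
      (h : ExtS ι κ j p φ), ∀ τ ∈ ClCh O G ℓ, ∀ θ : O → G → ℂ,
      (∀ o, IrrOn (stb (comp τ o)) (θ o)) →
    ∀ (r : O → O) (t : O → Y) (g : O → B) (S : O → Subgroup B) (f : O → B → ℂ) (m : O → ℕ)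
      (M : O → B → ℕ → ℕ → ℂ), StdR ℓ ι κ ρ p φ τ θ r t g S f m M →
      (∀ y : Y, (p y ∈ KB κ p φ τ θ ∧ ∀ o, zz φ g y o ∈ S o) ↔ y ∈ InY κ φ τ θ) ∧
      ∃ E : inert (cS h.cl τ) (fun a => ∏ o, θ o ((a : O → G) o)) → ℂ, IsChr E ∧
        (∀ a (ha : jS h.cl τ a ∈ inert (cS h.cl τ) (fun a => ∏ o, θ o ((a : O → G) o))),
          E ⟨jS h.cl τ a, ha⟩ = ∏ o, θ o ((a : O → G) o)) ∧
        ∀ η : KB κ p φ τ θ → ℂ, IsIrr η → ∀ F : Y → ℂ, (∀ y x, F (y * x * y⁻¹) = F x) →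
          wt (fun s => E s * ext0 η (pS p j τ s)) (fun s => F ((s : YS j τ) : Y)) =
            wt η (fun k => AS p φ g S f m M (k : K) F)

/-- PERDR: the count for one character of the base group. -/
def Stmt_PERDR : Prop :=
  ∀ (O G B C Y K X : Type) [Fintype O] [DecidableEq O] [Group G] [Fintype G] [Group B]
    [Fintype B] [Group C] [Group Y] [Fintype Y] [Group K] [Finite K] [Group X]
    (𝔐 : Ideal (integralClosure ℤ ℂ)) (ℓ : ℕ) [Fact ℓ.Prime]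
    (ι : G →* B) (κ : B →* MulAut G) (ρ : B →* C), LocS ℓ ι κ ρ →
    ∀ (j : (O → G) →* Y) (p : Y →* K) (φ : Y →* Gam (Equiv.Perm O) O B)
      (h : ExtS ι κ j p φ), ∀ τ ∈ ClCh O G ℓ, ∀ θ : O → G → ℂ,
      (∀ o, IrrOn (stb (comp τ o)) (θ o)) →
    ∀ (r : O → O) (t : O → Y) (g : O → B) (S : O → Subgroup B) (f : O → B → ℂ) (m : O → ℕ)
      (M : O → B → ℕ → ℕ → ℂ), StdR ℓ ι κ ρ p φ τ θ r t g S f m M →
      ∃ E : inert (cS h.cl τ) (fun a => ∏ o, θ o ((a : O → G) o)) → ℂ, IsChr E ∧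
        (∀ a (ha : jS h.cl τ a ∈ inert (cS h.cl τ) (fun a => ∏ o, θ o ((a : O → G) o))),
          E ⟨jS h.cl τ a, ha⟩ = ∏ o, θ o ((a : O → G) o)) ∧
        ∀ (d : ℕ) (i : Y →* X) (ω : X → (integralClosure ℤ ℂ) ⧸ 𝔐),
          (Nat.card (inert (cS h.cl τ) (fun a => ∏ o, θ o ((a : O → G) o))) : ℚ) *
            Nat.card {η : KB κ p φ τ θ → ℂ // IsIrr η ∧
              (HasDefect ℓ (indc (inert (cS h.cl τ) (fun a => ∏ o, θ o ((a : O → G) o)))
                  (fun s => E s * ext0 η (pS p j τ s))) d ∧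
                ∀ x, cen 𝔐 (i.comp (YS j τ).subtype)
                  (indc (inert (cS h.cl τ) (fun a => ∏ o, θ o ((a : O → G) o)))
                    (fun s => E s * ext0 η (pS p j τ s))) x = ω x)} =
            (∏ o, (Nat.card (stb (comp τ o)) : ℚ)) *
              NNR 𝔐 ℓ d i ω p φ (KB κ p φ τ θ) (∑ o, df ℓ (stb (comp τ o)) (θ o)) g S f m M

/-- CLIFFR: Clifford theory for the stabilizers of the chains of the base group. -/
def Stmt_CLIFFR : Prop :=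
  ∀ (O G B C Y K X : Type) [Fintype O] [DecidableEq O] [Group G] [Fintype G] [Group B]
    [Fintype B] [Group C] [Group Y] [Fintype Y] [Group K] [Finite K] [Group X]
    (𝔐 : Ideal (integralClosure ℤ ℂ)) (ℓ : ℕ) [Fact ℓ.Prime], 𝔐.IsMaximal →
    (ℓ : integralClosure ℤ ℂ) ∈ 𝔐 →
    ∀ (ι : G →* B) (κ : B →* MulAut G) (ρ : B →* C), LocS ℓ ι κ ρ →
    ∀ (j : (O → G) →* Y) (p : Y →* K) (φ : Y →* Gam (Equiv.Perm O) O B)
      (h : ExtS ι κ j p φ) (d : ℕ) (i : Y →* X) (ω : X → (integralClosure ℤ ℂ) ⧸ 𝔐),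
    ∃ Φ : Subgroup K → ℕ → (O → Set (B → (integralClosure ℤ ℂ) ⧸ 𝔐)) → ℚ,
      (∀ τ ∈ ClCh O G ℓ,
        (Nat.card (YS j τ) : ℚ) * cnt 𝔐 ℓ d (i.comp (YS j τ).subtype) ω =
        (∏ o, (Nat.card (stb (comp τ o)) : ℚ)) *
          ∑ θ ∈ Fintype.piFinset (fun o => irrOn (stb (comp τ o))),
            Φ (KB κ p φ τ θ) (∑ o, df ℓ (stb (comp τ o)) (θ o))
              (bts 𝔐 ι κ ρ p φ τ θ (KB κ p φ τ θ))) ∧
      ∀ J e β, Φ J e β ≠ 0 → ∃ τ ∈ ClCh O G ℓ, ∃ θ : O → G → ℂ,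
        (∀ o, IrrOn (stb (comp τ o)) (θ o)) ∧ bts 𝔐 ι κ ρ p φ τ θ J = β ∧
        ∃ ψ : YS j τ → ℂ, IsIrr ψ ∧ (∀ x, cen 𝔐 (i.comp (YS j τ).subtype) ψ x = ω x) ∧
          ip (resj (jS h.cl τ) ψ) (fun a => ∏ o, θ o ((a : O → G) o)) ≠ 0

/-! ### Combinatorics -/

open Classical in
/-- FIXR: chains and characters with prescribed transports. -/
def Stmt_FIXR : Prop :=
  ∀ (O Q G B : Type) [Fintype O] [DecidableEq O] [Fintype Q] [DecidableEq Q] [Group G]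
    [Fintype G] [Group B] (ℓ : ℕ) (κ : B →* MulAut G) (q : O → Q) (s : Q → O) (g : O → B),
    (∀ w, q (s w) = w) → (∀ w, g (s w) = 1) →
    ∀ H : (Q → Finset (Subgroup G)) → (Q → G → ℂ) → ℚ,
    ∑ τ ∈ ClCh O G ℓ, (-1 : ℚ) ^ τ.card *
      ∑ θ ∈ (Fintype.piFinset (fun o => irrOn (stb (comp τ o)))).filter
        (fun θ => ∀ o, trB κ τ θ (s (q o)) o (g o)),
        H (fun w => comp τ (s w)) (fun w => θ (s w)) =
    ∑ τ ∈ ClCh Q G ℓ, (-1 : ℚ) ^ τ.card *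
      ∑ θ ∈ Fintype.piFinset (fun w => irrOn (stb (comp τ w))), H (fun w => comp τ w) θ

/-- EVALR: the product formula. -/
def Stmt_EVALR : Prop :=
  ∀ (Q G : Type) [Fintype Q] [DecidableEq Q] [Group G] [Fintype G] (ℓ : ℕ)
    (h : Q → Finset (Subgroup G) → (G → ℂ) → ℚ),
    ∑ τ ∈ ClCh Q G ℓ, (-1 : ℚ) ^ τ.card *
      ∑ θ ∈ Fintype.piFinset (fun w => irrOn (stb (comp τ w))), ∏ w, h w (comp τ w) (θ w) =
      ∏ w, ∑ σ ∈ Ch ℓ (⊥ : Subgroup G), (-1 : ℚ) ^ σ.card * ∑ ψ ∈ irrOn (stb σ), h w σ ψ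

/-- LIFT: the conditions on the data are conditions on the representatives. -/
def Stmt_LIFT : Prop :=
  ∀ (O G B C Y K : Type) [Fintype O] [DecidableEq O] [Group G] [Fintype G] [Group B] [Fintype B]
    [Group C] [Group Y] [Fintype Y] [Group K] [Finite K]
    (𝔐 : Ideal (integralClosure ℤ ℂ)) (ℓ : ℕ) [Fact ℓ.Prime]
    (ι : G →* B) (κ : B →* MulAut G) (ρ : B →* C), LocS ℓ ι κ ρ →
    ∀ (j : (O → G) →* Y) (p : Y →* K) (φ : Y →* Gam (Equiv.Perm O) O B), ExtS ι κ j p φ →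
    ∀ (J : Subgroup K) (r : O → O) (t : O → Y), RepJ p φ J r t →
    ∀ τ ∈ ClCh O G ℓ, ∀ θ : O → G → ℂ, (∀ o, IrrOn (stb (comp τ o)) (θ o)) →
    ∀ g : O → B, (∀ o, ρ (g o) = ρ ((φ (t o)).left o)) → (∀ o, trB κ τ θ (r o) o (g o)) →
      (J ≤ KB κ p φ τ θ ↔
        ∀ o, vg ρ p φ J (r o) ≤ (Stx κ (comp τ (r o)) (θ (r o))).map ρ) ∧
      ∀ o, bts 𝔐 ι κ ρ p φ τ θ J o =
        (fun b0 x => b0 (((φ (t o)).left o)⁻¹ * x * (φ (t o)).left o)) ''
          bts 𝔐 ι κ ρ p φ τ θ J (r o)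

open Classical in
/-- CNTG: the number of transports. -/
def Stmt_CNTG : Prop :=
  ∀ (O G B C Y K : Type) [Fintype O] [DecidableEq O] [Group G] [Fintype G] [Group B] [Fintype B]
    [Group C] [Group Y] [Fintype Y] [Group K] [Finite K]
    (ℓ : ℕ) [Fact ℓ.Prime] (ι : G →* B) (κ : B →* MulAut G) (ρ : B →* C), LocS ℓ ι κ ρ →
    ∀ (j : (O → G) →* Y) (p : Y →* K) (φ : Y →* Gam (Equiv.Perm O) O B), ExtS ι κ j p φ →
    ∀ (J : Subgroup K) (r : O → O) (t : O → Y), RepJ p φ J r t →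
    ∀ τ ∈ ClCh O G ℓ, ∀ θ : O → G → ℂ, (∀ o, IrrOn (stb (comp τ o)) (θ o)) →
      J ≤ KB κ p φ τ θ →
      Nat.card {g : O → B // (∀ o, r o = o → g o = 1) ∧
        (∀ o, ρ (g o) = ρ ((φ (t o)).left o)) ∧ ∀ o, trB κ τ θ (r o) o (g o)} =
        ∏ o ∈ Finset.univ.filter (fun o => r o ≠ o), Nat.card (stb (comp τ o))

open Classical in
/-- TJ: the sum over the data whose group contains `J` vanishes. -/
def Stmt_TJ : Prop :=
  ∀ (O G B C Y K : Type) [Fintype O] [DecidableEq O] [Group G] [Fintype G] [Group B] [Fintype B]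
    [Group C] [Group Y] [Fintype Y] [Group K] [Finite K]
    (𝔐 : Ideal (integralClosure ℤ ℂ)) (ℓ : ℕ) [Fact ℓ.Prime], 𝔐.IsMaximal →
    (ℓ : integralClosure ℤ ℂ) ∈ 𝔐 →
    ∀ (ι : G →* B) (κ : B →* MulAut G) (ρ : B →* C), LocS ℓ ι κ ρ →
    (∀ (L : Subgroup C) (β : Set (B → (integralClosure ℤ ℂ) ⧸ 𝔐)) (e : ℕ),
      ¬ dzT 𝔐 ℓ ι β → VS 𝔐 ℓ ι κ ρ L β e = 0) →
    ∀ (j : (O → G) →* Y) (p : Y →* K) (φ : Y →* Gam (Equiv.Perm O) O B), ExtS ι κ j p φ →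
    ∀ (J : Subgroup K) (e : ℕ) (β : O → Set (B → (integralClosure ℤ ℂ) ⧸ 𝔐)),
      (∃ o, ¬ dzT 𝔐 ℓ ι (β o)) →
      ∑ τ ∈ ClCh O G ℓ, (-1 : ℚ) ^ τ.card * ((∏ o, (Nat.card (stb (comp τ o)) : ℚ)) *
        ∑ θ ∈ Fintype.piFinset (fun o => irrOn (stb (comp τ o))),
          (if J ≤ KB κ p φ τ θ ∧ ∑ o, df ℓ (stb (comp τ o)) (θ o) = e ∧
            bts 𝔐 ι κ ρ p φ τ θ J = β then 1 else 0)) = 0

open Classical in
/-- COMBR: the vanishing of the combinatorial sum. -/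
def Stmt_COMBR : Prop :=
  ∀ (O G B C Y K : Type) [Fintype O] [DecidableEq O] [Group G] [Fintype G] [Group B] [Fintype B]
    [Group C] [Group Y] [Fintype Y] [Group K] [Finite K]
    (𝔐 : Ideal (integralClosure ℤ ℂ)) (ℓ : ℕ) [Fact ℓ.Prime]
    (ι : G →* B) (κ : B →* MulAut G) (ρ : B →* C), LocS ℓ ι κ ρ →
    ∀ (j : (O → G) →* Y) (p : Y →* K) (φ : Y →* Gam (Equiv.Perm O) O B), ExtS ι κ j p φ →
    (∀ (J : Subgroup K) (e : ℕ) (β : O → Set (B → (integralClosure ℤ ℂ) ⧸ 𝔐)),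
      (∃ o, ¬ dzT 𝔐 ℓ ι (β o)) →
      ∑ τ ∈ ClCh O G ℓ, (-1 : ℚ) ^ τ.card * ((∏ o, (Nat.card (stb (comp τ o)) : ℚ)) *
        ∑ θ ∈ Fintype.piFinset (fun o => irrOn (stb (comp τ o))),
          (if J ≤ KB κ p φ τ θ ∧ ∑ o, df ℓ (stb (comp τ o)) (θ o) = e ∧
            bts 𝔐 ι κ ρ p φ τ θ J = β then 1 else 0)) = 0) →
    ∀ Φ : Subgroup K → ℕ → (O → Set (B → (integralClosure ℤ ℂ) ⧸ 𝔐)) → ℚ,
      (∀ J e β, Φ J e β ≠ 0 → ∃ o, ¬ dzT 𝔐 ℓ ι (β o)) →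
      ∑ τ ∈ ClCh O G ℓ, (-1 : ℚ) ^ τ.card * ((∏ o, (Nat.card (stb (comp τ o)) : ℚ)) *
        ∑ θ ∈ Fintype.piFinset (fun o => irrOn (stb (comp τ o))),
          Φ (KB κ p φ τ θ) (∑ o, df ℓ (stb (comp τ o)) (θ o))
            (bts 𝔐 ι κ ρ p φ τ θ (KB κ p φ τ θ))) = 0

/-! ### Group theory -/

/-- DHE: Dade's conjecture is invariant under isomorphisms. -/
def Stmt_DHE : Prop :=
  ∀ (G G' : Type) [Group G] [Finite G] [Group G'] [Finite G'] (ℓ : ℕ) [Fact ℓ.Prime],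
    G ≃* G' → DadeHolds ℓ G → DadeHolds ℓ G'

/-- RX0: the structure of `X`. -/
def Stmt_RX0 : Prop :=
  ∀ (G X Ω : Type) [Group G] [Finite G] [Group X] [Finite X] [Finite Ω] (ℓ : ℕ) [Fact ℓ.Prime],
    pCore ℓ G = ⊥ → Subgroup.center G = ⊥ → Nontrivial G →
    ∀ (a : MulAut G) (A : Subgroup (MulAut G)),
      A = (MulAut.conj : G →* MulAut G).range ⊔ Subgroup.zpowers a →
      ¬ ℓ ∣ (MulAut.conj : G →* MulAut G).range.relIndex A →
      (∀ T : Subgroup (MulAut G), (MulAut.conj : G →* MulAut G).range ≤ T → T ≤ A →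
        DadeHolds ℓ T) →
      ∀ e : (Ω → G) →* X, Function.Injective e →
      (∀ y : X, ∃ (s : Equiv.Perm Ω) (α : Ω → MulAut G), (∀ i, α i ∈ A) ∧
        ∀ x : Ω → G, y * e x * y⁻¹ = e (fun i => α i (x (s i)))) →
      ∃ (B C K : Type) (_ : Group B) (_ : Fintype B) (_ : Group C) (_ : Group K) (_ : Finite K)
        (ι : G →* B) (κ : B →* MulAut G) (ρ : B →* C) (p : X →* K)
        (φ : X →* Gam (Equiv.Perm Ω) Ω B),
        LocS ℓ ι κ ρ ∧ (∀ T : Subgroup B, ι.range ≤ T → DadeHolds ℓ T) ∧ ExtS ι κ e p φ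

/-- ZRR: the group `O_ℓ(X)` meets `G ^ Ω` trivially. -/
def Stmt_ZRR : Prop :=
  ∀ (O G B X K : Type) [Finite O] [Group G] [Finite G] [Group B] [Group X] [Finite X]
    [Group K] (ℓ : ℕ) [Fact ℓ.Prime]
    (ι : G →* B) (κ : B →* MulAut G), pCore ℓ G = ⊥ →
    ∀ (j : (O → G) →* X) (p : X →* K) (φ : X →* Gam (Equiv.Perm O) O B), ExtS ι κ j p φ →
      (pCore ℓ X).Normal ∧ IsPGroup ℓ (pCore ℓ X) ∧ j.range.Normal ∧
      pCore ℓ X ⊓ j.range = ⊥

/-- RINA: the centralizer of an `ℓ`-subgroup. -/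
def Stmt_RINA : Prop :=
  ∀ (Ω G B C X K : Type) [Fintype Ω] [DecidableEq Ω] [Group G] [Fintype G] [Group B]
    [Fintype B] [Group C] [Group X] [Fintype X] [Group K] (ℓ : ℕ) [Fact ℓ.Prime]
    (ι : G →* B) (κ : B →* MulAut G) (ρ : B →* C), LocS ℓ ι κ ρ →
    ∀ (e : (Ω → G) →* X) (p : X →* K) (φ : X →* Gam (Equiv.Perm Ω) Ω B), ExtS ι κ e p φ →
    ∀ Q : Subgroup X, IsPGroup ℓ Q → Q ⊓ e.range = ⊥ → pCore ℓ (cN e.range Q) = ⊥ →
    ∃ (O : Type) (_ : Fintype O) (_ : DecidableEq O) (π : Ω → O) (u : Ω → B),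
      Function.Surjective π ∧ (∀ w w', π w = π w' ↔ ∃ q ∈ Q, (φ q).right • w = w') ∧
      (∀ o, ∃ k, Nat.card {w : Ω // π w = o} = ℓ ^ k) ∧
      (∀ q ∈ Q, ∀ w, u ((φ q).right • w) = (φ q).left ((φ q).right • w) * u w) ∧
      ∀ n : Ω → G, e n ∈ Subgroup.centralizer (Q : Set X) ↔
        ∃ n' : O → G, n = fun w => κ (u w) (n' (π w))

/-- RINB: the action of a group normalizing `Q` on the centralizer. -/
def Stmt_RINB : Prop :=
  ∀ (Ω G B C X K O : Type) [Fintype Ω] [DecidableEq Ω] [Group G] [Fintype G] [Group B]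
    [Fintype B] [Group C] [Group X] [Fintype X] [Group K] [Fintype O] [DecidableEq O]
    (ℓ : ℕ) [Fact ℓ.Prime]
    (ι : G →* B) (κ : B →* MulAut G) (ρ : B →* C), LocS ℓ ι κ ρ →
    ∀ (e : (Ω → G) →* X) (p : X →* K) (φ : X →* Gam (Equiv.Perm Ω) Ω B), ExtS ι κ e p φ →
    ∀ Q : Subgroup X, Q ⊓ e.range = ⊥ →
    ∀ (π : Ω → O) (u : Ω → B),
      Function.Surjective π → (∀ w w', π w = π w' ↔ ∃ q ∈ Q, (φ q).right • w = w') →
      (∀ q ∈ Q, ∀ w, u ((φ q).right • w) = (φ q).left ((φ q).right • w) * u w) →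
      (∀ n : Ω → G, e n ∈ Subgroup.centralizer (Q : Set X) ↔
        ∃ n' : O → G, n = fun w => κ (u w) (n' (π w))) →
    ∀ Y : Subgroup X, (∀ y ∈ Y, Q.map (MulAut.conj y).toMonoidHom = Q) →
      cN e.range Q ≤ Y →
      ∃ (K' : Type) (_ : Group K') (_ : Finite K') (j : (O → G) →* Y) (p' : Y →* K')
        (φ' : Y →* Gam (Equiv.Perm O) O B), ExtS ι κ j p' φ' ∧
        (∀ n : O → G, ((j n : Y) : X) = e (fun w => κ (u w) (n (π w)))) ∧
        (∀ y : Y, (y : X) ∈ e.range → y ∈ j.range) ∧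
        ∀ y : Y, (y : X) ∈ cN e.range Q ↔ y ∈ j.range

/-- RINNER: the inner sum of an outer chain. -/
def Stmt_RINNER : Prop :=
  ∀ (Ω G B C X K : Type) [Fintype Ω] [DecidableEq Ω] [Group G] [Fintype G] [Group B]
    [Fintype B] [Group C] [Group X] [Fintype X] [Group K] (ℓ : ℕ) [Fact ℓ.Prime]
    (ι : G →* B) (κ : B →* MulAut G) (ρ : B →* C), LocS ℓ ι κ ρ →
    ∀ (e : (Ω → G) →* X) (p : X →* K) (φ : X →* Gam (Equiv.Perm Ω) Ω B), ExtS ι κ e p φ →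
    ∀ Z : Subgroup X, Z.Normal → IsPGroup ℓ Z → Z ⊓ e.range = ⊥ →
    ∀ c : Finset (Subgroup X), IsCh ℓ Z c → (∀ D ∈ c, D ⊓ e.range = ⊥) →
      pCore ℓ (cN e.range (tp Z c)) ≠ ⊥ ∨
      ∃ (O K' : Type) (_ : Fintype O) (_ : DecidableEq O) (_ : Group K') (_ : Finite K')
        (π : Ω → O) (u : Ω → B) (j : (O → G) →* stb c) (p' : stb c →* K')
        (φ' : stb c →* Gam (Equiv.Perm O) O B), ExtS ι κ j p' φ' ∧
        Function.Surjective π ∧ (∀ o, ∃ k, Nat.card {w : Ω // π w = o} = ℓ ^ k) ∧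
        (∀ n : O → G, ((j n : stb c) : X) = e (fun w => κ (u w) (n (π w)))) ∧
        (∀ y : stb c, (y : X) ∈ e.range → y ∈ j.range) ∧
        ∀ W : Subgroup X → ℚ, innerS ℓ Z e.range W c =
          ∑ τ ∈ Ch ℓ (⊥ : Subgroup (O → G)), (-1 : ℚ) ^ τ.card *
            W ((YS j τ).map (stb c).subtype)

/-- CLOSEDR: restriction to chains of product subgroups. -/
def Stmt_CLOSEDR : Prop :=
  ∀ (O G B Y K : Type) [Fintype O] [DecidableEq O] [Group G] [Fintype G] [Group B] [Group Y]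
    [Group K] (ℓ : ℕ) (ι : G →* B) (κ : B →* MulAut G)
    (j : (O → G) →* Y) (p : Y →* K) (φ : Y →* Gam (Equiv.Perm O) O B), ExtS ι κ j p φ →
    ∀ W : Subgroup Y → ℚ,
      ∑ τ ∈ Ch ℓ (⊥ : Subgroup (O → G)), (-1 : ℚ) ^ τ.card * W (YS j τ) =
        ∑ τ ∈ ClCh O G ℓ, (-1 : ℚ) ^ τ.card * W (YS j τ)

/-! ### Blocks -/

/-- BLKAR: an invariant integer valued class function separating the defect zero characters. -/
def Stmt_BLKAR : Prop :=
  ∀ (G B : Type) [Group G] [Fintype G] [Group B] [Fintype B]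
    (𝔐 : Ideal (integralClosure ℤ ℂ)) (ℓ : ℕ) [Fact ℓ.Prime],
    𝔐.IsMaximal → (ℓ : integralClosure ℤ ℂ) ∈ 𝔐 → ∀ κ : B →* MulAut G,
    ∃ f : G → ℤ, (∀ g x, f (g * x * g⁻¹) = f x) ∧ (∀ b x, f (κ b x) = f x) ∧
      (∀ (χ : G → ℂ) (e : ℕ), IsIrr χ → HasDefect ℓ χ e → 0 < e →
        red 𝔐 (wt χ (fun x => (f x : ℂ))) = 0) ∧
      ∀ χ : G → ℂ, IsIrr χ → HasDefect ℓ χ 0 → red 𝔐 (wt χ (fun x => (f x : ℂ))) ≠ 0

/-- BLKBR: blocks over a character of positive defect do not contain induced blocks over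
characters of defect zero. -/
def Stmt_BLKBR : Prop :=
  ∀ (Ω O G B X Y K K' : Type) [Fintype Ω] [DecidableEq Ω] [Fintype O] [DecidableEq O]
    [Group G] [Fintype G] [Group B] [Fintype B] [Group X] [Fintype X] [Group Y] [Fintype Y]
    [Group K] [Group K'] (𝔐 : Ideal (integralClosure ℤ ℂ)) (ℓ : ℕ) [Fact ℓ.Prime],
    𝔐.IsMaximal → (ℓ : integralClosure ℤ ℂ) ∈ 𝔐 →
    ∀ (ι : G →* B) (κ : B →* MulAut G) (e : (Ω → G) →* X) (p : X →* K)
      (φ : X →* Gam (Equiv.Perm Ω) Ω B) (j : (O → G) →* Y) (p' : Y →* K')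
      (φ' : Y →* Gam (Equiv.Perm O) O B), ExtS ι κ e p φ → ExtS ι κ j p' φ' →
    ∀ (i : Y →* X) (π : Ω → O) (u : Ω → B),
      (∀ o, ∃ k, Nat.card {w : Ω // π w = o} = ℓ ^ k) →
      (∀ n : O → G, i (j n) = e (fun w => κ (u w) (n (π w)))) →
      (∀ y, i y ∈ e.range → y ∈ j.range) →
    ∀ (χ : X → ℂ) (ξ : Ω → G → ℂ) (w : Ω) (d : ℕ), IsIrr χ → (∀ a, IsIrr (ξ a)) →
      ip (resj e χ) (fun n => ∏ a, ξ a (n a)) ≠ 0 → HasDefect ℓ (ξ w) d → 0 < d →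
    ∀ (ψ : Y → ℂ) (θ : O → G → ℂ), IsIrr ψ → (∀ o, IsIrr (θ o)) →
      (∀ o, HasDefect ℓ (θ o) 0) → ip (resj j ψ) (fun n => ∏ o, θ o (n o)) ≠ 0 →
      ¬ ∀ g, cen 𝔐 i ψ g = cen 𝔐 (MonoidHom.id X) χ g

/-- BLKCR: only the empty chain contributes to products of defect zero. -/
def Stmt_BLKCR : Prop :=
  ∀ (O G B C Y K X : Type) [Fintype O] [DecidableEq O] [Group G] [Fintype G] [Group B]
    [Fintype B] [Group C] [Group Y] [Fintype Y] [Group K] [Finite K] [Group X]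
    (𝔐 : Ideal (integralClosure ℤ ℂ)) (ℓ : ℕ) [Fact ℓ.Prime], 𝔐.IsMaximal →
    (ℓ : integralClosure ℤ ℂ) ∈ 𝔐 →
    ∀ (ι : G →* B) (κ : B →* MulAut G) (ρ : B →* C), LocS ℓ ι κ ρ →
    ∀ (j : (O → G) →* Y) (p : Y →* K) (φ : Y →* Gam (Equiv.Perm O) O B)
      (h : ExtS ι κ j p φ) (i : Y →* X), ∀ τ ∈ ClCh O G ℓ, ∀ θ : O → G → ℂ,
      (∀ o, IrrOn (stb (comp τ o)) (θ o)) → ∀ ψ : YS j τ → ℂ, IsIrr ψ →
      ip (resj (jS h.cl τ) ψ) (fun a => ∏ o, θ o ((a : O → G) o)) ≠ 0 →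
      ∀ J : Subgroup K, (∀ o, dzT 𝔐 ℓ ι (bts 𝔐 ι κ ρ p φ τ θ J o)) →
      (∀ o, IsIrr (θ o)) ∧ (∀ o, HasDefect ℓ (θ o) 0) ∧
      ∃ ψ' : Y → ℂ, IsIrr ψ' ∧ ip (resj j ψ') (fun n => ∏ o, θ o (n o)) ≠ 0 ∧
        ∀ x, cen 𝔐 i ψ' x = cen 𝔐 (i.comp (YS j τ).subtype) ψ x

end Pool.Agent.DP


end
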