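import Mathlib
import Pool.Agent.DAM.C01

/-! Parts: Dade90.Ext, Dade90.Frob -/

section

/-! Extension of automorphisms of subfields of `ℂ` to automorphisms of `ℂ`. -/

namespace Pool.Agent.Dade90

open MvPolynomial in
theorem exists_extension (E : IntermediateField ℚ ℂ) (σ₀ : E ≃ₐ[ℚ] E) :
    ∃ σ : ℂ ≃+* ℂ, ∀ x : E, σ (x : ℂ) = (σ₀ x : ℂ) := by
  obtain ⟨ι, v, hv⟩ := exists_isTranscendenceBasis' E ℂ
  let A := Algebra.adjoin E (Set.range v)
  have hcl : IsAlgClosure A ℂ := IsAlgClosed.isAlgClosure_of_transcendence_basis v hv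
  let e0 : MvPolynomial ι E ≃ₐ[E] A := hv.1.aevalEquiv
  let e : A ≃+* A := (e0.symm.toRingEquiv.trans (MvPolynomial.mapEquiv ι σ₀.toRingEquiv)).trans
    e0.toRingEquiv
  have he : ∀ x : E, e (algebraMap E A x) = algebraMap E A (σ₀ x) := by
    intro x
    change e0 (MvPolynomial.map (σ₀.toRingEquiv : E →+* E) (e0.symm (algebraMap E A x))) = _
    rw [AlgEquiv.commutes, MvPolynomial.algebraMap_eq, MvPolynomial.map_C]
    rw [← MvPolynomial.algebraMap_eq, AlgEquiv.commutes]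
    rfl
  refine ⟨IsAlgClosure.equivOfEquiv ℂ ℂ e, fun x => ?_⟩
  have h := IsAlgClosure.equivOfEquiv_algebraMap ℂ ℂ e (algebraMap E A x)
  rw [he] at h
  exact h

end Pool.Agent.Dade90


end

section

/-! A Frobenius automorphism at a maximal ideal of the ring of algebraic integers in `ℂ`. -/

namespace Pool.Agent.Dade90

open Pool.Agent.Lib_helper13

/-- The cyclotomic field of the `n`-th roots of unity in `ℂ`. -/
noncomputable def cyc (n : ℕ) : IntermediateField ℚ ℂ :=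
  IntermediateField.adjoin ℚ (((Polynomial.X ^ n - 1 : Polynomial ℚ)).rootSet ℂ)

theorem cyc_splitting (n : ℕ) :
    Polynomial.IsSplittingField ℚ (cyc n) (Polynomial.X ^ n - 1 : Polynomial ℚ) :=
  IntermediateField.adjoin_rootSet_isSplittingField (IsAlgClosed.splits _)

theorem cyc_finite (n : ℕ) : FiniteDimensional ℚ (cyc n) :=
  have := cyc_splitting n
  Polynomial.IsSplittingField.finiteDimensional (cyc n) (Polynomial.X ^ n - 1 : Polynomial ℚ)

theorem cyc_galois {n : ℕ} (hn : 0 < n) : IsGalois ℚ (cyc n) := by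
  have h1 := cyc_splitting n
  have : (Polynomial.X ^ n - 1 : Polynomial ℚ).Separable := by
    have : (n : ℚ) ≠ 0 := by exact_mod_cast hn.ne'
    have h2 := Polynomial.separable_X_pow_sub_C (1 : ℚ) this one_ne_zero
    simpa using h2
  exact IsGalois.of_separable_splitting_field this

theorem mem_cyc {n : ℕ} (hn : 0 < n) {ζ : ℂ} (h : ζ ^ n = 1) : ζ ∈ cyc n := by
  apply IntermediateField.subset_adjoin
  rw [Polynomial.mem_rootSet']
  constructor
  · rw [Polynomial.map_sub, Polynomial.map_pow, Polynomial.map_X, Polynomial.map_one]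
    exact (Polynomial.monic_X_pow_sub_C (1 : ℂ) hn.ne').ne_zero
  · simp [h]

theorem exists_frob (𝔐 : Ideal (integralClosure ℤ ℂ)) [h𝔐 : 𝔐.IsPrime] {ℓ : ℕ}
    [hf : Fact ℓ.Prime] (hℓ : (ℓ : integralClosure ℤ ℂ) ∈ 𝔐) {n : ℕ} (hn : 0 < n) :
    ∃ σ : ℂ ≃+* ℂ, ∀ a : ℂ, IsIntegral ℤ a → a ∈ cyc n → red 𝔐 (σ a) = red 𝔐 a ^ ℓ := by
  classical
  have h1 := cyc_finite n
  have h2 := cyc_galois hn
  have hnf : NumberField (cyc n) := ⟨⟩
  let B := NumberField.RingOfIntegers (cyc n)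
  let _ := IsIntegralClosure.MulSemiringAction ℤ ℚ (cyc n) B
  have hinv : Algebra.IsInvariant ℤ B Gal((cyc n)/ℚ) := Algebra.isInvariant_of_isGalois ℤ ℚ (cyc n) B
  let i : B →+* integralClosure ℤ ℂ :=
    { toFun := fun b => ⟨((b : cyc n) : ℂ), by
        have hb : IsIntegral ℤ (b : cyc n) := b.isIntegral_coe
        exact hb.map (IsScalarTower.toAlgHom ℤ (cyc n) ℂ)⟩
      map_one' := rfl
      map_mul' := fun _ _ => rfl
      map_zero' := rfl
      map_add' := fun _ _ => rfl }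
  let Q : Ideal B := 𝔐.comap i
  have hQ : Q.IsPrime := Ideal.comap_isPrime i 𝔐
  have hℓQ : (ℓ : B) ∈ Q := by
    change i (ℓ : B) ∈ 𝔐
    rw [map_natCast]
    exact hℓ
  have hQ0 : Q ≠ ⊥ := by
    intro h
    rw [h, Ideal.mem_bot] at hℓQ
    exact hf.out.ne_zero (by exact_mod_cast hℓQ)
  have hfin : Finite (B ⧸ Q) := Ideal.finiteQuotientOfFreeOfNeBot Q hQ0
  obtain ⟨σ₀, hσ₀⟩ := IsArithFrobAt.exists_of_isInvariant ℤ Gal((cyc n)/ℚ) Q
  have hunder : Q.under ℤ = Ideal.span {(ℓ : ℤ)} := by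
    symm
    have hmax : (Ideal.span {(ℓ : ℤ)}).IsMaximal :=
      PrincipalIdealRing.isMaximal_of_irreducible
        ((Nat.prime_iff_prime_int.mp hf.out).irreducible)
    apply hmax.eq_of_le
    · exact (Ideal.IsPrime.under ℤ Q).ne_top
    · rw [Ideal.span_singleton_le_iff_mem]
      change algebraMap ℤ B (ℓ : ℤ) ∈ Q
      simpa using hℓQ
  have hcard : Nat.card (ℤ ⧸ Q.under ℤ) = ℓ := by
    rw [hunder]
    rw [Nat.card_congr (Int.quotientSpanNatEquivZMod ℓ).toEquiv, Nat.card_zmod]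
  obtain ⟨σ, hσ⟩ := exists_extension (cyc n) σ₀
  refine ⟨σ, fun a ha hac => ?_⟩
  -- the element of `B`
  have hab : IsIntegral ℤ (⟨a, hac⟩ : cyc n) := by
    rw [← isIntegral_algebraMap_iff (FaithfulSMul.algebraMap_injective (cyc n) ℂ)]
    exact ha
  let b : B := ⟨⟨a, hac⟩, hab⟩
  have h3 := hσ₀ b
  rw [hcard] at h3
  have h4 : ((σ₀ • b : B) : cyc n) = σ₀ (b : cyc n) := by
    exact algebraMap_galRestrictHom_apply ℤ ℚ (cyc n) B (σ₀ : cyc n →ₐ[ℚ] cyc n) b
  have h5 : i (σ₀ • b) - i b ^ ℓ ∈ 𝔐 := by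
    rw [← map_pow, ← map_sub]
    exact h3
  have h6 : ((i (σ₀ • b) : integralClosure ℤ ℂ) : ℂ) = σ a := by
    change (((σ₀ • b : B) : cyc n) : ℂ) = _
    rw [h4, ← hσ]
    rfl
  have hσa : IsIntegral ℤ (σ a) := by
    rw [← h6]
    exact (i (σ₀ • b)).2
  rw [red_of_integral 𝔐 hσa, red_of_integral 𝔐 ha, ← map_pow, Ideal.Quotient.eq]
  have h7 : (⟨σ a, hσa⟩ : integralClosure ℤ ℂ) = i (σ₀ • b) := Subtype.ext h6.symm
  have h8 : (⟨a, ha⟩ : integralClosure ℤ ℂ) = i b := rfl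
  rw [h7, h8]
  exact h5

end Pool.Agent.Dade90


end
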