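import Mathlib
import Pool.Agent.DAM.C03
import Pool.Agent.DAM.C08
import Pool.Agent.DAM.C09

/-! Parts: Dade90.Twist, DP.DefsB, DP.StmtsB, DP.LTI, DP.TEST -/

section

set_option linter.unusedSectionVars false

/-! Galois twists of irreducible characters. -/

namespace Pool.Agent.Dade90

open Pool.Agent.Lib_helper13 Representation

section Sig

variable {Y : Type*} [Group Y] [Fintype Y]

/-- The Galois conjugate of a representation. -/
noncomputable def sigRep (σ : ℂ ≃+* ℂ) {n : ℕ} (ρ : Representation ℂ Y (Fin n → ℂ)) :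
    Representation ℂ Y (Fin n → ℂ) where
  toFun y := Matrix.toLin' ((LinearMap.toMatrix' (ρ y)).map σ)
  map_one' := by
    rw [map_one]
    change Matrix.toLin' ((LinearMap.toMatrix' (LinearMap.id)).map σ) = _
    rw [LinearMap.toMatrix'_id, Matrix.map_one _ (map_zero σ) (map_one σ), Matrix.toLin'_one]
    rfl
  map_mul' x y := by
    rw [map_mul]
    change Matrix.toLin' ((LinearMap.toMatrix' ((ρ x).comp (ρ y))).map σ) = _
    rw [LinearMap.toMatrix'_comp, Matrix.map_mul, Matrix.toLin'_mul]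
    rfl

theorem sigRep_character (σ : ℂ ≃+* ℂ) {n : ℕ} (ρ : Representation ℂ Y (Fin n → ℂ)) (y : Y) :
    (sigRep σ ρ).character y = σ (ρ.character y) := by
  change LinearMap.trace ℂ _ (Matrix.toLin' ((LinearMap.toMatrix' (ρ y)).map σ)) =
    σ (LinearMap.trace ℂ _ (ρ y))
  rw [Matrix.trace_toLin'_eq, LinearMap.trace_eq_matrix_trace ℂ (Pi.basisFun ℂ (Fin n)) (ρ y)]
  rw [Matrix.trace, Matrix.trace, map_sum]
  rfl

theorem isIrr_sig (σ : ℂ ≃+* ℂ) {χ : Y → ℂ} (h : IsIrr χ) : IsIrr (fun y => σ (χ y)) := by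
  have h1 := h.sum_self
  obtain ⟨n, ρ, _, rfl⟩ := h
  have h2 : (fun y => σ (ρ.character y)) = (sigRep σ ρ).character :=
    funext fun y => (sigRep_character σ ρ y).symm
  rw [h2]
  apply isIrr_of_rep_sum
  simp only [sigRep_character, ← map_mul, ← map_sum]
  rw [h1, map_natCast]

theorem isIrr_sig_iff (σ : ℂ ≃+* ℂ) {χ : Y → ℂ} : IsIrr (fun y => σ (χ y)) ↔ IsIrr χ := by
  constructor
  · intro h
    have := isIrr_sig σ.symm h
    simpa using this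
  · exact isIrr_sig σ

theorem hasDefect_sig (σ : ℂ ≃+* ℂ) {χ : Y → ℂ} {ℓ d : ℕ} :
    HasDefect ℓ (fun y => σ (χ y)) d ↔ HasDefect ℓ χ d := by
  constructor
  · rintro ⟨n, hn, hn'⟩
    refine ⟨n, ?_, hn'⟩
    apply σ.injective
    rw [map_natCast]
    exact hn
  · rintro ⟨n, hn, hn'⟩
    refine ⟨n, ?_, hn'⟩
    simp only
    rw [hn, map_natCast]

/-- The values of a character of a group of order dividing `n` lie in the cyclotomic field. -/
theorem char_mem_cyc {χ : Y → ℂ} (hχ : IsIrr χ) {n : ℕ} (hn : 0 < n) (hY : Nat.card Y ∣ n)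
    (x : Y) : χ x ∈ cyc n := by
  obtain ⟨m, ρ, _, rfl⟩ := hχ
  have h1 : ρ.character x = LinearMap.trace ℂ _ (ρ x) := rfl
  rw [h1, Module.End.trace_eq_sum_roots_charpoly_of_splits (IsAlgClosed.splits _)]
  apply Multiset.sum_induction (p := fun z : ℂ => z ∈ cyc n)
  · intro a b ha hb
    exact add_mem ha hb
  · exact zero_mem _
  · intro μ hμ
    have h2 : (ρ x).charpoly.IsRoot μ := (Polynomial.mem_roots'.mp hμ).2
    rw [← Module.End.hasEigenvalue_iff_isRoot_charpoly] at h2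
    obtain ⟨v, hv⟩ := h2.exists_hasEigenvector
    have h3 : (ρ x ^ Nat.card Y) v = μ ^ Nat.card Y • v := by
      rw [hv.pow_apply]
    rw [← map_pow, pow_card_eq_one', map_one, Module.End.one_apply] at h3
    have h4 : μ ^ Nat.card Y = 1 := by
      have h5 : (μ ^ Nat.card Y - 1) • v = 0 := by
        rw [sub_smul, one_smul, ← h3, sub_self]
      rcases smul_eq_zero.mp h5 with h6 | h6
      · exact sub_eq_zero.mp h6
      · exact absurd h6 hv.2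
    apply mem_cyc hn
    obtain ⟨k, rfl⟩ := hY
    rw [pow_mul, h4, one_pow]

variable (𝔐 : Ideal (integralClosure ℤ ℂ))

theorem cen_sig {G : Type*} [Group G] [Fintype G] {ℓ n : ℕ} (hn : 0 < n)
    {σ : ℂ ≃+* ℂ}
    (hσ : ∀ a : ℂ, IsIntegral ℤ a → a ∈ cyc n → red 𝔐 (σ a) = red 𝔐 a ^ ℓ)
    (hY : Nat.card Y ∣ n) (i : Y →* G) {θ : Y → ℂ} (hθ : IsIrr θ) (g : G) :
    cen 𝔐 i (fun y => σ (θ y)) g = cen 𝔐 i θ g ^ ℓ := by
  classical
  rw [cen, cen, ← hσ _ (isIntegral_wt_conj i hθ g)]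
  · congr 1
    rw [wt, wt, map_div₀, map_sum]
    congr 1
    refine Finset.sum_congr rfl fun y _ => ?_
    rw [map_mul, conjInd]
    split_ifs <;> simp
  · rw [wt]
    apply div_mem _ (char_mem_cyc hθ hn hY 1)
    apply sum_mem
    intro y _
    apply mul_mem _ (char_mem_cyc hθ hn hY y)
    rw [conjInd]
    split_ifs
    · exact one_mem _
    · exact zero_mem _

variable {G : Type*} [Group G] [Fintype G]

theorem cnt_frob [h𝔐 : 𝔐.IsPrime] {ℓ : ℕ} [Fact ℓ.Prime]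
    (hℓ : (ℓ : integralClosure ℤ ℂ) ∈ 𝔐) (d : ℕ) (i : Y →* G)
    (ω : G → (integralClosure ℤ ℂ) ⧸ 𝔐) :
    cnt 𝔐 ℓ d i (fun g => ω g ^ ℓ) = cnt 𝔐 ℓ d i ω := by
  have hn : 0 < Nat.card Y := Nat.card_pos
  obtain ⟨σ, hσ⟩ := exists_frob 𝔐 hℓ hn
  have hchar := quot_char 𝔐 hℓ
  have hinj : ∀ x y : (integralClosure ℤ ℂ) ⧸ 𝔐, x ^ ℓ = y ^ ℓ → x = y := by
    intro x y h
    have h1 : (x - y) ^ ℓ = 0 := by rw [sub_pow_char, h, sub_self]
    exact sub_eq_zero.mp ((pow_eq_zero_iff (Fact.out : ℓ.Prime).ne_zero).mp h1)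
  rw [cnt, cnt]
  symm
  refine Nat.card_congr ⟨fun ψ => ⟨fun y => σ (ψ.1 y), isIrr_sig σ ψ.2.1,
      (hasDefect_sig σ).mpr ψ.2.2.1, ?_⟩,
    fun ψ => ⟨fun y => σ.symm (ψ.1 y), isIrr_sig σ.symm ψ.2.1,
      (hasDefect_sig σ.symm).mpr ψ.2.2.1, ?_⟩, ?_, ?_⟩
  · intro g
    rw [cen_sig 𝔐 hn hσ dvd_rfl i ψ.2.1 g, ψ.2.2.2 g]
  · intro g
    apply hinj
    rw [← cen_sig 𝔐 hn hσ dvd_rfl i (isIrr_sig σ.symm ψ.2.1) g, ← ψ.2.2.2 g]
    congr 1
    ext y
    simp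
  · intro ψ
    apply Subtype.ext
    ext y
    simp
  · intro ψ
    apply Subtype.ext
    ext y
    simp

/-- The chain sums do not change under Frobenius twists. -/
theorem KK_frob [h𝔐 : 𝔐.IsPrime] {ℓ : ℕ} [Fact ℓ.Prime]
    (hℓ : (ℓ : integralClosure ℤ ℂ) ∈ 𝔐) (d : ℕ) (Z : Subgroup G)
    (ω : G → (integralClosure ℤ ℂ) ⧸ 𝔐) :
    KK 𝔐 ℓ d Z (fun g => ω g ^ ℓ) = KK 𝔐 ℓ d Z ω := by
  rw [KK, KK]
  refine Finset.sum_congr rfl fun σ _ => ?_
  rw [cnt_frob 𝔐 hℓ]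

theorem KK_frob_pow [h𝔐 : 𝔐.IsPrime] {ℓ : ℕ} [Fact ℓ.Prime]
    (hℓ : (ℓ : integralClosure ℤ ℂ) ∈ 𝔐) (d : ℕ) (Z : Subgroup G)
    (ω : G → (integralClosure ℤ ℂ) ⧸ 𝔐) (a : ℕ) :
    KK 𝔐 ℓ d Z (fun g => ω g ^ ℓ ^ a) = KK 𝔐 ℓ d Z ω := by
  induction a with
  | zero => simp
  | succ a ih =>
    rw [← ih, ← KK_frob 𝔐 hℓ d Z (fun g => ω g ^ ℓ ^ a)]
    congr 1
    ext g
    rw [pow_succ, pow_mul]

end Sig

end Pool.Agent.Dade90


end

section

set_option linter.unusedSectionVars false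

/-!
# Dade's conjecture for `G ^ Ω ⋊ R`, stage 2: definitions
-/

namespace Pool.Agent.DP

open Pool.Agent.Lib_helper13 Representation

section Mat

variable {G : Type*} [Group G]

open Classical in
/-- The size of chosen matrices of a character of `G`. -/
noncomputable def mm (χ : G → ℂ) : ℕ :=
  if h : ∃ m M, MD (⊤ : Subgroup G) χ m M then h.choose else 0

open Classical in
/-- Chosen matrices of a character of `G`. -/
noncomputable def MM (χ : G → ℂ) : G → ℕ → ℕ → ℂ :=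
  if h : ∃ m M, MD (⊤ : Subgroup G) χ m M then h.choose_spec.choose else fun _ _ _ => 0

theorem mm_spec {χ : G → ℂ} (h : ∃ m M, MD (⊤ : Subgroup G) χ m M) :
    MD (⊤ : Subgroup G) χ (mm χ) (MM χ) := by
  rw [mm, MM, dif_pos h, dif_pos h]
  exact h.choose_spec.choose_spec

/-- The value at `(n, k)` of the canonical extension of the outer product of the characters
`c w`. -/
noncomputable def tC {Ω : Type*} [Fintype Ω] [DecidableEq Ω] (c : Ω → G → ℂ)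
    (k : Equiv.Perm Ω) (n : Ω → G) : ℂ :=
  TH (fun w => mm (c w)) (fun w => MM (c w)) k n

/-- The canonical extension to `G ^ Ω ⋊ R`. -/
noncomputable def EE {R Ω : Type*} [Group R] [MulAction R Ω] [Fintype Ω] [DecidableEq Ω]
    (c : Ω → G → ℂ) (y : Gam R Ω G) : ℂ :=
  tC c (MulAction.toPerm y.right) y.left

/-- The weighted sum over a coset. -/
noncomputable def aC {Ω : Type*} [Fintype Ω] [DecidableEq Ω] [Fintype G] (c : Ω → G → ℂ)
    (k : Equiv.Perm Ω) (F : (Ω → G) → ℂ) : ℂ :=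
  (∑ n : Ω → G, F n * tC c k n) / ∏ w, c w 1

end Mat

/-- `aC` is the weighted sum `aS` for the subgroups `⊤`. -/
theorem aS_top {O G : Type*} [Group G] [Fintype O] [DecidableEq O] [Fintype G]
    (θ : O → G → ℂ) (k : Equiv.Perm O) (F : (O → G) → ℂ) :
    aS (fun _ => (⊤ : Subgroup G)) θ (fun w => mm (θ w)) (fun w => MM (θ w)) k F =
      aC θ k F := by
  rw [aS, aC]
  congr 1
  refine Fintype.sum_equiv (Equiv.piCongrRight fun _ : O => (Subgroup.topEquiv (G := G)).toEquiv)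
    _ _ fun n => ?_
  rfl

open Classical in
/-- The irreducible characters of `ℓ`-defect zero. -/
noncomputable def dzF (ℓ : ℕ) (G : Type*) [Group G] [Fintype G] : Finset (G → ℂ) :=
  (irrF G).filter (fun χ => HasDefect ℓ χ 0)

theorem mem_dzF {ℓ : ℕ} {G : Type*} [Group G] [Fintype G] {χ : G → ℂ} :
    χ ∈ dzF ℓ G ↔ IsIrr χ ∧ HasDefect ℓ χ 0 := by
  classical
  rw [dzF, Finset.mem_filter, mem_irrF]

/-- The Galois twist of a function. -/
def tw {G : Type*} (σ : ℂ ≃+* ℂ) (χ : G → ℂ) : G → ℂ := fun x => σ (χ x)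

/-- `σ` is a Frobenius automorphism at `𝔐` on the integral elements of the field of `n`-th roots
of unity. -/
def IsFrob (𝔐 : Ideal (integralClosure ℤ ℂ)) (ℓ n : ℕ) (σ : ℂ ≃+* ℂ) : Prop :=
  ∀ a : ℂ, IsIntegral ℤ a → a ∈ Dade90.cyc n → red 𝔐 (σ a) = red 𝔐 a ^ ℓ

/-- `O` is the set of orbits of `Q` on `Ω` (with projection `π`) and `K` acts on it through the
homomorphism `κ` to the normalizer of `Q`. -/
structure QD {R Ω K O : Type*} [Group R] [MulAction R Ω] [Group K] [MulAction K O]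
    (Q : Subgroup R) (κ : K →* R) (π : Ω → O) : Prop where
  surj : Function.Surjective π
  fib : ∀ w w', π w = π w' ↔ ∃ q ∈ Q, q • w = w'
  eqv : ∀ k w, π (κ k • w) = k • π w
  nrm : ∀ k q, q ∈ Q ↔ κ k * q * (κ k)⁻¹ ∈ Q

/-- The homomorphism `(n, k) ↦ (n ∘ π, κ k)`. -/
def iQ {R Ω K O : Type*} (G : Type*) [Group R] [MulAction R Ω] [Group K] [MulAction K O]
    [Group G] (κ : K →* R) (π : Ω → O) (h : ∀ k w, π (κ k • w) = k • π w) :
    Gam K O G →* Gam R Ω G where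
  toFun x := ⟨fun w => x.left (π w), κ x.right⟩
  map_one' := by
    apply SemidirectProduct.ext
    · ext w
      simp
    · simp
  map_mul' x y := by
    apply SemidirectProduct.ext
    · ext w
      change x.left (π w) * y.left (x.right⁻¹ • π w) =
        x.left (π w) * y.left (π ((κ x.right)⁻¹ • w))
      rw [← map_inv, h]
    · simp

/-- The stabilizer in `R` of a colouring of `Ω`. -/
abbrev stC (R : Type*) {Ω X : Type*} [Group R] [MulAction R Ω] (c : Ω → X) : Subgroup R :=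
  Kp R (Setoid.ker c)

theorem mem_stC {R Ω X : Type*} [Group R] [MulAction R Ω] {c : Ω → X} {r : R} :
    r ∈ stC R c ↔ ∀ w, c (r⁻¹ • w) = c w := Iff.rfl

/-- The functions on the stabilizer of a colouring which describe the blocks. -/
noncomputable def fC {R Ω G : Type*} [Group R] [MulAction R Ω] [Fintype Ω] [DecidableEq Ω]
    [Group G] [Fintype G] (c : Ω → G → ℂ) (g : Gam R Ω G) (k : R) : ℂ :=
  aC c (MulAction.toPerm k) (fun n => conjInd (⟨n, k⟩ : Gam R Ω G) g)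

/-- The conjugation action of `G ^ Ω ⋊ R` on its base group. -/
def cG (R Ω G : Type*) [Group R] [MulAction R Ω] [Group G] : Gam R Ω G →* MulAut (Ω → G) :=
  SemidirectProduct.lift (MulAut.conj : (Ω → G) →* MulAut (Ω → G)) (pAct R Ω G) (by
    intro r
    ext n x a
    simp [pAct])

theorem clG_G (R Ω G : Type*) [Group R] [MulAction R Ω] [Group G] :
    ClG (iN R Ω G) (cG R Ω G) (SemidirectProduct.rightHom : Gam R Ω G →* R) where
  inj := SemidirectProduct.inl_injective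
  act := by
    intro y a
    rw [← conj_iN]
    congr 1
  ker := by
    intro y
    rw [SemidirectProduct.range_inl_eq_ker_rightHom, MonoidHom.mem_ker]

/-- The inertia group of the outer product of the characters `c w`. -/
def TT (R : Type*) {Ω G : Type*} [Group R] [MulAction R Ω] [Group G] (c : Ω → G → ℂ) :
    Subgroup (Gam R Ω G) :=
  (stC R c).comap (SemidirectProduct.rightHom : Gam R Ω G →* R)

/-- The character of `G ^ Ω ⋊ R` attached to a colouring and a character of its stabilizer. -/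
noncomputable def Th {R Ω G : Type*} [Group R] [Finite R] [MulAction R Ω] [Fintype Ω]
    [DecidableEq Ω] [Group G] [Finite G] (c : Ω → G → ℂ) (ξ : stC R c → ℂ) : Gam R Ω G → ℂ :=
  indc (TT R c) (fun s => EE c (s : Gam R Ω G) * ext0 ξ (s : Gam R Ω G).right)

end Pool.Agent.DP


end

section

/-!
# Dade's conjecture for `G ^ Ω ⋊ R`, stage 2: statements of the modules
-/

namespace Pool.Agent.DP

open Pool.Agent.Lib_helper13 Representation
open Pool.Agent.Lib_helper13.Dade (pCore DadeHolds)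

/-! ### Chains -/

/-- INN2: the inner sum of a chain of the complement. -/
def Stmt_INN2 : Prop :=
  ∀ (R Ω G : Type) [Group R] [Finite R] [MulAction R Ω] [Finite Ω] [Group G] [Fintype G] (ℓ : ℕ)
    [Fact ℓ.Prime] (Z' : Subgroup R) [Z'.Normal], IsPGroup ℓ Z' →
    (∀ z ∈ Z', ∀ w : Ω, z • w = w) → ∀ c : Finset (Subgroup R), IsCh ℓ Z' c →
    ∃ (K O : Type) (_ : Group K) (_ : Finite K) (_ : Fintype O) (_ : DecidableEq O)
      (_ : MulAction K O) (κ : K →* R) (π : Ω → O) (hq : QD (tp Z' c) κ π),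
      Function.Injective κ ∧ κ.range = stb c ∧
      Nat.card (cN (iN R Ω G).range (tp (Z'.map (iR R Ω G)) (mapCh (iR R Ω G) c))) =
        Nat.card (O → G) ∧
      ∀ W : Subgroup (Gam R Ω G) → ℚ,
        innerS ℓ (Z'.map (iR R Ω G)) (iN R Ω G).range W (mapCh (iR R Ω G) c) =
          ∑ τ ∈ Ch ℓ (⊥ : Subgroup (O → G)), (-1 : ℚ) ^ τ.card * W ((YT K τ).map (iQ G κ π hq.eqv))

/-- COUNT: a sum over outer chains is a sum over the chains of the complement. -/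
def Stmt_COUNT : Prop :=
  ∀ (R Ω G : Type) [Group R] [Fintype R] [MulAction R Ω] [Finite Ω] [Group G] [Finite G] (ℓ : ℕ)
    [Fact ℓ.Prime] (Z' : Subgroup R) [Z'.Normal], IsPGroup ℓ Z' →
    (∀ z ∈ Z', ∀ w : Ω, z • w = w) → ∀ S : Finset (Subgroup (Gam R Ω G)) → ℚ,
    (∀ (n : Ω → G) (c : Finset (Subgroup (Gam R Ω G))),
      S (mapCh (MulAut.conj (iN R Ω G n)).toMonoidHom c) = S c) →
    (∀ c ∈ OutC ℓ (Z'.map (iR R Ω G)) (iN R Ω G).range, S c ≠ 0 →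
      ∃ (n : Ω → G) (c' : Finset (Subgroup R)),
        mapCh (MulAut.conj (iN R Ω G n)).toMonoidHom c = mapCh (iR R Ω G) c') →
    ∑ c ∈ OutC ℓ (Z'.map (iR R Ω G)) (iN R Ω G).range, (-1 : ℚ) ^ c.card * S c =
      ∑ c' ∈ Ch ℓ Z', (-1 : ℚ) ^ c'.card * ((Nat.card (Ω → G) : ℚ) /
        Nat.card (cN (iN R Ω G).range (tp (Z'.map (iR R Ω G)) (mapCh (iR R Ω G) c'))) *
          S (mapCh (iR R Ω G) c'))

/-- KKDZ: the chain sum of a character of defect zero. -/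
def Stmt_KKDZ : Prop :=
  ∀ (G : Type) [Group G] [Fintype G] (𝔐 : Ideal (integralClosure ℤ ℂ)) (ℓ : ℕ) [Fact ℓ.Prime],
    𝔐.IsMaximal → (ℓ : integralClosure ℤ ℂ) ∈ 𝔐 → ∀ χ : G → ℂ, IsIrr χ → HasDefect ℓ χ 0 →
    KK 𝔐 ℓ 0 (⊥ : Subgroup G) (cen 𝔐 (MonoidHom.id G) χ) = (Nat.card G : ℚ)

/-- INNERV: the inner sums in terms of characters of defect zero. -/
def Stmt_INNERV : Prop :=
  ∀ (K O G X : Type) [Group K] [Finite K] [MulAction K O] [Fintype O] [DecidableEq O] [Group G]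
    [Fintype G] [Group X] (𝔐 : Ideal (integralClosure ℤ ℂ)) (ℓ : ℕ) [Fact ℓ.Prime],
    𝔐.IsMaximal → (ℓ : integralClosure ℤ ℂ) ∈ 𝔐 → pCore ℓ G = ⊥ → DadeHolds ℓ G →
    ∀ (d : ℕ) (i : Gam K O G →* X) (ω : X → (integralClosure ℤ ℂ) ⧸ 𝔐),
    ∑ τ ∈ Ch ℓ (⊥ : Subgroup (O → G)), (-1 : ℚ) ^ τ.card *
        ((Nat.card (YT K τ) : ℚ) * cnt 𝔐 ℓ d (i.comp (YT K τ).subtype) ω) =
      (Nat.card (O → G) : ℚ) * ∑ θ ∈ Fintype.piFinset (fun _ : O => dzF ℓ G),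
        (Nat.card (stC K θ) : ℚ) *
          cntF 𝔐 ℓ d (fun g (k : stC K θ) => aC θ (MulAction.toPerm (k : K))
            (fun n => conjInd (i ⟨n, (k : K)⟩) g)) ω

/-- IQR: the range of the embedding is the stabilizer of the chain. -/
def Stmt_IQR : Prop :=
  ∀ (R Ω K O G : Type) [Group R] [Finite R] [MulAction R Ω] [Finite Ω] [Group K]
    [MulAction K O] [Group G] [Finite G] (ℓ : ℕ) [Fact ℓ.Prime] (Z' : Subgroup R),
    (∀ z ∈ Z', ∀ w : Ω, z • w = w) → ∀ c' : Finset (Subgroup R), IsCh ℓ Z' c' →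
    ∀ (κ : K →* R) (π : Ω → O) (hq : QD (tp Z' c') κ π), Function.Injective κ →
    κ.range = stb c' →
      Function.Injective (iQ G κ π hq.eqv) ∧
      (iQ G κ π hq.eqv).range = stb (mapCh (iR R Ω G) c')

/-! ### The extension -/

/-- CONTR: contraction of the points of `D`. -/
def Stmt_CONTR : Prop :=
  ∀ (Ω G : Type) [Fintype Ω] [DecidableEq Ω] [Group G] (D : Ω → Prop) [DecidablePred D]
    (p : Equiv.Perm Ω) (q : Equiv.Perm {w : Ω // ¬ D w}) (θ : Ω → G → ℂ) (m : Ω → ℕ)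
    (M : Ω → G → ℕ → ℕ → ℂ), (∀ w, D w → ¬ D (p w)) →
    (∀ w, D w → m (p w) = m w ∧ M (p w) = M w) → (∀ w, D w → m (p⁻¹ w) = m w) →
    (∀ w, MD (⊤ : Subgroup G) (θ w) (m w) (M w)) →
    (∀ v : {w : Ω // ¬ D w}, ¬ D (p v) → (q v : Ω) = p v) →
    (∀ v : {w : Ω // ¬ D w}, D (p v) → (q v : Ω) = p (p v)) →
    ∀ (x : Ω → G) (y : {w : Ω // ¬ D w} → G),
      (∀ v : {w : Ω // ¬ D w}, ¬ D (p⁻¹ v) → y v = x v) →
      (∀ v : {w : Ω // ¬ D w}, D (p⁻¹ v) → y v = x v * x (p⁻¹ v)) →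
      TH m M p x = TH (fun v : {w : Ω // ¬ D w} => m v) (fun v => M v) q y

/-- SPLTH: splitting off an invariant set. -/
def Stmt_SPLTH : Prop :=
  ∀ (Ω G : Type) [Fintype Ω] [DecidableEq Ω] [Group G] (D : Ω → Prop) [DecidablePred D]
    (p : Equiv.Perm Ω) (p₁ : Equiv.Perm {w : Ω // D w}) (p₂ : Equiv.Perm {w : Ω // ¬ D w})
    (m : Ω → ℕ) (M : Ω → G → ℕ → ℕ → ℂ), (∀ v : {w : Ω // D w}, (p₁ v : Ω) = p v) →
    (∀ v : {w : Ω // ¬ D w}, (p₂ v : Ω) = p v) → ∀ x : Ω → G,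
      TH m M p x = TH (fun v : {w : Ω // D w} => m v) (fun v => M v) p₁ (fun v => x v) *
        TH (fun v : {w : Ω // ¬ D w} => m v) (fun v => M v) p₂ (fun v => x v)

/-- POWL: the value of a character at an `ℓ`-th power. -/
def Stmt_POWL : Prop :=
  ∀ (Y : Type) [Group Y] [Finite Y] (𝔐 : Ideal (integralClosure ℤ ℂ)) (ℓ : ℕ) [Fact ℓ.Prime],
    𝔐.IsMaximal → (ℓ : integralClosure ℤ ℂ) ∈ 𝔐 → ∀ E : Y → ℂ, IsChr E → ∀ g : Y,
      IsIntegral ℤ (E g) ∧ red 𝔐 (E (g ^ ℓ)) = red 𝔐 (E g) ^ ℓ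

/-- FIXF: the value at a constant function and a permutation commuting with a transitive
`ℓ`-group. -/
def Stmt_FIXF : Prop :=
  ∀ (D Q G : Type) [Fintype D] [DecidableEq D] [Group Q] [Finite Q] [MulAction Q D] [Group G]
    [Fintype G] (𝔐 : Ideal (integralClosure ℤ ℂ)) (ℓ : ℕ) [Fact ℓ.Prime], 𝔐.IsMaximal →
    (ℓ : integralClosure ℤ ℂ) ∈ 𝔐 → IsPGroup ℓ Q → (∀ a b : D, ∃ q : Q, q • a = b) →
    ∀ p : Equiv.Perm D, (∀ (q : Q) a, p (q • a) = q • p a) →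
    ∀ (χ : G → ℂ) (m : ℕ) (M : G → ℕ → ℕ → ℂ), IsIrr χ → MD (⊤ : Subgroup G) χ m M →
    ∀ y : G, IsIntegral ℤ (TH (fun _ : D => m) (fun _ => M) p (fun _ => y)) ∧
      red 𝔐 (TH (fun _ : D => m) (fun _ => M) p (fun _ => y)) = red 𝔐 (χ y) ^ Fintype.card D

/-- KA: congruence of the values of the canonical extensions. -/
def Stmt_KA : Prop :=
  ∀ (Ω O Q G : Type) [Fintype Ω] [DecidableEq Ω] [Fintype O] [DecidableEq O] [Group Q] [Finite Q]
    [MulAction Q Ω] [Group G] [Fintype G] (𝔐 : Ideal (integralClosure ℤ ℂ)) (ℓ : ℕ)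
    [Fact ℓ.Prime], 𝔐.IsMaximal → (ℓ : integralClosure ℤ ℂ) ∈ 𝔐 → IsPGroup ℓ Q →
    ∀ (π : Ω → O), Function.Surjective π → (∀ w w', π w = π w' ↔ ∃ q : Q, q • w = w') →
    ∀ (a : O → ℕ), (∀ o, Nat.card {w : Ω // π w = o} = ℓ ^ a o) →
    ∀ (p : Equiv.Perm Ω) (p' : Equiv.Perm O), (∀ (q : Q) w, p (q • w) = q • p w) →
    (∀ w, π (p w) = p' (π w)) →
    ∀ (σ : ℂ ≃+* ℂ), IsFrob 𝔐 ℓ (Nat.card G) σ → ∀ (c : Ω → G → ℂ) (θ : O → G → ℂ),
    (∀ w, IsIrr (c w)) → (∀ (q : Q) w, c (q • w) = c w) → (∀ w, c (p w) = c w) →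
    (∀ w, θ (π w) = (tw σ)^[a (π w)] (c w)) → ∀ n : O → G,
      IsIntegral ℤ (tC c p (fun w => n (π w))) ∧ IsIntegral ℤ (tC θ p' n) ∧
      red 𝔐 (tC c p (fun w => n (π w))) = red 𝔐 (tC θ p' n)

/-- KB: the weighted sums depend only on the values modulo `𝔐`. -/
def Stmt_KB : Prop :=
  ∀ (O G : Type) [Fintype O] [DecidableEq O] [Group G] [Fintype G]
    (𝔐 : Ideal (integralClosure ℤ ℂ)) (ℓ : ℕ) [Fact ℓ.Prime], 𝔐.IsMaximal →
    (ℓ : integralClosure ℤ ℂ) ∈ 𝔐 → ∀ (k : Equiv.Perm O) (θ : O → G → ℂ), (∀ o, IsIrr (θ o)) →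
    (∀ o, θ (k o) = θ o) → ∀ F : (O → G) → ℂ,
    (∀ x n : O → G, F (fun o => x o * n o * (x (k⁻¹ o))⁻¹) = F n) → (∀ n, IsIntegral ℤ (F n)) →
      IsIntegral ℤ (aC θ k F) ∧ ((∀ n, red 𝔐 (F n) = 0) → red 𝔐 (aC θ k F) = 0)

/-- SCAL: sums over a coset of a class function. -/
def Stmt_SCAL : Prop :=
  ∀ (A Y K : Type) [Group A] [Fintype A] [Group Y] [Fintype Y] [Group K]
    (j : A →* Y) (c : Y →* MulAut A) (p : Y →* K), ClG j c p →
    ∀ (θ : A → ℂ) (E : Y → ℂ), IsIrr θ → IsChr E → (∀ a, E (j a) = θ a) →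
    ∀ F : Y → ℂ, (∀ g x, F (g * x * g⁻¹) = F x) → ∀ y,
      ∑ a, F (y * j a) * θ a = (∑ a, F (y * j a) * E (y * j a)) / θ 1 * E y⁻¹

/-- EXTA: properties of the canonical extension. -/
def Stmt_EXTA : Prop :=
  ∀ (K O G : Type) [Group K] [Finite K] [MulAction K O] [Fintype O] [DecidableEq O] [Group G]
    [Fintype G] (θ : O → G → ℂ), (∀ o, IsIrr (θ o)) → (∀ (k : K) o, θ (k • o) = θ o) →
    IsIrr (fun n : O → G => ∏ o, θ o (n o)) ∧
    IsChr (EE θ : Gam K O G → ℂ) ∧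
    (∀ n : O → G, EE θ (iN K O G n) = ∏ o, θ o (n o)) ∧
    (∀ k : K, aC θ (MulAction.toPerm k) (fun n => EE θ (⟨n, k⟩ : Gam K O G)⁻¹) =
      (Nat.card (O → G) : ℂ) / ∏ o, θ o 1) ∧
    (∀ F : Gam K O G → ℂ, (∀ g x, F (g * x * g⁻¹) = F x) →
      (∀ l k : K, aC θ (MulAction.toPerm (l * k * l⁻¹)) (fun n => F ⟨n, l * k * l⁻¹⟩) =
        aC θ (MulAction.toPerm k) (fun n => F ⟨n, k⟩)) ∧
      (∀ x : Gam K O G, ∑ n : O → G, F (x * iN K O G n) * ∏ o, θ o (n o) =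
        aC θ (MulAction.toPerm x.right) (fun n => F ⟨n, x.right⟩) * EE θ x⁻¹) ∧
      ((∀ x, IsIntegral ℤ (F x)) → ∀ k : K,
        IsIntegral ℤ (aC θ (MulAction.toPerm k) (fun n => F ⟨n, k⟩))))

/-- EXTB: the characters over an invariant product. -/
def Stmt_EXTB : Prop :=
  ∀ (K O G : Type) [Group K] [Fintype K] [MulAction K O] [Fintype O] [DecidableEq O] [Group G]
    [Fintype G] (θ : O → G → ℂ), (∀ o, IsIrr (θ o)) → (∀ (k : K) o, θ (k • o) = θ o) →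
    ∀ η : K → ℂ, IsIrr η → IsIrr (fun y : Gam K O G => EE θ y * η y.right) ∧
      ∀ F : Gam K O G → ℂ, wt (fun y : Gam K O G => EE θ y * η y.right) F =
        wt η (fun k => aC θ (MulAction.toPerm k) (fun n => F ⟨n, k⟩))

/-! ### The key congruence -/

/-- KAB: the sums of the extension of `c` against the extension of `θ`. -/
def Stmt_KAB : Prop :=
  ∀ (R Ω K O G : Type) [Group R] [Finite R] [MulAction R Ω] [Fintype Ω] [DecidableEq Ω] [Group K]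
    [Finite K] [MulAction K O] [Fintype O] [DecidableEq O] [Group G] [Fintype G]
    (𝔐 : Ideal (integralClosure ℤ ℂ)) (ℓ : ℕ) [Fact ℓ.Prime], 𝔐.IsMaximal →
    (ℓ : integralClosure ℤ ℂ) ∈ 𝔐 → ∀ (Q : Subgroup R) (κ : K →* R) (π : Ω → O)
    (hq : QD Q κ π), IsPGroup ℓ Q → ∀ (a : O → ℕ) (σ : ℂ ≃+* ℂ) (c : Ω → G → ℂ) (θ : O → G → ℂ),
    (∀ o, Nat.card {w : Ω // π w = o} = ℓ ^ a o) → IsFrob 𝔐 ℓ (Nat.card G) σ →
    (∀ w, IsIrr (c w)) → (∀ (r : R) w, c (r • w) = c w) →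
    (∀ w, θ (π w) = (tw σ)^[a (π w)] (c w)) → ∀ k : K, (∀ q ∈ Q, q * κ k = κ k * q) →
      red 𝔐 (aC θ (MulAction.toPerm k)
        (fun n => EE c (iQ G κ π hq.eqv (⟨n, k⟩ : Gam K O G))⁻¹)) =
      red 𝔐 ((Nat.card (O → G) : ℂ) / ∏ o, θ o 1)

/-- KW: modulo `𝔐` the sums of characters of stabilizers of chains depend only on the values on
the centralizer of the greatest member. -/
def Stmt_KW : Prop :=
  ∀ (R K : Type) [Group R] [Finite R] [Group K] [Fintype K] (𝔐 : Ideal (integralClosure ℤ ℂ))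
    (ℓ : ℕ) [Fact ℓ.Prime], 𝔐.IsMaximal → (ℓ : integralClosure ℤ ℂ) ∈ 𝔐 →
    ∀ (Z' : Subgroup R) [Z'.Normal], IsPGroup ℓ Z' → ∀ c' : Finset (Subgroup R), IsCh ℓ Z' c' →
    ∀ κ : K →* R, Function.Injective κ → κ.range = stb c' → ∀ f f' : R → ℂ,
    (∀ g x : R, (∀ q, q ∈ tp Z' c' ↔ g * q * g⁻¹ ∈ tp Z' c') →
      (∀ q, q ∈ tp Z' c' ↔ x * q * x⁻¹ ∈ tp Z' c') →
        f (g * x * g⁻¹) = f x ∧ f' (g * x * g⁻¹) = f' x ∧ IsIntegral ℤ (f x) ∧
          IsIntegral ℤ (f' x)) →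
    (∀ x : R, (∀ q ∈ tp Z' c', q * x = x * q) → red 𝔐 (f x) = red 𝔐 (f' x)) →
    ∀ η : K → ℂ, IsIrr η →
      red 𝔐 (wt η (fun k => f (κ k))) = red 𝔐 (wt η (fun k => f' (κ k)))

/-- MULS: characters of stabilizers of chains give multiplicative functions. -/
def Stmt_MULS : Prop :=
  ∀ (X Y : Type) [Group X] [Fintype X] [Group Y] [Fintype Y] (𝔐 : Ideal (integralClosure ℤ ℂ))
    (ℓ : ℕ) [Fact ℓ.Prime], 𝔐.IsMaximal → (ℓ : integralClosure ℤ ℂ) ∈ 𝔐 →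
    ∀ (Z : Subgroup X) (τ : Finset (Subgroup X)), IsCh ℓ Z τ → ∀ i : Y →* X,
    Function.Injective i → i.range = stb τ → ∀ ψ : Y → ℂ, IsIrr ψ → ∀ f f' : X → ℂ,
    (∀ g x, f (g * x * g⁻¹) = f x) → (∀ g x, f' (g * x * g⁻¹) = f' x) →
    (∀ x, IsIntegral ℤ (f x)) → (∀ x, IsIntegral ℤ (f' x)) →
      red 𝔐 (wt ψ (fun y => ∑ z : X, f (i y * z⁻¹) * f' z)) =
        red 𝔐 (wt ψ (fun y => f (i y))) * red 𝔐 (wt ψ (fun y => f' (i y)))

/-- KEY: the key congruence. -/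
def Stmt_KEY : Prop :=
  ∀ (R Ω K O G : Type) [Group R] [Finite R] [MulAction R Ω] [Fintype Ω] [DecidableEq Ω] [Group K]
    [Fintype K] [MulAction K O] [Fintype O] [DecidableEq O] [Group G] [Fintype G]
    (𝔐 : Ideal (integralClosure ℤ ℂ)) (ℓ : ℕ) [Fact ℓ.Prime], 𝔐.IsMaximal →
    (ℓ : integralClosure ℤ ℂ) ∈ 𝔐 → ∀ (Z' : Subgroup R) [Z'.Normal], IsPGroup ℓ Z' →
    (∀ z ∈ Z', ∀ w : Ω, z • w = w) → ∀ c' : Finset (Subgroup R), IsCh ℓ Z' c' →
    ∀ (κ : K →* R) (π : Ω → O) (hq : QD (tp Z' c') κ π), Function.Injective κ →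
    κ.range = stb c' → ∀ (a : O → ℕ) (σ : ℂ ≃+* ℂ) (c : Ω → G → ℂ) (θ : O → G → ℂ),
    (∀ o, Nat.card {w : Ω // π w = o} = ℓ ^ a o) → IsFrob 𝔐 ℓ (Nat.card G) σ →
    (∀ w, c w ∈ dzF ℓ G) → (∀ (r : R) w, c (r • w) = c w) →
    (∀ w, θ (π w) = (tw σ)^[a (π w)] (c w)) →
    ∀ F : Gam R Ω G → ℂ, (∀ g x, F (g * x * g⁻¹) = F x) → (∀ x, IsIntegral ℤ (F x)) →
    ∀ η : K → ℂ, IsIrr η →
      red 𝔐 (wt η (fun k => aC θ (MulAction.toPerm k)
        (fun n => F (iQ G κ π hq.eqv (⟨n, k⟩ : Gam K O G))))) =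
      red 𝔐 (wt η (fun k => aC c (MulAction.toPerm (κ k)) (fun n => F ⟨n, κ k⟩)))

/-! ### The formula for the chain sums -/

/-- STARK: the counts for a colouring `θ` of the orbits and the corresponding colouring `c`. -/
def Stmt_STARK : Prop :=
  ∀ (R Ω K O G : Type) [Group R] [Finite R] [MulAction R Ω] [Fintype Ω] [DecidableEq Ω] [Group K]
    [Finite K] [MulAction K O] [Fintype O] [DecidableEq O] [Group G] [Fintype G]
    (𝔐 : Ideal (integralClosure ℤ ℂ)) (ℓ : ℕ) [Fact ℓ.Prime], 𝔐.IsMaximal →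
    (ℓ : integralClosure ℤ ℂ) ∈ 𝔐 → ∀ (Z' : Subgroup R) [Z'.Normal], IsPGroup ℓ Z' →
    (∀ z ∈ Z', ∀ w : Ω, z • w = w) → ∀ c' : Finset (Subgroup R), IsCh ℓ Z' c' →
    ∀ (κ : K →* R) (π : Ω → O) (hq : QD (tp Z' c') κ π), Function.Injective κ →
    κ.range = stb c' → ∀ (a : O → ℕ) (σ : ℂ ≃+* ℂ) (c : Ω → G → ℂ) (θ : O → G → ℂ),
    (∀ o, Nat.card {w : Ω // π w = o} = ℓ ^ a o) → IsFrob 𝔐 ℓ (Nat.card G) σ →
    (∀ w, c w ∈ dzF ℓ G) → (∀ D ∈ c', D ≤ stC R c) →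
    (∀ w, θ (π w) = (tw σ)^[a (π w)] (c w)) → ∀ (d : ℕ)
    (ω : Gam R Ω G → (integralClosure ℤ ℂ) ⧸ 𝔐),
    Nat.card (stC K θ) = Nat.card (stC R c ⊓ stb c' : Subgroup R) ∧
    cntF 𝔐 ℓ d (fun g (k : stC K θ) => aC θ (MulAction.toPerm (k : K))
        (fun n => conjInd (iQ G κ π hq.eqv (⟨n, (k : K)⟩ : Gam K O G)) g)) ω =
      cntF 𝔐 ℓ d (fun g (k : (stC R c ⊓ stb c' : Subgroup R)) => fC c g (k : R)) ω

/-- STAR1: the inner sum over the colourings of the orbits as a sum over the colourings of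
`Ω`. -/
def Stmt_STAR1 : Prop :=
  ∀ (R Ω K O G : Type) [Group R] [Finite R] [MulAction R Ω] [Fintype Ω] [DecidableEq Ω] [Group K]
    [Finite K] [MulAction K O] [Fintype O] [DecidableEq O] [Group G] [Fintype G]
    (𝔐 : Ideal (integralClosure ℤ ℂ)) (ℓ : ℕ) [Fact ℓ.Prime], 𝔐.IsMaximal →
    (ℓ : integralClosure ℤ ℂ) ∈ 𝔐 → ∀ (Z' : Subgroup R) [Z'.Normal], IsPGroup ℓ Z' →
    (∀ z ∈ Z', ∀ w : Ω, z • w = w) → ∀ c' : Finset (Subgroup R), IsCh ℓ Z' c' →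
    ∀ (κ : K →* R) (π : Ω → O) (hq : QD (tp Z' c') κ π), Function.Injective κ →
    κ.range = stb c' → ∀ (d : ℕ) (ω : Gam R Ω G → (integralClosure ℤ ℂ) ⧸ 𝔐)
    [DecidablePred fun c : Ω → G → ℂ => ∀ D ∈ c', D ≤ stC R c],
    ∑ θ ∈ Fintype.piFinset (fun _ : O => dzF ℓ G), (Nat.card (stC K θ) : ℚ) *
      cntF 𝔐 ℓ d (fun g (k : stC K θ) => aC θ (MulAction.toPerm (k : K))
        (fun n => conjInd (iQ G κ π hq.eqv (⟨n, (k : K)⟩ : Gam K O G)) g)) ω =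
    ∑ c ∈ (Fintype.piFinset (fun _ : Ω => dzF ℓ G)).filter (fun c => ∀ D ∈ c', D ≤ stC R c),
      (Nat.card (stC R c ⊓ stb c' : Subgroup R) : ℚ) *
        cntF 𝔐 ℓ d (fun g (k : (stC R c ⊓ stb c' : Subgroup R)) => fC c g (k : R)) ω

/-- STAR2: the chain sum as a sum over chains of the complement and colourings. -/
def Stmt_STAR2 : Prop :=
  ∀ (R Ω G : Type) [Group R] [Fintype R] [MulAction R Ω] [Fintype Ω] [DecidableEq Ω] [Group G]
    [Fintype G] (𝔐 : Ideal (integralClosure ℤ ℂ)) (ℓ : ℕ) [Fact ℓ.Prime], 𝔐.IsMaximal →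
    (ℓ : integralClosure ℤ ℂ) ∈ 𝔐 → pCore ℓ G = ⊥ → DadeHolds ℓ G →
    ∀ (Z' : Subgroup R) [Z'.Normal], IsPGroup ℓ Z' → (∀ z ∈ Z', ∀ w : Ω, z • w = w) →
    ∀ (d : ℕ) (ω : Gam R Ω G → (integralClosure ℤ ℂ) ⧸ 𝔐)
    [∀ c' : Finset (Subgroup R), DecidablePred fun c : Ω → G → ℂ => ∀ D ∈ c', D ≤ stC R c],
    KK 𝔐 ℓ d (Z'.map (iR R Ω G)) ω = (Nat.card (Ω → G) : ℚ) *
      ∑ c' ∈ Ch ℓ Z', (-1 : ℚ) ^ c'.card *
        ∑ c ∈ (Fintype.piFinset (fun _ : Ω => dzF ℓ G)).filter (fun c => ∀ D ∈ c', D ≤ stC R c),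
          (Nat.card (stC R c ⊓ stb c' : Subgroup R) : ℚ) *
            cntF 𝔐 ℓ d (fun g (k : (stC R c ⊓ stb c' : Subgroup R)) => fC c g (k : R)) ω

/-- STAR: the chain sum in terms of chain sums of the stabilizers of colourings. -/
def Stmt_STAR : Prop :=
  ∀ (R Ω G : Type) [Group R] [Fintype R] [MulAction R Ω] [Fintype Ω] [DecidableEq Ω] [Group G]
    [Fintype G] (𝔐 : Ideal (integralClosure ℤ ℂ)) (ℓ : ℕ) [Fact ℓ.Prime], 𝔐.IsMaximal →
    (ℓ : integralClosure ℤ ℂ) ∈ 𝔐 → pCore ℓ G = ⊥ → DadeHolds ℓ G →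
    ∀ (Z' : Subgroup R) [Z'.Normal], IsPGroup ℓ Z' → (∀ z ∈ Z', ∀ w : Ω, z • w = w) →
    ∀ (ω : Gam R Ω G → (integralClosure ℤ ℂ) ⧸ 𝔐),
    ∃ C : ∀ c : Ω → G → ℂ, Finset (stC R c → (integralClosure ℤ ℂ) ⧸ 𝔐),
      (∀ d, KK 𝔐 ℓ d (Z'.map (iR R Ω G)) ω = (Nat.card (Ω → G) : ℚ) *
        ∑ c ∈ Fintype.piFinset (fun _ : Ω => dzF ℓ G),
          ∑ lam ∈ C c, KK 𝔐 ℓ d (Z'.subgroupOf (stC R c)) lam) ∧
      (∀ c ∈ Fintype.piFinset (fun _ : Ω => dzF ℓ G), ∀ lam ∈ C c,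
        ∀ g, pair 𝔐 (fun k : stC R c => fC c g (k : R)) lam = ω g) ∧
      ∀ c ∈ Fintype.piFinset (fun _ : Ω => dzF ℓ G), ∀ ξ : stC R c → ℂ, IsIrr ξ →
        (∀ g, pair 𝔐 (fun k : stC R c => fC c g (k : R)) (cen 𝔐 (MonoidHom.id _) ξ) = ω g) →
          cen 𝔐 (MonoidHom.id _) ξ ∈ C c

/-- FORM: the chain sum of the block of `Th c ξ`. -/
def Stmt_FORM : Prop :=
  ∀ (R Ω G : Type) [Group R] [Fintype R] [MulAction R Ω] [Fintype Ω] [DecidableEq Ω] [Group G]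
    [Fintype G] (𝔐 : Ideal (integralClosure ℤ ℂ)) (ℓ : ℕ) [Fact ℓ.Prime], 𝔐.IsMaximal →
    (ℓ : integralClosure ℤ ℂ) ∈ 𝔐 → pCore ℓ G = ⊥ → DadeHolds ℓ G →
    ∀ (Z' : Subgroup R) [Z'.Normal], IsPGroup ℓ Z' → (∀ z ∈ Z', ∀ w : Ω, z • w = w) →
    ∀ c : Ω → G → ℂ, (∀ w, c w ∈ dzF ℓ G) → ∀ ξ : stC R c → ℂ, IsIrr ξ → ∀ d : ℕ,
    KK 𝔐 ℓ d (Z'.map (iR R Ω G)) (cen 𝔐 (MonoidHom.id (Gam R Ω G)) (Th c ξ)) =
      (Nat.card (Ω → G) : ℚ) * ((Nat.card R : ℚ) / Nat.card (stC R c)) *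
        KK 𝔐 ℓ d (Z'.subgroupOf (stC R c)) (cen 𝔐 (MonoidHom.id (stC R c)) ξ)

/-! ### Characters over products of defect zero -/

/-- OVER: the characters over an outer product. -/
def Stmt_OVER : Prop :=
  ∀ (R Ω G : Type) [Group R] [Finite R] [MulAction R Ω] [Fintype Ω] [DecidableEq Ω] [Group G]
    [Fintype G] (c : Ω → G → ℂ), (∀ w, IsIrr (c w)) →
    (∀ ξ : stC R c → ℂ, IsIrr ξ → IsIrr (Th c ξ) ∧
      ip (resj (iN R Ω G) (Th c ξ)) (fun n => ∏ w, c w (n w)) ≠ 0) ∧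
    (∀ ξ ξ' : stC R c → ℂ, IsIrr ξ → IsIrr ξ' → Th c ξ = Th c ξ' → ξ = ξ') ∧
    (∀ χ : Gam R Ω G → ℂ, IsIrr χ → ip (resj (iN R Ω G) χ) (fun n => ∏ w, c w (n w)) ≠ 0 →
      ∃ ξ : stC R c → ℂ, IsIrr ξ ∧ χ = Th c ξ)

/-- OVERW: degrees, defects and sums of the characters over an outer product. -/
def Stmt_OVERW : Prop :=
  ∀ (R Ω G : Type) [Group R] [Finite R] [MulAction R Ω] [Fintype Ω] [DecidableEq Ω] [Group G]
    [Fintype G] (c : Ω → G → ℂ), (∀ w, IsIrr (c w)) → ∀ ξ : stC R c → ℂ, IsIrr ξ →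
    (∀ F : Gam R Ω G → ℂ, (∀ g x, F (g * x * g⁻¹) = F x) →
      wt (Th c ξ) F =
        wt ξ (fun k => aC c (MulAction.toPerm (k : R)) (fun n => F ⟨n, (k : R)⟩))) ∧
    Th c ξ 1 * Nat.card (stC R c) = Nat.card R * (∏ w, c w 1) * ξ 1 ∧
    ∀ (ℓ : ℕ) [Fact ℓ.Prime], (∀ w, HasDefect ℓ (c w) 0) → ∀ d,
      HasDefect ℓ (Th c ξ) d ↔ HasDefect ℓ ξ d

/-- THR: the characters attached to conjugate colourings. -/
def Stmt_THR : Prop :=
  ∀ (R Ω G : Type) [Group R] [Finite R] [MulAction R Ω] [Fintype Ω] [DecidableEq Ω] [Group G]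
    [Fintype G] (c : Ω → G → ℂ), (∀ w, IsIrr (c w)) → ∀ r : R,
    ∃ e : stC R (fun w => c (r⁻¹ • w)) ≃* stC R c,
      (∀ k, ((e k : stC R c) : R) = r⁻¹ * (k : R) * r) ∧
      ∀ ξ : stC R c → ℂ, IsIrr ξ → Th (fun w => c (r⁻¹ • w)) (fun k => ξ (e k)) = Th c ξ

/-- OVERC: a character lies over the products of conjugate colourings only. -/
def Stmt_OVERC : Prop :=
  ∀ (R Ω G : Type) [Group R] [Finite R] [MulAction R Ω] [Fintype Ω] [DecidableEq Ω] [Group G]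
    [Fintype G] (c c' : Ω → G → ℂ), (∀ w, IsIrr (c w)) → (∀ w, IsIrr (c' w)) →
    ∀ χ : Gam R Ω G → ℂ, IsIrr χ → ip (resj (iN R Ω G) χ) (fun n => ∏ w, c w (n w)) ≠ 0 →
    ip (resj (iN R Ω G) χ) (fun n => ∏ w, c' w (n w)) ≠ 0 →
      ∃ r : R, c' = fun w => c (r⁻¹ • w)

/-- TEST: a class function detecting the characters over an outer product. -/
def Stmt_TEST : Prop :=
  ∀ (R Ω G : Type) [Group R] [Finite R] [MulAction R Ω] [Fintype Ω] [DecidableEq Ω] [Group G]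
    [Fintype G] (c : Ω → G → ℂ), (∀ w, IsIrr (c w)) → ∀ h : stC R c → ℂ,
    (∀ g x, h (g * x * g⁻¹) = h x) → (∀ x, IsIntegral ℤ (h x)) →
    ∃ f : Gam R Ω G → ℂ, (∀ g x, f (g * x * g⁻¹) = f x) ∧ (∀ x, IsIntegral ℤ (f x)) ∧
      (∀ χ : Gam R Ω G → ℂ, IsIrr χ → ip (resj (iN R Ω G) χ) (fun n => ∏ w, c w (n w)) = 0 →
        wt χ f = 0) ∧
      ∀ ξ : stC R c → ℂ, IsIrr ξ →
        wt (Th c ξ) f = (Nat.card (Ω → G) : ℂ) / (∏ w, c w 1) * wt ξ h

/-- BLKD: the blocks over a product of characters of defect zero. -/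
def Stmt_BLKD : Prop :=
  ∀ (R Ω G : Type) [Group R] [Finite R] [MulAction R Ω] [Fintype Ω] [DecidableEq Ω] [Group G]
    [Fintype G] (𝔐 : Ideal (integralClosure ℤ ℂ)) (ℓ : ℕ) [Fact ℓ.Prime], 𝔐.IsMaximal →
    (ℓ : integralClosure ℤ ℂ) ∈ 𝔐 → ∀ c : Ω → G → ℂ, (∀ w, c w ∈ dzF ℓ G) →
    ∀ ξ : stC R c → ℂ, IsIrr ξ → ∀ χ : Gam R Ω G → ℂ, IsIrr χ →
    cen 𝔐 (MonoidHom.id (Gam R Ω G)) χ = cen 𝔐 (MonoidHom.id (Gam R Ω G)) (Th c ξ) →
    ∃ ξ' : stC R c → ℂ, IsIrr ξ' ∧ χ = Th c ξ' ∧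
      cen 𝔐 (MonoidHom.id (stC R c)) ξ' = cen 𝔐 (MonoidHom.id (stC R c)) ξ

end Pool.Agent.DP


end

section

/-!
# LTI: conjugacy under `T_L` and under `G`
-/

namespace Pool.Agent.DP

open Pool.Agent.Lib_helper13 Representation
open Pool.Agent.Lib_helper13.Dade (pCore DadeHolds)

namespace LTI

set_option linter.unusedSectionVars false

section Count

variable {B : Type} [Group B] [Fintype B]

/-- The elements of `T` which move `g` inside its class under `N`. -/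
def QQ (N T : Subgroup B) [N.Normal] (g : B) : Subgroup B where
  carrier := {t | t ∈ T ∧ ∃ n ∈ N, n * t * g = g * (n * t)}
  one_mem' := ⟨T.one_mem, 1, N.one_mem, by simp⟩
  mul_mem' := by
    rintro a b ⟨ha, n, hn, hna⟩ ⟨hb, m, hm, hmb⟩
    refine ⟨T.mul_mem ha hb, n * (a * m * a⁻¹), N.mul_mem hn (‹N.Normal›.conj_mem m hm a), ?_⟩
    have h1 : n * (a * m * a⁻¹) * (a * b) = (n * a) * (m * b) := by group
    rw [h1, mul_assoc (n * a), hmb, ← mul_assoc, hna, mul_assoc]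
  inv_mem' := by
    rintro a ⟨ha, n, hn, hna⟩
    refine ⟨T.inv_mem ha, a⁻¹ * n⁻¹ * a, ?_, ?_⟩
    · have := ‹N.Normal›.conj_mem n⁻¹ (N.inv_mem hn) a⁻¹
      rwa [inv_inv] at this
    · have h1 : a⁻¹ * n⁻¹ * a * a⁻¹ = (n * a)⁻¹ := by group
      rw [h1, inv_mul_eq_iff_eq_mul, ← mul_assoc, hna, mul_inv_cancel_right]

variable (N T : Subgroup B) [N.Normal] (hNT : N ≤ T) (g : B)

theorem mem_QQ {t : B} : t ∈ QQ N T g ↔ t ∈ T ∧ ∃ n ∈ N, n * t * g = g * (n * t) := Iff.rfl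

include hNT in
open Classical in
theorem sum_cjT (x : B) : ∑ t : B, (if t ∈ T then cjT N x (t * g * t⁻¹) else 0) =
    cjT T x g * (Nat.card (QQ N T g) : ℂ) := by
  have hcard : (Nat.card (QQ N T g) : ℂ) = ∑ t : B, if t ∈ QQ N T g then (1 : ℂ) else 0 := by
    rw [Finset.sum_boole, Nat.card_eq_fintype_card, Fintype.card_subtype]
  by_cases hx : ∃ t ∈ T, x = t * g * t⁻¹
  · obtain ⟨t₀, ht₀, rfl⟩ := hx
    have h1 : cjT T (t₀ * g * t₀⁻¹) g = 1 := if_pos ⟨t₀, ht₀, rfl⟩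
    rw [h1, one_mul, hcard, ← Equiv.sum_comp (Equiv.mulLeft t₀)
      (fun t => if t ∈ T then cjT N (t₀ * g * t₀⁻¹) (t * g * t⁻¹) else 0)]
    refine Finset.sum_congr rfl fun t _ => ?_
    have key : (t₀ * t ∈ T ∧ ∃ n ∈ N, t₀ * g * t₀⁻¹ = n * (t₀ * t * g * (t₀ * t)⁻¹) * n⁻¹) ↔
        t ∈ QQ N T g := ?_
    · have h5 : (if t₀ * t ∈ T then cjT N (t₀ * g * t₀⁻¹) (t₀ * t * g * (t₀ * t)⁻¹) else 0) =
          if t ∈ QQ N T g then (1 : ℂ) else 0 := by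
        unfold cjT
        by_cases hq : t ∈ QQ N T g
        · obtain ⟨h6, h7⟩ := key.2 hq
          rw [if_pos h6, if_pos h7, if_pos hq]
        · rw [if_neg hq]
          by_cases h6 : t₀ * t ∈ T
          · rw [if_pos h6, if_neg fun h7 => hq (key.1 ⟨h6, h7⟩)]
          · rw [if_neg h6]
      exact h5
    rw [mem_QQ]
    constructor
    · rintro ⟨h2, n, hn, h3⟩
      refine ⟨(T.mul_mem_cancel_left ht₀).1 h2, t₀⁻¹ * n * t₀, ?_, ?_⟩
      · have := ‹N.Normal›.conj_mem n hn t₀⁻¹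
        rwa [inv_inv] at this
      · have h4 : g = t₀⁻¹ * n * t₀ * t * g * (t₀⁻¹ * n * t₀ * t)⁻¹ := by
          calc g = t₀⁻¹ * (t₀ * g * t₀⁻¹) * t₀ := by group
            _ = t₀⁻¹ * (n * (t₀ * t * g * (t₀ * t)⁻¹) * n⁻¹) * t₀ := by rw [h3]
            _ = _ := by group
        exact (eq_mul_inv_iff_mul_eq.1 h4).symm
    · rintro ⟨h2, n, hn, h3⟩
      refine ⟨T.mul_mem ht₀ h2, t₀ * n * t₀⁻¹, ‹N.Normal›.conj_mem n hn t₀, ?_⟩
      have h4 : g = n * t * g * (n * t)⁻¹ := by rw [h3]; group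
      calc t₀ * g * t₀⁻¹ = t₀ * (n * t * g * (n * t)⁻¹) * t₀⁻¹ := by rw [← h4]
        _ = _ := by group
  · have h1 : cjT T x g = 0 := if_neg hx
    rw [h1, zero_mul]
    refine Finset.sum_eq_zero fun t _ => ?_
    split_ifs with ht
    · refine if_neg ?_
      rintro ⟨n, hn, rfl⟩
      exact hx ⟨n * t, T.mul_mem (hNT hn) ht, by group⟩
    · rfl

include hNT in
/-- A sum over a class under `T` of a function whose sums over the classes under `N` are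
invariant. -/
theorem sum_T (f : B → ℂ)
    (hf : ∀ t ∈ T, ∑ x, cjT N x (t * g * t⁻¹) * f x = ∑ x, cjT N x g * f x) :
    ∑ x, cjT T x g * f x = ((QQ N T g).relIndex T : ℂ) * ∑ x, cjT N x g * f x := by
  classical
  have hle : QQ N T g ≤ T := fun t ht => ht.1
  have h1 : ∑ t : B, (if t ∈ T then ∑ x, cjT N x (t * g * t⁻¹) * f x else 0) =
      (Nat.card T : ℂ) * ∑ x, cjT N x g * f x := by
    have : ∀ t : B, (if t ∈ T then ∑ x, cjT N x (t * g * t⁻¹) * f x else 0) =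
        (if t ∈ T then 1 else 0) * ∑ x, cjT N x g * f x := by
      intro t
      split_ifs with ht
      · rw [hf t ht, one_mul]
      · rw [zero_mul]
    rw [Finset.sum_congr rfl fun t _ => this t, ← Finset.sum_mul]
    congr 1
    rw [Finset.sum_boole, Nat.card_eq_fintype_card, Fintype.card_subtype]
  have h2 : ∑ t : B, (if t ∈ T then ∑ x, cjT N x (t * g * t⁻¹) * f x else 0) =
      (Nat.card (QQ N T g) : ℂ) * ∑ x, cjT T x g * f x := by
    have : ∀ t : B, (if t ∈ T then ∑ x, cjT N x (t * g * t⁻¹) * f x else 0) =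
        ∑ x, (if t ∈ T then cjT N x (t * g * t⁻¹) else 0) * f x := by
      intro t
      split_ifs with ht
      · rfl
      · simp
    rw [Finset.sum_congr rfl fun t _ => this t, Finset.sum_comm, Finset.mul_sum]
    refine Finset.sum_congr rfl fun x _ => ?_
    rw [← Finset.sum_mul, sum_cjT N T hNT g x]
    ring
  have h3 : (Nat.card T : ℂ) = (Nat.card (QQ N T g) : ℂ) * ((QQ N T g).relIndex T : ℂ) := by
    rw [← Nat.cast_mul, ← Subgroup.relIndex_bot_left (QQ N T g),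
      Subgroup.relIndex_mul_relIndex ⊥ (QQ N T g) T bot_le hle, Subgroup.relIndex_bot_left]
  have h4 : (Nat.card (QQ N T g) : ℂ) ≠ 0 := by
    exact_mod_cast (Nat.card_pos (α := QQ N T g)).ne'
  have h5 : (Nat.card (QQ N T g) : ℂ) * ∑ x, cjT T x g * f x =
      (Nat.card (QQ N T g) : ℂ) * (((QQ N T g).relIndex T : ℂ) * ∑ x, cjT N x g * f x) := by
    rw [← h2, h1, h3]
    ring
  exact mul_left_cancel₀ h4 h5

end Count

/-- The factor is prime to `ℓ`. -/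
theorem not_dvd {B C : Type} [Group B] [Fintype B] [Group C] {ℓ : ℕ} (N T : Subgroup B)
    [N.Normal] (hNT : N ≤ T) (g : B) (ρ : B →* C) (hρ : ρ.ker = N)
    (hs : Function.Surjective ρ) (hc : ¬ ℓ ∣ Nat.card C) : ¬ ℓ ∣ (QQ N T g).relIndex T := by
  intro h
  apply hc
  have hle : N ≤ QQ N T g := by
    intro n hn
    exact ⟨hNT hn, n⁻¹, N.inv_mem hn, by simp⟩
  have h1 : (QQ N T g).relIndex T ∣ N.relIndex T := Subgroup.relIndex_dvd_of_le_left T hle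
  have h2 : N.relIndex T ∣ N.index := Subgroup.relIndex_dvd_index_of_normal N T
  have h3 : N.index = Nat.card C := by
    rw [← hρ, Subgroup.index_ker, MonoidHom.range_eq_top.2 hs]
    exact Subgroup.card_top
  rw [h3] at h2
  exact h.trans (h1.trans h2)

section Main

variable {G B C : Type} [Group G] [Fintype G] [Group B] [Fintype B] [Group C]
  {ι : G →* B} {κ : B →* MulAut G} {ρ : B →* C}

theorem kappa_iota (h : ClG ι κ ρ) (a x : G) : κ (ι a) x = a * x * a⁻¹ := by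
  apply h.inj
  rw [h.act, map_mul, map_mul, map_inv]

theorem ker_eq (h : ClG ι κ ρ) : ρ.ker = ι.range := by
  ext y
  exact h.ker y

theorem comap_eq (h : ClG ι κ ρ) {σ : Finset (Subgroup G)} {ψ : G → ℂ} (hψ : IrrOn (stb σ) ψ)
    (L : Subgroup C) : (Stx κ σ ψ ⊓ L.comap ρ).comap ι = stb σ := by
  have hkc : ∀ a : G, (κ (ι a)).toMonoidHom = (MulAut.conj a).toMonoidHom := by
    intro a
    ext x
    exact kappa_iota h a x
  ext a
  rw [Subgroup.mem_comap, Subgroup.mem_inf, mem_stb]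
  constructor
  · rintro ⟨⟨h1, _⟩, _⟩ D hD
    rw [← hkc]
    exact h1 D hD
  · intro h1
    refine ⟨⟨?_, ?_⟩, ?_⟩
    · intro D hD
      rw [hkc]
      exact h1 D hD
    · intro x
      rw [kappa_iota h]
      have ha : a ∈ stb σ := mem_stb.2 h1
      by_cases hx : x ∈ stb σ
      · exact hψ.1.conj_eq (⟨a, ha⟩ : stb σ) ⟨x, hx⟩
      · rw [hψ.2 x hx, hψ.2]
        intro hc
        apply hx
        have := mul_mem (mul_mem (inv_mem ha) hc) ha
        simpa [mul_assoc] using this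
    · rw [Subgroup.mem_comap, (h.ker (ι a)).2 ⟨a, rfl⟩]
      exact L.one_mem

/-- A function on `B` which is an irreducible character of `S`, zero outside, is invariant
under conjugation by `S`. -/
theorem conj_inv {S : Subgroup B} {f : B → ℂ} (hf : IrrOn S f) {s : B} (hs : s ∈ S) (x : B) :
    f (s * x * s⁻¹) = f x := by
  by_cases hx : x ∈ S
  · exact hf.1.conj_eq (⟨s, hs⟩ : S) ⟨x, hx⟩
  · rw [hf.2 x hx, hf.2]
    intro hc
    apply hx
    have := mul_mem (mul_mem (inv_mem hs) hc) hs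
    simpa [mul_assoc] using this

theorem cjT_congr {T T' : Subgroup B} {x g x' g' : B}
    (h : (∃ t ∈ T, x = t * g * t⁻¹) ↔ ∃ t ∈ T', x' = t * g' * t⁻¹) : cjT T x g = cjT T' x' g' := by
  classical
  unfold cjT
  by_cases h1 : ∃ t ∈ T, x = t * g * t⁻¹
  · rw [if_pos h1, if_pos (h.1 h1)]
  · rw [if_neg h1, if_neg fun h2 => h1 (h.2 h2)]

theorem cjT_conj_mem (N : Subgroup B) [N.Normal] {n : B} (hn : n ∈ N) (x g : B) :
    cjT N x (n * g * n⁻¹) = cjT N x g := by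
  refine cjT_congr ?_
  constructor
  · rintro ⟨t, ht, rfl⟩
    exact ⟨t * n, N.mul_mem ht hn, by group⟩
  · rintro ⟨t, ht, rfl⟩
    exact ⟨t * n⁻¹, N.mul_mem ht (N.inv_mem hn), by group⟩

theorem cjT_conj (N : Subgroup B) [N.Normal] (b x g : B) :
    cjT N (b * x * b⁻¹) (b * g * b⁻¹) = cjT N x g := by
  refine cjT_congr ?_
  constructor
  · rintro ⟨t, ht, h⟩
    refine ⟨b⁻¹ * t * b, ?_, ?_⟩
    · have := ‹N.Normal›.conj_mem t ht b⁻¹
      rwa [inv_inv] at this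
    · calc x = b⁻¹ * (b * x * b⁻¹) * b := by group
        _ = b⁻¹ * (t * (b * g * b⁻¹) * t⁻¹) * b := by rw [h]
        _ = _ := by group
  · rintro ⟨t, ht, rfl⟩
    exact ⟨b * t * b⁻¹, ‹N.Normal›.conj_mem t ht b, by group⟩

theorem cjT_left (N : Subgroup B) {n : B} (hn : n ∈ N) (x g : B) :
    cjT N (n * x * n⁻¹) g = cjT N x g := by
  refine cjT_congr ?_
  constructor
  · rintro ⟨t, ht, h⟩
    refine ⟨n⁻¹ * t, N.mul_mem (N.inv_mem hn) ht, ?_⟩
    calc x = n⁻¹ * (n * x * n⁻¹) * n := by group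
      _ = n⁻¹ * (t * g * t⁻¹) * n := by rw [h]
      _ = _ := by group
  · rintro ⟨t, ht, rfl⟩
    exact ⟨n * t, N.mul_mem hn ht, by group⟩

/-- The sums over the classes under `N` are invariant under `T`. -/
theorem sum_inv (N T S : Subgroup B) [N.Normal] {f : B → ℂ} (hf : IrrOn S f)
    (hT : ∀ t ∈ T, ∃ s ∈ S, ∃ n ∈ N, t = s * n) (g : B) {t : B} (ht : t ∈ T) :
    ∑ x, cjT N x (t * g * t⁻¹) * f x = ∑ x, cjT N x g * f x := by
  obtain ⟨s, hs, n, hn, rfl⟩ := hT t ht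
  rw [← Equiv.sum_comp (MulAut.conj s).toEquiv (fun x => cjT N x (s * n * g * (s * n)⁻¹) * f x)]
  refine Finset.sum_congr rfl fun x _ => ?_
  have h1 : (MulAut.conj s).toEquiv x = s * x * s⁻¹ := rfl
  have h2 : s * n * g * (s * n)⁻¹ = s * (n * g * n⁻¹) * s⁻¹ := by group
  rw [h1, h2, cjT_conj, cjT_conj_mem N hn, conj_inv hf hs]

end Main

end LTI

open _root_.Pool.Agent.DP.LTI in
theorem LTI_thm (h1 : Stmt_INTH) : Stmt_LTI := by
  intro G B C _ _ _ _ _ 𝔐 ℓ _ ι κ ρ hL hmax hℓ L σ σ' ψ ψ' f f' hψ hψ' hLs hLs' hf hf'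
  have hN : ι.range.Normal := by
    rw [← ker_eq hL.cl]
    infer_instance
  have hNT : ι.range ≤ L.comap ρ := by
    rw [← ker_eq hL.cl]
    intro x hx
    rw [Subgroup.mem_comap, MonoidHom.mem_ker.1 hx]
    exact L.one_mem
  have hprime : 𝔐.IsPrime := hmax.isPrime
  -- decomposition
  have hdec : ∀ {σ : Finset (Subgroup G)} {ψ : G → ℂ}, L ≤ (Stx κ σ ψ).map ρ →
      ∀ t ∈ L.comap ρ, ∃ s ∈ Stx κ σ ψ ⊓ L.comap ρ, ∃ n ∈ ι.range, t = s * n := by
    intro σ ψ hLe t ht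
    obtain ⟨b, hb, hbt⟩ := hLe (Subgroup.mem_comap.1 ht)
    refine ⟨b, ⟨hb, ?_⟩, b⁻¹ * t, ?_, by group⟩
    · change ρ b ∈ L
      rw [hbt]
      exact Subgroup.mem_comap.1 ht
    · rw [← ker_eq hL.cl, MonoidHom.mem_ker, map_mul, map_inv, hbt, inv_mul_cancel]
  -- the identity
  have hid : ∀ {σ : Finset (Subgroup G)} {ψ : G → ℂ} {f : B → ℂ}, IrrOn (stb σ) ψ →
      L ≤ (Stx κ σ ψ).map ρ → ExtL ι κ ρ σ ψ L f → ∀ g, cgT 𝔐 (L.comap ρ) f g =
        red 𝔐 ((QQ ι.range (L.comap ρ) g).relIndex (L.comap ρ) : ℂ) *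
          cgT 𝔐 ι.range f g := by
    intro σ ψ f hψ hLe hf g
    unfold cgT
    rw [sum_T ι.range (L.comap ρ) hNT g f
      (fun t ht => sum_inv ι.range (L.comap ρ) _ hf.1 (hdec hLe) g ht), mul_div_assoc,
      red_mul 𝔐 (Lib_helper13.isIntegral_natCast _)]
    refine h1 G B C ι κ ρ hL.cl _ f hf.1 ?_ (fun x => cjT ι.range x g) ?_ ?_
    · rw [comap_eq hL.cl hψ L]
      have : (fun h => f (ι h)) = ψ := funext hf.2
      rw [this]
      exact hψ
    · intro x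
      unfold cjT
      split_ifs
      · exact isIntegral_one
      · exact isIntegral_zero
    · intro h x
      exact cjT_left ι.range ⟨h, rfl⟩ x g
  have hne : ∀ g, red 𝔐 ((QQ ι.range (L.comap ρ) g).relIndex (L.comap ρ) : ℂ) ≠ 0 := fun g =>
    red_card_ne_zero 𝔐 hℓ (not_dvd ι.range (L.comap ρ) hNT g ρ (ker_eq hL.cl) hL.surj hL.cop)
  constructor
  · intro h
    funext g
    have h2 := congrFun h g
    rw [hid hψ hLs hf, hid hψ' hLs' hf'] at h2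
    exact mul_left_cancel₀ (hne g) h2
  · intro h
    funext g
    rw [hid hψ hLs hf, hid hψ' hLs' hf', h]

end Pool.Agent.DP


end

section

set_option linter.unusedSectionVars false

/-!
# A class function detecting the characters over an outer product
-/

namespace Pool.Agent.DP

open Pool.Agent.Lib_helper13 Representation

namespace TEST

section Gen

variable {Y : Type*} [Group Y] [Fintype Y]

/-- The values of a character are integral. -/
theorem isIntegral_chr {E : Y → ℂ} (h : IsChr E) (x : Y) : IsIntegral ℤ (E x) := by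
  rw [class_fn_expand E h.conj_eq]
  refine isIntegral_sum _ _ fun χ hχ => ?_
  obtain ⟨m, hm⟩ := h.exists_ip (mem_irrF.mp hχ).isChr
  rw [hm]
  exact (isIntegral_natCast m).mul (isIntegral_char (mem_irrF.mp hχ) x)

/-- Sum of a function which is invariant under right translations by a subgroup. -/
theorem sum_coset (S : Subgroup Y) (F : Y → ℂ) (hF : ∀ z, ∀ s ∈ S, F (z * s) = F z) :
    ∃ T : Finset Y, ∑ z, F z = (Nat.card S : ℂ) * ∑ z ∈ T, F z := by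
  classical
  have hfq : Fintype (Y ⧸ S) := Fintype.ofFinite _
  have hfS : Fintype S := Fintype.ofFinite _
  refine ⟨Finset.univ.image (fun q : Y ⧸ S => q.out), ?_⟩
  rw [Finset.sum_image (by
    intro a _ b _ hab
    rw [← QuotientGroup.out_eq' a, ← QuotientGroup.out_eq' b]
    exact congrArg _ hab)]
  have h1 : ∀ z : Y, F z = F ((QuotientGroup.mk z : Y ⧸ S).out) := by
    intro z
    obtain ⟨s, hs⟩ := QuotientGroup.mk_out_eq_mul S z
    rw [hs, hF z s s.2]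
  rw [Finset.sum_congr rfl fun z _ => h1 z]
  rw [← Finset.sum_fiberwise (s := Finset.univ) (g := fun z : Y => (QuotientGroup.mk z : Y ⧸ S)),
    Finset.mul_sum]
  refine Finset.sum_congr rfl fun q _ => ?_
  rw [Finset.sum_congr rfl (g := fun _ => F q.out) (by
    intro z hz
    rw [(Finset.mem_filter.mp hz).2]), Finset.sum_const, nsmul_eq_mul]
  congr 2
  rw [Nat.card_eq_fintype_card, ← Finset.card_univ]
  refine (Finset.card_bij (fun (s : S) _ => q.out * (s : Y)) ?_ ?_ ?_).symm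
  · intro s _
    rw [Finset.mem_filter]
    refine ⟨Finset.mem_univ _, ?_⟩
    rw [QuotientGroup.mk_mul_of_mem _ s.2, QuotientGroup.out_eq']
  · intro a _ b _ hab
    exact Subtype.ext (mul_left_cancel hab)
  · intro z hz
    have hz2 := (Finset.mem_filter.mp hz).2
    refine ⟨⟨(q.out)⁻¹ * z, ?_⟩, Finset.mem_univ _, ?_⟩
    · rw [← QuotientGroup.eq, QuotientGroup.out_eq', hz2]
    · simp

/-- Induced functions of integral class functions are integral. -/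
theorem isIntegral_indc (S : Subgroup Y) (ψ : S → ℂ) (h1 : ∀ g x, ψ (g * x * g⁻¹) = ψ x)
    (h2 : ∀ x, IsIntegral ℤ (ψ x)) (y : Y) : IsIntegral ℤ (indc S ψ y) := by
  have hF : ∀ z, ∀ s ∈ S, ext0 ψ ((z * s)⁻¹ * y * (z * s)) = ext0 ψ (z⁻¹ * y * z) := by
    intro z s hs
    have h3 : (z * s)⁻¹ * y * (z * s) = s⁻¹ * (z⁻¹ * y * z) * s := by group
    rw [h3]
    by_cases h4 : z⁻¹ * y * z ∈ S
    · have h5 : s⁻¹ * (z⁻¹ * y * z) * s ∈ S := S.mul_mem (S.mul_mem (S.inv_mem hs) h4) hs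
      rw [ext0_of_mem ψ h4, ext0_of_mem ψ h5]
      have h6 := h1 ⟨s⁻¹, S.inv_mem hs⟩ ⟨_, h4⟩
      rw [← h6]
      congr 1
      apply Subtype.ext
      simp
    · have h5 : s⁻¹ * (z⁻¹ * y * z) * s ∉ S := by
        intro h6
        apply h4
        have h7 := S.mul_mem (S.mul_mem hs h6) (S.inv_mem hs)
        have h8 : s * (s⁻¹ * (z⁻¹ * y * z) * s) * s⁻¹ = z⁻¹ * y * z := by group
        rwa [h8] at h7
      rw [ext0_of_not_mem ψ h4, ext0_of_not_mem ψ h5]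
  obtain ⟨T, hT⟩ := sum_coset S (fun z => ext0 ψ (z⁻¹ * y * z)) hF
  have hS : (Nat.card S : ℂ) ≠ 0 := natCard_ne_zero
  rw [indc, hT, mul_comm, mul_div_assoc, div_self hS, mul_one]
  refine isIntegral_sum _ _ fun z _ => ?_
  by_cases h4 : z⁻¹ * y * z ∈ S
  · rw [ext0_of_mem ψ h4]
    exact h2 _
  · rw [ext0_of_not_mem ψ h4]
    exact isIntegral_zero

end Gen

section Tt

variable {R Ω G : Type*} [Group R] [MulAction R Ω] [Group G] (c : Ω → G → ℂ)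

/-- The inertia group maps to `Gam (stC R c) Ω G`. -/
def eT : TT R c →* Gam (stC R c) Ω G where
  toFun y := ⟨(y : Gam R Ω G).left, ⟨(y : Gam R Ω G).right, y.2⟩⟩
  map_one' := rfl
  map_mul' _ _ := rfl

theorem EE_eT [Fintype Ω] [DecidableEq Ω] (s : TT R c) :
    (EE c (eT c s) : ℂ) = EE c (s : Gam R Ω G) := by
  rw [EE, EE]
  rfl

theorem card_TT [Finite R] [Finite Ω] [Finite G] :
    Nat.card (TT R c) = Nat.card (Ω → G) * Nat.card (stC R c) := by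
  rw [← Nat.card_prod]
  exact Nat.card_congr
    { toFun := fun y => ((y : Gam R Ω G).left, ⟨(y : Gam R Ω G).right, y.2⟩)
      invFun := fun p => ⟨⟨p.1, (p.2 : R)⟩, p.2.2⟩
      left_inv := fun _ => rfl
      right_inv := fun _ => rfl }

end Tt

end TEST

open _root_.Pool.Agent.DP.TEST in
/-- TEST: a class function detecting the characters over an outer product. -/
theorem TEST_thm (h1 : Stmt_IND) (h2 : Stmt_OVER) (h3 : Stmt_EXTA) : Stmt_TEST := by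
  intro R Ω G _ _ _ _ _ _ _ c hc h hcl hint
  have hinv : ∀ (k : stC R c) (o : Ω), c (k • o) = c o := by
    intro k o
    have h4 := mem_stC.mp (k⁻¹).2 o
    change c ((k : R) • o) = c o
    simpa using h4
  obtain ⟨-, hE, hEn, -, -⟩ := h3 (stC R c) Ω G c hc hinv
  obtain ⟨hO1, hO2, -⟩ := h2 R Ω G c hc
  have hET : IsChr (fun s : TT R c => EE c (s : Gam R Ω G)) := by
    have h4 := hE.comp (eT c)
    simp only [EE_eT] at h4
    exact h4
  have hE1 : EE c (1 : Gam R Ω G) = ∏ w, c w 1 := by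
    have h4 := hEn 1
    have h5 := EE_eT c (1 : TT R c)
    rw [map_one] at h4 h5
    rw [h4] at h5
    rw [← Subgroup.coe_one (TT R c), ← h5]
    rfl
  -- the functions on the inertia group
  have hx0 : ∀ (η : stC R c → ℂ) (s : TT R c),
      ext0 η (s : Gam R Ω G).right = η (eT c s).right := fun η s => ext0_of_mem η s.2
  have hψc : ∀ η : stC R c → ℂ, (∀ g x, η (g * x * g⁻¹) = η x) → ∀ g x : TT R c,
      EE c ((g * x * g⁻¹ : TT R c) : Gam R Ω G) * ext0 η ((g * x * g⁻¹ : TT R c) : Gam R Ω G).right =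
        EE c (x : Gam R Ω G) * ext0 η (x : Gam R Ω G).right := by
    intro η hη g x
    have h4 := hET.conj_eq g x
    rw [hx0, hx0, h4, ← hη (eT c g).right (eT c x).right]
    rfl
  have hψi : ∀ η : stC R c → ℂ, (∀ x, IsIntegral ℤ (η x)) → ∀ x : TT R c,
      IsIntegral ℤ (EE c (x : Gam R Ω G) * ext0 η (x : Gam R Ω G).right) := by
    intro η hη x
    rw [hx0]
    exact (isIntegral_chr hET x).mul (hη _)
  -- the expansion of `h'`
  have hcl' : ∀ g x : stC R c, (fun k => h k⁻¹) (g * x * g⁻¹) = (fun k => h k⁻¹) x := by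
    intro g x
    have h4 : (g * x * g⁻¹)⁻¹ = g * x⁻¹ * g⁻¹ := by group
    simp only [h4]
    exact hcl g x⁻¹
  have hexp := class_fn_expand (fun k => h k⁻¹) hcl'
  have hkey : ∀ χ : Gam R Ω G → ℂ, IsIrr χ →
      ∑ y, indc (TT R c) (fun s => EE c (s : Gam R Ω G) *
        ext0 (fun k => h k⁻¹) (s : Gam R Ω G).right) y⁻¹ * χ y =
      (Nat.card (Gam R Ω G) : ℂ) *
        ∑ η ∈ irrF (stC R c), ip (fun k => h k⁻¹) η * ip (Th c η) χ := by
    intro χ hχ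
    have h4 : ∑ y, indc (TT R c) (fun s => EE c (s : Gam R Ω G) *
        ext0 (fun k => h k⁻¹) (s : Gam R Ω G).right) y⁻¹ * χ y =
      (Nat.card (Gam R Ω G) : ℂ) * ip (indc (TT R c) (fun s => EE c (s : Gam R Ω G) *
        ext0 (fun k => h k⁻¹) (s : Gam R Ω G).right)) χ := by
      rw [ip, mul_div_cancel₀ _ natCard_ne_zero]
      refine Fintype.sum_equiv (Equiv.inv _) _ _ fun y => ?_
      simp
    rw [h4, (h1 (Gam R Ω G) (TT R c) _).2.2.1 χ hχ.conj_eq]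
    congr 1
    have h5 : (fun s : TT R c => EE c (s : Gam R Ω G) *
        ext0 (fun k => h k⁻¹) (s : Gam R Ω G).right) =
        fun s : TT R c => ∑ η ∈ irrF (stC R c), ip (fun k => h k⁻¹) η *
          (EE c (s : Gam R Ω G) * ext0 η (s : Gam R Ω G).right) := by
      ext s
      rw [hx0, congrFun hexp (eT c s).right, Finset.mul_sum]
      refine Finset.sum_congr rfl fun η _ => ?_
      rw [hx0]
      ring
    rw [h5, ip_sum]
    refine Finset.sum_congr rfl fun η _ => ?_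
    rw [Th, (h1 (Gam R Ω G) (TT R c) _).2.2.1 χ hχ.conj_eq]
  refine ⟨fun y => indc (TT R c) (fun s => EE c (s : Gam R Ω G) *
    ext0 (fun k => h k⁻¹) (s : Gam R Ω G).right) y⁻¹, ?_, ?_, ?_, ?_⟩
  · intro g x
    have h4 : (g * x * g⁻¹)⁻¹ = g * x⁻¹ * g⁻¹ := by group
    simp only [h4]
    exact (h1 (Gam R Ω G) (TT R c) _).2.1 g x⁻¹
  · intro y
    exact isIntegral_indc _ _ (hψc _ hcl') (hψi _ fun x => hint _) _
  · intro χ hχ h0
    rw [wt, hkey χ hχ, Finset.sum_eq_zero, mul_zero, zero_div]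
    intro η hη
    obtain ⟨h5, h6⟩ := hO1 η (mem_irrF.mp hη)
    have h7 : Th c η ≠ χ := by
      intro h8
      rw [h8] at h6
      exact h6 h0
    rw [ip_ne h5 hχ h7, mul_zero]
  · intro ξ hξ
    obtain ⟨h5, -⟩ := hO1 ξ hξ
    have h6 : ∑ η ∈ irrF (stC R c), ip (fun k => h k⁻¹) η * ip (Th c η) (Th c ξ) =
        ip (fun k => h k⁻¹) ξ := by
      rw [Finset.sum_eq_single ξ]
      · rw [ip_self h5, mul_one]
      · intro η hη hne
        have h7 : Th c η ≠ Th c ξ := fun h8 => hne (hO2 η ξ (mem_irrF.mp hη) hξ h8)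
        rw [ip_ne (hO1 η (mem_irrF.mp hη)).1 h5 h7, mul_zero]
      · intro h7
        exact absurd (mem_irrF.mpr hξ) h7
    have h7 := (h1 (Gam R Ω G) (TT R c)
      (fun s => EE c (s : Gam R Ω G) * ext0 ξ (s : Gam R Ω G).right)).1
    have h8 : EE c ((1 : TT R c) : Gam R Ω G) * ext0 ξ ((1 : TT R c) : Gam R Ω G).right =
        (∏ w, c w 1) * ξ 1 := by
      rw [hx0, Subgroup.coe_one, hE1]
      rfl
    have h9 : ip (fun k => h k⁻¹) ξ = (∑ k, h k * ξ k) / Nat.card (stC R c) := by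
      rw [ip]
      congr 1
      refine Fintype.sum_equiv (Equiv.inv _) _ _ fun y => ?_
      simp
    have hP : (∏ w, c w 1) ≠ 0 := Finset.prod_ne_zero_iff.mpr fun w _ => (hc w).one_ne_zero
    have hY : (Nat.card (Gam R Ω G) : ℂ) ≠ 0 := natCard_ne_zero
    have hK : (Nat.card (stC R c) : ℂ) ≠ 0 := natCard_ne_zero
    have hT : (Nat.card (TT R c) : ℂ) ≠ 0 := natCard_ne_zero
    have hcard : (Nat.card (TT R c) : ℂ) = Nat.card (Ω → G) * Nat.card (stC R c) := by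
      rw [card_TT]
      push_cast
      ring
    have hξ1 := hξ.one_ne_zero
    have hTh1 := h5.one_ne_zero
    rw [wt, hkey _ h5, h6, h9, wt]
    have h10 : Th c ξ 1 * Nat.card (TT R c) =
        Nat.card (Gam R Ω G) * ((∏ w, c w 1) * ξ 1) := by
      rw [← h8]
      exact h7
    rw [hcard] at h10
    rw [div_eq_iff hTh1]
    field_simp
    linear_combination (-(∑ k, h k * ξ k)) * h10

end Pool.Agent.DP


end
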