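import Mathlib
import Pool.Agent.DAM.C02
import Pool.Agent.DAM.C03
import Pool.Agent.DAM.C05
import Pool.Agent.DAM.C07

/-! Parts: Lib_helper13.CentSdp, DPB.Stmts, DPB.CHP, DPB.ACF, DPB.LFT, DPB.BRD, DPB.LIN, DPB.DEN, DPB.BRE, DPB.BRL, DPB.BRS, DPB.PTR, DPB.EXT, DPB.TRF, DPB.KC, DPB.KD, DPB.KE, DPB.LEQ, DPB.CNT -/

section

set_option linter.unusedSectionVars false

/-! The core of a semidirect product and centralizers in semidirect products. -/

namespace Pool.Agent.Lib_helper13

open Dade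

section Core

theorem pCore_equiv {G G' : Type*} [Group G] [Group G'] (ℓ : ℕ) (e : G ≃* G') :
    (pCore ℓ G).map e.toMonoidHom = pCore ℓ G' := by
  apply le_antisymm
  · rw [Subgroup.map_le_iff_le_comap]
    apply sSup_le
    rintro N ⟨hN1, hN2⟩
    rw [← Subgroup.map_le_iff_le_comap]
    apply le_sSup
    exact ⟨hN1.map _ e.surjective, hN2.map _⟩
  · apply sSup_le
    rintro N ⟨hN1, hN2⟩
    have h1 : N.comap e.toMonoidHom ≤ pCore ℓ G := by
      apply le_sSup
      refine ⟨hN1.comap _, hN2.comap_of_injective _ e.injective⟩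
    have h2 := Subgroup.map_mono (f := e.toMonoidHom) h1
    rwa [Subgroup.map_comap_eq_self_of_surjective e.surjective] at h2

theorem isPGroup_pCore {G : Type*} [Group G] [Finite G] (ℓ : ℕ) [Fact ℓ.Prime] :
    IsPGroup ℓ (pCore ℓ G) := by
  classical
  have hfin : {N : Subgroup G | N.Normal ∧ IsPGroup ℓ N}.Finite := Set.toFinite _
  have h1 : pCore ℓ G = hfin.toFinset.sup id := by
    rw [pCore, Finset.sup_id_eq_sSup, Set.Finite.coe_toFinset]
  have h2 : ∀ s : Finset (Subgroup G), (∀ N ∈ s, N.Normal ∧ IsPGroup ℓ N) →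
      (s.sup id).Normal ∧ IsPGroup ℓ (s.sup id : Subgroup G) := by
    intro s
    induction s using Finset.induction_on with
    | empty =>
      intro _
      rw [Finset.sup_empty]
      exact ⟨inferInstance, IsPGroup.of_bot⟩
    | insert a s _ ih =>
      intro h
      obtain ⟨h3, h4⟩ := ih fun N hN => h N (Finset.mem_insert_of_mem hN)
      obtain ⟨h5, h6⟩ := h a (Finset.mem_insert_self _ _)
      rw [Finset.sup_insert, id_eq]
      exact ⟨Subgroup.sup_normal _ _, h6.to_sup_of_normal_right h4⟩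
  rw [h1]
  exact (h2 _ fun N hN => hfin.mem_toFinset.mp hN).2

theorem pCore_normal {G : Type*} [Group G] (ℓ : ℕ) : (pCore ℓ G).Normal := by
  constructor
  intro n hn g
  have h1 := pCore_equiv ℓ (MulAut.conj g)
  rw [← h1]
  exact ⟨n, hn, rfl⟩

variable {V H : Type*} [CommGroup V] [Finite V] [Group H] [Finite H] {φ : H →* MulAut V}

theorem pCore_sdp {ℓ : ℕ} [Fact ℓ.Prime] (hV : ¬ ℓ ∣ Nat.card V) {Z : Subgroup H}
    (hZp : IsPGroup ℓ Z) (hZ : ∀ z, z ∈ Z ↔ ∀ v, φ z v = v) :
    pCore ℓ (V ⋊[φ] H) = Z.map SemidirectProduct.inr := by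
  have hVpow : ∀ (v : V) (k : ℕ), v ^ ℓ ^ k = 1 → v = 1 := by
    intro v k h
    have h1 := orderOf_dvd_of_pow_eq_one h
    have h2 := orderOf_dvd_natCard v
    have h3 : Nat.Coprime (ℓ ^ k) (Nat.card V) :=
      Nat.Coprime.pow_left k ((Fact.out : ℓ.Prime).coprime_iff_not_dvd.mpr hV)
    exact orderOf_eq_one_iff.mp (Nat.eq_one_of_dvd_coprimes h3 h1 h2)
  apply le_antisymm
  · apply sSup_le
    rintro N ⟨hN1, hN2⟩ x hx
    have h1 : x.right ∈ Z := by
      rw [hZ]
      intro v
      have h2 : x * SemidirectProduct.inl v * x⁻¹ * (SemidirectProduct.inl v)⁻¹ ∈ N := by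
        have h3 : SemidirectProduct.inl v * x⁻¹ * (SemidirectProduct.inl v)⁻¹ ∈ N :=
          hN1.conj_mem _ (N.inv_mem hx) _
        have h4 := N.mul_mem hx h3
        have h5 : x * SemidirectProduct.inl v * x⁻¹ * (SemidirectProduct.inl v)⁻¹ =
          x * (SemidirectProduct.inl v * x⁻¹ * (SemidirectProduct.inl v)⁻¹) := by group
        rw [h5]
        exact h4
      have h3 : x * SemidirectProduct.inl v * x⁻¹ * (SemidirectProduct.inl v)⁻¹ =
          SemidirectProduct.inl (φ x.right v * v⁻¹) := by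
        ext
        · simp only [SemidirectProduct.mul_left, SemidirectProduct.mul_right,
            SemidirectProduct.left_inl, SemidirectProduct.right_inl, mul_one,
            SemidirectProduct.inv_left, SemidirectProduct.inv_right, inv_one, map_one,
            MulAut.one_apply, mul_inv_cancel, map_inv]
          rw [← map_inv φ, ← MulAut.mul_apply, ← map_mul, mul_inv_cancel, map_one,
            MulAut.one_apply]
          rw [mul_comm x.left, mul_assoc, mul_assoc, mul_inv_cancel_left]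
        · simp
      rw [h3] at h2
      obtain ⟨k, hk⟩ := hN2 ⟨_, h2⟩
      have h4 : (SemidirectProduct.inl (φ x.right v * v⁻¹) : V ⋊[φ] H) ^ ℓ ^ k = 1 :=
        congrArg Subtype.val hk
      rw [← map_pow] at h4
      have h5 : (φ x.right v * v⁻¹) ^ ℓ ^ k = 1 := by
        apply SemidirectProduct.inl_injective (φ := φ)
        rw [h4, map_one]
      exact mul_inv_eq_one.mp (hVpow _ _ h5)
    have hfix := (hZ _).mp h1
    have h2 : ∀ k : ℕ, (x ^ k).left = x.left ^ k ∧ (x ^ k).right = x.right ^ k := by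
      intro k
      induction k with
      | zero => simp
      | succ k ih =>
        rw [pow_succ', SemidirectProduct.mul_left, SemidirectProduct.mul_right, ih.1, ih.2, hfix,
          ← pow_succ', ← pow_succ']
        exact ⟨rfl, rfl⟩
    obtain ⟨k, hk⟩ := hN2 ⟨x, hx⟩
    have h3 : x ^ ℓ ^ k = 1 := congrArg Subtype.val hk
    have h4 := (h2 (ℓ ^ k)).1
    rw [h3] at h4
    have h5 := hVpow _ _ h4.symm
    refine ⟨x.right, h1, ?_⟩
    ext
    · rw [SemidirectProduct.left_inr, h5]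
    · rw [SemidirectProduct.right_inr]
  · apply le_sSup
    refine ⟨?_, hZp.map _⟩
    constructor
    rintro _ ⟨z, hz, rfl⟩ x
    have hzf := (hZ z).mp hz
    have h1 : x.right * z * x.right⁻¹ ∈ Z := by
      rw [hZ]
      intro v
      rw [map_mul, map_mul, MulAut.mul_apply, MulAut.mul_apply, hzf, ← MulAut.mul_apply,
        ← map_mul, mul_inv_cancel, map_one, MulAut.one_apply]
    refine ⟨x.right * z * x.right⁻¹, h1, ?_⟩
    ext
    · have h2 := (hZ _).mp h1 x.left
      rw [map_mul, map_mul, MulAut.mul_apply, MulAut.mul_apply] at h2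
      simp only [SemidirectProduct.left_inr, SemidirectProduct.mul_left,
        SemidirectProduct.mul_right, SemidirectProduct.right_inr, map_one, mul_one,
        SemidirectProduct.inv_left, map_mul, MulAut.mul_apply, map_inv]
      rw [hzf, map_inv] at h2
      rw [hzf, h2, mul_inv_cancel, mul_inv_cancel]
    · simp

end Core

section Cent

variable {V H : Type*} [CommGroup V] [Group H]

theorem cent_fixV (φ : H →* MulAut V) (Z : Subgroup H) :
    ∀ s ∈ Subgroup.centralizer (Z : Set H), ∀ u ∈ fixV φ {Z}, φ s u ∈ fixV φ {Z} := by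
  intro s hs u hu D hD d hd
  rw [Finset.mem_singleton] at hD
  subst hD
  rw [Subgroup.mem_centralizer_iff] at hs
  rw [← MulAut.mul_apply, ← map_mul, hs d hd, map_mul, MulAut.mul_apply,
    hu D (Finset.mem_singleton_self _) d hd]

theorem mem_cent_inr (φ : H →* MulAut V) (Z : Subgroup H) (x : V ⋊[φ] H) :
    x ∈ Subgroup.centralizer ((Z.map (SemidirectProduct.inr : H →* V ⋊[φ] H) : Subgroup _) :
      Set (V ⋊[φ] H)) ↔ x.left ∈ fixV φ {Z} ∧ x.right ∈ Subgroup.centralizer (Z : Set H) := by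
  rw [Subgroup.mem_centralizer_iff, Subgroup.mem_centralizer_iff]
  constructor
  · intro h
    refine ⟨?_, ?_⟩
    · intro D hD d hd
      rw [Finset.mem_singleton] at hD
      subst hD
      have h1 := congrArg SemidirectProduct.left (h (SemidirectProduct.inr d) ⟨d, hd, rfl⟩)
      simpa using h1
    · intro d hd
      have h1 := congrArg SemidirectProduct.right (h (SemidirectProduct.inr d) ⟨d, hd, rfl⟩)
      simpa using h1
  · rintro ⟨h1, h2⟩ _ ⟨d, hd, rfl⟩
    have h3 := h1 Z (Finset.mem_singleton_self _) d hd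
    have h4 := h2 d hd
    ext
    · simpa using h3
    · simpa using h4

/-- The centralizer in `V ⋊ H` of a subgroup `Z` of `H`. -/
def centEquiv (φ : H →* MulAut V) (Z : Subgroup H) :
    (fixV φ {Z}) ⋊[resAct φ (Subgroup.centralizer (Z : Set H)) (fixV φ {Z}) (cent_fixV φ Z)]
      (Subgroup.centralizer (Z : Set H)) ≃*
      Subgroup.centralizer ((Z.map (SemidirectProduct.inr : H →* V ⋊[φ] H) : Subgroup _) :
        Set (V ⋊[φ] H)) where
  toFun x := ⟨⟨x.left, x.right⟩, (mem_cent_inr φ Z _).mpr ⟨x.left.2, x.right.2⟩⟩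
  invFun x := ⟨⟨x.1.left, ((mem_cent_inr φ Z _).mp x.2).1⟩,
    ⟨x.1.right, ((mem_cent_inr φ Z _).mp x.2).2⟩⟩
  left_inv x := by
    ext <;> rfl
  right_inv x := by
    apply Subtype.ext
    ext <;> rfl
  map_mul' x y := by
    apply Subtype.ext
    ext <;> rfl

end Cent

end Pool.Agent.Lib_helper13


end

section

/-!
# Groups with Sylow `ℓ`-subgroups of order `ℓ`: statements of the modules
-/

namespace Pool.Agent.DPB

open Pool.Agent.Lib_helper13 Representation
open Pool.Agent.Lib_helper13.Dade (pCore DadeHolds)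

/-! ### Fields and linear algebra -/

/-- ACF: the residue field is algebraically closed. -/
def Stmt_ACF : Prop :=
  ∀ (F : Type) [Field F] (r : integralClosure ℤ ℂ →+* F), Function.Surjective r →
    IsAlgClosed F

/-- LIN: multiplicities are additive. -/
def Stmt_LIN : Prop :=
  ∀ (F V V' : Type) [Field F] [AddCommGroup V] [Module F V] [Module.Finite F V]
    [AddCommGroup V'] [Module F V'] [Module.Finite F V'] (f : Module.End F V)
    (f' : Module.End F V') (D : V →ₗ[F] V') (W : Submodule F V),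
    (∀ v ∈ W, f v ∈ W) → (∀ v ∈ W, D (f v) = f' (D v)) → ∀ μ : F,
      mlt W f μ = mlt (W ⊓ LinearMap.ker D) f μ + mlt (W.map D) f' μ

/-- CHP: the multiplicities on the class functions are given by the ordinary characters. -/
def Stmt_CHP : Prop :=
  ∀ (F H : Type) [Field F] [Group H] [Fintype H] (r : integralClosure ℤ ℂ →+* F)
    (a : H → integralClosure ℤ ℂ), (∀ g x, a (g * x * g⁻¹) = a x) → ∀ μ : F,
      mlt (CF F H) (Lz fun h => r (a h)) μ =
        Nat.card {χ : H → ℂ // IsIrr χ ∧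
          ∃ b : integralClosure ℤ ℂ, (b : ℂ) = wt χ (fun h => (a h : ℂ)) ∧ r b = μ}

/-! ### Irreducible representations over `F` -/

/-- DEN: the density theorem for pairwise non-isomorphic irreducible representations. -/
def Stmt_DEN : Prop :=
  ∀ (F H : Type) [Field F] [IsAlgClosed F] [Group H] [Fintype H] (I : Type) [Fintype I]
    (V : I → Type) [∀ i, AddCommGroup (V i)] [∀ i, Module F (V i)]
    [∀ i, Module.Finite F (V i)] (ρ : ∀ i, Representation F H (V i)),
    (∀ i, (ρ i).IsIrreducible) →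
    (∀ i j, i ≠ j → ∀ f : V i →ₗ[F] V j, Eqv (ρ i) (ρ j) f → f = 0) →
    ∀ A : ∀ i, Module.End F (V i), ∃ z : H → F, ∀ i, Zop (ρ i) z = A i

/-- BRR: trace functions depend only on the `ℓ'`-parts. -/
def Stmt_BRR : Prop :=
  ∀ (ℓ : ℕ) [Fact ℓ.Prime] (F H V : Type) [Field F] [CharP F ℓ] [Group H] [Fintype H]
    [AddCommGroup V] [Module F V] [Module.Finite F V] (ρ : Representation F H V),
    ρ.character ∈ CFr ℓ F H

/-- BRE: the trace functions are eigenvectors. -/
def Stmt_BRE : Prop :=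
  ∀ (F H V : Type) [Field F] [IsAlgClosed F] [Group H] [Fintype H]
    [AddCommGroup V] [Module F V] [Module.Finite F V] (ρ : Representation F H V),
    ρ.IsIrreducible → ρ.character ≠ 0 ∧ ∀ z ∈ CF F H, ∃ μ : F,
      Zop ρ z = μ • (1 : Module.End F V) ∧ Lz z ρ.character = μ • ρ.character

/-- BRL: the trace functions are linearly independent. -/
def Stmt_BRL : Prop :=
  ∀ (F H : Type) [Field F] [IsAlgClosed F] [Group H] [Fintype H],
    LinearIndependent F (fun φ : {φ : H → F // IsBr F φ} => (φ : H → F))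

/-- BRU: the trace function determines the irreducible representation. -/
def Stmt_BRU : Prop :=
  ∀ (F H V W : Type) [Field F] [IsAlgClosed F] [Group H] [Fintype H]
    [AddCommGroup V] [Module F V] [Module.Finite F V] [AddCommGroup W] [Module F W]
    [Module.Finite F W] (ρ : Representation F H V) (σ : Representation F H W),
    ρ.IsIrreducible → σ.IsIrreducible → ρ.character = σ.character →
      ∃ e : V ≃ₗ[F] W, ∀ g v, e (ρ g v) = σ g (e v)

/-- BRF: powers of group algebra elements modulo commutators. -/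
def Stmt_BRF : Prop :=
  ∀ (ℓ : ℕ) [Fact ℓ.Prime] (F H : Type) [Field F] [CharP F ℓ] [Group H] [Fintype H]
    (Λ : MonoidAlgebra F H →ₗ[F] F), (∀ a b, Λ (a * b) = Λ (b * a)) → ∀ (z : H → F) (n : ℕ),
      Λ ((∑ h, MonoidAlgebra.single h (z h)) ^ ℓ ^ n) =
        ∑ h, z h ^ ℓ ^ n * Λ (MonoidAlgebra.single (h ^ ℓ ^ n) 1)

/-- BRS: the trace functions span the class functions which depend on the `ℓ'`-parts. -/
def Stmt_BRS : Prop :=
  ∀ (ℓ : ℕ) [Fact ℓ.Prime] (F H : Type) [Field F] [IsAlgClosed F] [CharP F ℓ] [Group H]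
    [Fintype H], CFr ℓ F H = Submodule.span F {φ : H → F | IsBr F φ}

/-- BRM: the multiplicities on the class functions which depend on the `ℓ'`-parts. -/
def Stmt_BRM : Prop :=
  ∀ (ℓ : ℕ) [Fact ℓ.Prime] (F H : Type) [Field F] [IsAlgClosed F] [CharP F ℓ] [Group H]
    [Fintype H], ∀ z ∈ CF F H, ∀ μ : F,
      mlt (CFr ℓ F H) (Lz z) μ = Nat.card {φ : H → F // IsBr F φ ∧ Lz z φ = μ • φ}

/-! ### The singular part -/

/-- SNG: the class functions modulo those which depend only on the `ℓ'`-parts are the same for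
`T` and for the normalizer of a Sylow subgroup of order `ℓ`. -/
def Stmt_SNG : Prop :=
  ∀ (ℓ : ℕ) [Fact ℓ.Prime] (F T : Type) [Field F] [CharP F ℓ] [Group T] [Fintype T]
    (P : Subgroup T) [Fintype (NP P)], Nat.card P = ℓ → ¬ ℓ ∣ P.index → ∀ z ∈ CF F T,
      ∃ (DT : (T → F) →ₗ[F] (NP P → F)) (DN : (NP P → F) →ₗ[F] (NP P → F))
        (f' : Module.End F (NP P → F)),
        CF F T ⊓ LinearMap.ker DT = CFr ℓ F T ∧ CF F (NP P) ⊓ LinearMap.ker DN = CFr ℓ F (NP P) ∧
        (CF F T).map DT = (CF F (NP P)).map DN ∧ (∀ φ ∈ CF F T, DT (Lz z φ) = f' (DT φ)) ∧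
        ∀ φ ∈ CF F (NP P), DN (Lz (brz P z) φ) = f' (DN φ)

/-! ### Simple modules of `T` and of the normalizer -/

/-- PTR: a normal subgroup of order `ℓ` acts trivially on irreducible representations. -/
def Stmt_PTR : Prop :=
  ∀ (ℓ : ℕ) [Fact ℓ.Prime] (F N V : Type) [Field F] [CharP F ℓ] [Group N] [Fintype N]
    [AddCommGroup V] [Module F V] [Module.Finite F V] (ρ : Representation F N V)
    (P : Subgroup N) [P.Normal], Nat.card P = ℓ → ρ.IsIrreducible → ∀ p ∈ P, ρ p = 1

/-- EXT: extension of homomorphisms. -/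
def Stmt_EXT : Prop :=
  ∀ (ℓ : ℕ) [Fact ℓ.Prime] (F N V V' W : Type) [Field F] [CharP F ℓ] [Group N] [Fintype N]
    [AddCommGroup V] [Module F V] [Module.Finite F V] [AddCommGroup V'] [Module F V']
    [Module.Finite F V'] [AddCommGroup W] [Module F W] [Module.Finite F W]
    (ρ : Representation F N V) (ρ' : Representation F N V') (σ : Representation F N W)
    (P : Subgroup N) [P.Normal], Nat.card P = ℓ → ¬ ℓ ∣ P.index → σ.IsIrreducible →
    ∀ (j : W →ₗ[F] V) (j' : W →ₗ[F] V'), Eqv σ ρ j → Eqv σ ρ' j' →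
      (∃ w, j w ∉ LinearMap.range (tN P ρ)) → (∃ w, j' w ∉ LinearMap.range (tN P ρ')) →
      (∃ f : V →ₗ[F] V', Eqv ρ ρ' f ∧ (∀ w, f (j w) = j' w) ∧
        ∀ (W2 : Type) [AddCommGroup W2] [Module F W2] (τ : Representation F N W2)
          (k : W2 →ₗ[F] V), Eqv τ ρ k → (∀ p ∈ P, τ p = 1) →
          (∀ g : W2 →ₗ[F] W, Eqv τ σ g → g = 0) → ∀ w, f (k w) = 0) ∨
      ∃ f : V' →ₗ[F] V, Eqv ρ' ρ f ∧ (∀ w, f (j' w) = j w) ∧
        ∀ (W2 : Type) [AddCommGroup W2] [Module F W2] (τ : Representation F N W2)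
          (k : W2 →ₗ[F] V'), Eqv τ ρ' k → (∀ p ∈ P, τ p = 1) →
          (∀ g : W2 →ₗ[F] W, Eqv τ σ g → g = 0) → ∀ w, f (k w) = 0

/-- TRF: transfer of homomorphisms. -/
def Stmt_TRF : Prop :=
  ∀ (ℓ : ℕ) [Fact ℓ.Prime] (F T V V' : Type) [Field F] [CharP F ℓ] [Group T] [Fintype T]
    [AddCommGroup V] [Module F V] [AddCommGroup V'] [Module F V']
    (ρ : Representation F T V) (ρ' : Representation F T V') (P : Subgroup T),
    Nat.card P = ℓ → ¬ ℓ ∣ P.index → ∀ f : V →ₗ[F] V', Eqv (rN P ρ) (rN P ρ') f →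
      ∃ f' : V →ₗ[F] V', Eqv ρ ρ' f' ∧
        ∀ v, (∀ p ∈ P, ρ p v = v) → f' v - f v ∈ LinearMap.range (tN P ρ')

/-- KAI: every irreducible representation of the normalizer occurs. -/
def Stmt_KAI : Prop :=
  ∀ (ℓ : ℕ) [Fact ℓ.Prime] (F T W : Type) [Field F] [CharP F ℓ] [Group T] [Fintype T]
    [AddCommGroup W] [Module F W] [Module.Finite F W] (P : Subgroup T)
    (σ : Representation F (NP P) W), Nat.card P = ℓ → σ.IsIrreducible →
      (∀ p : NP P, (p : T) ∈ P → σ p = 1) →
      ∃ (n : ℕ) (ρ : Representation F T (Fin n → F)), Emb P ρ σ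

/-- KAH: every irreducible representation which occurs, occurs in an irreducible one. -/
def Stmt_KAH : Prop :=
  ∀ (ℓ : ℕ) [Fact ℓ.Prime] (F T W V : Type) [Field F] [CharP F ℓ] [Group T] [Fintype T]
    [AddCommGroup W] [Module F W] [Module.Finite F W] [AddCommGroup V] [Module F V]
    [Module.Finite F V] (P : Subgroup T) (ρ : Representation F T V)
    (σ : Representation F (NP P) W), Nat.card P = ℓ → ¬ ℓ ∣ P.index → σ.IsIrreducible →
      (∀ p : NP P, (p : T) ∈ P → σ p = 1) → Emb P ρ σ →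
      ∃ (n : ℕ) (ρ' : Representation F T (Fin n → F)), ρ'.IsIrreducible ∧ Emb P ρ' σ

/-- KB: at most one irreducible representation of the normalizer occurs. -/
def Stmt_KB : Prop :=
  ∀ (ℓ : ℕ) [Fact ℓ.Prime] (F T V W W' : Type) [Field F] [IsAlgClosed F] [CharP F ℓ]
    [Group T] [Fintype T] [AddCommGroup V] [Module F V] [Module.Finite F V]
    [AddCommGroup W] [Module F W] [Module.Finite F W] [AddCommGroup W'] [Module F W']
    [Module.Finite F W'] (P : Subgroup T) (ρ : Representation F T V)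
    (σ : Representation F (NP P) W) (σ' : Representation F (NP P) W'), Nat.card P = ℓ →
    ¬ ℓ ∣ P.index → ρ.IsIrreducible → σ.IsIrreducible → σ'.IsIrreducible → Emb P ρ σ →
    Emb P ρ σ' → σ.character = σ'.character

/-- KC: an irreducible representation of the normalizer occurs in at most one irreducible
representation. -/
def Stmt_KC : Prop :=
  ∀ (ℓ : ℕ) [Fact ℓ.Prime] (F T V V' W : Type) [Field F] [IsAlgClosed F] [CharP F ℓ]
    [Group T] [Fintype T] [AddCommGroup V] [Module F V] [Module.Finite F V]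
    [AddCommGroup V'] [Module F V'] [Module.Finite F V'] [AddCommGroup W] [Module F W]
    [Module.Finite F W] (P : Subgroup T) (ρ : Representation F T V)
    (ρ' : Representation F T V') (σ : Representation F (NP P) W), Nat.card P = ℓ →
    ¬ ℓ ∣ P.index → ρ.IsIrreducible → ρ'.IsIrreducible → σ.IsIrreducible → Emb P ρ σ →
    Emb P ρ' σ → ρ.character = ρ'.character

/-- KD: in a representation which is not projective some irreducible representation of the
normalizer occurs. -/
def Stmt_KD : Prop :=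
  ∀ (ℓ : ℕ) [Fact ℓ.Prime] (F T V : Type) [Field F] [CharP F ℓ] [Group T] [Fintype T]
    [AddCommGroup V] [Module F V] [Module.Finite F V] (P : Subgroup T)
    (ρ : Representation F T V), Nat.card P = ℓ → ¬ ℓ ∣ P.index → NPr P ρ →
      ∃ (n : ℕ) (σ : Representation F (NP P) (Fin n → F)), σ.IsIrreducible ∧ Emb P ρ σ

/-- KE: the central characters correspond. -/
def Stmt_KE : Prop :=
  ∀ (ℓ : ℕ) [Fact ℓ.Prime] (F T V W : Type) [Field F] [CharP F ℓ] [Group T] [Fintype T]
    [AddCommGroup V] [Module F V] [AddCommGroup W] [Module F W] (P : Subgroup T)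
    [Fintype (NP P)] (ρ : Representation F T V) (σ : Representation F (NP P) W),
    Nat.card P = ℓ → (∀ p : NP P, (p : T) ∈ P → σ p = 1) → Emb P ρ σ →
    ∀ z ∈ CF F T, ∀ μ μ' : F, Zop ρ z = μ • (1 : Module.End F V) →
      Zop σ (brz P z) = μ' • (1 : Module.End F W) → μ = μ'

/-- LEQ: the simple modules which are not projective and the simple modules of the
normalizer. -/
def Stmt_LEQ : Prop :=
  ∀ (ℓ : ℕ) [Fact ℓ.Prime] (F T : Type) [Field F] [IsAlgClosed F] [CharP F ℓ] [Group T]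
    [Fintype T] (P : Subgroup T) [Fintype (NP P)], Nat.card P = ℓ → ¬ ℓ ∣ P.index →
    ∀ z ∈ CF F T, ∀ μ : F,
      Nat.card {φ : T → F // (∃ (n : ℕ) (ρ : Representation F T (Fin n → F)),
        ρ.IsIrreducible ∧ ρ.character = φ ∧ NPr P ρ) ∧ Lz z φ = μ • φ} =
      Nat.card {θ : NP P → F // IsBr F θ ∧ Lz (brz P z) θ = μ • θ}

/-- NPJ: on a projective simple module a central element supported on the classes of defect zero
acts as the identity. -/
def Stmt_NPJ : Prop :=
  ∀ (ℓ : ℕ) [Fact ℓ.Prime] (F T V : Type) [Field F] [IsAlgClosed F] [CharP F ℓ] [Group T]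
    [Fintype T] [AddCommGroup V] [Module F V] [Module.Finite F V] (P : Subgroup T)
    (ρ : Representation F T V), Nat.card P = ℓ → ¬ ℓ ∣ P.index → ρ.IsIrreducible →
    ¬ NPr P ρ → ∃ z ∈ CF F T, (∀ g u : T, u ≠ 1 → u ^ ℓ = 1 → u * g = g * u → z g = 0) ∧
      Zop ρ z = 1

/-! ### Ordinary characters -/

/-- LFT: the central character of a simple module is the reduction of the central character of
an ordinary character. -/
def Stmt_LFT : Prop :=
  ∀ (F T V : Type) [Field F] [IsAlgClosed F] [Group T] [Fintype T] [AddCommGroup V]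
    [Module F V] [Module.Finite F V] (r : integralClosure ℤ ℂ →+* F)
    (ρ : Representation F T V), ρ.IsIrreducible →
    ∃ χ : T → ℂ, IsIrr χ ∧ ∀ a : T → integralClosure ℤ ℂ, (∀ g x, a (g * x * g⁻¹) = a x) →
      ∀ b : integralClosure ℤ ℂ, (b : ℂ) = wt χ (fun h => (a h : ℂ)) →
        Zop ρ (fun h => r (a h)) = r b • (1 : Module.End F V)

/-- SEP: a class function which separates the central characters modulo `𝔐`. -/
def Stmt_SEP : Prop :=
  ∀ (T : Type) [Group T] [Fintype T] (𝔐 : Ideal (integralClosure ℤ ℂ)), 𝔐.IsMaximal →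
    ∃ a : T → integralClosure ℤ ℂ, (∀ g x, a (g * x * g⁻¹) = a x) ∧
      ∀ χ χ' : T → ℂ, IsIrr χ → IsIrr χ' →
        (cen 𝔐 (MonoidHom.id T) χ = cen 𝔐 (MonoidHom.id T) χ' ↔
          red 𝔐 (wt χ (fun h => (a h : ℂ))) = red 𝔐 (wt χ' (fun h => (a h : ℂ))))

/-- PDZ: characters of positive defect vanish on the classes of defect zero. -/
def Stmt_PDZ : Prop :=
  ∀ (T : Type) [Group T] [Fintype T] (𝔐 : Ideal (integralClosure ℤ ℂ)) (ℓ : ℕ)
    [Fact ℓ.Prime], 𝔐.IsMaximal → (ℓ : integralClosure ℤ ℂ) ∈ 𝔐 →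
    ∀ (χ : T → ℂ), IsIrr χ → ¬ HasDefect ℓ χ 0 → ∀ a : T → integralClosure ℤ ℂ,
      (∀ g x, a (g * x * g⁻¹) = a x) →
      (∀ g u : T, u ≠ 1 → u ^ ℓ = 1 → u * g = g * u → a g = 0) →
      red 𝔐 (wt χ (fun h => (a h : ℂ))) = 0

/-- LOC: the central characters of the normalizer. -/
def Stmt_LOC : Prop :=
  ∀ (T : Type) [Group T] [Fintype T] (𝔐 : Ideal (integralClosure ℤ ℂ)) (ℓ : ℕ)
    [Fact ℓ.Prime], 𝔐.IsMaximal → (ℓ : integralClosure ℤ ℂ) ∈ 𝔐 →
    ∀ (P : Subgroup T) [Fintype (NP P)], Nat.card P = ℓ → ∀ ψ : NP P → ℂ, IsIrr ψ →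
      (∃ χ : T → ℂ, IsIrr χ ∧
        cen 𝔐 (MonoidHom.id T) χ = cen 𝔐 (Subgroup.normalizer (P : Set T)).subtype ψ) ∧
      (∀ (χ : T → ℂ), IsIrr χ →
        cen 𝔐 (MonoidHom.id T) χ = cen 𝔐 (Subgroup.normalizer (P : Set T)).subtype ψ →
        ∀ a : T → integralClosure ℤ ℂ, (∀ g x, a (g * x * g⁻¹) = a x) →
          red 𝔐 (wt ψ (fun n : NP P => (brz (F := ℂ) P (fun h => (a h : ℂ)) n))) =
            red 𝔐 (wt χ (fun h => (a h : ℂ)))) ∧ ¬ HasDefect ℓ ψ 0

/-- CNT: the number of characters in a block of positive defect and in its local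
counterpart. -/
def Stmt_CNT : Prop :=
  ∀ (T : Type) [Group T] [Fintype T] (𝔐 : Ideal (integralClosure ℤ ℂ)) (ℓ : ℕ)
    [Fact ℓ.Prime], 𝔐.IsMaximal → (ℓ : integralClosure ℤ ℂ) ∈ 𝔐 →
    ∀ (P : Subgroup T) [Fintype (NP P)], Nat.card P = ℓ → ¬ ℓ ∣ P.index →
    ∀ χ₀ : T → ℂ, IsIrr χ₀ → ¬ HasDefect ℓ χ₀ 0 →
      Nat.card {χ : T → ℂ // IsIrr χ ∧
        cen 𝔐 (MonoidHom.id T) χ = cen 𝔐 (MonoidHom.id T) χ₀} =
      Nat.card {ψ : NP P → ℂ // IsIrr ψ ∧
        cen 𝔐 (Subgroup.normalizer (P : Set T)).subtype ψ = cen 𝔐 (MonoidHom.id T) χ₀}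

/-- BRD: Dade's conjecture for the groups whose order is not divisible by `ℓ ^ 2`. -/
def Stmt_BRD : Prop :=
  ∀ (ℓ : ℕ) (T : Type) [Group T] [Finite T], ℓ.Prime → ¬ ℓ ^ 2 ∣ Nat.card T → DadeHolds ℓ T

end Pool.Agent.DPB


end

section

/-!
# CHP: the multiplicities on the class functions are given by the ordinary characters
-/

namespace Pool.Agent.DPB

open Pool.Agent.Lib_helper13 Representation Polynomial

namespace CHP

section gen

variable {F H : Type} [Field F] [Group H] [Fintype H]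

/-- A representative of a conjugacy class. -/
noncomputable def rp (C : ConjClasses H) : H := Quotient.out C

theorem mk_rp (C : ConjClasses H) : ConjClasses.mk (rp C) = C := Quotient.out_eq C

theorem mk_conj' (g x : H) : ConjClasses.mk (g * x * g⁻¹) = ConjClasses.mk x := by
  rw [ConjClasses.mk_eq_mk_iff_isConj]
  exact isConj_iff.mpr ⟨g⁻¹, by group⟩

theorem cf_isConj {φ : H → F} (hφ : φ ∈ CF F H) {x y : H} (h : IsConj x y) : φ x = φ y := by
  obtain ⟨c, rfl⟩ := isConj_iff.mp h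
  exact (hφ c x).symm

/-- The matrix of the operator of `z` on the functions of the conjugacy classes. -/
noncomputable def mat [DecidableEq (ConjClasses H)] {R : Type} [CommRing R] (z : H → R) :
    Matrix (ConjClasses H) (ConjClasses H) R :=
  fun C D => ∑ h, if ConjClasses.mk (h * rp C) = D then z h else 0

theorem mat_map [DecidableEq (ConjClasses H)] {R S : Type} [CommRing R] [CommRing S]
    (f : R →+* S) (z : H → R) : (mat z).map f = mat fun h => f (z h) := by
  ext C D
  simp only [mat, Matrix.map_apply, map_sum]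
  refine Finset.sum_congr rfl fun h _ => ?_
  split_ifs
  · rfl
  · exact map_zero f

/-- The class functions as functions on the conjugacy classes. -/
noncomputable def eqv (F H : Type) [Field F] [Group H] [Fintype H] :
    (ConjClasses H → F) ≃ₗ[F] CF F H where
  toFun ψ := ⟨fun h => ψ (ConjClasses.mk h), fun g x => congrArg ψ (mk_conj' g x)⟩
  map_add' _ _ := rfl
  map_smul' _ _ := rfl
  invFun φ := fun C => φ.1 (rp C)
  left_inv ψ := by
    funext C
    exact congrArg ψ (mk_rp C)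
  right_inv φ := by
    apply Subtype.ext
    funext h
    exact cf_isConj φ.2 (ConjClasses.mk_eq_mk_iff_isConj.mp (mk_rp (ConjClasses.mk h)))

theorem Lz_mem {z φ : H → F} (hz : z ∈ CF F H) (hφ : φ ∈ CF F H) : Lz z φ ∈ CF F H := by
  intro g x
  rw [Lz_apply, Lz_apply]
  refine Fintype.sum_equiv (MulAut.conj g⁻¹).toEquiv _ _ fun h => ?_
  have h1 : (MulAut.conj g⁻¹).toEquiv h = g⁻¹ * h * g⁻¹⁻¹ := rfl
  rw [h1, hz]
  congr 1
  have h2 := hφ g (g⁻¹ * h * g⁻¹⁻¹ * x)
  rw [← h2]
  congr 1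
  group

/-- The operator of `z` on the class functions. -/
noncomputable def Lr {z : H → F} (hz : z ∈ CF F H) : Module.End F (CF F H) :=
  (Lz z).restrict fun _ hφ => Lz_mem hz hφ

theorem conj_eq [Fintype (ConjClasses H)] [DecidableEq (ConjClasses H)] {z : H → F}
    (hz : z ∈ CF F H) : (eqv F H).symm.conj (Lr hz) = Matrix.toLin' (mat z) := by
  apply LinearMap.ext
  intro ψ
  funext C
  rw [Matrix.toLin'_apply, LinearEquiv.conj_apply_apply]
  change Lz z (fun h => ψ (ConjClasses.mk h)) (rp C) = ∑ D, mat z C D * ψ D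
  rw [Lz_apply]
  simp only [mat, Finset.sum_mul]
  rw [Finset.sum_comm]
  refine Finset.sum_congr rfl fun h _ => ?_
  simp only [ite_mul, zero_mul]
  rw [Finset.sum_ite_eq]
  simp

theorem charpoly_Lr [Fintype (ConjClasses H)] [DecidableEq (ConjClasses H)] {z : H → F}
    (hz : z ∈ CF F H) : (Lr hz).charpoly = (mat z).charpoly := by
  rw [← LinearEquiv.charpoly_conj (eqv F H).symm, conj_eq, Matrix.charpoly_toLin']

theorem mlt_eq [Fintype (ConjClasses H)] [DecidableEq (ConjClasses H)] {z : H → F}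
    (hz : z ∈ CF F H) (μ : F) :
    mlt (CF F H) (Lz z) μ = (mat z).charpoly.rootMultiplicity μ := by
  have h1 : (Lz z).maxGenEigenspace μ ⊓ CF F H =
      Submodule.map (CF F H).subtype ((Lr hz).maxGenEigenspace μ) := by
    rw [Module.End.maxGenEigenspace, Module.End.maxGenEigenspace, Lr,
      Module.End.genEigenspace_restrict, Submodule.map_comap_subtype, inf_comm]
  rw [mlt, h1, Submodule.finrank_map_subtype_eq, LinearMap.finrank_maxGenEigenspace_eq,
    charpoly_Lr]

end gen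

section cpx

variable {H : Type} [Group H] [Fintype H]

theorem eigen {χ a : H → ℂ} (hχ : IsIrr χ) (ha : a ∈ CF ℂ H) : Lz a χ = wt χ a • χ := by
  obtain ⟨n, ρ, hρ, rfl⟩ := hχ
  have hn := IsIrr.one_ne_zero (χ := ρ.character) ⟨n, ρ, hρ, rfl⟩
  obtain ⟨c, hc⟩ := exists_scalar ρ hρ (∑ h, a h • ρ h) (by
    intro g x
    simp only [LinearMap.sum_apply, LinearMap.smul_apply, map_sum, map_smul]
    refine Fintype.sum_equiv (MulAut.conj g⁻¹).toEquiv _ _ fun h => ?_
    have h1 : (MulAut.conj g⁻¹).toEquiv h = g⁻¹ * h * g⁻¹⁻¹ := rfl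
    rw [h1, ha]
    congr 1
    rw [← Module.End.mul_apply, ← map_mul, ← Module.End.mul_apply, ← map_mul]
    congr 2
    group)
  have h1 : ∀ g : H, ∑ h, a h * ρ.character (h * g) = c * ρ.character g := by
    intro g
    have h2 := congrArg (fun T : (Fin n → ℂ) →ₗ[ℂ] (Fin n → ℂ) =>
      LinearMap.trace ℂ (Fin n → ℂ) (T * ρ g)) hc
    simp only [Finset.sum_mul, map_sum, smul_mul_assoc, map_smul, smul_eq_mul] at h2
    have h3 : (LinearMap.id : (Fin n → ℂ) →ₗ[ℂ] (Fin n → ℂ)) * ρ g = ρ g := one_mul _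
    rw [h3] at h2
    have h4 : ∀ h : H, LinearMap.trace ℂ (Fin n → ℂ) (ρ h * ρ g) = ρ.character (h * g) := by
      intro h
      rw [← map_mul]
      rfl
    simp only [h4] at h2
    exact h2
  have h2 : c = wt ρ.character a := by
    have h3 := h1 1
    simp only [mul_one] at h3
    rw [wt, h3, mul_div_assoc, div_self hn, mul_one]
  funext g
  rw [Lz_apply, h1, h2]
  rfl

theorem ip_add (f f' χ : H → ℂ) : ip (f + f') χ = ip f χ + ip f' χ := by
  simp only [ip, Pi.add_apply, add_mul, Finset.sum_add_distrib, add_div]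

theorem ip_smul (c : ℂ) (f χ : H → ℂ) : ip (c • f) χ = c * ip f χ := by
  simp only [ip, Pi.smul_apply, smul_eq_mul, mul_assoc, ← Finset.mul_sum, mul_div_assoc]

/-- The class functions as combinations of the irreducible characters. -/
noncomputable def psi (H : Type) [Group H] [Fintype H] : CF ℂ H ≃ₗ[ℂ] (irrF H → ℂ) where
  toFun f := fun χ => ip f.1 χ.1
  map_add' f f' := by
    funext χ
    exact ip_add _ _ _
  map_smul' c f := by
    funext χ
    exact ip_smul _ _ _
  invFun c := ⟨fun x => ∑ χ : irrF H, c χ * χ.1 x, fun g x =>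
    Finset.sum_congr rfl fun χ _ => by rw [(mem_irrF.mp χ.2).conj_eq]⟩
  left_inv f := by
    apply Subtype.ext
    have h := class_fn_expand f.1 f.2
    conv_rhs => rw [h]
    funext x
    exact Finset.sum_coe_sort (irrF H) (fun χ => ip f.1 χ * χ x)
  right_inv c := by
    classical
    funext χ
    change ip (fun x => ∑ ψ : irrF H, c ψ * ψ.1 x) χ.1 = c χ
    rw [ip_sum, Finset.sum_eq_single χ]
    · rw [ip_self (mem_irrF.mp χ.2), mul_one]
    · intro b _ hb
      rw [ip_ne (mem_irrF.mp b.2) (mem_irrF.mp χ.2) (fun h => hb (Subtype.ext h)), mul_zero]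
    · intro h
      exact absurd (Finset.mem_univ _) h

theorem conj_psi [DecidableEq (irrF H)] {a : H → ℂ} (ha : a ∈ CF ℂ H) :
    (psi H).conj (Lr ha) = Matrix.toLin' (Matrix.diagonal fun χ : irrF H => wt χ.1 a) := by
  apply LinearMap.ext
  intro c
  funext χ
  rw [Matrix.toLin'_apply, Matrix.mulVec_diagonal, LinearEquiv.conj_apply_apply]
  change ip (Lz a (fun x => ∑ ψ : irrF H, c ψ * ψ.1 x)) χ.1 = _
  have h1 : Lz a (fun x => ∑ ψ : irrF H, c ψ * ψ.1 x) =
      fun x => ∑ ψ : irrF H, (c ψ * wt ψ.1 a) * ψ.1 x := by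
    have h2 : (fun x => ∑ ψ : irrF H, c ψ * ψ.1 x) = ∑ ψ : irrF H, c ψ • ψ.1 := by
      funext x
      simp [Finset.sum_apply]
    rw [h2, map_sum]
    funext x
    rw [Finset.sum_apply]
    refine Finset.sum_congr rfl fun ψ _ => ?_
    rw [map_smul, eigen (mem_irrF.mp ψ.2) ha, Pi.smul_apply, Pi.smul_apply, smul_eq_mul,
      smul_eq_mul, mul_assoc]
  rw [h1, ip_sum, Finset.sum_eq_single χ]
  · rw [ip_self (mem_irrF.mp χ.2), mul_one, mul_comm]
  · intro b _ hb
    rw [ip_ne (mem_irrF.mp b.2) (mem_irrF.mp χ.2) (fun h => hb (Subtype.ext h)), mul_zero]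
  · intro h
    exact absurd (Finset.mem_univ _) h

theorem charpoly_cpx [Fintype (ConjClasses H)] [DecidableEq (ConjClasses H)] {a : H → ℂ}
    (ha : a ∈ CF ℂ H) : (mat a).charpoly = ∏ χ : irrF H, (X - C (wt χ.1 a)) := by
  classical
  rw [← charpoly_Lr ha, ← LinearEquiv.charpoly_conj (psi H), conj_psi ha,
    Matrix.charpoly_toLin', Matrix.charpoly_diagonal]

end cpx

end CHP

open _root_.Pool.Agent.DPB.CHP in
theorem CHP_thm : Stmt_CHP := by
  intro F H _ _ _ r a ha μ
  classical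
  have : Fintype (ConjClasses H) := Fintype.ofFinite _
  have hra : (fun h => r (a h)) ∈ CF F H := fun g x => congrArg r (ha g x)
  have haC : (fun h => (a h : ℂ)) ∈ CF ℂ H := fun g x =>
    congrArg (fun t : integralClosure ℤ ℂ => (t : ℂ)) (ha g x)
  rw [mlt_eq hra]
  -- integral values
  have hex : ∀ χ : irrF H, ∃ b : integralClosure ℤ ℂ,
      (b : ℂ) = wt χ.1 (fun h => (a h : ℂ)) := by
    intro χ
    exact ⟨⟨_, isIntegral_wt (mem_irrF.mp χ.2) (fun h => (a h : ℂ)) (fun g x => haC g x)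
      fun y => (a y).2⟩, rfl⟩
  choose b hb using hex
  have h1 : (mat a).charpoly = ∏ χ : irrF H, (X - C (b χ)) := by
    apply Polynomial.map_injective (algebraMap (integralClosure ℤ ℂ) ℂ)
      Subtype.val_injective
    rw [← Matrix.charpoly_map, mat_map]
    rw [Polynomial.map_prod]
    have h2 := charpoly_cpx haC
    refine Eq.trans h2 (Finset.prod_congr rfl fun χ _ => ?_)
    rw [Polynomial.map_sub, Polynomial.map_X, Polynomial.map_C]
    congr 2
    exact (hb χ).symm
  have h2 : (mat fun h => r (a h)).charpoly =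
      ((Finset.univ.val.map fun χ : irrF H => r (b χ)).map fun t => X - C t).prod := by
    rw [← mat_map r a, Matrix.charpoly_map, h1, Polynomial.map_prod, Multiset.map_map]
    change _ = ∏ χ : irrF H, (X - C (r (b χ)))
    refine Finset.prod_congr rfl fun χ _ => ?_
    rw [Polynomial.map_sub, Polynomial.map_X, Polynomial.map_C]
  rw [h2, ← Polynomial.count_roots, Polynomial.roots_multiset_prod_X_sub_C, Multiset.count_map]
  have h3 : Nat.card {χ : H → ℂ // IsIrr χ ∧
      ∃ b : integralClosure ℤ ℂ, (b : ℂ) = wt χ (fun h => (a h : ℂ)) ∧ r b = μ} =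
      Nat.card {χ : irrF H // μ = r (b χ)} := by
    refine Nat.card_congr
      { toFun := fun χ => ⟨⟨χ.1, mem_irrF.mpr χ.2.1⟩, ?_⟩
        invFun := fun χ => ⟨χ.1.1, mem_irrF.mp χ.1.2, b χ.1, hb χ.1, χ.2.symm⟩
        left_inv := fun χ => rfl
        right_inv := fun χ => rfl }
    obtain ⟨b', hb', hr⟩ := χ.2.2
    refine hr.symm.trans (congrArg r (Subtype.ext ?_))
    exact hb'.trans (hb ⟨χ.1, mem_irrF.mpr χ.2.1⟩).symm
  rw [h3, Nat.card_eq_fintype_card, Fintype.card_subtype]
  rfl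

end Pool.Agent.DPB


end

section

/-!
Theorem U: the residue field of the ring of algebraic integers is algebraically closed
(module ACF).
-/

open Pool.Agent.Lib_helper13 Representation

namespace Pool.Agent.DPB

theorem ACF_thm : Stmt_ACF := by
  intro F _ r hr
  refine IsAlgClosed.of_exists_root F ?_
  intro p hp hirr
  have hlift : p ∈ Polynomial.lifts r := by
    rw [Polynomial.lifts_iff_coeff_lifts]
    intro n
    exact hr _
  obtain ⟨P, hP, hdeg, hmon⟩ := Polynomial.lifts_and_degree_eq_and_monic hlift hp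
  have hdeg0 : (P.map (algebraMap (integralClosure ℤ ℂ) ℂ)).degree ≠ 0 := by
    rw [hmon.degree_map, hdeg]
    exact (Polynomial.degree_pos_of_irreducible hirr).ne'
  obtain ⟨z, hz⟩ := IsAlgClosed.exists_root (P.map (algebraMap (integralClosure ℤ ℂ) ℂ)) hdeg0
  have hz' : Polynomial.eval₂ (algebraMap (integralClosure ℤ ℂ) ℂ) z P = 0 := by
    rw [← Polynomial.eval_map]
    exact hz
  have hint : IsIntegral (integralClosure ℤ ℂ) z := ⟨P, hmon, hz'⟩
  have hint2 : IsIntegral ℤ z := isIntegral_trans z hint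
  let w : integralClosure ℤ ℂ := ⟨z, hint2⟩
  have hw : P.eval w = 0 := by
    apply Subtype.val_injective
    have h1 : algebraMap (integralClosure ℤ ℂ) ℂ (P.eval w) =
        Polynomial.eval₂ (algebraMap (integralClosure ℤ ℂ) ℂ) z P := by
      have h2 : algebraMap (integralClosure ℤ ℂ) ℂ w = z := rfl
      rw [← h2, Polynomial.eval₂_at_apply]
    exact h1.trans hz'
  refine ⟨r w, ?_⟩
  rw [← hP, Polynomial.eval_map, Polynomial.eval₂_at_apply, hw, map_zero]

end Pool.Agent.DPB


end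

section

/-!
# LFT: the central character of a simple module lifts to an ordinary central character
-/

namespace Pool.Agent.DPB

open Pool.Agent.Lib_helper13 Representation

namespace LFT

section Conv

variable {T : Type} [Group T] [Fintype T] {A : Type} [CommRing A]

/-- Convolution of functions on the group. -/
def cv (f f' : T → A) (x : T) : A := ∑ y, f y * f' (y⁻¹ * x)

theorem cv_class {f f' : T → A} (hf : ∀ g x, f (g * x * g⁻¹) = f x)
    (hf' : ∀ g x, f' (g * x * g⁻¹) = f' x) (g x : T) : cv f f' (g * x * g⁻¹) = cv f f' x := by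
  unfold cv
  refine Fintype.sum_equiv (MulAut.conj g⁻¹).toEquiv _ _ fun y => ?_
  have h1 : (MulAut.conj g⁻¹).toEquiv y = g⁻¹ * y * g⁻¹⁻¹ := rfl
  rw [h1, hf]
  congr 1
  rw [← hf' g⁻¹ (y⁻¹ * (g * x * g⁻¹))]
  congr 1
  group

theorem cv_map {B : Type} [CommRing B] (r : A →+* B) (f f' : T → A) (x : T) :
    r (cv f f' x) = cv (fun h => r (f h)) (fun h => r (f' h)) x := by
  unfold cv
  rw [map_sum]
  exact Finset.sum_congr rfl fun y _ => map_mul r _ _

end Conv

section Op

variable {F T V : Type} [Field F] [Group T] [Fintype T] [AddCommGroup V] [Module F V]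

theorem Zop_apply (ρ : Representation F T V) (z : T → F) (v : V) :
    Zop ρ z v = ∑ h, z h • ρ h v := by
  simp [Zop, LinearMap.sum_apply]

theorem Zop_cv (ρ : Representation F T V) (z z' : T → F) :
    Zop ρ (cv z z') = Zop ρ z * Zop ρ z' := by
  unfold Zop
  rw [Finset.sum_mul]
  simp_rw [Finset.mul_sum]
  simp only [cv, Finset.sum_smul]
  rw [Finset.sum_comm]
  refine Finset.sum_congr rfl fun y _ => ?_
  refine Fintype.sum_equiv (Equiv.mulLeft y⁻¹) _ _ fun x => ?_
  change (z y * z' (y⁻¹ * x)) • ρ x = z y • ρ y * z' (y⁻¹ * x) • ρ (y⁻¹ * x)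
  rw [smul_mul_smul_comm, ← map_mul, mul_inv_cancel_left]

theorem Zop_comm (ρ : Representation F T V) {z : T → F} (hz : ∀ g x, z (g * x * g⁻¹) = z x)
    (g : T) (v : V) : Zop ρ z (ρ g v) = ρ g (Zop ρ z v) := by
  simp only [Zop_apply, map_sum, map_smul]
  refine Fintype.sum_equiv (MulAut.conj g⁻¹).toEquiv _ _ fun y => ?_
  have h1 : (MulAut.conj g⁻¹).toEquiv y = g⁻¹ * y * g⁻¹⁻¹ := rfl
  rw [h1, hz]
  congr 1
  rw [← Module.End.mul_apply, ← map_mul, ← Module.End.mul_apply, ← map_mul]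
  congr 2
  group

/-- Schur's lemma. -/
theorem schur [IsAlgClosed F] [Module.Finite F V] (ρ : Representation F T V)
    (hρ : ρ.IsIrreducible) {z : T → F} (hz : ∀ g x, z (g * x * g⁻¹) = z x) :
    ∃ c : F, Zop ρ z = c • (1 : Module.End F V) := by
  have hb := (IsIrreducible.algebraMap_intertwiningMap_bijective_of_isAlgClosed (ρ := ρ)).2
  obtain ⟨c, hc⟩ := hb ⟨Zop ρ z, fun g => LinearMap.ext fun x => Zop_comm ρ hz g x⟩
  refine ⟨c, ?_⟩
  ext x
  have := congrArg (fun f : IntertwiningMap ρ ρ => f x) hc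
  change _ = Zop ρ z x at this
  rw [← this]
  simp [IntertwiningMap.algebraMap_apply]

/-- The operator of a convolution, scalars. -/
theorem Zop_one (ρ : Representation F T V) [DecidableEq T] :
    Zop ρ (fun h => if h = 1 then 1 else 0) = 1 := by
  unfold Zop
  rw [Finset.sum_eq_single 1]
  · simp
  · intro b _ hb
    simp [hb]
  · simp

end Op

/-- Over `ℂ`, the scalar is `wt`. -/
theorem Zop_wt {T : Type} [Group T] [Fintype T] {n : ℕ} (ρ : Representation ℂ T (Fin n → ℂ))
    (hρ : ρ.IsIrreducible) {z : T → ℂ} (hz : ∀ g x, z (g * x * g⁻¹) = z x) :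
    Zop ρ z = wt ρ.character z • (1 : Module.End ℂ (Fin n → ℂ)) := by
  obtain ⟨c, hc⟩ := schur ρ hρ hz
  rw [hc]
  congr 1
  have h1 : (ρ.character 1 : ℂ) ≠ 0 := IsIrr.one_ne_zero ⟨n, ρ, hρ, rfl⟩
  rw [wt, eq_div_iff h1]
  have h2 := congrArg (LinearMap.trace ℂ (Fin n → ℂ)) hc
  rw [Zop, map_sum] at h2
  have h3 : ∀ y : T, LinearMap.trace ℂ (Fin n → ℂ) (z y • ρ y) = z y * ρ.character y := by
    intro y
    rw [map_smul]
    rfl
  simp_rw [h3] at h2
  rw [h2, map_smul, char_one, show (1 : Module.End ℂ (Fin n → ℂ)) = LinearMap.id from rfl,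
    LinearMap.trace_id]
  rfl

theorem wt_cv {T : Type} [Group T] [Fintype T] {χ : T → ℂ} (hχ : IsIrr χ) {z z' : T → ℂ}
    (hz : ∀ g x, z (g * x * g⁻¹) = z x) (hz' : ∀ g x, z' (g * x * g⁻¹) = z' x) :
    wt χ (cv z z') = wt χ z * wt χ z' := by
  obtain ⟨n, ρ, hρ, rfl⟩ := hχ
  have h1 := Zop_wt ρ hρ (cv_class hz hz')
  rw [Zop_cv, Zop_wt ρ hρ hz, Zop_wt ρ hρ hz', smul_mul_smul_comm, mul_one] at h1
  have h2 : (1 : Module.End ℂ (Fin n → ℂ)) ≠ 0 := by
    intro h0
    have h3 : (ρ.character 1 : ℂ) ≠ 0 := IsIrr.one_ne_zero ⟨n, ρ, hρ, rfl⟩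
    apply h3
    have h4 : ρ.character 1 = LinearMap.trace ℂ (Fin n → ℂ) (ρ 1) := rfl
    rw [h4, map_one, h0, map_zero]
  exact (smul_left_injective ℂ h2 h1).symm

theorem wt_one {T : Type} [Group T] [Fintype T] [DecidableEq T] {χ : T → ℂ} (hχ : IsIrr χ) :
    wt χ (fun h => if h = 1 then 1 else 0) = 1 := by
  rw [wt, Finset.sum_eq_single 1]
  · simp [div_self hχ.one_ne_zero]
  · intro b _ hb
    simp [hb]
  · simp

end LFT

open _root_.Pool.Agent.DPB.LFT in
theorem LFT_thm : Stmt_LFT := by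
  classical
  intro F T V _ _ _ _ _ _ _ r ρ hρ
  by_contra hcon
  push Not at hcon
  have hnt : (1 : Module.End F V) ≠ 0 := by
    intro h0
    obtain ⟨a, b, hab⟩ := hρ.exists_pair_ne
    apply hab
    have hs : ∀ x : V, x = 0 := fun x => by
      have := congrArg (fun f : Module.End F V => f x) h0
      simpa using this
    ext x
    rw [hs x]
    exact ⟨fun _ => b.toSubmodule.zero_mem, fun _ => a.toSubmodule.zero_mem⟩
  -- one function for every irreducible character
  have h1 : ∀ χ : T → ℂ, IsIrr χ → ∃ d : T → integralClosure ℤ ℂ,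
      (∀ g x, d (g * x * g⁻¹) = d x) ∧ wt χ (fun h => (d h : ℂ)) = 0 ∧
      ∃ ν : F, ν ≠ 0 ∧ Zop ρ (fun h => r (d h)) = ν • (1 : Module.End F V) := by
    intro χ hχ
    obtain ⟨a, ha, b, hb, hab⟩ := hcon χ hχ
    obtain ⟨μ, hμ⟩ := schur ρ hρ (z := fun h => r (a h)) (fun g x => by rw [ha])
    let e : T → integralClosure ℤ ℂ := fun h => if h = 1 then 1 else 0
    have he : ∀ g x, e (g * x * g⁻¹) = e x := by
      intro g x
      simp only [e]
      congr 1
      rw [eq_iff_iff, mul_inv_eq_one, mul_eq_left]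
    refine ⟨fun h => a h - b * e h, fun g x => by
      change a (g * x * g⁻¹) - b * e (g * x * g⁻¹) = a x - b * e x
      rw [ha, he], ?_, μ - r b, ?_, ?_⟩
    · have h2 : (fun h => ((a h - b * e h : integralClosure ℤ ℂ) : ℂ)) =
          (fun h => (a h : ℂ)) + fun h => (-(b : ℂ)) * (if h = 1 then 1 else 0) := by
        funext h
        simp only [e, Pi.add_apply]
        split_ifs <;> simp [sub_eq_add_neg]
      rw [h2, wt_add, wt_smul, wt_one hχ, ← hb]
      ring
    · intro h0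
      apply hab
      rw [hμ, sub_eq_zero.1 h0]
    · have h3 : Zop ρ (fun h => r (a h - b * e h)) =
          Zop ρ (fun h => r (a h)) - r b • Zop ρ (fun h => if h = 1 then 1 else 0) := by
        unfold Zop
        rw [Finset.smul_sum, ← Finset.sum_sub_distrib]
        refine Finset.sum_congr rfl fun h _ => ?_
        rw [smul_smul, ← sub_smul]
        congr 1
        change r (a h - b * e h) = r (a h) - r b * (if h = 1 then 1 else 0)
        rw [map_sub, map_mul]
        congr 2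
        simp only [e]
        split_ifs <;> simp
      rw [h3, hμ, Zop_one, ← sub_smul]
  -- products
  have h2 : ∀ S : Finset (T → ℂ), (∀ χ ∈ S, IsIrr χ) → ∃ d : T → integralClosure ℤ ℂ,
      (∀ g x, d (g * x * g⁻¹) = d x) ∧ (∀ χ ∈ S, wt χ (fun h => (d h : ℂ)) = 0) ∧
      ∃ ν : F, ν ≠ 0 ∧ Zop ρ (fun h => r (d h)) = ν • (1 : Module.End F V) := by
    intro S
    induction S using Finset.induction_on with
    | empty =>
      intro _
      refine ⟨fun h => if h = 1 then 1 else 0, fun g x => ?_, fun χ hχ => absurd hχ (by simp),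
        1, one_ne_zero, ?_⟩
      · change (if g * x * g⁻¹ = 1 then (1 : integralClosure ℤ ℂ) else 0) = if x = 1 then 1 else 0
        have h0 : (g * x * g⁻¹ = 1) = (x = 1) := by
          rw [eq_iff_iff, mul_inv_eq_one, mul_eq_left]
        simp only [h0]
      · rw [one_smul, ← Zop_one ρ]
        congr 1
        funext h
        split_ifs with h0 <;> simp [h0]
    | insert χ S hχS ih =>
      intro hS
      obtain ⟨d, hd, hd0, ν, hν, hdν⟩ := ih fun χ' h' => hS χ' (Finset.mem_insert_of_mem h')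
      obtain ⟨d', hd', hd0', ν', hν', hdν'⟩ := h1 χ (hS χ (Finset.mem_insert_self _ _))
      have hcd : ∀ g x, (fun h => (d h : ℂ)) (g * x * g⁻¹) = (fun h => (d h : ℂ)) x :=
        fun g x => by
          change ((d (g * x * g⁻¹) : integralClosure ℤ ℂ) : ℂ) = d x
          rw [hd]
      have hcd' : ∀ g x, (fun h => (d' h : ℂ)) (g * x * g⁻¹) = (fun h => (d' h : ℂ)) x :=
        fun g x => by
          change ((d' (g * x * g⁻¹) : integralClosure ℤ ℂ) : ℂ) = d' x
          rw [hd']
      have hval : (fun h => ((cv d d' h : integralClosure ℤ ℂ) : ℂ)) =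
          LFT.cv (fun h => (d h : ℂ)) (fun h => (d' h : ℂ)) := by
        funext h
        exact cv_map (algebraMap (integralClosure ℤ ℂ) ℂ) d d' h
      refine ⟨cv d d', cv_class hd hd', ?_, ν * ν', mul_ne_zero hν hν', ?_⟩
      · intro χ' hχ'
        rw [hval, wt_cv (hS χ' hχ') hcd hcd']
        rcases Finset.mem_insert.1 hχ' with h | h
        · rw [h, hd0', mul_zero]
        · rw [hd0 χ' h, zero_mul]
      · have h3 : (fun h => r (cv d d' h)) = cv (fun h => r (d h)) (fun h => r (d' h)) := by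
          funext h
          exact cv_map r d d' h
        rw [h3, Zop_cv, hdν, hdν', smul_mul_smul_comm, mul_one]
  obtain ⟨d, hd, hd0, ν, hν, hdν⟩ := h2 (irrF T) fun χ hχ => mem_irrF.1 hχ
  have hd1 : (fun h => ((d h⁻¹ : integralClosure ℤ ℂ) : ℂ)) = 0 := by
    apply class_fn_eq_zero
    · intro g x
      have : (g * x * g⁻¹)⁻¹ = g * x⁻¹ * g⁻¹ := by group
      rw [this, hd]
    · intro χ hχ
      have h3 := hd0 χ (mem_irrF.2 hχ)
      rw [wt, div_eq_zero_iff] at h3
      have h4 := h3.resolve_right hχ.one_ne_zero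
      rw [← h4]
      exact Fintype.sum_equiv (Equiv.inv T) _ _ fun g => rfl
  have hd2 : ∀ h, d h = 0 := by
    intro h
    have h3 := congrFun hd1 h⁻¹
    simp only [inv_inv, Pi.zero_apply] at h3
    exact Subtype.ext h3
  have h4 : Zop ρ (fun h => r (d h)) = 0 := by
    unfold Zop
    refine Finset.sum_eq_zero fun h _ => ?_
    change r (d h) • ρ h = 0
    rw [hd2, map_zero, zero_smul]
  rw [h4] at hdν
  rcases smul_eq_zero.1 hdν.symm with h | h
  · exact hν h
  · exact hnt h

end Pool.Agent.DPB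


end

section

set_option linter.unusedSectionVars false

/-!
# BRD: Dade's conjecture for the groups whose order is not divisible by `ℓ ^ 2`
-/

namespace Pool.Agent.DPB

open Pool.Agent.Lib_helper13 Representation
open Pool.Agent.Lib_helper13.Dade (pCore DadeHolds IsLChain chainSetoid dadeSum chainStab kd)

namespace BRD

section Groups

variable {T : Type} [Group T] [Finite T] {ℓ : ℕ} [Fact ℓ.Prime]

theorem card_of_pgroup (h2 : ¬ ℓ ^ 2 ∣ Nat.card T) {D : Subgroup T} (hD : IsPGroup ℓ D)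
    (hne : D ≠ ⊥) : Nat.card D = ℓ := by
  obtain ⟨k, hk⟩ := IsPGroup.iff_card.mp hD
  have h3 : k < 2 := by
    by_contra h
    exact h2 ((pow_dvd_pow ℓ (by omega : 2 ≤ k)).trans
      (hk ▸ Subgroup.card_subgroup_dvd_card D))
  have h4 : k ≠ 0 := by
    rintro rfl
    rw [pow_zero] at hk
    exact hne (Subgroup.card_eq_one.mp hk)
  have h5 : k = 1 := by omega
  rw [hk, h5, pow_one]

theorem not_dvd_index (h2 : ¬ ℓ ^ 2 ∣ Nat.card T) {P : Subgroup T} (hP : Nat.card P = ℓ) :
    ¬ ℓ ∣ P.index := by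
  rintro ⟨m, hm⟩
  apply h2
  refine ⟨m, ?_⟩
  rw [← P.card_mul_index, hP, hm, pow_two, mul_assoc]

theorem isPGroup_of_card {P : Subgroup T} (hP : Nat.card P = ℓ) : IsPGroup ℓ P :=
  IsPGroup.of_card (n := 1) (by rw [hP, pow_one])

theorem exists_conj (h2 : ¬ ℓ ^ 2 ∣ Nat.card T) {D P : Subgroup T} (hD : Nat.card D = ℓ)
    (hP : Nat.card P = ℓ) : ∃ g : T, D.map (MulAut.conj g).toMonoidHom = P := by
  obtain ⟨g, hg⟩ := MulAction.exists_smul_eq T
    ((isPGroup_of_card hD).toSylow (not_dvd_index h2 hD))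
    ((isPGroup_of_card hP).toSylow (not_dvd_index h2 hP))
  refine ⟨g, ?_⟩
  have h3 := congrArg (fun Q : Sylow ℓ T => (Q : Subgroup T)) hg
  exact h3

theorem ne_bot {P : Subgroup T} (hP : Nat.card P = ℓ) : P ≠ ⊥ := by
  rintro rfl
  rw [Subgroup.card_bot] at hP
  exact (Fact.out : ℓ.Prime).one_lt.ne hP

theorem chain_cases (h2 : ¬ ℓ ^ 2 ∣ Nat.card T) (hcore : pCore ℓ T = ⊥)
    {σ : Finset (Subgroup T)} (hσ : IsLChain ℓ σ) :
    σ = ∅ ∨ ∃ D : Subgroup T, Nat.card D = ℓ ∧ σ = {D} := by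
  have h3 : ∀ D ∈ σ, Nat.card D = ℓ := by
    intro D hD
    obtain ⟨h4, h5⟩ := hσ.1 D hD
    rw [hcore] at h5
    exact card_of_pgroup h2 h4 h5.ne'
  rcases σ.eq_empty_or_nonempty with h | ⟨D, hD⟩
  · exact Or.inl h
  · refine Or.inr ⟨D, h3 D hD, ?_⟩
    ext E
    rw [Finset.mem_singleton]
    refine ⟨fun hE => ?_, fun hE => hE ▸ hD⟩
    rcases hσ.2 D hD E hE with h4 | h4
    · exact (Subgroup.eq_of_le_of_card_ge h4 (by rw [h3 D hD, h3 E hE])).symm
    · exact Subgroup.eq_of_le_of_card_ge h4 (by rw [h3 D hD, h3 E hE])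

theorem isLChain_empty : IsLChain ℓ (∅ : Finset (Subgroup T)) := by
  constructor <;> simp

theorem isLChain_single (hcore : pCore ℓ T = ⊥) {P : Subgroup T} (hP : Nat.card P = ℓ) :
    IsLChain ℓ ({P} : Finset (Subgroup T)) := by
  constructor
  · intro D hD
    rw [Finset.mem_singleton] at hD
    subst hD
    refine ⟨isPGroup_of_card hP, ?_⟩
    rw [hcore]
    exact bot_lt_iff_ne_bot.mpr (ne_bot hP)
  · intro D hD E hE
    rw [Finset.mem_singleton] at hD hE
    subst hD hE
    exact Or.inl le_rfl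

end Groups

section Sum

variable {T : Type} [Group T] [Fintype T] {ℓ : ℕ} [Fact ℓ.Prime]
variable (𝔐 : Ideal (integralClosure ℤ ℂ))

theorem term_eq {χ : T → ℂ} (hχ : IsIrr χ) (d : ℕ)
    (σ : {σ : Finset (Subgroup T) // IsLChain ℓ σ}) :
    (-1 : ℤ) ^ (Quotient.mk (chainSetoid ℓ T) σ).out.1.card *
      (kd 𝔐 ℓ χ d (chainStab (Quotient.mk (chainSetoid ℓ T) σ).out.1) : ℤ) =
    (-1) ^ σ.1.card * (cnt 𝔐 ℓ d (stb σ.1).subtype (cen 𝔐 (MonoidHom.id T) χ) : ℤ) := by
  obtain ⟨g, hg⟩ := (chainSetoid_iff _ _).mp (Quotient.exact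
    (Quotient.out_eq (Quotient.mk (chainSetoid ℓ T) σ)))
  rw [kd_eq 𝔐 ℓ d hχ]
  change (-1 : ℤ) ^ (Quotient.mk (chainSetoid ℓ T) σ).out.1.card *
      (cnt 𝔐 ℓ d (stb (Quotient.mk (chainSetoid ℓ T) σ).out.1).subtype
        (cen 𝔐 (MonoidHom.id T) χ) : ℤ) = _
  rw [← hg, card_mapCh (MulAut.conj g).injective, stb_mapCh_equiv, cnt_map_conj]

theorem dadeSum_two (h2 : ¬ ℓ ^ 2 ∣ Nat.card T) (hcore : pCore ℓ T = ⊥) {P : Subgroup T}
    (hP : Nat.card P = ℓ) {χ : T → ℂ} (hχ : IsIrr χ) (d : ℕ) :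
    dadeSum 𝔐 ℓ χ d =
      (cnt 𝔐 ℓ d (stb (∅ : Finset (Subgroup T))).subtype (cen 𝔐 (MonoidHom.id T) χ) : ℤ) -
      (cnt 𝔐 ℓ d (stb ({P} : Finset (Subgroup T))).subtype (cen 𝔐 (MonoidHom.id T) χ) : ℤ) := by
  classical
  have hft : Fintype (Quotient (chainSetoid ℓ T)) := Fintype.ofFinite _
  rw [dadeSum, finsum_eq_sum_of_fintype]
  obtain ⟨q0, hq0⟩ : ∃ q : Quotient (chainSetoid ℓ T),
      q = Quotient.mk (chainSetoid ℓ T) ⟨∅, isLChain_empty⟩ := ⟨_, rfl⟩
  obtain ⟨q1, hq1⟩ : ∃ q : Quotient (chainSetoid ℓ T),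
      q = Quotient.mk (chainSetoid ℓ T) ⟨{P}, isLChain_single hcore hP⟩ := ⟨_, rfl⟩
  have hne : q0 ≠ q1 := by
    intro h
    rw [hq0, hq1] at h
    obtain ⟨g, hg⟩ := (chainSetoid_iff _ _).mp (Quotient.exact h)
    have h3 := congrArg Finset.card hg
    rw [card_mapCh (MulAut.conj g).injective] at h3
    simp at h3
  have huniv : (Finset.univ : Finset (Quotient (chainSetoid ℓ T))) = {q0, q1} := by
    symm
    rw [Finset.eq_univ_iff_forall]
    intro o
    rw [Finset.mem_insert, Finset.mem_singleton]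
    induction o using Quotient.inductionOn with
    | h σ =>
      rcases chain_cases h2 hcore σ.2 with h | ⟨D, hD, h⟩
      · left
        rw [hq0]
        congr 1
        exact Subtype.ext h
      · right
        rw [hq1]
        apply Quotient.sound
        apply (chainSetoid_iff _ _).mpr
        obtain ⟨g, hg⟩ := exists_conj h2 hD hP
        refine ⟨g, ?_⟩
        rw [h, mapCh, Finset.image_singleton, hg]
  rw [huniv, Finset.sum_pair hne, hq0, hq1, term_eq 𝔐 hχ, term_eq 𝔐 hχ]
  simp only [Finset.card_empty, pow_zero, one_mul, Finset.card_singleton, pow_one, neg_mul]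
  ring

end Sum

end BRD

open _root_.Pool.Agent.DPB.BRD

theorem BRD_thm (h1 : Stmt_CNT) (h2 : Stmt_LOC) : Stmt_BRD := by
  intro ℓ T _ _ hℓp hdvd 𝔐 h𝔐 hℓ χ hχ' hex d
  have : Fact ℓ.Prime := ⟨hℓp⟩
  have : Fintype T := Fintype.ofFinite T
  have hprime := h𝔐.isPrime
  have hχ : IsIrr χ := hχ'
  obtain ⟨χ', e, hχ1, hb, hd, he⟩ := hex
  have hχi' : IsIrr χ' := hχ1
  have hcen := (sameBlock_iff 𝔐 hχi' hχ).mp hb
  -- the valuations
  have hv : ∀ H : Subgroup T, padicValNat ℓ (Nat.card H) ≤ 1 := by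
    intro H
    by_contra hcon
    apply hdvd
    have h3 : ℓ ^ 2 ∣ Nat.card H :=
      (pow_dvd_pow ℓ (by omega : 2 ≤ padicValNat ℓ (Nat.card H))).trans pow_padicValNat_dvd
    exact h3.trans (Subgroup.card_subgroup_dvd_card H)
  have hvT : padicValNat ℓ (Nat.card T) ≤ 1 := by
    have h3 := hv ⊤
    rwa [Subgroup.card_top] at h3
  have hpos : 0 < Nat.card (pCore ℓ T) := Nat.card_pos
  have he1 : e = 1 := by
    obtain ⟨n, _, hn⟩ := hd
    have h3 : e ≤ 1 := by omega
    rcases Nat.eq_zero_or_pos e with rfl | h4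
    · rw [pow_zero] at he
      omega
    · omega
  subst he1
  have hcore : pCore ℓ T = ⊥ := by
    by_contra hne
    have h3 := card_of_pgroup hdvd (isPGroup_pCore (G := T) ℓ) hne
    rw [h3, pow_one] at he
    exact lt_irrefl _ he
  have hdT : ℓ ∣ Nat.card T := by
    obtain ⟨n, _, hn⟩ := hd
    exact dvd_of_one_le_padicValNat (by omega)
  obtain ⟨P, hP⟩ := Sylow.exists_subgroup_card_pow_prime (G := T) ℓ (n := 1)
    (by rwa [pow_one])
  rw [pow_one] at hP
  -- no characters of defect zero in the block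
  have hno : ∀ θ : T → ℂ, IsIrr θ →
      cen 𝔐 (MonoidHom.id T) θ = cen 𝔐 (MonoidHom.id T) χ → ¬ HasDefect ℓ θ 0 := by
    intro θ hθ hc h0
    have h3 := eq_of_defect_zero 𝔐 hℓ hθ hχi' h0 (hc.trans hcen.symm)
    subst h3
    have h4 := HasDefect.unique (Y := T) h0 hd
    omega
  have hcnt : ∀ (S : Subgroup T), (∀ θ : S → ℂ, IsIrr θ →
      cen 𝔐 S.subtype θ = cen 𝔐 (MonoidHom.id T) χ → ¬ HasDefect ℓ θ 0) →
      cnt 𝔐 ℓ d S.subtype (cen 𝔐 (MonoidHom.id T) χ) =
        if d = 1 then Nat.card {θ : S → ℂ // IsIrr θ ∧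
          cen 𝔐 S.subtype θ = cen 𝔐 (MonoidHom.id T) χ} else 0 := by
    intro S hS
    have h3 : ∀ θ : S → ℂ, IsIrr θ →
        cen 𝔐 S.subtype θ = cen 𝔐 (MonoidHom.id T) χ → HasDefect ℓ θ 1 := by
      intro θ hθ hc
      obtain ⟨k, hk⟩ := hθ.exists_defect (ℓ := ℓ)
      have h4 : k ≤ 1 := by
        obtain ⟨n, _, hn⟩ := hk
        have := hv S
        omega
      rcases Nat.eq_zero_or_pos k with rfl | h5
      · exact absurd hk (hS θ hθ hc)
      · have h6 : k = 1 := by omega
        rwa [h6] at hk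
    rw [cnt]
    split_ifs with hd1
    · apply Nat.card_congr
      apply Equiv.subtypeEquivRight
      intro θ
      constructor
      · rintro ⟨h4, _, h5⟩
        exact ⟨h4, funext h5⟩
      · rintro ⟨h4, h5⟩
        exact ⟨h4, hd1 ▸ h3 θ h4 h5, fun g => by rw [h5]⟩
    · rw [Nat.card_eq_zero]
      left
      constructor
      rintro ⟨θ, h4, h5, h6⟩
      exact hd1 (h5.unique (h3 θ h4 (funext h6)))
  have hstb : stb ({P} : Finset (Subgroup T)) = Subgroup.normalizer (P : Set T) := by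
    simp [stb]
  have hno1 : ∀ θ : (stb (∅ : Finset (Subgroup T))) → ℂ, IsIrr θ →
      cen 𝔐 (stb (∅ : Finset (Subgroup T))).subtype θ = cen 𝔐 (MonoidHom.id T) χ →
        ¬ HasDefect ℓ θ 0 := by
    intro θ hθ hc h0
    let e : T ≃* stb (∅ : Finset (Subgroup T)) :=
      (Subgroup.topEquiv (G := T)).symm.trans (MulEquiv.subgroupCongr stb_empty.symm)
    apply hno (fun g => θ (e g)) (hθ.comp_mulEquiv e) _ ((hasDefect_comp_equiv e).mpr h0)
    rw [← hc, ← cen_comp_equiv 𝔐 e (stb ∅).subtype θ]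
    rfl
  have hno2 : ∀ θ : (Subgroup.normalizer (P : Set T)) → ℂ, IsIrr θ →
      cen 𝔐 (Subgroup.normalizer (P : Set T)).subtype θ = cen 𝔐 (MonoidHom.id T) χ →
        ¬ HasDefect ℓ θ 0 := by
    intro θ hθ _
    exact (h2 T 𝔐 ℓ h𝔐 hℓ P hP θ hθ).2.2
  have hmain := h1 T 𝔐 ℓ h𝔐 hℓ P hP (not_dvd_index hdvd hP) χ hχ (hno χ hχ rfl)
  have h5 : Nat.card {θ : (stb (∅ : Finset (Subgroup T))) → ℂ // IsIrr θ ∧
      cen 𝔐 (stb (∅ : Finset (Subgroup T))).subtype θ = cen 𝔐 (MonoidHom.id T) χ} =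
      Nat.card {θ : T → ℂ // IsIrr θ ∧
        cen 𝔐 (MonoidHom.id T) θ = cen 𝔐 (MonoidHom.id T) χ} := by
    let e : T ≃* stb (∅ : Finset (Subgroup T)) :=
      (Subgroup.topEquiv (G := T)).symm.trans (MulEquiv.subgroupCongr stb_empty.symm)
    symm
    apply card_irr_equiv e
    intro ψ _
    rw [← cen_comp_equiv 𝔐 e (stb ∅).subtype ψ]
    rfl
  rw [dadeSum_two 𝔐 hdvd hcore hP hχ d, sub_eq_zero]
  norm_cast
  rw [hstb, hcnt _ hno1, hcnt _ hno2, h5, hmain]

end Pool.Agent.DPB


end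

section

/-!
# Module LIN: multiplicities are additive
-/

namespace Pool.Agent.DPB

open Pool.Agent.Lib_helper13 Representation

namespace LIN

variable {F V V' : Type} [Field F] [AddCommGroup V] [Module F V]
  [AddCommGroup V'] [Module F V']

theorem pow_mem (g : Module.End F V) (W : Submodule F V) (hg : ∀ v ∈ W, g v ∈ W) (n : ℕ) :
    ∀ v ∈ W, (g ^ n) v ∈ W := by
  induction n with
  | zero => intro v hv; simpa using hv
  | succ n ih =>
    intro v hv
    rw [pow_succ', Module.End.mul_apply]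
    exact hg _ (ih v hv)

theorem pow_comm (g : Module.End F V) (g' : Module.End F V') (D : V →ₗ[F] V')
    (W : Submodule F V) (hg : ∀ v ∈ W, g v ∈ W) (hD : ∀ v ∈ W, D (g v) = g' (D v)) (n : ℕ) :
    ∀ v ∈ W, D ((g ^ n) v) = (g' ^ n) (D v) := by
  induction n with
  | zero => intro v hv; simp
  | succ n ih =>
    intro v hv
    rw [pow_succ', Module.End.mul_apply, pow_succ', Module.End.mul_apply,
      hD _ (pow_mem g W hg n v hv), ih v hv]

/-- Fitting's lemma on an invariant subspace. -/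
theorem fitting [Module.Finite F V] (g : Module.End F V) (W : Submodule F V) (hg : ∀ v ∈ W, g v ∈ W) :
    ∃ N : ℕ, ∀ n, N ≤ n → ∀ v ∈ W, ∃ v0 ∈ W, ∃ u ∈ W, (g ^ n) v0 = 0 ∧ v = v0 + (g ^ n) u := by
  have h := (g.restrict hg).eventually_codisjoint_ker_pow_range_pow
  obtain ⟨N, hN⟩ := Filter.eventually_atTop.mp h
  refine ⟨N, fun n hn v hv => ?_⟩
  have h1 : (⟨v, hv⟩ : W) ∈ LinearMap.ker ((g.restrict hg) ^ n) ⊔
      LinearMap.range ((g.restrict hg) ^ n) := by
    rw [(hN n hn).eq_top]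
    exact Submodule.mem_top
  obtain ⟨a, ha, b, ⟨u, hu⟩, hab⟩ := Submodule.mem_sup.mp h1
  have hpow : ∀ x : W, (((g.restrict hg) ^ n) x : V) = (g ^ n) (x : V) := by
    intro x
    rw [Module.End.pow_restrict n hg (fun x hx => pow_mem g W hg n x hx)]
    rfl
  refine ⟨a, a.2, u, u.2, ?_, ?_⟩
  · rw [← hpow, LinearMap.mem_ker.mp ha]
    rfl
  · rw [← hpow, hu, ← Submodule.coe_add, hab]

theorem mem_iff (f : Module.End F V) (μ : F) (W : Submodule F V) (v : V) :
    v ∈ f.maxGenEigenspace μ ⊓ W ↔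
      (∃ n : ℕ, ((f - μ • (1 : Module.End F V)) ^ n) v = 0) ∧ v ∈ W := by
  rw [Submodule.mem_inf, Module.End.mem_maxGenEigenspace]

end LIN

open _root_.Pool.Agent.DPB.LIN

/-- LIN: multiplicities are additive. -/
theorem LIN_thm : Stmt_LIN := by
  intro F V V' _ _ _ _ _ _ _ f f' D W hW hD μ
  set g : Module.End F V := f - μ • (1 : Module.End F V) with hgdef
  set g' : Module.End F V' := f' - μ • (1 : Module.End F V') with hg'def
  have hg : ∀ v ∈ W, g v ∈ W := by
    intro v hv
    rw [hgdef, LinearMap.sub_apply, LinearMap.smul_apply, Module.End.one_apply]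
    exact W.sub_mem (hW v hv) (W.smul_mem μ hv)
  have hgD : ∀ v ∈ W, D (g v) = g' (D v) := by
    intro v hv
    rw [hgdef, hg'def, LinearMap.sub_apply, LinearMap.smul_apply, Module.End.one_apply,
      LinearMap.sub_apply, LinearMap.smul_apply, Module.End.one_apply, map_sub, map_smul, hD v hv]
  set E : Submodule F V := f.maxGenEigenspace μ ⊓ W with hE
  have hrange : LinearMap.range (D.domRestrict E) = f'.maxGenEigenspace μ ⊓ W.map D := by
    ext w
    rw [mem_iff]
    constructor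
    · rintro ⟨v, rfl⟩
      obtain ⟨⟨n, hn⟩, hv⟩ := (mem_iff f μ W v).mp v.2
      refine ⟨⟨n, ?_⟩, ⟨v, hv, rfl⟩⟩
      rw [LinearMap.domRestrict_apply, ← pow_comm g g' D W hg hgD n _ hv, hn, map_zero]
    · rintro ⟨⟨k, hk⟩, v, hv, rfl⟩
      obtain ⟨N, hN⟩ := fitting g W hg
      set n := max N (max k (Module.finrank F V')) with hn
      obtain ⟨v0, hv0, u, hu, h0, h1⟩ := hN n (le_max_left _ _) v hv
      have hkn : (g' ^ n) (D v) = 0 := by
        have : n = (n - k) + k := (Nat.sub_add_cancel ((le_max_left _ _).trans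
          (le_max_right _ _))).symm
        rw [this, pow_add, Module.End.mul_apply, hk, map_zero]
      have h2 : (g' ^ (n + n)) (D u) = 0 := by
        rw [pow_add, Module.End.mul_apply, ← pow_comm g g' D W hg hgD n u hu]
        have : D ((g ^ n) u) = D v - D v0 := by rw [h1]; simp
        rw [this, map_sub, hkn, ← pow_comm g g' D W hg hgD n v0 hv0, h0, map_zero, sub_zero]
      have h3 : (g' ^ n) (D u) = 0 := by
        have hle : Module.finrank F V' ≤ n := (le_max_right _ _).trans (le_max_right _ _)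
        have e1 := Module.End.ker_pow_eq_ker_pow_finrank_of_le (f := g') hle
        have e2 := Module.End.ker_pow_eq_ker_pow_finrank_of_le (f := g')
          (hle.trans (Nat.le_add_left n n))
        rw [← LinearMap.mem_ker, e1, ← e2, LinearMap.mem_ker]
        exact h2
      have h4 : v0 ∈ E := (mem_iff f μ W v0).mpr ⟨⟨n, h0⟩, hv0⟩
      refine ⟨⟨v0, h4⟩, ?_⟩
      rw [LinearMap.domRestrict_apply, h1, map_add, pow_comm g g' D W hg hgD n u hu, h3, add_zero]
  have hker : (LinearMap.ker (D.domRestrict E)).map E.subtype =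
      f.maxGenEigenspace μ ⊓ (W ⊓ LinearMap.ker D) := by
    ext v
    constructor
    · rintro ⟨x, hx, rfl⟩
      have hx' : D x = 0 := hx
      have h : (x : V) ∈ f.maxGenEigenspace μ ⊓ W := x.2
      exact ⟨h.1, h.2, hx'⟩
    · rintro ⟨h1, h2, h3⟩
      exact ⟨⟨v, ⟨h1, h2⟩⟩, h3, rfl⟩
  have h := LinearMap.finrank_range_add_finrank_ker (D.domRestrict E)
  unfold mlt
  rw [← hE, ← h, ← hrange, ← hker, add_comm]
  congr 1
  exact (LinearEquiv.finrank_eq (Submodule.equivMapOfInjective E.subtype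
    (Submodule.injective_subtype E) _))

end Pool.Agent.DPB


end

section

/-!
DEN: the density theorem for pairwise non-isomorphic irreducible representations.
-/

namespace Pool.Agent.DPB

open Pool.Agent.Lib_helper13 Representation

namespace DEN

/-- the operator of an element of the group algebra -/
lemma zop_eq {F H V : Type} [Field F] [Group H] [Fintype H] [AddCommGroup V] [Module F V]
    (ρ : Representation F H V) (r : MonoidAlgebra F H) :
    Zop ρ (fun h => r.coeff h) = ρ.asAlgebraHom r := by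
  rw [Representation.asAlgebraHom_def, MonoidAlgebra.lift_apply, Finsupp.sum_fintype]
  · rfl
  · intro h
    rw [zero_smul]

section Maps

variable {F H V W : Type} [Field F] [Group H] [AddCommGroup V] [Module F V] [AddCommGroup W]
  [Module F W] (ρ : Representation F H V) (σ : Representation F H W)

/-- the linear map of a homomorphism of modules over the group algebra -/
noncomputable def toLin (φ : ρ.asModule →ₗ[MonoidAlgebra F H] σ.asModule) : V →ₗ[F] W :=
  (σ.asModuleEquiv : σ.asModule →ₗ[F] W) ∘ₗ (φ.restrictScalars F) ∘ₗ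
    (ρ.asModuleEquiv.symm : V →ₗ[F] ρ.asModule)

lemma toLin_eqv (φ : ρ.asModule →ₗ[MonoidAlgebra F H] σ.asModule) : Eqv ρ σ (toLin ρ σ φ) := by
  intro g v
  show σ.asModuleEquiv (φ (ρ.asModuleEquiv.symm (ρ g v))) =
    σ g (σ.asModuleEquiv (φ (ρ.asModuleEquiv.symm v)))
  rw [Representation.asModuleEquiv_symm_map_rho, map_smul, Representation.asModuleEquiv_map_smul,
    Representation.asAlgebraHom_of]

lemma toLin_zero (φ : ρ.asModule →ₗ[MonoidAlgebra F H] σ.asModule) (h : toLin ρ σ φ = 0) :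
    φ = 0 := by
  ext x
  have h1 : toLin ρ σ φ (ρ.asModuleEquiv x) = 0 := by rw [h]; rfl
  have h2 : σ.asModuleEquiv (φ x) = 0 := h1
  rw [LinearMap.zero_apply]
  exact (LinearEquiv.map_eq_zero_iff _).1 h2

end Maps

end DEN

open _root_.Pool.Agent.DPB.DEN in
/-- **(DEN)** -/
theorem DEN_thm : Stmt_DEN := by
  classical
  intro F H _ _ _ _ I _ V _ _ _ ρ hirr hne A
  have hirr' : ∀ i, IsSimpleModule (MonoidAlgebra F H) (ρ i).asModule := fun i =>
    (irreducible_iff_isSimpleModule_asModule (ρ i)).1 (hirr i)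
  have hss : IsSemisimpleModule (MonoidAlgebra F H) (∀ i, (ρ i).asModule) := inferInstance
  -- endomorphisms act by scalars on the factors
  have key : ∀ φ : Module.End (MonoidAlgebra F H) (∀ i, (ρ i).asModule), ∃ c : I → F,
      ∀ (m : ∀ i, (ρ i).asModule) (i : I), φ m i = c i • m i := by
    intro φ
    have hc : ∀ i, ∃ c : F, ∀ x : (ρ i).asModule,
        (LinearMap.proj i ∘ₗ φ ∘ₗ
          LinearMap.single (MonoidAlgebra F H) (fun i => (ρ i).asModule) i) x = c • x := by
      intro i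
      obtain ⟨c, hc⟩ := (IsSimpleModule.algebraMap_end_bijective_of_isAlgClosed
        (A := MonoidAlgebra F H) (V := (ρ i).asModule) F).2
        (LinearMap.proj i ∘ₗ φ ∘ₗ
          LinearMap.single (MonoidAlgebra F H) (fun i => (ρ i).asModule) i)
      refine ⟨c, fun x => ?_⟩
      rw [← hc]
      rfl
    choose c hc using hc
    refine ⟨c, fun m i => ?_⟩
    have h1 : m = ∑ j, LinearMap.single (MonoidAlgebra F H) (fun i => (ρ i).asModule) j (m j) := by
      funext k
      simp [Finset.sum_apply]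
    have h2 : φ m i = ∑ j, φ (LinearMap.single (MonoidAlgebra F H) (fun i => (ρ i).asModule) j
        (m j)) i := by
      conv_lhs => rw [h1]
      rw [map_sum, Finset.sum_apply]
    rw [h2, Finset.sum_eq_single i]
    · exact hc i (m i)
    · intro j _ hj
      have h3 : (LinearMap.proj i ∘ₗ φ ∘ₗ LinearMap.single (MonoidAlgebra F H)
          (fun i => (ρ i).asModule) j) = 0 :=
        toLin_zero (ρ j) (ρ i) _ (hne j i hj _ (toLin_eqv (ρ j) (ρ i) _))
      exact congrArg (fun f => f (m j)) h3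
    · intro h
      exact absurd (Finset.mem_univ i) h
  -- the family `A` as an element of the bicommutant
  let f : Module.End (Module.End (MonoidAlgebra F H) (∀ i, (ρ i).asModule))
      (∀ i, (ρ i).asModule) :=
    { toFun := fun m i => (ρ i).asModuleEquiv.symm (A i ((ρ i).asModuleEquiv (m i)))
      map_add' := by
        intro m m'
        funext i
        simp
      map_smul' := by
        intro φ m
        obtain ⟨c, hc⟩ := key φ
        funext i
        show (ρ i).asModuleEquiv.symm (A i ((ρ i).asModuleEquiv (φ m i))) =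
          φ (fun i => (ρ i).asModuleEquiv.symm (A i ((ρ i).asModuleEquiv (m i)))) i
        rw [hc, hc]
        simp }
  -- a finite set of vectors
  let s : Finset (∀ i, (ρ i).asModule) :=
    Finset.univ.biUnion fun i => Finset.univ.image fun k =>
      Pi.single i ((ρ i).asModuleEquiv.symm (Module.finBasis F (V i) k))
  obtain ⟨r, hr⟩ := jacobson_density f s
  refine ⟨fun h => r.coeff h, fun i => ?_⟩
  rw [zop_eq]
  refine (Module.finBasis F (V i)).ext fun k => ?_
  have h1 := hr (Pi.single i ((ρ i).asModuleEquiv.symm (Module.finBasis F (V i) k))) (by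
    refine Finset.mem_biUnion.2 ⟨i, Finset.mem_univ i, ?_⟩
    exact Finset.mem_image.2 ⟨k, Finset.mem_univ k, rfl⟩)
  have h2 := congrArg (fun m => (ρ i).asModuleEquiv (m i)) h1
  have h3 : (ρ i).asModuleEquiv (f (Pi.single i ((ρ i).asModuleEquiv.symm
      (Module.finBasis F (V i) k))) i) = A i (Module.finBasis F (V i) k) := by
    show (ρ i).asModuleEquiv ((ρ i).asModuleEquiv.symm (A i ((ρ i).asModuleEquiv
      ((Pi.single i ((ρ i).asModuleEquiv.symm (Module.finBasis F (V i) k)) :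
        ∀ i, (ρ i).asModule) i)))) = _
    rw [Pi.single_eq_same, LinearEquiv.apply_symm_apply, LinearEquiv.apply_symm_apply]
  have h4 : (ρ i).asModuleEquiv ((r • (Pi.single i ((ρ i).asModuleEquiv.symm
      (Module.finBasis F (V i) k)) : ∀ i, (ρ i).asModule)) i) =
        (ρ i).asAlgebraHom r (Module.finBasis F (V i) k) := by
    rw [Pi.smul_apply, Representation.asModuleEquiv_map_smul, Pi.single_eq_same,
      LinearEquiv.apply_symm_apply]
  rw [← h4, ← h3]
  exact h2.symm

end Pool.Agent.DPB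


end

section

/-!
# Brauer theorem for groups with Sylow `ℓ`-subgroups of order `ℓ`: BRE
-/

namespace Pool.Agent.DPB

open Pool.Agent.Lib_helper13 Representation

namespace BRE

variable {F H V : Type} [Field F] [Group H] [Fintype H] [AddCommGroup V] [Module F V]

theorem zop_comm (ρ : Representation F H V) {z : H → F} (hz : z ∈ CF F H) (g : H) :
    Zop ρ z * ρ g = ρ g * Zop ρ z := by
  have hz' : ∀ g x, z (g * x * g⁻¹) = z x := hz
  unfold Zop
  rw [Finset.sum_mul, Finset.mul_sum]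
  refine Fintype.sum_equiv (MulAut.conj g⁻¹).toEquiv _ _ fun h => ?_
  have e1 : (MulAut.conj g⁻¹).toEquiv h = g⁻¹ * h * g⁻¹⁻¹ := rfl
  rw [e1, hz' g⁻¹ h, smul_mul_assoc, mul_smul_comm, ← map_mul, ← map_mul]
  congr 2
  group

theorem trace_zop (ρ : Representation F H V) (z : H → F) (g : H) :
    LinearMap.trace F V (Zop ρ z * ρ g) = Lz z ρ.character g := by
  rw [Lz_apply]
  unfold Zop
  rw [Finset.sum_mul, map_sum]
  refine Finset.sum_congr rfl fun h _ => ?_
  rw [smul_mul_assoc, map_smul, smul_eq_mul, ← map_mul]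
  rfl

theorem exists_trace_one [Module.Finite F V] [Nontrivial V] :
    ∃ A : Module.End F V, LinearMap.trace F V A = 1 := by
  let b := Module.finBasis F V
  have hpos : 0 < Module.finrank F V := Module.finrank_pos
  let i : Fin (Module.finrank F V) := ⟨0, hpos⟩
  refine ⟨(b.coord i).smulRight (b i), ?_⟩
  rw [LinearMap.trace_smulRight]
  simp

end BRE

theorem BRE_thm (h1 : Stmt_DEN) : Stmt_BRE := by
  intro F H V _ _ _ _ _ _ _ ρ hρ
  have := hρ
  refine ⟨?_, ?_⟩
  · intro h0
    have : Nontrivial V := by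
      by_contra hV
      rw [not_nontrivial_iff_subsingleton] at hV
      have : (⊥ : Subrepresentation ρ) = ⊤ := by
        ext v
        have hv : v = 0 := Subsingleton.elim _ _
        subst hv
        exact ⟨fun _ => (⊤ : Subrepresentation ρ).toSubmodule.zero_mem,
          fun _ => (⊥ : Subrepresentation ρ).toSubmodule.zero_mem⟩
      exact bot_ne_top this
    obtain ⟨A, hA⟩ := BRE.exists_trace_one (F := F) (V := V)
    obtain ⟨z, hz⟩ := h1 F H Unit (fun _ => V) (fun _ => ρ) (fun _ => hρ)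
      (fun i j hij => absurd (Subsingleton.elim i j) hij) (fun _ => A)
    have h2 := BRE.trace_zop ρ z 1
    rw [hz (), map_one, mul_one, hA, h0, Lz_apply] at h2
    simp at h2
  · intro z hz
    let f : IntertwiningMap ρ ρ :=
      ⟨Zop ρ z, fun g => BRE.zop_comm ρ hz g⟩
    obtain ⟨μ, hμ⟩ := (IsIrreducible.algebraMap_intertwiningMap_bijective_of_isAlgClosed
      (ρ := ρ)).2 f
    have hμ' : Zop ρ z = μ • (1 : Module.End F V) := by
      have h3 := congrArg IntertwiningMap.toLinearMap hμ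
      exact h3.symm
    refine ⟨μ, hμ', ?_⟩
    funext g
    rw [← BRE.trace_zop ρ z g, hμ', smul_mul_assoc, one_mul, map_smul]
    rfl

end Pool.Agent.DPB


end

section

/-!
# BRL: the trace functions are linearly independent
-/

namespace Pool.Agent.DPB

open Pool.Agent.Lib_helper13 Representation

namespace BRL

theorem trace_Zop {F H V : Type} [Field F] [Group H] [Fintype H] [AddCommGroup V] [Module F V]
    (ρ : Representation F H V) (z : H → F) :
    LinearMap.trace F V (Zop ρ z) = ∑ h, z h * ρ.character h := by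
  unfold Zop
  rw [map_sum]
  refine Finset.sum_congr rfl fun h _ => ?_
  rw [map_smul, smul_eq_mul]
  rfl

theorem exists_ne_zero {F H V : Type} [Field F] [Group H] [AddCommGroup V] [Module F V]
    (ρ : Representation F H V) (hρ : ρ.IsIrreducible) : ∃ v : V, v ≠ 0 := by
  by_contra h
  push Not at h
  haveI := hρ
  have h2 : (⊥ : Subrepresentation ρ) = ⊤ := by
    apply SetLike.ext
    intro v
    rw [h v]
    exact ⟨fun _ => trivial, fun _ => (⊥ : Subrepresentation ρ).toSubmodule.zero_mem⟩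
  exact bot_ne_top h2

theorem exists_trace_one {F H V : Type} [Field F] [Group H] [AddCommGroup V] [Module F V]
    [Module.Finite F V] (ρ : Representation F H V) (hρ : ρ.IsIrreducible) :
    ∃ A : Module.End F V, LinearMap.trace F V A = 1 := by
  obtain ⟨v, hv⟩ := exists_ne_zero ρ hρ
  obtain ⟨f, hf⟩ := Module.Projective.exists_dual_eq_one F hv
  exact ⟨f.smulRight v, by rw [LinearMap.trace_smulRight, hf]⟩

/-- Schur's lemma: equivariant maps between irreducible representations with different trace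
functions vanish. -/
theorem eqv_eq_zero {F H V W : Type} [Field F] [Group H] [AddCommGroup V] [Module F V]
    [AddCommGroup W] [Module F W] (ρ : Representation F H V) (σ : Representation F H W)
    (hρ : ρ.IsIrreducible) (hσ : σ.IsIrreducible) (hne : ρ.character ≠ σ.character)
    (f : V →ₗ[F] W) (hf : Eqv ρ σ f) : f = 0 := by
  haveI := hρ
  haveI := hσ
  rcases IsIrreducible.bijective_or_eq_zero (f.intertwiningMap_of_isIntertwiningMap ρ σ hf)
    with hb | h0
  · refine absurd ?_ hne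
    funext g
    let e : V ≃ₗ[F] W := LinearEquiv.ofBijective f hb
    have h1 : σ g = e.conj (ρ g) := by
      apply LinearMap.ext
      intro w
      obtain ⟨v, rfl⟩ := e.surjective w
      rw [LinearEquiv.conj_apply_apply, LinearEquiv.symm_apply_apply]
      exact (hf g v).symm
    show LinearMap.trace F V (ρ g) = LinearMap.trace F W (σ g)
    rw [h1, LinearMap.trace_conj']
  · exact congrArg IntertwiningMap.toLinearMap h0

end BRL

open _root_.Pool.Agent.DPB.BRL in
/-- BRL. -/
theorem BRL_thm (h1 : Stmt_DEN) : Stmt_BRL := by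
  intro F H _ _ _ _
  rw [linearIndependent_iff']
  intro s c hc i hi
  choose n ρ hρ using fun φ : {φ : H → F // IsBr F φ} => φ.2
  classical
  obtain ⟨A, hA⟩ := exists_trace_one (ρ i) (hρ i).1
  obtain ⟨z, hz⟩ := h1 F H ↥s (fun j => Fin (n j.1) → F) (fun j => ρ j.1)
    (fun j => (hρ j.1).1)
    (fun j k hjk f hf => eqv_eq_zero (ρ j.1) (ρ k.1) (hρ j.1).1 (hρ k.1).1
      (by
        rw [(hρ j.1).2, (hρ k.1).2]
        intro h
        exact hjk (Subtype.ext (Subtype.ext h))) f hf)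
    (Function.update (fun _ => 0) ⟨i, hi⟩ A)
  have key : ∀ j ∈ s, ∑ h, z h * (j : H → F) h = if j = i then 1 else 0 := by
    intro j hj
    have e1 := trace_Zop (ρ j) z
    rw [(hρ j).2] at e1
    rw [← e1]
    have e2 := hz ⟨j, hj⟩
    by_cases hji : j = i
    · subst hji
      rw [if_pos rfl, e2, Function.update_self, hA]
    · rw [if_neg hji, e2, Function.update_of_ne (fun h => hji (congrArg Subtype.val h)), map_zero]
  have h0 : ∑ h, z h * (∑ j ∈ s, c j • (j : H → F)) h = 0 := by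
    rw [hc]
    simp
  have h2 : ∑ h, z h * (∑ j ∈ s, c j • (j : H → F)) h =
      ∑ j ∈ s, c j * ∑ h, z h * (j : H → F) h := by
    simp only [Finset.sum_apply, Pi.smul_apply, smul_eq_mul, Finset.mul_sum]
    rw [Finset.sum_comm]
    refine Finset.sum_congr rfl fun j _ => Finset.sum_congr rfl fun h _ => ?_
    ring
  rw [h2, Finset.sum_congr rfl fun j hj => by rw [key j hj]] at h0
  simpa [hi] using h0

end Pool.Agent.DPB


end

section

/-!
# BRS: the trace functions span the class functions which depend on the `ℓ'`-parts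
-/

namespace Pool.Agent.DPB

open Pool.Agent.Lib_helper13 Representation

namespace BRS

section

variable {F : Type} [Field F]

/-- Trace functionals on a matrix algebra are multiples of the trace. -/
theorem mat_trace {d : ℕ} (Ψ : Matrix (Fin d) (Fin d) F →ₗ[F] F)
    (h : ∀ M N, Ψ (M * N) = Ψ (N * M)) : ∃ c : F, ∀ M, Ψ M = c * M.trace := by
  rcases Nat.eq_zero_or_pos d with h0 | hd
  · subst h0
    refine ⟨0, fun M => ?_⟩
    rw [Subsingleton.elim M 0, map_zero, zero_mul]
  let i0 : Fin d := ⟨0, hd⟩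
  have h1 : ∀ i j, i ≠ j → Ψ (Matrix.single i j 1) = 0 := by
    intro i j hij
    have h2 := h (Matrix.single i j 1) (Matrix.single j j 1)
    rw [Matrix.single_mul_single_same, Matrix.single_mul_single_of_ne _ _ _ _ hij.symm, map_zero,
      mul_one] at h2
    exact h2
  have h2 : ∀ i, Ψ (Matrix.single i i 1) = Ψ (Matrix.single i0 i0 1) := by
    intro i
    have h3 := h (Matrix.single i i0 1) (Matrix.single i0 i 1)
    rw [Matrix.single_mul_single_same, Matrix.single_mul_single_same, mul_one] at h3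
    exact h3
  have h3 : ∀ i j (a : F), Ψ (Matrix.single i j a) = a * Ψ (Matrix.single i j 1) := by
    intro i j a
    rw [← smul_eq_mul, ← map_smul, Matrix.smul_single, smul_eq_mul, mul_one]
  refine ⟨Ψ (Matrix.single i0 i0 1), fun M => ?_⟩
  conv_lhs => rw [Matrix.matrix_eq_sum_single M]
  rw [map_sum, Matrix.trace, Finset.mul_sum]
  refine Finset.sum_congr rfl fun i _ => ?_
  rw [map_sum, Finset.sum_eq_single i]
  · rw [h3, h2, Matrix.diag_apply, mul_comm]
  · intro j _ hj
    rw [h3, h1 i j hj.symm, mul_zero]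
  · simp

variable {H : Type} [Group H] [Fintype H]

omit [Fintype H] in
/-- A surjective homomorphism from the group algebra gives an irreducible representation. -/
theorem irr {V : Type} [AddCommGroup V] [Module F V] [Nontrivial V]
    (g : MonoidAlgebra F H →ₐ[F] Module.End F V) (hg : Function.Surjective g) :
    Representation.IsIrreducible
      ((g : MonoidAlgebra F H →* Module.End F V).comp (MonoidAlgebra.of F H)) := by
  set ρ : Representation F H V :=
    (g : MonoidAlgebra F H →* Module.End F V).comp (MonoidAlgebra.of F H) with hρ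
  have hst : ∀ W : Subrepresentation ρ, ∀ (a : MonoidAlgebra F H) (v : V),
      v ∈ W.toSubmodule → g a v ∈ W.toSubmodule := by
    intro W a v hv
    induction a using MonoidAlgebra.induction_linear with
    | zero =>
      rw [map_zero]
      exact W.toSubmodule.zero_mem
    | add x y hx hy =>
      rw [map_add]
      exact W.toSubmodule.add_mem hx hy
    | single h c =>
      have h1 : MonoidAlgebra.single h c = c • MonoidAlgebra.of F H h := by
        rw [MonoidAlgebra.of_apply, MonoidAlgebra.smul_single, smul_eq_mul, mul_one]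
      rw [h1, map_smul]
      exact W.toSubmodule.smul_mem _ (W.apply_mem_toSubmodule h hv)
  refine { exists_pair_ne := ⟨⊥, ⊤, ?_⟩, eq_bot_or_eq_top := ?_ }
  · intro h
    obtain ⟨v, hv⟩ := exists_ne (0 : V)
    apply hv
    have h1 : v ∈ (⊤ : Subrepresentation ρ).toSubmodule := by
      change v ∈ (⊤ : Submodule F V)
      trivial
    rw [← h] at h1
    exact h1
  · intro W
    by_cases hW : W = ⊥
    · exact Or.inl hW
    · right
      have h1 : W.toSubmodule ≠ ⊥ := by
        intro h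
        apply hW
        ext v
        change v ∈ W.toSubmodule ↔ v ∈ (⊥ : Submodule F V)
        rw [h]
      obtain ⟨v, hv, hv0⟩ := Submodule.exists_mem_ne_zero_of_ne_bot h1
      obtain ⟨f, hf⟩ : ∃ f : Module.Dual F V, f v ≠ 0 := by
        by_contra hcon
        push Not at hcon
        exact hv0 ((Module.forall_dual_apply_eq_zero_iff F v).1 hcon)
      have h2 : W.toSubmodule = ⊤ := by
        rw [eq_top_iff]
        intro w _
        obtain ⟨a, ha⟩ := hg (f.smulRight ((f v)⁻¹ • w))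
        have h3 := hst W a v hv
        rw [ha, LinearMap.smulRight_apply, smul_smul, mul_inv_cancel₀ hf, one_smul] at h3
        exact h3
      ext w
      change w ∈ W.toSubmodule ↔ w ∈ (⊤ : Submodule F V)
      rw [h2]

/-- the functional of a function -/
def fn (φ : H → F) : MonoidAlgebra F H →ₗ[F] F where
  toFun x := ∑ h, x.coeff h * φ h
  map_add' x y := by
    simp [add_mul, Finset.sum_add_distrib]
  map_smul' c x := by
    simp [Finset.mul_sum, mul_assoc]

omit [Group H] in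
theorem fn_single (φ : H → F) (h : H) (c : F) : fn φ (MonoidAlgebra.single h c) = c * φ h := by
  classical
  change ∑ h', (MonoidAlgebra.single h c).coeff h' * φ h' = _
  rw [Finset.sum_eq_single h]
  · rw [MonoidAlgebra.coeff_single, Finsupp.single_eq_same]
  · intro b _ hb
    rw [MonoidAlgebra.coeff_single, Finsupp.single_eq_of_ne hb, zero_mul]
  · simp

theorem fn_comm {φ : H → F} (hφ : ∀ g x, φ (g * x * g⁻¹) = φ x) (a b : MonoidAlgebra F H) :
    fn φ (a * b) = fn φ (b * a) := by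
  induction a using MonoidAlgebra.induction_linear with
  | zero => simp
  | add x y hx hy => rw [add_mul, mul_add, map_add, map_add, hx, hy]
  | single g c =>
    induction b using MonoidAlgebra.induction_linear with
    | zero => simp
    | add x y hx hy => rw [add_mul, mul_add, map_add, map_add, hx, hy]
    | single h c' =>
      rw [MonoidAlgebra.single_mul_single, MonoidAlgebra.single_mul_single, fn_single, fn_single]
      have h1 := hφ h (g * h)
      rw [show h * (g * h) * h⁻¹ = h * g by group] at h1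
      rw [h1, mul_comm c]

omit [Group H] in
theorem sum_single (x : MonoidAlgebra F H) : ∑ h, MonoidAlgebra.single h (x.coeff h) = x := by
  classical
  ext h
  rw [MonoidAlgebra.coeff_sum, Finsupp.finsetSum_apply, Finset.sum_eq_single h]
  · rw [MonoidAlgebra.coeff_single, Finsupp.single_eq_same]
  · intro b _ hb
    rw [MonoidAlgebra.coeff_single, Finsupp.single_eq_of_ne hb.symm]
  · simp

/-- The exponent: `h^(ℓ^n)` is the `ℓ'`-part of `h`. -/
theorem exists_exp (ℓ : ℕ) [hℓ : Fact ℓ.Prime] (c N : ℕ) (hc : c ≠ 0) :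
    ∃ n k : ℕ, N ≤ ℓ ^ n ∧ c ∣ ℓ ^ k * (ℓ ^ n - 1) := by
  obtain ⟨a, m, hm, rfl⟩ := Nat.exists_eq_pow_mul_and_not_dvd hc ℓ hℓ.out.ne_one
  have hm0 : m ≠ 0 := by
    rintro rfl
    exact hm (dvd_zero _)
  have hcop : Nat.Coprime ℓ m := (Nat.Prime.coprime_iff_not_dvd hℓ.out).2 hm
  have htot : 0 < m.totient := Nat.totient_pos.2 (Nat.pos_of_ne_zero hm0)
  refine ⟨m.totient * N, a, ?_, ?_⟩
  · calc N ≤ m.totient * N := Nat.le_mul_of_pos_left _ htot
      _ ≤ ℓ ^ (m.totient * N) := (Nat.lt_pow_self hℓ.out.one_lt).le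
  · refine mul_dvd_mul_left _ ?_
    have h1 : 1 ≡ ℓ ^ (m.totient * N) [MOD m] := by
      have h2 := (Nat.ModEq.pow_totient hcop).pow N
      rw [one_pow, ← pow_mul] at h2
      exact h2.symm
    exact (Nat.modEq_iff_dvd' (Nat.one_le_pow _ _ hℓ.out.pos)).1 h1

theorem phi_pow (ℓ : ℕ) [Fact ℓ.Prime] {φ : H → F} (hφ : φ ∈ CFr ℓ F H) {n k : ℕ}
    (hnk : Fintype.card H ∣ ℓ ^ k * (ℓ ^ n - 1)) (h : H) : φ (h ^ ℓ ^ n) = φ h := by
  have hpos : 1 ≤ ℓ ^ n := Nat.one_le_pow _ _ (Fact.out : ℓ.Prime).pos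
  have h1 := hφ.2 (h ^ ℓ ^ n) ((h ^ (ℓ ^ n - 1))⁻¹)
    (((Commute.refl h).pow_pow _ _).inv_right.eq) ⟨k, by
      rw [inv_pow, ← pow_mul, mul_comm (ℓ ^ n - 1)]
      obtain ⟨d, hd⟩ := hnk
      rw [hd, pow_mul, pow_card_eq_one, one_pow, inv_one]⟩
  rw [← h1]
  congr 1
  have h2 : h ^ ℓ ^ n = h * h ^ (ℓ ^ n - 1) := by
    rw [← pow_succ']
    congr 1
    omega
  rw [h2, mul_inv_cancel_right]

end

end BRS

open _root_.Pool.Agent.DPB.BRS in
theorem BRS_thm (_h1 : Stmt_DEN) (h2 : Stmt_BRR) (h3 : Stmt_BRF) : Stmt_BRS := by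
  intro ℓ _ F H _ _ _ _ _
  apply le_antisymm
  swap
  · rw [Submodule.span_le]
    rintro φ ⟨n, ρ, -, rfl⟩
    exact h2 ℓ F H (Fin n → F) ρ
  intro φ hφ
  have hcl : ∀ g x, φ (g * x * g⁻¹) = φ x := hφ.1
  -- the radical
  have hfin : Module.Finite F (MonoidAlgebra F H) := inferInstance
  have hart : IsArtinianRing (MonoidAlgebra F H) := IsArtinianRing.of_finite F _
  set J := Ring.jacobson (MonoidAlgebra F H) with hJ
  obtain ⟨N, hN⟩ := IsSemiprimaryRing.isNilpotent (R := MonoidAlgebra F H)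
  obtain ⟨n, k, hn, hnk⟩ := exists_exp ℓ (Fintype.card H) N Fintype.card_ne_zero
  have hrad : ∀ a ∈ J, fn φ a = 0 := by
    intro a ha
    have h4 : a ^ ℓ ^ n = 0 := by
      have h5 := Ideal.pow_mem_pow ha N
      rw [hN] at h5
      have h6 : a ^ N = 0 := h5
      exact pow_eq_zero_of_le hn h6
    have h5 := h3 ℓ F H (fn fun h => φ h ^ ℓ ^ n)
      (fn_comm fun g x => by rw [hcl]) (fun h => a.coeff h) n
    rw [BRS.sum_single, h4, map_zero] at h5
    have h6 : (fn φ a) ^ ℓ ^ n = 0 := by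
      change (∑ h, a.coeff h * φ h) ^ ℓ ^ n = 0
      rw [sum_pow_char_pow, h5]
      refine Finset.sum_congr rfl fun h _ => ?_
      rw [mul_pow, fn_single, one_mul, phi_pow ℓ hφ hnk]
    exact (pow_eq_zero_iff (pow_ne_zero _ (Fact.out : ℓ.Prime).ne_zero)).1 h6
  -- the semisimple quotient
  have hfin2 : Module.Finite F (MonoidAlgebra F H ⧸ J) :=
    Module.Finite.of_surjective (Ideal.Quotient.mkₐ F J).toLinearMap
      (Ideal.Quotient.mkₐ_surjective F J)
  obtain ⟨m, d, hd, ⟨e⟩⟩ :=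
    IsSemisimpleRing.exists_algEquiv_pi_matrix_of_isAlgClosed F (MonoidAlgebra F H ⧸ J)
  let π : MonoidAlgebra F H →ₐ[F] (∀ i, Matrix (Fin (d i)) (Fin (d i)) F) :=
    e.toAlgHom.comp (Ideal.Quotient.mkₐ F J)
  have hπ : Function.Surjective π := e.surjective.comp (Ideal.Quotient.mkₐ_surjective F J)
  have hker : ∀ a, π a = 0 → a ∈ J := by
    intro a ha
    have h4 : e (Ideal.Quotient.mkₐ F J a) = 0 := ha
    rw [EmbeddingLike.map_eq_zero_iff] at h4
    exact Ideal.Quotient.eq_zero_iff_mem.1 h4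
  obtain ⟨s, hs⟩ := π.toLinearMap.exists_rightInverse_of_surjective
    (LinearMap.range_eq_top.2 hπ)
  have hs' : ∀ x, π (s x) = x := fun x => LinearMap.congr_fun hs x
  have hΨ : ∀ a b, π a = π b → fn φ a = fn φ b := by
    intro a b hab
    have h4 := hrad (a - b) (hker _ (by rw [map_sub, hab, sub_self]))
    rw [map_sub, sub_eq_zero] at h4
    exact h4
  let Ψ : (∀ i, Matrix (Fin (d i)) (Fin (d i)) F) →ₗ[F] F := (fn φ).comp s
  have hΨ1 : ∀ x, Ψ x = fn φ (s x) := fun x => rfl
  have hΨ2 : ∀ a, fn φ a = Ψ (π a) := fun a => hΨ _ _ (hs' _).symm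
  have hcomm : ∀ x y, Ψ (x * y) = Ψ (y * x) := by
    intro x y
    rw [hΨ1, hΨ1, hΨ (s (x * y)) (s x * s y) (by rw [hs', map_mul, hs', hs']),
      hΨ (s (y * x)) (s y * s x) (by rw [hs', map_mul, hs', hs']), fn_comm hcl]
  have hc : ∀ i, ∃ c : F, ∀ M, Ψ (Pi.single i M) = c * M.trace := by
    intro i
    refine mat_trace (Ψ.comp (LinearMap.single F
      (fun i => Matrix (Fin (d i)) (Fin (d i)) F) i)) fun M N => ?_
    change Ψ (Pi.single i (M * N)) = Ψ (Pi.single i (N * M))
    rw [Pi.single_mul, Pi.single_mul]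
    exact hcomm _ _
  choose c hc using hc
  have hsum : ∀ x, Ψ x = ∑ i, c i * (x i).trace := by
    intro x
    conv_lhs => rw [← Finset.univ_sum_single x]
    rw [map_sum]
    exact Finset.sum_congr rfl fun i _ => hc i _
  let g : ∀ i, MonoidAlgebra F H →ₐ[F] Module.End F (Fin (d i) → F) := fun i =>
    (Matrix.toLinAlgEquiv' : Matrix (Fin (d i)) (Fin (d i)) F ≃ₐ[F] _).toAlgHom.comp
      ((Pi.evalAlgHom F (fun i => Matrix (Fin (d i)) (Fin (d i)) F) i).comp π)
  have hg : ∀ i, Function.Surjective (g i) := by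
    intro i f
    obtain ⟨M, hM⟩ := (Matrix.toLinAlgEquiv' :
      Matrix (Fin (d i)) (Fin (d i)) F ≃ₐ[F] _).surjective f
    obtain ⟨a, ha⟩ := hπ (Pi.single i M)
    refine ⟨a, ?_⟩
    change Matrix.toLinAlgEquiv' (π a i) = f
    rw [ha, Pi.single_eq_same, hM]
  have key : φ = ∑ i, c i • Representation.character
      (((g i : MonoidAlgebra F H →* Module.End F (Fin (d i) → F)).comp
        (MonoidAlgebra.of F H) : Representation F H (Fin (d i) → F))) := by
    funext h
    have h4 := hΨ2 (MonoidAlgebra.single h 1)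
    rw [fn_single, one_mul, hsum] at h4
    rw [h4, Finset.sum_apply]
    refine Finset.sum_congr rfl fun i _ => ?_
    rw [Pi.smul_apply, smul_eq_mul]
    congr 1
    change _ = LinearMap.trace F (Fin (d i) → F) (Matrix.toLin' (π (MonoidAlgebra.single h 1) i))
    rw [Matrix.trace_toLin'_eq]
  rw [key]
  exact Submodule.sum_mem _ fun i _ => Submodule.smul_mem _ _
    (Submodule.subset_span ⟨d i, _, irr (g i) (hg i), rfl⟩)

end Pool.Agent.DPB


end

section

/-!
# A normal subgroup of order `ℓ` acts trivially on the irreducible modules in characteristic `ℓ`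
-/

namespace Pool.Agent.DPB.PTR

open Representation

/-- In characteristic `ℓ`, `x ^ ℓ = 1` gives `(x - 1) ^ ℓ = 0` for endomorphisms. -/
theorem sub_one_pow {ℓ : ℕ} [Fact ℓ.Prime] {F V : Type} [Field F] [CharP F ℓ]
    [AddCommGroup V] [Module F V] [Nontrivial V] (x : Module.End F V) (hx : x ^ ℓ = 1) :
    (x - 1) ^ ℓ = 0 := by
  have : CharP (Module.End F V) ℓ :=
    charP_of_injective_algebraMap (FaithfulSMul.algebraMap_injective F (Module.End F V)) ℓ
  rw [sub_pow_char_of_commute _ (Commute.one_right x), hx, one_pow, sub_self]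

/-- The fixed vectors of a normal subgroup form a subrepresentation. -/
def fixedSub {F N V : Type} [Field F] [Group N] [AddCommGroup V] [Module F V]
    (ρ : Representation F N V) (P : Subgroup N) [hP : P.Normal] : Subrepresentation ρ where
  toSubmodule :=
    { carrier := {v | ∀ p ∈ P, ρ p v = v}
      add_mem' := by
        intro a b ha hb p hp
        rw [map_add, ha p hp, hb p hp]
      zero_mem' := by
        intro p _
        exact map_zero _
      smul_mem' := by
        intro c v hv p hp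
        rw [map_smul, hv p hp] }
  apply_mem_toSubmodule := by
    intro g v hv p hp
    have h1 : g⁻¹ * p * g ∈ P := by
      have := hP.conj_mem p hp g⁻¹
      rwa [inv_inv] at this
    have h2 : ρ (g⁻¹ * p * g) v = v := hv _ h1
    have h3 : p * g = g * (g⁻¹ * p * g) := by group
    rw [← Module.End.mul_apply, ← map_mul, h3, map_mul, Module.End.mul_apply, h2]

theorem mem_fixedSub {F N V : Type} [Field F] [Group N] [AddCommGroup V] [Module F V]
    (ρ : Representation F N V) (P : Subgroup N) [P.Normal] (v : V) :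
    v ∈ (fixedSub ρ P).toSubmodule ↔ ∀ p ∈ P, ρ p v = v := Iff.rfl

end Pool.Agent.DPB.PTR

namespace Pool.Agent.DPB

open Pool.Agent.Lib_helper13 Representation

theorem PTR_thm : Stmt_PTR := by
  intro ℓ hℓ F N V _ _ _ _ _ _ _ ρ P hPn hcard hirr p hp
  have hne : Nontrivial V := by
    by_contra hn
    rw [not_nontrivial_iff_subsingleton] at hn
    obtain ⟨a, b, hab⟩ := hirr.toNontrivial
    apply hab
    apply Subrepresentation.toSubmodule_injective
    exact Subsingleton.elim _ _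
  -- a generator of `P`
  have : IsCyclic P := isCyclic_of_prime_card hcard
  obtain ⟨s, hs⟩ := IsCyclic.exists_generator (α := P)
  have hspow : (s : N) ^ ℓ = 1 := by
    have h1 : s ^ Nat.card P = 1 := pow_card_eq_one'
    rw [hcard] at h1
    have := congrArg (Subtype.val) h1
    simpa using this
  have hx : (ρ (s : N)) ^ ℓ = 1 := by
    rw [← map_pow, hspow, map_one]
  have hnil := PTR.sub_one_pow (ρ (s : N)) hx
  -- a nonzero vector fixed by `s`
  have hker : ∃ v : V, v ≠ 0 ∧ ρ (s : N) v = v := by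
    by_contra hcon
    push Not at hcon
    have hinj : Function.Injective ((ρ (s : N) - 1 : Module.End F V)) := by
      rw [injective_iff_map_eq_zero]
      intro v hv
      by_contra hv0
      apply hcon v hv0
      have : ρ (s : N) v - v = 0 := hv
      exact sub_eq_zero.mp this
    have hinj2 : Function.Injective (((ρ (s : N) - 1) ^ ℓ : Module.End F V)) := by
      rw [Module.End.coe_pow]
      exact hinj.iterate ℓ
    obtain ⟨v, hv⟩ := exists_ne (0 : V)
    apply hv
    apply hinj2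
    rw [hnil]
    simp
  obtain ⟨v, hv0, hv⟩ := hker
  -- `v` is fixed by `P`
  have hfix : ∀ q ∈ P, ρ q v = v := by
    intro q hq
    obtain ⟨k, hk⟩ := Subgroup.mem_zpowers_iff.mp (hs ⟨q, hq⟩)
    have hk2 : (s : N) ^ k = q := by
      have := congrArg (Subtype.val) hk
      simpa using this
    have hnat : ∀ n : ℕ, ρ ((s : N) ^ n) v = v := by
      intro n
      induction n with
      | zero => simp
      | succ n ih => rw [pow_succ, map_mul, Module.End.mul_apply, hv, ih]
    rw [← hk2]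
    cases k with
    | ofNat n => simpa using hnat n
    | negSucc n =>
      have h1 := hnat (n + 1)
      have h2 : ρ ((s : N) ^ (Int.negSucc n)) (ρ ((s : N) ^ (n + 1)) v) = v := by
        rw [← Module.End.mul_apply, ← map_mul, zpow_negSucc, inv_mul_cancel, map_one]
        rfl
      rwa [h1] at h2
  -- the fixed space is everything
  rcases hirr.eq_bot_or_eq_top (PTR.fixedSub ρ P) with hb | ht
  · exfalso
    apply hv0
    have hmem : v ∈ (PTR.fixedSub ρ P).toSubmodule := hfix
    rw [hb] at hmem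
    exact (Submodule.mem_bot F).mp hmem
  · apply LinearMap.ext
    intro w
    have hmem : w ∈ (PTR.fixedSub ρ P).toSubmodule := by
      rw [ht]
      exact Submodule.mem_top
    exact hmem p hp

end Pool.Agent.DPB


end

section

/-!
# EXT: extension of homomorphisms

Average over `N / P` of an explicit `P`-equivariant extension.
-/

namespace Pool.Agent.DPB

open Pool.Agent.Lib_helper13 Representation

namespace EXT

variable {F N V V' W : Type} [Field F] [Group N] [Fintype N]
  [AddCommGroup V] [Module F V] [AddCommGroup V'] [Module F V'] [AddCommGroup W] [Module F W]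

/-- The conjugate of a linear map. -/
def cj (ρ : Representation F N V) (ρ' : Representation F N V') (f : V →ₗ[F] V') (g : N) :
    V →ₗ[F] V' := (ρ' g) ∘ₗ f ∘ₗ (ρ g⁻¹)

omit [Fintype N] in
lemma cj_apply (ρ : Representation F N V) (ρ' : Representation F N V') (f : V →ₗ[F] V') (g : N)
    (v : V) : cj ρ ρ' f g v = ρ' g (f (ρ g⁻¹ v)) := rfl

omit [Fintype N] in
lemma mul_app (ρ : Representation F N V) (g h : N) (v : V) : ρ (g * h) v = ρ g (ρ h v) := by
  rw [map_mul]; rfl

omit [Fintype N] in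
lemma one_app (ρ : Representation F N V) (v : V) : ρ 1 v = v := by
  rw [map_one]; rfl

/-- The average over the cosets. -/
noncomputable def avg (P : Subgroup N) (ρ : Representation F N V) (ρ' : Representation F N V')
    (f : V →ₗ[F] V') : V →ₗ[F] V' := by
  classical
  exact ((P.index : F)⁻¹) • ∑ q : N ⧸ P, cj ρ ρ' f q.out

omit [Fintype N] in
lemma cj_mul (P : Subgroup N) (ρ : Representation F N V) (ρ' : Representation F N V')
    (f : V →ₗ[F] V') (hf : ∀ p ∈ P, ∀ v, f (ρ p v) = ρ' p (f v)) (g p : N) (hp : p ∈ P) :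
    cj ρ ρ' f (g * p) = cj ρ ρ' f g := by
  ext v
  rw [cj_apply, cj_apply, mul_inv_rev, mul_app, mul_app, hf _ (P.inv_mem hp), ← mul_app ρ' p,
    mul_inv_cancel, one_app]

omit [Fintype N] in
lemma cj_out (P : Subgroup N) (ρ : Representation F N V) (ρ' : Representation F N V')
    (f : V →ₗ[F] V') (hf : ∀ p ∈ P, ∀ v, f (ρ p v) = ρ' p (f v)) (g : N) :
    cj ρ ρ' f ((g : N ⧸ P)).out = cj ρ ρ' f g := by
  obtain ⟨h, hh⟩ := QuotientGroup.mk_out_eq_mul P g
  rw [hh, cj_mul P ρ ρ' f hf g _ h.2]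

lemma avg_eqv (P : Subgroup N) (ρ : Representation F N V) (ρ' : Representation F N V')
    (f : V →ₗ[F] V') (hf : ∀ p ∈ P, ∀ v, f (ρ p v) = ρ' p (f v)) : Eqv ρ ρ' (avg P ρ ρ' f) := by
  classical
  intro g v
  have key : ∀ q : N ⧸ P, cj ρ ρ' f (g • q).out (ρ g v) = ρ' g (cj ρ ρ' f q.out v) := by
    intro q
    have h1 : g • q = ((g * q.out : N) : N ⧸ P) := by
      conv_lhs => rw [← QuotientGroup.out_eq' q]
      rfl
    rw [h1, cj_out P ρ ρ' f hf, cj_apply, cj_apply, mul_inv_rev, mul_app, mul_app,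
      ← mul_app ρ g⁻¹ g, inv_mul_cancel, one_app]
  unfold avg
  rw [LinearMap.smul_apply, LinearMap.smul_apply, map_smul, LinearMap.sum_apply,
    LinearMap.sum_apply, map_sum]
  congr 1
  rw [← Equiv.sum_comp (MulAction.toPerm g : Equiv.Perm (N ⧸ P))]
  exact Finset.sum_congr rfl fun q _ => key q

lemma avg_const (P : Subgroup N) (hP : (P.index : F) ≠ 0) (ρ : Representation F N V)
    (ρ' : Representation F N V') (f : V →ₗ[F] V') (v : V) (v' : V')
    (h : ∀ g, ρ' g (f (ρ g⁻¹ v)) = v') : avg P ρ ρ' f v = v' := by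
  classical
  unfold avg
  rw [LinearMap.smul_apply, LinearMap.sum_apply,
    Finset.sum_congr rfl (fun q _ => (cj_apply ρ ρ' f q.out v).trans (h q.out)),
    Finset.sum_const, Finset.card_univ, ← Nat.card_eq_fintype_card, ← Subgroup.index_eq_card,
    ← Nat.cast_smul_eq_nsmul F, smul_smul, inv_mul_cancel₀ hP, one_smul]

/-- In characteristic `ℓ`, `1 + A + ... + A^(ℓ-1) = (A - 1)^(ℓ-1)`. -/
lemma geom (ℓ : ℕ) [Fact ℓ.Prime] [CharP F ℓ] (A : Module.End F V) :
    ∑ c ∈ Finset.range ℓ, A ^ c = (A - 1) ^ (ℓ - 1) := by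
  have hl : 0 < ℓ := (Fact.out : ℓ.Prime).pos
  have key : ∑ c ∈ Finset.range ℓ, (Polynomial.X : Polynomial F) ^ c =
      (Polynomial.X - 1) ^ (ℓ - 1) := by
    have h1 : (Polynomial.X - 1 : Polynomial F) ≠ 0 := Polynomial.X_sub_C_ne_zero 1
    apply mul_right_cancel₀ h1
    rw [geom_sum_mul, ← pow_succ, Nat.sub_add_cancel hl, sub_pow_char, one_pow]
  have h2 := congrArg (Polynomial.aeval A) key
  simpa using h2

/-- Everything about the generator. -/
structure Gn (ℓ : ℕ) (P : Subgroup N) (s : N) : Prop where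
  mem : s ∈ P
  gen : ∀ p ∈ P, ∃ k : ℕ, s ^ k = p
  ord : orderOf s = ℓ

omit [Fintype N] in
lemma exists_gn (ℓ : ℕ) [Fact ℓ.Prime] (P : Subgroup N) (hP : Nat.card P = ℓ) :
    ∃ s, Gn ℓ P s := by
  have hf : Finite P := Nat.finite_of_card_ne_zero (by rw [hP]; exact (Fact.out : ℓ.Prime).ne_zero)
  have hc : IsCyclic P := isCyclic_of_prime_card hP
  obtain ⟨s, hs⟩ := hc.exists_generator
  refine ⟨s.1, s.2, ?_, ?_⟩
  · intro p hp
    have h1 := hs ⟨p, hp⟩
    rw [← mem_powers_iff_mem_zpowers] at h1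
    obtain ⟨k, hk⟩ := h1
    exact ⟨k, congrArg Subtype.val hk⟩
  · rw [Subgroup.orderOf_coe, orderOf_eq_card_of_forall_mem_zpowers hs, hP]

lemma tN_eq (ℓ : ℕ) [Fact ℓ.Prime] [CharP F ℓ] (P : Subgroup N) (s : N) (hs : Gn ℓ P s)
    (ρ : Representation F N V) : tN P ρ = (ρ s - 1) ^ (ℓ - 1) := by
  classical
  rw [← geom]
  unfold tN
  rw [← Finset.sum_filter]
  symm
  refine Finset.sum_bij' (fun c _ => s ^ c) (fun h hh => (hs.gen h (Finset.mem_filter.1 hh).2).choose % ℓ)
    ?_ ?_ ?_ ?_ ?_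
  · intro c _
    rw [Finset.mem_filter]
    exact ⟨Finset.mem_univ _, P.pow_mem hs.mem c⟩
  · intro h hh
    rw [Finset.mem_range]
    exact Nat.mod_lt _ (Fact.out : ℓ.Prime).pos
  · intro c hc
    rw [Finset.mem_range] at hc
    have h1 := (hs.gen (s ^ c) (P.pow_mem hs.mem c)).choose_spec
    have h2 := pow_inj_mod.1 h1
    rw [hs.ord, Nat.mod_eq_of_lt hc] at h2
    exact h2
  · intro h hh
    have h1 := (hs.gen h (Finset.mem_filter.1 hh).2).choose_spec
    have h2 : ∀ x : ℕ, s ^ (x % ℓ) = s ^ x := by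
      intro x
      have h3 := pow_mod_orderOf s x
      rwa [hs.ord] at h3
    rw [h2]
    exact h1
  · intro c _
    rw [map_pow]

omit [Fintype N] in
/-- The ranges of the powers of `s - 1` are stable. -/
lemma range_stable (ℓ : ℕ) (P : Subgroup N) [P.Normal] (s : N) (hs : Gn ℓ P s)
    (ρ : Representation F N V) (i : ℕ) (n : N) (v : V)
    (hv : v ∈ LinearMap.range ((ρ s - 1) ^ i)) : ρ n v ∈ LinearMap.range ((ρ s - 1) ^ i) := by
  obtain ⟨w, rfl⟩ := hv
  obtain ⟨k, hk⟩ := hs.gen (n * s * n⁻¹) (Subgroup.Normal.conj_mem inferInstance s hs.mem n)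
  have h1 : ρ n * (ρ s - 1) = ((ρ s - 1) * ∑ c ∈ Finset.range k, ρ s ^ c) * ρ n := by
    have h2 : ρ n * ρ s = ρ s ^ k * ρ n := by
      rw [← map_pow, hk, ← map_mul, ← map_mul]
      congr 1
      group
    have h3 : (ρ s - 1) * ∑ c ∈ Finset.range k, ρ s ^ c = ρ s ^ k - 1 := mul_geom_sum _ _
    rw [h3, mul_sub, sub_mul, h2, mul_one, one_mul]
  have hcomm : Commute (ρ s - 1) (∑ c ∈ Finset.range k, ρ s ^ c) := by
    apply Commute.sum_right
    intro c _
    exact ((Commute.refl (ρ s)).sub_left (Commute.one_left _)).pow_right c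
  have h4 : ρ n * (ρ s - 1) ^ i =
      ((ρ s - 1) * ∑ c ∈ Finset.range k, ρ s ^ c) ^ i * ρ n := by
    induction i with
    | zero => simp
    | succ i ih => rw [pow_succ, ← mul_assoc, ih, mul_assoc, h1, ← mul_assoc, ← pow_succ]
  rw [hcomm.mul_pow] at h4
  refine ⟨((∑ c ∈ Finset.range k, ρ s ^ c) ^ i * ρ n) w, ?_⟩
  have h5 : ρ n (((ρ s - 1) ^ i) w) = (ρ n * (ρ s - 1) ^ i) w := rfl
  rw [h5, h4]
  rfl

/-- The explicit extension. -/
lemma core (ℓ : ℕ) [Fact ℓ.Prime] [CharP F ℓ] (ρ : Representation F N V)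
    (ρ' : Representation F N V') (σ : Representation F N W) (P : Subgroup N) [P.Normal]
    (s : N) (hs : Gn ℓ P s) (hidx : ¬ ℓ ∣ P.index) (hσP : ∀ p ∈ P, σ p = 1)
    (j : W →ₗ[F] V) (j' : W →ₗ[F] V') (hj : Eqv σ ρ j) (hj' : Eqv σ ρ' j') (m : ℕ)
    (h1 : ∀ w, j w ∈ LinearMap.range ((ρ s - 1) ^ (m + 1)) → w = 0)
    (h2 : ∀ w, j' w ∈ LinearMap.range ((ρ' s - 1) ^ m)) :
    ∃ f : V →ₗ[F] V', Eqv ρ ρ' f ∧ (∀ w, f (j w) = j' w) ∧
      ∀ (W2 : Type) [AddCommGroup W2] [Module F W2] (τ : Representation F N W2)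
        (k : W2 →ₗ[F] V), Eqv τ ρ k → (∀ p ∈ P, τ p = 1) →
        (∀ g : W2 →ₗ[F] W, Eqv τ σ g → g = 0) → ∀ w, f (k w) = 0 := by
  have hI : (P.index : F) ≠ 0 := by
    rw [Ne, CharP.cast_eq_zero_iff F ℓ]
    exact hidx
  set X : Module.End F V := ρ s - 1 with hX
  set X' : Module.End F V' := ρ' s - 1 with hX'
  -- the projection `θ`
  obtain ⟨θ, hθ1, hθ2⟩ : ∃ θ : V →ₗ[F] W, (∀ w, θ (j w) = w) ∧ ∀ v, θ ((X ^ (m + 1)) v) = 0 := by
    let S := LinearMap.range (X ^ (m + 1))
    have hinj : LinearMap.ker (S.mkQ ∘ₗ j) = ⊥ := by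
      rw [eq_bot_iff]
      intro w hw
      rw [LinearMap.mem_ker, LinearMap.comp_apply, Submodule.mkQ_apply,
        Submodule.Quotient.mk_eq_zero] at hw
      exact (Submodule.mem_bot F).2 (h1 w hw)
    obtain ⟨g, hg⟩ := (S.mkQ ∘ₗ j).exists_leftInverse_of_injective hinj
    refine ⟨g ∘ₗ S.mkQ, fun w => ?_, fun v => ?_⟩
    · exact congrArg (fun φ : W →ₗ[F] W => φ w) hg
    · have h3 : S.mkQ ((X ^ (m + 1)) v) = 0 := by
        rw [Submodule.mkQ_apply, Submodule.Quotient.mk_eq_zero]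
        exact ⟨v, rfl⟩
      rw [LinearMap.comp_apply, h3, map_zero]
  -- the lift `u`
  obtain ⟨u, hu⟩ : ∃ u : W →ₗ[F] V', ∀ w, (X' ^ m) (u w) = j' w := by
    obtain ⟨g, hg⟩ := (X' ^ m).rangeRestrict.exists_rightInverse_of_surjective
      (LinearMap.range_rangeRestrict _)
    refine ⟨g ∘ₗ j'.codRestrict _ h2, fun w => ?_⟩
    have h3 := congrArg (fun φ => ((φ (j'.codRestrict _ h2 w) :
      LinearMap.range (X' ^ m)) : V')) hg
    exact h3
  have hXj : ∀ w, X' (j' w) = 0 := by
    intro w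
    rw [hX', LinearMap.sub_apply, ← hj' s w, hσP s hs.mem]
    simp
  have hX0 : ∀ v, ρ s v = v → X v = 0 := by
    intro v hv
    rw [hX, LinearMap.sub_apply, hv]
    simp
  -- the map `f0`
  let f0 : V →ₗ[F] V' := ∑ i ∈ Finset.range (m + 1), (X' ^ i) ∘ₗ u ∘ₗ θ ∘ₗ (X ^ (m - i))
  have hf0 : ∀ v, f0 v = ∑ i ∈ Finset.range (m + 1), (X' ^ i) (u (θ ((X ^ (m - i)) v))) := by
    intro v
    simp only [f0, LinearMap.sum_apply, LinearMap.comp_apply]
  have hf0X : ∀ v, f0 (X v) = X' (f0 v) := by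
    intro v
    rw [hf0, hf0, map_sum]
    have ha : ∀ i ∈ Finset.range (m + 1), (X' ^ i) (u (θ ((X ^ (m - i)) (X v)))) =
        (X' ^ i) (u (θ ((X ^ (m + 1 - i)) v))) := by
      intro i hi
      rw [Finset.mem_range] at hi
      have : m + 1 - i = (m - i) + 1 := by omega
      rw [this, pow_succ]
      rfl
    have hb : ∀ i ∈ Finset.range (m + 1), X' ((X' ^ i) (u (θ ((X ^ (m - i)) v)))) =
        (X' ^ (i + 1)) (u (θ ((X ^ (m + 1 - (i + 1))) v))) := by
      intro i hi
      have : m + 1 - (i + 1) = m - i := by omega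
      rw [this, pow_succ']
      rfl
    rw [Finset.sum_congr rfl ha, Finset.sum_congr rfl hb]
    have hc := Finset.sum_range_succ (fun i => (X' ^ i) (u (θ ((X ^ (m + 1 - i)) v)))) (m + 1)
    have hd := Finset.sum_range_succ' (fun i => (X' ^ i) (u (θ ((X ^ (m + 1 - i)) v)))) (m + 1)
    rw [hc] at hd
    have he : (X' ^ (m + 1)) (u (θ ((X ^ (m + 1 - (m + 1))) v))) = 0 := by
      rw [pow_succ']
      change X' ((X' ^ m) (u _)) = 0
      rw [hu, hXj]
    have hg : (X' ^ 0) (u (θ ((X ^ (m + 1 - 0)) v))) = 0 := by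
      rw [Nat.sub_zero, hθ2, map_zero, map_zero]
    rw [he, hg, add_zero, add_zero] at hd
    exact hd
  have hf0s : ∀ v, f0 (ρ s v) = ρ' s (f0 v) := by
    intro v
    have h3 : ρ s v = X v + v := by rw [hX, LinearMap.sub_apply]; simp
    have h4 : ρ' s (f0 v) = X' (f0 v) + f0 v := by rw [hX', LinearMap.sub_apply]; simp
    rw [h3, h4, map_add, hf0X]
  have hf0P : ∀ p ∈ P, ∀ v, f0 (ρ p v) = ρ' p (f0 v) := by
    intro p hp
    obtain ⟨k, rfl⟩ := hs.gen p hp
    clear hp
    induction k with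
    | zero => intro v; rw [pow_zero, one_app, one_app]
    | succ k ih => intro v; rw [pow_succ, mul_app, mul_app, ih, hf0s]
  have hf0j : ∀ v, ρ s v = v → f0 v = j' (θ v) := by
    intro v hv
    have h3 := hX0 v hv
    rw [hf0, Finset.sum_range_succ, Finset.sum_eq_zero, zero_add, Nat.sub_self, pow_zero,
      Module.End.one_apply, hu]
    intro i hi
    rw [Finset.mem_range] at hi
    have : m - i = (m - i - 1) + 1 := by omega
    rw [this, pow_succ]
    change (X' ^ i) (u (θ ((X ^ (m - i - 1)) (X v)))) = 0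
    rw [h3, map_zero, map_zero, map_zero, map_zero]
  refine ⟨avg P ρ ρ' f0, avg_eqv P ρ ρ' f0 hf0P, ?_, ?_⟩
  · intro w
    refine avg_const P hI ρ ρ' f0 _ _ fun g => ?_
    rw [← hj, hf0j, hθ1, ← hj', ← mul_app, mul_inv_cancel, one_app]
    rw [← hj, hσP s hs.mem, Module.End.one_apply]
  · intro W2 _ _ τ k hk hτ hW2 w
    have hk0 : ∀ w, f0 (k w) = j' (θ (k w)) := by
      intro w
      apply hf0j
      rw [← hk, hτ s hs.mem, Module.End.one_apply]
    have hg := hW2 (avg P τ σ (θ ∘ₗ k)) (avg_eqv P τ σ (θ ∘ₗ k) fun p hp v => by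
      rw [hτ p hp, hσP p hp]; rfl)
    have h3 : avg P ρ ρ' f0 (k w) = j' (avg P τ σ (θ ∘ₗ k) w) := by
      classical
      unfold avg
      rw [LinearMap.smul_apply, LinearMap.smul_apply, LinearMap.sum_apply, LinearMap.sum_apply,
        map_smul, map_sum]
      congr 1
      refine Finset.sum_congr rfl fun q _ => ?_
      rw [cj_apply, cj_apply, ← hk, hk0, ← hj']
      rfl
    rw [h3, hg]
    simp

omit [Fintype N] in
/-- The first power whose range does not contain the image of `j`. -/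
lemma depth (ℓ : ℕ) (ρ : Representation F N V) (σ : Representation F N W) (P : Subgroup N)
    [P.Normal] (s : N) (hs : Gn ℓ P s) (hσ : σ.IsIrreducible) (j : W →ₗ[F] V) (hj : Eqv σ ρ j)
    (n : ℕ) (hn : ∃ w, j w ∉ LinearMap.range ((ρ s - 1) ^ n)) :
    ∃ m, (∀ w, j w ∈ LinearMap.range ((ρ s - 1) ^ m)) ∧
      ∀ w, j w ∈ LinearMap.range ((ρ s - 1) ^ (m + 1)) → w = 0 := by
  classical
  have hex : ∃ t, ∃ w, j w ∉ LinearMap.range ((ρ s - 1) ^ t) := ⟨n, hn⟩
  have h0 : Nat.find hex ≠ 0 := by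
    intro h0
    obtain ⟨w, hw⟩ := Nat.find_spec hex
    rw [h0, pow_zero] at hw
    exact hw ⟨j w, rfl⟩
  obtain ⟨m, hm⟩ := Nat.exists_eq_succ_of_ne_zero h0
  refine ⟨m, ?_, ?_⟩
  · have h1 := Nat.find_min hex (m := m) (by omega)
    push Not at h1
    exact h1
  · have h2 := Nat.find_spec hex
    rw [hm] at h2
    let a : Subrepresentation σ :=
      ⟨(LinearMap.range ((ρ s - 1) ^ (m + 1))).comap j, fun g v hv => by
        rw [Submodule.mem_comap] at hv ⊢
        rw [hj g v]
        exact range_stable ℓ P s hs ρ (m + 1) g _ hv⟩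
    rcases hσ.eq_bot_or_eq_top a with ha | ha
    · intro w hw
      have h3 : w ∈ a.toSubmodule := hw
      rw [ha] at h3
      exact (Submodule.mem_bot F).1 h3
    · exfalso
      obtain ⟨w, hw⟩ := h2
      have h3 : w ∈ a.toSubmodule := by rw [ha]; exact Submodule.mem_top
      exact hw h3

omit [Fintype N] in
lemma range_anti (A : Module.End F V) {a b : ℕ} (h : a ≤ b) :
    LinearMap.range (A ^ b) ≤ LinearMap.range (A ^ a) := by
  rintro _ ⟨v, rfl⟩
  refine ⟨(A ^ (b - a)) v, ?_⟩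
  have : A ^ b = A ^ a * A ^ (b - a) := by rw [← pow_add, Nat.add_sub_cancel' h]
  rw [this]
  rfl

end EXT

open _root_.Pool.Agent.DPB.EXT in
/-- EXT: extension of homomorphisms. -/
theorem EXT_thm (h1 : Stmt_PTR) : Stmt_EXT := by
  intro ℓ _ F N V V' W _ _ _ _ _ _ _ _ _ _ _ _ _ ρ ρ' σ P _ hP hidx hσ j j' hj hj' hw hw'
  obtain ⟨s, hs⟩ := exists_gn ℓ P hP
  have hσP : ∀ p ∈ P, σ p = 1 := h1 ℓ F N W σ P hP hσ
  rw [tN_eq ℓ P s hs ρ] at hw
  rw [tN_eq ℓ P s hs ρ'] at hw'
  obtain ⟨m, hm1, hm2⟩ := depth ℓ ρ σ P s hs hσ j hj _ hw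
  obtain ⟨m', hm1', hm2'⟩ := depth ℓ ρ' σ P s hs hσ j' hj' _ hw'
  rcases le_total m m' with h | h
  · left
    exact core ℓ ρ ρ' σ P s hs hidx hσP j j' hj hj' m hm2
      fun w => range_anti _ h (hm1' w)
  · right
    exact core ℓ ρ' ρ σ P s hs hidx hσP j' j hj' hj m' hm2'
      fun w => range_anti _ h (hm1 w)

end Pool.Agent.DPB


end

section

/-!
# Transfer of homomorphisms
-/

set_option autoImplicit false

namespace Pool.Agent.DPB

open Pool.Agent.Lib_helper13 Representation

namespace TRF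

/-- Sums over finite invariant sets with a free action. -/
theorem sum_mem_free {P X Y : Type} [Group P] [Fintype P] [MulAction P X] [AddCommMonoid Y]
    (R : AddSubmonoid Y) (F : X → Y) (hF : ∀ x, ∑ p : P, F (p • x) ∈ R) (n : ℕ) :
    ∀ S : Finset X, S.card ≤ n → (∀ (p : P) (x : X), x ∈ S → p • x ∈ S) →
      (∀ (p : P) (x : X), x ∈ S → p • x = x → p = 1) → ∑ x ∈ S, F x ∈ R := by
  classical
  induction n with
  | zero =>
    intro S hc _ _
    rw [Finset.card_eq_zero.1 (Nat.le_zero.1 hc), Finset.sum_empty]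
    exact R.zero_mem
  | succ n ih =>
    intro S hc hS hfree
    rcases S.eq_empty_or_nonempty with rfl | ⟨x, hx⟩
    · rw [Finset.sum_empty]
      exact R.zero_mem
    · have hOS : (Finset.univ.image (fun p : P => p • x)) ⊆ S := by
        intro y hy
        obtain ⟨p, -, rfl⟩ := Finset.mem_image.1 hy
        exact hS p x hx
      have hxO : x ∈ Finset.univ.image (fun p : P => p • x) :=
        Finset.mem_image.2 ⟨1, Finset.mem_univ _, one_smul _ _⟩
      have hsum : ∑ y ∈ Finset.univ.image (fun p : P => p • x), F y = ∑ p : P, F (p • x) := by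
        rw [Finset.sum_image]
        intro p _ q _ hpq
        have hpq' : p • x = q • x := hpq
        have h1 : (q⁻¹ * p) • x = x := by rw [mul_smul, hpq', inv_smul_smul]
        have h2 := hfree _ x hx h1
        exact (inv_mul_eq_one.1 h2).symm
      rw [← Finset.sum_sdiff hOS, hsum]
      refine R.add_mem (ih _ ?_ ?_ ?_) (hF x)
      · have : (S \ Finset.univ.image (fun p : P => p • x)).card < S.card :=
          Finset.card_lt_card (Finset.sdiff_ssubset hOS ⟨x, hxO⟩)
        omega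
      · intro p y hy
        rw [Finset.mem_sdiff] at hy ⊢
        refine ⟨hS p y hy.1, fun h => hy.2 ?_⟩
        obtain ⟨q, -, hq⟩ := Finset.mem_image.1 h
        have hq' : q • x = p • y := hq
        refine Finset.mem_image.2 ⟨p⁻¹ * q, Finset.mem_univ _, ?_⟩

        rw [mul_smul, hq', inv_smul_smul]
      · intro p y hy
        exact hfree p y (Finset.mem_sdiff.1 hy).1

/-- An element which conjugates a non-trivial element of `P` into the normalizer. -/
theorem mem_norm {ℓ : ℕ} [Fact ℓ.Prime] {T : Type} [Group T] [Finite T] (P : Subgroup T)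
    (hP : Nat.card P = ℓ) (hi : ¬ ℓ ∣ P.index) {p t : T} (hp : p ∈ P) (hp1 : p ≠ 1)
    (h : t⁻¹ * p * t ∈ Subgroup.normalizer (P : Set T)) :
    t ∈ Subgroup.normalizer (P : Set T) := by
  have hPG : IsPGroup ℓ P := IsPGroup.of_card (n := 1) (by rw [hP, pow_one])
  have hpl : p ^ ℓ = 1 := by
    have := pow_card_eq_one' (x := (⟨p, hp⟩ : P))
    rw [hP] at this
    exact congrArg Subtype.val this
  have hx : t⁻¹ * p * t ∈ P := by
    have hZ : IsPGroup ℓ (Subgroup.zpowers (t⁻¹ * p * t)) := by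
      rintro ⟨y, hy⟩
      obtain ⟨k, rfl⟩ := Subgroup.mem_zpowers_iff.1 hy
      refine ⟨1, Subtype.ext ?_⟩
      have h1 : (t⁻¹ * p * t) ^ ℓ = 1 := by
        have h2 : t⁻¹ * p * t = t⁻¹ * p * (t⁻¹)⁻¹ := by rw [inv_inv]
        rw [h2, conj_pow, hpl, mul_one, mul_inv_cancel]
      change ((t⁻¹ * p * t) ^ k) ^ (ℓ ^ 1) = 1
      rw [pow_one, ← zpow_natCast, ← zpow_mul, mul_comm, zpow_mul, zpow_natCast, h1, one_zpow]
    have h3 := hZ.inf_normalizer_sylow (hPG.toSylow hi)
    have h4 : t⁻¹ * p * t ∈ Subgroup.zpowers (t⁻¹ * p * t) ⊓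
        Subgroup.normalizer ((hPG.toSylow hi : Subgroup T) : Set T) :=
      ⟨Subgroup.mem_zpowers _, h⟩
    have h5 : t⁻¹ * p * t ∈ Subgroup.zpowers (t⁻¹ * p * t) ⊓ (hPG.toSylow hi : Subgroup T) := by
      rw [← h3]
      exact h4
    exact h5.2
  have h6 : t⁻¹ ∈ Subgroup.normalizer (P : Set T) := by
    apply Subgroup.mem_normalizer_fintype
    intro n hn
    have h7 : (⟨n, hn⟩ : P) ∈ Subgroup.zpowers (⟨p, hp⟩ : P) := by
      apply mem_zpowers_of_prime_card hP
      intro h8
      exact hp1 (congrArg Subtype.val h8)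
    obtain ⟨k, hk⟩ := Subgroup.mem_zpowers_iff.1 h7
    have h9 : n = p ^ k := by
      have := congrArg Subtype.val hk
      exact this.symm
    have h10 : t⁻¹ * n * t⁻¹⁻¹ = (t⁻¹ * p * t) ^ k := by
      have h2 : t⁻¹ * p * t = t⁻¹ * p * (t⁻¹)⁻¹ := by rw [inv_inv]
      rw [h2, conj_zpow, h9]
    rw [h10]
    exact P.zpow_mem hx k
  have := (Subgroup.normalizer (P : Set T)).inv_mem h6
  rwa [inv_inv] at this

section

variable {F T V V' : Type} [Field F] [Group T] [AddCommGroup V] [Module F V]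
  [AddCommGroup V'] [Module F V'] (ρ : Representation F T V) (ρ' : Representation F T V')
  (P : Subgroup T) (f : V →ₗ[F] V')

/-- The conjugate of a linear map. -/
def cj (t : T) : V →ₗ[F] V' := (ρ' t) ∘ₗ f ∘ₗ (ρ t⁻¹)

theorem cj_apply (t : T) (v : V) : cj ρ ρ' f t v = ρ' t (f (ρ t⁻¹ v)) := rfl

variable {ρ ρ' P f}

theorem cj_wd (hf : Eqv (rN P ρ) (rN P ρ') f) (a b : T)
    (h : a⁻¹ * b ∈ Subgroup.normalizer (P : Set T)) : cj ρ ρ' f a = cj ρ ρ' f b := by
  ext v
  rw [cj_apply, cj_apply]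
  have h1 := hf ⟨a⁻¹ * b, h⟩ (ρ b⁻¹ v)
  have h2 : (rN P ρ) ⟨a⁻¹ * b, h⟩ (ρ b⁻¹ v) = ρ a⁻¹ v := by
    change ρ (a⁻¹ * b) (ρ b⁻¹ v) = ρ a⁻¹ v
    rw [← Module.End.mul_apply, ← map_mul]
    congr 2
    group
  rw [h2] at h1
  rw [h1]
  change ρ' a (ρ' (a⁻¹ * b) (f (ρ b⁻¹ v))) = _
  rw [← Module.End.mul_apply, ← map_mul]
  congr 2
  group

/-- The conjugates as a function on the cosets. -/
def cjq (hf : Eqv (rN P ρ) (rN P ρ') f) (q : T ⧸ Subgroup.normalizer (P : Set T)) :
    V →ₗ[F] V' :=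
  Quotient.liftOn' q (cj ρ ρ' f) (fun a b h => cj_wd hf a b (QuotientGroup.leftRel_apply.1 h))

theorem cjq_mk (hf : Eqv (rN P ρ) (rN P ρ') f) (t : T) :
    cjq hf (t : T ⧸ Subgroup.normalizer (P : Set T)) = cj ρ ρ' f t := rfl

theorem cjq_smul (hf : Eqv (rN P ρ) (rN P ρ') f) (g : T)
    (q : T ⧸ Subgroup.normalizer (P : Set T)) (v : V) :
    cjq hf (g • q) (ρ g v) = ρ' g (cjq hf q v) := by
  induction q using QuotientGroup.induction_on with
  | H t =>
    have h1 : g • (t : T ⧸ Subgroup.normalizer (P : Set T)) =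
      ((g * t : T) : T ⧸ Subgroup.normalizer (P : Set T)) := rfl
    rw [h1, cjq_mk, cjq_mk, cj_apply, cj_apply]
    have h2 : ρ (g * t)⁻¹ (ρ g v) = ρ t⁻¹ v := by
      rw [← Module.End.mul_apply, ← map_mul]
      congr 2
      group
    rw [h2, map_mul, Module.End.mul_apply]

end

end TRF

open _root_.Pool.Agent.DPB.TRF in
theorem TRF_thm : Stmt_TRF := by
  intro ℓ _ F T V V' _ _ _ _ _ _ _ _ ρ ρ' P hP hi f hf
  classical
  have : Fintype (T ⧸ Subgroup.normalizer (P : Set T)) := Fintype.ofFinite _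
  refine ⟨∑ q : T ⧸ Subgroup.normalizer (P : Set T), cjq hf q, ?_, ?_⟩
  · intro g v
    rw [LinearMap.sum_apply, LinearMap.sum_apply, map_sum]
    rw [← Equiv.sum_comp (MulAction.toPerm g)]
    refine Finset.sum_congr rfl fun q _ => ?_
    exact cjq_smul hf g q v
  · intro v hv
    have h1 : (∑ q : T ⧸ Subgroup.normalizer (P : Set T), cjq hf q) v - f v =
        ∑ q ∈ Finset.univ.erase ((1 : T) : T ⧸ Subgroup.normalizer (P : Set T)),
          cjq hf q v := by
      rw [LinearMap.sum_apply, ← Finset.add_sum_erase _ _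
        (Finset.mem_univ ((1 : T) : T ⧸ Subgroup.normalizer (P : Set T))), cjq_mk, cj_apply]
      simp
    rw [h1]
    refine sum_mem_free (P := P) (LinearMap.range (tN P ρ')).toAddSubmonoid
      (fun q => cjq hf q v) ?_ _ _ le_rfl ?_ ?_
    · intro q
      refine ⟨cjq hf q v, ?_⟩
      unfold tN
      rw [LinearMap.sum_apply]
      have h2 : ∀ h : T, (if h ∈ P then ρ' h else 0) (cjq hf q v) =
          if h ∈ P then ρ' h (cjq hf q v) else 0 := by
        intro h
        split_ifs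
        · rfl
        · rfl
      rw [Finset.sum_congr rfl fun h _ => h2 h, ← Finset.sum_filter]
      rw [Finset.sum_subtype (Finset.univ.filter fun h => h ∈ P) (p := fun h => h ∈ P)
        (by intro x; simp)]
      refine Finset.sum_congr rfl fun p _ => ?_
      have h3 := cjq_smul hf (p : T) q v
      rw [hv p p.2] at h3
      exact h3.symm
    · intro p q hq
      rw [Finset.mem_erase] at hq ⊢
      refine ⟨fun h => hq.1 ?_, Finset.mem_univ _⟩
      have h4 : q = p⁻¹ • (((1 : T) : T ⧸ Subgroup.normalizer (P : Set T))) := by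
        rw [← h, inv_smul_smul]
      rw [h4]
      have h5 : p⁻¹ • (((1 : T) : T ⧸ Subgroup.normalizer (P : Set T))) =
        (((p : T)⁻¹ * 1 : T) : T ⧸ Subgroup.normalizer (P : Set T)) := rfl
      rw [h5, QuotientGroup.eq]
      apply Subgroup.le_normalizer
      simp
    · intro p q hq hpq
      by_contra hp1
      rw [Finset.mem_erase] at hq
      apply hq.1
      induction q using QuotientGroup.induction_on with
      | H t =>
        have h6 : (((p : T) * t : T) : T ⧸ Subgroup.normalizer (P : Set T)) =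
          (t : T ⧸ Subgroup.normalizer (P : Set T)) := hpq
        have h7 : t⁻¹ * (p : T) * t ∈ Subgroup.normalizer (P : Set T) := by
          have h8 := QuotientGroup.eq.1 h6.symm
          rwa [← mul_assoc] at h8
        have h9 := mem_norm P hP hi p.2 (fun h => hp1 (Subtype.ext h)) h7
        rw [QuotientGroup.eq]
        rw [mul_one]
        exact inv_mem h9

end Pool.Agent.DPB


end

section

/-!
# KC: an irreducible representation of the normalizer occurs in at most one irreducible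
representation
-/

namespace Pool.Agent.DPB

open Pool.Agent.Lib_helper13 Representation

namespace KC

variable {F T V V' W : Type} [Field F] [Group T] [AddCommGroup V] [Module F V]
  [AddCommGroup V'] [Module F V'] [AddCommGroup W] [Module F W]

/-- A nonzero map between irreducible representations. -/
theorem char_eq [Module.Finite F V] [Module.Finite F V'] (ρ : Representation F T V)
    (ρ' : Representation F T V') (hρ : ρ.IsIrreducible) (hρ' : ρ'.IsIrreducible)
    (f : V →ₗ[F] V') (hf : Eqv ρ ρ' f) (h0 : f ≠ 0) : ρ.character = ρ'.character := by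
  haveI := hρ
  haveI := hρ'
  set g : IntertwiningMap ρ ρ' := LinearMap.intertwiningMap_of_isIntertwiningMap ρ ρ' f hf with hg
  rcases IsIrreducible.bijective_or_eq_zero g with h | h
  · exact char_iso (g.ofBijective h)
  · exfalso
    apply h0
    have := congrArg IntertwiningMap.toLinearMap h
    exact this

/-- The trace over `P` in the normalizer. -/
theorem tN_eq [Fintype T] (P : Subgroup T) [Fintype (NP P)] (ρ : Representation F T V) :
    tN (P.subgroupOf (Subgroup.normalizer (P : Set T))) (rN P ρ) = tN P ρ := by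
  classical
  unfold tN
  refine Fintype.sum_of_injective (Subtype.val : NP P → T) Subtype.val_injective _ _ ?_ ?_
  · intro i hi
    rw [if_neg]
    intro hP
    exact hi ⟨⟨i, Subgroup.le_normalizer hP⟩, rfl⟩
  · intro k
    simp only [Subgroup.mem_subgroupOf]
    rfl

/-- From a map over the normalizer to equality of the trace functions. -/
theorem core (ℓ : ℕ) [Fact ℓ.Prime] [CharP F ℓ] [Fintype T] [Module.Finite F V]
    [Module.Finite F V'] (h2 : Stmt_TRF) (P : Subgroup T) (ρ : Representation F T V)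
    (ρ' : Representation F T V') (hP : Nat.card P = ℓ) (hi : ¬ ℓ ∣ P.index)
    (hρ : ρ.IsIrreducible) (hρ' : ρ'.IsIrreducible) (j : W →ₗ[F] V) (j' : W →ₗ[F] V')
    (hfix : ∀ w, ∀ p ∈ P, ρ p (j w) = j w) (hj' : ∃ w, j' w ∉ LinearMap.range (tN P ρ'))
    (f : V →ₗ[F] V') (hf : Eqv (rN P ρ) (rN P ρ') f) (hfj : ∀ w, f (j w) = j' w) :
    ρ.character = ρ'.character := by
  obtain ⟨f', hf', hd⟩ := h2 ℓ F T V V' ρ ρ' P hP hi f hf
  apply char_eq ρ ρ' hρ hρ' f' hf'
  intro h0
  obtain ⟨w, hw⟩ := hj'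
  apply hw
  have h1 := hd (j w) (hfix w)
  rw [h0, LinearMap.zero_apply, hfj, zero_sub] at h1
  have := Submodule.neg_mem _ h1
  rwa [neg_neg] at this

end KC

open _root_.Pool.Agent.DPB.KC in
/-- KC: an irreducible representation of the normalizer occurs in at most one irreducible
representation. -/
theorem KC_thm (h1 : Stmt_EXT) (h2 : Stmt_TRF) (h3 : Stmt_PTR) : Stmt_KC := by
  intro ℓ _ F T V V' W _ _ _ _ _ _ _ _ _ _ _ _ _ _ P ρ ρ' σ hP hi hρ hρ' hσ hE hE'
  classical
  have hft : Fintype (NP P) := Fintype.ofFinite _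
  obtain ⟨j, hj, hjr⟩ := hE
  obtain ⟨j', hj', hjr'⟩ := hE'
  set PN := P.subgroupOf (Subgroup.normalizer (P : Set T)) with hPN
  have hle : P ≤ Subgroup.normalizer (P : Set T) := Subgroup.le_normalizer
  have hPNn : PN.Normal := Subgroup.normal_in_normalizer
  have hcard : Nat.card PN = ℓ := by
    rw [← hP]
    exact Nat.card_congr (Subgroup.subgroupOfEquivOfLe hle).toEquiv
  have hidx : ¬ ℓ ∣ PN.index := by
    intro hd
    apply hi
    have e : P.relIndex (Subgroup.normalizer (P : Set T)) * (Subgroup.normalizer (P : Set T)).index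
        = P.index := Subgroup.relIndex_mul_index hle
    rw [← e]
    exact Dvd.dvd.mul_right hd _
  have htriv := h3 ℓ F (NP P) W σ PN hcard hσ
  have hfix : ∀ w, ∀ p ∈ P, ρ p (j w) = j w := by
    intro w p hp
    have h := hj ⟨p, hle hp⟩ w
    rw [htriv ⟨p, hle hp⟩ hp] at h
    exact h.symm
  have hfix' : ∀ w, ∀ p ∈ P, ρ' p (j' w) = j' w := by
    intro w p hp
    have h := hj' ⟨p, hle hp⟩ w
    rw [htriv ⟨p, hle hp⟩ hp] at h
    exact h.symm
  rcases h1 ℓ F (NP P) V V' W (rN P ρ) (rN P ρ') σ PN hcard hidx hσ j j' hj hj'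
    (by rw [hPN, tN_eq]; exact hjr) (by rw [hPN, tN_eq]; exact hjr') with h | h
  · obtain ⟨f, hf, hfj, -⟩ := h
    exact core ℓ h2 P ρ ρ' hP hi hρ hρ' j j' hfix hjr' f hf hfj
  · obtain ⟨f, hf, hfj, -⟩ := h
    exact (core ℓ h2 P ρ' ρ hP hi hρ' hρ j' j hfix' hjr f hf hfj).symm

end Pool.Agent.DPB


end

section

/-!
# Irreducible representations of the normalizer in the fixed vectors modulo traces
-/

namespace Pool.Agent.DPB

open Pool.Agent.Lib_helper13 Representation

namespace KD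

variable {F : Type} [Field F]

/-- The restriction of a representation to a stable subspace, in coordinates, is irreducible if
the subspace is minimal. -/
theorem irr_of_minimal {N V : Type} [Group N] [AddCommGroup V] [Module F V]
    [Module.Finite F V] (ρ : Representation F N V) (Y : Submodule F V) (hY : Y ≠ ⊥)
    (hYs : ∀ n, ∀ v ∈ Y, ρ n v ∈ Y)
    (hmin : ∀ Z : Submodule F V, Z ≤ Y → Z ≠ ⊥ → (∀ n, ∀ v ∈ Z, ρ n v ∈ Z) → Z = Y) :
    ∃ (m : ℕ) (σ : Representation F N (Fin m → F)) (j : (Fin m → F) →ₗ[F] V),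
      σ.IsIrreducible ∧ (∀ n w, j (σ n w) = ρ n (j w)) ∧ (∀ w, j w ∈ Y) ∧
        Function.Injective j := by
  obtain ⟨m, ⟨e⟩⟩ : ∃ m : ℕ, Nonempty (↥Y ≃ₗ[F] (Fin m → F)) :=
    ⟨_, ⟨(Module.finBasis F ↥Y).equivFun⟩⟩
  let j : (Fin m → F) →ₗ[F] V := Y.subtype ∘ₗ e.symm.toLinearMap
  have hj : ∀ w, j w = ((e.symm w : ↥Y) : V) := fun w => rfl
  have hjinj : Function.Injective j := by
    intro a b hab
    exact e.symm.injective (Subtype.ext hab)
  let s : N → (Fin m → F) →ₗ[F] (Fin m → F) :=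
    fun n => e.toLinearMap ∘ₗ ((ρ n).restrict (hYs n)) ∘ₗ e.symm.toLinearMap
  have hs : ∀ n w, j (s n w) = ρ n (j w) := by
    intro n w
    simp [hj, s]
  let σ : Representation F N (Fin m → F) :=
    { toFun := s
      map_one' := by
        ext1
        apply LinearMap.ext
        intro w
        apply hjinj
        simp [hs]
      map_mul' := by
        intro a b
        apply LinearMap.ext
        intro w
        apply hjinj
        simp [hs] }
  have hσ : ∀ n w, j (σ n w) = ρ n (j w) := hs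
  refine ⟨_, σ, j, ?_, hσ, fun w => (e.symm w).2, hjinj⟩
  have hrange : LinearMap.range j = Y := by
    ext v
    constructor
    · rintro ⟨w, rfl⟩
      exact (e.symm w).2
    · intro hv
      exact ⟨e ⟨v, hv⟩, by simp [hj]⟩
  have hnt : Nontrivial (Subrepresentation σ) := by
    refine ⟨⟨⊥, ⊤, fun h => hY ?_⟩⟩
    have h1 : (⊥ : Submodule F (Fin m → F)) = ⊤ :=
      congrArg Subrepresentation.toSubmodule h
    rw [← hrange, LinearMap.range_eq_map, ← h1, Submodule.map_bot]
  refine { exists_pair_ne := hnt.exists_pair_ne, eq_bot_or_eq_top := fun τ => ?_ }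
  by_cases hb : τ.toSubmodule = ⊥
  · left
    exact Subrepresentation.toSubmodule_injective hb
  · right
    apply Subrepresentation.toSubmodule_injective
    have h1 : (τ.toSubmodule).map j = Y := by
      apply hmin
      · rintro v ⟨w, -, rfl⟩
        exact (e.symm w).2
      · intro h
        apply hb
        exact Submodule.map_injective_of_injective hjinj (h.trans (Submodule.map_bot j).symm)
      · rintro n v ⟨w, hw, rfl⟩
        exact ⟨σ n w, τ.apply_mem_toSubmodule n hw, hσ n w⟩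
    exact Submodule.map_injective_of_injective hjinj
      (h1.trans (hrange.symm.trans (LinearMap.range_eq_map j)))

/-- A stable subspace which is not zero contains an irreducible one. -/
theorem exists_irr {N V : Type} [Group N] [AddCommGroup V] [Module F V]
    [Module.Finite F V] (ρ : Representation F N V) :
    ∀ (d : ℕ) (Y : Submodule F V), Module.finrank F ↥Y ≤ d → Y ≠ ⊥ →
      (∀ n, ∀ v ∈ Y, ρ n v ∈ Y) →
      ∃ (m : ℕ) (σ : Representation F N (Fin m → F)) (j : (Fin m → F) →ₗ[F] V),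
        σ.IsIrreducible ∧ (∀ n w, j (σ n w) = ρ n (j w)) ∧ (∀ w, j w ∈ Y) ∧
          Function.Injective j := by
  intro d
  induction d with
  | zero =>
    intro Y hd hY _
    exact absurd (Submodule.finrank_eq_zero.1 (Nat.le_zero.1 hd)) hY
  | succ d ih =>
    intro Y hd hY hYs
    by_cases hmin : ∀ Z : Submodule F V, Z ≤ Y → Z ≠ ⊥ → (∀ n, ∀ v ∈ Z, ρ n v ∈ Z) → Z = Y
    · exact irr_of_minimal ρ Y hY hYs hmin
    · push Not at hmin
      obtain ⟨Z, hZY, hZ, hZs, hne⟩ := hmin
      have hlt : Module.finrank F ↥Z < Module.finrank F ↥Y :=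
        Submodule.finrank_lt_finrank_of_lt (lt_of_le_of_ne hZY hne)
      obtain ⟨m, σ, j, h1, h2, h3, h4⟩ := ih Z (by omega) hZ hZs
      exact ⟨m, σ, j, h1, h2, fun w => hZY (h3 w), h4⟩

/-- Maschke: a subspace stable under a group on which a normal subgroup of index prime to the
characteristic acts trivially has a stable complement. -/
theorem exists_compl {ℓ : ℕ} [CharP F ℓ] {N W : Type} [Group N] [Finite N]
    [AddCommGroup W] [Module F W] (τ : Representation F N W) (P : Subgroup N) [P.Normal]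
    (hP : ¬ ℓ ∣ P.index) (htriv : ∀ p ∈ P, τ p = 1) (R : Submodule F W)
    (hR : ∀ n, ∀ v ∈ R, τ n v ∈ R) :
    ∃ Y : Submodule F W, IsCompl R Y ∧ ∀ n, ∀ v ∈ Y, τ n v ∈ Y := by
  let τ' : Representation F (N ⧸ P) W := QuotientGroup.lift P τ htriv
  have hτ' : ∀ n : N, τ' (n : N ⧸ P) = τ n := fun n => rfl
  have : NeZero (Nat.card (N ⧸ P) : F) := by
    refine ⟨fun h => hP ?_⟩
    exact (CharP.cast_eq_zero_iff F ℓ _).1 h
  let R' : Subrepresentation τ' :=
    { toSubmodule := R
      apply_mem_toSubmodule := by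
        intro g v hv
        induction g using QuotientGroup.induction_on with
        | H n => exact hR n v hv }
  obtain ⟨Y, hY⟩ := exists_isCompl R'
  refine ⟨Y.toSubmodule, ⟨?_, ?_⟩, fun n v hv => Y.apply_mem_toSubmodule (n : N ⧸ P) hv⟩
  · rw [disjoint_iff]
    exact congrArg Subrepresentation.toSubmodule (disjoint_iff.1 hY.1)
  · rw [codisjoint_iff]
    exact congrArg Subrepresentation.toSubmodule (codisjoint_iff.1 hY.2)

end KD

open _root_.Pool.Agent.DPB.KD in
theorem KD_thm : Stmt_KD := by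
  classical
  intro ℓ _ F T V _ _ _ _ _ _ _ P ρ hcard hind hnp
  -- the fixed vectors
  let X : Submodule F V :=
    { carrier := {v | ∀ p ∈ P, ρ p v = v}
      zero_mem' := fun p _ => map_zero _
      add_mem' := by
        intro a b ha hb p hp
        rw [map_add, ha p hp, hb p hp]
      smul_mem' := by
        intro c a ha p hp
        rw [map_smul, ha p hp] }
  have hX : ∀ v, v ∈ X ↔ ∀ p ∈ P, ρ p v = v := fun v => Iff.rfl
  have htN : ∀ v, tN P ρ v = ∑ h : T, if h ∈ P then ρ h v else 0 := by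
    intro v
    rw [tN, LinearMap.sum_apply]
    refine Finset.sum_congr rfl fun h _ => ?_
    split_ifs <;> simp
  have hRX : LinearMap.range (tN P ρ) ≤ X := by
    rintro _ ⟨v, rfl⟩
    rw [hX]
    intro p hp
    rw [htN, map_sum]
    refine Fintype.sum_equiv (Equiv.mulLeft p) _ _ fun h => ?_
    have hiff : p * h ∈ P ↔ h ∈ P := P.mul_mem_cancel_left hp
    simp only [Equiv.coe_mulLeft, hiff]
    split_ifs
    · rw [map_mul]; rfl
    · simp
  have hXs : ∀ n : NP P, ∀ v ∈ X, ρ (n : T) v ∈ X := by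
    intro n v hv
    rw [hX] at hv ⊢
    intro p hp
    have h1 : (n : T)⁻¹ * p * (n : T) ∈ P := by
      have := (Subgroup.mem_normalizer_iff.1 (inv_mem n.2) p).1 hp
      simpa using this
    have h2 := hv _ h1
    calc ρ p (ρ (n : T) v) = ρ (n : T) (ρ ((n : T)⁻¹ * p * (n : T)) v) := by
          rw [← Module.End.mul_apply, ← Module.End.mul_apply, ← map_mul, ← map_mul]
          congr 2
          group
      _ = ρ (n : T) v := by rw [h2]
  have hRs : ∀ n : NP P, ∀ v ∈ LinearMap.range (tN P ρ),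
      ρ (n : T) v ∈ LinearMap.range (tN P ρ) := by
    rintro n _ ⟨v, rfl⟩
    refine ⟨ρ (n : T) v, ?_⟩
    rw [htN, htN, map_sum]
    refine (Fintype.sum_equiv (MulAut.conj (n : T)).toEquiv _ _ fun h => ?_).symm
    have hiff : (n : T) * h * (n : T)⁻¹ ∈ P ↔ h ∈ P :=
      (Subgroup.mem_normalizer_iff.1 n.2 h).symm
    simp only [MulEquiv.toEquiv_eq_coe, EquivLike.coe_coe, MulAut.conj_apply, hiff]
    split_ifs
    · rw [← Module.End.mul_apply, ← Module.End.mul_apply, ← map_mul, ← map_mul]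
      congr 2
      group
    · simp
  -- the representation on the fixed vectors
  let τ : Representation F (NP P) ↥X :=
    { toFun := fun n => (ρ (n : T)).restrict (hXs n)
      map_one' := by
        ext v
        simp
      map_mul' := by
        intro a b
        ext v
        simp }
  have hτ : ∀ n v, ((τ n v : ↥X) : V) = ρ (n : T) (v : V) := fun n v => rfl
  obtain ⟨Y, hY, hYs⟩ := exists_compl (ℓ := ℓ) τ (P.subgroupOf (Subgroup.normalizer (P : Set T)))
    (by
      intro h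
      apply hind
      have h1 : P.relIndex (Subgroup.normalizer (P : Set T)) *
        (Subgroup.normalizer (P : Set T)).index = P.index :=
        Subgroup.relIndex_mul_index Subgroup.le_normalizer
      rw [← h1]
      exact Dvd.dvd.mul_right h _)
    (by
      intro p hp
      apply LinearMap.ext
      intro v
      apply Subtype.ext
      rw [hτ]
      exact (hX _).1 v.2 _ (Subgroup.mem_subgroupOf.1 hp))
    ((LinearMap.range (tN P ρ)).comap X.subtype)
    (by
      intro n v hv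
      exact hRs n _ hv)
  obtain ⟨v₀, hv₀, hv₀'⟩ := hnp
  have hYne : Y ≠ ⊥ := by
    intro h
    rw [h] at hY
    have h1 : (LinearMap.range (tN P ρ)).comap X.subtype = ⊤ := by
      have := hY.sup_eq_top
      simpa using this
    have h2 : (⟨v₀, hv₀⟩ : ↥X) ∈ (LinearMap.range (tN P ρ)).comap X.subtype := by
      rw [h1]; trivial
    exact hv₀' h2
  obtain ⟨m, σ, j, hirr, hj, hjY, hinj⟩ := exists_irr τ _ Y le_rfl hYne hYs
  refine ⟨m, σ, hirr, X.subtype ∘ₗ j, ?_, ?_⟩
  · intro n w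
    simp only [LinearMap.comp_apply, hj]
    rfl
  · -- a nonzero vector
    have hnt : ∃ w : Fin m → F, w ≠ 0 := by
      by_contra hcon
      push Not at hcon
      obtain ⟨a, b, hab⟩ := hirr.exists_pair_ne
      apply hab
      apply Subrepresentation.toSubmodule_injective
      ext w
      rw [hcon w]
      simp
    obtain ⟨w, hw⟩ := hnt
    refine ⟨w, fun h => hw ?_⟩
    have h1 : j w ∈ (LinearMap.range (tN P ρ)).comap X.subtype ⊓ Y := ⟨h, hjY w⟩
    rw [hY.inf_eq_bot] at h1
    apply hinj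
    rw [map_zero]
    exact h1

end Pool.Agent.DPB


end

section

/-!
# KE: the central characters correspond
-/

namespace Pool.Agent.DPB

open Pool.Agent.Lib_helper13 Representation

namespace KE

/-- A sum over a finite set with a group action lies in a subgroup if the sums over the orbits
do. -/
theorem orbit_sum {Q X M : Type} [Group Q] [Fintype Q] [MulAction Q X] [Fintype X]
    [AddCommGroup M] (R : AddSubgroup M) (f : X → M)
    (h : ∀ x, (∀ q : Q, f (q • x) = 0) ∨
      ((∀ q : Q, q • x = x → q = 1) ∧ ∑ q : Q, f (q • x) ∈ R)) : ∑ x, f x ∈ R := by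
  classical
  have : Fintype (MulAction.orbitRel.Quotient Q X) := Fintype.ofFinite _
  rw [← Finset.sum_fiberwise (s := Finset.univ)
    (g := fun x => (Quotient.mk'' x : MulAction.orbitRel.Quotient Q X))]
  refine AddSubgroup.sum_mem _ fun c _ => ?_
  induction c using Quotient.inductionOn' with
  | h x =>
    have hmem : ∀ y : X, (Quotient.mk'' y : MulAction.orbitRel.Quotient Q X) = Quotient.mk'' x ↔
        ∃ q : Q, q • x = y := by
      intro y
      rw [Quotient.eq'', MulAction.orbitRel_apply, MulAction.mem_orbit_iff]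
    rcases h x with h0 | ⟨hfree, hR⟩
    · have : ∑ y ∈ Finset.univ.filter
          (fun y => (Quotient.mk'' y : MulAction.orbitRel.Quotient Q X) = Quotient.mk'' x),
          f y = 0 := by
        refine Finset.sum_eq_zero fun y hy => ?_
        rw [Finset.mem_filter, hmem] at hy
        obtain ⟨q, rfl⟩ := hy.2
        exact h0 q
      rw [this]
      exact R.zero_mem
    · have : ∑ q : Q, f (q • x) = ∑ y ∈ Finset.univ.filter
          (fun y => (Quotient.mk'' y : MulAction.orbitRel.Quotient Q X) = Quotient.mk'' x),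
          f y := by
        refine Finset.sum_bij (fun q _ => q • x) ?_ ?_ ?_ ?_
        · intro q _
          rw [Finset.mem_filter, hmem]
          exact ⟨Finset.mem_univ _, q, rfl⟩
        · intro q _ q' _ hqq
          have h1 : (q'⁻¹ * q) • x = x := by
            rw [mul_smul]
            have h2 : q • x = q' • x := hqq
            rw [h2, inv_smul_smul]
          have h3 := hfree _ h1
          exact (inv_mul_eq_one.mp h3).symm
        · intro y hy
          rw [Finset.mem_filter, hmem] at hy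
          obtain ⟨q, hq⟩ := hy.2
          exact ⟨q, Finset.mem_univ _, hq⟩
        · intro q _
          rfl
      rw [← this]
      exact hR

variable {F T V W : Type} [Field F] [Group T] [Fintype T] [AddCommGroup V] [Module F V]
  [AddCommGroup W] [Module F W]

theorem Zop_apply {H : Type} [Group H] [Fintype H] (ρ : Representation F H V) (z : H → F)
    (v : V) : Zop ρ z v = ∑ h, z h • ρ h v := by
  unfold Zop
  rw [LinearMap.sum_apply]
  rfl

open Classical in
theorem tN_apply (P : Subgroup T) (ρ : Representation F T V) (v : V) :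
    tN P ρ v = ∑ p : P, ρ (p : T) v := by
  unfold tN
  rw [LinearMap.sum_apply]
  symm
  refine Fintype.sum_of_injective (fun p : P => (p : T)) Subtype.val_injective _ _ ?_ ?_
  · intro h hh
    have : h ∉ P := fun hP => hh ⟨⟨h, hP⟩, rfl⟩
    rw [if_neg this, LinearMap.zero_apply]
  · intro p
    rw [if_pos p.2]

/-- The conjugation action of a subgroup. -/
@[reducible] def conjAct (P : Subgroup T) : MulAction P T where
  smul p h := (p : T) * h * (p : T)⁻¹
  one_smul h := by
    show ((1 : P) : T) * h * ((1 : P) : T)⁻¹ = h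
    simp
  mul_smul p q h := by
    show ((p * q : P) : T) * h * ((p * q : P) : T)⁻¹ = (p : T) * ((q : T) * h * (q : T)⁻¹) * (p : T)⁻¹
    rw [Subgroup.coe_mul]
    group

end KE

open _root_.Pool.Agent.DPB.KE in
theorem KE_thm : Stmt_KE := by
  intro ℓ _ F T V W _ _ _ _ _ _ _ _ P _ ρ σ hP hσ hE z hz μ μ' h1 h2
  classical
  obtain ⟨j, hj, w, hw⟩ := hE
  by_contra hne
  -- `j w` is fixed by `P`
  have hfix : ∀ p ∈ P, ρ p (j w) = j w := by
    intro p hp
    have hpN : p ∈ Subgroup.normalizer (P : Set T) := Subgroup.le_normalizer hp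
    have h3 := hj ⟨p, hpN⟩ w
    rw [hσ ⟨p, hpN⟩ hp] at h3
    exact h3.symm
  have hμ : μ • j w = ∑ h, z h • ρ h (j w) := by
    rw [← Zop_apply, h1]
    rfl
  have hμ' : μ' • j w = ∑ h, (if h ∈ Subgroup.centralizer (P : Set T) then z h • ρ h (j w)
      else 0) := by
    have h3 : μ' • j w = j (Zop σ (brz P z) w) := by
      rw [h2]
      show μ' • j w = j (μ' • w)
      rw [map_smul]
    rw [h3, Zop_apply, map_sum]
    refine Fintype.sum_of_injective (fun n : NP P => (n : T)) Subtype.val_injective _ _ ?_ ?_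
    · intro h hh
      rw [if_neg]
      intro hC
      apply hh
      have hN : h ∈ Subgroup.normalizer (P : Set T) := Subgroup.centralizer_le_normalizer (P : Set T) hC
      exact ⟨⟨h, hN⟩, rfl⟩
    · intro n
      rw [map_smul, hj]
      unfold brz
      split_ifs
      · rfl
      · rw [zero_smul]
  have key : μ • j w - μ' • j w ∈ (LinearMap.range (tN P ρ)).toAddSubgroup := by
    rw [hμ, hμ', ← Finset.sum_sub_distrib]
    let _ := conjAct P
    have hsm : ∀ (p : P) (h : T), p • h = (p : T) * h * (p : T)⁻¹ := fun _ _ => rfl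
    refine orbit_sum (Q := P) _ _ fun h => ?_
    by_cases hC : h ∈ Subgroup.centralizer (P : Set T)
    · left
      intro p
      have h3 : p • h = h := by
        rw [hsm, Subgroup.mem_centralizer_iff.mp hC p p.2, mul_inv_cancel_right]
      rw [h3, if_pos hC, sub_self]
    · right
      refine ⟨?_, ?_⟩
      · intro p hp
        by_contra hp1
        apply hC
        rw [Subgroup.mem_centralizer_iff]
        intro q hq
        have h3 : (⟨q, hq⟩ : P) ∈ Subgroup.zpowers p := mem_zpowers_of_prime_card hP hp1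
        obtain ⟨k, hk⟩ := Subgroup.mem_zpowers_iff.mp h3
        have h4 : Commute (p : T) h := by
          rw [hsm] at hp
          exact mul_inv_eq_iff_eq_mul.mp hp
        have h5 : ((p : T) ^ k) = q := by
          have := congrArg Subtype.val hk
          simpa using this
        rw [← h5]
        exact (h4.zpow_left k).eq
      · have hn : ∀ p : P, p • h ∉ Subgroup.centralizer (P : Set T) := by
          intro p hp
          apply hC
          have h3 : (p : T)⁻¹ * (p • h) * (p : T) = h := by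
            rw [hsm]
            group
          rw [Subgroup.mem_centralizer_iff]
          intro q hq
          have h6 := Subgroup.mem_centralizer_iff.mp hp ((p : T) * q * (p : T)⁻¹)
            (P.mul_mem (P.mul_mem p.2 hq) (P.inv_mem p.2))
          rw [← h3]
          calc q * ((p : T)⁻¹ * (p • h) * (p : T))
              = (p : T)⁻¹ * (((p : T) * q * (p : T)⁻¹) * (p • h)) * (p : T) := by group
            _ = (p : T)⁻¹ * ((p • h) * ((p : T) * q * (p : T)⁻¹)) * (p : T) := by rw [h6]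
            _ = (p : T)⁻¹ * (p • h) * (p : T) * q := by group
        have hs : ∑ p : P, (z (p • h) • ρ (p • h) (j w) -
            if p • h ∈ Subgroup.centralizer (P : Set T) then z (p • h) • ρ (p • h) (j w) else 0) =
            tN P ρ (z h • ρ h (j w)) := by
          rw [tN_apply]
          refine Finset.sum_congr rfl fun p _ => ?_
          rw [if_neg (hn p), sub_zero]
          have e1 : z (p • h) = z h := hz (p : T) h
          have e2 : ρ (p • h) (j w) = ρ (p : T) (ρ h (j w)) := by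
            rw [hsm, map_mul, map_mul]
            show ρ (p : T) (ρ h (ρ (p : T)⁻¹ (j w))) = _
            rw [hfix _ (P.inv_mem p.2)]
          rw [e1, e2, map_smul]
        rw [hs]
        exact ⟨_, rfl⟩
  apply hw
  have hsub : μ - μ' ≠ 0 := sub_ne_zero.mpr hne
  have h3 : j w = (μ - μ')⁻¹ • (μ • j w - μ' • j w) := by
    rw [← sub_smul, smul_smul, inv_mul_cancel₀ hsub, one_smul]
  rw [h3]
  exact Submodule.smul_mem _ _ key

end Pool.Agent.DPB


end

section

/-!
# LEQ: the simple modules which are not projective and the simple modules of the normalizer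
-/

namespace Pool.Agent.DPB

open Pool.Agent.Lib_helper13 Representation

namespace LEQ

variable {F T V V' W W' : Type} [Field F] [Group T] [AddCommGroup V] [Module F V]
  [AddCommGroup V'] [Module F V'] [AddCommGroup W] [Module F W] [AddCommGroup W'] [Module F W']

/-- The trace over `P` commutes with equivariant maps. -/
theorem tN_map [Fintype T] (P : Subgroup T) (ρ : Representation F T V)
    (ρ' : Representation F T V') (e : V →ₗ[F] V') (he : ∀ g v, e (ρ g v) = ρ' g (e v)) (v : V) :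
    e (tN P ρ v) = tN P ρ' (e v) := by
  classical
  unfold tN
  rw [LinearMap.sum_apply, LinearMap.sum_apply, map_sum]
  refine Finset.sum_congr rfl fun h _ => ?_
  split_ifs
  · exact he h v
  · simp

/-- Change of the large representation. -/
theorem emb_left [Fintype T] (P : Subgroup T) (ρ : Representation F T V)
    (ρ' : Representation F T V') (σ : Representation F (NP P) W) (e : V ≃ₗ[F] V')
    (he : ∀ g v, e (ρ g v) = ρ' g (e v)) (h : Emb P ρ σ) : Emb P ρ' σ := by
  obtain ⟨j, hj, w, hw⟩ := h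
  refine ⟨e.toLinearMap ∘ₗ j, fun n u => ?_, w, ?_⟩
  · show e (j (σ n u)) = ρ' n (e (j u))
    rw [hj, he]
  · rintro ⟨v, hv⟩
    apply hw
    refine ⟨e.symm v, ?_⟩
    apply e.injective
    have h1 := tN_map P ρ ρ' e.toLinearMap he (e.symm v)
    simp only [LinearEquiv.coe_coe, LinearEquiv.apply_symm_apply] at h1
    rw [h1, hv]
    rfl

/-- Change of the small representation. -/
theorem emb_right [Fintype T] (P : Subgroup T) (ρ : Representation F T V)
    (σ : Representation F (NP P) W) (σ' : Representation F (NP P) W') (e : W ≃ₗ[F] W')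
    (he : ∀ g v, e (σ g v) = σ' g (e v)) (h : Emb P ρ σ') : Emb P ρ σ := by
  obtain ⟨j, hj, w, hw⟩ := h
  refine ⟨j ∘ₗ e.toLinearMap, fun n u => ?_, e.symm w, ?_⟩
  · show j (e (σ n u)) = ρ n (j (e u))
    rw [he, hj]
  · show j (e (e.symm w)) ∉ _
    rw [e.apply_symm_apply]
    exact hw

/-- The Brauer homomorphism maps class functions to class functions. -/
theorem brz_mem (P : Subgroup T) {z : T → F} (hz : z ∈ CF F T) : brz P z ∈ CF F (NP P) := by
  classical
  intro g x
  have hc : (((g * x * g⁻¹ : NP P)) : T) ∈ Subgroup.centralizer (P : Set T) ↔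
      (x : T) ∈ Subgroup.centralizer (P : Set T) := by
    have key : ∀ g x : NP P, (x : T) ∈ Subgroup.centralizer (P : Set T) →
        (((g * x * g⁻¹ : NP P)) : T) ∈ Subgroup.centralizer (P : Set T) := by
      intro g x hx
      rw [Subgroup.mem_centralizer_iff] at hx ⊢
      intro p hp
      have hg : (g : T)⁻¹ * p * (g : T) ∈ P := by
        have h1 := (Subgroup.mem_normalizer_iff'' (H := P)).1 g.2 p
        exact h1.1 hp
      have h2 := hx _ hg
      push_cast
      calc p * ((g : T) * x * (g : T)⁻¹) = g * (((g : T)⁻¹ * p * g) * x) * (g : T)⁻¹ := by group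
        _ = g * (x * ((g : T)⁻¹ * p * g)) * (g : T)⁻¹ := by rw [h2]
        _ = (g : T) * x * (g : T)⁻¹ * p := by group
    refine ⟨fun h => ?_, key g x⟩
    have h3 := key g⁻¹ _ h
    have h4 : g⁻¹ * (g * x * g⁻¹) * g⁻¹⁻¹ = x := by group
    rwa [h4] at h3
  unfold brz
  by_cases h : (x : T) ∈ Subgroup.centralizer (P : Set T)
  · rw [if_pos (hc.2 h), if_pos h]
    exact hz g x
  · rw [if_neg (fun h' => h (hc.1 h')), if_neg h]

/-- `P` acts trivially on the irreducible representations of its normalizer. -/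
theorem triv (h1 : Stmt_PTR) (ℓ : ℕ) [Fact ℓ.Prime] [CharP F ℓ] [Finite T]
    [Module.Finite F W] (P : Subgroup T) [Fintype (NP P)] (hP : Nat.card P = ℓ)
    (σ : Representation F (NP P) W) (hσ : σ.IsIrreducible) :
    ∀ p : NP P, (p : T) ∈ P → σ p = 1 := by
  set PN := P.subgroupOf (Subgroup.normalizer (P : Set T)) with hPN
  have hle : P ≤ Subgroup.normalizer (P : Set T) := Subgroup.le_normalizer
  have hPNn : PN.Normal := Subgroup.normal_in_normalizer
  have hcard : Nat.card PN = ℓ := by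
    rw [← hP]
    exact Nat.card_congr (Subgroup.subgroupOfEquivOfLe hle).toEquiv
  have h := h1 ℓ F (NP P) W σ PN hcard hσ
  intro p hp
  exact h p hp

/-- An occurring representation gives a fixed vector which is not a trace. -/
theorem npr [Fintype T] (P : Subgroup T) (ρ : Representation F T V)
    (σ : Representation F (NP P) W) (ht : ∀ p : NP P, (p : T) ∈ P → σ p = 1)
    (h : Emb P ρ σ) : NPr P ρ := by
  obtain ⟨j, hj, w, hw⟩ := h
  refine ⟨j w, fun p hp => ?_, hw⟩
  have h1 := hj ⟨p, Subgroup.le_normalizer hp⟩ w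
  rw [ht ⟨p, Subgroup.le_normalizer hp⟩ hp] at h1
  exact h1.symm

/-- The relation between trace functions. -/
def Rel [Fintype T] (P : Subgroup T) (φ : T → F) (θ : NP P → F) : Prop :=
  ∃ (n : ℕ) (ρ : Representation F T (Fin n → F)) (m : ℕ)
    (σ : Representation F (NP P) (Fin m → F)), ρ.IsIrreducible ∧ ρ.character = φ ∧
      σ.IsIrreducible ∧ σ.character = θ ∧ Emb P ρ σ

end LEQ

open _root_.Pool.Agent.DPB.LEQ in
/-- LEQ: the simple modules which are not projective and the simple modules of the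
normalizer. -/
theorem LEQ_thm (h1 : Stmt_PTR) (h2 : Stmt_KAI) (h3 : Stmt_KAH) (h4 : Stmt_KB) (h5 : Stmt_KC)
    (h6 : Stmt_KD) (h7 : Stmt_KE) (h8 : Stmt_BRE) (h9 : Stmt_BRU) : Stmt_LEQ := by
  intro ℓ _ F T _ _ _ _ _ P _ hP hi z hz μ
  -- eigenvalues
  have hev : ∀ (φ : T → F) (θ : NP P → F), Rel P φ θ →
      (Lz z φ = μ • φ ↔ Lz (brz P z) θ = μ • θ) := by
    rintro φ θ ⟨n, ρ, m, σ, hρ, rfl, hσ, rfl, hE⟩
    obtain ⟨hφ0, hφ⟩ := h8 F T (Fin n → F) ρ hρ
    obtain ⟨hθ0, hθ⟩ := h8 F (NP P) (Fin m → F) σ hσ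
    obtain ⟨ν, hν, hν'⟩ := hφ z hz
    obtain ⟨κ, hκ, hκ'⟩ := hθ (brz P z) (brz_mem P hz)
    have e : ν = κ := h7 ℓ F T (Fin n → F) (Fin m → F) P ρ σ hP (triv h1 ℓ P hP σ hσ) hE z hz
      ν κ hν hκ
    subst e
    rw [hν', hκ']
    constructor
    · intro h
      have h' : (ν - μ) • ρ.character = 0 := by rw [sub_smul, h, sub_self]
      rcases smul_eq_zero.1 h' with h'' | h''
      · rw [sub_eq_zero.1 h'']
      · exact absurd h'' hφ0
    · intro h
      have h' : (ν - μ) • σ.character = 0 := by rw [sub_smul, h, sub_self]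
      rcases smul_eq_zero.1 h' with h'' | h''
      · rw [sub_eq_zero.1 h'']
      · exact absurd h'' hθ0
  -- uniqueness
  have hu1 : ∀ (φ : T → F) (θ θ' : NP P → F), Rel P φ θ → Rel P φ θ' → θ = θ' := by
    rintro φ θ θ' ⟨n, ρ, m, σ, hρ, rfl, hσ, rfl, hE⟩ ⟨n', ρ', m', σ', hρ', hφ', hσ', rfl, hE'⟩
    obtain ⟨e, he⟩ := h9 F T (Fin n' → F) (Fin n → F) ρ' ρ hρ' hρ hφ'
    exact h4 ℓ F T (Fin n → F) (Fin m → F) (Fin m' → F) P ρ σ σ' hP hi hρ hσ hσ' hE
      (emb_left P ρ' ρ σ' e he hE')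
  have hu2 : ∀ (φ φ' : T → F) (θ : NP P → F), Rel P φ θ → Rel P φ' θ → φ = φ' := by
    rintro φ φ' θ ⟨n, ρ, m, σ, hρ, rfl, hσ, rfl, hE⟩ ⟨n', ρ', m', σ', hρ', rfl, hσ', hθ', hE'⟩
    obtain ⟨e, he⟩ := h9 F (NP P) (Fin m → F) (Fin m' → F) σ σ' hσ hσ' hθ'.symm
    exact h5 ℓ F T (Fin n → F) (Fin n' → F) (Fin m → F) P ρ ρ' σ hP hi hρ hρ' hσ hE
      (emb_right P ρ' σ σ' e he hE')
  -- existence
  have he1 : ∀ φ : T → F, (∃ (n : ℕ) (ρ : Representation F T (Fin n → F)),
      ρ.IsIrreducible ∧ ρ.character = φ ∧ NPr P ρ) → ∃ θ, Rel P φ θ := by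
    rintro φ ⟨n, ρ, hρ, rfl, hn⟩
    obtain ⟨m, σ, hσ, hE⟩ := h6 ℓ F T (Fin n → F) P ρ hP hi hn
    exact ⟨σ.character, n, ρ, m, σ, hρ, rfl, hσ, rfl, hE⟩
  have he2 : ∀ θ : NP P → F, IsBr F θ → ∃ φ, (∃ (n : ℕ) (ρ : Representation F T (Fin n → F)),
      ρ.IsIrreducible ∧ ρ.character = φ ∧ NPr P ρ) ∧ Rel P φ θ := by
    rintro θ ⟨m, σ, hσ, rfl⟩
    have ht := triv h1 ℓ P hP σ hσ
    obtain ⟨n, ρ, hE⟩ := h2 ℓ F T (Fin m → F) P σ hP hσ ht
    obtain ⟨n', ρ', hρ', hE'⟩ := h3 ℓ F T (Fin m → F) (Fin n → F) P ρ σ hP hi hσ ht hE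
    exact ⟨ρ'.character, ⟨n', ρ', hρ', rfl, npr P ρ' σ ht hE'⟩, n', ρ', m, σ, hρ', rfl, hσ, rfl,
      hE'⟩
  have hbr : ∀ (φ : T → F) (θ : NP P → F), Rel P φ θ → IsBr F θ := by
    rintro φ θ ⟨n, ρ, m, σ, hρ, rfl, hσ, rfl, hE⟩
    exact ⟨m, σ, hσ, rfl⟩
  choose f hf using he1
  refine Nat.card_congr (Equiv.ofBijective (fun φ => ⟨f φ.1 φ.2.1, hbr _ _ (hf φ.1 φ.2.1),
    (hev _ _ (hf φ.1 φ.2.1)).1 φ.2.2⟩) ⟨?_, ?_⟩)
  · rintro ⟨φ, hφ⟩ ⟨φ', hφ'⟩ h
    have h' : f φ hφ.1 = f φ' hφ'.1 := congrArg Subtype.val h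
    apply Subtype.ext
    have k1 := hf φ hφ.1
    have k2 := hf φ' hφ'.1
    rw [← h'] at k2
    exact hu2 φ φ' _ k1 k2
  · rintro ⟨θ, hθ, hθ'⟩
    obtain ⟨φ, hφ, hR⟩ := he2 θ hθ
    refine ⟨⟨φ, hφ, (hev _ _ hR).2 hθ'⟩, Subtype.ext ?_⟩
    exact hu1 φ _ _ (hf φ hφ) hR

end Pool.Agent.DPB


end

section

/-!
# CNT: the number of characters in a block of positive defect and in its local counterpart
-/

namespace Pool.Agent.DPB

open Pool.Agent.Lib_helper13 Representation

set_option linter.unusedSectionVars false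

namespace CNT

section Cls

variable {F H : Type} [Field F] [Group H] [Fintype H]

lemma Lz_mem {z φ : H → F} (hz : z ∈ CF F H) (hφ : φ ∈ CF F H) : Lz z φ ∈ CF F H := by
  intro g x
  rw [Lz_apply, Lz_apply]
  refine (Fintype.sum_equiv (MulAut.conj g).toEquiv _ _ fun h => ?_).symm
  show z h * φ (h * x) = z (g * h * g⁻¹) * φ (g * h * g⁻¹ * (g * x * g⁻¹))
  rw [hz g h]
  have h1 : g * h * g⁻¹ * (g * x * g⁻¹) = g * (h * x) * g⁻¹ := by group
  rw [h1, hφ g (h * x)]

end Cls

section Brz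

variable {T : Type} [Group T] (P : Subgroup T)

lemma conj_mem_centralizer (g x : NP P) :
    ((g * x * g⁻¹ : NP P) : T) ∈ Subgroup.centralizer (P : Set T) ↔
      (x : T) ∈ Subgroup.centralizer (P : Set T) := by
  have key : ∀ g x : NP P, (x : T) ∈ Subgroup.centralizer (P : Set T) →
      ((g * x * g⁻¹ : NP P) : T) ∈ Subgroup.centralizer (P : Set T) := by
    intro g x hx
    rw [Subgroup.mem_centralizer_iff] at hx ⊢
    intro p hp
    have h1 : (g : T)⁻¹ * p * g ∈ (P : Set T) := by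
      have h2 := (Subgroup.mem_normalizer_iff.1 (g⁻¹).2 p).1 hp
      simpa using h2
    have h3 := hx _ h1
    have h4 : p * ((g * x * g⁻¹ : NP P) : T) = g * (((g : T)⁻¹ * p * g) * x) * (g : T)⁻¹ := by
      push_cast
      group
    rw [h4, h3]
    push_cast
    group
  constructor
  · intro h
    have h1 := key g⁻¹ _ h
    have h2 : g⁻¹ * (g * x * g⁻¹) * g⁻¹⁻¹ = x := by group
    rwa [h2] at h1
  · exact key g x

open Classical in
/-- The Brauer homomorphism with values in the algebraic integers. -/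
noncomputable def ba (a : T → integralClosure ℤ ℂ) (n : NP P) : integralClosure ℤ ℂ :=
  if (n : T) ∈ Subgroup.centralizer (P : Set T) then a n else 0

lemma ba_conj {a : T → integralClosure ℤ ℂ} (ha : ∀ g x, a (g * x * g⁻¹) = a x) (g x : NP P) :
    ba P a (g * x * g⁻¹) = ba P a x := by
  unfold ba
  by_cases h : (x : T) ∈ Subgroup.centralizer (P : Set T)
  · rw [if_pos h, if_pos ((conj_mem_centralizer P g x).2 h)]
    exact ha (g : T) (x : T)
  · rw [if_neg h, if_neg (fun h' => h ((conj_mem_centralizer P g x).1 h'))]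

lemma brz_eq {F : Type} [Field F] (r : integralClosure ℤ ℂ →+* F)
    (a : T → integralClosure ℤ ℂ) :
    brz P (fun h => r (a h)) = fun n => r (ba P a n) := by
  funext n
  unfold brz ba
  by_cases h : (n : T) ∈ Subgroup.centralizer (P : Set T)
  · rw [if_pos h, if_pos h]
  · rw [if_neg h, if_neg h, map_zero]

lemma brz_eq_coe (a : T → integralClosure ℤ ℂ) (n : NP P) :
    brz (F := ℂ) P (fun h => (a h : ℂ)) n = (ba P a n : ℂ) := by
  unfold brz ba
  by_cases h : (n : T) ∈ Subgroup.centralizer (P : Set T)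
  · rw [if_pos h, if_pos h]
  · rw [if_neg h, if_neg h]
    rfl

end Brz

section Red

variable (𝔐 : Ideal (integralClosure ℤ ℂ)) {F : Type} [Field F] (r : integralClosure ℤ ℂ →+* F)
  (hk : RingHom.ker r = 𝔐)

include hk

lemma red_iff (a b : integralClosure ℤ ℂ) : red 𝔐 (a : ℂ) = red 𝔐 (b : ℂ) ↔ r a = r b := by
  rw [red_of_integral 𝔐 a.2, red_of_integral 𝔐 b.2, Ideal.Quotient.eq, ← hk, RingHom.mem_ker]
  show r (a - b) = 0 ↔ r a = r b
  rw [map_sub, sub_eq_zero]

lemma red_zero_iff (a : integralClosure ℤ ℂ) : red 𝔐 (a : ℂ) = 0 ↔ r a = 0 := by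
  rw [red_of_integral 𝔐 a.2, Ideal.Quotient.eq_zero_iff_mem, ← hk, RingHom.mem_ker]

end Red

lemma isInt {H : Type} [Group H] [Fintype H] {χ : H → ℂ} (hχ : IsIrr χ)
    {a : H → integralClosure ℤ ℂ} (ha : ∀ g x, a (g * x * g⁻¹) = a x) :
    IsIntegral ℤ (wt χ (fun h => (a h : ℂ))) :=
  isIntegral_wt hχ _ (fun g x => by rw [ha]) fun y => (a y).2

section Main

variable {T : Type} [Group T] [Fintype T] {𝔐 : Ideal (integralClosure ℤ ℂ)} {ℓ : ℕ}
  [hℓp : Fact ℓ.Prime] {F : Type} [Field F] [IsAlgClosed F] [CharP F ℓ]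
  {r : integralClosure ℤ ℂ →+* F} {P : Subgroup T} [Fintype (NP P)]
  {a : T → integralClosure ℤ ℂ} {χ₀ : T → ℂ}

/-- The characters of the block are counted by a multiplicity. -/
lemma count_T (h3 : Stmt_CHP) (hk : RingHom.ker r = 𝔐)
    (ha : ∀ g x, a (g * x * g⁻¹) = a x)
    (hsep : ∀ χ χ' : T → ℂ, IsIrr χ → IsIrr χ' →
        (cen 𝔐 (MonoidHom.id T) χ = cen 𝔐 (MonoidHom.id T) χ' ↔
          red 𝔐 (wt χ (fun h => (a h : ℂ))) = red 𝔐 (wt χ' (fun h => (a h : ℂ)))))
    (hχ₀ : IsIrr χ₀) :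
    Nat.card {χ : T → ℂ // IsIrr χ ∧ cen 𝔐 (MonoidHom.id T) χ = cen 𝔐 (MonoidHom.id T) χ₀} =
      mlt (CF F T) (Lz fun h => r (a h)) (r ⟨_, isInt hχ₀ ha⟩) := by
  rw [h3 F T r a ha]
  refine Nat.card_congr (Equiv.subtypeEquivRight fun χ => ?_)
  refine and_congr_right fun hχ => ?_
  rw [hsep χ χ₀ hχ hχ₀, red_iff 𝔐 r hk ⟨_, isInt hχ ha⟩ ⟨_, isInt hχ₀ ha⟩]
  constructor
  · intro h
    exact ⟨_, rfl, h⟩
  · rintro ⟨b, hb, hb'⟩
    have h1 : b = ⟨_, isInt hχ ha⟩ := Subtype.ext hb
    rwa [← h1]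

/-- The characters of the local counterpart are counted by a multiplicity. -/
lemma count_N (h3 : Stmt_CHP) (h12 : Stmt_LOC) (hmax : 𝔐.IsMaximal)
    (hℓ : (ℓ : integralClosure ℤ ℂ) ∈ 𝔐) (hP : Nat.card P = ℓ) (hk : RingHom.ker r = 𝔐)
    (ha : ∀ g x, a (g * x * g⁻¹) = a x)
    (hsep : ∀ χ χ' : T → ℂ, IsIrr χ → IsIrr χ' →
        (cen 𝔐 (MonoidHom.id T) χ = cen 𝔐 (MonoidHom.id T) χ' ↔
          red 𝔐 (wt χ (fun h => (a h : ℂ))) = red 𝔐 (wt χ' (fun h => (a h : ℂ)))))
    (hχ₀ : IsIrr χ₀) :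
    Nat.card {ψ : NP P → ℂ // IsIrr ψ ∧
        cen 𝔐 (Subgroup.normalizer (P : Set T)).subtype ψ = cen 𝔐 (MonoidHom.id T) χ₀} =
      mlt (CF F (NP P)) (Lz (brz P fun h => r (a h))) (r ⟨_, isInt hχ₀ ha⟩) := by
  rw [brz_eq P r a, h3 F (NP P) r (ba P a) (ba_conj P ha)]
  refine Nat.card_congr (Equiv.subtypeEquivRight fun ψ => ?_)
  refine and_congr_right fun hψ => ?_
  obtain ⟨⟨χ, hχ, hc⟩, hL, -⟩ := h12 T 𝔐 ℓ hmax hℓ P hP ψ hψ
  have hr := hL χ hχ hc a ha
  have hfun : (fun n : NP P => brz (F := ℂ) P (fun h => (a h : ℂ)) n) =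
      fun n => (ba P a n : ℂ) := funext fun n => brz_eq_coe P a n
  rw [hfun] at hr
  have h1 : cen 𝔐 (Subgroup.normalizer (P : Set T)).subtype ψ = cen 𝔐 (MonoidHom.id T) χ₀ ↔
      red 𝔐 (wt ψ (fun n => (ba P a n : ℂ))) = red 𝔐 (wt χ₀ (fun h => (a h : ℂ))) := by
    rw [← hc, hsep χ χ₀ hχ hχ₀, hr]
  have hi := isInt hψ (ba_conj P ha)
  rw [h1, red_iff 𝔐 r hk ⟨_, hi⟩ ⟨_, isInt hχ₀ ha⟩]
  constructor
  · intro h
    exact ⟨_, rfl, h⟩
  · rintro ⟨b, hb, hb'⟩
    have h1 : b = ⟨_, hi⟩ := Subtype.ext hb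
    rwa [← h1]

lemma smul_one_inj {V : Type} [AddCommGroup V] [Module F V] [Nontrivial V] {μ μ' : F}
    (h : μ • (1 : Module.End F V) = μ' • (1 : Module.End F V)) : μ = μ' := by
  obtain ⟨v, hv⟩ := exists_ne (0 : V)
  have h1 := LinearMap.congr_fun h v
  have h2 : μ • v = μ' • v := by simpa using h1
  exact smul_left_injective F hv h2

/-- No projective simple module belongs to the block. -/
lemma not_proj (h5 : Stmt_BRE) (h8 : Stmt_NPJ) (h9 : Stmt_LFT) (h11 : Stmt_PDZ)
    (hmax : 𝔐.IsMaximal) (hℓ : (ℓ : integralClosure ℤ ℂ) ∈ 𝔐) (hP : Nat.card P = ℓ)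
    (hidx : ¬ ℓ ∣ P.index) (hk : RingHom.ker r = 𝔐) (hrs : Function.Surjective r)
    (ha : ∀ g x, a (g * x * g⁻¹) = a x)
    (hsep : ∀ χ χ' : T → ℂ, IsIrr χ → IsIrr χ' →
        (cen 𝔐 (MonoidHom.id T) χ = cen 𝔐 (MonoidHom.id T) χ' ↔
          red 𝔐 (wt χ (fun h => (a h : ℂ))) = red 𝔐 (wt χ' (fun h => (a h : ℂ)))))
    (hχ₀ : IsIrr χ₀) (hd : ¬ HasDefect ℓ χ₀ 0) {n : ℕ} (ρ : Representation F T (Fin n → F))
    (hρ : ρ.IsIrreducible)
    (hev : Lz (fun h => r (a h)) ρ.character = r ⟨_, isInt hχ₀ ha⟩ • ρ.character) :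
    NPr P ρ := by
  by_contra hnp
  obtain ⟨z1, hz1, hz1v, hz1o⟩ := h8 ℓ F T (Fin n → F) P ρ hP hidx hρ hnp
  obtain ⟨χ, hχ, hlift⟩ := h9 F T (Fin n → F) r ρ hρ
  obtain ⟨hne, hB⟩ := h5 F T (Fin n → F) ρ hρ
  have hzc : (fun h => r (a h)) ∈ CF F T := fun g x => by
    show r (a (g * x * g⁻¹)) = r (a x)
    rw [ha]
  obtain ⟨μ', e1, e2⟩ := hB _ hzc
  have hnt : Nontrivial (Fin n → F) := by
    by_contra hnt
    rw [not_nontrivial_iff_subsingleton] at hnt
    apply hne
    funext g
    have h0 : ρ g = 0 := LinearMap.ext fun v => Subsingleton.elim _ _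
    simp [Representation.character, h0]
  have hb := hlift a ha ⟨_, isInt hχ ha⟩ rfl
  rw [e1] at hb
  have h1 := smul_one_inj hb
  have h2 : μ' = r ⟨_, isInt hχ₀ ha⟩ := by
    rw [e2] at hev
    exact smul_left_injective F hne hev
  have h3 : cen 𝔐 (MonoidHom.id T) χ = cen 𝔐 (MonoidHom.id T) χ₀ := by
    rw [hsep χ χ₀ hχ hχ₀, red_iff 𝔐 r hk ⟨_, isInt hχ ha⟩ ⟨_, isInt hχ₀ ha⟩, ← h1, h2]
  have hprime : 𝔐.IsPrime := hmax.isPrime
  have hd' : ¬ HasDefect ℓ χ 0 := by
    intro hdχ
    have h4 := eq_of_defect_zero 𝔐 hℓ hχ hχ₀ hdχ h3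
    rw [h4] at hdχ
    exact hd hdχ
  -- lift `z1`
  classical
  have hsec : ∃ s : F → integralClosure ℤ ℂ, s 0 = 0 ∧ ∀ x, r (s x) = x := by
    refine ⟨fun x => if x = 0 then 0 else Function.surjInv hrs x, if_pos rfl, fun x => ?_⟩
    by_cases hx : x = 0
    · simp [hx]
    · simp only [if_neg hx]
      exact Function.surjInv_eq hrs x
  obtain ⟨s, hs0, hs⟩ := hsec
  have ha1 : ∀ g x, s (z1 (g * x * g⁻¹)) = s (z1 x) := fun g x => by rw [hz1 g x]
  have hz1' : (fun h => r (s (z1 h))) = z1 := funext fun h => hs _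
  have hi1 : IsIntegral ℤ (wt χ (fun h => (s (z1 h) : ℂ))) :=
    isInt (a := fun h => s (z1 h)) hχ ha1
  have hb1 := hlift (fun h => s (z1 h)) ha1 ⟨_, hi1⟩ rfl
  rw [hz1', hz1o] at hb1
  have h5' : (1 : F) • (1 : Module.End F (Fin n → F)) =
      r ⟨_, hi1⟩ • (1 : Module.End F (Fin n → F)) := by
    rw [one_smul]
    exact hb1
  have h6 := smul_one_inj h5'
  have h7 := h11 T 𝔐 ℓ hmax hℓ χ hχ hd' (fun h => s (z1 h)) ha1
    (fun g u hu hu' hug => by
      show s (z1 g) = 0
      rw [hz1v g u hu hu' hug, hs0])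
  have h8' := (red_zero_iff 𝔐 r hk ⟨_, hi1⟩).1 h7
  rw [h8'] at h6
  exact one_ne_zero h6

/-- The main count. -/
theorem main (h2 : Stmt_LIN) (h3 : Stmt_CHP) (h4 : Stmt_BRM) (h5 : Stmt_BRE) (h6 : Stmt_SNG)
    (h7 : Stmt_LEQ) (h8 : Stmt_NPJ) (h9 : Stmt_LFT) (h11 : Stmt_PDZ) (h12 : Stmt_LOC)
    (hmax : 𝔐.IsMaximal) (hℓ : (ℓ : integralClosure ℤ ℂ) ∈ 𝔐) (hP : Nat.card P = ℓ)
    (hidx : ¬ ℓ ∣ P.index) (hk : RingHom.ker r = 𝔐) (hrs : Function.Surjective r)
    (ha : ∀ g x, a (g * x * g⁻¹) = a x)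
    (hsep : ∀ χ χ' : T → ℂ, IsIrr χ → IsIrr χ' →
        (cen 𝔐 (MonoidHom.id T) χ = cen 𝔐 (MonoidHom.id T) χ' ↔
          red 𝔐 (wt χ (fun h => (a h : ℂ))) = red 𝔐 (wt χ' (fun h => (a h : ℂ)))))
    (hχ₀ : IsIrr χ₀) (hd : ¬ HasDefect ℓ χ₀ 0) :
    Nat.card {χ : T → ℂ // IsIrr χ ∧ cen 𝔐 (MonoidHom.id T) χ = cen 𝔐 (MonoidHom.id T) χ₀} =
    Nat.card {ψ : NP P → ℂ // IsIrr ψ ∧
        cen 𝔐 (Subgroup.normalizer (P : Set T)).subtype ψ = cen 𝔐 (MonoidHom.id T) χ₀} := by
  rw [count_T (r := r) h3 hk ha hsep hχ₀, count_N (r := r) h3 h12 hmax hℓ hP hk ha hsep hχ₀]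
  set μ := r ⟨_, isInt hχ₀ ha⟩ with hμ
  have hz : (fun h => r (a h)) ∈ CF F T := fun g x => by
    show r (a (g * x * g⁻¹)) = r (a x)
    rw [ha]
  have hzN : brz P (fun h => r (a h)) ∈ CF F (NP P) := by
    rw [brz_eq P r a]
    intro g x
    show r (ba P a (g * x * g⁻¹)) = r (ba P a x)
    rw [ba_conj P ha]
  have hreg : mlt (CFr ℓ F T) (Lz fun h => r (a h)) μ =
      mlt (CFr ℓ F (NP P)) (Lz (brz P fun h => r (a h))) μ := by
    rw [h4 ℓ F T _ hz μ, h4 ℓ F (NP P) _ hzN μ, ← h7 ℓ F T P hP hidx _ hz μ]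
    refine Nat.card_congr (Equiv.subtypeEquivRight fun φ => ?_)
    constructor
    · rintro ⟨⟨n, ρ, hρ, rfl⟩, hev⟩
      exact ⟨⟨n, ρ, hρ, rfl, not_proj h5 h8 h9 h11 hmax hℓ hP hidx hk hrs ha hsep hχ₀ hd ρ hρ
        hev⟩, hev⟩
    · rintro ⟨⟨n, ρ, hρ, hc, -⟩, hev⟩
      exact ⟨⟨n, ρ, hρ, hc⟩, hev⟩
  obtain ⟨DT, DN, f', hk1, hk2, hmap, e1, e2⟩ := h6 ℓ F T P hP hidx _ hz
  have a1 := h2 F (T → F) (NP P → F) (Lz fun h => r (a h)) f' DT (CF F T)
    (fun v hv => Lz_mem hz hv) e1 μ
  have a2 := h2 F (NP P → F) (NP P → F) (Lz (brz P fun h => r (a h))) f' DN (CF F (NP P))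
    (fun v hv => Lz_mem hzN hv) e2 μ
  rw [hk1] at a1
  rw [hk2] at a2
  rw [a1, a2, hmap, hreg]

end Main

end CNT

/-- CNT: the number of characters in a block of positive defect and in its local
counterpart. -/
theorem CNT_thm (h1 : Stmt_ACF) (h2 : Stmt_LIN) (h3 : Stmt_CHP) (h4 : Stmt_BRM) (h5 : Stmt_BRE)
    (h6 : Stmt_SNG) (h7 : Stmt_LEQ) (h8 : Stmt_NPJ) (h9 : Stmt_LFT) (h10 : Stmt_SEP)
    (h11 : Stmt_PDZ) (h12 : Stmt_LOC) : Stmt_CNT := by
  intro T _ _ 𝔐 ℓ _ hmax hℓ P _ hP hidx χ₀ hχ₀ hd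
  obtain ⟨a, ha, hsep⟩ := h10 T 𝔐 hmax
  let _ : Field ((integralClosure ℤ ℂ) ⧸ 𝔐) := Ideal.Quotient.field 𝔐
  have hrs : Function.Surjective (Ideal.Quotient.mk 𝔐) := Ideal.Quotient.mk_surjective
  have hac : IsAlgClosed ((integralClosure ℤ ℂ) ⧸ 𝔐) := h1 _ (Ideal.Quotient.mk 𝔐) hrs
  have hch : CharP ((integralClosure ℤ ℂ) ⧸ 𝔐) ℓ := by
    rw [CharP.charP_iff_prime_eq_zero (Fact.out : ℓ.Prime)]
    rw [← map_natCast (Ideal.Quotient.mk 𝔐)]
    exact Ideal.Quotient.eq_zero_iff_mem.mpr hℓ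
  exact CNT.main (r := Ideal.Quotient.mk 𝔐) h2 h3 h4 h5 h6 h7 h8 h9 h11 h12 hmax hℓ hP hidx
    Ideal.mk_ker hrs ha hsep hχ₀ hd

end Pool.Agent.DPB


end
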