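import Mathlib
import Pool.Agent.DAM.C08
import Pool.Agent.DAM.C11

/-! Parts: DPV.DefsV, DPV.StmtsV, DPW.DefsW, DPW.StmtsWC, DPW.DefsWB, DPW.StmtsWB, DPX.DefsX, DPX.StmtsXA, DP.CLIFF, DPV.MINV, DPW.KCB, DPW.FXC, DPX.LOCX, DPX.STPX -/

section

/-!
# Dade's conjecture for groups with a normal subgroup `G ^ Ω` and arbitrary outer automorphisms:
definitions (theorem V)
-/

namespace Pool.Agent.DPV

open Pool.Agent.DP Pool.Agent.Lib_helper13 Representation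
open Pool.Agent.Lib_helper13.Dade (pCore DadeHolds dadeSum)

section Loc

variable {G B C : Type*} [Group G] [Group B] [Group C]

/-- `G` is a normal subgroup of `B` with quotient `C`. -/
structure LocN (ι : G →* B) (κ : B →* MulAut G) (ρ : B →* C) : Prop where
  cl : ClG ι κ ρ
  surj : Function.Surjective ρ

/-- `G` is a normal subgroup of `B` with quotient `C` of order prime to `ℓ`, and trivial
centralizer; `O_ℓ(G) = 1`. -/
structure LocA (ℓ : ℕ) (ι : G →* B) (κ : B →* MulAut G) (ρ : B →* C) : Prop where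
  cl : ClG ι κ ρ
  surj : Function.Surjective ρ
  cop : ¬ ℓ ∣ Nat.card C
  fth : Function.Injective κ
  core : pCore ℓ G = ⊥
  nt : Nontrivial G

/-- `G` is a normal subgroup of `B` with quotient `C`, and all irreducible characters of the
stabilizers in `G` of sets of subgroups extend to their stabilizers in `B`. -/
structure LocV (ι : G →* B) (κ : B →* MulAut G) (ρ : B →* C) : Prop where
  cl : ClG ι κ ρ
  surj : Function.Surjective ρ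
  ext : ∀ (σ : Finset (Subgroup G)) (ψ : G → ℂ), IrrOn (stb σ) ψ →
    ∃ f : B → ℂ, IrrOn (Stx κ σ ψ) f ∧ ∀ h, f (ι h) = ψ h

theorem LocV.locN {ι : G →* B} {κ : B →* MulAut G} {ρ : B →* C} (h : LocV ι κ ρ) :
    LocN ι κ ρ := ⟨h.cl, h.surj⟩

theorem LocA.locN {ℓ : ℕ} {ι : G →* B} {κ : B →* MulAut G} {ρ : B →* C} (h : LocA ℓ ι κ ρ) :
    LocN ι κ ρ := ⟨h.cl, h.surj⟩

/-- `lam` is a linear character on the subgroup `L` (with arbitrary values outside `L`). -/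
def LinOn (L : Subgroup C) (lam : C → ℂ) : Prop :=
  lam 1 = 1 ∧ ∀ x ∈ L, ∀ y ∈ L, lam (x * y) = lam x * lam y

/-- Truncation of a class of central functions to the inverse image of `L`, up to linear
characters of `L`. -/
def trL (𝔐 : Ideal (integralClosure ℤ ℂ)) (ρ : B →* C) (L : Subgroup C)
    (β : Set (B → (integralClosure ℤ ℂ) ⧸ 𝔐)) : Set (B → (integralClosure ℤ ℂ) ⧸ 𝔐) :=
  {b | ∃ b0 ∈ β, ∃ lam : C → ℂ, LinOn L lam ∧
    b = fun x => red 𝔐 (lam (ρ x)) * trn ρ L b0 x}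

/-- The convolution product. -/
noncomputable def cvB [Fintype B] (a a' : B → ℂ) (x : B) : ℂ := ∑ y, a y * a' (y⁻¹ * x)

/-- The empty chain, or the chain whose only member is a Sylow subgroup of order `ℓ`. -/
def Sml (ℓ : ℕ) (σ : Finset (Subgroup G)) : Prop :=
  σ = ∅ ∨ ∃ P : Subgroup G, σ = {P} ∧ Nat.card P = ℓ ∧ ¬ ℓ ∣ P.index

end Loc

section Glob

variable {O G B C Y K X : Type*} [Group G] [Group B] [Group C] [Group Y] [Group K] [Group X]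

/-- Standard data for a subgroup `J` of `K`. -/
structure SDV (ℓ : ℕ) (ι : G →* B) (ρ : B →* C) (p : Y →* K)
    (φ : Y →* Gam (Equiv.Perm O) O B) (J : Subgroup K) (U : O → Subgroup C) (g : O → B)
    (S : O → Subgroup B) (θ : O → B → ℂ) (m : O → ℕ) (M : O → B → ℕ → ℕ → ℂ) : Prop where
  cS : ∀ y, p y ∈ J → ∀ o, S ((φ y).right • o) = S o
  cθ : ∀ y, p y ∈ J → ∀ o, θ ((φ y).right • o) = θ o
  cm : ∀ y, p y ∈ J → ∀ o, m ((φ y).right • o) = m o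
  cM : ∀ y, p y ∈ J → ∀ o, M ((φ y).right • o) = M o
  irr : ∀ o, IrrOn (S o) (θ o)
  res : ∀ o, IrrOn ((S o).comap ι) (fun h => θ o (ι h))
  md : ∀ o, MD (S o) (θ o) (m o) (M o)
  dz : ∀ o, df ℓ ((S o).comap ι) (fun h => θ o (ι h)) = 0 → (S o).comap ι = ⊤
  img : ∀ o, (S o).map ρ = U o
  adp : ∀ y, p y ∈ J → ∀ o, ρ (zz φ g y o) ∈ (S o).map ρ

end Glob

/-- Standard data of a chain and a character. -/
structure StdV {O G B C Y K : Type} [Fintype O] [DecidableEq O] [Group G] [Group B]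
    [Group C] [Group Y] [Group K] (ℓ : ℕ) (ι : G →* B) (κ : B →* MulAut G) (ρ : B →* C)
    (p : Y →* K) (φ : Y →* Gam (Equiv.Perm O) O B) (τ : Finset (Subgroup (O → G)))
    (θ : O → G → ℂ) (r : O → O) (t : O → Y) (g : O → B) (S : O → Subgroup B)
    (f : O → B → ℂ) (m : O → ℕ) (M : O → B → ℕ → ℕ → ℂ) : Prop where
  sd : SDV ℓ ι ρ p φ (KB κ p φ τ θ) (fun o => vg ρ p φ (KB κ p φ τ θ) (r o)) g S f m M
  rp : RepJ p φ (KB κ p φ τ θ) r t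
  rg : ∀ o, ρ (g o) = ρ ((φ (t o)).left o)
  tr : ∀ o, trB κ τ θ (r o) o (g o)
  hS : ∀ o, S o = Stx κ (comp τ (r o)) (θ (r o)) ⊓
    (vg ρ p φ (KB κ p φ τ θ) (r o)).comap ρ
  ex : ∀ o, ExtL ι κ ρ (comp τ (r o)) (θ (r o)) (vg ρ p φ (KB κ p φ τ θ) (r o)) (f o)

end Pool.Agent.DPV


end

section

/-!
# Dade's conjecture for groups with a normal subgroup `G ^ Ω` and arbitrary outer automorphisms:
statements of the modules (theorem V)
-/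

namespace Pool.Agent.DPV

open Pool.Agent.DP Pool.Agent.Lib_helper13 Representation
open Pool.Agent.Lib_helper13.Dade (pCore DadeHolds dadeSum)

/-! ### Extensions -/

/-- EXTV: the extensions of `ψ`. -/
def Stmt_EXTV : Prop :=
  ∀ (G B C : Type) [Group G] [Fintype G] [Group B] [Fintype B] [Group C]
    (ι : G →* B) (κ : B →* MulAut G) (ρ : B →* C), LocV ι κ ρ →
    ∀ (σ : Finset (Subgroup G)) (ψ : G → ℂ), IrrOn (stb σ) ψ → ∀ L : Subgroup C,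
    (Stx κ σ ψ ⊓ L.comap ρ).comap ι = stb σ ∧
    (Stx κ σ ψ ⊓ L.comap ρ).map ρ = KL κ ρ σ ψ L ∧
    (∃ f, ExtL ι κ ρ σ ψ L f) ∧
    (∀ f (lam : C → ℂ), LinOn (KL κ ρ σ ψ L) lam → ExtL ι κ ρ σ ψ L f →
      ExtL ι κ ρ σ ψ L (fun x => f x * lam (ρ x))) ∧
    (∀ f f', ExtL ι κ ρ σ ψ L f → ExtL ι κ ρ σ ψ L f' →
      ∃ lam : C → ℂ, LinOn (KL κ ρ σ ψ L) lam ∧ f' = fun x => f x * lam (ρ x)) ∧
    ∀ L' ≤ L, ∀ f, ExtL ι κ ρ σ ψ L f → ExtL ι κ ρ σ ψ L' (trn ρ L' f)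

/-- BETV: twists of the central functions; the class is determined by one member; truncation. -/
def Stmt_BETV : Prop :=
  ∀ (G B C : Type) [Group G] [Fintype G] [Group B] [Fintype B] [Group C]
    (𝔐 : Ideal (integralClosure ℤ ℂ))
    (ι : G →* B) (κ : B →* MulAut G) (ρ : B →* C), LocV ι κ ρ →
    (∀ (S : Subgroup B) (f : B → ℂ), IrrOn S f → IrrOn (S.comap ι) (fun h => f (ι h)) →
      ∀ lam : C → ℂ, LinOn (S.map ρ) lam → ∀ x : B,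
        cgT 𝔐 ι.range (fun y => f y * lam (ρ y)) x =
          red 𝔐 (lam (ρ x)) * cgT 𝔐 ι.range f x) ∧
    (∀ (σ σ' : Finset (Subgroup G)) (ψ ψ' : G → ℂ), IrrOn (stb σ) ψ → IrrOn (stb σ') ψ' →
      ∀ L : Subgroup C, L ≤ (Stx κ σ ψ).map ρ → L ≤ (Stx κ σ' ψ').map ρ →
      ∀ f f' : B → ℂ, ExtL ι κ ρ σ ψ L f → ExtL ι κ ρ σ' ψ' L f' →
      cgT 𝔐 ι.range f = cgT 𝔐 ι.range f' → bet 𝔐 ι κ ρ σ ψ L = bet 𝔐 ι κ ρ σ' ψ' L) ∧
    ∀ (σ : Finset (Subgroup G)) (ψ : G → ℂ), IrrOn (stb σ) ψ → ∀ L' L : Subgroup C, L' ≤ L →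
      L ≤ (Stx κ σ ψ).map ρ → bet 𝔐 ι κ ρ σ ψ L' = trL 𝔐 ρ L' (bet 𝔐 ι κ ρ σ ψ L)

/-! ### The weighted sums -/

/-- ASV: the weighted sums over `Y` depend only on the central functions. -/
def Stmt_ASV : Prop :=
  ∀ (O G B C Y K : Type) [Fintype O] [DecidableEq O] [Group G] [Fintype G] [Group B] [Fintype B]
    [Group C] [Group Y] [Fintype Y] [Group K] (𝔐 : Ideal (integralClosure ℤ ℂ)) (ℓ : ℕ)
    [Fact ℓ.Prime], 𝔐.IsMaximal → (ℓ : integralClosure ℤ ℂ) ∈ 𝔐 →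
    ∀ (ι : G →* B) (κ : B →* MulAut G) (ρ : B →* C), LocV ι κ ρ →
    ∀ (j : (O → G) →* Y) (p : Y →* K) (φ : Y →* Gam (Equiv.Perm O) O B), ExtS ι κ j p φ →
    ∀ (J : Subgroup K) (U : O → Subgroup C) (g g' : O → B) (S S' : O → Subgroup B)
      (θ θ' : O → B → ℂ) (m m' : O → ℕ) (M M' : O → B → ℕ → ℕ → ℂ),
      SDV ℓ ι ρ p φ J U g S θ m M → SDV ℓ ι ρ p φ J U g' S' θ' m' M' →
      (∀ o, ρ (g' o) = ρ (g o)) → (∀ o, cgT 𝔐 ι.range (θ o) = cgT 𝔐 ι.range (θ' o)) →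
      ∀ k ∈ J, ∀ F : Y → ℂ, (∀ y x, F (y * x * y⁻¹) = F x) → (∀ y, IsIntegral ℤ (F y)) →
        IsIntegral ℤ (AS p φ g S θ m M k F) ∧ IsIntegral ℤ (AS p φ g' S' θ' m' M' k F) ∧
        red 𝔐 (AS p φ g S θ m M k F) = red 𝔐 (AS p φ g' S' θ' m' M' k F)

/-- ASCV: the weighted sums form a class function. -/
def Stmt_ASCV : Prop :=
  ∀ (O G B C Y K : Type) [Fintype O] [DecidableEq O] [Group G] [Fintype G] [Group B] [Fintype B]
    [Group C] [Group Y] [Fintype Y] [Group K] (ℓ : ℕ)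
    (ι : G →* B) (κ : B →* MulAut G) (ρ : B →* C), LocV ι κ ρ →
    ∀ (j : (O → G) →* Y) (p : Y →* K) (φ : Y →* Gam (Equiv.Perm O) O B), ExtS ι κ j p φ →
    ∀ (J : Subgroup K) (U : O → Subgroup C) (g : O → B) (S : O → Subgroup B)
      (θ : O → B → ℂ) (m : O → ℕ) (M : O → B → ℕ → ℕ → ℂ), SDV ℓ ι ρ p φ J U g S θ m M →
      ∀ k ∈ J, ∀ l ∈ J, ∀ F : Y → ℂ, (∀ y x, F (y * x * y⁻¹) = F x) →
        AS p φ g S θ m M (l * k * l⁻¹) F = AS p φ g S θ m M k F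

/-- TWV: twists of standard data. -/
def Stmt_TWV : Prop :=
  ∀ (O G B C Y K X : Type) [Fintype O] [DecidableEq O] [Group G] [Fintype G] [Group B]
    [Fintype B] [Group C] [Group Y] [Fintype Y] [Group K] [Finite K] [Group X]
    (𝔐 : Ideal (integralClosure ℤ ℂ)) (ℓ : ℕ)
    (ι : G →* B) (κ : B →* MulAut G) (ρ : B →* C), LocV ι κ ρ →
    ∀ (j : (O → G) →* Y) (p : Y →* K) (φ : Y →* Gam (Equiv.Perm O) O B), ExtS ι κ j p φ →
    ∀ (J : Subgroup K) (U : O → Subgroup C) (g : O → B) (S : O → Subgroup B)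
      (θ : O → B → ℂ) (m : O → ℕ) (M : O → B → ℕ → ℕ → ℂ), SDV ℓ ι ρ p φ J U g S θ m M →
      ∀ lam : O → C → ℂ, (∀ o, LinOn (U o) (lam o)) →
      (∀ y, p y ∈ J → ∀ o, lam ((φ y).right • o) = lam o) →
      SDV ℓ ι ρ p φ J U g S (fun o x => θ o x * lam o (ρ x)) m
        (fun o x a b => M o x a b * lam o (ρ x)) ∧
      ∀ (d e : ℕ) (i : Y →* X) (ω : X → (integralClosure ℤ ℂ) ⧸ 𝔐),
        NNR 𝔐 ℓ d i ω p φ J e g S (fun o x => θ o x * lam o (ρ x)) m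
          (fun o x a b => M o x a b * lam o (ρ x)) =
        NNR 𝔐 ℓ d i ω p φ J e g S θ m M

/-- MINV: the count depends only on the classes of the central functions. -/
def Stmt_MINV : Prop :=
  ∀ (O G B C Y K X : Type) [Fintype O] [DecidableEq O] [Group G] [Fintype G] [Group B]
    [Fintype B] [Group C] [Group Y] [Fintype Y] [Group K] [Finite K] [Group X]
    (𝔐 : Ideal (integralClosure ℤ ℂ)) (ℓ : ℕ) [Fact ℓ.Prime], 𝔐.IsMaximal →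
    (ℓ : integralClosure ℤ ℂ) ∈ 𝔐 →
    ∀ (ι : G →* B) (κ : B →* MulAut G) (ρ : B →* C), LocV ι κ ρ →
    ∀ (j : (O → G) →* Y) (p : Y →* K) (φ : Y →* Gam (Equiv.Perm O) O B), ExtS ι κ j p φ →
    ∀ (J : Subgroup K) (U : O → Subgroup C) (g g' : O → B) (S S' : O → Subgroup B)
      (θ θ' : O → B → ℂ) (m m' : O → ℕ) (M M' : O → B → ℕ → ℕ → ℂ),
      SDV ℓ ι ρ p φ J U g S θ m M → SDV ℓ ι ρ p φ J U g' S' θ' m' M' →
      (∀ o, ρ (g' o) = ρ (g o)) →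
      (∀ o, ∃ lam : C → ℂ, LinOn (U o) lam ∧ cgT 𝔐 ι.range (θ' o) =
        cgT 𝔐 ι.range (fun x => θ o x * lam (ρ x))) →
      ∀ (d e : ℕ) (i : Y →* X) (ω : X → (integralClosure ℤ ℂ) ⧸ 𝔐),
        NNR 𝔐 ℓ d i ω p φ J e g' S' θ' m' M' = NNR 𝔐 ℓ d i ω p φ J e g S θ m M

/-! ### Clifford theory for the stabilizers of the chains -/

/-- TRV: transporters. -/
def Stmt_TRV : Prop :=
  ∀ (O G B C : Type) [Fintype O] [DecidableEq O] [Group G] [Fintype G] [Group B] [Fintype B]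
    [Group C] (𝔐 : Ideal (integralClosure ℤ ℂ)) (ℓ : ℕ) [Fact ℓ.Prime]
    (ι : G →* B) (κ : B →* MulAut G) (ρ : B →* C), LocV ι κ ρ →
    ∀ (τ : Finset (Subgroup (O → G))) (θ : O → G → ℂ), (∀ o, IrrOn (stb (comp τ o)) (θ o)) →
    (∀ o g, trB κ τ θ o o g ↔ g ∈ Stx κ (comp τ o) (θ o)) ∧
    (∀ a b g, trB κ τ θ a b g →
      (stb (comp τ a)).map (κ g).toMonoidHom = stb (comp τ b) ∧
      df ℓ (stb (comp τ a)) (θ a) = df ℓ (stb (comp τ b)) (θ b) ∧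
      (Stx κ (comp τ a) (θ a)).map (MulAut.conj g).toMonoidHom = Stx κ (comp τ b) (θ b) ∧
      Nat.card {h : B // trB κ τ θ a b h ∧ ρ h = ρ g} = Nat.card (stb (comp τ b)) ∧
      (∀ (L : Subgroup C) (f : B → ℂ), ExtL ι κ ρ (comp τ a) (θ a) L f →
        ExtL ι κ ρ (comp τ b) (θ b) (L.map (MulAut.conj (ρ g)).toMonoidHom)
          (fun x => f (g⁻¹ * x * g))) ∧
      ∀ L : Subgroup C,
        bet 𝔐 ι κ ρ (comp τ b) (θ b) (L.map (MulAut.conj (ρ g)).toMonoidHom) =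
          (fun b0 x => b0 (g⁻¹ * x * g)) '' bet 𝔐 ι κ ρ (comp τ a) (θ a) L)

/-- PERAV: the inertia group. -/
def Stmt_PERAV : Prop :=
  ∀ (O G B C Y K : Type) [Fintype O] [DecidableEq O] [Group G] [Fintype G] [Group B] [Fintype B]
    [Group C] [Group Y] [Fintype Y] [Group K] [Finite K] (ℓ : ℕ) [Fact ℓ.Prime]
    (ι : G →* B) (κ : B →* MulAut G) (ρ : B →* C), LocV ι κ ρ →
    ∀ (j : (O → G) →* Y) (p : Y →* K) (φ : Y →* Gam (Equiv.Perm O) O B)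
      (h : ExtS ι κ j p φ), ∀ τ ∈ ClCh O G ℓ, ∀ θ : O → G → ℂ,
      (∀ o, IrrOn (stb (comp τ o)) (θ o)) →
      InY κ φ τ θ ≤ YS j τ ∧
      (∀ y : YS j τ, y ∈ inert (cS h.cl τ) (fun a => ∏ o, θ o ((a : O → G) o)) ↔
        (y : Y) ∈ InY κ φ τ θ) ∧
      (inert (cS h.cl τ) (fun a => ∏ o, θ o ((a : O → G) o))).map (pS p j τ) =
        KB κ p φ τ θ ∧
      Nat.card (inert (cS h.cl τ) (fun a => ∏ o, θ o ((a : O → G) o))) =
        Nat.card (KB κ p φ τ θ) * ∏ o, Nat.card (stb (comp τ o)) ∧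
      ∀ o, vg ρ p φ (KB κ p φ τ θ) o ≤ (Stx κ (comp τ o) (θ o)).map ρ

/-- REPV: representatives, and vertex groups along orbits. -/
def Stmt_REPV : Prop :=
  ∀ (O G B C Y K : Type) [Fintype O] [DecidableEq O] [Group G] [Fintype G] [Group B] [Fintype B]
    [Group C] [Group Y] [Fintype Y] [Group K]
    (ι : G →* B) (κ : B →* MulAut G) (ρ : B →* C), LocV ι κ ρ →
    ∀ (j : (O → G) →* Y) (p : Y →* K) (φ : Y →* Gam (Equiv.Perm O) O B), ExtS ι κ j p φ →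
    ∀ J : Subgroup K, (∃ (r : O → O) (t : O → Y), RepJ p φ J r t) ∧
      (∀ y, p y ∈ J → ∀ o, vg ρ p φ J ((φ y).right • o) =
        (vg ρ p φ J o).map
          (MulAut.conj (ρ ((φ y).left ((φ y).right • o)))).toMonoidHom) ∧
      ∀ (r : O → O) (t : O → Y), RepJ p φ J r t →
        (∀ o, r (r o) = r o) ∧
        (∀ o, vg ρ p φ J o =
          (vg ρ p φ J (r o)).map (MulAut.conj (ρ ((φ (t o)).left o))).toMonoidHom) ∧
        ∀ y, p y ∈ J → ∀ g : O → B, (∀ o, ρ (g o) = ρ ((φ (t o)).left o)) →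
          ∀ o, ρ (zz φ g y o) ∈ vg ρ p φ J (r o)

/-- PERBV: standardization. -/
def Stmt_PERBV : Prop :=
  ∀ (O G B C Y K : Type) [Fintype O] [DecidableEq O] [Group G] [Fintype G] [Group B] [Fintype B]
    [Group C] [Group Y] [Fintype Y] [Group K] [Finite K] (ℓ : ℕ) [Fact ℓ.Prime]
    (ι : G →* B) (κ : B →* MulAut G) (ρ : B →* C), LocV ι κ ρ →
    ∀ (j : (O → G) →* Y) (p : Y →* K) (φ : Y →* Gam (Equiv.Perm O) O B), ExtS ι κ j p φ →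
    ∀ τ ∈ ClCh O G ℓ, ∀ θ : O → G → ℂ, (∀ o, IrrOn (stb (comp τ o)) (θ o)) →
    ∀ (r : O → O) (t : O → Y), RepJ p φ (KB κ p φ τ θ) r t →
      ∃ (g : O → B) (S : O → Subgroup B) (f : O → B → ℂ) (m : O → ℕ)
        (M : O → B → ℕ → ℕ → ℂ), StdV ℓ ι κ ρ p φ τ θ r t g S f m M

/-- PERCV: the extension to the inertia group, in terms of standard data. -/
def Stmt_PERCV : Prop :=
  ∀ (O G B C Y K : Type) [Fintype O] [DecidableEq O] [Group G] [Fintype G] [Group B] [Fintype B]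
    [Group C] [Group Y] [Fintype Y] [Group K] [Finite K] (ℓ : ℕ) [Fact ℓ.Prime]
    (ι : G →* B) (κ : B →* MulAut G) (ρ : B →* C), LocV ι κ ρ →
    ∀ (j : (O → G) →* Y) (p : Y →* K) (φ : Y →* Gam (Equiv.Perm O) O B)
      (h : ExtS ι κ j p φ), ∀ τ ∈ ClCh O G ℓ, ∀ θ : O → G → ℂ,
      (∀ o, IrrOn (stb (comp τ o)) (θ o)) →
    ∀ (r : O → O) (t : O → Y) (g : O → B) (S : O → Subgroup B) (f : O → B → ℂ) (m : O → ℕ)
      (M : O → B → ℕ → ℕ → ℂ), StdV ℓ ι κ ρ p φ τ θ r t g S f m M →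
      (∀ y : Y, (p y ∈ KB κ p φ τ θ ∧ ∀ o, zz φ g y o ∈ S o) ↔ y ∈ InY κ φ τ θ) ∧
      ∃ E : inert (cS h.cl τ) (fun a => ∏ o, θ o ((a : O → G) o)) → ℂ, IsChr E ∧
        (∀ a (ha : jS h.cl τ a ∈ inert (cS h.cl τ) (fun a => ∏ o, θ o ((a : O → G) o))),
          E ⟨jS h.cl τ a, ha⟩ = ∏ o, θ o ((a : O → G) o)) ∧
        ∀ η : KB κ p φ τ θ → ℂ, IsIrr η → ∀ F : Y → ℂ, (∀ y x, F (y * x * y⁻¹) = F x) →
          wt (fun s => E s * ext0 η (pS p j τ s)) (fun s => F ((s : YS j τ) : Y)) =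
            wt η (fun k => AS p φ g S f m M (k : K) F)

/-- PERDV: the count for one character of the base group. -/
def Stmt_PERDV : Prop :=
  ∀ (O G B C Y K X : Type) [Fintype O] [DecidableEq O] [Group G] [Fintype G] [Group B]
    [Fintype B] [Group C] [Group Y] [Fintype Y] [Group K] [Finite K] [Group X]
    (𝔐 : Ideal (integralClosure ℤ ℂ)) (ℓ : ℕ) [Fact ℓ.Prime]
    (ι : G →* B) (κ : B →* MulAut G) (ρ : B →* C), LocV ι κ ρ →
    ∀ (j : (O → G) →* Y) (p : Y →* K) (φ : Y →* Gam (Equiv.Perm O) O B)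
      (h : ExtS ι κ j p φ), ∀ τ ∈ ClCh O G ℓ, ∀ θ : O → G → ℂ,
      (∀ o, IrrOn (stb (comp τ o)) (θ o)) →
    ∀ (r : O → O) (t : O → Y) (g : O → B) (S : O → Subgroup B) (f : O → B → ℂ) (m : O → ℕ)
      (M : O → B → ℕ → ℕ → ℂ), StdV ℓ ι κ ρ p φ τ θ r t g S f m M →
      ∃ E : inert (cS h.cl τ) (fun a => ∏ o, θ o ((a : O → G) o)) → ℂ, IsChr E ∧
        (∀ a (ha : jS h.cl τ a ∈ inert (cS h.cl τ) (fun a => ∏ o, θ o ((a : O → G) o))),
          E ⟨jS h.cl τ a, ha⟩ = ∏ o, θ o ((a : O → G) o)) ∧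
        ∀ (d : ℕ) (i : Y →* X) (ω : X → (integralClosure ℤ ℂ) ⧸ 𝔐),
          (Nat.card (inert (cS h.cl τ) (fun a => ∏ o, θ o ((a : O → G) o))) : ℚ) *
            Nat.card {η : KB κ p φ τ θ → ℂ // IsIrr η ∧
              (HasDefect ℓ (indc (inert (cS h.cl τ) (fun a => ∏ o, θ o ((a : O → G) o)))
                  (fun s => E s * ext0 η (pS p j τ s))) d ∧
                ∀ x, cen 𝔐 (i.comp (YS j τ).subtype)
                  (indc (inert (cS h.cl τ) (fun a => ∏ o, θ o ((a : O → G) o)))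
                    (fun s => E s * ext0 η (pS p j τ s))) x = ω x)} =
            (∏ o, (Nat.card (stb (comp τ o)) : ℚ)) *
              NNR 𝔐 ℓ d i ω p φ (KB κ p φ τ θ) (∑ o, df ℓ (stb (comp τ o)) (θ o)) g S f m M

/-- CLIFFV: Clifford theory for the stabilizers of the chains of the base group. -/
def Stmt_CLIFFV : Prop :=
  ∀ (O G B C Y K X : Type) [Fintype O] [DecidableEq O] [Group G] [Fintype G] [Group B]
    [Fintype B] [Group C] [Group Y] [Fintype Y] [Group K] [Finite K] [Group X]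
    (𝔐 : Ideal (integralClosure ℤ ℂ)) (ℓ : ℕ) [Fact ℓ.Prime], 𝔐.IsMaximal →
    (ℓ : integralClosure ℤ ℂ) ∈ 𝔐 →
    ∀ (ι : G →* B) (κ : B →* MulAut G) (ρ : B →* C), LocV ι κ ρ →
    ∀ (j : (O → G) →* Y) (p : Y →* K) (φ : Y →* Gam (Equiv.Perm O) O B)
      (h : ExtS ι κ j p φ) (d : ℕ) (i : Y →* X) (ω : X → (integralClosure ℤ ℂ) ⧸ 𝔐),
    ∃ Φ : Subgroup K → ℕ → (O → Set (B → (integralClosure ℤ ℂ) ⧸ 𝔐)) → ℚ,
      (∀ τ ∈ ClCh O G ℓ,
        (Nat.card (YS j τ) : ℚ) * cnt 𝔐 ℓ d (i.comp (YS j τ).subtype) ω =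
        (∏ o, (Nat.card (stb (comp τ o)) : ℚ)) *
          ∑ θ ∈ Fintype.piFinset (fun o => irrOn (stb (comp τ o))),
            Φ (KB κ p φ τ θ) (∑ o, df ℓ (stb (comp τ o)) (θ o))
              (bts 𝔐 ι κ ρ p φ τ θ (KB κ p φ τ θ))) ∧
      ∀ J e β, Φ J e β ≠ 0 → ∃ τ ∈ ClCh O G ℓ, ∃ θ : O → G → ℂ,
        (∀ o, IrrOn (stb (comp τ o)) (θ o)) ∧ bts 𝔐 ι κ ρ p φ τ θ J = β ∧
        ∃ ψ : YS j τ → ℂ, IsIrr ψ ∧ (∀ x, cen 𝔐 (i.comp (YS j τ).subtype) ψ x = ω x) ∧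
          ip (resj (jS h.cl τ) ψ) (fun a => ∏ o, θ o ((a : O → G) o)) ≠ 0

/-! ### Combinatorics -/

/-- LIFTV: the conditions on the data are conditions on the representatives. -/
def Stmt_LIFTV : Prop :=
  ∀ (O G B C Y K : Type) [Fintype O] [DecidableEq O] [Group G] [Fintype G] [Group B] [Fintype B]
    [Group C] [Group Y] [Fintype Y] [Group K] [Finite K]
    (𝔐 : Ideal (integralClosure ℤ ℂ)) (ℓ : ℕ) [Fact ℓ.Prime]
    (ι : G →* B) (κ : B →* MulAut G) (ρ : B →* C), LocV ι κ ρ →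
    ∀ (j : (O → G) →* Y) (p : Y →* K) (φ : Y →* Gam (Equiv.Perm O) O B), ExtS ι κ j p φ →
    ∀ (J : Subgroup K) (r : O → O) (t : O → Y), RepJ p φ J r t →
    ∀ τ ∈ ClCh O G ℓ, ∀ θ : O → G → ℂ, (∀ o, IrrOn (stb (comp τ o)) (θ o)) →
    ∀ g : O → B, (∀ o, ρ (g o) = ρ ((φ (t o)).left o)) → (∀ o, trB κ τ θ (r o) o (g o)) →
      (J ≤ KB κ p φ τ θ ↔
        ∀ o, vg ρ p φ J (r o) ≤ (Stx κ (comp τ (r o)) (θ (r o))).map ρ) ∧
      ∀ o, bts 𝔐 ι κ ρ p φ τ θ J o =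
        (fun b0 x => b0 (((φ (t o)).left o)⁻¹ * x * (φ (t o)).left o)) ''
          bts 𝔐 ι κ ρ p φ τ θ J (r o)

open Classical in
/-- CNTV: the number of transports. -/
def Stmt_CNTV : Prop :=
  ∀ (O G B C Y K : Type) [Fintype O] [DecidableEq O] [Group G] [Fintype G] [Group B] [Fintype B]
    [Group C] [Group Y] [Fintype Y] [Group K] [Finite K]
    (ℓ : ℕ) [Fact ℓ.Prime] (ι : G →* B) (κ : B →* MulAut G) (ρ : B →* C), LocV ι κ ρ →
    ∀ (j : (O → G) →* Y) (p : Y →* K) (φ : Y →* Gam (Equiv.Perm O) O B), ExtS ι κ j p φ →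
    ∀ (J : Subgroup K) (r : O → O) (t : O → Y), RepJ p φ J r t →
    ∀ τ ∈ ClCh O G ℓ, ∀ θ : O → G → ℂ, (∀ o, IrrOn (stb (comp τ o)) (θ o)) →
      J ≤ KB κ p φ τ θ →
      Nat.card {g : O → B // (∀ o, r o = o → g o = 1) ∧
        (∀ o, ρ (g o) = ρ ((φ (t o)).left o)) ∧ ∀ o, trB κ τ θ (r o) o (g o)} =
        ∏ o ∈ Finset.univ.filter (fun o => r o ≠ o), Nat.card (stb (comp τ o))

open Classical in
/-- TJV: the sum over the data whose group contains `J` vanishes. -/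
def Stmt_TJV : Prop :=
  ∀ (O G B C Y K : Type) [Fintype O] [DecidableEq O] [Group G] [Fintype G] [Group B] [Fintype B]
    [Group C] [Group Y] [Fintype Y] [Group K] [Finite K]
    (𝔐 : Ideal (integralClosure ℤ ℂ)) (ℓ : ℕ) [Fact ℓ.Prime], 𝔐.IsMaximal →
    (ℓ : integralClosure ℤ ℂ) ∈ 𝔐 →
    ∀ (ι : G →* B) (κ : B →* MulAut G) (ρ : B →* C), LocV ι κ ρ →
    (∀ (L : Subgroup C) (β : Set (B → (integralClosure ℤ ℂ) ⧸ 𝔐)) (e : ℕ),
      ¬ dzT 𝔐 ℓ ι β → VS 𝔐 ℓ ι κ ρ L β e = 0) →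
    ∀ (j : (O → G) →* Y) (p : Y →* K) (φ : Y →* Gam (Equiv.Perm O) O B), ExtS ι κ j p φ →
    ∀ (J : Subgroup K) (e : ℕ) (β : O → Set (B → (integralClosure ℤ ℂ) ⧸ 𝔐)),
      (∃ o, ¬ dzT 𝔐 ℓ ι (β o)) →
      ∑ τ ∈ ClCh O G ℓ, (-1 : ℚ) ^ τ.card * ((∏ o, (Nat.card (stb (comp τ o)) : ℚ)) *
        ∑ θ ∈ Fintype.piFinset (fun o => irrOn (stb (comp τ o))),
          (if J ≤ KB κ p φ τ θ ∧ ∑ o, df ℓ (stb (comp τ o)) (θ o) = e ∧
            bts 𝔐 ι κ ρ p φ τ θ J = β then 1 else 0)) = 0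

open Classical in
/-- COMBV: the vanishing of the combinatorial sum. -/
def Stmt_COMBV : Prop :=
  ∀ (O G B C Y K : Type) [Fintype O] [DecidableEq O] [Group G] [Fintype G] [Group B] [Fintype B]
    [Group C] [Group Y] [Fintype Y] [Group K] [Finite K]
    (𝔐 : Ideal (integralClosure ℤ ℂ)) (ℓ : ℕ) [Fact ℓ.Prime]
    (ι : G →* B) (κ : B →* MulAut G) (ρ : B →* C), LocV ι κ ρ →
    ∀ (j : (O → G) →* Y) (p : Y →* K) (φ : Y →* Gam (Equiv.Perm O) O B), ExtS ι κ j p φ →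
    (∀ (J : Subgroup K) (e : ℕ) (β : O → Set (B → (integralClosure ℤ ℂ) ⧸ 𝔐)),
      (∃ o, ¬ dzT 𝔐 ℓ ι (β o)) →
      ∑ τ ∈ ClCh O G ℓ, (-1 : ℚ) ^ τ.card * ((∏ o, (Nat.card (stb (comp τ o)) : ℚ)) *
        ∑ θ ∈ Fintype.piFinset (fun o => irrOn (stb (comp τ o))),
          (if J ≤ KB κ p φ τ θ ∧ ∑ o, df ℓ (stb (comp τ o)) (θ o) = e ∧
            bts 𝔐 ι κ ρ p φ τ θ J = β then 1 else 0)) = 0) →
    ∀ Φ : Subgroup K → ℕ → (O → Set (B → (integralClosure ℤ ℂ) ⧸ 𝔐)) → ℚ,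
      (∀ J e β, Φ J e β ≠ 0 → ∃ o, ¬ dzT 𝔐 ℓ ι (β o)) →
      ∑ τ ∈ ClCh O G ℓ, (-1 : ℚ) ^ τ.card * ((∏ o, (Nat.card (stb (comp τ o)) : ℚ)) *
        ∑ θ ∈ Fintype.piFinset (fun o => irrOn (stb (comp τ o))),
          Φ (KB κ p φ τ θ) (∑ o, df ℓ (stb (comp τ o)) (θ o))
            (bts 𝔐 ι κ ρ p φ τ θ (KB κ p φ τ θ))) = 0

/-- BLKCV: only the empty chain contributes to products of defect zero. -/
def Stmt_BLKCV : Prop :=
  ∀ (O G B C Y K X : Type) [Fintype O] [DecidableEq O] [Group G] [Fintype G] [Group B]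
    [Fintype B] [Group C] [Group Y] [Fintype Y] [Group K] [Finite K] [Group X]
    (𝔐 : Ideal (integralClosure ℤ ℂ)) (ℓ : ℕ) [Fact ℓ.Prime], 𝔐.IsMaximal →
    (ℓ : integralClosure ℤ ℂ) ∈ 𝔐 →
    ∀ (ι : G →* B) (κ : B →* MulAut G) (ρ : B →* C), LocV ι κ ρ →
    ∀ (j : (O → G) →* Y) (p : Y →* K) (φ : Y →* Gam (Equiv.Perm O) O B)
      (h : ExtS ι κ j p φ) (i : Y →* X), ∀ τ ∈ ClCh O G ℓ, ∀ θ : O → G → ℂ,
      (∀ o, IrrOn (stb (comp τ o)) (θ o)) → ∀ ψ : YS j τ → ℂ, IsIrr ψ →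
      ip (resj (jS h.cl τ) ψ) (fun a => ∏ o, θ o ((a : O → G) o)) ≠ 0 →
      ∀ J : Subgroup K, (∀ o, dzT 𝔐 ℓ ι (bts 𝔐 ι κ ρ p φ τ θ J o)) →
      (∀ o, IsIrr (θ o)) ∧ (∀ o, HasDefect ℓ (θ o) 0) ∧
      ∃ ψ' : Y → ℂ, IsIrr ψ' ∧ ip (resj j ψ') (fun n => ∏ o, θ o (n o)) ≠ 0 ∧
        ∀ x, cen 𝔐 i ψ' x = cen 𝔐 (i.comp (YS j τ).subtype) ψ x

/-- INNV: the inner theorem. -/
def Stmt_INNV : Prop :=
  ∀ (O G B C Y K X : Type) [Fintype O] [DecidableEq O] [Group G] [Fintype G] [Group B]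
    [Fintype B] [Group C] [Group Y] [Fintype Y] [Group K] [Finite K] [Group X]
    (𝔐 : Ideal (integralClosure ℤ ℂ)) (ℓ : ℕ) [Fact ℓ.Prime], 𝔐.IsMaximal →
    (ℓ : integralClosure ℤ ℂ) ∈ 𝔐 →
    ∀ (ι : G →* B) (κ : B →* MulAut G) (ρ : B →* C), LocV ι κ ρ →
    (∀ (L : Subgroup C) (β : Set (B → (integralClosure ℤ ℂ) ⧸ 𝔐)) (e : ℕ),
      ¬ dzT 𝔐 ℓ ι β → VS 𝔐 ℓ ι κ ρ L β e = 0) →
    ∀ (j : (O → G) →* Y) (p : Y →* K) (φ : Y →* Gam (Equiv.Perm O) O B), ExtS ι κ j p φ →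
    ∀ (i : Y →* X) (ω : X → (integralClosure ℤ ℂ) ⧸ 𝔐),
      (∀ (ψ : Y → ℂ) (θ : O → G → ℂ), IsIrr ψ → (∀ o, IsIrr (θ o)) →
        (∀ o, HasDefect ℓ (θ o) 0) → ip (resj j ψ) (fun n => ∏ o, θ o (n o)) ≠ 0 →
        ¬ ∀ x, cen 𝔐 i ψ x = ω x) →
      ∀ d : ℕ, ∑ τ ∈ Ch ℓ (⊥ : Subgroup (O → G)), (-1 : ℚ) ^ τ.card *
        ((Nat.card (YS j τ) : ℚ) * cnt 𝔐 ℓ d (i.comp (YS j τ).subtype) ω) = 0

/-! ### Covering groups -/

/-- PRJA: a projective representation which extends a representation of a normal subgroup. -/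
def Stmt_PRJA : Prop :=
  ∀ (D S K : Type) [Group D] [Fintype D] [Group S] [Fintype S] [Group K] (j : D →* S)
    (c : S →* MulAut D) (p : S →* K), ClG j c p → ∀ (n : ℕ)
    (R : Representation ℂ D (Fin n → ℂ)), R.IsIrreducible →
    (∀ y a, R.character (c y a) = R.character a) →
    ∃ T : S → Module.End ℂ (Fin n → ℂ), (∀ a, T (j a) = R a) ∧
      (∀ a y, T (j a * y) = R a * T y) ∧ (∀ y a, T y * R a = R (c y a) * T y) ∧
      (∀ y, IsUnit (T y)) ∧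
      ∀ y y', ∃ ζ : ℂ, ζ ^ Nat.card p.range = 1 ∧ T y * T y' = ζ • T (y * y')

/-- PRJB: extension to a fibre product. -/
def Stmt_PRJB : Prop :=
  ∀ (D S K : Type) [Group D] [Fintype D] [Group S] [Fintype S] [Group K] (j : D →* S)
    (c : S →* MulAut D) (p : S →* K), ClG j c p → ∀ θ : D → ℂ, IsIrr θ →
    (∀ y a, θ (c y a) = θ a) →
    ∃ (Γ : Type) (_ : Group Γ) (_ : Finite Γ) (q : Γ →* K), q.range = p.range ∧
      (∀ r : ℕ, r.Prime → r ∣ Nat.card q.ker → r ∣ Nat.card p.range) ∧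
      ∃ f : S × Γ → ℂ,
        IsIrr (fun x : MonoidHom.eqLocus (p.comp (MonoidHom.fst S Γ))
          (q.comp (MonoidHom.snd S Γ)) => f x) ∧ ∀ a, f (j a, 1) = θ a

/-- FRG: a finite covering which factors through given groups. -/
def Stmt_FRG : Prop :=
  ∀ (C I : Type) [Group C] [Finite C] [Finite I] (ℓ : ℕ) [Fact ℓ.Prime] (Γ : I → Type)
    [∀ i, Group (Γ i)] [∀ i, Finite (Γ i)] (q : ∀ i, Γ i →* C),
    (∀ i, ¬ ℓ ∣ Nat.card (q i).ker) →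
    ∃ (C' : Type) (_ : Group C') (_ : Finite C') (π : C' →* C), Function.Surjective π ∧
      ¬ ℓ ∣ Nat.card π.ker ∧
      ∀ i, ∃ s : ↥((q i).range.comap π) →* Γ i, ∀ x, q i (s x) = π x

/-- HATG: a covering group for which all characters extend. -/
def Stmt_HATG : Prop :=
  ∀ (G B C : Type) [Group G] [Fintype G] [Group B] [Fintype B] [Group C] (ℓ : ℕ)
    [Fact ℓ.Prime] (ι : G →* B) (κ : B →* MulAut G) (ρ : B →* C), LocN ι κ ρ →
    ¬ ℓ ∣ Nat.card C →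
    ∃ (B' C' : Type) (_ : Group B') (_ : Fintype B') (_ : Group C') (ι' : G →* B')
      (κ' : B' →* MulAut G) (ρ' : B' →* C') (π : B' →* B), LocV ι' κ' ρ' ∧
      Function.Surjective π ∧ (∀ g, π (ι' g) = ι g) ∧ κ' = κ.comp π ∧
      ¬ ℓ ∣ Nat.card π.ker ∧ ¬ ℓ ∣ Nat.card C'

/-- HATY: the covering group of `Y`. -/
def Stmt_HATY : Prop :=
  ∀ (O G B C B' C' Y K : Type) [Fintype O] [DecidableEq O] [Group G] [Fintype G] [Group B]
    [Fintype B] [Group C] [Group B'] [Fintype B'] [Group C'] [Group Y] [Fintype Y] [Group K]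
    (ℓ : ℕ) [Fact ℓ.Prime]
    (ι : G →* B) (κ : B →* MulAut G) (ρ : B →* C), LocN ι κ ρ →
    ∀ (ι' : G →* B') (κ' : B' →* MulAut G) (ρ' : B' →* C') (π : B' →* B), LocN ι' κ' ρ' →
    Function.Surjective π → (∀ g, π (ι' g) = ι g) → κ' = κ.comp π → ¬ ℓ ∣ Nat.card π.ker →
    ∀ (j : (O → G) →* Y) (p : Y →* K) (φ : Y →* Gam (Equiv.Perm O) O B), ExtS ι κ j p φ →
    ∃ (Y' K' : Type) (_ : Group Y') (_ : Fintype Y') (_ : Group K') (_ : Finite K')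
      (j' : (O → G) →* Y') (p' : Y' →* K') (φ' : Y' →* Gam (Equiv.Perm O) O B')
      (q : Y' →* Y), ExtS ι' κ' j' p' φ' ∧ Function.Surjective q ∧
      (∀ n, q (j' n) = j n) ∧ ¬ ℓ ∣ Nat.card q.ker ∧
      ∀ τ : Finset (Subgroup (O → G)), YS j' τ = (YS j τ).comap q

/-- HATC: characters of a covering group with kernel of order prime to `ℓ`. -/
def Stmt_HATC : Prop :=
  ∀ (S' S X : Type) [Group S'] [Fintype S'] [Group S] [Fintype S] [Group X]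
    (𝔐 : Ideal (integralClosure ℤ ℂ)) (ℓ : ℕ) [Fact ℓ.Prime], 𝔐.IsMaximal →
    (ℓ : integralClosure ℤ ℂ) ∈ 𝔐 → ∀ (q : S' →* S) (i : S →* X), Function.Surjective q →
    ¬ ℓ ∣ Nat.card q.ker → ∀ ω : X → (integralClosure ℤ ℂ) ⧸ 𝔐, (∃ x, ω x ≠ 0) →
    (∀ ψ' : S' → ℂ, IsIrr ψ' →
      (∀ x, cen 𝔐 (i.comp q) ψ' x = (Nat.card q.ker : (integralClosure ℤ ℂ) ⧸ 𝔐) * ω x) →
      ∃ ψ : S → ℂ, IsIrr ψ ∧ (∀ y, ψ' y = ψ (q y)) ∧ ∀ x, cen 𝔐 i ψ x = ω x) ∧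
    ∀ d, cnt 𝔐 ℓ d (i.comp q)
      (fun x => (Nat.card q.ker : (integralClosure ℤ ℂ) ⧸ 𝔐) * ω x) = cnt 𝔐 ℓ d i ω

/-- HATI: the inner theorem for a group whose covering group has extendible characters. -/
def Stmt_HATI : Prop :=
  ∀ (O G B C B' C' Y K X : Type) [Fintype O] [DecidableEq O] [Group G] [Fintype G] [Group B]
    [Fintype B] [Group C] [Group B'] [Fintype B'] [Group C'] [Group Y] [Fintype Y] [Group K]
    [Group X] (𝔐 : Ideal (integralClosure ℤ ℂ)) (ℓ : ℕ) [Fact ℓ.Prime], 𝔐.IsMaximal →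
    (ℓ : integralClosure ℤ ℂ) ∈ 𝔐 →
    ∀ (ι : G →* B) (κ : B →* MulAut G) (ρ : B →* C), LocN ι κ ρ →
    ∀ (ι' : G →* B') (κ' : B' →* MulAut G) (ρ' : B' →* C') (π : B' →* B), LocV ι' κ' ρ' →
    Function.Surjective π → (∀ g, π (ι' g) = ι g) → κ' = κ.comp π → ¬ ℓ ∣ Nat.card π.ker →
    (∀ (L : Subgroup C') (β : Set (B' → (integralClosure ℤ ℂ) ⧸ 𝔐)) (e : ℕ),
      ¬ dzT 𝔐 ℓ ι' β → VS 𝔐 ℓ ι' κ' ρ' L β e = 0) →
    ∀ (j : (O → G) →* Y) (p : Y →* K) (φ : Y →* Gam (Equiv.Perm O) O B), ExtS ι κ j p φ →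
    ∀ (i : Y →* X), Function.Injective i → ∀ (ω : X → (integralClosure ℤ ℂ) ⧸ 𝔐),
      (∀ (ψ : Y → ℂ) (θ : O → G → ℂ), IsIrr ψ → (∀ o, IsIrr (θ o)) →
        (∀ o, HasDefect ℓ (θ o) 0) → ip (resj j ψ) (fun n => ∏ o, θ o (n o)) ≠ 0 →
        ¬ ∀ x, cen 𝔐 i ψ x = ω x) →
      ∀ d : ℕ, ∑ τ ∈ Ch ℓ (⊥ : Subgroup (O → G)), (-1 : ℚ) ^ τ.card *
        ((Nat.card (YS j τ) : ℚ) * cnt 𝔐 ℓ d (i.comp (YS j τ).subtype) ω) = 0

/-! ### The outer layer -/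

/-- RINAV: the centralizer of an `ℓ`-subgroup. -/
def Stmt_RINAV : Prop :=
  ∀ (Ω G B C X K : Type) [Fintype Ω] [DecidableEq Ω] [Group G] [Fintype G] [Group B]
    [Fintype B] [Group C] [Group X] [Fintype X] [Group K] (ℓ : ℕ) [Fact ℓ.Prime]
    (ι : G →* B) (κ : B →* MulAut G) (ρ : B →* C), LocA ℓ ι κ ρ →
    ∀ (e : (Ω → G) →* X) (p : X →* K) (φ : X →* Gam (Equiv.Perm Ω) Ω B), ExtS ι κ e p φ →
    ∀ Q : Subgroup X, IsPGroup ℓ Q → Q ⊓ e.range = ⊥ → pCore ℓ (cN e.range Q) = ⊥ →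
    ∃ (O : Type) (_ : Fintype O) (_ : DecidableEq O) (π : Ω → O) (u : Ω → B),
      Function.Surjective π ∧ (∀ w w', π w = π w' ↔ ∃ q ∈ Q, (φ q).right • w = w') ∧
      (∀ o, ∃ k, Nat.card {w : Ω // π w = o} = ℓ ^ k) ∧
      (∀ q ∈ Q, ∀ w, u ((φ q).right • w) = (φ q).left ((φ q).right • w) * u w) ∧
      ∀ n : Ω → G, e n ∈ Subgroup.centralizer (Q : Set X) ↔
        ∃ n' : O → G, n = fun w => κ (u w) (n' (π w))

/-- RINBV: the action of a group normalizing `Q` on the centralizer. -/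
def Stmt_RINBV : Prop :=
  ∀ (Ω G B C X K O : Type) [Fintype Ω] [DecidableEq Ω] [Group G] [Fintype G] [Group B]
    [Fintype B] [Group C] [Group X] [Fintype X] [Group K] [Fintype O] [DecidableEq O]
    (ℓ : ℕ) [Fact ℓ.Prime]
    (ι : G →* B) (κ : B →* MulAut G) (ρ : B →* C), LocA ℓ ι κ ρ →
    ∀ (e : (Ω → G) →* X) (p : X →* K) (φ : X →* Gam (Equiv.Perm Ω) Ω B), ExtS ι κ e p φ →
    ∀ Q : Subgroup X, Q ⊓ e.range = ⊥ →
    ∀ (π : Ω → O) (u : Ω → B),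
      Function.Surjective π → (∀ w w', π w = π w' ↔ ∃ q ∈ Q, (φ q).right • w = w') →
      (∀ q ∈ Q, ∀ w, u ((φ q).right • w) = (φ q).left ((φ q).right • w) * u w) →
      (∀ n : Ω → G, e n ∈ Subgroup.centralizer (Q : Set X) ↔
        ∃ n' : O → G, n = fun w => κ (u w) (n' (π w))) →
    ∀ Y : Subgroup X, (∀ y ∈ Y, Q.map (MulAut.conj y).toMonoidHom = Q) →
      cN e.range Q ≤ Y →
      ∃ (K' : Type) (_ : Group K') (_ : Finite K') (j : (O → G) →* Y) (p' : Y →* K')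
        (φ' : Y →* Gam (Equiv.Perm O) O B), ExtS ι κ j p' φ' ∧
        (∀ n : O → G, ((j n : Y) : X) = e (fun w => κ (u w) (n (π w)))) ∧
        (∀ y : Y, (y : X) ∈ e.range → y ∈ j.range) ∧
        ∀ y : Y, (y : X) ∈ cN e.range Q ↔ y ∈ j.range

/-- RINNV: the inner sum of an outer chain. -/
def Stmt_RINNV : Prop :=
  ∀ (Ω G B C X K : Type) [Fintype Ω] [DecidableEq Ω] [Group G] [Fintype G] [Group B]
    [Fintype B] [Group C] [Group X] [Fintype X] [Group K] (ℓ : ℕ) [Fact ℓ.Prime]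
    (ι : G →* B) (κ : B →* MulAut G) (ρ : B →* C), LocA ℓ ι κ ρ →
    ∀ (e : (Ω → G) →* X) (p : X →* K) (φ : X →* Gam (Equiv.Perm Ω) Ω B), ExtS ι κ e p φ →
    ∀ Z : Subgroup X, Z.Normal → IsPGroup ℓ Z → Z ⊓ e.range = ⊥ →
    ∀ c : Finset (Subgroup X), IsCh ℓ Z c → (∀ D ∈ c, D ⊓ e.range = ⊥) →
      pCore ℓ (cN e.range (tp Z c)) ≠ ⊥ ∨
      ∃ (O K' : Type) (_ : Fintype O) (_ : DecidableEq O) (_ : Group K') (_ : Finite K')
        (π : Ω → O) (u : Ω → B) (j : (O → G) →* stb c) (p' : stb c →* K')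
        (φ' : stb c →* Gam (Equiv.Perm O) O B), ExtS ι κ j p' φ' ∧
        Function.Surjective π ∧ (∀ o, ∃ k, Nat.card {w : Ω // π w = o} = ℓ ^ k) ∧
        (∀ n : O → G, ((j n : stb c) : X) = e (fun w => κ (u w) (n (π w)))) ∧
        (∀ y : stb c, (y : X) ∈ e.range → y ∈ j.range) ∧
        ∀ W : Subgroup X → ℚ, innerS ℓ Z e.range W c =
          ∑ τ ∈ Ch ℓ (⊥ : Subgroup (O → G)), (-1 : ℚ) ^ τ.card *
            W ((YS j τ).map (stb c).subtype)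

/-- RX0V: the structure of `X`. -/
def Stmt_RX0V : Prop :=
  ∀ (G X Ω : Type) [Group G] [Finite G] [Group X] [Finite X] [Finite Ω] (ℓ : ℕ) [Fact ℓ.Prime],
    pCore ℓ G = ⊥ → Subgroup.center G = ⊥ → Nontrivial G →
    ∀ A : Subgroup (MulAut G), (MulAut.conj : G →* MulAut G).range ≤ A →
      ¬ ℓ ∣ (MulAut.conj : G →* MulAut G).range.relIndex A →
      ∀ e : (Ω → G) →* X, Function.Injective e →
      (∀ y : X, ∃ (s : Equiv.Perm Ω) (α : Ω → MulAut G), (∀ i, α i ∈ A) ∧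
        ∀ x : Ω → G, y * e x * y⁻¹ = e (fun i => α i (x (s i)))) →
      ∃ (B C K : Type) (_ : Group B) (_ : Fintype B) (_ : Group C) (_ : Group K)
        (ι : G →* B) (κ : B →* MulAut G) (ρ : B →* C) (p : X →* K)
        (φ : X →* Gam (Equiv.Perm Ω) Ω B), LocA ℓ ι κ ρ ∧ ExtS ι κ e p φ

/-! ### Local theory for groups with Sylow subgroups of order `ℓ` -/

/-- EXPV: expansion in class indicators. -/
def Stmt_EXPV : Prop :=
  ∀ (G B : Type) [Group G] [Fintype G] [Group B] [Fintype B]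
    (𝔐 : Ideal (integralClosure ℤ ℂ)) (ι : G →* B) (f f' : B → ℂ),
    (∀ t, IsIntegral ℤ ((∑ x, cjT ι.range x t * f x) / f 1)) →
    (∀ t, IsIntegral ℤ ((∑ x, cjT ι.range x t * f' x) / f' 1)) →
    ∀ a : B → ℂ, (∀ g x, a (ι g * x * (ι g)⁻¹) = a x) → (∀ x, IsIntegral ℤ (a x)) →
      IsIntegral ℤ (wt f a) ∧ IsIntegral ℤ (wt f' a) ∧
      ∀ ν : (integralClosure ℤ ℂ) ⧸ 𝔐,
        (∀ t, a t ≠ 0 → cgT 𝔐 ι.range f' t = ν * cgT 𝔐 ι.range f t) →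
        red 𝔐 (wt f' a) = ν * red 𝔐 (wt f a)

/-- MULV: the central functions are multiplicative. -/
def Stmt_MULV : Prop :=
  ∀ (G B C : Type) [Group G] [Fintype G] [Group B] [Fintype B] [Group C]
    (𝔐 : Ideal (integralClosure ℤ ℂ)) (ℓ : ℕ) [Fact ℓ.Prime], 𝔐.IsMaximal →
    (ℓ : integralClosure ℤ ℂ) ∈ 𝔐 →
    ∀ (ι : G →* B) (κ : B →* MulAut G) (ρ : B →* C), LocV ι κ ρ →
    ∀ (σ : Finset (Subgroup G)) (ψ : G → ℂ), Sml ℓ σ → IrrOn (stb σ) ψ →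
    ∀ L : Subgroup C, L ≤ (Stx κ σ ψ).map ρ → ∀ f : B → ℂ, ExtL ι κ ρ σ ψ L f →
    ∀ a a' : B → ℂ, (∀ g x, a (ι g * x * (ι g)⁻¹) = a x) →
      (∀ g x, a' (ι g * x * (ι g)⁻¹) = a' x) → (∀ x, IsIntegral ℤ (a x)) →
      (∀ x, IsIntegral ℤ (a' x)) → (∀ x, ρ x ∉ L → a x = 0) → (∀ x, ρ x ∉ L → a' x = 0) →
      red 𝔐 (wt f (cvB a a')) = red 𝔐 (wt f a) * red 𝔐 (wt f a')

/-- NUV: central functions over the same block differ by a linear character. -/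
def Stmt_NUV : Prop :=
  ∀ (G B C : Type) [Group G] [Fintype G] [Group B] [Fintype B] [Group C]
    (𝔐 : Ideal (integralClosure ℤ ℂ)) (ℓ : ℕ) [Fact ℓ.Prime], 𝔐.IsMaximal →
    (ℓ : integralClosure ℤ ℂ) ∈ 𝔐 →
    ∀ (ι : G →* B) (κ : B →* MulAut G) (ρ : B →* C), LocV ι κ ρ →
    ∀ (σ σ' : Finset (Subgroup G)) (ψ ψ' : G → ℂ), Sml ℓ σ → Sml ℓ σ' → IrrOn (stb σ) ψ →
    IrrOn (stb σ') ψ' → (∀ g, cg 𝔐 ψ g = cg 𝔐 ψ' g) →
    ∀ L : Subgroup C, L ≤ (Stx κ σ ψ).map ρ → L ≤ (Stx κ σ' ψ').map ρ →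
    ∀ f f' : B → ℂ, ExtL ι κ ρ σ ψ L f → ExtL ι κ ρ σ' ψ' L f' →
    ∃ (U : Subgroup C) (ν : C → (integralClosure ℤ ℂ) ⧸ 𝔐), U ≤ L ∧
      (∀ c ∈ L, ∀ u ∈ U, c * u * c⁻¹ ∈ U ∧ ν (c * u * c⁻¹) = ν u) ∧
      (∀ c, c ∈ U ↔ c ∈ L ∧ ∃ t, ρ t = c ∧ cgT 𝔐 ι.range f t ≠ 0) ∧ ν 1 = 1 ∧
      (∀ c ∈ U, ∀ c' ∈ U, ν (c * c') = ν c * ν c') ∧
      ∀ t, cgT 𝔐 ι.range f' t = ν (ρ t) * cgT 𝔐 ι.range f t

/-- LINX: extension of an invariant linear character modulo `𝔐`. -/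
def Stmt_LINX : Prop :=
  ∀ (C : Type) [Group C] [Finite C] (𝔐 : Ideal (integralClosure ℤ ℂ)) (ℓ : ℕ)
    [Fact ℓ.Prime], 𝔐.IsMaximal → (ℓ : integralClosure ℤ ℂ) ∈ 𝔐 → ¬ ℓ ∣ Nat.card C →
    ∀ L U : Subgroup C, U ≤ L → (∀ c ∈ L, ∀ u ∈ U, c * u * c⁻¹ ∈ U) →
    (∃ c0 ∈ L, ∀ c ∈ L, ∃ k : ℤ, c * c0 ^ k ∈ U) →
    ∀ ν : C → (integralClosure ℤ ℂ) ⧸ 𝔐, ν 1 = 1 →
      (∀ c ∈ U, ∀ c' ∈ U, ν (c * c') = ν c * ν c') →
      (∀ c ∈ L, ∀ u ∈ U, ν (c * u * c⁻¹) = ν u) →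
      ∃ lam : C → ℂ, LinOn L lam ∧ ∀ u ∈ U, red 𝔐 (lam u) = ν u

/-- BEQV: the classes of central functions over the same block agree. -/
def Stmt_BEQV : Prop :=
  ∀ (G B C : Type) [Group G] [Fintype G] [Group B] [Fintype B] [Group C]
    (𝔐 : Ideal (integralClosure ℤ ℂ)) (ℓ : ℕ) [Fact ℓ.Prime], 𝔐.IsMaximal →
    (ℓ : integralClosure ℤ ℂ) ∈ 𝔐 →
    ∀ (ι : G →* B) (κ : B →* MulAut G) (ρ : B →* C), LocV ι κ ρ → ¬ ℓ ∣ Nat.card C →
    ∀ (σ σ' : Finset (Subgroup G)) (ψ ψ' : G → ℂ), Sml ℓ σ → Sml ℓ σ' → IrrOn (stb σ) ψ →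
    IrrOn (stb σ') ψ' → (∀ g, cg 𝔐 ψ g = cg 𝔐 ψ' g) →
    ∀ L : Subgroup C, L ≤ (Stx κ σ ψ).map ρ → L ≤ (Stx κ σ' ψ').map ρ →
    ∀ f : B → ℂ, ExtL ι κ ρ σ ψ L f →
    (∃ c0 ∈ L, ∀ c ∈ L, ∃ (k : ℤ) (t : B), ρ t = c * c0 ^ k ∧ cgT 𝔐 ι.range f t ≠ 0) →
    bet 𝔐 ι κ ρ σ ψ L = bet 𝔐 ι κ ρ σ' ψ' L

/-- TRIV: the elements which act on a block as inner automorphisms fix all characters. -/
def Stmt_TRIV : Prop :=
  ∀ (G B C : Type) [Group G] [Fintype G] [Group B] [Fintype B] [Group C]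
    (𝔐 : Ideal (integralClosure ℤ ℂ)) (ℓ : ℕ) [Fact ℓ.Prime], 𝔐.IsMaximal →
    (ℓ : integralClosure ℤ ℂ) ∈ 𝔐 →
    ∀ (ι : G →* B) (κ : B →* MulAut G) (ρ : B →* C), LocV ι κ ρ → ¬ ℓ ∣ Nat.card C →
    ∀ (σ σ' : Finset (Subgroup G)) (ψ ψ' : G → ℂ), Sml ℓ σ → Sml ℓ σ' → IrrOn (stb σ) ψ →
    IrrOn (stb σ') ψ' → (∀ g, cg 𝔐 ψ g = cg 𝔐 ψ' g) →
    ∀ c ∈ (Stx κ σ ψ).map ρ, ∀ f : B → ℂ, ExtL ι κ ρ σ ψ (Subgroup.zpowers c) f →
      (∃ t, ρ t = c ∧ cgT 𝔐 ι.range f t ≠ 0) → c ∈ (Stx κ σ' ψ').map ρ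

/-- BRV: the Brauer homomorphism for a Sylow subgroup of order `ℓ`. -/
def Stmt_BRV : Prop :=
  ∀ (G B C : Type) [Group G] [Fintype G] [Group B] [Fintype B] [Group C]
    (𝔐 : Ideal (integralClosure ℤ ℂ)) (ℓ : ℕ) [Fact ℓ.Prime], 𝔐.IsMaximal →
    (ℓ : integralClosure ℤ ℂ) ∈ 𝔐 →
    ∀ (ι : G →* B) (κ : B →* MulAut G) (ρ : B →* C), LocV ι κ ρ → ¬ ℓ ∣ Nat.card C →
    ∀ P : Subgroup G, Nat.card P = ℓ → ¬ ℓ ∣ P.index →
    (∀ ψ : G → ℂ, IrrOn (stb {P}) ψ → ∀ L : Subgroup C, L ≤ (Stx κ {P} ψ).map ρ →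
      ∀ f : B → ℂ, ExtL ι κ ρ {P} ψ L f → ∀ t : B, ρ t ∈ L → (∀ u ∈ P, κ t u = u) →
        cgT 𝔐 ι.range f t = cgT 𝔐 ((stb {P}).map ι) f t) ∧
    ∀ ψ ψ' : G → ℂ, IrrOn (stb {P}) ψ → IrrOn (stb {P}) ψ' →
      (∀ g, cg 𝔐 ψ g = cg 𝔐 ψ' g) → ∀ a : G → ℂ,
      (∀ n ∈ stb {P}, ∀ x, a (n * x * n⁻¹) = a x) → (∀ x, IsIntegral ℤ (a x)) →
      (∀ x, x ∉ Subgroup.centralizer (P : Set G) → a x = 0) →
      red 𝔐 (wt ψ a) = red 𝔐 (wt ψ' a)

/-- CYA: the case of a group of order prime to `ℓ`. -/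
def Stmt_CYA : Prop :=
  ∀ (H : Type) [Group H] [Fintype H] (𝔐 : Ideal (integralClosure ℤ ℂ)) (ℓ : ℕ)
    [Fact ℓ.Prime], 𝔐.IsMaximal → (ℓ : integralClosure ℤ ℂ) ∈ 𝔐 → ¬ ℓ ∣ Nat.card H →
    ∀ (Z N : Subgroup H) [Z.Normal] [N.Normal], IsCyclic (H ⧸ Z) →
    ∀ f : H → ℂ, IsIrr f → IsIrr (fun n : N => f n) →
      ∃ h0 : H, ∀ h : H, ∃ (k : ℤ) (h' : H), h' ∈ Z ∧ h' * (h * h0 ^ k)⁻¹ ∈ N ∧
        red 𝔐 (f h') ≠ 0

/-- CYE: the case of a character which is not trivial on the Sylow subgroup. -/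
def Stmt_CYE : Prop :=
  ∀ (H : Type) [Group H] [Fintype H] (𝔐 : Ideal (integralClosure ℤ ℂ)) (ℓ : ℕ)
    [Fact ℓ.Prime], 𝔐.IsMaximal → (ℓ : integralClosure ℤ ℂ) ∈ 𝔐 →
    ∀ (P N : Subgroup H) [P.Normal] [N.Normal], Nat.card P = ℓ → ¬ ℓ ∣ P.index → P ≤ N →
    ∀ f : H → ℂ, IsIrr f → IsIrr (fun n : N => f n) → (∃ u ∈ P, f u ≠ f 1) →
      ∃ h0 : H, ∀ h : H, ∃ (k : ℤ) (h' : H), (∀ u ∈ P, h' * u = u * h') ∧
        ¬ ℓ ∣ orderOf h' ∧ h' * (h * h0 ^ k)⁻¹ ∈ N ∧ red 𝔐 (f h') ≠ 0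

/-- CYH: the elements with central function different from zero, in the normalizer. -/
def Stmt_CYH : Prop :=
  ∀ (H : Type) [Group H] [Fintype H] (𝔐 : Ideal (integralClosure ℤ ℂ)) (ℓ : ℕ)
    [Fact ℓ.Prime], 𝔐.IsMaximal → (ℓ : integralClosure ℤ ℂ) ∈ 𝔐 →
    ∀ (P N : Subgroup H) [P.Normal] [N.Normal], Nat.card P = ℓ → ¬ ℓ ∣ P.index → P ≤ N →
    ∀ f : H → ℂ, IsIrr f → IsIrr (fun n : N => f n) →
      ∃ h0 : H, ∀ h : H, ∃ (k : ℤ) (h' : H), (∀ u ∈ P, h' * u = u * h') ∧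
        h' * (h * h0 ^ k)⁻¹ ∈ N ∧ cgT 𝔐 N f h' ≠ 0

/-- CYCV: the quotient by the elements which act on the block as inner automorphisms is
cyclic. -/
def Stmt_CYCV : Prop :=
  ∀ (G B C : Type) [Group G] [Fintype G] [Group B] [Fintype B] [Group C]
    (𝔐 : Ideal (integralClosure ℤ ℂ)) (ℓ : ℕ) [Fact ℓ.Prime], 𝔐.IsMaximal →
    (ℓ : integralClosure ℤ ℂ) ∈ 𝔐 →
    ∀ (ι : G →* B) (κ : B →* MulAut G) (ρ : B →* C), LocV ι κ ρ → ¬ ℓ ∣ Nat.card C →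
    ∀ P : Subgroup G, Nat.card P = ℓ → ¬ ℓ ∣ P.index →
    ∀ ψ : G → ℂ, IrrOn (stb {P}) ψ → ∀ L : Subgroup C, L ≤ (Stx κ {P} ψ).map ρ →
    ∀ f : B → ℂ, ExtL ι κ ρ {P} ψ L f →
      ∃ c0 ∈ L, ∀ c ∈ L, ∃ (k : ℤ) (t : B), ρ t = c * c0 ^ k ∧ cgT 𝔐 ι.range f t ≠ 0

/-- ABL: characters over the same character of a normal subgroup with abelian quotient. -/
def Stmt_ABL : Prop :=
  ∀ (N : Type) [Group N] [Fintype N] (C : Subgroup N) [C.Normal],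
    (∀ x y : N, x * y * x⁻¹ * y⁻¹ ∈ C) → ∀ ψ ψ' : N → ℂ, IsIrr ψ → IsIrr ψ' →
    ∀ φ : C → ℂ, IsIrr φ → ip (fun c : C => ψ c) φ ≠ 0 → ip (fun c : C => ψ' c) φ ≠ 0 →
    ∃ lam : N →* ℂˣ, (∀ c ∈ C, lam c = 1) ∧ ψ' = fun x => ψ x * ((lam x : ℂˣ) : ℂ)

/-- TWH: the stabilizers of the characters of a block of the normalizer. -/
def Stmt_TWH : Prop :=
  ∀ (H : Type) [Group H] [Fintype H] (𝔐 : Ideal (integralClosure ℤ ℂ)) (ℓ : ℕ)
    [Fact ℓ.Prime], 𝔐.IsMaximal → (ℓ : integralClosure ℤ ℂ) ∈ 𝔐 →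
    ∀ (P N : Subgroup H) [P.Normal] [N.Normal], Nat.card P = ℓ → ¬ ℓ ∣ P.index → P ≤ N →
    ∀ ψ ψ' : N → ℂ, IsIrr ψ → IsIrr ψ' →
    (∀ a : N → ℂ, (∀ n x, a (n * x * n⁻¹) = a x) → (∀ x, IsIntegral ℤ (a x)) →
      (∀ x : N, (∃ u ∈ P, (x : H) * u ≠ u * x) → a x = 0) →
      red 𝔐 (wt ψ a) = red 𝔐 (wt ψ' a)) →
    ((∀ u : N, (u : H) ∈ P → ψ u = ψ 1) ↔ (∀ u : N, (u : H) ∈ P → ψ' u = ψ' 1)) →
    ∀ h : H, (∀ x y : N, (y : H) = h * x * h⁻¹ → ψ y = ψ x) →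
      ∀ x y : N, (y : H) = h * x * h⁻¹ → ψ' y = ψ' x

/-- TWOV: the stabilizers of the local characters of a block. -/
def Stmt_TWOV : Prop :=
  ∀ (G B C : Type) [Group G] [Fintype G] [Group B] [Fintype B] [Group C]
    (𝔐 : Ideal (integralClosure ℤ ℂ)) (ℓ : ℕ) [Fact ℓ.Prime], 𝔐.IsMaximal →
    (ℓ : integralClosure ℤ ℂ) ∈ 𝔐 →
    ∀ (ι : G →* B) (κ : B →* MulAut G) (ρ : B →* C), LocV ι κ ρ → ¬ ℓ ∣ Nat.card C →
    ∀ P : Subgroup G, Nat.card P = ℓ → ¬ ℓ ∣ P.index →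
    ∀ ψ ψ' : G → ℂ, IrrOn (stb {P}) ψ → IrrOn (stb {P}) ψ' →
      (∀ g, cg 𝔐 ψ g = cg 𝔐 ψ' g) →
      ((∀ u ∈ P, ψ u = ψ 1) ↔ ∀ u ∈ P, ψ' u = ψ' 1) →
      (Stx κ {P} ψ).map ρ ≤ (Stx κ {P} ψ').map ρ

/-- VSX: the local sum for a group with Sylow subgroups of order `ℓ`. -/
def Stmt_VSX : Prop :=
  ∀ (G B C : Type) [Group G] [Fintype G] [Group B] [Fintype B] [Group C]
    (𝔐 : Ideal (integralClosure ℤ ℂ)) (ℓ : ℕ) [Fact ℓ.Prime]
    (ι : G →* B) (κ : B →* MulAut G) (ρ : B →* C), LocN ι κ ρ →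
    ∀ P : Subgroup G, Nat.card P = ℓ → ¬ ℓ ∣ P.index →
    ∀ (L : Subgroup C) (β : Set (B → (integralClosure ℤ ℂ) ⧸ 𝔐)) (e : ℕ),
      VS 𝔐 ℓ ι κ ρ L β e = (Nat.card G : ℚ) *
        ((Nat.card {θ : G → ℂ // IrrOn (stb ∅) θ ∧ L ≤ (Stx κ ∅ θ).map ρ ∧
          df ℓ (stb (∅ : Finset (Subgroup G))) θ = e ∧ bet 𝔐 ι κ ρ ∅ θ L = β} : ℚ) -
        (Nat.card {ψ : G → ℂ // IrrOn (stb {P}) ψ ∧ L ≤ (Stx κ {P} ψ).map ρ ∧
          df ℓ (stb {P}) ψ = e ∧ bet 𝔐 ι κ ρ {P} ψ L = β} : ℚ))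

/-- FIXV: the numbers of characters fixed by one element. -/
def Stmt_FIXV : Prop :=
  ∀ (G B C : Type) [Group G] [Fintype G] [Group B] [Fintype B] [Group C]
    (𝔐 : Ideal (integralClosure ℤ ℂ)) (ℓ : ℕ) [Fact ℓ.Prime], 𝔐.IsMaximal →
    (ℓ : integralClosure ℤ ℂ) ∈ 𝔐 →
    ∀ (ι : G →* B) (κ : B →* MulAut G) (ρ : B →* C), LocV ι κ ρ → ¬ ℓ ∣ Nat.card C →
    ∀ P : Subgroup G, Nat.card P = ℓ → ¬ ℓ ∣ P.index →
    ∀ ω : G → (integralClosure ℤ ℂ) ⧸ 𝔐,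
      (¬ ∃ θ : G → ℂ, IsIrr θ ∧ HasDefect ℓ θ 0 ∧ ∀ g, cg 𝔐 θ g = ω g) → ∀ c : C,
      Nat.card {θ : G → ℂ // IrrOn (stb ∅) θ ∧ (∀ g, cg 𝔐 θ g = ω g) ∧
        c ∈ (Stx κ ∅ θ).map ρ} =
      Nat.card {ψ : G → ℂ // IrrOn (stb {P}) ψ ∧ (∀ g, cg 𝔐 ψ g = ω g) ∧
        c ∈ (Stx κ {P} ψ).map ρ}

/-- LVB: the local sum vanishes outside the type of defect zero. -/
def Stmt_LVB : Prop :=
  ∀ (G B C : Type) [Group G] [Fintype G] [Group B] [Fintype B] [Group C]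
    (𝔐 : Ideal (integralClosure ℤ ℂ)) (ℓ : ℕ) [Fact ℓ.Prime], 𝔐.IsMaximal →
    (ℓ : integralClosure ℤ ℂ) ∈ 𝔐 →
    ∀ (ι : G →* B) (κ : B →* MulAut G) (ρ : B →* C), LocV ι κ ρ → ¬ ℓ ∣ Nat.card C →
    ¬ ℓ ^ 2 ∣ Nat.card G →
    ∀ (L : Subgroup C) (β : Set (B → (integralClosure ℤ ℂ) ⧸ 𝔐)) (e : ℕ),
      ¬ dzT 𝔐 ℓ ι β → VS 𝔐 ℓ ι κ ρ L β e = 0

end Pool.Agent.DPV


end

section

/-!
# Dade's conjecture for the blocks over a block of defect one of a component: definitions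
(theorem W)
-/

namespace Pool.Agent.DPW

open Pool.Agent.DP Pool.Agent.DPV Pool.Agent.Lib_helper13 Representation
open Pool.Agent.Lib_helper13.Dade (pCore DadeHolds dadeSum)

/-- The central function `ω` belongs to a block of defect one: the least exponent of `ℓ` in the
order of the centralizer of an element at which `ω` does not vanish is one. -/
def D1 (ℓ : ℕ) {G F : Type} [Group G] [Zero F] (ω : G → F) : Prop :=
  (∃ x, ω x ≠ 0 ∧ ¬ ℓ ^ 2 ∣ Nat.card (Subgroup.centralizer ({x} : Set G))) ∧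
    ∀ x, ω x ≠ 0 → ℓ ∣ Nat.card (Subgroup.centralizer ({x} : Set G))

/-- `P` is a Sylow subgroup of order `ℓ` of the centralizer of `x₀`, and `ω` does not vanish at
`x₀`. -/
structure At1 (ℓ : ℕ) {G F : Type} [Group G] [Zero F] (ω : G → F) (P : Subgroup G) (x₀ : G) :
    Prop where
  ne : ω x₀ ≠ 0
  card : Nat.card P = ℓ
  cen : ∀ u ∈ P, u * x₀ = x₀ * u
  sq : ¬ ℓ ^ 2 ∣ Nat.card (Subgroup.centralizer ({x₀} : Set G))

/-- An admissible property of central functions: invariant under the automorphisms of `B` and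
under the Frobenius automorphism. -/
structure AdmP (ℓ : ℕ) {G B F : Type} [Group G] [Group B] [Monoid F] (κ : B →* MulAut G)
    (Pr : (G → F) → Prop) : Prop where
  inv : ∀ (b : B) (ω : G → F), Pr (fun g => ω (κ b g)) → Pr ω
  frb : ∀ ω : G → F, Pr (fun g => ω g ^ ℓ) ↔ Pr ω

/-- A class of central functions whose restrictions to `G` have the property `Pr`. -/
def gT {G B F : Type} [Group G] [Group B] (ι : G →* B) (Pr : (G → F) → Prop)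
    (β : Set (B → F)) : Prop :=
  ∃ b ∈ β, Pr (fun g => b (ι g))

/-- The empty chain, or a chain whose only member has order `ℓ`. -/
def SmW (ℓ : ℕ) {G : Type} [Group G] (σ : Finset (Subgroup G)) : Prop :=
  σ = ∅ ∨ ∃ P : Subgroup G, σ = {P} ∧ Nat.card P = ℓ

end Pool.Agent.DPW


end

section

/-!
# Theorem W: statements of the modules, local part
-/

namespace Pool.Agent.DPW

open Pool.Agent.DP Pool.Agent.DPV Pool.Agent.Lib_helper13 Representation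
open Pool.Agent.Lib_helper13.Dade (pCore DadeHolds dadeSum)

/-! ### The classes of central functions -/

/-- BRC: the weights of the extensions of a character of the normalizer of a group of
order `ℓ`. -/
def Stmt_BRC : Prop :=
  ∀ (G B C : Type) [Group G] [Fintype G] [Group B] [Fintype B] [Group C]
    (𝔐 : Ideal (integralClosure ℤ ℂ)) (ℓ : ℕ) [Fact ℓ.Prime], 𝔐.IsMaximal →
    (ℓ : integralClosure ℤ ℂ) ∈ 𝔐 →
    ∀ (ι : G →* B) (κ : B →* MulAut G) (ρ : B →* C), LocN ι κ ρ →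
    ∀ P : Subgroup G, Nat.card P = ℓ → ∀ ψ : G → ℂ, IrrOn (stb {P}) ψ →
    ∀ (L : Subgroup C) (f : B → ℂ), ExtL ι κ ρ {P} ψ L f →
    ∀ a : B → ℂ, (∀ n ∈ stb {P}, ∀ x, a (ι n * x * (ι n)⁻¹) = a x) →
      (∀ x, IsIntegral ℤ (a x)) →
      IsIntegral ℤ (wt f a) ∧
      ∀ a' : B → ℂ, (∀ n ∈ stb {P}, ∀ x, a' (ι n * x * (ι n)⁻¹) = a' x) →
        (∀ x, IsIntegral ℤ (a' x)) →
        (∀ x, ρ x ∈ L → (∀ u ∈ P, κ x u = u) → red 𝔐 (a x) = red 𝔐 (a' x)) →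
        red 𝔐 (wt f a) = red 𝔐 (wt f a')

/-- MULW: the central functions are multiplicative. -/
def Stmt_MULW : Prop :=
  ∀ (G B C : Type) [Group G] [Fintype G] [Group B] [Fintype B] [Group C]
    (𝔐 : Ideal (integralClosure ℤ ℂ)) (ℓ : ℕ) [Fact ℓ.Prime], 𝔐.IsMaximal →
    (ℓ : integralClosure ℤ ℂ) ∈ 𝔐 →
    ∀ (ι : G →* B) (κ : B →* MulAut G) (ρ : B →* C), LocV ι κ ρ →
    ∀ (σ : Finset (Subgroup G)) (ψ : G → ℂ), SmW ℓ σ → IrrOn (stb σ) ψ →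
    ∀ L : Subgroup C, L ≤ (Stx κ σ ψ).map ρ → ∀ f : B → ℂ, ExtL ι κ ρ σ ψ L f →
    ∀ a a' : B → ℂ, (∀ g x, a (ι g * x * (ι g)⁻¹) = a x) →
      (∀ g x, a' (ι g * x * (ι g)⁻¹) = a' x) → (∀ x, IsIntegral ℤ (a x)) →
      (∀ x, IsIntegral ℤ (a' x)) → (∀ x, ρ x ∉ L → a x = 0) → (∀ x, ρ x ∉ L → a' x = 0) →
      red 𝔐 (wt f (cvB a a')) = red 𝔐 (wt f a) * red 𝔐 (wt f a')

/-- NUVW: central functions over the same block differ by a linear character. -/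
def Stmt_NUVW : Prop :=
  ∀ (G B C : Type) [Group G] [Fintype G] [Group B] [Fintype B] [Group C]
    (𝔐 : Ideal (integralClosure ℤ ℂ)) (ℓ : ℕ) [Fact ℓ.Prime], 𝔐.IsMaximal →
    (ℓ : integralClosure ℤ ℂ) ∈ 𝔐 →
    ∀ (ι : G →* B) (κ : B →* MulAut G) (ρ : B →* C), LocV ι κ ρ →
    ∀ (σ σ' : Finset (Subgroup G)) (ψ ψ' : G → ℂ), SmW ℓ σ → SmW ℓ σ' → IrrOn (stb σ) ψ →
    IrrOn (stb σ') ψ' → (∀ g, cg 𝔐 ψ g = cg 𝔐 ψ' g) →
    ∀ L : Subgroup C, L ≤ (Stx κ σ ψ).map ρ → L ≤ (Stx κ σ' ψ').map ρ →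
    ∀ f f' : B → ℂ, ExtL ι κ ρ σ ψ L f → ExtL ι κ ρ σ' ψ' L f' →
    ∃ (U : Subgroup C) (ν : C → (integralClosure ℤ ℂ) ⧸ 𝔐), U ≤ L ∧
      (∀ c ∈ L, ∀ u ∈ U, c * u * c⁻¹ ∈ U ∧ ν (c * u * c⁻¹) = ν u) ∧
      (∀ c, c ∈ U ↔ c ∈ L ∧ ∃ t, ρ t = c ∧ cgT 𝔐 ι.range f t ≠ 0) ∧ ν 1 = 1 ∧
      (∀ c ∈ U, ∀ c' ∈ U, ν (c * c') = ν c * ν c') ∧
      ∀ t, cgT 𝔐 ι.range f' t = ν (ρ t) * cgT 𝔐 ι.range f t

/-- BEQW: the classes of central functions over the same block agree. -/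
def Stmt_BEQW : Prop :=
  ∀ (G B C : Type) [Group G] [Fintype G] [Group B] [Fintype B] [Group C]
    (𝔐 : Ideal (integralClosure ℤ ℂ)) (ℓ : ℕ) [Fact ℓ.Prime], 𝔐.IsMaximal →
    (ℓ : integralClosure ℤ ℂ) ∈ 𝔐 →
    ∀ (ι : G →* B) (κ : B →* MulAut G) (ρ : B →* C), LocV ι κ ρ → ¬ ℓ ∣ Nat.card C →
    ∀ (σ σ' : Finset (Subgroup G)) (ψ ψ' : G → ℂ), SmW ℓ σ → SmW ℓ σ' → IrrOn (stb σ) ψ →
    IrrOn (stb σ') ψ' → (∀ g, cg 𝔐 ψ g = cg 𝔐 ψ' g) →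
    ∀ L : Subgroup C, L ≤ (Stx κ σ ψ).map ρ → L ≤ (Stx κ σ' ψ').map ρ →
    ∀ f : B → ℂ, ExtL ι κ ρ σ ψ L f →
    (∃ c0 ∈ L, ∀ c ∈ L, ∃ (k : ℤ) (t : B), ρ t = c * c0 ^ k ∧ cgT 𝔐 ι.range f t ≠ 0) →
    bet 𝔐 ι κ ρ σ ψ L = bet 𝔐 ι κ ρ σ' ψ' L

/-- TRIW: the elements which act on a block as inner automorphisms fix all characters. -/
def Stmt_TRIW : Prop :=
  ∀ (G B C : Type) [Group G] [Fintype G] [Group B] [Fintype B] [Group C]
    (𝔐 : Ideal (integralClosure ℤ ℂ)) (ℓ : ℕ) [Fact ℓ.Prime], 𝔐.IsMaximal →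
    (ℓ : integralClosure ℤ ℂ) ∈ 𝔐 →
    ∀ (ι : G →* B) (κ : B →* MulAut G) (ρ : B →* C), LocV ι κ ρ → ¬ ℓ ∣ Nat.card C →
    ∀ (σ σ' : Finset (Subgroup G)) (ψ ψ' : G → ℂ), SmW ℓ σ → SmW ℓ σ' → IrrOn (stb σ) ψ →
    IrrOn (stb σ') ψ' → (∀ g, cg 𝔐 ψ g = cg 𝔐 ψ' g) →
    ∀ c ∈ (Stx κ σ ψ).map ρ, ∀ f : B → ℂ, ExtL ι κ ρ σ ψ (Subgroup.zpowers c) f →
      (∃ t, ρ t = c ∧ cgT 𝔐 ι.range f t ≠ 0) → c ∈ (Stx κ σ' ψ').map ρ

/-! ### The normalizer of a defect group -/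

/-- GDW: the elements `t` for which `P` is a Sylow subgroup of the centralizer. -/
def Stmt_GDW : Prop :=
  ∀ (G B C : Type) [Group G] [Fintype G] [Group B] [Fintype B] [Group C]
    (𝔐 : Ideal (integralClosure ℤ ℂ)) (ℓ : ℕ) [Fact ℓ.Prime], 𝔐.IsMaximal →
    (ℓ : integralClosure ℤ ℂ) ∈ 𝔐 →
    ∀ (ι : G →* B) (κ : B →* MulAut G) (ρ : B →* C), LocN ι κ ρ →
    ∀ P : Subgroup G, Nat.card P = ℓ → ∀ ψ : G → ℂ, IrrOn (stb {P}) ψ →
    (∀ (L : Subgroup C) (f : B → ℂ), ExtL ι κ ρ {P} ψ L f → ∀ t : B, ρ t ∈ L →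
      (∀ u ∈ P, κ t u = u) →
      ¬ ℓ ^ 2 ∣ Nat.card ↥(Subgroup.centralizer ({t} : Set B) ⊓ ι.range) →
      cgT 𝔐 ι.range f t = cgT 𝔐 ((stb {P}).map ι) f t) ∧
    ∀ x₀ : G, (∀ u ∈ P, u * x₀ = x₀ * u) →
      ¬ ℓ ^ 2 ∣ Nat.card (Subgroup.centralizer ({x₀} : Set G)) →
      cg 𝔐 ψ x₀ = red 𝔐 (wt ψ (fun x => cjT (stb {P}) x x₀)) ∧
      ∀ a : B → ℂ, (∀ n ∈ stb {P}, ∀ x, a (ι n * x * (ι n)⁻¹) = a x) →
        (∀ x, IsIntegral ℤ (a x)) → ∀ t : B, (∀ u ∈ P, κ t u = u) →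
        ℓ ^ 2 ∣ Nat.card ↥(Subgroup.centralizer ({t} : Set B) ⊓ ι.range) →
        red 𝔐 (∑ y : G, cjT (stb {P}) y x₀ * a ((ι y)⁻¹ * t)) = 0

/-- BLW: the local characters over the same block are in the same block of the normalizer. -/
def Stmt_BLW : Prop :=
  ∀ (G : Type) [Group G] [Fintype G]
    (𝔐 : Ideal (integralClosure ℤ ℂ)) (ℓ : ℕ) [Fact ℓ.Prime], 𝔐.IsMaximal →
    (ℓ : integralClosure ℤ ℂ) ∈ 𝔐 → ∀ (P : Subgroup G) (x₀ : G) (ψ ψ' : G → ℂ),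
    IrrOn (stb {P}) ψ → IrrOn (stb {P}) ψ' → (∀ g, cg 𝔐 ψ g = cg 𝔐 ψ' g) →
    At1 ℓ (fun g => cg 𝔐 ψ g) P x₀ →
    ∀ a : G → ℂ, (∀ n ∈ stb {P}, ∀ x, a (n * x * n⁻¹) = a x) → (∀ x, IsIntegral ℤ (a x)) →
      red 𝔐 (wt ψ a) = red 𝔐 (wt ψ' a)

/-- LFW: lifting of the elements with central function different from zero. -/
def Stmt_LFW : Prop :=
  ∀ (G B C : Type) [Group G] [Fintype G] [Group B] [Fintype B] [Group C]
    (𝔐 : Ideal (integralClosure ℤ ℂ)) (ℓ : ℕ) [Fact ℓ.Prime], 𝔐.IsMaximal →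
    (ℓ : integralClosure ℤ ℂ) ∈ 𝔐 →
    ∀ (ι : G →* B) (κ : B →* MulAut G) (ρ : B →* C), LocN ι κ ρ →
    ∀ (P : Subgroup G) (x₀ : G) (ψ : G → ℂ), IrrOn (stb {P}) ψ →
    At1 ℓ (fun g => cg 𝔐 ψ g) P x₀ →
    ∀ (L : Subgroup C) (f : B → ℂ), ExtL ι κ ρ {P} ψ L f → ∀ c ∈ L,
    ∀ a : B → ℂ, (∀ n ∈ stb {P}, ∀ x, a (ι n * x * (ι n)⁻¹) = a x) →
      (∀ x, IsIntegral ℤ (a x)) → (∀ x, ρ x ≠ c → a x = 0) → red 𝔐 (wt f a) ≠ 0 →
      ∃ t, ρ t = c ∧ cgT 𝔐 ι.range f t ≠ 0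

/-- CHNW: only the chains with the conjugates of the defect group contribute. -/
def Stmt_CHNW : Prop :=
  ∀ (G : Type) [Group G] [Fintype G]
    (𝔐 : Ideal (integralClosure ℤ ℂ)) (ℓ : ℕ) [Fact ℓ.Prime], 𝔐.IsMaximal →
    (ℓ : integralClosure ℤ ℂ) ∈ 𝔐 →
    ∀ (ω : G → (integralClosure ℤ ℂ) ⧸ 𝔐) (P : Subgroup G) (x₀ : G), At1 ℓ ω P x₀ →
    ∀ σ : Finset (Subgroup G), IsCh ℓ ⊥ σ → ∀ ψ : G → ℂ, IrrOn (stb σ) ψ →
      (∀ g, cg 𝔐 ψ g = ω g) →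
      σ = ∅ ∨ ∃ g : G, σ = {P.map (MulAut.conj g).toMonoidHom}

/-- DF1: the defect of the characters of a block of defect one. -/
def Stmt_DF1 : Prop :=
  ∀ (T : Type) [Group T] [Fintype T]
    (𝔐 : Ideal (integralClosure ℤ ℂ)) (ℓ : ℕ) [Fact ℓ.Prime], 𝔐.IsMaximal →
    (ℓ : integralClosure ℤ ℂ) ∈ 𝔐 → ∀ χ : T → ℂ, IsIrr χ →
    (D1 ℓ (cen 𝔐 (MonoidHom.id T) χ) →
      ∃ m : ℕ, ¬ ℓ ∣ m ∧ (Nat.card T : ℂ) = ℓ * m * χ 1) ∧
    ((∃ m : ℕ, ¬ ℓ ∣ m ∧ (Nat.card T : ℂ) = ℓ * m * χ 1) →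
      ∀ x, cen 𝔐 (MonoidHom.id T) χ x ≠ 0 →
        ℓ ∣ Nat.card (Subgroup.centralizer ({x} : Set T))) ∧
    ∀ P : Subgroup T, P.Normal → Nat.card P = ℓ → ∀ x₀ : T, (∀ u ∈ P, u * x₀ = x₀ * u) →
      ¬ ℓ ^ 2 ∣ Nat.card (Subgroup.centralizer ({x₀} : Set T)) →
      cen 𝔐 (MonoidHom.id T) χ x₀ ≠ 0 → D1 ℓ (cen 𝔐 (MonoidHom.id T) χ)

/-- DFW: the defects of the characters which contribute. -/
def Stmt_DFW : Prop :=
  ∀ (G : Type) [Group G] [Fintype G]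
    (𝔐 : Ideal (integralClosure ℤ ℂ)) (ℓ : ℕ) [Fact ℓ.Prime], 𝔐.IsMaximal →
    (ℓ : integralClosure ℤ ℂ) ∈ 𝔐 → ∀ ψ : G → ℂ,
    (D1 ℓ (fun g => cg 𝔐 ψ g) → IrrOn (stb ∅) ψ →
      df ℓ (stb (∅ : Finset (Subgroup G))) ψ = 1) ∧
    ∀ (P : Subgroup G) (x₀ : G), At1 ℓ (fun g => cg 𝔐 ψ g) P x₀ → IrrOn (stb {P}) ψ →
      df ℓ (stb {P}) ψ = 1 ∧
      ∃ m : ℕ, ¬ ℓ ∣ m ∧ (Nat.card (stb {P}) : ℂ) = ℓ * m * ψ 1

/-- VSXW: the local sum for a block with a defect group of order `ℓ`. -/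
def Stmt_VSXW : Prop :=
  ∀ (G B C : Type) [Group G] [Fintype G] [Group B] [Fintype B] [Group C]
    (𝔐 : Ideal (integralClosure ℤ ℂ)) (ℓ : ℕ) [Fact ℓ.Prime], 𝔐.IsMaximal →
    (ℓ : integralClosure ℤ ℂ) ∈ 𝔐 →
    ∀ (ι : G →* B) (κ : B →* MulAut G) (ρ : B →* C), LocN ι κ ρ →
    ∀ (P : Subgroup G) (x₀ : G) (L : Subgroup C) (β : Set (B → (integralClosure ℤ ℂ) ⧸ 𝔐))
      (e : ℕ), (∃ b ∈ β, At1 ℓ (fun g => b (ι g)) P x₀) →
      VS 𝔐 ℓ ι κ ρ L β e = (Nat.card G : ℚ) *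
        ((Nat.card {θ : G → ℂ // IrrOn (stb ∅) θ ∧ L ≤ (Stx κ ∅ θ).map ρ ∧
          df ℓ (stb (∅ : Finset (Subgroup G))) θ = e ∧ bet 𝔐 ι κ ρ ∅ θ L = β} : ℚ) -
        (Nat.card {ψ : G → ℂ // IrrOn (stb {P}) ψ ∧ L ≤ (Stx κ {P} ψ).map ρ ∧
          df ℓ (stb {P}) ψ = e ∧ bet 𝔐 ι κ ρ {P} ψ L = β} : ℚ))

/-! ### Characters of a group with a normal subgroup of order `ℓ` -/

/-- SCT: sections of the classes. -/
def Stmt_SCT : Prop :=
  ∀ (M : Type) [Group M] [Fintype M]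
    (𝔐 : Ideal (integralClosure ℤ ℂ)) (ℓ : ℕ) [Fact ℓ.Prime], 𝔐.IsMaximal →
    (ℓ : integralClosure ℤ ℂ) ∈ 𝔐 → ∀ (P C : Subgroup M) [C.Normal], Nat.card P = ℓ →
    P ≤ C → (∀ u ∈ P, ∀ x, u * x = x * u) →
    ∀ E : M → ℂ, IsIrr E → IsIrr (fun c : C => E c) →
    (∃ m : ℕ, ¬ ℓ ∣ m ∧ (Nat.card C : ℂ) = ℓ * m * E 1) → ∀ z : M,
    ∃ a : M → ℂ, (∀ c ∈ C, ∀ x, a (c * x * c⁻¹) = a x) ∧ (∀ x, IsIntegral ℤ (a x)) ∧
      (∀ x, x * z⁻¹ ∉ C → a x = 0) ∧ red 𝔐 (wt E a) ≠ 0 ∧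
      ∀ E' : M → ℂ, IsIrr E' → IsIrr (fun c : C => E' c) →
        (∀ u ∈ P, E' u * E 1 = E u * E' 1) →
        (∑ c : C, E' ((c : M) * z) * E (((c : M) * z)⁻¹)) = 0 → red 𝔐 (wt E' a) = 0

/-- UNQ: a character of a block of defect one with central defect group is determined by its
restriction to the defect group. -/
def Stmt_UNQ : Prop :=
  ∀ (C : Type) [Group C] [Fintype C]
    (𝔐 : Ideal (integralClosure ℤ ℂ)) (ℓ : ℕ) [Fact ℓ.Prime], 𝔐.IsMaximal →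
    (ℓ : integralClosure ℤ ℂ) ∈ 𝔐 → ∀ P : Subgroup C, Nat.card P = ℓ →
    (∀ u ∈ P, ∀ x, u * x = x * u) → ∀ φ φ' : C → ℂ, IsIrr φ → IsIrr φ' →
    (∃ m : ℕ, ¬ ℓ ∣ m ∧ (Nat.card C : ℂ) = ℓ * m * φ 1) →
    (∀ u ∈ P, φ' u * φ 1 = φ u * φ' 1) →
    cen 𝔐 (MonoidHom.id C) φ = cen 𝔐 (MonoidHom.id C) φ' → φ = φ'

/-- COVW: characters of a normal subgroup which agree on the invariant functions belong to
conjugate blocks. -/
def Stmt_COVW : Prop :=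
  ∀ (A Y K : Type) [Group A] [Fintype A] [Group Y] [Fintype Y] [Group K]
    (𝔐 : Ideal (integralClosure ℤ ℂ)) (ℓ : ℕ) [Fact ℓ.Prime], 𝔐.IsMaximal →
    (ℓ : integralClosure ℤ ℂ) ∈ 𝔐 →
    ∀ (j : A →* Y) (c : Y →* MulAut A) (p : Y →* K), ClG j c p →
    ∀ θ θ' : A → ℂ, IsIrr θ → IsIrr θ' →
    (∀ a : A → ℂ, (∀ y x, a (c y x) = a x) → (∀ x, IsIntegral ℤ (a x)) →
      red 𝔐 (wt θ a) = red 𝔐 (wt θ' a)) →
    ∃ y : Y, cen 𝔐 (MonoidHom.id A) (fun x => θ' (c y x)) = cen 𝔐 (MonoidHom.id A) θ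

open Classical in
/-- CYS: the weight of an invariant function supported on a coset. -/
def Stmt_CYS : Prop :=
  ∀ (H : Type) [Group H] [Fintype H]
    (𝔐 : Ideal (integralClosure ℤ ℂ)) (ℓ : ℕ) [Fact ℓ.Prime], 𝔐.IsMaximal →
    (ℓ : integralClosure ℤ ℂ) ∈ 𝔐 → ∀ (C N M : Subgroup H) [C.Normal] [N.Normal], C ≤ N →
    C ≤ M → (∀ n ∈ N, ∀ m ∈ M, n * m * n⁻¹ * m⁻¹ ∈ C) →
    ∀ f : H → ℂ, IsIrr f → IsIrr (fun n : N => f n) →
    ∀ S : Finset (H → ℂ), (∀ E ∈ S, IrrOn M E ∧ IsIrr (fun c : C => E c)) →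
      (∀ x ∈ M, f x = ∑ E ∈ S, E x) →
    ∀ φ : C → ℂ, IsIrr φ → (∀ E ∈ S, E 1 = φ 1) →
    ∀ z ∈ M, ∀ a' : H → ℂ, (∀ c ∈ C, ∀ x, a' (c * x * c⁻¹) = a' x) →
      (∀ x, IsIntegral ℤ (a' x)) → (∀ x, x * z⁻¹ ∉ C → a' x = 0) →
      ∃ a : H → ℂ, (∀ n ∈ N, ∀ x, a (n * x * n⁻¹) = a x) ∧ (∀ x, IsIntegral ℤ (a x)) ∧
        (∀ x, x * z⁻¹ ∉ C → a x = 0) ∧
        (S.card : (integralClosure ℤ ℂ) ⧸ 𝔐) * red 𝔐 (wt f a) =
          (C.relIndex N : (integralClosure ℤ ℂ) ⧸ 𝔐) *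
            ∑ E ∈ S with cen 𝔐 (MonoidHom.id C) (fun c : C => E c) =
              cen 𝔐 (MonoidHom.id C) φ, red 𝔐 (wt E a')

/-- NUN: the central functions of two extensions of characters of the same block. -/
def Stmt_NUN : Prop :=
  ∀ (M : Type) [Group M] [Fintype M]
    (𝔐 : Ideal (integralClosure ℤ ℂ)) (ℓ : ℕ) [Fact ℓ.Prime], 𝔐.IsMaximal →
    (ℓ : integralClosure ℤ ℂ) ∈ 𝔐 → ∀ (C : Subgroup M) [C.Normal] (E E' : M → ℂ),
    IsIrr E → IsIrr E' → IsIrr (fun c : C => E c) → IsIrr (fun c : C => E' c) →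
    cen 𝔐 (MonoidHom.id C) (fun c : C => E c) = cen 𝔐 (MonoidHom.id C) (fun c : C => E' c) →
    (∀ m : M, ∃ t, t * m⁻¹ ∈ C ∧ cgT 𝔐 C E t ≠ 0) →
    ∃ ν : M → (integralClosure ℤ ℂ) ⧸ 𝔐, ν 1 = 1 ∧ (∀ x y, ν (x * y) = ν x * ν y) ∧
      (∀ c ∈ C, ν c = 1) ∧ ∀ t, cgT 𝔐 C E' t = ν t * cgT 𝔐 C E t

/-- CYAW: the case of a character which is trivial on `P`. -/
def Stmt_CYAW : Prop :=
  ∀ (H : Type) [Group H] [Fintype H]
    (𝔐 : Ideal (integralClosure ℤ ℂ)) (ℓ : ℕ) [Fact ℓ.Prime], 𝔐.IsMaximal →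
    (ℓ : integralClosure ℤ ℂ) ∈ 𝔐 → ∀ (P N : Subgroup H) [P.Normal] [N.Normal],
    Nat.card P = ℓ → P ≤ N → ∀ f : H → ℂ, IsIrr f → IsIrr (fun n : N => f n) →
    (∃ m : ℕ, ¬ ℓ ∣ m ∧ (Nat.card N : ℂ) = ℓ * m * f 1) → (∀ u ∈ P, f u = f 1) →
      ∃ h0 : H, ∀ h : H, ∃ (k : ℤ) (t : H), t * (h * h0 ^ k)⁻¹ ∈ N ∧ cgT 𝔐 N f t ≠ 0

/-- CYBW: the case of a character which is not trivial on `P`. -/
def Stmt_CYBW : Prop :=
  ∀ (H : Type) [Group H] [Fintype H]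
    (𝔐 : Ideal (integralClosure ℤ ℂ)) (ℓ : ℕ) [Fact ℓ.Prime], 𝔐.IsMaximal →
    (ℓ : integralClosure ℤ ℂ) ∈ 𝔐 → ∀ (P N : Subgroup H) [P.Normal] [N.Normal],
    Nat.card P = ℓ → P ≤ N → ∀ f : H → ℂ, IsIrr f → IsIrr (fun n : N => f n) →
    (∃ m : ℕ, ¬ ℓ ∣ m ∧ (Nat.card N : ℂ) = ℓ * m * f 1) → (∃ u ∈ P, f u ≠ f 1) →
      ∃ h0 : H, ∀ h : H, ∃ (k : ℤ) (t : H), t * (h * h0 ^ k)⁻¹ ∈ N ∧ cgT 𝔐 N f t ≠ 0

/-- CYCW: the quotient by the elements which act on the block as inner automorphisms is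
cyclic. -/
def Stmt_CYCW : Prop :=
  ∀ (G B C : Type) [Group G] [Fintype G] [Group B] [Fintype B] [Group C]
    (𝔐 : Ideal (integralClosure ℤ ℂ)) (ℓ : ℕ) [Fact ℓ.Prime], 𝔐.IsMaximal →
    (ℓ : integralClosure ℤ ℂ) ∈ 𝔐 →
    ∀ (ι : G →* B) (κ : B →* MulAut G) (ρ : B →* C), LocN ι κ ρ →
    ∀ (P : Subgroup G) (x₀ : G) (ψ : G → ℂ), IrrOn (stb {P}) ψ →
    At1 ℓ (fun g => cg 𝔐 ψ g) P x₀ → ∀ L : Subgroup C, L ≤ (Stx κ {P} ψ).map ρ →
    ∀ f : B → ℂ, ExtL ι κ ρ {P} ψ L f →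
      ∃ c0 ∈ L, ∀ c ∈ L, ∃ (k : ℤ) (t : B), ρ t = c * c0 ^ k ∧ cgT 𝔐 ι.range f t ≠ 0

/-- TWW: the stabilizers of the characters of a block of the normalizer. -/
def Stmt_TWW : Prop :=
  ∀ (H : Type) [Group H] [Fintype H]
    (𝔐 : Ideal (integralClosure ℤ ℂ)) (ℓ : ℕ) [Fact ℓ.Prime], 𝔐.IsMaximal →
    (ℓ : integralClosure ℤ ℂ) ∈ 𝔐 → ∀ (P N : Subgroup H) [P.Normal] [N.Normal],
    Nat.card P = ℓ → P ≤ N → ∀ ψ ψ' : N → ℂ, IsIrr ψ → IsIrr ψ' →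
    (∃ m : ℕ, ¬ ℓ ∣ m ∧ (Nat.card N : ℂ) = ℓ * m * ψ 1) →
    (∃ m : ℕ, ¬ ℓ ∣ m ∧ (Nat.card N : ℂ) = ℓ * m * ψ' 1) →
    cen 𝔐 (MonoidHom.id N) ψ = cen 𝔐 (MonoidHom.id N) ψ' →
    ((∀ u : N, (u : H) ∈ P → ψ u = ψ 1) ↔ (∀ u : N, (u : H) ∈ P → ψ' u = ψ' 1)) →
    ∀ h : H, (∀ x y : N, (y : H) = h * x * h⁻¹ → ψ y = ψ x) →
      ∀ x y : N, (y : H) = h * x * h⁻¹ → ψ' y = ψ' x

/-- TWOW: the stabilizers of the local characters of a block. -/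
def Stmt_TWOW : Prop :=
  ∀ (G B C : Type) [Group G] [Fintype G] [Group B] [Fintype B] [Group C]
    (𝔐 : Ideal (integralClosure ℤ ℂ)) (ℓ : ℕ) [Fact ℓ.Prime], 𝔐.IsMaximal →
    (ℓ : integralClosure ℤ ℂ) ∈ 𝔐 →
    ∀ (ι : G →* B) (κ : B →* MulAut G) (ρ : B →* C), LocN ι κ ρ →
    ∀ (P : Subgroup G) (x₀ : G) (ψ ψ' : G → ℂ), IrrOn (stb {P}) ψ → IrrOn (stb {P}) ψ' →
      (∀ g, cg 𝔐 ψ g = cg 𝔐 ψ' g) → At1 ℓ (fun g => cg 𝔐 ψ g) P x₀ →
      ((∀ u ∈ P, ψ u = ψ 1) ↔ ∀ u ∈ P, ψ' u = ψ' 1) →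
      (Stx κ {P} ψ).map ρ ≤ (Stx κ {P} ψ').map ρ

/-! ### The numbers of characters fixed by one element -/

open Classical in
/-- FXB: the number of characters over an invariant set of characters of a normal subgroup. -/
def Stmt_FXB : Prop :=
  ∀ (A Y K : Type) [Group A] [Fintype A] [Group Y] [Fintype Y] [Group K] [Finite K]
    (j : A →* Y) (c : Y →* MulAut A) (p : Y →* K), ClG j c p → (∀ x y : K, x * y = y * x) →
    (∀ θ : A → ℂ, IsIrr θ → ∃ E : inert c θ → ℂ, IsChr E ∧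
      ∀ a (ha : j a ∈ inert c θ), E ⟨j a, ha⟩ = θ a) →
    ∀ Om : (A → ℂ) → Prop, (∀ y θ, Om θ → Om (fun a => θ (c y a))) →
      (Nat.card Y : ℚ) * Nat.card {χ : Y → ℂ // IsIrr χ ∧
        ∃ θ : A → ℂ, IsIrr θ ∧ Om θ ∧ ip (resj j χ) θ ≠ 0} =
      ∑ θ ∈ irrF A with Om θ, (Nat.card A : ℚ) * (Nat.card ((inert c θ).map p) : ℚ) ^ 2

/-- FXC: the numbers of subgroups which contain an element. -/
def Stmt_FXC : Prop :=
  ∀ (C I I' : Type) [Group C] [Finite C] [Fintype I] [Fintype I'] (c : C)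
    (S : I → Subgroup C) (S' : I' → Subgroup C),
    (∀ Γ : Subgroup C, Γ ≤ Subgroup.zpowers c →
      ∑ i, (Nat.card ↥(S i ⊓ Γ)) ^ 2 = ∑ i, (Nat.card ↥(S' i ⊓ Γ)) ^ 2) →
    Nat.card {i // c ∈ S i} = Nat.card {i // c ∈ S' i}

/-- FXE: the blocks over an invariant block of defect one have defect one. -/
def Stmt_FXE : Prop :=
  ∀ (G B C : Type) [Group G] [Fintype G] [Group B] [Fintype B] [Group C]
    (𝔐 : Ideal (integralClosure ℤ ℂ)) (ℓ : ℕ) [Fact ℓ.Prime], 𝔐.IsMaximal →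
    (ℓ : integralClosure ℤ ℂ) ∈ 𝔐 →
    ∀ (ι : G →* B) (κ : B →* MulAut G) (ρ : B →* C), LocV ι κ ρ → ¬ ℓ ∣ Nat.card C →
    ∀ ω : G → (integralClosure ℤ ℂ) ⧸ 𝔐, D1 ℓ ω → ∀ (P : Subgroup G) (x₀ : G),
    At1 ℓ ω P x₀ → (∀ b g, ω (κ b g) = ω g) →
    ∀ θ : G → ℂ, IsIrr θ → cen 𝔐 (MonoidHom.id G) θ = ω →
    ∀ χ : B → ℂ, IsIrr χ → ip (resj ι χ) θ ≠ 0 →
      D1 ℓ (cen 𝔐 (MonoidHom.id B) χ) ∧
      At1 ℓ (cen 𝔐 (MonoidHom.id B) χ) (P.map ι) (ι x₀)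

/-- FXF: the blocks over an invariant block. -/
def Stmt_FXF : Prop :=
  ∀ (G B C : Type) [Group G] [Fintype G] [Group B] [Fintype B] [Group C]
    (𝔐 : Ideal (integralClosure ℤ ℂ)) (ℓ : ℕ) [Fact ℓ.Prime], 𝔐.IsMaximal →
    (ℓ : integralClosure ℤ ℂ) ∈ 𝔐 →
    ∀ (ι : G →* B) (κ : B →* MulAut G) (ρ : B →* C) (h : LocN ι κ ρ),
    ∀ ω : G → (integralClosure ℤ ℂ) ⧸ 𝔐, (∀ b g, ω (κ b g) = ω g) →
    (∀ χ χ' : B → ℂ, IsIrr χ → IsIrr χ' →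
      cen 𝔐 (MonoidHom.id B) χ = cen 𝔐 (MonoidHom.id B) χ' →
      (∃ θ : G → ℂ, IsIrr θ ∧ cen 𝔐 (MonoidHom.id G) θ = ω ∧ ip (resj ι χ) θ ≠ 0) →
      ∃ θ : G → ℂ, IsIrr θ ∧ cen 𝔐 (MonoidHom.id G) θ = ω ∧ ip (resj ι χ') θ ≠ 0) ∧
    ∀ P : Subgroup G, Nat.card P = ℓ → ∀ (χ : B → ℂ) (η : YS ι {P} → ℂ), IsIrr χ → IsIrr η →
      cen 𝔐 (MonoidHom.id B) χ = cen 𝔐 (YS ι {P}).subtype η →
      ((∃ θ : G → ℂ, IsIrr θ ∧ cen 𝔐 (MonoidHom.id G) θ = ω ∧ ip (resj ι χ) θ ≠ 0) ↔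
        ∃ ψ : stb {P} → ℂ, IsIrr ψ ∧ cen 𝔐 (stb {P}).subtype ψ = ω ∧
          ip (resj (jS h.cl {P}) η) ψ ≠ 0)

/-- FXG: the normalizer of a defect group of an invariant block. -/
def Stmt_FXG : Prop :=
  ∀ (G B C : Type) [Group G] [Fintype G] [Group B] [Fintype B] [Group C]
    (𝔐 : Ideal (integralClosure ℤ ℂ)) (ℓ : ℕ) [Fact ℓ.Prime], 𝔐.IsMaximal →
    (ℓ : integralClosure ℤ ℂ) ∈ 𝔐 →
    ∀ (ι : G →* B) (κ : B →* MulAut G) (ρ : B →* C), LocN ι κ ρ →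
    ∀ ω : G → (integralClosure ℤ ℂ) ⧸ 𝔐, D1 ℓ ω → ∀ (P : Subgroup G) (x₀ : G),
    At1 ℓ ω P x₀ → (∀ b g, ω (κ b g) = ω g) →
    (∃ θ : G → ℂ, IsIrr θ ∧ cen 𝔐 (MonoidHom.id G) θ = ω) → (YS ι {P}).map ρ = ⊤

/-- FXA: the numbers of characters over an invariant block and over its local counterpart. -/
def Stmt_FXA : Prop :=
  ∀ (G B C : Type) [Group G] [Fintype G] [Group B] [Fintype B] [Group C]
    (𝔐 : Ideal (integralClosure ℤ ℂ)) (ℓ : ℕ) [Fact ℓ.Prime], 𝔐.IsMaximal →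
    (ℓ : integralClosure ℤ ℂ) ∈ 𝔐 →
    ∀ (ι : G →* B) (κ : B →* MulAut G) (ρ : B →* C) (h : LocV ι κ ρ), ¬ ℓ ∣ Nat.card C →
    ∀ ω : G → (integralClosure ℤ ℂ) ⧸ 𝔐, D1 ℓ ω → ∀ (P : Subgroup G) (x₀ : G),
    At1 ℓ ω P x₀ → (∀ b g, ω (κ b g) = ω g) →
    Nat.card {χ : B → ℂ // IsIrr χ ∧
      ∃ θ : G → ℂ, IsIrr θ ∧ cen 𝔐 (MonoidHom.id G) θ = ω ∧ ip (resj ι χ) θ ≠ 0} =
    Nat.card {η : YS ι {P} → ℂ // IsIrr η ∧
      ∃ ψ : stb {P} → ℂ, IsIrr ψ ∧ cen 𝔐 (stb {P}).subtype ψ = ω ∧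
        ip (resj (jS h.cl {P}) η) ψ ≠ 0}

open Classical in
/-- FXD: the sums of the squares of the orders of the stabilizers. -/
def Stmt_FXD : Prop :=
  ∀ (G B C : Type) [Group G] [Fintype G] [Group B] [Fintype B] [Group C]
    (𝔐 : Ideal (integralClosure ℤ ℂ)) (ℓ : ℕ) [Fact ℓ.Prime], 𝔐.IsMaximal →
    (ℓ : integralClosure ℤ ℂ) ∈ 𝔐 →
    ∀ (ι : G →* B) (κ : B →* MulAut G) (ρ : B →* C), LocV ι κ ρ → ¬ ℓ ∣ Nat.card C →
    (∀ x y : C, x * y = y * x) →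
    ∀ ω : G → (integralClosure ℤ ℂ) ⧸ 𝔐, D1 ℓ ω → ∀ (P : Subgroup G) (x₀ : G),
    At1 ℓ ω P x₀ → (∀ b g, ω (κ b g) = ω g) →
    ∑ θ ∈ irrOn (stb (∅ : Finset (Subgroup G))) with (∀ g, cg 𝔐 θ g = ω g),
      (Nat.card ((Stx κ ∅ θ).map ρ)) ^ 2 =
    ∑ ψ ∈ irrOn (stb {P}) with (∀ g, cg 𝔐 ψ g = ω g),
      (Nat.card ((Stx κ {P} ψ).map ρ)) ^ 2

/-- FIXW: the numbers of characters fixed by one element. -/
def Stmt_FIXW : Prop :=
  ∀ (G B C : Type) [Group G] [Fintype G] [Group B] [Fintype B] [Group C]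
    (𝔐 : Ideal (integralClosure ℤ ℂ)) (ℓ : ℕ) [Fact ℓ.Prime], 𝔐.IsMaximal →
    (ℓ : integralClosure ℤ ℂ) ∈ 𝔐 →
    ∀ (ι : G →* B) (κ : B →* MulAut G) (ρ : B →* C), LocV ι κ ρ → ¬ ℓ ∣ Nat.card C →
    ∀ ω : G → (integralClosure ℤ ℂ) ⧸ 𝔐, D1 ℓ ω → ∀ (P : Subgroup G) (x₀ : G),
    At1 ℓ ω P x₀ → ∀ c : C,
      Nat.card {θ : G → ℂ // IrrOn (stb ∅) θ ∧ (∀ g, cg 𝔐 θ g = ω g) ∧
        c ∈ (Stx κ ∅ θ).map ρ} =
      Nat.card {ψ : G → ℂ // IrrOn (stb {P}) ψ ∧ (∀ g, cg 𝔐 ψ g = ω g) ∧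
        c ∈ (Stx κ {P} ψ).map ρ}

/-- LVW: the local sum vanishes for the blocks of defect one. -/
def Stmt_LVW : Prop :=
  ∀ (G B C : Type) [Group G] [Fintype G] [Group B] [Fintype B] [Group C]
    (𝔐 : Ideal (integralClosure ℤ ℂ)) (ℓ : ℕ) [Fact ℓ.Prime], 𝔐.IsMaximal →
    (ℓ : integralClosure ℤ ℂ) ∈ 𝔐 →
    ∀ (ι : G →* B) (κ : B →* MulAut G) (ρ : B →* C), LocV ι κ ρ → ¬ ℓ ∣ Nat.card C →
    ∀ (L : Subgroup C) (β : Set (B → (integralClosure ℤ ℂ) ⧸ 𝔐)) (e : ℕ),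
      gT ι (D1 ℓ) β → VS 𝔐 ℓ ι κ ρ L β e = 0

end Pool.Agent.DPW


end

section

/-!
# Theorem W: definitions for the theory of the blocks of defect one
-/

namespace Pool.Agent.DPW

open Pool.Agent.DPB Representation

section Alg

variable {F T : Type} [Field F] [Group T]

/-- The product in the group algebra. -/
noncomputable def cvF [Fintype T] (a b : T → F) (x : T) : F := ∑ y, a y * b (y⁻¹ * x)

variable (F) in
open Classical in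
/-- The sum of the conjugacy class of `x₀`. -/
noncomputable def clsF (x₀ x : T) : F := if ∃ g, x = g * x₀ * g⁻¹ then 1 else 0

/-- `e` is an idempotent of the centre of the group algebra in the ideal generated by the sum of
the class of `x₀`, and `P` is a Sylow subgroup of order `ℓ` of the centralizer of `x₀`. -/
structure BK (ℓ : ℕ) [Fintype T] (P : Subgroup T) (x₀ : T) (e : T → F) : Prop where
  cf : e ∈ CF F T
  idem : cvF e e = e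
  card : Nat.card P = ℓ
  cen : ∀ u ∈ P, u * x₀ = x₀ * u
  sq : ¬ ℓ ^ 2 ∣ Nat.card (Subgroup.centralizer ({x₀} : Set T))
  fac : ∃ y ∈ CF F T, e = cvF (clsF F x₀) y

variable {V V' : Type} [AddCommGroup V] [Module F V] [AddCommGroup V'] [Module F V']

open Classical in
/-- The sum of the conjugates of `f` by representatives of the cosets of `P`. -/
noncomputable def trC [Fintype T] (P : Subgroup T) (ρ : Representation F T V)
    (ρ' : Representation F T V') (f : V →ₗ[F] V') : V →ₗ[F] V' :=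
  ∑ q : T ⧸ P, ρ' q.out ∘ₗ f ∘ₗ ρ q.out⁻¹

end Alg

end Pool.Agent.DPW


end

section

/-!
# Theorem W: statements of the modules, blocks of defect one
-/

namespace Pool.Agent.DPW

open Pool.Agent.DPB Pool.Agent.Lib_helper13 Representation

/-! ### The block idempotent -/

/-- SUPB: the support of the block idempotent. -/
def Stmt_SUPB : Prop :=
  ∀ (ℓ : ℕ) [Fact ℓ.Prime] (F T : Type) [Field F] [CharP F ℓ] [Group T] [Fintype T]
    (P : Subgroup T) (x₀ : T) (e : T → F), BK ℓ P x₀ e → ∀ h, e h ≠ 0 →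
    ∀ Q : Subgroup T, IsPGroup ℓ Q → (∀ u ∈ Q, u * h = h * u) → ∃ t, ∀ u ∈ Q, t * u * t⁻¹ ∈ P

/-- BKN: the Brauer homomorphism maps the block idempotent to one of the normalizer. -/
def Stmt_BKN : Prop :=
  ∀ (ℓ : ℕ) [Fact ℓ.Prime] (F T : Type) [Field F] [CharP F ℓ] [Group T] [Fintype T]
    (P : Subgroup T) [Fintype (NP P)] (x₀ : T) (e : T → F), BK ℓ P x₀ e →
    ∀ hx : x₀ ∈ Subgroup.normalizer (P : Set T),
      BK ℓ (P.subgroupOf (Subgroup.normalizer (P : Set T))) (⟨x₀, hx⟩ : NP P) (brz P e)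

/-- RPRB: the representations of the block are relatively projective. -/
def Stmt_RPRB : Prop :=
  ∀ (ℓ : ℕ) [Fact ℓ.Prime] (F T V : Type) [Field F] [CharP F ℓ] [Group T] [Fintype T]
    [AddCommGroup V] [Module F V] (P : Subgroup T) (x₀ : T) (e : T → F), BK ℓ P x₀ e →
    ∀ ρ : Representation F T V, Zop ρ e = 1 →
      ∃ α : V →ₗ[F] V, (∀ p ∈ P, ∀ v, α (ρ p v) = ρ p (α v)) ∧ trC P ρ ρ α = 1

/-- IDMB: existence of the block idempotent. -/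
def Stmt_IDMB : Prop :=
  ∀ (F T : Type) [Field F] [Group T] [Fintype T] (𝔐 : Ideal (integralClosure ℤ ℂ)) (ℓ : ℕ)
    [Fact ℓ.Prime], 𝔐.IsMaximal → (ℓ : integralClosure ℤ ℂ) ∈ 𝔐 →
    ∀ r : integralClosure ℤ ℂ →+* F, Function.Surjective r → RingHom.ker r = 𝔐 →
    ∀ χ₀ : T → ℂ, IsIrr χ₀ →
      ∃ a : T → integralClosure ℤ ℂ, (∀ g x, a (g * x * g⁻¹) = a x) ∧
        cvF (fun x => r (a x)) (fun x => r (a x)) = (fun x => r (a x)) ∧
        (∀ χ : T → ℂ, IsIrr χ → cen 𝔐 (MonoidHom.id T) χ = cen 𝔐 (MonoidHom.id T) χ₀ →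
          red 𝔐 (wt χ (fun h => (a h : ℂ))) = 1) ∧
        (∀ χ : T → ℂ, IsIrr χ → cen 𝔐 (MonoidHom.id T) χ ≠ cen 𝔐 (MonoidHom.id T) χ₀ →
          red 𝔐 (wt χ (fun h => (a h : ℂ))) = 0) ∧
        ∀ x₀ : T, cen 𝔐 (MonoidHom.id T) χ₀ x₀ ≠ 0 →
          ∃ y ∈ CF F T, (fun x => r (a x)) = cvF (clsF F x₀) y

/-! ### Representations -/

/-- EXTB: extension of homomorphisms. -/
def Stmt_EXTB : Prop :=
  ∀ (ℓ : ℕ) [Fact ℓ.Prime] (F N V V' W : Type) [Field F] [CharP F ℓ] [Group N] [Fintype N]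
    [AddCommGroup V] [Module F V] [Module.Finite F V] [AddCommGroup V'] [Module F V']
    [Module.Finite F V'] [AddCommGroup W] [Module F W] [Module.Finite F W]
    (ρ : Representation F N V) (ρ' : Representation F N V') (σ : Representation F N W)
    (P : Subgroup N) [P.Normal], Nat.card P = ℓ → σ.IsIrreducible →
    ∀ α : W →ₗ[F] W, trC P σ σ α = 1 →
    ∀ (j : W →ₗ[F] V) (j' : W →ₗ[F] V'), Eqv σ ρ j → Eqv σ ρ' j' →
      (∃ w, j w ∉ LinearMap.range (tN P ρ)) → (∃ w, j' w ∉ LinearMap.range (tN P ρ')) →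
      (∃ f : V →ₗ[F] V', (∀ p ∈ P, ∀ v, f (ρ p v) = ρ' p (f v)) ∧
        (∀ w, trC P ρ ρ' f (j w) = j' w) ∧
        ∀ (W2 : Type) [AddCommGroup W2] [Module F W2] (τ : Representation F N W2)
          (k : W2 →ₗ[F] V), Eqv τ ρ k → (∀ p ∈ P, τ p = 1) →
          (∀ g : W2 →ₗ[F] W, Eqv τ σ g → g = 0) → ∀ w, trC P ρ ρ' f (k w) = 0) ∨
      ∃ f : V' →ₗ[F] V, (∀ p ∈ P, ∀ v, f (ρ' p v) = ρ p (f v)) ∧
        (∀ w, trC P ρ' ρ f (j' w) = j w) ∧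
        ∀ (W2 : Type) [AddCommGroup W2] [Module F W2] (τ : Representation F N W2)
          (k : W2 →ₗ[F] V'), Eqv τ ρ' k → (∀ p ∈ P, τ p = 1) →
          (∀ g : W2 →ₗ[F] W, Eqv τ σ g → g = 0) → ∀ w, trC P ρ' ρ f (k w) = 0

/-- TRFB: transfer of homomorphisms. -/
def Stmt_TRFB : Prop :=
  ∀ (ℓ : ℕ) [Fact ℓ.Prime] (F T V V' : Type) [Field F] [CharP F ℓ] [Group T] [Fintype T]
    [AddCommGroup V] [Module F V] [AddCommGroup V'] [Module F V']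
    (ρ : Representation F T V) (ρ' : Representation F T V') (P : Subgroup T)
    [Fintype (NP P)], Nat.card P = ℓ →
    ∀ f : V →ₗ[F] V', (∀ p ∈ P, ∀ v, f (ρ p v) = ρ' p (f v)) →
      Eqv ρ ρ' (trC P ρ ρ' f) ∧
      ∀ v, (∀ p ∈ P, ρ p v = v) →
        trC P ρ ρ' f v - trC (P.subgroupOf (Subgroup.normalizer (P : Set T))) (rN P ρ)
          (rN P ρ') f v ∈ LinearMap.range (tN P ρ')

/-- KAIB: every irreducible representation of the local block occurs. -/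
def Stmt_KAIB : Prop :=
  ∀ (ℓ : ℕ) [Fact ℓ.Prime] (F T W : Type) [Field F] [CharP F ℓ] [Group T] [Fintype T]
    [AddCommGroup W] [Module F W] [Module.Finite F W] (P : Subgroup T) [Fintype (NP P)]
    (x₀ : T) (e : T → F), BK ℓ P x₀ e → ∀ σ : Representation F (NP P) W, σ.IsIrreducible →
      Zop σ (brz P e) = 1 →
      ∃ (n : ℕ) (ρ : Representation F T (Fin n → F)), Emb P ρ σ ∧ Zop ρ e = 1

/-- KAHB: every irreducible representation of the local block which occurs, occurs in an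
irreducible one. -/
def Stmt_KAHB : Prop :=
  ∀ (ℓ : ℕ) [Fact ℓ.Prime] (F T W V : Type) [Field F] [CharP F ℓ] [Group T] [Fintype T]
    [AddCommGroup W] [Module F W] [Module.Finite F W] [AddCommGroup V] [Module F V]
    [Module.Finite F V] (P : Subgroup T) [Fintype (NP P)] (x₀ : T) (e : T → F),
    BK ℓ P x₀ e → ∀ (ρ : Representation F T V) (σ : Representation F (NP P) W),
      σ.IsIrreducible → Zop σ (brz P e) = 1 → Zop ρ e = 1 → Emb P ρ σ →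
      ∃ (n : ℕ) (ρ' : Representation F T (Fin n → F)), ρ'.IsIrreducible ∧ Emb P ρ' σ ∧
        Zop ρ' e = 1

/-- KBB: at most one irreducible representation of the local block occurs. -/
def Stmt_KBB : Prop :=
  ∀ (ℓ : ℕ) [Fact ℓ.Prime] (F T V W W' : Type) [Field F] [IsAlgClosed F] [CharP F ℓ]
    [Group T] [Fintype T] [AddCommGroup V] [Module F V] [Module.Finite F V]
    [AddCommGroup W] [Module F W] [Module.Finite F W] [AddCommGroup W'] [Module F W']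
    [Module.Finite F W'] (P : Subgroup T) [Fintype (NP P)] (x₀ : T) (e : T → F),
    BK ℓ P x₀ e → ∀ (ρ : Representation F T V)
    (σ : Representation F (NP P) W) (σ' : Representation F (NP P) W'),
    ρ.IsIrreducible → σ.IsIrreducible → σ'.IsIrreducible → Zop σ (brz P e) = 1 →
    Zop σ' (brz P e) = 1 → Emb P ρ σ → Emb P ρ σ' → σ.character = σ'.character

/-- KCB: an irreducible representation of the local block occurs in at most one irreducible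
representation. -/
def Stmt_KCB : Prop :=
  ∀ (ℓ : ℕ) [Fact ℓ.Prime] (F T V V' W : Type) [Field F] [IsAlgClosed F] [CharP F ℓ]
    [Group T] [Fintype T] [AddCommGroup V] [Module F V] [Module.Finite F V]
    [AddCommGroup V'] [Module F V'] [Module.Finite F V'] [AddCommGroup W] [Module F W]
    [Module.Finite F W] (P : Subgroup T) [Fintype (NP P)] (x₀ : T) (e : T → F),
    BK ℓ P x₀ e → ∀ (ρ : Representation F T V) (ρ' : Representation F T V')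
    (σ : Representation F (NP P) W), ρ.IsIrreducible → ρ'.IsIrreducible → σ.IsIrreducible →
    Zop σ (brz P e) = 1 → Emb P ρ σ → Emb P ρ' σ → ρ.character = ρ'.character

/-- KDB: in a representation of the block which is not projective some irreducible representation
of the local block occurs. -/
def Stmt_KDB : Prop :=
  ∀ (ℓ : ℕ) [Fact ℓ.Prime] (F T V : Type) [Field F] [CharP F ℓ] [Group T] [Fintype T]
    [AddCommGroup V] [Module F V] [Module.Finite F V] (P : Subgroup T) [Fintype (NP P)]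
    (x₀ : T) (e : T → F), BK ℓ P x₀ e → ∀ ρ : Representation F T V, Zop ρ e = 1 →
      NPr P ρ →
      ∃ (n : ℕ) (σ : Representation F (NP P) (Fin n → F)), σ.IsIrreducible ∧
        Zop σ (brz P e) = 1 ∧ Emb P ρ σ

/-- NPJB: on a projective irreducible representation of the block a central element supported on
the classes of defect zero acts as the identity. -/
def Stmt_NPJB : Prop :=
  ∀ (ℓ : ℕ) [Fact ℓ.Prime] (F T V : Type) [Field F] [IsAlgClosed F] [CharP F ℓ] [Group T]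
    [Fintype T] [AddCommGroup V] [Module F V] [Module.Finite F V] (P : Subgroup T) (x₀ : T)
    (e : T → F), BK ℓ P x₀ e → ∀ ρ : Representation F T V, ρ.IsIrreducible → Zop ρ e = 1 →
    ¬ NPr P ρ → ∃ z ∈ CF F T, (∀ g u : T, u ≠ 1 → u ^ ℓ = 1 → u * g = g * u → z g = 0) ∧
      Zop ρ z = 1

/-- LEQB: the irreducible representations of the block and of the local block. -/
def Stmt_LEQB : Prop :=
  ∀ (ℓ : ℕ) [Fact ℓ.Prime] (F T : Type) [Field F] [IsAlgClosed F] [CharP F ℓ] [Group T]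
    [Fintype T] (P : Subgroup T) [Fintype (NP P)] (x₀ : T) (e : T → F), BK ℓ P x₀ e →
    (∀ (n : ℕ) (ρ : Representation F T (Fin n → F)), ρ.IsIrreducible → Zop ρ e = 1 →
      NPr P ρ) →
      Nat.card {φ : T → F // IsBr F φ ∧ Lz e φ = φ} =
      Nat.card {θ : NP P → F // IsBr F θ ∧ Lz (brz P e) θ = θ}

/-! ### Class functions -/

/-- SNGB: the class functions modulo those which depend only on the `ℓ'`-parts. -/
def Stmt_SNGB : Prop :=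
  ∀ (ℓ : ℕ) [Fact ℓ.Prime] (F T : Type) [Field F] [CharP F ℓ] [Group T] [Fintype T]
    (P : Subgroup T) [Fintype (NP P)] (x₀ : T) (e : T → F), BK ℓ P x₀ e →
      mlt (CF F T) (Lz e) 1 + mlt (CFr ℓ F (NP P)) (Lz (brz P e)) 1 =
        mlt (CF F (NP P)) (Lz (brz P e)) 1 + mlt (CFr ℓ F T) (Lz e) 1

/-- CNTB: the number of characters in a block of defect one and in its local counterpart. -/
def Stmt_CNTB : Prop :=
  ∀ (T : Type) [Group T] [Fintype T] (𝔐 : Ideal (integralClosure ℤ ℂ)) (ℓ : ℕ)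
    [Fact ℓ.Prime], 𝔐.IsMaximal → (ℓ : integralClosure ℤ ℂ) ∈ 𝔐 →
    ∀ χ₀ : T → ℂ, IsIrr χ₀ → D1 ℓ (cen 𝔐 (MonoidHom.id T) χ₀) →
    ∀ (P : Subgroup T) [Fintype (NP P)] (x₀ : T),
      At1 ℓ (cen 𝔐 (MonoidHom.id T) χ₀) P x₀ →
      Nat.card {χ : T → ℂ // IsIrr χ ∧
        cen 𝔐 (MonoidHom.id T) χ = cen 𝔐 (MonoidHom.id T) χ₀} =
      Nat.card {ψ : NP P → ℂ // IsIrr ψ ∧
        cen 𝔐 (Subgroup.normalizer (P : Set T)).subtype ψ = cen 𝔐 (MonoidHom.id T) χ₀}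

end Pool.Agent.DPW


end

section

/-!
# Blocks with cyclic defect groups: definitions (theorem X)
-/

namespace Pool.Agent.DPX

open Pool.Agent.DPB Pool.Agent.DPW Representation

section Data

/-- `P` is a cyclic Sylow subgroup of order `ℓ ^ n` of the centralizer of `x₀`, and `P₁` is its
subgroup of order `ℓ`. -/
structure CycD (ℓ n : ℕ) {G : Type} [Group G] (P₁ P : Subgroup G) (x₀ : G) : Prop where
  le : P₁ ≤ P
  c1 : Nat.card P₁ = ℓ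
  cyc : IsCyclic P
  card : Nat.card P = ℓ ^ n
  cen : ∀ u ∈ P, u * x₀ = x₀ * u
  sq : ¬ ℓ ^ (n + 1) ∣ Nat.card (Subgroup.centralizer ({x₀} : Set G))

/-- `P` is a cyclic defect group of the block with the central function `ω`. -/
structure AtX (ℓ n : ℕ) {G F : Type} [Group G] [Zero F] (ω : G → F) (P₁ P : Subgroup G)
    (x₀ : G) : Prop where
  cd : CycD ℓ n P₁ P x₀
  ne : ω x₀ ≠ 0
  mn : ∀ x, ω x ≠ 0 → ℓ ^ n ∣ Nat.card (Subgroup.centralizer ({x} : Set G))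

/-- The central function `ω` belongs to a block with nontrivial cyclic defect groups. -/
def DX (ℓ : ℕ) {G F : Type} [Group G] [Zero F] (ω : G → F) : Prop :=
  (∃ x, ω x ≠ 0 ∧ ∀ Q : Subgroup G, IsPGroup ℓ Q → Q ≤ Subgroup.centralizer ({x} : Set G) →
    IsCyclic Q) ∧
    ∀ x, ω x ≠ 0 → ℓ ∣ Nat.card (Subgroup.centralizer ({x} : Set G))

end Data

section Alg

variable {F T : Type} [Field F] [Group T] [Fintype T]

/-- `e` is an idempotent of the centre of the group algebra in the ideal generated by the sum of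
the class of `x₀`, `P` is a cyclic Sylow subgroup of the centralizer of `x₀`, and the Brauer
homomorphism of `P` does not annihilate `e`. -/
structure BKX (ℓ n : ℕ) (P₁ P : Subgroup T) (x₀ : T) (e : T → F) : Prop where
  cd : CycD ℓ n P₁ P x₀
  cf : e ∈ CF F T
  idem : cvF e e = e
  fac : ∃ y ∈ CF F T, e = cvF (clsF F x₀) y
  nz : ∃ h, e h ≠ 0 ∧ ∀ u ∈ P, u * h = h * u

/-- `e` is a primitive idempotent of the centre of the group algebra. -/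
def Prm (e : T → F) : Prop :=
  e ∈ CF F T ∧ cvF e e = e ∧ e ≠ 0 ∧
    ∀ f ∈ CF F T, cvF f f = f → cvF e f = f → f = 0 ∨ f = e

open Classical in
/-- The powers in the group algebra. -/
noncomputable def cvp (z : T → F) : ℕ → T → F
  | 0 => Pi.single 1 1
  | k + 1 => cvF (cvp z k) z

open Classical in
/-- The products in the group algebra. -/
noncomputable def cvq (a : ℕ → T → F) : ℕ → T → F
  | 0 => Pi.single 1 1
  | k + 1 => cvF (cvq a k) (a k)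

/-- `e F T` is the algebra of the `m × m`-matrices over `F[z] / (z ^ c)`, with matrix
units `E`. -/
structure NilB (e : T → F) (m c : ℕ) (E : Fin m → Fin m → T → F) (z : T → F) : Prop where
  mu : ∀ i j k l, cvF (E i j) (E k l) = if j = k then E i l else 0
  on : ∑ i, E i i = e
  zc : z ∈ CF F T
  ze : cvF e z = z
  sp : ∀ a : T → F, ∃ t : ℕ → Fin m → Fin m → F,
    cvF e a = ∑ k ∈ Finset.range c, ∑ i, ∑ j, t k i j • cvF (cvp z k) (E i j)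
  nl : cvF e (cvp z c) = 0
  nn : ∀ k < c, cvF e (cvp z k) ≠ 0

/-- The direct image under a homomorphism of groups. -/
def psh {S : Type} [Group S] [DecidableEq S] (π : T →* S) (a : T → F) (s : S) : F :=
  ∑ t with π t = s, a t

end Alg

/-- The structure theorem for the blocks with a cyclic defect group of order `ℓ ^ n` which
contains a central subgroup of order `ℓ`. -/
def NIXn (ℓ n : ℕ) (F : Type) [Field F] : Prop :=
  ∀ (T : Type) [Group T] [Fintype T] (P₁ P : Subgroup T) (x₀ : T) (e : T → F),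
    BKX ℓ n P₁ P x₀ e → Prm e → P₁ ≤ Subgroup.center T →
    ∃ (m : ℕ) (E : Fin m → Fin m → T → F) (z : T → F), NilB e m (ℓ ^ n) E z

section Rep

variable {F H V W : Type} [Field F] [Group H] [Fintype H] [AddCommGroup V] [Module F V]
  [AddCommGroup W] [Module F W]

/-- The trace of a linear map. -/
noncomputable def tr1 (σ : Representation F H W) (ρ : Representation F H V) (f : W →ₗ[F] V) :
    W →ₗ[F] V := ∑ h, ρ h ∘ₗ f ∘ₗ σ h⁻¹

/-- The homomorphism `j` is a trace, that is, it factors through a projective module. -/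
def Prj (σ : Representation F H W) (ρ : Representation F H V) (j : W →ₗ[F] V) : Prop :=
  ∃ f : W →ₗ[F] V, j = tr1 σ ρ f

open Classical in
/-- The sum of the conjugates under the elements of the subgroup `P`. -/
noncomputable def trS (P : Subgroup H) (σ : Representation F H W) (ρ : Representation F H V)
    (f : W →ₗ[F] V) : W →ₗ[F] V := ∑ h, if h ∈ P then ρ h ∘ₗ f ∘ₗ σ h⁻¹ else 0

/-- There is a homomorphism of the representation `σ` of the normalizer of `P` to `ρ` which does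
not factor through a projective module. -/
def EmbX (P : Subgroup H) [Fintype (NP P)] (ρ : Representation F H V)
    (σ : Representation F (NP P) W) : Prop :=
  ∃ j : W →ₗ[F] V, Eqv σ (rN P ρ) j ∧ ¬ Prj σ (rN P ρ) j

/-- `δ` is a derivation of the group into the endomorphisms. -/
def IsDer (ρ : Representation F H V) (δ : H → V →ₗ[F] V) : Prop :=
  ∀ g h, δ (g * h) = ρ g ∘ₗ δ h + δ g ∘ₗ ρ h

/-- The space of the outer derivations has dimension at most one. -/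
def DR2 (ρ : Representation F H V) : Prop :=
  ∀ δ₁ δ₂ : H → V →ₗ[F] V, IsDer ρ δ₁ → IsDer ρ δ₂ →
    ∃ (c₁ c₂ : F) (X : V →ₗ[F] V), (c₁ ≠ 0 ∨ c₂ ≠ 0) ∧
      ∀ g, c₁ • δ₁ g + c₂ • δ₂ g = ρ g ∘ₗ X - X ∘ₗ ρ g

/-- The space of the outer derivations of the part of `e` has dimension at most one. -/
def DR2e (ρ : Representation F H V) (e : H → F) : Prop :=
  ∀ δ₁ δ₂ : H → V →ₗ[F] V, IsDer ρ δ₁ → IsDer ρ δ₂ →
    (∀ g, Zop ρ e ∘ₗ δ₁ g = δ₁ g ∧ δ₁ g ∘ₗ Zop ρ e = δ₁ g) →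
    (∀ g, Zop ρ e ∘ₗ δ₂ g = δ₂ g ∧ δ₂ g ∘ₗ Zop ρ e = δ₂ g) →
    ∃ (c₁ c₂ : F) (X : V →ₗ[F] V), (c₁ ≠ 0 ∨ c₂ ≠ 0) ∧
      ∀ g, c₁ • δ₁ g + c₂ • δ₂ g = ρ g ∘ₗ X - X ∘ₗ ρ g

end Rep

end Pool.Agent.DPX


end

section

/-!
# Theorem X: statements of the modules, modular part
-/

namespace Pool.Agent.DPX

open Pool.Agent.DPB Pool.Agent.DPW Representation

/-! ### The block idempotent -/

/-- SUPX: the support of a product with the sum of a conjugacy class. -/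
def Stmt_SUPX : Prop :=
  (∀ (ℓ : ℕ) [Fact ℓ.Prime] (F T : Type) [Field F] [CharP F ℓ] [Group T] [Fintype T]
    (x₀ : T), ∀ y ∈ CF F T, ∀ h, cvF (clsF F x₀) y h ≠ 0 → ∀ Q : Subgroup T, IsPGroup ℓ Q →
    (∀ u ∈ Q, u * h = h * u) → ∃ t, ∀ u ∈ Q, t * u * t⁻¹ * x₀ = x₀ * (t * u * t⁻¹)) ∧
  (∀ (ℓ n : ℕ) [Fact ℓ.Prime] (T : Type) [Group T] [Fintype T] (P₁ P : Subgroup T) (x₀ : T),
    CycD ℓ n P₁ P x₀ → ∀ Q : Subgroup T, IsPGroup ℓ Q → (∀ u ∈ Q, u * x₀ = x₀ * u) →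
    ∃ t, t * x₀ = x₀ * t ∧ ∀ u ∈ Q, t * u * t⁻¹ ∈ P) ∧
  ∀ (ℓ n : ℕ) [Fact ℓ.Prime] (F T : Type) [Field F] [CharP F ℓ] [Group T] [Fintype T]
    (P₁ P : Subgroup T) (x₀ : T) (e : T → F), BKX ℓ n P₁ P x₀ e → ∀ h, e h ≠ 0 →
    ∀ Q : Subgroup T, IsPGroup ℓ Q → (∀ u ∈ Q, u * h = h * u) → ∃ t, ∀ u ∈ Q, t * u * t⁻¹ ∈ P

/-- GCX: elements whose centralizers have cyclic Sylow subgroups. -/
def Stmt_GCX : Prop :=
  ∀ (ℓ : ℕ) [Fact ℓ.Prime] (T : Type) [Group T] [Finite T] (P₁ : Subgroup T),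
    Nat.card P₁ = ℓ →
    (∀ P : Subgroup T, IsCyclic P → P₁ ≤ P → ∀ Q ≤ P, Nat.card Q = ℓ → Q = P₁) ∧
    (∀ P : Subgroup T, IsCyclic P → P₁ ≤ P → IsPGroup ℓ P → ∀ p ∈ P, p ≠ 1 →
      P₁ ≤ Subgroup.zpowers p) ∧
    (∀ t : T, (∀ u ∈ P₁, u * t = t * u) →
      (∀ Q : Subgroup T, IsPGroup ℓ Q → (∀ u ∈ Q, u * t = t * u) → IsCyclic Q) →
      ∀ g : T, (∀ u ∈ P₁, u * (g * t * g⁻¹) = g * t * g⁻¹ * u) →
        ∃ m ∈ Subgroup.normalizer (P₁ : Set T), m * t * m⁻¹ = g * t * g⁻¹) ∧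
    ∀ t : T, (∀ u ∈ P₁, u * t = t * u) →
      (∀ Q : Subgroup T, IsPGroup ℓ Q → Q ≤ Subgroup.normalizer (P₁ : Set T) →
        (∀ u ∈ Q, u * t = t * u) → IsCyclic Q) →
      ∀ Q : Subgroup T, IsPGroup ℓ Q → (∀ u ∈ Q, u * t = t * u) →
        IsCyclic Q ∧ ∃ c, c * t = t * c ∧
          ∀ u ∈ Q, c * u * c⁻¹ ∈ Subgroup.normalizer (P₁ : Set T)

/-- BKNX: the Brauer homomorphism of the subgroup of order `ℓ`. -/
def Stmt_BKNX : Prop :=
  (∀ (ℓ : ℕ) [Fact ℓ.Prime] (F T : Type) [Field F] [CharP F ℓ] [Group T] [Fintype T]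
    (P₁ : Subgroup T) [Fintype (NP P₁)], Nat.card P₁ = ℓ → ∀ a ∈ CF F T, ∀ b ∈ CF F T,
      brz P₁ a ∈ CF F (NP P₁) ∧ brz P₁ (cvF a b) = cvF (brz P₁ a) (brz P₁ b)) ∧
  ∀ (ℓ n : ℕ) [Fact ℓ.Prime] (F T : Type) [Field F] [CharP F ℓ] [Group T] [Fintype T]
    (P₁ P : Subgroup T) [Fintype (NP P₁)] (x₀ : T) (e : T → F), BKX ℓ n P₁ P x₀ e →
    P ≤ Subgroup.normalizer (P₁ : Set T) ∧
    ∀ hx : x₀ ∈ Subgroup.normalizer (P₁ : Set T),
      brz P₁ (clsF F x₀) = clsF F (⟨x₀, hx⟩ : NP P₁) ∧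
      BKX ℓ n (P₁.subgroupOf (Subgroup.normalizer (P₁ : Set T)))
        (P.subgroupOf (Subgroup.normalizer (P₁ : Set T))) (⟨x₀, hx⟩ : NP P₁) (brz P₁ e)

/-- LOCX: the elements of the local algebra are nilpotent or invertible. -/
def Stmt_LOCX : Prop :=
  ∀ (F T : Type) [Field F] [Group T] [Fintype T] (e : T → F), Prm e → ∀ z ∈ CF F T,
    cvF e z = z → (∃ k, cvp z k = 0) ∨ ∃ w ∈ CF F T, cvF e w = w ∧ cvF z w = e

/-- PRMX: the idempotent of the normalizer is primitive. -/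
def Stmt_PRMX : Prop :=
  ∀ (ℓ n : ℕ) [Fact ℓ.Prime] (F T : Type) [Field F] [CharP F ℓ] [Group T] [Fintype T]
    (P₁ P : Subgroup T) [Fintype (NP P₁)] (x₀ : T) (e : T → F), BKX ℓ n P₁ P x₀ e → Prm e →
    Prm (brz P₁ e)

/-! ### Relative projectivity and transfer -/

/-- RPRX: relative projectivity. -/
def Stmt_RPRX : Prop :=
  ∀ (ℓ n : ℕ) [Fact ℓ.Prime] (F T V : Type) [Field F] [CharP F ℓ] [Group T] [Fintype T]
    [AddCommGroup V] [Module F V] (P₁ P : Subgroup T) (x₀ : T) (e : T → F),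
    BKX ℓ n P₁ P x₀ e → ∀ ρ : Representation F T V,
      ∃ α : V →ₗ[F] V, (∀ p ∈ P, ∀ v, α (ρ p v) = ρ p (α v)) ∧ trC P ρ ρ α = Zop ρ e

/-- KEX: the idempotents `e` and `brz P₁ e` agree modulo maps which factor through projective
modules. -/
def Stmt_KEX : Prop :=
  ∀ (ℓ n : ℕ) [Fact ℓ.Prime] (F T V : Type) [Field F] [CharP F ℓ] [Group T] [Fintype T]
    [AddCommGroup V] [Module F V] (P₁ P : Subgroup T) [Fintype (NP P₁)] (x₀ : T) (e : T → F),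
    BKX ℓ n P₁ P x₀ e → ∀ ρ : Representation F T V,
      (∃ h : V →ₗ[F] V, Zop ρ e = Zop (rN P₁ ρ) (brz P₁ e) + trS P ρ ρ h) ∧
      ∀ (W : Type) [AddCommGroup W] [Module F W] (σ : Representation F (NP P₁) W)
        (j : W →ₗ[F] V), Eqv σ (rN P₁ ρ) j →
        Zop (rN P₁ ρ) (brz P₁ e) ∘ₗ j = j →
        ∃ g : W →ₗ[F] V, Zop ρ e ∘ₗ j = j + tr1 σ (rN P₁ ρ) g

/-- TRFX: transfer of homomorphisms. -/
def Stmt_TRFX : Prop :=
  ∀ (ℓ n : ℕ) [Fact ℓ.Prime] (F T V V' : Type) [Field F] [CharP F ℓ] [Group T] [Fintype T]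
    [AddCommGroup V] [Module F V] [AddCommGroup V'] [Module F V'] (P₁ P : Subgroup T)
    [Fintype (NP P₁)] (x₀ : T) (e : T → F), BKX ℓ n P₁ P x₀ e →
    ∀ (ρ : Representation F T V) (ρ' : Representation F T V') (φ : V →ₗ[F] V'),
      Eqv (rN P₁ ρ) (rN P₁ ρ') φ → Zop (rN P₁ ρ') (brz P₁ e) ∘ₗ φ = φ →
      ∃ Ψ : V →ₗ[F] V', Eqv ρ ρ' Ψ ∧ ∃ g : V →ₗ[F] V',
        Zop (rN P₁ ρ') (brz P₁ e) ∘ₗ Ψ = φ + tr1 (rN P₁ ρ) (rN P₁ ρ') g

/-- FREX: a module over an `ℓ`-group whose fixed vectors are traces is free. -/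
def Stmt_FREX : Prop :=
  ∀ (ℓ : ℕ) [Fact ℓ.Prime] (F H V : Type) [Field F] [CharP F ℓ] [Group H] [Fintype H]
    [AddCommGroup V] [Module F V] [Module.Finite F V] (ρ : Representation F H V)
    (P : Subgroup H), IsPGroup ℓ P →
    ((∀ v, (∀ p ∈ P, ρ p v = v) → v ∈ LinearMap.range (tN P ρ)) ↔
      ∃ g : V →ₗ[F] V, trS P ρ ρ g = 1)

/-- FRYX: a module over a cyclic `ℓ`-group which is free over the subgroup of order `ℓ` is
free. -/
def Stmt_FRYX : Prop :=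
  ∀ (ℓ n : ℕ) [Fact ℓ.Prime] (F H V : Type) [Field F] [CharP F ℓ] [Group H] [Fintype H]
    [AddCommGroup V] [Module F V] (ρ : Representation F H V) (P₁ P : Subgroup H), P₁ ≤ P →
    Nat.card P₁ = ℓ → IsCyclic P → Nat.card P = ℓ ^ n →
    (∀ v, (∀ p ∈ P₁, ρ p v = v) → v ∈ LinearMap.range (tN P₁ ρ)) →
    ∀ v, (∀ p ∈ P, ρ p v = v) → v ∈ LinearMap.range (tN P ρ)

/-! ### The correspondence of the irreducible representations -/

/-- KAIX: every irreducible representation of the normalizer occurs. -/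
def Stmt_KAIX : Prop :=
  ∀ (ℓ : ℕ) [Fact ℓ.Prime] (F T W : Type) [Field F] [CharP F ℓ] [Group T] [Fintype T]
    [AddCommGroup W] [Module F W] [Module.Finite F W] (P₁ : Subgroup T) [Fintype (NP P₁)],
    Nat.card P₁ = ℓ → ∀ σ : Representation F (NP P₁) W, σ.IsIrreducible →
      ∃ (d : ℕ) (ρ : Representation F T (Fin d → F)), EmbX P₁ ρ σ

/-- KAHX: a representation which occurs, occurs in an irreducible one. -/
def Stmt_KAHX : Prop :=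
  ∀ (F T W V : Type) [Field F] [Group T] [Fintype T] [AddCommGroup W] [Module F W]
    [AddCommGroup V] [Module F V] [Module.Finite F V] (P₁ : Subgroup T) [Fintype (NP P₁)]
    (ρ : Representation F T V) (σ : Representation F (NP P₁) W), EmbX P₁ ρ σ →
      ∃ (d : ℕ) (ρ' : Representation F T (Fin d → F)), ρ'.IsIrreducible ∧ EmbX P₁ ρ' σ

/-- KDX: if the idempotent `e` does not act as a projective map then some irreducible
representation in `e` occurs. -/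
def Stmt_KDX : Prop :=
  ∀ (F H V : Type) [Field F] [Group H] [Fintype H] [AddCommGroup V] [Module F V]
    [Module.Finite F V] (ρ : Representation F H V), ∀ e ∈ CF F H, cvF e e = e →
    ¬ Prj ρ ρ (Zop ρ e) →
    ∃ (d : ℕ) (σ : Representation F H (Fin d → F)) (j : (Fin d → F) →ₗ[F] V),
      σ.IsIrreducible ∧ Zop σ e = 1 ∧ Eqv σ ρ j ∧ ¬ Prj σ ρ j

/-- NPRX: the irreducible representations in `e` are not projective. -/
def Stmt_NPRX : Prop :=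
  ∀ (ℓ n : ℕ) [Fact ℓ.Prime] (F T V : Type) [Field F] [IsAlgClosed F] [CharP F ℓ] [Group T]
    [Fintype T] [AddCommGroup V] [Module F V] [Module.Finite F V] (P₁ P : Subgroup T)
    [Fintype (NP P₁)] (x₀ : T) (e : T → F), BKX ℓ n P₁ P x₀ e → Prm e →
    ∀ ρ : Representation F T V, ρ.IsIrreducible → Zop ρ e = 1 →
      ¬ Prj ρ ρ 1 ∧ ¬ Prj (rN P₁ ρ) (rN P₁ ρ) (Zop (rN P₁ ρ) (brz P₁ e)) ∧
      ¬ ∃ g : V →ₗ[F] V, trS P ρ ρ g = 1

/-- SPX: the radical of the algebra of a block of a group with a normal subgroup of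
order `ℓ`. -/
def Stmt_SPX : Prop :=
  ∀ (ℓ n : ℕ) [Fact ℓ.Prime] (F N : Type) [Field F] [IsAlgClosed F] [CharP F ℓ] [Group N]
    [Fintype N] (P₁ P : Subgroup N) [P₁.Normal] (x₀ : N) (e : N → F), BKX ℓ n P₁ P x₀ e →
    Prm e → (∀ h, e h ≠ 0 → h ∈ Subgroup.centralizer (P₁ : Set N)) → NIXn ℓ n F →
    ∃ (z : N → F) (s K : ℕ) (a b : Fin s → N → F),
      cvF e z = z ∧ cvp z K = 0 ∧ (∀ i, cvF e (a i) = a i) ∧ (∀ i, cvF (b i) e = b i) ∧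
      ∀ (V : Type) [AddCommGroup V] [Module F V] (ρ : Representation F N V),
        (∀ c ∈ Subgroup.centralizer (P₁ : Set N), ρ c ∘ₗ Zop ρ z = Zop ρ z ∘ₗ ρ c) ∧
        (∀ (t : ℕ) (g : N) (v : V), ρ g ((Zop ρ z ^ t) v) ∈ LinearMap.range (Zop ρ z ^ t)) ∧
        (∑ i, Zop ρ (a i) ∘ₗ Zop ρ (b i) = Zop ρ e) ∧
        ∀ (V' : Type) [AddCommGroup V'] [Module F V'] (ρ' : Representation F N V')
          (f : V →ₗ[F] V'), f ∘ₗ Zop ρ z = Zop ρ' z ∘ₗ f →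
          ∀ c ∈ Subgroup.centralizer (P₁ : Set N),
            ρ' c ∘ₗ (∑ i, Zop ρ' (a i) ∘ₗ f ∘ₗ Zop ρ (b i)) =
              (∑ i, Zop ρ' (a i) ∘ₗ f ∘ₗ Zop ρ (b i)) ∘ₗ ρ c

/-- UNX: extension of homomorphisms. -/
def Stmt_UNX : Prop :=
  ∀ (ℓ n : ℕ) [Fact ℓ.Prime] (F N V V' W : Type) [Field F] [IsAlgClosed F] [CharP F ℓ]
    [Group N] [Fintype N] [AddCommGroup V] [Module F V] [Module.Finite F V]
    [AddCommGroup V'] [Module F V'] [Module.Finite F V'] [AddCommGroup W] [Module F W]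
    [Module.Finite F W] (P₁ P : Subgroup N) [P₁.Normal] (x₀ : N) (e : N → F),
    BKX ℓ n P₁ P x₀ e → Prm e → (∀ h, e h ≠ 0 → h ∈ Subgroup.centralizer (P₁ : Set N)) →
    NIXn ℓ n F →
    ∀ (ρ : Representation F N V) (ρ' : Representation F N V') (σ : Representation F N W),
      σ.IsIrreducible → Zop σ e = 1 → ∀ (j : W →ₗ[F] V) (j' : W →ₗ[F] V'), j ≠ 0 → j' ≠ 0 →
      Eqv σ ρ j → Eqv σ ρ' j' →
      (∃ f : V →ₗ[F] V', Eqv ρ ρ' f ∧ Zop ρ' e ∘ₗ f = f ∧ f ∘ₗ j = j' ∧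
        ∀ (W2 : Type) [AddCommGroup W2] [Module F W2] [Module.Finite F W2]
          (τ : Representation F N W2) (k : W2 →ₗ[F] V), τ.IsIrreducible → Eqv τ ρ k →
          (∀ g : W2 →ₗ[F] W, Eqv τ σ g → g = 0) → f ∘ₗ k = 0) ∨
      ∃ f : V' →ₗ[F] V, Eqv ρ' ρ f ∧ Zop ρ e ∘ₗ f = f ∧ f ∘ₗ j' = j ∧
        ∀ (W2 : Type) [AddCommGroup W2] [Module F W2] [Module.Finite F W2]
          (τ : Representation F N W2) (k : W2 →ₗ[F] V'), τ.IsIrreducible → Eqv τ ρ' k →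
          (∀ g : W2 →ₗ[F] W, Eqv τ σ g → g = 0) → f ∘ₗ k = 0

/-- KBX: at most one irreducible representation of the local block occurs. -/
def Stmt_KBX : Prop :=
  ∀ (ℓ n : ℕ) [Fact ℓ.Prime] (F T V W W' : Type) [Field F] [IsAlgClosed F] [CharP F ℓ]
    [Group T] [Fintype T] [AddCommGroup V] [Module F V] [Module.Finite F V]
    [AddCommGroup W] [Module F W] [Module.Finite F W] [AddCommGroup W'] [Module F W']
    [Module.Finite F W'] (P₁ P : Subgroup T) [Fintype (NP P₁)] (x₀ : T) (e : T → F),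
    BKX ℓ n P₁ P x₀ e → Prm e → NIXn ℓ n F → ∀ (ρ : Representation F T V)
    (σ : Representation F (NP P₁) W) (σ' : Representation F (NP P₁) W'),
    ρ.IsIrreducible → σ.IsIrreducible → σ'.IsIrreducible → Zop σ (brz P₁ e) = 1 →
    Zop σ' (brz P₁ e) = 1 → EmbX P₁ ρ σ → EmbX P₁ ρ σ' → σ.character = σ'.character

/-- KCX: an irreducible representation of the local block occurs in at most one irreducible
representation. -/
def Stmt_KCX : Prop :=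
  ∀ (ℓ n : ℕ) [Fact ℓ.Prime] (F T V V' W : Type) [Field F] [IsAlgClosed F] [CharP F ℓ]
    [Group T] [Fintype T] [AddCommGroup V] [Module F V] [Module.Finite F V]
    [AddCommGroup V'] [Module F V'] [Module.Finite F V'] [AddCommGroup W] [Module F W]
    [Module.Finite F W] (P₁ P : Subgroup T) [Fintype (NP P₁)] (x₀ : T) (e : T → F),
    BKX ℓ n P₁ P x₀ e → Prm e → NIXn ℓ n F → ∀ (ρ : Representation F T V)
    (ρ' : Representation F T V') (σ : Representation F (NP P₁) W),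
    ρ.IsIrreducible → ρ'.IsIrreducible → σ.IsIrreducible → Zop σ (brz P₁ e) = 1 →
    EmbX P₁ ρ σ → EmbX P₁ ρ' σ → ρ.character = ρ'.character

/-- LEQX: the irreducible representations of the block and of the local block. -/
def Stmt_LEQX : Prop :=
  ∀ (ℓ n : ℕ) [Fact ℓ.Prime] (F T : Type) [Field F] [IsAlgClosed F] [CharP F ℓ] [Group T]
    [Fintype T] (P₁ P : Subgroup T) [Fintype (NP P₁)] (x₀ : T) (e : T → F),
    BKX ℓ n P₁ P x₀ e → Prm e → NIXn ℓ n F →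
      Nat.card {φ : T → F // IsBr F φ ∧ Lz e φ = φ} =
      Nat.card {θ : NP P₁ → F // IsBr F θ ∧ Lz (brz P₁ e) θ = θ}

/-! ### Class functions -/

/-- SNGX: the class functions modulo those which depend only on the `ℓ'`-parts. -/
def Stmt_SNGX : Prop :=
  ∀ (ℓ n : ℕ) [Fact ℓ.Prime] (F T : Type) [Field F] [CharP F ℓ] [Group T] [Fintype T]
    (P₁ P : Subgroup T) [Fintype (NP P₁)] (x₀ : T) (e : T → F), BKX ℓ n P₁ P x₀ e →
      mlt (CF F T) (Lz e) 1 + mlt (CFr ℓ F (NP P₁)) (Lz (brz P₁ e)) 1 =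
        mlt (CF F (NP P₁)) (Lz (brz P₁ e)) 1 + mlt (CFr ℓ F T) (Lz e) 1

/-- CNTI: the dimensions of the centres of the block and of the local block. -/
def Stmt_CNTI : Prop :=
  ∀ (ℓ n : ℕ) [Fact ℓ.Prime] (F T : Type) [Field F] [IsAlgClosed F] [CharP F ℓ] [Group T]
    [Fintype T] (P₁ P : Subgroup T) [Fintype (NP P₁)] (x₀ : T) (e : T → F),
    BKX ℓ n P₁ P x₀ e → Prm e → NIXn ℓ n F →
      mlt (CF F T) (Lz e) 1 = mlt (CF F (NP P₁)) (Lz (brz P₁ e)) 1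

/-! ### The algebra of a block with one irreducible representation -/

/-- UNSX: a block whose algebra is a matrix algebra over a truncated polynomial algebra has one
irreducible representation. -/
def Stmt_UNSX : Prop :=
  ∀ (F T : Type) [Field F] [IsAlgClosed F] [Group T] [Fintype T] (e : T → F), e ∈ CF F T →
    cvF e e = e → e ≠ 0 → ∀ (m c : ℕ) (E : Fin m → Fin m → T → F) (z : T → F),
    NilB e m c E z → 0 < m ∧ 0 < c ∧
      (∀ (V : Type) [AddCommGroup V] [Module F V] [Module.Finite F V]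
        (ρ : Representation F T V), ρ.IsIrreducible → Zop ρ e = 1 →
        Module.finrank F V = m ∧ Zop ρ z = 0) ∧
      Nat.card {φ : T → F // IsBr F φ ∧ Lz e φ = φ} = 1

/-- CENX: the dimension of the centre. -/
def Stmt_CENX : Prop :=
  ∀ (F T : Type) [Field F] [Group T] [Fintype T] (e : T → F), e ∈ CF F T →
    cvF e e = e → e ≠ 0 → ∀ (m c : ℕ) (E : Fin m → Fin m → T → F) (z : T → F),
    NilB e m c E z → mlt (CF F T) (Lz e) 1 = c ∧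
      ∀ w ∈ CF F T, cvF e w = w → ∃ t : ℕ → F,
        w = ∑ k ∈ Finset.range c, t k • cvF e (cvp z k)

/-- MATX: lifting of matrix units. -/
def Stmt_MATX : Prop :=
  ∀ (F T V : Type) [Field F] [IsAlgClosed F] [Group T] [Fintype T] [AddCommGroup V]
    [Module F V] [Module.Finite F V] (e : T → F), e ∈ CF F T → cvF e e = e →
    ∀ ρ : Representation F T V, ρ.IsIrreducible → Zop ρ e = 1 →
    Nat.card {φ : T → F // IsBr F φ ∧ Lz e φ = φ} = 1 →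
    ∃ (m : ℕ) (E : Fin m → Fin m → T → F) (b : Module.Basis (Fin m) F V) (K : ℕ),
      (∀ i j k l, cvF (E i j) (E k l) = if j = k then E i l else 0) ∧ ∑ i, E i i = e ∧
      (∀ i j k, Zop ρ (E i j) (b k) = if j = k then b i else 0) ∧
      ∀ a : ℕ → T → F, (∀ i, cvF e (a i) = a i ∧ Zop ρ (a i) = 0) → cvq a K = 0

/-- ALGX: the structure of the algebra of a block with one irreducible representation whose
space of outer derivations has dimension at most one. -/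
def Stmt_ALGX : Prop :=
  ∀ (F T V : Type) [Field F] [IsAlgClosed F] [Group T] [Fintype T] [AddCommGroup V]
    [Module F V] [Module.Finite F V] (e : T → F), e ∈ CF F T → cvF e e = e →
    ∀ ρ : Representation F T V, ρ.IsIrreducible → Zop ρ e = 1 →
    Nat.card {φ : T → F // IsBr F φ ∧ Lz e φ = φ} = 1 → DR2 ρ →
    ∃ (m c : ℕ) (E : Fin m → Fin m → T → F) (z : T → F), NilB e m c E z

/-! ### Outer derivations -/

/-- DERP: derivations and relative projectivity. -/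
def Stmt_DERP : Prop :=
  ∀ (F H V : Type) [Field F] [Group H] [Fintype H] [AddCommGroup V] [Module F V]
    (ρ : Representation F H V) (P : Subgroup H) (δ : H → V →ₗ[F] V), IsDer ρ δ →
    (∀ g : V →ₗ[F] V, ∃ Y : V →ₗ[F] V, ∀ p ∈ P,
      δ p ∘ₗ trS P ρ ρ g = ρ p ∘ₗ Y - Y ∘ₗ ρ p) ∧
    (∀ g : V →ₗ[F] V, ∃ Y : V →ₗ[F] V, ∀ p ∈ P,
      trS P ρ ρ g ∘ₗ δ p = ρ p ∘ₗ Y - Y ∘ₗ ρ p) ∧
    ∀ α : V →ₗ[F] V, (∀ p ∈ P, ∀ v, α (ρ p v) = ρ p (α v)) → trC P ρ ρ α = 1 →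
      (∃ X : V →ₗ[F] V, ∀ p ∈ P, δ p = ρ p ∘ₗ X - X ∘ₗ ρ p) →
      ∃ Y : V →ₗ[F] V, ∀ g, δ g = ρ g ∘ₗ Y - Y ∘ₗ ρ g

/-- E1ZX: outer derivations for a truncated polynomial algebra. -/
def Stmt_E1ZX : Prop :=
  ∀ (F N V : Type) [Field F] [Group N] [Fintype N] [AddCommGroup V] [Module F V]
    [Module.Finite F V] (e : N → F), e ∈ CF F N → cvF e e = e →
    ∀ (m c : ℕ) (E : Fin m → Fin m → N → F) (z : N → F), NilB e m c E z →
    ∀ ρ : Representation F N V,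
      (∀ φ : V →ₗ[F] V, Eqv ρ ρ φ → Zop ρ e ∘ₗ φ = φ →
        ∃ (μ : F) (g : V →ₗ[F] V), φ = μ • Zop ρ e + tr1 ρ ρ g) → DR2e ρ e

/-- E1TX: outer derivations of the irreducible representations of the block. -/
def Stmt_E1TX : Prop :=
  ∀ (ℓ n : ℕ) [Fact ℓ.Prime] (F T V : Type) [Field F] [IsAlgClosed F] [CharP F ℓ] [Group T]
    [Fintype T] [AddCommGroup V] [Module F V] [Module.Finite F V] (P₁ P : Subgroup T)
    [Fintype (NP P₁)] (x₀ : T) (e : T → F), BKX ℓ n P₁ P x₀ e →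
    ∀ (m c : ℕ) (E : Fin m → Fin m → NP P₁ → F) (z : NP P₁ → F),
    NilB (brz P₁ e) m c E z →
    ∀ ρ : Representation F T V, ρ.IsIrreducible → Zop ρ e = 1 → DR2 ρ

/-- DERX: outer derivations of a central extension. -/
def Stmt_DERX : Prop :=
  ∀ (ℓ n : ℕ) [Fact ℓ.Prime] (F T S V : Type) [Field F] [IsAlgClosed F] [CharP F ℓ]
    [Group T] [Fintype T] [Group S] [Fintype S] [AddCommGroup V] [Module F V]
    [Module.Finite F V] (π : T →* S) (P₁ P : Subgroup T), Function.Surjective π →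
    π.ker = P₁ → P₁ ≤ Subgroup.center T → Nat.card P₁ = ℓ → P₁ ≤ P → IsCyclic P →
    Nat.card P = ℓ ^ n → ∀ σ : Representation F S V, σ.IsIrreducible →
      ((¬ ∃ g : V →ₗ[F] V, trS (P.map π) σ σ g = 1) → DR2 σ → DR2 (σ.comp π)) ∧
      (Prj σ σ 1 → DR2 (σ.comp π))

/-! ### Central extensions -/

/-- QUAX: the idempotent of the quotient by a central subgroup of order `ℓ`. -/
def Stmt_QUAX : Prop :=
  ∀ (ℓ n : ℕ) [Fact ℓ.Prime] (F T S : Type) [Field F] [CharP F ℓ] [Group T] [Fintype T]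
    [Group S] [Fintype S] [DecidableEq S] (π : T →* S) (P₁ P : Subgroup T) (x₀ : T)
    (e : T → F), Function.Surjective π → π.ker = P₁ → P₁ ≤ Subgroup.center T →
    BKX ℓ n P₁ P x₀ e → Prm e →
    Nat.card (Subgroup.centralizer ({x₀} : Set T)) =
      ℓ * Nat.card (Subgroup.centralizer ({π x₀} : Set S)) ∧
    psh π (clsF F x₀) = clsF F (π x₀) ∧ Prm (psh π e) ∧
    (∃ y ∈ CF F S, psh π e = cvF (clsF F (π x₀)) y) ∧
    ∃ h, psh π e h ≠ 0 ∧ ∀ u ∈ P.map π, u * h = h * u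

/-- QUOX: the block of the quotient by a central subgroup of order `ℓ`. -/
def Stmt_QUOX : Prop :=
  ∀ (ℓ n : ℕ) [Fact ℓ.Prime] (F T S : Type) [Field F] [CharP F ℓ] [Group T] [Fintype T]
    [Group S] [Fintype S] [DecidableEq S] (π : T →* S) (P₁ P : Subgroup T) (x₀ : T)
    (e : T → F), Function.Surjective π → π.ker = P₁ → P₁ ≤ Subgroup.center T → 0 < n →
    BKX ℓ (n + 1) P₁ P x₀ e → Prm e →
    ∃ P₂ : Subgroup S, BKX ℓ n P₂ (P.map π) (π x₀) (psh π e) ∧ Prm (psh π e) ∧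
      Subgroup.normalizer (P₂ : Set S) ≤ Subgroup.centralizer (P₂ : Set S)

/-- QUZX: the irreducible representations in `e` are those of the quotient. -/
def Stmt_QUZX : Prop :=
  ∀ (ℓ : ℕ) [Fact ℓ.Prime] (F T S : Type) [Field F] [IsAlgClosed F] [CharP F ℓ] [Group T]
    [Fintype T] [Group S] [Fintype S] [DecidableEq S] (π : T →* S) (P₁ : Subgroup T)
    (e : T → F), Function.Surjective π → π.ker = P₁ → Nat.card P₁ = ℓ → e ∈ CF F T →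
    psh π e ∈ CF F S ∧
    Nat.card {φ : T → F // IsBr F φ ∧ Lz e φ = φ} =
      Nat.card {φ : S → F // IsBr F φ ∧ Lz (psh π e) φ = φ} ∧
    ∀ (V : Type) [AddCommGroup V] [Module F V] [Module.Finite F V],
      (∀ σ : Representation F S V,
        Zop (σ.comp π : Representation F T V) e = Zop σ (psh π e) ∧
        (Representation.IsIrreducible (σ.comp π : Representation F T V) ↔
          σ.IsIrreducible)) ∧
      ∀ ρ : Representation F T V, ρ.IsIrreducible → ∃ σ : Representation F S V, ρ = σ.comp π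

/-- DIMX: the dimension of the centre of the block and of the block of the quotient. -/
def Stmt_DIMX : Prop :=
  ∀ (ℓ : ℕ) [Fact ℓ.Prime] (F T S : Type) [Field F] [CharP F ℓ] [Group T] [Fintype T]
    [Group S] [Fintype S] [DecidableEq S] (π : T →* S) (P₁ : Subgroup T) (e : T → F),
    Function.Surjective π → π.ker = P₁ → P₁ ≤ Subgroup.center T → Nat.card P₁ = ℓ →
    e ∈ CF F T → cvF e e = e → e ≠ 0 → ∀ (m c : ℕ) (E : Fin m → Fin m → T → F) (z : T → F),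
    NilB e m c E z → ∃ a : ℕ, c = ℓ * a ∧ mlt (CF F S) (Lz (psh π e)) 1 = a ∧
      ∀ u ∈ P₁, u ≠ 1 → ∃ w ∈ CF F T, cvF e w = w ∧ (∃ w' ∈ CF F T, cvF w w' = e) ∧
        ∀ x, e (u⁻¹ * x) - e x = cvF w (cvp z a) x

/-- SSX: the algebra of a block whose representations are projective. -/
def Stmt_SSX : Prop :=
  ∀ (F S : Type) [Field F] [IsAlgClosed F] [Group S] [Fintype S] (e : S → F), Prm e →
    (∀ (V : Type) [AddCommGroup V] [Module F V] [Module.Finite F V]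
      (σ : Representation F S V), ∃ g : V →ₗ[F] V, tr1 σ σ g = Zop σ e) →
    ∃ (m : ℕ) (E : Fin m → Fin m → S → F), NilB e m 1 E 0

/-- BASX: the structure theorem for the defect groups of order `ℓ`. -/
def Stmt_BASX : Prop :=
  ∀ (ℓ : ℕ) [Fact ℓ.Prime] (F : Type) [Field F] [IsAlgClosed F] [CharP F ℓ], NIXn ℓ 1 F

/-- STPX: the induction step of the structure theorem. -/
def Stmt_STPX : Prop :=
  ∀ (ℓ n : ℕ) [Fact ℓ.Prime] (F : Type) [Field F] [IsAlgClosed F] [CharP F ℓ], 0 < n →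
    NIXn ℓ n F → NIXn ℓ (n + 1) F

end Pool.Agent.DPX


end

section

/-!
# Module CLIFF: Clifford theory for the stabilizers of the chains of the base group
-/

namespace Pool.Agent.DP

open Pool.Agent.Lib_helper13 Representation

namespace CLIFF

theorem mem_irrOn {G : Type*} [Group G] [Fintype G] {S : Subgroup G} {f : G → ℂ} :
    f ∈ irrOn S ↔ IrrOn S f := by
  rw [irrOn, Finset.mem_image]
  constructor
  · rintro ⟨ψ, hψ, rfl⟩
    refine ⟨?_, fun x hx => ext0_of_not_mem ψ hx⟩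
    have h : (fun s : S => ext0 ψ (s : G)) = ψ := by
      ext s
      rw [ext0_of_mem ψ s.2]
    rw [h]
    exact mem_irrF.mp hψ
  · rintro ⟨h1, h2⟩
    refine ⟨fun s => f s, mem_irrF.mpr h1, ?_⟩
    ext x
    by_cases hx : x ∈ S
    · rw [ext0_of_mem _ hx]
    · rw [ext0_of_not_mem _ hx, h2 x hx]

section Main

variable {K O G X : Type} [Group K] [Finite K] [MulAction K O] [Fintype O] [DecidableEq O]
  [Group G] [Fintype G] [Group X]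

/-- The outer product of a family of characters. -/
def out (τ : Finset (Subgroup (O → G))) (θ : O → G → ℂ) (a : stb τ) : ℂ :=
  ∏ o, θ o ((a : O → G) o)

/-- Admissible data for the definition of the function of the theorem. -/
def Adm (𝔐 : Ideal (integralClosure ℤ ℂ)) (ℓ : ℕ) (π : Setoid O) (e : ℕ)
    (b : O → G → (integralClosure ℤ ℂ) ⧸ 𝔐)
    (q : Finset (Subgroup (O → G)) × (O → G → ℂ) × (O → Subgroup G) × (O → G → ℂ) × (O → ℕ) ×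
      (O → G → ℕ → ℕ → ℂ)) : Prop :=
  q.1 ∈ ClCh O G ℓ ∧ (∀ o, IrrOn (stb (comp q.1 o)) (q.2.1 o)) ∧ prt q.1 q.2.1 = π ∧
    ∑ o, df ℓ (stb (comp q.1 o)) (q.2.1 o) = e ∧ (fun o => cg 𝔐 (q.2.1 o)) = b ∧
    SD 𝔐 ℓ π b q.2.2.1 q.2.2.2.1 q.2.2.2.2.1 q.2.2.2.2.2

open Classical in
/-- The function of the theorem. -/
noncomputable def Phi (𝔐 : Ideal (integralClosure ℤ ℂ)) (ℓ d : ℕ) (i : Gam K O G →* X)
    (ω : X → (integralClosure ℤ ℂ) ⧸ 𝔐) (π : Setoid O) (e : ℕ)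
    (b : O → G → (integralClosure ℤ ℂ) ⧸ 𝔐) : ℚ :=
  if h : ∃ q, Adm 𝔐 ℓ π e b q then
    NN 𝔐 ℓ d i ω π e h.choose.2.2.1 h.choose.2.2.2.1 h.choose.2.2.2.2.1 h.choose.2.2.2.2.2
  else 0

theorem Phi_eq (h5 : Stmt_MIND) (𝔐 : Ideal (integralClosure ℤ ℂ)) (ℓ d : ℕ) [Fact ℓ.Prime]
    (h𝔐 : 𝔐.IsMaximal) (hℓ : (ℓ : integralClosure ℤ ℂ) ∈ 𝔐) (i : Gam K O G →* X)
    (ω : X → (integralClosure ℤ ℂ) ⧸ 𝔐) {τ : Finset (Subgroup (O → G))} (hτ : τ ∈ ClCh O G ℓ)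
    {θ : O → G → ℂ} (hθ : ∀ o, IrrOn (stb (comp τ o)) (θ o)) (S' : O → Subgroup G)
    (θ' : O → G → ℂ) (m : O → ℕ) (M : O → G → ℕ → ℕ → ℂ)
    (hS : SD 𝔐 ℓ (prt τ θ) (fun o => cg 𝔐 (θ o)) S' θ' m M) :
    Phi 𝔐 ℓ d i ω (prt τ θ) (∑ o, df ℓ (stb (comp τ o)) (θ o)) (fun o => cg 𝔐 (θ o)) =
      NN 𝔐 ℓ d i ω (prt τ θ) (∑ o, df ℓ (stb (comp τ o)) (θ o)) S' θ' m M := by
  have h : ∃ q, Adm 𝔐 ℓ (prt τ θ) (∑ o, df ℓ (stb (comp τ o)) (θ o)) (fun o => cg 𝔐 (θ o)) q :=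
    ⟨(τ, θ, S', θ', m, M), hτ, hθ, rfl, rfl, rfl, hS⟩
  rw [Phi, dif_pos h]
  exact h5 K O G X 𝔐 ℓ h𝔐 hℓ d _ i ω _ _ _ _ _ _ _ _ _ _ h.choose_spec.2.2.2.2.2 hS

theorem exists_out (h2 : Stmt_IRRPI) {ℓ : ℕ} {τ : Finset (Subgroup (O → G))}
    (hτ : τ ∈ ClCh O G ℓ) {θ : stb τ → ℂ} (hθ : IsIrr θ) :
    ∃ θf : O → G → ℂ, (∀ o, IrrOn (stb (comp τ o)) (θf o)) ∧ out τ θf = θ := by
  classical
  by_contra hcon
  obtain ⟨-, -, h3⟩ := h2 O G (fun o => stb (comp τ o)) (stb τ) (stb_closed (mem_ClCh.mp hτ).2)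
  have h4 := h3 (fun θ' => if θ' = θ then 1 else 0)
  rw [Finset.sum_eq_single_of_mem θ (mem_irrF.mpr hθ)] at h4
  · rw [if_pos rfl] at h4
    rw [Finset.sum_eq_zero] at h4
    · exact one_ne_zero h4
    · intro θf hθf
      rw [if_neg]
      intro h5
      exact hcon ⟨θf, fun o => mem_irrOn.mp (Fintype.mem_piFinset.mp hθf o), h5⟩
  · intro θ' _ hne
    rw [if_neg hne]

omit [Finite K] in
theorem card_transport {Y : Type} [Group Y] [Fintype Y] (S : Subgroup Y) (p : Y → K)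
    (E : S → ℂ) (P : (Y → ℂ) → Prop) {L L' : Subgroup K} (h : L = L') :
    Nat.card {η : L → ℂ // IsIrr η ∧ P (indc S (fun s => E s * ext0 η (p s)))} =
      Nat.card {η : L' → ℂ // IsIrr η ∧ P (indc S (fun s => E s * ext0 η (p s)))} := by
  subst h
  rfl

/-- The property counted. -/
def PP (𝔐 : Ideal (integralClosure ℤ ℂ)) (ℓ d : ℕ) (i : Gam K O G →* X)
    (ω : X → (integralClosure ℤ ℂ) ⧸ 𝔐) (τ : Finset (Subgroup (O → G))) (χ : YT K τ → ℂ) : Prop :=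
  HasDefect ℓ χ d ∧ ∀ g, cen 𝔐 (i.comp (YT K τ).subtype) χ g = ω g

theorem key (h2 : Stmt_IRRPI) (h3 : Stmt_PERA) (h4 : Stmt_PERD) (h5 : Stmt_MIND)
    (𝔐 : Ideal (integralClosure ℤ ℂ)) (ℓ d : ℕ) [Fact ℓ.Prime]
    (h𝔐 : 𝔐.IsMaximal) (hℓ : (ℓ : integralClosure ℤ ℂ) ∈ 𝔐) (i : Gam K O G →* X)
    (ω : X → (integralClosure ℤ ℂ) ⧸ 𝔐) {τ : Finset (Subgroup (O → G))} (hτ : τ ∈ ClCh O G ℓ)
    (θ : stb τ → ℂ) :
    ∃ E : inert (cT K τ) θ → ℂ, IsIrr θ → IsChr E ∧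
      (∀ a (ha : jT K τ a ∈ inert (cT K τ) θ), E ⟨jT K τ a, ha⟩ = θ a) ∧
      ∀ θf : O → G → ℂ, (∀ o, IrrOn (stb (comp τ o)) (θf o)) → out τ θf = θ →
        (Nat.card (inert (cT K τ) θ) : ℚ) *
          Nat.card {η : (inert (cT K τ) θ).map (pT K τ) → ℂ // IsIrr η ∧
            PP 𝔐 ℓ d i ω τ (indc (inert (cT K τ) θ) (fun s => E s * ext0 η (pT K τ s)))} =
        (∏ o, (Nat.card (stb (comp τ o)) : ℚ)) *
          Phi 𝔐 ℓ d i ω (prt τ θf) (∑ o, df ℓ (stb (comp τ o)) (θf o))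
            (fun o => cg 𝔐 (θf o)) := by
  by_cases hθ : IsIrr θ
  · obtain ⟨θf, hθf, rfl⟩ := exists_out h2 hτ hθ
    obtain ⟨S', θ', m, M, E, hSD, hE, hEx, hcount⟩ := h4 K O G X 𝔐 ℓ d i ω τ θf hτ hθf
    refine ⟨E, fun _ => ⟨hE, hEx, ?_⟩⟩
    intro θg hθg hout
    have hu : θg = θf :=
      (h2 O G (fun o => stb (comp τ o)) (stb τ) (stb_closed (mem_ClCh.mp hτ).2)).2.1 θg θf hθg hθf
        (fun a => congrFun hout a)
    subst hu
    rw [Phi_eq h5 𝔐 ℓ d h𝔐 hℓ i ω hτ hθf S' θ' m M hSD]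
    have hmap : (inert (cT K τ) (out τ θg)).map (pT K τ) = Kp K (prt τ θg) :=
      (h3 K O G ℓ τ θg hτ hθf).2.1
    have hT := card_transport (inert (cT K τ) (out τ θg)) (pT K τ) E (PP 𝔐 ℓ d i ω τ) hmap
    exact (congrArg (fun n : ℕ => (Nat.card (inert (cT K τ) (out τ θg)) : ℚ) * (n : ℚ)) hT).trans
      hcount
  · exact ⟨fun _ => 0, fun h => absurd h hθ⟩

end Main

end CLIFF

open _root_.Pool.Agent.DP.CLIFF in
theorem CLIFF_thm (h1 : Stmt_CLG) (h2 : Stmt_IRRPI) (h3 : Stmt_PERA) (h4 : Stmt_PERD)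
    (h5 : Stmt_MIND) : Stmt_CLIFF := by
  intro K O G X _ _ _ _ _ _ _ _ 𝔐 ℓ _ h𝔐 hℓ d i ω
  refine ⟨Phi 𝔐 ℓ d i ω, ?_, ?_, ?_⟩
  · intro τ hτ
    choose E hE using fun θ : stb τ → ℂ => key h2 h3 h4 h5 𝔐 ℓ d h𝔐 hℓ i ω hτ θ
    have hC := (h1 (stb τ) (YT K τ) K (jT K τ) (cT K τ) (pT K τ) (clG_T K τ)
      (fun θ => (inert (cT K τ) θ).map (pT K τ)) E
      (fun θ hθ => ⟨rfl, (hE θ hθ).1, (hE θ hθ).2.1⟩)).2 (PP 𝔐 ℓ d i ω τ)
    have hI := (h2 O G (fun o => stb (comp τ o)) (stb τ) (stb_closed (mem_ClCh.mp hτ).2))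
    have h6 : (Nat.card (YT K τ) : ℚ) * cnt 𝔐 ℓ d (i.comp (YT K τ).subtype) ω =
        (Nat.card (YT K τ) : ℚ) * Nat.card {χ : YT K τ → ℂ // IsIrr χ ∧ PP 𝔐 ℓ d i ω τ χ} := rfl
    rw [h6, hC, hI.2.2, Finset.mul_sum]
    refine Finset.sum_congr rfl fun θf hθf => ?_
    have hθf' : ∀ o, IrrOn (stb (comp τ o)) (θf o) :=
      fun o => mem_irrOn.mp (Fintype.mem_piFinset.mp hθf o)
    exact (hE (out τ θf) (hI.1 θf hθf')).2.2 θf hθf' rfl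
  · intro π e b hne
    have hex : ∃ q, Adm 𝔐 ℓ π e b q := by
      by_contra hcon
      exact hne (by rw [Phi, dif_neg hcon])
    obtain ⟨⟨τ, θf, S', θ', m, M⟩, hτ, hθf, hπ, he, hb, hSD⟩ := hex
    dsimp only at hτ hθf hπ he hb hSD
    subst hπ
    subst he
    subst hb
    choose E hE using fun θ : stb τ → ℂ => key h2 h3 h4 h5 𝔐 ℓ d h𝔐 hℓ i ω hτ θ
    have hC := (h1 (stb τ) (YT K τ) K (jT K τ) (cT K τ) (pT K τ) (clG_T K τ)
      (fun θ => (inert (cT K τ) θ).map (pT K τ)) E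
      (fun θ hθ => ⟨rfl, (hE θ hθ).1, (hE θ hθ).2.1⟩)).1
    have hI := (h2 O G (fun o => stb (comp τ o)) (stb τ) (stb_closed (mem_ClCh.mp hτ).2))
    have hcount := (hE (out τ θf) (hI.1 θf hθf)).2.2 θf hθf rfl
    have hne2 : (∏ o, (Nat.card (stb (comp τ o)) : ℚ)) *
          Phi 𝔐 ℓ d i ω (prt τ θf) (∑ o, df ℓ (stb (comp τ o)) (θf o))
            (fun o => cg 𝔐 (θf o)) ≠ 0 := by
      refine mul_ne_zero ?_ hne
      rw [Finset.prod_ne_zero_iff]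
      intro o _
      exact_mod_cast Nat.card_pos.ne'
    rw [← hcount] at hne2
    have hne3 := right_ne_zero_of_mul hne2
    have hne4 : Nat.card {η : (inert (cT K τ) (out τ θf)).map (pT K τ) → ℂ // IsIrr η ∧
            PP 𝔐 ℓ d i ω τ (indc (inert (cT K τ) (out τ θf))
              (fun s => E (out τ θf) s * ext0 η (pT K τ s)))} ≠ 0 := by
      exact_mod_cast hne3
    have hnonempty := (Nat.card_ne_zero.mp hne4).1
    obtain ⟨η, hη, hP⟩ := hnonempty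
    obtain ⟨hψ1, hψ2⟩ := hC (out τ θf) (hI.1 θf hθf) η hη
    exact ⟨τ, hτ, θf, hθf, fun o => rfl, _, hψ1, hP.2, hψ2⟩
  · intro τ hτ θ hθ S' θ' m M hSD
    exact Phi_eq h5 𝔐 ℓ d h𝔐 hℓ i ω hτ hθ S' θ' m M hSD

end Pool.Agent.DP


end

section

set_option linter.unusedSectionVars false

/-!
# Theorem V: module MINV
-/

namespace Pool.Agent.DPV

open Pool.Agent.DP Pool.Agent.Lib_helper13 Representation
open Pool.Agent.Lib_helper13.Dade (pCore DadeHolds dadeSum)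

namespace MINV

theorem conjInd_class {Y X : Type} [Group Y] [Group X] (i : Y →* X) (x : X) (a y : Y) :
    conjInd (i (a * y * a⁻¹)) x = conjInd (i y) x := by
  rw [map_mul, map_mul, map_inv, conjInd_conj]

/-- Equal central functions: equal counts. -/
theorem core (h1 : Stmt_ASV) (h2 : Stmt_ASCV) (O G B C Y K X : Type) [Fintype O] [DecidableEq O]
    [Group G] [Fintype G] [Group B] [Fintype B] [Group C] [Group Y] [Fintype Y] [Group K]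
    [Finite K] [Group X] (𝔐 : Ideal (integralClosure ℤ ℂ)) (ℓ : ℕ) [Fact ℓ.Prime]
    (hM : 𝔐.IsMaximal) (hℓ : (ℓ : integralClosure ℤ ℂ) ∈ 𝔐)
    (ι : G →* B) (κ : B →* MulAut G) (ρ : B →* C) (hloc : LocV ι κ ρ)
    (j : (O → G) →* Y) (p : Y →* K) (φ : Y →* Gam (Equiv.Perm O) O B) (hext : ExtS ι κ j p φ)
    (J : Subgroup K) (U : O → Subgroup C) (g g' : O → B) (S S' : O → Subgroup B)
    (θ θ' : O → B → ℂ) (m m' : O → ℕ) (M M' : O → B → ℕ → ℕ → ℂ)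
    (hS : SDV ℓ ι ρ p φ J U g S θ m M) (hS' : SDV ℓ ι ρ p φ J U g' S' θ' m' M')
    (hg : ∀ o, ρ (g' o) = ρ (g o)) (hc : ∀ o, cgT 𝔐 ι.range (θ o) = cgT 𝔐 ι.range (θ' o))
    (d e : ℕ) (i : Y →* X) (ω : X → (integralClosure ℤ ℂ) ⧸ 𝔐) :
    NNR 𝔐 ℓ d i ω p φ J e g' S' θ' m' M' = NNR 𝔐 ℓ d i ω p φ J e g S θ m M := by
  have hAS : ∀ (k : J) (x : X),
      IsIntegral ℤ (AS p φ g S θ m M (k : K) (fun y => conjInd (i y) x)) ∧
      IsIntegral ℤ (AS p φ g' S' θ' m' M' (k : K) (fun y => conjInd (i y) x)) ∧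
      red 𝔐 (AS p φ g S θ m M (k : K) (fun y => conjInd (i y) x)) =
      red 𝔐 (AS p φ g' S' θ' m' M' (k : K) (fun y => conjInd (i y) x)) := by
    intro k x
    exact h1 O G B C Y K 𝔐 ℓ hM hℓ ι κ ρ hloc j p φ hext J U g g' S S' θ θ' m m' M M' hS hS'
      hg hc (k : K) k.2 (fun y => conjInd (i y) x) (fun a y => conjInd_class i x a y)
      (fun y => isIntegral_conjInd _ _)
  have hcl : ∀ (x : X) (l k : J),
      AS p φ g S θ m M ((l * k * l⁻¹ : J) : K) (fun y => conjInd (i y) x) =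
      AS p φ g S θ m M (k : K) (fun y => conjInd (i y) x) := by
    intro x l k
    exact h2 O G B C Y K ℓ ι κ ρ hloc j p φ hext J U g S θ m M hS (k : K) k.2 (l : K) l.2
      (fun y => conjInd (i y) x) (fun a y => conjInd_class i x a y)
  have hcl' : ∀ (x : X) (l k : J),
      AS p φ g' S' θ' m' M' ((l * k * l⁻¹ : J) : K) (fun y => conjInd (i y) x) =
      AS p φ g' S' θ' m' M' (k : K) (fun y => conjInd (i y) x) := by
    intro x l k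
    exact h2 O G B C Y K ℓ ι κ ρ hloc j p φ hext J U g' S' θ' m' M' hS' (k : K) k.2 (l : K) l.2
      (fun y => conjInd (i y) x) (fun a y => conjInd_class i x a y)
  have hprime : 𝔐.IsPrime := hM.isPrime
  have key : ∀ (η : J → ℂ), IsIrr η → ∀ x : X,
      red 𝔐 (wt η (fun k => AS p φ g S θ m M (k : K) (fun y => conjInd (i y) x))) =
      red 𝔐 (wt η (fun k => AS p φ g' S' θ' m' M' (k : K) (fun y => conjInd (i y) x))) := by
    intro η hη x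
    exact red_wt_eq 𝔐 hℓ hη (⊥ : Subgroup J) IsPGroup.of_bot _ _
      (fun l k => hcl x l k) (fun k => (hAS k x).1) (fun l k => hcl' x l k)
      (fun k => (hAS k x).2.1) (fun k _ => (hAS k x).2.2)
  have hset : ∀ η : J → ℂ,
      (IsIrr η ∧ (∃ d', HasDefect ℓ η d' ∧ e + d' = d) ∧
        ∀ x, red 𝔐 (wt η (fun k => AS p φ g' S' θ' m' M' (k : K)
          (fun y => conjInd (i y) x))) = ω x) ↔
      (IsIrr η ∧ (∃ d', HasDefect ℓ η d' ∧ e + d' = d) ∧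
        ∀ x, red 𝔐 (wt η (fun k => AS p φ g S θ m M (k : K)
          (fun y => conjInd (i y) x))) = ω x) := by
    intro η
    constructor
    · rintro ⟨ha, hb, hc⟩
      exact ⟨ha, hb, fun x => (key η ha x).trans (hc x)⟩
    · rintro ⟨ha, hb, hc⟩
      exact ⟨ha, hb, fun x => (key η ha x).symm.trans (hc x)⟩
  unfold NNR
  rw [Nat.card_congr (Equiv.subtypeEquivRight hset)]

end MINV

theorem MINV_thm (h1 : Stmt_ASV) (h2 : Stmt_ASCV) (h3 : Stmt_TWV) : Stmt_MINV := by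
  classical
  intro O G B C Y K X _ _ _ _ _ _ _ _ _ _ _ _ 𝔐 ℓ _ hM hℓ ι κ ρ hloc j p φ hext J U g g' S S'
    θ θ' m m' M M' hS hS' hg hlam d e i ω
  -- a choice of the twist which depends only on the group and the two characters
  let Lm : Subgroup C → (B → ℂ) → (B → ℂ) → (C → ℂ) := fun L f f' =>
    if h : ∃ lam : C → ℂ, LinOn L lam ∧ cgT 𝔐 ι.range f' =
      cgT 𝔐 ι.range (fun x => f x * lam (ρ x)) then h.choose else fun _ => 1
  have hLm : ∀ o, LinOn (U o) (Lm (U o) (θ o) (θ' o)) ∧ cgT 𝔐 ι.range (θ' o) =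
      cgT 𝔐 ι.range (fun x => θ o x * Lm (U o) (θ o) (θ' o) (ρ x)) := by
    intro o
    have h := hlam o
    simp only [Lm, dif_pos h]
    exact h.choose_spec
  have hU : ∀ y, p y ∈ J → ∀ o, U ((φ y).right • o) = U o := by
    intro y hy o
    rw [← hS.img ((φ y).right • o), ← hS.img o, hS.cS y hy o]
  obtain ⟨hS1, hN⟩ := h3 O G B C Y K X 𝔐 ℓ ι κ ρ hloc j p φ hext J U g S θ m M hS
    (fun o => Lm (U o) (θ o) (θ' o)) (fun o => (hLm o).1) (by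
      intro y hy o
      show Lm (U ((φ y).right • o)) (θ ((φ y).right • o)) (θ' ((φ y).right • o)) =
        Lm (U o) (θ o) (θ' o)
      rw [hU y hy o, hS.cθ y hy o, hS'.cθ y hy o])
  rw [← hN d e i ω]
  exact MINV.core h1 h2 O G B C Y K X 𝔐 ℓ hM hℓ ι κ ρ hloc j p φ hext J U g g' S S' _ θ' m m' _
    M' hS1 hS' hg (fun o => (hLm o).2.symm) d e i ω

end Pool.Agent.DPV


end

section

/-!
# An irreducible representation of the local block occurs in at most one irreducible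
representation (module KCB)
-/

namespace Pool.Agent.DPW

open Pool.Agent.DPB Pool.Agent.Lib_helper13 Representation

namespace KCB

variable {F T V V' W : Type} [Field F] [Group T] [AddCommGroup V] [Module F V]
  [AddCommGroup V'] [Module F V'] [AddCommGroup W] [Module F W]

/-- From a map commuting with `P` to equality of the trace functions. -/
theorem core (ℓ : ℕ) [Fact ℓ.Prime] [CharP F ℓ] [Fintype T] [Module.Finite F V]
    [Module.Finite F V'] (h4 : Stmt_TRFB) (P : Subgroup T) [Fintype (NP P)]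
    (ρ : Representation F T V)
    (ρ' : Representation F T V') (hP : Nat.card P = ℓ)
    (hρ : ρ.IsIrreducible) (hρ' : ρ'.IsIrreducible) (j : W →ₗ[F] V) (j' : W →ₗ[F] V')
    (hfix : ∀ w, ∀ p ∈ P, ρ p (j w) = j w) (hj' : ∃ w, j' w ∉ LinearMap.range (tN P ρ'))
    (f : V →ₗ[F] V') (hf : ∀ p ∈ P, ∀ v, f (ρ p v) = ρ' p (f v))
    (hfj : ∀ w, trC (P.subgroupOf (Subgroup.normalizer (P : Set T))) (rN P ρ) (rN P ρ') f (j w)
      = j' w) :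
    ρ.character = ρ'.character := by
  obtain ⟨hf', hd⟩ := h4 ℓ F T V V' ρ ρ' P hP f hf
  apply KC.char_eq ρ ρ' hρ hρ' _ hf'
  intro h0
  obtain ⟨w, hw⟩ := hj'
  apply hw
  have h1 := hd (j w) (hfix w)
  rw [h0, LinearMap.zero_apply, hfj, zero_sub] at h1
  have := Submodule.neg_mem _ h1
  rwa [neg_neg] at this

end KCB

open _root_.Pool.Agent.DPW.KCB in
/-- KCB -/
theorem KCB_thm (h1 : Stmt_BKN) (h2 : Stmt_RPRB) (h3 : Stmt_EXTB) (h4 : Stmt_TRFB) :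
    Stmt_KCB := by
  intro ℓ _ F T V V' W _ _ _ _ _ _ _ _ _ _ _ _ _ _ P _ x₀ e he ρ ρ' σ hρ hρ' hσ hZ hE hE'
  have hP : Nat.card P = ℓ := he.card
  obtain ⟨j, hj, hjr⟩ := hE
  obtain ⟨j', hj', hjr'⟩ := hE'
  have hle : P ≤ Subgroup.normalizer (P : Set T) := Subgroup.le_normalizer
  have hx : x₀ ∈ Subgroup.normalizer (P : Set T) := by
    rw [Subgroup.mem_normalizer_iff]
    intro h
    constructor
    · intro hh
      rw [← he.cen h hh, mul_inv_cancel_right]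
      exact hh
    · intro hh
      have h5 := he.cen _ hh
      have h6 : x₀ * h * x₀⁻¹ = h := by
        have h7 : x₀ * h = x₀ * (x₀ * h * x₀⁻¹) := by
          rw [← h5]
          group
        have h8 := mul_left_cancel h7
        exact h8.symm
      rwa [h6] at hh
  set PN := P.subgroupOf (Subgroup.normalizer (P : Set T)) with hPN
  have hPNn : PN.Normal := Subgroup.normal_in_normalizer
  have hbk := h1 ℓ F T P x₀ e he hx
  have hcard : Nat.card PN = ℓ := hbk.card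
  obtain ⟨α, -, hα⟩ := h2 ℓ F (NP P) W PN ⟨x₀, hx⟩ (brz P e) hbk σ hZ
  have htriv := PTR_thm ℓ F (NP P) W σ PN hcard hσ
  have hfix : ∀ w, ∀ p ∈ P, ρ p (j w) = j w := by
    intro w p hp
    have h := hj ⟨p, hle hp⟩ w
    rw [htriv ⟨p, hle hp⟩ hp] at h
    exact h.symm
  have hfix' : ∀ w, ∀ p ∈ P, ρ' p (j' w) = j' w := by
    intro w p hp
    have h := hj' ⟨p, hle hp⟩ w
    rw [htriv ⟨p, hle hp⟩ hp] at h
    exact h.symm
  rcases h3 ℓ F (NP P) V V' W (rN P ρ) (rN P ρ') σ PN hcard hσ α hα j j' hj hj'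
    (by rw [hPN, KC.tN_eq]; exact hjr) (by rw [hPN, KC.tN_eq]; exact hjr') with h | h
  · obtain ⟨f, hf, hfj, -⟩ := h
    exact core ℓ h4 P ρ ρ' hP hρ hρ' j j' hfix hjr' f
      (fun p hp v => hf ⟨p, hle hp⟩ hp v) hfj
  · obtain ⟨f, hf, hfj, -⟩ := h
    exact (core ℓ h4 P ρ' ρ hP hρ' hρ j' j hfix' hjr f
      (fun p hp v => hf ⟨p, hle hp⟩ hp v) hfj).symm

end Pool.Agent.DPW


end

section

/-!
# FXC: the numbers of subgroups which contain an element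
-/

namespace Pool.Agent.DPW

open Pool.Agent.DP Pool.Agent.DPV Pool.Agent.Lib_helper13 Representation
open Pool.Agent.Lib_helper13.Dade (pCore DadeHolds dadeSum)

namespace FXC

variable {C I : Type} [Group C] [Fintype C] [Fintype I]

open Classical in
/-- The number of the members of the family which contain `D`. -/
noncomputable def cnt (S : I → Subgroup C) (D : Subgroup C) : ℕ :=
  ∑ i, if D ≤ S i then 1 else 0

open Classical in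
omit [Fintype C] in
theorem cnt_eq (S : I → Subgroup C) (D : Subgroup C) : cnt S D = Nat.card {i // D ≤ S i} := by
  unfold cnt
  rw [Nat.card_eq_fintype_card, Fintype.card_subtype, Finset.card_filter]

open Classical in
theorem sq_eq (A Γ : Subgroup C) : (Nat.card ↥(A ⊓ Γ)) ^ 2 =
    ∑ p : C × C, if p.1 ∈ Γ ∧ p.2 ∈ Γ then (if Subgroup.closure {p.1, p.2} ≤ A then 1 else 0)
      else 0 := by
  have h1 : Nat.card ↥(A ⊓ Γ) = (Finset.univ.filter fun x : C => x ∈ A ⊓ Γ).card := by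
    rw [Nat.card_eq_fintype_card, Fintype.card_subtype]
  have h2 : ∀ p : C × C, (if p.1 ∈ Γ ∧ p.2 ∈ Γ then
      (if Subgroup.closure {p.1, p.2} ≤ A then 1 else 0) else 0) =
      if (p.1 ∈ A ⊓ Γ) ∧ (p.2 ∈ A ⊓ Γ) then 1 else 0 := by
    intro p
    have h3 : Subgroup.closure {p.1, p.2} ≤ A ↔ p.1 ∈ A ∧ p.2 ∈ A := by
      rw [Subgroup.closure_le, Set.insert_subset_iff, Set.singleton_subset_iff]
      rfl
    rw [h3, Subgroup.mem_inf, Subgroup.mem_inf]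
    by_cases ha : p.1 ∈ Γ <;> by_cases hb : p.2 ∈ Γ <;> by_cases hc : p.1 ∈ A <;>
      by_cases hd : p.2 ∈ A <;> simp [ha, hb, hc, hd]
  rw [Finset.sum_congr rfl fun p _ => h2 p, ← Finset.card_filter, h1, sq, ← Finset.card_product]
  congr 1
  ext p
  simp only [Finset.mem_product, Finset.mem_filter, Finset.mem_univ, true_and]

open Classical in
theorem sum_sq (S : I → Subgroup C) (Γ : Subgroup C) :
    ∑ i, (Nat.card ↥(S i ⊓ Γ)) ^ 2 =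
      ∑ p : C × C, if p.1 ∈ Γ ∧ p.2 ∈ Γ then cnt S (Subgroup.closure {p.1, p.2}) else 0 := by
  rw [Finset.sum_congr rfl fun i _ => sq_eq (S i) Γ, Finset.sum_comm]
  refine Finset.sum_congr rfl fun p _ => ?_
  by_cases h : p.1 ∈ Γ ∧ p.2 ∈ Γ
  · simp only [if_pos h]
    rfl
  · simp only [if_neg h]
    exact Finset.sum_const_zero

open Classical in
theorem cnt_zpowers {I' : Type} [Fintype I'] (c : C) (S : I → Subgroup C) (S' : I' → Subgroup C)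
    (h : ∀ Γ : Subgroup C, Γ ≤ Subgroup.zpowers c →
      ∑ i, (Nat.card ↥(S i ⊓ Γ)) ^ 2 = ∑ i, (Nat.card ↥(S' i ⊓ Γ)) ^ 2) (n : ℕ) :
    ∀ Γ : Subgroup C, Γ ≤ Subgroup.zpowers c → Nat.card Γ = n → cnt S Γ = cnt S' Γ := by
  induction n using Nat.strong_induction_on with
  | _ n ih =>
    intro Γ hΓ hn
    have h1 := h Γ hΓ
    rw [sum_sq, sum_sq] at h1
    have h2 : ∑ p : C × C, (if p.1 ∈ Γ ∧ p.2 ∈ Γ then
        ((cnt S (Subgroup.closure {p.1, p.2}) : ℤ) - cnt S' (Subgroup.closure {p.1, p.2}))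
        else 0) = 0 := by
      have h3 : ∀ p : C × C, (if p.1 ∈ Γ ∧ p.2 ∈ Γ then
          ((cnt S (Subgroup.closure {p.1, p.2}) : ℤ) - cnt S' (Subgroup.closure {p.1, p.2}))
          else 0) = ((if p.1 ∈ Γ ∧ p.2 ∈ Γ then cnt S (Subgroup.closure {p.1, p.2}) else 0 : ℕ) : ℤ)
          - ((if p.1 ∈ Γ ∧ p.2 ∈ Γ then cnt S' (Subgroup.closure {p.1, p.2}) else 0 : ℕ) : ℤ) := by
        intro p
        by_cases hp : p.1 ∈ Γ ∧ p.2 ∈ Γ
        · simp only [if_pos hp]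
        · simp only [if_neg hp]
          simp
      rw [Finset.sum_congr rfl fun p _ => h3 p, Finset.sum_sub_distrib, ← Nat.cast_sum,
        ← Nat.cast_sum, h1, sub_self]
    have h4 : ∀ p : C × C, (if p.1 ∈ Γ ∧ p.2 ∈ Γ then
        ((cnt S (Subgroup.closure {p.1, p.2}) : ℤ) - cnt S' (Subgroup.closure {p.1, p.2}))
        else 0) = if Subgroup.closure {p.1, p.2} = Γ then ((cnt S Γ : ℤ) - cnt S' Γ) else 0 := by
      intro p
      by_cases hp : p.1 ∈ Γ ∧ p.2 ∈ Γ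
      · rw [if_pos hp]
        by_cases he : Subgroup.closure {p.1, p.2} = Γ
        · rw [if_pos he, he]
        · rw [if_neg he]
          have hle : Subgroup.closure {p.1, p.2} ≤ Γ := by
            rw [Subgroup.closure_le, Set.insert_subset_iff, Set.singleton_subset_iff]
            exact hp
          have hlt : Nat.card (Subgroup.closure {p.1, p.2}) < n := by
            rw [← hn]
            refine lt_of_le_of_ne (Subgroup.card_le_of_le hle) fun hc => he ?_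
            exact Subgroup.eq_of_le_of_card_ge hle hc.ge
          rw [ih _ hlt _ (hle.trans hΓ) rfl, sub_self]
      · rw [if_neg hp, if_neg]
        rintro rfl
        exact hp ⟨Subgroup.subset_closure (Or.inl rfl), Subgroup.subset_closure (Or.inr rfl)⟩
    rw [Finset.sum_congr rfl fun p _ => h4 p, ← Finset.sum_filter, Finset.sum_const,
      nsmul_eq_mul] at h2
    have h5 : ((Finset.univ.filter fun p : C × C =>
        Subgroup.closure {p.1, p.2} = Γ).card : ℤ) ≠ 0 := by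
      -- a generator
      obtain ⟨g, hg⟩ : ∃ g : C, Subgroup.zpowers g = Γ := by
        have hcyc : IsCyclic Γ := by
          have h6 : IsCyclic (Subgroup.zpowers c) := inferInstance
          exact isCyclic_of_injective (Subgroup.inclusion hΓ) (Subgroup.inclusion_injective hΓ)
        obtain ⟨g, hg⟩ := hcyc.exists_generator
        refine ⟨g.1, le_antisymm ?_ ?_⟩
        · rw [Subgroup.zpowers_le]
          exact g.2
        · intro x hx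
          obtain ⟨k, hk⟩ := Subgroup.mem_zpowers_iff.1 (hg ⟨x, hx⟩)
          exact Subgroup.mem_zpowers_iff.2 ⟨k, congrArg Subtype.val hk⟩
      have h7 : ((g, g) : C × C) ∈ Finset.univ.filter fun p : C × C =>
          Subgroup.closure {p.1, p.2} = Γ := by
        rw [Finset.mem_filter]
        refine ⟨Finset.mem_univ _, ?_⟩
        show Subgroup.closure {g, g} = Γ
        rw [Set.pair_eq_singleton, ← Subgroup.zpowers_eq_closure, hg]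
      exact_mod_cast Finset.card_ne_zero_of_mem h7
    have h6 := (mul_eq_zero.1 h2).resolve_left h5
    have h7 : (cnt S Γ : ℤ) = cnt S' Γ := sub_eq_zero.1 h6
    exact_mod_cast h7

end FXC

open _root_.Pool.Agent.DPW.FXC in
/-- FXC: the numbers of subgroups which contain an element. -/
theorem FXC_thm : Stmt_FXC := by
  intro C I I' _ _ _ _ c S S' h
  have : Fintype C := Fintype.ofFinite C
  have h1 := cnt_zpowers c S S' h _ (Subgroup.zpowers c) le_rfl rfl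
  rw [cnt_eq, cnt_eq] at h1
  simp only [Subgroup.zpowers_le] at h1
  exact h1

end Pool.Agent.DPW


end

section

/-!
# Theorem X: the elements of the local algebra are nilpotent or invertible
-/

namespace Pool.Agent.DPX

open Pool.Agent.DPB Pool.Agent.DPW Representation

namespace LOCX

variable {F T : Type} [Field F] [Group T] [Fintype T]

theorem cvF_add_right (a b c : T → F) : cvF a (b + c) = cvF a b + cvF a c := by
  funext x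
  simp only [cvF, Pi.add_apply, mul_add, Finset.sum_add_distrib]

theorem cvF_smul_right (r : F) (a b : T → F) : cvF a (r • b) = r • cvF a b := by
  funext x
  simp only [cvF, Pi.smul_apply, smul_eq_mul, Finset.mul_sum]
  refine Finset.sum_congr rfl fun y _ => ?_
  ring

theorem cvF_assoc (a b c : T → F) : cvF (cvF a b) c = cvF a (cvF b c) := by
  funext x
  simp only [cvF, Finset.sum_mul, Finset.mul_sum]
  rw [Finset.sum_comm]
  refine Finset.sum_congr rfl fun y _ => ?_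
  rw [← Equiv.sum_comp (Equiv.mulLeft y)]
  refine Finset.sum_congr rfl fun u _ => ?_
  simp only [Equiv.coe_mulLeft, inv_mul_cancel_left, mul_inv_rev]
  rw [mul_assoc, mul_assoc (u⁻¹)]

theorem cvF_comm {z : T → F} (hz : z ∈ CF F T) (b : T → F) : cvF z b = cvF b z := by
  funext x
  simp only [cvF]
  rw [← Equiv.sum_comp ((Equiv.inv T).trans (Equiv.mulLeft x))]
  refine Finset.sum_congr rfl fun u _ => ?_
  have h1 : z (x * u⁻¹) = z (u⁻¹ * x) := by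
    have h := hz (u⁻¹) (x * u⁻¹)
    rw [← h]
    congr 1
    group
  simp only [Equiv.trans_apply, Equiv.inv_apply, Equiv.coe_mulLeft]
  rw [h1, mul_comm]
  congr 2
  group

theorem cvF_mem {a b : T → F} (ha : a ∈ CF F T) (hb : b ∈ CF F T) : cvF a b ∈ CF F T := by
  intro g x
  simp only [cvF]
  rw [← Equiv.sum_comp (MulAut.conj g).toEquiv]
  refine Finset.sum_congr rfl fun u _ => ?_
  have e1 : (MulAut.conj g).toEquiv u = g * u * g⁻¹ := rfl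
  rw [e1, ha g u]
  have h2 : (g * u * g⁻¹)⁻¹ * (g * x * g⁻¹) = g * (u⁻¹ * x) * g⁻¹ := by group
  rw [h2, hb g (u⁻¹ * x)]

/-- The multiplication by `z`. -/
noncomputable def mulz (z : T → F) : (T → F) →ₗ[F] (T → F) where
  toFun w := cvF z w
  map_add' := cvF_add_right z
  map_smul' r b := cvF_smul_right r z b

/-- The local algebra. -/
noncomputable def loc (e : T → F) : Submodule F (T → F) where
  carrier := {w | w ∈ CF F T ∧ cvF e w = w}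
  zero_mem' := ⟨(CF F T).zero_mem, (mulz e).map_zero⟩
  add_mem' := by
    rintro a b ⟨ha, ha'⟩ ⟨hb, hb'⟩
    exact ⟨(CF F T).add_mem ha hb, by rw [cvF_add_right, ha', hb']⟩
  smul_mem' := by
    rintro r a ⟨ha, ha'⟩
    exact ⟨(CF F T).smul_mem r ha, by rw [cvF_smul_right, ha']⟩

theorem mulz_mem {e z : T → F} (hz : z ∈ CF F T) (hez : cvF e z = z) {w : T → F}
    (hw : w ∈ loc e) : mulz z w ∈ loc e := by
  refine ⟨cvF_mem hz hw.1, ?_⟩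
  change cvF e (cvF z w) = cvF z w
  rw [← cvF_assoc, hez]

theorem mulz_pow_mem {e z : T → F} (hz : z ∈ CF F T) (hez : cvF e z = z) (k : ℕ) {w : T → F}
    (hw : w ∈ loc e) : (mulz z ^ k) w ∈ loc e := by
  induction k with
  | zero => simpa using hw
  | succ k ih =>
    rw [pow_succ', Module.End.mul_apply]
    exact mulz_mem hz hez ih

theorem mulz_pow_cvF (z a b : T → F) (k : ℕ) :
    (mulz z ^ k) (cvF a b) = cvF ((mulz z ^ k) a) b := by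
  induction k with
  | zero => simp
  | succ k ih =>
    rw [pow_succ', Module.End.mul_apply, Module.End.mul_apply, ih]
    change cvF z (cvF _ b) = cvF (cvF z _) b
    rw [cvF_assoc]

open Classical in
theorem cvp_eq {z : T → F} (hz : z ∈ CF F T) (e : T → F) (hze : cvF z e = z) (k : ℕ) :
    cvp z (k + 1) = (mulz z ^ (k + 1)) e := by
  induction k with
  | zero =>
    rw [pow_one]
    change cvF (Pi.single 1 1) z = cvF z e
    rw [hze]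
    funext x
    simp only [cvF]
    rw [Finset.sum_eq_single 1]
    · simp
    · intro b _ hb
      rw [Pi.single_eq_of_ne hb, zero_mul]
    · intro h
      exact absurd (Finset.mem_univ _) h
  | succ k ih =>
    change cvF (cvp z (k + 1)) z = _
    rw [← cvF_comm hz, ih]
    rw [pow_succ' _ (k + 1), Module.End.mul_apply]
    rfl

end LOCX

open _root_.Pool.Agent.DPX.LOCX in
theorem LOCX_thm : Stmt_LOCX := by
  intro F T _ _ _ e he z hz hez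
  obtain ⟨hecf, hidem, hene, hprim⟩ := he
  have heloc : e ∈ loc e := ⟨hecf, hidem⟩
  have hze : cvF z e = z := by rw [cvF_comm hz, hez]
  let f : ℕ →o (Submodule F (T → F))ᵒᵈ :=
    { toFun := fun k => OrderDual.toDual ((loc e).map (mulz z ^ k))
      monotone' := by
        refine monotone_nat_of_le_succ fun k => ?_
        change (loc e).map (mulz z ^ (k + 1)) ≤ (loc e).map (mulz z ^ k)
        rintro _ ⟨w, hw, rfl⟩
        refine ⟨mulz z w, mulz_mem hz hez hw, ?_⟩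
        rw [pow_succ, Module.End.mul_apply] }
  obtain ⟨n, hn⟩ := IsArtinian.monotone_stabilizes f
  have h1 : (loc e).map (mulz z ^ (n + 1)) = (loc e).map (mulz z ^ ((n + 1) + (n + 1))) := by
    have a1 : f n = f (n + 1) := hn _ (by omega)
    have a2 : f n = f ((n + 1) + (n + 1)) := hn _ (by omega)
    exact a1.symm.trans a2
  have h2 : (mulz z ^ (n + 1)) e ∈ (loc e).map (mulz z ^ ((n + 1) + (n + 1))) := by
    rw [← h1]
    exact ⟨e, heloc, rfl⟩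
  obtain ⟨w, hw, hwe⟩ := h2
  rw [pow_add, Module.End.mul_apply] at hwe
  set f0 : T → F := (mulz z ^ (n + 1)) w with hf0
  have hf0m : f0 ∈ loc e := mulz_pow_mem hz hez _ hw
  have hwe' : cvF e w = w := hw.2
  have hid : cvF f0 f0 = f0 := by
    have s1 : cvF f0 f0 = (mulz z ^ (n + 1)) (cvF w f0) := by
      rw [mulz_pow_cvF]
    have s2 : cvF w f0 = (mulz z ^ (n + 1)) (cvF w w) := by
      rw [cvF_comm hw.1, mulz_pow_cvF]
    rw [s1, s2]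
    have s3 : (mulz z ^ (n + 1)) ((mulz z ^ (n + 1)) (cvF w w)) =
        cvF ((mulz z ^ (n + 1)) e) w := by
      rw [mulz_pow_cvF, mulz_pow_cvF, ← hwe]
    rw [s3, ← mulz_pow_cvF, hwe']
  rcases hprim f0 hf0m.1 hid hf0m.2 with h | h
  · left
    refine ⟨n + 1, ?_⟩
    rw [cvp_eq hz e hze, ← hwe, h, map_zero]
  · right
    refine ⟨(mulz z ^ n) w, (mulz_pow_mem hz hez n hw).1, (mulz_pow_mem hz hez n hw).2, ?_⟩
    have : f0 = cvF z ((mulz z ^ n) w) := by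
      rw [hf0, pow_succ', Module.End.mul_apply]
      rfl
    rw [← this, h]

end Pool.Agent.DPX


end

section

/-!
# STPX: the induction step of the structure theorem
-/

namespace Pool.Agent.DPX

open Pool.Agent.DPB Pool.Agent.DPW Representation

namespace STPX

/-- An element which commutes with all elements of `P` is in the normalizer of a subgroup
of `P`. -/
theorem mem_normalizer_of_comm {S : Type} [Group S] (P₂ P : Subgroup S) (h : P₂ ≤ P) (x : S)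
    (hx : ∀ u ∈ P, u * x = x * u) : x ∈ Subgroup.normalizer (P₂ : Set S) := by
  have hc : x ∈ Subgroup.centralizer (P₂ : Set S) := by
    rw [Subgroup.mem_centralizer_iff]
    intro u hu
    exact hx u (h hu)
  rw [Subgroup.mem_normalizer_iff]
  intro g
  constructor
  · intro hg
    have h1 := (Subgroup.mem_centralizer_iff.mp hc) g hg
    have h2 : x * g * x⁻¹ = g := by
      rw [← h1]; group
    rw [h2]; exact hg
  · intro hg
    have h1 := (Subgroup.mem_centralizer_iff.mp hc) _ hg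
    have h2 : x * g * x⁻¹ = g := by
      have h3 : x * g * x⁻¹ * x = x * (x * g * x⁻¹) := h1
      have h4 : x * g = x * (x * g * x⁻¹) := by
        rw [← h3]; group
      exact (mul_left_cancel h4).symm
    rw [h2] at hg; exact hg

/-- There is an irreducible representation in `e`. -/
theorem exists_irr {F S : Type} [Field F] [IsAlgClosed F] [Group S] [Fintype S] (e : S → F)
    (he : e ∈ CF F S) (hc : Nat.card {φ : S → F // IsBr F φ ∧ Lz e φ = φ} = 1) :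
    ∃ (d : ℕ) (σ : Representation F S (Fin d → F)), σ.IsIrreducible ∧ Zop σ e = 1 := by
  have hne : Nonempty {φ : S → F // IsBr F φ ∧ Lz e φ = φ} := by
    by_contra hcon
    rw [not_nonempty_iff] at hcon
    rw [Nat.card_of_isEmpty] at hc
    exact zero_ne_one hc
  obtain ⟨φ, ⟨d, σ, hσ, hχ⟩, hL⟩ := hne
  obtain ⟨hne0, hall⟩ := BRE_thm DEN_thm F S (Fin d → F) σ hσ
  obtain ⟨μ, h1, h2⟩ := hall e he
  refine ⟨d, σ, hσ, ?_⟩
  rw [hχ, hL] at h2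
  rw [hχ] at hne0
  have hμ : μ = 1 := by
    have h3 : (μ - 1) • φ = 0 := by
      rw [sub_smul, one_smul, ← h2, sub_self]
    rcases smul_eq_zero.mp h3 with h4 | h4
    · exact sub_eq_zero.mp h4
    · exact absurd h4 hne0
  rw [h1, hμ, one_smul]

end STPX

open _root_.Pool.Agent.DPX.STPX in
/-- STPX: the induction step of the structure theorem. -/
theorem STPX_thm (h1 : Stmt_BKNX) (h2 : Stmt_PRMX) (h3 : Stmt_QUOX) (h4 : Stmt_QUZX)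
    (h5 : Stmt_UNSX) (h6 : Stmt_CENX) (h7 : Stmt_LEQX) (h8 : Stmt_CNTI) (h9 : Stmt_NPRX)
    (h10 : Stmt_E1TX) (h11 : Stmt_DERX) (h12 : Stmt_ALGX) (h13 : Stmt_DIMX) : Stmt_STPX := by
  classical
  intro ℓ n _ F _ _ _ hn hN T _ _ P₁ P x₀ e hB hP hcen
  have hnor : P₁.Normal := by
    refine ⟨fun u hu g => ?_⟩
    have h := Subgroup.mem_center_iff.mp (hcen hu) g
    rw [h, mul_inv_cancel_right]
    exact hu
  have : Fintype (T ⧸ P₁) := Fintype.ofFinite _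
  obtain ⟨P₂, hB', hP', hnc⟩ := h3 ℓ n F T (T ⧸ P₁) (QuotientGroup.mk' P₁) P₁ P x₀ e
    (QuotientGroup.mk'_surjective P₁) (QuotientGroup.ker_mk' P₁) hcen hn hB hP
  have : Fintype (NP P₂) := Fintype.ofFinite _
  have hx : QuotientGroup.mk' P₁ x₀ ∈ Subgroup.normalizer (P₂ : Set (T ⧸ P₁)) :=
    mem_normalizer_of_comm P₂ _ hB'.cd.le _ hB'.cd.cen
  have hBN := ((h1.2 ℓ n F (T ⧸ P₁) P₂ (P.map (QuotientGroup.mk' P₁)) (QuotientGroup.mk' P₁ x₀)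
    (psh (QuotientGroup.mk' P₁) e) hB').2 hx).2
  have hPN : Prm (brz P₂ (psh (QuotientGroup.mk' P₁) e)) :=
    h2 ℓ n F (T ⧸ P₁) P₂ (P.map (QuotientGroup.mk' P₁)) (QuotientGroup.mk' P₁ x₀)
      (psh (QuotientGroup.mk' P₁) e) hB' hP'
  have hcN : P₂.subgroupOf (Subgroup.normalizer (P₂ : Set (T ⧸ P₁))) ≤
      Subgroup.center (NP P₂) := by
    intro u hu
    rw [Subgroup.mem_center_iff]
    intro g
    have hg := Subgroup.mem_centralizer_iff.mp (hnc g.2) (u : T ⧸ P₁)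
      (Subgroup.mem_subgroupOf.mp hu)
    exact Subtype.ext hg.symm
  obtain ⟨m', E', z', hNB⟩ := hN (NP P₂) _ _ _ _ hBN hPN hcN
  have hU := (h5 F (NP P₂) _ hPN.1 hPN.2.1 hPN.2.2.1 m' (ℓ ^ n) E' z' hNB).2.2.2
  have hC := (h6 F (NP P₂) _ hPN.1 hPN.2.1 hPN.2.2.1 m' (ℓ ^ n) E' z' hNB).1
  have hL := h7 ℓ n F (T ⧸ P₁) P₂ (P.map (QuotientGroup.mk' P₁)) (QuotientGroup.mk' P₁ x₀)
    (psh (QuotientGroup.mk' P₁) e) hB' hP' hN
  rw [hU] at hL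
  have hQ := h4 ℓ F T (T ⧸ P₁) (QuotientGroup.mk' P₁) P₁ e
    (QuotientGroup.mk'_surjective P₁) (QuotientGroup.ker_mk' P₁) hB.cd.c1 hB.cf
  obtain ⟨hQ1, hQ2, hQ3⟩ := hQ
  rw [hL] at hQ2
  obtain ⟨d, σ, hσ, hσ1⟩ := exists_irr _ hQ1 hL
  have hDR : DR2 σ := h10 ℓ n F (T ⧸ P₁) (Fin d → F) P₂ (P.map (QuotientGroup.mk' P₁))
    (QuotientGroup.mk' P₁ x₀) (psh (QuotientGroup.mk' P₁) e) hB' m' (ℓ ^ n) E' z' hNB σ hσ hσ1
  have hNP := (h9 ℓ n F (T ⧸ P₁) (Fin d → F) P₂ (P.map (QuotientGroup.mk' P₁))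
    (QuotientGroup.mk' P₁ x₀) (psh (QuotientGroup.mk' P₁) e) hB' hP' σ hσ hσ1).2.2
  have hDT := (h11 ℓ (n + 1) F T (T ⧸ P₁) (Fin d → F) (QuotientGroup.mk' P₁) P₁ P
    (QuotientGroup.mk'_surjective P₁) (QuotientGroup.ker_mk' P₁) hcen hB.cd.c1 hB.cd.le
    hB.cd.cyc hB.cd.card σ hσ).1 hNP hDR
  obtain ⟨hQ4, hQ5⟩ := (hQ3 (Fin d → F)).1 σ
  obtain ⟨m, c, E, z, hNE⟩ := h12 F T (Fin d → F) e hB.cf hB.idem (σ.comp (QuotientGroup.mk' P₁))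
    (hQ5.mpr hσ) (hQ4.trans hσ1) hQ2 hDT
  have hCn := h8 ℓ n F (T ⧸ P₁) P₂ (P.map (QuotientGroup.mk' P₁)) (QuotientGroup.mk' P₁ x₀)
    (psh (QuotientGroup.mk' P₁) e) hB' hP' hN
  rw [hC] at hCn
  obtain ⟨a, ha, hm, -⟩ := h13 ℓ F T (T ⧸ P₁) (QuotientGroup.mk' P₁) P₁ e
    (QuotientGroup.mk'_surjective P₁) (QuotientGroup.ker_mk' P₁) hcen hB.cd.c1 hB.cf hB.idem
    hP.2.2.1 m c E z hNE
  have hc : c = ℓ ^ (n + 1) := by
    rw [ha, ← hm, hCn, pow_succ, mul_comm]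
  rw [hc] at hNE
  exact ⟨m, E, z, hNE⟩

end Pool.Agent.DPX


end
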