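import Mathlib
import Pool.Agent.DAM.C01
import Pool.Agent.DAM.C05
import Pool.Agent.DAM.C08
import Pool.Agent.DAM.C11

/-! Parts: DP.CCOR, DP.SUMM, DPB.LOC, DP.COSET, DP.GALL, DP.INTH, DP.IRRPI, DP.EXTAR, DP.BETG -/

section

set_option linter.unusedSectionVars false

/-!
# The Clifford correspondence
-/

namespace Pool.Agent.DP

open Pool.Agent.Lib_helper13 Representation

namespace CCOR

/-- The numerical core: a weighted system of multiplicities with equal sums of squares. -/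
theorem num_core {α β : Type*} [DecidableEq α] (I : Finset α) (X : Finset β) (e : α → ℕ)
    (E : β → ℕ) (m : α → β → ℕ) (ha : ∀ χ ∈ X, E χ = ∑ ψ ∈ I, m ψ χ * e ψ)
    (hb : ∑ χ ∈ X, E χ * E χ = ∑ ψ ∈ I, e ψ * e ψ) (hc : ∀ ψ ∈ I, ∃ χ ∈ X, m ψ χ ≠ 0) :
    (∀ ψ ∈ I, e ψ ≠ 0 → ∑ χ ∈ X, m ψ χ * m ψ χ = 1) ∧
    (∀ ψ ∈ I, ∀ ψ' ∈ I, ψ ≠ ψ' → e ψ ≠ 0 → e ψ' ≠ 0 → ∀ χ ∈ X, m ψ χ * m ψ' χ = 0) := by
  have hG : ∀ ψ ∈ I, 1 ≤ ∑ χ ∈ X, m ψ χ * m ψ χ := by
    intro ψ hψ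
    obtain ⟨χ, hχ, hm⟩ := hc ψ hψ
    have h1 : m ψ χ * m ψ χ ≤ ∑ χ ∈ X, m ψ χ * m ψ χ :=
      Finset.single_le_sum (f := fun χ => m ψ χ * m ψ χ) (fun _ _ => Nat.zero_le _) hχ
    have h2 : 1 ≤ m ψ χ * m ψ χ := Nat.one_le_iff_ne_zero.mpr (Nat.mul_ne_zero hm hm)
    exact h2.trans h1
  have h1 : ∑ χ ∈ X, E χ * E χ =
      ∑ ψ ∈ I, ∑ ψ' ∈ I, e ψ * e ψ' * ∑ χ ∈ X, m ψ χ * m ψ' χ := by
    have h2 : ∀ χ ∈ X, E χ * E χ = ∑ ψ ∈ I, ∑ ψ' ∈ I, e ψ * e ψ' * (m ψ χ * m ψ' χ) := by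
      intro χ hχ
      rw [ha χ hχ, Finset.sum_mul_sum]
      exact Finset.sum_congr rfl fun ψ _ => Finset.sum_congr rfl fun ψ' _ => by ring
    rw [Finset.sum_congr rfl h2, Finset.sum_comm]
    refine Finset.sum_congr rfl fun ψ _ => ?_
    rw [Finset.sum_comm]
    exact Finset.sum_congr rfl fun ψ' _ => (Finset.mul_sum _ _ _).symm
  have h3 : ∀ ψ ∈ I, ∑ ψ' ∈ I, e ψ * e ψ' * ∑ χ ∈ X, m ψ χ * m ψ' χ =
      e ψ * e ψ * ∑ χ ∈ X, m ψ χ * m ψ χ +
        ∑ ψ' ∈ I.erase ψ, e ψ * e ψ' * ∑ χ ∈ X, m ψ χ * m ψ' χ := fun ψ hψ =>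
    (Finset.add_sum_erase I (fun ψ' => e ψ * e ψ' * ∑ χ ∈ X, m ψ χ * m ψ' χ) hψ).symm
  have h4 : ∀ ψ ∈ I, e ψ * e ψ ≤ ∑ ψ' ∈ I, e ψ * e ψ' * ∑ χ ∈ X, m ψ χ * m ψ' χ := by
    intro ψ hψ
    rw [h3 ψ hψ]
    exact (Nat.le_mul_of_pos_right _ (hG ψ hψ)).trans (Nat.le_add_right _ _)
  have h5 : ∀ ψ ∈ I, e ψ * e ψ = ∑ ψ' ∈ I, e ψ * e ψ' * ∑ χ ∈ X, m ψ χ * m ψ' χ := by
    rw [← Finset.sum_eq_sum_iff_of_le h4, ← hb, h1]
  have h6 : ∀ ψ ∈ I, e ψ ≠ 0 → (∑ χ ∈ X, m ψ χ * m ψ χ = 1) ∧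
      ∑ ψ' ∈ I.erase ψ, e ψ * e ψ' * ∑ χ ∈ X, m ψ χ * m ψ' χ = 0 := by
    intro ψ hψ he
    have h7 := h5 ψ hψ
    rw [h3 ψ hψ] at h7
    have h8 : 0 < e ψ * e ψ := Nat.pos_of_ne_zero (Nat.mul_ne_zero he he)
    have h9 := hG ψ hψ
    have h10 : e ψ * e ψ * ∑ χ ∈ X, m ψ χ * m ψ χ ≤ e ψ * e ψ * 1 := by omega
    have h11 : ∑ χ ∈ X, m ψ χ * m ψ χ ≤ 1 := Nat.le_of_mul_le_mul_left h10 h8
    have h12 : ∑ χ ∈ X, m ψ χ * m ψ χ = 1 := le_antisymm h11 h9
    refine ⟨h12, ?_⟩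
    rw [h12] at h7
    omega
  refine ⟨fun ψ hψ he => (h6 ψ hψ he).1, ?_⟩
  intro ψ hψ ψ' hψ' hne he he' χ hχ
  have h7 := (h6 ψ hψ he).2
  rw [Finset.sum_eq_zero_iff] at h7
  have h8 := h7 ψ' (Finset.mem_erase.mpr ⟨hne.symm, hψ'⟩)
  have h9 := (Nat.mul_eq_zero.mp h8).resolve_left (Nat.mul_ne_zero he he')
  rw [Finset.sum_eq_zero_iff] at h9
  exact h9 χ hχ

section

variable {A Y K : Type} [Group A] [Fintype A] [Group Y] [Fintype Y] [Group K]
  {j : A →* Y} {c : Y →* MulAut A} {p : Y →* K}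

theorem mem_inert (hc : ClG j c p) {θ : A → ℂ} (hθ : IsIrr θ) (a : A) : j a ∈ inert c θ := by
  intro x
  have h1 : c (j a) x = a * x * a⁻¹ := by
    apply hc.inj
    rw [hc.act, map_mul, map_mul, map_inv]
  rw [h1, hθ.conj_eq]

/-- The embedding into the inertia group. -/
def jj (hc : ClG j c p) {θ : A → ℂ} (hθ : IsIrr θ) : A →* inert c θ :=
  j.codRestrict (inert c θ) (mem_inert hc hθ)

theorem coe_jj (hc : ClG j c p) {θ : A → ℂ} (hθ : IsIrr θ) (a : A) :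
    ((jj hc hθ a : inert c θ) : Y) = j a := rfl

theorem clG_jj (hc : ClG j c p) {θ : A → ℂ} (hθ : IsIrr θ) :
    ClG (jj hc hθ) (c.comp (inert c θ).subtype) (p.comp (inert c θ).subtype) where
  inj := by
    intro a b h
    exact hc.inj (congrArg Subtype.val h)
  act := by
    intro y a
    apply Subtype.ext
    exact hc.act (y : Y) a
  ker := by
    intro y
    change p (y : Y) = 1 ↔ _
    rw [hc.ker]
    constructor
    · rintro ⟨a, ha⟩
      exact ⟨a, Subtype.ext ha⟩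
    · rintro ⟨a, rfl⟩
      exact ⟨a, rfl⟩

theorem ext0_jj (hc : ClG j c p) {θ : A → ℂ} (hθ : IsIrr θ) (ψ : inert c θ → ℂ) :
    (fun a => ext0 ψ (j a)) = resj (jj hc hθ) ψ := by
  ext a
  rw [ext0_of_mem ψ (mem_inert hc hθ a)]
  rfl

end

end CCOR

open _root_.Pool.Agent.DP.CCOR in
theorem CCOR_thm (hI : Stmt_IND) (hS : Stmt_SUMM) : Stmt_CCOR := by
  classical
  intro A Y K _ _ _ _ _ j c p hc θ hθ
  have hind := hI Y (inert c θ)
  simp only [ext0_jj hc hθ]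
  -- the multiplicities
  obtain ⟨E, hE⟩ := exists_mult (Y := Y) j hθ
  obtain ⟨e, he⟩ := exists_mult (Y := inert c θ) (jj hc hθ) hθ
  have hres : ∀ χ : Y → ℂ, IsIrr χ → IsChr (fun s : inert c θ => χ s) := fun χ hχ =>
    hχ.isChr.comp (inert c θ).subtype
  have hm : ∃ m : (inert c θ → ℂ) → (Y → ℂ) → ℕ, ∀ ψ : inert c θ → ℂ, IsIrr ψ →
      ∀ χ : Y → ℂ, IsIrr χ → ip ψ (fun s : inert c θ => χ s) = m ψ χ := by
    have h1 : ∀ (ψ : inert c θ → ℂ) (χ : Y → ℂ), ∃ n : ℕ, IsIrr ψ → IsIrr χ →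
        ip ψ (fun s : inert c θ => χ s) = n := by
      intro ψ χ
      by_cases hψ : IsIrr ψ
      · by_cases hχ : IsIrr χ
        · obtain ⟨n, hn⟩ := hψ.isChr.exists_ip (hres χ hχ)
          exact ⟨n, fun _ _ => hn⟩
        · exact ⟨0, fun _ h => absurd h hχ⟩
      · exact ⟨0, fun h => absurd h hψ⟩
    choose m hm using h1
    exact ⟨m, fun ψ hψ χ hχ => hm ψ χ hψ hχ⟩
  obtain ⟨m, hm⟩ := hm
  -- the expansion of an induced character
  have hexp : ∀ ψ : inert c θ → ℂ, IsIrr ψ →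
      indc (inert c θ) ψ = fun y => ∑ χ ∈ irrF Y, (m ψ χ : ℂ) * χ y := by
    intro ψ hψ
    have h1 := class_fn_expand (indc (inert c θ) ψ) (hind ψ).2.1
    rw [h1]
    ext y
    refine Finset.sum_congr rfl fun χ hχ => ?_
    have hχ' := mem_irrF.mp hχ
    rw [(hind ψ).2.2.1 χ hχ'.conj_eq, hm ψ hψ χ hχ']
  have ha : ∀ χ ∈ irrF Y, E χ = ∑ ψ ∈ irrF (inert c θ), m ψ χ * e ψ := by
    intro χ hχ
    have hχ' := mem_irrF.mp hχ
    have h1 := class_fn_expand (fun s : inert c θ => χ s) (hres χ hχ').conj_eq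
    have h2 : resj j χ = fun a => ∑ ψ ∈ irrF (inert c θ),
        ip (fun s : inert c θ => χ s) ψ * resj (jj hc hθ) ψ a := by
      ext a
      exact congrFun h1 (jj hc hθ a)
    have h3 : ((E χ : ℕ) : ℂ) = ((∑ ψ ∈ irrF (inert c θ), m ψ χ * e ψ : ℕ) : ℂ) := by
      rw [← hE χ hχ', h2, ip_sum]
      push_cast
      refine Finset.sum_congr rfl fun ψ hψ => ?_
      have hψ' := mem_irrF.mp hψ
      rw [ip_comm, hm ψ hψ' χ hχ', he ψ hψ']
    exact_mod_cast h3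
  have hb : ∑ χ ∈ irrF Y, E χ * E χ = ∑ ψ ∈ irrF (inert c θ), e ψ * e ψ := by
    have h1 := (hS A Y K j c p hc).1 θ θ hθ hθ
    have h2 := (hS A (inert c θ) K (jj hc hθ) (c.comp (inert c θ).subtype)
      (p.comp (inert c θ).subtype) (clG_jj hc hθ)).1 θ θ hθ hθ
    have h3 : Nat.card {y : inert c θ // ∀ a, θ (c.comp (inert c θ).subtype y a) = θ a} =
        Nat.card {y : Y // ∀ a, θ (c y a) = θ a} := by
      refine Nat.card_congr ⟨fun y => ⟨((y : inert c θ) : Y), y.2⟩,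
        fun y => ⟨⟨y.1, y.2⟩, y.2⟩, fun _ => rfl, fun _ => rfl⟩
    rw [h3, ← h1] at h2
    have h4 := mul_left_cancel₀ natCard_ne_zero h2
    have h5 : ((∑ χ ∈ irrF Y, E χ * E χ : ℕ) : ℂ) =
        ((∑ ψ ∈ irrF (inert c θ), e ψ * e ψ : ℕ) : ℂ) := by
      push_cast
      have h6 : ∑ χ ∈ irrF Y, (E χ : ℂ) * E χ =
          ∑ χ ∈ irrF Y, ip (resj j χ) θ * ip (resj j χ) θ :=
        Finset.sum_congr rfl fun χ hχ => by rw [hE χ (mem_irrF.mp hχ)]
      have h7 : ∑ ψ ∈ irrF (inert c θ), (e ψ : ℂ) * e ψ =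
          ∑ ψ ∈ irrF (inert c θ), ip (resj (jj hc hθ) ψ) θ * ip (resj (jj hc hθ) ψ) θ :=
        Finset.sum_congr rfl fun ψ hψ => by rw [he ψ (mem_irrF.mp hψ)]
      rw [h6, h7, h4]
    exact_mod_cast h5
  have hcc : ∀ ψ ∈ irrF (inert c θ), ∃ χ ∈ irrF Y, m ψ χ ≠ 0 := by
    intro ψ hψ
    by_contra hcon
    push Not at hcon
    have hψ' := mem_irrF.mp hψ
    have h1 := congrFun (hexp ψ hψ') 1
    rw [Finset.sum_eq_zero (fun χ hχ => by rw [hcon χ hχ, Nat.cast_zero, zero_mul])] at h1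
    have h2 := (hind ψ).1
    rw [h1, zero_mul] at h2
    exact mul_ne_zero natCard_ne_zero hψ'.one_ne_zero h2.symm
  obtain ⟨hc1, hc2⟩ := num_core (irrF (inert c θ)) (irrF Y) e E m ha hb hcc
  -- the induced character is irreducible
  have key : ∀ ψ : inert c θ → ℂ, IsIrr ψ → ip (resj (jj hc hθ) ψ) θ ≠ 0 →
      ∃ χ ∈ irrF Y, m ψ χ = 1 ∧ indc (inert c θ) ψ = χ ∧
        ∀ χ' ∈ irrF Y, χ' ≠ χ → m ψ χ' = 0 := by
    intro ψ hψ hne
    have he0 : e ψ ≠ 0 := by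
      intro h
      apply hne
      rw [he ψ hψ, h, Nat.cast_zero]
    have h1 := hc1 ψ (mem_irrF.mpr hψ) he0
    obtain ⟨χ, hχ, hm0⟩ := hcc ψ (mem_irrF.mpr hψ)
    have h2 := Finset.add_sum_erase (irrF Y) (fun χ => m ψ χ * m ψ χ) hχ
    have h3 : 0 < m ψ χ * m ψ χ := Nat.pos_of_ne_zero (Nat.mul_ne_zero hm0 hm0)
    have h4 : m ψ χ * m ψ χ = 1 := by
      omega
    have h5 : ∑ χ' ∈ (irrF Y).erase χ, m ψ χ' * m ψ χ' = 0 := by
      omega
    have h6 : ∀ χ' ∈ irrF Y, χ' ≠ χ → m ψ χ' = 0 := by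
      intro χ' hχ' hne'
      rw [Finset.sum_eq_zero_iff] at h5
      exact mul_self_eq_zero.mp (h5 χ' (Finset.mem_erase.mpr ⟨hne', hχ'⟩))
    have h7 : m ψ χ = 1 := Nat.eq_one_of_mul_eq_one_right h4
    refine ⟨χ, hχ, h7, ?_, h6⟩
    rw [hexp ψ hψ]
    ext y
    rw [Finset.sum_eq_single χ]
    · rw [h7, Nat.cast_one, one_mul]
    · intro χ' hχ' hne'
      rw [h6 χ' hχ' hne', Nat.cast_zero, zero_mul]
    · intro h
      exact absurd hχ h
  refine ⟨?_, ?_, ?_⟩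
  · intro ψ hψ hne
    obtain ⟨χ, hχ, h1, h2, _⟩ := key ψ hψ hne
    rw [h2]
    refine ⟨mem_irrF.mp hχ, ?_⟩
    rw [hE χ (mem_irrF.mp hχ), ha χ hχ]
    have he0 : e ψ ≠ 0 := by
      intro h
      apply hne
      rw [he ψ hψ, h, Nat.cast_zero]
    have h3 : m ψ χ * e ψ ≤ ∑ ψ ∈ irrF (inert c θ), m ψ χ * e ψ :=
      Finset.single_le_sum (f := fun ψ => m ψ χ * e ψ) (fun _ _ => Nat.zero_le _)
        (mem_irrF.mpr hψ)
    rw [h1, one_mul] at h3
    have h4 : ∑ ψ ∈ irrF (inert c θ), m ψ χ * e ψ ≠ 0 := by omega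
    exact_mod_cast h4
  · intro ψ ψ' hψ hψ' hne hne' heq
    by_contra hcon
    obtain ⟨χ, hχ, h1, h2, _⟩ := key ψ hψ hne
    obtain ⟨χ', hχ', h1', h2', _⟩ := key ψ' hψ' hne'
    have h3 : χ' = χ := by rw [← h2', ← heq, h2]
    subst h3
    have he0 : e ψ ≠ 0 := by
      intro h
      apply hne
      rw [he ψ hψ, h, Nat.cast_zero]
    have he0' : e ψ' ≠ 0 := by
      intro h
      apply hne'
      rw [he ψ' hψ', h, Nat.cast_zero]
    have h4 := hc2 ψ (mem_irrF.mpr hψ) ψ' (mem_irrF.mpr hψ') hcon he0 he0' χ' hχ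
    rw [h1, h1'] at h4
    omega
  · intro χ hχ hne
    have h1 : E χ ≠ 0 := by
      intro h
      apply hne
      rw [hE χ hχ, h, Nat.cast_zero]
    rw [ha χ (mem_irrF.mpr hχ)] at h1
    obtain ⟨ψ, hψ, h2⟩ := Finset.exists_ne_zero_of_sum_ne_zero h1
    have hψ' := mem_irrF.mp hψ
    have h3 : ip (resj (jj hc hθ) ψ) θ ≠ 0 := by
      rw [he ψ hψ']
      have : e ψ ≠ 0 := fun h => h2 (by rw [h, mul_zero])
      exact_mod_cast this
    refine ⟨ψ, hψ', h3, ?_⟩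
    obtain ⟨χ', hχ', _, h5, h6⟩ := key ψ hψ' h3
    rw [h5]
    by_contra hcon
    apply h2
    rw [h6 χ (mem_irrF.mpr hχ) (fun h => hcon h.symm), zero_mul]

end Pool.Agent.DP


end

section

/-!
# Module SUMM: multiplicities for a normal subgroup
-/

namespace Pool.Agent.DP.SUMM

open Pool.Agent.Lib_helper13 Representation

section

variable {A Y K : Type} [Group A] [Fintype A] [Group Y] [Fintype Y] [Group K]
  {j : A →* Y} {c : Y →* MulAut A} {p : Y →* K}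

open Classical in
theorem sum_mult (hc : ClG j c p) {θ θ' : A → ℂ} (hθ : IsIrr θ) (hθ' : IsIrr θ') :
    (Nat.card A : ℂ) * ∑ ψ ∈ irrF Y, ip (resj j ψ) θ * ip (resj j ψ) θ' =
      ((Finset.univ.filter (fun y : Y => cfn c θ y = θ')).card : ℂ) := by
  classical
  have hK : (Nat.card A : ℂ) ≠ 0 := natCard_ne_zero
  have h1 : ∀ ψ ∈ irrF Y, (Nat.card A : ℂ) * (Nat.card A : ℂ) *
      (ip (resj j ψ) θ * ip (resj j ψ) θ') =
      ∑ k : A, ∑ k' : A, θ k⁻¹ * θ' k' * (ψ (j k) * ψ (j k')⁻¹) := by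
    intro ψ _
    have h2 : ip (resj j ψ) θ' = ip θ' (resj j ψ) := ip_comm _ _
    rw [h2, ip, ip]
    have h3 : (Nat.card A : ℂ) * (Nat.card A : ℂ) *
        ((∑ g, resj j ψ g * θ g⁻¹) / (Nat.card A : ℂ) *
          ((∑ g, θ' g * resj j ψ g⁻¹) / (Nat.card A : ℂ))) =
        (∑ g, resj j ψ g * θ g⁻¹) * (∑ g, θ' g * resj j ψ g⁻¹) := by
      field_simp
    rw [h3, Finset.sum_mul_sum]
    refine Finset.sum_congr rfl fun k _ => Finset.sum_congr rfl fun k' _ => ?_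
    rw [resj, resj, map_inv]
    ring
  have h2 : (Nat.card A : ℂ) * (Nat.card A : ℂ) *
      ∑ ψ ∈ irrF Y, ip (resj j ψ) θ * ip (resj j ψ) θ' =
      ∑ k : A, ∑ k' : A, θ k⁻¹ * θ' k' *
        ((Finset.univ.filter (fun z : Y => z * j k' * z⁻¹ = j k)).card : ℂ) := by
    rw [Finset.mul_sum, Finset.sum_congr rfl h1, Finset.sum_comm]
    refine Finset.sum_congr rfl fun k _ => ?_
    rw [Finset.sum_comm]
    refine Finset.sum_congr rfl fun k' _ => ?_
    rw [← Finset.mul_sum, column_orth]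
  have h3 : ∑ k : A, ∑ k' : A, θ k⁻¹ * θ' k' *
        ((Finset.univ.filter (fun z : Y => z * j k' * z⁻¹ = j k)).card : ℂ) =
      ∑ z : Y, ∑ k' : A, θ' k' * cfn c θ z k'⁻¹ := by
    have h4 : ∀ k k' : A, θ k⁻¹ * θ' k' *
        ((Finset.univ.filter (fun z : Y => z * j k' * z⁻¹ = j k)).card : ℂ) =
        ∑ z : Y, if c z k' = k then θ' k' * θ k⁻¹ else 0 := by
      intro k k'
      rw [Finset.card_filter]
      push_cast
      rw [Finset.mul_sum]
      refine Finset.sum_congr rfl fun z _ => ?_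
      have h5 : z * j k' * z⁻¹ = j k ↔ c z k' = k := by
        rw [← hc.act]
        exact hc.inj.eq_iff
      simp only [h5]
      split_ifs
      · ring
      · ring
    simp only [h4]
    rw [Finset.sum_comm]
    have h5 : ∀ k' : A, ∑ k : A, ∑ z : Y, (if c z k' = k then θ' k' * θ k⁻¹ else 0) =
        ∑ z : Y, θ' k' * cfn c θ z k'⁻¹ := by
      intro k'
      rw [Finset.sum_comm]
      refine Finset.sum_congr rfl fun z _ => ?_
      rw [Finset.sum_ite_eq Finset.univ (c z k') (fun k => θ' k' * θ k⁻¹),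
        if_pos (Finset.mem_univ _), cfn, map_inv]
    simp only [h5]
    rw [Finset.sum_comm]
  have h4 : ∀ z : Y, ∑ k' : A, θ' k' * cfn c θ z k'⁻¹ =
      (Nat.card A : ℂ) * if cfn c θ z = θ' then 1 else 0 := by
    intro z
    split_ifs with h
    · rw [h, hθ'.sum_self, mul_one]
    · rw [hθ'.sum_ne (hθ.cfn z) (fun h' => h h'.symm), mul_zero]
  rw [h3] at h2
  simp only [h4] at h2
  rw [← Finset.mul_sum, mul_assoc] at h2
  have h5 := mul_left_cancel₀ hK h2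
  rw [h5, Finset.card_filter]
  push_cast
  rfl

/-- If some irreducible character of `Y` lies over both characters, they are conjugate. -/
theorem exists_conj (hc : ClG j c p) {θ θ' : A → ℂ} (hθ : IsIrr θ) (hθ' : IsIrr θ')
    {ψ : Y → ℂ} (hψ : IsIrr ψ) (h : ip (resj j ψ) θ ≠ 0) (h' : ip (resj j ψ) θ' ≠ 0) :
    ∃ y, cfn c θ y = θ' := by
  classical
  by_contra hcon
  push Not at hcon
  have h1 := sum_mult hc hθ hθ'
  rw [Finset.filter_false_of_mem (fun y _ => hcon y), Finset.card_empty, Nat.cast_zero] at h1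
  have h2 := (mul_eq_zero.mp h1).resolve_left natCard_ne_zero
  have hnat : ∀ φ : Y → ℂ, ∃ m : ℕ, IsIrr φ → ip (resj j φ) θ * ip (resj j φ) θ' = m := by
    intro φ
    by_cases hφ : IsIrr φ
    · obtain ⟨a, ha⟩ := (hφ.resj j).exists_ip hθ.isChr
      obtain ⟨b, hb⟩ := (hφ.resj j).exists_ip hθ'.isChr
      refine ⟨a * b, fun _ => ?_⟩
      rw [ha, hb]
      push_cast
      rfl
    · exact ⟨0, fun h => absurd h hφ⟩
  choose m hm using hnat
  have h3 : ∑ φ ∈ irrF Y, ip (resj j φ) θ * ip (resj j φ) θ' =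
      ((∑ φ ∈ irrF Y, m φ : ℕ) : ℂ) := by
    push_cast
    exact Finset.sum_congr rfl fun φ hφ => hm φ (mem_irrF.mp hφ)
  rw [h3] at h2
  have h4 : ∑ φ ∈ irrF Y, m φ = 0 := by exact_mod_cast h2
  rw [Finset.sum_eq_zero_iff] at h4
  have h5 := h4 ψ (mem_irrF.mpr hψ)
  have h6 := hm ψ hψ
  rw [h5, Nat.cast_zero] at h6
  exact mul_ne_zero h h' h6

theorem ip_cfn (hc : ClG j c p) {θ : A → ℂ} {ψ : Y → ℂ} (hψ : IsIrr ψ) (y : Y) :
    ip (resj j ψ) (cfn c θ y) = ip (resj j ψ) θ := by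
  rw [ip, ip]
  congr 1
  refine Fintype.sum_equiv (c y).toEquiv _ _ fun k => ?_
  change resj j ψ k * θ (c y k⁻¹) = resj j ψ (c y k) * θ (c y k)⁻¹
  rw [resj, resj, hc.act, hψ.conj_eq, map_inv]

theorem sum_range (hc : ClG j c p) {M : Type*} [AddCommMonoid M] (f : Y → M)
    (hf : ∀ y, y ∉ j.range → f y = 0) : ∑ y, f y = ∑ k, f (j k) := by
  classical
  have h1 : ∑ k, f (j k) = ∑ y ∈ Finset.univ.image j, f y := by
    rw [Finset.sum_image]
    intro a _ b _ h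
    exact hc.inj h
  rw [h1]
  symm
  apply Finset.sum_subset (Finset.subset_univ _)
  intro y _ hy
  apply hf
  rintro ⟨k, rfl⟩
  exact hy (Finset.mem_image_of_mem _ (Finset.mem_univ k))

/-- Normalized sums of class functions supported on the normal subgroup. -/
theorem wt_eq (hc : ClG j c p) {θ : A → ℂ} (hθ : IsIrr θ) {ψ : Y → ℂ} (hψ : IsIrr ψ)
    (hr : ip (resj j ψ) θ ≠ 0) (f : Y → ℂ) (hf : ∀ g x, f (g * x * g⁻¹) = f x)
    (hs : ∀ y, y ∉ j.range → f y = 0) : wt ψ f = wt θ (fun k => f (j k)) := by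
  classical
  have h0 : ∀ θ' ∈ irrF A, ip (resj j ψ) θ' ≠ 0 →
      ∑ k, f (j k) * θ' k = θ' 1 * wt θ (fun k => f (j k)) := by
    intro θ' hθ' hr'
    obtain ⟨y, rfl⟩ := exists_conj hc hθ (mem_irrF.mp hθ') hψ hr hr'
    rw [cfn_deg, wt, mul_div_cancel₀ _ hθ.one_ne_zero]
    refine Fintype.sum_equiv (c y).toEquiv _ _ fun k => ?_
    change f (j k) * θ (c y k) = f (j (c y k)) * θ (c y k)
    rw [hc.act, hf]
  have hexp := class_fn_expand (resj j ψ) (resj_class hψ)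
  have h1 : ∑ y, f y * ψ y = ψ 1 * wt θ (fun k => f (j k)) := by
    rw [sum_range hc (fun y => f y * ψ y) (fun y hy => by rw [hs y hy, zero_mul])]
    have h2 : ∀ k, f (j k) * ψ (j k) = ∑ θ' ∈ irrF A, ip (resj j ψ) θ' * (f (j k) * θ' k) := by
      intro k
      have h3 := congrFun hexp k
      have h4 : resj j ψ k = ψ (j k) := rfl
      rw [← h4, h3, Finset.mul_sum]
      exact Finset.sum_congr rfl fun θ' _ => by ring
    simp only [h2]
    rw [Finset.sum_comm]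
    have h3 : ∀ θ' ∈ irrF A, ∑ k, ip (resj j ψ) θ' * (f (j k) * θ' k) =
        (ip (resj j ψ) θ' * θ' 1) * wt θ (fun k => f (j k)) := by
      intro θ' hθ'
      rw [← Finset.mul_sum]
      by_cases h4 : ip (resj j ψ) θ' = 0
      · rw [h4, zero_mul, zero_mul, zero_mul]
      · rw [h0 θ' hθ' h4, mul_assoc]
    rw [Finset.sum_congr rfl h3, ← Finset.sum_mul]
    congr 1
    have h5 := congrFun hexp 1
    rw [← h5, resj, map_one]
  rw [wt, h1, mul_comm, mul_div_assoc, div_self hψ.one_ne_zero, mul_one]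

end

end Pool.Agent.DP.SUMM

namespace Pool.Agent.DP

open Pool.Agent.Lib_helper13 Representation

/-- SUMM: multiplicities for a normal subgroup. -/
theorem SUMM_thm : Stmt_SUMM := by
  classical
  intro A Y K _ _ _ _ _ j c p hc
  refine ⟨?_, ?_, ?_, ?_⟩
  · intro θ θ' hθ hθ'
    rw [SUMM.sum_mult hc hθ hθ']
    congr 1
    rw [Nat.card_eq_fintype_card, Fintype.card_subtype]
    congr 1
    refine Finset.filter_congr fun y _ => ?_
    rw [funext_iff]
    rfl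
  · intro θ θ' χ hθ hθ' hχ h h'
    obtain ⟨y, hy⟩ := SUMM.exists_conj hc hθ hθ' hχ h h'
    exact ⟨y, fun a => congrFun hy a⟩
  · intro θ χ y hχ
    exact SUMM.ip_cfn hc hχ y
  · intro θ χ f hθ hχ hr hf hs
    exact SUMM.wt_eq hc hθ hχ hr f hf hs

end Pool.Agent.DP


end

section

/-!
# LOC: the central characters of the normalizer
-/

set_option linter.unusedSectionVars false

namespace Pool.Agent.DPB

open Pool.Agent.Lib_helper13 Representation

namespace LOC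

variable {T : Type} [Group T] [Fintype T]

theorem stb_singleton (P : Subgroup T) :
    stb ({P} : Finset (Subgroup T)) = Subgroup.normalizer (P : Set T) := by
  simp [stb]

theorem isCh_singleton {ℓ : ℕ} {P : Subgroup T} (hP : IsPGroup ℓ P) (hne : P ≠ ⊥) :
    IsCh ℓ (⊥ : Subgroup T) {P} := by
  refine ⟨?_, ?_⟩
  · intro D hD
    rw [Finset.mem_singleton] at hD
    subst hD
    exact ⟨hP, bot_lt_iff_ne_bot.mpr hne⟩
  · rw [Finset.coe_singleton]
    exact IsChain.singleton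

theorem multOn_of_eq (𝔐 : Ideal (integralClosure ℤ ℂ)) [h𝔐 : 𝔐.IsPrime] {ℓ : ℕ}
    [Fact ℓ.Prime] (hℓ : (ℓ : integralClosure ℤ ℂ) ∈ 𝔐) {Z : Subgroup T}
    {τ : Finset (Subgroup T)} (hτ : IsCh ℓ Z τ) (S : Subgroup T) [i : Fintype S]
    (hS : S = stb τ) {ψ : S → ℂ} (hψ : IsIrr ψ) : MultOn 𝔐 ψ ⊤ := by
  subst hS
  have hi : i = subFintype (stb τ) := Subsingleton.elim _ _
  subst hi
  exact exists_irr_of_chain 𝔐 hℓ hτ hψ

section Normalizer

variable (P : Subgroup T)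

theorem normal_subgroupOf : (P.subgroupOf (Subgroup.normalizer (P : Set T))).Normal := by
  constructor
  intro y hy g
  rw [Subgroup.mem_subgroupOf] at hy ⊢
  exact (Subgroup.mem_normalizer_iff.mp g.2 (y : T)).mp hy

theorem isPGroup_subgroupOf {ℓ : ℕ} (hP : IsPGroup ℓ P) :
    IsPGroup ℓ (P.subgroupOf (Subgroup.normalizer (P : Set T))) := by
  apply hP.of_injective
    ((Subgroup.subgroupOfEquivOfLe (Subgroup.le_normalizer (H := P))).toMonoidHom)
    (Subgroup.subgroupOfEquivOfLe (Subgroup.le_normalizer (H := P))).injective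

theorem subgroupOf_ne_bot (hne : P ≠ ⊥) :
    P.subgroupOf (Subgroup.normalizer (P : Set T)) ≠ ⊥ := by
  intro h1
  apply hne
  rw [eq_bot_iff]
  intro x hx
  have h3 : (⟨x, Subgroup.le_normalizer hx⟩ : Subgroup.normalizer (P : Set T)) ∈
      P.subgroupOf (Subgroup.normalizer (P : Set T)) := Subgroup.mem_subgroupOf.mpr hx
  rw [h1, Subgroup.mem_bot] at h3
  rw [Subgroup.mem_bot]
  exact congrArg Subtype.val h3

theorem mem_centralizer_conj (g n : NP P) :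
    ((g * n * g⁻¹ : NP P) : T) ∈ Subgroup.centralizer (P : Set T) ↔
      (n : T) ∈ Subgroup.centralizer (P : Set T) := by
  have key : ∀ g n : NP P, (n : T) ∈ Subgroup.centralizer (P : Set T) →
      ((g * n * g⁻¹ : NP P) : T) ∈ Subgroup.centralizer (P : Set T) := by
    intro g n hn
    rw [Subgroup.mem_centralizer_iff] at hn ⊢
    intro q hq
    have h1 : (g : T)⁻¹ * q * ((g : T)⁻¹)⁻¹ ∈ P :=
      (Subgroup.mem_normalizer_iff.mp (g⁻¹ : NP P).2 q).mp hq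
    have h2 := hn _ h1
    have h3 : q * ((g * n * g⁻¹ : NP P) : T) =
        (g : T) * (((g : T)⁻¹ * q * ((g : T)⁻¹)⁻¹) * (n : T)) * (g : T)⁻¹ := by
      push_cast
      group
    rw [h3, h2]
    push_cast
    group
  constructor
  · intro h
    have h1 := key g⁻¹ (g * n * g⁻¹) h
    have h2 : g⁻¹ * (g * n * g⁻¹) * g⁻¹⁻¹ = n := by group
    rwa [h2] at h1
  · exact key g n

theorem brz_conj (z : T → ℂ) (hz : ∀ g x, z (g * x * g⁻¹) = z x) (g n : NP P) :
    brz (F := ℂ) P z (g * n * g⁻¹) = brz (F := ℂ) P z n := by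
  classical
  rw [brz, brz]
  by_cases h : (n : T) ∈ Subgroup.centralizer (P : Set T)
  · rw [if_pos h, if_pos ((mem_centralizer_conj P g n).mpr h)]
    have h1 : ((g * n * g⁻¹ : NP P) : T) = (g : T) * (n : T) * (g : T)⁻¹ := rfl
    rw [h1, hz]
  · rw [if_neg h, if_neg (fun h' => h ((mem_centralizer_conj P g n).mp h'))]

theorem isIntegral_brz (z : T → ℂ) (hz : ∀ x, IsIntegral ℤ (z x)) (n : NP P) :
    IsIntegral ℤ (brz (F := ℂ) P z n) := by
  classical
  rw [brz]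
  split_ifs
  · exact hz _
  · exact isIntegral_zero

end Normalizer

end LOC

theorem LOC_thm : Stmt_LOC := by
  intro T _ _ 𝔐 ℓ hF h𝔐 hℓ P _ hP ψ hψ
  have hprime : 𝔐.IsPrime := h𝔐.isPrime
  have hPg : IsPGroup ℓ P := IsPGroup.of_card (n := 1) (by rw [hP, pow_one])
  have hne : P ≠ ⊥ := by
    intro h
    have h1 : Nat.card P = 1 := by
      rw [h]
      exact Subgroup.card_bot
    rw [hP] at h1
    exact hF.out.one_lt.ne' h1
  have hn := LOC.normal_subgroupOf P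
  have hQ := LOC.isPGroup_subgroupOf P hPg
  have hQne := LOC.subgroupOf_ne_bot P hne
  refine ⟨?_, ?_, ?_⟩
  · exact exists_irr_of_mult 𝔐 hψ (LOC.multOn_of_eq 𝔐 hℓ (LOC.isCh_singleton hPg hne) _
      (LOC.stb_singleton P).symm hψ)
  · intro χ hχ hcen a ha
    have hcl : ∀ g x : T, (fun h => (a h : ℂ)) (g * x * g⁻¹) = (fun h => (a h : ℂ)) x := by
      intro g x
      change (a (g * x * g⁻¹) : ℂ) = (a x : ℂ)
      rw [ha]
    have hint : ∀ x : T, IsIntegral ℤ ((fun h => (a h : ℂ)) x) := fun x => (a x).2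
    have h1 := red_wt_eq_pair 𝔐 (MonoidHom.id T) hχ (fun h => (a h : ℂ)) hcl hint
    have h2 := red_wt_eq_pair 𝔐 (Subgroup.normalizer (P : Set T)).subtype hψ
      (fun h => (a h : ℂ)) hcl hint
    rw [hcen, ← h2] at h1
    have h3 : red 𝔐 (wt χ (fun h => (a h : ℂ))) =
        red 𝔐 (wt ψ (fun n : NP P => (a (n : T) : ℂ))) := h1
    rw [h3]
    apply red_wt_eq 𝔐 hℓ hψ (P.subgroupOf (Subgroup.normalizer (P : Set T))) hQ
    · exact fun g x => LOC.brz_conj P _ hcl g x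
    · exact fun x => LOC.isIntegral_brz P _ hint x
    · intro g x
      exact hcl g x
    · exact fun x => hint x
    · intro y hy
      have hy' : (y : T) ∈ Subgroup.centralizer (P : Set T) := by
        rw [Subgroup.mem_centralizer_iff]
        intro q hq
        have h4 := hy ⟨q, Subgroup.le_normalizer hq⟩ (Subgroup.mem_subgroupOf.mpr hq)
        exact congrArg Subtype.val h4
      rw [brz, if_pos hy']
  · intro h0
    exact red_codeg_ne_zero 𝔐 hℓ hψ h0 (no_defect_zero 𝔐 hℓ _ hQ hQne hψ)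

end Pool.Agent.DPB


end

section

/-!
# COSET: the norm of an extension on a coset
-/

namespace Pool.Agent.DP

open Pool.Agent.Lib_helper13 Representation

namespace COSET

variable {A Y : Type} [Group A] [Group Y] {n : ℕ}

/-- Schur: an intertwining map of an irreducible representation is a scalar. -/
theorem scalar (ρ : Representation ℂ A (Fin n → ℂ)) [ρ.IsIrreducible]
    (f : (Fin n → ℂ) →ₗ[ℂ] (Fin n → ℂ)) (hf : ∀ (g : A) v, f (ρ g v) = ρ g (f v)) :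
    ∃ c : ℂ, f = c • LinearMap.id := by
  obtain ⟨c, hc⟩ :=
    (IsIrreducible.algebraMap_intertwiningMap_bijective_of_isAlgClosed (ρ := ρ)).2
      (LinearMap.intertwiningMap_of_isIntertwiningMap (ρ := ρ) (σ := ρ) f hf)
  refine ⟨c, ?_⟩
  have h := congrArg (fun T : IntertwiningMap ρ ρ => T.toLinearMap) hc
  ext v i
  have h2 := congrArg (fun T : (Fin n → ℂ) →ₗ[ℂ] (Fin n → ℂ) =>
    (T (Pi.single v 1)) i) h
  exact h2.symm

theorem main [Fintype A] (ρ : Representation ℂ Y (Fin n → ℂ)) (j : A →* Y)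
    (hirr : Representation.IsIrreducible (ρ.comp j : Representation ℂ A (Fin n → ℂ))) (y : Y) :
    ∑ a, ρ.character (y * j a) * ρ.character (y * j a)⁻¹ =
      ∑ a, ρ.character (j a) * ρ.character (j a)⁻¹ := by
  have e : ∀ g : Y, ρ.character g * ρ.character g⁻¹ =
      LinearMap.trace ℂ _ (linHom ρ ρ g) := by
    intro g
    have := char_linHom ρ ρ g
    rw [Representation.character] at this
    rw [this, mul_comm]
  simp only [e]
  rw [← map_sum (LinearMap.trace ℂ ((Fin n → ℂ) →ₗ[ℂ] Fin n → ℂ)),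
    ← map_sum (LinearMap.trace ℂ ((Fin n → ℂ) →ₗ[ℂ] Fin n → ℂ))]
  congr 1
  apply LinearMap.ext
  intro f
  rw [LinearMap.sum_apply, LinearMap.sum_apply]
  simp only [map_mul, Module.End.mul_apply]
  rw [← map_sum]
  set F := ∑ a, (linHom ρ ρ (j a)) f with hF
  obtain ⟨c, hc⟩ := scalar (ρ.comp j : Representation ℂ A (Fin n → ℂ)) F (by
    intro g v
    have h1 : linHom ρ ρ (j g) F = F := by
      rw [hF, map_sum]
      have h2 : ∀ a, linHom ρ ρ (j g) (linHom ρ ρ (j a) f) = linHom ρ ρ (j (g * a)) f := by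
        intro a
        rw [map_mul, map_mul]
        rfl
      simp only [h2]
      exact Fintype.sum_equiv (Equiv.mulLeft g) _ _ fun a => rfl
    change F (ρ (j g) v) = ρ (j g) (F v)
    conv_lhs => rw [← h1]
    rw [linHom_apply]
    simp)
  rw [hc, map_smul]
  congr 1
  rw [linHom_apply]
  ext v i
  simp

end COSET

theorem COSET_thm : Stmt_COSET := by
  intro A Y K _ _ _ _ _ j c p _ θ E hθ hE hj y
  obtain ⟨n, ρ, rfl⟩ := hE
  have hc : Representation.character (ρ.comp j : Representation ℂ A (Fin n → ℂ)) = θ := by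
    ext a
    exact hj a
  have hsum : ∑ a, ρ.character (j a) * ρ.character (j a)⁻¹ = Nat.card A := by
    rw [← hθ.sum_self]
    refine Finset.sum_congr rfl fun a _ => ?_
    rw [hj, ← map_inv, hj]
  have hirr : Representation.IsIrreducible (ρ.comp j : Representation ℂ A (Fin n → ℂ)) := by
    apply irreducible_of_sum
    rw [hc]
    exact hθ.sum_self
  rw [COSET.main ρ j hirr y, hsum]

end Pool.Agent.DP


end

section

set_option linter.unusedSectionVars false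

/-!
# Characters over an extendible character (Gallagher)
-/

namespace Pool.Agent.DP

open Pool.Agent.Lib_helper13 Representation

namespace GALL

variable {A Y L : Type} [Group A] [Fintype A] [Group Y] [Fintype Y] [Group L] [Fintype L]
  {j : A →* Y} {c : Y →* MulAut A} {q : Y →* L}

/-- The kernel is the range. -/
theorem q_j (h : ClG j c q) (a : A) : q (j a) = 1 := (h.ker (j a)).mpr ⟨a, rfl⟩

/-- Sum over the cosets of the kernel. -/
theorem sum_fib (h : ClG j c q) (s : L → Y) (hs : ∀ l, q (s l) = l)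
    {M : Type} [AddCommMonoid M] (F : Y → M) :
    ∑ y, F y = ∑ l : L, ∑ a : A, F (s l * j a) := by
  rw [← Fintype.sum_prod_type' (f := fun l a => F (s l * j a))]
  refine (Fintype.sum_bijective (fun p : L × A => s p.1 * j p.2) ?_ _ _ (fun _ => rfl)).symm
  constructor
  · rintro ⟨l, a⟩ ⟨l', a'⟩ hh
    have h1 : l = l' := by
      have h2 := congrArg q hh
      simp only [map_mul, hs, q_j h, mul_one] at h2
      exact h2
    subst h1
    have h2 : j a = j a' := mul_left_cancel hh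
    rw [h.inj h2]
  · intro y
    have h1 : (s (q y))⁻¹ * y ∈ j.range := by
      rw [← h.ker, map_mul, map_inv, hs, inv_mul_cancel]
    obtain ⟨a, ha⟩ := h1
    exact ⟨(q y, a), by simp [ha]⟩

/-- The order. -/
theorem card_eq (h : ClG j c q) (hq : Function.Surjective q) :
    (Nat.card Y : ℂ) = Nat.card A * Nat.card L := by
  choose s hs using hq
  have h1 := sum_fib h s hs (fun _ => (1 : ℂ))
  simp only [Finset.sum_const, Finset.card_univ, nsmul_eq_mul, mul_one] at h1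
  rw [Nat.card_eq_fintype_card, Nat.card_eq_fintype_card, Nat.card_eq_fintype_card, h1, mul_comm]

/-- The pairing of two products. -/
theorem pairing (h1 : Stmt_COSET) (h : ClG j c q) (hq : Function.Surjective q)
    {θ : A → ℂ} {E : Y → ℂ} (hθ : IsIrr θ) (hE : IsChr E) (hEθ : ∀ a, E (j a) = θ a)
    (η η' : L → ℂ) :
    ∑ y, (E y * η (q y)) * (E y⁻¹ * η' (q y⁻¹)) = Nat.card A * ∑ l, η l * η' l⁻¹ := by
  choose s hs using hq
  rw [sum_fib h s hs, Finset.mul_sum]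
  refine Finset.sum_congr rfl fun l _ => ?_
  rw [← h1 A Y L j c q h θ E hθ hE hEθ (s l), Finset.sum_mul]
  refine Finset.sum_congr rfl fun a _ => ?_
  have h2 : q (s l * j a) = l := by rw [map_mul, hs, q_j h, mul_one]
  have h3 : q (s l * j a)⁻¹ = l⁻¹ := by rw [map_inv, h2]
  rw [h2, h3]
  ring

/-- The products are irreducible. -/
theorem irr (h1 : Stmt_COSET) (h : ClG j c q) (hq : Function.Surjective q)
    {θ : A → ℂ} {E : Y → ℂ} (hθ : IsIrr θ) (hE : IsChr E) (hEθ : ∀ a, E (j a) = θ a)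
    {η : L → ℂ} (hη : IsIrr η) : IsIrr (fun y => E y * η (q y)) := by
  refine (hE.mul (hη.isChr.comp q)).isIrr ?_
  have h2 := pairing h1 h hq hθ hE hEθ η η
  rw [hη.sum_self, ← card_eq h hq] at h2
  exact h2

/-- The multiplicity. -/
theorem mult (h : ClG j c q) {θ : A → ℂ} {E : Y → ℂ} (hθ : IsIrr θ)
    (hEθ : ∀ a, E (j a) = θ a) (η : L → ℂ) :
    ip (resj j (fun y => E y * η (q y))) θ = η 1 := by
  have h2 : ∀ a, resj j (fun y => E y * η (q y)) a * θ a⁻¹ = η 1 * (θ a * θ a⁻¹) := by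
    intro a
    rw [resj, q_j h, hEθ]
    ring
  rw [ip, Finset.sum_congr rfl fun a _ => h2 a, ← Finset.mul_sum, hθ.sum_self, mul_div_assoc,
    div_self natCard_ne_zero, mul_one]

/-- The products are distinct. -/
theorem inj (h1 : Stmt_COSET) (h : ClG j c q) (hq : Function.Surjective q)
    {θ : A → ℂ} {E : Y → ℂ} (hθ : IsIrr θ) (hE : IsChr E) (hEθ : ∀ a, E (j a) = θ a)
    {η η' : L → ℂ} (hη : IsIrr η) (hη' : IsIrr η')
    (he : (fun y => E y * η (q y)) = (fun y => E y * η' (q y))) : η = η' := by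
  by_contra hne
  have h2 := pairing h1 h hq hθ hE hEθ η η'
  rw [hη.sum_ne hη' hne, mul_zero] at h2
  have h3 := pairing h1 h hq hθ hE hEθ η η
  rw [hη.sum_self, ← card_eq h hq] at h3
  have h4 : ∀ y, E y * η' (q y) = E y * η (q y) := fun y => (congrFun he y).symm
  simp only [h4] at h2
  rw [h2] at h3
  exact natCard_ne_zero h3.symm

/-- The sum of the squares of the multiplicities. -/
theorem sum_mult (h2 : Stmt_SUMM) (h : ClG j c q) (hq : Function.Surjective q)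
    {θ : A → ℂ} {E : Y → ℂ} (hθ : IsIrr θ) (hE : IsChr E) (hEθ : ∀ a, E (j a) = θ a) :
    ∑ χ ∈ irrF Y, ip (resj j χ) θ * ip (resj j χ) θ = Nat.card L := by
  have h3 := (h2 A Y L j c q h).1 θ θ hθ hθ
  have h4 : ∀ y : Y, ∀ a, θ (c y a) = θ a := by
    intro y a
    rw [← hEθ, ← hEθ, h.act, hE.conj_eq]
  have h5 : Nat.card {y : Y // ∀ a, θ (c y a) = θ a} = Nat.card Y :=
    Nat.card_congr (Equiv.subtypeUnivEquiv h4)
  rw [h5, card_eq h hq] at h3
  exact mul_left_cancel₀ natCard_ne_zero h3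

/-- Every character over `θ` is a product. -/
theorem surj (h1 : Stmt_COSET) (h2 : Stmt_SUMM) (h : ClG j c q) (hq : Function.Surjective q)
    {θ : A → ℂ} {E : Y → ℂ} (hθ : IsIrr θ) (hE : IsChr E) (hEθ : ∀ a, E (j a) = θ a)
    {ψ : Y → ℂ} (hψ : IsIrr ψ) (hne : ip (resj j ψ) θ ≠ 0) :
    ∃ η : L → ℂ, IsIrr η ∧ ψ = fun y => E y * η (q y) := by
  classical
  by_contra hcon
  push Not at hcon
  set S : Finset (Y → ℂ) := (irrF L).image (fun η => fun y => E y * η (q y)) with hS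
  have hSY : S ⊆ irrF Y := by
    intro χ hχ
    rw [hS, Finset.mem_image] at hχ
    obtain ⟨η, hη, rfl⟩ := hχ
    exact mem_irrF.mpr (irr h1 h hq hθ hE hEθ (mem_irrF.mp hη))
  have hψS : ψ ∈ irrF Y \ S := by
    rw [Finset.mem_sdiff]
    refine ⟨mem_irrF.mpr hψ, ?_⟩
    intro hc
    rw [hS, Finset.mem_image] at hc
    obtain ⟨η, hη, he⟩ := hc
    exact hcon η (mem_irrF.mp hη) he.symm
  have hsumS : ∑ χ ∈ S, ip (resj j χ) θ * ip (resj j χ) θ = Nat.card L := by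
    rw [hS, Finset.sum_image]
    · rw [← sum_sq]
      refine Finset.sum_congr rfl fun η _ => ?_
      rw [mult h hθ hEθ]
    · intro η hη η' hη' he
      exact inj h1 h hq hθ hE hEθ (mem_irrF.mp hη) (mem_irrF.mp hη') he
  have hrest : ∑ χ ∈ irrF Y \ S, ip (resj j χ) θ * ip (resj j χ) θ = 0 := by
    have h3 := Finset.sum_sdiff hSY (f := fun χ => ip (resj j χ) θ * ip (resj j χ) θ)
    rw [hsumS, sum_mult h2 h hq hθ hE hEθ] at h3
    simpa using h3
  have hm : ∀ χ : Y → ℂ, ∃ m : ℕ, IsIrr χ → ip (resj j χ) θ = m := by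
    intro χ
    by_cases hχ : IsIrr χ
    · obtain ⟨m, hm⟩ := (hχ.resj j).exists_ip hθ.isChr
      exact ⟨m, fun _ => hm⟩
    · exact ⟨0, fun hc => absurd hc hχ⟩
  choose m hm using hm
  have h3 : ((∑ χ ∈ irrF Y \ S, m χ * m χ : ℕ) : ℂ) = 0 := by
    rw [← hrest]
    push_cast
    refine Finset.sum_congr rfl fun χ hχ => ?_
    rw [hm χ (mem_irrF.mp (Finset.mem_sdiff.mp hχ).1)]
  have h4 : ∑ χ ∈ irrF Y \ S, m χ * m χ = 0 := by exact_mod_cast h3
  rw [Finset.sum_eq_zero_iff] at h4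
  have h5 := h4 ψ hψS
  have h6 : m ψ = 0 := by simpa using h5
  apply hne
  rw [hm ψ hψ, h6, Nat.cast_zero]

end GALL

theorem GALL_thm (h1 : Stmt_COSET) (h2 : Stmt_SUMM) : Stmt_GALL := by
  intro A Y L _ _ _ _ _ _ j c q h hq θ E hθ hE hEθ
  refine ⟨fun η hη => ⟨GALL.irr h1 h hq hθ hE hEθ hη, ?_⟩, ?_, ?_⟩
  · rw [GALL.mult h hθ hEθ]
    exact hη.one_ne_zero
  · intro η η' hη hη' he
    exact GALL.inj h1 h hq hθ hE hEθ hη hη' he
  · intro ψ hψ hne
    exact GALL.surj h1 h2 h hq hθ hE hEθ hψ hne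

end Pool.Agent.DP


end

section

/-!
# INTH: integrality of weights of functions which are invariant under `G`
-/

namespace Pool.Agent.DP

open Pool.Agent.Lib_helper13 Representation

namespace INTH

/-- A scalar which acts on a nonzero vector as an integral combination of the values of the
translates is integral. -/
theorem isIntegral_of_mem {S : Type*} [Finite S] (v : S → ℂ) (hv : ∃ s, v s ≠ 0) (c : ℂ)
    (h : ∀ x, c * v x ∈ Submodule.span (integralClosure ℤ ℂ) (Set.range v)) :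
    IsIntegral ℤ c := by
  have h1 : IsIntegral (integralClosure ℤ ℂ) c := by
    refine isIntegral_of_smul_mem_submodule
      (Submodule.span (integralClosure ℤ ℂ) (Set.range v)) ?_ ?_ c ?_
    · obtain ⟨s, hs⟩ := hv
      intro hbot
      have h2 : v s ∈ Submodule.span (integralClosure ℤ ℂ) (Set.range v) :=
        Submodule.subset_span ⟨s, rfl⟩
      rw [hbot] at h2
      exact hs ((Submodule.mem_bot _).mp h2)
    · exact Submodule.fg_span (Set.finite_range v)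
    · intro a ha
      induction ha using Submodule.span_induction with
      | mem x hx =>
        obtain ⟨s, rfl⟩ := hx
        exact h s
      | zero =>
        rw [smul_zero]
        exact Submodule.zero_mem _
      | add x y _ _ hx hy =>
        rw [smul_add]
        exact Submodule.add_mem _ hx hy
      | smul a x _ hx =>
        rw [smul_comm]
        exact Submodule.smul_mem _ a hx
  exact isIntegral_trans c h1

theorem sum_restrict {B : Type*} [Group B] [Fintype B] (S : Subgroup B) [Fintype S] (F f : B → ℂ)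
    (hf : ∀ x, x ∉ S → f x = 0) : ∑ x, F x * f x = ∑ s : S, F s * f s := by
  classical
  have h1 : ∑ x ∈ Finset.univ.filter (fun x : B => x ∈ S), F x * f x = ∑ s : S, F s * f s :=
    Finset.sum_subtype _ (by intro x; simp) _
  rw [← h1]
  symm
  apply Finset.sum_subset (Finset.subset_univ _)
  intro x _ hx
  rw [hf x (fun h => hx (by simp [h])), mul_zero]

end INTH

theorem INTH_thm : Stmt_INTH := by
  classical
  intro G B C _ _ _ _ _ ι κ ρ _ S f hf hres F hF hinv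
  obtain ⟨n, R, hR, hRf⟩ := hf.1
  obtain ⟨n', R', hR', hRf'⟩ := hres.1
  have : Fintype S := Fintype.ofFinite _
  have : Fintype (S.comap ι) := Fintype.ofFinite _
  -- the restriction to `G`
  let j : S.comap ι →* S := (ι.comp (S.comap ι).subtype).codRestrict S (fun h => h.2)
  let σ : Representation ℂ (S.comap ι) (Fin n → ℂ) := R.comp j
  have hσc : σ.character = R'.character := by
    rw [hRf']
    funext h
    have h1 : σ.character h = R.character (j h) := rfl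
    rw [h1, hRf]
    rfl
  have hσ : σ.IsIrreducible := by
    apply irreducible_of_sum
    rw [hσc]
    exact sum_char_self R'
  -- the operator
  let T : (Fin n → ℂ) →ₗ[ℂ] (Fin n → ℂ) := ∑ s : S, F s • (R s : (Fin n → ℂ) →ₗ[ℂ] (Fin n → ℂ))
  have hT : ∀ x, T x = ∑ s : S, F s • R s x := by
    intro x
    simp [T, LinearMap.sum_apply]
  have hcomm : ∀ g x, T (σ g x) = σ g (T x) := by
    intro g x
    rw [hT, hT, map_sum]
    have h1 : ∀ s : S, σ g (F s • R s x) = F s • R (j g * s) x := by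
      intro s
      rw [map_smul, map_mul]
      rfl
    have h2 : ∀ s : S, F s • R s (σ g x) = F s • R (s * j g) x := by
      intro s
      rw [map_mul]
      rfl
    simp only [h1, h2]
    -- substitute `s = j g * s' * (j g)⁻¹`
    rw [← Equiv.sum_comp (MulAut.conj (j g)).toEquiv]
    refine Finset.sum_congr rfl fun s _ => ?_
    have h3 : ((MulAut.conj (j g)).toEquiv s : S) = j g * s * (j g)⁻¹ := rfl
    rw [h3]
    have h4 : F ((j g * s * (j g)⁻¹ : S) : B) = F s := hinv (g : G) (s : B)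
    rw [h4, inv_mul_cancel_right]
  obtain ⟨c, hc⟩ := exists_scalar σ hσ T hcomm
  -- the scalar
  have hn : (R.character 1 : ℂ) ≠ 0 := IsIrr.one_ne_zero ⟨n, R, hR, rfl⟩
  have hcval : (∑ x, F x * f x) / f 1 = c := by
    have hf1 : f 1 = R.character 1 := by
      rw [hRf]
      rfl
    rw [hf1, div_eq_iff hn, INTH.sum_restrict S F f hf.2]
    have h2 := congrArg (LinearMap.trace ℂ (Fin n → ℂ)) hc
    simp only [T] at h2
    rw [map_sum] at h2
    have h3 : ∀ s : S, LinearMap.trace ℂ (Fin n → ℂ) (F s • R s) = F s * f s := by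
      intro s
      rw [map_smul, smul_eq_mul]
      congr 1
      exact congrFun hRf s
    simp only [h3] at h2
    rw [h2, map_smul, char_one]
    simp
  rw [hcval]
  -- integrality
  have hn0 : n ≠ 0 := by
    rintro rfl
    apply hn
    rw [char_one]
    simp
  let i : Fin n := ⟨0, Nat.pos_of_ne_zero hn0⟩
  refine INTH.isIntegral_of_mem (S := S) (fun y => R y⁻¹ (Pi.single i 1) i) ⟨1, ?_⟩ c ?_
  · simp
  · intro x
    have h1 : c * R x⁻¹ (Pi.single i 1) i = ∑ s : S, F s * R (s⁻¹ * x)⁻¹ (Pi.single i 1) i := by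
      have h2 : c • (Pi.single i 1 : Fin n → ℂ) = ∑ s : S, F s • R s (Pi.single i 1) := by
        rw [← hT, hc]
        rfl
      have h3 := congrArg (fun u : Fin n → ℂ => R x⁻¹ u i) h2
      simp only [map_smul, map_sum, Pi.smul_apply, smul_eq_mul, Finset.sum_apply] at h3
      rw [h3]
      refine Finset.sum_congr rfl fun s _ => ?_
      rw [mul_inv_rev, inv_inv, map_mul]
      rfl
    rw [h1]
    refine Submodule.sum_mem _ fun s _ => ?_
    exact Submodule.smul_mem _ (⟨F s, hF s⟩ : integralClosure ℤ ℂ)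
      (Submodule.subset_span ⟨s⁻¹ * x, rfl⟩)

end Pool.Agent.DP


end

section

/-!
# IRRPI: irreducible characters of a product subgroup
-/

namespace Pool.Agent.DP.IRRPI

open Pool.Agent.Lib_helper13 Representation

variable {G : Type} [Group G]

theorem res_ext0 {T : Subgroup G} (ψ : T → ℂ) : (fun s : T => ext0 ψ (s : G)) = ψ := by
  ext s
  rw [ext0_of_mem ψ s.2]

theorem ext0_res {T : Subgroup G} {f : G → ℂ} (h : ∀ x, x ∉ T → f x = 0) :
    ext0 (fun s : T => f s) = f := by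
  ext x
  by_cases hx : x ∈ T
  · rw [ext0_of_mem _ hx]
  · rw [ext0_of_not_mem _ hx, h x hx]

theorem irrOn_ext0 {T : Subgroup G} {ψ : T → ℂ} (h : IsIrr ψ) : IrrOn T (ext0 ψ) := by
  refine ⟨?_, fun x hx => ext0_of_not_mem ψ hx⟩
  rw [res_ext0]
  exact h

theorem mem_irrOn [Fintype G] {T : Subgroup G} {f : G → ℂ} : f ∈ irrOn T ↔ IrrOn T f := by
  classical
  rw [irrOn, Finset.mem_image]
  constructor
  · rintro ⟨ψ, hψ, rfl⟩
    exact irrOn_ext0 (mem_irrF.mp hψ)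
  · intro h
    exact ⟨fun s : T => f s, mem_irrF.mpr h.1, ext0_res h.2⟩

variable {O : Type} [Fintype O] [DecidableEq O] [Fintype G] (S : O → Subgroup G)

theorem one_part (θ : O → G → ℂ) (hθ : ∀ o, IrrOn (S o) (θ o)) :
    IsIrr (fun a : pK S => ∏ o, θ o ((a : O → G) o)) := by
  have h1 : IsIrr (prodFn (fun o => fun s : S o => θ o s)) := isIrr_prodFn fun o => (hθ o).1
  exact h1.comp_mulEquiv (pKEquiv S).symm

theorem two_part (θ θ' : O → G → ℂ) (hθ : ∀ o, IrrOn (S o) (θ o))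
    (hθ' : ∀ o, IrrOn (S o) (θ' o))
    (heq : ∀ a : pK S, ∏ o, θ o ((a : O → G) o) = ∏ o, θ' o ((a : O → G) o)) : θ = θ' := by
  have h1 : (fun o => fun s : S o => θ o s) = (fun o => fun s : S o => θ' o s) := by
    apply prodFn_inj (fun o => (hθ o).1) (fun o => (hθ' o).1)
    ext x
    exact heq (pKEquiv S x)
  funext o
  rw [← ext0_res (hθ o).2, ← ext0_res (hθ' o).2]
  congr 1
  exact congrFun h1 o

theorem three_part (H : (pK S → ℂ) → ℚ) : ∑ θ ∈ irrF (pK S), H θ =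
    ∑ θ ∈ Fintype.piFinset (fun o => irrOn (S o)),
      H (fun a => ∏ o, θ o ((a : O → G) o)) := by
  symm
  refine Finset.sum_bij (fun θ _ => fun a : pK S => ∏ o, θ o ((a : O → G) o)) ?_ ?_ ?_ ?_
  · intro θ hθ
    rw [Fintype.mem_piFinset] at hθ
    exact mem_irrF.mpr (one_part S θ fun o => mem_irrOn.mp (hθ o))
  · intro θ hθ θ' hθ' heq
    rw [Fintype.mem_piFinset] at hθ hθ'
    exact two_part S θ θ' (fun o => mem_irrOn.mp (hθ o)) (fun o => mem_irrOn.mp (hθ' o))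
      (fun a => congrFun heq a)
  · intro φ hφ
    have h1 : IsIrr (φ ∘ pKEquiv S) := (mem_irrF.mp hφ).comp_mulEquiv (pKEquiv S)
    obtain ⟨θ, hθ, h2⟩ := exists_prodFn h1
    refine ⟨fun o => ext0 (θ o), ?_, ?_⟩
    · rw [Fintype.mem_piFinset]
      intro o
      exact mem_irrOn.mpr (irrOn_ext0 (hθ o))
    · ext a
      have h3 := congrFun h2 ((pKEquiv S).symm a)
      simp only [Function.comp_apply, MulEquiv.apply_symm_apply] at h3
      rw [← h3, prodFn]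
      refine Finset.prod_congr rfl fun o _ => ?_
      have h4 : ((a : O → G) o) ∈ S o := mem_pK.mp a.2 o
      change ext0 (θ o) ((a : O → G) o) = _
      rw [ext0_of_mem _ h4]
      rfl
  · intro θ _
    rfl

end Pool.Agent.DP.IRRPI

namespace Pool.Agent.DP

open Pool.Agent.Lib_helper13 Representation

theorem IRRPI_thm : Stmt_IRRPI := by
  intro O G _ _ _ _ S A hA
  subst hA
  refine ⟨IRRPI.one_part S, IRRPI.two_part S, ?_⟩
  intro H
  have h := IRRPI.three_part S H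
  convert h

end Pool.Agent.DP


end

section

set_option linter.unusedSectionVars false

/-!
# EXTAR (theorem R): the extensions of `ψ`
-/

namespace Pool.Agent.DP

open Pool.Agent.Lib_helper13 Representation

namespace EXTAR

/-! ### Linear characters -/

theorem card_dual {C : Type} [Group C] [Finite C] (hc : IsCyclic C) (K : Subgroup C) :
    Nat.card (K →* ℂˣ) = Nat.card K := by
  have hK : IsCyclic K := Subgroup.isCyclic K
  let _ : CommGroup K := IsCyclic.commGroup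
  exact CommGroup.card_monoidHom_of_hasEnoughRootsOfUnity K ℂ

theorem ext_dual_aux {C : Type} [CommGroup C] [Finite C] (K : Subgroup C) (lam : K →* ℂˣ) :
    ∃ lam' : C →* ℂˣ, ∀ k : K, lam' k = lam k := by
  obtain ⟨l, hl⟩ := MonoidHom.domRestrict_surjective (M := ℂ) K lam
  exact ⟨l, fun k => DFunLike.congr_fun hl k⟩

/-- Linear characters of subgroups extend. -/
theorem ext_dual {C : Type} [Group C] [Finite C] (_ : IsCyclic C) (K : Subgroup C)
    (lam : K →* ℂˣ) : ∃ lam' : C →* ℂˣ, ∀ k : K, lam' k = lam k :=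
  @ext_dual_aux C IsCyclic.commGroup _ K lam

theorem trace_mul_one_dim (f g : (Fin 1 → ℂ) →ₗ[ℂ] (Fin 1 → ℂ)) :
    LinearMap.trace ℂ _ (f * g) = LinearMap.trace ℂ _ f * LinearMap.trace ℂ _ g := by
  rw [LinearMap.trace_eq_matrix_trace ℂ (Pi.basisFun ℂ (Fin 1)),
    LinearMap.trace_eq_matrix_trace ℂ (Pi.basisFun ℂ (Fin 1)),
    LinearMap.trace_eq_matrix_trace ℂ (Pi.basisFun ℂ (Fin 1)), LinearMap.toMatrix_mul]
  simp [Matrix.trace, Matrix.mul_apply]

theorem lin_mul {K : Type} [Group K] {η : K → ℂ} (h : IsIrr η) (h1 : η 1 = 1) (a b : K) :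
    η (a * b) = η a * η b := by
  obtain ⟨n, ρ, _, rfl⟩ := h
  have hn : n = 1 := by
    rw [char_one] at h1
    simpa using h1
  subst hn
  change LinearMap.trace ℂ _ (ρ (a * b)) = LinearMap.trace ℂ _ (ρ a) * LinearMap.trace ℂ _ (ρ b)
  rw [map_mul]
  exact trace_mul_one_dim _ _

theorem exists_lin {K : Type} [Group K] {η : K → ℂ} (h : IsIrr η) (h1 : η 1 = 1) :
    ∃ lam : K →* ℂˣ, ∀ k, ((lam k : ℂˣ) : ℂ) = η k :=
  ⟨MonoidHom.toHomUnits { toFun := η, map_one' := h1, map_mul' := lin_mul h h1 },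
    fun _ => rfl⟩

theorem isIrr_lin {K : Type} [Group K] [Fintype K] (lam : K →* ℂˣ) :
    IsIrr (fun k => ((lam k : ℂˣ) : ℂ)) := by
  apply (isChr_lin lam).isIrr
  have h : ∀ g : K, ((lam g : ℂˣ) : ℂ) * ((lam g⁻¹ : ℂˣ) : ℂ) = 1 := by
    intro g
    rw [← Units.val_mul, ← map_mul, mul_inv_cancel, map_one, Units.val_one]
  simp [h]

/-! ### The stabilizer -/

section Loc

variable {G B C : Type} [Group G] [Group B] [Group C] {ι : G →* B} {κ : B →* MulAut G}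
  {ρ : B →* C}

theorem kap (h : ClG ι κ ρ) (g x : G) : κ (ι g) x = g * x * g⁻¹ := by
  apply h.inj
  rw [h.act, map_mul, map_mul, map_inv]

theorem kap_conj (h : ClG ι κ ρ) (g : G) : κ (ι g) = MulAut.conj g := by
  apply MulEquiv.ext
  intro x
  rw [kap h, MulAut.conj_apply]

theorem cls {S : Subgroup G} {ψ : G → ℂ} (hψ : IrrOn S ψ) {g : G} (hg : g ∈ S) (x : G) :
    ψ (g * x * g⁻¹) = ψ x := by
  by_cases hx : x ∈ S
  · exact hψ.1.conj_eq (⟨g, hg⟩ : S) ⟨x, hx⟩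
  · rw [hψ.2 x hx, hψ.2]
    intro hc
    apply hx
    have h1 := S.mul_mem (S.mul_mem (S.inv_mem hg) hc) hg
    have h2 : g⁻¹ * (g * x * g⁻¹) * g = x := by group
    rwa [h2] at h1

theorem mem_Stx_iota (h : ClG ι κ ρ) {σ : Finset (Subgroup G)} {ψ : G → ℂ}
    (hψ : IrrOn (stb σ) ψ) (g : G) : ι g ∈ Stx κ σ ψ ↔ g ∈ stb σ := by
  constructor
  · intro hg
    rw [mem_stb]
    intro D hD
    rw [← kap_conj h]
    exact hg.1 D hD
  · intro hg
    refine ⟨?_, ?_⟩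
    · intro D hD
      rw [kap_conj h]
      exact mem_stb.mp hg D hD
    · intro x
      rw [kap h]
      exact cls hψ hg x

theorem rho_iota (h : ClG ι κ ρ) (g : G) : ρ (ι g) = 1 := (h.ker (ι g)).mpr ⟨g, rfl⟩

theorem comap_eq (h : ClG ι κ ρ) {σ : Finset (Subgroup G)} {ψ : G → ℂ}
    (hψ : IrrOn (stb σ) ψ) (L : Subgroup C) : (Stx κ σ ψ ⊓ L.comap ρ).comap ι = stb σ := by
  ext g
  rw [Subgroup.mem_comap, Subgroup.mem_inf, mem_Stx_iota h hψ, Subgroup.mem_comap, rho_iota h]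
  exact ⟨fun hg => hg.1, fun hg => ⟨hg, L.one_mem⟩⟩

theorem map_eq (σ : Finset (Subgroup G)) (ψ : G → ℂ) (L : Subgroup C) :
    (Stx κ σ ψ ⊓ L.comap ρ).map ρ = KL κ ρ σ ψ L := by
  ext c
  constructor
  · rintro ⟨b, hb, rfl⟩
    exact ⟨⟨b, hb.1, rfl⟩, hb.2⟩
  · rintro ⟨⟨b, hb, rfl⟩, hc⟩
    exact ⟨b, ⟨hb, hc⟩, rfl⟩

variable (ι κ ρ) in
/-- The group. -/
abbrev YY (σ : Finset (Subgroup G)) (ψ : G → ℂ) (L : Subgroup C) : Subgroup B :=
  Stx κ σ ψ ⊓ L.comap ρ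

theorem mem_YY (h : ClG ι κ ρ) {σ : Finset (Subgroup G)} {ψ : G → ℂ}
    (hψ : IrrOn (stb σ) ψ) (L : Subgroup C) {g : G} : ι g ∈ YY κ ρ σ ψ L ↔ g ∈ stb σ := by
  rw [← comap_eq h hψ L, Subgroup.mem_comap]

/-- The embedding. -/
noncomputable def jY (h : ClG ι κ ρ) {σ : Finset (Subgroup G)} {ψ : G → ℂ}
    (hψ : IrrOn (stb σ) ψ) (L : Subgroup C) : stb σ →* YY κ ρ σ ψ L :=
  (ι.comp (stb σ).subtype).codRestrict _ (fun a => (mem_YY h hψ L).mpr a.2)

theorem kap_mem (h : ClG ι κ ρ) {σ : Finset (Subgroup G)} {ψ : G → ℂ}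
    (hψ : IrrOn (stb σ) ψ) (L : Subgroup C) (y : YY κ ρ σ ψ L) (a : stb σ) :
    κ (y : B) (a : G) ∈ stb σ := by
  rw [← mem_YY h hψ L, h.act]
  exact mul_mem (mul_mem y.2 ((mem_YY h hψ L).mpr a.2)) (inv_mem y.2)

/-- The action. -/
noncomputable def cY (h : ClG ι κ ρ) {σ : Finset (Subgroup G)} {ψ : G → ℂ}
    (hψ : IrrOn (stb σ) ψ) (L : Subgroup C) : YY κ ρ σ ψ L →* MulAut (stb σ) where
  toFun y :=
    { toFun := fun a => ⟨κ (y : B) (a : G), kap_mem h hψ L y a⟩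
      invFun := fun a => ⟨κ ((y⁻¹ : YY κ ρ σ ψ L) : B) (a : G), kap_mem h hψ L y⁻¹ a⟩
      left_inv := by
        intro a
        apply Subtype.ext
        change κ ((y⁻¹ : YY κ ρ σ ψ L) : B) (κ (y : B) (a : G)) = a
        rw [← MulAut.mul_apply, ← map_mul]
        simp
      right_inv := by
        intro a
        apply Subtype.ext
        change κ (y : B) (κ ((y⁻¹ : YY κ ρ σ ψ L) : B) (a : G)) = a
        rw [← MulAut.mul_apply, ← map_mul]
        simp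
      map_mul' := by
        intro a b
        apply Subtype.ext
        change κ (y : B) ((a * b : stb σ) : G) = κ (y : B) (a : G) * κ (y : B) (b : G)
        simp }
  map_one' := by
    ext a
    simp
  map_mul' := by
    intro x y
    ext a
    simp

/-- The projection. -/
noncomputable def qY (κ : B →* MulAut G) (ρ : B →* C) (σ : Finset (Subgroup G)) (ψ : G → ℂ)
    (L : Subgroup C) : YY κ ρ σ ψ L →* KL κ ρ σ ψ L :=
  (ρ.comp (YY κ ρ σ ψ L).subtype).codRestrict _ (fun y => ⟨⟨y, y.2.1, rfl⟩, y.2.2⟩)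

theorem qY_coe (κ : B →* MulAut G) (ρ : B →* C) (σ : Finset (Subgroup G)) (ψ : G → ℂ)
    (L : Subgroup C) (y : YY κ ρ σ ψ L) : (qY κ ρ σ ψ L y : C) = ρ (y : B) := rfl

theorem qY_surj (κ : B →* MulAut G) (ρ : B →* C) (σ : Finset (Subgroup G)) (ψ : G → ℂ)
    (L : Subgroup C) : Function.Surjective (qY κ ρ σ ψ L) := by
  rintro ⟨c, hc⟩
  rw [← map_eq] at hc
  obtain ⟨b, hb, rfl⟩ := hc
  exact ⟨⟨b, hb⟩, rfl⟩

theorem clG_Y (h : ClG ι κ ρ) {σ : Finset (Subgroup G)} {ψ : G → ℂ}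
    (hψ : IrrOn (stb σ) ψ) (L : Subgroup C) : ClG (jY h hψ L) (cY h hψ L) (qY κ ρ σ ψ L) where
  inj := by
    intro a b hab
    apply Subtype.ext
    apply h.inj
    exact congrArg Subtype.val hab
  act := by
    intro y a
    apply Subtype.ext
    exact h.act (y : B) (a : G)
  ker := by
    intro y
    constructor
    · intro hy
      obtain ⟨g, hg⟩ := (h.ker (y : B)).mp (congrArg Subtype.val hy)
      have h1 : g ∈ stb σ := (mem_YY h hψ L).mp (by rw [hg]; exact y.2)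
      exact ⟨⟨g, h1⟩, Subtype.ext hg⟩
    · rintro ⟨a, rfl⟩
      exact Subtype.ext (rho_iota h (a : G))

/-! ### Extensions -/

theorem ext_res (h : ClG ι κ ρ) {σ : Finset (Subgroup G)} {ψ : G → ℂ}
    (hψ : IrrOn (stb σ) ψ) (L : Subgroup C) {f : B → ℂ} (hf : ExtL ι κ ρ σ ψ L f)
    (a : stb σ) : (fun y : YY κ ρ σ ψ L => f y) (jY h hψ L a) = ψ a := hf.2 (a : G)

theorem exists_ext [Fintype G] [Fintype B] (hE : Stmt_EXTC) (h : ClG ι κ ρ) (hc : IsCyclic C)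
    {σ : Finset (Subgroup G)} {ψ : G → ℂ} (hψ : IrrOn (stb σ) ψ) (L : Subgroup C) :
    ∃ f, ExtL ι κ ρ σ ψ L f := by
  classical
  have : Fintype (stb σ) := Fintype.ofFinite _
  have : Fintype (YY κ ρ σ ψ L) := Fintype.ofFinite _
  obtain ⟨E, hE1, hE2⟩ := hE (stb σ) (YY κ ρ σ ψ L) (KL κ ρ σ ψ L) (jY h hψ L) (cY h hψ L)
    (qY κ ρ σ ψ L) (clG_Y h hψ L) (qY_surj κ ρ σ ψ L) (Subgroup.isCyclic _)
    (fun a => ψ a) hψ.1 (fun y a => y.2.1.2 (a : G))
  refine ⟨ext0 E, IRRPI.irrOn_ext0 hE1, ?_⟩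
  intro g
  by_cases hg : g ∈ stb σ
  · rw [ext0_of_mem E ((mem_YY h hψ L).mpr hg)]
    exact hE2 ⟨g, hg⟩
  · rw [ext0_of_not_mem E (fun hc => hg ((mem_YY h hψ L).mp hc)), hψ.2 g hg]

theorem twist [Fintype G] [Fintype B] (hG : Stmt_GALL) (h : ClG ι κ ρ) [Finite C]
    {σ : Finset (Subgroup G)} {ψ : G → ℂ} (hψ : IrrOn (stb σ) ψ) (L : Subgroup C)
    {f : B → ℂ} (hf : ExtL ι κ ρ σ ψ L f) (lam : C →* ℂˣ) :
    ExtL ι κ ρ σ ψ L (fun x => f x * ((lam (ρ x) : ℂˣ) : ℂ)) := by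
  classical
  have : Fintype (stb σ) := Fintype.ofFinite _
  have : Fintype (YY κ ρ σ ψ L) := Fintype.ofFinite _
  have : Fintype (KL κ ρ σ ψ L) := Fintype.ofFinite _
  obtain ⟨h1, _, _⟩ := hG (stb σ) (YY κ ρ σ ψ L) (KL κ ρ σ ψ L) (jY h hψ L) (cY h hψ L)
    (qY κ ρ σ ψ L) (clG_Y h hψ L) (qY_surj κ ρ σ ψ L) (fun a => ψ a) (fun y => f y) hψ.1
    hf.1.1.isChr (ext_res h hψ L hf)
  refine ⟨⟨(h1 _ (isIrr_lin (lam.comp (KL κ ρ σ ψ L).subtype))).1, ?_⟩, ?_⟩
  · intro x hx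
    change f x * _ = 0
    rw [hf.1.2 x hx, zero_mul]
  · intro g
    change f (ι g) * ((lam (ρ (ι g)) : ℂˣ) : ℂ) = ψ g
    rw [hf.2, rho_iota h, map_one, Units.val_one, mul_one]

theorem torsor [Fintype G] [Fintype B] (hG : Stmt_GALL) (h : ClG ι κ ρ) [Finite C]
    (hc : IsCyclic C) {σ : Finset (Subgroup G)} {ψ : G → ℂ} (hψ : IrrOn (stb σ) ψ)
    (L : Subgroup C) {f f' : B → ℂ} (hf : ExtL ι κ ρ σ ψ L f) (hf' : ExtL ι κ ρ σ ψ L f') :
    ∃ lam : C →* ℂˣ, f' = fun x => f x * ((lam (ρ x) : ℂˣ) : ℂ) := by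
  classical
  have : Fintype (stb σ) := Fintype.ofFinite _
  have : Fintype (YY κ ρ σ ψ L) := Fintype.ofFinite _
  have : Fintype (KL κ ρ σ ψ L) := Fintype.ofFinite _
  obtain ⟨_, _, h3⟩ := hG (stb σ) (YY κ ρ σ ψ L) (KL κ ρ σ ψ L) (jY h hψ L) (cY h hψ L)
    (qY κ ρ σ ψ L) (clG_Y h hψ L) (qY_surj κ ρ σ ψ L) (fun a => ψ a) (fun y => f y) hψ.1
    hf.1.1.isChr (ext_res h hψ L hf)
  have h4 : resj (jY h hψ L) (fun y : YY κ ρ σ ψ L => f' y) = fun a : stb σ => ψ a :=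
    funext (ext_res h hψ L hf')
  obtain ⟨η, hη, hη'⟩ := h3 (fun y => f' y) hf'.1.1 (by
    rw [h4, ip_self hψ.1]
    exact _root_.one_ne_zero)
  have h5 : η 1 = 1 := by
    have h6 := congrFun hη' (1 : YY κ ρ σ ψ L)
    have h7 : f' ((1 : YY κ ρ σ ψ L) : B) = ψ 1 := by
      have := hf'.2 1
      rwa [map_one] at this
    have h8 : f ((1 : YY κ ρ σ ψ L) : B) = ψ 1 := by
      have := hf.2 1
      rwa [map_one] at this
    simp only [map_one] at h6
    rw [h7, h8] at h6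
    have h9 : ψ 1 ≠ 0 := hψ.1.one_ne_zero
    exact (mul_left_cancel₀ h9 (h6.symm.trans (mul_one _).symm))
  obtain ⟨l, hl⟩ := exists_lin hη h5
  obtain ⟨lam, hlam⟩ := ext_dual hc (KL κ ρ σ ψ L) l
  refine ⟨lam, ?_⟩
  funext x
  by_cases hx : x ∈ YY κ ρ σ ψ L
  · have h10 := congrFun hη' (⟨x, hx⟩ : YY κ ρ σ ψ L)
    have h11 := hlam (qY κ ρ σ ψ L ⟨x, hx⟩)
    rw [qY_coe] at h11
    change f' x = f x * ((lam (ρ x) : ℂˣ) : ℂ)
    have h12 : lam (ρ x) = l (qY κ ρ σ ψ L ⟨x, hx⟩) := h11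
    rw [h12, hl]
    exact h10
  · change f' x = f x * ((lam (ρ x) : ℂˣ) : ℂ)
    rw [hf'.1.2 x hx, hf.1.2 x hx, zero_mul]

theorem count [Fintype G] [Fintype B] (hG : Stmt_GALL) (h : ClG ι κ ρ) [Finite C]
    (hc : IsCyclic C) {σ : Finset (Subgroup G)} {ψ : G → ℂ} (hψ : IrrOn (stb σ) ψ)
    (L : Subgroup C) {f : B → ℂ} (hf : ExtL ι κ ρ σ ψ L f) :
    Nat.card {f : B → ℂ // ExtL ι κ ρ σ ψ L f} = Nat.card (KL κ ρ σ ψ L) := by
  classical
  have : Fintype (stb σ) := Fintype.ofFinite _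
  have : Fintype (YY κ ρ σ ψ L) := Fintype.ofFinite _
  have : Fintype (KL κ ρ σ ψ L) := Fintype.ofFinite _
  obtain ⟨_, h2, _⟩ := hG (stb σ) (YY κ ρ σ ψ L) (KL κ ρ σ ψ L) (jY h hψ L) (cY h hψ L)
    (qY κ ρ σ ψ L) (clG_Y h hψ L) (qY_surj κ ρ σ ψ L) (fun a => ψ a) (fun y => f y) hψ.1
    hf.1.1.isChr (ext_res h hψ L hf)
  rw [← card_dual hc]
  choose e he using ext_dual hc (KL κ ρ σ ψ L)
  refine (Nat.card_eq_of_bijective (fun l : KL κ ρ σ ψ L →* ℂˣ =>
    (⟨fun x => f x * ((e l (ρ x) : ℂˣ) : ℂ), twist hG h hψ L hf (e l)⟩ :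
      {f : B → ℂ // ExtL ι κ ρ σ ψ L f})) ?_).symm
  constructor
  · intro l l' hll
    have h3 := congrArg Subtype.val hll
    have h4 : (fun k => ((l k : ℂˣ) : ℂ)) = fun k => ((l' k : ℂˣ) : ℂ) := by
      apply h2 _ _ (isIrr_lin l) (isIrr_lin l')
      funext y
      have h5 := congrFun h3 (y : B)
      change f y * ((e l (ρ (y : B)) : ℂˣ) : ℂ) = f y * ((e l' (ρ (y : B)) : ℂˣ) : ℂ) at h5
      have h6 : e l (ρ (y : B)) = l (qY κ ρ σ ψ L y) := he l (qY κ ρ σ ψ L y)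
      have h7 : e l' (ρ (y : B)) = l' (qY κ ρ σ ψ L y) := he l' (qY κ ρ σ ψ L y)
      rw [h6, h7] at h5
      exact h5
    apply MonoidHom.ext
    intro k
    exact Units.ext (congrFun h4 k)
  · rintro ⟨f', hf'⟩
    obtain ⟨lam, rfl⟩ := torsor hG h hc hψ L hf hf'
    refine ⟨lam.comp (KL κ ρ σ ψ L).subtype, ?_⟩
    apply Subtype.ext
    funext x
    change f x * _ = f x * _
    by_cases hx : x ∈ YY κ ρ σ ψ L
    · have h6 := he (lam.comp (KL κ ρ σ ψ L).subtype) (qY κ ρ σ ψ L ⟨x, hx⟩)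
      have h7 : e (lam.comp (KL κ ρ σ ψ L).subtype) (ρ x) = lam (ρ x) := h6
      rw [h7]
    · rw [hf.1.2 x hx, zero_mul, zero_mul]

end Loc

end EXTAR

/-- EXTAR: the extensions of `ψ`. -/
theorem EXTAR_thm (h1 : Stmt_EXTC) : Stmt_EXTAR := by
  intro G B C _ _ _ _ _ ℓ _ ι κ ρ hL σ ψ hψ L
  have hG : Stmt_GALL := GALL_thm COSET_thm SUMM_thm
  have hfin : Finite C := Finite.of_surjective ρ hL.surj
  obtain ⟨f, hf⟩ := EXTAR.exists_ext h1 hL.cl hL.cyc hψ L
  exact ⟨EXTAR.comap_eq hL.cl hψ L, EXTAR.map_eq σ ψ L, ⟨f, hf⟩,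
    fun f lam hf => EXTAR.twist hG hL.cl hψ L hf lam,
    fun f f' hf hf' => EXTAR.torsor hG hL.cl hL.cyc hψ L hf hf',
    EXTAR.count hG hL.cl hL.cyc hψ L hf⟩

end Pool.Agent.DP


end

section

/-!
BETG: twists of the central functions; the class is determined by one member.
-/

namespace Pool.Agent.DP

open Pool.Agent.Lib_helper13 Representation
open Pool.Agent.Lib_helper13.Dade (pCore DadeHolds)

namespace BETG

section

variable {G B C : Type} [Group G] [Group B] [Group C]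

theorem lam_integral [Finite C] (lam : C →* ℂˣ) (c : C) :
    IsIntegral ℤ (((lam c : ℂˣ) : ℂ)) := by
  have h1 : (((lam c : ℂˣ) : ℂ)) ^ Nat.card C = 1 := by
    rw [← Units.val_pow_eq_pow_val, ← map_pow, pow_card_eq_one', map_one, Units.val_one]
  refine IsIntegral.of_pow (n := Nat.card C) Nat.card_pos ?_
  rw [h1]
  exact isIntegral_one

theorem rho_conj {ι : G →* B} {κ : B →* MulAut G} {ρ : B →* C} (h : ClG ι κ ρ) {t g x : B}
    (ht : t ∈ ι.range) (hx : x = t * g * t⁻¹) : ρ x = ρ g := by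
  have h1 : ρ t = 1 := (h.ker t).mpr ht
  rw [hx, map_mul, map_mul, map_inv, h1, inv_one, mul_one, one_mul]

theorem cjT_integral (T : Subgroup B) (x g : B) : IsIntegral ℤ (cjT T x g) := by
  unfold cjT
  split_ifs
  · exact isIntegral_one
  · exact isIntegral_zero

theorem cjT_conj {T : Subgroup B} {u : B} (hu : u ∈ T) (x g : B) :
    cjT T (u * x * u⁻¹) g = cjT T x g := by
  have h1 : (∃ t ∈ T, u * x * u⁻¹ = t * g * t⁻¹) ↔ ∃ t ∈ T, x = t * g * t⁻¹ := by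
    constructor
    · rintro ⟨t, ht, h⟩
      refine ⟨u⁻¹ * t, T.mul_mem (T.inv_mem hu) ht, ?_⟩
      have h2 : x = u⁻¹ * (u * x * u⁻¹) * u := by group
      rw [h2, h]
      group
    · rintro ⟨t, ht, h⟩
      refine ⟨u * t, T.mul_mem hu ht, ?_⟩
      rw [h]
      group
  unfold cjT
  by_cases h : ∃ t ∈ T, x = t * g * t⁻¹
  · rw [if_pos h, if_pos (h1.mpr h)]
  · rw [if_neg h, if_neg (fun h' => h (h1.mp h'))]

theorem twist [Fintype G] [Fintype B] [Finite C] (𝔐 : Ideal (integralClosure ℤ ℂ))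
    (hI : Stmt_INTH) {ι : G →* B} {κ : B →* MulAut G} {ρ : B →* C} (h : ClG ι κ ρ)
    (S : Subgroup B) (f : B → ℂ) (hf : IrrOn S f)
    (hf' : IrrOn (S.comap ι) (fun h => f (ι h))) (lam : C →* ℂˣ) (x : B) :
    cgT 𝔐 ι.range (fun y => f y * ((lam (ρ y) : ℂˣ) : ℂ)) x =
      red 𝔐 ((lam (ρ x) : ℂˣ) : ℂ) * cgT 𝔐 ι.range f x := by
  have h1 : ∑ y, cjT ι.range y x * (f y * ((lam (ρ y) : ℂˣ) : ℂ)) =
      ((lam (ρ x) : ℂˣ) : ℂ) * ∑ y, cjT ι.range y x * f y := by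
    rw [Finset.mul_sum]
    refine Finset.sum_congr rfl fun y _ => ?_
    by_cases hy : ∃ t ∈ ι.range, y = t * x * t⁻¹
    · obtain ⟨t, ht, hty⟩ := hy
      rw [rho_conj h ht hty]
      ring
    · have h2 : cjT ι.range y x = 0 := by
        unfold cjT
        rw [if_neg hy]
      rw [h2]
      ring
  have h2 : IsIntegral ℤ ((∑ y, cjT ι.range y x * f y) / f 1) :=
    hI G B C ι κ ρ h S f hf hf' (fun y => cjT ι.range y x) (fun y => cjT_integral _ y x)
      (fun g y => cjT_conj (MonoidHom.mem_range.mpr ⟨g, rfl⟩) y x)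
  show red 𝔐 ((∑ y, cjT ι.range y x * (f y * ((lam (ρ y) : ℂˣ) : ℂ))) /
    (f 1 * ((lam (ρ 1) : ℂˣ) : ℂ))) =
      red 𝔐 ((lam (ρ x) : ℂˣ) : ℂ) * red 𝔐 ((∑ y, cjT ι.range y x * f y) / f 1)
  rw [h1, map_one, map_one, Units.val_one, mul_one, mul_div_assoc,
    red_mul 𝔐 (lam_integral lam (ρ x)) h2]

theorem sub_bet [Fintype G] [Fintype B] [Finite C] (𝔐 : Ideal (integralClosure ℤ ℂ)) {ℓ : ℕ}
    [Fact ℓ.Prime] (hI : Stmt_INTH) (hE : Stmt_EXTAR) {ι : G →* B} {κ : B →* MulAut G}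
    {ρ : B →* C} (h : LocS ℓ ι κ ρ) (σ σ' : Finset (Subgroup G)) (ψ ψ' : G → ℂ)
    (hψ : IrrOn (stb σ) ψ) (hψ' : IrrOn (stb σ') ψ') (L : Subgroup C) (f f' : B → ℂ)
    (hf : ExtL ι κ ρ σ ψ L f) (hf' : ExtL ι κ ρ σ' ψ' L f')
    (he : cgT 𝔐 ι.range f = cgT 𝔐 ι.range f') :
    bet 𝔐 ι κ ρ σ ψ L ⊆ bet 𝔐 ι κ ρ σ' ψ' L := by
  rintro b ⟨f1, hf1, rfl⟩
  have e1 := hE G B C ℓ ι κ ρ h σ ψ hψ L
  have e2 := hE G B C ℓ ι κ ρ h σ' ψ' hψ' L
  obtain ⟨lam, rfl⟩ := e1.2.2.2.2.1 f f1 hf hf1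
  refine ⟨_, e2.2.2.2.1 f' lam hf', ?_⟩
  have r1 : IrrOn ((Stx κ σ ψ ⊓ L.comap ρ).comap ι) (fun g => f (ι g)) := by
    rw [e1.1, funext hf.2]
    exact hψ
  have r2 : IrrOn ((Stx κ σ' ψ' ⊓ L.comap ρ).comap ι) (fun g => f' (ι g)) := by
    rw [e2.1, funext hf'.2]
    exact hψ'
  funext x
  rw [twist 𝔐 hI h.cl _ f hf.1 r1 lam x, twist 𝔐 hI h.cl _ f' hf'.1 r2 lam x, he]

end

end BETG

/-- BETG: twists of the central functions; the class is determined by one member. -/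
theorem BETG_thm (h1 : Stmt_INTH) (h2 : Stmt_EXTAR) : Stmt_BETG := by
  intro G B C _ _ _ _ _ 𝔐 ℓ _ ι κ ρ h
  have : Finite C := Finite.of_surjective ρ h.surj
  refine ⟨fun S f hf hf' lam x => BETG.twist 𝔐 h1 h.cl S f hf hf' lam x, ?_⟩
  intro σ σ' ψ ψ' hψ hψ' L f f' hf hf' he
  exact Set.Subset.antisymm (BETG.sub_bet 𝔐 h1 h2 h σ σ' ψ ψ' hψ hψ' L f f' hf hf' he)
    (BETG.sub_bet 𝔐 h1 h2 h σ' σ ψ' ψ hψ' hψ L f' f hf' hf he.symm)

end Pool.Agent.DP


end
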