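import Mathlib
import Pool.Agent.DAM.C08
import Pool.Agent.DAM.C19

/-! Parts: DP.EXTC -/

section

/-!
# EXTC: extension of invariant characters to groups with cyclic quotient
-/

namespace Pool.Agent.DP

open Pool.Agent.Lib_helper13 Representation

namespace EXTC

variable {A Y K : Type} [Group A] [Group Y] [Group K] {n : ℕ}

/-- A representation whose restriction is irreducible is irreducible. -/
theorem irr_of_res (ρ : Representation ℂ Y (Fin n → ℂ)) (R : Representation ℂ A (Fin n → ℂ))
    (j : A →* Y) (h : ∀ a, ρ (j a) = R a) (hR : R.IsIrreducible) : ρ.IsIrreducible := by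
  let F : Subrepresentation ρ → Subrepresentation R := fun U =>
    ⟨U.toSubmodule, fun g v hv => by
      rw [← h]
      exact U.apply_mem_toSubmodule (j g) hv⟩
  refine { exists_pair_ne := ?_, eq_bot_or_eq_top := ?_ }
  · refine ⟨⊥, ⊤, fun hbt => ?_⟩
    obtain ⟨x, y, hxy⟩ := hR.exists_pair_ne
    apply hxy
    have h1 : ∀ v : Fin n → ℂ, v = 0 := by
      intro v
      have h2 : v ∈ (⊤ : Subrepresentation ρ) := by
        change v ∈ (⊤ : Submodule ℂ (Fin n → ℂ))
        trivial
      rw [← hbt] at h2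
      change v ∈ (⊥ : Submodule ℂ (Fin n → ℂ)) at h2
      simpa using h2
    ext v
    rw [h1 v]
    constructor
    · intro _
      exact y.toSubmodule.zero_mem
    · intro _
      exact x.toSubmodule.zero_mem
  · intro U
    rcases hR.eq_bot_or_eq_top (F U) with h1 | h1
    · left
      have h2 := congrArg Subrepresentation.toSubmodule h1
      change U.toSubmodule = ⊥ at h2
      ext v
      change v ∈ U.toSubmodule ↔ v ∈ (⊥ : Submodule ℂ (Fin n → ℂ))
      rw [h2]
    · right
      have h2 := congrArg Subrepresentation.toSubmodule h1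
      change U.toSubmodule = ⊤ at h2
      ext v
      change v ∈ U.toSubmodule ↔ v ∈ (⊤ : Submodule ℂ (Fin n → ℂ))
      rw [h2]

/-- Equal characters: there is an invertible intertwining operator. -/
theorem exists_P [Fintype A] (R R' : Representation ℂ A (Fin n → ℂ)) (hR : R.IsIrreducible)
    (h : R'.character = R.character) : ∃ P : Module.End ℂ (Fin n → ℂ),
      Function.Injective P ∧ ∀ a, P * R a = R' a * P := by
  have : R.IsIrreducible := hR
  have h1 := sum_char_eq_finrank R R'
  rw [h, sum_char_self R] at h1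
  have h2 : Module.finrank ℂ (IntertwiningMap R R') = 1 := by
    have := mul_left_cancel₀ natCard_ne_zero (h1.symm.trans (mul_one _).symm)
    exact_mod_cast this
  obtain ⟨f, hf, -⟩ := finrank_eq_one_iff'.mp h2
  refine ⟨f.toLinearMap, ?_, fun a => ?_⟩
  · rcases IsIrreducible.injective_or_eq_zero f with h3 | h3
    · exact h3
    · exact absurd h3 hf
  · exact f.isIntertwining' a

end EXTC

theorem EXTC_thm : Stmt_EXTC := by
  intro A Y K _ _ _ _ _ j c q hc hq hcyc θ hθ hinv
  obtain ⟨n, R, hR, rfl⟩ := hθ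
  have hRi : R.IsIrreducible := hR
  obtain ⟨g, hg⟩ := hcyc.exists_generator
  obtain ⟨y0, hy0⟩ := hq g
  have hfin : Finite K := Finite.of_surjective q hq
  set N := orderOf g with hN
  have hNpos : 0 < N := orderOf_pos g
  -- the operator
  obtain ⟨P, hPinj, hP⟩ := EXTC.exists_P R
    (R.comp (c y0).toMonoidHom : Representation ℂ A (Fin n → ℂ)) hR (by
      ext a
      exact hinv y0 a)
  have hP1 : ∀ a, P * R a = R (c y0 a) * P := hP
  have hPpow : ∀ (k : ℕ) (a : A), P ^ k * R a = R (c (y0 ^ k) a) * P ^ k := by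
    intro k
    induction k with
    | zero => intro a; simp
    | succ k ih =>
      intro a
      rw [pow_succ P, mul_assoc, hP1, ← mul_assoc, ih, mul_assoc, ← pow_succ, pow_succ y0, map_mul]
      rfl
  -- the power
  have hyN : y0 ^ N ∈ j.range := by
    rw [← hc.ker, map_pow, hy0, hN, pow_orderOf_eq_one]
  obtain ⟨a0, ha0⟩ := hyN
  have hca0 : ∀ a, c (y0 ^ N) a = a0 * a * a0⁻¹ := by
    intro a
    apply hc.inj
    rw [hc.act, ← ha0]
    simp
  have hRinv : ∀ a, R a⁻¹ * R a = 1 := by
    intro a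
    rw [← map_mul, inv_mul_cancel, map_one]
  have hRinv' : ∀ a, R a * R a⁻¹ = 1 := by
    intro a
    rw [← map_mul, mul_inv_cancel, map_one]
  have hcomm : ∀ a, (R a0⁻¹ * P ^ N) * R a = R a * (R a0⁻¹ * P ^ N) := by
    intro a
    rw [mul_assoc, hPpow, hca0, ← mul_assoc, ← map_mul]
    have : a0⁻¹ * (a0 * a * a0⁻¹) = a * a0⁻¹ := by group
    rw [this, map_mul, mul_assoc]
  obtain ⟨z, hz⟩ := COSET.scalar R (R a0⁻¹ * P ^ N) (fun a v => by
    have := congrArg (fun T : Module.End ℂ (Fin n → ℂ) => T v) (hcomm a)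
    exact this)
  have hPN : P ^ N = z • R a0 := by
    have h1 : R a0 * (R a0⁻¹ * P ^ N) = P ^ N := by
      rw [← mul_assoc, hRinv', one_mul]
    rw [← h1, hz]
    ext v i
    simp
  have hz0 : z ≠ 0 := by
    rintro rfl
    rw [zero_smul] at hPN
    have h1 : Function.Injective (P ^ N : Module.End ℂ (Fin n → ℂ)) := by
      have : ∀ k : ℕ, Function.Injective (P ^ k : Module.End ℂ (Fin n → ℂ)) := by
        intro k
        induction k with
        | zero => exact fun x y h => h
        | succ k ih =>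
          rw [pow_succ]
          exact ih.comp hPinj
      exact this N
    rw [hPN] at h1
    have h2 := (IsIrr.exists_degree (H := A) (χ := R.character) ⟨n, R, hR, rfl⟩)
    obtain ⟨d, hd, hd1⟩ := h2
    have h3 : (n : ℂ) = d := by rw [← hd1]; simp
    have h4 : n = d := by exact_mod_cast h3
    have h5 : (Pi.single (⟨0, by omega⟩ : Fin n) (1 : ℂ) : Fin n → ℂ) = 0 := h1 rfl
    have h6 := congrFun h5 ⟨0, by omega⟩
    simp at h6
  obtain ⟨w, hw⟩ := IsAlgClosed.exists_pow_nat_eq z hNpos
  have hw0 : w ≠ 0 := by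
    rintro rfl
    rw [zero_pow hNpos.ne'] at hw
    exact hz0 hw.symm
  set Q : Module.End ℂ (Fin n → ℂ) := w⁻¹ • P with hQ
  have hQ1 : ∀ (k : ℕ) (a : A), Q ^ k * R a = R (c (y0 ^ k) a) * Q ^ k := by
    intro k a
    rw [hQ, smul_pow, smul_mul_assoc, hPpow, mul_smul_comm]
  have hQN : Q ^ N = R a0 := by
    rw [hQ, smul_pow, hPN, smul_smul, inv_pow, hw, inv_mul_cancel₀ hz0, one_smul]
  have hQNt : ∀ t : ℕ, Q ^ (N * t) = R (a0 ^ t) := by
    intro t
    rw [pow_mul, hQN, map_pow]
  -- normal forms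
  have hex : ∀ y : Y, ∃ (a : A) (i : ℕ), y = j a * y0 ^ i := by
    intro y
    obtain ⟨i, hi⟩ : ∃ i : ℕ, g ^ i = q y := by
      have := hg (q y)
      rw [← mem_powers_iff_mem_zpowers] at this
      exact this
    have h1 : y * (y0 ^ i)⁻¹ ∈ j.range := by
      rw [← hc.ker, map_mul, map_inv, map_pow, hy0, hi, mul_inv_cancel]
    obtain ⟨a, ha⟩ := h1
    exact ⟨a, i, by rw [ha]; group⟩
  have hwd1 : ∀ (a a' : A) (i i' : ℕ), i ≤ i' → j a * y0 ^ i = j a' * y0 ^ i' →
      R a * Q ^ i = R a' * Q ^ i' := by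
    intro a a' i i' hii h
    obtain ⟨d, rfl⟩ := Nat.exists_eq_add_of_le hii
    have h1 : y0 ^ d = j (a'⁻¹ * a) := by
      rw [map_mul, map_inv]
      rw [add_comm, pow_add] at h
      have h2 : j a = j a' * y0 ^ d := by
        have := congrArg (fun x => x * (y0 ^ i)⁻¹) h
        simpa [mul_assoc] using this
      rw [h2]
      group
    have h2 : g ^ d = 1 := by
      have h3 : q (y0 ^ d) = 1 := by
        rw [hc.ker, h1]
        exact ⟨_, rfl⟩
      rwa [map_pow, hy0] at h3
    obtain ⟨t, rfl⟩ := orderOf_dvd_of_pow_eq_one h2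
    have h3 : a'⁻¹ * a = a0 ^ t := by
      apply hc.inj
      rw [← h1, map_pow, ha0, ← pow_mul]
    have h4 : a = a' * a0 ^ t := by
      rw [← h3]
      group
    rw [h4, map_mul, ← hQNt, add_comm, pow_add, mul_assoc]
  have hwd : ∀ (a a' : A) (i i' : ℕ), j a * y0 ^ i = j a' * y0 ^ i' →
      R a * Q ^ i = R a' * Q ^ i' := by
    intro a a' i i' h
    rcases le_total i i' with h1 | h1
    · exact hwd1 a a' i i' h1 h
    · exact (hwd1 a' a i' i h1 h.symm).symm
  choose α ι hαι using hex
  let ρ : Representation ℂ Y (Fin n → ℂ) :=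
    { toFun := fun y => R (α y) * Q ^ ι y
      map_one' := by
        have h := hwd (α 1) 1 (ι 1) 0 (by rw [← hαι]; simp)
        rw [h]
        simp
      map_mul' := by
        intro x y
        have h1 : R (α x) * Q ^ ι x * (R (α y) * Q ^ ι y) =
            R (α x * c (y0 ^ ι x) (α y)) * Q ^ (ι x + ι y) := by
          rw [map_mul, pow_add]
          have := hQ1 (ι x) (α y)
          calc R (α x) * Q ^ ι x * (R (α y) * Q ^ ι y)
              = R (α x) * (Q ^ ι x * R (α y)) * Q ^ ι y := by simp only [mul_assoc]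
            _ = _ := by rw [this]; simp only [mul_assoc]
        rw [h1]
        apply hwd
        rw [← hαι, map_mul, hc.act, pow_add]
        conv_lhs => rw [hαι x, hαι y]
        group }
  have hρ : ∀ a, ρ (j a) = R a := by
    intro a
    have h := hwd (α (j a)) a (ι (j a)) 0 (by rw [← hαι]; simp)
    show R (α (j a)) * Q ^ ι (j a) = R a
    rw [h]
    simp
  refine ⟨ρ.character, ⟨n, ρ, EXTC.irr_of_res ρ R j hρ hR, rfl⟩, fun a => ?_⟩
  show LinearMap.trace ℂ _ (ρ (j a)) = LinearMap.trace ℂ _ (R a)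
  rw [hρ]

end Pool.Agent.DP


end
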