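import Mathlib
import Pool.Agent.DAM.C02
import Pool.Agent.DAM.C05
import Pool.Agent.DAM.C08
import Pool.Agent.DAM.C14
import Pool.Agent.DAM.C19
import Pool.Agent.DAM.C21

/-! Parts: DP.MOBA, DPV.PRJA, DPX.DefsXB, DPX.StmtsXB, DPX.StmtsXC, DPX.StmtsXD, DPX.VALX, DPV.ABL, DPX.FXGX, DPX.FEXX, DPX.FRXX -/

section

/-!
# MOBA: Möbius coefficients of the subgroups of a cyclic group
-/

namespace Pool.Agent.DP

namespace MOBA

open Classical in
/-- Möbius coefficients in a finite partially ordered set. -/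
theorem exists_coeff {α : Type*} [PartialOrder α] [Fintype α] (L : α) :
    ∃ a : α → ℚ, ∀ M, ∑ x, (if M ≤ x ∧ x ≤ L then a x else 0) = if M = L then 1 else 0 := by
  letI : LocallyFiniteOrder α := Fintype.toLocallyFiniteOrder
  refine ⟨fun x => IncidenceAlgebra.mu ℚ x L, fun M => ?_⟩
  have h := IncidenceAlgebra.sum_Icc_mu_left (𝕜 := ℚ) M L
  have h2 : ∑ x, (if M ≤ x ∧ x ≤ L then IncidenceAlgebra.mu ℚ x L else 0) =
      ∑ x ∈ Finset.Icc M L, IncidenceAlgebra.mu ℚ x L := by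
    rw [← Finset.sum_filter]
    refine Finset.sum_congr ?_ fun _ _ => rfl
    ext x
    simp
  rw [h2, h]

open Classical in
/-- The first property. -/
theorem first {α : Type*} [Lattice α] [Fintype α] (L : α) (a : α → ℚ)
    (ha : ∀ M, ∑ x, (if M ≤ x ∧ x ≤ L then a x else 0) = if M = L then 1 else 0)
    (K : α) (hK : K < L) (h : α → ℚ) :
    ∑ x, (if x ≤ L then a x * h (x ⊓ K) else 0) = 0 := by
  -- the sum over the elements with given infimum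
  let S : α → ℚ := fun M => ∑ x, (if x ≤ L ∧ x ⊓ K = M then a x else 0)
  have hS : ∀ M : α, M ≤ K → S M = 0 := by
    intro M
    induction M using WellFoundedGT.induction with
    | ind M ih =>
      intro hM
      have h1 : ∑ M', (if M ≤ M' ∧ M' ≤ K then S M' else 0) = 0 := by
        have h2 : ∑ M', (if M ≤ M' ∧ M' ≤ K then S M' else 0) =
            ∑ x, (if M ≤ x ∧ x ≤ L then a x else 0) := by
          have h3 : ∀ M', (if M ≤ M' ∧ M' ≤ K then S M' else 0) =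
              ∑ x, (if (M ≤ M' ∧ M' ≤ K) ∧ (x ≤ L ∧ x ⊓ K = M') then a x else 0) := by
            intro M'
            split_ifs with h4
            · exact Finset.sum_congr rfl fun x _ => by simp [h4]
            · exact (Finset.sum_eq_zero fun x _ => by simp [h4]).symm
          rw [Finset.sum_congr rfl fun M' _ => h3 M', Finset.sum_comm]
          refine Finset.sum_congr rfl fun x _ => ?_
          rw [Finset.sum_eq_single (x ⊓ K)]
          · have e : ((M ≤ x ⊓ K ∧ x ⊓ K ≤ K) ∧ (x ≤ L ∧ x ⊓ K = x ⊓ K)) ↔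
                (M ≤ x ∧ x ≤ L) := by
              constructor
              · rintro ⟨⟨h5, _⟩, h6, _⟩
                exact ⟨h5.trans inf_le_left, h6⟩
              · rintro ⟨h5, h6⟩
                exact ⟨⟨le_inf h5 hM, inf_le_right⟩, h6, rfl⟩
            exact if_congr e rfl rfl
          · intro M' _ hne
            rw [if_neg]
            rintro ⟨_, _, h5⟩
            exact hne h5.symm
          · intro hn
            exact absurd (Finset.mem_univ _) hn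
        rw [h2, ha M, if_neg]
        intro hML
        exact absurd (hML ▸ hM) (not_le_of_gt hK)
      rw [Finset.sum_eq_single M] at h1
      · rw [if_pos ⟨le_rfl, hM⟩] at h1
        exact h1
      · intro M' _ hne
        split_ifs with h4
        · exact ih M' (lt_of_le_of_ne h4.1 (Ne.symm hne)) h4.2
        · rfl
      · intro hn
        exact absurd (Finset.mem_univ _) hn
  have h1 : ∀ x, (if x ≤ L then a x * h (x ⊓ K) else 0) =
      ∑ M, (if x ≤ L ∧ x ⊓ K = M then a x else 0) * h M := by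
    intro x
    rw [Finset.sum_eq_single (x ⊓ K)]
    · by_cases hx : x ≤ L <;> simp [hx]
    · intro M _ hne
      rw [if_neg, zero_mul]
      rintro ⟨_, h5⟩
      exact hne h5.symm
    · intro hn
      exact absurd (Finset.mem_univ _) hn
  rw [Finset.sum_congr rfl fun x _ => h1 x, Finset.sum_comm]
  refine Finset.sum_eq_zero fun M _ => ?_
  rw [← Finset.sum_mul]
  by_cases hM : M ≤ K
  · have := hS M hM
    change (S M) * h M = 0
    rw [this, zero_mul]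
  · rw [Finset.sum_eq_zero, zero_mul]
    intro x _
    rw [if_neg]
    rintro ⟨_, h5⟩
    exact hM (h5 ▸ inf_le_right)

open Classical in
/-- The second property. -/
theorem second {C : Type*} [Group C] [Finite C] [Fintype (Subgroup C)] (hC : IsCyclic C)
    (L : Subgroup C) (a : Subgroup C → ℚ)
    (ha : ∀ M, ∑ x, (if M ≤ x ∧ x ≤ L then a x else 0) = if M = L then 1 else 0)
    (K0 : Subgroup C) (hK : K0 ≤ L) :
    ∑ L', (if K0 ≤ L' ∧ L' ≤ L then a L' * (Nat.card L' : ℚ) ^ 2 else 0) ≠ 0 := by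
  letI : Fintype C := Fintype.ofFinite C
  have hcard : ∀ L' : Subgroup C, (Nat.card L' : ℚ) ^ 2 =
      ∑ z : C × C, (if z.1 ∈ L' ∧ z.2 ∈ L' then (1 : ℚ) else 0) := by
    intro L'
    have h1 : (Nat.card L' : ℚ) = ∑ x : C, (if x ∈ L' then (1 : ℚ) else 0) := by
      rw [Finset.sum_boole, Nat.card_eq_fintype_card, Fintype.card_subtype]
    rw [sq, h1, Finset.sum_mul_sum, Fintype.sum_prod_type]
    refine Finset.sum_congr rfl fun x _ => Finset.sum_congr rfl fun y _ => ?_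
    by_cases hx : x ∈ L' <;> by_cases hy : y ∈ L' <;> simp [hx, hy]
  have h2 : ∑ L', (if K0 ≤ L' ∧ L' ≤ L then a L' * (Nat.card L' : ℚ) ^ 2 else 0) =
      ∑ z : C × C, (if K0 ⊔ Subgroup.closure {z.1, z.2} = L then (1 : ℚ) else 0) := by
    have h3 : ∀ L', (if K0 ≤ L' ∧ L' ≤ L then a L' * (Nat.card L' : ℚ) ^ 2 else 0) =
        ∑ z : C × C, (if (K0 ⊔ Subgroup.closure {z.1, z.2}) ≤ L' ∧ L' ≤ L then a L' else 0) := by
      intro L'
      rw [hcard L']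
      split_ifs with h4
      · rw [Finset.mul_sum]
        refine Finset.sum_congr rfl fun z _ => ?_
        have e : ((K0 ⊔ Subgroup.closure {z.1, z.2}) ≤ L' ∧ L' ≤ L) ↔
            (z.1 ∈ L' ∧ z.2 ∈ L') := by
          rw [sup_le_iff, Subgroup.closure_le]
          constructor
          · rintro ⟨⟨_, h5⟩, _⟩
            exact ⟨h5 (by simp), h5 (by simp)⟩
          · rintro ⟨h5, h6⟩
            refine ⟨⟨h4.1, ?_⟩, h4.2⟩
            intro w hw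
            rcases hw with rfl | rfl
            · exact h5
            · exact h6
        simp only [e]
        split_ifs <;> simp
      · symm
        refine Finset.sum_eq_zero fun z _ => ?_
        rw [if_neg]
        rintro ⟨h5, h6⟩
        exact h4 ⟨le_sup_left.trans h5, h6⟩
    rw [Finset.sum_congr rfl fun L' _ => h3 L', Finset.sum_comm]
    refine Finset.sum_congr rfl fun z _ => ?_
    exact ha _
  rw [h2]
  obtain ⟨g, hg⟩ : ∃ g : C, Subgroup.zpowers g = L := by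
    have := hC
    have : IsCyclic L := Subgroup.isCyclic L
    obtain ⟨g, hg⟩ := IsCyclic.exists_generator (α := L)
    refine ⟨g, ?_⟩
    apply le_antisymm
    · rw [Subgroup.zpowers_le]
      exact g.2
    · intro x hx
      obtain ⟨k, hk⟩ := Subgroup.mem_zpowers_iff.mp (hg ⟨x, hx⟩)
      rw [Subgroup.mem_zpowers_iff]
      exact ⟨k, by have := congrArg Subtype.val hk; simpa using this⟩
  have h5 : K0 ⊔ Subgroup.closure {((g, g) : C × C).1, ((g, g) : C × C).2} = L := by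
    have : ({((g, g) : C × C).1, ((g, g) : C × C).2} : Set C) = {g} := by simp
    rw [this, ← Subgroup.zpowers_eq_closure, hg]
    exact sup_eq_right.mpr hK
  have h6 : (0 : ℚ) < ∑ z : C × C,
      (if K0 ⊔ Subgroup.closure {z.1, z.2} = L then (1 : ℚ) else 0) := by
    refine Finset.sum_pos' (fun z _ => by split_ifs <;> norm_num)
      ⟨(g, g), Finset.mem_univ _, ?_⟩
    rw [if_pos h5]
    norm_num
  exact h6.ne'

end MOBA

/-- **Module MOBA.** -/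
theorem MOBA_thm : Stmt_MOBA := by
  intro C _ _ _ hC L
  obtain ⟨a, ha⟩ := MOBA.exists_coeff L
  exact ⟨a, fun K hK h => MOBA.first L a ha K hK h,
    fun K0 hK0 => MOBA.second hC L a ha K0 hK0⟩

end Pool.Agent.DP


end

section

/-!
# PRJA: a projective representation which extends a representation of a normal subgroup
-/

namespace Pool.Agent.DPV

open Pool.Agent.DP Pool.Agent.Lib_helper13 Representation
open Pool.Agent.Lib_helper13.Dade (pCore DadeHolds dadeSum)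

namespace PRJA

variable {D S K : Type} [Group D] [Group S] [Group K] {n : ℕ}

/-- An irreducible representation acts on a nonzero space. -/
theorem one_ne_zero' (R : Representation ℂ D (Fin n → ℂ)) (hR : R.IsIrreducible) :
    (1 : Module.End ℂ (Fin n → ℂ)) ≠ 0 := by
  intro h
  obtain ⟨x, y, hxy⟩ := hR.exists_pair_ne
  apply hxy
  have h1 : ∀ v : Fin n → ℂ, v = 0 := by
    intro v
    have := congrArg (fun T : Module.End ℂ (Fin n → ℂ) => T v) h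
    simpa using this
  ext v
  rw [h1 v]
  constructor
  · intro _
    exact y.toSubmodule.zero_mem
  · intro _
    exact x.toSubmodule.zero_mem

/-- An injective endomorphism is invertible. -/
theorem isUnit_of_inj (P : Module.End ℂ (Fin n → ℂ)) (hP : Function.Injective P) : IsUnit P := by
  rw [LinearMap.isUnit_iff_ker_eq_bot]
  exact LinearMap.ker_eq_bot.2 hP

/-- The factor set. -/
theorem exists_alpha (R : Representation ℂ D (Fin n → ℂ)) (hR : R.IsIrreducible)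
    (c : S →* MulAut D) (T : S → Module.End ℂ (Fin n → ℂ))
    (h3 : ∀ y a, T y * R a = R (c y a) * T y) (h4 : ∀ y, IsUnit (T y)) (y y' : S) :
    ∃ ζ : ℂ, ζ ≠ 0 ∧ T y * T y' = ζ • T (y * y') := by
  obtain ⟨u, hu⟩ := h4 (y * y')
  have hu1 : (↑u⁻¹ : Module.End ℂ (Fin n → ℂ)) * T (y * y') = 1 := by
    rw [← hu, Units.inv_mul]
  have hu2 : T (y * y') * (↑u⁻¹ : Module.End ℂ (Fin n → ℂ)) = 1 := by
    rw [← hu, Units.mul_inv]
  have hcomm : ∀ a, ((↑u⁻¹ : Module.End ℂ (Fin n → ℂ)) * (T y * T y')) * R a =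
      R a * ((↑u⁻¹ : Module.End ℂ (Fin n → ℂ)) * (T y * T y')) := by
    intro a
    have e1 : (T y * T y') * R a = R (c (y * y') a) * (T y * T y') := by
      rw [mul_assoc, h3, ← mul_assoc, h3, mul_assoc, map_mul]
      rfl
    have e2 : (↑u⁻¹ : Module.End ℂ (Fin n → ℂ)) * R (c (y * y') a) =
        R a * (↑u⁻¹ : Module.End ℂ (Fin n → ℂ)) := by
      calc (↑u⁻¹ : Module.End ℂ (Fin n → ℂ)) * R (c (y * y') a)
          = (↑u⁻¹ : Module.End ℂ (Fin n → ℂ)) * R (c (y * y') a) *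
              (T (y * y') * (↑u⁻¹ : Module.End ℂ (Fin n → ℂ))) := by rw [hu2, mul_one]
        _ = (↑u⁻¹ : Module.End ℂ (Fin n → ℂ)) * (R (c (y * y') a) * T (y * y')) *
              (↑u⁻¹ : Module.End ℂ (Fin n → ℂ)) := by simp only [mul_assoc]
        _ = (↑u⁻¹ : Module.End ℂ (Fin n → ℂ)) * (T (y * y') * R a) *
              (↑u⁻¹ : Module.End ℂ (Fin n → ℂ)) := by rw [h3]
        _ = ((↑u⁻¹ : Module.End ℂ (Fin n → ℂ)) * T (y * y')) * R a *
              (↑u⁻¹ : Module.End ℂ (Fin n → ℂ)) := by simp only [mul_assoc]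
        _ = R a * (↑u⁻¹ : Module.End ℂ (Fin n → ℂ)) := by rw [hu1, one_mul]
    rw [mul_assoc, e1, ← mul_assoc, e2, mul_assoc]
  have : R.IsIrreducible := hR
  obtain ⟨z, hz⟩ := COSET.scalar R ((↑u⁻¹ : Module.End ℂ (Fin n → ℂ)) * (T y * T y'))
    (fun a v => by
      have := congrArg (fun T : Module.End ℂ (Fin n → ℂ) => T v) (hcomm a)
      exact this)
  have hz' : T y * T y' = z • T (y * y') := by
    calc T y * T y' = (T (y * y') * (↑u⁻¹ : Module.End ℂ (Fin n → ℂ))) * (T y * T y') := by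
          rw [hu2, one_mul]
      _ = T (y * y') * ((↑u⁻¹ : Module.End ℂ (Fin n → ℂ)) * (T y * T y')) := by
          rw [mul_assoc]
      _ = T (y * y') * (z • (1 : Module.End ℂ (Fin n → ℂ))) := by
          rw [hz]
          rfl
      _ = z • T (y * y') := by rw [mul_smul_comm, mul_one]
  refine ⟨z, ?_, hz'⟩
  rintro rfl
  rw [zero_smul] at hz'
  have h5 : IsUnit (T y * T y') := (h4 y).mul (h4 y')
  rw [hz'] at h5
  obtain ⟨w, hw⟩ := h5
  apply one_ne_zero' R hR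
  calc (1 : Module.End ℂ (Fin n → ℂ)) = (w : Module.End ℂ (Fin n → ℂ)) * ↑w⁻¹ := by
        rw [Units.mul_inv]
    _ = 0 := by rw [hw, zero_mul]

/-- A scalar factor is determined. -/
theorem smul_inj (R : Representation ℂ D (Fin n → ℂ)) (hR : R.IsIrreducible)
    (P : Module.End ℂ (Fin n → ℂ)) (hP : IsUnit P) (x y : ℂ) (h : x • P = y • P) : x = y := by
  by_contra hxy
  have h2 : P = 0 := by
    apply LinearMap.ext
    intro v
    funext i
    have h3 : x * P v i = y * P v i :=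
      congrArg (fun T : Module.End ℂ (Fin n → ℂ) => T v i) h
    rcases mul_eq_zero.1 (show (x - y) * P v i = 0 by rw [sub_mul, h3, sub_self]) with h4 | h4
    · exact absurd (sub_eq_zero.1 h4) hxy
    · exact h4
  obtain ⟨w, hw⟩ := hP
  apply one_ne_zero' R hR
  calc (1 : Module.End ℂ (Fin n → ℂ)) = (w : Module.End ℂ (Fin n → ℂ)) * ↑w⁻¹ := by
        rw [Units.mul_inv]
    _ = 0 := by rw [hw, h2, zero_mul]

/-- The operators before normalization. -/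
theorem exists_T (j : D →* S) (c : S →* MulAut D) (p : S →* K) (hc : ClG j c p) [Fintype D]
    (R : Representation ℂ D (Fin n → ℂ)) (hR : R.IsIrreducible)
    (hinv : ∀ y a, R.character (c y a) = R.character a) :
    ∃ T : S → Module.End ℂ (Fin n → ℂ), (∀ a, T (j a) = R a) ∧
      (∀ a y, T (j a * y) = R a * T y) ∧ (∀ y a, T y * R a = R (c y a) * T y) ∧
      (∀ y, IsUnit (T y)) := by
  classical
  have hP : ∀ y : S, ∃ P : Module.End ℂ (Fin n → ℂ),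
      Function.Injective P ∧ ∀ a, P * R a = R (c y a) * P := by
    intro y
    obtain ⟨P, hP1, hP2⟩ := EXTC.exists_P R
      (R.comp (c y).toMonoidHom : Representation ℂ D (Fin n → ℂ)) hR (by
        ext a
        exact hinv y a)
    exact ⟨P, hP1, hP2⟩
  choose P hPinj hPc using hP
  -- sections
  have hs : ∀ k : K, ∃ s : S, (k ∈ p.range → p s = k) ∧ (k = 1 → s = 1) := by
    intro k
    by_cases hk : k = 1
    · exact ⟨1, fun _ => by rw [hk, map_one], fun _ => rfl⟩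
    · by_cases hk2 : k ∈ p.range
      · obtain ⟨s, hs⟩ := hk2
        exact ⟨s, fun _ => hs, fun h => absurd h hk⟩
      · exact ⟨1, fun h => absurd h hk2, fun _ => rfl⟩
  choose s hs1 hs2 using hs
  have hps : ∀ y, p (s (p y)) = p y := fun y => hs1 _ ⟨y, rfl⟩
  have hs0 : s 1 = 1 := hs2 1 rfl
  have hd : ∀ y : S, ∃ d : D, y = j d * s (p y) := by
    intro y
    have h1 : y * (s (p y))⁻¹ ∈ j.range := by
      rw [← hc.ker, map_mul, map_inv, hps, mul_inv_cancel]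
    obtain ⟨d, hd⟩ := h1
    exact ⟨d, by rw [hd, inv_mul_cancel_right]⟩
  choose d hd using hd
  have hpj : ∀ a, p (j a) = 1 := fun a => (hc.ker _).2 ⟨a, rfl⟩
  have hdm : ∀ a y, d (j a * y) = a * d y := by
    intro a y
    have h1 : p (j a * y) = p y := by rw [map_mul, hpj, one_mul]
    have h2 := hd (j a * y)
    rw [h1] at h2
    apply hc.inj
    have h3 : j (d (j a * y)) = (j a * y) * (s (p y))⁻¹ := by
      rw [eq_mul_inv_iff_mul_eq]
      exact h2.symm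
    rw [h3, map_mul, mul_assoc]
    congr 1
    rw [mul_inv_eq_iff_eq_mul]
    exact hd y
  have hdj : ∀ a, d (j a) = a := by
    intro a
    have h2 := hd (j a)
    rw [hpj, hs0, mul_one] at h2
    exact (hc.inj h2).symm
  let U : K → Module.End ℂ (Fin n → ℂ) := fun k => if k = 1 then 1 else P (s k)
  have hU1 : U 1 = 1 := if_pos rfl
  have hUc : ∀ k a, U k * R a = R (c (s k) a) * U k := by
    intro k a
    by_cases hk : k = 1
    · subst hk
      rw [hU1, hs0, map_one, one_mul, mul_one]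
      rfl
    · have : U k = P (s k) := if_neg hk
      rw [this]
      exact hPc _ _
  have hUu : ∀ k, IsUnit (U k) := by
    intro k
    by_cases hk : k = 1
    · subst hk
      rw [hU1]
      exact isUnit_one
    · have : U k = P (s k) := if_neg hk
      rw [this]
      exact isUnit_of_inj _ (hPinj _)
  have hRu : ∀ a, IsUnit (R a) := by
    intro a
    refine ⟨⟨R a, R a⁻¹, ?_, ?_⟩, rfl⟩
    · rw [← map_mul, mul_inv_cancel, map_one]
    · rw [← map_mul, inv_mul_cancel, map_one]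
  refine ⟨fun y => R (d y) * U (p y), ?_, ?_, ?_, ?_⟩
  · intro a
    show R (d (j a)) * U (p (j a)) = R a
    rw [hdj, hpj, hU1, mul_one]
  · intro a y
    show R (d (j a * y)) * U (p (j a * y)) = R a * (R (d y) * U (p y))
    rw [hdm, map_mul p, hpj, one_mul, map_mul, mul_assoc]
  · intro y a
    show R (d y) * U (p y) * R a = R (c y a) * (R (d y) * U (p y))
    have h1 : c y a = d y * c (s (p y)) a * (d y)⁻¹ := by
      apply hc.inj
      rw [hc.act, map_mul, map_mul, hc.act, map_inv]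
      conv_lhs => rw [hd y]
      group
    have h2 : c y a * d y = d y * c (s (p y)) a := by
      rw [h1, inv_mul_cancel_right]
    rw [mul_assoc, hUc, ← mul_assoc, ← map_mul, ← mul_assoc, ← map_mul, h2]
  · intro y
    exact (hRu _).mul (hUu _)

end PRJA

theorem PRJA_thm : Stmt_PRJA := by
  intro D S K _ _ _ _ _ j c p hc n R hR hinv
  classical
  obtain ⟨T, hT1, hT2, hT3, hT4⟩ := PRJA.exists_T j c p hc R hR hinv
  have hα := PRJA.exists_alpha R hR c T hT3 hT4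
  choose α hα0 hα using hα
  have hinj := PRJA.smul_inj R hR
  have hpj : ∀ a, p (j a) = 1 := fun a => (hc.ker _).2 ⟨a, rfl⟩
  have hT11 : T 1 = 1 := by
    have := hT1 1
    rwa [map_one, map_one] at this
  have hαl : ∀ a y y', α (j a * y) y' = α y y' := by
    intro a y y'
    apply hinj _ (hT4 (j a * y * y'))
    rw [← hα, hT2, mul_assoc, hα, mul_smul_comm, ← hT2, ← mul_assoc]
  have hαr : ∀ a y y', α y (j a * y') = α y y' := by
    intro a y y'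
    apply hinj _ (hT4 (y * (j a * y')))
    rw [← hα, hT2, ← mul_assoc, hT3, mul_assoc, hα, mul_smul_comm, ← hT2, hc.act]
    congr 2
    group
  have hfib : ∀ y y' : S, p y = p y' → ∃ a, y = j a * y' := by
    intro y y' h
    have h1 : y * y'⁻¹ ∈ j.range := by
      rw [← hc.ker, map_mul, map_inv, h, mul_inv_cancel]
    obtain ⟨a, ha⟩ := h1
    exact ⟨a, by rw [ha, inv_mul_cancel_right]⟩
  have hαp : ∀ x x' y y', p x = p x' → p y = p y' → α x y = α x' y' := by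
    intro x x' y y' hx hy
    obtain ⟨a, rfl⟩ := hfib x x' hx
    obtain ⟨b, rfl⟩ := hfib y y' hy
    rw [hαl, hαr]
  have hα1 : ∀ y, α 1 y = 1 := by
    intro y
    apply hinj _ (hT4 (1 * y))
    rw [← hα, hT11, one_smul, one_mul, one_mul]
  have hco : ∀ x y z, α x y * α (x * y) z = α x (y * z) * α y z := by
    intro x y z
    apply hinj _ (hT4 (x * y * z))
    have e1 : T x * T y * T z = (α x y * α (x * y) z) • T (x * y * z) := by
      rw [hα, smul_mul_assoc, hα, smul_smul]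
    have e2 : T x * (T y * T z) = (α x (y * z) * α y z) • T (x * (y * z)) := by
      rw [hα, mul_smul_comm, hα, smul_smul, mul_comm (α y z)]
    rw [← e1, mul_assoc, e2, mul_assoc]
  -- the norm
  have : Finite p.range := Finite.of_surjective p.rangeRestrict p.rangeRestrict_surjective
  have : Fintype p.range := Fintype.ofFinite _
  have hsec : ∀ k : p.range, ∃ s : S, p s = k := fun k => k.2
  choose s hs using hsec
  let ν : S → ℂ := fun y => ∏ k : p.range, α y (s k)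
  have hν0 : ∀ y, ν y ≠ 0 := fun y => Finset.prod_ne_zero_iff.2 fun k _ => hα0 _ _
  have hν1 : ν 1 = 1 := Finset.prod_eq_one fun k _ => hα1 _
  have hνp : ∀ y y', p y = p y' → ν y = ν y' := by
    intro y y' h
    exact Finset.prod_congr rfl fun k _ => hαp _ _ _ _ h rfl
  have hνm : ∀ x y, α x y ^ Nat.card p.range * ν (x * y) = ν x * ν y := by
    intro x y
    have e1 : α x y ^ Nat.card p.range * ν (x * y) =
        ∏ k : p.range, (α x y * α (x * y) (s k)) := by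
      rw [Finset.prod_mul_distrib, Finset.prod_const, Finset.card_univ, Nat.card_eq_fintype_card]
    have e2 : ∏ k : p.range, (α x y * α (x * y) (s k)) =
        ∏ k : p.range, (α x (y * s k) * α y (s k)) :=
      Finset.prod_congr rfl fun k _ => hco _ _ _
    rw [e1, e2, Finset.prod_mul_distrib]
    congr 1
    show ∏ k : p.range, α x (y * s k) = ∏ k : p.range, α x (s k)
    refine Fintype.prod_equiv (Equiv.mulLeft (⟨p y, ⟨y, rfl⟩⟩ : p.range)) _ _ fun k => ?_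
    apply hαp _ _ _ _ rfl
    rw [hs, map_mul, hs]
    rfl
  -- the roots
  have hcard : 0 < Nat.card p.range := Nat.card_pos
  let N : K → ℂ := fun k => if h : k ∈ p.range then ν (s ⟨k, h⟩) else 1
  have hN : ∀ y, N (p y) = ν y := by
    intro y
    have h : p y ∈ p.range := ⟨y, rfl⟩
    have : N (p y) = ν (s ⟨p y, h⟩) := dif_pos h
    rw [this]
    apply hνp
    rw [hs]
  have hr : ∀ k : K, ∃ r : ℂ, r ^ Nat.card p.range = N k ∧ (k = 1 → r = 1) := by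
    intro k
    by_cases hk : k = 1
    · refine ⟨1, ?_, fun _ => rfl⟩
      rw [one_pow, hk, ← map_one p, hN, hν1]
    · obtain ⟨r, hr⟩ := IsAlgClosed.exists_pow_nat_eq (N k) hcard
      exact ⟨r, hr, fun h => absurd h hk⟩
  choose r hr hr1 using hr
  have hr0 : ∀ y, r (p y) ≠ 0 := by
    intro y h
    have := hr (p y)
    rw [h, zero_pow hcard.ne', hN] at this
    exact hν0 y this.symm
  have hr11 : r 1 = 1 := hr1 1 rfl
  refine ⟨fun y => (r (p y))⁻¹ • T y, ?_, ?_, ?_, ?_, ?_⟩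
  · intro a
    show (r (p (j a)))⁻¹ • T (j a) = R a
    rw [hpj, hr11, inv_one, one_smul, hT1]
  · intro a y
    show (r (p (j a * y)))⁻¹ • T (j a * y) = R a * ((r (p y))⁻¹ • T y)
    rw [map_mul, hpj, one_mul, hT2, mul_smul_comm]
  · intro y a
    show (r (p y))⁻¹ • T y * R a = R (c y a) * ((r (p y))⁻¹ • T y)
    rw [smul_mul_assoc, hT3, mul_smul_comm]
  · intro y
    obtain ⟨u, hu⟩ := hT4 y
    refine ⟨⟨(r (p y))⁻¹ • T y, r (p y) • (↑u⁻¹ : Module.End ℂ (Fin n → ℂ)), ?_, ?_⟩, rfl⟩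
    · rw [smul_mul_smul_comm, ← hu, Units.mul_inv, inv_mul_cancel₀ (hr0 y), one_smul]
    · rw [smul_mul_smul_comm, ← hu, Units.inv_mul, mul_inv_cancel₀ (hr0 y), one_smul]
  · intro y y'
    refine ⟨α y y' * r (p (y * y')) * (r (p y))⁻¹ * (r (p y'))⁻¹, ?_, ?_⟩
    · have h1 := hνm y y'
      rw [mul_pow, mul_pow, mul_pow, hr, hN, h1, inv_pow, inv_pow, hr, hr, hN, hN]
      field_simp [hν0 y, hν0 y']
    · show (r (p y))⁻¹ • T y * ((r (p y'))⁻¹ • T y') = _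
      rw [smul_mul_smul_comm, hα, smul_smul, smul_smul]
      congr 1
      field_simp [hr0 y, hr0 y', hr0 (y * y')]
      rw [mul_div_assoc, div_self (hr0 _), mul_one]

end Pool.Agent.DPV


end

section

/-!
# Theorem X: definitions for the ordinary and the local part
-/

namespace Pool.Agent.DPX

open Pool.Agent.DP Pool.Agent.DPB Pool.Agent.DPW Pool.Agent.Lib_helper13 Representation

/-- Every `ℓ`-subgroup of the centralizer of `t` in `S` is cyclic. -/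
def CyC (ℓ : ℕ) {G : Type} [Group G] (S : Subgroup G) (t : G) : Prop :=
  ∀ Q : Subgroup G, IsPGroup ℓ Q → Q ≤ S → (∀ u ∈ Q, u * t = t * u) → IsCyclic Q

/-- The stabilizer of the block of the character `φ` of the normal subgroup `C`. -/
def bS (𝔐 : Ideal (integralClosure ℤ ℂ)) {N : Type} [Group N] [Fintype N] (C : Subgroup N)
    [C.Normal] (φ : C → ℂ) : Subgroup N where
  carrier := {n | ∀ x, cen 𝔐 (MonoidHom.id C) φ (MulAut.conjNormal n x) =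
    cen 𝔐 (MonoidHom.id C) φ x}
  one_mem' := by
    intro x
    rw [map_one, MulAut.one_apply]
  mul_mem' := by
    intro a b ha hb x
    rw [map_mul, MulAut.mul_apply, ha, hb]
  inv_mem' := by
    intro a ha x
    have h := ha (MulAut.conjNormal a⁻¹ x)
    rw [← MulAut.mul_apply, ← map_mul, mul_inv_cancel, map_one, MulAut.one_apply] at h
    exact h.symm

/-- The valuation ring `O` dominates the algebraic integers, localized at `𝔐`; its residue field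
is algebraically closed of characteristic `ℓ`. -/
structure VR (ℓ : ℕ) (𝔐 : Ideal (integralClosure ℤ ℂ)) (O : ValuationSubring ℂ) : Prop where
  int : ∀ x : integralClosure ℤ ℂ, (x : ℂ) ∈ O
  max : ∀ x : integralClosure ℤ ℂ, x ∈ 𝔐 ↔ O.valuation (x : ℂ) < 1
  acl : IsAlgClosed (IsLocalRing.ResidueField O)
  chr : CharP (IsLocalRing.ResidueField O) ℓ

/-- The inclusion of the algebraic integers in `O`. -/
def VR.inc {ℓ : ℕ} {𝔐 : Ideal (integralClosure ℤ ℂ)} {O : ValuationSubring ℂ}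
    (h : VR ℓ 𝔐 O) : integralClosure ℤ ℂ →+* O where
  toFun x := ⟨(x : ℂ), h.int x⟩
  map_one' := rfl
  map_mul' _ _ := rfl
  map_zero' := rfl
  map_add' _ _ := rfl

/-- The map of the algebraic integers to the residue field of `O`. -/
noncomputable def VR.res {ℓ : ℕ} {𝔐 : Ideal (integralClosure ℤ ℂ)} {O : ValuationSubring ℂ}
    (h : VR ℓ 𝔐 O) : integralClosure ℤ ℂ →+* IsLocalRing.ResidueField O :=
  (IsLocalRing.residue O).comp h.inc

/-- The reduction of a matrix representation over the valuation ring. -/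
noncomputable def redM {O : ValuationSubring ℂ} {T : Type} [Group T] {d : ℕ}
    (M : T →* Matrix (Fin d) (Fin d) O) :
    Representation (IsLocalRing.ResidueField O) T (Fin d → IsLocalRing.ResidueField O) where
  toFun g := Matrix.toLin' ((M g).map (IsLocalRing.residue O))
  map_one' := by
    rw [map_one, ← RingHom.mapMatrix_apply, map_one, Matrix.toLin'_one]
    rfl
  map_mul' g h := by
    rw [map_mul, ← RingHom.mapMatrix_apply, map_mul, Matrix.toLin'_mul]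
    rfl

end Pool.Agent.DPX


end

section

/-!
# Theorem X: statements of the modules, ordinary characters and automorphisms
-/

namespace Pool.Agent.DPX

open Pool.Agent.DP Pool.Agent.DPB Pool.Agent.DPW Pool.Agent.Lib_helper13 Representation

/-- NIXX: the structure theorem. -/
def Stmt_NIXX : Prop :=
  ∀ (ℓ n : ℕ) [Fact ℓ.Prime] (F : Type) [Field F] [IsAlgClosed F] [CharP F ℓ], 0 < n →
    NIXn ℓ n F

open Classical in
/-- IDX: the block idempotent. -/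
def Stmt_IDX : Prop :=
  ∀ (F T : Type) [Field F] [Group T] [Fintype T] (𝔐 : Ideal (integralClosure ℤ ℂ)) (ℓ : ℕ)
    [Fact ℓ.Prime], 𝔐.IsMaximal → (ℓ : integralClosure ℤ ℂ) ∈ 𝔐 →
    ∀ r : integralClosure ℤ ℂ →+* F, Function.Surjective r → RingHom.ker r = 𝔐 →
    ∀ χ₀ : T → ℂ, IsIrr χ₀ →
      ∃ a : T → integralClosure ℤ ℂ, (∀ g x, a (g * x * g⁻¹) = a x) ∧
        Prm (fun x => r (a x)) ∧
        (∀ χ : T → ℂ, IsIrr χ → red 𝔐 (wt χ (fun h => (a h : ℂ))) =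
          if cen 𝔐 (MonoidHom.id T) χ = cen 𝔐 (MonoidHom.id T) χ₀ then 1 else 0) ∧
        (∀ x₀ : T, cen 𝔐 (MonoidHom.id T) χ₀ x₀ ≠ 0 →
          ∃ y ∈ CF F T, (fun x => r (a x)) = cvF (clsF F x₀) y) ∧
        (∃ h, r (a h) ≠ 0 ∧ cen 𝔐 (MonoidHom.id T) χ₀ h ≠ 0) ∧
        (∀ (n : ℕ) (P₁ P : Subgroup T) (x₀ : T),
          AtX ℓ n (cen 𝔐 (MonoidHom.id T) χ₀) P₁ P x₀ →
          BKX ℓ n P₁ P x₀ (fun x => r (a x)) ∧
          ∃ x₁, r (a x₁) ≠ 0 ∧ AtX ℓ n (cen 𝔐 (MonoidHom.id T) χ₀) P₁ P x₁) ∧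
        ∀ a' : T → integralClosure ℤ ℂ, (∀ g x, a' (g * x * g⁻¹) = a' x) →
          cvF (fun x => r (a' x)) (fun x => r (a' x)) = (fun x => r (a' x)) →
          (∀ χ : T → ℂ, IsIrr χ → red 𝔐 (wt χ (fun h => (a' h : ℂ))) =
            red 𝔐 (wt χ (fun h => (a h : ℂ)))) → ∀ x, r (a' x) = r (a x)

/-- DXMX: the defect groups of a block with cyclic defect groups. -/
def Stmt_DXMX : Prop :=
  ∀ (T : Type) [Group T] [Fintype T] (𝔐 : Ideal (integralClosure ℤ ℂ)) (ℓ : ℕ)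
    [Fact ℓ.Prime], 𝔐.IsMaximal → (ℓ : integralClosure ℤ ℂ) ∈ 𝔐 → ∀ χ₀ : T → ℂ, IsIrr χ₀ →
    (DX ℓ (cen 𝔐 (MonoidHom.id T) χ₀) →
      ∃ (n : ℕ) (P₁ P : Subgroup T) (x₀ : T),
        AtX ℓ n (cen 𝔐 (MonoidHom.id T) χ₀) P₁ P x₀) ∧
    ∀ (n : ℕ) (P₁ P : Subgroup T) (x₀ : T),
      AtX ℓ n (cen 𝔐 (MonoidHom.id T) χ₀) P₁ P x₀ →
      0 < n ∧ DX ℓ (cen 𝔐 (MonoidHom.id T) χ₀) ∧
      (∀ x, cen 𝔐 (MonoidHom.id T) χ₀ x ≠ 0 →
        ∃ t : T, ∀ u ∈ P, t * u * t⁻¹ * x = x * (t * u * t⁻¹)) ∧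
      ∀ (n' : ℕ) (P₁' P' : Subgroup T) (x₀' : T),
        AtX ℓ n' (cen 𝔐 (MonoidHom.id T) χ₀) P₁' P' x₀' →
        n' = n ∧ ∃ t : T, P₁' = P₁.map (MulAut.conj t).toMonoidHom ∧
          P' = P.map (MulAut.conj t).toMonoidHom

/-- CNTX: the number of characters in a block and in its local counterpart. -/
def Stmt_CNTX : Prop :=
  ∀ (T : Type) [Group T] [Fintype T] (𝔐 : Ideal (integralClosure ℤ ℂ)) (ℓ n : ℕ)
    [Fact ℓ.Prime], 𝔐.IsMaximal → (ℓ : integralClosure ℤ ℂ) ∈ 𝔐 →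
    ∀ χ₀ : T → ℂ, IsIrr χ₀ → ∀ (P₁ P : Subgroup T) [Fintype (NP P₁)] (x₀ : T),
      AtX ℓ n (cen 𝔐 (MonoidHom.id T) χ₀) P₁ P x₀ →
      Nat.card {χ : T → ℂ // IsIrr χ ∧
        cen 𝔐 (MonoidHom.id T) χ = cen 𝔐 (MonoidHom.id T) χ₀} =
      Nat.card {ψ : NP P₁ → ℂ // IsIrr ψ ∧
        cen 𝔐 (Subgroup.normalizer (P₁ : Set T)).subtype ψ = cen 𝔐 (MonoidHom.id T) χ₀}

/-- ATNX: the block of the normalizer. -/
def Stmt_ATNX : Prop :=
  ∀ (T : Type) [Group T] [Fintype T] (𝔐 : Ideal (integralClosure ℤ ℂ)) (ℓ n : ℕ)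
    [Fact ℓ.Prime], 𝔐.IsMaximal → (ℓ : integralClosure ℤ ℂ) ∈ 𝔐 →
    ∀ χ₀ : T → ℂ, IsIrr χ₀ → ∀ (P₁ P : Subgroup T) [Fintype (NP P₁)] (x₀ : T),
      AtX ℓ n (cen 𝔐 (MonoidHom.id T) χ₀) P₁ P x₀ →
      ∀ hx : x₀ ∈ Subgroup.normalizer (P₁ : Set T), ∀ ψ : NP P₁ → ℂ, IsIrr ψ →
      cen 𝔐 (Subgroup.normalizer (P₁ : Set T)).subtype ψ = cen 𝔐 (MonoidHom.id T) χ₀ →
      AtX ℓ n (cen 𝔐 (MonoidHom.id (NP P₁)) ψ)
        (P₁.subgroupOf (Subgroup.normalizer (P₁ : Set T)))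
        (P.subgroupOf (Subgroup.normalizer (P₁ : Set T))) (⟨x₀, hx⟩ : NP P₁) ∧
      ∀ ψ' : NP P₁ → ℂ, IsIrr ψ' →
        (cen 𝔐 (MonoidHom.id (NP P₁)) ψ' = cen 𝔐 (MonoidHom.id (NP P₁)) ψ ↔
          cen 𝔐 (Subgroup.normalizer (P₁ : Set T)).subtype ψ' =
            cen 𝔐 (MonoidHom.id T) χ₀)

/-- ATCX: the blocks of the centralizer of a normal subgroup of order `ℓ`. -/
def Stmt_ATCX : Prop :=
  ∀ (N : Type) [Group N] [Fintype N] (𝔐 : Ideal (integralClosure ℤ ℂ)) (ℓ n : ℕ)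
    [Fact ℓ.Prime], 𝔐.IsMaximal → (ℓ : integralClosure ℤ ℂ) ∈ 𝔐 →
    ∀ (P₁ P : Subgroup N) [P₁.Normal] (x₀ : N) (ψ : N → ℂ), IsIrr ψ →
    AtX ℓ n (cen 𝔐 (MonoidHom.id N) ψ) P₁ P x₀ →
    ∀ C : Subgroup N, C = Subgroup.centralizer (P₁ : Set N) → ∀ φ : C → ℂ, IsIrr φ →
      ip (fun c : C => ψ c) φ ≠ 0 →
      ∃ (P' : Subgroup C) (x' : C) (g : N), P' = (P.map (MulAut.conj g).toMonoidHom).subgroupOf C ∧
        (x' : N) = g * x₀ * g⁻¹ ∧
        AtX ℓ n (cen 𝔐 (MonoidHom.id C) φ) (P₁.subgroupOf C) P' x'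

/-- ORBX: the blocks of the centralizer under a block of the group. -/
def Stmt_ORBX : Prop :=
  ∀ (N : Type) [Group N] [Fintype N] (𝔐 : Ideal (integralClosure ℤ ℂ)) (ℓ : ℕ)
    [Fact ℓ.Prime], 𝔐.IsMaximal → (ℓ : integralClosure ℤ ℂ) ∈ 𝔐 →
    ∀ (P₁ : Subgroup N) [P₁.Normal], Nat.card P₁ = ℓ → ∀ (C : Subgroup N) [C.Normal],
    C = Subgroup.centralizer (P₁ : Set N) → ∀ ψ₀ : N → ℂ, IsIrr ψ₀ → ∀ φ₀ : C → ℂ,
    IsIrr φ₀ → ip (fun c : C => ψ₀ c) φ₀ ≠ 0 →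
    (∀ (ψ : N → ℂ) (φ : C → ℂ), IsIrr ψ → IsIrr φ → ip (fun c : C => ψ c) φ ≠ 0 →
      (cen 𝔐 (MonoidHom.id N) ψ = cen 𝔐 (MonoidHom.id N) ψ₀ ↔
        ∃ g : N, cen 𝔐 (MonoidHom.id C) (fun c => φ (MulAut.conjNormal g c)) =
          cen 𝔐 (MonoidHom.id C) φ₀)) ∧
    ∀ (φ : C → ℂ) (g : N), IsIrr φ →
      (IsIrr (fun c => φ (MulAut.conjNormal g c)) ∧
        ∀ x, cen 𝔐 (MonoidHom.id C) (fun c => φ (MulAut.conjNormal g c)) x =
          cen 𝔐 (MonoidHom.id C) φ (MulAut.conjNormal g x))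

/-- NILO: the number of characters in a block whose defect groups contain a central subgroup of
order `ℓ`. -/
def Stmt_NILO : Prop :=
  ∀ (C : Type) [Group C] [Fintype C] (𝔐 : Ideal (integralClosure ℤ ℂ)) (ℓ n : ℕ)
    [Fact ℓ.Prime], 𝔐.IsMaximal → (ℓ : integralClosure ℤ ℂ) ∈ 𝔐 →
    ∀ (P₁ P : Subgroup C) (x₀ : C), P₁ ≤ Subgroup.center C → ∀ φ₀ : C → ℂ, IsIrr φ₀ →
    AtX ℓ n (cen 𝔐 (MonoidHom.id C) φ₀) P₁ P x₀ →
    Nat.card {φ : C → ℂ // IsIrr φ ∧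
      cen 𝔐 (MonoidHom.id C) φ = cen 𝔐 (MonoidHom.id C) φ₀} = ℓ ^ n

open Classical in
/-- CHAX: the eigenvalues of an automorphism on the class functions of a block. -/
def Stmt_CHAX : Prop :=
  ∀ (F H : Type) [Field F] [Group H] [Fintype H] (𝔐 : Ideal (integralClosure ℤ ℂ)) (ℓ : ℕ)
    [Fact ℓ.Prime], 𝔐.IsMaximal → (ℓ : integralClosure ℤ ℂ) ∈ 𝔐 →
    ∀ r : integralClosure ℤ ℂ →+* F, Function.Surjective r → RingHom.ker r = 𝔐 →
    ∀ χ₀ : H → ℂ, IsIrr χ₀ → ∀ a : H → integralClosure ℤ ℂ, (∀ g x, a (g * x * g⁻¹) = a x) →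
      (∀ χ : H → ℂ, IsIrr χ → red 𝔐 (wt χ (fun h => (a h : ℂ))) =
        if cen 𝔐 (MonoidHom.id H) χ = cen 𝔐 (MonoidHom.id H) χ₀ then 1 else 0) →
    ∀ κ : MulAut H, (∀ x, cen 𝔐 (MonoidHom.id H) χ₀ (κ x) = cen 𝔐 (MonoidHom.id H) χ₀ x) →
      (∃ N : ℕ, ¬ ℓ ∣ N ∧ ∀ (χ : H → ℂ) (x : H), IsIrr χ → χ ((κ ^ N) x) = χ x) →
      ∀ μ : F, μ ≠ 0 →
      (mlt (CF F H) (Lz (fun x => r (a x)) ∘ₗ LinearMap.funLeft F F κ) μ : ℚ) =
        ∑ χ ∈ irrF H with (cen 𝔐 (MonoidHom.id H) χ = cen 𝔐 (MonoidHom.id H) χ₀ ∧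
            μ ^ Function.minimalPeriod (fun (f : H → ℂ) (x : H) => f (κ x)) χ = 1),
          (1 : ℚ) / Function.minimalPeriod (fun (f : H → ℂ) (x : H) => f (κ x)) χ

/-- ZACX: the action of an automorphism on the centre of a block whose defect groups contain a
central subgroup of order `ℓ`. -/
def Stmt_ZACX : Prop :=
  ∀ (ℓ n : ℕ) [Fact ℓ.Prime] (F C : Type) [Field F] [CharP F ℓ] [Group C] [Fintype C]
    (P₁ : Subgroup C), P₁ ≤ Subgroup.center C → Nat.card P₁ = ℓ → ∀ e ∈ CF F C,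
    cvF e e = e → e ≠ 0 → ∀ (m : ℕ) (E : Fin m → Fin m → C → F) (z : C → F),
    NilB e m (ℓ ^ n) E z → ∀ κ : MulAut C, (∀ x, e (κ x) = e x) →
    ∀ k : ℕ, (∀ u ∈ P₁, κ (u ^ k) = u) →
      (∀ μ : F, μ ≠ 0 → mlt (CF F C) (Lz e ∘ₗ LinearMap.funLeft F F κ) μ =
        Nat.card {i : Fin (ℓ ^ n) // (k : F) ^ (i : ℕ) = μ}) ∧
      ((k : F) = 1 → (∃ N : ℕ, ¬ ℓ ∣ N ∧ ∃ g, ∀ x, (κ ^ N) x = g * x * g⁻¹) →
        ∀ w ∈ CF F C, cvF e w = w → ∀ x, w (κ x) = w x)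

/-- ACTX: the action of the automorphisms on the characters of a block whose defect groups
contain a central subgroup of order `ℓ`. -/
def Stmt_ACTX : Prop :=
  ∀ (C : Type) [Group C] [Fintype C] (𝔐 : Ideal (integralClosure ℤ ℂ)) (ℓ n : ℕ)
    [Fact ℓ.Prime], 𝔐.IsMaximal → (ℓ : integralClosure ℤ ℂ) ∈ 𝔐 →
    ∀ (P₁ P : Subgroup C) (x₀ : C), P₁ ≤ Subgroup.center C → ∀ φ₀ : C → ℂ, IsIrr φ₀ →
    AtX ℓ n (cen 𝔐 (MonoidHom.id C) φ₀) P₁ P x₀ →
    ∀ κ : MulAut C, (∀ x, cen 𝔐 (MonoidHom.id C) φ₀ (κ x) = cen 𝔐 (MonoidHom.id C) φ₀ x) →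
    (∀ u ∈ P₁, κ u ∈ P₁) → (∃ N : ℕ, ¬ ℓ ∣ N ∧ ∃ g, ∀ x, (κ ^ N) x = g * x * g⁻¹) →
    ((∀ u ∈ P₁, κ u = u) → ∀ φ : C → ℂ, IsIrr φ →
      cen 𝔐 (MonoidHom.id C) φ = cen 𝔐 (MonoidHom.id C) φ₀ → ∀ x, φ (κ x) = φ x) ∧
    ((∃ u ∈ P₁, κ u ≠ u) → ∃ φ₁ : C → ℂ, IsIrr φ₁ ∧
      cen 𝔐 (MonoidHom.id C) φ₁ = cen 𝔐 (MonoidHom.id C) φ₀ ∧ (∀ x, φ₁ (κ x) = φ₁ x) ∧
      ∀ φ : C → ℂ, IsIrr φ → cen 𝔐 (MonoidHom.id C) φ = cen 𝔐 (MonoidHom.id C) φ₀ →
        (∀ x, φ (κ x) = φ x) → φ = φ₁)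

/-- SCXX: central functions of the extensions of a character of a block whose defect groups
contain a central subgroup of order `ℓ`. -/
def Stmt_SCXX : Prop :=
  ∀ (M : Type) [Group M] [Fintype M] (𝔐 : Ideal (integralClosure ℤ ℂ)) (ℓ n : ℕ)
    [Fact ℓ.Prime], 𝔐.IsMaximal → (ℓ : integralClosure ℤ ℂ) ∈ 𝔐 →
    ∀ (P₁ C : Subgroup M) [C.Normal], P₁ ≤ C → (∀ u ∈ P₁, ∀ x, u * x = x * u) →
    ¬ ℓ ∣ C.index → ∀ E : M → ℂ, IsIrr E → IsIrr (fun c : C => E c) →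
    ∀ (Q : Subgroup C) (x₀ : C),
    AtX ℓ n (cen 𝔐 (MonoidHom.id C) (fun c : C => E c)) (P₁.subgroupOf C) Q x₀ →
    ∀ z : M, ∃ t, t * z⁻¹ ∈ C ∧ cgT 𝔐 C E t ≠ 0

end Pool.Agent.DPX


end

section

/-!
# Theorem X: statements of the modules, local part
-/

namespace Pool.Agent.DPX

open Pool.Agent.DP Pool.Agent.DPV Pool.Agent.DPB Pool.Agent.DPW Pool.Agent.Lib_helper13
open Representation

/-! ### The normalizer of the subgroup of order `ℓ` -/

/-- GCSX: elements whose centralizers have cyclic Sylow subgroups. -/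
def Stmt_GCSX : Prop :=
  ∀ (ℓ : ℕ) [Fact ℓ.Prime] (B : Type) [Group B] [Finite B] (S P₁ : Subgroup B),
    Nat.card P₁ = ℓ → P₁ ≤ S → ∀ t : B, (∀ u ∈ P₁, u * t = t * u) →
    (CyC ℓ S t → ∀ g ∈ S, (∀ u ∈ P₁, u * (g * t * g⁻¹) = g * t * g⁻¹ * u) →
      ∃ m ∈ S ⊓ Subgroup.normalizer (P₁ : Set B), m * t * m⁻¹ = g * t * g⁻¹) ∧
    (CyC ℓ (S ⊓ Subgroup.normalizer (P₁ : Set B)) t → CyC ℓ S t)

/-- GDX: the elements for which the Sylow subgroups of the centralizer are cyclic. -/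
def Stmt_GDX : Prop :=
  ∀ (G B C : Type) [Group G] [Fintype G] [Group B] [Fintype B] [Group C]
    (𝔐 : Ideal (integralClosure ℤ ℂ)) (ℓ : ℕ) [Fact ℓ.Prime], 𝔐.IsMaximal →
    (ℓ : integralClosure ℤ ℂ) ∈ 𝔐 →
    ∀ (ι : G →* B) (κ : B →* MulAut G) (ρ : B →* C), LocN ι κ ρ →
    ∀ P₁ : Subgroup G, Nat.card P₁ = ℓ → ∀ ψ : G → ℂ, IrrOn (stb {P₁}) ψ →
    (∀ (L : Subgroup C) (f : B → ℂ), ExtL ι κ ρ {P₁} ψ L f → ∀ t : B, ρ t ∈ L →
      (∀ u ∈ P₁, κ t u = u) → CyC ℓ ι.range t →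
      cgT 𝔐 ι.range f t = cgT 𝔐 ((stb {P₁}).map ι) f t) ∧
    ∀ x₀ : G, (∀ u ∈ P₁, u * x₀ = x₀ * u) → CyC ℓ ⊤ x₀ →
      cg 𝔐 ψ x₀ = red 𝔐 (wt ψ (fun x => cjT (stb {P₁}) x x₀)) ∧
      ∀ a : B → ℂ, (∀ n ∈ stb {P₁}, ∀ x, a (ι n * x * (ι n)⁻¹) = a x) →
        (∀ x, IsIntegral ℤ (a x)) → ∀ t : B, (∀ u ∈ P₁, κ t u = u) →
        ¬ CyC ℓ ι.range t →
        red 𝔐 (∑ y : G, cjT (stb {P₁}) y x₀ * a ((ι y)⁻¹ * t)) = 0

/-- BLX: the local characters over the same block are in the same block of the normalizer. -/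
def Stmt_BLX : Prop :=
  ∀ (G : Type) [Group G] [Fintype G]
    (𝔐 : Ideal (integralClosure ℤ ℂ)) (ℓ n : ℕ) [Fact ℓ.Prime], 𝔐.IsMaximal →
    (ℓ : integralClosure ℤ ℂ) ∈ 𝔐 → ∀ (P₁ P : Subgroup G) (x₀ : G) (ψ ψ' : G → ℂ),
    IrrOn (stb {P₁}) ψ → IrrOn (stb {P₁}) ψ' → (∀ g, cg 𝔐 ψ g = cg 𝔐 ψ' g) →
    AtX ℓ n (fun g => cg 𝔐 ψ g) P₁ P x₀ →
    ∀ a : G → ℂ, (∀ n ∈ stb {P₁}, ∀ x, a (n * x * n⁻¹) = a x) → (∀ x, IsIntegral ℤ (a x)) →
      red 𝔐 (wt ψ a) = red 𝔐 (wt ψ' a)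

/-- LFX: lifting of the elements with central function different from zero. -/
def Stmt_LFX : Prop :=
  ∀ (G B C : Type) [Group G] [Fintype G] [Group B] [Fintype B] [Group C]
    (𝔐 : Ideal (integralClosure ℤ ℂ)) (ℓ n : ℕ) [Fact ℓ.Prime], 𝔐.IsMaximal →
    (ℓ : integralClosure ℤ ℂ) ∈ 𝔐 →
    ∀ (ι : G →* B) (κ : B →* MulAut G) (ρ : B →* C), LocN ι κ ρ →
    ∀ (P₁ P : Subgroup G) (x₀ : G) (ψ : G → ℂ), IrrOn (stb {P₁}) ψ →
    AtX ℓ n (fun g => cg 𝔐 ψ g) P₁ P x₀ →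
    ∀ (L : Subgroup C) (f : B → ℂ), ExtL ι κ ρ {P₁} ψ L f → ∀ c ∈ L,
    ∀ a : B → ℂ, (∀ n ∈ stb {P₁}, ∀ x, a (ι n * x * (ι n)⁻¹) = a x) →
      (∀ x, IsIntegral ℤ (a x)) → (∀ x, ρ x ≠ c → a x = 0) → red 𝔐 (wt f a) ≠ 0 →
      ∃ t, ρ t = c ∧ cgT 𝔐 ι.range f t ≠ 0

/-- CHNX: only the chains whose members are conjugate to subgroups of the defect group
contribute. -/
def Stmt_CHNX : Prop :=
  ∀ (G : Type) [Group G] [Fintype G]
    (𝔐 : Ideal (integralClosure ℤ ℂ)) (ℓ n : ℕ) [Fact ℓ.Prime], 𝔐.IsMaximal →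
    (ℓ : integralClosure ℤ ℂ) ∈ 𝔐 →
    ∀ (ω : G → (integralClosure ℤ ℂ) ⧸ 𝔐) (P₁ P : Subgroup G) (x₀ : G), AtX ℓ n ω P₁ P x₀ →
    ∀ σ : Finset (Subgroup G), IsCh ℓ ⊥ σ → ∀ ψ : G → ℂ, IrrOn (stb σ) ψ →
      (∀ g, cg 𝔐 ψ g = ω g) →
      ∃ g : G, ∀ D ∈ σ, D ≤ P.map (MulAut.conj g).toMonoidHom

/-- VSXX: the local sum for a block with a cyclic defect group. -/
def Stmt_VSXX : Prop :=
  ∀ (G B C : Type) [Group G] [Fintype G] [Group B] [Fintype B] [Group C]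
    (𝔐 : Ideal (integralClosure ℤ ℂ)) (ℓ n : ℕ) [Fact ℓ.Prime], 𝔐.IsMaximal →
    (ℓ : integralClosure ℤ ℂ) ∈ 𝔐 →
    ∀ (ι : G →* B) (κ : B →* MulAut G) (ρ : B →* C), LocN ι κ ρ →
    ∀ (P₁ P : Subgroup G) (x₀ : G) (L : Subgroup C)
      (β : Set (B → (integralClosure ℤ ℂ) ⧸ 𝔐)) (e : ℕ),
      (∃ b ∈ β, AtX ℓ n (fun g => b (ι g)) P₁ P x₀) →
      VS 𝔐 ℓ ι κ ρ L β e = (Nat.card G : ℚ) *
        ((Nat.card {θ : G → ℂ // IrrOn (stb ∅) θ ∧ L ≤ (Stx κ ∅ θ).map ρ ∧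
          df ℓ (stb (∅ : Finset (Subgroup G))) θ = e ∧ bet 𝔐 ι κ ρ ∅ θ L = β} : ℚ) -
        (Nat.card {ψ : G → ℂ // IrrOn (stb {P₁}) ψ ∧ L ≤ (Stx κ {P₁} ψ).map ρ ∧
          df ℓ (stb {P₁}) ψ = e ∧ bet 𝔐 ι κ ρ {P₁} ψ L = β} : ℚ))

/-! ### Stabilizers of the characters of the normalizer -/

/-- CYAX: the case of a character which is fixed by the stabilizer of its block. -/
def Stmt_CYAX : Prop :=
  ∀ (H : Type) [Group H] [Fintype H]
    (𝔐 : Ideal (integralClosure ℤ ℂ)) (ℓ n : ℕ) [Fact ℓ.Prime], 𝔐.IsMaximal →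
    (ℓ : integralClosure ℤ ℂ) ∈ 𝔐 → ∀ (P₁ N C : Subgroup H) [P₁.Normal] [N.Normal]
    [C.Normal], Nat.card P₁ = ℓ → ¬ ℓ ∣ N.index →
    C = N ⊓ Subgroup.centralizer (P₁ : Set H) →
    ∀ f : H → ℂ, IsIrr f → IsIrr (fun n : N => f n) →
    ∀ φ : C → ℂ, IsIrr φ → ip (fun c : C => f c) φ ≠ 0 → ∀ (Q : Subgroup C) (x₀ : C),
    AtX ℓ n (cen 𝔐 (MonoidHom.id C) φ) (P₁.subgroupOf C) Q x₀ →
    (∀ m ∈ N, m ∈ bS 𝔐 C φ → ∀ c, φ (MulAut.conjNormal m c) = φ c) →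
      ∃ h0 : H, ∀ h : H, ∃ (k : ℤ) (t : H), t * (h * h0 ^ k)⁻¹ ∈ N ∧ cgT 𝔐 N f t ≠ 0

/-- CYBX: the case of a character whose stabilizer centralizes the subgroup of order `ℓ`. -/
def Stmt_CYBX : Prop :=
  ∀ (H : Type) [Group H] [Fintype H]
    (𝔐 : Ideal (integralClosure ℤ ℂ)) (ℓ n : ℕ) [Fact ℓ.Prime], 𝔐.IsMaximal →
    (ℓ : integralClosure ℤ ℂ) ∈ 𝔐 → ∀ (P₁ N C : Subgroup H) [P₁.Normal] [N.Normal]
    [C.Normal], Nat.card P₁ = ℓ → ¬ ℓ ∣ N.index →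
    C = N ⊓ Subgroup.centralizer (P₁ : Set H) →
    ∀ f : H → ℂ, IsIrr f → IsIrr (fun n : N => f n) →
    ∀ φ : C → ℂ, IsIrr φ → ip (fun c : C => f c) φ ≠ 0 → ∀ (Q : Subgroup C) (x₀ : C),
    AtX ℓ n (cen 𝔐 (MonoidHom.id C) φ) (P₁.subgroupOf C) Q x₀ →
    (∀ h : H, (∀ c, φ (MulAut.conjNormal h c) = φ c) →
      h ∈ Subgroup.centralizer (P₁ : Set H)) →
      ∃ h0 : H, ∀ h : H, ∃ (k : ℤ) (t : H), t * (h * h0 ^ k)⁻¹ ∈ N ∧ cgT 𝔐 N f t ≠ 0

/-- CYCX: the quotient by the elements which act on the block as inner automorphisms is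
cyclic. -/
def Stmt_CYCX : Prop :=
  ∀ (G B C : Type) [Group G] [Fintype G] [Group B] [Fintype B] [Group C]
    (𝔐 : Ideal (integralClosure ℤ ℂ)) (ℓ n : ℕ) [Fact ℓ.Prime], 𝔐.IsMaximal →
    (ℓ : integralClosure ℤ ℂ) ∈ 𝔐 →
    ∀ (ι : G →* B) (κ : B →* MulAut G) (ρ : B →* C), LocN ι κ ρ → ¬ ℓ ∣ Nat.card C →
    ∀ (P₁ P : Subgroup G) (x₀ : G) (ω : G → (integralClosure ℤ ℂ) ⧸ 𝔐),
    AtX ℓ n ω P₁ P x₀ → (∃ θ : G → ℂ, IsIrr θ ∧ cen 𝔐 (MonoidHom.id G) θ = ω) →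
    ∀ ψ : G → ℂ, IrrOn (stb {P₁}) ψ → (∀ g, cg 𝔐 ψ g = ω g) →
    ∀ L : Subgroup C, L ≤ (Stx κ {P₁} ψ).map ρ → ∀ f : B → ℂ, ExtL ι κ ρ {P₁} ψ L f →
      ∃ c0 ∈ L, ∀ c ∈ L, ∃ (k : ℤ) (t : B), ρ t = c * c0 ^ k ∧ cgT 𝔐 ι.range f t ≠ 0

/-- TWX: the stabilizers of the characters of a block of a normal subgroup with a normal subgroup
of order `ℓ`. -/
def Stmt_TWX : Prop :=
  ∀ (H : Type) [Group H] [Fintype H]
    (𝔐 : Ideal (integralClosure ℤ ℂ)) (ℓ n : ℕ) [Fact ℓ.Prime], 𝔐.IsMaximal →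
    (ℓ : integralClosure ℤ ℂ) ∈ 𝔐 → ∀ (P₁ N : Subgroup H) [P₁.Normal] [N.Normal],
    Nat.card P₁ = ℓ → P₁ ≤ N → ¬ ℓ ∣ N.index → ∀ (ψ₀ : N → ℂ) (P : Subgroup N) (x₀ : N),
    IsIrr ψ₀ → AtX ℓ n (cen 𝔐 (MonoidHom.id N) ψ₀) (P₁.subgroupOf N) P x₀ →
    ∃ S₁ S₂ : Subgroup H, ∀ ψ : N → ℂ, IsIrr ψ →
      cen 𝔐 (MonoidHom.id N) ψ = cen 𝔐 (MonoidHom.id N) ψ₀ →
      (∀ h : H, h ∈ S₁ ↔ ∀ x, ψ (MulAut.conjNormal h x) = ψ x) ∨
      ∀ h : H, h ∈ S₂ ↔ ∀ x, ψ (MulAut.conjNormal h x) = ψ x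

/-- TWOX: the stabilizers of the local characters of a block. -/
def Stmt_TWOX : Prop :=
  ∀ (G B C : Type) [Group G] [Fintype G] [Group B] [Fintype B] [Group C]
    (𝔐 : Ideal (integralClosure ℤ ℂ)) (ℓ n : ℕ) [Fact ℓ.Prime], 𝔐.IsMaximal →
    (ℓ : integralClosure ℤ ℂ) ∈ 𝔐 →
    ∀ (ι : G →* B) (κ : B →* MulAut G) (ρ : B →* C), LocN ι κ ρ → ¬ ℓ ∣ Nat.card C →
    ∀ (P₁ P : Subgroup G) (x₀ : G) (ω : G → (integralClosure ℤ ℂ) ⧸ 𝔐),
    AtX ℓ n ω P₁ P x₀ → (∃ θ : G → ℂ, IsIrr θ ∧ cen 𝔐 (MonoidHom.id G) θ = ω) →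
    ∃ S₁ S₂ : Subgroup C, ∀ ψ : G → ℂ, IrrOn (stb {P₁}) ψ → (∀ g, cg 𝔐 ψ g = ω g) →
      (Stx κ {P₁} ψ).map ρ = S₁ ∨ (Stx κ {P₁} ψ).map ρ = S₂

/-! ### Numbers of characters -/

/-- FXEX: the blocks over an invariant block. -/
def Stmt_FXEX : Prop :=
  ∀ (G B C : Type) [Group G] [Fintype G] [Group B] [Fintype B] [Group C]
    (𝔐 : Ideal (integralClosure ℤ ℂ)) (ℓ n : ℕ) [Fact ℓ.Prime], 𝔐.IsMaximal →
    (ℓ : integralClosure ℤ ℂ) ∈ 𝔐 →
    ∀ (ι : G →* B) (κ : B →* MulAut G) (ρ : B →* C), LocV ι κ ρ → ¬ ℓ ∣ Nat.card C →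
    ∀ (ω : G → (integralClosure ℤ ℂ) ⧸ 𝔐) (P₁ P : Subgroup G) (x₀ : G),
    AtX ℓ n ω P₁ P x₀ → (∀ b g, ω (κ b g) = ω g) →
    ∀ θ : G → ℂ, IsIrr θ → cen 𝔐 (MonoidHom.id G) θ = ω →
    ∀ χ : B → ℂ, IsIrr χ → ip (resj ι χ) θ ≠ 0 →
      AtX ℓ n (cen 𝔐 (MonoidHom.id B) χ) (P₁.map ι) (P.map ι) (ι x₀)

/-- FXGX: the normalizer of the subgroup of order `ℓ` of a defect group of an invariant
block. -/
def Stmt_FXGX : Prop :=
  ∀ (G B C : Type) [Group G] [Fintype G] [Group B] [Fintype B] [Group C]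
    (𝔐 : Ideal (integralClosure ℤ ℂ)) (ℓ n : ℕ) [Fact ℓ.Prime], 𝔐.IsMaximal →
    (ℓ : integralClosure ℤ ℂ) ∈ 𝔐 →
    ∀ (ι : G →* B) (κ : B →* MulAut G) (ρ : B →* C), LocN ι κ ρ →
    ∀ (ω : G → (integralClosure ℤ ℂ) ⧸ 𝔐) (P₁ P : Subgroup G) (x₀ : G),
    AtX ℓ n ω P₁ P x₀ → (∀ b g, ω (κ b g) = ω g) →
    (∃ θ : G → ℂ, IsIrr θ ∧ cen 𝔐 (MonoidHom.id G) θ = ω) → (YS ι {P₁}).map ρ = ⊤

/-- FXAX: the numbers of characters over an invariant block and over its local counterpart. -/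
def Stmt_FXAX : Prop :=
  ∀ (G B C : Type) [Group G] [Fintype G] [Group B] [Fintype B] [Group C]
    (𝔐 : Ideal (integralClosure ℤ ℂ)) (ℓ n : ℕ) [Fact ℓ.Prime], 𝔐.IsMaximal →
    (ℓ : integralClosure ℤ ℂ) ∈ 𝔐 →
    ∀ (ι : G →* B) (κ : B →* MulAut G) (ρ : B →* C) (h : LocV ι κ ρ), ¬ ℓ ∣ Nat.card C →
    ∀ (ω : G → (integralClosure ℤ ℂ) ⧸ 𝔐) (P₁ P : Subgroup G) (x₀ : G),
    AtX ℓ n ω P₁ P x₀ → (∀ b g, ω (κ b g) = ω g) →
    Nat.card {χ : B → ℂ // IsIrr χ ∧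
      ∃ θ : G → ℂ, IsIrr θ ∧ cen 𝔐 (MonoidHom.id G) θ = ω ∧ ip (resj ι χ) θ ≠ 0} =
    Nat.card {η : YS ι {P₁} → ℂ // IsIrr η ∧
      ∃ ψ : stb {P₁} → ℂ, IsIrr ψ ∧ cen 𝔐 (stb {P₁}).subtype ψ = ω ∧
        ip (resj (jS h.cl {P₁}) η) ψ ≠ 0}

open Classical in
/-- FXDX: the sums of the squares of the orders of the stabilizers. -/
def Stmt_FXDX : Prop :=
  ∀ (G B C : Type) [Group G] [Fintype G] [Group B] [Fintype B] [Group C]
    (𝔐 : Ideal (integralClosure ℤ ℂ)) (ℓ n : ℕ) [Fact ℓ.Prime], 𝔐.IsMaximal →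
    (ℓ : integralClosure ℤ ℂ) ∈ 𝔐 →
    ∀ (ι : G →* B) (κ : B →* MulAut G) (ρ : B →* C), LocV ι κ ρ → ¬ ℓ ∣ Nat.card C →
    (∀ x y : C, x * y = y * x) →
    ∀ (ω : G → (integralClosure ℤ ℂ) ⧸ 𝔐) (P₁ P : Subgroup G) (x₀ : G),
    AtX ℓ n ω P₁ P x₀ → (∀ b g, ω (κ b g) = ω g) →
    ∑ θ ∈ irrOn (stb (∅ : Finset (Subgroup G))) with (∀ g, cg 𝔐 θ g = ω g),
      (Nat.card ((Stx κ ∅ θ).map ρ)) ^ 2 =
    ∑ ψ ∈ irrOn (stb {P₁}) with (∀ g, cg 𝔐 ψ g = ω g),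
      (Nat.card ((Stx κ {P₁} ψ).map ρ)) ^ 2

/-- FIXX: the numbers of characters fixed by one element. -/
def Stmt_FIXX : Prop :=
  ∀ (G B C : Type) [Group G] [Fintype G] [Group B] [Fintype B] [Group C]
    (𝔐 : Ideal (integralClosure ℤ ℂ)) (ℓ n : ℕ) [Fact ℓ.Prime], 𝔐.IsMaximal →
    (ℓ : integralClosure ℤ ℂ) ∈ 𝔐 →
    ∀ (ι : G →* B) (κ : B →* MulAut G) (ρ : B →* C), LocV ι κ ρ → ¬ ℓ ∣ Nat.card C →
    ∀ (ω : G → (integralClosure ℤ ℂ) ⧸ 𝔐) (P₁ P : Subgroup G) (x₀ : G),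
    AtX ℓ n ω P₁ P x₀ → ∀ c : C,
      Nat.card {θ : G → ℂ // IrrOn (stb ∅) θ ∧ (∀ g, cg 𝔐 θ g = ω g) ∧
        c ∈ (Stx κ ∅ θ).map ρ} =
      Nat.card {ψ : G → ℂ // IrrOn (stb {P₁}) ψ ∧ (∀ g, cg 𝔐 ψ g = ω g) ∧
        c ∈ (Stx κ {P₁} ψ).map ρ}

/-- DFX: the defects of the characters which contribute. -/
def Stmt_DFX : Prop :=
  ∀ (G : Type) [Group G] [Fintype G]
    (𝔐 : Ideal (integralClosure ℤ ℂ)) (ℓ n : ℕ) [Fact ℓ.Prime], 𝔐.IsMaximal →
    (ℓ : integralClosure ℤ ℂ) ∈ 𝔐 → ∀ (ω : G → (integralClosure ℤ ℂ) ⧸ 𝔐)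
    (P₁ P : Subgroup G) (x₀ : G), AtX ℓ n ω P₁ P x₀ →
    (∀ θ : G → ℂ, IrrOn (stb ∅) θ → (∀ g, cg 𝔐 θ g = ω g) →
      df ℓ (stb (∅ : Finset (Subgroup G))) θ = n) ∧
    ∀ ψ : G → ℂ, IrrOn (stb {P₁}) ψ → (∀ g, cg 𝔐 ψ g = ω g) → df ℓ (stb {P₁}) ψ = n

/-- ADMX: the property is admissible. -/
def Stmt_ADMX : Prop :=
  ∀ (G B : Type) [Group G] [Fintype G] [Group B] (𝔐 : Ideal (integralClosure ℤ ℂ)) (ℓ : ℕ)
    [Fact ℓ.Prime], 𝔐.IsMaximal → ∀ κ : B →* MulAut G,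
    AdmP ℓ κ (fun ω : G → (integralClosure ℤ ℂ) ⧸ 𝔐 => DX ℓ ω)

/-- LVX: the local sum vanishes for the blocks with cyclic defect groups. -/
def Stmt_LVX : Prop :=
  ∀ (G B C : Type) [Group G] [Fintype G] [Group B] [Fintype B] [Group C]
    (𝔐 : Ideal (integralClosure ℤ ℂ)) (ℓ : ℕ) [Fact ℓ.Prime], 𝔐.IsMaximal →
    (ℓ : integralClosure ℤ ℂ) ∈ 𝔐 →
    ∀ (ι : G →* B) (κ : B →* MulAut G) (ρ : B →* C), LocV ι κ ρ → ¬ ℓ ∣ Nat.card C →
    ∀ (L : Subgroup C) (β : Set (B → (integralClosure ℤ ℂ) ⧸ 𝔐)) (e : ℕ),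
      gT ι (DX ℓ) β → VS 𝔐 ℓ ι κ ρ L β e = 0

end Pool.Agent.DPX


end

section

/-!
# Theorem X: statements of the modules, degrees of the characters
-/

namespace Pool.Agent.DPX

open Pool.Agent.DP Pool.Agent.DPV Pool.Agent.DPB Pool.Agent.DPW Pool.Agent.Lib_helper13
open Representation

/-! ### Integral representations -/

/-- VALX: existence of the valuation ring. -/
def Stmt_VALX : Prop :=
  ∀ (𝔐 : Ideal (integralClosure ℤ ℂ)) (ℓ : ℕ) [Fact ℓ.Prime], 𝔐.IsMaximal →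
    (ℓ : integralClosure ℤ ℂ) ∈ 𝔐 → ∃ O : ValuationSubring ℂ, VR ℓ 𝔐 O

/-- FEXX: extension of the field of coefficients. -/
def Stmt_FEXX : Prop :=
  ∀ (ℓ n : ℕ) (F K T : Type) [Field F] [Field K] [Group T] [Fintype T] (f : F →+* K),
    (∀ a b : T → F, cvF (fun x => f (a x)) (fun x => f (b x)) = fun x => f (cvF a b x)) ∧
    (∀ a ∈ CF F T, (fun x => f (a x)) ∈ CF K T) ∧
    (∀ (P₁ P : Subgroup T) (x₀ : T) (e : T → F), BKX ℓ n P₁ P x₀ e →
      BKX ℓ n P₁ P x₀ (fun x => f (e x))) ∧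
    (∀ (P₁ : Subgroup T) (e : T → F), brz P₁ (fun x => f (e x)) = fun x => f (brz P₁ e x)) ∧
    ∀ (e : T → F) (m c : ℕ) (E : Fin m → Fin m → T → F) (z : T → F), NilB e m c E z →
      NilB (fun x => f (e x)) m c (fun i j x => f (E i j x)) (fun x => f (z x))

/-- RLZX: the characters are afforded by matrix representations over the valuation ring. -/
def Stmt_RLZX : Prop :=
  ∀ (O : ValuationSubring ℂ) (T : Type) [Group T] [Fintype T] (χ : T → ℂ), IsIrr χ →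
    ∃ (d : ℕ) (M : T →* Matrix (Fin d) (Fin d) O), (d : ℂ) = χ 1 ∧
      (∀ g, (((M g).trace : O) : ℂ) = χ g) ∧
      ∀ a : T → O, (∀ g x, a (g * x * g⁻¹) = a x) →
        ∃ w : O, (w : ℂ) = wt χ (fun h => (a h : ℂ)) ∧
          ∑ h, a h • M h = w • (1 : Matrix (Fin d) (Fin d) O)

/-- RKOX: the rank of a matrix over the valuation ring and of its reduction. -/
def Stmt_RKOX : Prop :=
  ∀ (O : ValuationSubring ℂ) (d : ℕ) (A : Matrix (Fin d) (Fin d) O),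
    (A.map (IsLocalRing.residue O)).rank ≤ (A.map (fun x : O => (x : ℂ))).rank ∧
    (A * A = A → (A.map (IsLocalRing.residue O)).rank = (A.map (fun x : O => (x : ℂ))).rank)

/-- VANX: vanishing of a trace. -/
def Stmt_VANX : Prop :=
  ∀ (O : ValuationSubring ℂ) (ℓ k r d : ℕ) [Fact ℓ.Prime],
    CharP (IsLocalRing.ResidueField O) ℓ → ¬ ℓ ∣ r →
    ∀ U S J : Matrix (Fin d) (Fin d) O, U ^ ℓ ^ (k + 1) = 1 → S ^ r = 1 → J * J = J →
    U * S = S * U → U * J = J * U → S * J = J * S →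
    (∀ v : Fin d → IsLocalRing.ResidueField O,
      (J.map (IsLocalRing.residue O)).mulVec v = v →
      (((U ^ ℓ ^ k).map (IsLocalRing.residue O)).mulVec v = v) →
      ∃ w : Fin d → IsLocalRing.ResidueField O,
        v = ∑ i ∈ Finset.range ℓ, (((U ^ ℓ ^ k) ^ i).map (IsLocalRing.residue O)).mulVec w) →
    (U * S * J).trace = 0

open Classical in
/-- IDOX: the block idempotents over the valuation ring. -/
def Stmt_IDOX : Prop :=
  ∀ (𝔐 : Ideal (integralClosure ℤ ℂ)) (ℓ : ℕ) [Fact ℓ.Prime], 𝔐.IsMaximal →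
    (ℓ : integralClosure ℤ ℂ) ∈ 𝔐 → ∀ (O : ValuationSubring ℂ) (hO : VR ℓ 𝔐 O)
    (T : Type) [Group T] [Fintype T] (χ₀ : T → ℂ), IsIrr χ₀ →
    ∃ eh : T → O, (∀ g x, eh (g * x * g⁻¹) = eh x) ∧
      (∀ x, (eh x : ℂ) = (∑ χ ∈ irrF T with cen 𝔐 (MonoidHom.id T) χ =
        cen 𝔐 (MonoidHom.id T) χ₀, χ 1 * χ x⁻¹) / Nat.card T) ∧
      (∀ χ : T → ℂ, IsIrr χ → wt χ (fun x => (eh x : ℂ)) =
        if cen 𝔐 (MonoidHom.id T) χ = cen 𝔐 (MonoidHom.id T) χ₀ then 1 else 0) ∧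
      (cvF (fun x => IsLocalRing.residue O (eh x)) (fun x => IsLocalRing.residue O (eh x)) =
        fun x => IsLocalRing.residue O (eh x)) ∧
      ∀ a : T → integralClosure ℤ ℂ, (∀ g x, a (g * x * g⁻¹) = a x) →
        cvF (fun x => hO.res (a x)) (fun x => hO.res (a x)) = (fun x => hO.res (a x)) →
        (∀ χ : T → ℂ, IsIrr χ → red 𝔐 (wt χ (fun h => (a h : ℂ))) =
          if cen 𝔐 (MonoidHom.id T) χ = cen 𝔐 (MonoidHom.id T) χ₀ then 1 else 0) →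
        ∀ x, IsLocalRing.residue O (eh x) = hO.res (a x)

open Classical in
/-- OSIX: orthogonality for the elements whose order is divisible by `ℓ`. -/
def Stmt_OSIX : Prop :=
  ∀ (T : Type) [Group T] [Fintype T] (𝔐 : Ideal (integralClosure ℤ ℂ)) (ℓ : ℕ)
    [Fact ℓ.Prime], 𝔐.IsMaximal → (ℓ : integralClosure ℤ ℂ) ∈ 𝔐 →
    ∀ χ₀ : T → ℂ, IsIrr χ₀ → ∀ g : T, ℓ ∣ orderOf g →
      ∑ χ ∈ irrF T with cen 𝔐 (MonoidHom.id T) χ = cen 𝔐 (MonoidHom.id T) χ₀,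
        χ 1 * χ g = 0

open Classical in
/-- MT2X: the values at the elements whose powers contain the subgroup of order `ℓ`. -/
def Stmt_MT2X : Prop :=
  ∀ (T : Type) [Group T] [Fintype T] (𝔐 : Ideal (integralClosure ℤ ℂ)) (ℓ n : ℕ)
    [Fact ℓ.Prime], 𝔐.IsMaximal → (ℓ : integralClosure ℤ ℂ) ∈ 𝔐 →
    ∀ χ : T → ℂ, IsIrr χ → ∀ (P₁ P : Subgroup T) [Fintype (NP P₁)] (x₀ : T),
      AtX ℓ n (cen 𝔐 (MonoidHom.id T) χ) P₁ P x₀ →
      (∀ g : NP P₁, P₁ ≤ Subgroup.zpowers (g : T) →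
        χ g = ∑ ψ ∈ irrF (NP P₁) with cen 𝔐 (Subgroup.normalizer (P₁ : Set T)).subtype ψ =
          cen 𝔐 (MonoidHom.id T) χ, ip (fun s : NP P₁ => χ s) ψ * ψ g) ∧
      ∀ g : NP P₁, (∀ u ∈ P, u * (g : T) = g * u) →
        red 𝔐 (χ g) = red 𝔐 (∑ ψ ∈ irrF (NP P₁) with
          cen 𝔐 (Subgroup.normalizer (P₁ : Set T)).subtype ψ = cen 𝔐 (MonoidHom.id T) χ,
            ip (fun s : NP P₁ => χ s) ψ * ψ g)

/-! ### The blocks of the centralizer -/

/-- REGX: the characters of a block whose defect groups contain a central subgroup of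
order `ℓ`. -/
def Stmt_REGX : Prop :=
  ∀ (C : Type) [Group C] [Fintype C] (𝔐 : Ideal (integralClosure ℤ ℂ)) (ℓ n : ℕ)
    [Fact ℓ.Prime], 𝔐.IsMaximal → (ℓ : integralClosure ℤ ℂ) ∈ 𝔐 →
    ∀ (P₁ P : Subgroup C) (x₀ : C), P₁ ≤ Subgroup.center C → ∀ φ₀ : C → ℂ, IsIrr φ₀ →
    AtX ℓ n (cen 𝔐 (MonoidHom.id C) φ₀) P₁ P x₀ →
    (∀ φ : C → ℂ, IsIrr φ → cen 𝔐 (MonoidHom.id C) φ = cen 𝔐 (MonoidHom.id C) φ₀ →
      φ 1 = φ₀ 1 ∧ ∀ g, ¬ ℓ ∣ orderOf g → φ g = φ₀ g) ∧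
    (∀ g, ℓ ∣ orderOf g → ¬ P₁ ≤ Subgroup.zpowers g → φ₀ g = 0) ∧
    ∃ m : ℕ, ¬ ℓ ∣ m ∧ (Nat.card C : ℂ) = ℓ ^ n * m * φ₀ 1

/-- FRXX: the orbits of the stabilizer of a block of the centralizer on its characters. -/
def Stmt_FRXX : Prop :=
  ∀ (N : Type) [Group N] [Fintype N] (𝔐 : Ideal (integralClosure ℤ ℂ)) (ℓ n : ℕ)
    [Fact ℓ.Prime], 𝔐.IsMaximal → (ℓ : integralClosure ℤ ℂ) ∈ 𝔐 →
    ∀ (P₁ : Subgroup N) [P₁.Normal] (C : Subgroup N) [C.Normal], Nat.card P₁ = ℓ →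
    C = Subgroup.centralizer (P₁ : Set N) → ∀ (φ₀ : C → ℂ) (P : Subgroup C) (x₀ : C),
    IsIrr φ₀ → AtX ℓ n (cen 𝔐 (MonoidHom.id C) φ₀) (P₁.subgroupOf C) P x₀ →
    C ≤ bS 𝔐 C φ₀ ∧ C.relIndex (bS 𝔐 C φ₀) ∣ ℓ - 1 ∧ C.index ∣ ℓ - 1 ∧
    ∃ φ₁ : C → ℂ, IsIrr φ₁ ∧ cen 𝔐 (MonoidHom.id C) φ₁ = cen 𝔐 (MonoidHom.id C) φ₀ ∧
      ∀ a : (C → ℂ) → ℤ, (∀ (g : N) (φ : C → ℂ), a (fun c => φ (MulAut.conjNormal g c)) = a φ) →
        ∀ v : ℤ, C.relIndex (bS 𝔐 C φ₀) ∣ Nat.card {φ : C → ℂ // IsIrr φ ∧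
          cen 𝔐 (MonoidHom.id C) φ = cen 𝔐 (MonoidHom.id C) φ₀ ∧ φ ≠ φ₁ ∧ a φ = v}

/-! ### Degrees -/

open Classical in
/-- NRMX: the norm of a character on the elements whose powers contain the subgroup of
order `ℓ`. -/
def Stmt_NRMX : Prop :=
  ∀ (T : Type) [Group T] [Fintype T] (𝔐 : Ideal (integralClosure ℤ ℂ)) (ℓ n : ℕ)
    [Fact ℓ.Prime], 𝔐.IsMaximal → (ℓ : integralClosure ℤ ℂ) ∈ 𝔐 →
    ∀ χ : T → ℂ, IsIrr χ → ∀ (P₁ P : Subgroup T) [Fintype (NP P₁)] (x₀ : T),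
      AtX ℓ n (cen 𝔐 (MonoidHom.id T) χ) P₁ P x₀ →
    ∀ (C : Subgroup (NP P₁)) [C.Normal],
      C = Subgroup.centralizer ((P₁.subgroupOf (Subgroup.normalizer (P₁ : Set T)) :
        Subgroup (NP P₁)) : Set (NP P₁)) →
    ∀ (ψ₀ : NP P₁ → ℂ) (φ₀ : C → ℂ), IsIrr ψ₀ → IsIrr φ₀ →
      cen 𝔐 (Subgroup.normalizer (P₁ : Set T)).subtype ψ₀ = cen 𝔐 (MonoidHom.id T) χ →
      ip (fun c : C => ψ₀ c) φ₀ ≠ 0 →
      ∃ a : (C → ℂ) → ℤ,
        (∀ (g : NP P₁) (φ : C → ℂ), a (fun c => φ (MulAut.conjNormal g c)) = a φ) ∧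
        (∀ φ : C → ℂ, IsIrr φ → (a φ : ℂ) = ip (fun c : C => χ ((c : NP P₁) : T)) φ) ∧
        0 ≤ (ℓ : ℤ) ^ n * (∑ φ ∈ irrF C with cen 𝔐 (MonoidHom.id C) φ =
            cen 𝔐 (MonoidHom.id C) φ₀, a φ ^ 2) -
          (∑ φ ∈ irrF C with cen 𝔐 (MonoidHom.id C) φ =
            cen 𝔐 (MonoidHom.id C) φ₀, a φ) ^ 2 ∧
        (ℓ : ℤ) ^ n * (∑ φ ∈ irrF C with cen 𝔐 (MonoidHom.id C) φ =
            cen 𝔐 (MonoidHom.id C) φ₀, a φ ^ 2) -
          (∑ φ ∈ irrF C with cen 𝔐 (MonoidHom.id C) φ =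
            cen 𝔐 (MonoidHom.id C) φ₀, a φ) ^ 2 < C.relIndex (bS 𝔐 C φ₀) * (ℓ : ℤ) ^ n ∧
        ((ℓ : ℤ) ^ n * (∑ φ ∈ irrF C with cen 𝔐 (MonoidHom.id C) φ =
            cen 𝔐 (MonoidHom.id C) φ₀, a φ ^ 2) -
          (∑ φ ∈ irrF C with cen 𝔐 (MonoidHom.id C) φ =
            cen 𝔐 (MonoidHom.id C) φ₀, a φ) ^ 2 = 0 →
          ∀ g : T, P₁ ≤ Subgroup.zpowers g → χ g = 0)

open Classical in
/-- REDX: the value modulo `𝔐` at an element centralized by the defect group. -/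
def Stmt_REDX : Prop :=
  ∀ (T : Type) [Group T] [Fintype T] (𝔐 : Ideal (integralClosure ℤ ℂ)) (ℓ n : ℕ)
    [Fact ℓ.Prime], 𝔐.IsMaximal → (ℓ : integralClosure ℤ ℂ) ∈ 𝔐 →
    ∀ χ : T → ℂ, IsIrr χ → ∀ (P₁ P : Subgroup T) [Fintype (NP P₁)] (x₁ : T),
      AtX ℓ n (cen 𝔐 (MonoidHom.id T) χ) P₁ P x₁ → ¬ ℓ ∣ orderOf x₁ →
    ∀ (C : Subgroup (NP P₁)) [C.Normal],
      C = Subgroup.centralizer ((P₁.subgroupOf (Subgroup.normalizer (P₁ : Set T)) :
        Subgroup (NP P₁)) : Set (NP P₁)) →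
    ∀ (ψ₀ : NP P₁ → ℂ) (φ₀ : C → ℂ), IsIrr ψ₀ → IsIrr φ₀ →
      cen 𝔐 (Subgroup.normalizer (P₁ : Set T)).subtype ψ₀ = cen 𝔐 (MonoidHom.id T) χ →
      ip (fun c : C => ψ₀ c) φ₀ ≠ 0 → ∀ a : (C → ℂ) → ℤ,
        (∀ (g : NP P₁) (φ : C → ℂ), a (fun c => φ (MulAut.conjNormal g c)) = a φ) →
        (∀ φ : C → ℂ, IsIrr φ → (a φ : ℂ) = ip (fun c : C => χ ((c : NP P₁) : T)) φ) →
        ¬ (ℓ : ℤ) ∣ ∑ φ ∈ irrF C with cen 𝔐 (MonoidHom.id C) φ =
            cen 𝔐 (MonoidHom.id C) φ₀, a φ →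
        red 𝔐 (χ x₁) ≠ 0

/-- COMX: a combinatorial lemma. -/
def Stmt_COMX : Prop :=
  ∀ (ℓ n e : ℕ) [Fact ℓ.Prime], 2 ≤ n → 0 < e → e ∣ ℓ - 1 → ∀ (I : Type) [Fintype I],
    Fintype.card I = ℓ ^ n → ∀ (i₀ : I) (a : I → ℤ),
    (∀ v : ℤ, e ∣ Nat.card {i : I // i ≠ i₀ ∧ a i = v}) →
    0 < (ℓ : ℤ) ^ n * (∑ i, a i ^ 2) - (∑ i, a i) ^ 2 →
    (ℓ : ℤ) ^ n * (∑ i, a i ^ 2) - (∑ i, a i) ^ 2 < e * (ℓ : ℤ) ^ n →
    ¬ (ℓ : ℤ) ∣ ∑ i, a i

/-- HGTX: the degrees of the characters of a block with cyclic defect groups. -/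
def Stmt_HGTX : Prop :=
  ∀ (T : Type) [Group T] [Fintype T] (𝔐 : Ideal (integralClosure ℤ ℂ)) (ℓ n : ℕ)
    [Fact ℓ.Prime], 𝔐.IsMaximal → (ℓ : integralClosure ℤ ℂ) ∈ 𝔐 →
    ∀ χ : T → ℂ, IsIrr χ → ∀ (P₁ P : Subgroup T) (x₀ : T),
      AtX ℓ n (cen 𝔐 (MonoidHom.id T) χ) P₁ P x₀ →
      ∃ m : ℕ, ¬ ℓ ∣ m ∧ (Nat.card T : ℂ) = ℓ ^ n * m * χ 1

end Pool.Agent.DPX


end

section

/-!
# VALX: existence of the valuation ring
-/

set_option autoImplicit false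

namespace Pool.Agent.DPX

namespace VALX

/-- The residue field of a valuation ring of an algebraically closed field is algebraically
closed. -/
theorem acl {K : Type} [Field K] [IsAlgClosed K] (O : ValuationSubring K) :
    IsAlgClosed (IsLocalRing.ResidueField O) := by
  apply IsAlgClosed.of_exists_root
  intro p hp hirr
  obtain ⟨q, hq, hqd, hqm⟩ := Polynomial.lifts_and_natDegree_eq_and_monic
    (Polynomial.mem_lifts_of_surjective (IsLocalRing.residue_surjective (R := O)) p) hp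
  have hdeg : (q.map (algebraMap O K)).degree ≠ 0 := by
    rw [hqm.degree_map]
    intro h
    have h1 : q.natDegree = 0 := Polynomial.natDegree_eq_of_degree_eq_some h
    rw [hqd] at h1
    exact hirr.natDegree_pos.ne' h1
  obtain ⟨α, hα⟩ := IsAlgClosed.exists_root (q.map (algebraMap O K)) hdeg
  have hint : IsIntegral O α := by
    refine ⟨q, hqm, ?_⟩
    rw [Polynomial.eval₂_eq_eval_map]
    exact hα
  obtain ⟨y, hy⟩ := (IsIntegrallyClosed.isIntegral_iff (K := K)).1 hint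
  have h1 : q.eval y = 0 := by
    have h2 : algebraMap O K (q.eval y) = 0 := by
      have h3 := hα
      rw [Polynomial.IsRoot.def, ← hy, Polynomial.eval_map_algebraMap,
        Polynomial.aeval_algebraMap_apply] at h3
      exact h3
    have h3 : Function.Injective (algebraMap O K) := Subtype.val_injective
    apply h3
    rw [h2, map_zero]
  refine ⟨IsLocalRing.residue O y, ?_⟩
  rw [← hq, Polynomial.eval_map_apply, h1, map_zero]

end VALX

theorem VALX_thm : Stmt_VALX := by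
  intro 𝔐 ℓ hℓ hmax hmem
  obtain ⟨A, hA⟩ : ∃ A : Subring ℂ, A = (integralClosure ℤ ℂ).toSubring := ⟨_, rfl⟩
  have hAm : ∀ x : ℂ, x ∈ A ↔ x ∈ integralClosure ℤ ℂ := by
    intro x
    rw [hA]
    rfl
  let φ : A →+* integralClosure ℤ ℂ :=
    { toFun := fun x => ⟨(x : ℂ), (hAm _).1 x.2⟩
      map_one' := rfl
      map_mul' := fun _ _ => rfl
      map_zero' := rfl
      map_add' := fun _ _ => rfl }
  have hI : 𝔐.comap φ ≠ ⊤ := Ideal.comap_ne_top φ hmax.ne_top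
  obtain ⟨O, hO, hOn⟩ := Ideal.image_subset_nonunits_valuationSubring (𝔐.comap φ) hI
  have hint : ∀ x : integralClosure ℤ ℂ, (x : ℂ) ∈ O := fun x => hO ((hAm _).2 x.2)
  have hlt : ∀ x : integralClosure ℤ ℂ, x ∈ 𝔐 → O.valuation (x : ℂ) < 1 := by
    intro x hx
    rw [← ValuationSubring.mem_nonunits_iff]
    apply hOn
    exact ⟨⟨(x : ℂ), (hAm _).2 x.2⟩, hx, rfl⟩
  refine ⟨O, hint, ?_, VALX.acl O, ?_⟩
  · intro x
    refine ⟨hlt x, ?_⟩
    intro hx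
    by_contra hcon
    obtain ⟨y, i, hi, hyi⟩ := hmax.exists_inv hcon
    have h1 : (y : ℂ) * (x : ℂ) + (i : ℂ) = 1 := congrArg Subtype.val hyi
    have h2 : O.valuation ((y : ℂ) * (x : ℂ)) < 1 := by
      rw [map_mul]
      have hy : O.valuation (y : ℂ) ≤ 1 := (ValuationSubring.valuation_le_one_iff O _).2 (hint y)
      refine (mul_le_mul' hy (le_refl (O.valuation (x : ℂ)))).trans_lt ?_
      rw [one_mul]
      exact hx
    have h3 : O.valuation ((y : ℂ) * (x : ℂ) + (i : ℂ)) < 1 :=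
      O.valuation.map_add_lt h2 (hlt i hi)
    rw [h1, map_one] at h3
    exact lt_irrefl _ h3
  · have h0 : ((ℓ : ℕ) : IsLocalRing.ResidueField O) = 0 := by
      have h1 : IsLocalRing.residue O ((ℓ : ℕ) : O) = 0 := by
        rw [IsLocalRing.residue_eq_zero_iff, ValuationSubring.valuation_lt_one_iff]
        exact hlt _ hmem
      rw [← h1, map_natCast]
    obtain ⟨q, hq⟩ := CharP.exists (IsLocalRing.ResidueField O)
    have h1 : q ∣ ℓ := (CharP.cast_eq_zero_iff _ q ℓ).1 h0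
    rcases (Nat.dvd_prime hℓ.out).1 h1 with h2 | h2
    · exact absurd h2 (CharP.char_ne_one (IsLocalRing.ResidueField O) q)
    · rw [← h2]
      exact hq

end Pool.Agent.DPX


end

section

/-!
# ABL: characters over the same character of a normal subgroup with abelian quotient
-/

set_option autoImplicit false

namespace Pool.Agent.DPV

open Pool.Agent.DP Pool.Agent.Lib_helper13 Representation
open Pool.Agent.Lib_helper13.Dade (pCore DadeHolds dadeSum)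

namespace ABL

/-- The product of an irreducible character and a linear character is irreducible. -/
theorem irr_mul_lin {N : Type} [Group N] [Fintype N] {ψ : N → ℂ} (hψ : IsIrr ψ)
    (lam : N →* ℂˣ) : IsIrr (fun x => ψ x * ((lam x : ℂˣ) : ℂ)) := by
  refine (hψ.isChr.mul (isChr_lin lam)).isIrr ?_
  rw [← hψ.sum_self]
  refine Finset.sum_congr rfl fun g _ => ?_
  have h : ((lam g : ℂˣ) : ℂ) * ((lam g⁻¹ : ℂˣ) : ℂ) = 1 := by
    rw [← Units.val_mul, ← map_mul, mul_inv_cancel, map_one, Units.val_one]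
  calc ψ g * ((lam g : ℂˣ) : ℂ) * (ψ g⁻¹ * ((lam g⁻¹ : ℂˣ) : ℂ))
      = ψ g * ψ g⁻¹ * (((lam g : ℂˣ) : ℂ) * ((lam g⁻¹ : ℂˣ) : ℂ)) := by ring
    _ = ψ g * ψ g⁻¹ := by rw [h, mul_one]

theorem key {N A : Type} [Group N] [Fintype N] [CommGroup A] [Finite A] (π : N →* A)
    (C : Subgroup N) (hC : ∀ x, x ∈ C ↔ π x = 1) [Fintype C] {ψ ψ' : N → ℂ} (hψ : IsIrr ψ)
    (hψ' : IsIrr ψ') (h : ∀ μ : A →* ℂˣ, ψ' ≠ fun x => ψ x * ((μ (π x) : ℂˣ) : ℂ)) :
    ip (fun c : C => ψ c) (fun c : C => ψ' c) = 0 := by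
  classical
  have : Fintype (A →* ℂˣ) := Fintype.ofFinite _
  have h1 : ∀ μ : A →* ℂˣ, ∑ x, ψ x * ((μ (π x) : ℂˣ) : ℂ) * ψ' x⁻¹ = 0 := by
    intro μ
    have h2 := irr_mul_lin hψ (μ.comp π)
    exact h2.sum_ne hψ' (fun h3 => h μ h3.symm)
  have h2 : ∑ μ : A →* ℂˣ, ∑ x, ψ x * ((μ (π x) : ℂˣ) : ℂ) * ψ' x⁻¹ = 0 :=
    Finset.sum_eq_zero fun μ _ => h1 μ
  rw [Finset.sum_comm] at h2
  have h3 : ∀ x : N, ∑ μ : A →* ℂˣ, ψ x * ((μ (π x) : ℂˣ) : ℂ) * ψ' x⁻¹ =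
      if x ∈ C then (Fintype.card (A →* ℂˣ) : ℂ) * (ψ x * ψ' x⁻¹) else 0 := by
    intro x
    have h4 : ∑ μ : A →* ℂˣ, ψ x * ((μ (π x) : ℂˣ) : ℂ) * ψ' x⁻¹ =
        (∑ μ : A →* ℂˣ, ((μ (π x) : ℂˣ) : ℂ)) * (ψ x * ψ' x⁻¹) := by
      rw [Finset.sum_mul]
      exact Finset.sum_congr rfl fun μ _ => by ring
    rw [h4]
    split_ifs with hx
    · rw [(hC x).1 hx]
      simp
    · rw [sum_dual (fun h5 => hx ((hC x).2 h5)), zero_mul]
  simp only [h3] at h2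
  rw [← Finset.sum_filter, ← Finset.mul_sum] at h2
  have h5 : (Fintype.card (A →* ℂˣ) : ℂ) ≠ 0 := by
    have : Fintype.card (A →* ℂˣ) ≠ 0 := Fintype.card_ne_zero
    exact_mod_cast this
  have h6 : ∑ x ∈ Finset.univ.filter (fun x => x ∈ C), ψ x * ψ' x⁻¹ = 0 := by
    rcases mul_eq_zero.1 h2 with h7 | h7
    · exact absurd h7 h5
    · exact h7
  rw [Finset.sum_subtype (p := fun x => x ∈ C) _ (fun x => by simp)] at h6
  rw [ip]
  have h7 : ∑ g : C, ψ (g : N) * ψ' ((g⁻¹ : C) : N) = 0 := by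
    rw [← h6]
    exact Finset.sum_congr rfl fun g _ => rfl
  rw [h7, zero_div]

theorem ip_pos {C : Type} [Group C] [Fintype C] {f f' φ : C → ℂ} (hf : IsChr f)
    (hf' : IsChr f') (hφ : IsIrr φ) (h : ip f φ ≠ 0) (h' : ip f' φ ≠ 0) : ip f f' ≠ 0 := by
  classical
  rw [ip_expand f f' (fun g x => hf.conj_eq g x)]
  have h1 : ∀ χ : C → ℂ, ∃ m : ℕ, (IsIrr χ → ip f χ * ip χ f' = (m : ℂ)) ∧
      (χ = φ → m ≠ 0) := by
    intro χ
    by_cases hχ : IsIrr χ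
    · obtain ⟨m, hm⟩ := hf.exists_ip hχ.isChr
      obtain ⟨m', hm'⟩ := hχ.isChr.exists_ip hf'
      refine ⟨m * m', fun _ => by rw [hm, hm']; push_cast; ring, ?_⟩
      rintro rfl h0
      rcases Nat.mul_eq_zero.1 h0 with h0 | h0
      · exact h (by rw [hm, h0]; simp)
      · exact h' (by rw [ip_comm, hm', h0]; simp)
    · exact ⟨1, fun h2 => absurd h2 hχ, fun h2 => absurd (h2 ▸ hφ) hχ⟩
  choose m hm hm' using h1
  have h2 : ∑ χ ∈ irrF C, ip f χ * ip χ f' = ((∑ χ ∈ irrF C, m χ : ℕ) : ℂ) := by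
    rw [Nat.cast_sum]
    exact Finset.sum_congr rfl fun χ hχ => hm χ (mem_irrF.1 hχ)
  rw [h2]
  have h3 : ∑ χ ∈ irrF C, m χ ≠ 0 := by
    intro h4
    have h5 := Finset.sum_eq_zero_iff.1 h4 φ (mem_irrF.2 hφ)
    exact hm' φ rfl h5
  exact_mod_cast h3

end ABL

open _root_.Pool.Agent.DPV.ABL in
/-- ABL. -/
theorem ABL_thm : Stmt_ABL := by
  intro N _ _ C _ hcomm ψ ψ' hψ hψ' φ hφ h h'
  let A := N ⧸ C
  let _ : CommGroup A :=
    { (inferInstance : Group (N ⧸ C)) with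
      mul_comm := by
        intro a b
        induction a using QuotientGroup.induction_on with
        | H x =>
          induction b using QuotientGroup.induction_on with
          | H y =>
            refine QuotientGroup.eq.2 ?_
            have h1 := hcomm y⁻¹ x⁻¹
            have h2 : (x * y)⁻¹ * (y * x) = y⁻¹ * x⁻¹ * (y⁻¹)⁻¹ * (x⁻¹)⁻¹ := by group
            rw [h2]
            exact h1 }
  have hfin : Finite A := Quotient.finite _
  let π : N →* A := QuotientGroup.mk' C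
  have hC : ∀ x, x ∈ C ↔ π x = 1 := fun x => (QuotientGroup.eq_one_iff x).symm
  by_contra hcon
  push Not at hcon
  have h1 : ∀ μ : A →* ℂˣ, ψ' ≠ fun x => ψ x * ((μ (π x) : ℂˣ) : ℂ) := by
    intro μ
    refine hcon (μ.comp π) ?_
    intro c hc
    show μ (π c) = 1
    rw [(hC c).1 hc, map_one]
  have h2 := key π C hC hψ hψ' h1
  have h3 : IsChr (fun c : C => ψ c) := hψ.isChr.comp C.subtype
  have h4 : IsChr (fun c : C => ψ' c) := hψ'.isChr.comp C.subtype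
  exact ip_pos h3 h4 hφ h h' h2

end Pool.Agent.DPV


end

section

/-!
# Theorem X, module FXGX: the normalizer of the subgroup of order `ℓ` of a defect group of an
invariant block
-/

namespace Pool.Agent.DPX

open Pool.Agent.DP Pool.Agent.DPV Pool.Agent.DPB Pool.Agent.DPW Pool.Agent.Lib_helper13
open Representation

namespace FXGX

theorem card_cen_map {G : Type} [Group G] (e : MulAut G) (x : G) :
    Nat.card (Subgroup.centralizer ({e x} : Set G)) =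
      Nat.card (Subgroup.centralizer ({x} : Set G)) := by
  have h : Subgroup.centralizer ({e x} : Set G) =
      (Subgroup.centralizer ({x} : Set G)).map e.toMonoidHom := by
    ext y
    simp only [Subgroup.mem_map, Subgroup.mem_centralizer_iff, Set.mem_singleton_iff, forall_eq]
    constructor
    · intro hy
      refine ⟨e.symm y, ?_, ?_⟩
      · apply e.injective
        rw [map_mul, map_mul, MulEquiv.apply_symm_apply]
        exact hy
      · exact e.apply_symm_apply y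
    · rintro ⟨z, hz, rfl⟩
      change e x * e z = e z * e x
      rw [← map_mul, ← map_mul, hz]
  rw [h]
  exact Nat.card_congr (Subgroup.equivMapOfInjective _ _ e.injective).toEquiv.symm

theorem atX_map {G B F : Type} [Group G] [Group B] [Zero F] {ℓ n : ℕ} {κ : B →* MulAut G}
    {ω : G → F} {P₁ P : Subgroup G} {x₀ : G} (h : AtX ℓ n ω P₁ P x₀)
    (hω : ∀ b g, ω (κ b g) = ω g) (b : B) :
    AtX ℓ n ω (P₁.map (κ b).toMonoidHom) (P.map (κ b).toMonoidHom) (κ b x₀) := by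
  refine ⟨⟨Subgroup.map_mono h.cd.le, ?_, ?_, ?_, ?_, ?_⟩, ?_, h.mn⟩
  · rw [← h.cd.c1]
    exact Nat.card_congr (Subgroup.equivMapOfInjective P₁ _ (κ b).injective).toEquiv.symm
  · have := h.cd.cyc
    exact isCyclic_of_surjective (Subgroup.equivMapOfInjective P (κ b).toMonoidHom
      (κ b).injective) (Subgroup.equivMapOfInjective P _ (κ b).injective).surjective
  · rw [← h.cd.card]
    exact Nat.card_congr (Subgroup.equivMapOfInjective P _ (κ b).injective).toEquiv.symm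
  · rintro u ⟨v, hv, rfl⟩
    change κ b v * κ b x₀ = κ b x₀ * κ b v
    rw [← map_mul, ← map_mul, h.cd.cen v hv]
  · rw [card_cen_map]
    exact h.cd.sq
  · rw [hω]
    exact h.ne

end FXGX

theorem FXGX_thm (h1 : Stmt_DXMX) : Stmt_FXGX := by
  classical
  intro G B C _ _ _ _ _ 𝔐 ℓ n _ hmax hℓ ι κ ρ h ω P₁ P x₀ hA hω hex
  obtain ⟨θ, hθ, hc⟩ := hex
  subst hc
  rw [eq_top_iff]
  rintro c -
  obtain ⟨b, rfl⟩ := h.surj c
  have hAb := FXGX.atX_map hA hω b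
  obtain ⟨-, -, -, h2⟩ := (h1 G 𝔐 ℓ hmax hℓ θ hθ).2 n P₁ P x₀ hA
  obtain ⟨-, t, ht, -⟩ := h2 n _ _ _ hAb
  have h5 : P₁ = (P₁.map (κ b).toMonoidHom).map (MulAut.conj t⁻¹).toMonoidHom := by
    rw [ht, Subgroup.map_map]
    have h6 : ((MulAut.conj t⁻¹).toMonoidHom).comp (MulAut.conj t).toMonoidHom =
        MonoidHom.id G := by
      ext a
      change t⁻¹ * (t * a * t⁻¹) * t⁻¹⁻¹ = a
      group
    rw [h6, Subgroup.map_id]
  have hcl := h.cl
  refine ⟨ι t⁻¹ * b, ?_, ?_⟩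
  · change ι t⁻¹ * b ∈ stb (mapCh ι {P₁})
    rw [mem_stb]
    intro D hD'
    obtain ⟨E, hE, rfl⟩ := mem_mapCh.mp hD'
    rw [Finset.mem_singleton] at hE
    subst hE
    have h6 : ((MulAut.conj (ι t⁻¹ * b)).toMonoidHom).comp ι =
        ι.comp (((MulAut.conj t⁻¹).toMonoidHom).comp (κ b).toMonoidHom) := by
      ext a
      change (ι t⁻¹ * b) * ι a * (ι t⁻¹ * b)⁻¹ = ι (t⁻¹ * κ b a * t⁻¹⁻¹)
      rw [map_mul, map_mul, map_inv ι t⁻¹, hcl.act, mul_inv_rev]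
      simp only [mul_assoc]
    rw [Subgroup.map_map, h6, ← Subgroup.map_map, ← Subgroup.map_map, ← h5]
  · rw [map_mul, (hcl.ker (ι t⁻¹)).mpr ⟨t⁻¹, rfl⟩, one_mul]

end Pool.Agent.DPX


end

section

/-!
# Theorem X: extension of the field of coefficients
-/

namespace Pool.Agent.DPX

open Pool.Agent.DPB Pool.Agent.DPW Representation

set_option linter.unusedSectionVars false

namespace FEXX

variable {F K T : Type} [Field F] [Field K] [Group T] [Fintype T]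

theorem cvF_map (f : F →+* K) (a b : T → F) :
    cvF (fun x => f (a x)) (fun x => f (b x)) = fun x => f (cvF a b x) := by
  funext x
  simp only [cvF, map_sum, map_mul]

theorem cf_map (f : F →+* K) (a : T → F) (ha : a ∈ CF F T) :
    (fun x => f (a x)) ∈ CF K T := by
  intro g x
  exact congrArg f (ha g x)

open Classical in
theorem clsF_map (f : F →+* K) (x₀ : T) :
    (fun x => f (clsF F x₀ x)) = clsF K x₀ := by
  funext x
  simp only [clsF]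
  by_cases h : ∃ g, x = g * x₀ * g⁻¹
  · rw [if_pos h, if_pos h, map_one]
  · rw [if_neg h, if_neg h, map_zero]

open Classical in
theorem single_map (f : F →+* K) (g : T) :
    (fun x => f ((Pi.single g 1 : T → F) x)) = (Pi.single g 1 : T → K) := by
  funext x
  by_cases h : x = g
  · subst h
    rw [Pi.single_eq_same, Pi.single_eq_same, map_one]
  · rw [Pi.single_eq_of_ne h, Pi.single_eq_of_ne h, map_zero]

theorem cvp_map (f : F →+* K) (z : T → F) (k : ℕ) :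
    cvp (fun x => f (z x)) k = fun x => f (cvp z k x) := by
  induction k with
  | zero =>
    rw [cvp, cvp]
    exact (single_map f 1).symm
  | succ k ih =>
    rw [cvp, cvp, ih]
    exact cvF_map f (cvp z k) z

theorem zero_map (f : F →+* K) : (fun x => f ((0 : T → F) x)) = (0 : T → K) := by
  funext x
  exact map_zero f

theorem cvF_smul (r : F) (a b : T → F) : cvF a (r • b) = r • cvF a b := by
  funext x
  simp only [cvF, Pi.smul_apply, smul_eq_mul, Finset.mul_sum]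
  refine Finset.sum_congr rfl fun y _ => ?_
  ring

theorem cvF_sum {ι : Type} (s : Finset ι) (a : T → F) (b : ι → T → F) :
    cvF a (∑ i ∈ s, b i) = ∑ i ∈ s, cvF a (b i) := by
  funext x
  simp only [cvF, Finset.sum_apply, Finset.mul_sum]
  exact Finset.sum_comm

open Classical in
theorem eq_sum_single (a : T → F) : a = ∑ g, a g • (Pi.single g 1 : T → F) := by
  funext x
  rw [Finset.sum_apply, Finset.sum_eq_single x]
  · rw [Pi.smul_apply, Pi.single_eq_same, smul_eq_mul, mul_one]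
  · intro y _ hy
    rw [Pi.smul_apply, Pi.single_eq_of_ne (Ne.symm hy), smul_zero]
  · intro h
    exact absurd (Finset.mem_univ x) h

theorem sum_map (f : F →+* K) {ι : Type} (s : Finset ι) (b : ι → T → F) :
    (fun x => f ((∑ i ∈ s, b i) x)) = ∑ i ∈ s, fun x => f (b i x) := by
  funext x
  rw [Finset.sum_apply, Finset.sum_apply, map_sum]

theorem smul_map (f : F →+* K) (r : F) (b : T → F) :
    (fun x => f ((r • b) x)) = f r • fun x => f (b x) := by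
  funext x
  rw [Pi.smul_apply, Pi.smul_apply, smul_eq_mul, smul_eq_mul, map_mul]

theorem inj_map (f : F →+* K) {a : T → F} (h : (fun x => f (a x)) = 0) : a = 0 := by
  funext x
  have h1 : f (a x) = 0 := congrFun h x
  exact (map_eq_zero f).mp h1

theorem bkx_map (f : F →+* K) (ℓ n : ℕ) (P₁ P : Subgroup T) (x₀ : T) (e : T → F)
    (H : BKX ℓ n P₁ P x₀ e) : BKX ℓ n P₁ P x₀ (fun x => f (e x)) where
  cd := H.cd
  cf := cf_map f e H.cf
  idem := by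
    rw [cvF_map, H.idem]
  fac := by
    obtain ⟨y, hy, h⟩ := H.fac
    refine ⟨fun x => f (y x), cf_map f y hy, ?_⟩
    rw [← clsF_map f x₀, cvF_map, ← h]
  nz := by
    obtain ⟨h, h1, h2⟩ := H.nz
    exact ⟨h, (map_ne_zero f).mpr h1, h2⟩

theorem brz_map (f : F →+* K) (P₁ : Subgroup T) (e : T → F) :
    brz P₁ (fun x => f (e x)) = fun x => f (brz P₁ e x) := by
  funext x
  simp only [brz]
  by_cases h : (x : T) ∈ Subgroup.centralizer (P₁ : Set T)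
  · rw [if_pos h, if_pos h]
  · rw [if_neg h, if_neg h, map_zero]

open Classical in
theorem sp_map (f : F →+* K) (e : T → F) (m c : ℕ) (E : Fin m → Fin m → T → F) (z : T → F)
    (H : NilB e m c E z) (g : T) : ∃ t : ℕ → Fin m → Fin m → K,
    cvF (fun x => f (e x)) (Pi.single g 1 : T → K) = ∑ k ∈ Finset.range c, ∑ i, ∑ j,
      t k i j • cvF (cvp (fun x => f (z x)) k) (fun x => f (E i j x)) := by
  obtain ⟨t, ht⟩ := H.sp (Pi.single g 1)
  refine ⟨fun k i j => f (t k i j), ?_⟩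
  rw [← single_map f g, cvF_map, ht, sum_map]
  refine Finset.sum_congr rfl fun k _ => ?_
  rw [sum_map]
  refine Finset.sum_congr rfl fun i _ => ?_
  rw [sum_map]
  refine Finset.sum_congr rfl fun j _ => ?_
  rw [smul_map, cvp_map, cvF_map]

theorem nilB_map (f : F →+* K) (e : T → F) (m c : ℕ) (E : Fin m → Fin m → T → F) (z : T → F)
    (H : NilB e m c E z) :
    NilB (fun x => f (e x)) m c (fun i j x => f (E i j x)) (fun x => f (z x)) where
  mu := by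
    intro i j k l
    rw [cvF_map, H.mu i j k l]
    by_cases h : j = k
    · rw [if_pos h, if_pos h]
    · rw [if_neg h, if_neg h]
      exact zero_map f
  on := by
    rw [← sum_map f Finset.univ (fun i => E i i), H.on]
  zc := cf_map f z H.zc
  ze := by
    rw [cvF_map, H.ze]
  sp := by
    classical
    intro a
    choose t ht using sp_map f e m c E z H
    refine ⟨fun k i j => ∑ g, a g * t g k i j, ?_⟩
    calc cvF (fun x => f (e x)) a
        = cvF (fun x => f (e x)) (∑ g, a g • (Pi.single g 1 : T → K)) := by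
          rw [← eq_sum_single a]
      _ = ∑ g, a g • ∑ k ∈ Finset.range c, ∑ i, ∑ j,
            t g k i j • cvF (cvp (fun x => f (z x)) k) (fun x => f (E i j x)) := by
          rw [cvF_sum]
          refine Finset.sum_congr rfl fun g _ => ?_
          rw [cvF_smul, ht g]
      _ = ∑ k ∈ Finset.range c, ∑ i, ∑ j, (∑ g, a g * t g k i j) •
            cvF (cvp (fun x => f (z x)) k) (fun x => f (E i j x)) := by
          simp only [Finset.smul_sum, Finset.sum_smul, smul_smul]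
          rw [Finset.sum_comm]
          refine Finset.sum_congr rfl fun k _ => ?_
          rw [Finset.sum_comm]
          refine Finset.sum_congr rfl fun i _ => ?_
          rw [Finset.sum_comm]
  nl := by
    rw [cvp_map, cvF_map, H.nl]
    exact zero_map f
  nn := by
    intro k hk h
    rw [cvp_map, cvF_map] at h
    exact H.nn k hk (inj_map f h)

end FEXX

theorem FEXX_thm : Stmt_FEXX := by
  intro ℓ n F K T _ _ _ _ f
  exact ⟨FEXX.cvF_map f, FEXX.cf_map f, FEXX.bkx_map f ℓ n, FEXX.brz_map f, FEXX.nilB_map f⟩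

end Pool.Agent.DPX


end

section

/-!
# FRXX: the orbits of the stabilizer of a block of the centralizer on its characters
-/

namespace Pool.Agent.DPX

open Pool.Agent.DP Pool.Agent.DPV Pool.Agent.DPB Pool.Agent.DPW Pool.Agent.Lib_helper13
open Representation

namespace FRXX

theorem exists_pow {H : Type} [Group H] (P : Subgroup H) [P.Normal] (ℓ : ℕ) [hl : Fact ℓ.Prime]
    (hc : Nat.card P = ℓ) (g : H) : ∃ a : ℤ, ∀ u ∈ P, g * u * g⁻¹ = u ^ a := by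
  have hcyc : IsCyclic P := isCyclic_of_prime_card hc
  obtain ⟨a, ha⟩ := MonoidHom.map_cyclic ((MulAut.conjNormal g : P ≃* P) : P →* P)
  refine ⟨a, fun u hu => ?_⟩
  have h1 := congrArg Subtype.val (ha ⟨u, hu⟩)
  exact h1

/-- Commutators act trivially on a normal subgroup of prime order. -/
theorem comm_act {H : Type} [Group H] (P : Subgroup H) [P.Normal] (ℓ : ℕ) [hl : Fact ℓ.Prime]
    (hc : Nat.card P = ℓ) (g h : H) : ∀ u ∈ P, (g * h * g⁻¹ * h⁻¹) * u = u * (g * h * g⁻¹ * h⁻¹) := by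
  obtain ⟨a, ha⟩ := exists_pow P ℓ hc g
  obtain ⟨b, hb⟩ := exists_pow P ℓ hc h
  have hz : ∀ (x : H) (n : ℤ) (u : H), x * u ^ n * x⁻¹ = (x * u * x⁻¹) ^ n := by
    intro x n u
    exact (conj_zpow).symm
  have h1 : ∀ u ∈ P, g * h * u * (g * h)⁻¹ = h * g * u * (h * g)⁻¹ := by
    intro u hu
    calc g * h * u * (g * h)⁻¹ = g * (h * u * h⁻¹) * g⁻¹ := by group
      _ = (u ^ a) ^ b := by rw [hb u hu, hz, ha u hu]
      _ = h * (g * u * g⁻¹) * h⁻¹ := by rw [ha u hu, hz, hb u hu, ← zpow_mul, ← zpow_mul, mul_comm]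
      _ = h * g * u * (h * g)⁻¹ := by group
  intro u hu
  have hv : (h * g)⁻¹ * u * (h * g) ∈ P := by
    have := (inferInstance : P.Normal).conj_mem u hu (h * g)⁻¹
    rwa [inv_inv] at this
  have h2 := h1 _ hv
  have h3 : h * g * ((h * g)⁻¹ * u * (h * g)) * (h * g)⁻¹ = u := by group
  rw [h3] at h2
  calc g * h * g⁻¹ * h⁻¹ * u = (g * h * ((h * g)⁻¹ * u * (h * g)) * (g * h)⁻¹) *
        (g * h * g⁻¹ * h⁻¹) := by group
    _ = u * (g * h * g⁻¹ * h⁻¹) := by rw [h2]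

/-- The central function and automorphisms. -/
theorem cen_aut {A : Type} [Group A] [Fintype A] (𝔐 : Ideal (integralClosure ℤ ℂ))
    (θ : A → ℂ) (σ : MulAut A) (g : A) :
    cen 𝔐 (MonoidHom.id A) (fun x => θ (σ x)) g = cen 𝔐 (MonoidHom.id A) θ (σ g) := by
  rw [cen, cen, ← wt_comp_equiv (σ : A ≃* A) θ (fun y => conjInd (MonoidHom.id A y) (σ g))]
  congr 2
  funext y
  refine conjInd_congr ⟨fun h => ?_, fun h => ?_⟩
  · obtain ⟨a, ha⟩ := isConj_iff.mp h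
    refine isConj_iff.mpr ⟨σ a, ?_⟩
    change σ a * σ y * (σ a)⁻¹ = σ g
    rw [← map_mul, ← map_inv, ← map_mul]
    exact congrArg σ ha
  · obtain ⟨a, ha⟩ := isConj_iff.mp h
    refine isConj_iff.mpr ⟨σ⁻¹ a, ?_⟩
    apply σ.injective
    rw [map_mul, map_mul, map_inv]
    have h1 : σ (σ⁻¹ a) = a := MulAut.apply_inv_self _ _ _
    rw [h1]
    exact ha

/-- If all stabilizers are equal, the index of the stabilizer divides the number of points. -/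
theorem card_dvd {G X : Type*} [Group G] [MulAction G X] (S : Subgroup G)
    (h : ∀ x : X, MulAction.stabilizer G x = S) : S.index ∣ Nat.card X := by
  classical
  have e1 := MulAction.selfEquivSigmaOrbitsQuotientStabilizer G X
  have e2 : (Σ ω : MulAction.orbitRel.Quotient G X, G ⧸ MulAction.stabilizer G ω.out) ≃
      (Σ _ : MulAction.orbitRel.Quotient G X, G ⧸ S) :=
    Equiv.sigmaCongrRight fun ω => Subgroup.quotientEquivOfEq (h _)
  have e3 := Equiv.sigmaEquivProd (MulAction.orbitRel.Quotient G X) (G ⧸ S)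
  rw [Nat.card_congr (e1.trans (e2.trans e3)), Nat.card_prod]
  exact dvd_mul_left _ _

end FRXX

open _root_.Pool.Agent.DPX.FRXX in
/-- FRXX: the orbits of the stabilizer of a block of the centralizer on its characters. -/
theorem FRXX_thm (h1 : Stmt_ACTX) : Stmt_FRXX := by
  intro N _ _ 𝔐 ℓ n _ h𝔐 hℓ P₁ _ C _ hPc hC φ₀ P x₀ hφ₀ hat
  classical
  have hlp : ℓ.Prime := Fact.out
  have hCmem : ∀ x, x ∈ C ↔ ∀ u ∈ P₁, x * u = u * x := by
    intro x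
    rw [hC, Subgroup.mem_centralizer_iff]
    exact ⟨fun h u hu => (h u hu).symm, fun h u hu => (h u hu).symm⟩
  have hcyc : IsCyclic P₁ := isCyclic_of_prime_card hPc
  have hcomm := comm_act P₁ ℓ hPc
  have hBmem : ∀ g, g ∈ bS 𝔐 C φ₀ ↔ ∀ x, cen 𝔐 (MonoidHom.id C) φ₀ (MulAut.conjNormal g x) =
      cen 𝔐 (MonoidHom.id C) φ₀ x := fun g => Iff.rfl
  have hcf : ∀ φ : C → ℂ, IsIrr φ → ∀ c ∈ C, ∀ x : C, φ (MulAut.conjNormal c x) = φ x := by
    intro φ hφ c hc x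
    have h2 : MulAut.conjNormal c x = (⟨c, hc⟩ : C) * x * (⟨c, hc⟩ : C)⁻¹ := Subtype.ext rfl
    rw [h2, hφ.conj_eq]
  have hCB : C ≤ bS 𝔐 C φ₀ := by
    intro c hc
    rw [hBmem]
    intro x
    have h2 : (fun y : C => φ₀ (MulAut.conjNormal c y)) = φ₀ := funext (hcf φ₀ hφ₀ c hc)
    rw [← cen_aut 𝔐 φ₀ (MulAut.conjNormal c) x, h2]
  have hidx : C.index ∣ ℓ - 1 := by
    let f : N →* MulAut P₁ := MulAut.conjNormal
    have hker : f.ker = C := by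
      ext x
      rw [MonoidHom.mem_ker, hCmem]
      constructor
      · intro hx u hu
        have h1 : ((f x) ⟨u, hu⟩ : N) = u := by
          rw [hx]
          rfl
        have h2 : x * u * x⁻¹ = u := h1
        exact mul_inv_eq_iff_eq_mul.mp h2
      · intro hx
        ext ⟨u, hu⟩
        change x * u * x⁻¹ = u
        rw [hx u hu, mul_inv_cancel_right]
    have h1 : Nat.card (MulAut P₁) = ℓ - 1 := by
      have e1 := IsCyclic.mulAutMulEquiv P₁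
      rw [hPc] at e1
      rw [Nat.card_congr e1.toEquiv, Nat.card_eq_fintype_card, ZMod.card_units]
    rw [← hker, Subgroup.index_ker, ← h1]
    exact Subgroup.card_subgroup_dvd_card _
  refine ⟨hCB, (Subgroup.relIndex_dvd_index_of_normal C _).trans hidx, hidx, ?_⟩
  have hpow : ∀ g : N, g ^ (ℓ - 1) ∈ C := by
    intro g
    obtain ⟨k, hk⟩ := hidx
    rw [hk, pow_mul]
    exact C.pow_mem (C.pow_index_mem g) k
  have hnd : ¬ ℓ ∣ ℓ - 1 := by
    intro h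
    have h2 := Nat.le_of_dvd (by have := hlp.two_le; omega) h
    have := hlp.two_le
    omega
  have hcen : P₁.subgroupOf C ≤ Subgroup.center C := by
    intro u hu
    rw [Subgroup.mem_center_iff]
    intro x
    apply Subtype.ext
    exact (hCmem _).mp x.2 u (Subgroup.mem_subgroupOf.mp hu)
  have hPC : P₁ ≤ C := by
    intro u hu
    rw [hCmem]
    intro v hv
    have hcg : ∀ a b : P₁, a * b = b * a := by
      let _ := IsCyclic.commGroup (α := P₁)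
      exact mul_comm
    exact congrArg Subtype.val (hcg ⟨u, hu⟩ ⟨v, hv⟩)
  -- the fixed point of an element outside the centralizer
  have hfix : ∀ g ∈ bS 𝔐 C φ₀, g ∉ C → ∃ φ₁ : C → ℂ, IsIrr φ₁ ∧
      cen 𝔐 (MonoidHom.id C) φ₁ = cen 𝔐 (MonoidHom.id C) φ₀ ∧
      (∀ x, φ₁ (MulAut.conjNormal g x) = φ₁ x) ∧
      ∀ φ : C → ℂ, IsIrr φ → cen 𝔐 (MonoidHom.id C) φ = cen 𝔐 (MonoidHom.id C) φ₀ →
        (∀ x, φ (MulAut.conjNormal g x) = φ x) → φ = φ₁ := by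
    intro g hg hgC
    refine (h1 C 𝔐 ℓ n h𝔐 hℓ (P₁.subgroupOf C) P x₀ hcen φ₀ hφ₀ hat (MulAut.conjNormal g)
      hg ?_ ⟨ℓ - 1, hnd, ⟨g ^ (ℓ - 1), hpow g⟩, ?_⟩).2 ?_
    · intro u hu
      rw [Subgroup.mem_subgroupOf] at hu ⊢
      exact (inferInstance : P₁.Normal).conj_mem _ hu g
    · intro x
      rw [← map_pow]
      exact Subtype.ext rfl
    · by_contra hcon
      push Not at hcon
      apply hgC
      rw [hCmem]
      intro u hu
      have h2 := hcon ⟨u, hPC hu⟩ (Subgroup.mem_subgroupOf.mpr hu)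
      have h3 : g * u * g⁻¹ = u := congrArg Subtype.val h2
      exact mul_inv_eq_iff_eq_mul.mp h3
  -- conjugation by the stabilizer preserves the block
  have hblk : ∀ g ∈ bS 𝔐 C φ₀, ∀ φ : C → ℂ, IsIrr φ →
      cen 𝔐 (MonoidHom.id C) φ = cen 𝔐 (MonoidHom.id C) φ₀ →
      IsIrr (fun x => φ (MulAut.conjNormal g x)) ∧
      cen 𝔐 (MonoidHom.id C) (fun x => φ (MulAut.conjNormal g x)) =
        cen 𝔐 (MonoidHom.id C) φ₀ := by
    intro g hg φ hφ hc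
    refine ⟨hφ.comp_mulEquiv (MulAut.conjNormal g : C ≃* C), ?_⟩
    funext x
    rw [cen_aut, hc]
    exact hg x
  by_cases hBC : ∃ g ∈ bS 𝔐 C φ₀, g ∉ C
  · obtain ⟨g₀, hg₀, hg₀C⟩ := hBC
    obtain ⟨φ₁, hφ₁, hφ₁c, hφ₁f, hφ₁u⟩ := hfix g₀ hg₀ hg₀C
    have hall : ∀ h ∈ bS 𝔐 C φ₀, ∀ x, φ₁ (MulAut.conjNormal h x) = φ₁ x := by
      intro h hh
      obtain ⟨h2, h3⟩ := hblk h hh φ₁ hφ₁ hφ₁c
      refine congrFun (hφ₁u _ h2 h3 ?_)
      intro x
      change φ₁ (MulAut.conjNormal h (MulAut.conjNormal g₀ x)) = φ₁ (MulAut.conjNormal h x)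
      -- h g₀ = c g₀ h
      have hc : h * g₀ * h⁻¹ * g₀⁻¹ ∈ C := (hCmem _).mpr (hcomm h g₀)
      have e1 : MulAut.conjNormal h (MulAut.conjNormal g₀ x) =
          MulAut.conjNormal (h * g₀ * h⁻¹ * g₀⁻¹)
            (MulAut.conjNormal g₀ (MulAut.conjNormal h x)) := by
        rw [← MulAut.mul_apply, ← MulAut.mul_apply, ← MulAut.mul_apply, ← map_mul, ← map_mul,
          ← map_mul]
        congr 2
        group
      rw [e1, hcf φ₁ hφ₁ _ hc, hφ₁f]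
    have huniq : ∀ g ∈ bS 𝔐 C φ₀, g ∉ C → ∀ φ : C → ℂ, IsIrr φ →
        cen 𝔐 (MonoidHom.id C) φ = cen 𝔐 (MonoidHom.id C) φ₀ →
        (∀ x, φ (MulAut.conjNormal g x) = φ x) → φ = φ₁ := by
      intro g hg hgC φ hφ hc hf
      obtain ⟨φ₂, -, -, -, h2⟩ := hfix g hg hgC
      rw [h2 φ hφ hc hf, h2 φ₁ hφ₁ hφ₁c (hall g hg)]
    refine ⟨φ₁, hφ₁, hφ₁c, ?_⟩
    intro a ha v
    let X : Type := {φ : C → ℂ // IsIrr φ ∧
      cen 𝔐 (MonoidHom.id C) φ = cen 𝔐 (MonoidHom.id C) φ₀ ∧ φ ≠ φ₁ ∧ a φ = v}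
    have hX : ∀ (g : bS 𝔐 C φ₀) (φ : C → ℂ), (IsIrr φ ∧
        cen 𝔐 (MonoidHom.id C) φ = cen 𝔐 (MonoidHom.id C) φ₀ ∧ φ ≠ φ₁ ∧ a φ = v) →
        (IsIrr (fun x => φ (MulAut.conjNormal (g : N)⁻¹ x)) ∧
        cen 𝔐 (MonoidHom.id C) (fun x => φ (MulAut.conjNormal (g : N)⁻¹ x)) =
          cen 𝔐 (MonoidHom.id C) φ₀ ∧ (fun x => φ (MulAut.conjNormal (g : N)⁻¹ x)) ≠ φ₁ ∧
          a (fun x => φ (MulAut.conjNormal (g : N)⁻¹ x)) = v) := by
      intro g φ hφ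
      obtain ⟨h2, h3⟩ := hblk (g : N)⁻¹ ((bS 𝔐 C φ₀).inv_mem g.2) φ hφ.1 hφ.2.1
      refine ⟨h2, h3, ?_, ?_⟩
      · intro h4
        apply hφ.2.2.1
        funext x
        have h5 := congrFun h4 (MulAut.conjNormal (g : N) x)
        change φ (MulAut.conjNormal (g : N)⁻¹ (MulAut.conjNormal (g : N) x)) = _ at h5
        rw [← MulAut.mul_apply, ← map_mul, inv_mul_cancel, map_one, MulAut.one_apply,
          hall g g.2] at h5
        exact h5
      · rw [ha (g : N)⁻¹ φ]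
        exact hφ.2.2.2
    let act : MulAction (bS 𝔐 C φ₀) X :=
      { smul := fun g φ => ⟨fun x => φ.1 (MulAut.conjNormal (g : N)⁻¹ x), hX g φ.1 φ.2⟩
        one_smul := by
          intro φ
          apply Subtype.ext
          funext x
          change φ.1 (MulAut.conjNormal ((1 : bS 𝔐 C φ₀) : N)⁻¹ x) = φ.1 x
          rw [OneMemClass.coe_one, inv_one, map_one, MulAut.one_apply]
        mul_smul := by
          intro g h φ
          apply Subtype.ext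
          funext x
          change φ.1 (MulAut.conjNormal ((g * h : bS 𝔐 C φ₀) : N)⁻¹ x) =
            φ.1 (MulAut.conjNormal (h : N)⁻¹ (MulAut.conjNormal (g : N)⁻¹ x))
          rw [← MulAut.mul_apply, ← map_mul, MulMemClass.coe_mul, mul_inv_rev] }
    have hsm : ∀ (g : bS 𝔐 C φ₀) (φ : X) (x : C),
        (g • φ).1 x = φ.1 (MulAut.conjNormal (g : N)⁻¹ x) := fun _ _ _ => rfl
    refine card_dvd (X := X) (C.subgroupOf (bS 𝔐 C φ₀)) ?_
    intro φ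
    ext g
    rw [MulAction.mem_stabilizer_iff, Subgroup.mem_subgroupOf]
    constructor
    · intro hg
      by_contra hgC
      apply φ.2.2.2.1
      refine huniq (g : N)⁻¹ ((bS 𝔐 C φ₀).inv_mem g.2) (fun h => hgC ?_) φ.1 φ.2.1 φ.2.2.1 ?_
      · have := C.inv_mem h
        rwa [inv_inv] at this
      · intro x
        rw [← hsm g φ x, hg]
    · intro hg
      apply Subtype.ext
      funext x
      rw [hsm]
      exact hcf φ.1 φ.2.1 _ (C.inv_mem hg) x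
  · push Not at hBC
    refine ⟨φ₀, hφ₀, rfl, ?_⟩
    intro a _ v
    have h2 : C.relIndex (bS 𝔐 C φ₀) = 1 := Subgroup.relIndex_eq_one.mpr hBC
    rw [h2]
    exact one_dvd _

end Pool.Agent.DPX


end
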