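import Mathlib
import Pool.Agent.DAM.C05
import Pool.Agent.DAM.C07
import Pool.Agent.DAM.C08
import Pool.Agent.DAM.C11

/-! Parts: DP.Final, DPC.DefsC, DPC.StmtsW, DPC.StmtsC -/

section

/-!
# Dade's conjecture for `G ^ Ω ⋊ R`: assembly
-/

namespace Pool.Agent.DP

open Pool.Agent.Lib_helper13 Representation
open Pool.Agent.Lib_helper13.Dade (pCore DadeHolds dadeSum)

/-- The weights of the averaged sums. -/
noncomputable def WW {X : Type} [Group X] [Fintype X] (𝔐 : Ideal (integralClosure ℤ ℂ))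
    (ℓ d : ℕ) (ω : X → (integralClosure ℤ ℂ) ⧸ 𝔐) (S : Subgroup X) : ℚ :=
  (Nat.card S : ℚ) * cnt 𝔐 ℓ d S.subtype ω

theorem WW_conj {X : Type} [Group X] [Fintype X] (𝔐 : Ideal (integralClosure ℤ ℂ))
    (ℓ d : ℕ) (ω : X → (integralClosure ℤ ℂ) ⧸ 𝔐) (g : X) (S : Subgroup X) :
    WW 𝔐 ℓ d ω (S.map (MulAut.conj g).toMonoidHom) = WW 𝔐 ℓ d ω S := by
  rw [WW, WW, card_map_conj, cnt_map_conj]

theorem WW_map {X Y : Type} [Group X] [Fintype X] [Group Y] [Fintype Y]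
    (𝔐 : Ideal (integralClosure ℤ ℂ)) (ℓ d : ℕ) (ω : X → (integralClosure ℤ ℂ) ⧸ 𝔐)
    (i : Y →* X) (hi : Function.Injective i) (S : Subgroup Y) :
    WW 𝔐 ℓ d ω (S.map i) = (Nat.card S : ℚ) * cnt 𝔐 ℓ d (i.comp S.subtype) ω := by
  rw [WW]
  have h1 : Nat.card (S.map i) = Nat.card S :=
    (Nat.card_congr (S.equivMapOfInjective i hi).toEquiv).symm
  have h2 : cnt 𝔐 ℓ d (S.map i).subtype ω = cnt 𝔐 ℓ d (i.comp S.subtype) ω := by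
    rw [← cnt_comp_equiv 𝔐 ℓ d (S.equivMapOfInjective i hi)]
    rfl
  rw [h1, h2]

/-- The contribution of a chain of the complement. -/
theorem inner_zero (hINNER : Stmt_INNER) (hCLOSED : Stmt_CLOSED) (hCLIFF : Stmt_CLIFF)
    (hCOMB : Stmt_COMB) (hBLKB : Stmt_BLKB) (hBLKC : Stmt_BLKC)
    (R Ω G : Type) [Group R] [Finite R] [MulAction R Ω] [Fintype Ω] [DecidableEq Ω] [Group G]
    [Fintype G] (𝔐 : Ideal (integralClosure ℤ ℂ)) (ℓ : ℕ) [Fact ℓ.Prime] (h𝔐 : 𝔐.IsMaximal)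
    (hℓ : (ℓ : integralClosure ℤ ℂ) ∈ 𝔐) (hcore : pCore ℓ G = ⊥) (hG : DadeHolds ℓ G)
    (χ : Gam R Ω G → ℂ) (ξ : Ω → G → ℂ) (w : Ω) (e : ℕ) (hχ : IsIrr χ) (hξ : ∀ a, IsIrr (ξ a))
    (hover : ip (resj (iN R Ω G) χ) (fun n => ∏ a, ξ a (n a)) ≠ 0)
    (he : HasDefect ℓ (ξ w) e) (he0 : 0 < e) (Z' : Subgroup R) [Z'.Normal]
    (hZ : IsPGroup ℓ Z') (hZ' : ∀ z ∈ Z', ∀ w : Ω, z • w = w) (d : ℕ) (c : Finset (Subgroup R))
    (hc : IsCh ℓ Z' c) :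
    innerS ℓ (Z'.map (iR R Ω G)) (iN R Ω G).range
      (WW 𝔐 ℓ d (cen 𝔐 (MonoidHom.id (Gam R Ω G)) χ)) (mapCh (iR R Ω G) c) = 0 := by
  obtain ⟨K, O, _, _, _, _, _, i, π, hi, hπ, hcard, hiN, hright, hsum⟩ :=
    hINNER R Ω G ℓ Z' hZ hZ' c hc
  rw [hsum]
  obtain ⟨Φ, hΦ, hsupp, _⟩ := hCLIFF K O G (Gam R Ω G) 𝔐 ℓ h𝔐 hℓ d i
    (cen 𝔐 (MonoidHom.id (Gam R Ω G)) χ)
  have h1 := hCLOSED K O G ℓ
    (fun S => WW 𝔐 ℓ d (cen 𝔐 (MonoidHom.id (Gam R Ω G)) χ) (S.map i))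
  rw [h1]
  have h2 := hCOMB O G 𝔐 ℓ Φ (by
    intro π' e' b hne
    by_contra hcon
    push Not at hcon
    obtain ⟨τ, hτ, θ, hθ, hb, ψ, hψ, hcen, hψθ⟩ := hsupp π' e' b hne
    obtain ⟨h3, h4, ψ', hψ', h5, h6⟩ := hBLKC K O G (Gam R Ω G) 𝔐 ℓ h𝔐 hℓ hcore hG i τ θ hτ hθ
      ψ hψ hψθ (fun o => by rw [hb o]; exact hcon o)
    exact hBLKB R Ω K O G 𝔐 ℓ h𝔐 hℓ i π hcard hiN hright χ ξ w e hχ hξ hover he he0 ψ' θ hψ'
      h3 h4 h5 (fun g => by rw [h6 g, hcen g]))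
  rw [← h2]
  refine Finset.sum_congr rfl fun τ hτ => ?_
  rw [WW_map 𝔐 ℓ d _ i hi, hΦ τ hτ]

/-- The vanishing of the sums of Dade. -/
theorem final (hSPLIT : Stmt_SPLIT) (hCORE : Stmt_CORE) (hCOMPL : Stmt_COMPL)
    (hCONJ : Stmt_CONJ) (hINNER : Stmt_INNER) (hCLOSED : Stmt_CLOSED) (hZR : Stmt_ZR)
    (hCLIFF : Stmt_CLIFF) (hCOMB : Stmt_COMB) (hBLKB : Stmt_BLKB) (hBLKC : Stmt_BLKC)
    (R Ω G : Type) [Group R] [Finite R] [MulAction R Ω] [Fintype Ω] [DecidableEq Ω] [Group G]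
    [Fintype G] (𝔐 : Ideal (integralClosure ℤ ℂ)) (ℓ : ℕ) [Fact ℓ.Prime] (h𝔐 : 𝔐.IsMaximal)
    (hℓ : (ℓ : integralClosure ℤ ℂ) ∈ 𝔐) (hcore : pCore ℓ G = ⊥) (hG : DadeHolds ℓ G)
    (χ : Gam R Ω G → ℂ) (ξ : Ω → G → ℂ) (w : Ω) (e : ℕ) (hχ : IsIrr χ) (hξ : ∀ a, IsIrr (ξ a))
    (hover : ip (resj (iN R Ω G) χ) (fun n => ∏ a, ξ a (n a)) ≠ 0)
    (he : HasDefect ℓ (ξ w) e) (he0 : 0 < e) (d : ℕ) : dadeSum 𝔐 ℓ χ d = 0 := by
  classical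
  have hnt : Nontrivial G := by
    by_contra hcon
    rw [not_nontrivial_iff_subsingleton] at hcon
    obtain ⟨n, hn, hn'⟩ := he
    have h1 : Nat.card G = 1 := Nat.card_of_subsingleton 1
    rw [h1] at hn'
    simp at hn'
    omega
  obtain ⟨Z', hZn, hZ, hZ', hZe⟩ := hZR R Ω G ℓ hcore hnt
  have hnorm : ((iN R Ω G).range).Normal := by
    constructor
    rintro _ ⟨n, rfl⟩ y
    rw [← conj_iN]
    exact ⟨_, rfl⟩
  have hZnorm : (Z'.map (iR R Ω G)).Normal := by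
    rw [← hZe]
    exact pCore_normal ℓ
  have hZN : Z'.map (iR R Ω G) ⊓ (iN R Ω G).range = ⊥ := by
    rw [eq_bot_iff]
    rintro _ ⟨⟨z, hz, rfl⟩, ⟨n, hn⟩⟩
    have h1 : z = 1 := by
      have := congrArg SemidirectProduct.right hn
      simpa using this.symm
    rw [h1, map_one]
    exact Subgroup.one_mem _
  have h1 := dadeSum_eq 𝔐 ℓ d hχ
  have h2 : KK 𝔐 ℓ d (pCore ℓ (Gam R Ω G)) (cen 𝔐 (MonoidHom.id (Gam R Ω G)) χ) = 0 := by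
    rw [hZe, KK]
    have h3 := hSPLIT (Gam R Ω G) ℓ (Z'.map (iR R Ω G)) (iN R Ω G).range (hZ.map _) hZN
      (WW 𝔐 ℓ d (cen 𝔐 (MonoidHom.id (Gam R Ω G)) χ))
    refine Eq.trans h3 ?_
    refine Finset.sum_eq_zero fun c hc => ?_
    have hc' : IsCh ℓ (Z'.map (iR R Ω G)) c ∧ ∀ D ∈ c, D ⊓ (iN R Ω G).range = ⊥ := by
      rw [OutC, Finset.mem_filter, mem_Ch] at hc
      exact hc
    by_cases hco : pCore ℓ (cN (iN R Ω G).range (tp (Z'.map (iR R Ω G)) c)) = ⊥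
    · -- the greatest member
      have hQ : IsPGroup ℓ (tp (Z'.map (iR R Ω G)) c) ∧
          tp (Z'.map (iR R Ω G)) c ⊓ (iN R Ω G).range = ⊥ := by
        rcases c.eq_empty_or_nonempty with rfl | hne
        · rw [tp, Finset.sup_empty, bot_sup_eq]
          exact ⟨hZ.map _, hZN⟩
        · have h4 : c.sup id ∈ c :=
            sup_mem_of_chain (fun D hD E hE => hc'.1.total hD hE) hne
          have h5 : tp (Z'.map (iR R Ω G)) c = c.sup id :=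
            sup_eq_left.mpr (hc'.1.1 _ h4).2.le
          rw [h5]
          exact ⟨(hc'.1.1 _ h4).1, hc'.2 _ h4⟩
      obtain ⟨n, hn⟩ := hCOMPL R Ω G ℓ _ hQ.1 hQ.2 hco
      have h4 : ∀ D ∈ mapCh (MulAut.conj (iN R Ω G n)).toMonoidHom c,
          D ≤ (iR R Ω G).range := by
        intro D hD
        obtain ⟨D', hD', rfl⟩ := mem_mapCh.mp hD
        refine le_trans (Subgroup.map_mono ?_) hn
        exact le_trans (Finset.le_sup (f := id) hD') le_sup_left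
      obtain ⟨c', hc''⟩ := exists_mapCh h4
      have hZc : (Z'.map (iR R Ω G)).map (MulAut.conj (iN R Ω G n)).toMonoidHom =
          Z'.map (iR R Ω G) := by
        exact Subgroup.Normal.map_conj_eq _ _
      have h5 : IsCh ℓ Z' c' := by
        rw [← isCh_mapCh_iff (i := iR R Ω G) SemidirectProduct.inr_injective, hc'', ← hZc,
          isCh_mapCh_iff (MulAut.conj (iN R Ω G n)).injective]
        exact hc'.1
      have h6 := hCONJ (Gam R Ω G) ℓ (Z'.map (iR R Ω G)) (iN R Ω G).range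
        (WW 𝔐 ℓ d (cen 𝔐 (MonoidHom.id (Gam R Ω G)) χ)) (WW_conj 𝔐 ℓ d _) c (iN R Ω G n)
      rw [← h6, ← hc'', inner_zero hINNER hCLOSED hCLIFF hCOMB hBLKB hBLKC R Ω G 𝔐 ℓ h𝔐 hℓ hcore
        hG χ ξ w e hχ hξ hover he he0 Z' hZ hZ' d c' h5, mul_zero]
    · rw [hCORE (Gam R Ω G) ℓ (Z'.map (iR R Ω G)) (iN R Ω G).range _ c hc'.1 hco, mul_zero]
  rw [h2] at h1
  have h3 : (Nat.card (Gam R Ω G) : ℚ) ≠ 0 := by exact_mod_cast Nat.card_pos.ne'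
  have h4 := (mul_eq_zero.mp h1).resolve_left h3
  exact_mod_cast h4

end Pool.Agent.DP


end

section

/-!
# Dade's conjecture for groups with a normal subgroup `G ^ Ω` on which a cyclic group of outer
automorphisms of arbitrary order acts: definitions (theorem C)
-/

namespace Pool.Agent.DPC

open Pool.Agent.DP Pool.Agent.Lib_helper13 Representation
open Pool.Agent.Lib_helper13.Dade (pCore DadeHolds)

section Loc

variable {G B C : Type*} [Group G] [Group B] [Group C]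

/-- `G` is a normal subgroup of `B` and `C = B / G` is cyclic. -/
structure LocW (ℓ : ℕ) (ι : G →* B) (κ : B →* MulAut G) (ρ : B →* C) : Prop where
  cl : ClG ι κ ρ
  surj : Function.Surjective ρ
  cyc : IsCyclic C

/-- The fixed points of `P` in `G`. -/
def FX (κ : B →* MulAut G) (P : Subgroup B) : Subgroup G where
  carrier := {g | ∀ b ∈ P, κ b g = g}
  one_mem' := fun b _ => map_one _
  mul_mem' := by
    intro x y hx hy b hb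
    rw [map_mul, hx b hb, hy b hb]
  inv_mem' := by
    intro x hx b hb
    rw [map_inv, hx b hb]

theorem mem_FX {κ : B →* MulAut G} {P : Subgroup B} {g : G} :
    g ∈ FX κ P ↔ ∀ b ∈ P, κ b g = g := Iff.rfl

end Loc

/-- The partial sum: over the chains of the normal subgroup `G` of `T`, with their stabilizers
in `T`. -/
noncomputable def PSm {G B : Type} [Group G] [Group B] (𝔐 : Ideal (integralClosure ℤ ℂ)) (ℓ : ℕ)
    [Fintype G] [Fintype B] (κ : B →* MulAut G) (e : ℕ)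
    (ω : B → (integralClosure ℤ ℂ) ⧸ 𝔐) : ℚ :=
  ∑ σ ∈ Ch ℓ (⊥ : Subgroup G), (-1 : ℚ) ^ σ.card * WW 𝔐 ℓ e ω (Stx κ σ (fun _ => 0))


/-- The partial sums vanish on the central functions which are not of the type of a character
of defect zero of the normal subgroup `G`. -/
def PZ {G B : Type} [Group G] [Group B] (𝔐 : Ideal (integralClosure ℤ ℂ)) (ℓ : ℕ) [Fintype G]
    [Fintype B] (ι : G →* B) (κ : B →* MulAut G) : Prop :=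
  ∀ (e : ℕ) (ω : B → (integralClosure ℤ ℂ) ⧸ 𝔐), PSm 𝔐 ℓ κ e ω ≠ 0 →
    ∃ (χ : B → ℂ) (θ : G → ℂ), IsIrr χ ∧ IsIrr θ ∧ HasDefect ℓ θ 0 ∧ ip (resj ι χ) θ ≠ 0 ∧
      cen 𝔐 (MonoidHom.id B) χ = ω

/-- Dade's conjecture holds for the groups `C_T(E) / E`, `G ≤ T ≤ B`, `E` an `ℓ`-subgroup of `T`
with `E ∩ G = 1`, as far as `O_ℓ(C_T(E) / E) = 1`. -/
def DH {G B : Type} [Group G] [Group B] (ℓ : ℕ) (ι : G →* B) : Prop :=
  ∀ T : Subgroup B, ι.range ≤ T → ∀ E : Subgroup B, E ≤ T → IsPGroup ℓ E → E ⊓ ι.range = ⊥ →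
    ∀ (H : Type) [Group H] [Finite H] (q : ↥(T ⊓ Subgroup.centralizer (E : Set B)) →* H),
      Function.Surjective q → (∀ x, q x = 1 ↔ (x : B) ∈ E) → pCore ℓ H = ⊥ → DadeHolds ℓ H

/-! ### The coordinates of an `ℓ`-subgroup -/

section Coord

variable {Ω G B X : Type*} [Group G] [Group B] [Group X]

/-- The image in `B` of the stabilizer in `Q` of the coordinate `w`. -/
def Pw (φ : X →* Gam (Equiv.Perm Ω) Ω B) (Q : Subgroup X) (w : Ω) : Subgroup B where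
  carrier := {b | ∃ q ∈ Q, (φ q).right • w = w ∧ (φ q).left w = b}
  one_mem' := ⟨1, Q.one_mem, by simp, by simp⟩
  mul_mem' := by
    rintro _ _ ⟨x, hx1, hx2, rfl⟩ ⟨y, hy1, hy2, rfl⟩
    refine ⟨x * y, Q.mul_mem hx1 hy1, ?_, ?_⟩
    · rw [map_mul, SemidirectProduct.mul_right, mul_smul, hy2, hx2]
    · rw [map_mul]
      change (φ x).left w * (φ y).left ((φ x).right⁻¹ • w) = _
      have h : (φ x).right⁻¹ • w = w := by
        rw [inv_smul_eq_iff, hx2]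
      rw [h]
  inv_mem' := by
    rintro _ ⟨x, hx1, hx2, rfl⟩
    refine ⟨x⁻¹, Q.inv_mem hx1, ?_, ?_⟩
    · rw [map_inv, SemidirectProduct.inv_right, inv_smul_eq_iff, hx2]
    · rw [map_inv]
      change ((φ x).left ((φ x).right⁻¹⁻¹ • w))⁻¹ = _
      rw [inv_inv, hx2]

/-- `x` is the element of `G ^ Ω` which is determined by the value `g` at the coordinate `w` and
the fact that it is centralized by `Q` and supported on the orbit of `w`. -/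
def Single (κ : B →* MulAut G) (e : (Ω → G) →* X) (φ : X →* Gam (Equiv.Perm Ω) Ω B)
    (Q : Subgroup X) (w : Ω) (g : G) (x : X) : Prop :=
  ∃ n : Ω → G, x = e n ∧
    (∀ q ∈ Q, n ((φ q).right • w) = κ ((φ q).left ((φ q).right • w)) g) ∧
    ∀ w', (∀ q ∈ Q, (φ q).right • w ≠ w') → n w' = 1

end Coord

end Pool.Agent.DPC


end

section

/-!
# The statements of Theorem R for cyclic quotients of arbitrary order (theorem C)
-/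

namespace Pool.Agent.DPC

open Pool.Agent.DP Pool.Agent.Lib_helper13 Representation
open Pool.Agent.Lib_helper13.Dade (pCore DadeHolds)

/-- EXTAR: the extensions of `ψ`. -/
def Stmt_EXTAR : Prop :=
  ∀ (G B C : Type) [Group G] [Fintype G] [Group B] [Fintype B] [Group C] (ℓ : ℕ) [Fact ℓ.Prime]
    (ι : G →* B) (κ : B →* MulAut G) (ρ : B →* C), LocW ℓ ι κ ρ →
    ∀ (σ : Finset (Subgroup G)) (ψ : G → ℂ), IrrOn (stb σ) ψ → ∀ L : Subgroup C,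
    (Stx κ σ ψ ⊓ L.comap ρ).comap ι = stb σ ∧
    (Stx κ σ ψ ⊓ L.comap ρ).map ρ = KL κ ρ σ ψ L ∧
    (∃ f, ExtL ι κ ρ σ ψ L f) ∧
    (∀ f (lam : C →* ℂˣ), ExtL ι κ ρ σ ψ L f →
      ExtL ι κ ρ σ ψ L (fun x => f x * ((lam (ρ x) : ℂˣ) : ℂ))) ∧
    (∀ f f', ExtL ι κ ρ σ ψ L f → ExtL ι κ ρ σ ψ L f' →
      ∃ lam : C →* ℂˣ, f' = fun x => f x * ((lam (ρ x) : ℂˣ) : ℂ)) ∧
    Nat.card {f : B → ℂ // ExtL ι κ ρ σ ψ L f} = Nat.card (KL κ ρ σ ψ L)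

/-- EXTBR: truncation of extensions. -/
def Stmt_EXTBR : Prop :=
  ∀ (G B C : Type) [Group G] [Fintype G] [Group B] [Fintype B] [Group C]
    (𝔐 : Ideal (integralClosure ℤ ℂ)) (ℓ : ℕ) [Fact ℓ.Prime]
    (ι : G →* B) (κ : B →* MulAut G) (ρ : B →* C), LocW ℓ ι κ ρ →
    ∀ (σ : Finset (Subgroup G)) (ψ : G → ℂ), IrrOn (stb σ) ψ → ∀ L' L : Subgroup C, L' ≤ L →
    (∀ f, ExtL ι κ ρ σ ψ L f → ExtL ι κ ρ σ ψ L' (trn ρ L' f)) ∧
    (∀ P : (B → ℂ) → Prop,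
      Nat.card (KL κ ρ σ ψ L) * Nat.card {f : B → ℂ // ExtL ι κ ρ σ ψ L' f ∧ P f} =
        Nat.card (KL κ ρ σ ψ L') *
          Nat.card {f : B → ℂ // ExtL ι κ ρ σ ψ L f ∧ P (trn ρ L' f)}) ∧
    bet 𝔐 ι κ ρ σ ψ L' = (fun b => trn ρ L' b) '' bet 𝔐 ι κ ρ σ ψ L

/-- BETG: twists of the central functions; the class is determined by one member. -/
def Stmt_BETG : Prop :=
  ∀ (G B C : Type) [Group G] [Fintype G] [Group B] [Fintype B] [Group C]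
    (𝔐 : Ideal (integralClosure ℤ ℂ)) (ℓ : ℕ) [Fact ℓ.Prime]
    (ι : G →* B) (κ : B →* MulAut G) (ρ : B →* C), LocW ℓ ι κ ρ →
    (∀ (S : Subgroup B) (f : B → ℂ), IrrOn S f → IrrOn (S.comap ι) (fun h => f (ι h)) →
      ∀ (lam : C →* ℂˣ) (x : B), cgT 𝔐 ι.range (fun y => f y * ((lam (ρ y) : ℂˣ) : ℂ)) x =
        red 𝔐 ((lam (ρ x) : ℂˣ) : ℂ) * cgT 𝔐 ι.range f x) ∧
    ∀ (σ σ' : Finset (Subgroup G)) (ψ ψ' : G → ℂ), IrrOn (stb σ) ψ → IrrOn (stb σ') ψ' →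
      ∀ (L : Subgroup C) (f f' : B → ℂ), ExtL ι κ ρ σ ψ L f → ExtL ι κ ρ σ' ψ' L f' →
      cgT 𝔐 ι.range f = cgT 𝔐 ι.range f' → bet 𝔐 ι κ ρ σ ψ L = bet 𝔐 ι κ ρ σ' ψ' L

/-- LTR: transitivity of the central functions. -/
def Stmt_LTR : Prop :=
  ∀ (G B C : Type) [Group G] [Fintype G] [Group B] [Fintype B] [Group C]
    (𝔐 : Ideal (integralClosure ℤ ℂ)) (ℓ : ℕ) [Fact ℓ.Prime]
    (ι : G →* B) (κ : B →* MulAut G) (ρ : B →* C), LocW ℓ ι κ ρ →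
    ∀ L' L : Subgroup C, L' ≤ L → ∃ Θ : (L'.comap ρ → (integralClosure ℤ ℂ) ⧸ 𝔐) →
      B → (integralClosure ℤ ℂ) ⧸ 𝔐,
      ∀ (σ : Finset (Subgroup G)) (ψ : G → ℂ) (f : B → ℂ), IrrOn (stb σ) ψ →
        ExtL ι κ ρ σ ψ L' f →
        cgT 𝔐 (L.comap ρ) f = Θ (fun g => cgT 𝔐 (L'.comap ρ) f g)

/-- ASH: the weighted sums over `Y` depend only on the central functions. -/
def Stmt_ASH : Prop :=
  ∀ (O G B C Y K : Type) [Fintype O] [DecidableEq O] [Group G] [Fintype G] [Group B] [Fintype B]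
    [Group C] [Group Y] [Fintype Y] [Group K] (𝔐 : Ideal (integralClosure ℤ ℂ)) (ℓ : ℕ)
    [Fact ℓ.Prime], 𝔐.IsMaximal → (ℓ : integralClosure ℤ ℂ) ∈ 𝔐 →
    ∀ (ι : G →* B) (κ : B →* MulAut G) (ρ : B →* C), LocW ℓ ι κ ρ →
    ∀ (j : (O → G) →* Y) (p : Y →* K) (φ : Y →* Gam (Equiv.Perm O) O B), ExtS ι κ j p φ →
    ∀ (J : Subgroup K) (g g' : O → B) (S S' : O → Subgroup B) (θ θ' : O → B → ℂ)
      (m m' : O → ℕ) (M M' : O → B → ℕ → ℕ → ℂ),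
      SDR ℓ ι ρ p φ J g S θ m M → SDR ℓ ι ρ p φ J g' S' θ' m' M' →
      (∀ o, ρ (g' o) = ρ (g o)) → (∀ o, cgT 𝔐 ι.range (θ o) = cgT 𝔐 ι.range (θ' o)) →
      ∀ k ∈ J, ∀ F : Y → ℂ, (∀ y x, F (y * x * y⁻¹) = F x) → (∀ y, IsIntegral ℤ (F y)) →
        IsIntegral ℤ (AS p φ g S θ m M k F) ∧ IsIntegral ℤ (AS p φ g' S' θ' m' M' k F) ∧
        red 𝔐 (AS p φ g S θ m M k F) = red 𝔐 (AS p φ g' S' θ' m' M' k F)

/-- ASC: the weighted sums form a class function. -/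
def Stmt_ASC : Prop :=
  ∀ (O G B C Y K : Type) [Fintype O] [DecidableEq O] [Group G] [Fintype G] [Group B] [Fintype B]
    [Group C] [Group Y] [Fintype Y] [Group K] (ℓ : ℕ)
    (ι : G →* B) (κ : B →* MulAut G) (ρ : B →* C), LocW ℓ ι κ ρ →
    ∀ (j : (O → G) →* Y) (p : Y →* K) (φ : Y →* Gam (Equiv.Perm O) O B), ExtS ι κ j p φ →
    ∀ (J : Subgroup K) (g : O → B) (S : O → Subgroup B) (θ : O → B → ℂ)
      (m : O → ℕ) (M : O → B → ℕ → ℕ → ℂ), SDR ℓ ι ρ p φ J g S θ m M →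
      ∀ k ∈ J, ∀ l ∈ J, ∀ F : Y → ℂ, (∀ y x, F (y * x * y⁻¹) = F x) →
        AS p φ g S θ m M (l * k * l⁻¹) F = AS p φ g S θ m M k F

/-- TWR: twists of standard data. -/
def Stmt_TWR : Prop :=
  ∀ (O G B C Y K X : Type) [Fintype O] [DecidableEq O] [Group G] [Fintype G] [Group B]
    [Fintype B] [Group C] [Group Y] [Fintype Y] [Group K] [Finite K] [Group X]
    (𝔐 : Ideal (integralClosure ℤ ℂ)) (ℓ : ℕ)
    (ι : G →* B) (κ : B →* MulAut G) (ρ : B →* C), LocW ℓ ι κ ρ →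
    ∀ (j : (O → G) →* Y) (p : Y →* K) (φ : Y →* Gam (Equiv.Perm O) O B), ExtS ι κ j p φ →
    ∀ (J : Subgroup K) (g : O → B) (S : O → Subgroup B) (θ : O → B → ℂ)
      (m : O → ℕ) (M : O → B → ℕ → ℕ → ℂ), SDR ℓ ι ρ p φ J g S θ m M →
      ∀ lam : O → C →* ℂˣ, (∀ y, p y ∈ J → ∀ o, lam ((φ y).right • o) = lam o) →
      SDR ℓ ι ρ p φ J g S (fun o x => θ o x * ((lam o (ρ x) : ℂˣ) : ℂ)) m
        (fun o x a b => M o x a b * ((lam o (ρ x) : ℂˣ) : ℂ)) ∧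
      ∀ (d e : ℕ) (i : Y →* X) (ω : X → (integralClosure ℤ ℂ) ⧸ 𝔐),
        NNR 𝔐 ℓ d i ω p φ J e g S (fun o x => θ o x * ((lam o (ρ x) : ℂˣ) : ℂ)) m
          (fun o x a b => M o x a b * ((lam o (ρ x) : ℂˣ) : ℂ)) =
        NNR 𝔐 ℓ d i ω p φ J e g S θ m M

/-- MINDR: the count depends only on the classes of the central functions. -/
def Stmt_MINDR : Prop :=
  ∀ (O G B C Y K X : Type) [Fintype O] [DecidableEq O] [Group G] [Fintype G] [Group B]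
    [Fintype B] [Group C] [Group Y] [Fintype Y] [Group K] [Finite K] [Group X]
    (𝔐 : Ideal (integralClosure ℤ ℂ)) (ℓ : ℕ) [Fact ℓ.Prime], 𝔐.IsMaximal →
    (ℓ : integralClosure ℤ ℂ) ∈ 𝔐 →
    ∀ (ι : G →* B) (κ : B →* MulAut G) (ρ : B →* C), LocW ℓ ι κ ρ →
    ∀ (j : (O → G) →* Y) (p : Y →* K) (φ : Y →* Gam (Equiv.Perm O) O B), ExtS ι κ j p φ →
    ∀ (J : Subgroup K) (g g' : O → B) (S S' : O → Subgroup B) (θ θ' : O → B → ℂ)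
      (m m' : O → ℕ) (M M' : O → B → ℕ → ℕ → ℂ),
      SDR ℓ ι ρ p φ J g S θ m M → SDR ℓ ι ρ p φ J g' S' θ' m' M' →
      (∀ o, ρ (g' o) = ρ (g o)) →
      (∀ o, ∃ lam : C →* ℂˣ, cgT 𝔐 ι.range (θ' o) =
        cgT 𝔐 ι.range (fun x => θ o x * ((lam (ρ x) : ℂˣ) : ℂ))) →
      ∀ (d e : ℕ) (i : Y →* X) (ω : X → (integralClosure ℤ ℂ) ⧸ 𝔐),
        NNR 𝔐 ℓ d i ω p φ J e g' S' θ' m' M' = NNR 𝔐 ℓ d i ω p φ J e g S θ m M

/-- TRBR: transporters. -/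
def Stmt_TRBR : Prop :=
  ∀ (O G B C : Type) [Fintype O] [DecidableEq O] [Group G] [Fintype G] [Group B] [Fintype B]
    [Group C] (𝔐 : Ideal (integralClosure ℤ ℂ)) (ℓ : ℕ) [Fact ℓ.Prime]
    (ι : G →* B) (κ : B →* MulAut G) (ρ : B →* C), LocW ℓ ι κ ρ →
    ∀ (τ : Finset (Subgroup (O → G))) (θ : O → G → ℂ), (∀ o, IrrOn (stb (comp τ o)) (θ o)) →
    (∀ o g, trB κ τ θ o o g ↔ g ∈ Stx κ (comp τ o) (θ o)) ∧
    (∀ a b g, trB κ τ θ a b g →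
      (stb (comp τ a)).map (κ g).toMonoidHom = stb (comp τ b) ∧
      df ℓ (stb (comp τ a)) (θ a) = df ℓ (stb (comp τ b)) (θ b) ∧
      (Stx κ (comp τ a) (θ a)).map (MulAut.conj g).toMonoidHom = Stx κ (comp τ b) (θ b) ∧
      Nat.card {h : B // trB κ τ θ a b h ∧ ρ h = ρ g} = Nat.card (stb (comp τ b)) ∧
      (∀ (L : Subgroup C) (f : B → ℂ), ExtL ι κ ρ (comp τ a) (θ a) L f →
        ExtL ι κ ρ (comp τ b) (θ b) L (fun x => f (g⁻¹ * x * g))) ∧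
      ∀ L : Subgroup C, bet 𝔐 ι κ ρ (comp τ b) (θ b) L =
        (fun b0 x => b0 (g⁻¹ * x * g)) '' bet 𝔐 ι κ ρ (comp τ a) (θ a) L)

/-- PERAR: the inertia group. -/
def Stmt_PERAR : Prop :=
  ∀ (O G B C Y K : Type) [Fintype O] [DecidableEq O] [Group G] [Fintype G] [Group B] [Fintype B]
    [Group C] [Group Y] [Fintype Y] [Group K] [Finite K] (ℓ : ℕ) [Fact ℓ.Prime]
    (ι : G →* B) (κ : B →* MulAut G) (ρ : B →* C), LocW ℓ ι κ ρ →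
    ∀ (j : (O → G) →* Y) (p : Y →* K) (φ : Y →* Gam (Equiv.Perm O) O B)
      (h : ExtS ι κ j p φ), ∀ τ ∈ ClCh O G ℓ, ∀ θ : O → G → ℂ,
      (∀ o, IrrOn (stb (comp τ o)) (θ o)) →
      InY κ φ τ θ ≤ YS j τ ∧
      (∀ y : YS j τ, y ∈ inert (cS h.cl τ) (fun a => ∏ o, θ o ((a : O → G) o)) ↔
        (y : Y) ∈ InY κ φ τ θ) ∧
      (inert (cS h.cl τ) (fun a => ∏ o, θ o ((a : O → G) o))).map (pS p j τ) =
        KB κ p φ τ θ ∧
      Nat.card (inert (cS h.cl τ) (fun a => ∏ o, θ o ((a : O → G) o))) =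
        Nat.card (KB κ p φ τ θ) * ∏ o, Nat.card (stb (comp τ o)) ∧
      ∀ o, vg ρ p φ (KB κ p φ τ θ) o ≤ (Stx κ (comp τ o) (θ o)).map ρ

/-- REPJ: representatives, and vertex groups along orbits. -/
def Stmt_REPJ : Prop :=
  ∀ (O G B C Y K : Type) [Fintype O] [DecidableEq O] [Group G] [Fintype G] [Group B] [Fintype B]
    [Group C] [Group Y] [Fintype Y] [Group K] (ℓ : ℕ)
    (ι : G →* B) (κ : B →* MulAut G) (ρ : B →* C), LocW ℓ ι κ ρ →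
    ∀ (j : (O → G) →* Y) (p : Y →* K) (φ : Y →* Gam (Equiv.Perm O) O B), ExtS ι κ j p φ →
    ∀ J : Subgroup K, (∃ (r : O → O) (t : O → Y), RepJ p φ J r t) ∧
      (∀ y, p y ∈ J → ∀ o, vg ρ p φ J ((φ y).right • o) = vg ρ p φ J o) ∧
      ∀ (r : O → O) (t : O → Y), RepJ p φ J r t →
        (∀ o, r (r o) = r o) ∧ (∀ o, vg ρ p φ J (r o) = vg ρ p φ J o) ∧
        ∀ y, p y ∈ J → ∀ g : O → B, (∀ o, ρ (g o) = ρ ((φ (t o)).left o)) →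
          ∀ o, ρ (zz φ g y o) ∈ vg ρ p φ J (r o)

/-- PERBR: standardization. -/
def Stmt_PERBR : Prop :=
  ∀ (O G B C Y K : Type) [Fintype O] [DecidableEq O] [Group G] [Fintype G] [Group B] [Fintype B]
    [Group C] [Group Y] [Fintype Y] [Group K] [Finite K] (ℓ : ℕ) [Fact ℓ.Prime]
    (ι : G →* B) (κ : B →* MulAut G) (ρ : B →* C), LocW ℓ ι κ ρ →
    ∀ (j : (O → G) →* Y) (p : Y →* K) (φ : Y →* Gam (Equiv.Perm O) O B), ExtS ι κ j p φ →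
    ∀ τ ∈ ClCh O G ℓ, ∀ θ : O → G → ℂ, (∀ o, IrrOn (stb (comp τ o)) (θ o)) →
    ∀ (r : O → O) (t : O → Y), RepJ p φ (KB κ p φ τ θ) r t →
      ∃ (g : O → B) (S : O → Subgroup B) (f : O → B → ℂ) (m : O → ℕ)
        (M : O → B → ℕ → ℕ → ℂ), StdR ℓ ι κ ρ p φ τ θ r t g S f m M

/-- PERCR: the extension to the inertia group, in terms of standard data. -/
def Stmt_PERCR : Prop :=
  ∀ (O G B C Y K : Type) [Fintype O] [DecidableEq O] [Group G] [Fintype G] [Group B] [Fintype B]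
    [Group C] [Group Y] [Fintype Y] [Group K] [Finite K] (ℓ : ℕ) [Fact ℓ.Prime]
    (ι : G →* B) (κ : B →* MulAut G) (ρ : B →* C), LocW ℓ ι κ ρ →
    ∀ (j : (O → G) →* Y) (p : Y →* K) (φ : Y →* Gam (Equiv.Perm O) O B)
      (h : ExtS ι κ j p φ), ∀ τ ∈ ClCh O G ℓ, ∀ θ : O → G → ℂ,
      (∀ o, IrrOn (stb (comp τ o)) (θ o)) →
    ∀ (r : O → O) (t : O → Y) (g : O → B) (S : O → Subgroup B) (f : O → B → ℂ) (m : O → ℕ)
      (M : O → B → ℕ → ℕ → ℂ), StdR ℓ ι κ ρ p φ τ θ r t g S f m M →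
      (∀ y : Y, (p y ∈ KB κ p φ τ θ ∧ ∀ o, zz φ g y o ∈ S o) ↔ y ∈ InY κ φ τ θ) ∧
      ∃ E : inert (cS h.cl τ) (fun a => ∏ o, θ o ((a : O → G) o)) → ℂ, IsChr E ∧
        (∀ a (ha : jS h.cl τ a ∈ inert (cS h.cl τ) (fun a => ∏ o, θ o ((a : O → G) o))),
          E ⟨jS h.cl τ a, ha⟩ = ∏ o, θ o ((a : O → G) o)) ∧
        ∀ η : KB κ p φ τ θ → ℂ, IsIrr η → ∀ F : Y → ℂ, (∀ y x, F (y * x * y⁻¹) = F x) →
          wt (fun s => E s * ext0 η (pS p j τ s)) (fun s => F ((s : YS j τ) : Y)) =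
            wt η (fun k => AS p φ g S f m M (k : K) F)

/-- PERDR: the count for one character of the base group. -/
def Stmt_PERDR : Prop :=
  ∀ (O G B C Y K X : Type) [Fintype O] [DecidableEq O] [Group G] [Fintype G] [Group B]
    [Fintype B] [Group C] [Group Y] [Fintype Y] [Group K] [Finite K] [Group X]
    (𝔐 : Ideal (integralClosure ℤ ℂ)) (ℓ : ℕ) [Fact ℓ.Prime]
    (ι : G →* B) (κ : B →* MulAut G) (ρ : B →* C), LocW ℓ ι κ ρ →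
    ∀ (j : (O → G) →* Y) (p : Y →* K) (φ : Y →* Gam (Equiv.Perm O) O B)
      (h : ExtS ι κ j p φ), ∀ τ ∈ ClCh O G ℓ, ∀ θ : O → G → ℂ,
      (∀ o, IrrOn (stb (comp τ o)) (θ o)) →
    ∀ (r : O → O) (t : O → Y) (g : O → B) (S : O → Subgroup B) (f : O → B → ℂ) (m : O → ℕ)
      (M : O → B → ℕ → ℕ → ℂ), StdR ℓ ι κ ρ p φ τ θ r t g S f m M →
      ∃ E : inert (cS h.cl τ) (fun a => ∏ o, θ o ((a : O → G) o)) → ℂ, IsChr E ∧
        (∀ a (ha : jS h.cl τ a ∈ inert (cS h.cl τ) (fun a => ∏ o, θ o ((a : O → G) o))),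
          E ⟨jS h.cl τ a, ha⟩ = ∏ o, θ o ((a : O → G) o)) ∧
        ∀ (d : ℕ) (i : Y →* X) (ω : X → (integralClosure ℤ ℂ) ⧸ 𝔐),
          (Nat.card (inert (cS h.cl τ) (fun a => ∏ o, θ o ((a : O → G) o))) : ℚ) *
            Nat.card {η : KB κ p φ τ θ → ℂ // IsIrr η ∧
              (HasDefect ℓ (indc (inert (cS h.cl τ) (fun a => ∏ o, θ o ((a : O → G) o)))
                  (fun s => E s * ext0 η (pS p j τ s))) d ∧
                ∀ x, cen 𝔐 (i.comp (YS j τ).subtype)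
                  (indc (inert (cS h.cl τ) (fun a => ∏ o, θ o ((a : O → G) o)))
                    (fun s => E s * ext0 η (pS p j τ s))) x = ω x)} =
            (∏ o, (Nat.card (stb (comp τ o)) : ℚ)) *
              NNR 𝔐 ℓ d i ω p φ (KB κ p φ τ θ) (∑ o, df ℓ (stb (comp τ o)) (θ o)) g S f m M

/-- CLIFFR: Clifford theory for the stabilizers of the chains of the base group. -/
def Stmt_CLIFFR : Prop :=
  ∀ (O G B C Y K X : Type) [Fintype O] [DecidableEq O] [Group G] [Fintype G] [Group B]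
    [Fintype B] [Group C] [Group Y] [Fintype Y] [Group K] [Finite K] [Group X]
    (𝔐 : Ideal (integralClosure ℤ ℂ)) (ℓ : ℕ) [Fact ℓ.Prime], 𝔐.IsMaximal →
    (ℓ : integralClosure ℤ ℂ) ∈ 𝔐 →
    ∀ (ι : G →* B) (κ : B →* MulAut G) (ρ : B →* C), LocW ℓ ι κ ρ →
    ∀ (j : (O → G) →* Y) (p : Y →* K) (φ : Y →* Gam (Equiv.Perm O) O B)
      (h : ExtS ι κ j p φ) (d : ℕ) (i : Y →* X) (ω : X → (integralClosure ℤ ℂ) ⧸ 𝔐),
    ∃ Φ : Subgroup K → ℕ → (O → Set (B → (integralClosure ℤ ℂ) ⧸ 𝔐)) → ℚ,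
      (∀ τ ∈ ClCh O G ℓ,
        (Nat.card (YS j τ) : ℚ) * cnt 𝔐 ℓ d (i.comp (YS j τ).subtype) ω =
        (∏ o, (Nat.card (stb (comp τ o)) : ℚ)) *
          ∑ θ ∈ Fintype.piFinset (fun o => irrOn (stb (comp τ o))),
            Φ (KB κ p φ τ θ) (∑ o, df ℓ (stb (comp τ o)) (θ o))
              (bts 𝔐 ι κ ρ p φ τ θ (KB κ p φ τ θ))) ∧
      ∀ J e β, Φ J e β ≠ 0 → ∃ τ ∈ ClCh O G ℓ, ∃ θ : O → G → ℂ,
        (∀ o, IrrOn (stb (comp τ o)) (θ o)) ∧ bts 𝔐 ι κ ρ p φ τ θ J = β ∧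
        ∃ ψ : YS j τ → ℂ, IsIrr ψ ∧ (∀ x, cen 𝔐 (i.comp (YS j τ).subtype) ψ x = ω x) ∧
          ip (resj (jS h.cl τ) ψ) (fun a => ∏ o, θ o ((a : O → G) o)) ≠ 0

/-- LIFT: the conditions on the data are conditions on the representatives. -/
def Stmt_LIFT : Prop :=
  ∀ (O G B C Y K : Type) [Fintype O] [DecidableEq O] [Group G] [Fintype G] [Group B] [Fintype B]
    [Group C] [Group Y] [Fintype Y] [Group K] [Finite K]
    (𝔐 : Ideal (integralClosure ℤ ℂ)) (ℓ : ℕ) [Fact ℓ.Prime]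
    (ι : G →* B) (κ : B →* MulAut G) (ρ : B →* C), LocW ℓ ι κ ρ →
    ∀ (j : (O → G) →* Y) (p : Y →* K) (φ : Y →* Gam (Equiv.Perm O) O B), ExtS ι κ j p φ →
    ∀ (J : Subgroup K) (r : O → O) (t : O → Y), RepJ p φ J r t →
    ∀ τ ∈ ClCh O G ℓ, ∀ θ : O → G → ℂ, (∀ o, IrrOn (stb (comp τ o)) (θ o)) →
    ∀ g : O → B, (∀ o, ρ (g o) = ρ ((φ (t o)).left o)) → (∀ o, trB κ τ θ (r o) o (g o)) →
      (J ≤ KB κ p φ τ θ ↔
        ∀ o, vg ρ p φ J (r o) ≤ (Stx κ (comp τ (r o)) (θ (r o))).map ρ) ∧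
      ∀ o, bts 𝔐 ι κ ρ p φ τ θ J o =
        (fun b0 x => b0 (((φ (t o)).left o)⁻¹ * x * (φ (t o)).left o)) ''
          bts 𝔐 ι κ ρ p φ τ θ J (r o)

open Classical in
/-- CNTG: the number of transports. -/
def Stmt_CNTG : Prop :=
  ∀ (O G B C Y K : Type) [Fintype O] [DecidableEq O] [Group G] [Fintype G] [Group B] [Fintype B]
    [Group C] [Group Y] [Fintype Y] [Group K] [Finite K]
    (ℓ : ℕ) [Fact ℓ.Prime] (ι : G →* B) (κ : B →* MulAut G) (ρ : B →* C), LocW ℓ ι κ ρ →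
    ∀ (j : (O → G) →* Y) (p : Y →* K) (φ : Y →* Gam (Equiv.Perm O) O B), ExtS ι κ j p φ →
    ∀ (J : Subgroup K) (r : O → O) (t : O → Y), RepJ p φ J r t →
    ∀ τ ∈ ClCh O G ℓ, ∀ θ : O → G → ℂ, (∀ o, IrrOn (stb (comp τ o)) (θ o)) →
      J ≤ KB κ p φ τ θ →
      Nat.card {g : O → B // (∀ o, r o = o → g o = 1) ∧
        (∀ o, ρ (g o) = ρ ((φ (t o)).left o)) ∧ ∀ o, trB κ τ θ (r o) o (g o)} =
        ∏ o ∈ Finset.univ.filter (fun o => r o ≠ o), Nat.card (stb (comp τ o))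

open Classical in
/-- TJ: the sum over the data whose group contains `J` vanishes. -/
def Stmt_TJ : Prop :=
  ∀ (O G B C Y K : Type) [Fintype O] [DecidableEq O] [Group G] [Fintype G] [Group B] [Fintype B]
    [Group C] [Group Y] [Fintype Y] [Group K] [Finite K]
    (𝔐 : Ideal (integralClosure ℤ ℂ)) (ℓ : ℕ) [Fact ℓ.Prime], 𝔐.IsMaximal →
    (ℓ : integralClosure ℤ ℂ) ∈ 𝔐 →
    ∀ (ι : G →* B) (κ : B →* MulAut G) (ρ : B →* C), LocW ℓ ι κ ρ →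
    (∀ (L : Subgroup C) (β : Set (B → (integralClosure ℤ ℂ) ⧸ 𝔐)) (e : ℕ),
      ¬ dzT 𝔐 ℓ ι β → VS 𝔐 ℓ ι κ ρ L β e = 0) →
    ∀ (j : (O → G) →* Y) (p : Y →* K) (φ : Y →* Gam (Equiv.Perm O) O B), ExtS ι κ j p φ →
    ∀ (J : Subgroup K) (e : ℕ) (β : O → Set (B → (integralClosure ℤ ℂ) ⧸ 𝔐)),
      (∃ o, ¬ dzT 𝔐 ℓ ι (β o)) →
      ∑ τ ∈ ClCh O G ℓ, (-1 : ℚ) ^ τ.card * ((∏ o, (Nat.card (stb (comp τ o)) : ℚ)) *
        ∑ θ ∈ Fintype.piFinset (fun o => irrOn (stb (comp τ o))),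
          (if J ≤ KB κ p φ τ θ ∧ ∑ o, df ℓ (stb (comp τ o)) (θ o) = e ∧
            bts 𝔐 ι κ ρ p φ τ θ J = β then 1 else 0)) = 0

open Classical in
/-- COMBR: the vanishing of the combinatorial sum. -/
def Stmt_COMBR : Prop :=
  ∀ (O G B C Y K : Type) [Fintype O] [DecidableEq O] [Group G] [Fintype G] [Group B] [Fintype B]
    [Group C] [Group Y] [Fintype Y] [Group K] [Finite K]
    (𝔐 : Ideal (integralClosure ℤ ℂ)) (ℓ : ℕ) [Fact ℓ.Prime]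
    (ι : G →* B) (κ : B →* MulAut G) (ρ : B →* C), LocW ℓ ι κ ρ →
    ∀ (j : (O → G) →* Y) (p : Y →* K) (φ : Y →* Gam (Equiv.Perm O) O B), ExtS ι κ j p φ →
    (∀ (J : Subgroup K) (e : ℕ) (β : O → Set (B → (integralClosure ℤ ℂ) ⧸ 𝔐)),
      (∃ o, ¬ dzT 𝔐 ℓ ι (β o)) →
      ∑ τ ∈ ClCh O G ℓ, (-1 : ℚ) ^ τ.card * ((∏ o, (Nat.card (stb (comp τ o)) : ℚ)) *
        ∑ θ ∈ Fintype.piFinset (fun o => irrOn (stb (comp τ o))),
          (if J ≤ KB κ p φ τ θ ∧ ∑ o, df ℓ (stb (comp τ o)) (θ o) = e ∧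
            bts 𝔐 ι κ ρ p φ τ θ J = β then 1 else 0)) = 0) →
    ∀ Φ : Subgroup K → ℕ → (O → Set (B → (integralClosure ℤ ℂ) ⧸ 𝔐)) → ℚ,
      (∀ J e β, Φ J e β ≠ 0 → ∃ o, ¬ dzT 𝔐 ℓ ι (β o)) →
      ∑ τ ∈ ClCh O G ℓ, (-1 : ℚ) ^ τ.card * ((∏ o, (Nat.card (stb (comp τ o)) : ℚ)) *
        ∑ θ ∈ Fintype.piFinset (fun o => irrOn (stb (comp τ o))),
          Φ (KB κ p φ τ θ) (∑ o, df ℓ (stb (comp τ o)) (θ o))
            (bts 𝔐 ι κ ρ p φ τ θ (KB κ p φ τ θ))) = 0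

/-- BLKCR: only the empty chain contributes to products of defect zero. -/
def Stmt_BLKCR : Prop :=
  ∀ (O G B C Y K X : Type) [Fintype O] [DecidableEq O] [Group G] [Fintype G] [Group B]
    [Fintype B] [Group C] [Group Y] [Fintype Y] [Group K] [Finite K] [Group X]
    (𝔐 : Ideal (integralClosure ℤ ℂ)) (ℓ : ℕ) [Fact ℓ.Prime], 𝔐.IsMaximal →
    (ℓ : integralClosure ℤ ℂ) ∈ 𝔐 →
    ∀ (ι : G →* B) (κ : B →* MulAut G) (ρ : B →* C), LocW ℓ ι κ ρ →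
    ∀ (j : (O → G) →* Y) (p : Y →* K) (φ : Y →* Gam (Equiv.Perm O) O B)
      (h : ExtS ι κ j p φ) (i : Y →* X), ∀ τ ∈ ClCh O G ℓ, ∀ θ : O → G → ℂ,
      (∀ o, IrrOn (stb (comp τ o)) (θ o)) → ∀ ψ : YS j τ → ℂ, IsIrr ψ →
      ip (resj (jS h.cl τ) ψ) (fun a => ∏ o, θ o ((a : O → G) o)) ≠ 0 →
      ∀ J : Subgroup K, (∀ o, dzT 𝔐 ℓ ι (bts 𝔐 ι κ ρ p φ τ θ J o)) →
      (∀ o, IsIrr (θ o)) ∧ (∀ o, HasDefect ℓ (θ o) 0) ∧
      ∃ ψ' : Y → ℂ, IsIrr ψ' ∧ ip (resj j ψ') (fun n => ∏ o, θ o (n o)) ≠ 0 ∧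
        ∀ x, cen 𝔐 i ψ' x = cen 𝔐 (i.comp (YS j τ).subtype) ψ x

end Pool.Agent.DPC


end

section

/-!
# Dade's conjecture for groups with a normal subgroup `G ^ Ω` on which a cyclic group of outer
automorphisms of arbitrary order acts: statements of the new modules (theorem C)
-/

namespace Pool.Agent.DPC

open Pool.Agent.DP Pool.Agent.Lib_helper13 Representation
open Pool.Agent.Lib_helper13.Dade (pCore DadeHolds dadeSum)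

/-! ### Local theory -/

open Classical in
/-- MOBBC: inversion, with defects. -/
def Stmt_MOBBC : Prop :=
  ∀ (C I V : Type) [Group C] [Finite C] [Fintype I] (ℓ : ℕ) [Fact ℓ.Prime], IsCyclic C →
    ∀ (L : Subgroup C) (w : I → ℚ) (k : I → Subgroup C) (v : I → V) (e : I → ℕ)
      (r : Subgroup C → V → V) (good : V → Prop),
      (∀ i, k i ≤ L) → (∀ i, r (k i) (v i) = v i) →
      (∀ L' L'' u, r L' (r L'' u) = r (L' ⊓ L'') u) → (∀ L' u, good (r L' u) ↔ good u) →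
      (∀ L' ≤ L, ∀ u, good u → ∀ d : ℕ,
        ∑ i, w i * (((Nat.card (L' ⊓ k i : Subgroup C) : ℚ) ^ 2 / Nat.card (k i)) *
          (if r L' (v i) = u ∧ e i + padicValNat ℓ (Nat.card (L' ⊓ k i : Subgroup C)) = d
            then 1 else 0)) = 0) →
      ∀ u, good u → ∀ e0 : ℕ, ∑ i, w i * (if k i = L ∧ v i = u ∧ e i = e0 then 1 else 0) = 0

/-- LTIC: for characters whose stabilizer covers `L`, the central functions with respect to the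
inverse image of `L` determine those with respect to `G`. -/
def Stmt_LTIC : Prop :=
  ∀ (G B C : Type) [Group G] [Fintype G] [Group B] [Fintype B] [Group C]
    (𝔐 : Ideal (integralClosure ℤ ℂ)) (ℓ : ℕ) [Fact ℓ.Prime]
    (ι : G →* B) (κ : B →* MulAut G) (ρ : B →* C), LocW ℓ ι κ ρ → 𝔐.IsMaximal →
    (ℓ : integralClosure ℤ ℂ) ∈ 𝔐 →
    ∀ (L : Subgroup C) (σ σ' : Finset (Subgroup G)) (ψ ψ' : G → ℂ) (f f' : B → ℂ),
      IsCh ℓ ⊥ σ → IsCh ℓ ⊥ σ' →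
      IrrOn (stb σ) ψ → IrrOn (stb σ') ψ' → L ≤ (Stx κ σ ψ).map ρ → L ≤ (Stx κ σ' ψ').map ρ →
      ExtL ι κ ρ σ ψ L f → ExtL ι κ ρ σ' ψ' L f' →
      (cgT 𝔐 (L.comap ρ) f = cgT 𝔐 (L.comap ρ) f' ↔ cgT 𝔐 ι.range f = cgT 𝔐 ι.range f')

/-- LKBC: Clifford theory in the inverse image of `L`. -/
def Stmt_LKBC : Prop :=
  ∀ (G B C : Type) [Group G] [Fintype G] [Group B] [Fintype B] [Group C]
    (𝔐 : Ideal (integralClosure ℤ ℂ)) (ℓ : ℕ) [Fact ℓ.Prime]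
    (ι : G →* B) (κ : B →* MulAut G) (ρ : B →* C), LocW ℓ ι κ ρ → 𝔐.IsMaximal →
    (ℓ : integralClosure ℤ ℂ) ∈ 𝔐 →
    ∀ (L : Subgroup C) [Fintype (L.comap ρ)] (σ : Finset (Subgroup G)) (Y : Subgroup (L.comap ρ))
      [Fintype Y], Y = (Stx κ σ (fun _ => 0)).comap (L.comap ρ).subtype →
    ∀ (e : ℕ) (ω : L.comap ρ → (integralClosure ℤ ℂ) ⧸ 𝔐),
      (Nat.card Y : ℚ) * cnt 𝔐 ℓ e Y.subtype ω =
        ∑ ψ ∈ irrOn (stb σ), (Nat.card (stb σ) : ℚ) * Nat.card (KL κ ρ σ ψ L) *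
          Nat.card {f : B → ℂ // ExtL ι κ ρ σ ψ L f ∧
            df ℓ (stb σ) ψ + padicValNat ℓ (Nat.card (KL κ ρ σ ψ L)) = e ∧
            ∀ g : L.comap ρ, cgT 𝔐 (L.comap ρ) f g = ω g}

/-- LZC: the characters of the inverse image of `L` over a character of `G`. -/
def Stmt_LZC : Prop :=
  ∀ (G B C : Type) [Group G] [Fintype G] [Group B] [Fintype B] [Group C]
    (𝔐 : Ideal (integralClosure ℤ ℂ)) (ℓ : ℕ) [Fact ℓ.Prime]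
    (ι : G →* B) (κ : B →* MulAut G) (ρ : B →* C), LocW ℓ ι κ ρ →
    ∀ (L : Subgroup C) [Fintype (L.comap ρ)] (ι' : G →* L.comap ρ), (∀ g, (ι' g : B) = ι g) →
    ∀ (χ : L.comap ρ → ℂ) (θ : G → ℂ), IsIrr χ → IsIrr θ → ip (resj ι' χ) θ ≠ 0 →
      ∃ f : B → ℂ, ExtL ι κ ρ ∅ θ L f ∧
        ∀ g : L.comap ρ, cgT 𝔐 (L.comap ρ) f g = cen 𝔐 (MonoidHom.id (L.comap ρ)) χ g

/-- VVC: the local sum vanishes outside the type of defect zero. -/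
def Stmt_VVC : Prop :=
  ∀ (G B C : Type) [Group G] [Fintype G] [Group B] [Fintype B] [Group C]
    (𝔐 : Ideal (integralClosure ℤ ℂ)) (ℓ : ℕ) [Fact ℓ.Prime]
    (ι : G →* B) (κ : B →* MulAut G) (ρ : B →* C), LocW ℓ ι κ ρ → 𝔐.IsMaximal →
    (ℓ : integralClosure ℤ ℂ) ∈ 𝔐 →
    (∀ (L : Subgroup C) (ι' : G →* L.comap ρ), (∀ g, (ι' g : B) = ι g) →
      PZ 𝔐 ℓ ι' (κ.comp (L.comap ρ).subtype)) →
    ∀ (L : Subgroup C) (β : Set (B → (integralClosure ℤ ℂ) ⧸ 𝔐)) (e : ℕ),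
      ¬ dzT 𝔐 ℓ ι β → VS 𝔐 ℓ ι κ ρ L β e = 0

/-! ### Partial sums -/

/-- DHR: the hypothesis for a subgroup. -/
def Stmt_DHR : Prop :=
  ∀ (G B : Type) [Group G] [Finite G] [Group B] [Finite B] (ℓ : ℕ) [Fact ℓ.Prime]
    (ι : G →* B), DH ℓ ι → ∀ (T : Subgroup B) (ι' : G →* T), (∀ g, (ι' g : B) = ι g) → DH ℓ ι'

/-- DER: the local group of an outer `ℓ`-subgroup. -/
def Stmt_DER : Prop :=
  ∀ (G B C : Type) [Group G] [Fintype G] [Group B] [Fintype B] [Group C] (ℓ : ℕ) [Fact ℓ.Prime]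
    (ι : G →* B) (κ : B →* MulAut G) (ρ : B →* C), LocW ℓ ι κ ρ →
    ∀ P : Subgroup B, IsPGroup ℓ P → P ⊓ ι.range = ⊥ →
    (∀ b : B, P.map (MulAut.conj b).toMonoidHom = P → b ∈ Subgroup.centralizer (P : Set B)) ∧
    ∃ (B1 C1 : Type) (_ : Group B1) (_ : Fintype B1) (_ : Group C1)
      (π : ↥(Subgroup.centralizer (P : Set B)) →* B1) (ι1 : ↥(FX κ P) →* B1)
      (κ1 : B1 →* MulAut ↥(FX κ P)) (ρ1 : B1 →* C1), LocW ℓ ι1 κ1 ρ1 ∧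
      Function.Surjective π ∧ (∀ x, π x = 1 ↔ (x : B) ∈ P) ∧
      (∀ (g : FX κ P) (x : Subgroup.centralizer (P : Set B)), (x : B) = ι g → π x = ι1 g) ∧
      (∀ (x : Subgroup.centralizer (P : Set B)) (g : FX κ P),
        ((κ1 (π x) g : FX κ P) : G) = κ x g) ∧
      (DH ℓ ι → DH ℓ ι1)

/-- TWE: passage to the quotient by a central `ℓ`-subgroup. -/
def Stmt_TWE : Prop :=
  ∀ (G1 S H C : Type) [Group G1] [Fintype G1] [Group S] [Fintype S] [Group H] [Fintype H]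
    [Group C] (𝔐 : Ideal (integralClosure ℤ ℂ)) (ℓ : ℕ) [Fact ℓ.Prime], 𝔐.IsMaximal →
    (ℓ : integralClosure ℤ ℂ) ∈ 𝔐 →
    ∀ (i : G1 →* S) (κ1 : H →* MulAut G1) (π : S →* H) (ρ : S →* C),
      ClG i (κ1.comp π) ρ → IsCyclic C → Function.Surjective π → IsPGroup ℓ π.ker →
      π.ker ≤ Subgroup.center S → π.ker ⊓ i.range = ⊥ →
      (∀ (e : ℕ) (ω : S → (integralClosure ℤ ℂ) ⧸ 𝔐), PSm 𝔐 ℓ (κ1.comp π) e ω ≠ 0 →
        ∃ (e' : ℕ) (ω' : H → (integralClosure ℤ ℂ) ⧸ 𝔐), PSm 𝔐 ℓ κ1 e' ω' ≠ 0 ∧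
          ω = fun x => ω' (π x)) ∧
      ∀ χ : H → ℂ, IsIrr χ → IsIrr (fun x => χ (π x)) ∧
        cen 𝔐 (MonoidHom.id S) (fun x => χ (π x)) = fun x => cen 𝔐 (MonoidHom.id H) χ (π x)

/-- MIX: refinement of the central functions. -/
def Stmt_MIX : Prop :=
  ∀ (X Y : Type) [Group X] [Fintype X] [Group Y] [Fintype Y]
    (𝔐 : Ideal (integralClosure ℤ ℂ)) (ℓ : ℕ) (i : Y →* X)
    (ω : X → (integralClosure ℤ ℂ) ⧸ 𝔐),
    ∃ F : Finset (Y → (integralClosure ℤ ℂ) ⧸ 𝔐),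
      (∀ (S : Subgroup Y) (d : ℕ), (cnt 𝔐 ℓ d (i.comp S.subtype) ω : ℚ) =
        ∑ ω' ∈ F, (cnt 𝔐 ℓ d S.subtype ω' : ℚ)) ∧
      ∀ ω' ∈ F, ∀ (S : Subgroup Y) (ψ : S → ℂ), IsIrr ψ → cen 𝔐 S.subtype ψ = ω' →
        cen 𝔐 (i.comp S.subtype) ψ = ω

/-- SPA: decomposition of the partial sum. -/
def Stmt_SPA : Prop :=
  ∀ (G B C : Type) [Group G] [Fintype G] [Group B] [Fintype B] [Group C]
    (𝔐 : Ideal (integralClosure ℤ ℂ)) (ℓ : ℕ) [Fact ℓ.Prime]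
    (ι : G →* B) (κ : B →* MulAut G) (ρ : B →* C), LocW ℓ ι κ ρ →
    ∀ (e : ℕ) (ω : B → (integralClosure ℤ ℂ) ⧸ 𝔐), PSm 𝔐 ℓ κ e ω ≠ 0 →
      KK 𝔐 ℓ e (⊥ : Subgroup B) ω ≠ 0 ∨
      ∃ E : Subgroup B, E ≠ ⊥ ∧ IsPGroup ℓ E ∧ E ⊓ ι.range = ⊥ ∧
        ∀ κE : ↥(Subgroup.centralizer (E : Set B)) →* MulAut ↥(FX κ E),
          (∀ x g, ((κE x g : FX κ E) : G) = κ x g) →
          ∃ ω' : ↥(Subgroup.centralizer (E : Set B)) → (integralClosure ℤ ℂ) ⧸ 𝔐,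
            PSm 𝔐 ℓ κE e ω' ≠ 0 ∧ ∀ ψ : ↥(Subgroup.centralizer (E : Set B)) → ℂ, IsIrr ψ →
              cen 𝔐 (MonoidHom.id _) ψ = ω' →
              cen 𝔐 (Subgroup.centralizer (E : Set B)).subtype ψ = ω

/-- SDZ: characters under a character of defect zero have defect zero. -/
def Stmt_SDZ : Prop :=
  ∀ (G B C : Type) [Group G] [Fintype G] [Group B] [Fintype B] [Group C] (ℓ : ℕ) [Fact ℓ.Prime]
    (ι : G →* B) (κ : B →* MulAut G) (ρ : B →* C), LocW ℓ ι κ ρ →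
    ∀ (χ : B → ℂ) (θ : G → ℂ), IsIrr χ → IsIrr θ → HasDefect ℓ χ 0 → ip (resj ι χ) θ ≠ 0 →
      HasDefect ℓ θ 0

/-- SYL: a class of defect zero of the fixed points of an `ℓ`-group of automorphisms. -/
def Stmt_SYL : Prop :=
  ∀ (G B : Type) [Group G] [Finite G] [Group B] [Finite B] (ℓ : ℕ) [Fact ℓ.Prime]
    (κ : B →* MulAut G) (P : Subgroup B), IsPGroup ℓ P → ∀ y ∈ FX κ P,
      (∀ g : G, g ∈ FX κ P → g * y = y * g → ∀ k : ℕ, g ^ ℓ ^ k = 1 → g = 1) →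
      (∀ g : G, g * y = y * g → ∀ k : ℕ, g ^ ℓ ^ k = 1 → g = 1) ∧
      ∀ g : G, g * y * g⁻¹ ∈ FX κ P → ∃ h ∈ FX κ P, g * y * g⁻¹ = h * y * h⁻¹

/-- DGN: the character of defect zero of `G` which corresponds to a character of defect zero of
the fixed points of an `ℓ`-group of automorphisms. -/
def Stmt_DGN : Prop :=
  ∀ (G B : Type) [Group G] [Fintype G] [Group B] [Fintype B]
    (𝔐 : Ideal (integralClosure ℤ ℂ)) (ℓ : ℕ) [Fact ℓ.Prime], 𝔐.IsMaximal →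
    (ℓ : integralClosure ℤ ℂ) ∈ 𝔐 → ∀ (κ : B →* MulAut G) (P : Subgroup B), IsPGroup ℓ P →
    ∀ θ : ↥(FX κ P) → ℂ, IsIrr θ → HasDefect ℓ θ 0 →
      ∃ ξ : G → ℂ, IsIrr ξ ∧ HasDefect ℓ ξ 0 ∧ ∀ F : G → ℂ, (∀ g x, F (g * x * g⁻¹) = F x) →
        (∀ b ∈ P, ∀ x, F (κ b x) = F x) → (∀ x, IsIntegral ℤ (F x)) →
        red 𝔐 (wt θ (fun x => F x)) = red 𝔐 (wt ξ F)

/-- DGNA: characters of the centralizer of an outer `ℓ`-subgroup over characters of defect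
zero. -/
def Stmt_DGNA : Prop :=
  ∀ (G B C : Type) [Group G] [Fintype G] [Group B] [Fintype B] [Group C]
    (𝔐 : Ideal (integralClosure ℤ ℂ)) (ℓ : ℕ) [Fact ℓ.Prime], 𝔐.IsMaximal →
    (ℓ : integralClosure ℤ ℂ) ∈ 𝔐 →
    ∀ (ι : G →* B) (κ : B →* MulAut G) (ρ : B →* C), LocW ℓ ι κ ρ →
    ∀ E : Subgroup B, E ≠ ⊥ → IsPGroup ℓ E → E ⊓ ι.range = ⊥ →
    ∀ (i : ↥(FX κ E) →* ↥(Subgroup.centralizer (E : Set B))), (∀ g, (i g : B) = ι g) →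
    ∀ (ψ : ↥(Subgroup.centralizer (E : Set B)) → ℂ) (θ : ↥(FX κ E) → ℂ), IsIrr ψ → IsIrr θ →
      HasDefect ℓ θ 0 → ip (resj i ψ) θ ≠ 0 →
      ∃ (χ : B → ℂ) (ξ : G → ℂ), IsIrr χ ∧ IsIrr ξ ∧ HasDefect ℓ ξ 0 ∧ ip (resj ι χ) ξ ≠ 0 ∧
        cen 𝔐 (MonoidHom.id B) χ = cen 𝔐 (Subgroup.centralizer (E : Set B)).subtype ψ

/-- PART: the partial sums. -/
def Stmt_PART : Prop :=
  ∀ (G B C : Type) [Group G] [Fintype G] [Group B] [Fintype B] [Group C]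
    (𝔐 : Ideal (integralClosure ℤ ℂ)) (ℓ : ℕ) [Fact ℓ.Prime], 𝔐.IsMaximal →
    (ℓ : integralClosure ℤ ℂ) ∈ 𝔐 →
    ∀ (ι : G →* B) (κ : B →* MulAut G) (ρ : B →* C), LocW ℓ ι κ ρ → DH ℓ ι → PZ 𝔐 ℓ ι κ

/-! ### The inner theorem -/

/-- RIN: the inner theorem. -/
def Stmt_RIN : Prop :=
  ∀ (O G B C Y K Y0 K0 : Type) [Fintype O] [DecidableEq O] [Group G] [Fintype G] [Group B]
    [Fintype B] [Group C] [Group Y] [Fintype Y] [Group K] [Finite K] [Group Y0] [Fintype Y0]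
    [Group K0] (𝔐 : Ideal (integralClosure ℤ ℂ)) (ℓ : ℕ) [Fact ℓ.Prime], 𝔐.IsMaximal →
    (ℓ : integralClosure ℤ ℂ) ∈ 𝔐 →
    ∀ (ι : G →* B) (κ : B →* MulAut G) (ρ : B →* C), LocW ℓ ι κ ρ →
    (∀ (L : Subgroup C) (β : Set (B → (integralClosure ℤ ℂ) ⧸ 𝔐)) (e : ℕ),
      ¬ dzT 𝔐 ℓ ι β → VS 𝔐 ℓ ι κ ρ L β e = 0) →
    ∀ (e0 : (O → G) →* Y0) (p0 : Y0 →* K0) (φ0 : Y0 →* Gam (Equiv.Perm O) O B)
      (j : (O → G) →* Y) (p : Y →* K) (φ : Y →* Gam (Equiv.Perm O) O B),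
      ExtS ι κ e0 p0 φ0 → ExtS ι κ j p φ →
    ∀ i : Y →* Y0, (∀ n, i (j n) = e0 n) → (∀ y, i y ∈ e0.range → y ∈ j.range) →
    ∀ (χ : Y0 → ℂ) (ξ : O → G → ℂ) (o : O) (e : ℕ), IsIrr χ → (∀ a, IsIrr (ξ a)) →
      ip (resj e0 χ) (fun n => ∏ a, ξ a (n a)) ≠ 0 → HasDefect ℓ (ξ o) e → 0 < e →
    ∀ d : ℕ, ∑ τ ∈ Ch ℓ (⊥ : Subgroup (O → G)), (-1 : ℚ) ^ τ.card *
      ((Nat.card (YS j τ) : ℚ) * cnt 𝔐 ℓ d (i.comp (YS j τ).subtype)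
        (cen 𝔐 (MonoidHom.id Y0) χ)) = 0

/-! ### The outer layer -/

/-- OUTA: if the centralizer of `Q` has no normal `ℓ`-subgroup then the coordinate groups of `Q`
are outer. -/
def Stmt_OUTA : Prop :=
  ∀ (Ω G B C X K : Type) [Fintype Ω] [DecidableEq Ω] [Group G] [Fintype G] [Group B]
    [Fintype B] [Group C] [Group X] [Fintype X] [Group K] (ℓ : ℕ) [Fact ℓ.Prime]
    (ι : G →* B) (κ : B →* MulAut G) (ρ : B →* C), LocW ℓ ι κ ρ →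
    ∀ (e : (Ω → G) →* X) (p : X →* K) (φ : X →* Gam (Equiv.Perm Ω) Ω B), ExtS ι κ e p φ →
    ∀ Q : Subgroup X, IsPGroup ℓ Q → Q ⊓ e.range = ⊥ → pCore ℓ (cN e.range Q) = ⊥ →
    ∀ w : Ω, IsPGroup ℓ (Pw φ Q w) ∧ Pw φ Q w ⊓ ι.range = ⊥

/-- OUTB: the centralizer of `Q` in `G ^ Ω`. -/
def Stmt_OUTB : Prop :=
  ∀ (Ω G B C X K : Type) [Fintype Ω] [DecidableEq Ω] [Group G] [Fintype G] [Group B]
    [Fintype B] [Group C] [Group X] [Fintype X] [Group K] (ℓ : ℕ) [Fact ℓ.Prime]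
    (ι : G →* B) (κ : B →* MulAut G) (ρ : B →* C), LocW ℓ ι κ ρ →
    ∀ (e : (Ω → G) →* X) (p : X →* K) (φ : X →* Gam (Equiv.Perm Ω) Ω B), ExtS ι κ e p φ →
    ∀ Q : Subgroup X, IsPGroup ℓ Q →
    ∃ (O : Type) (_ : Fintype O) (_ : DecidableEq O) (π : Ω → O) (s : O → Ω) (v : Ω → B),
      (∀ o, π (s o) = o) ∧ (∀ w w', π w = π w' ↔ ∃ q ∈ Q, (φ q).right • w = w') ∧
      (∀ o, ∃ k, Nat.card {w : Ω // π w = o} = ℓ ^ k) ∧
      (∀ w, ∃ q ∈ Q, (φ q).right • s (π w) = w ∧ (φ q).left w = v w) ∧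
      (∀ o, v (s o) = 1) ∧
      ∀ n : Ω → G, e n ∈ Subgroup.centralizer (Q : Set X) ↔
        ∃ n' : O → G, (∀ o, n' o ∈ FX κ (Pw φ Q (s o))) ∧ n = fun w => κ (v w) (n' (π w))

/-- OUTC: a coordinate of positive defect. -/
def Stmt_OUTC : Prop :=
  ∀ (Ω G B C X K : Type) [Fintype Ω] [DecidableEq Ω] [Group G] [Fintype G] [Group B]
    [Fintype B] [Group C] [Group X] [Fintype X] [Group K]
    (𝔐 : Ideal (integralClosure ℤ ℂ)) (ℓ : ℕ) [Fact ℓ.Prime], 𝔐.IsMaximal →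
    (ℓ : integralClosure ℤ ℂ) ∈ 𝔐 →
    ∀ (ι : G →* B) (κ : B →* MulAut G) (ρ : B →* C), LocW ℓ ι κ ρ →
    ∀ (e : (Ω → G) →* X) (p : X →* K) (φ : X →* Gam (Equiv.Perm Ω) Ω B), ExtS ι κ e p φ →
    ∀ Q : Subgroup X, IsPGroup ℓ Q → Q ⊓ e.range = ⊥ →
    (∀ w : Ω, IsPGroup ℓ (Pw φ Q w) ∧ Pw φ Q w ⊓ ι.range = ⊥) →
    ∀ Y : Subgroup X, (∀ y ∈ Y, Q.map (MulAut.conj y).toMonoidHom = Q) → cN e.range Q ≤ Y →
    ∀ (χ : X → ℂ) (ξ : Ω → G → ℂ) (w : Ω) (d : ℕ), IsIrr χ → (∀ a, IsIrr (ξ a)) →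
      ip (resj e χ) (fun n => ∏ a, ξ a (n a)) ≠ 0 → HasDefect ℓ (ξ w) d → 0 < d →
    ∀ ψ : Y → ℂ, IsIrr ψ → cen 𝔐 Y.subtype ψ = cen 𝔐 (MonoidHom.id X) χ →
      ∃ (w0 : Ω) (m : ↥(FX κ (Pw φ Q w0)) →* Y) (θ : ↥(FX κ (Pw φ Q w0)) → ℂ) (d' : ℕ),
        (∀ g : FX κ (Pw φ Q w0), Single κ e φ Q w0 g (m g)) ∧ IsIrr θ ∧ HasDefect ℓ θ d' ∧
        0 < d' ∧ ip (resj m ψ) θ ≠ 0

/-- OUTD: the structure of a group normalizing `Q` with respect to the coordinates in one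
orbit. -/
def Stmt_OUTD : Prop :=
  ∀ (Ω G B C X K : Type) [Fintype Ω] [DecidableEq Ω] [Group G] [Fintype G] [Group B]
    [Fintype B] [Group C] [Group X] [Fintype X] [Group K] (ℓ : ℕ) [Fact ℓ.Prime]
    (ι : G →* B) (κ : B →* MulAut G) (ρ : B →* C), LocW ℓ ι κ ρ →
    ∀ (e : (Ω → G) →* X) (p : X →* K) (φ : X →* Gam (Equiv.Perm Ω) Ω B), ExtS ι κ e p φ →
    ∀ Q : Subgroup X, IsPGroup ℓ Q → Q ⊓ e.range = ⊥ →
    ∀ w0 : Ω, IsPGroup ℓ (Pw φ Q w0) → Pw φ Q w0 ⊓ ι.range = ⊥ →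
    ∀ Y : Subgroup X, (∀ y ∈ Y, Q.map (MulAut.conj y).toMonoidHom = Q) → cN e.range Q ≤ Y →
    (∀ b : B, (Pw φ Q w0).map (MulAut.conj b).toMonoidHom = Pw φ Q w0 →
      b ∈ Subgroup.centralizer (Pw φ Q w0 : Set B)) →
    ∀ (B1 : Type) [Group B1] (π : ↥(Subgroup.centralizer (Pw φ Q w0 : Set B)) →* B1)
      (ι1 : ↥(FX κ (Pw φ Q w0)) →* B1) (κ1 : B1 →* MulAut ↥(FX κ (Pw φ Q w0))),
      Function.Surjective π → (∀ x, π x = 1 ↔ (x : B) ∈ Pw φ Q w0) →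
      (∀ (g : FX κ (Pw φ Q w0)) (x : Subgroup.centralizer (Pw φ Q w0 : Set B)),
        (x : B) = ι g → π x = ι1 g) →
      (∀ (x : Subgroup.centralizer (Pw φ Q w0 : Set B)) (g : FX κ (Pw φ Q w0)),
        ((κ1 (π x) g : FX κ (Pw φ Q w0)) : G) = κ x g) →
      ∃ (O1 K1 : Type) (_ : Fintype O1) (_ : DecidableEq O1) (_ : Group K1) (_ : Finite K1)
        (e1 : (O1 → ↥(FX κ (Pw φ Q w0))) →* Y) (p1 : Y →* K1)
        (φ1 : Y →* Gam (Equiv.Perm O1) O1 B1) (M2 : Subgroup Y) (o0 : O1),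
        ExtS ι1 κ1 e1 p1 φ1 ∧ M2.Normal ∧ M2 ⊓ e1.range = ⊥ ∧
        (∀ y : Y, (y : X) ∈ e.range ↔ y ∈ e1.range ⊔ M2) ∧
        (∀ x ∈ M2, ∀ n, x * e1 n = e1 n * x) ∧
        ∀ g : FX κ (Pw φ Q w0), Single κ e φ Q w0 g (e1 (Pi.mulSingle o0 g))

/-- CONST: constituents of a power. -/
def Stmt_CONST : Prop :=
  ∀ (O G Y : Type) [Fintype O] [DecidableEq O] [Group G] [Fintype G] [Group Y] [Fintype Y]
    (e : (O → G) →* Y), Function.Injective e → ∀ (ψ : Y → ℂ) (o : O) (θ : G → ℂ), IsIrr ψ →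
    IsIrr θ → ip (fun g => ψ (e (Pi.mulSingle o g))) θ ≠ 0 →
      ∃ ξ : O → G → ℂ, (∀ a, IsIrr (ξ a)) ∧ ξ o = θ ∧
        ip (resj e ψ) (fun n => ∏ a, ξ a (n a)) ≠ 0

/-- JOIN: chains of a direct product of two normal subgroups. -/
def Stmt_JOIN : Prop :=
  ∀ (Y N : Type) [Group Y] [Fintype Y] [Group N] [Fintype N] (ℓ : ℕ) [Fact ℓ.Prime]
    (j : N →* Y) (M2 M : Subgroup Y), Function.Injective j → j.range.Normal → M2.Normal →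
    M2 ⊓ j.range = ⊥ → M = j.range ⊔ M2 →
    ∀ W : Subgroup Y → ℚ,
      ∑ τ ∈ Ch ℓ (⊥ : Subgroup M), (-1 : ℚ) ^ τ.card * W (stb (mapCh M.subtype τ)) =
        ∑ τ2 ∈ Ch ℓ (⊥ : Subgroup M2), (-1 : ℚ) ^ τ2.card *
          ∑ τ1 ∈ Ch ℓ (⊥ : Subgroup N), (-1 : ℚ) ^ τ1.card *
            W (stb (mapCh j τ1) ⊓ stb (mapCh M2.subtype τ2))

/-- INY: the inner sum as a sum in the stabilizer of the outer chain. -/
def Stmt_INY : Prop :=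
  ∀ (X : Type) [Group X] [Fintype X] (ℓ : ℕ) [Fact ℓ.Prime] (Z N : Subgroup X) [Z.Normal]
    [N.Normal] (c : Finset (Subgroup X)), IsCh ℓ Z c → (∀ D ∈ c, D ⊓ N = ⊥) → Z ⊓ N = ⊥ →
    IsPGroup ℓ Z →
    IsPGroup ℓ (tp Z c) ∧ tp Z c ⊓ N = ⊥ ∧
    (∀ y ∈ stb c, (tp Z c).map (MulAut.conj y).toMonoidHom = tp Z c) ∧ cN N (tp Z c) ≤ stb c ∧
    (∀ y ∈ stb c, y ∈ N → y ∈ cN N (tp Z c)) ∧
    ∀ (M : Subgroup (stb c)), (∀ y : stb c, y ∈ M ↔ (y : X) ∈ N) → ∀ W : Subgroup X → ℚ,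
      innerS ℓ Z N W c = ∑ τ ∈ Ch ℓ (⊥ : Subgroup M), (-1 : ℚ) ^ τ.card *
        W ((stb (mapCh M.subtype τ)).map (stb c).subtype)

/-- RXC: the structure of `X`. -/
def Stmt_RXC : Prop :=
  ∀ (G X Ω : Type) [Group G] [Finite G] [Group X] [Finite X] [Finite Ω] (ℓ : ℕ) [Fact ℓ.Prime],
    Subgroup.center G = ⊥ → Nontrivial G →
    ∀ (a : MulAut G) (A : Subgroup (MulAut G)),
      A = (MulAut.conj : G →* MulAut G).range ⊔ Subgroup.zpowers a →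
      (∀ T : Subgroup (MulAut G), (MulAut.conj : G →* MulAut G).range ≤ T → T ≤ A →
        ∀ E : Subgroup (MulAut G), E ≤ T → IsPGroup ℓ E →
        E ⊓ (MulAut.conj : G →* MulAut G).range = ⊥ →
        ∀ (H : Type) [Group H] [Finite H]
          (q : ↥(T ⊓ Subgroup.centralizer (E : Set (MulAut G))) →* H),
          Function.Surjective q → (∀ x, q x = 1 ↔ (x : MulAut G) ∈ E) → pCore ℓ H = ⊥ →
          DadeHolds ℓ H) →
      ∀ e : (Ω → G) →* X, Function.Injective e →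
      (∀ y : X, ∃ (s : Equiv.Perm Ω) (α : Ω → MulAut G), (∀ i, α i ∈ A) ∧
        ∀ x : Ω → G, y * e x * y⁻¹ = e (fun i => α i (x (s i)))) →
      ∃ (B C K : Type) (_ : Group B) (_ : Fintype B) (_ : Group C) (_ : Group K) (_ : Finite K)
        (ι : G →* B) (κ : B →* MulAut G) (ρ : B →* C) (p : X →* K)
        (φ : X →* Gam (Equiv.Perm Ω) Ω B),
        LocW ℓ ι κ ρ ∧ DH ℓ ι ∧ ExtS ι κ e p φ

end Pool.Agent.DPC


end
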