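import Mathlib
import Pool.Agent.DAM.C08
import Pool.Agent.DAM.C10
import Pool.Agent.DAM.C11
import Pool.Agent.DAM.C12

/-! Parts: DPC.DefsZ, DPM.Defs, DPM.Stmts, DPM.INVU, DPN.Defs, DPK.Defs -/

section

/-!
# The blocks over a character of defect zero of a normal subgroup: definitions
-/

namespace Pool.Agent.DPC

open Pool.Agent.DP Pool.Agent.Lib_helper13 Representation
open Pool.Agent.Lib_helper13.Dade (pCore DadeHolds dadeSum)

/-! ### The correspondence of characters of defect zero -/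

/-- The character `θ'` of the fixed points of `P` corresponds to the character `θ` of `G`. -/
def DGr {G B : Type} [Group G] [Fintype G] [Group B] (𝔐 : Ideal (integralClosure ℤ ℂ))
    (κ : B →* MulAut G) (P : Subgroup B) (θ' : ↥(FX κ P) → ℂ) (θ : G → ℂ) : Prop :=
  ∀ F : G → ℂ, (∀ g x, F (g * x * g⁻¹) = F x) → (∀ b ∈ P, ∀ x, F (κ b x) = F x) →
    (∀ x, IsIntegral ℤ (F x)) → red 𝔐 (wt θ' (fun x => F x)) = red 𝔐 (wt θ F)

/-- A character of defect zero of the fixed points of `P` corresponds to `θ`. -/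
def GQ {G B : Type} [Group G] [Fintype G] [Group B] (𝔐 : Ideal (integralClosure ℤ ℂ)) (ℓ : ℕ)
    (κ : B →* MulAut G) (θ : G → ℂ) (P : Subgroup B) : Prop :=
  ∃ θ' : ↥(FX κ P) → ℂ, IsIrr θ' ∧ HasDefect ℓ θ' 0 ∧ DGr 𝔐 κ P θ' θ

/-! ### Sums over the fibres of the projection to the quotient -/

open Classical in
/-- The weighted sum over the fibre of `h`. -/
noncomputable def fib {X K : Type} [Group X] [Fintype X] [Group K] (p : X →* K) (E : X → ℂ)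
    (t : ℂ) (F : X → ℂ) (h : K) : ℂ :=
  (∑ x, if p x = h then F x * E x else 0) / t

/-- Local extensions: for every `ℓ`-subgroup `Q` which meets the normal subgroup `A` trivially and
every character `θ'` of defect zero of the centralizer of `Q` in `A` which corresponds to the
restriction of `E`, there is an extension `E'` of `θ'` to the normalizer of `Q` which is, up to a
factor, congruent to `E` on the centralizer of `Q`. -/
def TCH {A X : Type} [Group A] [Fintype A] [Group X] [Fintype X]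
    (𝔐 : Ideal (integralClosure ℤ ℂ)) (ℓ : ℕ) (j : A →* X) (c : X →* MulAut A) (E : X → ℂ) :
    Prop :=
  ∀ Q : Subgroup X, IsPGroup ℓ Q → Q ⊓ j.range = ⊥ → ∀ θ' : ↥(FX c Q) → ℂ, IsIrr θ' →
    HasDefect ℓ θ' 0 → DGr 𝔐 c Q θ' (fun a => E (j a)) →
    ∃ (E' : ↥(Subgroup.normalizer (Q : Set X)) → ℂ) (ε : ℂ), IsChr E' ∧ IsIntegral ℤ ε ∧
      red 𝔐 ε ≠ 0 ∧
      (∀ (a : FX c Q) (ha : j a ∈ Subgroup.normalizer (Q : Set X)), E' ⟨j a, ha⟩ = θ' a) ∧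
      ∀ s : ↥(Subgroup.normalizer (Q : Set X)), (∀ q ∈ Q, q * (s : X) = s * q) →
        red 𝔐 (E s) = red 𝔐 ε * red 𝔐 (E' s)

/-! ### Clifford theory -/

/-- The weighted number of the characters of the stabilizer of `σ` and `ξ` with prescribed
defect and central function which lie over the character corresponding to `ξ`. -/
noncomputable def Wd {A X : Type} [Group A] [Fintype A] [Group X] [Fintype X]
    (𝔐 : Ideal (integralClosure ℤ ℂ)) (ℓ d : ℕ) (j : A →* X) (c : X →* MulAut A)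
    (Z : Subgroup X) (ω : X → (integralClosure ℤ ℂ) ⧸ 𝔐) (ξ : A → ℂ)
    (σ : Finset (Subgroup X)) : ℚ :=
  (Nat.card ↥(inert c ξ ⊓ stb σ) : ℚ) * Nat.card {ψ : ↥(inert c ξ ⊓ stb σ) → ℂ // IsIrr ψ ∧
    (∃ θ' : ↥(FX c (tp Z σ)) → ℂ, IsIrr θ' ∧ HasDefect ℓ θ' 0 ∧ DGr 𝔐 c (tp Z σ) θ' ξ ∧
      ip (fun a : FX c (tp Z σ) => ext0 ψ (j a)) θ' ≠ 0) ∧
    HasDefect ℓ ψ d ∧ ∀ g, cen 𝔐 (inert c ξ ⊓ stb σ).subtype ψ g = ω g}

/-! ### Tensor induction -/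

/-- The product of the values of `n` along a part of length `r` of the cycle of `o`. -/
def cyp {O G : Type*} [Group G] (k : Equiv.Perm O) (n : O → G) (o : O) : ℕ → G
  | 0 => 1
  | r + 1 => cyp k n o r * n ((k⁻¹ ^ r) o)

/-- Tensor induction of a family of characters `f o` of the stabilizers of the points: the product
over the cycles of the values at the power which fixes the points of the cycle. -/
noncomputable def TI {O Y : Type*} [Group Y] (a : Y →* Equiv.Perm O) (f : O → Y → ℂ) (y : Y) : ℂ :=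
  ∏ᶠ s : Quotient (Equiv.Perm.SameCycle.setoid (a y)),
    f s.out (y ^ Function.minimalPeriod (a y) s.out)

/-- The stabilizer of a point. -/
def St {O Y : Type*} [Group Y] (a : Y →* Equiv.Perm O) (o : O) : Subgroup Y :=
  (MulAction.stabilizer (Equiv.Perm O) o).comap a

theorem mem_St {O Y : Type*} [Group Y] {a : Y →* Equiv.Perm O} {o : O} {y : Y} :
    y ∈ St a o ↔ a y o = o := by
  rw [St, Subgroup.mem_comap, MulAction.mem_stabilizer_iff]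
  rfl

/-- The group in which the local extension at the coordinate `w` is defined. -/
def Dw {Ω B X : Type*} [Group B] [Group X] (φ : X →* Gam (Equiv.Perm Ω) Ω B)
    (Q : Subgroup X) (w : Ω) : Subgroup B :=
  Pw φ ⊤ w ⊓ Subgroup.centralizer (Pw φ Q w : Set B)

end Pool.Agent.DPC


end

section

/-!
# The structure of a minimal counterexample to Dade's conjecture: definitions
-/

namespace Pool.Agent.DPM

open Pool.Agent.DP Pool.Agent.DPC Pool.Agent.Lib_helper13 Representation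
open Pool.Agent.Lib_helper13.Dade (pCore DadeHolds dadeSum)

/-- `η` lies over the linear character `μ` of the central subgroup `U`. -/
def OvL {L : Type} [Group L] (U : Subgroup L) (μ : U →* ℂˣ) (S : Subgroup L) (η : S → ℂ) : Prop :=
  ∀ (s t : S) (h : (s : L) ∈ U), η (s * t) = ((μ ⟨s, h⟩ : ℂˣ) : ℂ) * η t

/-- Dade's conjecture holds for the finite groups whose centre contains `O_ℓ` and has index at
most `n`. -/
def HQ (ℓ n : ℕ) : Prop :=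
  ∀ (Y : Type) [Group Y] [Finite Y], pCore ℓ Y ≤ Subgroup.center Y →
    (Subgroup.center Y).index ≤ n → DadeHolds ℓ Y

/-- The inner sum: over the chains of the normal subgroup `N` of `Y`, for the characters with
central function `ω` on `X`. -/
noncomputable def II {Y X : Type} [Group Y] [Fintype Y] [Group X]
    (𝔐 : Ideal (integralClosure ℤ ℂ)) (ℓ d : ℕ) (N : Subgroup Y) (i : Y →* X)
    (ω : X → (integralClosure ℤ ℂ) ⧸ 𝔐) : ℚ :=
  ∑ τ ∈ Ch ℓ (⊥ : Subgroup N), (-1 : ℚ) ^ τ.card *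
    ((Nat.card ↥(stb (mapCh N.subtype τ)) : ℚ) *
      cnt 𝔐 ℓ d (i.comp (stb (mapCh N.subtype τ)).subtype) ω)

/-- The inner sums of all normal subgroups `N` of `Y` vanish, except for the central functions of
the characters over characters of defect zero of `N`. -/
def PSt (ℓ : ℕ) (Y : Type) [Group Y] [Fintype Y] : Prop :=
  ∀ 𝔐 : Ideal (integralClosure ℤ ℂ), 𝔐.IsMaximal → (ℓ : integralClosure ℤ ℂ) ∈ 𝔐 →
    ∀ (N : Subgroup Y) [N.Normal] (d : ℕ) (ω : Y → (integralClosure ℤ ℂ) ⧸ 𝔐),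
      II 𝔐 ℓ d N (MonoidHom.id Y) ω ≠ 0 →
      ∃ (χ : Y → ℂ) (θ : N → ℂ), IsIrr χ ∧ IsIrr θ ∧ HasDefect ℓ θ 0 ∧
        ip (resj N.subtype χ) θ ≠ 0 ∧ cen 𝔐 (MonoidHom.id Y) χ = ω

/-! ### Twisted groups -/

/-- `T / A = K`; `θ` is an invariant irreducible character of `A`. `Γ` is a central extension of
`T` (by `r`) to which `θ` extends as `E`, `L` is the quotient of `Γ` by `A` (by `q`), a central
extension (by `π`) of `K` with kernel `U`, and `μ` is a faithful linear character of `U`. -/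
structure TWD {A T K Γ L : Type} [Group A] [Group T] [Group K] [Group Γ] [Group L]
    (j : A →* T) (p : T →* K) (θ : A → ℂ) (e : A →* Γ) (q : Γ →* L) (r : Γ →* T) (E : Γ → ℂ)
    (U : Subgroup L) (μ : U →* ℂˣ) (π : L →* K) : Prop where
  re : ∀ a, r (e a) = j a
  rs : Function.Surjective r
  qs : Function.Surjective q
  qk : ∀ γ, q γ = 1 ↔ γ ∈ e.range
  πq : ∀ γ, π (q γ) = p (r γ)
  πs : Function.Surjective π
  πk : ∀ l, π l = 1 ↔ l ∈ U
  rc : ∀ z γ, r z = 1 → z * γ = γ * z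
  Uc : U ≤ Subgroup.center L
  cyc : IsCyclic U
  inj : Function.Injective μ
  Ec : IsChr E
  Ee : ∀ a, E (e a) = θ a
  El : ∀ (z γ : Γ) (hU : q z ∈ U), r z = 1 → ((μ ⟨q z, hU⟩ : ℂˣ) : ℂ) * E (z * γ) = E γ
  ce : ∀ t, (∀ a, t * j a = j a * t) → ∃ γ, r γ = t ∧ ∀ γ', E (γ * γ') = E γ'

/-- The characters `ψ` of the inverse image in `T` and `η` of the inverse image in `L` of the
subgroup `V` of `K` correspond. -/
def Cor {T K Γ L : Type} [Group T] [Group K] [Group Γ] [Group L] (p : T →* K) (q : Γ →* L)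
    (r : Γ →* T) (E : Γ → ℂ) (π : L →* K) (V : Subgroup K) (ψ : ↥(V.comap p) → ℂ)
    (η : ↥(V.comap π) → ℂ) : Prop :=
  ∀ (γ : Γ) (h : r γ ∈ V.comap p) (h' : q γ ∈ V.comap π), ψ ⟨r γ, h⟩ = E γ * η ⟨q γ, h'⟩

/-- The inner sum over the chains of `N`, for the characters over the character `ν` of `Q`. -/
noncomputable def IJ {Q T X : Type} [Group Q] [Fintype Q] [Group T] [Fintype T] [Group X]
    (𝔐 : Ideal (integralClosure ℤ ℂ)) (ℓ d : ℕ) (j : Q →* T) (ν : Q → ℂ) (N : Subgroup T)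
    (i : T →* X) (ω : X → (integralClosure ℤ ℂ) ⧸ 𝔐) : ℚ :=
  ∑ τ ∈ Ch ℓ (⊥ : Subgroup N), (-1 : ℚ) ^ τ.card *
    ((Nat.card ↥(stb (mapCh N.subtype τ)) : ℚ) *
      Nat.card {ψ : ↥(stb (mapCh N.subtype τ)) → ℂ // IsIrr ψ ∧
        ip (fun x : Q => ext0 ψ (j x)) ν ≠ 0 ∧ HasDefect ℓ ψ d ∧
        cen 𝔐 (i.comp (stb (mapCh N.subtype τ)).subtype) ψ = ω})

/-- The inner sum over the chains of `N`, for the characters over the linear character `μ` of the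
central subgroup `U`. -/
noncomputable def IU {L : Type} [Group L] [Fintype L]
    (𝔐 : Ideal (integralClosure ℤ ℂ)) (ℓ d : ℕ) (U : Subgroup L) (μ : U →* ℂˣ) (N : Subgroup L)
    (c : L → (integralClosure ℤ ℂ) ⧸ 𝔐) : ℚ :=
  ∑ τ ∈ Ch ℓ (⊥ : Subgroup N), (-1 : ℚ) ^ τ.card *
    ((Nat.card ↥(stb (mapCh N.subtype τ)) : ℚ) *
      Nat.card {η : ↥(stb (mapCh N.subtype τ)) → ℂ // IsIrr η ∧ OvL U μ _ η ∧
        HasDefect ℓ η d ∧ cen 𝔐 (stb (mapCh N.subtype τ)).subtype η = c})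

/-- The inner sum over the chains of `N`, for the characters whose central function on `X` agrees
with `ω` on `M`. -/
noncomputable def PHY {Y X : Type} [Group Y] [Fintype Y] [Group X]
    (𝔐 : Ideal (integralClosure ℤ ℂ)) (ℓ d : ℕ) (N : Subgroup Y) (i : Y →* X) (M : Subgroup X)
    (ω : X → (integralClosure ℤ ℂ) ⧸ 𝔐) : ℚ :=
  ∑ τ ∈ Ch ℓ (⊥ : Subgroup N), (-1 : ℚ) ^ τ.card *
    ((Nat.card ↥(stb (mapCh N.subtype τ)) : ℚ) *
      Nat.card {ψ : ↥(stb (mapCh N.subtype τ)) → ℂ // IsIrr ψ ∧ HasDefect ℓ ψ d ∧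
        ∀ g ∈ M, cen 𝔐 (i.comp (stb (mapCh N.subtype τ)).subtype) ψ g = ω g})

/-! ### Moebius functions -/

open Classical in
/-- `μ V` is the Moebius function of the interval from `V` to `K`. -/
def Mob {K : Type} [Group K] [Fintype K] (μ : Subgroup K → ℚ) : Prop :=
  ∀ W : Subgroup K, ∑ V with W ≤ V, μ V = if W = ⊤ then 1 else 0

end Pool.Agent.DPM


end

section

/-!
# The structure of a minimal counterexample to Dade's conjecture: statements of the modules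
-/

namespace Pool.Agent.DPM

open Pool.Agent.DP Pool.Agent.DPC Pool.Agent.Lib_helper13 Representation
open Pool.Agent.Lib_helper13.Dade (pCore DadeHolds dadeSum)

/-! ### Moebius functions and Euler characteristics -/

open Classical in
/-- MOBX: Weisner's theorem. -/
def Stmt_MOBX : Prop :=
  ∀ (K : Type) [Group K] [Fintype K], (∃ m : Subgroup K → ℚ, Mob m) ∧
    ∀ m : Subgroup K → ℚ, Mob m → m ⊤ = 1 ∧
      ∀ K0 : Subgroup K, K0 ≠ ⊤ → ∀ g : Subgroup K → ℚ, ∑ V, m V * g (V ⊓ K0) = 0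

open Classical in
/-- EU: the complex of the `ℓ`-subgroups normalized by a subgroup with a normal `ℓ`-subgroup. -/
def Stmt_EU : Prop :=
  ∀ (K : Type) [Group K] [Fintype K] (ℓ : ℕ) [Fact ℓ.Prime] (U : Subgroup K), pCore ℓ U ≠ ⊥ →
    ∑ σ ∈ Ch ℓ (⊥ : Subgroup K) with U ≤ stb σ, (-1 : ℚ) ^ σ.card = 0

open Classical in
/-- INVU: functions of subgroups whose alternating sums over the chains vanish. -/
def Stmt_INVU : Prop :=
  ∀ (K : Type) [Group K] [Fintype K] (ℓ : ℕ) [Fact ℓ.Prime], pCore ℓ K = ⊥ →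
    ∀ g : Subgroup K → ℚ,
    (∀ V : Subgroup K, pCore ℓ V = ⊥ →
      ∑ σ ∈ Ch ℓ (⊥ : Subgroup V), (-1 : ℚ) ^ σ.card * g ((stb σ).map V.subtype) = 0) →
    ∀ m : Subgroup K → ℚ, Mob m → ∑ V, m V * g V = 0

open Classical in
/-- PAIRS: the Moebius sum of the numbers of characters over a linear character. -/
def Stmt_PAIRS : Prop :=
  ∀ (L K : Type) [Group L] [Fintype L] [Group K] [Fintype K] (π : L →* K),
    Function.Surjective π → ∀ (U : Subgroup L) (μ : U →* ℂˣ), U ≤ Subgroup.center L →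
    (∀ l, π l = 1 ↔ l ∈ U) → ∀ m : Subgroup K → ℚ, Mob m →
    ∑ V, m V * ((Nat.card V : ℚ) *
      Nat.card {η : ↥(V.comap π) → ℂ // IsIrr η ∧ OvL U μ _ η}) ≠ 0 →
    ∃ x y : K, x * y = y * x ∧ Subgroup.closure {x, y} = ⊤

/-! ### Twisted groups -/

/-- TWC: existence of the twisted group. -/
def Stmt_TWC : Prop :=
  ∀ (A T K : Type) [Group A] [Fintype A] [Group T] [Fintype T] [Group K] (j : A →* T)
    (c : T →* MulAut A) (p : T →* K), ClG j c p → Function.Surjective p →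
    ∀ θ : A → ℂ, IsIrr θ → (∀ t a, θ (c t a) = θ a) →
    ∃ (Γ L : Type) (_ : Group Γ) (_ : Fintype Γ) (_ : Group L) (_ : Fintype L) (e : A →* Γ)
      (q : Γ →* L) (r : Γ →* T) (E : Γ → ℂ) (U : Subgroup L) (μ : U →* ℂˣ) (π : L →* K),
      TWD j p θ e q r E U μ π

/-- TWN: the correspondence of characters. -/
def Stmt_TWN : Prop :=
  ∀ (A T K Γ L : Type) [Group A] [Fintype A] [Group T] [Fintype T] [Group K] [Finite K]
    [Group Γ] [Fintype Γ] [Group L] [Fintype L] (ℓ : ℕ) [Fact ℓ.Prime] (j : A →* T)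
    (c : T →* MulAut A) (p : T →* K), ClG j c p → Function.Surjective p → ∀ θ : A → ℂ, IsIrr θ →
    (∀ t a, θ (c t a) = θ a) →
    ∀ (e : A →* Γ) (q : Γ →* L) (r : Γ →* T) (E : Γ → ℂ) (U : Subgroup L) (μ : U →* ℂˣ)
      (π : L →* K), TWD j p θ e q r E U μ π → ∀ V : Subgroup K,
    Nat.card ↥(V.comap p) = Nat.card A * Nat.card V ∧
    Nat.card ↥(V.comap π) = Nat.card U * Nat.card V ∧
    (∀ η : ↥(V.comap π) → ℂ, IsIrr η → OvL U μ _ η → ∃ ψ : ↥(V.comap p) → ℂ, IsIrr ψ ∧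
      ip (fun a : A => ext0 ψ (j a)) θ ≠ 0 ∧ Cor p q r E π V ψ η) ∧
    (∀ ψ : ↥(V.comap p) → ℂ, IsIrr ψ → ip (fun a : A => ext0 ψ (j a)) θ ≠ 0 →
      ∃ η : ↥(V.comap π) → ℂ, IsIrr η ∧ OvL U μ _ η ∧ Cor p q r E π V ψ η) ∧
    (∀ (ψ ψ' : ↥(V.comap p) → ℂ) (η : ↥(V.comap π) → ℂ), Cor p q r E π V ψ η →
      Cor p q r E π V ψ' η → ψ = ψ') ∧
    (∀ (ψ : ↥(V.comap p) → ℂ) (η η' : ↥(V.comap π) → ℂ), IsIrr η → IsIrr η' →
      Cor p q r E π V ψ η → Cor p q r E π V ψ η' → η = η') ∧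
    (∀ (ψ : ↥(V.comap p) → ℂ) (η : ↥(V.comap π) → ℂ) (a d d' : ℕ), IsIrr η →
      Cor p q r E π V ψ η → HasDefect ℓ θ a → HasDefect ℓ ψ d → HasDefect ℓ η d' →
      d + padicValNat ℓ (Nat.card U) = d' + a) ∧
    ∀ (P : (↥(V.comap p) → ℂ) → Prop) (Q : (↥(V.comap π) → ℂ) → Prop),
      (∀ ψ η, IsIrr ψ → ip (fun a : A => ext0 ψ (j a)) θ ≠ 0 → IsIrr η → OvL U μ _ η →
        Cor p q r E π V ψ η → (P ψ ↔ Q η)) →
      Nat.card {ψ : ↥(V.comap p) → ℂ // IsIrr ψ ∧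
          ip (fun a : A => ext0 ψ (j a)) θ ≠ 0 ∧ P ψ} =
        Nat.card {η : ↥(V.comap π) → ℂ // IsIrr η ∧ OvL U μ _ η ∧ Q η}

/-- TWF: the central functions of corresponding characters. -/
def Stmt_TWF : Prop :=
  ∀ (A T K Γ L X : Type) [Group A] [Fintype A] [Group T] [Fintype T] [Group K] [Finite K]
    [Group Γ] [Fintype Γ] [Group L] [Fintype L] [Group X] [Fintype X] (j : A →* T)
    (c : T →* MulAut A) (p : T →* K), ClG j c p → Function.Surjective p → ∀ θ : A → ℂ, IsIrr θ →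
    (∀ t a, θ (c t a) = θ a) →
    ∀ (e : A →* Γ) (q : Γ →* L) (r : Γ →* T) (E : Γ → ℂ) (U : Subgroup L) (μ : U →* ℂˣ)
      (π : L →* K), TWD j p θ e q r E U μ π → ∀ i : T →* X,
    ∃ F : X → L → ℂ, (∀ g h l, F g (h * l * h⁻¹) = F g l) ∧ (∀ g l, IsIntegral ℤ (F g l)) ∧
      ∀ (V : Subgroup K) (ψ : ↥(V.comap p) → ℂ) (η : ↥(V.comap π) → ℂ), IsIrr ψ → IsIrr η →
        OvL U μ _ η → Cor p q r E π V ψ η →
        ∀ g, wt ψ (fun y => conjInd (i y) g) = wt η (fun l => F g l)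

/-- DEFA: the defect of a character is at least that of a character under it of a normal
subgroup. -/
def Stmt_DEFA : Prop :=
  ∀ (A Y K : Type) [Group A] [Fintype A] [Group Y] [Fintype Y] [Group K] (ℓ : ℕ) [Fact ℓ.Prime]
    (j : A →* Y) (c : Y →* MulAut A) (p : Y →* K), ClG j c p → ∀ (χ : Y → ℂ) (θ : A → ℂ),
    IsIrr χ → IsIrr θ → ip (resj j χ) θ ≠ 0 →
    ∀ d a : ℕ, HasDefect ℓ χ d → HasDefect ℓ θ a → a ≤ d

/-! ### Central `ℓ`-subgroups -/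

/-- BTC: a character of the same block over a given character of a central `ℓ`-subgroup. -/
def Stmt_BTC : Prop :=
  ∀ (L : Type) [Group L] [Fintype L] (𝔐 : Ideal (integralClosure ℤ ℂ)) (ℓ : ℕ) [Fact ℓ.Prime],
    𝔐.IsMaximal → (ℓ : integralClosure ℤ ℂ) ∈ 𝔐 → ∀ Z : Subgroup L, Z ≤ Subgroup.center L →
    IsPGroup ℓ Z → ∀ (lam : Z →* ℂˣ) (χ : L → ℂ), IsIrr χ →
      ∃ χ' : L → ℂ, IsIrr χ' ∧ (∀ (z : Z) (x : L), χ' (z * x) = ((lam z : ℂˣ) : ℂ) * χ' x) ∧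
        cen 𝔐 (MonoidHom.id L) χ' = cen 𝔐 (MonoidHom.id L) χ

/-- GAU: Galois automorphisms which raise the `ℓ`-power roots of unity to a power. -/
def Stmt_GAU : Prop :=
  ∀ (𝔐 : Ideal (integralClosure ℤ ℂ)) (ℓ : ℕ) [Fact ℓ.Prime], 𝔐.IsMaximal →
    (ℓ : integralClosure ℤ ℂ) ∈ 𝔐 → ∀ n k : ℕ, 0 < n → Nat.Coprime k n →
    (∀ m : ℕ, m ∣ n → ¬ ℓ ∣ m → k ≡ 1 [MOD m]) →
    ∃ σ : ℂ ≃+* ℂ, (∀ ζ : ℂ, ζ ^ n = 1 → σ ζ = ζ ^ k) ∧
      ∀ a : ℂ, IsIntegral ℤ a → a ∈ Dade90.cyc n → red 𝔐 (σ a) = red 𝔐 a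

/-- GALX: the numbers of characters over congruent faithful characters of a central subgroup. -/
def Stmt_GALX : Prop :=
  ∀ (L : Type) [Group L] [Fintype L] (𝔐 : Ideal (integralClosure ℤ ℂ)) (ℓ : ℕ) [Fact ℓ.Prime],
    𝔐.IsMaximal → (ℓ : integralClosure ℤ ℂ) ∈ 𝔐 → ∀ (U : Subgroup L) (μ ν : U →* ℂˣ),
    U ≤ Subgroup.center L → IsCyclic U → Function.Injective μ → Function.Injective ν →
    (∀ u, red 𝔐 ((μ u : ℂˣ) : ℂ) = red 𝔐 ((ν u : ℂˣ) : ℂ)) →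
    ∀ S : Subgroup L, U ≤ S → ∀ (d : ℕ) (c : L → (integralClosure ℤ ℂ) ⧸ 𝔐),
      Nat.card {η : S → ℂ // IsIrr η ∧ OvL U μ _ η ∧ HasDefect ℓ η d ∧ cen 𝔐 S.subtype η = c} =
        Nat.card {η : S → ℂ // IsIrr η ∧ OvL U ν _ η ∧ HasDefect ℓ η d ∧
          cen 𝔐 S.subtype η = c}

/-- QINF: characters of a quotient by a central subgroup. -/
def Stmt_QINF : Prop :=
  ∀ (L L' : Type) [Group L] [Fintype L] [Group L'] [Fintype L']
    (𝔐 : Ideal (integralClosure ℤ ℂ)) (ℓ : ℕ) [Fact ℓ.Prime], 𝔐.IsMaximal →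
    (ℓ : integralClosure ℤ ℂ) ∈ 𝔐 → ∀ q : L →* L', Function.Surjective q →
    q.ker ≤ Subgroup.center L →
    ∃ Θ : (L' → (integralClosure ℤ ℂ) ⧸ 𝔐) → L → (integralClosure ℤ ℂ) ⧸ 𝔐,
      ∀ S : Subgroup L, q.ker ≤ S →
        (∀ η' : S.map q → ℂ, IsIrr η' →
          IsIrr (fun x : S => η' ⟨q x, Subgroup.mem_map_of_mem q x.2⟩) ∧
          cen 𝔐 S.subtype (fun x : S => η' ⟨q x, Subgroup.mem_map_of_mem q x.2⟩) =
            Θ (cen 𝔐 (S.map q).subtype η') ∧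
          ∀ d, HasDefect ℓ (fun x : S => η' ⟨q x, Subgroup.mem_map_of_mem q x.2⟩)
            (d + padicValNat ℓ (Nat.card q.ker)) ↔ HasDefect ℓ η' d) ∧
        ∀ η : S → ℂ, IsIrr η → (∀ x y : S, q (x : L) = 1 → η (x * y) = η y) →
          ∃ η' : S.map q → ℂ, IsIrr η' ∧
            η = fun x : S => η' ⟨q x, Subgroup.mem_map_of_mem q x.2⟩

/-- ISOL: isolation of the characters over a faithful character of a central subgroup. -/
def Stmt_ISOL : Prop :=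
  ∀ (L ι : Type) [Group L] [Fintype L] (𝔐 : Ideal (integralClosure ℤ ℂ)) (ℓ : ℕ)
    [Fact ℓ.Prime], 𝔐.IsMaximal → (ℓ : integralClosure ℤ ℂ) ∈ 𝔐 →
    ∀ (U : Subgroup L) (μ : U →* ℂˣ), U ≤ Subgroup.center L → IsCyclic U →
    Function.Injective μ → ∀ (s : Finset ι) (w : ι → ℚ) (S : ι → Subgroup L),
    (∀ k ∈ s, U ≤ S k) → ∀ (d : ℕ) (c : L → (integralClosure ℤ ℂ) ⧸ 𝔐),
      ∑ k ∈ s, w k * Nat.card {η : S k → ℂ // IsIrr η ∧ OvL U μ _ η ∧ HasDefect ℓ η d ∧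
        cen 𝔐 (S k).subtype η = c} ≠ 0 →
      ∃ (L' : Type) (_ : Group L') (_ : Fintype L') (q : L →* L') (d' : ℕ)
        (c' : L' → (integralClosure ℤ ℂ) ⧸ 𝔐), Function.Surjective q ∧ q.ker ≤ U ∧
        IsPGroup ℓ q.ker ∧ d = d' + padicValNat ℓ (Nat.card q.ker) ∧
        ∑ k ∈ s, w k * cnt 𝔐 ℓ d' ((S k).map q).subtype c' ≠ 0 ∧
        ∀ (S' : Subgroup L), q.ker ≤ S' → ∀ η' : S'.map q → ℂ, IsIrr η' →
          cen 𝔐 (S'.map q).subtype η' = c' →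
          IsIrr (fun x : S' => η' ⟨q x, Subgroup.mem_map_of_mem q x.2⟩) ∧
          cen 𝔐 S'.subtype (fun x : S' => η' ⟨q x, Subgroup.mem_map_of_mem q x.2⟩) = c

/-- DZC: the chain sums of a group for which Dade's conjecture holds. -/
def Stmt_DZC : Prop :=
  ∀ (G : Type) [Group G] [Fintype G] (𝔐 : Ideal (integralClosure ℤ ℂ)) (ℓ : ℕ) [Fact ℓ.Prime],
    𝔐.IsMaximal → (ℓ : integralClosure ℤ ℂ) ∈ 𝔐 → pCore ℓ G ≤ Subgroup.center G →
    DadeHolds ℓ G → ∀ (d : ℕ) (c : G → (integralClosure ℤ ℂ) ⧸ 𝔐),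
      KK 𝔐 ℓ d (pCore ℓ G) c ≠ 0 →
      ℓ ^ d ≤ Nat.card (pCore ℓ G) ∧
      ∃ χ : G → ℂ, IsIrr χ ∧ (∀ z ∈ pCore ℓ G, ∀ x, χ (z * x) = χ x) ∧
        cen 𝔐 (MonoidHom.id G) χ = c ∧ ∀ e, HasDefect ℓ χ e → ℓ ^ e ≤ Nat.card (pCore ℓ G)

/-- CHC: the chains of a central extension. -/
def Stmt_CHC : Prop :=
  ∀ (L K : Type) [Group L] [Fintype L] [Group K] [Fintype K] (ℓ : ℕ) [Fact ℓ.Prime]
    (π : L →* K), Function.Surjective π → π.ker ≤ Subgroup.center L → pCore ℓ K = ⊥ →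
    pCore ℓ L ≤ Subgroup.center L ∧
    Nat.card (pCore ℓ L) = ℓ ^ padicValNat ℓ (Nat.card π.ker) ∧
    ∀ W : Subgroup L → ℚ, ∑ σ ∈ Ch ℓ (pCore ℓ L), (-1 : ℚ) ^ σ.card * W (stb σ) =
      ∑ σ ∈ Ch ℓ (⊥ : Subgroup K), (-1 : ℚ) ^ σ.card * W ((stb σ).comap π)

/-! ### Twisted sums -/

/-- TD: the twisted chain sums. -/
def Stmt_TD : Prop :=
  ∀ (A T K : Type) [Group A] [Fintype A] [Group T] [Fintype T] [Group K] [Fintype K]
    (𝔐 : Ideal (integralClosure ℤ ℂ)) (ℓ : ℕ) [Fact ℓ.Prime], 𝔐.IsMaximal →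
    (ℓ : integralClosure ℤ ℂ) ∈ 𝔐 → ∀ (j : A →* T) (c : T →* MulAut A) (p : T →* K),
    ClG j c p → Function.Surjective p → pCore ℓ K = ⊥ → HQ ℓ (Nat.card K) →
    ∀ θ : A → ℂ, IsIrr θ → (∀ t a, θ (c t a) = θ a) → ∀ a e : ℕ, HasDefect ℓ θ a → 0 < e →
    ∑ σ ∈ Ch ℓ (⊥ : Subgroup K), (-1 : ℚ) ^ σ.card * ((Nat.card (stb σ) : ℚ) *
      Nat.card {ψ : ↥((stb σ).comap p) → ℂ // IsIrr ψ ∧
        ip (fun a : A => ext0 ψ (j a)) θ ≠ 0 ∧ HasDefect ℓ ψ (a + e)}) = 0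

open Classical in
/-- TOP: the Moebius sums of the numbers of characters over an invariant character. -/
def Stmt_TOP : Prop :=
  ∀ (A T K : Type) [Group A] [Fintype A] [Group T] [Fintype T] [Group K] [Fintype K]
    (𝔐 : Ideal (integralClosure ℤ ℂ)) (ℓ : ℕ) [Fact ℓ.Prime], 𝔐.IsMaximal →
    (ℓ : integralClosure ℤ ℂ) ∈ 𝔐 → ∀ (j : A →* T) (c : T →* MulAut A) (p : T →* K),
    ClG j c p → Function.Surjective p → pCore ℓ K = ⊥ → HQ ℓ (Nat.card K) →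
    ∀ θ : A → ℂ, IsIrr θ → (∀ t a, θ (c t a) = θ a) →
    ∀ (d : ℕ) (m : Subgroup K → ℚ), Mob m →
    ∑ V, m V * ((Nat.card V : ℚ) * Nat.card {ψ : ↥(V.comap p) → ℂ // IsIrr ψ ∧
      ip (fun a : A => ext0 ψ (j a)) θ ≠ 0 ∧ HasDefect ℓ ψ d}) ≠ 0 →
    ∃ x y : K, x * y = y * x ∧ Subgroup.closure {x, y} = ⊤

/-! ### Inner sums -/

/-- PSA: the inner sum and the chain sum. -/
def Stmt_PSA : Prop :=
  ∀ (Y : Type) [Group Y] [Fintype Y] (𝔐 : Ideal (integralClosure ℤ ℂ)) (ℓ : ℕ) [Fact ℓ.Prime]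
    (N : Subgroup Y) [N.Normal] (d : ℕ) (ω : Y → (integralClosure ℤ ℂ) ⧸ 𝔐),
    (II 𝔐 ℓ d N (MonoidHom.id Y) ω ≠ 0 → pCore ℓ N = ⊥) ∧
    ∀ Z : Subgroup Y, Z ≤ Subgroup.center Y → IsPGroup ℓ Z → Z ⊓ N = ⊥ →
      KK 𝔐 ℓ d Z ω ≠ II 𝔐 ℓ d N (MonoidHom.id Y) ω →
      ∃ c ∈ OutC ℓ Z N, c ≠ ∅ ∧ innerS ℓ Z N (WW 𝔐 ℓ d ω) c ≠ 0

/-- PSB: the chain sum of a group for which Dade's conjecture holds. -/
def Stmt_PSB : Prop :=
  ∀ (Y : Type) [Group Y] [Fintype Y] (𝔐 : Ideal (integralClosure ℤ ℂ)) (ℓ : ℕ) [Fact ℓ.Prime],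
    𝔐.IsMaximal → (ℓ : integralClosure ℤ ℂ) ∈ 𝔐 → pCore ℓ Y ≤ Subgroup.center Y →
    DadeHolds ℓ Y → ∀ (N : Subgroup Y) [N.Normal], pCore ℓ N = ⊥ →
    ∀ (d : ℕ) (ω : Y → (integralClosure ℤ ℂ) ⧸ 𝔐), KK 𝔐 ℓ d (pCore ℓ Y) ω ≠ 0 →
    ∃ (χ : Y → ℂ) (θ : N → ℂ), IsIrr χ ∧ IsIrr θ ∧ HasDefect ℓ θ 0 ∧
      ip (resj N.subtype χ) θ ≠ 0 ∧ cen 𝔐 (MonoidHom.id Y) χ = ω

/-- CLC: counting characters by means of the Clifford correspondence. -/
def Stmt_CLC : Prop :=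
  ∀ (A Y K : Type) [Group A] [Fintype A] [Group Y] [Fintype Y] [Group K] (ℓ : ℕ) [Fact ℓ.Prime]
    (j : A →* Y) (c : Y →* MulAut A) (p : Y →* K), ClG j c p →
    ∀ (P : (Y → ℂ) → Prop) (d : ℕ),
      (Nat.card Y : ℚ) * Nat.card {χ : Y → ℂ // IsIrr χ ∧ HasDefect ℓ χ d ∧ P χ} =
        ∑ θ ∈ irrF A, (Nat.card (inert c θ) : ℚ) * Nat.card {ψ : inert c θ → ℂ // IsIrr ψ ∧
          ip (fun a => ext0 ψ (j a)) θ ≠ 0 ∧ HasDefect ℓ ψ d ∧ P (indc (inert c θ) ψ)}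

/-- PSC: Clifford theory for a normal subgroup centralized by `N`. -/
def Stmt_PSC : Prop :=
  ∀ (Y : Type) [Group Y] [Fintype Y] (𝔐 : Ideal (integralClosure ℤ ℂ)) (ℓ : ℕ) [Fact ℓ.Prime],
    𝔐.IsMaximal → (ℓ : integralClosure ℤ ℂ) ∈ 𝔐 → ∀ (Q N : Subgroup Y) [Q.Normal] [N.Normal],
    N ≤ Subgroup.centralizer (Q : Set Y) → ∀ (d : ℕ) (ω : Y → (integralClosure ℤ ℂ) ⧸ 𝔐),
    II 𝔐 ℓ d N (MonoidHom.id Y) ω ≠ 0 →
    ∃ (T : Subgroup Y) (hQ : Q ≤ T) (ν : Q → ℂ), N ≤ T ∧ Subgroup.center Y ≤ T ∧ IsIrr ν ∧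
      (∀ (t : T) (a b : Q), (b : Y) = t * a * (t : Y)⁻¹ → ν b = ν a) ∧
      IJ 𝔐 ℓ d (Subgroup.inclusion hQ) ν (N.subgroupOf T) T.subtype ω ≠ 0 ∧
      ∀ (ψ : T → ℂ) (θ : N.subgroupOf T → ℂ), IsIrr ψ →
        ip (resj (Subgroup.inclusion hQ) ψ) ν ≠ 0 → IsIrr θ → HasDefect ℓ θ 0 →
        ip (resj (N.subgroupOf T).subtype ψ) θ ≠ 0 →
        ∃ (ψ1 : Y → ℂ) (θ1 : N → ℂ), IsIrr ψ1 ∧ IsIrr θ1 ∧ HasDefect ℓ θ1 0 ∧
          ip (resj N.subtype ψ1) θ1 ≠ 0 ∧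
          cen 𝔐 (MonoidHom.id Y) ψ1 = cen 𝔐 T.subtype ψ

/-- PSDA: passage to the twisted group. -/
def Stmt_PSDA : Prop :=
  ∀ (A T X : Type) [Group A] [Fintype A] [Group T] [Fintype T] [Group X] [Fintype X]
    (𝔐 : Ideal (integralClosure ℤ ℂ)) (ℓ : ℕ) [Fact ℓ.Prime], 𝔐.IsMaximal →
    (ℓ : integralClosure ℤ ℂ) ∈ 𝔐 → ∀ j : A →* T, Function.Injective j → j.range.Normal →
    ∀ ν : A → ℂ, IsIrr ν → (∀ (t : T) (a b : A), j b = t * j a * t⁻¹ → ν b = ν a) →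
    ∀ (N : Subgroup T) [N.Normal], N ≤ Subgroup.centralizer (j.range : Set T) →
    N ⊓ j.range = ⊥ → ∀ (i : T →* X) (d : ℕ) (ω : X → (integralClosure ℤ ℂ) ⧸ 𝔐),
    IJ 𝔐 ℓ d j ν N i ω ≠ 0 → ∀ Z1 : Subgroup T, Z1 ≤ Subgroup.center T →
    ∃ (L : Type) (_ : Group L) (_ : Fintype L) (U : Subgroup L) (μ : U →* ℂˣ)
      (N1 : Subgroup L) (d1 : ℕ) (c : L → (integralClosure ℤ ℂ) ⧸ 𝔐),
      U ≤ Subgroup.center L ∧ IsCyclic U ∧ Function.Injective μ ∧ N1.Normal ∧ N1 ⊓ U = ⊥ ∧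
      (Subgroup.center L).index ≤ (Z1 ⊔ j.range).index ∧ IU 𝔐 ℓ d1 U μ N1 c ≠ 0 ∧
      ∀ (χ : L → ℂ) (θ1 : N1 → ℂ), IsIrr χ →
        (∀ (u l : L) (h : u ∈ U), χ (u * l) = ((μ ⟨u, h⟩ : ℂˣ) : ℂ) * χ l) →
        cen 𝔐 (MonoidHom.id L) χ = c → IsIrr θ1 → HasDefect ℓ θ1 0 →
        ip (resj N1.subtype χ) θ1 ≠ 0 →
        ∃ (ψ : T → ℂ) (θ : N → ℂ), IsIrr ψ ∧ ip (resj j ψ) ν ≠ 0 ∧ IsIrr θ ∧
          HasDefect ℓ θ 0 ∧ ip (resj N.subtype ψ) θ ≠ 0 ∧ cen 𝔐 i ψ = ω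

/-- PSDB: isolation. -/
def Stmt_PSDB : Prop :=
  ∀ (L : Type) [Group L] [Fintype L] (𝔐 : Ideal (integralClosure ℤ ℂ)) (ℓ : ℕ) [Fact ℓ.Prime],
    𝔐.IsMaximal → (ℓ : integralClosure ℤ ℂ) ∈ 𝔐 → ∀ (U : Subgroup L) (μ : U →* ℂˣ),
    U ≤ Subgroup.center L → IsCyclic U → Function.Injective μ →
    ∀ (N : Subgroup L) [N.Normal], N ⊓ U = ⊥ →
    ∀ (d : ℕ) (c : L → (integralClosure ℤ ℂ) ⧸ 𝔐), IU 𝔐 ℓ d U μ N c ≠ 0 →
    (∀ (L' : Type) [Group L'] [Fintype L'],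
      (Subgroup.center L').index ≤ (Subgroup.center L).index → PSt ℓ L') →
    ∃ (χ : L → ℂ) (θ : N → ℂ), IsIrr χ ∧ IsIrr θ ∧ HasDefect ℓ θ 0 ∧
      ip (resj N.subtype χ) θ ≠ 0 ∧ cen 𝔐 (MonoidHom.id L) χ = c ∧
      ∀ (u l : L) (h : u ∈ U), χ (u * l) = ((μ ⟨u, h⟩ : ℂˣ) : ℂ) * χ l

/-- PSDD: the sum over an invariant character. -/
def Stmt_PSDD : Prop :=
  ∀ (A T X : Type) [Group A] [Fintype A] [Group T] [Fintype T] [Group X] [Fintype X]
    (𝔐 : Ideal (integralClosure ℤ ℂ)) (ℓ : ℕ) [Fact ℓ.Prime], 𝔐.IsMaximal →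
    (ℓ : integralClosure ℤ ℂ) ∈ 𝔐 → ∀ j : A →* T, Function.Injective j → j.range.Normal →
    ∀ ν : A → ℂ, IsIrr ν → (∀ (t : T) (a b : A), j b = t * j a * t⁻¹ → ν b = ν a) →
    ∀ (N : Subgroup T) [N.Normal], N ≤ Subgroup.centralizer (j.range : Set T) →
    N ⊓ j.range = ⊥ → ∀ (i : T →* X) (d : ℕ) (ω : X → (integralClosure ℤ ℂ) ⧸ 𝔐),
    IJ 𝔐 ℓ d j ν N i ω ≠ 0 → ∀ Z1 : Subgroup T, Z1 ≤ Subgroup.center T →
    (∀ (L' : Type) [Group L'] [Fintype L'],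
      (Subgroup.center L').index ≤ (Z1 ⊔ j.range).index → PSt ℓ L') →
    ∃ (ψ : T → ℂ) (θ : N → ℂ), IsIrr ψ ∧ ip (resj j ψ) ν ≠ 0 ∧ IsIrr θ ∧
      HasDefect ℓ θ 0 ∧ ip (resj N.subtype ψ) θ ≠ 0 ∧ cen 𝔐 i ψ = ω

/-- PSG: characters of the stabilizer of an outer chain over characters of defect zero. -/
def Stmt_PSG : Prop :=
  ∀ (Y : Type) [Group Y] [Fintype Y] (𝔐 : Ideal (integralClosure ℤ ℂ)) (ℓ : ℕ) [Fact ℓ.Prime],
    𝔐.IsMaximal → (ℓ : integralClosure ℤ ℂ) ∈ 𝔐 → ∀ (Z N : Subgroup Y) [Z.Normal] [N.Normal],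
    IsPGroup ℓ Z → Z ⊓ N = ⊥ → ∀ c : Finset (Subgroup Y), IsCh ℓ Z c →
    (∀ D ∈ c, D ⊓ N = ⊥) → ∀ M : Subgroup (stb c), (∀ y : stb c, y ∈ M ↔ (y : Y) ∈ N) →
    ∀ (ψ : stb c → ℂ) (θ : M → ℂ), IsIrr ψ → IsIrr θ → HasDefect ℓ θ 0 →
      ip (resj M.subtype ψ) θ ≠ 0 →
    ∃ (χ : Y → ℂ) (ξ : N → ℂ), IsIrr χ ∧ IsIrr ξ ∧ HasDefect ℓ ξ 0 ∧
      ip (resj N.subtype χ) ξ ≠ 0 ∧ cen 𝔐 (MonoidHom.id Y) χ = cen 𝔐 (stb c).subtype ψ

/-- PSE: the contribution of a nonempty outer chain. -/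
def Stmt_PSE : Prop :=
  ∀ (Y : Type) [Group Y] [Fintype Y] (𝔐 : Ideal (integralClosure ℤ ℂ)) (ℓ : ℕ) [Fact ℓ.Prime],
    𝔐.IsMaximal → (ℓ : integralClosure ℤ ℂ) ∈ 𝔐 → ∀ (Z N : Subgroup Y) [N.Normal],
    Z = pCore ℓ Y ⊓ Subgroup.center Y → Z ⊓ N = ⊥ →
    (∀ (L : Type) [Group L] [Fintype L],
      (Subgroup.center L).index < (Subgroup.center Y).index → PSt ℓ L) →
    ∀ c ∈ OutC ℓ Z N, c ≠ ∅ → ∀ (d : ℕ) (ω : Y → (integralClosure ℤ ℂ) ⧸ 𝔐),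
    innerS ℓ Z N (WW 𝔐 ℓ d ω) c ≠ 0 →
    ∃ (χ : Y → ℂ) (θ : N → ℂ), IsIrr χ ∧ IsIrr θ ∧ HasDefect ℓ θ 0 ∧
      ip (resj N.subtype χ) θ ≠ 0 ∧ cen 𝔐 (MonoidHom.id Y) χ = ω

/-- PSI: the inner sums. -/
def Stmt_PSI : Prop :=
  ∀ (ℓ : ℕ) [Fact ℓ.Prime] (Y : Type) [Group Y] [Fintype Y],
    HQ ℓ (Subgroup.center Y).index → PSt ℓ Y

/-! ### The minimal counterexample -/

/-- RCE: the central function on a normal subgroup. -/
def Stmt_RCE : Prop :=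
  ∀ (A T K X : Type) [Group A] [Fintype A] [Group T] [Fintype T] [Group K] [Group X]
    (𝔐 : Ideal (integralClosure ℤ ℂ)) (j : A →* T) (c : T →* MulAut A) (p : T →* K),
    ClG j c p → ∀ (i : T →* X) (M : Subgroup X), M.Normal → (∀ t, i t ∈ M → t ∈ j.range) →
    ∀ (ψ : T → ℂ) (θ : A → ℂ), IsIrr ψ → IsIrr θ → ip (resj j ψ) θ ≠ 0 →
      ∀ g ∈ M, cen 𝔐 i ψ g = cen 𝔐 (i.comp j) θ g

/-- CVX: characters of a normal subgroup which agree on the classes of the group belong to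
conjugate blocks. -/
def Stmt_CVX : Prop :=
  ∀ (X : Type) [Group X] [Fintype X] (𝔐 : Ideal (integralClosure ℤ ℂ)) (ℓ : ℕ) [Fact ℓ.Prime],
    𝔐.IsMaximal → (ℓ : integralClosure ℤ ℂ) ∈ 𝔐 → ∀ (M : Subgroup X) [M.Normal]
    (ξ ξ1 : M → ℂ), IsIrr ξ → IsIrr ξ1 →
    (∀ g ∈ M, cen 𝔐 M.subtype ξ g = cen 𝔐 M.subtype ξ1 g) →
    ∃ x : X, IsIrr (fun m : M => ξ1 (MulAut.conjNormal x m)) ∧
      cen 𝔐 (MonoidHom.id M) (fun m : M => ξ1 (MulAut.conjNormal x m)) =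
        cen 𝔐 (MonoidHom.id M) ξ ∧
      ∀ d : ℕ, HasDefect ℓ (fun m : M => ξ1 (MulAut.conjNormal x m)) d ↔ HasDefect ℓ ξ1 d

/-- MXM: refinement of the central functions. -/
def Stmt_MXM : Prop :=
  ∀ (Y X : Type) [Group Y] [Fintype Y] [Group X] [Fintype X]
    (𝔐 : Ideal (integralClosure ℤ ℂ)) (ℓ : ℕ) [Fact ℓ.Prime], 𝔐.IsMaximal →
    (ℓ : integralClosure ℤ ℂ) ∈ 𝔐 → ∀ (N : Subgroup Y) (i : Y →* X) (M : Subgroup X) (d : ℕ)
    (ω : X → (integralClosure ℤ ℂ) ⧸ 𝔐),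
    ∃ F : Finset (Y → (integralClosure ℤ ℂ) ⧸ 𝔐),
      PHY 𝔐 ℓ d N i M ω = ∑ ω' ∈ F, II 𝔐 ℓ d N (MonoidHom.id Y) ω' ∧
      (∀ ω' ∈ F, ∀ χ : Y → ℂ, IsIrr χ → cen 𝔐 (MonoidHom.id Y) χ = ω' →
        ∀ g ∈ M, cen 𝔐 i χ g = ω g) ∧
      ∀ χ : Y → ℂ, IsIrr χ → (∀ g ∈ M, cen 𝔐 i χ g = ω g) →
        II 𝔐 ℓ d N (MonoidHom.id Y) (cen 𝔐 (MonoidHom.id Y) χ) ≠ 0 →
        cen 𝔐 (MonoidHom.id Y) χ ∈ F

open Classical in
/-- EXPB: the sum over the chains of `M` in terms of the stabilizers of pairs. -/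
def Stmt_EXPB : Prop :=
  ∀ (X H : Type) [Group X] [Fintype X] [Group H] [Fintype H]
    (𝔐 : Ideal (integralClosure ℤ ℂ)) (ℓ : ℕ) [Fact ℓ.Prime], 𝔐.IsMaximal →
    (ℓ : integralClosure ℤ ℂ) ∈ 𝔐 → ∀ (M : Subgroup X) [M.Normal] (c : X →* MulAut M)
    (p : X →* H) (h : ClG M.subtype c p), Function.Surjective p →
    ∀ (d : ℕ) (ω : X → (integralClosure ℤ ℂ) ⧸ 𝔐) (V : Subgroup H),
      PHY 𝔐 ℓ d (M.subgroupOf (V.comap p)) (V.comap p).subtype M ω =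
        ∑ τ ∈ Ch ℓ (⊥ : Subgroup M), (-1 : ℚ) ^ τ.card *
          ∑ θ ∈ irrF (stb τ) with ∀ g ∈ M, cen 𝔐 (M.subtype.comp (stb τ).subtype) θ g = ω g,
            (Nat.card (stb τ) : ℚ) *
              ((Nat.card ↥(V ⊓ (inert (cS h τ) θ).map (pS p M.subtype τ)) : ℚ) *
                Nat.card {ψ : ↥(V.comap ((pS p M.subtype τ).comp
                    (inert (cS h τ) θ).subtype)) → ℂ // IsIrr ψ ∧
                  ip (fun a : stb τ => ext0 (ext0 ψ) (jS h τ a)) θ ≠ 0 ∧ HasDefect ℓ ψ d})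

open Classical in
/-- EXPA: an invariant pair with a nonvanishing Moebius sum. -/
def Stmt_EXPA : Prop :=
  ∀ (X H : Type) [Group X] [Fintype X] [Group H] [Fintype H]
    (𝔐 : Ideal (integralClosure ℤ ℂ)) (ℓ : ℕ) [Fact ℓ.Prime], 𝔐.IsMaximal →
    (ℓ : integralClosure ℤ ℂ) ∈ 𝔐 → ∀ (M : Subgroup X) [M.Normal] (p : X →* H),
    Function.Surjective p → (∀ x, p x = 1 ↔ x ∈ M) →
    ∀ (d : ℕ) (ω : X → (integralClosure ℤ ℂ) ⧸ 𝔐),
    (∀ V : Subgroup H, V ≠ ⊤ →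
      PHY 𝔐 ℓ d (M.subgroupOf (V.comap p)) (V.comap p).subtype M ω = 0) →
    PHY 𝔐 ℓ d M (MonoidHom.id X) M ω ≠ 0 → ∀ m : Subgroup H → ℚ, Mob m →
    ∃ (A T : Type) (_ : Group A) (_ : Fintype A) (_ : Group T) (_ : Fintype T) (j : A →* T)
      (c : T →* MulAut A) (pT : T →* H) (θ : A → ℂ) (ξ : M → ℂ),
      ClG j c pT ∧ Function.Surjective pT ∧ IsIrr θ ∧ (∀ t a, θ (c t a) = θ a) ∧
      ∑ V, m V * ((Nat.card V : ℚ) * Nat.card {ψ : ↥(V.comap pT) → ℂ // IsIrr ψ ∧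
        ip (fun a : A => ext0 ψ (j a)) θ ≠ 0 ∧ HasDefect ℓ ψ d}) ≠ 0 ∧
      IsIrr ξ ∧ (∀ g ∈ M, cen 𝔐 M.subtype ξ g = ω g) ∧
      ∀ x : X, cen 𝔐 (MonoidHom.id M) (fun m : M => ξ (MulAut.conjNormal x m)) =
        cen 𝔐 (MonoidHom.id M) ξ

/-- The block of `χ` is the only one which covers the block of `ξ`. -/
def Unq {X : Type} [Group X] [Fintype X] (𝔐 : Ideal (integralClosure ℤ ℂ)) (M : Subgroup X)
    (ξ : M → ℂ) (χ : X → ℂ) : Prop :=
  ∀ (χ' : X → ℂ) (ξ' : M → ℂ), IsIrr χ' → IsIrr ξ' → ip (resj M.subtype χ') ξ' ≠ 0 →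
    cen 𝔐 (MonoidHom.id M) ξ' = cen 𝔐 (MonoidHom.id M) ξ →
    cen 𝔐 (MonoidHom.id X) χ' = cen 𝔐 (MonoidHom.id X) χ

/-- PHV: the sums over the chains of `M` for the proper subgroups which contain `M`. -/
def Stmt_PHV : Prop :=
  ∀ (X H : Type) [Group X] [Fintype X] [Group H] [Fintype H]
    (𝔐 : Ideal (integralClosure ℤ ℂ)) (ℓ : ℕ) [Fact ℓ.Prime], 𝔐.IsMaximal →
    (ℓ : integralClosure ℤ ℂ) ∈ 𝔐 → HQ ℓ ((Subgroup.center X).index - 1) →
    ∀ (M : Subgroup X) [M.Normal] (p : X →* H), Function.Surjective p →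
    (∀ x, p x = 1 ↔ x ∈ M) → Subgroup.center X ≤ M → ∀ (χ : X → ℂ) (ξ : M → ℂ), IsIrr χ →
    IsIrr ξ → ip (resj M.subtype χ) ξ ≠ 0 → ¬ HasDefect ℓ ξ 0 →
    ∀ V : Subgroup H, V ≠ ⊤ → ∀ d : ℕ,
      PHY 𝔐 ℓ d (M.subgroupOf (V.comap p)) (V.comap p).subtype M
        (cen 𝔐 (MonoidHom.id X) χ) = 0

/-- PHT: the sum over the chains of `M` for the whole group. -/
def Stmt_PHT : Prop :=
  ∀ (X : Type) [Group X] [Fintype X] (𝔐 : Ideal (integralClosure ℤ ℂ)) (ℓ : ℕ) [Fact ℓ.Prime],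
    𝔐.IsMaximal → (ℓ : integralClosure ℤ ℂ) ∈ 𝔐 → pCore ℓ X = ⊥ →
    HQ ℓ ((Subgroup.center X).index - 1) → ∀ (M : Subgroup X) [M.Normal] (χ : X → ℂ)
    (ξ : M → ℂ), IsIrr χ → IsIrr ξ → ip (resj M.subtype χ) ξ ≠ 0 → ¬ HasDefect ℓ ξ 0 →
    Unq 𝔐 M ξ χ → ∀ d : ℕ, KK 𝔐 ℓ d (⊥ : Subgroup X) (cen 𝔐 (MonoidHom.id X) χ) ≠ 0 →
      PHY 𝔐 ℓ d M (MonoidHom.id X) M (cen 𝔐 (MonoidHom.id X) χ) ≠ 0

/-- ZCM: the centre is contained in `M`. -/
def Stmt_ZCM : Prop :=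
  ∀ (X : Type) [Group X] [Fintype X] (𝔐 : Ideal (integralClosure ℤ ℂ)) (ℓ : ℕ) [Fact ℓ.Prime],
    𝔐.IsMaximal → (ℓ : integralClosure ℤ ℂ) ∈ 𝔐 → pCore ℓ X = ⊥ →
    ∀ (M : Subgroup X) [M.Normal] (χ : X → ℂ) (ξ : M → ℂ), IsIrr χ → IsIrr ξ →
    ip (resj M.subtype χ) ξ ≠ 0 → Unq 𝔐 M ξ χ → Subgroup.center X ≤ M

/-- MPR: passage to a larger normal subgroup. -/
def Stmt_MPR : Prop :=
  ∀ (X : Type) [Group X] [Fintype X] (𝔐 : Ideal (integralClosure ℤ ℂ)) (ℓ : ℕ) [Fact ℓ.Prime],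
    𝔐.IsMaximal → (ℓ : integralClosure ℤ ℂ) ∈ 𝔐 → ∀ (M M' : Subgroup X) [M.Normal]
    [M'.Normal], M ≤ M' → ∀ (χ : X → ℂ) (ξ : M → ℂ), IsIrr χ → IsIrr ξ →
    ip (resj M.subtype χ) ξ ≠ 0 → ¬ HasDefect ℓ ξ 0 → Unq 𝔐 M ξ χ →
    ∃ ξ' : M' → ℂ, IsIrr ξ' ∧ ip (resj M'.subtype χ) ξ' ≠ 0 ∧ ¬ HasDefect ℓ ξ' 0 ∧
      Unq 𝔐 M' ξ' χ

/-- FINA: the structure of a minimal counterexample. -/
def Stmt_FINA : Prop :=
  ∀ (X : Type) [Group X] [Fintype X] (𝔐 : Ideal (integralClosure ℤ ℂ)) (ℓ : ℕ) [Fact ℓ.Prime],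
    𝔐.IsMaximal → (ℓ : integralClosure ℤ ℂ) ∈ 𝔐 → pCore ℓ X = ⊥ →
    HQ ℓ ((Subgroup.center X).index - 1) → ∀ (M : Subgroup X) [M.Normal] (χ : X → ℂ)
    (ξ : M → ℂ) (d : ℕ), IsIrr χ → dadeSum 𝔐 ℓ χ d ≠ 0 → IsIrr ξ →
    ip (resj M.subtype χ) ξ ≠ 0 → ¬ HasDefect ℓ ξ 0 → Unq 𝔐 M ξ χ →
    (∀ x : X, cen 𝔐 (MonoidHom.id M) (fun m : M => ξ (MulAut.conjNormal x m)) =
      cen 𝔐 (MonoidHom.id M) ξ) ∧
    ∃ P : Subgroup X, P.Normal ∧ M ≤ P ∧ (∀ x ∈ P, ∃ k : ℕ, x ^ ℓ ^ k ∈ M) ∧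
      ¬ ℓ ∣ P.index ∧ (∀ x y : X, x * y * x⁻¹ * y⁻¹ ∈ P) ∧
      ∃ x y : X, Subgroup.closure {x, y} ⊔ P = ⊤

end Pool.Agent.DPM


end

section

/-!
# INVU: functions of subgroups whose alternating sums over the chains vanish
-/

namespace Pool.Agent.DPM

open Pool.Agent.DP Pool.Agent.DPC Pool.Agent.Lib_helper13 Representation
open Pool.Agent.Lib_helper13.Dade (pCore DadeHolds dadeSum)

namespace INVU

open Classical in
/-- Moebius inversion. -/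
theorem exists_inv {α : Type} [Fintype α] [PartialOrder α] (g : α → ℚ) :
    ∃ ψ : α → ℚ, ∀ W, ∑ U with U ≤ W, ψ U = g W := by
  have hwf : WellFounded ((· < ·) : α → α → Prop) := wellFounded_lt
  let F : (W : α) → ((U : α) → U < W → ℚ) → ℚ :=
    fun W f => g W - ∑ U : {U // U < W}, f U.1 U.2
  refine ⟨hwf.fix F, fun W => ?_⟩
  have h1 : hwf.fix F W = g W - ∑ U : {U // U < W}, hwf.fix F U.1 := hwf.fix_eq F W
  have h2 : (Finset.univ.filter fun U : α => U ≤ W) =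
      insert W (Finset.univ.filter fun U => U < W) := by
    ext U
    simp only [Finset.mem_filter, Finset.mem_univ, true_and, Finset.mem_insert]
    exact le_iff_eq_or_lt
  have h3 : ∑ U with U < W, hwf.fix F U = ∑ U : {U // U < W}, hwf.fix F U.1 :=
    Finset.sum_subtype _ (fun U => by simp) _
  rw [h2, Finset.sum_insert (by simp), h1, h3, sub_add_cancel]

theorem pCore_subgroupOf {K : Type} [Group K] (ℓ : ℕ) {U V : Subgroup K} (h : U ≤ V)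
    (h1 : pCore ℓ (U.subgroupOf V) = ⊥) : pCore ℓ U = ⊥ := by
  rw [← pCore_equiv ℓ (Subgroup.subgroupOfEquivOfLe h), h1, Subgroup.map_bot]

/-- The chains which are stabilized by the whole group. -/
theorem eq_empty {K : Type} [Group K] [Fintype K] (ℓ : ℕ) (h : pCore ℓ K = ⊥)
    (σ : Finset (Subgroup K)) (hσ : IsCh ℓ ⊥ σ) (hs : stb σ = ⊤) : σ = ∅ := by
  rw [Finset.eq_empty_iff_forall_notMem]
  intro D hD
  obtain ⟨h1, h2⟩ := hσ.1 D hD
  have h3 : D.Normal := by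
    rw [← Subgroup.normalizer_eq_top_iff, eq_top_iff, ← hs]
    exact iInf₂_le D hD
  have h4 : D ≤ pCore ℓ K := le_sSup ⟨h3, h1⟩
  rw [h] at h4
  exact absurd h2 (not_lt_of_ge h4)

end INVU

open _root_.Pool.Agent.DPM.INVU in
/-- INVU: functions of subgroups whose alternating sums over the chains vanish. -/
theorem INVU_thm (h1 : Stmt_EU) : Stmt_INVU := by
  classical
  intro K _ _ ℓ _ hK g hg m hm
  obtain ⟨ψ, hψ⟩ := exists_inv g
  -- the sum is the value of `ψ` at `K`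
  have hsum : ∑ V, m V * g V = ψ ⊤ := by
    have h2 : ∀ V, m V * g V = ∑ U, if U ≤ V then m V * ψ U else 0 := by
      intro V
      rw [← hψ V, Finset.sum_filter, Finset.mul_sum]
      refine Finset.sum_congr rfl fun U _ => ?_
      split_ifs
      · rfl
      · rw [mul_zero]
    rw [Finset.sum_congr rfl fun V _ => h2 V, Finset.sum_comm]
    have h3 : ∀ U, ∑ V, (if U ≤ V then m V * ψ U else 0) = (if U = ⊤ then 1 else 0) * ψ U := by
      intro U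
      rw [← hm U, Finset.sum_filter, Finset.sum_mul]
      refine Finset.sum_congr rfl fun V _ => ?_
      split_ifs
      · rfl
      · rw [zero_mul]
    rw [Finset.sum_congr rfl fun U _ => h3 U, Finset.sum_eq_single ⊤]
    · rw [if_pos rfl, one_mul]
    · intro U _ hU
      rw [if_neg hU, zero_mul]
    · intro h
      exact absurd (Finset.mem_univ _) h
  rw [hsum]
  -- the induction
  have key : ∀ V : Subgroup K, pCore ℓ V = ⊥ → ψ V = 0 := by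
    intro V
    induction V using WellFoundedLT.induction with
    | ind V ih =>
    intro hV
    have h2 := hg V hV
    have h3 : ∀ σ : Finset (Subgroup V), (-1 : ℚ) ^ σ.card * g ((stb σ).map V.subtype) =
        ∑ U, if U ≤ (stb σ).map V.subtype then (-1 : ℚ) ^ σ.card * ψ U else 0 := by
      intro σ
      rw [← hψ, Finset.sum_filter, Finset.mul_sum]
      refine Finset.sum_congr rfl fun U _ => ?_
      split_ifs
      · rfl
      · rw [mul_zero]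
    rw [Finset.sum_congr rfl fun σ _ => h3 σ, Finset.sum_comm] at h2
    have h4 : ∀ U : Subgroup K, U ≠ V → (∑ σ ∈ Ch ℓ (⊥ : Subgroup V),
        if U ≤ (stb σ).map V.subtype then (-1 : ℚ) ^ σ.card * ψ U else 0) = 0 := by
      intro U hU
      by_cases hUV : U ≤ V
      · by_cases hc : pCore ℓ U = ⊥
        · have h5 := ih U (lt_of_le_of_ne hUV hU) hc
          refine Finset.sum_eq_zero fun σ _ => ?_
          rw [h5, mul_zero, ite_self]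
        · have h5 := h1 V ℓ (U.subgroupOf V) (fun h => hc (pCore_subgroupOf ℓ hUV h))
          have h6 : ∀ σ : Finset (Subgroup V), U ≤ (stb σ).map V.subtype ↔
              U.subgroupOf V ≤ stb σ := by
            intro σ
            rw [← Subgroup.map_le_map_iff_of_injective V.subtype_injective,
              Subgroup.subgroupOf_map_subtype, inf_eq_left.2 hUV]
          rw [Finset.sum_congr rfl fun σ _ => if_congr (h6 σ) rfl rfl, ← Finset.sum_filter,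
            ← Finset.sum_mul, h5, zero_mul]
      · refine Finset.sum_eq_zero fun σ _ => if_neg fun h => hUV (h.trans ?_)
        exact Subgroup.map_subtype_le _
    have h7 : (∑ σ ∈ Ch ℓ (⊥ : Subgroup V),
        if V ≤ (stb σ).map V.subtype then (-1 : ℚ) ^ σ.card * ψ V else 0) = ψ V := by
      rw [Finset.sum_eq_single ∅]
      · rw [if_pos, Finset.card_empty, pow_zero, one_mul]
        rw [stb_empty, ← MonoidHom.range_eq_map, Subgroup.range_subtype]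
      · intro σ hσ hne
        refine if_neg fun h => hne (eq_empty ℓ hV σ (mem_Ch.1 hσ) ?_)
        rw [eq_top_iff, ← Subgroup.map_le_map_iff_of_injective V.subtype_injective,
          ← MonoidHom.range_eq_map, Subgroup.range_subtype]
        exact h
      · intro h
        exact absurd (mem_Ch.2 (isCh_empty ℓ ⊥)) h
    rw [Finset.sum_eq_single V (fun U _ hU => h4 U hU)
      (fun h => absurd (Finset.mem_univ _) h), h7] at h2
    exact h2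
  apply key
  rw [← pCore_equiv ℓ (Subgroup.topEquiv (G := K)).symm, hK, Subgroup.map_bot]

end Pool.Agent.DPM


end

section

/-!
# The quotients of a minimal counterexample to Dade's conjecture: definitions
-/

namespace Pool.Agent.DPN

open Pool.Agent.DP Pool.Agent.DPC Pool.Agent.DPM Pool.Agent.Lib_helper13 Representation
open Pool.Agent.Lib_helper13.Dade (pCore DadeHolds dadeSum)

/-! ### Sums over chains -/

/-- The alternating sum over the chains of `Y` above `Z` for the characters of defect `d` whose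
central function on `X` belongs to `P`. -/
noncomputable def DK {Y X : Type} [Group Y] [Fintype Y] [Group X]
    (𝔐 : Ideal (integralClosure ℤ ℂ)) (ℓ d : ℕ) (Z : Subgroup Y) (i : Y →* X)
    (P : Set (X → (integralClosure ℤ ℂ) ⧸ 𝔐)) : ℚ :=
  ∑ σ ∈ Ch ℓ Z, (-1 : ℚ) ^ σ.card * ((Nat.card (stb σ) : ℚ) *
    Nat.card {ψ : stb σ → ℂ // IsIrr ψ ∧ HasDefect ℓ ψ d ∧
      cen 𝔐 (i.comp (stb σ).subtype) ψ ∈ P})

/-- The number of the characters of defect `d` of the inverse image of `V` over the character `θ`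
of the normal subgroup `A` whose central function on `X` belongs to `P`. -/
noncomputable def NT {A T H X : Type} [Group A] [Fintype A] [Group T] [Fintype T] [Group H]
    [Group X] (𝔐 : Ideal (integralClosure ℤ ℂ)) (ℓ d : ℕ) (j : A →* T) (p : T →* H) (θ : A → ℂ)
    (i : T →* X) (P : Set (X → (integralClosure ℤ ℂ) ⧸ 𝔐)) (V : Subgroup H) : ℚ :=
  Nat.card {ψ : ↥(V.comap p) → ℂ // IsIrr ψ ∧ ip (fun a : A => ext0 ψ (j a)) θ ≠ 0 ∧
    HasDefect ℓ ψ d ∧ cen 𝔐 (i.comp (V.comap p).subtype) ψ ∈ P}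

/-! ### Invariant functions -/

/-- `u` is invariant under conjugation by the normal subgroup `A`. -/
def AIv {A T M : Type} [Group A] [Group T] (j : A →* T) (u : T → M) : Prop :=
  ∀ a x, u (j a * x * (j a)⁻¹) = u x

/-- The product in the group ring of the functions of a list. -/
noncomputable def pl {X : Type} [Group X] [Fintype X] (l : List (X → ℤ)) (x : X) : ℤ :=
  ((l.map elt).prod).coeff x

open Classical in
/-- The indicator of the elements which become conjugate to `g`. -/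
noncomputable def cI {T X : Type} [Group T] [Group X] (i : T →* X) (g : X) (t : T) : ℤ :=
  if IsConj (i t) g then 1 else 0

/-- The sum over the classes of the products of the values. -/
noncomputable def pk {W : Type} [Group W] (𝔐 : Ideal (integralClosure ℤ ℂ))
    (f c : W → (integralClosure ℤ ℂ) ⧸ 𝔐) : (integralClosure ℤ ℂ) ⧸ 𝔐 :=
  ∑ᶠ C : ConjClasses W, f C.out * c C.out

/-! ### Fixed pairs -/

section Pairs

variable {O X H : Type} [Group O] [Group X] [Group H] {j : O →* X} {c : X →* MulAut O}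
  {p : X →* H}

/-- The stabilizer of the chain `τ` of the normal subgroup covers `H` and fixes `θ`. -/
def FP (h : ClG j c p) (τ : Finset (Subgroup O)) (θ : stb τ → ℂ) : Prop :=
  Function.Surjective (pS p j τ) ∧ ∀ t a, θ (cS h τ t a) = θ a

/-- The fixed pairs of defect `a` in the block `Λ` of `O`. -/
structure Pr [Fintype O] (h : ClG j c p) (𝔐 : Ideal (integralClosure ℤ ℂ)) (ℓ a : ℕ)
    (Z : Subgroup O) (Λ : O → (integralClosure ℤ ℂ) ⧸ 𝔐) (τ : Finset (Subgroup O))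
    (θ : stb τ → ℂ) : Prop where
  ch : τ ∈ Ch ℓ Z
  irr : IsIrr θ
  df : HasDefect ℓ θ a
  cn : cen 𝔐 (stb τ).subtype θ = Λ
  fp : FP h τ θ

end Pairs

/-! ### Reduced data -/

/-- `T / A = H`; `θ` is an invariant irreducible character of `A` of defect `a`; `W` is a central
extension (by `π`) of `H`, with kernel of order prime to `ℓ`, which describes the characters of
defect `a` over `θ`. `Lm u w` is the reduction modulo `𝔐` of the scalar by which the part above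
`π w` of the `A`-invariant function `u` acts on `θ`. -/
structure RDS {A T H W : Type} [Group A] [Fintype A] [Group T] [Fintype T] [Group H] [Fintype H]
    [Group W] [Fintype W] (𝔐 : Ideal (integralClosure ℤ ℂ)) (ℓ a : ℕ) (j : A →* T) (p : T →* H)
    (θ : A → ℂ) (π : W →* H) (μ : π.ker →* ℂˣ)
    (Lm : (T → ℤ) → W → (integralClosure ℤ ℂ) ⧸ 𝔐) : Prop where
  add : ∀ u v, AIv j u → AIv j v → ∀ w, Lm (fun t => u t + v t) w = Lm u w + Lm v w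
  cgr : ∀ u v, AIv j u → AIv j v → ∀ w, (∀ t, p t = π w → u t = v t) → Lm u w = Lm v w
  mul : ∀ u v, AIv j u → AIv j v → ∀ w w', (∀ t, p t ≠ π w → u t = 0) →
    (∀ t, p t ≠ π w' → v t = 0) → Lm (conv u v) (w * w') = Lm u w * Lm v w'
  eqv : ∀ u, AIv j u → ∀ t w', p t = π w' → ∀ w,
    Lm (fun x => u (t⁻¹ * x * t)) (w' * w * w'⁻¹) = Lm u w
  one : ∀ u, AIv j u → Lm u 1 = red 𝔐 (wt θ (fun a => ((u (j a) : ℤ) : ℂ)))
  ctr : ∀ u, AIv j u → ∀ (z : π.ker) (w : W),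
    red 𝔐 ((μ z : ℂˣ) : ℂ) * Lm u (z * w) = Lm u w
  num : ∀ (X : Type) [Group X] [Fintype X] (i : T →* X)
    (ω : X → (integralClosure ℤ ℂ) ⧸ 𝔐) (V : Subgroup H),
    NT 𝔐 ℓ a j p θ i {ω} V = Nat.card {η : ↥(V.comap π) → ℂ // IsIrr η ∧
      OvL π.ker μ _ η ∧ HasDefect ℓ η 0 ∧
      ∀ g, pk 𝔐 (Lm (cI i g)) (cen 𝔐 (V.comap π).subtype η) = (Nat.card π.ker : ℕ) * ω g}
  van : ∀ m : Subgroup H → ℚ, Mob m → ∀ e : ℕ, 0 < e →
    ∀ Q : Set (W → (integralClosure ℤ ℂ) ⧸ 𝔐),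
    ∑ V, m V * ((Nat.card V : ℚ) * Nat.card {η : ↥(V.comap π) → ℂ // IsIrr η ∧
      OvL π.ker μ _ η ∧ HasDefect ℓ η e ∧ cen 𝔐 (V.comap π).subtype η ∈ Q}) = 0
  ext : ∀ (B V : Type) [Group B] [Fintype B] [Group V] [Fintype V], ¬ ℓ ∣ Nat.card V →
    ∀ (f : V →* W) (α : B →* T) (β : B →* V), (∀ b, p (α b) = π (f (β b))) →
    (∀ t v, p t = π (f v) → ∃! b, α b = t ∧ β b = v) →
    ∃ E : B → ℂ, IsChr E ∧ (∀ b a, β b = 1 → α b = j a → E b = θ a) ∧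
      ∀ u, AIv j u → ∀ v, red 𝔐 (fib β E (θ 1) (fun b => ((u (α b) : ℤ) : ℂ)) v) = Lm u (f v)

/-- The reduced scalars in a twisted group. -/
noncomputable def LmL {A T Γ L : Type} [Group A] [Group T] [Group Γ] [Fintype Γ] [Group L]
    (𝔐 : Ideal (integralClosure ℤ ℂ)) (θ : A → ℂ) (q : Γ →* L) (r : Γ →* T) (E : Γ → ℂ)
    (u : T → ℤ) (l : L) : (integralClosure ℤ ℂ) ⧸ 𝔐 :=
  red 𝔐 (fib q E (θ 1) (fun γ => ((u (r γ) : ℤ) : ℂ)) l)

/-- `L'` is the quotient of the central extension `L` of `H` by the `ℓ`-part of the kernel `U`. -/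
structure QD {L L' H : Type} [Group L] [Group L'] [Group H] (𝔐 : Ideal (integralClosure ℤ ℂ))
    (ℓ : ℕ) (U : Subgroup L) (μ : U →* ℂˣ) (π : L →* H) (κ : L →* L') (π' : L' →* H)
    (μ' : π'.ker →* ℂˣ) : Prop where
  κs : Function.Surjective κ
  κU : κ.ker ≤ U
  κp : IsPGroup ℓ κ.ker
  ππ : ∀ l, π' (κ l) = π l
  nl : ¬ ℓ ∣ Nat.card π'.ker
  cc : π'.ker ≤ Subgroup.center L'
  cyc : IsCyclic π'.ker
  inj : Function.Injective μ'
  μμ : ∀ (u : L) (hu : u ∈ U) (h : κ u ∈ π'.ker),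
    red 𝔐 ((μ' ⟨κ u, h⟩ : ℂˣ) : ℂ) = red 𝔐 ((μ ⟨u, hu⟩ : ℂˣ) : ℂ)

/-! ### Families -/

section Fam

variable {O X H W : Type} [Group O] [Fintype O] [Group X] [Fintype X] [Group H] [Fintype H]
  [Group W] [Fintype W] {j : O →* X} {c : X →* MulAut O} {p : X →* H}

/-- A family of reduced data for all the fixed pairs, with a common group `W`. `R` is the group of
the elements of `W` on which the scalars of the `O`-invariant functions do not vanish. -/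
structure Fam (h : ClG j c p) (𝔐 : Ideal (integralClosure ℤ ℂ)) (ℓ a : ℕ) (Z : Subgroup O)
    (Λ : O → (integralClosure ℤ ℂ) ⧸ 𝔐) (π : W →* H) (R : Subgroup W)
    (μ : ∀ τ : Finset (Subgroup O), (stb τ → ℂ) → (π.ker →* ℂˣ))
    (Lm : ∀ τ : Finset (Subgroup O), (stb τ → ℂ) → (YS j τ → ℤ) → W →
      (integralClosure ℤ ℂ) ⧸ 𝔐) : Prop where
  πs : Function.Surjective π
  πc : π.ker ≤ Subgroup.center W
  πl : ¬ ℓ ∣ Nat.card π.ker
  rds : ∀ τ θ, Pr h 𝔐 ℓ a Z Λ τ θ →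
    RDS 𝔐 ℓ a (jS h τ) (pS p j τ) θ π (μ τ θ) (Lm τ θ)
  Rn : R.Normal
  Rk : π.ker ≤ R
  mem : ∀ τ θ, Pr h 𝔐 ℓ a Z Λ τ θ → ∀ w, w ∈ R ↔ ∃ u : X → ℤ, AIv j u ∧
    (∀ x, p x ≠ π w → u x = 0) ∧ Lm τ θ (fun t => u t) w ≠ 0

/-- The linear characters of `R` by which the scalars of the pairs differ from those of the
pair `(τ₀, θ₀)`. -/
structure NuF (h : ClG j c p) (𝔐 : Ideal (integralClosure ℤ ℂ)) (ℓ a : ℕ) (Z : Subgroup O)
    (Λ : O → (integralClosure ℤ ℂ) ⧸ 𝔐) (π : W →* H) (R : Subgroup W)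
    (μ : ∀ τ : Finset (Subgroup O), (stb τ → ℂ) → (π.ker →* ℂˣ))
    (Lm : ∀ τ : Finset (Subgroup O), (stb τ → ℂ) → (YS j τ → ℤ) → W →
      (integralClosure ℤ ℂ) ⧸ 𝔐) (τ₀ : Finset (Subgroup O)) (θ₀ : stb τ₀ → ℂ)
    (ν : ∀ τ : Finset (Subgroup O), (stb τ → ℂ) → (R →* ℂˣ)) : Prop where
  ord : ∀ τ θ, Pr h 𝔐 ℓ a Z Λ τ θ → ∃ n : ℕ, ¬ ℓ ∣ n ∧ ∀ r, ν τ θ r ^ n = 1
  inv : ∀ τ θ, Pr h 𝔐 ℓ a Z Λ τ θ → ∀ (w : W) (r r' : R), (r' : W) = w * r * w⁻¹ →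
    ν τ θ r' = ν τ θ r
  rel : ∀ τ θ, Pr h 𝔐 ℓ a Z Λ τ θ → ∀ u : X → ℤ, AIv j u → ∀ r : R,
    Lm τ₀ θ₀ (fun t => u t) r = red 𝔐 ((ν τ θ r : ℂˣ) : ℂ) * Lm τ θ (fun t => u t) r
  ker : ∀ τ θ, Pr h 𝔐 ℓ a Z Λ τ θ → ∀ (z : π.ker) (r : R), (r : W) = z →
    ν τ θ r * μ τ₀ θ₀ z = μ τ θ z

end Fam

/-! ### Idempotents -/

open Classical in
/-- The value at `r` of the central idempotent which belongs to the characters `κ` of `S`
with `Q κ`. -/
noncomputable def ed {W : Type} [Group W] [Fintype W] (S : Subgroup W) (Q : (S → ℂ) → Prop)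
    (r : W) : ℂ :=
  (∑ κ ∈ irrF S with Q κ, κ 1 * ext0 κ r⁻¹) / Nat.card S

/-! ### Fibre products -/

section Fib

variable {O X V H : Type} [Group O] [Group X] [Group V] [Group H]

/-- The fibre product. -/
def fpr (p : X →* H) (g : V →* H) : Subgroup (X × V) where
  carrier := {x | p x.1 = g x.2}
  one_mem' := by simp
  mul_mem' := by
    intro a b ha hb
    simp only [Set.mem_ofPred_eq, Prod.fst_mul, Prod.snd_mul, map_mul] at ha hb ⊢
    rw [ha, hb]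
  inv_mem' := by
    intro a ha
    simp only [Set.mem_ofPred_eq, Prod.fst_inv, Prod.snd_inv, map_inv] at ha ⊢
    rw [ha]

theorem mem_fpr {p : X →* H} {g : V →* H} {x : X × V} : x ∈ fpr p g ↔ p x.1 = g x.2 := Iff.rfl

/-- The first projection. -/
def ffst (p : X →* H) (g : V →* H) : fpr p g →* X := (MonoidHom.fst X V).comp (fpr p g).subtype

/-- The second projection. -/
def fsnd (p : X →* H) (g : V →* H) : fpr p g →* V := (MonoidHom.snd X V).comp (fpr p g).subtype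

/-- The embedding of the normal subgroup. -/
def finj {j : O →* X} {c : X →* MulAut O} {p : X →* H} (h : ClG j c p) (g : V →* H) :
    O →* fpr p g :=
  ((MonoidHom.inl X V).comp j).codRestrict (fpr p g) (fun a => by
    change p (j a) = g 1
    rw [map_one]
    exact (h.ker _).mpr ⟨a, rfl⟩)

theorem clG_f {j : O →* X} {c : X →* MulAut O} {p : X →* H} (h : ClG j c p) (g : V →* H) :
    ClG (finj h g) (c.comp (ffst p g)) (fsnd p g) where
  inj := by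
    intro a b hab
    apply h.inj
    exact congrArg (fun x : fpr p g => (x : X × V).1) hab
  act := by
    intro y a
    apply Subtype.ext
    apply Prod.ext
    · exact h.act (y : X × V).1 a
    · change (1 : V) = (y : X × V).2 * 1 * (y : X × V).2⁻¹
      simp
  ker := by
    intro y
    constructor
    · intro hy
      have h1 : (y : X × V).2 = 1 := hy
      have h2 : p (y : X × V).1 = 1 := by
        rw [mem_fpr.mp y.2, h1, map_one]
      obtain ⟨a, ha⟩ := (h.ker _).mp h2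
      refine ⟨a, ?_⟩
      apply Subtype.ext
      apply Prod.ext
      · exact ha
      · exact h1.symm
    · rintro ⟨a, rfl⟩
      rfl

end Fib

open Classical in
/-- The class function of the fibre product which is obtained from the function `u` on the fibre
of `s`; `t v` is an element of `X` with the same image as `v`. -/
noncomputable def uY {X V H : Type} [Group X] [Group V] [Fintype V] [Group H] (p : X →* H)
    (g : V →* H) (t : V → X) (u : X → ℤ) (s : V) (b : fpr p g) : ℂ :=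
  ∑ v : V, if v⁻¹ * (b : X × V).2 * v = s then ((u ((t v)⁻¹ * (b : X × V).1 * t v) : ℤ) : ℂ)
    else 0

/-- The central functions on the fibre product which agree with that of `θ₀` on `O` and have
prescribed values at the class functions `uY`. -/
def PY {O X V H : Type} [Group O] [Fintype O] [Group X] [Group V] [Fintype V] [Group H]
    {j : O →* X} {c : X →* MulAut O} {p : X →* H} (h : ClG j c p) (g : V →* H)
    (𝔐 : Ideal (integralClosure ℤ ℂ)) (τ₀ : Finset (Subgroup O)) (θ₀ : stb τ₀ → ℂ) (t : V → X)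
    (S : Subgroup V) (u : V → X → ℤ) (y : V → (integralClosure ℤ ℂ) ⧸ 𝔐) :
    Set (fpr p g → (integralClosure ℤ ℂ) ⧸ 𝔐) :=
  {c' | (∀ o, c' (finj h g o) =
      cen 𝔐 ((finj h g).comp (stb τ₀).subtype) θ₀ (finj h g o)) ∧
    ∀ s ∈ S, pair 𝔐 (uY p g t (u s) s) c' = (Nat.card V : ℕ) * y s}

end Pool.Agent.DPN


end

section

/-!
# Dade's conjecture for the groups of a class: definitions
-/

namespace Pool.Agent.DPK

open Pool.Agent.Lib_helper13.Dade (pCore DadeHolds)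

/-- The class `Cl` of finite groups contains the images of its members and the groups which have a
homomorphism with central kernel into one of its members. -/
structure GC (Cl : ∀ (Y : Type) [Group Y], Prop) : Prop where
  im : ∀ (Y Y' : Type) [Group Y] [Group Y'] [Finite Y] (f : Y →* Y'),
    Function.Surjective f → Cl Y → Cl Y'
  up : ∀ (Y Y' : Type) [Group Y] [Group Y'] [Finite Y] (f : Y →* Y'),
    f.ker ≤ Subgroup.center Y → Cl Y' → Cl Y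

/-- Dade's conjecture holds for the finite groups of the class `Cl` whose centre contains `O_ℓ` and
has index at most `n`. -/
def HR (Cl : ∀ (Y : Type) [Group Y], Prop) (ℓ n : ℕ) : Prop :=
  ∀ (Y : Type) [Group Y] [Finite Y], Cl Y → pCore ℓ Y ≤ Subgroup.center Y →
    (Subgroup.center Y).index ≤ n → DadeHolds ℓ Y

theorem HR.mono {Cl : ∀ (Y : Type) [Group Y], Prop} {ℓ m n : ℕ} (h : HR Cl ℓ n) (hmn : m ≤ n) :
    HR Cl ℓ m :=
  fun Y _ _ hc hY hi => h Y hc hY (hi.trans hmn)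

/-- Subgroups. -/
theorem GC.sub {Cl : ∀ (Y : Type) [Group Y], Prop} (h : GC Cl) {Y : Type} [Group Y] [Finite Y]
    (hY : Cl Y) (S : Subgroup Y) : Cl S :=
  h.up S Y S.subtype (by rw [Subgroup.ker_subtype]; exact bot_le) hY

/-- Isomorphic groups. -/
theorem GC.iso {Cl : ∀ (Y : Type) [Group Y], Prop} (h : GC Cl) {Y Y' : Type} [Group Y]
    [Group Y'] [Finite Y] (e : Y ≃* Y') (hY : Cl Y) : Cl Y' :=
  h.im Y Y' e.toMonoidHom e.surjective hY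

/-- Quotients. -/
theorem GC.quot {Cl : ∀ (Y : Type) [Group Y], Prop} (h : GC Cl) {Y : Type} [Group Y] [Finite Y]
    (hY : Cl Y) (N : Subgroup Y) [N.Normal] : Cl (Y ⧸ N) :=
  h.im Y (Y ⧸ N) (QuotientGroup.mk' N) (QuotientGroup.mk'_surjective N) hY

/-- All groups. -/
theorem GC.all : GC (fun (Y : Type) [Group Y] => True) where
  im := fun _ _ _ _ _ _ _ _ => trivial
  up := fun _ _ _ _ _ _ _ _ => trivial

end Pool.Agent.DPK


end
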