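import Mathlib
import Pool.Agent.DAM.C08
import Pool.Agent.DAM.C13
import Pool.Agent.DAM.C14

/-! Parts: DPN.Stmts, DPN.WGT, DPN.FAM, DPT.Defs, DP.BLKB, DPV.EXPV -/

section

/-!
# The quotients of a minimal counterexample to Dade's conjecture: statements of the modules
-/

namespace Pool.Agent.DPN

open Pool.Agent.DP Pool.Agent.DPC Pool.Agent.DPM Pool.Agent.Lib_helper13 Representation
open Pool.Agent.Lib_helper13.Dade (pCore DadeHolds dadeSum)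

/-! ### Sums over chains -/

open Classical in
/-- FFA: the Moebius sum of the chain sums of the inverse images of the subgroups of `H`. -/
def Stmt_FFA : Prop :=
  ∀ (O X H : Type) [Group O] [Fintype O] [Group X] [Fintype X] [Group H] [Fintype H] (ℓ : ℕ)
    [Fact ℓ.Prime] (j : O →* X) (c : X →* MulAut O) (p : X →* H), ClG j c p →
    Function.Surjective p → pCore ℓ H = ⊥ → ∀ (Z : Subgroup O) (m : Subgroup H → ℚ), Mob m →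
    ∀ G : Subgroup X → ℚ,
    ∑ V, m V * ∑ σ ∈ Ch ℓ ((Z.map j).subgroupOf (V.comap p)), (-1 : ℚ) ^ σ.card *
        G ((stb σ).map (V.comap p).subtype) =
      ∑ τ ∈ Ch ℓ Z, (-1 : ℚ) ^ τ.card * ∑ V, m V * G (V.comap p ⊓ YS j τ)

/-- FFC: the Clifford correspondence for the stabilizer of a chain of the normal subgroup. -/
def Stmt_FFC : Prop :=
  ∀ (O X H : Type) [Group O] [Fintype O] [Group X] [Fintype X] [Group H] [Fintype H]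
    (𝔐 : Ideal (integralClosure ℤ ℂ)) (ℓ : ℕ) [Fact ℓ.Prime] (j : O →* X) (c : X →* MulAut O)
    (p : X →* H) (h : ClG j c p) (τ : Finset (Subgroup O)) (d : ℕ)
    (P : Set (X → (integralClosure ℤ ℂ) ⧸ 𝔐)) (V : Subgroup H),
      (Nat.card ↥(V.comap p ⊓ YS j τ) : ℚ) *
        Nat.card {ψ : ↥(V.comap p ⊓ YS j τ) → ℂ // IsIrr ψ ∧ HasDefect ℓ ψ d ∧
          cen 𝔐 (V.comap p ⊓ YS j τ).subtype ψ ∈ P} =
        ∑ θ ∈ irrF (stb τ), (Nat.card (stb τ) : ℚ) *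
          ((Nat.card ↥(V ⊓ (inert (cS h τ) θ).map (pS p j τ)) : ℚ) *
            Nat.card {ψ : ↥(V.comap ((pS p j τ).comp (inert (cS h τ) θ).subtype)) → ℂ //
              IsIrr ψ ∧ ip (fun a : stb τ => ext0 (ext0 ψ) (jS h τ a)) θ ≠ 0 ∧
              HasDefect ℓ ψ d ∧
              cen 𝔐 ((YS j τ).subtype.comp ((inert (cS h τ) θ).subtype.comp
                (V.comap ((pS p j τ).comp (inert (cS h τ) θ).subtype)).subtype)) ψ ∈ P})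

open Classical in
/-- FF: only the fixed pairs contribute. -/
def Stmt_FF : Prop :=
  ∀ (O X H : Type) [Group O] [Fintype O] [Group X] [Fintype X] [Group H] [Fintype H]
    (𝔐 : Ideal (integralClosure ℤ ℂ)) (ℓ : ℕ) [Fact ℓ.Prime] (j : O →* X) (c : X →* MulAut O)
    (p : X →* H) (h : ClG j c p), Function.Surjective p → pCore ℓ H = ⊥ →
    ∀ (Z : Subgroup O) (m : Subgroup H → ℚ), Mob m →
    ∀ (d : ℕ) (P : Set (X → (integralClosure ℤ ℂ) ⧸ 𝔐)),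
    ∑ V, m V * DK 𝔐 ℓ d ((Z.map j).subgroupOf (V.comap p)) (V.comap p).subtype P =
      ∑ τ ∈ Ch ℓ Z, (-1 : ℚ) ^ τ.card * ∑ θ ∈ irrF (stb τ) with FP h τ θ,
        (Nat.card (stb τ) : ℚ) * ∑ V, m V *
          ((Nat.card V : ℚ) * NT 𝔐 ℓ d (jS h τ) (pS p j τ) θ (YS j τ).subtype P V)

/-- MIXP: refinement of the central functions. -/
def Stmt_MIXP : Prop :=
  ∀ (Y X : Type) [Group Y] [Fintype Y] [Group X] [Fintype X]
    (𝔐 : Ideal (integralClosure ℤ ℂ)) (ℓ : ℕ) [Fact ℓ.Prime] (d : ℕ) (Z : Subgroup Y)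
    (i : Y →* X) (P : Set (X → (integralClosure ℤ ℂ) ⧸ 𝔐)),
    ∃ F : Finset (Y → (integralClosure ℤ ℂ) ⧸ 𝔐), DK 𝔐 ℓ d Z i P = ∑ ω ∈ F, KK 𝔐 ℓ d Z ω

/-- DKV: the chain sums vanish for the groups for which Dade's conjecture is known. -/
def Stmt_DKV : Prop :=
  ∀ (Y X : Type) [Group Y] [Fintype Y] [Group X] [Fintype X]
    (𝔐 : Ideal (integralClosure ℤ ℂ)) (ℓ : ℕ) [Fact ℓ.Prime], 𝔐.IsMaximal →
    (ℓ : integralClosure ℤ ℂ) ∈ 𝔐 → ∀ n : ℕ, HQ ℓ n → (Subgroup.center Y).index ≤ n →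
    ∀ Z : Subgroup Y, Z ≤ Subgroup.center Y → IsPGroup ℓ Z → ∀ d : ℕ,
    padicValNat ℓ (Nat.card Z) < d →
    ∀ (i : Y →* X) (P : Set (X → (integralClosure ℤ ℂ) ⧸ 𝔐)), DK 𝔐 ℓ d Z i P = 0

/-- MINX: characters of minimal defect over a central `ℓ`-subgroup. -/
def Stmt_MINX : Prop :=
  ∀ (L : Type) [Group L] [Fintype L] (𝔐 : Ideal (integralClosure ℤ ℂ)) (ℓ : ℕ) [Fact ℓ.Prime],
    𝔐.IsMaximal → (ℓ : integralClosure ℤ ℂ) ∈ 𝔐 → ∀ Z : Subgroup L, Z ≤ Subgroup.center L →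
    IsPGroup ℓ Z → ∀ ψ : L → ℂ, IsIrr ψ → HasDefect ℓ ψ (padicValNat ℓ (Nat.card Z)) →
    (∀ χ : L → ℂ, IsIrr χ → cen 𝔐 (MonoidHom.id L) χ = cen 𝔐 (MonoidHom.id L) ψ →
      HasDefect ℓ χ (padicValNat ℓ (Nat.card Z))) ∧
    ∀ (lam : Z →* ℂˣ) (χ χ' : L → ℂ), IsIrr χ → IsIrr χ' →
      cen 𝔐 (MonoidHom.id L) χ = cen 𝔐 (MonoidHom.id L) ψ →
      cen 𝔐 (MonoidHom.id L) χ' = cen 𝔐 (MonoidHom.id L) ψ →
      (∀ (z : Z) (x : L), χ (z * x) = ((lam z : ℂˣ) : ℂ) * χ x) →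
      (∀ (z : Z) (x : L), χ' (z * x) = ((lam z : ℂˣ) : ℂ) * χ' x) → χ = χ'

/-- DLO: a counterexample has a nonvanishing chain sum of large defect. -/
def Stmt_DLO : Prop :=
  ∀ (X : Type) [Group X] [Fintype X] (ℓ : ℕ) [Fact ℓ.Prime],
    pCore ℓ X ≤ Subgroup.center X → ¬ DadeHolds ℓ X →
    ∃ 𝔐 : Ideal (integralClosure ℤ ℂ), 𝔐.IsMaximal ∧ (ℓ : integralClosure ℤ ℂ) ∈ 𝔐 ∧
      ∃ (d : ℕ) (ω : X → (integralClosure ℤ ℂ) ⧸ 𝔐),
        padicValNat ℓ (Nat.card (pCore ℓ X)) < d ∧ KK 𝔐 ℓ d (pCore ℓ X) ω ≠ 0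

/-! ### Twisted sums -/

/-- TDC: the twisted chain sums. -/
def Stmt_TDC : Prop :=
  ∀ (L K X : Type) [Group L] [Fintype L] [Group K] [Fintype K] [Group X] [Fintype X]
    (𝔐 : Ideal (integralClosure ℤ ℂ)) (ℓ : ℕ) [Fact ℓ.Prime], 𝔐.IsMaximal →
    (ℓ : integralClosure ℤ ℂ) ∈ 𝔐 → ∀ π : L →* K, Function.Surjective π → pCore ℓ K = ⊥ →
    HQ ℓ (Nat.card K) → ∀ (U : Subgroup L) (μ : U →* ℂˣ), U ≤ Subgroup.center L →
    (∀ l, π l = 1 ↔ l ∈ U) → IsCyclic U → Function.Injective μ → ∀ d : ℕ,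
    padicValNat ℓ (Nat.card U) < d →
    ∀ (i : L →* X) (Q : Set (X → (integralClosure ℤ ℂ) ⧸ 𝔐)),
    ∑ σ ∈ Ch ℓ (⊥ : Subgroup K), (-1 : ℚ) ^ σ.card * ((Nat.card (stb σ) : ℚ) *
      Nat.card {η : ↥((stb σ).comap π) → ℂ // IsIrr η ∧ OvL U μ _ η ∧ HasDefect ℓ η d ∧
        cen 𝔐 (i.comp ((stb σ).comap π).subtype) η ∈ Q}) = 0

open Classical in
/-- TDM: the twisted Moebius sums. -/
def Stmt_TDM : Prop :=
  ∀ (L K : Type) [Group L] [Fintype L] [Group K] [Fintype K]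
    (𝔐 : Ideal (integralClosure ℤ ℂ)) (ℓ : ℕ) [Fact ℓ.Prime], 𝔐.IsMaximal →
    (ℓ : integralClosure ℤ ℂ) ∈ 𝔐 → ∀ π : L →* K, Function.Surjective π → pCore ℓ K = ⊥ →
    HQ ℓ (Nat.card K) → ∀ (U : Subgroup L) (μ : U →* ℂˣ), U ≤ Subgroup.center L →
    (∀ l, π l = 1 ↔ l ∈ U) → IsCyclic U → Function.Injective μ → ∀ d : ℕ,
    padicValNat ℓ (Nat.card U) < d → ∀ m : Subgroup K → ℚ, Mob m →
    ∀ Q : Set (L → (integralClosure ℤ ℂ) ⧸ 𝔐),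
    ∑ V, m V * ((Nat.card V : ℚ) * Nat.card {η : ↥(V.comap π) → ℂ // IsIrr η ∧
      OvL U μ _ η ∧ HasDefect ℓ η d ∧ cen 𝔐 (V.comap π).subtype η ∈ Q}) = 0

open Classical in
/-- CONS: only the characters with the same defect as `θ` contribute. -/
def Stmt_CONS : Prop :=
  ∀ (A T H X : Type) [Group A] [Fintype A] [Group T] [Fintype T] [Group H] [Fintype H]
    [Group X] [Fintype X] (𝔐 : Ideal (integralClosure ℤ ℂ)) (ℓ : ℕ) [Fact ℓ.Prime],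
    𝔐.IsMaximal → (ℓ : integralClosure ℤ ℂ) ∈ 𝔐 → ∀ (j : A →* T) (c : T →* MulAut A)
    (p : T →* H), ClG j c p → Function.Surjective p → pCore ℓ H = ⊥ → HQ ℓ (Nat.card H) →
    ∀ θ : A → ℂ, IsIrr θ → (∀ t a, θ (c t a) = θ a) → ∀ a d : ℕ, HasDefect ℓ θ a → d ≠ a →
    ∀ (i : T →* X) (ω : X → (integralClosure ℤ ℂ) ⧸ 𝔐) (m : Subgroup H → ℚ), Mob m →
    ∑ V, m V * ((Nat.card V : ℚ) * NT 𝔐 ℓ d j p θ i {ω} V) = 0

/-! ### Reduced data -/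

/-- RDA: elementary properties of the reduced scalars of a twisted group. -/
def Stmt_RDA : Prop :=
  ∀ (A T H Γ L : Type) [Group A] [Fintype A] [Group T] [Fintype T] [Group H] [Finite H]
    [Group Γ] [Fintype Γ] [Group L] [Fintype L] (𝔐 : Ideal (integralClosure ℤ ℂ)) (ℓ : ℕ)
    [Fact ℓ.Prime], 𝔐.IsMaximal → (ℓ : integralClosure ℤ ℂ) ∈ 𝔐 → ∀ (j : A →* T)
    (c : T →* MulAut A) (p : T →* H), ClG j c p → Function.Surjective p → ∀ θ : A → ℂ, IsIrr θ →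
    (∀ t a, θ (c t a) = θ a) →
    ∀ (e : A →* Γ) (q : Γ →* L) (r : Γ →* T) (E : Γ → ℂ) (U : Subgroup L) (μ : U →* ℂˣ)
      (π : L →* H), TWD j p θ e q r E U μ π →
    (∀ u v : T → ℤ, AIv j u → AIv j v → ∀ l, LmL 𝔐 θ q r E (fun t => u t + v t) l =
      LmL 𝔐 θ q r E u l + LmL 𝔐 θ q r E v l) ∧
    (∀ u v : T → ℤ, AIv j u → AIv j v → ∀ l, (∀ t, p t = π l → u t = v t) →
      LmL 𝔐 θ q r E u l = LmL 𝔐 θ q r E v l) ∧
    (∀ u v : T → ℤ, AIv j u → AIv j v → ∀ l l', (∀ t, p t ≠ π l → u t = 0) →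
      (∀ t, p t ≠ π l' → v t = 0) →
      LmL 𝔐 θ q r E (conv u v) (l * l') = LmL 𝔐 θ q r E u l * LmL 𝔐 θ q r E v l') ∧
    (∀ u : T → ℤ, AIv j u → ∀ t l', p t = π l' → ∀ l,
      LmL 𝔐 θ q r E (fun x => u (t⁻¹ * x * t)) (l' * l * l'⁻¹) = LmL 𝔐 θ q r E u l) ∧
    (∀ u : T → ℤ, AIv j u →
      LmL 𝔐 θ q r E u 1 = red 𝔐 (wt θ (fun a => ((u (j a) : ℤ) : ℂ)))) ∧
    ∀ u : T → ℤ, AIv j u → ∀ (z : U) (l : L),
      red 𝔐 ((μ z : ℂˣ) : ℂ) * LmL 𝔐 θ q r E u (z * l) = LmL 𝔐 θ q r E u l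

/-- RDQ: the quotient by the `ℓ`-part of the kernel. -/
def Stmt_RDQ : Prop :=
  ∀ (L H : Type) [Group L] [Fintype L] [Group H] (𝔐 : Ideal (integralClosure ℤ ℂ)) (ℓ : ℕ)
    [Fact ℓ.Prime], 𝔐.IsMaximal → (ℓ : integralClosure ℤ ℂ) ∈ 𝔐 →
    ∀ (U : Subgroup L) (μ : U →* ℂˣ) (π : L →* H), U ≤ Subgroup.center L →
    (∀ l, π l = 1 ↔ l ∈ U) → IsCyclic U → Function.Injective μ →
    ∃ (L' : Type) (_ : Group L') (_ : Fintype L') (κ : L →* L') (π' : L' →* H)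
      (μ' : π'.ker →* ℂˣ), QD 𝔐 ℓ U μ π κ π' μ'

/-- RDF: the scalars of the characters over `θ` in terms of the reduced scalars. -/
def Stmt_RDF : Prop :=
  ∀ (A T H Γ L L' : Type) [Group A] [Fintype A] [Group T] [Fintype T] [Group H] [Finite H]
    [Group Γ] [Fintype Γ] [Group L] [Fintype L] [Group L'] [Fintype L']
    (𝔐 : Ideal (integralClosure ℤ ℂ)) (ℓ : ℕ) [Fact ℓ.Prime], 𝔐.IsMaximal →
    (ℓ : integralClosure ℤ ℂ) ∈ 𝔐 → ∀ (j : A →* T) (c : T →* MulAut A) (p : T →* H),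
    ClG j c p → Function.Surjective p → ∀ θ : A → ℂ, IsIrr θ → (∀ t a, θ (c t a) = θ a) →
    ∀ (e : A →* Γ) (q : Γ →* L) (r : Γ →* T) (E : Γ → ℂ) (U : Subgroup L) (μ : U →* ℂˣ)
      (π : L →* H), TWD j p θ e q r E U μ π →
    ∀ (κ : L →* L') (π' : L' →* H) (μ' : π'.ker →* ℂˣ), QD 𝔐 ℓ U μ π κ π' μ' →
    ∀ u : T → ℤ, (∀ t x, u (t * x * t⁻¹) = u x) →
    ∀ B : L' → (integralClosure ℤ ℂ) ⧸ 𝔐, (∀ l, B (κ l) = LmL 𝔐 θ q r E u l) →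
    ∀ (V : Subgroup H) (ψ : ↥(V.comap p) → ℂ) (η : ↥(V.comap π) → ℂ)
      (η' : ↥(V.comap π') → ℂ), IsIrr ψ → IsIrr η → OvL U μ _ η → Cor p q r E π V ψ η →
    IsIrr η' → OvL π'.ker μ' _ η' →
    (∀ hκ : ∀ x : ↥(V.comap π), κ (x : L) ∈ V.comap π',
      cen 𝔐 (V.comap π).subtype η =
        cen 𝔐 (V.comap π).subtype (fun x => η' ⟨κ (x : L), hκ x⟩)) →
    pk 𝔐 B (cen 𝔐 (V.comap π').subtype η') =
      (Nat.card π'.ker : ℕ) * red 𝔐 (wt ψ (fun t => ((u (t : T) : ℤ) : ℂ)))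

/-- RDB: the number of the characters of minimal defect. -/
def Stmt_RDB : Prop :=
  ∀ (A T H Γ L L' X : Type) [Group A] [Fintype A] [Group T] [Fintype T] [Group H] [Fintype H]
    [Group Γ] [Fintype Γ] [Group L] [Fintype L] [Group L'] [Fintype L'] [Group X] [Fintype X]
    (𝔐 : Ideal (integralClosure ℤ ℂ)) (ℓ : ℕ) [Fact ℓ.Prime], 𝔐.IsMaximal →
    (ℓ : integralClosure ℤ ℂ) ∈ 𝔐 → ∀ (j : A →* T) (c : T →* MulAut A) (p : T →* H),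
    ClG j c p → Function.Surjective p → ∀ θ : A → ℂ, IsIrr θ → (∀ t a, θ (c t a) = θ a) →
    ∀ a : ℕ, HasDefect ℓ θ a →
    ∀ (e : A →* Γ) (q : Γ →* L) (r : Γ →* T) (E : Γ → ℂ) (U : Subgroup L) (μ : U →* ℂˣ)
      (π : L →* H), TWD j p θ e q r E U μ π →
    ∀ (κ : L →* L') (π' : L' →* H) (μ' : π'.ker →* ℂˣ), QD 𝔐 ℓ U μ π κ π' μ' →
    ∀ Lm : (T → ℤ) → L' → (integralClosure ℤ ℂ) ⧸ 𝔐,
    (∀ u, AIv j u → ∀ l, Lm u (κ l) = LmL 𝔐 θ q r E u l) →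
    ∀ (i : T →* X) (ω : X → (integralClosure ℤ ℂ) ⧸ 𝔐) (V : Subgroup H),
    NT 𝔐 ℓ a j p θ i {ω} V = Nat.card {η : ↥(V.comap π') → ℂ // IsIrr η ∧
      OvL π'.ker μ' _ η ∧ HasDefect ℓ η 0 ∧
      ∀ g, pk 𝔐 (Lm (cI i g)) (cen 𝔐 (V.comap π').subtype η) =
        (Nat.card π'.ker : ℕ) * ω g}

/-- RDE: extensions over groups of order prime to `ℓ`. -/
def Stmt_RDE : Prop :=
  ∀ (A T H Γ L L' B V : Type) [Group A] [Fintype A] [Group T] [Fintype T] [Group H] [Finite H]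
    [Group Γ] [Fintype Γ] [Group L] [Fintype L] [Group L'] [Fintype L'] [Group B] [Fintype B]
    [Group V] [Fintype V] (𝔐 : Ideal (integralClosure ℤ ℂ)) (ℓ : ℕ) [Fact ℓ.Prime],
    𝔐.IsMaximal → (ℓ : integralClosure ℤ ℂ) ∈ 𝔐 → ∀ (j : A →* T) (c : T →* MulAut A)
    (p : T →* H), ClG j c p → Function.Surjective p → ∀ θ : A → ℂ, IsIrr θ →
    (∀ t a, θ (c t a) = θ a) →
    ∀ (e : A →* Γ) (q : Γ →* L) (r : Γ →* T) (E : Γ → ℂ) (U : Subgroup L) (μ : U →* ℂˣ)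
      (π : L →* H), TWD j p θ e q r E U μ π →
    ∀ (κ : L →* L') (π' : L' →* H) (μ' : π'.ker →* ℂˣ), QD 𝔐 ℓ U μ π κ π' μ' →
    ∀ Lm : (T → ℤ) → L' → (integralClosure ℤ ℂ) ⧸ 𝔐,
    (∀ u, AIv j u → ∀ l, Lm u (κ l) = LmL 𝔐 θ q r E u l) →
    ¬ ℓ ∣ Nat.card V → ∀ (f : V →* L') (α : B →* T) (β : B →* V),
    (∀ b, p (α b) = π' (f (β b))) →
    (∀ t v, p t = π' (f v) → ∃! b, α b = t ∧ β b = v) →
    ∃ E' : B → ℂ, IsChr E' ∧ (∀ b a, β b = 1 → α b = j a → E' b = θ a) ∧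
      ∀ u, AIv j u → ∀ v,
        red 𝔐 (fib β E' (θ 1) (fun b => ((u (α b) : ℤ) : ℂ)) v) = Lm u (f v)

/-- RDX: existence of reduced data. -/
def Stmt_RDX : Prop :=
  ∀ (A T H : Type) [Group A] [Fintype A] [Group T] [Fintype T] [Group H] [Fintype H]
    (𝔐 : Ideal (integralClosure ℤ ℂ)) (ℓ : ℕ) [Fact ℓ.Prime], 𝔐.IsMaximal →
    (ℓ : integralClosure ℤ ℂ) ∈ 𝔐 → ∀ (j : A →* T) (c : T →* MulAut A) (p : T →* H),
    ClG j c p → Function.Surjective p → pCore ℓ H = ⊥ → HQ ℓ (Nat.card H) →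
    ∀ θ : A → ℂ, IsIrr θ → (∀ t a, θ (c t a) = θ a) → ∀ a : ℕ, HasDefect ℓ θ a →
    ∃ (L : Type) (_ : Group L) (_ : Fintype L) (π : L →* H) (μ : π.ker →* ℂˣ)
      (Lm : (T → ℤ) → L → (integralClosure ℤ ℂ) ⧸ 𝔐), Function.Surjective π ∧
      π.ker ≤ Subgroup.center L ∧ ¬ ℓ ∣ Nat.card π.ker ∧ RDS 𝔐 ℓ a j p θ π μ Lm

/-- PUL: reduced data on a larger central extension. -/
def Stmt_PUL : Prop :=
  ∀ (A T H L W : Type) [Group A] [Fintype A] [Group T] [Fintype T] [Group H] [Fintype H]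
    [Group L] [Fintype L] [Group W] [Fintype W] (𝔐 : Ideal (integralClosure ℤ ℂ)) (ℓ : ℕ)
    [Fact ℓ.Prime], 𝔐.IsMaximal → (ℓ : integralClosure ℤ ℂ) ∈ 𝔐 → ∀ (a : ℕ) (j : A →* T)
    (p : T →* H) (θ : A → ℂ) (π' : L →* H) (μ' : π'.ker →* ℂˣ)
    (Lm : (T → ℤ) → L → (integralClosure ℤ ℂ) ⧸ 𝔐), Function.Surjective p →
    RDS 𝔐 ℓ a j p θ π' μ' Lm →
    ∀ f : W →* L, Function.Surjective f → ∀ π : W →* H, (∀ w, π w = π' (f w)) →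
    π.ker ≤ Subgroup.center W → ¬ ℓ ∣ Nat.card π.ker →
    ∃ μ : π.ker →* ℂˣ, RDS 𝔐 ℓ a j p θ π μ (fun u w => Lm u (f w))

/-- WFP: a common central extension for a finite family. -/
def Stmt_WFP : Prop :=
  ∀ (ι H : Type) [Finite ι] [Group H] [Fintype H] (A T : ι → Type) [∀ x, Group (A x)]
    [∀ x, Fintype (A x)] [∀ x, Group (T x)] [∀ x, Fintype (T x)]
    (𝔐 : Ideal (integralClosure ℤ ℂ)) (ℓ : ℕ) [Fact ℓ.Prime], 𝔐.IsMaximal →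
    (ℓ : integralClosure ℤ ℂ) ∈ 𝔐 → ∀ (a : ι → ℕ) (j : ∀ x, A x →* T x) (p : ∀ x, T x →* H)
    (θ : ∀ x, A x → ℂ), (∀ x, Function.Surjective (p x)) →
    (∀ x, ∃ (L : Type) (_ : Group L) (_ : Fintype L) (π : L →* H) (μ : π.ker →* ℂˣ)
      (Lm : (T x → ℤ) → L → (integralClosure ℤ ℂ) ⧸ 𝔐), Function.Surjective π ∧
      π.ker ≤ Subgroup.center L ∧ ¬ ℓ ∣ Nat.card π.ker ∧
      RDS 𝔐 ℓ (a x) (j x) (p x) (θ x) π μ Lm) →
    ∃ (W : Type) (_ : Group W) (_ : Fintype W) (π : W →* H), Function.Surjective π ∧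
      π.ker ≤ Subgroup.center W ∧ ¬ ℓ ∣ Nat.card π.ker ∧
      ∀ x, ∃ (μ : π.ker →* ℂˣ) (Lm : (T x → ℤ) → W → (integralClosure ℤ ℂ) ⧸ 𝔐),
        RDS 𝔐 ℓ (a x) (j x) (p x) (θ x) π μ Lm

open Classical in
/-- WGT: weights. -/
def Stmt_WGT : Prop :=
  ∀ (A T H W X : Type) [Group A] [Fintype A] [Group T] [Fintype T] [Group H] [Fintype H]
    [Group W] [Fintype W] [Group X] [Fintype X] (𝔐 : Ideal (integralClosure ℤ ℂ)) (ℓ : ℕ)
    [Fact ℓ.Prime] (a : ℕ) (j : A →* T) (p : T →* H) (θ : A → ℂ) (π : W →* H)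
    (μ : π.ker →* ℂˣ) (Lm : (T → ℤ) → W → (integralClosure ℤ ℂ) ⧸ 𝔐),
    RDS 𝔐 ℓ a j p θ π μ Lm → ∀ (i : T →* X) (ω : X → (integralClosure ℤ ℂ) ⧸ 𝔐)
    (m : Subgroup H → ℚ), Mob m → ∀ w : ℕ → ℚ, w 0 = 1 →
    ∑ V, m V * ((Nat.card V : ℚ) * NT 𝔐 ℓ a j p θ i {ω} V) =
      ∑ V, m V * ((Nat.card V : ℚ) *
        ∑ e ∈ Finset.range (padicValNat ℓ (Nat.card W) + 1), w e *
          Nat.card {η : ↥(V.comap π) → ℂ // IsIrr η ∧ OvL π.ker μ _ η ∧ HasDefect ℓ η e ∧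
            ∀ g, pk 𝔐 (Lm (cI i g)) (cen 𝔐 (V.comap π).subtype η) =
              (Nat.card π.ker : ℕ) * ω g})

/-! ### The block of the normal subgroup -/

/-- BEQ: the fixed pairs belong to a stable block of the normal subgroup. -/
def Stmt_BEQ : Prop :=
  ∀ (O X H : Type) [Group O] [Fintype O] [Group X] [Fintype X] [Group H]
    (𝔐 : Ideal (integralClosure ℤ ℂ)) (ℓ : ℕ) [Fact ℓ.Prime], 𝔐.IsMaximal →
    (ℓ : integralClosure ℤ ℂ) ∈ 𝔐 → ∀ (j : O →* X) (c : X →* MulAut O) (p : X →* H)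
    (h : ClG j c p) (Z : Subgroup O), ∀ τ ∈ Ch ℓ Z, ∀ θ : stb τ → ℂ, IsIrr θ →
    (FP h τ θ → ∀ x o, cen 𝔐 (stb τ).subtype θ (c x o) = cen 𝔐 (stb τ).subtype θ o) ∧
    ∀ τ' ∈ Ch ℓ Z, ∀ θ' : stb τ' → ℂ, IsIrr θ' →
      (∀ x o, cen 𝔐 (stb τ').subtype θ' (c x o) = cen 𝔐 (stb τ').subtype θ' o) →
      (∀ o, cen 𝔐 (j.comp (stb τ).subtype) θ (j o) =
        cen 𝔐 (j.comp (stb τ').subtype) θ' (j o)) →
      cen 𝔐 (stb τ).subtype θ = cen 𝔐 (stb τ').subtype θ'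

/-- CHM: products of invariant functions and their restrictions to the stabilizer of a chain. -/
def Stmt_CHM : Prop :=
  ∀ (O X H : Type) [Group O] [Fintype O] [Group X] [Fintype X] [Group H]
    (𝔐 : Ideal (integralClosure ℤ ℂ)) (ℓ : ℕ) [Fact ℓ.Prime], 𝔐.IsMaximal →
    (ℓ : integralClosure ℤ ℂ) ∈ 𝔐 → ∀ (j : O →* X) (c : X →* MulAut O) (p : X →* H)
    (h : ClG j c p) (Z : Subgroup O), ∀ τ ∈ Ch ℓ Z, ∀ θ : stb τ → ℂ, IsIrr θ →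
    ∀ l : List (X → ℤ), (∀ u ∈ l, AIv j u) →
    red 𝔐 (wt θ (fun a =>
        ((pl (l.map (fun (u : X → ℤ) (t : YS j τ) => u t)) (jS h τ a) : ℤ) : ℂ))) =
      red 𝔐 (wt θ (fun a => ((pl l (j (a : O)) : ℤ) : ℂ)))

/-- KEYN: products of the scalars of invariant functions. -/
def Stmt_KEYN : Prop :=
  ∀ (O X H W : Type) [Group O] [Fintype O] [Group X] [Fintype X] [Group H] [Fintype H]
    [Group W] [Fintype W] (𝔐 : Ideal (integralClosure ℤ ℂ)) (ℓ : ℕ) [Fact ℓ.Prime],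
    𝔐.IsMaximal → (ℓ : integralClosure ℤ ℂ) ∈ 𝔐 → ∀ (j : O →* X) (c : X →* MulAut O)
    (p : X →* H) (h : ClG j c p) (a : ℕ) (Z : Subgroup O)
    (Λ : O → (integralClosure ℤ ℂ) ⧸ 𝔐) (τ : Finset (Subgroup O)) (θ : stb τ → ℂ),
    Pr h 𝔐 ℓ a Z Λ τ θ → ∀ (π : W →* H) (μ : π.ker →* ℂˣ)
    (Lm : (YS j τ → ℤ) → W → (integralClosure ℤ ℂ) ⧸ 𝔐),
    RDS 𝔐 ℓ a (jS h τ) (pS p j τ) θ π μ Lm → ∀ l : List ((X → ℤ) × W),
    (∀ x ∈ l, AIv j x.1 ∧ ∀ y, p y ≠ π x.2 → x.1 y = 0) → (l.map Prod.snd).prod = 1 →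
    (l.map (fun x => Lm (fun t => x.1 t) x.2)).prod =
      pair 𝔐 (fun o : O => ((pl (l.map Prod.fst) (j o) : ℤ) : ℂ)) Λ

/-- MUN: multiplicativity of the scalars of invariant functions. -/
def Stmt_MUN : Prop :=
  ∀ (O X H W : Type) [Group O] [Fintype O] [Group X] [Fintype X] [Group H] [Fintype H]
    [Group W] [Fintype W] (𝔐 : Ideal (integralClosure ℤ ℂ)) (ℓ : ℕ) [Fact ℓ.Prime],
    𝔐.IsMaximal → (ℓ : integralClosure ℤ ℂ) ∈ 𝔐 → ∀ (j : O →* X) (c : X →* MulAut O)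
    (p : X →* H) (h : ClG j c p) (a : ℕ) (Z : Subgroup O)
    (Λ : O → (integralClosure ℤ ℂ) ⧸ 𝔐) (τ : Finset (Subgroup O)) (θ : stb τ → ℂ),
    Pr h 𝔐 ℓ a Z Λ τ θ → ∀ (π : W →* H) (μ : π.ker →* ℂˣ)
    (Lm : (YS j τ → ℤ) → W → (integralClosure ℤ ℂ) ⧸ 𝔐),
    RDS 𝔐 ℓ a (jS h τ) (pS p j τ) θ π μ Lm → ∀ (u v : X → ℤ) (w w' : W), AIv j u → AIv j v →
    (∀ y, p y ≠ π w → u y = 0) → (∀ y, p y ≠ π w' → v y = 0) →
    Lm (fun t => conv u v t) (w * w') = Lm (fun t => u t) w * Lm (fun t => v t) w'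

/-- RRN: the group of the elements on which the scalars do not vanish. -/
def Stmt_RRN : Prop :=
  ∀ (O X H W : Type) [Group O] [Fintype O] [Group X] [Fintype X] [Group H] [Fintype H]
    [Group W] [Fintype W] (𝔐 : Ideal (integralClosure ℤ ℂ)) (ℓ : ℕ) [Fact ℓ.Prime],
    𝔐.IsMaximal → (ℓ : integralClosure ℤ ℂ) ∈ 𝔐 → ∀ (j : O →* X) (c : X →* MulAut O)
    (p : X →* H) (h : ClG j c p) (a : ℕ) (Z : Subgroup O)
    (Λ : O → (integralClosure ℤ ℂ) ⧸ 𝔐) (π : W →* H), Function.Surjective π →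
    π.ker ≤ Subgroup.center W → ¬ ℓ ∣ Nat.card π.ker →
    ∀ (μ : ∀ τ : Finset (Subgroup O), (stb τ → ℂ) → (π.ker →* ℂˣ))
      (Lm : ∀ τ : Finset (Subgroup O), (stb τ → ℂ) → (YS j τ → ℤ) → W →
        (integralClosure ℤ ℂ) ⧸ 𝔐),
    (∀ τ θ, Pr h 𝔐 ℓ a Z Λ τ θ →
      RDS 𝔐 ℓ a (jS h τ) (pS p j τ) θ π (μ τ θ) (Lm τ θ)) →
    ∃ R : Subgroup W, Fam h 𝔐 ℓ a Z Λ π R μ Lm

/-- FAM: existence of families. -/
def Stmt_FAM : Prop :=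
  ∀ (O X H : Type) [Group O] [Fintype O] [Group X] [Fintype X] [Group H] [Fintype H]
    (𝔐 : Ideal (integralClosure ℤ ℂ)) (ℓ : ℕ) [Fact ℓ.Prime], 𝔐.IsMaximal →
    (ℓ : integralClosure ℤ ℂ) ∈ 𝔐 → ∀ (j : O →* X) (c : X →* MulAut O) (p : X →* H)
    (h : ClG j c p), pCore ℓ H = ⊥ → HQ ℓ (Nat.card H) → ∀ (a : ℕ) (Z : Subgroup O)
    (Λ : O → (integralClosure ℤ ℂ) ⧸ 𝔐),
    ∃ (W : Type) (_ : Group W) (_ : Fintype W) (π : W →* H) (R : Subgroup W)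
      (μ : ∀ τ : Finset (Subgroup O), (stb τ → ℂ) → (π.ker →* ℂˣ))
      (Lm : ∀ τ : Finset (Subgroup O), (stb τ → ℂ) → (YS j τ → ℤ) → W →
        (integralClosure ℤ ℂ) ⧸ 𝔐), Fam h 𝔐 ℓ a Z Λ π R μ Lm

/-- NUX: the linear characters by which the scalars differ. -/
def Stmt_NUX : Prop :=
  ∀ (O X H W : Type) [Group O] [Fintype O] [Group X] [Fintype X] [Group H] [Fintype H]
    [Group W] [Fintype W] (𝔐 : Ideal (integralClosure ℤ ℂ)) (ℓ : ℕ) [Fact ℓ.Prime],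
    𝔐.IsMaximal → (ℓ : integralClosure ℤ ℂ) ∈ 𝔐 → ∀ (j : O →* X) (c : X →* MulAut O)
    (p : X →* H) (h : ClG j c p) (a : ℕ) (Z : Subgroup O)
    (Λ : O → (integralClosure ℤ ℂ) ⧸ 𝔐) (π : W →* H) (R : Subgroup W)
    (μ : ∀ τ : Finset (Subgroup O), (stb τ → ℂ) → (π.ker →* ℂˣ))
    (Lm : ∀ τ : Finset (Subgroup O), (stb τ → ℂ) → (YS j τ → ℤ) → W →
      (integralClosure ℤ ℂ) ⧸ 𝔐), Fam h 𝔐 ℓ a Z Λ π R μ Lm →
    ∀ (τ₀ : Finset (Subgroup O)) (θ₀ : stb τ₀ → ℂ), Pr h 𝔐 ℓ a Z Λ τ₀ θ₀ →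
    ∃ ν : ∀ τ : Finset (Subgroup O), (stb τ → ℂ) → (R →* ℂˣ),
      NuF h 𝔐 ℓ a Z Λ π R μ Lm τ₀ θ₀ ν

/-- FXR: the characters of the block are fixed by the elements above `R`. -/
def Stmt_FXR : Prop :=
  ∀ (O X H W : Type) [Group O] [Fintype O] [Group X] [Fintype X] [Group H] [Fintype H]
    [Group W] [Fintype W] (𝔐 : Ideal (integralClosure ℤ ℂ)) (ℓ : ℕ) [Fact ℓ.Prime],
    𝔐.IsMaximal → (ℓ : integralClosure ℤ ℂ) ∈ 𝔐 → ∀ (j : O →* X) (c : X →* MulAut O)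
    (p : X →* H) (h : ClG j c p) (a : ℕ) (Z : Subgroup O)
    (Λ : O → (integralClosure ℤ ℂ) ⧸ 𝔐) (π : W →* H) (R : Subgroup W)
    (μ : ∀ τ : Finset (Subgroup O), (stb τ → ℂ) → (π.ker →* ℂˣ))
    (Lm : ∀ τ : Finset (Subgroup O), (stb τ → ℂ) → (YS j τ → ℤ) → W →
      (integralClosure ℤ ℂ) ⧸ 𝔐), Fam h 𝔐 ℓ a Z Λ π R μ Lm →
    ∀ (τ₀ : Finset (Subgroup O)) (θ₀ : stb τ₀ → ℂ), Pr h 𝔐 ℓ a Z Λ τ₀ θ₀ →
    ∀ τ ∈ Ch ℓ Z, ∀ θ : stb τ → ℂ, IsIrr θ → cen 𝔐 (stb τ).subtype θ = Λ → ∀ r ∈ R,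
      (∃ x : YS j τ, pS p j τ x = π r) ∧
      ∀ x : YS j τ, pS p j τ x = π r → ∀ a, θ (cS h τ x a) = θ a

/-! ### Commutators -/

open Classical in
/-- FRO: Frobenius' formula for the characters over a stable set of characters of a normal
subgroup. -/
def Stmt_FRO : Prop :=
  ∀ (G : Type) [Group G] [Fintype G] (N : Subgroup G) [N.Normal] (Q : (N → ℂ) → Prop),
    (∀ (g : G) (κ : N → ℂ), Q κ → Q (fun n => κ (MulAut.conjNormal g n))) →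
    (Nat.card G : ℂ) * Nat.card {η : G → ℂ // IsIrr η ∧
        ∃ κ : N → ℂ, IsIrr κ ∧ Q κ ∧ ip (resj N.subtype η) κ ≠ 0} =
      ∑ x : G, ∑ y : G, if x * y * x⁻¹ * y⁻¹ ∈ N then ed N Q (x * y * x⁻¹ * y⁻¹) else 0

open Classical in
/-- ABF: the Moebius sum of the numbers of characters as a sum over pairs of elements. -/
def Stmt_ABF : Prop :=
  ∀ (H W : Type) [Group H] [Fintype H] [Group W] [Fintype W]
    (𝔐 : Ideal (integralClosure ℤ ℂ)) (π : W →* H), Function.Surjective π →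
    ∀ R : Subgroup W, R.Normal → π.ker ≤ R → ∀ (μ : π.ker →* ℂˣ), π.ker ≤ Subgroup.center W →
    ∀ D : (W → (integralClosure ℤ ℂ) ⧸ 𝔐) → Prop,
    (∀ c c', (∀ w ∈ R, c w = c' w) → (D c ↔ D c')) → ∀ m : Subgroup H → ℚ, Mob m →
    (Nat.card π.ker : ℂ) * ∑ V, ((m V : ℚ) : ℂ) * ((Nat.card V : ℂ) *
        Nat.card {η : ↥(V.comap π) → ℂ // IsIrr η ∧ OvL π.ker μ _ η ∧
          D (cen 𝔐 (V.comap π).subtype η)}) =
      ∑ x : W, ∑ y : W, if x * y * x⁻¹ * y⁻¹ ∈ R ∧ Subgroup.closure {x, y} ⊔ R = ⊤ then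
        ∑ V, (if π x ∈ V ∧ π y ∈ V then ((m V : ℚ) : ℂ) *
          ed (R ⊓ V.comap π) (fun κ => OvL π.ker μ _ κ ∧
            D (cen 𝔐 (R ⊓ V.comap π).subtype κ)) (x * y * x⁻¹ * y⁻¹) else 0) else 0

/-- SQN: the weighted numbers of characters depend only on the intersection with a normal
subgroup of index `ℓ`. -/
def Stmt_SQN : Prop :=
  ∀ (H W : Type) [Group H] [Fintype H] [Group W] [Fintype W]
    (𝔐 : Ideal (integralClosure ℤ ℂ)) (ℓ : ℕ) [Fact ℓ.Prime] (π : W →* H),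
    Function.Surjective π → ∀ R : Subgroup W, R.Normal → π.ker ≤ R → ∀ (μ : π.ker →* ℂˣ),
    π.ker ≤ Subgroup.center W → ∀ D : (W → (integralClosure ℤ ℂ) ⧸ 𝔐) → Prop,
    (∀ c c', (∀ w ∈ R, c w = c' w) → (D c ↔ D c')) → ∀ S : Subgroup H, S.Normal →
    S.index = ℓ → R ≤ S.comap π → ∀ V V' : Subgroup H, V' = V ⊓ S →
    (Nat.card V : ℚ) * ∑ e ∈ Finset.range (padicValNat ℓ (Nat.card W) + 1),
        ((ℓ : ℚ) ^ (2 * e))⁻¹ * Nat.card {η : ↥(V.comap π) → ℂ // IsIrr η ∧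
          OvL π.ker μ _ η ∧ HasDefect ℓ η e ∧ D (cen 𝔐 (V.comap π).subtype η)} =
      (Nat.card V' : ℚ) * ∑ e ∈ Finset.range (padicValNat ℓ (Nat.card W) + 1),
        ((ℓ : ℚ) ^ (2 * e))⁻¹ * Nat.card {η : ↥(V'.comap π) → ℂ // IsIrr η ∧
          OvL π.ker μ _ η ∧ HasDefect ℓ η e ∧ D (cen 𝔐 (V'.comap π).subtype η)}

open Classical in
/-- PHN: the contribution of a pair as a sum over pairs of elements. -/
def Stmt_PHN : Prop :=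
  ∀ (O X H W : Type) [Group O] [Fintype O] [Group X] [Fintype X] [Group H] [Fintype H]
    [Group W] [Fintype W] (𝔐 : Ideal (integralClosure ℤ ℂ)) (ℓ : ℕ) [Fact ℓ.Prime],
    𝔐.IsMaximal → (ℓ : integralClosure ℤ ℂ) ∈ 𝔐 → ∀ (j : O →* X) (c : X →* MulAut O)
    (p : X →* H) (h : ClG j c p) (a : ℕ) (Z : Subgroup O)
    (Λ : O → (integralClosure ℤ ℂ) ⧸ 𝔐) (π : W →* H) (R : Subgroup W)
    (μ : ∀ τ : Finset (Subgroup O), (stb τ → ℂ) → (π.ker →* ℂˣ))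
    (Lm : ∀ τ : Finset (Subgroup O), (stb τ → ℂ) → (YS j τ → ℤ) → W →
      (integralClosure ℤ ℂ) ⧸ 𝔐), Fam h 𝔐 ℓ a Z Λ π R μ Lm →
    ∀ (τ₀ : Finset (Subgroup O)) (θ₀ : stb τ₀ → ℂ), Pr h 𝔐 ℓ a Z Λ τ₀ θ₀ →
    ∀ ν : ∀ τ : Finset (Subgroup O), (stb τ → ℂ) → (R →* ℂˣ),
      NuF h 𝔐 ℓ a Z Λ π R μ Lm τ₀ θ₀ ν → ∀ m : Subgroup H → ℚ, Mob m →
    ∀ ω : X → (integralClosure ℤ ℂ) ⧸ 𝔐, ∃ b : W → W → ℂ, ∀ τ θ, Pr h 𝔐 ℓ a Z Λ τ θ →
      (Nat.card π.ker : ℂ) * ((∑ V, m V * ((Nat.card V : ℚ) *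
          NT 𝔐 ℓ a (jS h τ) (pS p j τ) θ (YS j τ).subtype {ω} V) : ℚ) : ℂ) =
        ∑ x : W, ∑ y : W, if hR : x * y * x⁻¹ * y⁻¹ ∈ R then
          (if Subgroup.closure {x, y} ⊔ R = ⊤ then
            b x y * ((ν τ θ ⟨x * y * x⁻¹ * y⁻¹, hR⟩ : ℂˣ) : ℂ)⁻¹ else 0) else 0

open Classical in
/-- ABQ: the quotient of `W` by `R`. -/
def Stmt_ABQ : Prop :=
  ∀ (O X H W : Type) [Group O] [Fintype O] [Group X] [Fintype X] [Group H] [Fintype H]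
    [Group W] [Fintype W] (𝔐 : Ideal (integralClosure ℤ ℂ)) (ℓ : ℕ) [Fact ℓ.Prime],
    𝔐.IsMaximal → (ℓ : integralClosure ℤ ℂ) ∈ 𝔐 → ∀ (j : O →* X) (c : X →* MulAut O)
    (p : X →* H) (h : ClG j c p) (a : ℕ) (Z : Subgroup O)
    (Λ : O → (integralClosure ℤ ℂ) ⧸ 𝔐) (π : W →* H) (R : Subgroup W)
    (μ : ∀ τ : Finset (Subgroup O), (stb τ → ℂ) → (π.ker →* ℂˣ))
    (Lm : ∀ τ : Finset (Subgroup O), (stb τ → ℂ) → (YS j τ → ℤ) → W →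
      (integralClosure ℤ ℂ) ⧸ 𝔐), Fam h 𝔐 ℓ a Z Λ π R μ Lm →
    ∀ (τ : Finset (Subgroup O)) (θ : stb τ → ℂ), Pr h 𝔐 ℓ a Z Λ τ θ →
    ∀ m : Subgroup H → ℚ, Mob m → ∀ ω : X → (integralClosure ℤ ℂ) ⧸ 𝔐,
    ∑ V, m V * ((Nat.card V : ℚ) *
      NT 𝔐 ℓ a (jS h τ) (pS p j τ) θ (YS j τ).subtype {ω} V) ≠ 0 →
    (∀ x y : W, x * y * x⁻¹ * y⁻¹ ∈ R) ∧ ¬ ℓ ∣ R.index ∧
      ∃ x y : W, Subgroup.closure {x, y} ⊔ R = ⊤

/-! ### Minimal supplements -/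

/-- SUPG: a minimal supplement of `R`. -/
def Stmt_SUPG : Prop :=
  ∀ (W : Type) [Group W] [Fintype W] (ℓ : ℕ) [Fact ℓ.Prime] (R : Subgroup W) [R.Normal],
    (∀ x y : W, x * y * x⁻¹ * y⁻¹ ∈ R) → ¬ ℓ ∣ R.index →
    (∃ x y : W, Subgroup.closure {x, y} ⊔ R = ⊤) →
    ∃ V : Subgroup W, V ⊔ R = ⊤ ∧ ¬ ℓ ∣ Nat.card V ∧ Group.IsNilpotent V ∧
      (∃ x y : V, Subgroup.closure {x, y} = ⊤) ∧
      (∀ x y : V, Subgroup.closure {(x : W), (y : W)} ⊔ R = ⊤ →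
        Subgroup.closure {x, y} = ⊤) ∧
      ∀ m : Subgroup V → ℚ, Mob m → ∀ V' : Subgroup V, m V' ≠ 0 → R.subgroupOf V ≤ V'

/-- YFR: the chain sums of the fibre product vanish. -/
def Stmt_YFR : Prop :=
  ∀ (O X H V : Type) [Group O] [Fintype O] [Group X] [Fintype X] [Group H] [Fintype H]
    [Group V] [Fintype V] (𝔐 : Ideal (integralClosure ℤ ℂ)) (ℓ : ℕ) [Fact ℓ.Prime],
    𝔐.IsMaximal → (ℓ : integralClosure ℤ ℂ) ∈ 𝔐 → ∀ (j : O →* X) (c : X →* MulAut O)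
    (p : X →* H) (h : ClG j c p), Function.Surjective p → ∀ n : ℕ, HQ ℓ n →
    Subgroup.center X ≤ j.range → (Subgroup.center X).index ≤ n + 1 →
    ∀ Z : Subgroup O, IsPGroup ℓ Z → Z.map j ≤ Subgroup.center X →
    ∀ g : V →* H, g.ker ≤ Subgroup.center V → ¬ Function.Surjective g → ∀ d : ℕ,
    padicValNat ℓ (Nat.card Z) < d →
    ∀ (P : Set (fpr p g → (integralClosure ℤ ℂ) ⧸ 𝔐)) (V' : Subgroup V),
      DK 𝔐 ℓ d ((Z.map (finj h g)).subgroupOf (V'.comap (fsnd p g)))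
        (V'.comap (fsnd p g)).subtype P = 0

/-- YPR: the fixed pairs for the fibre product. -/
def Stmt_YPR : Prop :=
  ∀ (O X H W : Type) [Group O] [Fintype O] [Group X] [Fintype X] [Group H] [Fintype H]
    [Group W] [Fintype W] (𝔐 : Ideal (integralClosure ℤ ℂ)) (ℓ : ℕ) [Fact ℓ.Prime],
    𝔐.IsMaximal → (ℓ : integralClosure ℤ ℂ) ∈ 𝔐 → ∀ (j : O →* X) (c : X →* MulAut O)
    (p : X →* H) (h : ClG j c p), Function.Surjective p → ∀ (a : ℕ) (Z : Subgroup O)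
    (Λ : O → (integralClosure ℤ ℂ) ⧸ 𝔐) (π : W →* H) (R : Subgroup W)
    (μ : ∀ τ : Finset (Subgroup O), (stb τ → ℂ) → (π.ker →* ℂˣ))
    (Lm : ∀ τ : Finset (Subgroup O), (stb τ → ℂ) → (YS j τ → ℤ) → W →
      (integralClosure ℤ ℂ) ⧸ 𝔐), Fam h 𝔐 ℓ a Z Λ π R μ Lm →
    ∀ (τ₀ : Finset (Subgroup O)) (θ₀ : stb τ₀ → ℂ), Pr h 𝔐 ℓ a Z Λ τ₀ θ₀ →
    ∀ V : Subgroup W, V ⊔ R = ⊤ → ∀ τ ∈ Ch ℓ Z, ∀ θ : stb τ → ℂ, IsIrr θ →
    HasDefect ℓ θ a → cen 𝔐 (stb τ).subtype θ = Λ →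
    (FP (clG_f h (π.comp V.subtype)) τ θ ↔ Pr h 𝔐 ℓ a Z Λ τ θ)

/-- YCA: the pairs which contribute for the fibre product. -/
def Stmt_YCA : Prop :=
  ∀ (O X H W : Type) [Group O] [Fintype O] [Group X] [Fintype X] [Group H] [Fintype H]
    [Group W] [Fintype W] (𝔐 : Ideal (integralClosure ℤ ℂ)) (ℓ : ℕ) [Fact ℓ.Prime],
    𝔐.IsMaximal → (ℓ : integralClosure ℤ ℂ) ∈ 𝔐 → ∀ (j : O →* X) (c : X →* MulAut O)
    (p : X →* H) (h : ClG j c p), Function.Surjective p → ∀ (a : ℕ) (Z : Subgroup O)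
    (Λ : O → (integralClosure ℤ ℂ) ⧸ 𝔐) (π : W →* H) (R : Subgroup W)
    (μ : ∀ τ : Finset (Subgroup O), (stb τ → ℂ) → (π.ker →* ℂˣ))
    (Lm : ∀ τ : Finset (Subgroup O), (stb τ → ℂ) → (YS j τ → ℤ) → W →
      (integralClosure ℤ ℂ) ⧸ 𝔐), Fam h 𝔐 ℓ a Z Λ π R μ Lm →
    ∀ (τ₀ : Finset (Subgroup O)) (θ₀ : stb τ₀ → ℂ), Pr h 𝔐 ℓ a Z Λ τ₀ θ₀ →
    ∀ V : Subgroup W, V ⊔ R = ⊤ → ¬ ℓ ∣ Nat.card V →
    ∀ (t : V → X) (S : Subgroup V) (u : V → X → ℤ) (y : V → (integralClosure ℤ ℂ) ⧸ 𝔐),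
    ∀ τ ∈ Ch ℓ Z, ∀ θ : stb τ → ℂ, IsIrr θ → FP (clG_f h (π.comp V.subtype)) τ θ →
    ∀ V' : Subgroup V,
      NT 𝔐 ℓ a (jS (clG_f h (π.comp V.subtype)) τ)
        (pS (fsnd p (π.comp V.subtype)) (finj h (π.comp V.subtype)) τ) θ
        (YS (finj h (π.comp V.subtype)) τ).subtype
        (PY h (π.comp V.subtype) 𝔐 τ₀ θ₀ t S u y) V' ≠ 0 →
      Pr h 𝔐 ℓ a Z Λ τ θ

open Classical in
/-- YVL: the scalars of the class functions on the fibre product. -/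
def Stmt_YVL : Prop :=
  ∀ (A T H W B V : Type) [Group A] [Fintype A] [Group T] [Fintype T] [Group H] [Fintype H]
    [Group W] [Fintype W] [Group B] [Fintype B] [Group V] [Fintype V]
    (𝔐 : Ideal (integralClosure ℤ ℂ)) (ℓ : ℕ) [Fact ℓ.Prime], 𝔐.IsMaximal →
    (ℓ : integralClosure ℤ ℂ) ∈ 𝔐 → ∀ (a : ℕ) (j : A →* T) (p : T →* H) (θ : A → ℂ)
    (π : W →* H) (μ : π.ker →* ℂˣ) (Lm : (T → ℤ) → W → (integralClosure ℤ ℂ) ⧸ 𝔐),
    RDS 𝔐 ℓ a j p θ π μ Lm → (∀ t a, ∃ a', j a' = t * j a * t⁻¹) → IsIrr θ →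
    ∀ (f : V →* W) (α : B →* T) (β : B →* V),
    (∀ b, p (α b) = π (f (β b))) → ∀ (jB : A →* B) (cB : B →* MulAut A), ClG jB cB β →
    (∀ a, α (jB a) = j a) → ∀ E : B → ℂ, IsChr E → (∀ a, E (jB a) = θ a) →
    (∀ u, AIv j u → ∀ v,
      red 𝔐 (fib β E (θ 1) (fun b => ((u (α b) : ℤ) : ℂ)) v) = Lm u (f v)) →
    ∀ u, AIv j u → ∀ (s : V) (t : V → T), (∀ v, p (t v) = π (f v)) → ∀ v : V,
      red 𝔐 (fib β E (θ 1) (fun b => ∑ v' : V, if v'⁻¹ * β b * v' = s then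
        ((u ((t v')⁻¹ * α b * t v') : ℤ) : ℂ) else 0) v) =
      (Nat.card {v' : V // v' * s * v'⁻¹ = v} : ℕ) * Lm u (f s)

/-- YSL: the characters over an invariant linear character, in terms of congruences. -/
def Stmt_YSL : Prop :=
  ∀ (V : Type) [Group V] [Fintype V] (𝔐 : Ideal (integralClosure ℤ ℂ)) (ℓ : ℕ)
    [Fact ℓ.Prime], 𝔐.IsMaximal → (ℓ : integralClosure ℤ ℂ) ∈ 𝔐 → ¬ ℓ ∣ Nat.card V →
    ∀ (S : Subgroup V) [S.Normal] (lam : S →* ℂˣ),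
    (∀ (v : V) (r r' : S), (r' : V) = v * r * v⁻¹ → lam r' = lam r) →
    ∀ V' : Subgroup V, S ≤ V' → ∀ ζ : V' → ℂ, IsIrr ζ →
    ((∀ (s : V) (hs : s ∈ S), red 𝔐 ((∑ v : V, ext0 ζ (v * s * v⁻¹)) / ζ 1) =
        (Nat.card V : ℕ) * red 𝔐 ((lam ⟨s, hs⟩ : ℂˣ) : ℂ)) ↔
      ∀ (s : V) (hs : s ∈ S) (hs' : s ∈ V'), ζ ⟨s, hs'⟩ = ζ 1 * ((lam ⟨s, hs⟩ : ℂˣ) : ℂ))

/-- YCB: the number of characters over a fixed pair for the fibre product. -/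
def Stmt_YCB : Prop :=
  ∀ (O X H W : Type) [Group O] [Fintype O] [Group X] [Fintype X] [Group H] [Fintype H]
    [Group W] [Fintype W] (𝔐 : Ideal (integralClosure ℤ ℂ)) (ℓ : ℕ) [Fact ℓ.Prime],
    𝔐.IsMaximal → (ℓ : integralClosure ℤ ℂ) ∈ 𝔐 → ∀ (j : O →* X) (c : X →* MulAut O)
    (p : X →* H) (h : ClG j c p), Function.Surjective p → ∀ (a : ℕ) (Z : Subgroup O)
    (Λ : O → (integralClosure ℤ ℂ) ⧸ 𝔐) (π : W →* H) (R : Subgroup W)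
    (μ : ∀ τ : Finset (Subgroup O), (stb τ → ℂ) → (π.ker →* ℂˣ))
    (Lm : ∀ τ : Finset (Subgroup O), (stb τ → ℂ) → (YS j τ → ℤ) → W →
      (integralClosure ℤ ℂ) ⧸ 𝔐), Fam h 𝔐 ℓ a Z Λ π R μ Lm →
    ∀ (τ₀ : Finset (Subgroup O)) (θ₀ : stb τ₀ → ℂ), Pr h 𝔐 ℓ a Z Λ τ₀ θ₀ →
    ∀ ν : ∀ τ : Finset (Subgroup O), (stb τ → ℂ) → (R →* ℂˣ),
      NuF h 𝔐 ℓ a Z Λ π R μ Lm τ₀ θ₀ ν → ∀ V : Subgroup W, ¬ ℓ ∣ Nat.card V →
    ∀ t : V → X, (∀ v : V, p (t v) = π v) → ∀ u : V → X → ℤ, (∀ s ∈ R.subgroupOf V,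
      AIv j (u s) ∧ (∀ x, p x ≠ π s → u s x = 0) ∧ Lm τ₀ θ₀ (fun x => u s x) s ≠ 0) →
    ∀ χ : R.subgroupOf V →* ℂˣ, (∀ (v : V) (r r' : R.subgroupOf V),
      (r' : V) = v * r * v⁻¹ → χ r' = χ r) →
    ∀ y : V → (integralClosure ℤ ℂ) ⧸ 𝔐, (∀ (s : V) (hs : s ∈ R.subgroupOf V),
      y s = Lm τ₀ θ₀ (fun x => u s x) s * red 𝔐 ((χ ⟨s, hs⟩ : ℂˣ) : ℂ)) →
    ∀ τ θ, Pr h 𝔐 ℓ a Z Λ τ θ → ∀ V' : Subgroup V, R.subgroupOf V ≤ V' →
      NT 𝔐 ℓ a (jS (clG_f h (π.comp V.subtype)) τ)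
        (pS (fsnd p (π.comp V.subtype)) (finj h (π.comp V.subtype)) τ) θ
        (YS (finj h (π.comp V.subtype)) τ).subtype
        (PY h (π.comp V.subtype) 𝔐 τ₀ θ₀ t (R.subgroupOf V) u y) V' =
      Nat.card {ζ : V' → ℂ // IsIrr ζ ∧ ∀ (s : V) (hs : s ∈ R.subgroupOf V) (hs' : s ∈ V'),
        ζ ⟨s, hs'⟩ = ζ 1 * (((χ ⟨s, hs⟩ : ℂˣ) : ℂ) *
          ((ν τ θ ⟨(s : W), Subgroup.mem_subgroupOf.mp hs⟩ : ℂˣ) : ℂ))}

open Classical in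
/-- YCC: the Moebius sum of the numbers of characters over an invariant linear character. -/
def Stmt_YCC : Prop :=
  ∀ (V : Type) [Group V] [Fintype V] (S : Subgroup V) [S.Normal]
    (hS : ∀ x y : V, x * y * x⁻¹ * y⁻¹ ∈ S) (lam : S →* ℂˣ),
    (∀ (v : V) (r r' : S), (r' : V) = v * r * v⁻¹ → lam r' = lam r) →
    ∀ m : Subgroup V → ℚ, Mob m → (∀ V' : Subgroup V, m V' ≠ 0 → S ≤ V') →
    ∑ V', ((m V' : ℚ) : ℂ) * ((Nat.card V' : ℂ) * Nat.card {ζ : V' → ℂ // IsIrr ζ ∧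
        ∀ (s : V) (hs : s ∈ S) (hs' : s ∈ V'), ζ ⟨s, hs'⟩ = ζ 1 * ((lam ⟨s, hs⟩ : ℂˣ) : ℂ)}) =
      (∑ x : V, ∑ y : V, if Subgroup.closure {x, y} = ⊤ then
        ((lam ⟨x * y * x⁻¹ * y⁻¹, hS x y⟩ : ℂˣ) : ℂ)⁻¹ else 0) / Nat.card S

open Classical in
/-- YFF: the relations for the linear characters of the pairs. -/
def Stmt_YFF : Prop :=
  ∀ (O X H W : Type) [Group O] [Fintype O] [Group X] [Fintype X] [Group H] [Fintype H]
    [Group W] [Fintype W] (𝔐 : Ideal (integralClosure ℤ ℂ)) (ℓ : ℕ) [Fact ℓ.Prime],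
    𝔐.IsMaximal → (ℓ : integralClosure ℤ ℂ) ∈ 𝔐 → ∀ (j : O →* X) (c : X →* MulAut O)
    (p : X →* H) (h : ClG j c p), Function.Surjective p → ∀ n : ℕ, HQ ℓ n →
    Subgroup.center X ≤ j.range → (Subgroup.center X).index ≤ n + 1 → ∀ (a : ℕ)
    (Z : Subgroup O), IsPGroup ℓ Z → Z.map j ≤ Subgroup.center X →
    padicValNat ℓ (Nat.card Z) < a →
    ∀ (Λ : O → (integralClosure ℤ ℂ) ⧸ 𝔐) (π : W →* H) (R : Subgroup W)
    (μ : ∀ τ : Finset (Subgroup O), (stb τ → ℂ) → (π.ker →* ℂˣ))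
    (Lm : ∀ τ : Finset (Subgroup O), (stb τ → ℂ) → (YS j τ → ℤ) → W →
      (integralClosure ℤ ℂ) ⧸ 𝔐), Fam h 𝔐 ℓ a Z Λ π R μ Lm →
    ∀ (τ₀ : Finset (Subgroup O)) (θ₀ : stb τ₀ → ℂ), Pr h 𝔐 ℓ a Z Λ τ₀ θ₀ →
    ∀ ν : ∀ τ : Finset (Subgroup O), (stb τ → ℂ) → (R →* ℂˣ),
      NuF h 𝔐 ℓ a Z Λ π R μ Lm τ₀ θ₀ ν → ∀ hR : ∀ x y : W, x * y * x⁻¹ * y⁻¹ ∈ R,
    ∀ V : Subgroup W, V ⊔ R = ⊤ → ¬ ℓ ∣ Nat.card V →
    (∀ m : Subgroup V → ℚ, Mob m → ∀ V' : Subgroup V, m V' ≠ 0 → R.subgroupOf V ≤ V') →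
    ¬ Function.Surjective (π.comp V.subtype) →
    ∀ χ : R.subgroupOf V →* ℂˣ, (∀ (v : V) (r r' : R.subgroupOf V),
      (r' : V) = v * r * v⁻¹ → χ r' = χ r) →
    ∑ τ ∈ Ch ℓ Z, (-1 : ℂ) ^ τ.card * ∑ θ ∈ irrF (stb τ) with Pr h 𝔐 ℓ a Z Λ τ θ,
      (Nat.card (stb τ) : ℂ) * ∑ x : V, ∑ y : V, (if Subgroup.closure {x, y} = ⊤ then
        ((χ ⟨x * y * x⁻¹ * y⁻¹, Subgroup.mem_subgroupOf.mpr (hR x y)⟩ : ℂˣ) : ℂ)⁻¹ *
          ((ν τ θ ⟨(x : W) * y * (x : W)⁻¹ * (y : W)⁻¹, hR x y⟩ : ℂˣ) : ℂ)⁻¹ else 0) = 0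

open Classical in
/-- FOU: separation by linear characters. -/
def Stmt_FOU : Prop :=
  ∀ (V ι : Type) [Group V] [Fintype V] (I : Finset ι) (S : Subgroup V)
    (hS : ∀ x y : V, x * y * x⁻¹ * y⁻¹ ∈ S) (s : ι → ℂ) (ν : ι → (S →* ℂˣ)),
    (∀ i ∈ I, ∀ (v : V) (r r' : S), (r' : V) = v * r * v⁻¹ → ν i r' = ν i r) →
    ∀ G : V → V → Prop,
    (∀ χ : S →* ℂˣ, (∀ (v : V) (r r' : S), (r' : V) = v * r * v⁻¹ → χ r' = χ r) →
      ∑ i ∈ I, s i * ∑ x : V, ∑ y : V, (if G x y then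
        ((χ ⟨x * y * x⁻¹ * y⁻¹, hS x y⟩ : ℂˣ) : ℂ)⁻¹ *
          ((ν i ⟨x * y * x⁻¹ * y⁻¹, hS x y⟩ : ℂˣ) : ℂ)⁻¹ else 0) = 0) →
    ∀ x y, G x y → ∑ i ∈ I, s i * ((ν i ⟨x * y * x⁻¹ * y⁻¹, hS x y⟩ : ℂˣ) : ℂ)⁻¹ = 0

/-! ### Results -/

open Classical in
/-- FNA: the pairs which contribute. -/
def Stmt_FNA : Prop :=
  ∀ (O X H : Type) [Group O] [Fintype O] [Group X] [Fintype X] [Group H] [Fintype H]
    (𝔐 : Ideal (integralClosure ℤ ℂ)) (ℓ : ℕ) [Fact ℓ.Prime], 𝔐.IsMaximal →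
    (ℓ : integralClosure ℤ ℂ) ∈ 𝔐 → ∀ (j : O →* X) (c : X →* MulAut O) (p : X →* H)
    (h : ClG j c p), pCore ℓ H = ⊥ → HQ ℓ (Nat.card H) → ∀ (Z : Subgroup O) (d : ℕ)
    (ω : X → (integralClosure ℤ ℂ) ⧸ 𝔐) (m : Subgroup H → ℚ), Mob m → ∀ τ₀ ∈ Ch ℓ Z,
    ∀ θ₀ : stb τ₀ → ℂ, IsIrr θ₀ → FP h τ₀ θ₀ →
    ∑ V, m V * ((Nat.card V : ℚ) *
      NT 𝔐 ℓ d (jS h τ₀) (pS p j τ₀) θ₀ (YS j τ₀).subtype {ω} V) ≠ 0 →
    ∀ τ ∈ Ch ℓ Z, ∀ θ : stb τ → ℂ, IsIrr θ → FP h τ θ →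
    ∑ V, m V * ((Nat.card V : ℚ) *
      NT 𝔐 ℓ d (jS h τ) (pS p j τ) θ (YS j τ).subtype {ω} V) ≠ 0 →
    Pr h 𝔐 ℓ d Z (cen 𝔐 (stb τ₀).subtype θ₀) τ θ

/-- FNB: transport from a supplement of `R` to the whole group. -/
def Stmt_FNB : Prop :=
  ∀ (W ι : Type) [Group W] [Fintype W] (I : Finset ι) (R : Subgroup W) [R.Normal]
    (hR : ∀ x y : W, x * y * x⁻¹ * y⁻¹ ∈ R) (V : Subgroup W), V ⊔ R = ⊤ →
    (∀ x y : V, Subgroup.closure {(x : W), (y : W)} ⊔ R = ⊤ →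
      Subgroup.closure {x, y} = ⊤) →
    ∀ (s : ι → ℂ) (ν : ι → (R →* ℂˣ)),
    (∀ i ∈ I, ∀ (w : W) (r r' : R), (r' : W) = w * r * w⁻¹ → ν i r' = ν i r) →
    (∀ x y : V, Subgroup.closure {x, y} = ⊤ → ∑ i ∈ I, s i *
      ((ν i ⟨(x : W) * y * (x : W)⁻¹ * (y : W)⁻¹, hR x y⟩ : ℂˣ) : ℂ)⁻¹ = 0) →
    ∀ x y : W, Subgroup.closure {x, y} ⊔ R = ⊤ →
      ∑ i ∈ I, s i * ((ν i ⟨x * y * x⁻¹ * y⁻¹, hR x y⟩ : ℂˣ) : ℂ)⁻¹ = 0

/-- FINN: the quotients without normal `ℓ`-subgroups. -/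
def Stmt_FINN : Prop :=
  ∀ (O X H : Type) [Group O] [Fintype O] [Group X] [Fintype X] [Group H] [Fintype H]
    (𝔐 : Ideal (integralClosure ℤ ℂ)) (ℓ : ℕ) [Fact ℓ.Prime], 𝔐.IsMaximal →
    (ℓ : integralClosure ℤ ℂ) ∈ 𝔐 → ∀ (j : O →* X) (c : X →* MulAut O) (p : X →* H)
    (_ : ClG j c p), Function.Surjective p → pCore ℓ H = ⊥ → ∀ n : ℕ, HQ ℓ n →
    Subgroup.center X ≤ j.range → (Subgroup.center X).index ≤ n + 1 → Nat.card H ≤ n →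
    ∀ Z : Subgroup O, IsPGroup ℓ Z → Z.map j ≤ Subgroup.center X → ∀ (d : ℕ)
    (ω : X → (integralClosure ℤ ℂ) ⧸ 𝔐), padicValNat ℓ (Nat.card Z) < d →
    DK 𝔐 ℓ d (Z.map j) (MonoidHom.id X) {ω} ≠ 0 →
    Group.IsNilpotent H ∧ ¬ ℓ ∣ Nat.card H ∧ ∃ x y : H, Subgroup.closure {x, y} = ⊤

/-- STRN: the proper quotients of a minimal counterexample. -/
def Stmt_STRN : Prop :=
  ∀ (X : Type) [Group X] [Fintype X] (ℓ : ℕ) [Fact ℓ.Prime],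
    pCore ℓ X ≤ Subgroup.center X → HQ ℓ ((Subgroup.center X).index - 1) →
    ¬ DadeHolds ℓ X → ∀ N : Subgroup X, N.Normal → Subgroup.center X < N →
    ∃ P : Subgroup X, ∃ _ : P.Normal, N ≤ P ∧ (∀ x ∈ P, ∃ k : ℕ, x ^ ℓ ^ k ∈ N) ∧
      ¬ ℓ ∣ P.index ∧ Group.IsNilpotent (X ⧸ P) ∧
      ∃ x y : X, Subgroup.closure {x, y} ⊔ P = ⊤

/-- UMN: the intersection of normal subgroups. -/
def Stmt_UMN : Prop :=
  ∀ (X : Type) [Group X] [Fintype X] (ℓ : ℕ) [Fact ℓ.Prime],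
    pCore ℓ X ≤ Subgroup.center X → HQ ℓ ((Subgroup.center X).index - 1) →
    ¬ DadeHolds ℓ X → ∀ N N' : Subgroup X, N.Normal → N'.Normal →
    Subgroup.center X < N → Subgroup.center X < N' → Subgroup.center X < N ⊓ N'

end Pool.Agent.DPN


end

section

/-!
# Weights (WGT)
-/

namespace Pool.Agent.DPN

open Pool.Agent.DP Pool.Agent.DPC Pool.Agent.DPM Pool.Agent.Lib_helper13 Representation
open Pool.Agent.Lib_helper13.Dade (pCore DadeHolds dadeSum)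

theorem WGT_thm : Stmt_WGT := by
  intro A T H W X _ _ _ _ _ _ _ _ _ _ 𝔐 ℓ _ a j p θ π μ Lm hR i ω m hm w hw
  have hnum := hR.num X i ω
  have hvan : ∀ e : ℕ, 0 < e →
      ∑ V, m V * ((Nat.card V : ℚ) * Nat.card {η : ↥(V.comap π) → ℂ // IsIrr η ∧
        OvL π.ker μ _ η ∧ HasDefect ℓ η e ∧
          ∀ g, pk 𝔐 (Lm (cI i g)) (cen 𝔐 (V.comap π).subtype η) =
            (Nat.card π.ker : ℕ) * ω g}) = 0 := fun e he =>
    hR.van m hm e he {c | ∀ g, pk 𝔐 (Lm (cI i g)) c = (Nat.card π.ker : ℕ) * ω g}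
  have key : ∑ V, m V * ((Nat.card V : ℚ) *
        ∑ e ∈ Finset.range (padicValNat ℓ (Nat.card W) + 1), w e *
          Nat.card {η : ↥(V.comap π) → ℂ // IsIrr η ∧ OvL π.ker μ _ η ∧ HasDefect ℓ η e ∧
            ∀ g, pk 𝔐 (Lm (cI i g)) (cen 𝔐 (V.comap π).subtype η) =
              (Nat.card π.ker : ℕ) * ω g}) =
      ∑ e ∈ Finset.range (padicValNat ℓ (Nat.card W) + 1), w e *
        ∑ V, m V * ((Nat.card V : ℚ) * Nat.card {η : ↥(V.comap π) → ℂ // IsIrr η ∧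
          OvL π.ker μ _ η ∧ HasDefect ℓ η e ∧
            ∀ g, pk 𝔐 (Lm (cI i g)) (cen 𝔐 (V.comap π).subtype η) =
              (Nat.card π.ker : ℕ) * ω g}) := by
    simp only [Finset.mul_sum]
    rw [Finset.sum_comm]
    refine Finset.sum_congr rfl fun e _ => Finset.sum_congr rfl fun V _ => ?_
    ring
  rw [key, Finset.sum_range_succ']
  have h0 : ∑ e ∈ Finset.range (padicValNat ℓ (Nat.card W)), w (e + 1) *
        ∑ V, m V * ((Nat.card V : ℚ) * Nat.card {η : ↥(V.comap π) → ℂ // IsIrr η ∧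
          OvL π.ker μ _ η ∧ HasDefect ℓ η (e + 1) ∧
            ∀ g, pk 𝔐 (Lm (cI i g)) (cen 𝔐 (V.comap π).subtype η) =
              (Nat.card π.ker : ℕ) * ω g}) = 0 := by
    apply Finset.sum_eq_zero
    intro e _
    rw [hvan (e + 1) (Nat.succ_pos e), mul_zero]
  rw [h0, zero_add, hw, one_mul]
  refine Finset.sum_congr rfl fun V _ => ?_
  rw [hnum V]

end Pool.Agent.DPN


end

section

/-!
# FAM: existence of families of reduced data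
-/

namespace Pool.Agent.DPN

open Pool.Agent.DP Pool.Agent.DPC Pool.Agent.DPM Pool.Agent.Lib_helper13 Representation
open Pool.Agent.Lib_helper13.Dade (pCore DadeHolds dadeSum)

namespace FAM

/-- the index set of the pairs -/
abbrev Idx {O X H : Type} [Group O] [Fintype O] [Group X] [Group H]
    {j : O →* X} {c : X →* MulAut O} {p : X →* H} (h : ClG j c p)
    (𝔐 : Ideal (integralClosure ℤ ℂ)) (ℓ a : ℕ) (Z : Subgroup O)
    (Λ : O → (integralClosure ℤ ℂ) ⧸ 𝔐) : Type :=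
  {x : (Σ τ : Finset (Subgroup O), (stb τ → ℂ)) // Pr h 𝔐 ℓ a Z Λ x.1 x.2}

theorem finite_idx {O X H : Type} [Group O] [Fintype O] [Group X] [Group H]
    {j : O →* X} {c : X →* MulAut O} {p : X →* H} (h : ClG j c p)
    (𝔐 : Ideal (integralClosure ℤ ℂ)) (ℓ a : ℕ) (Z : Subgroup O)
    (Λ : O → (integralClosure ℤ ℂ) ⧸ 𝔐) : Finite (Idx h 𝔐 ℓ a Z Λ) := by
  have h1 : Finite (Σ τ : Finset (Subgroup O), {θ : stb τ → ℂ // IsIrr θ}) := inferInstance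
  refine Finite.of_injective (β := Σ τ : Finset (Subgroup O), {θ : stb τ → ℂ // IsIrr θ})
    (fun x => ⟨x.1.1, ⟨x.1.2, x.2.irr⟩⟩) ?_
  rintro ⟨⟨τ, θ⟩, hx⟩ ⟨⟨τ', θ'⟩, hx'⟩ hxy
  simp only [Sigma.mk.injEq] at hxy
  obtain ⟨rfl, h2⟩ := hxy
  simp only [heq_eq_eq, Subtype.mk.injEq] at h2
  subst h2
  rfl

end FAM

theorem FAM_thm (h1 : Stmt_RDX) (h2 : Stmt_WFP) (h3 : Stmt_RRN) : Stmt_FAM := by
  intro O X H _ _ _ _ _ _ 𝔐 ℓ _ hM hℓ j c p h hcore hQ a Z Λ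
  classical
  have := FAM.finite_idx h 𝔐 ℓ a Z Λ
  obtain ⟨W, iW, fW, π, hπ, hc, hl, hx⟩ := h2 (FAM.Idx h 𝔐 ℓ a Z Λ) H
    (fun x => ↥(stb x.1.1)) (fun x => ↥(YS j x.1.1)) 𝔐 ℓ hM hℓ (fun _ => a)
    (fun x => jS h x.1.1) (fun x => pS p j x.1.1) (fun x => x.1.2)
    (fun x => x.2.fp.1)
    (fun x => h1 (stb x.1.1) (YS j x.1.1) H 𝔐 ℓ hM hℓ (jS h x.1.1) (cS h x.1.1)
      (pS p j x.1.1) (clG_S h x.1.1) x.2.fp.1 hcore hQ x.1.2 x.2.irr x.2.fp.2 a x.2.df)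
  choose μ' Lm' hR using hx
  let μ : ∀ τ : Finset (Subgroup O), (stb τ → ℂ) → (π.ker →* ℂˣ) := fun τ θ =>
    if hp : Pr h 𝔐 ℓ a Z Λ τ θ then μ' ⟨⟨τ, θ⟩, hp⟩ else 1
  let Lm : ∀ τ : Finset (Subgroup O), (stb τ → ℂ) → (YS j τ → ℤ) → W →
      (integralClosure ℤ ℂ) ⧸ 𝔐 := fun τ θ =>
    if hp : Pr h 𝔐 ℓ a Z Λ τ θ then Lm' ⟨⟨τ, θ⟩, hp⟩ else 0
  obtain ⟨R, hRR⟩ := h3 O X H W 𝔐 ℓ hM hℓ j c p h a Z Λ π hπ hc hl μ Lm (by
    intro τ θ hp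
    have e1 : μ τ θ = μ' ⟨⟨τ, θ⟩, hp⟩ := dif_pos hp
    have e2 : Lm τ θ = Lm' ⟨⟨τ, θ⟩, hp⟩ := dif_pos hp
    rw [e1, e2]
    exact hR ⟨⟨τ, θ⟩, hp⟩)
  exact ⟨W, iW, fW, π, R, μ, Lm, hRR⟩

end Pool.Agent.DPN


end

section

/-!
# The minimal normal subgroups of a minimal counterexample to Dade's conjecture: definitions
-/

namespace Pool.Agent.DPT

open Pool.Agent.DP Pool.Agent.DPC Pool.Agent.DPM Pool.Agent.DPN Pool.Agent.Lib_helper13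
open Representation
open Pool.Agent.Lib_helper13.Dade (pCore DadeHolds dadeSum)

/-- `H` has a normal `ℓ`-subgroup with an abelian quotient of order prime to `ℓ`. -/
def HH (ℓ : ℕ) (H : Type) [Group H] : Prop :=
  ∃ P : Subgroup H, P.Normal ∧ IsPGroup ℓ P ∧ ¬ ℓ ∣ P.index ∧ ∀ x y : H, x * y * x⁻¹ * y⁻¹ ∈ P

/-! ### Characters of subgroups as functions on the group -/

section Fun

variable {G : Type} [Group G]

/-- `θ` is an irreducible character of defect `d` of `S`, extended by zero. -/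
def ID (ℓ : ℕ) [Fintype G] (S : Subgroup G) (d : ℕ) (θ : G → ℂ) : Prop :=
  IrrOn S θ ∧ HasDefect ℓ (fun s : S => θ s) d

/-- The weight of `F` with respect to the character `θ` of `S`. -/
noncomputable def wS [Fintype G] (S : Subgroup G) (θ F : G → ℂ) : ℂ :=
  wt (fun s : S => θ s) (fun s => F s)

/-- The inner product on `N`. -/
noncomputable def iS [Fintype G] (N : Subgroup G) (f g : G → ℂ) : ℂ :=
  ip (fun n : N => f n) (fun n : N => g n)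

/-- The stabilizer of the function `θ`. -/
def sx {α : Type} (θ : G → α) : Subgroup G where
  carrier := {g | ∀ x, θ (g * x * g⁻¹) = θ x}
  one_mem' := by
    intro x
    simp
  mul_mem' := by
    intro a b ha hb x
    have h := ha (b * x * b⁻¹)
    rw [hb] at h
    rw [← h]
    congr 1
    group
  inv_mem' := by
    intro a ha x
    have h := ha (a⁻¹ * x * a⁻¹⁻¹)
    rw [← h]
    congr 1
    group

theorem mem_sx {α : Type} {θ : G → α} {g : G} : g ∈ sx θ ↔ ∀ x, θ (g * x * g⁻¹) = θ x := Iff.rfl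

/-- The number of the irreducible characters of `S` of defect `d` over the character `θ` of `N`. -/
noncomputable def NO (ℓ : ℕ) [Fintype G] (S N : Subgroup G) (θ : G → ℂ) (d : ℕ) : ℕ :=
  Nat.card {ψ : G → ℂ // ID ℓ S d ψ ∧ iS N ψ θ ≠ 0}

/-- The character `θ'` of the centralizer of `R` in `N` corresponds to the character `θ` of `N`. -/
def DGs (𝔐 : Ideal (integralClosure ℤ ℂ)) [Fintype G] (N R : Subgroup G) (θ' θ : G → ℂ) : Prop :=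
  ∀ F : G → ℂ, (∀ n ∈ N, ∀ x ∈ N, F (n * x * n⁻¹) = F x) →
    (∀ r ∈ R, ∀ x ∈ N, F (r * x * r⁻¹) = F x) → (∀ x, IsIntegral ℤ (F x)) →
    red 𝔐 (wS (cN N R) θ' F) = red 𝔐 (wS N θ F)

/-- Conjugation by `x` multiplies the values above `y ^ i` of an extension of `θ` to the group
generated by `N` and `y` by `ζ ^ i`. -/
def BT (N : Subgroup G) (θ : G → ℂ) (x y : G) (ζ : ℂ) : Prop :=
  ∃ E : G → ℂ, IrrOn (N ⊔ Subgroup.zpowers y) E ∧ (∀ n ∈ N, E n = θ n) ∧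
    ∀ (i : ℤ), ∀ n ∈ N, E (x * (y ^ i * n) * x⁻¹) = ζ ^ i * E (y ^ i * n)

end Fun

/-! ### Central extensions by `ℓ`-groups -/

section Ker

variable {Y G : Type} [Group Y] [Group G]

/-- The kernel of `k` is a central `ℓ`-group. -/
structure FC (ℓ : ℕ) (k : Y →* G) : Prop where
  cen : k.ker ≤ Subgroup.center Y
  pg : IsPGroup ℓ k.ker

/-- `χ` lies over the linear character `lam` of the kernel of `k`. -/
def OvK (k : Y →* G) (lam : k.ker →* ℂˣ) (χ : Y → ℂ) : Prop :=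
  ∀ (z : k.ker) (y : Y), χ (z * y) = ((lam z : ℂˣ) : ℂ) * χ y

/-- `χ` is the character over `lam` of the inverse image of `C` which belongs to the character
`θ` of defect zero of `C`. -/
def ML (𝔐 : Ideal (integralClosure ℤ ℂ)) [Fintype Y] (k : Y →* G) (lam : k.ker →* ℂˣ)
    (C : Subgroup G) (θ : G → ℂ) (χ : Y → ℂ) : Prop :=
  IrrOn (C.comap k) χ ∧ OvK k lam χ ∧
    cen 𝔐 (MonoidHom.id ↥(C.comap k)) (fun y => χ y) =
      cen 𝔐 (MonoidHom.id ↥(C.comap k)) (fun y => θ (k y))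

open Classical in
/-- The function `F ∘ k`, restricted to the elements of order prime to `ℓ`. -/
noncomputable def rg (ℓ : ℕ) (k : Y →* G) (F : G → ℂ) (y : Y) : ℂ :=
  if ℓ ∣ orderOf y then 0 else F (k y)

open Classical in
/-- The sums over the fibres of `k`. -/
noncomputable def pu [Fintype Y] (k : Y →* G) (F : Y → ℂ) (x : G) : ℂ :=
  ∑ y : Y, if k y = x then F y else 0

/-- The character `ψ` of the inverse image of `S` has the type of the character `θ₀` of `M₀`. -/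
def TyR (𝔐 : Ideal (integralClosure ℤ ℂ)) (ℓ : ℕ) [Fintype Y] [Fintype G] (k : Y →* G)
    (M₀ S : Subgroup G) (ψ : Y → ℂ) (θ₀ : G → ℂ) : Prop :=
  ∀ F : G → ℂ, (∀ g x, F (g * x * g⁻¹) = F x) → (∀ x, IsIntegral ℤ (F x)) →
    (∀ x, x ∉ M₀ → F x = 0) → red 𝔐 (wS (S.comap k) ψ (rg ℓ k F)) = red 𝔐 (wS M₀ θ₀ F)

/-- The weighted number of the characters of defect `d` of the inverse image of `S` over `lam`
which have the type of `θ₀`. -/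
noncomputable def WR (𝔐 : Ideal (integralClosure ℤ ℂ)) (ℓ d : ℕ) [Fintype Y] [Fintype G]
    (k : Y →* G) (lam : k.ker →* ℂˣ) (M₀ : Subgroup G) (θ₀ : G → ℂ) (S : Subgroup G) : ℚ :=
  (Nat.card ↥(S ⊓ k.range) : ℚ) * Nat.card {ψ : Y → ℂ // ID ℓ (S.comap k) d ψ ∧ OvK k lam ψ ∧
    TyR 𝔐 ℓ k M₀ S ψ θ₀}

/-- The number of the characters of defect `d` of the inverse image of `B` over the character
which belongs to `ξ`. -/
noncomputable def NM (𝔐 : Ideal (integralClosure ℤ ℂ)) (ℓ d : ℕ) [Fintype Y] (k : Y →* G)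
    (lam : k.ker →* ℂˣ) (M₀ : Subgroup G) (ξ : G → ℂ) (B : Subgroup G) : ℕ :=
  Nat.card {ψ : Y → ℂ // ID ℓ (B.comap k) d ψ ∧
    ∃ χ, ML 𝔐 k lam M₀ ξ χ ∧ iS (M₀.comap k) ψ χ ≠ 0}

end Ker

end Pool.Agent.DPT


end

section

set_option linter.unusedSectionVars false

/-!
# Module BLKB: blocks over a character of positive defect do not contain induced blocks over
characters of defect zero
-/

namespace Pool.Agent.DP

open Pool.Agent.Lib_helper13 Representation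

namespace BLKB

section Act

variable (R Ω G : Type*) [Group R] [MulAction R Ω] [Group G]

/-- The conjugation action of the group on its base group. -/
def cAct : Gam R Ω G →* MulAut (Ω → G) :=
  SemidirectProduct.lift (MulAut.conj : (Ω → G) →* MulAut (Ω → G)) (pAct R Ω G) (by
    intro r
    ext n x a
    simp [pAct])

theorem clG_N : ClG (iN R Ω G) (cAct R Ω G)
    (SemidirectProduct.rightHom : Gam R Ω G →* R) where
  inj := SemidirectProduct.inl_injective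
  act := by
    intro y a
    rw [← conj_iN]
    congr 1
  ker := by
    intro y
    rw [SemidirectProduct.range_inl_eq_ker_rightHom, MonoidHom.mem_ker]

end Act

section Fn

variable {R Ω G : Type*} [Group R] [MulAction R Ω] [Fintype Ω] [Group G]

open Classical in
/-- The product of the values of a function on the base group, extended by zero. -/
noncomputable def yF (f : G → ℤ) (x : Gam R Ω G) : ℂ :=
  if x.right = 1 then ∏ a, (f (x.left a) : ℂ) else 0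

theorem yF_iN (f : G → ℤ) (n : Ω → G) : yF f (iN R Ω G n) = ∏ a, (f (n a) : ℂ) := by
  rw [yF, if_pos (SemidirectProduct.right_inl n)]
  rfl

theorem eq_iN {x : Gam R Ω G} (h : x.right = 1) : x = iN R Ω G x.left := by
  apply SemidirectProduct.ext
  · rfl
  · rw [h]
    rfl

theorem yF_class {f : G → ℤ} (hf : ∀ g x, f (g * x * g⁻¹) = f x) (g x : Gam R Ω G) :
    yF f (g * x * g⁻¹) = yF f x := by
  by_cases h : x.right = 1
  · rw [eq_iN h, ← conj_iN, yF_iN, yF_iN]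
    have h1 : ∀ a : Ω, ((f (g.left a * x.left (g.right⁻¹ • a) * (g.left a)⁻¹) : ℤ) : ℂ) =
        (f (x.left (MulAction.toPerm g.right⁻¹ a)) : ℂ) := by
      intro a
      rw [hf]
      rfl
    rw [Finset.prod_congr rfl fun a _ => h1 a]
    exact Equiv.prod_comp (MulAction.toPerm g.right⁻¹) fun a => (f (x.left a) : ℂ)
  · rw [yF, yF, if_neg h, if_neg]
    intro h1
    apply h
    have h2 : (g * x * g⁻¹).right = g.right * x.right * g.right⁻¹ := rfl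
    rw [h2, mul_inv_eq_one] at h1
    exact mul_eq_left.mp h1

theorem yF_integral (f : G → ℤ) (x : Gam R Ω G) : IsIntegral ℤ (yF f x) := by
  rw [yF]
  split_ifs
  · apply IsIntegral.prod
    intro a _
    exact isIntegral_algebraMap (R := ℤ) (A := ℂ) (x := f (x.left a))
  · exact isIntegral_zero

end Fn

theorem intCast_integral (z : ℤ) : IsIntegral ℤ (z : ℂ) :=
  isIntegral_algebraMap (R := ℤ) (A := ℂ) (x := z)

theorem fermat {ℓ : ℕ} [Fact ℓ.Prime] (k : ℕ) (z : ℤ) : (ℓ : ℤ) ∣ z ^ ℓ ^ k - z := by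
  rw [← ZMod.intCast_zmod_eq_zero_iff_dvd]
  push_cast
  rw [ZMod.pow_card_pow, sub_self]

theorem red_pow_int (𝔐 : Ideal (integralClosure ℤ ℂ)) {ℓ : ℕ} [Fact ℓ.Prime]
    (hℓ : (ℓ : integralClosure ℤ ℂ) ∈ 𝔐) (k : ℕ) (z : ℤ) :
    red 𝔐 ((z : ℂ) ^ ℓ ^ k) = red 𝔐 (z : ℂ) := by
  obtain ⟨m, hm⟩ := fermat (ℓ := ℓ) k z
  have h1 : (z : ℂ) ^ ℓ ^ k = z + (ℓ : ℂ) * m := by
    have h2 : ((z ^ ℓ ^ k - z : ℤ) : ℂ) = ((ℓ * m : ℤ) : ℂ) := by rw [hm]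
    push_cast at h2
    rw [← h2]
    ring
  rw [h1, red_add 𝔐 (intCast_integral z) ((isIntegral_natCast ℓ).mul (intCast_integral m)),
    red_natCast_mul 𝔐 ℓ (intCast_integral m), nsmul_quot_eq_zero 𝔐 hℓ, add_zero]

theorem prod_pow {Ω O : Type*} [Fintype Ω] [Fintype O] [DecidableEq O] (π : Ω → O) (g : O → ℂ) :
    ∏ a, g (π a) = ∏ o, g o ^ Nat.card {w : Ω // π w = o} := by
  rw [← Fintype.prod_fiberwise π]
  refine Finset.prod_congr rfl fun o _ => ?_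
  have h1 : ∀ i : {w : Ω // π w = o}, g (π i) = g o := by
    rintro ⟨w, hw⟩
    simp only
    rw [hw]
  rw [Finset.prod_congr rfl fun i _ => h1 i, Finset.prod_const, Finset.card_univ,
    Nat.card_eq_fintype_card]

end BLKB

open _root_.Pool.Agent.DP.BLKB

/-- BLKB. -/
theorem BLKB_thm (h1 : Stmt_BLKA) (h2 : Stmt_SUMM) (_h3 : Stmt_IRRPI) : Stmt_BLKB := by
  intro R Ω K O G _ _ _ _ _ _ _ _ _ _ _ _ 𝔐 ℓ _ h𝔐 hℓ i π hπ hi1 hi2 χ ξ w e hχ hξ hipχ hde he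
    ψ θ hψ hθ hdθ hipψ hcen
  have hprime : 𝔐.IsPrime := h𝔐.isPrime
  obtain ⟨f, hfc, hf0, hf1⟩ := h1 G 𝔐 ℓ h𝔐 hℓ
  choose q hq using hπ
  -- the two weights agree modulo the ideal
  have hA : red 𝔐 (wt χ (fun x => yF f x)) = red 𝔐 (wt ψ (fun y => yF f (i y))) := by
    have ha := red_wt_eq_pair 𝔐 (MonoidHom.id (Gam R Ω G)) hχ (fun x => yF f x)
      (fun g x => yF_class hfc g x) (fun x => yF_integral f x)
    have hb := red_wt_eq_pair 𝔐 i hψ (fun x => yF f x)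
      (fun g x => yF_class hfc g x) (fun x => yF_integral f x)
    have hc : cen 𝔐 i ψ = cen 𝔐 (MonoidHom.id (Gam R Ω G)) χ := funext hcen
    rw [hc] at hb
    exact ha.trans hb.symm
  -- the weight of `χ`
  have hB : wt χ (fun x => yF f x) = ∏ a, wt (ξ a) (fun x => (f x : ℂ)) := by
    rw [(h2 (Ω → G) (Gam R Ω G) R (iN R Ω G) (cAct R Ω G) SemidirectProduct.rightHom
      (clG_N R Ω G)).2.2.2 (prodFn ξ) χ (fun x => yF f x) (isIrr_prodFn hξ) hχ hipχ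
      (fun g x => yF_class hfc g x) ?_]
    · rw [← wt_prodFn]
      congr 1
      ext n
      exact yF_iN f n
    · intro y hy
      rw [yF, if_neg]
      intro h
      exact hy ⟨y.left, (eq_iN h).symm⟩
  -- the weight of `ψ`
  have hC : wt ψ (fun y => yF f (i y)) =
      ∏ o, wt (θ o) (fun x => (f x : ℂ) ^ ℓ ^ q o) := by
    rw [(h2 (O → G) (Gam K O G) K (iN K O G) (cAct K O G) SemidirectProduct.rightHom
      (clG_N K O G)).2.2.2 (prodFn θ) ψ (fun y => yF f (i y)) (isIrr_prodFn hθ) hψ hipψ ?_ ?_]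
    · rw [← wt_prodFn]
      congr 1
      ext n
      rw [hi1, yF_iN, prod_pow π (fun o => (f (n o) : ℂ))]
      simp only [prodFn, hq]
    · intro g x
      rw [map_mul, map_mul, map_inv, yF_class hfc]
    · intro y hy
      rw [yF, if_neg]
      intro h
      exact hy ⟨y.left, (eq_iN (hi2 y h)).symm⟩
  have hint : ∀ (φ : G → ℂ), IsIrr φ → IsIntegral ℤ (wt φ (fun x => (f x : ℂ))) := by
    intro φ hφ
    apply isIntegral_wt hφ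
    · intro g x
      rw [hfc]
    · intro x
      exact intCast_integral _
  have hintp : ∀ (φ : G → ℂ) (k : ℕ), IsIrr φ →
      IsIntegral ℤ (wt φ (fun x => (f x : ℂ) ^ ℓ ^ k)) := by
    intro φ k hφ
    apply isIntegral_wt hφ
    · intro g x
      rw [hfc]
    · intro x
      exact (intCast_integral _).pow _
  rw [hB, hC, red_prod 𝔐 _ _ fun a _ => hint _ (hξ a),
    red_prod 𝔐 _ _ fun o _ => hintp _ _ (hθ o),
    Finset.prod_eq_zero (Finset.mem_univ w) (hf0 (ξ w) e (hξ w) hde he)] at hA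
  refine (Finset.prod_ne_zero_iff.mpr fun o _ => ?_) hA.symm
  have hD : red 𝔐 (wt (θ o) (fun x => (f x : ℂ) ^ ℓ ^ q o)) =
      red 𝔐 (wt (θ o) (fun x => (f x : ℂ))) := by
    apply red_wt_eq 𝔐 hℓ (hθ o) (⊥ : Subgroup G) IsPGroup.of_bot
    · intro g x
      rw [hfc]
    · intro x
      exact (intCast_integral _).pow _
    · intro g x
      rw [hfc]
    · intro x
      exact intCast_integral _
    · intro x _
      exact red_pow_int 𝔐 hℓ (q o) (f x)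
  rw [hD]
  exact hf1 (θ o) (hθ o) (hdθ o)

end Pool.Agent.DP


end

section

/-!
# Theorem V, EXPV: expansion of a class function in class indicators
-/

set_option autoImplicit false

namespace Pool.Agent.DPV

open Pool.Agent.DP Pool.Agent.Lib_helper13 Representation
open Pool.Agent.Lib_helper13.Dade (pCore DadeHolds dadeSum)

namespace EXPV

variable {B : Type*} [Group B]

/-- Conjugacy under a subgroup. -/
def cjS (T : Subgroup B) : Setoid B where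
  r x y := ∃ t ∈ T, x = t * y * t⁻¹
  iseqv :=
    { refl := fun x => ⟨1, T.one_mem, by group⟩
      symm := by
        rintro x y ⟨t, ht, rfl⟩
        exact ⟨t⁻¹, T.inv_mem ht, by group⟩
      trans := by
        rintro x y z ⟨t, ht, rfl⟩ ⟨s, hs, rfl⟩
        exact ⟨t * s, T.mul_mem ht hs, by group⟩ }

open Classical in
/-- A function constant on the classes is a combination of the class indicators. -/
theorem sum_classes [Fintype B] (T : Subgroup B) (a h : B → ℂ)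
    (ha : ∀ t ∈ T, ∀ x, a (t * x * t⁻¹) = a x) :
    ∑ y, a y * h y =
      ∑ q : Quotient (cjS T), a q.out * ∑ x, cjT T x q.out * h x := by
  rw [← Finset.sum_fiberwise (s := Finset.univ) (g := fun y => Quotient.mk (cjS T) y)
    (f := fun y => a y * h y)]
  refine Finset.sum_congr rfl fun q _ => ?_
  rw [Finset.mul_sum, Finset.sum_filter]
  refine Finset.sum_congr rfl fun x _ => ?_
  have key : Quotient.mk (cjS T) x = q ↔ ∃ t ∈ T, x = t * q.out * t⁻¹ := by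
    constructor
    · intro hx
      have h1 : Quotient.mk (cjS T) x = Quotient.mk (cjS T) q.out := by
        rw [hx]
        exact (Quotient.out_eq q).symm
      exact Quotient.exact h1
    · intro hx
      have h1 : Quotient.mk (cjS T) x = Quotient.mk (cjS T) q.out := Quotient.sound hx
      rw [h1]
      exact Quotient.out_eq q
  unfold cjT
  by_cases hx : ∃ t ∈ T, x = t * q.out * t⁻¹
  · rw [if_pos (key.2 hx), if_pos hx, one_mul]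
    obtain ⟨t, ht, rfl⟩ := hx
    rw [ha t ht]
  · rw [if_neg (fun h1 => hx (key.1 h1)), if_neg hx, zero_mul, mul_zero]

open Classical in
theorem wt_classes [Fintype B] (T : Subgroup B) (a h : B → ℂ)
    (ha : ∀ t ∈ T, ∀ x, a (t * x * t⁻¹) = a x) :
    wt h a = ∑ q : Quotient (cjS T), a q.out * ((∑ x, cjT T x q.out * h x) / h 1) := by
  unfold wt
  rw [sum_classes T a h ha, Finset.sum_div]
  exact Finset.sum_congr rfl fun q _ => by rw [mul_div_assoc]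

end EXPV

theorem EXPV_thm : Stmt_EXPV := by
  intro G B _ _ _ _ 𝔐 ι f f' hf hf' a ha hai
  have ha' : ∀ t ∈ ι.range, ∀ x, a (t * x * t⁻¹) = a x := by
    rintro _ ⟨g, rfl⟩ x
    exact ha g x
  classical
  have e1 := EXPV.wt_classes ι.range a f ha'
  have e2 := EXPV.wt_classes ι.range a f' ha'
  have i1 : ∀ q : Quotient (EXPV.cjS ι.range),
      IsIntegral ℤ (a q.out * ((∑ x, cjT ι.range x q.out * f x) / f 1)) :=
    fun q => (hai _).mul (hf _)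
  have i2 : ∀ q : Quotient (EXPV.cjS ι.range),
      IsIntegral ℤ (a q.out * ((∑ x, cjT ι.range x q.out * f' x) / f' 1)) :=
    fun q => (hai _).mul (hf' _)
  refine ⟨?_, ?_, ?_⟩
  · rw [e1]
    exact isIntegral_sum _ _ fun q _ => i1 q
  · rw [e2]
    exact isIntegral_sum _ _ fun q _ => i2 q
  · intro ν hν
    rw [e1, e2, red_sum 𝔐 _ _ fun q _ => i1 q, red_sum 𝔐 _ _ fun q _ => i2 q, Finset.mul_sum]
    refine Finset.sum_congr rfl fun q _ => ?_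
    rw [red_mul 𝔐 (hai _) (hf _), red_mul 𝔐 (hai _) (hf' _)]
    by_cases h0 : a q.out = 0
    · rw [h0, red_zero, zero_mul, zero_mul, mul_zero]
    · have := hν q.out h0
      unfold cgT at this
      rw [this]
      ring

end Pool.Agent.DPV


end
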