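import Mathlib
import Pool.Agent.DAM.C08
import Pool.Agent.DAM.C11

/-! Parts: DP.ZR, DP.RINNER, DPB.SEP, DP.DZT, DP.CGT, DP.TRBR, DP.RINA -/

section

/-!
# Module ZR: the largest normal `ℓ`-subgroup of `G ^ Ω ⋊ R`
-/

namespace Pool.Agent.DP

open Pool.Agent.Lib_helper13 Representation
open Pool.Agent.Lib_helper13.Dade (pCore DadeHolds)

namespace ZR

theorem pCore_spec (ℓ : ℕ) [Fact ℓ.Prime] (X : Type*) [Group X] [Finite X] :
    (pCore ℓ X).Normal ∧ IsPGroup ℓ (pCore ℓ X) := by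
  have hfin : {N : Subgroup X | N.Normal ∧ IsPGroup ℓ N}.Finite := Set.toFinite _
  have h1 : pCore ℓ X = hfin.toFinset.sup id := by
    unfold pCore
    rw [Finset.sup_id_eq_sSup, Set.Finite.coe_toFinset]
  rw [h1]
  refine Finset.sup_induction (p := fun N : Subgroup X => N.Normal ∧ IsPGroup ℓ N) ?_ ?_ ?_
  · exact ⟨inferInstance, IsPGroup.of_bot⟩
  · rintro H ⟨hH1, hH2⟩ K ⟨hK1, hK2⟩
    exact ⟨Subgroup.sup_normal H K, IsPGroup.to_sup_of_normal_right hH2 hK2⟩
  · intro N hN
    rw [Set.Finite.mem_toFinset] at hN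
    exact hN

theorem le_pCore (ℓ : ℕ) {X : Type*} [Group X] (N : Subgroup X) (h1 : N.Normal)
    (h2 : IsPGroup ℓ N) : N ≤ pCore ℓ X := le_sSup ⟨h1, h2⟩

section

variable {R Ω G : Type} [Group R] [Finite R] [MulAction R Ω] [Finite Ω] [Group G] [Finite G]
  {ℓ : ℕ} [Fact ℓ.Prime]

/-- the intersection with the base group is trivial -/
theorem inter_bot (hG : pCore ℓ G = ⊥) (Z : Subgroup (Gam R Ω G)) (h1 : Z.Normal)
    (h2 : IsPGroup ℓ Z) (n : Ω → G) (hn : iN R Ω G n ∈ Z) : n = 1 := by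
  funext o
  set M : Subgroup (Ω → G) := Z.comap (iN R Ω G) with hM
  have hM1 : M.Normal := Subgroup.Normal.comap h1 _
  have hM2 : IsPGroup ℓ M :=
    h2.comap_of_injective (iN R Ω G) SemidirectProduct.inl_injective
  set P : Subgroup G := M.map (Pi.evalMonoidHom (fun _ : Ω => G) o) with hP
  have hsurj : Function.Surjective (Pi.evalMonoidHom (fun _ : Ω => G) o) :=
    Function.surjective_eval o
  have hP1 : P.Normal := Subgroup.Normal.map hM1 _ hsurj
  have hP2 : IsPGroup ℓ P := hM2.map _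
  have h3 : P ≤ ⊥ := hG ▸ le_pCore ℓ P hP1 hP2
  have h4 : n o ∈ P := ⟨n, hn, rfl⟩
  exact Subgroup.mem_bot.mp (h3 h4)

/-- a central element of order a power of `ℓ` is trivial -/
theorem central_one (hG : pCore ℓ G = ⊥) (a : G) (hc : ∀ g, a * g = g * a) (k : ℕ)
    (hk : a ^ ℓ ^ k = 1) : a = 1 := by
  set P : Subgroup G := Subgroup.zpowers a with hP
  have hP1 : P.Normal := by
    refine ⟨fun x hx g => ?_⟩
    obtain ⟨m, rfl⟩ := Subgroup.mem_zpowers_iff.mp hx
    have h1 : g * a ^ m * g⁻¹ = a ^ m := by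
      have h2 : Commute a g := hc g
      have h3 : Commute (a ^ m) g := h2.zpow_left m
      rw [← h3.eq, mul_assoc, mul_inv_cancel, mul_one]
    rw [h1]
    exact hx
  have hP2 : IsPGroup ℓ P := by
    rintro ⟨x, hx⟩
    obtain ⟨m, rfl⟩ := Subgroup.mem_zpowers_iff.mp hx
    refine ⟨k, ?_⟩
    apply Subtype.ext
    change (a ^ m) ^ ℓ ^ k = 1
    rw [← zpow_natCast, ← zpow_mul, mul_comm, zpow_mul, zpow_natCast, hk, one_zpow]
  have h3 : P ≤ ⊥ := hG ▸ le_pCore ℓ P hP1 hP2
  exact Subgroup.mem_bot.mp (h3 (Subgroup.mem_zpowers a))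

end

end ZR

open _root_.Pool.Agent.DP.ZR in
/-- **Module ZR.** -/
theorem ZR_thm : Stmt_ZR := by
  intro R Ω G _ _ _ _ _ _ ℓ _ hG hnt
  haveI : Finite (Gam R Ω G) := Finite.of_equiv _ (SemidirectProduct.equivProd (φ := pAct R Ω G)).symm
  obtain ⟨hZ1, hZ2⟩ := pCore_spec ℓ (Gam R Ω G)
  set Z := pCore ℓ (Gam R Ω G) with hZ
  have hN : (iN R Ω G).range.Normal := by
    have h1 : (iN R Ω G).range = (SemidirectProduct.rightHom : Gam R Ω G →* R).ker :=
      SemidirectProduct.range_inl_eq_ker_rightHom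
    rw [h1]
    infer_instance
  have hdis : Disjoint Z (iN R Ω G).range := by
    rw [Subgroup.disjoint_def]
    rintro x hx ⟨n, rfl⟩
    rw [inter_bot hG Z hZ1 hZ2 n hx, map_one]
  -- commutation with the base group
  have hcomm : ∀ z ∈ Z, ∀ (n : Ω → G) (o : Ω),
      z.left o * n (z.right⁻¹ • o) = n o * z.left o := by
    intro z hz n o
    have h1 : Commute z (iN R Ω G n) :=
      Subgroup.commute_of_normal_of_disjoint Z (iN R Ω G).range hZ1 hN hdis z _ hz ⟨n, rfl⟩
    have h2 := congrArg (fun x : Gam R Ω G => x.left o) h1.eq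
    have h3 : (z * iN R Ω G n).left o = z.left o * n (z.right⁻¹ • o) := rfl
    have h4 : (iN R Ω G n * z).left o = n o * z.left o := by
      change n o * z.left ((1 : R)⁻¹ • o) = n o * z.left o
      rw [inv_one, one_smul]
    calc z.left o * n (z.right⁻¹ • o) = (z * iN R Ω G n).left o := h3.symm
      _ = (iN R Ω G n * z).left o := h2
      _ = _ := h4
  obtain ⟨g, hg⟩ := exists_ne (1 : G)
  have hfix : ∀ z ∈ Z, ∀ o : Ω, z.right⁻¹ • o = o := by
    intro z hz o
    by_contra hcon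
    classical
    have h1 := hcomm z hz (Function.update 1 o g) o
    rw [Function.update_of_ne hcon, Function.update_self, Pi.one_apply, mul_one] at h1
    exact hg (mul_right_cancel (by rw [← h1, one_mul] : g * z.left o = 1 * z.left o))
  have hfix' : ∀ z ∈ Z, ∀ o : Ω, z.right • o = o := by
    intro z hz o
    have h1 := hfix z hz o
    have h2 : z.right • (z.right⁻¹ • o) = z.right • o := by rw [h1]
    rw [smul_inv_smul] at h2
    exact h2.symm
  have hleft : ∀ z ∈ Z, z.left = 1 := by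
    intro z hz
    obtain ⟨k, hk⟩ := hZ2 ⟨z, hz⟩
    have hk' : z ^ ℓ ^ k = 1 := congrArg Subtype.val hk
    have hpow : ∀ m : ℕ, (z ^ m).left = z.left ^ m ∧ ∀ o : Ω, (z ^ m).right⁻¹ • o = o := by
      intro m
      induction m with
      | zero =>
        refine ⟨by simp, fun o => by simp⟩
      | succ m ih =>
        constructor
        · rw [pow_succ, pow_succ, ← ih.1]
          funext o
          change (z ^ m).left o * z.left ((z ^ m).right⁻¹ • o) = (z ^ m).left o * z.left o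
          rw [ih.2 o]
        · intro o
          exact hfix _ (Z.pow_mem hz (m + 1)) o
    funext o
    have h1 : z.left ^ ℓ ^ k = 1 := by
      rw [← (hpow (ℓ ^ k)).1, hk']
      rfl
    refine central_one hG (z.left o) ?_ k ?_
    · intro x
      have h2 := hcomm z hz (fun _ => x) o
      exact h2
    · have h2 := congrFun h1 o
      simpa using h2
  refine ⟨Z.comap (iR R Ω G), Subgroup.Normal.comap hZ1 _,
    hZ2.comap_of_injective (iR R Ω G) SemidirectProduct.inr_injective, ?_, ?_⟩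
  · intro z hz w
    exact hfix' (iR R Ω G z) hz w
  · symm
    apply Subgroup.map_comap_eq_self
    intro z hz
    refine ⟨z.right, ?_⟩
    apply SemidirectProduct.ext
    · rw [hleft z hz]
      simp
    · simp

end Pool.Agent.DP


end

section

/-!
# Theorem R: the inner sum of an outer chain (module RINNER)
-/

namespace Pool.Agent.DP.RINNER

open Pool.Agent.Lib_helper13 Pool.Agent.DP
open Pool.Agent.Lib_helper13.Dade (pCore DadeHolds)

section Top

variable {X : Type*} [Group X]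

theorem tp_pgroup {ℓ : ℕ} [Fact ℓ.Prime] (Z : Subgroup X) [Z.Normal] (hZ : IsPGroup ℓ Z)
    (c : Finset (Subgroup X)) (hc : IsCh ℓ Z c) : IsPGroup ℓ (tp Z c) := by
  apply IsPGroup.to_sup_of_normal_right _ hZ
  rcases c.eq_empty_or_nonempty with h | h
  · rw [h, Finset.sup_empty]
    exact IsPGroup.of_bot
  · obtain ⟨T, hT, hT'⟩ := hc.exists_top h
    have : c.sup id = T := by
      apply le_antisymm
      · rw [Finset.sup_le_iff]
        exact hT'
      · exact Finset.le_sup (f := id) hT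
    rw [this]
    exact (hc.1 T hT).1

theorem tp_inf {ℓ : ℕ} (Z N : Subgroup X) (hZ : Z ⊓ N = ⊥) (c : Finset (Subgroup X))
    (hc : IsCh ℓ Z c) (hcN : ∀ D ∈ c, D ⊓ N = ⊥) : tp Z c ⊓ N = ⊥ := by
  rcases c.eq_empty_or_nonempty with h | h
  · rw [tp, h, Finset.sup_empty, bot_sup_eq]
    exact hZ
  · obtain ⟨T, hT, hT'⟩ := hc.exists_top h
    have h1 : c.sup id = T := by
      apply le_antisymm
      · rw [Finset.sup_le_iff]
        exact hT'
      · exact Finset.le_sup (f := id) hT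
    have h2 : tp Z c = T := by
      rw [tp, h1]
      exact sup_eq_left.mpr (hc.1 T hT).2.le
    rw [h2]
    exact hcN T hT

theorem le_tp (Z : Subgroup X) {c : Finset (Subgroup X)} {D : Subgroup X} (hD : D ∈ c) :
    D ≤ tp Z c := le_trans (Finset.le_sup (f := id) hD) le_sup_left

theorem tp_conj_le (Z : Subgroup X) [Z.Normal] (c : Finset (Subgroup X)) {k : X}
    (hk : k ∈ stb c) : ∀ q ∈ tp Z c, k * q * k⁻¹ ∈ tp Z c := by
  intro q hq
  have h1 : tp Z c ≤ (tp Z c).comap (MulAut.conj k).toMonoidHom := by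
    refine sup_le ?_ ?_
    · rw [Finset.sup_le_iff]
      intro D hD x hx
      have h2 : k * x * k⁻¹ ∈ D := (mem_stb'.mp hk D hD x).mp hx
      exact le_tp Z hD h2
    · intro x hx
      have h2 : k * x * k⁻¹ ∈ Z := Subgroup.Normal.conj_mem inferInstance x hx k
      have h3 : Z ≤ tp Z c := le_sup_right
      exact h3 h2
  exact h1 hq

theorem tp_map_conj (Z : Subgroup X) [Z.Normal] (c : Finset (Subgroup X)) {k : X}
    (hk : k ∈ stb c) : (tp Z c).map (MulAut.conj k).toMonoidHom = tp Z c := by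
  apply le_antisymm
  · rintro _ ⟨q, hq, rfl⟩
    exact tp_conj_le Z c hk q hq
  · intro q hq
    refine ⟨k⁻¹ * q * k, ?_, ?_⟩
    · have h := tp_conj_le Z c (inv_mem hk) q hq
      rw [inv_inv] at h
      exact h
    · change k * (k⁻¹ * q * k) * k⁻¹ = q
      group

theorem cN_le_stb (Z N : Subgroup X) (c : Finset (Subgroup X)) :
    cN N (tp Z c) ≤ stb c := by
  intro x hx
  have h1 : x ∈ Subgroup.centralizer (tp Z c : Set X) := (Subgroup.mem_inf.mp hx).2
  rw [Subgroup.mem_centralizer_iff] at h1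
  rw [mem_stb']
  intro D hD y
  constructor
  · intro hy
    have h2 := h1 y (le_tp Z hD hy)
    have h3 : x * y * x⁻¹ = y := by
      rw [← h2]
      group
    rw [h3]
    exact hy
  · intro hy
    have h2 := h1 _ (le_tp Z hD hy)
    have h3 : y = x * y * x⁻¹ := by
      have h4 : x * y * x⁻¹ * x = x * y := by group
      rw [h4] at h2
      have h5 : x * y = x * (x * y * x⁻¹) := h2
      exact mul_left_cancel h5
    rw [h3]
    exact hy

end Top

theorem main (h1 : Stmt_RINA) (h2 : Stmt_RINB) : Stmt_RINNER := by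
  classical
  intro Ω G B C X K _ _ _ _ _ _ _ _ _ _ ℓ _ ι κ ρ hL e p φ hE Z hZn hZp hZe c hc hce
  by_cases hcore : pCore ℓ (cN e.range (tp Z c)) = ⊥
  swap
  · exact Or.inl hcore
  right
  have hQe : tp Z c ⊓ e.range = ⊥ := tp_inf Z e.range hZe c hc hce
  have hQp : IsPGroup ℓ (tp Z c) := tp_pgroup Z hZp c hc
  obtain ⟨O, iO, dO, π, u, hπ, hfib, hcard, hu, hcent⟩ :=
    h1 Ω G B C X K ℓ ι κ ρ hL e p φ hE (tp Z c) hQp hQe hcore
  obtain ⟨K', iK, fK, j, p', φ', hext, hj, hjr, hcN⟩ :=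
    h2 Ω G B C X K O ℓ ι κ ρ hL e p φ hE (tp Z c) hQe π u hπ hfib hu hcent (stb c)
      (fun y hy => tp_map_conj Z c hy) (cN_le_stb Z e.range c)
  refine ⟨O, K', iO, dO, iK, fK, π, u, j, p', φ', hext, hπ, hcard, hj, hjr, ?_⟩
  intro W
  have hmem : ∀ n : O → G, ((j n : stb c) : X) ∈ cN e.range (tp Z c) :=
    fun n => (hcN (j n)).mpr ⟨n, rfl⟩
  let f : (O → G) →* cN e.range (tp Z c) :=
    ((stb c).subtype.comp j).codRestrict (cN e.range (tp Z c)) hmem
  have hf : ∀ n, (f n : X) = ((j n : stb c) : X) := fun n => rfl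
  have hbij : Function.Bijective f := by
    constructor
    · intro x y hxy
      have h3 : (f x : X) = f y := congrArg Subtype.val hxy
      rw [hf, hf] at h3
      exact hext.cl.inj (Subtype.ext h3)
    · rintro ⟨y, hy⟩
      obtain ⟨n, hn⟩ := (hcN ⟨y, cN_le_stb Z e.range c hy⟩).mp hy
      refine ⟨n, Subtype.ext ?_⟩
      rw [hf, hn]
  obtain ⟨E, hEf⟩ : ∃ E : (O → G) ≃* cN e.range (tp Z c), ∀ n, E n = f n :=
    ⟨MulEquiv.ofBijective f hbij, fun n => rfl⟩
  have hcomp : (cN e.range (tp Z c)).subtype.comp E.toMonoidHom = (stb c).subtype.comp j := by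
    apply MonoidHom.ext
    intro n
    change ((E n : cN e.range (tp Z c)) : X) = ((j n : stb c) : X)
    rw [hEf, hf]
  unfold innerS
  have hbot : (⊥ : Subgroup (cN e.range (tp Z c))) =
      (⊥ : Subgroup (O → G)).map E.toMonoidHom := by
    rw [Subgroup.map_bot]
  rw [hbot, sum_Ch_equiv E ℓ ⊥]
  refine Finset.sum_congr rfl fun τ _ => ?_
  have h4 : stb c ⊓ stb (mapCh (cN e.range (tp Z c)).subtype (mapCh E.toMonoidHom τ)) =
      (YS j τ).map (stb c).subtype := by
    rw [mapCh_comp, hcomp, ← mapCh_comp]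
    have h5 := comap_stb_mapCh (i := (stb c).subtype) Subtype.val_injective (mapCh j τ)
    rw [YS, ← h5, Subgroup.map_comap_eq, Subgroup.range_subtype]
  rw [card_mapCh E.injective, h4]

end Pool.Agent.DP.RINNER

namespace Pool.Agent.DP

/-- RINNER: the inner sum of an outer chain. -/
theorem RINNER_thm (h1 : Stmt_RINA) (h2 : Stmt_RINB) : Stmt_RINNER := RINNER.main h1 h2

end Pool.Agent.DP


end

section

/-!
# A class function which separates the central characters
-/

namespace Pool.Agent.DPB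

open Pool.Agent.Lib_helper13 Representation

namespace SEP

variable {T : Type} [Group T] [Fintype T] (𝔐 : Ideal (integralClosure ℤ ℂ))

theorem cen_conj_right (χ : T → ℂ) {g g' : T} (h : IsConj g g') :
    cen 𝔐 (MonoidHom.id T) χ g = cen 𝔐 (MonoidHom.id T) χ g' := by
  rw [cen, cen]
  congr 2
  ext y
  exact conjInd_right h _

theorem cen_ext {χ χ' : T → ℂ} (h : ∀ C : ConjClasses T, cen 𝔐 (MonoidHom.id T) χ C.out =
    cen 𝔐 (MonoidHom.id T) χ' C.out) : cen 𝔐 (MonoidHom.id T) χ = cen 𝔐 (MonoidHom.id T) χ' := by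
  funext g
  have h1 : IsConj (ConjClasses.mk g).out g := by
    rw [← ConjClasses.mk_eq_mk_iff_isConj]
    exact Quotient.out_eq _
  rw [← cen_conj_right 𝔐 χ h1, ← cen_conj_right 𝔐 χ' h1]
  exact h _

/-- A vector outside of finitely many proper kernels. -/
theorem exists_generic {K ι : Type} [Field K] [Infinite K] [Finite ι] (n : Type) [Fintype n]
    (v : ι → n → K) (hv : ∀ i, ∃ j, v i j ≠ 0) : ∃ z : n → K, ∀ i, ∑ j, z j * v i j ≠ 0 := by
  classical
  have hft : Fintype ι := Fintype.ofFinite ι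
  let L : ι → (n → K) →ₗ[K] K := fun i =>
    { toFun := fun z => ∑ j, z j * v i j
      map_add' := by
        intro z w
        simp [add_mul, Finset.sum_add_distrib]
      map_smul' := by
        intro c z
        simp [mul_assoc, Finset.mul_sum] }
  have hL : ∀ i z, L i z = ∑ j, z j * v i j := fun i z => rfl
  have htop : (⊤ : Submodule K (n → K)) ∉ Finset.univ.image (fun i => LinearMap.ker (L i)) := by
    intro h
    obtain ⟨i, -, hi⟩ := Finset.mem_image.mp h
    obtain ⟨j, hj⟩ := hv i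
    have h1 : (Pi.single j 1 : n → K) ∈ LinearMap.ker (L i) := by
      rw [hi]
      exact Submodule.mem_top
    rw [LinearMap.mem_ker, hL, Finset.sum_eq_single j] at h1
    · simp at h1
      exact hj h1
    · intro b _ hb
      simp [hb]
    · simp
  have h2 := Subspace.biUnion_ne_univ_of_top_notMem htop
  obtain ⟨z, hz⟩ := (Set.ne_univ_iff_exists_notMem _).mp h2
  refine ⟨z, fun i hi => hz ?_⟩
  simp only [Set.mem_iUnion]
  refine ⟨LinearMap.ker (L i), Finset.mem_image_of_mem _ (Finset.mem_univ i), ?_⟩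
  exact hi

end SEP

open _root_.Pool.Agent.DPB.SEP in
theorem SEP_thm (h1 : Stmt_ACF) : Stmt_SEP := by
  classical
  intro T _ _ 𝔐 hM
  have hft : Fintype (ConjClasses T) := Fintype.ofFinite _
  let _ : Field (integralClosure ℤ ℂ ⧸ 𝔐) := Ideal.Quotient.field 𝔐
  have hacf : IsAlgClosed (integralClosure ℤ ℂ ⧸ 𝔐) :=
    h1 _ (Ideal.Quotient.mk 𝔐) Ideal.Quotient.mk_surjective
  have hinf : Infinite (integralClosure ℤ ℂ ⧸ 𝔐) := IsAlgClosed.instInfinite
  let S := {c : T → (integralClosure ℤ ℂ) ⧸ 𝔐 | ∃ ψ : T → ℂ, IsIrr ψ ∧ cen 𝔐 (MonoidHom.id T) ψ = c}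
  have hS : S.Finite := finite_cen 𝔐 (MonoidHom.id T)
  have hSf : Finite S := hS
  obtain ⟨z, hz⟩ := exists_generic (K := integralClosure ℤ ℂ ⧸ 𝔐) (ι := {p : S × S // p.1 ≠ p.2})
    (ConjClasses T) (fun p C => p.1.1.1 C.out - p.1.2.1 C.out) (by
      rintro ⟨⟨⟨c, χ, hχ, rfl⟩, ⟨c', χ', hχ', rfl⟩⟩, hne⟩
      by_contra h2
      push Not at h2
      apply hne
      apply Subtype.ext
      exact cen_ext 𝔐 fun C => sub_eq_zero.mp (h2 C))
  choose l hl using fun C : ConjClasses T => Ideal.Quotient.mk_surjective (z C)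
  refine ⟨fun x => l (ConjClasses.mk x), ?_, ?_⟩
  · intro g x
    have : ConjClasses.mk (g * x * g⁻¹) = ConjClasses.mk x := by
      rw [ConjClasses.mk_eq_mk_iff_isConj]
      exact isConj_iff.mpr ⟨g⁻¹, by group⟩
    exact congrArg l this
  · intro χ χ' hχ hχ'
    have key : ∀ ψ : T → ℂ, IsIrr ψ → red 𝔐 (wt ψ (fun h => (l (ConjClasses.mk h) : ℂ))) =
        ∑ C : ConjClasses T, z C * cen 𝔐 (MonoidHom.id T) ψ C.out := by
      intro ψ hψ
      have h3 := red_wt_eq_pair 𝔐 (MonoidHom.id T) hψ (fun h => (l (ConjClasses.mk h) : ℂ))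
        (fun g x => by
          have : ConjClasses.mk (g * x * g⁻¹) = ConjClasses.mk x := by
            rw [ConjClasses.mk_eq_mk_iff_isConj]
            exact isConj_iff.mpr ⟨g⁻¹, by group⟩
          rw [this]) (fun x => (l (ConjClasses.mk x)).2)
      have h4 : red 𝔐 (wt ψ (fun h => (l (ConjClasses.mk h) : ℂ))) =
        pair 𝔐 (fun h => (l (ConjClasses.mk h) : ℂ)) (cen 𝔐 (MonoidHom.id T) ψ) := h3
      rw [h4, pair, finsum_eq_sum_of_fintype]
      refine Finset.sum_congr rfl fun C _ => ?_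
      have h5 : ConjClasses.mk C.out = C := Quotient.out_eq C
      rw [h5, red_of_integral 𝔐 (l C).2]
      congr 1
      exact hl C
    rw [key χ hχ, key χ' hχ']
    constructor
    · intro h3
      rw [h3]
    · intro h3
      by_contra h4
      apply hz ⟨(⟨_, χ, hχ, rfl⟩, ⟨_, χ', hχ', rfl⟩), fun h5 => h4 (congrArg Subtype.val h5)⟩
      simp only [mul_sub, Finset.sum_sub_distrib]
      exact sub_eq_zero.mpr h3

end Pool.Agent.DPB


end

section

/-!
# DZT: a chain whose stabilizer has a character of defect zero is empty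
-/

namespace Pool.Agent.DP

open Pool.Agent.Lib_helper13 Representation
open Pool.Agent.Lib_helper13.Dade (pCore DadeHolds)

namespace DZT

/-- There is a maximal ideal of the ring of algebraic integers which contains `ℓ`. -/
theorem exists_maximal (ℓ : ℕ) [hℓ : Fact ℓ.Prime] :
    ∃ 𝔐 : Ideal (integralClosure ℤ ℂ), 𝔐.IsMaximal ∧ (ℓ : integralClosure ℤ ℂ) ∈ 𝔐 := by
  have hnu : ¬ IsUnit (ℓ : integralClosure ℤ ℂ) := by
    intro hu
    obtain ⟨y, hy⟩ := hu.exists_right_inv
    have h1 : (ℓ : ℂ) * (y : ℂ) = 1 := by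
      have := congrArg (fun z : integralClosure ℤ ℂ => (z : ℂ)) hy
      simpa using this
    have hl0 : (ℓ : ℂ) ≠ 0 := by
      exact_mod_cast hℓ.out.ne_zero
    have h2 : (y : ℂ) = (algebraMap ℚ ℂ) (1 / (ℓ : ℚ)) := by
      rw [map_div₀, map_one, map_natCast, eq_div_iff hl0, mul_comm]
      exact h1
    have h3 : IsIntegral ℤ ((algebraMap ℚ ℂ) (1 / (ℓ : ℚ))) := by
      rw [← h2]
      exact y.2
    have h4 : IsIntegral ℤ (1 / (ℓ : ℚ)) :=
      (isIntegral_algebraMap_iff (algebraMap ℚ ℂ).injective).mp h3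
    obtain ⟨k, hk⟩ := IsIntegrallyClosed.isIntegral_iff.mp h4
    have h5 : (k : ℚ) * (ℓ : ℚ) = 1 := by
      have h6 : (algebraMap ℤ ℚ) k = (k : ℚ) := rfl
      rw [h6] at hk
      have hl1 : (ℓ : ℚ) ≠ 0 := by
        exact_mod_cast hℓ.out.ne_zero
      rw [hk]
      field_simp
    have h6 : k * (ℓ : ℤ) = 1 := by
      exact_mod_cast h5
    have h7 : (ℓ : ℤ) ∣ 1 := ⟨k, by rw [mul_comm, h6]⟩
    have h8 : ℓ ∣ 1 := by
      exact_mod_cast h7
    exact hℓ.out.one_lt.ne' (Nat.dvd_one.mp h8)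
  obtain ⟨I, hI, hmem⟩ := exists_max_ideal_of_mem_nonunits hnu
  exact ⟨I, hI, hmem⟩

end DZT

theorem DZT_thm : Stmt_DZT := by
  intro G _ _ ℓ _ σ hσ ψ hψ h0
  obtain ⟨𝔐, h𝔐, hℓ⟩ := DZT.exists_maximal ℓ
  have hprime : 𝔐.IsPrime := h𝔐.isPrime
  by_contra hemp
  have hne : σ.Nonempty := Finset.nonempty_iff_ne_empty.mpr hemp
  obtain ⟨D, hD, hbot⟩ := hσ.exists_bot hne
  have hDS : D ≤ stb σ := by
    intro x hx
    rw [mem_stb']
    intro E hE z
    have hxE : x ∈ E := hbot E hE hx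
    constructor
    · intro hz
      exact mul_mem (mul_mem hxE hz) (inv_mem hxE)
    · intro hz
      have h4 : z = x⁻¹ * (x * z * x⁻¹) * x := by group
      rw [h4]
      exact mul_mem (mul_mem (inv_mem hxE) hz) hxE
  have hn : (D.subgroupOf (stb σ)).Normal := by
    constructor
    intro y hy g
    rw [Subgroup.mem_subgroupOf] at hy ⊢
    exact (mem_stb'.mp g.2 D hD (y : G)).mp hy
  have hp : IsPGroup ℓ (D.subgroupOf (stb σ)) := by
    apply (hσ.1 D hD).1.of_injective
      ((Subgroup.subgroupOfEquivOfLe hDS).toMonoidHom) (Subgroup.subgroupOfEquivOfLe hDS).injective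
  have hne' : D.subgroupOf (stb σ) ≠ ⊥ := by
    intro h1
    have h2 : D = ⊥ := by
      rw [eq_bot_iff]
      intro x hx
      have h3 : (⟨x, hDS hx⟩ : stb σ) ∈ D.subgroupOf (stb σ) :=
        Subgroup.mem_subgroupOf.mpr hx
      rw [h1, Subgroup.mem_bot] at h3
      rw [Subgroup.mem_bot]
      exact congrArg Subtype.val h3
    exact (hσ.1 D hD).2.ne' h2
  exact red_codeg_ne_zero 𝔐 hℓ hψ h0 (no_defect_zero 𝔐 hℓ _ hp hne' hψ)

end Pool.Agent.DP


end

section

/-!
# CGT: elementary properties of the central functions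
-/

namespace Pool.Agent.DP

open Pool.Agent.Lib_helper13

namespace CGT

variable {G B C : Type} [Group G] [Fintype G] [Group B] [Fintype B] [Group C]
variable (𝔐 : Ideal (integralClosure ℤ ℂ)) {ι : G →* B} {κ : B →* MulAut G} {ρ : B →* C}

theorem red_zero' : red 𝔐 0 = 0 := by
  rw [red_of_integral 𝔐 isIntegral_zero]
  exact map_zero (Ideal.Quotient.mk 𝔐)

theorem ite_eq {p q : Prop} {hp : Decidable p} {hq : Decidable q} (h : p ↔ q) :
    @ite ℂ p hp 1 0 = @ite ℂ q hq 1 0 := by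
  by_cases h1 : p
  · rw [if_pos h1, if_pos (h.mp h1)]
  · rw [if_neg h1, if_neg fun h2 => h1 (h.mpr h2)]

omit [Fintype G] [Fintype B] in
theorem kappa_iota (h : ClG ι κ ρ) (a g : G) : κ (ι a) g = a * g * a⁻¹ := by
  apply h.inj
  rw [h.act, map_mul, map_mul, map_inv]

theorem partA (h : ClG ι κ ρ) (T : Subgroup B) (f : B → ℂ) (g : G) :
    cgT 𝔐 T f (ι g) = cgO 𝔐 κ T (fun x => f (ι x)) g := by
  classical
  unfold cgT cgO
  simp only [map_one]
  congr 2
  symm
  refine Fintype.sum_of_injective ι h.inj _ _ ?_ ?_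
  · intro x hx
    unfold cjT
    rw [if_neg, zero_mul]
    rintro ⟨t, _, rfl⟩
    exact hx ⟨κ t g, h.act t g⟩
  · intro x
    unfold cjT
    congr 1
    refine ite_eq ?_
    constructor
    · rintro ⟨t, ht, rfl⟩
      exact ⟨t, ht, h.act t g⟩
    · rintro ⟨t, ht, hx⟩
      refine ⟨t, ht, h.inj ?_⟩
      rw [hx, h.act]

theorem partB (h : ClG ι κ ρ) (f : B → ℂ) (g : G) :
    cgT 𝔐 ι.range f (ι g) = cg 𝔐 (fun x => f (ι x)) g := by
  classical
  rw [partA 𝔐 h]
  unfold cgO cg
  congr 2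
  refine Finset.sum_congr rfl fun x _ => ?_
  unfold conjInd
  congr 1
  refine ite_eq ?_
  constructor
  · rintro ⟨t, ⟨a, rfl⟩, rfl⟩
    rw [kappa_iota h]
    exact (isConj_iff.mpr ⟨a, rfl⟩).symm
  · intro hc
    obtain ⟨a, ha⟩ := isConj_iff.mp hc.symm
    exact ⟨ι a, ⟨a, rfl⟩, by rw [kappa_iota h, ha]⟩

omit [Fintype G] [Fintype B] in
theorem conj_range (h : ClG ι κ ρ) (b t : B) (ht : t ∈ ι.range) : b * t * b⁻¹ ∈ ι.range := by
  obtain ⟨a, rfl⟩ := ht
  exact ⟨κ b a, h.act b a⟩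

theorem partC (h : ClG ι κ ρ) (f : B → ℂ) (b x : B) :
    cgT 𝔐 ι.range (fun y => f (b⁻¹ * y * b)) x = cgT 𝔐 ι.range f (b⁻¹ * x * b) := by
  classical
  unfold cgT
  have e1 : b⁻¹ * 1 * b = 1 := by group
  simp only [e1]
  congr 2
  refine Fintype.sum_equiv (MulAut.conj b⁻¹).toEquiv _ _ fun y => ?_
  have e2 : (MulAut.conj b⁻¹).toEquiv y = b⁻¹ * y * b := by
    simp
  rw [e2]
  congr 1
  unfold cjT
  refine ite_eq ?_
  constructor
  · rintro ⟨t, ht, rfl⟩
    refine ⟨b⁻¹ * t * b⁻¹⁻¹, conj_range h b⁻¹ t ht, ?_⟩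
    group
  · rintro ⟨t, ht, hy⟩
    refine ⟨b * t * b⁻¹, conj_range h b t ht, ?_⟩
    have : y = b * (b⁻¹ * y * b) * b⁻¹ := by group
    rw [this, hy]
    group

theorem partD (T : Subgroup B) (L : Subgroup C) (f : B → ℂ) (x : B)
    (hT : ∀ t ∈ T, ∀ y, ρ (t * y * t⁻¹) ∈ L ↔ ρ y ∈ L) :
    cgT 𝔐 T (trn ρ L f) x = trn ρ L (cgT 𝔐 T f) x := by
  classical
  have h1 : trn ρ L f 1 = f 1 := by
    unfold trn
    rw [if_pos]
    rw [map_one]
    exact L.one_mem
  by_cases hx : ρ x ∈ L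
  · have e : trn ρ L (cgT 𝔐 T f) x = cgT 𝔐 T f x := if_pos hx
    rw [e]
    unfold cgT
    rw [h1]
    congr 2
    refine Finset.sum_congr rfl fun y _ => ?_
    unfold cjT
    split_ifs with hy
    · obtain ⟨t, ht, rfl⟩ := hy
      have h2 : trn ρ L f (t * x * t⁻¹) = f (t * x * t⁻¹) := if_pos ((hT t ht x).mpr hx)
      rw [h2]
    · rw [zero_mul, zero_mul]
  · have e : trn ρ L (cgT 𝔐 T f) x = 0 := if_neg hx
    rw [e]
    unfold cgT
    have h3 : ∑ y, cjT T y x * trn ρ L f y = 0 := by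
      refine Finset.sum_eq_zero fun y _ => ?_
      unfold cjT
      split_ifs with hy
      · obtain ⟨t, ht, rfl⟩ := hy
        have h2 : trn ρ L f (t * x * t⁻¹) = 0 := if_neg fun h => hx ((hT t ht x).mp h)
        rw [h2, mul_zero]
      · rw [zero_mul]
    rw [h3, zero_div]
    exact red_zero' 𝔐

theorem partE (f : B → ℂ) (a : G) (x : B) :
    cgT 𝔐 ι.range f (ι a * x * (ι a)⁻¹) = cgT 𝔐 ι.range f x := by
  classical
  unfold cgT
  congr 2
  refine Finset.sum_congr rfl fun y _ => ?_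
  congr 1
  unfold cjT
  refine ite_eq ?_
  constructor
  · rintro ⟨t, ht, rfl⟩
    refine ⟨t * ι a, ι.range.mul_mem ht ⟨a, rfl⟩, ?_⟩
    group
  · rintro ⟨t, ht, rfl⟩
    refine ⟨t * (ι a)⁻¹, ι.range.mul_mem ht (ι.range.inv_mem ⟨a, rfl⟩), ?_⟩
    group

end CGT

theorem CGT_thm : Stmt_CGT := by
  intro G B C _ _ _ _ _ 𝔐 ι κ ρ h
  exact ⟨CGT.partA 𝔐 h, CGT.partB 𝔐 h, CGT.partC 𝔐 h,
    fun T L f x hT => CGT.partD 𝔐 T L f x hT, fun f a x => CGT.partE 𝔐 f a x⟩

end Pool.Agent.DP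


end

section

/-!
# TRBR: transports of the data
-/

namespace Pool.Agent.DP

open Pool.Agent.Lib_helper13 Representation
open Pool.Agent.Lib_helper13.Dade (pCore DadeHolds)

namespace TRBR

variable {O G B C : Type*} [Group G] [Group B] [Group C] [Fintype O] [DecidableEq O] [Fintype G]
  [Fintype B]

theorem map_bot_iff {H : Type*} [Group H] (D : Subgroup H) (e : MulAut H) (h : D = ⊥) :
    D.map e.toMonoidHom = D := by
  rw [h, Subgroup.map_bot]

theorem trB_iff (κ : B →* MulAut G) (τ : Finset (Subgroup (O → G))) (θ : O → G → ℂ) (o : O)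
    (g : B) : trB κ τ θ o o g ↔ g ∈ Stx κ (comp τ o) (θ o) := by
  constructor
  · rintro ⟨h1, h2⟩
    refine ⟨fun D hD => ?_, h2⟩
    obtain ⟨-, E, hE, rfl⟩ := mem_comp.mp hD
    exact h1 E hE
  · rintro ⟨h1, h2⟩
    refine ⟨fun D hD => ?_, h2⟩
    by_cases hb : prj o D = ⊥
    · exact map_bot_iff _ _ hb
    · exact h1 _ (mem_comp.mpr ⟨hb, D, hD, rfl⟩)

theorem kappa_iota {ι : G →* B} {κ : B →* MulAut G} {ρ : B →* C} (h : ClG ι κ ρ) (x : G) :
    κ (ι x) = MulAut.conj x := by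
  ext y
  apply h.inj
  rw [h.act, MulAut.conj_apply, map_mul, map_mul, map_inv]

theorem irrOn_conj {S : Subgroup G} {f : G → ℂ} (h : IrrOn S f) {x : G} (hx : x ∈ S) (y : G) :
    f (x * y * x⁻¹) = f y := by
  by_cases hy : y ∈ S
  · have := h.1.conj_eq ⟨x, hx⟩ ⟨y, hy⟩
    exact this
  · rw [h.2 y hy, h.2]
    intro h'
    apply hy
    have : y = x⁻¹ * (x * y * x⁻¹) * x := by group
    rw [this]
    exact S.mul_mem (S.mul_mem (S.inv_mem hx) h') hx

theorem iota_mem {ι : G →* B} {κ : B →* MulAut G} {ρ : B →* C} (h : ClG ι κ ρ)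
    {σ : Finset (Subgroup G)} {ψ : G → ℂ} (hψ : IrrOn (stb σ) ψ) (x : G) :
    ι x ∈ Stx κ σ ψ ↔ x ∈ stb σ := by
  constructor
  · rintro ⟨h1, -⟩
    rw [mem_stb]
    intro D hD
    have := h1 D hD
    rwa [kappa_iota h] at this
  · intro hx
    refine ⟨fun D hD => ?_, fun y => ?_⟩
    · rw [kappa_iota h]
      exact mem_stb.mp hx D hD
    · rw [kappa_iota h, MulAut.conj_apply]
      exact irrOn_conj hψ hx y

theorem exists_iota {ι : G →* B} {κ : B →* MulAut G} {ρ : B →* C} (h : ClG ι κ ρ) {a b : B}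
    (hab : ρ a = ρ b) : ∃ x, a = ι x * b := by
  have h1 : ρ (a * b⁻¹) = 1 := by rw [map_mul, map_inv, hab, mul_inv_cancel]
  obtain ⟨x, hx⟩ := (h.ker _).mp h1
  exact ⟨x, by rw [hx, inv_mul_cancel_right]⟩

theorem rho_conj {ρ : B →* C} (hc : IsCyclic C) (g x : B) : ρ (g * x * g⁻¹) = ρ x := by
  let _ : CommGroup C := IsCyclic.commGroup
  rw [map_mul, map_mul, map_inv, mul_comm (ρ g) (ρ x), mul_inv_cancel_right]

variable {κ : B →* MulAut G} {τ : Finset (Subgroup (O → G))} {θ : O → G → ℂ} {a b : O} {g : B}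

theorem mem_conj (h : trB κ τ θ a b g) (x : B) :
    x ∈ Stx κ (comp τ a) (θ a) ↔ g * x * g⁻¹ ∈ Stx κ (comp τ b) (θ b) := by
  rw [← trB_iff, ← trB_iff]
  constructor
  · intro hx
    exact (h.mul hx).mul h.inv
  · intro hx
    have h1 : trB κ τ θ a a (g⁻¹ * (g * x * g⁻¹) * g) := (h.inv.mul hx).mul h
    have h2 : g⁻¹ * (g * x * g⁻¹) * g = x := by group
    rwa [h2] at h1

theorem mem_conj' (h : trB κ τ θ a b g) (x : B) :
    x ∈ Stx κ (comp τ b) (θ b) ↔ g⁻¹ * x * g ∈ Stx κ (comp τ a) (θ a) := by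
  rw [mem_conj h]
  have h2 : g * (g⁻¹ * x * g) * g⁻¹ = x := by group
  rw [h2]

theorem ext_transport {ι : G →* B} {ρ : B →* C} (hcl : ClG ι κ ρ) (hc : IsCyclic C)
    (h : trB κ τ θ a b g) (L : Subgroup C) (f : B → ℂ)
    (hf : ExtL ι κ ρ (comp τ a) (θ a) L f) :
    ExtL ι κ ρ (comp τ b) (θ b) L (fun x => f (g⁻¹ * x * g)) := by
  have hmem : ∀ x, x ∈ Stx κ (comp τ b) (θ b) ⊓ L.comap ρ ↔
      g⁻¹ * x * g ∈ Stx κ (comp τ a) (θ a) ⊓ L.comap ρ := by
    intro x
    rw [Subgroup.mem_inf, Subgroup.mem_inf, mem_conj' h, Subgroup.mem_comap, Subgroup.mem_comap]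
    have : ρ (g⁻¹ * x * g) = ρ x := by
      have := rho_conj (ρ := ρ) hc g⁻¹ x
      rwa [inv_inv] at this
    rw [this]
  refine ⟨⟨?_, ?_⟩, ?_⟩
  · let e : (Stx κ (comp τ b) (θ b) ⊓ L.comap ρ : Subgroup B) ≃*
        (Stx κ (comp τ a) (θ a) ⊓ L.comap ρ : Subgroup B) :=
      { toFun := fun x => ⟨g⁻¹ * x * g, (hmem x).mp x.2⟩
        invFun := fun x => ⟨g * x * g⁻¹, (hmem _).mpr (by
          have : g⁻¹ * (g * (x : B) * g⁻¹) * g = x := by group
          rw [this]
          exact x.2)⟩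
        left_inv := fun x => Subtype.ext (by
          change g * (g⁻¹ * (x : B) * g) * g⁻¹ = x
          group)
        right_inv := fun x => Subtype.ext (by
          change g⁻¹ * (g * (x : B) * g⁻¹) * g = x
          group)
        map_mul' := fun x y => Subtype.ext (by
          change g⁻¹ * ((x : B) * y) * g = (g⁻¹ * x * g) * (g⁻¹ * y * g)
          group) }
    classical
    have : Fintype (Stx κ (comp τ a) (θ a) ⊓ L.comap ρ : Subgroup B) := Fintype.ofFinite _
    exact hf.1.1.comp_mulEquiv e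
  · intro x hx
    exact hf.1.2 _ fun h' => hx ((hmem x).mpr h')
  · intro y
    have h1 : g⁻¹ * ι y * g = ι (κ g⁻¹ y) := by
      rw [hcl.act, inv_inv]
    change f (g⁻¹ * ι y * g) = θ b y
    rw [h1, hf.2, ← h.2, ← MulAut.mul_apply, ← map_mul, mul_inv_cancel, map_one,
      MulAut.one_apply]

end TRBR

open _root_.Pool.Agent.DP.TRBR in
theorem TRBR_thm : Stmt_TRBR := by
  intro O G B C _ _ _ _ _ _ _ 𝔐 ℓ _ ι κ ρ hL τ θ hθ
  obtain ⟨-, -, hcg, -, -⟩ := CGT_thm G B C 𝔐 ι κ ρ hL.cl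
  refine ⟨trB_iff κ τ θ, fun a b g h => ?_⟩
  have hstb : (stb (comp τ a)).map (κ g).toMonoidHom = stb (comp τ b) := by
    ext x
    rw [Subgroup.mem_map]
    constructor
    · rintro ⟨y, hy, rfl⟩
      rw [← iota_mem hL.cl (hθ b)]
      change ι (κ g y) ∈ _
      rw [hL.cl.act, ← mem_conj h, iota_mem hL.cl (hθ a)]
      exact hy
    · intro hx
      refine ⟨κ g⁻¹ x, ?_, ?_⟩
      · rw [← iota_mem hL.cl (hθ a), hL.cl.act, inv_inv, ← mem_conj' h, iota_mem hL.cl (hθ b)]
        exact hx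
      · change κ g (κ g⁻¹ x) = x
        rw [← MulAut.mul_apply, ← map_mul, mul_inv_cancel, map_one, MulAut.one_apply]
  refine ⟨hstb, ?_, ?_, ?_, fun L f hf => ext_transport hL.cl hL.cyc h L f hf, fun L => ?_⟩
  · have h1 : Nat.card (stb (comp τ b)) = Nat.card (stb (comp τ a)) := by
      rw [← hstb]
      exact Subgroup.card_map_of_injective (κ g).injective
    have h2 : θ b 1 = θ a 1 := by
      rw [← h.2 1, map_one]
    rw [df, df, h1, h2]
  · ext x
    rw [Subgroup.mem_map]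
    constructor
    · rintro ⟨y, hy, rfl⟩
      exact (mem_conj h y).mp hy
    · intro hx
      refine ⟨g⁻¹ * x * g, (mem_conj' h x).mp hx, ?_⟩
      change g * (g⁻¹ * x * g) * g⁻¹ = x
      group
  · symm
    refine Nat.card_eq_of_bijective (fun x : stb (comp τ b) => (⟨ι x * g, ?_, ?_⟩ :
      {h : B // trB κ τ θ a b h ∧ ρ h = ρ g})) ⟨?_, ?_⟩
    · exact ((trB_iff κ τ θ b _).mpr ((iota_mem hL.cl (hθ b) _).mpr x.2)).mul h
    · rw [map_mul]
      have : ρ (ι x) = 1 := (hL.cl.ker _).mpr ⟨_, rfl⟩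
      rw [this, one_mul]
    · intro x y hxy
      have h1 : ι (x : G) * g = ι (y : G) * g := congrArg Subtype.val hxy
      exact Subtype.ext (hL.cl.inj (mul_right_cancel h1))
    · rintro ⟨y, hy1, hy2⟩
      obtain ⟨x, hx⟩ := exists_iota hL.cl hy2
      have h1 : trB κ τ θ b b (ι x) := by
        have h2 : ι x = y * g⁻¹ := by rw [hx, mul_inv_cancel_right]
        rw [h2]
        exact hy1.mul h.inv
      refine ⟨⟨x, (iota_mem hL.cl (hθ b) x).mp ((trB_iff κ τ θ b _).mp h1)⟩, ?_⟩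
      exact Subtype.ext hx.symm
  · ext b0
    constructor
    · rintro ⟨f, hf, rfl⟩
      have h1 := ext_transport hL.cl hL.cyc h.inv L f hf
      refine ⟨_, ⟨_, h1, rfl⟩, ?_⟩
      funext x
      change cgT 𝔐 ι.range (fun x => f (g⁻¹⁻¹ * x * g⁻¹)) (g⁻¹ * x * g) = cgT 𝔐 ι.range f x
      rw [hcg f g⁻¹]
      congr 1
      group
    · rintro ⟨_, ⟨f, hf, rfl⟩, rfl⟩
      refine ⟨_, ext_transport hL.cl hL.cyc h L f hf, ?_⟩
      funext x
      exact (hcg f g x).symm

end Pool.Agent.DP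


end

section

/-!
# The centralizer of an `ℓ`-subgroup

Module RINA: `Stmt_RINA`.
-/

namespace Pool.Agent.DP

open Pool.Agent.Lib_helper13 Representation
open Pool.Agent.Lib_helper13.Dade (pCore DadeHolds)

namespace RINA

section

variable {G B C Ω X K : Type} [Group G] [Group B] [Group C] [Group X] [Group K]
  {ι : G →* B} {κ : B →* MulAut G} {ρ : B →* C}

theorem kap (h : ClG ι κ ρ) (g a : G) : κ (ι g) a = g * a * g⁻¹ := by
  apply h.inj
  rw [h.act, map_mul, map_mul, map_inv]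

/-- `(φ (a b))` in the coordinate `a (b w)`. -/
theorem lmul (φ : X →* Gam (Equiv.Perm Ω) Ω B) (a b : X) (w : Ω) :
    (φ (a * b)).left ((φ (a * b)).right • w) =
      (φ a).left ((φ a).right • (φ b).right • w) * (φ b).left ((φ b).right • w) := by
  rw [map_mul]
  change (φ a).left (((φ a).right * (φ b).right) • w) *
    (φ b).left ((φ a).right⁻¹ • ((φ a).right * (φ b).right) • w) = _
  rw [mul_smul, inv_smul_smul]

theorem rmul (φ : X →* Gam (Equiv.Perm Ω) Ω B) (a b : X) (w : Ω) :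
    (φ (a * b)).right • w = (φ a).right • (φ b).right • w := by
  rw [map_mul, SemidirectProduct.mul_right, mul_smul]

theorem rone (φ : X →* Gam (Equiv.Perm Ω) Ω B) (w : Ω) : (φ 1).right • w = w := by
  rw [map_one, SemidirectProduct.one_right, one_smul]

theorem lone (φ : X →* Gam (Equiv.Perm Ω) Ω B) (w : Ω) : (φ 1).left w = 1 := by
  rw [map_one, SemidirectProduct.one_left, Pi.one_apply]

/-- The centralizer of `Q` in the base group. -/
theorem cent (e : (Ω → G) →* X) (p : X →* K) (φ : X →* Gam (Equiv.Perm Ω) Ω B)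
    (h : ClG e ((wB κ Ω).comp φ) p) (Q : Subgroup X) (n : Ω → G) :
    e n ∈ Subgroup.centralizer (Q : Set X) ↔
      ∀ q ∈ Q, ∀ w, κ ((φ q).left ((φ q).right • w)) (n w) = n ((φ q).right • w) := by
  rw [Subgroup.mem_centralizer_iff]
  constructor
  · intro h1 q hq w
    have h2 : e (wB κ Ω (φ q) n) = e n := by
      have h3 := h.act q n
      rw [MonoidHom.comp_apply] at h3
      rw [h3, h1 q hq, mul_inv_cancel_right]
    have h4 := congrFun (h.inj h2) ((φ q).right • w)
    rw [wB_apply, inv_smul_smul] at h4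
    exact h4
  · intro h1 q hq
    have h2 : wB κ Ω (φ q) n = n := by
      funext o
      rw [wB_apply]
      have h3 := h1 q hq ((φ q).right⁻¹ • o)
      rw [smul_inv_smul] at h3
      exact h3
    have h3 := h.act q n
    rw [MonoidHom.comp_apply, h2] at h3
    nth_rewrite 2 [h3]
    rw [inv_mul_cancel_right]

end

end RINA

open _root_.Pool.Agent.DP.RINA in
theorem RINA_thm : Stmt_RINA := by
  classical
  intro Ω G B C X K _ _ _ _ _ _ _ _ _ _ ℓ _ ι κ ρ hS e p φ hE Q hQ hQe hcore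
  have hcl := hS.cl
  have hE1 := hE.cl
  -- the local homomorphisms are trivial
  have key : ∀ q ∈ Q, ∀ w : Ω, (φ q).right • w = w → (φ q).left w = 1 := by
    intro q0 hq0 w hq0w
    -- the stabilizer and its image
    set P : Subgroup B :=
      { carrier := {b | ∃ q ∈ Q, (φ q).right • w = w ∧ b = (φ q).left w}
        one_mem' := ⟨1, one_mem _, rone φ w, (lone φ w).symm⟩
        mul_mem' := by
          rintro _ _ ⟨a, ha, haw, rfl⟩ ⟨b, hb, hbw, rfl⟩
          refine ⟨a * b, mul_mem ha hb, by rw [rmul, hbw, haw], ?_⟩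
          have h1 := lmul φ a b w
          rw [rmul, hbw, haw] at h1
          exact h1.symm
        inv_mem' := by
          rintro _ ⟨a, ha, haw, rfl⟩
          have h2 : (φ a⁻¹).right • w = w := by
            have h3 := rmul φ a⁻¹ a w
            rw [inv_mul_cancel, rone, haw] at h3
            exact h3.symm
          refine ⟨a⁻¹, inv_mem ha, h2, ?_⟩
          have h1 := lmul φ a⁻¹ a w
          rw [inv_mul_cancel, rone, lone, haw, h2] at h1
          exact (eq_inv_of_mul_eq_one_left h1.symm).symm } with hP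
    have hPdef : ∀ b, b ∈ P ↔ ∃ q ∈ Q, (φ q).right • w = w ∧ b = (φ q).left w := fun b => Iff.rfl
    have hpow : ∀ q : X, (φ q).right • w = w → ∀ k : ℕ,
        (φ (q ^ k)).right • w = w ∧ (φ (q ^ k)).left w = (φ q).left w ^ k := by
      intro q hq k
      induction k with
      | zero => rw [pow_zero, pow_zero]; exact ⟨rone φ w, lone φ w⟩
      | succ k ih =>
        have h1 := lmul φ (q ^ k) q w
        have h2 := rmul φ (q ^ k) q w
        rw [hq, ih.1] at h2
        rw [h2, hq, ih.1, ih.2] at h1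
        rw [pow_succ, pow_succ]
        exact ⟨h2, h1⟩
    have hPp : IsPGroup ℓ P := by
      rintro ⟨b, q, hq, hqw, rfl⟩
      obtain ⟨k, hk⟩ := hQ ⟨q, hq⟩
      refine ⟨k, ?_⟩
      apply Subtype.ext
      have h1 : q ^ ℓ ^ k = 1 := congrArg Subtype.val hk
      change (φ q).left w ^ ℓ ^ k = 1
      rw [← (hpow q hqw (ℓ ^ k)).2, h1, lone]
    -- the image in `C` is trivial
    have hPr : ∀ b ∈ P, b ∈ ι.range := by
      intro b hb
      rw [← hcl.ker]
      obtain ⟨k, hk⟩ := hPp ⟨b, hb⟩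
      have h1 : b ^ ℓ ^ k = 1 := congrArg Subtype.val hk
      have h2 : (ρ b) ^ ℓ ^ k = 1 := by rw [← map_pow, h1, map_one]
      have : Finite C := Finite.of_surjective ρ hS.surj
      have h3 : (ρ b) ^ Nat.card C = 1 := pow_card_eq_one'
      have h4 : Nat.Coprime (ℓ ^ k) (Nat.card C) :=
        Nat.Coprime.pow_left k ((Nat.Prime.coprime_iff_not_dvd Fact.out).mpr hS.cop)
      have h5 := pow_gcd_eq_one.mpr ⟨h2, h3⟩
      rw [Nat.Coprime.gcd_eq_one h4, pow_one] at h5
      exact h5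
    by_contra hne
    -- a nontrivial central element
    set P' : Subgroup G := P.comap ι with hP'
    have hP'p : IsPGroup ℓ P' := hPp.comap_of_injective ι hcl.inj
    have hmem : (φ q0).left w ∈ P := ⟨q0, hq0, hq0w, rfl⟩
    obtain ⟨g0, hg0⟩ := hPr _ hmem
    have hg0P : g0 ∈ P' := by
      rw [hP', Subgroup.mem_comap, hg0]
      exact hmem
    have hnt : Nontrivial P' := by
      refine ⟨⟨⟨g0, hg0P⟩, 1, ?_⟩⟩
      intro h
      apply hne
      have h1 : g0 = 1 := congrArg Subtype.val h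
      rw [← hg0, h1, map_one]
    have : Finite P' := inferInstance
    obtain ⟨⟨z, hz⟩, hz1⟩ := (Subgroup.nontrivial_iff_exists_ne_one _).mp
      (hP'p.center_nontrivial)
    obtain ⟨hzc, hzne⟩ := hz1
    have hzcomm : ∀ g ∈ P', g * z * g⁻¹ = z := by
      intro g hg
      have h1 := Subgroup.mem_center_iff.mp hzc ⟨g, hg⟩
      have h2 : g * z = z * g := congrArg Subtype.val h1
      rw [h2, mul_inv_cancel_right]
    -- the element of the base group
    set n : Ω → G := fun o => if h : ∃ q ∈ Q, (φ q).right • w = o then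
      κ ((φ h.choose).left o) z else 1 with hn
    have hn1 : ∀ q ∈ Q, n ((φ q).right • w) = κ ((φ q).left ((φ q).right • w)) z := by
      intro q hq
      have hex : ∃ q' ∈ Q, (φ q').right • w = (φ q).right • w := ⟨q, hq, rfl⟩
      have h0 : n ((φ q).right • w) = κ ((φ hex.choose).left ((φ q).right • w)) z := by
        rw [hn]
        exact dif_pos hex
      obtain ⟨h1, h2⟩ := hex.choose_spec
      set q' := hex.choose with hq'
      -- `s = q⁻¹ q'` fixes `w`
      have h3 : (φ (q⁻¹ * q')).right • w = w := by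
        rw [rmul, h2, ← rmul, inv_mul_cancel, rone]
      have h4 := lmul φ q (q⁻¹ * q') w
      rw [mul_inv_cancel_left, h3, h2] at h4
      have h5 : (φ (q⁻¹ * q')).left w ∈ P := ⟨q⁻¹ * q', mul_mem (inv_mem hq) h1, h3, rfl⟩
      obtain ⟨g, hg⟩ := hPr _ h5
      have h6 : g ∈ P' := by
        rw [hP', Subgroup.mem_comap, hg]
        exact h5
      rw [h0, h4, ← hg, map_mul, MulAut.mul_apply, kap hcl, hzcomm g h6]
    have hn2 : ∀ o, (¬ ∃ q ∈ Q, (φ q).right • w = o) → n o = 1 := by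
      intro o ho
      rw [hn]
      exact dif_neg ho
    have hnc : e n ∈ Subgroup.centralizer (Q : Set X) := by
      rw [cent e p φ hE1 Q n]
      intro q hq o
      by_cases ho : ∃ q' ∈ Q, (φ q').right • w = o
      · obtain ⟨q', hq', rfl⟩ := ho
        have e1 := hn1 _ (mul_mem hq hq')
        rw [lmul, rmul, map_mul, MulAut.mul_apply] at e1
        rw [hn1 q' hq', e1]
      · rw [hn2 o ho, map_one, hn2]
        rintro ⟨q', hq', h1⟩
        apply ho
        refine ⟨q⁻¹ * q', mul_mem (inv_mem hq) hq', ?_⟩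
        rw [rmul, h1, ← rmul, inv_mul_cancel, rone]
    -- it is central
    have hzmem : e n ∈ cN e.range Q := Subgroup.mem_inf.mpr ⟨⟨n, rfl⟩, hnc⟩
    have hcomm : ∀ m : Ω → G, e m ∈ Subgroup.centralizer (Q : Set X) → n * m = m * n := by
      intro m hm
      rw [cent e p φ hE1 Q m] at hm
      funext o
      rw [Pi.mul_apply, Pi.mul_apply]
      by_cases ho : ∃ q' ∈ Q, (φ q').right • w = o
      · obtain ⟨q', hq', rfl⟩ := ho
        rw [hn1 q' hq', ← hm q' hq' w, ← map_mul, ← map_mul]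
        congr 1
        -- `m w` commutes with `z`
        obtain ⟨q1, hq1, hq1w, hb⟩ := (hPdef (ι z)).mp (Subgroup.mem_comap.mp hz)
        have h1 := hm q1 hq1 w
        rw [hq1w, ← hb, kap hcl] at h1
        rw [mul_inv_eq_iff_eq_mul] at h1
        exact h1
      · rw [hn2 o ho, one_mul, mul_one]
    have hfin : e n = 1 := by
      have h1 : (⟨e n, hzmem⟩ : cN e.range Q) = 1 := by
        obtain ⟨k, hk⟩ := hP'p ⟨z, hz⟩
        have hzk : z ^ ℓ ^ k = 1 := congrArg Subtype.val hk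
        refine ZR.central_one (ℓ := ℓ) hcore _ ?_ k ?_
        · rintro ⟨x, hx⟩
          obtain ⟨⟨m, rfl⟩, hm⟩ := Subgroup.mem_inf.mp hx
          apply Subtype.ext
          change e n * e m = e m * e n
          rw [← map_mul, hcomm m hm, map_mul]
        · apply Subtype.ext
          change (e n) ^ ℓ ^ k = 1
          rw [← map_pow]
          have : n ^ ℓ ^ k = 1 := by
            funext o
            rw [Pi.pow_apply, Pi.one_apply]
            by_cases ho : ∃ q' ∈ Q, (φ q').right • w = o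
            · obtain ⟨q', hq', rfl⟩ := ho
              rw [hn1 q' hq', ← map_pow, hzk, map_one]
            · rw [hn2 o ho, one_pow]
          rw [this, map_one]
      exact congrArg Subtype.val h1
    have hn0 : n = 1 := hE1.inj (by rw [hfin, map_one])
    have h1 := hn1 1 (one_mem _)
    rw [rone, lone, hn0, Pi.one_apply, map_one, MulAut.one_apply] at h1
    apply hzne
    apply Subtype.ext
    exact h1.symm
  have key2 : ∀ q ∈ Q, ∀ q' ∈ Q, ∀ w, (φ q).right • w = (φ q').right • w →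
      (φ q).left ((φ q).right • w) = (φ q').left ((φ q').right • w) := by
    intro q hq q' hq' w h
    have h3 : (φ (q'⁻¹ * q)).right • w = w := by
      rw [rmul, h, ← rmul, inv_mul_cancel, rone]
    have h4 := lmul φ q' (q'⁻¹ * q) w
    rw [mul_inv_cancel_left, h3] at h4
    rw [h4, key _ (mul_mem (inv_mem hq') hq) w h3, mul_one]
  let S : Setoid Ω :=
    { r := fun w w' => ∃ q ∈ Q, (φ q).right • w = w'
      iseqv := by
        refine ⟨fun w => ⟨1, one_mem _, rone φ w⟩, ?_, ?_⟩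
        · rintro w _ ⟨q, hq, rfl⟩
          exact ⟨q⁻¹, inv_mem hq, by rw [← rmul, inv_mul_cancel, rone]⟩
        · rintro w _ _ ⟨q, hq, rfl⟩ ⟨q', hq', rfl⟩
          exact ⟨q' * q, mul_mem hq' hq, by rw [rmul]⟩ }
  have hSr : ∀ w w', (Quotient.mk S w = Quotient.mk S w') ↔ ∃ q ∈ Q, (φ q).right • w = w' :=
    fun w w' => Quotient.eq (r := S)
  have hex : ∀ w, ∃ q ∈ Q, (φ q).right • (Quotient.mk S w).out = w := fun w =>
    (hSr _ _).mp (Quotient.out_eq _)
  choose qq hqQ hqq using hex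
  have hu : ∀ q ∈ Q, ∀ w, (φ (qq ((φ q).right • w))).left ((φ q).right • w) =
      (φ q).left ((φ q).right • w) * (φ (qq w)).left w := by
    intro q hq w
    have h1 : Quotient.mk S ((φ q).right • w) = Quotient.mk S w := ((hSr _ _).mpr ⟨q, hq, rfl⟩).symm
    have h2 := hqq ((φ q).right • w)
    rw [h1] at h2
    have h3 := hqq w
    have h4 := key2 (qq ((φ q).right • w)) (hqQ _) (q * qq w) (mul_mem hq (hqQ _))
      (Quotient.mk S w).out (by rw [h2, rmul, h3])
    rw [h2, lmul, h3] at h4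
    exact h4
  refine ⟨Quotient S, Fintype.ofFinite _, Classical.decEq _, Quotient.mk S,
    fun w => (φ (qq w)).left w, Quotient.mk_surjective, hSr, ?_, hu, ?_⟩
  · intro o
    obtain ⟨w0, rfl⟩ := Quotient.exists_rep o
    let act : MulAction Q Ω :=
      MulAction.compHom Ω ((SemidirectProduct.rightHom.comp φ).comp Q.subtype)
    have hsm : ∀ (q : Q) (w : Ω), q • w = (φ (q : X)).right • w := fun _ _ => rfl
    obtain ⟨k, hk⟩ := hQ.card_orbit w0
    refine ⟨k, ?_⟩
    rw [← hk]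
    refine Nat.card_congr (Equiv.subtypeEquivRight ?_)
    intro w
    rw [MulAction.mem_orbit_iff, eq_comm, hSr]
    constructor
    · rintro ⟨q, hq, h⟩
      exact ⟨⟨q, hq⟩, h⟩
    · rintro ⟨q, h⟩
      exact ⟨q, q.2, h⟩
  · intro n
    rw [cent e p φ hE1 Q n]
    constructor
    · intro h
      refine ⟨fun o => (κ ((φ (qq o.out)).left o.out))⁻¹ (n o.out), ?_⟩
      funext w
      have h1 := h (qq w) (hqQ w) (Quotient.mk S w).out
      rw [hqq w] at h1
      have h2 := hu (qq w) (hqQ w) (Quotient.mk S w).out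
      rw [hqq w] at h2
      change n w = κ ((φ (qq w)).left w) _
      rw [h2, map_mul, MulAut.mul_apply, MulAut.apply_inv_self, h1]
    · rintro ⟨n', rfl⟩ q hq w
      have h1 := hu q hq w
      have h2 : Quotient.mk S ((φ q).right • w) = Quotient.mk S w :=
        ((hSr _ _).mpr ⟨q, hq, rfl⟩).symm
      change κ _ (κ ((φ (qq w)).left w) (n' (Quotient.mk S w))) =
        κ ((φ (qq ((φ q).right • w))).left ((φ q).right • w)) (n' (Quotient.mk S ((φ q).right • w)))
      rw [h1, h2, map_mul, MulAut.mul_apply]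

end Pool.Agent.DP


end
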