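import Mathlib
import Pool.Agent.DAM.C01
import Pool.Agent.DAM.C02
import Pool.Agent.DAM.C11
import Pool.Agent.DAM.C12
import Pool.Agent.DAM.C13
import Pool.Agent.DAM.C14

/-! Parts: DPM.QINF, DPC.EXTBR, DPM.EU, DPX.DIMX -/

section

/-!
# QINF: characters of a quotient by a central subgroup
-/

set_option autoImplicit false

namespace Pool.Agent.DPM

open Pool.Agent.DP Pool.Agent.DPC Pool.Agent.Lib_helper13 Representation

namespace QINF

section Fib

variable {A B : Type} [Group A] [Fintype A] [Group B] [Fintype B] (φ : A →* B)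

omit [Fintype B] in
/-- The sum over a fibre. -/
theorem sum_fib (a0 : A) (F : A → ℂ) [Fintype φ.ker] [DecidablePred fun a => φ a = φ a0] :
    ∑ a with φ a = φ a0, F a = ∑ z : φ.ker, F (z * a0) := by
  symm
  refine Finset.sum_bij (fun (z : φ.ker) _ => (z : A) * a0) ?_ ?_ ?_ ?_
  · intro z _
    rw [Finset.mem_filter]
    exact ⟨Finset.mem_univ _, by rw [map_mul, (MonoidHom.mem_ker).1 z.2, one_mul]⟩
  · intro z _ w _ h
    exact Subtype.ext (mul_right_cancel h)
  · intro a ha
    rw [Finset.mem_filter] at ha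
    refine ⟨⟨a * a0⁻¹, ?_⟩, Finset.mem_univ _, ?_⟩
    · rw [MonoidHom.mem_ker, map_mul, ha.2, map_inv, mul_inv_cancel]
    · rw [inv_mul_cancel_right]
  · intro z _
    rfl

/-- The sum over a group as a sum over a quotient. -/
theorem sum_comp (hφ : Function.Surjective φ) (f : B → ℂ) :
    ∑ a, f (φ a) = Nat.card φ.ker * ∑ b, f b := by
  classical
  have : Fintype φ.ker := Fintype.ofFinite _
  rw [← Finset.sum_fiberwise Finset.univ φ (fun a => f (φ a)), Finset.mul_sum]
  refine Finset.sum_congr rfl fun b _ => ?_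
  obtain ⟨a0, rfl⟩ := hφ b
  rw [sum_fib φ a0 (fun a => f (φ a))]
  have h1 : ∀ z : φ.ker, f (φ (z * a0)) = f (φ a0) := by
    intro z
    rw [map_mul, (MonoidHom.mem_ker).1 z.2, one_mul]
  rw [Finset.sum_congr rfl fun z _ => h1 z, Finset.sum_const, nsmul_eq_mul, Finset.card_univ,
    Nat.card_eq_fintype_card]

omit [Fintype A] [Fintype B] in
theorem card_eq [Finite A] (hφ : Function.Surjective φ) :
    Nat.card A = Nat.card φ.ker * Nat.card B := by
  rw [Subgroup.card_eq_card_quotient_mul_card_subgroup φ.ker, mul_comm]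
  congr 1
  exact Nat.card_congr (QuotientGroup.quotientKerEquivOfSurjective φ hφ).toEquiv

/-- Inflation preserves irreducibility. -/
theorem irr_inf (hφ : Function.Surjective φ) {χ : B → ℂ} (hχ : IsIrr χ) :
    IsIrr (fun a => χ (φ a)) := by
  refine (hχ.isChr.comp φ).isIrr ?_
  have h1 := sum_comp φ hφ (fun b => χ b * χ b⁻¹)
  rw [hχ.sum_self] at h1
  have h2 : ∑ a, χ (φ a) * χ (φ a⁻¹) = ∑ a, χ (φ a) * χ (φ a)⁻¹ := by
    refine Finset.sum_congr rfl fun a _ => ?_
    rw [map_inv]
  rw [h2, h1, card_eq φ hφ]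
  push_cast
  rfl

/-- A character which is constant on the cosets of the kernel is an inflation. -/
theorem exists_inf (hφ : Function.Surjective φ) {η : A → ℂ} (hη : IsIrr η)
    (h : ∀ x y, φ x = 1 → η (x * y) = η y) :
    ∃ η' : B → ℂ, IsIrr η' ∧ η = fun a => η' (φ a) := by
  classical
  choose s hs using hφ
  have hφ : Function.Surjective φ := fun b => ⟨s b, hs b⟩
  let f : B → ℂ := fun b => η (s b)
  have hf : ∀ a, f (φ a) = η a := by
    intro a
    show η (s (φ a)) = η a
    have h1 : s (φ a) = (s (φ a) * a⁻¹) * a := by rw [inv_mul_cancel_right]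
    rw [h1, h]
    rw [map_mul, hs, map_inv, mul_inv_cancel]
  have hfc : ∀ g x, f (g * x * g⁻¹) = f x := by
    intro g x
    rw [← hs g, ← hs x, ← map_inv, ← map_mul, ← map_mul, hf, hf, hη.conj_eq]
  by_contra hcon
  push Not at hcon
  have h0 : ∀ χ : B → ℂ, IsIrr χ → ip f χ = 0 := by
    intro χ hχ
    have h1 : ip η (fun a => χ (φ a)) = 0 := ip_ne hη (irr_inf φ hφ hχ) (hcon χ hχ)
    have h2 := sum_comp φ hφ (fun b => f b * χ b⁻¹)
    have h3 : ∑ a, f (φ a) * χ (φ a)⁻¹ = ∑ a, η a * χ (φ a⁻¹) := by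
      refine Finset.sum_congr rfl fun a _ => ?_
      rw [hf, map_inv]
    rw [h3] at h2
    rw [ip, div_eq_zero_iff] at h1
    rcases h1 with h4 | h4
    · rw [h4] at h2
      rcases mul_eq_zero.1 h2.symm with h5 | h5
      · exact absurd h5 natCard_ne_zero
      · rw [ip, h5, zero_div]
    · exact absurd h4 natCard_ne_zero
  have h1 := congrFun (class_fn_expand f hfc) 1
  have h2 : f 1 = 0 := by
    rw [h1]
    refine Finset.sum_eq_zero fun χ hχ => ?_
    rw [h0 χ (mem_irrF.1 hχ), zero_mul]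
  rw [← map_one φ, hf] at h2
  exact hη.one_ne_zero h2

/-- The defect of an inflation. -/
theorem defect_inf (ℓ : ℕ) [Fact ℓ.Prime] (hφ : Function.Surjective φ) (χ : B → ℂ) (d : ℕ) :
    HasDefect ℓ (fun a => χ (φ a)) (d + padicValNat ℓ (Nat.card φ.ker)) ↔ HasDefect ℓ χ d := by
  unfold HasDefect
  have h0 : (fun a => χ (φ a)) 1 = χ 1 := congrArg χ (map_one φ)
  have h1 : padicValNat ℓ (Nat.card A) =
      padicValNat ℓ (Nat.card φ.ker) + padicValNat ℓ (Nat.card B) := by
    rw [card_eq φ hφ, padicValNat.mul Nat.card_pos.ne' Nat.card_pos.ne']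
  rw [h1, h0]
  constructor
  · rintro ⟨n, h2, h3⟩
    exact ⟨n, h2, by omega⟩
  · rintro ⟨n, h2, h3⟩
    exact ⟨n, h2, by omega⟩

end Fib

section Main

variable {L L' : Type} [Group L] [Fintype L] [Group L'] [Fintype L'] (q : L →* L')

/-- The number of the elements of the kernel which fix the class of `g`. -/
noncomputable def nst (g : L) : ℕ := Nat.card {z : q.ker // IsConj ((z : L) * g) g}

omit [Fintype L] in
theorem conj_mul {z h g : L} (hz : z ∈ Subgroup.center L) :
    conjInd (z * (h * g * h⁻¹)) g = conjInd (z * g) g := by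
  have h1 : z * (h * g * h⁻¹) = h * (z * g) * h⁻¹ := by
    have h2 : z * h = h * z := (Subgroup.mem_center_iff.1 hz h).symm
    calc z * (h * g * h⁻¹) = z * h * g * h⁻¹ := by group
      _ = h * z * g * h⁻¹ := by rw [h2]
      _ = h * (z * g) * h⁻¹ := by group
  rw [h1]
  refine conjInd_left ?_ _
  exact (isConj_iff.2 ⟨h, rfl⟩ : IsConj (z * g) (h * (z * g) * h⁻¹)).symm

omit [Fintype L'] in
theorem sum_nst (g : L) [Fintype q.ker] : ∑ z : q.ker, conjInd ((z : L) * g) g = nst q g := by
  classical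
  have h1 : ∀ z : q.ker, conjInd ((z : L) * g) g =
      if IsConj ((z : L) * g) g then (1 : ℂ) else 0 := by
    intro z
    unfold conjInd
    split_ifs
    · rfl
    · rfl
  unfold nst
  rw [Finset.sum_congr rfl fun z _ => h1 z, Finset.sum_boole, Nat.card_eq_fintype_card,
    Fintype.card_subtype]

variable (S : Subgroup L) [Fintype S] [Fintype (S.map q)]

/-- The kernel of the restriction. -/
noncomputable def kerEquiv (hS : q.ker ≤ S) : (q.subgroupMap S).ker ≃ q.ker where
  toFun z := ⟨((z : S) : L), by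
    have h1 := (MonoidHom.mem_ker).1 z.2
    rw [MonoidHom.mem_ker]
    exact congrArg Subtype.val h1⟩
  invFun z := ⟨⟨(z : L), hS z.2⟩, by
    rw [MonoidHom.mem_ker]
    apply Subtype.ext
    exact (MonoidHom.mem_ker).1 z.2⟩
  left_inv z := rfl
  right_inv z := rfl

omit [Fintype (S.map q)] in
/-- The fibre sum of the conjugates of `g`. -/
theorem fib [DecidableEq (S.map q)] (hq : Function.Surjective q) (hc : q.ker ≤ Subgroup.center L) (hS : q.ker ≤ S)
    (g : L) (s' : S.map q) :
    ∑ s : S with q.subgroupMap S s = s', conjInd (s : L) g =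
      nst q g * conjInd (s' : L') (q g) := by
  by_cases h : IsConj (s' : L') (q g)
  · obtain ⟨c, hc'⟩ := isConj_iff.1 h.symm
    obtain ⟨h0, rfl⟩ := hq c
    have hs0 : q (h0 * g * h0⁻¹) = s' := by rw [map_mul, map_mul, map_inv]; exact hc'
    have hmem : h0 * g * h0⁻¹ ∈ S := by
      obtain ⟨s1, hs1, hs2⟩ := s'.2
      have h1 : h0 * g * h0⁻¹ * s1⁻¹ ∈ q.ker := by
        rw [MonoidHom.mem_ker, map_mul, hs0, map_inv, hs2, mul_inv_cancel]
      have h2 := S.mul_mem (hS h1) hs1
      rwa [inv_mul_cancel_right] at h2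
    have e1 : s' = q.subgroupMap S ⟨h0 * g * h0⁻¹, hmem⟩ := Subtype.ext hs0.symm
    have : Fintype (q.subgroupMap S).ker := Fintype.ofFinite _
    have : Fintype q.ker := Fintype.ofFinite _
    have hone : conjInd (s' : L') (q g) = 1 := if_pos h
    rw [hone, mul_one, ← sum_nst]
    conv_lhs => rw [e1]
    rw [sum_fib (q.subgroupMap S) ⟨h0 * g * h0⁻¹, hmem⟩ (fun s : S => conjInd (s : L) g)]
    refine Fintype.sum_equiv (kerEquiv q S hS) _ _ fun z => ?_
    have hz : ((z : S) : L) ∈ Subgroup.center L := hc (kerEquiv q S hS z).2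
    exact conj_mul hz
  · have hz : conjInd (s' : L') (q g) = 0 := if_neg h
    rw [hz, mul_zero]
    refine Finset.sum_eq_zero fun s hs => ?_
    rw [Finset.mem_filter] at hs
    refine if_neg fun h1 => h ?_
    rw [← hs.2]
    exact MonoidHom.map_isConj q h1

/-- The central function of an inflation. -/
theorem cen_inf (𝔐 : Ideal (integralClosure ℤ ℂ)) (hq : Function.Surjective q)
    (hc : q.ker ≤ Subgroup.center L) (hS : q.ker ≤ S) {η' : S.map q → ℂ} (hη' : IsIrr η')
    (g : L) :
    cen 𝔐 S.subtype (fun x : S => η' (q.subgroupMap S x)) g =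
      (nst q g : (integralClosure ℤ ℂ) ⧸ 𝔐) * cen 𝔐 (S.map q).subtype η' (q g) := by
  classical
  have h1 : wt (fun x : S => η' (q.subgroupMap S x)) (fun y : S => conjInd (S.subtype y) g) =
      nst q g * wt η' (fun y => conjInd ((S.map q).subtype y) (q g)) := by
    unfold wt
    have h0 : (fun x : S => η' (q.subgroupMap S x)) 1 = η' 1 :=
      congrArg η' (map_one (q.subgroupMap S))
    rw [h0, ← mul_div_assoc]
    congr 1
    rw [← Finset.sum_fiberwise Finset.univ (q.subgroupMap S)
      (fun y : S => conjInd (S.subtype y) g * η' (q.subgroupMap S y)), Finset.mul_sum]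
    refine Finset.sum_congr rfl fun s' _ => ?_
    rw [← mul_assoc]
    have h2 := fib q S hq hc hS g s'
    show _ = (nst q g * conjInd (s' : L') (q g)) * η' s'
    rw [← h2, Finset.sum_mul]
    refine Finset.sum_congr rfl fun s hs => ?_
    rw [(Finset.mem_filter.1 hs).2]
    rfl
  have hn : IsIntegral ℤ ((nst q g : ℕ) : ℂ) := by
    have h2 : ((nst q g : ℕ) : ℂ) = algebraMap ℤ ℂ (nst q g : ℤ) := by simp
    rw [h2]
    exact isIntegral_algebraMap
  rw [cen, cen, h1, red_mul 𝔐 hn (isIntegral_wt_conj _ hη' _)]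
  congr 1
  rw [red_of_integral 𝔐 hn]
  have h2 : (⟨((nst q g : ℕ) : ℂ), hn⟩ : integralClosure ℤ ℂ) =
      ((nst q g : ℕ) : integralClosure ℤ ℂ) := by
    apply Subtype.ext
    simp
  rw [h2, map_natCast]

end Main

end QINF

/-- **QINF** -/
theorem QINF_thm : Stmt_QINF := by
  classical
  intro L L' _ _ _ _ 𝔐 ℓ _ hmax hℓ q hq hc
  refine ⟨fun c' g => (QINF.nst q g : (integralClosure ℤ ℂ) ⧸ 𝔐) * c' (q g), fun S hS => ?_⟩
  have hsurj : Function.Surjective (q.subgroupMap S) := q.subgroupMap_surjective S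
  refine ⟨fun η' hη' => ⟨QINF.irr_inf _ hsurj hη', ?_, ?_⟩, ?_⟩
  · funext g
    exact QINF.cen_inf q S 𝔐 hq hc hS hη' g
  · intro d
    have h1 := QINF.defect_inf (q.subgroupMap S) ℓ hsurj η' d
    rw [Nat.card_congr (QINF.kerEquiv q S hS)] at h1
    exact h1
  · intro η hη h
    refine QINF.exists_inf (q.subgroupMap S) hsurj hη fun x y hxy => h x y ?_
    exact congrArg Subtype.val hxy

end Pool.Agent.DPM


end

section

/-!
# EXTB (theorem R): truncation of extensions
-/

namespace Pool.Agent.DPC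

open Pool.Agent.DP

open Pool.Agent.Lib_helper13 Representation

namespace EXTBR

/-- A representation is irreducible if the character of its restriction is. -/
theorem irr_of_comp {H K : Type*} [Group H] [Group K] [Fintype K] (j : K →* H) {n : ℕ}
    (r : Representation ℂ H (Fin n → ℂ)) (h : IsIrr (fun k => r.character (j k))) :
    r.IsIrreducible := by
  let r' : Representation ℂ K (Fin n → ℂ) := r.comp j
  have h0 : r'.IsIrreducible := by
    apply irreducible_of_sum
    exact h.sum_self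
  refine { exists_pair_ne := ⟨⊥, ⊤, ?_⟩, eq_bot_or_eq_top := ?_ }
  · intro hbt
    obtain ⟨a, b, hab⟩ := h0.exists_pair_ne
    apply hab
    have hz : ∀ x : Fin n → ℂ, x = 0 := by
      intro x
      have hxt : x ∈ (⊤ : Subrepresentation r) := by
        change x ∈ (⊤ : Submodule ℂ (Fin n → ℂ)); trivial
      rw [← hbt] at hxt
      change x ∈ (⊥ : Submodule ℂ (Fin n → ℂ)) at hxt
      simpa using hxt
    ext x
    rw [hz x]
    exact ⟨fun _ => b.toSubmodule.zero_mem, fun _ => a.toSubmodule.zero_mem⟩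
  · intro a
    let a' : Subrepresentation r' := ⟨a.toSubmodule, fun k => a.2 (j k)⟩
    rcases h0.eq_bot_or_eq_top a' with h1 | h1
    · left
      have h2 : a'.toSubmodule = ⊥ := by rw [h1]; rfl
      ext x
      change x ∈ a'.toSubmodule ↔ x ∈ (⊥ : Submodule ℂ (Fin n → ℂ))
      rw [h2]
    · right
      have h2 : a'.toSubmodule = ⊤ := by rw [h1]; rfl
      ext x
      change x ∈ a'.toSubmodule ↔ x ∈ (⊤ : Submodule ℂ (Fin n → ℂ))
      rw [h2]

/-- Restriction to a subgroup which contains the image of a subgroup with irreducible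
restriction. -/
theorem irrOn_trn {G B : Type*} [Group G] [Group B] (ι : G →* B) {A : Subgroup G}
    [Finite A] {S S' : Subgroup B} (hS : S' ≤ S) (hA : ∀ a ∈ A, ι a ∈ S') {f : B → ℂ}
    (hf : IsIrr (fun s : S => f s)) (hψ : IsIrr (fun a : A => f (ι a))) :
    IsIrr (fun s : S' => f s) := by
  have : Fintype A := Fintype.ofFinite A
  obtain ⟨n, r, hr, hc⟩ := hf
  let r' : Representation ℂ S' (Fin n → ℂ) := r.comp (Subgroup.inclusion hS)
  have hc' : r'.character = fun s : S' => f s := by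
    funext s
    exact congrFun hc (Subgroup.inclusion hS s)
  let j : A →* S' := (ι.comp A.subtype).codRestrict S' (fun a => hA a a.2)
  refine ⟨n, r', irr_of_comp j r' ?_, hc'⟩
  rw [hc']
  exact hψ

section

variable {G B C : Type} [Group G] [Fintype G] [Group B] [Group C]
  {𝔐 : Ideal (integralClosure ℤ ℂ)} {ℓ : ℕ} {ι : G →* B} {κ : B →* MulAut G} {ρ : B →* C}

theorem trn_one {A : Type*} [Zero A] (ρ : B →* C) (L : Subgroup C) (b : B → A) :
    trn ρ L b 1 = b 1 := by
  rw [trn, if_pos]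
  rw [map_one]
  exact L.one_mem

theorem trn_mul (ρ : B →* C) (L : Subgroup C) (f : B → ℂ) (lam : C →* ℂˣ) :
    trn ρ L (fun x => f x * ((lam (ρ x) : ℂˣ) : ℂ)) =
      fun x => trn ρ L f x * ((lam (ρ x) : ℂˣ) : ℂ) := by
  funext x
  by_cases h : ρ x ∈ L
  · rw [trn, if_pos h, trn, if_pos h]
  · rw [trn, if_neg h, trn, if_neg h, zero_mul]

/-- Truncation commutes with the formation of the central functions. -/
theorem cgT_trn [Fintype B] (hs : ClG ι κ ρ) (L : Subgroup C) (f : B → ℂ) :
    cgT 𝔐 ι.range (trn ρ L f) = trn ρ L (cgT 𝔐 ι.range f) := by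
  funext g
  have hρ : ∀ x : B, (∃ t ∈ ι.range, x = t * g * t⁻¹) → ρ x = ρ g := by
    rintro x ⟨t, ht, rfl⟩
    have h1 : ρ t = 1 := (hs.ker t).mpr ht
    rw [map_mul, map_mul, map_inv, h1, one_mul, inv_one, mul_one]
  rw [cgT, trn_one]
  by_cases hg : ρ g ∈ L
  · have h1 : trn ρ L (cgT 𝔐 ι.range f) g = cgT 𝔐 ι.range f g := if_pos hg
    rw [h1, cgT]
    congr 2
    refine Finset.sum_congr rfl fun x _ => ?_
    by_cases hx : ∃ t ∈ ι.range, x = t * g * t⁻¹
    · have h2 : trn ρ L f x = f x := if_pos (by rw [hρ x hx]; exact hg)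
      rw [h2]
    · have h2 : cjT ι.range x g = 0 := if_neg hx
      rw [h2, zero_mul, zero_mul]
  · have h1 : trn ρ L (cgT 𝔐 ι.range f) g = 0 := if_neg hg
    rw [h1]
    have h3 : ∑ x, cjT ι.range x g * trn ρ L f x = 0 := by
      refine Finset.sum_eq_zero fun x _ => ?_
      by_cases hx : ∃ t ∈ ι.range, x = t * g * t⁻¹
      · have h2 : trn ρ L f x = 0 := if_neg (by rw [hρ x hx]; exact hg)
        rw [h2, mul_zero]
      · have h2 : cjT ι.range x g = 0 := if_neg hx
        rw [h2, zero_mul]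
    rw [h3, zero_div, red_zero]

/-- Truncations of extensions are extensions. -/
theorem extL_trn (hs : ClG ι κ ρ) {σ : Finset (Subgroup G)} {ψ : G → ℂ} (hψ : IrrOn (stb σ) ψ)
    {L' L : Subgroup C} (hL : L' ≤ L)
    (hc : (Stx κ σ ψ ⊓ L'.comap ρ).comap ι = stb σ) {f : B → ℂ} (hf : ExtL ι κ ρ σ ψ L f) :
    ExtL ι κ ρ σ ψ L' (trn ρ L' f) := by
  have hι : ∀ h : G, ρ (ι h) = 1 := fun h => (hs.ker _).mpr ⟨h, rfl⟩
  obtain ⟨⟨hirr, h0⟩, he⟩ := hf
  refine ⟨⟨?_, ?_⟩, ?_⟩
  · have h1 : (fun s : (Stx κ σ ψ ⊓ L'.comap ρ : Subgroup B) => trn ρ L' f s) =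
        fun s : (Stx κ σ ψ ⊓ L'.comap ρ : Subgroup B) => f s := by
      funext s
      exact if_pos (Subgroup.mem_inf.mp s.2).2
    rw [h1]
    refine irrOn_trn ι (A := stb σ) (inf_le_inf_left _ (Subgroup.comap_mono hL)) ?_ hirr ?_
    · intro a ha
      rw [← hc] at ha
      exact ha
    · have h2 : (fun a : stb σ => f (ι a)) = fun a : stb σ => ψ a := by
        funext a
        exact he a
      rw [h2]
      exact hψ.1
  · intro x hx
    by_cases hxL : ρ x ∈ L'
    · have h1 : trn ρ L' f x = f x := if_pos hxL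
      rw [h1]
      apply h0
      intro hx2
      exact hx (Subgroup.mem_inf.mpr ⟨(Subgroup.mem_inf.mp hx2).1, hxL⟩)
    · exact if_neg hxL
  · intro h
    have h1 : trn ρ L' f (ι h) = f (ι h) := if_pos (by rw [hι]; exact L'.one_mem)
    rw [h1, he]

theorem mul_inv_lam (f : B → ℂ) (lam : C →* ℂˣ) (ρ : B →* C) :
    (fun x => (f x * ((lam (ρ x) : ℂˣ) : ℂ)) * ((lam⁻¹ (ρ x) : ℂˣ) : ℂ)) = f := by
  funext x
  rw [MonoidHom.inv_apply, mul_assoc, Units.mul_inv, mul_one]

theorem inv_mul_lam (f : B → ℂ) (lam : C →* ℂˣ) (ρ : B →* C) :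
    (fun x => (f x * ((lam⁻¹ (ρ x) : ℂˣ) : ℂ)) * ((lam (ρ x) : ℂˣ) : ℂ)) = f := by
  funext x
  rw [MonoidHom.inv_apply, mul_assoc, Units.inv_mul, mul_one]

end

end EXTBR

open _root_.Pool.Agent.DPC.EXTBR in
theorem EXTBR_thm (h1 : Stmt_EXTAR) : Stmt_EXTBR := by
  intro G B C _ _ _ _ _ 𝔐 ℓ _ ι κ ρ hs σ ψ hψ L' L hL
  obtain ⟨hc', -, -, hm', ht', hn'⟩ := h1 G B C ℓ ι κ ρ hs σ ψ hψ L'
  obtain ⟨-, -, hex, hm, ht, hn⟩ := h1 G B C ℓ ι κ ρ hs σ ψ hψ L
  have hT : ∀ f, ExtL ι κ ρ σ ψ L f → ExtL ι κ ρ σ ψ L' (trn ρ L' f) :=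
    fun f hf => extL_trn hs.cl hψ hL hc' hf
  obtain ⟨f0, hf0⟩ := hex
  refine ⟨hT, ?_, ?_⟩
  · -- the fibres of the truncation
    have hlam : ∀ f' : B → ℂ, ∃ lam : C →* ℂˣ, ExtL ι κ ρ σ ψ L' f' →
        f' = fun x => trn ρ L' f0 x * ((lam (ρ x) : ℂˣ) : ℂ) := by
      intro f'
      by_cases hf' : ExtL ι κ ρ σ ψ L' f'
      · obtain ⟨lam, hl⟩ := ht' _ f' (hT f0 hf0) hf'
        exact ⟨lam, fun _ => hl⟩
      · exact ⟨1, fun h => absurd h hf'⟩
    choose lam hlam using hlam
    have key : ∀ P : (B → ℂ) → Prop,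
        Nat.card {f : B → ℂ // ExtL ι κ ρ σ ψ L f ∧ P (trn ρ L' f)} =
          Nat.card {f : B → ℂ // ExtL ι κ ρ σ ψ L' f ∧ P f} *
            Nat.card {f : B → ℂ // ExtL ι κ ρ σ ψ L f ∧ trn ρ L' f = trn ρ L' f0} := by
      intro P
      rw [← Nat.card_prod]
      refine Nat.card_congr
        { toFun := fun f => (⟨trn ρ L' f.1, hT _ f.2.1, f.2.2⟩,
            ⟨fun x => f.1 x * (((lam (trn ρ L' f.1))⁻¹ (ρ x) : ℂˣ) : ℂ),
              hm _ _ f.2.1, ?_⟩)
          invFun := fun p => ⟨fun x => p.2.1 x * ((lam p.1.1 (ρ x) : ℂˣ) : ℂ),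
            hm _ _ p.2.2.1, ?_⟩
          left_inv := ?_
          right_inv := ?_ }
      · rw [trn_mul]
        have h := hlam _ (hT _ f.2.1)
        rw [← mul_inv_lam (trn ρ L' f0) (lam (trn ρ L' f.1)) ρ]
        funext x
        have h2 := congrFun h x
        change trn ρ L' f.1 x * _ = (trn ρ L' f0 x * _) * _
        rw [← h2]
      · rw [trn_mul, p.2.2.2, ← hlam _ p.1.2.1]
        exact p.1.2.2
      · intro f
        apply Subtype.ext
        exact inv_mul_lam f.1 (lam (trn ρ L' f.1)) ρ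
      · intro p
        have h2 : trn ρ L' (fun x => p.2.1 x * ((lam p.1.1 (ρ x) : ℂˣ) : ℂ)) = p.1.1 := by
          rw [trn_mul, p.2.2.2, ← hlam _ p.1.2.1]
        apply Prod.ext
        · apply Subtype.ext
          exact h2
        · apply Subtype.ext
          change (fun x => (p.2.1 x * ((lam p.1.1 (ρ x) : ℂˣ) : ℂ)) *
            (((lam (trn ρ L' (fun x => p.2.1 x * ((lam p.1.1 (ρ x) : ℂˣ) : ℂ))))⁻¹
              (ρ x) : ℂˣ) : ℂ)) = p.2.1
          rw [h2]
          exact mul_inv_lam p.2.1 (lam p.1.1) ρ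
    have hT1 := key (fun _ => True)
    have e1 : Nat.card {f : B → ℂ // ExtL ι κ ρ σ ψ L f ∧ True} = Nat.card (KL κ ρ σ ψ L) := by
      rw [← hn]
      exact Nat.card_congr (Equiv.subtypeEquivRight fun f => iff_of_eq (and_true _))
    have e2 : Nat.card {f : B → ℂ // ExtL ι κ ρ σ ψ L' f ∧ True} =
        Nat.card (KL κ ρ σ ψ L') := by
      rw [← hn']
      exact Nat.card_congr (Equiv.subtypeEquivRight fun f => iff_of_eq (and_true _))
    rw [e1, e2] at hT1
    intro P
    rw [key P, hT1]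
    ring
  · -- the classes
    ext b
    constructor
    · rintro ⟨f', hf', rfl⟩
      obtain ⟨lam, hl⟩ := ht' _ f' (hT f0 hf0) hf'
      refine ⟨cgT 𝔐 ι.range (fun x => f0 x * ((lam (ρ x) : ℂˣ) : ℂ)), ⟨_, hm f0 lam hf0, rfl⟩, ?_⟩
      change trn ρ L' (cgT 𝔐 ι.range (fun x => f0 x * ((lam (ρ x) : ℂˣ) : ℂ))) = _
      rw [← cgT_trn hs.cl, trn_mul, ← hl]
    · rintro ⟨_, ⟨f, hf, rfl⟩, rfl⟩
      exact ⟨trn ρ L' f, hT f hf, (cgT_trn hs.cl L' f).symm⟩

end Pool.Agent.DPC


end

section

/-! # EU: chains of `ℓ`-subgroups normalized by a subgroup with a normal `ℓ`-subgroup -/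

namespace Pool.Agent.DPM

open Pool.Agent.DP Pool.Agent.DPC Pool.Agent.Lib_helper13 Representation
open Pool.Agent.Lib_helper13.Dade (pCore DadeHolds dadeSum)

namespace EU

variable {G : Type} [Group G] [Fintype G]

theorem sum_zero {ℓ : ℕ} [Fact ℓ.Prime] (O U : Subgroup G) (hO : IsPGroup ℓ O)
    (hOU : O ≤ U) (hU : ∀ g ∈ U, O.map (MulAut.conj g).toMonoidHom = O) (hZO : (⊥ : Subgroup G) < O)
    [DecidablePred fun σ : Finset (Subgroup G) => U ≤ stb σ] :
    ∑ σ ∈ Ch ℓ (⊥ : Subgroup G) with U ≤ stb σ, (-1 : ℚ) ^ σ.card = 0 := by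
  classical
  let E : Finset (Subgroup G) → Subgroup G := fun σ =>
    ((σ.filter (fun D => ¬ O ≤ D)).sup id) ⊔ O
  have hOE : ∀ σ, O ≤ E σ := fun σ => le_sup_right
  have hE1 : ∀ σ, E (insert (E σ) σ) = E σ := by
    intro σ
    have : (insert (E σ) σ).filter (fun D => ¬ O ≤ D) = σ.filter (fun D => ¬ O ≤ D) := by
      rw [Finset.filter_insert, if_neg (not_not.mpr (hOE σ))]
    change ((((insert (E σ) σ).filter (fun D => ¬ O ≤ D))).sup id) ⊔ O = _
    rw [this]
  have hE2 : ∀ σ, E (σ.erase (E σ)) = E σ := by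
    intro σ
    have : (σ.erase (E σ)).filter (fun D => ¬ O ≤ D) = σ.filter (fun D => ¬ O ≤ D) := by
      rw [Finset.filter_erase, Finset.erase_eq_of_notMem]
      intro h
      exact (Finset.mem_filter.mp h).2 (hOE σ)
    change ((((σ.erase (E σ)).filter (fun D => ¬ O ≤ D))).sup id) ⊔ O = _
    rw [this]
  have hcomp : ∀ σ, IsCh ℓ (⊥ : Subgroup G) σ → ∀ D ∈ σ, D ≤ E σ ∨ E σ ≤ D := by
    intro σ hσ D hD
    by_cases h : O ≤ D
    · right
      apply sup_le _ h
      rw [Finset.sup_le_iff]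
      intro D' hD'
      rw [Finset.mem_filter] at hD'
      rcases hσ.total hD'.1 hD with h1 | h1
      · exact h1
      · exact absurd (h.trans h1) hD'.2
    · left
      refine le_trans ?_ le_sup_left
      exact Finset.le_sup (f := id) (Finset.mem_filter.mpr ⟨hD, h⟩)
  have hEp : ∀ σ, IsCh ℓ (⊥ : Subgroup G) σ → U ≤ stb σ → IsPGroup ℓ (E σ) := by
    intro σ hσ hs
    rcases (σ.filter (fun D => ¬ O ≤ D)).eq_empty_or_nonempty with h | h
    · have : E σ = O := by
        change (((σ.filter (fun D => ¬ O ≤ D)).sup id) ⊔ O) = O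
        rw [h, Finset.sup_empty, bot_sup_eq]
      rw [this]
      exact hO
    · obtain ⟨T, hT, hT'⟩ := (hσ.subset (Finset.filter_subset _ _)).exists_top h
      have h1 : (σ.filter (fun D => ¬ O ≤ D)).sup id = T := by
        apply le_antisymm
        · rw [Finset.sup_le_iff]
          exact hT'
        · exact Finset.le_sup (f := id) hT
      have h2 : E σ = T ⊔ O := by
        change (((σ.filter (fun D => ¬ O ≤ D)).sup id) ⊔ O) = _
        rw [h1]
      rw [h2]
      have hTσ := (Finset.mem_filter.mp hT).1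
      refine IsPGroup.to_sup_of_normal_left' (hσ.1 T hTσ).1 hO ?_
      intro x hx
      rw [Subgroup.mem_normalizer_iff_map_conj_eq]
      exact mem_stb.1 (hs (hOU hx)) T hTσ
  have hmap : ∀ (g : G) (σ : Finset (Subgroup G)), g ∈ U →
      (∀ D ∈ σ, D.map (MulAut.conj g).toMonoidHom = D) →
      (E σ).map (MulAut.conj g).toMonoidHom = E σ := by
    intro g σ hg h
    change (((σ.filter (fun D => ¬ O ≤ D)).sup id) ⊔ O).map _ = _
    rw [Subgroup.map_sup, hU g hg]
    congr 1
    have h1 : ∀ s : Finset (Subgroup G), (s.sup id).map (MulAut.conj g).toMonoidHom =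
        s.sup (fun D => D.map (MulAut.conj g).toMonoidHom) := by
      intro s
      induction s using Finset.induction_on with
      | empty => rw [Finset.sup_empty, Finset.sup_empty, Subgroup.map_bot]
      | insert a s _ ih =>
        rw [Finset.sup_insert, Finset.sup_insert, Subgroup.map_sup, ih]
        rfl
    rw [h1]
    apply Finset.sup_congr rfl
    intro D hD
    rw [Finset.mem_filter] at hD
    exact h D hD.1
  have hs1 : ∀ σ, U ≤ stb σ → U ≤ stb (insert (E σ) σ) := by
    intro σ hs g hg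
    have h := mem_stb.1 (hs hg)
    rw [mem_stb]
    intro D hD
    rcases Finset.mem_insert.mp hD with rfl | hD
    · exact hmap g σ hg h
    · exact h D hD
  have hs2 : ∀ σ, U ≤ stb σ → U ≤ stb (σ.erase (E σ)) := by
    intro σ hs g hg
    have h := mem_stb.1 (hs hg)
    rw [mem_stb]
    intro D hD
    exact h D (Finset.mem_of_mem_erase hD)
  apply Finset.sum_involution (fun σ _ => if E σ ∈ σ then σ.erase (E σ) else insert (E σ) σ)
  · intro σ hσ
    split_ifs with h
    · rw [Finset.card_erase_of_mem h]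
      have h1 : 0 < σ.card := Finset.card_pos.mpr ⟨_, h⟩
      obtain ⟨n, hn⟩ : ∃ n, σ.card = n + 1 := ⟨σ.card - 1, by omega⟩
      rw [hn, Nat.add_sub_cancel, pow_succ]
      ring
    · rw [Finset.card_insert_of_notMem h, pow_succ]
      ring
  · intro σ hσ _
    split_ifs with h
    · intro h1
      have h2 := Finset.notMem_erase (E σ) σ
      rw [h1] at h2
      exact h2 h
    · intro h1
      apply h
      have h2 := Finset.mem_insert_self (E σ) σ
      rw [h1] at h2
      exact h2
  · intro σ hσ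
    rw [Finset.mem_filter, mem_Ch] at hσ ⊢
    split_ifs with h
    · exact ⟨hσ.1.subset (Finset.erase_subset _ _), hs2 σ hσ.2⟩
    · exact ⟨hσ.1.insert (hEp σ hσ.1 hσ.2) (lt_of_lt_of_le hZO (hOE σ)) (hcomp σ hσ.1), hs1 σ hσ.2⟩
  · intro σ hσ
    by_cases h : E σ ∈ σ
    · simp only [h, if_true]
      rw [hE2, if_neg (Finset.notMem_erase _ _), Finset.insert_erase h]
    · simp only [h, if_false]
      rw [hE1, if_pos (Finset.mem_insert_self _ _), Finset.erase_insert h]

end EU

theorem EU_thm : Stmt_EU := by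
  classical
  intro K _ _ ℓ _ U hU
  have hn : (pCore ℓ U).Normal := pCore_normal ℓ
  have hO : IsPGroup ℓ (pCore ℓ U) := isPGroup_pCore ℓ
  refine @EU.sum_zero K _ _ ℓ _ ((pCore ℓ U).map U.subtype) U (hO.map _) ?_ ?_ ?_ _
  · intro x hx
    obtain ⟨y, _, rfl⟩ := Subgroup.mem_map.1 hx
    exact y.2
  · intro g hg
    rw [← SetLike.coe_set_eq]
    ext x
    constructor
    · rintro ⟨y, ⟨z, hz, rfl⟩, rfl⟩
      refine ⟨⟨g, hg⟩ * z * ⟨g, hg⟩⁻¹, hn.conj_mem z hz _, ?_⟩
      simp
    · rintro ⟨z, hz, rfl⟩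
      refine ⟨_, ⟨⟨g, hg⟩⁻¹ * z * ⟨g, hg⟩⁻¹⁻¹, hn.conj_mem z hz _, rfl⟩, ?_⟩
      simp [mul_assoc]
  · rw [bot_lt_iff_ne_bot]
    intro h
    apply hU
    exact (Subgroup.map_eq_bot_iff_of_injective _ U.subtype_injective).1 h

end Pool.Agent.DPM


end

section

/-!
# Theorem X: the dimension of the centre of the block and of the block of the quotient
-/

namespace Pool.Agent.DPX

open Pool.Agent.DPB Pool.Agent.DPW Representation

set_option linter.unusedSectionVars false

namespace DIMX

/-! ### The group algebra as a ring -/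

/-- The group algebra. -/
def GA (F T : Type) : Type := T → F

section Ring

variable {F T : Type} [Field F] [Group T] [Fintype T]

noncomputable instance instAdd : AddCommGroup (GA F T) := inferInstanceAs (AddCommGroup (T → F))

noncomputable instance instMod : Module F (GA F T) := inferInstanceAs (Module F (T → F))

theorem cvF_add_right (a b c : T → F) : cvF a (b + c) = cvF a b + cvF a c := by
  funext x
  simp only [cvF, Pi.add_apply, mul_add, Finset.sum_add_distrib]

theorem cvF_add_left (a b c : T → F) : cvF (a + b) c = cvF a c + cvF b c := by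
  funext x
  simp only [cvF, Pi.add_apply, add_mul, Finset.sum_add_distrib]

theorem cvF_smul_right (r : F) (a b : T → F) : cvF a (r • b) = r • cvF a b := by
  funext x
  simp only [cvF, Pi.smul_apply, smul_eq_mul, Finset.mul_sum]
  refine Finset.sum_congr rfl fun y _ => ?_
  ring

theorem cvF_smul_left (r : F) (a b : T → F) : cvF (r • a) b = r • cvF a b := by
  funext x
  simp only [cvF, Pi.smul_apply, smul_eq_mul, Finset.mul_sum]
  refine Finset.sum_congr rfl fun y _ => ?_
  ring

theorem cvF_assoc (a b c : T → F) : cvF (cvF a b) c = cvF a (cvF b c) := by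
  funext x
  simp only [cvF, Finset.sum_mul, Finset.mul_sum]
  rw [Finset.sum_comm]
  refine Finset.sum_congr rfl fun y _ => ?_
  rw [← Equiv.sum_comp (Equiv.mulLeft y)]
  refine Finset.sum_congr rfl fun u _ => ?_
  simp only [Equiv.coe_mulLeft, inv_mul_cancel_left, mul_inv_rev]
  rw [mul_assoc, mul_assoc (u⁻¹)]

theorem cvF_comm {z : T → F} (hz : z ∈ CF F T) (b : T → F) : cvF z b = cvF b z := by
  funext x
  simp only [cvF]
  rw [← Equiv.sum_comp ((Equiv.inv T).trans (Equiv.mulLeft x))]
  refine Finset.sum_congr rfl fun u _ => ?_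
  have h1 : z (x * u⁻¹) = z (u⁻¹ * x) := by
    have h := hz (u⁻¹) (x * u⁻¹)
    rw [← h]
    congr 1
    group
  simp only [Equiv.trans_apply, Equiv.inv_apply, Equiv.coe_mulLeft]
  rw [h1, mul_comm]
  congr 2
  group

open Classical in
theorem single_cvF (g : T) (b : T → F) (x : T) :
    cvF (Pi.single g 1 : T → F) b x = b (g⁻¹ * x) := by
  simp only [cvF]
  rw [Finset.sum_eq_single g]
  · rw [Pi.single_eq_same, one_mul]
  · intro y _ hy
    rw [Pi.single_eq_of_ne hy, zero_mul]
  · intro h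
    exact absurd (Finset.mem_univ g) h

open Classical in
theorem cvF_single (g : T) (b : T → F) (x : T) :
    cvF b (Pi.single g 1 : T → F) x = b (x * g⁻¹) := by
  simp only [cvF]
  rw [Finset.sum_eq_single (x * g⁻¹)]
  · have h : (x * g⁻¹)⁻¹ * x = g := by group
    rw [h, Pi.single_eq_same, mul_one]
  · intro y _ hy
    rw [Pi.single_eq_of_ne, mul_zero]
    intro h
    apply hy
    rw [← h]
    group
  · intro h
    exact absurd (Finset.mem_univ _) h

open Classical in
noncomputable instance instRing : Ring (GA F T) where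
  __ := (instAdd : AddCommGroup (GA F T))
  mul a b := cvF a b
  one := (Pi.single 1 1 : T → F)
  left_distrib a b c := cvF_add_right a b c
  right_distrib a b c := cvF_add_left a b c
  zero_mul a := by
    funext x
    change ∑ y, (0 : F) * a (y⁻¹ * x) = 0
    simp
  mul_zero a := by
    funext x
    change ∑ y, a y * (0 : F) = 0
    simp
  mul_assoc a b c := cvF_assoc a b c
  one_mul a := by
    funext x
    have h := single_cvF (F := F) (1 : T) a x
    rw [inv_one, one_mul] at h
    exact h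
  mul_one a := by
    funext x
    have h := cvF_single (F := F) (1 : T) a x
    rw [inv_one, mul_one] at h
    exact h
  npow k z := cvp z k
  npow_zero z := rfl
  npow_succ k z := rfl

noncomputable instance instAlg : Algebra F (GA F T) :=
  Algebra.ofModule (fun r a b => cvF_smul_left r a b) (fun r a b => cvF_smul_right r a b)

theorem mul_def (a b : GA F T) : a * b = cvF a b := rfl

theorem pow_def (a : GA F T) (k : ℕ) : a ^ k = cvp a k := rfl

end Ring

/-! ### The computation in the local algebra -/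

section Core

variable {F A : Type} [Field F] [Ring A] [Algebra F A]

theorem unit_part {e z : A} (hee : e * e = e) (he : ∀ b, e * b = b * e)
    (hz : ∀ b, z * b = b * z) (hze : e * z = z) {c : ℕ} (hzc : z ^ c = 0) (r : F) (hr : r ≠ 0)
    (s : A) (hs : ∀ b, s * b = b * s) :
    ∃ v' : A, (∀ b, v' * b = b * v') ∧ e * v' = v' ∧ (r • e + z * s) * v' = e := by
  have hU : IsUnit (r • e + (1 - e) : A) := by
    have h1 : (r • e + (1 - e)) * (r⁻¹ • e + (1 - e)) = 1 := by
      simp only [mul_add, add_mul, mul_sub, sub_mul, mul_one, one_mul, smul_mul_assoc,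
        mul_smul_comm, hee, smul_smul, sub_self, add_zero, inv_mul_cancel₀ hr, one_smul]
      abel
    have h2 : (r⁻¹ • e + (1 - e)) * (r • e + (1 - e)) = 1 := by
      simp only [mul_add, add_mul, mul_sub, sub_mul, mul_one, one_mul, smul_mul_assoc,
        mul_smul_comm, hee, smul_smul, sub_self, add_zero, one_smul, mul_inv_cancel₀ hr]
      abel
    exact ⟨⟨_, _, h1, h2⟩, rfl⟩
  have hN : IsNilpotent (z * s) := by
    refine ⟨c, ?_⟩
    rw [(show Commute z s from hz s).mul_pow, hzc, zero_mul]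
  have hcom : Commute (z * s) (r • e + (1 - e)) := by
    have h3 : ∀ b, (z * s) * b = b * (z * s) := by
      intro b
      rw [mul_assoc, hs b, ← mul_assoc, hz b, mul_assoc]
    exact h3 _
  obtain ⟨V, hV⟩ := hN.isUnit_add_left_of_commute hU hcom
  have hVc : ∀ b, (V : A) * b = b * V := by
    intro b
    rw [hV]
    simp only [add_mul, mul_add, sub_mul, mul_sub, one_mul, mul_one, smul_mul_assoc,
      mul_smul_comm, he b]
    rw [mul_assoc z s b, hs b, ← mul_assoc z b s, hz b, mul_assoc]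
  have hVi : ∀ b, ((V⁻¹ : Aˣ) : A) * b = b * ((V⁻¹ : Aˣ) : A) := by
    intro b
    rw [Units.inv_mul_eq_iff_eq_mul, ← mul_assoc, hVc b, mul_assoc, Units.mul_inv, mul_one]
  refine ⟨e * ((V⁻¹ : Aˣ) : A), fun b => ?_, ?_, ?_⟩
  · rw [mul_assoc, hVi b, ← mul_assoc, he b, mul_assoc]
  · rw [← mul_assoc, hee]
  · have h4 : (r • e + z * s) = e * (V : A) := by
      rw [hV]
      simp only [mul_add, mul_sub, mul_one, mul_smul_comm, hee, sub_self, add_zero]
      rw [← mul_assoc, hze]
    rw [h4, ← mul_assoc, mul_assoc e (V : A) e, hVc e, ← mul_assoc, hee, mul_assoc,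
      Units.mul_inv, mul_one]

theorem lead {e z y : A} (hee : e * e = e) (he : ∀ b, e * b = b * e)
    (hz : ∀ b, z * b = b * z) (hze : e * z = z) {c : ℕ} (hc : 0 < c)
    (nl : e * z ^ c = 0) (t : ℕ → F)
    (ht : y * e = ∑ k ∈ Finset.range c, t k • (e * z ^ k)) :
    ∃ (a : ℕ) (v v' : A), a ≤ c ∧ (∀ b, v * b = b * v) ∧ (∀ b, v' * b = b * v') ∧
      e * v = v ∧ e * v' = v' ∧ v * v' = e ∧ y * e = v * z ^ a := by
  have hzc : z ^ c = 0 := by
    obtain ⟨d, rfl⟩ := Nat.exists_eq_succ_of_ne_zero hc.ne'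
    rw [← nl, Nat.succ_eq_add_one, pow_succ', ← mul_assoc, hze]
  by_cases h : ∃ k, k < c ∧ t k ≠ 0
  · classical
    let a := Nat.find h
    have ha : a < c ∧ t a ≠ 0 := Nat.find_spec h
    have hmin : ∀ k, k < a → t k = 0 := by
      intro k hk
      have h1 := Nat.find_min h hk
      by_contra h2
      exact h1 ⟨hk.trans ha.1, h2⟩
    obtain ⟨d, hd⟩ : ∃ d, c = a + (1 + d) := ⟨c - a - 1, by omega⟩
    let s : A := ∑ k ∈ Finset.range d, t (a + (1 + k)) • z ^ k
    have hzk : ∀ (k : ℕ) (b : A), z ^ k * b = b * z ^ k := fun k b =>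
      ((show Commute z b from hz b).pow_left k)
    have hs : ∀ b, s * b = b * s := by
      intro b
      simp only [s, Finset.sum_mul, Finset.mul_sum, smul_mul_assoc, mul_smul_comm, hzk]
    obtain ⟨v', h1, h2, h3⟩ := unit_part hee he hz hze hzc (t a) ha.2 s hs
    refine ⟨a, t a • e + z * s, v', ha.1.le, fun b => ?_, h1, ?_, h2, h3, ?_⟩
    · rw [add_mul, mul_add, smul_mul_assoc, mul_smul_comm, he b, mul_assoc z s b, hs b,
        ← mul_assoc z b s, hz b, mul_assoc]
    · rw [mul_add, mul_smul_comm, hee, ← mul_assoc, hze]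
    · rw [ht, hd, Finset.sum_range_add, Finset.sum_range_add, Finset.sum_eq_zero, zero_add,
        Finset.sum_range_one, add_zero, add_mul, smul_mul_assoc]
      · congr 1
        have h4 : z * s * z ^ a = e * (z * s * z ^ a) := by
          rw [← mul_assoc, ← mul_assoc, hze]
        rw [h4]
        simp only [s, Finset.mul_sum, Finset.sum_mul, mul_smul_comm, smul_mul_assoc]
        refine Finset.sum_congr rfl fun k _ => ?_
        congr 2
        rw [← pow_succ', ← pow_add]
        congr 1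
        omega
      · intro k hk
        rw [hmin k (Finset.mem_range.mp hk), zero_smul]
  · push Not at h
    refine ⟨c, e, e, le_rfl, he, he, hee, hee, hee, ?_⟩
    rw [ht, nl, Finset.sum_eq_zero]
    intro k hk
    rw [h k (Finset.mem_range.mp hk), zero_smul]

theorem core {ℓ : ℕ} (hℓ : 2 ≤ ℓ) {e z y : A} (hee : e * e = e) (he : ∀ b, e * b = b * e)
    (hz : ∀ b, z * b = b * z) (hy : ∀ b, y * b = b * y) (hze : e * z = z) {c : ℕ} (hc : 0 < c)
    (nl : e * z ^ c = 0) (nn : ∀ k < c, e * z ^ k ≠ 0) (hyl : y ^ ℓ = 0)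
    (hann : ∀ b, y * b = 0 → ∃ b', b = y ^ (ℓ - 1) * b') (t : ℕ → F)
    (ht : y * e = ∑ k ∈ Finset.range c, t k • (e * z ^ k)) :
    ∃ (a : ℕ) (v v' : A), c = ℓ * a ∧ (∀ b, v * b = b * v) ∧ (∀ b, v' * b = b * v') ∧
      e * v = v ∧ e * v' = v' ∧ v * v' = e ∧ y * e = v * z ^ a := by
  obtain ⟨a, v, v', hac, hv, hv', hev, hev', hvv, hye⟩ := lead hee he hz hze hc nl t ht
  refine ⟨a, v, v', ?_, hv, hv', hev, hev', hvv, hye⟩
  have hzc : z ^ c = 0 := by
    obtain ⟨d, rfl⟩ := Nat.exists_eq_succ_of_ne_zero hc.ne'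
    rw [← nl, Nat.succ_eq_add_one, pow_succ', ← mul_assoc, hze]
  have hzbig : ∀ k, c ≤ k → z ^ k = 0 := fun k hk => pow_eq_zero_of_le hk hzc
  have hepow : ∀ n, n ≠ 0 → e ^ n = e := fun n hn =>
    (show IsIdempotentElem e from hee).pow_eq hn
  -- first inequality
  have h1 : e * z ^ (a * ℓ) = 0 := by
    have h2 : (y * e) ^ ℓ = 0 := by
      rw [(show Commute y e from hy e).mul_pow, hyl, zero_mul]
    rw [hye, (show Commute v (z ^ a) from hv _).mul_pow, ← pow_mul] at h2
    have h3 : e * z ^ (a * ℓ) = v' ^ ℓ * (v ^ ℓ * z ^ (a * ℓ)) := by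
      rw [← mul_assoc, ← (show Commute v' v from hv' v).mul_pow, hv' v, hvv, hepow ℓ (by omega)]
    rw [h3, h2, mul_zero]
  have h2 : c ≤ a * ℓ := by
    by_contra h
    exact nn _ (not_le.mp h) h1
  have ha : 0 < a := by
    rcases Nat.eq_zero_or_pos a with h | h
    · rw [h, zero_mul] at h2
      omega
    · exact h
  -- second inequality
  have h3 : a * ℓ ≤ c := by
    by_contra h
    have hlt : c < a * ℓ := not_le.mp h
    have h4 : y * (e * z ^ (c - a)) = 0 := by
      rw [← mul_assoc, hye, mul_assoc, ← pow_add, Nat.add_sub_cancel' hac, hzc, mul_zero]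
    obtain ⟨b', hb'⟩ := hann _ h4
    have h5 : e * z ^ (c - a) = v ^ (ℓ - 1) * (z ^ (a * (ℓ - 1)) * b') := by
      have h6 : e * (e * z ^ (c - a)) = e * (y ^ (ℓ - 1) * b') := by rw [hb']
      rw [← mul_assoc, hee] at h6
      rw [h6, ← mul_assoc, ← mul_assoc]
      congr 1
      have h7 : e * y ^ (ℓ - 1) = (y * e) ^ (ℓ - 1) := by
        rw [(show Commute y e from hy e).mul_pow, hepow (ℓ - 1) (by omega), he]
      rw [h7, hye, (show Commute v (z ^ a) from hv _).mul_pow, ← pow_mul]
    have h6 : e * z ^ (c - 1) = 0 := by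
      have h7 : e * z ^ (c - 1) = (e * z ^ (c - a)) * z ^ (a - 1) := by
        rw [mul_assoc, ← pow_add]
        congr 2
        omega
      rw [h7, h5, mul_assoc, mul_assoc]
      have h8 : b' * z ^ (a - 1) = z ^ (a - 1) * b' :=
        ((show Commute z b' from hz b').pow_left (a - 1)).symm
      have h9 : z ^ (a * (ℓ - 1)) * (z ^ (a - 1) * b') = 0 := by
        rw [← mul_assoc, ← pow_add, hzbig, zero_mul]
        have h10 : a * (ℓ - 1) + a = a * ℓ := by
          obtain ⟨m, rfl⟩ : ∃ m, ℓ = m + 1 := ⟨ℓ - 1, by omega⟩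
          rw [Nat.add_sub_cancel, mul_add, mul_one]
        omega
      rw [h8, h9, mul_zero]
    exact nn (c - 1) (by omega) h6
  rw [mul_comm ℓ a]
  omega

end Core

/-! ### The group algebra and the quotient -/

section Quot

variable {F T S : Type} [Field F] [Group T] [Fintype T] [Group S] [Fintype S] [DecidableEq S]

open Classical in
/-- The element `g` of the group algebra. -/
noncomputable def dl (g : T) : GA F T := (Pi.single g 1 : T → F)

open Classical in
theorem dl_mul_apply (g : T) (b : GA F T) (x : T) : (dl g * b : GA F T) x = b (g⁻¹ * x) :=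
  single_cvF g b x

open Classical in
theorem mul_dl_apply (g : T) (b : GA F T) (x : T) : (b * dl g : GA F T) x = b (x * g⁻¹) :=
  cvF_single g b x

open Classical in
theorem dl_apply (g x : T) : (dl g : GA F T) x = if x = g then 1 else 0 := by
  change (Pi.single g 1 : T → F) x = _
  rw [Pi.single_apply]

open Classical in
theorem dl_mul (g h : T) : (dl g * dl h : GA F T) = dl (g * h) := by
  funext x
  rw [dl_mul_apply, dl_apply, dl_apply]
  congr 1
  rw [inv_mul_eq_iff_eq_mul]

theorem dl_one : (dl 1 : GA F T) = 1 := rfl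

theorem dl_pow (g : T) (k : ℕ) : (dl g : GA F T) ^ k = dl (g ^ k) := by
  induction k with
  | zero => rw [pow_zero, pow_zero, dl_one]
  | succ k ih => rw [pow_succ, pow_succ, ih, dl_mul]

theorem add_apply (a b : GA F T) (x : T) : (a + b) x = a x + b x := rfl

theorem sub_apply (a b : GA F T) (x : T) : (a - b) x = a x - b x := rfl

theorem zero_apply (x : T) : (0 : GA F T) x = 0 := rfl

theorem smul_apply (r : F) (a : GA F T) (x : T) : (r • a) x = r * a x := rfl

theorem sum_apply {ι : Type} (s : Finset ι) (f : ι → GA F T) (x : T) :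
    (∑ i ∈ s, f i) x = ∑ i ∈ s, f i x :=
  Finset.sum_apply x s (fun i => (f i : T → F))

theorem cf_iff {b : GA F T} : (b : T → F) ∈ CF F T ↔ ∀ a : GA F T, b * a = a * b := by
  constructor
  · intro h a
    exact cvF_comm h a
  · intro h g x
    have h1 := congrFun (h (dl g)) (g * x)
    rw [mul_dl_apply, dl_mul_apply, inv_mul_cancel_left] at h1
    exact h1

theorem eq_sum (b : GA F T) : b = ∑ x, b x • dl x := by
  classical
  funext w
  rw [sum_apply]
  simp only [smul_apply, dl_apply, mul_ite, mul_one, mul_zero]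
  let f : T → F := b
  change f w = ∑ x, if w = x then f x else 0
  rw [Finset.sum_ite_eq]
  simp

theorem geom {ℓ : ℕ} [Fact ℓ.Prime] [CharP F ℓ] (y : GA F T) :
    (y - 1) ^ (ℓ - 1) = ∑ i ∈ Finset.range ℓ, y ^ i := by
  have hp : ℓ.Prime := Fact.out
  have h1 : ((Polynomial.X - 1 : Polynomial F)) ^ (ℓ - 1) =
      ∑ i ∈ Finset.range ℓ, (Polynomial.X : Polynomial F) ^ i := by
    have h2 : (Polynomial.X - 1 : Polynomial F) ≠ 0 := by
      rw [← Polynomial.C_1]
      exact Polynomial.X_sub_C_ne_zero 1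
    apply mul_left_cancel₀ h2
    rw [mul_geom_sum, ← pow_succ', Nat.sub_add_cancel hp.one_lt.le, sub_pow_char, one_pow]
  have h3 := congrArg (Polynomial.aeval y) h1
  simpa using h3

theorem pow_char {ℓ : ℕ} [Fact ℓ.Prime] [CharP F ℓ] (u : T) (hu : u ^ ℓ = 1) :
    (dl u - 1 : GA F T) ^ ℓ = 0 := by
  have hp : ℓ.Prime := Fact.out
  have h1 : (dl u - 1 : GA F T) ^ ℓ = (dl u - 1) * (dl u - 1) ^ (ℓ - 1) := by
    rw [← pow_succ', Nat.sub_add_cancel hp.one_lt.le]
  rw [h1, geom, mul_geom_sum, dl_pow, hu, dl_one, sub_self]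

section Ker

variable {ℓ : ℕ} [hp : Fact ℓ.Prime] [CharP F ℓ] {π : T →* S} {P₁ : Subgroup T} {u : T}

theorem exists_pow (hP : Nat.card P₁ = ℓ) (hu : u ∈ P₁) (hu1 : u ≠ 1) {x : T} (hx : x ∈ P₁) :
    ∃ i < ℓ, u ^ i = x := by
  have h1 : orderOf u = ℓ := by
    have h2 : orderOf (⟨u, hu⟩ : P₁) ∣ ℓ := by
      rw [← hP]
      exact orderOf_dvd_natCard _
    rw [Subgroup.orderOf_mk] at h2
    rcases (Nat.dvd_prime hp.out).mp h2 with h | h
    · exact absurd (orderOf_eq_one_iff.mp h) hu1
    · exact h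
  have h3 : Subgroup.zpowers u = P₁ := by
    apply Subgroup.eq_of_le_of_card_ge
    · rwa [Subgroup.zpowers_le]
    · rw [Nat.card_zpowers, h1, hP]
  rw [← h3] at hx
  obtain ⟨i, hi⟩ := (mem_powers_iff_mem_zpowers.mpr hx)
  refine ⟨i % ℓ, Nat.mod_lt _ hp.out.pos, ?_⟩
  rw [← hi, ← h1]
  exact pow_mod_orderOf u i

theorem orderOf_eq (hP : Nat.card P₁ = ℓ) (hu : u ∈ P₁) (hu1 : u ≠ 1) : orderOf u = ℓ := by
  have h2 : orderOf (⟨u, hu⟩ : P₁) ∣ ℓ := by
    rw [← hP]
    exact orderOf_dvd_natCard _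
  rw [Subgroup.orderOf_mk] at h2
  rcases (Nat.dvd_prime hp.out).mp h2 with h | h
  · exact absurd (orderOf_eq_one_iff.mp h) hu1
  · exact h

theorem ann (hπ : Function.Surjective π) (hk : π.ker = P₁)
    (hP : Nat.card P₁ = ℓ) (hu : u ∈ P₁) (hu1 : u ≠ 1) (b : GA F T)
    (hb : (dl u - 1) * b = 0) : ∃ b', b = (dl u - 1) ^ (ℓ - 1) * b' := by
  classical
  have h1 : ∀ x, b (u⁻¹ * x) = b x := by
    intro x
    have h := congrFun hb x
    rw [sub_mul, one_mul, sub_apply, dl_mul_apply, zero_apply, sub_eq_zero] at h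
    exact h
  have h2 : ∀ (i : ℕ) x, b ((u ^ i)⁻¹ * x) = b x := by
    intro i
    induction i with
    | zero => intro x; rw [pow_zero, inv_one, one_mul]
    | succ i ih => intro x; rw [pow_succ', mul_inv_rev, mul_assoc, ih, h1]
  let s := Function.surjInv hπ
  have hs : ∀ r, π (s r) = r := Function.surjInv_eq hπ
  have hub : π u = 1 := by
    rw [← MonoidHom.mem_ker, hk]
    exact hu
  let b' : GA F T := fun x => if x = s (π x) then b x else 0
  refine ⟨b', ?_⟩
  rw [geom (ℓ := ℓ)]
  funext x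
  rw [Finset.sum_mul, sum_apply]
  obtain ⟨i, hi, hi'⟩ : ∃ i < ℓ, u ^ i = x * (s (π x))⁻¹ := by
    apply exists_pow hP hu hu1
    rw [← hk, MonoidHom.mem_ker, map_mul, map_inv, hs, mul_inv_cancel]
  rw [Finset.sum_eq_single i]
  · rw [dl_pow, dl_mul_apply]
    change b x = if (u ^ i)⁻¹ * x = s (π ((u ^ i)⁻¹ * x)) then b ((u ^ i)⁻¹ * x) else 0
    rw [h2, if_pos]
    rw [map_mul, map_inv, map_pow, hub, one_pow, inv_one, one_mul, hi']
    group
  · intro j hj hji
    rw [dl_pow, dl_mul_apply]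
    change (if (u ^ j)⁻¹ * x = s (π ((u ^ j)⁻¹ * x)) then b ((u ^ j)⁻¹ * x) else 0) = 0
    rw [if_neg]
    intro h
    rw [map_mul, map_inv, map_pow, hub, one_pow, inv_one, one_mul] at h
    have h3 : u ^ j = u ^ i := by
      rw [hi', ← h]
      group
    have h4 := pow_injOn_Iio_orderOf (x := u)
    rw [orderOf_eq hP hu hu1] at h4
    exact hji (h4 (Set.mem_Iio.mpr (Finset.mem_range.mp hj)) (Set.mem_Iio.mpr hi) h3)
  · intro h
    exact absurd (Finset.mem_range.mpr hi) h

theorem ker (hπ : Function.Surjective π) (hk : π.ker = P₁)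
    (hP : Nat.card P₁ = ℓ) (hu : u ∈ P₁) (hu1 : u ≠ 1) (b : GA F T)
    (hb : psh π b = 0) : ∃ b', b = (dl u - 1) * b' := by
  classical
  let s := Function.surjInv hπ
  have hs : ∀ r, π (s r) = r := Function.surjInv_eq hπ
  have h1 : ∀ x, ∃ i : ℕ, u ^ i = x * (s (π x))⁻¹ := by
    intro x
    obtain ⟨i, _, hi⟩ : ∃ i < ℓ, u ^ i = x * (s (π x))⁻¹ := by
      apply exists_pow hP hu hu1
      rw [← hk, MonoidHom.mem_ker, map_mul, map_inv, hs, mul_inv_cancel]
    exact ⟨i, hi⟩
  choose i hi using h1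
  refine ⟨∑ x, b x • ((∑ j ∈ Finset.range (i x), (dl u) ^ j) * dl (s (π x))), ?_⟩
  have h2 : (∑ x, b x • dl (s (π x)) : GA F T) = 0 := by
    funext w
    rw [sum_apply, zero_apply]
    simp only [smul_apply, dl_apply, mul_ite, mul_one, mul_zero]
    let f : T → F := b
    change (∑ x, if w = s (π x) then f x else 0) = 0
    by_cases hw : w = s (π w)
    · have h3 : ∑ x with π x = π w, f x = 0 := congrFun hb (π w)
      refine Eq.trans ?_ h3
      rw [Finset.sum_filter]
      refine Finset.sum_congr rfl fun x _ => ?_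
      refine if_congr ?_ rfl rfl
      constructor
      · intro h
        rw [h, hs]
      · intro h
        rw [h]
        exact hw
    · refine Finset.sum_eq_zero fun x _ => ?_
      rw [if_neg]
      intro h
      apply hw
      rw [h, hs]
  rw [Finset.mul_sum]
  have h3 : ∀ x, (dl u - 1 : GA F T) *
      (b x • ((∑ j ∈ Finset.range (i x), (dl u) ^ j) * dl (s (π x)))) =
      b x • dl x - b x • dl (s (π x)) := by
    intro x
    rw [mul_smul_comm, ← mul_assoc, mul_geom_sum, sub_mul, one_mul, dl_pow, dl_mul, hi,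
      inv_mul_cancel_right, smul_sub]
  rw [Finset.sum_congr rfl fun x _ => h3 x, Finset.sum_sub_distrib, h2, sub_zero]
  exact eq_sum b

end Ker

/-! ### The direct image is a homomorphism -/

variable (π : T →* S)

/-- The direct image. -/
noncomputable def pp (a : GA F T) : GA F S := psh π a

theorem pp_apply (a : GA F T) (s : S) : pp π a s = ∑ t with π t = s, a t := rfl

theorem pp_add (a b : GA F T) : pp π (a + b) = pp π a + pp π b := by
  funext s
  exact Finset.sum_add_distrib

theorem pp_zero : pp π (0 : GA F T) = 0 := by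
  funext s
  exact Finset.sum_const_zero

theorem pp_smul (r : F) (a : GA F T) : pp π (r • a) = r • pp π a := by
  funext s
  exact (Finset.mul_sum _ _ _).symm

theorem psh_cvF (a b : T → F) : psh π (cvF a b) = cvF (psh π a) (psh π b) := by
  funext s
  change ∑ t with π t = s, ∑ y, a y * b (y⁻¹ * t) = ∑ r, psh π a r * psh π b (r⁻¹ * s)
  rw [Finset.sum_comm]
  have h1 : ∀ y, ∑ t with π t = s, a y * b (y⁻¹ * t) = a y * psh π b ((π y)⁻¹ * s) := by
    intro y
    rw [← Finset.mul_sum]
    congr 1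
    simp only [psh]
    rw [Finset.sum_filter, Finset.sum_filter, ← Equiv.sum_comp (Equiv.mulLeft y)]
    refine Finset.sum_congr rfl fun x _ => ?_
    simp only [Equiv.coe_mulLeft, map_mul, inv_mul_cancel_left]
    exact if_congr eq_inv_mul_iff_mul_eq.symm rfl rfl
  rw [Finset.sum_congr rfl fun y _ => h1 y,
    ← Finset.sum_fiberwise (s := Finset.univ) (g := π)]
  refine Finset.sum_congr rfl fun r _ => ?_
  rw [psh, Finset.sum_mul]
  refine Finset.sum_congr rfl fun y hy => ?_
  rw [(Finset.mem_filter.mp hy).2]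

theorem pp_mul (a b : GA F T) : pp π (a * b) = pp π a * pp π b := psh_cvF π a b

theorem pp_dl (g : T) : pp π (dl g : GA F T) = dl (π g) := by
  classical
  funext s
  refine Eq.trans ?_ (dl_apply (F := F) (π g) s).symm
  refine (Finset.sum_congr rfl fun t _ => dl_apply g t).trans ?_
  rw [Finset.sum_filter, Finset.sum_eq_single g]
  · rw [if_pos rfl]
    by_cases h : π g = s
    · rw [if_pos h, if_pos h.symm]
    · rw [if_neg h, if_neg (Ne.symm h)]
  · intro b _ hb
    rw [if_neg hb, ite_self]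
  · intro h
    exact absurd (Finset.mem_univ _) h

theorem pp_one : pp π (1 : GA F T) = 1 := by
  rw [← dl_one, pp_dl, map_one]
  rfl

/-- The direct image. -/
noncomputable def pR : GA F T →+* GA F S where
  toFun a := pp π a
  map_one' := pp_one π
  map_mul' := pp_mul π
  map_zero' := pp_zero π
  map_add' := pp_add π

theorem pR_apply (a : GA F T) : pR π a = psh π a := rfl

theorem pR_smul (r : F) (a : GA F T) : pR π (r • a) = r • pR π a := pp_smul π r a

theorem pR_surj (hπ : Function.Surjective π) :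
    Function.Surjective (pR (F := F) π) := by
  classical
  intro b
  let f : S → F := b
  refine ⟨fun x => if x = Function.surjInv hπ (π x) then f (π x) else 0, ?_⟩
  funext s
  have hs : π (Function.surjInv hπ s) = s := Function.surjInv_eq hπ s
  change ∑ t with π t = s, (if t = Function.surjInv hπ (π t) then f (π t) else 0) = f s
  rw [Finset.sum_eq_single (Function.surjInv hπ s)]
  · rw [hs, if_pos rfl]
  · intro t ht hts
    rw [(Finset.mem_filter.mp ht).2, if_neg hts]
  · intro h
    exact absurd (Finset.mem_filter.mpr ⟨Finset.mem_univ _, hs⟩ :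
      Function.surjInv hπ s ∈ ({t | π t = s} : Finset T)) h

end Quot

/-! ### The theorem -/

end DIMX

open _root_.Pool.Agent.DPX.DIMX in
theorem DIMX_thm (h1 : Stmt_CENX) : Stmt_DIMX := by
  intro ℓ hp F T S _ _ _ _ _ _ _ π P₁ e hπ hk hPc hP he hee he0 m c E z hN
  let e' : GA F T := e
  let z' : GA F T := z
  let E' : Fin m → Fin m → GA F T := E
  have hec : ∀ b : GA F T, e' * b = b * e' := fun b => cvF_comm he b
  have hzc : ∀ b : GA F T, z' * b = b * z' := fun b => cvF_comm hN.zc b
  have hee' : e' * e' = e' := hee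
  have hze : e' * z' = z' := hN.ze
  have nl : e' * z' ^ c = 0 := hN.nl
  have nn : ∀ k < c, e' * z' ^ k ≠ 0 := hN.nn
  have hc : 0 < c := by
    rcases Nat.eq_zero_or_pos c with h | h
    · exfalso
      obtain ⟨t, ht⟩ := hN.sp e
      rw [h, Finset.range_zero, Finset.sum_empty, hee] at ht
      exact he0 ht
    · exact h
  have key : ∀ u ∈ P₁, u ≠ 1 → ∃ (a : ℕ) (v v' : GA F T), c = ℓ * a ∧ (∀ b, v * b = b * v) ∧
      (∀ b, v' * b = b * v') ∧ e' * v = v ∧ e' * v' = v' ∧ v * v' = e' ∧
      (dl u - 1) * e' = v * z' ^ a := by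
    intro u hu hu1
    have huy : ∀ b : GA F T, (dl u - 1) * b = b * (dl u - 1) := by
      intro b
      have h2 : ∀ b : GA F T, dl u * b = b * dl u := by
        intro b
        funext x
        rw [dl_mul_apply, mul_dl_apply]
        congr 1
        have h3 := Subgroup.mem_center_iff.mp (inv_mem (hPc hu)) x
        exact h3.symm
      rw [sub_mul, mul_sub, h2, one_mul, mul_one]
    have hw : (((dl u - 1) * e' : GA F T) : T → F) ∈ CF F T := by
      rw [cf_iff]
      intro b
      rw [mul_assoc, hec, ← mul_assoc, huy, mul_assoc, huy]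
    have hw' : e' * ((dl u - 1) * e') = (dl u - 1) * e' := by
      rw [hec, mul_assoc, hee']
    obtain ⟨t, ht⟩ := (h1 F T e he hee he0 m c E z hN).2 _ hw hw'
    refine core hp.out.two_le hee' hec hzc huy hze hc nl nn ?_ ?_ t ht
    · apply pow_char
      have h3 : orderOf u = ℓ := orderOf_eq hP hu hu1
      rw [← h3]
      exact pow_orderOf_eq_one u
    · exact ann hπ hk hP hu hu1
  obtain ⟨u, hu, hu1⟩ : ∃ u ∈ P₁, u ≠ 1 := by
    by_contra h
    push Not at h
    have h2 : P₁ = ⊥ := (Subgroup.eq_bot_iff_forall P₁).mpr h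
    rw [h2, Subgroup.card_bot] at hP
    exact hp.out.one_lt.ne hP
  obtain ⟨a, v, v', hca, hv, hv', hev, hev', hvv, hye⟩ := key u hu hu1
  have ha0 : 0 < a := by
    rcases Nat.eq_zero_or_pos a with h | h
    · rw [h, mul_zero] at hca
      omega
    · exact h
  refine ⟨a, hca, ?_, ?_⟩
  · -- the quotient
    have hzcc : z' ^ c = 0 := by
      obtain ⟨d, hd⟩ := Nat.exists_eq_succ_of_ne_zero hc.ne'
      rw [← nl, hd, Nat.succ_eq_add_one, pow_succ', ← mul_assoc, hze]
    have hzk : ∀ (k : ℕ) (b : GA F T), z' ^ k * b = b * z' ^ k := fun k b =>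
      ((show Commute z' b from hzc b).pow_left k)
    have hker : ∀ b : GA F T, pR π b = 0 → e' * b = b → b * z' ^ (c - a) = 0 := by
      intro b hb heb
      obtain ⟨b', hb'⟩ := ker hπ hk hP hu hu1 b hb
      have h2 : b = v * z' ^ a * b' := by
        rw [← hye, mul_assoc, hec, ← mul_assoc, ← hb', ← hec, heb]
      rw [h2, mul_assoc, ← hzk (c - a), ← mul_assoc, mul_assoc v, ← pow_add]
      have h3 : a + (c - a) = c := by
        have : a ≤ c := by
          rw [hca]
          exact Nat.le_mul_of_pos_left a hp.out.pos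
        omega
      rw [h3, hzcc, mul_zero, zero_mul]
    have hac : a ≤ c := by
      rw [hca]
      exact Nat.le_mul_of_pos_left a hp.out.pos
    have hcent : ∀ w : GA F T, (∀ b, w * b = b * w) → ∀ b, pR π w * b = b * pR π w := by
      intro w hw b
      obtain ⟨b₀, rfl⟩ := pR_surj π hπ b
      rw [← map_mul, hw, map_mul]
    have hnl : pR π (e' * z' ^ a) = 0 := by
      have h2 : e' * z' ^ a = v' * ((dl u - 1) * e') := by
        rw [hye, ← mul_assoc, hv', hvv]
      have h3 : pR π (dl u - 1 : GA F T) = 0 := by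
        have hpu : π u = 1 := by
          rw [← MonoidHom.mem_ker, hk]
          exact hu
        have h4 : pR π (dl u : GA F T) = 1 := by
          change pp π (dl u : GA F T) = 1
          rw [pp_dl, hpu, dl_one]
        rw [map_sub, map_one, h4, sub_self]
      rw [h2, map_mul, map_mul, h3, zero_mul, mul_zero]
    have hnn : ∀ k < a, pR π (e' * z' ^ k) ≠ 0 := by
      intro k hk' h0
      have h2 := hker _ h0 (by rw [← mul_assoc, hee'])
      rw [mul_assoc, ← pow_add] at h2
      exact nn _ (by omega) h2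
    have hbig : ∀ k, a ≤ k → ∀ b : GA F S, pR π e' * (pR π z' ^ k * b) = 0 := by
      intro k hk' b
      have h2 : pR π e' * pR π z' ^ a = 0 := by rw [← map_pow, ← map_mul, hnl]
      rw [← Nat.add_sub_cancel' hk', pow_add, mul_assoc, ← mul_assoc, h2, zero_mul]
    have hEe : ∀ i j, e' * E' i j = E i j := by
      intro i j
      have h2 : e' = ∑ l, E' l l := hN.on.symm
      rw [h2, Finset.sum_mul, Finset.sum_eq_single i]
      · refine (hN.mu i i i j).trans ?_
        rw [if_pos rfl]
      · intro l _ hl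
        refine (hN.mu l l i j).trans ?_
        rw [if_neg hl]
        rfl
      · intro h
        exact absurd (Finset.mem_univ _) h
    have hpe : (psh π e : S → F) ∈ CF F S := cf_iff.mpr (hcent e' hec)
    have hNB : NilB (psh π e) m a (fun i j => psh π (E i j)) (psh π z) := by
      refine ⟨?_, ?_, ?_, ?_, ?_, ?_, ?_⟩
      · intro i j k l
        rw [← psh_cvF, hN.mu]
        by_cases hjk : j = k
        · rw [if_pos hjk, if_pos hjk]
        · rw [if_neg hjk, if_neg hjk]
          exact pp_zero π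
      · have h2 : pR π (∑ i, E' i i) = pR π e' := congrArg (pR π) hN.on
        rw [map_sum] at h2
        exact h2
      · exact cf_iff.mpr (hcent z' hzc)
      · exact (psh_cvF π e z).symm.trans (congrArg (psh π) hN.ze)
      · intro b₁
        let b : GA F S := b₁
        obtain ⟨b₀, hb₀⟩ := pR_surj (F := F) π hπ b
        obtain ⟨t, ht⟩ := hN.sp b₀
        refine ⟨t, ?_⟩
        have h2 : (e' * b₀ : GA F T) =
            ∑ k ∈ Finset.range c, ∑ i, ∑ j, t k i j • (z' ^ k * E' i j) := ht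
        have h3 : pR π e' * b = ∑ k ∈ Finset.range c, ∑ i, ∑ j,
            t k i j • (pR π z' ^ k * pR π (E' i j)) := by
          rw [← hb₀, ← map_mul, h2]
          simp only [map_sum, pR_smul, map_mul, map_pow]
        have h4 : ∑ k ∈ Finset.range c, ∑ i, ∑ j,
            t k i j • (pR π z' ^ k * pR π (E' i j)) =
            ∑ k ∈ Finset.range a, ∑ i, ∑ j,
            t k i j • (pR π z' ^ k * pR π (E' i j)) := by
          symm
          refine Finset.sum_subset (Finset.range_subset_range.mpr hac) fun k _ hk' => ?_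
          rw [Finset.mem_range, not_lt] at hk'
          refine Finset.sum_eq_zero fun i _ => Finset.sum_eq_zero fun j _ => ?_
          have h5 : pR π z' ^ k * pR π (E' i j) =
              pR π e' * (pR π z' ^ k * pR π (E' i j)) := by
            rw [← map_pow, ← map_mul, ← map_mul, ← mul_assoc, hec, mul_assoc, hEe]
          rw [h5, hbig k hk', smul_zero]
        exact h3.trans h4
      · have h2 : pR π e' * pR π z' ^ a = 0 := by rw [← map_pow, ← map_mul, hnl]
        exact h2
      · intro k hk'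
        have h2 : pR π e' * pR π z' ^ k ≠ 0 := by
          rw [← map_pow, ← map_mul]
          exact hnn k hk'
        exact h2
    have hpi : cvF (psh π e) (psh π e) = psh π e := by rw [← psh_cvF, hee]
    have hp0 : psh π e ≠ 0 := by
      intro h0
      apply hnn 0 ha0
      rw [pow_zero, mul_one]
      exact h0
    exact (h1 F S (psh π e) hpe hpi hp0 m a _ _ hNB).1
  · intro u' hu' hu1'
    obtain ⟨a', w, w', hca', hw, hw', hew, hew', hww, hye'⟩ := key u' hu' hu1'
    have haa : a' = a := Nat.eq_of_mul_eq_mul_left hp.out.pos (hca' ▸ hca)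
    rw [haa] at hye'
    refine ⟨w, cf_iff.mpr hw, hew, ⟨w', cf_iff.mpr hw', hww⟩, fun x => ?_⟩
    have h2 := congrFun hye' x
    rw [sub_mul, one_mul, DIMX.sub_apply, dl_mul_apply] at h2
    exact h2

end Pool.Agent.DPX


end
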