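import Mathlib
import Pool.Agent.DAM.C04
import Pool.Agent.DAM.C08
import Pool.Agent.DAM.C11

/-! Parts: DP.StmtsQ, DP.QB, DP.QC, DP.BLKC, DP.QN, DP.QL -/

section

/-!
# Dade's conjecture for extensions of `G ^ Ω`: statements of the modules (stage 3)
-/

namespace Pool.Agent.DP

open Pool.Agent.Lib_helper13 Representation
open Pool.Agent.Lib_helper13.Dade (pCore DadeHolds dadeSum)

open Classical in
/-- Normal chains: every member normalizes every member. -/
noncomputable def NCh {X : Type*} [Group X] [Fintype X] (ℓ : ℕ) (Z : Subgroup X) :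
    Finset (Finset (Subgroup X)) :=
  (Ch ℓ Z).filter (fun σ => ∀ D ∈ σ, D ≤ stb σ)

/-- QA: a group acting on a normal subgroup `G ^ Ω` by permutations of the coordinates and inner
automorphisms is a quotient of `G ^ Ω ⋊ R` by a normal subgroup of order prime to `ℓ`. -/
def Stmt_QA : Prop :=
  ∀ (Γ Ω G : Type) [Group Γ] [Finite Γ] [Finite Ω] [Group G] [Finite G] (ℓ : ℕ) [Fact ℓ.Prime],
    pCore ℓ G = ⊥ → Nontrivial G → ∀ e : (Ω → G) →* Γ, Function.Injective e →
    (∀ γ : Γ, ∃ (s : Equiv.Perm Ω) (n : Ω → G), ∀ x : Ω → G,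
      γ * e x * γ⁻¹ = e (fun i => n i * x (s i) * (n i)⁻¹)) →
    ∃ (R : Type) (_ : Group R) (_ : Finite R) (_ : MulAction R Ω) (p : Gam R Ω G →* Γ),
      Function.Surjective p ∧ (∀ n, p (iN R Ω G n) = e n) ∧ ¬ ℓ ∣ Nat.card p.ker ∧
      (pCore ℓ (Gam R Ω G)).map p = pCore ℓ Γ

/-- QN: restriction to normal chains. -/
def Stmt_QN : Prop :=
  ∀ (X : Type) [Group X] [Fintype X] (ℓ : ℕ) [Fact ℓ.Prime] (Z : Subgroup X)
    (W : Subgroup X → ℚ),
    ∑ σ ∈ Ch ℓ Z, (-1 : ℚ) ^ σ.card * W (stb σ) =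
      ∑ σ ∈ NCh ℓ Z, (-1 : ℚ) ^ σ.card * W (stb σ)

/-- QC: chains of a quotient by a normal subgroup of order prime to `ℓ`. -/
def Stmt_QC : Prop :=
  ∀ (X Y : Type) [Group X] [Fintype X] [Group Y] [Fintype Y] (ℓ : ℕ) [Fact ℓ.Prime]
    (p : X →* Y), Function.Surjective p → ¬ ℓ ∣ Nat.card p.ker →
    ∀ (Z : Subgroup X) [Z.Normal], IsPGroup ℓ Z →
    (∀ σ, IsCh ℓ Z σ → (stb σ).map p = stb (mapCh p σ)) ∧
    ∀ w : Finset (Subgroup Y) → ℚ,
      ∑ σ ∈ NCh ℓ Z, (-1 : ℚ) ^ σ.card * (Nat.card (stb σ) * w (mapCh p σ)) =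
        (Nat.card p.ker : ℚ) *
          ∑ σ ∈ NCh ℓ (Z.map p), (-1 : ℚ) ^ σ.card * (Nat.card (stb σ) * w σ)

/-- QB: blocks of a quotient by a normal subgroup of order prime to `ℓ`. -/
def Stmt_QB : Prop :=
  ∀ (X Y : Type) [Group X] [Fintype X] [Group Y] [Fintype Y]
    (𝔐 : Ideal (integralClosure ℤ ℂ)) (ℓ : ℕ) [Fact ℓ.Prime], 𝔐.IsMaximal →
    (ℓ : integralClosure ℤ ℂ) ∈ 𝔐 → ∀ p : X →* Y, Function.Surjective p →
    ¬ ℓ ∣ Nat.card p.ker → ∀ S Q : Subgroup X, IsPGroup ℓ Q → Q ≤ S →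
    (∀ s ∈ S, Q.map (MulAut.conj s).toMonoidHom = Q) →
    (∀ x, (∀ q ∈ Q, x * q = q * x) → x ∈ S) → ∀ (χ : Y → ℂ) (d : ℕ), IsIrr χ →
      cnt 𝔐 ℓ d S.subtype (cen 𝔐 (MonoidHom.id X) (fun x => χ (p x))) =
        cnt 𝔐 ℓ d (S.map p).subtype (cen 𝔐 (MonoidHom.id Y) χ)

/-- QL: Dade's sums of a quotient by a normal subgroup of order prime to `ℓ`. -/
def Stmt_QL : Prop :=
  ∀ (X Y : Type) [Group X] [Fintype X] [Group Y] [Fintype Y]
    (𝔐 : Ideal (integralClosure ℤ ℂ)) (ℓ : ℕ) [Fact ℓ.Prime], 𝔐.IsMaximal →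
    (ℓ : integralClosure ℤ ℂ) ∈ 𝔐 → ∀ p : X →* Y, Function.Surjective p →
    ¬ ℓ ∣ Nat.card p.ker → (pCore ℓ X).map p = pCore ℓ Y →
    ∀ (χ : Y → ℂ) (d : ℕ), IsIrr χ →
      dadeSum 𝔐 ℓ (fun x => χ (p x)) d = dadeSum 𝔐 ℓ χ d

end Pool.Agent.DP


end

section

/-!
# QB: blocks of a quotient by a normal subgroup of order prime to `ℓ`
-/

set_option autoImplicit false
set_option linter.unusedSectionVars false

namespace Pool.Agent.DP

open Pool.Agent.Lib_helper13 Representation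

namespace QB

section Infl

variable {S T : Type*} [Group S] [Fintype S] [Group T] [Fintype T]

/-- Inflation of irreducible characters. -/
theorem infl {π : S →* T} (hπ : Function.Surjective π) {ψ : T → ℂ} (hψ : IsIrr ψ) :
    IsIrr (fun s => ψ (π s)) := by
  classical
  apply (hψ.isChr.comp π).isIrr
  have h1 : ∀ g : S, ψ (π g) * ψ (π g⁻¹) = (fun t => ψ t * ψ t⁻¹) (π g) := by
    intro g
    simp only [map_inv]
  simp only [h1]
  have h2 : ∀ t : T, (Finset.univ.filter (fun s => π s = t)).card = Nat.card π.ker := by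
    intro t
    obtain ⟨s, rfl⟩ := hπ t
    rw [← Fintype.card_subtype, ← Nat.card_eq_fintype_card]
    refine Nat.card_congr ⟨fun x => ⟨s⁻¹ * x.1, ?_⟩, fun x => ⟨s * x.1, ?_⟩, ?_, ?_⟩
    · rw [MonoidHom.mem_ker, map_mul, x.2, map_inv, inv_mul_cancel]
    · rw [map_mul, MonoidHom.mem_ker.mp x.2, mul_one]
    · intro x
      simp
    · intro x
      simp
  have h3 : ∑ g : S, (fun t => ψ t * ψ t⁻¹) (π g) =
      ∑ t : T, ∑ g ∈ Finset.univ.filter (fun s => π s = t), (fun t => ψ t * ψ t⁻¹) (π g) :=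
    (Finset.sum_fiberwise Finset.univ π _).symm
  rw [h3]
  have h4 : ∀ t : T, ∑ g ∈ Finset.univ.filter (fun s => π s = t),
      (fun t => ψ t * ψ t⁻¹) (π g) = Nat.card π.ker * (ψ t * ψ t⁻¹) := by
    intro t
    rw [← h2 t, ← nsmul_eq_mul, ← Finset.sum_const]
    refine Finset.sum_congr rfl fun g hg => ?_
    rw [(Finset.mem_filter.mp hg).2]
  simp only [h4]
  rw [← Finset.mul_sum, hψ.sum_self]
  have h5 : Nat.card π.ker * Nat.card T = Nat.card S := by
    have h6 := Subgroup.card_mul_index π.ker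
    rw [Subgroup.index_ker, MonoidHom.range_eq_top.mpr hπ] at h6
    rw [← h6, Subgroup.card_top]
  rw [← h5]
  push_cast
  rfl

theorem card_eq {π : S →* T} (hπ : Function.Surjective π) :
    Nat.card π.ker * Nat.card T = Nat.card S := by
  have h6 := Subgroup.card_mul_index π.ker
  rw [Subgroup.index_ker, MonoidHom.range_eq_top.mpr hπ] at h6
  rw [← h6, Subgroup.card_top]

theorem defect {π : S →* T} (hπ : Function.Surjective π) {ℓ : ℕ} [Fact ℓ.Prime]
    (hℓ : ¬ ℓ ∣ Nat.card π.ker) (ψ : T → ℂ) (d : ℕ) :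
    Lib_helper13.HasDefect ℓ (fun s => ψ (π s)) d ↔ Lib_helper13.HasDefect ℓ ψ d := by
  unfold Lib_helper13.HasDefect
  simp only [map_one]
  rw [← card_eq hπ, padicValNat.mul Nat.card_pos.ne' Nat.card_pos.ne',
    padicValNat.eq_zero_of_not_dvd hℓ, zero_add]

/-- A character whose sum over a normal subgroup is nonzero is constant on its cosets. -/
theorem defl {π : S →* T} (hπ : Function.Surjective π) {θ : S → ℂ} (hθ : IsIrr θ)
    (h0 : ∑ n : π.ker, θ n ≠ 0) : ∃ ψ : T → ℂ, IsIrr ψ ∧ ∀ s, θ s = ψ (π s) := by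
  classical
  obtain ⟨n, ρ, hρ, rfl⟩ := hθ
  have : ρ.IsIrreducible := hρ
  set e : (Fin n → ℂ) →ₗ[ℂ] (Fin n → ℂ) := ∑ k : π.ker, ρ k with he
  obtain ⟨c, hc⟩ := exists_scalar ρ hρ e (by
    intro g x
    rw [he, LinearMap.sum_apply, LinearMap.sum_apply, map_sum]
    refine Fintype.sum_equiv (MulAut.conjNormal (H := π.ker) g⁻¹).toEquiv _ _ ?_
    intro k
    have h1 : (((MulAut.conjNormal (H := π.ker) g⁻¹).toEquiv k : π.ker) : S) =
        g⁻¹ * (k : S) * g := by
      change ((MulAut.conjNormal g⁻¹ k : π.ker) : S) = _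
      rw [MulAut.conjNormal_apply, inv_inv]
    rw [h1, ← Module.End.mul_apply, ← Module.End.mul_apply, ← map_mul, ← map_mul]
    congr 2
    group)
  have hc0 : c ≠ 0 := by
    rintro rfl
    apply h0
    rw [zero_smul] at hc
    have h1 := congrArg (LinearMap.trace ℂ (Fin n → ℂ)) hc
    rw [he, map_sum, map_zero] at h1
    exact h1
  have hk : ∀ k ∈ π.ker, ρ k = 1 := by
    intro k hk
    have h1 : ρ k * e = e := by
      rw [he, Finset.mul_sum]
      refine Fintype.sum_equiv (Equiv.mulLeft (⟨k, hk⟩ : π.ker)) _ _ ?_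
      intro x
      rw [← map_mul]
      rfl
    rw [hc] at h1
    have h2 : c • ρ k = c • (1 : (Fin n → ℂ) →ₗ[ℂ] (Fin n → ℂ)) := by
      have h3 : ρ k * c • (LinearMap.id : (Fin n → ℂ) →ₗ[ℂ] (Fin n → ℂ)) = c • ρ k := by
        rw [mul_smul_comm]
        congr 1
      rw [← h3, h1]
      rfl
    exact smul_right_injective _ hc0 h2
  have hdep : ∀ x y : S, π x = π y → ρ x = ρ y := by
    intro x y hxy
    have h1 : ρ (x * y⁻¹) = 1 := hk _ (by
      rw [MonoidHom.mem_ker, map_mul, map_inv, hxy, mul_inv_cancel])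
    have h2 : x = (x * y⁻¹) * y := by group
    rw [h2, map_mul, h1, one_mul]
  let σ : Representation ℂ T (Fin n → ℂ) :=
    { toFun := fun t => ρ (Function.surjInv hπ t)
      map_one' := by
        rw [hdep _ 1 (by rw [Function.surjInv_eq hπ, map_one]), map_one]
      map_mul' := by
        intro a b
        rw [← map_mul]
        apply hdep
        rw [Function.surjInv_eq hπ, map_mul, Function.surjInv_eq hπ, Function.surjInv_eq hπ] }
  have hσ : ∀ s, ρ.character s = σ.character (π s) := by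
    intro s
    have h1 : σ (π s) = ρ s := hdep _ _ (Function.surjInv_eq hπ _)
    change LinearMap.trace ℂ _ (ρ s) = LinearMap.trace ℂ _ (σ (π s))
    rw [h1]
  refine ⟨σ.character, ?_, hσ⟩
  apply isIrr_of_rep_sum
  have h1 := sum_char_self ρ
  have h2 : ∑ g : S, ρ.character g * ρ.character g⁻¹ =
      Nat.card π.ker * ∑ t : T, σ.character t * σ.character t⁻¹ := by
    have h3 : ∀ g : S, ρ.character g * ρ.character g⁻¹ =
        (fun t => σ.character t * σ.character t⁻¹) (π g) := by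
      intro g
      simp only [hσ, map_inv]
    simp only [h3]
    rw [← Finset.sum_fiberwise Finset.univ π, Finset.mul_sum]
    refine Finset.sum_congr rfl fun t _ => ?_
    have h4 : (Finset.univ.filter (fun s => π s = t)).card = Nat.card π.ker := by
      obtain ⟨s, rfl⟩ := hπ t
      rw [← Fintype.card_subtype, ← Nat.card_eq_fintype_card]
      refine Nat.card_congr ⟨fun x => ⟨s⁻¹ * x.1, ?_⟩, fun x => ⟨s * x.1, ?_⟩, ?_, ?_⟩
      · rw [MonoidHom.mem_ker, map_mul, x.2, map_inv, inv_mul_cancel]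
      · rw [map_mul, MonoidHom.mem_ker.mp x.2, mul_one]
      · intro x
        simp
      · intro x
        simp
    rw [← h4, ← nsmul_eq_mul, ← Finset.sum_const]
    refine Finset.sum_congr rfl fun g hg => ?_
    rw [(Finset.mem_filter.mp hg).2]
  rw [h1, ← card_eq hπ] at h2
  push_cast at h2
  exact (mul_left_cancel₀ natCard_ne_zero h2).symm

/-- The sum of a function over the fibres. -/
noncomputable def push (π : S →* T) (f : S → ℂ) (t : T) : ℂ :=
  open Classical in ∑ s ∈ Finset.univ.filter (fun s => π s = t), f s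

theorem push_eq [DecidableEq T] (π : S →* T) (f : S → ℂ) (t : T) :
    push π f t = ∑ s ∈ Finset.univ.filter (fun s => π s = t), f s := by
  unfold push
  congr

theorem wt_push (π : S →* T) (ψ : T → ℂ) (f : S → ℂ) :
    wt (fun s => ψ (π s)) f = wt ψ (push π f) := by
  classical
  unfold wt
  simp only [map_one]
  congr 1
  rw [← Finset.sum_fiberwise Finset.univ π]
  refine Finset.sum_congr rfl fun t _ => ?_
  rw [push, Finset.sum_mul]
  refine Finset.sum_congr (by congr) fun g hg => ?_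
  rw [(Finset.mem_filter.mp hg).2]

theorem push_class {π : S →* T} (hπ : Function.Surjective π) {f : S → ℂ}
    (hf : ∀ g x, f (g * x * g⁻¹) = f x) (g x : T) : push π f (g * x * g⁻¹) = push π f x := by
  classical
  obtain ⟨h, rfl⟩ := hπ g
  rw [push, push]
  refine Finset.sum_bij' (fun s _ => h⁻¹ * s * h) (fun s _ => h * s * h⁻¹) ?_ ?_ ?_ ?_ ?_
  · intro s hs
    rw [Finset.mem_filter] at hs ⊢
    refine ⟨Finset.mem_univ _, ?_⟩
    rw [map_mul, map_mul, hs.2, map_inv]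
    group
  · intro s hs
    rw [Finset.mem_filter] at hs ⊢
    refine ⟨Finset.mem_univ _, ?_⟩
    rw [map_mul, map_mul, hs.2, map_inv]
  · intro s _
    group
  · intro s _
    group
  · intro s _
    have h1 := hf h (h⁻¹ * s * h)
    rw [← h1]
    congr 1
    group

theorem push_int (π : S →* T) {f : S → ℂ} (hi : ∀ x, IsIntegral ℤ (f x)) (t : T) :
    IsIntegral ℤ (push π f t) :=
  isIntegral_sum _ _ fun s _ => hi s

theorem push_comp {π : S →* T} (hπ : Function.Surjective π) (h : T → ℂ) (t : T) :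
    push π (fun s => h (π s)) t = Nat.card π.ker * h t := by
  classical
  have h2 : (Finset.univ.filter (fun s => π s = t)).card = Nat.card π.ker := by
    obtain ⟨s, rfl⟩ := hπ t
    rw [← Fintype.card_subtype, ← Nat.card_eq_fintype_card]
    refine Nat.card_congr ⟨fun x => ⟨s⁻¹ * x.1, ?_⟩, fun x => ⟨s * x.1, ?_⟩, ?_, ?_⟩
    · rw [MonoidHom.mem_ker, map_mul, x.2, map_inv, inv_mul_cancel]
    · rw [map_mul, MonoidHom.mem_ker.mp x.2, mul_one]
    · intro x
      simp
    · intro x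
      simp
  rw [push, ← h2, ← nsmul_eq_mul, ← Finset.sum_const]
  refine Finset.sum_congr (by congr) fun g hg => ?_
  rw [(Finset.mem_filter.mp hg).2]

end Infl

section Main

variable {X Y : Type} [Group X] [Fintype X] [Group Y] [Fintype Y]
  (𝔐 : Ideal (integralClosure ℤ ℂ)) {ℓ : ℕ} [Fact ℓ.Prime]

/-- The sums over the fibres in `X` and in `S` agree modulo `𝔐` over the centralizer of the image
of `Q`. -/
theorem red_push (hℓ : (ℓ : integralClosure ℤ ℂ) ∈ 𝔐) (p : X →* Y) (S Q : Subgroup X)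
    (hQ : IsPGroup ℓ Q) (hQS : Q ≤ S) (hC : ∀ x, (∀ q ∈ Q, x * q = q * x) → x ∈ S)
    {f : X → ℂ} (hf : ∀ g x, f (g * x * g⁻¹) = f x) (hi : ∀ x, IsIntegral ℤ (f x))
    (t : S.map p) (ht : ∀ q ∈ Q, p q * t = t * p q) :
    red 𝔐 (push (p.subgroupMap S) (fun s : S => f s) t) = red 𝔐 (push p f t) := by
  classical
  rw [push_eq, push_eq, red_sum 𝔐 _ _ (fun i _ => hi _), red_sum 𝔐 _ _ (fun i _ => hi _)]
  -- split the fibre
  rw [← Finset.sum_filter_add_sum_filter_not (Finset.univ.filter (fun x => p x = (t : Y)))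
    (fun x => x ∈ S)]
  have h1 : ∑ x ∈ (Finset.univ.filter (fun x => p x = (t : Y))).filter (fun x => ¬ x ∈ S),
      red 𝔐 (f x) = 0 := by
    -- the action of `Q` on the rest
    let Z := {x : X // p x = (t : Y) ∧ x ∉ S}
    have hZ : ∀ (q : Q) (x : X), p x = (t : Y) ∧ x ∉ S →
        p ((q : X) * x * (q : X)⁻¹) = (t : Y) ∧ (q : X) * x * (q : X)⁻¹ ∉ S := by
      intro q x hx
      constructor
      · rw [map_mul, map_mul, hx.1, ht q q.2, map_inv]
        group
      · intro h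
        apply hx.2
        have h2 : x = (q : X)⁻¹ * ((q : X) * x * (q : X)⁻¹) * q := by group
        rw [h2]
        exact mul_mem (mul_mem (inv_mem (hQS q.2)) h) (hQS q.2)
    let _ : MulAction Q Z :=
      { smul := fun q x => ⟨(q : X) * x.1 * (q : X)⁻¹, hZ q x.1 x.2⟩
        one_smul := fun x => Subtype.ext (by
          change ((1 : Q) : X) * x.1 * ((1 : Q) : X)⁻¹ = x.1
          simp)
        mul_smul := fun a b x => Subtype.ext (by
          change ((a * b : Q) : X) * x.1 * ((a * b : Q) : X)⁻¹ =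
            (a : X) * ((b : X) * x.1 * (b : X)⁻¹) * (a : X)⁻¹
          push_cast
          group) }
    have h2 := sum_eq_sum_fixed (X := Z) hQ (fun m => nsmul_quot_eq_zero 𝔐 hℓ m)
      (fun x => red 𝔐 (f x.1)) (by
        intro q x
        change red 𝔐 (f ((q : X) * x.1 * (q : X)⁻¹)) = _
        rw [hf])
    have h3 : Finset.univ.filter (fun x : Z => ∀ q : Q, q • x = x) = ∅ := by
      rw [Finset.filter_eq_empty_iff]
      intro x _ hx
      apply x.2.2
      apply hC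
      intro q hq
      have h4 := congrArg Subtype.val (hx ⟨q, hq⟩)
      change q * x.1 * q⁻¹ = x.1 at h4
      rw [mul_inv_eq_iff_eq_mul] at h4
      exact h4.symm
    rw [h3, Finset.sum_empty] at h2
    rw [Finset.filter_filter, ← h2]
    rw [← Finset.sum_subtype_eq_sum_filter]
    refine Finset.sum_congr ?_ fun x _ => rfl
    ext x
    simp
  rw [h1, add_zero, Finset.filter_filter]
  refine Finset.sum_bij' (fun s _ => (s : X)) (fun x hx => ⟨x, (Finset.mem_filter.mp hx).2.2⟩)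
    ?_ ?_ ?_ ?_ ?_
  · intro s hs
    rw [Finset.mem_filter] at hs ⊢
    exact ⟨Finset.mem_univ _, congrArg Subtype.val hs.2, s.2⟩
  · intro x hx
    rw [Finset.mem_filter] at hx ⊢
    exact ⟨Finset.mem_univ _, Subtype.ext hx.2.1⟩
  · intro s _
    rfl
  · intro x _
    rfl
  · intro s _
    rfl

/-- Weights of an inflated character of `S` against a class function of `X`. -/
theorem red_wt_push [h𝔐 : 𝔐.IsPrime] (hℓ : (ℓ : integralClosure ℤ ℂ) ∈ 𝔐) {p : X →* Y}
    (hp : Function.Surjective p) (S Q : Subgroup X)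
    (hQ : IsPGroup ℓ Q) (hQS : Q ≤ S) (hN : ∀ s ∈ S, Q.map (MulAut.conj s).toMonoidHom = Q)
    (hC : ∀ x, (∀ q ∈ Q, x * q = q * x) → x ∈ S)
    {f : X → ℂ} (hf : ∀ g x, f (g * x * g⁻¹) = f x) (hi : ∀ x, IsIntegral ℤ (f x))
    {ψ : S.map p → ℂ} (hψ : IsIrr ψ) :
    red 𝔐 (wt (fun s => ψ (p.subgroupMap S s)) (fun s : S => f s)) =
      red 𝔐 (wt ψ (fun t => push p f t)) := by
  rw [wt_push (p.subgroupMap S) ψ]
  let Q' : Subgroup (S.map p) := (Q.map p).subgroupOf (S.map p)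
  have hQ'n : Q'.Normal := by
    constructor
    rintro y hy ⟨g, hg⟩
    rw [Subgroup.mem_subgroupOf] at hy ⊢
    obtain ⟨q, hq, hqy⟩ := hy
    obtain ⟨s, hs, rfl⟩ := hg
    refine ⟨s * q * s⁻¹, ?_, ?_⟩
    · have h1 : s * q * s⁻¹ ∈ Q.map (MulAut.conj s).toMonoidHom := ⟨q, hq, rfl⟩
      rw [hN s hs] at h1
      exact h1
    · rw [map_mul, map_mul, map_inv, hqy]
      rfl
  have hle : Q.map p ≤ S.map p := Subgroup.map_mono hQS
  have hQ'p : IsPGroup ℓ Q' :=
    (hQ.map p).of_injective ((Subgroup.subgroupOfEquivOfLe hle).toMonoidHom)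
      (Subgroup.subgroupOfEquivOfLe hle).injective
  apply red_wt_eq 𝔐 hℓ hψ Q' hQ'p
  · intro g x
    apply push_class (p.subgroupMap_surjective S)
    intro g x
    exact hf g x
  · intro y
    exact push_int (f := fun s : S => f s) _ (fun s => hi s) y
  · intro g x
    exact push_class hp hf g x
  · intro y
    exact push_int p hi y
  · intro y hy
    apply red_push 𝔐 hℓ p S Q hQ hQS hC hf hi y
    intro q hq
    have h1 := hy ⟨p q, hle (Subgroup.mem_map_of_mem p hq)⟩ (by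
      rw [Subgroup.mem_subgroupOf]
      exact Subgroup.mem_map_of_mem p hq)
    exact congrArg Subtype.val h1

theorem conjInd_class {G : Type*} [Group G] (x₀ g x : G) :
    conjInd (g * x * g⁻¹) x₀ = conjInd x x₀ := conjInd_conj g x x₀

/-- The central functions of `ψ ∘ p` and `χ ∘ p` agree if and only if those of `ψ` and `χ` do. -/
theorem cen_iff [h𝔐 : 𝔐.IsPrime] (hℓ : (ℓ : integralClosure ℤ ℂ) ∈ 𝔐) {p : X →* Y}
    (hp : Function.Surjective p) (hk : ¬ ℓ ∣ Nat.card p.ker) (S Q : Subgroup X)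
    (hQ : IsPGroup ℓ Q) (hQS : Q ≤ S) (hN : ∀ s ∈ S, Q.map (MulAut.conj s).toMonoidHom = Q)
    (hC : ∀ x, (∀ q ∈ Q, x * q = q * x) → x ∈ S) {χ : Y → ℂ} (hχ : IsIrr χ)
    {ψ : S.map p → ℂ} (hψ : IsIrr ψ) :
    (∀ g, cen 𝔐 S.subtype (fun s => ψ (p.subgroupMap S s)) g =
      cen 𝔐 (MonoidHom.id X) (fun x => χ (p x)) g) ↔
    ∀ g, cen 𝔐 (S.map p).subtype ψ g = cen 𝔐 (MonoidHom.id Y) χ g := by
  have hψ' : IsIrr (fun s => ψ (p.subgroupMap S s)) := infl (p.subgroupMap_surjective S) hψ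
  have hχ' : IsIrr (fun x => χ (p x)) := infl hp hχ
  constructor
  · intro h g
    have h0 : cen 𝔐 S.subtype (fun s => ψ (p.subgroupMap S s)) =
      cen 𝔐 (MonoidHom.id X) (fun x => χ (p x)) := funext h
    have hf : ∀ a x : X, conjInd (p (a * x * a⁻¹)) g = conjInd (p x) g := by
      intro a x
      rw [map_mul, map_mul, map_inv, conjInd_conj]
    have hi : ∀ x : X, IsIntegral ℤ (conjInd (p x) g) := fun x => isIntegral_conjInd _ _
    have h1 := red_wt_eq_pair 𝔐 S.subtype hψ' (fun x => conjInd (p x) g) hf hi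
    have h2 := red_wt_eq_pair 𝔐 (MonoidHom.id X) hχ' (fun x => conjInd (p x) g) hf hi
    rw [h0, ← h2] at h1
    have h3 := red_wt_push 𝔐 hℓ hp S Q hQ hQS hN hC hf hi hψ
    have h4 : (fun t : S.map p => push p (fun x => conjInd (p x) g) t) =
        fun t : S.map p => (Nat.card p.ker : ℂ) * conjInd (t : Y) g := by
      ext t
      exact push_comp hp (fun y => conjInd y g) t
    have h5 : wt (fun x => χ (p x)) (fun x => conjInd (p (MonoidHom.id X x)) g) =
        Nat.card p.ker * wt χ (fun y => conjInd (MonoidHom.id Y y) g) := by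
      change wt (fun x => χ (p x)) (fun x => conjInd (p x) g) = _
      rw [wt_push p χ, ← wt_smul]
      congr 1
      ext y
      exact push_comp hp (fun y => conjInd y g) y
    rw [h4, wt_smul] at h3
    rw [h5] at h1
    have h6 : red 𝔐 ((Nat.card p.ker : ℂ) * wt ψ (fun t => conjInd (t : Y) g)) =
        red 𝔐 ((Nat.card p.ker : ℂ) * wt χ (fun y => conjInd (MonoidHom.id Y y) g)) :=
      h3.symm.trans h1
    have i1 : IsIntegral ℤ (wt ψ (fun t => conjInd (t : Y) g)) := by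
      apply isIntegral_wt hψ
      · intro a x
        exact conjInd_conj (a : Y) (x : Y) g
      · intro x
        exact isIntegral_conjInd _ _
    have i2 : IsIntegral ℤ (wt χ (fun y => conjInd (MonoidHom.id Y y) g)) := by
      apply isIntegral_wt hχ
      · intro a x
        exact conjInd_conj a x g
      · intro x
        exact isIntegral_conjInd _ _
    rw [red_mul 𝔐 (Lib_helper13.isIntegral_natCast _) i1,
      red_mul 𝔐 (Lib_helper13.isIntegral_natCast _) i2] at h6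
    exact mul_left_cancel₀ (red_card_ne_zero 𝔐 hℓ hk) h6
  · intro h g
    have h0 : cen 𝔐 (S.map p).subtype ψ = cen 𝔐 (MonoidHom.id Y) χ := funext h
    have hf : ∀ a x : X, conjInd (a * x * a⁻¹) g = conjInd x g := fun a x => conjInd_conj a x g
    have hi : ∀ x : X, IsIntegral ℤ (conjInd x g) := fun x => isIntegral_conjInd _ _
    have h3 := red_wt_push 𝔐 hℓ hp S Q hQ hQS hN hC hf hi hψ
    have h1 := red_wt_eq_pair 𝔐 (S.map p).subtype hψ (push p (fun x => conjInd x g))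
      (push_class hp hf) (push_int p hi)
    have h2 := red_wt_eq_pair 𝔐 (MonoidHom.id Y) hχ (push p (fun x => conjInd x g))
      (push_class hp hf) (push_int p hi)
    rw [h0, ← h2] at h1
    change red 𝔐 (wt (fun s => ψ (p.subgroupMap S s)) (fun s : S => conjInd (s : X) g)) =
      red 𝔐 (wt (fun x => χ (p x)) (fun x => conjInd x g))
    rw [h3, wt_push p χ]
    exact h1

/-- A character of `S` with the central function of an inflated character is inflated. -/
theorem exists_defl [h𝔐 : 𝔐.IsPrime] (hℓ : (ℓ : integralClosure ℤ ℂ) ∈ 𝔐) {p : X →* Y}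
    (hp : Function.Surjective p) (hk : ¬ ℓ ∣ Nat.card p.ker) (S : Subgroup X) {χ : Y → ℂ}
    (hχ : IsIrr χ) {θ : S → ℂ} (hθ : IsIrr θ) (hcen : ∀ g, cen 𝔐 S.subtype θ g =
      cen 𝔐 (MonoidHom.id X) (fun x => χ (p x)) g) :
    ∃ ψ : S.map p → ℂ, IsIrr ψ ∧ ∀ s, θ s = ψ (p.subgroupMap S s) := by
  classical
  apply defl (p.subgroupMap_surjective S) hθ
  have hχ' : IsIrr (fun x => χ (p x)) := infl hp hχ
  let F : X → ℂ := fun x => if p x = 1 then 1 else 0
  have hf : ∀ a x : X, F (a * x * a⁻¹) = F x := by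
    intro a x
    simp only [F]
    have h1 : p (a * x * a⁻¹) = 1 ↔ p x = 1 := by
      rw [map_mul, map_mul, map_inv, conj_eq_one_iff]
    simp only [h1]
  have hi : ∀ x : X, IsIntegral ℤ (F x) := by
    intro x
    simp only [F]
    split_ifs
    · exact isIntegral_one
    · exact isIntegral_zero
  have h1 := red_wt_eq_pair 𝔐 S.subtype hθ F hf hi
  have h2 := red_wt_eq_pair 𝔐 (MonoidHom.id X) hχ' F hf hi
  rw [funext hcen, ← h2] at h1
  have h3 : wt (fun x => χ (p x)) (fun x => F (MonoidHom.id X x)) = Nat.card p.ker := by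
    change wt (fun x => χ (p x)) F = _
    rw [wt]
    simp only [map_one]
    rw [div_eq_iff hχ.one_ne_zero]
    have h4 : ∀ x : X, F x * χ (p x) = if p x = 1 then χ 1 else 0 := by
      intro x
      simp only [F]
      split_ifs with h
      · rw [one_mul, h]
      · rw [zero_mul]
    simp only [h4]
    have h5 : (Finset.univ.filter (fun x => p x = 1)).card = Nat.card p.ker := by
      rw [← Fintype.card_subtype, ← Nat.card_eq_fintype_card]
      rfl
    rw [← Finset.sum_filter, Finset.sum_const, nsmul_eq_mul, h5]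
  intro h0
  apply red_card_ne_zero 𝔐 hℓ hk
  rw [← h3, ← h1]
  have h5 : wt θ (fun y => F (S.subtype y)) = 0 := by
    rw [wt]
    have h6 : ∑ y : S, F (S.subtype y) * θ y = ∑ n : (p.subgroupMap S).ker, θ n := by
      have h7 : ∀ y : S, F (S.subtype y) * θ y = if y ∈ (p.subgroupMap S).ker then θ y else 0 := by
        intro y
        have h8 : y ∈ (p.subgroupMap S).ker ↔ p y = 1 := by
          rw [MonoidHom.mem_ker]
          constructor
          · intro h
            exact congrArg Subtype.val h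
          · intro h
            exact Subtype.ext h
        simp only [F, h8, ite_mul, one_mul, zero_mul]
        rfl
      simp only [h7]
      rw [← Finset.sum_filter, ← Finset.sum_subtype_eq_sum_filter]
      refine Finset.sum_congr ?_ fun x _ => rfl
      ext x
      simp
    rw [h6, h0, zero_div]
  rw [h5, red_zero]

end Main

end QB

theorem QB_thm : Stmt_QB := by
  intro X Y _ _ _ _ 𝔐 ℓ _ hmax hℓ p hp hk S Q hQ hQS hN hC χ d hχ
  have h𝔐 : 𝔐.IsPrime := hmax.isPrime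
  have hsurj := p.subgroupMap_surjective S
  have hkS : ¬ ℓ ∣ Nat.card (p.subgroupMap S).ker := by
    intro h
    apply hk
    refine h.trans ?_
    let j : (p.subgroupMap S).ker →* p.ker :=
      (S.subtype.comp (p.subgroupMap S).ker.subtype).codRestrict p.ker (by
        intro x
        exact congrArg Subtype.val (MonoidHom.mem_ker.mp x.2))
    apply Subgroup.card_dvd_of_injective j
    intro x y h1
    have h2 : ((j x : p.ker) : X) = ((j y : p.ker) : X) := by rw [h1]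
    apply Subtype.ext
    apply Subtype.ext
    exact h2
  unfold cnt
  symm
  apply Nat.card_congr
  refine Equiv.ofBijective (fun ψ => ⟨fun s => ψ.1 (p.subgroupMap S s), QB.infl hsurj ψ.2.1,
    (QB.defect hsurj hkS ψ.1 d).mpr ψ.2.2.1,
    (QB.cen_iff 𝔐 hℓ hp hk S Q hQ hQS hN hC hχ ψ.2.1).mpr ψ.2.2.2⟩) ⟨?_, ?_⟩
  · intro ψ ψ' h
    apply Subtype.ext
    ext t
    obtain ⟨s, rfl⟩ := hsurj t
    exact congrFun (congrArg Subtype.val h) s
  · rintro ⟨θ, hθ, hd, hcen⟩
    obtain ⟨ψ, hψ, h1⟩ := QB.exists_defl 𝔐 hℓ hp hk S hχ hθ hcen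
    have h2 : θ = fun s => ψ (p.subgroupMap S s) := funext h1
    subst h2
    exact ⟨⟨ψ, hψ, (QB.defect hsurj hkS ψ d).mp hd,
      (QB.cen_iff 𝔐 hℓ hp hk S Q hQ hQS hN hC hχ hψ).mp hcen⟩, rfl⟩

end Pool.Agent.DP


end

section

set_option linter.unusedSectionVars false

/-!
# QC: chains of a quotient by a normal subgroup of order prime to `ℓ`
-/

namespace Pool.Agent.DP

open Pool.Agent.Lib_helper13 Representation

namespace QC

section Basic

variable {X Y : Type*} [Group X] [Group Y]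

/-- Conjugation of a set of subgroups. -/
noncomputable abbrev cj (x : X) (σ : Finset (Subgroup X)) : Finset (Subgroup X) :=
  mapCh (MulAut.conj x).toMonoidHom σ

theorem mem_conj_iff (x g : X) (E : Subgroup X) :
    g ∈ E.map (MulAut.conj x).toMonoidHom ↔ x⁻¹ * g * x ∈ E := by
  rw [Subgroup.mem_map]
  constructor
  · rintro ⟨e, he, rfl⟩
    have : x⁻¹ * ((MulAut.conj x).toMonoidHom e) * x = e := by
      change x⁻¹ * (x * e * x⁻¹) * x = e
      group
    rw [this]
    exact he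
  · intro h
    refine ⟨_, h, ?_⟩
    change x * (x⁻¹ * g * x) * x⁻¹ = g
    group

theorem conj_injective (x : X) : Function.Injective (MulAut.conj x).toMonoidHom :=
  (MulAut.conj x).injective

theorem map_conj_mul (x y : X) (E : Subgroup X) :
    (E.map (MulAut.conj y).toMonoidHom).map (MulAut.conj x).toMonoidHom =
      E.map (MulAut.conj (x * y)).toMonoidHom := by
  ext g
  rw [mem_conj_iff, mem_conj_iff, mem_conj_iff]
  have : y⁻¹ * (x⁻¹ * g * x) * y = (x * y)⁻¹ * g * (x * y) := by group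
  rw [this]

theorem map_conj_one (E : Subgroup X) : E.map (MulAut.conj (1 : X)).toMonoidHom = E := by
  ext g
  rw [mem_conj_iff]
  simp

theorem map_map_conj (p : X →* Y) (x : X) (E : Subgroup X) :
    (E.map (MulAut.conj x).toMonoidHom).map p = (E.map p).map (MulAut.conj (p x)).toMonoidHom := by
  rw [Subgroup.map_map, Subgroup.map_map]
  congr 1
  ext g
  simp

theorem mem_cj {x : X} {σ : Finset (Subgroup X)} {E : Subgroup X} :
    E ∈ cj x σ ↔ E.map (MulAut.conj x⁻¹).toMonoidHom ∈ σ := by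
  rw [mem_mapCh]
  constructor
  · rintro ⟨D, hD, rfl⟩
    rw [map_conj_mul, inv_mul_cancel, map_conj_one]
    exact hD
  · intro h
    refine ⟨_, h, ?_⟩
    rw [map_conj_mul, mul_inv_cancel, map_conj_one]

theorem cj_cj (x y : X) (σ : Finset (Subgroup X)) : cj x (cj y σ) = cj (x * y) σ := by
  ext E
  rw [mem_cj, mem_cj, mem_cj, map_conj_mul, mul_inv_rev]

theorem cj_one (σ : Finset (Subgroup X)) : cj 1 σ = σ := by
  ext E
  rw [mem_cj, inv_one, map_conj_one]

theorem mapCh_cj (p : X →* Y) (x : X) (σ : Finset (Subgroup X)) :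
    mapCh p (cj x σ) = cj (p x) (mapCh p σ) := by
  ext E
  simp only [cj, mem_mapCh]
  constructor
  · rintro ⟨D', ⟨D, hD, rfl⟩, rfl⟩
    exact ⟨D.map p, ⟨D, hD, rfl⟩, (map_map_conj p x D).symm⟩
  · rintro ⟨D', ⟨D, hD, rfl⟩, rfl⟩
    exact ⟨D.map (MulAut.conj x).toMonoidHom, ⟨D, hD, rfl⟩, map_map_conj p x D⟩

theorem isCh_cj {ℓ : ℕ} {Z : Subgroup X} [hZ : Z.Normal] (x : X) {σ : Finset (Subgroup X)}
    (h : IsCh ℓ Z σ) : IsCh ℓ Z (cj x σ) := by
  have h1 : Z.map (MulAut.conj x).toMonoidHom = Z := by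
    ext g
    rw [mem_conj_iff]
    constructor
    · intro h2
      have := hZ.conj_mem _ h2 x
      have h3 : x * (x⁻¹ * g * x) * x⁻¹ = g := by group
      rwa [h3] at this
    · intro h2
      have := hZ.conj_mem _ h2 x⁻¹
      rwa [inv_inv] at this
  have h2 := (isCh_mapCh_iff (conj_injective x) (ℓ := ℓ) (Z := Z) (τ := σ)).mpr h
  rwa [h1] at h2

/-- A set of subgroups fixed by an element of its own elementwise stabilizer. -/
theorem cj_stb {x : X} {σ : Finset (Subgroup X)} (h : x ∈ stb σ) : cj x σ = σ := by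
  rw [mem_stb] at h
  ext E
  rw [mem_mapCh]
  constructor
  · rintro ⟨D, hD, rfl⟩
    rw [h D hD]
    exact hD
  · intro hE
    exact ⟨E, hE, h E hE⟩

theorem stb_cj (x : X) (σ : Finset (Subgroup X)) :
    stb (cj x σ) = (stb σ).map (MulAut.conj x).toMonoidHom :=
  stb_mapCh_equiv (MulAut.conj x) σ

theorem card_stb_cj (x : X) (σ : Finset (Subgroup X)) :
    Nat.card (stb (cj x σ)) = Nat.card (stb σ) := by
  rw [stb_cj]
  exact (Nat.card_congr ((stb σ).equivMapOfInjective _ (conj_injective x)).toEquiv).symm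

end Basic

section Inj

variable {X Y : Type*} [Group X] [Finite X] [Group Y] {ℓ : ℕ} [Fact ℓ.Prime] {p : X →* Y}

theorem ker_inter (hD : ¬ ℓ ∣ Nat.card p.ker) {Q : Subgroup X} (hQ : IsPGroup ℓ Q) {x : X}
    (hx : x ∈ Q) (hx' : x ∈ p.ker) : x = 1 := by
  obtain ⟨k, hk⟩ := (IsPGroup.iff_orderOf.mp hQ) ⟨x, hx⟩
  rw [Subgroup.orderOf_mk] at hk
  have h1 : orderOf x ∣ Nat.card p.ker := by
    have h2 : orderOf (⟨x, hx'⟩ : p.ker) ∣ Nat.card p.ker := orderOf_dvd_natCard _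
    rwa [Subgroup.orderOf_mk] at h2
  rcases Nat.eq_zero_or_pos k with rfl | hk0
  · rw [pow_zero] at hk
    exact orderOf_eq_one_iff.mp hk
  · exfalso
    apply hD
    refine dvd_trans ?_ h1
    rw [hk]
    exact dvd_pow_self ℓ hk0.ne'

theorem inj_on (hD : ¬ ℓ ∣ Nat.card p.ker) {Q : Subgroup X} (hQ : IsPGroup ℓ Q) {x y : X}
    (hx : x ∈ Q) (hy : y ∈ Q) (h : p x = p y) : x = y := by
  have h1 : x * y⁻¹ = 1 := by
    apply ker_inter hD hQ (mul_mem hx (inv_mem hy))
    rw [MonoidHom.mem_ker, map_mul, map_inv, h, mul_inv_cancel]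
  exact mul_inv_eq_one.mp h1

theorem le_of_map (hD : ¬ ℓ ∣ Nat.card p.ker) {Q E F : Subgroup X} (hQ : IsPGroup ℓ Q)
    (hE : E ≤ Q) (hF : F ≤ Q) (h : E.map p ≤ F.map p) : E ≤ F := by
  intro x hx
  obtain ⟨y, hy, hxy⟩ := h ⟨x, hx, rfl⟩
  rw [← inj_on hD hQ (hF hy) (hE hx) hxy]
  exact hy

theorem eq_of_map (hD : ¬ ℓ ∣ Nat.card p.ker) {Q E F : Subgroup X} (hQ : IsPGroup ℓ Q)
    (hE : E ≤ Q) (hF : F ≤ Q) (h : E.map p = F.map p) : E = F :=
  le_antisymm (le_of_map hD hQ hE hF h.le) (le_of_map hD hQ hF hE h.ge)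

theorem card_map (hD : ¬ ℓ ∣ Nat.card p.ker) {Q : Subgroup X} (hQ : IsPGroup ℓ Q) :
    Nat.card (Q.map p) = Nat.card Q := by
  symm
  apply Nat.card_congr
  refine Equiv.ofBijective (fun x => (⟨p x, ⟨x, x.2, rfl⟩⟩ : Q.map p)) ⟨?_, ?_⟩
  · intro x y h
    exact Subtype.ext (inj_on hD hQ x.2 y.2 (congrArg Subtype.val h))
  · rintro ⟨y, x, hx, rfl⟩
    exact ⟨⟨x, hx⟩, rfl⟩

theorem card_comap (hp : Function.Surjective p) [Finite Y] (P : Subgroup Y) :
    Nat.card (P.comap p) = Nat.card P * Nat.card p.ker := by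
  have h1 := (P.comap p).card_mul_index
  rw [P.index_comap_of_surjective hp] at h1
  have h2 := P.card_mul_index
  have h3 := p.ker.card_mul_index
  rw [Subgroup.index_ker, MonoidHom.range_eq_top.mpr hp, Subgroup.card_top] at h3
  have h4 : 0 < P.index := Nat.pos_of_ne_zero Subgroup.index_ne_zero_of_finite
  apply Nat.eq_of_mul_eq_mul_right h4
  rw [h1, ← h3, ← h2]
  ring

/-- Two lifts of an `ℓ`-subgroup are conjugate under the kernel. -/
theorem exists_conj_top (hp : Function.Surjective p) [Finite Y] (hD : ¬ ℓ ∣ Nat.card p.ker)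
    {Q Q' : Subgroup X} (hQ : IsPGroup ℓ Q) (hQ' : IsPGroup ℓ Q') (h : Q.map p = Q'.map p) :
    ∃ d ∈ p.ker, Q' = Q.map (MulAut.conj d).toMonoidHom := by
  set P := Q.map p with hP
  set M := P.comap p with hM
  have hQM : Q ≤ M := Subgroup.le_comap_map p Q
  have hQM' : Q' ≤ M := by
    rw [hM, h]
    exact Subgroup.le_comap_map p Q'
  have hMc : Nat.card M = Nat.card P * Nat.card p.ker := card_comap hp P
  have hPpos : 0 < Nat.card P := Nat.card_pos
  have hidx : ∀ R : Subgroup X, R ≤ M → Nat.card R = Nat.card P →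
      ¬ ℓ ∣ (R.subgroupOf M).index := by
    intro R hR hc
    have h1 := (R.subgroupOf M).card_mul_index
    have h2 : Nat.card (R.subgroupOf M) = Nat.card R :=
      Nat.card_congr (Subgroup.subgroupOfEquivOfLe hR).toEquiv
    rw [h2, hc, hMc] at h1
    rw [Nat.eq_of_mul_eq_mul_left hPpos h1]
    exact hD
  have hc1 : Nat.card Q = Nat.card P := (card_map hD hQ).symm
  have hc2 : Nat.card Q' = Nat.card P := by
    rw [h]
    exact (card_map hD hQ').symm
  have hs1 : IsPGroup ℓ (Q.subgroupOf M) :=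
    hQ.of_equiv (Subgroup.subgroupOfEquivOfLe hQM).symm
  have hs2 : IsPGroup ℓ (Q'.subgroupOf M) :=
    hQ'.of_equiv (Subgroup.subgroupOfEquivOfLe hQM').symm
  obtain ⟨m, hm⟩ := MulAction.exists_smul_eq M (hs1.toSylow (hidx Q hQM hc1))
    (hs2.toSylow (hidx Q' hQM' hc2))
  have hm1 : ∀ x : M, (x : X) ∈ Q' ↔ ((m : X)⁻¹ * x * m) ∈ Q := by
    intro x
    have h1 : x ∈ (hs2.toSylow (hidx Q' hQM' hc2) : Subgroup M) ↔ (x : X) ∈ Q' := by
      rw [IsPGroup.toSylow_coe, Subgroup.mem_subgroupOf]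
    rw [← h1, ← hm, Sylow.coe_subgroup_smul, Subgroup.mem_pointwise_smul_iff_inv_smul_mem,
      IsPGroup.toSylow_coe, Subgroup.mem_subgroupOf]
    have h2 : (((MulAut.conj m)⁻¹ • x : M) : X) = (m : X)⁻¹ * x * m := by
      rw [← map_inv, MulAut.smul_def, MulAut.conj_apply]
      simp
    rw [h2]
  obtain ⟨q, hq, hqm⟩ := m.2
  refine ⟨m * q⁻¹, ?_, ?_⟩
  · rw [MonoidHom.mem_ker, map_mul, map_inv, hqm, mul_inv_cancel]
  · ext x
    rw [mem_conj_iff]
    have hx : ((m : X) * q⁻¹)⁻¹ * x * (m * q⁻¹) = q * ((m : X)⁻¹ * x * m) * q⁻¹ := by group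
    rw [hx]
    constructor
    · intro hxQ
      have h1 := (hm1 ⟨x, hQM' hxQ⟩).mp hxQ
      exact mul_mem (mul_mem hq h1) (inv_mem hq)
    · intro hxQ
      have h1 : (m : X)⁻¹ * x * m ∈ Q := by
        have h2 := mul_mem (mul_mem (inv_mem hq) hxQ) hq
        have h3 : q⁻¹ * (q * ((m : X)⁻¹ * x * m) * q⁻¹) * q = (m : X)⁻¹ * x * m := by group
        rwa [h3] at h2
      have h2 : x ∈ M := by
        have h3 := mul_mem (mul_mem m.2 (hQM h1)) (inv_mem m.2)
        have h4 : (m : X) * ((m : X)⁻¹ * x * m) * (m : X)⁻¹ = x := by group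
        rwa [h4] at h3
      exact (hm1 ⟨x, h2⟩).mpr h1

end Inj

section Lifts

variable {X Y : Type*} [Group X] [Finite X] [Group Y] [Finite Y] {ℓ : ℕ} [Fact ℓ.Prime]
  {p : X →* Y} {Z : Subgroup X}

theorem map_conj_ker {d : X} (hd : d ∈ p.ker) (E : Subgroup X) :
    (E.map (MulAut.conj d).toMonoidHom).map p = E.map p := by
  rw [map_map_conj, MonoidHom.mem_ker.mp hd, map_conj_one]

theorem mapCh_cj_ker {d : X} (hd : d ∈ p.ker) (σ : Finset (Subgroup X)) :
    mapCh p (cj d σ) = mapCh p σ := by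
  rw [mapCh_cj, MonoidHom.mem_ker.mp hd, cj_one]

/-- Two lifts of a chain are conjugate under the kernel. -/
theorem exists_conj (hp : Function.Surjective p) (hD : ¬ ℓ ∣ Nat.card p.ker)
    {σ σ' : Finset (Subgroup X)} (hσ : IsCh ℓ Z σ) (hσ' : IsCh ℓ Z σ')
    (h : mapCh p σ = mapCh p σ') : ∃ d ∈ p.ker, cj d σ = σ' := by
  rcases σ.eq_empty_or_nonempty with rfl | hne
  · refine ⟨1, one_mem _, ?_⟩
    rw [cj_one]
    rcases σ'.eq_empty_or_nonempty with rfl | ⟨E, hE⟩
    · rfl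
    · exfalso
      have h1 : E.map p ∈ mapCh p (∅ : Finset (Subgroup X)) := by
        rw [h]
        exact mem_mapCh.mpr ⟨E, hE, rfl⟩
      obtain ⟨D, hD', _⟩ := mem_mapCh.mp h1
      exact absurd hD' (Finset.notMem_empty D)
  · obtain ⟨Q, hQ, hQt⟩ := hσ.exists_top hne
    have hne' : σ'.Nonempty := by
      have h1 : Q.map p ∈ mapCh p σ' := by
        rw [← h]
        exact mem_mapCh.mpr ⟨Q, hQ, rfl⟩
      obtain ⟨D, hD', _⟩ := mem_mapCh.mp h1
      exact ⟨D, hD'⟩
    obtain ⟨Q', hQ', hQt'⟩ := hσ'.exists_top hne'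
    have hPP : Q.map p = Q'.map p := by
      apply le_antisymm
      · have h1 : Q.map p ∈ mapCh p σ' := by
          rw [← h]
          exact mem_mapCh.mpr ⟨Q, hQ, rfl⟩
        obtain ⟨D, hD', hD2⟩ := mem_mapCh.mp h1
        rw [← hD2]
        exact Subgroup.map_mono (hQt' D hD')
      · have h1 : Q'.map p ∈ mapCh p σ := by
          rw [h]
          exact mem_mapCh.mpr ⟨Q', hQ', rfl⟩
        obtain ⟨D, hD', hD2⟩ := mem_mapCh.mp h1
        rw [← hD2]
        exact Subgroup.map_mono (hQt D hD')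
    have hQp := (hσ.1 Q hQ).1
    have hQp' := (hσ'.1 Q' hQ').1
    obtain ⟨d, hd, hdQ⟩ := exists_conj_top hp hD hQp hQp' hPP
    refine ⟨d, hd, ?_⟩
    have key : ∀ E ∈ σ, ∀ E' ∈ σ', E.map p = E'.map p →
        E.map (MulAut.conj d).toMonoidHom = E' := by
      intro E hE E' hE' hEE
      apply eq_of_map hD hQp'
      · rw [hdQ]
        exact Subgroup.map_mono (hQt E hE)
      · exact hQt' E' hE'
      · rw [map_conj_ker hd, hEE]
    ext E'
    rw [mem_mapCh]
    constructor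
    · rintro ⟨E, hE, rfl⟩
      have h1 : E.map p ∈ mapCh p σ' := by
        rw [← h]
        exact mem_mapCh.mpr ⟨E, hE, rfl⟩
      obtain ⟨F, hF, hF2⟩ := mem_mapCh.mp h1
      rw [key E hE F hF hF2.symm]
      exact hF
    · intro hE'
      have h1 : E'.map p ∈ mapCh p σ := by
        rw [h]
        exact mem_mapCh.mpr ⟨E', hE', rfl⟩
      obtain ⟨F, hF, hF2⟩ := mem_mapCh.mp h1
      exact ⟨F, hF, key F hF E' hE' hF2⟩

/-- `p` is injective on the members of a chain. -/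
theorem injOn_chain (hD : ¬ ℓ ∣ Nat.card p.ker) {σ : Finset (Subgroup X)} (hσ : IsCh ℓ Z σ)
    {E F : Subgroup X} (hE : E ∈ σ) (hF : F ∈ σ) (h : E.map p = F.map p) : E = F := by
  rcases hσ.total hE hF with h1 | h1
  · exact eq_of_map hD (hσ.1 F hF).1 h1 le_rfl h
  · exact eq_of_map hD (hσ.1 E hE).1 le_rfl h1 h

theorem card_mapCh' (hD : ¬ ℓ ∣ Nat.card p.ker) {σ : Finset (Subgroup X)} (hσ : IsCh ℓ Z σ) :
    (mapCh p σ).card = σ.card := by
  classical
  unfold mapCh
  apply Finset.card_image_of_injOn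
  intro E hE F hF h
  exact injOn_chain hD hσ hE hF h

/-- The image of a chain is a chain. -/
theorem isCh_map (hD : ¬ ℓ ∣ Nat.card p.ker) {σ : Finset (Subgroup X)} (hσ : IsCh ℓ Z σ) :
    IsCh ℓ (Z.map p) (mapCh p σ) := by
  constructor
  · intro D' hD'
    obtain ⟨E, hE, rfl⟩ := mem_mapCh.mp hD'
    obtain ⟨h1, h2⟩ := hσ.1 E hE
    refine ⟨h1.map p, lt_of_le_not_ge (Subgroup.map_mono h2.le) ?_⟩
    intro h3
    exact h2.not_ge (le_of_map hD h1 le_rfl h2.le h3)
  · intro D' hD' E' hE' _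
    obtain ⟨D, hD, rfl⟩ := mem_mapCh.mp (Finset.mem_coe.mp hD')
    obtain ⟨E, hE, rfl⟩ := mem_mapCh.mp (Finset.mem_coe.mp hE')
    exact (hσ.total hD hE).imp (fun h => Subgroup.map_mono h) (fun h => Subgroup.map_mono h)

/-- The stabilizer of the image of a chain. -/
theorem map_stb (hp : Function.Surjective p) (hD : ¬ ℓ ∣ Nat.card p.ker) [Z.Normal]
    {σ : Finset (Subgroup X)} (hσ : IsCh ℓ Z σ) : (stb σ).map p = stb (mapCh p σ) := by
  ext y
  constructor
  · rintro ⟨x, hx, rfl⟩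
    rw [mem_stb]
    intro D' hD'
    obtain ⟨E, hE, rfl⟩ := mem_mapCh.mp hD'
    rw [← map_map_conj, (mem_stb.mp hx) E hE]
  · intro hy
    obtain ⟨x, rfl⟩ := hp y
    have h1 : mapCh p (cj x σ) = mapCh p σ := by
      rw [mapCh_cj, cj_stb hy]
    obtain ⟨d, hd, hdσ⟩ := exists_conj hp hD (isCh_cj x hσ) hσ h1
    refine ⟨d * x, ?_, ?_⟩
    · change d * x ∈ stb σ
      rw [mem_stb]
      intro E hE
      apply injOn_chain hD hσ _ hE
      · rw [map_map_conj, map_mul, MonoidHom.mem_ker.mp hd, one_mul]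
        exact (mem_stb.mp hy) _ (mem_mapCh.mpr ⟨E, hE, rfl⟩)
      · rw [cj_cj] at hdσ
        have h2 : E.map (MulAut.conj (d * x)).toMonoidHom ∈ cj (d * x) σ :=
          mem_mapCh.mpr ⟨E, hE, rfl⟩
        rwa [hdσ] at h2
    · rw [map_mul, MonoidHom.mem_ker.mp hd, one_mul]

/-- Existence of lifts. -/
theorem exists_lift (hp : Function.Surjective p) (hD : ¬ ℓ ∣ Nat.card p.ker)
    (hZ : IsPGroup ℓ Z) {τ : Finset (Subgroup Y)} (hτ : IsCh ℓ (Z.map p) τ) :
    ∃ σ, IsCh ℓ Z σ ∧ mapCh p σ = τ := by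
  classical
  rcases τ.eq_empty_or_nonempty with rfl | hne
  · exact ⟨∅, isCh_empty _ _, by simp [mapCh]⟩
  · obtain ⟨P, hP, hPt⟩ := hτ.exists_top hne
    obtain ⟨hPp, hZP⟩ := hτ.1 P hP
    set M := P.comap p with hM
    have hZM : Z ≤ M := Subgroup.map_le_iff_le_comap.mp hZP.le
    have hZs : IsPGroup ℓ (Z.subgroupOf M) :=
      hZ.of_equiv (Subgroup.subgroupOfEquivOfLe hZM).symm
    obtain ⟨S, hS⟩ := hZs.exists_le_sylow
    set Q : Subgroup X := (S : Subgroup M).map M.subtype with hQ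
    have hQM : Q ≤ M := by
      rw [hQ]
      exact Subgroup.map_subtype_le _
    have hQp : IsPGroup ℓ Q := S.2.map _
    have hZQ : Z ≤ Q := by
      intro z hz
      exact ⟨⟨z, hZM hz⟩, hS (Subgroup.mem_subgroupOf.mpr hz), rfl⟩
    have hcQ : Nat.card Q = Nat.card (S : Subgroup M) :=
      (Nat.card_congr ((S : Subgroup M).equivMapOfInjective _ M.subtype_injective).toEquiv).symm
    have hle : Q.map p ≤ P := by
      rw [Subgroup.map_le_iff_le_comap]
      exact hQM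
    have hcard : Nat.card (Q.map p) = Nat.card P := by
      rw [card_map hD hQp, hcQ, S.card_eq_multiplicity, hM, card_comap hp P]
      obtain ⟨k, hk⟩ := hPp.exists_card_eq
      rw [hk]
      have hl : ℓ.Prime := Fact.out
      have hk0 : Nat.card p.ker ≠ 0 := Nat.card_pos.ne'
      rw [Nat.factorization_mul (pow_ne_zero _ hl.ne_zero) hk0, Finsupp.add_apply,
        Nat.Prime.factorization_pow hl, Finsupp.single_eq_same,
        Nat.factorization_eq_zero_of_not_dvd hD, add_zero]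
    have hQP : Q.map p = P := by
      apply Subgroup.eq_of_le_of_card_ge hle hcard.ge
    refine ⟨τ.image (fun E => Q ⊓ E.comap p), ?_, ?_⟩
    · have hmap : ∀ E ∈ τ, (Q ⊓ E.comap p).map p = E := by
        intro E hE
        apply le_antisymm
        · rintro _ ⟨x, hx, rfl⟩
          exact hx.2
        · intro y hy
          have h1 : y ∈ Q.map p := by
            rw [hQP]
            exact hPt E hE hy
          obtain ⟨x, hx, rfl⟩ := h1
          exact ⟨x, ⟨hx, hy⟩, rfl⟩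
      constructor
      · intro D' hD'
        obtain ⟨E, hE, rfl⟩ := Finset.mem_image.mp hD'
        refine ⟨hQp.to_le inf_le_left, lt_of_le_not_ge ?_ ?_⟩
        · exact le_inf hZQ (Subgroup.map_le_iff_le_comap.mp (hτ.1 E hE).2.le)
        · intro h1
          have h2 := Subgroup.map_mono (f := p) h1
          rw [hmap E hE] at h2
          exact (hτ.1 E hE).2.not_ge h2
      · intro D' hD' E' hE' _
        obtain ⟨D, hD, rfl⟩ := Finset.mem_image.mp (Finset.mem_coe.mp hD')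
        obtain ⟨E, hE, rfl⟩ := Finset.mem_image.mp (Finset.mem_coe.mp hE')
        rcases hτ.total hD hE with h1 | h1
        · exact Or.inl (inf_le_inf_left _ (Subgroup.comap_mono h1))
        · exact Or.inr (inf_le_inf_left _ (Subgroup.comap_mono h1))
    · have hmap : ∀ E ∈ τ, (Q ⊓ E.comap p).map p = E := by
        intro E hE
        apply le_antisymm
        · rintro _ ⟨x, hx, rfl⟩
          exact hx.2
        · intro y hy
          have h1 : y ∈ Q.map p := by
            rw [hQP]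
            exact hPt E hE hy
          obtain ⟨x, hx, rfl⟩ := h1
          exact ⟨x, ⟨hx, hy⟩, rfl⟩
      ext E
      rw [mem_mapCh]
      constructor
      · rintro ⟨D, hD, rfl⟩
        obtain ⟨F, hF, rfl⟩ := Finset.mem_image.mp hD
        rw [hmap F hF]
        exact hF
      · intro hE
        exact ⟨_, Finset.mem_image_of_mem _ hE, hmap E hE⟩

/-- The order of the stabilizer of a chain. -/
theorem card_stb (hp : Function.Surjective p) (hD : ¬ ℓ ∣ Nat.card p.ker) [Z.Normal]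
    {σ : Finset (Subgroup X)} (hσ : IsCh ℓ Z σ) :
    Nat.card (p.ker ⊓ stb σ : Subgroup X) * Nat.card (stb (mapCh p σ)) = Nat.card (stb σ) := by
  have h1 := (p.comp (stb σ).subtype).ker.card_mul_index
  rw [Subgroup.index_ker] at h1
  have h2 : (p.comp (stb σ).subtype).range = stb (mapCh p σ) := by
    rw [← map_stb hp hD hσ, MonoidHom.range_comp, Subgroup.range_subtype]
  rw [h2] at h1
  have h3 : Nat.card (p.comp (stb σ).subtype).ker = Nat.card (p.ker ⊓ stb σ : Subgroup X) := by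
    apply Nat.card_congr
    refine ⟨fun x => ⟨x.1, x.2, x.1.2⟩, fun x => ⟨⟨x.1, x.2.2⟩, x.2.1⟩, ?_, ?_⟩
    · intro x
      rfl
    · intro x
      rfl
  rw [h3] at h1
  exact h1

/-- Normality of a chain and of its image. -/
theorem normal_iff (hp : Function.Surjective p) (hD : ¬ ℓ ∣ Nat.card p.ker) [Z.Normal]
    {σ : Finset (Subgroup X)} (hσ : IsCh ℓ Z σ) :
    (∀ D ∈ mapCh p σ, D ≤ stb (mapCh p σ)) ↔ ∀ D ∈ σ, D ≤ stb σ := by
  constructor
  · intro h E hE x hx
    rw [mem_stb]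
    intro F hF
    obtain ⟨Q, hQ, hQt⟩ := hσ.exists_top ⟨E, hE⟩
    have hQp := (hσ.1 Q hQ).1
    apply eq_of_map hD hQp
    · intro g hg
      rw [mem_conj_iff] at hg
      have hxQ := hQt E hE hx
      have h1 := mul_mem (mul_mem hxQ (hQt F hF hg)) (inv_mem hxQ)
      have h2 : x * (x⁻¹ * g * x) * x⁻¹ = g := by group
      rwa [h2] at h1
    · exact hQt F hF
    · rw [map_map_conj]
      have h1 : p x ∈ stb (mapCh p σ) :=
        h (E.map p) (mem_mapCh.mpr ⟨E, hE, rfl⟩) ⟨x, hx, rfl⟩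
      exact (mem_stb.mp h1) _ (mem_mapCh.mpr ⟨F, hF, rfl⟩)
  · intro h D' hD'
    obtain ⟨E, hE, rfl⟩ := mem_mapCh.mp hD'
    rw [← map_stb hp hD hσ]
    exact Subgroup.map_mono (h E hE)

end Lifts

section Sum

variable {X Y : Type*} [Group X] [Fintype X] [Group Y] [Fintype Y] {ℓ : ℕ} [Fact ℓ.Prime]
  {p : X →* Y} {Z : Subgroup X}

theorem mem_NCh {G : Type*} [Group G] [Fintype G] {ℓ : ℕ} {Z : Subgroup G}
    {σ : Finset (Subgroup G)} : σ ∈ NCh ℓ Z ↔ IsCh ℓ Z σ ∧ ∀ D ∈ σ, D ≤ stb σ := by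
  classical
  unfold NCh
  rw [Finset.mem_filter, mem_Ch]

open Classical in
/-- The sum over the lifts of a chain. -/
theorem sum_lifts (hp : Function.Surjective p) (hD : ¬ ℓ ∣ Nat.card p.ker) [Z.Normal]
    (hZ : IsPGroup ℓ Z) {τ : Finset (Subgroup Y)} (hτ : τ ∈ NCh ℓ (Z.map p)) :
    ∑ σ ∈ (NCh ℓ Z).filter (fun σ => mapCh p σ = τ), (Nat.card (stb σ) : ℚ) =
      (Nat.card p.ker : ℚ) * Nat.card (stb τ) := by
  obtain ⟨σ₀, hσ₀, rfl⟩ := exists_lift hp hD hZ (mem_NCh.mp hτ).1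
  set L := (NCh ℓ Z).filter (fun σ => mapCh p σ = mapCh p σ₀) with hL
  have hN₀ : ∀ D ∈ σ₀, D ≤ stb σ₀ := (normal_iff hp hD hσ₀).mp (mem_NCh.mp hτ).2
  have hLmem : ∀ σ, σ ∈ L ↔ ∃ d ∈ p.ker, cj d σ₀ = σ := by
    intro σ
    rw [hL, Finset.mem_filter, mem_NCh]
    constructor
    · rintro ⟨⟨h1, _⟩, h2⟩
      exact exists_conj hp hD hσ₀ h1 h2.symm
    · rintro ⟨d, hd, rfl⟩
      have h1 := isCh_cj d hσ₀
      have h2 : mapCh p (cj d σ₀) = mapCh p σ₀ := mapCh_cj_ker hd σ₀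
      refine ⟨⟨h1, ?_⟩, h2⟩
      rw [← normal_iff hp hD h1, h2, normal_iff hp hD hσ₀]
      exact hN₀
  have hfib : ∀ σ ∈ L, ((Finset.univ : Finset p.ker).filter
      (fun d : p.ker => cj (d : X) σ₀ = σ)).card = Nat.card (p.ker ⊓ stb σ₀ : Subgroup X) := by
    intro σ hσ
    obtain ⟨d₀, hd₀, rfl⟩ := (hLmem σ).mp hσ
    have hfin : Fintype (p.ker ⊓ stb σ₀ : Subgroup X) := Fintype.ofFinite _
    rw [Nat.card_eq_fintype_card, ← Finset.card_univ]
    symm
    apply Finset.card_bij (fun (x : (p.ker ⊓ stb σ₀ : Subgroup X)) _ =>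
      (⟨d₀ * x, mul_mem hd₀ x.2.1⟩ : p.ker))
    · intro x _
      rw [Finset.mem_filter]
      refine ⟨Finset.mem_univ _, ?_⟩
      change cj (d₀ * (x : X)) σ₀ = cj d₀ σ₀
      rw [← cj_cj, cj_stb x.2.2]
    · intro x _ y _ h
      have h1 := congrArg Subtype.val h
      exact Subtype.ext (mul_left_cancel h1)
    · rintro ⟨d, hd⟩ hd'
      have h1 : cj d σ₀ = cj d₀ σ₀ := (Finset.mem_filter.mp hd').2
      have hk : d₀⁻¹ * d ∈ p.ker := mul_mem (inv_mem hd₀) hd
      have h2 : cj (d₀⁻¹ * d) σ₀ = σ₀ := by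
        rw [← cj_cj, h1, cj_cj, inv_mul_cancel, cj_one]
      refine ⟨⟨d₀⁻¹ * d, hk, ?_⟩, Finset.mem_univ _, ?_⟩
      · change d₀⁻¹ * d ∈ stb σ₀
        rw [mem_stb]
        intro E hE
        apply injOn_chain hD hσ₀ _ hE (map_conj_ker hk E)
        have h3 : E.map (MulAut.conj (d₀⁻¹ * d)).toMonoidHom ∈ cj (d₀⁻¹ * d) σ₀ :=
          mem_mapCh.mpr ⟨E, hE, rfl⟩
        rwa [h2] at h3
      · apply Subtype.ext
        change d₀ * (d₀⁻¹ * d) = d
        group
  have hmaps : ∀ d ∈ (Finset.univ : Finset p.ker), (fun d : p.ker => cj (d : X) σ₀) d ∈ L :=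
    fun d _ => (hLmem _).mpr ⟨d, d.2, rfl⟩
  have hcount := Finset.card_eq_sum_card_fiberwise hmaps
  rw [Finset.sum_congr rfl hfib, Finset.sum_const, Finset.card_univ, smul_eq_mul,
    ← Nat.card_eq_fintype_card] at hcount
  have hconst : ∀ σ ∈ L, (Nat.card (stb σ) : ℚ) = Nat.card (stb σ₀) := by
    intro σ hσ
    obtain ⟨d, _, rfl⟩ := (hLmem σ).mp hσ
    rw [card_stb_cj]
  rw [Finset.sum_congr rfl hconst, Finset.sum_const, nsmul_eq_mul, hcount,
    ← card_stb hp hD hσ₀]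
  push_cast
  ring

end Sum

end QC

/-- QC. -/
theorem QC_thm : Stmt_QC := by
  classical
  intro X Y _ _ _ _ ℓ _ p hp hD Z _ hZ
  refine ⟨fun σ hσ => QC.map_stb hp hD hσ, fun w => ?_⟩
  have hmaps : ∀ σ ∈ NCh ℓ Z, mapCh p σ ∈ NCh ℓ (Z.map p) := by
    intro σ hσ
    rw [QC.mem_NCh] at hσ ⊢
    exact ⟨QC.isCh_map hD hσ.1, (QC.normal_iff hp hD hσ.1).mpr hσ.2⟩
  rw [← Finset.sum_fiberwise_of_maps_to hmaps, Finset.mul_sum]
  refine Finset.sum_congr rfl fun τ hτ => ?_
  have h1 := QC.sum_lifts hp hD hZ hτ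
  have h2 : ∀ σ ∈ (NCh ℓ Z).filter (fun σ => mapCh p σ = τ),
      (-1 : ℚ) ^ σ.card * (Nat.card (stb σ) * w (mapCh p σ)) =
        Nat.card (stb σ) * ((-1 : ℚ) ^ τ.card * w τ) := by
    intro σ hσ
    obtain ⟨h3, h4⟩ := Finset.mem_filter.mp hσ
    rw [h4, ← QC.card_mapCh' hD (QC.mem_NCh.mp h3).1, h4]
    ring
  rw [Finset.sum_congr rfl h2, ← Finset.sum_mul, h1]
  ring

end Pool.Agent.DP


end

section

/-!
# Dade's conjecture for `G ^ Ω ⋊ R`: only the empty chain contributes to products of defect zero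
-/

namespace Pool.Agent.DP

open Pool.Agent.Lib_helper13 Representation
open Pool.Agent.Lib_helper13.Dade (pCore DadeHolds)

namespace BLKC

theorem ip_comp_equiv {Y Y' : Type*} [Group Y] [Fintype Y] [Group Y'] [Fintype Y'] (e : Y ≃* Y')
    (f f' : Y' → ℂ) : ip (fun y => f (e y)) (fun y => f' (e y)) = ip f f' := by
  rw [ip, ip, Nat.card_congr e.toEquiv]
  congr 1
  refine Fintype.sum_equiv e.toEquiv _ _ (fun y => ?_)
  change f (e y) * f' (e y⁻¹) = f (e y) * f' (e y)⁻¹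
  rw [map_inv]

theorem cg_eq_cen {G : Type*} [Group G] [Fintype G] (𝔐 : Ideal (integralClosure ℤ ℂ))
    (S : Subgroup G) [Fintype S] (f : G → ℂ) (h : ∀ x, x ∉ S → f x = 0) (g : G) :
    cen 𝔐 S.subtype (fun s : S => f s) g = cg 𝔐 f g := by
  classical
  rw [cen, cg, wt]
  congr 2
  have h1 : ∑ x, conjInd x g * f x = ∑ x ∈ Finset.univ.filter (fun x => x ∈ S),
      conjInd x g * f x := by
    rw [Finset.sum_filter]
    refine Finset.sum_congr rfl fun x _ => ?_
    split_ifs with hx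
    · rfl
    · rw [h x hx, mul_zero]
  rw [h1, Finset.sum_subtype (Finset.univ.filter (fun x => x ∈ S)) (p := fun x => x ∈ S)
    (fun x => by simp)]
  rfl

/-- The isomorphism with the stabilizer of the empty chain. -/
def eE (G : Type*) [Group G] : G ≃* stb (∅ : Finset (Subgroup G)) :=
  (Subgroup.topEquiv (G := G)).symm.trans (MulEquiv.subgroupCongr stb_empty.symm)

theorem eE_coe {G : Type*} [Group G] (g : G) : ((eE G g : stb (∅ : Finset (Subgroup G))) : G) = g :=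
  rfl

theorem mapCh_empty {A B : Type*} [Group A] [Group B] (i : A →* B) :
    mapCh i (∅ : Finset (Subgroup A)) = ∅ := by
  classical
  ext E
  rw [mem_mapCh]
  simp

/-- The isomorphism with the stabilizer of the empty chain of the base group. -/
noncomputable def eY (K O G : Type*) [Group K] [MulAction K O] [Group G] :
    Gam K O G ≃* YT K (∅ : Finset (Subgroup (O → G))) :=
  (eE (Gam K O G)).trans (MulEquiv.subgroupCongr
    (by rw [YT, mapCh_empty]))

theorem eY_coe {K O G : Type*} [Group K] [MulAction K O] [Group G] (y : Gam K O G) :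
    ((eY K O G y : YT K (∅ : Finset (Subgroup (O → G)))) : Gam K O G) = y := rfl

theorem irr_of_empty {G : Type*} [Group G] [Fintype G] {ℓ : ℕ} {σ : Finset (Subgroup G)}
    (hσ : σ = ∅) {f : G → ℂ} (h : IsIrr (fun s : stb σ => f s))
    (h0 : HasDefect ℓ (fun s : stb σ => f s) 0) : IsIrr f ∧ HasDefect ℓ f 0 := by
  subst hσ
  exact ⟨h.comp_mulEquiv (eE G), (hasDefect_comp_equiv (eE G)).mpr h0⟩

end BLKC

open _root_.Pool.Agent.DP.BLKC in
theorem BLKC_thm (h1 : Stmt_NODZ) (h2 : Stmt_DZT) : Stmt_BLKC := by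
  intro K O G X _ _ _ _ _ _ _ _ 𝔐 ℓ _ hmax hℓ hcore hD i τ θ hτ hθ ψ hψ hip hKK
  have hprime : 𝔐.IsPrime := hmax.isPrime
  have hτ' := mem_ClCh.mp hτ
  have hdef : ∀ o, HasDefect ℓ (fun s : stb (comp τ o) => θ o s) 0 := by
    intro o
    obtain ⟨d, hd⟩ := hKK o
    obtain ⟨χ, hχ, hχ0, hχc⟩ := h1 G 𝔐 ℓ hmax hℓ hcore hD d (cg 𝔐 (θ o)) hd
    refine defect_zero_of_cen 𝔐 hℓ hχ hχ0 (stb (comp τ o)).subtype (hθ o).1 fun g => ?_
    rw [cg_eq_cen 𝔐 (stb (comp τ o)) (θ o) (hθ o).2 g, hχc]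
  have hempty : ∀ o, comp τ o = ∅ := fun o =>
    h2 G ℓ (comp τ o) (comp_isCh hτ'.1 o) _ (hθ o).1 (hdef o)
  have hfull := fun o => irr_of_empty (hempty o) (hθ o).1 (hdef o)
  refine ⟨fun o => (hfull o).1, fun o => (hfull o).2, ?_⟩
  have hτ0 : τ = ∅ := by
    by_contra hne
    obtain ⟨D, hD'⟩ := Finset.nonempty_iff_ne_empty.mpr hne
    have h4 : D = ⊥ := by
      rw [← hτ'.2 D hD', cl, ← pK_bot]
      congr 1
      ext1 o
      by_contra h5
      have h6 : prj o D ∈ comp τ o := mem_comp.mpr ⟨h5, D, hD', rfl⟩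
      rw [hempty o] at h6
      exact Finset.notMem_empty _ h6
    exact (hτ'.1.1 D hD').2.ne' h4
  subst hτ0
  refine ⟨fun y => ψ (eY K O G y), hψ.comp_mulEquiv (eY K O G), ?_, fun g => ?_⟩
  · intro h
    apply hip
    rw [← ip_comp_equiv (eE (O → G))]
    exact h
  · rw [← cen_comp_equiv 𝔐 (eY K O G) (i.comp (YT K (∅ : Finset (Subgroup (O → G)))).subtype) ψ]
    rfl

end Pool.Agent.DP


end

section

/-!
# QN: restriction of alternating sums to normal chains
-/

namespace Pool.Agent.DP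

open Pool.Agent.Lib_helper13

namespace QN

variable {X : Type} [Group X]

/-- Normalizers grow in groups of prime power order. -/
theorem grow [Finite X] {ℓ : ℕ} [Fact ℓ.Prime] {M P : Subgroup X} (hP : IsPGroup ℓ P) (h : M ≤ P)
    (hN : P ⊓ Subgroup.normalizer (M : Set X) ≤ M) : P ≤ M := by
  have hnil : Group.IsNilpotent P := hP.isNilpotent
  have hnc := Group.normalizerCondition_of_isNilpotent (G := P)
  rw [normalizerCondition_iff_only_full_group_self_normalizing] at hnc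
  have h1 : M.subgroupOf P = ⊤ := by
    apply hnc
    rw [← Subgroup.subgroupOf_normalizer_eq h]
    apply le_antisymm
    · intro x hx
      rw [Subgroup.mem_subgroupOf] at hx ⊢
      exact hN ⟨x.2, hx⟩
    · intro x hx
      rw [Subgroup.mem_subgroupOf] at hx ⊢
      exact Subgroup.le_normalizer hx
  exact Subgroup.subgroupOf_eq_top.mp h1

theorem le_stb {D : Subgroup X} {τ : Finset (Subgroup X)} :
    D ≤ stb τ ↔ ∀ E ∈ τ, D ≤ Subgroup.normalizer (E : Set X) := by
  simp only [stb, le_iInf_iff]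

theorem stb_mono {σ τ : Finset (Subgroup X)} (h : σ ⊆ τ) : stb τ ≤ stb σ := by
  rw [le_stb]
  intro E hE
  exact le_stb.mp le_rfl E (h hE)

/-- Bad members: those which do not normalize all smaller members. -/
def IsBad (σ : Finset (Subgroup X)) (D : Subgroup X) : Prop :=
  ∃ E ∈ σ, E ≤ D ∧ ¬ D ≤ Subgroup.normalizer (E : Set X)

open Classical in
/-- The set of the bad members. -/
noncomputable def bad (σ : Finset (Subgroup X)) : Finset (Subgroup X) := σ.filter (IsBad σ)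

theorem mem_bad {σ : Finset (Subgroup X)} {D : Subgroup X} : D ∈ bad σ ↔ D ∈ σ ∧ IsBad σ D := by
  classical
  rw [bad, Finset.mem_filter]

open Classical in
/-- The set of the good members. -/
noncomputable def gd (σ : Finset (Subgroup X)) : Finset (Subgroup X) := σ \ bad σ

theorem mem_gd {σ : Finset (Subgroup X)} {D : Subgroup X} : D ∈ gd σ ↔ D ∈ σ ∧ ¬ IsBad σ D := by
  classical
  rw [gd, Finset.mem_sdiff, mem_bad]
  tauto

/-- The least bad member. -/
noncomputable def bt (σ : Finset (Subgroup X)) : Subgroup X := (bad σ).inf id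

/-- The subgroup which is toggled. -/
noncomputable def EE (σ : Finset (Subgroup X)) : Subgroup X := bt σ ⊓ stb (gd σ)

theorem inf_mem_of_chain {s : Finset (Subgroup X)}
    (h : ∀ D ∈ s, ∀ E ∈ s, D ≤ E ∨ E ≤ D) (hne : s.Nonempty) : s.inf id ∈ s := by
  obtain ⟨T, hT⟩ := s.exists_minimal hne
  have h1 : ∀ D ∈ s, T ≤ D := by
    intro D hD
    rcases h D hD T hT.1 with h1 | h1
    · exact hT.2 hD h1
    · exact h1
  have : s.inf id = T := by
    apply le_antisymm
    · exact Finset.inf_le (f := id) hT.1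
    · rw [Finset.le_inf_iff]
      exact h1
  rw [this]
  exact hT.1

theorem facts {ℓ : ℕ} {Z : Subgroup X} {σ : Finset (Subgroup X)} (hσ : IsCh ℓ Z σ)
    (hn : ¬ ∀ D ∈ σ, D ≤ stb σ) :
    bt σ ∈ bad σ ∧ (∀ D ∈ bad σ, bt σ ≤ D) ∧ (∀ D ∈ gd σ, D ≤ EE σ) ∧ EE σ < bt σ ∧ Z < EE σ := by
  have hne : (bad σ).Nonempty := by
    push Not at hn
    obtain ⟨D, hD, hD'⟩ := hn
    rw [le_stb] at hD'
    push Not at hD'
    obtain ⟨E, hE, hE'⟩ := hD'
    refine ⟨D, mem_bad.mpr ⟨hD, E, hE, ?_, hE'⟩⟩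
    rcases hσ.total hE hD with h | h
    · exact h
    · exact absurd (h.trans Subgroup.le_normalizer) hE'
  have hbt : bt σ ∈ bad σ := by
    apply inf_mem_of_chain _ hne
    intro D hD E hE
    exact hσ.total (mem_bad.mp hD).1 (mem_bad.mp hE).1
  have hle : ∀ D ∈ bad σ, bt σ ≤ D := fun D hD => Finset.inf_le (f := id) hD
  have hbt' := mem_bad.mp hbt
  have hgd : ∀ D ∈ gd σ, D ≤ EE σ := by
    intro D hD
    obtain ⟨h1, h2⟩ := mem_gd.mp hD
    have h3 : ∀ E ∈ σ, E ≤ D → D ≤ Subgroup.normalizer (E : Set X) := by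
      intro E hE hED
      by_contra h4
      exact h2 ⟨E, hE, hED, h4⟩
    apply le_inf
    · rcases hσ.total h1 hbt'.1 with h | h
      · exact h
      · exfalso
        obtain ⟨E, hE, hE1, hE2⟩ := hbt'.2
        exact hE2 (h.trans (h3 E hE (hE1.trans h)))
    · rw [le_stb]
      intro E hE
      rcases hσ.total (mem_gd.mp hE).1 h1 with h | h
      · exact h3 E (mem_gd.mp hE).1 h
      · exact h.trans Subgroup.le_normalizer
  obtain ⟨E, hE, hE1, hE2⟩ := hbt'.2
  have hEgd : E ∈ gd σ := by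
    rw [mem_gd]
    refine ⟨hE, fun hb => ?_⟩
    have h1 : E = bt σ := le_antisymm hE1 (hle E (mem_bad.mpr ⟨hE, hb⟩))
    apply hE2
    rw [← h1]
    exact Subgroup.le_normalizer
  refine ⟨hbt, hle, hgd, ?_, ?_⟩
  · refine lt_of_le_of_ne inf_le_left fun h => ?_
    apply hE2
    have h1 : bt σ ≤ stb (gd σ) := by
      rw [← h]
      exact inf_le_right
    exact le_stb.mp h1 E hEgd
  · exact lt_of_lt_of_le (hσ.1 E hE).2 (hgd E hEgd)

section Steps

variable [DecidableEq (Subgroup X)]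

theorem bad_insert {ℓ : ℕ} {Z : Subgroup X} {σ : Finset (Subgroup X)} (hσ : IsCh ℓ Z σ)
    (hn : ¬ ∀ D ∈ σ, D ≤ stb σ) (hE : EE σ ∉ σ) : bad (insert (EE σ) σ) = bad σ := by
  obtain ⟨h1, h2, h3, h4, h5⟩ := facts hσ hn
  ext D
  rw [mem_bad, mem_bad]
  constructor
  · rintro ⟨hD, E, hE1, hE2, hE3⟩
    rcases Finset.mem_insert.mp hD with rfl | hD
    · exfalso
      rcases Finset.mem_insert.mp hE1 with rfl | hE1
      · exact hE3 Subgroup.le_normalizer
      · have h6 : E ∈ gd σ := by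
          rw [mem_gd]
          refine ⟨hE1, fun hb => ?_⟩
          have h7 := h2 E (mem_bad.mpr ⟨hE1, hb⟩)
          exact absurd (h7.trans hE2) h4.not_ge
        exact hE3 (le_stb.mp inf_le_right E h6)
    · refine ⟨hD, ?_⟩
      rcases Finset.mem_insert.mp hE1 with rfl | hE1
      · by_contra h6
        have h7 := h3 D (mem_gd.mpr ⟨hD, h6⟩)
        have h8 : D = EE σ := le_antisymm h7 hE2
        rw [h8] at hD
        exact hE hD
      · exact ⟨E, hE1, hE2, hE3⟩
  · rintro ⟨hD, E, hE1, hE2, hE3⟩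
    exact ⟨Finset.mem_insert_of_mem hD, E, Finset.mem_insert_of_mem hE1, hE2, hE3⟩

theorem bad_erase [Finite X] {ℓ : ℕ} [Fact ℓ.Prime] {Z : Subgroup X} {σ : Finset (Subgroup X)}
    (hσ : IsCh ℓ Z σ) (hn : ¬ ∀ D ∈ σ, D ≤ stb σ) : bad (σ.erase (EE σ)) = bad σ := by
  obtain ⟨h1, h2, h3, h4, h5⟩ := facts hσ hn
  have hbt := mem_bad.mp h1
  have hkey : ∃ E0 ∈ σ.erase (EE σ), E0 ≤ bt σ ∧ ¬ bt σ ≤ Subgroup.normalizer (E0 : Set X) := by
    by_contra hcon
    push Not at hcon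
    have h6 : bt σ ⊓ Subgroup.normalizer ((EE σ : Subgroup X) : Set X) ≤ EE σ := by
      apply le_inf inf_le_left
      rw [le_stb]
      intro E hE
      by_cases hE' : E = EE σ
      · rw [hE']
        exact inf_le_right
      · have h7 : E ≤ bt σ := (h3 E hE).trans h4.le
        exact inf_le_left.trans (hcon E (Finset.mem_erase.mpr ⟨hE', (mem_gd.mp hE).1⟩) h7)
    have h8 := grow (hσ.1 _ hbt.1).1 h4.le h6
    exact absurd h8 h4.not_ge
  obtain ⟨E0, hE0, hE1, hE2⟩ := hkey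
  ext D
  rw [mem_bad, mem_bad]
  constructor
  · rintro ⟨hD, E, hE1, hE2, hE3⟩
    exact ⟨Finset.mem_of_mem_erase hD, E, Finset.mem_of_mem_erase hE1, hE2, hE3⟩
  · rintro ⟨hD, hb⟩
    have h6 := h2 D (mem_bad.mpr ⟨hD, hb⟩)
    refine ⟨Finset.mem_erase.mpr ⟨?_, hD⟩, E0, hE0, hE1.trans h6, fun h7 => hE2 (h6.trans h7)⟩
    rintro rfl
    exact absurd h6 h4.not_ge

theorem EE_insert {ℓ : ℕ} {Z : Subgroup X} {σ : Finset (Subgroup X)} (hσ : IsCh ℓ Z σ)
    (hn : ¬ ∀ D ∈ σ, D ≤ stb σ) (hE : EE σ ∉ σ) : EE (insert (EE σ) σ) = EE σ := by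
  have hb := bad_insert hσ hn hE
  have h1 : bt (insert (EE σ) σ) = bt σ := by rw [bt, hb, ← bt]
  have h2 : ∀ D, D ∈ gd (insert (EE σ) σ) ↔ D = EE σ ∨ D ∈ gd σ := by
    intro D
    have e1 : D ∈ gd (insert (EE σ) σ) ↔ D ∈ insert (EE σ) σ ∧ D ∉ bad σ := by
      rw [← hb, mem_gd, mem_bad]
      tauto
    have e2 : D ∈ gd σ ↔ D ∈ σ ∧ D ∉ bad σ := by
      rw [mem_gd, mem_bad]
      tauto
    rw [e1, e2, Finset.mem_insert]
    constructor
    · rintro ⟨rfl | h, h'⟩
      · exact Or.inl rfl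
      · exact Or.inr ⟨h, h'⟩
    · rintro (rfl | ⟨h, h'⟩)
      · exact ⟨Or.inl rfl, fun h' => hE (mem_bad.mp h').1⟩
      · exact ⟨Or.inr h, h'⟩
  change bt (insert (EE σ) σ) ⊓ stb (gd (insert (EE σ) σ)) = EE σ
  rw [h1]
  apply le_antisymm
  · apply inf_le_inf_left
    rw [le_stb]
    intro E hE
    exact le_stb.mp le_rfl E ((h2 E).mpr (Or.inr hE))
  · apply le_inf inf_le_left
    rw [le_stb]
    intro E hE
    rcases (h2 E).mp hE with rfl | hE
    · exact Subgroup.le_normalizer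
    · exact le_stb.mp inf_le_right E hE

theorem EE_erase [Finite X] {ℓ : ℕ} [Fact ℓ.Prime] {Z : Subgroup X} {σ : Finset (Subgroup X)}
    (hσ : IsCh ℓ Z σ) (hn : ¬ ∀ D ∈ σ, D ≤ stb σ) : EE (σ.erase (EE σ)) = EE σ := by
  obtain ⟨f1, f2, f3, f4, f5⟩ := facts hσ hn
  have hb := bad_erase hσ hn
  have h1 : bt (σ.erase (EE σ)) = bt σ := by rw [bt, hb, ← bt]
  have h2 : ∀ D, D ∈ gd (σ.erase (EE σ)) ↔ D ≠ EE σ ∧ D ∈ gd σ := by
    intro D
    have e1 : D ∈ gd (σ.erase (EE σ)) ↔ D ∈ σ.erase (EE σ) ∧ D ∉ bad σ := by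
      rw [← hb, mem_gd, mem_bad]
      tauto
    have e2 : D ∈ gd σ ↔ D ∈ σ ∧ D ∉ bad σ := by
      rw [mem_gd, mem_bad]
      tauto
    rw [e1, e2, Finset.mem_erase]
    tauto
  change bt (σ.erase (EE σ)) ⊓ stb (gd (σ.erase (EE σ))) = EE σ
  rw [h1]
  have hle : EE σ ≤ bt σ ⊓ stb (gd (σ.erase (EE σ))) := by
    apply le_inf inf_le_left
    rw [le_stb]
    intro E hE
    exact le_stb.mp inf_le_right E ((h2 E).mp hE).2
  refine le_antisymm ?_ hle
  have hP : IsPGroup ℓ (bt σ ⊓ stb (gd (σ.erase (EE σ))) : Subgroup X) :=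
    (hσ.1 _ (mem_bad.mp f1).1).1.to_le inf_le_left
  apply grow hP hle
  apply le_inf (inf_le_left.trans inf_le_left)
  rw [le_stb]
  intro E hE
  by_cases hE' : E = EE σ
  · rw [hE']
    exact inf_le_right
  · exact inf_le_left.trans (inf_le_right.trans (le_stb.mp le_rfl E ((h2 E).mpr ⟨hE', hE⟩)))

theorem stb_insert {ℓ : ℕ} {Z : Subgroup X} {σ : Finset (Subgroup X)} (hσ : IsCh ℓ Z σ)
    (hn : ¬ ∀ D ∈ σ, D ≤ stb σ) : stb (insert (EE σ) σ) = stb σ := by
  obtain ⟨f1, f2, f3, f4, f5⟩ := facts hσ hn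
  apply le_antisymm
  · exact stb_mono (Finset.subset_insert _ _)
  · rw [le_stb]
    intro E hE
    rcases Finset.mem_insert.mp hE with rfl | hE
    · -- elements of the stabilizer normalize the toggled subgroup
      have h1 : stb σ ≤ Subgroup.normalizer ((bt σ : Subgroup X) : Set X) :=
        le_stb.mp le_rfl _ (mem_bad.mp f1).1
      have h2 : stb σ ≤ Subgroup.normalizer ((stb (gd σ) : Subgroup X) : Set X) := by
        have h3 : stb σ ≤ stb (gd σ) := stb_mono (fun D hD => (mem_gd.mp hD).1)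
        exact h3.trans Subgroup.le_normalizer
      exact (le_inf h1 h2).trans Subgroup.inf_normalizer_le_normalizer_inf
    · exact le_stb.mp le_rfl E hE

end Steps

end QN

theorem QN_thm : Stmt_QN := by
  intro X _ _ ℓ _ Z W
  classical
  have e : NCh ℓ Z = (Ch ℓ Z).filter (fun σ => ∀ D ∈ σ, D ≤ stb σ) := rfl
  rw [e, ← Finset.sum_filter_add_sum_filter_not (Ch ℓ Z) (fun σ => ∀ D ∈ σ, D ≤ stb σ),
    add_eq_left]
  apply sum_toggle _ QN.EE (fun σ => W (stb σ))
  · intro σ hσ hE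
    rw [Finset.mem_filter, mem_Ch] at hσ
    obtain ⟨hσ1, hσ2⟩ := hσ
    obtain ⟨f1, f2, f3, f4, f5⟩ := QN.facts hσ1 hσ2
    refine ⟨?_, QN.EE_insert hσ1 hσ2 hE, by rw [QN.stb_insert hσ1 hσ2]⟩
    rw [Finset.mem_filter, mem_Ch]
    constructor
    · refine hσ1.insert ?_ f5 ?_
      · exact (hσ1.1 _ (QN.mem_bad.mp f1).1).1.to_le f4.le
      · intro D hD
        by_cases hb : QN.IsBad σ D
        · exact Or.inr (f4.le.trans (f2 D (QN.mem_bad.mpr ⟨hD, hb⟩)))
        · exact Or.inl (f3 D (QN.mem_gd.mpr ⟨hD, hb⟩))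
    · intro hall
      apply hσ2
      intro D hD
      exact (hall D (Finset.mem_insert_of_mem hD)).trans
        (QN.stb_mono (Finset.subset_insert _ _))
  · intro σ hσ hE
    rw [Finset.mem_filter, mem_Ch] at hσ
    obtain ⟨hσ1, hσ2⟩ := hσ
    obtain ⟨f1, f2, f3, f4, f5⟩ := QN.facts hσ1 hσ2
    refine ⟨?_, QN.EE_erase hσ1 hσ2⟩
    rw [Finset.mem_filter, mem_Ch]
    refine ⟨hσ1.subset (Finset.erase_subset _ _), ?_⟩
    intro hall
    have h1 : QN.bt σ ∈ QN.bad (σ.erase (QN.EE σ)) := by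
      rw [QN.bad_erase hσ1 hσ2]
      exact f1
    obtain ⟨h2, E, hE1, hE2, hE3⟩ := QN.mem_bad.mp h1
    exact hE3 (QN.le_stb.mp (hall _ h2) E hE1)

end Pool.Agent.DP


end

section

/-!
# QL: Dade's sums of a quotient by a normal subgroup of order prime to `ℓ`
-/

namespace Pool.Agent.DP.QL

open Pool.Agent.Lib_helper13 Representation
open Pool.Agent.Lib_helper13.Dade (pCore DadeHolds dadeSum)

section Irr

variable {X Y : Type*} [Group X] [Fintype X] [Group Y] [Fintype Y] (p : X →* Y)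

theorem card_eq (hp : Function.Surjective p) : Nat.card X = Nat.card p.ker * Nat.card Y := by
  rw [← Subgroup.card_mul_index p.ker, Subgroup.index_ker, MonoidHom.range_eq_top.mpr hp,
    Subgroup.card_top]

open Classical in
theorem card_fiber (hp : Function.Surjective p) (y : Y) :
    (Finset.univ.filter (fun x => p x = y)).card = Nat.card p.ker := by
  have h1 := MonoidHom.card_fiber_eq_of_mem_range p (x := y) (y := 1) (hp y) (hp 1)
  rw [h1, Nat.card_eq_fintype_card, Fintype.card_subtype]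
  congr 1
  ext x
  simp only [Finset.mem_filter, Finset.mem_univ, true_and, MonoidHom.mem_ker]

theorem irr_comp (hp : Function.Surjective p) {χ : Y → ℂ} (h : IsIrr χ) :
    IsIrr (fun x => χ (p x)) := by
  classical
  obtain ⟨n, ρ, hρ, rfl⟩ := h
  have h1 : (Representation.character (ρ.comp p : Representation ℂ X (Fin n → ℂ)))
      = fun x => ρ.character (p x) := rfl
  rw [← h1]
  apply isIrr_of_rep_sum
  rw [h1]
  have h2 := (irreducible_iff_sum ρ).mp hρ
  have h3 : ∑ x : X, (ρ.character (p x) * ρ.character (p x⁻¹)) =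
      ∑ y : Y, (Nat.card p.ker : ℂ) * (ρ.character y * ρ.character y⁻¹) := by
    rw [← Finset.sum_fiberwise_of_maps_to (s := Finset.univ) (g := p) (t := Finset.univ)
      (fun _ _ => Finset.mem_univ _)]
    refine Finset.sum_congr rfl fun y _ => ?_
    rw [Finset.sum_congr rfl (g := fun _ => ρ.character y * ρ.character y⁻¹),
      Finset.sum_const, card_fiber p hp, nsmul_eq_mul]
    intro x hx
    rw [Finset.mem_filter] at hx
    rw [map_inv, hx.2]
  refine h3.trans ?_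
  rw [← Finset.mul_sum, h2, card_eq p hp]
  push_cast
  ring

end Irr

theorem normal_chain {X : Type*} [Group X] [Fintype X] {ℓ : ℕ} {Z : Subgroup X} [hZ : Z.Normal]
    (hZp : IsPGroup ℓ Z) {σ : Finset (Subgroup X)} (hσ : σ ∈ NCh ℓ Z) :
    ∃ Q : Subgroup X, IsPGroup ℓ Q ∧ Q ≤ stb σ ∧
      (∀ s ∈ stb σ, Q.map (MulAut.conj s).toMonoidHom = Q) ∧
      ∀ x, (∀ q ∈ Q, x * q = q * x) → x ∈ stb σ := by
  classical
  rw [NCh, Finset.mem_filter, mem_Ch] at hσ
  obtain ⟨hσ, hn⟩ := hσ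
  rcases σ.eq_empty_or_nonempty with rfl | hne
  · refine ⟨Z, hZp, ?_, ?_, ?_⟩
    · rw [stb_empty]
      exact le_top
    · intro s _
      exact (Subgroup.mem_normalizer_iff_map_conj_eq (H := Z)).mp (by
        rw [Subgroup.mem_normalizer_iff]
        intro x
        constructor
        · intro hx
          exact hZ.conj_mem x hx s
        · intro hx
          have h1 := hZ.conj_mem _ hx s⁻¹
          have h2 : s⁻¹ * (s * x * s⁻¹) * s⁻¹⁻¹ = x := by group
          rwa [h2] at h1)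
    · intro x _
      rw [stb_empty]
      exact Subgroup.mem_top x
  · obtain ⟨T, hT, hT'⟩ := hσ.exists_top hne
    refine ⟨T, (hσ.1 T hT).1, hn T hT, ?_, ?_⟩
    · intro s hs
      exact mem_stb.mp hs T hT
    · intro x hx
      rw [mem_stb']
      intro D hD y
      have hc : ∀ z ∈ D, x * z * x⁻¹ = z := by
        intro z hz
        rw [hx z (hT' D hD hz)]
        group
      constructor
      · intro hy
        rw [hc y hy]
        exact hy
      · intro hy
        have h1 := hc _ hy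
        have h2 : x * y * x⁻¹ = y := by
          have h3 : x * (x * y * x⁻¹) * x⁻¹ = x * y * x⁻¹ := h1
          have h4 : x * y * x⁻¹ = x⁻¹ * (x * (x * y * x⁻¹) * x⁻¹) * x := by group
          rw [h3] at h4
          rw [h4]
          group
        rwa [h2] at hy

theorem core (h1 : Stmt_QN) (h2 : Stmt_QC) (h3 : Stmt_QB) (X Y : Type) [Group X] [Fintype X]
    [Group Y] [Fintype Y]
    (𝔐 : Ideal (integralClosure ℤ ℂ)) (ℓ : ℕ) [Fact ℓ.Prime] (h𝔐 : 𝔐.IsMaximal)
    (hℓ : (ℓ : integralClosure ℤ ℂ) ∈ 𝔐) (p : X →* Y) (hp : Function.Surjective p)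
    (hk : ¬ ℓ ∣ Nat.card p.ker) (hc : (pCore ℓ X).map p = pCore ℓ Y)
    (χ : Y → ℂ) (d : ℕ) (hχ : IsIrr χ) :
    KK 𝔐 ℓ d (pCore ℓ X) (cen 𝔐 (MonoidHom.id X) (fun x => χ (p x))) =
      (Nat.card p.ker : ℚ) * KK 𝔐 ℓ d (pCore ℓ Y) (cen 𝔐 (MonoidHom.id Y) χ) := by
  classical
  have hn : (pCore ℓ X).Normal := pCore_normal ℓ
  have hpg : IsPGroup ℓ (pCore ℓ X) := isPGroup_pCore ℓ
  have e1 := h1 X ℓ (pCore ℓ X) (fun S => (Nat.card S : ℚ) *
    cnt 𝔐 ℓ d S.subtype (cen 𝔐 (MonoidHom.id X) (fun x => χ (p x))))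
  have e2 := h1 Y ℓ (pCore ℓ Y) (fun S => (Nat.card S : ℚ) *
    cnt 𝔐 ℓ d S.subtype (cen 𝔐 (MonoidHom.id Y) χ))
  obtain ⟨c1, c2⟩ := h2 X Y ℓ p hp hk (pCore ℓ X) hpg
  have c3 := c2 (fun σ => (cnt 𝔐 ℓ d (stb σ).subtype (cen 𝔐 (MonoidHom.id Y) χ) : ℚ))
  rw [hc] at c3
  rw [KK, KK]
  refine e1.trans ?_
  refine Eq.trans ?_ (c3.trans (congrArg (fun z => (Nat.card p.ker : ℚ) * z) e2.symm))
  refine Finset.sum_congr rfl fun σ hσ => ?_
  obtain ⟨Q, q1, q2, q3, q4⟩ := normal_chain hpg hσ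
  have b := h3 X Y 𝔐 ℓ h𝔐 hℓ p hp hk (stb σ) Q q1 q2 q3 q4 χ d hχ
  have hσ' : IsCh ℓ (pCore ℓ X) σ := by
    rw [NCh, Finset.mem_filter, mem_Ch] at hσ
    exact hσ.1
  rw [c1 σ hσ'] at b
  rw [b]

end Pool.Agent.DP.QL

namespace Pool.Agent.DP

open Pool.Agent.Lib_helper13 Representation
open Pool.Agent.Lib_helper13.Dade (pCore DadeHolds dadeSum)

theorem QL_thm (h1 : Stmt_QN) (h2 : Stmt_QC) (h3 : Stmt_QB) : Stmt_QL := by
  intro X Y _ _ _ _ 𝔐 ℓ _ h𝔐 hℓ p hp hk hc χ d hχ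
  have hχ' : IsIrr (fun x => χ (p x)) := QL.irr_comp p hp hχ
  have a1 := dadeSum_eq 𝔐 ℓ d hχ'
  have a2 := dadeSum_eq 𝔐 ℓ d hχ
  have a3 := QL.core h1 h2 h3 X Y 𝔐 ℓ h𝔐 hℓ p hp hk hc χ d hχ
  rw [a3, ← a2, QL.card_eq p hp] at a1
  have hk0 : (Nat.card p.ker : ℚ) ≠ 0 := by
    have : Nat.card p.ker ≠ 0 := Nat.card_pos.ne'
    exact_mod_cast this
  have hY0 : (Nat.card Y : ℚ) ≠ 0 := by
    have : Nat.card Y ≠ 0 := Nat.card_pos.ne'
    exact_mod_cast this
  push_cast at a1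
  rw [mul_assoc] at a1
  have a4 := mul_left_cancel₀ hY0 (mul_left_cancel₀ hk0 a1)
  exact_mod_cast a4

end Pool.Agent.DP


end
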