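import Mathlib
import Pool.Agent.DAM.C04
import Pool.Agent.DAM.C05
import Pool.Agent.DAM.C08
import Pool.Agent.DAM.C12
import Pool.Agent.DAM.C15
import Pool.Agent.DAM.C22
import Pool.Agent.DAM.C23
import Pool.Agent.DAM.C24
import Pool.Agent.DAM.C25
import Pool.Agent.Lib_helper13.DadeDefs

/-! Parts: Lib_helper13.PCoreWr, DPT.StmtsA, DPT.AVG, DPT.MLE, DPT.DGSA, DPT.DGSR, DPT.HHS, DPT.MLR, DPT.XIP, DPT.StmtsB, DPT.CHZ, DPT.STT, DP.EVALR, DPC.BLKCR -/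

section

set_option linter.unusedSectionVars false

/-! `O_ℓ` of powers and wreath products. -/

namespace Pool.Agent.Lib_helper13

open Dade

section PC

variable {G : Type*} [Group G]

theorem pCore_eq_bot_iff {ℓ : ℕ} :
    pCore ℓ G = ⊥ ↔ ∀ N : Subgroup G, N.Normal → IsPGroup ℓ N → N = ⊥ := by
  constructor
  · intro h N h1 h2
    rw [eq_bot_iff, ← h]
    exact le_sSup ⟨h1, h2⟩
  · intro h
    rw [eq_bot_iff]
    apply sSup_le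
    rintro N ⟨h1, h2⟩
    exact (h N h1 h2).le

theorem pCore_pi {ℓ : ℕ} (h : pCore ℓ G = ⊥) (ι : Type*) : pCore ℓ (ι → G) = ⊥ := by
  rw [pCore_eq_bot_iff] at h ⊢
  intro N h1 h2
  rw [eq_bot_iff]
  intro x hx
  rw [Subgroup.mem_bot]
  ext j
  have h3 : (N.map (Pi.evalMonoidHom (fun _ : ι => G) j)) = ⊥ := by
    apply h
    · exact h1.map _ (Function.surjective_eval j)
    · exact h2.map _
  have h4 : x j ∈ N.map (Pi.evalMonoidHom (fun _ : ι => G) j) := ⟨x, hx, rfl⟩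
  rw [h3, Subgroup.mem_bot] at h4
  exact h4

theorem pCore_wreath {ℓ : ℕ} [Nontrivial G] (h : pCore ℓ G = ⊥) (Q : Type*) [CommGroup Q]
    [DecidableEq Q] : pCore ℓ (G ≀ᵣ Q) = ⊥ := by
  have hp := pCore_pi h Q
  rw [pCore_eq_bot_iff] at hp ⊢
  intro N h1 h2
  have h3 : N.comap (bse : (Q → G) →* (G ≀ᵣ Q)) = ⊥ := by
    apply hp
    · exact h1.comap _
    · exact h2.comap_of_injective _ bse_injective
  rw [eq_bot_iff]
  intro n hn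
  have hbase : n.right = 1 := by
    by_contra ht
    obtain ⟨g, hg⟩ := exists_ne (1 : G)
    obtain ⟨x, hx⟩ : ∃ x : Q → G, x = Pi.mulSingle 1 g := ⟨_, rfl⟩
    have h4 : n * bse x * n⁻¹ * (bse x : G ≀ᵣ Q)⁻¹ ∈ N := by
      have h5 : n * bse x * n⁻¹ * (bse x : G ≀ᵣ Q)⁻¹ =
          n * (bse x * n⁻¹ * (bse x : G ≀ᵣ Q)⁻¹) := by group
      rw [h5]
      exact N.mul_mem hn (h1.conj_mem _ (N.inv_mem hn) _)
    rw [conj_bse, ← map_inv, ← map_mul] at h4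
    have h5 : wAct (sft n.right) n.left x * x⁻¹ ∈ N.comap (bse : (Q → G) →* (G ≀ᵣ Q)) := h4
    rw [h3, Subgroup.mem_bot, mul_inv_eq_one] at h5
    have h6 := congrFun h5 1
    have h7 : wAct (sft n.right) n.left x 1 = n.left 1 * x (n.right⁻¹ * 1) * (n.left 1)⁻¹ := rfl
    have h8 : x (n.right⁻¹ * 1) = 1 := by
      rw [hx, Pi.mulSingle_eq_of_ne]
      rw [mul_one]
      intro h9
      exact ht (inv_eq_one.mp h9)
    rw [h7, h8, mul_one, mul_inv_cancel, hx, Pi.mulSingle_eq_same] at h6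
    exact hg h6.symm
  have h4 : n.left ∈ N.comap (bse : (Q → G) →* (G ≀ᵣ Q)) := by
    change bse n.left ∈ N
    have h5 : (bse n.left : G ≀ᵣ Q) = n := by
      ext1
      · rfl
      · exact hbase.symm
    rw [h5]
    exact hn
  rw [h3, Subgroup.mem_bot] at h4
  rw [Subgroup.mem_bot]
  ext1
  · exact h4
  · exact hbase

end PC

end Pool.Agent.Lib_helper13


end

section

/-!
# The minimal normal subgroups of a minimal counterexample to Dade's conjecture: statements of the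
modules, part A (the correspondence of characters of defect zero and Clifford theory)
-/

namespace Pool.Agent.DPT

open Pool.Agent.DP Pool.Agent.DPC Pool.Agent.DPM Pool.Agent.DPN Pool.Agent.Lib_helper13
open Representation
open Pool.Agent.Lib_helper13.Dade (pCore DadeHolds dadeSum)

/-! ### Groups -/

/-- HHS: subgroups and quotients. -/
def Stmt_HHS : Prop :=
  ∀ (H : Type) [Group H] [Finite H] (ℓ : ℕ) [Fact ℓ.Prime], HH ℓ H →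
    (∀ (S : Type) [Group S] (i : S →* H), Function.Injective i → HH ℓ S) ∧
    (∀ (Q : Type) [Group Q] (q : H →* Q), Function.Surjective q → HH ℓ Q) ∧
    (pCore ℓ H = ⊥ → ¬ ℓ ∣ Nat.card H)

/-- EXTL: extension of a linear character of a central subgroup. -/
def Stmt_EXTL : Prop :=
  ∀ (W H : Type) [Group W] [Fintype W] [Group H] [Finite H] (ℓ : ℕ) [Fact ℓ.Prime]
    (A : Subgroup W), A ≤ Subgroup.center W → ∀ f : W →* H, (∀ w, f w = 1 ↔ w ∈ A) → HH ℓ H →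
    ∀ (χ : A →* ℂˣ) (m : ℕ), ¬ ℓ ∣ m → (∃ δ : W →* ℂˣ, ∀ a : A, δ a = χ a ^ m) →
    (∀ (x y : W) (h : x * y * x⁻¹ * y⁻¹ ∈ A) (n : ℕ), ¬ ℓ ∣ n → x ^ n ∈ A → y ^ n ∈ A →
      χ ⟨x * y * x⁻¹ * y⁻¹, h⟩ = 1) →
    ∃ κ : W →* ℂˣ, ∀ a : A, κ a = χ a

/-- LAYG: a normal subgroup on which an abelian group acts through a cyclic group. -/
def Stmt_LAYG : Prop :=
  ∀ (G : Type) [Group G] [Finite G] (ℓ : ℕ) [Fact ℓ.Prime] (R R₀ S C : Subgroup G),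
    IsPGroup ℓ R → R₀ < R → (∀ r ∈ R, ∀ x ∈ R₀, r * x * r⁻¹ ∈ R₀) →
    (∀ s ∈ S, ∀ r ∈ R, s * r * s⁻¹ ∈ R) → (∀ s ∈ S, ∀ r ∈ R₀, s * r * s⁻¹ ∈ R₀) →
    (∀ s ∈ S, ∀ t ∈ S, s * t * s⁻¹ * t⁻¹ ∈ C) → (∀ c ∈ C, ∀ r ∈ R, c * r = r * c) →
    ∃ R₁ : Subgroup G, R₀ < R₁ ∧ R₁ ≤ R ∧ (∀ r ∈ R, ∀ x ∈ R₁, r * x * r⁻¹ ∈ R₁) ∧
      (∀ s ∈ S, ∀ x ∈ R₁, s * x * s⁻¹ ∈ R₁) ∧
      ∃ s₀ ∈ S, ∀ s ∈ S, ∃ i : ℤ, ∀ r ∈ R₁, (s * s₀ ^ i) * r * (s * s₀ ^ i)⁻¹ * r⁻¹ ∈ R₀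

/-- COPR: coprime action. -/
def Stmt_COPR : Prop :=
  ∀ (G : Type) [Group G] [Finite G] (ℓ : ℕ) [Fact ℓ.Prime] (R₁ R₀ : Subgroup G) (y : G),
    IsPGroup ℓ R₁ → R₀ ≤ R₁ → (∀ r ∈ R₁, ∀ x ∈ R₀, r * x * r⁻¹ ∈ R₀) →
    (∀ r ∈ R₁, y * r * y⁻¹ * r⁻¹ ∈ R₀) → (∀ r ∈ R₁, y * r * y⁻¹ ∈ R₁) →
    (∀ r ∈ R₀, y * r * y⁻¹ ∈ R₀) → ∀ n : ℕ, ¬ ℓ ∣ n → (∀ r ∈ R₁, y ^ n * r = r * y ^ n) →
    ∀ r ∈ R₁, ∃ x ∈ R₀, ∃ c ∈ R₁, c * y = y * c ∧ r = x * c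

/-! ### The characters over a linear character of the kernel -/

/-- MLE: existence and uniqueness. -/
def Stmt_MLE : Prop :=
  ∀ (Y G : Type) [Group Y] [Fintype Y] [Group G] [Fintype G]
    (𝔐 : Ideal (integralClosure ℤ ℂ)) (ℓ : ℕ) [Fact ℓ.Prime], 𝔐.IsMaximal →
    (ℓ : integralClosure ℤ ℂ) ∈ 𝔐 → ∀ k : Y →* G, FC ℓ k → ∀ (lam : k.ker →* ℂˣ)
    (C : Subgroup G), C ≤ k.range →
    (∀ θ : G → ℂ, ID ℓ C 0 θ →
      (∃ χ, ML 𝔐 k lam C θ χ) ∧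
      (∀ χ χ', ML 𝔐 k lam C θ χ → ML 𝔐 k lam C θ χ' → χ = χ') ∧
      (∀ χ, ML 𝔐 k lam C θ χ → ID ℓ (C.comap k) (padicValNat ℓ (Nat.card k.ker)) χ) ∧
      ∀ χ θ', ID ℓ C 0 θ' → ML 𝔐 k lam C θ χ → ML 𝔐 k lam C θ' χ → θ = θ') ∧
    ∀ χ, ID ℓ (C.comap k) (padicValNat ℓ (Nat.card k.ker)) χ → OvK k lam χ →
      ∃ θ, ID ℓ C 0 θ ∧ ML 𝔐 k lam C θ χ

/-- MLX: the values. -/
def Stmt_MLX : Prop :=
  ∀ (Y G : Type) [Group Y] [Fintype Y] [Group G] [Fintype G]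
    (𝔐 : Ideal (integralClosure ℤ ℂ)) (ℓ : ℕ) [Fact ℓ.Prime], 𝔐.IsMaximal →
    (ℓ : integralClosure ℤ ℂ) ∈ 𝔐 → ∀ k : Y →* G, FC ℓ k → ∀ (lam : k.ker →* ℂˣ)
    (C : Subgroup G), C ≤ k.range → ∀ θ : G → ℂ, ID ℓ C 0 θ →
    (∀ x, ℓ ∣ orderOf x → θ x = 0) ∧
    ∀ χ, ML 𝔐 k lam C θ χ →
      (∀ y, ¬ ℓ ∣ orderOf y → χ y = θ (k y)) ∧ (∀ y, ℓ ∣ orderOf (k y) → χ y = 0) ∧ χ 1 = θ 1

/-- MLV: the weights. -/
def Stmt_MLV : Prop :=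
  ∀ (Y G : Type) [Group Y] [Fintype Y] [Group G] [Fintype G]
    (𝔐 : Ideal (integralClosure ℤ ℂ)) (ℓ : ℕ) [Fact ℓ.Prime], 𝔐.IsMaximal →
    (ℓ : integralClosure ℤ ℂ) ∈ 𝔐 → ∀ k : Y →* G, FC ℓ k → ∀ (lam : k.ker →* ℂˣ)
    (C : Subgroup G), C ≤ k.range → ∀ (θ : G → ℂ) (χ : Y → ℂ), ID ℓ C 0 θ →
    ML 𝔐 k lam C θ χ →
    (∀ F : Y → ℂ, (∀ n ∈ C.comap k, ∀ x ∈ C.comap k, F (n * x * n⁻¹) = F x) →
      (∀ x, IsIntegral ℤ (F x)) →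
      red 𝔐 (wS (C.comap k) χ F) = red 𝔐 (wS C θ (pu k F))) ∧
    ∀ F : G → ℂ, (∀ n ∈ C, ∀ x ∈ C, F (n * x * n⁻¹) = F x) → (∀ x, IsIntegral ℤ (F x)) →
      red 𝔐 (wS (C.comap k) χ (rg ℓ k F)) = red 𝔐 (wS C θ F)

/-- DEFR: a criterion for the smallest possible defect. -/
def Stmt_DEFR : Prop :=
  ∀ (Y G : Type) [Group Y] [Fintype Y] [Group G] [Fintype G]
    (𝔐 : Ideal (integralClosure ℤ ℂ)) (ℓ : ℕ) [Fact ℓ.Prime], 𝔐.IsMaximal →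
    (ℓ : integralClosure ℤ ℂ) ∈ 𝔐 → ∀ k : Y →* G, FC ℓ k → ∀ (lam : k.ker →* ℂˣ)
    (C : Subgroup G), C ≤ k.range → ∀ χ : Y → ℂ, IrrOn (C.comap k) χ → OvK k lam χ →
    ∀ x ∈ C, (∀ g ∈ C, g * x = x * g → ∀ n : ℕ, g ^ ℓ ^ n = 1 → g = 1) →
    ∀ F : Y → ℂ, (∀ n ∈ C.comap k, ∀ y ∈ C.comap k, F (n * y * n⁻¹) = F y) →
      (∀ y, IsIntegral ℤ (F y)) →
      (∀ y ∈ C.comap k, F y ≠ 0 → ∃ g ∈ C, k y = g * x * g⁻¹) →
      red 𝔐 (wS (C.comap k) χ F) ≠ 0 →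
      ID ℓ (C.comap k) (padicValNat ℓ (Nat.card k.ker)) χ

/-- MLT: conjugates. -/
def Stmt_MLT : Prop :=
  ∀ (Y G : Type) [Group Y] [Fintype Y] [Group G] [Fintype G]
    (𝔐 : Ideal (integralClosure ℤ ℂ)) (ℓ : ℕ) (k : Y →* G), FC ℓ k → ∀ (lam : k.ker →* ℂˣ)
    (C : Subgroup G) (θ : G → ℂ) (χ : Y → ℂ), ML 𝔐 k lam C θ χ → ∀ y : Y,
    (∀ c, c ∈ C ↔ k y * c * (k y)⁻¹ ∈ C) →
    ML 𝔐 k lam C (fun g => θ (k y * g * (k y)⁻¹)) (fun z => χ (y * z * y⁻¹))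

/-- MLR: restriction. -/
def Stmt_MLR : Prop :=
  ∀ (Y G : Type) [Group Y] [Fintype Y] [Group G] [Fintype G]
    (𝔐 : Ideal (integralClosure ℤ ℂ)) (ℓ : ℕ) [Fact ℓ.Prime], 𝔐.IsMaximal →
    (ℓ : integralClosure ℤ ℂ) ∈ 𝔐 → ∀ k : Y →* G, FC ℓ k → ∀ (lam : k.ker →* ℂˣ)
    (N N' : Subgroup G), N ≤ N' → N' ≤ k.range → ∀ θ E : G → ℂ, ID ℓ N 0 θ → ID ℓ N' 0 E →
    (∀ n ∈ N, E n = θ n) → ∀ χ χ' : Y → ℂ, ML 𝔐 k lam N θ χ → ML 𝔐 k lam N' E χ' →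
    ∀ y ∈ N.comap k, χ' y = χ y

/-- XIP: the multiplicity is prime to `ℓ`. -/
def Stmt_XIP : Prop :=
  ∀ (Y G : Type) [Group Y] [Fintype Y] [Group G] [Fintype G]
    (𝔐 : Ideal (integralClosure ℤ ℂ)) (ℓ : ℕ) [Fact ℓ.Prime], 𝔐.IsMaximal →
    (ℓ : integralClosure ℤ ℂ) ∈ 𝔐 → ∀ k : Y →* G, FC ℓ k → ∀ (lam : k.ker →* ℂˣ)
    (C M : Subgroup G), C ≤ M → M ≤ k.range → ∀ θ θ' : G → ℂ, ID ℓ M 0 θ → ID ℓ C 0 θ' →
    (∃ c : (integralClosure ℤ ℂ) ⧸ 𝔐, c ≠ 0 ∧ ∀ x ∈ C, red 𝔐 (θ x) = c * red 𝔐 (θ' x)) →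
    ∀ χ χ' : Y → ℂ, ML 𝔐 k lam M θ χ → ML 𝔐 k lam C θ' χ' →
      ∃ m : ℕ, ¬ ℓ ∣ m ∧ iS (C.comap k) χ χ' = m

/-! ### The correspondence for subgroups -/

/-- DGSA: the correspondence in terms of actions. -/
def Stmt_DGSA : Prop :=
  ∀ (G : Type) [Group G] [Fintype G] (𝔐 : Ideal (integralClosure ℤ ℂ)) (N R : Subgroup G),
    (∀ r ∈ R, ∀ n ∈ N, r * n * r⁻¹ ∈ N) →
    ∃ κ : R →* MulAut N, (∀ r n, ((κ r n : N) : G) = r * n * (r : G)⁻¹) ∧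
      (∀ n : N, n ∈ FX κ ⊤ ↔ (n : G) ∈ cN N R) ∧
      ∀ θ' θ : G → ℂ, DGr 𝔐 κ ⊤ (fun n => θ' (n : N)) (fun n => θ n) ↔ DGs 𝔐 N R θ' θ

/-- DGSB: existence, values and uniqueness. -/
def Stmt_DGSB : Prop :=
  ∀ (G : Type) [Group G] [Fintype G] (𝔐 : Ideal (integralClosure ℤ ℂ)) (ℓ : ℕ)
    [Fact ℓ.Prime], 𝔐.IsMaximal → (ℓ : integralClosure ℤ ℂ) ∈ 𝔐 → ∀ N R : Subgroup G,
    IsPGroup ℓ R → (∀ r ∈ R, ∀ n ∈ N, r * n * r⁻¹ ∈ N) →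
    (∀ θ', ID ℓ (cN N R) 0 θ' → ∃ θ, ID ℓ N 0 θ ∧ DGs 𝔐 N R θ' θ) ∧
    (∀ θ' θ, ID ℓ (cN N R) 0 θ' → ID ℓ N 0 θ → DGs 𝔐 N R θ' θ → R ≤ sx θ ∧
      ∃ ε : ℂ, (ε = 1 ∨ ε = -1) ∧ ∀ x ∈ cN N R, red 𝔐 (θ x) = red 𝔐 ε * red 𝔐 (θ' x)) ∧
    (∀ θ' θ₁ θ₂, ID ℓ (cN N R) 0 θ' → ID ℓ N 0 θ₁ → ID ℓ N 0 θ₂ → DGs 𝔐 N R θ' θ₁ →
      DGs 𝔐 N R θ' θ₂ → θ₁ = θ₂) ∧
    ∀ θ₁ θ₂ θ, ID ℓ (cN N R) 0 θ₁ → ID ℓ (cN N R) 0 θ₂ → ID ℓ N 0 θ → DGs 𝔐 N R θ₁ θ →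
      DGs 𝔐 N R θ₂ θ → θ₁ = θ₂

/-- DGSC: conjugates. -/
def Stmt_DGSC : Prop :=
  ∀ (G : Type) [Group G] [Fintype G] (𝔐 : Ideal (integralClosure ℤ ℂ)) (ℓ d : ℕ) (g : G),
    (∀ (N N' : Subgroup G) (θ : G → ℂ), (∀ x, x ∈ N' ↔ g * x * g⁻¹ ∈ N) → ID ℓ N d θ →
      ID ℓ N' d (fun x => θ (g * x * g⁻¹))) ∧
    ∀ (N N' R R' : Subgroup G) (θ' θ : G → ℂ), (∀ x, x ∈ N' ↔ g * x * g⁻¹ ∈ N) →
      (∀ x, x ∈ R' ↔ g * x * g⁻¹ ∈ R) → DGs 𝔐 N R θ' θ →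
      (∀ x, x ∈ cN N' R' ↔ g * x * g⁻¹ ∈ cN N R) ∧
      DGs 𝔐 N' R' (fun x => θ' (g * x * g⁻¹)) (fun x => θ (g * x * g⁻¹))

/-- DGSR: the correspondence depends only on the action. -/
def Stmt_DGSR : Prop :=
  ∀ (G : Type) [Group G] [Fintype G] (𝔐 : Ideal (integralClosure ℤ ℂ)) (N R R' : Subgroup G),
    R' ≤ R → (∀ r ∈ R, ∃ r' ∈ R', ∀ n ∈ N, r * n * r⁻¹ = r' * n * r'⁻¹) →
    cN N R = cN N R' ∧ ∀ θ' θ, DGs 𝔐 N R θ' θ ↔ DGs 𝔐 N R' θ' θ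

/-- DGSD: the correspondence for a group acting trivially. -/
def Stmt_DGSD : Prop :=
  ∀ (G : Type) [Group G] [Fintype G] (𝔐 : Ideal (integralClosure ℤ ℂ)) (ℓ : ℕ)
    [Fact ℓ.Prime], 𝔐.IsMaximal → (ℓ : integralClosure ℤ ℂ) ∈ 𝔐 → ∀ N R : Subgroup G,
    (∀ r ∈ R, ∀ n ∈ N, r * n = n * r) → cN N R = N ∧
      ∀ θ' θ, ID ℓ N 0 θ' → ID ℓ N 0 θ → DGs 𝔐 N R θ' θ → θ' = θ

/-- DGST: transitivity. -/
def Stmt_DGST : Prop :=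
  ∀ (G : Type) [Group G] [Fintype G] (𝔐 : Ideal (integralClosure ℤ ℂ)) (ℓ : ℕ)
    [Fact ℓ.Prime], 𝔐.IsMaximal → (ℓ : integralClosure ℤ ℂ) ∈ 𝔐 → ∀ N R R₁ : Subgroup G,
    IsPGroup ℓ R → R₁ ≤ R → (∀ r ∈ R, ∀ n ∈ N, r * n * r⁻¹ ∈ N) →
    (∀ r ∈ R, ∀ x ∈ R₁, r * x * r⁻¹ ∈ R₁) →
    cN (cN N R₁) R = cN N R ∧ (∀ r ∈ R, ∀ n ∈ cN N R₁, r * n * r⁻¹ ∈ cN N R₁) ∧
    ∀ θ' θ, ID ℓ (cN N R) 0 θ' → ID ℓ N 0 θ → DGs 𝔐 N R θ' θ →
      ∃ θ₁, ID ℓ (cN N R₁) 0 θ₁ ∧ DGs 𝔐 N R₁ θ₁ θ ∧ DGs 𝔐 (cN N R₁) R θ' θ₁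

/-! ### The commutator form -/

/-- BTX: existence, uniqueness and bimultiplicativity. -/
def Stmt_BTX : Prop :=
  ∀ (G : Type) [Group G] [Fintype G] (N S : Subgroup G), N ≤ S →
    (∀ s ∈ S, ∀ n ∈ N, s * n * s⁻¹ ∈ N) → (∀ s ∈ S, ∀ t ∈ S, s * t * s⁻¹ * t⁻¹ ∈ N) →
    ∀ θ : G → ℂ, IrrOn N θ → S ≤ sx θ →
    ∃ β : G → G → ℂˣ, (∀ s ∈ S, ∀ t ∈ S, ∀ ζ : ℂ, BT N θ s t ζ ↔ ζ = β s t) ∧
      (∀ s ∈ S, ∀ t ∈ S, ∀ u ∈ S, β (s * t) u = β s u * β t u ∧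
        β s (t * u) = β s t * β s u) ∧ ∀ s ∈ S, β s s = 1

/-- BTW: the commutator form and commutators in the twisted group. -/
def Stmt_BTW : Prop :=
  ∀ (A T K Γ L G : Type) [Group A] [Fintype A] [Group T] [Fintype T] [Group K] [Group Γ]
    [Fintype Γ] [Group L] [Fintype L] [Group G] [Fintype G] (j : A →* T) (c : T →* MulAut A)
    (p : T →* K), ClG j c p → Function.Surjective p → ∀ θ : A → ℂ, IsIrr θ →
    (∀ t a, θ (c t a) = θ a) →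
    ∀ (e : A →* Γ) (q : Γ →* L) (r : Γ →* T) (E : Γ → ℂ) (U : Subgroup L) (μ : U →* ℂˣ)
      (π : L →* K), TWD j p θ e q r E U μ π →
    ∀ i : T →* G, Function.Injective i → ∀ θG : G → ℂ, (∀ a, θG (i (j a)) = θ a) →
    (∀ x, x ∉ (i.comp j).range → θG x = 0) →
    ∀ (γ γ' : Γ) (h : q γ * q γ' * (q γ)⁻¹ * (q γ')⁻¹ ∈ U),
      BT (i.comp j).range θG (i (r γ)) (i (r γ')) ((μ ⟨_, h⟩ : ℂˣ) : ℂ)

/-- BTF: the commutator forms of corresponding characters of `N` and its inverse image. -/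
def Stmt_BTF : Prop :=
  ∀ (Y G : Type) [Group Y] [Fintype Y] [Group G] [Fintype G]
    (𝔐 : Ideal (integralClosure ℤ ℂ)) (ℓ : ℕ) [Fact ℓ.Prime], 𝔐.IsMaximal →
    (ℓ : integralClosure ℤ ℂ) ∈ 𝔐 → ∀ k : Y →* G, FC ℓ k → ∀ (lam : k.ker →* ℂˣ)
    (N : Subgroup G), N ≤ k.range → ∀ (θ : G → ℂ) (χ : Y → ℂ), ID ℓ N 0 θ →
    ML 𝔐 k lam N θ χ → ∀ x y : Y, (∀ n ∈ N, k x * n * (k x)⁻¹ ∈ N) →
    (∀ n ∈ N, k y * n * (k y)⁻¹ ∈ N) → k x ∈ sx θ → k y ∈ sx θ →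
    k x * k y * (k x)⁻¹ * (k y)⁻¹ ∈ N → ∀ n : ℕ, ¬ ℓ ∣ n → k y ^ n ∈ N →
    ∀ ζ : ℂ, BT (N.comap k) χ x y ζ ↔ BT N θ (k x) (k y) ζ

/-- BTR: the commutator forms of corresponding characters, one layer. -/
def Stmt_BTR : Prop :=
  ∀ (G : Type) [Group G] [Fintype G] (𝔐 : Ideal (integralClosure ℤ ℂ)) (ℓ : ℕ)
    [Fact ℓ.Prime], 𝔐.IsMaximal → (ℓ : integralClosure ℤ ℂ) ∈ 𝔐 → ∀ N R : Subgroup G,
    IsPGroup ℓ R → (∀ r ∈ R, ∀ n ∈ N, r * n * r⁻¹ ∈ N) →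
    ∀ θ θ' : G → ℂ, ID ℓ N 0 θ → ID ℓ (cN N R) 0 θ' → DGs 𝔐 N R θ' θ →
    ∀ x y : G, (∀ n, n ∈ N ↔ x * n * x⁻¹ ∈ N) → (∀ n ∈ N, y * n * y⁻¹ ∈ N) → x ∈ sx θ →
    y ∈ sx θ → (∀ r, r ∈ R ↔ x * r * x⁻¹ ∈ R) → (∀ r ∈ R, r * y = y * r) →
    x * y * x⁻¹ * y⁻¹ ∈ N → ∀ n : ℕ, ¬ ℓ ∣ n → y ^ n ∈ N →
    ∀ ζ : ℂ, BT N θ x y ζ → BT (cN N R) θ' x y ζ

/-- BTL: the commutator forms of corresponding characters. -/
def Stmt_BTL : Prop :=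
  ∀ (G : Type) [Group G] [Fintype G] (𝔐 : Ideal (integralClosure ℤ ℂ)) (ℓ : ℕ)
    [Fact ℓ.Prime], 𝔐.IsMaximal → (ℓ : integralClosure ℤ ℂ) ∈ 𝔐 → ∀ N R S : Subgroup G,
    IsPGroup ℓ R → (∀ r ∈ R, ∀ n ∈ N, r * n * r⁻¹ ∈ N) →
    (∀ s ∈ S, ∀ n ∈ N, s * n * s⁻¹ ∈ N) → (∀ s ∈ S, ∀ r ∈ R, s * r * s⁻¹ ∈ R) →
    cN N R ≤ S → (∀ s ∈ S, ∀ t ∈ S, s * t * s⁻¹ * t⁻¹ ∈ cN N R) →
    (∀ s ∈ S, ∃ n : ℕ, ¬ ℓ ∣ n ∧ s ^ n ∈ cN N R) →
    ∀ θ θ' : G → ℂ, ID ℓ N 0 θ → ID ℓ (cN N R) 0 θ' → DGs 𝔐 N R θ' θ → S ≤ sx θ →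
    ∀ x ∈ S, ∀ y ∈ S, ∀ ζ : ℂ, BT N θ x y ζ → BT (cN N R) θ' x y ζ

/-! ### Clifford theory -/

/-- AVG: averaging over a normal subgroup. -/
def Stmt_AVG : Prop :=
  ∀ (D W : Type) [Group D] [Fintype D] [Group W] [Fintype W] (f : D →* W),
    Function.Surjective f → ∀ X : D → ℂ, IsChr X →
    ∃ Ξ : W → ℂ, IsChr Ξ ∧ ∀ g, Ξ (f g) = (∑ z : f.ker, X (g * z)) / Nat.card f.ker

/-- DETL: the determinant. -/
def Stmt_DETL : Prop :=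
  ∀ (W : Type) [Group W] [Fintype W] (A : Subgroup W) (χ : A →* ℂˣ) (Ξ : W → ℂ) (m : ℕ),
    IsChr Ξ → Ξ 1 = m → (∀ (a : A) (w : W), Ξ (a * w) = ((χ a : ℂˣ) : ℂ) * Ξ w) → m ≠ 0 →
    ∃ δ : W →* ℂˣ, ∀ a : A, δ a = χ a ^ m

/-- XIM: the character of the space of homomorphisms. -/
def Stmt_XIM : Prop :=
  ∀ (A₁ T₁ Γ₁ L₁ A₂ T₂ Γ₂ L₂ K : Type) [Group A₁] [Fintype A₁] [Group T₁] [Fintype T₁]
    [Group Γ₁] [Fintype Γ₁] [Group L₁] [Fintype L₁] [Group A₂] [Fintype A₂] [Group T₂]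
    [Fintype T₂] [Group Γ₂] [Fintype Γ₂] [Group L₂] [Fintype L₂] [Group K]
    (j₁ : A₁ →* T₁) (p₁ : T₁ →* K) (θ₁ : A₁ → ℂ) (e₁ : A₁ →* Γ₁) (q₁ : Γ₁ →* L₁)
    (r₁ : Γ₁ →* T₁) (E₁ : Γ₁ → ℂ) (U₁ : Subgroup L₁) (μ₁ : U₁ →* ℂˣ) (π₁ : L₁ →* K)
    (j₂ : A₂ →* T₂) (p₂ : T₂ →* K) (θ₂ : A₂ → ℂ) (e₂ : A₂ →* Γ₂) (q₂ : Γ₂ →* L₂)
    (r₂ : Γ₂ →* T₂) (E₂ : Γ₂ → ℂ) (U₂ : Subgroup L₂) (μ₂ : U₂ →* ℂˣ) (π₂ : L₂ →* K),
    TWD j₁ p₁ θ₁ e₁ q₁ r₁ E₁ U₁ μ₁ π₁ → TWD j₂ p₂ θ₂ e₂ q₂ r₂ E₂ U₂ μ₂ π₂ →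
    (∀ t, p₁ t = 1 ↔ t ∈ j₁.range) → (∀ t, p₂ t = 1 ↔ t ∈ j₂.range) →
    Function.Injective j₁ → Function.Injective j₂ → Function.Surjective p₂ →
    IsIrr θ₁ → IsIrr θ₂ →
    ∀ (i : T₂ →* T₁) (i' : A₂ →* A₁), Function.Injective i → (∀ t, p₁ (i t) = p₂ t) →
    (∀ a, i (j₂ a) = j₁ (i' a)) →
    ∃ Ξ : ↥(fpr π₁ π₂) → ℂ, IsChr Ξ ∧ Ξ 1 = ip (fun a => θ₁ (i' a)) θ₂ ∧
      ∀ (u w : ↥(fpr π₁ π₂)) (h₁ : (u : L₁ × L₂).1 ∈ U₁) (h₂ : (u : L₁ × L₂).2 ∈ U₂),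
        ((μ₁ ⟨_, h₁⟩ : ℂˣ) : ℂ) * Ξ (u * w) = ((μ₂ ⟨_, h₂⟩ : ℂˣ) : ℂ) * Ξ w

/-- CNTW: the numbers of characters over linear characters which differ by an extendible one. -/
def Stmt_CNTW : Prop :=
  ∀ (L₁ L₂ K : Type) [Group L₁] [Fintype L₁] [Group L₂] [Fintype L₂] [Group K]
    (π₁ : L₁ →* K) (π₂ : L₂ →* K) (U₁ : Subgroup L₁) (U₂ : Subgroup L₂) (μ₁ : U₁ →* ℂˣ)
    (μ₂ : U₂ →* ℂˣ), Function.Surjective π₁ → Function.Surjective π₂ →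
    (∀ l, π₁ l = 1 ↔ l ∈ U₁) → (∀ l, π₂ l = 1 ↔ l ∈ U₂) →
    ∀ κ : ↥(fpr π₁ π₂) →* ℂˣ,
    (∀ (u : ↥(fpr π₁ π₂)) (h₁ : (u : L₁ × L₂).1 ∈ U₁) (h₂ : (u : L₁ × L₂).2 ∈ U₂),
      μ₁ ⟨_, h₁⟩ * κ u = μ₂ ⟨_, h₂⟩) →
    ∀ n : ℕ, Nat.card {η : L₁ → ℂ // IsIrr η ∧
        (∀ (u : U₁) (l : L₁), η (u * l) = ((μ₁ u : ℂˣ) : ℂ) * η l) ∧ η 1 = n} =
      Nat.card {η : L₂ → ℂ // IsIrr η ∧
        (∀ (u : U₂) (l : L₂), η (u * l) = ((μ₂ u : ℂˣ) : ℂ) * η l) ∧ η 1 = n}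

/-- CQ: the numbers of characters over two characters. -/
def Stmt_CQ : Prop :=
  ∀ (Y K : Type) [Group Y] [Fintype Y] [Group K] [Finite K] (ℓ : ℕ) [Fact ℓ.Prime],
    HH ℓ K → ∀ N₁ S₁ N₂ S₂ : Subgroup Y, N₁ ≤ S₁ → S₂ ≤ S₁ → N₂ = S₂ ⊓ N₁ → S₁ = S₂ ⊔ N₁ →
    ∀ f : S₁ →* K, (∀ x, f x = 1 ↔ (x : Y) ∈ N₁) →
    ∀ (θ₁ θ₂ : Y → ℂ) (a : ℕ), ID ℓ N₁ a θ₁ → ID ℓ N₂ a θ₂ → S₂ ≤ sx θ₁ → S₂ ≤ sx θ₂ →
    ∀ m : ℕ, ¬ ℓ ∣ m → iS N₂ θ₁ θ₂ = m →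
    (∀ x ∈ S₂, ∀ y ∈ S₂, x * y * x⁻¹ * y⁻¹ ∈ N₂ → ∀ n : ℕ, ¬ ℓ ∣ n → x ^ n ∈ N₂ →
      y ^ n ∈ N₂ → ∀ ζ : ℂ, BT N₁ θ₁ x y ζ → BT N₂ θ₂ x y ζ) →
    ∀ d : ℕ, NO ℓ S₁ N₁ θ₁ d = NO ℓ S₂ N₂ θ₂ d

/-- DGQ: the numbers of characters over corresponding characters of defect zero. -/
def Stmt_DGQ : Prop :=
  ∀ (Y G K : Type) [Group Y] [Fintype Y] [Group G] [Fintype G] [Group K] [Finite K]
    (𝔐 : Ideal (integralClosure ℤ ℂ)) (ℓ : ℕ) [Fact ℓ.Prime], 𝔐.IsMaximal →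
    (ℓ : integralClosure ℤ ℂ) ∈ 𝔐 → HH ℓ K → ∀ k : Y →* G, FC ℓ k →
    ∀ (lam : k.ker →* ℂˣ) (M₀ R S : Subgroup G), M₀ ≤ k.range →
    ∀ f : k.range →* K, (∀ x, f x = 1 ↔ (x : G) ∈ M₀) →
    IsPGroup ℓ R → R ⊓ M₀ = ⊥ → (∀ r ∈ R, ∀ n ∈ M₀, r * n * r⁻¹ ∈ M₀) →
    S ≤ k.range → (∀ s ∈ S, ∀ r ∈ R, s * r * s⁻¹ ∈ R) → cN M₀ R ≤ S →
    ∀ θ θ' : G → ℂ, ID ℓ M₀ 0 θ → ID ℓ (cN M₀ R) 0 θ' → DGs 𝔐 M₀ R θ' θ → S ≤ sx θ →
    ∀ χ χ' : Y → ℂ, ML 𝔐 k lam M₀ θ χ → ML 𝔐 k lam (cN M₀ R) θ' χ' →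
    ∀ d : ℕ, NO ℓ ((S ⊔ M₀).comap k) (M₀.comap k) χ d =
      NO ℓ (S.comap k) ((cN M₀ R).comap k) χ' d

end Pool.Agent.DPT


end

section

/-!
# Minimal normal subgroups of a minimal counterexample to Dade's conjecture: averaging
-/

namespace Pool.Agent.DPT

open Pool.Agent.DP Pool.Agent.DPC Pool.Agent.DPM Pool.Agent.DPN Pool.Agent.Lib_helper13
  Representation

namespace AVG

theorem avg {D W : Type} [Group D] [Group W] (f : D →* W) [Fintype f.ker]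
    (hf : Function.Surjective f) {V : Type} [AddCommGroup V] [Module ℂ V] [FiniteDimensional ℂ V]
    (ρ : Representation ℂ D V) :
    ∃ Ξ : W → ℂ, IsChr Ξ ∧
      ∀ g, Ξ (f g) = (∑ z : f.ker, ρ.character (g * z)) / Nat.card f.ker := by
  let U : Submodule ℂ V := Representation.invariants (ρ.comp f.ker.subtype)
  have hU : ∀ v : V, v ∈ U ↔ ∀ z ∈ f.ker, ρ z v = v := fun v =>
    ⟨fun h z hz => h ⟨z, hz⟩, fun h z => h z z.2⟩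
  have hst : ∀ g : D, ∀ v ∈ U, ρ g v ∈ U := by
    intro g v hv
    rw [hU] at hv ⊢
    intro z hz
    have h1 : g⁻¹ * z * g ∈ f.ker := by
      rw [MonoidHom.mem_ker] at hz ⊢
      simp [hz]
    have h2 := hv _ h1
    have h3 : z * g = g * (g⁻¹ * z * g) := by group
    rw [← Module.End.mul_apply, ← map_mul, h3, map_mul, Module.End.mul_apply, h2]
  let T : D → (U →ₗ[ℂ] U) := fun g => (ρ g).restrict (hst g)
  have hT : ∀ g (v : U), ((T g v : U) : V) = ρ g v := fun g v => rfl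
  have hTm : ∀ g g', T (g * g') = T g * T g' := by
    intro g g'
    refine LinearMap.ext fun v => Subtype.ext ?_
    rw [Module.End.mul_apply, hT, hT, hT, map_mul, Module.End.mul_apply]
  have hT1 : T 1 = 1 := by
    refine LinearMap.ext fun v => Subtype.ext ?_
    rw [hT, map_one]
    rfl
  have hTk : ∀ g z, z ∈ f.ker → T (g * z) = T g := by
    intro g z hz
    refine LinearMap.ext fun v => Subtype.ext ?_
    rw [hT, hT, map_mul, Module.End.mul_apply, (hU v).mp v.2 z hz]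
  let s : W → D := Function.surjInv hf
  have hs : ∀ w, f (s w) = w := Function.surjInv_eq hf
  have hTs : ∀ g, T (s (f g)) = T g := by
    intro g
    have h1 : g⁻¹ * s (f g) ∈ f.ker := by
      rw [MonoidHom.mem_ker, map_mul, hs, map_inv, inv_mul_cancel]
    have h2 := hTk g _ h1
    rwa [mul_inv_cancel_left] at h2
  let σ : Representation ℂ W U :=
    { toFun := fun w => T (s w)
      map_one' := by
        rw [← map_one f, hTs, hT1]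
      map_mul' := by
        intro w w'
        have h1 : w * w' = f (s w * s w') := by rw [map_mul, hs, hs]
        rw [h1, hTs, hTm] }
  refine ⟨σ.character, isChr_of_rep σ, fun g => ?_⟩
  have hc : (Nat.card f.ker : ℂ) ≠ 0 := by
    have : Nat.card f.ker ≠ 0 := Nat.card_pos.ne'
    exact_mod_cast this
  let P : V →ₗ[ℂ] V := (Nat.card f.ker : ℂ)⁻¹ • ∑ z : f.ker, ρ z
  have hP : ∀ v, P v = (Nat.card f.ker : ℂ)⁻¹ • ∑ z : f.ker, ρ z v := by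
    intro v
    change ((Nat.card f.ker : ℂ)⁻¹ • ∑ z : f.ker, ρ z) v = _
    rw [LinearMap.smul_apply, LinearMap.sum_apply]
  have hPU : ∀ v, P v ∈ U := by
    intro v
    rw [hU]
    intro z hz
    rw [hP, map_smul, map_sum]
    refine congrArg _ ?_
    refine Fintype.sum_equiv (Equiv.mulLeft (⟨z, hz⟩ : f.ker)) _ _ fun y => ?_
    rw [← Module.End.mul_apply, ← map_mul]
    rfl
  have hPid : ∀ v ∈ U, P v = v := by
    intro v hv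
    rw [hP]
    have h1 : ∀ z : f.ker, ρ z v = v := fun z => (hU v).mp hv z z.2
    rw [Finset.sum_congr rfl fun z _ => h1 z, Finset.sum_const, Finset.card_univ,
      ← Nat.card_eq_fintype_card, ← Nat.cast_smul_eq_nsmul ℂ, smul_smul, inv_mul_cancel₀ hc,
      one_smul]
  have h1 : LinearMap.trace ℂ V (ρ g * P) = (∑ z : f.ker, ρ.character (g * z)) / Nat.card f.ker := by
    change LinearMap.trace ℂ V (ρ g * ((Nat.card f.ker : ℂ)⁻¹ • ∑ z : f.ker, ρ z)) = _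
    rw [mul_smul_comm, map_smul, Finset.mul_sum, map_sum, smul_eq_mul, div_eq_inv_mul]
    refine congrArg _ (Finset.sum_congr rfl fun z _ => ?_)
    rw [← map_mul]
    rfl
  have h2 : ∀ v, (ρ g * P) v ∈ U := fun v => hst g _ (hPU v)
  have h3 := LinearMap.trace_restrict_eq_of_forall_mem U (ρ g * P) h2
  rw [← h1, ← h3]
  change LinearMap.trace ℂ U (T (s (f g))) = _
  rw [hTs]
  refine congrArg _ (LinearMap.ext fun v => Subtype.ext ?_)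
  rw [hT]
  change ρ g v = (ρ g * P) v
  rw [Module.End.mul_apply, hPid v v.2]

end AVG

theorem AVG_thm : Stmt_AVG := by
  intro D W _ _ _ _ f hf X hX
  obtain ⟨n, ρ, rfl⟩ := hX
  exact AVG.avg f hf ρ

end Pool.Agent.DPT


end

section

/-!
# The characters over a linear character of the kernel: existence and uniqueness
-/

namespace Pool.Agent.DPT

open Pool.Agent.DP Pool.Agent.DPC Pool.Agent.DPM Pool.Agent.DPN Pool.Agent.Lib_helper13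
open Representation
open Pool.Agent.Lib_helper13.Dade (pCore DadeHolds dadeSum)

namespace MLE

variable {Y G : Type} [Group Y] [Group G]

/-- The restriction of `k` to the inverse image of `C`. -/
def kT (k : Y →* G) (C : Subgroup G) : ↥(C.comap k) →* C where
  toFun y := ⟨k y, y.2⟩
  map_one' := Subtype.ext (map_one k)
  map_mul' _ _ := Subtype.ext (map_mul k _ _)

theorem kT_coe (k : Y →* G) (C : Subgroup G) (y : ↥(C.comap k)) :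
    ((kT k C y : C) : G) = k y := rfl

theorem kT_surj {k : Y →* G} {C : Subgroup G} (h : C ≤ k.range) :
    Function.Surjective (kT k C) := by
  rintro ⟨c, hc⟩
  obtain ⟨y, rfl⟩ := h hc
  exact ⟨⟨y, hc⟩, rfl⟩

theorem mem_ker_kT {k : Y →* G} {C : Subgroup G} {y : ↥(C.comap k)} :
    y ∈ (kT k C).ker ↔ k (y : Y) = 1 := by
  rw [MonoidHom.mem_ker]
  exact ⟨fun h => congrArg Subtype.val h, fun h => Subtype.ext h⟩

/-- The kernel of the restriction is the kernel. -/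
def kerEquiv (k : Y →* G) (C : Subgroup G) : (kT k C).ker ≃* k.ker where
  toFun z := ⟨((z : ↥(C.comap k)) : Y), mem_ker_kT.1 z.2⟩
  invFun z := ⟨⟨z, by
    rw [Subgroup.mem_comap, MonoidHom.mem_ker.1 z.2]
    exact C.one_mem⟩, mem_ker_kT.2 (MonoidHom.mem_ker.1 z.2)⟩
  left_inv _ := rfl
  right_inv _ := rfl
  map_mul' _ _ := rfl

theorem kerEquiv_coe (k : Y →* G) (C : Subgroup G) (z : (kT k C).ker) :
    ((kerEquiv k C z : k.ker) : Y) = ((z : ↥(C.comap k)) : Y) := rfl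

theorem kerEquiv_symm_coe (k : Y →* G) (C : Subgroup G) (z : k.ker) :
    (((kerEquiv k C).symm z : ↥(C.comap k)) : Y) = z := rfl

theorem card_ker (k : Y →* G) (C : Subgroup G) :
    Nat.card (kT k C).ker = Nat.card k.ker := Nat.card_congr (kerEquiv k C).toEquiv

theorem ker_central {ℓ : ℕ} {k : Y →* G} (h : FC ℓ k) (C : Subgroup G) :
    (kT k C).ker ≤ Subgroup.center ↥(C.comap k) := by
  intro z hz
  rw [Subgroup.mem_center_iff]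
  intro y
  apply Subtype.ext
  exact Subgroup.mem_center_iff.1 (h.cen (MonoidHom.mem_ker.2 (mem_ker_kT.1 hz))) y

theorem ker_pg {ℓ : ℕ} {k : Y →* G} (h : FC ℓ k) (C : Subgroup G) :
    IsPGroup ℓ (kT k C).ker := h.pg.of_equiv (kerEquiv k C).symm

/-- The values of the extension by zero. -/
theorem ext0_coe {K : Type} [Group K] {S : Subgroup K} (ψ : S → ℂ) :
    (fun s : S => ext0 ψ (s : K)) = ψ := by
  funext s
  exact ext0_of_mem ψ s.2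

theorem irrOn_ext0 {K : Type} [Group K] {S : Subgroup K} {ψ : S → ℂ} (h : IsIrr ψ) :
    IrrOn S (ext0 ψ) :=
  ⟨by rw [ext0_coe]; exact h, fun _ hx => ext0_of_not_mem ψ hx⟩

/-- Functions supported on `S` with the same restriction to `S`. -/
theorem eq_of_restrict {K : Type} [Group K] {S : Subgroup K} {f g : K → ℂ}
    (hf : ∀ x, x ∉ S → f x = 0) (hg : ∀ x, x ∉ S → g x = 0)
    (h : (fun s : S => f s) = fun s : S => g s) : f = g := by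
  funext x
  by_cases hx : x ∈ S
  · exact congrFun h ⟨x, hx⟩
  · rw [hf x hx, hg x hx]

/-- A function over `lam` restricted to the inverse image of `C`. -/
theorem ovT {k : Y →* G} {lam : k.ker →* ℂˣ} {χ : Y → ℂ} (h : OvK k lam χ) (C : Subgroup G)
    (z : (kT k C).ker) (x : ↥(C.comap k)) :
    χ ((z * x : ↥(C.comap k)) : Y) =
      (((lam.comp (kerEquiv k C).toMonoidHom) z : ℂˣ) : ℂ) * χ (x : Y) :=
  h (kerEquiv k C z) (x : Y)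

/-- The extension by zero of a function over `lam`. -/
theorem ovK_ext0 {k : Y →* G} {lam : k.ker →* ℂˣ} {C : Subgroup G} {χ' : ↥(C.comap k) → ℂ}
    (h : ∀ (z : (kT k C).ker) (x : ↥(C.comap k)),
      χ' (z * x) = (((lam.comp (kerEquiv k C).toMonoidHom) z : ℂˣ) : ℂ) * χ' x) :
    OvK k lam (ext0 χ') := by
  intro z y
  have hz : (z : Y) ∈ C.comap k := by
    rw [Subgroup.mem_comap, MonoidHom.mem_ker.1 z.2]
    exact C.one_mem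
  by_cases hy : y ∈ C.comap k
  · rw [ext0_of_mem χ' hy, ext0_of_mem χ' ((C.comap k).mul_mem hz hy)]
    exact h ((kerEquiv k C).symm z) ⟨y, hy⟩
  · have hzy : (z : Y) * y ∉ C.comap k := fun h' => hy (((C.comap k).mul_mem_cancel_left hz).1 h')
    rw [ext0_of_not_mem χ' hy, ext0_of_not_mem χ' hzy, mul_zero]

end MLE

theorem MLE_thm (h1 : Stmt_BTC) (h2 : Stmt_MINX) : Stmt_MLE := by
  intro Y G _ _ _ _ 𝔐 ℓ _ hM hℓ k hk lam C hC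
  have hs := MLE.kT_surj hC
  have hZc := MLE.ker_central hk C
  have hZp := MLE.ker_pg hk C
  have hcard := MLE.card_ker k C
  -- inflations
  have hinf : ∀ θ : G → ℂ, ID ℓ C 0 θ → IsIrr (fun y : ↥(C.comap k) => θ (k y)) ∧
      HasDefect ℓ (fun y : ↥(C.comap k) => θ (k y))
        (padicValNat ℓ (Nat.card (MLE.kT k C).ker)) := by
    intro θ hθ
    have h3 := QINF.irr_inf (MLE.kT k C) hs hθ.1.1
    have h4 := (QINF.defect_inf (MLE.kT k C) ℓ hs (fun s : C => θ s) 0).2 hθ.2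
    rw [Nat.zero_add] at h4
    exact ⟨h3, h4⟩
  refine ⟨fun θ hθ => ⟨?_, ?_, ?_, ?_⟩, ?_⟩
  · obtain ⟨χ', hχ', hov, hcen⟩ := h1 ↥(C.comap k) 𝔐 ℓ hM hℓ (MLE.kT k C).ker hZc hZp
      (lam.comp (MLE.kerEquiv k C).toMonoidHom) _ (hinf θ hθ).1
    refine ⟨ext0 χ', MLE.irrOn_ext0 hχ', MLE.ovK_ext0 hov, ?_⟩
    rw [MLE.ext0_coe]
    exact hcen
  · intro χ χ' h h'
    refine MLE.eq_of_restrict h.1.2 h'.1.2 ?_
    exact (h2 ↥(C.comap k) 𝔐 ℓ hM hℓ (MLE.kT k C).ker hZc hZp _ (hinf θ hθ).1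
      (hinf θ hθ).2).2 (lam.comp (MLE.kerEquiv k C).toMonoidHom) _ _ h.1.1 h'.1.1 h.2.2 h'.2.2
      (MLE.ovT h.2.1 C) (MLE.ovT h'.2.1 C)
  · intro χ h
    have h3 := (h2 ↥(C.comap k) 𝔐 ℓ hM hℓ (MLE.kT k C).ker hZc hZp _ (hinf θ hθ).1
      (hinf θ hθ).2).1 _ h.1.1 h.2.2
    rw [hcard] at h3
    exact ⟨h.1, h3⟩
  · intro χ θ' hθ' h h'
    have h3 : (fun y : ↥(C.comap k) => θ (k y)) = fun y : ↥(C.comap k) => θ' (k y) := by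
      refine (h2 ↥(C.comap k) 𝔐 ℓ hM hℓ (MLE.kT k C).ker hZc hZp _ (hinf θ hθ).1
        (hinf θ hθ).2).2 1 _ _ (hinf θ hθ).1 (hinf θ' hθ').1 rfl (h'.2.2.symm.trans h.2.2) ?_ ?_
      · intro z x
        have hz : k ((z : ↥(C.comap k)) : Y) = 1 := MLE.mem_ker_kT.1 z.2
        rw [MonoidHom.one_apply, Units.val_one, one_mul, Subgroup.coe_mul, map_mul, hz, one_mul]
      · intro z x
        have hz : k ((z : ↥(C.comap k)) : Y) = 1 := MLE.mem_ker_kT.1 z.2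
        rw [MonoidHom.one_apply, Units.val_one, one_mul, Subgroup.coe_mul, map_mul, hz, one_mul]
    refine MLE.eq_of_restrict hθ.1.2 hθ'.1.2 ?_
    funext s
    obtain ⟨y, hy⟩ := hs s
    have h4 := congrFun h3 y
    rw [← hy]
    exact h4
  · intro χ hχ hov
    obtain ⟨χ₁, hχ₁, hov₁, hcen⟩ := h1 ↥(C.comap k) 𝔐 ℓ hM hℓ (MLE.kT k C).ker hZc hZp
      1 _ hχ.1.1
    have hd : HasDefect ℓ (fun y : ↥(C.comap k) => χ y)
        (padicValNat ℓ (Nat.card (MLE.kT k C).ker)) := by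
      rw [hcard]
      exact hχ.2
    have h3 := (h2 ↥(C.comap k) 𝔐 ℓ hM hℓ (MLE.kT k C).ker hZc hZp _ hχ.1.1 hd).1 χ₁ hχ₁ hcen
    obtain ⟨η, hη, hηe⟩ := QINF.exists_inf (MLE.kT k C) hs hχ₁ (by
      intro x y hx
      have h4 := hov₁ ⟨x, hx⟩ y
      rw [MonoidHom.one_apply, Units.val_one, one_mul] at h4
      exact h4)
    refine ⟨ext0 η, ⟨MLE.irrOn_ext0 hη, ?_⟩, hχ.1, hov, ?_⟩
    · rw [MLE.ext0_coe]
      refine (QINF.defect_inf (MLE.kT k C) ℓ hs η 0).1 ?_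
      rw [Nat.zero_add, ← hηe]
      exact h3
    · have h5 : (fun y : ↥(C.comap k) => ext0 η (k y)) = χ₁ := by
        rw [hηe]
        funext y
        exact ext0_of_mem η y.2
      rw [h5]
      exact hcen.symm

end Pool.Agent.DPT


end

section

/-!
# DGSA: the correspondence of characters of defect zero in terms of actions
-/

set_option autoImplicit false

namespace Pool.Agent.DPT

open Pool.Agent.DP Pool.Agent.DPC Pool.Agent.DPM Pool.Agent.DPN Pool.Agent.Lib_helper13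
open Representation

namespace DGSA

variable {G : Type} [Group G] {N R : Subgroup G}

/-- Conjugation by an element which normalizes `N`. -/
def cj (h : ∀ r ∈ R, ∀ n ∈ N, r * n * r⁻¹ ∈ N) (r : R) : MulAut N where
  toFun n := ⟨r * n * (r : G)⁻¹, h r r.2 n n.2⟩
  invFun n := ⟨(r : G)⁻¹ * n * r, by
    have h1 := h (r : G)⁻¹ (R.inv_mem r.2) n n.2
    rw [inv_inv] at h1
    exact h1⟩
  left_inv n := Subtype.ext (by
    change (r : G)⁻¹ * (r * n * (r : G)⁻¹) * r = n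
    group)
  right_inv n := Subtype.ext (by
    change (r : G) * ((r : G)⁻¹ * n * r) * (r : G)⁻¹ = n
    group)
  map_mul' a b := Subtype.ext (by
    change (r : G) * (a * b) * (r : G)⁻¹ = (r * a * (r : G)⁻¹) * (r * b * (r : G)⁻¹)
    group)

/-- The action of `R` on `N` by conjugation. -/
def kap (h : ∀ r ∈ R, ∀ n ∈ N, r * n * r⁻¹ ∈ N) : R →* MulAut N where
  toFun r := cj h r
  map_one' := by
    ext n
    change (1 : G) * n * (1 : G)⁻¹ = n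
    group
  map_mul' a b := by
    ext n
    change ((a : G) * b) * n * ((a : G) * b)⁻¹ = a * (b * n * (b : G)⁻¹) * (a : G)⁻¹
    group

theorem kap_apply (h : ∀ r ∈ R, ∀ n ∈ N, r * n * r⁻¹ ∈ N) (r : R) (n : N) :
    ((kap h r n : N) : G) = r * n * (r : G)⁻¹ := rfl

theorem mem_FX_iff (h : ∀ r ∈ R, ∀ n ∈ N, r * n * r⁻¹ ∈ N) (n : N) :
    n ∈ FX (kap h) ⊤ ↔ (n : G) ∈ cN N R := by
  rw [mem_FX, DP.cN, Subgroup.mem_inf, Subgroup.mem_centralizer_iff]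
  constructor
  · intro h1
    refine ⟨n.2, fun r hr => ?_⟩
    have h2 : r * (n : G) * r⁻¹ = n := congrArg Subtype.val (h1 ⟨r, hr⟩ trivial)
    exact mul_inv_eq_iff_eq_mul.1 h2
  · rintro ⟨-, h1⟩ r -
    apply Subtype.ext
    rw [kap_apply, h1 r r.2]
    group

/-- The fixed points. -/
def eFX (h : ∀ r ∈ R, ∀ n ∈ N, r * n * r⁻¹ ∈ N) : ↥(FX (kap h) ⊤) ≃* ↥(cN N R) where
  toFun x := ⟨x.1.1, (mem_FX_iff h x.1).1 x.2⟩
  invFun y := ⟨⟨y.1, y.2.1⟩, (mem_FX_iff h _).2 y.2⟩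
  left_inv _ := rfl
  right_inv _ := rfl
  map_mul' _ _ := rfl

variable [Fintype G]

theorem wt_FX (h : ∀ r ∈ R, ∀ n ∈ N, r * n * r⁻¹ ∈ N) (θ' F : G → ℂ) :
    wt (fun n : ↥(FX (kap h) ⊤) => θ' (n : N)) (fun n => F (n : N)) = wS (cN N R) θ' F :=
  wt_comp_equiv (eFX h) (fun s : ↥(cN N R) => θ' s) (fun s => F s)

end DGSA

open _root_.Pool.Agent.DPT.DGSA in
/-- DGSA: the correspondence in terms of actions. -/
theorem DGSA_thm : Stmt_DGSA := by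
  intro G _ _ 𝔐 N R h
  refine ⟨kap h, kap_apply h, mem_FX_iff h, fun θ' θ => ⟨fun h1 => ?_, fun h1 => ?_⟩⟩
  · intro F hF1 hF2 hF3
    have h2 := h1 (fun n => F n) (fun g x => hF1 g g.2 x x.2) (fun b _ x => hF2 b b.2 x x.2)
      (fun x => hF3 x)
    rw [wt_FX h θ' F] at h2
    exact h2
  · intro F hF1 hF2 hF3
    classical
    have h2 := h1 (ext0 F) ?_ ?_ ?_
    · rw [← wt_FX h θ' (ext0 F)] at h2
      have h3 : (fun n : ↥(FX (kap h) ⊤) => ext0 F ((n : N) : G)) =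
          fun n : ↥(FX (kap h) ⊤) => F (n : N) := by
        funext n
        rw [ext0_of_mem F n.1.2]
      have h4 : (fun n : N => ext0 F (n : G)) = F := by
        funext n
        rw [ext0_of_mem F n.2]
      unfold wS at h2
      rw [h3, h4] at h2
      exact h2
    · intro n hn x hx
      rw [ext0_of_mem F hx, ext0_of_mem F (N.mul_mem (N.mul_mem hn hx) (N.inv_mem hn))]
      exact hF1 ⟨n, hn⟩ ⟨x, hx⟩
    · intro r hr x hx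
      rw [ext0_of_mem F hx, ext0_of_mem F (h r hr x hx)]
      exact hF2 ⟨r, hr⟩ trivial ⟨x, hx⟩
    · intro x
      by_cases hx : x ∈ N
      · rw [ext0_of_mem F hx]
        exact hF3 _
      · rw [ext0_of_not_mem F hx]
        exact isIntegral_zero

end Pool.Agent.DPT


end

section

/-!
# DGSR: the correspondence depends only on the action
-/

set_option autoImplicit false

namespace Pool.Agent.DPT

open Pool.Agent.DP Pool.Agent.DPC Pool.Agent.DPM Pool.Agent.DPN Pool.Agent.Lib_helper13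
open Representation

namespace DGSR

theorem cN_eq {G : Type} [Group G] {N R R' : Subgroup G} (hR : R' ≤ R)
    (h : ∀ r ∈ R, ∃ r' ∈ R', ∀ n ∈ N, r * n * r⁻¹ = r' * n * r'⁻¹) : cN N R = cN N R' := by
  ext x
  constructor
  · intro hx
    refine ⟨hx.1, Subgroup.mem_centralizer_iff.mpr fun r hr => ?_⟩
    exact Subgroup.mem_centralizer_iff.mp hx.2 r (hR hr)
  · intro hx
    refine ⟨hx.1, Subgroup.mem_centralizer_iff.mpr fun r hr => ?_⟩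
    obtain ⟨r', hr', h1⟩ := h r hr
    have h2 := h1 x hx.1
    have h3 := Subgroup.mem_centralizer_iff.mp hx.2 r' hr'
    have h4 : r' * x * r'⁻¹ = x := by rw [h3, mul_inv_cancel_right]
    rw [h4] at h2
    exact mul_inv_eq_iff_eq_mul.mp h2

end DGSR

open _root_.Pool.Agent.DPT.DGSR in
theorem DGSR_thm : Stmt_DGSR := by
  intro G _ _ 𝔐 N R R' hR h
  have hc := cN_eq hR h
  refine ⟨hc, fun θ' θ => ?_⟩
  unfold DGs
  rw [hc]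
  constructor
  · intro h1 F hF1 hF2 hF3
    refine h1 F hF1 (fun r hr x hx => ?_) hF3
    obtain ⟨r', hr', h2⟩ := h r hr
    rw [h2 x hx]
    exact hF2 r' hr' x hx
  · intro h1 F hF1 hF2 hF3
    exact h1 F hF1 (fun r hr x hx => hF2 r (hR hr) x hx) hF3

end Pool.Agent.DPT


end

section

/-!
# HHS: subgroups and quotients of groups with a normal `ℓ`-subgroup and abelian quotient of order
prime to `ℓ`
-/

namespace Pool.Agent.DPT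

open Pool.Agent.DP Pool.Agent.DPC Pool.Agent.DPM Pool.Agent.DPN Pool.Agent.Lib_helper13
open Representation
open Pool.Agent.Lib_helper13.Dade (pCore DadeHolds dadeSum)

theorem HHS_thm : Stmt_HHS := by
  intro H _ _ ℓ _ hH
  obtain ⟨P, hP, hpg, hidx, hcomm⟩ := hH
  refine ⟨?_, ?_, ?_⟩
  · intro S _ i hi
    refine ⟨P.comap i, hP.comap i, hpg.comap_of_injective i hi, ?_, ?_⟩
    · intro h
      apply hidx
      refine h.trans ?_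
      rw [Subgroup.index_comap]
      exact Subgroup.relIndex_dvd_index_of_normal P i.range
    · intro x y
      rw [Subgroup.mem_comap]
      have h := hcomm (i x) (i y)
      simpa only [map_mul, map_inv] using h
  · intro Q _ q hq
    refine ⟨P.map q, hP.map q hq, hpg.map q, ?_, ?_⟩
    · intro h
      exact hidx (h.trans (Subgroup.index_map_dvd P hq))
    · intro x y
      obtain ⟨x, rfl⟩ := hq x
      obtain ⟨y, rfl⟩ := hq y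
      refine ⟨_, hcomm x y, ?_⟩
      simp only [map_mul, map_inv]
  · intro hcore
    have h1 : P ≤ pCore ℓ H := le_sSup ⟨hP, hpg⟩
    rw [hcore, le_bot_iff] at h1
    rw [h1, Subgroup.index_bot] at hidx
    exact hidx

end Pool.Agent.DPT


end

section

/-!
# MLR: restriction of the characters over a linear character of the kernel
-/

set_option autoImplicit false
set_option linter.unusedSectionVars false

namespace Pool.Agent.DPT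

open Pool.Agent.DP Pool.Agent.DPC Pool.Agent.DPM Pool.Agent.DPN Pool.Agent.Lib_helper13
open Representation

namespace MLR

theorem decomp {Y G : Type} [Group Y] [Finite Y] [Group G] [Finite G] (ℓ : ℕ) [hl : Fact ℓ.Prime]
    (k : Y →* G) (hpg : IsPGroup ℓ k.ker) (y : Y) (hy : ¬ ℓ ∣ orderOf (k y)) :
    ∃ (z : k.ker) (y' : Y), y = z * y' ∧ ¬ ℓ ∣ orderOf y' ∧ ∃ m : ℕ, y' = y ^ m := by
  set n := orderOf (k y) with hn
  have hk : y ^ n ∈ k.ker := by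
    rw [MonoidHom.mem_ker, map_pow, hn, pow_orderOf_eq_one]
  obtain ⟨a, ha⟩ := hpg ⟨y ^ n, hk⟩
  have ha' : (y ^ n) ^ ℓ ^ a = 1 := by
    have h := congrArg (fun z : k.ker => (z : Y)) ha
    simpa using h
  have hco : Nat.Coprime (ℓ ^ a) n :=
    Nat.Coprime.pow_left a ((Nat.Prime.coprime_iff_not_dvd hl.out).mpr hy)
  obtain ⟨m, hm0, hm1⟩ := Nat.chineseRemainder hco 0 1
  obtain ⟨c, hc⟩ := (Nat.modEq_zero_iff_dvd.mp hm0)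
  have h1 : k (y ^ m) = k y := by
    rw [map_pow]
    have h2 : (k y) ^ m = (k y) ^ 1 := pow_eq_pow_iff_modEq.mpr hm1
    rw [h2, pow_one]
  refine ⟨⟨y * (y ^ m)⁻¹, ?_⟩, y ^ m, ?_, ?_, m, rfl⟩
  · rw [MonoidHom.mem_ker, map_mul, map_inv, h1, mul_inv_cancel]
  · simp
  · intro hd
    apply hy
    refine dvd_trans hd (orderOf_dvd_of_pow_eq_one ?_)
    calc (y ^ m) ^ n = ((y ^ n) ^ ℓ ^ a) ^ c := by
          rw [hc, ← pow_mul, ← pow_mul, ← pow_mul]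
          congr 1
          ring
      _ = 1 := by rw [ha', one_pow]

end MLR

theorem MLR_thm (h1 : Stmt_MLX) : Stmt_MLR := by
  intro Y G _ _ _ _ 𝔐 ℓ _ hmax hl k hk lam N N' hNN' hN' θ E hθ hE hEθ χ χ' hχ hχ' y hy
  have hyN : k y ∈ N := hy
  obtain ⟨_, hA⟩ := h1 Y G 𝔐 ℓ hmax hl k hk lam N (le_trans hNN' hN') θ hθ
  obtain ⟨_, hB⟩ := h1 Y G 𝔐 ℓ hmax hl k hk lam N' hN' E hE
  obtain ⟨hA1, hA2, _⟩ := hA χ hχ
  obtain ⟨hB1, hB2, _⟩ := hB χ' hχ'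
  by_cases hd : ℓ ∣ orderOf (k y)
  · rw [hA2 y hd, hB2 y hd]
  · obtain ⟨z, y', h2, h3, m, h4⟩ := MLR.decomp ℓ k hk.pg y hd
    have h5 : k y' ∈ N := by
      rw [h4, map_pow]
      exact N.pow_mem hyN m
    rw [h2, hχ.2.1 z y', hχ'.2.1 z y', hA1 y' h3, hB1 y' h3, hEθ _ h5]

end Pool.Agent.DPT


end

section

/-!
# XIP: the multiplicity is prime to `ℓ`
-/

set_option linter.unusedSectionVars false

namespace Pool.Agent.DPT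

open Pool.Agent.DP Pool.Agent.DPC Pool.Agent.DPM Pool.Agent.DPN Pool.Agent.Lib_helper13
open Representation

namespace XIP

/-- The averages over the fibres of a surjective homomorphism. -/
theorem avg_surj {X Z : Type*} [Group X] [Fintype X] [Group Z] [Fintype Z] (p : X →* Z)
    (hp : Function.Surjective p) (F : Z → ℂ) :
    (∑ x, F (p x)) / Nat.card X = (∑ z, F z) / Nat.card Z := by
  classical
  have hf : ∀ z : Z, (Finset.univ.filter (fun x => p x = z)).card = Nat.card p.ker := by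
    intro z
    have h1 := MonoidHom.card_fiber_eq_of_mem_range p (x := z) (y := 1) (hp z) (hp 1)
    rw [h1, Nat.card_eq_fintype_card, Fintype.card_subtype]
    congr 1
    ext x
    simp only [Finset.mem_filter, Finset.mem_univ, true_and, MonoidHom.mem_ker]
  have h1 : ∑ x, F (p x) = (Nat.card p.ker : ℂ) * ∑ z, F z := by
    rw [← Finset.sum_fiberwise_of_maps_to (s := Finset.univ) (g := p) (t := Finset.univ)
      (fun _ _ => Finset.mem_univ _), Finset.mul_sum]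
    refine Finset.sum_congr rfl fun z _ => ?_
    rw [Finset.sum_congr rfl (g := fun _ => F z), Finset.sum_const, hf z, nsmul_eq_mul]
    intro x hx
    rw [Finset.mem_filter] at hx
    rw [hx.2]
  have h2 : Nat.card X = Nat.card p.ker * Nat.card Z := by
    rw [← Subgroup.card_mul_index p.ker, Subgroup.index_ker, MonoidHom.range_eq_top.mpr hp,
      Subgroup.card_top]
  have hk : (Nat.card p.ker : ℂ) ≠ 0 := natCard_ne_zero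
  rw [h1, h2]
  push_cast
  rw [mul_div_mul_left _ _ hk]

section

variable {Y G : Type} [Group Y] [Group G] {ℓ : ℕ} [hℓf : Fact ℓ.Prime] {k : Y →* G}

theorem split (hk : FC ℓ k) (y : Y) (h : ¬ ℓ ∣ orderOf (k y)) :
    ∃ (z : k.ker) (y' : Y), ¬ ℓ ∣ orderOf y' ∧ k y' = k y ∧ y = z * y' := by
  set n := orderOf (k y) with hn
  have h1 : y ^ n ∈ k.ker := by
    rw [MonoidHom.mem_ker, map_pow, hn, pow_orderOf_eq_one]
  obtain ⟨a, ha⟩ := hk.pg ⟨y ^ n, h1⟩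
  have ha' : (y ^ n) ^ ℓ ^ a = 1 := by
    have := congrArg Subtype.val ha
    simpa using this
  have hc : Nat.Coprime (ℓ ^ a) n := (hℓf.out.coprime_iff_not_dvd.mpr h).pow_left a
  obtain ⟨s, t, hst⟩ := Nat.isCoprime_iff_coprime.mpr hc
  have e1 : k (y ^ (s * ((ℓ ^ a : ℕ) : ℤ))) = k y := by
    have e2 : s * ((ℓ ^ a : ℕ) : ℤ) = 1 - t * n := by rw [← hst]; ring
    rw [map_zpow, e2, zpow_sub, zpow_one, mul_comm t, zpow_mul, zpow_natCast, hn,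
      pow_orderOf_eq_one, one_zpow, inv_one, mul_one]
  refine ⟨⟨y * (y ^ (s * ((ℓ ^ a : ℕ) : ℤ)))⁻¹, ?_⟩, y ^ (s * ((ℓ ^ a : ℕ) : ℤ)), ?_, e1, ?_⟩
  · rw [MonoidHom.mem_ker, map_mul, map_inv, e1, mul_inv_cancel]
  · intro hd
    have e3 : (y ^ (s * ((ℓ ^ a : ℕ) : ℤ))) ^ n = 1 := by
      have e4 : (y ^ (s * ((ℓ ^ a : ℕ) : ℤ))) ^ n = ((y ^ n) ^ ℓ ^ a) ^ s := by
        rw [← zpow_natCast (y ^ (s * ((ℓ ^ a : ℕ) : ℤ))), ← zpow_mul, ← pow_mul,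
          ← zpow_natCast y (n * ℓ ^ a), ← zpow_mul]
        congr 1
        push_cast
        ring
      rw [e4, ha', one_zpow]
    exact h (hd.trans (orderOf_dvd_of_pow_eq_one e3))
  · simp

theorem term (hk : FC ℓ k) {lam : k.ker →* ℂˣ} {θ θ' : G → ℂ} {χ χ' : Y → ℂ}
    (h0 : ∀ x, ℓ ∣ orderOf x → θ x = 0)
    (hχ : ∀ y, ¬ ℓ ∣ orderOf y → χ y = θ (k y)) (hχ0 : ∀ y, ℓ ∣ orderOf (k y) → χ y = 0)
    (hχ' : ∀ y, ¬ ℓ ∣ orderOf y → χ' y = θ' (k y)) (ho : OvK k lam χ) (ho' : OvK k lam χ')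
    (y : Y) : χ y * χ' y⁻¹ = θ (k y) * θ' (k y)⁻¹ := by
  by_cases h : ℓ ∣ orderOf (k y)
  · rw [hχ0 y h, h0 _ h, zero_mul, zero_mul]
  · obtain ⟨z, y', hy', hky, e⟩ := split hk y h
    have hz : ∀ u : Y, (z : Y) * u = u * z := fun u =>
      (Subgroup.mem_center_iff.1 (hk.cen z.2) u).symm
    have e1 : χ y = ((lam z : ℂˣ) : ℂ) * θ (k y) := by
      rw [← hky, ← hχ y' hy', ← ho z y', ← e]
    have e2 : y⁻¹ = ((z⁻¹ : k.ker) : Y) * y'⁻¹ := by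
      rw [e, mul_inv_rev]
      have h5 := hz y'
      have h6 : (z : Y)⁻¹ * y'⁻¹ = y'⁻¹ * (z : Y)⁻¹ := by
        rw [← mul_inv_rev, ← mul_inv_rev, h5]
      rw [Subgroup.coe_inv, h6]
    have e3 : χ' y⁻¹ = ((lam z⁻¹ : ℂˣ) : ℂ) * θ' (k y)⁻¹ := by
      rw [e2, ho' z⁻¹ y'⁻¹, hχ' y'⁻¹ (by rwa [orderOf_inv]), map_inv k, hky]
    have e4 : ((lam z : ℂˣ) : ℂ) * ((lam z⁻¹ : ℂˣ) : ℂ) = 1 := by
      rw [← Units.val_mul, ← map_mul, mul_inv_cancel, map_one, Units.val_one]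
    rw [e1, e3]
    calc ((lam z : ℂˣ) : ℂ) * θ (k y) * (((lam z⁻¹ : ℂˣ) : ℂ) * θ' (k y)⁻¹)
        = (((lam z : ℂˣ) : ℂ) * ((lam z⁻¹ : ℂˣ) : ℂ)) * (θ (k y) * θ' (k y)⁻¹) := by ring
      _ = θ (k y) * θ' (k y)⁻¹ := by rw [e4, one_mul]

end

end XIP

open _root_.Pool.Agent.DPT.XIP

theorem XIP_thm (h1 : Stmt_MLX) : Stmt_XIP := by
  intro Y G _ _ _ _ 𝔐 ℓ _ h𝔐 hℓ k hk lam C M hCM hM θ θ' hθ hθ' hc χ χ' hχ hχ'
  classical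
  haveI : 𝔐.IsPrime := h𝔐.isPrime
  obtain ⟨a0, a1⟩ := h1 Y G 𝔐 ℓ h𝔐 hℓ k hk lam M hM θ hθ
  obtain ⟨b0, b1⟩ := h1 Y G 𝔐 ℓ h𝔐 hℓ k hk lam C (hCM.trans hM) θ' hθ'
  obtain ⟨a2, a3, _⟩ := a1 χ hχ
  obtain ⟨b2, b3, _⟩ := b1 χ' hχ'
  have hterm := fun y => term hk a0 a2 a3 b2 hχ.2.1 hχ'.2.1 y
  -- the multiplicity
  have hθC : IsChr (fun s : C => θ s) := by
    have h2 := (hθ.1.1.isChr).comp (Subgroup.inclusion hCM)
    exact h2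
  have hθ'C : IsIrr (fun s : C => θ' s) := hθ'.1.1
  obtain ⟨m, hm⟩ := hθC.exists_ip hθ'C.isChr
  have hiS : iS (C.comap k) χ χ' = m := by
    rw [← hm]
    unfold iS ip
    let p : ↥(C.comap k) →* C := k.subgroupComap C
    have hp : Function.Surjective p := by
      rintro ⟨x, hx⟩
      obtain ⟨y, hy⟩ := (hCM.trans hM) hx
      refine ⟨⟨y, ?_⟩, Subtype.ext hy⟩
      rw [Subgroup.mem_comap, hy]
      exact hx
    have h3 := avg_surj p hp (fun x : C => θ x * θ' ((x⁻¹ : C) : G))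
    rw [← h3]
    congr 1
    refine Finset.sum_congr rfl fun y _ => ?_
    have h4 := hterm y
    exact h4
  refine ⟨m, ?_, hiS⟩
  intro hdvd
  obtain ⟨c, hc0, hc1⟩ := hc
  obtain ⟨c', hc'⟩ := Ideal.Quotient.mk_surjective c
  have hcI : IsIntegral ℤ (c' : ℂ) := c'.2
  have hcr : red 𝔐 (c' : ℂ) = c := by
    rw [red_of_integral 𝔐 hcI, ← hc']
  -- the two functions
  have hi1 : ∀ x : C, IsIntegral ℤ (θ ((x⁻¹ : C) : G)) := by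
    intro x
    have h5 := isIntegral_char hθ.1.1 (Subgroup.inclusion hCM x⁻¹)
    exact h5
  have hi2 : ∀ x : C, IsIntegral ℤ (θ' ((x⁻¹ : C) : G)) := fun x => isIntegral_char hθ'C x⁻¹
  have hcl1 : ∀ g x : C, θ (((g * x * g⁻¹)⁻¹ : C) : G) = θ ((x⁻¹ : C) : G) := by
    intro g x
    have h5 := hθC.conj_eq g x⁻¹
    have h6 : (g * x * g⁻¹)⁻¹ = g * x⁻¹ * g⁻¹ := by group
    rw [h6]
    exact h5
  have hcl2 : ∀ g x : C, θ' (((g * x * g⁻¹)⁻¹ : C) : G) = θ' ((x⁻¹ : C) : G) := by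
    intro g x
    have h5 := hθ'C.isChr.conj_eq g x⁻¹
    have h6 : (g * x * g⁻¹)⁻¹ = g * x⁻¹ * g⁻¹ := by group
    rw [h6]
    exact h5
  have key := red_wt_eq 𝔐 hℓ hθ'C ⊥ (IsPGroup.of_bot) (fun x : C => θ ((x⁻¹ : C) : G))
    (fun x : C => (c' : ℂ) * θ' ((x⁻¹ : C) : G)) hcl1 hi1
    (fun g x => congrArg (fun t => (c' : ℂ) * t) (hcl2 g x))
    (fun x => hcI.mul (hi2 x))
    (fun x _ => by
      have h7 : red 𝔐 (θ ((x⁻¹ : C) : G)) = c * red 𝔐 (θ' ((x⁻¹ : C) : G)) := hc1 _ (x⁻¹).2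
      rw [h7, red_mul 𝔐 hcI (hi2 x), hcr])
  obtain ⟨n, N, hn, hn', hN, hv⟩ := exists_codeg hθ'C hθ'.2
  have hn0 : (n : ℂ) ≠ 0 := by exact_mod_cast hn.ne'
  have hN0 : N ≠ 0 := by
    rintro rfl
    exact Nat.card_pos.ne' (by rw [hN, mul_zero])
  have hNr : red 𝔐 (N : ℂ) ≠ 0 := by
    apply red_card_ne_zero 𝔐 hℓ
    intro hd
    rw [padicValNat.eq_zero_iff] at hv
    rcases hv with h2 | h2 | h2
    · exact (Fact.out : ℓ.Prime).one_lt.ne' h2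
    · exact hN0 h2
    · exact h2 hd
  have hcard : (Nat.card C : ℂ) = n * N := by
    rw [hN]
    push_cast
    rfl
  have w1 : wt (fun s : C => θ' s) (fun x : C => θ ((x⁻¹ : C) : G)) = m * N := by
    have h8 : ip (fun s : C => θ s) (fun s : C => θ' s) * Nat.card C =
        ∑ x : C, θ ((x⁻¹ : C) : G) * θ' x := by
      rw [ip_comm, ip, div_mul_cancel₀ _ natCard_ne_zero]
      exact Finset.sum_congr rfl fun x _ => mul_comm _ _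
    rw [wt, ← h8, hm, hcard]
    change (m : ℂ) * (n * N) / θ' ((1 : C) : G) = m * N
    have h9 : θ' ((1 : C) : G) = n := hn'
    rw [h9]
    field_simp
  have w2 : wt (fun s : C => θ' s) (fun x : C => (c' : ℂ) * θ' ((x⁻¹ : C) : G)) = c' * N := by
    rw [wt_smul]
    have h8 : ∑ x : C, θ' ((x⁻¹ : C) : G) * θ' x = Nat.card C := by
      have := hθ'C.sum_self
      rw [← this]
      exact Finset.sum_congr rfl fun x _ => mul_comm _ _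
    rw [wt, h8, hcard]
    change (c' : ℂ) * (n * N / θ' ((1 : C) : G)) = c' * N
    have h9 : θ' ((1 : C) : G) = n := hn'
    rw [h9]
    field_simp
  rw [w1, w2, red_mul 𝔐 (Lib_helper13.isIntegral_natCast m) (Lib_helper13.isIntegral_natCast N),
    red_mul 𝔐 hcI (Lib_helper13.isIntegral_natCast N), hcr] at key
  have h10 : red 𝔐 (m : ℂ) = c := mul_right_cancel₀ hNr key
  apply hc0
  rw [← h10, red_natCast]
  obtain ⟨q, hq⟩ := hdvd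
  haveI := quot_char 𝔐 hℓ
  exact (CharP.cast_eq_zero_iff _ ℓ m).mpr ⟨q, hq⟩

end Pool.Agent.DPT


end

section

/-!
# The minimal normal subgroups of a minimal counterexample to Dade's conjecture: statements of the
modules, part B (chain sums over characters of defect zero; stable blocks; the first theorem)
-/

namespace Pool.Agent.DPT

open Pool.Agent.DP Pool.Agent.DPC Pool.Agent.DPM Pool.Agent.DPN Pool.Agent.Lib_helper13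
open Representation
open Pool.Agent.Lib_helper13.Dade (pCore DadeHolds dadeSum)

/-! ### The type of a character -/

/-- GCL: a class at which the weight of a character of defect zero does not vanish. -/
def Stmt_GCL : Prop :=
  ∀ (G : Type) [Group G] [Fintype G] (𝔐 : Ideal (integralClosure ℤ ℂ)) (ℓ : ℕ)
    [Fact ℓ.Prime], 𝔐.IsMaximal → (ℓ : integralClosure ℤ ℂ) ∈ 𝔐 → ∀ M₀ : Subgroup G,
    M₀.Normal → ∀ θ₀ : G → ℂ, ID ℓ M₀ 0 θ₀ →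
    ∃ x ∈ M₀, (∀ g ∈ M₀, g * x = x * g → ∀ n : ℕ, g ^ ℓ ^ n = 1 → g = 1) ∧
      red 𝔐 (wS M₀ θ₀ (fun y => conjInd y x)) ≠ 0

/-- TYC: characters of defect zero of the same type are conjugate. -/
def Stmt_TYC : Prop :=
  ∀ (G : Type) [Group G] [Fintype G] (𝔐 : Ideal (integralClosure ℤ ℂ)) (ℓ : ℕ)
    [Fact ℓ.Prime], 𝔐.IsMaximal → (ℓ : integralClosure ℤ ℂ) ∈ 𝔐 → ∀ M₀ : Subgroup G,
    M₀.Normal → ∀ ξ θ₀ : G → ℂ, ID ℓ M₀ 0 ξ → ID ℓ M₀ 0 θ₀ →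
    ((∀ F : G → ℂ, (∀ g x, F (g * x * g⁻¹) = F x) → (∀ x, IsIntegral ℤ (F x)) →
      (∀ x, x ∉ M₀ → F x = 0) → red 𝔐 (wS M₀ ξ F) = red 𝔐 (wS M₀ θ₀ F)) ↔
    ∃ g, ∀ x, ξ x = θ₀ (g * x * g⁻¹))

/-- TY0: the characters under a character of the type of a character of defect zero. -/
def Stmt_TY0 : Prop :=
  ∀ (Y G : Type) [Group Y] [Fintype Y] [Group G] [Fintype G]
    (𝔐 : Ideal (integralClosure ℤ ℂ)) (ℓ : ℕ) [Fact ℓ.Prime], 𝔐.IsMaximal →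
    (ℓ : integralClosure ℤ ℂ) ∈ 𝔐 → ∀ k : Y →* G, FC ℓ k → ∀ (lam : k.ker →* ℂˣ)
    (M₀ : Subgroup G), M₀.Normal → M₀ ≤ k.range → ∀ θ₀ : G → ℂ, ID ℓ M₀ 0 θ₀ →
    ∀ (S : Subgroup G) (ψ : Y → ℂ), IrrOn (S.comap k) ψ → OvK k lam ψ →
    TyR 𝔐 ℓ k M₀ S ψ θ₀ → ∀ χ' : Y → ℂ, IrrOn ((S ⊓ M₀).comap k) χ' →
    iS ((S ⊓ M₀).comap k) ψ χ' ≠ 0 →
    ∃ θ' : G → ℂ, ID ℓ (S ⊓ M₀) 0 θ' ∧ ML 𝔐 k lam (S ⊓ M₀) θ' χ' ∧
      ∀ F : G → ℂ, (∀ g x, F (g * x * g⁻¹) = F x) → (∀ x, IsIntegral ℤ (F x)) →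
        (∀ x, x ∉ M₀ → F x = 0) → red 𝔐 (wS (S ⊓ M₀) θ' F) = red 𝔐 (wS M₀ θ₀ F)

/-- TYP: the characters of the type of a character of defect zero. -/
def Stmt_TYP : Prop :=
  ∀ (Y G : Type) [Group Y] [Fintype Y] [Group G] [Fintype G]
    (𝔐 : Ideal (integralClosure ℤ ℂ)) (ℓ : ℕ) [Fact ℓ.Prime], 𝔐.IsMaximal →
    (ℓ : integralClosure ℤ ℂ) ∈ 𝔐 → ∀ k : Y →* G, FC ℓ k → ∀ (lam : k.ker →* ℂˣ)
    (M₀ : Subgroup G), M₀.Normal → M₀ ≤ k.range → ∀ θ₀ : G → ℂ, ID ℓ M₀ 0 θ₀ →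
    ∀ R S : Subgroup G, IsPGroup ℓ R → S ⊓ M₀ = cN M₀ R → ∀ ψ : Y → ℂ,
    IrrOn (S.comap k) ψ → OvK k lam ψ →
    (TyR 𝔐 ℓ k M₀ S ψ θ₀ ↔ ∃ (θ' ξ : G → ℂ) (χ' : Y → ℂ), ID ℓ (cN M₀ R) 0 θ' ∧
      ID ℓ M₀ 0 ξ ∧ DGs 𝔐 M₀ R θ' ξ ∧ (∃ g, ∀ x, ξ x = θ₀ (g * x * g⁻¹)) ∧
      ML 𝔐 k lam (cN M₀ R) θ' χ' ∧ iS ((cN M₀ R).comap k) ψ χ' ≠ 0)

/-- TYI: groups with a normal `ℓ`-subgroup. -/
def Stmt_TYI : Prop :=
  ∀ (Y G : Type) [Group Y] [Fintype Y] [Group G] [Fintype G]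
    (𝔐 : Ideal (integralClosure ℤ ℂ)) (ℓ : ℕ) [Fact ℓ.Prime], 𝔐.IsMaximal →
    (ℓ : integralClosure ℤ ℂ) ∈ 𝔐 → ∀ k : Y →* G, FC ℓ k → ∀ (lam : k.ker →* ℂˣ)
    (M₀ : Subgroup G), M₀.Normal → M₀ ≤ k.range → ∀ θ₀ : G → ℂ, ID ℓ M₀ 0 θ₀ →
    ∀ S D : Subgroup G, IsPGroup ℓ D → D ≠ ⊥ → D ≤ S ⊓ M₀ →
    (∀ s ∈ S, ∀ x ∈ D, s * x * s⁻¹ ∈ D) → ∀ ψ : Y → ℂ, IrrOn (S.comap k) ψ → OvK k lam ψ →
    ¬ TyR 𝔐 ℓ k M₀ S ψ θ₀

/-! ### Chain sums -/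

open Classical in
/-- SPLM: splitting of the chains of a normal subgroup. -/
def Stmt_SPLM : Prop :=
  ∀ (G : Type) [Group G] [Fintype G] (ℓ : ℕ) [Fact ℓ.Prime] (N M : Subgroup G), N.Normal →
    M.Normal → N ≤ M → ∀ W : Subgroup G → ℚ,
    ∑ σ ∈ (Ch ℓ (⊥ : Subgroup G)).filter (fun σ => ∀ D ∈ σ, D ≤ M),
        (-1 : ℚ) ^ σ.card * W (stb σ) =
      ∑ c ∈ (OutC ℓ (⊥ : Subgroup G) N).filter (fun c => ∀ D ∈ c, D ≤ M),
        (-1 : ℚ) ^ c.card * innerS ℓ ⊥ N W c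

open Classical in
/-- DZA: the contribution of an outer chain. -/
def Stmt_DZA : Prop :=
  ∀ (Y G K : Type) [Group Y] [Fintype Y] [Group G] [Fintype G] [Group K] [Finite K]
    (𝔐 : Ideal (integralClosure ℤ ℂ)) (ℓ : ℕ) [Fact ℓ.Prime], 𝔐.IsMaximal →
    (ℓ : integralClosure ℤ ℂ) ∈ 𝔐 → HH ℓ K → ∀ k : Y →* G, FC ℓ k →
    ∀ (lam : k.ker →* ℂˣ) (M₀ : Subgroup G), M₀.Normal → M₀ ≤ k.range →
    ∀ f : k.range →* K, (∀ x, f x = 1 ↔ (x : G) ∈ M₀) → ∀ θ₀ : G → ℂ, ID ℓ M₀ 0 θ₀ →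
    ∀ c : Finset (Subgroup G), IsCh ℓ ⊥ c → (∀ D ∈ c, D ⊓ M₀ = ⊥) → ∀ d : ℕ,
    WR 𝔐 ℓ d k lam M₀ θ₀ (stb c) =
      ∑ ξ ∈ (irrOn M₀).filter (fun ξ => ∃ g, ∀ x, ξ x = θ₀ (g * x * g⁻¹)),
        if ∃ θ', ID ℓ (cN M₀ (tp ⊥ c)) 0 θ' ∧ DGs 𝔐 M₀ (tp ⊥ c) θ' ξ then
          (Nat.card ↥(stb c ⊓ k.range ⊓ sx ξ) : ℚ) *
            NM 𝔐 ℓ d k lam M₀ ξ (stb c ⊓ k.range ⊓ sx ξ ⊔ M₀)
        else 0

open Classical in
/-- DZB: the contribution of one character. -/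
def Stmt_DZB : Prop :=
  ∀ (G : Type) [Group G] [Fintype G] (𝔐 : Ideal (integralClosure ℤ ℂ)) (ℓ : ℕ)
    [Fact ℓ.Prime], 𝔐.IsMaximal → (ℓ : integralClosure ℤ ℂ) ∈ 𝔐 → ∀ M₀ : Subgroup G,
    M₀.Normal → ∀ ξ : G → ℂ, ID ℓ M₀ 0 ξ → ∀ M' T' O : Subgroup G, M₀ ≤ T' → M' ≤ sx ξ →
    T' ≤ sx ξ → M₀ < O → O ≤ M' → (∀ x ∈ O, ∃ n : ℕ, x ^ ℓ ^ n ∈ M₀) →
    (∀ g ∈ M', ∀ x ∈ O, g * x * g⁻¹ ∈ O) → (∀ g ∈ T', ∀ x ∈ O, g * x * g⁻¹ ∈ O) →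
    (∀ g ∈ T', ∀ x ∈ M', g * x * g⁻¹ ∈ M') → ∀ W : Subgroup G → ℚ,
    ∑ c ∈ (OutC ℓ (⊥ : Subgroup G) M₀).filter (fun c => (∀ D ∈ c, D ≤ M') ∧
        ∃ θ', ID ℓ (cN M₀ (tp ⊥ c)) 0 θ' ∧ DGs 𝔐 M₀ (tp ⊥ c) θ' ξ),
      (-1 : ℚ) ^ c.card * ((Nat.card ↥(stb c ⊓ T') : ℚ) * W (stb c ⊓ T' ⊔ M₀)) = 0

open Classical in
/-- DZS: the chain sum for the type of a character of defect zero. -/
def Stmt_DZS : Prop :=
  ∀ (Y G K : Type) [Group Y] [Fintype Y] [Group G] [Fintype G] [Group K] [Finite K]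
    (𝔐 : Ideal (integralClosure ℤ ℂ)) (ℓ : ℕ) [Fact ℓ.Prime], 𝔐.IsMaximal →
    (ℓ : integralClosure ℤ ℂ) ∈ 𝔐 → HH ℓ K → ∀ k : Y →* G, FC ℓ k →
    ∀ (lam : k.ker →* ℂˣ) (M₀ M : Subgroup G), M₀.Normal → M.Normal → M₀ ≤ M →
    M₀ ≤ k.range → ∀ f : k.range →* K, (∀ x, f x = 1 ↔ (x : G) ∈ M₀) →
    ∀ θ₀ : G → ℂ, ID ℓ M₀ 0 θ₀ → ∀ d : ℕ,
    (∀ ξ : G → ℂ, (∃ g, ∀ x, ξ x = θ₀ (g * x * g⁻¹)) →
      (∃ O : Subgroup G, M₀ < O ∧ O ≤ M ⊓ sx ξ ∧ (∀ x ∈ O, ∃ n : ℕ, x ^ ℓ ^ n ∈ M₀) ∧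
        ∀ g ∈ sx ξ, ∀ x ∈ O, g * x * g⁻¹ ∈ O) ∨
      ((∀ x ∈ M ⊓ sx ξ, x ^ ℓ ∈ M₀ → x ∈ M₀) ∧ (∀ x ∈ k.range ⊓ sx ξ, x ^ ℓ ∈ M₀ → x ∈ M₀) ∧
        d ≠ padicValNat ℓ (Nat.card k.ker))) →
    ∑ σ ∈ (Ch ℓ (⊥ : Subgroup G)).filter (fun σ => ∀ D ∈ σ, D ≤ M),
      (-1 : ℚ) ^ σ.card * WR 𝔐 ℓ d k lam M₀ θ₀ (stb σ) = 0

/-! ### Blocks over a normal subgroup -/

/-- BLM: blocks which agree on a normal subgroup. -/
def Stmt_BLM : Prop :=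
  ∀ (X H : Type) [Group X] [Fintype X] [Group H] [Finite H]
    (𝔐 : Ideal (integralClosure ℤ ℂ)) (ℓ : ℕ) [Fact ℓ.Prime], 𝔐.IsMaximal →
    (ℓ : integralClosure ℤ ℂ) ∈ 𝔐 → ∀ (M : Subgroup X) (f : X →* H),
    Function.Surjective f → (∀ x, f x = 1 ↔ x ∈ M) → ∀ P : Subgroup H, P.Normal →
    IsPGroup ℓ P → ¬ ℓ ∣ P.index → (∀ x y : H, x * y * x⁻¹ * y⁻¹ ∈ P) →
    ∀ χ χ' : X → ℂ, IsIrr χ → IsIrr χ' →
    (∀ g ∈ M, cen 𝔐 (MonoidHom.id X) χ g = cen 𝔐 (MonoidHom.id X) χ' g) →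
    ∃ lam : H →* ℂˣ, (∀ h ∈ P, lam h = 1) ∧ ∀ g, cen 𝔐 (MonoidHom.id X) χ' g =
      red 𝔐 ((lam (f g) : ℂˣ) : ℂ) * cen 𝔐 (MonoidHom.id X) χ g

/-- TWL: twisting the chain sum by a linear character. -/
def Stmt_TWL : Prop :=
  ∀ (X : Type) [Group X] [Fintype X] (𝔐 : Ideal (integralClosure ℤ ℂ)) (ℓ : ℕ)
    [Fact ℓ.Prime], 𝔐.IsMaximal → (ℓ : integralClosure ℤ ℂ) ∈ 𝔐 → ∀ (lam : X →* ℂˣ)
    (Z : Subgroup X) (d : ℕ) (ω : X → (integralClosure ℤ ℂ) ⧸ 𝔐),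
    KK 𝔐 ℓ d Z (fun x => red 𝔐 ((lam x : ℂˣ) : ℂ) * ω x) = KK 𝔐 ℓ d Z ω

/-- CHZ: the chains above a central subgroup and the chains of the quotient. -/
def Stmt_CHZ : Prop :=
  ∀ (Y G : Type) [Group Y] [Fintype Y] [Group G] [Fintype G] (ℓ : ℕ) [Fact ℓ.Prime]
    (k : Y →* G), FC ℓ k → Function.Surjective k →
    (∀ τ : Finset (Subgroup G), IsCh ℓ ⊥ τ → ∃ σ : Finset (Subgroup Y), IsCh ℓ k.ker σ ∧
      σ.card = τ.card ∧ stb σ = (stb τ).comap k) ∧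
    ∀ W : Subgroup Y → ℚ, ∑ σ ∈ Ch ℓ k.ker, (-1 : ℚ) ^ σ.card * W (stb σ) =
      ∑ τ ∈ Ch ℓ (⊥ : Subgroup G), (-1 : ℚ) ^ τ.card * W ((stb τ).comap k)

/-- DZ6: the chain sums of the blocks over characters of the smallest possible defect. -/
def Stmt_DZ6 : Prop :=
  ∀ (X H : Type) [Group X] [Fintype X] [Group H] [Finite H]
    (𝔐 : Ideal (integralClosure ℤ ℂ)) (ℓ : ℕ) [Fact ℓ.Prime], 𝔐.IsMaximal →
    (ℓ : integralClosure ℤ ℂ) ∈ 𝔐 → HH ℓ H → ∀ Z M : Subgroup X,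
    Z ≤ Subgroup.center X → IsPGroup ℓ Z → Z ≤ M → ∀ f : X →* H, Function.Surjective f →
    (∀ x, f x = 1 ↔ x ∈ M) → ∀ (χ : X → ℂ) (ξ : M → ℂ), IsIrr χ → IsIrr ξ →
    HasDefect ℓ ξ (padicValNat ℓ (Nat.card Z)) → ip (resj M.subtype χ) ξ ≠ 0 →
    ∀ d : ℕ, padicValNat ℓ (Nat.card Z) < d →
      KK 𝔐 ℓ d Z (cen 𝔐 (MonoidHom.id X) χ) = 0

/-! ### Stable blocks -/

/-- STA: the block which belongs to a character of the normalizer of an `ℓ`-subgroup. -/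
def Stmt_STA : Prop :=
  ∀ (X : Type) [Group X] [Fintype X] (𝔐 : Ideal (integralClosure ℤ ℂ)) (ℓ : ℕ)
    [Fact ℓ.Prime], 𝔐.IsMaximal → (ℓ : integralClosure ℤ ℂ) ∈ 𝔐 → ∀ N D : Subgroup X,
    IsPGroup ℓ D → (∀ r ∈ D, ∀ n ∈ N, r * n * r⁻¹ ∈ N) → ∀ θ' : X → ℂ,
    IrrOn (Subgroup.normalizer (D : Set X) ⊓ N) θ' →
    ∃ ξ : X → ℂ, IrrOn N ξ ∧ D ≤ sx (cgT 𝔐 N ξ) ∧
      ∀ F : X → ℂ, (∀ n ∈ N, ∀ x ∈ N, F (n * x * n⁻¹) = F x) →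
        (∀ r ∈ D, ∀ x ∈ N, F (r * x * r⁻¹) = F x) → (∀ x, IsIntegral ℤ (F x)) →
        red 𝔐 (wS (Subgroup.normalizer (D : Set X) ⊓ N) θ' F) = red 𝔐 (wS N ξ F)

/-- STN: stable blocks are determined by the invariant functions. -/
def Stmt_STN : Prop :=
  ∀ (X : Type) [Group X] [Fintype X] (𝔐 : Ideal (integralClosure ℤ ℂ)) (ℓ : ℕ)
    [Fact ℓ.Prime], 𝔐.IsMaximal → (ℓ : integralClosure ℤ ℂ) ∈ 𝔐 → ∀ N D : Subgroup X,
    (∀ r ∈ D, ∀ n ∈ N, r * n * r⁻¹ ∈ N) → ∀ ξ ξ₁ : X → ℂ, IrrOn N ξ → IrrOn N ξ₁ →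
    D ≤ sx (cgT 𝔐 N ξ) → D ≤ sx (cgT 𝔐 N ξ₁) →
    (∀ F : X → ℂ, (∀ n ∈ N, ∀ x ∈ N, F (n * x * n⁻¹) = F x) →
      (∀ r ∈ D, ∀ x ∈ N, F (r * x * r⁻¹) = F x) → (∀ x, IsIntegral ℤ (F x)) →
      red 𝔐 (wS N ξ F) = red 𝔐 (wS N ξ₁ F)) → cgT 𝔐 N ξ = cgT 𝔐 N ξ₁

/-- STT: the block which belongs to a character of the stabilizer of a chain. -/
def Stmt_STT : Prop :=
  ∀ (X : Type) [Group X] [Fintype X] (𝔐 : Ideal (integralClosure ℤ ℂ)) (ℓ : ℕ)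
    [Fact ℓ.Prime], 𝔐.IsMaximal → (ℓ : integralClosure ℤ ℂ) ∈ 𝔐 → ∀ Z N : Subgroup X,
    Z ≤ Subgroup.center X → N.Normal → ∀ σ : Finset (Subgroup X), IsCh ℓ Z σ →
    ∀ θ' : X → ℂ, IrrOn (stb σ ⊓ N) θ' →
    ∃ ξ : X → ℂ, IrrOn N ξ ∧ tp Z σ ≤ sx (cgT 𝔐 N ξ) ∧
      ∀ F : X → ℂ, (∀ n ∈ N, ∀ x ∈ N, F (n * x * n⁻¹) = F x) →
        (∀ r ∈ tp Z σ, ∀ x ∈ N, F (r * x * r⁻¹) = F x) → (∀ x, IsIntegral ℤ (F x)) →
        red 𝔐 (wS (stb σ ⊓ N) θ' F) = red 𝔐 (wS N ξ F)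

open Classical in
/-- STC: the characters of the stabilizer of a chain, sorted by the blocks of the normal
subgroup. -/
def Stmt_STC : Prop :=
  ∀ (X : Type) [Group X] [Fintype X] (𝔐 : Ideal (integralClosure ℤ ℂ)) (ℓ : ℕ)
    [Fact ℓ.Prime], 𝔐.IsMaximal → (ℓ : integralClosure ℤ ℂ) ∈ 𝔐 → ∀ Z N : Subgroup X,
    Z ≤ Subgroup.center X → N.Normal → ∀ (ω : X → (integralClosure ℤ ℂ) ⧸ 𝔐) (ξ₀ : X → ℂ),
    IrrOn N ξ₀ → (∀ x ∈ N, cgT 𝔐 ⊤ ξ₀ x = ω x) → ∀ σ : Finset (Subgroup X), IsCh ℓ Z σ →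
    ∀ d : ℕ,
    (Nat.card (sx (cgT 𝔐 N ξ₀)) : ℚ) * ((Nat.card (stb σ) : ℚ) *
        Nat.card {ψ : X → ℂ // ID ℓ (stb σ) d ψ ∧ cgT 𝔐 ⊤ ψ = ω}) =
      ∑ g : X, if tp Z σ ≤ sx (cgT 𝔐 N (fun x => ξ₀ (g * x * g⁻¹))) then
        (Nat.card ↥(stb σ ⊓ sx (cgT 𝔐 N (fun x => ξ₀ (g * x * g⁻¹)))) : ℚ) *
          Nat.card {ψ : X → ℂ // ID ℓ (stb σ ⊓ sx (cgT 𝔐 N (fun x => ξ₀ (g * x * g⁻¹)))) d ψ ∧
            cgT 𝔐 ⊤ ψ = ω ∧ ∀ x ∈ N,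
              cgT 𝔐 (sx (cgT 𝔐 N (fun x => ξ₀ (g * x * g⁻¹)))) ψ x =
                cgT 𝔐 (sx (cgT 𝔐 N (fun x => ξ₀ (g * x * g⁻¹))))
                  (fun x => ξ₀ (g * x * g⁻¹)) x}
        else 0

/-- STB: the blocks of the normal subgroups of a minimal counterexample are stable. -/
def Stmt_STB : Prop :=
  ∀ (X : Type) [Group X] [Fintype X] (𝔐 : Ideal (integralClosure ℤ ℂ)) (ℓ : ℕ)
    [Fact ℓ.Prime], 𝔐.IsMaximal → (ℓ : integralClosure ℤ ℂ) ∈ 𝔐 → ∀ n : ℕ, HQ ℓ n →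
    (Subgroup.center X).index ≤ n + 1 → ∀ Z N : Subgroup X, Z ≤ Subgroup.center X →
    IsPGroup ℓ Z → N.Normal → ∀ d : ℕ, padicValNat ℓ (Nat.card Z) < d →
    ∀ ω : X → (integralClosure ℤ ℂ) ⧸ 𝔐, KK 𝔐 ℓ d Z ω ≠ 0 → ∀ ξ : X → ℂ, IrrOn N ξ →
    (∀ x ∈ N, cgT 𝔐 ⊤ ξ x = ω x) → sx (cgT 𝔐 N ξ) = ⊤

/-! ### The quotient by a normal subgroup -/

/-- OUTF: a family for a nonvanishing chain sum. -/
def Stmt_OUTF : Prop :=
  ∀ (O X H : Type) [Group O] [Fintype O] [Group X] [Fintype X] [Group H] [Fintype H]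
    (𝔐 : Ideal (integralClosure ℤ ℂ)) (ℓ : ℕ) [Fact ℓ.Prime], 𝔐.IsMaximal →
    (ℓ : integralClosure ℤ ℂ) ∈ 𝔐 → ∀ (j : O →* X) (c : X →* MulAut O) (p : X →* H)
    (h : ClG j c p), Function.Surjective p → pCore ℓ H = ⊥ → ∀ n : ℕ, HQ ℓ n →
    Subgroup.center X ≤ j.range → (Subgroup.center X).index ≤ n + 1 → Nat.card H ≤ n →
    ∀ Z : Subgroup O, IsPGroup ℓ Z → Z.map j ≤ Subgroup.center X → ∀ (d : ℕ)
    (ω : X → (integralClosure ℤ ℂ) ⧸ 𝔐), padicValNat ℓ (Nat.card Z) < d →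
    DK 𝔐 ℓ d (Z.map j) (MonoidHom.id X) {ω} ≠ 0 →
    ∃ (W : Type) (_ : Group W) (_ : Fintype W) (π : W →* H) (R : Subgroup W)
      (μ : ∀ τ : Finset (Subgroup O), (stb τ → ℂ) → (π.ker →* ℂˣ))
      (Lm : ∀ τ : Finset (Subgroup O), (stb τ → ℂ) → (YS j τ → ℤ) → W →
        (integralClosure ℤ ℂ) ⧸ 𝔐) (τ : Finset (Subgroup O)) (θ : stb τ → ℂ),
      Fam h 𝔐 ℓ d Z (cen 𝔐 (stb τ).subtype θ) π R μ Lm ∧
      Pr h 𝔐 ℓ d Z (cen 𝔐 (stb τ).subtype θ) τ θ ∧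
      (∀ o, ω (j o) = cen 𝔐 (j.comp (stb τ).subtype) θ (j o)) ∧
      (∀ x y : W, x * y * x⁻¹ * y⁻¹ ∈ R) ∧ ¬ ℓ ∣ R.index

/-- OUTN: elements which centralize `O / N`. -/
def Stmt_OUTN : Prop :=
  ∀ (X : Type) [Group X] [Fintype X] (𝔐 : Ideal (integralClosure ℤ ℂ)) (ℓ : ℕ)
    [Fact ℓ.Prime], 𝔐.IsMaximal → (ℓ : integralClosure ℤ ℂ) ∈ 𝔐 → ∀ N O : Subgroup X,
    N.Normal → O.Normal → N ≤ O → (∀ x ∈ O, ∃ n : ℕ, x ^ ℓ ^ n ∈ N) →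
    ∀ χ : O → ℂ, IsIrr χ → ∀ ξ : X → ℂ, IrrOn N ξ →
    ip (fun n : N.subgroupOf O => χ n) (fun n : N.subgroupOf O => ξ (n : O)) ≠ 0 →
    O ≤ sx (cgT 𝔐 N ξ) → ∀ (x : X) (u v : X → ℤ),
    (∀ a ∈ O, ∀ y, u (a * y * a⁻¹) = u y) → (∀ a ∈ O, ∀ y, v (a * y * a⁻¹) = v y) →
    (∀ y, u y ≠ 0 → x⁻¹ * y ∈ O) → (∀ y, v y ≠ 0 → x * y ∈ O) →
    red 𝔐 (wt χ (fun o => ((conv u v (o : X) : ℤ) : ℂ))) ≠ 0 →
    ∃ y, x⁻¹ * y ∈ O ∧ ∀ o ∈ O, y * o * y⁻¹ * o⁻¹ ∈ N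

/-- OUTG: a normal subgroup with quotient in the class. -/
def Stmt_OUTG : Prop :=
  ∀ (X : Type) [Group X] [Fintype X] (ℓ : ℕ) [Fact ℓ.Prime] (N O Q : Subgroup X),
    N.Normal → O.Normal → Q.Normal → N ≤ O → O ≤ Q → (∀ x ∈ O, ∃ n : ℕ, x ^ ℓ ^ n ∈ N) →
    (∀ x y : X, x * y * x⁻¹ * y⁻¹ ∈ Q) → (∀ x, x ^ ℓ ∈ O → x ∈ O) →
    (∀ x ∈ Q, ∃ y, x⁻¹ * y ∈ O ∧ ∀ o ∈ O, y * o * y⁻¹ * o⁻¹ ∈ N) →
    ∃ M : Subgroup X, M.Normal ∧ N ≤ M ∧ (∀ x ∈ M, x ^ ℓ ∈ N → x ∈ N) ∧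
      ∃ (H : Type) (_ : Group H) (_ : Finite H) (f : X →* H), Function.Surjective f ∧
        (∀ x, f x = 1 ↔ x ∈ M) ∧ HH ℓ H

/-- OUT1: for a nonvanishing chain sum of a minimal counterexample and a normal subgroup `N`, there
is a normal subgroup `M` with quotient in the class such that `M / N` has order prime to `ℓ`. -/
def Stmt_OUT1 : Prop :=
  ∀ (X : Type) [Group X] [Fintype X] (𝔐 : Ideal (integralClosure ℤ ℂ)) (ℓ : ℕ)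
    [Fact ℓ.Prime], 𝔐.IsMaximal → (ℓ : integralClosure ℤ ℂ) ∈ 𝔐 →
    pCore ℓ X ≤ Subgroup.center X → HQ ℓ ((Subgroup.center X).index - 1) →
    ∀ (d : ℕ) (ω : X → (integralClosure ℤ ℂ) ⧸ 𝔐),
    padicValNat ℓ (Nat.card (pCore ℓ X)) < d → KK 𝔐 ℓ d (pCore ℓ X) ω ≠ 0 →
    ∀ N : Subgroup X, N.Normal → Subgroup.center X < N →
    ∃ M : Subgroup X, M.Normal ∧ N ≤ M ∧ (∀ x ∈ M, x ^ ℓ ∈ N → x ∈ N) ∧
      ∃ (H : Type) (_ : Group H) (_ : Finite H) (f : X →* H), Function.Surjective f ∧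
        (∀ x, f x = 1 ↔ x ∈ M) ∧ HH ℓ H

/-- B0F: the minimal normal subgroup of a minimal counterexample. -/
def Stmt_B0F : Prop :=
  ∀ (X : Type) [Group X] [Fintype X] (ℓ : ℕ) [Fact ℓ.Prime],
    pCore ℓ X ≤ Subgroup.center X → HQ ℓ ((Subgroup.center X).index - 1) →
    ¬ DadeHolds ℓ X →
    (∀ N : Subgroup X, N.Normal → Subgroup.center X < N →
      (∃ x ∈ N, x ^ ℓ ∈ Subgroup.center X ∧ x ∉ Subgroup.center X) ∧
      ∃ x ∈ N, ∃ y ∈ N, x * y * x⁻¹ * y⁻¹ ∉ Subgroup.center X) ∧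
    ∃ N : Subgroup X, N.Normal ∧ Subgroup.center X < N ∧
      ∀ N' : Subgroup X, N'.Normal → Subgroup.center X < N' → N ≤ N'

end Pool.Agent.DPT


end

section

/-!
# CHZ: the chains above a central subgroup and the chains of the quotient
-/

namespace Pool.Agent.DPT

open Pool.Agent.DP Pool.Agent.DPC Pool.Agent.DPM Pool.Agent.DPN Pool.Agent.Lib_helper13
  Representation

namespace CHZ

section

variable {Y G : Type} [Group Y] [Group G] {ℓ : ℕ} {k : Y →* G}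

open Classical in
/-- The preimage of a chain. -/
noncomputable def cch (k : Y →* G) (τ : Finset (Subgroup G)) : Finset (Subgroup Y) :=
  τ.image (Subgroup.comap k)

theorem mem_cch {τ : Finset (Subgroup G)} {D : Subgroup Y} :
    D ∈ cch k τ ↔ ∃ E ∈ τ, E.comap k = D := by
  classical
  simp [cch]

theorem card_cch (hs : Function.Surjective k) (τ : Finset (Subgroup G)) :
    (cch k τ).card = τ.card := by
  classical
  rw [cch, Finset.card_image_of_injective _ (Subgroup.comap_injective hs)]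

theorem stb_cch (hs : Function.Surjective k) (τ : Finset (Subgroup G)) :
    stb (cch k τ) = (stb τ).comap k := by
  ext g
  rw [Subgroup.mem_comap, mem_stb', mem_stb']
  constructor
  · intro h E hE x
    obtain ⟨y, rfl⟩ := hs x
    have h1 := h (E.comap k) (mem_cch.2 ⟨E, hE, rfl⟩) y
    rw [Subgroup.mem_comap, Subgroup.mem_comap, map_mul, map_mul, map_inv] at h1
    exact h1
  · intro h D hD y
    obtain ⟨E, hE, rfl⟩ := mem_cch.1 hD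
    rw [Subgroup.mem_comap, Subgroup.mem_comap, map_mul, map_mul, map_inv]
    exact h E hE (k y)

theorem isCh_cch [Fact ℓ.Prime] (hk : FC ℓ k) (hs : Function.Surjective k)
    {τ : Finset (Subgroup G)} (hτ : IsCh ℓ ⊥ τ) : IsCh ℓ k.ker (cch k τ) := by
  constructor
  · intro D hD
    obtain ⟨E, hE, rfl⟩ := mem_cch.1 hD
    obtain ⟨h1, h2⟩ := hτ.1 E hE
    refine ⟨h1.comap_of_ker_isPGroup k hk.pg, ?_⟩
    rw [← MonoidHom.comap_bot k]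
    exact (Subgroup.comap_lt_comap_of_surjective hs).2 h2
  · intro D hD D' hD' _
    obtain ⟨E, hE, rfl⟩ := mem_cch.1 (Finset.mem_coe.1 hD)
    obtain ⟨E', hE', rfl⟩ := mem_cch.1 (Finset.mem_coe.1 hD')
    exact (hτ.total hE hE').imp Subgroup.comap_mono Subgroup.comap_mono

theorem isCh_mapCh {σ : Finset (Subgroup Y)} (hσ : IsCh ℓ k.ker σ) : IsCh ℓ ⊥ (mapCh k σ) := by
  constructor
  · intro E hE
    obtain ⟨D, hD, rfl⟩ := mem_mapCh.1 hE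
    obtain ⟨h1, h2⟩ := hσ.1 D hD
    refine ⟨h1.map k, bot_lt_iff_ne_bot.2 fun h3 => ?_⟩
    exact absurd ((Subgroup.map_eq_bot_iff _).1 h3) (not_le_of_gt h2)
  · intro E hE E' hE' _
    obtain ⟨D, hD, rfl⟩ := mem_mapCh.1 (Finset.mem_coe.1 hE)
    obtain ⟨D', hD', rfl⟩ := mem_mapCh.1 (Finset.mem_coe.1 hE')
    exact (hσ.total hD hD').imp Subgroup.map_mono Subgroup.map_mono

theorem mapCh_cch (hs : Function.Surjective k) (τ : Finset (Subgroup G)) :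
    mapCh k (cch k τ) = τ := by
  ext E
  rw [mem_mapCh]
  constructor
  · rintro ⟨D, hD, rfl⟩
    obtain ⟨E, hE, rfl⟩ := mem_cch.1 hD
    rw [Subgroup.map_comap_eq_self_of_surjective hs]
    exact hE
  · intro hE
    exact ⟨E.comap k, mem_cch.2 ⟨E, hE, rfl⟩, Subgroup.map_comap_eq_self_of_surjective hs E⟩

theorem cch_mapCh {σ : Finset (Subgroup Y)} (hσ : IsCh ℓ k.ker σ) : cch k (mapCh k σ) = σ := by
  ext D
  rw [mem_cch]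
  constructor
  · rintro ⟨E, hE, rfl⟩
    obtain ⟨D, hD, rfl⟩ := mem_mapCh.1 hE
    rw [Subgroup.comap_map_eq_self (hσ.1 D hD).2.le]
    exact hD
  · intro hD
    exact ⟨D.map k, mem_mapCh.2 ⟨D, hD, rfl⟩, Subgroup.comap_map_eq_self (hσ.1 D hD).2.le⟩

end

end CHZ

theorem CHZ_thm : Stmt_CHZ := by
  intro Y G _ _ _ _ ℓ _ k hk hs
  refine ⟨fun τ hτ => ⟨CHZ.cch k τ, CHZ.isCh_cch hk hs hτ, CHZ.card_cch hs τ,
    CHZ.stb_cch hs τ⟩, fun W => ?_⟩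
  refine (Finset.sum_nbij' (fun τ => CHZ.cch k τ) (fun σ => mapCh k σ) ?_ ?_ ?_ ?_ ?_).symm
  · intro τ hτ
    exact mem_Ch.2 (CHZ.isCh_cch hk hs (mem_Ch.1 hτ))
  · intro σ hσ
    exact mem_Ch.2 (CHZ.isCh_mapCh (mem_Ch.1 hσ))
  · intro τ _
    exact CHZ.mapCh_cch hs τ
  · intro σ hσ
    exact CHZ.cch_mapCh (mem_Ch.1 hσ)
  · intro τ _
    rw [CHZ.card_cch hs, CHZ.stb_cch hs]

end Pool.Agent.DPT


end

section

/-!
# STT: the block which belongs to a character of the stabilizer of a chain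
-/

set_option autoImplicit false
set_option linter.unusedSectionVars false

namespace Pool.Agent.DPT

open Pool.Agent.DP Pool.Agent.DPC Pool.Agent.DPM Pool.Agent.DPN Pool.Agent.Lib_helper13
open Representation

namespace STT

section Aux

variable {X : Type} [Group X]

open Classical in
theorem stb_erase {σ : Finset (Subgroup X)} {D : Subgroup X} (hD : D ∈ σ) :
    stb σ = Subgroup.normalizer (D : Set X) ⊓ stb (σ.erase D) := by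
  ext g
  rw [Subgroup.mem_inf, mem_stb', mem_stb', Subgroup.mem_normalizer_iff]
  constructor
  · intro h
    exact ⟨h D hD, fun E hE => h E (Finset.mem_of_mem_erase hE)⟩
  · rintro ⟨h1, h2⟩ E hE
    by_cases hED : E = D
    · rw [hED]
      exact h1
    · exact h2 E (Finset.mem_erase.mpr ⟨hED, hE⟩)

theorem le_stb {σ : Finset (Subgroup X)} {D : Subgroup X} (h : ∀ E ∈ σ, D ≤ E) : D ≤ stb σ := by
  intro x hx
  rw [mem_stb']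
  intro E hE z
  have hxE : x ∈ E := h E hE hx
  constructor
  · intro hz
    exact mul_mem (mul_mem hxE hz) (inv_mem hxE)
  · intro hz
    have h4 : z = x⁻¹ * (x * z * x⁻¹) * x := by group
    rw [h4]
    exact mul_mem (mul_mem (inv_mem hxE) hz) hxE

open Classical in
theorem tp_erase {Z : Subgroup X} {σ : Finset (Subgroup X)} {D : Subgroup X}
    (hbot : ∀ E ∈ σ, D ≤ E) (hne : (σ.erase D).Nonempty) : tp Z σ = tp Z (σ.erase D) := by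
  unfold tp
  congr 1
  apply le_antisymm
  · apply Finset.sup_le
    intro E hE
    by_cases hED : E = D
    · obtain ⟨E', hE'⟩ := hne
      rw [hED]
      exact le_trans (hbot E' (Finset.mem_of_mem_erase hE'))
        (Finset.le_sup (f := id) hE')
    · exact Finset.le_sup (f := id) (Finset.mem_erase.mpr ⟨hED, hE⟩)
  · exact Finset.sup_mono (Finset.erase_subset _ _)

open Classical in
theorem tp_single {Z : Subgroup X} {σ : Finset (Subgroup X)} {D : Subgroup X} (hD : D ∈ σ)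
    (hZ : Z < D) (he : σ.erase D = ∅) : tp Z σ = D := by
  have h1 : σ = {D} := by
    rw [← Finset.insert_erase hD, he]
    rfl
  rw [h1]
  unfold tp
  rw [Finset.sup_singleton, id, sup_eq_left]
  exact hZ.le

end Aux

theorem main (h1 : Stmt_STA) (X : Type) [Group X] [Fintype X]
    (𝔐 : Ideal (integralClosure ℤ ℂ)) (ℓ : ℕ) [Fact ℓ.Prime] (hmax : 𝔐.IsMaximal)
    (hl : (ℓ : integralClosure ℤ ℂ) ∈ 𝔐) (Z N : Subgroup X) (hZ : Z ≤ Subgroup.center X)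
    (hN : N.Normal) : ∀ (n : ℕ) (σ : Finset (Subgroup X)), σ.card = n → IsCh ℓ Z σ →
    ∀ θ' : X → ℂ, IrrOn (stb σ ⊓ N) θ' →
    ∃ ξ : X → ℂ, IrrOn N ξ ∧ tp Z σ ≤ sx (cgT 𝔐 N ξ) ∧
      ∀ F : X → ℂ, (∀ n ∈ N, ∀ x ∈ N, F (n * x * n⁻¹) = F x) →
        (∀ r ∈ tp Z σ, ∀ x ∈ N, F (r * x * r⁻¹) = F x) → (∀ x, IsIntegral ℤ (F x)) →
        red 𝔐 (wS (stb σ ⊓ N) θ' F) = red 𝔐 (wS N ξ F) := by
  classical
  intro n
  induction n with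
  | zero =>
    intro σ hn _ θ' hθ
    rw [Finset.card_eq_zero] at hn
    subst hn
    have h2 : stb (∅ : Finset (Subgroup X)) ⊓ N = N := by
      rw [stb_empty, top_inf_eq]
    rw [h2] at hθ
    refine ⟨θ', hθ, ?_, ?_⟩
    · intro z hz
      have hz' : z ∈ Z := by
        unfold tp at hz
        rw [Finset.sup_empty, bot_sup_eq] at hz
        exact hz
      rw [mem_sx]
      intro x
      have h3 := Subgroup.mem_center_iff.mp (hZ hz') x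
      rw [← h3, mul_inv_cancel_right]
    · intro F _ _ _
      rw [h2]
  | succ n ih =>
    intro σ hn hσ θ' hθ
    have hne : σ.Nonempty := by
      rw [← Finset.card_pos]
      omega
    obtain ⟨D, hD, hbot⟩ := hσ.exists_bot hne
    obtain ⟨hDp, hDZ⟩ := hσ.1 D hD
    have hDs : D ≤ stb (σ.erase D) := le_stb fun E hE => hbot E (Finset.mem_of_mem_erase hE)
    have hst : stb σ ⊓ N = Subgroup.normalizer (D : Set X) ⊓ (stb (σ.erase D) ⊓ N) := by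
      rw [stb_erase hD, inf_assoc]
    have hnorm : ∀ r ∈ D, ∀ n ∈ stb (σ.erase D) ⊓ N, r * n * r⁻¹ ∈ stb (σ.erase D) ⊓ N := by
      intro r hr n hn'
      obtain ⟨hn1, hn2⟩ := Subgroup.mem_inf.mp hn'
      exact Subgroup.mem_inf.mpr ⟨(stb (σ.erase D)).mul_mem
        ((stb (σ.erase D)).mul_mem (hDs hr) hn1) ((stb (σ.erase D)).inv_mem (hDs hr)),
        hN.conj_mem n hn2 r⟩
    rw [hst] at hθ
    obtain ⟨ξ₁, hξ₁, hs₁, hF₁⟩ := h1 X 𝔐 ℓ hmax hl (stb (σ.erase D) ⊓ N) D hDp hnorm θ' hθ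
    have hDtp : D ≤ tp Z σ := le_trans (Finset.le_sup (f := id) hD) le_sup_left
    have hF₂ : ∀ F : X → ℂ, (∀ n ∈ N, ∀ x ∈ N, F (n * x * n⁻¹) = F x) →
        (∀ r ∈ tp Z σ, ∀ x ∈ N, F (r * x * r⁻¹) = F x) → (∀ x, IsIntegral ℤ (F x)) →
        red 𝔐 (wS (stb σ ⊓ N) θ' F) = red 𝔐 (wS (stb (σ.erase D) ⊓ N) ξ₁ F) := by
      intro F ha hb hc
      rw [hst]
      exact hF₁ F (fun m hm x hx => ha m hm.2 x hx.2) (fun r hr x hx => hb r (hDtp hr) x hx.2) hc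
    by_cases he : σ.erase D = ∅
    · have h2 : stb (σ.erase D) ⊓ N = N := by
        rw [he, stb_empty, top_inf_eq]
      refine ⟨ξ₁, ?_, ?_, ?_⟩
      · rw [← h2]
        exact hξ₁
      · rw [tp_single hD hDZ he]
        rw [h2] at hs₁
        exact hs₁
      · intro F ha hb hc
        rw [hF₂ F ha hb hc, h2]
    · have hne1 : (σ.erase D).Nonempty := Finset.nonempty_iff_ne_empty.mpr he
      have htp := tp_erase (Z := Z) hbot hne1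
      obtain ⟨ξ, hξ, hs, hF⟩ := ih (σ.erase D)
        (by rw [Finset.card_erase_of_mem hD, hn, Nat.add_sub_cancel])
        (hσ.subset (Finset.erase_subset _ _)) ξ₁ hξ₁
      refine ⟨ξ, hξ, ?_, ?_⟩
      · rw [htp]
        exact hs
      · intro F ha hb hc
        rw [hF₂ F ha hb hc]
        exact hF F ha (by rw [← htp]; exact hb) hc

end STT

theorem STT_thm (h1 : Stmt_STA) : Stmt_STT := by
  intro X _ _ 𝔐 ℓ _ hmax hl Z N hZ hN σ hσ θ' hθ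
  exact STT.main h1 X 𝔐 ℓ hmax hl Z N hZ hN σ.card σ rfl hσ θ' hθ

end Pool.Agent.DPT


end

section

/-!
# EVALR: the product formula
-/

namespace Pool.Agent.DP

open Pool.Agent.Lib_helper13 Representation

theorem EVALR_thm : Stmt_EVALR := by
  intro Q G _ _ _ _ ℓ h
  rw [← sum_closed_prod ℓ fun w σ => ∑ ψ ∈ irrOn (stb σ), h w σ ψ]
  refine Finset.sum_congr rfl fun τ _ => ?_
  congr 1
  exact (Finset.prod_univ_sum _ _).symm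

end Pool.Agent.DP


end

section

/-!
# Theorem R: only the empty chain contributes to products of defect zero
-/

namespace Pool.Agent.DPC

open Pool.Agent.DP

open Pool.Agent.Lib_helper13 Representation
open Pool.Agent.Lib_helper13.Dade (pCore DadeHolds)

namespace BLKCR

/-- The isomorphism with the stabilizer of the empty chain of the normal subgroup. -/
noncomputable def eYS {A Y : Type*} [Group A] [Group Y] (j : A →* Y) :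
    Y ≃* YS j (∅ : Finset (Subgroup A)) :=
  (BLKC.eE Y).trans (MulEquiv.subgroupCongr (by rw [YS, BLKC.mapCh_empty]))

end BLKCR

open BLKC _root_.Pool.Agent.DPC.BLKCR in
theorem BLKCR_thm (h1 : Stmt_CGT) : Stmt_BLKCR := by
  intro O G B C Y K X _ _ _ _ _ _ _ _ _ _ _ _ 𝔐 ℓ _ hmax hℓ ι κ ρ hL j p φ h i τ hτ θ hθ ψ hψ hip
    J hdz
  have hprime : 𝔐.IsPrime := hmax.isPrime
  have hτ' := mem_ClCh.mp hτ
  have hdef : ∀ o, HasDefect ℓ (fun s : stb (comp τ o) => θ o s) 0 := by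
    intro o
    obtain ⟨b, ⟨f, hf, rfl⟩, χ, hχ, hχ0, hχc⟩ := hdz o
    refine defect_zero_of_cen 𝔐 hℓ hχ hχ0 (stb (comp τ o)).subtype (hθ o).1 fun g => ?_
    rw [cg_eq_cen 𝔐 (stb (comp τ o)) (θ o) (hθ o).2 g]
    have h2 := (h1 G B C 𝔐 ι κ ρ hL.cl).2.1 f g
    have h3 : (fun h => f (ι h)) = θ o := funext hf.2
    rw [h3, hχc g] at h2
    rw [← h2]
    rfl
  have hempty : ∀ o, comp τ o = ∅ := fun o =>
    DZT_thm G ℓ (comp τ o) (comp_isCh hτ'.1 o) _ (hθ o).1 (hdef o)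
  have hfull := fun o => irr_of_empty (hempty o) (hθ o).1 (hdef o)
  refine ⟨fun o => (hfull o).1, fun o => (hfull o).2, ?_⟩
  have hτ0 : τ = ∅ := by
    by_contra hne
    obtain ⟨D, hD'⟩ := Finset.nonempty_iff_ne_empty.mpr hne
    have h4 : D = ⊥ := by
      rw [← hτ'.2 D hD', cl, ← pK_bot]
      congr 1
      ext1 o
      by_contra h5
      have h6 : prj o D ∈ comp τ o := mem_comp.mpr ⟨h5, D, hD', rfl⟩
      rw [hempty o] at h6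
      exact Finset.notMem_empty _ h6
    exact (hτ'.1.1 D hD').2.ne' h4
  subst hτ0
  refine ⟨fun y => ψ (eYS j y), hψ.comp_mulEquiv (eYS j), ?_, fun g => ?_⟩
  · intro h
    apply hip
    rw [← ip_comp_equiv (eE (O → G))]
    exact h
  · rw [← cen_comp_equiv 𝔐 (eYS j) (i.comp (YS j (∅ : Finset (Subgroup (O → G)))).subtype) ψ]
    rfl

end Pool.Agent.DPC


end
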