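import Mathlib
import Pool.Agent.DAM.C22
import Pool.Agent.DAM.C26

/-! Parts: DPT.XIM, DPX.NRMX -/

section

/-!
# The character of the space of homomorphisms
-/

namespace Pool.Agent.DPT

open Pool.Agent.DP Pool.Agent.DPC Pool.Agent.DPM Pool.Agent.DPN Pool.Agent.Lib_helper13
open Representation
open Pool.Agent.Lib_helper13.Dade (pCore DadeHolds dadeSum)

namespace XIM

/-- The dual character. -/
theorem isChr_inv {Y : Type} [Group Y] {ψ : Y → ℂ} (h : IsChr ψ) : IsChr (fun x => ψ x⁻¹) := by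
  obtain ⟨n, ρ, rfl⟩ := h
  have h1 := isChr_of_rep (dual ρ)
  have h2 : (dual ρ).character = fun x => ρ.character x⁻¹ := by
    ext x
    exact char_dual ρ x
  rw [h2] at h1
  exact h1

section

variable {A T Γ L K : Type} [Group A] [Group T] [Group Γ] [Group L] [Group K]
  {j : A →* T} {p : T →* K} {θ : A → ℂ} {e : A →* Γ} {q : Γ →* L} {r : Γ →* T} {E : Γ → ℂ}
  {U : Subgroup L} {μ : U →* ℂˣ} {π : L →* K}

theorem qe (h : TWD j p θ e q r E U μ π) (a : A) : q (e a) = 1 := (h.qk _).mpr ⟨a, rfl⟩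

/-- Elements of `U` come from the kernel of `r`. -/
theorem lift (h : TWD j p θ e q r E U μ π) (hp : ∀ t, p t = 1 ↔ t ∈ j.range) (u : L)
    (hu : u ∈ U) : ∃ z : Γ, q z = u ∧ r z = 1 := by
  obtain ⟨γ, hγ⟩ := h.qs u
  have h1 : p (r γ) = 1 := by
    rw [← h.πq, hγ]
    exact (h.πk u).mpr hu
  obtain ⟨a, ha⟩ := (hp _).mp h1
  refine ⟨γ * (e a)⁻¹, ?_, ?_⟩
  · rw [map_mul, map_inv, qe h, inv_one, mul_one, hγ]
  · rw [map_mul, map_inv, h.re, ha, mul_inv_cancel]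

end

end XIM

open _root_.Pool.Agent.DPT.XIM in
theorem XIM_thm (h1 : Stmt_AVG) : Stmt_XIM := by
  intro A₁ T₁ Γ₁ L₁ A₂ T₂ Γ₂ L₂ K _ _ _ _ _ _ _ _ _ _ _ _ _ _ _ _ _ j₁ p₁ θ₁ e₁ q₁ r₁ E₁ U₁
    μ₁ π₁ j₂ p₂ θ₂ e₂ q₂ r₂ E₂ U₂ μ₂ π₂ H₁ H₂ hp₁ hp₂ hj₁ hj₂ _ _ _ i i' _ hpi hij
  classical
  have hf : ∀ x : ↥(fpr r₁ (i.comp r₂)),
      (q₁ (x : Γ₁ × Γ₂).1, q₂ (x : Γ₁ × Γ₂).2) ∈ fpr π₁ π₂ := by
    intro x
    have hx : r₁ (x : Γ₁ × Γ₂).1 = i (r₂ (x : Γ₁ × Γ₂).2) := x.2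
    rw [mem_fpr]
    simp only
    rw [H₁.πq, H₂.πq, hx, hpi]
  let f : ↥(fpr r₁ (i.comp r₂)) →* ↥(fpr π₁ π₂) :=
    { toFun := fun x => ⟨(q₁ (x : Γ₁ × Γ₂).1, q₂ (x : Γ₁ × Γ₂).2), hf x⟩
      map_one' := by
        apply Subtype.ext
        simp
      map_mul' := by
        intro x y
        apply Subtype.ext
        simp }
  have hfs : Function.Surjective f := by
    rintro ⟨⟨l₁, l₂⟩, hl⟩
    rw [mem_fpr] at hl
    simp only at hl
    obtain ⟨γ₂, hγ₂⟩ := H₂.qs l₂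
    obtain ⟨γ₁, hγ₁⟩ := H₁.qs l₁
    have h3 : p₁ ((i (r₂ γ₂))⁻¹ * r₁ γ₁) = 1 := by
      rw [map_mul, map_inv, hpi, ← H₁.πq, ← H₂.πq, hγ₁, hγ₂, hl, inv_mul_cancel]
    obtain ⟨a, ha⟩ := (hp₁ _).mp h3
    have h4 : r₁ (γ₁ * (e₁ a)⁻¹) = i (r₂ γ₂) := by
      rw [map_mul, map_inv, H₁.re, ha]
      group
    refine ⟨⟨(γ₁ * (e₁ a)⁻¹, γ₂), h4⟩, ?_⟩
    apply Subtype.ext
    apply Prod.ext
    · change q₁ (γ₁ * (e₁ a)⁻¹) = l₁
      rw [map_mul, map_inv, qe H₁, inv_one, mul_one, hγ₁]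
    · exact hγ₂
  -- the character
  have hX : IsChr (fun x : ↥(fpr r₁ (i.comp r₂)) =>
      E₁ (x : Γ₁ × Γ₂).1 * E₂ ((x : Γ₁ × Γ₂).2)⁻¹) := by
    refine IsChr.mul ?_ ?_
    · exact H₁.Ec.comp (ffst r₁ (i.comp r₂))
    · exact (isChr_inv H₂.Ec).comp (fsnd r₁ (i.comp r₂))
  obtain ⟨Ξ, hΞ, hval⟩ := h1 _ _ f hfs _ hX
  refine ⟨Ξ, hΞ, ?_, ?_⟩
  · -- the degree
    have hk : ∀ a : A₂, (⟨(e₁ (i' a), e₂ a), by
        change r₁ (e₁ (i' a)) = i (r₂ (e₂ a))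
        rw [H₁.re, H₂.re, hij]⟩ : ↥(fpr r₁ (i.comp r₂))) ∈ f.ker := by
      intro a
      rw [MonoidHom.mem_ker]
      apply Subtype.ext
      apply Prod.ext
      · exact qe H₁ _
      · exact qe H₂ _
    let φ : A₂ → f.ker := fun a => ⟨_, hk a⟩
    have hφ : Function.Bijective φ := by
      constructor
      · intro a b hab
        have h3 : e₂ a = e₂ b := congrArg
          (fun x : f.ker => ((x : ↥(fpr r₁ (i.comp r₂))) : Γ₁ × Γ₂).2) hab
        apply hj₂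
        rw [← H₂.re, ← H₂.re, h3]
      · rintro ⟨x, hx⟩
        have hx' := congrArg (fun y : ↥(fpr π₁ π₂) => (y : L₁ × L₂)) (MonoidHom.mem_ker.mp hx)
        have hx1 : q₁ (x : Γ₁ × Γ₂).1 = 1 := congrArg Prod.fst hx'
        have hx2 : q₂ (x : Γ₁ × Γ₂).2 = 1 := congrArg Prod.snd hx'
        obtain ⟨a₁, ha₁⟩ := (H₁.qk _).mp hx1
        obtain ⟨a₂, ha₂⟩ := (H₂.qk _).mp hx2
        have hxm : r₁ (x : Γ₁ × Γ₂).1 = i (r₂ (x : Γ₁ × Γ₂).2) := x.2
        rw [← ha₁, ← ha₂, H₁.re, H₂.re, hij] at hxm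
        have h5 : a₁ = i' a₂ := hj₁ hxm
        refine ⟨a₂, ?_⟩
        apply Subtype.ext
        apply Subtype.ext
        apply Prod.ext
        · change e₁ (i' a₂) = _
          rw [← h5, ha₁]
        · exact ha₂
    have h6 := hval 1
    rw [map_one] at h6
    rw [h6, ip]
    congr 1
    · symm
      refine Fintype.sum_bijective φ hφ _ _ fun a => ?_
      rw [one_mul]
      change θ₁ (i' a) * θ₂ a⁻¹ = E₁ (e₁ (i' a)) * E₂ (e₂ a)⁻¹
      rw [H₁.Ee, ← map_inv, H₂.Ee]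
    · exact congrArg _ (Nat.card_eq_of_bijective φ hφ).symm
  · -- the action of the kernels
    intro u w hu₁ hu₂
    obtain ⟨z₁, hz₁, hz₁'⟩ := lift H₁ hp₁ _ hu₁
    obtain ⟨z₂, hz₂, hz₂'⟩ := lift H₂ hp₂ _ hu₂
    obtain ⟨g, rfl⟩ := hfs w
    have hz : ((z₁, z₂) : Γ₁ × Γ₂) ∈ fpr r₁ (i.comp r₂) := by
      change r₁ z₁ = i (r₂ z₂)
      rw [hz₁', hz₂', map_one]
    have hfz : f ⟨_, hz⟩ = u := by
      apply Subtype.ext
      apply Prod.ext
      · exact hz₁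
      · exact hz₂
    have h7 : Ξ (u * f g) = Ξ (f (⟨_, hz⟩ * g)) := by
      rw [map_mul, hfz]
    rw [h7, hval, hval, ← mul_div_assoc, ← mul_div_assoc]
    congr 1
    rw [Finset.mul_sum, Finset.mul_sum]
    refine Finset.sum_congr rfl fun k _ => ?_
    set x : ↥(fpr r₁ (i.comp r₂)) := g * k with hx
    have h8 : (⟨_, hz⟩ : ↥(fpr r₁ (i.comp r₂))) * g * k = ⟨_, hz⟩ * x := by
      rw [hx, mul_assoc]
    rw [h8]
    change ((μ₁ ⟨_, hu₁⟩ : ℂˣ) : ℂ) * (E₁ (z₁ * (x : Γ₁ × Γ₂).1) *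
      E₂ (z₂ * (x : Γ₁ × Γ₂).2)⁻¹) = ((μ₂ ⟨_, hu₂⟩ : ℂˣ) : ℂ) * (E₁ (x : Γ₁ × Γ₂).1 *
      E₂ ((x : Γ₁ × Γ₂).2)⁻¹)
    -- the first factor
    have h9 : ((μ₁ ⟨_, hu₁⟩ : ℂˣ) : ℂ) * E₁ (z₁ * (x : Γ₁ × Γ₂).1) = E₁ (x : Γ₁ × Γ₂).1 := by
      have hq : q₁ z₁ ∈ U₁ := by
        rw [hz₁]
        exact hu₁
      have h10 := H₁.El z₁ (x : Γ₁ × Γ₂).1 hq hz₁'
      have h11 : (⟨q₁ z₁, hq⟩ : U₁) = ⟨_, hu₁⟩ := Subtype.ext hz₁
      rw [h11] at h10
      exact h10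
    -- the second factor
    have h12 : E₂ (z₂ * (x : Γ₁ × Γ₂).2)⁻¹ =
        ((μ₂ ⟨_, hu₂⟩ : ℂˣ) : ℂ) * E₂ ((x : Γ₁ × Γ₂).2)⁻¹ := by
      have hr : r₂ z₂⁻¹ = 1 := by
        rw [map_inv, hz₂', inv_one]
      have hq : q₂ z₂⁻¹ ∈ U₂ := by
        rw [map_inv, hz₂]
        exact inv_mem hu₂
      have h10 := H₂.El z₂⁻¹ ((x : Γ₁ × Γ₂).2)⁻¹ hq hr
      have h11 : (⟨q₂ z₂⁻¹, hq⟩ : U₂) = (⟨_, hu₂⟩ : U₂)⁻¹ := by
        apply Subtype.ext
        change q₂ z₂⁻¹ = _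
        rw [map_inv, hz₂]
        rfl
      rw [h11, map_inv] at h10
      rw [mul_inv_rev, ← H₂.rc _ _ hr, ← h10, ← mul_assoc, ← Units.val_mul, mul_inv_cancel,
        Units.val_one, one_mul]
    rw [h12, ← mul_assoc, h9]
    ring

end Pool.Agent.DPT


end

section

/-!
# Theorem X: the norm of a character on the elements whose powers contain the subgroup of
order `ℓ`
-/

set_option linter.unusedSectionVars false

namespace Pool.Agent.DPX

open Pool.Agent.DP Pool.Agent.DPV Pool.Agent.DPB Pool.Agent.DPW Pool.Agent.Lib_helper13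
open Representation

namespace NRMX

/-! ### Values at inverse elements -/

section Conj

variable {H : Type} [Group H] [Fintype H]

open scoped Matrix ComplexOrder in
theorem char_inv {χ : H → ℂ} (hχ : IsChr χ) (g : H) : χ g⁻¹ = starRingEnd ℂ (χ g) := by
  classical
  obtain ⟨n, ρ, rfl⟩ := hχ
  let M : H → Matrix (Fin n) (Fin n) ℂ := fun h => LinearMap.toMatrix' (ρ h)
  have hM1 : M 1 = 1 := by
    simp only [M, map_one]
    exact LinearMap.toMatrix'_one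
  have hMm : ∀ a b, M (a * b) = M a * M b := by
    intro a b
    simp only [M, map_mul]
    exact LinearMap.toMatrix'_mul _ _
  have htr : ∀ h, ρ.character h = (M h).trace := by
    intro h
    change LinearMap.trace ℂ _ (ρ h) = _
    rw [LinearMap.trace_eq_matrix_trace ℂ (Pi.basisFun ℂ (Fin n)),
      LinearMap.toMatrix_eq_toMatrix']
  obtain ⟨A, hAd⟩ : ∃ A : Matrix (Fin n) (Fin n) ℂ, A = ∑ h, (M h)ᴴ * M h := ⟨_, rfl⟩
  have hA : ∀ a, (M a)ᴴ * A * M a = A := by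
    intro a
    rw [hAd, Finset.mul_sum, Finset.sum_mul]
    rw [← Equiv.sum_comp (Equiv.mulRight a) (fun h => (M h)ᴴ * M h)]
    refine Finset.sum_congr rfl fun h _ => ?_
    simp only [Equiv.coe_mulRight]
    rw [hMm, Matrix.conjTranspose_mul]
    simp only [Matrix.mul_assoc]
  have hpd : A.PosDef := by
    rw [hAd, ← Finset.add_sum_erase _ _ (Finset.mem_univ (1 : H)), hM1,
      Matrix.conjTranspose_one, Matrix.one_mul]
    apply Matrix.PosDef.add_posSemidef Matrix.PosDef.one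
    exact Matrix.posSemidef_sum _ fun h _ => Matrix.posSemidef_conjTranspose_mul_self _
  have hdet : IsUnit A.det := (Matrix.isUnit_iff_isUnit_det A).mp hpd.isUnit
  have h1 : (M g)ᴴ * A = A * M g⁻¹ := by
    have h2 : M g * M g⁻¹ = 1 := by rw [← hMm, mul_inv_cancel, hM1]
    calc (M g)ᴴ * A = (M g)ᴴ * A * (M g * M g⁻¹) := by rw [h2, Matrix.mul_one]
      _ = (M g)ᴴ * A * M g * M g⁻¹ := by rw [Matrix.mul_assoc _ (M g)]
      _ = A * M g⁻¹ := by rw [hA]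
  rw [htr, htr, starRingEnd_apply, ← Matrix.trace_conjTranspose]
  calc (M g⁻¹).trace = (M g⁻¹ * (A⁻¹ * A)).trace := by
        rw [Matrix.nonsing_inv_mul A hdet, Matrix.mul_one]
    _ = (A * (M g⁻¹ * A⁻¹)).trace := by
        rw [← Matrix.mul_assoc, Matrix.trace_mul_comm]
    _ = ((M g)ᴴ * A * A⁻¹).trace := by rw [← Matrix.mul_assoc, ← h1]
    _ = ((M g)ᴴ).trace := by
        rw [Matrix.mul_assoc, Matrix.mul_nonsing_inv A hdet, Matrix.mul_one]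

theorem mul_inv_eq {χ : H → ℂ} (hχ : IsChr χ) (g : H) :
    χ g * χ g⁻¹ = ((Complex.normSq (χ g) : ℝ) : ℂ) := by
  rw [char_inv hχ, Complex.mul_conj]

end Conj

/-! ### Orthogonality on the regular elements -/

section Reg

variable {C : Type} [Group C] [Fintype C]

open Classical in
theorem reg_orth {ℓ n : ℕ} (S : Finset (C → ℂ)) {φ' : C → ℂ} (hφ' : IsIrr φ')
    (hS : ∀ χ ∈ S, IsIrr χ ∧ χ 1 = φ' 1 ∧ ∀ g, ¬ ℓ ∣ orderOf g → χ g = φ' g)
    (hc : S.card = ℓ ^ n) (ho : ∀ g, ℓ ∣ orderOf g → ∑ χ ∈ S, χ 1 * χ g = 0)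
    {φ : C → ℂ} (hφ : IsIrr φ) :
    (ℓ : ℂ) ^ n * ∑ c with ¬ ℓ ∣ orderOf c, φ c * φ' c⁻¹ =
      if φ ∈ S then (Nat.card C : ℂ) else 0 := by
  have h1 : ∑ c, φ c * ∑ χ ∈ S, χ 1 * χ c⁻¹ =
      if φ ∈ S then φ' 1 * (Nat.card C : ℂ) else 0 := by
    have h2 : ∑ c, φ c * ∑ χ ∈ S, χ 1 * χ c⁻¹ = ∑ χ ∈ S, χ 1 * ∑ c, φ c * χ c⁻¹ := by
      simp only [Finset.mul_sum]
      rw [Finset.sum_comm]
      refine Finset.sum_congr rfl fun χ _ => Finset.sum_congr rfl fun c _ => ?_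
      ring
    rw [h2]
    by_cases h : φ ∈ S
    · rw [if_pos h, Finset.sum_eq_single φ]
      · rw [hφ.sum_self, (hS φ h).2.1]
      · intro χ hχ hne
        rw [hφ.sum_ne (hS χ hχ).1 (Ne.symm hne), mul_zero]
      · intro h'
        exact absurd h h'
    · rw [if_neg h]
      refine Finset.sum_eq_zero fun χ hχ => ?_
      rw [hφ.sum_ne (hS χ hχ).1 (fun h' => h (h' ▸ hχ)), mul_zero]
  have h3 : ∑ c, φ c * ∑ χ ∈ S, χ 1 * χ c⁻¹ =
      φ' 1 * ((ℓ : ℂ) ^ n * ∑ c with ¬ ℓ ∣ orderOf c, φ c * φ' c⁻¹) := by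
    rw [Finset.sum_filter, Finset.mul_sum, Finset.mul_sum]
    refine Finset.sum_congr rfl fun c _ => ?_
    by_cases h : ℓ ∣ orderOf c
    · rw [ho c⁻¹ (by rwa [orderOf_inv]), if_neg (not_not.mpr h), mul_zero, mul_zero, mul_zero]
    · rw [if_pos h, Finset.sum_congr rfl (fun χ hχ => by
        rw [(hS χ hχ).2.1, (hS χ hχ).2.2 c⁻¹ (by rwa [orderOf_inv])]),
        Finset.sum_const, hc, nsmul_eq_mul]
      push_cast
      ring
  rw [h3] at h1
  apply mul_left_cancel₀ hφ'.one_ne_zero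
  rw [h1]
  by_cases h : φ ∈ S
  · rw [if_pos h, if_pos h]
  · rw [if_neg h, if_neg h, mul_zero]

open Classical in
theorem norm_sum {ℓ n : ℕ} (I : Finset (C → ℂ)) (hI : ∀ φ ∈ I, IsIrr φ)
    (S : (C → ℂ) → Finset (C → ℂ))
    (hR : ∀ φ ∈ I, ∀ φ' ∈ I, (ℓ : ℂ) ^ n * ∑ c with ¬ ℓ ∣ orderOf c, φ c * φ' c⁻¹ =
      if φ ∈ S φ' then (Nat.card C : ℂ) else 0)
    (hSI : ∀ φ' ∈ I, S φ' ⊆ I) (X : C → Prop) (hX : ∀ c, X c → ℓ ∣ orderOf c)
    (h0 : ∀ c, ℓ ∣ orderOf c → ¬ X c → ∀ φ ∈ I, φ c = 0) (a : (C → ℂ) → ℂ) :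
    (ℓ : ℂ) ^ n * ∑ c with X c, (∑ φ ∈ I, a φ * φ c) * (∑ φ ∈ I, a φ * φ c⁻¹) =
      (Nat.card C : ℂ) * ((ℓ : ℂ) ^ n * ∑ φ ∈ I, a φ ^ 2 -
        ∑ φ' ∈ I, a φ' * ∑ φ ∈ S φ', a φ) := by
  have hall : ∑ c, (∑ φ ∈ I, a φ * φ c) * (∑ φ ∈ I, a φ * φ c⁻¹) =
      (Nat.card C : ℂ) * ∑ φ ∈ I, a φ ^ 2 := by
    have h1 : ∀ c : C, (∑ φ ∈ I, a φ * φ c) * (∑ φ ∈ I, a φ * φ c⁻¹) =
        ∑ φ ∈ I, ∑ φ' ∈ I, a φ * a φ' * (φ c * φ' c⁻¹) := by
      intro c
      rw [Finset.sum_mul_sum]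
      refine Finset.sum_congr rfl fun φ _ => Finset.sum_congr rfl fun φ' _ => ?_
      ring
    rw [Finset.sum_congr rfl fun c _ => h1 c, Finset.sum_comm, Finset.mul_sum]
    refine Finset.sum_congr rfl fun φ hφ => ?_
    rw [Finset.sum_comm, Finset.sum_eq_single φ]
    · rw [← Finset.mul_sum, (hI φ hφ).sum_self]
      ring
    · intro φ' hφ' hne
      rw [← Finset.mul_sum, (hI φ hφ).sum_ne (hI φ' hφ') (Ne.symm hne), mul_zero]
    · intro h
      exact absurd hφ h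
  have hsplit : ∑ c, (∑ φ ∈ I, a φ * φ c) * (∑ φ ∈ I, a φ * φ c⁻¹) =
      ∑ c with X c, (∑ φ ∈ I, a φ * φ c) * (∑ φ ∈ I, a φ * φ c⁻¹) +
      ∑ c with ¬ ℓ ∣ orderOf c, (∑ φ ∈ I, a φ * φ c) * (∑ φ ∈ I, a φ * φ c⁻¹) := by
    rw [Finset.sum_filter, Finset.sum_filter, ← Finset.sum_add_distrib]
    refine Finset.sum_congr rfl fun c _ => ?_
    by_cases h : ℓ ∣ orderOf c
    · rw [if_neg (not_not.mpr h), add_zero]
      by_cases hx : X c
      · rw [if_pos hx]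
      · rw [if_neg hx, Finset.sum_eq_zero (fun φ hφ => by rw [h0 c h hx φ hφ, mul_zero]),
          zero_mul]
    · rw [if_pos h, if_neg (fun hx => h (hX c hx)), zero_add]
  have hreg : (ℓ : ℂ) ^ n * ∑ c with ¬ ℓ ∣ orderOf c,
      (∑ φ ∈ I, a φ * φ c) * (∑ φ ∈ I, a φ * φ c⁻¹) =
      (Nat.card C : ℂ) * ∑ φ' ∈ I, a φ' * ∑ φ ∈ S φ', a φ := by
    have h1 : ∑ c with ¬ ℓ ∣ orderOf c,
        (∑ φ ∈ I, a φ * φ c) * (∑ φ ∈ I, a φ * φ c⁻¹) =
        ∑ φ' ∈ I, ∑ φ ∈ I, a φ * a φ' * ∑ c with ¬ ℓ ∣ orderOf c, φ c * φ' c⁻¹ := by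
      calc ∑ c with ¬ ℓ ∣ orderOf c, (∑ φ ∈ I, a φ * φ c) * (∑ φ ∈ I, a φ * φ c⁻¹)
          = ∑ c with ¬ ℓ ∣ orderOf c, ∑ φ' ∈ I, ∑ φ ∈ I,
              a φ * a φ' * (φ c * φ' c⁻¹) := by
            refine Finset.sum_congr rfl fun c _ => ?_
            rw [Finset.sum_mul_sum, Finset.sum_comm]
            refine Finset.sum_congr rfl fun φ' _ => Finset.sum_congr rfl fun φ _ => ?_
            ring
        _ = ∑ φ' ∈ I, ∑ c with ¬ ℓ ∣ orderOf c, ∑ φ ∈ I,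
              a φ * a φ' * (φ c * φ' c⁻¹) := Finset.sum_comm
        _ = ∑ φ' ∈ I, ∑ φ ∈ I, ∑ c with ¬ ℓ ∣ orderOf c,
              a φ * a φ' * (φ c * φ' c⁻¹) :=
            Finset.sum_congr rfl fun φ' _ => Finset.sum_comm
        _ = _ := by
            refine Finset.sum_congr rfl fun φ' _ => Finset.sum_congr rfl fun φ _ => ?_
            rw [Finset.mul_sum]
    rw [h1, Finset.mul_sum, Finset.mul_sum]
    refine Finset.sum_congr rfl fun φ' hφ' => ?_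
    have h2 : ∀ φ ∈ I, (ℓ : ℂ) ^ n * (a φ * a φ' * ∑ c with ¬ ℓ ∣ orderOf c, φ c * φ' c⁻¹) =
        if φ ∈ S φ' then a φ * a φ' * (Nat.card C : ℂ) else 0 := by
      intro φ hφ
      have h3 := hR φ hφ φ' hφ'
      calc (ℓ : ℂ) ^ n * (a φ * a φ' * ∑ c with ¬ ℓ ∣ orderOf c, φ c * φ' c⁻¹)
          = a φ * a φ' * ((ℓ : ℂ) ^ n * ∑ c with ¬ ℓ ∣ orderOf c, φ c * φ' c⁻¹) := by ring
        _ = _ := by
          rw [h3]
          by_cases h : φ ∈ S φ'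
          · rw [if_pos h, if_pos h]
          · rw [if_neg h, if_neg h, mul_zero]
    rw [Finset.mul_sum, Finset.sum_congr rfl h2, Finset.sum_ite_mem,
      Finset.inter_eq_right.mpr (hSI φ' hφ'), Finset.mul_sum, Finset.mul_sum]
    refine Finset.sum_congr rfl fun φ _ => ?_
    ring
  have h4 := hall
  rw [hsplit] at h4
  calc (ℓ : ℂ) ^ n * ∑ c with X c, (∑ φ ∈ I, a φ * φ c) * (∑ φ ∈ I, a φ * φ c⁻¹)
      = (ℓ : ℂ) ^ n * ((Nat.card C : ℂ) * ∑ φ ∈ I, a φ ^ 2) -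
        (ℓ : ℂ) ^ n * ∑ c with ¬ ℓ ∣ orderOf c,
          (∑ φ ∈ I, a φ * φ c) * (∑ φ ∈ I, a φ * φ c⁻¹) := by
        rw [← h4]
        ring
    _ = _ := by
        rw [hreg]
        ring

end Reg

/-! ### The elements whose powers contain the subgroup -/

section Count

/-- a cyclic group has at most one subgroup of a given order -/
theorem uniq {C : Type} [Group C] [Finite C] [IsCyclic C] {A B : Subgroup C}
    (h : Nat.card A = Nat.card B) : A = B := by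
  classical
  have : Fintype C := Fintype.ofFinite C
  set n := Nat.card A with hn
  have hn0 : 0 < n := Nat.card_pos
  set S : Set C := {a : C | a ^ n = 1} with hS
  have hSn : S.ncard ≤ n := by
    have h1 := IsCyclic.card_pow_eq_one_le (α := C) hn0
    have h2 : S.ncard = (Finset.univ.filter fun a : C => a ^ n = 1).card := by
      rw [← Set.ncard_coe_finset]
      congr 1
      ext a
      simp [hS]
    rw [h2]
    exact h1
  have key : ∀ D : Subgroup C, Nat.card D = n → (D : Set C) = S := by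
    intro D hD
    apply Set.eq_of_subset_of_ncard_le _ _ (Set.toFinite S)
    · intro a ha
      have h1 : (⟨a, ha⟩ : D) ^ Nat.card D = 1 := pow_card_eq_one'
      rw [hD] at h1
      exact congrArg Subtype.val h1
    · have h1 : (D : Set C).ncard = n := by
        rw [← hD]
        rfl
      rw [h1]
      exact hSn
  exact SetLike.coe_injective ((key A hn.symm).trans (key B h.symm).symm)

variable {T : Type} [Group T]

theorem card_subgroupOf {A P : Subgroup T} (h : A ≤ P) : Nat.card (A.subgroupOf P) = Nat.card A :=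
  Nat.card_congr (Subgroup.subgroupOfEquivOfLe h).toEquiv

theorem uniq' [Finite T] {P A B : Subgroup T} (hP : IsCyclic P) (hA : A ≤ P) (hB : B ≤ P)
    (h : Nat.card A = Nat.card B) : A = B := by
  have h1 : A.subgroupOf P = B.subgroupOf P := by
    apply uniq
    rw [card_subgroupOf hA, card_subgroupOf hB, h]
  have h2 := Subgroup.subgroupOf_inj.1 h1
  rwa [inf_eq_left.2 hA, inf_eq_left.2 hB] at h2

/-- Two conjugates of an element whose powers contain `P₁` differ by the normalizer. -/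
theorem mem_norm [Finite T] {P₁ : Subgroup T} {g t t' : T}
    (h : P₁ ≤ Subgroup.zpowers (t * g * t⁻¹)) (h' : P₁ ≤ Subgroup.zpowers (t' * g * t'⁻¹)) :
    t' * t⁻¹ ∈ Subgroup.normalizer (P₁ : Set T) := by
  have hz : ∀ s : T, P₁ ≤ Subgroup.zpowers (s * g * s⁻¹) →
      P₁.map (MulAut.conj s⁻¹).toMonoidHom ≤ Subgroup.zpowers g := by
    intro s hs
    rintro _ ⟨x, hx, rfl⟩
    obtain ⟨k, hk⟩ := Subgroup.mem_zpowers_iff.mp (hs hx)
    rw [Subgroup.mem_zpowers_iff]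
    refine ⟨k, ?_⟩
    change g ^ k = s⁻¹ * x * s⁻¹⁻¹
    rw [← hk, conj_zpow]
    group
  have hcard : ∀ s : T, Nat.card (P₁.map (MulAut.conj s⁻¹).toMonoidHom) = Nat.card P₁ :=
    fun s => Nat.card_congr (P₁.equivMapOfInjective _ (MulAut.conj s⁻¹).injective).symm.toEquiv
  have hcyc : IsCyclic (Subgroup.zpowers g) := inferInstance
  have heq : P₁.map (MulAut.conj t⁻¹).toMonoidHom = P₁.map (MulAut.conj t'⁻¹).toMonoidHom :=
    uniq' hcyc (hz t h) (hz t' h') (by rw [hcard, hcard])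
  rw [Subgroup.mem_normalizer_iff]
  intro x
  have hmem : ∀ (s x : T), x ∈ P₁.map (MulAut.conj s⁻¹).toMonoidHom ↔ s * x * s⁻¹ ∈ P₁ := by
    intro s x
    constructor
    · rintro ⟨y, hy, rfl⟩
      change s * (s⁻¹ * y * s⁻¹⁻¹) * s⁻¹ ∈ P₁
      have : s * (s⁻¹ * y * s⁻¹⁻¹) * s⁻¹ = y := by group
      rw [this]
      exact hy
    · intro hx
      refine ⟨s * x * s⁻¹, hx, ?_⟩
      change s⁻¹ * (s * x * s⁻¹) * s⁻¹⁻¹ = x
      group
  have h1 := hmem t (t⁻¹ * x * t)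
  have h2 := hmem t' (t⁻¹ * x * t)
  have e1 : t * (t⁻¹ * x * t) * t⁻¹ = x := by group
  have e2 : t' * (t⁻¹ * x * t) * t'⁻¹ = t' * t⁻¹ * x * (t' * t⁻¹)⁻¹ := by group
  rw [e1] at h1
  rw [e2] at h2
  change x ∈ P₁ ↔ t' * t⁻¹ * x * (t' * t⁻¹)⁻¹ ∈ P₁
  rw [← h1, heq, h2]

open Classical in
theorem card_conj_le [Fintype T] {P₁ : Subgroup T} (g : T) :
    (Finset.univ.filter (fun t : T => P₁ ≤ Subgroup.zpowers (t * g * t⁻¹))).card ≤
      Nat.card (Subgroup.normalizer (P₁ : Set T)) := by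
  rcases (Finset.univ.filter
    (fun t : T => P₁ ≤ Subgroup.zpowers (t * g * t⁻¹))).eq_empty_or_nonempty with h | ⟨t₀, ht₀⟩
  · rw [h, Finset.card_empty]
    exact Nat.zero_le _
  · rw [Nat.card_eq_fintype_card, ← Finset.card_univ]
    refine Finset.card_le_card_of_injOn
      (fun t => if h : t * t₀⁻¹ ∈ Subgroup.normalizer (P₁ : Set T) then ⟨t * t₀⁻¹, h⟩ else 1)
      (fun _ _ => Finset.mem_coe.mpr (Finset.mem_univ _)) ?_
    intro t ht t' ht' heq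
    have h1 : t * t₀⁻¹ ∈ Subgroup.normalizer (P₁ : Set T) :=
      mem_norm (Finset.mem_filter.mp ht₀).2 (Finset.mem_filter.mp (Finset.mem_coe.mp ht)).2
    have h2 : t' * t₀⁻¹ ∈ Subgroup.normalizer (P₁ : Set T) :=
      mem_norm (Finset.mem_filter.mp ht₀).2 (Finset.mem_filter.mp (Finset.mem_coe.mp ht')).2
    simp only [dif_pos h1, dif_pos h2] at heq
    exact mul_right_cancel (congrArg Subtype.val heq)

open Classical in
theorem sum_le [Fintype T] {P₁ : Subgroup T} (hP : 1 < Nat.card P₁) (f : T → ℝ)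
    (hf : ∀ g, 0 ≤ f g) (hc : ∀ t g, f (t * g * t⁻¹) = f g) :
    (Nat.card T : ℝ) * ∑ g with P₁ ≤ Subgroup.zpowers g, f g ≤
      (Nat.card (Subgroup.normalizer (P₁ : Set T)) : ℝ) * (∑ g, f g - f 1) := by
  have h1 : ∀ t : T, ∑ g with P₁ ≤ Subgroup.zpowers g, f g =
      ∑ g, if P₁ ≤ Subgroup.zpowers (t * g * t⁻¹) then f g else 0 := by
    intro t
    rw [Finset.sum_filter, ← Equiv.sum_comp (MulAut.conj t).toEquiv]
    refine Finset.sum_congr rfl fun g _ => ?_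
    change (if P₁ ≤ Subgroup.zpowers (t * g * t⁻¹) then f (t * g * t⁻¹) else 0) = _
    rw [hc]
  have h2 : (Nat.card T : ℝ) * ∑ g with P₁ ≤ Subgroup.zpowers g, f g =
      ∑ g, f g * (Finset.univ.filter
        (fun t : T => P₁ ≤ Subgroup.zpowers (t * g * t⁻¹))).card := by
    calc (Nat.card T : ℝ) * ∑ g with P₁ ≤ Subgroup.zpowers g, f g
        = ∑ _t : T, ∑ g with P₁ ≤ Subgroup.zpowers g, f g := by
          rw [Finset.sum_const, Finset.card_univ, nsmul_eq_mul, Nat.card_eq_fintype_card]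
      _ = ∑ t : T, ∑ g, if P₁ ≤ Subgroup.zpowers (t * g * t⁻¹) then f g else 0 :=
          Finset.sum_congr rfl fun t _ => h1 t
      _ = ∑ g, ∑ t : T, if P₁ ≤ Subgroup.zpowers (t * g * t⁻¹) then f g else 0 :=
          Finset.sum_comm
      _ = _ := by
          refine Finset.sum_congr rfl fun g _ => ?_
          rw [← Finset.sum_filter, Finset.sum_const, nsmul_eq_mul, mul_comm]
  rw [h2]
  have h3 : (∑ g, f g - f 1) = ∑ g ∈ Finset.univ.erase 1, f g := by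
    rw [← Finset.add_sum_erase _ _ (Finset.mem_univ (1 : T))]
    ring
  rw [h3, Finset.mul_sum, ← Finset.add_sum_erase _ _ (Finset.mem_univ (1 : T))]
  have h4 : (Finset.univ.filter
      (fun t : T => P₁ ≤ Subgroup.zpowers (t * 1 * t⁻¹))).card = 0 := by
    rw [Finset.card_eq_zero, Finset.filter_eq_empty_iff]
    intro t _ h
    rw [mul_one, mul_inv_cancel, Subgroup.zpowers_one_eq_bot, le_bot_iff] at h
    rw [h, Subgroup.card_bot] at hP
    exact lt_irrefl 1 hP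
  rw [h4, Nat.cast_zero, mul_zero, zero_add]
  refine Finset.sum_le_sum fun g _ => ?_
  rw [mul_comm]
  exact mul_le_mul_of_nonneg_right (by exact_mod_cast card_conj_le g) (hf g)

end Count

/-! ### Sums over the conjugates of a block -/

section Orbit

variable {N : Type} [Group N] [Fintype N] {C : Subgroup N} [C.Normal]

/-- The conjugate function. -/
def cj (g : N) (φ : C → ℂ) : C → ℂ := fun c => φ (MulAut.conjNormal g c)

theorem cj_mul (g h : N) (φ : C → ℂ) : cj (g * h) φ = cj h (cj g φ) := by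
  funext c
  simp only [cj, map_mul, MulAut.mul_apply]

theorem cj_one (φ : C → ℂ) : cj (1 : N) φ = φ := by
  funext c
  simp only [cj, map_one, MulAut.one_apply]

theorem cj_inv (g : N) (φ : C → ℂ) : cj g⁻¹ (cj g φ) = φ := by
  rw [← cj_mul, mul_inv_cancel, cj_one]

theorem cj_inv' (g : N) (φ : C → ℂ) : cj g (cj g⁻¹ φ) = φ := by
  rw [← cj_mul, inv_mul_cancel, cj_one]

theorem irr_cj {φ : C → ℂ} (h : IsIrr φ) (g : N) : IsIrr (cj g φ) :=
  h.comp_mulEquiv (MulAut.conjNormal g)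

theorem irr_cj_iff {φ : C → ℂ} (g : N) : IsIrr (cj g φ) ↔ IsIrr φ := by
  constructor
  · intro h
    have h1 := irr_cj h g⁻¹
    rwa [cj_inv] at h1
  · intro h
    exact irr_cj h g

variable (𝔐 : Ideal (integralClosure ℤ ℂ))

theorem cen_cj (φ : C → ℂ) (g : N) (x : C) :
    cen 𝔐 (MonoidHom.id C) (cj g φ) x = cen 𝔐 (MonoidHom.id C) φ (MulAut.conjNormal g x) := by
  have h1 := congrFun (cen_comp_equiv 𝔐 (MulAut.conjNormal g : C ≃* C)
    (MonoidHom.id C) φ) (MulAut.conjNormal g x)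
  rw [← h1]
  rw [cen, cen]
  congr 2
  funext y
  change conjInd y x = conjInd (MulAut.conjNormal g y) (MulAut.conjNormal g x)
  apply conjInd_congr
  constructor
  · intro h
    exact (MulAut.conjNormal g : C ≃* C).toMonoidHom.map_isConj h
  · intro h
    have h2 := (MulAut.conjNormal g : C ≃* C).symm.toMonoidHom.map_isConj h
    simpa using h2

open Classical in
theorem card_blk (φ₀ φ : C → ℂ) :
    (Finset.univ.filter (fun g : N => cen 𝔐 (MonoidHom.id C) (cj g φ) =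
      cen 𝔐 (MonoidHom.id C) φ₀)).card =
    if ∃ g : N, cen 𝔐 (MonoidHom.id C) (cj g φ) = cen 𝔐 (MonoidHom.id C) φ₀ then
      Nat.card (bS 𝔐 C φ₀) else 0 := by
  by_cases h : ∃ g : N, cen 𝔐 (MonoidHom.id C) (cj g φ) = cen 𝔐 (MonoidHom.id C) φ₀
  · rw [if_pos h]
    obtain ⟨g₀, hg₀⟩ := h
    have key : ∀ b : N, cen 𝔐 (MonoidHom.id C) (cj (g₀ * b) φ) =
        cen 𝔐 (MonoidHom.id C) φ₀ ↔ b ∈ bS 𝔐 C φ₀ := by
      intro b
      have h1 : ∀ x, cen 𝔐 (MonoidHom.id C) (cj (g₀ * b) φ) x =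
          cen 𝔐 (MonoidHom.id C) φ₀ (MulAut.conjNormal b x) := by
        intro x
        rw [cj_mul, cen_cj, hg₀]
      constructor
      · intro h2 x
        rw [← h1, h2]
      · intro h2
        funext x
        rw [h1]
        exact h2 x
    rw [Nat.card_eq_fintype_card, ← Finset.card_univ]
    symm
    refine Finset.card_bij (fun b _ => g₀ * (b : N)) ?_ ?_ ?_
    · intro b _
      exact Finset.mem_filter.mpr ⟨Finset.mem_univ _, (key b).mpr b.2⟩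
    · intro b _ b' _ hb
      exact Subtype.ext (mul_left_cancel hb)
    · intro g hg
      have h2 := (Finset.mem_filter.mp hg).2
      have h3 : g = g₀ * (g₀⁻¹ * g) := by group
      rw [h3] at h2
      exact ⟨⟨g₀⁻¹ * g, (key _).mp h2⟩, Finset.mem_univ _, by group⟩
  · rw [if_neg h, Finset.card_eq_zero, Finset.filter_eq_empty_iff]
    intro g _ hg
    exact h ⟨g, hg⟩

open Classical in
theorem orbit_sum (φ₀ : C → ℂ) (f : (C → ℂ) → ℂ)
    (hf : ∀ (g : N) φ, IsIrr φ → f (cj g φ) = f φ) :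
    (Nat.card (bS 𝔐 C φ₀) : ℂ) * ∑ φ ∈ irrF C with (∃ g : N,
      cen 𝔐 (MonoidHom.id C) (cj g φ) = cen 𝔐 (MonoidHom.id C) φ₀), f φ =
    (Nat.card N : ℂ) * ∑ φ ∈ irrF C with cen 𝔐 (MonoidHom.id C) φ =
      cen 𝔐 (MonoidHom.id C) φ₀, f φ := by
  have h1 : ∀ g : N, ∑ φ ∈ irrF C with cen 𝔐 (MonoidHom.id C) φ =
      cen 𝔐 (MonoidHom.id C) φ₀, f φ =
      ∑ φ ∈ irrF C, if cen 𝔐 (MonoidHom.id C) (cj g φ) = cen 𝔐 (MonoidHom.id C) φ₀
        then f φ else 0 := by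
    intro g
    rw [← Finset.sum_filter]
    symm
    refine Finset.sum_nbij' (fun φ => cj g φ) (fun φ => cj g⁻¹ φ) ?_ ?_ ?_ ?_ ?_
    · intro φ hφ
      rw [Finset.mem_filter] at hφ ⊢
      exact ⟨mem_irrF.mpr (irr_cj (mem_irrF.mp hφ.1) g), hφ.2⟩
    · intro φ hφ
      rw [Finset.mem_filter] at hφ ⊢
      refine ⟨mem_irrF.mpr (irr_cj (mem_irrF.mp hφ.1) g⁻¹), ?_⟩
      rw [cj_inv']
      exact hφ.2
    · intro φ _
      exact cj_inv g φ
    · intro φ _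
      exact cj_inv' g φ
    · intro φ hφ
      exact (hf g φ (mem_irrF.mp (Finset.mem_filter.mp hφ).1)).symm
  calc (Nat.card (bS 𝔐 C φ₀) : ℂ) * ∑ φ ∈ irrF C with (∃ g : N,
        cen 𝔐 (MonoidHom.id C) (cj g φ) = cen 𝔐 (MonoidHom.id C) φ₀), f φ
      = ∑ φ ∈ irrF C, ∑ g : N, if cen 𝔐 (MonoidHom.id C) (cj g φ) =
          cen 𝔐 (MonoidHom.id C) φ₀ then f φ else 0 := by
        rw [Finset.sum_filter, Finset.mul_sum]
        refine Finset.sum_congr rfl fun φ _ => ?_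
        rw [← Finset.sum_filter, Finset.sum_const, card_blk, nsmul_eq_mul]
        by_cases h : ∃ g : N, cen 𝔐 (MonoidHom.id C) (cj g φ) =
            cen 𝔐 (MonoidHom.id C) φ₀
        · rw [if_pos h, if_pos h]
        · rw [if_neg h, if_neg h, Nat.cast_zero, zero_mul, mul_zero]
    _ = ∑ g : N, ∑ φ ∈ irrF C, if cen 𝔐 (MonoidHom.id C) (cj g φ) =
          cen 𝔐 (MonoidHom.id C) φ₀ then f φ else 0 := Finset.sum_comm
    _ = ∑ _g : N, ∑ φ ∈ irrF C with cen 𝔐 (MonoidHom.id C) φ =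
          cen 𝔐 (MonoidHom.id C) φ₀, f φ := Finset.sum_congr rfl fun g _ => (h1 g).symm
    _ = _ := by
        rw [Finset.sum_const, Finset.card_univ, nsmul_eq_mul, Nat.card_eq_fintype_card]

/-- There is an irreducible character over `φ`. -/
theorem exists_over {φ : C → ℂ} (hφ : IsIrr φ) :
    ∃ ψ : N → ℂ, IsIrr ψ ∧ ip (fun c : C => ψ c) φ ≠ 0 := by
  classical
  by_contra hno
  push Not at hno
  have h1 := column_orth (Y := N)
  have h2 : ip (fun c : C => ∑ ψ ∈ irrF N, ψ 1 * ψ c) φ = 0 := by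
    rw [ip_sum (irrF N) (fun ψ => ψ 1) (fun ψ (c : C) => ψ c) φ]
    refine Finset.sum_eq_zero fun ψ hψ => ?_
    rw [hno ψ (mem_irrF.mp hψ), mul_zero]
  have h3 : (fun c : C => ∑ ψ ∈ irrF N, ψ 1 * ψ c) =
      fun c : C => if c = 1 then (Nat.card N : ℂ) else 0 := by
    funext c
    have h4 := h1 (c : N) 1
    rw [inv_one] at h4
    rw [Finset.sum_congr rfl fun ψ _ => mul_comm (ψ 1) (ψ c), h4]
    by_cases hc : c = 1
    · rw [if_pos hc, hc]
      have h5 : (Finset.univ.filter (fun z : N => z * 1 * z⁻¹ = ((1 : C) : N))) =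
          Finset.univ := by
        rw [Finset.filter_eq_self]
        intro z _
        simp
      rw [h5, Finset.card_univ, Nat.card_eq_fintype_card]
    · rw [if_neg hc]
      have h5 : (Finset.univ.filter (fun z : N => z * 1 * z⁻¹ = (c : N))) = ∅ := by
        rw [Finset.filter_eq_empty_iff]
        intro z _ hz
        apply hc
        apply Subtype.ext
        rw [← hz]
        simp
      rw [h5, Finset.card_empty, Nat.cast_zero]
  rw [h3, ip, Finset.sum_eq_single (1 : C)] at h2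
  · rw [if_pos rfl, inv_one, div_eq_zero_iff] at h2
    rcases h2 with h2 | h2
    · rcases mul_eq_zero.mp h2 with h2 | h2
      · exact natCard_ne_zero h2
      · exact hφ.one_ne_zero h2
    · exact natCard_ne_zero h2
  · intro b _ hb
    rw [if_neg hb, zero_mul]
  · intro h
    exact absurd (Finset.mem_univ _) h

end Orbit

end NRMX

open Classical _root_.Pool.Agent.DPX.NRMX in
theorem NRMX_thm (h1 : Stmt_MT2X) (h2 : Stmt_ATNX) (h3 : Stmt_ATCX) (h4 : Stmt_ORBX)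
    (h5 : Stmt_REGX) (h6 : Stmt_OSIX) (h7 : Stmt_FRXX) (h8 : Stmt_NILO) : Stmt_NRMX := by
  intro T _ _ 𝔐 ℓ n hp h𝔐 hℓ χ hχ P₁ P _ x₀ hA C _ hC ψ₀ φ₀ hψ₀ hφ₀ hcen hip
  have hx₀ : x₀ ∈ Subgroup.normalizer (P₁ : Set T) := by
    rw [Subgroup.mem_normalizer_iff]
    intro u
    constructor
    · intro hu
      have e := hA.cd.cen u (hA.cd.le hu)
      have e' : x₀ * u * x₀⁻¹ = u := by rw [← e]; group
      change x₀ * u * x₀⁻¹ ∈ P₁
      rw [e']
      exact hu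
    · intro hu
      have hu' : x₀ * u * x₀⁻¹ ∈ P₁ := hu
      have e := hA.cd.cen _ (hA.cd.le hu')
      have e' : x₀ * u * x₀⁻¹ = u := by
        have e2 : x₀⁻¹ * (x₀ * u * x₀⁻¹ * x₀) = x₀⁻¹ * (x₀ * (x₀ * u * x₀⁻¹)) := by rw [e]
        have e3 : x₀⁻¹ * (x₀ * u * x₀⁻¹ * x₀) = u := by group
        have e4 : x₀⁻¹ * (x₀ * (x₀ * u * x₀⁻¹)) = x₀ * u * x₀⁻¹ := by group
        rw [e3, e4] at e2
        exact e2.symm
      rw [← e']
      exact hu'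
  have hPN : (P₁.subgroupOf (Subgroup.normalizer (P₁ : Set T))).Normal := inferInstance
  have hP1 : Nat.card P₁ = ℓ := hA.cd.c1
  have hPle : P₁ ≤ Subgroup.normalizer (P₁ : Set T) := Subgroup.le_normalizer
  have hPNc : Nat.card (P₁.subgroupOf (Subgroup.normalizer (P₁ : Set T))) = ℓ := by
    rw [card_subgroupOf hPle, hP1]
  -- the group of order `ℓ` is commutative
  have hab : ∀ u ∈ P₁, ∀ v ∈ P₁, u * v = v * u := by
    have hcyc : IsCyclic P₁ := isCyclic_of_prime_card hP1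
    intro u hu v hv
    have hcomm := hcyc.isMulCommutative.is_comm.comm (⟨u, hu⟩ : P₁) ⟨v, hv⟩
    exact congrArg Subtype.val hcomm
  have hmemC : ∀ g : NP P₁, g ∈ C ↔ ∀ u ∈ P₁, u * (g : T) = g * u := by
    intro g
    rw [hC, Subgroup.mem_centralizer_iff]
    constructor
    · intro h u hu
      have h9 := h ⟨u, hPle hu⟩ (by
        rw [SetLike.mem_coe, Subgroup.mem_subgroupOf]
        exact hu)
      exact congrArg Subtype.val h9
    · intro h v hv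
      rw [SetLike.mem_coe, Subgroup.mem_subgroupOf] at hv
      exact Subtype.ext (h v hv)
  have hcenter : (P₁.subgroupOf (Subgroup.normalizer (P₁ : Set T))).subgroupOf C ≤
      Subgroup.center C := by
    intro x hx
    rw [Subgroup.mem_center_iff]
    intro c
    rw [Subgroup.mem_subgroupOf, Subgroup.mem_subgroupOf] at hx
    apply Subtype.ext
    apply Subtype.ext
    exact ((hmemC c).mp c.2 _ hx).symm
  -- the blocks
  have hirrχ : IsChr χ := hχ.isChr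
  let χN : NP P₁ → ℂ := fun s => χ s
  let χC : C → ℂ := fun c => χ ((c : NP P₁) : T)
  have hχN : IsChr χN := hirrχ.comp (Subgroup.normalizer (P₁ : Set T)).subtype
  have hχC : IsChr χC := hχN.comp C.subtype
  let J : Finset (C → ℂ) := (irrF C).filter (fun φ => ∃ g : NP P₁,
    cen 𝔐 (MonoidHom.id C) (cj g φ) = cen 𝔐 (MonoidHom.id C) φ₀)
  obtain ⟨hAN₀, hN₀⟩ := h2 T 𝔐 ℓ n h𝔐 hℓ χ hχ P₁ P x₀ hA hx₀ ψ₀ hψ₀ hcen
  obtain ⟨hor, -⟩ := h4 (NP P₁) 𝔐 ℓ h𝔐 hℓ _ hPNc C hC ψ₀ hψ₀ φ₀ hφ₀ hip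
  have hblk : ∀ (ψ : NP P₁ → ℂ) (φ : C → ℂ), IsIrr ψ → IsIrr φ →
      ip (fun c : C => ψ c) φ ≠ 0 →
      (cen 𝔐 (Subgroup.normalizer (P₁ : Set T)).subtype ψ = cen 𝔐 (MonoidHom.id T) χ ↔
        φ ∈ J) := by
    intro ψ φ hψ hφ hi
    rw [← hN₀ ψ hψ, hor ψ φ hψ hφ hi, Finset.mem_filter, mem_irrF]
    exact ⟨fun h => ⟨hφ, h⟩, fun h => h.2⟩
  have hAt : ∀ φ ∈ J, ∃ (P' : Subgroup C) (x' : C),
      AtX ℓ n (cen 𝔐 (MonoidHom.id C) φ)
        ((P₁.subgroupOf (Subgroup.normalizer (P₁ : Set T))).subgroupOf C) P' x' := by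
    intro φ hφ
    have hφi : IsIrr φ := mem_irrF.mp (Finset.mem_filter.mp hφ).1
    obtain ⟨ψ, hψ, hi⟩ := exists_over (N := NP P₁) hφi
    have hc := (hblk ψ φ hψ hφi hi).mpr hφ
    obtain ⟨hAψ, -⟩ := h2 T 𝔐 ℓ n h𝔐 hℓ χ hχ P₁ P x₀ hA hx₀ ψ hψ hc
    obtain ⟨P', x', g, -, -, h⟩ := h3 (NP P₁) 𝔐 ℓ n h𝔐 hℓ _ _ _ ψ hψ hAψ C hC φ hφi hi
    exact ⟨P', x', h⟩
  have hInt : ∀ φ, IsIrr φ → ∃ m : ℕ, ip χC φ = m := fun φ hφ => hχC.exists_ip hφ.isChr
  have hcjip : ∀ (g : NP P₁) (φ : C → ℂ), ip χC (cj g φ) = ip χC φ := by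
    intro g φ
    rw [ip, ip]
    congr 1
    refine Fintype.sum_equiv (MulAut.conjNormal g : C ≃* C).toEquiv _ _ fun c => ?_
    have e1 : χC (MulAut.conjNormal g c) = χC c := by
      change χ ((g : T) * ((c : NP P₁) : T) * (g : T)⁻¹) = χ ((c : NP P₁) : T)
      exact hirrχ.conj_eq _ _
    change χC c * φ (MulAut.conjNormal g c⁻¹) =
      χC (MulAut.conjNormal g c) * φ (MulAut.conjNormal g c)⁻¹
    rw [e1, map_inv]
  let a : (C → ℂ) → ℤ := fun φ => if IsIrr φ then ⌊(ip χC φ).re⌋ else 0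
  have ha : ∀ φ, IsIrr φ → (a φ : ℂ) = ip χC φ := by
    intro φ hφ
    obtain ⟨m, hm⟩ := hInt φ hφ
    simp only [a, if_pos hφ, hm, Complex.natCast_re, Int.floor_natCast, Int.cast_natCast]
  have hacj : ∀ (g : NP P₁) (φ : C → ℂ), a (cj g φ) = a φ := by
    intro g φ
    simp only [a, irr_cj_iff, hcjip]
  -- the function on the elements whose powers contain the subgroup
  let X : C → Prop := fun c => P₁ ≤ Subgroup.zpowers ((c : NP P₁) : T)
  have hval : ∀ c : C, X c → χC c = ∑ φ ∈ J, (a φ : ℂ) * φ c := by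
    intro c hc
    have hm := (h1 T 𝔐 ℓ n h𝔐 hℓ χ hχ P₁ P x₀ hA).1 (c : NP P₁) hc
    let θ : C → ℂ := fun c => ∑ ψ ∈ irrF (NP P₁) with
      cen 𝔐 (Subgroup.normalizer (P₁ : Set T)).subtype ψ = cen 𝔐 (MonoidHom.id T) χ,
        ip χN ψ * ψ c
    have hθ : ∀ g x, θ (g * x * g⁻¹) = θ x := by
      intro g x
      refine Finset.sum_congr rfl fun ψ hψ => ?_
      have e := (mem_irrF.mp (Finset.mem_filter.mp hψ).1).conj_eq (g : NP P₁) (x : NP P₁)
      change ip χN ψ * ψ ((g : NP P₁) * (x : NP P₁) * (g : NP P₁)⁻¹) = ip χN ψ * ψ x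
      rw [e]
    have hipθ : ∀ φ ∈ irrF C, ip θ φ = if φ ∈ J then (a φ : ℂ) else 0 := by
      intro φ hφ
      have hφi := mem_irrF.mp hφ
      have e1 : ip θ φ = ∑ ψ ∈ irrF (NP P₁) with
          cen 𝔐 (Subgroup.normalizer (P₁ : Set T)).subtype ψ = cen 𝔐 (MonoidHom.id T) χ,
          ip χN ψ * ip (fun c : C => ψ c) φ :=
        ip_sum _ (fun ψ => ip χN ψ) (fun ψ (c : C) => ψ c) φ
      have e2 : ip χC φ = ∑ ψ ∈ irrF (NP P₁), ip χN ψ * ip (fun c : C => ψ c) φ := by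
        have e3 := class_fn_expand χN (fun g x => hχN.conj_eq g x)
        have e4 : χC = fun c : C => ∑ ψ ∈ irrF (NP P₁), ip χN ψ * ψ c := by
          funext c
          exact congrFun e3 (c : NP P₁)
        rw [e4]
        exact ip_sum _ (fun ψ => ip χN ψ) (fun ψ (c : C) => ψ c) φ
      by_cases hJ : φ ∈ J
      · rw [if_pos hJ, ha φ hφi, e1, e2, Finset.sum_filter]
        refine Finset.sum_congr rfl fun ψ hψ => ?_
        by_cases hi : ip (fun c : C => ψ c) φ = 0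
        · rw [hi, mul_zero, ite_self]
        · rw [if_pos ((hblk ψ φ (mem_irrF.mp hψ) hφi hi).mpr hJ)]
      · rw [if_neg hJ, e1]
        refine Finset.sum_eq_zero fun ψ hψ => ?_
        rw [Finset.mem_filter] at hψ
        by_cases hi : ip (fun c : C => ψ c) φ = 0
        · rw [hi, mul_zero]
        · exact absurd ((hblk ψ φ (mem_irrF.mp hψ.1) hφi hi).mp hψ.2) hJ
    have h9 : θ c = ∑ φ ∈ J, (a φ : ℂ) * φ c := by
      have h10 := congrFun (class_fn_expand θ hθ) c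
      rw [h10, Finset.sum_congr rfl fun φ hφ => by rw [hipθ φ hφ]]
      simp only [ite_mul, zero_mul]
      rw [Finset.sum_ite_mem, Finset.inter_eq_right.mpr (Finset.filter_subset _ _)]
    rw [← h9]
    exact hm
  let S : (C → ℂ) → Finset (C → ℂ) := fun φ' => (irrF C).filter (fun φ =>
    cen 𝔐 (MonoidHom.id C) φ = cen 𝔐 (MonoidHom.id C) φ')
  have hJi : ∀ φ ∈ J, IsIrr φ := fun φ hφ => mem_irrF.mp (Finset.mem_filter.mp hφ).1
  have hXinv : ∀ c : C, X c → X c⁻¹ := by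
    intro c hc
    change P₁ ≤ Subgroup.zpowers (((c⁻¹ : C) : NP P₁) : T)
    have e : (((c⁻¹ : C) : NP P₁) : T) = ((c : NP P₁) : T)⁻¹ := rfl
    rw [e, Subgroup.zpowers_inv]
    exact hc
  have hord : ∀ c : C, orderOf c = orderOf ((c : NP P₁) : T) := by
    intro c
    rw [Subgroup.orderOf_coe, Subgroup.orderOf_coe]
  have hXl : ∀ c : C, X c → ℓ ∣ orderOf c := by
    intro c hc
    rw [hord, ← hP1, ← Nat.card_zpowers]
    exact Subgroup.card_dvd_of_le hc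
  have hX0 : ∀ c : C, ℓ ∣ orderOf c → ¬ X c → ∀ φ ∈ J, φ c = 0 := by
    intro c hc hx φ hφ
    obtain ⟨P', x', h⟩ := hAt φ hφ
    refine (h5 C 𝔐 ℓ n h𝔐 hℓ _ P' x' hcenter φ (hJi φ hφ) h).2.1 c hc ?_
    intro hle
    apply hx
    intro u hu
    have huC : (⟨u, hPle hu⟩ : NP P₁) ∈ C := (hmemC _).mpr (fun v hv => hab v hv u hu)
    have h9 : (⟨⟨u, hPle hu⟩, huC⟩ : C) ∈ Subgroup.zpowers c := by
      apply hle
      rw [Subgroup.mem_subgroupOf, Subgroup.mem_subgroupOf]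
      exact hu
    obtain ⟨k, hk⟩ := Subgroup.mem_zpowers_iff.mp h9
    rw [Subgroup.mem_zpowers_iff]
    exact ⟨k, congrArg (fun z : C => ((z : NP P₁) : T)) hk⟩
  have hScard : ∀ φ' ∈ J, (S φ').card = ℓ ^ n := by
    intro φ' hφ'
    obtain ⟨P', x', h⟩ := hAt φ' hφ'
    rw [← h8 C 𝔐 ℓ n h𝔐 hℓ _ P' x' hcenter φ' (hJi φ' hφ') h]
    symm
    apply Nat.subtype_card
    intro φ
    rw [Finset.mem_filter, mem_irrF]
  have hSJ : ∀ φ' ∈ J, S φ' ⊆ J := by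
    intro φ' hφ' φ hφ
    obtain ⟨hφ1, hφ2⟩ := Finset.mem_filter.mp hφ
    obtain ⟨-, g, hg⟩ := Finset.mem_filter.mp hφ'
    refine Finset.mem_filter.mpr ⟨hφ1, g, ?_⟩
    rw [← hg]
    funext x
    rw [cen_cj, cen_cj, hφ2]
  have hR : ∀ φ ∈ J, ∀ φ' ∈ J, (ℓ : ℂ) ^ n * ∑ c with ¬ ℓ ∣ orderOf c, φ c * φ' c⁻¹ =
      if φ ∈ S φ' then (Nat.card C : ℂ) else 0 := by
    intro φ hφ φ' hφ'
    obtain ⟨P', x', h⟩ := hAt φ' hφ'
    have hreg := (h5 C 𝔐 ℓ n h𝔐 hℓ _ P' x' hcenter φ' (hJi φ' hφ') h).1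
    refine reg_orth (S φ') (hJi φ' hφ') ?_ (hScard φ' hφ') ?_ (hJi φ hφ)
    · intro η hη
      obtain ⟨hη1, hη2⟩ := Finset.mem_filter.mp hη
      have h9 := hreg η (mem_irrF.mp hη1) hη2
      exact ⟨mem_irrF.mp hη1, h9.1, h9.2⟩
    · intro g hg
      exact h6 C 𝔐 ℓ h𝔐 hℓ φ' (hJi φ' hφ') g hg
  have hnorm := norm_sum J hJi S hR hSJ X hXl hX0 (fun φ => (a φ : ℂ))
  -- the sum over the group
  obtain ⟨Z, hZd⟩ : ∃ Z : ℝ, Z = ∑ g : T with P₁ ≤ Subgroup.zpowers g,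
    Complex.normSq (χ g) := ⟨_, rfl⟩
  have hXC : ∀ g : T, P₁ ≤ Subgroup.zpowers g → ∃ hg : g ∈ Subgroup.normalizer (P₁ : Set T),
      (⟨g, hg⟩ : NP P₁) ∈ C := by
    intro g hg
    have hcom : ∀ u ∈ P₁, u * g = g * u := by
      intro u hu
      obtain ⟨k, hk⟩ := Subgroup.mem_zpowers_iff.mp (hg hu)
      rw [← hk]
      exact (Commute.zpow_self g k)
    have hgn : g ∈ Subgroup.normalizer (P₁ : Set T) := by
      rw [Subgroup.mem_normalizer_iff]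
      intro u
      constructor
      · intro hu
        have e' : g * u * g⁻¹ = u := by rw [← hcom u hu]; group
        change g * u * g⁻¹ ∈ P₁
        rw [e']
        exact hu
      · intro hu
        have hu' : g * u * g⁻¹ ∈ P₁ := hu
        have e := hcom _ hu'
        have e' : g * u * g⁻¹ = u := by
          have e2 : g⁻¹ * (g * u * g⁻¹ * g) = g⁻¹ * (g * (g * u * g⁻¹)) := by rw [e]
          have e3 : g⁻¹ * (g * u * g⁻¹ * g) = u := by group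
          have e4 : g⁻¹ * (g * (g * u * g⁻¹)) = g * u * g⁻¹ := by group
          rw [e3, e4] at e2
          exact e2.symm
        rw [← e']
        exact hu'
    exact ⟨hgn, (hmemC _).mpr hcom⟩
  have hZ : ∑ c with X c, χC c * χC c⁻¹ = (Z : ℂ) := by
    rw [hZd, Complex.ofReal_sum]
    refine Finset.sum_bij (fun c _ => ((c : NP P₁) : T)) ?_ ?_ ?_ ?_
    · intro c hc
      exact Finset.mem_filter.mpr ⟨Finset.mem_univ _, (Finset.mem_filter.mp hc).2⟩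
    · intro c _ c' _ h
      exact Subtype.ext (Subtype.ext h)
    · intro g hg
      obtain ⟨hgn, hgC⟩ := hXC g (Finset.mem_filter.mp hg).2
      exact ⟨⟨⟨g, hgn⟩, hgC⟩, Finset.mem_filter.mpr
        ⟨Finset.mem_univ _, (Finset.mem_filter.mp hg).2⟩, rfl⟩
    · intro c _
      exact mul_inv_eq hirrχ ((c : NP P₁) : T)
  have hZ0 : 0 ≤ Z := by
    rw [hZd]
    exact Finset.sum_nonneg fun g _ => Complex.normSq_nonneg _
  have hNpos : (0 : ℝ) < Nat.card (NP P₁) := by exact_mod_cast Nat.card_pos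
  have hZlt : Z < Nat.card (NP P₁) := by
    have h9 := sum_le (P₁ := P₁) (by rw [hP1]; exact hp.out.one_lt)
      (fun g => Complex.normSq (χ g)) (fun g => Complex.normSq_nonneg _)
      (fun t g => by rw [hirrχ.conj_eq])
    rw [← hZd] at h9
    have h10 : ∑ g : T, Complex.normSq (χ g) = Nat.card T := by
      have h11 := hχ.sum_self
      rw [Finset.sum_congr rfl fun g _ => mul_inv_eq hirrχ g, ← Complex.ofReal_sum] at h11
      exact_mod_cast h11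
    rw [h10] at h9
    have h12 : 0 < Complex.normSq (χ 1) := Complex.normSq_pos.mpr hχ.one_ne_zero
    have hTpos : (0 : ℝ) < Nat.card T := by exact_mod_cast Nat.card_pos
    have h13 : (Nat.card T : ℝ) * Z < Nat.card T * Nat.card (NP P₁) := by
      calc (Nat.card T : ℝ) * Z ≤ Nat.card (NP P₁) * (Nat.card T - Complex.normSq (χ 1)) := h9
        _ < Nat.card (NP P₁) * Nat.card T := by
          apply mul_lt_mul_of_pos_left _ hNpos
          linarith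
        _ = _ := mul_comm _ _
    exact lt_of_mul_lt_mul_left h13 hTpos.le
  -- the orbits
  have hfs : ∀ (g : NP P₁) (φ : C → ℂ), ∑ η ∈ S (cj g φ), (a η : ℂ) =
      ∑ η ∈ S φ, (a η : ℂ) := by
    intro g φ
    symm
    refine Finset.sum_nbij' (fun η => cj g η) (fun η => cj g⁻¹ η) ?_ ?_ ?_ ?_ ?_
    · intro η hη
      obtain ⟨hη1, hη2⟩ := Finset.mem_filter.mp hη
      refine Finset.mem_filter.mpr ⟨mem_irrF.mpr (irr_cj (mem_irrF.mp hη1) g), ?_⟩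
      funext x
      rw [cen_cj, cen_cj, hη2]
    · intro η hη
      obtain ⟨hη1, hη2⟩ := Finset.mem_filter.mp hη
      refine Finset.mem_filter.mpr ⟨mem_irrF.mpr (irr_cj (mem_irrF.mp hη1) g⁻¹), ?_⟩
      funext x
      rw [cen_cj, hη2, cen_cj, ← MulAut.mul_apply, ← map_mul, mul_inv_cancel, map_one,
        MulAut.one_apply]
    · intro η _
      exact cj_inv g η
    · intro η _
      exact cj_inv' g η
    · intro η _
      rw [hacj]
  have ho1 := orbit_sum 𝔐 φ₀ (fun φ => (a φ : ℂ) ^ 2) (fun g φ _ => by rw [hacj])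
  have ho2 := orbit_sum 𝔐 φ₀ (fun φ => (a φ : ℂ) * ∑ η ∈ S φ, (a η : ℂ))
    (fun g φ _ => by rw [hacj, hfs])
  have ho3 : ∑ φ ∈ irrF C with cen 𝔐 (MonoidHom.id C) φ = cen 𝔐 (MonoidHom.id C) φ₀,
      (a φ : ℂ) * ∑ η ∈ S φ, (a η : ℂ) = (∑ φ ∈ irrF C with cen 𝔐 (MonoidHom.id C) φ =
        cen 𝔐 (MonoidHom.id C) φ₀, (a φ : ℂ)) ^ 2 := by
    rw [sq, Finset.sum_mul]
    refine Finset.sum_congr rfl fun φ hφ => ?_
    congr 1
    change ∑ η ∈ irrF C with cen 𝔐 (MonoidHom.id C) η = cen 𝔐 (MonoidHom.id C) φ, _ = _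
    rw [(Finset.mem_filter.mp hφ).2]
  rw [ho3] at ho2
  -- the index
  have hφ₀J : φ₀ ∈ J := Finset.mem_filter.mpr ⟨mem_irrF.mpr hφ₀, 1, by rw [cj_one]⟩
  have hCB : C ≤ bS 𝔐 C φ₀ := by
    obtain ⟨P', x', h⟩ := hAt φ₀ hφ₀J
    exact (h7 (NP P₁) 𝔐 ℓ n h𝔐 hℓ _ C hPNc hC φ₀ P' x' hφ₀ h).1
  have hBcard : Nat.card (bS 𝔐 C φ₀) = C.relIndex (bS 𝔐 C φ₀) * Nat.card C := by
    rw [← card_subgroupOf hCB, mul_comm]
    exact (Subgroup.card_mul_index _).symm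
  obtain ⟨Q, hQ⟩ : ∃ Q : ℤ, Q = (ℓ : ℤ) ^ n * (∑ φ ∈ irrF C with cen 𝔐 (MonoidHom.id C) φ =
      cen 𝔐 (MonoidHom.id C) φ₀, a φ ^ 2) -
      (∑ φ ∈ irrF C with cen 𝔐 (MonoidHom.id C) φ =
      cen 𝔐 (MonoidHom.id C) φ₀, a φ) ^ 2 := ⟨_, rfl⟩
  have hmain : (C.relIndex (bS 𝔐 C φ₀) : ℝ) * (ℓ : ℝ) ^ n * Z = Nat.card (NP P₁) * (Q : ℝ) := by
    have hC0 : (Nat.card C : ℂ) ≠ 0 := natCard_ne_zero
    have e1 : ∑ c with X c, (∑ φ ∈ J, (a φ : ℂ) * φ c) * (∑ φ ∈ J, (a φ : ℂ) * φ c⁻¹) =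
        (Z : ℂ) := by
      rw [← hZ]
      refine Finset.sum_congr rfl fun c hc => ?_
      have hx := (Finset.mem_filter.mp hc).2
      rw [hval c hx, hval c⁻¹ (hXinv c hx)]
    rw [e1] at hnorm
    have e2 : ((C.relIndex (bS 𝔐 C φ₀) : ℂ) * (ℓ : ℂ) ^ n * Z) * Nat.card C =
        (Nat.card (NP P₁) * (Q : ℂ)) * Nat.card C := by
      have e3 : (Nat.card (bS 𝔐 C φ₀) : ℂ) = (C.relIndex (bS 𝔐 C φ₀) : ℂ) * Nat.card C := by
        rw [hBcard]
        push_cast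
        ring
      calc ((C.relIndex (bS 𝔐 C φ₀) : ℂ) * (ℓ : ℂ) ^ n * Z) * Nat.card C
          = (Nat.card (bS 𝔐 C φ₀) : ℂ) * ((ℓ : ℂ) ^ n * Z) := by rw [e3]; ring
        _ = (Nat.card C : ℂ) * ((ℓ : ℂ) ^ n * ((Nat.card (bS 𝔐 C φ₀) : ℂ) *
              ∑ φ ∈ J, (a φ : ℂ) ^ 2) -
              (Nat.card (bS 𝔐 C φ₀) : ℂ) * ∑ φ' ∈ J, (a φ' : ℂ) * ∑ φ ∈ S φ', (a φ : ℂ)) := by
            rw [hnorm]
            ring
        _ = _ := by
            change (Nat.card C : ℂ) * ((ℓ : ℂ) ^ n * ((Nat.card (bS 𝔐 C φ₀) : ℂ) *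
              ∑ φ ∈ irrF C with (∃ g : NP P₁,
              cen 𝔐 (MonoidHom.id C) (cj g φ) = cen 𝔐 (MonoidHom.id C) φ₀), (a φ : ℂ) ^ 2) -
              (Nat.card (bS 𝔐 C φ₀) : ℂ) * ∑ φ' ∈ irrF C with (∃ g : NP P₁,
              cen 𝔐 (MonoidHom.id C) (cj g φ') = cen 𝔐 (MonoidHom.id C) φ₀),
              (a φ' : ℂ) * ∑ φ ∈ S φ', (a φ : ℂ)) = _
            rw [ho1, ho2, hQ]
            push_cast
            ring
    have e4 := mul_right_cancel₀ hC0 e2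
    exact_mod_cast e4
  have he0 : (0 : ℝ) < C.relIndex (bS 𝔐 C φ₀) := by
    have h9 : C.relIndex (bS 𝔐 C φ₀) ≠ 0 := by
      intro h0
      rw [h0, zero_mul] at hBcard
      exact Nat.card_pos.ne' hBcard
    exact_mod_cast Nat.pos_of_ne_zero h9
  have hℓ0 : (0 : ℝ) < (ℓ : ℝ) ^ n := by
    have := hp.out.pos
    positivity
  refine ⟨a, hacj, ha, ?_, ?_, ?_⟩
  · rw [← hQ]
    have h9 : (0 : ℝ) ≤ Nat.card (NP P₁) * (Q : ℝ) := by
      rw [← hmain]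
      positivity
    have h10 : (0 : ℝ) ≤ Q := nonneg_of_mul_nonneg_right h9 hNpos
    exact_mod_cast h10
  · rw [← hQ]
    have h9 : (Nat.card (NP P₁) : ℝ) * (Q : ℝ) <
        Nat.card (NP P₁) * ((C.relIndex (bS 𝔐 C φ₀) : ℝ) * (ℓ : ℝ) ^ n) := by
      rw [← hmain, mul_comm (Nat.card (NP P₁) : ℝ)]
      exact mul_lt_mul_of_pos_left hZlt (mul_pos he0 hℓ0)
    have h10 := lt_of_mul_lt_mul_left h9 hNpos.le
    exact_mod_cast h10
  · rw [← hQ]
    intro hQ0 g hg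
    rw [hQ0, Int.cast_zero, mul_zero] at hmain
    have hZz : Z = 0 := by
      rcases mul_eq_zero.mp hmain with h | h
      · exact absurd h (mul_pos he0 hℓ0).ne'
      · exact h
    rw [hZd] at hZz
    have h9 := (Finset.sum_eq_zero_iff_of_nonneg
      (fun g _ => Complex.normSq_nonneg (χ g))).mp hZz g
      (Finset.mem_filter.mpr ⟨Finset.mem_univ _, hg⟩)
    exact Complex.normSq_eq_zero.mp h9

end Pool.Agent.DPX


end
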