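import Mathlib
import Pool.Agent.DAM.C13

/-! Parts: DPF.Defs, DPG.Defs -/

section

/-!
# Dade's conjecture: the normal subgroups with a quotient with a normal Sylow `ℓ`-subgroup:
definitions
-/

namespace Pool.Agent.DPF

open Pool.Agent.DP Pool.Agent.DPC Pool.Agent.DPM Pool.Agent.DPN Pool.Agent.Lib_helper13
  Representation
open Pool.Agent.Lib_helper13.Dade (pCore DadeHolds dadeSum)

/-- `P` is a normal Sylow `ℓ`-subgroup with abelian quotient. -/
structure SylAb (ℓ : ℕ) {H : Type} [Group H] (P : Subgroup H) : Prop where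
  nrm : P.Normal
  pgr : IsPGroup ℓ P
  idx : ¬ ℓ ∣ P.index
  abl : ∀ x y : H, x * y * x⁻¹ * y⁻¹ ∈ P

/-! ### Sums over a central extension -/

/-- The element `a` of `W` is a commutator of elements which generate `W` modulo the inverse image
of `P`, modulo the commutator subgroup of the inverse image of `P`. -/
def InS {W H : Type} [Group W] [Group H] (π : W →* H) (P : Subgroup H) (a : W) : Prop :=
  ∃ x y e : W, Subgroup.closure {x, y} ⊔ P.comap π = ⊤ ∧ e ∈ ⁅P.comap π, P.comap π⁆ ∧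
    a = x * y * x⁻¹ * y⁻¹ * e

/-- The Moebius sum of the numbers of the characters over `μ` of the defects `e` with
`e + a = n`. -/
noncomputable def PSM {W H : Type} [Group W] [Fintype W] [Group H] [Fintype H] (ℓ : ℕ)
    (π : W →* H) (m : Subgroup H → ℚ) (μ : π.ker →* ℂˣ) (a n : ℕ) : ℚ :=
  ∑ V, m V * ((Nat.card V : ℚ) * Nat.card {η : ↥(V.comap π) → ℂ // IsIrr η ∧
    OvL π.ker μ _ η ∧ ∃ e, HasDefect ℓ η e ∧ e + a = n})

open Classical in
/-- The Moebius sum of the values at `a⁻¹` of the central characters of the characters of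
defect `e`. -/
noncomputable def PHT {W H : Type} [Group W] [Fintype W] [Group H] [Fintype H] (ℓ : ℕ)
    (π : W →* H) (m : Subgroup H → ℚ) (e : ℕ) (a : W) : ℂ :=
  ∑ V, (m V : ℂ) * ((Nat.card V : ℂ) *
    ∑ η ∈ irrF (V.comap π) with HasDefect ℓ η e, ext0 η a⁻¹ / η 1)

/-! ### Chains of a normal subgroup and characters of a central extension -/

section CE

variable {L K H W : Type} [Group L] [Group K] [Group H] [Group W]

/-- The inverse image in `L` of the stabilizer in `S` of the chain `τ` of `M`. -/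
noncomputable abbrev SL (π : L →* K) (M : Subgroup K) (τ : Finset (Subgroup M))
    (S : Subgroup K) : Subgroup L :=
  (S ⊓ stb (mapCh M.subtype τ)).comap π

theorem SL_mono (π : L →* K) (M : Subgroup K) (τ : Finset (Subgroup M)) {S S' : Subgroup K}
    (h : S ≤ S') : SL π M τ S ≤ SL π M τ S' :=
  Subgroup.comap_mono (inf_le_inf_right _ h)

variable [Fintype L] [Fintype K]

/-- The sum over the chains of `M`, for the stabilizers in `S` and the characters over `μ` of the
inverse images in `L` whose central function agrees with `ω` on the inverse image of `M`. -/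
noncomputable def PHU (𝔐 : Ideal (integralClosure ℤ ℂ)) (ℓ d : ℕ) (π : L →* K)
    (μ : π.ker →* ℂˣ) (M S : Subgroup K) (ω : L → (integralClosure ℤ ℂ) ⧸ 𝔐) : ℚ :=
  ∑ τ ∈ Ch ℓ (⊥ : Subgroup M), (-1 : ℚ) ^ τ.card *
    ((Nat.card ↥(S ⊓ stb (mapCh M.subtype τ)) : ℚ) *
      Nat.card {ψ : ↥(SL π M τ S) → ℂ // IsIrr ψ ∧ OvL π.ker μ _ ψ ∧ HasDefect ℓ ψ d ∧
        ∀ g ∈ M.comap π, cen 𝔐 (SL π M τ S).subtype ψ g = ω g})

/-- The sum over the chains of `K` for the characters over `μ` of the inverse images in `L` of the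
stabilizers whose central function agrees with `ω` on the inverse image of `M`. -/
noncomputable def DKU (𝔐 : Ideal (integralClosure ℤ ℂ)) (ℓ d : ℕ) (π : L →* K)
    (μ : π.ker →* ℂˣ) (M : Subgroup K) (ω : L → (integralClosure ℤ ℂ) ⧸ 𝔐) : ℚ :=
  ∑ σ ∈ Ch ℓ (⊥ : Subgroup K), (-1 : ℚ) ^ σ.card * ((Nat.card (stb σ) : ℚ) *
    Nat.card {ψ : ↥((stb σ).comap π) → ℂ // IsIrr ψ ∧ OvL π.ker μ _ ψ ∧ HasDefect ℓ ψ d ∧
      ∀ g ∈ M.comap π, cen 𝔐 ((stb σ).comap π).subtype ψ g = ω g})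

/-- No character over `μ` of the inverse image of `M` with the central function `ω` has minimal
defect. -/
def Pos (𝔐 : Ideal (integralClosure ℤ ℂ)) (ℓ : ℕ) (π : L →* K) (μ : π.ker →* ℂˣ)
    (M : Subgroup K) (ω : L → (integralClosure ℤ ℂ) ⧸ 𝔐) : Prop :=
  ∀ θ : ↥(M.comap π) → ℂ, IsIrr θ → OvL π.ker μ _ θ →
    HasDefect ℓ θ (padicValNat ℓ (Nat.card π.ker)) →
    ¬ ∀ g ∈ M.comap π, cen 𝔐 (M.comap π).subtype θ g = ω g

/-- The fixed pairs: the character `θ` over `μ` of the inverse image of the stabilizer in `M` of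
the chain `τ` of `M` has the central function `ω` and is invariant, and the stabilizer of `τ`
covers `H`. -/
structure PrU (𝔐 : Ideal (integralClosure ℤ ℂ)) (π : L →* K) (μ : π.ker →* ℂˣ) (p : K →* H)
    (M : Subgroup K) (ω : L → (integralClosure ℤ ℂ) ⧸ 𝔐) (τ : Finset (Subgroup M))
    (θ : ↥(SL π M τ M) → ℂ) : Prop where
  irr : IsIrr θ
  ovl : OvL π.ker μ _ θ
  cn : ∀ g ∈ M.comap π, cen 𝔐 (SL π M τ M).subtype θ g = ω g
  sj : ∀ h : H, ∃ k ∈ stb (mapCh M.subtype τ), p k = h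
  iv : ∀ t ∈ SL π M τ ⊤, ∀ a b : ↥(SL π M τ M), (b : L) = t * a * t⁻¹ → θ b = θ a

end CE

/-! ### Extensions over an extension of the quotient -/

/-- `G` is the fibre product of `T` and `W` over `H`. -/
structure FbP {G T W H : Type} [Group G] [Group T] [Group W] [Group H] (α : G →* T) (β : G →* W)
    (p : T →* H) (π : W →* H) : Prop where
  cm : ∀ g, p (α g) = π (β g)
  ex : ∀ t w, p t = π w → ∃! g, α g = t ∧ β g = w

/-- `W` is an extension (by `π`) of `H = T / A`, `G` is the fibre product of `T` and `W` over `H`,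
and the character `E` of `G` extends the character `θ` of `A`; the kernel of `π` acts by the
inverse of `ν`. -/
structure EXW {A T H W G : Type} [Group A] [Group T] [Group H] [Group W] [Group G] (i : A →* T)
    (θ : A → ℂ) (α : G →* T) (β : G →* W) (π : W →* H) (ν : π.ker →* ℂˣ) (E : G → ℂ) :
    Prop where
  Ec : IsChr E
  Ee : ∀ (a : A) (g : G), α g = i a → β g = 1 → E g = θ a
  El : ∀ (z : π.ker) (g g' : G), α g' = α g → β g' = z * β g → ((ν z : ℂˣ) : ℂ) * E g' = E g

section Data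

variable {L K H W : Type} [Group L] [Group K] [Group H] [Group W]

/-- The embedding of the inverse image of the stabilizer in `M` of the chain `τ`. -/
noncomputable def iSL (π : L →* K) (M : Subgroup K) (τ : Finset (Subgroup M)) :
    ↥(SL π M τ M) →* ↥(SL π M τ ⊤) :=
  Subgroup.inclusion (SL_mono π M τ le_top)

/-- The projection of the inverse image of the stabilizer of the chain `τ`. -/
noncomputable def pSL (π : L →* K) (p : K →* H) (M : Subgroup K) (τ : Finset (Subgroup M)) :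
    ↥(SL π M τ ⊤) →* H :=
  (p.comp π).comp (SL π M τ ⊤).subtype

/-- The character `θ` extends over the extension `W` of `H`. -/
def EDt (π : L →* K) (p : K →* H) (M : Subgroup K) (πW : W →* H) (τ : Finset (Subgroup M))
    (θ : ↥(SL π M τ M) → ℂ) (ν : πW.ker →* ℂˣ) : Prop :=
  ∃ (G : Type) (_ : Group G) (_ : Finite G) (α : G →* ↥(SL π M τ ⊤)) (β : G →* W) (E : G → ℂ),
    FbP α β (pSL π p M τ) πW ∧ EXW (iSL π M τ) θ α β πW ν E

/-- The characters over `θ` of the inverse images of the subgroups of `H` are counted by the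
characters over `ν` of the inverse images in `W`. -/
structure NumW [Fintype L] [Fintype W] (ℓ : ℕ) (π : L →* K) (p : K →* H) (M : Subgroup K)
    (πW : W →* H) (τ : Finset (Subgroup M)) (θ : ↥(SL π M τ M) → ℂ) (ν : πW.ker →* ℂˣ) :
    Prop where
  inv : ∀ (w : W) (z z' : πW.ker), (z' : W) = w * z * w⁻¹ → ν z' = ν z
  num : ∀ (V : Subgroup H) (d : ℕ),
    Nat.card {ψ : ↥(SL π M τ (V.comap p)) → ℂ // IsIrr ψ ∧
        ip (fun a : ↥(SL π M τ M) => ext0 ψ (a : L)) θ ≠ 0 ∧ HasDefect ℓ ψ d} =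
      Nat.card {η : ↥(V.comap πW) → ℂ // IsIrr η ∧ OvL πW.ker ν _ η ∧
        ∃ e a, HasDefect ℓ η e ∧ HasDefect ℓ θ a ∧
          e + a = d + padicValNat ℓ (Nat.card πW.ker)}

open Classical in
/-- The relations between the linear characters which belong to the fixed pairs: the sums over the
pairs of a given defect of the values at the commutators vanish. -/
def T2 [Fintype L] [Fintype K] (𝔐 : Ideal (integralClosure ℤ ℂ)) (ℓ : ℕ) (π : L →* K)
    (μ : π.ker →* ℂˣ) (p : K →* H) (M : Subgroup K) (ω : L → (integralClosure ℤ ℂ) ⧸ 𝔐)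
    (πW : W →* H) (P : Subgroup H)
    (ν : ∀ τ : Finset (Subgroup M), (↥(SL π M τ M) → ℂ) → (πW.ker →* ℂˣ)) : Prop :=
  ∀ a : πW.ker, InS πW P (a : W) → ∀ n : ℕ,
    ∑ τ ∈ Ch ℓ (⊥ : Subgroup M), (-1 : ℂ) ^ τ.card *
      ∑ θ ∈ irrF (SL π M τ M) with PrU 𝔐 π μ p M ω τ θ ∧ HasDefect ℓ θ n,
        (Nat.card ↥(M ⊓ stb (mapCh M.subtype τ)) : ℂ) * ((ν τ θ a : ℂˣ) : ℂ) = 0

end Data

end Pool.Agent.DPF


end

section

/-!
# Dade's conjecture: minimal normal subgroups which are not simple: definitions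
-/

namespace Pool.Agent.DPG

open Pool.Agent.DP Pool.Agent.DPC Pool.Agent.DPM Pool.Agent.DPN Pool.Agent.DPF
  Pool.Agent.Lib_helper13 Representation
open Pool.Agent.Lib_helper13.Dade (pCore DadeHolds dadeSum)

/-! ### Scalars of invariant functions -/

section Sc

variable {L : Type} [Group L]

/-- `u` is invariant under conjugation by the elements of `S`. -/
def CIv {A : Type} (S : Subgroup L) (u : L → A) : Prop := ∀ s ∈ S, ∀ x, u (s * x * s⁻¹) = u x

/-- `u` vanishes outside `S`. -/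
def SOn {A : Type} [Zero A] (S : Set L) (u : L → A) : Prop := ∀ x, x ∉ S → u x = 0

/-- The reduction of the scalar by which the invariant function `u` acts on the character `F`
(extended by zero to `L`). -/
noncomputable def sc [Fintype L] (𝔐 : Ideal (integralClosure ℤ ℂ)) (F : L → ℂ) (u : L → ℤ) :
    (integralClosure ℤ ℂ) ⧸ 𝔐 :=
  red 𝔐 ((∑ x, ((u x : ℤ) : ℂ) * F x) / F 1)

/-- The function `F` lies over the linear character `μ` of the kernel of `π`. -/
def Ov {K : Type} [Group K] (π : L →* K) (μ : π.ker →* ℂˣ) (F : L → ℂ) : Prop :=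
  ∀ (z : π.ker) (x : L), F (z * x) = ((μ z : ℂˣ) : ℂ) * F x

end Sc

/-! ### Pairs -/

section Pairs

variable {L K : Type} [Group L] [Group K]

/-- The inverse image in `L` of `N ⊓ S`. -/
abbrev AL (π : L →* K) (N S : Subgroup K) : Subgroup L := (N ⊓ S).comap π

/-- A chain of `ℓ`-subgroups of `N`. -/
def ChN (ℓ : ℕ) (N : Subgroup K) (σ : Finset (Subgroup K)) : Prop :=
  IsCh ℓ ⊥ σ ∧ ∀ D ∈ σ, D ≤ N

/-- The character `F` of the inverse image of `M ⊓ S` extends an irreducible character of the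
inverse image of `N ⊓ S`, and `S` covers `M / N`. -/
structure EF (π : L →* K) (N M S : Subgroup K) (F : L → ℂ) : Prop where
  irr : IrrOn (AL π M S) F
  res : IsIrr (fun a : AL π N S => F a)
  cov : M ≤ N ⊔ S

/-- For every element `x` above `M` some invariant function on the coset of `x` has a nonzero
scalar. -/
def SUP [Fintype L] (𝔐 : Ideal (integralClosure ℤ ℂ)) (π : L →* K) (N M : Subgroup K)
    (F : L → ℂ) : Prop :=
  ∀ x, π x ∈ M → ∃ u : L → ℤ, CIv (N.comap π) u ∧ SOn {y | π (x⁻¹ * y) ∈ N} u ∧ sc 𝔐 F u ≠ 0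

/-- The character `f` of the inverse image of `M ⊓ S` over `μ` is invariant under `S`, which covers
`K / M`, and its central function agrees with `ω` on the inverse image of `M`. -/
structure BPs [Fintype L] (𝔐 : Ideal (integralClosure ℤ ℂ)) (π : L →* K) (μ : π.ker →* ℂˣ)
    (M : Subgroup K) (ω : L → (integralClosure ℤ ℂ) ⧸ 𝔐) (S : Subgroup K) (f : L → ℂ) :
    Prop where
  irr : IrrOn (AL π M S) f
  ovl : Ov π μ f
  cn : ∀ g, π g ∈ M → cg 𝔐 f g = ω g
  sj : M ⊔ S = ⊤
  iv : ∀ t, π t ∈ S → ∀ x, f (t * x * t⁻¹) = f x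

/-- The characters of the inverse image of `N` over `μ` which are covered by `ω`. -/
def Cvd [Fintype L] (𝔐 : Ideal (integralClosure ℤ ℂ)) (π : L →* K) (μ : π.ker →* ℂˣ)
    (N : Subgroup K) (ω : L → (integralClosure ℤ ℂ) ⧸ 𝔐) (f : L → ℂ) : Prop :=
  IrrOn (N.comap π) f ∧ Ov π μ f ∧ ∀ g, π g ∈ N → cg 𝔐 f g = ω g

/-- The blocks of the inverse image of `N` which are covered by `ω` are stable. -/
def STB [Fintype L] (𝔐 : Ideal (integralClosure ℤ ℂ)) (π : L →* K) (μ : π.ker →* ℂˣ)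
    (N : Subgroup K) (ω : L → (integralClosure ℤ ℂ) ⧸ 𝔐) : Prop :=
  ∀ f, Cvd 𝔐 π μ N ω f → ∀ u : L → ℤ, CIv (N.comap π) u → SOn (N.comap π : Set L) u →
    ∀ l, sc 𝔐 f (fun x => u (l * x * l⁻¹)) = sc 𝔐 f u

/-- The support of the blocks of the inverse image of `N` which are covered by `ω` contains
`M`. -/
def SPP [Fintype L] (𝔐 : Ideal (integralClosure ℤ ℂ)) (π : L →* K) (μ : π.ker →* ℂˣ)
    (N M : Subgroup K) (ω : L → (integralClosure ℤ ℂ) ⧸ 𝔐) : Prop :=
  ∀ f, Cvd 𝔐 π μ N ω f → ∀ x, π x ∈ M → ∃ u v : L → ℤ, CIv (N.comap π) u ∧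
    CIv (N.comap π) v ∧ SOn {y | π (x⁻¹ * y) ∈ N} u ∧ SOn {y | π (x * y) ∈ N} v ∧
    sc 𝔐 f (conv u v) ≠ 0

/-- The fibre product of the inverse image of `S` and `W` over `H`. -/
def GS {H W : Type} [Group H] [Group W] (π : L →* K) (p : K →* H) (πW : W →* H)
    (S : Subgroup K) : Subgroup (L × W) where
  carrier := {x | π x.1 ∈ S ∧ p (π x.1) = πW x.2}
  one_mem' := by
    constructor
    · simp [S.one_mem]
    · simp
  mul_mem' := by
    rintro a b ⟨ha1, ha2⟩ ⟨hb1, hb2⟩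
    refine ⟨?_, ?_⟩
    · rw [Prod.fst_mul, map_mul]
      exact S.mul_mem ha1 hb1
    · rw [Prod.fst_mul, Prod.snd_mul, map_mul, map_mul, map_mul, ha2, hb2]
  inv_mem' := by
    rintro a ⟨ha1, ha2⟩
    refine ⟨?_, ?_⟩
    · rw [Prod.fst_inv, map_inv]
      exact S.inv_mem ha1
    · rw [Prod.fst_inv, Prod.snd_inv, map_inv, map_inv, map_inv, ha2]

/-- The character `f` extends over the extension `W` of `H`, with `ν` on the kernel. -/
def EDb {H W : Type} [Group H] [Group W] (π : L →* K) (p : K →* H) (M : Subgroup K)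
    (πW : W →* H) (S : Subgroup K) (f : L → ℂ) (ν : πW.ker →* ℂˣ) : Prop :=
  ∃ E : L × W → ℂ, IsChr (fun x : GS π p πW S => E x) ∧ (∀ x, x ∉ GS π p πW S → E x = 0) ∧
    (∀ a, π a ∈ M → π a ∈ S → E (a, 1) = f a) ∧
    ∀ (z : πW.ker) (t : L) (w : W), ((ν z : ℂˣ) : ℂ) * E (t, z * w) = E (t, w)

end Pairs

/-! ### Wreath products -/

section Wr

/-- The map between wreath products induced by a homomorphism. -/
def gmap {B B' : Type} [Group B] [Group B'] (Ω : Type) (f : B →* B') :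
    Gam (Equiv.Perm Ω) Ω B →* Gam (Equiv.Perm Ω) Ω B' where
  toFun x := ⟨fun o => f (x.left o), x.right⟩
  map_one' := by
    apply SemidirectProduct.ext
    · ext o
      simp
    · simp
  map_mul' := by
    intro x y
    apply SemidirectProduct.ext
    · ext o
      exact f.map_mul _ _
    · simp

/-- The element of the base group. -/
def gin {B : Type} [Group B] {Ω : Type} (n : Ω → B) : Gam (Equiv.Perm Ω) Ω B :=
  SemidirectProduct.inl n

variable {L K K1 Q Ω : Type} [Group L] [Group K] [Group K1] [Group Q] [Fintype Ω]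

/-- `L` is a central extension of `K`; `K` is embedded by `φ` in the wreath product of `K1` with
the symmetric group of `Ω`; `Q` is a central extension (by `q`) of a normal subgroup of `K1`, on
which `K1` acts by `α`, and `ε` maps `Q ^ Ω` onto the inverse image in `L` of a normal subgroup
of `K`. -/
structure WD (π : L →* K) (μ : π.ker →* ℂˣ) (φ : K →* Gam (Equiv.Perm Ω) Ω K1) (q : Q →* K1)
    (α : K1 →* MulAut Q) (ε : (Ω → Q) →* L) (μQ : q.ker →* ℂˣ) : Prop where
  πs : Function.Surjective π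
  πc : π.ker ≤ Subgroup.center L
  μi : Function.Injective μ
  φi : Function.Injective φ
  μQi : Function.Injective μQ
  qα : ∀ x a, α (q x) a = x * a * x⁻¹
  qe : ∀ k x, q (α k x) = k * q x * k⁻¹
  αz : ∀ k, ∀ z ∈ q.ker, α k z = z
  φε : ∀ n : Ω → Q, φ (π (ε n)) = gin (fun o => q (n o))
  cj : ∀ l n, ε (wB α Ω (φ (π l)) n) = l * ε n * l⁻¹
  kr : π.ker ≤ ε.range
  με : ∀ (n : Ω → Q) (h : ∀ o, n o ∈ q.ker) (h' : ε n ∈ π.ker),
    μ ⟨ε n, h'⟩ = ∏ o, μQ ⟨n o, h o⟩
  tr : ∀ o o', ∃ k, (φ k).right o = o'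
  sj : ∀ o b, ∃ k, (φ k).right o = o ∧ (φ k).left o = b

/-- `L1` is a central extension of `K1` which contains `Q`. -/
structure LD {L1 : Type} [Group L1] (q : Q →* K1) (α : K1 →* MulAut Q) (μQ : q.ker →* ℂˣ)
    (π1 : L1 →* K1) (μ1 : π1.ker →* ℂˣ) (ι : Q →* L1) : Prop where
  s : Function.Surjective π1
  c : π1.ker ≤ Subgroup.center L1
  i : Function.Injective μ1
  ιi : Function.Injective ι
  πι : ∀ x, π1 (ι x) = q x
  ια : ∀ y x, ι (α (π1 y) x) = y * ι x * y⁻¹
  μι : ∀ (z : q.ker) (h : ι z ∈ π1.ker), μ1 ⟨ι z, h⟩ = μQ z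

/-- The normal subgroup of `K` which belongs to `Q ^ Ω`. -/
abbrev NN' (π : L →* K) (ε : (Ω → Q) →* L) : Subgroup K := ε.range.map π

/-- `M` is a normal subgroup of `K` which acts trivially on `Ω`; `M1` is the group of the
coordinates of its elements. -/
structure MM (ℓ : ℕ) (π : L →* K) (φ : K →* Gam (Equiv.Perm Ω) Ω K1) (q : Q →* K1)
    (ε : (Ω → Q) →* L) (M : Subgroup K) (M1 : Subgroup K1) : Prop where
  nm : M.Normal
  nm1 : M1.Normal
  r : ∀ m ∈ M, (φ m).right = 1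
  l : ∀ m ∈ M, ∀ o, (φ m).left o ∈ M1
  s : ∀ o, ∀ b ∈ M1, ∃ m ∈ M, (φ m).left o = b
  le : NN' π ε ≤ M
  cop : ¬ ℓ ∣ (NN' π ε).relIndex M
  le1 : q.range ≤ M1
  cop1 : ¬ ℓ ∣ q.range.relIndex M1

/-- The elements of `N` with coordinates in `D`. -/
def cst (φ : K →* Gam (Equiv.Perm Ω) Ω K1) (N : Subgroup K) (D : Subgroup K1) : Subgroup K where
  carrier := {k | k ∈ N ∧ (φ k).right = 1 ∧ ∀ o, (φ k).left o ∈ D}
  one_mem' := by
    refine ⟨N.one_mem, by simp, ?_⟩
    intro o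
    simp [D.one_mem]
  mul_mem' := by
    rintro a b ⟨ha, ha', ha''⟩ ⟨hb, hb', hb''⟩
    refine ⟨N.mul_mem ha hb, by simp [ha', hb'], ?_⟩
    intro o
    rw [map_mul]
    change (φ a).left o * (φ b).left ((φ a).right⁻¹ • o) ∈ D
    exact D.mul_mem (ha'' o) (hb'' _)
  inv_mem' := by
    rintro a ⟨ha, ha', ha''⟩
    refine ⟨N.inv_mem ha, by simp [ha'], ?_⟩
    intro o
    rw [map_inv]
    change ((φ a).left ((φ a).right⁻¹⁻¹ • o))⁻¹ ∈ D
    exact D.inv_mem (ha'' _)

open Classical in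
/-- The chain of `N` with all coordinates equal to the chain `σ`. -/
noncomputable def cstC (φ : K →* Gam (Equiv.Perm Ω) Ω K1) (N : Subgroup K)
    (σ : Finset (Subgroup K1)) : Finset (Subgroup K) :=
  σ.image (cst φ N)

/-- The elements of `N` whose coordinates are coordinates of elements of `D`. -/
def clN (φ : K →* Gam (Equiv.Perm Ω) Ω K1) (N D : Subgroup K) : Set K :=
  {k | k ∈ N ∧ ∀ o, ∃ d ∈ D, (φ d).left o = (φ k).left o}

/-- The members of the chain `σ` of `N` are products of subgroups of the coordinates. -/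
def Clo (φ : K →* Gam (Equiv.Perm Ω) Ω K1) (N : Subgroup K) (σ : Finset (Subgroup K)) : Prop :=
  ∀ D ∈ σ, clN φ N D ⊆ (D : Set K)

open Classical in
/-- Conjugation of a chain. -/
noncomputable def cjC {G : Type} [Group G] (g : G) (σ : Finset (Subgroup G)) :
    Finset (Subgroup G) :=
  σ.image (fun D => D.map (MulAut.conj g).toMonoidHom)

/-- Conjugation of a function. -/
def cjF {G : Type} [Group G] (g : G) (f : G → ℂ) (x : G) : ℂ := f (g⁻¹ * x * g)

end Wr

/-! ### The fibre product -/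

section Fb

variable {L K K1 Q L1 Ω : Type} [Group L] [Group K] [Group K1] [Group Q] [Group L1]
  [Fintype Ω]

/-- The elements `(l, g)` such that the image of `g` is `φ (π l)`. -/
abbrev YY (π : L →* K) (φ : K →* Gam (Equiv.Perm Ω) Ω K1) (π1 : L1 →* K1) :
    Subgroup (L × Gam (Equiv.Perm Ω) Ω L1) :=
  fpr (φ.comp π) (gmap Ω π1)

/-- The elements above `M`. -/
def MY (π : L →* K) (φ : K →* Gam (Equiv.Perm Ω) Ω K1) (π1 : L1 →* K1) (M : Subgroup K) :
    Subgroup (L × Gam (Equiv.Perm Ω) Ω L1) :=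
  YY π φ π1 ⊓ M.comap (π.comp (MonoidHom.fst L (Gam (Equiv.Perm Ω) Ω L1)))

/-- The element of the fibre product which belongs to `n`. -/
def dY (ε : (Ω → Q) →* L) (ι : Q →* L1) (n : Ω → Q) : L × Gam (Equiv.Perm Ω) Ω L1 :=
  (ε n, gin (fun o => ι (n o)))

/-- The irreducible character `ζ` of the group above `M` is trivial on `Q ^ Ω` and lies over the
inverse of the product of the `μ1`. -/
structure ZT (π : L →* K) (φ : K →* Gam (Equiv.Perm Ω) Ω K1) (π1 : L1 →* K1)
    (μ1 : π1.ker →* ℂˣ) (ε : (Ω → Q) →* L) (ι : Q →* L1) (M : Subgroup K)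
    (ζ : L × Gam (Equiv.Perm Ω) Ω L1 → ℂ) : Prop where
  irr : IrrOn (MY π φ π1 M) ζ
  d : ∀ (n : Ω → Q) (x), ζ (x * dY ε ι n) = ζ x
  z : ∀ (z : Ω → π1.ker) (x),
    (∏ o, ((μ1 (z o) : ℂˣ) : ℂ)) * ζ ((1, gin (fun o => (z o : L1))) * x) = ζ x

/-- `θ` is the product of the values of `F` at the coordinates and of `ζ`. -/
def TP (π : L →* K) (φ : K →* Gam (Equiv.Perm Ω) Ω K1) (π1 : L1 →* K1) (M : Subgroup K)
    (F : L1 → ℂ) (ζ : L × Gam (Equiv.Perm Ω) Ω L1 → ℂ) (θ : L → ℂ) : Prop :=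
  (∀ l, π l ∉ M → θ l = 0) ∧ ∀ x ∈ MY π φ π1 M, θ x.1 = (∏ o, F (x.2.left o)) * ζ x

end Fb

end Pool.Agent.DPG


end
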