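import Mathlib
import Pool.Agent.DAM.C08

/-! Parts: DP.TWR -/

section

/-!
# Twists of standard data
-/

namespace Pool.Agent.DP

open Pool.Agent.Lib_helper13 Representation
open Pool.Agent.Lib_helper13.Dade (pCore DadeHolds)

namespace TWR

/-- Twists of irreducible characters by linear characters. -/
theorem isIrr_tw {Y : Type*} [Group Y] [Finite Y] {η : Y → ℂ} (h : IsIrr η) (c : Y →* ℂˣ) :
    IsIrr (fun y => η y * ((c y : ℂˣ) : ℂ)) := by
  have : Fintype Y := Fintype.ofFinite _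
  refine (h.isChr.mul (isChr_lin c)).isIrr ?_
  rw [← h.sum_self]
  refine Finset.sum_congr rfl fun y _ => ?_
  rw [map_inv]
  have h1 : ((c y : ℂˣ) : ℂ) * (((c y)⁻¹ : ℂˣ) : ℂ) = 1 := (c y).mul_inv
  calc η y * ((c y : ℂˣ) : ℂ) * (η y⁻¹ * (((c y)⁻¹ : ℂˣ) : ℂ))
      = (η y * η y⁻¹) * (((c y : ℂˣ) : ℂ) * (((c y)⁻¹ : ℂˣ) : ℂ)) := by ring
    _ = η y * η y⁻¹ := by rw [h1, mul_one]

theorem isIrr_tw_iff {Y : Type*} [Group Y] [Finite Y] {η : Y → ℂ} (c : Y →* ℂˣ) :
    IsIrr (fun y => η y * ((c y : ℂˣ) : ℂ)) ↔ IsIrr η := by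
  refine ⟨fun h => ?_, fun h => isIrr_tw h c⟩
  have h1 := isIrr_tw h c⁻¹
  have h2 : (fun y => (fun y => η y * ((c y : ℂˣ) : ℂ)) y * (((c⁻¹ : Y →* ℂˣ) y : ℂˣ) : ℂ)) = η := by
    funext y
    have h3 : ((c y : ℂˣ) : ℂ) * (((c y)⁻¹ : ℂˣ) : ℂ) = 1 := (c y).mul_inv
    change η y * ((c y : ℂˣ) : ℂ) * (((c y)⁻¹ : ℂˣ) : ℂ) = η y
    rw [mul_assoc, h3, mul_one]
  rw [h2] at h1
  exact h1

section

variable {O G B C Y K X : Type} [Fintype O] [DecidableEq O] [Group G] [Group B] [Group C]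
  [Group Y] [Group K] [Group X]
variable {ℓ : ℕ} {ι : G →* B} {κ : B →* MulAut G} {ρ : B →* C} {j : (O → G) →* Y} {p : Y →* K}
  {φ : Y →* Gam (Equiv.Perm O) O B} {J : Subgroup K} {g : O → B}

theorem rho_iota (hL : LocS ℓ ι κ ρ) (x : G) : ρ (ι x) = 1 := (hL.cl.ker _).mpr ⟨x, rfl⟩

omit [Fintype O] [DecidableEq O] in
/-- The cocycle. -/
theorem zz_mul (x y : Y) (o : O) :
    zz φ g (x * y) o = zz φ g x o * zz φ g y ((φ x).right⁻¹ • o) := by
  unfold zz
  rw [map_mul]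
  change (g o)⁻¹ * ((φ x).left o * (φ y).left ((φ x).right⁻¹ • o)) *
    g (((φ x).right * (φ y).right)⁻¹ • o) = _
  rw [mul_inv_rev, mul_smul]
  group

omit [Fintype O] [DecidableEq O] in
theorem rho_zz (hL : LocS ℓ ι κ ρ) (hE : ExtS ι κ j p φ) {x y : Y} (h : p x = p y) (o : O) :
    ρ (zz φ g x o) = ρ (zz φ g y o) := by
  have h1 : p (x * y⁻¹) = 1 := by rw [map_mul, map_inv, h, mul_inv_cancel]
  obtain ⟨a, ha⟩ := (hE.cl.ker _).mp h1
  have h2 : x = j a * y := by rw [ha, inv_mul_cancel_right]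
  have h3 : (φ (j a)).right = 1 := by rw [hE.jn]; rfl
  have h4 : (φ (j a)).left = fun o => ι (a o) := by rw [hE.jn]; rfl
  rw [h2, zz_mul, h3, inv_one, one_smul]
  unfold zz
  rw [h4, h3]
  simp only [map_mul, map_inv, rho_iota hL, inv_one, one_smul, mul_one, inv_mul_cancel, one_mul]

/-- The factor. -/
def L0 (φ : Y →* Gam (Equiv.Perm O) O B) (g : O → B) (ρ : B →* C) (lam : O → C →* ℂˣ) (y : Y) :
    ℂˣ := ∏ o, lam o (ρ (zz φ g y o))

omit [DecidableEq O] in
theorem L0_congr (hL : LocS ℓ ι κ ρ) (hE : ExtS ι κ j p φ) (lam : O → C →* ℂˣ) {x y : Y}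
    (h : p x = p y) : L0 φ g ρ lam x = L0 φ g ρ lam y :=
  Finset.prod_congr rfl fun o _ => by rw [rho_zz hL hE h]

omit [DecidableEq O] in
theorem L0_mul {lam : O → C →* ℂˣ} {x : Y}
    (hlam : ∀ o, lam ((φ x).right • o) = lam o) (y : Y) :
    L0 φ g ρ lam (x * y) = L0 φ g ρ lam x * L0 φ g ρ lam y := by
  unfold L0
  have h1 : ∀ o, lam o (ρ (zz φ g (x * y) o)) = lam o (ρ (zz φ g x o)) *
      lam ((φ x).right⁻¹ • o) (ρ (zz φ g y ((φ x).right⁻¹ • o))) := by
    intro o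
    have h2 : lam ((φ x).right⁻¹ • o) = lam o := by
      rw [← hlam, smul_inv_smul]
    rw [zz_mul, map_mul, map_mul, h2]
  rw [Finset.prod_congr rfl fun o _ => h1 o, Finset.prod_mul_distrib]
  congr 1
  exact Fintype.prod_equiv (MulAction.toPerm ((φ x).right⁻¹)) _ _ fun o => rfl

/-- The linear character of `J`. -/
noncomputable def Lc (hL : LocS ℓ ι κ ρ) (hE : ExtS ι κ j p φ) (g : O → B) (lam : O → C →* ℂˣ)
    (J : Subgroup K) (hlam : ∀ y, p y ∈ J → ∀ o, lam ((φ y).right • o) = lam o) : J →* ℂˣ :=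
  MonoidHom.mk' (fun k => L0 φ g ρ lam (Function.surjInv hE.surj (k : K))) (by
    intro a b
    have ha : p (Function.surjInv hE.surj (a : K)) = a := Function.surjInv_eq hE.surj _
    have hb : p (Function.surjInv hE.surj (b : K)) = b := Function.surjInv_eq hE.surj _
    have hab : p (Function.surjInv hE.surj ((a * b : J) : K)) = (a * b : J) :=
      Function.surjInv_eq hE.surj _
    rw [← L0_mul (hlam _ (by rw [ha]; exact a.2))]
    refine L0_congr hL hE lam ?_
    rw [map_mul, ha, hb, hab]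
    rfl)

omit [DecidableEq O] in
theorem Lc_apply (hL : LocS ℓ ι κ ρ) (hE : ExtS ι κ j p φ) (lam : O → C →* ℂˣ)
    (hlam : ∀ y, p y ∈ J → ∀ o, lam ((φ y).right • o) = lam o) (k : J) (y : Y)
    (hy : p y = (k : K)) : L0 φ g ρ lam y = Lc hL hE g lam J hlam k := by
  refine L0_congr hL hE lam ?_
  rw [hy]
  exact (Function.surjInv_eq hE.surj _).symm

/-- The twisted function `TH`. -/
theorem TH_tw (m : O → ℕ) (M : O → B → ℕ → ℕ → ℂ) (lam : O → C →* ℂˣ) (k : Equiv.Perm O)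
    (n : O → B) : TH m (fun o x a b => M o x a b * ((lam o (ρ x) : ℂˣ) : ℂ)) k n =
      ((∏ o, lam o (ρ (n o)) : ℂˣ) : ℂ) * TH m M k n := by
  unfold TH
  rw [Finset.mul_sum]
  refine Finset.sum_congr rfl fun f _ => ?_
  rw [Finset.prod_mul_distrib, mul_comm, Units.coe_prod]

/-- The twisted weighted sum. -/
theorem AS_tw [Fintype Y] (hL : LocS ℓ ι κ ρ) (hE : ExtS ι κ j p φ) (S : O → Subgroup B)
    (θ : O → B → ℂ) (m : O → ℕ) (M : O → B → ℕ → ℕ → ℂ) (lam : O → C →* ℂˣ)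
    (hlam : ∀ y, p y ∈ J → ∀ o, lam ((φ y).right • o) = lam o) (k : J) (F : Y → ℂ) :
    AS p φ g S (fun o x => θ o x * ((lam o (ρ x) : ℂˣ) : ℂ)) m
      (fun o x a b => M o x a b * ((lam o (ρ x) : ℂˣ) : ℂ)) (k : K) F =
      ((Lc hL hE g lam J hlam k : ℂˣ) : ℂ) * AS p φ g S θ m M (k : K) F := by
  classical
  unfold AS
  rw [← mul_div_assoc, Finset.mul_sum]
  congr 1
  · refine Finset.sum_congr rfl fun y _ => ?_
    split_ifs with h
    · rw [TH_tw, ← Lc_apply hL hE lam hlam k y h.1]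
      unfold L0
      ring
    · rw [mul_zero]
  · refine Finset.prod_congr rfl fun o _ => ?_
    simp only [map_one, Units.val_one, mul_one]

end

end TWR

open _root_.Pool.Agent.DP.TWR in
theorem TWR_thm : Stmt_TWR := by
  intro O G B C Y K X _ _ _ _ _ _ _ _ _ _ _ _ 𝔐 ℓ ι κ ρ hL j p φ hE J g S θ m M hD lam hlam
  have hres : ∀ o, (fun h => θ o (ι h) * ((lam o (ρ (ι h)) : ℂˣ) : ℂ)) = fun h => θ o (ι h) := by
    intro o
    funext h
    rw [rho_iota hL, map_one, Units.val_one, mul_one]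
  refine ⟨⟨hD.cS, ?_, hD.cm, ?_, ?_, ?_, ?_, ?_, hD.img, hD.adp⟩, ?_⟩
  · intro y hy o
    funext x
    rw [hD.cθ y hy, hlam y hy]
  · intro y hy o
    funext x a b
    rw [hD.cM y hy, hlam y hy]
  · intro o
    refine ⟨?_, ?_⟩
    · exact isIrr_tw (hD.irr o).1 ((lam o).comp (ρ.comp (S o).subtype))
    · intro x hx
      change θ o x * _ = 0
      rw [(hD.irr o).2 x hx, zero_mul]
  · intro o
    rw [hres o]
    exact hD.res o
  · intro o
    have h := hD.md o
    refine ⟨?_, ?_, ?_⟩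
    · intro a ha b hb
      rw [map_one, map_one, Units.val_one, mul_one]
      exact h.one a ha b hb
    · intro s hs t ht a ha b hb
      rw [h.mul s hs t ht a ha b hb, map_mul, map_mul, Units.val_mul, Finset.sum_mul]
      refine Finset.sum_congr rfl fun k _ => ?_
      ring
    · intro s hs
      rw [h.tr s hs, Finset.sum_mul]
  · intro o
    rw [hres o]
    exact hD.dz o
  · intro d e i ω
    unfold NNR
    congr 2
    set c := Lc hL hE g lam J hlam with hc
    have hc1 : ((c 1 : ℂˣ) : ℂ) = 1 := by rw [map_one, Units.val_one]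
    refine Nat.card_congr (Equiv.subtypeEquiv
      { toFun := fun η k => η k * ((c k : ℂˣ) : ℂ)
        invFun := fun η k => η k * (((c k)⁻¹ : ℂˣ) : ℂ)
        left_inv := fun η => funext fun k => by
          simp
        right_inv := fun η => funext fun k => by
          simp } fun η => ?_)
    change _ ↔ IsIrr (fun k => η k * ((c k : ℂˣ) : ℂ)) ∧
      (∃ d', HasDefect ℓ (fun k => η k * ((c k : ℂˣ) : ℂ)) d' ∧ e + d' = d) ∧
      ∀ x, red 𝔐 (wt (fun k => η k * ((c k : ℂˣ) : ℂ))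
        (fun k => AS p φ g S θ m M (k : K) (fun y => conjInd (i y) x))) = ω x
    rw [isIrr_tw_iff]
    have h1 : ∀ d', HasDefect ℓ (fun k => η k * ((c k : ℂˣ) : ℂ)) d' ↔ HasDefect ℓ η d' := by
      intro d'
      unfold HasDefect
      simp only [hc1, mul_one]
    have h2 : ∀ x, wt (fun k => η k * ((c k : ℂˣ) : ℂ))
        (fun k => AS p φ g S θ m M (k : K) (fun y => conjInd (i y) x)) =
        wt η (fun k => AS p φ g S (fun o x => θ o x * ((lam o (ρ x) : ℂˣ) : ℂ)) m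
          (fun o x a b => M o x a b * ((lam o (ρ x) : ℂˣ) : ℂ)) (k : K)
          (fun y => conjInd (i y) x)) := by
      intro x
      unfold wt
      simp only [hc1, mul_one]
      congr 1
      refine Finset.sum_congr rfl fun k _ => ?_
      rw [AS_tw hL hE S θ m M lam hlam k, ← hc]
      ring
    simp only [h1, h2]

end Pool.Agent.DP


end
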