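import Mathlib
import Pool.Agent.DAM.C01
import Pool.Agent.DAM.C13
import Pool.Agent.DAM.C15
import Pool.Agent.DAM.C16
import Pool.Agent.DAM.C17

/-! Parts: DPM.MOBX, DPN.FFA, DPF.Stmts, DPF.EDC, DPF.FBA, DPG.StmtsA, DPG.BGB -/

section

/-!
# Theorem A: Weisner's theorem
-/

namespace Pool.Agent.DPM

namespace MOBX

variable {L : Type} [Lattice L] [OrderTop L] [Fintype L]

open Classical in
/-- The Moebius function exists. -/
theorem exists_mob : ∃ m : L → ℚ, ∀ W : L, ∑ V with W ≤ V, m V = if W = ⊤ then 1 else 0 := by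
  have hwf : WellFounded (fun a b : L => b < a) := wellFounded_gt
  let m : L → ℚ := hwf.fix fun W rec =>
    (if W = ⊤ then 1 else 0) - ∑ V : {V : L // W < V}, rec V.1 V.2
  have hm : ∀ W, m W = (if W = ⊤ then 1 else 0) - ∑ V : {V : L // W < V}, m V.1 := fun W =>
    hwf.fix_eq _ W
  refine ⟨m, fun W => ?_⟩
  have h1 : (Finset.univ.filter fun V : L => W ≤ V) =
      insert W (Finset.univ.filter fun V : L => W < V) := by
    ext V
    simp only [Finset.mem_filter, Finset.mem_univ, true_and, Finset.mem_insert]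
    constructor
    · intro h
      rcases h.lt_or_eq with h2 | h2
      · exact Or.inr h2
      · exact Or.inl h2.symm
    · rintro (h | h)
      · exact h.symm.le
      · exact h.le
  have h2 : ∑ V with W < V, m V = ∑ V : {V : L // W < V}, m V.1 :=
    Finset.sum_subtype _ (fun V => by simp) m
  rw [h1, Finset.sum_insert (by simp), hm W, h2]
  ring

open Classical in
theorem sum_fiber_eq_zero {m : L → ℚ}
    (hm : ∀ W : L, ∑ V with W ≤ V, m V = if W = ⊤ then 1 else 0) {K0 : L} (hK : K0 ≠ ⊤) (w : L) :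
    ∑ V with V ⊓ K0 = w, m V = 0 := by
  have hwf : WellFounded (fun a b : L => b < a) := wellFounded_gt
  induction w using hwf.induction with
  | _ w ih =>
    by_cases hw : w ≤ K0
    · have hwt : w ≠ ⊤ := fun h => hK (top_le_iff.1 (h ▸ hw))
      have h1 : ∑ w' with w ≤ w', ∑ V with V ⊓ K0 = w', m V = ∑ V with w ≤ V, m V := by
        rw [Finset.sum_comm' (s := Finset.univ.filter fun w' : L => w ≤ w')
          (t := fun w' => Finset.univ.filter fun V : L => V ⊓ K0 = w')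
          (t' := Finset.univ.filter fun V : L => w ≤ V) (s' := fun V => {V ⊓ K0})]
        · exact Finset.sum_congr rfl fun V _ => Finset.sum_singleton _ _
        · intro w' V
          simp only [Finset.mem_filter, Finset.mem_univ, true_and, Finset.mem_singleton]
          constructor
          · rintro ⟨h1, rfl⟩
            exact ⟨rfl, h1.trans inf_le_left⟩
          · rintro ⟨rfl, h1⟩
            exact ⟨le_inf h1 hw, rfl⟩
      have h2 : (Finset.univ.filter fun w' : L => w ≤ w') =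
          insert w (Finset.univ.filter fun w' : L => w < w') := by
        ext V
        simp only [Finset.mem_filter, Finset.mem_univ, true_and, Finset.mem_insert]
        constructor
        · intro h
          rcases h.lt_or_eq with h2 | h2
          · exact Or.inr h2
          · exact Or.inl h2.symm
        · rintro (h | h)
          · exact h.symm.le
          · exact h.le
      rw [hm w, if_neg hwt, h2, Finset.sum_insert (by simp)] at h1
      have h3 : ∑ w' with w < w', ∑ V with V ⊓ K0 = w', m V = 0 :=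
        Finset.sum_eq_zero fun w' hw' => ih w' (Finset.mem_filter.1 hw').2
      rw [h3, add_zero] at h1
      exact h1
    · refine Finset.sum_eq_zero fun V hV => ?_
      exact absurd ((Finset.mem_filter.1 hV).2 ▸ inf_le_right) hw

open Classical in
theorem weisner {m : L → ℚ}
    (hm : ∀ W : L, ∑ V with W ≤ V, m V = if W = ⊤ then 1 else 0) {K0 : L} (hK : K0 ≠ ⊤)
    (g : L → ℚ) : ∑ V, m V * g (V ⊓ K0) = 0 := by
  rw [← Finset.sum_fiberwise Finset.univ (fun V : L => V ⊓ K0)]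
  refine Finset.sum_eq_zero fun w _ => ?_
  have h1 : ∑ V with V ⊓ K0 = w, m V * g (V ⊓ K0) = ∑ V with V ⊓ K0 = w, m V * g w :=
    Finset.sum_congr rfl fun V hV => by rw [(Finset.mem_filter.1 hV).2]
  rw [h1, ← Finset.sum_mul, sum_fiber_eq_zero hm hK, zero_mul]

end MOBX

theorem MOBX_thm : Stmt_MOBX := by
  classical
  intro K _ _
  refine ⟨?_, fun m hm => ⟨?_, fun K0 hK g => ?_⟩⟩
  · obtain ⟨m, hm⟩ := MOBX.exists_mob (L := Subgroup K)
    refine ⟨m, fun W => ?_⟩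
    have h1 := hm W
    exact h1
  · have h1 := hm ⊤
    rw [if_pos rfl] at h1
    rw [← h1, Finset.sum_eq_single ⊤]
    · intro V hV hV'
      exact absurd (top_le_iff.1 (Finset.mem_filter.1 hV).2) hV'
    · intro h
      exact absurd (Finset.mem_filter.2 ⟨Finset.mem_univ _, le_rfl⟩) h
  · exact MOBX.weisner (L := Subgroup K) (fun W => hm W) hK g

end Pool.Agent.DPM


end

section

/-!
# FFA: the Moebius sum of the chain sums of the inverse images of the subgroups of the quotient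
-/

set_option linter.unusedSectionVars false

namespace Pool.Agent.DPN

open Pool.Agent.DP Pool.Agent.DPC Pool.Agent.DPM Pool.Agent.Lib_helper13 Representation
open Pool.Agent.Lib_helper13.Dade (pCore DadeHolds dadeSum)

namespace FFA

variable {O X H : Type} [Group O] [Fintype O] [Group X] [Fintype X] [Group H] [Fintype H]

theorem range_le {j : O →* X} {c : X →* MulAut O} {p : X →* H} (h : ClG j c p)
    (V : Subgroup H) : j.range ≤ V.comap p := by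
  intro x hx
  rw [Subgroup.mem_comap, (h.ker x).mpr hx]
  exact one_mem V

theorem map_stb (K : Subgroup X) (τ : Finset (Subgroup K)) :
    (stb τ).map K.subtype = K ⊓ stb (mapCh K.subtype τ) := by
  rw [← comap_stb_mapCh (i := K.subtype) K.subtype_injective τ, Subgroup.map_comap_eq,
    Subgroup.range_subtype]

open Classical in
/-- the inner sum is a sum over chains of the big group -/
theorem inner (ℓ : ℕ) (K Z : Subgroup X) (hZ : Z ≤ K) (G : Subgroup X → ℚ) :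
    ∑ σ ∈ Ch ℓ (Z.subgroupOf K), (-1 : ℚ) ^ σ.card * G ((stb σ).map K.subtype) =
      ∑ σ ∈ Ch ℓ Z, if ∀ D ∈ σ, D ≤ K then (-1 : ℚ) ^ σ.card * G (K ⊓ stb σ) else 0 := by
  have hmap : (Z.subgroupOf K).map K.subtype = Z := by
    rw [Subgroup.subgroupOf_map_subtype]
    exact inf_eq_left.mpr hZ
  rw [← Finset.sum_filter]
  have h1 := sum_Ch_range (i := K.subtype) K.subtype_injective ℓ (Z.subgroupOf K)
    (fun σ => (-1 : ℚ) ^ σ.card * G (K ⊓ stb σ))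
  rw [hmap] at h1
  simp only [Subgroup.range_subtype] at h1
  rw [h1]
  apply Finset.sum_congr rfl
  intro τ _
  rw [card_mapCh K.subtype_injective, map_stb]

/-- the cover of a chain which is not contained in the kernel is a proper subgroup -/
theorem cover_ne_top {ℓ : ℕ} [Fact ℓ.Prime] {j : O →* X} {c : X →* MulAut O} {p : X →* H}
    (h : ClG j c p) (hcore : pCore ℓ H = ⊥) {σ : Finset (Subgroup X)} {Q : Subgroup X}
    (hQ : Q ∈ σ) (hQp : IsPGroup ℓ Q) (hQj : ¬ Q ≤ j.range) :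
    Q.map p ⊔ (stb σ).map p ≠ ⊤ := by
  intro htop
  have h1 : Q.map p ⊔ (stb σ).map p ≤ Subgroup.normalizer ((Q.map p : Subgroup H) : Set H) := by
    apply sup_le Subgroup.le_normalizer
    have h2 : stb σ ≤ Subgroup.normalizer (Q : Set X) := by
      rw [stb]
      exact iInf₂_le Q hQ
    exact (Subgroup.map_mono h2).trans (Subgroup.le_normalizer_map p)
  rw [htop, top_le_iff, Subgroup.normalizer_eq_top_iff] at h1
  have h3 : Q.map p ≤ pCore ℓ H := by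
    rw [pCore]
    exact le_sSup ⟨h1, hQp.map p⟩
  rw [hcore, le_bot_iff, Subgroup.map_eq_bot_iff] at h3
  apply hQj
  intro x hx
  exact (h.ker x).mp (MonoidHom.mem_ker.mp (h3 hx))

open Classical in
theorem vanish {ℓ : ℕ} [Fact ℓ.Prime] {j : O →* X} {c : X →* MulAut O} {p : X →* H}
    (h : ClG j c p) (hcore : pCore ℓ H = ⊥) {Z : Subgroup X} {σ : Finset (Subgroup X)}
    (hσ : σ ∈ Ch ℓ Z) (hn : ¬ ∀ D ∈ σ, D ≤ j.range) {m : Subgroup H → ℚ} (hm : Mob m)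
    (G : Subgroup X → ℚ) :
    ∑ V : Subgroup H, m V * (if ∀ D ∈ σ, D ≤ V.comap p then G (V.comap p ⊓ stb σ) else 0) = 0 := by
  have hc := mem_Ch.mp hσ
  have hne : σ.Nonempty := by
    rw [Finset.nonempty_iff_ne_empty]
    rintro rfl
    exact hn (by simp)
  obtain ⟨Q, hQ, hQt⟩ := hc.exists_top hne
  have hQj : ¬ Q ≤ j.range := fun h1 => hn fun D hD => (hQt D hD).trans h1
  have hK0 := cover_ne_top h hcore hQ (hc.1 Q hQ).1 hQj
  have hW := ((MOBX_thm H).2 m hm).2 _ hK0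
    (fun W => if Q.map p ≤ W then G (W.comap p ⊓ stb σ) else 0)
  refine Eq.trans ?_ hW
  apply Finset.sum_congr rfl
  intro V _
  have hiff : (∀ D ∈ σ, D ≤ V.comap p) ↔ Q.map p ≤ V ⊓ (Q.map p ⊔ (stb σ).map p) := by
    rw [le_inf_iff, Subgroup.map_le_iff_le_comap]
    constructor
    · intro h1
      exact ⟨h1 Q hQ, le_sup_left⟩
    · intro h1 D hD
      exact (hQt D hD).trans h1.1
  have hinf : (V ⊓ (Q.map p ⊔ (stb σ).map p)).comap p ⊓ stb σ = V.comap p ⊓ stb σ := by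
    rw [Subgroup.comap_inf, inf_assoc]
    have h1 : stb σ ≤ (Q.map p ⊔ (stb σ).map p).comap p := by
      rw [← Subgroup.map_le_iff_le_comap]
      exact le_sup_right
    rw [inf_eq_right.mpr h1]
  simp only [hinf]
  by_cases h2 : ∀ D ∈ σ, D ≤ V.comap p
  · rw [if_pos h2, if_pos (hiff.mp h2)]
  · rw [if_neg h2, if_neg (fun h3 => h2 (hiff.mpr h3))]

end FFA

open Classical in
theorem FFA_thm : Stmt_FFA := by
  intro O X H _ _ _ _ _ _ ℓ _ j c p h hp hcore Z m hm G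
  have hZ : ∀ V : Subgroup H, Z.map j ≤ V.comap p := fun V =>
    le_trans (by rw [MonoidHom.range_eq_map]; exact Subgroup.map_mono le_top) (FFA.range_le h V)
  have h1 : ∀ V : Subgroup H, m V * ∑ σ ∈ Ch ℓ ((Z.map j).subgroupOf (V.comap p)),
      (-1 : ℚ) ^ σ.card * G ((stb σ).map (V.comap p).subtype) =
      ∑ σ ∈ Ch ℓ (Z.map j), (-1 : ℚ) ^ σ.card *
        (m V * (if ∀ D ∈ σ, D ≤ V.comap p then G (V.comap p ⊓ stb σ) else 0)) := by
    intro V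
    rw [FFA.inner ℓ (V.comap p) (Z.map j) (hZ V) G, Finset.mul_sum]
    apply Finset.sum_congr rfl
    intro σ _
    split_ifs
    · ring
    · ring
  rw [Finset.sum_congr rfl (fun V _ => h1 V), Finset.sum_comm]
  have h2 : ∀ σ ∈ Ch ℓ (Z.map j), (∑ V : Subgroup H, (-1 : ℚ) ^ σ.card *
        (m V * (if ∀ D ∈ σ, D ≤ V.comap p then G (V.comap p ⊓ stb σ) else 0))) =
      if ∀ D ∈ σ, D ≤ j.range then
        (-1 : ℚ) ^ σ.card * ∑ V : Subgroup H, m V * G (V.comap p ⊓ stb σ) else 0 := by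
    intro σ hσ
    rw [← Finset.mul_sum]
    by_cases hj : ∀ D ∈ σ, D ≤ j.range
    · rw [if_pos hj]
      congr 1
      apply Finset.sum_congr rfl
      intro V _
      rw [if_pos (fun D hD => (hj D hD).trans (FFA.range_le h V))]
    · rw [if_neg hj, FFA.vanish h hcore hσ hj hm G, mul_zero]
  rw [Finset.sum_congr rfl h2, ← Finset.sum_filter,
    sum_Ch_range h.inj ℓ Z (fun σ => (-1 : ℚ) ^ σ.card *
      ∑ V : Subgroup H, m V * G (V.comap p ⊓ stb σ))]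
  apply Finset.sum_congr rfl
  intro τ _
  rw [card_mapCh h.inj]

end Pool.Agent.DPN


end

section

/-!
# Dade's conjecture: the normal subgroups with a quotient with a normal Sylow `ℓ`-subgroup:
statements of the modules
-/

namespace Pool.Agent.DPF

open Pool.Agent.DP Pool.Agent.DPC Pool.Agent.DPM Pool.Agent.DPN Pool.Agent.Lib_helper13
  Representation
open Pool.Agent.Lib_helper13.Dade (pCore DadeHolds dadeSum)

/-! ### Idempotents -/

open Classical in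
/-- FRZ: Frobenius' formula with a central element. -/
def Stmt_FRZ : Prop :=
  ∀ (G : Type) [Group G] [Fintype G] (N : Subgroup G) [N.Normal] (Q : (N → ℂ) → Prop),
    (∀ (g : G) (κ : N → ℂ), Q κ → Q (fun n => κ (MulAut.conjNormal g n))) →
    ∀ a ∈ N, a ∈ Subgroup.center G →
    (Nat.card G : ℂ) * ∑ η ∈ irrF G with
        (∃ κ : N → ℂ, IsIrr κ ∧ Q κ ∧ ip (resj N.subtype η) κ ≠ 0), η a⁻¹ / η 1 =
      ∑ x : G, ∑ y : G, if x * y * x⁻¹ * y⁻¹ ∈ N then ed N Q (x * y * x⁻¹ * y⁻¹ * a) else 0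

/-- EDC: the idempotent of the characters of a given defect vanishes outside the commutator
subgroup. -/
def Stmt_EDC : Prop :=
  ∀ (W : Type) [Group W] [Fintype W] (ℓ : ℕ) (S : Subgroup W) (e : ℕ) (r : W),
    ed S (fun κ => HasDefect ℓ κ e) r ≠ 0 → r ∈ ⁅S, S⁆

/-- EDL: the idempotent of the characters of a given defect over a linear character. -/
def Stmt_EDL : Prop :=
  ∀ (W : Type) [Group W] [Fintype W] (ℓ : ℕ) (S A : Subgroup W), A ≤ S →
    (∀ s ∈ S, ∀ a ∈ A, s * a * s⁻¹ ∈ A) → ∀ ν : A →* ℂˣ,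
    (∀ s ∈ S, ∀ a a' : A, (a' : W) = s * a * s⁻¹ → ν a' = ν a) → ∀ (e : ℕ) (r : W),
    (Nat.card A : ℂ) * ed S (fun κ => OvL A ν S κ ∧ HasDefect ℓ κ e) r =
      ∑ a : A, (((ν a)⁻¹ : ℂˣ) : ℂ) * ed S (fun κ => HasDefect ℓ κ e) ((a : W)⁻¹ * r)

open Classical in
/-- EDT: the idempotent of the characters of degree prime to `ℓ` of a central extension of an
`ℓ`-group. -/
def Stmt_EDT : Prop :=
  ∀ (W : Type) [Group W] [Fintype W] (ℓ : ℕ) [Fact ℓ.Prime] (S A : Subgroup W), A ≤ S →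
    (∀ a ∈ A, ∀ s ∈ S, a * s = s * a) → (∀ s ∈ S, ∃ k : ℕ, s ^ ℓ ^ k ∈ A) → ∀ r : W,
    ed S (fun κ => HasDefect ℓ κ (padicValNat ℓ (Nat.card S))) r =
      if r ∈ ⁅S, S⁆ then 1 / (Nat.card ↥⁅S, S⁆ : ℂ) else 0

/-- DGI: the defects of characters of a normal subgroup of index prime to `ℓ`. -/
def Stmt_DGI : Prop :=
  ∀ (G : Type) [Group G] [Fintype G] (ℓ : ℕ) [Fact ℓ.Prime] (N : Subgroup G) [N.Normal],
    ¬ ℓ ∣ N.index → ∀ (η : G → ℂ) (κ : N → ℂ), IsIrr η → IsIrr κ →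
    ip (resj N.subtype η) κ ≠ 0 → ∀ e : ℕ, HasDefect ℓ η e ↔ HasDefect ℓ κ e

open Classical in
/-- EDV: the characters of a given defect of the inverse image of a subgroup. -/
def Stmt_EDV : Prop :=
  ∀ (W H : Type) [Group W] [Fintype W] [Group H] [Fintype H] (ℓ : ℕ) [Fact ℓ.Prime]
    (π : W →* H), Function.Surjective π → ∀ P : Subgroup H, SylAb ℓ P →
    ∀ (V : Subgroup H) (e : ℕ),
    (∀ ν : π.ker →* ℂˣ,
      (∀ (w : W) (z z' : π.ker), (z' : W) = w * z * w⁻¹ → ν z' = ν z) →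
      (Nat.card ↥(V.comap π) : ℂ) * Nat.card {η : ↥(V.comap π) → ℂ // IsIrr η ∧
          OvL π.ker ν _ η ∧ HasDefect ℓ η e} =
        ∑ x : W, ∑ y : W, if π x ∈ V ∧ π y ∈ V then
          ed ((V ⊓ P).comap π) (fun κ => OvL π.ker ν _ κ ∧ HasDefect ℓ κ e)
            (x * y * x⁻¹ * y⁻¹) else 0) ∧
    (π.ker ≤ Subgroup.center W → ∀ a ∈ π.ker,
      (Nat.card ↥(V.comap π) : ℂ) *
          ∑ η ∈ irrF (V.comap π) with HasDefect ℓ η e, ext0 η a⁻¹ / η 1 =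
        ∑ x : W, ∑ y : W, if π x ∈ V ∧ π y ∈ V then
          ed ((V ⊓ P).comap π) (fun κ => HasDefect ℓ κ e) (x * y * x⁻¹ * y⁻¹ * a) else 0)

open Classical in
/-- MBX: the Moebius sum for elements which do not generate. -/
def Stmt_MBX : Prop :=
  ∀ (W H : Type) [Group W] [Fintype W] [Group H] [Fintype H] (π : W →* H),
    Function.Surjective π → ∀ (P : Subgroup H) (m : Subgroup H → ℚ), Mob m → ∀ x y : W,
    (Subgroup.closure {x, y} ⊔ P.comap π ≠ ⊤ → ∀ g : Subgroup H → ℂ,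
      ∑ V, (m V : ℂ) * (if π x ∈ V ∧ π y ∈ V then g (V ⊓ P) else 0) = 0) ∧
    ∑ V, (if P ≤ V ∧ π x ∈ V ∧ π y ∈ V then (m V : ℂ) else 0) =
      if Subgroup.closure {x, y} ⊔ P.comap π = ⊤ then 1 else 0

/-! ### The two directions -/

/-- T2D: the relations imply that the Moebius sums of the numbers of characters cancel. -/
def Stmt_T2D : Prop :=
  ∀ (W H ι : Type) [Group W] [Fintype W] [Group H] [Fintype H] [Fintype ι] (ℓ : ℕ)
    [Fact ℓ.Prime] (π : W →* H), Function.Surjective π → ∀ P : Subgroup H, SylAb ℓ P →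
    ∀ (s : ι → ℚ) (d : ι → ℕ) (ν : ι → (π.ker →* ℂˣ)),
    (∀ i (w : W) (z z' : π.ker), (z' : W) = w * z * w⁻¹ → ν i z' = ν i z) →
    (∀ a : π.ker, InS π P (a : W) → ∀ n : ℕ,
      ∑ i with d i = n, (s i : ℂ) * ((ν i a : ℂˣ) : ℂ) = 0) →
    ∀ m : Subgroup H → ℚ, Mob m → ∀ n : ℕ, ∑ i, s i * PSM ℓ π m (ν i) (d i) n = 0

/-- FOX: Fourier transform of the twisted relations. -/
def Stmt_FOX : Prop :=
  ∀ (W H ι : Type) [Group W] [Fintype W] [Group H] [Fintype H] [Fintype ι] (ℓ : ℕ)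
    [Fact ℓ.Prime] (π : W →* H), π.ker ≤ Subgroup.center W →
    ∀ (s : ι → ℚ) (d : ι → ℕ) (ν : ι → (π.ker →* ℂˣ)) (m : Subgroup H → ℚ),
    (∀ (ν' : π.ker →* ℂˣ) (n : ℕ), ∑ i, s i * PSM ℓ π m (ν i * ν') (d i) n = 0) →
    ∀ (a : π.ker) (n : ℕ), ∑ i with d i ≤ n, (s i : ℂ) * ((ν i a : ℂˣ) : ℂ) *
      PHT ℓ π m (n - d i) a = 0

/-- TOPC: the leading coefficient. -/
def Stmt_TOPC : Prop :=
  ∀ (W H : Type) [Group W] [Fintype W] [Group H] [Fintype H] (ℓ : ℕ) [Fact ℓ.Prime]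
    (π : W →* H), Function.Surjective π → π.ker ≤ Subgroup.center W →
    ∀ P : Subgroup H, SylAb ℓ P → ∀ m : Subgroup H → ℚ, Mob m →
    (∀ e, padicValNat ℓ (Nat.card W) < e → ∀ a : π.ker, PHT ℓ π m e a = 0) ∧
    ∀ a : π.ker, InS π P (a : W) → PHT ℓ π m (padicValNat ℓ (Nat.card W)) a ≠ 0

/-- T2F: the twisted relations imply the relations between the linear characters. -/
def Stmt_T2F : Prop :=
  ∀ (W H ι : Type) [Group W] [Fintype W] [Group H] [Fintype H] [Fintype ι] (ℓ : ℕ)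
    [Fact ℓ.Prime] (π : W →* H), Function.Surjective π → π.ker ≤ Subgroup.center W →
    ∀ P : Subgroup H, SylAb ℓ P → ∀ (s : ι → ℚ) (d : ι → ℕ) (ν : ι → (π.ker →* ℂˣ))
      (m : Subgroup H → ℚ), Mob m →
    (∀ (ν' : π.ker →* ℂˣ) (n : ℕ), ∑ i, s i * PSM ℓ π m (ν i * ν') (d i) n = 0) →
    ∀ a : π.ker, InS π P (a : W) → ∀ n : ℕ,
      ∑ i with d i = n, (s i : ℂ) * ((ν i a : ℂˣ) : ℂ) = 0

/-! ### Numbers of characters -/

/-- NUG: the characters of the fibre product over `θ` and over a linear character of the kernel. -/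
def Stmt_NUG : Prop :=
  ∀ (A T H W G : Type) [Group A] [Fintype A] [Group T] [Fintype T] [Group H] [Fintype H]
    [Group W] [Fintype W] [Group G] [Fintype G] (ℓ : ℕ) [Fact ℓ.Prime] (i : A →* T)
    (p : T →* H), Function.Injective i → Function.Surjective p →
    (∀ t, p t = 1 ↔ t ∈ i.range) → ∀ θ : A → ℂ, IsIrr θ → ∀ π : W →* H,
    Function.Surjective π → ∀ (α : G →* T) (β : G →* W), FbP α β p π →
    ∀ (ν : π.ker →* ℂˣ) (E : G → ℂ), EXW i θ α β π ν E → ∀ ε : A →* G,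
    (∀ a, α (ε a) = i a ∧ β (ε a) = 1) → ∀ (ν' : π.ker →* ℂˣ) (V : Subgroup H) (n : ℕ),
    Nat.card {ψ : ↥(V.comap (π.comp β)) → ℂ // IsIrr ψ ∧
        ip (fun a : A => ext0 ψ (ε a)) θ ≠ 0 ∧
        (∀ (z : π.ker) (g g' : ↥(V.comap (π.comp β))), α (g' : G) = α (g : G) →
          β (g' : G) = z * β (g : G) → ψ g' = ((ν' z : ℂˣ) : ℂ) * ψ g) ∧
        HasDefect ℓ ψ n} =
      Nat.card {η : ↥(V.comap π) → ℂ // IsIrr η ∧ OvL π.ker (ν * ν') _ η ∧
        ∃ e a, HasDefect ℓ η e ∧ HasDefect ℓ θ a ∧ e + a = n}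

/-- NUM: the characters of `T` over `θ`. -/
def Stmt_NUM : Prop :=
  ∀ (A T H W G : Type) [Group A] [Fintype A] [Group T] [Fintype T] [Group H] [Fintype H]
    [Group W] [Fintype W] [Group G] [Fintype G] (ℓ : ℕ) [Fact ℓ.Prime] (i : A →* T)
    (p : T →* H), Function.Injective i → Function.Surjective p →
    (∀ t, p t = 1 ↔ t ∈ i.range) → ∀ θ : A → ℂ, IsIrr θ → ∀ π : W →* H,
    Function.Surjective π → ∀ (α : G →* T) (β : G →* W), FbP α β p π →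
    ∀ (ν : π.ker →* ℂˣ) (E : G → ℂ), EXW i θ α β π ν E →
    (∀ (w : W) (z z' : π.ker), (z' : W) = w * z * w⁻¹ → ν z' = ν z) ∧
    ∀ (V : Subgroup H) (d : ℕ),
      Nat.card {ψ : ↥(V.comap p) → ℂ // IsIrr ψ ∧ ip (fun a : A => ext0 ψ (i a)) θ ≠ 0 ∧
          HasDefect ℓ ψ d} =
        Nat.card {η : ↥(V.comap π) → ℂ // IsIrr η ∧ OvL π.ker ν _ η ∧
          ∃ e a, HasDefect ℓ η e ∧ HasDefect ℓ θ a ∧
            e + a = d + padicValNat ℓ (Nat.card π.ker)}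

/-- NUW: the numbers of characters from the extension. -/
def Stmt_NUW : Prop :=
  ∀ (L K H W : Type) [Group L] [Fintype L] [Group K] [Fintype K] [Group H] [Fintype H]
    [Group W] [Fintype W] (𝔐 : Ideal (integralClosure ℤ ℂ)) (ℓ : ℕ) [Fact ℓ.Prime]
    (π : L →* K), Function.Surjective π → ∀ (μ : π.ker →* ℂˣ) (M : Subgroup K) [M.Normal]
    (p : K →* H), (∀ k, p k = 1 ↔ k ∈ M) → ∀ ω : L → (integralClosure ℤ ℂ) ⧸ 𝔐,
    ∀ πW : W →* H, Function.Surjective πW → ∀ (τ : Finset (Subgroup M))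
      (θ : ↥(SL π M τ M) → ℂ) (ν : πW.ker →* ℂˣ), PrU 𝔐 π μ p M ω τ θ →
    EDt π p M πW τ θ ν → NumW ℓ π p M πW τ θ ν

/-- COVG: a common central extension for a finite family. -/
def Stmt_COVG : Prop :=
  ∀ (ι H : Type) [Finite ι] [Group H] [Fintype H] (A T : ι → Type) [∀ x, Group (A x)]
    [∀ x, Fintype (A x)] [∀ x, Group (T x)] [∀ x, Fintype (T x)] (i : ∀ x, A x →* T x)
    (c : ∀ x, T x →* MulAut (A x)) (p : ∀ x, T x →* H) (θ : ∀ x, A x → ℂ),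
    (∀ x, ClG (i x) (c x) (p x)) → (∀ x, Function.Surjective (p x)) → (∀ x, IsIrr (θ x)) →
    (∀ x t a, θ x (c x t a) = θ x a) →
    ∃ (W : Type) (_ : Group W) (_ : Fintype W) (π : W →* H), Function.Surjective π ∧
      π.ker ≤ Subgroup.center W ∧ ∀ x, ∃ (ν : π.ker →* ℂˣ) (G : Type) (_ : Group G)
        (_ : Finite G) (α : G →* T x) (β : G →* W) (E : G → ℂ),
        FbP α β (p x) π ∧ EXW (i x) (θ x) α β π ν E

/-- COV: a common central extension for the fixed pairs. -/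
def Stmt_COV : Prop :=
  ∀ (L K H : Type) [Group L] [Fintype L] [Group K] [Fintype K] [Group H] [Fintype H]
    (𝔐 : Ideal (integralClosure ℤ ℂ)) (π : L →* K), Function.Surjective π →
    ∀ (μ : π.ker →* ℂˣ) (M : Subgroup K) [M.Normal] (p : K →* H), Function.Surjective p →
    (∀ k, p k = 1 ↔ k ∈ M) → ∀ ω : L → (integralClosure ℤ ℂ) ⧸ 𝔐,
    ∃ (W : Type) (_ : Group W) (_ : Fintype W) (πW : W →* H)
      (ν : ∀ τ : Finset (Subgroup M), (↥(SL π M τ M) → ℂ) → (πW.ker →* ℂˣ)),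
      Function.Surjective πW ∧ πW.ker ≤ Subgroup.center W ∧
      ∀ τ θ, PrU 𝔐 π μ p M ω τ θ → EDt π p M πW τ θ (ν τ θ)

/-! ### The sums over the chains of `M` -/

open Classical in
/-- EXU: Clifford theory for the stabilizer of a chain. -/
def Stmt_EXU : Prop :=
  ∀ (L K H : Type) [Group L] [Fintype L] [Group K] [Fintype K] [Group H] [Fintype H]
    (𝔐 : Ideal (integralClosure ℤ ℂ)) (ℓ : ℕ) [Fact ℓ.Prime] (π : L →* K),
    Function.Surjective π → π.ker ≤ Subgroup.center L → ∀ (μ : π.ker →* ℂˣ)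
    (M : Subgroup K) [M.Normal] (p : K →* H), Function.Surjective p →
    (∀ k, p k = 1 ↔ k ∈ M) → ∀ (ω : L → (integralClosure ℤ ℂ) ⧸ 𝔐) (d : ℕ),
    ∀ τ ∈ Ch ℓ (⊥ : Subgroup M),
    ∃ (I : (↥(SL π M τ M) → ℂ) → Subgroup H)
      (f : (↥(SL π M τ M) → ℂ) → Subgroup H → ℚ),
      (∀ θ, IsIrr θ → OvL π.ker μ _ θ →
        (∀ g ∈ M.comap π, cen 𝔐 (SL π M τ M).subtype θ g = ω g) →
        (I θ = ⊤ ↔ PrU 𝔐 π μ p M ω τ θ)) ∧
      (∀ θ, PrU 𝔐 π μ p M ω τ θ → ∀ V, f θ V = (Nat.card V : ℚ) *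
        Nat.card {ψ : ↥(SL π M τ (V.comap p)) → ℂ // IsIrr ψ ∧
          ip (fun a : ↥(SL π M τ M) => ext0 ψ (a : L)) θ ≠ 0 ∧ HasDefect ℓ ψ d}) ∧
      ∀ V : Subgroup H,
        (Nat.card ↥(V.comap p ⊓ stb (mapCh M.subtype τ)) : ℚ) *
          Nat.card {ψ : ↥(SL π M τ (V.comap p)) → ℂ // IsIrr ψ ∧ OvL π.ker μ _ ψ ∧
            HasDefect ℓ ψ d ∧
            ∀ g ∈ M.comap π, cen 𝔐 (SL π M τ (V.comap p)).subtype ψ g = ω g} =
        ∑ θ ∈ irrF (SL π M τ M) with OvL π.ker μ _ θ ∧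
            ∀ g ∈ M.comap π, cen 𝔐 (SL π M τ M).subtype θ g = ω g,
          (Nat.card ↥(M ⊓ stb (mapCh M.subtype τ)) : ℚ) * f θ (V ⊓ I θ)

open Classical in
/-- EXPU: only the fixed pairs contribute to the Moebius sum. -/
def Stmt_EXPU : Prop :=
  ∀ (L K H : Type) [Group L] [Fintype L] [Group K] [Fintype K] [Group H] [Fintype H]
    (𝔐 : Ideal (integralClosure ℤ ℂ)) (ℓ : ℕ) [Fact ℓ.Prime] (π : L →* K),
    Function.Surjective π → π.ker ≤ Subgroup.center L → ∀ (μ : π.ker →* ℂˣ)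
    (M : Subgroup K) [M.Normal] (p : K →* H), Function.Surjective p →
    (∀ k, p k = 1 ↔ k ∈ M) → ∀ (ω : L → (integralClosure ℤ ℂ) ⧸ 𝔐) (d : ℕ)
    (m : Subgroup H → ℚ), Mob m →
    ∑ V, m V * PHU 𝔐 ℓ d π μ M (V.comap p) ω =
      ∑ τ ∈ Ch ℓ (⊥ : Subgroup M), (-1 : ℚ) ^ τ.card *
        ∑ θ ∈ irrF (SL π M τ M) with PrU 𝔐 π μ p M ω τ θ,
          (Nat.card ↥(M ⊓ stb (mapCh M.subtype τ)) : ℚ) *
            ∑ V, m V * ((Nat.card V : ℚ) *
              Nat.card {ψ : ↥(SL π M τ (V.comap p)) → ℂ // IsIrr ψ ∧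
                ip (fun a : ↥(SL π M τ M) => ext0 ψ (a : L)) θ ≠ 0 ∧ HasDefect ℓ ψ d})

/-! ### The sums over the chains of `M` vanish -/

/-- PS1: the sum over the chains of a normal subgroup vanishes if there are no characters of
minimal defect (faithful linear character of a cyclic kernel). -/
def Stmt_PS1 : Prop :=
  ∀ (L K H : Type) [Group L] [Fintype L] [Group K] [Fintype K] [Group H] [Fintype H]
    (𝔐 : Ideal (integralClosure ℤ ℂ)) (ℓ : ℕ) [Fact ℓ.Prime], 𝔐.IsMaximal →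
    (ℓ : integralClosure ℤ ℂ) ∈ 𝔐 → ∀ π : L →* K, Function.Surjective π →
    π.ker ≤ Subgroup.center L → IsCyclic π.ker → ∀ μ : π.ker →* ℂˣ, Function.Injective μ →
    HQ ℓ (Nat.card K) → ∀ (M : Subgroup K) [M.Normal] (p : K →* H), Function.Surjective p →
    (∀ k, p k = 1 ↔ k ∈ M) → ∀ P : Subgroup H, SylAb ℓ P →
    ∀ ω : L → (integralClosure ℤ ℂ) ⧸ 𝔐, Pos 𝔐 ℓ π μ M ω → ∀ d : ℕ,
    PHU 𝔐 ℓ d π μ M ⊤ ω = 0

/-- PS2: the same for arbitrary linear characters of the kernel. -/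
def Stmt_PS2 : Prop :=
  ∀ (L K H : Type) [Group L] [Fintype L] [Group K] [Fintype K] [Group H] [Fintype H]
    (𝔐 : Ideal (integralClosure ℤ ℂ)) (ℓ : ℕ) [Fact ℓ.Prime], 𝔐.IsMaximal →
    (ℓ : integralClosure ℤ ℂ) ∈ 𝔐 → ∀ π : L →* K, Function.Surjective π →
    π.ker ≤ Subgroup.center L → ∀ μ : π.ker →* ℂˣ,
    HQ ℓ (Nat.card K) → ∀ (M : Subgroup K) [M.Normal] (p : K →* H), Function.Surjective p →
    (∀ k, p k = 1 ↔ k ∈ M) → ∀ P : Subgroup H, SylAb ℓ P →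
    ∀ ω : L → (integralClosure ℤ ℂ) ⧸ 𝔐, Pos 𝔐 ℓ π μ M ω → ∀ d : ℕ,
    PHU 𝔐 ℓ d π μ M ⊤ ω = 0

/-- PS3: the same for the subgroups which contain `M`. -/
def Stmt_PS3 : Prop :=
  ∀ (L K H : Type) [Group L] [Fintype L] [Group K] [Fintype K] [Group H] [Fintype H]
    (𝔐 : Ideal (integralClosure ℤ ℂ)) (ℓ : ℕ) [Fact ℓ.Prime], 𝔐.IsMaximal →
    (ℓ : integralClosure ℤ ℂ) ∈ 𝔐 → ∀ π : L →* K, Function.Surjective π →
    π.ker ≤ Subgroup.center L → ∀ μ : π.ker →* ℂˣ,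
    ∀ (M : Subgroup K) [M.Normal] (p : K →* H), Function.Surjective p →
    (∀ k, p k = 1 ↔ k ∈ M) → ∀ P : Subgroup H, SylAb ℓ P →
    ∀ ω : L → (integralClosure ℤ ℂ) ⧸ 𝔐, Pos 𝔐 ℓ π μ M ω → ∀ V : Subgroup H,
    HQ ℓ (Nat.card ↥(V.comap p)) → ∀ d : ℕ, PHU 𝔐 ℓ d π μ M (V.comap p) ω = 0

/-- CQI: the central function of an inflated character. -/
def Stmt_CQI : Prop :=
  ∀ (L L' : Type) [Group L] [Fintype L] [Group L'] [Fintype L']
    (𝔐 : Ideal (integralClosure ℤ ℂ)) (q : L →* L'), Function.Surjective q →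
    q.ker ≤ Subgroup.center L → ∀ (S : Subgroup L') (η : S → ℂ), IsIrr η →
    IsIrr (fun x : ↥(S.comap q) => η ⟨q x, x.2⟩) ∧ ∀ g : L,
    cen 𝔐 (S.comap q).subtype (fun x : ↥(S.comap q) => η ⟨q x, x.2⟩) g =
      ((Nat.card {z : q.ker // IsConj ((z : L) * g) g} : ℕ) :
        (integralClosure ℤ ℂ) ⧸ 𝔐) * cen 𝔐 S.subtype η (q g)

/-! ### The fibre product -/

section FB

variable {L K H W : Type} [Group L] [Group K] [Group H] [Group W]

/-- The projection of the fibre product of `L` and `W` over `H` to `K`. -/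
def piY (π : L →* K) (p : K →* H) (πW : W →* H) : fpr (p.comp π) πW →* K :=
  π.comp (ffst (p.comp π) πW)

theorem kerY {π : L →* K} {p : K →* H} {πW : W →* H} {x : fpr (p.comp π) πW}
    (h : x ∈ (piY π p πW).ker) :
    (x : L × W).1 ∈ π.ker ∧ (x : L × W).2 ∈ πW.ker := by
  have h1 : π (x : L × W).1 = 1 := h
  have h2 : p (π (x : L × W).1) = πW (x : L × W).2 := x.2
  refine ⟨h1, ?_⟩
  rw [h1, map_one] at h2
  exact h2.symm

/-- The linear character of the kernel of the projection of the fibre product. -/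
def muY (π : L →* K) (p : K →* H) (πW : W →* H) (μ : π.ker →* ℂˣ) (ν : πW.ker →* ℂˣ) :
    (piY π p πW).ker →* ℂˣ where
  toFun x := μ ⟨((x : fpr (p.comp π) πW) : L × W).1, (kerY x.2).1⟩ *
    ν ⟨((x : fpr (p.comp π) πW) : L × W).2, (kerY x.2).2⟩
  map_one' := by
    change μ 1 * ν 1 = 1
    rw [map_one, map_one, one_mul]
  map_mul' := by
    intro x y
    have h1 : (⟨(((x * y : (piY π p πW).ker) : fpr (p.comp π) πW) : L × W).1,
        (kerY (x * y).2).1⟩ : π.ker) =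
        ⟨((x : fpr (p.comp π) πW) : L × W).1, (kerY x.2).1⟩ *
          ⟨((y : fpr (p.comp π) πW) : L × W).1, (kerY y.2).1⟩ := rfl
    have h2 : (⟨(((x * y : (piY π p πW).ker) : fpr (p.comp π) πW) : L × W).2,
        (kerY (x * y).2).2⟩ : πW.ker) =
        ⟨((x : fpr (p.comp π) πW) : L × W).2, (kerY x.2).2⟩ *
          ⟨((y : fpr (p.comp π) πW) : L × W).2, (kerY y.2).2⟩ := rfl
    rw [h1, h2, map_mul, map_mul]
    exact mul_mul_mul_comm _ _ _ _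

open Classical in
/-- The central function on the fibre product. -/
noncomputable def omY (𝔐 : Ideal (integralClosure ℤ ℂ)) (π : L →* K) (p : K →* H)
    (πW : W →* H) (ν : πW.ker →* ℂˣ) (ω : L → (integralClosure ℤ ℂ) ⧸ 𝔐)
    (x : fpr (p.comp π) πW) : (integralClosure ℤ ℂ) ⧸ 𝔐 :=
  if h : (x : L × W).2 ∈ πW.ker then red 𝔐 ((ν ⟨(x : L × W).2, h⟩ : ℂˣ) : ℂ) *
    ω (x : L × W).1 else 0

open Classical in
/-- The product of a character of a subgroup of `L` and a linear character of the kernel. -/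
noncomputable def thY (π : L →* K) (p : K →* H) (M : Subgroup K) (πW : W →* H)
    (τ : Finset (Subgroup M)) (θ : ↥(SL π M τ M) → ℂ) (ν : πW.ker →* ℂˣ)
    (x : ↥(SL (piY π p πW) M τ M)) : ℂ :=
  if h : ((x : fpr (p.comp π) πW) : L × W).2 ∈ πW.ker then
    ext0 θ ((x : fpr (p.comp π) πW) : L × W).1 *
      ((ν ⟨((x : fpr (p.comp π) πW) : L × W).2, h⟩ : ℂˣ) : ℂ) else 0

end FB

/-- FBA: the fibre product as a central extension. -/
def Stmt_FBA : Prop :=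
  ∀ (L K H W : Type) [Group L] [Fintype L] [Group K] [Fintype K] [Group H] [Fintype H]
    [Group W] [Fintype W] (𝔐 : Ideal (integralClosure ℤ ℂ)) (ℓ : ℕ) [Fact ℓ.Prime],
    𝔐.IsMaximal → (ℓ : integralClosure ℤ ℂ) ∈ 𝔐 → ∀ π : L →* K,
    Function.Surjective π → π.ker ≤ Subgroup.center L → ∀ (μ : π.ker →* ℂˣ)
    (M : Subgroup K) [M.Normal] (p : K →* H), Function.Surjective p →
    (∀ k, p k = 1 ↔ k ∈ M) → ∀ ω : L → (integralClosure ℤ ℂ) ⧸ 𝔐, ∀ πW : W →* H,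
    Function.Surjective πW → πW.ker ≤ Subgroup.center W → ∀ ν : πW.ker →* ℂˣ,
    Function.Surjective (piY π p πW) ∧
    (piY π p πW).ker ≤ Subgroup.center (fpr (p.comp π) πW) ∧
    (Pos 𝔐 ℓ π μ M ω →
      Pos 𝔐 ℓ (piY π p πW) (muY π p πW μ ν) M (omY 𝔐 π p πW ν ω))

open Classical in
/-- FBB: the fixed pairs of the fibre product. -/
def Stmt_FBB : Prop :=
  ∀ (L K H W : Type) [Group L] [Fintype L] [Group K] [Fintype K] [Group H] [Fintype H]
    [Group W] [Fintype W] (𝔐 : Ideal (integralClosure ℤ ℂ)) (ℓ : ℕ) [Fact ℓ.Prime],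
    𝔐.IsMaximal → (ℓ : integralClosure ℤ ℂ) ∈ 𝔐 → ∀ π : L →* K,
    Function.Surjective π → π.ker ≤ Subgroup.center L → ∀ (μ : π.ker →* ℂˣ)
    (M : Subgroup K) [M.Normal] (p : K →* H), Function.Surjective p →
    (∀ k, p k = 1 ↔ k ∈ M) → ∀ ω : L → (integralClosure ℤ ℂ) ⧸ 𝔐, ∀ πW : W →* H,
    Function.Surjective πW → πW.ker ≤ Subgroup.center W → ∀ ν : πW.ker →* ℂˣ,
    ∀ (τ : Finset (Subgroup M)) (f : (↥(SL (piY π p πW) M τ M) → ℂ) → ℚ),
    ∑ θ ∈ irrF (SL (piY π p πW) M τ M) with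
        PrU 𝔐 (piY π p πW) (muY π p πW μ ν) p M (omY 𝔐 π p πW ν ω) τ θ, f θ =
      ∑ θ ∈ irrF (SL π M τ M) with PrU 𝔐 π μ p M ω τ θ, f (thY π p M πW τ θ ν)

/-- FBC: the numbers of the characters of the fibre product. -/
def Stmt_FBC : Prop :=
  ∀ (L K H W : Type) [Group L] [Fintype L] [Group K] [Fintype K] [Group H] [Fintype H]
    [Group W] [Fintype W] (𝔐 : Ideal (integralClosure ℤ ℂ)) (ℓ : ℕ) [Fact ℓ.Prime],
    𝔐.IsMaximal → (ℓ : integralClosure ℤ ℂ) ∈ 𝔐 → ∀ π : L →* K,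
    Function.Surjective π → π.ker ≤ Subgroup.center L → ∀ (μ : π.ker →* ℂˣ)
    (M : Subgroup K) [M.Normal] (p : K →* H), Function.Surjective p →
    (∀ k, p k = 1 ↔ k ∈ M) → ∀ ω : L → (integralClosure ℤ ℂ) ⧸ 𝔐, ∀ πW : W →* H,
    Function.Surjective πW → πW.ker ≤ Subgroup.center W → ∀ ν ν' : πW.ker →* ℂˣ,
    ∀ (τ : Finset (Subgroup M)) (θ : ↥(SL π M τ M) → ℂ), PrU 𝔐 π μ p M ω τ θ →
    EDt π p M πW τ θ ν → ∀ (V : Subgroup H) (n : ℕ),
    Nat.card {ψ : ↥(SL (piY π p πW) M τ (V.comap p)) → ℂ // IsIrr ψ ∧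
        ip (fun a : ↥(SL (piY π p πW) M τ M) => ext0 ψ (a : fpr (p.comp π) πW))
          (thY π p M πW τ θ ν') ≠ 0 ∧ HasDefect ℓ ψ n} =
      Nat.card {η : ↥(V.comap πW) → ℂ // IsIrr η ∧ OvL πW.ker (ν * ν') _ η ∧
        ∃ e a, HasDefect ℓ η e ∧ HasDefect ℓ θ a ∧ e + a = n}

/-! ### The theorems -/

open Classical in
/-- T2R: the twisted relations. -/
def Stmt_T2R : Prop :=
  ∀ (L K H W : Type) [Group L] [Fintype L] [Group K] [Fintype K] [Group H] [Fintype H]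
    [Group W] [Fintype W] (𝔐 : Ideal (integralClosure ℤ ℂ)) (ℓ : ℕ) [Fact ℓ.Prime],
    𝔐.IsMaximal → (ℓ : integralClosure ℤ ℂ) ∈ 𝔐 → ∀ π : L →* K,
    Function.Surjective π → π.ker ≤ Subgroup.center L → ∀ (μ : π.ker →* ℂˣ)
    (M : Subgroup K) [M.Normal] (p : K →* H), Function.Surjective p →
    (∀ k, p k = 1 ↔ k ∈ M) → ∀ P : Subgroup H, SylAb ℓ P → HQ ℓ (Nat.card K) →
    ∀ ω : L → (integralClosure ℤ ℂ) ⧸ 𝔐, Pos 𝔐 ℓ π μ M ω → ∀ πW : W →* H,
    Function.Surjective πW → πW.ker ≤ Subgroup.center W →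
    ∀ ν : ∀ τ : Finset (Subgroup M), (↥(SL π M τ M) → ℂ) → (πW.ker →* ℂˣ),
    (∀ τ θ, PrU 𝔐 π μ p M ω τ θ → EDt π p M πW τ θ (ν τ θ)) →
    ∀ m : Subgroup H → ℚ, Mob m → ∀ (ν' : πW.ker →* ℂˣ) (n : ℕ),
    ∑ τ ∈ Ch ℓ (⊥ : Subgroup M), (-1 : ℚ) ^ τ.card *
      ∑ θ ∈ irrF (SL π M τ M) with PrU 𝔐 π μ p M ω τ θ,
        (Nat.card ↥(M ⊓ stb (mapCh M.subtype τ)) : ℚ) *
          ∑ V, m V * ((Nat.card V : ℚ) * Nat.card {η : ↥(V.comap πW) → ℂ // IsIrr η ∧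
            OvL πW.ker (ν τ θ * ν') _ η ∧
            ∃ e a, HasDefect ℓ η e ∧ HasDefect ℓ θ a ∧ e + a = n}) = 0

/-- T2A: the relations between the linear characters, from Dade's conjecture. -/
def Stmt_T2A : Prop :=
  ∀ (L K H W : Type) [Group L] [Fintype L] [Group K] [Fintype K] [Group H] [Fintype H]
    [Group W] [Fintype W] (𝔐 : Ideal (integralClosure ℤ ℂ)) (ℓ : ℕ) [Fact ℓ.Prime],
    𝔐.IsMaximal → (ℓ : integralClosure ℤ ℂ) ∈ 𝔐 → ∀ π : L →* K,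
    Function.Surjective π → π.ker ≤ Subgroup.center L → ∀ (μ : π.ker →* ℂˣ)
    (M : Subgroup K) [M.Normal] (p : K →* H), Function.Surjective p →
    (∀ k, p k = 1 ↔ k ∈ M) → ∀ P : Subgroup H, SylAb ℓ P → HQ ℓ (Nat.card K) →
    ∀ ω : L → (integralClosure ℤ ℂ) ⧸ 𝔐, Pos 𝔐 ℓ π μ M ω → ∀ πW : W →* H,
    Function.Surjective πW → πW.ker ≤ Subgroup.center W →
    ∀ ν : ∀ τ : Finset (Subgroup M), (↥(SL π M τ M) → ℂ) → (πW.ker →* ℂˣ),
    (∀ τ θ, PrU 𝔐 π μ p M ω τ θ → EDt π p M πW τ θ (ν τ θ)) →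
    T2 𝔐 ℓ π μ p M ω πW P ν

/-- PSZ: the sum over the chains of `K` and the sum over the chains of `M` (minimal
counterexample). -/
def Stmt_PSZ : Prop :=
  ∀ (L K H : Type) [Group L] [Fintype L] [Group K] [Fintype K] [Group H] [Fintype H]
    (𝔐 : Ideal (integralClosure ℤ ℂ)) (ℓ : ℕ) [Fact ℓ.Prime], 𝔐.IsMaximal →
    (ℓ : integralClosure ℤ ℂ) ∈ 𝔐 → ∀ π : L →* K, Function.Surjective π →
    π.ker ≤ Subgroup.center L → ∀ μ : π.ker →* ℂˣ, pCore ℓ K = ⊥ →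
    (∀ n < Nat.card K, HQ ℓ n) → ∀ (M : Subgroup K) [M.Normal] (p : K →* H), Function.Surjective p →
    (∀ k, p k = 1 ↔ k ∈ M) → ∀ P : Subgroup H, SylAb ℓ P →
    ∀ ω : L → (integralClosure ℤ ℂ) ⧸ 𝔐, Pos 𝔐 ℓ π μ M ω → ∀ d : ℕ,
    DKU 𝔐 ℓ d π μ M ω = PHU 𝔐 ℓ d π μ M ⊤ ω

/-- T2B: the relations imply that the sum over the chains vanishes. -/
def Stmt_T2B : Prop :=
  ∀ (L K H W : Type) [Group L] [Fintype L] [Group K] [Fintype K] [Group H] [Fintype H]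
    [Group W] [Fintype W] (𝔐 : Ideal (integralClosure ℤ ℂ)) (ℓ : ℕ) [Fact ℓ.Prime],
    𝔐.IsMaximal → (ℓ : integralClosure ℤ ℂ) ∈ 𝔐 → ∀ π : L →* K,
    Function.Surjective π → π.ker ≤ Subgroup.center L → ∀ (μ : π.ker →* ℂˣ)
    (M : Subgroup K) [M.Normal] (p : K →* H), Function.Surjective p →
    (∀ k, p k = 1 ↔ k ∈ M) → ∀ P : Subgroup H, SylAb ℓ P → pCore ℓ K = ⊥ →
    (∀ n < Nat.card K, HQ ℓ n) →
    ∀ ω : L → (integralClosure ℤ ℂ) ⧸ 𝔐, Pos 𝔐 ℓ π μ M ω → ∀ πW : W →* H,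
    Function.Surjective πW →
    ∀ ν : ∀ τ : Finset (Subgroup M), (↥(SL π M τ M) → ℂ) → (πW.ker →* ℂˣ),
    (∀ τ θ, PrU 𝔐 π μ p M ω τ θ → NumW ℓ π p M πW τ θ (ν τ θ)) →
    T2 𝔐 ℓ π μ p M ω πW P ν → ∀ d : ℕ, DKU 𝔐 ℓ d π μ M ω = 0

end Pool.Agent.DPF


end

section

/-!
# EDC: the idempotent of the characters of a given defect vanishes outside the commutator subgroup
-/

namespace Pool.Agent.DPF

open Pool.Agent.DP Pool.Agent.DPC Pool.Agent.DPM Pool.Agent.DPN Pool.Agent.Lib_helper13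
  Representation

namespace EDC

/-- A linear character which separates an element from the commutator subgroup. -/
theorem exists_lin {W : Type} [Group W] [Fintype W] (S : Subgroup W) (s : S)
    (hs : (s : W) ∉ ⁅S, S⁆) : ∃ c : S →* ℂˣ, c s ≠ 1 := by
  have h1 : s ∉ commutator S := by
    intro h
    apply hs
    have h2 : (commutator S).map S.subtype = ⁅S, S⁆ := by
      rw [commutator_def, Subgroup.map_commutator, ← MonoidHom.range_eq_map, Subgroup.range_subtype]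
    rw [← h2]
    exact ⟨s, h, rfl⟩
  have h3 : Abelianization.of s ≠ 1 := by
    intro h
    exact h1 ((QuotientGroup.eq_one_iff s).1 h)
  obtain ⟨χ, hχ⟩ := exists_linChar_ne_one h3
  exact ⟨χ.comp Abelianization.of, hχ⟩

theorem hasDefect_tw {Y : Type*} [Group Y] {ℓ e : ℕ} {κ : Y → ℂ} (c : Y →* ℂˣ)
    (h : HasDefect ℓ κ e) : HasDefect ℓ (fun y => κ y * ((c y : ℂˣ) : ℂ)) e := by
  obtain ⟨n, h1, h2⟩ := h
  refine ⟨n, ?_, h2⟩
  change κ 1 * ((c 1 : ℂˣ) : ℂ) = n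
  rw [map_one, Units.val_one, mul_one, h1]

theorem tw_tw {Y : Type*} [Group Y] (κ : Y → ℂ) (c : Y →* ℂˣ) :
    (fun y => (fun y => κ y * ((c y : ℂˣ) : ℂ)) y * (((c⁻¹ : Y →* ℂˣ) y : ℂˣ) : ℂ)) = κ := by
  funext y
  have h3 : ((c y : ℂˣ) : ℂ) * (((c y)⁻¹ : ℂˣ) : ℂ) = 1 := (c y).mul_inv
  change κ y * ((c y : ℂˣ) : ℂ) * (((c y)⁻¹ : ℂˣ) : ℂ) = κ y
  rw [mul_assoc, h3, mul_one]

end EDC

open _root_.Pool.Agent.DPF.EDC in
theorem EDC_thm : Stmt_EDC := by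
  classical
  intro W _ _ ℓ S e r hr
  by_contra hc
  apply hr
  by_cases hS : r ∈ S
  · obtain ⟨c, hcs⟩ := exists_lin S ⟨r, hS⟩ hc
    have hr' : r⁻¹ ∈ S := S.inv_mem hS
    have key : (∑ κ ∈ irrF S with HasDefect ℓ κ e, κ 1 * ext0 κ r⁻¹) =
        ((c ⟨r⁻¹, hr'⟩ : ℂˣ) : ℂ) * ∑ κ ∈ irrF S with HasDefect ℓ κ e, κ 1 * ext0 κ r⁻¹ := by
      rw [Finset.mul_sum]
      symm
      refine Finset.sum_nbij' (fun κ => fun y => κ y * ((c y : ℂˣ) : ℂ))
        (fun κ => fun y => κ y * (((c⁻¹ : S →* ℂˣ) y : ℂˣ) : ℂ)) ?_ ?_ ?_ ?_ ?_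
      · intro κ hκ
        rw [Finset.mem_filter, mem_irrF] at hκ ⊢
        exact ⟨TWR.isIrr_tw hκ.1 c, hasDefect_tw c hκ.2⟩
      · intro κ hκ
        rw [Finset.mem_filter, mem_irrF] at hκ ⊢
        exact ⟨TWR.isIrr_tw hκ.1 c⁻¹, hasDefect_tw c⁻¹ hκ.2⟩
      · intro κ _
        exact tw_tw κ c
      · intro κ _
        have h5 : (c⁻¹ : S →* ℂˣ)⁻¹ = c := inv_inv c
        have := tw_tw κ c⁻¹
        rw [h5] at this
        exact this
      · intro κ _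
        rw [ext0_of_mem _ hr', ext0_of_mem _ hr']
        change _ = κ 1 * ((c 1 : ℂˣ) : ℂ) * (κ ⟨r⁻¹, hr'⟩ * ((c ⟨r⁻¹, hr'⟩ : ℂˣ) : ℂ))
        rw [map_one, Units.val_one]
        ring
    have hne : ((c ⟨r⁻¹, hr'⟩ : ℂˣ) : ℂ) ≠ 1 := by
      intro h
      apply hcs
      have h1 : c ⟨r⁻¹, hr'⟩ = 1 := Units.ext h
      have h2 : (⟨r⁻¹, hr'⟩ : S) = (⟨r, hS⟩ : S)⁻¹ := rfl
      rw [h2, map_inv, inv_eq_one] at h1
      exact h1
    have h0 : (∑ κ ∈ irrF S with HasDefect ℓ κ e, κ 1 * ext0 κ r⁻¹) = 0 := by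
      by_contra h
      apply hne
      have := key
      nth_rewrite 1 [← one_mul (∑ κ ∈ irrF S with HasDefect ℓ κ e, κ 1 * ext0 κ r⁻¹)] at this
      exact (mul_right_cancel₀ h this).symm
    unfold ed
    rw [h0, zero_div]
  · unfold ed
    rw [Finset.sum_eq_zero, zero_div]
    intro κ _
    rw [ext0_of_not_mem _ (fun h => hS (inv_inv r ▸ S.inv_mem h)), mul_zero]

end Pool.Agent.DPF


end

section

/-!
# FBA: the fibre product as a central extension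
-/

set_option linter.unusedSectionVars false

namespace Pool.Agent.DPF

open Pool.Agent.DP Pool.Agent.DPC Pool.Agent.DPM Pool.Agent.DPN Pool.Agent.Lib_helper13
  Representation
open Pool.Agent.Lib_helper13.Dade (pCore DadeHolds dadeSum)

namespace FBA

section

variable {L K H W : Type} [Group L] [Group K] [Group H] [Group W]

/-- The inverse image of `M` in the fibre product is a direct product. -/
def eB (π : L →* K) (p : K →* H) (M : Subgroup K) (hM : ∀ k, p k = 1 ↔ k ∈ M) (πW : W →* H) :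
    ↥(M.comap π) × πW.ker ≃* ↥(M.comap (piY π p πW)) where
  toFun x := ⟨⟨((x.1 : L), (x.2 : W)), by
    have h1 : p (π (x.1 : L)) = 1 := (hM _).mpr x.1.2
    have h2 : πW (x.2 : W) = 1 := x.2.2
    change p (π (x.1 : L)) = πW (x.2 : W)
    rw [h1, h2]⟩, x.1.2⟩
  invFun y := (⟨((y : fpr (p.comp π) πW) : L × W).1, y.2⟩,
    ⟨((y : fpr (p.comp π) πW) : L × W).2, by
      have h1 : p (π ((y : fpr (p.comp π) πW) : L × W).1) = 1 := (hM _).mpr y.2
      have h2 : p (π ((y : fpr (p.comp π) πW) : L × W).1) =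
        πW ((y : fpr (p.comp π) πW) : L × W).2 := (y : fpr (p.comp π) πW).2
      rw [h1] at h2
      exact h2.symm⟩)
  left_inv _ := rfl
  right_inv _ := rfl
  map_mul' _ _ := rfl

/-- The kernel of the projection is a direct product. -/
def eK (π : L →* K) (p : K →* H) (πW : W →* H) :
    π.ker × πW.ker ≃ (piY π p πW).ker where
  toFun x := ⟨⟨((x.1 : L), (x.2 : W)), by
    have h1 : π (x.1 : L) = 1 := x.1.2
    have h2 : πW (x.2 : W) = 1 := x.2.2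
    change p (π (x.1 : L)) = πW (x.2 : W)
    rw [h1, h2, map_one]⟩, x.1.2⟩
  invFun y := (⟨((y : fpr (p.comp π) πW) : L × W).1, (kerY y.2).1⟩,
    ⟨((y : fpr (p.comp π) πW) : L × W).2, (kerY y.2).2⟩)
  left_inv _ := rfl
  right_inv _ := rfl

theorem conj_iff (π : L →* K) (p : K →* H) (M : Subgroup K) (hM : ∀ k, p k = 1 ↔ k ∈ M)
    (πW : W →* H) (hW : Function.Surjective πW) (a : ↥(M.comap π)) (z : πW.ker)
    (g : ↥(M.comap π)) :
    IsConj ((eB π p M hM πW (a, z) : ↥(M.comap (piY π p πW))) : fpr (p.comp π) πW)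
      ((eB π p M hM πW (g, 1) : ↥(M.comap (piY π p πW))) : fpr (p.comp π) πW) ↔
      z = 1 ∧ IsConj (a : L) (g : L) := by
  constructor
  · intro h
    obtain ⟨c, hc⟩ := isConj_iff.mp h
    have h1 : (c : L × W).1 * (a : L) * ((c : L × W).1)⁻¹ = (g : L) :=
      congrArg (fun x : fpr (p.comp π) πW => (x : L × W).1) hc
    have h2 : (c : L × W).2 * (z : W) * ((c : L × W).2)⁻¹ = 1 :=
      congrArg (fun x : fpr (p.comp π) πW => (x : L × W).2) hc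
    refine ⟨?_, isConj_iff.mpr ⟨_, h1⟩⟩
    apply Subtype.ext
    change (z : W) = 1
    rw [mul_inv_eq_one] at h2
    exact mul_eq_left.mp h2
  · rintro ⟨rfl, h⟩
    obtain ⟨c, hc⟩ := isConj_iff.mp h
    obtain ⟨w, hw⟩ := hW (p (π c))
    refine isConj_iff.mpr ⟨⟨(c, w), ?_⟩, ?_⟩
    · exact hw.symm
    · apply Subtype.ext
      apply Prod.ext
      · exact hc
      · change w * (1 : W) * w⁻¹ = 1
        rw [mul_one, mul_inv_cancel]

end

end FBA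

theorem FBA_thm : Stmt_FBA := by
  intro L K H W _ _ _ _ _ _ _ _ 𝔐 ℓ _ _ _ π hπ hπc μ M _ p hp hM ω πW hW hWc ν
  classical
  refine ⟨?_, ?_, ?_⟩
  · intro k
    obtain ⟨l, rfl⟩ := hπ k
    obtain ⟨w, hw⟩ := hW (p (π l))
    exact ⟨⟨(l, w), hw.symm⟩, rfl⟩
  · intro x hx
    rw [Subgroup.mem_center_iff]
    intro y
    have h1 := Subgroup.mem_center_iff.mp (hπc (kerY hx).1) (y : L × W).1
    have h2 := Subgroup.mem_center_iff.mp (hWc (kerY hx).2) (y : L × W).2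
    exact Subtype.ext (Prod.ext h1 h2)
  · intro hpos θ' hirr hovl hdef hcen
    let e := FBA.eB π p M hM πW
    have hν : ∀ (a : ↥(M.comap π)) (z : πW.ker),
        θ' (e (a, z)) = ((ν z : ℂˣ) : ℂ) * θ' (e (a, 1)) := by
      intro a z
      have hk : ((e (1, z) : ↥(M.comap (piY π p πW))) : fpr (p.comp π) πW) ∈
          (piY π p πW).ker := by
        change π (1 : L) = 1
        exact map_one π
      have h1 := hovl (e (1, z)) (e (a, 1)) hk
      rw [← map_mul] at h1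
      have h2 : ((1, z) * (a, 1) : ↥(M.comap π) × πW.ker) = (a, z) := by
        apply Prod.ext
        · exact one_mul a
        · exact mul_one z
      rw [h2] at h1
      rw [h1]
      have h3 : muY π p πW μ ν ⟨((e (1, z) : ↥(M.comap (piY π p πW))) : fpr (p.comp π) πW),
          hk⟩ = ν z := by
        change μ (1 : π.ker) * ν z = ν z
        rw [map_one, one_mul]
      rw [h3]
    have hirr2 : IsIrr (fun x => θ' (e x)) := hirr.comp_mulEquiv e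
    have hchr : IsChr (fun a : ↥(M.comap π) => θ' (e (a, 1))) :=
      hirr.isChr.comp (e.toMonoidHom.comp (MonoidHom.inl ↥(M.comap π) πW.ker))
    have hsum := hirr2.sum_self
    have hθ : IsIrr (fun a : ↥(M.comap π) => θ' (e (a, 1))) := by
      apply hchr.isIrr
      rw [Fintype.sum_prod_type] at hsum
      have h1 : ∀ a : ↥(M.comap π), ∑ z : πW.ker, θ' (e (a, z)) * θ' (e (a, z)⁻¹) =
          (Nat.card πW.ker : ℂ) * (θ' (e (a, 1)) * θ' (e (a⁻¹, 1))) := by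
        intro a
        have h2 : ∀ z : πW.ker, θ' (e (a, z)) * θ' (e (a, z)⁻¹) =
            θ' (e (a, 1)) * θ' (e (a⁻¹, 1)) := by
          intro z
          have h3 : ((a, z)⁻¹ : ↥(M.comap π) × πW.ker) = (a⁻¹, z⁻¹) := rfl
          rw [h3, hν a z, hν a⁻¹ z⁻¹, map_inv]
          have h4 : ((ν z : ℂˣ) : ℂ) * (((ν z)⁻¹ : ℂˣ) : ℂ) = 1 := by
            rw [← Units.val_mul, mul_inv_cancel, Units.val_one]
          linear_combination (θ' (e (a, 1)) * θ' (e (a⁻¹, 1))) * h4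
        rw [Finset.sum_congr rfl fun z _ => h2 z, Finset.sum_const, Finset.card_univ,
          ← Nat.card_eq_fintype_card, nsmul_eq_mul]
      rw [Finset.sum_congr rfl fun a _ => h1 a, ← Finset.mul_sum, Nat.card_prod,
        Nat.cast_mul, mul_comm (Nat.card ↥(M.comap π) : ℂ)] at hsum
      exact mul_left_cancel₀ natCard_ne_zero hsum
    refine hpos (fun a => θ' (e (a, 1))) hθ ?_ ?_ ?_
    · intro s t h
      have hk : ((e (s, 1) : ↥(M.comap (piY π p πW))) : fpr (p.comp π) πW) ∈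
          (piY π p πW).ker := h
      have h1 := hovl (e (s, 1)) (e (t, 1)) hk
      rw [← map_mul] at h1
      have h2 : ((s, 1) * (t, 1) : ↥(M.comap π) × πW.ker) = (s * t, 1) := by
        apply Prod.ext
        · rfl
        · exact mul_one _
      rw [h2] at h1
      change θ' (e (s * t, 1)) = _
      rw [h1]
      have h3 : muY π p πW μ ν ⟨((e (s, 1) : ↥(M.comap (piY π p πW))) : fpr (p.comp π) πW),
          hk⟩ = μ ⟨s, h⟩ := by
        change μ ⟨s, h⟩ * ν (1 : πW.ker) = μ ⟨s, h⟩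
        rw [map_one, mul_one]
      rw [h3]
    · obtain ⟨n, hn, hn'⟩ := hdef
      refine ⟨n, ?_, ?_⟩
      · change θ' (e (1, 1)) = n
        have h1 : ((1, 1) : ↥(M.comap π) × πW.ker) = 1 := rfl
        rw [h1, map_one]
        exact hn
      · rw [← Nat.card_congr (FBA.eK π p πW), ← Nat.card_congr e.toEquiv, Nat.card_prod,
          Nat.card_prod, padicValNat.mul Nat.card_pos.ne' Nat.card_pos.ne',
          padicValNat.mul Nat.card_pos.ne' Nat.card_pos.ne'] at hn'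
        omega
    · intro g hg
      have h0 := hcen ((e (⟨g, hg⟩, 1) : ↥(M.comap (piY π p πW))) : fpr (p.comp π) πW)
        (e (⟨g, hg⟩, 1)).2
      have h1 : omY 𝔐 π p πW ν ω ((e (⟨g, hg⟩, 1) : ↥(M.comap (piY π p πW))) :
          fpr (p.comp π) πW) = ω g := by
        have h2 : ((((e (⟨g, hg⟩, 1) : ↥(M.comap (piY π p πW))) :
          fpr (p.comp π) πW)) : L × W).2 ∈ πW.ker := (1 : πW.ker).2
        rw [omY, dif_pos h2]
        have h3 : ν ⟨((((e (⟨g, hg⟩, 1) : ↥(M.comap (piY π p πW))) :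
          fpr (p.comp π) πW)) : L × W).2, h2⟩ = 1 := map_one ν
        rw [h3, Units.val_one, red_one, one_mul]
        rfl
      rw [h1] at h0
      rw [← h0, cen, cen]
      congr 1
      rw [wt, wt]
      have h2 : θ' 1 = θ' (e (1, 1)) := by
        have h1 : ((1, 1) : ↥(M.comap π) × πW.ker) = 1 := rfl
        rw [h1, map_one]
      rw [h2]
      congr 1
      rw [← Fintype.sum_equiv e.toEquiv (fun x => conjInd ((e x : ↥(M.comap (piY π p πW))) :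
          fpr (p.comp π) πW) ((e (⟨g, hg⟩, 1) : ↥(M.comap (piY π p πW))) :
          fpr (p.comp π) πW) * θ' (e x)) _ (fun x => rfl), Fintype.sum_prod_type]
      refine Finset.sum_congr rfl fun a _ => ?_
      rw [Finset.sum_eq_single (1 : πW.ker)]
      · congr 1
        refine conjInd_congr ?_
        rw [FBA.conj_iff π p M hM πW hW a 1 ⟨g, hg⟩]
        exact ⟨fun h => ⟨rfl, h⟩, fun h => h.2⟩
      · intro z _ hz
        have h3 : conjInd ((e (a, z) : ↥(M.comap (piY π p πW))) :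
          fpr (p.comp π) πW) ((e (⟨g, hg⟩, 1) : ↥(M.comap (piY π p πW))) :
          fpr (p.comp π) πW) = 0 := by
          rw [conjInd, if_neg]
          intro h
          exact hz ((FBA.conj_iff π p M hM πW hW a z ⟨g, hg⟩).mp h).1
        rw [h3, zero_mul]
      · intro h
        exact absurd (Finset.mem_univ _) h

end Pool.Agent.DPF


end

section

/-!
# Dade's conjecture: minimal normal subgroups which are not simple: statements of the modules,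
part A (general facts)
-/

namespace Pool.Agent.DPG

open Pool.Agent.DP Pool.Agent.DPC Pool.Agent.DPM Pool.Agent.DPN Pool.Agent.DPF
  Pool.Agent.Lib_helper13 Representation
open Pool.Agent.Lib_helper13.Dade (pCore DadeHolds dadeSum)

/-! ### Commutators in wreath products -/

/-- STK: the product of the coordinates of a commutator. -/
def Stmt_STK : Prop :=
  ∀ (G B Δ : Type) [Group G] [Group B] [Fintype Δ] (ψ : G →* Gam (Equiv.Perm Δ) Δ B) (x y : G)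
    (C0 : Subgroup B), C0 ≤ Subgroup.center B →
    (∀ δ δ' : Δ, ∃ g ∈ Subgroup.closure {x, y}, (ψ g).right δ = δ') →
    (ψ (x * y * x⁻¹ * y⁻¹)).right = 1 →
    ∀ hc : ∀ δ, (ψ (x * y * x⁻¹ * y⁻¹)).left δ ∈ C0, ∀ δ0 : Δ,
    ∃ U V : B, (∃ hUV : U * V * U⁻¹ * V⁻¹ ∈ C0, ∀ χ : C0 →* ℂˣ,
        χ ⟨U * V * U⁻¹ * V⁻¹, hUV⟩ = ∏ δ, χ ⟨(ψ (x * y * x⁻¹ * y⁻¹)).left δ, hc δ⟩) ∧
      ∀ g ∈ Subgroup.closure {x, y}, (ψ g).right δ0 = δ0 →
        (ψ g).left δ0 ∈ Subgroup.closure {U, V} ⊔ C0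

/-- PST: passage to the orbits of a Sylow subgroup. -/
def Stmt_PST : Prop :=
  ∀ (W B Ω : Type) [Group W] [Finite W] [Group B] [Finite B] [Fintype Ω] (ℓ : ℕ)
    [Fact ℓ.Prime], ¬ ℓ ∣ Nat.card B → ∀ (ψ : W →* Gam (Equiv.Perm Ω) Ω B) (T P : Subgroup W),
    T.Normal → P.Normal → T ≤ P → (∀ x ∈ P, ∃ k : ℕ, x ^ ℓ ^ k ∈ T) →
    ∀ C0 : Subgroup B, C0 ≤ Subgroup.center B → (∀ t ∈ T, (ψ t).right = 1) →
    ∀ hT : ∀ t ∈ T, ∀ o, (ψ t).left o ∈ C0, (∀ o o' : Ω, ∃ w, (ψ w).right o = o') →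
    ∀ x y e : W, Subgroup.closure {x, y} ⊔ P = ⊤ → e ∈ ⁅P, P⁆ →
    ∀ ht : x * y * x⁻¹ * y⁻¹ * e ∈ T, ∀ o0 : Ω,
    ∃ U V : B, (∃ hUV : U * V * U⁻¹ * V⁻¹ ∈ C0, ∀ χ : C0 →* ℂˣ,
        χ ⟨U * V * U⁻¹ * V⁻¹, hUV⟩ = ∏ o, χ ⟨(ψ (x * y * x⁻¹ * y⁻¹ * e)).left o, hT _ ht o⟩) ∧
      ∀ w : W, (ψ w).right o0 = o0 → (ψ w).left o0 ∈ Subgroup.closure {U, V} ⊔ C0

/-- STO: the product of the coordinates of a commutator is a commutator. -/
def Stmt_STO : Prop :=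
  ∀ (W H W1 H1 Ω : Type) [Group W] [Fintype W] [Group H] [Fintype H] [Group W1] [Fintype W1]
    [Group H1] [Fintype H1] [Fintype Ω] [Nonempty Ω] (ℓ : ℕ) [Fact ℓ.Prime] (π : W →* H),
    Function.Surjective π → ∀ P : Subgroup H, SylAb ℓ P → ∀ π1 : W1 →* H1,
    Function.Surjective π1 → π1.ker ≤ Subgroup.center W1 → ∀ P1 : Subgroup H1, SylAb ℓ P1 →
    ∀ ψ : W →* Gam (Equiv.Perm Ω) Ω W1, (∀ o o' : Ω, ∃ w, (ψ w).right o = o') →
    (∀ o b, ∃ w, (ψ w).right o = o ∧ (ψ w).left o = b) → (∀ z ∈ π.ker, (ψ z).right = 1) →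
    ∀ hk : ∀ z ∈ π.ker, ∀ o, (ψ z).left o ∈ π1.ker,
    ∀ a : π.ker, InS π P (a : W) → ∃ a1 : π1.ker, InS π1 P1 (a1 : W1) ∧
      ∀ χ : π1.ker →* ℂˣ, χ a1 = ∏ o, χ ⟨(ψ (a : W)).left o, hk _ a.2 o⟩

/-- SYT: the quotient of the vertex group. -/
def Stmt_SYT : Prop :=
  ∀ (K K1 H Ω : Type) [Group K] [Finite K] [Group K1] [Finite K1] [Group H] [Finite H]
    [Nonempty Ω] (ℓ : ℕ) [Fact ℓ.Prime] (φ : K →* Gam (Equiv.Perm Ω) Ω K1),
    (∀ o b, ∃ k, (φ k).right o = o ∧ (φ k).left o = b) →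
    ∀ (M : Subgroup K) (M1 : Subgroup K1) [M1.Normal], (∀ m ∈ M, (φ m).right = 1) →
    (∀ m ∈ M, ∀ o, (φ m).left o ∈ M1) → ∀ p : K →* H, Function.Surjective p →
    (∀ k, p k = 1 ↔ k ∈ M) → ∀ P : Subgroup H, SylAb ℓ P →
    ∃ P1 : Subgroup (K1 ⧸ M1), SylAb ℓ P1

/-! ### The amalgam -/

/-- AMA: the twisted group of an invariant character. -/
def Stmt_AMA : Prop :=
  ∀ (Q K1 : Type) [Group Q] [Fintype Q] [Group K1] [Fintype K1] (q : Q →* K1)
    (α : K1 →* MulAut Q) (μQ : q.ker →* ℂˣ), (∀ x a, α (q x) a = x * a * x⁻¹) →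
    (∀ k x, q (α k x) = k * q x * k⁻¹) → (∀ k, ∀ z ∈ q.ker, α k z = z) →
    Function.Injective μQ → ∀ (S : Subgroup K1) (f : Q → ℂ), IrrOn (S.comap q) f → Ov q μQ f →
    (∀ k ∈ S, ∀ x, f (α k x) = f x) →
    ∃ (Λ : Type) (_ : Group Λ) (_ : Fintype Λ) (π2 : Λ →* S) (μ2 : π2.ker →* ℂˣ)
      (j : ↥(S.comap q) →* Λ) (E : Λ → ℂ), Function.Surjective π2 ∧
      π2.ker ≤ Subgroup.center Λ ∧ Function.Injective μ2 ∧ Function.Injective j ∧
      (∀ a : ↥(S.comap q), ((π2 (j a) : S) : K1) = q a) ∧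
      (∀ (y : Λ) (a b : ↥(S.comap q)), (b : Q) = α (π2 y : S) a → j b = y * j a * y⁻¹) ∧
      (∀ (z : q.ker) (a : ↥(S.comap q)) (h : j a ∈ π2.ker), (a : Q) = z → μ2 ⟨j a, h⟩ = μQ z) ∧
      IsChr E ∧ (∀ a : ↥(S.comap q), E (j a) = f a) ∧
      ∀ (z : π2.ker) (x : Λ), E (z * x) = ((μ2 z : ℂˣ) : ℂ) * E x

/-- AMB: the amalgam. -/
def Stmt_AMB : Prop :=
  ∀ (Q K1 Λ : Type) [Group Q] [Fintype Q] [Group K1] [Fintype K1] [Group Λ] [Fintype Λ]
    (q : Q →* K1) (α : K1 →* MulAut Q) (μQ : q.ker →* ℂˣ),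
    (∀ x a, α (q x) a = x * a * x⁻¹) → (∀ k x, q (α k x) = k * q x * k⁻¹) →
    (∀ k, ∀ z ∈ q.ker, α k z = z) → ∀ (S : Subgroup K1) (f : Q → ℂ), IrrOn (S.comap q) f →
    q.range ⊔ S = ⊤ →
    ∀ (π2 : Λ →* S) (μ2 : π2.ker →* ℂˣ) (j : ↥(S.comap q) →* Λ) (E : Λ → ℂ),
      Function.Surjective π2 → π2.ker ≤ Subgroup.center Λ → Function.Injective μ2 →
      Function.Injective j → (∀ a : ↥(S.comap q), ((π2 (j a) : S) : K1) = q a) →
      (∀ (y : Λ) (a b : ↥(S.comap q)), (b : Q) = α (π2 y : S) a → j b = y * j a * y⁻¹) →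
      (∀ (z : q.ker) (a : ↥(S.comap q)) (h : j a ∈ π2.ker), (a : Q) = z →
        μ2 ⟨j a, h⟩ = μQ z) →
      IsChr E → (∀ a : ↥(S.comap q), E (j a) = f a) →
      (∀ (z : π2.ker) (x : Λ), E (z * x) = ((μ2 z : ℂˣ) : ℂ) * E x) →
    ∃ (L1 : Type) (_ : Group L1) (_ : Fintype L1) (π1 : L1 →* K1) (μ1 : π1.ker →* ℂˣ)
      (ι : Q →* L1) (F : L1 → ℂ), LD q α μQ π1 μ1 ι ∧ IrrOn (S.comap π1) F ∧
      (∀ x ∈ S.comap q, F (ι x) = f x) ∧ Ov π1 μ1 F

/-! ### Blocks -/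

/-- CHT: the chains of a central extension. -/
def Stmt_CHT : Prop :=
  ∀ (L K : Type) [Group L] [Fintype L] [Group K] [Fintype K] (ℓ : ℕ) [Fact ℓ.Prime]
    (π : L →* K), Function.Surjective π → π.ker ≤ Subgroup.center L →
    ∀ (N : Subgroup K) (σ : Finset (Subgroup K)), ChN ℓ N σ →
    ∃ (Z : Subgroup ↥(N.comap π)) (τ : Finset (Subgroup ↥(N.comap π))),
      Z.map (N.comap π).subtype ≤ Subgroup.center L ∧ IsPGroup ℓ Z ∧ τ ∈ Ch ℓ Z ∧
      stb (mapCh (N.comap π).subtype τ) = (stb σ).comap π ∧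
      ∀ s : ↥(N.comap π), s ∈ stb τ ↔ π s ∈ stb σ

/-- CHB: products of invariant functions and their restrictions to the stabilizer of a chain. -/
def Stmt_CHB : Prop :=
  ∀ (L K : Type) [Group L] [Fintype L] [Group K] [Fintype K]
    (𝔐 : Ideal (integralClosure ℤ ℂ)) (ℓ : ℕ) [Fact ℓ.Prime], 𝔐.IsMaximal →
    (ℓ : integralClosure ℤ ℂ) ∈ 𝔐 → ∀ π : L →* K, Function.Surjective π →
    π.ker ≤ Subgroup.center L → ∀ (N : Subgroup K) [N.Normal] (σ : Finset (Subgroup K)),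
    ChN ℓ N σ → ∀ f : L → ℂ, IrrOn (AL π N (stb σ)) f → ∀ u v : L → ℤ,
    CIv (N.comap π) u → CIv (N.comap π) v →
    sc 𝔐 f (conv u v) =
      sc 𝔐 f (fun x => ∑ y : L, open Classical in
        if π y ∈ stb σ then u y * v (y⁻¹ * x) else 0)

/-- IRC: characters of the normal subgroup in the block of a character of the stabilizer of a
chain. -/
def Stmt_IRC : Prop :=
  ∀ (L K : Type) [Group L] [Fintype L] [Group K] [Fintype K]
    (𝔐 : Ideal (integralClosure ℤ ℂ)) (ℓ : ℕ) [Fact ℓ.Prime], 𝔐.IsMaximal →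
    (ℓ : integralClosure ℤ ℂ) ∈ 𝔐 → ∀ π : L →* K, Function.Surjective π →
    π.ker ≤ Subgroup.center L → ∀ (μ : π.ker →* ℂˣ) (M : Subgroup K) [M.Normal]
    (σ : Finset (Subgroup K)), ChN ℓ M σ → ∀ G : L → ℂ, IrrOn (AL π M (stb σ)) G → Ov π μ G →
    ∃ χ : L → ℂ, IrrOn (M.comap π) χ ∧ Ov π μ χ ∧
      ∀ u : L → ℤ, CIv (M.comap π) u → SOn (M.comap π : Set L) u → sc 𝔐 χ u = sc 𝔐 G u

/-- SST: the elements of the support stabilize the characters. -/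
def Stmt_SST : Prop :=
  ∀ (L K : Type) [Group L] [Fintype L] [Group K] [Fintype K]
    (𝔐 : Ideal (integralClosure ℤ ℂ)) (ℓ : ℕ) [Fact ℓ.Prime], 𝔐.IsMaximal →
    (ℓ : integralClosure ℤ ℂ) ∈ 𝔐 → ∀ π : L →* K, Function.Surjective π →
    π.ker ≤ Subgroup.center L → ∀ (N : Subgroup K) [N.Normal] (σ : Finset (Subgroup K)),
    ChN ℓ N σ → ∀ f : L → ℂ, IrrOn (AL π N (stb σ)) f → ∀ (x0 : L) (u v : L → ℤ),
    CIv (N.comap π) u → CIv (N.comap π) v → SOn {y | π (x0⁻¹ * y) ∈ N} u →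
    SOn {y | π (x0 * y) ∈ N} v → sc 𝔐 f (conv u v) ≠ 0 →
    (∃ t, π t ∈ stb σ ∧ π (x0⁻¹ * t) ∈ N) ∧
    ∀ t, π t ∈ stb σ → π (x0⁻¹ * t) ∈ N → ∀ x, f (t * x * t⁻¹) = f x

/-- RIX: existence of an extension with prescribed scalars. -/
def Stmt_RIX : Prop :=
  ∀ (L K : Type) [Group L] [Fintype L] [Group K] [Fintype K]
    (𝔐 : Ideal (integralClosure ℤ ℂ)) (ℓ : ℕ) [Fact ℓ.Prime], 𝔐.IsMaximal →
    (ℓ : integralClosure ℤ ℂ) ∈ 𝔐 → ∀ π : L →* K, Function.Surjective π →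
    π.ker ≤ Subgroup.center L → ∀ (N M : Subgroup K) [N.Normal] [M.Normal], N ≤ M →
    ¬ ℓ ∣ N.relIndex M → ∀ (σr : Finset (Subgroup K)) (Fr : L → ℂ), ChN ℓ N σr →
    EF π N M (stb σr) Fr → SUP 𝔐 π N M Fr → ∀ (σ : Finset (Subgroup K)) (f : L → ℂ),
    ChN ℓ N σ → IrrOn (AL π N (stb σ)) f →
    (∀ u : L → ℤ, CIv (N.comap π) u → SOn (N.comap π : Set L) u → sc 𝔐 f u = sc 𝔐 Fr u) →
    M ≤ N ⊔ stb σ ∧ (∀ t, π t ∈ M → π t ∈ stb σ → ∀ x, f (t * x * t⁻¹) = f x) ∧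
    ∃ F : L → ℂ, EF π N M (stb σ) F ∧ (∀ x ∈ AL π N (stb σ), F x = f x) ∧
      ∀ u : L → ℤ, CIv (N.comap π) u → sc 𝔐 F u = sc 𝔐 Fr u

/-- RIY: uniqueness of the extension with prescribed scalars. -/
def Stmt_RIY : Prop :=
  ∀ (L K : Type) [Group L] [Fintype L] [Group K] [Fintype K]
    (𝔐 : Ideal (integralClosure ℤ ℂ)) (ℓ : ℕ) [Fact ℓ.Prime], 𝔐.IsMaximal →
    (ℓ : integralClosure ℤ ℂ) ∈ 𝔐 → ∀ π : L →* K, Function.Surjective π →
    π.ker ≤ Subgroup.center L → ∀ (N M : Subgroup K) [N.Normal] [M.Normal], N ≤ M →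
    ¬ ℓ ∣ N.relIndex M → ∀ (S : Subgroup K) (F F' : L → ℂ), EF π N M S F → EF π N M S F' →
    (∀ x ∈ AL π N S, F x = F' x) → SUP 𝔐 π N M F →
    (∀ u : L → ℤ, CIv (N.comap π) u → sc 𝔐 F u = sc 𝔐 F' u) → F = F'

/-- RIU: the characters of the block are extensions with the same scalars. -/
def Stmt_RIU : Prop :=
  ∀ (L K : Type) [Group L] [Fintype L] [Group K] [Fintype K]
    (𝔐 : Ideal (integralClosure ℤ ℂ)) (ℓ : ℕ) [Fact ℓ.Prime], 𝔐.IsMaximal →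
    (ℓ : integralClosure ℤ ℂ) ∈ 𝔐 → ∀ π : L →* K, Function.Surjective π →
    π.ker ≤ Subgroup.center L → ∀ (N M : Subgroup K) [N.Normal] [M.Normal], N ≤ M →
    ¬ ℓ ∣ N.relIndex M → ∀ (σr : Finset (Subgroup K)) (Fr : L → ℂ), ChN ℓ N σr →
    EF π N M (stb σr) Fr → SUP 𝔐 π N M Fr → ∀ (σ : Finset (Subgroup K)) (G : L → ℂ),
    ChN ℓ N σ → IrrOn (AL π M (stb σ)) G →
    (∀ u : L → ℤ, CIv (M.comap π) u → SOn (M.comap π : Set L) u → sc 𝔐 G u = sc 𝔐 Fr u) →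
    EF π N M (stb σ) G ∧ ∀ u : L → ℤ, CIv (N.comap π) u → sc 𝔐 G u = sc 𝔐 Fr u

/-- BEM: invariant pairs with the same central function on the classes of the group have the same
central function on the classes of the normal subgroup. -/
def Stmt_BEM : Prop :=
  ∀ (L K : Type) [Group L] [Fintype L] [Group K] [Fintype K]
    (𝔐 : Ideal (integralClosure ℤ ℂ)) (ℓ : ℕ) [Fact ℓ.Prime], 𝔐.IsMaximal →
    (ℓ : integralClosure ℤ ℂ) ∈ 𝔐 → ∀ π : L →* K, Function.Surjective π →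
    π.ker ≤ Subgroup.center L → ∀ (μ : π.ker →* ℂˣ) (M : Subgroup K) [M.Normal]
    (ω : L → (integralClosure ℤ ℂ) ⧸ 𝔐) (σ σ' : Finset (Subgroup K)) (G G' : L → ℂ),
    ChN ℓ M σ → ChN ℓ M σ' → BPs 𝔐 π μ M ω (stb σ) G → BPs 𝔐 π μ M ω (stb σ') G' →
    ∀ u : L → ℤ, CIv (M.comap π) u → SOn (M.comap π : Set L) u → sc 𝔐 G u = sc 𝔐 G' u

/-- NPT: the restriction to `N` of a pair. -/
def Stmt_NPT : Prop :=
  ∀ (L K : Type) [Group L] [Fintype L] [Group K] [Fintype K]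
    (𝔐 : Ideal (integralClosure ℤ ℂ)) (ℓ : ℕ) [Fact ℓ.Prime], 𝔐.IsMaximal →
    (ℓ : integralClosure ℤ ℂ) ∈ 𝔐 → ∀ π : L →* K, Function.Surjective π →
    π.ker ≤ Subgroup.center L → ∀ (μ : π.ker →* ℂˣ) (N M : Subgroup K) [N.Normal]
    [M.Normal], N ≤ M → ∀ ω : L → (integralClosure ℤ ℂ) ⧸ 𝔐,
    STB 𝔐 π μ N ω → SPP 𝔐 π μ N M ω → ∀ (σ : Finset (Subgroup K)) (θ : L → ℂ), ChN ℓ N σ →
    BPs 𝔐 π μ M ω (stb σ) θ →
    ∃ (f : L → ℂ) (e : ℕ), e ≠ 0 ∧ IrrOn (AL π N (stb σ)) f ∧ Ov π μ f ∧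
      N ⊔ stb σ = ⊤ ∧ (∀ t, π t ∈ stb σ → ∀ x, f (t * x * t⁻¹) = f x) ∧
      (∀ x ∈ AL π N (stb σ), θ x = e * f x) ∧ (∃ f0, Cvd 𝔐 π μ N ω f0) ∧
      ∀ f0, Cvd 𝔐 π μ N ω f0 → ∀ u : L → ℤ, CIv (N.comap π) u →
        SOn (N.comap π : Set L) u → sc 𝔐 f u = sc 𝔐 f0 u

/-- PSN: no character of the inverse image of `N` covered by `ω` has minimal defect. -/
def Stmt_PSN : Prop :=
  ∀ (L K : Type) [Group L] [Fintype L] [Group K] [Fintype K]
    (𝔐 : Ideal (integralClosure ℤ ℂ)) (ℓ : ℕ) [Fact ℓ.Prime], 𝔐.IsMaximal →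
    (ℓ : integralClosure ℤ ℂ) ∈ 𝔐 → ∀ π : L →* K, Function.Surjective π →
    π.ker ≤ Subgroup.center L → ∀ (μ : π.ker →* ℂˣ) (N M : Subgroup K) [N.Normal]
    [M.Normal], N ≤ M → ¬ ℓ ∣ N.relIndex M → ∀ ω : L → (integralClosure ℤ ℂ) ⧸ 𝔐,
    Pos 𝔐 ℓ π μ M ω → STB 𝔐 π μ N ω → ∀ (σ : Finset (Subgroup K)) (θ : L → ℂ), ChN ℓ M σ →
    BPs 𝔐 π μ M ω (stb σ) θ → ∀ f0, Cvd 𝔐 π μ N ω f0 → ∀ f : L → ℂ, IrrOn (N.comap π) f →
    Ov π μ f → (∀ u : L → ℤ, CIv (N.comap π) u → SOn (N.comap π : Set L) u →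
      sc 𝔐 f u = sc 𝔐 f0 u) →
    ¬ HasDefect ℓ (fun s : ↥(N.comap π) => f s) (padicValNat ℓ (Nat.card π.ker))

/-! ### Pairs in the two forms -/

/-- BGA: the fixed pairs and the extensions in the two forms. -/
def Stmt_BGA : Prop :=
  ∀ (L K H W : Type) [Group L] [Fintype L] [Group K] [Fintype K] [Group H] [Fintype H]
    [Group W] [Fintype W] (𝔐 : Ideal (integralClosure ℤ ℂ)) (π : L →* K),
    Function.Surjective π → ∀ (μ : π.ker →* ℂˣ) (M : Subgroup K) [M.Normal] (p : K →* H),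
    Function.Surjective p → (∀ k, p k = 1 ↔ k ∈ M) → ∀ ω : L → (integralClosure ℤ ℂ) ⧸ 𝔐,
    ∀ (τ : Finset (Subgroup M)) (θ : ↥(SL π M τ M) → ℂ),
    (PrU 𝔐 π μ p M ω τ θ ↔ BPs 𝔐 π μ M ω (stb (mapCh M.subtype τ)) (ext0 θ)) ∧
    ∀ πW : W →* H, Function.Surjective πW → ∀ ν : πW.ker →* ℂˣ,
      PrU 𝔐 π μ p M ω τ θ →
      (EDt π p M πW τ θ ν ↔ EDb π p M πW (stb (mapCh M.subtype τ)) (ext0 θ) ν)

open Classical in
/-- BGB: the relations in the two forms. -/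
def Stmt_BGB : Prop :=
  ∀ (L K H W : Type) [Group L] [Fintype L] [Group K] [Fintype K] [Group H] [Fintype H]
    [Group W] [Fintype W] (𝔐 : Ideal (integralClosure ℤ ℂ)) (ℓ : ℕ) [Fact ℓ.Prime]
    (π : L →* K), Function.Surjective π → ∀ (μ : π.ker →* ℂˣ) (M : Subgroup K) [M.Normal]
    (p : K →* H), Function.Surjective p → (∀ k, p k = 1 ↔ k ∈ M) →
    ∀ ω : L → (integralClosure ℤ ℂ) ⧸ 𝔐, ∀ (πW : W →* H) (P : Subgroup H)
      (ν : Subgroup K → (L → ℂ) → (πW.ker →* ℂˣ)),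
    T2 𝔐 ℓ π μ p M ω πW P (fun τ θ => ν (stb (mapCh M.subtype τ)) (ext0 θ)) ↔
    ∀ a : πW.ker, InS πW P (a : W) → ∀ n : ℕ,
      ∑ σ ∈ Ch ℓ (⊥ : Subgroup K) with ChN ℓ M σ, (-1 : ℂ) ^ σ.card *
        ∑ f ∈ irrOn (AL π M (stb σ)) with BPs 𝔐 π μ M ω (stb σ) f ∧
            HasDefect ℓ (fun s : AL π M (stb σ) => f s) n,
          (Nat.card ↥(M ⊓ stb σ) : ℂ) * ((ν (stb σ) f a : ℂˣ) : ℂ) = 0

/-- CJN: conjugation of pairs. -/
def Stmt_CJN : Prop :=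
  ∀ (L K : Type) [Group L] [Fintype L] [Group K] [Fintype K]
    (𝔐 : Ideal (integralClosure ℤ ℂ)) (π : L →* K), Function.Surjective π →
    π.ker ≤ Subgroup.center L → ∀ (μ : π.ker →* ℂˣ) (M : Subgroup K) [M.Normal]
    (l : L) (S : Subgroup K) (f : L → ℂ),
    (∀ ω : L → (integralClosure ℤ ℂ) ⧸ 𝔐, BPs 𝔐 π μ M ω S f →
      BPs 𝔐 π μ M ω (S.map (MulAut.conj (π l)).toMonoidHom) (cjF l f)) ∧
    (∀ ℓ n : ℕ, HasDefect ℓ (fun s : AL π M S => f s) n →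
      HasDefect ℓ (fun s : AL π M (S.map (MulAut.conj (π l)).toMonoidHom) => cjF l f s) n) ∧
    ∀ (H W : Type) [Group H] [Group W] (p : K →* H) (πW : W →* H) (ν : πW.ker →* ℂˣ),
      p (π l) = 1 → EDb π p M πW S f ν →
      EDb π p M πW (S.map (MulAut.conj (π l)).toMonoidHom) (cjF l f) ν

/-- CJS: conjugation of chains. -/
def Stmt_CJS : Prop :=
  ∀ (G : Type) [Group G] [Fintype G] (ℓ : ℕ) (M : Subgroup G) [M.Normal] (g h : G)
    (σ : Finset (Subgroup G)),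
    cjC (1 : G) σ = σ ∧ cjC (g * h) σ = cjC g (cjC h σ) ∧ (cjC g σ).card = σ.card ∧
    stb (cjC g σ) = (stb σ).map (MulAut.conj g).toMonoidHom ∧
    (ChN ℓ M σ → ChN ℓ M (cjC g σ)) ∧ (g ∈ stb σ → cjC g σ = σ) ∧
    (IsCh ℓ ⊥ σ → cjC g σ = σ → g ∈ stb σ)

/-- PLE: extensions over a larger extension. -/
def Stmt_PLE : Prop :=
  ∀ (L K H W W' : Type) [Group L] [Finite L] [Group K] [Group H] [Group W] [Finite W]
    [Group W'] [Finite W'] (π : L →* K) (p : K →* H) (M : Subgroup K) (πW : W →* H)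
    (h : W' →* W) (S : Subgroup K) (f : L → ℂ) (ν : πW.ker →* ℂˣ),
    EDb π p M πW S f ν → ∀ ν' : (πW.comp h).ker →* ℂˣ,
    (∀ (z : (πW.comp h).ker) (hz : h z ∈ πW.ker), ν' z = ν ⟨h z, hz⟩) →
    EDb π p M (πW.comp h) S f ν'

/-- CNO: counting the elements of orbits. -/
def Stmt_CNO : Prop :=
  ∀ (G ι γ Ω : Type) [Group G] [Fintype G] [Fintype Ω] [Nonempty Ω] (a : G → ι → ι)
    (b : (Ω → G) → γ → γ), (∀ i, a 1 i = i) → (∀ g h i, a (g * h) i = a g (a h i)) →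
    (∀ c, b 1 c = c) → (∀ n m c, b (n * m) c = b n (b m c)) →
    ∀ (D : Finset ι) (C : Finset γ) (Ψ : ι → γ), (∀ g, ∀ i ∈ D, a g i ∈ D) →
    (∀ i ∈ D, ∀ n, b n (Ψ i) ∈ C) → (∀ c ∈ C, ∃ i ∈ D, ∃ n, c = b n (Ψ i)) →
    (∀ i ∈ D, ∀ i' ∈ D, ∀ n, b n (Ψ i) = Ψ i' ↔ ∀ o, a (n o) i = i') →
    ∀ F : γ → ℂ, (∀ c ∈ C, ∀ n, F (b n c) = F c) → ∀ s : ι → ℕ,
    (∀ i ∈ D, s i = Nat.card {g // a g i = i}) →
    ∑ c ∈ C, F c = ∑ i ∈ D, ((Nat.card G : ℂ) / (s i : ℂ)) ^ (Fintype.card Ω - 1) * F (Ψ i)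

end Pool.Agent.DPG


end

section

/-!
# BGB: the relations in the two forms
-/

set_option autoImplicit false

namespace Pool.Agent.DPG

open Pool.Agent.DP Pool.Agent.DPC Pool.Agent.DPM Pool.Agent.DPN Pool.Agent.DPF
  Pool.Agent.Lib_helper13 Representation
open Pool.Agent.Lib_helper13.Dade (pCore DadeHolds dadeSum)

namespace BGB

theorem ext0_coe {G : Type} [Group G] {S : Subgroup G} (θ : S → ℂ) :
    (fun s : S => ext0 θ (s : G)) = θ := by
  funext s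
  rw [ext0_of_mem θ s.2]

theorem ext0_injective {G : Type} [Group G] {S : Subgroup G} :
    Function.Injective (fun θ : S → ℂ => (ext0 θ : G → ℂ)) := by
  intro θ θ' h
  have h1 : (ext0 θ : G → ℂ) = ext0 θ' := h
  rw [← ext0_coe θ, ← ext0_coe θ', h1]

/-- A sum over the characters of `S`, extended by zero. -/
theorem sum_irrOn {G : Type} [Group G] [Fintype G] (S : Subgroup G) (Q : (G → ℂ) → Prop)
    (Q' : (S → ℂ) → Prop) [DecidablePred Q] [DecidablePred Q'] (hQ : ∀ θ, Q (ext0 θ) ↔ Q' θ)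
    (F : (G → ℂ) → ℂ) :
    ∑ f ∈ irrOn S with Q f, F f = ∑ θ ∈ irrF S with Q' θ, F (ext0 θ) := by
  rw [Finset.sum_filter, Finset.sum_filter, irrOn, Finset.sum_image]
  · refine Finset.sum_congr rfl fun θ _ => ?_
    by_cases h : Q' θ
    · rw [if_pos h, if_pos ((hQ θ).2 h)]
    · rw [if_neg h, if_neg fun h' => h ((hQ θ).1 h')]
  · intro θ _ θ' _ h
    exact ext0_injective h

end BGB

open _root_.Pool.Agent.DPG.BGB in
/-- BGB: the relations in the two forms. -/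
theorem BGB_thm (h1 : Stmt_BGA) : Stmt_BGB := by
  classical
  intro L K H W _ _ _ _ _ _ _ _ 𝔐 ℓ _ π hπ μ M _ p hp hpM ω πW P ν
  have key : ∀ (a : πW.ker) (n : ℕ),
      ∑ σ ∈ Ch ℓ (⊥ : Subgroup K) with ChN ℓ M σ, (-1 : ℂ) ^ σ.card *
        ∑ f ∈ irrOn (AL π M (stb σ)) with BPs 𝔐 π μ M ω (stb σ) f ∧
            HasDefect ℓ (fun s : AL π M (stb σ) => f s) n,
          (Nat.card ↥(M ⊓ stb σ) : ℂ) * ((ν (stb σ) f a : ℂˣ) : ℂ) =
      ∑ τ ∈ Ch ℓ (⊥ : Subgroup M), (-1 : ℂ) ^ τ.card *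
        ∑ θ ∈ irrF (SL π M τ M) with PrU 𝔐 π μ p M ω τ θ ∧ HasDefect ℓ θ n,
          (Nat.card ↥(M ⊓ stb (mapCh M.subtype τ)) : ℂ) *
            ((ν (stb (mapCh M.subtype τ)) (ext0 θ) a : ℂˣ) : ℂ) := by
    intro a n
    have hb : (⊥ : Subgroup K) = (⊥ : Subgroup M).map M.subtype := Subgroup.map_bot _ |>.symm
    have hf : (Ch ℓ (⊥ : Subgroup K)).filter (fun σ => ChN ℓ M σ) =
        (Ch ℓ ((⊥ : Subgroup M).map M.subtype)).filter
          (fun σ => ∀ D ∈ σ, D ≤ M.subtype.range) := by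
      rw [← hb]
      refine Finset.filter_congr fun σ hσ => ?_
      rw [Subgroup.range_subtype]
      constructor
      · intro h
        exact h.2
      · intro h
        exact ⟨mem_Ch.1 hσ, h⟩
    rw [hf, sum_Ch_range (i := M.subtype) M.subtype_injective ℓ (⊥ : Subgroup M)]
    refine Finset.sum_congr rfl fun τ hτ => ?_
    rw [card_mapCh (i := M.subtype) M.subtype_injective]
    congr 1
    refine sum_irrOn (AL π M (stb (mapCh M.subtype τ))) _ _ (fun θ => ?_) _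
    rw [ext0_coe, (h1 L K H W 𝔐 π hπ μ M p hp hpM ω τ θ).1]
  constructor
  · intro h a ha n
    rw [key]
    exact h a ha n
  · intro h a ha n
    rw [← key]
    exact h a ha n

end Pool.Agent.DPG


end
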