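import Mathlib
import Pool.Agent.DAM.C08
import Pool.Agent.DAM.C11

/-! Parts: DP.IND, DP.PERD, DP.PERDR, DPB.BRR, DPB.KAH -/

section

/-!
# Elementary properties of induced functions
-/

namespace Pool.Agent.DP

open Pool.Agent.Lib_helper13

namespace IND

variable {Y : Type*} [Group Y] [Fintype Y] (S : Subgroup Y)

theorem sum_sub [Fintype S] (F : Y → ℂ) (ψ : S → ℂ) :
    ∑ s : S, F s * ψ s = ∑ y : Y, F y * ext0 ψ y := by
  classical
  have h1 : ∑ y : Y, F y * ext0 ψ y =
      ∑ y ∈ Finset.univ.filter (fun y : Y => y ∈ S), F y * ext0 ψ y := by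
    symm
    apply Finset.sum_subset (Finset.subset_univ _)
    intro y _ hy
    have h2 : y ∉ S := by simpa using hy
    rw [ext0_of_not_mem ψ h2, mul_zero]
  rw [h1]
  refine Finset.sum_bij (fun (s : S) _ => (s : Y)) ?_ ?_ ?_ ?_
  · intro s _
    simp
  · intro a _ b _ h
    exact Subtype.ext h
  · intro b hb
    have h2 : b ∈ S := by simpa using hb
    exact ⟨⟨b, h2⟩, Finset.mem_univ _, rfl⟩
  · intro s _
    rw [ext0_of_mem ψ s.2]

theorem indc_one (ψ : S → ℂ) : indc S ψ 1 = (Nat.card Y : ℂ) * ψ 1 / Nat.card S := by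
  have h1 : ∀ z : Y, ext0 ψ (z⁻¹ * 1 * z) = ψ 1 := by
    intro z
    have h2 : z⁻¹ * 1 * z = 1 := by group
    rw [h2, ext0_of_mem ψ S.one_mem]
    rfl
  rw [indc]
  simp only [h1]
  rw [Finset.sum_const, Finset.card_univ, nsmul_eq_mul, Nat.card_eq_fintype_card (α := Y)]

theorem indc_conj (ψ : S → ℂ) (g x : Y) : indc S ψ (g * x * g⁻¹) = indc S ψ x := by
  rw [indc, indc]
  congr 1
  refine Fintype.sum_equiv (Equiv.mulLeft g⁻¹) _ _ ?_
  intro z
  congr 1
  simp only [Equiv.coe_mulLeft]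
  group

theorem sum_indc (ψ : S → ℂ) (F : Y → ℂ) (hF : ∀ g x, F (g * x * g⁻¹) = F x) :
    ∑ y : Y, F y * indc S ψ y = (Nat.card Y : ℂ) * (∑ y : Y, F y * ext0 ψ y) / Nat.card S := by
  have h1 : ∀ y : Y, F y * indc S ψ y =
      (∑ z : Y, F y * ext0 ψ (z⁻¹ * y * z)) / Nat.card S := by
    intro y
    rw [indc, mul_div_assoc', Finset.mul_sum]
  simp only [h1]
  rw [← Finset.sum_div, Finset.sum_comm]
  congr 1
  have h2 : ∀ z : Y, ∑ y : Y, F y * ext0 ψ (z⁻¹ * y * z) = ∑ y : Y, F y * ext0 ψ y := by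
    intro z
    refine Fintype.sum_equiv (MulAut.conj z⁻¹).toEquiv _ _ ?_
    intro y
    have h3 : (MulAut.conj z⁻¹).toEquiv y = z⁻¹ * y * z := by
      simp
    rw [h3]
    have h4 := hF z⁻¹ y
    rw [inv_inv] at h4
    rw [h4]
  simp only [h2]
  rw [Finset.sum_const, Finset.card_univ, nsmul_eq_mul, Nat.card_eq_fintype_card (α := Y)]

end IND

open _root_.Pool.Agent.DP.IND in
/-- IND: elementary properties of induced functions. -/
theorem IND_thm : Stmt_IND := by
  intro Y _ _ S ψ
  have hS : (Nat.card S : ℂ) ≠ 0 := natCard_ne_zero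
  have hY : (Nat.card Y : ℂ) ≠ 0 := natCard_ne_zero
  refine ⟨?_, ?_, ?_, ?_⟩
  · rw [indc_one, div_mul_cancel₀ _ hS]
  · exact fun g x => indc_conj S ψ g x
  · intro χ hχ
    have hF : ∀ g x, (fun y : Y => χ y⁻¹) (g * x * g⁻¹) = (fun y : Y => χ y⁻¹) x := by
      intro g x
      have h1 : (g * x * g⁻¹)⁻¹ = g * x⁻¹ * g⁻¹ := by group
      simp only [h1]
      exact hχ g x⁻¹
    have h2 := sum_indc S ψ (fun y => χ y⁻¹) hF
    have h3 := sum_sub S (fun y => χ y⁻¹) ψ
    rw [ip, ip]
    have h4 : ∑ g : Y, indc S ψ g * χ g⁻¹ = ∑ y : Y, χ y⁻¹ * indc S ψ y :=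
      Finset.sum_congr rfl (fun y _ => mul_comm _ _)
    have h5 : ∑ s : S, ψ s * χ ((s⁻¹ : S) : Y) = ∑ s : S, χ ((s : Y)⁻¹) * ψ s :=
      Finset.sum_congr rfl (fun y _ => mul_comm _ _)
    rw [h4, h5, h2, h3]
    field_simp
  · intro hψ f hf
    rw [wt, wt, sum_indc S ψ f hf, indc_one, sum_sub S f ψ]
    field_simp

end Pool.Agent.DP


end

section

/-!
# Module PERD: the count for one character of the base group
-/

namespace Pool.Agent.DP.PERD

open Pool.Agent.Lib_helper13 Representation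

/-- Arithmetic of defects. -/
theorem val_prod {ι : Type*} (ℓ : ℕ) [Fact ℓ.Prime] (s : Finset ι) (f : ι → ℕ)
    (hf : ∀ i ∈ s, f i ≠ 0) :
    padicValNat ℓ (∏ i ∈ s, f i) = ∑ i ∈ s, padicValNat ℓ (f i) := by
  classical
  induction s using Finset.induction_on with
  | empty => simp
  | insert a s ha ih =>
    rw [Finset.prod_insert ha, Finset.sum_insert ha, padicValNat.mul (hf a (by simp)) ?_, ih]
    · intro i hi
      exact hf i (by simp [hi])
    · rw [Finset.prod_ne_zero_iff]
      intro i hi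
      exact hf i (by simp [hi])

end Pool.Agent.DP.PERD

namespace Pool.Agent.DP

open Pool.Agent.Lib_helper13 Representation

theorem PERD_thm (h1 : Stmt_PERA) (h2 : Stmt_PERC) (h3 : Stmt_IND) : Stmt_PERD := by
  classical
  intro K O G X _ _ _ _ _ _ _ _ 𝔐 ℓ _ d i ω τ θ hτ hθ
  have h2' := h2 K O G 𝔐 ℓ τ θ hτ hθ
  obtain ⟨-, -, hcard, -⟩ := h1 K O G ℓ τ θ hτ hθ
  generalize inert (cT K τ) (fun a => ∏ o, θ o ((a : O → G) o)) = I at h2' hcard ⊢
  obtain ⟨S', θ', m, M, E, hSD, hE, hext, hwt⟩ := h2'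
  refine ⟨S', θ', m, M, E, hSD, hE, hext, ?_⟩
  haveI : Fintype K := Fintype.ofFinite K
  -- degrees of the characters of the coordinates
  have hdeg : ∀ o, ∃ n : ℕ, 0 < n ∧ θ o 1 = n := by
    intro o
    obtain ⟨n, hn, hn'⟩ := (hθ o).1.exists_degree
    exact ⟨n, hn, hn'⟩
  choose n hn0 hn using hdeg
  have hdvd : ∀ o, n o ∣ Nat.card (stb (comp τ o)) := fun o => (hθ o).1.degree_dvd (hn o)
  have hE1 : E 1 = ((∏ o, n o : ℕ) : ℂ) := by
    have h4 := hext 1 (by rw [map_one]; exact I.one_mem)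
    have h5 : (⟨jT K τ 1, by rw [map_one]; exact I.one_mem⟩ : I) = 1 := by
      apply Subtype.ext
      exact map_one _
    rw [h5] at h4
    rw [h4]
    push_cast
    exact Finset.prod_congr rfl fun o _ => hn o
  have hP0 : (∏ o, n o : ℕ) ≠ 0 := by
    rw [Finset.prod_ne_zero_iff]
    intro o _
    exact (hn0 o).ne'
  -- the value at the identity of the product
  have hf1 : ∀ η : Kp K (prt τ θ) → ℂ,
      E 1 * ext0 η (pT K τ ((1 : I) : YT K τ)) = ((∏ o, n o : ℕ) : ℂ) * η 1 := by
    intro η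
    have h4 : pT K τ ((1 : I) : YT K τ) = 1 := by
      rw [Subgroup.coe_one, map_one]
    rw [h4, hE1, ext0_of_mem η (Kp K (prt τ θ)).one_mem]
    rfl
  -- the central functions
  have hcen : ∀ η : Kp K (prt τ θ) → ℂ, IsIrr η → ∀ g,
      cen 𝔐 (i.comp (YT K τ).subtype) (indc I (fun s => E s * ext0 η (pT K τ s))) g =
      red 𝔐 (wt η (fun k => aS S' θ' m M (MulAction.toPerm (k : K))
        (fun n => conjInd (i ⟨n, (k : K)⟩) g))) := by
    intro η hη g
    obtain ⟨-, -, -, h4⟩ := h3 (YT K τ) I (fun s => E s * ext0 η (pT K τ s))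
    have h5 : (fun s : I => E s * ext0 η (pT K τ s)) 1 ≠ 0 := by
      change E 1 * ext0 η (pT K τ ((1 : I) : YT K τ)) ≠ 0
      rw [hf1]
      exact mul_ne_zero (by exact_mod_cast hP0) hη.one_ne_zero
    have h6 := h4 h5 (fun y => conjInd ((i.comp (YT K τ).subtype) y) g) (by
      intro a x
      simp only [map_mul, map_inv]
      exact conjInd_conj _ _ _)
    rw [cen, h6]
    have h7 := hwt η hη (fun x => conjInd (i x) g) (by
      intro a x
      simp only [map_mul, map_inv]
      exact conjInd_conj _ _ _)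
    rw [← h7]
    rfl
  -- the defects
  have hdef : ∀ η : Kp K (prt τ θ) → ℂ, IsIrr η →
      (HasDefect ℓ (indc I (fun s => E s * ext0 η (pT K τ s))) d ↔
        ∃ d', HasDefect ℓ η d' ∧ ∑ o, df ℓ (stb (comp τ o)) (θ o) + d' = d) := by
    intro η hη
    obtain ⟨k, hk0, hk⟩ := hη.exists_degree
    have hkd : k ∣ Nat.card (Kp K (prt τ θ)) := hη.degree_dvd hk
    obtain ⟨h4, -, -, -⟩ := h3 (YT K τ) I (fun s => E s * ext0 η (pT K τ s))
    rw [hf1, hk] at h4
    obtain ⟨q, hq⟩ := Subgroup.card_subgroup_dvd_card I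
    have hIc : Nat.card I ≠ 0 := Nat.card_pos.ne'
    have hYc : Nat.card (YT K τ) ≠ 0 := Nat.card_pos.ne'
    have hq0 : q ≠ 0 := by
      rintro rfl
      exact hYc (by rw [hq, mul_zero])
    have h5 : indc I (fun s => E s * ext0 η (pT K τ s)) 1 = ((q * ((∏ o, n o) * k) : ℕ) : ℂ) := by
      have h6 : (Nat.card I : ℂ) ≠ 0 := by exact_mod_cast hIc
      apply mul_right_cancel₀ h6
      rw [h4, hq]
      push_cast
      ring
    have hvY : padicValNat ℓ (Nat.card (YT K τ)) = padicValNat ℓ (Nat.card I) +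
        padicValNat ℓ q := by
      rw [hq, padicValNat.mul hIc hq0]
    have hSc : ∀ o, Nat.card (stb (comp τ o)) ≠ 0 := fun o => Nat.card_pos.ne'
    have hvI : padicValNat ℓ (Nat.card I) = padicValNat ℓ (Nat.card (Kp K (prt τ θ))) +
        ∑ o, padicValNat ℓ (Nat.card (stb (comp τ o))) := by
      rw [hcard, padicValNat.mul Nat.card_pos.ne' (by
        rw [Finset.prod_ne_zero_iff]; intro o _; exact hSc o), PERD.val_prod ℓ _ _ (fun o _ => hSc o)]
    have hvn : padicValNat ℓ (q * ((∏ o, n o) * k)) = padicValNat ℓ q +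
        (∑ o, padicValNat ℓ (n o) + padicValNat ℓ k) := by
      rw [padicValNat.mul hq0 (mul_ne_zero hP0 hk0.ne'), padicValNat.mul hP0 hk0.ne',
        PERD.val_prod ℓ _ _ (fun o _ => (hn0 o).ne')]
    have hdfo : ∀ o, df ℓ (stb (comp τ o)) (θ o) + padicValNat ℓ (n o) =
        padicValNat ℓ (Nat.card (stb (comp τ o))) := by
      intro o
      have h6 : ⌊(θ o 1).re⌋₊ = n o := by
        rw [hn o]
        simp
      rw [df, h6]
      have h7 : padicValNat ℓ (n o) ≤ padicValNat ℓ (Nat.card (stb (comp τ o))) :=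
        (padicValNat_dvd_iff_le (hSc o)).1 (dvd_trans pow_padicValNat_dvd (hdvd o))
      omega
    have hsum : ∑ o, df ℓ (stb (comp τ o)) (θ o) + ∑ o, padicValNat ℓ (n o) =
        ∑ o, padicValNat ℓ (Nat.card (stb (comp τ o))) := by
      rw [← Finset.sum_add_distrib]
      exact Finset.sum_congr rfl fun o _ => hdfo o
    have hkle : padicValNat ℓ k ≤ padicValNat ℓ (Nat.card (Kp K (prt τ θ))) :=
      (padicValNat_dvd_iff_le Nat.card_pos.ne').1 (dvd_trans pow_padicValNat_dvd hkd)
    constructor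
    · rintro ⟨N, hN, hN'⟩
      have h6 : N = q * ((∏ o, n o) * k) := by
        rw [h5] at hN
        exact_mod_cast hN.symm
      rw [h6, hvY, hvI, hvn] at hN'
      refine ⟨padicValNat ℓ (Nat.card (Kp K (prt τ θ))) - padicValNat ℓ k,
        ⟨k, hk, by omega⟩, by omega⟩
    · rintro ⟨d', ⟨k', hk', hv⟩, hd⟩
      have h6 : k' = k := by
        rw [hk] at hk'
        exact_mod_cast hk'.symm
      subst h6
      exact ⟨q * ((∏ o, n o) * k'), h5, by rw [hvY, hvI, hvn]; omega⟩
  rw [NN, hcard]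
  have hiff : ∀ η : Kp K (prt τ θ) → ℂ,
      (IsIrr η ∧ (HasDefect ℓ (indc I (fun s => E s * ext0 η (pT K τ s))) d ∧
        ∀ g, cen 𝔐 (i.comp (YT K τ).subtype)
          (indc I (fun s => E s * ext0 η (pT K τ s))) g = ω g)) ↔
      (IsIrr η ∧ (∃ d', HasDefect ℓ η d' ∧ ∑ o, df ℓ (stb (comp τ o)) (θ o) + d' = d) ∧
        ∀ g, red 𝔐 (wt η (fun k => aS S' θ' m M (MulAction.toPerm (k : K))
          (fun n => conjInd (i ⟨n, (k : K)⟩) g))) = ω g) := by
    intro η
    constructor
    · rintro ⟨hη, ha, hb⟩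
      exact ⟨hη, (hdef η hη).1 ha, fun g => by rw [← hcen η hη g]; exact hb g⟩
    · rintro ⟨hη, ha, hb⟩
      exact ⟨hη, (hdef η hη).2 ha, fun g => by rw [hcen η hη g]; exact hb g⟩
  rw [Nat.card_congr (Equiv.subtypeEquivRight hiff)]
  push_cast
  ring

end Pool.Agent.DP


end

section

/-!
# Module PERDR: the count for one character of the base group
-/

namespace Pool.Agent.DP

open Pool.Agent.Lib_helper13 Representation

theorem PERDR_thm (h1 : Stmt_PERAR) (h2 : Stmt_PERCR) : Stmt_PERDR := by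
  classical
  intro O G B C Y K X _ _ _ _ _ _ _ _ _ _ _ _ 𝔐 ℓ _ ι κ ρ hL j p φ h τ hτ θ hθ r t g S f m M
    hstd
  have h3 : Stmt_IND := IND_thm
  have h2' := h2 O G B C Y K ℓ ι κ ρ hL j p φ h τ hτ θ hθ r t g S f m M hstd
  obtain ⟨-, -, -, hcard, -⟩ := h1 O G B C Y K ℓ ι κ ρ hL j p φ h τ hτ θ hθ
  generalize inert (cS h.cl τ) (fun a => ∏ o, θ o ((a : O → G) o)) = I at h2' hcard ⊢
  obtain ⟨-, E, hE, hext, hwt⟩ := h2'
  refine ⟨E, hE, hext, ?_⟩
  intro d i ω
  have : Fintype K := Fintype.ofFinite K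
  -- degrees of the characters of the coordinates
  have hdeg : ∀ o, ∃ n : ℕ, 0 < n ∧ θ o 1 = n := by
    intro o
    obtain ⟨n, hn, hn'⟩ := (hθ o).1.exists_degree
    exact ⟨n, hn, hn'⟩
  choose n hn0 hn using hdeg
  have hdvd : ∀ o, n o ∣ Nat.card (stb (comp τ o)) := fun o => (hθ o).1.degree_dvd (hn o)
  have hE1 : E 1 = ((∏ o, n o : ℕ) : ℂ) := by
    have h4 := hext 1 (by rw [map_one]; exact I.one_mem)
    have h5 : (⟨jS h.cl τ 1, by rw [map_one]; exact I.one_mem⟩ : I) = 1 := by
      apply Subtype.ext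
      exact map_one _
    rw [h5] at h4
    rw [h4]
    push_cast
    exact Finset.prod_congr rfl fun o _ => hn o
  have hP0 : (∏ o, n o : ℕ) ≠ 0 := by
    rw [Finset.prod_ne_zero_iff]
    intro o _
    exact (hn0 o).ne'
  -- the value at the identity of the product
  have hf1 : ∀ η : KB κ p φ τ θ → ℂ,
      E 1 * ext0 η (pS p j τ ((1 : I) : YS j τ)) = ((∏ o, n o : ℕ) : ℂ) * η 1 := by
    intro η
    have h4 : pS p j τ ((1 : I) : YS j τ) = 1 := by
      rw [Subgroup.coe_one, map_one]
    rw [h4, hE1, ext0_of_mem η (KB κ p φ τ θ).one_mem]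
    rfl
  -- the central functions
  have hcen : ∀ η : KB κ p φ τ θ → ℂ, IsIrr η → ∀ x,
      cen 𝔐 (i.comp (YS j τ).subtype) (indc I (fun s => E s * ext0 η (pS p j τ s))) x =
      red 𝔐 (wt η (fun k => AS p φ g S f m M (k : K) (fun y => conjInd (i y) x))) := by
    intro η hη x
    obtain ⟨-, -, -, h4⟩ := h3 (YS j τ) I (fun s => E s * ext0 η (pS p j τ s))
    have h5 : (fun s : I => E s * ext0 η (pS p j τ s)) 1 ≠ 0 := by
      change E 1 * ext0 η (pS p j τ ((1 : I) : YS j τ)) ≠ 0
      rw [hf1]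
      exact mul_ne_zero (by exact_mod_cast hP0) hη.one_ne_zero
    have h6 := h4 h5 (fun y => conjInd ((i.comp (YS j τ).subtype) y) x) (by
      intro a y
      simp only [map_mul, map_inv]
      exact conjInd_conj _ _ _)
    rw [cen, h6]
    have h7 := hwt η hη (fun y => conjInd (i y) x) (by
      intro a y
      simp only [map_mul, map_inv]
      exact conjInd_conj _ _ _)
    rw [← h7]
    rfl
  -- the defects
  have hdef : ∀ η : KB κ p φ τ θ → ℂ, IsIrr η →
      (HasDefect ℓ (indc I (fun s => E s * ext0 η (pS p j τ s))) d ↔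
        ∃ d', HasDefect ℓ η d' ∧ ∑ o, df ℓ (stb (comp τ o)) (θ o) + d' = d) := by
    intro η hη
    obtain ⟨k, hk0, hk⟩ := hη.exists_degree
    have hkd : k ∣ Nat.card (KB κ p φ τ θ) := hη.degree_dvd hk
    obtain ⟨h4, -, -, -⟩ := h3 (YS j τ) I (fun s => E s * ext0 η (pS p j τ s))
    rw [hf1, hk] at h4
    obtain ⟨q, hq⟩ := Subgroup.card_subgroup_dvd_card I
    have hIc : Nat.card I ≠ 0 := Nat.card_pos.ne'
    have hYc : Nat.card (YS j τ) ≠ 0 := Nat.card_pos.ne'
    have hq0 : q ≠ 0 := by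
      rintro rfl
      exact hYc (by rw [hq, mul_zero])
    have h5 : indc I (fun s => E s * ext0 η (pS p j τ s)) 1 = ((q * ((∏ o, n o) * k) : ℕ) : ℂ) := by
      have h6 : (Nat.card I : ℂ) ≠ 0 := by exact_mod_cast hIc
      apply mul_right_cancel₀ h6
      rw [h4, hq]
      push_cast
      ring
    have hvY : padicValNat ℓ (Nat.card (YS j τ)) = padicValNat ℓ (Nat.card I) +
        padicValNat ℓ q := by
      rw [hq, padicValNat.mul hIc hq0]
    have hSc : ∀ o, Nat.card (stb (comp τ o)) ≠ 0 := fun o => Nat.card_pos.ne'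
    have hvI : padicValNat ℓ (Nat.card I) = padicValNat ℓ (Nat.card (KB κ p φ τ θ)) +
        ∑ o, padicValNat ℓ (Nat.card (stb (comp τ o))) := by
      rw [hcard, padicValNat.mul Nat.card_pos.ne' (by
        rw [Finset.prod_ne_zero_iff]; intro o _; exact hSc o), PERD.val_prod ℓ _ _ (fun o _ => hSc o)]
    have hvn : padicValNat ℓ (q * ((∏ o, n o) * k)) = padicValNat ℓ q +
        (∑ o, padicValNat ℓ (n o) + padicValNat ℓ k) := by
      rw [padicValNat.mul hq0 (mul_ne_zero hP0 hk0.ne'), padicValNat.mul hP0 hk0.ne',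
        PERD.val_prod ℓ _ _ (fun o _ => (hn0 o).ne')]
    have hdfo : ∀ o, df ℓ (stb (comp τ o)) (θ o) + padicValNat ℓ (n o) =
        padicValNat ℓ (Nat.card (stb (comp τ o))) := by
      intro o
      have h6 : ⌊(θ o 1).re⌋₊ = n o := by
        rw [hn o]
        simp
      rw [df, h6]
      have h7 : padicValNat ℓ (n o) ≤ padicValNat ℓ (Nat.card (stb (comp τ o))) :=
        (padicValNat_dvd_iff_le (hSc o)).1 (dvd_trans pow_padicValNat_dvd (hdvd o))
      omega
    have hsum : ∑ o, df ℓ (stb (comp τ o)) (θ o) + ∑ o, padicValNat ℓ (n o) =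
        ∑ o, padicValNat ℓ (Nat.card (stb (comp τ o))) := by
      rw [← Finset.sum_add_distrib]
      exact Finset.sum_congr rfl fun o _ => hdfo o
    have hkle : padicValNat ℓ k ≤ padicValNat ℓ (Nat.card (KB κ p φ τ θ)) :=
      (padicValNat_dvd_iff_le Nat.card_pos.ne').1 (dvd_trans pow_padicValNat_dvd hkd)
    constructor
    · rintro ⟨N, hN, hN'⟩
      have h6 : N = q * ((∏ o, n o) * k) := by
        rw [h5] at hN
        exact_mod_cast hN.symm
      rw [h6, hvY, hvI, hvn] at hN'
      refine ⟨padicValNat ℓ (Nat.card (KB κ p φ τ θ)) - padicValNat ℓ k,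
        ⟨k, hk, by omega⟩, by omega⟩
    · rintro ⟨d', ⟨k', hk', hv⟩, hd⟩
      have h6 : k' = k := by
        rw [hk] at hk'
        exact_mod_cast hk'.symm
      subst h6
      exact ⟨q * ((∏ o, n o) * k'), h5, by rw [hvY, hvI, hvn]; omega⟩
  rw [NNR, hcard]
  have hiff : ∀ η : KB κ p φ τ θ → ℂ,
      (IsIrr η ∧ (HasDefect ℓ (indc I (fun s => E s * ext0 η (pS p j τ s))) d ∧
        ∀ x, cen 𝔐 (i.comp (YS j τ).subtype)
          (indc I (fun s => E s * ext0 η (pS p j τ s))) x = ω x)) ↔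
      (IsIrr η ∧ (∃ d', HasDefect ℓ η d' ∧ ∑ o, df ℓ (stb (comp τ o)) (θ o) + d' = d) ∧
        ∀ x, red 𝔐 (wt η (fun k => AS p φ g S f m M (k : K) (fun y => conjInd (i y) x))) =
          ω x) := by
    intro η
    constructor
    · rintro ⟨hη, ha, hb⟩
      exact ⟨hη, (hdef η hη).1 ha, fun x => by rw [← hcen η hη x]; exact hb x⟩
    · rintro ⟨hη, ha, hb⟩
      exact ⟨hη, (hdef η hη).2 ha, fun x => by rw [hcen η hη x]; exact hb x⟩
  rw [Nat.card_congr (Equiv.subtypeEquivRight hiff)]
  push_cast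
  ring

end Pool.Agent.DP


end

section

/-!
# BRR: trace functions depend only on the `ℓ'`-parts
-/

namespace Pool.Agent.DPB

open Pool.Agent.Lib_helper13 Representation

namespace BRR

open Polynomial in
theorem charpoly_pow {n : Type*} [DecidableEq n] [Fintype n] {K : Type*} [Field K] (p : ℕ)
    [Fact p.Prime] [CharP K p] (M : Matrix n n K) :
    (M ^ p).charpoly = M.charpoly.map (frobenius K p) := by
  have hp : 0 < p := (Fact.out : p.Prime).pos
  rcases isEmpty_or_nonempty n with h | h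
  · simp [Matrix.charpoly]
  apply expand_injective hp
  rw [← map_expand, map_frobenius_expand]
  unfold Matrix.charpoly
  rw [AlgHom.map_det, ← Matrix.coe_detMonoidHom,
    ← (Matrix.detMonoidHom : Matrix n n K[X] →* K[X]).map_pow]
  apply congr_arg Matrix.det
  refine matPolyEquiv.injective ?_
  rw [map_pow, Matrix.matPolyEquiv_charmatrix, sub_pow_char_of_commute, ← C_pow]
  · exact (id (matPolyEquiv_eq_X_pow_sub_C p M) :)
  · exact (C M).commute_X

theorem trace_pow {n : Type*} [DecidableEq n] [Fintype n] {K : Type*} [Field K] (p : ℕ)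
    [Fact p.Prime] [CharP K p] (M : Matrix n n K) : (M ^ p).trace = M.trace ^ p := by
  rcases isEmpty_or_nonempty n with h | h
  · have hp : p ≠ 0 := (Fact.out : p.Prime).ne_zero
    simp [Matrix.trace, hp]
  · rw [Matrix.trace_eq_neg_charpoly_coeff, Matrix.trace_eq_neg_charpoly_coeff, charpoly_pow p,
      Polynomial.coeff_map, ← map_neg, frobenius_def]

theorem trace_pow' {K V : Type*} [Field K] (p : ℕ) [Fact p.Prime] [CharP K p] [AddCommGroup V]
    [Module K V] [Module.Finite K V] (f : Module.End K V) :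
    LinearMap.trace K V (f ^ p) = LinearMap.trace K V f ^ p := by
  classical
  have b := Module.Free.chooseBasis K V
  rw [LinearMap.trace_eq_matrix_trace K b, LinearMap.trace_eq_matrix_trace K b,
    ← LinearMap.toMatrix_pow, trace_pow]

theorem trace_pow_pow {K V : Type*} [Field K] (p : ℕ) [Fact p.Prime] [CharP K p] [AddCommGroup V]
    [Module K V] [Module.Finite K V] (f : Module.End K V) (k : ℕ) :
    LinearMap.trace K V (f ^ p ^ k) = LinearMap.trace K V f ^ p ^ k := by
  induction k with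
  | zero => simp
  | succ k ih => rw [pow_succ, pow_mul, trace_pow', ih, ← pow_mul, ← pow_succ]

end BRR

open _root_.Pool.Agent.DPB.BRR

theorem BRR_thm : Stmt_BRR := by
  intro ℓ _ F H V _ _ _ _ _ _ _ ρ
  refine ⟨fun g x => ?_, ?_⟩
  · exact Representation.char_conj ρ x g
  · rintro x u hxu ⟨k, hk⟩
    have hinj : Function.Injective fun a : F => a ^ ℓ ^ k := by
      intro a b hab
      have h2 : (a - b) ^ ℓ ^ k = 0 := by
        rw [sub_pow_char_pow]
        exact sub_eq_zero.mpr hab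
      have h3 := pow_eq_zero_iff (pow_pos (Fact.out : ℓ.Prime).pos k).ne' |>.mp h2
      exact sub_eq_zero.mp h3
    apply hinj
    change LinearMap.trace F V (ρ (x * u)) ^ ℓ ^ k = LinearMap.trace F V (ρ x) ^ ℓ ^ k
    rw [← trace_pow_pow, ← trace_pow_pow, ← map_pow, ← map_pow,
      (show Commute x u from hxu).mul_pow, hk, mul_one]

end Pool.Agent.DPB


end

section

/-!
# Module KAH: every irreducible representation which occurs, occurs in an irreducible one
-/

set_option autoImplicit false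

namespace Pool.Agent.DPB

open Pool.Agent.Lib_helper13 Representation

namespace KAH

section Basic

variable {F T V V' W : Type} [Field F] [Group T] [AddCommGroup V] [Module F V]
  [AddCommGroup V'] [Module F V'] [AddCommGroup W] [Module F W]

open Classical in
theorem tN_apply [Fintype T] (P : Subgroup T) (ρ : Representation F T V) (v : V) :
    tN P ρ v = ∑ h, if h ∈ P then ρ h v else 0 := by
  unfold tN
  rw [LinearMap.sum_apply]
  refine Finset.sum_congr rfl fun h _ => ?_
  split_ifs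
  · rfl
  · rfl

theorem tN_eqv [Fintype T] (P : Subgroup T) {ρ : Representation F T V}
    {ρ' : Representation F T V'} {f : V →ₗ[F] V'} (hf : Eqv ρ ρ' f) (v : V) :
    f (tN P ρ v) = tN P ρ' (f v) := by
  classical
  rw [tN_apply, tN_apply, map_sum]
  refine Finset.sum_congr rfl fun h _ => ?_
  split_ifs
  · exact hf h v
  · exact map_zero f

theorem mul_tN [Fintype T] (P : Subgroup T) (ρ : Representation F T V) {p : T} (hp : p ∈ P)
    (v : V) : ρ p (tN P ρ v) = tN P ρ v := by
  classical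
  rw [tN_apply, map_sum]
  refine Fintype.sum_equiv (Equiv.mulLeft p) _ _ fun h => ?_
  have h1 : p * h ∈ P ↔ h ∈ P := Subgroup.mul_mem_cancel_left P hp
  simp only [Equiv.coe_mulLeft, h1]
  split_ifs
  · rw [map_mul]
    rfl
  · exact map_zero _

theorem normalizer_tN [Fintype T] (P : Subgroup T) (ρ : Representation F T V)
    (n : NP P) (v : V) : ρ (n : T) (tN P ρ v) = tN P ρ (ρ (n : T) v) := by
  classical
  rw [tN_apply, tN_apply, map_sum]
  refine Fintype.sum_equiv (MulAut.conj (n : T)).toEquiv _ _ fun h => ?_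
  have h1 : h ∈ P ↔ (n : T) * h * (n : T)⁻¹ ∈ P := Subgroup.mem_normalizer_iff.1 n.2 h
  have h2 : (MulAut.conj (n : T)).toEquiv h = (n : T) * h * (n : T)⁻¹ := rfl
  rw [h2]
  by_cases h3 : h ∈ P
  · rw [if_pos h3, if_pos (h1.1 h3), ← Module.End.mul_apply, ← Module.End.mul_apply, ← map_mul,
      ← map_mul]
    congr 2
    group
  · rw [if_neg h3, if_neg (fun h => h3 (h1.2 h)), map_zero]

/-- Transport of a representation. -/
def trans (ρ : Representation F T V) (e : V ≃ₗ[F] V') : Representation F T V' where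
  toFun g := e.toLinearMap ∘ₗ ρ g ∘ₗ e.symm.toLinearMap
  map_one' := by ext v; simp
  map_mul' g h := by ext v; simp

theorem trans_apply (ρ : Representation F T V) (e : V ≃ₗ[F] V') (g : T) (v : V') :
    trans ρ e g v = e (ρ g (e.symm v)) := rfl

theorem trans_eqv (ρ : Representation F T V) (e : V ≃ₗ[F] V') :
    Eqv ρ (trans ρ e) e.toLinearMap := by
  intro g v
  simp [trans_apply]

/-- The subrepresentations of the transported representation. -/
def transIso (ρ : Representation F T V) (e : V ≃ₗ[F] V') :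
    Subrepresentation ρ ≃o Subrepresentation (trans ρ e) where
  toFun S := ⟨S.toSubmodule.map e.toLinearMap, by
    rintro g _ ⟨v, hv, rfl⟩
    exact ⟨ρ g v, S.apply_mem_toSubmodule g hv, trans_eqv ρ e g v⟩⟩
  invFun S := ⟨S.toSubmodule.comap e.toLinearMap, by
    intro g v hv
    have h1 := S.apply_mem_toSubmodule g hv
    rw [← trans_eqv ρ e g v] at h1
    exact h1⟩
  left_inv S := by
    apply Subrepresentation.toSubmodule_injective
    exact Submodule.comap_map_eq_of_injective e.injective _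
  right_inv S := by
    apply Subrepresentation.toSubmodule_injective
    exact Submodule.map_comap_eq_of_surjective e.surjective _
  map_rel_iff' := by
    intro S S'
    exact Submodule.map_le_map_iff_of_injective e.injective _ _

theorem trans_irr {ρ : Representation F T V} (e : V ≃ₗ[F] V') (hρ : ρ.IsIrreducible) :
    (trans ρ e).IsIrreducible :=
  (OrderIso.isSimpleOrder_iff (transIso ρ e)).1 hρ

theorem emb_of_eqv [Fintype T] {P : Subgroup T} {ρ : Representation F T V}
    {σ : Representation F (NP P) W} (e : V ≃ₗ[F] V') (h : Emb P ρ σ) :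
    Emb P (trans ρ e) σ := by
  obtain ⟨j, hj, w, hw⟩ := h
  refine ⟨e.toLinearMap ∘ₗ j, ?_, w, ?_⟩
  · intro n w
    rw [LinearMap.comp_apply, LinearMap.comp_apply, hj, trans_eqv]
  · rintro ⟨v, hv⟩
    apply hw
    refine ⟨e.symm v, ?_⟩
    apply e.injective
    have h1 := tN_eqv P (trans_eqv ρ e) (e.symm v)
    rw [LinearEquiv.coe_coe, LinearEquiv.apply_symm_apply] at h1
    rw [h1, hv]
    rfl

/-- The average over the cosets of `P` in its normalizer. -/
theorem avg [Fintype T] {ℓ : ℕ} [Fact ℓ.Prime] [CharP F ℓ] {P : Subgroup T}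
    {ρ : Representation F T V} {σ : Representation F (NP P) W} (hind : ¬ ℓ ∣ P.index)
    (hσ : ∀ p : NP P, (p : T) ∈ P → σ p = 1) {V₁ : Submodule F V}
    (hV : ∀ (g : T) (v : V), v ∈ V₁ → ρ g v ∈ V₁) {j y : W →ₗ[F] V}
    (hj : ∀ (n : NP P) (w : W), j (σ n w) = ρ (n : T) (j w))
    (hy : ∀ w, j w - tN P ρ (y w) ∈ V₁) :
    ∃ y' : W →ₗ[F] V, (∀ (n : NP P) (w : W), y' (σ n w) = ρ (n : T) (y' w)) ∧
      (∀ w, y' w ∈ LinearMap.range (tN P ρ)) ∧ ∀ w, j w - y' w ∈ V₁ := by
  classical
  obtain ⟨P', hP'⟩ : ∃ P' : Subgroup (NP P),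
    P' = P.subgroupOf (Subgroup.normalizer (P : Set T)) := ⟨_, rfl⟩
  have hmem : ∀ p : NP P, p ∈ P' → (p : T) ∈ P := by
    intro p hp
    rw [hP'] at hp
    exact hp
  have hcard : ¬ ℓ ∣ Nat.card (NP P ⧸ P') := by
    intro h
    apply hind
    have h1 : P'.index = P.relIndex (Subgroup.normalizer (P : Set T)) := by rw [hP']; rfl
    rw [← Subgroup.relIndex_mul_index (Subgroup.le_normalizer (H := P)), ← h1,
      Subgroup.index_eq_card]
    exact h.mul_right _
  have : Fintype (NP P ⧸ P') := Fintype.ofFinite _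
  rw [Nat.card_eq_fintype_card] at hcard
  have hc : (Fintype.card (NP P ⧸ P') : F) ≠ 0 := fun h =>
    hcard ((CharP.cast_eq_zero_iff F ℓ _).1 h)
  obtain ⟨G, hG⟩ : ∃ G : NP P → W →ₗ[F] V,
    ∀ n w, G n w = ρ (n : T) (tN P ρ (y (σ n⁻¹ w))) :=
    ⟨fun n => (ρ (n : T)) ∘ₗ tN P ρ ∘ₗ y ∘ₗ σ n⁻¹, fun _ _ => rfl⟩
  have hG1 : ∀ n p : NP P, p ∈ P' → G (n * p) = G n := by
    intro n p hp
    ext w
    rw [hG, hG, mul_inv_rev, map_mul, hσ p⁻¹ (by
      have := hmem p⁻¹ (P'.inv_mem hp)
      exact this), one_mul, Subgroup.coe_mul, map_mul, Module.End.mul_apply,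
      mul_tN P ρ (hmem p hp)]
  have hG2 : ∀ m n : NP P, ∀ w, G n (σ m w) = ρ (m : T) (G (m⁻¹ * n) w) := by
    intro m n w
    have h1 : σ (m⁻¹ * n)⁻¹ w = σ n⁻¹ (σ m w) := by
      rw [← Module.End.mul_apply, ← map_mul]
      congr 2
      rw [mul_inv_rev, inv_inv]
    have h2 : ∀ v, ρ (n : T) v = ρ (m : T) (ρ ((m⁻¹ * n : NP P) : T) v) := by
      intro v
      rw [← Module.End.mul_apply, ← map_mul]
      congr 2
      rw [Subgroup.coe_mul, Subgroup.coe_inv, mul_inv_cancel_left]
    rw [hG, hG, h1, h2]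
  have hG3 : ∀ n : NP P, G (n : NP P ⧸ P').out = G n := by
    intro n
    obtain ⟨p, hp⟩ := QuotientGroup.mk_out_eq_mul P' n
    rw [hp, hG1 n p p.2]
  refine ⟨(Fintype.card (NP P ⧸ P') : F)⁻¹ • ∑ q : NP P ⧸ P', G q.out, ?_, ?_, ?_⟩
  · intro m w
    rw [LinearMap.smul_apply, LinearMap.smul_apply, map_smul, LinearMap.sum_apply,
      LinearMap.sum_apply, map_sum]
    congr 1
    refine Fintype.sum_equiv (MulAction.toPerm m⁻¹) _ _ fun q => ?_
    rw [hG2]
    congr 2
    have h1 : (MulAction.toPerm m⁻¹) q = ((m⁻¹ * q.out : NP P) : NP P ⧸ P') := by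
      have h2 : (MulAction.toPerm m⁻¹) q = m⁻¹ • q := rfl
      rw [h2]
      conv_lhs => rw [← QuotientGroup.out_eq' q]
      rfl
    rw [h1, hG3]
  · intro w
    rw [LinearMap.smul_apply, LinearMap.sum_apply]
    refine Submodule.smul_mem _ _ (Submodule.sum_mem _ fun q _ => ?_)
    rw [hG, normalizer_tN]
    exact ⟨_, rfl⟩
  · intro w
    have h1 : j w - ((Fintype.card (NP P ⧸ P') : F)⁻¹ • ∑ q : NP P ⧸ P', G q.out) w =
        (Fintype.card (NP P ⧸ P') : F)⁻¹ • ∑ q : NP P ⧸ P', (j w - G q.out w) := by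
      rw [Finset.sum_sub_distrib, Finset.sum_const, Finset.card_univ, smul_sub,
        ← Nat.cast_smul_eq_nsmul F, inv_smul_smul₀ hc, LinearMap.smul_apply, LinearMap.sum_apply]
    rw [h1]
    refine Submodule.smul_mem _ _ (Submodule.sum_mem _ fun q _ => ?_)
    have h2 := hV (q.out : T) _ (hy (σ q.out⁻¹ w))
    rw [map_sub, ← hj, ← hG, ← Module.End.mul_apply, ← map_mul, mul_inv_cancel, map_one] at h2
    exact h2

end Basic

/-- The induction on the dimension. -/
theorem core {ℓ : ℕ} [Fact ℓ.Prime] {F T W : Type} [Field F] [CharP F ℓ] [Group T] [Fintype T]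
    [AddCommGroup W] [Module F W] [Module.Finite F W] {P : Subgroup T}
    {σ : Representation F (NP P) W} (hind : ¬ ℓ ∣ P.index)
    (hσ : ∀ p : NP P, (p : T) ∈ P → σ p = 1) :
    ∀ (d : ℕ) (V : Type) [AddCommGroup V] [Module F V] [Module.Finite F V]
      (ρ : Representation F T V), Module.finrank F V = d → Emb P ρ σ →
      ∃ (n : ℕ) (ρ' : Representation F T (Fin n → F)), ρ'.IsIrreducible ∧ Emb P ρ' σ := by
  intro d
  induction d using Nat.strong_induction_on with
  | _ d ih =>
    intro V _ _ _ ρ hd hE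
    by_cases hirr : ρ.IsIrreducible
    · let e : V ≃ₗ[F] (Fin (Module.finrank F V) → F) := (Module.finBasis F V).equivFun
      exact ⟨_, trans ρ e, trans_irr e hirr, emb_of_eqv e hE⟩
    · obtain ⟨j, hj, w₀, hw₀⟩ := hE
      have hnt : j w₀ ≠ 0 := by
        intro h
        apply hw₀
        rw [h]
        exact Submodule.zero_mem _
      have hex : ∃ a : Subrepresentation ρ, a ≠ ⊥ ∧ a ≠ ⊤ := by
        by_contra hcon
        push Not at hcon
        apply hirr
        refine { exists_pair_ne := ⟨⊥, ⊤, ?_⟩, eq_bot_or_eq_top := ?_ }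
        · intro hbt
          apply hnt
          have hxt : j w₀ ∈ (⊤ : Subrepresentation ρ) := by
            change j w₀ ∈ (⊤ : Submodule F V); trivial
          rw [← hbt] at hxt
          change j w₀ ∈ (⊥ : Submodule F V) at hxt
          simpa using hxt
        · intro a
          by_cases ha : a = ⊥
          · exact Or.inl ha
          · exact Or.inr (hcon a ha)
      obtain ⟨a, ha1, ha2⟩ := hex
      have hb1 : a.toSubmodule ≠ ⊥ := fun h => ha1 (Subrepresentation.toSubmodule_injective h)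
      have hb2 : a.toSubmodule ≠ ⊤ := fun h => ha2 (Subrepresentation.toSubmodule_injective h)
      have hlt1 : Module.finrank F a.toSubmodule < d := by
        rw [← hd]
        exact Submodule.finrank_lt hb2
      have hlt2 : Module.finrank F (V ⧸ a.toSubmodule) < d := by
        have h1 := Submodule.finrank_quotient_add_finrank a.toSubmodule
        have h2 : 0 < Module.finrank F a.toSubmodule := by
          rw [Module.finrank_pos_iff]
          exact Submodule.nontrivial_iff_ne_bot.2 hb1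
        omega
      -- the quotient representation
      let ρq : Representation F T (V ⧸ a.toSubmodule) :=
        { toFun := fun g => a.toSubmodule.mapQ a.toSubmodule (ρ g)
            (fun v hv => a.apply_mem_toSubmodule g hv)
          map_one' := by
            ext v
            simp
          map_mul' := by
            intro g h
            ext v
            simp }
      have hq : Eqv ρ ρq a.toSubmodule.mkQ := fun g v => rfl
      by_cases hcase : ∃ w, a.toSubmodule.mkQ (j w) ∉ LinearMap.range (tN P ρq)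
      · refine ih _ hlt2 (V ⧸ a.toSubmodule) ρq rfl ⟨a.toSubmodule.mkQ ∘ₗ j, ?_, hcase⟩
        intro n w
        rw [LinearMap.comp_apply, LinearMap.comp_apply, hj, hq]
      · push Not at hcase
        -- a linear lift
        have hlift : ∃ y : W →ₗ[F] V, ∀ w, j w - tN P ρ (y w) ∈ a.toSubmodule := by
          have hmem : ∀ w, (a.toSubmodule.mkQ ∘ₗ j) w ∈
              LinearMap.range (a.toSubmodule.mkQ ∘ₗ tN P ρ) := by
            intro w
            obtain ⟨v, hv⟩ := hcase w
            obtain ⟨v, rfl⟩ := a.toSubmodule.mkQ_surjective v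
            exact ⟨v, by rw [LinearMap.comp_apply, LinearMap.comp_apply, tN_eqv P hq, hv]⟩
          obtain ⟨y, hy⟩ := Module.projective_lifting_property
            (a.toSubmodule.mkQ ∘ₗ tN P ρ).rangeRestrict
            ((a.toSubmodule.mkQ ∘ₗ j).codRestrict _ hmem)
            (LinearMap.surjective_rangeRestrict _)
          refine ⟨y, fun w => ?_⟩
          have h1 := congrArg Subtype.val (LinearMap.congr_fun hy w)
          have h2 : a.toSubmodule.mkQ (tN P ρ (y w)) = a.toSubmodule.mkQ (j w) := h1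
          rw [← Submodule.Quotient.mk_eq_zero, ← Submodule.mkQ_apply, map_sub, h2, sub_self]
        obtain ⟨y, hy⟩ := hlift
        obtain ⟨y', hy1, hy2, hy3⟩ := avg hind hσ
          (V₁ := a.toSubmodule) (fun g v hv => a.apply_mem_toSubmodule g hv) hj hy
        refine ih _ hlt1 a.toSubmodule a.toRepresentation rfl
          ⟨(j - y').codRestrict a.toSubmodule (fun w => hy3 w), ?_, w₀, ?_⟩
        · intro n w
          apply Subtype.ext
          show (j - y') (σ n w) = ρ (n : T) ((j - y') w)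
          rw [LinearMap.sub_apply, LinearMap.sub_apply, hj, hy1, map_sub]
        · rintro ⟨v, hv⟩
          apply hw₀
          have hs : Eqv a.toRepresentation ρ a.toSubmodule.subtype := fun g v => rfl
          have h1 := tN_eqv P hs v
          rw [hv] at h1
          have h2 : a.toSubmodule.subtype
              ((j - y').codRestrict a.toSubmodule (fun w => hy3 w) w₀) = j w₀ - y' w₀ := rfl
          rw [h2] at h1
          have h3 : j w₀ = tN P ρ (a.toSubmodule.subtype v) + y' w₀ := by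
            rw [← h1]
            abel
          rw [h3]
          exact Submodule.add_mem _ ⟨_, rfl⟩ (hy2 w₀)

end KAH

/-- KAH. -/
theorem KAH_thm : Stmt_KAH := by
  intro ℓ _ F T W V _ _ _ _ _ _ _ _ _ _ P ρ σ _ hind _ hσ hE
  exact KAH.core hind hσ _ V ρ rfl hE

end Pool.Agent.DPB


end
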