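import Mathlib
import Pool.Agent.DAM.C01
import Pool.Agent.DAM.C14
import Pool.Agent.DAM.C15
import Pool.Agent.DAM.C18
import Pool.Agent.DAM.C19
import Pool.Agent.DAM.C20
import Pool.Agent.DAM.C26

/-! Parts: DPT.DefsC, DPT.StmtsC, DPT.IDZ, DPT.PSN, DPX.SUPX -/

section

/-!
# The minimal normal subgroups of a minimal counterexample to Dade's conjecture: definitions for
part C (the sums over the chains of a normal subgroup)
-/

namespace Pool.Agent.DPT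

open Pool.Agent.DP Pool.Agent.DPC Pool.Agent.DPM Pool.Agent.DPN Pool.Agent.Lib_helper13
open Representation
open Pool.Agent.Lib_helper13.Dade (pCore DadeHolds dadeSum)

open Classical in
/-- The alternating sum over the chains whose members are contained in `M`. -/
noncomputable def CS {K : Type} [Group K] [Fintype K] (ℓ : ℕ) (M : Subgroup K)
    (W : Subgroup K → ℚ) : ℚ :=
  ∑ σ ∈ (Ch ℓ (⊥ : Subgroup K)).filter (fun σ => ∀ D ∈ σ, D ≤ M),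
    (-1 : ℚ) ^ σ.card * W (stb σ)

section Numbers

variable {L K : Type} [Group L] [Fintype L] [Group K]

/-- The weighted number of the characters over `μ` of the inverse image of `S` for which the
weights of the functions `F g` have prescribed values. -/
noncomputable def WC {ι : Type} (𝔐 : Ideal (integralClosure ℤ ℂ)) (ℓ d : ℕ) (π : L →* K)
    (μ : π.ker →* ℂˣ) (F : ι → L → ℂ) (w : ι → (integralClosure ℤ ℂ) ⧸ 𝔐)
    (S : Subgroup K) : ℚ :=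
  (Nat.card S : ℚ) * Nat.card {ψ : L → ℂ // ID ℓ (S.comap π) d ψ ∧ OvK π μ ψ ∧
    ∀ g, red 𝔐 (wS (S.comap π) ψ (F g)) = w g}

/-- The weighted number of the characters over `μ` of the inverse image of `S` whose central
function agrees with `ω` on the inverse image of `M`. -/
noncomputable def WF (𝔐 : Ideal (integralClosure ℤ ℂ)) (ℓ d : ℕ) (π : L →* K)
    (μ : π.ker →* ℂˣ) (M : Subgroup K) (ω : L → (integralClosure ℤ ℂ) ⧸ 𝔐)
    (S : Subgroup K) : ℚ :=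
  (Nat.card S : ℚ) * Nat.card {ψ : L → ℂ // ID ℓ (S.comap π) d ψ ∧ OvK π μ ψ ∧
    ∀ g, π g ∈ M → cgT 𝔐 ⊤ ψ g = ω g}

/-- The weighted number of the characters over `ν` of the stabilizer of `ν` in the inverse image
of `S` whose central function agrees with `ω` on the inverse image of `M`. -/
noncomputable def WN (𝔐 : Ideal (integralClosure ℤ ℂ)) (ℓ d : ℕ) (π : L →* K)
    (Q M : Subgroup K) (ν : L → ℂ) (ω : L → (integralClosure ℤ ℂ) ⧸ 𝔐) (S : Subgroup K) : ℚ :=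
  (Nat.card ↥(S.comap π ⊓ sx ν) : ℚ) * Nat.card {ψ : L → ℂ // ID ℓ (S.comap π ⊓ sx ν) d ψ ∧
    iS (Q.comap π) ψ ν ≠ 0 ∧ ∀ g, π g ∈ M → cgT 𝔐 ⊤ ψ g = ω g}

/-- There is a character over `μ` of minimal defect of the inverse image of `M` for which the
weights of the functions `F g` have prescribed values. -/
def GdC {ι : Type} (𝔐 : Ideal (integralClosure ℤ ℂ)) (ℓ : ℕ) (π : L →* K) (μ : π.ker →* ℂˣ)
    (M : Subgroup K) (F : ι → L → ℂ) (w : ι → (integralClosure ℤ ℂ) ⧸ 𝔐) : Prop :=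
  ∃ θ : L → ℂ, ID ℓ (M.comap π) (padicValNat ℓ (Nat.card π.ker)) θ ∧ OvK π μ θ ∧
    ∀ g, red 𝔐 (wS (M.comap π) θ (F g)) = w g

/-- There is a character over `μ` of minimal defect of the inverse image of `M` whose central
function is `ω`. -/
def GdF (𝔐 : Ideal (integralClosure ℤ ℂ)) (ℓ : ℕ) (π : L →* K) (μ : π.ker →* ℂˣ)
    (M : Subgroup K) (ω : L → (integralClosure ℤ ℂ) ⧸ 𝔐) : Prop :=
  ∃ θ : L → ℂ, ID ℓ (M.comap π) (padicValNat ℓ (Nat.card π.ker)) θ ∧ OvK π μ θ ∧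
    ∀ g, π g ∈ M → cgT 𝔐 ⊤ θ g = ω g

end Numbers

/-- The sums over the chains of the normal subgroups of `K` with quotient in the class, for a
faithful linear character of a central extension. -/
def PF (ℓ : ℕ) (K : Type) [Group K] [Fintype K] : Prop :=
  ∀ (L H : Type) [Group L] [Fintype L] [Group H] [Finite H]
    (𝔐 : Ideal (integralClosure ℤ ℂ)), 𝔐.IsMaximal → (ℓ : integralClosure ℤ ℂ) ∈ 𝔐 →
    ∀ π : L →* K, Function.Surjective π → π.ker ≤ Subgroup.center L → IsCyclic π.ker →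
    ∀ μ : π.ker →* ℂˣ, Function.Injective μ → ∀ M : Subgroup K, M.Normal → ∀ f : K →* H,
    (∀ x, f x = 1 ↔ x ∈ M) → HH ℓ H → ∀ (ω : L → (integralClosure ℤ ℂ) ⧸ 𝔐) (d : ℕ),
    CS ℓ M (WF 𝔐 ℓ d π μ M ω) ≠ 0 → GdF 𝔐 ℓ π μ M ω

/-- The same for arbitrary linear characters and for the characters for which the weights of given
functions have prescribed values. -/
def PL (ℓ : ℕ) (K : Type) [Group K] [Fintype K] : Prop :=
  ∀ (L H ι : Type) [Group L] [Fintype L] [Group H] [Finite H]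
    (𝔐 : Ideal (integralClosure ℤ ℂ)), 𝔐.IsMaximal → (ℓ : integralClosure ℤ ℂ) ∈ 𝔐 →
    ∀ π : L →* K, Function.Surjective π → π.ker ≤ Subgroup.center L →
    ∀ μ : π.ker →* ℂˣ, ∀ M : Subgroup K, M.Normal → ∀ f : K →* H,
    (∀ x, f x = 1 ↔ x ∈ M) → HH ℓ H → ∀ F : ι → L → ℂ, (∀ g h x, F g (h * x * h⁻¹) = F g x) →
    (∀ g x, IsIntegral ℤ (F g x)) → (∀ g x, π x ∉ M → F g x = 0) →
    ∀ (w : ι → (integralClosure ℤ ℂ) ⧸ 𝔐) (d : ℕ),
    CS ℓ M (WC 𝔐 ℓ d π μ F w) ≠ 0 → GdC 𝔐 ℓ π μ M F w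

/-- The linear character `ν` of the inverse image of the normal `ℓ`-subgroup `Q`, which
intersects `M` trivially; `M₀` is the centralizer in `M` of the inverse image of `Q`. -/
structure LN {L K : Type} [Group L] [Group K] (ℓ : ℕ) (π : L →* K)
    (μ : π.ker →* ℂˣ) (Q M M₀ : Subgroup K) (ν : L → ℂ) : Prop where
  Qn : Q.Normal
  Qp : IsPGroup ℓ Q
  QM : Q ⊓ M = ⊥
  Mn : M.Normal
  M0n : M₀.Normal
  le : M₀ ≤ M
  irr : IrrOn (Q.comap π) ν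
  ov : OvK π μ ν
  lin : ν 1 = 1
  ab : ∀ x y, π x ∈ Q → π y ∈ Q → x * y = y * x
  st : ∀ m, π m ∈ M → (π m ∈ M₀ ↔ m ∈ sx ν)
  cm : ∀ m x, π m ∈ M₀ → π x ∈ Q → m * x = x * m
  pg : ∀ x ∈ M, ∃ n : ℕ, x ^ ℓ ^ n ∈ M₀

/-- `G` is the quotient of `L` by the Sylow `ℓ`-subgroup of the inverse image of `Q` and `Y` is
the quotient of the stabilizer of `ν` by the kernel of `ν` in this subgroup. -/
structure XD {L K Y G : Type} [Group L] [Group K] [Group Y] [Group G] (ℓ : ℕ) (π : L →* K)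
    (Q : Subgroup K) (ν : L → ℂ) (k' : L →* G) (q : ↥(sx ν) →* Y) (k : Y →* G)
    (lam : k.ker →* ℂˣ) : Prop where
  ks : Function.Surjective k'
  qs : Function.Surjective q
  kq : ∀ t : sx ν, k (q t) = k' (t : L)
  kk : ∀ x, k' x = 1 ↔ π x ∈ Q ∧ ∃ n : ℕ, x ^ ℓ ^ n = 1
  qk : ∀ t : sx ν, q t = 1 ↔ k' (t : L) = 1 ∧ ν t = 1
  fc : FC ℓ k
  lm : ∀ (t : sx ν) (h : q t ∈ k.ker), ((lam ⟨q t, h⟩ : ℂˣ) : ℂ) = ν t

/-- The character `θb` of defect zero of the image of `M₀` in `G` belongs to the character `θ₀` of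
minimal defect of the inverse image of `M₀`. -/
structure TB {L K G : Type} [Group L] [Fintype L] [Group K] [Group G] [Fintype G]
    (𝔐 : Ideal (integralClosure ℤ ℂ)) (ℓ : ℕ) (π : L →* K) (M₀ : Subgroup K) (k' : L →* G)
    (θ₀ : L → ℂ) (θb : G → ℂ) : Prop where
  dz : ID ℓ ((M₀.comap π).map k') 0 θb
  sx : ∀ x, k' x ∈ sx θb ↔ x ∈ sx θ₀
  pu : ∀ F : L → ℂ, (∀ g x, F (g * x * g⁻¹) = F x) → (∀ x, IsIntegral ℤ (F x)) →
    (∀ x, π x ∉ M₀ → F x = 0) →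
    red 𝔐 (wS (M₀.comap π) θ₀ F) = red 𝔐 (wS ((M₀.comap π).map k') θb (pu k' F))
  rg : ∀ F : G → ℂ, (∀ g x, F (g * x * g⁻¹) = F x) → (∀ x, IsIntegral ℤ (F x)) →
    (∀ x, x ∉ (M₀.comap π).map k' → F x = 0) →
    red 𝔐 (wS (M₀.comap π) θ₀ (rg ℓ k' F)) = red 𝔐 (wS ((M₀.comap π).map k') θb F)

open Classical in
/-- The indicator of the elements which are conjugate to `y` under `O`. -/
noncomputable def clO {X : Type} [Group X] (O : Subgroup X) (y z : X) : ℤ :=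
  if ∃ o ∈ O, z = o * y * o⁻¹ then 1 else 0

end Pool.Agent.DPT


end

section

/-!
# The minimal normal subgroups of a minimal counterexample to Dade's conjecture: statements of the
modules, part C (the sums over the chains of a normal subgroup)
-/

namespace Pool.Agent.DPT

open Pool.Agent.DP Pool.Agent.DPC Pool.Agent.DPM Pool.Agent.DPN Pool.Agent.Lib_helper13
open Representation
open Pool.Agent.Lib_helper13.Dade (pCore DadeHolds dadeSum)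

/-! ### Chains -/

/-- CHG: the chains of `M` and of its image in another quotient. -/
def Stmt_CHG : Prop :=
  ∀ (T K G : Type) [Group T] [Fintype T] [Group K] [Fintype K] [Group G] [Fintype G] (ℓ : ℕ)
    [Fact ℓ.Prime] (ρ : T →* K), ρ.ker ≤ Subgroup.center T → ∀ M : Subgroup K, M ≤ ρ.range →
    (∀ t, ∀ y ∈ M, ρ t * y * (ρ t)⁻¹ ∈ M) → ∀ κ : T →* G, Function.Surjective κ →
    (∀ t, ρ t ∈ M → κ t = 1 → ρ t = 1) →
    (∀ t, ρ t = 1 → (∃ n : ℕ, t ^ ℓ ^ n = 1) → κ t = 1) → ∀ W : Subgroup T → ℚ,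
    CS ℓ M (fun S => W (S.comap ρ)) = CS ℓ ((M.comap ρ).map κ) (fun S => W (S.comap κ))

/-- CHI: the chains of `M` as chains of `K`. -/
def Stmt_CHI : Prop :=
  ∀ (K : Type) [Group K] [Fintype K] (ℓ : ℕ) (M : Subgroup K) (W : Subgroup K → ℚ),
    ∑ τ ∈ Ch ℓ (⊥ : Subgroup M), (-1 : ℚ) ^ τ.card * W (stb (mapCh M.subtype τ)) = CS ℓ M W

/-! ### Reductions -/

/-- TWG: the weights of class functions in the twisted group. -/
def Stmt_TWG : Prop :=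
  ∀ (A T K Γ L : Type) [Group A] [Fintype A] [Group T] [Fintype T] [Group K] [Finite K]
    [Group Γ] [Fintype Γ] [Group L] [Fintype L] (j : A →* T)
    (c : T →* MulAut A) (p : T →* K), ClG j c p → Function.Surjective p → ∀ θ : A → ℂ, IsIrr θ →
    (∀ t a, θ (c t a) = θ a) →
    ∀ (e : A →* Γ) (q : Γ →* L) (r : Γ →* T) (E : Γ → ℂ) (U : Subgroup L) (μ : U →* ℂˣ)
      (π : L →* K), TWD j p θ e q r E U μ π → ∀ f : T → ℂ, (∀ g x, f (g * x * g⁻¹) = f x) →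
    (∀ x, IsIntegral ℤ (f x)) →
    ∃ F : L → ℂ, (∀ h l, F (h * l * h⁻¹) = F l) ∧ (∀ l, IsIntegral ℤ (F l)) ∧
      (∀ l, (∀ t, p t = π l → f t = 0) → F l = 0) ∧
      ∀ (V : Subgroup K) (ψ : ↥(V.comap p) → ℂ) (η : ↥(V.comap π) → ℂ), IsIrr ψ → IsIrr η →
        OvL U μ _ η → Cor p q r E π V ψ η →
        wt ψ (fun y => f y) = wt η (fun l => F l)

/-- CRS: arbitrary linear characters and coarse conditions. -/
def Stmt_CRS : Prop :=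
  ∀ (ℓ : ℕ) [Fact ℓ.Prime] (K : Type) [Group K] [Fintype K], PF ℓ K → PL ℓ K

/-- DGM: passage from the centralizer of an `ℓ`-subgroup in `M` to `M`. -/
def Stmt_DGM : Prop :=
  ∀ (L K : Type) [Group L] [Fintype L] [Group K] [Fintype K]
    (𝔐 : Ideal (integralClosure ℤ ℂ)) (ℓ : ℕ) [Fact ℓ.Prime], 𝔐.IsMaximal →
    (ℓ : integralClosure ℤ ℂ) ∈ 𝔐 → ∀ π : L →* K, Function.Surjective π →
    π.ker ≤ Subgroup.center L → ∀ (μ : π.ker →* ℂˣ) (M R : Subgroup K), M.Normal →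
    IsPGroup ℓ R → ∀ θ' : L → ℂ,
    ID ℓ ((cN M R).comap π) (padicValNat ℓ (Nat.card π.ker)) θ' → OvK π μ θ' →
    ∃ θ : L → ℂ, ID ℓ (M.comap π) (padicValNat ℓ (Nat.card π.ker)) θ ∧ OvK π μ θ ∧
      ∀ g, cgT 𝔐 ⊤ θ g = cgT 𝔐 ⊤ θ' g

/-- OCN: the contribution of an outer chain. -/
def Stmt_OCN : Prop :=
  ∀ (L K H : Type) [Group L] [Fintype L] [Group K] [Fintype K] [Group H] [Finite H]
    (𝔐 : Ideal (integralClosure ℤ ℂ)) (ℓ : ℕ) [Fact ℓ.Prime], 𝔐.IsMaximal →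
    (ℓ : integralClosure ℤ ℂ) ∈ 𝔐 → ∀ π : L →* K, Function.Surjective π →
    π.ker ≤ Subgroup.center L → ∀ (μ : π.ker →* ℂˣ) (M : Subgroup K), M.Normal →
    ∀ f : K →* H, (∀ x, f x = 1 ↔ x ∈ M) → HH ℓ H → ∀ c : Finset (Subgroup K), IsCh ℓ ⊥ c →
    (∀ D ∈ c, D ⊓ M = ⊥) → PL ℓ ↥(stb c) → ∀ (ω : L → (integralClosure ℤ ℂ) ⧸ 𝔐) (d : ℕ),
    innerS ℓ ⊥ M (WF 𝔐 ℓ d π μ M ω) c ≠ 0 → GdF 𝔐 ℓ π μ M ω

/-- DDS: the sum over all chains of `K`. -/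
def Stmt_DDS : Prop :=
  ∀ (L K : Type) [Group L] [Fintype L] [Group K] [Fintype K]
    (𝔐 : Ideal (integralClosure ℤ ℂ)) (ℓ : ℕ) [Fact ℓ.Prime], 𝔐.IsMaximal →
    (ℓ : integralClosure ℤ ℂ) ∈ 𝔐 → ∀ π : L →* K, Function.Surjective π →
    π.ker ≤ Subgroup.center L → IsCyclic π.ker → ∀ μ : π.ker →* ℂˣ, Function.Injective μ →
    HQ ℓ (Nat.card K) → ∀ M : Subgroup K, M.Normal →
    ∀ (ω : L → (integralClosure ℤ ℂ) ⧸ 𝔐) (d : ℕ),
    CS ℓ ⊤ (WF 𝔐 ℓ d π μ M ω) ≠ 0 → GdF 𝔐 ℓ π μ M ω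

/-! ### A normal `ℓ`-subgroup which intersects `M` trivially -/

/-- CLQ: Clifford theory for a normal subgroup which is centralized by `M`. -/
def Stmt_CLQ : Prop :=
  ∀ (L K : Type) [Group L] [Fintype L] [Group K] [Fintype K]
    (𝔐 : Ideal (integralClosure ℤ ℂ)) (ℓ : ℕ) [Fact ℓ.Prime], 𝔐.IsMaximal →
    (ℓ : integralClosure ℤ ℂ) ∈ 𝔐 → ∀ π : L →* K, Function.Surjective π →
    π.ker ≤ Subgroup.center L → ∀ (μ : π.ker →* ℂˣ) (M Q : Subgroup K), M.Normal → Q.Normal →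
    (∀ x ∈ Q, ∀ y ∈ M, x * y = y * x) → ∀ (ω : L → (integralClosure ℤ ℂ) ⧸ 𝔐) (d : ℕ),
    CS ℓ M (WF 𝔐 ℓ d π μ M ω) ≠ 0 →
    ∃ ν : L → ℂ, IrrOn (Q.comap π) ν ∧ OvK π μ ν ∧ CS ℓ M (WN 𝔐 ℓ d π Q M ν ω) ≠ 0

/-- DEFM: the defects of the characters over an invariant character of a subgroup which commutes
with `M` modulo the centre. -/
def Stmt_DEFM : Prop :=
  ∀ (L : Type) [Group L] [Fintype L] (ℓ : ℕ) [Fact ℓ.Prime] (U M Q : Subgroup L),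
    U ≤ Subgroup.center L → U ≤ M → U ≤ Q → (∀ x ∈ M, x ∈ Q → x ∈ U) →
    (∀ m ∈ M, ∀ x ∈ Q, m * x * m⁻¹ * x⁻¹ ∈ U) → (∀ x ∈ Q, ∃ n : ℕ, x ^ ℓ ^ n ∈ U) →
    ∀ ν ψ θ : L → ℂ, M ≤ sx ν → ∀ a : ℕ, ID ℓ Q a ν → ID ℓ (M ⊔ Q) a ψ → iS Q ψ ν ≠ 0 →
    IrrOn M θ → iS M ψ θ ≠ 0 → ID ℓ M (padicValNat ℓ (Nat.card U)) θ

/-- TWQ: the contribution of a character fixed by `M`. -/
def Stmt_TWQ : Prop :=
  ∀ (L K H : Type) [Group L] [Fintype L] [Group K] [Fintype K] [Group H] [Finite H]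
    (𝔐 : Ideal (integralClosure ℤ ℂ)) (ℓ : ℕ) [Fact ℓ.Prime], 𝔐.IsMaximal →
    (ℓ : integralClosure ℤ ℂ) ∈ 𝔐 → ∀ π : L →* K, Function.Surjective π →
    π.ker ≤ Subgroup.center L → ∀ (μ : π.ker →* ℂˣ) (M Q : Subgroup K), M.Normal → Q.Normal →
    IsPGroup ℓ Q → Q ≠ ⊥ → Q ⊓ M = ⊥ → ∀ f : K →* H, (∀ x, f x = 1 ↔ x ∈ M) → HH ℓ H →
    (∀ (K' : Type) [Group K'] [Fintype K'], Nat.card K' < Nat.card K → PL ℓ K') →
    ∀ ν : L → ℂ, IrrOn (Q.comap π) ν → OvK π μ ν → M.comap π ≤ sx ν →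
    ∀ (ω : L → (integralClosure ℤ ℂ) ⧸ 𝔐) (d : ℕ),
    CS ℓ M (WN 𝔐 ℓ d π Q M ν ω) ≠ 0 → GdF 𝔐 ℓ π μ M ω

/-- LNQ: the characters which are not fixed by `M`. -/
def Stmt_LNQ : Prop :=
  ∀ (L K : Type) [Group L] [Fintype L] [Group K] [Fintype K] (ℓ : ℕ) [Fact ℓ.Prime]
    (π : L →* K), Function.Surjective π → π.ker ≤ Subgroup.center L → ∀ μ : π.ker →* ℂˣ,
    Function.Injective μ → ∀ M Q : Subgroup K, M.Normal → Q.Normal → IsPGroup ℓ Q →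
    (∀ Q' : Subgroup K, Q'.Normal → Q' ≤ Q → Q' = ⊥ ∨ Q' = Q) → Q ⊓ M = ⊥ → ∀ ν : L → ℂ,
    IrrOn (Q.comap π) ν → OvK π μ ν → ¬ M.comap π ≤ sx ν →
    ∃ M₀ : Subgroup K, LN ℓ π μ Q M M₀ ν

/-- IDZ: induction from the inverse image of `M₀`. -/
def Stmt_IDZ : Prop :=
  ∀ (L K : Type) [Group L] [Fintype L] [Group K] [Fintype K]
    (𝔐 : Ideal (integralClosure ℤ ℂ)) (ℓ : ℕ) [Fact ℓ.Prime], 𝔐.IsMaximal →
    (ℓ : integralClosure ℤ ℂ) ∈ 𝔐 → ∀ π : L →* K, Function.Surjective π →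
    π.ker ≤ Subgroup.center L → ∀ (μ : π.ker →* ℂˣ) (M M₀ : Subgroup K), M.Normal →
    M₀.Normal → M₀ ≤ M → ∀ (ω : L → (integralClosure ℤ ℂ) ⧸ 𝔐) (θ₀ : L → ℂ),
    ID ℓ (M₀.comap π) (padicValNat ℓ (Nat.card π.ker)) θ₀ → OvK π μ θ₀ →
    (∀ g, π g ∈ M₀ → cgT 𝔐 ⊤ θ₀ g = ω g) → (∀ g, π g ∈ M → π g ∉ M₀ → ω g = 0) →
    (∀ m, π m ∈ M → m ∈ sx θ₀ → π m ∈ M₀) → GdF 𝔐 ℓ π μ M ω

/-- CAX: existence of the quotients. -/
def Stmt_CAX : Prop :=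
  ∀ (L K : Type) [Group L] [Fintype L] [Group K] [Fintype K] (ℓ : ℕ) [Fact ℓ.Prime]
    (π : L →* K), Function.Surjective π → π.ker ≤ Subgroup.center L → ∀ (μ : π.ker →* ℂˣ)
    (Q M M₀ : Subgroup K) (ν : L → ℂ), LN ℓ π μ Q M M₀ ν →
    ∃ (Y G : Type) (_ : Group Y) (_ : Fintype Y) (_ : Group G) (_ : Fintype G) (k' : L →* G)
      (q : ↥(sx ν) →* Y) (k : Y →* G) (lam : k.ker →* ℂˣ), XD ℓ π Q ν k' q k lam

/-- CAT: the character of defect zero of the image of `M₀` in the quotient. -/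
def Stmt_CAT : Prop :=
  ∀ (L K G : Type) [Group L] [Fintype L] [Group K] [Fintype K] [Group G] [Fintype G]
    (𝔐 : Ideal (integralClosure ℤ ℂ)) (ℓ : ℕ) [Fact ℓ.Prime], 𝔐.IsMaximal →
    (ℓ : integralClosure ℤ ℂ) ∈ 𝔐 → ∀ π : L →* K, Function.Surjective π →
    π.ker ≤ Subgroup.center L → ∀ (μ : π.ker →* ℂˣ) (Q M M₀ : Subgroup K) (ν : L → ℂ),
    LN ℓ π μ Q M M₀ ν → ∀ k' : L →* G, Function.Surjective k' →
    (∀ x, k' x = 1 ↔ π x ∈ Q ∧ ∃ n : ℕ, x ^ ℓ ^ n = 1) → ∀ θ₀ : L → ℂ,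
    ID ℓ (M₀.comap π) (padicValNat ℓ (Nat.card π.ker)) θ₀ → OvK π μ θ₀ →
    ∃ θb : G → ℂ, TB 𝔐 ℓ π M₀ k' θ₀ θb

/-- CAE: the condition on the central function is a condition on the type. -/
def Stmt_CAE : Prop :=
  ∀ (L K Y G : Type) [Group L] [Fintype L] [Group K] [Fintype K] [Group Y] [Fintype Y]
    [Group G] [Fintype G] (𝔐 : Ideal (integralClosure ℤ ℂ)) (ℓ : ℕ) [Fact ℓ.Prime],
    𝔐.IsMaximal → (ℓ : integralClosure ℤ ℂ) ∈ 𝔐 → ∀ π : L →* K, Function.Surjective π →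
    π.ker ≤ Subgroup.center L → ∀ (μ : π.ker →* ℂˣ) (Q M M₀ : Subgroup K) (ν : L → ℂ),
    LN ℓ π μ Q M M₀ ν → ∀ (k' : L →* G) (q : ↥(sx ν) →* Y) (k : Y →* G) (lam : k.ker →* ℂˣ),
    XD ℓ π Q ν k' q k lam → ∀ (ω : L → (integralClosure ℤ ℂ) ⧸ 𝔐) (θ₀ : L → ℂ) (θb : G → ℂ),
    ID ℓ (M₀.comap π) (padicValNat ℓ (Nat.card π.ker)) θ₀ → OvK π μ θ₀ →
    (∀ g, π g ∈ M₀ → cgT 𝔐 ⊤ θ₀ g = ω g) → TB 𝔐 ℓ π M₀ k' θ₀ θb → ∀ S : Subgroup G,
    (∀ x, π x = 1 → k' x ∈ S) → ∀ (ψ : L → ℂ) (ψY : Y → ℂ), IrrOn (S.comap k' ⊓ sx ν) ψ →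
    IrrOn (S.comap k) ψY → (∀ t : sx ν, ψ t = ψY (q t)) → OvK k lam ψY →
    ((∀ g, π g ∈ M₀ → cgT 𝔐 ⊤ ψ g = ω g) ↔
      TyR 𝔐 ℓ k ((M₀.comap π).map k') S ψY θb)

/-- CAN: the numbers of characters. -/
def Stmt_CAN : Prop :=
  ∀ (L K Y G : Type) [Group L] [Fintype L] [Group K] [Fintype K] [Group Y] [Fintype Y]
    [Group G] [Fintype G] (𝔐 : Ideal (integralClosure ℤ ℂ)) (ℓ : ℕ) [Fact ℓ.Prime],
    𝔐.IsMaximal → (ℓ : integralClosure ℤ ℂ) ∈ 𝔐 → ∀ π : L →* K, Function.Surjective π →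
    π.ker ≤ Subgroup.center L → ∀ (μ : π.ker →* ℂˣ) (Q M M₀ : Subgroup K) (ν : L → ℂ),
    LN ℓ π μ Q M M₀ ν → ∀ (k' : L →* G) (q : ↥(sx ν) →* Y) (k : Y →* G) (lam : k.ker →* ℂˣ),
    XD ℓ π Q ν k' q k lam → ∀ (ω : L → (integralClosure ℤ ℂ) ⧸ 𝔐) (θ₀ : L → ℂ) (θb : G → ℂ),
    ID ℓ (M₀.comap π) (padicValNat ℓ (Nat.card π.ker)) θ₀ → OvK π μ θ₀ →
    (∀ g, π g ∈ M₀ → cgT 𝔐 ⊤ θ₀ g = ω g) → (∀ g, π g ∈ M → π g ∉ M₀ → ω g = 0) →
    TB 𝔐 ℓ π M₀ k' θ₀ θb → ∀ S : Subgroup G, (∀ x, π x = 1 → k' x ∈ S) →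
    Nat.card ↥(S.comap k' ⊓ sx ν) = Nat.card ↥(S ⊓ k.range) * Nat.card k'.ker ∧
    (∀ d, Nat.card {ψ : L → ℂ // ID ℓ (S.comap k' ⊓ sx ν) (d + padicValNat ℓ (Nat.card q.ker)) ψ ∧
        iS (Q.comap π) ψ ν ≠ 0 ∧ ∀ g, π g ∈ M → cgT 𝔐 ⊤ ψ g = ω g} =
      Nat.card {ψ : Y → ℂ // ID ℓ (S.comap k) d ψ ∧ OvK k lam ψ ∧
        TyR 𝔐 ℓ k ((M₀.comap π).map k') S ψ θb}) ∧
    ∀ d < padicValNat ℓ (Nat.card q.ker),
      Nat.card {ψ : L → ℂ // ID ℓ (S.comap k' ⊓ sx ν) d ψ ∧ iS (Q.comap π) ψ ν ≠ 0 ∧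
        ∀ g, π g ∈ M → cgT 𝔐 ⊤ ψ g = ω g} = 0

/-- CAZ: the sum vanishes if the character of minimal defect is fixed by an element of the inverse
image of `M` outside the inverse image of `M₀`. -/
def Stmt_CAZ : Prop :=
  ∀ (L K H : Type) [Group L] [Fintype L] [Group K] [Fintype K] [Group H] [Finite H]
    (𝔐 : Ideal (integralClosure ℤ ℂ)) (ℓ : ℕ) [Fact ℓ.Prime], 𝔐.IsMaximal →
    (ℓ : integralClosure ℤ ℂ) ∈ 𝔐 → ∀ π : L →* K, Function.Surjective π →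
    π.ker ≤ Subgroup.center L → ∀ (μ : π.ker →* ℂˣ) (Q M M₀ : Subgroup K) (ν : L → ℂ),
    LN ℓ π μ Q M M₀ ν → ∀ f : K →* H, (∀ x, f x = 1 ↔ x ∈ M) → HH ℓ H →
    ∀ (ω : L → (integralClosure ℤ ℂ) ⧸ 𝔐) (θ₀ : L → ℂ),
    ID ℓ (M₀.comap π) (padicValNat ℓ (Nat.card π.ker)) θ₀ → OvK π μ θ₀ →
    (∀ g, π g ∈ M₀ → cgT 𝔐 ⊤ θ₀ g = ω g) → (∀ g, π g ∈ M → π g ∉ M₀ → ω g = 0) →
    (∃ m, π m ∈ M ∧ m ∈ sx θ₀ ∧ π m ∉ M₀) → ∀ d : ℕ, CS ℓ M (WN 𝔐 ℓ d π Q M ν ω) = 0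

/-- CBB: a nonvanishing sum gives a character of minimal defect of the inverse image of `M₀`. -/
def Stmt_CBB : Prop :=
  ∀ (L K H : Type) [Group L] [Fintype L] [Group K] [Fintype K] [Group H] [Finite H]
    (𝔐 : Ideal (integralClosure ℤ ℂ)) (ℓ : ℕ) [Fact ℓ.Prime], 𝔐.IsMaximal →
    (ℓ : integralClosure ℤ ℂ) ∈ 𝔐 → ∀ π : L →* K, Function.Surjective π →
    π.ker ≤ Subgroup.center L → ∀ (μ : π.ker →* ℂˣ) (Q M M₀ : Subgroup K) (ν : L → ℂ),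
    LN ℓ π μ Q M M₀ ν → Q ≠ ⊥ → ∀ f : K →* H, (∀ x, f x = 1 ↔ x ∈ M) → HH ℓ H →
    (∀ (K' : Type) [Group K'] [Fintype K'], Nat.card K' < Nat.card K → PL ℓ K') →
    ∀ (ω : L → (integralClosure ℤ ℂ) ⧸ 𝔐) (d : ℕ),
    CS ℓ M (WN 𝔐 ℓ d π Q M ν ω) ≠ 0 → GdF 𝔐 ℓ π μ M₀ ω

/-- CII: the contribution of a character which is not fixed by `M`. -/
def Stmt_CII : Prop :=
  ∀ (L K H : Type) [Group L] [Fintype L] [Group K] [Fintype K] [Group H] [Finite H]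
    (𝔐 : Ideal (integralClosure ℤ ℂ)) (ℓ : ℕ) [Fact ℓ.Prime], 𝔐.IsMaximal →
    (ℓ : integralClosure ℤ ℂ) ∈ 𝔐 → ∀ π : L →* K, Function.Surjective π →
    π.ker ≤ Subgroup.center L → ∀ (μ : π.ker →* ℂˣ) (Q M M₀ : Subgroup K) (ν : L → ℂ),
    LN ℓ π μ Q M M₀ ν → Q ≠ ⊥ → ∀ f : K →* H, (∀ x, f x = 1 ↔ x ∈ M) → HH ℓ H →
    (∀ (K' : Type) [Group K'] [Fintype K'], Nat.card K' < Nat.card K → PL ℓ K') →
    ∀ (ω : L → (integralClosure ℤ ℂ) ⧸ 𝔐) (d : ℕ),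
    CS ℓ M (WN 𝔐 ℓ d π Q M ν ω) ≠ 0 → GdF 𝔐 ℓ π μ M ω

/-- PSN: the sums over the chains of the normal subgroups. -/
def Stmt_PSN : Prop :=
  ∀ (ℓ : ℕ) [Fact ℓ.Prime] (K : Type) [Group K] [Fintype K], HQ ℓ (Nat.card K) → PF ℓ K

/-- PSO: the statement PS1 of DPF. -/
def Stmt_PSO : Prop := Pool.Agent.DPF.Stmt_PS1

/-- PSY: the statement PSZ of DPF. -/
def Stmt_PSY : Prop := Pool.Agent.DPF.Stmt_PSZ

/-! ### The support of the block of a normal subgroup -/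

/-- OUTM: elements which centralize `O / N`. -/
def Stmt_OUTM : Prop :=
  ∀ (X : Type) [Group X] [Fintype X] (𝔐 : Ideal (integralClosure ℤ ℂ)) (ℓ : ℕ)
    [Fact ℓ.Prime], 𝔐.IsMaximal → (ℓ : integralClosure ℤ ℂ) ∈ 𝔐 → ∀ N O : Subgroup X,
    N.Normal → O.Normal → N ≤ O → (∀ x ∈ O, ∃ n : ℕ, x ^ ℓ ^ n ∈ N) →
    ∀ χ : O → ℂ, IsIrr χ → ∀ ξ : X → ℂ, IrrOn N ξ →
    ip (fun n : N.subgroupOf O => χ n) (fun n : N.subgroupOf O => ξ (n : O)) ≠ 0 →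
    O ≤ sx (cgT 𝔐 N ξ) → ∀ (x : X) (u v : X → ℤ),
    (∀ a ∈ O, ∀ y, u (a * y * a⁻¹) = u y) → (∀ a ∈ O, ∀ y, v (a * y * a⁻¹) = v y) →
    (∀ y, u y ≠ 0 → x⁻¹ * y ∈ O) → (∀ y, v y ≠ 0 → x * y ∈ O) →
    red 𝔐 (wt χ (fun o => ((conv u v (o : X) : ℤ) : ℂ))) ≠ 0 →
    ∃ y y', x⁻¹ * y ∈ O ∧ x * y' ∈ O ∧ (∀ o ∈ O, ∃ n ∈ N, o * y * o⁻¹ = n * y * n⁻¹) ∧
      (∀ o ∈ O, ∃ n ∈ N, o * y' * o⁻¹ = n * y' * n⁻¹) ∧
      red 𝔐 (wt χ (fun o => ((conv (clO O y) (clO O y') (o : X) : ℤ) : ℂ))) ≠ 0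

/-- OUTS: elements of order prime to `ℓ` modulo `N`. -/
def Stmt_OUTS : Prop :=
  ∀ (X : Type) [Group X] [Fintype X] (𝔐 : Ideal (integralClosure ℤ ℂ)) (ℓ : ℕ)
    [Fact ℓ.Prime], 𝔐.IsMaximal → (ℓ : integralClosure ℤ ℂ) ∈ 𝔐 → ∀ N O : Subgroup X,
    N.Normal → O.Normal → N ≤ O → (∀ x ∈ O, ∃ n : ℕ, x ^ ℓ ^ n ∈ N) →
    ∀ χ : O → ℂ, IsIrr χ → ∀ ξ : X → ℂ, IrrOn N ξ →
    ip (fun n : N.subgroupOf O => χ n) (fun n : N.subgroupOf O => ξ (n : O)) ≠ 0 →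
    ∀ x : X, (∀ o ∈ O, x * o * x⁻¹ * o⁻¹ ∈ N) → (∃ m : ℕ, ¬ ℓ ∣ m ∧ x ^ m ∈ N) → ∀ y y' : X,
    x⁻¹ * y ∈ O → x * y' ∈ O → (∀ o ∈ O, ∃ n ∈ N, o * y * o⁻¹ = n * y * n⁻¹) →
    (∀ o ∈ O, ∃ n ∈ N, o * y' * o⁻¹ = n * y' * n⁻¹) →
    red 𝔐 (wt χ (fun o => ((conv (clO O y) (clO O y') (o : X) : ℤ) : ℂ))) ≠ 0 →
    ∃ u v : X → ℤ, (∀ a ∈ O, ∀ z, u (a * z * a⁻¹) = u z) ∧
      (∀ a ∈ O, ∀ z, v (a * z * a⁻¹) = v z) ∧ (∀ z, u z ≠ 0 → x⁻¹ * z ∈ N) ∧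
      (∀ z, v z ≠ 0 → x * z ∈ N) ∧ red 𝔐 (wS N ξ (fun z => ((conv u v z : ℤ) : ℂ))) ≠ 0

/-- OUTH: a normal subgroup with quotient in the class. -/
def Stmt_OUTH : Prop :=
  ∀ (X : Type) [Group X] [Fintype X] (ℓ : ℕ) [Fact ℓ.Prime] (N O Q : Subgroup X),
    N.Normal → O.Normal → Q.Normal → N ≤ O → O ≤ Q → (∀ x ∈ O, ∃ n : ℕ, x ^ ℓ ^ n ∈ N) →
    (∀ x y : X, x * y * x⁻¹ * y⁻¹ ∈ Q) → (∀ x, x ^ ℓ ∈ O → x ∈ O) →
    (∀ x ∈ Q, ∃ y, x⁻¹ * y ∈ O ∧ ∀ o ∈ O, y * o * y⁻¹ * o⁻¹ ∈ N) →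
    ∃ M : Subgroup X, M.Normal ∧ N ≤ M ∧ M ≤ Q ∧ (∀ x ∈ M, x ^ ℓ ∈ N → x ∈ N) ∧
      (∀ x ∈ M, ∃ m : ℕ, ¬ ℓ ∣ m ∧ x ^ m ∈ N) ∧
      (∀ x ∈ M, ∀ o ∈ O, x * o * x⁻¹ * o⁻¹ ∈ N) ∧
      ∃ (H : Type) (_ : Group H) (_ : Finite H) (f : X →* H), Function.Surjective f ∧
        (∀ x, f x = 1 ↔ x ∈ M) ∧ HH ℓ H

/-- OUT2: for a nonvanishing chain sum of a minimal counterexample and a normal subgroup `N`, there
is a normal subgroup `M` with quotient in the class such that `M / N` has order prime to `ℓ` and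
is contained in the support of the block of `N`. -/
def Stmt_OUT2 : Prop :=
  ∀ (X : Type) [Group X] [Fintype X] (𝔐 : Ideal (integralClosure ℤ ℂ)) (ℓ : ℕ)
    [Fact ℓ.Prime], 𝔐.IsMaximal → (ℓ : integralClosure ℤ ℂ) ∈ 𝔐 →
    pCore ℓ X ≤ Subgroup.center X → HQ ℓ ((Subgroup.center X).index - 1) →
    ∀ (d : ℕ) (ω : X → (integralClosure ℤ ℂ) ⧸ 𝔐),
    padicValNat ℓ (Nat.card (pCore ℓ X)) < d → KK 𝔐 ℓ d (pCore ℓ X) ω ≠ 0 →
    ∀ N : Subgroup X, N.Normal → Subgroup.center X < N →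
    ∃ M : Subgroup X, M.Normal ∧ N ≤ M ∧ (∀ x ∈ M, x ^ ℓ ∈ N → x ∈ N) ∧
      (∃ (H : Type) (_ : Group H) (_ : Finite H) (f : X →* H), Function.Surjective f ∧
        (∀ x, f x = 1 ↔ x ∈ M) ∧ HH ℓ H) ∧
      ∀ ξ : X → ℂ, IrrOn N ξ → (∀ x ∈ N, cgT 𝔐 ⊤ ξ x = ω x) →
        sx (cgT 𝔐 N ξ) = ⊤ ∧
        ∀ x ∈ M, ∃ u v : X → ℤ, (∀ a ∈ N, ∀ z, u (a * z * a⁻¹) = u z) ∧
          (∀ a ∈ N, ∀ z, v (a * z * a⁻¹) = v z) ∧ (∀ z, u z ≠ 0 → x⁻¹ * z ∈ N) ∧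
          (∀ z, v z ≠ 0 → x * z ∈ N) ∧
          red 𝔐 (wS N ξ (fun z => ((conv u v z : ℤ) : ℂ))) ≠ 0

/-- GLU: the sum for the quotient by the centre. -/
def Stmt_GLU : Prop :=
  ∀ (X H : Type) [Group X] [Fintype X] [Group H] [Finite H]
    (𝔐 : Ideal (integralClosure ℤ ℂ)) (ℓ : ℕ) [Fact ℓ.Prime], 𝔐.IsMaximal →
    (ℓ : integralClosure ℤ ℂ) ∈ 𝔐 → pCore ℓ X ≤ Subgroup.center X →
    ∀ (d : ℕ) (ω : X → (integralClosure ℤ ℂ) ⧸ 𝔐),
    padicValNat ℓ (Nat.card (pCore ℓ X)) < d → KK 𝔐 ℓ d (pCore ℓ X) ω ≠ 0 →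
    ∀ M : Subgroup X, Subgroup.center X ≤ M → ∀ f : X →* H, Function.Surjective f →
    (∀ x, f x = 1 ↔ x ∈ M) → HH ℓ H → ∀ (K : Type) [Group K] [Fintype K] (π : X →* K),
    Function.Surjective π → π.ker = Subgroup.center X →
    ∃ μ : π.ker →* ℂˣ, Pool.Agent.DPF.Pos 𝔐 ℓ π μ (M.map π) ω ∧
      Pool.Agent.DPF.DKU 𝔐 ℓ d π μ (M.map π) ω ≠ 0

end Pool.Agent.DPT


end

section

/-!
# Module IDZ: induction from the inverse image of `M₀`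
-/

namespace Pool.Agent.DPT

open Pool.Agent.DP Pool.Agent.DPC Pool.Agent.DPM Pool.Agent.DPN Pool.Agent.Lib_helper13
open Representation
open Pool.Agent.Lib_helper13.Dade (pCore DadeHolds dadeSum)

namespace IDZ

/-- Sums of functions which vanish outside a subgroup. -/
theorem sum_sub {L : Type} [Group L] [Fintype L] (N : Subgroup L) (f : L → ℂ)
    (hf : ∀ x, x ∉ N → f x = 0) : ∑ x : N, f x = ∑ x, f x := by
  classical
  rw [← Finset.sum_subset (Finset.subset_univ (Finset.univ.filter (fun x : L => x ∈ N)))]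
  · rw [Finset.sum_subtype (Finset.univ.filter (fun x : L => x ∈ N)) (p := fun x => x ∈ N)
      (fun x => by simp) f]
  · intro x _ hx
    exact hf x (fun h => hx (Finset.mem_filter.mpr ⟨Finset.mem_univ _, h⟩))

/-- The normal subgroup `N₀` of `N` as a Clifford situation. -/
theorem clG {L : Type} [Group L] {N N₀ : Subgroup L} [N₀.Normal] (hle : N₀ ≤ N) :
    ClG (Subgroup.inclusion hle) ((MulAut.conjNormal (H := N₀)).comp N.subtype)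
      ((QuotientGroup.mk' N₀).comp N.subtype) where
  inj := Subgroup.inclusion_injective hle
  act := by
    intro y a
    apply Subtype.ext
    rfl
  ker := by
    intro y
    change (QuotientGroup.mk (y : L) : L ⧸ N₀) = 1 ↔ _
    rw [QuotientGroup.eq_one_iff, Subgroup.inclusion_range, Subgroup.mem_subgroupOf]

theorem ind_normal {L : Type} [Group L] [Fintype L] {N N₀ : Subgroup L} (hN : N.Normal)
    (hN₀ : N₀.Normal) (hle : N₀ ≤ N) {θ₀ : L → ℂ} (h₀ : IrrOn N₀ θ₀)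
    (hst : ∀ m ∈ N, m ∈ sx θ₀ → m ∈ N₀) :
    ∃ θ : L → ℂ, IrrOn N θ ∧ θ 1 * Nat.card N₀ = Nat.card N * θ₀ 1 ∧
      (∀ (z : L) (a : ℂ), z ∈ Subgroup.center L → z ∈ N₀ → (∀ y, θ₀ (z * y) = a * θ₀ y) →
        ∀ y, θ (z * y) = a * θ y) ∧
      ∀ (𝔐 : Ideal (integralClosure ℤ ℂ)) (g : L), cgT 𝔐 ⊤ θ g = cgT 𝔐 ⊤ θ₀ g := by
  classical
  obtain ⟨hirr, hz⟩ := h₀
  have hc := clG (N := N) (N₀ := N₀) hle
  set c : N →* MulAut N₀ := (MulAut.conjNormal (H := N₀)).comp N.subtype with hcdef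
  have hcon : ∀ y x : L, y * x * y⁻¹ ∈ N₀ ↔ x ∈ N₀ := by
    intro y x
    constructor
    · intro h
      have := hN₀.conj_mem _ h y⁻¹
      rwa [inv_inv, show y⁻¹ * (y * x * y⁻¹) * y = x by group] at this
    · intro h
      exact hN₀.conj_mem _ h y
  -- the inertia group
  have hS : ∀ y : N, y ∈ inert c (fun a : N₀ => θ₀ a) ↔ (y : L) ∈ N₀ := by
    intro y
    constructor
    · intro h
      apply hst y y.2
      intro x
      by_cases hx : x ∈ N₀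
      · exact h ⟨x, hx⟩
      · rw [hz x hx, hz _ (fun h' => hx ((hcon y x).mp h'))]
    · intro h a
      exact hirr.conj_eq ⟨(y : L), h⟩ a
  set S : Subgroup N := inert c (fun a : N₀ => θ₀ a) with hSdef
  let e : S ≃* N₀ :=
    { toFun := fun s => ⟨((s : N) : L), (hS s).mp s.2⟩
      invFun := fun a => ⟨Subgroup.inclusion hle a, (hS _).mpr a.2⟩
      left_inv := fun _ => rfl
      right_inv := fun _ => rfl
      map_mul' := fun _ _ => rfl }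
  have hψ : IsIrr (fun s : S => θ₀ ((s : N) : L)) := hirr.comp_mulEquiv e
  have hext : ∀ y : N, ext0 (fun s : S => θ₀ ((s : N) : L)) y = θ₀ y := by
    intro y
    by_cases hy : y ∈ S
    · rw [ext0_of_mem _ hy]
    · rw [ext0_of_not_mem _ hy, hz]
      intro h
      exact hy ((hS y).mpr h)
  have hcardS : Nat.card S = Nat.card N₀ := Nat.card_congr e.toEquiv
  have hip : ip (fun a : N₀ => ext0 (fun s : S => θ₀ ((s : N) : L)) (Subgroup.inclusion hle a))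
      (fun a : N₀ => θ₀ a) ≠ 0 := by
    have h1 : (fun a : N₀ => ext0 (fun s : S => θ₀ ((s : N) : L)) (Subgroup.inclusion hle a)) =
        (fun a : N₀ => θ₀ a) := by
      ext a
      rw [hext]
      rfl
    rw [h1, ip_self hirr]
    exact one_ne_zero
  obtain ⟨hχ, -⟩ := (CCOR_thm IND_thm SUMM_thm N₀ N (L ⧸ N₀) _ c _ hc _ hirr).1 _ hψ hip
  obtain ⟨hi1, hi2, -, hi4⟩ := IND_thm N S (fun s : S => θ₀ ((s : N) : L))
  have hone : θ₀ 1 ≠ 0 := hirr.one_ne_zero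
  refine ⟨ext0 (indc S (fun s : S => θ₀ ((s : N) : L))), ⟨?_, ?_⟩, ?_, ?_, ?_⟩
  · have h1 : (fun s : N => ext0 (indc S (fun s : S => θ₀ ((s : N) : L))) (s : L)) =
        indc S (fun s : S => θ₀ ((s : N) : L)) := by
      ext s
      rw [ext0_of_mem _ s.2]
    rw [h1]
    exact hχ
  · intro x hx
    rw [ext0_of_not_mem _ hx]
  · rw [ext0_of_mem _ N.one_mem, ← hcardS]
    exact hi1
  · intro z a hzc hz0 hza y
    have hzN : z ∈ N := hle hz0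
    by_cases hy : y ∈ N
    · rw [ext0_of_mem _ hy, ext0_of_mem _ (N.mul_mem hzN hy)]
      unfold indc
      rw [← mul_div_assoc, Finset.mul_sum]
      congr 1
      refine Finset.sum_congr rfl fun w _ => ?_
      rw [hext, hext, ← hza]
      congr 1
      have h1 := (Subgroup.mem_center_iff.mp hzc) ((w : L)⁻¹)
      change (w : L)⁻¹ * (z * y) * w = z * ((w : L)⁻¹ * y * w)
      rw [← mul_assoc, h1]
      group
    · rw [ext0_of_not_mem _ hy, mul_zero, ext0_of_not_mem]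
      intro h
      apply hy
      have := N.mul_mem (N.inv_mem hzN) h
      rwa [inv_mul_cancel_left] at this
  · intro 𝔐 g
    unfold cgT
    congr 1
    have hcl : ∀ a x : L, cjT (⊤ : Subgroup L) (a * x * a⁻¹) g = cjT (⊤ : Subgroup L) x g := by
      intro a x
      unfold cjT
      congr 1
      apply propext
      constructor
      · rintro ⟨t, _, ht⟩
        refine ⟨a⁻¹ * t, Subgroup.mem_top _, ?_⟩
        rw [show x = a⁻¹ * (a * x * a⁻¹) * a by group, ht]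
        group
      · rintro ⟨t, _, ht⟩
        refine ⟨a * t, Subgroup.mem_top _, ?_⟩
        rw [ht]
        group
    have h1 := hi4 hone (fun y : N => cjT (⊤ : Subgroup L) (y : L) g)
      (fun a x => hcl (a : L) (x : L))
    unfold wt at h1
    have h2 : ∑ x : L, cjT (⊤ : Subgroup L) x g *
        ext0 (indc S (fun s : S => θ₀ ((s : N) : L))) x =
        ∑ y : N, cjT (⊤ : Subgroup L) (y : L) g * indc S (fun s : S => θ₀ ((s : N) : L)) y := by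
      rw [← sum_sub N]
      · refine Finset.sum_congr rfl fun y _ => ?_
        rw [ext0_of_mem _ y.2]
      · intro x hx
        rw [ext0_of_not_mem _ hx, mul_zero]
    have h3 : ∑ s : S, cjT (⊤ : Subgroup L) ((s : N) : L) g * θ₀ ((s : N) : L) =
        ∑ x : L, cjT (⊤ : Subgroup L) x g * θ₀ x := by
      rw [← sum_sub N₀ (fun x => cjT (⊤ : Subgroup L) x g * θ₀ x)]
      · exact Fintype.sum_equiv e.toEquiv _ _ (fun _ => rfl)
      · intro x hx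
        rw [hz x hx, mul_zero]
    rw [h2, ext0_of_mem _ N.one_mem]
    rw [h3] at h1
    exact h1

end IDZ

open _root_.Pool.Agent.DPT.IDZ in
/-- IDZ: induction from the inverse image of `M₀`. -/
theorem IDZ_thm : Stmt_IDZ := by
  classical
  intro L K _ _ _ _ 𝔐 ℓ _ h𝔐 hℓ π hπ hcen μ M M₀ hM hM₀ hle ω θ₀ hID hov hω hω0 hst
  have hN : (M.comap π).Normal := hM.comap π
  have hN₀ : (M₀.comap π).Normal := hM₀.comap π
  have hle' : M₀.comap π ≤ M.comap π := Subgroup.comap_mono hle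
  obtain ⟨hirr, n₀, hn₀, hv₀⟩ := hID
  obtain ⟨θ, hθ, hdeg, hz, hcg⟩ := ind_normal hN hN₀ hle' hirr
    (fun m hm hms => hst m hm hms)
  refine ⟨θ, ⟨hθ, ?_⟩, ?_, ?_⟩
  · obtain ⟨n, hn, hn1⟩ := hθ.1.exists_degree
    refine ⟨n, hn1, ?_⟩
    have h1 : θ 1 = (n : ℂ) := hn1
    have h0 : θ₀ 1 = (n₀ : ℂ) := hn₀
    rw [h1, h0] at hdeg
    have hdeg' : n * Nat.card (M₀.comap π) = Nat.card (M.comap π) * n₀ := by
      exact_mod_cast hdeg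
    have hc0 : Nat.card (M₀.comap π) ≠ 0 := Nat.card_pos.ne'
    have hc : Nat.card (M.comap π) ≠ 0 := Nat.card_pos.ne'
    have hn0' : n₀ ≠ 0 := by
      rintro rfl
      exact hirr.1.one_ne_zero (by simpa using hn₀)
    have h2 := congrArg (padicValNat ℓ) hdeg'
    rw [padicValNat.mul hn.ne' hc0, padicValNat.mul hc hn0'] at h2
    omega
  · intro z y
    refine hz z _ (hcen z.2) ?_ (fun y => hov z y) y
    change π (z : L) ∈ M₀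
    rw [z.2]
    exact M₀.one_mem
  · intro g hg
    rw [hcg]
    by_cases h : π g ∈ M₀
    · exact hω g h
    · rw [hω0 g hg h]
      unfold cgT
      rw [Finset.sum_eq_zero, zero_div]
      · exact red_zero 𝔐
      · intro x _
        unfold cjT
        split_ifs with hx
        · obtain ⟨t, _, rfl⟩ := hx
          rw [hirr.2, mul_zero]
          intro h'
          apply h
          have h3 := hN₀.conj_mem _ h' t⁻¹
          rw [inv_inv, show t⁻¹ * (t * g * t⁻¹) * t = g by group] at h3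
          exact h3
        · rw [zero_mul]

end Pool.Agent.DPT


end

section

set_option linter.unusedSectionVars false

/-!
# Module DPT_PSN: the sums over the chains of the normal subgroups
-/

namespace Pool.Agent.DPT

open Pool.Agent.DP Pool.Agent.DPC Pool.Agent.DPM Pool.Agent.DPN Pool.Agent.Lib_helper13
open Representation
open Pool.Agent.Lib_helper13.Dade (pCore DadeHolds dadeSum)

namespace PSN

theorem HQ_mono {ℓ n m : ℕ} (h : HQ ℓ n) (hm : m ≤ n) : HQ ℓ m := by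
  intro Y _ _ h1 h2
  exact h Y h1 (h2.trans hm)

section Chains

variable {K : Type} [Group K]

theorem tp_empty : tp (⊥ : Subgroup K) ∅ = ⊥ := by
  rw [tp, Finset.sup_empty]
  exact sup_bot_eq _

theorem cN_bot (M : Subgroup K) : cN M ⊥ = M := by
  rw [DP.cN, inf_eq_left]
  intro x _
  rw [Subgroup.mem_centralizer_iff]
  intro y hy
  have hy1 : y = 1 := by simpa using hy
  rw [hy1, one_mul, mul_one]

theorem tp_mem {ℓ : ℕ} {c : Finset (Subgroup K)} (hc : IsCh ℓ ⊥ c) (hne : c.Nonempty) :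
    tp (⊥ : Subgroup K) c ∈ c := by
  obtain ⟨T, hT, hT'⟩ := hc.exists_top hne
  have h : tp (⊥ : Subgroup K) c = T := by
    apply le_antisymm
    · refine sup_le (Finset.sup_le fun D hD => hT' D hD) bot_le
    · exact (Finset.le_sup (f := id) hT).trans le_sup_left
  rw [h]
  exact hT

theorem tp_normal {ℓ : ℕ} {c : Finset (Subgroup K)} (hc : IsCh ℓ ⊥ c) (hne : c.Nonempty)
    (htop : stb c = ⊤) : (tp (⊥ : Subgroup K) c).Normal := by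
  constructor
  intro x hx g
  have hg : g ∈ stb c := by
    rw [htop]
    exact Subgroup.mem_top g
  rw [mem_stb'] at hg
  exact (hg _ (tp_mem hc hne) x).mp hx

variable [Fintype K]

theorem innerS_empty (h9 : Stmt_CHI) (ℓ : ℕ) (M : Subgroup K) (W : Subgroup K → ℚ) :
    innerS ℓ (⊥ : Subgroup K) M W ∅ = CS ℓ M W := by
  rw [← h9 K ℓ M W, innerS]
  have key : ∀ N : Subgroup K, N = M →
      (∑ τ ∈ Ch ℓ (⊥ : Subgroup N), (-1 : ℚ) ^ τ.card *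
        W (stb (∅ : Finset (Subgroup K)) ⊓ stb (mapCh N.subtype τ))) =
      ∑ τ ∈ Ch ℓ (⊥ : Subgroup M), (-1 : ℚ) ^ τ.card * W (stb (mapCh M.subtype τ)) := by
    rintro N rfl
    refine Finset.sum_congr rfl fun τ _ => ?_
    rw [stb_empty, top_inf_eq]
  apply key
  rw [tp_empty, cN_bot]

theorem CS_top_eq (h1 : Stmt_SPLM) (ℓ : ℕ) [Fact ℓ.Prime] (M : Subgroup K) (hM : M.Normal)
    (W : Subgroup K → ℚ) :
    CS ℓ (⊤ : Subgroup K) W =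
      ∑ c ∈ OutC ℓ (⊥ : Subgroup K) M, (-1 : ℚ) ^ c.card * innerS ℓ ⊥ M W c := by
  classical
  have h := h1 K ℓ M ⊤ hM inferInstance le_top W
  rw [CS]
  refine Eq.trans ?_ (h.trans ?_)
  · rfl
  · rw [Finset.filter_true_of_mem]
    intro c _ D _
    exact le_top

end Chains

end PSN

open _root_.Pool.Agent.DPT.PSN in
/-- MODULE DPT_PSN -/
theorem PSN_thm (h1 : Stmt_SPLM) (h2 : Stmt_CRS) (h3 : Stmt_OCN) (h4 : Stmt_DDS)
    (h5 : Stmt_CLQ) (h6 : Stmt_TWQ) (h7 : Stmt_LNQ) (h8 : Stmt_CII) (h9 : Stmt_CHI) :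
    Stmt_PSN := by
  classical
  intro ℓ _
  have main : ∀ n : ℕ, ∀ (K : Type) [Group K] [Fintype K], Nat.card K = n → HQ ℓ n →
      PF ℓ K := by
    intro n
    induction n using Nat.strong_induction_on with
    | _ n ih =>
      intro K _ _ hn hHQ
      have hPL : ∀ (K' : Type) [Group K'] [Fintype K'], Nat.card K' < Nat.card K → PL ℓ K' := by
        intro K' _ _ hK'
        apply h2
        rw [hn] at hK'
        exact ih _ hK' K' rfl (HQ_mono hHQ hK'.le)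
      intro L H _ _ _ _ 𝔐 h𝔐 hℓ π hπ hker hcyc μ hμ M hM f hf hHH ω d hne
      by_cases hQ : ∃ Q : Subgroup K, Q.Normal ∧ IsPGroup ℓ Q ∧ Q ≠ ⊥ ∧ Q ⊓ M = ⊥
      · -- a minimal one
        obtain ⟨Q, ⟨hQn, hQp, hQ1, hQM⟩, hmin⟩ : ∃ Q : Subgroup K,
            (Q.Normal ∧ IsPGroup ℓ Q ∧ Q ≠ ⊥ ∧ Q ⊓ M = ⊥) ∧
            ∀ Q' : Subgroup K, (Q'.Normal ∧ IsPGroup ℓ Q' ∧ Q' ≠ ⊥ ∧ Q' ⊓ M = ⊥) →
              ¬ Q' < Q := by
          obtain ⟨Q, hQ⟩ := (Set.toFinite {Q : Subgroup K | Q.Normal ∧ IsPGroup ℓ Q ∧ Q ≠ ⊥ ∧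
            Q ⊓ M = ⊥}).exists_minimal hQ
          exact ⟨Q, hQ.prop, fun Q' hQ' hlt => hlt.not_ge (hQ.le_of_le hQ' hlt.le)⟩
        have hQmin : ∀ Q' : Subgroup K, Q'.Normal → Q' ≤ Q → Q' = ⊥ ∨ Q' = Q := by
          intro Q' hQ'n hQ'
          by_cases h0 : Q' = ⊥
          · exact Or.inl h0
          · right
            by_contra hne'
            refine hmin Q' ⟨hQ'n, hQp.to_le hQ', h0, ?_⟩ (lt_of_le_of_ne hQ' hne')
            rw [eq_bot_iff, ← hQM]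
            exact inf_le_inf_right _ hQ'
        have hcomm : ∀ x ∈ Q, ∀ y ∈ M, x * y = y * x := by
          intro x hx y hy
          exact Subgroup.commute_of_normal_of_disjoint Q M hQn hM
            (disjoint_iff.mpr hQM) x y hx hy
        obtain ⟨ν, hν1, hν2, hν3⟩ := h5 L K 𝔐 ℓ h𝔐 hℓ π hπ hker μ M Q hM hQn hcomm ω d hne
        by_cases hst : M.comap π ≤ sx ν
        · exact h6 L K H 𝔐 ℓ h𝔐 hℓ π hπ hker μ M Q hM hQn hQp hQ1 hQM f hf hHH hPL ν hν1 hν2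
            hst ω d hν3
        · obtain ⟨M₀, hLN⟩ := h7 L K ℓ π hπ hker μ hμ M Q hM hQn hQp hQmin hQM ν hν1 hν2 hst
          exact h8 L K H 𝔐 ℓ h𝔐 hℓ π hπ hker μ Q M M₀ ν hLN hQ1 f hf hHH hPL ω d hν3
      · by_cases htop : CS ℓ ⊤ (WF 𝔐 ℓ d π μ M ω) = 0
        · rw [CS_top_eq h1 ℓ M hM] at htop
          have hemp : (∅ : Finset (Subgroup K)) ∈ OutC ℓ (⊥ : Subgroup K) M := by
            rw [OutC, Finset.mem_filter, mem_Ch]
            exact ⟨isCh_empty ℓ ⊥, by simp⟩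
          rw [← Finset.add_sum_erase _ _ hemp, innerS_empty h9, Finset.card_empty, pow_zero,
            one_mul] at htop
          have hex : ∃ c ∈ (OutC ℓ (⊥ : Subgroup K) M).erase ∅,
              (-1 : ℚ) ^ c.card * innerS ℓ ⊥ M (WF 𝔐 ℓ d π μ M ω) c ≠ 0 := by
            by_contra hcon
            push Not at hcon
            rw [Finset.sum_eq_zero hcon, add_zero] at htop
            exact hne htop
          obtain ⟨c, hc, hc'⟩ := hex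
          rw [Finset.mem_erase, OutC, Finset.mem_filter, mem_Ch] at hc
          obtain ⟨hc0, hc1, hc2⟩ := hc
          have hcne : c.Nonempty := Finset.nonempty_iff_ne_empty.mpr hc0
          have hin : innerS ℓ ⊥ M (WF 𝔐 ℓ d π μ M ω) c ≠ 0 := right_ne_zero_of_mul hc'
          have hstb : stb c ≠ ⊤ := by
            intro hst
            apply hQ
            refine ⟨tp ⊥ c, tp_normal hc1 hcne hst, (hc1.1 _ (tp_mem hc1 hcne)).1, ?_,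
              hc2 _ (tp_mem hc1 hcne)⟩
            exact (hc1.1 _ (tp_mem hc1 hcne)).2.ne'
          have hlt : Nat.card ↥(stb c) < Nat.card K := by
            refine lt_of_le_of_ne (Subgroup.card_le_card_group _) ?_
            intro h
            exact hstb (Subgroup.eq_top_of_card_eq _ h)
          exact h3 L K H 𝔐 ℓ h𝔐 hℓ π hπ hker μ M hM f hf hHH c hc1 hc2 (hPL _ hlt) ω d hin
        · rw [← hn] at hHQ
          exact h4 L K 𝔐 ℓ h𝔐 hℓ π hπ hker hcyc μ hμ hHQ M hM ω d htop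
  intro K _ _ hHQ
  exact main _ K rfl hHQ

end Pool.Agent.DPT


end

section

/-!
# Theorem X: the support of a product with a class sum
-/

namespace Pool.Agent.DPX

open Pool.Agent.DPB Pool.Agent.DPW Pool.Agent.Lib_helper13 Representation

namespace SUPX

/-- An `ℓ`-subgroup of a group `C` with Sylow subgroup `P` of order `ℓ ^ n` is conjugate
into `P` by an element of `C`. -/
theorem syl {ℓ n : ℕ} [hp : Fact ℓ.Prime] {T : Type*} [Group T] [Finite T] (C P R : Subgroup T)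
    (hPC : P ≤ C) (hP : Nat.card P = ℓ ^ n) (hC : ¬ ℓ ^ (n + 1) ∣ Nat.card C)
    (hR : IsPGroup ℓ R) (hRC : R ≤ C) : ∃ c ∈ C, ∀ u ∈ R, c * u * c⁻¹ ∈ P := by
  have hcP : Nat.card (P.subgroupOf C) = ℓ ^ n := by
    rw [Nat.card_congr (Subgroup.subgroupOfEquivOfLe hPC).toEquiv, hP]
  have hP' : IsPGroup ℓ (P.subgroupOf C) := IsPGroup.of_card (n := n) hcP
  have hR' : IsPGroup ℓ (R.subgroupOf C) :=
    hR.of_injective (Subgroup.subgroupOfEquivOfLe hRC).toMonoidHom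
      (Subgroup.subgroupOfEquivOfLe hRC).injective
  obtain ⟨SP, hSP⟩ := hP'.exists_le_sylow
  obtain ⟨SR, hSR⟩ := hR'.exists_le_sylow
  have hcard : Nat.card SP ≤ ℓ ^ n := by
    obtain ⟨k, hk⟩ := (IsPGroup.iff_card (p := ℓ) (G := SP)).mp SP.isPGroup'
    rw [hk]
    have h1 : ℓ ^ k ∣ Nat.card C := by
      rw [← hk]
      exact Subgroup.card_subgroup_dvd_card (SP : Subgroup C)
    have h2 : k ≤ n := by
      by_contra h3
      push Not at h3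
      exact hC ((pow_dvd_pow ℓ h3).trans h1)
    exact Nat.pow_le_pow_right hp.out.pos h2
  have heq : P.subgroupOf C = (SP : Subgroup C) := by
    apply Subgroup.eq_of_le_of_card_ge hSP
    rw [hcP]
    exact hcard
  obtain ⟨c, hc⟩ := MulAction.exists_smul_eq C SR SP
  refine ⟨c, c.2, fun u hu => ?_⟩
  have h1 : (⟨u, hRC hu⟩ : C) ∈ (SR : Subgroup C) := hSR (Subgroup.mem_subgroupOf.mpr hu)
  have h2 : c * (⟨u, hRC hu⟩ : C) * c⁻¹ ∈ ((c • SR : Sylow ℓ C) : Subgroup C) := by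
    rw [Sylow.coe_subgroup_smul]
    exact ⟨⟨u, hRC hu⟩, h1, rfl⟩
  rw [hc, ← heq, Subgroup.mem_subgroupOf] at h2
  exact h2

theorem part1 (ℓ : ℕ) [Fact ℓ.Prime] (F T : Type) [Field F] [CharP F ℓ] [Group T] [Fintype T]
    (x₀ : T) (w : T → F) (hw : w ∈ CF F T) (h : T) (hh : cvF (clsF F x₀) w h ≠ 0)
    (Q : Subgroup T) (hQ : IsPGroup ℓ Q) (hQh : ∀ u ∈ Q, u * h = h * u) :
    ∃ t, ∀ u ∈ Q, t * u * t⁻¹ * x₀ = x₀ * (t * u * t⁻¹) := by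
  classical
  let _ : MulAction Q T :=
    { smul := fun q y => (q : T) * y * (q : T)⁻¹
      one_smul := by
        intro y
        change ((1 : Q) : T) * y * ((1 : Q) : T)⁻¹ = y
        simp
      mul_smul := by
        intro a b y
        change ((a * b : Q) : T) * y * ((a * b : Q) : T)⁻¹ = a.1 * (b.1 * y * b.1⁻¹) * a.1⁻¹
        simp [mul_assoc] }
  have hsmul : ∀ (q : Q) (y : T), q • y = (q : T) * y * (q : T)⁻¹ := fun _ _ => rfl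
  have hM : ∀ m : F, ℓ • m = 0 := by
    intro m
    rw [nsmul_eq_mul, CharP.cast_eq_zero, zero_mul]
  have hcls : ∀ g y : T, clsF F x₀ (g * y * g⁻¹) = clsF F x₀ y := by
    intro g y
    unfold clsF
    congr 1
    apply propext
    constructor
    · rintro ⟨a, ha⟩
      refine ⟨g⁻¹ * a, ?_⟩
      calc y = g⁻¹ * (g * y * g⁻¹) * g := by group
        _ = g⁻¹ * (a * x₀ * a⁻¹) * g := by rw [ha]
        _ = g⁻¹ * a * x₀ * (g⁻¹ * a)⁻¹ := by group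
    · rintro ⟨a, ha⟩
      refine ⟨g * a, ?_⟩
      rw [ha]
      group
  have hs : ∀ (q : Q) (y : T), clsF F x₀ (q • y) * w ((q • y)⁻¹ * h) =
      clsF F x₀ y * w (y⁻¹ * h) := by
    intro q y
    rw [hsmul, hcls]
    have h1 : ((q : T) * y * (q : T)⁻¹)⁻¹ * h = (q : T) * (y⁻¹ * h) * (q : T)⁻¹ := by
      have h2 : (q : T)⁻¹ * h = h * (q : T)⁻¹ := by
        rw [inv_mul_eq_iff_eq_mul, ← mul_assoc, hQh q q.2, mul_inv_cancel_right]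
      calc ((q : T) * y * (q : T)⁻¹)⁻¹ * h = (q : T) * y⁻¹ * ((q : T)⁻¹ * h) := by group
        _ = (q : T) * (y⁻¹ * h) * (q : T)⁻¹ := by rw [h2]; group
    rw [h1, hw]
  change ∑ y, clsF F x₀ y * w (y⁻¹ * h) ≠ 0 at hh
  rw [sum_eq_sum_fixed hQ hM (fun y => clsF F x₀ y * w (y⁻¹ * h)) hs] at hh
  obtain ⟨y, hy, hy0⟩ := Finset.exists_ne_zero_of_sum_ne_zero hh
  have hfix := (Finset.mem_filter.mp hy).2
  have hcy : clsF F x₀ y ≠ 0 := left_ne_zero_of_mul hy0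
  have hg : ∃ g, y = g * x₀ * g⁻¹ := by
    by_contra h1
    exact hcy (by rw [clsF, if_neg h1])
  obtain ⟨g, hg⟩ := hg
  refine ⟨g⁻¹, fun q hq => ?_⟩
  have h1 : q * y * q⁻¹ = y := hfix ⟨q, hq⟩
  have h2 : q * y = y * q := mul_inv_eq_iff_eq_mul.mp h1
  rw [hg] at h2
  calc g⁻¹ * q * g⁻¹⁻¹ * x₀ = g⁻¹ * (q * (g * x₀ * g⁻¹)) * g := by group
    _ = g⁻¹ * (g * x₀ * g⁻¹ * q) * g := by rw [h2]
    _ = x₀ * (g⁻¹ * q * g⁻¹⁻¹) := by group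

theorem part2 (ℓ n : ℕ) [Fact ℓ.Prime] (T : Type) [Group T] [Fintype T] (P₁ P : Subgroup T)
    (x₀ : T) (hD : CycD ℓ n P₁ P x₀) (Q : Subgroup T) (hQ : IsPGroup ℓ Q)
    (hQx : ∀ u ∈ Q, u * x₀ = x₀ * u) : ∃ t, t * x₀ = x₀ * t ∧ ∀ u ∈ Q, t * u * t⁻¹ ∈ P := by
  have hin : ∀ R : Subgroup T, (∀ u ∈ R, u * x₀ = x₀ * u) →
      R ≤ Subgroup.centralizer ({x₀} : Set T) := by
    intro R hR u hu
    rw [Subgroup.mem_centralizer_iff]
    intro x hx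
    rw [Set.mem_singleton_iff] at hx
    subst hx
    exact (hR u hu).symm
  obtain ⟨c, hcC, hc⟩ := syl (ℓ := ℓ) (n := n) (Subgroup.centralizer ({x₀} : Set T)) P Q
    (hin P hD.cen) hD.card hD.sq hQ (hin Q hQx)
  refine ⟨c, ?_, hc⟩
  rw [Subgroup.mem_centralizer_iff] at hcC
  exact (hcC x₀ rfl).symm

theorem part3 (ℓ n : ℕ) [Fact ℓ.Prime] (F T : Type) [Field F] [CharP F ℓ] [Group T] [Fintype T]
    (P₁ P : Subgroup T) (x₀ : T) (e : T → F) (hB : BKX ℓ n P₁ P x₀ e) (h : T) (hh : e h ≠ 0)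
    (Q : Subgroup T) (hQ : IsPGroup ℓ Q) (hQh : ∀ u ∈ Q, u * h = h * u) :
    ∃ t, ∀ u ∈ Q, t * u * t⁻¹ ∈ P := by
  obtain ⟨w, hw, hew⟩ := hB.fac
  rw [hew] at hh
  obtain ⟨t, ht⟩ := part1 ℓ F T x₀ w hw h hh Q hQ hQh
  obtain ⟨c, -, hc⟩ := part2 ℓ n T P₁ P x₀ hB.cd (Q.map (MulAut.conj t).toMonoidHom) (hQ.map _)
    (by
      rintro _ ⟨q, hq, rfl⟩
      exact ht q hq)
  refine ⟨c * t, fun u hu => ?_⟩
  have h1 := hc (t * u * t⁻¹) ⟨u, hu, rfl⟩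
  have h2 : c * t * u * (c * t)⁻¹ = c * (t * u * t⁻¹) * c⁻¹ := by group
  rw [h2]
  exact h1

end SUPX

/-- SUPX. -/
theorem SUPX_thm : Stmt_SUPX :=
  ⟨fun ℓ _ F T _ _ _ _ x₀ y hy h hh Q hQ hQh => SUPX.part1 ℓ F T x₀ y hy h hh Q hQ hQh,
    fun ℓ n _ T _ _ P₁ P x₀ hD Q hQ hQx => SUPX.part2 ℓ n T P₁ P x₀ hD Q hQ hQx,
    fun ℓ n _ F T _ _ _ _ P₁ P x₀ e hB h hh Q hQ hQh =>
      SUPX.part3 ℓ n F T P₁ P x₀ e hB h hh Q hQ hQh⟩

end Pool.Agent.DPX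


end
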