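import Mathlib
import Pool.Agent.DAM.C05
import Pool.Agent.DAM.C13
import Pool.Agent.DAM.C16
import Pool.Agent.DAM.C18
import Pool.Agent.DAM.C19

/-! Parts: DPG.DefsB, DPG.StmtsB, DPG.CLS, DPG.PRC, DPG.PRF -/

section

/-!
# Dade's conjecture: minimal normal subgroups which are not simple: further definitions
-/

namespace Pool.Agent.DPG

open Pool.Agent.DP Pool.Agent.DPC Pool.Agent.DPM Pool.Agent.DPN Pool.Agent.DPF
  Pool.Agent.Lib_helper13 Representation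
open Pool.Agent.Lib_helper13.Dade (pCore DadeHolds dadeSum)

section

variable {L K K1 Q L1 Ω : Type} [Group L] [Group K] [Group K1] [Group Q] [Group L1]
  [Fintype Ω]

/-- The elements of `K` which act trivially on `Ω` and whose coordinate at `o` lies in `S o`. -/
def PS (φ : K →* Gam (Equiv.Perm Ω) Ω K1) (S : Ω → Subgroup K1) : Subgroup K where
  carrier := {k | (φ k).right = 1 ∧ ∀ o, (φ k).left o ∈ S o}
  one_mem' := by
    refine ⟨by simp, ?_⟩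
    intro o
    simp [(S o).one_mem]
  mul_mem' := by
    rintro a b ⟨ha', ha''⟩ ⟨hb', hb''⟩
    refine ⟨by simp [ha', hb'], ?_⟩
    intro o
    rw [map_mul]
    change (φ a).left o * (φ b).left ((φ a).right⁻¹ • o) ∈ S o
    rw [ha', inv_one, one_smul]
    exact (S o).mul_mem (ha'' o) (hb'' o)
  inv_mem' := by
    rintro a ⟨ha', ha''⟩
    refine ⟨by simp [ha'], ?_⟩
    intro o
    rw [map_inv]
    change ((φ a).left ((φ a).right⁻¹⁻¹ • o))⁻¹ ∈ S o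
    rw [ha', inv_one, inv_one, one_smul]
    exact (S o).inv_mem (ha'' o)

/-- `F` is the product of the functions `f o` of the coordinates. -/
def TF (ε : (Ω → Q) →* L) (f : Ω → Q → ℂ) (F : L → ℂ) : Prop :=
  (∀ n : Ω → Q, F (ε n) = ∏ o, f o (n o)) ∧ ∀ l, l ∉ ε.range → F l = 0

open Classical in
/-- The sum over the elements of a coset of the products of the values of `F` at the
coordinates. -/
noncomputable def psm [Fintype Q] (ε : (Ω → Q) →* L) (ι : Q →* L1) (F : L1 → ℂ) (u : L → ℤ)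
    (x : L × Gam (Equiv.Perm Ω) Ω L1) : ℂ :=
  (∑ n : Ω → Q, ((u (x.1 * ε n) : ℤ) : ℂ) * ∏ o, F (x.2.left o * ι (n o))) /
    (Nat.card ε.ker * F 1 ^ Fintype.card Ω)

variable [Fintype L] [Fintype L1]

/-- Reference data: `Fr` belongs to an invariant pair of `L1`, and its support contains `M1`;
`ζ` is an invariant character of the group above `M`. -/
structure RF (𝔐 : Ideal (integralClosure ℤ ℂ)) (ℓ : ℕ) (π : L →* K) (μ : π.ker →* ℂˣ)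
    (φ : K →* Gam (Equiv.Perm Ω) Ω K1) (q : Q →* K1) (α : K1 →* MulAut Q)
    (ε : (Ω → Q) →* L) (μQ : q.ker →* ℂˣ) (π1 : L1 →* K1) (μ1 : π1.ker →* ℂˣ) (ι : Q →* L1)
    (M : Subgroup K) (M1 : Subgroup K1) (σr : Finset (Subgroup K1)) (Fr : L1 → ℂ)
    (ζ : L × Gam (Equiv.Perm Ω) Ω L1 → ℂ) : Prop where
  wd : WD π μ φ q α ε μQ
  ld : LD q α μQ π1 μ1 ι
  mm : MM ℓ π φ q ε M M1
  ch : ChN ℓ q.range σr
  ef : EF π1 q.range M1 (stb σr) Fr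
  ov : Ov π1 μ1 Fr
  sj : q.range ⊔ stb σr = ⊤
  iv : ∀ t, π1 t ∈ stb σr → ∀ x, Fr (t * x * t⁻¹) = Fr x
  sup : SUP 𝔐 π1 q.range M1 Fr
  zt : ZT π φ π1 μ1 ε ι M ζ
  zi : ∀ y ∈ YY π φ π1, ∀ x, ζ (y * x * y⁻¹) = ζ x

open Classical in
/-- The relations between the linear characters of the pairs with the given property. -/
def T2X {H W : Type} [Group H] [Group W] [Fintype K] (𝔐 : Ideal (integralClosure ℤ ℂ)) (ℓ : ℕ)
    (π : L →* K) (μ : π.ker →* ℂˣ) (M : Subgroup K) (ω : L → (integralClosure ℤ ℂ) ⧸ 𝔐)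
    (πW : W →* H) (P : Subgroup H) (C : Finset (Subgroup K) → Prop)
    (ν : Subgroup K → (L → ℂ) → (πW.ker →* ℂˣ)) : Prop :=
  ∀ a : πW.ker, InS πW P (a : W) → ∀ n : ℕ,
    ∑ σ ∈ Ch ℓ (⊥ : Subgroup K) with C σ, (-1 : ℂ) ^ σ.card *
      ∑ f ∈ irrOn (AL π M (stb σ)) with BPs 𝔐 π μ M ω (stb σ) f ∧
          HasDefect ℓ (fun s : AL π M (stb σ) => f s) n,
        (Nat.card ↥(M ⊓ stb σ) : ℂ) * ((ν (stb σ) f a : ℂˣ) : ℂ) = 0

end

end Pool.Agent.DPG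


end

section

/-!
# Dade's conjecture: minimal normal subgroups which are not simple: statements of the modules,
part B (wreath products)
-/

namespace Pool.Agent.DPG

open Pool.Agent.DP Pool.Agent.DPC Pool.Agent.DPM Pool.Agent.DPN Pool.Agent.DPF
  Pool.Agent.DPK Pool.Agent.Lib_helper13 Representation
open Pool.Agent.Lib_helper13.Dade (pCore DadeHolds dadeSum)

/-! ### The wreath product data -/

/-- CNA: the factors of a minimal normal subgroup. -/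
def Stmt_CNA : Prop :=
  ∀ (K : Type) [Group K] [Finite K] (N : Subgroup K) [N.Normal], N ≠ ⊥ →
    (∀ N' : Subgroup K, N'.Normal → N' ≤ N → N' = ⊥ ∨ N' = N) →
    (∃ x ∈ N, ∃ y ∈ N, x * y ≠ y * x) → ¬ IsSimpleGroup N →
    ∃ E : Subgroup K, E ≤ N ∧ E ≠ ⊥ ∧ ⁅E, E⁆ = E ∧
      (∀ x ∈ E, (∀ y ∈ E, x * y = y * x) → x = 1) ∧
      (∀ k : K, E.map (MulAut.conj k).toMonoidHom = E ∨
        ∀ x ∈ E, ∀ y ∈ E, (k * x * k⁻¹) * y = y * (k * x * k⁻¹)) ∧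
      (⨆ k : K, E.map (MulAut.conj k).toMonoidHom) = N ∧
      ∃ k : K, E.map (MulAut.conj k).toMonoidHom ≠ E

/-- CNB: the wreath product data. -/
def Stmt_CNB : Prop :=
  ∀ (L K : Type) [Group L] [Fintype L] [Group K] [Fintype K] (π : L →* K),
    Function.Surjective π → π.ker ≤ Subgroup.center L → ∀ μ : π.ker →* ℂˣ,
    Function.Injective μ → ∀ (N : Subgroup K) [N.Normal],
    (∀ k : K, (∀ x ∈ N, k * x = x * k) → k = 1) → ∀ E : Subgroup K, E ≤ N → E ≠ ⊥ →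
    ⁅E, E⁆ = E → (∀ x ∈ E, (∀ y ∈ E, x * y = y * x) → x = 1) →
    (∀ k : K, E.map (MulAut.conj k).toMonoidHom = E ∨
      ∀ x ∈ E, ∀ y ∈ E, (k * x * k⁻¹) * y = y * (k * x * k⁻¹)) →
    (⨆ k : K, E.map (MulAut.conj k).toMonoidHom) = N →
    (∃ k : K, E.map (MulAut.conj k).toMonoidHom ≠ E) →
    ∃ (Ω K1 Q : Type) (_ : Fintype Ω) (_ : Group K1) (_ : Fintype K1) (_ : Group Q)
      (_ : Fintype Q) (φ : K →* Gam (Equiv.Perm Ω) Ω K1) (q : Q →* K1) (α : K1 →* MulAut Q)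
      (ε : (Ω → Q) →* L) (μQ : q.ker →* ℂˣ), WD π μ φ q α ε μQ ∧ NN' π ε = N ∧
      1 < Fintype.card Ω ∧ Nat.card K1 < Nat.card K

/-- CST: the chains with constant coordinates. -/
def Stmt_CST : Prop :=
  ∀ (L K K1 Q Ω : Type) [Group L] [Fintype L] [Group K] [Fintype K] [Group K1] [Fintype K1]
    [Group Q] [Fintype Q] [Fintype Ω] [Nonempty Ω] (ℓ : ℕ) [Fact ℓ.Prime] (π : L →* K)
    (μ : π.ker →* ℂˣ) (φ : K →* Gam (Equiv.Perm Ω) Ω K1) (q : Q →* K1) (α : K1 →* MulAut Q)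
    (ε : (Ω → Q) →* L) (μQ : q.ker →* ℂˣ), WD π μ φ q α ε μQ →
    (NN' π ε).Normal ∧ q.range.Normal ∧ ∀ σ : Finset (Subgroup K1), ChN ℓ q.range σ →
      ChN ℓ (NN' π ε) (cstC φ (NN' π ε) σ) ∧ Clo φ (NN' π ε) (cstC φ (NN' π ε) σ) ∧
      (cstC φ (NN' π ε) σ).card = σ.card ∧
      (∀ k, k ∈ stb (cstC φ (NN' π ε) σ) ↔ ∀ o, (φ k).left o ∈ stb σ) ∧
      Nat.card ↥(NN' π ε ⊓ stb (cstC φ (NN' π ε) σ)) =
        Nat.card ↥(q.range ⊓ stb σ) ^ Fintype.card Ω ∧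
      (q.range ⊔ stb σ = ⊤ → NN' π ε ⊔ stb (cstC φ (NN' π ε) σ) = ⊤) ∧
      ∀ σ' : Finset (Subgroup K1), ChN ℓ q.range σ' → ∀ n : Ω → Q,
        (cjC (π (ε n)) (cstC φ (NN' π ε) σ) = cstC φ (NN' π ε) σ' ↔
          ∀ o, cjC (q (n o)) σ = σ')

open Classical in
/-- TOG: the chains which are not closed cancel. -/
def Stmt_TOG : Prop :=
  ∀ (L K K1 Q Ω : Type) [Group L] [Fintype L] [Group K] [Fintype K] [Group K1] [Fintype K1]
    [Group Q] [Fintype Q] [Fintype Ω] (ℓ : ℕ) [Fact ℓ.Prime] (π : L →* K)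
    (μ : π.ker →* ℂˣ) (φ : K →* Gam (Equiv.Perm Ω) Ω K1) (q : Q →* K1) (α : K1 →* MulAut Q)
    (ε : (Ω → Q) →* L) (μQ : q.ker →* ℂˣ), WD π μ φ q α ε μQ → ∀ G : Subgroup K → ℂ,
    ∑ σ ∈ Ch ℓ (⊥ : Subgroup K) with ChN ℓ (NN' π ε) σ, (-1 : ℂ) ^ σ.card * G (stb σ) =
      ∑ σ ∈ Ch ℓ (⊥ : Subgroup K) with ChN ℓ (NN' π ε) σ ∧ Clo φ (NN' π ε) σ,
        (-1 : ℂ) ^ σ.card * G (stb σ)

/-- TNA: products of characters are irreducible. -/
def Stmt_TNA : Prop :=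
  ∀ (L K K1 Q Ω : Type) [Group L] [Fintype L] [Group K] [Fintype K] [Group K1] [Fintype K1]
    [Group Q] [Fintype Q] [Fintype Ω] (π : L →* K)
    (μ : π.ker →* ℂˣ) (φ : K →* Gam (Equiv.Perm Ω) Ω K1) (q : Q →* K1) (α : K1 →* MulAut Q)
    (ε : (Ω → Q) →* L) (μQ : q.ker →* ℂˣ), WD π μ φ q α ε μQ → ∀ S : Ω → Subgroup K1,
    (∀ f : Ω → Q → ℂ, (∀ o, IrrOn ((S o).comap q) (f o) ∧ Ov q μQ (f o)) →
      ∃ F : L → ℂ, IrrOn (AL π (NN' π ε) (PS φ S)) F ∧ Ov π μ F ∧ TF ε f F) ∧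
    (∀ F : L → ℂ, IrrOn (AL π (NN' π ε) (PS φ S)) F → Ov π μ F →
      ∃ f : Ω → Q → ℂ, (∀ o, IrrOn ((S o).comap q) (f o) ∧ Ov q μQ (f o)) ∧ TF ε f F) ∧
    ∀ (f f' : Ω → Q → ℂ) (F : L → ℂ), (∀ o, IrrOn ((S o).comap q) (f o)) →
      (∀ o, IrrOn ((S o).comap q) (f' o)) → TF ε f F → TF ε f' F → f = f'

/-- CLS: the invariant pairs of closed chains are conjugate to pairs with constant
coordinates. -/
def Stmt_CLS : Prop :=
  ∀ (L K K1 Q Ω : Type) [Group L] [Fintype L] [Group K] [Fintype K] [Group K1] [Fintype K1]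
    [Group Q] [Fintype Q] [Fintype Ω] [Nonempty Ω] (ℓ : ℕ) [Fact ℓ.Prime] (π : L →* K)
    (μ : π.ker →* ℂˣ) (φ : K →* Gam (Equiv.Perm Ω) Ω K1) (q : Q →* K1) (α : K1 →* MulAut Q)
    (ε : (Ω → Q) →* L) (μQ : q.ker →* ℂˣ), WD π μ φ q α ε μQ →
    ∀ (σ : Finset (Subgroup K)) (f : L → ℂ), ChN ℓ (NN' π ε) σ → Clo φ (NN' π ε) σ →
    IrrOn (AL π (NN' π ε) (stb σ)) f → Ov π μ f → NN' π ε ⊔ stb σ = ⊤ →
    (∀ t, π t ∈ stb σ → ∀ x, f (t * x * t⁻¹) = f x) →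
    ∃ (n : Ω → Q) (σ1 : Finset (Subgroup K1)) (f1 : Q → ℂ), ChN ℓ q.range σ1 ∧
      σ = cjC (π (ε n)) (cstC φ (NN' π ε) σ1) ∧ IrrOn ((stb σ1).comap q) f1 ∧ Ov q μQ f1 ∧
      q.range ⊔ stb σ1 = ⊤ ∧ (∀ k ∈ stb σ1, ∀ x, f1 (α k x) = f1 x) ∧
      TF ε (fun _ => f1) (cjF (ε n)⁻¹ f)

/-! ### Products of scalars -/

open Classical in
/-- PRC: products of scalars. -/
def Stmt_PRC : Prop :=
  ∀ (Q Ω : Type) [Group Q] [Fintype Q] [Fintype Ω] (𝔐 : Ideal (integralClosure ℤ ℂ)) (ℓ : ℕ)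
    [Fact ℓ.Prime], 𝔐.IsMaximal → (ℓ : integralClosure ℤ ℂ) ∈ 𝔐 → ∀ (Z : Subgroup Q)
    (μ : Z →* ℂˣ), Z ≤ Subgroup.center Q → Function.Injective μ → ∀ β : Ω → MulAut Q,
    (∀ o, ∀ z ∈ Z, β o z = z) → ∀ Φ Φ' : Ω → Q → ℂ,
    (∀ o (z : Z) n, Φ o (z * n) = ((μ z : ℂˣ) : ℂ) * Φ o n) →
    (∀ o (z : Z) n, Φ' o (z * n) = ((μ z : ℂˣ) : ℂ) * Φ' o n) →
    (∀ o (w : Q → ℤ), (∀ a n, w (β o a * n * a⁻¹) = w n) →
      IsIntegral ℤ (∑ n, ((w n : ℤ) : ℂ) * Φ o n) ∧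
      IsIntegral ℤ (∑ n, ((w n : ℤ) : ℂ) * Φ' o n) ∧
      red 𝔐 (∑ n, ((w n : ℤ) : ℂ) * Φ o n) = red 𝔐 (∑ n, ((w n : ℤ) : ℂ) * Φ' o n)) →
    ∀ u : (Ω → Q) → ℤ, (∀ a n : Ω → Q, u (fun o => β o (a o) * n o * (a o)⁻¹) = u n) →
    (∀ (z : Ω → Z) (n : Ω → Q), (∏ o, μ (z o)) = 1 → u (fun o => z o * n o) = u n) →
    IsIntegral ℤ ((∑ n : Ω → Q, ((u n : ℤ) : ℂ) * ∏ o, Φ o (n o)) /
      Nat.card {z : Ω → Z // ∏ o, μ (z o) = 1}) ∧
    red 𝔐 ((∑ n : Ω → Q, ((u n : ℤ) : ℂ) * ∏ o, Φ o (n o)) /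
      Nat.card {z : Ω → Z // ∏ o, μ (z o) = 1}) =
    red 𝔐 ((∑ n : Ω → Q, ((u n : ℤ) : ℂ) * ∏ o, Φ' o (n o)) /
      Nat.card {z : Ω → Z // ∏ o, μ (z o) = 1})

/-- LMT: the blocks of products of characters. -/
def Stmt_LMT : Prop :=
  ∀ (L K K1 Q Ω : Type) [Group L] [Fintype L] [Group K] [Fintype K] [Group K1] [Fintype K1]
    [Group Q] [Fintype Q] [Fintype Ω] (𝔐 : Ideal (integralClosure ℤ ℂ)) (ℓ : ℕ)
    [Fact ℓ.Prime], 𝔐.IsMaximal → (ℓ : integralClosure ℤ ℂ) ∈ 𝔐 → ∀ (π : L →* K)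
    (μ : π.ker →* ℂˣ) (φ : K →* Gam (Equiv.Perm Ω) Ω K1) (q : Q →* K1) (α : K1 →* MulAut Q)
    (ε : (Ω → Q) →* L) (μQ : q.ker →* ℂˣ), WD π μ φ q α ε μQ →
    ∀ (S S' : Ω → Subgroup K1) (f f' : Ω → Q → ℂ) (F F' : L → ℂ),
    (∀ o, IrrOn ((S o).comap q) (f o) ∧ Ov q μQ (f o)) →
    (∀ o, IrrOn ((S' o).comap q) (f' o) ∧ Ov q μQ (f' o)) → TF ε f F → TF ε f' F' →
    ((∀ (o : Ω) (u : Q → ℤ), CIv ⊤ u → sc 𝔐 (f o) u = sc 𝔐 (f' o) u) ↔
      ∀ u : L → ℤ, CIv ((NN' π ε).comap π) u → SOn ((NN' π ε).comap π : Set L) u →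
        sc 𝔐 F u = sc 𝔐 F' u)

/-- PRF: products of the scalars on cosets. -/
def Stmt_PRF : Prop :=
  ∀ (L K K1 Q L1 Ω : Type) [Group L] [Fintype L] [Group K] [Fintype K] [Group K1]
    [Fintype K1] [Group Q] [Fintype Q] [Group L1] [Fintype L1] [Fintype Ω]
    (𝔐 : Ideal (integralClosure ℤ ℂ)) (ℓ : ℕ) [Fact ℓ.Prime], 𝔐.IsMaximal →
    (ℓ : integralClosure ℤ ℂ) ∈ 𝔐 → ∀ (π : L →* K) (μ : π.ker →* ℂˣ)
    (φ : K →* Gam (Equiv.Perm Ω) Ω K1) (q : Q →* K1) (α : K1 →* MulAut Q)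
    (ε : (Ω → Q) →* L) (μQ : q.ker →* ℂˣ) (π1 : L1 →* K1) (μ1 : π1.ker →* ℂˣ)
    (ι : Q →* L1) (M : Subgroup K) (M1 : Subgroup K1), WD π μ φ q α ε μQ →
    LD q α μQ π1 μ1 ι → MM ℓ π φ q ε M M1 → ∀ (S S' : Subgroup K1) (F F' : L1 → ℂ),
    EF π1 q.range M1 S F → EF π1 q.range M1 S' F' → Ov π1 μ1 F → Ov π1 μ1 F' →
    (∀ u : L1 → ℤ, CIv (q.range.comap π1) u → sc 𝔐 F u = sc 𝔐 F' u) →
    ∀ x ∈ MY π φ π1 M, ∀ u : L → ℤ, CIv ((NN' π ε).comap π) u →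
      IsIntegral ℤ (psm ε ι F u x) ∧ IsIntegral ℤ (psm ε ι F' u x) ∧
      red 𝔐 (psm ε ι F u x) = red 𝔐 (psm ε ι F' u x)

/-! ### The group `M` -/

/-- TRO: `M` acts trivially on `Ω`. -/
def Stmt_TRO (Cl : ∀ (Y : Type) [Group Y], Prop) : Prop :=
  ∀ (L K K1 Q Ω : Type) [Group L] [Fintype L] [Group K] [Fintype K] [Group K1] [Fintype K1]
    [Group Q] [Fintype Q] [Fintype Ω] (𝔐 : Ideal (integralClosure ℤ ℂ)) (ℓ : ℕ)
    [Fact ℓ.Prime], 𝔐.IsMaximal → (ℓ : integralClosure ℤ ℂ) ∈ 𝔐 → ∀ (π : L →* K)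
    (μ : π.ker →* ℂˣ) (φ : K →* Gam (Equiv.Perm Ω) Ω K1) (q : Q →* K1) (α : K1 →* MulAut Q)
    (ε : (Ω → Q) →* L) (μQ : q.ker →* ℂˣ), WD π μ φ q α ε μQ → Cl q.range →
    HR Cl ℓ (Nat.card q.range) →
    ∀ (M : Subgroup K) [M.Normal], NN' π ε ≤ M → ¬ ℓ ∣ (NN' π ε).relIndex M →
    ∀ ω : L → (integralClosure ℤ ℂ) ⧸ 𝔐, Pos 𝔐 ℓ π μ M ω → STB 𝔐 π μ (NN' π ε) ω →
    SPP 𝔐 π μ (NN' π ε) M ω → ∀ (σ : Finset (Subgroup K)) (θ : L → ℂ),
    ChN ℓ (NN' π ε) σ → BPs 𝔐 π μ M ω (stb σ) θ → ∀ m ∈ M, (φ m).right = 1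

/-- MMC: the group of the coordinates of the elements of `M`. -/
def Stmt_MMC : Prop :=
  ∀ (L K K1 Q Ω : Type) [Group L] [Fintype L] [Group K] [Fintype K] [Group K1] [Fintype K1]
    [Group Q] [Fintype Q] [Fintype Ω] [Nonempty Ω] (ℓ : ℕ) [Fact ℓ.Prime] (π : L →* K)
    (μ : π.ker →* ℂˣ) (φ : K →* Gam (Equiv.Perm Ω) Ω K1) (q : Q →* K1) (α : K1 →* MulAut Q)
    (ε : (Ω → Q) →* L) (μQ : q.ker →* ℂˣ), WD π μ φ q α ε μQ →
    ∀ (M : Subgroup K) [M.Normal], NN' π ε ≤ M → ¬ ℓ ∣ (NN' π ε).relIndex M →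
    (∀ m ∈ M, (φ m).right = 1) → ∃ M1 : Subgroup K1, MM ℓ π φ q ε M M1

/-- SUL: the support of the characters of the coordinates. -/
def Stmt_SUL : Prop :=
  ∀ (L K K1 Q L1 Ω : Type) [Group L] [Fintype L] [Group K] [Fintype K] [Group K1]
    [Fintype K1] [Group Q] [Fintype Q] [Group L1] [Fintype L1] [Fintype Ω] [Nonempty Ω]
    (𝔐 : Ideal (integralClosure ℤ ℂ)) (ℓ : ℕ) [Fact ℓ.Prime], 𝔐.IsMaximal →
    (ℓ : integralClosure ℤ ℂ) ∈ 𝔐 → ∀ (π : L →* K) (μ : π.ker →* ℂˣ)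
    (φ : K →* Gam (Equiv.Perm Ω) Ω K1) (q : Q →* K1) (α : K1 →* MulAut Q)
    (ε : (Ω → Q) →* L) (μQ : q.ker →* ℂˣ) (π1 : L1 →* K1) (μ1 : π1.ker →* ℂˣ)
    (ι : Q →* L1) (M : Subgroup K) (M1 : Subgroup K1), WD π μ φ q α ε μQ →
    LD q α μQ π1 μ1 ι → MM ℓ π φ q ε M M1 → ∀ (σr : Finset (Subgroup K1)) (Fr : L1 → ℂ),
    ChN ℓ q.range σr → EF π1 q.range M1 (stb σr) Fr → Ov π1 μ1 Fr → ∀ f : L → ℂ,
    IrrOn (AL π (NN' π ε) (stb (cstC φ (NN' π ε) σr))) f →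
    (∀ n : Ω → Q, f (ε n) = ∏ o, Fr (ι (n o))) →
    (∀ x, π x ∈ M → ∃ u v : L → ℤ, CIv ((NN' π ε).comap π) u ∧
      CIv ((NN' π ε).comap π) v ∧ SOn {y | π (x⁻¹ * y) ∈ NN' π ε} u ∧
      SOn {y | π (x * y) ∈ NN' π ε} v ∧ sc 𝔐 f (conv u v) ≠ 0) →
    SUP 𝔐 π1 q.range M1 Fr

/-! ### The character of the quotient -/

/-- ZEX: a character over a product of characters is a product. -/
def Stmt_ZEX : Prop :=
  ∀ (L K K1 Q L1 Ω : Type) [Group L] [Fintype L] [Group K] [Fintype K] [Group K1]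
    [Fintype K1] [Group Q] [Fintype Q] [Group L1] [Fintype L1] [Fintype Ω] [Nonempty Ω]
    (ℓ : ℕ) [Fact ℓ.Prime] (π : L →* K) (μ : π.ker →* ℂˣ)
    (φ : K →* Gam (Equiv.Perm Ω) Ω K1) (q : Q →* K1) (α : K1 →* MulAut Q)
    (ε : (Ω → Q) →* L) (μQ : q.ker →* ℂˣ) (π1 : L1 →* K1) (μ1 : π1.ker →* ℂˣ)
    (ι : Q →* L1) (M : Subgroup K) (M1 : Subgroup K1), WD π μ φ q α ε μQ →
    LD q α μQ π1 μ1 ι → MM ℓ π φ q ε M M1 → ∀ (σ : Finset (Subgroup K1)) (F : L1 → ℂ),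
    ChN ℓ q.range σ → EF π1 q.range M1 (stb σ) F → Ov π1 μ1 F → ∀ (θ : L → ℂ) (e : ℂ),
    IrrOn (AL π M (stb (cstC φ (NN' π ε) σ))) θ → Ov π μ θ →
    (∀ n : Ω → Q, θ (ε n) = e * ∏ o, F (ι (n o))) →
    ∃ ζ, ZT π φ π1 μ1 ε ι M ζ ∧ TP π φ π1 M F ζ θ

/-- ZCO: products are characters. -/
def Stmt_ZCO : Prop :=
  ∀ (L K K1 Q L1 Ω : Type) [Group L] [Fintype L] [Group K] [Fintype K] [Group K1]
    [Fintype K1] [Group Q] [Fintype Q] [Group L1] [Fintype L1] [Fintype Ω] [Nonempty Ω]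
    (ℓ : ℕ) [Fact ℓ.Prime] (π : L →* K) (μ : π.ker →* ℂˣ)
    (φ : K →* Gam (Equiv.Perm Ω) Ω K1) (q : Q →* K1) (α : K1 →* MulAut Q)
    (ε : (Ω → Q) →* L) (μQ : q.ker →* ℂˣ) (π1 : L1 →* K1) (μ1 : π1.ker →* ℂˣ)
    (ι : Q →* L1) (M : Subgroup K) (M1 : Subgroup K1), WD π μ φ q α ε μQ →
    LD q α μQ π1 μ1 ι → MM ℓ π φ q ε M M1 → ∀ (σ : Finset (Subgroup K1)) (F : L1 → ℂ),
    ChN ℓ q.range σ → EF π1 q.range M1 (stb σ) F → Ov π1 μ1 F → ∀ ζ,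
    ZT π φ π1 μ1 ε ι M ζ →
    ∃ θ : L → ℂ, IrrOn (AL π M (stb (cstC φ (NN' π ε) σ))) θ ∧ Ov π μ θ ∧
      TP π φ π1 M F ζ θ

/-- CMA: the central functions of products. -/
def Stmt_CMA : Prop :=
  ∀ (L K K1 Q L1 Ω : Type) [Group L] [Fintype L] [Group K] [Fintype K] [Group K1]
    [Fintype K1] [Group Q] [Fintype Q] [Group L1] [Fintype L1] [Fintype Ω] [Nonempty Ω]
    (𝔐 : Ideal (integralClosure ℤ ℂ)) (ℓ : ℕ) [Fact ℓ.Prime], 𝔐.IsMaximal →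
    (ℓ : integralClosure ℤ ℂ) ∈ 𝔐 → ∀ (π : L →* K) (μ : π.ker →* ℂˣ)
    (φ : K →* Gam (Equiv.Perm Ω) Ω K1) (q : Q →* K1) (α : K1 →* MulAut Q)
    (ε : (Ω → Q) →* L) (μQ : q.ker →* ℂˣ) (π1 : L1 →* K1) (μ1 : π1.ker →* ℂˣ)
    (ι : Q →* L1) (M : Subgroup K) (M1 : Subgroup K1), WD π μ φ q α ε μQ →
    LD q α μQ π1 μ1 ι → MM ℓ π φ q ε M M1 → ∀ (S S' : Subgroup K1) (F F' : L1 → ℂ),
    EF π1 q.range M1 S F → EF π1 q.range M1 S' F' → Ov π1 μ1 F → Ov π1 μ1 F' →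
    (∀ u : L1 → ℤ, CIv (q.range.comap π1) u → sc 𝔐 F u = sc 𝔐 F' u) →
    ∀ ζ, ZT π φ π1 μ1 ε ι M ζ → ∀ (T T' : Subgroup K) (θ θ' : L → ℂ),
    IrrOn (AL π M T) θ → IrrOn (AL π M T') θ' → TP π φ π1 M F ζ θ →
    TP π φ π1 M F' ζ θ' → ∀ u : L → ℤ, CIv (M.comap π) u → sc 𝔐 θ u = sc 𝔐 θ' u

/-- CMB: the character of the quotient is determined by the central function. -/
def Stmt_CMB : Prop :=
  ∀ (L K K1 Q L1 Ω : Type) [Group L] [Fintype L] [Group K] [Fintype K] [Group K1]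
    [Fintype K1] [Group Q] [Fintype Q] [Group L1] [Fintype L1] [Fintype Ω] [Nonempty Ω]
    (𝔐 : Ideal (integralClosure ℤ ℂ)) (ℓ : ℕ) [Fact ℓ.Prime], 𝔐.IsMaximal →
    (ℓ : integralClosure ℤ ℂ) ∈ 𝔐 → ∀ (π : L →* K) (μ : π.ker →* ℂˣ)
    (φ : K →* Gam (Equiv.Perm Ω) Ω K1) (q : Q →* K1) (α : K1 →* MulAut Q)
    (ε : (Ω → Q) →* L) (μQ : q.ker →* ℂˣ) (π1 : L1 →* K1) (μ1 : π1.ker →* ℂˣ)
    (ι : Q →* L1) (M : Subgroup K) (M1 : Subgroup K1), WD π μ φ q α ε μQ →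
    LD q α μQ π1 μ1 ι → MM ℓ π φ q ε M M1 → ∀ (S S' : Subgroup K1) (F F' : L1 → ℂ),
    EF π1 q.range M1 S F → EF π1 q.range M1 S' F' → Ov π1 μ1 F → Ov π1 μ1 F' →
    SUP 𝔐 π1 q.range M1 F →
    (∀ u : L1 → ℤ, CIv (q.range.comap π1) u → sc 𝔐 F u = sc 𝔐 F' u) →
    ∀ ζ ζ', ZT π φ π1 μ1 ε ι M ζ → ZT π φ π1 μ1 ε ι M ζ' →
    ∀ (T T' : Subgroup K) (θ θ' : L → ℂ), IrrOn (AL π M T) θ → IrrOn (AL π M T') θ' →
    TP π φ π1 M F ζ θ → TP π φ π1 M F' ζ' θ' →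
    (∀ u : L → ℤ, CIv (M.comap π) u → SOn (M.comap π : Set L) u →
      sc 𝔐 θ u = sc 𝔐 θ' u) → ζ = ζ'

/-- ZIN: invariance. -/
def Stmt_ZIN : Prop :=
  ∀ (L K K1 Q L1 Ω : Type) [Group L] [Fintype L] [Group K] [Fintype K] [Group K1]
    [Fintype K1] [Group Q] [Fintype Q] [Group L1] [Fintype L1] [Fintype Ω] [Nonempty Ω]
    (ℓ : ℕ) [Fact ℓ.Prime] (π : L →* K) (μ : π.ker →* ℂˣ)
    (φ : K →* Gam (Equiv.Perm Ω) Ω K1) (q : Q →* K1) (α : K1 →* MulAut Q)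
    (ε : (Ω → Q) →* L) (μQ : q.ker →* ℂˣ) (π1 : L1 →* K1) (μ1 : π1.ker →* ℂˣ)
    (ι : Q →* L1) (M : Subgroup K) (M1 : Subgroup K1), WD π μ φ q α ε μQ →
    LD q α μQ π1 μ1 ι → MM ℓ π φ q ε M M1 → ∀ (σ : Finset (Subgroup K1)) (F : L1 → ℂ),
    ChN ℓ q.range σ → EF π1 q.range M1 (stb σ) F → Ov π1 μ1 F →
    q.range ⊔ stb σ = ⊤ → (∀ t, π1 t ∈ stb σ → ∀ x, F (t * x * t⁻¹) = F x) →
    ∀ ζ, ZT π φ π1 μ1 ε ι M ζ → ∀ θ : L → ℂ, TP π φ π1 M F ζ θ →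
    ((∀ t, π t ∈ stb (cstC φ (NN' π ε) σ) → ∀ x, θ (t * x * t⁻¹) = θ x) ↔
      ∀ y ∈ YY π φ π1, ∀ x, ζ (y * x * y⁻¹) = ζ x)

/-- DFT: the defects of products. -/
def Stmt_DFT : Prop :=
  ∀ (L K K1 Q L1 Ω : Type) [Group L] [Fintype L] [Group K] [Fintype K] [Group K1]
    [Fintype K1] [Group Q] [Fintype Q] [Group L1] [Fintype L1] [Fintype Ω] [Nonempty Ω]
    (ℓ : ℕ) [Fact ℓ.Prime] (π : L →* K) (μ : π.ker →* ℂˣ)
    (φ : K →* Gam (Equiv.Perm Ω) Ω K1) (q : Q →* K1) (α : K1 →* MulAut Q)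
    (ε : (Ω → Q) →* L) (μQ : q.ker →* ℂˣ) (π1 : L1 →* K1) (μ1 : π1.ker →* ℂˣ)
    (ι : Q →* L1) (M : Subgroup K) (M1 : Subgroup K1), WD π μ φ q α ε μQ →
    LD q α μQ π1 μ1 ι → MM ℓ π φ q ε M M1 → ∀ (σ : Finset (Subgroup K1)) (F : L1 → ℂ),
    ChN ℓ q.range σ → EF π1 q.range M1 (stb σ) F → Ov π1 μ1 F → ∀ ζ,
    ZT π φ π1 μ1 ε ι M ζ → ∀ θ : L → ℂ, TP π φ π1 M F ζ θ →
    Nat.card ↥(M ⊓ stb (cstC φ (NN' π ε) σ)) * Nat.card q.range ^ Fintype.card Ω =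
      Nat.card M * Nat.card ↥(q.range ⊓ stb σ) ^ Fintype.card Ω ∧
    ∀ n : ℕ, HasDefect ℓ (fun s : AL π M (stb (cstC φ (NN' π ε) σ)) => θ s) n ↔
      ∃ n1, HasDefect ℓ (fun s : AL π1 M1 (stb σ) => F s) n1 ∧
        n + Fintype.card Ω * padicValNat ℓ (Nat.card π1.ker) =
          Fintype.card Ω * n1 + padicValNat ℓ (Nat.card π.ker)

/-- PSI: conjugacy of products. -/
def Stmt_PSI : Prop :=
  ∀ (L K K1 Q L1 Ω : Type) [Group L] [Fintype L] [Group K] [Fintype K] [Group K1]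
    [Fintype K1] [Group Q] [Fintype Q] [Group L1] [Fintype L1] [Fintype Ω] [Nonempty Ω]
    (𝔐 : Ideal (integralClosure ℤ ℂ)) (ℓ : ℕ) [Fact ℓ.Prime], 𝔐.IsMaximal →
    (ℓ : integralClosure ℤ ℂ) ∈ 𝔐 → ∀ (π : L →* K) (μ : π.ker →* ℂˣ)
    (φ : K →* Gam (Equiv.Perm Ω) Ω K1) (q : Q →* K1) (α : K1 →* MulAut Q)
    (ε : (Ω → Q) →* L) (μQ : q.ker →* ℂˣ) (π1 : L1 →* K1) (μ1 : π1.ker →* ℂˣ)
    (ι : Q →* L1) (M : Subgroup K) (M1 : Subgroup K1) (σr : Finset (Subgroup K1))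
    (Fr : L1 → ℂ) (ζ : L × Gam (Equiv.Perm Ω) Ω L1 → ℂ),
    RF 𝔐 ℓ π μ φ q α ε μQ π1 μ1 ι M M1 σr Fr ζ →
    ∀ (σ σ' : Finset (Subgroup K1)) (F F' : L1 → ℂ) (θ θ' : L → ℂ), ChN ℓ q.range σ →
    ChN ℓ q.range σ' → q.range ⊔ stb σ = ⊤ → q.range ⊔ stb σ' = ⊤ →
    EF π1 q.range M1 (stb σ) F → EF π1 q.range M1 (stb σ') F' →
    Ov π1 μ1 F → Ov π1 μ1 F' →
    (∀ u : L1 → ℤ, CIv (q.range.comap π1) u → sc 𝔐 F u = sc 𝔐 Fr u) →
    (∀ u : L1 → ℤ, CIv (q.range.comap π1) u → sc 𝔐 F' u = sc 𝔐 Fr u) →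
    TP π φ π1 M F ζ θ → TP π φ π1 M F' ζ θ' → ∀ n : Ω → Q,
    ((cjC (π (ε n)) (cstC φ (NN' π ε) σ) = cstC φ (NN' π ε) σ' ∧ cjF (ε n) θ = θ') ↔
      ∀ o, cjC (q (n o)) σ = σ' ∧ cjF (ι (n o)) F = F') ∧
    ((stb (cstC φ (NN' π ε) σ)).map (MulAut.conj (π (ε n))).toMonoidHom =
        stb (cstC φ (NN' π ε) σ') → cjF (ε n) θ = θ' →
      ∀ o, (stb σ).map (MulAut.conj (q (n o))).toMonoidHom = stb σ' ∧
        cjF (ι (n o)) F = F')

/-! ### Pairs of the two levels -/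

/-- RFE: existence of reference data. -/
def Stmt_RFE : Prop :=
  ∀ (L K K1 Q Ω : Type) [Group L] [Fintype L] [Group K] [Fintype K] [Group K1] [Fintype K1]
    [Group Q] [Fintype Q] [Fintype Ω] [Nonempty Ω] (𝔐 : Ideal (integralClosure ℤ ℂ)) (ℓ : ℕ)
    [Fact ℓ.Prime], 𝔐.IsMaximal → (ℓ : integralClosure ℤ ℂ) ∈ 𝔐 → ∀ (π : L →* K)
    (μ : π.ker →* ℂˣ) (φ : K →* Gam (Equiv.Perm Ω) Ω K1) (q : Q →* K1) (α : K1 →* MulAut Q)
    (ε : (Ω → Q) →* L) (μQ : q.ker →* ℂˣ), WD π μ φ q α ε μQ →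
    ∀ (M : Subgroup K) (M1 : Subgroup K1), MM ℓ π φ q ε M M1 →
    ∀ ω : L → (integralClosure ℤ ℂ) ⧸ 𝔐, STB 𝔐 π μ (NN' π ε) ω →
    SPP 𝔐 π μ (NN' π ε) M ω → ∀ (σ : Finset (Subgroup K)) (θ : L → ℂ),
    ChN ℓ (NN' π ε) σ → Clo φ (NN' π ε) σ → BPs 𝔐 π μ M ω (stb σ) θ →
    ∃ (L1 : Type) (_ : Group L1) (_ : Fintype L1) (π1 : L1 →* K1) (μ1 : π1.ker →* ℂˣ)
      (ι : Q →* L1) (σr : Finset (Subgroup K1)) (Fr : L1 → ℂ)
      (ζ : L × Gam (Equiv.Perm Ω) Ω L1 → ℂ) (θr : L → ℂ),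
      RF 𝔐 ℓ π μ φ q α ε μQ π1 μ1 ι M M1 σr Fr ζ ∧
      BPs 𝔐 π μ M ω (stb (cstC φ (NN' π ε) σr)) θr ∧ TP π φ π1 M Fr ζ θr

/-- RSC: the pairs of `L1` in the block of the reference pair. -/
def Stmt_RSC : Prop :=
  ∀ (L K K1 Q L1 Ω : Type) [Group L] [Fintype L] [Group K] [Fintype K] [Group K1]
    [Fintype K1] [Group Q] [Fintype Q] [Group L1] [Fintype L1] [Fintype Ω] [Nonempty Ω]
    (𝔐 : Ideal (integralClosure ℤ ℂ)) (ℓ : ℕ) [Fact ℓ.Prime], 𝔐.IsMaximal →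
    (ℓ : integralClosure ℤ ℂ) ∈ 𝔐 → ∀ (π : L →* K) (μ : π.ker →* ℂˣ)
    (φ : K →* Gam (Equiv.Perm Ω) Ω K1) (q : Q →* K1) (α : K1 →* MulAut Q)
    (ε : (Ω → Q) →* L) (μQ : q.ker →* ℂˣ) (π1 : L1 →* K1) (μ1 : π1.ker →* ℂˣ)
    (ι : Q →* L1) (M : Subgroup K) (M1 : Subgroup K1) (σr : Finset (Subgroup K1))
    (Fr : L1 → ℂ) (ζ : L × Gam (Equiv.Perm Ω) Ω L1 → ℂ),
    RF 𝔐 ℓ π μ φ q α ε μQ π1 μ1 ι M M1 σr Fr ζ →
    BPs 𝔐 π1 μ1 M1 (cg 𝔐 Fr) (stb σr) Fr ∧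
    ∀ (σ : Finset (Subgroup K1)) (F : L1 → ℂ), ChN ℓ M1 σ →
      BPs 𝔐 π1 μ1 M1 (cg 𝔐 Fr) (stb σ) F → ChN ℓ q.range σ ∧ EF π1 q.range M1 (stb σ) F ∧
        q.range ⊔ stb σ = ⊤ ∧
        ∀ u : L1 → ℤ, CIv (q.range.comap π1) u → sc 𝔐 F u = sc 𝔐 Fr u

/-- UPP: the pairs of `L` which belong to the pairs of `L1`. -/
def Stmt_UPP : Prop :=
  ∀ (L K K1 Q L1 Ω : Type) [Group L] [Fintype L] [Group K] [Fintype K] [Group K1]
    [Fintype K1] [Group Q] [Fintype Q] [Group L1] [Fintype L1] [Fintype Ω] [Nonempty Ω]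
    (𝔐 : Ideal (integralClosure ℤ ℂ)) (ℓ : ℕ) [Fact ℓ.Prime], 𝔐.IsMaximal →
    (ℓ : integralClosure ℤ ℂ) ∈ 𝔐 → ∀ (π : L →* K) (μ : π.ker →* ℂˣ)
    (φ : K →* Gam (Equiv.Perm Ω) Ω K1) (q : Q →* K1) (α : K1 →* MulAut Q)
    (ε : (Ω → Q) →* L) (μQ : q.ker →* ℂˣ) (π1 : L1 →* K1) (μ1 : π1.ker →* ℂˣ)
    (ι : Q →* L1) (M : Subgroup K) (M1 : Subgroup K1) (σr : Finset (Subgroup K1))
    (Fr : L1 → ℂ) (ζ : L × Gam (Equiv.Perm Ω) Ω L1 → ℂ),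
    RF 𝔐 ℓ π μ φ q α ε μQ π1 μ1 ι M M1 σr Fr ζ →
    ∀ (ω : L → (integralClosure ℤ ℂ) ⧸ 𝔐) (θr : L → ℂ), TP π φ π1 M Fr ζ θr →
    BPs 𝔐 π μ M ω (stb (cstC φ (NN' π ε) σr)) θr →
    ∀ (σ : Finset (Subgroup K1)) (F : L1 → ℂ), ChN ℓ M1 σ →
    BPs 𝔐 π1 μ1 M1 (cg 𝔐 Fr) (stb σ) F →
    ∃ θ : L → ℂ, TP π φ π1 M F ζ θ ∧ BPs 𝔐 π μ M ω (stb (cstC φ (NN' π ε) σ)) θ

/-- DWN: every pair of `L` of a closed chain is conjugate to a pair which belongs to a pair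
of `L1`. -/
def Stmt_DWN : Prop :=
  ∀ (L K K1 Q L1 Ω : Type) [Group L] [Fintype L] [Group K] [Fintype K] [Group K1]
    [Fintype K1] [Group Q] [Fintype Q] [Group L1] [Fintype L1] [Fintype Ω] [Nonempty Ω]
    (𝔐 : Ideal (integralClosure ℤ ℂ)) (ℓ : ℕ) [Fact ℓ.Prime], 𝔐.IsMaximal →
    (ℓ : integralClosure ℤ ℂ) ∈ 𝔐 → ∀ (π : L →* K) (μ : π.ker →* ℂˣ)
    (φ : K →* Gam (Equiv.Perm Ω) Ω K1) (q : Q →* K1) (α : K1 →* MulAut Q)
    (ε : (Ω → Q) →* L) (μQ : q.ker →* ℂˣ) (π1 : L1 →* K1) (μ1 : π1.ker →* ℂˣ)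
    (ι : Q →* L1) (M : Subgroup K) (M1 : Subgroup K1) (σr : Finset (Subgroup K1))
    (Fr : L1 → ℂ) (ζ : L × Gam (Equiv.Perm Ω) Ω L1 → ℂ),
    RF 𝔐 ℓ π μ φ q α ε μQ π1 μ1 ι M M1 σr Fr ζ →
    ∀ (ω : L → (integralClosure ℤ ℂ) ⧸ 𝔐) (θr : L → ℂ), TP π φ π1 M Fr ζ θr →
    BPs 𝔐 π μ M ω (stb (cstC φ (NN' π ε) σr)) θr → STB 𝔐 π μ (NN' π ε) ω →
    SPP 𝔐 π μ (NN' π ε) M ω → ∀ (σ : Finset (Subgroup K)) (θ : L → ℂ),
    ChN ℓ (NN' π ε) σ → Clo φ (NN' π ε) σ → BPs 𝔐 π μ M ω (stb σ) θ →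
    ∃ (n : Ω → Q) (σ1 : Finset (Subgroup K1)) (F1 : L1 → ℂ), ChN ℓ M1 σ1 ∧
      BPs 𝔐 π1 μ1 M1 (cg 𝔐 Fr) (stb σ1) F1 ∧
      σ = cjC (π (ε n)) (cstC φ (NN' π ε) σ1) ∧ TP π φ π1 M F1 ζ (cjF (ε n)⁻¹ θ)

/-- POL: no character of `L1` in the block of the reference pair has minimal defect. -/
def Stmt_POL : Prop :=
  ∀ (L K K1 Q L1 Ω : Type) [Group L] [Fintype L] [Group K] [Fintype K] [Group K1]
    [Fintype K1] [Group Q] [Fintype Q] [Group L1] [Fintype L1] [Fintype Ω] [Nonempty Ω]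
    (𝔐 : Ideal (integralClosure ℤ ℂ)) (ℓ : ℕ) [Fact ℓ.Prime], 𝔐.IsMaximal →
    (ℓ : integralClosure ℤ ℂ) ∈ 𝔐 → ∀ (π : L →* K) (μ : π.ker →* ℂˣ)
    (φ : K →* Gam (Equiv.Perm Ω) Ω K1) (q : Q →* K1) (α : K1 →* MulAut Q)
    (ε : (Ω → Q) →* L) (μQ : q.ker →* ℂˣ) (π1 : L1 →* K1) (μ1 : π1.ker →* ℂˣ)
    (ι : Q →* L1) (M : Subgroup K) (M1 : Subgroup K1) (σr : Finset (Subgroup K1))
    (Fr : L1 → ℂ) (ζ : L × Gam (Equiv.Perm Ω) Ω L1 → ℂ),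
    RF 𝔐 ℓ π μ φ q α ε μQ π1 μ1 ι M M1 σr Fr ζ →
    ∀ (ω : L → (integralClosure ℤ ℂ) ⧸ 𝔐) (θr : L → ℂ), TP π φ π1 M Fr ζ θr →
    BPs 𝔐 π μ M ω (stb (cstC φ (NN' π ε) σr)) θr → STB 𝔐 π μ (NN' π ε) ω →
    SPP 𝔐 π μ (NN' π ε) M ω → Pos 𝔐 ℓ π μ M ω → Pos 𝔐 ℓ π1 μ1 M1 (cg 𝔐 Fr)

/-! ### The relations -/

/-- LVT: the relations for the smaller group. -/
def Stmt_LVT (Cl : ∀ (Y : Type) [Group Y], Prop) : Prop :=
  ∀ (L K H : Type) [Group L] [Fintype L] [Group K] [Fintype K] [Group H] [Fintype H]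
    (𝔐 : Ideal (integralClosure ℤ ℂ)) (ℓ : ℕ) [Fact ℓ.Prime], 𝔐.IsMaximal →
    (ℓ : integralClosure ℤ ℂ) ∈ 𝔐 → ∀ π : L →* K, Function.Surjective π →
    π.ker ≤ Subgroup.center L → ∀ (μ : π.ker →* ℂˣ) (M : Subgroup K) [M.Normal]
    (p : K →* H), Function.Surjective p → (∀ k, p k = 1 ↔ k ∈ M) → ∀ P : Subgroup H,
    SylAb ℓ P → Cl K → HR Cl ℓ (Nat.card K) → ∀ ω : L → (integralClosure ℤ ℂ) ⧸ 𝔐,
    Pos 𝔐 ℓ π μ M ω →
    ∃ (W : Type) (_ : Group W) (_ : Fintype W) (πW : W →* H)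
      (ν : Subgroup K → (L → ℂ) → (πW.ker →* ℂˣ)), Function.Surjective πW ∧
      πW.ker ≤ Subgroup.center W ∧
      (∀ σ f, ChN ℓ M σ → BPs 𝔐 π μ M ω (stb σ) f →
        EDb π p M πW (stb σ) f (ν (stb σ) f)) ∧
      (∀ l, π l ∈ M → ∀ S f,
        ν (S.map (MulAut.conj (π l)).toMonoidHom) (cjF l f) = ν S f) ∧
      T2X 𝔐 ℓ π μ M ω πW P (ChN ℓ M) ν

/-- TIE: the tensor induced character. -/
def Stmt_TIE : Prop :=
  ∀ (L K H K1 H1 Q L1 W1 Ω : Type) [Group L] [Fintype L] [Group K] [Fintype K] [Group H]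
    [Group K1] [Fintype K1] [Group H1] [Group Q] [Fintype Q] [Group L1] [Fintype L1]
    [Group W1] [Fintype W1] [Fintype Ω] (ℓ : ℕ) (π : L →* K) (μ : π.ker →* ℂˣ)
    (φ : K →* Gam (Equiv.Perm Ω) Ω K1) (q : Q →* K1) (α : K1 →* MulAut Q)
    (ε : (Ω → Q) →* L) (μQ : q.ker →* ℂˣ) (π1 : L1 →* K1) (μ1 : π1.ker →* ℂˣ)
    (ι : Q →* L1) (M : Subgroup K) (M1 : Subgroup K1), WD π μ φ q α ε μQ →
    LD q α μQ π1 μ1 ι → MM ℓ π φ q ε M M1 → ∀ p1 : K1 →* H1, Function.Surjective p1 →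
    (∀ k, p1 k = 1 ↔ k ∈ M1) → ∀ πW1 : W1 →* H1, Function.Surjective πW1 →
    πW1.ker ≤ Subgroup.center W1 → ∀ (S1 : Subgroup K1) (F : L1 → ℂ)
      (ν1 : πW1.ker →* ℂˣ), IrrOn (AL π1 M1 S1) F → Ov π1 μ1 F →
      EDb π1 p1 M1 πW1 S1 F ν1 →
    ∃ E : Gam (Equiv.Perm Ω) Ω L1 × Gam (Equiv.Perm Ω) Ω W1 → ℂ,
      (∀ (B : Type) [Group B] [Finite B]
        (h : B →* Gam (Equiv.Perm Ω) Ω L1 × Gam (Equiv.Perm Ω) Ω W1),
        (∀ b, gmap Ω (p1.comp π1) (h b).1 = gmap Ω πW1 (h b).2 ∧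
          ∀ o, π1 ((h b).1.left o) ∈ S1) → IsChr (fun b => E (h b))) ∧
      (∀ g : Gam (Equiv.Perm Ω) Ω L1, g.right = 1 → (∀ o, π1 (g.left o) ∈ M1 ⊓ S1) →
        E (g, 1) = ∏ o, F (g.left o)) ∧
      ∀ (z : Ω → π1.ker) (a : Ω → πW1.ker) (g : Gam (Equiv.Perm Ω) Ω L1)
        (w : Gam (Equiv.Perm Ω) Ω W1), gmap Ω (p1.comp π1) g = gmap Ω πW1 w →
        (∀ o, π1 (g.left o) ∈ S1) →
        (∏ o, ((ν1 (a o) : ℂˣ) : ℂ)) *
          E (gin (fun o => (z o : L1)) * g, gin (fun o => (a o : W1)) * w) =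
        (∏ o, ((μ1 (z o) : ℂˣ) : ℂ)) * E (g, w)

/-- EDK: the extensions of the products. -/
def Stmt_EDK : Prop :=
  ∀ (L K H K1 H1 Q L1 W1 Ω : Type) [Group L] [Fintype L] [Group K] [Fintype K] [Group H]
    [Fintype H] [Group K1] [Fintype K1] [Group H1] [Fintype H1] [Group Q] [Fintype Q]
    [Group L1] [Fintype L1] [Group W1] [Fintype W1] [Fintype Ω] [Nonempty Ω]
    (𝔐 : Ideal (integralClosure ℤ ℂ)) (ℓ : ℕ) [Fact ℓ.Prime], 𝔐.IsMaximal →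
    (ℓ : integralClosure ℤ ℂ) ∈ 𝔐 → ∀ (π : L →* K) (μ : π.ker →* ℂˣ)
    (φ : K →* Gam (Equiv.Perm Ω) Ω K1) (q : Q →* K1) (α : K1 →* MulAut Q)
    (ε : (Ω → Q) →* L) (μQ : q.ker →* ℂˣ) (π1 : L1 →* K1) (μ1 : π1.ker →* ℂˣ)
    (ι : Q →* L1) (M : Subgroup K) (M1 : Subgroup K1) (σr : Finset (Subgroup K1))
    (Fr : L1 → ℂ) (ζ : L × Gam (Equiv.Perm Ω) Ω L1 → ℂ),
    RF 𝔐 ℓ π μ φ q α ε μQ π1 μ1 ι M M1 σr Fr ζ → ∀ p : K →* H, Function.Surjective p →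
    (∀ k, p k = 1 ↔ k ∈ M) → ∀ p1 : K1 →* H1, Function.Surjective p1 →
    (∀ k, p1 k = 1 ↔ k ∈ M1) → ∀ πW1 : W1 →* H1, Function.Surjective πW1 →
    πW1.ker ≤ Subgroup.center W1 →
    ∃ (W : Type) (_ : Group W) (_ : Fintype W) (πW : W →* H)
      (ψ : W →* Gam (Equiv.Perm Ω) Ω W1) (μ0 : πW.ker →* ℂˣ), Function.Surjective πW ∧
      (∀ w k, πW w = p k → gmap Ω πW1 (ψ w) = gmap Ω p1 (φ k)) ∧
      (∀ g k, gmap Ω πW1 g = gmap Ω p1 (φ k) → ∃ w, πW w = p k ∧ ψ w = g) ∧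
      ∀ (σ : Finset (Subgroup K1)) (F : L1 → ℂ) (ν1 : πW1.ker →* ℂˣ) (θ : L → ℂ),
        ChN ℓ q.range σ → EF π1 q.range M1 (stb σ) F → Ov π1 μ1 F →
        EDb π1 p1 M1 πW1 (stb σ) F ν1 → TP π φ π1 M F ζ θ →
        ∃ ν : πW.ker →* ℂˣ, (∀ (a : πW.ker) (h : ∀ o, (ψ (a : W)).left o ∈ πW1.ker),
            ν a = μ0 a * ∏ o, ν1 ⟨(ψ (a : W)).left o, h o⟩) ∧
          EDb π p M πW (stb (cstC φ (NN' π ε) σ)) θ ν

/-- TQC: the linear characters of the pairs of the closed chains. -/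
def Stmt_TQC : Prop :=
  ∀ (L K K1 Q L1 Ω : Type) [Group L] [Fintype L] [Group K] [Fintype K] [Group K1]
    [Fintype K1] [Group Q] [Fintype Q] [Group L1] [Fintype L1] [Fintype Ω] [Nonempty Ω]
    (𝔐 : Ideal (integralClosure ℤ ℂ)) (ℓ : ℕ) [Fact ℓ.Prime], 𝔐.IsMaximal →
    (ℓ : integralClosure ℤ ℂ) ∈ 𝔐 → ∀ (π : L →* K) (μ : π.ker →* ℂˣ)
    (φ : K →* Gam (Equiv.Perm Ω) Ω K1) (q : Q →* K1) (α : K1 →* MulAut Q)
    (ε : (Ω → Q) →* L) (μQ : q.ker →* ℂˣ) (π1 : L1 →* K1) (μ1 : π1.ker →* ℂˣ)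
    (ι : Q →* L1) (M : Subgroup K) (M1 : Subgroup K1) (σr : Finset (Subgroup K1))
    (Fr : L1 → ℂ) (ζ : L × Gam (Equiv.Perm Ω) Ω L1 → ℂ),
    RF 𝔐 ℓ π μ φ q α ε μQ π1 μ1 ι M M1 σr Fr ζ →
    ∀ (X : Type) (ξ : Subgroup K1 → (L1 → ℂ) → X) (ξ0 : Subgroup K → (L → ℂ) → X),
    (∀ l, π1 l ∈ M1 → ∀ S f,
      ξ (S.map (MulAut.conj (π1 l)).toMonoidHom) (cjF l f) = ξ S f) →
    ∃ ξ' : Subgroup K → (L → ℂ) → X,
      (∀ (σ : Finset (Subgroup K1)) (F : L1 → ℂ) (θ : L → ℂ) (n : Ω → Q), ChN ℓ M1 σ →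
        BPs 𝔐 π1 μ1 M1 (cg 𝔐 Fr) (stb σ) F → TP π φ π1 M F ζ θ →
        ξ' ((stb (cstC φ (NN' π ε) σ)).map (MulAut.conj (π (ε n))).toMonoidHom)
          (cjF (ε n) θ) = ξ (stb σ) F) ∧
      ∀ S f, (∃ (σ : Finset (Subgroup K1)) (F : L1 → ℂ) (θ : L → ℂ) (n : Ω → Q),
        ChN ℓ M1 σ ∧ BPs 𝔐 π1 μ1 M1 (cg 𝔐 Fr) (stb σ) F ∧ TP π φ π1 M F ζ θ ∧
        S = (stb (cstC φ (NN' π ε) σ)).map (MulAut.conj (π (ε n))).toMonoidHom ∧
        f = cjF (ε n) θ) ∨ ξ' S f = ξ0 S f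

/-- TQB: the relations for the pairs of the closed chains. -/
def Stmt_TQB : Prop :=
  ∀ (L K H K1 H1 Q L1 W W1 Ω : Type) [Group L] [Fintype L] [Group K] [Fintype K] [Group H]
    [Fintype H] [Group K1] [Fintype K1] [Group H1] [Fintype H1] [Group Q] [Fintype Q]
    [Group L1] [Fintype L1] [Group W] [Fintype W] [Group W1] [Fintype W1] [Fintype Ω]
    [Nonempty Ω] (𝔐 : Ideal (integralClosure ℤ ℂ)) (ℓ : ℕ) [Fact ℓ.Prime], 𝔐.IsMaximal →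
    (ℓ : integralClosure ℤ ℂ) ∈ 𝔐 → ∀ (π : L →* K) (μ : π.ker →* ℂˣ)
    (φ : K →* Gam (Equiv.Perm Ω) Ω K1) (q : Q →* K1) (α : K1 →* MulAut Q)
    (ε : (Ω → Q) →* L) (μQ : q.ker →* ℂˣ) (π1 : L1 →* K1) (μ1 : π1.ker →* ℂˣ)
    (ι : Q →* L1) (M : Subgroup K) (M1 : Subgroup K1) (σr : Finset (Subgroup K1))
    (Fr : L1 → ℂ) (ζ : L × Gam (Equiv.Perm Ω) Ω L1 → ℂ),
    RF 𝔐 ℓ π μ φ q α ε μQ π1 μ1 ι M M1 σr Fr ζ →
    ∀ (ω : L → (integralClosure ℤ ℂ) ⧸ 𝔐) (θr : L → ℂ), TP π φ π1 M Fr ζ θr →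
    BPs 𝔐 π μ M ω (stb (cstC φ (NN' π ε) σr)) θr → STB 𝔐 π μ (NN' π ε) ω →
    SPP 𝔐 π μ (NN' π ε) M ω →
    ∀ (p : K →* H), Function.Surjective p → (∀ k, p k = 1 ↔ k ∈ M) → ∀ P : Subgroup H,
    SylAb ℓ P → ∀ p1 : K1 →* H1, Function.Surjective p1 → (∀ k, p1 k = 1 ↔ k ∈ M1) →
    ∀ P1 : Subgroup H1, SylAb ℓ P1 → ∀ πW1 : W1 →* H1, Function.Surjective πW1 →
    πW1.ker ≤ Subgroup.center W1 → ∀ ν1 : Subgroup K1 → (L1 → ℂ) → (πW1.ker →* ℂˣ),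
    T2X 𝔐 ℓ π1 μ1 M1 (cg 𝔐 Fr) πW1 P1 (ChN ℓ M1) ν1 → ∀ (πW : W →* H)
    (ψ : W →* Gam (Equiv.Perm Ω) Ω W1) (μ0 : πW.ker →* ℂˣ), Function.Surjective πW →
    (∀ w k, πW w = p k → gmap Ω πW1 (ψ w) = gmap Ω p1 (φ k)) →
    (∀ g k, gmap Ω πW1 g = gmap Ω p1 (φ k) → ∃ w, πW w = p k ∧ ψ w = g) →
    ∀ ν : Subgroup K → (L → ℂ) → (πW.ker →* ℂˣ),
    (∀ (σ : Finset (Subgroup K1)) (F : L1 → ℂ) (θ : L → ℂ) (n : Ω → Q), ChN ℓ M1 σ →
      BPs 𝔐 π1 μ1 M1 (cg 𝔐 Fr) (stb σ) F → TP π φ π1 M F ζ θ →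
      ∀ (a : πW.ker) (h : ∀ o, (ψ (a : W)).left o ∈ πW1.ker),
        ν ((stb (cstC φ (NN' π ε) σ)).map (MulAut.conj (π (ε n))).toMonoidHom)
          (cjF (ε n) θ) a = μ0 a * ∏ o, ν1 (stb σ) F ⟨(ψ (a : W)).left o, h o⟩) →
    T2X 𝔐 ℓ π μ M ω πW P (fun σ => ChN ℓ (NN' π ε) σ ∧ Clo φ (NN' π ε) σ) ν

/-- VCL: the vertex group belongs to the class. -/
def Stmt_VCL (Cl : ∀ (Y : Type) [Group Y], Prop) : Prop :=
  GC Cl → ∀ (K K1 Q Ω : Type) [Group K] [Finite K] [Group K1] [Finite K1] [Group Q]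
    [Nonempty Ω] (φ : K →* Gam (Equiv.Perm Ω) Ω K1) (q : Q →* K1),
    (∀ o b, ∃ k, (φ k).right o = o ∧ (φ k).left o = b) → Cl K → Cl K1 ∧ Cl q.range

/-- TQA: the relations for the larger group. -/
def Stmt_TQA (Cl : ∀ (Y : Type) [Group Y], Prop) : Prop :=
  ∀ (L K H K1 Q Ω : Type) [Group L] [Fintype L] [Group K] [Fintype K] [Group H] [Fintype H]
    [Group K1] [Fintype K1] [Group Q] [Fintype Q] [Fintype Ω] [Nonempty Ω]
    (𝔐 : Ideal (integralClosure ℤ ℂ)) (ℓ : ℕ) [Fact ℓ.Prime], 𝔐.IsMaximal →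
    (ℓ : integralClosure ℤ ℂ) ∈ 𝔐 → ∀ (π : L →* K)
    (μ : π.ker →* ℂˣ) (φ : K →* Gam (Equiv.Perm Ω) Ω K1) (q : Q →* K1) (α : K1 →* MulAut Q)
    (ε : (Ω → Q) →* L) (μQ : q.ker →* ℂˣ), WD π μ φ q α ε μQ →
    ∀ (M : Subgroup K) (M1 : Subgroup K1), MM ℓ π φ q ε M M1 → Cl K1 →
    HR Cl ℓ (Nat.card K1) →
    ∀ p : K →* H, Function.Surjective p → (∀ k, p k = 1 ↔ k ∈ M) → ∀ P : Subgroup H,
    SylAb ℓ P → ∀ ω : L → (integralClosure ℤ ℂ) ⧸ 𝔐, Pos 𝔐 ℓ π μ M ω →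
    STB 𝔐 π μ (NN' π ε) ω → SPP 𝔐 π μ (NN' π ε) M ω →
    ∃ (W : Type) (_ : Group W) (_ : Fintype W) (πW : W →* H)
      (ν : Subgroup K → (L → ℂ) → (πW.ker →* ℂˣ)), Function.Surjective πW ∧
      (∀ σ f, ChN ℓ M σ → BPs 𝔐 π μ M ω (stb σ) f →
        EDb π p M πW (stb σ) f (ν (stb σ) f)) ∧
      T2X 𝔐 ℓ π μ M ω πW P (fun σ => ChN ℓ (NN' π ε) σ ∧ Clo φ (NN' π ε) σ) ν

/-- TEN: the theorem. -/
def Stmt_TEN (Cl : ∀ (Y : Type) [Group Y], Prop) : Prop :=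
  ∀ (L K H : Type) [Group L] [Fintype L] [Group K] [Fintype K] [Group H] [Fintype H]
    (𝔐 : Ideal (integralClosure ℤ ℂ)) (ℓ : ℕ) [Fact ℓ.Prime], 𝔐.IsMaximal →
    (ℓ : integralClosure ℤ ℂ) ∈ 𝔐 → ∀ π : L →* K, Function.Surjective π →
    π.ker ≤ Subgroup.center L → ∀ μ : π.ker →* ℂˣ, Function.Injective μ →
    pCore ℓ K = ⊥ → GC Cl → Cl K → (∀ n < Nat.card K, HR Cl ℓ n) →
    ∀ (M : Subgroup K) [M.Normal]
    (p : K →* H), Function.Surjective p → (∀ k, p k = 1 ↔ k ∈ M) → ∀ P : Subgroup H,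
    SylAb ℓ P → ∀ ω : L → (integralClosure ℤ ℂ) ⧸ 𝔐, Pos 𝔐 ℓ π μ M ω →
    ∀ (N : Subgroup K) [N.Normal], N ≤ M → ¬ ℓ ∣ N.relIndex M → N ≠ ⊥ →
    (∀ N' : Subgroup K, N'.Normal → N' ≤ N → N' = ⊥ ∨ N' = N) →
    (∃ x ∈ N, ∃ y ∈ N, x * y ≠ y * x) → (∀ k : K, (∀ x ∈ N, k * x = x * k) → k = 1) →
    ¬ IsSimpleGroup N → STB 𝔐 π μ N ω → SPP 𝔐 π μ N M ω →
    ∀ d : ℕ, DKU 𝔐 ℓ d π μ M ω = 0

end Pool.Agent.DPG


end

section

/-!
# CLS: the invariant pairs of closed chains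
-/

set_option autoImplicit false

namespace Pool.Agent.DPG

open Pool.Agent.DP Pool.Agent.DPC Pool.Agent.DPM Pool.Agent.DPN Pool.Agent.DPF
  Pool.Agent.Lib_helper13 Representation
open Pool.Agent.Lib_helper13.Dade (pCore DadeHolds dadeSum)

namespace CLS

/-! ### Characters of subgroups -/

section Irr

variable {Q : Type} [Group Q]

theorem irrOn_conj {S : Subgroup Q} {f : Q → ℂ} (hf : IrrOn S f) {s : Q} (hs : s ∈ S) (x : Q) :
    f (s * x * s⁻¹) = f x := by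
  by_cases hx : x ∈ S
  · exact hf.1.conj_eq (⟨s, hs⟩ : S) ⟨x, hx⟩
  · rw [hf.2 x hx, hf.2]
    intro h
    apply hx
    have h1 : x = s⁻¹ * (s * x * s⁻¹) * s := by group
    rw [h1]
    exact S.mul_mem (S.mul_mem (S.inv_mem hs) h) hs

theorem irrOn_comp [Finite Q] (e : Q ≃* Q) {S S' : Subgroup Q} (h : ∀ x, x ∈ S ↔ e x ∈ S')
    {f : Q → ℂ} (hf : IrrOn S' f) : IrrOn S (fun x => f (e x)) := by
  have := Fintype.ofFinite S
  have := Fintype.ofFinite S'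
  have h1 : S.map e.toMonoidHom = S' := by
    ext y
    rw [Subgroup.mem_map]
    constructor
    · rintro ⟨x, hx, rfl⟩
      exact (h x).mp hx
    · intro hy
      refine ⟨e.symm y, (h _).mpr ?_, e.apply_symm_apply y⟩
      rw [e.apply_symm_apply]
      exact hy
  refine ⟨?_, fun x hx => hf.2 _ fun h2 => hx ((h x).mpr h2)⟩
  exact hf.1.comp_mulEquiv ((e.subgroupMap S).trans (MulEquiv.subgroupCongr h1))

end Irr

/-! ### Coordinates -/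

section Crd

variable {K K1 Ω : Type} [Group K] [Group K1] (φ : K →* Gam (Equiv.Perm Ω) Ω K1)

theorem left_mul (a b : K) (o : Ω) :
    (φ (a * b)).left o = (φ a).left o * (φ b).left ((φ a).right⁻¹ • o) := by
  rw [map_mul]
  rfl

theorem right_mul (a b : K) : (φ (a * b)).right = (φ a).right * (φ b).right := by
  rw [map_mul]
  rfl

theorem left_inv (a : K) (o : Ω) :
    (φ a⁻¹).left o = ((φ a).left ((φ a).right • o))⁻¹ := by
  rw [map_inv]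
  change ((φ a).left ((φ a).right⁻¹⁻¹ • o))⁻¹ = _
  rw [inv_inv]

theorem right_inv (a : K) : (φ a⁻¹).right = (φ a).right⁻¹ := by
  rw [map_inv]
  rfl

theorem conj_left (t m : K) (hm : (φ m).right = 1) (o : Ω) :
    (φ (t * m * t⁻¹)).left o =
      (φ t).left o * (φ m).left ((φ t).right⁻¹ • o) * ((φ t).left o)⁻¹ := by
  rw [left_mul, left_mul, left_inv, right_mul, hm, mul_one, smul_inv_smul]

theorem conj_right (t m : K) (hm : (φ m).right = 1) : (φ (t * m * t⁻¹)).right = 1 := by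
  rw [right_mul, right_mul, hm, mul_one, right_inv, mul_inv_cancel]

theorem conj_left' (t m : K) (hm : (φ m).right = 1) (w : Ω) :
    (φ (t * m * t⁻¹)).left ((φ t).right • w) =
      (φ t).left ((φ t).right • w) * (φ m).left w * ((φ t).left ((φ t).right • w))⁻¹ := by
  rw [conj_left φ t m hm, inv_smul_smul]

/-- The group of the coordinates of the elements of `D` which act trivially. -/
def crd (D : Subgroup K) (o : Ω) : Subgroup K1 where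
  carrier := {b | ∃ d ∈ D, (φ d).right = 1 ∧ (φ d).left o = b}
  one_mem' := ⟨1, D.one_mem, by simp, by simp⟩
  mul_mem' := by
    rintro _ _ ⟨a, ha, ha', rfl⟩ ⟨b, hb, hb', rfl⟩
    refine ⟨a * b, D.mul_mem ha hb, by rw [right_mul, ha', hb', mul_one], ?_⟩
    rw [left_mul, ha', inv_one, one_smul]
  inv_mem' := by
    rintro _ ⟨a, ha, ha', rfl⟩
    refine ⟨a⁻¹, D.inv_mem ha, by rw [right_inv, ha', inv_one], ?_⟩
    rw [left_inv, ha', one_smul]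

variable {φ}

theorem mem_crd {D : Subgroup K} {o : Ω} {b : K1} :
    b ∈ crd φ D o ↔ ∃ d ∈ D, (φ d).right = 1 ∧ (φ d).left o = b := Iff.rfl

theorem crd_mono {D E : Subgroup K} (h : D ≤ E) (o : Ω) : crd φ D o ≤ crd φ E o := by
  rintro _ ⟨a, ha, ha', rfl⟩
  exact ⟨a, h ha, ha', rfl⟩

theorem crd_conj {D : Subgroup K} {t : K} (ht : ∀ x, x ∈ D ↔ t * x * t⁻¹ ∈ D) (w : Ω) (b : K1) :
    b ∈ crd φ D w ↔ (φ t).left ((φ t).right • w) * b * ((φ t).left ((φ t).right • w))⁻¹ ∈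
      crd φ D ((φ t).right • w) := by
  constructor
  · rintro ⟨d, hd, hd', rfl⟩
    exact ⟨t * d * t⁻¹, (ht d).mp hd, conj_right φ t d hd', conj_left' φ t d hd' w⟩
  · rintro ⟨c, hc, hc', h⟩
    have h1 : c = t * (t⁻¹ * c * t⁻¹⁻¹) * t⁻¹ := by group
    have h2 : (φ (t⁻¹ * c * t⁻¹⁻¹)).right = 1 := conj_right φ t⁻¹ c hc'
    refine ⟨t⁻¹ * c * t⁻¹⁻¹, ?_, h2, ?_⟩
    · rw [ht, ← h1]
      exact hc
    · have h3 := conj_left' φ t _ h2 w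
      rw [← h1, h] at h3
      exact (mul_left_cancel (mul_right_cancel h3)).symm

end Crd

/-! ### The structure -/

section Str

variable {L K K1 Q Ω : Type} [Group L] [Group K] [Group K1] [Group Q] [Fintype Ω]
  {π : L →* K} {μ : π.ker →* ℂˣ} {φ : K →* Gam (Equiv.Perm Ω) Ω K1} {q : Q →* K1}
  {α : K1 →* MulAut Q} {ε : (Ω → Q) →* L} {μQ : q.ker →* ℂˣ}

theorem mem_N (h : WD π μ φ q α ε μQ) (k : K) :
    k ∈ NN' π ε ↔ (φ k).right = 1 ∧ ∀ o, (φ k).left o ∈ q.range := by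
  constructor
  · rintro ⟨_, ⟨n, rfl⟩, rfl⟩
    rw [h.φε]
    exact ⟨rfl, fun o => ⟨n o, rfl⟩⟩
  · rintro ⟨h1, h2⟩
    choose n hn using h2
    refine ⟨ε n, ⟨n, rfl⟩, ?_⟩
    apply h.φi
    rw [h.φε]
    apply SemidirectProduct.ext
    · funext o
      exact hn o
    · exact h1.symm

/-- A closed member of a chain is given by its coordinates. -/
theorem mem_closed {D : Subgroup K} (h : WD π μ φ q α ε μQ) (hD : D ≤ NN' π ε)
    (hcl : clN φ (NN' π ε) D ⊆ (D : Set K)) (x : K) :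
    x ∈ D ↔ x ∈ NN' π ε ∧ ∀ o, (φ x).left o ∈ crd φ D o := by
  constructor
  · intro hx
    exact ⟨hD hx, fun o => ⟨x, hx, ((mem_N h x).mp (hD hx)).1, rfl⟩⟩
  · rintro ⟨h1, h2⟩
    apply hcl
    refine ⟨h1, fun o => ?_⟩
    obtain ⟨d, hd, -, hd'⟩ := h2 o
    exact ⟨d, hd, hd'⟩

/-- The elements of `N` in the stabilizer of a closed chain. -/
theorem mem_stb_N (h : WD π μ φ q α ε μQ) (hn : (NN' π ε).Normal) {σ : Finset (Subgroup K)}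
    (hσ : ∀ D ∈ σ, D ≤ NN' π ε) (hcl : Clo φ (NN' π ε) σ) {k : K} (hk : k ∈ NN' π ε) :
    k ∈ stb σ ↔ ∀ o, ∀ D ∈ σ, ∀ b, b ∈ crd φ D o ↔
      (φ k).left o * b * ((φ k).left o)⁻¹ ∈ crd φ D o := by
  have hk1 := ((mem_N h k).mp hk).1
  constructor
  · intro hs o D hD b
    have h1 := crd_conj (φ := φ) (mem_stb'.mp hs D hD) o b
    rw [hk1, one_smul] at h1
    exact h1
  · intro hs
    rw [mem_stb']
    intro D hD x
    rw [mem_closed h (hσ D hD) (hcl D hD), mem_closed h (hσ D hD) (hcl D hD)]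
    have h1 : x ∈ NN' π ε ↔ k * x * k⁻¹ ∈ NN' π ε := by
      constructor
      · intro hx
        exact hn.conj_mem x hx k
      · intro hx
        have h2 : x = k⁻¹ * (k * x * k⁻¹) * k⁻¹⁻¹ := by group
        rw [h2]
        exact hn.conj_mem _ hx k⁻¹
    rw [← h1]
    refine and_congr_right fun hx => forall_congr' fun o => ?_
    rw [conj_left φ k x ((mem_N h x).mp hx).1, hk1, inv_one, one_smul]
    exact hs o D hD _

end Str

end CLS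

open _root_.Pool.Agent.DPG.CLS in
theorem CLS_thm (h1 : Stmt_TNA) (h2 : Stmt_CST) : Stmt_CLS := by
  classical
  intro L K K1 Q Ω _ _ _ _ _ _ _ _ _ _ ℓ _ π μ φ q α ε μQ h σ f hch hcl hirr hov hcov hinv
  obtain ⟨hN, hq, -⟩ := h2 L K K1 Q Ω ℓ π μ φ q α ε μQ h
  have hDN : ∀ D ∈ σ, D ≤ NN' π ε := hch.2
  -- the chains of the coordinates
  let sc' : Ω → Finset (Subgroup K1) := fun o => σ.image (fun D => crd φ D o)
  have hsc : ∀ o b, b ∈ stb (sc' o) ↔ ∀ D ∈ σ, ∀ c, c ∈ crd φ D o ↔ b * c * b⁻¹ ∈ crd φ D o := by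
    intro o b
    rw [mem_stb']
    constructor
    · intro hb D hD
      exact hb _ (Finset.mem_image_of_mem _ hD)
    · intro hb E hE
      obtain ⟨D, hD, rfl⟩ := Finset.mem_image.mp hE
      exact hb D hD
  -- the characters of the coordinates
  have hAL : AL π (NN' π ε) (stb σ) = AL π (NN' π ε) (PS φ (fun o => stb (sc' o))) := by
    ext x
    rw [Subgroup.mem_comap, Subgroup.mem_comap, Subgroup.mem_inf, Subgroup.mem_inf]
    refine and_congr_right fun hx => ?_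
    rw [mem_stb_N h hN hDN hcl hx]
    have hx1 := ((mem_N h _).mp hx).1
    constructor
    · intro h3
      exact ⟨hx1, fun o => (hsc o _).mpr (h3 o)⟩
    · rintro ⟨-, h3⟩ o
      exact (hsc o _).mp (h3 o)
  obtain ⟨-, hT2, hT3⟩ := h1 L K K1 Q Ω π μ φ q α ε μQ h (fun o => stb (sc' o))
  rw [hAL] at hirr
  obtain ⟨g, hg, hgf⟩ := hT2 f hirr hov
  -- the action of the stabilizer
  have hconj : ∀ t ∈ stb σ, ∀ w, ∀ D ∈ σ, ∀ b, b ∈ crd φ D w ↔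
      (φ t).left ((φ t).right • w) * b * ((φ t).left ((φ t).right • w))⁻¹ ∈
        crd φ D ((φ t).right • w) :=
    fun t ht w D hD b => crd_conj (mem_stb'.mp ht D hD) w b
  have hstar : ∀ t ∈ stb σ, ∀ w x,
      g ((φ t).right • w) (α ((φ t).left ((φ t).right • w)) x) = g w x := by
    intro t ht
    obtain ⟨l, rfl⟩ := h.πs t
    have h4 : (fun w x => g ((φ (π l)).right • w)
        (α ((φ (π l)).left ((φ (π l)).right • w)) x)) = g := by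
      apply hT3 _ _ f
      · intro w
        refine irrOn_comp (α ((φ (π l)).left ((φ (π l)).right • w))) ?_ (hg _).1
        intro x
        rw [Subgroup.mem_comap, Subgroup.mem_comap, h.qe, hsc, hsc]
        set b := (φ (π l)).left ((φ (π l)).right • w) with hb
        have h5 : ∀ D ∈ σ, ∀ c, c ∈ crd φ D w ↔ b * c * b⁻¹ ∈ crd φ D ((φ (π l)).right • w) :=
          fun D hD c => hconj _ ht w D hD c
        constructor
        · intro h6 D hD c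
          have h7 : c = b * (b⁻¹ * c * b) * b⁻¹ := by group
          have h8 : b * q x * b⁻¹ * c * (b * q x * b⁻¹)⁻¹ =
              b * (q x * (b⁻¹ * c * b) * (q x)⁻¹) * b⁻¹ := by group
          rw [h8, ← h5 D hD, ← h6 D hD, h5 D hD, ← h7]
        · intro h6 D hD c
          have h8 : b * q x * b⁻¹ * (b * c * b⁻¹) * (b * q x * b⁻¹)⁻¹ =
              b * (q x * c * (q x)⁻¹) * b⁻¹ := by group
          rw [h5 D hD c, h6 D hD, h8, ← h5 D hD]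
      · exact fun w => (hg w).1
      · refine ⟨?_, hgf.2⟩
        intro m
        have h5 := hinv l ht (ε m)
        rw [← h.cj, hgf.1] at h5
        rw [← h5]
        refine Fintype.prod_equiv ((φ (π l)).right⁻¹) _ _ fun o => ?_
        rw [wB_apply]
        change _ = g ((φ (π l)).right • ((φ (π l)).right⁻¹ • o))
          (α ((φ (π l)).left ((φ (π l)).right • ((φ (π l)).right⁻¹ • o)))
            (m ((φ (π l)).right⁻¹ • o)))
        rw [smul_inv_smul]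
      · exact hgf
    intro w x
    exact congrFun (congrFun h4 w) x
  -- transitivity
  have hdec : ∀ k : K, ∃ m ∈ NN' π ε, ∃ t ∈ stb σ, m * t = k := by
    intro k
    have hk : k ∈ NN' π ε ⊔ stb σ := by
      rw [hcov]
      exact Subgroup.mem_top k
    exact Subgroup.mem_sup_of_normal_left.mp hk
  have htr : ∀ o o' : Ω, ∃ t ∈ stb σ, (φ t).right • o = o' := by
    intro o o'
    obtain ⟨k, hk⟩ := h.tr o o'
    obtain ⟨m, hm, t, ht, rfl⟩ := hdec k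
    refine ⟨t, ht, ?_⟩
    rw [right_mul, ((mem_N h m).mp hm).1, one_mul] at hk
    exact hk
  obtain ⟨o0⟩ := ‹Nonempty Ω›
  have hStab : ∀ t ∈ stb σ, (φ t).right • o0 = o0 → (φ t).left o0 ∈ stb (sc' o0) ∧
      ∀ x, g o0 (α ((φ t).left o0) x) = g o0 x := by
    intro t ht h0
    refine ⟨(hsc o0 _).mpr fun D hD c => ?_, fun x => ?_⟩
    · have h5 := hconj t ht o0 D hD c
      rw [h0] at h5
      exact h5
    · have h5 := hstar t ht o0 x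
      rw [h0] at h5
      exact h5
  have hK1 : ∀ b : K1, ∃ (x : Q) (s : K1), s ∈ stb (sc' o0) ∧
      (∀ y, g o0 (α s y) = g o0 y) ∧ b = q x * s := by
    intro b
    obtain ⟨k, hk, hkb⟩ := h.sj o0 b
    obtain ⟨m, hm, t, ht, rfl⟩ := hdec k
    have hm' := (mem_N h m).mp hm
    have ht0 : (φ t).right • o0 = o0 := by
      rw [right_mul, hm'.1, one_mul] at hk
      exact hk
    obtain ⟨x, hx⟩ := hm'.2 o0
    refine ⟨x, (φ t).left o0, (hStab t ht ht0).1, (hStab t ht ht0).2, ?_⟩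
    rw [← hkb, left_mul, hm'.1, inv_one, one_smul, hx]
  have hno : ∀ o, ∃ (x : Q) (s : K1) (t : K), s ∈ stb (sc' o0) ∧
      (∀ y, g o0 (α s y) = g o0 y) ∧ t ∈ stb σ ∧ (φ t).right • o0 = o ∧
      (φ t).left o = q x * s := by
    intro o
    obtain ⟨t, ht, ht0⟩ := htr o0 o
    obtain ⟨x, s, hs, hs', he⟩ := hK1 ((φ t).left o)
    exact ⟨x, s, t, hs, hs', ht, ht0, he⟩
  choose n s t hs hs' ht ht0 hl using hno
  have hDo : ∀ o, ∀ D ∈ σ, ∀ c, c ∈ crd φ D o0 ↔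
      q (n o) * c * (q (n o))⁻¹ ∈ crd φ D o := by
    intro o D hD c
    have h5 := hconj (t o) (ht o) o0 D hD ((s o)⁻¹ * c * s o)
    rw [ht0, hl] at h5
    have h6 : q (n o) * s o * ((s o)⁻¹ * c * s o) * (q (n o) * s o)⁻¹ =
        q (n o) * c * (q (n o))⁻¹ := by group
    rw [h6] at h5
    rw [← h5]
    have h7 := (hsc o0 _).mp (hs o) D hD ((s o)⁻¹ * c * s o)
    have h8 : s o * ((s o)⁻¹ * c * s o) * (s o)⁻¹ = c := by group
    rw [h8] at h7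
    exact h7.symm
  have hgn : (φ (π (ε n))).right = 1 ∧ ∀ o, (φ (π (ε n))).left o = q (n o) := by
    rw [h.φε]
    exact ⟨rfl, fun o => rfl⟩
  have hst6 : ∀ k ∈ stb (sc' o0), ∀ x, g o0 (α k x) = g o0 x := by
    intro k hk x
    obtain ⟨y, b, hb, hb', he⟩ := hK1 k
    have hy : q y ∈ stb (sc' o0) := by
      have h5 : q y = k * b⁻¹ := by rw [he, mul_inv_cancel_right]
      rw [h5]
      exact Subgroup.mul_mem _ hk (Subgroup.inv_mem _ hb)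
    rw [he, map_mul, MulAut.mul_apply, h.qα, irrOn_conj (hg o0).1 (Subgroup.mem_comap.mpr hy), hb']
  refine ⟨n, sc' o0, g o0, ⟨⟨?_, ?_⟩, ?_⟩, ?_, (hg o0).1, (hg o0).2, ?_, hst6, ?_, ?_⟩
  · -- the members are nontrivial `ℓ`-groups
    intro E hE
    obtain ⟨D, hD, rfl⟩ := Finset.mem_image.mp hE
    constructor
    · let p : D →* crd φ D o0 :=
        { toFun := fun d => ⟨(φ d).left o0, d, d.2, ((mem_N h _).mp (hDN D hD d.2)).1, rfl⟩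
          map_one' := by
            apply Subtype.ext
            simp
          map_mul' := by
            intro a b
            apply Subtype.ext
            change (φ ((a : K) * b)).left o0 = (φ a).left o0 * (φ b).left o0
            rw [left_mul, ((mem_N h _).mp (hDN D hD a.2)).1, inv_one, one_smul] }
      refine (hch.1.1 D hD).1.of_surjective p ?_
      rintro ⟨_, d, hd, hd', rfl⟩
      exact ⟨⟨d, hd⟩, rfl⟩
    · rw [bot_lt_iff_ne_bot]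
      intro hbot
      apply (hch.1.1 D hD).2.ne'
      rw [eq_bot_iff]
      intro d hd
      rw [Subgroup.mem_bot]
      apply h.φi
      rw [map_one]
      have hd1 := (mem_N h d).mp (hDN D hD hd)
      apply SemidirectProduct.ext
      · funext o
        have h5 := hDo o D hD ((q (n o))⁻¹ * (φ d).left o * q (n o))
        have h6 : q (n o) * ((q (n o))⁻¹ * (φ d).left o * q (n o)) * (q (n o))⁻¹ =
            (φ d).left o := by group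
        rw [h6] at h5
        have h7 := h5.mpr ⟨d, hd, hd1.1, rfl⟩
        rw [hbot, Subgroup.mem_bot] at h7
        have h8 : (φ d).left o =
            q (n o) * ((q (n o))⁻¹ * (φ d).left o * q (n o)) * (q (n o))⁻¹ := h6.symm
        rw [h8, h7, mul_one, mul_inv_cancel]
        rfl
      · exact hd1.1
  · intro E hE E' hE' _
    obtain ⟨D, hD, rfl⟩ := Finset.mem_image.mp (Finset.mem_coe.mp hE)
    obtain ⟨D', hD', rfl⟩ := Finset.mem_image.mp (Finset.mem_coe.mp hE')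
    exact (hch.1.total hD hD').imp (fun h5 => crd_mono h5 o0) (fun h5 => crd_mono h5 o0)
  · intro E hE
    obtain ⟨D, hD, rfl⟩ := Finset.mem_image.mp hE
    rintro _ ⟨d, hd, hd', rfl⟩
    exact ((mem_N h d).mp (hDN D hD hd)).2 o0
  · -- the chain is conjugate to a chain with constant coordinates
    have key : ∀ D ∈ σ, (cst φ (NN' π ε) (crd φ D o0)).map
        (MulAut.conj (π (ε n))).toMonoidHom = D := by
      intro D hD
      ext x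
      rw [mem_closed h (hDN D hD) (hcl D hD), Subgroup.mem_map]
      constructor
      · rintro ⟨y, ⟨hy1, hy2, hy3⟩, rfl⟩
        change π (ε n) * y * (π (ε n))⁻¹ ∈ NN' π ε ∧
          ∀ o, (φ (π (ε n) * y * (π (ε n))⁻¹)).left o ∈ crd φ D o
        refine ⟨hN.conj_mem y hy1 _, fun o => ?_⟩
        rw [conj_left φ _ y hy2, hgn.1, inv_one, one_smul, hgn.2]
        exact (hDo o D hD _).mp (hy3 o)
      · rintro ⟨hx1, hx2⟩
        have hx3 : (φ x).right = 1 := ((mem_N h x).mp hx1).1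
        have hy : ∀ o, (φ ((π (ε n))⁻¹ * x * (π (ε n))⁻¹⁻¹)).left o =
            (q (n o))⁻¹ * (φ x).left o * q (n o) := by
          intro o
          rw [conj_left φ _ x hx3, left_inv, right_inv, hgn.1, inv_one, inv_one, one_smul,
            hgn.2, inv_inv]
        refine ⟨(π (ε n))⁻¹ * x * (π (ε n))⁻¹⁻¹, ⟨hN.conj_mem x hx1 _,
          conj_right φ _ x hx3, fun o => ?_⟩, ?_⟩
        · rw [hy, hDo o D hD]
          have h6 : q (n o) * ((q (n o))⁻¹ * (φ x).left o * q (n o)) * (q (n o))⁻¹ =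
              (φ x).left o := by group
          rw [h6]
          exact hx2 o
        · change π (ε n) * ((π (ε n))⁻¹ * x * (π (ε n))⁻¹⁻¹) * (π (ε n))⁻¹ = x
          group
    ext E
    rw [cjC, cstC, Finset.image_image, Finset.image_image, Finset.mem_image]
    constructor
    · intro hE
      exact ⟨E, hE, key E hE⟩
    · rintro ⟨D, hD, rfl⟩
      have h5 := key D hD
      change (cst φ (NN' π ε) (crd φ D o0)).map (MulAut.conj (π (ε n))).toMonoidHom ∈ σ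
      rw [h5]
      exact hD
  · rw [eq_top_iff]
    intro b _
    obtain ⟨x, b', hb, -, rfl⟩ := hK1 b
    exact Subgroup.mul_mem _ (Subgroup.mem_sup_left ⟨x, rfl⟩) (Subgroup.mem_sup_right hb)
  · intro m
    change f ((ε n)⁻¹⁻¹ * ε m * (ε n)⁻¹) = _
    rw [inv_inv, ← map_inv, ← map_mul, ← map_mul, hgf.1]
    refine Finset.prod_congr rfl fun o _ => ?_
    have h5 := hstar (t o) (ht o) o0 (α (s o)⁻¹ (m o))
    have h6 := hs' o (α (s o)⁻¹ (m o))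
    rw [← MulAut.mul_apply, ← map_mul, mul_inv_cancel, map_one, MulAut.one_apply] at h6
    rw [ht0, hl, ← MulAut.mul_apply, ← map_mul, mul_inv_cancel_right, h.qα, ← h6] at h5
    exact h5
  · intro l hl'
    change f ((ε n)⁻¹⁻¹ * l * (ε n)⁻¹) = 0
    apply hgf.2
    intro h5
    apply hl'
    have h6 : l = (ε n)⁻¹ * ((ε n)⁻¹⁻¹ * l * (ε n)⁻¹) * ε n := by group
    rw [h6]
    exact Subgroup.mul_mem _ (Subgroup.mul_mem _ (Subgroup.inv_mem _ ⟨n, rfl⟩) h5) ⟨n, rfl⟩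

end Pool.Agent.DPG


end

section

/-!
# PRC: products of scalars
-/

set_option autoImplicit false

namespace Pool.Agent.DPG

open Pool.Agent.DP Pool.Agent.DPC Pool.Agent.DPM Pool.Agent.DPN Pool.Agent.DPF
  Pool.Agent.DPK Pool.Agent.Lib_helper13 Representation
open Pool.Agent.Lib_helper13.Dade (pCore DadeHolds dadeSum)

namespace PRC

/-- The sum of an invariant function which vanishes at the points with a nontrivial stabilizer. -/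
theorem sum_orbits {V Y : Type} [Group V] [Fintype V] [Fintype Y] [MulAction V Y]
    [Fintype (MulAction.orbitRel.Quotient V Y)] (F : Y → ℂ)
    (h1 : ∀ (v : V) y, F (v • y) = F y) (h2 : ∀ (v : V) y, v • y = y → v ≠ 1 → F y = 0) :
    ∑ y, F y = (Nat.card V : ℂ) * ∑ w : MulAction.orbitRel.Quotient V Y, F w.out := by
  classical
  have key : ∀ y : Y, ∑ x : MulAction.orbit V y, F x = (Nat.card V : ℂ) * F y := by
    intro y
    by_cases hy : F y = 0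
    · rw [hy, mul_zero]
      refine Finset.sum_eq_zero fun x _ => ?_
      obtain ⟨v, hv⟩ := x.2
      change F (x : Y) = 0
      rw [← hv]
      change F (v • y) = 0
      rw [h1, hy]
    · have hb : Function.Bijective (fun v : V => (⟨v • y, MulAction.mem_orbit y v⟩ :
          MulAction.orbit V y)) := by
        constructor
        · intro v w hvw
          have h3 : v • y = w • y := congrArg Subtype.val hvw
          by_contra hne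
          apply hy
          refine h2 (w⁻¹ * v) y ?_ ?_
          · rw [mul_smul, h3, ← mul_smul, inv_mul_cancel, one_smul]
          · intro h4
            exact hne (inv_mul_eq_one.mp h4).symm
        · rintro ⟨_, v, rfl⟩
          exact ⟨v, rfl⟩
      rw [← Fintype.sum_bijective _ hb (fun v : V => F y) (fun x => F x)
        (fun v => (h1 v y).symm), Finset.sum_const, Finset.card_univ, nsmul_eq_mul,
        Nat.card_eq_fintype_card]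
  rw [Finset.mul_sum, Fintype.sum_equiv (MulAction.selfEquivSigmaOrbits V Y) F
    (fun p => F p.2) ?_, Fintype.sum_sigma]
  · exact Finset.sum_congr rfl fun w _ => key _
  · intro y
    rfl

variable {Q Ω : Type} [Group Q] [Fintype Q] [Fintype Ω]

open Classical in
/-- The twisted class of `m`. -/
noncomputable def C (β : MulAut Q) (m : Q) : Finset Q :=
  Finset.univ.filter (fun n => ∃ a, n = β a * m * a⁻¹)

theorem mem_C {β : MulAut Q} {m n : Q} : n ∈ C β m ↔ ∃ a, n = β a * m * a⁻¹ := by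
  classical
  unfold C
  rw [Finset.mem_filter]
  exact and_iff_right (Finset.mem_univ _)

theorem C_refl (β : MulAut Q) (m : Q) : m ∈ C β m := mem_C.mpr ⟨1, by simp⟩

theorem C_symm {β : MulAut Q} {m n : Q} (h : n ∈ C β m) : m ∈ C β n := by
  obtain ⟨a, rfl⟩ := mem_C.mp h
  refine mem_C.mpr ⟨a⁻¹, ?_⟩
  rw [map_inv]
  group

theorem C_trans {β : MulAut Q} {m n k : Q} (h : n ∈ C β m) (h' : k ∈ C β n) : k ∈ C β m := by
  obtain ⟨a, rfl⟩ := mem_C.mp h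
  obtain ⟨b, rfl⟩ := mem_C.mp h'
  refine mem_C.mpr ⟨b * a, ?_⟩
  rw [map_mul]
  group

theorem C_eq {β : MulAut Q} {m n : Q} (h : n ∈ C β m) : C β n = C β m := by
  ext k
  exact ⟨fun h' => C_trans h h', fun h' => C_trans (C_symm h) h'⟩

theorem C_mul {β : MulAut Q} {z : Q} (hz : ∀ x, z * x = x * z) {m n : Q} (h : n ∈ C β m)
     : z * n ∈ C β (z * m) := by
  obtain ⟨a, rfl⟩ := mem_C.mp h
  refine mem_C.mpr ⟨a, ?_⟩
  rw [← mul_assoc (β a) z m, ← hz (β a), ← mul_assoc, ← mul_assoc]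

theorem sum_C_mul {β : MulAut Q} {z : Q} (hz : ∀ x, z * x = x * z) (m : Q) (Φ : Q → ℂ) :
    ∑ n ∈ C β (z * m), Φ n = ∑ n ∈ C β m, Φ (z * n) := by
  have hz' : ∀ x, z⁻¹ * x = x * z⁻¹ := by
    intro x
    rw [inv_mul_eq_iff_eq_mul, ← mul_assoc, hz x, mul_inv_cancel_right]
  symm
  refine Finset.sum_bij' (fun n _ => z * n) (fun n _ => z⁻¹ * n) ?_ ?_ ?_ ?_ ?_
  · intro n hn
    exact C_mul hz hn
  · intro n hn
    have h := C_mul hz' hn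
    rw [inv_mul_cancel_left] at h
    exact h
  · intro n _
    exact inv_mul_cancel_left _ _
  · intro n _
    exact mul_inv_cancel_left _ _
  · intro n _
    rfl

/-- The product of the sums over the twisted classes. -/
noncomputable def T (β : Ω → MulAut Q) (Φ : Ω → Q → ℂ) (m : Ω → Q) : ℂ :=
  ∏ o, ∑ n ∈ C (β o) (m o), Φ o n

/-- The orbits of the twisted conjugation. -/
def St (β : Ω → MulAut Q) : Setoid (Ω → Q) where
  r n m := ∀ o, n o ∈ C (β o) (m o)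
  iseqv := ⟨fun n o => C_refl _ _, fun h o => C_symm (h o), fun h h' o => C_trans (h' o) (h o)⟩

theorem T_congr {β : Ω → MulAut Q} (Φ : Ω → Q → ℂ) {n m : Ω → Q} (h : ∀ o, n o ∈ C (β o) (m o)) :
    T β Φ n = T β Φ m := by
  unfold T
  exact Finset.prod_congr rfl fun o _ => by rw [C_eq (h o)]

section

variable {Z : Subgroup Q} (μ : Z →* ℂˣ)

/-- The product of the values of `μ` at the coordinates. -/
def pr : (Ω → Z) →* ℂˣ where
  toFun z := ∏ o, μ (z o)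
  map_one' := by simp
  map_mul' a b := by
    simp only [Pi.mul_apply, map_mul]
    exact Finset.prod_mul_distrib

theorem mem_pr {z : Ω → Z} : z ∈ (pr (Ω := Ω) μ).ker ↔ ∏ o, μ (z o) = 1 := Iff.rfl

theorem ctr (hZ : Z ≤ Subgroup.center Q) (z : Z) (x : Q) : (z : Q) * x = x * z :=
  (Subgroup.mem_center_iff.mp (hZ z.2) x).symm

/-- The action of the central elements on the orbits. -/
def mact (hZ : Z ≤ Subgroup.center Q) (β : Ω → MulAut Q) :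
    MulAction (pr (Ω := Ω) μ).ker (Quotient (St β)) where
  smul v := Quotient.map (fun n o => (((v : Ω → Z) o : Z) : Q) * n o)
    (fun _ _ h o => C_mul (ctr hZ _) (h o))
  one_smul := by
    intro y
    induction y using Quotient.ind with
    | _ n =>
      change Quotient.mk (St β) _ = Quotient.mk (St β) _
      congr 1
      funext o
      exact one_mul _
  mul_smul := by
    intro a b y
    induction y using Quotient.ind with
    | _ n =>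
      change Quotient.mk (St β) _ = Quotient.mk (St β) _
      congr 1
      funext o
      exact mul_assoc _ _ _

theorem T_mul (hZ : Z ≤ Subgroup.center Q) (β : Ω → MulAut Q) (Φ : Ω → Q → ℂ)
    (hΦ : ∀ o (z : Z) n, Φ o (z * n) = ((μ z : ℂˣ) : ℂ) * Φ o n) (z : Ω → Z)
    (hz : ∏ o, μ (z o) = 1) (n : Ω → Q) : T β Φ (fun o => z o * n o) = T β Φ n := by
  unfold T
  have h1 : ∀ o, ∑ k ∈ C (β o) ((z o : Q) * n o), Φ o k =
      ((μ (z o) : ℂˣ) : ℂ) * ∑ k ∈ C (β o) (n o), Φ o k := by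
    intro o
    rw [sum_C_mul (ctr hZ _), Finset.mul_sum]
    exact Finset.sum_congr rfl fun k _ => hΦ o _ _
  rw [Finset.prod_congr rfl fun o _ => h1 o, Finset.prod_mul_distrib]
  have h2 : ∏ o, ((μ (z o) : ℂˣ) : ℂ) = 1 := by
    rw [← Units.coe_prod, hz, Units.val_one]
  rw [h2, one_mul]

theorem T_zero (hZ : Z ≤ Subgroup.center Q) (hμ : Function.Injective μ) (β : Ω → MulAut Q)
    (Φ : Ω → Q → ℂ) (hΦ : ∀ o (z : Z) n, Φ o (z * n) = ((μ z : ℂˣ) : ℂ) * Φ o n) (z : Ω → Z)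
    (hz : z ≠ 1) (n : Ω → Q) (h : ∀ o, (z o : Q) * n o ∈ C (β o) (n o)) : T β Φ n = 0 := by
  obtain ⟨o, ho⟩ : ∃ o, z o ≠ 1 := by
    by_contra hcon
    push Not at hcon
    exact hz (funext hcon)
  unfold T
  refine Finset.prod_eq_zero (Finset.mem_univ o) ?_
  have h1 := sum_C_mul (β := β o) (ctr hZ (z o)) (n o) (Φ o)
  rw [C_eq (h o), Finset.sum_congr rfl fun k _ => hΦ o (z o) k, ← Finset.mul_sum] at h1
  have h2 : ((μ (z o) : ℂˣ) : ℂ) ≠ 1 := by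
    intro h3
    apply ho
    apply hμ
    rw [map_one]
    exact Units.val_eq_one.mp h3
  by_contra h4
  apply h2
  have h5 : (1 : ℂ) * ∑ k ∈ C (β o) (n o), Φ o k =
      ((μ (z o) : ℂˣ) : ℂ) * ∑ k ∈ C (β o) (n o), Φ o k := by
    rw [one_mul]
    exact h1
  exact (mul_right_cancel₀ h4 h5).symm

end

/-- The function on the orbits. -/
noncomputable def FY (β : Ω → MulAut Q) (Φ : Ω → Q → ℂ) (u : (Ω → Q) → ℤ)
    (hu : ∀ n m : Ω → Q, (∀ o, n o ∈ C (β o) (m o)) → u n = u m) : Quotient (St β) → ℂ :=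
  Quotient.lift (fun n => ((u n : ℤ) : ℂ) * T β Φ n) (by
    intro n m h
    have h' : ∀ o, n o ∈ C (β o) (m o) := h
    change ((u n : ℤ) : ℂ) * T β Φ n = ((u m : ℤ) : ℂ) * T β Φ m
    rw [hu n m h', T_congr Φ h'])

open Classical in
theorem sum_FY (β : Ω → MulAut Q) (Φ : Ω → Q → ℂ) (u : (Ω → Q) → ℤ)
    (hu : ∀ n m : Ω → Q, (∀ o, n o ∈ C (β o) (m o)) → u n = u m)
    [Fintype (Quotient (St β))] :
    ∑ n : Ω → Q, ((u n : ℤ) : ℂ) * ∏ o, Φ o (n o) = ∑ y, FY β Φ u hu y := by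
  rw [← Finset.sum_fiberwise Finset.univ (fun n : Ω → Q => Quotient.mk (St β) n)
    (fun n => ((u n : ℤ) : ℂ) * ∏ o, Φ o (n o))]
  refine Finset.sum_congr rfl fun y _ => ?_
  induction y using Quotient.ind with
  | _ m =>
    have h1 : Finset.univ.filter (fun n : Ω → Q => Quotient.mk (St β) n = Quotient.mk (St β) m) =
        Fintype.piFinset (fun o => C (β o) (m o)) := by
      ext n
      rw [Finset.mem_filter, Fintype.mem_piFinset]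
      constructor
      · intro h
        exact Quotient.exact h.2
      · intro h
        exact ⟨Finset.mem_univ _, Quotient.sound (s := St β) h⟩
    rw [h1]
    change _ = ((u m : ℤ) : ℂ) * T β Φ m
    rw [T, Finset.prod_univ_sum, Finset.mul_sum]
    refine Finset.sum_congr rfl fun n hn => ?_
    rw [hu n m (Fintype.mem_piFinset.mp hn)]

open Classical in
theorem T_red (𝔐 : Ideal (integralClosure ℤ ℂ)) (β : Ω → MulAut Q) (Φ Φ' : Ω → Q → ℂ)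
    (h : ∀ o (w : Q → ℤ), (∀ a n, w (β o a * n * a⁻¹) = w n) →
      IsIntegral ℤ (∑ n, ((w n : ℤ) : ℂ) * Φ o n) ∧
      IsIntegral ℤ (∑ n, ((w n : ℤ) : ℂ) * Φ' o n) ∧
      red 𝔐 (∑ n, ((w n : ℤ) : ℂ) * Φ o n) = red 𝔐 (∑ n, ((w n : ℤ) : ℂ) * Φ' o n))
    (m : Ω → Q) : IsIntegral ℤ (T β Φ m) ∧ IsIntegral ℤ (T β Φ' m) ∧
      red 𝔐 (T β Φ m) = red 𝔐 (T β Φ' m) := by
  have h1 : ∀ (o : Ω) (Ψ : Q → ℂ), ∑ n, (((if n ∈ C (β o) (m o) then (1 : ℤ) else 0) : ℤ) : ℂ) *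
      Ψ n = ∑ n ∈ C (β o) (m o), Ψ n := by
    intro o Ψ
    rw [← Finset.sum_filter_add_sum_filter_not Finset.univ (fun n => n ∈ C (β o) (m o))]
    rw [Finset.sum_eq_zero (s := Finset.univ.filter (fun n => n ∉ C (β o) (m o))), add_zero]
    · refine Finset.sum_congr ?_ ?_
      · ext n
        simp
      · intro n hn
        rw [if_pos hn, Int.cast_one, one_mul]
    · intro n hn
      rw [Finset.mem_filter] at hn
      rw [if_neg hn.2, Int.cast_zero, zero_mul]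
  have h2 : ∀ o, IsIntegral ℤ (∑ n ∈ C (β o) (m o), Φ o n) ∧
      IsIntegral ℤ (∑ n ∈ C (β o) (m o), Φ' o n) ∧
      red 𝔐 (∑ n ∈ C (β o) (m o), Φ o n) = red 𝔐 (∑ n ∈ C (β o) (m o), Φ' o n) := by
    intro o
    have h3 := h o (fun n => if n ∈ C (β o) (m o) then (1 : ℤ) else 0) (by
      intro a n
      have h4 : β o a * n * a⁻¹ ∈ C (β o) n := mem_C.mpr ⟨a, rfl⟩
      by_cases hn : n ∈ C (β o) (m o)
      · rw [if_pos hn, if_pos (C_trans hn h4)]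
      · rw [if_neg hn, if_neg]
        intro h5
        exact hn (C_trans h5 (C_symm h4)))
    rw [h1 o (Φ o), h1 o (Φ' o)] at h3
    exact h3
  refine ⟨?_, ?_, ?_⟩
  · exact IsIntegral.prod _ fun o _ => (h2 o).1
  · exact IsIntegral.prod _ fun o _ => (h2 o).2.1
  · unfold T
    rw [red_prod 𝔐 _ _ fun o _ => (h2 o).1, red_prod 𝔐 _ _ fun o _ => (h2 o).2.1]
    exact Finset.prod_congr rfl fun o _ => (h2 o).2.2

theorem isIntegral_intCast (k : ℤ) : IsIntegral ℤ (k : ℂ) := by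
  have h := isIntegral_algebraMap (R := ℤ) (A := ℂ) (x := k)
  rw [eq_intCast] at h
  exact h

open Classical in
/-- The sum is `|V|` times a sum over the orbits of orbits. -/
theorem sum_eq {Z : Subgroup Q} (μ : Z →* ℂˣ) (hZ : Z ≤ Subgroup.center Q)
    (hμ : Function.Injective μ) (β : Ω → MulAut Q) (Φ Φ' : Ω → Q → ℂ)
    (hΦ : ∀ o (z : Z) n, Φ o (z * n) = ((μ z : ℂˣ) : ℂ) * Φ o n)
    (hΦ' : ∀ o (z : Z) n, Φ' o (z * n) = ((μ z : ℂˣ) : ℂ) * Φ' o n) (u : (Ω → Q) → ℤ)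
    (hu : ∀ n m : Ω → Q, (∀ o, n o ∈ C (β o) (m o)) → u n = u m)
    (hu' : ∀ (z : Ω → Z) (n : Ω → Q), (∏ o, μ (z o)) = 1 → u (fun o => z o * n o) = u n) :
    ∃ (ι : Type) (_ : Fintype ι) (r : ι → (Ω → Q)),
      ∑ n : Ω → Q, ((u n : ℤ) : ℂ) * ∏ o, Φ o (n o) =
        (Nat.card (pr (Ω := Ω) μ).ker : ℂ) * ∑ i, ((u (r i) : ℤ) : ℂ) * T β Φ (r i) ∧
      ∑ n : Ω → Q, ((u n : ℤ) : ℂ) * ∏ o, Φ' o (n o) =
        (Nat.card (pr (Ω := Ω) μ).ker : ℂ) * ∑ i, ((u (r i) : ℤ) : ℂ) * T β Φ' (r i) := by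
  classical
  let _ : MulAction (pr (Ω := Ω) μ).ker (Quotient (St β)) := mact μ hZ β
  let _ : Fintype (Quotient (St β)) := Fintype.ofFinite _
  let _ : Fintype (MulAction.orbitRel.Quotient (pr (Ω := Ω) μ).ker (Quotient (St β))) :=
    Fintype.ofFinite _
  have key : ∀ Ψ : Ω → Q → ℂ, (∀ o (z : Z) n, Ψ o (z * n) = ((μ z : ℂˣ) : ℂ) * Ψ o n) →
      ∑ n : Ω → Q, ((u n : ℤ) : ℂ) * ∏ o, Ψ o (n o) =
        (Nat.card (pr (Ω := Ω) μ).ker : ℂ) *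
          ∑ w : MulAction.orbitRel.Quotient (pr (Ω := Ω) μ).ker (Quotient (St β)),
            ((u (Quotient.out (Quotient.out w)) : ℤ) : ℂ) *
              T β Ψ (Quotient.out (Quotient.out w)) := by
    intro Ψ hΨ
    rw [sum_FY β Ψ u hu, sum_orbits (V := (pr (Ω := Ω) μ).ker) (FY β Ψ u hu)]
    · congr 1
      refine Finset.sum_congr rfl fun w _ => ?_
      exact congrArg (FY β Ψ u hu) (Quotient.out_eq (Quotient.out w)).symm
    · intro v y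
      induction y using Quotient.ind with
      | _ n =>
        change ((u (fun o => (((v : Ω → Z) o : Z) : Q) * n o) : ℤ) : ℂ) *
          T β Ψ (fun o => (((v : Ω → Z) o : Z) : Q) * n o) = ((u n : ℤ) : ℂ) * T β Ψ n
        rw [hu' _ _ v.2, T_mul μ hZ β Ψ hΨ _ v.2]
    · intro v y hv hne
      induction y using Quotient.ind with
      | _ n =>
        have h1 : ∀ o, (((v : Ω → Z) o : Z) : Q) * n o ∈ C (β o) (n o) := Quotient.exact hv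
        change ((u n : ℤ) : ℂ) * T β Ψ n = 0
        rw [T_zero μ hZ hμ β Ψ hΨ (v : Ω → Z) (fun h => hne (Subtype.ext h)) n h1, mul_zero]
  exact ⟨_, inferInstance, fun w => Quotient.out (Quotient.out w), key Φ hΦ, key Φ' hΦ'⟩

end PRC

theorem PRC_thm : Stmt_PRC := by
  classical
  intro Q Ω _ _ _ 𝔐 ℓ _ h𝔐 hℓ Z μ hZ hμ β hβ Φ Φ' hΦ hΦ' hw u hu hu'
  have hu1 : ∀ n m : Ω → Q, (∀ o, n o ∈ PRC.C (β o) (m o)) → u n = u m := by
    intro n m h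
    have h1 : ∀ o, ∃ a, n o = β o a * m o * a⁻¹ := fun o => PRC.mem_C.mp (h o)
    choose a ha using h1
    rw [← hu a m]
    congr 1
    funext o
    exact ha o
  obtain ⟨ι, _, r, h1, h2⟩ := PRC.sum_eq μ hZ hμ β Φ Φ' hΦ hΦ' u hu1 hu'
  have hcard : Nat.card {z : Ω → Z // ∏ o, μ (z o) = 1} = Nat.card (PRC.pr (Ω := Ω) μ).ker := rfl
  have hne : (Nat.card (PRC.pr (Ω := Ω) μ).ker : ℂ) ≠ 0 := by
    exact_mod_cast Nat.card_pos.ne'
  rw [h1, h2, hcard, mul_div_cancel_left₀ _ hne, mul_div_cancel_left₀ _ hne]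
  have h3 := fun i => PRC.T_red 𝔐 β Φ Φ' hw (r i)
  have h4 : ∀ i, IsIntegral ℤ (((u (r i) : ℤ) : ℂ) * PRC.T β Φ (r i)) := fun i =>
    (PRC.isIntegral_intCast _).mul (h3 i).1
  have h5 : ∀ i, IsIntegral ℤ (((u (r i) : ℤ) : ℂ) * PRC.T β Φ' (r i)) := fun i =>
    (PRC.isIntegral_intCast _).mul (h3 i).2.1
  refine ⟨isIntegral_sum _ _ fun i _ => h4 i, ?_⟩
  rw [red_sum 𝔐 _ _ fun i _ => h4 i, red_sum 𝔐 _ _ fun i _ => h5 i]
  refine Finset.sum_congr rfl fun i _ => ?_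
  rw [red_mul 𝔐 (PRC.isIntegral_intCast _) (h3 i).1,
    red_mul 𝔐 (PRC.isIntegral_intCast _) (h3 i).2.1, (h3 i).2.2]

end Pool.Agent.DPG


end

section

/-!
# PRF: products of the scalars on cosets
-/

namespace Pool.Agent.DPG

open Pool.Agent.DP Pool.Agent.DPC Pool.Agent.DPM Pool.Agent.DPN Pool.Agent.DPF
  Pool.Agent.DPK Pool.Agent.Lib_helper13 Representation
open Pool.Agent.Lib_helper13.Dade (pCore DadeHolds dadeSum)

namespace PRF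

theorem clG_normal' {H : Type} [Group H] (N : Subgroup H) [N.Normal] :
    ClG N.subtype (MulAut.conjNormal (H := N)) (QuotientGroup.mk' N) where
  inj := N.subtype_injective
  act := by
    intro y a
    exact MulAut.conjNormal_apply y a
  ker := by
    intro y
    rw [N.range_subtype]
    exact QuotientGroup.eq_one_iff y

/-- The scalars are integral. -/
theorem int_sc {L K : Type} [Group L] [Fintype L] [Group K] (π : L →* K) (N M S : Subgroup K)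
    [N.Normal] (hNM : N ≤ M) (F : L → ℂ) (hF : EF π N M S F) (U : L → ℤ)
    (hU : CIv (N.comap π) U) : IsIntegral ℤ ((∑ x, ((U x : ℤ) : ℂ) * F x) / F 1) := by
  classical
  refine INTH_thm (N.comap π) L (L ⧸ N.comap π) (N.comap π).subtype
    (MulAut.conjNormal (H := N.comap π)) (QuotientGroup.mk' (N.comap π))
    (clG_normal' (N.comap π)) (AL π M S) F hF.irr ?_ (fun x => ((U x : ℤ) : ℂ)) ?_ ?_
  · refine ⟨?_, ?_⟩
    · let e : ↥((AL π M S).comap (N.comap π).subtype) ≃* ↥(AL π N S) :=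
        { toFun := fun s => ⟨((s : ↥(N.comap π)) : L), ⟨s.1.2, s.2.2⟩⟩
          invFun := fun s => ⟨⟨(s : L), s.2.1⟩, ⟨hNM s.2.1, s.2.2⟩⟩
          left_inv := fun s => rfl
          right_inv := fun s => rfl
          map_mul' := fun s t => rfl }
      exact IsIrr.comp_mulEquiv (χ := fun a : AL π N S => F a) hF.res e
    · intro x hx
      exact hF.irr.2 _ (fun h => hx h)
  · intro x
    exact isIntegral_algebraMap (R := ℤ) (A := ℂ) (x := U x)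
  · intro h x
    have := hU (h : L) h.2 x
    change (((U (h * x * (h : L)⁻¹) : ℤ)) : ℂ) = _
    rw [this]

section Coset

variable {K1 Q L1 : Type} [Group K1] [Group Q] [Fintype Q] [Group L1]

open Classical in
/-- The function on the coset. -/
noncomputable def UU (ι : Q →* L1) (g : L1) (w : Q → ℤ) (y : L1) : ℤ :=
  ∑ n, if g * ι n = y then w n else 0

theorem sum_UU [Fintype L1] (ι : Q →* L1) (g : L1) (w : Q → ℤ) (F : L1 → ℂ) :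
    ∑ y, ((UU ι g w y : ℤ) : ℂ) * F y = ∑ n, ((w n : ℤ) : ℂ) * F (g * ι n) := by
  classical
  have h1 : ∀ y, ((UU ι g w y : ℤ) : ℂ) * F y =
      ∑ n, if g * ι n = y then ((w n : ℤ) : ℂ) * F y else 0 := by
    intro y
    rw [UU, Int.cast_sum, Finset.sum_mul]
    refine Finset.sum_congr rfl fun n _ => ?_
    split_ifs
    · rfl
    · simp
  simp only [h1]
  rw [Finset.sum_comm]
  refine Finset.sum_congr rfl fun n _ => ?_
  rw [Finset.sum_ite_eq]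
  simp

theorem UU_inv {q : Q →* K1} {α : K1 →* MulAut Q} {π1 : L1 →* K1} {ι : Q →* L1}
    (hc : π1.ker ≤ Subgroup.center L1) (hπι : ∀ x, π1 (ι x) = q x)
    (hια : ∀ y x, ι (α (π1 y) x) = y * ι x * y⁻¹) (g : L1) (w : Q → ℤ)
    (hw : ∀ a n, w (α (π1 g)⁻¹ a * n * a⁻¹) = w n) :
    CIv (q.range.comap π1) (UU ι g w) := by
  classical
  intro s hs x
  obtain ⟨a, ha⟩ := hs
  -- the conjugation by `s` is the conjugation by `ι a`
  have hc' : s * (ι a)⁻¹ ∈ Subgroup.center L1 := by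
    apply hc
    rw [MonoidHom.mem_ker, map_mul, map_inv, hπι, ha, mul_inv_cancel]
  have h1 : s * x * s⁻¹ = ι a * x * (ι a)⁻¹ := by
    have h2 := Subgroup.mem_center_iff.mp hc' (ι a * x * (ι a)⁻¹)
    have h3 : s = (s * (ι a)⁻¹) * ι a := by group
    calc s * x * s⁻¹ = (s * (ι a)⁻¹) * (ι a * x * (ι a)⁻¹) * (s * (ι a)⁻¹)⁻¹ := by group
      _ = _ := by rw [← h2]; group
  rw [h1, UU, UU]
  let e : Q ≃ Q :=
    { toFun := fun n => α (π1 g)⁻¹ a * n * a⁻¹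
      invFun := fun n => (α (π1 g)⁻¹ a)⁻¹ * n * a
      left_inv := fun n => by group
      right_inv := fun n => by group }
  rw [← Equiv.sum_comp e]
  refine Finset.sum_congr rfl fun n _ => ?_
  have h4 : g * ι (e n) = ι a * (g * ι n) * (ι a)⁻¹ := by
    change g * ι (α (π1 g)⁻¹ a * n * a⁻¹) = _
    rw [← map_inv, map_mul, map_mul, hια, map_inv]
    group
  have h5 : w (e n) = w n := hw a n
  rw [h4, h5]
  by_cases h6 : g * ι n = x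
  · rw [if_pos h6, if_pos (by rw [h6])]
  · rw [if_neg h6, if_neg]
    intro h7
    apply h6
    have h8 : ι a * (g * ι n) = ι a * x := mul_right_cancel h7
    exact mul_left_cancel h8

end Coset

end PRF

theorem PRF_thm (h1 : Stmt_PRC) : Stmt_PRF := by
  classical
  intro L K K1 Q L1 Ω _ _ _ _ _ _ _ _ _ _ _ 𝔐 ℓ _ h𝔐 hℓ π μ φ q α ε μQ π1 μ1 ι M M1 wd ld mm
    S S' F F' hF hF' hO hO' hsc x hx u hu
  have hN1 : q.range.Normal := by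
    refine ⟨?_⟩
    rintro _ ⟨a, rfl⟩ k
    exact ⟨α k a, wd.qe k a⟩
  -- the coordinates of `x`
  have hx1 : (φ (π x.1)) = gmap Ω π1 x.2 := hx.1
  have hxM : π x.1 ∈ M := hx.2
  have hr : (φ (π x.1)).right = 1 := mm.r _ hxM
  have hl : ∀ o, (φ (π x.1)).left o = π1 (x.2.left o) := by
    intro o
    rw [hx1]
    rfl
  -- integrality and reduction on one coordinate
  have key : ∀ o (w : Q → ℤ),
      (∀ a n, w ((α (π1 (x.2.left o))⁻¹) a * n * a⁻¹) = w n) →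
      IsIntegral ℤ (∑ n, ((w n : ℤ) : ℂ) * (F (x.2.left o * ι n) / F 1)) ∧
      IsIntegral ℤ (∑ n, ((w n : ℤ) : ℂ) * (F' (x.2.left o * ι n) / F' 1)) ∧
      red 𝔐 (∑ n, ((w n : ℤ) : ℂ) * (F (x.2.left o * ι n) / F 1)) =
        red 𝔐 (∑ n, ((w n : ℤ) : ℂ) * (F' (x.2.left o * ι n) / F' 1)) := by
    intro o w hw
    have hU := PRF.UU_inv (q := q) (α := α) ld.c ld.πι ld.ια (x.2.left o) w hw
    have e1 : ∀ G : L1 → ℂ, ∑ n, ((w n : ℤ) : ℂ) * (G (x.2.left o * ι n) / G 1) =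
        (∑ y, ((PRF.UU ι (x.2.left o) w y : ℤ) : ℂ) * G y) / G 1 := by
      intro G
      rw [PRF.sum_UU, Finset.sum_div]
      refine Finset.sum_congr rfl fun n _ => ?_
      rw [mul_div_assoc]
    rw [e1 F, e1 F']
    exact ⟨PRF.int_sc π1 q.range M1 S mm.le1 F hF _ hU,
      PRF.int_sc π1 q.range M1 S' mm.le1 F' hF' _ hU, hsc _ hU⟩
  have hZc : q.ker ≤ Subgroup.center Q := by
    intro z hz
    rw [Subgroup.mem_center_iff]
    intro g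
    have h2 := wd.qα z g
    rw [(MonoidHom.mem_ker).mp hz, map_one, MulAut.one_apply] at h2
    calc g * z = (z * g * z⁻¹) * z := by rw [← h2]
      _ = z * g := by group
  have hΦ : ∀ (G : L1 → ℂ), Ov π1 μ1 G → ∀ o (z : q.ker) n,
      G (x.2.left o * ι (z * n)) / G 1 =
        ((μQ z : ℂˣ) : ℂ) * (G (x.2.left o * ι n) / G 1) := by
    intro G hG o z n
    have h2 : ι (z : Q) ∈ π1.ker := by
      rw [MonoidHom.mem_ker, ld.πι]
      exact z.2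
    have h3 := Subgroup.mem_center_iff.mp (ld.c h2) (x.2.left o)
    have h4 : x.2.left o * ι ((z : Q) * n) = (⟨ι (z : Q), h2⟩ : π1.ker) * (x.2.left o * ι n) := by
      change _ = ι (z : Q) * (x.2.left o * ι n)
      rw [map_mul, ← mul_assoc, h3, mul_assoc]
    rw [h4, hG, ld.μι z h2, mul_div_assoc]
  -- the function on `Ω → Q`
  have hact : ∀ a n : Ω → Q,
      u (x.1 * ε (fun o => α (π1 (x.2.left o))⁻¹ (a o) * n o * (a o)⁻¹)) = u (x.1 * ε n) := by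
    intro a n
    have h2 : (fun o => α (π1 (x.2.left o))⁻¹ (a o) * n o * (a o)⁻¹) =
        wB α Ω (φ (π x.1⁻¹)) a * n * a⁻¹ := by
      funext o
      have h3 : wB α Ω (φ (π x.1⁻¹)) a o = α (π1 (x.2.left o))⁻¹ (a o) := by
        rw [wB_apply, map_inv, map_inv, SemidirectProduct.inv_right, hr, inv_one, inv_one,
          one_smul, SemidirectProduct.inv_left, hr, ← hl]
        simp
      change _ = wB α Ω (φ (π x.1⁻¹)) a o * n o * (a o)⁻¹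
      rw [h3]
    rw [h2, map_mul, map_mul, wd.cj, map_inv, inv_inv]
    have h4 : x.1 * (x.1⁻¹ * ε a * x.1 * ε n * (ε a)⁻¹) = ε a * (x.1 * ε n) * (ε a)⁻¹ := by
      group
    rw [h4]
    exact hu (ε a) ⟨ε a, ⟨a, rfl⟩, rfl⟩ _
  have hker : ∀ n : Ω → Q, ε n = 1 ↔ ∃ h : ∀ o, n o ∈ q.ker, ∏ o, μQ ⟨n o, h o⟩ = 1 := by
    intro n
    constructor
    · intro hn
      have h2 : ∀ o, n o ∈ q.ker := by
        intro o
        have h3 := wd.φε n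
        rw [hn, map_one, map_one] at h3
        have h4 := congrArg (fun t : Gam (Equiv.Perm Ω) Ω K1 => t.left o) h3
        exact h4.symm
      refine ⟨h2, ?_⟩
      have h5 : ε n ∈ π.ker := by
        rw [hn]
        exact π.ker.one_mem
      rw [← wd.με n h2 h5]
      have h6 : (⟨ε n, h5⟩ : π.ker) = 1 := Subtype.ext hn
      rw [h6, map_one]
    · rintro ⟨h2, h3⟩
      have h5 : ε n ∈ π.ker := by
        rw [MonoidHom.mem_ker]
        apply wd.φi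
        rw [wd.φε, map_one]
        have h6 : (fun o => q (n o)) = 1 := by
          funext o
          exact h2 o
        rw [h6]
        rfl
      have h7 := wd.με n h2 h5
      rw [h3] at h7
      have h8 : (⟨ε n, h5⟩ : π.ker) = 1 := wd.μi (h7.trans (map_one μ).symm)
      exact congrArg Subtype.val h8
  have hV : ∀ (z : Ω → q.ker) (n : Ω → Q), (∏ o, μQ (z o)) = 1 →
      u (x.1 * ε (fun o => z o * n o)) = u (x.1 * ε n) := by
    intro z n hz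
    have h2 : (fun o => (z o : Q) * n o) = (fun o => (z o : Q)) * n := rfl
    have h3 : ε (fun o => (z o : Q)) = 1 := (hker _).mpr ⟨fun o => (z o).2, hz⟩
    rw [h2, map_mul, h3, one_mul]
  have hcard : Nat.card ε.ker = Nat.card {z : Ω → q.ker // ∏ o, μQ (z o) = 1} := by
    refine Nat.card_congr ?_
    refine
      { toFun := fun n => ⟨fun o => ⟨n.1 o, ((hker n.1).mp n.2).1 o⟩, ((hker n.1).mp n.2).2⟩
        invFun := fun z => ⟨fun o => (z.1 o : Q), (hker _).mpr ⟨fun o => (z.1 o).2, z.2⟩⟩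
        left_inv := fun n => rfl
        right_inv := fun z => rfl }
  have hpsm : ∀ G : L1 → ℂ, psm ε ι G u x =
      (∑ n : Ω → Q, (((fun n => u (x.1 * ε n)) n : ℤ) : ℂ) *
        ∏ o, (fun o n => G (x.2.left o * ι n) / G 1) o (n o)) /
      Nat.card {z : Ω → q.ker // ∏ o, μQ (z o) = 1} := by
    intro G
    rw [psm, hcard]
    have h2 : ∀ n : Ω → Q, (((fun n => u (x.1 * ε n)) n : ℤ) : ℂ) *
        ∏ o, (fun o n => G (x.2.left o * ι n) / G 1) o (n o) =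
        (((u (x.1 * ε n) : ℤ) : ℂ) * ∏ o, G (x.2.left o * ι (n o))) /
          G 1 ^ Fintype.card Ω := by
      intro n
      change ((u (x.1 * ε n) : ℤ) : ℂ) * ∏ o, (G (x.2.left o * ι (n o)) / G 1) = _
      rw [Finset.prod_div_distrib, Finset.prod_const, Finset.card_univ, mul_div_assoc]
    rw [Finset.sum_congr rfl fun n _ => h2 n, ← Finset.sum_div, div_div]
    congr 1
    exact mul_comm _ _
  rw [hpsm F, hpsm F']
  have h9 := h1 Q Ω 𝔐 ℓ h𝔐 hℓ q.ker μQ hZc wd.μQi (fun o => α (π1 (x.2.left o))⁻¹)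
    (fun o z hz => wd.αz _ z hz)
    (fun o n => F (x.2.left o * ι n) / F 1) (fun o n => F' (x.2.left o * ι n) / F' 1)
    (fun o z n => hΦ F hO o z n) (fun o z n => hΦ F' hO' o z n) key
    (fun n => u (x.1 * ε n)) hact hV
  have h9' := h1 Q Ω 𝔐 ℓ h𝔐 hℓ q.ker μQ hZc wd.μQi (fun o => α (π1 (x.2.left o))⁻¹)
    (fun o z hz => wd.αz _ z hz)
    (fun o n => F' (x.2.left o * ι n) / F' 1) (fun o n => F (x.2.left o * ι n) / F 1)
    (fun o z n => hΦ F' hO' o z n) (fun o z n => hΦ F hO o z n)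
    (fun o w hw => ⟨(key o w hw).2.1, (key o w hw).1, (key o w hw).2.2.symm⟩)
    (fun n => u (x.1 * ε n)) hact hV
  exact ⟨h9.1, h9'.1, h9.2⟩

end Pool.Agent.DPG


end
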