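import Mathlib
import Pool.Agent.DAM.C01
import Pool.Agent.DAM.C08
import Pool.Agent.DAM.C12
import Pool.Agent.DAM.C13
import Pool.Agent.DAM.C14
import Pool.Agent.DAM.C20

/-! Parts: DPM.BTC, DPV.PERDV, DPC.PERDR, DPX.PRMX, DPX.KAHX -/

section

/-!
# BTC: a character of the same block over a given character of a central `ℓ`-subgroup
-/

set_option linter.unusedSectionVars false

namespace Pool.Agent.DPM

open Pool.Agent.DP Pool.Agent.DPC Pool.Agent.Lib_helper13 Representation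

namespace BTC

section Pure

/-- A sum over a set with an action of a finite group. -/
theorem sum_zero {G X F : Type} [Group G] [Fintype G] [MulAction G X] [Fintype X]
    [AddCommMonoid F] (s : X → F) (h1 : ∀ x, ∑ g : G, s (g • x) = 0)
    (h2 : ∀ x, (∃ g : G, g ≠ 1 ∧ g • x = x) → s x = 0) : ∑ x, s x = 0 := by
  classical
  rw [← Finset.sum_fiberwise Finset.univ
    (fun x => (Quotient.mk (MulAction.orbitRel G X) x)) s]
  apply Finset.sum_eq_zero
  intro q _
  obtain ⟨x0, rfl⟩ := Quotient.exists_rep q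
  by_cases hs : ∃ g : G, g ≠ 1 ∧ g • x0 = x0
  · apply Finset.sum_eq_zero
    intro x hx
    rw [Finset.mem_filter] at hx
    obtain ⟨g, hg⟩ : ∃ g : G, g • x0 = x := MulAction.orbitRel_apply.mp (Quotient.exact hx.2)
    obtain ⟨z, hz, hz'⟩ := hs
    apply h2
    refine ⟨g * z * g⁻¹, ?_, ?_⟩
    · intro h
      apply hz
      exact conj_eq_one_iff.mp h
    · rw [← hg, mul_smul, mul_smul, inv_smul_smul, hz']
  · push Not at hs
    have hinj : Function.Injective (fun g : G => g • x0) := by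
      intro a b hab
      have hab' : a • x0 = b • x0 := hab
      have h3 : (b⁻¹ * a) • x0 = x0 := by rw [mul_smul, hab', inv_smul_smul]
      by_contra hne
      exact hs (b⁻¹ * a) (fun h => hne (inv_mul_eq_one.mp h).symm) h3
    have h3 : (Finset.univ.filter fun x => Quotient.mk (MulAction.orbitRel G X) x =
        Quotient.mk (MulAction.orbitRel G X) x0) = Finset.univ.image (fun g : G => g • x0) := by
      ext x
      rw [Finset.mem_filter, Finset.mem_image]
      constructor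
      · rintro ⟨_, hx⟩
        obtain ⟨g, hg⟩ : ∃ g : G, g • x0 = x := MulAction.orbitRel_apply.mp (Quotient.exact hx)
        exact ⟨g, Finset.mem_univ _, hg⟩
      · rintro ⟨g, _, rfl⟩
        exact ⟨Finset.mem_univ _, Quotient.sound (MulAction.orbitRel_apply.mpr ⟨g, rfl⟩)⟩
    rw [h3, Finset.sum_image (fun a _ b _ h => hinj h)]
    exact h1 x0

end Pure

section Act

variable {L : Type} [Group L] {Z : Subgroup L}

/-- The linear character of a central subgroup under an irreducible character. -/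
theorem exists_cc [Fintype L] (hZ : Z ≤ Subgroup.center L) {χ : L → ℂ} (hχ : IsIrr χ) :
    ∃ μ : Z →* ℂˣ, ∀ (z : Z) (x : L), χ (z * x) = ((μ z : ℂˣ) : ℂ) * χ x := by
  have h0 : χ 1 ≠ 0 := hχ.one_ne_zero
  have key : ∀ (z : Z) (x : L), χ (z * x) = χ z / χ 1 * χ x := by
    intro z
    obtain ⟨n, ρ, hρ, rfl⟩ := hχ
    obtain ⟨c, hc⟩ := exists_scalar ρ hρ (ρ z) (by
      intro g x
      rw [← Module.End.mul_apply, ← map_mul, ← Subgroup.mem_center_iff.mp (hZ z.2) g, map_mul,
        Module.End.mul_apply])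
    have h1 : ∀ x, ρ.character (z * x) = c * ρ.character x := by
      intro x
      change LinearMap.trace ℂ _ (ρ (z * x)) = c * LinearMap.trace ℂ _ (ρ x)
      rw [map_mul, hc]
      have h2 : (c • LinearMap.id : (Fin n → ℂ) →ₗ[ℂ] (Fin n → ℂ)) * ρ x = c • ρ x := by
        apply LinearMap.ext
        intro v
        rfl
      rw [h2, map_smul, smul_eq_mul]
    intro x
    have h2 : ρ.character z = c * ρ.character 1 := by rw [← h1, mul_one]
    rw [h1, h2, mul_div_assoc, div_self h0, mul_one]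
  let f : Z →* ℂ :=
    { toFun := fun z => χ z / χ 1
      map_one' := div_self h0
      map_mul' := by
        intro a b
        have h1 := key a b
        change χ ((a : L) * b) / χ 1 = χ a / χ 1 * (χ b / χ 1)
        rw [h1, mul_div_assoc] }
  refine ⟨f.toHomUnits, fun z x => ?_⟩
  rw [MonoidHom.coe_toHomUnits]
  exact key z x

/-- The action of the central elements on the conjugacy classes. -/
@[reducible] def cact (hZ : Z ≤ Subgroup.center L) : MulAction Z (ConjClasses L) where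
  smul z := Quotient.map (fun x => (z : L) * x) (by
    intro x y h
    obtain ⟨c, hc⟩ := isConj_iff.mp h
    refine isConj_iff.mpr ⟨c, ?_⟩
    rw [← hc, ← mul_assoc, Subgroup.mem_center_iff.mp (hZ z.2) c]
    group)
  one_smul := by
    rintro ⟨x⟩
    exact congrArg ConjClasses.mk (one_mul x)
  mul_smul := by
    rintro a b ⟨x⟩
    exact congrArg ConjClasses.mk (mul_assoc _ _ _)

theorem mk_eq (hZ : Z ≤ Subgroup.center L) (z : Z) (x : L) :
    letI := cact hZ
    z • ConjClasses.mk x = ConjClasses.mk ((z : L) * x) := rfl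

variable [Fintype L]

theorem iz_mul (hZ : Z ≤ Subgroup.center L) (z : Z) (C : ConjClasses L) (x : L) :
    letI := cact hZ
    iz (z • C) ((z : L) * x) = iz C x := by
  let _ := cact hZ
  classical
  rw [iz, iz]
  refine if_congr ?_ rfl rfl
  rw [← mk_eq hZ z x]
  exact (MulAction.injective z).eq_iff

variable (𝔐 : Ideal (integralClosure ℤ ℂ)) [h𝔐 : 𝔐.IsPrime] {ℓ : ℕ} [Fact ℓ.Prime]

theorem lam_fixed (hℓ : (ℓ : integralClosure ℤ ℂ) ∈ 𝔐) (hZ : Z ≤ Subgroup.center L)
    (hZp : IsPGroup ℓ Z) {ψ : (⊤ : Subgroup L) → ℂ} (hψ : IsIrr ψ) (C : ConjClasses L) (z : Z)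
    (hz : z ≠ 1) :
    letI := cact hZ
    z • C = C → Lam 𝔐 ψ (iz C) = 0 := by
  let _ := cact hZ
  intro hC
  classical
  let Q : Subgroup Z := MulAction.stabilizer Z C
  have hQ : IsPGroup ℓ Q := hZp.to_subgroup Q
  have hinv : ∀ (q : Q) (y : L), iz C (((q : Z) : L) * y) = iz C y := by
    intro q y
    have hq : (q : Z) • C = C := q.2
    have h2 := iz_mul hZ (q : Z) C y
    rw [hq] at h2
    exact h2
  have hd : ∀ x : L, (ℓ : ℤ) ∣ conv (iz C) (iz C) x := by
    intro x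
    rw [← ZMod.intCast_zmod_eq_zero_iff_dvd, conv]
    push_cast
    have h1 := sum_eq_sum_fixed hQ (X := L) (M := ZMod ℓ)
      (by
        intro m
        rw [nsmul_eq_mul]
        simp) (fun y => ((iz C y : ℤ) : ZMod ℓ) * ((iz C (y⁻¹ * x) : ℤ) : ZMod ℓ)) (by
        intro q y
        have e2 : iz C ((((q : Z) : L) * y)⁻¹ * x) = iz C (y⁻¹ * x) := by
          have h3 := Subgroup.mem_center_iff.mp (hZ (q : Z).2) y
          have h4 : (((q : Z) : L) * y)⁻¹ * x = ((((q⁻¹ : Q) : Z)) : L) * (y⁻¹ * x) := by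
            rw [← h3, mul_inv_rev, mul_assoc]
            rfl
          rw [h4, hinv q⁻¹]
        change ((iz C (((q : Z) : L) * y) : ℤ) : ZMod ℓ) *
          ((iz C ((((q : Z) : L) * y)⁻¹ * x) : ℤ) : ZMod ℓ) = _
        rw [hinv q, e2])
    rw [h1]
    apply Finset.sum_eq_zero
    intro y hy
    exfalso
    rw [Finset.mem_filter] at hy
    have h2 := hy.2 ⟨z, hC⟩
    have h3 : (z : L) * y = y := h2
    exact hz (Subtype.ext (mul_eq_right.mp h3))
  choose w hw using hd
  have hcl : ∀ g x, conv (iz C) (iz C) (g * x * g⁻¹) = conv (iz C) (iz C) x := fun g x =>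
    (conv_supp (⊤ : Subgroup L) (iz_supp C) (iz_supp C)).2 g trivial x
  have hℓ0 : (ℓ : ℤ) ≠ 0 := by exact_mod_cast (Fact.out : ℓ.Prime).ne_zero
  have h1 := multOn_self 𝔐 hψ (iz C) (iz C) (iz_supp C) (iz_supp C)
  have h2 : conv (iz C) (iz C) = fun x => (ℓ : ℤ) * w x := funext hw
  rw [h2, Lam_mul_nat 𝔐 hℓ hψ w (by
    intro g _ x
    apply mul_left_cancel₀ hℓ0
    rw [← hw, ← hw, hcl])] at h1
  exact mul_self_eq_zero.mp h1.symm

theorem red_lin (hℓ : (ℓ : integralClosure ℤ ℂ) ∈ 𝔐) (hZp : IsPGroup ℓ Z) (μ : Z →* ℂˣ) (z : Z) :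
    IsIntegral ℤ ((μ z : ℂˣ) : ℂ) ∧ red 𝔐 ((μ z : ℂˣ) : ℂ) = 1 := by
  obtain ⟨k, hk⟩ := hZp z
  apply red_eq_one_of_pow 𝔐 hℓ (k := k)
  rw [← Units.val_pow_eq_pow_val, ← map_pow, hk, map_one, Units.val_one]

theorem lam_smul (hℓ : (ℓ : integralClosure ℤ ℂ) ∈ 𝔐) (hZ : Z ≤ Subgroup.center L)
    (hZp : IsPGroup ℓ Z) {ψ : (⊤ : Subgroup L) → ℂ} (hψ : IsIrr ψ) (μ : Z →* ℂˣ)
    (hμ : ∀ (z : Z) (x : (⊤ : Subgroup L)), ψ (⟨z, trivial⟩ * x) = ((μ z : ℂˣ) : ℂ) * ψ x)
    (C : ConjClasses L) (z : Z) :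
    letI := cact hZ
    Lam 𝔐 ψ (iz (z • C)) = Lam 𝔐 ψ (iz C) := by
  let _ := cact hZ
  obtain ⟨h1, h2⟩ := red_lin 𝔐 hℓ hZp μ z
  have h3 : wt ψ (fun s => ((iz (z • C) (s : L) : ℤ) : ℂ)) =
      ((μ z : ℂˣ) : ℂ) * wt ψ (fun s => ((iz C (s : L) : ℤ) : ℂ)) := by
    rw [wt, wt, ← mul_div_assoc, Finset.mul_sum]
    congr 1
    symm
    refine Fintype.sum_equiv (Equiv.mulLeft (⟨z, trivial⟩ : (⊤ : Subgroup L))) _ _ fun s => ?_
    have h4 : (Equiv.mulLeft (⟨z, trivial⟩ : (⊤ : Subgroup L))) s =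
      (⟨z, trivial⟩ : (⊤ : Subgroup L)) * s := rfl
    have h5 : iz (z • C) (((⟨z, trivial⟩ : (⊤ : Subgroup L)) * s : (⊤ : Subgroup L)) : L) =
        iz C (s : L) := iz_mul hZ z C s
    rw [h4, hμ, h5]
    ring
  rw [Lam, h3, red_mul 𝔐 h1 (isIntegral_wt_iz hψ C), h2, one_mul]
  rfl

/-- Class functions whose sums over the cosets of `Z` vanish are annihilated. -/
theorem red_zero_of (hℓ : (ℓ : integralClosure ℤ ℂ) ∈ 𝔐) (hZ : Z ≤ Subgroup.center L)
    (hZp : IsPGroup ℓ Z) {χ : L → ℂ} (hχ : IsIrr χ) (w : L → ℂ)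
    (hw : ∀ g x, w (g * x * g⁻¹) = w x) (hi : ∀ x, IsIntegral ℤ (w x))
    [Fintype Z] (h0 : ∀ x, ∑ z : Z, red 𝔐 (w (z * x)) = 0) :
    red 𝔐 (wt (fun s : (⊤ : Subgroup L) => χ (Subgroup.topEquiv s))
      (fun s => w (s : L))) = 0 := by
  classical
  let _ := cact hZ
  have hft : Fintype (ConjClasses L) := Fintype.ofFinite _
  obtain ⟨F, hF⟩ := exists_lift_class w hw
  have hFi : ∀ C, IsIntegral ℤ (F C) := by
    intro C
    obtain ⟨x, rfl⟩ := C.exists_rep
    have := hi x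
    rwa [← hF] at this
  have hψ : IsIrr (fun s : (⊤ : Subgroup L) => χ (Subgroup.topEquiv s)) :=
    hχ.comp_mulEquiv Subgroup.topEquiv
  obtain ⟨μ, hμ⟩ := exists_cc hZ hχ
  rw [red_wt_expand 𝔐 hψ hF hFi]
  refine sum_zero (G := Z) _ ?_ ?_
  · intro C
    have h1 : ∀ z : Z, red 𝔐 (F (z • C)) *
        Lam 𝔐 (fun s : (⊤ : Subgroup L) => χ (Subgroup.topEquiv s)) (iz (z • C)) =
        red 𝔐 (F (z • C)) *
          Lam 𝔐 (fun s : (⊤ : Subgroup L) => χ (Subgroup.topEquiv s)) (iz C) := by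
      intro z
      rw [lam_smul 𝔐 hℓ hZ hZp hψ μ (fun z x => hμ z x) C z]
    rw [Finset.sum_congr rfl fun z _ => h1 z, ← Finset.sum_mul]
    obtain ⟨x, rfl⟩ := C.exists_rep
    have h2 : ∀ z : Z, red 𝔐 (F (z • ConjClasses.mk x)) = red 𝔐 (w (z * x)) := by
      intro z
      rw [mk_eq hZ z x, hF]
    have h3 : ∑ z : Z, red 𝔐 (F (z • ConjClasses.mk x)) = 0 := by
      rw [Finset.sum_congr rfl fun z _ => h2 z]
      exact h0 x
    exact (congrArg (fun t => t * Lam 𝔐 (fun s : (⊤ : Subgroup L) => χ (Subgroup.topEquiv s))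
      (iz (ConjClasses.mk x))) h3).trans (zero_mul _)
  · rintro C ⟨z, hz, hzC⟩
    rw [lam_fixed 𝔐 hℓ hZ hZp hψ C z hz hzC, mul_zero]

omit h𝔐 in
/-- The sum of the values of the product of two different linear characters. -/
theorem sum_lin [Fintype Z] (lam μ : Z →* ℂˣ) (h : μ ≠ lam) :
    ∑ z : Z, ((lam z : ℂˣ) : ℂ) * (((μ z)⁻¹ : ℂˣ) : ℂ) = 0 := by
  have h1 : (Units.coeHom ℂ).comp (lam * μ⁻¹) ≠ 1 := by
    intro h2
    apply h
    ext z
    have h3 := congrArg (fun f : Z →* ℂ => f z) h2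
    have h4 : ((lam z : ℂˣ) : ℂ) * (((μ z)⁻¹ : ℂˣ) : ℂ) = 1 := h3
    have h5 : lam z * (μ z)⁻¹ = 1 := Units.ext h4
    rw [mul_inv_eq_one] at h5
    rw [h5]
  have h2 := sum_hom_units_eq_zero ((Units.coeHom ℂ).comp (lam * μ⁻¹)) h1
  rw [← h2]
  rfl

/-- A class function orthogonal to the characters over `lam`. -/
theorem sum_w_zero [Fintype Z] (hZ : Z ≤ Subgroup.center L) (lam : Z →* ℂˣ) (w : L → ℂ)
    (hw : ∀ g x, w (g * x * g⁻¹) = w x)
    (h0 : ∀ χ : L → ℂ, IsIrr χ → (∀ (z : Z) (x : L), χ (z * x) = ((lam z : ℂˣ) : ℂ) * χ x) →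
      ∑ x, w x * χ x = 0) (x : L) : ∑ z : Z, ((lam z : ℂˣ) : ℂ) * w (z * x) = 0 := by
  have h1 : (fun x => ∑ z : Z, ((lam z : ℂˣ) : ℂ) * w (z * x⁻¹)) = 0 := by
    apply class_fn_eq_zero
    · intro g x
      refine Finset.sum_congr rfl fun z _ => ?_
      congr 1
      have h2 := Subgroup.mem_center_iff.mp (hZ z.2) g
      have h3 : (z : L) * (g * x * g⁻¹)⁻¹ = g * (z * x⁻¹) * g⁻¹ := by
        rw [← mul_assoc g, h2]
        group
      rw [h3, hw]
    · intro χ hχ
      obtain ⟨μ, hμ⟩ := exists_cc hZ hχ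
      have h2 : ∑ g, (∑ z : Z, ((lam z : ℂˣ) : ℂ) * w (z * g⁻¹)) * χ g⁻¹ =
          ∑ g, (∑ z : Z, ((lam z : ℂˣ) : ℂ) * w (z * g)) * χ g :=
        Fintype.sum_equiv (Equiv.inv L) _ _ fun x => rfl
      rw [h2]
      simp only [Finset.sum_mul]
      rw [Finset.sum_comm]
      have h3 : ∀ z : Z, ∑ g, ((lam z : ℂˣ) : ℂ) * w (z * g) * χ g =
          ((lam z : ℂˣ) : ℂ) * (((μ z)⁻¹ : ℂˣ) : ℂ) * ∑ g, w g * χ g := by
        intro z
        rw [Finset.mul_sum]
        refine Fintype.sum_equiv (Equiv.mulLeft (z : L)) _ _ fun g => ?_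
        have h4 : (Equiv.mulLeft (z : L)) g = (z : L) * g := rfl
        rw [h4, hμ]
        have h5 : (((μ z)⁻¹ : ℂˣ) : ℂ) * ((μ z : ℂˣ) : ℂ) = 1 := by
          rw [← Units.val_mul, inv_mul_cancel, Units.val_one]
        calc ((lam z : ℂˣ) : ℂ) * w (z * g) * χ g =
            ((lam z : ℂˣ) : ℂ) * w (z * g) * χ g * 1 := by ring
          _ = ((lam z : ℂˣ) : ℂ) * w (z * g) * χ g *
              ((((μ z)⁻¹ : ℂˣ) : ℂ) * ((μ z : ℂˣ) : ℂ)) := by rw [h5]
          _ = _ := by ring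
      rw [Finset.sum_congr rfl fun z _ => h3 z, ← Finset.sum_mul]
      by_cases h : μ = lam
      · rw [h0 χ hχ (fun z x => by rw [hμ, h]), mul_zero]
      · rw [sum_lin lam μ h, zero_mul]
  have h2 := congrFun h1 x⁻¹
  simpa using h2

end Act

end BTC

open _root_.Pool.Agent.DPM.BTC in
theorem BTC_thm : Stmt_BTC := by
  intro L _ _ 𝔐 ℓ _ h𝔐 hℓ Z hZ hZp lam χ₀ hχ₀
  classical
  have hprime : 𝔐.IsPrime := h𝔐.isPrime
  by_contra hcon
  push Not at hcon
  have h1 : ∀ χ : L → ℂ, ∃ g : L, IsIrr χ →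
      (∀ (z : Z) (x : L), χ (z * x) = ((lam z : ℂˣ) : ℂ) * χ x) →
      cen 𝔐 (MonoidHom.id L) χ g ≠ cen 𝔐 (MonoidHom.id L) χ₀ g := by
    intro χ
    by_cases h : IsIrr χ ∧ ∀ (z : Z) (x : L), χ (z * x) = ((lam z : ℂˣ) : ℂ) * χ x
    · have h2 := hcon χ h.1 h.2
      rw [Ne, funext_iff, not_forall] at h2
      obtain ⟨g, hg⟩ := h2
      exact ⟨g, fun _ _ => hg⟩
    · exact ⟨1, fun h' h'' => absurd ⟨h', h''⟩ h⟩
  choose g hg using h1
  obtain ⟨a, ha⟩ : ∃ a : (L → ℂ) → ℂ, ∀ χ, a χ =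
      if IsIrr χ then wt χ (fun x => conjInd x (g χ)) else 0 := ⟨_, fun _ => rfl⟩
  have hai : ∀ χ, IsIntegral ℤ (a χ) := by
    intro χ
    rw [ha]
    split_ifs with h
    · exact isIntegral_wt_conj (MonoidHom.id L) h (g χ)
    · exact isIntegral_zero
  obtain ⟨T, hT⟩ : ∃ T : Finset (L → ℂ), ∀ χ, χ ∈ T ↔ IsIrr χ ∧
      ∀ (z : Z) (x : L), χ (z * x) = ((lam z : ℂˣ) : ℂ) * χ x :=
    ⟨(irrF L).filter fun χ => ∀ (z : Z) (x : L), χ (z * x) = ((lam z : ℂˣ) : ℂ) * χ x,
      fun χ => by rw [Finset.mem_filter, mem_irrF]⟩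
  obtain ⟨w, hw1, hw2, hw3⟩ := exists_prod_fn T g a hai
  have hw0 : ∀ χ : L → ℂ, IsIrr χ →
      (∀ (z : Z) (x : L), χ (z * x) = ((lam z : ℂˣ) : ℂ) * χ x) → ∑ x, w x * χ x = 0 := by
    intro χ hχ hχl
    have hψ' : IsIrr (fun s : (⊤ : Subgroup L) => χ (Subgroup.topEquiv s)) :=
      hχ.comp_mulEquiv Subgroup.topEquiv
    have h2 := hw3 ⊥ ⊤ (fun s : (⊤ : Subgroup L) => χ (Subgroup.topEquiv s)) hψ'
      (multOn_self ⊥ hψ')
    have h3 : ∏ i ∈ T, (cen ⊥ (⊤ : Subgroup L).subtype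
        (fun s : (⊤ : Subgroup L) => χ (Subgroup.topEquiv s)) (g i) - red ⊥ (a i)) = 0 := by
      apply Finset.prod_eq_zero ((hT χ).mpr ⟨hχ, hχl⟩)
      rw [sub_eq_zero, ha, if_pos hχ, cen]
      congr 1
      exact wt_comp_equiv (Subgroup.topEquiv (G := L)) χ (fun x => conjInd x (g χ))
    rw [h3] at h2
    have h4 : wt (fun s : (⊤ : Subgroup L) => χ (Subgroup.topEquiv s))
        (fun s => w (s : L)) = wt χ w :=
      wt_comp_equiv (Subgroup.topEquiv (G := L)) χ w
    rw [h4, ← red_zero (⊥ : Ideal (integralClosure ℤ ℂ)),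
      red_eq_iff ⊥ (isIntegral_wt hχ w hw1 hw2) isIntegral_zero] at h2
    obtain ⟨m, hm', hm''⟩ := h2
    rw [Ideal.mem_bot] at hm'
    rw [hm', sub_zero, ZeroMemClass.coe_zero, wt] at hm''
    rcases div_eq_zero_iff.mp hm''.symm with h5 | h5
    · exact h5
    · exact absurd h5 hχ.one_ne_zero
  have hfZ : Fintype Z := Fintype.ofFinite _
  have hsum : ∀ x, ∑ z : Z, red 𝔐 (w (z * x)) = 0 := by
    intro x
    have h2 := sum_w_zero hZ lam w hw1 hw0 x
    have h3 := congrArg (red 𝔐) h2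
    rw [red_zero, red_sum 𝔐 _ _ fun z _ =>
      ((red_lin 𝔐 hℓ hZp lam z).1).mul (hw2 _)] at h3
    rw [← h3]
    refine Finset.sum_congr rfl fun z _ => ?_
    rw [red_mul 𝔐 (red_lin 𝔐 hℓ hZp lam z).1 (hw2 _), (red_lin 𝔐 hℓ hZp lam z).2, one_mul]
  have hψ : IsIrr (fun s : (⊤ : Subgroup L) => χ₀ (Subgroup.topEquiv s)) :=
    hχ₀.comp_mulEquiv Subgroup.topEquiv
  have h2 := hw3 𝔐 ⊤ _ hψ (multOn_self 𝔐 hψ)
  rw [red_zero_of 𝔐 hℓ hZ hZp hχ₀ w hw1 hw2 hsum] at h2
  obtain ⟨χ, hχ, h4⟩ := Finset.prod_eq_zero_iff.mp h2.symm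
  obtain ⟨hχ', hχl⟩ := (hT χ).mp hχ
  apply hg χ hχ' hχl
  rw [sub_eq_zero, ha, if_pos hχ'] at h4
  have h5 : cen 𝔐 (⊤ : Subgroup L).subtype
      (fun s : (⊤ : Subgroup L) => χ₀ (Subgroup.topEquiv s)) (g χ) =
      cen 𝔐 (MonoidHom.id L) χ₀ (g χ) := by
    rw [cen, cen]
    congr 1
    exact wt_comp_equiv (Subgroup.topEquiv (G := L)) χ₀ (fun x => conjInd x (g χ))
  rw [← h5, h4]
  rfl

end Pool.Agent.DPM


end

section

/-!
# Module PERDV: the count for one character of the base group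
-/

namespace Pool.Agent.DPV

open Pool.Agent.DP

open Pool.Agent.Lib_helper13 Representation

theorem PERDV_thm (h1 : Stmt_PERAV) (h2 : Stmt_PERCV) : Stmt_PERDV := by
  classical
  intro O G B C Y K X _ _ _ _ _ _ _ _ _ _ _ _ 𝔐 ℓ _ ι κ ρ hL j p φ h τ hτ θ hθ r t g S f m M
    hstd
  have h3 : Stmt_IND := IND_thm
  have h2' := h2 O G B C Y K ℓ ι κ ρ hL j p φ h τ hτ θ hθ r t g S f m M hstd
  obtain ⟨-, -, -, hcard, -⟩ := h1 O G B C Y K ℓ ι κ ρ hL j p φ h τ hτ θ hθ
  generalize inert (cS h.cl τ) (fun a => ∏ o, θ o ((a : O → G) o)) = I at h2' hcard ⊢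
  obtain ⟨-, E, hE, hext, hwt⟩ := h2'
  refine ⟨E, hE, hext, ?_⟩
  intro d i ω
  have : Fintype K := Fintype.ofFinite K
  -- degrees of the characters of the coordinates
  have hdeg : ∀ o, ∃ n : ℕ, 0 < n ∧ θ o 1 = n := by
    intro o
    obtain ⟨n, hn, hn'⟩ := (hθ o).1.exists_degree
    exact ⟨n, hn, hn'⟩
  choose n hn0 hn using hdeg
  have hdvd : ∀ o, n o ∣ Nat.card (stb (comp τ o)) := fun o => (hθ o).1.degree_dvd (hn o)
  have hE1 : E 1 = ((∏ o, n o : ℕ) : ℂ) := by
    have h4 := hext 1 (by rw [map_one]; exact I.one_mem)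
    have h5 : (⟨jS h.cl τ 1, by rw [map_one]; exact I.one_mem⟩ : I) = 1 := by
      apply Subtype.ext
      exact map_one _
    rw [h5] at h4
    rw [h4]
    push_cast
    exact Finset.prod_congr rfl fun o _ => hn o
  have hP0 : (∏ o, n o : ℕ) ≠ 0 := by
    rw [Finset.prod_ne_zero_iff]
    intro o _
    exact (hn0 o).ne'
  -- the value at the identity of the product
  have hf1 : ∀ η : KB κ p φ τ θ → ℂ,
      E 1 * ext0 η (pS p j τ ((1 : I) : YS j τ)) = ((∏ o, n o : ℕ) : ℂ) * η 1 := by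
    intro η
    have h4 : pS p j τ ((1 : I) : YS j τ) = 1 := by
      rw [Subgroup.coe_one, map_one]
    rw [h4, hE1, ext0_of_mem η (KB κ p φ τ θ).one_mem]
    rfl
  -- the central functions
  have hcen : ∀ η : KB κ p φ τ θ → ℂ, IsIrr η → ∀ x,
      cen 𝔐 (i.comp (YS j τ).subtype) (indc I (fun s => E s * ext0 η (pS p j τ s))) x =
      red 𝔐 (wt η (fun k => AS p φ g S f m M (k : K) (fun y => conjInd (i y) x))) := by
    intro η hη x
    obtain ⟨-, -, -, h4⟩ := h3 (YS j τ) I (fun s => E s * ext0 η (pS p j τ s))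
    have h5 : (fun s : I => E s * ext0 η (pS p j τ s)) 1 ≠ 0 := by
      change E 1 * ext0 η (pS p j τ ((1 : I) : YS j τ)) ≠ 0
      rw [hf1]
      exact mul_ne_zero (by exact_mod_cast hP0) hη.one_ne_zero
    have h6 := h4 h5 (fun y => conjInd ((i.comp (YS j τ).subtype) y) x) (by
      intro a y
      simp only [map_mul, map_inv]
      exact conjInd_conj _ _ _)
    rw [cen, h6]
    have h7 := hwt η hη (fun y => conjInd (i y) x) (by
      intro a y
      simp only [map_mul, map_inv]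
      exact conjInd_conj _ _ _)
    rw [← h7]
    rfl
  -- the defects
  have hdef : ∀ η : KB κ p φ τ θ → ℂ, IsIrr η →
      (HasDefect ℓ (indc I (fun s => E s * ext0 η (pS p j τ s))) d ↔
        ∃ d', HasDefect ℓ η d' ∧ ∑ o, df ℓ (stb (comp τ o)) (θ o) + d' = d) := by
    intro η hη
    obtain ⟨k, hk0, hk⟩ := hη.exists_degree
    have hkd : k ∣ Nat.card (KB κ p φ τ θ) := hη.degree_dvd hk
    obtain ⟨h4, -, -, -⟩ := h3 (YS j τ) I (fun s => E s * ext0 η (pS p j τ s))
    rw [hf1, hk] at h4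
    obtain ⟨q, hq⟩ := Subgroup.card_subgroup_dvd_card I
    have hIc : Nat.card I ≠ 0 := Nat.card_pos.ne'
    have hYc : Nat.card (YS j τ) ≠ 0 := Nat.card_pos.ne'
    have hq0 : q ≠ 0 := by
      rintro rfl
      exact hYc (by rw [hq, mul_zero])
    have h5 : indc I (fun s => E s * ext0 η (pS p j τ s)) 1 = ((q * ((∏ o, n o) * k) : ℕ) : ℂ) := by
      have h6 : (Nat.card I : ℂ) ≠ 0 := by exact_mod_cast hIc
      apply mul_right_cancel₀ h6
      rw [h4, hq]
      push_cast
      ring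
    have hvY : padicValNat ℓ (Nat.card (YS j τ)) = padicValNat ℓ (Nat.card I) +
        padicValNat ℓ q := by
      rw [hq, padicValNat.mul hIc hq0]
    have hSc : ∀ o, Nat.card (stb (comp τ o)) ≠ 0 := fun o => Nat.card_pos.ne'
    have hvI : padicValNat ℓ (Nat.card I) = padicValNat ℓ (Nat.card (KB κ p φ τ θ)) +
        ∑ o, padicValNat ℓ (Nat.card (stb (comp τ o))) := by
      rw [hcard, padicValNat.mul Nat.card_pos.ne' (by
        rw [Finset.prod_ne_zero_iff]; intro o _; exact hSc o), PERD.val_prod ℓ _ _ (fun o _ => hSc o)]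
    have hvn : padicValNat ℓ (q * ((∏ o, n o) * k)) = padicValNat ℓ q +
        (∑ o, padicValNat ℓ (n o) + padicValNat ℓ k) := by
      rw [padicValNat.mul hq0 (mul_ne_zero hP0 hk0.ne'), padicValNat.mul hP0 hk0.ne',
        PERD.val_prod ℓ _ _ (fun o _ => (hn0 o).ne')]
    have hdfo : ∀ o, df ℓ (stb (comp τ o)) (θ o) + padicValNat ℓ (n o) =
        padicValNat ℓ (Nat.card (stb (comp τ o))) := by
      intro o
      have h6 : ⌊(θ o 1).re⌋₊ = n o := by
        rw [hn o]
        simp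
      rw [df, h6]
      have h7 : padicValNat ℓ (n o) ≤ padicValNat ℓ (Nat.card (stb (comp τ o))) :=
        (padicValNat_dvd_iff_le (hSc o)).1 (dvd_trans pow_padicValNat_dvd (hdvd o))
      omega
    have hsum : ∑ o, df ℓ (stb (comp τ o)) (θ o) + ∑ o, padicValNat ℓ (n o) =
        ∑ o, padicValNat ℓ (Nat.card (stb (comp τ o))) := by
      rw [← Finset.sum_add_distrib]
      exact Finset.sum_congr rfl fun o _ => hdfo o
    have hkle : padicValNat ℓ k ≤ padicValNat ℓ (Nat.card (KB κ p φ τ θ)) :=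
      (padicValNat_dvd_iff_le Nat.card_pos.ne').1 (dvd_trans pow_padicValNat_dvd hkd)
    constructor
    · rintro ⟨N, hN, hN'⟩
      have h6 : N = q * ((∏ o, n o) * k) := by
        rw [h5] at hN
        exact_mod_cast hN.symm
      rw [h6, hvY, hvI, hvn] at hN'
      refine ⟨padicValNat ℓ (Nat.card (KB κ p φ τ θ)) - padicValNat ℓ k,
        ⟨k, hk, by omega⟩, by omega⟩
    · rintro ⟨d', ⟨k', hk', hv⟩, hd⟩
      have h6 : k' = k := by
        rw [hk] at hk'
        exact_mod_cast hk'.symm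
      subst h6
      exact ⟨q * ((∏ o, n o) * k'), h5, by rw [hvY, hvI, hvn]; omega⟩
  rw [NNR, hcard]
  have hiff : ∀ η : KB κ p φ τ θ → ℂ,
      (IsIrr η ∧ (HasDefect ℓ (indc I (fun s => E s * ext0 η (pS p j τ s))) d ∧
        ∀ x, cen 𝔐 (i.comp (YS j τ).subtype)
          (indc I (fun s => E s * ext0 η (pS p j τ s))) x = ω x)) ↔
      (IsIrr η ∧ (∃ d', HasDefect ℓ η d' ∧ ∑ o, df ℓ (stb (comp τ o)) (θ o) + d' = d) ∧
        ∀ x, red 𝔐 (wt η (fun k => AS p φ g S f m M (k : K) (fun y => conjInd (i y) x))) =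
          ω x) := by
    intro η
    constructor
    · rintro ⟨hη, ha, hb⟩
      exact ⟨hη, (hdef η hη).1 ha, fun x => by rw [← hcen η hη x]; exact hb x⟩
    · rintro ⟨hη, ha, hb⟩
      exact ⟨hη, (hdef η hη).2 ha, fun x => by rw [hcen η hη x]; exact hb x⟩
  rw [Nat.card_congr (Equiv.subtypeEquivRight hiff)]
  push_cast
  ring

end Pool.Agent.DPV


end

section

/-!
# Module PERDR: the count for one character of the base group
-/

namespace Pool.Agent.DPC

open Pool.Agent.DP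

open Pool.Agent.Lib_helper13 Representation

theorem PERDR_thm (h1 : Stmt_PERAR) (h2 : Stmt_PERCR) : Stmt_PERDR := by
  classical
  intro O G B C Y K X _ _ _ _ _ _ _ _ _ _ _ _ 𝔐 ℓ _ ι κ ρ hL j p φ h τ hτ θ hθ r t g S f m M
    hstd
  have h3 : Stmt_IND := IND_thm
  have h2' := h2 O G B C Y K ℓ ι κ ρ hL j p φ h τ hτ θ hθ r t g S f m M hstd
  obtain ⟨-, -, -, hcard, -⟩ := h1 O G B C Y K ℓ ι κ ρ hL j p φ h τ hτ θ hθ
  generalize inert (cS h.cl τ) (fun a => ∏ o, θ o ((a : O → G) o)) = I at h2' hcard ⊢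
  obtain ⟨-, E, hE, hext, hwt⟩ := h2'
  refine ⟨E, hE, hext, ?_⟩
  intro d i ω
  have : Fintype K := Fintype.ofFinite K
  -- degrees of the characters of the coordinates
  have hdeg : ∀ o, ∃ n : ℕ, 0 < n ∧ θ o 1 = n := by
    intro o
    obtain ⟨n, hn, hn'⟩ := (hθ o).1.exists_degree
    exact ⟨n, hn, hn'⟩
  choose n hn0 hn using hdeg
  have hdvd : ∀ o, n o ∣ Nat.card (stb (comp τ o)) := fun o => (hθ o).1.degree_dvd (hn o)
  have hE1 : E 1 = ((∏ o, n o : ℕ) : ℂ) := by
    have h4 := hext 1 (by rw [map_one]; exact I.one_mem)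
    have h5 : (⟨jS h.cl τ 1, by rw [map_one]; exact I.one_mem⟩ : I) = 1 := by
      apply Subtype.ext
      exact map_one _
    rw [h5] at h4
    rw [h4]
    push_cast
    exact Finset.prod_congr rfl fun o _ => hn o
  have hP0 : (∏ o, n o : ℕ) ≠ 0 := by
    rw [Finset.prod_ne_zero_iff]
    intro o _
    exact (hn0 o).ne'
  -- the value at the identity of the product
  have hf1 : ∀ η : KB κ p φ τ θ → ℂ,
      E 1 * ext0 η (pS p j τ ((1 : I) : YS j τ)) = ((∏ o, n o : ℕ) : ℂ) * η 1 := by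
    intro η
    have h4 : pS p j τ ((1 : I) : YS j τ) = 1 := by
      rw [Subgroup.coe_one, map_one]
    rw [h4, hE1, ext0_of_mem η (KB κ p φ τ θ).one_mem]
    rfl
  -- the central functions
  have hcen : ∀ η : KB κ p φ τ θ → ℂ, IsIrr η → ∀ x,
      cen 𝔐 (i.comp (YS j τ).subtype) (indc I (fun s => E s * ext0 η (pS p j τ s))) x =
      red 𝔐 (wt η (fun k => AS p φ g S f m M (k : K) (fun y => conjInd (i y) x))) := by
    intro η hη x
    obtain ⟨-, -, -, h4⟩ := h3 (YS j τ) I (fun s => E s * ext0 η (pS p j τ s))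
    have h5 : (fun s : I => E s * ext0 η (pS p j τ s)) 1 ≠ 0 := by
      change E 1 * ext0 η (pS p j τ ((1 : I) : YS j τ)) ≠ 0
      rw [hf1]
      exact mul_ne_zero (by exact_mod_cast hP0) hη.one_ne_zero
    have h6 := h4 h5 (fun y => conjInd ((i.comp (YS j τ).subtype) y) x) (by
      intro a y
      simp only [map_mul, map_inv]
      exact conjInd_conj _ _ _)
    rw [cen, h6]
    have h7 := hwt η hη (fun y => conjInd (i y) x) (by
      intro a y
      simp only [map_mul, map_inv]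
      exact conjInd_conj _ _ _)
    rw [← h7]
    rfl
  -- the defects
  have hdef : ∀ η : KB κ p φ τ θ → ℂ, IsIrr η →
      (HasDefect ℓ (indc I (fun s => E s * ext0 η (pS p j τ s))) d ↔
        ∃ d', HasDefect ℓ η d' ∧ ∑ o, df ℓ (stb (comp τ o)) (θ o) + d' = d) := by
    intro η hη
    obtain ⟨k, hk0, hk⟩ := hη.exists_degree
    have hkd : k ∣ Nat.card (KB κ p φ τ θ) := hη.degree_dvd hk
    obtain ⟨h4, -, -, -⟩ := h3 (YS j τ) I (fun s => E s * ext0 η (pS p j τ s))
    rw [hf1, hk] at h4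
    obtain ⟨q, hq⟩ := Subgroup.card_subgroup_dvd_card I
    have hIc : Nat.card I ≠ 0 := Nat.card_pos.ne'
    have hYc : Nat.card (YS j τ) ≠ 0 := Nat.card_pos.ne'
    have hq0 : q ≠ 0 := by
      rintro rfl
      exact hYc (by rw [hq, mul_zero])
    have h5 : indc I (fun s => E s * ext0 η (pS p j τ s)) 1 = ((q * ((∏ o, n o) * k) : ℕ) : ℂ) := by
      have h6 : (Nat.card I : ℂ) ≠ 0 := by exact_mod_cast hIc
      apply mul_right_cancel₀ h6
      rw [h4, hq]
      push_cast
      ring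
    have hvY : padicValNat ℓ (Nat.card (YS j τ)) = padicValNat ℓ (Nat.card I) +
        padicValNat ℓ q := by
      rw [hq, padicValNat.mul hIc hq0]
    have hSc : ∀ o, Nat.card (stb (comp τ o)) ≠ 0 := fun o => Nat.card_pos.ne'
    have hvI : padicValNat ℓ (Nat.card I) = padicValNat ℓ (Nat.card (KB κ p φ τ θ)) +
        ∑ o, padicValNat ℓ (Nat.card (stb (comp τ o))) := by
      rw [hcard, padicValNat.mul Nat.card_pos.ne' (by
        rw [Finset.prod_ne_zero_iff]; intro o _; exact hSc o), PERD.val_prod ℓ _ _ (fun o _ => hSc o)]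
    have hvn : padicValNat ℓ (q * ((∏ o, n o) * k)) = padicValNat ℓ q +
        (∑ o, padicValNat ℓ (n o) + padicValNat ℓ k) := by
      rw [padicValNat.mul hq0 (mul_ne_zero hP0 hk0.ne'), padicValNat.mul hP0 hk0.ne',
        PERD.val_prod ℓ _ _ (fun o _ => (hn0 o).ne')]
    have hdfo : ∀ o, df ℓ (stb (comp τ o)) (θ o) + padicValNat ℓ (n o) =
        padicValNat ℓ (Nat.card (stb (comp τ o))) := by
      intro o
      have h6 : ⌊(θ o 1).re⌋₊ = n o := by
        rw [hn o]
        simp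
      rw [df, h6]
      have h7 : padicValNat ℓ (n o) ≤ padicValNat ℓ (Nat.card (stb (comp τ o))) :=
        (padicValNat_dvd_iff_le (hSc o)).1 (dvd_trans pow_padicValNat_dvd (hdvd o))
      omega
    have hsum : ∑ o, df ℓ (stb (comp τ o)) (θ o) + ∑ o, padicValNat ℓ (n o) =
        ∑ o, padicValNat ℓ (Nat.card (stb (comp τ o))) := by
      rw [← Finset.sum_add_distrib]
      exact Finset.sum_congr rfl fun o _ => hdfo o
    have hkle : padicValNat ℓ k ≤ padicValNat ℓ (Nat.card (KB κ p φ τ θ)) :=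
      (padicValNat_dvd_iff_le Nat.card_pos.ne').1 (dvd_trans pow_padicValNat_dvd hkd)
    constructor
    · rintro ⟨N, hN, hN'⟩
      have h6 : N = q * ((∏ o, n o) * k) := by
        rw [h5] at hN
        exact_mod_cast hN.symm
      rw [h6, hvY, hvI, hvn] at hN'
      refine ⟨padicValNat ℓ (Nat.card (KB κ p φ τ θ)) - padicValNat ℓ k,
        ⟨k, hk, by omega⟩, by omega⟩
    · rintro ⟨d', ⟨k', hk', hv⟩, hd⟩
      have h6 : k' = k := by
        rw [hk] at hk'
        exact_mod_cast hk'.symm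
      subst h6
      exact ⟨q * ((∏ o, n o) * k'), h5, by rw [hvY, hvI, hvn]; omega⟩
  rw [NNR, hcard]
  have hiff : ∀ η : KB κ p φ τ θ → ℂ,
      (IsIrr η ∧ (HasDefect ℓ (indc I (fun s => E s * ext0 η (pS p j τ s))) d ∧
        ∀ x, cen 𝔐 (i.comp (YS j τ).subtype)
          (indc I (fun s => E s * ext0 η (pS p j τ s))) x = ω x)) ↔
      (IsIrr η ∧ (∃ d', HasDefect ℓ η d' ∧ ∑ o, df ℓ (stb (comp τ o)) (θ o) + d' = d) ∧
        ∀ x, red 𝔐 (wt η (fun k => AS p φ g S f m M (k : K) (fun y => conjInd (i y) x))) =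
          ω x) := by
    intro η
    constructor
    · rintro ⟨hη, ha, hb⟩
      exact ⟨hη, (hdef η hη).1 ha, fun x => by rw [← hcen η hη x]; exact hb x⟩
    · rintro ⟨hη, ha, hb⟩
      exact ⟨hη, (hdef η hη).2 ha, fun x => by rw [hcen η hη x]; exact hb x⟩
  rw [Nat.card_congr (Equiv.subtypeEquivRight hiff)]
  push_cast
  ring

end Pool.Agent.DPC


end

section

/-!
# Theorem X: the idempotent of the normalizer is primitive (module DPX_PRMX)
-/

namespace Pool.Agent.DPX.PRMX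

open Pool.Agent.DPB Pool.Agent.DPW Pool.Agent.Lib_helper13 Representation

section Alg

variable {F T : Type} [Field F] [Group T] [Fintype T]

theorem cvF_assoc (a b c : T → F) : cvF (cvF a b) c = cvF a (cvF b c) := by
  funext x
  simp only [cvF, Finset.sum_mul, Finset.mul_sum]
  rw [Finset.sum_comm]
  refine Finset.sum_congr rfl fun z _ => ?_
  refine (Fintype.sum_equiv (Equiv.mulLeft z) _ _ fun w => ?_).symm
  simp [mul_assoc]

theorem cvF_mem {a b : T → F} (ha : a ∈ CF F T) (hb : b ∈ CF F T) : cvF a b ∈ CF F T := by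
  intro g x
  show ∑ y, a y * b (y⁻¹ * (g * x * g⁻¹)) = ∑ y, a y * b (y⁻¹ * x)
  refine Fintype.sum_equiv (MulAut.conj g⁻¹).toEquiv _ _ fun y => ?_
  have h1 : (MulAut.conj g⁻¹).toEquiv y = g⁻¹ * y * g⁻¹⁻¹ := rfl
  rw [h1, ha]
  congr 1
  have h2 := hb g ((g⁻¹ * y * g⁻¹⁻¹)⁻¹ * x)
  rw [← h2]
  congr 1
  group

theorem cvF_comm (a : T → F) {b : T → F} (hb : b ∈ CF F T) : cvF a b = cvF b a := by
  funext x
  show ∑ y, a y * b (y⁻¹ * x) = ∑ y, b y * a (y⁻¹ * x)
  refine Fintype.sum_equiv ((Equiv.inv T).trans (Equiv.mulLeft x)) _ _ fun y => ?_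
  show a y * b (y⁻¹ * x) = b (x * y⁻¹) * a ((x * y⁻¹)⁻¹ * x)
  have h1 : (x * y⁻¹)⁻¹ * x = y := by group
  have h2 : b (x * y⁻¹) = b (y⁻¹ * x) := by
    rw [← hb y (y⁻¹ * x)]
    congr 1
    group
  rw [h1, h2]
  ring

theorem cvF_add (a b c : T → F) : cvF a (b + c) = cvF a b + cvF a c := by
  funext x
  simp only [cvF, Pi.add_apply, mul_add, Finset.sum_add_distrib]

theorem add_cvF (a b c : T → F) : cvF (a + b) c = cvF a c + cvF b c := by
  funext x
  simp only [cvF, Pi.add_apply, add_mul, Finset.sum_add_distrib]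

theorem cvF_zero (a : T → F) : cvF a (0 : T → F) = 0 := by
  funext x
  simp [cvF]

open Classical in
theorem cvF_one (a : T → F) : cvF a (Pi.single 1 1) = a := by
  funext x
  unfold cvF
  rw [Finset.sum_eq_single x]
  · simp
  · intro y _ hy
    rw [Pi.single_eq_of_ne, mul_zero]
    intro h
    exact hy (inv_mul_eq_one.1 h)
  · intro h
    exact absurd (Finset.mem_univ x) h

omit [Fintype T] in
open Classical in
theorem one_mem : (Pi.single 1 1 : T → F) ∈ CF F T := by
  intro g x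
  by_cases hx : x = 1
  · subst hx
    simp
  · rw [Pi.single_eq_of_ne hx, Pi.single_eq_of_ne]
    intro h
    apply hx
    calc x = g⁻¹ * (g * x * g⁻¹) * g := by group
      _ = 1 := by rw [h]; group

theorem cvp_mem {z : T → F} (hz : z ∈ CF F T) (k : ℕ) : cvp z k ∈ CF F T := by
  induction k with
  | zero => exact one_mem
  | succ k ih => exact cvF_mem ih hz

/-- An idempotent times its powers. -/
theorem idem_cvp {f : T → F} (hf : cvF f f = f) (k : ℕ) : cvF f (cvp f k) = f := by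
  induction k with
  | zero => exact cvF_one f
  | succ k ih =>
    show cvF f (cvF (cvp f k) f) = f
    rw [← cvF_assoc, ih, hf]

end Alg

section Norm

variable {ℓ : ℕ} [hℓ : Fact ℓ.Prime] {F N : Type} [Field F] [Group N] [Fintype N]

/-- Class functions which vanish on the centralizer of a normal subgroup of order `ℓ` are
invariant under the translations by this subgroup. -/
theorem trans_inv (Q : Subgroup N) [hQn : Q.Normal] (hQ : Nat.card Q = ℓ) {a : N → F}
    (ha : a ∈ CF F N) (ha0 : ∀ y ∈ Subgroup.centralizer (Q : Set N), a y = 0) :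
    ∀ u ∈ Q, ∀ y, a (u * y) = a y := by
  intro u hu y
  by_cases hy : y ∈ Subgroup.centralizer (Q : Set N)
  · rw [ha0 y hy]
    have hcom : ∀ v ∈ Q, ∀ w ∈ Q, v * w = w * v := by
      have hc : IsCyclic Q := isCyclic_of_prime_card hQ
      intro v hv w hw
      have h1 := hc.isMulCommutative.is_comm.comm (⟨v, hv⟩ : Q) ⟨w, hw⟩
      exact congrArg Subtype.val h1
    apply ha0
    refine Subgroup.mul_mem _ ?_ hy
    rw [Subgroup.mem_centralizer_iff]
    intro v hv
    exact hcom v hv u hu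
  · have hconj : ∀ v : Q, y * (v : N)⁻¹ * y⁻¹ ∈ Q := fun v =>
      hQn.conj_mem _ (Q.inv_mem v.2) y
    let κ : Q → Q := fun v => v * ⟨y * (v : N)⁻¹ * y⁻¹, hconj v⟩
    have hinj : Function.Injective κ := by
      intro v w hvw
      have h1 : (v : N) * (y * (v : N)⁻¹ * y⁻¹) = (w : N) * (y * (w : N)⁻¹ * y⁻¹) :=
        congrArg Subtype.val hvw
      by_contra hne
      apply hy
      have h2 : ((w⁻¹ * v : Q) : N) * y = y * ((w⁻¹ * v : Q) : N) := by
        show (w : N)⁻¹ * (v : N) * y = y * ((w : N)⁻¹ * (v : N))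
        calc (w : N)⁻¹ * (v : N) * y
            = (w : N)⁻¹ * ((v : N) * (y * (v : N)⁻¹ * y⁻¹)) * (y * (v : N)) := by group
          _ = (w : N)⁻¹ * ((w : N) * (y * (w : N)⁻¹ * y⁻¹)) * (y * (v : N)) := by rw [h1]
          _ = y * ((w : N)⁻¹ * (v : N)) := by group
      have h3 : w⁻¹ * v ≠ 1 := by
        intro h
        exact hne (inv_mul_eq_one.1 h).symm
      have h4 : Subgroup.zpowers (w⁻¹ * v) = ⊤ := zpowers_eq_top_of_prime_card hQ h3
      rw [Subgroup.mem_centralizer_iff]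
      intro x hx
      have h5 : (⟨x, hx⟩ : Q) ∈ Subgroup.zpowers (w⁻¹ * v) := by
        rw [h4]
        exact Subgroup.mem_top _
      obtain ⟨m, hm⟩ := Subgroup.mem_zpowers_iff.1 h5
      have h6 : x = ((w⁻¹ * v : Q) : N) ^ m := by
        have h7 := congrArg Subtype.val hm
        rw [← Subgroup.coe_zpow]
        exact h7.symm
      rw [h6]
      exact (Commute.zpow_left (show Commute ((w⁻¹ * v : Q) : N) y from h2) m)
    obtain ⟨v, hv⟩ := (Finite.surjective_of_injective hinj) ⟨u, hu⟩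
    have h1 : (v : N) * (y * (v : N)⁻¹ * y⁻¹) = u := congrArg Subtype.val hv
    have h2 : u * y = (v : N) * y * (v : N)⁻¹ := by
      rw [← h1]
      group
    rw [h2]
    exact ha _ _

/-- The product of two class functions which vanish on the centralizer of a normal subgroup of
order `ℓ` is zero. -/
theorem cvF_eq_zero [CharP F ℓ] (Q : Subgroup N) [hQn : Q.Normal] (hQ : Nat.card Q = ℓ)
    {a b : N → F} (ha : a ∈ CF F N) (ha0 : ∀ y ∈ Subgroup.centralizer (Q : Set N), a y = 0)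
    (hb : b ∈ CF F N) (hb0 : ∀ y ∈ Subgroup.centralizer (Q : Set N), b y = 0) :
    cvF a b = 0 := by
  classical
  have h1 := trans_inv (ℓ := ℓ) Q hQ ha ha0
  have h2 := trans_inv (ℓ := ℓ) Q hQ hb hb0
  funext x
  show ∑ y, a y * b (y⁻¹ * x) = 0
  let _ : MulAction Q N :=
    { smul := fun q y => y * (q : N)⁻¹
      one_smul := by
        intro y
        change y * ((1 : Q) : N)⁻¹ = y
        simp
      mul_smul := by
        intro p q y
        change y * ((p * q : Q) : N)⁻¹ = y * (q : N)⁻¹ * (p : N)⁻¹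
        simp [mul_assoc] }
  have hsmul : ∀ (q : Q) (y : N), q • y = y * (q : N)⁻¹ := fun _ _ => rfl
  have hM : ∀ m : F, ℓ • m = 0 := by
    intro m
    rw [nsmul_eq_mul, CharP.cast_eq_zero, zero_mul]
  have hP : IsPGroup ℓ Q := IsPGroup.of_card (n := 1) (by rw [hQ, pow_one])
  rw [sum_eq_sum_fixed hP hM (fun y => a y * b (y⁻¹ * x)) (fun q y => ?_)]
  · refine Finset.sum_eq_zero fun y hy => ?_
    exfalso
    have hfix := (Finset.mem_filter.mp hy).2
    have hnt : Nontrivial Q := by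
      rw [← Finite.one_lt_card_iff_nontrivial, hQ]
      exact hℓ.out.one_lt
    obtain ⟨q, hq⟩ := exists_ne (1 : Q)
    apply hq
    have h3 : y * (q : N)⁻¹ = y := hfix q
    have h4 : (q : N)⁻¹ = 1 := by
      rwa [mul_eq_left] at h3
    exact Subtype.ext (inv_eq_one.1 h4)
  · show a (q • y) * b ((q • y)⁻¹ * x) = a y * b (y⁻¹ * x)
    rw [hsmul]
    have h3 : y * (q : N)⁻¹ = (y * (q : N)⁻¹ * y⁻¹) * y := by group
    have h4 : (y * (q : N)⁻¹)⁻¹ * x = (q : N) * (y⁻¹ * x) := by group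
    rw [h4, h2 _ q.2, h3, h1 _ (hQn.conj_mem _ (Q.inv_mem q.2) y)]

/-- A central idempotent is supported on the centralizer of a normal subgroup of order `ℓ`. -/
theorem supp_cen [CharP F ℓ] (Q : Subgroup N) [hQn : Q.Normal] (hQ : Nat.card Q = ℓ)
    {f : N → F} (hf : f ∈ CF F N) (hff : cvF f f = f) :
    ∀ y, f y ≠ 0 → y ∈ Subgroup.centralizer (Q : Set N) := by
  classical
  set C := Subgroup.centralizer (Q : Set N) with hC
  have hCn : ∀ g y : N, g * y * g⁻¹ ∈ C ↔ y ∈ C := by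
    intro g y
    have hn : C.Normal := by
      rw [hC]
      infer_instance
    constructor
    · intro h
      have h1 := hn.conj_mem _ h g⁻¹
      have h2 : g⁻¹ * (g * y * g⁻¹) * g⁻¹⁻¹ = y := by group
      rwa [h2] at h1
    · intro h
      exact hn.conj_mem _ h g
  set f₁ : N → F := fun y => if y ∈ C then f y else 0 with hf₁
  set a : N → F := fun y => if y ∈ C then 0 else f y with ha
  have hsum : f = f₁ + a := by
    funext y
    show f y = f₁ y + a y
    by_cases hy : y ∈ C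
    · simp [hf₁, ha, hy]
    · simp [hf₁, ha, hy]
  have hf₁m : f₁ ∈ CF F N := by
    intro g y
    show (if g * y * g⁻¹ ∈ C then f (g * y * g⁻¹) else 0) = if y ∈ C then f y else 0
    simp only [hCn, hf g y]
  have ham : a ∈ CF F N := by
    intro g y
    show (if g * y * g⁻¹ ∈ C then 0 else f (g * y * g⁻¹)) = if y ∈ C then 0 else f y
    simp only [hCn, hf g y]
  have ha0 : ∀ y ∈ C, a y = 0 := by
    intro y hy
    show (if y ∈ C then 0 else f y) = 0
    rw [if_pos hy]
  have hf₁0 : ∀ y, y ∉ C → f₁ y = 0 := by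
    intro y hy
    show (if y ∈ C then f y else 0) = 0
    rw [if_neg hy]
  have haa : cvF a a = 0 := cvF_eq_zero (ℓ := ℓ) Q hQ ham ha0 ham ha0
  have hsup1 : ∀ x, x ∉ C → cvF f₁ f₁ x = 0 := by
    intro x hx
    show ∑ y, f₁ y * f₁ (y⁻¹ * x) = 0
    refine Finset.sum_eq_zero fun y _ => ?_
    by_cases hy : y ∈ C
    · have h1 : y⁻¹ * x ∉ C := by
        intro h
        apply hx
        have h2 := C.mul_mem hy h
        rwa [mul_inv_cancel_left] at h2
      rw [hf₁0 _ h1, mul_zero]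
    · rw [hf₁0 y hy, zero_mul]
  have hsup2 : ∀ x ∈ C, cvF f₁ a x = 0 := by
    intro x hx
    show ∑ y, f₁ y * a (y⁻¹ * x) = 0
    refine Finset.sum_eq_zero fun y _ => ?_
    by_cases hy : y ∈ C
    · rw [ha0 _ (C.mul_mem (C.inv_mem hy) hx), mul_zero]
    · rw [hf₁0 y hy, zero_mul]
  have hexp : f = cvF f₁ f₁ + (cvF f₁ a + cvF f₁ a) := by
    conv_lhs => rw [← hff, hsum]
    rw [cvF_add, add_cvF, add_cvF, haa, add_zero, cvF_comm a hf₁m, add_assoc]
  have h11 : cvF f₁ f₁ = f₁ := by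
    funext x
    by_cases hx : x ∈ C
    · have h1 := congrFun hexp x
      have h2 : f₁ x = f x := by
        show (if x ∈ C then f x else 0) = f x
        rw [if_pos hx]
      rw [h2, h1]
      show cvF f₁ f₁ x = cvF f₁ f₁ x + (cvF f₁ a x + cvF f₁ a x)
      rw [hsup2 x hx, add_zero, add_zero]
    · rw [hsup1 x hx, hf₁0 x hx]
  have h12 : a = cvF f₁ a + cvF f₁ a := by
    have h1 : f₁ + a = f₁ + (cvF f₁ a + cvF f₁ a) := by
      rw [← hsum]
      conv_lhs => rw [hexp, h11]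
    exact add_left_cancel h1
  have h13 : cvF f₁ a = 0 := by
    have h1 : cvF f₁ a = cvF f₁ a + cvF f₁ a := by
      conv_lhs => rw [h12, cvF_add, ← cvF_assoc, h11]
    exact (left_eq_add.1 h1)
  have h14 : a = 0 := by
    rw [h12, h13, add_zero]
  intro y hy
  by_contra hyC
  apply hy
  rw [hsum]
  show f₁ y + a y = 0
  rw [hf₁0 y hyC, h14, zero_add]
  rfl

end Norm

section Brz

variable {F T : Type} [Field F] [Group T]

theorem brz_of_mem (P : Subgroup T) (z : T → F) (n : NP P)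
    (hn : (n : T) ∈ Subgroup.centralizer (P : Set T)) : brz P z n = z n := by
  unfold brz
  rw [if_pos hn]

theorem brz_of_notMem (P : Subgroup T) (z : T → F) (n : NP P)
    (hn : (n : T) ∉ Subgroup.centralizer (P : Set T)) : brz P z n = 0 := by
  unfold brz
  rw [if_neg hn]

open Classical in
theorem cvp_zero_one [Fintype T] (z : T → F) : cvp z 0 1 = 1 := by
  unfold cvp
  exact Pi.single_eq_same _ _

open Classical in
theorem cvp_zero_ne [Fintype T] (z : T → F) {x : T} (hx : x ≠ 1) : cvp z 0 x = 0 := by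
  unfold cvp
  exact Pi.single_eq_of_ne hx _

theorem brz_one [Fintype T] (P : Subgroup T) [Fintype (NP P)] (z : T → F) (z' : NP P → F) :
    brz P (cvp z 0) = cvp z' 0 := by
  funext n
  by_cases hn : n = 1
  · subst hn
    rw [brz_of_mem P _ _ (by
      rw [Subgroup.coe_one]
      exact Subgroup.one_mem _), Subgroup.coe_one, cvp_zero_one, cvp_zero_one]
  · rw [cvp_zero_ne z' hn]
    by_cases hc : (n : T) ∈ Subgroup.centralizer (P : Set T)
    · rw [brz_of_mem P _ _ hc, cvp_zero_ne]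
      intro h
      exact hn (Subtype.ext h)
    · exact brz_of_notMem P _ _ hc

end Brz

end Pool.Agent.DPX.PRMX

namespace Pool.Agent.DPX

open Pool.Agent.DPB Pool.Agent.DPW Pool.Agent.Lib_helper13 Representation

/-- PRMX. -/
theorem PRMX_thm (h1 : Stmt_SUPX) (h2 : Stmt_GCX) (h3 : Stmt_BKNX) (h4 : Stmt_LOCX) :
    Stmt_PRMX := by
  classical
  intro ℓ n _ F T _ _ _ _ P₁ P _ x₀ e hB hprm
  obtain ⟨hs1, hs2, -⟩ := h1
  have hc1 : Nat.card P₁ = ℓ := hB.cd.c1
  obtain ⟨-, -, hg3, hg4⟩ := h2 ℓ T P₁ hc1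
  have hbrz := h3.1 ℓ F T P₁ hc1
  obtain ⟨hPN, hB2⟩ := h3.2 ℓ n F T P₁ P x₀ e hB
  -- `x₀` centralizes `P₁`
  have hx0c : x₀ ∈ Subgroup.centralizer (P₁ : Set T) :=
    Subgroup.mem_centralizer_iff.2 fun u hu => hB.cd.cen u (hB.cd.le hu)
  have hx : x₀ ∈ Subgroup.normalizer (P₁ : Set T) :=
    Subgroup.centralizer_le_normalizer (P₁ : Set T) hx0c
  obtain ⟨-, hBN⟩ := hB2 hx
  -- the normal subgroup of the normalizer
  set Q : Subgroup (NP P₁) := P₁.subgroupOf (Subgroup.normalizer (P₁ : Set T)) with hQdef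
  have hle : P₁ ≤ Subgroup.normalizer (P₁ : Set T) := Subgroup.le_normalizer
  have hQn : Q.Normal := by
    rw [hQdef]
    infer_instance
  have hQc : Nat.card Q = ℓ := by
    rw [← hc1]
    exact Nat.card_congr (Subgroup.subgroupOfEquivOfLe hle).toEquiv
  have hQcen : ∀ m : NP P₁, m ∈ Subgroup.centralizer (Q : Set (NP P₁)) →
      (m : T) ∈ Subgroup.centralizer (P₁ : Set T) := by
    intro m hm
    rw [Subgroup.mem_centralizer_iff] at hm ⊢
    intro u hu
    have h5 := hm ⟨u, hle hu⟩ (by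
      show (⟨u, hle hu⟩ : NP P₁) ∈ Q
      rw [hQdef, Subgroup.mem_subgroupOf]
      exact hu)
    exact congrArg Subtype.val h5
  refine ⟨hBN.cf, hBN.idem, ?_, ?_⟩
  · obtain ⟨m, hm, -⟩ := hBN.nz
    intro h
    exact hm (congrFun h m)
  intro f hf hff hef
  obtain ⟨y', hy', hfac⟩ := hBN.fac
  -- the support of `f`
  have hsupp : ∀ m : NP P₁, f m ≠ 0 → (m : T) ∈ Subgroup.centralizer (P₁ : Set T) :=
    fun m hm => hQcen m (PRMX.supp_cen (ℓ := ℓ) Q hQc hf hff m hm)
  have hfw : f = cvF (clsF F (⟨x₀, hx⟩ : NP P₁)) (cvF y' f) := by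
    rw [← PRMX.cvF_assoc, ← hfac, hef]
  -- the centralizers of the elements of the support
  have hcyc : ∀ m : NP P₁, f m ≠ 0 → ∀ R : Subgroup T, IsPGroup ℓ R →
      R ≤ Subgroup.normalizer (P₁ : Set T) → (∀ u ∈ R, u * (m : T) = m * u) → IsCyclic R := by
    intro m hm R hR hRN hRm
    set R' : Subgroup (NP P₁) := R.subgroupOf (Subgroup.normalizer (P₁ : Set T)) with hR'
    have hR'p : IsPGroup ℓ R' :=
      hR.of_injective (Subgroup.subgroupOfEquivOfLe hRN).toMonoidHom
        (Subgroup.subgroupOfEquivOfLe hRN).injective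
    obtain ⟨t, ht⟩ := hs1 ℓ F (NP P₁) ⟨x₀, hx⟩ (cvF y' f) (PRMX.cvF_mem hy' hf) m
      (by rw [← hfw]; exact hm) R' hR'p (by
        intro u hu
        apply Subtype.ext
        exact hRm u.1 (Subgroup.mem_subgroupOf.1 hu))
    obtain ⟨c, -, hc⟩ := hs2 ℓ n T P₁ P x₀ hB.cd (R.map (MulAut.conj (t : T)).toMonoidHom)
      (hR.map _) (by
        rintro _ ⟨q, hq, rfl⟩
        have h5 := ht ⟨q, hRN hq⟩ (Subgroup.mem_subgroupOf.2 hq)
        exact congrArg Subtype.val h5)
    have hPc : IsCyclic P := hB.cd.cyc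
    have hle2 : (R.map (MulAut.conj (t : T)).toMonoidHom).map
        (MulAut.conj c).toMonoidHom ≤ P := by
      rintro _ ⟨q, hq, rfl⟩
      exact hc q hq
    have hcy2 : IsCyclic ((R.map (MulAut.conj (t : T)).toMonoidHom).map
        (MulAut.conj c).toMonoidHom) :=
      isCyclic_of_injective (Subgroup.inclusion hle2) (Subgroup.inclusion_injective hle2)
    have e1 := R.equivMapOfInjective (MulAut.conj (t : T)).toMonoidHom
      (MulAut.conj (t : T)).injective
    have e2 := (R.map (MulAut.conj (t : T)).toMonoidHom).equivMapOfInjective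
      (MulAut.conj c).toMonoidHom (MulAut.conj c).injective
    exact isCyclic_of_injective (e1.trans e2).toMonoidHom (e1.trans e2).injective
  -- conjugacy in `T` and in the normalizer
  have hconj : ∀ m m' : NP P₁, f m ≠ 0 → (m' : T) ∈ Subgroup.centralizer (P₁ : Set T) →
      (∃ s : T, (m' : T) = s * m * s⁻¹) → f m' = f m := by
    intro m m' hm hm' ⟨s, hs⟩
    have hmc := Subgroup.mem_centralizer_iff.1 (hsupp m hm)
    have hall := hg4 m hmc (hcyc m hm)
    obtain ⟨k, hkN, hk⟩ := hg3 m hmc (fun R hR hRm => (hall R hR hRm).1) s (by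
      intro u hu
      rw [← hs]
      exact Subgroup.mem_centralizer_iff.1 hm' u hu)
    have h5 : m' = ⟨k, hkN⟩ * m * (⟨k, hkN⟩ : NP P₁)⁻¹ := by
      apply Subtype.ext
      show (m' : T) = k * m * k⁻¹
      rw [hs, ← hk]
    rw [h5]
    exact hf _ _
  -- the extension to `T`
  let Pr : T → Prop := fun x => ∃ m : NP P₁, f m ≠ 0 ∧ ∃ s : T, x = s * m * s⁻¹
  let g : T → F := fun x => if h : Pr x then f h.choose else 0
  have hgval : ∀ (x : T) (m : NP P₁), f m ≠ 0 → (∃ s : T, x = s * m * s⁻¹) → g x = f m := by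
    intro x m hm ⟨s, hs⟩
    have hPr : Pr x := ⟨m, hm, s, hs⟩
    have h5 : g x = f hPr.choose := by
      show (if h : Pr x then f h.choose else 0) = _
      rw [dif_pos hPr]
    rw [h5]
    obtain ⟨h6, s', hs'⟩ := hPr.choose_spec
    refine hconj m hPr.choose hm (hsupp _ h6) ⟨s'⁻¹ * s, ?_⟩
    have h7 : ((hPr.choose : NP P₁) : T) = s'⁻¹ * x * s' := by
      conv_rhs => rw [hs']
      group
    rw [h7, hs]
    group
  have hgno : ∀ x : T, ¬ Pr x → g x = 0 := by
    intro x hx'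
    show (if h : Pr x then f h.choose else 0) = 0
    rw [dif_neg hx']
  have hg : g ∈ CF F T := by
    intro t x
    by_cases hPr : Pr x
    · obtain ⟨m, hm, s, hs⟩ := hPr
      rw [hgval x m hm ⟨s, hs⟩, hgval (t * x * t⁻¹) m hm ⟨t * s, by rw [hs]; group⟩]
    · rw [hgno x hPr, hgno]
      rintro ⟨m, hm, s, hs⟩
      refine hPr ⟨m, hm, t⁻¹ * s, ?_⟩
      calc x = t⁻¹ * (t * x * t⁻¹) * t := by group
        _ = t⁻¹ * (s * m * s⁻¹) * t := by rw [hs]
        _ = t⁻¹ * s * m * (t⁻¹ * s)⁻¹ := by group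
  have hbg : brz P₁ g = f := by
    funext m
    by_cases hm : (m : T) ∈ Subgroup.centralizer (P₁ : Set T)
    · rw [PRMX.brz_of_mem P₁ g m hm]
      by_cases hPr : Pr (m : T)
      · obtain ⟨m', hm', s, hs⟩ := hPr
        rw [hgval m m' hm' ⟨s, hs⟩]
        exact (hconj m' m hm' hm ⟨s, hs⟩).symm
      · rw [hgno _ hPr]
        by_contra h5
        exact hPr ⟨m, fun h => h5 h.symm, 1, by simp⟩
    · rw [PRMX.brz_of_notMem P₁ g m hm]
      by_contra h5
      exact hm (hsupp m fun h => h5 h.symm)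
  -- the local algebra
  have he : e ∈ CF F T := hB.cf
  have hg'm : cvF e g ∈ CF F T := PRMX.cvF_mem he hg
  have heg : cvF e (cvF e g) = cvF e g := by
    rw [← PRMX.cvF_assoc, hB.idem]
  have hbg' : brz P₁ (cvF e g) = f := by
    rw [(hbrz e he g hg).2, hbg, hef]
  rcases h4 F T e hprm (cvF e g) hg'm heg with ⟨k, hk⟩ | ⟨w, hw, -, hw2⟩
  · left
    have h5 : ∀ k, brz P₁ (cvp (cvF e g) k) = cvp f k := by
      intro k
      induction k with
      | zero => exact PRMX.brz_one P₁ (cvF e g) f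
      | succ k ih =>
        show brz P₁ (cvF (cvp (cvF e g) k) (cvF e g)) = cvF (cvp f k) f
        rw [(hbrz _ (PRMX.cvp_mem hg'm k) _ hg'm).2, ih, hbg']
    have h6 : cvp f k = 0 := by
      rw [← h5 k, hk]
      funext m
      unfold brz
      split_ifs <;> rfl
    rw [← PRMX.idem_cvp hff k, h6, PRMX.cvF_zero]
  · right
    have h5 : cvF f (brz P₁ w) = brz P₁ e := by
      rw [← hbg', ← (hbrz _ hg'm _ hw).2, hw2]
    calc f = cvF (brz P₁ e) f := hef.symm
      _ = cvF f (brz P₁ e) := PRMX.cvF_comm _ hf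
      _ = cvF f (cvF f (brz P₁ w)) := by rw [h5]
      _ = cvF f (brz P₁ w) := by rw [← PRMX.cvF_assoc, hff]
      _ = brz P₁ e := h5

end Pool.Agent.DPX


end

section

/-!
# Module KAHX: a representation which occurs, occurs in an irreducible one
-/

set_option autoImplicit false

namespace Pool.Agent.DPX

open Pool.Agent.DPB Pool.Agent.DPW Representation

namespace KAHX

open Pool.Agent.DPB.KAH

section Basic

variable {F H V V' W : Type} [Field F] [Group H] [Fintype H] [AddCommGroup V] [Module F V]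
  [AddCommGroup V'] [Module F V'] [AddCommGroup W] [Module F W]

theorem tr1_apply (σ : Representation F H W) (ρ : Representation F H V) (f : W →ₗ[F] V) (w : W) :
    tr1 σ ρ f w = ∑ h, ρ h (f (σ h⁻¹ w)) := by
  unfold tr1
  rw [LinearMap.sum_apply]
  rfl

theorem tr1_zero (σ : Representation F H W) (ρ : Representation F H V) :
    tr1 σ ρ (0 : W →ₗ[F] V) = 0 := by
  ext w
  rw [tr1_apply]
  simp

theorem tr1_add (σ : Representation F H W) (ρ : Representation F H V) (f g : W →ₗ[F] V) :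
    tr1 σ ρ (f + g) = tr1 σ ρ f + tr1 σ ρ g := by
  ext w
  rw [LinearMap.add_apply, tr1_apply, tr1_apply, tr1_apply, ← Finset.sum_add_distrib]
  refine Finset.sum_congr rfl fun h _ => ?_
  rw [LinearMap.add_apply, map_add]

theorem comp_tr1 {σ : Representation F H W} {ρ : Representation F H V}
    {ρ' : Representation F H V'} {φ : V →ₗ[F] V'} (hφ : Eqv ρ ρ' φ) (f : W →ₗ[F] V) :
    φ ∘ₗ tr1 σ ρ f = tr1 σ ρ' (φ ∘ₗ f) := by
  ext w
  rw [LinearMap.comp_apply, tr1_apply, tr1_apply, map_sum]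
  refine Finset.sum_congr rfl fun h _ => ?_
  rw [hφ, LinearMap.comp_apply]

theorem eqv_tr1 (σ : Representation F H W) (ρ : Representation F H V) (f : W →ₗ[F] V) :
    Eqv σ ρ (tr1 σ ρ f) := by
  intro g w
  rw [tr1_apply, tr1_apply, map_sum]
  refine Fintype.sum_equiv (Equiv.mulLeft g⁻¹) _ _ fun h => ?_
  rw [Equiv.coe_mulLeft, ← Module.End.mul_apply (ρ g), ← map_mul, mul_inv_cancel_left,
    mul_inv_rev, inv_inv, map_mul, Module.End.mul_apply]

theorem prj_comp {σ : Representation F H W} {ρ : Representation F H V}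
    {ρ' : Representation F H V'} {φ : V →ₗ[F] V'} (hφ : Eqv ρ ρ' φ) {j : W →ₗ[F] V}
    (h : Prj σ ρ j) : Prj σ ρ' (φ ∘ₗ j) := by
  obtain ⟨f, rfl⟩ := h
  exact ⟨φ ∘ₗ f, comp_tr1 hφ f⟩

end Basic

section Emb

variable {F T V V' W : Type} [Field F] [Group T] [Fintype T] [AddCommGroup V] [Module F V]
  [AddCommGroup V'] [Module F V'] [AddCommGroup W] [Module F W]

theorem embX_of_equiv {P : Subgroup T} [Fintype (NP P)] {ρ : Representation F T V}
    {σ : Representation F (NP P) W} (e : V ≃ₗ[F] V') (h : EmbX P ρ σ) :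
    EmbX P (trans ρ e) σ := by
  obtain ⟨j, hj, hp⟩ := h
  refine ⟨e.toLinearMap ∘ₗ j, ?_, fun hpr => hp ?_⟩
  · intro n w
    rw [LinearMap.comp_apply, LinearMap.comp_apply, hj]
    exact trans_eqv ρ e (n : T) (j w)
  · have hs : Eqv (rN P (trans ρ e)) (rN P ρ) e.symm.toLinearMap := by
      intro n v
      show e.symm (trans ρ e (n : T) v) = ρ (n : T) (e.symm v)
      rw [trans_apply, LinearEquiv.symm_apply_apply]
    have h1 := prj_comp hs hpr
    have h2 : e.symm.toLinearMap ∘ₗ (e.toLinearMap ∘ₗ j) = j := by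
      ext w
      simp
    rwa [h2] at h1

end Emb

/-- The induction on the dimension. -/
theorem core {F T W : Type} [Field F] [Group T] [Fintype T] [AddCommGroup W] [Module F W]
    {P : Subgroup T} [Fintype (NP P)] {σ : Representation F (NP P) W} :
    ∀ (d : ℕ) (V : Type) [AddCommGroup V] [Module F V] [Module.Finite F V]
      (ρ : Representation F T V), Module.finrank F V = d → EmbX P ρ σ →
      ∃ (n : ℕ) (ρ' : Representation F T (Fin n → F)), ρ'.IsIrreducible ∧ EmbX P ρ' σ := by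
  intro d
  induction d using Nat.strong_induction_on with
  | _ d ih =>
    intro V _ _ _ ρ hd hE
    by_cases hirr : ρ.IsIrreducible
    · let b : V ≃ₗ[F] (Fin (Module.finrank F V) → F) := (Module.finBasis F V).equivFun
      exact ⟨_, trans ρ b, trans_irr b hirr, embX_of_equiv b hE⟩
    · obtain ⟨j, hj, hpj⟩ := hE
      obtain ⟨w₀, hnt⟩ : ∃ w₀, j w₀ ≠ 0 := by
        by_contra hcon
        push Not at hcon
        apply hpj
        refine ⟨0, ?_⟩
        rw [tr1_zero]
        exact LinearMap.ext hcon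
      have hex : ∃ a : Subrepresentation ρ, a ≠ ⊥ ∧ a ≠ ⊤ := by
        by_contra hcon
        push Not at hcon
        apply hirr
        refine { exists_pair_ne := ⟨⊥, ⊤, ?_⟩, eq_bot_or_eq_top := ?_ }
        · intro hbt
          apply hnt
          have hxt : j w₀ ∈ (⊤ : Subrepresentation ρ) := by
            change j w₀ ∈ (⊤ : Submodule F V); trivial
          rw [← hbt] at hxt
          change j w₀ ∈ (⊥ : Submodule F V) at hxt
          simpa using hxt
        · intro a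
          by_cases ha : a = ⊥
          · exact Or.inl ha
          · exact Or.inr (hcon a ha)
      obtain ⟨a, ha1, ha2⟩ := hex
      have hb1 : a.toSubmodule ≠ ⊥ := fun h => ha1 (Subrepresentation.toSubmodule_injective h)
      have hb2 : a.toSubmodule ≠ ⊤ := fun h => ha2 (Subrepresentation.toSubmodule_injective h)
      have hlt1 : Module.finrank F a.toSubmodule < d := by
        rw [← hd]
        exact Submodule.finrank_lt hb2
      have hlt2 : Module.finrank F (V ⧸ a.toSubmodule) < d := by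
        have h1 := Submodule.finrank_quotient_add_finrank a.toSubmodule
        have h2 : 0 < Module.finrank F a.toSubmodule := by
          rw [Module.finrank_pos_iff]
          exact Submodule.nontrivial_iff_ne_bot.2 hb1
        omega
      -- the quotient representation
      let ρq : Representation F T (V ⧸ a.toSubmodule) :=
        { toFun := fun g => a.toSubmodule.mapQ a.toSubmodule (ρ g)
            (fun v hv => a.apply_mem_toSubmodule g hv)
          map_one' := by
            ext v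
            simp
          map_mul' := by
            intro g h
            ext v
            simp }
      have hq : Eqv (rN P ρ) (rN P ρq) a.toSubmodule.mkQ := fun g v => rfl
      by_cases hcase : Prj σ (rN P ρq) (a.toSubmodule.mkQ ∘ₗ j)
      · obtain ⟨f, hf⟩ := hcase
        obtain ⟨f', hf'⟩ : ∃ f' : W →ₗ[F] V, a.toSubmodule.mkQ ∘ₗ f' = f :=
          Module.projective_lifting_property a.toSubmodule.mkQ f a.toSubmodule.mkQ_surjective
        have hmem : ∀ w, (j - tr1 σ (rN P ρ) f') w ∈ a.toSubmodule := by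
          intro w
          have h1 := comp_tr1 (σ := σ) hq f'
          rw [hf', ← hf] at h1
          have h2 := LinearMap.congr_fun h1 w
          rw [LinearMap.comp_apply, LinearMap.comp_apply] at h2
          rw [← Submodule.Quotient.mk_eq_zero, ← Submodule.mkQ_apply, LinearMap.sub_apply, map_sub,
            h2, sub_self]
        have hs : Eqv (rN P a.toRepresentation) (rN P ρ) a.toSubmodule.subtype := fun g v => rfl
        refine ih _ hlt1 a.toSubmodule a.toRepresentation rfl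
          ⟨(j - tr1 σ (rN P ρ) f').codRestrict a.toSubmodule hmem, ?_, ?_⟩
        · intro n w
          apply Subtype.ext
          show (j - tr1 σ (rN P ρ) f') (σ n w) = rN P ρ n ((j - tr1 σ (rN P ρ) f') w)
          rw [LinearMap.sub_apply, LinearMap.sub_apply, hj, eqv_tr1 σ (rN P ρ) f', map_sub]
        · intro hpr
          apply hpj
          have h1 := prj_comp hs hpr
          rw [LinearMap.subtype_comp_codRestrict] at h1
          obtain ⟨g, hg⟩ := h1
          refine ⟨g + f', ?_⟩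
          rw [tr1_add, ← hg]
          abel
      · refine ih _ hlt2 (V ⧸ a.toSubmodule) ρq rfl ⟨a.toSubmodule.mkQ ∘ₗ j, ?_, hcase⟩
        intro n w
        rw [LinearMap.comp_apply, LinearMap.comp_apply, hj, hq]

end KAHX

/-- KAHX. -/
theorem KAHX_thm : Stmt_KAHX := by
  intro F T W V _ _ _ _ _ _ _ _ P _ ρ σ hE
  exact KAHX.core _ V ρ rfl hE

end Pool.Agent.DPX


end
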