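import Mathlib
import Pool.Agent.DAM.C11
import Pool.Agent.DAM.C14
import Pool.Agent.DAM.C19
import Pool.Agent.DAM.C23

/-! Parts: DPV.VSX -/

section

set_option linter.unusedSectionVars false

/-!
# VSX (theorem V): the local sum for a group with Sylow subgroups of order `ℓ`
-/

namespace Pool.Agent.DPV

open Pool.Agent.DP Pool.Agent.Lib_helper13 Representation
open Pool.Agent.Lib_helper13.Dade (pCore DadeHolds dadeSum)

namespace VSX

open Pool.Agent.DP.CGT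

/-! ### Conjugation -/

theorem irrOn_conj {X : Type} [Group X] [Finite X] {S S' : Subgroup X} {f : X → ℂ}
    (hf : IrrOn S f) (b : X) (hS : ∀ x, x ∈ S' ↔ b⁻¹ * x * b ∈ S) :
    IrrOn S' (fun x => f (b⁻¹ * x * b)) := by
  classical
  have : Fintype S := Fintype.ofFinite _
  let e : S' ≃* S :=
    { toFun := fun x => ⟨b⁻¹ * x * b, (hS x).mp x.2⟩
      invFun := fun x => ⟨b * x * b⁻¹, (hS _).mpr (by
        have h : b⁻¹ * (b * (x : X) * b⁻¹) * b = x := by group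
        rw [h]
        exact x.2)⟩
      left_inv := fun x => Subtype.ext (by
        change b * (b⁻¹ * (x : X) * b) * b⁻¹ = x
        group)
      right_inv := fun x => Subtype.ext (by
        change b⁻¹ * (b * (x : X) * b⁻¹) * b = x
        group)
      map_mul' := fun x y => Subtype.ext (by
        change b⁻¹ * ((x : X) * y) * b = (b⁻¹ * x * b) * (b⁻¹ * y * b)
        group) }
  refine ⟨?_, ?_⟩
  · exact hf.1.comp_mulEquiv e
  · intro x hx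
    exact hf.2 _ fun h' => hx ((hS x).mpr h')

section Loc

variable {G B C : Type} [Group G] [Fintype G] [Group B] [Fintype B] [Group C] {ι : G →* B}
  {κ : B →* MulAut G} {ρ : B →* C}

/-- The conjugate of a chain. -/
noncomputable abbrev cc (g : G) (σ : Finset (Subgroup G)) : Finset (Subgroup G) :=
  mapCh (MulAut.conj g).toMonoidHom σ

/-- The conjugate of a function. -/
abbrev tw {X A : Type} [Group X] (g : X) (ψ : X → A) : X → A := fun x => ψ (g⁻¹ * x * g)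

theorem tw_tw {X A : Type} [Group X] (g : X) (ψ : X → A) : tw g⁻¹ (tw g ψ) = ψ := by
  funext x
  change ψ (g⁻¹ * (g⁻¹⁻¹ * x * g⁻¹) * g) = ψ x
  congr 1
  group

theorem tw_tw' {X A : Type} [Group X] (g : X) (ψ : X → A) : tw g (tw g⁻¹ ψ) = ψ := by
  funext x
  change ψ (g⁻¹⁻¹ * (g⁻¹ * x * g) * g⁻¹) = ψ x
  congr 1
  group

theorem cc_cc (g : G) (σ : Finset (Subgroup G)) : cc g⁻¹ (cc g σ) = σ := by
  rw [cc, cc, mapCh_conj_mul, inv_mul_cancel, mapCh_conj_one]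

theorem mem_stb_cc (g : G) (σ : Finset (Subgroup G)) (x : G) :
    x ∈ stb (cc g σ) ↔ g⁻¹ * x * g ∈ stb σ := by
  rw [cc, stb_mapCh_equiv, Subgroup.mem_map]
  constructor
  · rintro ⟨y, hy, rfl⟩
    have h : g⁻¹ * ((MulAut.conj g).toMonoidHom y) * g = y := by
      change g⁻¹ * (g * y * g⁻¹) * g = y
      group
    rw [h]
    exact hy
  · intro h
    refine ⟨_, h, ?_⟩
    change g * (g⁻¹ * x * g) * g⁻¹ = x
    group

theorem irrOn_tw {σ : Finset (Subgroup G)} {ψ : G → ℂ} (hψ : IrrOn (stb σ) ψ) (g : G) :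
    IrrOn (stb (cc g σ)) (tw g ψ) := irrOn_conj hψ g (mem_stb_cc g σ)

theorem kap (h : ClG ι κ ρ) (g : G) : κ (ι g) = MulAut.conj g := by
  apply MulEquiv.ext
  intro x
  rw [kappa_iota h, MulAut.conj_apply]

theorem stx_sub (h : ClG ι κ ρ) (g : G) {σ : Finset (Subgroup G)} {ψ : G → ℂ} {b : B}
    (hb : b ∈ Stx κ σ ψ) : ι g * b * (ι g)⁻¹ ∈ Stx κ (cc g σ) (tw g ψ) := by
  refine ⟨?_, ?_⟩
  · intro D' hD'
    obtain ⟨D, hD, rfl⟩ := mem_mapCh.mp hD'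
    have h1 : (κ (ι g * b * (ι g)⁻¹)).toMonoidHom.comp (MulAut.conj g).toMonoidHom =
        (MulAut.conj g).toMonoidHom.comp (κ b).toMonoidHom := by
      ext x
      change κ (ι g * b * (ι g)⁻¹) (MulAut.conj g x) = MulAut.conj g (κ b x)
      rw [← kap h, ← MulAut.mul_apply, ← map_mul, inv_mul_cancel_right, map_mul,
        MulAut.mul_apply]
    rw [Subgroup.map_map, h1, ← Subgroup.map_map, hb.1 D hD]
  · intro x
    change ψ (g⁻¹ * κ (ι g * b * (ι g)⁻¹) x * g) = ψ (g⁻¹ * x * g)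
    have h2 : g⁻¹ * κ (ι g * b * (ι g)⁻¹) x * g = κ b (g⁻¹ * x * g) := by
      rw [map_mul, map_mul, MulAut.mul_apply, MulAut.mul_apply, kappa_iota h]
      have h3 : κ (ι g)⁻¹ x = g⁻¹ * x * g := by
        rw [← map_inv ι, kappa_iota h, inv_inv]
      rw [h3]
      group
    rw [h2, hb.2]

theorem mem_stx (h : ClG ι κ ρ) (g : G) (σ : Finset (Subgroup G)) (ψ : G → ℂ) (b : B) :
    b ∈ Stx κ (cc g σ) (tw g ψ) ↔ (ι g)⁻¹ * b * ι g ∈ Stx κ σ ψ := by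
  constructor
  · intro hb
    have h1 := stx_sub h g⁻¹ hb
    rw [cc_cc, tw_tw, map_inv, inv_inv] at h1
    exact h1
  · intro hb
    have h1 := stx_sub h g hb
    have h2 : ι g * ((ι g)⁻¹ * b * ι g) * (ι g)⁻¹ = b := by group
    rwa [h2] at h1

theorem rho_iota (h : ClG ι κ ρ) (g : G) : ρ (ι g) = 1 := (h.ker (ι g)).mpr ⟨g, rfl⟩

theorem rho_conj (h : ClG ι κ ρ) (g : G) (b : B) : ρ ((ι g)⁻¹ * b * ι g) = ρ b := by
  rw [map_mul, map_mul, map_inv, rho_iota h, inv_one, one_mul, mul_one]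

theorem map_stx_le (h : ClG ι κ ρ) (g : G) (σ : Finset (Subgroup G)) (ψ : G → ℂ) :
    (Stx κ (cc g σ) (tw g ψ)).map ρ ≤ (Stx κ σ ψ).map ρ := by
  rintro c ⟨b, hb, rfl⟩
  exact ⟨_, (mem_stx h g σ ψ b).mp hb, rho_conj h g b⟩

theorem map_stx (h : ClG ι κ ρ) (g : G) (σ : Finset (Subgroup G)) (ψ : G → ℂ) :
    (Stx κ (cc g σ) (tw g ψ)).map ρ = (Stx κ σ ψ).map ρ := by
  apply le_antisymm (map_stx_le h g σ ψ)
  have h1 := map_stx_le h g⁻¹ (cc g σ) (tw g ψ)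
  rwa [cc_cc, tw_tw] at h1

theorem extL_tw (h : ClG ι κ ρ) (g : G) {σ : Finset (Subgroup G)} {ψ : G → ℂ}
    {L : Subgroup C} {f : B → ℂ} (hf : ExtL ι κ ρ σ ψ L f) :
    ExtL ι κ ρ (cc g σ) (tw g ψ) L (tw (ι g) f) := by
  refine ⟨irrOn_conj hf.1 (ι g) ?_, ?_⟩
  · intro x
    rw [Subgroup.mem_inf, Subgroup.mem_inf, mem_stx h, Subgroup.mem_comap, Subgroup.mem_comap,
      rho_conj h]
  · intro x
    change f ((ι g)⁻¹ * ι x * ι g) = ψ (g⁻¹ * x * g)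
    rw [← map_inv, ← map_mul, ← map_mul, hf.2]

theorem bet_sub (h : ClG ι κ ρ) (𝔐 : Ideal (integralClosure ℤ ℂ)) (g : G)
    (σ : Finset (Subgroup G)) (ψ : G → ℂ) (L : Subgroup C) :
    bet 𝔐 ι κ ρ σ ψ L ⊆ bet 𝔐 ι κ ρ (cc g σ) (tw g ψ) L := by
  rintro b ⟨f, hf, rfl⟩
  refine ⟨_, extL_tw h g hf, ?_⟩
  funext x
  have h1 : cgT 𝔐 ι.range (tw (ι g) f) x = cgT 𝔐 ι.range f ((ι g)⁻¹ * x * ι g) :=
    partC 𝔐 h f (ι g) x
  have h2 := partE (ι := ι) 𝔐 f g⁻¹ x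
  rw [map_inv, inv_inv] at h2
  rw [h1, h2]

theorem bet_eq (h : ClG ι κ ρ) (𝔐 : Ideal (integralClosure ℤ ℂ)) (g : G)
    (σ : Finset (Subgroup G)) (ψ : G → ℂ) (L : Subgroup C) :
    bet 𝔐 ι κ ρ (cc g σ) (tw g ψ) L = bet 𝔐 ι κ ρ σ ψ L := by
  apply Set.Subset.antisymm _ (bet_sub h 𝔐 g σ ψ L)
  have h1 := bet_sub h 𝔐 g⁻¹ (cc g σ) (tw g ψ) L
  rwa [cc_cc, tw_tw] at h1

theorem df_tw (ℓ : ℕ) (g : G) (σ : Finset (Subgroup G)) (ψ : G → ℂ) :
    df ℓ (stb (cc g σ)) (tw g ψ) = df ℓ (stb σ) ψ := by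
  have h1 : Nat.card (stb (cc g σ)) = Nat.card (stb σ) := by
    rw [cc, stb_mapCh_equiv, card_map_conj]
  have h2 : tw g ψ 1 = ψ 1 := by
    change ψ (g⁻¹ * 1 * g) = ψ 1
    rw [mul_one, inv_mul_cancel]
  rw [df, df, h1, h2]

/-- The condition on the characters. -/
def PP (𝔐 : Ideal (integralClosure ℤ ℂ)) (ℓ : ℕ) (ι : G →* B) (κ : B →* MulAut G) (ρ : B →* C)
    (L : Subgroup C) (β : Set (B → (integralClosure ℤ ℂ) ⧸ 𝔐)) (e : ℕ)
    (σ : Finset (Subgroup G)) (ψ : G → ℂ) : Prop :=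
  L ≤ (Stx κ σ ψ).map ρ ∧ df ℓ (stb σ) ψ = e ∧ bet 𝔐 ι κ ρ σ ψ L = β

/-- The number of characters. -/
noncomputable def NN (𝔐 : Ideal (integralClosure ℤ ℂ)) (ℓ : ℕ) (ι : G →* B) (κ : B →* MulAut G)
    (ρ : B →* C) (L : Subgroup C) (β : Set (B → (integralClosure ℤ ℂ) ⧸ 𝔐)) (e : ℕ)
    (σ : Finset (Subgroup G)) : ℕ :=
  Nat.card {ψ : G → ℂ // IrrOn (stb σ) ψ ∧ PP 𝔐 ℓ ι κ ρ L β e σ ψ}

theorem PP_tw (h : ClG ι κ ρ) (𝔐 : Ideal (integralClosure ℤ ℂ)) (ℓ : ℕ) (L : Subgroup C)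
    (β : Set (B → (integralClosure ℤ ℂ) ⧸ 𝔐)) (e : ℕ) (g : G) (σ : Finset (Subgroup G))
    (ψ : G → ℂ) :
    PP 𝔐 ℓ ι κ ρ L β e (cc g σ) (tw g ψ) ↔ PP 𝔐 ℓ ι κ ρ L β e σ ψ := by
  rw [PP, PP, map_stx h, df_tw, bet_eq h]

theorem NN_cc (h : ClG ι κ ρ) (𝔐 : Ideal (integralClosure ℤ ℂ)) (ℓ : ℕ) (L : Subgroup C)
    (β : Set (B → (integralClosure ℤ ℂ) ⧸ 𝔐)) (e : ℕ) (g : G) (σ : Finset (Subgroup G)) :
    NN 𝔐 ℓ ι κ ρ L β e (cc g σ) = NN 𝔐 ℓ ι κ ρ L β e σ := by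
  symm
  refine Nat.card_congr
    { toFun := fun ψ => ⟨tw g ψ.1, irrOn_tw ψ.2.1 g, (PP_tw h 𝔐 ℓ L β e g σ ψ.1).mpr ψ.2.2⟩
      invFun := fun ψ => ⟨tw g⁻¹ ψ.1, ?_, ?_⟩
      left_inv := fun ψ => Subtype.ext (tw_tw g ψ.1)
      right_inv := fun ψ => Subtype.ext (tw_tw' g ψ.1) }
  · have h1 := irrOn_tw ψ.2.1 g⁻¹
    rwa [cc_cc] at h1
  · rw [← PP_tw h 𝔐 ℓ L β e g σ, tw_tw']
    exact ψ.2.2

theorem inner_sum (S : Subgroup G) (c : ℚ) (P : (G → ℂ) → Prop) [DecidablePred P] :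
    ∑ ψ ∈ irrOn S, c * (if P ψ then 1 else 0) =
      c * (Nat.card {ψ : G → ℂ // IrrOn S ψ ∧ P ψ} : ℚ) := by
  classical
  rw [← Finset.mul_sum, Finset.sum_boole]
  congr 2
  symm
  apply Nat.subtype_card
  intro ψ
  rw [Finset.mem_filter, IRRPI.mem_irrOn]

end Loc

/-! ### The chains -/

section Chains

variable {G : Type} [Group G] [Fintype G] {ℓ : ℕ} [Fact ℓ.Prime]

theorem not_sq (P : Subgroup G) (hP : Nat.card P = ℓ) (hi : ¬ ℓ ∣ P.index) :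
    ¬ ℓ ^ 2 ∣ Nat.card G := by
  rintro ⟨m, hm⟩
  apply hi
  refine ⟨m, ?_⟩
  have h1 : ℓ * P.index = ℓ * (ℓ * m) := by
    rw [← mul_assoc, ← pow_two, ← hm, ← P.card_mul_index, hP]
  exact Nat.eq_of_mul_eq_mul_left (Fact.out : ℓ.Prime).pos h1

theorem chain_cases (h2 : ¬ ℓ ^ 2 ∣ Nat.card G) {σ : Finset (Subgroup G)}
    (hσ : IsCh ℓ (⊥ : Subgroup G) σ) : σ = ∅ ∨ ∃ D : Subgroup G, Nat.card D = ℓ ∧ σ = {D} := by
  have h3 : ∀ D ∈ σ, Nat.card D = ℓ := by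
    intro D hD
    obtain ⟨h4, h5⟩ := hσ.1 D hD
    exact Pool.Agent.DPB.BRD.card_of_pgroup h2 h4 h5.ne'
  rcases σ.eq_empty_or_nonempty with h | ⟨D, hD⟩
  · exact Or.inl h
  · refine Or.inr ⟨D, h3 D hD, ?_⟩
    ext E
    rw [Finset.mem_singleton]
    refine ⟨fun hE => ?_, fun hE => hE ▸ hD⟩
    rcases hσ.total hD hE with h4 | h4
    · exact (Subgroup.eq_of_le_of_card_ge h4 (by rw [h3 D hD, h3 E hE])).symm
    · exact Subgroup.eq_of_le_of_card_ge h4 (by rw [h3 D hD, h3 E hE])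

theorem isCh_empty : IsCh ℓ (⊥ : Subgroup G) ∅ := by
  refine ⟨fun D hD => absurd hD (Finset.notMem_empty D), ?_⟩
  rw [Finset.coe_empty]
  exact IsChain.empty

open Classical in
theorem ch_eq (h2 : ¬ ℓ ^ 2 ∣ Nat.card G) : Ch ℓ (⊥ : Subgroup G) =
    insert ∅ ((Finset.univ.filter (fun D : Subgroup G => Nat.card D = ℓ)).image
      (fun D => ({D} : Finset (Subgroup G)))) := by
  ext σ
  rw [mem_Ch, Finset.mem_insert, Finset.mem_image]
  constructor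
  · intro hσ
    rcases chain_cases h2 hσ with h | ⟨D, hD, h⟩
    · exact Or.inl h
    · exact Or.inr ⟨D, Finset.mem_filter.mpr ⟨Finset.mem_univ _, hD⟩, h.symm⟩
  · rintro (rfl | ⟨D, hD, rfl⟩)
    · exact isCh_empty
    · have hD' := (Finset.mem_filter.mp hD).2
      exact Pool.Agent.DPB.LOC.isCh_singleton (Pool.Agent.DPB.BRD.isPGroup_of_card hD')
        (Pool.Agent.DPB.BRD.ne_bot hD')

theorem card_syl (P : Subgroup G) (hP : Nat.card P = ℓ) (hi : ¬ ℓ ∣ P.index) :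
    Nat.card {D : Subgroup G // Nat.card D = ℓ} * Nat.card (stb ({P} : Finset (Subgroup G))) =
      Nat.card G := by
  have h2 := not_sq P hP hi
  let P0 : Sylow ℓ G := (Pool.Agent.DPB.BRD.isPGroup_of_card hP).toSylow hi
  have hS : ∀ Q : Sylow ℓ G, Nat.card (Q : Subgroup G) = ℓ := by
    intro Q
    obtain ⟨g, hg⟩ := MulAction.exists_smul_eq G P0 Q
    have h3 : P.map (MulAut.conj g).toMonoidHom = (Q : Subgroup G) :=
      congrArg (fun Q : Sylow ℓ G => (Q : Subgroup G)) hg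
    rw [← h3, card_map_conj, hP]
  have h4 : Nat.card {D : Subgroup G // Nat.card D = ℓ} = Nat.card (Sylow ℓ G) := by
    refine Nat.card_congr
      { toFun := fun D => (Pool.Agent.DPB.BRD.isPGroup_of_card D.2).toSylow
          (Pool.Agent.DPB.BRD.not_dvd_index h2 D.2)
        invFun := fun Q => ⟨(Q : Subgroup G), hS Q⟩
        left_inv := fun D => rfl
        right_inv := fun Q => rfl }
  rw [h4, Sylow.card_eq_index_normalizer P0, Pool.Agent.DPB.LOC.stb_singleton, mul_comm]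
  exact Subgroup.card_mul_index _

end Chains

end VSX

open _root_.Pool.Agent.DPV.VSX in
/-- VSX: the local sum for a group with Sylow subgroups of order `ℓ`. -/
theorem VSX_thm : Stmt_VSX := by
  classical
  intro G B C _ _ _ _ _ 𝔐 ℓ _ ι κ ρ hL P hP hi L β e
  have h2 := not_sq P hP hi
  have h3 : VS 𝔐 ℓ ι κ ρ L β e = ∑ σ ∈ Ch ℓ (⊥ : Subgroup G), (-1 : ℚ) ^ σ.card *
      ((Nat.card (stb σ) : ℚ) * (NN 𝔐 ℓ ι κ ρ L β e σ : ℚ)) := by
    rw [VS]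
    refine Finset.sum_congr rfl fun σ _ => ?_
    congr 1
    exact inner_sum (stb σ) _ (fun ψ => L ≤ (Stx κ σ ψ).map ρ ∧ df ℓ (stb σ) ψ = e ∧
      bet 𝔐 ι κ ρ σ ψ L = β)
  have hne : (∅ : Finset (Subgroup G)) ∉
      ((Finset.univ.filter (fun D : Subgroup G => Nat.card D = ℓ)).image
        (fun D => ({D} : Finset (Subgroup G)))) := by
    rw [Finset.mem_image]
    rintro ⟨D, -, hD⟩
    exact Finset.singleton_ne_empty D hD
  have h4 : ∀ D ∈ Finset.univ.filter (fun D : Subgroup G => Nat.card D = ℓ),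
      (-1 : ℚ) ^ ({D} : Finset (Subgroup G)).card *
        ((Nat.card (stb {D}) : ℚ) * (NN 𝔐 ℓ ι κ ρ L β e {D} : ℚ)) =
      - ((Nat.card (stb {P}) : ℚ) * (NN 𝔐 ℓ ι κ ρ L β e {P} : ℚ)) := by
    intro D hD
    obtain ⟨g, hg⟩ := Pool.Agent.DPB.BRD.exists_conj h2 hP (Finset.mem_filter.mp hD).2
    have h5 : ({D} : Finset (Subgroup G)) = cc g {P} := by
      ext E
      rw [Finset.mem_singleton, mem_mapCh]
      constructor
      · rintro rfl
        exact ⟨P, Finset.mem_singleton_self P, hg⟩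
      · rintro ⟨Q, hQ, rfl⟩
        rw [Finset.mem_singleton.mp hQ]
        exact hg
    have h6 : Nat.card (stb ({D} : Finset (Subgroup G))) =
        Nat.card (stb ({P} : Finset (Subgroup G))) := by
      rw [h5, cc, stb_mapCh_equiv, card_map_conj]
    have h7 : NN 𝔐 ℓ ι κ ρ L β e {D} = NN 𝔐 ℓ ι κ ρ L β e {P} := by
      rw [h5, NN_cc hL.cl]
    rw [h6, h7, Finset.card_singleton, pow_one, neg_one_mul]
  have h8 : ((Finset.univ.filter (fun D : Subgroup G => Nat.card D = ℓ)).card : ℚ) *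
      (Nat.card (stb ({P} : Finset (Subgroup G))) : ℚ) = Nat.card G := by
    have h9 := card_syl P hP hi
    have h10 : Nat.card {D : Subgroup G // Nat.card D = ℓ} =
        (Finset.univ.filter (fun D : Subgroup G => Nat.card D = ℓ)).card :=
      Nat.subtype_card _ (fun D => by simp)
    rw [h10] at h9
    exact_mod_cast h9
  have h11 : (Nat.card (stb (∅ : Finset (Subgroup G))) : ℚ) = Nat.card G := by
    rw [stb_empty, Subgroup.card_top]
  rw [h3, ch_eq h2, Finset.sum_insert hne, Finset.card_empty, pow_zero, one_mul, h11,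
    Finset.sum_image (fun D _ E _ h => Finset.singleton_injective h), Finset.sum_congr rfl h4,
    Finset.sum_const, nsmul_eq_mul, mul_sub, ← h8]
  change _ = (_ * (NN 𝔐 ℓ ι κ ρ L β e ∅ : ℚ)) - _ * (NN 𝔐 ℓ ι κ ρ L β e {P} : ℚ)
  ring

end Pool.Agent.DPV


end
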