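import Mathlib
import Pool.Agent.DAM.C01
import Pool.Agent.DAM.C08
import Pool.Agent.DAM.C11
import Pool.Agent.DAM.C12
import Pool.Agent.DAM.C13
import Pool.Agent.DAM.C14
import Pool.Agent.DAM.C19
import Pool.Agent.DAM.C23
import Pool.Agent.DAM.C25
import Pool.Agent.DAM.C30

/-! Parts: DP.BLKA, DPC.DGN, DPM.DZC, DP.BLKAR, DPW.VSXW -/

section

/-!
# Module BLKA: an integer valued class function separating the characters of defect zero
-/

namespace Pool.Agent.DP.BLKA

open Pool.Agent.Lib_helper13 Representation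

section Rho

variable {G : Type} [Group G] [Fintype G] (𝔐 : Ideal (integralClosure ℤ ℂ))

/-- The central character modulo `𝔐`. -/
noncomputable def rho {χ : G → ℂ} (hχ : IsIrr χ) :
    Subalgebra.center ℤ (MonoidAlgebra ℤ G) →+* (integralClosure ℤ ℂ) ⧸ 𝔐 where
  toFun z := red 𝔐 (om χ (z : MonoidAlgebra ℤ G))
  map_one' := by rw [OneMemClass.coe_one, om_one hχ, red_one]
  map_mul' z w := by
    rw [MulMemClass.coe_mul, om_mul hχ z.2 w.2,
      red_mul 𝔐 (isIntegral_om hχ z.2) (isIntegral_om hχ w.2)]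
  map_zero' := by rw [ZeroMemClass.coe_zero, om_zero, red_zero]
  map_add' z w := by
    rw [AddMemClass.coe_add, om_add, red_add 𝔐 (isIntegral_om hχ z.2) (isIntegral_om hχ w.2)]

theorem rho_apply {χ : G → ℂ} (hχ : IsIrr χ) (z : Subalgebra.center ℤ (MonoidAlgebra ℤ G)) :
    rho 𝔐 hχ z = red 𝔐 (om χ (z : MonoidAlgebra ℤ G)) := rfl

end Rho

section Classes

variable {G : Type} [Group G] [Fintype G]

open Classical in
/-- The indicator function of the conjugacy class of `x`. -/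
noncomputable def cls (x y : G) : ℤ := if ConjClasses.mk y = ConjClasses.mk x then 1 else 0

theorem cls_conj (x g y : G) : cls x (g * y * g⁻¹) = cls x y := by
  have h : ConjClasses.mk (g * y * g⁻¹) = ConjClasses.mk y := by
    rw [ConjClasses.mk_eq_mk_iff_isConj]
    exact isConj_iff.mpr ⟨g⁻¹, by group⟩
  rw [cls, cls, h]

/-- The size of the conjugacy class. -/
noncomputable def csize (x : G) : ℕ := (ConjClasses.mk x).carrier.ncard

theorem csize_dvd (x : G) : csize x ∣ Nat.card G := by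
  rw [csize, ← ConjAct.orbit_eq_carrier_conjClasses, ← MulAction.index_stabilizer]
  exact Subgroup.index_dvd_card _

omit [Fintype G] in
theorem csize_inv (x : G) : csize x⁻¹ = csize x := by
  have h : (ConjClasses.mk x⁻¹).carrier = (fun y : G => y⁻¹) '' (ConjClasses.mk x).carrier := by
    ext y
    simp only [ConjClasses.mem_carrier_iff_mk_eq, ConjClasses.mk_eq_mk_iff_isConj, Set.mem_image,
      isConj_iff]
    constructor
    · rintro ⟨c, hc⟩
      refine ⟨y⁻¹, ⟨c, ?_⟩, inv_inv y⟩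
      have h2 := congrArg (fun t : G => t⁻¹) hc
      simp only [mul_inv_rev, inv_inv] at h2
      rw [← h2]
      group
    · rintro ⟨z, ⟨c, hc⟩, rfl⟩
      refine ⟨c, ?_⟩
      rw [← hc]
      group
  rw [csize, csize, h, Set.ncard_image_of_injective _ inv_injective]

theorem om_cls {χ : G → ℂ} (hχ : IsIrr χ) (x : G) :
    om χ (elt (cls x)) = (csize x : ℂ) * χ x / χ 1 := by
  classical
  rw [om_elt]
  congr 1
  have h1 : ∀ y : G, ((cls x y : ℤ) : ℂ) * χ y =
      if y ∈ (ConjClasses.mk x).carrier then χ x else 0 := by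
    intro y
    rw [cls]
    by_cases hy : ConjClasses.mk y = ConjClasses.mk x
    · rw [if_pos hy, if_pos (ConjClasses.mem_carrier_iff_mk_eq.mpr hy),
        hχ.isConj (ConjClasses.mk_eq_mk_iff_isConj.mp hy)]
      simp
    · rw [if_neg hy, if_neg (fun h => hy (ConjClasses.mem_carrier_iff_mk_eq.mp h))]
      simp
  simp only [h1]
  rw [← Finset.sum_filter, Finset.sum_const, nsmul_eq_mul, csize]
  congr 2
  rw [← Set.ncard_coe_finset]
  congr 1
  ext y
  simp

theorem om_wt [DecidableEq (ConjClasses G)] (χ : G → ℂ) (x : G) :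
    om χ (elt (cls x)) = wt χ (fun y =>
      if ConjClasses.mk (id y) = ConjClasses.mk x then (1 : ℂ) else 0) := by
  rw [om_elt, wt]
  congr 2 with y
  rw [cls, id]
  by_cases h : ConjClasses.mk y = ConjClasses.mk x
  · rw [if_pos h, if_pos h, Int.cast_one]
  · rw [if_neg h, if_neg h, Int.cast_zero]

/-- With `c = |C_G(x)|` and `M = |G| / χ(1)`: `c ω(C) = M χ(x)`. -/
theorem mul_om_cls {χ : G → ℂ} (hχ : IsIrr χ) (x : G) {c n M : ℕ} (hn0 : 0 < n)
    (hn : χ 1 = n) (hc : Nat.card G = csize x * c) (hM : Nat.card G = n * M) :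
    (c : ℂ) * om χ (elt (cls x)) = M * χ x := by
  have hn' : (n : ℂ) ≠ 0 := by exact_mod_cast hn0.ne'
  have h1 : (csize x : ℂ) * c = n * M := by
    have : csize x * c = n * M := by rw [← hc, hM]
    exact_mod_cast this
  rw [om_cls hχ, hn]
  have h2 : (c : ℂ) * ((csize x : ℂ) * χ x / n) = ((csize x : ℂ) * c) * χ x / n := by ring
  rw [h2, h1]
  field_simp

variable (𝔐 : Ideal (integralClosure ℤ ℂ)) [h𝔐 : 𝔐.IsPrime] {ℓ : ℕ} [Fact ℓ.Prime]

omit h𝔐 [Fact ℓ.Prime] in
theorem red_mul_of_dvd (hℓ : (ℓ : integralClosure ℤ ℂ) ∈ 𝔐) {c : ℕ} (hc : ℓ ∣ c) {a : ℂ}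
    (ha : IsIntegral ℤ a) : red 𝔐 ((c : ℂ) * a) = 0 := by
  obtain ⟨d, rfl⟩ := hc
  have h1 : ((ℓ * d : ℕ) : ℂ) * a = (ℓ : ℂ) * ((d : ℂ) * a) := by
    push_cast
    ring
  rw [h1, red_natCast_mul 𝔐 ℓ ((Lib_helper13.isIntegral_natCast d).mul ha), nsmul_quot_eq_zero 𝔐 hℓ]

/-- A class on which the central character of a character of defect zero does not vanish. -/
theorem exists_class (hℓ : (ℓ : integralClosure ℤ ℂ) ∈ 𝔐) {θ : G → ℂ} (hθ : IsIrr θ)
    (h0 : HasDefect ℓ θ 0) :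
    ∃ x : G, red 𝔐 (om θ (elt (cls x))) ≠ 0 ∧ red 𝔐 (θ x⁻¹) ≠ 0 := by
  classical
  have hcl : ∀ g x : G, θ (g * x * g⁻¹)⁻¹ = θ x⁻¹ := by
    intro g x
    have : (g * x * g⁻¹)⁻¹ = g * x⁻¹ * g⁻¹ := by group
    rw [this, hθ.conj_eq]
  obtain ⟨F, hF⟩ := exists_lift_class (fun x : G => θ x⁻¹) hcl
  have h1 : wt θ (fun y => F (ConjClasses.mk (id y))) = Nat.card G / θ 1 := by
    rw [wt, ← hθ.sum_self]
    congr 1
    refine Finset.sum_congr rfl fun y _ => ?_
    rw [id, hF, mul_comm]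
  have hint : ∀ x : G, IsIntegral ℤ (wt θ (fun y => if ConjClasses.mk (id y) =
      ConjClasses.mk x then (1 : ℂ) else 0)) := by
    intro x
    have h2 := isIntegral_om hθ (elt_mem_center (cls x) (cls_conj x))
    rw [om_wt] at h2
    exact h2
  have h2 := red_codeg_ne_zero 𝔐 hℓ hθ h0
  rw [← h1, wt_comp_classes, red_sum] at h2
  · obtain ⟨L, _, hL⟩ := Finset.exists_ne_zero_of_sum_ne_zero h2
    obtain ⟨x, rfl⟩ := L.exists_rep
    change red 𝔐 (F (ConjClasses.mk x) * wt θ (fun y => if ConjClasses.mk (id y) =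
      ConjClasses.mk x then (1 : ℂ) else 0)) ≠ 0 at hL
    rw [hF, red_mul 𝔐 (isIntegral_char hθ _) (hint x)] at hL
    refine ⟨x, ?_, fun h => hL (by rw [h, zero_mul])⟩
    intro h
    apply hL
    rw [om_wt] at h
    rw [h, mul_zero]
  · intro L _
    obtain ⟨x, rfl⟩ := ConjClasses.mk_surjective L
    rw [hF]
    exact (isIntegral_char hθ _).mul (hint x)

/-- The class sum of a suitable class separates a character of defect zero from those of
positive defect. -/
theorem exists_sep (hℓ : (ℓ : integralClosure ℤ ℂ) ∈ 𝔐) {θ : G → ℂ} (hθ : IsIrr θ)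
    (h0 : HasDefect ℓ θ 0) :
    ∃ x : G, red 𝔐 (om θ (elt (cls x))) ≠ 0 ∧
      ∀ (χ : G → ℂ) (e : ℕ), IsIrr χ → HasDefect ℓ χ e → 0 < e →
        red 𝔐 (om χ (elt (cls x))) = 0 := by
  obtain ⟨x, h1, h2⟩ := exists_class 𝔐 hℓ hθ h0
  refine ⟨x, h1, ?_⟩
  obtain ⟨c, hc⟩ := csize_dvd x
  have hcℓ : ¬ ℓ ∣ c := by
    intro hdvd
    obtain ⟨n, M, hn0, hn, hM, hv⟩ := exists_codeg hθ h0
    have hc' : Nat.card G = csize x⁻¹ * c := by rw [csize_inv]; exact hc
    have h3 := mul_om_cls hθ x⁻¹ hn0 hn hc' hM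
    have hint := isIntegral_om hθ (elt_mem_center (cls x⁻¹) (cls_conj x⁻¹))
    have h4 := red_mul_of_dvd 𝔐 hℓ hdvd hint
    rw [h3, red_mul 𝔐 (Lib_helper13.isIntegral_natCast M) (isIntegral_char hθ _)] at h4
    have h5 := red_codeg_ne_zero 𝔐 hℓ hθ h0
    have h6 : (Nat.card G : ℂ) / θ 1 = M := by
      have hn' : (n : ℂ) ≠ 0 := by exact_mod_cast hn0.ne'
      rw [hn, hM]
      push_cast
      field_simp
    rw [h6] at h5
    rcases mul_eq_zero.mp h4 with h7 | h7
    · exact h5 h7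
    · exact h2 h7
  intro χ e hχ hd he
  obtain ⟨n, M, hn0, hn, hM, hv⟩ := exists_codeg hχ hd
  have h3 := mul_om_cls hχ x hn0 hn hc hM
  have hint := isIntegral_om hχ (elt_mem_center (cls x) (cls_conj x))
  have hMℓ : ℓ ∣ M := dvd_of_one_le_padicValNat (by omega)
  have h4 := red_mul_of_dvd 𝔐 hℓ hMℓ (isIntegral_char hχ x)
  rw [← h3, red_mul 𝔐 (Lib_helper13.isIntegral_natCast c) hint] at h4
  rcases mul_eq_zero.mp h4 with h5 | h5
  · exact absurd h5 (red_card_ne_zero 𝔐 hℓ hcℓ)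
  · exact h5

end Classes

end Pool.Agent.DP.BLKA

namespace Pool.Agent.DP

open Pool.Agent.Lib_helper13 Representation

theorem BLKA_thm : Stmt_BLKA := by
  intro G _ _ 𝔐 ℓ _ h𝔐 hℓ
  classical
  have hP : 𝔐.IsPrime := h𝔐.isPrime
  -- the ideal of the elements killed by all characters of positive defect
  let J : Ideal (Subalgebra.center ℤ (MonoidAlgebra ℤ G)) :=
    ⨅ χ : {χ : G → ℂ // IsIrr χ ∧ ∃ e, HasDefect ℓ χ e ∧ 0 < e},
      RingHom.ker (BLKA.rho 𝔐 χ.2.1)
  obtain ⟨z, hzJ, hz⟩ : ∃ z : Subalgebra.center ℤ (MonoidAlgebra ℤ G), z ∈ J ∧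
      ∀ (θ : G → ℂ) (hθ : IsIrr θ), HasDefect ℓ θ 0 → BLKA.rho 𝔐 hθ z ≠ 0 := by
    by_cases hne : ∃ θ : G → ℂ, IsIrr θ ∧ HasDefect ℓ θ 0
    · have hfin : Finite {χ : G → ℂ // IsIrr χ ∧ HasDefect ℓ χ 0} :=
        (finite_isIrr.subset fun χ (h : IsIrr χ ∧ HasDefect ℓ χ 0) => h.1).to_subtype
      have : Fintype {χ : G → ℂ // IsIrr χ ∧ HasDefect ℓ χ 0} := Fintype.ofFinite _
      obtain ⟨θ₀, hθ₀, hθ₀'⟩ := hne
      let a : {χ : G → ℂ // IsIrr χ ∧ HasDefect ℓ χ 0} := ⟨θ₀, hθ₀, hθ₀'⟩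
      have hav := Ideal.subset_union_prime (R := Subalgebra.center ℤ (MonoidAlgebra ℤ G))
        (s := (Finset.univ : Finset {χ : G → ℂ // IsIrr χ ∧ HasDefect ℓ χ 0}))
        (f := fun χ => RingHom.ker (BLKA.rho 𝔐 χ.2.1)) a a
        (fun i _ _ _ => RingHom.ker_isPrime _) (I := J)
      have hnot : ¬ ((J : Set (Subalgebra.center ℤ (MonoidAlgebra ℤ G))) ⊆
          ⋃ i ∈ ((Finset.univ : Finset {χ : G → ℂ // IsIrr χ ∧ HasDefect ℓ χ 0}) :
            Set {χ : G → ℂ // IsIrr χ ∧ HasDefect ℓ χ 0}),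
            (RingHom.ker (BLKA.rho 𝔐 i.2.1) : Set (Subalgebra.center ℤ (MonoidAlgebra ℤ G)))) := by
        intro h
        obtain ⟨θ, _, hθ⟩ := hav.mp h
        obtain ⟨x, hx, hx'⟩ := BLKA.exists_sep 𝔐 hℓ θ.2.1 θ.2.2
        let w : Subalgebra.center ℤ (MonoidAlgebra ℤ G) :=
          ⟨elt (BLKA.cls x), elt_mem_center _ (BLKA.cls_conj x)⟩
        have hw : w ∈ J := by
          rw [Ideal.mem_iInf]
          intro χ
          rw [RingHom.mem_ker, BLKA.rho_apply]
          obtain ⟨e, he, he0⟩ := χ.2.2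
          exact hx' χ.1 e χ.2.1 he he0
        have h2 := hθ hw
        rw [RingHom.mem_ker, BLKA.rho_apply] at h2
        exact hx h2
      rw [Set.not_subset] at hnot
      obtain ⟨z, hz, hz'⟩ := hnot
      refine ⟨z, hz, fun θ hθ h0 h => hz' ?_⟩
      rw [Set.mem_iUnion₂]
      exact ⟨⟨θ, hθ, h0⟩, Finset.mem_coe.mpr (Finset.mem_univ _), h⟩
    · exact ⟨0, J.zero_mem, fun θ hθ h0 => absurd ⟨θ, hθ, h0⟩ hne⟩
  refine ⟨fun g => (z : MonoidAlgebra ℤ G).coeff g, ?_, ?_, ?_⟩
  · intro g x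
    have h1 := Subalgebra.mem_center_iff.mp z.2 (MonoidAlgebra.single g 1)
    have h2 := congrArg (fun t : MonoidAlgebra ℤ G => t.coeff (g * x)) h1
    rw [MonoidAlgebra.coeff_single_mul_apply, MonoidAlgebra.coeff_mul_single_apply] at h2
    rw [inv_mul_cancel_left, one_mul, mul_one] at h2
    exact h2.symm
  · intro χ e hχ hd he
    have h1 := (Ideal.mem_iInf.mp hzJ) ⟨χ, hχ, e, hd, he⟩
    rw [RingHom.mem_ker, BLKA.rho_apply] at h1
    exact h1
  · intro χ hχ h0
    have h1 := hz χ hχ h0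
    rw [BLKA.rho_apply] at h1
    exact h1

end Pool.Agent.DP


end

section

/-!
# Module DGN: the character of defect zero of `G` which corresponds to a character of defect zero
of the fixed points of an `ℓ`-group of automorphisms
-/

set_option autoImplicit false
set_option linter.unusedSectionVars false
set_option linter.unusedVariables false

namespace Pool.Agent.DPC

open Pool.Agent.DP Pool.Agent.Lib_helper13 Representation
open Pool.Agent.Lib_helper13.Dade (pCore DadeHolds dadeSum)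

namespace DGN

section Sdp

variable {G B : Type} [Group G] [Group B] (κ : B →* MulAut G) (P : Subgroup B)

/-- The semidirect product. -/
abbrev XX : Type := G ⋊[κ.comp P.subtype] P

/-- The action of the semidirect product on `G`. -/
def act : XX κ P →* MulAut G where
  toFun x := MulAut.conj x.left * κ (x.right : B)
  map_one' := by
    ext g
    simp
  map_mul' x y := by
    ext g
    simp [MulAut.mul_apply, SemidirectProduct.mul_left, SemidirectProduct.mul_right, mul_assoc]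

theorem clg : ClG (SemidirectProduct.inl : G →* XX κ P) (act κ P)
    (SemidirectProduct.rightHom : XX κ P →* P) where
  inj := SemidirectProduct.inl_injective
  act := by
    intro y a
    apply SemidirectProduct.ext
    · simp [act, SemidirectProduct.mul_left, MulAut.mul_apply, SemidirectProduct.inv_left]
    · simp
  ker := by
    intro y
    constructor
    · intro h
      refine ⟨y.left, ?_⟩
      apply SemidirectProduct.ext
      · simp
      · exact h.symm
    · rintro ⟨a, rfl⟩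
      simp

/-- The normalizer of `P` in the semidirect product. -/
def NN : Subgroup (XX κ P) where
  carrier := {x | x.left ∈ FX κ P}
  one_mem' := by
    change (1 : XX κ P).left ∈ FX κ P
    rw [SemidirectProduct.one_left]
    exact one_mem _
  mul_mem' := by
    intro x y hx hy
    change (x * y).left ∈ FX κ P
    rw [SemidirectProduct.mul_left]
    have h1 : (κ.comp P.subtype) x.right y.left = y.left := hy x.right.1 x.right.2
    rw [h1]
    exact mul_mem hx hy
  inv_mem' := by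
    intro x hx
    change (x⁻¹).left ∈ FX κ P
    rw [SemidirectProduct.inv_left]
    have h1 : (κ.comp P.subtype) x.right⁻¹ x.left⁻¹ = x.left⁻¹ :=
      (inv_mem hx : x.left⁻¹ ∈ FX κ P) _ (x.right⁻¹).2
    rw [h1]
    exact inv_mem hx

theorem mem_NN {x : XX κ P} : x ∈ NN κ P ↔ x.left ∈ FX κ P := Iff.rfl

/-- The projection of the normalizer to the fixed points. -/
def pr : NN κ P →* FX κ P where
  toFun x := ⟨x.1.left, x.2⟩
  map_one' := by
    apply Subtype.ext
    rfl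
  map_mul' x y := by
    apply Subtype.ext
    change (x.1 * y.1).left = x.1.left * y.1.left
    rw [SemidirectProduct.mul_left]
    congr 1
    exact y.2 x.1.right.1 x.1.right.2

theorem pr_surj : Function.Surjective (pr κ P) := by
  intro a
  refine ⟨⟨⟨a.1, 1⟩, a.2⟩, ?_⟩
  apply Subtype.ext
  rfl

/-- The normalizer is the product of the fixed points and of `P`. -/
def eqv : (FX κ P) × P ≃ NN κ P where
  toFun x := ⟨⟨x.1.1, x.2⟩, x.1.2⟩
  invFun y := (⟨y.1.left, y.2⟩, y.1.right)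
  left_inv x := rfl
  right_inv y := rfl

end Sdp

section Defect

variable {G : Type} [Group G] [Fintype G]

theorem card_centralizer (y : G) : Nat.card G = BLKA.csize y *
    Nat.card (Subgroup.centralizer ({y} : Set G)) := by
  rw [BLKA.csize, ← ConjAct.orbit_eq_carrier_conjClasses, ← MulAction.index_stabilizer]
  have h1 : Nat.card (MulAction.stabilizer (ConjAct G) y) =
      Nat.card (Subgroup.centralizer ({y} : Set G)) := by
    refine Nat.card_congr ⟨fun g => ⟨ConjAct.ofConjAct g.1, ?_⟩, fun g =>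
      ⟨ConjAct.toConjAct g.1, ?_⟩, ?_, ?_⟩
    · have h := g.2
      rw [MulAction.mem_stabilizer_iff, ConjAct.smul_def] at h
      rw [Subgroup.mem_centralizer_singleton_iff]
      exact mul_inv_eq_iff_eq_mul.mp h
    · have h := g.2
      rw [Subgroup.mem_centralizer_singleton_iff] at h
      rw [MulAction.mem_stabilizer_iff, ConjAct.smul_def, ConjAct.ofConjAct_toConjAct]
      exact mul_inv_eq_iff_eq_mul.mpr h
    · intro g
      rfl
    · intro g
      rfl
  rw [← h1]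
  have h2 := Subgroup.index_mul_card (MulAction.stabilizer (ConjAct G) y)
  rw [h2]
  rfl

/-- If `ℓ` divides the order of the centralizer of `y` then a nontrivial `ℓ`-element commutes
with `y`. -/
theorem exists_elt {ℓ : ℕ} [Fact ℓ.Prime] (y : G)
    (h : ℓ ∣ Nat.card (Subgroup.centralizer ({y} : Set G))) :
    ∃ g : G, g * y = y * g ∧ g ^ ℓ ^ 1 = 1 ∧ g ≠ 1 := by
  obtain ⟨x, hx⟩ := exists_prime_orderOf_dvd_card' (G := Subgroup.centralizer ({y} : Set G)) ℓ h
  refine ⟨x.1, Subgroup.mem_centralizer_singleton_iff.mp x.2, ?_, ?_⟩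
  · rw [pow_one, ← hx]
    have := pow_orderOf_eq_one x
    exact congrArg Subtype.val this
  · intro h1
    have h2 : x = 1 := Subtype.ext h1
    rw [h2, orderOf_one] at hx
    exact (Fact.out : ℓ.Prime).one_lt.ne hx

/-- Conversely. -/
theorem elt_eq_one {ℓ : ℕ} [Fact ℓ.Prime] (y : G)
    (h : ¬ ℓ ∣ Nat.card (Subgroup.centralizer ({y} : Set G))) (g : G) (hg : g * y = y * g) (k : ℕ)
    (hk : g ^ ℓ ^ k = 1) : g = 1 := by
  by_contra hne
  have h1 : orderOf g ∣ ℓ ^ k := orderOf_dvd_of_pow_eq_one hk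
  obtain ⟨m, hm, hm'⟩ := (Nat.dvd_prime_pow (Fact.out : ℓ.Prime)).mp h1
  have hm0 : m ≠ 0 := by
    rintro rfl
    rw [pow_zero, orderOf_eq_one_iff] at hm'
    exact hne hm'
  have h2 : ℓ ∣ orderOf g := by
    rw [hm']
    exact dvd_pow_self _ hm0
  apply h
  refine h2.trans ?_
  have h3 : orderOf (⟨g, Subgroup.mem_centralizer_singleton_iff.mpr hg⟩ :
      Subgroup.centralizer ({y} : Set G)) = orderOf g := by
    rw [← Subgroup.orderOf_coe]
  rw [← h3]
  exact orderOf_dvd_natCard _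

theorem exists_constituent {X : Type} [Group X] [Fintype X] (j : G →* X) {χ : X → ℂ}
    (hχ : IsIrr χ) : ∃ ξ : G → ℂ, IsIrr ξ ∧ ip (resj j χ) ξ ≠ 0 := by
  by_contra hcon
  push Not at hcon
  have h1 := class_fn_expand (resj j χ) (resj_class hχ)
  have h2 := congrFun h1 1
  rw [Finset.sum_eq_zero] at h2
  · apply hχ.one_ne_zero
    rw [← h2, resj, map_one]
  · intro ξ hξ
    rw [hcon ξ (mem_irrF.mp hξ), zero_mul]

end Defect

end DGN

open _root_.Pool.Agent.DPC.DGN in
theorem DGN_thm (h1 : Stmt_SYL) : Stmt_DGN := by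
  intro G B _ _ _ _ 𝔐 ℓ _ h𝔐 hℓ κ P hP θ hθ hθ0
  classical
  have hprime : 𝔐.IsPrime := h𝔐.isPrime
  have : Finite (XX κ P) := Finite.of_equiv (G × P)
    (SemidirectProduct.equivProd (φ := κ.comp P.subtype)).symm
  have : Fintype (XX κ P) := Fintype.ofFinite _
  have : Fintype (NN κ P) := Fintype.ofFinite _
  -- the character of the normalizer
  have hψ : IsIrr (fun x : NN κ P => θ (pr κ P x)) := QB.infl (pr_surj κ P) hθ
  set ψ : NN κ P → ℂ := fun x : NN κ P => θ (pr κ P x) with hψdef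
  let Q : Subgroup (XX κ P) := (SemidirectProduct.inr : P →* XX κ P).range
  have hQ : IsPGroup ℓ Q := by
    intro x
    obtain ⟨p, hp⟩ := x.2
    obtain ⟨k, hk⟩ := hP p
    refine ⟨k, Subtype.ext ?_⟩
    rw [SubmonoidClass.coe_pow, ← hp, ← map_pow, hk, map_one]
    rfl
  have hQN : Q ≤ NN κ P := by
    rintro _ ⟨p, rfl⟩
    rw [mem_NN]
    exact one_mem _
  have hm : MultOn 𝔐 ψ ⊤ := by
    apply multOn_step 𝔐 hℓ hψ (le_refl _) le_top (multOn_self 𝔐 hψ) Q hQN hQ
    · rintro x hx _ ⟨p, rfl⟩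
      refine ⟨x.right * p * x.right⁻¹, ?_⟩
      apply SemidirectProduct.ext
      · have e1 : ((κ.comp P.subtype) (x.right * p)) ((κ.comp P.subtype) x.right⁻¹ x.left⁻¹) =
            x.left⁻¹ := by
          have e2 : ((κ.comp P.subtype) x.right⁻¹) x.left⁻¹ = x.left⁻¹ :=
            (inv_mem hx : x.left⁻¹ ∈ FX κ P) _ (x.right⁻¹).2
          rw [e2]
          exact (inv_mem hx : x.left⁻¹ ∈ FX κ P) _ (x.right * p).2
        rw [SemidirectProduct.mul_left, SemidirectProduct.mul_left, SemidirectProduct.inv_left,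
          SemidirectProduct.left_inr, SemidirectProduct.left_inr, map_one, mul_one,
          SemidirectProduct.mul_right, SemidirectProduct.right_inr, e1, mul_inv_cancel]
      · simp
    · intro y _ hy
      rw [mem_NN, mem_FX]
      intro b hb
      have h2 := hy (SemidirectProduct.inr ⟨b, hb⟩) ⟨_, rfl⟩
      have h3 := congrArg SemidirectProduct.left h2
      rw [SemidirectProduct.mul_left, SemidirectProduct.mul_left, SemidirectProduct.left_inr,
        SemidirectProduct.right_inr, map_one, mul_one, one_mul] at h3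
      exact h3
  obtain ⟨χ, hχ, hcen⟩ := exists_irr_of_mult 𝔐 hψ hm
  obtain ⟨ξ, hξ, hip⟩ := exists_constituent (SemidirectProduct.inl : G →* XX κ P) hχ
  have hS := (SUMM_thm G (XX κ P) P _ _ _ (clg κ P)).2.2.2 ξ χ
  -- the congruence
  have key : ∀ F : G → ℂ, (∀ g x, F (g * x * g⁻¹) = F x) →
        (∀ b ∈ P, ∀ x, F (κ b x) = F x) → (∀ x, IsIntegral ℤ (F x)) →
        red 𝔐 (wt θ (fun x => F x)) = red 𝔐 (wt ξ F) := by
    intro F hF1 hF2 hF3
    let f : XX κ P → ℂ := fun x => if x.right = 1 then F x.left else 0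
    have hf1 : ∀ g x, f (g * x * g⁻¹) = f x := by
      intro g x
      have e1 : (g * x * g⁻¹).right = g.right * x.right * g.right⁻¹ := by simp
      by_cases hx : x.right = 1
      · have e2 : (g * x * g⁻¹).right = 1 := by rw [e1, hx]; simp
        have e3 : x = SemidirectProduct.inl x.left := by
          apply SemidirectProduct.ext
          · simp
          · simpa using hx
        have e4 : (g * x * g⁻¹).left = act κ P g x.left := by
          have e5 := (clg κ P).act g x.left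
          rw [← e3] at e5
          rw [← e5]
          simp
        simp only [f]
        rw [if_pos e2, if_pos hx, e4]
        change F (g.left * κ (g.right : B) x.left * g.left⁻¹) = _
        rw [hF1, hF2 _ g.right.2]
      · have e2 : ¬ (g * x * g⁻¹).right = 1 := by
          rw [e1]
          intro h
          apply hx
          have : x.right = g.right⁻¹ * (g.right * x.right * g.right⁻¹) * g.right := by group
          rw [this, h]
          group
        simp only [f]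
        rw [if_neg e2, if_neg hx]
    have hf2 : ∀ x, IsIntegral ℤ (f x) := by
      intro x
      simp only [f]
      split_ifs
      · exact hF3 _
      · exact isIntegral_zero
    have e1 : wt χ f = wt ξ F := by
      rw [hS f hξ hχ hip hf1 ?_]
      · congr 1
        ext a
        simp [f]
      · intro y hy
        simp only [f]
        rw [if_neg]
        intro h
        exact hy (((clg κ P).ker y).mp h)
    have e2 : wt ψ (fun x => f x) = wt θ (fun x => F x) := by
      rw [wt, wt]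
      have e3 : ψ 1 = θ 1 := by
        rw [hψdef]
        simp only [map_one]
      rw [e3]
      congr 1
      rw [← (eqv κ P).sum_comp, Fintype.sum_prod_type]
      refine Finset.sum_congr rfl fun a _ => ?_
      rw [Finset.sum_eq_single (1 : P)]
      · have e4 : f ((eqv κ P (a, 1) : NN κ P) : XX κ P) = F a := by
          simp only [f, eqv, Equiv.coe_fn_mk]
          rw [if_pos trivial]
        rw [e4]
        rfl
      · intro p _ hp
        have e4 : f ((eqv κ P (a, p) : NN κ P) : XX κ P) = 0 := by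
          simp only [f, eqv, Equiv.coe_fn_mk]
          rw [if_neg hp]
        rw [e4, zero_mul]
      · intro h
        exact absurd (Finset.mem_univ _) h
    rw [← e2, ← e1]
    have e5 := red_wt_eq_pair 𝔐 (NN κ P).subtype hψ f hf1 hf2
    have e6 := red_wt_eq_pair 𝔐 (MonoidHom.id (XX κ P)) hχ f hf1 hf2
    rw [hcen, ← e5] at e6
    exact e6.symm
  refine ⟨ξ, hξ, ?_, key⟩
  -- the defect
  obtain ⟨e, he⟩ := hξ.exists_defect (ℓ := ℓ)
  rcases Nat.eq_zero_or_pos e with rfl | hepos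
  · exact he
  exfalso
  obtain ⟨y, hy1, hy2⟩ := BLKA.exists_class 𝔐 hℓ hθ hθ0
  have hc : ¬ ℓ ∣ Nat.card (Subgroup.centralizer ({y} : Set (FX κ P))) := by
    intro hdvd
    obtain ⟨n, M, hn0, hn, hM, hv⟩ := exists_codeg hθ hθ0
    have hcs : BLKA.csize y⁻¹ = BLKA.csize y := BLKA.csize_inv y
    have hc' : Nat.card (FX κ P) = BLKA.csize y⁻¹ *
        Nat.card (Subgroup.centralizer ({y} : Set (FX κ P))) := by
      rw [hcs]
      exact card_centralizer y
    have h3 := BLKA.mul_om_cls hθ y⁻¹ hn0 hn hc' hM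
    have hint := isIntegral_om hθ (elt_mem_center (BLKA.cls y⁻¹) (BLKA.cls_conj y⁻¹))
    have h4 := BLKA.red_mul_of_dvd 𝔐 hℓ hdvd hint
    rw [h3, red_mul 𝔐 (Lib_helper13.isIntegral_natCast M) (isIntegral_char hθ _)] at h4
    have h5 := red_codeg_ne_zero 𝔐 hℓ hθ hθ0
    have h6 : (Nat.card (FX κ P) : ℂ) / θ 1 = M := by
      have hn' : (n : ℂ) ≠ 0 := by exact_mod_cast hn0.ne'
      rw [hn, hM]
      push_cast
      field_simp
    rw [h6] at h5
    rcases mul_eq_zero.mp h4 with h7 | h7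
    · exact h5 h7
    · exact hy2 h7
  obtain ⟨hs1, hs2⟩ := h1 G B ℓ κ P hP y.1 y.2 (by
    intro g hg hgy k hk
    have h2 := elt_eq_one y hc ⟨g, hg⟩ (Subtype.ext hgy) k (Subtype.ext hk)
    exact congrArg Subtype.val h2)
  have hc2 : ¬ ℓ ∣ Nat.card (Subgroup.centralizer ({(y : G)} : Set G)) := by
    intro hdvd
    obtain ⟨g, hg1, hg2, hg3⟩ := exists_elt (y : G) hdvd
    exact hg3 (hs1 g hg1 1 hg2)
  -- the class function
  have hcls : ∀ x : G, BLKA.cls (y : G) x = 1 ∨ BLKA.cls (y : G) x = 0 := by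
    intro x
    rw [BLKA.cls]
    split_ifs
    · left; rfl
    · right; rfl
  have hconj : ∀ x : G, BLKA.cls (y : G) x = if IsConj (y : G) x then 1 else 0 := by
    intro x
    rw [BLKA.cls]
    congr 1
    rw [ConjClasses.mk_eq_mk_iff_isConj]
    exact propext ⟨fun h => h.symm, fun h => h.symm⟩
  have hk := key (fun x => ((BLKA.cls (y : G) x : ℤ) : ℂ)) ?_ ?_ ?_
  rotate_left
  · intro g x
    rw [BLKA.cls_conj]
  · intro b hb x
    congr 1
    rw [hconj, hconj]
    congr 1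
    apply propext
    constructor
    · intro h
      obtain ⟨c, hc⟩ := isConj_iff.mp h
      refine isConj_iff.mpr ⟨κ b⁻¹ c, ?_⟩
      have e1 : κ b⁻¹ (κ b x) = x := by
        rw [← MulAut.mul_apply, ← map_mul, inv_mul_cancel, map_one, MulAut.one_apply]
      have e2 : κ b⁻¹ (y : G) = y := y.2 _ (inv_mem hb)
      have e3 := congrArg (κ b⁻¹) hc
      rw [e1, map_mul (κ b⁻¹), map_mul (κ b⁻¹), map_inv (κ b⁻¹) c, e2] at e3
      exact e3
    · intro h
      obtain ⟨c, hc⟩ := isConj_iff.mp h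
      refine isConj_iff.mpr ⟨κ b c, ?_⟩
      have e2 : κ b (y : G) = y := y.2 _ hb
      have e3 := congrArg (κ b) hc
      rw [map_mul (κ b), map_mul (κ b), map_inv (κ b) c, e2] at e3
      exact e3
  · intro x
    exact isIntegral_algebraMap (R := ℤ) (A := ℂ) (x := BLKA.cls (y : G) x)
  have e1 : wt θ (fun x => ((BLKA.cls (y : G) (x : G) : ℤ) : ℂ)) = om θ (elt (BLKA.cls y)) := by
    rw [om_elt, wt]
    congr 1
    refine Finset.sum_congr rfl fun x _ => ?_
    congr 2
    rw [hconj]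
    by_cases hx : IsConj y x
    · have h2 : IsConj (y : G) (x : G) := by
        obtain ⟨c, hc⟩ := isConj_iff.mp hx
        exact isConj_iff.mpr ⟨c, by rw [← hc]; rfl⟩
      rw [if_pos h2, BLKA.cls, if_pos (ConjClasses.mk_eq_mk_iff_isConj.mpr hx.symm)]
    · have h2 : ¬ IsConj (y : G) (x : G) := by
        intro h
        apply hx
        obtain ⟨c, hc⟩ := isConj_iff.mp h
        obtain ⟨h, hh, hh2⟩ := hs2 c (by rw [hc]; exact x.2)
        refine isConj_iff.mpr ⟨⟨h, hh⟩, Subtype.ext ?_⟩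
        change h * y * h⁻¹ = x
        rw [← hh2, hc]
      rw [if_neg h2, BLKA.cls, if_neg (fun h => hx (ConjClasses.mk_eq_mk_iff_isConj.mp h).symm)]
  have e2 : wt ξ (fun x => ((BLKA.cls (y : G) x : ℤ) : ℂ)) = om ξ (elt (BLKA.cls (y : G))) := by
    rw [om_elt, wt]
  rw [e1, e2] at hk
  rw [hk] at hy1
  obtain ⟨n, M, hn0, hn, hM, hv⟩ := exists_codeg hξ he
  have h3 := BLKA.mul_om_cls hξ (y : G) hn0 hn (card_centralizer (y : G)) hM
  have hint := isIntegral_om hξ (elt_mem_center (BLKA.cls (y : G)) (BLKA.cls_conj (y : G)))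
  have hMℓ : ℓ ∣ M := dvd_of_one_le_padicValNat (by omega)
  have h4 := BLKA.red_mul_of_dvd 𝔐 hℓ hMℓ (isIntegral_char hξ (y : G))
  rw [← h3, red_mul 𝔐 (Lib_helper13.isIntegral_natCast _) hint] at h4
  rcases mul_eq_zero.mp h4 with h5 | h5
  · exact absurd h5 (red_card_ne_zero 𝔐 hℓ hc2)
  · exact hy1 h5

end Pool.Agent.DPC


end

section

/-!
# Module DZC: the chain sums of a group for which Dade's conjecture holds
-/

set_option autoImplicit false

namespace Pool.Agent.DPM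

open Pool.Agent.DP Pool.Agent.DPC Pool.Agent.Lib_helper13 Representation
open Pool.Agent.Lib_helper13.Dade (pCore DadeHolds dadeSum)

namespace DZC

section Basic

variable {G : Type} [Group G] [Fintype G]

theorem wt_conjInd (χ : G → ℂ) (g : G) :
    wt χ (fun y => conjInd y g) = om χ (elt (BLKA.cls g)) := by
  classical
  rw [om_elt, wt]
  congr 1
  refine Finset.sum_congr rfl fun y _ => ?_
  rw [BLKA.cls, conjInd]
  by_cases h : IsConj y g
  · rw [if_pos h, if_pos (ConjClasses.mk_eq_mk_iff_isConj.mpr h)]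
    simp
  · rw [if_neg h, if_neg (fun h' => h (ConjClasses.mk_eq_mk_iff_isConj.mp h'))]
    simp

theorem cen_id (𝔐 : Ideal (integralClosure ℤ ℂ)) (χ : G → ℂ) (g : G) :
    cen 𝔐 (MonoidHom.id G) χ g = red 𝔐 (om χ (elt (BLKA.cls g))) :=
  congrArg (red 𝔐) (wt_conjInd χ g)

theorem sum_surj {X Y : Type} [Group X] [Fintype X] [Group Y] [Fintype Y] (p : X →* Y)
    (hp : Function.Surjective p) (f : Y → ℂ) :
    ∑ x, f (p x) = (Nat.card p.ker : ℂ) * ∑ y, f y := by
  classical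
  rw [← Finset.sum_fiberwise_of_maps_to (s := Finset.univ) (t := Finset.univ) (g := p)
    (fun _ _ => Finset.mem_univ _), Finset.mul_sum]
  refine Finset.sum_congr rfl fun y _ => ?_
  have h1 : ∀ x ∈ Finset.univ.filter (fun x => p x = y), f (p x) = f y := by
    intro x hx
    rw [(Finset.mem_filter.mp hx).2]
  rw [Finset.sum_congr rfl h1, Finset.sum_const, nsmul_eq_mul]
  congr 2
  obtain ⟨x0, hx0⟩ := hp y
  rw [← Fintype.card_subtype, ← Nat.card_eq_fintype_card]
  refine Nat.card_congr ⟨fun x => ⟨x0⁻¹ * x.1, ?_⟩, fun x => ⟨x0 * x.1, ?_⟩, ?_, ?_⟩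
  · rw [MonoidHom.mem_ker, map_mul, map_inv, x.2, hx0, inv_mul_cancel]
  · rw [map_mul, MonoidHom.mem_ker.mp x.2, hx0, mul_one]
  · intro x
    apply Subtype.ext
    simp
  · intro x
    apply Subtype.ext
    simp

theorem card_quot (Z : Subgroup G) : Nat.card G = Nat.card Z * Nat.card (G ⧸ Z) := by
  rw [mul_comm]
  exact Subgroup.card_eq_card_quotient_mul_card_subgroup Z

/-- A character that is trivial on a central subgroup is inflated from the quotient. -/
theorem deflate (Z : Subgroup G) [Z.Normal] (hZ : Z ≤ Subgroup.center G) [Fintype (G ⧸ Z)]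
    {χ : G → ℂ} (hχ : IsIrr χ) (h : ∀ z ∈ Z, ∀ x, χ (z * x) = χ x) :
    ∃ χb : G ⧸ Z → ℂ, IsIrr χb ∧ ∀ x : G, χb (x : G ⧸ Z) = χ x := by
  have hirr := hχ
  obtain ⟨n, ρ, hρ, rfl⟩ := hχ
  have hn := hirr.one_ne_zero
  have htriv : ∀ z ∈ Z, ρ z = 1 := by
    intro z hz
    obtain ⟨c, hc⟩ := exists_scalar ρ hρ (ρ z) (by
      intro g x
      have h1 : z * g = g * z := (Subgroup.mem_center_iff.mp (hZ hz) g).symm
      have h2 := congrArg (fun t => ρ t x) h1
      simpa [map_mul] using h2)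
    have h1 := h z hz 1
    have h2 : ρ.character z = c * ρ.character 1 := by
      change LinearMap.trace ℂ _ (ρ z) = c * LinearMap.trace ℂ _ (ρ 1)
      rw [hc, map_one, map_smul]
      rfl
    rw [mul_one, h2] at h1
    have h3 : c = 1 := by
      have h4 : (c - 1) * ρ.character 1 = 0 := by
        rw [sub_mul, h1, one_mul, sub_self]
      rcases mul_eq_zero.mp h4 with h5 | h5
      · exact sub_eq_zero.mp h5
      · exact absurd h5 hn
    rw [hc, h3, one_smul]
    rfl
  let τ : Representation ℂ (G ⧸ Z) (Fin n → ℂ) := QuotientGroup.lift Z ρ htriv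
  have hτ : ∀ x : G, τ.character (x : G ⧸ Z) = ρ.character x := fun x => rfl
  refine ⟨τ.character, ?_, hτ⟩
  have hchr : IsChr τ.character := ⟨n, τ, rfl⟩
  refine hchr.isIrr ?_
  have h1 := sum_surj (QuotientGroup.mk' Z) (QuotientGroup.mk'_surjective Z)
    (fun y => τ.character y * τ.character y⁻¹)
  have h2 : ∀ x : G, (fun y => τ.character y * τ.character y⁻¹) (QuotientGroup.mk' Z x) =
      ρ.character x * ρ.character x⁻¹ := fun x => rfl
  rw [Finset.sum_congr rfl fun x _ => h2 x, hirr.sum_self, QuotientGroup.ker_mk',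
    card_quot Z] at h1
  push_cast at h1
  have h3 : (Nat.card Z : ℂ) ≠ 0 := natCard_ne_zero
  exact (mul_left_cancel₀ h3 h1).symm

/-- Defect zero in the quotient. -/
theorem defect_deflate {ℓ : ℕ} [hp : Fact ℓ.Prime] (Z : Subgroup G) [Z.Normal]
    (hZp : IsPGroup ℓ Z) [Fintype (G ⧸ Z)] {χ : G → ℂ} (hχ : IsIrr χ)
    (hd : ∀ e, HasDefect ℓ χ e → ℓ ^ e ≤ Nat.card Z) {χb : G ⧸ Z → ℂ} (hb : IsIrr χb)
    (h1 : χb 1 = χ 1) : HasDefect ℓ χb 0 := by
  obtain ⟨e, he⟩ := hχ.exists_defect (ℓ := ℓ)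
  have hle := hd e he
  obtain ⟨n, hn, hv⟩ := he
  obtain ⟨z, hz⟩ := hZp.exists_card_eq
  rw [hz] at hle
  have hez : e ≤ z := (Nat.pow_le_pow_iff_right hp.out.one_lt).mp hle
  have hcard := card_quot Z
  have hX0 : Nat.card (G ⧸ Z) ≠ 0 := Nat.card_pos.ne'
  have hZ0 : Nat.card Z ≠ 0 := Nat.card_pos.ne'
  have hvG : padicValNat ℓ (Nat.card G) = z + padicValNat ℓ (Nat.card (G ⧸ Z)) := by
    rw [hcard, padicValNat.mul hZ0 hX0, hz, padicValNat.prime_pow]
  have hnb : χb 1 = n := by rw [h1, hn]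
  obtain ⟨M, hM⟩ := hb.degree_dvd hnb
  have hn0 : n ≠ 0 := by
    rintro rfl
    exact hX0 (by rw [hM, zero_mul])
  have hM0 : M ≠ 0 := by
    rintro rfl
    exact hX0 (by rw [hM, mul_zero])
  have hvX : padicValNat ℓ (Nat.card (G ⧸ Z)) = padicValNat ℓ n + padicValNat ℓ M := by
    rw [hM, padicValNat.mul hn0 hM0]
  exact ⟨n, hnb, by omega⟩

end Basic

section Classes

variable {G : Type} [Group G] [Fintype G]

/-- A class of a group on which the central character of a character of defect zero does not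
vanish, with centralizer of order prime to `ℓ`. -/
theorem exists_y (𝔐 : Ideal (integralClosure ℤ ℂ)) [h𝔐 : 𝔐.IsPrime] {ℓ : ℕ} [Fact ℓ.Prime]
    (hℓ : (ℓ : integralClosure ℤ ℂ) ∈ 𝔐) {θ : G → ℂ} (hθ : IsIrr θ) (h0 : HasDefect ℓ θ 0) :
    ∃ x : G, red 𝔐 (om θ (elt (BLKA.cls x))) ≠ 0 ∧
      ¬ ℓ ∣ Nat.card (Subgroup.centralizer ({x} : Set G)) := by
  obtain ⟨x, h1, h2⟩ := BLKA.exists_class 𝔐 hℓ hθ h0
  refine ⟨x, h1, ?_⟩
  have hc := DGN.card_centralizer x
  intro hdvd
  obtain ⟨n, M, hn0, hn, hM, hv⟩ := exists_codeg hθ h0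
  have hc' : Nat.card G = BLKA.csize x⁻¹ * Nat.card (Subgroup.centralizer ({x} : Set G)) := by
    rw [BLKA.csize_inv]
    exact hc
  have h3 := BLKA.mul_om_cls hθ x⁻¹ hn0 hn hc' hM
  have hint := isIntegral_om hθ (elt_mem_center (BLKA.cls x⁻¹) (BLKA.cls_conj x⁻¹))
  have h4 := BLKA.red_mul_of_dvd 𝔐 hℓ hdvd hint
  rw [h3, red_mul 𝔐 (Lib_helper13.isIntegral_natCast M) (isIntegral_char hθ _)] at h4
  have h5 := red_codeg_ne_zero 𝔐 hℓ hθ h0
  have h6 : (Nat.card G : ℂ) / θ 1 = M := by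
    have hn' : (n : ℂ) ≠ 0 := by exact_mod_cast hn0.ne'
    rw [hn, hM]
    push_cast
    field_simp
  rw [h6] at h5
  rcases mul_eq_zero.mp h4 with h7 | h7
  · exact h5 h7
  · exact h2 h7

/-- An element of the quotient by a central `ℓ`-subgroup, of order prime to `ℓ`, lifts to an
element of order prime to `ℓ`. -/
theorem exists_lift {ℓ : ℕ} [hp : Fact ℓ.Prime] (Z : Subgroup G) [Z.Normal]
    (hZp : IsPGroup ℓ Z) (x : G ⧸ Z) (hx : ¬ ℓ ∣ orderOf x) :
    ∃ y : G, (y : G ⧸ Z) = x ∧ y ^ orderOf x = 1 := by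
  obtain ⟨y0, hy0⟩ := QuotientGroup.mk_surjective x
  obtain ⟨z, hz⟩ := hZp.exists_card_eq
  have hcop : Nat.Coprime (orderOf x) (ℓ ^ z) :=
    (Nat.Coprime.pow_right z ((Nat.Prime.coprime_iff_not_dvd hp.out).mpr hx).symm)
  obtain ⟨k, hk1, hk2⟩ := Nat.chineseRemainder hcop 1 0
  refine ⟨y0 ^ k, ?_, ?_⟩
  · rw [QuotientGroup.mk_pow, hy0]
    have h1 : x ^ k = x ^ 1 := (pow_eq_pow_iff_modEq).mpr hk1
    rw [h1, pow_one]
  · have h1 : y0 ^ orderOf x ∈ Z := by
      rw [← QuotientGroup.eq_one_iff, QuotientGroup.mk_pow, hy0, pow_orderOf_eq_one]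
    obtain ⟨j, hj⟩ := (Nat.modEq_zero_iff_dvd).mp hk2
    have h2 : (⟨y0 ^ orderOf x, h1⟩ : Z) ^ Nat.card Z = 1 := pow_card_eq_one'
    rw [hz] at h2
    have h3 : (y0 ^ orderOf x) ^ (ℓ ^ z) = 1 := congrArg Subtype.val h2
    rw [← pow_mul, mul_comm, pow_mul, hj, pow_mul, h3, one_pow]

/-- Powers of elements of a central `ℓ`-subgroup. -/
theorem eq_one_of_pow {ℓ : ℕ} [hp : Fact ℓ.Prime] (Z : Subgroup G)
    (hZc : Z ≤ Subgroup.center G) (hZp : IsPGroup ℓ Z) {m : ℕ} (hm : ¬ ℓ ∣ m) {z s : G}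
    (hz : z ∈ Z) (hs : s ^ m = 1) (hzs : (z * s) ^ m = 1) : z = 1 := by
  have hcomm : Commute z s := (Subgroup.mem_center_iff.mp (hZc hz) s).symm
  rw [hcomm.mul_pow, hs, mul_one] at hzs
  obtain ⟨k, hk⟩ := hZp ⟨z, hz⟩
  have hk' : z ^ (ℓ ^ k) = 1 := congrArg Subtype.val hk
  have h1 : orderOf z ∣ m := orderOf_dvd_of_pow_eq_one hzs
  have h2 : orderOf z ∣ ℓ ^ k := orderOf_dvd_of_pow_eq_one hk'
  have h3 : Nat.Coprime m (ℓ ^ k) :=
    Nat.Coprime.pow_right k ((Nat.Prime.coprime_iff_not_dvd hp.out).mpr hm).symm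
  have h4 : orderOf z ∣ 1 := by
    have := Nat.dvd_gcd h1 h2
    rwa [h3] at this
  rw [← orderOf_eq_one_iff]
  exact Nat.dvd_one.mp h4

/-- The class of `y` is mapped bijectively to the class of its image. -/
theorem csize_lift {ℓ : ℕ} [Fact ℓ.Prime] (Z : Subgroup G) [Z.Normal]
    (hZc : Z ≤ Subgroup.center G) (hZp : IsPGroup ℓ Z) [Fintype (G ⧸ Z)] {m : ℕ}
    (hm : ¬ ℓ ∣ m) {y : G} (hy : y ^ m = 1) :
    BLKA.csize y = BLKA.csize (y : G ⧸ Z) := by
  have himg : (ConjClasses.mk (y : G ⧸ Z)).carrier =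
      (fun g : G => (g : G ⧸ Z)) '' (ConjClasses.mk y).carrier := by
    ext w
    simp only [ConjClasses.mem_carrier_iff_mk_eq, ConjClasses.mk_eq_mk_iff_isConj, Set.mem_image]
    constructor
    · intro h
      obtain ⟨c, hc⟩ := isConj_iff.mp h.symm
      obtain ⟨c0, rfl⟩ := QuotientGroup.mk_surjective c
      refine ⟨c0 * y * c0⁻¹, ?_, ?_⟩
      · exact (isConj_iff.mpr ⟨c0, rfl⟩).symm
      · rw [← hc]
        rfl
    · rintro ⟨g, hg, rfl⟩
      obtain ⟨c, hc⟩ := isConj_iff.mp hg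
      refine isConj_iff.mpr ⟨(c : G ⧸ Z), ?_⟩
      rw [← hc]
      rfl
  rw [BLKA.csize, BLKA.csize, himg, Set.ncard_image_of_injOn]
  intro a ha b hb hab
  rw [ConjClasses.mem_carrier_iff_mk_eq, ConjClasses.mk_eq_mk_iff_isConj] at ha hb
  have hpa : ∀ g : G, IsConj g y → g ^ m = 1 := by
    intro g hg
    obtain ⟨c, hc⟩ := isConj_iff.mp hg.symm
    rw [← hc, conj_pow, hy, mul_one, mul_inv_cancel]
  have h1 : a * b⁻¹ ∈ Z := by
    rw [← QuotientGroup.eq_one_iff, QuotientGroup.mk_mul, QuotientGroup.mk_inv]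
    have : (a : G ⧸ Z) = (b : G ⧸ Z) := hab
    rw [this, mul_inv_cancel]
  have h2 := eq_one_of_pow Z hZc hZp hm h1 (hpa b hb) (by
    have : a * b⁻¹ * b = a := by group
    rw [this]
    exact hpa a ha)
  exact mul_inv_eq_one.mp h2

/-- The centralizer in a subgroup. -/
theorem card_cent {ℓ : ℕ} [hp : Fact ℓ.Prime] (Z : Subgroup G) [Z.Normal]
    (hZc : Z ≤ Subgroup.center G) (S : Subgroup G) (hZS : Z ≤ S) (s : S)
    (hs : ¬ ℓ ∣ Nat.card (Subgroup.centralizer ({((s : G) : G ⧸ Z)} : Set (G ⧸ Z)))) :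
    ∃ k : ℕ, ¬ ℓ ∣ k ∧
      Nat.card (Subgroup.centralizer ({s} : Set S)) = Nat.card Z * k := by
  let H : Subgroup S := Subgroup.centralizer ({s} : Set S)
  let q : H →* G ⧸ Z := ((QuotientGroup.mk' Z).comp S.subtype).comp H.subtype
  have hrange : q.range ≤ Subgroup.centralizer ({((s : G) : G ⧸ Z)} : Set (G ⧸ Z)) := by
    rintro _ ⟨h, rfl⟩
    rw [Subgroup.mem_centralizer_singleton_iff]
    have h1 := Subgroup.mem_centralizer_singleton_iff.mp h.2
    have h2 := congrArg (fun t : S => ((t : G) : G ⧸ Z)) h1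
    exact h2
  have hdvd : Nat.card q.range ∣
      Nat.card (Subgroup.centralizer ({((s : G) : G ⧸ Z)} : Set (G ⧸ Z))) :=
    Subgroup.card_dvd_of_le hrange
  refine ⟨Nat.card q.range, fun h => hs (h.trans hdvd), ?_⟩
  have hker : Nat.card q.ker = Nat.card Z := by
    refine Nat.card_congr
      { toFun := fun h => ⟨((h.1.1 : S) : G), ?_⟩
        invFun := fun z => ⟨⟨⟨z.1, hZS z.2⟩, ?_⟩, ?_⟩
        left_inv := fun h => rfl
        right_inv := fun z => rfl }
    · have h1 := h.2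
      rw [MonoidHom.mem_ker] at h1
      exact (QuotientGroup.eq_one_iff _).mp h1
    · rw [Subgroup.mem_centralizer_singleton_iff]
      apply Subtype.ext
      exact (Subgroup.mem_center_iff.mp (hZc z.2) (s : G)).symm
    · rw [MonoidHom.mem_ker]
      exact (QuotientGroup.eq_one_iff _).mpr z.2
  have h1 : Nat.card H = Nat.card q.ker * Nat.card q.range := by
    rw [← Subgroup.index_ker q, Subgroup.card_mul_index]
  rw [← hker]
  exact h1

/-- Conjugate elements have centralizers of the same order. -/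
theorem card_cent_conj {X : Type} [Group X] [Fintype X] {x y : X} (h : IsConj x y) :
    Nat.card (Subgroup.centralizer ({x} : Set X)) =
      Nat.card (Subgroup.centralizer ({y} : Set X)) := by
  have h1 := DGN.card_centralizer x
  have h2 := DGN.card_centralizer y
  have h3 : BLKA.csize x = BLKA.csize y := by
    rw [BLKA.csize, BLKA.csize, ConjClasses.mk_eq_mk_iff_isConj.mpr h]
  rw [h3] at h1
  have h4 : BLKA.csize y ≠ 0 := by
    intro h0
    rw [h0, zero_mul] at h2
    exact Nat.card_pos.ne' h2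
  exact Nat.eq_of_mul_eq_mul_left (Nat.pos_of_ne_zero h4) (h1.symm.trans h2)

/-- Nonvanishing central functions come from elements. -/
theorem exists_s (𝔐 : Ideal (integralClosure ℤ ℂ)) (S : Subgroup G) {ψ : S → ℂ} (hψ : IsIrr ψ)
    (y : G) (h : cen 𝔐 S.subtype ψ y ≠ 0) :
    ∃ s : S, IsConj (s : G) y ∧ red 𝔐 (om ψ (elt (BLKA.cls s))) ≠ 0 := by
  classical
  have h1 := red_wt_eq_pair 𝔐 (MonoidHom.id S) hψ (fun s : S => conjInd (s : G) y) (by
      intro g x
      have : ((g * x * g⁻¹ : S) : G) = (g : G) * x * (g : G)⁻¹ := rfl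
      rw [this, conjInd_conj]) (fun x => isIntegral_conjInd _ _)
  have h2 : red 𝔐 (wt ψ (fun s : S => conjInd ((MonoidHom.id S s : S) : G) y)) ≠ 0 := h
  rw [h1, pair, finsum_eq_sum_of_fintype] at h2
  obtain ⟨C, _, hC⟩ := Finset.exists_ne_zero_of_sum_ne_zero h2
  refine ⟨C.out, ?_, ?_⟩
  · by_contra hcon
    apply hC
    rw [conjInd, if_neg hcon, red_zero, zero_mul]
  · intro h3
    apply hC
    rw [cen_id, h3, mul_zero]

end Classes

end DZC

theorem DZC_thm (h1 : Stmt_BTC) : Stmt_DZC := by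
  intro G _ _ 𝔐 ℓ hp h𝔐 hℓ hcent hD d c hKK
  classical
  have hP : 𝔐.IsPrime := h𝔐.isPrime
  set Z : Subgroup G := pCore ℓ G with hZdef
  have hZp : IsPGroup ℓ Z := isPGroup_pCore ℓ
  have hZn : Z.Normal := pCore_normal ℓ
  -- the character of the group
  obtain ⟨σ, hσ, ψ, hψ, hψd, hψc⟩ := KK_ne_zero 𝔐 hKK
  obtain ⟨χ₀, hχ₀, hcen₀⟩ := exists_irr_of_mult 𝔐 hψ (exists_irr_of_chain 𝔐 hℓ hσ hψ)
  have hc₀ : cen 𝔐 (MonoidHom.id G) χ₀ = c := by
    rw [hcen₀]
    exact funext hψc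
  have hall : ∀ (χ' : G → ℂ) (e : ℕ), IsIrr χ' → cen 𝔐 (MonoidHom.id G) χ' = c →
      HasDefect ℓ χ' e → ℓ ^ e ≤ Nat.card Z := by
    intro χ' e hχ' hc' he
    by_contra hcon
    have h2 := hD 𝔐 h𝔐 hℓ χ₀ hχ₀ ⟨χ', e, hχ', (sameBlock_iff 𝔐 hχ' hχ₀).mpr (hc'.trans hc₀.symm),
      he, not_le.mp hcon⟩ d
    have h3 := dadeSum_eq 𝔐 ℓ d hχ₀
    rw [h2, hc₀] at h3
    apply hKK
    rw [← h3]
    simp
  -- the character trivial on the centre
  obtain ⟨χ, hχ, hχt, hχc⟩ := h1 G 𝔐 ℓ h𝔐 hℓ Z hcent hZp 1 χ₀ hχ₀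
  have hχt' : ∀ z ∈ Z, ∀ x, χ (z * x) = χ x := by
    intro z hz x
    have := hχt ⟨z, hz⟩ x
    rw [MonoidHom.one_apply, Units.val_one, one_mul] at this
    exact this
  have hχc' : cen 𝔐 (MonoidHom.id G) χ = c := hχc.trans hc₀
  refine ⟨?_, χ, hχ, hχt', hχc', fun e he => hall χ e hχ hχc' he⟩
  -- the quotient
  have hfin : Fintype (G ⧸ Z) := Fintype.ofFinite _
  obtain ⟨χb, hb, hbx⟩ := DZC.deflate Z hcent hχ hχt'
  have hb0 : HasDefect ℓ χb 0 :=
    DZC.defect_deflate Z hZp hχ (fun e he => hall χ e hχ hχc' he) hb (hbx 1)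
  obtain ⟨x, hx1, hx2⟩ := DZC.exists_y 𝔐 hℓ hb hb0
  have hord : ¬ ℓ ∣ orderOf x := by
    intro h
    apply hx2
    refine h.trans ?_
    have hmem : x ∈ Subgroup.centralizer ({x} : Set (G ⧸ Z)) :=
      Subgroup.mem_centralizer_singleton_iff.mpr rfl
    have h2 := orderOf_dvd_natCard (⟨x, hmem⟩ : Subgroup.centralizer ({x} : Set (G ⧸ Z)))
    rwa [Subgroup.orderOf_mk] at h2
  obtain ⟨y, hyx, hy⟩ := DZC.exists_lift Z hZp x hord
  have hcy : c y ≠ 0 := by
    rw [← hχc', DZC.cen_id, BLKA.om_cls hχ, DZC.csize_lift Z hcent hZp hord hy, hyx]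
    rw [BLKA.om_cls hb, ← hyx, hbx] at hx1
    have h2 : χb 1 = χ 1 := hbx 1
    rw [h2, hyx] at hx1
    exact hx1
  -- the element of the stabilizer
  have hZS : Z ≤ stb σ := by
    intro z hz
    rw [mem_stb']
    intro D hD w
    have h2 : z * w * z⁻¹ = w := by
      have := Subgroup.mem_center_iff.mp (hcent hz) w
      rw [← this]
      group
    rw [h2]
  have hcy' : cen 𝔐 (stb σ).subtype ψ y ≠ 0 := by
    rw [hψc y]
    exact hcy
  obtain ⟨s, hsy, hs⟩ := DZC.exists_s 𝔐 (stb σ) hψ y hcy'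
  have hsx : IsConj ((s : G) : G ⧸ Z) x := by
    obtain ⟨a, ha⟩ := isConj_iff.mp hsy
    refine isConj_iff.mpr ⟨(a : G ⧸ Z), ?_⟩
    rw [← hyx, ← ha]
    rfl
  obtain ⟨k, hk, hcard⟩ := DZC.card_cent (ℓ := ℓ) Z hcent (stb σ) hZS s (by
    rw [DZC.card_cent_conj hsx]
    exact hx2)
  by_contra hcon
  rw [not_le] at hcon
  obtain ⟨z, hz⟩ := hZp.exists_card_eq
  rw [hz] at hcon hcard
  have hzd : z < d := (Nat.pow_lt_pow_iff_right hp.out.one_lt).mp hcon
  obtain ⟨n, M, hn0, hn, hM, hv⟩ := exists_codeg hψ hψd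
  have hcs := DGN.card_centralizer s
  rw [hcard] at hcs
  have h3 := BLKA.mul_om_cls hψ s hn0 hn hcs hM
  have hint := isIntegral_om hψ (elt_mem_center (BLKA.cls s) (BLKA.cls_conj s))
  have hM0 : M ≠ 0 := by
    rintro rfl
    exact Nat.card_pos.ne' (hM.trans (mul_zero _))
  obtain ⟨M', hM'⟩ : ℓ ^ (z + 1) ∣ M := by
    rw [padicValNat_dvd_iff_le hM0, hv]
    omega
  have h4 : (k : ℂ) * om ψ (elt (BLKA.cls s)) = ((ℓ * M' : ℕ) : ℂ) * ψ s := by
    have hl0 : ((ℓ ^ z : ℕ) : ℂ) ≠ 0 := by exact_mod_cast (pow_pos hp.out.pos z).ne'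
    apply mul_left_cancel₀ hl0
    have h5 : ((ℓ ^ z * k : ℕ) : ℂ) = ((ℓ ^ z : ℕ) : ℂ) * k := by push_cast; ring
    have h6 : (M : ℂ) = ((ℓ ^ z : ℕ) : ℂ) * ((ℓ * M' : ℕ) : ℂ) := by
      rw [hM']
      push_cast
      ring
    rw [h5, h6] at h3
    rw [← mul_assoc, h3, mul_assoc]
  have h5 := BLKA.red_mul_of_dvd 𝔐 hℓ (Dvd.intro M' rfl : ℓ ∣ ℓ * M') (isIntegral_char hψ s)
  rw [← h4, red_mul 𝔐 (Lib_helper13.isIntegral_natCast k) hint] at h5
  rcases mul_eq_zero.mp h5 with h6 | h6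
  · exact red_card_ne_zero 𝔐 hℓ hk h6
  · exact hs h6

end Pool.Agent.DPM


end

section

/-!
# Module BLKAR: an invariant integer valued class function separating the characters of defect zero
-/

namespace Pool.Agent.DP.BLKAR

open Pool.Agent.Lib_helper13 Representation Pool.Agent.DP.BLKA

section Ring

variable {G : Type} [Group G] [Fintype G]

/-- A class function as an element of the centre. -/
noncomputable def ze (c : G → ℤ) (hc : ∀ g x, c (g * x * g⁻¹) = c x) :
    Subalgebra.center ℤ (MonoidAlgebra ℤ G) :=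
  ⟨elt c, elt_mem_center c hc⟩

theorem elt_surj (z : MonoidAlgebra ℤ G) : elt (fun x => z.coeff x) = z := by
  ext x
  rw [elt_coeff]

theorem coeff_conj {z : MonoidAlgebra ℤ G} (hz : z ∈ Subalgebra.center ℤ (MonoidAlgebra ℤ G))
    (g x : G) : z.coeff (g * x * g⁻¹) = z.coeff x := by
  have h := (Subalgebra.mem_center_iff.mp hz) (MonoidAlgebra.single g 1)
  have h1 := congrArg (fun w => MonoidAlgebra.coeff w (g * x)) h
  simp only [MonoidAlgebra.coeff_mul_single_apply, MonoidAlgebra.coeff_single_mul_apply,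
    inv_mul_cancel_left, one_mul, mul_one] at h1
  exact h1.symm

theorem domCongr_elt (α : MulAut G) (c : G → ℤ) :
    MonoidAlgebra.domCongr ℤ ℤ α⁻¹ (elt c) = elt (fun x => c (α x)) := by
  ext x
  rw [MonoidAlgebra.coeff_domCongr, elt_coeff, elt_coeff]
  rfl

theorem coeff_elt_prod {B : Type} (s : Finset B) (c : B → G → ℤ)
    (hc : ∀ b g x, c b (g * x * g⁻¹) = c b x) (α : MulAut G) (x : G) :
    ((∏ b ∈ s, ze (c b) (hc b) : Subalgebra.center ℤ (MonoidAlgebra ℤ G)) :
      MonoidAlgebra ℤ G).coeff (α x) =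
    ((∏ b ∈ s, ze (fun y => c b (α y)) (fun g y => by rw [map_mul, map_mul, map_inv, hc]) :
      Subalgebra.center ℤ (MonoidAlgebra ℤ G)) : MonoidAlgebra ℤ G).coeff x := by
  classical
  have h : ∀ s : Finset B, MonoidAlgebra.domCongr ℤ ℤ α⁻¹
      ((∏ b ∈ s, ze (c b) (hc b) : Subalgebra.center ℤ (MonoidAlgebra ℤ G)) :
        MonoidAlgebra ℤ G) =
      ((∏ b ∈ s, ze (fun y => c b (α y)) (fun g y => by rw [map_mul, map_mul, map_inv, hc]) :
        Subalgebra.center ℤ (MonoidAlgebra ℤ G)) : MonoidAlgebra ℤ G) := by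
    intro s
    induction s using Finset.induction_on with
    | empty => simp
    | insert b s hb ih =>
      rw [Finset.prod_insert hb, Finset.prod_insert hb, MulMemClass.coe_mul, MulMemClass.coe_mul,
        map_mul, ih]
      congr 1
      exact domCongr_elt α (c b)
  rw [← h s, MonoidAlgebra.coeff_domCongr]
  rfl

end Ring

end BLKAR

open Pool.Agent.Lib_helper13 Representation Pool.Agent.DP.BLKA Pool.Agent.DP.BLKAR

theorem BLKAR_thm : Stmt_BLKAR := by
  classical
  intro G B _ _ _ _ 𝔐 ℓ _ h𝔐 hℓ κ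
  have hprime : 𝔐.IsPrime := h𝔐.isPrime
  have hdom : IsDomain ((integralClosure ℤ ℂ) ⧸ 𝔐) := Ideal.Quotient.isDomain 𝔐
  obtain ⟨f0, h1, h2, h3⟩ := BLKA_thm G 𝔐 ℓ h𝔐 hℓ
  have hc : ∀ (b : B) (g x : G), f0 (κ b (g * x * g⁻¹)) = f0 (κ b x) := by
    intro b g x
    rw [map_mul, map_mul, map_inv, h1]
  let Z : Subalgebra.center ℤ (MonoidAlgebra ℤ G) :=
    ∏ b : B, ze (fun x => f0 (κ b x)) (hc b)
  have hwt : ∀ χ : G → ℂ, IsIrr χ →
      red 𝔐 (wt χ (fun x => (((Z : MonoidAlgebra ℤ G).coeff x : ℤ) : ℂ))) =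
        ∏ b : B, red 𝔐 (wt χ (fun x => (f0 (κ b x) : ℂ))) := by
    intro χ hχ
    have h4 : wt χ (fun x => (((Z : MonoidAlgebra ℤ G).coeff x : ℤ) : ℂ)) =
        om χ (Z : MonoidAlgebra ℤ G) := by
      conv_rhs => rw [← elt_surj (Z : MonoidAlgebra ℤ G)]
      rw [om_elt]
      rfl
    rw [h4, ← rho_apply 𝔐 hχ Z]
    rw [map_prod]
    refine Finset.prod_congr rfl fun b _ => ?_
    rw [rho_apply]
    change red 𝔐 (om χ (elt (fun x => f0 (κ b x)))) = _
    rw [om_elt]
    rfl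
  have htw : ∀ (χ : G → ℂ) (b : B), wt χ (fun x => (f0 (κ b x) : ℂ)) =
      wt (fun x => χ ((κ b).symm x)) (fun x => (f0 x : ℂ)) := by
    intro χ b
    have h5 := wt_comp_equiv (κ b) (fun x => χ ((κ b).symm x)) (fun x => (f0 x : ℂ))
    rw [← h5]
    congr 1
    ext x
    simp
  refine ⟨fun x => (Z : MonoidAlgebra ℤ G).coeff x, fun g x => coeff_conj Z.2 g x, ?_, ?_, ?_⟩
  · intro b x
    have h6 := coeff_elt_prod Finset.univ (fun (b : B) x => f0 (κ b x)) hc (κ b) x
    refine Eq.trans h6 ?_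
    have h7 : (∏ b' : B, ze (fun y => f0 (κ b' (κ b y)))
        (fun g y => by rw [map_mul (κ b), map_mul (κ b), map_inv (κ b), hc]) :
        Subalgebra.center ℤ (MonoidAlgebra ℤ G)) = Z := by
      refine Fintype.prod_equiv (Equiv.mulRight b) _ _ ?_
      intro b'
      apply Subtype.ext
      change elt (fun y => f0 (κ b' (κ b y))) = elt (fun y => f0 (κ (b' * b) y))
      congr 1
      ext y
      rw [map_mul, MulAut.mul_apply]
    rw [h7]
  · intro χ e hχ he he0
    rw [hwt χ hχ]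
    refine Finset.prod_eq_zero (Finset.mem_univ (1 : B)) ?_
    have h8 : (fun x => (f0 (κ (1 : B) x) : ℂ)) = fun x => (f0 x : ℂ) := by
      ext x
      rw [map_one, MulAut.one_apply]
    rw [h8]
    exact h2 χ e hχ he he0
  · intro χ hχ hd
    rw [hwt χ hχ]
    rw [Finset.prod_ne_zero_iff]
    intro b _
    rw [htw]
    refine h3 _ (hχ.comp_mulEquiv (κ b).symm) ?_
    exact (hasDefect_comp_equiv (κ b).symm).mpr hd

end Pool.Agent.DP


end

section

set_option linter.unusedSectionVars false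

/-!
# VSXW (theorem W): the local sum for a block with a defect group of order `ℓ`
-/

namespace Pool.Agent.DPW

open Pool.Agent.DP Pool.Agent.DPV Pool.Agent.Lib_helper13 Representation
open Pool.Agent.Lib_helper13.Dade (pCore DadeHolds dadeSum)

namespace VSXW

open Pool.Agent.DPV.VSX

section Chains

variable {G : Type} [Group G] [Fintype G]

open Pointwise in
/-- The number of conjugates of a subgroup. -/
theorem card_conj (P : Subgroup G) :
    Nat.card {D : Subgroup G // ∃ g : G, P.map (MulAut.conj g).toMonoidHom = D} *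
      Nat.card (stb ({P} : Finset (Subgroup G))) = Nat.card G := by
  let _ : MulAction G (Subgroup G) :=
    MulAction.compHom (Subgroup G) (MulAut.conj : G →* MulAut G)
  have hs : ∀ g : G, g • P = P.map (MulAut.conj g).toMonoidHom := fun g => rfl
  have h1 : MulAction.stabilizer G P = stb ({P} : Finset (Subgroup G)) := by
    ext g
    rw [MulAction.mem_stabilizer_iff, hs, mem_stb]
    constructor
    · intro h D hD
      rw [Finset.mem_singleton.mp hD]
      exact h
    · intro h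
      exact h P (Finset.mem_singleton_self P)
  have h2 : Nat.card {D : Subgroup G // ∃ g : G, P.map (MulAut.conj g).toMonoidHom = D} =
      (MulAction.stabilizer G P).index := by
    rw [MulAction.index_stabilizer, ← Nat.card_coe_set_eq]
    rfl
  rw [h2, h1, mul_comm]
  exact Subgroup.card_mul_index _

end Chains

section Loc

variable {G B C : Type} [Group G] [Fintype G] [Group B] [Fintype B] [Group C]
  {ι : G →* B} {κ : B →* MulAut G} {ρ : B →* C} {ℓ : ℕ}
  (𝔐 : Ideal (integralClosure ℤ ℂ))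

/-- The central function on `G`. -/
theorem cg_of_ext (hcl : ClG ι κ ρ) {σ : Finset (Subgroup G)} {ψ : G → ℂ} {L : Subgroup C}
    {f : B → ℂ} (hf : ExtL ι κ ρ σ ψ L f) (g : G) : cgT 𝔐 ι.range f (ι g) = cg 𝔐 ψ g := by
  have hfι : (fun h => f (ι h)) = ψ := funext hf.2
  rw [(CGT_thm G B C 𝔐 ι κ ρ hcl).2.1, hfι]

/-- The central function of a character which counts. -/
theorem cg_of_bet (hcl : ClG ι κ ρ) {σ : Finset (Subgroup G)} {ψ : G → ℂ} {L : Subgroup C}
    {β : Set (B → (integralClosure ℤ ℂ) ⧸ 𝔐)} (h : bet 𝔐 ι κ ρ σ ψ L = β)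
    {b : B → (integralClosure ℤ ℂ) ⧸ 𝔐} (hb : b ∈ β) (g : G) : cg 𝔐 ψ g = b (ι g) := by
  rw [← h] at hb
  obtain ⟨f, hf, rfl⟩ := hb
  exact (cg_of_ext 𝔐 hcl hf g).symm

end Loc

end VSXW

open _root_.Pool.Agent.DPW.VSXW Pool.Agent.DPV.VSX in
/-- VSXW: the local sum for a block with a defect group of order `ℓ`. -/
theorem VSXW_thm (h1 : Stmt_CHNW) : Stmt_VSXW := by
  classical
  intro G B C _ _ _ _ _ 𝔐 ℓ _ hmax hℓ ι κ ρ hL P x₀ L β e hβ
  obtain ⟨b, hb, hAt⟩ := hβ
  have h3 : VS 𝔐 ℓ ι κ ρ L β e = ∑ σ ∈ Ch ℓ (⊥ : Subgroup G), (-1 : ℚ) ^ σ.card *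
      ((Nat.card (stb σ) : ℚ) * (NN 𝔐 ℓ ι κ ρ L β e σ : ℚ)) := by
    rw [VS]
    refine Finset.sum_congr rfl fun σ _ => ?_
    congr 1
    exact inner_sum (stb σ) _ (fun ψ => L ≤ (Stx κ σ ψ).map ρ ∧ df ℓ (stb σ) ψ = e ∧
      bet 𝔐 ι κ ρ σ ψ L = β)
  have hne : (∅ : Finset (Subgroup G)) ∉
      ((Finset.univ.filter (fun D : Subgroup G => ∃ g : G,
        P.map (MulAut.conj g).toMonoidHom = D)).image
        (fun D => ({D} : Finset (Subgroup G)))) := by
    rw [Finset.mem_image]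
    rintro ⟨D, -, hD⟩
    exact Finset.singleton_ne_empty D hD
  have h4 : ∀ D ∈ Finset.univ.filter (fun D : Subgroup G => ∃ g : G,
      P.map (MulAut.conj g).toMonoidHom = D),
      (-1 : ℚ) ^ ({D} : Finset (Subgroup G)).card *
        ((Nat.card (stb {D}) : ℚ) * (NN 𝔐 ℓ ι κ ρ L β e {D} : ℚ)) =
      - ((Nat.card (stb {P}) : ℚ) * (NN 𝔐 ℓ ι κ ρ L β e {P} : ℚ)) := by
    intro D hD
    obtain ⟨g, hg⟩ := (Finset.mem_filter.mp hD).2
    have h5 : ({D} : Finset (Subgroup G)) = cc g {P} := by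
      ext E
      rw [Finset.mem_singleton, mem_mapCh]
      constructor
      · rintro rfl
        exact ⟨P, Finset.mem_singleton_self P, hg⟩
      · rintro ⟨Q, hQ, rfl⟩
        rw [Finset.mem_singleton.mp hQ]
        exact hg
    have h6 : Nat.card (stb ({D} : Finset (Subgroup G))) =
        Nat.card (stb ({P} : Finset (Subgroup G))) := by
      rw [h5, cc, stb_mapCh_equiv, card_map_conj]
    have h7 : NN 𝔐 ℓ ι κ ρ L β e {D} = NN 𝔐 ℓ ι κ ρ L β e {P} := by
      rw [h5, NN_cc hL.cl]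
    rw [h6, h7, Finset.card_singleton, pow_one, neg_one_mul]
  have h8 : ((Finset.univ.filter (fun D : Subgroup G => ∃ g : G,
      P.map (MulAut.conj g).toMonoidHom = D)).card : ℚ) *
      (Nat.card (stb ({P} : Finset (Subgroup G))) : ℚ) = Nat.card G := by
    have h9 := card_conj P
    have h10 : Nat.card {D : Subgroup G // ∃ g : G, P.map (MulAut.conj g).toMonoidHom = D} =
        (Finset.univ.filter (fun D : Subgroup G => ∃ g : G,
          P.map (MulAut.conj g).toMonoidHom = D)).card :=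
      Nat.subtype_card _ (fun D => by
        rw [Finset.mem_filter]
        exact ⟨fun h => h.2, fun h => ⟨Finset.mem_univ _, h⟩⟩)
    rw [h10] at h9
    exact_mod_cast h9
  have h11 : (Nat.card (stb (∅ : Finset (Subgroup G))) : ℚ) = Nat.card G := by
    rw [stb_empty, Subgroup.card_top]
  -- the chains which contribute
  have hsub : insert ∅ ((Finset.univ.filter (fun D : Subgroup G => ∃ g : G,
      P.map (MulAut.conj g).toMonoidHom = D)).image
        (fun D => ({D} : Finset (Subgroup G)))) ⊆ Ch ℓ (⊥ : Subgroup G) := by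
    intro σ hσ
    rw [mem_Ch]
    rcases Finset.mem_insert.mp hσ with rfl | hσ
    · exact isCh_empty
    · obtain ⟨D, hD, rfl⟩ := Finset.mem_image.mp hσ
      obtain ⟨g, hg⟩ := (Finset.mem_filter.mp hD).2
      have hD' : Nat.card D = ℓ := by
        rw [← hg, card_map_conj, hAt.card]
      exact Pool.Agent.DPB.LOC.isCh_singleton (Pool.Agent.DPB.BRD.isPGroup_of_card hD')
        (Pool.Agent.DPB.BRD.ne_bot hD')
  have hzero : ∀ σ ∈ Ch ℓ (⊥ : Subgroup G), σ ∉ insert ∅ ((Finset.univ.filter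
      (fun D : Subgroup G => ∃ g : G, P.map (MulAut.conj g).toMonoidHom = D)).image
        (fun D => ({D} : Finset (Subgroup G)))) →
      (-1 : ℚ) ^ σ.card * ((Nat.card (stb σ) : ℚ) * (NN 𝔐 ℓ ι κ ρ L β e σ : ℚ)) = 0 := by
    intro σ hσ hnot
    have hN : NN 𝔐 ℓ ι κ ρ L β e σ = 0 := by
      rw [VSX.NN]
      have hemp : IsEmpty {ψ : G → ℂ // IrrOn (stb σ) ψ ∧ PP 𝔐 ℓ ι κ ρ L β e σ ψ} := by
        constructor
        rintro ⟨ψ, hψ, hPP⟩
        apply hnot
        have hcg : ∀ g, cg 𝔐 ψ g = b (ι g) := cg_of_bet 𝔐 hL.cl hPP.2.2 hb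
        rcases h1 G 𝔐 ℓ hmax hℓ (fun g => b (ι g)) P x₀ hAt σ (mem_Ch.mp hσ) ψ hψ hcg with
          h | ⟨g, hg⟩
        · rw [h]
          exact Finset.mem_insert_self _ _
        · apply Finset.mem_insert_of_mem
          rw [Finset.mem_image]
          exact ⟨P.map (MulAut.conj g).toMonoidHom,
            Finset.mem_filter.mpr ⟨Finset.mem_univ _, g, rfl⟩, hg.symm⟩
      exact Nat.card_of_isEmpty
    rw [hN, Nat.cast_zero, mul_zero, mul_zero]
  rw [h3, ← Finset.sum_subset hsub hzero, Finset.sum_insert hne, Finset.card_empty, pow_zero,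
    one_mul, h11, Finset.sum_image (fun D _ E _ h => Finset.singleton_injective h),
    Finset.sum_congr rfl h4, Finset.sum_const, nsmul_eq_mul, mul_sub, ← h8]
  change _ = (_ * (NN 𝔐 ℓ ι κ ρ L β e ∅ : ℚ)) - _ * (NN 𝔐 ℓ ι κ ρ L β e {P} : ℚ)
  ring

end Pool.Agent.DPW


end
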