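import Mathlib
import Pool.Agent.DAM.C02
import Pool.Agent.DAM.C05
import Pool.Agent.DAM.C08
import Pool.Agent.DAM.C12
import Pool.Agent.DAM.C13
import Pool.Agent.DAM.C14
import Pool.Agent.DAM.C19
import Pool.Agent.DAM.C25

/-! Parts: DPM.PHV, DPM.MXM, DPM.TWN, DPC.BETG, DPX.DERP -/

section

/-!
# PHV: the sums over the chains of `M` for the proper subgroups which contain `M`
-/

namespace Pool.Agent.DPM

open Pool.Agent.DP Pool.Agent.DPC Pool.Agent.Lib_helper13 Representation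
open Pool.Agent.Lib_helper13.Dade (pCore DadeHolds dadeSum)

namespace PHV

/-- The conjugation data of a normal subgroup. -/
theorem clG {X : Type} [Group X] (M : Subgroup X) [M.Normal] :
    ClG M.subtype (MulAut.conjNormal (H := M)) (QuotientGroup.mk' M) where
  inj := Subtype.coe_injective
  act y a := by
    change ((MulAut.conjNormal y a : M) : X) = _
    rw [MulAut.conjNormal_apply]
    rfl
  ker y := by
    rw [QuotientGroup.mk'_apply, QuotientGroup.eq_one_iff, Subgroup.range_subtype]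

/-- The centre of a subgroup which contains the centre. -/
theorem index_le {X : Type} [Group X] [Finite X] (Y : Subgroup X) (hY : Y ≠ ⊤)
    (hZ : Subgroup.center X ≤ Y) :
    (Subgroup.center Y).index ≤ (Subgroup.center X).index - 1 := by
  have h1 : (Subgroup.center X).subgroupOf Y ≤ Subgroup.center Y := by
    intro y hy
    rw [Subgroup.mem_subgroupOf] at hy
    rw [Subgroup.mem_center_iff] at hy ⊢
    intro g
    exact Subtype.ext (hy g)
  have h2 : (Subgroup.center Y).index ≤ ((Subgroup.center X).subgroupOf Y).index :=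
    Nat.le_of_dvd (Nat.pos_of_ne_zero Subgroup.index_ne_zero_of_finite)
      (Subgroup.index_dvd_of_le h1)
  have h3 : ((Subgroup.center X).subgroupOf Y).index * Y.index = (Subgroup.center X).index :=
    Subgroup.relIndex_mul_index hZ
  have h4 : 2 ≤ Y.index := by
    have h5 : Y.index ≠ 0 := Subgroup.index_ne_zero_of_finite
    have h6 : Y.index ≠ 1 := fun h => hY (Subgroup.index_eq_one.mp h)
    omega
  have h5 : 0 < (Subgroup.center Y).index := Nat.pos_of_ne_zero Subgroup.index_ne_zero_of_finite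
  have h6 : (Subgroup.center Y).index * 2 ≤ (Subgroup.center X).index := by
    rw [← h3]
    exact Nat.mul_le_mul h2 h4
  omega

/-- If a character of defect zero of `M` has the same central function on the group as `ξ`, then
`ξ` has defect zero. -/
theorem defect_zero (h4 : Stmt_CVX) {X : Type} [Group X] [Fintype X]
    (𝔐 : Ideal (integralClosure ℤ ℂ)) {ℓ : ℕ} [Fact ℓ.Prime] (hM : 𝔐.IsMaximal)
    (hl : (ℓ : integralClosure ℤ ℂ) ∈ 𝔐) (M : Subgroup X) [M.Normal] (ξ ξ1 : M → ℂ)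
    (hξ : IsIrr ξ) (hξ1 : IsIrr ξ1) (hd : HasDefect ℓ ξ1 0)
    (h : ∀ g ∈ M, cen 𝔐 M.subtype ξ g = cen 𝔐 M.subtype ξ1 g) : HasDefect ℓ ξ 0 := by
  have : 𝔐.IsPrime := hM.isPrime
  obtain ⟨x, hx, hcen, hdef⟩ := h4 X 𝔐 ℓ hM hl M ξ ξ1 hξ hξ1 h
  exact defect_zero_of_cen 𝔐 hl hx ((hdef 0).mpr hd) (MonoidHom.id M) hξ
    fun g => (congrFun hcen g).symm

end PHV

open _root_.Pool.Agent.DPM.PHV in
theorem PHV_thm (h1 : Stmt_PSI) (h2 : Stmt_MXM) (h3 : Stmt_RCE) (h4 : Stmt_CVX) : Stmt_PHV := by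
  intro X H _ _ _ _ 𝔐 ℓ _ hM hl hHQ M _ p hp hpM hZM χ ξ hχ hξ hip hξd V hV d
  by_contra hne
  apply hξd
  have hMY : M ≤ V.comap p := fun x hx => by
    rw [Subgroup.mem_comap, (hpM x).mpr hx]
    exact V.one_mem
  have hYt : V.comap p ≠ ⊤ := fun h => by
    apply hV
    rw [eq_top_iff]
    intro y _
    obtain ⟨x, rfl⟩ := hp y
    have h5 : x ∈ V.comap p := by rw [h]; exact Subgroup.mem_top x
    exact h5
  have hidx := index_le (V.comap p) hYt (hZM.trans hMY)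
  classical
  have hPS : PSt ℓ ↥(V.comap p) := h1 ℓ ↥(V.comap p)
    fun G _ _ hG hi => hHQ G hG (hi.trans hidx)
  obtain ⟨F, hF1, hF2, -⟩ := h2 ↥(V.comap p) X 𝔐 ℓ hM hl (M.subgroupOf (V.comap p))
    (V.comap p).subtype M d (cen 𝔐 (MonoidHom.id X) χ)
  rw [hF1] at hne
  obtain ⟨ω', hω', hII⟩ := Finset.exists_ne_zero_of_sum_ne_zero hne
  obtain ⟨χ1, θ, hχ1, hθ, hθd, hip1, hcen1⟩ := hPS 𝔐 hM hl (M.subgroupOf (V.comap p)) d ω' hII
  have h5 := hF2 ω' hω' χ1 hχ1 hcen1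
  have h6 := h3 ↥(M.subgroupOf (V.comap p)) ↥(V.comap p) _ X 𝔐
    (M.subgroupOf (V.comap p)).subtype _ _ (clG (M.subgroupOf (V.comap p))) (V.comap p).subtype
    M inferInstance (fun t ht => ⟨⟨t, Subgroup.mem_subgroupOf.mpr ht⟩, rfl⟩) χ1 θ hχ1 hθ hip1
  have h7 := h3 M X _ X 𝔐 M.subtype _ _ (clG M) (MonoidHom.id X) M inferInstance
    (fun t ht => ⟨⟨t, ht⟩, rfl⟩) χ ξ hχ hξ hip
  -- transport to `M`
  let e : ↥(M.subgroupOf (V.comap p)) ≃* M := Subgroup.subgroupOfEquivOfLe hMY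
  have h8 : cen 𝔐 M.subtype (fun m : M => θ (e.symm m)) =
      cen 𝔐 ((V.comap p).subtype.comp (M.subgroupOf (V.comap p)).subtype) θ := by
    have h9 := cen_comp_equiv 𝔐 e.symm
      ((V.comap p).subtype.comp (M.subgroupOf (V.comap p)).subtype) θ
    rw [← h9]
    congr 1
  refine defect_zero h4 𝔐 hM hl M ξ (fun m : M => θ (e.symm m)) hξ (hθ.comp_mulEquiv e.symm)
    (hasDefect_comp_equiv e.symm |>.mpr hθd) fun g hg => ?_
  rw [h8, ← h6 g hg, h5 g hg]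
  exact (h7 g hg).symm

end Pool.Agent.DPM


end

section

/-!
# MXM: refinement of the central functions
-/

set_option autoImplicit false

namespace Pool.Agent.DPM

open Pool.Agent.DP Pool.Agent.DPC Pool.Agent.Lib_helper13 Representation

namespace MXM

/-- The central function on `X` is determined by the central function on `Y`. -/
theorem cen_comp {S Y X : Type} [Group S] [Fintype S] [Group Y] [Fintype Y] [Group X]
    (𝔐 : Ideal (integralClosure ℤ ℂ)) (i : Y →* X) (s : S →* Y) {ψ : S → ℂ} (hψ : IsIrr ψ)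
    (g : X) : cen 𝔐 (i.comp s) ψ g = pair 𝔐 (fun y => conjInd (i y) g) (cen 𝔐 s ψ) := by
  rw [← red_wt_eq_pair 𝔐 s hψ (fun y => conjInd (i y) g)
    (fun h y => by rw [map_mul, map_mul, map_inv, conjInd_conj])
    (fun y => isIntegral_conjInd _ _)]
  rfl

theorem card_irr {S : Type} [Group S] [Fintype S] (Q : (S → ℂ) → Prop) [DecidablePred Q] :
    Nat.card {ψ : S → ℂ // IsIrr ψ ∧ Q ψ} = ((irrF S).filter Q).card := by
  apply Nat.subtype_card
  intro ψ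
  rw [Finset.mem_filter, mem_irrF]

open Classical in
theorem card_split {S Y : Type} [Group S] [Fintype S] [Group Y] [Fintype Y]
    (𝔐 : Ideal (integralClosure ℤ ℂ)) (s : S →* Y) (ℓ d : ℕ) (P : (S → ℂ) → Prop)
    (F : Finset (Y → (integralClosure ℤ ℂ) ⧸ 𝔐))
    (h : ∀ ψ : S → ℂ, IsIrr ψ → (P ψ ↔ cen 𝔐 s ψ ∈ F)) :
    Nat.card {ψ : S → ℂ // IsIrr ψ ∧ HasDefect ℓ ψ d ∧ P ψ} =
      ∑ ω' ∈ F, cnt 𝔐 ℓ d s ω' := by
  rw [card_irr (fun ψ => HasDefect ℓ ψ d ∧ P ψ)]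
  rw [Finset.card_eq_sum_card_fiberwise (f := fun ψ => cen 𝔐 s ψ) (t := F)]
  · refine Finset.sum_congr rfl fun ω' hω' => ?_
    rw [cnt, card_irr]
    congr 1
    ext ψ
    simp only [Finset.mem_filter, mem_irrF]
    constructor
    · rintro ⟨⟨h1, h2, h3⟩, h4⟩
      exact ⟨h1, h2, fun g => by rw [h4]⟩
    · rintro ⟨h1, h2, h3⟩
      have h4 : cen 𝔐 s ψ = ω' := funext h3
      exact ⟨⟨h1, h2, (h ψ h1).2 (h4 ▸ hω')⟩, h4⟩
  · intro ψ hψ
    have hψ' := Finset.mem_coe.1 hψ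
    rw [Finset.mem_filter, mem_irrF] at hψ'
    exact Finset.mem_coe.2 ((h ψ hψ'.1).1 hψ'.2.2)

end MXM

open Classical _root_.Pool.Agent.DPM.MXM in
/-- MXM: refinement of the central functions. -/
theorem MXM_thm : Stmt_MXM := by
  intro Y X _ _ _ _ 𝔐 ℓ _ h𝔐 hℓ N i M d ω
  -- all central functions
  let Call : Finset (Y → (integralClosure ℤ ℂ) ⧸ 𝔐) :=
    (Ch ℓ (⊥ : Subgroup N)).biUnion fun τ =>
      (irrF (stb (mapCh N.subtype τ))).image fun ψ =>
        cen 𝔐 (stb (mapCh N.subtype τ)).subtype ψ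
  let F : Finset (Y → (integralClosure ℤ ℂ) ⧸ 𝔐) :=
    Call.filter fun ω' => ∀ g ∈ M, pair 𝔐 (fun y => conjInd (i y) g) ω' = ω g
  have hid : ∀ τ : Finset (Subgroup N), (MonoidHom.id Y).comp (stb (mapCh N.subtype τ)).subtype =
      (stb (mapCh N.subtype τ)).subtype := fun τ => MonoidHom.id_comp _
  refine ⟨F, ?_, ?_, ?_⟩
  · unfold PHY II
    rw [Finset.sum_comm]
    refine Finset.sum_congr rfl fun τ hτ => ?_
    rw [← Finset.mul_sum, ← Finset.mul_sum]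
    congr 2
    rw [card_split 𝔐 (stb (mapCh N.subtype τ)).subtype ℓ d _ F]
    · rw [Nat.cast_sum]
      rfl
    · intro ψ hψ
      constructor
      · intro h1
        rw [Finset.mem_filter]
        refine ⟨?_, fun g hg => ?_⟩
        · rw [Finset.mem_biUnion]
          exact ⟨τ, hτ, Finset.mem_image_of_mem _ (mem_irrF.2 hψ)⟩
        · rw [← cen_comp 𝔐 i _ hψ g]
          exact h1 g hg
      · intro h1 g hg
        rw [cen_comp 𝔐 i _ hψ g]
        exact (Finset.mem_filter.1 h1).2 g hg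
  · intro ω' hω' χ hχ hc g hg
    have h1 := cen_comp 𝔐 i (MonoidHom.id Y) hχ g
    rw [MonoidHom.comp_id, hc] at h1
    rw [h1]
    exact (Finset.mem_filter.1 hω').2 g hg
  · intro χ hχ hω hII
    rw [Finset.mem_filter]
    constructor
    · unfold II at hII
      obtain ⟨τ, hτ, h1⟩ := Finset.exists_ne_zero_of_sum_ne_zero hII
      have h2 : cnt 𝔐 ℓ d ((MonoidHom.id Y).comp (stb (mapCh N.subtype τ)).subtype)
          (cen 𝔐 (MonoidHom.id Y) χ) ≠ 0 := by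
        intro h
        apply h1
        rw [h, Nat.cast_zero, mul_zero, mul_zero]
      rw [cnt, card_irr] at h2
      obtain ⟨ψ, hψ⟩ := Finset.card_ne_zero.1 h2
      rw [Finset.mem_filter, mem_irrF] at hψ
      rw [Finset.mem_biUnion]
      refine ⟨τ, hτ, Finset.mem_image.2 ⟨ψ, mem_irrF.2 hψ.1, ?_⟩⟩
      funext y
      exact hψ.2.2 y
    · intro g hg
      have h1 := cen_comp 𝔐 i (MonoidHom.id Y) hχ g
      rw [MonoidHom.comp_id] at h1
      rw [← h1]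
      exact hω g hg

end Pool.Agent.DPM


end

section

/-!
# TWN: the correspondence of characters for twisted groups
-/

set_option autoImplicit false
set_option linter.unusedSectionVars false

namespace Pool.Agent.DPM

open Pool.Agent.DP Pool.Agent.DPC Pool.Agent.Lib_helper13 Representation

namespace TWN

theorem gall : Stmt_GALL := GALL_thm COSET_thm SUMM_thm

/-- A central element acts as a scalar. -/
theorem central {S : Type*} [Group S] [Fintype S] {χ : S → ℂ} (h : IsIrr χ) {z : S}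
    (hz : ∀ g, z * g = g * z) : ∃ c : ℂ, ∀ g, χ (z * g) = c * χ g := by
  obtain ⟨n, ρ, hρ, rfl⟩ := h
  obtain ⟨c, hc⟩ := exists_scalar ρ hρ (ρ z) (by
    intro g x
    rw [← Module.End.mul_apply, ← Module.End.mul_apply, ← map_mul, ← map_mul, hz])
  refine ⟨c, fun g => ?_⟩
  change LinearMap.trace ℂ _ (ρ (z * g)) = c * LinearMap.trace ℂ _ (ρ g)
  have h1 : ρ (z * g) = c • ρ g := by
    rw [map_mul, hc]
    ext x
    simp
  rw [h1, map_smul, smul_eq_mul]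

section

variable {A T K Γ L : Type} [Group A] [Fintype A] [Group T] [Fintype T] [Group K] [Finite K]
  [Group Γ] [Fintype Γ] [Group L] [Fintype L] {j : A →* T} {c : T →* MulAut A} {p : T →* K}
  {θ : A → ℂ} {e : A →* Γ} {q : Γ →* L} {r : Γ →* T} {E : Γ → ℂ} {U : Subgroup L}
  {μ : U →* ℂˣ} {π : L →* K}

/-- The inverse image in the big group. -/
def GV (p : T →* K) (r : Γ →* T) (V : Subgroup K) : Subgroup Γ := V.comap (p.comp r)

theorem mem_GV {V : Subgroup K} {γ : Γ} : γ ∈ GV p r V ↔ p (r γ) ∈ V := Iff.rfl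

/-- The projection to `T`. -/
def rV (p : T →* K) (r : Γ →* T) (V : Subgroup K) : GV p r V →* V.comap p :=
  (r.comp (GV p r V).subtype).codRestrict _ (fun γ => γ.2)

/-- The projection to `L`. -/
def qV (h : TWD j p θ e q r E U μ π) (V : Subgroup K) : GV p r V →* V.comap π :=
  (q.comp (GV p r V).subtype).codRestrict _ (fun γ => by
    show π (q (γ : Γ)) ∈ V
    rw [h.πq]
    exact γ.2)

theorem q_e (h : TWD j p θ e q r E U μ π) (a : A) : q (e a) = 1 := (h.qk (e a)).mpr ⟨a, rfl⟩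

theorem p_r_e (h : TWD j p θ e q r E U μ π) (a : A) : p (r (e a)) = 1 := by
  rw [← h.πq, q_e h, map_one]

/-- The embedding of `A`. -/
def eV (h : TWD j p θ e q r E U μ π) (V : Subgroup K) : A →* GV p r V :=
  e.codRestrict _ (fun a => by
    show p (r (e a)) ∈ V
    rw [p_r_e h]
    exact V.one_mem)

theorem rV_surj (h : TWD j p θ e q r E U μ π) (V : Subgroup K) :
    Function.Surjective (rV p r V) := by
  rintro ⟨t, ht⟩
  obtain ⟨γ, rfl⟩ := h.rs t
  exact ⟨⟨γ, ht⟩, rfl⟩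

theorem qV_surj (h : TWD j p θ e q r E U μ π) (V : Subgroup K) :
    Function.Surjective (qV h V) := by
  rintro ⟨l, hl⟩
  obtain ⟨γ, rfl⟩ := h.qs l
  have h1 : p (r γ) ∈ V := by
    rw [← h.πq]
    exact hl
  exact ⟨⟨γ, h1⟩, rfl⟩

theorem e_inj (hc : ClG j c p) (h : TWD j p θ e q r E U μ π) : Function.Injective e := by
  intro a b hab
  apply hc.inj
  rw [← h.re, ← h.re, hab]

theorem e_act (hc : ClG j c p) (h : TWD j p θ e q r E U μ π) (γ : Γ) (a : A) :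
    e (c (r γ) a) = γ * e a * γ⁻¹ := by
  have h1 : γ * e a * γ⁻¹ ∈ e.range := by
    rw [← h.qk, map_mul, map_mul, map_inv, q_e h, mul_one, mul_inv_cancel]
  obtain ⟨a', ha'⟩ := h1
  have h2 : j a' = j (c (r γ) a) := by
    rw [← h.re, ha', map_mul, map_mul, map_inv, h.re, hc.act]
  rw [← ha', hc.inj h2]

theorem clG_V (hc : ClG j c p) (h : TWD j p θ e q r E U μ π) (V : Subgroup K) :
    ClG (eV h V) (c.comp (r.comp (GV p r V).subtype)) (qV h V) where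
  inj := fun _ _ hab => e_inj hc h (congrArg Subtype.val hab)
  act := fun y a => Subtype.ext (e_act hc h (y : Γ) a)
  ker := by
    intro y
    constructor
    · intro h1
      have h2 : q (y : Γ) = 1 := congrArg Subtype.val h1
      obtain ⟨a, ha⟩ := (h.qk y).mp h2
      exact ⟨a, Subtype.ext ha⟩
    · rintro ⟨a, rfl⟩
      apply Subtype.ext
      exact q_e h a

/-- The order of an inverse image. -/
theorem card_comap {S H : Type*} [Group S] [Group H] [Finite S] (π : S →* H)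
    (hπ : Function.Surjective π) (T : Subgroup H) :
    Nat.card (T.comap π) = Nat.card π.ker * Nat.card T := by
  classical
  have hfS : Fintype S := Fintype.ofFinite S
  have hfH : Finite H := Finite.of_surjective π hπ
  have hfT : Fintype T := Fintype.ofFinite T
  let f : T.comap π →* T := (π.comp (T.comap π).subtype).codRestrict T (fun y => y.2)
  have hf : Function.Surjective f := by
    rintro ⟨t, ht⟩
    obtain ⟨s, rfl⟩ := hπ t
    exact ⟨⟨s, ht⟩, rfl⟩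
  rw [← QB.card_eq hf]
  congr 1
  refine Nat.card_congr ⟨fun x => ⟨x.1.1, ?_⟩, fun x => ⟨⟨x.1, ?_⟩, ?_⟩, ?_, ?_⟩
  · have h1 : f x.1 = 1 := x.2
    exact congrArg Subtype.val h1
  · rw [Subgroup.mem_comap, MonoidHom.mem_ker.mp x.2]
    exact T.one_mem
  · rw [MonoidHom.mem_ker]
    apply Subtype.ext
    exact MonoidHom.mem_ker.mp x.2
  · intro x
    rfl
  · intro x
    rfl

theorem card_T (hc : ClG j c p) (hp : Function.Surjective p) (V : Subgroup K) :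
    Nat.card ↥(V.comap p) = Nat.card A * Nat.card V := by
  rw [card_comap p hp V]
  congr 1
  have h1 : p.ker = j.range := by
    ext t
    rw [MonoidHom.mem_ker, hc.ker]
  rw [h1]
  exact (Nat.card_congr (MonoidHom.ofInjective hc.inj).toEquiv).symm

theorem card_L (h : TWD j p θ e q r E U μ π) (V : Subgroup K) :
    Nat.card ↥(V.comap π) = Nat.card U * Nat.card V := by
  rw [card_comap π h.πs V]
  congr 1
  have h1 : π.ker = U := by
    ext l
    rw [MonoidHom.mem_ker, h.πk]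
  rw [h1]

/-- The value at the embedded group. -/
theorem ext0_j (h : TWD j p θ e q r E U μ π) (V : Subgroup K) (ψ : ↥(V.comap p) → ℂ) :
    (fun a : A => ext0 ψ (j a)) = resj (eV h V) (fun γ => ψ (rV p r V γ)) := by
  funext a
  have h1 : j a ∈ V.comap p := by
    rw [Subgroup.mem_comap, ← h.re, p_r_e h]
    exact V.one_mem
  rw [ext0_of_mem ψ h1, resj]
  congr 1
  apply Subtype.ext
  exact (h.re a).symm

theorem cor_iff (h : TWD j p θ e q r E U μ π) (V : Subgroup K) (ψ : ↥(V.comap p) → ℂ)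
    (η : ↥(V.comap π) → ℂ) : Cor p q r E π V ψ η ↔
      (fun γ : GV p r V => ψ (rV p r V γ)) =
        fun γ : GV p r V => E (γ : Γ) * η (qV h V γ) := by
  constructor
  · intro h1
    funext γ
    exact h1 γ γ.2 (qV h V γ).2
  · intro h1 γ h2 h3
    exact congrFun h1 ⟨γ, h2⟩

theorem E_one (h : TWD j p θ e q r E U μ π) : E 1 = θ 1 := by
  rw [← h.Ee, map_one]

/-- Lifts of the elements of `U`. -/
theorem exists_z (hc : ClG j c p) (h : TWD j p θ e q r E U μ π) {s : L} (hs : s ∈ U) :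
    ∃ z : Γ, r z = 1 ∧ q z = s := by
  obtain ⟨γ, rfl⟩ := h.qs s
  have h1 : p (r γ) = 1 := by
    rw [← h.πq, h.πk]
    exact hs
  obtain ⟨a, ha⟩ := (hc.ker (r γ)).mp h1
  refine ⟨γ * (e a)⁻¹, ?_, ?_⟩
  · rw [map_mul, map_inv, h.re, ha, mul_inv_cancel]
  · rw [map_mul, map_inv, q_e h, inv_one, mul_one]

/-- From `L` to `T`. -/
theorem down (hc : ClG j c p) (h : TWD j p θ e q r E U μ π) (hθ : IsIrr θ) (V : Subgroup K)
    {η : ↥(V.comap π) → ℂ} (hη : IsIrr η) (hU : OvL U μ _ η) :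
    ∃ ψ : ↥(V.comap p) → ℂ, IsIrr ψ ∧ ip (fun a : A => ext0 ψ (j a)) θ ≠ 0 ∧
      Cor p q r E π V ψ η := by
  classical
  have hfG : Fintype (GV p r V) := Fintype.ofFinite _
  have hfL : Fintype ↥(V.comap π) := Fintype.ofFinite _
  have hfT : Fintype ↥(V.comap p) := Fintype.ofFinite _
  obtain ⟨g1, -, -⟩ := gall A (GV p r V) ↥(V.comap π) (eV h V) _ (qV h V) (clG_V hc h V)
    (qV_surj h V) θ (fun γ => E (γ : Γ)) hθ (h.Ec.comp (GV p r V).subtype) (fun a => h.Ee a)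
  obtain ⟨g2, g3⟩ := g1 η hη
  have h1 : ∀ z : (rV p r V).ker, (fun γ : GV p r V => E (γ : Γ) * η (qV h V γ)) z =
      E 1 * η 1 := by
    intro z
    have hz1 : r ((z : GV p r V) : Γ) = 1 := by
      have := congrArg Subtype.val (MonoidHom.mem_ker.mp z.2)
      exact this
    have hz2 : q ((z : GV p r V) : Γ) ∈ U := by
      rw [← h.πk, h.πq, hz1, map_one]
    have h2 := h.El ((z : GV p r V) : Γ) 1 hz2 hz1
    rw [mul_one] at h2
    have h3 := hU (qV h V z) 1 hz2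
    rw [mul_one] at h3
    show E ((z : GV p r V) : Γ) * η (qV h V z) = E 1 * η 1
    rw [h3, ← h2]
    have h4 : μ ⟨((qV h V z : ↥(V.comap π)) : L), hz2⟩ = μ ⟨q ((z : GV p r V) : Γ), hz2⟩ := rfl
    rw [h4]
    ring
  have hne : E 1 * η 1 ≠ 0 := by
    rw [E_one h]
    exact mul_ne_zero hθ.one_ne_zero hη.one_ne_zero
  obtain ⟨ψ, hψ, hψ2⟩ := QB.defl (rV_surj h V) g2 (by
    rw [Finset.sum_congr rfl fun z _ => h1 z, Finset.sum_const, nsmul_eq_mul]
    refine mul_ne_zero ?_ hne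
    rw [Finset.card_univ, ← Nat.card_eq_fintype_card]
    exact_mod_cast Nat.card_pos.ne')
  refine ⟨ψ, hψ, ?_, ?_⟩
  · rw [ext0_j h V ψ]
    have h5 : (fun γ => ψ (rV p r V γ)) = fun γ : GV p r V => E (γ : Γ) * η (qV h V γ) := by
      funext γ
      exact (hψ2 γ).symm
    rw [h5]
    exact g3
  · rw [cor_iff h]
    funext γ
    exact (hψ2 γ).symm

/-- From `T` to `L`. -/
theorem up (hc : ClG j c p) (h : TWD j p θ e q r E U μ π) (hθ : IsIrr θ) (V : Subgroup K)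
    {ψ : ↥(V.comap p) → ℂ} (hψ : IsIrr ψ) (hne : ip (fun a : A => ext0 ψ (j a)) θ ≠ 0) :
    ∃ η : ↥(V.comap π) → ℂ, IsIrr η ∧ OvL U μ _ η ∧ Cor p q r E π V ψ η := by
  classical
  have hfG : Fintype (GV p r V) := Fintype.ofFinite _
  have hfL : Fintype ↥(V.comap π) := Fintype.ofFinite _
  have hfT : Fintype ↥(V.comap p) := Fintype.ofFinite _
  obtain ⟨-, -, g1⟩ := gall A (GV p r V) ↥(V.comap π) (eV h V) _ (qV h V) (clG_V hc h V)
    (qV_surj h V) θ (fun γ => E (γ : Γ)) hθ (h.Ec.comp (GV p r V).subtype) (fun a => h.Ee a)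
  obtain ⟨η, hη, he⟩ := g1 (fun γ => ψ (rV p r V γ)) (QB.infl (rV_surj h V) hψ) (by
    rw [← ext0_j h V ψ]
    exact hne)
  refine ⟨η, hη, ?_, (cor_iff h V ψ η).mpr he⟩
  intro s t hs
  -- the central element acts as a scalar
  obtain ⟨k, hk⟩ := central hη (z := s) (by
    intro g
    apply Subtype.ext
    have h1 := Subgroup.mem_center_iff.mp (h.Uc hs) (g : L)
    exact h1.symm)
  obtain ⟨z, hz1, hz2⟩ := exists_z hc h hs
  have hzV : z ∈ GV p r V := by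
    show p (r z) ∈ V
    rw [hz1, map_one]
    exact V.one_mem
  have h2 := congrFun he ⟨z, hzV⟩
  have h3 := congrFun he 1
  have h4 : rV p r V ⟨z, hzV⟩ = 1 := Subtype.ext hz1
  have h5 : qV h V ⟨z, hzV⟩ = s := Subtype.ext hz2
  have h6 : qV h V 1 = 1 := map_one _
  have h7 : rV p r V 1 = 1 := map_one _
  simp only [h4, h5] at h2
  simp only [h6, h7] at h3
  have h8 : E ((1 : GV p r V) : Γ) = E 1 := rfl
  rw [h8] at h3
  have hqz : q z ∈ U := by
    rw [hz2]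
    exact hs
  have h9 := h.El z 1 hqz hz1
  rw [mul_one] at h9
  have h10 : η s = k * η 1 := by
    have := hk 1
    rwa [mul_one] at this
  have hE1 : E 1 ≠ 0 := by
    rw [E_one h]
    exact hθ.one_ne_zero
  have hη1 := hη.one_ne_zero
  have hEz : E z ≠ 0 := by
    intro h0
    rw [h0, mul_zero] at h9
    exact hE1 h9.symm
  have h11 : (μ ⟨q z, hqz⟩ : ℂˣ) = μ ⟨(s : L), hs⟩ := by
    congr 1
    exact Subtype.ext hz2
  rw [h11] at h9
  have h12 : k = ((μ ⟨(s : L), hs⟩ : ℂˣ) : ℂ) := by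
    have h13 : E z * (k * η 1) = E 1 * η 1 := by
      rw [← h10, ← h3, ← h2]
    rw [← h9] at h13
    have h14 : (E z * η 1) * k = (E z * η 1) * ((μ ⟨(s : L), hs⟩ : ℂˣ) : ℂ) := by
      linear_combination h13
    exact mul_left_cancel₀ (mul_ne_zero hEz hη1) h14
  rw [hk t, h12]

end

end TWN

open _root_.Pool.Agent.DPM.TWN in
theorem TWN_thm : Stmt_TWN := by
  classical
  intro A T K Γ L _ _ _ _ _ _ _ _ _ _ ℓ _ j c p hc hp θ hθ hinv e q r E U μ π h V
  have hfG : Fintype (GV p r V) := Fintype.ofFinite _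
  have hfL : Fintype ↥(V.comap π) := Fintype.ofFinite _
  have hfT : Fintype ↥(V.comap p) := Fintype.ofFinite _
  obtain ⟨g0, g1, -⟩ := gall A (GV p r V) ↥(V.comap π) (eV h V) _ (qV h V) (clG_V hc h V)
    (qV_surj h V) θ (fun γ => E (γ : Γ)) hθ (h.Ec.comp (GV p r V).subtype) (fun a => h.Ee a)
  have hT := card_T hc hp V
  have hL := card_L h V
  have uniq1 : ∀ (ψ ψ' : ↥(V.comap p) → ℂ) (η : ↥(V.comap π) → ℂ), Cor p q r E π V ψ η →
      Cor p q r E π V ψ' η → ψ = ψ' := by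
    intro ψ ψ' η h1 h2
    rw [cor_iff h] at h1 h2
    rw [← h2] at h1
    funext t
    obtain ⟨γ, rfl⟩ := rV_surj h V t
    exact congrFun h1 γ
  have uniq2 : ∀ (ψ : ↥(V.comap p) → ℂ) (η η' : ↥(V.comap π) → ℂ), IsIrr η → IsIrr η' →
      Cor p q r E π V ψ η → Cor p q r E π V ψ η' → η = η' := by
    intro ψ η η' hη hη' h1 h2
    rw [cor_iff h] at h1 h2
    exact g1 η η' hη hη' (h1.symm.trans h2)
  refine ⟨hT, hL, fun η hη hU => down hc h hθ V hη hU, fun ψ hψ hne => up hc h hθ V hψ hne,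
    uniq1, uniq2, ?_, ?_⟩
  · rintro ψ η a d d' hη hcor ⟨n0, hn0, hv0⟩ ⟨n1, hn1, hv1⟩ ⟨n2, hn2, hv2⟩
    have h1 : ψ 1 = E 1 * η 1 := by
      rw [cor_iff h] at hcor
      have h2 := congrFun hcor 1
      simp only [map_one] at h2
      exact h2
    rw [hn1, hn2, E_one h, hn0] at h1
    have h2 : n1 = n0 * n2 := by exact_mod_cast h1
    have hn0' : n0 ≠ 0 := by
      rintro rfl
      apply hθ.one_ne_zero
      rw [hn0, Nat.cast_zero]
    have hn2' : n2 ≠ 0 := by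
      rintro rfl
      apply hη.one_ne_zero
      rw [hn2, Nat.cast_zero]
    rw [h2, hT, padicValNat.mul Nat.card_pos.ne' Nat.card_pos.ne', padicValNat.mul hn0' hn2']
      at hv1
    rw [hL, padicValNat.mul Nat.card_pos.ne' Nat.card_pos.ne'] at hv2
    omega
  · intro P Q hPQ
    have hch : ∀ ψ : {ψ : ↥(V.comap p) → ℂ // IsIrr ψ ∧
        ip (fun a : A => ext0 ψ (j a)) θ ≠ 0 ∧ P ψ}, ∃ η : ↥(V.comap π) → ℂ,
        (IsIrr η ∧ OvL U μ _ η ∧ Q η) ∧ Cor p q r E π V ψ.1 η := by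
      rintro ⟨ψ, hψ, hne, hP⟩
      obtain ⟨η, h1, h2, h3⟩ := up hc h hθ V hψ hne
      exact ⟨η, ⟨h1, h2, (hPQ ψ η hψ hne h1 h2 h3).mp hP⟩, h3⟩
    choose f hf1 hf2 using hch
    refine Nat.card_congr (Equiv.ofBijective (fun ψ => ⟨f ψ, hf1 ψ⟩) ⟨?_, ?_⟩)
    · intro ψ ψ' heq
      have h1 : f ψ = f ψ' := congrArg Subtype.val heq
      apply Subtype.ext
      refine uniq1 ψ.1 ψ'.1 (f ψ) (hf2 ψ) ?_
      rw [h1]
      exact hf2 ψ'
    · rintro ⟨η, h1, h2, h3⟩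
      obtain ⟨ψ, h4, h5, h6⟩ := down hc h hθ V h1 h2
      refine ⟨⟨ψ, h4, h5, (hPQ ψ η h4 h5 h1 h2 h6).mpr h3⟩, ?_⟩
      apply Subtype.ext
      exact uniq2 ψ _ η (hf1 _).1 h1 (hf2 ⟨ψ, h4, h5, (hPQ ψ η h4 h5 h1 h2 h6).mpr h3⟩) h6

end Pool.Agent.DPM


end

section

/-!
BETG: twists of the central functions; the class is determined by one member.
-/

namespace Pool.Agent.DPC

open Pool.Agent.DP

open Pool.Agent.Lib_helper13 Representation
open Pool.Agent.Lib_helper13.Dade (pCore DadeHolds)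

namespace BETG

section

variable {G B C : Type} [Group G] [Group B] [Group C]

theorem lam_integral [Finite C] (lam : C →* ℂˣ) (c : C) :
    IsIntegral ℤ (((lam c : ℂˣ) : ℂ)) := by
  have h1 : (((lam c : ℂˣ) : ℂ)) ^ Nat.card C = 1 := by
    rw [← Units.val_pow_eq_pow_val, ← map_pow, pow_card_eq_one', map_one, Units.val_one]
  refine IsIntegral.of_pow (n := Nat.card C) Nat.card_pos ?_
  rw [h1]
  exact isIntegral_one

theorem rho_conj {ι : G →* B} {κ : B →* MulAut G} {ρ : B →* C} (h : ClG ι κ ρ) {t g x : B}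
    (ht : t ∈ ι.range) (hx : x = t * g * t⁻¹) : ρ x = ρ g := by
  have h1 : ρ t = 1 := (h.ker t).mpr ht
  rw [hx, map_mul, map_mul, map_inv, h1, inv_one, mul_one, one_mul]

theorem cjT_integral (T : Subgroup B) (x g : B) : IsIntegral ℤ (cjT T x g) := by
  unfold cjT
  split_ifs
  · exact isIntegral_one
  · exact isIntegral_zero

theorem cjT_conj {T : Subgroup B} {u : B} (hu : u ∈ T) (x g : B) :
    cjT T (u * x * u⁻¹) g = cjT T x g := by
  have h1 : (∃ t ∈ T, u * x * u⁻¹ = t * g * t⁻¹) ↔ ∃ t ∈ T, x = t * g * t⁻¹ := by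
    constructor
    · rintro ⟨t, ht, h⟩
      refine ⟨u⁻¹ * t, T.mul_mem (T.inv_mem hu) ht, ?_⟩
      have h2 : x = u⁻¹ * (u * x * u⁻¹) * u := by group
      rw [h2, h]
      group
    · rintro ⟨t, ht, h⟩
      refine ⟨u * t, T.mul_mem hu ht, ?_⟩
      rw [h]
      group
  unfold cjT
  by_cases h : ∃ t ∈ T, x = t * g * t⁻¹
  · rw [if_pos h, if_pos (h1.mpr h)]
  · rw [if_neg h, if_neg (fun h' => h (h1.mp h'))]

theorem twist [Fintype G] [Fintype B] [Finite C] (𝔐 : Ideal (integralClosure ℤ ℂ))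
    (hI : Stmt_INTH) {ι : G →* B} {κ : B →* MulAut G} {ρ : B →* C} (h : ClG ι κ ρ)
    (S : Subgroup B) (f : B → ℂ) (hf : IrrOn S f)
    (hf' : IrrOn (S.comap ι) (fun h => f (ι h))) (lam : C →* ℂˣ) (x : B) :
    cgT 𝔐 ι.range (fun y => f y * ((lam (ρ y) : ℂˣ) : ℂ)) x =
      red 𝔐 ((lam (ρ x) : ℂˣ) : ℂ) * cgT 𝔐 ι.range f x := by
  have h1 : ∑ y, cjT ι.range y x * (f y * ((lam (ρ y) : ℂˣ) : ℂ)) =
      ((lam (ρ x) : ℂˣ) : ℂ) * ∑ y, cjT ι.range y x * f y := by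
    rw [Finset.mul_sum]
    refine Finset.sum_congr rfl fun y _ => ?_
    by_cases hy : ∃ t ∈ ι.range, y = t * x * t⁻¹
    · obtain ⟨t, ht, hty⟩ := hy
      rw [rho_conj h ht hty]
      ring
    · have h2 : cjT ι.range y x = 0 := by
        unfold cjT
        rw [if_neg hy]
      rw [h2]
      ring
  have h2 : IsIntegral ℤ ((∑ y, cjT ι.range y x * f y) / f 1) :=
    hI G B C ι κ ρ h S f hf hf' (fun y => cjT ι.range y x) (fun y => cjT_integral _ y x)
      (fun g y => cjT_conj (MonoidHom.mem_range.mpr ⟨g, rfl⟩) y x)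
  show red 𝔐 ((∑ y, cjT ι.range y x * (f y * ((lam (ρ y) : ℂˣ) : ℂ))) /
    (f 1 * ((lam (ρ 1) : ℂˣ) : ℂ))) =
      red 𝔐 ((lam (ρ x) : ℂˣ) : ℂ) * red 𝔐 ((∑ y, cjT ι.range y x * f y) / f 1)
  rw [h1, map_one, map_one, Units.val_one, mul_one, mul_div_assoc,
    red_mul 𝔐 (lam_integral lam (ρ x)) h2]

theorem sub_bet [Fintype G] [Fintype B] [Finite C] (𝔐 : Ideal (integralClosure ℤ ℂ)) {ℓ : ℕ}
    [Fact ℓ.Prime] (hI : Stmt_INTH) (hE : Stmt_EXTAR) {ι : G →* B} {κ : B →* MulAut G}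
    {ρ : B →* C} (h : LocW ℓ ι κ ρ) (σ σ' : Finset (Subgroup G)) (ψ ψ' : G → ℂ)
    (hψ : IrrOn (stb σ) ψ) (hψ' : IrrOn (stb σ') ψ') (L : Subgroup C) (f f' : B → ℂ)
    (hf : ExtL ι κ ρ σ ψ L f) (hf' : ExtL ι κ ρ σ' ψ' L f')
    (he : cgT 𝔐 ι.range f = cgT 𝔐 ι.range f') :
    bet 𝔐 ι κ ρ σ ψ L ⊆ bet 𝔐 ι κ ρ σ' ψ' L := by
  rintro b ⟨f1, hf1, rfl⟩
  have e1 := hE G B C ℓ ι κ ρ h σ ψ hψ L
  have e2 := hE G B C ℓ ι κ ρ h σ' ψ' hψ' L
  obtain ⟨lam, rfl⟩ := e1.2.2.2.2.1 f f1 hf hf1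
  refine ⟨_, e2.2.2.2.1 f' lam hf', ?_⟩
  have r1 : IrrOn ((Stx κ σ ψ ⊓ L.comap ρ).comap ι) (fun g => f (ι g)) := by
    rw [e1.1, funext hf.2]
    exact hψ
  have r2 : IrrOn ((Stx κ σ' ψ' ⊓ L.comap ρ).comap ι) (fun g => f' (ι g)) := by
    rw [e2.1, funext hf'.2]
    exact hψ'
  funext x
  rw [twist 𝔐 hI h.cl _ f hf.1 r1 lam x, twist 𝔐 hI h.cl _ f' hf'.1 r2 lam x, he]

end

end BETG

/-- BETG: twists of the central functions; the class is determined by one member. -/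
theorem BETG_thm (h1 : Stmt_INTH) (h2 : Stmt_EXTAR) : Stmt_BETG := by
  intro G B C _ _ _ _ _ 𝔐 ℓ _ ι κ ρ h
  have : Finite C := Finite.of_surjective ρ h.surj
  refine ⟨fun S f hf hf' lam x => BETG.twist 𝔐 h1 h.cl S f hf hf' lam x, ?_⟩
  intro σ σ' ψ ψ' hψ hψ' L f f' hf hf' he
  exact Set.Subset.antisymm (BETG.sub_bet 𝔐 h1 h2 h σ σ' ψ ψ' hψ hψ' L f f' hf hf' he)
    (BETG.sub_bet 𝔐 h1 h2 h σ' σ ψ' ψ hψ' hψ L f' f hf' hf he.symm)

end Pool.Agent.DPC


end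

section

/-!
# DERP: derivations and relative projectivity
-/

namespace Pool.Agent.DPX

open Pool.Agent.DPB Pool.Agent.DPW Representation

namespace DERP

variable {F H V : Type} [Field F] [Group H] [Fintype H] [AddCommGroup V] [Module F V]

open Classical in
/-- Reindexing of a sum over the subgroup. -/
lemma sum_shift (P : Subgroup H) (p : H) (hp : p ∈ P) (f : H → V →ₗ[F] V) :
    (∑ h, if h ∈ P then f (p * h) else 0) = ∑ h, if h ∈ P then f h else 0 := by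
  rw [← Equiv.sum_comp (Equiv.mulLeft p) fun h => if h ∈ P then f h else 0]
  refine Finset.sum_congr rfl fun h _ => ?_
  have h1 : (Equiv.mulLeft p) h = p * h := rfl
  rw [h1, P.mul_mem_cancel_left hp]

open Classical in
lemma comp_sum_if (P : Subgroup H) (a : V →ₗ[F] V) (f : H → V →ₗ[F] V) :
    a ∘ₗ (∑ h, if h ∈ P then f h else 0) = ∑ h, if h ∈ P then a ∘ₗ f h else 0 := by
  ext v
  simp only [LinearMap.comp_apply, LinearMap.sum_apply, map_sum]
  refine Finset.sum_congr rfl fun h _ => ?_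
  split_ifs with h1
  · rfl
  · simp

open Classical in
lemma sum_if_comp (P : Subgroup H) (a : V →ₗ[F] V) (f : H → V →ₗ[F] V) :
    (∑ h, if h ∈ P then f h else 0) ∘ₗ a = ∑ h, if h ∈ P then f h ∘ₗ a else 0 := by
  ext v
  simp only [LinearMap.comp_apply, LinearMap.sum_apply]
  refine Finset.sum_congr rfl fun h _ => ?_
  split_ifs with h1
  · rfl
  · simp

lemma rho_mul (ρ : Representation F H V) (a b : H) : ρ (a * b) = ρ a ∘ₗ ρ b := by
  rw [map_mul]; rfl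

lemma rho_inv_comp (ρ : Representation F H V) (a : H) : ρ a⁻¹ ∘ₗ ρ a = LinearMap.id := by
  rw [← rho_mul, inv_mul_cancel, map_one]; rfl

lemma rho_comp_inv (ρ : Representation F H V) (a : H) : ρ a ∘ₗ ρ a⁻¹ = LinearMap.id := by
  rw [← rho_mul, mul_inv_cancel, map_one]; rfl

lemma part1 (ρ : Representation F H V) (P : Subgroup H) (δ : H → V →ₗ[F] V) (hδ : IsDer ρ δ)
    (g : V →ₗ[F] V) : ∃ Y : V →ₗ[F] V, ∀ p ∈ P,
      δ p ∘ₗ trS P ρ ρ g = ρ p ∘ₗ Y - Y ∘ₗ ρ p := by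
  classical
  refine ⟨-(∑ q, if q ∈ P then δ q ∘ₗ g ∘ₗ ρ q⁻¹ else 0), fun p hp => ?_⟩
  set S : V →ₗ[F] V := ∑ q, if q ∈ P then δ q ∘ₗ g ∘ₗ ρ q⁻¹ else 0 with hS
  have h1 : ρ p ∘ₗ S = S ∘ₗ ρ p - δ p ∘ₗ trS P ρ ρ g := by
    have e1 : ρ p ∘ₗ S = ∑ q, if q ∈ P then ρ p ∘ₗ δ q ∘ₗ g ∘ₗ ρ q⁻¹ else 0 := by
      rw [hS, comp_sum_if]
    have e2 : S ∘ₗ ρ p = ∑ q, if q ∈ P then δ (p * q) ∘ₗ g ∘ₗ ρ q⁻¹ else 0 := by
      rw [hS, ← sum_shift P p hp, sum_if_comp]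
      refine Finset.sum_congr rfl fun q _ => ?_
      split_ifs with h2
      · rw [mul_inv_rev, rho_mul]
        ext v
        simp only [LinearMap.comp_apply]
        have := LinearMap.congr_fun (rho_inv_comp ρ p) v
        simp only [LinearMap.comp_apply, LinearMap.id_apply] at this
        rw [this]
      · rfl
    have e3 : δ p ∘ₗ trS P ρ ρ g = ∑ q, if q ∈ P then δ p ∘ₗ ρ q ∘ₗ g ∘ₗ ρ q⁻¹ else 0 := by
      unfold trS
      rw [comp_sum_if]
    rw [e1, e2, e3, ← Finset.sum_sub_distrib]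
    refine Finset.sum_congr rfl fun q _ => ?_
    split_ifs with h2
    · rw [hδ p q]
      ext v
      simp
    · simp
  rw [LinearMap.comp_neg, LinearMap.neg_comp, h1]
  abel

lemma part2 (ρ : Representation F H V) (P : Subgroup H) (δ : H → V →ₗ[F] V) (hδ : IsDer ρ δ)
    (g : V →ₗ[F] V) : ∃ Y : V →ₗ[F] V, ∀ p ∈ P,
      trS P ρ ρ g ∘ₗ δ p = ρ p ∘ₗ Y - Y ∘ₗ ρ p := by
  classical
  refine ⟨∑ q, if q ∈ P then ρ q ∘ₗ g ∘ₗ δ q⁻¹ else 0, fun p hp => ?_⟩
  set S : V →ₗ[F] V := ∑ q, if q ∈ P then ρ q ∘ₗ g ∘ₗ δ q⁻¹ else 0 with hS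
  have e1 : ρ p ∘ₗ S = ∑ q, if q ∈ P then ρ q ∘ₗ g ∘ₗ δ (q⁻¹ * p) else 0 := by
    rw [← sum_shift P p hp, hS, comp_sum_if]
    refine Finset.sum_congr rfl fun q _ => ?_
    split_ifs with h2
    · rw [rho_mul, mul_inv_rev, mul_assoc, inv_mul_cancel, mul_one]
      rfl
    · rfl
  have e2 : S ∘ₗ ρ p = ∑ q, if q ∈ P then ρ q ∘ₗ g ∘ₗ δ q⁻¹ ∘ₗ ρ p else 0 := by
    rw [hS, sum_if_comp]
    rfl
  have e3 : trS P ρ ρ g ∘ₗ δ p = ∑ q, if q ∈ P then ρ q ∘ₗ g ∘ₗ ρ q⁻¹ ∘ₗ δ p else 0 := by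
    unfold trS
    rw [sum_if_comp]
    rfl
  rw [e1, e2, e3, ← Finset.sum_sub_distrib]
  refine Finset.sum_congr rfl fun q _ => ?_
  split_ifs with h2
  · rw [hδ q⁻¹ p]
    ext v
    simp
  · simp

lemma part3 (ρ : Representation F H V) (P : Subgroup H) (δ : H → V →ₗ[F] V) (hδ : IsDer ρ δ)
    (α : V →ₗ[F] V) (hα : ∀ p ∈ P, ∀ v, α (ρ p v) = ρ p (α v)) (h1 : trC P ρ ρ α = 1)
    (X : V →ₗ[F] V) (hX : ∀ p ∈ P, δ p = ρ p ∘ₗ X - X ∘ₗ ρ p) :
    ∃ Y : V →ₗ[F] V, ∀ g, δ g = ρ g ∘ₗ Y - Y ∘ₗ ρ g := by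
  classical
  let Fn : H → V →ₗ[F] V := fun t => δ t ∘ₗ α ∘ₗ ρ t⁻¹ - ρ t ∘ₗ X ∘ₗ α ∘ₗ ρ t⁻¹
  have hinv : ∀ (a : H) (v : V), ρ a⁻¹ (ρ a v) = v := fun a v => by
    have := LinearMap.congr_fun (rho_inv_comp ρ a) v
    simpa using this
  have hinv' : ∀ (a : H) (v : V), ρ a (ρ a⁻¹ v) = v := fun a v => by
    have := LinearMap.congr_fun (rho_comp_inv ρ a) v
    simpa using this
  have hF : ∀ t, ∀ p ∈ P, Fn (t * p) = Fn t := by
    intro t p hp
    ext v
    have e1 : ρ (t * p)⁻¹ v = ρ p⁻¹ (ρ t⁻¹ v) := by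
      rw [mul_inv_rev, rho_mul]; rfl
    have e2 : ρ (t * p) (X (α (ρ p⁻¹ (ρ t⁻¹ v)))) = ρ t (ρ p (X (α (ρ p⁻¹ (ρ t⁻¹ v))))) := by
      rw [rho_mul]; rfl
    have e3 : δ (t * p) (α (ρ p⁻¹ (ρ t⁻¹ v))) =
        ρ t (δ p (α (ρ p⁻¹ (ρ t⁻¹ v)))) + δ t (ρ p (α (ρ p⁻¹ (ρ t⁻¹ v)))) := by
      rw [hδ t p]; rfl
    have e4 : ρ p (α (ρ p⁻¹ (ρ t⁻¹ v))) = α (ρ t⁻¹ v) := by
      rw [← hα p hp, hinv']
    have e5 : δ p (α (ρ p⁻¹ (ρ t⁻¹ v))) =
        ρ p (X (α (ρ p⁻¹ (ρ t⁻¹ v)))) - X (α (ρ t⁻¹ v)) := by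
      rw [hX p hp]
      simp only [LinearMap.sub_apply, LinearMap.comp_apply]
      rw [e4]
    simp only [Fn, LinearMap.sub_apply, LinearMap.comp_apply]
    rw [e1, e2, e3, e4, e5, map_sub]
    abel
  let Y0 : V →ₗ[F] V := ∑ q : H ⧸ P, Fn q.out
  have hY : ∀ s, ∑ q : H ⧸ P, Fn (s * q.out) = Y0 := by
    intro s
    have e1 : Y0 = ∑ q : H ⧸ P, Fn (s • q).out := by
      exact (Equiv.sum_comp (MulAction.toPerm s) fun q : H ⧸ P => Fn q.out).symm
    rw [e1]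
    refine Finset.sum_congr rfl fun q _ => ?_
    have e2 : (QuotientGroup.mk (s * q.out) : H ⧸ P) = QuotientGroup.mk (s • q).out := by
      rw [QuotientGroup.out_eq']
      conv_rhs => rw [← QuotientGroup.out_eq' q]
      rfl
    rw [QuotientGroup.eq] at e2
    have e3 := hF (s * q.out) _ e2
    rw [mul_inv_cancel_left] at e3
    exact e3.symm
  refine ⟨-Y0, fun s => ?_⟩
  have h2 : ρ s ∘ₗ Y0 = Y0 ∘ₗ ρ s - δ s := by
    have e1 : ρ s ∘ₗ Y0 = ∑ q : H ⧸ P, ρ s ∘ₗ Fn q.out := by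
      ext v
      simp [Y0, LinearMap.sum_apply]
    have e2 : Y0 ∘ₗ ρ s = ∑ q : H ⧸ P, Fn (s * q.out) ∘ₗ ρ s := by
      rw [← hY s]
      ext v
      simp [LinearMap.sum_apply]
    have e3 : δ s = ∑ q : H ⧸ P, δ s ∘ₗ ρ q.out ∘ₗ α ∘ₗ ρ q.out⁻¹ := by
      have : δ s = δ s ∘ₗ trC P ρ ρ α := by rw [h1]; rfl
      conv_lhs => rw [this]
      unfold trC
      ext v
      simp [LinearMap.sum_apply]
    rw [e1, e2]
    conv_rhs => rw [e3]
    rw [← Finset.sum_sub_distrib]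
    refine Finset.sum_congr rfl fun q _ => ?_
    ext v
    have a1 : ρ (s * q.out)⁻¹ (ρ s v) = ρ q.out⁻¹ v := by
      rw [mul_inv_rev, rho_mul]
      simp only [LinearMap.comp_apply]
      rw [hinv]
    have a2 : ρ (s * q.out) (X (α (ρ q.out⁻¹ v))) = ρ s (ρ q.out (X (α (ρ q.out⁻¹ v)))) := by
      rw [rho_mul]; rfl
    have a3 : δ (s * q.out) (α (ρ q.out⁻¹ v)) =
        ρ s (δ q.out (α (ρ q.out⁻¹ v))) + δ s (ρ q.out (α (ρ q.out⁻¹ v))) := by
      rw [hδ s q.out]; rfl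
    simp only [Fn, LinearMap.sub_apply, LinearMap.comp_apply, map_sub]
    rw [a1, a2, a3]
    abel
  rw [LinearMap.comp_neg, LinearMap.neg_comp, h2]
  abel

end DERP

theorem DERP_thm : Stmt_DERP := by
  intro F H V _ _ _ _ _ ρ P δ hδ
  refine ⟨DERP.part1 ρ P δ hδ, DERP.part2 ρ P δ hδ, ?_⟩
  rintro α hα h1 ⟨X, hX⟩
  exact DERP.part3 ρ P δ hδ α hα h1 X hX

end Pool.Agent.DPX


end
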