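import Mathlib
import Pool.Agent.DAM.C08
import Pool.Agent.DAM.C12
import Pool.Agent.DAM.C17
import Pool.Agent.DAM.C25

/-! Parts: DPC.TWE -/

section

/-!
# TWE: passage to the quotient by a central `ℓ`-subgroup
-/

set_option autoImplicit false
set_option linter.unusedSectionVars false

namespace Pool.Agent.DPC

open Pool.Agent.DP Pool.Agent.Lib_helper13 Representation
open Pool.Agent.Lib_helper13.Dade (pCore DadeHolds dadeSum)

namespace TWE

section Lin

/-- A linear character of an `ℓ`-subgroup which meets the commutator subgroup trivially extends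
to a linear character of `ℓ`-power order. -/
theorem exists_lam {S : Type} [Group S] [Finite S] {ℓ : ℕ} [Fact ℓ.Prime] (K : Subgroup S)
    (hK : IsPGroup ℓ K) (hc : ∀ z ∈ K, z ∈ commutator S → z = 1) (ν : K →* ℂˣ) :
    ∃ lam : S →* ℂˣ, (∀ z : K, lam z = ν z) ∧ ∃ a : ℕ, ∀ x, lam x ^ ℓ ^ a = 1 := by
  classical
  let f : K →* Abelianization S := Abelianization.of.comp K.subtype
  have hf : Function.Injective f := by
    rw [injective_iff_map_eq_one]
    intro z hz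
    have h1 : (z : S) ∈ (Abelianization.of : S →* Abelianization S).ker := hz
    rw [Abelianization.ker_of] at h1
    exact Subtype.ext (hc z z.2 h1)
  obtain ⟨μ, hμ⟩ := MonoidHom.domRestrict_surjective ℂ f.range
    (ν.comp (MonoidHom.ofInjective hf).symm.toMonoidHom)
  have hμ' : ∀ z : K, μ (Abelianization.of (z : S)) = ν z := by
    intro z
    have h1 := DFunLike.congr_fun hμ (MonoidHom.ofInjective hf z)
    have h2 : (ν.comp (MonoidHom.ofInjective hf).symm.toMonoidHom)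
        (MonoidHom.ofInjective hf z) = ν z := by
      change ν ((MonoidHom.ofInjective hf).symm (MonoidHom.ofInjective hf z)) = ν z
      rw [MulEquiv.symm_apply_apply]
    rw [h2] at h1
    exact h1
  have hp : ℓ.Prime := Fact.out
  obtain ⟨a, m, hm, hS⟩ := Nat.exists_eq_pow_mul_and_not_dvd
    (Nat.card_pos (α := S)).ne' ℓ hp.ne_one
  have hcop : Nat.Coprime (ℓ ^ a) m := Nat.Coprime.pow_left _ ((hp.coprime_iff_not_dvd).mpr hm)
  obtain ⟨n, hn1, hn2⟩ := Nat.chineseRemainder hcop 1 0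
  have hz : ∀ z : K, z ^ ℓ ^ a = 1 := by
    intro z
    obtain ⟨b, hb⟩ := (IsPGroup.iff_orderOf.mp hK) z
    apply orderOf_dvd_iff_pow_eq_one.mp
    have h1 : orderOf z ∣ ℓ ^ a * m := by
      rw [← hS]
      exact (orderOf_dvd_natCard z).trans (Subgroup.card_subgroup_dvd_card K)
    have h2 : Nat.Coprime (orderOf z) m := by
      rw [hb]
      exact Nat.Coprime.pow_left _ ((hp.coprime_iff_not_dvd).mpr hm)
    exact h2.dvd_of_dvd_mul_right h1
  refine ⟨(μ.comp Abelianization.of) ^ n, ?_, a, ?_⟩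
  · intro z
    change μ (Abelianization.of (z : S)) ^ n = ν z
    rw [hμ']
    conv_rhs => rw [← pow_one (ν z)]
    rw [pow_eq_pow_iff_modEq]
    refine hn1.of_dvd ?_
    apply orderOf_dvd_of_pow_eq_one
    rw [← map_pow, hz, map_one]
  · intro x
    change (μ (Abelianization.of x) ^ n) ^ ℓ ^ a = 1
    have h1 : m ∣ n := (Nat.modEq_zero_iff_dvd).mp hn2
    obtain ⟨t, rfl⟩ := h1
    rw [← pow_mul, ← map_pow, ← map_pow]
    have h2 : m * t * ℓ ^ a = Nat.card S * t := by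
      rw [hS]
      ring
    rw [h2, pow_mul, pow_card_eq_one', one_pow, map_one, map_one]

end Lin

section Scal

variable {Y K : Type} [Group Y] [Fintype Y] [Group K]

/-- Central elements act by scalars. -/
theorem exists_nu (jK : K →* Y) (hc : ∀ z y, jK z * y = y * jK z) {ψ : Y → ℂ} (hψ : IsIrr ψ) :
    ∃ ν : K →* ℂˣ, ∀ z y, ψ (y * jK z) = ψ y * ((ν z : ℂˣ) : ℂ) := by
  have hψ' := hψ
  obtain ⟨n, ρ, hρ, rfl⟩ := hψ
  have h1 : ∀ z, ∃ c : ℂ, ρ (jK z) = c • LinearMap.id := by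
    intro z
    apply exists_scalar ρ hρ
    intro g x
    rw [← Module.End.mul_apply, ← map_mul, hc, map_mul, Module.End.mul_apply]
  choose c hcz using h1
  have h2 : ∀ z y, ρ.character (y * jK z) = ρ.character y * c z := by
    intro z y
    change LinearMap.trace ℂ _ (ρ (y * jK z)) = LinearMap.trace ℂ _ (ρ y) * c z
    rw [map_mul, hcz]
    have h3 : ρ y * (c z • LinearMap.id : (Fin n → ℂ) →ₗ[ℂ] (Fin n → ℂ)) = c z • ρ y := by
      apply LinearMap.ext
      intro v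
      simp
    rw [h3, map_smul, smul_eq_mul, mul_comm]
  have h4 : ∀ z z', c (z * z') = c z * c z' := by
    intro z z'
    have h5 := h2 (z * z') 1
    rw [map_mul, ← mul_assoc, h2, h2, mul_assoc] at h5
    exact (mul_left_cancel₀ hψ'.one_ne_zero h5).symm
  have h6 : c 1 = 1 := by
    have h5 := h2 1 1
    rw [map_one, mul_one] at h5
    conv_lhs at h5 => rw [← mul_one (ρ.character 1)]
    exact (mul_left_cancel₀ hψ'.one_ne_zero h5).symm
  refine ⟨MonoidHom.toHomUnits { toFun := c, map_one' := h6, map_mul' := h4 }, ?_⟩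
  intro z y
  rw [h2]
  rfl

end Scal

section Count

variable {Y' Y K : Type} [Group Y'] [Fintype Y'] [Group Y] [Fintype Y] [Group K]

theorem card_tw (q : Y' →* Y) (hq : Function.Surjective q) (jK : K →* Y')
    (hK : ∀ y, q y = 1 ↔ ∃ z, jK z = y) (hc : ∀ z y, jK z * y = y * jK z)
    (Lm : (K →* ℂˣ) → (Y' →* ℂˣ)) (hL : ∀ ν z, Lm ν (jK z) = ν z) (P : (Y' → ℂ) → Prop)
    (hP : ∀ ν ψ, IsIrr ψ → (P (fun y => ψ y * ((Lm ν y : ℂˣ) : ℂ)) ↔ P ψ)) :
    Nat.card {ψ : Y' → ℂ // IsIrr ψ ∧ P ψ} =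
      Nat.card (K →* ℂˣ) * Nat.card {ψ : Y → ℂ // IsIrr ψ ∧ P (fun y => ψ (q y))} := by
  classical
  rw [← Nat.card_prod]
  symm
  have hq1 : ∀ z, q (jK z) = 1 := fun z => (hK _).mpr ⟨z, rfl⟩
  let F : (K →* ℂˣ) × {ψ : Y → ℂ // IsIrr ψ ∧ P (fun y => ψ (q y))} →
      {ψ : Y' → ℂ // IsIrr ψ ∧ P ψ} := fun x =>
    ⟨fun y => x.2.1 (q y) * ((Lm x.1 y : ℂˣ) : ℂ), DP.TWR.isIrr_tw (QB.infl hq x.2.2.1) (Lm x.1),
      (hP x.1 _ (QB.infl hq x.2.2.1)).mpr x.2.2.2⟩
  refine Nat.card_congr (Equiv.ofBijective F ⟨?_, ?_⟩)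
  · rintro ⟨ν, ψ, hψ, hψ2⟩ ⟨ν', ψ', hψ', hψ2'⟩ h
    have h1 : ∀ y, ψ (q y) * ((Lm ν y : ℂˣ) : ℂ) = ψ' (q y) * ((Lm ν' y : ℂˣ) : ℂ) := fun y =>
      congrFun (congrArg Subtype.val h) y
    have h2 : ψ 1 = ψ' 1 := by
      have h3 := h1 1
      simpa using h3
    have h3 : ν = ν' := by
      ext z
      have h4 := h1 (jK z)
      rw [hq1, hL, hL, h2] at h4
      exact mul_left_cancel₀ hψ'.one_ne_zero h4
    subst h3
    have h5 : ψ = ψ' := by
      funext y
      obtain ⟨y, rfl⟩ := hq y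
      exact mul_right_cancel₀ (Units.ne_zero _) (h1 y)
    subst h5
    rfl
  · rintro ⟨θ, hθ, hθP⟩
    obtain ⟨ν, hν⟩ := exists_nu jK hc hθ
    have h1 : IsIrr (fun y => θ y * (((Lm ν)⁻¹ y : ℂˣ) : ℂ)) := DP.TWR.isIrr_tw hθ _
    have h2 : (fun y => (fun y => θ y * (((Lm ν)⁻¹ y : ℂˣ) : ℂ)) y * ((Lm ν y : ℂˣ) : ℂ)) = θ := by
      funext y
      have h3 : (((Lm ν)⁻¹ y : ℂˣ) : ℂ) * ((Lm ν y : ℂˣ) : ℂ) = 1 := (Lm ν y).inv_mul
      change θ y * (((Lm ν)⁻¹ y : ℂˣ) : ℂ) * ((Lm ν y : ℂˣ) : ℂ) = θ y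
      rw [mul_assoc, h3, mul_one]
    have h3 : P (fun y => θ y * (((Lm ν)⁻¹ y : ℂˣ) : ℂ)) := by
      rw [← hP ν _ h1, h2]
      exact hθP
    obtain ⟨ψ, hψ, hψ'⟩ := QB.defl hq h1 (by
      have h4 : ∀ n : q.ker, θ n * (((Lm ν)⁻¹ (n : Y') : ℂˣ) : ℂ) = θ 1 := by
        rintro ⟨n, hn⟩
        obtain ⟨z, rfl⟩ := (hK n).mp hn
        have h5 := hν z 1
        rw [one_mul] at h5
        have h6 : (((Lm ν)⁻¹ (jK z) : ℂˣ) : ℂ) = (((ν z)⁻¹ : ℂˣ) : ℂ) := by
          change (((Lm ν (jK z))⁻¹ : ℂˣ) : ℂ) = _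
          rw [hL]
        change θ (jK z) * (((Lm ν)⁻¹ (jK z) : ℂˣ) : ℂ) = θ 1
        rw [h5, h6, mul_assoc, Units.mul_inv, mul_one]
      simp only [h4]
      rw [Finset.sum_const, Finset.card_univ, nsmul_eq_mul]
      exact mul_ne_zero (by exact_mod_cast Fintype.card_ne_zero) hθ.one_ne_zero)
    have h7 : (fun y => θ y * (((Lm ν)⁻¹ y : ℂˣ) : ℂ)) = fun y => ψ (q y) := funext hψ'
    refine ⟨⟨ν, ψ, hψ, by rw [← h7]; exact h3⟩, ?_⟩
    apply Subtype.ext
    change (fun y => ψ (q y) * ((Lm ν y : ℂˣ) : ℂ)) = θ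
    rw [← h2]
    funext y
    rw [← hψ' y]

end Count

section Cen

variable {S H Y' Y : Type} [Group S] [Group H] [Group Y'] [Fintype Y'] [Group Y] [Fintype Y]

theorem wt_pull (π : S →* H) (hπ : Function.Surjective π)
    (hcj : ∀ s s' : S, IsConj s s' → π s = π s' → s = s') (j' : Y' →* S) (j : Y →* H)
    (hj' : Function.Injective j') (hj : Function.Injective j) (q : Y' →* Y)
    (hq : ∀ y, π (j' y) = j (q y)) (hpb : ∀ s y, π s = j y → ∃ y', j' y' = s)
    (ψ : Y → ℂ) (g : S) :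
    wt (fun y => ψ (q y)) (fun y => conjInd (j' y) g) = wt ψ (fun y => conjInd (j y) (π g)) := by
  classical
  rw [wt, wt, map_one]
  congr 1
  rw [← Finset.sum_fiberwise Finset.univ q (fun y => conjInd (j' y) g * ψ (q y))]
  refine Finset.sum_congr rfl fun y _ => ?_
  have h1 : ∑ y' ∈ Finset.univ.filter (fun y' => q y' = y), conjInd (j' y') g * ψ (q y') =
      (∑ y' ∈ Finset.univ.filter (fun y' => q y' = y), conjInd (j' y') g) * ψ y := by
    rw [Finset.sum_mul]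
    refine Finset.sum_congr rfl fun y' hy' => ?_
    rw [(Finset.mem_filter.mp hy').2]
  rw [h1]
  congr 1
  by_cases hc : IsConj (j y) (π g)
  · rw [conjInd, if_pos hc]
    obtain ⟨h, hh⟩ := isConj_iff.mp hc.symm
    obtain ⟨s, rfl⟩ := hπ h
    obtain ⟨y0, hy0⟩ := hpb (s * g * s⁻¹) y (by rw [map_mul, map_mul, map_inv, hh])
    have hy1 : q y0 = y := by
      apply hj
      rw [← hq, hy0, map_mul, map_mul, map_inv, hh]
    have hy2 : IsConj (j' y0) g := by
      rw [hy0]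
      exact (isConj_iff.mpr ⟨s, rfl⟩ : IsConj g (s * g * s⁻¹)).symm
    rw [Finset.sum_eq_single y0]
    · rw [conjInd, if_pos hy2]
    · intro b hb hne
      rw [conjInd, if_neg]
      intro hbc
      apply hne
      apply hj'
      apply hcj _ _ (hbc.trans hy2.symm)
      rw [hq, hq, (Finset.mem_filter.mp hb).2, hy1]
    · intro hn
      exact absurd (Finset.mem_filter.mpr ⟨Finset.mem_univ y0, hy1⟩) hn
  · rw [conjInd, if_neg hc]
    apply Finset.sum_eq_zero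
    intro b hb
    rw [conjInd, if_neg]
    intro hbc
    apply hc
    rw [← (Finset.mem_filter.mp hb).2, ← hq]
    exact MonoidHom.map_isConj π hbc

theorem cen_pull (𝔐 : Ideal (integralClosure ℤ ℂ)) (π : S →* H) (hπ : Function.Surjective π)
    (hcj : ∀ s s' : S, IsConj s s' → π s = π s' → s = s') (j' : Y' →* S) (j : Y →* H)
    (hj' : Function.Injective j') (hj : Function.Injective j) (q : Y' →* Y)
    (hq : ∀ y, π (j' y) = j (q y)) (hpb : ∀ s y, π s = j y → ∃ y', j' y' = s)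
    (ψ : Y → ℂ) (g : S) :
    cen 𝔐 j' (fun y => ψ (q y)) g = cen 𝔐 j ψ (π g) := by
  rw [cen, cen, wt_pull π hπ hcj j' j hj' hj q hq hpb]

theorem cen_tw (𝔐 : Ideal (integralClosure ℤ ℂ)) [h𝔐 : 𝔐.IsPrime] {ℓ : ℕ} [Fact ℓ.Prime]
    (hℓ : (ℓ : integralClosure ℤ ℂ) ∈ 𝔐) (j' : Y' →* S) (lam : S →* ℂˣ) {a : ℕ}
    (hl : ∀ x, lam x ^ ℓ ^ a = 1) {ψ : Y' → ℂ} (hψ : IsIrr ψ) (g : S) :
    cen 𝔐 j' (fun y => ψ y * ((lam (j' y) : ℂˣ) : ℂ)) g = cen 𝔐 j' ψ g := by
  classical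
  have h1 : wt (fun y => ψ y * ((lam (j' y) : ℂˣ) : ℂ)) (fun y => conjInd (j' y) g) =
      ((lam g : ℂˣ) : ℂ) * wt ψ (fun y => conjInd (j' y) g) := by
    rw [wt, wt, map_one, map_one, Units.val_one, mul_one, ← mul_div_assoc, Finset.mul_sum]
    congr 1
    refine Finset.sum_congr rfl fun y _ => ?_
    by_cases hc : IsConj (j' y) g
    · obtain ⟨s, hs⟩ := isConj_iff.mp hc
      have h2 : lam (j' y) = lam g := by
        rw [← hs, map_mul, map_mul, map_inv, mul_comm (lam s), mul_assoc, mul_inv_cancel, mul_one]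
      rw [h2]
      ring
    · rw [conjInd, if_neg hc]
      ring
  have h3 : (((lam g : ℂˣ) : ℂ)) ^ ℓ ^ a = 1 := by
    rw [← Units.val_pow_eq_pow_val, hl, Units.val_one]
  obtain ⟨h4, h5⟩ := red_eq_one_of_pow 𝔐 hℓ h3
  rw [cen, cen, h1, red_mul 𝔐 h4, h5, one_mul]
  apply isIntegral_wt hψ
  · intro x y
    rw [map_mul, map_mul, map_inv]
    exact conjInd_conj _ _ _
  · intro y
    exact isIntegral_conjInd _ _

end Cen

section Main

variable {S H C G1 : Type} [Group S] [Fintype S] [Group H] [Fintype H] [Group C] [Group G1]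

theorem conj_eq {i : G1 →* S} {κ : S →* MulAut G1} {π : S →* H} {ρ : S →* C} (h : ClG i κ ρ)
    (hC : IsCyclic C) (hI : π.ker ⊓ i.range = ⊥) {s s' : S} (hc : IsConj s s')
    (he : π s = π s') : s = s' := by
  obtain ⟨t, ht⟩ := isConj_iff.mp hc
  have hcm : ∀ a b : C, a * b = b * a := by
    have h0 := hC.isMulCommutative
    exact h0.is_comm.comm
  have h1 : s⁻¹ * s' ∈ π.ker ⊓ i.range := by
    rw [Subgroup.mem_inf]
    constructor
    · rw [MonoidHom.mem_ker, map_mul, map_inv, he, inv_mul_cancel]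
    · rw [← h.ker, ← ht]
      simp only [map_mul, map_inv]
      rw [hcm (ρ t) (ρ s)]
      group
  rw [hI, Subgroup.mem_bot] at h1
  exact (inv_mul_eq_one.mp h1)

theorem comm_triv {i : G1 →* S} {κ : S →* MulAut G1} {π : S →* H} {ρ : S →* C} (h : ClG i κ ρ)
    (hC : IsCyclic C) (hI : π.ker ⊓ i.range = ⊥) {z : S} (hz : z ∈ π.ker)
    (hz' : z ∈ commutator S) : z = 1 := by
  have hcm : ∀ a b : C, a * b = b * a := by
    have h0 := hC.isMulCommutative
    exact h0.is_comm.comm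
  have h1 : commutator S ≤ ρ.ker := by
    rw [commutator_def, Subgroup.commutator_le]
    intro a _ b _
    rw [MonoidHom.mem_ker, commutatorElement_def]
    simp only [map_mul, map_inv]
    rw [hcm (ρ a) (ρ b)]
    group
  have h2 : z ∈ π.ker ⊓ i.range := ⟨hz, (h.ker z).mp (h1 hz')⟩
  rwa [hI, Subgroup.mem_bot] at h2

/-- The projection from the inverse image. -/
def qq (π : S →* H) (T : Subgroup H) : T.comap π →* T :=
  (π.comp (T.comap π).subtype).codRestrict T (fun y => y.2)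

theorem qq_surj (π : S →* H) (hπ : Function.Surjective π) (T : Subgroup H) :
    Function.Surjective (qq π T) := by
  rintro ⟨t, ht⟩
  obtain ⟨s, rfl⟩ := hπ t
  exact ⟨⟨s, ht⟩, rfl⟩

theorem card_comap (π : S →* H) (hπ : Function.Surjective π) (T : Subgroup H) :
    Nat.card (T.comap π) = Nat.card π.ker * Nat.card T := by
  rw [← QB.card_eq (qq_surj π hπ T)]
  congr 1
  refine Nat.card_congr ⟨fun x => ⟨x.1.1, ?_⟩, fun x => ⟨⟨x.1, ?_⟩, ?_⟩, ?_, ?_⟩
  · have h1 : qq π T x.1 = 1 := x.2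
    exact congrArg Subtype.val h1
  · rw [Subgroup.mem_comap, MonoidHom.mem_ker.mp x.2]
    exact T.one_mem
  · rw [MonoidHom.mem_ker]
    apply Subtype.ext
    exact MonoidHom.mem_ker.mp x.2
  · intro x
    rfl
  · intro x
    rfl

theorem defect_pull (π : S →* H) (hπ : Function.Surjective π) (T : Subgroup H)
    {ℓ : ℕ} [Fact ℓ.Prime] (ψ : T → ℂ) (e : ℕ) :
    Lib_helper13.HasDefect ℓ (fun y => ψ (qq π T y)) (e + padicValNat ℓ (Nat.card π.ker)) ↔
      Lib_helper13.HasDefect ℓ ψ e := by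
  unfold Lib_helper13.HasDefect
  simp only [map_one]
  rw [card_comap π hπ, padicValNat.mul Nat.card_pos.ne' Nat.card_pos.ne']
  refine exists_congr fun n => and_congr Iff.rfl ?_
  omega

/-- The data at a subgroup. -/
theorem cen_T (𝔐 : Ideal (integralClosure ℤ ℂ)) (π : S →* H) (hπ : Function.Surjective π)
    (hcj : ∀ s s' : S, IsConj s s' → π s = π s' → s = s') (T : Subgroup H)
    (ψ : T → ℂ) (g : S) :
    cen 𝔐 (T.comap π).subtype (fun y => ψ (qq π T y)) g = cen 𝔐 T.subtype ψ (π g) := by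
  refine cen_pull 𝔐 π hπ hcj (T.comap π).subtype T.subtype Subtype.val_injective
    Subtype.val_injective (qq π T) (fun y => rfl) ?_ ψ g
  rintro s ⟨t, ht⟩ h
  exact ⟨⟨s, by rw [Subgroup.mem_comap, h]; exact ht⟩, rfl⟩

theorem cnt_T (𝔐 : Ideal (integralClosure ℤ ℂ)) [h𝔐 : 𝔐.IsPrime] {ℓ : ℕ} [Fact ℓ.Prime]
    (hℓ : (ℓ : integralClosure ℤ ℂ) ∈ 𝔐) (π : S →* H) (hπ : Function.Surjective π)
    (hcj : ∀ s s' : S, IsConj s s' → π s = π s' → s = s')
    (hcm : ∀ z ∈ π.ker, z ∈ commutator S → z = 1) (hp : IsPGroup ℓ π.ker)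
    (hz : π.ker ≤ Subgroup.center S) (T : Subgroup H) (e : ℕ)
    (ω : S → (integralClosure ℤ ℂ) ⧸ 𝔐) :
    cnt 𝔐 ℓ e (T.comap π).subtype ω = Nat.card (π.ker →* ℂˣ) *
      Nat.card {ψ : T → ℂ // IsIrr ψ ∧ (Lib_helper13.HasDefect ℓ (fun y => ψ (qq π T y)) e ∧
        ∀ g, cen 𝔐 T.subtype ψ (π g) = ω g)} := by
  choose lam hlam1 hlam2 using fun ν : π.ker →* ℂˣ => exists_lam π.ker hp hcm ν
  choose a ha using hlam2
  let jK : π.ker →* T.comap π := (π.ker.subtype).codRestrict (T.comap π) (by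
    intro z
    rw [Subgroup.mem_comap]
    have h1 : π (z : S) = 1 := z.2
    change π (z : S) ∈ T
    rw [h1]
    exact T.one_mem)
  rw [cnt, card_tw (qq π T) (qq_surj π hπ T) jK ?_ ?_
    (fun ν => (lam ν).comp (T.comap π).subtype) ?_
    (fun θ => Lib_helper13.HasDefect ℓ θ e ∧ ∀ g, cen 𝔐 (T.comap π).subtype θ g = ω g) ?_]
  · simp only [cen_T 𝔐 π hπ hcj T]
  · intro y
    constructor
    · intro h
      exact ⟨⟨y, congrArg Subtype.val h⟩, rfl⟩
    · rintro ⟨z, rfl⟩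
      apply Subtype.ext
      exact z.2
  · intro z y
    apply Subtype.ext
    exact ((Subgroup.mem_center_iff.mp (hz z.2)) (y : S)).symm
  · intro ν z
    exact hlam1 ν z
  · intro ν ψ hψ
    have h1 : ∀ g, cen 𝔐 (T.comap π).subtype
        (fun y => ψ y * ((((lam ν).comp (T.comap π).subtype) y : ℂˣ) : ℂ)) g =
        cen 𝔐 (T.comap π).subtype ψ g := fun g =>
      cen_tw 𝔐 hℓ (T.comap π).subtype (lam ν) (ha ν) hψ g
    simp only [h1]
    unfold Lib_helper13.HasDefect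
    simp only [map_one, Units.val_one, mul_one]

theorem stx_comap {κ1 : H →* MulAut G1} (π : S →* H) (σ : Finset (Subgroup G1)) :
    Stx (κ1.comp π) σ (fun _ => 0) = (Stx κ1 σ (fun _ => 0)).comap π := rfl

end Main

end TWE

/-- TWE: passage to the quotient by a central `ℓ`-subgroup. -/
theorem TWE_thm : Stmt_TWE := by
  intro G1 S H C _ _ _ _ _ _ _ 𝔐 ℓ _ h𝔐 hℓ i κ1 π ρ hcl hcyc hπ hp hz hI
  have h𝔐p : 𝔐.IsPrime := h𝔐.isPrime
  have hcj : ∀ s s' : S, IsConj s s' → π s = π s' → s = s' := fun s s' h1 h2 =>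
    TWE.conj_eq hcl hcyc hI h1 h2
  have hcm : ∀ z ∈ π.ker, z ∈ commutator S → z = 1 := fun z h1 h2 =>
    TWE.comm_triv hcl hcyc hI h1 h2
  constructor
  · intro e ω hne
    obtain ⟨σ0, -, h0⟩ := Finset.exists_ne_zero_of_sum_ne_zero hne
    have h1 : cnt 𝔐 ℓ e ((Stx κ1 σ0 (fun _ => 0)).comap π).subtype ω ≠ 0 := by
      intro h1
      apply h0
      rw [WW, TWE.stx_comap, h1]
      simp
    rw [TWE.cnt_T 𝔐 hℓ π hπ hcj hcm hp hz] at h1
    have h2 := (mul_ne_zero_iff.mp h1).2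
    obtain ⟨⟨⟨ψ, hψ, hd, hω⟩⟩, -⟩ := Nat.card_ne_zero.mp h2
    obtain ⟨e', he'⟩ := hψ.exists_defect (ℓ := ℓ)
    have h3 := (TWE.defect_pull π hπ _ ψ e').mpr he'
    have h4 : e = e' + padicValNat ℓ (Nat.card π.ker) := hd.unique h3
    obtain ⟨ω', hω'⟩ : ∃ ω' : H → (integralClosure ℤ ℂ) ⧸ 𝔐, ω = fun x => ω' (π x) :=
      ⟨cen 𝔐 (Stx κ1 σ0 (fun _ => 0)).subtype ψ, funext fun x => (hω x).symm⟩
    refine ⟨e', ω', ?_, hω'⟩
    intro h5
    apply hne
    have h6 : PSm 𝔐 ℓ (κ1.comp π) e ω =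
        (Nat.card π.ker * Nat.card (π.ker →* ℂˣ) : ℚ) * PSm 𝔐 ℓ κ1 e' ω' := by
      rw [PSm, PSm, Finset.mul_sum]
      refine Finset.sum_congr rfl fun σ _ => ?_
      rw [WW, WW, TWE.stx_comap, TWE.card_comap π hπ, TWE.cnt_T 𝔐 hℓ π hπ hcj hcm hp hz]
      have h7 : Nat.card {ψ : Stx κ1 σ (fun _ => 0) → ℂ // IsIrr ψ ∧
          (Lib_helper13.HasDefect ℓ (fun y => ψ (TWE.qq π (Stx κ1 σ (fun _ => 0)) y)) e ∧
          ∀ g, cen 𝔐 (Stx κ1 σ (fun _ => 0)).subtype ψ (π g) = ω g)} =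
          cnt 𝔐 ℓ e' (Stx κ1 σ (fun _ => 0)).subtype ω' := by
        rw [cnt]
        apply Nat.card_congr
        apply Equiv.subtypeEquivRight
        intro θ
        refine and_congr Iff.rfl (and_congr ?_ ?_)
        · rw [h4]
          exact TWE.defect_pull π hπ _ θ e'
        · rw [hω']
          constructor
          · intro h8 g
            obtain ⟨g, rfl⟩ := hπ g
            exact h8 g
          · intro h8 g
            exact h8 (π g)
      rw [h7]
      push_cast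
      ring
    rw [h6, h5, mul_zero]
  · intro χ hχ
    refine ⟨QB.infl hπ hχ, ?_⟩
    funext x
    exact TWE.cen_pull 𝔐 π hπ hcj (MonoidHom.id S) (MonoidHom.id H) Function.injective_id
      Function.injective_id π (fun y => rfl) (fun s y _ => ⟨s, rfl⟩) χ x

end Pool.Agent.DPC


end
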