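import Mathlib
import Pool.Agent.DAM.C01
import Pool.Agent.DAM.C08
import Pool.Agent.DAM.C11
import Pool.Agent.DAM.C12
import Pool.Agent.DAM.C14
import Pool.Agent.DAM.C19
import Pool.Agent.DAM.C20
import Pool.Agent.DAM.C23

/-! Parts: DP.CLG, DP.TENS, DP.CLIFFR, DPV.PERCV, DPV.CLIFFV, DPC.PERCR, DPC.CLIFFR, DPC.OUTB, DPB.KB, DPW.SUPB -/

section

/-!
# Dade's conjecture for `G ^ Ω ⋊ R`: counting characters over extendible characters
-/

namespace Pool.Agent.DP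

open Pool.Agent.Lib_helper13 Representation

namespace CLG

section

variable {A Y K : Type} [Group A] [Fintype A] [Group Y] [Fintype Y] [Group K]
  {j : A →* Y} {c : Y →* MulAut A} {p : Y →* K}

omit [Fintype A] [Fintype Y] in
theorem j_mem (hj : ClG j c p) {θ : A → ℂ} (hθ : IsIrr θ) (a : A) : j a ∈ inert c θ := by
  intro b
  have h : c (j a) b = a * b * a⁻¹ := by
    apply hj.inj
    rw [hj.act, map_mul, map_mul, map_inv]
  rw [h, hθ.conj_eq]

/-- The embedding of `A` in the inertia group. -/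
def jS (hj : ClG j c p) {θ : A → ℂ} (hθ : IsIrr θ) : A →* inert c θ :=
  j.codRestrict _ (j_mem hj hθ)

/-- The projection of the inertia group. -/
def qS {θ : A → ℂ} {M : Subgroup K} (h : (inert c θ).map p = M) : inert c θ →* M :=
  (p.comp (inert c θ).subtype).codRestrict M (fun s => by
    rw [← h]
    exact Subgroup.mem_map_of_mem p s.2)

omit [Fintype A] [Fintype Y] in
theorem clG_S (hj : ClG j c p) {θ : A → ℂ} (hθ : IsIrr θ) {M : Subgroup K}
    (h : (inert c θ).map p = M) :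
    ClG (CLG.jS hj hθ) (c.comp (inert c θ).subtype) (qS h) where
  inj := fun _ _ hab => hj.inj (congrArg Subtype.val hab)
  act := fun y a => Subtype.ext (hj.act y a)
  ker := by
    intro y
    constructor
    · intro h1
      have h2 : p (y : Y) = 1 := congrArg Subtype.val h1
      obtain ⟨a, ha⟩ := (hj.ker y).mp h2
      exact ⟨a, Subtype.ext ha⟩
    · rintro ⟨a, rfl⟩
      apply Subtype.ext
      exact (hj.ker (j a)).mpr ⟨a, rfl⟩

omit [Fintype A] [Fintype Y] in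
theorem qS_surj {θ : A → ℂ} {M : Subgroup K} (h : (inert c θ).map p = M) :
    Function.Surjective (qS h) := by
  rintro ⟨m, hm⟩
  rw [← h] at hm
  obtain ⟨s, hs, hsm⟩ := hm
  exact ⟨⟨s, hs⟩, Subtype.ext hsm⟩

omit [Fintype A] [Fintype Y] in
theorem ext0_q {θ : A → ℂ} {M : Subgroup K} (h : (inert c θ).map p = M) (η : M → ℂ)
    (E : inert c θ → ℂ) :
    (fun s : inert c θ => E s * ext0 η (p s)) = fun s => E s * η (qS h s) := by
  funext s
  have hs : p s ∈ M := by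
    rw [← h]
    exact Subgroup.mem_map_of_mem p s.2
  rw [ext0_of_mem η hs]
  rfl

/-- A character over `θ` exists. -/
theorem exists_under (j : A →* Y) {χ : Y → ℂ} (hχ : IsIrr χ) :
    ∃ θ : A → ℂ, IsIrr θ ∧ ip (resj j χ) θ ≠ 0 := by
  by_contra hn
  push Not at hn
  have h := class_fn_expand (resj j χ) (fun g x => (hχ.resj j).conj_eq g x)
  have h1 := congrFun h 1
  have h2 : ∑ θ ∈ irrF A, ip (resj j χ) θ * θ 1 = 0 :=
    Finset.sum_eq_zero fun θ hθ => by rw [hn θ (mem_irrF.mp hθ), zero_mul]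
  rw [h2] at h1
  apply hχ.one_ne_zero
  rw [← h1, resj, map_one]

open Classical in
/-- The characters of `A` under an irreducible character of `Y` form an orbit. -/
theorem sum_inert (h3 : Stmt_SUMM) (hj : ClG j c p) {χ : Y → ℂ} (hχ : IsIrr χ) :
    ∑ θ ∈ (irrF A).filter (fun θ => ip (resj j χ) θ ≠ 0), Nat.card (inert c θ) =
      Nat.card Y := by
  obtain ⟨θ0, h0, h0'⟩ := exists_under j hχ
  obtain ⟨-, hS2, hS3, -⟩ := h3 A Y K j c p hj
  have hmaps : ∀ y ∈ (Finset.univ : Finset Y), (fun a => θ0 (c y a)) ∈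
      (irrF A).filter (fun θ => ip (resj j χ) θ ≠ 0) := by
    intro y _
    rw [Finset.mem_filter]
    refine ⟨mem_irrF.mpr (h0.comp_mulEquiv (c y)), ?_⟩
    rw [hS3 θ0 χ y hχ]
    exact h0'
  rw [Nat.card_eq_fintype_card, ← Finset.card_univ,
    Finset.card_eq_sum_card_fiberwise (f := fun y : Y => fun a => θ0 (c y a)) hmaps]
  refine Finset.sum_congr rfl fun θ hθ => ?_
  obtain ⟨hθ1, hθ2⟩ := Finset.mem_filter.mp hθ
  obtain ⟨y0, hy0⟩ := hS2 θ0 θ χ h0 (mem_irrF.mp hθ1) hχ h0' hθ2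
  have hc : (Finset.univ.filter (fun y : Y => (fun a => θ0 (c y a)) = θ)).card =
      Nat.card {y : Y // (fun a => θ0 (c y a)) = θ} := by
    rw [Nat.card_eq_fintype_card, Fintype.card_subtype]
  rw [hc]
  have key : ∀ y : Y, (fun a => θ0 (c y a)) = θ ↔ y0⁻¹ * y ∈ inert c θ := by
    intro y
    have h1 : ∀ a, θ (c (y0⁻¹ * y) a) = θ0 (c y a) := by
      intro a
      rw [← hy0, ← MulAut.mul_apply, ← map_mul, mul_inv_cancel_left]
    constructor
    · intro h a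
      rw [h1]
      exact congrFun h a
    · intro h
      funext a
      rw [← h1]
      exact h a
  refine Nat.card_congr
    { toFun := fun s => ⟨y0 * s, (key _).mpr (by rw [inv_mul_cancel_left]; exact s.2)⟩
      invFun := fun y => ⟨y0⁻¹ * y, (key _).mp y.2⟩
      left_inv := fun s => Subtype.ext (by simp)
      right_inv := fun y => Subtype.ext (by simp) }

end

end CLG

open _root_.Pool.Agent.DP.CLG in
theorem CLG_thm (h1 : Stmt_GALL) (h2 : Stmt_CCOR) (h3 : Stmt_SUMM) : Stmt_CLG := by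
  classical
  intro A Y K _ _ _ _ _ _ j c p hj L E hE
  -- the facts on one character
  have hone : ∀ θ, IsIrr θ →
      (∀ η : L θ → ℂ, IsIrr η → IsIrr (fun s => E θ s * ext0 η (p s)) ∧
        ip (fun a => ext0 (fun s => E θ s * ext0 η (p s)) (j a)) θ ≠ 0) ∧
      (∀ η η' : L θ → ℂ, IsIrr η → IsIrr η' →
        (fun s : inert c θ => E θ s * ext0 η (p s)) = (fun s => E θ s * ext0 η' (p s)) →
          η = η') ∧
      (∀ ψ : inert c θ → ℂ, IsIrr ψ → ip (fun a => ext0 ψ (j a)) θ ≠ 0 →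
        ∃ η : L θ → ℂ, IsIrr η ∧ ψ = fun s => E θ s * ext0 η (p s)) := by
    intro θ hθ
    obtain ⟨hm, hchr, hres⟩ := hE θ hθ
    letI : Fintype (inert c θ) := Fintype.ofFinite _
    letI : Fintype (L θ) := Fintype.ofFinite _
    have hext : ∀ ψ : inert c θ → ℂ, (fun a => ext0 ψ (j a)) = resj (CLG.jS hj hθ) ψ := by
      intro ψ
      funext a
      rw [ext0_of_mem ψ (j_mem hj hθ a)]
      rfl
    obtain ⟨g1, g2, g3⟩ := h1 A (inert c θ) (L θ) (CLG.jS hj hθ) (c.comp (inert c θ).subtype) (qS hm)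
      (CLG.clG_S hj hθ hm) (qS_surj hm) θ (E θ) hθ hchr (fun a => hres a (j_mem hj hθ a))
    refine ⟨fun η hη => ?_, fun η η' hη hη' h => ?_, fun ψ hψ hψ' => ?_⟩
    · rw [hext, ext0_q hm]
      exact g1 η hη
    · rw [ext0_q hm, ext0_q hm] at h
      exact g2 η η' hη hη' h
    · rw [hext] at hψ'
      obtain ⟨η, hη, h⟩ := g3 ψ hψ hψ'
      refine ⟨η, hη, ?_⟩
      rw [ext0_q hm]
      exact h
  have hfirst : ∀ θ, IsIrr θ → ∀ η : L θ → ℂ, IsIrr η →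
      IsIrr (indc (inert c θ) (fun s => E θ s * ext0 η (p s))) ∧
      ip (resj j (indc (inert c θ) (fun s => E θ s * ext0 η (p s)))) θ ≠ 0 := by
    intro θ hθ η hη
    obtain ⟨ha, hb⟩ := (hone θ hθ).1 η hη
    exact (h2 A Y K j c p hj θ hθ).1 _ ha hb
  refine ⟨hfirst, fun P => ?_⟩
  -- the bijection
  have hbij : ∀ θ, IsIrr θ →
      Nat.card {η : L θ → ℂ // IsIrr η ∧
        P (indc (inert c θ) (fun s => E θ s * ext0 η (p s)))} =
      (((irrF Y).filter P).filter (fun χ => ip (resj j χ) θ ≠ 0)).card := by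
    intro θ hθ
    have hcard : (((irrF Y).filter P).filter (fun χ => ip (resj j χ) θ ≠ 0)).card =
        Nat.card {χ : Y → ℂ // χ ∈ ((irrF Y).filter P).filter
          (fun χ => ip (resj j χ) θ ≠ 0)} := by
      rw [Nat.card_eq_fintype_card, Fintype.card_coe]
    rw [hcard]
    refine Nat.card_congr (Equiv.ofBijective (fun η => ⟨indc (inert c θ)
      (fun s => E θ s * ext0 η.1 (p s)), ?_⟩) ⟨?_, ?_⟩)
    · rw [Finset.mem_filter, Finset.mem_filter, mem_irrF]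
      exact ⟨⟨(hfirst θ hθ η.1 η.2.1).1, η.2.2⟩, (hfirst θ hθ η.1 η.2.1).2⟩
    · intro η η' h
      apply Subtype.ext
      have h' := congrArg Subtype.val h
      refine (hone θ hθ).2.1 η.1 η'.1 η.2.1 η'.2.1 ?_
      exact (h2 A Y K j c p hj θ hθ).2.1 _ _ ((hone θ hθ).1 η.1 η.2.1).1
        ((hone θ hθ).1 η'.1 η'.2.1).1 ((hone θ hθ).1 η.1 η.2.1).2
        ((hone θ hθ).1 η'.1 η'.2.1).2 h'
    · rintro ⟨χ, hχ⟩
      have hχ0 := hχ
      rw [Finset.mem_filter, Finset.mem_filter, mem_irrF] at hχ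
      obtain ⟨⟨hχ1, hχ2⟩, hχ3⟩ := hχ
      obtain ⟨ψ, hψ1, hψ2, hψ3⟩ := (h2 A Y K j c p hj θ hθ).2.2 χ hχ1 hχ3
      obtain ⟨η, hη1, hη2⟩ := (hone θ hθ).2.2 ψ hψ1 hψ2
      refine ⟨⟨η, hη1, ?_⟩, ?_⟩
      · rw [← hη2, hψ3]
        exact hχ2
      · apply Subtype.ext
        change indc (inert c θ) (fun s => E θ s * ext0 η (p s)) = χ
        rw [← hη2, hψ3]
  have hleft : Nat.card {χ : Y → ℂ // IsIrr χ ∧ P χ} = ((irrF Y).filter P).card := by
    rw [← Fintype.card_coe, ← Nat.card_eq_fintype_card]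
    refine Nat.card_congr (Equiv.subtypeEquivRight fun χ => ?_)
    rw [Finset.mem_filter, mem_irrF]
  rw [hleft]
  have hright : ∑ θ ∈ irrF A, (Nat.card (inert c θ) : ℚ) * Nat.card {η : L θ → ℂ // IsIrr η ∧
          P (indc (inert c θ) (fun s => E θ s * ext0 η (p s)))} =
      ∑ θ ∈ irrF A, ∑ χ ∈ (irrF Y).filter P,
        if ip (resj j χ) θ ≠ 0 then (Nat.card (inert c θ) : ℚ) else 0 := by
    refine Finset.sum_congr rfl fun θ hθ => ?_
    rw [hbij θ (mem_irrF.mp hθ), ← Finset.sum_filter, Finset.sum_const, nsmul_eq_mul, mul_comm]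
  rw [hright, Finset.sum_comm]
  have hin : ∀ χ ∈ (irrF Y).filter P, (∑ θ ∈ irrF A,
      if ip (resj j χ) θ ≠ 0 then (Nat.card (inert c θ) : ℚ) else 0) = Nat.card Y := by
    intro χ hχ
    rw [← Finset.sum_filter]
    have := sum_inert h3 hj (mem_irrF.mp (Finset.mem_filter.mp hχ).1)
    exact_mod_cast this
  rw [Finset.sum_congr rfl hin, Finset.sum_const, nsmul_eq_mul, mul_comm]

end Pool.Agent.DP


end

section

/-!
# TENS: matrices of irreducible characters and the extended outer product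
-/

namespace Pool.Agent.DP

open Pool.Agent.Lib_helper13 Representation

namespace TENS

open Finset

theorem exists_MD (G : Type) [Group G] [Fintype G] (S : Subgroup G) (θ : G → ℂ)
    (h : IrrOn S θ) : ∃ m M, MD S θ m M := by
  classical
  obtain ⟨n, ρ, -, hρ⟩ := h.1
  refine ⟨n, fun g i j => if h : g ∈ S ∧ i < n ∧ j < n then
    LinearMap.toMatrix' (ρ ⟨g, h.1⟩) ⟨i, h.2.1⟩ ⟨j, h.2.2⟩ else 0, ?_, ?_, ?_⟩
  · intro i hi j hj
    rw [dif_pos ⟨S.one_mem, hi, hj⟩]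
    have h1 : ρ ⟨1, S.one_mem⟩ = 1 := map_one ρ
    rw [h1]
    change LinearMap.toMatrix' (LinearMap.id : (Fin n → ℂ) →ₗ[ℂ] (Fin n → ℂ)) _ _ = _
    rw [LinearMap.toMatrix'_id, Matrix.one_apply]
    simp [Fin.ext_iff]
  · intro s hs t ht i hi j hj
    rw [dif_pos ⟨S.mul_mem hs ht, hi, hj⟩]
    have h1 : ρ ⟨s * t, S.mul_mem hs ht⟩ = ρ ⟨s, hs⟩ * ρ ⟨t, ht⟩ :=
      map_mul ρ ⟨s, hs⟩ ⟨t, ht⟩
    rw [h1, LinearMap.toMatrix'_mul, Matrix.mul_apply, Finset.sum_range]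
    apply Finset.sum_congr rfl
    intro k _
    rw [dif_pos ⟨hs, hi, k.2⟩, dif_pos ⟨ht, k.2, hj⟩]
  · intro s hs
    have h1 : θ s = ρ.character ⟨s, hs⟩ := by rw [hρ]
    rw [h1]
    change LinearMap.trace ℂ (Fin n → ℂ) (ρ ⟨s, hs⟩) = _
    rw [LinearMap.trace_eq_matrix_trace ℂ (Pi.basisFun ℂ (Fin n)), Matrix.trace,
      Finset.sum_range]
    apply Finset.sum_congr rfl
    intro k _
    rw [dif_pos ⟨hs, k.2, k.2⟩]
    rfl

section

variable {L O G : Type} [Group L] [Finite L] [MulAction L O] [Fintype O] [DecidableEq O] [Group G]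
    [Fintype G] (S : O → Subgroup G) (hS : ∀ (l : L) o, S (l • o) = S o) (θ : O → G → ℂ)
    (m : O → ℕ) (M : O → G → ℕ → ℕ → ℂ)

/-- the index type -/
abbrev Ix (m : O → ℕ) : Type := {f // f ∈ Fintype.piFinset (fun o => Finset.range (m o))}

/-- the matrix of an element -/
noncomputable def AM (y : stdS (L := L) S hS) : Matrix (Ix m) (Ix m) ℂ := fun f f' =>
  ∏ o, M o ((y : Gam L O G).left o) ((f : O → ℕ) o)
    ((f' : O → ℕ) ((y : Gam L O G).right⁻¹ • o))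

theorem AM_one (hMD : ∀ o, MD (S o) (θ o) (m o) (M o)) : AM S hS m M 1 = 1 := by
  ext f f'
  have hf := Fintype.mem_piFinset.1 f.2
  have hf' := Fintype.mem_piFinset.1 f'.2
  rw [AM, Matrix.one_apply]
  have h1 : ∀ o : O, M o (((1 : stdS (L := L) S hS) : Gam L O G).left o) ((f : O → ℕ) o)
      ((f' : O → ℕ) (((1 : stdS (L := L) S hS) : Gam L O G).right⁻¹ • o)) =
      if (f : O → ℕ) o = (f' : O → ℕ) o then 1 else 0 := by
    intro o
    have h2 : (((1 : stdS (L := L) S hS) : Gam L O G).right⁻¹ • o) = o := by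
      change ((1 : L)⁻¹ • o) = o
      rw [inv_one, one_smul]
    rw [h2]
    exact (hMD o).one _ (Finset.mem_range.1 (hf o)) _ (Finset.mem_range.1 (hf' o))
  rw [Finset.prod_congr rfl (fun o _ => h1 o)]
  by_cases h : f = f'
  · subst h
    simp
  · rw [if_neg h]
    have h3 : ∃ o, (f : O → ℕ) o ≠ (f' : O → ℕ) o := by
      by_contra hcon
      push Not at hcon
      exact h (Subtype.ext (funext hcon))
    obtain ⟨o, ho⟩ := h3
    exact Finset.prod_eq_zero (Finset.mem_univ o) (if_neg ho)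

theorem AM_mul (hm : ∀ (l : L) o, m (l • o) = m o) (hM : ∀ (l : L) o, M (l • o) = M o)
    (hMD : ∀ o, MD (S o) (θ o) (m o) (M o)) (y z : stdS (L := L) S hS) :
    AM S hS m M (y * z) = AM S hS m M y * AM S hS m M z := by
  ext f f''
  have hf := Fintype.mem_piFinset.1 f.2
  have hf'' := Fintype.mem_piFinset.1 f''.2
  rw [Matrix.mul_apply]
  set k : L := (y : Gam L O G).right with hk
  set l : L := (z : Gam L O G).right with hl
  -- the entries of the product, one coordinate at a time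
  have h1 : AM S hS m M (y * z) f f'' = ∏ o, ∑ g ∈ Finset.range (m o),
      M o ((y : Gam L O G).left o) ((f : O → ℕ) o) g *
        M o ((z : Gam L O G).left (k⁻¹ • o)) g ((f'' : O → ℕ) (l⁻¹ • k⁻¹ • o)) := by
    rw [AM]
    apply Finset.prod_congr rfl
    intro o _
    have e1 : ((y * z : stdS (L := L) S hS) : Gam L O G).left o =
        (y : Gam L O G).left o * (z : Gam L O G).left (k⁻¹ • o) := rfl
    have e2 : (((y * z : stdS (L := L) S hS) : Gam L O G).right)⁻¹ • o = l⁻¹ • k⁻¹ • o := by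
      change (k * l)⁻¹ • o = _
      rw [mul_inv_rev, mul_smul]
    rw [e1, e2]
    have hz : (z : Gam L O G).left (k⁻¹ • o) ∈ S o := by
      have := z.2 (k⁻¹ • o)
      rwa [hS] at this
    have hr : (f'' : O → ℕ) (l⁻¹ • k⁻¹ • o) < m o := by
      have := Finset.mem_range.1 (hf'' (l⁻¹ • k⁻¹ • o))
      rwa [hm, hm] at this
    exact (hMD o).mul _ (y.2 o) _ hz _ (Finset.mem_range.1 (hf o)) _ hr
  rw [h1, Finset.prod_univ_sum]
  -- the sum over the intermediate functions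
  have h2 : ∀ f' : Ix m, AM S hS m M y f f' * AM S hS m M z f' f'' =
      ∏ o, (M o ((y : Gam L O G).left o) ((f : O → ℕ) o) ((f' : O → ℕ) (k⁻¹ • o)) *
        M o ((z : Gam L O G).left (k⁻¹ • o)) ((f' : O → ℕ) (k⁻¹ • o))
          ((f'' : O → ℕ) (l⁻¹ • k⁻¹ • o))) := by
    intro f'
    rw [Finset.prod_mul_distrib]
    congr 1
    rw [AM]
    symm
    refine (Fintype.prod_equiv (MulAction.toPerm k⁻¹) _ _ ?_)
    intro o
    change _ = M (k⁻¹ • o) _ _ _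
    rw [hM]
    rfl
  rw [Finset.sum_congr rfl (fun f' _ => h2 f')]
  -- reindex
  refine (Finset.sum_bij' (fun (f' : Ix m) _ => fun o => (f' : O → ℕ) (k⁻¹ • o))
    (fun g hg => (⟨fun o => g (k • o), ?_⟩ : Ix m)) ?_ ?_ ?_ ?_ ?_).symm
  · rw [Fintype.mem_piFinset] at hg ⊢
    intro o
    have := hg (k • o)
    rwa [hm] at this
  · intro f' _
    rw [Fintype.mem_piFinset]
    intro o
    have := Fintype.mem_piFinset.1 f'.2 (k⁻¹ • o)
    rwa [hm] at this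
  · intro g _
    exact Finset.mem_univ _
  · intro f' _
    apply Subtype.ext
    funext o
    change (f' : O → ℕ) (k⁻¹ • k • o) = _
    rw [inv_smul_smul]
  · intro g _
    funext o
    change g (k • k⁻¹ • o) = _
    rw [smul_inv_smul]
  · intro f' _
    rfl

end

end TENS

open _root_.Pool.Agent.DP.TENS in
theorem TENS_thm : Stmt_TENS := by
  refine ⟨exists_MD, ?_⟩
  intro L O G _ _ _ _ _ _ _ S hS θ m M hm hM hMD
  constructor
  · let A : stdS (L := L) S hS →* Matrix (Ix m) (Ix m) ℂ :=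
      { toFun := AM S hS m M
        map_one' := AM_one S hS θ m M hMD
        map_mul' := AM_mul S hS θ m M hm hM hMD }
    let ρ : Representation ℂ (stdS (L := L) S hS) (Ix m → ℂ) :=
      ((Matrix.toLinAlgEquiv' : Matrix (Ix m) (Ix m) ℂ ≃ₐ[ℂ] _) :
        Matrix (Ix m) (Ix m) ℂ →* ((Ix m → ℂ) →ₗ[ℂ] (Ix m → ℂ))).comp A
    have h1 := isChr_of_rep ρ
    have h2 : ρ.character = fun y : stdS (L := L) S hS =>
        TH m M (MulAction.toPerm (y : Gam L O G).right) (y : Gam L O G).left := by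
      funext y
      change LinearMap.trace ℂ (Ix m → ℂ) (Matrix.toLin' (AM S hS m M y)) = _
      rw [Matrix.trace_toLin'_eq, Matrix.trace, TH]
      rw [← Finset.sum_coe_sort (Fintype.piFinset fun o => Finset.range (m o))]
      rfl
    rwa [h2] at h1
  · intro n hn
    rw [TH]
    have h1 : ∀ o, θ o (n o) = ∑ i ∈ Finset.range (m o), M o (n o) i i :=
      fun o => (hMD o).tr _ (hn o)
    rw [Finset.prod_congr rfl (fun o _ => h1 o), Finset.prod_univ_sum]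
    apply Finset.sum_congr rfl
    intro f _
    apply Finset.prod_congr rfl
    intro o _
    rw [inv_one, Equiv.Perm.one_apply]

end Pool.Agent.DP


end

section

/-!
# Module CLIFFR: Clifford theory for the stabilizers of the chains of the base group
-/

namespace Pool.Agent.DP

open Pool.Agent.Lib_helper13 Representation

namespace CLIFFR

theorem clg : Stmt_CLG :=
  CLG_thm (GALL_thm COSET_thm SUMM_thm) (CCOR_thm IND_thm SUMM_thm) SUMM_thm

/-- Chains, characters and standard data. -/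
structure Dat (O G B : Type) [Group G] [Group B] where
  τ : Finset (Subgroup (O → G))
  θ : O → G → ℂ
  g : O → B
  S : O → Subgroup B
  f : O → B → ℂ
  m : O → ℕ
  M : O → B → ℕ → ℕ → ℂ

section Main

variable {O G B C Y K X : Type} [Fintype O] [DecidableEq O] [Group G] [Fintype G] [Group B]
    [Fintype B] [Group C] [Group Y] [Fintype Y] [Group K] [Finite K] [Group X]

/-- Admissible data for the definition of the function of the theorem. -/
def Adm (𝔐 : Ideal (integralClosure ℤ ℂ)) (ℓ : ℕ) (ι : G →* B) (κ : B →* MulAut G)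
    (ρ : B →* C) (p : Y →* K) (φ : Y →* Gam (Equiv.Perm O) O B)
    (rt : Subgroup K → (O → O) × (O → Y)) (J : Subgroup K) (e : ℕ)
    (β : O → Set (B → (integralClosure ℤ ℂ) ⧸ 𝔐)) (q : Dat O G B) : Prop :=
  q.τ ∈ ClCh O G ℓ ∧ (∀ o, IrrOn (stb (comp q.τ o)) (q.θ o)) ∧ KB κ p φ q.τ q.θ = J ∧
    ∑ o, df ℓ (stb (comp q.τ o)) (q.θ o) = e ∧ bts 𝔐 ι κ ρ p φ q.τ q.θ J = β ∧
    StdR ℓ ι κ ρ p φ q.τ q.θ (rt J).1 (rt J).2 q.g q.S q.f q.m q.M

open Classical in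
/-- The function of the theorem. -/
noncomputable def Phi (𝔐 : Ideal (integralClosure ℤ ℂ)) (ℓ d : ℕ) (ι : G →* B)
    (κ : B →* MulAut G) (ρ : B →* C) (p : Y →* K) (φ : Y →* Gam (Equiv.Perm O) O B)
    (rt : Subgroup K → (O → O) × (O → Y)) (i : Y →* X) (ω : X → (integralClosure ℤ ℂ) ⧸ 𝔐)
    (J : Subgroup K) (e : ℕ) (β : O → Set (B → (integralClosure ℤ ℂ) ⧸ 𝔐)) : ℚ :=
  if h : ∃ q, Adm 𝔐 ℓ ι κ ρ p φ rt J e β q then
    NNR 𝔐 ℓ d i ω p φ J e h.choose.g h.choose.S h.choose.f h.choose.m h.choose.M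
  else 0

theorem Phi_eq (h1 : Stmt_EXTAR) (h6 : Stmt_MINDR) (𝔐 : Ideal (integralClosure ℤ ℂ)) (ℓ d : ℕ)
    [Fact ℓ.Prime] (h𝔐 : 𝔐.IsMaximal) (hℓ : (ℓ : integralClosure ℤ ℂ) ∈ 𝔐)
    (ι : G →* B) (κ : B →* MulAut G) (ρ : B →* C) (hL : LocS ℓ ι κ ρ)
    (j : (O → G) →* Y) (p : Y →* K) (φ : Y →* Gam (Equiv.Perm O) O B)
    (hE : ExtS ι κ j p φ) (rt : Subgroup K → (O → O) × (O → Y))
    (i : Y →* X) (ω : X → (integralClosure ℤ ℂ) ⧸ 𝔐)
    {τ : Finset (Subgroup (O → G))} (hτ : τ ∈ ClCh O G ℓ)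
    {θ : O → G → ℂ} (hθ : ∀ o, IrrOn (stb (comp τ o)) (θ o))
    (g : O → B) (S : O → Subgroup B) (f : O → B → ℂ) (m : O → ℕ) (M : O → B → ℕ → ℕ → ℂ)
    (hS : StdR ℓ ι κ ρ p φ τ θ (rt (KB κ p φ τ θ)).1 (rt (KB κ p φ τ θ)).2 g S f m M) :
    Phi 𝔐 ℓ d ι κ ρ p φ rt i ω (KB κ p φ τ θ) (∑ o, df ℓ (stb (comp τ o)) (θ o))
        (bts 𝔐 ι κ ρ p φ τ θ (KB κ p φ τ θ)) =
      NNR 𝔐 ℓ d i ω p φ (KB κ p φ τ θ) (∑ o, df ℓ (stb (comp τ o)) (θ o)) g S f m M := by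
  have h : ∃ q, Adm 𝔐 ℓ ι κ ρ p φ rt (KB κ p φ τ θ) (∑ o, df ℓ (stb (comp τ o)) (θ o))
      (bts 𝔐 ι κ ρ p φ τ θ (KB κ p φ τ θ)) q :=
    ⟨⟨τ, θ, g, S, f, m, M⟩, hτ, hθ, rfl, rfl, rfl, hS⟩
  rw [Phi, dif_pos h]
  obtain ⟨hτ', hθ', hK, -, hb, hS'⟩ := h.choose_spec
  generalize h.choose = q at *
  set J := KB κ p φ τ θ with hJ
  have hsd := hS.sd
  have hsd' := hS'.sd
  have hex := hS.ex
  have hex' := hS'.ex
  rw [← hJ] at hsd hex
  rw [hK] at hsd' hex'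
  refine h6 O G B C Y K X 𝔐 ℓ h𝔐 hℓ ι κ ρ hL j p φ hE J g q.g S q.S f q.f m q.m M q.M hsd hsd'
    (fun o => (hS'.rg o).trans (hS.rg o).symm) ?_ d _ i ω
  intro o
  have hbo := congrFun hb ((rt J).1 o)
  have hm : cgT 𝔐 ι.range (q.f o) ∈ bts 𝔐 ι κ ρ p φ q.τ q.θ J ((rt J).1 o) :=
    ⟨q.f o, hex' o, rfl⟩
  rw [hbo] at hm
  obtain ⟨f1, hf1, hf2⟩ := hm
  obtain ⟨-, -, -, -, h5, -⟩ := h1 G B C ℓ ι κ ρ hL (comp τ ((rt J).1 o)) (θ ((rt J).1 o))
    (hθ _) (vg ρ p φ J ((rt J).1 o))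
  obtain ⟨lam, hlam⟩ := h5 (f o) f1 (hex o) hf1
  refine ⟨lam, ?_⟩
  rw [hf2, hlam]

/-- The property counted. -/
def PP (𝔐 : Ideal (integralClosure ℤ ℂ)) (ℓ d : ℕ) (j : (O → G) →* Y) (i : Y →* X)
    (ω : X → (integralClosure ℤ ℂ) ⧸ 𝔐) (τ : Finset (Subgroup (O → G))) (χ : YS j τ → ℂ) :
    Prop :=
  HasDefect ℓ χ d ∧ ∀ x, cen 𝔐 (i.comp (YS j τ).subtype) χ x = ω x

theorem key (h1 : Stmt_EXTAR) (h2 : Stmt_PERAR) (h4 : Stmt_PERBR) (h5 : Stmt_PERDR)
    (h6 : Stmt_MINDR) (𝔐 : Ideal (integralClosure ℤ ℂ)) (ℓ d : ℕ)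
    [Fact ℓ.Prime] (h𝔐 : 𝔐.IsMaximal) (hℓ : (ℓ : integralClosure ℤ ℂ) ∈ 𝔐)
    (ι : G →* B) (κ : B →* MulAut G) (ρ : B →* C) (hL : LocS ℓ ι κ ρ)
    (j : (O → G) →* Y) (p : Y →* K) (φ : Y →* Gam (Equiv.Perm O) O B)
    (h : ExtS ι κ j p φ) (rt : Subgroup K → (O → O) × (O → Y))
    (hrt : ∀ J, RepJ p φ J (rt J).1 (rt J).2)
    (i : Y →* X) (ω : X → (integralClosure ℤ ℂ) ⧸ 𝔐)
    {τ : Finset (Subgroup (O → G))} (hτ : τ ∈ ClCh O G ℓ) (θ : stb τ → ℂ) :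
    ∃ E : inert (cS h.cl τ) θ → ℂ, IsIrr θ → IsChr E ∧
      (∀ a (ha : jS h.cl τ a ∈ inert (cS h.cl τ) θ), E ⟨jS h.cl τ a, ha⟩ = θ a) ∧
      ∀ θf : O → G → ℂ, (∀ o, IrrOn (stb (comp τ o)) (θf o)) → CLIFF.out τ θf = θ →
        (Nat.card (inert (cS h.cl τ) θ) : ℚ) *
          Nat.card {η : (inert (cS h.cl τ) θ).map (pS p j τ) → ℂ // IsIrr η ∧
            PP 𝔐 ℓ d j i ω τ (indc (inert (cS h.cl τ) θ)
              (fun s => E s * ext0 η (pS p j τ s)))} =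
        (∏ o, (Nat.card (stb (comp τ o)) : ℚ)) *
          Phi 𝔐 ℓ d ι κ ρ p φ rt i ω (KB κ p φ τ θf) (∑ o, df ℓ (stb (comp τ o)) (θf o))
            (bts 𝔐 ι κ ρ p φ τ θf (KB κ p φ τ θf)) := by
  by_cases hθ : IsIrr θ
  · obtain ⟨θf, hθf, rfl⟩ := CLIFF.exists_out IRRPI_thm hτ hθ
    obtain ⟨g, S, f, m, M, hSD⟩ := h4 O G B C Y K ℓ ι κ ρ hL j p φ h τ hτ θf hθf
      (rt (KB κ p φ τ θf)).1 (rt (KB κ p φ τ θf)).2 (hrt _)
    obtain ⟨E, hE, hEx, hcount⟩ := h5 O G B C Y K X 𝔐 ℓ ι κ ρ hL j p φ h τ hτ θf hθf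
      (rt (KB κ p φ τ θf)).1 (rt (KB κ p φ τ θf)).2 g S f m M hSD
    refine ⟨E, fun _ => ⟨hE, hEx, ?_⟩⟩
    intro θg hθg hout
    have hu : θg = θf :=
      (IRRPI_thm O G (fun o => stb (comp τ o)) (stb τ) (stb_closed (mem_ClCh.mp hτ).2)).2.1
        θg θf hθg hθf (fun a => congrFun hout a)
    subst hu
    rw [Phi_eq h1 h6 𝔐 ℓ d h𝔐 hℓ ι κ ρ hL j p φ h rt i ω hτ hθf g S f m M hSD]
    have hmap : (inert (cS h.cl τ) (CLIFF.out τ θg)).map (pS p j τ) = KB κ p φ τ θg :=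
      (h2 O G B C Y K ℓ ι κ ρ hL j p φ h τ hτ θg hθf).2.2.1
    have hT := CLIFF.card_transport (inert (cS h.cl τ) (CLIFF.out τ θg)) (pS p j τ) E
      (PP 𝔐 ℓ d j i ω τ) hmap
    exact (congrArg (fun n : ℕ => (Nat.card (inert (cS h.cl τ) (CLIFF.out τ θg)) : ℚ) * (n : ℚ))
      hT).trans (hcount d i ω)
  · exact ⟨fun _ => 0, fun h => absurd h hθ⟩

end Main

end CLIFFR

open _root_.Pool.Agent.DP.CLIFFR in
theorem CLIFFR_thm (h1 : Stmt_EXTAR) (h2 : Stmt_PERAR) (h3 : Stmt_REPJ) (h4 : Stmt_PERBR)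
    (h5 : Stmt_PERDR) (h6 : Stmt_MINDR) : Stmt_CLIFFR := by
  intro O G B C Y K X _ _ _ _ _ _ _ _ _ _ _ _ 𝔐 ℓ _ h𝔐 hℓ ι κ ρ hL j p φ h d i ω
  have hex : ∀ J : Subgroup K, ∃ rt : (O → O) × (O → Y), RepJ p φ J rt.1 rt.2 := by
    intro J
    obtain ⟨⟨r, t, hr⟩, -⟩ := h3 O G B C Y K ℓ ι κ ρ hL j p φ h J
    exact ⟨(r, t), hr⟩
  choose rt hrt using hex
  refine ⟨Phi 𝔐 ℓ d ι κ ρ p φ rt i ω, ?_, ?_⟩
  · intro τ hτ
    choose E hE using fun θ : stb τ → ℂ =>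
      key h1 h2 h4 h5 h6 𝔐 ℓ d h𝔐 hℓ ι κ ρ hL j p φ h rt hrt i ω hτ θ
    have hC := (clg (stb τ) (YS j τ) K (jS h.cl τ) (cS h.cl τ) (pS p j τ) (clG_S h.cl τ)
      (fun θ => (inert (cS h.cl τ) θ).map (pS p j τ)) E
      (fun θ hθ => ⟨rfl, (hE θ hθ).1, (hE θ hθ).2.1⟩)).2 (PP 𝔐 ℓ d j i ω τ)
    have hI := (IRRPI_thm O G (fun o => stb (comp τ o)) (stb τ) (stb_closed (mem_ClCh.mp hτ).2))
    have h7 : (Nat.card (YS j τ) : ℚ) * cnt 𝔐 ℓ d (i.comp (YS j τ).subtype) ω =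
        (Nat.card (YS j τ) : ℚ) * Nat.card {χ : YS j τ → ℂ // IsIrr χ ∧ PP 𝔐 ℓ d j i ω τ χ} :=
      rfl
    rw [h7, hC, hI.2.2, Finset.mul_sum]
    refine Finset.sum_congr rfl fun θf hθf => ?_
    have hθf' : ∀ o, IrrOn (stb (comp τ o)) (θf o) :=
      fun o => CLIFF.mem_irrOn.mp (Fintype.mem_piFinset.mp hθf o)
    exact (hE (CLIFF.out τ θf) (hI.1 θf hθf')).2.2 θf hθf' rfl
  · intro J e β hne
    have hex : ∃ q, Adm 𝔐 ℓ ι κ ρ p φ rt J e β q := by
      by_contra hcon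
      exact hne (by rw [Phi, dif_neg hcon])
    obtain ⟨⟨τ, θf, g, S, f, m, M⟩, hτ, hθf, hK, he, hb, hSD⟩ := hex
    dsimp only at hτ hθf hK he hb hSD
    subst hK
    subst he
    subst hb
    choose E hE using fun θ : stb τ → ℂ =>
      key h1 h2 h4 h5 h6 𝔐 ℓ d h𝔐 hℓ ι κ ρ hL j p φ h rt hrt i ω hτ θ
    have hC := (clg (stb τ) (YS j τ) K (jS h.cl τ) (cS h.cl τ) (pS p j τ) (clG_S h.cl τ)
      (fun θ => (inert (cS h.cl τ) θ).map (pS p j τ)) E
      (fun θ hθ => ⟨rfl, (hE θ hθ).1, (hE θ hθ).2.1⟩)).1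
    have hI := (IRRPI_thm O G (fun o => stb (comp τ o)) (stb τ) (stb_closed (mem_ClCh.mp hτ).2))
    have hcount := (hE (CLIFF.out τ θf) (hI.1 θf hθf)).2.2 θf hθf rfl
    have hne2 : (∏ o, (Nat.card (stb (comp τ o)) : ℚ)) *
          Phi 𝔐 ℓ d ι κ ρ p φ rt i ω (KB κ p φ τ θf) (∑ o, df ℓ (stb (comp τ o)) (θf o))
            (bts 𝔐 ι κ ρ p φ τ θf (KB κ p φ τ θf)) ≠ 0 := by
      refine mul_ne_zero ?_ hne
      rw [Finset.prod_ne_zero_iff]
      intro o _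
      exact_mod_cast Nat.card_pos.ne'
    rw [← hcount] at hne2
    have hne3 := right_ne_zero_of_mul hne2
    have hne4 : Nat.card {η : (inert (cS h.cl τ) (CLIFF.out τ θf)).map (pS p j τ) → ℂ //
        IsIrr η ∧ PP 𝔐 ℓ d j i ω τ (indc (inert (cS h.cl τ) (CLIFF.out τ θf))
              (fun s => E (CLIFF.out τ θf) s * ext0 η (pS p j τ s)))} ≠ 0 := by
      exact_mod_cast hne3
    have hnonempty := (Nat.card_ne_zero.mp hne4).1
    obtain ⟨η, hη, hP⟩ := hnonempty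
    obtain ⟨hψ1, hψ2⟩ := hC (CLIFF.out τ θf) (hI.1 θf hθf) η hη
    exact ⟨τ, hτ, θf, hθf, rfl, _, hψ1, hP.2, hψ2⟩

end Pool.Agent.DP


end

section

set_option linter.unusedSectionVars false

/-! PERCV: the extension to the inertia group, in terms of standard data (theorem V). -/

namespace Pool.Agent.DPV

open Pool.Agent.DP

open Pool.Agent.Lib_helper13 Representation

namespace PERCV

variable {O G B C Y K : Type} [Fintype O] [DecidableEq O] [Group G] [Fintype G] [Group B]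
  [Fintype B] [Group C] [Group Y] [Fintype Y] [Group K] [Finite K]

theorem zz_mul (φ : Y →* Gam (Equiv.Perm O) O B) (g : O → B) (x y : Y) (o : O) :
    zz φ g (x * y) o = zz φ g x o * zz φ g y ((φ x).right⁻¹ • o) := by
  have h1 : (φ (x * y)).left o = (φ x).left o * (φ y).left ((φ x).right⁻¹ • o) := by
    rw [map_mul]
    rfl
  have h2 : (φ (x * y)).right⁻¹ • o = (φ y).right⁻¹ • (φ x).right⁻¹ • o := by
    rw [map_mul]
    change ((φ x).right * (φ y).right)⁻¹ • o = _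
    rw [mul_inv_rev, mul_smul]
  rw [zz, zz, zz, h1, h2]
  group

theorem zz_one (φ : Y →* Gam (Equiv.Perm O) O B) (g : O → B) (o : O) : zz φ g 1 o = 1 := by
  rw [zz, map_one]
  simp

/-- the first statement -/
theorem mem_iff (hR : Stmt_REPV) (hT : Stmt_TRV) (ℓ : ℕ) [Fact ℓ.Prime]
    (ι : G →* B) (κ : B →* MulAut G) (ρ : B →* C) (hloc : LocV ι κ ρ)
    (j : (O → G) →* Y) (p : Y →* K) (φ : Y →* Gam (Equiv.Perm O) O B) (h : ExtS ι κ j p φ)
    (τ : Finset (Subgroup (O → G))) (θ : O → G → ℂ)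
    (hθ : ∀ o, IrrOn (stb (comp τ o)) (θ o))
    (r : O → O) (t : O → Y) (g : O → B) (S : O → Subgroup B) (f : O → B → ℂ) (m : O → ℕ)
    (M : O → B → ℕ → ℕ → ℂ) (hst : StdV ℓ ι κ ρ p φ τ θ r t g S f m M) (y : Y) :
    (p y ∈ KB κ p φ τ θ ∧ ∀ o, zz φ g y o ∈ S o) ↔ y ∈ InY κ φ τ θ := by
  have hTR := (hT O G B C (⊥ : Ideal (integralClosure ℤ ℂ)) ℓ ι κ ρ hloc τ θ hθ).1
  have hRP := ((hR O G B C Y K ι κ ρ hloc j p φ h (KB κ p φ τ θ)).2.2 r t hst.rp).2.2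
  have key : ∀ y, p y ∈ KB κ p φ τ θ → ∀ o, zz φ g y o ∈ S o ↔
      trB κ τ θ ((φ y).right⁻¹ • o) o ((φ y).left o) := by
    intro y hy o
    have h1 : r ((φ y).right⁻¹ • o) = r o := by
      have h2 := hst.rp.con y hy ((φ y).right⁻¹ • o)
      rw [smul_inv_smul] at h2
      exact h2.symm
    have h3 := hst.tr o
    have h4 := hst.tr ((φ y).right⁻¹ • o)
    rw [h1] at h4
    have h5 : ρ (zz φ g y o) ∈ vg ρ p φ (KB κ p φ τ θ) (r o) := hRP y hy g hst.rg o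
    rw [hst.hS o]
    constructor
    · intro hz
      have h6 := (hTR (r o) (zz φ g y o)).mpr hz.1
      have h7 := (h3.mul h6).mul h4.inv
      have h8 : g o * zz φ g y o * (g ((φ y).right⁻¹ • o))⁻¹ = (φ y).left o := by
        rw [zz]
        group
      rwa [h8] at h7
    · intro hz
      refine ⟨(hTR (r o) (zz φ g y o)).mp ?_, h5⟩
      have h6 := (h3.inv.mul hz).mul h4
      exact h6
  constructor
  · rintro ⟨h1, h2⟩ o
    exact (key y h1 o).mp (h2 o)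
  · intro hy
    have h1 : p y ∈ KB κ p φ τ θ := ⟨y, hy, rfl⟩
    exact ⟨h1, fun o => (key y h1 o).mpr (hy o)⟩

end PERCV

open _root_.Pool.Agent.DPV.PERCV in
theorem PERCV_thm (hA : Stmt_PERAV) (hR : Stmt_REPV) (hT : Stmt_TRV) : Stmt_PERCV := by
  classical
  intro O G B C Y K _ _ _ _ _ _ _ _ _ _ _ ℓ _ ι κ ρ hloc j p φ h τ hτ θ hθ r t g S f m M hst
  have hmem := mem_iff hR hT ℓ ι κ ρ hloc j p φ h τ θ hθ r t g S f m M hst
  refine ⟨hmem, ?_⟩
  obtain ⟨hle, hin, -, -, -⟩ := hA O G B C Y K ℓ ι κ ρ hloc j p φ h τ hτ θ hθ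
  set J := KB κ p φ τ θ with hJ
  set I := inert (cS h.cl τ) (fun a => ∏ o, θ o ((a : O → G) o)) with hI
  -- the group of permutations
  let L : Subgroup (Equiv.Perm O) :=
    (J.comap p).map ((SemidirectProduct.rightHom : Gam (Equiv.Perm O) O B →* Equiv.Perm O).comp φ)
  have hL : ∀ l : L, ∃ y, p y ∈ J ∧ (φ y).right = (l : Equiv.Perm O) := by
    rintro ⟨l, y, hy, rfl⟩
    exact ⟨y, hy, rfl⟩
  have hSS : ∀ (l : L) o, S (l • o) = S o := by
    intro l o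
    obtain ⟨y, hy, hl⟩ := hL l
    have h1 := hst.sd.cS y hy o
    rw [hl] at h1
    exact h1
  have hmm : ∀ (l : L) o, m (l • o) = m o := by
    intro l o
    obtain ⟨y, hy, hl⟩ := hL l
    have h1 := hst.sd.cm y hy o
    rw [hl] at h1
    exact h1
  have hMM : ∀ (l : L) o, M (l • o) = M o := by
    intro l o
    obtain ⟨y, hy, hl⟩ := hL l
    have h1 := hst.sd.cM y hy o
    rw [hl] at h1
    exact h1
  have hTE := TENS_thm.2 L O B S hSS f m M hmm hMM hst.sd.md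
  have hIn : ∀ s : I, ((s : YS j τ) : Y) ∈ InY κ φ τ θ := fun s => (hin s.1).mp s.2
  have hpJ : ∀ s : I, p ((s : YS j τ) : Y) ∈ J := fun s => ((hmem _).mpr (hIn s)).1
  have hzS : ∀ (s : I) (o : O), zz φ g ((s : YS j τ) : Y) o ∈ S o :=
    fun s => ((hmem _).mpr (hIn s)).2
  let Ψ : I →* stdS (L := L) S hSS :=
    { toFun := fun s => ⟨⟨zz φ g ((s : YS j τ) : Y), ⟨(φ ((s : YS j τ) : Y)).right,
        ⟨((s : YS j τ) : Y), hpJ s, rfl⟩⟩⟩, hzS s⟩
      map_one' := by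
        apply Subtype.ext
        apply SemidirectProduct.ext
        · ext o
          exact zz_one φ g o
        · apply Subtype.ext
          change (φ 1).right = 1
          rw [map_one]
          rfl
      map_mul' := by
        intro x y
        apply Subtype.ext
        apply SemidirectProduct.ext
        · ext o
          exact zz_mul φ g _ _ o
        · apply Subtype.ext
          change (φ (((x : YS j τ) : Y) * ((y : YS j τ) : Y))).right = _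
          rw [map_mul]
          rfl }
  let E : I → ℂ := fun s => TH m M (φ ((s : YS j τ) : Y)).right (zz φ g ((s : YS j τ) : Y))
  have hE1 : IsChr E := hTE.1.comp Ψ
  have hE2 : ∀ a (ha : jS h.cl τ a ∈ I), E ⟨jS h.cl τ a, ha⟩ = ∏ o, θ o ((a : O → G) o) := by
    intro a ha
    have hφ : φ (j (a : O → G)) = SemidirectProduct.inl (fun o => ι ((a : O → G) o)) := h.jn _
    have h0 : zz φ g (j (a : O → G)) = fun o => ι (κ (g o)⁻¹ ((a : O → G) o)) := by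
      funext o
      rw [zz, hφ, hloc.cl.act]
      simp
    have h1 : E ⟨jS h.cl τ a, ha⟩ = TH m M 1 (fun o => ι (κ (g o)⁻¹ ((a : O → G) o))) := by
      change TH m M (φ (j (a : O → G))).right (zz φ g (j (a : O → G))) = _
      rw [h0, hφ]
      rfl
    rw [h1, hTE.2]
    · refine Finset.prod_congr rfl fun o _ => ?_
      rw [(hst.ex o).2]
      have h2 := (hst.tr o).2 (κ (g o)⁻¹ ((a : O → G) o))
      rw [← h2, ← MulAut.mul_apply, ← map_mul, mul_inv_cancel, map_one, MulAut.one_apply]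
    · intro o
      have h2 := hzS ⟨jS h.cl τ a, ha⟩ o
      change zz φ g (j (a : O → G)) o ∈ S o at h2
      rwa [h0] at h2
  refine ⟨E, hE1, hE2, ?_⟩
  intro η hη F hF
  have hone : E 1 = ∏ o, f o 1 := by
    have h0 : zz φ g 1 = fun _ => (1 : B) := by
      funext o
      exact zz_one φ g o
    have h1 : E 1 = TH m M 1 (fun _ => (1 : B)) := by
      change TH m M (φ 1).right (zz φ g 1) = _
      rw [h0, map_one]
      rfl
    rw [h1, hTE.2]
    intro o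
    exact (S o).one_mem
  have hext : ext0 η (pS p j τ ((1 : I) : YS j τ)) = η 1 := by
    have h1 : pS p j τ ((1 : I) : YS j τ) = 1 := map_one _
    rw [h1, ext0_of_mem η J.one_mem]
    rfl
  -- both sides are sums over `Y`
  have hsum1 : ∑ s : I, F ((s : YS j τ) : Y) * (E s * ext0 η (pS p j τ s)) =
      ∑ y : Y, if y ∈ InY κ φ τ θ then
        F y * (TH m M (φ y).right (zz φ g y) * ext0 η (p y)) else 0 := by
    rw [← Finset.sum_filter]
    refine Finset.sum_bij' (fun (s : I) _ => ((s : YS j τ) : Y))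
      (fun y hy => ⟨⟨y, hle (Finset.mem_filter.mp hy).2⟩,
        (hin _).mpr (Finset.mem_filter.mp hy).2⟩) ?_ ?_ ?_ ?_ ?_
    · intro s _
      exact Finset.mem_filter.mpr ⟨Finset.mem_univ _, hIn s⟩
    · intro y _
      exact Finset.mem_univ _
    · intro s _
      rfl
    · intro y _
      rfl
    · intro s _
      rfl
  have hsum2 : ∑ k : J, AS p φ g S f m M (k : K) F * η k =
      (∑ y : Y, if y ∈ InY κ φ τ θ then
        F y * (TH m M (φ y).right (zz φ g y) * ext0 η (p y)) else 0) / ∏ o, f o 1 := by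
    have h1 : ∀ k : J, AS p φ g S f m M (k : K) F * η k =
        (∑ y : Y, if p y = k ∧ ∀ o, zz φ g y o ∈ S o then
          F y * (TH m M (φ y).right (zz φ g y) * η k) else 0) / ∏ o, f o 1 := by
      intro k
      rw [AS, div_mul_eq_mul_div, Finset.sum_mul]
      congr 1
      refine Finset.sum_congr rfl fun y _ => ?_
      by_cases hc : p y = k ∧ ∀ o, zz φ g y o ∈ S o
      · rw [if_pos hc, if_pos hc]
        ring
      · rw [if_neg hc, if_neg hc, zero_mul]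
    rw [Finset.sum_congr rfl fun k _ => h1 k, ← Finset.sum_div, Finset.sum_comm]
    congr 1
    refine Finset.sum_congr rfl fun y _ => ?_
    by_cases hy : y ∈ InY κ φ τ θ
    · rw [if_pos hy]
      obtain ⟨hy1, hy2⟩ := (hmem y).mpr hy
      rw [Finset.sum_eq_single (⟨p y, hy1⟩ : J)]
      · rw [if_pos ⟨rfl, hy2⟩, ext0_of_mem η hy1]
      · intro k _ hk
        rw [if_neg]
        rintro ⟨h2, -⟩
        exact hk (Subtype.ext h2.symm)
      · intro h2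
        exact absurd (Finset.mem_univ _) h2
    · rw [if_neg hy]
      refine Finset.sum_eq_zero fun k _ => ?_
      rw [if_neg]
      rintro ⟨h2, h3⟩
      refine hy ((hmem y).mp ⟨?_, h3⟩)
      rw [h2]
      exact k.2
  rw [wt, wt, hsum1, hsum2, hone, hext, div_div]

end Pool.Agent.DPV


end

section

/-!
# Module CLIFFV: Clifford theory for the stabilizers of the chains of the base group
-/

namespace Pool.Agent.DPV

open Pool.Agent.DP

open Pool.Agent.Lib_helper13 Representation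
open Pool.Agent.Lib_helper13.Dade (pCore DadeHolds dadeSum)

namespace CLIFFV

theorem clg : Stmt_CLG :=
  CLG_thm (GALL_thm COSET_thm SUMM_thm) (CCOR_thm IND_thm SUMM_thm) SUMM_thm

/-- Chains, characters and standard data. -/
structure Dat (O G B : Type) [Group G] [Group B] where
  τ : Finset (Subgroup (O → G))
  θ : O → G → ℂ
  g : O → B
  S : O → Subgroup B
  f : O → B → ℂ
  m : O → ℕ
  M : O → B → ℕ → ℕ → ℂ

section Main

variable {O G B C Y K X : Type} [Fintype O] [DecidableEq O] [Group G] [Fintype G] [Group B]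
    [Fintype B] [Group C] [Group Y] [Fintype Y] [Group K] [Finite K] [Group X]

/-- Admissible data for the definition of the function of the theorem. -/
def Adm (𝔐 : Ideal (integralClosure ℤ ℂ)) (ℓ : ℕ) (ι : G →* B) (κ : B →* MulAut G)
    (ρ : B →* C) (p : Y →* K) (φ : Y →* Gam (Equiv.Perm O) O B)
    (rt : Subgroup K → (O → O) × (O → Y)) (J : Subgroup K) (e : ℕ)
    (β : O → Set (B → (integralClosure ℤ ℂ) ⧸ 𝔐)) (q : Dat O G B) : Prop :=
  q.τ ∈ ClCh O G ℓ ∧ (∀ o, IrrOn (stb (comp q.τ o)) (q.θ o)) ∧ KB κ p φ q.τ q.θ = J ∧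
    ∑ o, df ℓ (stb (comp q.τ o)) (q.θ o) = e ∧ bts 𝔐 ι κ ρ p φ q.τ q.θ J = β ∧
    StdV ℓ ι κ ρ p φ q.τ q.θ (rt J).1 (rt J).2 q.g q.S q.f q.m q.M

open Classical in
/-- The function of the theorem. -/
noncomputable def Phi (𝔐 : Ideal (integralClosure ℤ ℂ)) (ℓ d : ℕ) (ι : G →* B)
    (κ : B →* MulAut G) (ρ : B →* C) (p : Y →* K) (φ : Y →* Gam (Equiv.Perm O) O B)
    (rt : Subgroup K → (O → O) × (O → Y)) (i : Y →* X) (ω : X → (integralClosure ℤ ℂ) ⧸ 𝔐)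
    (J : Subgroup K) (e : ℕ) (β : O → Set (B → (integralClosure ℤ ℂ) ⧸ 𝔐)) : ℚ :=
  if h : ∃ q, Adm 𝔐 ℓ ι κ ρ p φ rt J e β q then
    NNR 𝔐 ℓ d i ω p φ J e h.choose.g h.choose.S h.choose.f h.choose.m h.choose.M
  else 0

theorem Phi_eq (h1 : Stmt_EXTV) (h6 : Stmt_MINV) (𝔐 : Ideal (integralClosure ℤ ℂ)) (ℓ d : ℕ)
    [Fact ℓ.Prime] (h𝔐 : 𝔐.IsMaximal) (hℓ : (ℓ : integralClosure ℤ ℂ) ∈ 𝔐)
    (ι : G →* B) (κ : B →* MulAut G) (ρ : B →* C) (hL : LocV ι κ ρ)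
    (j : (O → G) →* Y) (p : Y →* K) (φ : Y →* Gam (Equiv.Perm O) O B)
    (hE : ExtS ι κ j p φ) (rt : Subgroup K → (O → O) × (O → Y))
    (i : Y →* X) (ω : X → (integralClosure ℤ ℂ) ⧸ 𝔐)
    {τ : Finset (Subgroup (O → G))} (hτ : τ ∈ ClCh O G ℓ)
    {θ : O → G → ℂ} (hθ : ∀ o, IrrOn (stb (comp τ o)) (θ o))
    (g : O → B) (S : O → Subgroup B) (f : O → B → ℂ) (m : O → ℕ) (M : O → B → ℕ → ℕ → ℂ)
    (hS : StdV ℓ ι κ ρ p φ τ θ (rt (KB κ p φ τ θ)).1 (rt (KB κ p φ τ θ)).2 g S f m M) :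
    Phi 𝔐 ℓ d ι κ ρ p φ rt i ω (KB κ p φ τ θ) (∑ o, df ℓ (stb (comp τ o)) (θ o))
        (bts 𝔐 ι κ ρ p φ τ θ (KB κ p φ τ θ)) =
      NNR 𝔐 ℓ d i ω p φ (KB κ p φ τ θ) (∑ o, df ℓ (stb (comp τ o)) (θ o)) g S f m M := by
  have h : ∃ q, Adm 𝔐 ℓ ι κ ρ p φ rt (KB κ p φ τ θ) (∑ o, df ℓ (stb (comp τ o)) (θ o))
      (bts 𝔐 ι κ ρ p φ τ θ (KB κ p φ τ θ)) q :=
    ⟨⟨τ, θ, g, S, f, m, M⟩, hτ, hθ, rfl, rfl, rfl, hS⟩
  rw [Phi, dif_pos h]
  obtain ⟨hτ', hθ', hK, -, hb, hS'⟩ := h.choose_spec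
  generalize h.choose = q at *
  set J := KB κ p φ τ θ with hJ
  have hsd := hS.sd
  have hsd' := hS'.sd
  have hex := hS.ex
  have hex' := hS'.ex
  rw [← hJ] at hsd hex
  rw [hK] at hsd' hex'
  refine h6 O G B C Y K X 𝔐 ℓ h𝔐 hℓ ι κ ρ hL j p φ hE J _ g q.g S q.S f q.f m q.m M q.M hsd hsd'
    (fun o => (hS'.rg o).trans (hS.rg o).symm) ?_ d _ i ω
  intro o
  have hbo := congrFun hb ((rt J).1 o)
  have hm : cgT 𝔐 ι.range (q.f o) ∈ bts 𝔐 ι κ ρ p φ q.τ q.θ J ((rt J).1 o) :=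
    ⟨q.f o, hex' o, rfl⟩
  rw [hbo] at hm
  obtain ⟨f1, hf1, hf2⟩ := hm
  obtain ⟨-, h2', -, -, h5, -⟩ := h1 G B C ι κ ρ hL (comp τ ((rt J).1 o)) (θ ((rt J).1 o))
    (hθ _) (vg ρ p φ J ((rt J).1 o))
  obtain ⟨lam, hlin, hlam⟩ := h5 (f o) f1 (hex o) hf1
  have hKL : KL κ ρ (comp τ ((rt J).1 o)) (θ ((rt J).1 o)) (vg ρ p φ J ((rt J).1 o)) =
      vg ρ p φ J ((rt J).1 o) := by
    have hi := hsd.img o
    have hSo := hS.hS o
    rw [← hJ] at hSo
    rw [hSo, h2'] at hi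
    exact hi
  rw [hKL] at hlin
  refine ⟨lam, hlin, ?_⟩
  rw [hf2, hlam]

/-- The property counted. -/
def PP (𝔐 : Ideal (integralClosure ℤ ℂ)) (ℓ d : ℕ) (j : (O → G) →* Y) (i : Y →* X)
    (ω : X → (integralClosure ℤ ℂ) ⧸ 𝔐) (τ : Finset (Subgroup (O → G))) (χ : YS j τ → ℂ) :
    Prop :=
  HasDefect ℓ χ d ∧ ∀ x, cen 𝔐 (i.comp (YS j τ).subtype) χ x = ω x

theorem key (h1 : Stmt_EXTV) (h2 : Stmt_PERAV) (h4 : Stmt_PERBV) (h5 : Stmt_PERDV)
    (h6 : Stmt_MINV) (𝔐 : Ideal (integralClosure ℤ ℂ)) (ℓ d : ℕ)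
    [Fact ℓ.Prime] (h𝔐 : 𝔐.IsMaximal) (hℓ : (ℓ : integralClosure ℤ ℂ) ∈ 𝔐)
    (ι : G →* B) (κ : B →* MulAut G) (ρ : B →* C) (hL : LocV ι κ ρ)
    (j : (O → G) →* Y) (p : Y →* K) (φ : Y →* Gam (Equiv.Perm O) O B)
    (h : ExtS ι κ j p φ) (rt : Subgroup K → (O → O) × (O → Y))
    (hrt : ∀ J, RepJ p φ J (rt J).1 (rt J).2)
    (i : Y →* X) (ω : X → (integralClosure ℤ ℂ) ⧸ 𝔐)
    {τ : Finset (Subgroup (O → G))} (hτ : τ ∈ ClCh O G ℓ) (θ : stb τ → ℂ) :
    ∃ E : inert (cS h.cl τ) θ → ℂ, IsIrr θ → IsChr E ∧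
      (∀ a (ha : jS h.cl τ a ∈ inert (cS h.cl τ) θ), E ⟨jS h.cl τ a, ha⟩ = θ a) ∧
      ∀ θf : O → G → ℂ, (∀ o, IrrOn (stb (comp τ o)) (θf o)) → CLIFF.out τ θf = θ →
        (Nat.card (inert (cS h.cl τ) θ) : ℚ) *
          Nat.card {η : (inert (cS h.cl τ) θ).map (pS p j τ) → ℂ // IsIrr η ∧
            PP 𝔐 ℓ d j i ω τ (indc (inert (cS h.cl τ) θ)
              (fun s => E s * ext0 η (pS p j τ s)))} =
        (∏ o, (Nat.card (stb (comp τ o)) : ℚ)) *
          Phi 𝔐 ℓ d ι κ ρ p φ rt i ω (KB κ p φ τ θf) (∑ o, df ℓ (stb (comp τ o)) (θf o))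
            (bts 𝔐 ι κ ρ p φ τ θf (KB κ p φ τ θf)) := by
  by_cases hθ : IsIrr θ
  · obtain ⟨θf, hθf, rfl⟩ := CLIFF.exists_out IRRPI_thm hτ hθ
    obtain ⟨g, S, f, m, M, hSD⟩ := h4 O G B C Y K ℓ ι κ ρ hL j p φ h τ hτ θf hθf
      (rt (KB κ p φ τ θf)).1 (rt (KB κ p φ τ θf)).2 (hrt _)
    obtain ⟨E, hE, hEx, hcount⟩ := h5 O G B C Y K X 𝔐 ℓ ι κ ρ hL j p φ h τ hτ θf hθf
      (rt (KB κ p φ τ θf)).1 (rt (KB κ p φ τ θf)).2 g S f m M hSD
    refine ⟨E, fun _ => ⟨hE, hEx, ?_⟩⟩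
    intro θg hθg hout
    have hu : θg = θf :=
      (IRRPI_thm O G (fun o => stb (comp τ o)) (stb τ) (stb_closed (mem_ClCh.mp hτ).2)).2.1
        θg θf hθg hθf (fun a => congrFun hout a)
    subst hu
    rw [Phi_eq h1 h6 𝔐 ℓ d h𝔐 hℓ ι κ ρ hL j p φ h rt i ω hτ hθf g S f m M hSD]
    have hmap : (inert (cS h.cl τ) (CLIFF.out τ θg)).map (pS p j τ) = KB κ p φ τ θg :=
      (h2 O G B C Y K ℓ ι κ ρ hL j p φ h τ hτ θg hθf).2.2.1
    have hT := CLIFF.card_transport (inert (cS h.cl τ) (CLIFF.out τ θg)) (pS p j τ) E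
      (PP 𝔐 ℓ d j i ω τ) hmap
    exact (congrArg (fun n : ℕ => (Nat.card (inert (cS h.cl τ) (CLIFF.out τ θg)) : ℚ) * (n : ℚ))
      hT).trans (hcount d i ω)
  · exact ⟨fun _ => 0, fun h => absurd h hθ⟩

end Main

end CLIFFV

open _root_.Pool.Agent.DPV.CLIFFV in
theorem CLIFFV_thm (h1 : Stmt_EXTV) (h2 : Stmt_PERAV) (h3 : Stmt_REPV) (h4 : Stmt_PERBV)
    (h5 : Stmt_PERDV) (h6 : Stmt_MINV) : Stmt_CLIFFV := by
  intro O G B C Y K X _ _ _ _ _ _ _ _ _ _ _ _ 𝔐 ℓ _ h𝔐 hℓ ι κ ρ hL j p φ h d i ω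
  have hex : ∀ J : Subgroup K, ∃ rt : (O → O) × (O → Y), RepJ p φ J rt.1 rt.2 := by
    intro J
    obtain ⟨⟨r, t, hr⟩, -⟩ := h3 O G B C Y K ι κ ρ hL j p φ h J
    exact ⟨(r, t), hr⟩
  choose rt hrt using hex
  refine ⟨Phi 𝔐 ℓ d ι κ ρ p φ rt i ω, ?_, ?_⟩
  · intro τ hτ
    choose E hE using fun θ : stb τ → ℂ =>
      key h1 h2 h4 h5 h6 𝔐 ℓ d h𝔐 hℓ ι κ ρ hL j p φ h rt hrt i ω hτ θ
    have hC := (clg (stb τ) (YS j τ) K (jS h.cl τ) (cS h.cl τ) (pS p j τ) (clG_S h.cl τ)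
      (fun θ => (inert (cS h.cl τ) θ).map (pS p j τ)) E
      (fun θ hθ => ⟨rfl, (hE θ hθ).1, (hE θ hθ).2.1⟩)).2 (PP 𝔐 ℓ d j i ω τ)
    have hI := (IRRPI_thm O G (fun o => stb (comp τ o)) (stb τ) (stb_closed (mem_ClCh.mp hτ).2))
    have h7 : (Nat.card (YS j τ) : ℚ) * cnt 𝔐 ℓ d (i.comp (YS j τ).subtype) ω =
        (Nat.card (YS j τ) : ℚ) * Nat.card {χ : YS j τ → ℂ // IsIrr χ ∧ PP 𝔐 ℓ d j i ω τ χ} :=
      rfl
    rw [h7, hC, hI.2.2, Finset.mul_sum]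
    refine Finset.sum_congr rfl fun θf hθf => ?_
    have hθf' : ∀ o, IrrOn (stb (comp τ o)) (θf o) :=
      fun o => CLIFF.mem_irrOn.mp (Fintype.mem_piFinset.mp hθf o)
    exact (hE (CLIFF.out τ θf) (hI.1 θf hθf')).2.2 θf hθf' rfl
  · intro J e β hne
    have hex : ∃ q, Adm 𝔐 ℓ ι κ ρ p φ rt J e β q := by
      by_contra hcon
      exact hne (by rw [Phi, dif_neg hcon])
    obtain ⟨⟨τ, θf, g, S, f, m, M⟩, hτ, hθf, hK, he, hb, hSD⟩ := hex
    dsimp only at hτ hθf hK he hb hSD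
    subst hK
    subst he
    subst hb
    choose E hE using fun θ : stb τ → ℂ =>
      key h1 h2 h4 h5 h6 𝔐 ℓ d h𝔐 hℓ ι κ ρ hL j p φ h rt hrt i ω hτ θ
    have hC := (clg (stb τ) (YS j τ) K (jS h.cl τ) (cS h.cl τ) (pS p j τ) (clG_S h.cl τ)
      (fun θ => (inert (cS h.cl τ) θ).map (pS p j τ)) E
      (fun θ hθ => ⟨rfl, (hE θ hθ).1, (hE θ hθ).2.1⟩)).1
    have hI := (IRRPI_thm O G (fun o => stb (comp τ o)) (stb τ) (stb_closed (mem_ClCh.mp hτ).2))
    have hcount := (hE (CLIFF.out τ θf) (hI.1 θf hθf)).2.2 θf hθf rfl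
    have hne2 : (∏ o, (Nat.card (stb (comp τ o)) : ℚ)) *
          Phi 𝔐 ℓ d ι κ ρ p φ rt i ω (KB κ p φ τ θf) (∑ o, df ℓ (stb (comp τ o)) (θf o))
            (bts 𝔐 ι κ ρ p φ τ θf (KB κ p φ τ θf)) ≠ 0 := by
      refine mul_ne_zero ?_ hne
      rw [Finset.prod_ne_zero_iff]
      intro o _
      exact_mod_cast Nat.card_pos.ne'
    rw [← hcount] at hne2
    have hne3 := right_ne_zero_of_mul hne2
    have hne4 : Nat.card {η : (inert (cS h.cl τ) (CLIFF.out τ θf)).map (pS p j τ) → ℂ //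
        IsIrr η ∧ PP 𝔐 ℓ d j i ω τ (indc (inert (cS h.cl τ) (CLIFF.out τ θf))
              (fun s => E (CLIFF.out τ θf) s * ext0 η (pS p j τ s)))} ≠ 0 := by
      exact_mod_cast hne3
    have hnonempty := (Nat.card_ne_zero.mp hne4).1
    obtain ⟨η, hη, hP⟩ := hnonempty
    obtain ⟨hψ1, hψ2⟩ := hC (CLIFF.out τ θf) (hI.1 θf hθf) η hη
    exact ⟨τ, hτ, θf, hθf, rfl, _, hψ1, hP.2, hψ2⟩

end Pool.Agent.DPV


end

section

set_option linter.unusedSectionVars false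

/-! PERCR: the extension to the inertia group, in terms of standard data (theorem R). -/

namespace Pool.Agent.DPC

open Pool.Agent.DP

open Pool.Agent.Lib_helper13 Representation

namespace PERCR

variable {O G B C Y K : Type} [Fintype O] [DecidableEq O] [Group G] [Fintype G] [Group B]
  [Fintype B] [Group C] [Group Y] [Fintype Y] [Group K] [Finite K]

theorem zz_mul (φ : Y →* Gam (Equiv.Perm O) O B) (g : O → B) (x y : Y) (o : O) :
    zz φ g (x * y) o = zz φ g x o * zz φ g y ((φ x).right⁻¹ • o) := by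
  have h1 : (φ (x * y)).left o = (φ x).left o * (φ y).left ((φ x).right⁻¹ • o) := by
    rw [map_mul]
    rfl
  have h2 : (φ (x * y)).right⁻¹ • o = (φ y).right⁻¹ • (φ x).right⁻¹ • o := by
    rw [map_mul]
    change ((φ x).right * (φ y).right)⁻¹ • o = _
    rw [mul_inv_rev, mul_smul]
  rw [zz, zz, zz, h1, h2]
  group

theorem zz_one (φ : Y →* Gam (Equiv.Perm O) O B) (g : O → B) (o : O) : zz φ g 1 o = 1 := by
  rw [zz, map_one]
  simp

/-- the first statement -/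
theorem mem_iff (hR : Stmt_REPJ) (hT : Stmt_TRBR) (ℓ : ℕ) [Fact ℓ.Prime]
    (ι : G →* B) (κ : B →* MulAut G) (ρ : B →* C) (hloc : LocW ℓ ι κ ρ)
    (j : (O → G) →* Y) (p : Y →* K) (φ : Y →* Gam (Equiv.Perm O) O B) (h : ExtS ι κ j p φ)
    (τ : Finset (Subgroup (O → G))) (θ : O → G → ℂ)
    (hθ : ∀ o, IrrOn (stb (comp τ o)) (θ o))
    (r : O → O) (t : O → Y) (g : O → B) (S : O → Subgroup B) (f : O → B → ℂ) (m : O → ℕ)
    (M : O → B → ℕ → ℕ → ℂ) (hst : StdR ℓ ι κ ρ p φ τ θ r t g S f m M) (y : Y) :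
    (p y ∈ KB κ p φ τ θ ∧ ∀ o, zz φ g y o ∈ S o) ↔ y ∈ InY κ φ τ θ := by
  have hTR := (hT O G B C (⊥ : Ideal (integralClosure ℤ ℂ)) ℓ ι κ ρ hloc τ θ hθ).1
  have hRP := ((hR O G B C Y K ℓ ι κ ρ hloc j p φ h (KB κ p φ τ θ)).2.2 r t hst.rp).2.2
  have key : ∀ y, p y ∈ KB κ p φ τ θ → ∀ o, zz φ g y o ∈ S o ↔
      trB κ τ θ ((φ y).right⁻¹ • o) o ((φ y).left o) := by
    intro y hy o
    have h1 : r ((φ y).right⁻¹ • o) = r o := by
      have h2 := hst.rp.con y hy ((φ y).right⁻¹ • o)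
      rw [smul_inv_smul] at h2
      exact h2.symm
    have h3 := hst.tr o
    have h4 := hst.tr ((φ y).right⁻¹ • o)
    rw [h1] at h4
    have h5 : ρ (zz φ g y o) ∈ vg ρ p φ (KB κ p φ τ θ) (r o) := hRP y hy g hst.rg o
    rw [hst.hS o]
    constructor
    · intro hz
      have h6 := (hTR (r o) (zz φ g y o)).mpr hz.1
      have h7 := (h3.mul h6).mul h4.inv
      have h8 : g o * zz φ g y o * (g ((φ y).right⁻¹ • o))⁻¹ = (φ y).left o := by
        rw [zz]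
        group
      rwa [h8] at h7
    · intro hz
      refine ⟨(hTR (r o) (zz φ g y o)).mp ?_, h5⟩
      have h6 := (h3.inv.mul hz).mul h4
      exact h6
  constructor
  · rintro ⟨h1, h2⟩ o
    exact (key y h1 o).mp (h2 o)
  · intro hy
    have h1 : p y ∈ KB κ p φ τ θ := ⟨y, hy, rfl⟩
    exact ⟨h1, fun o => (key y h1 o).mpr (hy o)⟩

end PERCR

open _root_.Pool.Agent.DPC.PERCR in
theorem PERCR_thm (hA : Stmt_PERAR) (hR : Stmt_REPJ) (hT : Stmt_TRBR) : Stmt_PERCR := by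
  classical
  intro O G B C Y K _ _ _ _ _ _ _ _ _ _ _ ℓ _ ι κ ρ hloc j p φ h τ hτ θ hθ r t g S f m M hst
  have hmem := mem_iff hR hT ℓ ι κ ρ hloc j p φ h τ θ hθ r t g S f m M hst
  refine ⟨hmem, ?_⟩
  obtain ⟨hle, hin, -, -, -⟩ := hA O G B C Y K ℓ ι κ ρ hloc j p φ h τ hτ θ hθ
  set J := KB κ p φ τ θ with hJ
  set I := inert (cS h.cl τ) (fun a => ∏ o, θ o ((a : O → G) o)) with hI
  -- the group of permutations
  let L : Subgroup (Equiv.Perm O) :=
    (J.comap p).map ((SemidirectProduct.rightHom : Gam (Equiv.Perm O) O B →* Equiv.Perm O).comp φ)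
  have hL : ∀ l : L, ∃ y, p y ∈ J ∧ (φ y).right = (l : Equiv.Perm O) := by
    rintro ⟨l, y, hy, rfl⟩
    exact ⟨y, hy, rfl⟩
  have hSS : ∀ (l : L) o, S (l • o) = S o := by
    intro l o
    obtain ⟨y, hy, hl⟩ := hL l
    have h1 := hst.sd.cS y hy o
    rw [hl] at h1
    exact h1
  have hmm : ∀ (l : L) o, m (l • o) = m o := by
    intro l o
    obtain ⟨y, hy, hl⟩ := hL l
    have h1 := hst.sd.cm y hy o
    rw [hl] at h1
    exact h1
  have hMM : ∀ (l : L) o, M (l • o) = M o := by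
    intro l o
    obtain ⟨y, hy, hl⟩ := hL l
    have h1 := hst.sd.cM y hy o
    rw [hl] at h1
    exact h1
  have hTE := TENS_thm.2 L O B S hSS f m M hmm hMM hst.sd.md
  have hIn : ∀ s : I, ((s : YS j τ) : Y) ∈ InY κ φ τ θ := fun s => (hin s.1).mp s.2
  have hpJ : ∀ s : I, p ((s : YS j τ) : Y) ∈ J := fun s => ((hmem _).mpr (hIn s)).1
  have hzS : ∀ (s : I) (o : O), zz φ g ((s : YS j τ) : Y) o ∈ S o :=
    fun s => ((hmem _).mpr (hIn s)).2
  let Ψ : I →* stdS (L := L) S hSS :=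
    { toFun := fun s => ⟨⟨zz φ g ((s : YS j τ) : Y), ⟨(φ ((s : YS j τ) : Y)).right,
        ⟨((s : YS j τ) : Y), hpJ s, rfl⟩⟩⟩, hzS s⟩
      map_one' := by
        apply Subtype.ext
        apply SemidirectProduct.ext
        · ext o
          exact zz_one φ g o
        · apply Subtype.ext
          change (φ 1).right = 1
          rw [map_one]
          rfl
      map_mul' := by
        intro x y
        apply Subtype.ext
        apply SemidirectProduct.ext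
        · ext o
          exact zz_mul φ g _ _ o
        · apply Subtype.ext
          change (φ (((x : YS j τ) : Y) * ((y : YS j τ) : Y))).right = _
          rw [map_mul]
          rfl }
  let E : I → ℂ := fun s => TH m M (φ ((s : YS j τ) : Y)).right (zz φ g ((s : YS j τ) : Y))
  have hE1 : IsChr E := hTE.1.comp Ψ
  have hE2 : ∀ a (ha : jS h.cl τ a ∈ I), E ⟨jS h.cl τ a, ha⟩ = ∏ o, θ o ((a : O → G) o) := by
    intro a ha
    have hφ : φ (j (a : O → G)) = SemidirectProduct.inl (fun o => ι ((a : O → G) o)) := h.jn _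
    have h0 : zz φ g (j (a : O → G)) = fun o => ι (κ (g o)⁻¹ ((a : O → G) o)) := by
      funext o
      rw [zz, hφ, hloc.cl.act]
      simp
    have h1 : E ⟨jS h.cl τ a, ha⟩ = TH m M 1 (fun o => ι (κ (g o)⁻¹ ((a : O → G) o))) := by
      change TH m M (φ (j (a : O → G))).right (zz φ g (j (a : O → G))) = _
      rw [h0, hφ]
      rfl
    rw [h1, hTE.2]
    · refine Finset.prod_congr rfl fun o _ => ?_
      rw [(hst.ex o).2]
      have h2 := (hst.tr o).2 (κ (g o)⁻¹ ((a : O → G) o))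
      rw [← h2, ← MulAut.mul_apply, ← map_mul, mul_inv_cancel, map_one, MulAut.one_apply]
    · intro o
      have h2 := hzS ⟨jS h.cl τ a, ha⟩ o
      change zz φ g (j (a : O → G)) o ∈ S o at h2
      rwa [h0] at h2
  refine ⟨E, hE1, hE2, ?_⟩
  intro η hη F hF
  have hone : E 1 = ∏ o, f o 1 := by
    have h0 : zz φ g 1 = fun _ => (1 : B) := by
      funext o
      exact zz_one φ g o
    have h1 : E 1 = TH m M 1 (fun _ => (1 : B)) := by
      change TH m M (φ 1).right (zz φ g 1) = _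
      rw [h0, map_one]
      rfl
    rw [h1, hTE.2]
    intro o
    exact (S o).one_mem
  have hext : ext0 η (pS p j τ ((1 : I) : YS j τ)) = η 1 := by
    have h1 : pS p j τ ((1 : I) : YS j τ) = 1 := map_one _
    rw [h1, ext0_of_mem η J.one_mem]
    rfl
  -- both sides are sums over `Y`
  have hsum1 : ∑ s : I, F ((s : YS j τ) : Y) * (E s * ext0 η (pS p j τ s)) =
      ∑ y : Y, if y ∈ InY κ φ τ θ then
        F y * (TH m M (φ y).right (zz φ g y) * ext0 η (p y)) else 0 := by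
    rw [← Finset.sum_filter]
    refine Finset.sum_bij' (fun (s : I) _ => ((s : YS j τ) : Y))
      (fun y hy => ⟨⟨y, hle (Finset.mem_filter.mp hy).2⟩,
        (hin _).mpr (Finset.mem_filter.mp hy).2⟩) ?_ ?_ ?_ ?_ ?_
    · intro s _
      exact Finset.mem_filter.mpr ⟨Finset.mem_univ _, hIn s⟩
    · intro y _
      exact Finset.mem_univ _
    · intro s _
      rfl
    · intro y _
      rfl
    · intro s _
      rfl
  have hsum2 : ∑ k : J, AS p φ g S f m M (k : K) F * η k =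
      (∑ y : Y, if y ∈ InY κ φ τ θ then
        F y * (TH m M (φ y).right (zz φ g y) * ext0 η (p y)) else 0) / ∏ o, f o 1 := by
    have h1 : ∀ k : J, AS p φ g S f m M (k : K) F * η k =
        (∑ y : Y, if p y = k ∧ ∀ o, zz φ g y o ∈ S o then
          F y * (TH m M (φ y).right (zz φ g y) * η k) else 0) / ∏ o, f o 1 := by
      intro k
      rw [AS, div_mul_eq_mul_div, Finset.sum_mul]
      congr 1
      refine Finset.sum_congr rfl fun y _ => ?_
      by_cases hc : p y = k ∧ ∀ o, zz φ g y o ∈ S o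
      · rw [if_pos hc, if_pos hc]
        ring
      · rw [if_neg hc, if_neg hc, zero_mul]
    rw [Finset.sum_congr rfl fun k _ => h1 k, ← Finset.sum_div, Finset.sum_comm]
    congr 1
    refine Finset.sum_congr rfl fun y _ => ?_
    by_cases hy : y ∈ InY κ φ τ θ
    · rw [if_pos hy]
      obtain ⟨hy1, hy2⟩ := (hmem y).mpr hy
      rw [Finset.sum_eq_single (⟨p y, hy1⟩ : J)]
      · rw [if_pos ⟨rfl, hy2⟩, ext0_of_mem η hy1]
      · intro k _ hk
        rw [if_neg]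
        rintro ⟨h2, -⟩
        exact hk (Subtype.ext h2.symm)
      · intro h2
        exact absurd (Finset.mem_univ _) h2
    · rw [if_neg hy]
      refine Finset.sum_eq_zero fun k _ => ?_
      rw [if_neg]
      rintro ⟨h2, h3⟩
      refine hy ((hmem y).mp ⟨?_, h3⟩)
      rw [h2]
      exact k.2
  rw [wt, wt, hsum1, hsum2, hone, hext, div_div]

end Pool.Agent.DPC


end

section

/-!
# Module CLIFFR: Clifford theory for the stabilizers of the chains of the base group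
-/

namespace Pool.Agent.DPC

open Pool.Agent.DP

open Pool.Agent.Lib_helper13 Representation

namespace CLIFFR

theorem clg : Stmt_CLG :=
  CLG_thm (GALL_thm COSET_thm SUMM_thm) (CCOR_thm IND_thm SUMM_thm) SUMM_thm

/-- Chains, characters and standard data. -/
structure Dat (O G B : Type) [Group G] [Group B] where
  τ : Finset (Subgroup (O → G))
  θ : O → G → ℂ
  g : O → B
  S : O → Subgroup B
  f : O → B → ℂ
  m : O → ℕ
  M : O → B → ℕ → ℕ → ℂ

section Main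

variable {O G B C Y K X : Type} [Fintype O] [DecidableEq O] [Group G] [Fintype G] [Group B]
    [Fintype B] [Group C] [Group Y] [Fintype Y] [Group K] [Finite K] [Group X]

/-- Admissible data for the definition of the function of the theorem. -/
def Adm (𝔐 : Ideal (integralClosure ℤ ℂ)) (ℓ : ℕ) (ι : G →* B) (κ : B →* MulAut G)
    (ρ : B →* C) (p : Y →* K) (φ : Y →* Gam (Equiv.Perm O) O B)
    (rt : Subgroup K → (O → O) × (O → Y)) (J : Subgroup K) (e : ℕ)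
    (β : O → Set (B → (integralClosure ℤ ℂ) ⧸ 𝔐)) (q : Dat O G B) : Prop :=
  q.τ ∈ ClCh O G ℓ ∧ (∀ o, IrrOn (stb (comp q.τ o)) (q.θ o)) ∧ KB κ p φ q.τ q.θ = J ∧
    ∑ o, df ℓ (stb (comp q.τ o)) (q.θ o) = e ∧ bts 𝔐 ι κ ρ p φ q.τ q.θ J = β ∧
    StdR ℓ ι κ ρ p φ q.τ q.θ (rt J).1 (rt J).2 q.g q.S q.f q.m q.M

open Classical in
/-- The function of the theorem. -/
noncomputable def Phi (𝔐 : Ideal (integralClosure ℤ ℂ)) (ℓ d : ℕ) (ι : G →* B)
    (κ : B →* MulAut G) (ρ : B →* C) (p : Y →* K) (φ : Y →* Gam (Equiv.Perm O) O B)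
    (rt : Subgroup K → (O → O) × (O → Y)) (i : Y →* X) (ω : X → (integralClosure ℤ ℂ) ⧸ 𝔐)
    (J : Subgroup K) (e : ℕ) (β : O → Set (B → (integralClosure ℤ ℂ) ⧸ 𝔐)) : ℚ :=
  if h : ∃ q, Adm 𝔐 ℓ ι κ ρ p φ rt J e β q then
    NNR 𝔐 ℓ d i ω p φ J e h.choose.g h.choose.S h.choose.f h.choose.m h.choose.M
  else 0

theorem Phi_eq (h1 : Stmt_EXTAR) (h6 : Stmt_MINDR) (𝔐 : Ideal (integralClosure ℤ ℂ)) (ℓ d : ℕ)
    [Fact ℓ.Prime] (h𝔐 : 𝔐.IsMaximal) (hℓ : (ℓ : integralClosure ℤ ℂ) ∈ 𝔐)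
    (ι : G →* B) (κ : B →* MulAut G) (ρ : B →* C) (hL : LocW ℓ ι κ ρ)
    (j : (O → G) →* Y) (p : Y →* K) (φ : Y →* Gam (Equiv.Perm O) O B)
    (hE : ExtS ι κ j p φ) (rt : Subgroup K → (O → O) × (O → Y))
    (i : Y →* X) (ω : X → (integralClosure ℤ ℂ) ⧸ 𝔐)
    {τ : Finset (Subgroup (O → G))} (hτ : τ ∈ ClCh O G ℓ)
    {θ : O → G → ℂ} (hθ : ∀ o, IrrOn (stb (comp τ o)) (θ o))
    (g : O → B) (S : O → Subgroup B) (f : O → B → ℂ) (m : O → ℕ) (M : O → B → ℕ → ℕ → ℂ)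
    (hS : StdR ℓ ι κ ρ p φ τ θ (rt (KB κ p φ τ θ)).1 (rt (KB κ p φ τ θ)).2 g S f m M) :
    Phi 𝔐 ℓ d ι κ ρ p φ rt i ω (KB κ p φ τ θ) (∑ o, df ℓ (stb (comp τ o)) (θ o))
        (bts 𝔐 ι κ ρ p φ τ θ (KB κ p φ τ θ)) =
      NNR 𝔐 ℓ d i ω p φ (KB κ p φ τ θ) (∑ o, df ℓ (stb (comp τ o)) (θ o)) g S f m M := by
  have h : ∃ q, Adm 𝔐 ℓ ι κ ρ p φ rt (KB κ p φ τ θ) (∑ o, df ℓ (stb (comp τ o)) (θ o))
      (bts 𝔐 ι κ ρ p φ τ θ (KB κ p φ τ θ)) q :=
    ⟨⟨τ, θ, g, S, f, m, M⟩, hτ, hθ, rfl, rfl, rfl, hS⟩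
  rw [Phi, dif_pos h]
  obtain ⟨hτ', hθ', hK, -, hb, hS'⟩ := h.choose_spec
  generalize h.choose = q at *
  set J := KB κ p φ τ θ with hJ
  have hsd := hS.sd
  have hsd' := hS'.sd
  have hex := hS.ex
  have hex' := hS'.ex
  rw [← hJ] at hsd hex
  rw [hK] at hsd' hex'
  refine h6 O G B C Y K X 𝔐 ℓ h𝔐 hℓ ι κ ρ hL j p φ hE J g q.g S q.S f q.f m q.m M q.M hsd hsd'
    (fun o => (hS'.rg o).trans (hS.rg o).symm) ?_ d _ i ω
  intro o
  have hbo := congrFun hb ((rt J).1 o)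
  have hm : cgT 𝔐 ι.range (q.f o) ∈ bts 𝔐 ι κ ρ p φ q.τ q.θ J ((rt J).1 o) :=
    ⟨q.f o, hex' o, rfl⟩
  rw [hbo] at hm
  obtain ⟨f1, hf1, hf2⟩ := hm
  obtain ⟨-, -, -, -, h5, -⟩ := h1 G B C ℓ ι κ ρ hL (comp τ ((rt J).1 o)) (θ ((rt J).1 o))
    (hθ _) (vg ρ p φ J ((rt J).1 o))
  obtain ⟨lam, hlam⟩ := h5 (f o) f1 (hex o) hf1
  refine ⟨lam, ?_⟩
  rw [hf2, hlam]

/-- The property counted. -/
def PP (𝔐 : Ideal (integralClosure ℤ ℂ)) (ℓ d : ℕ) (j : (O → G) →* Y) (i : Y →* X)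
    (ω : X → (integralClosure ℤ ℂ) ⧸ 𝔐) (τ : Finset (Subgroup (O → G))) (χ : YS j τ → ℂ) :
    Prop :=
  HasDefect ℓ χ d ∧ ∀ x, cen 𝔐 (i.comp (YS j τ).subtype) χ x = ω x

theorem key (h1 : Stmt_EXTAR) (h2 : Stmt_PERAR) (h4 : Stmt_PERBR) (h5 : Stmt_PERDR)
    (h6 : Stmt_MINDR) (𝔐 : Ideal (integralClosure ℤ ℂ)) (ℓ d : ℕ)
    [Fact ℓ.Prime] (h𝔐 : 𝔐.IsMaximal) (hℓ : (ℓ : integralClosure ℤ ℂ) ∈ 𝔐)
    (ι : G →* B) (κ : B →* MulAut G) (ρ : B →* C) (hL : LocW ℓ ι κ ρ)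
    (j : (O → G) →* Y) (p : Y →* K) (φ : Y →* Gam (Equiv.Perm O) O B)
    (h : ExtS ι κ j p φ) (rt : Subgroup K → (O → O) × (O → Y))
    (hrt : ∀ J, RepJ p φ J (rt J).1 (rt J).2)
    (i : Y →* X) (ω : X → (integralClosure ℤ ℂ) ⧸ 𝔐)
    {τ : Finset (Subgroup (O → G))} (hτ : τ ∈ ClCh O G ℓ) (θ : stb τ → ℂ) :
    ∃ E : inert (cS h.cl τ) θ → ℂ, IsIrr θ → IsChr E ∧
      (∀ a (ha : jS h.cl τ a ∈ inert (cS h.cl τ) θ), E ⟨jS h.cl τ a, ha⟩ = θ a) ∧
      ∀ θf : O → G → ℂ, (∀ o, IrrOn (stb (comp τ o)) (θf o)) → CLIFF.out τ θf = θ →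
        (Nat.card (inert (cS h.cl τ) θ) : ℚ) *
          Nat.card {η : (inert (cS h.cl τ) θ).map (pS p j τ) → ℂ // IsIrr η ∧
            PP 𝔐 ℓ d j i ω τ (indc (inert (cS h.cl τ) θ)
              (fun s => E s * ext0 η (pS p j τ s)))} =
        (∏ o, (Nat.card (stb (comp τ o)) : ℚ)) *
          Phi 𝔐 ℓ d ι κ ρ p φ rt i ω (KB κ p φ τ θf) (∑ o, df ℓ (stb (comp τ o)) (θf o))
            (bts 𝔐 ι κ ρ p φ τ θf (KB κ p φ τ θf)) := by
  by_cases hθ : IsIrr θ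
  · obtain ⟨θf, hθf, rfl⟩ := CLIFF.exists_out IRRPI_thm hτ hθ
    obtain ⟨g, S, f, m, M, hSD⟩ := h4 O G B C Y K ℓ ι κ ρ hL j p φ h τ hτ θf hθf
      (rt (KB κ p φ τ θf)).1 (rt (KB κ p φ τ θf)).2 (hrt _)
    obtain ⟨E, hE, hEx, hcount⟩ := h5 O G B C Y K X 𝔐 ℓ ι κ ρ hL j p φ h τ hτ θf hθf
      (rt (KB κ p φ τ θf)).1 (rt (KB κ p φ τ θf)).2 g S f m M hSD
    refine ⟨E, fun _ => ⟨hE, hEx, ?_⟩⟩
    intro θg hθg hout
    have hu : θg = θf :=
      (IRRPI_thm O G (fun o => stb (comp τ o)) (stb τ) (stb_closed (mem_ClCh.mp hτ).2)).2.1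
        θg θf hθg hθf (fun a => congrFun hout a)
    subst hu
    rw [Phi_eq h1 h6 𝔐 ℓ d h𝔐 hℓ ι κ ρ hL j p φ h rt i ω hτ hθf g S f m M hSD]
    have hmap : (inert (cS h.cl τ) (CLIFF.out τ θg)).map (pS p j τ) = KB κ p φ τ θg :=
      (h2 O G B C Y K ℓ ι κ ρ hL j p φ h τ hτ θg hθf).2.2.1
    have hT := CLIFF.card_transport (inert (cS h.cl τ) (CLIFF.out τ θg)) (pS p j τ) E
      (PP 𝔐 ℓ d j i ω τ) hmap
    exact (congrArg (fun n : ℕ => (Nat.card (inert (cS h.cl τ) (CLIFF.out τ θg)) : ℚ) * (n : ℚ))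
      hT).trans (hcount d i ω)
  · exact ⟨fun _ => 0, fun h => absurd h hθ⟩

end Main

end CLIFFR

open _root_.Pool.Agent.DPC.CLIFFR in
theorem CLIFFR_thm (h1 : Stmt_EXTAR) (h2 : Stmt_PERAR) (h3 : Stmt_REPJ) (h4 : Stmt_PERBR)
    (h5 : Stmt_PERDR) (h6 : Stmt_MINDR) : Stmt_CLIFFR := by
  intro O G B C Y K X _ _ _ _ _ _ _ _ _ _ _ _ 𝔐 ℓ _ h𝔐 hℓ ι κ ρ hL j p φ h d i ω
  have hex : ∀ J : Subgroup K, ∃ rt : (O → O) × (O → Y), RepJ p φ J rt.1 rt.2 := by
    intro J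
    obtain ⟨⟨r, t, hr⟩, -⟩ := h3 O G B C Y K ℓ ι κ ρ hL j p φ h J
    exact ⟨(r, t), hr⟩
  choose rt hrt using hex
  refine ⟨Phi 𝔐 ℓ d ι κ ρ p φ rt i ω, ?_, ?_⟩
  · intro τ hτ
    choose E hE using fun θ : stb τ → ℂ =>
      key h1 h2 h4 h5 h6 𝔐 ℓ d h𝔐 hℓ ι κ ρ hL j p φ h rt hrt i ω hτ θ
    have hC := (clg (stb τ) (YS j τ) K (jS h.cl τ) (cS h.cl τ) (pS p j τ) (clG_S h.cl τ)
      (fun θ => (inert (cS h.cl τ) θ).map (pS p j τ)) E
      (fun θ hθ => ⟨rfl, (hE θ hθ).1, (hE θ hθ).2.1⟩)).2 (PP 𝔐 ℓ d j i ω τ)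
    have hI := (IRRPI_thm O G (fun o => stb (comp τ o)) (stb τ) (stb_closed (mem_ClCh.mp hτ).2))
    have h7 : (Nat.card (YS j τ) : ℚ) * cnt 𝔐 ℓ d (i.comp (YS j τ).subtype) ω =
        (Nat.card (YS j τ) : ℚ) * Nat.card {χ : YS j τ → ℂ // IsIrr χ ∧ PP 𝔐 ℓ d j i ω τ χ} :=
      rfl
    rw [h7, hC, hI.2.2, Finset.mul_sum]
    refine Finset.sum_congr rfl fun θf hθf => ?_
    have hθf' : ∀ o, IrrOn (stb (comp τ o)) (θf o) :=
      fun o => CLIFF.mem_irrOn.mp (Fintype.mem_piFinset.mp hθf o)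
    exact (hE (CLIFF.out τ θf) (hI.1 θf hθf')).2.2 θf hθf' rfl
  · intro J e β hne
    have hex : ∃ q, Adm 𝔐 ℓ ι κ ρ p φ rt J e β q := by
      by_contra hcon
      exact hne (by rw [Phi, dif_neg hcon])
    obtain ⟨⟨τ, θf, g, S, f, m, M⟩, hτ, hθf, hK, he, hb, hSD⟩ := hex
    dsimp only at hτ hθf hK he hb hSD
    subst hK
    subst he
    subst hb
    choose E hE using fun θ : stb τ → ℂ =>
      key h1 h2 h4 h5 h6 𝔐 ℓ d h𝔐 hℓ ι κ ρ hL j p φ h rt hrt i ω hτ θ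
    have hC := (clg (stb τ) (YS j τ) K (jS h.cl τ) (cS h.cl τ) (pS p j τ) (clG_S h.cl τ)
      (fun θ => (inert (cS h.cl τ) θ).map (pS p j τ)) E
      (fun θ hθ => ⟨rfl, (hE θ hθ).1, (hE θ hθ).2.1⟩)).1
    have hI := (IRRPI_thm O G (fun o => stb (comp τ o)) (stb τ) (stb_closed (mem_ClCh.mp hτ).2))
    have hcount := (hE (CLIFF.out τ θf) (hI.1 θf hθf)).2.2 θf hθf rfl
    have hne2 : (∏ o, (Nat.card (stb (comp τ o)) : ℚ)) *
          Phi 𝔐 ℓ d ι κ ρ p φ rt i ω (KB κ p φ τ θf) (∑ o, df ℓ (stb (comp τ o)) (θf o))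
            (bts 𝔐 ι κ ρ p φ τ θf (KB κ p φ τ θf)) ≠ 0 := by
      refine mul_ne_zero ?_ hne
      rw [Finset.prod_ne_zero_iff]
      intro o _
      exact_mod_cast Nat.card_pos.ne'
    rw [← hcount] at hne2
    have hne3 := right_ne_zero_of_mul hne2
    have hne4 : Nat.card {η : (inert (cS h.cl τ) (CLIFF.out τ θf)).map (pS p j τ) → ℂ //
        IsIrr η ∧ PP 𝔐 ℓ d j i ω τ (indc (inert (cS h.cl τ) (CLIFF.out τ θf))
              (fun s => E (CLIFF.out τ θf) s * ext0 η (pS p j τ s)))} ≠ 0 := by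
      exact_mod_cast hne3
    have hnonempty := (Nat.card_ne_zero.mp hne4).1
    obtain ⟨η, hη, hP⟩ := hnonempty
    obtain ⟨hψ1, hψ2⟩ := hC (CLIFF.out τ θf) (hI.1 θf hθf) η hη
    exact ⟨τ, hτ, θf, hθf, rfl, _, hψ1, hP.2, hψ2⟩

end Pool.Agent.DPC


end

section

/-!
# The centralizer of an `ℓ`-subgroup

Module OUTB: `Stmt_OUTB`.
-/

namespace Pool.Agent.DPC

open Pool.Agent.DP Pool.Agent.Lib_helper13 Representation
open Pool.Agent.Lib_helper13.Dade (pCore DadeHolds dadeSum)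

open Pool.Agent.DP.RINA in
theorem OUTB_thm : Stmt_OUTB := by
  classical
  intro Ω G B C X K _ _ _ _ _ _ _ _ _ _ ℓ _ ι κ ρ hS e p φ hE Q hQ
  have hE1 := hE.cl
  let S : Setoid Ω :=
    { r := fun w w' => ∃ q ∈ Q, (φ q).right • w = w'
      iseqv := by
        refine ⟨fun w => ⟨1, one_mem _, rone φ w⟩, ?_, ?_⟩
        · rintro w _ ⟨q, hq, rfl⟩
          exact ⟨q⁻¹, inv_mem hq, by rw [← rmul, inv_mul_cancel, rone]⟩
        · rintro w _ _ ⟨q, hq, rfl⟩ ⟨q', hq', rfl⟩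
          exact ⟨q' * q, mul_mem hq' hq, by rw [rmul]⟩ }
  have hSr : ∀ w w', (Quotient.mk S w = Quotient.mk S w') ↔ ∃ q ∈ Q, (φ q).right • w = w' :=
    fun w w' => Quotient.eq (r := S)
  have hex : ∀ w, ∃ q ∈ Q, (φ q).right • (Quotient.mk S w).out = w ∧
      (w = (Quotient.mk S w).out → q = 1) := by
    intro w
    by_cases hw : w = (Quotient.mk S w).out
    · refine ⟨1, one_mem _, ?_, fun _ => rfl⟩
      rw [rone]
      exact hw.symm
    · obtain ⟨q, hq, hqw⟩ := (hSr _ _).mp (Quotient.out_eq (Quotient.mk S w))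
      exact ⟨q, hq, hqw, fun h => absurd h hw⟩
  choose qq hqQ hqq hq1 using hex
  -- the value of `v` at the representatives
  have hone : ∀ o : Quotient S, qq o.out = 1 := by
    intro o
    apply hq1
    rw [Quotient.out_eq]
  -- two choices of `q`
  have key : ∀ q ∈ Q, ∀ q' ∈ Q, ∀ w, (φ q).right • w = (φ q').right • w → ∀ g : G,
      g ∈ FX κ (Pw φ Q w) →
      κ ((φ q).left ((φ q).right • w)) g = κ ((φ q').left ((φ q').right • w)) g := by
    intro q hq q' hq' w h g hg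
    have h3 : (φ (q'⁻¹ * q)).right • w = w := by
      rw [rmul, h, ← rmul, inv_mul_cancel, rone]
    have h4 := lmul φ q' (q'⁻¹ * q) w
    rw [mul_inv_cancel_left, h3] at h4
    rw [h4, map_mul, MulAut.mul_apply,
      mem_FX.mp hg _ ⟨q'⁻¹ * q, mul_mem (inv_mem hq') hq, h3, rfl⟩]
  refine ⟨Quotient S, Fintype.ofFinite _, Classical.decEq _, Quotient.mk S, Quotient.out,
    fun w => (φ (qq w)).left w, fun o => Quotient.out_eq o, hSr, ?_, ?_, ?_, ?_⟩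
  · intro o
    obtain ⟨w0, rfl⟩ := Quotient.exists_rep o
    let act : MulAction Q Ω :=
      MulAction.compHom Ω ((SemidirectProduct.rightHom.comp φ).comp Q.subtype)
    have hsm : ∀ (q : Q) (w : Ω), q • w = (φ (q : X)).right • w := fun _ _ => rfl
    obtain ⟨k, hk⟩ := hQ.card_orbit w0
    refine ⟨k, ?_⟩
    rw [← hk]
    refine Nat.card_congr (Equiv.subtypeEquivRight ?_)
    intro w
    rw [MulAction.mem_orbit_iff, eq_comm, hSr]
    constructor
    · rintro ⟨q, hq, h⟩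
      exact ⟨⟨q, hq⟩, h⟩
    · rintro ⟨q, h⟩
      exact ⟨q, q.2, h⟩
  · intro w
    exact ⟨qq w, hqQ w, hqq w, rfl⟩
  · intro o
    change (φ (qq o.out)).left o.out = 1
    rw [hone, lone]
  · intro n
    rw [cent e p φ hE1 Q n]
    constructor
    · intro h
      refine ⟨fun o => n o.out, ?_, ?_⟩
      · rintro o b ⟨q, hq, hqo, rfl⟩
        have h1 := h q hq o.out
        rw [hqo] at h1
        exact h1
      · funext w
        have h1 := h (qq w) (hqQ w) (Quotient.mk S w).out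
        rw [hqq w] at h1
        exact h1.symm
    · rintro ⟨n', hn', rfl⟩ q hq w
      have h2 : Quotient.mk S ((φ q).right • w) = Quotient.mk S w :=
        ((hSr _ _).mpr ⟨q, hq, rfl⟩).symm
      have h5 := hqq ((φ q).right • w)
      rw [h2] at h5
      have h6 : (φ (q * qq w)).right • (Quotient.mk S w).out = (φ q).right • w := by
        rw [rmul, hqq w]
      have h3 := key (q * qq w) (mul_mem hq (hqQ w)) (qq ((φ q).right • w)) (hqQ _)
        (Quotient.mk S w).out (by rw [h6, h5]) (n' (Quotient.mk S w)) (hn' _)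
      rw [h5, h6] at h3
      have h4 := lmul φ q (qq w) (Quotient.mk S w).out
      rw [h6, hqq w] at h4
      change κ _ (κ ((φ (qq w)).left w) (n' (Quotient.mk S w))) =
        κ ((φ (qq ((φ q).right • w))).left ((φ q).right • w)) (n' (Quotient.mk S ((φ q).right • w)))
      rw [h2, ← h3, h4, map_mul, MulAut.mul_apply]

end Pool.Agent.DPC


end

section

/-!
# KB: at most one irreducible representation of the normalizer occurs
-/

namespace Pool.Agent.DPB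

open Pool.Agent.Lib_helper13 Representation

namespace KB

section Sch

variable {F H V W : Type} [Field F] [Group H] [AddCommGroup V] [Module F V]
  [AddCommGroup W] [Module F W]

/-- Schur's lemma, scalars. -/
theorem exists_scalar [IsAlgClosed F] [Module.Finite F V] (ρ : Representation F H V)
    (hρ : ρ.IsIrreducible) (T : V →ₗ[F] V) (hT : Eqv ρ ρ T) :
    ∃ c : F, ∀ v, T v = c • v := by
  have hb := (IsIrreducible.algebraMap_intertwiningMap_bijective_of_isAlgClosed (ρ := ρ)).2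
  obtain ⟨c, hc⟩ := hb ⟨T, fun g => LinearMap.ext fun x => hT g x⟩
  refine ⟨c, fun x => ?_⟩
  have := congrArg (fun f : IntertwiningMap ρ ρ => f x) hc
  change _ = T x at this
  rw [← this]
  simp [IntertwiningMap.algebraMap_apply]

/-- Schur's lemma: a map between irreducible representations with different characters is
zero. -/
theorem eqv_zero [Module.Finite F V] [Module.Finite F W] (ρ : Representation F H V)
    (σ : Representation F H W) (hρ : ρ.IsIrreducible) (hσ : σ.IsIrreducible)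
    (hne : ρ.character ≠ σ.character) (f : V →ₗ[F] W) (hf : Eqv ρ σ f) : f = 0 := by
  let g : IntertwiningMap ρ σ := ⟨f, fun g => LinearMap.ext fun x => hf g x⟩
  rcases IsIrreducible.bijective_or_eq_zero g with h | h
  · exact absurd (char_iso (g.ofBijective h)) hne
  · have : g.toLinearMap = (0 : IntertwiningMap ρ σ).toLinearMap := by rw [h]
    exact this

end Sch

/-- The trace over `P`, computed in the normalizer. -/
theorem tN_norm {F T V : Type} [Field F] [Group T] [Fintype T] [AddCommGroup V] [Module F V]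
    (P : Subgroup T) [Fintype (NP P)] (ρ : Representation F T V) :
    tN (P.subgroupOf (Subgroup.normalizer (P : Set T))) (rN P ρ) = tN P ρ := by
  classical
  unfold tN
  have h1 : ∑ h : T, (if h ∈ P then ρ h else 0) =
      ∑ h ∈ (Finset.univ.filter fun h : T => h ∈ Subgroup.normalizer (P : Set T)),
        (if h ∈ P then ρ h else 0) := by
    symm
    apply Finset.sum_subset (Finset.subset_univ _)
    intro x _ hx
    rw [if_neg]
    intro hP
    apply hx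
    simp only [Finset.mem_filter, Finset.mem_univ, true_and]
    exact Subgroup.le_normalizer hP
  have h2 : ∑ h ∈ (Finset.univ.filter fun h : T => h ∈ Subgroup.normalizer (P : Set T)),
        (if h ∈ P then ρ h else 0) =
      ∑ n : NP P, (if (n : T) ∈ P then ρ (n : T) else 0) := by
    rw [← Finset.sum_subtype_eq_sum_filter]
    symm
    refine Finset.sum_bij (fun n _ => ⟨n.1, n.2⟩) ?_ ?_ ?_ ?_
    · intro n _
      simp
    · intro a _ b _ hab
      exact Subtype.ext (Subtype.mk.inj hab)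
    · intro b _
      exact ⟨⟨b.1, b.2⟩, Finset.mem_univ _, rfl⟩
    · intro n _
      rfl
  rw [h1, h2]
  refine Finset.sum_congr rfl fun n _ => ?_
  simp only [Subgroup.mem_subgroupOf]
  rfl

end KB

open _root_.Pool.Agent.DPB.KB in
/-- KB: at most one irreducible representation of the normalizer occurs. -/
theorem KB_thm (h1 : Stmt_EXT) (h2 : Stmt_TRF) (h3 : Stmt_PTR) : Stmt_KB := by
  intro ℓ _ F T V W W' _ _ _ _ _ _ _ _ _ _ _ _ _ _ P ρ σ σ' hP hi hρ hσ hσ' hE hE'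
  classical
  by_contra hne
  have : Fintype (NP P) := Fintype.ofFinite _
  set P' : Subgroup (NP P) := P.subgroupOf (Subgroup.normalizer (P : Set T)) with hP'
  have hnorm : P'.Normal := Subgroup.normal_in_normalizer
  have hcard : Nat.card P' = ℓ := by
    rw [← hP]
    exact Nat.card_congr (Subgroup.subgroupOfEquivOfLe Subgroup.le_normalizer).toEquiv
  have hind : ¬ ℓ ∣ P'.index := by
    intro h
    apply hi
    refine h.trans ?_
    exact Subgroup.relIndex_dvd_index_of_le Subgroup.le_normalizer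
  obtain ⟨j, hj, wj, hwj⟩ := hE
  obtain ⟨j', hj', wj', hwj'⟩ := hE'
  have htN : tN P' (rN P ρ) = tN P ρ := tN_norm P ρ
  have ejj : Eqv σ (rN P ρ) j := fun n w => hj n w
  have ejj' : Eqv σ' (rN P ρ) j' := fun n w => hj' n w
  have hσP : ∀ p ∈ P', σ p = 1 := h3 ℓ F (NP P) W σ P' hcard hσ
  have hσP' : ∀ p ∈ P', σ' p = 1 := h3 ℓ F (NP P) W' σ' P' hcard hσ'
  have hfix : ∀ w, ∀ p ∈ P, ρ p (j w) = j w := by
    intro w p hp
    have := hj ⟨p, Subgroup.le_normalizer hp⟩ w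
    rw [hσP ⟨p, Subgroup.le_normalizer hp⟩ (by rw [hP', Subgroup.mem_subgroupOf]; exact hp)] at this
    exact this.symm
  have hfix' : ∀ w, ∀ p ∈ P, ρ p (j' w) = j' w := by
    intro w p hp
    have := hj' ⟨p, Subgroup.le_normalizer hp⟩ w
    rw [hσP' ⟨p, Subgroup.le_normalizer hp⟩ (by rw [hP', Subgroup.mem_subgroupOf]; exact hp)] at this
    exact this.symm
  have key : ∃ f : V →ₗ[F] V, Eqv (rN P ρ) (rN P ρ) f ∧ (∀ w, f (j w) = j w) ∧
      ∀ (W2 : Type) [AddCommGroup W2] [Module F W2] (τ : Representation F (NP P) W2)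
        (k : W2 →ₗ[F] V), Eqv τ (rN P ρ) k → (∀ p ∈ P', τ p = 1) →
        (∀ g : W2 →ₗ[F] W, Eqv τ σ g → g = 0) → ∀ w, f (k w) = 0 := by
    have hr : ∃ w, j w ∉ LinearMap.range (tN P' (rN P ρ)) := ⟨wj, by rw [htN]; exact hwj⟩
    rcases h1 ℓ F (NP P) V V W (rN P ρ) (rN P ρ) σ P' hcard hind hσ j j ejj ejj hr hr with h | h
    · exact h
    · exact h
  obtain ⟨f, hf, hfj, hfk⟩ := key
  have hfj' : ∀ w, f (j' w) = 0 := by
    refine hfk W' σ' j' ejj' hσP' ?_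
    intro g hg
    exact eqv_zero σ' σ hσ' hσ (fun e => hne e.symm) g hg
  obtain ⟨f', hf', hff⟩ := h2 ℓ F T V V ρ ρ P hP hi f hf
  obtain ⟨c, hc⟩ := exists_scalar ρ hρ f' hf'
  have hc1 : c = 1 := by
    by_contra hc1
    apply hwj
    have := hff (j wj) (hfix wj)
    rw [hfj, hc] at this
    have e : (c - 1) • j wj ∈ LinearMap.range (tN P ρ) := by
      rw [sub_smul, one_smul]
      exact this
    have e2 := (LinearMap.range (tN P ρ)).smul_mem (c - 1)⁻¹ e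
    rwa [smul_smul, inv_mul_cancel₀ (sub_ne_zero.2 hc1), one_smul] at e2
  apply hwj'
  have := hff (j' wj') (hfix' wj')
  rwa [hfj', hc, hc1, one_smul, sub_zero] at this

end Pool.Agent.DPB


end

section

/-!
# Theorem W: the support of the block idempotent
-/

namespace Pool.Agent.DPW

open Pool.Agent.DPB Pool.Agent.Lib_helper13 Representation

namespace SUPB

/-- An `ℓ`-subgroup of a group `C` with Sylow subgroup `P` of order `ℓ` is conjugate into `P`. -/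
theorem syl {ℓ : ℕ} [hp : Fact ℓ.Prime] {T : Type*} [Group T] [Finite T] (C P R : Subgroup T)
    (hPC : P ≤ C) (hP : Nat.card P = ℓ) (hC : ¬ ℓ ^ 2 ∣ Nat.card C) (hR : IsPGroup ℓ R)
    (hRC : R ≤ C) : ∃ c : T, ∀ u ∈ R, c * u * c⁻¹ ∈ P := by
  have hcP : Nat.card (P.subgroupOf C) = ℓ := by
    rw [Nat.card_congr (Subgroup.subgroupOfEquivOfLe hPC).toEquiv, hP]
  have hP' : IsPGroup ℓ (P.subgroupOf C) := IsPGroup.of_card (n := 1) (by rw [hcP, pow_one])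
  have hR' : IsPGroup ℓ (R.subgroupOf C) :=
    hR.of_injective (Subgroup.subgroupOfEquivOfLe hRC).toMonoidHom
      (Subgroup.subgroupOfEquivOfLe hRC).injective
  obtain ⟨SP, hSP⟩ := hP'.exists_le_sylow
  obtain ⟨SR, hSR⟩ := hR'.exists_le_sylow
  have hcard : Nat.card SP ≤ ℓ := by
    obtain ⟨n, hn⟩ := (IsPGroup.iff_card (p := ℓ) (G := SP)).mp SP.isPGroup'
    rw [hn]
    have h1 : ℓ ^ n ∣ Nat.card C := by
      rw [← hn]
      exact Subgroup.card_subgroup_dvd_card (SP : Subgroup C)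
    have h2 : n ≤ 1 := by
      by_contra h3
      push Not at h3
      exact hC ((pow_dvd_pow ℓ h3).trans h1)
    calc ℓ ^ n ≤ ℓ ^ 1 := Nat.pow_le_pow_right hp.out.pos h2
      _ = ℓ := pow_one ℓ
  have heq : P.subgroupOf C = (SP : Subgroup C) := by
    apply Subgroup.eq_of_le_of_card_ge hSP
    rw [hcP]
    exact hcard
  obtain ⟨c, hc⟩ := MulAction.exists_smul_eq C SR SP
  refine ⟨c, fun u hu => ?_⟩
  have h1 : (⟨u, hRC hu⟩ : C) ∈ (SR : Subgroup C) := hSR (Subgroup.mem_subgroupOf.mpr hu)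
  have h2 : c * (⟨u, hRC hu⟩ : C) * c⁻¹ ∈ ((c • SR : Sylow ℓ C) : Subgroup C) := by
    rw [Sylow.coe_subgroup_smul]
    exact ⟨⟨u, hRC hu⟩, h1, rfl⟩
  rw [hc, ← heq, Subgroup.mem_subgroupOf] at h2
  exact h2

end SUPB

open _root_.Pool.Agent.DPW.SUPB in
/-- SUPB. -/
theorem SUPB_thm : Stmt_SUPB := by
  intro ℓ _ F T _ _ _ _ P x₀ e hBK h hh Q hQ hQh
  classical
  obtain ⟨w, hw, hew⟩ := hBK.fac
  let _ : MulAction Q T :=
    { smul := fun q y => (q : T) * y * (q : T)⁻¹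
      one_smul := by
        intro y
        change ((1 : Q) : T) * y * ((1 : Q) : T)⁻¹ = y
        simp
      mul_smul := by
        intro a b y
        change ((a * b : Q) : T) * y * ((a * b : Q) : T)⁻¹ = a.1 * (b.1 * y * b.1⁻¹) * a.1⁻¹
        simp [mul_assoc] }
  have hsmul : ∀ (q : Q) (y : T), q • y = (q : T) * y * (q : T)⁻¹ := fun _ _ => rfl
  have hM : ∀ m : F, ℓ • m = 0 := by
    intro m
    rw [nsmul_eq_mul, CharP.cast_eq_zero, zero_mul]
  have hcls : ∀ g y : T, clsF F x₀ (g * y * g⁻¹) = clsF F x₀ y := by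
    intro g y
    unfold clsF
    congr 1
    apply propext
    constructor
    · rintro ⟨a, ha⟩
      refine ⟨g⁻¹ * a, ?_⟩
      calc y = g⁻¹ * (g * y * g⁻¹) * g := by group
        _ = g⁻¹ * (a * x₀ * a⁻¹) * g := by rw [ha]
        _ = g⁻¹ * a * x₀ * (g⁻¹ * a)⁻¹ := by group
    · rintro ⟨a, ha⟩
      refine ⟨g * a, ?_⟩
      rw [ha]
      group
  have hs : ∀ (q : Q) (y : T), clsF F x₀ (q • y) * w ((q • y)⁻¹ * h) =
      clsF F x₀ y * w (y⁻¹ * h) := by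
    intro q y
    rw [hsmul, hcls]
    have h1 : ((q : T) * y * (q : T)⁻¹)⁻¹ * h = (q : T) * (y⁻¹ * h) * (q : T)⁻¹ := by
      have h2 : (q : T)⁻¹ * h = h * (q : T)⁻¹ := by
        rw [inv_mul_eq_iff_eq_mul, ← mul_assoc, hQh q q.2, mul_inv_cancel_right]
      calc ((q : T) * y * (q : T)⁻¹)⁻¹ * h = (q : T) * y⁻¹ * ((q : T)⁻¹ * h) := by group
        _ = (q : T) * (y⁻¹ * h) * (q : T)⁻¹ := by rw [h2]; group
    rw [h1, hw]
  rw [hew] at hh
  change ∑ y, clsF F x₀ y * w (y⁻¹ * h) ≠ 0 at hh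
  rw [sum_eq_sum_fixed hQ hM (fun y => clsF F x₀ y * w (y⁻¹ * h)) hs] at hh
  obtain ⟨y, hy, hy0⟩ := Finset.exists_ne_zero_of_sum_ne_zero hh
  have hfix := (Finset.mem_filter.mp hy).2
  have hcy : clsF F x₀ y ≠ 0 := left_ne_zero_of_mul hy0
  have hg : ∃ g, y = g * x₀ * g⁻¹ := by
    by_contra h1
    exact hcy (by rw [clsF, if_neg h1])
  obtain ⟨g, hg⟩ := hg
  have hRC : Q.map (MulAut.conj g⁻¹).toMonoidHom ≤ Subgroup.centralizer ({x₀} : Set T) := by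
    rintro _ ⟨q, hq, rfl⟩
    rw [Subgroup.mem_centralizer_iff]
    intro x hx
    rw [Set.mem_singleton_iff] at hx
    subst hx
    have h1 : q * y * q⁻¹ = y := hfix ⟨q, hq⟩
    have h2 : q * y = y * q := mul_inv_eq_iff_eq_mul.mp h1
    rw [hg] at h2
    change x * (g⁻¹ * q * g⁻¹⁻¹) = g⁻¹ * q * g⁻¹⁻¹ * x
    calc x * (g⁻¹ * q * g⁻¹⁻¹) = g⁻¹ * (g * x * g⁻¹ * q) * g := by group
      _ = g⁻¹ * (q * (g * x * g⁻¹)) * g := by rw [h2]
      _ = g⁻¹ * q * g⁻¹⁻¹ * x := by group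
  have hPC : P ≤ Subgroup.centralizer ({x₀} : Set T) := by
    intro u hu
    rw [Subgroup.mem_centralizer_iff]
    intro x hx
    rw [Set.mem_singleton_iff] at hx
    subst hx
    exact (hBK.cen u hu).symm
  obtain ⟨c, hc⟩ := syl (ℓ := ℓ) (Subgroup.centralizer ({x₀} : Set T)) P
    (Q.map (MulAut.conj g⁻¹).toMonoidHom) hPC hBK.card hBK.sq (hQ.map _) hRC
  refine ⟨c * g⁻¹, fun u hu => ?_⟩
  have h1 := hc (g⁻¹ * u * g⁻¹⁻¹) ⟨u, hu, rfl⟩
  have h2 : c * g⁻¹ * u * (c * g⁻¹)⁻¹ = c * (g⁻¹ * u * g⁻¹⁻¹) * c⁻¹ := by group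
  rw [h2]
  exact h1

end Pool.Agent.DPW


end
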