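import Mathlib
import Pool.Agent.DAM.C08
import Pool.Agent.DAM.C13
import Pool.Agent.DAM.C14
import Pool.Agent.DAM.C15
import Pool.Agent.DAM.C17
import Pool.Agent.DAM.C19
import Pool.Agent.DAM.C20
import Pool.Agent.DAM.C22
import Pool.Agent.DAM.C29
import Pool.Agent.DAM.C31
import Pool.Agent.DAM.C41
import Pool.Agent.DAM.C42
import Pool.Agent.DAM.C43

/-! Parts: DPW.FXF, DPM.CLC, DP.MOBB, DPM.DEFA, DPM.TWC, DPN.PHN, DPN.FFC, DPN.DLO, DP.CONJ, DP.AAK, DP.AAKH, DPV.CNTV -/

section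

/-!
# Theorem W: the blocks over an invariant block
-/

namespace Pool.Agent.DPW

open Pool.Agent.DP Pool.Agent.DPV Pool.Agent.Lib_helper13 Representation
open Pool.Agent.Lib_helper13.Dade (pCore DadeHolds dadeSum)

namespace FXF

section Ex

variable {A Y K : Type} [Group A] [Group Y] [Group K] {j : A →* Y} {c : Y →* MulAut A}
  {p : Y →* K}

open Classical in
/-- The extension by zero along `j`. -/
noncomputable def exF (j : A →* Y) (a : A → ℂ) (y : Y) : ℂ :=
  if h : ∃ x, j x = y then a h.choose else 0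

theorem exF_j (hinj : Function.Injective j) (a : A → ℂ) (x : A) : exF j a (j x) = a x := by
  have h : ∃ x', j x' = j x := ⟨x, rfl⟩
  rw [exF, dif_pos h, hinj h.choose_spec]

theorem exF_zero (a : A → ℂ) {y : Y} (hy : y ∉ j.range) : exF j a y = 0 := by
  rw [exF, dif_neg]
  rintro ⟨x, hx⟩
  exact hy ⟨x, hx⟩

theorem exF_class (h : ClG j c p) {a : A → ℂ} (ha : ∀ y x, a (c y x) = a x) (g y : Y) :
    exF j a (g * y * g⁻¹) = exF j a y := by
  by_cases hy : y ∈ j.range
  · obtain ⟨x, rfl⟩ := hy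
    rw [← h.act, exF_j h.inj, exF_j h.inj, ha]
  · rw [exF_zero a hy, exF_zero a]
    rintro ⟨x, hx⟩
    apply hy
    refine ⟨c g⁻¹ x, ?_⟩
    rw [h.act, hx]
    group

theorem exF_int {a : A → ℂ} (ha : ∀ x, IsIntegral ℤ (a x)) (y : Y) :
    IsIntegral ℤ (exF j a y) := by
  rw [exF]
  split_ifs
  · exact ha _
  · exact isIntegral_zero

variable [Fintype A] [Fintype Y]

theorem wt_ex (h : ClG j c p) {θ : A → ℂ} {χ : Y → ℂ} (hθ : IsIrr θ) (hχ : IsIrr χ)
    (hip : ip (resj j χ) θ ≠ 0) {a : A → ℂ} (ha : ∀ y x, a (c y x) = a x) :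
    wt χ (exF j a) = wt θ a := by
  have hS : Stmt_SUMM := SUMM_thm
  rw [(hS A Y K j c p h).2.2.2 θ χ (exF j a) hθ hχ hip (exF_class h ha)
    (fun y hy => exF_zero a hy)]
  congr 1
  funext x
  exact exF_j h.inj a x

theorem cen_twist (𝔐 : Ideal (integralClosure ℤ ℂ)) (e : MulAut A) (θ : A → ℂ) (g : A) :
    cen 𝔐 (MonoidHom.id A) (fun x => θ (e x)) g = cen 𝔐 (MonoidHom.id A) θ (e g) := by
  rw [cen, cen, ← wt_comp_equiv e θ (fun y => conjInd (MonoidHom.id A y) (e g))]
  congr 2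
  funext x
  apply conjInd_congr
  change IsConj x g ↔ IsConj (e x) (e g)
  rw [isConj_iff, isConj_iff]
  constructor
  · rintro ⟨u, hu⟩
    exact ⟨e u, by rw [← hu, map_mul, map_mul, map_inv]⟩
  · rintro ⟨u, hu⟩
    refine ⟨e.symm u, e.injective ?_⟩
    rw [map_mul, map_mul, map_inv, MulEquiv.apply_symm_apply, hu]

end Ex

section Main

variable {G B C : Type} [Group G] [Fintype G] [Group B] [Fintype B] [Group C]
  {𝔐 : Ideal (integralClosure ℤ ℂ)} {ℓ : ℕ} [Fact ℓ.Prime] {ι : G →* B} {κ : B →* MulAut G}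
  {ρ : B →* C}

/-- Conjugate blocks, one of which is invariant, are equal. -/
theorem cov (h1 : Stmt_COVW) (hmax : 𝔐.IsMaximal) (hℓ : (ℓ : integralClosure ℤ ℂ) ∈ 𝔐)
    (h : LocN ι κ ρ) {ω : G → (integralClosure ℤ ℂ) ⧸ 𝔐} (hω : ∀ b g, ω (κ b g) = ω g)
    {θ θ' : G → ℂ} (hθ : IsIrr θ) (hθ' : IsIrr θ')
    (hw : ∀ a : G → ℂ, (∀ y x, a (κ y x) = a x) → (∀ x, IsIntegral ℤ (a x)) →
      red 𝔐 (wt θ a) = red 𝔐 (wt θ' a)) (hc : cen 𝔐 (MonoidHom.id G) θ = ω) :
    cen 𝔐 (MonoidHom.id G) θ' = ω := by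
  obtain ⟨y, hy⟩ := h1 G B C 𝔐 ℓ hmax hℓ ι κ ρ h.cl θ θ' hθ hθ' hw
  funext g
  have h2 := congrFun hy (κ y⁻¹ g)
  rw [hc, hω, cen_twist] at h2
  have h3 : κ y (κ y⁻¹ g) = g := by
    rw [← MulAut.mul_apply, ← map_mul, mul_inv_cancel, map_one, MulAut.one_apply]
  rw [h3] at h2
  exact h2

theorem inv_class (h : LocN ι κ ρ) {a : G → ℂ} (ha : ∀ y x, a (κ y x) = a x) (g x : G) :
    a (g * x * g⁻¹) = a x := by
  have h1 : κ (ι g) x = g * x * g⁻¹ := by
    apply h.cl.inj
    rw [h.cl.act, map_mul, map_mul, map_inv]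
  rw [← h1, ha]

end Main

end FXF

open _root_.Pool.Agent.DPW.FXF in
/-- FXF. -/
theorem FXF_thm (h1 : Stmt_COVW) : Stmt_FXF := by
  intro G B C _ _ _ _ _ 𝔐 ℓ _ hmax hℓ ι κ ρ h ω hω
  have hprime : 𝔐.IsPrime := hmax.isPrime
  constructor
  · rintro χ χ' hχ hχ' hcen ⟨θ, hθ, hθω, hip⟩
    obtain ⟨θ', hθ', hip'⟩ := Cliff.exists_under hχ' ι
    refine ⟨θ', hθ', ?_, hip'⟩
    refine cov h1 hmax hℓ h hω hθ hθ' (fun a ha hai => ?_) hθω
    rw [← wt_ex h.cl hθ hχ hip ha, ← wt_ex h.cl hθ' hχ' hip' ha]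
    have e1 := red_wt_eq_pair 𝔐 (MonoidHom.id B) hχ (exF ι a) (exF_class h.cl ha) (exF_int hai)
    have e2 := red_wt_eq_pair 𝔐 (MonoidHom.id B) hχ' (exF ι a) (exF_class h.cl ha) (exF_int hai)
    rw [← hcen] at e2
    exact e1.trans e2.symm
  · intro P hP χ η hχ hη hcen
    have hPp : IsPGroup ℓ P := IsPGroup.of_card (n := 1) (by rw [hP, pow_one])
    have hPne : P ≠ ⊥ := by
      rintro rfl
      have h2 : Nat.card (⊥ : Subgroup G) = 1 := Subgroup.card_bot
      rw [h2] at hP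
      exact (Fact.out : ℓ.Prime).one_lt.ne hP
    have hch : IsCh ℓ (⊥ : Subgroup G) {P} := Pool.Agent.DPB.LOC.isCh_singleton hPp hPne
    have key : ∀ (θ1 : G → ℂ) (ψ0 : stb {P} → ℂ), IsIrr θ1 → IsIrr ψ0 →
        ip (resj ι χ) θ1 ≠ 0 → ip (resj (jS h.cl {P}) η) ψ0 ≠ 0 →
        (cen 𝔐 (MonoidHom.id G) θ1 = ω ↔ cen 𝔐 (stb {P}).subtype ψ0 = ω) := by
      intro θ1 ψ0 hθ1 hψ0 hip1 hip0
      obtain ⟨θ0, hθ0, hc0⟩ := exists_irr_of_mult 𝔐 hψ0 (exists_irr_of_chain 𝔐 hℓ hch hψ0)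
      have hw : ∀ a : G → ℂ, (∀ y x, a (κ y x) = a x) → (∀ x, IsIntegral ℤ (a x)) →
          red 𝔐 (wt θ1 a) = red 𝔐 (wt θ0 a) := by
        intro a ha hai
        rw [← wt_ex h.cl hθ1 hχ hip1 ha]
        have e1 := red_wt_eq_pair 𝔐 (MonoidHom.id B) hχ (exF ι a) (exF_class h.cl ha)
          (exF_int hai)
        have e2 := red_wt_eq_pair 𝔐 (YS ι {P}).subtype hη (exF ι a) (exF_class h.cl ha)
          (exF_int hai)
        rw [← hcen] at e2
        have e3 : wt η (fun y : YS ι {P} => exF ι a ((YS ι {P}).subtype y)) =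
            wt ψ0 (fun x : stb {P} => a x) := by
          have hS : Stmt_SUMM := SUMM_thm
          rw [(hS (stb {P}) (YS ι {P}) C (jS h.cl {P}) (cS h.cl {P}) (pS ρ ι {P})
            (clG_S h.cl {P})).2.2.2 ψ0 η (fun y : YS ι {P} => exF ι a ((YS ι {P}).subtype y))
            hψ0 hη hip0 ?_ ?_]
          · congr 1
            funext x
            exact exF_j h.cl.inj a (x : G)
          · intro g x
            rw [map_mul, map_mul, map_inv, exF_class h.cl ha]
          · intro y hy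
            apply exF_zero
            rintro ⟨x, hx⟩
            apply hy
            refine ⟨⟨x, (mem_YS h.cl {P}).mp (by rw [hx]; exact y.2)⟩, ?_⟩
            exact Subtype.ext hx
        have e4 := red_wt_eq_pair 𝔐 (MonoidHom.id G) hθ0 a (inv_class h ha) hai
        have e5 := red_wt_eq_pair 𝔐 (stb {P}).subtype hψ0 a (inv_class h ha) hai
        rw [hc0] at e4
        rw [e3] at e2
        exact (e1.trans e2.symm).trans (e5.trans e4.symm)
      rw [← hc0]
      constructor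
      · intro hc
        exact cov h1 hmax hℓ h hω hθ1 hθ0 hw hc
      · intro hc
        exact cov h1 hmax hℓ h hω hθ0 hθ1 (fun a ha hai => (hw a ha hai).symm) hc
    constructor
    · rintro ⟨θ, hθ, hθω, hip⟩
      obtain ⟨ψ0, hψ0, hip0⟩ := Cliff.exists_under hη (jS h.cl {P})
      exact ⟨ψ0, hψ0, (key θ ψ0 hθ hψ0 hip hip0).1 hθω, hip0⟩
    · rintro ⟨ψ, hψ, hψω, hip0⟩
      obtain ⟨θ1, hθ1, hip1⟩ := Cliff.exists_under hχ ι
      exact ⟨θ1, hθ1, (key θ1 ψ hθ1 hψ hip1 hip0).2 hψω, hip1⟩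

end Pool.Agent.DPW


end

section

/-!
# CLC: counting characters by means of the Clifford correspondence
-/

set_option autoImplicit false

namespace Pool.Agent.DPM

open Pool.Agent.DP Pool.Agent.DPC Pool.Agent.Lib_helper13 Representation
open Pool.Agent.Lib_helper13.Dade (pCore DadeHolds dadeSum)

namespace CLC

/-- Induction from a subgroup to an irreducible character preserves the defect. -/
theorem defect_indc {Y : Type} [Group Y] [Fintype Y] (ℓ : ℕ) [Fact ℓ.Prime] (S : Subgroup Y)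
    {ψ : S → ℂ} (hψ : IsIrr ψ) (hi : IsIrr (indc S ψ)) (d : ℕ) :
    HasDefect ℓ (indc S ψ) d ↔ HasDefect ℓ ψ d := by
  obtain ⟨n, hn0, hn⟩ := hψ.exists_degree
  obtain ⟨m, hm0, hm⟩ := hi.exists_degree
  have h1 := (IND_thm Y S ψ).1
  rw [hn, hm] at h1
  have h2 : m * Nat.card S = Nat.card Y * n := by exact_mod_cast h1
  have hS : Nat.card S ≠ 0 := Nat.card_pos.ne'
  have hY : Nat.card Y ≠ 0 := Nat.card_pos.ne'
  have h3 := congrArg (padicValNat ℓ) h2
  rw [padicValNat.mul hm0.ne' hS, padicValNat.mul hY hn0.ne'] at h3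
  constructor
  · rintro ⟨k, hk, hk'⟩
    have hkm : k = m := by
      rw [hm] at hk
      exact_mod_cast hk.symm
    subst hkm
    exact ⟨n, hn, by omega⟩
  · rintro ⟨k, hk, hk'⟩
    have hkn : k = n := by
      rw [hn] at hk
      exact_mod_cast hk.symm
    subst hkn
    exact ⟨m, hm, by omega⟩

end CLC

open _root_.Pool.Agent.DPM.CLC in
/-- CLC: counting characters by means of the Clifford correspondence. -/
theorem CLC_thm : Stmt_CLC := by
  classical
  intro A Y K _ _ _ _ _ ℓ _ j c p hj P d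
  have h3 : Stmt_SUMM := SUMM_thm
  have h2 : Stmt_CCOR := CCOR_thm IND_thm SUMM_thm
  -- the bijection
  have hbij : ∀ θ, IsIrr θ →
      Nat.card {ψ : inert c θ → ℂ // IsIrr ψ ∧ ip (fun a => ext0 ψ (j a)) θ ≠ 0 ∧
        HasDefect ℓ ψ d ∧ P (indc (inert c θ) ψ)} =
      (((irrF Y).filter (fun χ => HasDefect ℓ χ d ∧ P χ)).filter
        (fun χ => ip (resj j χ) θ ≠ 0)).card := by
    intro θ hθ
    have hcard : (((irrF Y).filter (fun χ => HasDefect ℓ χ d ∧ P χ)).filter
        (fun χ => ip (resj j χ) θ ≠ 0)).card =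
        Nat.card {χ : Y → ℂ // χ ∈ ((irrF Y).filter (fun χ => HasDefect ℓ χ d ∧ P χ)).filter
          (fun χ => ip (resj j χ) θ ≠ 0)} := by
      rw [Nat.card_eq_fintype_card, Fintype.card_coe]
    rw [hcard]
    obtain ⟨c1, c2, c3⟩ := h2 A Y K j c p hj θ hθ
    refine Nat.card_congr (Equiv.ofBijective (fun ψ => ⟨indc (inert c θ) ψ.1, ?_⟩) ⟨?_, ?_⟩)
    · obtain ⟨h4, h5⟩ := c1 ψ.1 ψ.2.1 ψ.2.2.1
      rw [Finset.mem_filter, Finset.mem_filter, mem_irrF]
      exact ⟨⟨h4, (defect_indc ℓ _ ψ.2.1 h4 d).2 ψ.2.2.2.1, ψ.2.2.2.2⟩, h5⟩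
    · intro ψ ψ' h
      exact Subtype.ext (c2 ψ.1 ψ'.1 ψ.2.1 ψ'.2.1 ψ.2.2.1 ψ'.2.2.1 (congrArg Subtype.val h))
    · rintro ⟨χ, hχ⟩
      rw [Finset.mem_filter, Finset.mem_filter, mem_irrF] at hχ
      obtain ⟨⟨hχ1, hχ2, hχ3⟩, hχ4⟩ := hχ
      obtain ⟨ψ, hψ1, hψ2, hψ3⟩ := c3 χ hχ1 hχ4
      have hirr : IsIrr (indc (inert c θ) ψ) := by rw [hψ3]; exact hχ1
      refine ⟨⟨ψ, hψ1, hψ2, ?_, ?_⟩, Subtype.ext hψ3⟩
      · rw [← defect_indc ℓ _ hψ1 hirr d, hψ3]
        exact hχ2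
      · rw [hψ3]
        exact hχ3
  have hleft : Nat.card {χ : Y → ℂ // IsIrr χ ∧ HasDefect ℓ χ d ∧ P χ} =
      ((irrF Y).filter (fun χ => HasDefect ℓ χ d ∧ P χ)).card := by
    rw [← Fintype.card_coe, ← Nat.card_eq_fintype_card]
    refine Nat.card_congr (Equiv.subtypeEquivRight fun χ => ?_)
    rw [Finset.mem_filter, mem_irrF]
  rw [hleft]
  have hright : ∑ θ ∈ irrF A, (Nat.card (inert c θ) : ℚ) * Nat.card {ψ : inert c θ → ℂ //
      IsIrr ψ ∧ ip (fun a => ext0 ψ (j a)) θ ≠ 0 ∧ HasDefect ℓ ψ d ∧ P (indc (inert c θ) ψ)} =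
      ∑ θ ∈ irrF A, ∑ χ ∈ (irrF Y).filter (fun χ => HasDefect ℓ χ d ∧ P χ),
        if ip (resj j χ) θ ≠ 0 then (Nat.card (inert c θ) : ℚ) else 0 := by
    refine Finset.sum_congr rfl fun θ hθ => ?_
    rw [hbij θ (mem_irrF.mp hθ), ← Finset.sum_filter, Finset.sum_const, nsmul_eq_mul, mul_comm]
  rw [hright, Finset.sum_comm]
  have hin : ∀ χ ∈ (irrF Y).filter (fun χ => HasDefect ℓ χ d ∧ P χ), (∑ θ ∈ irrF A,
      if ip (resj j χ) θ ≠ 0 then (Nat.card (inert c θ) : ℚ) else 0) = Nat.card Y := by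
    intro χ hχ
    rw [← Finset.sum_filter]
    have := CLG.sum_inert h3 hj (mem_irrF.mp (Finset.mem_filter.mp hχ).1)
    exact_mod_cast this
  rw [Finset.sum_congr rfl hin, Finset.sum_const, nsmul_eq_mul, mul_comm]

end Pool.Agent.DPM


end

section

/-!
# MOBB: inversion
-/

namespace Pool.Agent.DP

namespace MOBB

variable {C V : Type} [Group C] {r : Subgroup C → V → V}

theorem fix_inf (hr : ∀ L' L'' u, r L' (r L'' u) = r (L' ⊓ L'') u) {u : V} {M N : Subgroup C}
    (hM : r M u = u) (hN : r N u = u) : r (M ⊓ N) u = u := by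
  rw [← hr, hN, hM]

theorem fix_up (hr : ∀ L' L'' u, r L' (r L'' u) = r (L' ⊓ L'') u) {u : V} {M N : Subgroup C}
    (hM : r M u = u) (hMN : M ≤ N) : r N u = u := by
  have h := hr N M u
  rw [hM, inf_eq_right.2 hMN, hM] at h
  exact h

theorem fix_sub (hr : ∀ L' L'' u, r L' (r L'' u) = r (L' ⊓ L'') u) {u x : V}
    {L' M : Subgroup C} (hx : r L' x = u) (hM : r M x = x) : r M u = u := by
  rw [← hx, hr, inf_comm, ← hr, hM]

/-- the least subgroup which fixes `u` -/
theorem exists_least [Finite C] (hr : ∀ L' L'' u, r L' (r L'' u) = r (L' ⊓ L'') u) {u : V}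
    {L : Subgroup C} (hL : r L u = u) : ∃ K0 : Subgroup C, K0 ≤ L ∧ ∀ M, r M u = u ↔ K0 ≤ M := by
  classical
  haveI : Fintype (Subgroup C) := Fintype.ofFinite _
  set F : Finset (Subgroup C) := Finset.univ.filter (fun M => r M u = u) with hF
  have htop : r ⊤ u = u := fix_up hr hL le_top
  have h1 : r (F.inf id) u = u := by
    refine Finset.inf_induction (p := fun M => r M u = u) htop
      (fun M hM N hN => fix_inf hr hM hN) ?_
    intro M hM
    exact (Finset.mem_filter.1 hM).2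
  refine ⟨F.inf id, ?_, ?_⟩
  · exact Finset.inf_le (f := id) (Finset.mem_filter.2 ⟨Finset.mem_univ _, hL⟩)
  · intro M
    constructor
    · intro hM
      exact Finset.inf_le (f := id) (Finset.mem_filter.2 ⟨Finset.mem_univ _, hM⟩)
    · intro hM
      exact fix_up hr h1 hM

end MOBB

open Classical in
/-- MOBB. -/
theorem MOBB_thm (h1 : Stmt_MOBA) : Stmt_MOBB := by
  intro C I V _ _ _ hC L w k v r good hk hkv hr hg H
  haveI : Fintype (Subgroup C) := Fintype.ofFinite _
  obtain ⟨a, ha1, ha2⟩ := h1 C hC L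
  -- the function `S`
  set S : V → V → ℚ := fun x u => ∑ L', (if L' ≤ L then
    a L' * ((Nat.card L' : ℚ) ^ 2 * (if r L' x = u then 1 else 0)) else 0) with hS
  set N : V → ℚ := fun u => ∑ i, w i * (if k i = L ∧ v i = u then 1 else 0) with hN
  have hcard : (Nat.card L : ℚ) ≠ 0 := by
    exact_mod_cast Nat.card_pos.ne'
  -- the identity
  have key : ∀ u, good u → ∑ i, (if k i = L then w i * S (v i) u else 0) = 0 := by
    intro u hu
    have e1 : ∑ L', (if L' ≤ L then a L' * ∑ i, w i * (((Nat.card (L' ⊓ k i : Subgroup C) : ℚ) ^ 2 /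
        Nat.card (k i)) * (if r L' (v i) = u then 1 else 0)) else 0) = 0 := by
      refine Finset.sum_eq_zero fun L' _ => ?_
      by_cases hL' : L' ≤ L
      · rw [if_pos hL', H L' hL' u hu, mul_zero]
      · rw [if_neg hL']
    have e2 : ∑ L', (if L' ≤ L then a L' * ∑ i, w i * (((Nat.card (L' ⊓ k i : Subgroup C) : ℚ) ^ 2 /
        Nat.card (k i)) * (if r L' (v i) = u then 1 else 0)) else 0) =
        ∑ i, w i * ∑ L', (if L' ≤ L then a L' * (((Nat.card (L' ⊓ k i : Subgroup C) : ℚ) ^ 2 /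
        Nat.card (k i)) * (if r L' (v i) = u then 1 else 0)) else 0) := by
      simp only [Finset.mul_sum]
      rw [Finset.sum_comm]
      refine Finset.sum_congr rfl fun L' _ => ?_
      by_cases hL' : L' ≤ L
      · simp only [if_pos hL']
        refine Finset.sum_congr rfl fun i _ => ?_
        ring
      · simp only [if_neg hL', mul_zero, Finset.sum_const_zero]
    have e3 : ∀ i, (Nat.card L : ℚ) * (w i * ∑ L', (if L' ≤ L then
        a L' * (((Nat.card (L' ⊓ k i : Subgroup C) : ℚ) ^ 2 /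
        Nat.card (k i)) * (if r L' (v i) = u then 1 else 0)) else 0)) =
        if k i = L then w i * S (v i) u else 0 := by
      intro i
      by_cases hi : k i = L
      · rw [if_pos hi]
        have e4 : (Nat.card L : ℚ) * ∑ L', (if L' ≤ L then
            a L' * (((Nat.card (L' ⊓ k i : Subgroup C) : ℚ) ^ 2 /
            Nat.card (k i)) * (if r L' (v i) = u then 1 else 0)) else 0) = S (v i) u := by
          rw [Finset.mul_sum]
          refine Finset.sum_congr rfl fun L' _ => ?_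
          by_cases hL' : L' ≤ L
          · rw [if_pos hL', if_pos hL', hi, inf_eq_left.2 hL']
            field_simp
          · rw [if_neg hL', if_neg hL', mul_zero]
        rw [← e4]
        ring
      · rw [if_neg hi]
        have hlt : k i < L := lt_of_le_of_ne (hk i) hi
        have e5 := ha1 (k i) hlt (fun M => (Nat.card M : ℚ) ^ 2 /
          Nat.card (k i) * (if r M (v i) = u then 1 else 0))
        have e6 : ∑ L', (if L' ≤ L then a L' * (((Nat.card (L' ⊓ k i : Subgroup C) : ℚ) ^ 2 /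
            Nat.card (k i)) * (if r L' (v i) = u then 1 else 0)) else 0) = 0 := by
          refine Eq.trans ?_ e5
          refine Finset.sum_congr rfl fun L' _ => ?_
          by_cases hL' : L' ≤ L
          · rw [if_pos hL', if_pos hL']
            have e7 : r (L' ⊓ k i) (v i) = r L' (v i) := by
              rw [← hr, hkv]
            rw [e7]
          · rw [if_neg hL', if_neg hL']
        rw [e6, mul_zero, mul_zero]
    have e9 := e2.symm.trans e1
    have e8 : ∑ i, (if k i = L then w i * S (v i) u else 0) = (Nat.card L : ℚ) *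
        ∑ i, w i * ∑ L', (if L' ≤ L then a L' * (((Nat.card (L' ⊓ k i : Subgroup C) : ℚ) ^ 2 /
        Nat.card (k i)) * (if r L' (v i) = u then 1 else 0)) else 0) := by
      rw [Finset.mul_sum]
      exact Finset.sum_congr rfl fun i _ => (e3 i).symm
    rw [e8, e9, mul_zero]
  -- grouping by the value
  have grp : ∀ u, good u → ∑ x ∈ Finset.univ.image v, N x * S x u = 0 := by
    intro u hu
    rw [← key u hu]
    rw [← Finset.sum_fiberwise_of_maps_to (s := Finset.univ) (t := Finset.univ.image v) (g := v)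
      (fun i _ => Finset.mem_image_of_mem v (Finset.mem_univ i))]
    refine Finset.sum_congr rfl fun x _ => ?_
    rw [hN]
    simp only
    rw [Finset.sum_mul, Finset.sum_filter]
    refine Finset.sum_congr rfl fun i _ => ?_
    by_cases hx : v i = x
    · by_cases hi : k i = L
      · rw [if_pos ⟨hi, hx⟩, if_pos hx, if_pos hi, hx, mul_one]
      · rw [if_neg (fun hh => hi hh.1), if_pos hx, if_neg hi]
        ring
    · rw [if_neg (fun hh => hx hh.2), if_neg hx]
      ring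
  -- induction
  have main : ∀ (n : ℕ) (u : V), (Finset.univ.filter (fun M => r M u = u)).card = n →
      good u → N u = 0 := by
    intro n
    induction n using Nat.strong_induction_on with
    | _ n ih =>
      intro u hn hu
      by_cases hex : ∃ i, k i = L ∧ v i = u
      · obtain ⟨i0, hi0, hv0⟩ := hex
        have hLu : r L u = u := by
          rw [← hv0, ← hi0]
          exact hkv i0
        have h2 := grp u hu
        rw [Finset.sum_eq_single u] at h2
        · -- `S u u` is not zero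
          obtain ⟨K0, hK0, hK⟩ := MOBB.exists_least hr hLu
          have h3 := ha2 K0 hK0
          have h4 : S u u = ∑ L', (if K0 ≤ L' ∧ L' ≤ L then
              a L' * (Nat.card L' : ℚ) ^ 2 else 0) := by
            refine Finset.sum_congr rfl fun L' _ => ?_
            by_cases hL' : L' ≤ L
            · rw [if_pos hL']
              by_cases hL'' : r L' u = u
              · rw [if_pos hL'', if_pos ⟨(hK L').1 hL'', hL'⟩, mul_one]
              · rw [if_neg hL'', if_neg (fun hh => hL'' ((hK L').2 hh.1)), mul_zero, mul_zero]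
            · rw [if_neg hL', if_neg (fun hh => hL' hh.2)]
          rw [h4] at h2
          exact (mul_eq_zero.1 h2).resolve_right h3
        · intro x _ hxu
          by_cases hSx : S x u = 0
          · rw [hSx, mul_zero]
          · -- some `L'` maps `x` to `u`
            have hL' : ∃ L' : Subgroup C, r L' x = u := by
              by_contra hcon
              apply hSx
              refine Finset.sum_eq_zero fun L' _ => ?_
              rw [if_neg (fun hh : r L' x = u => hcon ⟨L', hh⟩), mul_zero, mul_zero, ite_self]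
            obtain ⟨L', hL'⟩ := hL'
            have hgx : good x := by
              rw [← hg L' x, hL']
              exact hu
            have hlt : (Finset.univ.filter (fun M => r M x = x)).card < n := by
              rw [← hn]
              apply Finset.card_lt_card
              rw [Finset.ssubset_iff_of_subset]
              · refine ⟨L', ?_, ?_⟩
                · rw [Finset.mem_filter]
                  refine ⟨Finset.mem_univ _, ?_⟩
                  have h5 := hr L' L' x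
                  rw [inf_idem, hL'] at h5
                  exact h5
                · rw [Finset.mem_filter]
                  rintro ⟨-, h6⟩
                  exact hxu (h6.symm.trans hL')
              · intro M hM
                rw [Finset.mem_filter] at hM ⊢
                exact ⟨Finset.mem_univ _, MOBB.fix_sub hr hL' hM.2⟩
            rw [ih _ hlt x rfl hgx, zero_mul]
        · intro hnu
          exact (hnu (Finset.mem_image.2 ⟨i0, Finset.mem_univ _, hv0⟩)).elim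
      · rw [hN]
        simp only
        refine Finset.sum_eq_zero fun i _ => ?_
        rw [if_neg (fun hh => hex ⟨i, hh⟩), mul_zero]
  intro u hu
  exact main _ u rfl hu

end Pool.Agent.DP


end

section

/-!
# The defect of a character and of a character under it of a normal subgroup
-/

namespace Pool.Agent.DPM

open Pool.Agent.DP Pool.Agent.DPC Pool.Agent.Lib_helper13 Representation

namespace DEFA

section

variable {L W : Type} [Group L] [Fintype L] [Group W] [Fintype W]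

/-- Conjugacy up to a central subgroup. -/
def std (e : W →* L) (hce : ∀ w x, e w * x = x * e w) : Setoid L where
  r x y := ∃ w, IsConj (e w * x) y
  iseqv := by
    refine ⟨?_, ?_, ?_⟩
    · intro x
      refine ⟨1, ?_⟩
      rw [map_one, one_mul]
    · rintro x y ⟨w, h⟩
      obtain ⟨g, hg⟩ := isConj_iff.mp h
      refine ⟨w⁻¹, isConj_iff.mpr ⟨g⁻¹, ?_⟩⟩
      rw [← hg, inv_inv, map_inv]
      have h1 : (e w)⁻¹ * (g * (e w * x) * g⁻¹) = g * x * g⁻¹ := by
        have h2 : g * (e w * x) * g⁻¹ = e w * (g * x * g⁻¹) := by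
          rw [← mul_assoc g, ← hce w g]
          simp only [mul_assoc]
        rw [h2, inv_mul_cancel_left]
      rw [h1]
      group
    · rintro x y z ⟨w, h⟩ ⟨v, h'⟩
      obtain ⟨g, hg⟩ := isConj_iff.mp h
      obtain ⟨g', hg'⟩ := isConj_iff.mp h'
      refine ⟨v * w, isConj_iff.mpr ⟨g' * g, ?_⟩⟩
      rw [← hg', ← hg, map_mul]
      have h2 : e v * (g * (e w * x) * g⁻¹) = g * (e v * (e w * x)) * g⁻¹ := by
        rw [← mul_assoc (e v), ← mul_assoc (e v), hce v g]
        simp only [mul_assoc]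
      rw [h2]
      group

/-- The degree of an irreducible character over a faithful character of a central subgroup. -/
theorem deg_bound (e : W →* L) (hce : ∀ w x, e w * x = x * e w) (μ : W →* ℂˣ)
    (hμ : Function.Injective μ) {η : L → ℂ} (hη : IsIrr η)
    (hov : ∀ w x, η (e w * x) = ((μ w : ℂˣ) : ℂ) * η x) {n : ℕ} (hn : η 1 = n) :
    Nat.card W * n ∣ Nat.card L := by
  classical
  have hn0 : n ≠ 0 := by
    rintro rfl
    exact hη.one_ne_zero (by rw [hn]; simp)
  have hnC : (n : ℂ) ≠ 0 := Nat.cast_ne_zero.mpr hn0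
  have hWC : (Nat.card W : ℂ) ≠ 0 := Nat.cast_ne_zero.mpr Nat.card_pos.ne'
  let rep : L → L := fun x => Quotient.out (Quotient.mk (std e hce) x)
  have hrep : ∀ x, ∃ w, IsConj (e w * x) (rep x) := by
    intro x
    have h1 : (std e hce).r (rep x) x := Quotient.mk_out (s := std e hce) x
    exact (std e hce).iseqv.symm h1
  have hrep2 : ∀ x y, (∃ w, IsConj (e w * x) y) → rep x = rep y := by
    intro x y h
    have h1 : Quotient.mk (std e hce) x = Quotient.mk (std e hce) y := Quotient.sound h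
    change Quotient.out _ = Quotient.out _
    rw [h1]
  -- the representatives
  let s : L → ℂ := fun x => if IsConj x (rep x) then 1 else 0
  have hs0 : ∀ x, s x = if IsConj x (rep x) then 1 else 0 := fun _ => rfl
  have hscl : ∀ g x, s (g * x * g⁻¹) = s x := by
    intro g x
    have h1 : IsConj x (g * x * g⁻¹) := isConj_iff.mpr ⟨g, rfl⟩
    have h2 : rep x = rep (g * x * g⁻¹) :=
      hrep2 _ _ ⟨1, by rw [map_one, one_mul]; exact h1⟩
    rw [hs0, hs0, ← h2]
    refine if_congr ⟨fun h => h1.trans h, fun h => h1.symm.trans h⟩ rfl rfl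
  have hsi : ∀ x, IsIntegral ℤ (s x) := by
    intro x
    rw [hs0]
    split_ifs
    · exact isIntegral_one
    · exact isIntegral_zero
  have hrw : ∀ w x, rep (e w * x) = rep x := by
    intro w x
    apply hrep2
    refine ⟨w⁻¹, ?_⟩
    rw [← mul_assoc, ← map_mul, inv_mul_cancel, map_one, one_mul]
  have hsum : ∀ x, η x ≠ 0 → ∑ w, s (e w * x) = 1 := by
    intro x hx
    obtain ⟨w0, hw0⟩ := hrep x
    rw [Finset.sum_eq_single w0]
    · rw [hs0, hrw, if_pos hw0]
    · intro w _ hw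
      rw [hs0, hrw, if_neg]
      intro h
      apply hw
      obtain ⟨g, hg⟩ := isConj_iff.mp (h.trans hw0.symm)
      have h1 : η (e w0 * x) = η (e w * x) := by
        rw [← hg, hη.conj_eq]
      rw [hov, hov] at h1
      have h2 : ((μ w0 : ℂˣ) : ℂ) = ((μ w : ℂˣ) : ℂ) := mul_right_cancel₀ hx h1
      exact (hμ (Units.ext h2)).symm
    · intro h
      exact absurd (Finset.mem_univ _) h
  have hinv : ∀ w x, η (e w * x) * η (e w * x)⁻¹ = η x * η x⁻¹ := by
    intro w x
    have h1 : (e w * x)⁻¹ = e w⁻¹ * x⁻¹ := by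
      rw [mul_inv_rev, map_inv]
      have h2 := hce w⁻¹ x⁻¹
      rw [map_inv] at h2
      exact h2.symm
    rw [h1, hov, hov, map_inv]
    have h2 : ((μ w : ℂˣ) : ℂ) * (((μ w)⁻¹ : ℂˣ) : ℂ) = 1 := by
      rw [← Units.val_mul, mul_inv_cancel, Units.val_one]
    calc ((μ w : ℂˣ) : ℂ) * η x * ((((μ w)⁻¹ : ℂˣ) : ℂ) * η x⁻¹)
        = ((μ w : ℂˣ) : ℂ) * (((μ w)⁻¹ : ℂˣ) : ℂ) * (η x * η x⁻¹) := by ring
      _ = η x * η x⁻¹ := by rw [h2, one_mul]
  have hT : (Nat.card L : ℂ) = Nat.card W * ∑ y, s y * (η y * η y⁻¹) := by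
    have h1 : ∑ x, η x * η x⁻¹ = ∑ x, ∑ w, s (e w * x) * (η x * η x⁻¹) := by
      refine Finset.sum_congr rfl fun x _ => ?_
      rw [← Finset.sum_mul]
      by_cases hx : η x = 0
      · rw [hx, zero_mul, mul_zero]
      · rw [hsum x hx, one_mul]
    have h2 : ∀ w, ∑ x, s (e w * x) * (η x * η x⁻¹) = ∑ y, s y * (η y * η y⁻¹) := by
      intro w
      refine Fintype.sum_equiv (Equiv.mulLeft (e w)) _ _ fun x => ?_
      rw [Equiv.coe_mulLeft, hinv]
    rw [← hη.sum_self, h1, Finset.sum_comm]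
    simp only [h2]
    rw [Finset.sum_const, Finset.card_univ, nsmul_eq_mul, Nat.card_eq_fintype_card]
  have h1 : IsIntegral ℤ (wt η (fun x => s x * η x⁻¹)) := by
    apply isIntegral_wt hη
    · intro g x
      have h2 : (g * x * g⁻¹)⁻¹ = g * x⁻¹ * g⁻¹ := by group
      rw [h2, hη.conj_eq, hscl]
    · intro x
      exact (hsi x).mul (isIntegral_char hη _)
  have h2 : wt η (fun x => s x * η x⁻¹) = Nat.card L / (Nat.card W * n) := by
    rw [wt, hn, hT]
    have h3 : ∑ y, s y * η y⁻¹ * η y = ∑ y, s y * (η y * η y⁻¹) :=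
      Finset.sum_congr rfl fun y _ => by ring
    rw [h3, mul_div_mul_left _ _ hWC]
  rw [h2] at h1
  have h3 : ((Nat.card L : ℂ) / (Nat.card W * n)) =
      algebraMap ℚ ℂ ((Nat.card L : ℚ) / (Nat.card W * n)) := by
    rw [map_div₀, map_mul, map_natCast, map_natCast, map_natCast]
  rw [h3, isIntegral_algebraMap_iff (algebraMap ℚ ℂ).injective] at h1
  obtain ⟨z, hz⟩ := IsIntegrallyClosed.isIntegral_iff.mp h1
  have hnQ : (n : ℚ) ≠ 0 := Nat.cast_ne_zero.mpr hn0
  have hWQ : (Nat.card W : ℚ) ≠ 0 := Nat.cast_ne_zero.mpr Nat.card_pos.ne'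
  have h4 : (Nat.card L : ℚ) = z * (Nat.card W * n) := by
    have h5 : (z : ℚ) = (Nat.card L : ℚ) / (Nat.card W * n) := hz
    rw [h5, div_mul_cancel₀ _ (mul_ne_zero hWQ hnQ)]
  have h5 : (Nat.card L : ℤ) = z * (Nat.card W * n) := by exact_mod_cast h4
  have h6 : ((Nat.card W * n : ℕ) : ℤ) ∣ Nat.card L := ⟨z, by rw [h5, mul_comm]; push_cast; rfl⟩
  exact_mod_cast h6

end

end DEFA

open _root_.Pool.Agent.DPM.DEFA in
theorem DEFA_thm (h1 : Stmt_TWC) (h2 : Stmt_TWN) : Stmt_DEFA := by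
  classical
  intro A Y K _ _ _ _ _ ℓ _ j c p hc χ θ hχ hθ hip d a hd ha
  obtain ⟨ψ, hψ, hψθ, hψχ⟩ := (CCOR_thm IND_thm SUMM_thm A Y K j c p hc θ hθ).2.2 χ hχ hip
  rw [CCOR.ext0_jj hc hθ] at hψθ
  have hcT := CCOR.clG_jj hc hθ
  -- surjectivity
  let p' : inert c θ →* (p.comp (inert c θ).subtype).range :=
    (p.comp (inert c θ).subtype).rangeRestrict
  have hp' : Function.Surjective p' := MonoidHom.rangeRestrict_surjective _
  have hcl : ClG (CCOR.jj hc hθ) (c.comp (inert c θ).subtype) p' := by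
    refine ⟨hcT.inj, hcT.act, ?_⟩
    intro y
    rw [← hcT.ker y]
    constructor
    · intro h
      exact congrArg Subtype.val h
    · intro h
      exact Subtype.ext h
  have hinv : ∀ (t : inert c θ) (x : A), θ ((c.comp (inert c θ).subtype) t x) = θ x := by
    intro t x
    exact t.2 x
  obtain ⟨Γ, L, iΓ, fΓ, iL, fL, e, q, r, E, U, μ, π, hT⟩ :=
    h1 A (inert c θ) _ (CCOR.jj hc hθ) (c.comp (inert c θ).subtype) p' hcl hp' θ hθ hinv
  have hfin : Finite (p.comp (inert c θ).subtype).range := Finite.of_surjective p' hp'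
  obtain ⟨-, -, -, g4, -, -, g7, -⟩ :=
    h2 A (inert c θ) _ Γ L ℓ (CCOR.jj hc hθ) (c.comp (inert c θ).subtype) p' hcl hp' θ hθ hinv
      e q r E U μ π hT ⊤
  -- transport to the whole preimage
  have htop : ∀ t : inert c θ, t ∈ (⊤ : Subgroup (p.comp (inert c θ).subtype).range).comap p' :=
    fun t => Subgroup.mem_comap.mpr (Subgroup.mem_top _)
  let ε : ↥((⊤ : Subgroup (p.comp (inert c θ).subtype).range).comap p') ≃* inert c θ :=
    { toFun := fun t => t.1
      invFun := fun t => ⟨t, htop t⟩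
      left_inv := fun t => rfl
      right_inv := fun t => rfl
      map_mul' := fun _ _ => rfl }
  have hψ' : IsIrr (fun t => ψ (ε t)) := hψ.comp_mulEquiv ε
  have hψθ' : ip (fun x : A => ext0 (fun t => ψ (ε t)) (CCOR.jj hc hθ x)) θ ≠ 0 := by
    have h3 : (fun x : A => ext0 (fun t => ψ (ε t)) (CCOR.jj hc hθ x)) =
        resj (CCOR.jj hc hθ) ψ := by
      funext x
      rw [ext0_of_mem _ (htop _)]
      rfl
    rw [h3]
    exact hψθ
  obtain ⟨η, hη, hov, hcor⟩ := g4 _ hψ' hψθ'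
  obtain ⟨dψ, hdψ⟩ := hψ.exists_defect (ℓ := ℓ)
  obtain ⟨dη, hdη⟩ := hη.exists_defect (ℓ := ℓ)
  have hkey := g7 _ η a dψ dη hη hcor ha ((hasDefect_comp_equiv ε).mpr hdψ) hdη
  -- the degree of η
  have hle : U ≤ (⊤ : Subgroup (p.comp (inert c θ).subtype).range).comap π := by
    intro x _
    exact Subgroup.mem_comap.mpr (Subgroup.mem_top _)
  have hbd : padicValNat ℓ (Nat.card U) ≤ dη := by
    obtain ⟨n, hn, hn'⟩ := hdη
    have hn0 : n ≠ 0 := by
      rintro rfl
      exact hη.one_ne_zero (by rw [hn]; simp)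
    have hdv : Nat.card U * n ∣
        Nat.card ↥((⊤ : Subgroup (p.comp (inert c θ).subtype).range).comap π) := by
      refine deg_bound (Subgroup.inclusion hle) ?_ μ hT.inj hη ?_ hn
      · intro w x
        apply Subtype.ext
        exact (Subgroup.mem_center_iff.mp (hT.Uc w.2) (x : L)).symm
      · intro w x
        exact hov (Subgroup.inclusion hle w) x w.2
    obtain ⟨m, hm⟩ := hdv
    have hm0 : m ≠ 0 := by
      rintro rfl
      exact Nat.card_pos.ne' (by rw [hm, mul_zero])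
    have hU0 : Nat.card U ≠ 0 := Nat.card_pos.ne'
    rw [hm, padicValNat.mul (mul_ne_zero hU0 hn0) hm0, padicValNat.mul hU0 hn0] at hn'
    omega
  -- the defects of χ and ψ agree
  have hdd : dψ = d := by
    obtain ⟨n, hn, hn'⟩ := hdψ
    obtain ⟨m, hm, hm'⟩ := hd
    have hn0 : n ≠ 0 := by
      rintro rfl
      exact hψ.one_ne_zero (by rw [hn]; simp)
    have hm0 : m ≠ 0 := by
      rintro rfl
      exact hχ.one_ne_zero (by rw [hm]; simp)
    have hT0 : Nat.card (inert c θ) ≠ 0 := Nat.card_pos.ne'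
    have hY0 : Nat.card Y ≠ 0 := Nat.card_pos.ne'
    have h3 : (m : ℂ) = (Nat.card Y : ℂ) * n / Nat.card (inert c θ) := by
      rw [← hm, ← hn, ← IND.indc_one, hψχ]
    have h4 : m * Nat.card (inert c θ) = Nat.card Y * n := by
      have h5 : (Nat.card (inert c θ) : ℂ) ≠ 0 := Nat.cast_ne_zero.mpr hT0
      rw [eq_div_iff h5] at h3
      exact_mod_cast h3
    have h5 := congrArg (padicValNat ℓ) h4
    rw [padicValNat.mul hm0 hT0, padicValNat.mul hY0 hn0] at h5
    omega
  omega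

end Pool.Agent.DPM


end

section

/-!
# Module TWC: existence of the twisted group
-/

set_option autoImplicit false

namespace Pool.Agent.DPM

open Pool.Agent.DP Pool.Agent.DPC Pool.Agent.Lib_helper13 Representation
open Pool.Agent.Lib_helper13.Dade (pCore DadeHolds dadeSum)

namespace TWC

section abs

variable {A T G Z : Type} [Group A] [Group T] [Group G] [CommGroup Z]

/-- The group of the pairs `(y, M)` where `M` is a multiple of `τ y` by a root of unity. -/
def Gam (s : Z →* G) (τ : T → G) (N : ℕ) (hs : ∀ z g, s z * g = g * s z) (h1 : τ 1 = 1)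
    (hm : ∀ y y', ∃ ζ, ζ ^ N = 1 ∧ τ y * τ y' = s ζ * τ (y * y')) : Subgroup (T × G) where
  carrier := {x | ∃ ζ : Z, ζ ^ N = 1 ∧ x.2 = s ζ * τ x.1}
  one_mem' := ⟨1, one_pow N, by rw [map_one, one_mul]; exact h1.symm⟩
  mul_mem' := by
    rintro x x' ⟨ζ, hζ, h⟩ ⟨ζ', hζ', h'⟩
    obtain ⟨ζ'', hζ'', h''⟩ := hm x.1 x'.1
    refine ⟨ζ * ζ' * ζ'', by rw [mul_pow, mul_pow, hζ, hζ', hζ'', one_mul, one_mul], ?_⟩
    show x.2 * x'.2 = s (ζ * ζ' * ζ'') * τ (x.1 * x'.1)
    rw [h, h', map_mul, map_mul]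
    calc s ζ * τ x.1 * (s ζ' * τ x'.1) = s ζ * (τ x.1 * s ζ') * τ x'.1 := by group
      _ = s ζ * (s ζ' * τ x.1) * τ x'.1 := by rw [hs ζ' (τ x.1)]
      _ = s ζ * s ζ' * (τ x.1 * τ x'.1) := by group
      _ = s ζ * s ζ' * s ζ'' * τ (x.1 * x'.1) := by rw [h'']; group
  inv_mem' := by
    rintro x ⟨ζ, hζ, h⟩
    obtain ⟨ζ', hζ', h'⟩ := hm x.1 x.1⁻¹
    rw [mul_inv_cancel, h1, mul_one] at h'
    refine ⟨ζ⁻¹ * ζ'⁻¹, by rw [mul_pow, inv_pow, inv_pow, hζ, hζ', inv_one, mul_one], ?_⟩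
    show (x.2)⁻¹ = s (ζ⁻¹ * ζ'⁻¹) * τ (x.1)⁻¹
    have h2 : τ (x.1)⁻¹ = (τ x.1)⁻¹ * s ζ' := by rw [← h']; group
    rw [h, h2, mul_inv_rev, map_mul, map_inv, map_inv]
    have h3 : (s ζ)⁻¹ * (s ζ')⁻¹ * ((τ x.1)⁻¹ * s ζ') =
        (s ζ)⁻¹ * ((s ζ')⁻¹ * ((τ x.1)⁻¹ * s ζ')) := by group
    rw [h3, ← hs ζ' (τ x.1)⁻¹, inv_mul_cancel_left, ← map_inv, hs]

theorem mem_Gam {s : Z →* G} {τ : T → G} {N : ℕ} {hs : ∀ z g, s z * g = g * s z} {h1 : τ 1 = 1}
    {hm : ∀ y y', ∃ ζ, ζ ^ N = 1 ∧ τ y * τ y' = s ζ * τ (y * y')} {x : T × G} :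
    x ∈ Gam s τ N hs h1 hm ↔ ∃ ζ : Z, ζ ^ N = 1 ∧ x.2 = s ζ * τ x.1 := Iff.rfl

end abs

end TWC

open _root_.Pool.Agent.DPM.TWC in
/-- TWC. -/
theorem TWC_thm : Stmt_TWC := by
  classical
  intro A T K _ _ _ _ _ j c p hc hp θ hθ hinv
  obtain ⟨n, R, hR, rfl⟩ := hθ
  obtain ⟨t, ht1, ht2, ht3, ht4, ht5⟩ := Pool.Agent.DPV.PRJA_thm A T K j c p hc n R hR hinv
  obtain ⟨m, hm⟩ : ∃ m, m = Nat.card p.range := ⟨_, rfl⟩
  have : Finite p.range := Finite.of_surjective p.rangeRestrict p.rangeRestrict_surjective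
  have hm0 : 0 < m := by rw [hm]; exact Nat.card_pos
  rw [← hm] at ht5
  have hT0 : 0 < Nat.card T := Nat.card_pos
  obtain ⟨N, hN⟩ : ∃ N, N = Nat.card T * m := ⟨_, rfl⟩
  have hN0 : 0 < N := by rw [hN]; exact Nat.mul_pos hT0 hm0
  have hNN : NeZero N := ⟨hN0.ne'⟩
  -- the units
  let s : ℂˣ →* (Module.End ℂ (Fin n → ℂ))ˣ := Units.map (algebraMap ℂ (Module.End ℂ (Fin n → ℂ)))
  have hsv : ∀ z : ℂˣ, ((s z : (Module.End ℂ (Fin n → ℂ))ˣ) : Module.End ℂ (Fin n → ℂ)) =
      (z : ℂ) • 1 := fun z => Algebra.algebraMap_eq_smul_one (z : ℂ)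
  have hs : ∀ (z : ℂˣ) (g : (Module.End ℂ (Fin n → ℂ))ˣ), s z * g = g * s z := by
    intro z g
    apply Units.ext
    rw [Units.val_mul, Units.val_mul, hsv, smul_mul_assoc, mul_smul_comm, one_mul, mul_one]
  have hsi : Function.Injective s := by
    intro z z' h
    apply Units.ext
    have h2 := congrArg Units.val h
    rw [hsv, hsv] at h2
    exact Pool.Agent.DPV.PRJA.smul_inj R hR 1 isUnit_one _ _ h2
  obtain ⟨τ, hτ⟩ : ∃ τ : T → (Module.End ℂ (Fin n → ℂ))ˣ, ∀ y, (τ y : Module.End ℂ (Fin n → ℂ)) =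
    t y := ⟨fun y => (ht4 y).unit, fun y => (ht4 y).unit_spec⟩
  have hτ1 : τ 1 = 1 := by
    apply Units.ext
    rw [hτ, ← map_one j, ht1, map_one]
    rfl
  have hτmm : ∀ y y', ∃ ζ : ℂˣ, ζ ^ m = 1 ∧ τ y * τ y' = s ζ * τ (y * y') := by
    intro y y'
    obtain ⟨ζ, hζ, h⟩ := ht5 y y'
    have hζ0 : ζ ≠ 0 := by
      rintro rfl
      rw [zero_pow hm0.ne'] at hζ
      exact zero_ne_one hζ
    refine ⟨Units.mk0 ζ hζ0, ?_, ?_⟩
    · apply Units.ext
      rw [Units.val_pow_eq_pow_val, Units.val_mk0, hζ, Units.val_one]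
    · apply Units.ext
      rw [Units.val_mul, Units.val_mul, hsv, Units.val_mk0, hτ, hτ, hτ, h, smul_mul_assoc, one_mul]
  have hτm : ∀ y y', ∃ ζ : ℂˣ, ζ ^ N = 1 ∧ τ y * τ y' = s ζ * τ (y * y') := by
    intro y y'
    obtain ⟨ζ, hζ, h⟩ := hτmm y y'
    exact ⟨ζ, by rw [hN, mul_comm, pow_mul, hζ, one_pow], h⟩
  let ρ : A →* (Module.End ℂ (Fin n → ℂ))ˣ := R.toHomUnits
  have hρv : ∀ a, ((ρ a : (Module.End ℂ (Fin n → ℂ))ˣ) : Module.End ℂ (Fin n → ℂ)) = R a :=
    fun a => rfl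
  have hρτ : ∀ a, τ (j a) = ρ a := by
    intro a
    apply Units.ext
    rw [hτ, ht1, hρv]
  have hcomm : ∀ y a, τ y * ρ a = ρ (c y a) * τ y := by
    intro y a
    apply Units.ext
    rw [Units.val_mul, Units.val_mul, hτ, hρv, hρv, ht3]
  obtain ⟨Γ₀, hΓ₀⟩ : ∃ Γ₀, Γ₀ = Gam s τ N hs hτ1 hτm := ⟨_, rfl⟩
  have hmem : ∀ x, x ∈ Γ₀ ↔ ∃ ζ : ℂˣ, ζ ^ N = 1 ∧ x.2 = s ζ * τ x.1 := by
    intro x
    rw [hΓ₀]
    exact mem_Gam
  -- finiteness
  have hfinΓ : Finite Γ₀ := by
    let f : T × rootsOfUnity N ℂ → Γ₀ := fun x => ⟨(x.1, s (x.2 : ℂˣ) * τ x.1), (hmem _).2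
      ⟨x.2, (mem_rootsOfUnity N _).1 x.2.2, rfl⟩⟩
    refine Finite.of_surjective f ?_
    rintro ⟨⟨y, M⟩, hx⟩
    obtain ⟨ζ, hζ, hM⟩ := (hmem _).1 hx
    refine ⟨(y, ⟨ζ, (mem_rootsOfUnity N _).2 hζ⟩), ?_⟩
    apply Subtype.ext
    exact Prod.ext rfl hM.symm
  let r : Γ₀ →* T := (MonoidHom.fst T _).comp Γ₀.subtype
  let e : A →* Γ₀ := (j.prod ρ).codRestrict Γ₀ (fun a => (hmem _).2
    ⟨1, one_pow N, by rw [map_one, one_mul]; exact (hρτ a).symm⟩)
  have hre : ∀ a, r (e a) = j a := fun a => rfl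
  have he2 : ∀ a, (e a).1.2 = ρ a := fun a => rfl
  have hrs : Function.Surjective r := fun y => ⟨⟨(y, τ y), (hmem _).2
    ⟨1, one_pow N, by rw [map_one, one_mul]⟩⟩, rfl⟩
  have hker : ∀ z : Γ₀, r z = 1 → ∃ ζ : ℂˣ, ζ ^ N = 1 ∧ z.1.2 = s ζ := by
    intro z hz
    obtain ⟨ζ, hζ, h⟩ := (hmem _).1 z.2
    refine ⟨ζ, hζ, ?_⟩
    have hz' : z.1.1 = 1 := hz
    rw [h, hz', hτ1, mul_one]
  have hrc : ∀ z γ : Γ₀, r z = 1 → z * γ = γ * z := by
    intro z γ hz
    obtain ⟨ζ, -, h⟩ := hker z hz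
    have hz' : z.1.1 = 1 := hz
    apply Subtype.ext
    apply Prod.ext
    · show z.1.1 * γ.1.1 = γ.1.1 * z.1.1
      rw [hz', one_mul, mul_one]
    · show z.1.2 * γ.1.2 = γ.1.2 * z.1.2
      rw [h, hs]
  have hnorm : e.range.Normal := by
    refine ⟨?_⟩
    rintro _ ⟨a, rfl⟩ γ
    obtain ⟨ζ, -, h⟩ := (hmem _).1 γ.2
    refine ⟨c γ.1.1 a, ?_⟩
    rw [eq_mul_inv_iff_mul_eq]
    apply Subtype.ext
    apply Prod.ext
    · show j (c γ.1.1 a) * γ.1.1 = γ.1.1 * j a
      rw [hc.act, inv_mul_cancel_right]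
    · show ρ (c γ.1.1 a) * γ.1.2 = γ.1.2 * ρ a
      rw [h, mul_assoc, hcomm, ← mul_assoc, ← mul_assoc, hs]
  let q : Γ₀ →* Γ₀ ⧸ e.range := QuotientGroup.mk' e.range
  have hqs : Function.Surjective q := QuotientGroup.mk'_surjective _
  have hqk : ∀ γ, q γ = 1 ↔ γ ∈ e.range := fun γ => QuotientGroup.eq_one_iff γ
  have hpj : ∀ a, p (j a) = 1 := fun a => (hc.ker _).2 ⟨a, rfl⟩
  let π : Γ₀ ⧸ e.range →* K := QuotientGroup.lift e.range (p.comp r) (by
    rintro _ ⟨a, rfl⟩
    exact hpj a)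
  have hπq : ∀ γ, π (q γ) = p (r γ) := fun γ => rfl
  have hπs : Function.Surjective π := by
    intro k
    obtain ⟨y, rfl⟩ := hp k
    obtain ⟨γ, rfl⟩ := hrs y
    exact ⟨q γ, hπq γ⟩
  let U : Subgroup (Γ₀ ⧸ e.range) := r.ker.map q
  have hπk : ∀ l, π l = 1 ↔ l ∈ U := by
    intro l
    obtain ⟨γ, rfl⟩ := hqs l
    rw [hπq, hc.ker]
    constructor
    · rintro ⟨a, ha⟩
      refine ⟨γ * (e a)⁻¹, ?_, ?_⟩
      · show r (γ * (e a)⁻¹) = 1
        rw [map_mul, map_inv, hre, ha, mul_inv_cancel]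
      · rw [map_mul, map_inv, (hqk (e a)).2 ⟨a, rfl⟩, inv_one, mul_one]
    · rintro ⟨z, hz, hzq⟩
      have h1 : q (z⁻¹ * γ) = 1 := by rw [map_mul, map_inv, hzq, inv_mul_cancel]
      obtain ⟨a, ha⟩ := (hqk _).1 h1
      refine ⟨a, ?_⟩
      have hz' : r z = 1 := hz
      rw [← hre, ha, map_mul, map_inv, hz', inv_one, one_mul]
  have hinter : ∀ z : Γ₀, r z = 1 → z ∈ e.range → z = 1 := by
    rintro _ hz ⟨a, rfl⟩
    rw [hre, ← map_one j] at hz
    rw [hc.inj hz, map_one]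
  -- the linear character
  have hmemr : ∀ z : r.ker, z.1.1.2 ∈ s.range := by
    intro z
    obtain ⟨ζ, -, h⟩ := hker z.1 z.2
    exact ⟨ζ, h.symm⟩
  let l0 : r.ker →* ℂˣ := (MonoidHom.ofInjective hsi).symm.toMonoidHom.comp
    ((((MonoidHom.snd T _).comp Γ₀.subtype).comp r.ker.subtype).codRestrict s.range hmemr)
  have hl0 : ∀ z : r.ker, s (l0 z) = z.1.1.2 := by
    intro z
    have h1 := (MonoidHom.ofInjective hsi).apply_symm_apply ⟨z.1.1.2, hmemr z⟩
    exact congrArg Subtype.val h1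
  have hl0i : Function.Injective l0 := by
    intro z z' h
    apply Subtype.ext
    apply Subtype.ext
    apply Prod.ext
    · have h1 : z.1.1.1 = 1 := z.2
      have h2 : z'.1.1.1 = 1 := z'.2
      rw [h1, h2]
    · rw [← hl0, ← hl0, h]
  have hκ : Function.Bijective (q.subgroupMap r.ker) := by
    constructor
    · rw [injective_iff_map_eq_one]
      intro z hz
      apply Subtype.ext
      refine hinter z.1 z.2 ((hqk _).1 ?_)
      exact congrArg Subtype.val hz
    · exact q.subgroupMap_surjective r.ker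
  let κ : r.ker ≃* U := MulEquiv.ofBijective (q.subgroupMap r.ker) hκ
  let μ : U →* ℂˣ := (l0.comp κ.symm.toMonoidHom)⁻¹
  have hμ : ∀ (z : Γ₀) (hz : r z = 1) (hU : q z ∈ U), μ ⟨q z, hU⟩ = (l0 ⟨z, hz⟩)⁻¹ := by
    intro z hz hU
    have h1 : κ ⟨z, hz⟩ = ⟨q z, hU⟩ := rfl
    show (l0 (κ.symm ⟨q z, hU⟩))⁻¹ = _
    rw [← h1, MulEquiv.symm_apply_apply]
  have hμi : Function.Injective μ := by
    intro u u' h
    have h1 : (l0 (κ.symm u))⁻¹ = (l0 (κ.symm u'))⁻¹ := h
    exact κ.symm.injective (hl0i (inv_injective h1))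
  let P : Representation ℂ Γ₀ (Fin n → ℂ) :=
    (Units.coeHom (Module.End ℂ (Fin n → ℂ))).comp ((MonoidHom.snd T _).comp Γ₀.subtype)
  have hP : ∀ γ : Γ₀, P γ = ((γ.1.2 : (Module.End ℂ (Fin n → ℂ))ˣ) : Module.End ℂ (Fin n → ℂ)) :=
    fun γ => rfl
  have hfinL : Finite (Γ₀ ⧸ e.range) := inferInstance
  refine ⟨Γ₀, Γ₀ ⧸ e.range, inferInstance, Fintype.ofFinite _, inferInstance, Fintype.ofFinite _,
    e, q, r, P.character, U, μ, π, ?_⟩
  refine { re := hre
           rs := hrs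
           qs := hqs
           qk := hqk
           πq := hπq
           πs := hπs
           πk := hπk
           rc := hrc
           Uc := ?_
           cyc := ?_
           inj := hμi
           Ec := ⟨n, P, rfl⟩
           Ee := fun a => rfl
           El := ?_
           ce := ?_ }
  · rintro _ ⟨z, hz, rfl⟩
    rw [Subgroup.mem_center_iff]
    intro l
    obtain ⟨γ, rfl⟩ := hqs l
    rw [← map_mul, ← map_mul, hrc z γ hz]
  · have : Finite U := inferInstance
    exact isCyclic_of_injective_ringHom ((Units.coeHom ℂ).comp μ)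
      (Units.val_injective.comp hμi)
  · intro z γ hU hz
    rw [hμ z hz hU]
    show (((l0 ⟨z, hz⟩)⁻¹ : ℂˣ) : ℂ) * LinearMap.trace ℂ _ (P (z * γ)) =
      LinearMap.trace ℂ _ (P γ)
    have h1 : P (z * γ) = ((l0 ⟨z, hz⟩ : ℂˣ) : ℂ) • P γ := by
      rw [map_mul, hP z, ← hl0 ⟨z, hz⟩, hsv, smul_mul_assoc, one_mul]
    rw [h1, map_smul, smul_eq_mul, ← mul_assoc, ← Units.val_mul, inv_mul_cancel, Units.val_one,
      one_mul]
  · intro y hy
    have hca : ∀ a, c y a = a := by
      intro a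
      apply hc.inj
      rw [hc.act, hy, mul_inv_cancel_right]
    have hsc : ∃ z : ℂ, t y = z • (1 : Module.End ℂ (Fin n → ℂ)) := by
      have : R.IsIrreducible := hR
      obtain ⟨z, hz⟩ := COSET.scalar R (t y) (fun a v => by
        have h1 := ht3 y a
        rw [hca] at h1
        exact congrArg (fun F : Module.End ℂ (Fin n → ℂ) => F v) h1)
      exact ⟨z, hz⟩
    obtain ⟨z, hz⟩ := hsc
    have hz0 : z ≠ 0 := by
      rintro rfl
      obtain ⟨w, hw⟩ := ht4 y
      apply Pool.Agent.DPV.PRJA.one_ne_zero' R hR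
      calc (1 : Module.End ℂ (Fin n → ℂ)) = (w : Module.End ℂ (Fin n → ℂ)) * ↑w⁻¹ := by
            rw [Units.mul_inv]
        _ = 0 := by rw [hw, hz, zero_smul, zero_mul]
    have hτz : τ y = s (Units.mk0 z hz0) := by
      apply Units.ext
      rw [hτ, hsv, Units.val_mk0, hz]
    have hpow : ∀ k : ℕ, ∃ ζ : ℂˣ, ζ ^ m = 1 ∧ τ y ^ k = s ζ * τ (y ^ k) := by
      intro k
      induction k with
      | zero => exact ⟨1, one_pow m, by rw [pow_zero, pow_zero, map_one, hτ1, one_mul]⟩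
      | succ k ih =>
        obtain ⟨ζ, hζ, h⟩ := ih
        obtain ⟨ζ', hζ', h'⟩ := hτmm (y ^ k) y
        refine ⟨ζ * ζ', by rw [mul_pow, hζ, hζ', one_mul], ?_⟩
        rw [pow_succ, h, mul_assoc, h', pow_succ, map_mul, mul_assoc]
    obtain ⟨ζ, hζ, h⟩ := hpow (Nat.card T)
    rw [pow_card_eq_one', hτ1, mul_one, hτz, ← map_pow] at h
    have hzN : (Units.mk0 z hz0) ^ N = 1 := by
      rw [hN, pow_mul, hsi h, hζ]
    refine ⟨⟨(y, 1), (hmem _).2 ⟨(Units.mk0 z hz0)⁻¹, by rw [inv_pow, hzN, inv_one], ?_⟩⟩, rfl, ?_⟩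
    · show (1 : (Module.End ℂ (Fin n → ℂ))ˣ) = s (Units.mk0 z hz0)⁻¹ * τ y
      rw [hτz, ← map_mul, inv_mul_cancel, map_one]
    · intro γ'
      show LinearMap.trace ℂ _ (P _) = LinearMap.trace ℂ _ (P γ')
      congr 1

end Pool.Agent.DPM


end

section

/-!
# PHN: the numbers of the pairs in terms of the linear characters
-/

set_option autoImplicit false

namespace Pool.Agent.DPN

open Pool.Agent.DP Pool.Agent.DPC Pool.Agent.DPM Pool.Agent.Lib_helper13 Representation
open Pool.Agent.Lib_helper13.Dade (pCore DadeHolds dadeSum)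

namespace PHN

/-! ### Counting over all defects -/

theorem val_le {W : Type} [Group W] [Fintype W] (ℓ : ℕ) [Fact ℓ.Prime] (S : Subgroup W) :
    padicValNat ℓ (Nat.card S) ≤ padicValNat ℓ (Nat.card W) := by
  obtain ⟨k, hk⟩ := Subgroup.card_subgroup_dvd_card S
  have hk0 : k ≠ 0 := by
    rintro rfl
    rw [mul_zero] at hk
    exact Nat.card_pos.ne' hk
  rw [hk, padicValNat.mul Nat.card_pos.ne' hk0]
  exact Nat.le_add_right _ _

theorem sum_defect {G : Type} [Group G] [Fintype G] (ℓ : ℕ) [Fact ℓ.Prime] (n : ℕ)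
    (hn : padicValNat ℓ (Nat.card G) ≤ n) (P₁ P₂ : (G → ℂ) → Prop) :
    ∑ e ∈ Finset.range (n + 1),
      Nat.card {η : G → ℂ // IsIrr η ∧ P₁ η ∧ HasDefect ℓ η e ∧ P₂ η} =
    Nat.card {η : G → ℂ // IsIrr η ∧ P₁ η ∧ P₂ η} := by
  classical
  have h1 : ∀ e, Nat.card {η : G → ℂ // IsIrr η ∧ P₁ η ∧ HasDefect ℓ η e ∧ P₂ η} =
      ∑ η ∈ (irrF G).filter (fun η => P₁ η ∧ P₂ η), if HasDefect ℓ η e then 1 else 0 := by
    intro e
    rw [← Finset.sum_filter, Finset.sum_const, smul_eq_mul, mul_one]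
    refine Nat.subtype_card _ ?_
    intro η
    rw [Finset.mem_filter, Finset.mem_filter, mem_irrF]
    tauto
  have h2 : Nat.card {η : G → ℂ // IsIrr η ∧ P₁ η ∧ P₂ η} =
      ∑ η ∈ (irrF G).filter (fun η => P₁ η ∧ P₂ η), 1 := by
    rw [Finset.sum_const, smul_eq_mul, mul_one]
    refine Nat.subtype_card _ ?_
    intro η
    rw [Finset.mem_filter, mem_irrF]
  rw [Finset.sum_congr rfl fun e _ => h1 e, Finset.sum_comm, h2]
  refine Finset.sum_congr rfl fun η hη => ?_
  obtain ⟨d, hd⟩ := (mem_irrF.mp (Finset.mem_filter.mp hη).1).exists_defect (ℓ := ℓ)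
  have hdn : d ≤ n := by
    obtain ⟨k, _, hk⟩ := hd
    omega
  rw [Finset.sum_eq_single d]
  · rw [if_pos hd]
  · intro e _ hne
    rw [if_neg]
    intro he
    exact hne (he.unique hd)
  · intro h
    exact absurd (Finset.mem_range.mpr (by omega)) h

/-! ### The condition on the central functions -/

/-- The condition on the central functions. -/
def DD {T X W : Type} [Group T] [Group X] [Group W] (𝔐 : Ideal (integralClosure ℤ ℂ))
    (Lm : (T → ℤ) → W → (integralClosure ℤ ℂ) ⧸ 𝔐) (i : T →* X)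
    (ω : X → (integralClosure ℤ ℂ) ⧸ 𝔐) (n : ℕ) (c : W → (integralClosure ℤ ℂ) ⧸ 𝔐) : Prop :=
  ∀ g, pk 𝔐 (Lm (cI i g)) c = (n : ℕ) * ω g

section F

variable {O X H W : Type} [Group O] [Fintype O] [Group X] [Fintype X] [Group H] [Fintype H]
  [Group W] [Fintype W] {𝔐 : Ideal (integralClosure ℤ ℂ)} {ℓ : ℕ} {j : O →* X}
  {c : X →* MulAut O} {p : X →* H} {h : ClG j c p} {a : ℕ} {Z : Subgroup O}
  {Λ : O → (integralClosure ℤ ℂ) ⧸ 𝔐} {π : W →* H} {R : Subgroup W}
  {μ : ∀ τ : Finset (Subgroup O), (stb τ → ℂ) → (π.ker →* ℂˣ)}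
  {Lm : ∀ τ : Finset (Subgroup O), (stb τ → ℂ) → (YS j τ → ℤ) → W →
      (integralClosure ℤ ℂ) ⧸ 𝔐}

omit [Fintype O] [Fintype X] [Fintype H] in
theorem aiv_restr {u : X → ℤ} (hu : AIv j u) (τ : Finset (Subgroup O)) :
    AIv (jS h τ) (fun t : YS j τ => u t) := by
  intro b x
  exact hu (b : O) (x : X)

omit [Fintype O] [Fintype X] in
theorem aiv_cI (g : X) : AIv j (cI (MonoidHom.id X) g) := by
  intro b x
  unfold cI
  have h1 : IsConj x (j b * x * (j b)⁻¹) := isConj_iff.mpr ⟨j b, rfl⟩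
  by_cases h3 : IsConj (MonoidHom.id X x) g
  · rw [if_pos h3, if_pos]
    exact h1.symm.trans h3
  · rw [if_neg h3, if_neg]
    intro h4
    exact h3 (h1.trans h4)

omit [Fintype O] [Fintype X] in
theorem cI_restr (τ : Finset (Subgroup O)) (g : X) :
    cI (YS j τ).subtype g = fun t : YS j τ => cI (MonoidHom.id X) g t := by
  funext t
  rfl

/-- The scalars of the restrictions of the invariant functions vanish outside `R`. -/
theorem lm_zero (hF : Fam h 𝔐 ℓ a Z Λ π R μ Lm) {τ : Finset (Subgroup O)} {θ : stb τ → ℂ}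
    (hP : Pr h 𝔐 ℓ a Z Λ τ θ) {u : X → ℤ} (hu : AIv j u) {w : W} (hw : w ∉ R) :
    Lm τ θ (fun t => u t) w = 0 := by
  classical
  set u' : X → ℤ := fun x => if p x = π w then u x else 0 with hu'
  have hpj : ∀ b x, p (j b * x * (j b)⁻¹) = p x := by
    intro b x
    have : p (j b) = 1 := (h.ker _).mpr ⟨b, rfl⟩
    rw [map_mul, map_mul, map_inv, this]
    simp
  have hu'a : AIv j u' := by
    intro b x
    simp only [hu']
    rw [hpj, hu b x]
  have h1 : Lm τ θ (fun t => u t) w = Lm τ θ (fun t => u' t) w := by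
    refine (hF.rds τ θ hP).cgr _ _ (aiv_restr hu τ) (aiv_restr hu'a τ) w ?_
    intro t ht
    simp only [hu']
    rw [if_pos]
    exact ht
  rw [h1]
  by_contra hne
  refine hw ((hF.mem τ θ hP w).mpr ⟨u', hu'a, ?_, hne⟩)
  intro x hx
  simp only [hu']
  rw [if_neg hx]

/-- The condition depends only on the values on `R`. -/
theorem dd_congr (hF : Fam h 𝔐 ℓ a Z Λ π R μ Lm) {τ : Finset (Subgroup O)} {θ : stb τ → ℂ}
    (hP : Pr h 𝔐 ℓ a Z Λ τ θ) (ω : X → (integralClosure ℤ ℂ) ⧸ 𝔐) (n : ℕ)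
    (e e' : W → (integralClosure ℤ ℂ) ⧸ 𝔐) (hee : ∀ w ∈ R, e w = e' w) :
    DD 𝔐 (Lm τ θ) (YS j τ).subtype ω n e ↔ DD 𝔐 (Lm τ θ) (YS j τ).subtype ω n e' := by
  have h1 : ∀ g, pk 𝔐 (Lm τ θ (cI (YS j τ).subtype g)) e =
      pk 𝔐 (Lm τ θ (cI (YS j τ).subtype g)) e' := by
    intro g
    unfold pk
    refine finsum_congr fun C => ?_
    by_cases hC : C.out ∈ R
    · rw [hee _ hC]
    · rw [cI_restr, lm_zero hF hP (aiv_cI g) hC, zero_mul, zero_mul]
  unfold DD
  exact forall_congr' fun g => by rw [h1 g]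

/-! ### The twist -/

/-- The restriction of a linear character of `R`. -/
noncomputable def lr {R S : Subgroup W} (hS : S ≤ R) (ν : R →* ℂˣ) : S →* ℂˣ :=
  ν.comp (Subgroup.inclusion hS)

omit [Fintype W] in
theorem lr_apply {R S : Subgroup W} (hS : S ≤ R) (ν : R →* ℂˣ) (s : S) :
    lr hS ν s = ν ⟨s, hS s.2⟩ := rfl

theorem isIntegral_nu (ν : R →* ℂˣ) (r : R) : IsIntegral ℤ ((ν r : ℂˣ) : ℂ) := by
  have h1 : 0 < orderOf r := orderOf_pos r
  refine IsIntegral.of_pow h1 ?_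
  rw [← Units.val_pow_eq_pow_val, ← map_pow, pow_orderOf_eq_one, map_one, Units.val_one]
  exact isIntegral_one

/-- The central function of the twist. -/
theorem cen_tw (h𝔐 : 𝔐.IsMaximal) {S : Subgroup W} (hS : S ≤ R) (ν : R →* ℂˣ)
    (hν : ∀ (w : W) (r r' : R), (r' : W) = w * r * w⁻¹ → ν r' = ν r) {κ : S → ℂ}
    (hκ : IsIrr κ) (w : R) :
    cen 𝔐 S.subtype (fun s => κ s * ((lr hS ν s : ℂˣ) : ℂ)) (w : W) =
      red 𝔐 ((ν w : ℂˣ) : ℂ) * cen 𝔐 S.subtype κ (w : W) := by
  have h1 : wt (fun s => κ s * ((lr hS ν s : ℂˣ) : ℂ)) (fun y => conjInd (S.subtype y) (w : W)) =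
      ((ν w : ℂˣ) : ℂ) * wt κ (fun y => conjInd (S.subtype y) (w : W)) := by
    unfold wt
    change _ / (κ 1 * ((lr hS ν 1 : ℂˣ) : ℂ)) = _
    rw [map_one, Units.val_one, mul_one, ← mul_div_assoc, Finset.mul_sum]
    congr 1
    refine Finset.sum_congr rfl fun y _ => ?_
    by_cases hy : IsConj (S.subtype y) (w : W)
    · obtain ⟨g, hg⟩ := isConj_iff.mp hy
      have h2 : lr hS ν y = ν w := by
        rw [lr_apply]
        exact (hν g ⟨y, hS y.2⟩ w hg.symm).symm
      change conjInd (S.subtype y) (w : W) * (κ y * ((lr hS ν y : ℂˣ) : ℂ)) = _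
      rw [h2]
      ring
    · have h2 : conjInd (S.subtype y) (w : W) = 0 := by
        unfold conjInd
        rw [if_neg hy]
      change conjInd (S.subtype y) (w : W) * (κ y * ((lr hS ν y : ℂˣ) : ℂ)) =
        ((ν w : ℂˣ) : ℂ) * (conjInd (S.subtype y) (w : W) * κ y)
      rw [h2]
      ring
  have h3 : IsIntegral ℤ (wt κ (fun y => conjInd (S.subtype y) (w : W))) := by
    refine isIntegral_wt hκ _ ?_ ?_
    · intro g x
      have : S.subtype (g * x * g⁻¹) = S.subtype g * S.subtype x * (S.subtype g)⁻¹ := by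
        simp
      rw [this, conjInd_conj]
    · intro y
      exact isIntegral_conjInd _ _
  unfold cen
  rw [h1, red_mul 𝔐 (isIntegral_nu ν w) h3]

theorem dd_tw (h𝔐 : 𝔐.IsMaximal) (hF : Fam h 𝔐 ℓ a Z Λ π R μ Lm)
    {τ₀ : Finset (Subgroup O)} {θ₀ : stb τ₀ → ℂ} (hP₀ : Pr h 𝔐 ℓ a Z Λ τ₀ θ₀)
    {ν : ∀ τ : Finset (Subgroup O), (stb τ → ℂ) → (R →* ℂˣ)}
    (hN : NuF h 𝔐 ℓ a Z Λ π R μ Lm τ₀ θ₀ ν)
    {τ : Finset (Subgroup O)} {θ : stb τ → ℂ} (hP : Pr h 𝔐 ℓ a Z Λ τ θ)
    (ω : X → (integralClosure ℤ ℂ) ⧸ 𝔐) (n : ℕ) {S : Subgroup W} (hS : S ≤ R) {κ : S → ℂ}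
    (hκ : IsIrr κ) :
    DD 𝔐 (Lm τ θ) (YS j τ).subtype ω n
        (cen 𝔐 S.subtype (fun s => κ s * ((lr hS (ν τ θ) s : ℂˣ) : ℂ))) ↔
      DD 𝔐 (Lm τ₀ θ₀) (YS j τ₀).subtype ω n (cen 𝔐 S.subtype κ) := by
  have h1 : ∀ g, pk 𝔐 (Lm τ θ (cI (YS j τ).subtype g))
        (cen 𝔐 S.subtype (fun s => κ s * ((lr hS (ν τ θ) s : ℂˣ) : ℂ))) =
      pk 𝔐 (Lm τ₀ θ₀ (cI (YS j τ₀).subtype g)) (cen 𝔐 S.subtype κ) := by
    intro g
    unfold pk
    refine finsum_congr fun C => ?_
    by_cases hC : C.out ∈ R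
    · have h2 := cen_tw h𝔐 hS (ν τ θ) (hN.inv τ θ hP) hκ ⟨C.out, hC⟩
      have h3 := hN.rel τ θ hP _ (aiv_cI g) ⟨C.out, hC⟩
      change cen 𝔐 S.subtype (fun s => κ s * ((lr hS (ν τ θ) s : ℂˣ) : ℂ)) C.out = _ at h2
      change Lm τ₀ θ₀ (fun t => cI (MonoidHom.id X) g t) C.out =
        _ * Lm τ θ (fun t => cI (MonoidHom.id X) g t) C.out at h3
      rw [cI_restr, cI_restr, h2, h3]
      ring
    · rw [cI_restr, cI_restr, lm_zero hF hP (aiv_cI g) hC, lm_zero hF hP₀ (aiv_cI g) hC,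
        zero_mul, zero_mul]
  unfold DD
  exact forall_congr' fun g => by rw [h1 g]

theorem ovl_tw {τ₀ : Finset (Subgroup O)} {θ₀ : stb τ₀ → ℂ}
    {ν : ∀ τ : Finset (Subgroup O), (stb τ → ℂ) → (R →* ℂˣ)}
    (hN : NuF h 𝔐 ℓ a Z Λ π R μ Lm τ₀ θ₀ ν)
    {τ : Finset (Subgroup O)} {θ : stb τ → ℂ} (hP : Pr h 𝔐 ℓ a Z Λ τ θ)
    {S : Subgroup W} (hS : S ≤ R) (κ : S → ℂ) :
    OvL π.ker (μ τ θ) S (fun s => κ s * ((lr hS (ν τ θ) s : ℂˣ) : ℂ)) ↔
      OvL π.ker (μ τ₀ θ₀) S κ := by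
  unfold OvL
  refine forall_congr' fun s => forall_congr' fun t => forall_congr' fun hs => ?_
  have h1 : ν τ θ ⟨s, hS s.2⟩ * μ τ₀ θ₀ ⟨s, hs⟩ = μ τ θ ⟨s, hs⟩ :=
    hN.ker τ θ hP ⟨s, hs⟩ ⟨s, hS s.2⟩ rfl
  have h2 : ((lr hS (ν τ θ) (s * t) : ℂˣ) : ℂ) =
      ((ν τ θ ⟨s, hS s.2⟩ : ℂˣ) : ℂ) * ((lr hS (ν τ θ) t : ℂˣ) : ℂ) := by
    rw [map_mul, Units.val_mul]
    rfl
  change κ (s * t) * ((lr hS (ν τ θ) (s * t) : ℂˣ) : ℂ) =
      ((μ τ θ ⟨s, hs⟩ : ℂˣ) : ℂ) * (κ t * ((lr hS (ν τ θ) t : ℂˣ) : ℂ)) ↔ _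
  rw [← h1, h2, Units.val_mul]
  have h3 : ((ν τ θ ⟨s, hS s.2⟩ : ℂˣ) : ℂ) * ((lr hS (ν τ θ) t : ℂˣ) : ℂ) ≠ 0 :=
    mul_ne_zero (Units.ne_zero _) (Units.ne_zero _)
  constructor
  · intro h4
    refine mul_right_cancel₀ h3 ?_
    rw [h4]
    ring
  · intro h4
    rw [h4]
    ring

open Classical in
omit [Fintype O] [Fintype X] [Fintype H] in
/-- The idempotents of the twists. -/
theorem ed_lin {S : Subgroup W} (Q Q' : (S → ℂ) → Prop) (lam : S →* ℂˣ)
    (hQ : ∀ κ : S → ℂ, IsIrr κ → (Q' (fun s => κ s * ((lam s : ℂˣ) : ℂ)) ↔ Q κ)) (r : W)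
    (hr : r ∈ S) : ed S Q' r = ed S Q r * ((lam ⟨r, hr⟩ : ℂˣ) : ℂ)⁻¹ := by
  unfold ed
  rw [div_mul_eq_mul_div, Finset.sum_mul]
  congr 1
  have hback : ∀ κ : S → ℂ, (fun s => (fun s => κ s * (((lam⁻¹ : S →* ℂˣ) s : ℂˣ) : ℂ)) s *
      ((lam s : ℂˣ) : ℂ)) = κ := by
    intro κ
    funext s
    have h3 : (((lam⁻¹ : S →* ℂˣ) s : ℂˣ) : ℂ) * ((lam s : ℂˣ) : ℂ) = 1 := (lam s).inv_mul
    change κ s * (((lam⁻¹ : S →* ℂˣ) s : ℂˣ) : ℂ) * ((lam s : ℂˣ) : ℂ) = κ s
    rw [mul_assoc, h3, mul_one]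
  symm
  refine Finset.sum_bij' (fun κ _ => fun s => κ s * ((lam s : ℂˣ) : ℂ))
    (fun κ _ => fun s => κ s * (((lam⁻¹ : S →* ℂˣ) s : ℂˣ) : ℂ)) ?_ ?_ ?_ ?_ ?_
  · intro κ hκ
    obtain ⟨h1, h2⟩ := Finset.mem_filter.mp hκ
    rw [mem_irrF] at h1
    exact Finset.mem_filter.mpr ⟨mem_irrF.mpr (TWR.isIrr_tw h1 _), (hQ κ h1).mpr h2⟩
  · intro κ hκ
    obtain ⟨h1, h2⟩ := Finset.mem_filter.mp hκ
    rw [mem_irrF] at h1
    have h4 := TWR.isIrr_tw h1 (lam⁻¹)
    refine Finset.mem_filter.mpr ⟨mem_irrF.mpr h4, (hQ _ h4).mp ?_⟩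
    rw [hback κ]
    exact h2
  · intro κ _
    funext s
    have h3 : ((lam s : ℂˣ) : ℂ) * (((lam⁻¹ : S →* ℂˣ) s : ℂˣ) : ℂ) = 1 := (lam s).mul_inv
    change κ s * ((lam s : ℂˣ) : ℂ) * (((lam⁻¹ : S →* ℂˣ) s : ℂˣ) : ℂ) = κ s
    rw [mul_assoc, h3, mul_one]
  · intro κ _
    exact hback κ
  · intro κ _
    rw [ext0_of_mem _ (inv_mem hr), ext0_of_mem _ (inv_mem hr)]
    have h1 : ((lam ⟨r⁻¹, inv_mem hr⟩ : ℂˣ) : ℂ) = ((lam ⟨r, hr⟩ : ℂˣ) : ℂ)⁻¹ := by
      rw [← Units.val_inv_eq_inv_val, ← map_inv]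
      rfl
    change κ 1 * κ ⟨r⁻¹, inv_mem hr⟩ * ((lam ⟨r, hr⟩ : ℂˣ) : ℂ)⁻¹ =
      κ 1 * ((lam 1 : ℂˣ) : ℂ) * (κ ⟨r⁻¹, inv_mem hr⟩ * ((lam ⟨r⁻¹, inv_mem hr⟩ : ℂˣ) : ℂ))
    rw [h1, map_one, Units.val_one]
    ring

/-- The idempotents of the pairs. -/
theorem ed_tw (h𝔐 : 𝔐.IsMaximal) (hF : Fam h 𝔐 ℓ a Z Λ π R μ Lm)
    {τ₀ : Finset (Subgroup O)} {θ₀ : stb τ₀ → ℂ} (hP₀ : Pr h 𝔐 ℓ a Z Λ τ₀ θ₀)
    {ν : ∀ τ : Finset (Subgroup O), (stb τ → ℂ) → (R →* ℂˣ)}
    (hN : NuF h 𝔐 ℓ a Z Λ π R μ Lm τ₀ θ₀ ν)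
    {τ : Finset (Subgroup O)} {θ : stb τ → ℂ} (hP : Pr h 𝔐 ℓ a Z Λ τ θ)
    (ω : X → (integralClosure ℤ ℂ) ⧸ 𝔐) (n : ℕ) {S : Subgroup W} (hS : S ≤ R) (r : W)
    (hr : r ∈ S) (hr' : r ∈ R) :
    ed S (fun κ => OvL π.ker (μ τ θ) _ κ ∧
        DD 𝔐 (Lm τ θ) (YS j τ).subtype ω n (cen 𝔐 S.subtype κ)) r =
      ed S (fun κ => OvL π.ker (μ τ₀ θ₀) _ κ ∧
        DD 𝔐 (Lm τ₀ θ₀) (YS j τ₀).subtype ω n (cen 𝔐 S.subtype κ)) r *
        ((ν τ θ ⟨r, hr'⟩ : ℂˣ) : ℂ)⁻¹ :=
  ed_lin _ _ (lr hS (ν τ θ))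
    (fun κ hκ => and_congr (ovl_tw hN hP hS κ) (dd_tw h𝔐 hF hP₀ hN hP ω n hS hκ)) r hr

end F

end PHN

theorem PHN_thm (h1 : Stmt_ABF) (h2 : Stmt_WGT) : Stmt_PHN := by
  classical
  intro O X H W _ _ _ _ _ _ _ _ 𝔐 ℓ _ h𝔐 hℓ j c p h a Z Λ π R μ Lm hF τ₀ θ₀ hP₀ ν hN m hm ω
  refine ⟨fun x y => ∑ V : Subgroup H, (if π x ∈ V ∧ π y ∈ V then ((m V : ℚ) : ℂ) *
    ed (R ⊓ V.comap π) (fun κ => OvL π.ker (μ τ₀ θ₀) _ κ ∧
      PHN.DD 𝔐 (Lm τ₀ θ₀) (YS j τ₀).subtype ω (Nat.card π.ker)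
        (cen 𝔐 (R ⊓ V.comap π).subtype κ)) (x * y * x⁻¹ * y⁻¹) else 0), ?_⟩
  intro τ θ hP
  have hW := h2 (stb τ) (YS j τ) H W X 𝔐 ℓ a (jS h τ) (pS p j τ) θ π (μ τ θ) (Lm τ θ)
    (hF.rds τ θ hP) (YS j τ).subtype ω m hm (fun _ => 1) rfl
  have hA := h1 H W 𝔐 π hF.πs R hF.Rn hF.Rk (μ τ θ) hF.πc
    (PHN.DD 𝔐 (Lm τ θ) (YS j τ).subtype ω (Nat.card π.ker))
    (fun e e' hee => PHN.dd_congr hF hP ω _ e e' hee) m hm
  have hcount : ∀ V : Subgroup H, ∑ e ∈ Finset.range (padicValNat ℓ (Nat.card W) + 1),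
      (1 : ℚ) * Nat.card {η : ↥(V.comap π) → ℂ // IsIrr η ∧ OvL π.ker (μ τ θ) _ η ∧
        HasDefect ℓ η e ∧ ∀ g, pk 𝔐 (Lm τ θ (cI (YS j τ).subtype g))
          (cen 𝔐 (V.comap π).subtype η) = (Nat.card π.ker : ℕ) * ω g} =
      ((Nat.card {η : ↥(V.comap π) → ℂ // IsIrr η ∧ OvL π.ker (μ τ θ) _ η ∧
        PHN.DD 𝔐 (Lm τ θ) (YS j τ).subtype ω (Nat.card π.ker)
          (cen 𝔐 (V.comap π).subtype η)} : ℕ) : ℚ) := by
    intro V
    rw [← PHN.sum_defect ℓ _ (PHN.val_le ℓ (V.comap π)) (fun η => OvL π.ker (μ τ θ) _ η)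
      (fun η => PHN.DD 𝔐 (Lm τ θ) (YS j τ).subtype ω (Nat.card π.ker)
        (cen 𝔐 (V.comap π).subtype η))]
    rw [Nat.cast_sum]
    refine Finset.sum_congr rfl fun e _ => ?_
    rw [one_mul]
    rfl
  have hL : (Nat.card π.ker : ℂ) * ((∑ V, m V * ((Nat.card V : ℚ) *
          NT 𝔐 ℓ a (jS h τ) (pS p j τ) θ (YS j τ).subtype {ω} V) : ℚ) : ℂ) =
      (Nat.card π.ker : ℂ) * ∑ V, ((m V : ℚ) : ℂ) * ((Nat.card V : ℂ) *
        Nat.card {η : ↥(V.comap π) → ℂ // IsIrr η ∧ OvL π.ker (μ τ θ) _ η ∧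
          PHN.DD 𝔐 (Lm τ θ) (YS j τ).subtype ω (Nat.card π.ker)
            (cen 𝔐 (V.comap π).subtype η)}) := by
    rw [hW]
    congr 1
    rw [Rat.cast_sum]
    refine Finset.sum_congr rfl fun V _ => ?_
    rw [hcount V, Rat.cast_mul, Rat.cast_mul, Rat.cast_natCast, Rat.cast_natCast]
  rw [hL, hA]
  refine Finset.sum_congr rfl fun x _ => Finset.sum_congr rfl fun y _ => ?_
  by_cases hR : x * y * x⁻¹ * y⁻¹ ∈ R
  · rw [dif_pos hR]
    by_cases hc : Subgroup.closure {x, y} ⊔ R = ⊤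
    · rw [if_pos ⟨hR, hc⟩, if_pos hc, Finset.sum_mul]
      refine Finset.sum_congr rfl fun V _ => ?_
      by_cases hV : π x ∈ V ∧ π y ∈ V
      · rw [if_pos hV, if_pos hV]
        refine Eq.trans (congrArg (fun z => ((m V : ℚ) : ℂ) * z)
          (PHN.ed_tw h𝔐 hF hP₀ hN hP ω _ inf_le_left _ ?_ hR)) (mul_assoc _ _ _).symm
        refine ⟨hR, ?_⟩
        change π (x * y * x⁻¹ * y⁻¹) ∈ V
        rw [map_mul, map_mul, map_mul, map_inv, map_inv]
        exact mul_mem (mul_mem (mul_mem hV.1 hV.2) (inv_mem hV.1)) (inv_mem hV.2)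
      · rw [if_neg hV, if_neg hV, zero_mul]
    · rw [if_neg (fun h => hc h.2), if_neg hc]
  · rw [dif_neg hR, if_neg (fun h => hR h.1)]

end Pool.Agent.DPN


end

section

/-!
# FFC: the Clifford correspondence for the stabilizer of a chain of the normal subgroup
-/

namespace Pool.Agent.DPN

open Pool.Agent.DP Pool.Agent.DPC Pool.Agent.DPM Pool.Agent.Lib_helper13 Representation
open Pool.Agent.Lib_helper13.Dade (pCore DadeHolds dadeSum)

namespace FFC

theorem jmem {A Y K : Type} [Group A] [Group Y] [Group K]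
    {j : A →* Y} {c : Y →* MulAut A} {p : Y →* K} (hj : ClG j c p) {θ : A → ℂ} (hθ : IsIrr θ)
    (a : A) : j a ∈ inert c θ := by
  intro b
  have h : c (j a) b = a * b * a⁻¹ := by
    apply hj.inj
    rw [hj.act, map_mul, map_mul, map_inv]
  rw [h, hθ.conj_eq]

/-- The order of an inverse image. -/
theorem card_comap {G H : Type} [Group G] [Finite G] [Group H] (f : G →* H) (V : Subgroup H) :
    Nat.card ↥(V.comap f) = Nat.card f.ker * Nat.card ↥(V ⊓ f.range) := by
  have h1 : (f.comp (V.comap f).subtype).range = V ⊓ f.range := by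
    ext x
    constructor
    · rintro ⟨y, rfl⟩
      exact ⟨y.2, ⟨y.1, rfl⟩⟩
    · rintro ⟨hx, ⟨y, rfl⟩⟩
      exact ⟨⟨y, hx⟩, rfl⟩
  have h2 : Nat.card (f.comp (V.comap f).subtype).ker = Nat.card f.ker := by
    refine Nat.card_congr
      { toFun := fun x => ⟨x.1.1, x.2⟩
        invFun := fun x => ⟨⟨x.1, ?_⟩, x.2⟩
        left_inv := fun _ => rfl
        right_inv := fun _ => rfl }
    have hx : f x.1 = 1 := x.2
    change f x.1 ∈ V
    rw [hx]
    exact V.one_mem
  rw [Subgroup.card_eq_card_quotient_mul_card_subgroup (f.comp (V.comap f).subtype).ker,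
    Nat.card_congr (QuotientGroup.quotientKerEquivRange (f.comp (V.comap f).subtype)).toEquiv,
    h1, h2, mul_comm]

section

variable {O X H : Type} [Group O] [Group X] [Group H] {j : O →* X}
  {c : X →* MulAut O} {p : X →* H}

/-- The embedding of the stabilizer of the chain. -/
noncomputable def jV (h : ClG j c p) (τ : Finset (Subgroup O)) (V : Subgroup H) :
    stb τ →* ↥(V.comap p ⊓ YS j τ) :=
  (j.comp (stb τ).subtype).codRestrict _ (fun a => by
    refine ⟨?_, (mem_YS h τ).mpr a.2⟩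
    change p (j (a : O)) ∈ V
    rw [(h.ker _).mpr ⟨(a : O), rfl⟩]
    exact V.one_mem)

/-- The action. -/
noncomputable def cV (h : ClG j c p) (τ : Finset (Subgroup O)) (V : Subgroup H) :
    ↥(V.comap p ⊓ YS j τ) →* MulAut (stb τ) :=
  (cS h τ).comp (Subgroup.inclusion inf_le_right)

theorem clG_V (h : ClG j c p) (τ : Finset (Subgroup O)) (V : Subgroup H) :
    ClG (jV h τ V) (cV h τ V) (p.comp (V.comap p ⊓ YS j τ).subtype) where
  inj := by
    intro a b hab
    apply Subtype.ext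
    exact h.inj (congrArg Subtype.val hab)
  act := fun y a => Subtype.ext (h.act y a)
  ker := by
    intro y
    constructor
    · intro h1
      obtain ⟨a, ha⟩ := (h.ker (y : X)).mp h1
      refine ⟨⟨a, (mem_YS h τ).mp (by rw [ha]; exact y.2.2)⟩, Subtype.ext ha⟩
    · rintro ⟨a, rfl⟩
      exact (h.ker _).mpr ⟨(a : O), rfl⟩

/-- The inertia groups. -/
noncomputable def eI (h : ClG j c p) (τ : Finset (Subgroup O)) (V : Subgroup H)
    (θ : stb τ → ℂ) : ↥(inert (cV h τ V) θ) ≃*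
      ↥(V.comap ((pS p j τ).comp (inert (cS h τ) θ).subtype)) where
  toFun x := ⟨⟨⟨x.1.1, x.1.2.2⟩, x.2⟩, x.1.2.1⟩
  invFun x := ⟨⟨x.1.1.1, x.2, x.1.1.2⟩, x.1.2⟩
  left_inv := fun _ => rfl
  right_inv := fun _ => rfl
  map_mul' := fun _ _ => rfl

theorem card_I [Finite X] (h : ClG j c p) (τ : Finset (Subgroup O)) (V : Subgroup H)
    (θ : stb τ → ℂ) (hθ : IsIrr θ) : Nat.card ↥(inert (cV h τ V) θ) =
      Nat.card (stb τ) * Nat.card ↥(V ⊓ (inert (cS h τ) θ).map (pS p j τ)) := by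
  have h0 : Finite ↥(inert (cS h τ) θ) := inferInstance
  rw [Nat.card_congr (eI h τ V θ).toEquiv, card_comap]
  have h1 : ((pS p j τ).comp (inert (cS h τ) θ).subtype).range =
      (inert (cS h τ) θ).map (pS p j τ) := by
    ext x
    constructor
    · rintro ⟨y, rfl⟩
      exact ⟨y.1, y.2, rfl⟩
    · rintro ⟨y, hy, rfl⟩
      exact ⟨⟨y, hy⟩, rfl⟩
  rw [h1]
  congr 1
  symm
  have hmem : ∀ a : stb τ, jS h τ a ∈ inert (cS h τ) θ := jmem (clG_S h τ) hθ
  refine Nat.card_congr (Equiv.ofBijective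
    (fun a => ⟨⟨jS h τ a, hmem a⟩, ?_⟩) ⟨?_, ?_⟩)
  · exact ((clG_S h τ).ker (jS h τ a)).mpr ⟨a, rfl⟩
  · intro a b hab
    apply (clG_S h τ).inj
    exact congrArg (fun z => z.1.1) hab
  · rintro ⟨⟨y, hy⟩, hy'⟩
    obtain ⟨a, ha⟩ := ((clG_S h τ).ker y).mp hy'
    exact ⟨a, Subtype.ext (Subtype.ext ha)⟩

theorem ext0_eq (h : ClG j c p) (τ : Finset (Subgroup O)) (V : Subgroup H)
    (θ : stb τ → ℂ) (hθ : IsIrr θ)
    (ψ : ↥(V.comap ((pS p j τ).comp (inert (cS h τ) θ).subtype)) → ℂ) :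
    (fun a : stb τ => ext0 (fun y => ψ (eI h τ V θ y)) (jV h τ V a)) =
      fun a : stb τ => ext0 (ext0 ψ) (jS h τ a) := by
  funext a
  have h1 : jV h τ V a ∈ inert (cV h τ V) θ := jmem (clG_V h τ V) hθ a
  have h2 : jS h τ a ∈ inert (cS h τ) θ := jmem (clG_S h τ) hθ a
  have h3 : (⟨jS h τ a, h2⟩ : inert (cS h τ) θ) ∈
      V.comap ((pS p j τ).comp (inert (cS h τ) θ).subtype) := by
    change p (j (a : O)) ∈ V
    rw [(h.ker _).mpr ⟨(a : O), rfl⟩]
    exact V.one_mem
  rw [ext0_of_mem _ h1, ext0_of_mem _ h2, ext0_of_mem _ h3]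
  rfl

end

end FFC

theorem FFC_thm : Stmt_FFC := by
  classical
  intro O X H _ _ _ _ _ _ 𝔐 ℓ _ j c p h τ d P V
  have hS := FFC.clG_V h τ V
  have h1 := CLC_thm (stb τ) ↥(V.comap p ⊓ YS j τ) H ℓ (FFC.jV h τ V) (FFC.cV h τ V)
    (p.comp (V.comap p ⊓ YS j τ).subtype) hS
    (fun ψ => cen 𝔐 (V.comap p ⊓ YS j τ).subtype ψ ∈ P) d
  rw [h1]
  refine Finset.sum_congr rfl fun θ hθ' => ?_
  have hθ : IsIrr θ := mem_irrF.mp hθ'
  rw [FFC.card_I h τ V θ hθ]
  push_cast
  rw [mul_assoc]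
  congr 2
  rw [card_irr_equiv (FFC.eI h τ V θ)]
  intro ψ hψ
  have hψ' : IsIrr (fun y => ψ (FFC.eI h τ V θ y)) := hψ.comp_mulEquiv (FFC.eI h τ V θ)
  rw [FFC.ext0_eq h τ V θ hθ ψ, hasDefect_comp_equiv]
  have h2 : cen 𝔐 (V.comap p ⊓ YS j τ).subtype
      (indc (inert (FFC.cV h τ V) θ) (fun y => ψ (FFC.eI h τ V θ y))) =
      cen 𝔐 ((YS j τ).subtype.comp ((inert (cS h τ) θ).subtype.comp
        (V.comap ((pS p j τ).comp (inert (cS h τ) θ).subtype)).subtype)) ψ := by
    rw [← cen_comp_equiv 𝔐 (FFC.eI h τ V θ)]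
    funext g
    unfold cen
    congr 1
    have h3 := (IND_thm ↥(V.comap p ⊓ YS j τ) (inert (FFC.cV h τ V) θ)
      (fun y => ψ (FFC.eI h τ V θ y))).2.2.2 hψ'.one_ne_zero
      (fun y => conjInd ((V.comap p ⊓ YS j τ).subtype y) g) (by
        intro a x
        rw [map_mul, map_mul, map_inv, conjInd_conj])
    rw [h3]
    rfl
  rw [h2]

end Pool.Agent.DPN


end

section

/-!
# DLO: a counterexample has a nonvanishing chain sum of large defect
-/

set_option autoImplicit false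

namespace Pool.Agent.DPN

open Pool.Agent.DP Pool.Agent.DPC Pool.Agent.DPM Pool.Agent.Lib_helper13 Representation
open Pool.Agent.Lib_helper13.Dade (pCore DadeHolds dadeSum)

namespace DLO

/-- The defect is at least the defect of a central subgroup. -/
theorem defect_ge (hE : Stmt_DEFA) {S : Type} [Group S] [Fintype S] (ℓ : ℕ) [Fact ℓ.Prime]
    (Z : Subgroup S) (hZ : Z ≤ Subgroup.center S) {ψ : S → ℂ} (hψ : IsIrr ψ) {d : ℕ}
    (hd : HasDefect ℓ ψ d) : padicValNat ℓ (Nat.card Z) ≤ d := by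
  classical
  have hcomm : ∀ (z : Z) (y : S), (z : S) * y = y * z := fun z y =>
    (Subgroup.mem_center_iff.mp (hZ z.2) y).symm
  have hZn : Z.Normal := by
    refine ⟨fun n hn g => ?_⟩
    have h1 : g * n * g⁻¹ = n := by
      rw [← hcomm ⟨n, hn⟩ g]
      group
    rw [h1]
    exact hn
  obtain ⟨ν, hν⟩ := Pool.Agent.DPC.TWE.exists_nu (Y := S) Z.subtype hcomm hψ
  have hθ : IsIrr (fun z : Z => ((ν z : ℂˣ) : ℂ)) := by
    apply (isChr_lin ν).isIrr
    have h : ∀ g : Z, ((ν g : ℂˣ) : ℂ) * ((ν g⁻¹ : ℂˣ) : ℂ) = 1 := by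
      intro g
      rw [← Units.val_mul, ← map_mul, mul_inv_cancel, map_one, Units.val_one]
    simp [h]
  have hG : ClG Z.subtype (1 : S →* MulAut Z) (QuotientGroup.mk' Z) := by
    refine ⟨Z.subtype_injective, ?_, ?_⟩
    · intro y a
      change (a : S) = y * a * y⁻¹
      rw [← hcomm a y]
      group
    · intro y
      rw [QuotientGroup.mk'_apply, QuotientGroup.eq_one_iff, Subgroup.range_subtype]
  have hip : ip (resj Z.subtype ψ) (fun z : Z => ((ν z : ℂˣ) : ℂ)) ≠ 0 := by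
    have h1 : ∀ z : Z, resj Z.subtype ψ z * ((ν z⁻¹ : ℂˣ) : ℂ) = ψ 1 := by
      intro z
      have h2 := hν z 1
      rw [one_mul] at h2
      change ψ (Z.subtype z) * _ = _
      rw [h2, mul_assoc, ← Units.val_mul, ← map_mul, mul_inv_cancel, map_one, Units.val_one,
        mul_one]
    unfold ip
    rw [Finset.sum_congr rfl fun z _ => h1 z, Finset.sum_const, Finset.card_univ,
      nsmul_eq_mul, Nat.card_eq_fintype_card]
    have h3 : (Fintype.card Z : ℂ) ≠ 0 := by
      exact_mod_cast Fintype.card_ne_zero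
    rw [mul_div_assoc, mul_div_cancel₀ _ h3]
    exact hψ.one_ne_zero
  have hdθ : HasDefect ℓ (fun z : Z => ((ν z : ℂˣ) : ℂ)) (padicValNat ℓ (Nat.card Z)) := by
    refine ⟨1, ?_, ?_⟩
    · simp
    · simp
  exact hE Z S (S ⧸ Z) ℓ Z.subtype 1 (QuotientGroup.mk' Z) hG ψ _ hψ hθ hip d _ hd hdθ

/-- Over a central `ℓ`-subgroup `Z` which is properly contained in a normal `ℓ`-subgroup there are
no characters of defect `v|Z|`. -/
theorem no_min (h1 : Stmt_MINX) (hB : Stmt_BTC) {S : Type} [Group S] [Fintype S]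
    (𝔐 : Ideal (integralClosure ℤ ℂ)) (ℓ : ℕ) [Fact ℓ.Prime] (h𝔐 : 𝔐.IsMaximal)
    (hℓ : (ℓ : integralClosure ℤ ℂ) ∈ 𝔐) (Z D : Subgroup S) (hZ : Z ≤ Subgroup.center S)
    (hZp : IsPGroup ℓ Z) (hD : D.Normal) (hDp : IsPGroup ℓ D) (hZD : ¬ D ≤ Z) {ψ : S → ℂ}
    (hψ : IsIrr ψ) (hd : HasDefect ℓ ψ (padicValNat ℓ (Nat.card Z))) : False := by
  classical
  have hP : 𝔐.IsPrime := h𝔐.isPrime
  have hZn : Z.Normal := by
    refine ⟨fun n hn g => ?_⟩
    have h1 : g * n * g⁻¹ = n := by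
      rw [Subgroup.mem_center_iff.mp (hZ hn) g]
      group
    rw [h1]
    exact hn
  obtain ⟨χ, hχ, hχt, hχc⟩ := hB S 𝔐 ℓ h𝔐 hℓ Z hZ hZp 1 ψ hψ
  have hχt' : ∀ z ∈ Z, ∀ x, χ (z * x) = χ x := by
    intro z hz x
    have := hχt ⟨z, hz⟩ x
    rw [MonoidHom.one_apply, Units.val_one, one_mul] at this
    exact this
  have hχd := (h1 S 𝔐 ℓ h𝔐 hℓ Z hZ hZp ψ hψ hd).1 χ hχ hχc
  have hfin : Fintype (S ⧸ Z) := Fintype.ofFinite _
  obtain ⟨χb, hb, hbx⟩ := Pool.Agent.DPM.DZC.deflate Z hZ hχ hχt'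
  have hb0 : HasDefect ℓ χb 0 := by
    refine Pool.Agent.DPM.DZC.defect_deflate Z hZp hχ (fun e he => ?_) hb (hbx 1)
    rw [he.unique hχd]
    obtain ⟨z, hz⟩ := hZp.exists_card_eq
    rw [hz, padicValNat.prime_pow]
  have hred := red_codeg_ne_zero 𝔐 hℓ hb hb0
  have hQn : (D.map (QuotientGroup.mk' Z)).Normal :=
    hD.map _ (QuotientGroup.mk'_surjective Z)
  have hQp : IsPGroup ℓ (D.map (QuotientGroup.mk' Z)) := hDp.map _
  have hQb : D.map (QuotientGroup.mk' Z) ≠ ⊥ := by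
    intro h
    apply hZD
    rw [Subgroup.map_eq_bot_iff, QuotientGroup.ker_mk'] at h
    exact h
  exact hred (no_defect_zero 𝔐 hℓ (D.map (QuotientGroup.mk' Z)) hQp hQb hb)

/-- The claim. -/
theorem core (h1 : Stmt_MINX) (hB : Stmt_BTC) (hE : Stmt_DEFA) {X : Type} [Group X] [Fintype X]
    (𝔐 : Ideal (integralClosure ℤ ℂ)) (ℓ : ℕ) [Fact ℓ.Prime] (h𝔐 : 𝔐.IsMaximal)
    (hℓ : (ℓ : integralClosure ℤ ℂ) ∈ 𝔐) (Z : Subgroup X) (hZ : Z ≤ Subgroup.center X)
    (hZp : IsPGroup ℓ Z) (d : ℕ) (ω : X → (integralClosure ℤ ℂ) ⧸ 𝔐) (hK : KK 𝔐 ℓ d Z ω ≠ 0)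
    (χ' : X → ℂ) (hχ' : IsIrr χ') (hc : cen 𝔐 (MonoidHom.id X) χ' = ω) (e : ℕ)
    (he : HasDefect ℓ χ' e) (hlt : Nat.card Z < ℓ ^ e) : padicValNat ℓ (Nat.card Z) < d := by
  classical
  by_contra hcon
  rw [not_lt] at hcon
  obtain ⟨σ, hσ, ψ, hψ, hψd, hψc⟩ := KK_ne_zero 𝔐 hK
  have hψc' : cen 𝔐 (stb σ).subtype ψ = ω := funext hψc
  have hZS : Z ≤ stb σ := by
    intro z hz
    rw [mem_stb']
    intro D hD w
    have h2 : z * w * z⁻¹ = w := by
      have := Subgroup.mem_center_iff.mp (hZ hz) w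
      rw [← this]
      group
    rw [h2]
  have hcard : Nat.card (Z.subgroupOf (stb σ)) = Nat.card Z :=
    Nat.card_congr (Subgroup.subgroupOfEquivOfLe hZS).toEquiv
  have hZc : Z.subgroupOf (stb σ) ≤ Subgroup.center (stb σ) := by
    intro z hz
    rw [Subgroup.mem_center_iff]
    intro g
    apply Subtype.ext
    exact Subgroup.mem_center_iff.mp (hZ (Subgroup.mem_subgroupOf.mp hz)) g
  have hZsp : IsPGroup ℓ (Z.subgroupOf (stb σ)) :=
    hZp.of_equiv (Subgroup.subgroupOfEquivOfLe hZS).symm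
  have hge := defect_ge hE ℓ (Z.subgroupOf (stb σ)) hZc hψ hψd
  rw [hcard] at hge
  have hdv : d = padicValNat ℓ (Nat.card Z) := le_antisymm hcon hge
  by_cases hσe : σ = ∅
  · subst hσe
    let e' : stb (∅ : Finset (Subgroup X)) ≃* X :=
      (MulEquiv.subgroupCongr (stb_empty (G := X))).trans Subgroup.topEquiv
    have he' : ∀ y : stb (∅ : Finset (Subgroup X)), e' y = y := fun y => rfl
    have hirr : IsIrr (fun x : X => ψ (e'.symm x)) := hψ.comp_mulEquiv e'.symm
    have hback : (fun y : stb (∅ : Finset (Subgroup X)) => (fun x : X => ψ (e'.symm x)) (e' y)) =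
        ψ := by
      funext y
      simp
    have hdX : HasDefect ℓ (fun x : X => ψ (e'.symm x)) (padicValNat ℓ (Nat.card Z)) := by
      rw [← hasDefect_comp_equiv e', hback, ← hdv]
      exact hψd
    have hcX : cen 𝔐 (MonoidHom.id X) (fun x : X => ψ (e'.symm x)) = ω := by
      have h2 := cen_comp_equiv 𝔐 e' (MonoidHom.id X) (fun x : X => ψ (e'.symm x))
      rw [hback] at h2
      rw [← h2, ← hψc']
      rfl
    have h3 := (h1 X 𝔐 ℓ h𝔐 hℓ Z hZ hZp _ hirr hdX).1 χ' hχ' (hc.trans hcX.symm)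
    rw [he.unique h3] at hlt
    obtain ⟨z, hz⟩ := hZp.exists_card_eq
    rw [hz, padicValNat.prime_pow] at hlt
    exact lt_irrefl _ hlt
  · obtain ⟨D, hD, hbot⟩ := hσ.exists_bot (Finset.nonempty_iff_ne_empty.mpr hσe)
    have hDS : D ≤ stb σ := by
      intro x hx
      rw [mem_stb']
      intro E hE w
      have hxE := hbot E hE hx
      constructor
      · intro hw
        exact mul_mem (mul_mem hxE hw) (inv_mem hxE)
      · intro hw
        have h2 : w = x⁻¹ * (x * w * x⁻¹) * x := by group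
        rw [h2]
        exact mul_mem (mul_mem (inv_mem hxE) hw) hxE
    refine no_min h1 hB 𝔐 ℓ h𝔐 hℓ (Z.subgroupOf (stb σ)) (D.subgroupOf (stb σ)) hZc hZsp ?_ ?_ ?_
      hψ ?_
    · refine ⟨fun n hn g => ?_⟩
      rw [Subgroup.mem_subgroupOf] at hn ⊢
      exact ((mem_stb'.mp g.2) D hD n).mp hn
    · exact (hσ.1 D hD).1.of_equiv (Subgroup.subgroupOfEquivOfLe hDS).symm
    · intro hle
      have hlt' := (hσ.1 D hD).2
      apply not_le_of_gt hlt'
      intro x hx
      exact Subgroup.mem_subgroupOf.mp (hle (Subgroup.mem_subgroupOf.mpr hx :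
        (⟨x, hDS hx⟩ : stb σ) ∈ D.subgroupOf (stb σ)))
    · rw [hcard, ← hdv]
      exact hψd

end DLO

theorem DLO_thm (h1 : Stmt_MINX) : Stmt_DLO := by
  intro X _ _ ℓ _ hcent hD
  unfold DadeHolds at hD
  push Not at hD
  obtain ⟨𝔐, h𝔐, hℓ, χ, hχ, ⟨χ', e, hχ', hsb, he, hlt⟩, d, hd⟩ := hD
  have hK : KK 𝔐 ℓ d (pCore ℓ X) (cen 𝔐 (MonoidHom.id X) χ) ≠ 0 := by
    rw [← dadeSum_eq 𝔐 ℓ d hχ]
    refine mul_ne_zero ?_ ?_
    · exact_mod_cast Nat.card_pos.ne'
    · exact_mod_cast hd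
  refine ⟨𝔐, h𝔐, hℓ, d, cen 𝔐 (MonoidHom.id X) χ, ?_, hK⟩
  exact DLO.core h1 BTC_thm (DEFA_thm TWC_thm TWN_thm) 𝔐 ℓ h𝔐 hℓ (pCore ℓ X) hcent
    (isPGroup_pCore ℓ) d _ hK χ' hχ' ((sameBlock_iff 𝔐 hχ' hχ).mp hsb) e he hlt

end Pool.Agent.DPN


end

section

/-!
# Dade's conjecture for `G ^ Ω ⋊ R`: the inner sum is invariant under conjugation
-/

namespace Pool.Agent.DP

open Pool.Agent.Lib_helper13 Representation

namespace CONJ

variable {X : Type*} [Group X]

theorem tp_map (Z : Subgroup X) [hZ : Z.Normal] (c : Finset (Subgroup X)) (g : X) :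
    tp Z (mapCh (MulAut.conj g).toMonoidHom c) = (tp Z c).map (MulAut.conj g).toMonoidHom := by
  classical
  unfold tp mapCh
  rw [Subgroup.map_sup, Finset.sup_image]
  congr 1
  · rw [Finset.apply_sup_eq_sup_comp (Subgroup.map (MulAut.conj g).toMonoidHom)
      (fun x y => Subgroup.map_sup x y _) (Subgroup.map_bot _)]
    rfl
  · ext x
    rw [Subgroup.mem_map_equiv, MulAut.conj_symm_apply]
    constructor
    · intro hx
      have := hZ.conj_mem x hx g⁻¹
      rwa [inv_inv] at this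
    · intro hx
      have := hZ.conj_mem _ hx g
      have e : g * (g⁻¹ * x * g) * g⁻¹ = x := by group
      rwa [e] at this

theorem cN_map (N : Subgroup X) [hN : N.Normal] (Q : Subgroup X) (g : X) :
    cN N (Q.map (MulAut.conj g).toMonoidHom) = (cN N Q).map (MulAut.conj g).toMonoidHom := by
  ext x
  rw [Subgroup.mem_map_equiv, MulAut.conj_symm_apply]
  unfold cN
  rw [Subgroup.mem_inf, Subgroup.mem_inf]
  refine and_congr ?_ ?_
  · constructor
    · intro hx
      have := hN.conj_mem x hx g⁻¹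
      rwa [inv_inv] at this
    · intro hx
      have := hN.conj_mem _ hx g
      have e : g * (g⁻¹ * x * g) * g⁻¹ = x := by group
      rwa [e] at this
  · rw [Subgroup.mem_centralizer_iff, Subgroup.mem_centralizer_iff]
    constructor
    · intro h q hq
      have h1 := h (g * q * g⁻¹) ⟨q, hq, rfl⟩
      calc q * (g⁻¹ * x * g) = g⁻¹ * ((g * q * g⁻¹) * x) * g := by group
        _ = g⁻¹ * (x * (g * q * g⁻¹)) * g := by rw [h1]
        _ = g⁻¹ * x * g * q := by group
    · rintro h q' ⟨q, hq, rfl⟩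
      have h1 := h q hq
      change (g * q * g⁻¹) * x = x * (g * q * g⁻¹)
      calc (g * q * g⁻¹) * x = g * (q * (g⁻¹ * x * g)) * g⁻¹ := by group
        _ = g * ((g⁻¹ * x * g) * q) * g⁻¹ := by rw [h1]
        _ = x * (g * q * g⁻¹) := by group

theorem core [Fintype X] (ℓ : ℕ) (W : Subgroup X → ℚ) (g : X)
    (hW : ∀ S : Subgroup X, W (S.map (MulAut.conj g).toMonoidHom) = W S)
    (c : Finset (Subgroup X)) (A B : Subgroup X)
    (h : B = A.map (MulAut.conj g).toMonoidHom) :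
    ∑ τ ∈ Ch ℓ (⊥ : Subgroup B), (-1 : ℚ) ^ τ.card *
        W (stb (mapCh (MulAut.conj g).toMonoidHom c) ⊓ stb (mapCh B.subtype τ)) =
      ∑ τ ∈ Ch ℓ (⊥ : Subgroup A), (-1 : ℚ) ^ τ.card *
        W (stb c ⊓ stb (mapCh A.subtype τ)) := by
  classical
  subst h
  have hinj : Function.Injective (MulAut.conj g).toMonoidHom := (MulAut.conj g).injective
  let e : A ≃* A.map (MulAut.conj g).toMonoidHom := A.equivMapOfInjective _ hinj
  have h1 := sum_Ch_equiv e ℓ (⊥ : Subgroup A) (fun τ => (-1 : ℚ) ^ τ.card *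
        W (stb (mapCh (MulAut.conj g).toMonoidHom c) ⊓
          stb (mapCh (A.map (MulAut.conj g).toMonoidHom).subtype τ)))
  rw [Subgroup.map_bot] at h1
  rw [h1]
  refine Finset.sum_congr rfl fun τ _ => ?_
  rw [card_mapCh (i := e.toMonoidHom) e.injective]
  congr 1
  have h2 : mapCh (A.map (MulAut.conj g).toMonoidHom).subtype (mapCh e.toMonoidHom τ) =
      mapCh (MulAut.conj g).toMonoidHom (mapCh A.subtype τ) := by
    rw [mapCh_comp, mapCh_comp]
    rfl
  rw [h2, stb_mapCh_equiv, stb_mapCh_equiv, ← Subgroup.map_inf _ _ _ hinj, hW]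

end CONJ

theorem CONJ_thm : Stmt_CONJ := by
  intro X _ _ ℓ Z N _ _ W hW c g
  unfold innerS
  exact CONJ.core ℓ W g (hW g) c _ _ (by rw [CONJ.tp_map, CONJ.cN_map])

end Pool.Agent.DP


end

section

/-!
# The key identity (module AAK)
-/

namespace Pool.Agent.DP

open Pool.Agent.Lib_helper13 Representation

namespace AAK

variable {O : Type} [Fintype O] [DecidableEq O]

omit [Fintype O] [DecidableEq O] in
theorem app_inv (k : Equiv.Perm O) (a : O) : k (k⁻¹ a) = a := by simp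

omit [Fintype O] [DecidableEq O] in
theorem inv_app (k : Equiv.Perm O) (a : O) : k⁻¹ (k a) = a := by simp

theorem sum_update {δ : Type} (t : O → Finset δ) (o : O) (g : (O → δ) → ℂ) :
    ∑ f ∈ Fintype.piFinset t, ∑ j ∈ t o, g (Function.update f o j) =
      ((t o).card : ℂ) * ∑ f ∈ Fintype.piFinset t, g f := by
  rw [← Finset.sum_product']
  have h : ∑ x ∈ Fintype.piFinset t ×ˢ t o, g (Function.update x.1 o x.2) =
      ∑ x ∈ Fintype.piFinset t ×ˢ t o, g x.1 := by
    have hmem : ∀ x ∈ Fintype.piFinset t ×ˢ t o,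
        (Function.update x.1 o x.2, x.1 o) ∈ Fintype.piFinset t ×ˢ t o := by
      intro x hx
      rw [Finset.mem_product, Fintype.mem_piFinset] at hx ⊢
      refine ⟨fun a => ?_, hx.1 o⟩
      by_cases ha : a = o
      · subst ha
        simpa using hx.2
      · simpa [Function.update_of_ne ha] using hx.1 a
    have hinv : ∀ x : (O → δ) × δ,
        (Function.update (Function.update x.1 o x.2) o (x.1 o),
          Function.update x.1 o x.2 o) = x := by
      intro x
      rw [Function.update_idem, Function.update_eq_self, Function.update_self]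
    exact Finset.sum_nbij' (fun x => (Function.update x.1 o x.2, x.1 o))
      (fun x => (Function.update x.1 o x.2, x.1 o)) hmem hmem (fun x _ => hinv x)
      (fun x _ => hinv x) (fun x _ => rfl)
  rw [h, Finset.sum_product, Finset.mul_sum]
  refine Finset.sum_congr rfl fun f _ => ?_
  show ∑ _y ∈ t o, g f = _
  rw [Finset.sum_const, nsmul_eq_mul]

theorem prod_split {o o' : O} (h : o' ≠ o) (p : O → ℂ) :
    ∏ a, p a = p o * (p o' * ∏ a ∈ (Finset.univ.erase o).erase o', p a) := by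
  rw [← Finset.mul_prod_erase Finset.univ p (Finset.mem_univ o),
    ← Finset.mul_prod_erase (Finset.univ.erase o) p
      (Finset.mem_erase.2 ⟨h, Finset.mem_univ o'⟩)]

variable {G : Type} [Group G]

theorem TH_eq (k : Equiv.Perm O) (S : O → Subgroup G) (θ : O → G → ℂ) (m : O → ℕ)
    (M : O → G → ℕ → ℕ → ℂ) (hS : ∀ o, S (k o) = S o) (hm : ∀ o, m (k o) = m o)
    (hM : ∀ o, M (k o) = M o) (hMD : ∀ o, MD (S o) (θ o) (m o) (M o)) (o : O)
    (k' : Equiv.Perm O) (ho : k o ≠ o) (hk' : k' = Equiv.swap o (k o) * k) (n : O → G)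
    (hn : ∀ a, n a ∈ S a) :
    (m o : ℂ) * TH m M k n =
      TH m M k' (Function.update (Function.update n (k o) (n (k o) * n o)) o 1) := by
  have hko : k⁻¹ o ≠ o := by
    intro h
    apply ho
    conv_lhs => rw [← h]
    simp
  have hk1 : k'⁻¹ o = o := by
    rw [Equiv.Perm.inv_eq_iff_eq, hk']
    simp
  have hk2 : k'⁻¹ (k o) = k⁻¹ o := by
    rw [Equiv.Perm.inv_eq_iff_eq, hk']
    simp
  have hk3 : ∀ a, a ≠ o → a ≠ k o → k'⁻¹ a = k⁻¹ a := by
    intro a h1 h2
    rw [Equiv.Perm.inv_eq_iff_eq, hk']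
    simp [Equiv.swap_apply_of_ne_of_ne h1 h2]
  have hm' : m (k⁻¹ o) = m o := by
    have := hm (k⁻¹ o)
    rw [app_inv] at this
    exact this.symm
  set n' := Function.update (Function.update n (k o) (n (k o) * n o)) o 1 with hn'
  have hn1 : n' o = 1 := by rw [hn', Function.update_self]
  have hn2 : n' (k o) = n (k o) * n o := by
    rw [hn', Function.update_of_ne ho, Function.update_self]
  have hn3 : ∀ a, a ≠ o → a ≠ k o → n' a = n a := by
    intro a h1 h2
    rw [hn', Function.update_of_ne h1, Function.update_of_ne h2]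
  have h0 := sum_update (fun a => Finset.range (m a)) o
    (fun f => ∏ a, M a (n a) (f a) (f (k⁻¹ a)))
  rw [Finset.card_range] at h0
  unfold TH
  rw [← h0]
  refine Finset.sum_congr rfl fun f hf => ?_
  rw [Fintype.mem_piFinset] at hf
  have hfm : ∀ a, f a < m a := fun a => Finset.mem_range.1 (hf a)
  rw [prod_split ho]
  rw [hn1, hn2, hk1, hk2, (hMD o).one _ (hfm o) _ (hfm o), if_pos rfl, one_mul]
  have hrest : ∀ j, ∏ a, M a (n a) (Function.update f o j a) (Function.update f o j (k⁻¹ a)) =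
      M o (n o) j (f (k⁻¹ o)) * (M o (n (k o)) (f (k o)) j *
        ∏ a ∈ (Finset.univ.erase o).erase (k o), M a (n' a) (f a) (f (k'⁻¹ a))) := by
    intro j
    rw [prod_split ho, Function.update_self, Function.update_of_ne hko,
      Function.update_of_ne ho, inv_app, Function.update_self, hM o]
    congr 2
    refine Finset.prod_congr rfl fun a ha => ?_
    rw [Finset.mem_erase, Finset.mem_erase] at ha
    obtain ⟨h2, h1, -⟩ := ha
    have h3 : k⁻¹ a ≠ o := by
      intro h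
      apply h2
      rw [← h, app_inv]
    rw [Function.update_of_ne h1, Function.update_of_ne h3, hn3 a h1 h2, hk3 a h1 h2]
  rw [Finset.sum_congr rfl fun j _ => hrest j]
  have hS' : n (k o) ∈ S o := by
    rw [← hS o]
    exact hn (k o)
  have hmul := (hMD o).mul (n (k o)) hS' (n o) (hn o) (f (k o)) (by rw [← hm o]; exact hfm _)
    (f (k⁻¹ o)) (by rw [← hm']; exact hfm _)
  rw [hM o, hmul, Finset.sum_mul]
  refine Finset.sum_congr rfl fun j _ => ?_
  ring

open Classical in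
theorem sum_pi [Fintype G] (S : O → Subgroup G) (Ψ : (O → G) → ℂ) :
    ∑ n : ∀ o, S o, Ψ (fun o => n o) =
      ∑ n ∈ Fintype.piFinset (fun o => Finset.univ.filter (· ∈ S o)), Ψ n := by
  refine Finset.sum_bij' (fun n _ => fun o => (n o : G))
    (fun n hn => fun o => ⟨n o, by
      rw [Fintype.mem_piFinset] at hn
      exact (Finset.mem_filter.1 (hn o)).2⟩) ?_ ?_ ?_ ?_ ?_
  · intro n _
    rw [Fintype.mem_piFinset]
    intro o
    exact Finset.mem_filter.2 ⟨Finset.mem_univ _, (n o).2⟩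
  · intro n _
    exact Finset.mem_univ _
  · intro n _
    rfl
  · intro n _
    rfl
  · intro n _
    rfl

end AAK

theorem AAK_thm : Stmt_AAK := by
  classical
  intro O G _ _ _ _ k S θ m M hS hm hM hMD hθ F hF o k' ho hk' F' hF1 hF2
  have hko : k⁻¹ o ≠ o := by
    intro h
    apply ho
    conv_lhs => rw [← h]
    simp
  have hk1 : k'⁻¹ o = o := by
    rw [Equiv.Perm.inv_eq_iff_eq, hk']
    simp
  have hk2 : k'⁻¹ (k o) = k⁻¹ o := by
    rw [Equiv.Perm.inv_eq_iff_eq, hk']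
    simp
  have hk3 : ∀ a, a ≠ o → a ≠ k o → k'⁻¹ a = k⁻¹ a := by
    intro a h1 h2
    rw [Equiv.Perm.inv_eq_iff_eq, hk']
    simp [Equiv.swap_apply_of_ne_of_ne h1 h2]
  constructor
  · intro x n
    by_cases hno : n o = 1
    · have hy : x o * n o * (x (k'⁻¹ o))⁻¹ = 1 := by
        rw [hk1, hno]
        simp
      rw [hF1 _ hy, hF1 _ hno]
      have h := hF (Function.update x o (x (k⁻¹ o))) n
      rw [← h]
      congr 1
      funext a
      by_cases ha : a = o
      · subst ha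
        rw [hk1, Function.update_self, Function.update_of_ne hko, hno]
        simp
      · by_cases ha2 : a = k o
        · subst ha2
          rw [hk2, AAK.inv_app, Function.update_self, Function.update_of_ne ha]
        · have h3 : k⁻¹ a ≠ o := by
            intro h
            apply ha2
            rw [← h, AAK.app_inv]
          rw [hk3 a ha ha2, Function.update_of_ne ha, Function.update_of_ne h3]
    · have hy : x o * n o * (x (k'⁻¹ o))⁻¹ ≠ 1 := by
        rw [hk1]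
        intro h
        apply hno
        have h2 := mul_inv_eq_one.1 h
        exact mul_eq_left.1 h2
      rw [hF2 _ hy, hF2 _ hno]
  · have hmθ : θ o 1 = (m o : ℂ) := by
      rw [(hMD o).tr 1 (one_mem _), Finset.sum_congr rfl (g := fun _ => (1 : ℂ)),
        Finset.sum_const, Finset.card_range, nsmul_eq_mul, mul_one]
      intro i hi
      rw [Finset.mem_range] at hi
      rw [(hMD o).one i hi i hi, if_pos rfl]
    have hm0 : (m o : ℂ) ≠ 0 := by rw [← hmθ]; exact hθ o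
    set t : O → Finset G := fun a => Finset.univ.filter (· ∈ S a) with ht
    have hmt : ∀ a g, g ∈ t a ↔ g ∈ S a := by
      intro a g
      rw [ht]
      simp
    have hcard : ((t o).card : ℂ) = (Nat.card (S o) : ℂ) := by
      congr 1
      rw [Nat.card_eq_fintype_card, Fintype.card_subtype]
    set Φ : (O → G) → ℂ := fun n => F' n * TH m M k' n with hΦ
    -- the substitution
    have e1 : ∑ n ∈ Fintype.piFinset t, (m o : ℂ) * (F n * TH m M k n) =
        ∑ n ∈ Fintype.piFinset t,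
          Φ (Function.update (Function.update n (k o) (n (k o) * n o)) o 1) := by
      refine Finset.sum_congr rfl fun n hn => ?_
      rw [Fintype.mem_piFinset] at hn
      have hnS : ∀ a, n a ∈ S a := fun a => (hmt a _).1 (hn a)
      have h1 := AAK.TH_eq k S θ m M hS hm hM hMD o k' ho hk' n hnS
      rw [hΦ]
      simp only
      rw [← h1, hF1 _ (Function.update_self _ _ _)]
      have h2 := hF (Function.update (fun _ => 1) o (n o)⁻¹) n
      rw [← h2]
      have h3 : (fun a => Function.update (fun _ => (1 : G)) o (n o)⁻¹ a * n a *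
          (Function.update (fun _ => (1 : G)) o (n o)⁻¹ (k⁻¹ a))⁻¹) =
          Function.update (Function.update n (k o) (n (k o) * n o)) o 1 := by
        funext a
        by_cases ha : a = o
        · subst ha
          rw [Function.update_self, Function.update_of_ne hko, Function.update_self]
          simp
        · rw [Function.update_of_ne ha, Function.update_of_ne ha]
          by_cases ha2 : a = k o
          · subst ha2
            rw [AAK.inv_app, Function.update_self, Function.update_self]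
            simp
          · have h3 : k⁻¹ a ≠ o := by
              intro h
              apply ha2
              rw [← h, AAK.app_inv]
            rw [Function.update_of_ne h3, Function.update_of_ne ha2]
            simp
      rw [h3]
      ring
    have e2 : ∑ n ∈ Fintype.piFinset t,
          Φ (Function.update (Function.update n (k o) (n (k o) * n o)) o 1) =
        ∑ n ∈ Fintype.piFinset t, Φ (Function.update n o 1) := by
      refine Finset.sum_nbij' (fun n => Function.update n (k o) (n (k o) * n o))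
        (fun n => Function.update n (k o) (n (k o) * (n o)⁻¹)) ?_ ?_ ?_ ?_ ?_
      · intro n hn
        rw [Fintype.mem_piFinset] at hn ⊢
        intro a
        rw [hmt]
        by_cases ha : a = k o
        · subst ha
          rw [Function.update_self]
          refine mul_mem ((hmt _ _).1 (hn _)) ?_
          rw [hS o]
          exact (hmt _ _).1 (hn _)
        · rw [Function.update_of_ne ha]
          exact (hmt _ _).1 (hn _)
      · intro n hn
        rw [Fintype.mem_piFinset] at hn ⊢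
        intro a
        rw [hmt]
        by_cases ha : a = k o
        · subst ha
          rw [Function.update_self]
          refine mul_mem ((hmt _ _).1 (hn _)) (inv_mem ?_)
          rw [hS o]
          exact (hmt _ _).1 (hn _)
        · rw [Function.update_of_ne ha]
          exact (hmt _ _).1 (hn _)
      · intro n _
        rw [Function.update_self, Function.update_of_ne (Ne.symm ho), Function.update_idem,
          mul_inv_cancel_right, Function.update_eq_self]
      · intro n _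
        rw [Function.update_self, Function.update_of_ne (Ne.symm ho), Function.update_idem,
          inv_mul_cancel_right, Function.update_eq_self]
      · intro n _
        rfl
    have e3 : ∑ n ∈ Fintype.piFinset t, Φ (Function.update n o 1) =
        ((t o).card : ℂ) * ∑ n ∈ Fintype.piFinset t, Φ n := by
      rw [← AAK.sum_update]
      refine Finset.sum_congr rfl fun n _ => ?_
      rw [Finset.sum_eq_single 1]
      · intro s _ hs
        rw [hΦ]
        simp only
        rw [hF2 _ (by rw [Function.update_self]; exact hs), zero_mul]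
      · intro h
        exact absurd ((hmt _ _).2 (one_mem _)) h
    have e4 := e1.trans (e2.trans e3)
    rw [← Finset.mul_sum, hcard] at e4
    unfold aS
    rw [AAK.sum_pi S (fun n => F n * TH m M k n), AAK.sum_pi S (fun n => F' n * TH m M k' n)]
    have e5 : ∑ n ∈ Fintype.piFinset t, F n * TH m M k n =
        (Nat.card (S o) : ℂ) / θ o 1 * ∑ n ∈ Fintype.piFinset t, Φ n := by
      rw [hmθ, div_mul_eq_mul_div, eq_div_iff hm0, mul_comm]
      exact e4
    rw [show (∑ n ∈ Fintype.piFinset (fun o => Finset.univ.filter (· ∈ S o)),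
      F n * TH m M k n) = (Nat.card (S o) : ℂ) / θ o 1 * ∑ n ∈ Fintype.piFinset t, Φ n from e5]
    rw [mul_div_assoc]

end Pool.Agent.DP


end

section

/-!
# The key identity for a group with a normal subgroup (module AAKH)
-/

namespace Pool.Agent.DP

open Pool.Agent.Lib_helper13 Representation

namespace AAKH

open Classical in
theorem sum_fibre {G B C : Type} [Group G] [Fintype G] [Group B] [Fintype B] [Group C] [Fintype C]
    {ι : G →* B} {κ : B →* MulAut G} {ρ : B →* C} (hcl : ClG ι κ ρ) (S : Subgroup B)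
    (h : C → ℂ) : ∑ j ∈ Finset.univ.filter (· ∈ S), h (ρ j) =
      (Nat.card (S.comap ι) : ℂ) * ∑ c : C, if c ∈ S.map ρ then h c else 0 := by
  have h1 : ∑ j ∈ Finset.univ.filter (· ∈ S), h (ρ j) =
      ∑ c : C, ∑ j ∈ (Finset.univ.filter (· ∈ S)).filter (fun j => ρ j = c), h (ρ j) :=
    (Finset.sum_fiberwise _ _ _).symm
  rw [h1, Finset.mul_sum]
  refine Finset.sum_congr rfl fun c _ => ?_
  have h2 : ∑ j ∈ (Finset.univ.filter (· ∈ S)).filter (fun j => ρ j = c), h (ρ j) =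
      (((Finset.univ.filter (· ∈ S)).filter (fun j => ρ j = c)).card : ℂ) * h c := by
    rw [Finset.sum_congr rfl (g := fun _ => h c), Finset.sum_const, nsmul_eq_mul]
    intro j hj
    rw [(Finset.mem_filter.1 hj).2]
  rw [h2]
  by_cases hc : c ∈ S.map ρ
  · rw [if_pos hc]
    obtain ⟨b0, hb0, hb0c⟩ := hc
    have hb0S : b0 ∈ S := hb0
    congr 1
    rw [Nat.card_eq_fintype_card, Fintype.card_subtype]
    congr 1
    refine (Finset.card_nbij' (fun g => ι g * b0) (fun j => Function.invFun ι (j * b0⁻¹))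
      ?_ ?_ ?_ ?_).symm
    · intro g hg
      simp only [Finset.coe_filter, Finset.mem_univ, true_and, Set.mem_ofPred_eq,
        Finset.mem_filter] at hg ⊢
      refine ⟨mul_mem hg hb0S, ?_⟩
      rw [map_mul, (hcl.ker (ι g)).mpr ⟨g, rfl⟩, one_mul, hb0c]
    · intro j hj
      simp only [Finset.coe_filter, Finset.mem_univ, true_and, Set.mem_ofPred_eq,
        Finset.mem_filter] at hj ⊢
      have h3 : ρ (j * b0⁻¹) = 1 := by rw [map_mul, map_inv, hj.2, hb0c, mul_inv_cancel]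
      have h4 : ∃ g, ι g = j * b0⁻¹ := (hcl.ker _).mp h3
      have h5 := Function.invFun_eq h4
      rw [Subgroup.mem_comap, h5]
      exact mul_mem hj.1 (inv_mem hb0S)
    · intro g _
      simp only
      rw [mul_inv_cancel_right]
      exact Function.leftInverse_invFun hcl.inj g
    · intro j hj
      simp only [Finset.coe_filter, Finset.mem_univ, true_and, Set.mem_ofPred_eq,
        Finset.mem_filter] at hj
      have h3 : ρ (j * b0⁻¹) = 1 := by rw [map_mul, map_inv, hj.2, hb0c, mul_inv_cancel]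
      have h4 : ∃ g, ι g = j * b0⁻¹ := (hcl.ker _).mp h3
      have h5 := Function.invFun_eq h4
      simp only
      rw [h5, inv_mul_cancel_right]
  · rw [if_neg hc, mul_zero]
    have h3 : (Finset.univ.filter (· ∈ S)).filter (fun j => ρ j = c) = ∅ := by
      rw [Finset.filter_eq_empty_iff]
      intro j hj hjc
      exact hc ⟨j, (Finset.mem_filter.1 hj).2, hjc⟩
    rw [h3, Finset.card_empty, Nat.cast_zero, zero_mul]

end AAKH

theorem AAKH_thm : Stmt_AAKH := by
  classical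
  intro O G B C _ _ _ _ _ _ _ _ ι κ ρ hcl hρ k S θ m M hS hm hM hMD hθ F hF o k' ho hk' s hs F'
    hF1 hF2
  have hko : k⁻¹ o ≠ o := by
    intro h
    apply ho
    conv_lhs => rw [← h]
    simp
  have hk1 : k'⁻¹ o = o := by
    rw [Equiv.Perm.inv_eq_iff_eq, hk']
    simp
  have hk2 : k'⁻¹ (k o) = k⁻¹ o := by
    rw [Equiv.Perm.inv_eq_iff_eq, hk']
    simp
  have hk3 : ∀ a, a ≠ o → a ≠ k o → k'⁻¹ a = k⁻¹ a := by
    intro a h1 h2
    rw [Equiv.Perm.inv_eq_iff_eq, hk']
    simp [Equiv.swap_apply_of_ne_of_ne h1 h2]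
  set W : (O → B) → C → (O → B) := fun z c a =>
    if a = o then s c else if a = k o then z (k o) * (s c)⁻¹ else z a with hW
  have hF1' : ∀ z, z o = 1 → F' z = ∑ c : C, if c ∈ (S o).map ρ then F (W z c) else 0 := by
    intro z hz
    exact hF1 z hz
  constructor
  · intro x z
    by_cases hzo : z o = 1
    · have hy : ι (x o) * z o * (ι (x (k'⁻¹ o)))⁻¹ = 1 := by
        rw [hk1, hzo]
        simp
      rw [hF1' _ hy, hF1' _ hzo]
      refine Finset.sum_congr rfl fun c _ => ?_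
      by_cases hc : c ∈ (S o).map ρ
      · rw [if_pos hc, if_pos hc]
        rw [← hF (Function.update x o (κ (s c) (x (k⁻¹ o)))) (W z c)]
        congr 1
        funext a
        by_cases ha : a = o
        · subst ha
          rw [hW]
          simp only [if_true]
          rw [Function.update_self, Function.update_of_ne hko, hcl.act]
          group
        · by_cases ha2 : a = k o
          · subst ha2
            rw [hW]
            simp only [if_neg ha, if_true]
            rw [hk2, AAK.inv_app, Function.update_self, Function.update_of_ne ha, hcl.act]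
            group
          · have h3 : k⁻¹ a ≠ o := by
              intro h
              apply ha2
              rw [← h, AAK.app_inv]
            rw [hW]
            simp only [if_neg ha, if_neg ha2]
            rw [hk3 a ha ha2, Function.update_of_ne ha, Function.update_of_ne h3]
      · rw [if_neg hc, if_neg hc]
    · have hy : ι (x o) * z o * (ι (x (k'⁻¹ o)))⁻¹ ≠ 1 := by
        rw [hk1]
        intro h
        apply hzo
        have h2 := mul_inv_eq_one.1 h
        exact mul_eq_left.1 h2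
      rw [hF2 _ hy, hF2 _ hzo]
  · have hmθ : θ o 1 = (m o : ℂ) := by
      rw [(hMD o).tr 1 (one_mem _), Finset.sum_congr rfl (g := fun _ => (1 : ℂ)),
        Finset.sum_const, Finset.card_range, nsmul_eq_mul, mul_one]
      intro i hi
      rw [Finset.mem_range] at hi
      rw [(hMD o).one i hi i hi, if_pos rfl]
    have hm0 : (m o : ℂ) ≠ 0 := by rw [← hmθ]; exact hθ o
    set t : O → Finset B := fun a => Finset.univ.filter (· ∈ S a) with ht
    have hmt : ∀ a g, g ∈ t a ↔ g ∈ S a := by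
      intro a g
      rw [ht]
      simp
    have hcard0 : ((t o).card : ℂ) ≠ 0 := by
      have : 0 < (t o).card := Finset.card_pos.mpr ⟨1, (hmt o 1).2 (one_mem _)⟩
      exact_mod_cast this.ne'
    set Φ : (O → B) → ℂ := fun n => F' n * TH m M k' n with hΦ
    set H : (O → B) → C → ℂ := fun z c => F (W z c) * TH m M k' z with hH
    -- the substitution
    have e1 : ∑ n ∈ Fintype.piFinset t, (m o : ℂ) * (F n * TH m M k n) =
        ∑ n ∈ Fintype.piFinset t,
          H (Function.update (Function.update n (k o) (n (k o) * n o)) o 1) (ρ (n o)) := by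
      refine Finset.sum_congr rfl fun n hn => ?_
      rw [Fintype.mem_piFinset] at hn
      have hnS : ∀ a, n a ∈ S a := fun a => (hmt a _).1 (hn a)
      have h1 := AAK.TH_eq k S θ m M hS hm hM hMD o k' ho hk' n hnS
      rw [hH]
      simp only
      rw [← h1]
      have hg : ρ (n o * (s (ρ (n o)))⁻¹) = 1 := by
        rw [map_mul, map_inv, hs, mul_inv_cancel]
      obtain ⟨g, hg'⟩ := (hcl.ker _).mp hg
      have hg2 : n o = ι g * s (ρ (n o)) := by
        rw [hg', inv_mul_cancel_right]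
      have h2 := hF (Function.update (fun _ => 1) o g⁻¹) n
      rw [← h2]
      have h3 : (fun a => ι (Function.update (fun _ => (1 : G)) o g⁻¹ a) * n a *
          (ι (Function.update (fun _ => (1 : G)) o g⁻¹ (k⁻¹ a)))⁻¹) =
          W (Function.update (Function.update n (k o) (n (k o) * n o)) o 1) (ρ (n o)) := by
        funext a
        by_cases ha : a = o
        · subst ha
          rw [hW]
          simp only [if_true]
          rw [Function.update_self, Function.update_of_ne hko, map_inv]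
          rw [map_one, inv_one, mul_one, inv_mul_eq_iff_eq_mul]
          exact hg2
        · by_cases ha2 : a = k o
          · subst ha2
            rw [hW]
            simp only [if_neg ha, if_true]
            rw [Function.update_of_ne ha, AAK.inv_app, Function.update_self,
              Function.update_of_ne ha, Function.update_self, map_one, one_mul, map_inv, inv_inv]
            rw [mul_assoc, hg']
          · have h3 : k⁻¹ a ≠ o := by
              intro h
              apply ha2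
              rw [← h, AAK.app_inv]
            rw [hW]
            simp only [if_neg ha, if_neg ha2]
            rw [Function.update_of_ne ha, Function.update_of_ne h3, Function.update_of_ne ha,
              Function.update_of_ne ha2]
            simp
      rw [h3]
      ring
    have e2 : ∑ n ∈ Fintype.piFinset t,
          H (Function.update (Function.update n (k o) (n (k o) * n o)) o 1) (ρ (n o)) =
        ∑ n ∈ Fintype.piFinset t, H (Function.update n o 1) (ρ (n o)) := by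
      refine Finset.sum_nbij' (fun n => Function.update n (k o) (n (k o) * n o))
        (fun n => Function.update n (k o) (n (k o) * (n o)⁻¹)) ?_ ?_ ?_ ?_ ?_
      · intro n hn
        rw [Fintype.mem_piFinset] at hn ⊢
        intro a
        rw [hmt]
        by_cases ha : a = k o
        · subst ha
          rw [Function.update_self]
          refine mul_mem ((hmt _ _).1 (hn _)) ?_
          rw [hS o]
          exact (hmt _ _).1 (hn _)
        · rw [Function.update_of_ne ha]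
          exact (hmt _ _).1 (hn _)
      · intro n hn
        rw [Fintype.mem_piFinset] at hn ⊢
        intro a
        rw [hmt]
        by_cases ha : a = k o
        · subst ha
          rw [Function.update_self]
          refine mul_mem ((hmt _ _).1 (hn _)) (inv_mem ?_)
          rw [hS o]
          exact (hmt _ _).1 (hn _)
        · rw [Function.update_of_ne ha]
          exact (hmt _ _).1 (hn _)
      · intro n _
        rw [Function.update_self, Function.update_of_ne (Ne.symm ho), Function.update_idem,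
          mul_inv_cancel_right, Function.update_eq_self]
      · intro n _
        rw [Function.update_self, Function.update_of_ne (Ne.symm ho), Function.update_idem,
          inv_mul_cancel_right, Function.update_eq_self]
      · intro n _
        rw [Function.update_of_ne (Ne.symm ho)]
    have e3 : ∑ n ∈ Fintype.piFinset t, Φ (Function.update n o 1) =
        ((t o).card : ℂ) * ∑ n ∈ Fintype.piFinset t, Φ n := by
      rw [← AAK.sum_update]
      refine Finset.sum_congr rfl fun n _ => ?_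
      rw [Finset.sum_eq_single 1]
      · intro s _ hs
        rw [hΦ]
        simp only
        rw [hF2 _ (by rw [Function.update_self]; exact hs), zero_mul]
      · intro h
        exact absurd ((hmt _ _).2 (one_mem _)) h
    have e4 : ((t o).card : ℂ) * ∑ n ∈ Fintype.piFinset t, H (Function.update n o 1) (ρ (n o)) =
        (Nat.card ((S o).comap ι) : ℂ) * ∑ n ∈ Fintype.piFinset t, Φ (Function.update n o 1) := by
      rw [← AAK.sum_update t o (fun n => H (Function.update n o 1) (ρ (n o))), Finset.mul_sum]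
      refine Finset.sum_congr rfl fun n _ => ?_
      have h1 : ∑ j ∈ t o, H (Function.update (Function.update n o j) o 1)
          (ρ (Function.update n o j o)) = ∑ j ∈ t o, H (Function.update n o 1) (ρ j) := by
        refine Finset.sum_congr rfl fun j _ => ?_
        rw [Function.update_idem, Function.update_self]
      rw [h1]
      have h2 := AAKH.sum_fibre hcl (S o) (fun c => H (Function.update n o 1) c)
      refine Eq.trans ?_ (h2.trans ?_)
      · rfl
      · congr 1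
        rw [hΦ, hH]
        simp only
        rw [hF1' _ (Function.update_self _ _ _), Finset.sum_mul]
        refine Finset.sum_congr rfl fun c _ => ?_
        by_cases hc : c ∈ (S o).map ρ
        · rw [if_pos hc, if_pos hc]
        · rw [if_neg hc, if_neg hc, zero_mul]
    have e5 : ∑ n ∈ Fintype.piFinset t, H (Function.update n o 1) (ρ (n o)) =
        (Nat.card ((S o).comap ι) : ℂ) * ∑ n ∈ Fintype.piFinset t, Φ n := by
      apply mul_left_cancel₀ hcard0
      rw [e4, e3]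
      ring
    have e6 := e1.trans (e2.trans e5)
    rw [← Finset.mul_sum] at e6
    unfold aS
    rw [AAK.sum_pi S (fun n => F n * TH m M k n), AAK.sum_pi S (fun n => F' n * TH m M k' n)]
    have e7 : ∑ n ∈ Fintype.piFinset t, F n * TH m M k n =
        (Nat.card ((S o).comap ι) : ℂ) / θ o 1 * ∑ n ∈ Fintype.piFinset t, Φ n := by
      rw [hmθ, div_mul_eq_mul_div, eq_div_iff hm0, mul_comm]
      exact e6
    rw [show (∑ n ∈ Fintype.piFinset (fun o => Finset.univ.filter (· ∈ S o)),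
      F n * TH m M k n) = (Nat.card ((S o).comap ι) : ℂ) / θ o 1 *
        ∑ n ∈ Fintype.piFinset t, Φ n from e7]
    rw [mul_div_assoc]

end Pool.Agent.DP


end

section

/-!
# The number of transports
-/

namespace Pool.Agent.DPV

open Pool.Agent.DP

open Pool.Agent.Lib_helper13 Representation

namespace CNTV

/-- Elements with the same image in `K` act by the same permutation, with the same left
components modulo `G`. -/
theorem same_image {O G B C Y K : Type} [Group G] [Group B] [Group C] [Group Y] [Group K]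
    {ι : G →* B} {κ : B →* MulAut G} {ρ : B →* C} (hL : LocV ι κ ρ)
    {j : (O → G) →* Y} {p : Y →* K} {φ : Y →* Gam (Equiv.Perm O) O B} (hE : ExtS ι κ j p φ)
    {x y : Y} (h : p x = p y) :
    (φ x).right = (φ y).right ∧ ∀ o, ρ ((φ x).left o) = ρ ((φ y).left o) := by
  have h1 : p (x * y⁻¹) = 1 := by rw [map_mul, map_inv, h, mul_inv_cancel]
  obtain ⟨n, hn⟩ := (hE.cl.ker (x * y⁻¹)).mp h1
  have hx : x = j n * y := by rw [hn, inv_mul_cancel_right]
  have h2 : φ x = SemidirectProduct.inl (fun o => ι (n o)) * φ y := by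
    rw [hx, map_mul, hE.jn]
  constructor
  · rw [h2, SemidirectProduct.mul_right, SemidirectProduct.right_inl, one_mul]
  · intro o
    rw [h2]
    have h3 : (SemidirectProduct.inl (fun o => ι (n o)) * φ y :
        Gam (Equiv.Perm O) O B).left o = ι (n o) * (φ y).left o := by
      rw [SemidirectProduct.mul_left, SemidirectProduct.left_inl, SemidirectProduct.right_inl,
        map_one]
      rfl
    rw [h3, map_mul, (hL.cl.ker (ι (n o))).mpr ⟨n o, rfl⟩, one_mul]

end CNTV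

open _root_.Pool.Agent.DPV.CNTV

theorem CNTV_thm (h1 : Stmt_TRV) : Stmt_CNTV := by
  classical
  intro O G B C Y K _ _ _ _ _ _ _ _ _ _ _ ℓ _ ι κ ρ hL j p φ hE J r t hr τ hτ θ hθ hJ
  obtain ⟨-, h2⟩ := h1 O G B C ⊥ ℓ ι κ ρ hL τ θ hθ
  have e1 : {g : O → B // (∀ o, r o = o → g o = 1) ∧
      (∀ o, ρ (g o) = ρ ((φ (t o)).left o)) ∧ ∀ o, trB κ τ θ (r o) o (g o)} ≃
      ((o : O) → {h : B // (r o = o → h = 1) ∧ ρ h = ρ ((φ (t o)).left o) ∧
        trB κ τ θ (r o) o h}) :=
    { toFun := fun g o => ⟨g.1 o, g.2.1 o, g.2.2.1 o, g.2.2.2 o⟩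
      invFun := fun f => ⟨fun o => (f o).1, fun o => (f o).2.1, fun o => (f o).2.2.1,
        fun o => (f o).2.2.2⟩
      left_inv := fun g => rfl
      right_inv := fun f => rfl }
  rw [Nat.card_congr e1, Nat.card_pi, Finset.prod_filter]
  refine Finset.prod_congr rfl fun o _ => ?_
  by_cases ho : r o = o
  · rw [if_neg (not_not.mpr ho)]
    rw [Nat.card_eq_one_iff_unique]
    constructor
    · constructor
      intro a b
      apply Subtype.ext
      rw [a.2.1 ho, b.2.1 ho]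
    · refine ⟨⟨1, fun _ => rfl, ?_, ?_⟩⟩
      · have h3 : (φ (t o)).left o = 1 := by
          rw [hr.one o ho, map_one]
          rfl
        rw [h3]
      · rw [ho]
        exact trB.one κ τ θ o
  · rw [if_pos ho]
    obtain ⟨y, hy, hy2⟩ := hJ (hr.mem o)
    obtain ⟨h3, h4⟩ := same_image hL hE hy2
    have h5 : (φ y).right⁻¹ • o = r o := by
      rw [inv_smul_eq_iff, h3, hr.map]
    have h6 : trB κ τ θ (r o) o ((φ y).left o) := by
      have h := hy o
      rw [h5] at h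
      exact h
    obtain ⟨-, -, -, h7, -⟩ := h2 (r o) o _ h6
    rw [← h7]
    refine Nat.card_congr (Equiv.subtypeEquivRight fun h => ?_)
    rw [h4]
    constructor
    · rintro ⟨-, ha, hb⟩
      exact ⟨hb, ha⟩
    · rintro ⟨ha, hb⟩
      exact ⟨fun h => absurd h ho, hb, ha⟩

end Pool.Agent.DPV


end
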