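import Mathlib
import Pool.Agent.DAM.C01
import Pool.Agent.DAM.C04
import Pool.Agent.DAM.C13
import Pool.Agent.DAM.C19
import Pool.Agent.DAM.C21
import Pool.Agent.DAM.C25

/-! Parts: DPM.MPR, DPC.StmtsZ, DPC.DGV, DPC.DGJ, DPC.ZF, DPC.ZST, DPC.WA, DPC.CYC -/

section

/-!
# MPR: passage to a larger normal subgroup
-/

set_option autoImplicit false
set_option linter.unusedSectionVars false

namespace Pool.Agent.DPM

open Pool.Agent.DP Pool.Agent.DPC Pool.Agent.Lib_helper13 Representation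

namespace MPR

/-- A character under a given character exists. -/
theorem exists_under {A Y : Type} [Group A] [Fintype A] [Group Y] [Fintype Y] (j : A →* Y)
    {χ : Y → ℂ} (hχ : IsIrr χ) : ∃ θ : A → ℂ, IsIrr θ ∧ ip (resj j χ) θ ≠ 0 := by
  by_contra hn
  push Not at hn
  have h := class_fn_expand (resj j χ) (fun g x => (hχ.resj j).conj_eq g x)
  have h1 := congrFun h 1
  have h2 : ∑ θ ∈ irrF A, ip (resj j χ) θ * θ 1 = 0 :=
    Finset.sum_eq_zero fun θ hθ => by rw [hn θ (mem_irrF.mp hθ), zero_mul]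
  rw [h2] at h1
  apply hχ.one_ne_zero
  rw [← h1, resj, map_one]

/-- Transitivity of the multiplicities. -/
theorem ip_trans {A T X : Type} [Group A] [Fintype A] [Group T] [Fintype T] [Group X]
    [Fintype X] (j : A →* T) (i : T →* X) {χ : X → ℂ} (hχ : IsIrr χ) (θ : A → ℂ) :
    ip (resj (i.comp j) χ) θ = ∑ ψ ∈ irrF T, ip (resj i χ) ψ * ip (resj j ψ) θ := by
  have h := class_fn_expand (resj i χ) (fun g x => (hχ.resj i).conj_eq g x)
  have h1 : resj (i.comp j) χ = fun a => ∑ ψ ∈ irrF T, ip (resj i χ) ψ * resj j ψ a := by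
    funext a
    exact congrFun h (j a)
  rw [h1, ip_sum]

/-- A character under a character under `χ` is under `χ`. -/
theorem ip_trans_ne {A T X : Type} [Group A] [Fintype A] [Group T] [Fintype T] [Group X]
    [Fintype X] (j : A →* T) (i : T →* X) {χ : X → ℂ} (hχ : IsIrr χ) {ψ : T → ℂ}
    (hψ : IsIrr ψ) {θ : A → ℂ} (hθ : IsIrr θ) (h1 : ip (resj i χ) ψ ≠ 0)
    (h2 : ip (resj j ψ) θ ≠ 0) : ip (resj (i.comp j) χ) θ ≠ 0 := by
  classical
  have ha : ∀ φ : T → ℂ, ∃ m : ℕ, φ ∈ irrF T → ip (resj i χ) φ = m := by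
    intro φ
    by_cases hφ : φ ∈ irrF T
    · obtain ⟨m, hm⟩ := (hχ.resj i).exists_ip (mem_irrF.mp hφ).isChr
      exact ⟨m, fun _ => hm⟩
    · exact ⟨0, fun h => absurd h hφ⟩
  have hb : ∀ φ : T → ℂ, ∃ m : ℕ, φ ∈ irrF T → ip (resj j φ) θ = m := by
    intro φ
    by_cases hφ : φ ∈ irrF T
    · obtain ⟨m, hm⟩ := ((mem_irrF.mp hφ).resj j).exists_ip hθ.isChr
      exact ⟨m, fun _ => hm⟩
    · exact ⟨0, fun h => absurd h hφ⟩
  choose a ha using ha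
  choose b hb using hb
  have hsum : ip (resj (i.comp j) χ) θ = ((∑ φ ∈ irrF T, a φ * b φ : ℕ) : ℂ) := by
    rw [ip_trans j i hχ θ]
    push_cast
    exact Finset.sum_congr rfl fun φ hφ => by rw [ha φ hφ, hb φ hφ]
  have hψ' : ψ ∈ irrF T := mem_irrF.mpr hψ
  rw [hsum]
  intro h
  have h' : ∑ φ ∈ irrF T, a φ * b φ = 0 := by exact_mod_cast h
  have h3 := (Finset.sum_eq_zero_iff.mp h') ψ hψ'
  rcases Nat.mul_eq_zero.mp h3 with h4 | h4
  · apply h1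
    rw [ha ψ hψ', h4, Nat.cast_zero]
  · apply h2
    rw [hb ψ hψ', h4, Nat.cast_zero]

/-- An intermediate character. -/
theorem exists_mid {A T X : Type} [Group A] [Fintype A] [Group T] [Fintype T] [Group X]
    [Fintype X] (j : A →* T) (i : T →* X) {χ : X → ℂ} (hχ : IsIrr χ) {θ : A → ℂ}
    (h : ip (resj (i.comp j) χ) θ ≠ 0) :
    ∃ ψ : T → ℂ, IsIrr ψ ∧ ip (resj i χ) ψ ≠ 0 ∧ ip (resj j ψ) θ ≠ 0 := by
  rw [ip_trans j i hχ θ] at h
  obtain ⟨ψ, hψ, hne⟩ := Finset.exists_ne_zero_of_sum_ne_zero h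
  exact ⟨ψ, mem_irrF.mp hψ, left_ne_zero_of_mul hne, right_ne_zero_of_mul hne⟩

/-- Transport of the equality of central functions. -/
theorem cen_trans {A T X : Type} [Group A] [Fintype A] [Group T] [Fintype T] [Group X]
    [Fintype X] (𝔐 : Ideal (integralClosure ℤ ℂ)) (j : A →* T) (i : T →* X) {θ θ' : A → ℂ}
    (hθ : IsIrr θ) (hθ' : IsIrr θ') (h : cen 𝔐 j θ = cen 𝔐 j θ') :
    cen 𝔐 (i.comp j) θ = cen 𝔐 (i.comp j) θ' := by
  funext g
  have hf : ∀ (a x : T), conjInd (i (a * x * a⁻¹)) g = conjInd (i x) g := by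
    intro a x
    rw [map_mul, map_mul, map_inv, conjInd_conj]
  have e1 := red_wt_eq_pair 𝔐 j hθ (fun t => conjInd (i t) g) hf
    (fun x => isIntegral_conjInd _ _)
  have e2 := red_wt_eq_pair 𝔐 j hθ' (fun t => conjInd (i t) g) hf
    (fun x => isIntegral_conjInd _ _)
  change red 𝔐 (wt θ (fun a => conjInd (i (j a)) g)) =
    red 𝔐 (wt θ' (fun a => conjInd (i (j a)) g))
  rw [e1, e2, h]

/-- The central function vanishes outside the normal image. -/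
theorem cen_eq_zero {A T : Type} [Group A] [Fintype A] [Group T]
    (𝔐 : Ideal (integralClosure ℤ ℂ)) (j : A →* T) (N : Subgroup T) [N.Normal]
    (hj : ∀ a, j a ∈ N) (θ : A → ℂ) {g : T} (hg : g ∉ N) : cen 𝔐 j θ g = 0 := by
  have h : ∀ a, conjInd (j a) g = 0 := by
    intro a
    rw [conjInd, if_neg]
    intro hc
    obtain ⟨c, hc⟩ := isConj_iff.mp hc
    apply hg
    rw [← hc]
    exact Subgroup.Normal.conj_mem inferInstance _ (hj a) c
  have h2 : wt θ (fun a => conjInd (j a) g) = 0 := by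
    rw [wt]
    simp [h]
  change red 𝔐 (wt θ (fun a => conjInd (j a) g)) = 0
  rw [h2, red_zero]

/-- The inclusion of `M` in `M'` as a normal subgroup. -/
theorem clG_incl {X : Type} [Group X] (M M' : Subgroup X) [M.Normal] (h : M ≤ M') :
    ClG (Subgroup.inclusion h) ((MulAut.conjNormal : X →* MulAut M).comp M'.subtype)
      (QuotientGroup.mk' (M.subgroupOf M')) where
  inj := Subgroup.inclusion_injective h
  act := by
    intro y a
    apply Subtype.ext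
    rfl
  ker := by
    intro y
    rw [QuotientGroup.mk'_apply, QuotientGroup.eq_one_iff, Subgroup.mem_subgroupOf]
    constructor
    · intro hy
      exact ⟨⟨y, hy⟩, Subtype.ext rfl⟩
    · rintro ⟨a, ha⟩
      rw [← ha]
      exact a.2

/-- The inclusion of `M` in `X` as a normal subgroup. -/
theorem clG_sub {X : Type} [Group X] (M : Subgroup X) [M.Normal] :
    ClG M.subtype (MulAut.conjNormal : X →* MulAut M) (QuotientGroup.mk' M) where
  inj := M.subtype_injective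
  act := fun y a => rfl
  ker := by
    intro y
    rw [QuotientGroup.mk'_apply, QuotientGroup.eq_one_iff]
    constructor
    · intro hy
      exact ⟨⟨y, hy⟩, rfl⟩
    · rintro ⟨a, ha⟩
      rw [← ha]
      exact a.2

end MPR

open _root_.Pool.Agent.DPM.MPR in
/-- MPR: passage to a larger normal subgroup. -/
theorem MPR_thm (h1 : Stmt_DEFA) (h2 : Stmt_RCE) (h3 : Stmt_CVX) : Stmt_MPR := by
  intro X _ _ 𝔐 ℓ _ h𝔐 hℓ M M' _ _ hMM χ ξ hχ hξ hover hdef hU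
  classical
  have hsub : M.subtype = M'.subtype.comp (Subgroup.inclusion hMM) := by
    ext a
    rfl
  have hCl := clG_incl M M' hMM
  rw [hsub] at hover
  obtain ⟨ξ', hξ', ho1, ho2⟩ := exists_mid (Subgroup.inclusion hMM) M'.subtype hχ hover
  refine ⟨ξ', hξ', ho1, ?_, ?_⟩
  · intro h0
    obtain ⟨a, ha⟩ := hξ.exists_defect (ℓ := ℓ)
    have hle := h1 M M' _ ℓ _ _ _ hCl ξ' ξ hξ' hξ ho2 0 a h0 ha
    rw [Nat.le_zero] at hle
    rw [hle] at ha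
    exact hdef ha
  · intro χ1 ξ1 hχ1 hξ1 hov1 hcen1
    obtain ⟨ζ, hζ, hovζ⟩ := exists_under (Subgroup.inclusion hMM) hξ1
    have hζχ : ip (resj M.subtype χ1) ζ ≠ 0 := by
      rw [hsub]
      exact ip_trans_ne _ _ hχ1 hξ1 hζ hov1 hovζ
    -- the central functions of `ζ` and `ξ` on `M'`
    have hR : ∀ (ψ : M' → ℂ) (θ : M → ℂ), IsIrr ψ → IsIrr θ →
        ip (resj (Subgroup.inclusion hMM) ψ) θ ≠ 0 →
        ∀ g ∈ M.subgroupOf M', cen 𝔐 (MonoidHom.id M') ψ g =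
          cen 𝔐 (Subgroup.inclusion hMM) θ g := by
      intro ψ θ hψ hθ hne g hg
      refine h2 M M' _ M' 𝔐 _ _ _ hCl (MonoidHom.id M') (M.subgroupOf M') inferInstance ?_
        ψ θ hψ hθ hne g hg
      intro t ht
      exact ⟨⟨t, ht⟩, Subtype.ext rfl⟩
    have hcM' : cen 𝔐 (Subgroup.inclusion hMM) ζ = cen 𝔐 (Subgroup.inclusion hMM) ξ := by
      funext g
      by_cases hg : g ∈ M.subgroupOf M'
      · rw [← hR ξ1 ζ hξ1 hζ hovζ g hg, ← hR ξ' ξ hξ' hξ ho2 g hg, hcen1]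
      · have hj : ∀ a : M, Subgroup.inclusion hMM a ∈ M.subgroupOf M' := fun a => a.2
        rw [cen_eq_zero 𝔐 _ (M.subgroupOf M') hj ζ hg,
          cen_eq_zero 𝔐 _ (M.subgroupOf M') hj ξ hg]
    have hcX : cen 𝔐 M.subtype ξ = cen 𝔐 M.subtype ζ := by
      rw [hsub]
      exact (cen_trans 𝔐 _ _ hζ hξ hcM').symm
    obtain ⟨x, hx1, hx2, -⟩ := h3 X 𝔐 ℓ h𝔐 hℓ M ξ ζ hξ hζ (fun g _ => by rw [hcX])
    have hx3 : ip (resj M.subtype χ1) (fun m : M => ζ (MulAut.conjNormal x m)) ≠ 0 := by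
      rw [(SUMM_thm M X _ M.subtype _ _ (clG_sub M)).2.2.1 ζ χ1 x hχ1]
      exact hζχ
    exact hU χ1 _ hχ1 hx1 hx3 hx2

end Pool.Agent.DPM


end

section

/-!
# The blocks over a character of defect zero of a normal subgroup: statements of the modules
-/

namespace Pool.Agent.DPC

open Pool.Agent.DP Pool.Agent.Lib_helper13 Representation
open Pool.Agent.Lib_helper13.Dade (pCore DadeHolds dadeSum)

/-! ### The correspondence of characters of defect zero -/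

/-- DGC: transport. -/
def Stmt_DGC : Prop :=
  ∀ (G B : Type) [Group G] [Fintype G] [Group B] [Fintype B]
    (𝔐 : Ideal (integralClosure ℤ ℂ)) (ℓ : ℕ) (κ : B →* MulAut G) (P P' : Subgroup B) (b : B),
    P.map (MulAut.conj b).toMonoidHom = P' →
    ∃ e : ↥(FX κ P) ≃* ↥(FX κ P'), (∀ g, ((e g : FX κ P') : G) = κ b g) ∧
      ∀ (θ' : ↥(FX κ P') → ℂ) (θ : G → ℂ), (IsIrr (fun g => θ' (e g)) ↔ IsIrr θ') ∧
        (∀ d, HasDefect ℓ (fun g => θ' (e g)) d ↔ HasDefect ℓ θ' d) ∧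
        (DGr 𝔐 κ P (fun g => θ' (e g)) (fun g => θ (κ b g)) ↔ DGr 𝔐 κ P' θ' θ)

/-- DGV: the corresponding character is invariant. -/
def Stmt_DGV : Prop :=
  ∀ (G B : Type) [Group G] [Fintype G] [Group B] [Fintype B]
    (𝔐 : Ideal (integralClosure ℤ ℂ)) (ℓ : ℕ) [Fact ℓ.Prime], 𝔐.IsMaximal →
    (ℓ : integralClosure ℤ ℂ) ∈ 𝔐 → ∀ (κ : B →* MulAut G) (P : Subgroup B), IsPGroup ℓ P →
    ∀ (θ' : ↥(FX κ P) → ℂ) (θ : G → ℂ), IsIrr θ' → IsIrr θ → HasDefect ℓ θ 0 →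
      DGr 𝔐 κ P θ' θ → ∀ b ∈ P, ∀ x, θ (κ b x) = θ x

/-- DGT: the values of corresponding characters. -/
def Stmt_DGT : Prop :=
  ∀ (G B : Type) [Group G] [Fintype G] [Group B] [Fintype B]
    (𝔐 : Ideal (integralClosure ℤ ℂ)) (ℓ : ℕ) [Fact ℓ.Prime], 𝔐.IsMaximal →
    (ℓ : integralClosure ℤ ℂ) ∈ 𝔐 → ∀ (κ : B →* MulAut G) (P : Subgroup B), IsPGroup ℓ P →
    ∀ (θ' : ↥(FX κ P) → ℂ) (θ : G → ℂ), IsIrr θ' → HasDefect ℓ θ' 0 → IsIrr θ →
      HasDefect ℓ θ 0 → DGr 𝔐 κ P θ' θ →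
      ∃ ε : ℂ, (ε = 1 ∨ ε = -1) ∧ (∀ y : FX κ P, red 𝔐 (θ y) = red 𝔐 ε * red 𝔐 (θ' y)) ∧
        red 𝔐 ((Nat.card (FX κ P) : ℂ) / θ' 1) = red 𝔐 ε * red 𝔐 ((Nat.card G : ℂ) / θ 1)

/-- TDG: characters with proportional values correspond to each other. -/
def Stmt_TDG : Prop :=
  ∀ (G B : Type) [Group G] [Fintype G] [Group B] [Fintype B]
    (𝔐 : Ideal (integralClosure ℤ ℂ)) (ℓ : ℕ) [Fact ℓ.Prime], 𝔐.IsMaximal →
    (ℓ : integralClosure ℤ ℂ) ∈ 𝔐 → ∀ (κ : B →* MulAut G) (P : Subgroup B), IsPGroup ℓ P →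
    ∀ (θ' : ↥(FX κ P) → ℂ) (θ : G → ℂ), IsIrr θ' → HasDefect ℓ θ' 0 → IsIrr θ →
      (∀ b ∈ P, ∀ x, θ (κ b x) = θ x) → ∀ m : (integralClosure ℤ ℂ) ⧸ 𝔐, m ≠ 0 →
      (∀ y : FX κ P, red 𝔐 (θ y) = m * red 𝔐 (θ' y)) → DGr 𝔐 κ P θ' θ

/-- DGJ: the correspondence is one-to-one. -/
def Stmt_DGJ : Prop :=
  ∀ (G B : Type) [Group G] [Fintype G] [Group B] [Fintype B]
    (𝔐 : Ideal (integralClosure ℤ ℂ)) (ℓ : ℕ) [Fact ℓ.Prime], 𝔐.IsMaximal →
    (ℓ : integralClosure ℤ ℂ) ∈ 𝔐 → ∀ (κ : B →* MulAut G) (P : Subgroup B), IsPGroup ℓ P →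
    (∀ (θ' : ↥(FX κ P) → ℂ) (θ₁ θ₂ : G → ℂ), IsIrr θ' → IsIrr θ₁ → HasDefect ℓ θ₁ 0 →
      IsIrr θ₂ → DGr 𝔐 κ P θ' θ₁ → DGr 𝔐 κ P θ' θ₂ → θ₁ = θ₂) ∧
    ∀ (θ₁ θ₂ : ↥(FX κ P) → ℂ) (θ : G → ℂ), IsIrr θ₁ → HasDefect ℓ θ₁ 0 → IsIrr θ₂ →
      HasDefect ℓ θ₂ 0 → IsIrr θ → HasDefect ℓ θ 0 → DGr 𝔐 κ P θ₁ θ → DGr 𝔐 κ P θ₂ θ → θ₁ = θ₂

/-- DGU: subgroups with the same image which belong to the same character are conjugate. -/
def Stmt_DGU : Prop :=
  ∀ (A X K : Type) [Group A] [Fintype A] [Group X] [Fintype X] [Group K]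
    (𝔐 : Ideal (integralClosure ℤ ℂ)) (ℓ : ℕ) [Fact ℓ.Prime], 𝔐.IsMaximal →
    (ℓ : integralClosure ℤ ℂ) ∈ 𝔐 → ∀ (j : A →* X) (c : X →* MulAut A) (p : X →* K), ClG j c p →
    ∀ θ : A → ℂ, IsIrr θ → HasDefect ℓ θ 0 → ∀ Q₁ Q₂ : Subgroup X, IsPGroup ℓ Q₁ →
      IsPGroup ℓ Q₂ → Q₁ ⊓ j.range = ⊥ → Q₂ ⊓ j.range = ⊥ → Q₁.map p = Q₂.map p →
      GQ 𝔐 ℓ c θ Q₁ → GQ 𝔐 ℓ c θ Q₂ → ∃ a : A, Q₁.map (MulAut.conj (j a)).toMonoidHom = Q₂

/-- BRK: the kernel of the restriction to the fixed points. -/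
def Stmt_BRK : Prop :=
  ∀ (G B : Type) [Group G] [Fintype G] [Group B] [Fintype B]
    (𝔐 : Ideal (integralClosure ℤ ℂ)) (ℓ : ℕ) [Fact ℓ.Prime], 𝔐.IsMaximal →
    (ℓ : integralClosure ℤ ℂ) ∈ 𝔐 → ∀ (κ : B →* MulAut G) (P : Subgroup B), IsPGroup ℓ P →
    ∀ θ : G → ℂ, IsIrr θ → HasDefect ℓ θ 0 → (∀ b ∈ P, ∀ x, θ (κ b x) = θ x) →
    ∀ y ∈ FX κ P, (∀ g : G, g * y = y * g → ∀ k : ℕ, g ^ ℓ ^ k = 1 → g = 1) →
      red 𝔐 (θ y) ≠ 0 →
    ∀ F : G → ℂ, (∀ g x, F (g * x * g⁻¹) = F x) → (∀ b ∈ P, ∀ x, F (κ b x) = F x) →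
      (∀ x, IsIntegral ℤ (F x)) → (∀ x ∈ FX κ P, red 𝔐 (F x) = 0) → red 𝔐 (wt θ F) = 0

/-- DGX: a complement which centralizes an element at which the character does not vanish. -/
def Stmt_DGX : Prop :=
  ∀ (A X K : Type) [Group A] [Fintype A] [Group X] [Fintype X] [Group K]
    (𝔐 : Ideal (integralClosure ℤ ℂ)) (ℓ : ℕ) [Fact ℓ.Prime], 𝔐.IsMaximal →
    (ℓ : integralClosure ℤ ℂ) ∈ 𝔐 → ∀ (j : A →* X) (c : X →* MulAut A) (p : X →* K), ClG j c p →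
    ∀ Qb : Subgroup K, IsPGroup ℓ Qb → Qb ≤ p.range → ∀ θ : A → ℂ, IsIrr θ →
      HasDefect ℓ θ 0 → (∀ x, p x ∈ Qb → ∀ a, θ (c x a) = θ a) →
      ∃ (Q : Subgroup X) (y : A), IsPGroup ℓ Q ∧ Q ⊓ j.range = ⊥ ∧ Q.map p = Qb ∧ y ∈ FX c Q ∧
        (∀ g : A, g * y = y * g → ∀ k : ℕ, g ^ ℓ ^ k = 1 → g = 1) ∧ red 𝔐 (θ y) ≠ 0

/-- DGE: existence of the corresponding character. -/
def Stmt_DGE : Prop :=
  ∀ (A X K : Type) [Group A] [Fintype A] [Group X] [Fintype X] [Group K]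
    (𝔐 : Ideal (integralClosure ℤ ℂ)) (ℓ : ℕ) [Fact ℓ.Prime], 𝔐.IsMaximal →
    (ℓ : integralClosure ℤ ℂ) ∈ 𝔐 → ∀ (j : A →* X) (c : X →* MulAut A) (p : X →* K), ClG j c p →
    ∀ Qb : Subgroup K, IsPGroup ℓ Qb → Qb ≤ p.range → ∀ θ : A → ℂ, IsIrr θ →
      HasDefect ℓ θ 0 → (∀ x, p x ∈ Qb → ∀ a, θ (c x a) = θ a) →
      ∃ Q : Subgroup X, IsPGroup ℓ Q ∧ Q ⊓ j.range = ⊥ ∧ Q.map p = Qb ∧ GQ 𝔐 ℓ c θ Q

/-- RDZ: the characters of subgroups in a block over a character of defect zero. -/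
def Stmt_RDZ : Prop :=
  ∀ (A X K : Type) [Group A] [Fintype A] [Group X] [Fintype X] [Group K]
    (𝔐 : Ideal (integralClosure ℤ ℂ)) (ℓ : ℕ) [Fact ℓ.Prime], 𝔐.IsMaximal →
    (ℓ : integralClosure ℤ ℂ) ∈ 𝔐 → ∀ (j : A →* X) (c : X →* MulAut A) (p : X →* K), ClG j c p →
    ∀ (χ : X → ℂ) (θ : A → ℂ), IsIrr χ → IsIrr θ → HasDefect ℓ θ 0 → ip (resj j χ) θ ≠ 0 →
    ∀ (S : Subgroup X) (ψ : S → ℂ), IsIrr ψ →
      cen 𝔐 S.subtype ψ = cen 𝔐 (MonoidHom.id X) χ →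
    ∀ (A' : Type) [Group A'] [Fintype A'] (i : A' →* A) (j' : A' →* S), Function.Injective i →
      (∀ a, (j' a : X) = j (i a)) → (∀ a, j a ∈ S → a ∈ i.range) →
    ∀ θ' : A' → ℂ, IsIrr θ' → ip (resj j' ψ) θ' ≠ 0 →
      HasDefect ℓ θ' 0 ∧ ∀ F : A → ℂ, (∀ x a, F (c x a) = F a) → (∀ a, IsIntegral ℤ (F a)) →
        red 𝔐 (wt θ' (fun a => F (i a))) = red 𝔐 (wt θ F)

/-- RDG: the same for subgroups which meet the normal subgroup in the centralizer of an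
`ℓ`-subgroup. -/
def Stmt_RDG : Prop :=
  ∀ (A X K : Type) [Group A] [Fintype A] [Group X] [Fintype X] [Group K]
    (𝔐 : Ideal (integralClosure ℤ ℂ)) (ℓ : ℕ) [Fact ℓ.Prime], 𝔐.IsMaximal →
    (ℓ : integralClosure ℤ ℂ) ∈ 𝔐 → ∀ (j : A →* X) (c : X →* MulAut A) (p : X →* K), ClG j c p →
    ∀ (χ : X → ℂ) (θ : A → ℂ), IsIrr χ → IsIrr θ → HasDefect ℓ θ 0 → ip (resj j χ) θ ≠ 0 →
    ∀ Q : Subgroup X, IsPGroup ℓ Q → ∀ (S : Subgroup X) (ψ : S → ℂ), IsIrr ψ →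
      cen 𝔐 S.subtype ψ = cen 𝔐 (MonoidHom.id X) χ →
    ∀ j' : ↥(FX c Q) →* S, (∀ a, (j' a : X) = j a) → (∀ a, j a ∈ S → a ∈ FX c Q) →
    ∀ θ' : ↥(FX c Q) → ℂ, IsIrr θ' → ip (resj j' ψ) θ' ≠ 0 →
      HasDefect ℓ θ' 0 ∧ ∃ x : X, DGr 𝔐 c Q θ' (fun a => θ (c x a))

/-! ### The sums over the fibres -/

/-- FIBI: elementary properties. -/
def Stmt_FIBI : Prop :=
  ∀ (A X K : Type) [Group A] [Fintype A] [Group X] [Fintype X] [Group K]
    (𝔐 : Ideal (integralClosure ℤ ℂ)) (j : A →* X) (c : X →* MulAut A) (p : X →* K), ClG j c p →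
    ∀ (θ : A → ℂ) (E : X → ℂ), IsIrr θ → IsChr E → (∀ a, E (j a) = θ a) →
    (∀ F : X → ℂ, (∀ a x, F (j a * x * (j a)⁻¹) = F x) → (∀ x, IsIntegral ℤ (F x)) →
      ∀ h, IsIntegral ℤ (fib p E (θ 1) F h)) ∧
    (∀ F F' : X → ℂ, (∀ a x, F (j a * x * (j a)⁻¹) = F x) →
      (∀ a x, F' (j a * x * (j a)⁻¹) = F' x) → (∀ x, IsIntegral ℤ (F x)) →
      (∀ x, IsIntegral ℤ (F' x)) → ∀ h, (∀ x, p x = h → red 𝔐 (F x) = red 𝔐 (F' x)) →
        red 𝔐 (fib p E (θ 1) F h) = red 𝔐 (fib p E (θ 1) F' h)) ∧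
    (∀ F : X → ℂ, (∀ g x, F (g * x * g⁻¹) = F x) → ∀ y h,
      fib p E (θ 1) F (p y * h * (p y)⁻¹) = fib p E (θ 1) F h) ∧
    ∀ [Fintype K] (η : K → ℂ) (F : X → ℂ),
      wt (fun x => E x * η (p x)) F = wt η (fib p E (θ 1) F)

/-- BLZ: the blocks over an extendible character of defect zero. -/
def Stmt_BLZ : Prop :=
  ∀ (A X K : Type) [Group A] [Fintype A] [Group X] [Fintype X] [Group K] [Fintype K]
    (𝔐 : Ideal (integralClosure ℤ ℂ)) (ℓ : ℕ) [Fact ℓ.Prime], 𝔐.IsMaximal →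
    (ℓ : integralClosure ℤ ℂ) ∈ 𝔐 → ∀ (j : A →* X) (c : X →* MulAut A) (p : X →* K), ClG j c p →
    Function.Surjective p → ∀ (θ : A → ℂ) (E : X → ℂ), IsIrr θ → HasDefect ℓ θ 0 → IsChr E →
    (∀ a, E (j a) = θ a) → ∀ η η' : K → ℂ, IsIrr η → IsIrr η' →
      (cen 𝔐 (MonoidHom.id X) (fun x => E x * η (p x)) =
        cen 𝔐 (MonoidHom.id X) (fun x => E x * η' (p x)) ↔
      cen 𝔐 (MonoidHom.id K) η = cen 𝔐 (MonoidHom.id K) η')

/-- KEYZ: the central functions of the local characters. -/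
def Stmt_KEYZ : Prop :=
  ∀ (A X K : Type) [Group A] [Fintype A] [Group X] [Fintype X] [Group K] [Fintype K]
    (𝔐 : Ideal (integralClosure ℤ ℂ)) (ℓ : ℕ) [Fact ℓ.Prime], 𝔐.IsMaximal →
    (ℓ : integralClosure ℤ ℂ) ∈ 𝔐 → ∀ (j : A →* X) (c : X →* MulAut A) (p : X →* K), ClG j c p →
    Function.Surjective p → ∀ (θ : A → ℂ) (E : X → ℂ), IsIrr θ → HasDefect ℓ θ 0 → IsChr E →
    (∀ a, E (j a) = θ a) → ∀ (Z : Subgroup X) [Z.Normal], IsPGroup ℓ Z →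
    ∀ σ : Finset (Subgroup X), IsCh ℓ Z σ → tp Z σ ⊓ j.range = ⊥ →
    IsPGroup ℓ (tp Z σ) → IsCh ℓ (Z.map p) (mapCh p σ) →
    tp (Z.map p) (mapCh p σ) = (tp Z σ).map p →
    stb σ ≤ Subgroup.normalizer (tp Z σ : Set X) → (∀ a, j a ∈ stb σ ↔ a ∈ FX c (tp Z σ)) →
    (∀ k : K, ((tp Z σ).map p).map (MulAut.conj k).toMonoidHom = (tp Z σ).map p →
      ∃ x ∈ Subgroup.normalizer (tp Z σ : Set X), p x = k) →
    ∀ θ' : ↥(FX c (tp Z σ)) → ℂ, IsIrr θ' → HasDefect ℓ θ' 0 → DGr 𝔐 c (tp Z σ) θ' θ →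
    ∀ (E' : ↥(Subgroup.normalizer (tp Z σ : Set X)) → ℂ) (ε : ℂ), IsChr E' → IsIntegral ℤ ε →
      (∀ (a : FX c (tp Z σ)) (ha : j a ∈ Subgroup.normalizer (tp Z σ : Set X)),
        E' ⟨j a, ha⟩ = θ' a) →
      (∀ s : ↥(Subgroup.normalizer (tp Z σ : Set X)), (∀ q ∈ tp Z σ, q * (s : X) = s * q) →
        red 𝔐 (E s) = red 𝔐 ε * red 𝔐 (E' s)) →
    ∀ q : stb σ →* stb (mapCh p σ), (∀ s, ((q s : stb (mapCh p σ)) : K) = p s) →
      Function.Surjective q → ∀ η : stb (mapCh p σ) → ℂ, IsIrr η →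
    ∀ F : X → ℂ, (∀ g x, F (g * x * g⁻¹) = F x) → (∀ x, IsIntegral ℤ (F x)) →
      red 𝔐 (wt (fun s : stb σ => ext0 E' (s : X) * η (q s)) (fun s => F s)) =
        red 𝔐 (wt η (fun k => fib p E (θ 1) F k))

/-! ### Chains -/

/-- ZNS: conjugates, and normalizers of the images. -/
def Stmt_ZNS : Prop :=
  ∀ (A X K : Type) [Group A] [Fintype A] [Group X] [Fintype X] [Group K]
    (𝔐 : Ideal (integralClosure ℤ ℂ)) (ℓ : ℕ) [Fact ℓ.Prime], 𝔐.IsMaximal →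
    (ℓ : integralClosure ℤ ℂ) ∈ 𝔐 → ∀ (j : A →* X) (c : X →* MulAut A) (p : X →* K), ClG j c p →
    Function.Surjective p → ∀ θ : A → ℂ, IsIrr θ → HasDefect ℓ θ 0 →
    (∀ x a, θ (c x a) = θ a) →
    (∀ (Q : Subgroup X) (x : X), GQ 𝔐 ℓ c θ Q →
      GQ 𝔐 ℓ c θ (Q.map (MulAut.conj x).toMonoidHom)) ∧
    ∀ Q : Subgroup X, IsPGroup ℓ Q → Q ⊓ j.range = ⊥ → GQ 𝔐 ℓ c θ Q → ∀ k : K,
      (Q.map p).map (MulAut.conj k).toMonoidHom = Q.map p →
      ∃ x ∈ Subgroup.normalizer (Q : Set X), p x = k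

/-- ZQ: normal `ℓ`-subgroups. -/
def Stmt_ZQ : Prop :=
  ∀ (A X K : Type) [Group A] [Fintype A] [Group X] [Fintype X] [Group K]
    (𝔐 : Ideal (integralClosure ℤ ℂ)) (ℓ : ℕ) [Fact ℓ.Prime], 𝔐.IsMaximal →
    (ℓ : integralClosure ℤ ℂ) ∈ 𝔐 → ∀ (j : A →* X) (c : X →* MulAut A) (p : X →* K), ClG j c p →
    ∀ θ : A → ℂ, IsIrr θ → HasDefect ℓ θ 0 → ∀ (Z : Subgroup X) [Z.Normal], IsPGroup ℓ Z →
      Z ⊓ j.range = ⊥ → GQ 𝔐 ℓ c θ Z ∧ (∀ a, a ∈ FX c Z) ∧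
      ∀ Q : Subgroup X, IsPGroup ℓ Q → Q ⊓ j.range = ⊥ → GQ 𝔐 ℓ c θ Q →
        Z.map p ≤ Q.map p → Z ≤ Q

/-- ZST: outer chains and their images. -/
def Stmt_ZST : Prop :=
  ∀ (A X K : Type) [Group A] [Fintype A] [Group X] [Fintype X] [Group K] (ℓ : ℕ)
    [Fact ℓ.Prime] (j : A →* X) (c : X →* MulAut A) (p : X →* K), ClG j c p →
    Function.Surjective p → ∀ (Z : Subgroup X) [Z.Normal], IsPGroup ℓ Z → Z ⊓ j.range = ⊥ →
    ∀ σ : Finset (Subgroup X), IsCh ℓ Z σ → (∀ D ∈ σ, D ⊓ j.range = ⊥) →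
      IsPGroup ℓ (tp Z σ) ∧ tp Z σ ⊓ j.range = ⊥ ∧
      tp (Z.map p) (mapCh p σ) = (tp Z σ).map p ∧ IsCh ℓ (Z.map p) (mapCh p σ) ∧
      (mapCh p σ).card = σ.card ∧ (stb σ).map p ≤ stb (mapCh p σ) ∧
      stb σ ≤ Subgroup.normalizer (tp Z σ : Set X) ∧ (∀ a, j a ∈ stb σ ↔ a ∈ FX c (tp Z σ)) ∧
      ((∀ k : K, ((tp Z σ).map p).map (MulAut.conj k).toMonoidHom = (tp Z σ).map p →
        ∃ x ∈ Subgroup.normalizer (tp Z σ : Set X), p x = k) →
        (stb σ).map p = stb (mapCh p σ) ∧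
        Nat.card (stb σ) = Nat.card (FX c (tp Z σ)) * Nat.card (stb (mapCh p σ)))

/-- ZIN: only the empty chain of the centralizer contributes. -/
def Stmt_ZIN : Prop :=
  ∀ (A X K : Type) [Group A] [Fintype A] [Group X] [Fintype X] [Group K]
    (𝔐 : Ideal (integralClosure ℤ ℂ)) (ℓ : ℕ) [Fact ℓ.Prime], 𝔐.IsMaximal →
    (ℓ : integralClosure ℤ ℂ) ∈ 𝔐 → ∀ (j : A →* X) (c : X →* MulAut A) (p : X →* K), ClG j c p →
    ∀ (χ : X → ℂ) (θ : A → ℂ), IsIrr χ → IsIrr θ → HasDefect ℓ θ 0 → ip (resj j χ) θ ≠ 0 →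
    ∀ (Z : Subgroup X) [Z.Normal], IsPGroup ℓ Z → Z ⊓ j.range = ⊥ →
    ∀ σ : Finset (Subgroup X), IsCh ℓ Z σ → (∀ D ∈ σ, D ⊓ j.range = ⊥) → ∀ d : ℕ,
      innerS ℓ Z j.range (WW 𝔐 ℓ d (cen 𝔐 (MonoidHom.id X) χ)) σ =
        WW 𝔐 ℓ d (cen 𝔐 (MonoidHom.id X) χ) (stb σ)

open Classical in
/-- ZCN: the number of the characters of the stabilizer of an outer chain. -/
def Stmt_ZCN : Prop :=
  ∀ (A X K : Type) [Group A] [Fintype A] [Group X] [Fintype X] [Group K] [Fintype K]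
    (𝔐 : Ideal (integralClosure ℤ ℂ)) (ℓ : ℕ) [Fact ℓ.Prime], 𝔐.IsMaximal →
    (ℓ : integralClosure ℤ ℂ) ∈ 𝔐 → ∀ (j : A →* X) (c : X →* MulAut A) (p : X →* K), ClG j c p →
    Function.Surjective p → ∀ (θ : A → ℂ) (E : X → ℂ), IsIrr θ → HasDefect ℓ θ 0 → IsChr E →
    (∀ a, E (j a) = θ a) → TCH 𝔐 ℓ j c E → ∀ (Z : Subgroup X) [Z.Normal], IsPGroup ℓ Z →
    Z ⊓ j.range = ⊥ → ∀ σ : Finset (Subgroup X), IsCh ℓ Z σ → (∀ D ∈ σ, D ⊓ j.range = ⊥) →
    ∀ (η : K → ℂ) (d : ℕ), IsIrr η →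
      cnt 𝔐 ℓ d (stb σ).subtype (cen 𝔐 (MonoidHom.id X) (fun x => E x * η (p x))) =
        if GQ 𝔐 ℓ c θ (tp Z σ) then
          cntF 𝔐 ℓ d (fun g (k : stb (mapCh p σ)) =>
            fib p E (θ 1) (fun x => conjInd x g) (k : K))
            (cen 𝔐 (MonoidHom.id X) (fun x => E x * η (p x)))
        else 0

open Classical in
/-- ZF: summation over the chains with a given image. -/
def Stmt_ZF : Prop :=
  ∀ (A X K : Type) [Group A] [Fintype A] [Group X] [Fintype X] [Group K] [Fintype K] (ℓ : ℕ)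
    [Fact ℓ.Prime] (j : A →* X) (c : X →* MulAut A) (p : X →* K), ClG j c p →
    Function.Surjective p → ∀ (Z : Subgroup X) [Z.Normal], IsPGroup ℓ Z → Z ⊓ j.range = ⊥ →
    ∀ Gd : Subgroup X → Prop,
      (∀ Q a, Gd Q → Gd (Q.map (MulAut.conj (j a)).toMonoidHom)) → Gd Z → (∀ a, a ∈ FX c Z) →
      (∀ Qb : Subgroup K, IsPGroup ℓ Qb → ∃ Q : Subgroup X, IsPGroup ℓ Q ∧ Q ⊓ j.range = ⊥ ∧
        Q.map p = Qb ∧ Gd Q) →
      (∀ Q₁ Q₂ : Subgroup X, IsPGroup ℓ Q₁ → IsPGroup ℓ Q₂ → Q₁ ⊓ j.range = ⊥ →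
        Q₂ ⊓ j.range = ⊥ → Q₁.map p = Q₂.map p → Gd Q₁ → Gd Q₂ →
        ∃ a : A, Q₁.map (MulAut.conj (j a)).toMonoidHom = Q₂) →
      (∀ Q : Subgroup X, IsPGroup ℓ Q → Q ⊓ j.range = ⊥ → Gd Q → Z.map p ≤ Q.map p → Z ≤ Q) →
      ∀ Φ : Finset (Subgroup K) → ℚ,
      ∑ σ ∈ OutC ℓ Z j.range, (-1 : ℚ) ^ σ.card * (if Gd (tp Z σ) then
          (Nat.card (FX c (tp Z σ)) : ℚ) * Φ (mapCh p σ) else 0) =
        (Nat.card A : ℚ) * ∑ τ ∈ Ch ℓ (Z.map p), (-1 : ℚ) ^ τ.card * Φ τ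

/-- ZI: the chain sum of a block over an extendible character of defect zero. -/
def Stmt_ZI : Prop :=
  ∀ (A X K : Type) [Group A] [Fintype A] [Group X] [Fintype X] [Group K] [Fintype K]
    (𝔐 : Ideal (integralClosure ℤ ℂ)) (ℓ : ℕ) [Fact ℓ.Prime], 𝔐.IsMaximal →
    (ℓ : integralClosure ℤ ℂ) ∈ 𝔐 → ∀ (j : A →* X) (c : X →* MulAut A) (p : X →* K), ClG j c p →
    Function.Surjective p → ∀ (θ : A → ℂ) (E : X → ℂ), IsIrr θ → HasDefect ℓ θ 0 → IsChr E →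
    (∀ a, E (j a) = θ a) → TCH 𝔐 ℓ j c E → ∀ (Z : Subgroup X) [Z.Normal], IsPGroup ℓ Z →
    Z ⊓ j.range = ⊥ → ∀ (η : K → ℂ) (d : ℕ), IsIrr η →
      KK 𝔐 ℓ d Z (cen 𝔐 (MonoidHom.id X) (fun x => E x * η (p x))) =
        (Nat.card A : ℚ) * KK 𝔐 ℓ d (Z.map p) (cen 𝔐 (MonoidHom.id K) η)

/-! ### Clifford theory -/

/-- CCN: the Clifford correspondence, counted. -/
def Stmt_CCN : Prop :=
  ∀ (A Y K : Type) [Group A] [Fintype A] [Group Y] [Fintype Y] [Group K]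
    (j : A →* Y) (c : Y →* MulAut A) (p : Y →* K), ClG j c p → ∀ P : (Y → ℂ) → Prop,
    (Nat.card Y : ℚ) * Nat.card {χ : Y → ℂ // IsIrr χ ∧ P χ} =
      ∑ θ ∈ irrF A, (Nat.card (inert c θ) : ℚ) * Nat.card {ψ : inert c θ → ℂ // IsIrr ψ ∧
        ip (fun a => ext0 ψ (j a)) θ ≠ 0 ∧ P (indc (inert c θ) ψ)}

/-- FRI: the Clifford correspondence respects blocks. -/
def Stmt_FRI : Prop :=
  ∀ (A Y K : Type) [Group A] [Fintype A] [Group Y] [Fintype Y] [Group K]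
    (𝔐 : Ideal (integralClosure ℤ ℂ)) (ℓ : ℕ) [Fact ℓ.Prime], 𝔐.IsMaximal →
    (ℓ : integralClosure ℤ ℂ) ∈ 𝔐 → ∀ (j : A →* Y) (c : Y →* MulAut A) (p : Y →* K), ClG j c p →
    ∀ θ : A → ℂ, IsIrr θ → HasDefect ℓ θ 0 → ∀ ψ ψ' : inert c θ → ℂ, IsIrr ψ → IsIrr ψ' →
      ip (fun a => ext0 ψ (j a)) θ ≠ 0 → ip (fun a => ext0 ψ' (j a)) θ ≠ 0 →
      cen 𝔐 (MonoidHom.id Y) (indc (inert c θ) ψ) =
        cen 𝔐 (MonoidHom.id Y) (indc (inert c θ) ψ') →
      cen 𝔐 (MonoidHom.id (inert c θ)) ψ = cen 𝔐 (MonoidHom.id (inert c θ)) ψ'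

open Classical in
/-- CDA: Clifford theory in the stabilizer of an outer chain. -/
def Stmt_CDA : Prop :=
  ∀ (A X K : Type) [Group A] [Fintype A] [Group X] [Fintype X] [Group K]
    (𝔐 : Ideal (integralClosure ℤ ℂ)) (ℓ : ℕ) [Fact ℓ.Prime], 𝔐.IsMaximal →
    (ℓ : integralClosure ℤ ℂ) ∈ 𝔐 → ∀ (j : A →* X) (c : X →* MulAut A) (p : X →* K), ClG j c p →
    ∀ (χ : X → ℂ) (θ : A → ℂ), IsIrr χ → IsIrr θ → HasDefect ℓ θ 0 → ip (resj j χ) θ ≠ 0 →
    ∀ (Z : Subgroup X) [Z.Normal], IsPGroup ℓ Z → Z ⊓ j.range = ⊥ →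
    ∀ σ : Finset (Subgroup X), IsCh ℓ Z σ → (∀ D ∈ σ, D ⊓ j.range = ⊥) → ∀ d : ℕ,
      WW 𝔐 ℓ d (cen 𝔐 (MonoidHom.id X) χ) (stb σ) =
        ∑ ξ ∈ (irrF A).filter (fun ξ => ∃ x, ξ = fun a => θ (c x a)),
          Wd 𝔐 ℓ d j c Z (cen 𝔐 (MonoidHom.id X) χ) ξ σ

open Classical in
/-- CDB: summation over the conjugates of a character. -/
def Stmt_CDB : Prop :=
  ∀ (A X K : Type) [Group A] [Fintype A] [Group X] [Fintype X] [Group K]
    (𝔐 : Ideal (integralClosure ℤ ℂ)) (ℓ : ℕ) (j : A →* X) (c : X →* MulAut A) (p : X →* K),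
    ClG j c p → ∀ θ : A → ℂ, IsIrr θ → ∀ (Z : Subgroup X) [Z.Normal] (d : ℕ)
    (ω : X → (integralClosure ℤ ℂ) ⧸ 𝔐),
      (Nat.card (inert c θ) : ℚ) * ∑ σ ∈ OutC ℓ Z j.range, (-1 : ℚ) ^ σ.card *
          ∑ ξ ∈ (irrF A).filter (fun ξ => ∃ x, ξ = fun a => θ (c x a)), Wd 𝔐 ℓ d j c Z ω ξ σ =
        (Nat.card X : ℚ) * ∑ σ ∈ OutC ℓ Z j.range, (-1 : ℚ) ^ σ.card * Wd 𝔐 ℓ d j c Z ω θ σ

/-- CDC: the chains of the inertia group. -/
def Stmt_CDC : Prop :=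
  ∀ (A X K : Type) [Group A] [Fintype A] [Group X] [Fintype X] [Group K]
    (𝔐 : Ideal (integralClosure ℤ ℂ)) (ℓ : ℕ) [Fact ℓ.Prime], 𝔐.IsMaximal →
    (ℓ : integralClosure ℤ ℂ) ∈ 𝔐 → ∀ (j : A →* X) (c : X →* MulAut A) (p : X →* K), ClG j c p →
    ∀ θ : A → ℂ, IsIrr θ → HasDefect ℓ θ 0 → ∀ ψ : inert c θ → ℂ, IsIrr ψ →
      ip (fun a => ext0 ψ (j a)) θ ≠ 0 →
    ∀ (Z : Subgroup X) [Z.Normal], IsPGroup ℓ Z → Z ⊓ j.range = ⊥ → ∀ d : ℕ,
      Z ≤ inert c θ ∧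
      (∀ σ : Finset (Subgroup X), IsCh ℓ Z σ → (∀ D ∈ σ, D ⊓ j.range = ⊥) →
        Wd 𝔐 ℓ d j c Z (cen 𝔐 (MonoidHom.id X) (indc (inert c θ) ψ)) θ σ ≠ 0 →
        ∀ D ∈ σ, D ≤ inert c θ) ∧
      ∀ σ : Finset (Subgroup (inert c θ)), IsCh ℓ (Z.subgroupOf (inert c θ)) σ →
        (∀ D ∈ mapCh (inert c θ).subtype σ, D ⊓ j.range = ⊥) →
        Wd 𝔐 ℓ d j c Z (cen 𝔐 (MonoidHom.id X) (indc (inert c θ) ψ)) θ
            (mapCh (inert c θ).subtype σ) =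
          WW 𝔐 ℓ d (cen 𝔐 (MonoidHom.id (inert c θ)) ψ) (stb σ)

/-- CDR: the chain sum in terms of the chain sum of the inertia group. -/
def Stmt_CDR : Prop :=
  ∀ (A X K : Type) [Group A] [Fintype A] [Group X] [Fintype X] [Group K]
    (𝔐 : Ideal (integralClosure ℤ ℂ)) (ℓ : ℕ) [Fact ℓ.Prime], 𝔐.IsMaximal →
    (ℓ : integralClosure ℤ ℂ) ∈ 𝔐 → ∀ (j : A →* X) (c : X →* MulAut A) (p : X →* K), ClG j c p →
    ∀ θ : A → ℂ, IsIrr θ → HasDefect ℓ θ 0 → ∀ ψ : inert c θ → ℂ, IsIrr ψ →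
      ip (fun a => ext0 ψ (j a)) θ ≠ 0 →
    ∀ (Z : Subgroup X) [Z.Normal], IsPGroup ℓ Z → Z ⊓ j.range = ⊥ → ∀ d : ℕ,
      (Nat.card (inert c θ) : ℚ) *
          KK 𝔐 ℓ d Z (cen 𝔐 (MonoidHom.id X) (indc (inert c θ) ψ)) =
        (Nat.card X : ℚ) * KK 𝔐 ℓ d (Z.subgroupOf (inert c θ))
          (cen 𝔐 (MonoidHom.id (inert c θ)) ψ)

/-! ### Tensor induction -/

/-- CYC: the trace along the cycles. -/
def Stmt_CYC : Prop :=
  ∀ (O G : Type) [Fintype O] [DecidableEq O] [Group G] (S : O → Subgroup G) (θ : O → G → ℂ)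
    (m : O → ℕ) (M : O → G → ℕ → ℕ → ℂ) (k : Equiv.Perm O) (n : O → G),
    (∀ o, S (k o) = S o) → (∀ o, m (k o) = m o) → (∀ o, M (k o) = M o) →
    (∀ o, MD (S o) (θ o) (m o) (M o)) → (∀ o, n o ∈ S o) →
    TH m M k n = ∏ᶠ s : Quotient (Equiv.Perm.SameCycle.setoid k),
      θ s.out (cyp k n s.out (Function.minimalPeriod k s.out))

/-- TIG: tensor induction gives characters. -/
def Stmt_TIG : Prop :=
  ∀ (O Y : Type) [Fintype O] [DecidableEq O] [Group Y] [Finite Y] (a : Y →* Equiv.Perm O)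
    (f : O → Y → ℂ), (∀ o, IsChr (fun y : St a o => f o y)) →
    (∀ (y : Y) (o : O) (z : Y), a z o = o → f (a y o) (y * z * y⁻¹) = f o z) →
    IsChr (TI a f) ∧ ∀ y, a y = 1 → TI a f y = ∏ o, f o y

/-- SGN: the product of signs over the cycles. -/
def Stmt_SGN : Prop :=
  ∀ (O Y : Type) [Fintype O] [Group Y] (a : Y →* Equiv.Perm O) (ε : O → ℂ),
    (∀ o, ε o = 1 ∨ ε o = -1) → (∀ y o, ε (a y o) = ε o) →
    ∃ lam : Y →* ℂˣ, (∀ y, a y = 1 → lam y = 1) ∧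
      ∀ y, ∏ᶠ s : Quotient (Equiv.Perm.SameCycle.setoid (a y)), ε s.out =
        (∏ o, ε o) * ((lam y : ℂˣ) : ℂ)

/-! ### One coordinate -/

/-- SYLB: elements which commute with an outer `ℓ`-subgroup. -/
def Stmt_SYLB : Prop :=
  ∀ (G B : Type) [Group G] [Finite G] [Group B] [Finite B] (ℓ : ℕ) [Fact ℓ.Prime]
    (ι : G →* B) (κ : B →* MulAut G), Function.Injective ι →
    (∀ b g, ι (κ b g) = b * ι g * b⁻¹) → ∀ P : Subgroup B, IsPGroup ℓ P → P ⊓ ι.range = ⊥ →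
    ∀ y ∈ Subgroup.centralizer (P : Set B),
      Nat.card {g : G // κ y g = g} ≡ Nat.card {g : FX κ P // κ y g = g} [MOD ℓ] ∧
      ((∀ g : G, g ∈ FX κ P → κ y g = g → ∀ k : ℕ, g ^ ℓ ^ k = 1 → g = 1) →
        (∀ g : G, κ y g = g → ∀ k : ℕ, g ^ ℓ ^ k = 1 → g = 1) ∧
        ∀ g : G, ι g * y * (ι g)⁻¹ ∈ Subgroup.centralizer (P : Set B) →
          ∃ h ∈ FX κ P, ι g * y * (ι g)⁻¹ = ι h * y * (ι h)⁻¹)

/-- W0A: the local extension for one coordinate, central functions. -/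
def Stmt_W0A : Prop :=
  ∀ (G B C : Type) [Group G] [Fintype G] [Group B] [Fintype B] [Group C]
    (𝔐 : Ideal (integralClosure ℤ ℂ)) (ℓ : ℕ) [Fact ℓ.Prime], 𝔐.IsMaximal →
    (ℓ : integralClosure ℤ ℂ) ∈ 𝔐 →
    ∀ (ι : G →* B) (κ : B →* MulAut G) (ρ : B →* C), LocW ℓ ι κ ρ →
    ∀ P : Subgroup B, IsPGroup ℓ P → P ⊓ ι.range = ⊥ → ∀ T : Subgroup B, ι.range ≤ T → P ≤ T →
    ∀ (E : B → ℂ) (θ : G → ℂ), IsChr (fun b : T => E b) → IsIrr θ → HasDefect ℓ θ 0 →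
      (∀ g, E (ι g) = θ g) → ∀ θ' : ↥(FX κ P) → ℂ, IsIrr θ' → HasDefect ℓ θ' 0 →
      DGr 𝔐 κ P θ' θ →
      ∃ E' : B → ℂ, IsChr (fun b : ↥(T ⊓ Subgroup.centralizer (P : Set B)) => E' b) ∧
        (∀ g : FX κ P, E' (ι g) = θ' g) ∧
        (∀ z ∈ P, ∀ b ∈ T ⊓ Subgroup.centralizer (P : Set B), E' (b * z) = E' b) ∧
        ∀ M : Subgroup B, ι.range ≤ M → P ≤ M →
          M ≤ ι.range ⊔ (T ⊓ Subgroup.centralizer (P : Set B)) → ∀ F : B → ℂ,
          (∀ g ∈ M, ∀ x ∈ M, F (g * x * g⁻¹) = F x) → (∀ x, IsIntegral ℤ (F x)) →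
          red 𝔐 ((∑ x : M, F x * E x) / θ 1) =
            red 𝔐 ((∑ x : ↥(M ⊓ Subgroup.centralizer (P : Set B)), F x * E' x) / θ' 1)

/-- W0: the local extension for one coordinate. -/
def Stmt_W0 : Prop :=
  ∀ (G B C : Type) [Group G] [Fintype G] [Group B] [Fintype B] [Group C]
    (𝔐 : Ideal (integralClosure ℤ ℂ)) (ℓ : ℕ) [Fact ℓ.Prime], 𝔐.IsMaximal →
    (ℓ : integralClosure ℤ ℂ) ∈ 𝔐 →
    ∀ (ι : G →* B) (κ : B →* MulAut G) (ρ : B →* C), LocW ℓ ι κ ρ →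
    ∀ P : Subgroup B, IsPGroup ℓ P → P ⊓ ι.range = ⊥ → ∀ T : Subgroup B, ι.range ≤ T → P ≤ T →
    ∀ (E : B → ℂ) (θ : G → ℂ), IsChr (fun b : T => E b) → IsIrr θ → HasDefect ℓ θ 0 →
      (∀ g, E (ι g) = θ g) → ∀ θ' : ↥(FX κ P) → ℂ, IsIrr θ' → HasDefect ℓ θ' 0 →
      DGr 𝔐 κ P θ' θ →
      ∃ (E' : B → ℂ) (ε : ℂ), (ε = 1 ∨ ε = -1) ∧
        IsChr (fun b : ↥(T ⊓ Subgroup.centralizer (P : Set B)) => E' b) ∧
        (∀ g : FX κ P, E' (ι g) = θ' g) ∧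
        (∀ z ∈ P, ∀ b ∈ T ⊓ Subgroup.centralizer (P : Set B), E' (b * z) = E' b) ∧
        ∀ b ∈ T ⊓ Subgroup.centralizer (P : Set B), red 𝔐 (E b) = red 𝔐 ε * red 𝔐 (E' b)

/-! ### Powers -/

/-- WI: invariant products. -/
def Stmt_WI : Prop :=
  ∀ (Ω G B : Type) [Fintype Ω] [DecidableEq Ω] [Group G] [Fintype G] [Group B]
    (κ : B →* MulAut G) (y : Gam (Equiv.Perm Ω) Ω B) (θ : Ω → G → ℂ), (∀ w, IsIrr (θ w)) →
    ((∀ n : Ω → G, ∏ w, θ w (wB κ Ω y n w) = ∏ w, θ w (n w)) ↔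
      ∀ w g, θ w (κ (y.left w) g) = θ (y.right⁻¹ • w) g)

/-- WA: an equivariant family of extensions. -/
def Stmt_WA : Prop :=
  ∀ (Ω G B C X K : Type) [Fintype Ω] [DecidableEq Ω] [Group G] [Fintype G] [Group B]
    [Fintype B] [Group C] [Group X] [Fintype X] [Group K] (ℓ : ℕ)
    (ι : G →* B) (κ : B →* MulAut G) (ρ : B →* C), LocW ℓ ι κ ρ →
    ∀ (e : (Ω → G) →* X) (p : X →* K) (φ : X →* Gam (Equiv.Perm Ω) Ω B), ExtS ι κ e p φ →
    ∀ θ : Ω → G → ℂ, (∀ w, IsIrr (θ w)) →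
      (∀ x w g, θ w (κ ((φ x).left w) g) = θ ((φ x).right⁻¹ • w) g) →
      ∃ E : Ω → B → ℂ, (∀ w, IsChr (fun b : Pw φ ⊤ w => E w b)) ∧ (∀ w g, E w (ι g) = θ w g) ∧
        ∀ (x : X) (w : Ω), ∀ b ∈ Pw φ ⊤ w, E ((φ x).right • w)
          ((φ x).left ((φ x).right • w) * b * ((φ x).left ((φ x).right • w))⁻¹) = E w b

/-- W1: the correspondence for products. -/
def Stmt_W1 : Prop :=
  ∀ (Ω G B C X K : Type) [Fintype Ω] [DecidableEq Ω] [Group G] [Fintype G] [Group B]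
    [Fintype B] [Group C] [Group X] [Fintype X] [Group K]
    (𝔐 : Ideal (integralClosure ℤ ℂ)) (ℓ : ℕ) [Fact ℓ.Prime], 𝔐.IsMaximal →
    (ℓ : integralClosure ℤ ℂ) ∈ 𝔐 →
    ∀ (ι : G →* B) (κ : B →* MulAut G) (ρ : B →* C), LocW ℓ ι κ ρ →
    ∀ (e : (Ω → G) →* X) (p : X →* K) (φ : X →* Gam (Equiv.Perm Ω) Ω B), ExtS ι κ e p φ →
    ∀ σ : ℂ ≃+* ℂ, IsFrob 𝔐 ℓ (Nat.card B) σ →
    ∀ θ : Ω → G → ℂ, (∀ w, IsIrr (θ w)) → (∀ w, HasDefect ℓ (θ w) 0) →
    ∀ Q : Subgroup X, IsPGroup ℓ Q → Q ⊓ e.range = ⊥ →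
    ∀ θ' : ↥(FX ((wB κ Ω).comp φ) Q) → ℂ, IsIrr θ' → HasDefect ℓ θ' 0 →
      DGr 𝔐 ((wB κ Ω).comp φ) Q θ' (fun n => ∏ w, θ w (n w)) →
      (∀ w, IsPGroup ℓ (Pw φ Q w) ∧ Pw φ Q w ⊓ ι.range = ⊥) ∧
      ∃ ζ : ∀ w, ↥(FX κ (Pw φ Q w)) → ℂ,
        (∀ w, IsIrr (ζ w) ∧ HasDefect ℓ (ζ w) 0 ∧ DGr 𝔐 κ (Pw φ Q w) (ζ w) (θ w)) ∧
        ∀ (O : Type) [Fintype O] (π : Ω → O) (s : O → Ω) (a : O → ℕ), (∀ o, π (s o) = o) →
          (∀ w w', π w = π w' ↔ ∃ q ∈ Q, (φ q).right • w = w') →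
          (∀ o, Nat.card {w : Ω // π w = o} = ℓ ^ a o) →
          ∀ n : ↥(FX ((wB κ Ω).comp φ) Q),
            θ' n = ∏ o, (fun z => σ z)^[a o] (ext0 (ζ (s o)) ((n : Ω → G) (s o)))

/-- WB: an equivariant family of local extensions. -/
def Stmt_WB : Prop :=
  ∀ (Ω G B C X K : Type) [Fintype Ω] [DecidableEq Ω] [Group G] [Fintype G] [Group B]
    [Fintype B] [Group C] [Group X] [Fintype X] [Group K]
    (𝔐 : Ideal (integralClosure ℤ ℂ)) (ℓ : ℕ) [Fact ℓ.Prime], 𝔐.IsMaximal →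
    (ℓ : integralClosure ℤ ℂ) ∈ 𝔐 →
    ∀ (ι : G →* B) (κ : B →* MulAut G) (ρ : B →* C), LocW ℓ ι κ ρ →
    ∀ (e : (Ω → G) →* X) (p : X →* K) (φ : X →* Gam (Equiv.Perm Ω) Ω B), ExtS ι κ e p φ →
    ∀ θ : Ω → G → ℂ, (∀ w, IsIrr (θ w)) → (∀ w, HasDefect ℓ (θ w) 0) →
      (∀ x w g, θ w (κ ((φ x).left w) g) = θ ((φ x).right⁻¹ • w) g) →
    ∀ E : Ω → B → ℂ, (∀ w, IsChr (fun b : Pw φ ⊤ w => E w b)) → (∀ w g, E w (ι g) = θ w g) →
      (∀ (x : X) (w : Ω), ∀ b ∈ Pw φ ⊤ w, E ((φ x).right • w)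
        ((φ x).left ((φ x).right • w) * b * ((φ x).left ((φ x).right • w))⁻¹) = E w b) →
    ∀ Q : Subgroup X, IsPGroup ℓ Q →
      (∀ w, IsPGroup ℓ (Pw φ Q w) ∧ Pw φ Q w ⊓ ι.range = ⊥) →
    ∀ ζ : ∀ w, ↥(FX κ (Pw φ Q w)) → ℂ,
      (∀ w, IsIrr (ζ w) ∧ HasDefect ℓ (ζ w) 0 ∧ DGr 𝔐 κ (Pw φ Q w) (ζ w) (θ w)) →
      ∃ (E' : Ω → B → ℂ) (ε : Ω → ℂ), (∀ w, ε w = 1 ∨ ε w = -1) ∧
        (∀ w, IsChr (fun b : Dw φ Q w => E' w b)) ∧
        (∀ w (g : FX κ (Pw φ Q w)), E' w (ι g) = ζ w g) ∧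
        (∀ w, ∀ z ∈ Pw φ Q w, ∀ b ∈ Dw φ Q w, E' w (b * z) = E' w b) ∧
        (∀ w, ∀ b ∈ Dw φ Q w, red 𝔐 (E w b) = red 𝔐 (ε w) * red 𝔐 (E' w b)) ∧
        ∀ x ∈ Subgroup.normalizer (Q : Set X), ∀ w, ε ((φ x).right • w) = ε w ∧
          ∀ b ∈ Dw φ Q w,
            (φ x).left ((φ x).right • w) * b * ((φ x).left ((φ x).right • w))⁻¹ ∈
              Dw φ Q ((φ x).right • w) ∧
            E' ((φ x).right • w)
              ((φ x).left ((φ x).right • w) * b * ((φ x).left ((φ x).right • w))⁻¹) = E' w b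

/-- WC: the family of characters of the stabilizers of the orbits. -/
def Stmt_WC : Prop :=
  ∀ (Ω G B C X K O : Type) [Fintype Ω] [DecidableEq Ω] [Group G] [Fintype G] [Group B]
    [Fintype B] [Group C] [Group X] [Fintype X] [Group K] [Fintype O] [DecidableEq O] (ℓ : ℕ)
    [Fact ℓ.Prime] (ι : G →* B) (κ : B →* MulAut G) (ρ : B →* C), LocW ℓ ι κ ρ →
    ∀ (e : (Ω → G) →* X) (p : X →* K) (φ : X →* Gam (Equiv.Perm Ω) Ω B), ExtS ι κ e p φ →
    ∀ Q : Subgroup X, IsPGroup ℓ Q →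
      (∀ w, IsPGroup ℓ (Pw φ Q w) ∧ Pw φ Q w ⊓ ι.range = ⊥) →
    ∀ (E' : Ω → B → ℂ), (∀ w, IsChr (fun b : Dw φ Q w => E' w b)) →
      (∀ w, ∀ z ∈ Pw φ Q w, ∀ b ∈ Dw φ Q w, E' w (b * z) = E' w b) →
      (∀ x ∈ Subgroup.normalizer (Q : Set X), ∀ w, ∀ b ∈ Dw φ Q w,
        (φ x).left ((φ x).right • w) * b * ((φ x).left ((φ x).right • w))⁻¹ ∈
          Dw φ Q ((φ x).right • w) ∧
        E' ((φ x).right • w)
          ((φ x).left ((φ x).right • w) * b * ((φ x).left ((φ x).right • w))⁻¹) = E' w b) →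
    ∀ (σ : ℂ ≃+* ℂ) (π : Ω → O) (s : O → Ω) (a : O → ℕ), (∀ o, π (s o) = o) →
      (∀ w w', π w = π w' ↔ ∃ q ∈ Q, (φ q).right • w = w') →
      (∀ o, Nat.card {w : Ω // π w = o} = ℓ ^ a o) →
      ∃ (α : ↥(Subgroup.normalizer (Q : Set X)) →* Equiv.Perm O)
        (f : O → ↥(Subgroup.normalizer (Q : Set X)) → ℂ),
        (∀ y w, α y (π w) = π ((φ (y : X)).right • w)) ∧
        (∀ o (y : ↥(Subgroup.normalizer (Q : Set X))), ∀ q ∈ Q,
          (φ (q * (y : X))).right • s o = s o →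
          (φ (q * (y : X))).left (s o) ∈ Dw φ Q (s o) ∧
          f o y = (fun z => σ z)^[a o] (E' (s o) ((φ (q * (y : X))).left (s o)))) ∧
        (∀ o, IsChr (fun y : St α o => f o y)) ∧
        ∀ y o z, α z o = o → f (α y o) (y * z * y⁻¹) = f o z

/-- WD: the congruence at elements of order prime to `ℓ` which commute with `Q`. -/
def Stmt_WD : Prop :=
  ∀ (Ω G B C X K O : Type) [Fintype Ω] [DecidableEq Ω] [Group G] [Fintype G] [Group B]
    [Fintype B] [Group C] [Group X] [Fintype X] [Group K] [Fintype O] [DecidableEq O]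
    (𝔐 : Ideal (integralClosure ℤ ℂ)) (ℓ : ℕ) [Fact ℓ.Prime], 𝔐.IsMaximal →
    (ℓ : integralClosure ℤ ℂ) ∈ 𝔐 →
    ∀ (ι : G →* B) (κ : B →* MulAut G) (ρ : B →* C), LocW ℓ ι κ ρ →
    ∀ (e : (Ω → G) →* X) (p : X →* K) (φ : X →* Gam (Equiv.Perm Ω) Ω B), ExtS ι κ e p φ →
    ∀ E : Ω → B → ℂ, (∀ w, IsChr (fun b : Pw φ ⊤ w => E w b)) →
      (∀ (x : X) (w : Ω), ∀ b ∈ Pw φ ⊤ w, E ((φ x).right • w)
        ((φ x).left ((φ x).right • w) * b * ((φ x).left ((φ x).right • w))⁻¹) = E w b) →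
    ∀ Q : Subgroup X, IsPGroup ℓ Q →
    ∀ (E' : Ω → B → ℂ) (ε : Ω → ℂ), (∀ w, ε w = 1 ∨ ε w = -1) →
      (∀ w, IsChr (fun b : Dw φ Q w => E' w b)) →
      (∀ w, ∀ b ∈ Dw φ Q w, red 𝔐 (E w b) = red 𝔐 (ε w) * red 𝔐 (E' w b)) →
      (∀ x ∈ Subgroup.normalizer (Q : Set X), ∀ w, ε ((φ x).right • w) = ε w) →
    ∀ σ : ℂ ≃+* ℂ, IsFrob 𝔐 ℓ (Nat.card B) σ →
    ∀ (π : Ω → O) (s : O → Ω) (a : O → ℕ), (∀ o, π (s o) = o) →
      (∀ w w', π w = π w' ↔ ∃ q ∈ Q, (φ q).right • w = w') →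
      (∀ o, Nat.card {w : Ω // π w = o} = ℓ ^ a o) →
    ∀ (α : ↥(Subgroup.normalizer (Q : Set X)) →* Equiv.Perm O)
      (f : O → ↥(Subgroup.normalizer (Q : Set X)) → ℂ),
      (∀ y w, α y (π w) = π ((φ (y : X)).right • w)) →
      (∀ o (y : ↥(Subgroup.normalizer (Q : Set X))), ∀ q ∈ Q,
        (φ (q * (y : X))).right • s o = s o →
        f o y = (fun z => σ z)^[a o] (E' (s o) ((φ (q * (y : X))).left (s o)))) →
    ∀ y : ↥(Subgroup.normalizer (Q : Set X)), (∀ q ∈ Q, q * (y : X) = y * q) →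
      ¬ ℓ ∣ orderOf y →
      red 𝔐 (TI (SemidirectProduct.rightHom.comp φ) (fun w x => E w ((φ x).left w)) (y : X)) =
        red 𝔐 (∏ᶠ t : Quotient (Equiv.Perm.SameCycle.setoid (α y)), ε (s t.out)) *
          red 𝔐 (TI α f y)

/-- WF: the extension of an invariant product of characters of defect zero. -/
def Stmt_WF : Prop :=
  ∀ (Ω G B C X K : Type) [Fintype Ω] [DecidableEq Ω] [Group G] [Fintype G] [Group B]
    [Fintype B] [Group C] [Group X] [Fintype X] [Group K] (ℓ : ℕ) [Fact ℓ.Prime]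
    (ι : G →* B) (κ : B →* MulAut G) (ρ : B →* C), LocW ℓ ι κ ρ →
    ∀ (e : (Ω → G) →* X) (p : X →* K) (φ : X →* Gam (Equiv.Perm Ω) Ω B), ExtS ι κ e p φ →
    ∀ θ : Ω → G → ℂ, (∀ w, IsIrr (θ w)) → (∀ w, HasDefect ℓ (θ w) 0) →
      (∀ x n, ∏ w, θ w (wB κ Ω (φ x) n w) = ∏ w, θ w (n w)) →
      ∃ E : X → ℂ, IsChr E ∧ (∀ n, E (e n) = ∏ w, θ w (n w)) ∧
        ∀ 𝔐 : Ideal (integralClosure ℤ ℂ), 𝔐.IsMaximal → (ℓ : integralClosure ℤ ℂ) ∈ 𝔐 →
          TCH 𝔐 ℓ e ((wB κ Ω).comp φ) E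

end Pool.Agent.DPC


end

section

/-!
# A character of defect zero which corresponds to a character of the fixed points is invariant
-/

namespace Pool.Agent.DPC

open Pool.Agent.DP Pool.Agent.Lib_helper13 Representation
open Pool.Agent.Lib_helper13.Dade (pCore DadeHolds dadeSum)

namespace DGV

variable {G B : Type} [Group G] [Group B] (κ : B →* MulAut G) (P : Subgroup B) (θ : G → ℂ)

/-- The stabilizer of `θ` in `P`. -/
def S : Subgroup P where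
  carrier := {b | ∀ x, θ (κ (b : B) x) = θ x}
  one_mem' := by
    intro x
    rw [OneMemClass.coe_one, map_one, MulAut.one_apply]
  mul_mem' := by
    intro a b ha hb x
    rw [Subgroup.coe_mul, map_mul, MulAut.mul_apply, ha, hb]
  inv_mem' := by
    intro a ha x
    have h := ha (κ ((a⁻¹ : P) : B) x)
    rw [← h, ← MulAut.mul_apply, ← map_mul, ← Subgroup.coe_mul, mul_inv_cancel,
      OneMemClass.coe_one, map_one, MulAut.one_apply]

theorem mem_S {b : P} : b ∈ S κ P θ ↔ ∀ x, θ (κ (b : B) x) = θ x := Iff.rfl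

/-- The conjugates of `θ`. -/
def th (c : P ⧸ S κ P θ) : G → ℂ :=
  Quotient.liftOn' c (fun b => fun x => θ (κ ((b⁻¹ : P) : B) x)) (by
    intro a b hab
    rw [QuotientGroup.leftRel_apply] at hab
    funext x
    have h := hab (κ ((b⁻¹ : P) : B) x)
    rw [← h, ← MulAut.mul_apply, ← map_mul, ← Subgroup.coe_mul]
    congr 4
    group)

theorem th_mk (b : P) (x : G) :
    th κ P θ (QuotientGroup.mk b) x = θ (κ ((b⁻¹ : P) : B) x) := rfl

theorem th_one : th κ P θ (QuotientGroup.mk 1) = θ := by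
  funext x
  rw [th_mk, inv_one, OneMemClass.coe_one, map_one, MulAut.one_apply]

theorem th_inj {b : P} (h : th κ P θ (QuotientGroup.mk b) = θ) :
    (QuotientGroup.mk b : P ⧸ S κ P θ) = QuotientGroup.mk 1 := by
  rw [QuotientGroup.eq, mul_one, mem_S]
  intro x
  have := congrFun h x
  rwa [th_mk] at this

theorem th_smul (b : P) (c : P ⧸ S κ P θ) (x : G) :
    th κ P θ c (κ (b : B) x) = th κ P θ (b⁻¹ • c) x := by
  obtain ⟨a, rfl⟩ := QuotientGroup.mk_surjective c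
  have e : b⁻¹ • (QuotientGroup.mk a : P ⧸ S κ P θ) = QuotientGroup.mk (b⁻¹ * a) := rfl
  rw [e, th_mk, th_mk, ← MulAut.mul_apply, ← map_mul, ← Subgroup.coe_mul]
  congr 4
  group

variable [Fintype G]

theorem isIrr_th (hθ : IsIrr θ) (c : P ⧸ S κ P θ) : IsIrr (th κ P θ c) := by
  obtain ⟨a, rfl⟩ := QuotientGroup.mk_surjective c
  exact hθ.comp_mulEquiv (κ ((a⁻¹ : P) : B) : G ≃* G)

omit [Fintype G] in
theorem th_fix (c : P ⧸ S κ P θ) (x : G) (hx : x ∈ FX κ P) : th κ P θ c x = θ x := by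
  obtain ⟨a, rfl⟩ := QuotientGroup.mk_surjective c
  rw [th_mk, hx _ (a⁻¹ : P).2]

end DGV

open _root_.Pool.Agent.DPC.DGV in
/-- DGV: the corresponding character is invariant. -/
theorem DGV_thm : Stmt_DGV := by
  classical
  intro G B _ _ _ _ 𝔐 ℓ hp h𝔐 hℓ κ P hP θ' θ hθ' hθ hd hDGr b hb x
  by_contra hne
  have hprime : 𝔐.IsPrime := h𝔐.isPrime
  have hS : S κ P θ ≠ ⊤ := by
    intro h
    apply hne
    have h1 : (⟨b, hb⟩ : P) ∈ S κ P θ := by rw [h]; trivial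
    exact h1 x
  -- the index is divisible by `ℓ`
  have hidx : ℓ ∣ Fintype.card (P ⧸ S κ P θ) := by
    obtain ⟨n, hn⟩ := hP.index (S κ P θ)
    rw [Subgroup.index, Nat.card_eq_fintype_card] at hn
    rw [hn]
    apply dvd_pow_self
    rintro rfl
    apply hS
    rw [← Subgroup.index_eq_one, Subgroup.index, Nat.card_eq_fintype_card, hn, pow_zero]
  set F : G → ℂ := fun x => ∑ c, th κ P θ c x⁻¹ with hF
  have hc1 : ∀ g x, F (g * x * g⁻¹) = F x := by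
    intro g x
    refine Finset.sum_congr rfl fun c _ => ?_
    have : (g * x * g⁻¹)⁻¹ = g * x⁻¹ * g⁻¹ := by group
    rw [this, (isIrr_th κ P θ hθ c).conj_eq]
  have hc2 : ∀ b ∈ P, ∀ x, F (κ b x) = F x := by
    intro b hb x
    show ∑ c, th κ P θ c (κ b x)⁻¹ = ∑ c, th κ P θ c x⁻¹
    have h1 : ∀ c, th κ P θ c (κ b x)⁻¹ = th κ P θ ((⟨b, hb⟩ : P)⁻¹ • c) x⁻¹ := by
      intro c
      rw [← th_smul, ← map_inv]
    simp only [h1]
    exact Fintype.sum_equiv (MulAction.toPerm ((⟨b, hb⟩ : P)⁻¹)) _ _ fun c => rfl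
  have hc3 : ∀ x, IsIntegral ℤ (F x) := fun x =>
    isIntegral_sum _ _ fun c _ => isIntegral_char (isIrr_th κ P θ hθ c) _
  have key := hDGr F hc1 hc2 hc3
  -- the value on `θ`
  have e1 : wt θ F = (Nat.card G : ℂ) / θ 1 := by
    rw [hF, wt_sum, Finset.sum_eq_single (QuotientGroup.mk 1)]
    · rw [th_one, wt, ← hθ.sum_self]
      congr 1
      exact Finset.sum_congr rfl fun y _ => mul_comm _ _
    · intro c _ hc
      obtain ⟨a, rfl⟩ := QuotientGroup.mk_surjective c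
      have h1 : θ ≠ th κ P θ (QuotientGroup.mk a) := by
        intro h
        exact hc (th_inj κ P θ h.symm)
      have h2 := hθ.sum_ne (isIrr_th κ P θ hθ (QuotientGroup.mk a)) h1
      rw [wt]
      have h3 : ∑ y, th κ P θ (QuotientGroup.mk a) y⁻¹ * θ y = 0 := by
        rw [← h2]
        exact Finset.sum_congr rfl fun y _ => mul_comm _ _
      rw [h3, zero_div]
    · intro h
      exact absurd (Finset.mem_univ _) h
  -- the value on `θ'`
  have e2 : red 𝔐 (wt θ' (fun x : FX κ P => F x)) = 0 := by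
    have h1 : (fun x : FX κ P => F x) =
        fun x : FX κ P => (Fintype.card (P ⧸ S κ P θ) : ℂ) * θ ((x : G)⁻¹) := by
      funext x
      show ∑ c, th κ P θ c (x : G)⁻¹ = _
      have h2 : ∀ c, th κ P θ c (x : G)⁻¹ = θ ((x : G)⁻¹) := fun c =>
        th_fix κ P θ c _ (inv_mem x.2)
      simp only [h2]
      rw [Finset.sum_const, Finset.card_univ, nsmul_eq_mul]
    have h3 : IsIntegral ℤ (wt θ' (fun x : FX κ P => θ ((x : G)⁻¹))) := by
      refine isIntegral_wt hθ' _ (fun g x => ?_) (fun x => isIntegral_char hθ _)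
      have : ((g * x * g⁻¹ : FX κ P) : G)⁻¹ = (g : G) * (x : G)⁻¹ * (g : G)⁻¹ := by
        push_cast
        group
      rw [this, hθ.conj_eq]
    rw [h1, wt_smul, red_natCast_mul 𝔐 _ h3]
    obtain ⟨m, hm⟩ := hidx
    rw [hm, mul_comm, mul_smul, nsmul_quot_eq_zero 𝔐 hℓ, smul_zero]
  rw [e2, e1] at key
  exact red_codeg_ne_zero 𝔐 hℓ hθ hd key.symm

end Pool.Agent.DPC


end

section

/-!
# The correspondence of characters of defect zero is one-to-one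
-/

namespace Pool.Agent.DPC

open Pool.Agent.DP Pool.Agent.Lib_helper13 Representation
open Pool.Agent.Lib_helper13.Dade (pCore DadeHolds dadeSum)

namespace DGJ

theorem wt_self {Y : Type*} [Group Y] [Fintype Y] {χ : Y → ℂ} (h : IsIrr χ) :
    wt χ (fun x => χ x⁻¹) = Nat.card Y / χ 1 := by
  rw [wt]
  congr 1
  rw [← h.sum_self]
  exact Finset.sum_congr rfl fun x _ => mul_comm _ _

theorem wt_ne {Y : Type*} [Group Y] [Fintype Y] {χ ψ : Y → ℂ} (h : IsIrr χ) (h' : IsIrr ψ)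
    (hne : ψ ≠ χ) : wt ψ (fun x => χ x⁻¹) = 0 := by
  rw [wt]
  have h1 : ∑ x, χ x⁻¹ * ψ x = ∑ x, ψ x * χ x⁻¹ :=
    Finset.sum_congr rfl fun x _ => mul_comm _ _
  rw [h1, h'.sum_ne h hne, zero_div]

theorem inv_conj {Y : Type*} [Group Y] [Fintype Y] {χ : Y → ℂ} (h : IsIrr χ) (g x : Y) :
    χ (g * x * g⁻¹)⁻¹ = χ x⁻¹ := by
  have e : (g * x * g⁻¹)⁻¹ = g * x⁻¹ * g⁻¹ := by group
  rw [e, h.conj_eq]

end DGJ

open _root_.Pool.Agent.DPC.DGJ in
theorem DGJ_thm (h1 : Stmt_DGV) (h2 : Stmt_DGT) : Stmt_DGJ := by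
  intro G B _ _ _ _ 𝔐 ℓ _ hmax hℓ κ P hP
  haveI : 𝔐.IsPrime := hmax.isPrime
  classical
  refine ⟨?_, ?_⟩
  · intro θ' θ₁ θ₂ hθ' hθ₁ hd₁ hθ₂ hg₁ hg₂
    by_contra hne
    have hinv : ∀ b ∈ P, ∀ x, θ₁ (κ b x) = θ₁ x :=
      h1 G B 𝔐 ℓ hmax hℓ κ P hP θ' θ₁ hθ' hθ₁ hd₁ hg₁
    have hF1 : ∀ g x : G, (fun x => θ₁ x⁻¹) (g * x * g⁻¹) = (fun x => θ₁ x⁻¹) x :=
      fun g x => inv_conj hθ₁ g x
    have hF2 : ∀ b ∈ P, ∀ x : G, (fun x => θ₁ x⁻¹) (κ b x) = (fun x => θ₁ x⁻¹) x := by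
      intro b hb x
      show θ₁ (κ b x)⁻¹ = θ₁ x⁻¹
      rw [← map_inv, hinv b hb]
    have hF3 : ∀ x : G, IsIntegral ℤ ((fun x => θ₁ x⁻¹) x) := fun x => isIntegral_char hθ₁ _
    have e1 := hg₁ (fun x => θ₁ x⁻¹) hF1 hF2 hF3
    have e2 := hg₂ (fun x => θ₁ x⁻¹) hF1 hF2 hF3
    rw [wt_self hθ₁] at e1
    rw [wt_ne hθ₁ hθ₂ (fun h => hne h.symm), red_zero] at e2
    rw [e2] at e1
    exact red_codeg_ne_zero 𝔐 hℓ hθ₁ hd₁ e1.symm
  · intro θ₁ θ₂ θ hθ₁ hd₁ hθ₂ hd₂ hθ hd hg₁ hg₂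
    by_contra hne
    obtain ⟨ε₁, hε₁, ht₁, -⟩ := h2 G B 𝔐 ℓ hmax hℓ κ P hP θ₁ θ hθ₁ hd₁ hθ hd hg₁
    obtain ⟨ε₂, hε₂, ht₂, -⟩ := h2 G B 𝔐 ℓ hmax hℓ κ P hP θ₂ θ hθ₂ hd₂ hθ hd hg₂
    have hi : ∀ ε : ℂ, ε = 1 ∨ ε = -1 → IsIntegral ℤ ε ∧ red 𝔐 ε * red 𝔐 ε = 1 := by
      intro ε hε
      have h3 : IsIntegral ℤ ε := by
        rcases hε with rfl | rfl
        · exact isIntegral_one
        · exact isIntegral_one.neg
      refine ⟨h3, ?_⟩
      rw [← red_mul 𝔐 h3 h3]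
      have h4 : ε * ε = 1 := by
        rcases hε with rfl | rfl <;> norm_num
      rw [h4, red_one]
    obtain ⟨hi₁, hs₁⟩ := hi ε₁ hε₁
    obtain ⟨hi₂, hs₂⟩ := hi ε₂ hε₂
    have hpt : ∀ y : FX κ P, red 𝔐 (θ₁ y) = red 𝔐 (ε₁ * ε₂ * θ₂ y) := by
      intro y
      have h5 : red 𝔐 ε₁ * red 𝔐 (θ₁ y) = red 𝔐 ε₂ * red 𝔐 (θ₂ y) := by
        rw [← ht₁ y, ← ht₂ y]
      rw [red_mul 𝔐 (hi₁.mul hi₂) (isIntegral_char hθ₂ _), red_mul 𝔐 hi₁ hi₂, mul_assoc, ← h5,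
        ← mul_assoc, hs₁, one_mul]
    have key := red_wt_eq 𝔐 hℓ hθ₁ (⊥ : Subgroup (FX κ P)) IsPGroup.of_bot (fun x => θ₁ x⁻¹)
      (fun x => ε₁ * ε₂ * θ₂ x⁻¹) (fun g x => inv_conj hθ₁ g x)
      (fun y => isIntegral_char hθ₁ _)
      (fun g x => by
        show ε₁ * ε₂ * θ₂ (g * x * g⁻¹)⁻¹ = ε₁ * ε₂ * θ₂ x⁻¹
        rw [inv_conj hθ₂])
      (fun y => (hi₁.mul hi₂).mul (isIntegral_char hθ₂ _)) (fun y _ => hpt y⁻¹)
    rw [wt_self hθ₁, wt_smul, wt_ne hθ₂ hθ₁ hne, mul_zero, red_zero] at key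
    exact red_codeg_ne_zero 𝔐 hℓ hθ₁ hd₁ key

end Pool.Agent.DPC


end

section

/-!
# ZF: summation over the chains with a given image
-/

namespace Pool.Agent.DPC

open Pool.Agent.DP Pool.Agent.Lib_helper13 Representation
open Pool.Agent.Lib_helper13.Dade (pCore DadeHolds dadeSum)

namespace ZF

open Pool.Agent.DP.QC (cj mem_conj_iff conj_injective map_conj_mul map_conj_one map_map_conj mem_cj
  cj_cj cj_one mapCh_cj isCh_cj cj_stb)

variable {A X K : Type} [Group A] [Group X] [Group K] {j : A →* X} {c : X →* MulAut A}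
  {p : X →* K}

theorem inj_on (hC : ClG j c p) {Q : Subgroup X} (hQ : Q ⊓ j.range = ⊥) {x y : X} (hx : x ∈ Q)
    (hy : y ∈ Q) (h : p x = p y) : x = y := by
  have h1 : x * y⁻¹ ∈ Q ⊓ j.range := by
    refine Subgroup.mem_inf.mpr ⟨mul_mem hx (inv_mem hy), (hC.ker _).mp ?_⟩
    rw [map_mul, map_inv, h, mul_inv_cancel]
  rw [hQ, Subgroup.mem_bot] at h1
  exact mul_inv_eq_one.mp h1

theorem le_of_map (hC : ClG j c p) {Q E F : Subgroup X} (hQ : Q ⊓ j.range = ⊥) (hE : E ≤ Q)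
    (hF : F ≤ Q) (h : E.map p ≤ F.map p) : E ≤ F := by
  intro x hx
  obtain ⟨y, hy, hxy⟩ := h ⟨x, hx, rfl⟩
  rw [← inj_on hC hQ (hF hy) (hE hx) hxy]
  exact hy

theorem eq_of_map (hC : ClG j c p) {Q E F : Subgroup X} (hQ : Q ⊓ j.range = ⊥) (hE : E ≤ Q)
    (hF : F ≤ Q) (h : E.map p = F.map p) : E = F :=
  le_antisymm (le_of_map hC hQ hE hF h.le) (le_of_map hC hQ hF hE h.ge)

theorem map_ja (hC : ClG j c p) (a : A) : p (j a) = 1 := (hC.ker _).mpr ⟨a, rfl⟩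

theorem map_conj_ja (hC : ClG j c p) (a : A) (E : Subgroup X) :
    (E.map (MulAut.conj (j a)).toMonoidHom).map p = E.map p := by
  rw [map_map_conj, map_ja hC, map_conj_one]

theorem mapCh_cj_ja (hC : ClG j c p) (a : A) (σ : Finset (Subgroup X)) :
    mapCh p (cj (j a) σ) = mapCh p σ := by
  rw [mapCh_cj, map_ja hC, cj_one]

theorem range_conj (a : A) (E : Subgroup X) (hE : E ⊓ j.range = ⊥) :
    E.map (MulAut.conj (j a)).toMonoidHom ⊓ j.range = ⊥ := by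
  rw [eq_bot_iff]
  intro x hx
  obtain ⟨hx1, ⟨b, rfl⟩⟩ := Subgroup.mem_inf.mp hx
  rw [mem_conj_iff] at hx1
  have h1 : (j a)⁻¹ * j b * j a ∈ E ⊓ j.range := by
    refine Subgroup.mem_inf.mpr ⟨hx1, ⟨a⁻¹ * b * a, ?_⟩⟩
    rw [map_mul, map_mul, map_inv]
  rw [hE, Subgroup.mem_bot] at h1
  rw [Subgroup.mem_bot]
  have h2 : j b = j a * ((j a)⁻¹ * j b * j a) * (j a)⁻¹ := by group
  rw [h2, h1]
  group

section Tp

variable {ℓ : ℕ} {Z : Subgroup X}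

theorem tp_empty : tp Z ∅ = Z := by
  unfold tp
  rw [Finset.sup_empty, bot_sup_eq]

theorem tp_eq {σ : Finset (Subgroup X)} (h : IsCh ℓ Z σ) {T : Subgroup X} (hT : T ∈ σ)
    (hm : ∀ D ∈ σ, D ≤ T) : tp Z σ = T :=
  le_antisymm (sup_le (Finset.sup_le hm) (h.1 T hT).2.le)
    (le_sup_of_le_left (Finset.le_sup (f := id) hT))

theorem le_tp {σ : Finset (Subgroup X)} {D : Subgroup X} (hD : D ∈ σ) : D ≤ tp Z σ :=
  le_sup_of_le_left (Finset.le_sup (f := id) hD)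

/-- An outer chain. -/
structure Out (ℓ : ℕ) (j : A →* X) (Z : Subgroup X) (σ : Finset (Subgroup X)) : Prop where
  ch : IsCh ℓ Z σ
  out : ∀ D ∈ σ, D ⊓ j.range = ⊥

theorem Out.tp_out {σ : Finset (Subgroup X)} (h : Out ℓ j Z σ) (hZ : Z ⊓ j.range = ⊥) :
    tp Z σ ⊓ j.range = ⊥ := by
  rcases σ.eq_empty_or_nonempty with rfl | hne
  · rw [tp_empty]
    exact hZ
  · obtain ⟨T, hT, hm⟩ := h.ch.exists_top hne
    rw [tp_eq h.ch hT hm]
    exact h.out T hT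

theorem Out.tp_p {σ : Finset (Subgroup X)} (h : Out ℓ j Z σ) (hZ : IsPGroup ℓ Z) :
    IsPGroup ℓ (tp Z σ) := by
  rcases σ.eq_empty_or_nonempty with rfl | hne
  · rw [tp_empty]
    exact hZ
  · obtain ⟨T, hT, hm⟩ := h.ch.exists_top hne
    rw [tp_eq h.ch hT hm]
    exact (h.ch.1 T hT).1

theorem Out.injOn (hC : ClG j c p) {σ : Finset (Subgroup X)} (h : Out ℓ j Z σ)
    (hZ : Z ⊓ j.range = ⊥) {E F : Subgroup X} (hE : E ∈ σ) (hF : F ∈ σ)
    (hEF : E.map p = F.map p) : E = F :=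
  eq_of_map hC (h.tp_out hZ) (le_tp hE) (le_tp hF) hEF

theorem Out.card (hC : ClG j c p) {σ : Finset (Subgroup X)} (h : Out ℓ j Z σ)
    (hZ : Z ⊓ j.range = ⊥) : (mapCh p σ).card = σ.card := by
  classical
  unfold mapCh
  apply Finset.card_image_of_injOn
  intro E hE F hF hEF
  exact h.injOn hC hZ hE hF hEF

theorem Out.isCh (hC : ClG j c p) {σ : Finset (Subgroup X)} (h : Out ℓ j Z σ) :
    IsCh ℓ (Z.map p) (mapCh p σ) := by
  constructor
  · intro D' hD'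
    obtain ⟨E, hE, rfl⟩ := mem_mapCh.mp hD'
    obtain ⟨h1, h2⟩ := h.ch.1 E hE
    refine ⟨h1.map p, lt_of_le_not_ge (Subgroup.map_mono h2.le) ?_⟩
    intro h3
    exact h2.not_ge (le_of_map hC (h.out E hE) le_rfl h2.le h3)
  · intro D' hD' E' hE' _
    obtain ⟨D, hD, rfl⟩ := mem_mapCh.mp (Finset.mem_coe.mp hD')
    obtain ⟨E, hE, rfl⟩ := mem_mapCh.mp (Finset.mem_coe.mp hE')
    exact (h.ch.total hD hE).imp (fun h => Subgroup.map_mono h) (fun h => Subgroup.map_mono h)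

theorem map_tp (σ : Finset (Subgroup X)) : (tp Z σ).map p = tp (Z.map p) (mapCh p σ) := by
  classical
  unfold tp mapCh
  rw [Subgroup.map_sup]
  congr 1
  rw [Finset.sup_image]
  induction σ using Finset.induction_on with
  | empty => rw [Finset.sup_empty, Finset.sup_empty, Subgroup.map_bot]
  | insert a s _ ih =>
    rw [Finset.sup_insert, Finset.sup_insert, Subgroup.map_sup, ih]
    rfl

theorem Out.conj [Z.Normal] {σ : Finset (Subgroup X)} (h : Out ℓ j Z σ)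
    (a : A) : Out ℓ j Z (cj (j a) σ) := by
  refine ⟨isCh_cj _ h.ch, ?_⟩
  intro D hD
  obtain ⟨E, hE, rfl⟩ := mem_mapCh.mp hD
  exact range_conj a E (h.out E hE)

theorem map_conj_normal [hZ : Z.Normal] (x : X) : Z.map (MulAut.conj x).toMonoidHom = Z := by
  ext g
  rw [mem_conj_iff]
  constructor
  · intro h2
    have := hZ.conj_mem _ h2 x
    have h3 : x * (x⁻¹ * g * x) * x⁻¹ = g := by group
    rwa [h3] at this
  · intro h2
    have := hZ.conj_mem _ h2 x⁻¹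
    rwa [inv_inv] at this

theorem tp_conj [Z.Normal] (x : X) (σ : Finset (Subgroup X)) :
    tp Z (cj x σ) = (tp Z σ).map (MulAut.conj x).toMonoidHom := by
  rw [map_tp, map_conj_normal]

/-- The stabilizer of an outer chain in `A`. -/
theorem Out.stab (hC : ClG j c p) (hZ : Z ⊓ j.range = ⊥) (hZf : ∀ a, a ∈ FX c Z)
    {σ : Finset (Subgroup X)} (h : Out ℓ j Z σ) (a : A) :
    cj (j a) σ = σ ↔ a ∈ FX c (tp Z σ) := by
  constructor
  · intro hcj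
    rcases σ.eq_empty_or_nonempty with rfl | hne
    · rw [tp_empty]
      exact hZf a
    · obtain ⟨T, hT, hm⟩ := h.ch.exists_top hne
      rw [tp_eq h.ch hT hm]
      have h1 : T.map (MulAut.conj (j a)).toMonoidHom ∈ σ := by
        rw [← hcj]
        exact mem_mapCh.mpr ⟨T, hT, rfl⟩
      have h2 : T.map (MulAut.conj (j a)).toMonoidHom = T :=
        h.injOn hC hZ h1 hT (map_conj_ja hC a T)
      rw [mem_FX]
      intro q hq
      have h3 : j a * q * (j a)⁻¹ ∈ T := by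
        rw [← h2, mem_conj_iff]
        have : (j a)⁻¹ * (j a * q * (j a)⁻¹) * j a = q := by group
        rw [this]
        exact hq
      have h4 : j a * q * (j a)⁻¹ = q := by
        apply inj_on hC (h.out T hT) h3 hq
        rw [map_mul, map_mul, map_inv, map_ja hC, one_mul, inv_one, mul_one]
      apply hC.inj
      rw [hC.act]
      rw [mul_inv_eq_iff_eq_mul] at h4 ⊢
      exact h4.symm
  · intro ha
    apply cj_stb
    rw [mem_stb']
    rw [mem_FX] at ha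
    have hcomm : ∀ D ∈ σ, ∀ d ∈ D, j a * d * (j a)⁻¹ = d := by
      intro D hD d hd
      have h1 := ha d (le_tp hD hd)
      have h2 := hC.act d a
      rw [h1] at h2
      rw [mul_inv_eq_iff_eq_mul]
      rw [eq_mul_inv_iff_mul_eq] at h2
      exact h2
    intro D hD x
    constructor
    · intro hx
      rw [hcomm D hD x hx]
      exact hx
    · intro hx
      have h1 := hcomm D hD _ hx
      have h2 : j a * x * (j a)⁻¹ = x := by
        have h3 : j a * (j a * x * (j a)⁻¹) * (j a)⁻¹ = j a * x * (j a)⁻¹ := h1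
        have h4 := mul_right_cancel h3
        exact mul_left_cancel h4
      rwa [h2] at hx

/-- Two outer chains with the same image are conjugate. -/
theorem Out.exists_conj (hC : ClG j c p) (hZ : Z ⊓ j.range = ⊥) {σ σ' : Finset (Subgroup X)}
    (h' : Out ℓ j Z σ') (hm : mapCh p σ = mapCh p σ') {a : A}
    (ha : (tp Z σ).map (MulAut.conj (j a)).toMonoidHom = tp Z σ') : cj (j a) σ = σ' := by
  have key : ∀ E ∈ σ, ∀ E' ∈ σ', E.map p = E'.map p →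
      E.map (MulAut.conj (j a)).toMonoidHom = E' := by
    intro E hE E' hE' hEE
    apply eq_of_map hC (h'.tp_out hZ)
    · rw [← ha]
      exact Subgroup.map_mono (le_tp hE)
    · exact le_tp hE'
    · rw [map_conj_ja hC, hEE]
  ext E'
  rw [mem_mapCh]
  constructor
  · rintro ⟨E, hE, rfl⟩
    have h1 : E.map p ∈ mapCh p σ' := by
      rw [← hm]
      exact mem_mapCh.mpr ⟨E, hE, rfl⟩
    obtain ⟨F, hF, hF2⟩ := mem_mapCh.mp h1
    rw [key E hE F hF hF2.symm]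
    exact hF
  · intro hE'
    have h1 : E'.map p ∈ mapCh p σ := by
      rw [hm]
      exact mem_mapCh.mpr ⟨E', hE', rfl⟩
    obtain ⟨F, hF, hF2⟩ := mem_mapCh.mp h1
    exact ⟨F, hF, key F hF E' hE' hF2⟩

/-- Existence of outer chains. -/
theorem exists_lift {τ : Finset (Subgroup K)} (hτ : IsCh ℓ (Z.map p) τ) {Q : Subgroup X} (hQp : IsPGroup ℓ Q) (hQ : Q ⊓ j.range = ⊥)
    (hZQ : Z ≤ Q) (hQt : ∀ D ∈ τ, D ≤ Q.map p) (hQm : Q.map p ∈ τ) :
    ∃ σ, Out ℓ j Z σ ∧ mapCh p σ = τ ∧ tp Z σ = Q := by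
  classical
  have hmap : ∀ D ∈ τ, (Q ⊓ D.comap p).map p = D := by
    intro D hD
    apply le_antisymm
    · rintro _ ⟨x, hx, rfl⟩
      exact hx.2
    · intro d hd
      obtain ⟨q, hq, rfl⟩ := hQt D hD hd
      exact ⟨q, ⟨hq, hd⟩, rfl⟩
  have hmem : ∀ E, E ∈ τ.image (fun D => Q ⊓ D.comap p) ↔ ∃ D ∈ τ, Q ⊓ D.comap p = E := by
    intro E
    rw [Finset.mem_image]
  have hout : Out ℓ j Z (τ.image (fun D => Q ⊓ D.comap p)) := by
    refine ⟨⟨?_, ?_⟩, ?_⟩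
    · intro E hE
      obtain ⟨D, hD, rfl⟩ := (hmem E).mp hE
      refine ⟨hQp.to_le inf_le_left, lt_of_le_of_ne ?_ ?_⟩
      · exact le_inf hZQ (Subgroup.map_le_iff_le_comap.mp (hτ.1 D hD).2.le)
      · intro h1
        apply (hτ.1 D hD).2.ne
        rw [h1, hmap D hD]
    · intro E hE F hF _
      obtain ⟨D, hD, rfl⟩ := (hmem E).mp (Finset.mem_coe.mp hE)
      obtain ⟨D', hD', rfl⟩ := (hmem F).mp (Finset.mem_coe.mp hF)
      rcases hτ.total hD hD' with h1 | h1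
      · exact Or.inl (inf_le_inf_left _ (Subgroup.comap_mono h1))
      · exact Or.inr (inf_le_inf_left _ (Subgroup.comap_mono h1))
    · intro E hE
      obtain ⟨D, hD, rfl⟩ := (hmem E).mp hE
      rw [eq_bot_iff, ← hQ]
      exact inf_le_inf_right _ inf_le_left
  have htop : Q ⊓ (Q.map p).comap p = Q := inf_eq_left.mpr (Subgroup.le_comap_map p Q)
  refine ⟨_, hout, ?_, ?_⟩
  · ext E
    rw [mem_mapCh]
    constructor
    · rintro ⟨D', hD', rfl⟩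
      obtain ⟨D, hD, rfl⟩ := (hmem D').mp hD'
      rw [hmap D hD]
      exact hD
    · intro hE
      exact ⟨_, (hmem _).mpr ⟨E, hE, rfl⟩, hmap E hE⟩
  · apply tp_eq hout.ch
    · exact (hmem Q).mpr ⟨Q.map p, hQm, htop⟩
    · intro D' hD'
      obtain ⟨D, hD, rfl⟩ := (hmem D').mp hD'
      exact inf_le_left

end Tp

end ZF

open _root_.Pool.Agent.DPC.ZF in
open Pool.Agent.DP.QC (cj cj_cj cj_one) in
theorem ZF_thm : Stmt_ZF := by
  intro A X K _ _ _ _ _ _ ℓ _ j c p hC hp Z _ hZp hZ Gd hGa hGZ hZf hGe hGc hGl Φ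
  classical
  have hOut : ∀ σ, σ ∈ OutC ℓ Z j.range ↔ Out ℓ j Z σ := by
    intro σ
    rw [OutC, Finset.mem_filter, mem_Ch]
    exact ⟨fun h => ⟨h.1, h.2⟩, fun h => ⟨h.ch, h.out⟩⟩
  -- the number of the elements of `A`
  have key : ∀ τ ∈ Ch ℓ (Z.map p),
      ∑ σ ∈ (OutC ℓ Z j.range).filter (fun σ => mapCh p σ = τ ∧ Gd (tp Z σ)),
        Nat.card (FX c (tp Z σ)) = Nat.card A := by
    intro τ hτ
    rw [mem_Ch] at hτ
    -- an outer chain over `τ`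
    obtain ⟨σ₀, hσ₀, hm₀, hG₀⟩ : ∃ σ₀, Out ℓ j Z σ₀ ∧ mapCh p σ₀ = τ ∧ Gd (tp Z σ₀) := by
      rcases τ.eq_empty_or_nonempty with rfl | hne
      · refine ⟨∅, ⟨isCh_empty _ _, by simp⟩, by simp [mapCh], ?_⟩
        rw [tp_empty]
        exact hGZ
      · obtain ⟨Qb, hQb, hQm⟩ := hτ.exists_top hne
        obtain ⟨Q, hQp, hQ, hQQ, hGQ⟩ := hGe Qb (hτ.1 Qb hQb).1
        subst hQQ
        have hZQ : Z ≤ Q := hGl Q hQp hQ hGQ (hτ.1 _ hQb).2.le
        obtain ⟨σ, h1, h2, h3⟩ := exists_lift hτ hQp hQ hZQ hQm hQb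
        exact ⟨σ, h1, h2, by rw [h3]; exact hGQ⟩
    have hfA : Fintype A := inferInstance
    have hmaps : ∀ a ∈ (Finset.univ : Finset A), cj (j a)⁻¹ σ₀ ∈
        (OutC ℓ Z j.range).filter (fun σ => mapCh p σ = τ ∧ Gd (tp Z σ)) := by
      intro a _
      rw [← map_inv, Finset.mem_filter, hOut]
      refine ⟨hσ₀.conj a⁻¹, ?_, ?_⟩
      · rw [mapCh_cj_ja hC, hm₀]
      · rw [tp_conj]
        exact hGa _ _ hG₀
    have hcount := Finset.card_eq_sum_card_fiberwise (f := fun a => cj (j a)⁻¹ σ₀)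
      (s := (Finset.univ : Finset A)) hmaps
    rw [Nat.card_eq_fintype_card, ← Finset.card_univ, hcount]
    refine Finset.sum_congr rfl fun σ hσ => ?_
    rw [Finset.mem_filter, hOut] at hσ
    obtain ⟨hσ, hm, hG⟩ := hσ
    obtain ⟨a₀, ha₀⟩ := hGc (tp Z σ) (tp Z σ₀) (hσ.tp_p hZp) (hσ₀.tp_p hZp) (hσ.tp_out hZ)
      (hσ₀.tp_out hZ) (by rw [map_tp, map_tp, hm, hm₀]) hG hG₀
    have h1 : cj (j a₀) σ = σ₀ := Out.exists_conj hC hZ hσ₀ (hm.trans hm₀.symm) ha₀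
    have h2 : cj (j a₀)⁻¹ σ₀ = σ := by
      rw [← h1, cj_cj, inv_mul_cancel, cj_one]
    have hfx : Fintype (FX c (tp Z σ)) := Fintype.ofFinite _
    rw [Nat.card_eq_fintype_card, ← Finset.card_univ]
    apply Finset.card_bij (fun (b : FX c (tp Z σ)) _ => a₀ * (b : A))
    · intro b _
      rw [Finset.mem_filter]
      refine ⟨Finset.mem_univ _, ?_⟩
      show cj (j (a₀ * b))⁻¹ σ₀ = σ
      rw [map_mul, mul_inv_rev, ← cj_cj, h2, ← map_inv, hσ.stab hC hZ hZf]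
      exact inv_mem b.2
    · intro b _ b' _ hbb
      exact Subtype.ext (mul_left_cancel hbb)
    · intro a ha
      have h3 : cj (j a)⁻¹ σ₀ = σ := (Finset.mem_filter.mp ha).2
      refine ⟨⟨a₀⁻¹ * a, ?_⟩, Finset.mem_univ _, by simp⟩
      rw [← hσ.stab hC hZ hZf, map_mul, map_inv]
      have h4 : cj (j a) σ = σ₀ := by
        rw [← h3, cj_cj, mul_inv_cancel, cj_one]
      rw [← cj_cj, h4, h2]
  -- the sum over the fibres
  have hmaps : ∀ σ ∈ OutC ℓ Z j.range, mapCh p σ ∈ Ch ℓ (Z.map p) := by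
    intro σ hσ
    rw [mem_Ch]
    exact ((hOut σ).mp hσ).isCh hC
  rw [← Finset.sum_fiberwise_of_maps_to hmaps, Finset.mul_sum]
  refine Finset.sum_congr rfl fun τ hτ => ?_
  have h1 : ∀ σ ∈ (OutC ℓ Z j.range).filter (fun σ => mapCh p σ = τ),
      (-1 : ℚ) ^ σ.card * (if Gd (tp Z σ) then
        (Nat.card (FX c (tp Z σ)) : ℚ) * Φ (mapCh p σ) else 0) =
      (-1 : ℚ) ^ τ.card * Φ τ * (if Gd (tp Z σ) then (Nat.card (FX c (tp Z σ)) : ℚ) else 0) := by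
    intro σ hσ
    rw [Finset.mem_filter] at hσ
    rw [← ((hOut σ).mp hσ.1).card hC hZ, hσ.2]
    split_ifs <;> ring
  rw [Finset.sum_congr rfl h1, ← Finset.mul_sum, ← Finset.sum_filter, Finset.filter_filter]
  have h2 := key τ hτ
  have h3 : ∑ σ ∈ (OutC ℓ Z j.range).filter (fun σ => mapCh p σ = τ ∧ Gd (tp Z σ)),
      (Nat.card (FX c (tp Z σ)) : ℚ) = (Nat.card A : ℚ) := by
    exact_mod_cast h2
  rw [h3]
  ring

end Pool.Agent.DPC


end

section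

/-!
# The blocks over a character of defect zero of a normal subgroup: module ZST
-/

namespace Pool.Agent.DPC

open Pool.Agent.DP Pool.Agent.Lib_helper13 Representation
open Pool.Agent.Lib_helper13.Dade (pCore DadeHolds dadeSum)

namespace ZST

section Gen

variable {X K : Type} [Group X] [Group K]

/-- Two cases for the greatest member. -/
theorem tp_cases {ℓ : ℕ} {Z : Subgroup X} {σ : Finset (Subgroup X)} (h : IsCh ℓ Z σ) :
    (σ = ∅ ∧ tp Z σ = Z) ∨ (tp Z σ ∈ σ ∧ ∀ D ∈ σ, D ≤ tp Z σ) := by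
  rcases σ.eq_empty_or_nonempty with h0 | h0
  · left
    subst h0
    exact ⟨rfl, by simp [tp]⟩
  · right
    have h1 := sup_mem_of_chain (fun D hD E hE => h.total hD hE) h0
    have h2 : tp Z σ = σ.sup id := by
      rw [tp, sup_eq_left]
      exact (h.1 _ h1).2.le
    rw [h2]
    exact ⟨h1, fun D hD => Finset.le_sup (f := id) hD⟩

theorem le_tp {Z : Subgroup X} {σ : Finset (Subgroup X)} {D : Subgroup X} (hD : D ∈ σ) :
    D ≤ tp Z σ := le_trans (Finset.le_sup (f := id) hD) le_sup_left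

theorem Z_le_tp {Z : Subgroup X} {σ : Finset (Subgroup X)} : Z ≤ tp Z σ := le_sup_right

/-- The image of the greatest member. -/
theorem map_tp (p : X →* K) (Z : Subgroup X) (σ : Finset (Subgroup X)) :
    tp (Z.map p) (mapCh p σ) = (tp Z σ).map p := by
  classical
  apply le_antisymm
  · refine sup_le (Finset.sup_le fun E hE => ?_) (Subgroup.map_mono Z_le_tp)
    obtain ⟨D, hD, rfl⟩ := mem_mapCh.1 hE
    exact Subgroup.map_mono (le_tp hD)
  · rw [Subgroup.map_le_iff_le_comap]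
    refine sup_le (Finset.sup_le fun D hD => ?_) ?_
    · rw [← Subgroup.map_le_iff_le_comap]
      exact le_tp (mem_mapCh.2 ⟨D, hD, rfl⟩)
    · rw [← Subgroup.map_le_iff_le_comap]
      exact Z_le_tp

/-- The stabilizer of a chain normalizes the greatest member. -/
theorem stb_le_normalizer (Z : Subgroup X) [hZ : Z.Normal] (σ : Finset (Subgroup X)) :
    stb σ ≤ Subgroup.normalizer (tp Z σ : Set X) := by
  intro x hx
  rw [Subgroup.mem_normalizer_iff_map_conj_eq]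
  have h1 := map_tp (MulAut.conj x).toMonoidHom Z σ
  have h2 : mapCh (MulAut.conj x).toMonoidHom σ = σ := by
    classical
    rw [mem_stb] at hx
    rw [mapCh]
    have : σ.image (Subgroup.map (MulAut.conj x).toMonoidHom) = σ.image id :=
      Finset.image_congr fun D hD => hx D hD
    rw [this, Finset.image_id]
  have h3 : Z.map (MulAut.conj x).toMonoidHom = Z := by
    ext y
    constructor
    · rintro ⟨z, hz, rfl⟩
      exact hZ.conj_mem z hz x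
    · intro hy
      refine ⟨x⁻¹ * y * x, ?_, ?_⟩
      · have := hZ.conj_mem y hy x⁻¹
        simpa using this
      · simp [mul_assoc]
  rw [h2, h3] at h1
  exact h1.symm

/-- `p` is injective on a subgroup which meets the kernel trivially. -/
theorem eq_of_map {p : X →* K} {Q D E : Subgroup X} (hQ : Q ⊓ p.ker = ⊥) (hD : D ≤ Q)
    (hE : E ≤ Q) (h : D.map p = E.map p) : D = E := by
  have key : ∀ D E : Subgroup X, D ≤ Q → E ≤ Q → D.map p ≤ E.map p → D ≤ E := by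
    intro D E hD hE h x hx
    obtain ⟨y, hy, hxy⟩ := h (Subgroup.mem_map_of_mem p hx)
    have h1 : y⁻¹ * x ∈ Q ⊓ p.ker :=
      ⟨Q.mul_mem (Q.inv_mem (hE hy)) (hD hx), MonoidHom.mem_ker.2 (by
        rw [map_mul, map_inv, hxy, inv_mul_cancel])⟩
    rw [hQ, Subgroup.mem_bot, inv_mul_eq_one] at h1
    rw [← h1]
    exact hy
  exact le_antisymm (key D E hD hE h.le) (key E D hE hD h.ge)

theorem map_conj (p : X →* K) (D : Subgroup X) (x : X) :
    (D.map p).map (MulAut.conj (p x)).toMonoidHom =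
      (D.map (MulAut.conj x).toMonoidHom).map p := by
  rw [Subgroup.map_map, Subgroup.map_map]
  congr 1
  ext y
  simp

end Gen

end ZST

open _root_.Pool.Agent.DPC.ZST in
theorem ZST_thm : Stmt_ZST := by
  intro A X K _ _ _ _ _ ℓ _ j c p hc hp Z hZn hZ hZj σ hσ hσj
  have hker : p.ker = j.range := by
    ext x
    rw [MonoidHom.mem_ker, hc.ker]
  -- the greatest member
  have hT1 : IsPGroup ℓ (tp Z σ) := by
    rcases tp_cases hσ with ⟨_, h⟩ | ⟨h, _⟩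
    · rw [h]; exact hZ
    · exact (hσ.1 _ h).1
  have hT2 : tp Z σ ⊓ j.range = ⊥ := by
    rcases tp_cases hσ with ⟨_, h⟩ | ⟨h, _⟩
    · rw [h]; exact hZj
    · exact hσj _ h
  have hT2' : tp Z σ ⊓ p.ker = ⊥ := by rw [hker]; exact hT2
  have hT3 := map_tp p Z σ
  have hinj : ∀ D ∈ σ, ∀ E ∈ σ, D.map p = E.map p → D = E := fun D hD E hE h =>
    eq_of_map hT2' (le_tp hD) (le_tp hE) h
  have hT4 : IsCh ℓ (Z.map p) (mapCh p σ) := by
    constructor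
    · intro E hE
      obtain ⟨D, hD, rfl⟩ := mem_mapCh.1 hE
      refine ⟨(hσ.1 D hD).1.map p, lt_of_le_of_ne (Subgroup.map_mono (hσ.1 D hD).2.le) ?_⟩
      intro h
      exact (hσ.1 D hD).2.ne (eq_of_map hT2' Z_le_tp (le_tp hD) h)
    · intro E₁ hE₁ E₂ hE₂ hne
      obtain ⟨D₁, hD₁, rfl⟩ := mem_mapCh.1 (Finset.mem_coe.1 hE₁)
      obtain ⟨D₂, hD₂, rfl⟩ := mem_mapCh.1 (Finset.mem_coe.1 hE₂)
      rcases hσ.total hD₁ hD₂ with h | h
      · exact Or.inl (Subgroup.map_mono h)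
      · exact Or.inr (Subgroup.map_mono h)
  have hT5 : (mapCh p σ).card = σ.card := by
    classical
    rw [mapCh]
    exact Finset.card_image_of_injOn fun D hD E hE h =>
      hinj D (Finset.mem_coe.1 hD) E (Finset.mem_coe.1 hE) h
  have hT6 : (stb σ).map p ≤ stb (mapCh p σ) := by
    rintro _ ⟨x, hx, rfl⟩
    rw [mem_stb]
    intro E hE
    obtain ⟨D, hD, rfl⟩ := mem_mapCh.1 hE
    rw [map_conj, mem_stb.1 hx D hD]
  have hT7 : stb σ ≤ Subgroup.normalizer (tp Z σ : Set X) := stb_le_normalizer Z σ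
  have hT8 : ∀ a, j a ∈ stb σ ↔ a ∈ FX c (tp Z σ) := by
    intro a
    constructor
    · intro ha q hq
      have h1 : j a * q * (j a)⁻¹ ∈ tp Z σ := (Subgroup.mem_normalizer_iff.1 (hT7 ha) q).1 hq
      have h2 : j a * q * (j a)⁻¹ * q⁻¹ ∈ tp Z σ ⊓ j.range := by
        refine ⟨(tp Z σ).mul_mem h1 ((tp Z σ).inv_mem hq), ?_⟩
        refine ⟨a * (c q a)⁻¹, ?_⟩
        rw [map_mul, map_inv, hc.act]
        group
      rw [hT2, Subgroup.mem_bot, mul_inv_eq_one] at h2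
      apply hc.inj
      rw [hc.act]
      rw [mul_inv_eq_iff_eq_mul] at h2 ⊢
      exact h2.symm
    · intro ha
      rw [mem_stb']
      intro D hD x
      have h1 : ∀ q ∈ tp Z σ, j a * q * (j a)⁻¹ = q := by
        intro q hq
        have h2 := hc.act q a
        rw [ha q hq] at h2
        rw [mul_inv_eq_iff_eq_mul]
        rw [eq_mul_inv_iff_mul_eq] at h2
        exact h2
      constructor
      · intro hx
        rw [h1 x (le_tp hD hx)]
        exact hx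
      · intro hx
        have h3 := h1 _ (le_tp hD hx)
        have h4 : j a * x * (j a)⁻¹ = x := by
          have h5 : j a * (j a * x * (j a)⁻¹) * (j a)⁻¹ = j a * x * (j a)⁻¹ := h3
          have h6 : j a * x * (j a)⁻¹ = x := by
            have h7 := mul_right_cancel h5
            exact mul_left_cancel h7
          exact h6
        rw [h4] at hx
        exact hx
  refine ⟨hT1, hT2, hT3, hT4, hT5, hT6, hT7, hT8, ?_⟩
  intro hN
  have hT9 : (stb σ).map p = stb (mapCh p σ) := by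
    apply le_antisymm hT6
    intro k hk
    have : (Z.map p).Normal := hZn.map p hp
    have h1 := stb_le_normalizer (Z.map p) (mapCh p σ) hk
    rw [hT3, Subgroup.mem_normalizer_iff_map_conj_eq] at h1
    obtain ⟨x, hx, rfl⟩ := hN k h1
    refine ⟨x, ?_, rfl⟩
    show x ∈ stb σ
    rw [mem_stb]
    intro D hD
    rw [Subgroup.mem_normalizer_iff_map_conj_eq] at hx
    have h2 : D.map (MulAut.conj x).toMonoidHom ≤ tp Z σ := by
      calc D.map (MulAut.conj x).toMonoidHom ≤ (tp Z σ).map (MulAut.conj x).toMonoidHom :=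
            Subgroup.map_mono (le_tp hD)
        _ = tp Z σ := hx
    apply eq_of_map hT2' h2 (le_tp hD)
    rw [← map_conj]
    exact mem_stb.1 hk _ (mem_mapCh.2 ⟨D, hD, rfl⟩)
  refine ⟨hT9, ?_⟩
  -- cardinality
  let f : stb σ →* K := p.comp (stb σ).subtype
  have h1 : Nat.card (stb σ) = Nat.card f.ker * Nat.card f.range := by
    rw [← Subgroup.index_ker f]
    exact (Subgroup.card_mul_index f.ker).symm
  have h2 : f.range = stb (mapCh p σ) := by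
    rw [← hT9]
    ext k
    constructor
    · rintro ⟨x, rfl⟩
      exact ⟨x.1, x.2, rfl⟩
    · rintro ⟨x, hx, rfl⟩
      exact ⟨⟨x, hx⟩, rfl⟩
  have h3 : Nat.card f.ker = Nat.card (FX c (tp Z σ)) := by
    symm
    apply Nat.card_eq_of_bijective
      (fun a : FX c (tp Z σ) => (⟨⟨j a.1, (hT8 a.1).2 a.2⟩, by
        show p (j a.1) = 1
        exact (hc.ker _).2 ⟨a.1, rfl⟩⟩ : f.ker))
    constructor
    · intro a b hab
      apply Subtype.ext
      apply hc.inj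
      exact congrArg (fun t : f.ker => ((t : stb σ) : X)) hab
    · rintro ⟨⟨x, hx⟩, hxk⟩
      obtain ⟨a, rfl⟩ := (hc.ker x).1 hxk
      exact ⟨⟨a, (hT8 a).1 hx⟩, rfl⟩
  rw [h1, h2, h3]

end Pool.Agent.DPC


end

section

/-!
# WA: an equivariant family of extensions
-/

namespace Pool.Agent.DPC

open Pool.Agent.DP Pool.Agent.Lib_helper13 Representation
open Pool.Agent.Lib_helper13.Dade (pCore DadeHolds dadeSum)

namespace WA

variable {Ω G B C X K : Type} [Group G] [Group B] [Group C] [Group X] [Group K]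

/-- The transporting elements of the coordinates. -/
def cc (φ : X →* Gam (Equiv.Perm Ω) Ω B) (x : X) (w : Ω) : B := (φ x).left ((φ x).right • w)

theorem right_mul (φ : X →* Gam (Equiv.Perm Ω) Ω B) (x y : X) (w : Ω) :
    (φ (x * y)).right • w = (φ x).right • (φ y).right • w := by
  rw [map_mul, SemidirectProduct.mul_right, mul_smul]

theorem right_inv (φ : X →* Gam (Equiv.Perm Ω) Ω B) (x : X) (w : Ω) :
    (φ x⁻¹).right • (φ x).right • w = w := by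
  rw [map_inv, SemidirectProduct.inv_right, inv_smul_smul]

theorem cc_mul (φ : X →* Gam (Equiv.Perm Ω) Ω B) (x y : X) (w : Ω) :
    cc φ (x * y) w = cc φ x ((φ y).right • w) * cc φ y w := by
  unfold cc
  rw [right_mul, map_mul]
  change (φ x).left _ * (φ y).left ((φ x).right⁻¹ • (φ x).right • (φ y).right • w) = _
  rw [inv_smul_smul]

theorem cc_one (φ : X →* Gam (Equiv.Perm Ω) Ω B) (w : Ω) : cc φ 1 w = 1 := by
  unfold cc
  rw [map_one]
  rfl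

theorem cc_inv (φ : X →* Gam (Equiv.Perm Ω) Ω B) (x : X) (w : Ω) :
    cc φ x⁻¹ ((φ x).right • w) = (cc φ x w)⁻¹ := by
  have h := cc_mul φ x⁻¹ x w
  rw [inv_mul_cancel, cc_one] at h
  exact eq_inv_of_mul_eq_one_left h.symm

theorem mem_Pw {φ : X →* Gam (Equiv.Perm Ω) Ω B} {w : Ω} {b : B} :
    b ∈ Pw φ ⊤ w ↔ ∃ x, (φ x).right • w = w ∧ cc φ x w = b := by
  constructor
  · rintro ⟨x, _, h1, h2⟩
    refine ⟨x, h1, ?_⟩
    unfold cc
    rw [h1, h2]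
  · rintro ⟨x, h1, h2⟩
    refine ⟨x, Subgroup.mem_top x, h1, ?_⟩
    unfold cc at h2
    rw [h1] at h2
    exact h2

theorem conj_mem {φ : X →* Gam (Equiv.Perm Ω) Ω B} {w : Ω} {b : B} (x : X)
    (hb : b ∈ Pw φ ⊤ w) :
    cc φ x w * b * (cc φ x w)⁻¹ ∈ Pw φ ⊤ ((φ x).right • w) := by
  obtain ⟨y, hy, rfl⟩ := mem_Pw.mp hb
  refine mem_Pw.mpr ⟨x * y * x⁻¹, ?_, ?_⟩
  · rw [right_mul, right_mul, right_inv, hy]
  · rw [cc_mul, right_inv, cc_inv, cc_mul, hy]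

theorem conj_mem' {φ : X →* Gam (Equiv.Perm Ω) Ω B} {w w' : Ω} {b : B} (x : X)
    (hx : (φ x).right • w = w') (hb : b ∈ Pw φ ⊤ w') :
    (cc φ x w)⁻¹ * b * cc φ x w ∈ Pw φ ⊤ w := by
  subst hx
  have h := conj_mem x⁻¹ hb
  rw [cc_inv, inv_inv, right_inv] at h
  exact h

theorem iota_mem {ι : G →* B} {κ : B →* MulAut G} {e : (Ω → G) →* X} {p : X →* K}
    {φ : X →* Gam (Equiv.Perm Ω) Ω B} (hE : ExtS ι κ e p φ) (w : Ω) (g : G) :
    ι g ∈ Pw φ ⊤ w := by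
  refine ⟨e (fun _ => g), Subgroup.mem_top _, ?_, ?_⟩
  · rw [hE.jn, SemidirectProduct.right_inl, one_smul]
  · rw [hE.jn, SemidirectProduct.left_inl]

/-- Extension of the character at one coordinate. -/
theorem ext_one [Fintype G] [Fintype B] {ℓ : ℕ} {ι : G →* B} {κ : B →* MulAut G} {ρ : B →* C}
    (hL : LocW ℓ ι κ ρ) {e : (Ω → G) →* X} {p : X →* K}
    {φ : X →* Gam (Equiv.Perm Ω) Ω B} (hE : ExtS ι κ e p φ) {θ : Ω → G → ℂ}
    (hθ : ∀ w, IsIrr (θ w))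
    (hinv : ∀ x w g, θ w (κ ((φ x).left w) g) = θ ((φ x).right⁻¹ • w) g) (w : Ω) :
    ∃ E : ↥(Pw φ ⊤ w) → ℂ, IsIrr E ∧ ∀ g, E ⟨ι g, iota_mem hE w g⟩ = θ w g := by
  classical
  have := hL.cyc
  let T : Subgroup B := Pw φ ⊤ w
  let jw : G →* T := ι.codRestrict T (fun g => iota_mem hE w g)
  let cw : T →* MulAut G := κ.comp T.subtype
  let qw : T →* ↥(T.map ρ) := ρ.subgroupMap T
  have hq : ∀ y : T, ((qw y : T.map ρ) : C) = ρ (y : B) := fun y => rfl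
  have hcl : ClG jw cw qw := by
    refine ⟨?_, ?_, ?_⟩
    · intro a b hab
      exact hL.cl.inj (congrArg Subtype.val hab)
    · intro y a
      apply Subtype.ext
      exact hL.cl.act (y : B) a
    · intro y
      constructor
      · intro hy
        have h1 : ρ (y : B) = 1 := by
          rw [← hq, hy]
          rfl
        obtain ⟨g, hg⟩ := (hL.cl.ker (y : B)).mp h1
        exact ⟨g, Subtype.ext hg⟩
      · rintro ⟨g, rfl⟩
        apply Subtype.ext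
        rw [hq]
        exact (hL.cl.ker (ι g)).mpr ⟨g, rfl⟩
  obtain ⟨E, hE1, hE2⟩ := EXTC_thm G T ↥(T.map ρ) jw cw qw hcl (ρ.subgroupMap_surjective T)
    inferInstance (θ w) (hθ w) (by
      rintro ⟨y, hy⟩ a
      obtain ⟨x, _, h1, h2⟩ := hy
      change θ w (κ y a) = θ w a
      rw [← h2, hinv]
      congr 1
      rw [inv_smul_eq_iff, h1])
  exact ⟨E, hE1, hE2⟩

end WA

open _root_.Pool.Agent.DPC.WA

/-- MODULE WA -/
theorem WA_thm : Stmt_WA := by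
  intro Ω G B C X K _ _ _ _ _ _ _ _ _ _ ℓ ι κ ρ hL e p φ hE θ hθ hinv
  classical
  choose E0 hE0 hE0' using fun w => ext_one hL hE hθ hinv w
  -- representatives of the orbits
  let S : Setoid Ω :=
    { r := fun a b => ∃ x, (φ x).right • a = b
      iseqv := by
        refine ⟨fun a => ⟨1, ?_⟩, ?_, ?_⟩
        · rw [map_one]
          exact one_smul _ a
        · rintro a b ⟨x, rfl⟩
          exact ⟨x⁻¹, right_inv φ x a⟩
        · rintro a b c ⟨x, rfl⟩ ⟨y, rfl⟩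
          exact ⟨y * x, right_mul φ y x a⟩ }
  let r : Ω → Ω := fun w => (Quotient.mk S w).out
  have hr : ∀ w, ∃ x, (φ x).right • r w = w := fun w =>
    (Quotient.exact (s := S) (Quotient.out_eq (Quotient.mk S w)))
  have hrx : ∀ x w, r ((φ x).right • w) = r w := by
    intro x w
    have h : Quotient.mk S w = Quotient.mk S ((φ x).right • w) := Quotient.sound ⟨x, rfl⟩
    change (Quotient.mk S ((φ x).right • w)).out = (Quotient.mk S w).out
    rw [h]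
  choose t ht using hr
  let E : Ω → B → ℂ := fun w b =>
    ext0 (E0 (r w)) ((cc φ (t w) (r w))⁻¹ * b * cc φ (t w) (r w))
  refine ⟨E, ?_, ?_, ?_⟩
  · intro w
    let f : ↥(Pw φ ⊤ w) →* ↥(Pw φ ⊤ (r w)) :=
      { toFun := fun b => ⟨(cc φ (t w) (r w))⁻¹ * b * cc φ (t w) (r w),
          conj_mem' (t w) (ht w) b.2⟩
        map_one' := by
          apply Subtype.ext
          simp
        map_mul' := by
          intro a b
          apply Subtype.ext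
          simp [mul_assoc] }
    have h := ((hE0 (r w)).isChr).comp f
    have h2 : (fun b : Pw φ ⊤ w => E w b) = fun b => E0 (r w) (f b) := by
      funext b
      exact ext0_of_mem (E0 (r w)) (conj_mem' (t w) (ht w) b.2)
    rw [h2]
    exact h
  · intro w g
    have h1 : (cc φ (t w) (r w))⁻¹ * ι g * cc φ (t w) (r w) =
        ι (κ (cc φ (t w) (r w))⁻¹ g) := by
      rw [hL.cl.act, inv_inv]
    change ext0 (E0 (r w)) ((cc φ (t w) (r w))⁻¹ * ι g * cc φ (t w) (r w)) = θ w g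
    rw [h1, ext0_of_mem _ (iota_mem hE (r w) _), hE0']
    have h2 := hinv (t w) w (κ (cc φ (t w) (r w))⁻¹ g)
    have h3 : (φ (t w)).right⁻¹ • w = r w := by
      rw [inv_smul_eq_iff, ht]
    have h4 : (φ (t w)).left w = cc φ (t w) (r w) := by
      unfold cc
      rw [ht]
    rw [h3, h4, ← MulAut.mul_apply, ← map_mul, mul_inv_cancel, map_one, MulAut.one_apply] at h2
    exact h2.symm
  · intro x w b hb
    change E ((φ x).right • w) (cc φ x w * b * (cc φ x w)⁻¹) = E w b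
    have hmem := conj_mem' (t w) (ht w) hb
    have hz : (φ ((t ((φ x).right • w))⁻¹ * x * t w)).right • r w = r w := by
      rw [right_mul, right_mul, ht]
      have h5 := ht ((φ x).right • w)
      rw [hrx] at h5
      have h6 := right_inv φ (t ((φ x).right • w)) (r w)
      rw [h5] at h6
      exact h6
    have hcc : cc φ ((t ((φ x).right • w))⁻¹ * x * t w) (r w) =
        (cc φ (t ((φ x).right • w)) (r w))⁻¹ * cc φ x w * cc φ (t w) (r w) := by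
      have h5 := ht ((φ x).right • w)
      rw [hrx] at h5
      have h6 := cc_inv φ (t ((φ x).right • w)) (r w)
      rw [h5] at h6
      rw [cc_mul, ht, cc_mul, h6]
    have hzm : cc φ ((t ((φ x).right • w))⁻¹ * x * t w) (r w) ∈ Pw φ ⊤ (r w) :=
      mem_Pw.mpr ⟨_, hz, rfl⟩
    have hcl := (hE0 (r w)).isChr.conj_eq ⟨_, hzm⟩ ⟨_, hmem⟩
    change ext0 (E0 (r ((φ x).right • w)))
      ((cc φ (t ((φ x).right • w)) (r ((φ x).right • w)))⁻¹ *
        (cc φ x w * b * (cc φ x w)⁻¹) *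
        cc φ (t ((φ x).right • w)) (r ((φ x).right • w))) =
      ext0 (E0 (r w)) ((cc φ (t w) (r w))⁻¹ * b * cc φ (t w) (r w))
    rw [hrx, ext0_of_mem (E0 (r w)) hmem, ← hcl]
    have h7 : (cc φ (t ((φ x).right • w)) (r w))⁻¹ * (cc φ x w * b * (cc φ x w)⁻¹) *
        cc φ (t ((φ x).right • w)) (r w) =
        cc φ ((t ((φ x).right • w))⁻¹ * x * t w) (r w) *
          ((cc φ (t w) (r w))⁻¹ * b * cc φ (t w) (r w)) *
          (cc φ ((t ((φ x).right • w))⁻¹ * x * t w) (r w))⁻¹ := by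
      rw [hcc]
      group
    rw [h7]
    exact ext0_of_mem (E0 (r w)) (mul_mem (mul_mem hzm hmem) (inv_mem hzm))

end Pool.Agent.DPC


end

section

/-!
# Module CYC: the trace along the cycles
-/

namespace Pool.Agent.DPC

open Pool.Agent.DP Pool.Agent.Lib_helper13 Representation
open Pool.Agent.Lib_helper13.Dade (pCore DadeHolds dadeSum)

namespace CYC

/-- Splitting off the last coordinate. -/
theorem sum_snoc (m j : ℕ) (F : (Fin (j + 1) → ℕ) → ℂ) :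
    ∑ g ∈ Fintype.piFinset (fun _ : Fin (j + 1) => Finset.range m), F g =
      ∑ h ∈ Fintype.piFinset (fun _ : Fin j => Finset.range m), ∑ c ∈ Finset.range m,
        F (Fin.snoc (α := fun _ => ℕ) h c) := by
  rw [← Finset.sum_product']
  refine Finset.sum_nbij' (fun g => (Fin.init g, g (Fin.last j)))
    (fun p => Fin.snoc (α := fun _ => ℕ) p.1 p.2) ?_ ?_ ?_ ?_ ?_
  · intro g hg
    rw [Fintype.mem_piFinset] at hg
    rw [Finset.mem_product, Fintype.mem_piFinset]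
    exact ⟨fun i => hg _, hg _⟩
  · rintro ⟨h, c⟩ hp
    rw [Finset.mem_product, Fintype.mem_piFinset] at hp
    rw [Fintype.mem_piFinset]
    intro i
    refine Fin.lastCases ?_ (fun i' => ?_) i
    · rw [Fin.snoc_last]
      exact hp.2
    · rw [Fin.snoc_castSucc]
      exact hp.1 i'
  · intro g _
    exact Fin.snoc_init_self g
  · rintro ⟨h, c⟩ _
    simp only [Fin.init_snoc, Fin.snoc_last]
  · intro g _
    rw [Fin.snoc_init_self]

section path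

variable {G : Type} [Group G] {S : Subgroup G} {θ : G → ℂ} {m : ℕ} {M : G → ℕ → ℕ → ℂ}

/-- The weight of a path. -/
noncomputable def W (M : G → ℕ → ℕ → ℂ) (b : ℕ → G) (j : ℕ) (g : Fin (j + 1) → ℕ) : ℂ :=
  ∏ i : Fin j, M (b i) (g i.castSucc) (g i.succ)

theorem W_snoc (b : ℕ → G) (j : ℕ) (g : Fin (j + 1) → ℕ) (c : ℕ) :
    W M b (j + 1) (Fin.snoc (α := fun _ => ℕ) g c) = W M b j g * M (b j) (g (Fin.last j)) c := by
  unfold W
  rw [Fin.prod_univ_castSucc]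
  congr 1
  · refine Finset.prod_congr rfl fun i _ => ?_
    rw [Fin.snoc_castSucc, Fin.succ_castSucc, Fin.snoc_castSucc]
    rfl
  · rw [Fin.snoc_castSucc, Fin.succ_last, Fin.snoc_last]
    rfl

/-- The products. -/
def pr (b : ℕ → G) : ℕ → G
  | 0 => 1
  | r + 1 => pr b r * b r

theorem pr_mem {b : ℕ → G} (hb : ∀ i, b i ∈ S) : ∀ j, pr b j ∈ S
  | 0 => S.one_mem
  | j + 1 => S.mul_mem (pr_mem hb j) (hb j)

theorem path (hM : MD S θ m M) {b : ℕ → G} (hb : ∀ i, b i ∈ S) :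
    ∀ j, ∀ a < m, ∀ c < m, M (pr b j) a c =
      ∑ g ∈ Fintype.piFinset (fun _ : Fin (j + 1) => Finset.range m),
        if g 0 = a ∧ g (Fin.last j) = c then W M b j g else 0 := by
  intro j
  induction j with
  | zero =>
    intro a ha c hc
    rw [show pr b 0 = 1 from rfl, hM.one a ha c hc, sum_snoc, Fintype.piFinset_of_isEmpty,
      Finset.univ_unique, Finset.sum_singleton]
    have h1 : ∀ d ∈ Finset.range m, (if (Fin.snoc (α := fun _ => ℕ)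
        (default : Fin 0 → ℕ) d : Fin 1 → ℕ) 0 = a ∧ (Fin.snoc (α := fun _ => ℕ)
        (default : Fin 0 → ℕ) d : Fin 1 → ℕ) (Fin.last 0) = c then
        W M b 0 (Fin.snoc (α := fun _ => ℕ) (default : Fin 0 → ℕ) d) else 0) =
        if d = a then (if a = c then (1 : ℂ) else 0) else 0 := by
      intro d _
      have h2 : (Fin.snoc (α := fun _ => ℕ) (default : Fin 0 → ℕ) d : Fin 1 → ℕ) 0 = d :=
        Fin.snoc_last (α := fun _ => ℕ) d (default : Fin 0 → ℕ)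
      have h3 : W M b 0 (Fin.snoc (α := fun _ => ℕ) (default : Fin 0 → ℕ) d) = 1 := by
        unfold W
        rw [Finset.univ_eq_empty, Finset.prod_empty]
      rw [h3, h2, Fin.snoc_last]
      by_cases h4 : d = a
      · subst h4
        simp
      · rw [if_neg h4, if_neg (fun h => h4 h.1)]
    refine Eq.trans ?_ (Finset.sum_congr rfl h1).symm
    rw [Finset.sum_ite_eq', if_pos (Finset.mem_range.2 ha)]
  | succ j ih =>
    intro a ha c hc
    rw [show pr b (j + 1) = pr b j * b j from rfl, hM.mul _ (pr_mem hb j) _ (hb j) a ha c hc,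
      sum_snoc]
    have h1 : ∀ d ∈ Finset.range m, M (pr b j) a d * M (b j) d c =
        ∑ g ∈ Fintype.piFinset (fun _ : Fin (j + 1) => Finset.range m),
          if g (Fin.last j) = d then (if g 0 = a then W M b j g * M (b j) d c else 0) else 0 := by
      intro d hd
      rw [ih a ha d (Finset.mem_range.1 hd), Finset.sum_mul]
      refine Finset.sum_congr rfl fun g _ => ?_
      by_cases h2 : g (Fin.last j) = d
      · by_cases h3 : g 0 = a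
        · rw [if_pos ⟨h3, h2⟩, if_pos h2, if_pos h3]
        · rw [if_neg (fun h => h3 h.1), if_pos h2, if_neg h3, zero_mul]
      · rw [if_neg (fun h => h2 h.2), if_neg h2, zero_mul]
    rw [Finset.sum_congr rfl h1, Finset.sum_comm]
    refine Finset.sum_congr rfl fun g hg => ?_
    rw [Fintype.mem_piFinset] at hg
    rw [Finset.sum_ite_eq, if_pos (hg (Fin.last j))]
    have h0 : ∀ d : ℕ, (Fin.snoc (α := fun _ => ℕ) g d : Fin (j + 2) → ℕ) 0 = g 0 := by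
      intro d
      have h5 : (0 : Fin (j + 2)) = Fin.castSucc (0 : Fin (j + 1)) := rfl
      rw [h5, Fin.snoc_castSucc]
    have h4 : ∀ d ∈ Finset.range m, (if (Fin.snoc (α := fun _ => ℕ) g d : Fin (j + 2) → ℕ) 0 = a ∧
        (Fin.snoc (α := fun _ => ℕ) g d : Fin (j + 2) → ℕ) (Fin.last (j + 1)) = c then
        W M b (j + 1) (Fin.snoc (α := fun _ => ℕ) g d) else 0) =
        if d = c then (if g 0 = a then W M b j g * M (b j) (g (Fin.last j)) c else 0) else 0 := by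
      intro d _
      rw [h0, Fin.snoc_last, W_snoc]
      by_cases h2 : d = c
      · subst h2
        by_cases h3 : g 0 = a
        · rw [if_pos ⟨h3, rfl⟩, if_pos rfl, if_pos h3]
        · rw [if_neg (fun h => h3 h.1), if_pos rfl, if_neg h3]
      · rw [if_neg (fun h => h2 h.2), if_neg h2]
    rw [Finset.sum_congr rfl h4, Finset.sum_ite_eq', if_pos (Finset.mem_range.2 hc)]

theorem trace (hM : MD S θ m M) {b : ℕ → G} (hb : ∀ i, b i ∈ S) (r : ℕ) (hr : 0 < r) :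
    θ (pr b r) = ∑ h ∈ Fintype.piFinset (fun _ : Fin r => Finset.range m),
      ∏ i : Fin r, M (b i) (h i) (h ⟨((i : ℕ) + 1) % r, Nat.mod_lt _ hr⟩) := by
  obtain ⟨r, rfl⟩ : ∃ q, r = q + 1 := ⟨r - 1, by omega⟩
  rw [hM.tr _ (pr_mem hb _)]
  have h1 : ∀ a ∈ Finset.range m, M (pr b (r + 1)) a a =
      ∑ g ∈ Fintype.piFinset (fun _ : Fin (r + 2) => Finset.range m),
        if g 0 = a then (if g 0 = g (Fin.last (r + 1)) then W M b (r + 1) g else 0) else 0 := by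
    intro a ha
    rw [path hM hb (r + 1) a (Finset.mem_range.1 ha) a (Finset.mem_range.1 ha)]
    refine Finset.sum_congr rfl fun g _ => ?_
    by_cases h2 : g 0 = a
    · rw [if_pos h2]
      by_cases h3 : g 0 = g (Fin.last (r + 1))
      · rw [if_pos h3, if_pos ⟨h2, h3.symm.trans h2⟩]
      · rw [if_neg h3, if_neg (fun h => h3 (h2.trans h.2.symm))]
    · rw [if_neg h2, if_neg (fun h => h2 h.1)]
  rw [Finset.sum_congr rfl h1, Finset.sum_comm]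
  have h2 : ∀ g ∈ Fintype.piFinset (fun _ : Fin (r + 2) => Finset.range m),
      (∑ a ∈ Finset.range m, if g 0 = a then
        (if g 0 = g (Fin.last (r + 1)) then W M b (r + 1) g else 0) else 0) =
      if g 0 = g (Fin.last (r + 1)) then W M b (r + 1) g else 0 := by
    intro g hg
    rw [Fintype.mem_piFinset] at hg
    rw [Finset.sum_ite_eq, if_pos (hg 0)]
  rw [Finset.sum_congr rfl h2, sum_snoc]
  refine Finset.sum_congr rfl fun h hh => ?_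
  rw [Fintype.mem_piFinset] at hh
  have h0 : ∀ d : ℕ, (Fin.snoc (α := fun _ => ℕ) h d : Fin (r + 2) → ℕ) 0 = h 0 := by
    intro d
    have h5 : (0 : Fin (r + 2)) = Fin.castSucc (0 : Fin (r + 1)) := rfl
    rw [h5, Fin.snoc_castSucc]
  have h3 : ∀ d ∈ Finset.range m, (if (Fin.snoc (α := fun _ => ℕ) h d : Fin (r + 2) → ℕ) 0 =
      (Fin.snoc (α := fun _ => ℕ) h d : Fin (r + 2) → ℕ) (Fin.last (r + 1)) then
      W M b (r + 1) (Fin.snoc (α := fun _ => ℕ) h d) else 0) =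
      if h 0 = d then W M b (r + 1) (Fin.snoc (α := fun _ => ℕ) h (h 0)) else 0 := by
    intro d _
    rw [h0, Fin.snoc_last]
    by_cases h2 : h 0 = d
    · rw [if_pos h2, if_pos h2, h2]
    · rw [if_neg h2, if_neg h2]
  rw [Finset.sum_congr rfl h3, Finset.sum_ite_eq, if_pos (hh 0)]
  unfold W
  refine Finset.prod_congr rfl fun i _ => ?_
  rw [Fin.snoc_castSucc]
  congr 1
  refine Fin.lastCases ?_ (fun i' => ?_) i
  · rw [Fin.succ_last, Fin.snoc_last]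
    congr 1
    apply Fin.ext
    simp
  · rw [Fin.succ_castSucc, Fin.snoc_castSucc]
    congr 1
    apply Fin.ext
    exact (Nat.mod_eq_of_lt (Nat.succ_lt_succ i'.2)).symm

end path

theorem cyp_eq_pr {O G : Type} [Group G] (k : Equiv.Perm O) (n : O → G) (o : O) :
    ∀ j, cyp k n o j = pr (fun i => n ((k⁻¹ ^ i) o)) j
  | 0 => rfl
  | j + 1 => by
    show cyp k n o j * _ = pr _ j * _
    rw [cyp_eq_pr k n o j]

/-! ### The decomposition into cycles -/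

section cycles

variable {O : Type} (k : Equiv.Perm O)

theorem inv_pow_pow (i : ℕ) (x : O) : (k ^ i) ((k⁻¹ ^ i) x) = x := by
  rw [← Equiv.Perm.mul_apply, inv_pow, mul_inv_cancel, Equiv.Perm.one_apply]

theorem same (i : ℕ) (x : O) : Equiv.Perm.SameCycle k ((k⁻¹ ^ i) x) x :=
  ⟨i, by rw [zpow_natCast]; exact inv_pow_pow k i x⟩

theorem const {α : Type*} (u : O → α) (hu : ∀ o, u (k o) = u o) (i : ℕ) (x : O) :
    u ((k⁻¹ ^ i) x) = u x := by
  induction i with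
  | zero => rfl
  | succ i ih =>
    have h := hu ((k⁻¹ ^ (i + 1)) x)
    rw [pow_succ', Equiv.Perm.mul_apply, ← Equiv.Perm.mul_apply, mul_inv_cancel,
      Equiv.Perm.one_apply, ih] at h
    rw [pow_succ', Equiv.Perm.mul_apply]
    exact h.symm

theorem period_pos [Finite O] (x : O) : 0 < Function.minimalPeriod k x := by
  have h : Function.IsPeriodicPt k (orderOf k) x := by
    show k^[orderOf k] x = x
    rw [Equiv.Perm.iterate_eq_pow, pow_orderOf_eq_one, Equiv.Perm.one_apply]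
  exact h.minimalPeriod_pos (orderOf_pos k)

theorem pow_period (x : O) : (k ^ Function.minimalPeriod k x) x = x := by
  have h := Function.iterate_minimalPeriod (f := k) (x := x)
  rwa [Equiv.Perm.iterate_eq_pow] at h

theorem inv_pow_mod (x : O) (i : ℕ) :
    (k⁻¹ ^ (i % Function.minimalPeriod k x)) x = (k⁻¹ ^ i) x := by
  have h1 : (k⁻¹ ^ Function.minimalPeriod k x) x = x := by
    rw [inv_pow, Equiv.Perm.inv_eq_iff_eq, pow_period]
  have h2 : ∀ q, (k⁻¹ ^ (Function.minimalPeriod k x * q)) x = x := by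
    intro q
    induction q with
    | zero => rfl
    | succ q ih => rw [Nat.mul_succ, pow_add, Equiv.Perm.mul_apply, h1, ih]
  conv_rhs => rw [← Nat.mod_add_div i (Function.minimalPeriod k x), pow_add,
    Equiv.Perm.mul_apply, h2]

/-- The parametrization of the points by the cycles. -/
noncomputable def ee (p : Σ s : Quotient (Equiv.Perm.SameCycle.setoid k),
    Fin (Function.minimalPeriod k s.out)) : O := (k⁻¹ ^ (p.2 : ℕ)) p.1.out

theorem ee_mk (p : Σ s : Quotient (Equiv.Perm.SameCycle.setoid k),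
    Fin (Function.minimalPeriod k s.out)) :
    (Quotient.mk (Equiv.Perm.SameCycle.setoid k) (ee k p)) = p.1 := by
  have h : Quotient.mk (Equiv.Perm.SameCycle.setoid k) (ee k p) =
      Quotient.mk (Equiv.Perm.SameCycle.setoid k) p.1.out := Quotient.sound (same k _ _)
  rw [h, Quotient.out_eq]

theorem ee_bij [Finite O] : Function.Bijective (ee k) := by
  constructor
  · rintro ⟨s, i⟩ ⟨t, j⟩ h
    have hst : s = t := by
      have h1 := ee_mk k ⟨s, i⟩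
      have h2 := ee_mk k ⟨t, j⟩
      rw [h] at h1
      exact h1.symm.trans h2
    subst hst
    congr 1
    have h1 : (k⁻¹ ^ (i : ℕ)) s.out = (k⁻¹ ^ (j : ℕ)) s.out := h
    have h2 : (k ^ (j : ℕ)) s.out = (k ^ (i : ℕ)) s.out := by
      have h3 : (k ^ ((i : ℕ) + j)) ((k⁻¹ ^ (i : ℕ)) s.out) = (k ^ (j : ℕ)) s.out := by
        rw [add_comm, pow_add, Equiv.Perm.mul_apply, inv_pow_pow]
      have h4 : (k ^ ((i : ℕ) + j)) ((k⁻¹ ^ (j : ℕ)) s.out) = (k ^ (i : ℕ)) s.out := by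
        rw [pow_add, Equiv.Perm.mul_apply, inv_pow_pow]
      rw [← h3, ← h4, h1]
    apply Fin.ext
    apply Function.iterate_injOn_Iio_minimalPeriod (f := k) (x := s.out) i.2 j.2
    show k^[(i : ℕ)] s.out = k^[(j : ℕ)] s.out
    rw [Equiv.Perm.iterate_eq_pow, Equiv.Perm.iterate_eq_pow]
    exact h2.symm
  · intro o
    have h1 : Equiv.Perm.SameCycle k
        (Quotient.mk (Equiv.Perm.SameCycle.setoid k) o).out o :=
      Quotient.exact (s := Equiv.Perm.SameCycle.setoid k) (Quotient.out_eq _)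
    set s := Quotient.mk (Equiv.Perm.SameCycle.setoid k) o with hs
    set r := Function.minimalPeriod k s.out with hr
    -- a nonnegative power
    have hn : ∃ q : ℕ, (k ^ q) o = s.out := by
      obtain ⟨q, hq⟩ := (Equiv.Perm.SameCycle.exists_nat_pow_eq (f := k) h1.symm)
      exact ⟨q, hq⟩
    obtain ⟨q, hq⟩ := hn
    refine ⟨⟨s, ⟨q % r, Nat.mod_lt _ (period_pos k _)⟩⟩, ?_⟩
    show (k⁻¹ ^ (q % r)) s.out = o
    rw [inv_pow_mod, inv_pow, Equiv.Perm.inv_eq_iff_eq]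
    exact hq.symm

end cycles

end CYC

open _root_.Pool.Agent.DPC.CYC in
/-- CYC: the trace along the cycles. -/
theorem CYC_thm : Stmt_CYC := by
  classical
  intro O G _ _ _ S θ m M k n hS hm hMk hMD hn
  have hfin : Fintype (Quotient (Equiv.Perm.SameCycle.setoid k)) := Fintype.ofFinite _
  rw [finprod_eq_prod_of_fintype]
  have hper := period_pos k
  have h1 : ∀ s : Quotient (Equiv.Perm.SameCycle.setoid k),
      θ s.out (cyp k n s.out (Function.minimalPeriod k s.out)) =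
      ∑ h ∈ Fintype.piFinset (fun _ : Fin (Function.minimalPeriod k s.out) =>
        Finset.range (m s.out)), ∏ i : Fin (Function.minimalPeriod k s.out),
          M s.out (n (ee k ⟨s, i⟩)) (h i) (h ⟨((i : ℕ) + 1) % Function.minimalPeriod k s.out,
            Nat.mod_lt _ (hper _)⟩) := by
    intro s
    rw [cyp_eq_pr]
    exact trace (hMD s.out) (b := fun i => n ((k⁻¹ ^ i) s.out)) (fun i => by
      have h2 := hn ((k⁻¹ ^ i) s.out)
      rwa [const k S hS] at h2) _ (hper _)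
  rw [Finset.prod_congr rfl fun s _ => h1 s, Finset.prod_univ_sum]
  unfold TH
  set E := Equiv.ofBijective (ee k) (ee_bij k) with hE
  have hEe : ∀ p, E p = ee k p := fun p => rfl
  refine Finset.sum_nbij' (fun f s i => f (ee k ⟨s, i⟩))
    (fun p o => p (E.symm o).1 (E.symm o).2) ?_ ?_ ?_ ?_ ?_
  · intro f hf
    rw [Fintype.mem_piFinset] at hf
    rw [Fintype.mem_piFinset]
    intro s
    rw [Fintype.mem_piFinset]
    intro i
    have h2 := hf (ee k ⟨s, i⟩)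
    have h3 : m (ee k ⟨s, i⟩) = m s.out := const k m hm _ _
    rwa [h3] at h2
  · intro p hp
    rw [Fintype.mem_piFinset] at hp ⊢
    intro o
    have h2 := hp (E.symm o).1
    rw [Fintype.mem_piFinset] at h2
    have h3 := h2 (E.symm o).2
    have h4 : m (E.symm o).1.out = m o := by
      have h5 : m (ee k (E.symm o)) = m (E.symm o).1.out := const k m hm _ _
      rw [← h5, ← hEe, Equiv.apply_symm_apply]
    rwa [h4] at h3
  · intro f _
    funext o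
    show f (ee k (E.symm o)) = f o
    rw [← hEe, Equiv.apply_symm_apply]
  · intro p _
    funext s i
    show p (E.symm (E ⟨s, i⟩)).1 (E.symm (E ⟨s, i⟩)).2 = p s i
    rw [Equiv.symm_apply_apply]
  · intro f _
    rw [← Equiv.prod_comp E, Fintype.prod_sigma]
    refine Finset.prod_congr rfl fun s _ => Finset.prod_congr rfl fun i _ => ?_
    rw [hEe]
    have h2 : M (ee k ⟨s, i⟩) = M s.out := const k M hMk _ _
    have h3 : k⁻¹ (ee k ⟨s, i⟩) = ee k ⟨s, ⟨((i : ℕ) + 1) % Function.minimalPeriod k s.out,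
        Nat.mod_lt _ (hper _)⟩⟩ := by
      show k⁻¹ ((k⁻¹ ^ (i : ℕ)) s.out) =
        (k⁻¹ ^ (((i : ℕ) + 1) % Function.minimalPeriod k s.out)) s.out
      rw [inv_pow_mod, pow_succ', Equiv.Perm.mul_apply]
    rw [h2, h3]

end Pool.Agent.DPC


end
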