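import Mathlib
import Pool.Agent.DAM.C08

/-! Parts: DP.EVAL, DP.EXTBR, DP.MINDR -/

section

/-!
# EVAL: the product formula
-/

set_option linter.unusedSectionVars false

namespace Pool.Agent.DP.EVAL

open Pool.Agent.Lib_helper13 Representation

section

variable {G : Type} [Group G]

theorem ext0_one {S : Subgroup G} (ψ : S → ℂ) : ext0 ψ 1 = ψ 1 :=
  ext0_of_mem ψ S.one_mem

theorem ext0_coe {S : Subgroup G} (ψ : S → ℂ) (x : S) : ext0 ψ (x : G) = ψ x :=
  ext0_of_mem ψ x.2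

theorem ext0_inj {S : Subgroup G} : Function.Injective (fun ψ : S → ℂ => ext0 ψ) := by
  intro ψ ψ' h
  ext x
  rw [← ext0_coe ψ x, ← ext0_coe ψ' x]
  exact congrFun h (x : G)

theorem df_iff [Finite G] {ℓ : ℕ} [Fact ℓ.Prime] {S : Subgroup G} [Fintype S] {ψ : S → ℂ}
    (h : IsIrr ψ) (e : ℕ) : df ℓ S (ext0 ψ) = e ↔ HasDefect ℓ ψ e := by
  obtain ⟨d, hd⟩ := h.exists_defect (ℓ := ℓ)
  have h1 : df ℓ S (ext0 ψ) = d := by
    obtain ⟨n, hn, hv⟩ := hd
    rw [df, ext0_one, hn, Complex.natCast_re, Nat.floor_natCast, hv]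
    omega
  rw [h1]
  exact ⟨fun h2 => h2 ▸ hd, fun h2 => hd.unique h2⟩

theorem cg_eq [Fintype G] (𝔐 : Ideal (integralClosure ℤ ℂ)) {S : Subgroup G} [Fintype S]
    (ψ : S → ℂ) (g : G) : cg 𝔐 (ext0 ψ) g = cen 𝔐 S.subtype ψ g := by
  classical
  rw [cg, cen, wt, ext0_one]
  congr 2
  have h1 : ∑ x : G, conjInd x g * ext0 ψ x =
      ∑ x ∈ Finset.univ.filter (fun x : G => x ∈ S), conjInd x g * ext0 ψ x := by
    symm
    apply Finset.sum_subset (Finset.filter_subset _ _)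
    intro x _ hx
    rw [Finset.mem_filter, not_and] at hx
    rw [ext0_of_not_mem ψ (hx (Finset.mem_univ x)), mul_zero]
  rw [h1, Finset.sum_subtype (p := fun x => x ∈ S) _ (by simp)]
  refine Finset.sum_congr rfl fun y _ => ?_
  rw [ext0_coe]
  rfl

open Classical in
theorem sum_irrOn [Fintype G] (𝔐 : Ideal (integralClosure ℤ ℂ)) {ℓ : ℕ} [Fact ℓ.Prime]
    (S : Subgroup G) (e : ℕ) (b : G → (integralClosure ℤ ℂ) ⧸ 𝔐) :
    ∑ θ ∈ irrOn S, (if df ℓ S θ = e ∧ cg 𝔐 θ = b then (1 : ℚ) else 0) =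
      cnt 𝔐 ℓ e S.subtype b := by
  rw [irrOn, Finset.sum_image (fun _ _ _ _ h => ext0_inj h), ← Finset.sum_filter,
    Finset.sum_const, nsmul_eq_mul, mul_one, cnt]
  congr 1
  symm
  apply Nat.subtype_card
  intro ψ
  rw [Finset.mem_filter, mem_irrF]
  constructor
  · rintro ⟨h1, h2, h3⟩
    refine ⟨h1, (df_iff h1 e).mp h2, fun g => ?_⟩
    rw [← cg_eq, h3]
  · rintro ⟨h1, h2, h3⟩
    refine ⟨h1, (df_iff h1 e).mpr h2, ?_⟩
    ext1 g
    rw [cg_eq, h3]

end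

end Pool.Agent.DP.EVAL

namespace Pool.Agent.DP

open Pool.Agent.Lib_helper13 Representation

open Classical in
theorem EVAL_thm : Stmt_EVAL := by
  intro Q G _ _ _ _ 𝔐 ℓ _ e b
  simp only [KK]
  rw [← sum_closed_prod ℓ (fun w τ => (Nat.card (stb τ) : ℚ) *
    cnt 𝔐 ℓ (e w) (stb τ).subtype (b w))]
  refine Finset.sum_congr rfl fun σ _ => ?_
  congr 1
  rw [Finset.prod_mul_distrib, ← Finset.mul_sum]
  congr 1
  have h1 : ∀ θ : Q → G → ℂ,
      (if ∀ w, df ℓ (stb (comp σ w)) (θ w) = e w ∧ cg 𝔐 (θ w) = b w then (1 : ℚ) else 0) =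
        ∏ w, (if df ℓ (stb (comp σ w)) (θ w) = e w ∧ cg 𝔐 (θ w) = b w then (1 : ℚ) else 0) := by
    intro θ
    rw [Finset.prod_ite_zero]
    simp
  rw [Finset.sum_congr rfl (fun θ _ => h1 θ)]
  rw [← Finset.prod_univ_sum (fun w => irrOn (stb (comp σ w)))
    (fun w θ => (if df ℓ (stb (comp σ w)) θ = e w ∧ cg 𝔐 θ = b w then (1 : ℚ) else 0))]
  refine Finset.prod_congr rfl fun w _ => ?_
  exact EVAL.sum_irrOn 𝔐 (stb (comp σ w)) (e w) (b w)

end Pool.Agent.DP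


end

section

/-!
# EXTB (theorem R): truncation of extensions
-/

namespace Pool.Agent.DP

open Pool.Agent.Lib_helper13 Representation

namespace EXTBR

/-- A representation is irreducible if the character of its restriction is. -/
theorem irr_of_comp {H K : Type*} [Group H] [Group K] [Fintype K] (j : K →* H) {n : ℕ}
    (r : Representation ℂ H (Fin n → ℂ)) (h : IsIrr (fun k => r.character (j k))) :
    r.IsIrreducible := by
  let r' : Representation ℂ K (Fin n → ℂ) := r.comp j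
  have h0 : r'.IsIrreducible := by
    apply irreducible_of_sum
    exact h.sum_self
  refine { exists_pair_ne := ⟨⊥, ⊤, ?_⟩, eq_bot_or_eq_top := ?_ }
  · intro hbt
    obtain ⟨a, b, hab⟩ := h0.exists_pair_ne
    apply hab
    have hz : ∀ x : Fin n → ℂ, x = 0 := by
      intro x
      have hxt : x ∈ (⊤ : Subrepresentation r) := by
        change x ∈ (⊤ : Submodule ℂ (Fin n → ℂ)); trivial
      rw [← hbt] at hxt
      change x ∈ (⊥ : Submodule ℂ (Fin n → ℂ)) at hxt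
      simpa using hxt
    ext x
    rw [hz x]
    exact ⟨fun _ => b.toSubmodule.zero_mem, fun _ => a.toSubmodule.zero_mem⟩
  · intro a
    let a' : Subrepresentation r' := ⟨a.toSubmodule, fun k => a.2 (j k)⟩
    rcases h0.eq_bot_or_eq_top a' with h1 | h1
    · left
      have h2 : a'.toSubmodule = ⊥ := by rw [h1]; rfl
      ext x
      change x ∈ a'.toSubmodule ↔ x ∈ (⊥ : Submodule ℂ (Fin n → ℂ))
      rw [h2]
    · right
      have h2 : a'.toSubmodule = ⊤ := by rw [h1]; rfl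
      ext x
      change x ∈ a'.toSubmodule ↔ x ∈ (⊤ : Submodule ℂ (Fin n → ℂ))
      rw [h2]

/-- Restriction to a subgroup which contains the image of a subgroup with irreducible
restriction. -/
theorem irrOn_trn {G B : Type*} [Group G] [Group B] (ι : G →* B) {A : Subgroup G}
    [Finite A] {S S' : Subgroup B} (hS : S' ≤ S) (hA : ∀ a ∈ A, ι a ∈ S') {f : B → ℂ}
    (hf : IsIrr (fun s : S => f s)) (hψ : IsIrr (fun a : A => f (ι a))) :
    IsIrr (fun s : S' => f s) := by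
  have : Fintype A := Fintype.ofFinite A
  obtain ⟨n, r, hr, hc⟩ := hf
  let r' : Representation ℂ S' (Fin n → ℂ) := r.comp (Subgroup.inclusion hS)
  have hc' : r'.character = fun s : S' => f s := by
    funext s
    exact congrFun hc (Subgroup.inclusion hS s)
  let j : A →* S' := (ι.comp A.subtype).codRestrict S' (fun a => hA a a.2)
  refine ⟨n, r', irr_of_comp j r' ?_, hc'⟩
  rw [hc']
  exact hψ

section

variable {G B C : Type} [Group G] [Fintype G] [Group B] [Group C]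
  {𝔐 : Ideal (integralClosure ℤ ℂ)} {ℓ : ℕ} {ι : G →* B} {κ : B →* MulAut G} {ρ : B →* C}

theorem trn_one {A : Type*} [Zero A] (ρ : B →* C) (L : Subgroup C) (b : B → A) :
    trn ρ L b 1 = b 1 := by
  rw [trn, if_pos]
  rw [map_one]
  exact L.one_mem

theorem trn_mul (ρ : B →* C) (L : Subgroup C) (f : B → ℂ) (lam : C →* ℂˣ) :
    trn ρ L (fun x => f x * ((lam (ρ x) : ℂˣ) : ℂ)) =
      fun x => trn ρ L f x * ((lam (ρ x) : ℂˣ) : ℂ) := by
  funext x
  by_cases h : ρ x ∈ L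
  · rw [trn, if_pos h, trn, if_pos h]
  · rw [trn, if_neg h, trn, if_neg h, zero_mul]

/-- Truncation commutes with the formation of the central functions. -/
theorem cgT_trn [Fintype B] (hs : ClG ι κ ρ) (L : Subgroup C) (f : B → ℂ) :
    cgT 𝔐 ι.range (trn ρ L f) = trn ρ L (cgT 𝔐 ι.range f) := by
  funext g
  have hρ : ∀ x : B, (∃ t ∈ ι.range, x = t * g * t⁻¹) → ρ x = ρ g := by
    rintro x ⟨t, ht, rfl⟩
    have h1 : ρ t = 1 := (hs.ker t).mpr ht
    rw [map_mul, map_mul, map_inv, h1, one_mul, inv_one, mul_one]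
  rw [cgT, trn_one]
  by_cases hg : ρ g ∈ L
  · have h1 : trn ρ L (cgT 𝔐 ι.range f) g = cgT 𝔐 ι.range f g := if_pos hg
    rw [h1, cgT]
    congr 2
    refine Finset.sum_congr rfl fun x _ => ?_
    by_cases hx : ∃ t ∈ ι.range, x = t * g * t⁻¹
    · have h2 : trn ρ L f x = f x := if_pos (by rw [hρ x hx]; exact hg)
      rw [h2]
    · have h2 : cjT ι.range x g = 0 := if_neg hx
      rw [h2, zero_mul, zero_mul]
  · have h1 : trn ρ L (cgT 𝔐 ι.range f) g = 0 := if_neg hg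
    rw [h1]
    have h3 : ∑ x, cjT ι.range x g * trn ρ L f x = 0 := by
      refine Finset.sum_eq_zero fun x _ => ?_
      by_cases hx : ∃ t ∈ ι.range, x = t * g * t⁻¹
      · have h2 : trn ρ L f x = 0 := if_neg (by rw [hρ x hx]; exact hg)
        rw [h2, mul_zero]
      · have h2 : cjT ι.range x g = 0 := if_neg hx
        rw [h2, zero_mul]
    rw [h3, zero_div, red_zero]

/-- Truncations of extensions are extensions. -/
theorem extL_trn (hs : ClG ι κ ρ) {σ : Finset (Subgroup G)} {ψ : G → ℂ} (hψ : IrrOn (stb σ) ψ)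
    {L' L : Subgroup C} (hL : L' ≤ L)
    (hc : (Stx κ σ ψ ⊓ L'.comap ρ).comap ι = stb σ) {f : B → ℂ} (hf : ExtL ι κ ρ σ ψ L f) :
    ExtL ι κ ρ σ ψ L' (trn ρ L' f) := by
  have hι : ∀ h : G, ρ (ι h) = 1 := fun h => (hs.ker _).mpr ⟨h, rfl⟩
  obtain ⟨⟨hirr, h0⟩, he⟩ := hf
  refine ⟨⟨?_, ?_⟩, ?_⟩
  · have h1 : (fun s : (Stx κ σ ψ ⊓ L'.comap ρ : Subgroup B) => trn ρ L' f s) =
        fun s : (Stx κ σ ψ ⊓ L'.comap ρ : Subgroup B) => f s := by
      funext s
      exact if_pos (Subgroup.mem_inf.mp s.2).2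
    rw [h1]
    refine irrOn_trn ι (A := stb σ) (inf_le_inf_left _ (Subgroup.comap_mono hL)) ?_ hirr ?_
    · intro a ha
      rw [← hc] at ha
      exact ha
    · have h2 : (fun a : stb σ => f (ι a)) = fun a : stb σ => ψ a := by
        funext a
        exact he a
      rw [h2]
      exact hψ.1
  · intro x hx
    by_cases hxL : ρ x ∈ L'
    · have h1 : trn ρ L' f x = f x := if_pos hxL
      rw [h1]
      apply h0
      intro hx2
      exact hx (Subgroup.mem_inf.mpr ⟨(Subgroup.mem_inf.mp hx2).1, hxL⟩)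
    · exact if_neg hxL
  · intro h
    have h1 : trn ρ L' f (ι h) = f (ι h) := if_pos (by rw [hι]; exact L'.one_mem)
    rw [h1, he]

theorem mul_inv_lam (f : B → ℂ) (lam : C →* ℂˣ) (ρ : B →* C) :
    (fun x => (f x * ((lam (ρ x) : ℂˣ) : ℂ)) * ((lam⁻¹ (ρ x) : ℂˣ) : ℂ)) = f := by
  funext x
  rw [MonoidHom.inv_apply, mul_assoc, Units.mul_inv, mul_one]

theorem inv_mul_lam (f : B → ℂ) (lam : C →* ℂˣ) (ρ : B →* C) :
    (fun x => (f x * ((lam⁻¹ (ρ x) : ℂˣ) : ℂ)) * ((lam (ρ x) : ℂˣ) : ℂ)) = f := by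
  funext x
  rw [MonoidHom.inv_apply, mul_assoc, Units.inv_mul, mul_one]

end

end EXTBR

open _root_.Pool.Agent.DP.EXTBR in
theorem EXTBR_thm (h1 : Stmt_EXTAR) : Stmt_EXTBR := by
  intro G B C _ _ _ _ _ 𝔐 ℓ _ ι κ ρ hs σ ψ hψ L' L hL
  obtain ⟨hc', -, -, hm', ht', hn'⟩ := h1 G B C ℓ ι κ ρ hs σ ψ hψ L'
  obtain ⟨-, -, hex, hm, ht, hn⟩ := h1 G B C ℓ ι κ ρ hs σ ψ hψ L
  have hT : ∀ f, ExtL ι κ ρ σ ψ L f → ExtL ι κ ρ σ ψ L' (trn ρ L' f) :=
    fun f hf => extL_trn hs.cl hψ hL hc' hf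
  obtain ⟨f0, hf0⟩ := hex
  refine ⟨hT, ?_, ?_⟩
  · -- the fibres of the truncation
    have hlam : ∀ f' : B → ℂ, ∃ lam : C →* ℂˣ, ExtL ι κ ρ σ ψ L' f' →
        f' = fun x => trn ρ L' f0 x * ((lam (ρ x) : ℂˣ) : ℂ) := by
      intro f'
      by_cases hf' : ExtL ι κ ρ σ ψ L' f'
      · obtain ⟨lam, hl⟩ := ht' _ f' (hT f0 hf0) hf'
        exact ⟨lam, fun _ => hl⟩
      · exact ⟨1, fun h => absurd h hf'⟩
    choose lam hlam using hlam
    have key : ∀ P : (B → ℂ) → Prop,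
        Nat.card {f : B → ℂ // ExtL ι κ ρ σ ψ L f ∧ P (trn ρ L' f)} =
          Nat.card {f : B → ℂ // ExtL ι κ ρ σ ψ L' f ∧ P f} *
            Nat.card {f : B → ℂ // ExtL ι κ ρ σ ψ L f ∧ trn ρ L' f = trn ρ L' f0} := by
      intro P
      rw [← Nat.card_prod]
      refine Nat.card_congr
        { toFun := fun f => (⟨trn ρ L' f.1, hT _ f.2.1, f.2.2⟩,
            ⟨fun x => f.1 x * (((lam (trn ρ L' f.1))⁻¹ (ρ x) : ℂˣ) : ℂ),
              hm _ _ f.2.1, ?_⟩)
          invFun := fun p => ⟨fun x => p.2.1 x * ((lam p.1.1 (ρ x) : ℂˣ) : ℂ),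
            hm _ _ p.2.2.1, ?_⟩
          left_inv := ?_
          right_inv := ?_ }
      · rw [trn_mul]
        have h := hlam _ (hT _ f.2.1)
        rw [← mul_inv_lam (trn ρ L' f0) (lam (trn ρ L' f.1)) ρ]
        funext x
        have h2 := congrFun h x
        change trn ρ L' f.1 x * _ = (trn ρ L' f0 x * _) * _
        rw [← h2]
      · rw [trn_mul, p.2.2.2, ← hlam _ p.1.2.1]
        exact p.1.2.2
      · intro f
        apply Subtype.ext
        exact inv_mul_lam f.1 (lam (trn ρ L' f.1)) ρ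
      · intro p
        have h2 : trn ρ L' (fun x => p.2.1 x * ((lam p.1.1 (ρ x) : ℂˣ) : ℂ)) = p.1.1 := by
          rw [trn_mul, p.2.2.2, ← hlam _ p.1.2.1]
        apply Prod.ext
        · apply Subtype.ext
          exact h2
        · apply Subtype.ext
          change (fun x => (p.2.1 x * ((lam p.1.1 (ρ x) : ℂˣ) : ℂ)) *
            (((lam (trn ρ L' (fun x => p.2.1 x * ((lam p.1.1 (ρ x) : ℂˣ) : ℂ))))⁻¹
              (ρ x) : ℂˣ) : ℂ)) = p.2.1
          rw [h2]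
          exact mul_inv_lam p.2.1 (lam p.1.1) ρ
    have hT1 := key (fun _ => True)
    have e1 : Nat.card {f : B → ℂ // ExtL ι κ ρ σ ψ L f ∧ True} = Nat.card (KL κ ρ σ ψ L) := by
      rw [← hn]
      exact Nat.card_congr (Equiv.subtypeEquivRight fun f => iff_of_eq (and_true _))
    have e2 : Nat.card {f : B → ℂ // ExtL ι κ ρ σ ψ L' f ∧ True} =
        Nat.card (KL κ ρ σ ψ L') := by
      rw [← hn']
      exact Nat.card_congr (Equiv.subtypeEquivRight fun f => iff_of_eq (and_true _))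
    rw [e1, e2] at hT1
    intro P
    rw [key P, hT1]
    ring
  · -- the classes
    ext b
    constructor
    · rintro ⟨f', hf', rfl⟩
      obtain ⟨lam, hl⟩ := ht' _ f' (hT f0 hf0) hf'
      refine ⟨cgT 𝔐 ι.range (fun x => f0 x * ((lam (ρ x) : ℂˣ) : ℂ)), ⟨_, hm f0 lam hf0, rfl⟩, ?_⟩
      change trn ρ L' (cgT 𝔐 ι.range (fun x => f0 x * ((lam (ρ x) : ℂˣ) : ℂ))) = _
      rw [← cgT_trn hs.cl, trn_mul, ← hl]
    · rintro ⟨_, ⟨f, hf, rfl⟩, rfl⟩
      exact ⟨trn ρ L' f, hT f hf, (cgT_trn hs.cl L' f).symm⟩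

end Pool.Agent.DP


end

section

set_option linter.unusedSectionVars false

/-!
# Theorem R: module MINDR
-/

namespace Pool.Agent.DP

open Pool.Agent.Lib_helper13 Representation

namespace MINDR

theorem conjInd_class {Y X : Type} [Group Y] [Group X] (i : Y →* X) (x : X) (a y : Y) :
    conjInd (i (a * y * a⁻¹)) x = conjInd (i y) x := by
  rw [map_mul, map_mul, map_inv, conjInd_conj]

/-- Equal central functions: equal counts. -/
theorem core (h1 : Stmt_ASH) (h2 : Stmt_ASC) (O G B C Y K X : Type) [Fintype O] [DecidableEq O]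
    [Group G] [Fintype G] [Group B] [Fintype B] [Group C] [Group Y] [Fintype Y] [Group K]
    [Finite K] [Group X] (𝔐 : Ideal (integralClosure ℤ ℂ)) (ℓ : ℕ) [Fact ℓ.Prime]
    (hM : 𝔐.IsMaximal) (hℓ : (ℓ : integralClosure ℤ ℂ) ∈ 𝔐)
    (ι : G →* B) (κ : B →* MulAut G) (ρ : B →* C) (hloc : LocS ℓ ι κ ρ)
    (j : (O → G) →* Y) (p : Y →* K) (φ : Y →* Gam (Equiv.Perm O) O B) (hext : ExtS ι κ j p φ)
    (J : Subgroup K) (g g' : O → B) (S S' : O → Subgroup B) (θ θ' : O → B → ℂ)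
    (m m' : O → ℕ) (M M' : O → B → ℕ → ℕ → ℂ)
    (hS : SDR ℓ ι ρ p φ J g S θ m M) (hS' : SDR ℓ ι ρ p φ J g' S' θ' m' M')
    (hg : ∀ o, ρ (g' o) = ρ (g o)) (hc : ∀ o, cgT 𝔐 ι.range (θ o) = cgT 𝔐 ι.range (θ' o))
    (d e : ℕ) (i : Y →* X) (ω : X → (integralClosure ℤ ℂ) ⧸ 𝔐) :
    NNR 𝔐 ℓ d i ω p φ J e g' S' θ' m' M' = NNR 𝔐 ℓ d i ω p φ J e g S θ m M := by
  have hAS : ∀ (k : J) (x : X),
      IsIntegral ℤ (AS p φ g S θ m M (k : K) (fun y => conjInd (i y) x)) ∧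
      IsIntegral ℤ (AS p φ g' S' θ' m' M' (k : K) (fun y => conjInd (i y) x)) ∧
      red 𝔐 (AS p φ g S θ m M (k : K) (fun y => conjInd (i y) x)) =
      red 𝔐 (AS p φ g' S' θ' m' M' (k : K) (fun y => conjInd (i y) x)) := by
    intro k x
    exact h1 O G B C Y K 𝔐 ℓ hM hℓ ι κ ρ hloc j p φ hext J g g' S S' θ θ' m m' M M' hS hS'
      hg hc (k : K) k.2 (fun y => conjInd (i y) x) (fun a y => conjInd_class i x a y)
      (fun y => isIntegral_conjInd _ _)
  have hcl : ∀ (x : X) (l k : J),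
      AS p φ g S θ m M ((l * k * l⁻¹ : J) : K) (fun y => conjInd (i y) x) =
      AS p φ g S θ m M (k : K) (fun y => conjInd (i y) x) := by
    intro x l k
    exact h2 O G B C Y K ℓ ι κ ρ hloc j p φ hext J g S θ m M hS (k : K) k.2 (l : K) l.2
      (fun y => conjInd (i y) x) (fun a y => conjInd_class i x a y)
  have hcl' : ∀ (x : X) (l k : J),
      AS p φ g' S' θ' m' M' ((l * k * l⁻¹ : J) : K) (fun y => conjInd (i y) x) =
      AS p φ g' S' θ' m' M' (k : K) (fun y => conjInd (i y) x) := by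
    intro x l k
    exact h2 O G B C Y K ℓ ι κ ρ hloc j p φ hext J g' S' θ' m' M' hS' (k : K) k.2 (l : K) l.2
      (fun y => conjInd (i y) x) (fun a y => conjInd_class i x a y)
  have hprime : 𝔐.IsPrime := hM.isPrime
  have key : ∀ (η : J → ℂ), IsIrr η → ∀ x : X,
      red 𝔐 (wt η (fun k => AS p φ g S θ m M (k : K) (fun y => conjInd (i y) x))) =
      red 𝔐 (wt η (fun k => AS p φ g' S' θ' m' M' (k : K) (fun y => conjInd (i y) x))) := by
    intro η hη x
    exact red_wt_eq 𝔐 hℓ hη (⊥ : Subgroup J) IsPGroup.of_bot _ _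
      (fun l k => hcl x l k) (fun k => (hAS k x).1) (fun l k => hcl' x l k)
      (fun k => (hAS k x).2.1) (fun k _ => (hAS k x).2.2)
  have hset : ∀ η : J → ℂ,
      (IsIrr η ∧ (∃ d', HasDefect ℓ η d' ∧ e + d' = d) ∧
        ∀ x, red 𝔐 (wt η (fun k => AS p φ g' S' θ' m' M' (k : K)
          (fun y => conjInd (i y) x))) = ω x) ↔
      (IsIrr η ∧ (∃ d', HasDefect ℓ η d' ∧ e + d' = d) ∧
        ∀ x, red 𝔐 (wt η (fun k => AS p φ g S θ m M (k : K)
          (fun y => conjInd (i y) x))) = ω x) := by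
    intro η
    constructor
    · rintro ⟨ha, hb, hc⟩
      exact ⟨ha, hb, fun x => (key η ha x).trans (hc x)⟩
    · rintro ⟨ha, hb, hc⟩
      exact ⟨ha, hb, fun x => (key η ha x).symm.trans (hc x)⟩
  unfold NNR
  rw [Nat.card_congr (Equiv.subtypeEquivRight hset)]

end MINDR

theorem MINDR_thm (h1 : Stmt_ASH) (h2 : Stmt_ASC) (h3 : Stmt_TWR) : Stmt_MINDR := by
  classical
  intro O G B C Y K X _ _ _ _ _ _ _ _ _ _ _ _ 𝔐 ℓ _ hM hℓ ι κ ρ hloc j p φ hext J g g' S S'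
    θ θ' m m' M M' hS hS' hg hlam d e i ω
  -- a choice of the twist which depends only on the two characters
  let Lm : (B → ℂ) → (B → ℂ) → (C →* ℂˣ) := fun f f' =>
    if h : ∃ lam : C →* ℂˣ, cgT 𝔐 ι.range f' =
      cgT 𝔐 ι.range (fun x => f x * ((lam (ρ x) : ℂˣ) : ℂ)) then h.choose else 1
  have hLm : ∀ o, cgT 𝔐 ι.range (θ' o) =
      cgT 𝔐 ι.range (fun x => θ o x * ((Lm (θ o) (θ' o) (ρ x) : ℂˣ) : ℂ)) := by
    intro o
    have h := hlam o
    simp only [Lm, dif_pos h]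
    exact h.choose_spec
  obtain ⟨hS1, hN⟩ := h3 O G B C Y K X 𝔐 ℓ ι κ ρ hloc j p φ hext J g S θ m M hS
    (fun o => Lm (θ o) (θ' o)) (by
      intro y hy o
      show Lm (θ ((φ y).right • o)) (θ' ((φ y).right • o)) = Lm (θ o) (θ' o)
      rw [hS.cθ y hy o, hS'.cθ y hy o])
  rw [← hN d e i ω]
  exact MINDR.core h1 h2 O G B C Y K X 𝔐 ℓ hM hℓ ι κ ρ hloc j p φ hext J g g' S S' _ θ' m m' _ M'
    hS1 hS' hg (fun o => (hLm o).symm) d e i ω

end Pool.Agent.DP


end
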