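import Mathlib
import Pool.Agent.DAM.C10
import Pool.Agent.DAM.C12
import Pool.Agent.DAM.C19
import Pool.Agent.DAM.C46

/-! Parts: DPC.LTIC, DPC.EXTAR -/

section

/-!
# LTIC: conjugacy under `T_L` and under `G`
-/

namespace Pool.Agent.DPC

open Pool.Agent.DP Pool.Agent.Lib_helper13 Representation
open Pool.Agent.Lib_helper13.Dade (pCore DadeHolds dadeSum)

namespace LTIC

/-! ### The monoid of integral class functions -/

section Icf

variable {H : Type*} [Group H] [Fintype H]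

theorem cv_assoc (f f' f'' : H → ℂ) (x : H) : cv (cv f f') f'' x = cv f (cv f' f'') x := by
  simp only [cv, Finset.sum_mul, Finset.mul_sum]
  rw [Finset.sum_comm]
  refine Finset.sum_congr rfl fun z _ => ?_
  rw [← Equiv.sum_comp (Equiv.mulLeft z)
    (fun y => f z * f' (z⁻¹ * y) * f'' (y⁻¹ * x))]
  refine Finset.sum_congr rfl fun w _ => ?_
  simp only [Equiv.coe_mulLeft, mul_inv_rev, inv_mul_cancel_left, mul_assoc]

theorem cv_comm {f f' : H → ℂ} (hf : ∀ g x, f (g * x * g⁻¹) = f x) (x : H) :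
    cv f f' x = cv f' f x := by
  simp only [cv]
  rw [← Equiv.sum_comp ((Equiv.inv H).trans (Equiv.mulLeft x)) (fun y => f y * f' (y⁻¹ * x))]
  refine Finset.sum_congr rfl fun w _ => ?_
  simp only [Equiv.trans_apply, Equiv.inv_apply, Equiv.coe_mulLeft, mul_inv_rev, inv_inv]
  have h1 : f (x * w⁻¹) = f (w⁻¹ * x) := by
    have h2 := hf w⁻¹ (x * w⁻¹)
    rw [← h2]
    congr 1
    group
  have h3 : w * x⁻¹ * x = w := by group
  rw [h1, h3, mul_comm]

theorem dl_cv (f : H → ℂ) (x : H) : cv dl f x = f x := by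
  classical
  rw [cv, Finset.sum_eq_single 1]
  · simp [dl]
  · intro y _ hy
    simp [dl, hy]
  · simp

variable (H) in
/-- Integral class functions. -/
structure Icf where
  fn : H → ℂ
  cl : ∀ g x, fn (g * x * g⁻¹) = fn x
  int : ∀ x, IsIntegral ℤ (fn x)

omit [Fintype H] in
theorem Icf.ext' {a b : Icf H} (h : ∀ x, a.fn x = b.fn x) : a = b := by
  cases a
  cases b
  congr 1
  exact funext h

noncomputable instance : CommMonoid (Icf H) where
  mul a b := ⟨cv a.fn b.fn, cv_conj a.cl b.cl, isIntegral_cv a.int b.int⟩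
  one := ⟨dl, dl_conj, isIntegral_dl⟩
  mul_assoc a b c := Icf.ext' fun x => cv_assoc a.fn b.fn c.fn x
  one_mul a := Icf.ext' fun x => dl_cv a.fn x
  mul_one a := Icf.ext' fun x => (cv_comm a.cl x).trans (dl_cv a.fn x)
  mul_comm a b := Icf.ext' fun x => cv_comm a.cl x

theorem fn_mul (a b : Icf H) : (a * b).fn = cv a.fn b.fn := rfl

theorem fn_one : (1 : Icf H).fn = dl := rfl

theorem cv_equiv (e : H ≃* H) (f f' : H → ℂ) (x : H) :
    cv (fun y => f (e y)) (fun y => f' (e y)) x = cv f f' (e x) := by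
  simp only [cv]
  rw [← Equiv.sum_comp e.toEquiv (fun y => f y * f' (y⁻¹ * e x))]
  refine Finset.sum_congr rfl fun y _ => ?_
  simp

omit [Fintype H] in
theorem dl_equiv (e : H ≃* H) (x : H) : dl (e x) = dl x := by
  classical
  rw [dl, dl]
  congr 1
  rw [EmbeddingLike.map_eq_one_iff]

/-- Composition with an automorphism. -/
noncomputable def pull (e : H ≃* H) : Icf H →* Icf H where
  toFun a := ⟨fun x => a.fn (e x), fun g x => by
    rw [map_mul, map_mul, map_inv]; exact a.cl _ _, fun x => a.int _⟩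
  map_one' := Icf.ext' fun x => dl_equiv e x
  map_mul' a b := Icf.ext' fun x => (cv_equiv e a.fn b.fn x).symm

theorem pull_apply (e : H ≃* H) (a : Icf H) (x : H) : (pull e a).fn x = a.fn (e x) := rfl

end Icf

/-! ### Expansion in class indicators -/

section Expand

variable {G B C : Type} [Group G] [Fintype G] [Group B] [Fintype B] [Group C]
  {ι : G →* B} {κ : B →* MulAut G} {ρ : B →* C}

/-- Conjugacy under `T`. -/
def stT (T : Subgroup B) : Setoid B where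
  r x y := ∃ t ∈ T, x = t * y * t⁻¹
  iseqv := by
    refine ⟨fun x => ⟨1, T.one_mem, by simp⟩, ?_, ?_⟩
    · rintro x y ⟨t, ht, rfl⟩
      exact ⟨t⁻¹, T.inv_mem ht, by group⟩
    · rintro x y z ⟨t, ht, rfl⟩ ⟨s, hs, rfl⟩
      exact ⟨t * s, T.mul_mem ht hs, by group⟩

theorem isIntegral_cjT (T : Subgroup B) (x g : B) : IsIntegral ℤ (cjT T x g) := by
  classical
  unfold cjT
  split_ifs
  · exact isIntegral_one
  · exact isIntegral_zero

/-- Integrality of the central characters with respect to `T ≥ G`. -/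
theorem isIntegral_cj (h : ClG ι κ ρ) (T : Subgroup B) (hT : ι.range ≤ T) {S : Subgroup B}
    {f : B → ℂ} (hf : IrrOn S f) (hf' : IrrOn (S.comap ι) (fun h => f (ι h))) (g : B) :
    IsIntegral ℤ ((∑ x, cjT T x g * f x) / f 1) := by
  refine INTH_thm G B C ι κ ρ h S f hf hf' (fun x => cjT T x g) (fun x => isIntegral_cjT T x g) ?_
  intro a x
  exact LTI.cjT_left T (hT ⟨a, rfl⟩) x g

/-- The central functions with respect to `T` determine the weights of the functions which are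
invariant under `T`. -/
theorem red_sum_eq (𝔐 : Ideal (integralClosure ℤ ℂ)) (h : ClG ι κ ρ) (T : Subgroup B)
    (hT : ι.range ≤ T) {S S' : Subgroup B} {f f' : B → ℂ} (hf : IrrOn S f)
    (hf1 : IrrOn (S.comap ι) (fun h => f (ι h))) (hf' : IrrOn S' f')
    (hf1' : IrrOn (S'.comap ι) (fun h => f' (ι h))) (he : cgT 𝔐 T f = cgT 𝔐 T f')
    (F : B → ℂ) (hF : ∀ x, IsIntegral ℤ (F x)) (hFT : ∀ t ∈ T, ∀ x, F (t * x * t⁻¹) = F x) :
    red 𝔐 ((∑ x, F x * f x) / f 1) = red 𝔐 ((∑ x, F x * f' x) / f' 1) := by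
  classical
  let st : Setoid B := stT T
  have hexp : ∀ x, F x = ∑ q : Quotient st, F q.out * cjT T x q.out := by
    intro x
    rw [Finset.sum_eq_single (Quotient.mk st x)]
    · have h1 : st x (Quotient.mk st x).out := st.symm (Quotient.mk_out x)
      obtain ⟨t, ht, hx⟩ := h1
      have h2 : cjT T x (Quotient.mk st x).out = 1 := if_pos ⟨t, ht, hx⟩
      rw [h2, mul_one]
      conv_lhs => rw [hx]
      rw [hFT t ht]
    · intro q _ hq
      have h2 : cjT T x q.out = 0 := by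
        refine if_neg fun hx => hq ?_
        have h3 : st x q.out := hx
        have h4 : Quotient.mk st x = Quotient.mk st q.out := Quotient.sound h3
        rw [Quotient.out_eq] at h4
        exact h4.symm
      rw [h2, mul_zero]
    · simp
  have key : ∀ {S : Subgroup B} {f : B → ℂ}, IrrOn S f →
      IrrOn (S.comap ι) (fun h => f (ι h)) →
      red 𝔐 ((∑ x, F x * f x) / f 1) = ∑ q : Quotient st, red 𝔐 (F q.out) * cgT 𝔐 T f q.out := by
    intro S f hf hf1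
    have h1 : (∑ x, F x * f x) / f 1 =
        ∑ q : Quotient st, F q.out * ((∑ x, cjT T x q.out * f x) / f 1) := by
      have h2 : ∑ x, F x * f x = ∑ q : Quotient st, F q.out * ∑ x, cjT T x q.out * f x := by
        have h3 : ∀ x, F x * f x = ∑ q : Quotient st, F q.out * (cjT T x q.out * f x) := by
          intro x
          conv_lhs => rw [hexp x]
          rw [Finset.sum_mul]
          exact Finset.sum_congr rfl fun q _ => by ring
        rw [Finset.sum_congr rfl fun x _ => h3 x, Finset.sum_comm]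
        exact Finset.sum_congr rfl fun q _ => (Finset.mul_sum _ _ _).symm
      rw [h2, Finset.sum_div]
      exact Finset.sum_congr rfl fun q _ => by ring
    rw [h1, red_sum]
    · refine Finset.sum_congr rfl fun q _ => ?_
      rw [red_mul 𝔐 (hF _) (isIntegral_cj h T hT hf hf1 _)]
      rfl
    · intro q _
      exact (hF _).mul (isIntegral_cj h T hT hf hf1 _)
  rw [key hf hf1, key hf' hf1', he]

end Expand

/-! ### The characters of the stabilizers in `T1` -/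

section Main

variable {G B C : Type} [Group G] [Fintype G] [Group B] [Fintype B] [Group C]
  {ι : G →* B} {κ : B →* MulAut G} {ρ : B →* C}

theorem range_le (h : ClG ι κ ρ) (L : Subgroup C) : ι.range ≤ L.comap ρ := by
  rw [← LTI.ker_eq h]
  intro x hx
  rw [Subgroup.mem_comap, MonoidHom.mem_ker.1 hx]
  exact L.one_mem

theorem decomp (h : ClG ι κ ρ) {σ : Finset (Subgroup G)} {ψ : G → ℂ} {L : Subgroup C}
    (hL : L ≤ (Stx κ σ ψ).map ρ) {t : B} (ht : ρ t ∈ L) :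
    ∃ s ∈ Stx κ σ ψ ⊓ L.comap ρ, ∃ n ∈ ι.range, t = s * n := by
  obtain ⟨b, hb, hbt⟩ := hL ht
  refine ⟨b, ⟨hb, ?_⟩, b⁻¹ * t, ?_, by group⟩
  · change ρ b ∈ L
    rw [hbt]
    exact ht
  · rw [← LTI.ker_eq h, MonoidHom.mem_ker, map_mul, map_inv, hbt, inv_mul_cancel]

theorem mem_Stx_of (h : ClG ι κ ρ) {σ : Finset (Subgroup G)} {ψ : G → ℂ}
    (hψ : IrrOn (stb σ) ψ) {L : Subgroup C} (hL : L ≤ (Stx κ σ ψ).map ρ) {b : B} (hb : ρ b ∈ L)
    (hσ : ∀ D ∈ σ, D.map (κ b).toMonoidHom = D) : b ∈ Stx κ σ ψ := by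
  obtain ⟨s, hs, n, ⟨a, rfl⟩, rfl⟩ := decomp h hL hb
  refine mul_mem hs.1 ?_
  have ha : a ∈ stb σ := by
    rw [mem_stb]
    intro D hD
    have h1 : (κ (s * ι a)).toMonoidHom = (κ s).toMonoidHom.comp (κ (ι a)).toMonoidHom := by
      ext g
      simp
    have h2 := hσ D hD
    rw [h1, ← Subgroup.map_map] at h2
    have h3 : (D.map (κ (ι a)).toMonoidHom).map (κ s).toMonoidHom = D.map (κ s).toMonoidHom := by
      rw [h2, hs.1.1 D hD]
    have h4 := Subgroup.map_injective (f := (κ s).toMonoidHom) (κ s).injective h3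
    have h5 : (κ (ι a)).toMonoidHom = (MulAut.conj a).toMonoidHom := by
      ext x
      exact LTI.kappa_iota h a x
    rw [← h5]
    exact h4
  rw [← LTI.comap_eq h hψ L] at ha
  exact ha.1

variable (ι) in
/-- The embedding in the group `T1`. -/
def iT (T1 : Subgroup B) (hT1 : ι.range ≤ T1) : G →* T1 :=
  ι.codRestrict T1 fun a => hT1 ⟨a, rfl⟩

omit [Fintype G] [Fintype B] in
theorem iT_inj (h : ClG ι κ ρ) {T1 : Subgroup B} (hT1 : ι.range ≤ T1) :
    Function.Injective (iT ι T1 hT1) := by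
  intro a b hab
  exact h.inj (congrArg Subtype.val hab)

theorem mem_S1 (h : ClG ι κ ρ) {σ : Finset (Subgroup G)} {ψ : G → ℂ}
    (hψ : IrrOn (stb σ) ψ) {L : Subgroup C} (hL : L ≤ (Stx κ σ ψ).map ρ) {T1 : Subgroup B}
    (hT1 : ι.range ≤ T1) (hT1L : T1 ≤ L.comap ρ) (x : T1) :
    x ∈ stb (mapCh (iT ι T1 hT1) σ) ↔ (x : B) ∈ Stx κ σ ψ := by
  have h1 : ∀ D : Subgroup G, (D.map (iT ι T1 hT1)).map (MulAut.conj x).toMonoidHom =
      (D.map (κ (x : B)).toMonoidHom).map (iT ι T1 hT1) := by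
    intro D
    rw [Subgroup.map_map, Subgroup.map_map]
    congr 1
    ext a
    exact (h.act (x : B) a).symm
  have h2 : x ∈ stb (mapCh (iT ι T1 hT1) σ) ↔
      ∀ D ∈ σ, D.map (κ (x : B)).toMonoidHom = D := by
    rw [mem_stb]
    constructor
    · intro h3 D hD
      have h4 := h3 _ (mem_mapCh.mpr ⟨D, hD, rfl⟩)
      rw [h1] at h4
      exact Subgroup.map_injective (iT_inj h hT1) h4
    · intro h3 E hE
      obtain ⟨D, hD, rfl⟩ := mem_mapCh.mp hE
      rw [h1, h3 D hD]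
  rw [h2]
  exact ⟨fun h3 => mem_Stx_of h hψ hL (hT1L x.2) h3, fun h3 => h3.1⟩

/-- The restriction to the stabilizer in `T1` is irreducible. -/
theorem irr_S1 (h : ClG ι κ ρ) {σ : Finset (Subgroup G)} {ψ : G → ℂ}
    (hψ : IrrOn (stb σ) ψ) {L : Subgroup C} (hL : L ≤ (Stx κ σ ψ).map ρ) {T1 : Subgroup B}
    (hT1 : ι.range ≤ T1) (hT1L : T1 ≤ L.comap ρ) {f : B → ℂ} (hf : ExtL ι κ ρ σ ψ L f) :
    IsIrr (fun s : stb (mapCh (iT ι T1 hT1) σ) => f ((s : T1) : B)) := by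
  obtain ⟨n, r, hr, hc⟩ := hf.1.1
  have hmem : ∀ s : stb (mapCh (iT ι T1 hT1) σ), ((s : T1) : B) ∈ Stx κ σ ψ ⊓ L.comap ρ :=
    fun s => ⟨(mem_S1 h hψ hL hT1 hT1L (s : T1)).1 s.2, hT1L (s : T1).2⟩
  let j : stb (mapCh (iT ι T1 hT1) σ) →* (Stx κ σ ψ ⊓ L.comap ρ : Subgroup B) :=
    (T1.subtype.comp (stb (mapCh (iT ι T1 hT1) σ)).subtype).codRestrict _ hmem
  let r' : Representation ℂ (stb (mapCh (iT ι T1 hT1) σ)) (Fin n → ℂ) := r.comp j
  have hc' : r'.character = fun s : stb (mapCh (iT ι T1 hT1) σ) => f ((s : T1) : B) := by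
    funext s
    exact congrFun hc (j s)
  have hmem2 : ∀ a : stb σ, iT ι T1 hT1 a ∈ stb (mapCh (iT ι T1 hT1) σ) := by
    intro a
    rw [mem_S1 h hψ hL hT1 hT1L]
    have ha : (a : G) ∈ (Stx κ σ ψ ⊓ L.comap ρ).comap ι := by
      rw [LTI.comap_eq h hψ L]
      exact a.2
    exact ha.1
  let k : stb σ →* stb (mapCh (iT ι T1 hT1) σ) :=
    ((iT ι T1 hT1).comp (stb σ).subtype).codRestrict _ hmem2
  refine ⟨n, r', EXTBR.irr_of_comp k r' ?_, hc'⟩
  rw [hc']
  have h2 : (fun a : stb σ => f (((k a : stb (mapCh (iT ι T1 hT1) σ)) : T1) : B)) =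
      fun a : stb σ => ψ a := by
    funext a
    exact hf.2 a
  exact h2 ▸ hψ.1

theorem sum_T1 (h : ClG ι κ ρ) {σ : Finset (Subgroup G)} {ψ : G → ℂ}
    (hψ : IrrOn (stb σ) ψ) {L : Subgroup C} (hL : L ≤ (Stx κ σ ψ).map ρ) {T1 : Subgroup B}
    (hT1 : ι.range ≤ T1) (hT1L : T1 ≤ L.comap ρ) {f : B → ℂ} (hf : ExtL ι κ ρ σ ψ L f)
    (F : T1 → ℂ) : (∑ x : T1, F x * f x) / f 1 =
      wt (fun s : stb (mapCh (iT ι T1 hT1) σ) => f ((s : T1) : B)) (fun s => F (s : T1)) := by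
  rw [wt, INTH.sum_restrict (stb (mapCh (iT ι T1 hT1) σ)) F (fun x : T1 => f x)]
  · rfl
  · intro x hx
    apply hf.1.2
    rintro ⟨h1, -⟩
    exact hx ((mem_S1 h hψ hL hT1 hT1L x).2 h1)

/-- The reduced weights as a homomorphism. -/
theorem exists_lam (𝔐 : Ideal (integralClosure ℤ ℂ)) [h𝔐 : 𝔐.IsPrime] {ℓ : ℕ} [Fact ℓ.Prime]
    (hℓ : (ℓ : integralClosure ℤ ℂ) ∈ 𝔐) (h : ClG ι κ ρ) {σ : Finset (Subgroup G)} {ψ : G → ℂ}
    (hσ : IsCh ℓ ⊥ σ)
    (hψ : IrrOn (stb σ) ψ) {L : Subgroup C} (hL : L ≤ (Stx κ σ ψ).map ρ) {T1 : Subgroup B}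
    (hT1 : ι.range ≤ T1) (hT1L : T1 ≤ L.comap ρ) {f : B → ℂ} (hf : ExtL ι κ ρ σ ψ L f) :
    (∀ a : Icf T1, IsIntegral ℤ ((∑ x : T1, a.fn x * f x) / f 1)) ∧
    ∃ lam : Icf T1 →* (integralClosure ℤ ℂ) ⧸ 𝔐,
      ∀ a : Icf T1, lam a = red 𝔐 ((∑ x : T1, a.fn x * f x) / f 1) := by
  have hirr := irr_S1 h hψ hL hT1 hT1L hf
  have hm : MultOn 𝔐 (fun s : stb (mapCh (iT ι T1 hT1) σ) => f ((s : T1) : B)) ⊤ :=
    exists_irr_of_chain 𝔐 hℓ ((isCh_mapCh_iff (iT_inj h hT1)).2 hσ) hirr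
  constructor
  · intro a
    rw [sum_T1 h hψ hL hT1 hT1L hf]
    exact isIntegral_wt hirr _ (fun g x => a.cl _ _) (fun y => a.int _)
  · refine ⟨
      { toFun := fun a => red 𝔐 ((∑ x : T1, a.fn x * f x) / f 1)
        map_one' := ?_
        map_mul' := ?_ }, fun a => rfl⟩
    · rw [sum_T1 h hψ hL hT1 hT1L hf, fn_one, wt_dl hirr, red_one]
    · intro a b
      rw [sum_T1 h hψ hL hT1 hT1L hf, sum_T1 h hψ hL hT1 hT1L hf, sum_T1 h hψ hL hT1 hT1L hf,
        fn_mul]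
      exact red_wt_cv 𝔐 hirr hm a.cl b.cl a.int b.int

/-- Invariance of the weights. -/
theorem sum_pull (h : ClG ι κ ρ) {σ : Finset (Subgroup G)} {ψ : G → ℂ}
    {L : Subgroup C} (hL : L ≤ (Stx κ σ ψ).map ρ) {T1 : Subgroup B} [T1.Normal]
    (hT1 : ι.range ≤ T1) {f : B → ℂ} (hf : ExtL ι κ ρ σ ψ L f)
    {t : B} (ht : ρ t ∈ L) (a : Icf T1) :
    ∑ x : T1, (pull (MulAut.conjNormal t) a).fn x * f x = ∑ x : T1, a.fn x * f x := by
  obtain ⟨s, hs, n, hn, hst⟩ := decomp h hL (t := t⁻¹) (by rw [map_inv]; exact L.inv_mem ht)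
  have htn : t = n⁻¹ * s⁻¹ := by rw [← inv_inv t, hst, mul_inv_rev]
  have h1 : ∀ x : T1, (pull (MulAut.conjNormal t) a).fn x =
      a.fn (MulAut.conjNormal s⁻¹ x) := by
    intro x
    rw [pull_apply]
    have h2 : MulAut.conjNormal t x = (⟨n⁻¹, T1.inv_mem (hT1 hn)⟩ : T1) *
        (MulAut.conjNormal s⁻¹ x) * (⟨n⁻¹, T1.inv_mem (hT1 hn)⟩ : T1)⁻¹ := by
      apply Subtype.ext
      simp only [MulAut.conjNormal_apply, Subgroup.coe_mul, Subgroup.coe_inv]
      rw [htn]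
      group
    rw [h2, a.cl]
  rw [Finset.sum_congr rfl fun x _ => by rw [h1 x],
    ← Equiv.sum_comp (MulAut.conjNormal (H := T1) s⁻¹).toEquiv (fun y : T1 => a.fn y * f y)]
  refine Finset.sum_congr rfl fun x _ => ?_
  have h3 : ((((MulAut.conjNormal (H := T1) s⁻¹).toEquiv x : T1)) : B) = s⁻¹ * x * s⁻¹⁻¹ :=
    MulAut.conjNormal_apply _ _
  rw [h3, LTI.conj_inv hf.1 (inv_mem hs)]
  rfl

theorem irrOn_comap (h : ClG ι κ ρ) {σ : Finset (Subgroup G)} {ψ : G → ℂ}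
    (hψ : IrrOn (stb σ) ψ) {L : Subgroup C} {f : B → ℂ} (hf : ExtL ι κ ρ σ ψ L f) :
    IrrOn ((Stx κ σ ψ ⊓ L.comap ρ).comap ι) (fun h => f (ι h)) := by
  rw [LTI.comap_eq h hψ L]
  have : (fun h => f (ι h)) = ψ := funext hf.2
  rw [this]
  exact hψ

/-- The central functions with respect to `G` vanish outside the inverse image of `L`. -/
theorem cgT_out (𝔐 : Ideal (integralClosure ℤ ℂ)) (h : ClG ι κ ρ) {σ : Finset (Subgroup G)}
    {ψ : G → ℂ} {L : Subgroup C} {f : B → ℂ} (hf : ExtL ι κ ρ σ ψ L f) {g : B}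
    (hg : ρ g ∉ L) : cgT 𝔐 ι.range f g = 0 := by
  have h1 : ∑ x, cjT ι.range x g * f x = 0 := by
    refine Finset.sum_eq_zero fun x _ => ?_
    by_cases hx : ∃ t ∈ ι.range, x = t * g * t⁻¹
    · obtain ⟨t, ht, rfl⟩ := hx
      have h2 : ρ t = 1 := (h.ker t).mpr ht
      rw [hf.1.2 (t * g * t⁻¹), mul_zero]
      rintro ⟨-, h3⟩
      apply hg
      have h4 : ρ (t * g * t⁻¹) ∈ L := h3
      rwa [map_mul, map_mul, map_inv, h2, one_mul, inv_one, mul_one] at h4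
    · have h2 : cjT ι.range x g = 0 := if_neg hx
      rw [h2, zero_mul]
  rw [cgT, h1, zero_div, red_zero]

theorem comm_of_cyclic (hC : IsCyclic C) (a b : C) : a * b = b * a := by
  obtain ⟨c, hc⟩ := hC.exists_generator
  obtain ⟨m, rfl⟩ := Subgroup.mem_zpowers_iff.1 (hc a)
  obtain ⟨n, rfl⟩ := Subgroup.mem_zpowers_iff.1 (hc b)
  rw [← zpow_add, ← zpow_add, add_comm]

end Main

end LTIC

open _root_.Pool.Agent.DPC.LTIC in
theorem LTIC_thm : Stmt_LTIC := by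
  classical
  intro G B C _ _ _ _ _ 𝔐 ℓ _ ι κ ρ hW hmax hℓ L σ σ' ψ ψ' f f' hσ hσ' hψ hψ' hL hL' hf hf'
  have h := hW.cl
  have hprime : 𝔐.IsPrime := hmax.isPrime
  have hN : ι.range.Normal := by
    rw [← LTI.ker_eq h]
    infer_instance
  constructor
  · intro he
    by_contra hne
    obtain ⟨g, hg⟩ := Function.ne_iff.1 hne
    have hgL : ρ g ∈ L := by
      by_contra hgL
      exact hg ((cgT_out 𝔐 h hf hgL).trans (cgT_out 𝔐 h hf' hgL).symm)
    -- the group `T1`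
    obtain ⟨T1, hT1def⟩ : ∃ T1 : Subgroup B, T1 = (Subgroup.zpowers (ρ g)).comap ρ := ⟨_, rfl⟩
    have hT1mem : ∀ x : B, x ∈ T1 ↔ ρ x ∈ Subgroup.zpowers (ρ g) := by
      intro x
      rw [hT1def]
      rfl
    have hT1 : ι.range ≤ T1 := by rw [hT1def]; exact range_le h _
    have hT1L : T1 ≤ L.comap ρ := by
      rw [hT1def]
      refine Subgroup.comap_mono ?_
      rw [Subgroup.zpowers_le]
      exact hgL
    have hT1n : T1.Normal := by
      refine ⟨fun x hx b => ?_⟩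
      rw [hT1def, Subgroup.mem_comap] at hx ⊢
      rw [map_mul, map_mul, map_inv, comm_of_cyclic hW.cyc (ρ b) (ρ x), mul_assoc,
        mul_inv_cancel, mul_one]
      exact hx
    have hgT1 : g ∈ T1 := by
      rw [hT1def]
      exact Subgroup.mem_zpowers _
    -- the two homomorphisms
    obtain ⟨-, lam, hlam⟩ := exists_lam 𝔐 hℓ h hσ hψ hL hT1 hT1L hf
    obtain ⟨-, lam', hlam'⟩ := exists_lam 𝔐 hℓ h hσ' hψ' hL' hT1 hT1L hf'
    -- the class of `g`
    have hcls : ∀ F : B → ℂ, ∑ x : T1, conjInd x (⟨g, hgT1⟩ : T1) * F x =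
        ∑ x, cjT ι.range x g * F x := by
      intro F
      have h1 : ∑ x, cjT ι.range x g * F x = ∑ x, F x * cjT ι.range x g :=
        Finset.sum_congr rfl fun x _ => mul_comm _ _
      rw [h1, INTH.sum_restrict T1 F (fun x => cjT ι.range x g)]
      · refine Finset.sum_congr rfl fun x _ => ?_
        rw [mul_comm]
        congr 1
        unfold conjInd cjT
        have hiff : IsConj x (⟨g, hgT1⟩ : T1) ↔ ∃ t ∈ ι.range, (x : B) = t * g * t⁻¹ := by
          rw [isConj_iff]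
          constructor
          · rintro ⟨c, hc⟩
            have hc' : (c : B) * x * (c : B)⁻¹ = g := congrArg Subtype.val hc
            have hcm : ρ ((c : B)⁻¹) ∈ Subgroup.zpowers (ρ g) := by
              exact (hT1mem _).1 (T1.inv_mem c.2)
            obtain ⟨k, hk⟩ := Subgroup.mem_zpowers_iff.1 hcm
            refine ⟨(c : B)⁻¹ * (g ^ k)⁻¹, ?_, ?_⟩
            · rw [← LTI.ker_eq h, MonoidHom.mem_ker, map_mul, map_inv ρ (g ^ k), map_zpow, hk,
                mul_inv_cancel]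
            · have h2 : (x : B) = (c : B)⁻¹ * g * c := by
                rw [← hc']
                group
              have h3 : g ^ k * g = g * g ^ k := (Commute.self_zpow g k).eq.symm
              have h4 : (g ^ k)⁻¹ * g * g ^ k = g := by
                rw [mul_assoc, ← h3, inv_mul_cancel_left]
              calc (x : B) = (c : B)⁻¹ * g * c := h2
                _ = (c : B)⁻¹ * ((g ^ k)⁻¹ * g * g ^ k) * c := by rw [h4]
                _ = _ := by group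
          · rintro ⟨t, ht, hx⟩
            refine ⟨⟨t⁻¹, T1.inv_mem (hT1 ht)⟩, ?_⟩
            apply Subtype.ext
            change t⁻¹ * (x : B) * t⁻¹⁻¹ = g
            rw [hx]
            group
        by_cases hx : IsConj x (⟨g, hgT1⟩ : T1)
        · rw [if_pos hx, if_pos (hiff.1 hx)]
        · rw [if_neg hx, if_neg fun hx' => hx (hiff.2 hx')]
      · intro x hx
        refine if_neg ?_
        rintro ⟨t, ht, rfl⟩
        exact hx (hT1n.conj_mem g hgT1 t)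
    have hdl : ∀ F : B → ℂ, ∑ x : T1, dl x * F x = F 1 := by
      intro F
      rw [Finset.sum_eq_single (1 : T1)]
      · simp [dl]
      · intro x _ hx
        simp [dl, hx]
      · simp
    have hc := isIntegral_cj h ι.range le_rfl hf.1 (irrOn_comap h hψ hf) g
    have hc' := isIntegral_cj h ι.range le_rfl hf'.1 (irrOn_comap h hψ' hf') g
    obtain ⟨c, hcdef⟩ : ∃ c : ℂ, c = (∑ x, cjT ι.range x g * f x) / f 1 := ⟨_, rfl⟩
    obtain ⟨c', hcdef'⟩ : ∃ c' : ℂ, c' = (∑ x, cjT ι.range x g * f' x) / f' 1 := ⟨_, rfl⟩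
    rw [← hcdef] at hc
    rw [← hcdef'] at hc'
    have hred : red 𝔐 c ≠ red 𝔐 c' := by
      rw [hcdef, hcdef']
      exact hg
    obtain ⟨a, ha⟩ : ∃ a : Icf T1, ∀ x, a.fn x = conjInd x (⟨g, hgT1⟩ : T1) - c * dl x := by
      refine ⟨⟨fun x => conjInd x (⟨g, hgT1⟩ : T1) - c * dl x, ?_, ?_⟩, fun x => rfl⟩
      · intro y x
        rw [conjInd_conj, dl_conj]
      · intro x
        exact (isIntegral_conjInd _ _).sub (hc.mul (isIntegral_dl x))
    have hf1 : f 1 ≠ 0 := by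
      have := hf.1.1.one_ne_zero
      exact this
    have hf1' : f' 1 ≠ 0 := by
      have := hf'.1.1.one_ne_zero
      exact this
    have hW1 : ∀ F : B → ℂ, F 1 ≠ 0 → (∑ x : T1, a.fn x * F x) / F 1 =
        (∑ x, cjT ι.range x g * F x) / F 1 - c := by
      intro F hF
      have h1 : ∑ x : T1, a.fn x * F x = (∑ x, cjT ι.range x g * F x) - c * F 1 := by
        rw [← hcls F, ← hdl F, Finset.mul_sum, ← Finset.sum_sub_distrib]
        refine Finset.sum_congr rfl fun x _ => ?_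
        rw [ha]
        ring
      rw [h1, sub_div, mul_div_cancel_right₀ _ hF]
    have hla : lam a = 0 := by
      rw [hlam, hW1 f hf1, ← hcdef, sub_self, red_zero]
    have hla' : lam' a ≠ 0 := by
      rw [hlam', hW1 f' hf1', ← hcdef', sub_eq_add_neg, red_add 𝔐 hc' hc.neg]
      intro h0
      apply hred
      have h1 : red 𝔐 (-c) = - red 𝔐 c := by
        rw [red_of_integral 𝔐 hc.neg, red_of_integral 𝔐 hc, ← map_neg]
        rfl
      rw [h1, ← sub_eq_add_neg, sub_eq_zero] at h0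
      exact h0.symm
    -- the product of the conjugates
    obtain ⟨P, hP⟩ : ∃ P : Icf T1, P = ∏ t : L.comap ρ, pull (MulAut.conjNormal (t : B)) a :=
      ⟨_, rfl⟩
    have hlP : lam P = 0 := by
      rw [hP, map_prod]
      refine Finset.prod_eq_zero (Finset.mem_univ 1) ?_
      rw [hlam, sum_pull h hL hT1 hf (t := ((1 : L.comap ρ) : B)) (1 : L.comap ρ).2, ← hlam, hla]
    have hlP' : lam' P ≠ 0 := by
      rw [hP, map_prod, Finset.prod_ne_zero_iff]
      intro t _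
      rw [hlam', sum_pull h hL' hT1 hf' (t := (t : B)) t.2, ← hlam']
      exact hla'
    have hPinv : ∀ t : L.comap ρ, pull (MulAut.conjNormal (t : B)) P = P := by
      intro t
      rw [hP, map_prod, ← Equiv.prod_comp (Equiv.mulRight t)
        (fun s : L.comap ρ => pull (MulAut.conjNormal (s : B)) a)]
      refine Finset.prod_congr rfl fun s _ => ?_
      refine Icf.ext' fun x => ?_
      rw [pull_apply, pull_apply, pull_apply]
      congr 1
      simp only [Equiv.coe_mulRight, Subgroup.coe_mul, map_mul, MulAut.mul_apply]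
    -- extension by zero
    have hF0 : ∀ x, x ∉ T1 → ext0 P.fn x = 0 := fun x hx => dif_neg hx
    have hF1 : ∀ x : T1, ext0 P.fn (x : B) = P.fn x := fun x => dif_pos x.2
    have hFi : ∀ x, IsIntegral ℤ (ext0 P.fn x) := by
      intro x
      by_cases hx : x ∈ T1
      · rw [hF1 ⟨x, hx⟩]
        exact P.int _
      · rw [hF0 x hx]
        exact isIntegral_zero
    have hFT : ∀ t ∈ L.comap ρ, ∀ x, ext0 P.fn (t * x * t⁻¹) = ext0 P.fn x := by
      intro t ht x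
      by_cases hx : x ∈ T1
      · have h1 : t * x * t⁻¹ = ((MulAut.conjNormal t (⟨x, hx⟩ : T1) : T1) : B) :=
          (MulAut.conjNormal_apply (H := T1) t ⟨x, hx⟩).symm
        rw [h1, hF1, hF1 ⟨x, hx⟩, ← pull_apply, hPinv ⟨t, ht⟩]
      · rw [hF0 x hx, hF0]
        intro h1
        apply hx
        have := hT1n.conj_mem _ h1 t⁻¹
        have h2 : t⁻¹ * (t * x * t⁻¹) * t⁻¹⁻¹ = x := by group
        rwa [h2] at this
    have hsum : ∀ F : B → ℂ, ∑ x, ext0 P.fn x * F x = ∑ x : T1, P.fn x * F x := by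
      intro F
      have h1 : ∑ x, ext0 P.fn x * F x = ∑ x, F x * ext0 P.fn x :=
        Finset.sum_congr rfl fun x _ => mul_comm _ _
      rw [h1, INTH.sum_restrict T1 F (ext0 P.fn) hF0]
      refine Finset.sum_congr rfl fun x _ => ?_
      rw [hF1, mul_comm]
    have hkey := red_sum_eq 𝔐 h (L.comap ρ) (range_le h L) hf.1 (irrOn_comap h hψ hf) hf'.1
      (irrOn_comap h hψ' hf') he (ext0 P.fn) hFi hFT
    rw [hsum, hsum, ← hlam, ← hlam', hlP] at hkey
    exact hlP' hkey.symm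
  · intro he
    have hid : ∀ {σ : Finset (Subgroup G)} {ψ : G → ℂ} {f : B → ℂ}, IrrOn (stb σ) ψ →
        L ≤ (Stx κ σ ψ).map ρ → ExtL ι κ ρ σ ψ L f → ∀ g, cgT 𝔐 (L.comap ρ) f g =
          red 𝔐 ((LTI.QQ ι.range (L.comap ρ) g).relIndex (L.comap ρ) : ℂ) *
            cgT 𝔐 ι.range f g := by
      intro σ ψ f hψ hLe hf g
      unfold cgT
      rw [LTI.sum_T ι.range (L.comap ρ) (range_le h L) g f
        (fun t ht => LTI.sum_inv ι.range (L.comap ρ) _ hf.1
          (fun t ht => decomp h hLe (Subgroup.mem_comap.1 ht)) g ht), mul_div_assoc,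
        red_mul 𝔐 (Lib_helper13.isIntegral_natCast _)]
      exact isIntegral_cj h ι.range le_rfl hf.1 (irrOn_comap h hψ hf) g
    funext g
    rw [hid hψ hL hf, hid hψ' hL' hf', he]

end Pool.Agent.DPC


end

section

set_option linter.unusedSectionVars false

/-!
# EXTAR (theorem R): the extensions of `ψ`
-/

namespace Pool.Agent.DPC

open Pool.Agent.DP

open Pool.Agent.Lib_helper13 Representation

namespace EXTAR

/-! ### Linear characters -/

theorem card_dual {C : Type} [Group C] [Finite C] (hc : IsCyclic C) (K : Subgroup C) :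
    Nat.card (K →* ℂˣ) = Nat.card K := by
  have hK : IsCyclic K := Subgroup.isCyclic K
  let _ : CommGroup K := IsCyclic.commGroup
  exact CommGroup.card_monoidHom_of_hasEnoughRootsOfUnity K ℂ

theorem ext_dual_aux {C : Type} [CommGroup C] [Finite C] (K : Subgroup C) (lam : K →* ℂˣ) :
    ∃ lam' : C →* ℂˣ, ∀ k : K, lam' k = lam k := by
  obtain ⟨l, hl⟩ := MonoidHom.domRestrict_surjective (M := ℂ) K lam
  exact ⟨l, fun k => DFunLike.congr_fun hl k⟩

/-- Linear characters of subgroups extend. -/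
theorem ext_dual {C : Type} [Group C] [Finite C] (_ : IsCyclic C) (K : Subgroup C)
    (lam : K →* ℂˣ) : ∃ lam' : C →* ℂˣ, ∀ k : K, lam' k = lam k :=
  @ext_dual_aux C IsCyclic.commGroup _ K lam

theorem trace_mul_one_dim (f g : (Fin 1 → ℂ) →ₗ[ℂ] (Fin 1 → ℂ)) :
    LinearMap.trace ℂ _ (f * g) = LinearMap.trace ℂ _ f * LinearMap.trace ℂ _ g := by
  rw [LinearMap.trace_eq_matrix_trace ℂ (Pi.basisFun ℂ (Fin 1)),
    LinearMap.trace_eq_matrix_trace ℂ (Pi.basisFun ℂ (Fin 1)),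
    LinearMap.trace_eq_matrix_trace ℂ (Pi.basisFun ℂ (Fin 1)), LinearMap.toMatrix_mul]
  simp [Matrix.trace, Matrix.mul_apply]

theorem lin_mul {K : Type} [Group K] {η : K → ℂ} (h : IsIrr η) (h1 : η 1 = 1) (a b : K) :
    η (a * b) = η a * η b := by
  obtain ⟨n, ρ, _, rfl⟩ := h
  have hn : n = 1 := by
    rw [char_one] at h1
    simpa using h1
  subst hn
  change LinearMap.trace ℂ _ (ρ (a * b)) = LinearMap.trace ℂ _ (ρ a) * LinearMap.trace ℂ _ (ρ b)
  rw [map_mul]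
  exact trace_mul_one_dim _ _

theorem exists_lin {K : Type} [Group K] {η : K → ℂ} (h : IsIrr η) (h1 : η 1 = 1) :
    ∃ lam : K →* ℂˣ, ∀ k, ((lam k : ℂˣ) : ℂ) = η k :=
  ⟨MonoidHom.toHomUnits { toFun := η, map_one' := h1, map_mul' := lin_mul h h1 },
    fun _ => rfl⟩

theorem isIrr_lin {K : Type} [Group K] [Fintype K] (lam : K →* ℂˣ) :
    IsIrr (fun k => ((lam k : ℂˣ) : ℂ)) := by
  apply (isChr_lin lam).isIrr
  have h : ∀ g : K, ((lam g : ℂˣ) : ℂ) * ((lam g⁻¹ : ℂˣ) : ℂ) = 1 := by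
    intro g
    rw [← Units.val_mul, ← map_mul, mul_inv_cancel, map_one, Units.val_one]
  simp [h]

/-! ### The stabilizer -/

section Loc

variable {G B C : Type} [Group G] [Group B] [Group C] {ι : G →* B} {κ : B →* MulAut G}
  {ρ : B →* C}

theorem kap (h : ClG ι κ ρ) (g x : G) : κ (ι g) x = g * x * g⁻¹ := by
  apply h.inj
  rw [h.act, map_mul, map_mul, map_inv]

theorem kap_conj (h : ClG ι κ ρ) (g : G) : κ (ι g) = MulAut.conj g := by
  apply MulEquiv.ext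
  intro x
  rw [kap h, MulAut.conj_apply]

theorem cls {S : Subgroup G} {ψ : G → ℂ} (hψ : IrrOn S ψ) {g : G} (hg : g ∈ S) (x : G) :
    ψ (g * x * g⁻¹) = ψ x := by
  by_cases hx : x ∈ S
  · exact hψ.1.conj_eq (⟨g, hg⟩ : S) ⟨x, hx⟩
  · rw [hψ.2 x hx, hψ.2]
    intro hc
    apply hx
    have h1 := S.mul_mem (S.mul_mem (S.inv_mem hg) hc) hg
    have h2 : g⁻¹ * (g * x * g⁻¹) * g = x := by group
    rwa [h2] at h1

theorem mem_Stx_iota (h : ClG ι κ ρ) {σ : Finset (Subgroup G)} {ψ : G → ℂ}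
    (hψ : IrrOn (stb σ) ψ) (g : G) : ι g ∈ Stx κ σ ψ ↔ g ∈ stb σ := by
  constructor
  · intro hg
    rw [mem_stb]
    intro D hD
    rw [← kap_conj h]
    exact hg.1 D hD
  · intro hg
    refine ⟨?_, ?_⟩
    · intro D hD
      rw [kap_conj h]
      exact mem_stb.mp hg D hD
    · intro x
      rw [kap h]
      exact cls hψ hg x

theorem rho_iota (h : ClG ι κ ρ) (g : G) : ρ (ι g) = 1 := (h.ker (ι g)).mpr ⟨g, rfl⟩

theorem comap_eq (h : ClG ι κ ρ) {σ : Finset (Subgroup G)} {ψ : G → ℂ}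
    (hψ : IrrOn (stb σ) ψ) (L : Subgroup C) : (Stx κ σ ψ ⊓ L.comap ρ).comap ι = stb σ := by
  ext g
  rw [Subgroup.mem_comap, Subgroup.mem_inf, mem_Stx_iota h hψ, Subgroup.mem_comap, rho_iota h]
  exact ⟨fun hg => hg.1, fun hg => ⟨hg, L.one_mem⟩⟩

theorem map_eq (σ : Finset (Subgroup G)) (ψ : G → ℂ) (L : Subgroup C) :
    (Stx κ σ ψ ⊓ L.comap ρ).map ρ = KL κ ρ σ ψ L := by
  ext c
  constructor
  · rintro ⟨b, hb, rfl⟩
    exact ⟨⟨b, hb.1, rfl⟩, hb.2⟩
  · rintro ⟨⟨b, hb, rfl⟩, hc⟩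
    exact ⟨b, ⟨hb, hc⟩, rfl⟩

variable (ι κ ρ) in
/-- The group. -/
abbrev YY (σ : Finset (Subgroup G)) (ψ : G → ℂ) (L : Subgroup C) : Subgroup B :=
  Stx κ σ ψ ⊓ L.comap ρ

theorem mem_YY (h : ClG ι κ ρ) {σ : Finset (Subgroup G)} {ψ : G → ℂ}
    (hψ : IrrOn (stb σ) ψ) (L : Subgroup C) {g : G} : ι g ∈ YY κ ρ σ ψ L ↔ g ∈ stb σ := by
  rw [← comap_eq h hψ L, Subgroup.mem_comap]

/-- The embedding. -/
noncomputable def jY (h : ClG ι κ ρ) {σ : Finset (Subgroup G)} {ψ : G → ℂ}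
    (hψ : IrrOn (stb σ) ψ) (L : Subgroup C) : stb σ →* YY κ ρ σ ψ L :=
  (ι.comp (stb σ).subtype).codRestrict _ (fun a => (mem_YY h hψ L).mpr a.2)

theorem kap_mem (h : ClG ι κ ρ) {σ : Finset (Subgroup G)} {ψ : G → ℂ}
    (hψ : IrrOn (stb σ) ψ) (L : Subgroup C) (y : YY κ ρ σ ψ L) (a : stb σ) :
    κ (y : B) (a : G) ∈ stb σ := by
  rw [← mem_YY h hψ L, h.act]
  exact mul_mem (mul_mem y.2 ((mem_YY h hψ L).mpr a.2)) (inv_mem y.2)

/-- The action. -/
noncomputable def cY (h : ClG ι κ ρ) {σ : Finset (Subgroup G)} {ψ : G → ℂ}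
    (hψ : IrrOn (stb σ) ψ) (L : Subgroup C) : YY κ ρ σ ψ L →* MulAut (stb σ) where
  toFun y :=
    { toFun := fun a => ⟨κ (y : B) (a : G), kap_mem h hψ L y a⟩
      invFun := fun a => ⟨κ ((y⁻¹ : YY κ ρ σ ψ L) : B) (a : G), kap_mem h hψ L y⁻¹ a⟩
      left_inv := by
        intro a
        apply Subtype.ext
        change κ ((y⁻¹ : YY κ ρ σ ψ L) : B) (κ (y : B) (a : G)) = a
        rw [← MulAut.mul_apply, ← map_mul]
        simp
      right_inv := by
        intro a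
        apply Subtype.ext
        change κ (y : B) (κ ((y⁻¹ : YY κ ρ σ ψ L) : B) (a : G)) = a
        rw [← MulAut.mul_apply, ← map_mul]
        simp
      map_mul' := by
        intro a b
        apply Subtype.ext
        change κ (y : B) ((a * b : stb σ) : G) = κ (y : B) (a : G) * κ (y : B) (b : G)
        simp }
  map_one' := by
    ext a
    simp
  map_mul' := by
    intro x y
    ext a
    simp

/-- The projection. -/
noncomputable def qY (κ : B →* MulAut G) (ρ : B →* C) (σ : Finset (Subgroup G)) (ψ : G → ℂ)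
    (L : Subgroup C) : YY κ ρ σ ψ L →* KL κ ρ σ ψ L :=
  (ρ.comp (YY κ ρ σ ψ L).subtype).codRestrict _ (fun y => ⟨⟨y, y.2.1, rfl⟩, y.2.2⟩)

theorem qY_coe (κ : B →* MulAut G) (ρ : B →* C) (σ : Finset (Subgroup G)) (ψ : G → ℂ)
    (L : Subgroup C) (y : YY κ ρ σ ψ L) : (qY κ ρ σ ψ L y : C) = ρ (y : B) := rfl

theorem qY_surj (κ : B →* MulAut G) (ρ : B →* C) (σ : Finset (Subgroup G)) (ψ : G → ℂ)
    (L : Subgroup C) : Function.Surjective (qY κ ρ σ ψ L) := by
  rintro ⟨c, hc⟩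
  rw [← map_eq] at hc
  obtain ⟨b, hb, rfl⟩ := hc
  exact ⟨⟨b, hb⟩, rfl⟩

theorem clG_Y (h : ClG ι κ ρ) {σ : Finset (Subgroup G)} {ψ : G → ℂ}
    (hψ : IrrOn (stb σ) ψ) (L : Subgroup C) : ClG (jY h hψ L) (cY h hψ L) (qY κ ρ σ ψ L) where
  inj := by
    intro a b hab
    apply Subtype.ext
    apply h.inj
    exact congrArg Subtype.val hab
  act := by
    intro y a
    apply Subtype.ext
    exact h.act (y : B) (a : G)
  ker := by
    intro y
    constructor
    · intro hy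
      obtain ⟨g, hg⟩ := (h.ker (y : B)).mp (congrArg Subtype.val hy)
      have h1 : g ∈ stb σ := (mem_YY h hψ L).mp (by rw [hg]; exact y.2)
      exact ⟨⟨g, h1⟩, Subtype.ext hg⟩
    · rintro ⟨a, rfl⟩
      exact Subtype.ext (rho_iota h (a : G))

/-! ### Extensions -/

theorem ext_res (h : ClG ι κ ρ) {σ : Finset (Subgroup G)} {ψ : G → ℂ}
    (hψ : IrrOn (stb σ) ψ) (L : Subgroup C) {f : B → ℂ} (hf : ExtL ι κ ρ σ ψ L f)
    (a : stb σ) : (fun y : YY κ ρ σ ψ L => f y) (jY h hψ L a) = ψ a := hf.2 (a : G)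

theorem exists_ext [Fintype G] [Fintype B] (hE : Stmt_EXTC) (h : ClG ι κ ρ) (hc : IsCyclic C)
    {σ : Finset (Subgroup G)} {ψ : G → ℂ} (hψ : IrrOn (stb σ) ψ) (L : Subgroup C) :
    ∃ f, ExtL ι κ ρ σ ψ L f := by
  classical
  have : Fintype (stb σ) := Fintype.ofFinite _
  have : Fintype (YY κ ρ σ ψ L) := Fintype.ofFinite _
  obtain ⟨E, hE1, hE2⟩ := hE (stb σ) (YY κ ρ σ ψ L) (KL κ ρ σ ψ L) (jY h hψ L) (cY h hψ L)
    (qY κ ρ σ ψ L) (clG_Y h hψ L) (qY_surj κ ρ σ ψ L) (Subgroup.isCyclic _)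
    (fun a => ψ a) hψ.1 (fun y a => y.2.1.2 (a : G))
  refine ⟨ext0 E, IRRPI.irrOn_ext0 hE1, ?_⟩
  intro g
  by_cases hg : g ∈ stb σ
  · rw [ext0_of_mem E ((mem_YY h hψ L).mpr hg)]
    exact hE2 ⟨g, hg⟩
  · rw [ext0_of_not_mem E (fun hc => hg ((mem_YY h hψ L).mp hc)), hψ.2 g hg]

theorem twist [Fintype G] [Fintype B] (hG : Stmt_GALL) (h : ClG ι κ ρ) [Finite C]
    {σ : Finset (Subgroup G)} {ψ : G → ℂ} (hψ : IrrOn (stb σ) ψ) (L : Subgroup C)
    {f : B → ℂ} (hf : ExtL ι κ ρ σ ψ L f) (lam : C →* ℂˣ) :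
    ExtL ι κ ρ σ ψ L (fun x => f x * ((lam (ρ x) : ℂˣ) : ℂ)) := by
  classical
  have : Fintype (stb σ) := Fintype.ofFinite _
  have : Fintype (YY κ ρ σ ψ L) := Fintype.ofFinite _
  have : Fintype (KL κ ρ σ ψ L) := Fintype.ofFinite _
  obtain ⟨h1, _, _⟩ := hG (stb σ) (YY κ ρ σ ψ L) (KL κ ρ σ ψ L) (jY h hψ L) (cY h hψ L)
    (qY κ ρ σ ψ L) (clG_Y h hψ L) (qY_surj κ ρ σ ψ L) (fun a => ψ a) (fun y => f y) hψ.1
    hf.1.1.isChr (ext_res h hψ L hf)
  refine ⟨⟨(h1 _ (isIrr_lin (lam.comp (KL κ ρ σ ψ L).subtype))).1, ?_⟩, ?_⟩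
  · intro x hx
    change f x * _ = 0
    rw [hf.1.2 x hx, zero_mul]
  · intro g
    change f (ι g) * ((lam (ρ (ι g)) : ℂˣ) : ℂ) = ψ g
    rw [hf.2, rho_iota h, map_one, Units.val_one, mul_one]

theorem torsor [Fintype G] [Fintype B] (hG : Stmt_GALL) (h : ClG ι κ ρ) [Finite C]
    (hc : IsCyclic C) {σ : Finset (Subgroup G)} {ψ : G → ℂ} (hψ : IrrOn (stb σ) ψ)
    (L : Subgroup C) {f f' : B → ℂ} (hf : ExtL ι κ ρ σ ψ L f) (hf' : ExtL ι κ ρ σ ψ L f') :
    ∃ lam : C →* ℂˣ, f' = fun x => f x * ((lam (ρ x) : ℂˣ) : ℂ) := by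
  classical
  have : Fintype (stb σ) := Fintype.ofFinite _
  have : Fintype (YY κ ρ σ ψ L) := Fintype.ofFinite _
  have : Fintype (KL κ ρ σ ψ L) := Fintype.ofFinite _
  obtain ⟨_, _, h3⟩ := hG (stb σ) (YY κ ρ σ ψ L) (KL κ ρ σ ψ L) (jY h hψ L) (cY h hψ L)
    (qY κ ρ σ ψ L) (clG_Y h hψ L) (qY_surj κ ρ σ ψ L) (fun a => ψ a) (fun y => f y) hψ.1
    hf.1.1.isChr (ext_res h hψ L hf)
  have h4 : resj (jY h hψ L) (fun y : YY κ ρ σ ψ L => f' y) = fun a : stb σ => ψ a :=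
    funext (ext_res h hψ L hf')
  obtain ⟨η, hη, hη'⟩ := h3 (fun y => f' y) hf'.1.1 (by
    rw [h4, ip_self hψ.1]
    exact _root_.one_ne_zero)
  have h5 : η 1 = 1 := by
    have h6 := congrFun hη' (1 : YY κ ρ σ ψ L)
    have h7 : f' ((1 : YY κ ρ σ ψ L) : B) = ψ 1 := by
      have := hf'.2 1
      rwa [map_one] at this
    have h8 : f ((1 : YY κ ρ σ ψ L) : B) = ψ 1 := by
      have := hf.2 1
      rwa [map_one] at this
    simp only [map_one] at h6
    rw [h7, h8] at h6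
    have h9 : ψ 1 ≠ 0 := hψ.1.one_ne_zero
    exact (mul_left_cancel₀ h9 (h6.symm.trans (mul_one _).symm))
  obtain ⟨l, hl⟩ := exists_lin hη h5
  obtain ⟨lam, hlam⟩ := ext_dual hc (KL κ ρ σ ψ L) l
  refine ⟨lam, ?_⟩
  funext x
  by_cases hx : x ∈ YY κ ρ σ ψ L
  · have h10 := congrFun hη' (⟨x, hx⟩ : YY κ ρ σ ψ L)
    have h11 := hlam (qY κ ρ σ ψ L ⟨x, hx⟩)
    rw [qY_coe] at h11
    change f' x = f x * ((lam (ρ x) : ℂˣ) : ℂ)
    have h12 : lam (ρ x) = l (qY κ ρ σ ψ L ⟨x, hx⟩) := h11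
    rw [h12, hl]
    exact h10
  · change f' x = f x * ((lam (ρ x) : ℂˣ) : ℂ)
    rw [hf'.1.2 x hx, hf.1.2 x hx, zero_mul]

theorem count [Fintype G] [Fintype B] (hG : Stmt_GALL) (h : ClG ι κ ρ) [Finite C]
    (hc : IsCyclic C) {σ : Finset (Subgroup G)} {ψ : G → ℂ} (hψ : IrrOn (stb σ) ψ)
    (L : Subgroup C) {f : B → ℂ} (hf : ExtL ι κ ρ σ ψ L f) :
    Nat.card {f : B → ℂ // ExtL ι κ ρ σ ψ L f} = Nat.card (KL κ ρ σ ψ L) := by
  classical
  have : Fintype (stb σ) := Fintype.ofFinite _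
  have : Fintype (YY κ ρ σ ψ L) := Fintype.ofFinite _
  have : Fintype (KL κ ρ σ ψ L) := Fintype.ofFinite _
  obtain ⟨_, h2, _⟩ := hG (stb σ) (YY κ ρ σ ψ L) (KL κ ρ σ ψ L) (jY h hψ L) (cY h hψ L)
    (qY κ ρ σ ψ L) (clG_Y h hψ L) (qY_surj κ ρ σ ψ L) (fun a => ψ a) (fun y => f y) hψ.1
    hf.1.1.isChr (ext_res h hψ L hf)
  rw [← card_dual hc]
  choose e he using ext_dual hc (KL κ ρ σ ψ L)
  refine (Nat.card_eq_of_bijective (fun l : KL κ ρ σ ψ L →* ℂˣ =>
    (⟨fun x => f x * ((e l (ρ x) : ℂˣ) : ℂ), twist hG h hψ L hf (e l)⟩ :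
      {f : B → ℂ // ExtL ι κ ρ σ ψ L f})) ?_).symm
  constructor
  · intro l l' hll
    have h3 := congrArg Subtype.val hll
    have h4 : (fun k => ((l k : ℂˣ) : ℂ)) = fun k => ((l' k : ℂˣ) : ℂ) := by
      apply h2 _ _ (isIrr_lin l) (isIrr_lin l')
      funext y
      have h5 := congrFun h3 (y : B)
      change f y * ((e l (ρ (y : B)) : ℂˣ) : ℂ) = f y * ((e l' (ρ (y : B)) : ℂˣ) : ℂ) at h5
      have h6 : e l (ρ (y : B)) = l (qY κ ρ σ ψ L y) := he l (qY κ ρ σ ψ L y)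
      have h7 : e l' (ρ (y : B)) = l' (qY κ ρ σ ψ L y) := he l' (qY κ ρ σ ψ L y)
      rw [h6, h7] at h5
      exact h5
    apply MonoidHom.ext
    intro k
    exact Units.ext (congrFun h4 k)
  · rintro ⟨f', hf'⟩
    obtain ⟨lam, rfl⟩ := torsor hG h hc hψ L hf hf'
    refine ⟨lam.comp (KL κ ρ σ ψ L).subtype, ?_⟩
    apply Subtype.ext
    funext x
    change f x * _ = f x * _
    by_cases hx : x ∈ YY κ ρ σ ψ L
    · have h6 := he (lam.comp (KL κ ρ σ ψ L).subtype) (qY κ ρ σ ψ L ⟨x, hx⟩)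
      have h7 : e (lam.comp (KL κ ρ σ ψ L).subtype) (ρ x) = lam (ρ x) := h6
      rw [h7]
    · rw [hf.1.2 x hx, zero_mul, zero_mul]

end Loc

end EXTAR

/-- EXTAR: the extensions of `ψ`. -/
theorem EXTAR_thm (h1 : Stmt_EXTC) : Stmt_EXTAR := by
  intro G B C _ _ _ _ _ ℓ _ ι κ ρ hL σ ψ hψ L
  have hG : Stmt_GALL := GALL_thm COSET_thm SUMM_thm
  have hfin : Finite C := Finite.of_surjective ρ hL.surj
  obtain ⟨f, hf⟩ := EXTAR.exists_ext h1 hL.cl hL.cyc hψ L
  exact ⟨EXTAR.comap_eq hL.cl hψ L, EXTAR.map_eq σ ψ L, ⟨f, hf⟩,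
    fun f lam hf => EXTAR.twist hG hL.cl hψ L hf lam,
    fun f f' hf hf' => EXTAR.torsor hG hL.cl hL.cyc hψ L hf hf',
    EXTAR.count hG hL.cl hL.cyc hψ L hf⟩

end Pool.Agent.DPC


end
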