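import Mathlib
import Pool.Agent.DAM.C02
import Pool.Agent.DAM.C05
import Pool.Agent.DAM.C08

/-! Parts: DP.FIX, DP.COMPL, DP.INNER, DP.AA, DP.LSEP, DP.AAH -/

section

/-!
# Module FIX: chains and characters with prescribed transports
-/

namespace Pool.Agent.DP.FIX

open Pool.Agent.Lib_helper13 Representation

/-! ### Characters -/

section IrrOn

variable {G : Type} [Group G] [Fintype G]

theorem mem_irrOn {S : Subgroup G} {f : G → ℂ} : f ∈ irrOn S ↔ IrrOn S f := by
  classical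
  rw [irrOn, Finset.mem_image]
  constructor
  · rintro ⟨ψ, hψ, rfl⟩
    refine ⟨?_, fun x hx => ext0_of_not_mem ψ hx⟩
    have : (fun s : S => ext0 ψ (s : G)) = ψ := by
      ext s
      rw [ext0_of_mem ψ s.2]
    rw [this]
    exact mem_irrF.mp hψ
  · rintro ⟨h1, h2⟩
    refine ⟨fun s => f s, mem_irrF.mpr h1, ?_⟩
    ext x
    by_cases hx : x ∈ S
    · rw [ext0_of_mem _ hx]
    · rw [ext0_of_not_mem _ hx, h2 x hx]

theorem irrOn_conj {S : Subgroup G} {f : G → ℂ} (h : IrrOn S f) (g : G) :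
    IrrOn (S.map (MulAut.conj g).toMonoidHom) (fun x => f (g⁻¹ * x * g)) := by
  refine ⟨?_, ?_⟩
  · have h1 := h.1.comp_mulEquiv
      (S.equivMapOfInjective (MulAut.conj g).toMonoidHom (MulAut.conj g).injective).symm
    have h2 : (fun s : S => f s) ∘
        (S.equivMapOfInjective (MulAut.conj g).toMonoidHom (MulAut.conj g).injective).symm =
        fun s : S.map (MulAut.conj g).toMonoidHom => f (g⁻¹ * s * g) := by
      ext s'
      obtain ⟨s, rfl⟩ := (S.equivMapOfInjective (MulAut.conj g).toMonoidHom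
        (MulAut.conj g).injective).surjective s'
      rw [Function.comp_apply, MulEquiv.symm_apply_apply,
        Subgroup.coe_equivMapOfInjective_apply]
      change f s = f (g⁻¹ * (g * s * g⁻¹) * g)
      congr 1
      group
    rw [h2] at h1
    exact h1
  · intro x hx
    apply h.2
    intro h3
    apply hx
    refine ⟨g⁻¹ * x * g, h3, ?_⟩
    change g * (g⁻¹ * x * g) * g⁻¹ = x
    group

theorem cg_conj (𝔐 : Ideal (integralClosure ℤ ℂ)) (f : G → ℂ) (g : G) :
    cg 𝔐 (fun x => f (g⁻¹ * x * g)) = cg 𝔐 f := by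
  ext y
  unfold cg
  have h1 : ∑ x, conjInd x y * f (g⁻¹ * x * g) = ∑ x, conjInd x y * f x := by
    refine Fintype.sum_equiv (MulAut.conj g⁻¹).toEquiv _ _ fun x => ?_
    change conjInd x y * f (g⁻¹ * x * g) = conjInd (g⁻¹ * x * g⁻¹⁻¹) y * f (g⁻¹ * x * g⁻¹⁻¹)
    rw [conjInd_conj, inv_inv]
  rw [h1]
  congr 3
  group

theorem stb_image_conj [DecidableEq (Subgroup G)] (σ : Finset (Subgroup G)) (g : G) :
    stb (σ.image (fun K => K.map (MulAut.conj g).toMonoidHom)) =
      (stb σ).map (MulAut.conj g).toMonoidHom := by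
  have key : ∀ (x : G) (K : Subgroup G),
      (K.map (MulAut.conj g).toMonoidHom).map (MulAut.conj x).toMonoidHom =
        K.map (MulAut.conj g).toMonoidHom ↔
      K.map (MulAut.conj (g⁻¹ * x * g)).toMonoidHom = K := by
    intro x K
    have h1 : (K.map (MulAut.conj g).toMonoidHom).map (MulAut.conj x).toMonoidHom =
        (K.map (MulAut.conj (g⁻¹ * x * g)).toMonoidHom).map (MulAut.conj g).toMonoidHom := by
      rw [Subgroup.map_map, Subgroup.map_map]
      congr 1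
      ext z
      change x * (g * z * g⁻¹) * x⁻¹ =
        g * (g⁻¹ * x * g * z * (g⁻¹ * x * g)⁻¹) * g⁻¹
      group
    rw [h1]
    exact (Subgroup.map_injective (MulAut.conj g).injective).eq_iff
  ext x
  rw [mem_stb]
  constructor
  · intro h
    refine ⟨g⁻¹ * x * g, ?_, ?_⟩
    · change g⁻¹ * x * g ∈ stb σ
      rw [mem_stb]
      intro K hK
      exact (key x K).1 (h _ (Finset.mem_image_of_mem _ hK))
    · change g * (g⁻¹ * x * g) * g⁻¹ = x
      group
  · rintro ⟨y, hy, rfl⟩ D hD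
    obtain ⟨K, hK, rfl⟩ := Finset.mem_image.1 hD
    rw [key]
    have h1 : g⁻¹ * (MulAut.conj g).toMonoidHom y * g = y := by
      change g⁻¹ * (g * y * g⁻¹) * g = y
      group
    rw [h1]
    exact mem_stb.1 hy K hK

end IrrOn

/-! ### Subgroups -/

section Sub

variable {O Q G : Type} [Group G]

theorem conj_one' : (MulAut.conj (1 : G)).toMonoidHom = MonoidHom.id G := by
  ext x
  simp

/-- restriction to representatives -/
def F (s : Q → O) (D : Subgroup (O → G)) : Subgroup (Q → G) := pK (fun w => prj (s w) D)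

/-- expansion -/
def B (q : O → Q) (g : O → G) (D : Subgroup (Q → G)) : Subgroup (O → G) :=
  pK (fun o => (prj (q o) D).map (MulAut.conj (g o)).toMonoidHom)

theorem prj_F (s : Q → O) (D : Subgroup (O → G)) (w : Q) : prj w (F s D) = prj (s w) D :=
  prj_pK _ w

theorem prj_B (q : O → Q) (g : O → G) (D : Subgroup (Q → G)) (o : O) :
    prj o (B q g D) = (prj (q o) D).map (MulAut.conj (g o)).toMonoidHom :=
  prj_pK _ o

theorem F_mono (s : Q → O) {D E : Subgroup (O → G)} (h : D ≤ E) : F s D ≤ F s E :=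
  pK_le_pK.2 fun _ => Subgroup.map_mono h

theorem B_mono (q : O → Q) (g : O → G) {D E : Subgroup (Q → G)} (h : D ≤ E) :
    B q g D ≤ B q g E :=
  pK_le_pK.2 fun _ => Subgroup.map_mono (Subgroup.map_mono h)

theorem cl_F (s : Q → O) (D : Subgroup (O → G)) : cl (F s D) = F s D := cl_pK _

theorem cl_B (q : O → Q) (g : O → G) (D : Subgroup (Q → G)) : cl (B q g D) = B q g D := cl_pK _

theorem F_B {q : O → Q} {s : Q → O} {g : O → G} (hq : ∀ w, q (s w) = w) (hg : ∀ w, g (s w) = 1)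
    {D : Subgroup (Q → G)} (hD : cl D = D) : F s (B q g D) = D := by
  conv_rhs => rw [← hD]
  unfold F cl
  congr 1
  ext1 w
  rw [prj_B, hq, hg, conj_one', Subgroup.map_id]

theorem B_F {q : O → Q} {s : Q → O} {g : O → G} {D : Subgroup (O → G)} (hD : cl D = D)
    (h : ∀ o, (prj (s (q o)) D).map (MulAut.conj (g o)).toMonoidHom = prj o D) :
    B q g (F s D) = D := by
  conv_rhs => rw [← hD]
  unfold B cl
  congr 1
  ext1 o
  rw [prj_F, h]

theorem B_bot (q : O → Q) (g : O → G) : B q g (⊥ : Subgroup (Q → G)) = ⊥ := by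
  unfold B
  have h : (fun o => (prj (q o) (⊥ : Subgroup (Q → G))).map (MulAut.conj (g o)).toMonoidHom) =
      fun _ => (⊥ : Subgroup G) := by
    ext1 o
    change ((⊥ : Subgroup (Q → G)).map (Pi.evalMonoidHom (fun _ => G) (q o))).map
      (MulAut.conj (g o)).toMonoidHom = ⊥
    rw [Subgroup.map_bot, Subgroup.map_bot]
  rw [h, pK_bot]

theorem F_bot (s : Q → O) : F s (⊥ : Subgroup (O → G)) = ⊥ := by
  unfold F
  have h : (fun w => prj (s w) (⊥ : Subgroup (O → G))) = fun _ => (⊥ : Subgroup G) := by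
    ext1 w
    change (⊥ : Subgroup (O → G)).map (Pi.evalMonoidHom (fun _ => G) (s w)) = ⊥
    rw [Subgroup.map_bot]
  rw [h, pK_bot]

variable [Fintype O] [DecidableEq O] [Fintype Q] [DecidableEq Q] [Fintype G]

theorem comp_F [DecidableEq (Subgroup (Q → G))] (s : Q → O) (τ : Finset (Subgroup (O → G)))
    (w : Q) : comp (τ.image (F s)) w = comp τ (s w) := by
  ext K
  rw [mem_comp, mem_comp]
  refine and_congr_right fun _ => ?_
  constructor
  · rintro ⟨D, hD, rfl⟩
    obtain ⟨E, hE, rfl⟩ := Finset.mem_image.1 hD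
    exact ⟨E, hE, (prj_F s E w).symm⟩
  · rintro ⟨D, hD, rfl⟩
    exact ⟨F s D, Finset.mem_image_of_mem _ hD, prj_F s D w⟩

theorem comp_B [DecidableEq (Subgroup (O → G))] [DecidableEq (Subgroup G)] (q : O → Q)
    (g : O → G) (τ : Finset (Subgroup (Q → G))) (o : O) :
    comp (τ.image (B q g)) o =
      (comp τ (q o)).image (fun K => K.map (MulAut.conj (g o)).toMonoidHom) := by
  ext K
  rw [mem_comp, Finset.mem_image]
  constructor
  · rintro ⟨h1, D, hD, rfl⟩
    obtain ⟨E, hE, rfl⟩ := Finset.mem_image.1 hD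
    rw [prj_B] at h1 ⊢
    refine ⟨prj (q o) E, mem_comp.2 ⟨?_, E, hE, rfl⟩, rfl⟩
    intro h2
    rw [h2, Subgroup.map_bot] at h1
    exact h1 rfl
  · rintro ⟨L, hL, rfl⟩
    obtain ⟨h1, E, hE, rfl⟩ := mem_comp.1 hL
    refine ⟨?_, B q g E, Finset.mem_image_of_mem _ hE, prj_B q g E o⟩
    intro h2
    rw [Subgroup.map_eq_bot_iff_of_injective _ (MulAut.conj (g o)).injective] at h2
    exact h1 h2

theorem image_F_mem [DecidableEq (Subgroup (Q → G))] {ℓ : ℕ} {q : O → Q} {s : Q → O} {g : O → G}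
    {τ : Finset (Subgroup (O → G))} (hτ : τ ∈ ClCh O G ℓ)
    (h : ∀ D ∈ τ, ∀ o, (prj (s (q o)) D).map (MulAut.conj (g o)).toMonoidHom = prj o D) :
    τ.image (F s) ∈ ClCh Q G ℓ := by
  rw [mem_ClCh] at hτ ⊢
  obtain ⟨⟨h1, h2⟩, h3⟩ := hτ
  refine ⟨⟨?_, ?_⟩, ?_⟩
  · intro D hD
    obtain ⟨E, hE, rfl⟩ := Finset.mem_image.1 hD
    obtain ⟨h4, h5⟩ := h1 E hE
    refine ⟨isPGroup_pK fun w => isPGroup_prj h4 _, ?_⟩
    rw [bot_lt_iff_ne_bot]
    intro h6
    apply h5.ne'
    have h7 := B_F (q := q) (s := s) (g := g) (h3 E hE) (h E hE)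
    rw [← h7, h6, B_bot]
  · intro D hD E hE _
    obtain ⟨D', hD', rfl⟩ := Finset.mem_image.1 (Finset.mem_coe.1 hD)
    obtain ⟨E', hE', rfl⟩ := Finset.mem_image.1 (Finset.mem_coe.1 hE)
    rcases IsCh.total (ℓ := ℓ) (Z := ⊥) ⟨h1, h2⟩ hD' hE' with h4 | h4
    · exact Or.inl (F_mono s h4)
    · exact Or.inr (F_mono s h4)
  · intro D hD
    obtain ⟨E, hE, rfl⟩ := Finset.mem_image.1 hD
    exact cl_F s E

theorem image_B_mem [DecidableEq (Subgroup (O → G))] {ℓ : ℕ} {q : O → Q} {s : Q → O} {g : O → G}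
    (hq : ∀ w, q (s w) = w) (hg : ∀ w, g (s w) = 1)
    {τ : Finset (Subgroup (Q → G))} (hτ : τ ∈ ClCh Q G ℓ) :
    τ.image (B q g) ∈ ClCh O G ℓ := by
  rw [mem_ClCh] at hτ ⊢
  obtain ⟨⟨h1, h2⟩, h3⟩ := hτ
  refine ⟨⟨?_, ?_⟩, ?_⟩
  · intro D hD
    obtain ⟨E, hE, rfl⟩ := Finset.mem_image.1 hD
    obtain ⟨h4, h5⟩ := h1 E hE
    refine ⟨isPGroup_pK fun o => (isPGroup_prj h4 _).map _, ?_⟩
    rw [bot_lt_iff_ne_bot]
    intro h6
    apply h5.ne'
    have h7 := F_B hq hg (h3 E hE)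
    rw [← h7, h6, F_bot]
  · intro D hD E hE _
    obtain ⟨D', hD', rfl⟩ := Finset.mem_image.1 (Finset.mem_coe.1 hD)
    obtain ⟨E', hE', rfl⟩ := Finset.mem_image.1 (Finset.mem_coe.1 hE)
    rcases IsCh.total (ℓ := ℓ) (Z := ⊥) ⟨h1, h2⟩ hD' hE' with h4 | h4
    · exact Or.inl (B_mono q g h4)
    · exact Or.inr (B_mono q g h4)
  · intro D hD
    obtain ⟨E, hE, rfl⟩ := Finset.mem_image.1 hD
    exact cl_B q g E

end Sub

end Pool.Agent.DP.FIX

namespace Pool.Agent.DP

open Pool.Agent.Lib_helper13 Representation FIX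

/-- FIX: chains and characters with prescribed transports. -/
theorem FIX_thm : Stmt_FIX := by
  classical
  intro O Q G _ _ _ _ _ _ 𝔐 ℓ q s g hq hg φ
  simp only [Finset.mul_sum]
  rw [Finset.sum_sigma', Finset.sum_sigma']
  symm
  have hcard : ∀ (S : Subgroup G) (x : G),
      Nat.card (S.map (MulAut.conj x).toMonoidHom) = Nat.card S := fun S x =>
    (Nat.card_congr (S.equivMapOfInjective (MulAut.conj x).toMonoidHom
      (MulAut.conj x).injective).toEquiv).symm
  refine Finset.sum_bij'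
    (fun p _ => (⟨p.1.image (B q g), fun o x => p.2 (q o) ((g o)⁻¹ * x * g o)⟩ :
      (_ : Finset (Subgroup (O → G))) × (O → G → ℂ)))
    (fun p _ => (⟨p.1.image (F s), fun w => p.2 (s w)⟩ :
      (_ : Finset (Subgroup (Q → G))) × (Q → G → ℂ))) ?_ ?_ ?_ ?_ ?_
  · rintro ⟨τ, θ⟩ hp
    rw [Finset.mem_sigma, Fintype.mem_piFinset] at hp
    obtain ⟨hτ, hθ⟩ := hp
    rw [Finset.mem_sigma, Finset.mem_filter, Fintype.mem_piFinset]
    refine ⟨image_B_mem hq hg hτ, ?_, ?_⟩
    · intro o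
      change (fun x => θ (q o) ((g o)⁻¹ * x * g o)) ∈ irrOn (stb (comp (τ.image (B q g)) o))
      rw [mem_irrOn, comp_B, stb_image_conj]
      exact irrOn_conj (mem_irrOn.1 (hθ (q o))) (g o)
    · intro o
      refine ⟨?_, ?_⟩
      · intro D hD
        obtain ⟨E, hE, rfl⟩ := Finset.mem_image.1 hD
        rw [prj_B, prj_B, hq, hg, conj_one', Subgroup.map_id]
      · intro x
        change θ (q o) ((g o)⁻¹ * (g o * x * (g o)⁻¹) * g o) =
          θ (q (s (q o))) ((g (s (q o)))⁻¹ * x * g (s (q o)))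
        rw [hq, hg]
        congr 1
        group
  · rintro ⟨τ, θ⟩ hp
    rw [Finset.mem_sigma, Finset.mem_filter, Fintype.mem_piFinset] at hp
    obtain ⟨hτ, hθ, htr⟩ := hp
    rw [Finset.mem_sigma, Fintype.mem_piFinset]
    refine ⟨image_F_mem hτ fun D hD o => (htr o).1 D hD, fun w => ?_⟩
    change θ (s w) ∈ irrOn (stb (comp (τ.image (F s)) w))
    rw [comp_F]
    exact hθ (s w)
  · rintro ⟨τ, θ⟩ hp
    rw [Finset.mem_sigma, Fintype.mem_piFinset] at hp
    obtain ⟨hτ, hθ⟩ := hp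
    have hτ' := (mem_ClCh.1 hτ).2
    have e1 : (τ.image (B q g)).image (F s) = τ := by
      rw [Finset.image_image]
      ext D
      rw [Finset.mem_image]
      constructor
      · rintro ⟨E, hE, rfl⟩
        rw [Function.comp_apply, F_B hq hg (hτ' E hE)]
        exact hE
      · intro hD
        exact ⟨D, hD, F_B hq hg (hτ' D hD)⟩
    have e2 : (fun w x => θ (q (s w)) ((g (s w))⁻¹ * x * g (s w))) = θ := by
      ext w x
      rw [hq, hg]
      congr 1
      group
    simp only [e1, e2]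
  · rintro ⟨τ, θ⟩ hp
    rw [Finset.mem_sigma, Finset.mem_filter, Fintype.mem_piFinset] at hp
    obtain ⟨hτ, hθ, htr⟩ := hp
    have hτ' := (mem_ClCh.1 hτ).2
    have e0 : ∀ D ∈ τ, B q g (F s D) = D := fun D hD =>
      B_F (hτ' D hD) fun o => (htr o).1 D hD
    have e1 : (τ.image (F s)).image (B q g) = τ := by
      rw [Finset.image_image]
      ext D
      rw [Finset.mem_image]
      constructor
      · rintro ⟨E, hE, rfl⟩
        rw [Function.comp_apply, e0 E hE]
        exact hE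
      · intro hD
        exact ⟨D, hD, e0 D hD⟩
    have e2 : (fun o x => θ (s (q o)) ((g o)⁻¹ * x * g o)) = θ := by
      ext o x
      have h2 : θ o (g o * ((g o)⁻¹ * x * g o) * (g o)⁻¹) =
        θ (s (q o)) ((g o)⁻¹ * x * g o) := (htr o).2 ((g o)⁻¹ * x * g o)
      rw [← h2]
      congr 1
      group
    simp only [e1, e2]
  · rintro ⟨τ, θ⟩ hp
    rw [Finset.mem_sigma, Fintype.mem_piFinset] at hp
    obtain ⟨hτ, hθ⟩ := hp
    have hτ' := (mem_ClCh.1 hτ).2
    have e1 : (τ.image (B q g)).card = τ.card := by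
      apply Finset.card_image_of_injOn
      intro D hD E hE h
      rw [← F_B hq hg (hτ' D hD), ← F_B hq hg (hτ' E hE)]
      exact congrArg (F s) h
    have e2 : ∀ o, Nat.card (stb (comp (τ.image (B q g)) o)) = Nat.card (stb (comp τ (q o))) := by
      intro o
      rw [comp_B, stb_image_conj, hcard]
    have e3 : ∀ w, Nat.card (stb (comp (τ.image (B q g)) (s w))) = Nat.card (stb (comp τ w)) := by
      intro w
      rw [e2, hq]
    have e4 : ∀ o, df ℓ (stb (comp (τ.image (B q g)) o))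
        (fun x => θ (q o) ((g o)⁻¹ * x * g o)) = df ℓ (stb (comp τ (q o))) (θ (q o)) := by
      intro o
      unfold df
      rw [e2]
      congr 4
      group
    simp only [e1, e3, e4, cg_conj]

end Pool.Agent.DP


end

section

namespace Pool.Agent.DP.COMPL

open Pool.Agent.Lib_helper13 Pool.Agent.Lib_helper13.Dade

variable {R Ω G : Type*} [Group R] [MulAction R Ω] [Group G]

theorem mul_left' (a b : Gam R Ω G) (i : Ω) :
    (a * b).left i = a.left i * b.left (a.right⁻¹ • i) := rfl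

theorem mul_right' (a b : Gam R Ω G) : (a * b).right = a.right * b.right := rfl

theorem inv_right' (a : Gam R Ω G) : (a⁻¹).right = a.right⁻¹ := rfl

theorem one_left' (i : Ω) : (1 : Gam R Ω G).left i = 1 := rfl

theorem one_right' : (1 : Gam R Ω G).right = 1 := rfl

theorem wd (Q : Subgroup (Gam R Ω G)) {q q' : Gam R Ω G} (hq : q ∈ Q) (hq' : q' ∈ Q) {i j : Ω}
    (h : q.right • i = j) (h' : q'.right • i = j) :
    ∃ s ∈ Q, s.right • i = i ∧ q'.left j = q.left j * s.left i := by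
  refine ⟨q⁻¹ * q', Q.mul_mem (Q.inv_mem hq) hq', ?_, ?_⟩
  · rw [mul_right', inv_right', mul_smul, h', ← h, inv_smul_smul]
  · have h1 : q' = q * (q⁻¹ * q') := by group
    have h2 : q'.left j = (q * (q⁻¹ * q')).left j := by rw [← h1]
    rw [h2, mul_left', ← h, inv_smul_smul]

theorem pow_fix (s : Gam R Ω G) {i : Ω} (hs : s.right • i = i) (n : ℕ) :
    (s ^ n).right • i = i ∧ (s ^ n).left i = (s.left i) ^ n := by
  induction n with
  | zero => exact ⟨by rw [pow_zero, one_right', one_smul], by rw [pow_zero, pow_zero, one_left']⟩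
  | succ n ih =>
    have h3 : s.right⁻¹ • i = i := by
      nth_rewrite 1 [← hs]
      rw [inv_smul_smul]
    refine ⟨?_, ?_⟩
    · rw [pow_succ', mul_right', mul_smul, ih.1, hs]
    · rw [pow_succ', mul_left', h3, ih.2, pow_succ']

/-- The group of the values at `i` of the stabilizer of `i`. -/
def Pi (Q : Subgroup (Gam R Ω G)) (i : Ω) : Subgroup G where
  carrier := {g | ∃ s ∈ Q, s.right • i = i ∧ s.left i = g}
  mul_mem' := by
    rintro a b ⟨s, hs, h1, rfl⟩ ⟨t, ht, h2, rfl⟩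
    refine ⟨s * t, Q.mul_mem hs ht, ?_, ?_⟩
    · rw [mul_right', mul_smul, h2, h1]
    · have h3 : s.right⁻¹ • i = i := by
        nth_rewrite 1 [← h1]
        rw [inv_smul_smul]
      rw [mul_left', h3]
  one_mem' := ⟨1, Q.one_mem, by rw [one_right', one_smul], rfl⟩
  inv_mem' := by
    rintro a ⟨s, hs, h1, rfl⟩
    have h3 : s.right⁻¹ • i = i := by
      nth_rewrite 1 [← h1]
      rw [inv_smul_smul]
    refine ⟨s⁻¹, Q.inv_mem hs, by rw [inv_right', h3], ?_⟩
    have h4 := mul_left' s s⁻¹ i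
    rw [mul_inv_cancel, one_left', h3] at h4
    exact (inv_eq_of_mul_eq_one_right h4.symm).symm

theorem isPGroup_Pi {ℓ : ℕ} {Q : Subgroup (Gam R Ω G)} (hQ : IsPGroup ℓ Q) (i : Ω) :
    IsPGroup ℓ (Pi Q i) := by
  rintro ⟨g, s, hs, h1, rfl⟩
  obtain ⟨k, hk⟩ := hQ ⟨s, hs⟩
  refine ⟨k, ?_⟩
  have hk' : s ^ ℓ ^ k = 1 := congrArg Subtype.val hk
  apply Subtype.ext
  change (s.left i) ^ ℓ ^ k = 1
  rw [← (pow_fix s h1 _).2, hk', one_left']

open Classical in
/-- The element of the base group with value `z` at `i`, supported on the orbit of `i`. -/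
noncomputable def az (Q : Subgroup (Gam R Ω G)) (i : Ω) (z : G) (j : Ω) : G :=
  if h : ∃ q ∈ Q, q.right • i = j then h.choose.left j * z * (h.choose.left j)⁻¹ else 1

theorem az_orbit (Q : Subgroup (Gam R Ω G)) {i j : Ω} {z : G}
    (hz : ∀ g ∈ Pi Q i, g * z = z * g) {q : Gam R Ω G} (hq : q ∈ Q) (h : q.right • i = j) :
    az Q i z j = q.left j * z * (q.left j)⁻¹ := by
  have h0 : ∃ q ∈ Q, q.right • i = j := ⟨q, hq, h⟩
  rw [az, dif_pos h0]
  obtain ⟨s, hs, h1, h2⟩ := wd Q hq h0.choose_spec.1 h h0.choose_spec.2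
  rw [h2]
  have h3 := hz (s.left i) ⟨s, hs, h1, rfl⟩
  calc q.left j * s.left i * z * (q.left j * s.left i)⁻¹
      = q.left j * (s.left i * z) * (s.left i)⁻¹ * (q.left j)⁻¹ := by group
    _ = q.left j * (z * s.left i) * (s.left i)⁻¹ * (q.left j)⁻¹ := by rw [h3]
    _ = q.left j * z * (q.left j)⁻¹ := by group

theorem az_off (Q : Subgroup (Gam R Ω G)) {i j : Ω} {z : G}
    (h : ¬ ∃ q ∈ Q, q.right • i = j) : az Q i z j = 1 := by
  rw [az, dif_neg h]

theorem mem_cN_iff (Q : Subgroup (Gam R Ω G)) (n : Ω → G) :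
    iN R Ω G n ∈ cN (iN R Ω G).range Q ↔
      ∀ q ∈ Q, ∀ j, n j * q.left j = q.left j * n (q.right⁻¹ • j) := by
  rw [cN, Subgroup.mem_inf, Subgroup.mem_centralizer_iff]
  constructor
  · rintro ⟨-, h⟩ q hq j
    have h1 := congrArg (fun x : Gam R Ω G => x.left j) (h q hq)
    simp only [mul_left'] at h1
    have h2 : (iN R Ω G n).right = 1 := rfl
    have h3 : (iN R Ω G n).left = n := rfl
    rw [h2, h3, inv_one, one_smul] at h1
    exact h1.symm
  · intro h
    refine ⟨⟨n, rfl⟩, fun q hq => ?_⟩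
    apply SemidirectProduct.ext
    · funext j
      rw [mul_left', mul_left']
      have h2 : (iN R Ω G n).right = 1 := rfl
      have h3 : (iN R Ω G n).left = n := rfl
      rw [h2, h3, inv_one, one_smul]
      exact (h q hq j).symm
    · rw [mul_right', mul_right']
      have h2 : (iN R Ω G n).right = 1 := rfl
      rw [h2, mul_one, one_mul]

theorem az_mem (Q : Subgroup (Gam R Ω G)) {i : Ω} {z : G}
    (hz : ∀ g ∈ Pi Q i, g * z = z * g) :
    iN R Ω G (az Q i z) ∈ cN (iN R Ω G).range Q := by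
  rw [mem_cN_iff]
  intro q hq j
  by_cases h : ∃ t ∈ Q, t.right • i = q.right⁻¹ • j
  · obtain ⟨t, ht, h1⟩ := h
    have h2 : (q * t).right • i = j := by
      rw [mul_right', mul_smul, h1, smul_inv_smul]
    rw [az_orbit Q hz ht h1, az_orbit Q hz (Q.mul_mem hq ht) h2, mul_left']
    group
  · have h' : ¬ ∃ t ∈ Q, t.right • i = j := by
      rintro ⟨t, ht, h1⟩
      apply h
      refine ⟨q⁻¹ * t, Q.mul_mem (Q.inv_mem hq) ht, ?_⟩
      rw [mul_right', inv_right', mul_smul, h1]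
    rw [az_off Q h, az_off Q h', one_mul, mul_one]

theorem az_comm (Q : Subgroup (Gam R Ω G)) {i : Ω} {z : G} (hzP : z ∈ Pi Q i)
    (hz : ∀ g ∈ Pi Q i, g * z = z * g) {n : Ω → G}
    (hn : iN R Ω G n ∈ cN (iN R Ω G).range Q) : n * az Q i z = az Q i z * n := by
  rw [mem_cN_iff] at hn
  have hcomm : n i * z = z * n i := by
    obtain ⟨s, hs, h1, rfl⟩ := hzP
    have h3 : s.right⁻¹ • i = i := by
      nth_rewrite 1 [← h1]
      rw [inv_smul_smul]
    have h4 := hn s hs i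
    rw [h3] at h4
    exact h4
  funext j
  change n j * az Q i z j = az Q i z j * n j
  by_cases h : ∃ t ∈ Q, t.right • i = j
  · obtain ⟨t, ht, h1⟩ := h
    rw [az_orbit Q hz ht h1]
    have h2 := hn t ht j
    have h3 : t.right⁻¹ • j = i := by rw [← h1, inv_smul_smul]
    rw [h3] at h2
    calc n j * (t.left j * z * (t.left j)⁻¹) = (n j * t.left j) * z * (t.left j)⁻¹ := by group
      _ = (t.left j * n i) * z * (t.left j)⁻¹ := by rw [h2]
      _ = t.left j * (n i * z) * (t.left j)⁻¹ := by group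
      _ = t.left j * (z * n i) * (t.left j)⁻¹ := by rw [hcomm]
      _ = t.left j * z * (t.left j)⁻¹ * (t.left j * n i) * (t.left j)⁻¹ := by group
      _ = t.left j * z * (t.left j)⁻¹ * (n j * t.left j) * (t.left j)⁻¹ := by rw [h2]
      _ = t.left j * z * (t.left j)⁻¹ * n j := by group
  · rw [az_off Q h, one_mul, mul_one]

theorem Pi_eq_bot {ℓ : ℕ} [Fact ℓ.Prime] [Finite G] {Q : Subgroup (Gam R Ω G)}
    (hQ : IsPGroup ℓ Q) (hcore : pCore ℓ (cN (iN R Ω G).range Q) = ⊥) (i : Ω) :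
    Pi Q i = ⊥ := by
  by_contra hne
  have hnt : Nontrivial (Pi Q i) := (Subgroup.nontrivial_iff_ne_bot _).2 hne
  have hcn := (isPGroup_Pi hQ i).center_nontrivial
  obtain ⟨⟨z, hz⟩, hz1⟩ := exists_ne (1 : Subgroup.center (Pi Q i))
  have hz1' : (z : G) ≠ 1 := fun h => hz1 (Subtype.ext (Subtype.ext h))
  have hzc : ∀ g ∈ Pi Q i, g * (z : G) = (z : G) * g := by
    intro g hg
    have h1 := (Subgroup.mem_center_iff.1 hz) ⟨g, hg⟩
    exact congrArg Subtype.val h1
  obtain ⟨k, hk⟩ := isPGroup_Pi hQ i z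
  have hk' : (z : G) ^ ℓ ^ k = 1 := congrArg Subtype.val hk
  -- the central element
  let c : cN (iN R Ω G).range Q := ⟨iN R Ω G (az Q i z), az_mem Q hzc⟩
  have hc1 : c ^ ℓ ^ k = 1 := by
    apply Subtype.ext
    change (iN R Ω G (az Q i z)) ^ ℓ ^ k = 1
    rw [← map_pow]
    have h2 : (az Q i (z : G)) ^ ℓ ^ k = 1 := by
      funext j
      change (az Q i (z : G) j) ^ ℓ ^ k = 1
      by_cases h : ∃ t ∈ Q, t.right • i = j
      · obtain ⟨t, ht, h1⟩ := h
        rw [az_orbit Q hzc ht h1, conj_pow, hk', mul_one, mul_inv_cancel]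
      · rw [az_off Q h, one_pow]
    rw [h2, map_one]
  have hcc : c ∈ Subgroup.center (cN (iN R Ω G).range Q) := by
    rw [Subgroup.mem_center_iff]
    rintro ⟨g, hg⟩
    obtain ⟨n, rfl⟩ := hg.1
    apply Subtype.ext
    change iN R Ω G n * iN R Ω G (az Q i z) = iN R Ω G (az Q i z) * iN R Ω G n
    rw [← map_mul, ← map_mul, az_comm Q z.2 hzc hg]
  have hle : Subgroup.zpowers c ≤ pCore ℓ (cN (iN R Ω G).range Q) := by
    apply le_sSup
    refine ⟨⟨?_⟩, ?_⟩
    · intro x hx g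
      have h1 : x ∈ Subgroup.center (cN (iN R Ω G).range Q) := by
        have := (Subgroup.zpowers_le.2 hcc) hx
        exact this
      rw [Subgroup.mem_center_iff] at h1
      rw [h1 g, mul_assoc, mul_inv_cancel, mul_one]
      exact hx
    · rintro ⟨x, hx⟩
      obtain ⟨m, rfl⟩ := Subgroup.mem_zpowers_iff.1 hx
      refine ⟨k, Subtype.ext ?_⟩
      change (c ^ m) ^ ℓ ^ k = 1
      rw [← zpow_natCast, ← zpow_mul, mul_comm, zpow_mul, zpow_natCast, hc1, one_zpow]
  rw [hcore] at hle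
  have h5 : c = 1 := (Subgroup.mem_bot).1 (hle (Subgroup.mem_zpowers c))
  have h6 : iN R Ω G (az Q i z) = 1 := congrArg Subtype.val h5
  have h7 : az Q i (z : G) i = 1 := by
    have h8 := congrArg (fun x : Gam R Ω G => x.left i) h6
    exact h8
  rw [az_orbit Q hzc Q.one_mem (by rw [one_right', one_smul]), one_left'] at h7
  apply hz1'
  simpa using h7

end COMPL

open COMPL in
theorem COMPL_thm : Stmt_COMPL := by
  intro R Ω G _ _ _ _ _ _ ℓ _ Q hQ _ hcore
  have hP := Pi_eq_bot hQ hcore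
  have hP' : ∀ s ∈ Q, ∀ i : Ω, s.right • i = i → s.left i = 1 := by
    intro s hs i h
    have h1 : s.left i ∈ Pi Q i := ⟨s, hs, h, rfl⟩
    rw [hP i] at h1
    exact Subgroup.mem_bot.1 h1
  let S : Setoid Ω :=
    { r := fun a b => ∃ q ∈ Q, q.right • a = b
      iseqv := ⟨fun a => ⟨1, Q.one_mem, by rw [one_right', one_smul]⟩,
        by
          rintro a b ⟨q, hq, rfl⟩
          exact ⟨q⁻¹, Q.inv_mem hq, by rw [inv_right', inv_smul_smul]⟩,
        by
          rintro a b c ⟨q, hq, rfl⟩ ⟨q', hq', rfl⟩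
          exact ⟨q' * q, Q.mul_mem hq' hq, by rw [mul_right', mul_smul]⟩⟩ }
  have hrep : ∀ j : Ω, ∃ q ∈ Q, q.right • (Quotient.out (Quotient.mk S j)) = j := by
    intro j
    exact Quotient.exact (Quotient.out_eq (Quotient.mk S j))
  choose f hfQ hf using hrep
  refine ⟨fun j => ((f j).left j)⁻¹, ?_⟩
  rintro x ⟨q, hq, rfl⟩
  refine ⟨q.right, ?_⟩
  apply SemidirectProduct.ext
  · funext i
    change (1 : G) = _
    have hr : Quotient.mk S (q.right⁻¹ • i) = Quotient.mk S i := by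
      apply Quotient.sound
      exact ⟨q, hq, by rw [smul_inv_smul]⟩
    have h1 := hf (q.right⁻¹ • i)
    rw [hr] at h1
    have h2 : (q * f (q.right⁻¹ • i)).right • (Quotient.out (Quotient.mk S i)) = i := by
      rw [mul_right', mul_smul, h1, smul_inv_smul]
    obtain ⟨s, hs, h3, h4⟩ := wd Q (hfQ i) (Q.mul_mem hq (hfQ (q.right⁻¹ • i))) (hf i) h2
    rw [hP' s hs _ h3, mul_one, mul_left'] at h4
    have h5 : ((MulAut.conj (iN R Ω G fun j => ((f j).left j)⁻¹)).toMonoidHom q).left i =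
        ((f i).left i)⁻¹ * q.left i * (((f (q.right⁻¹ • i)).left (q.right⁻¹ • i))⁻¹)⁻¹ := by
      change ((iN R Ω G fun j => ((f j).left j)⁻¹) * q *
        (iN R Ω G fun j => ((f j).left j)⁻¹)⁻¹).left i = _
      rw [← map_inv, mul_left', mul_left', mul_right']
      have h2 : ∀ n, (iN R Ω G n).right = 1 := fun _ => rfl
      have h3 : ∀ n, (iN R Ω G n).left = n := fun _ => rfl
      rw [h2, h3, h3, inv_one, one_smul, one_mul]
      rfl
    rw [h5, ← h4]
    group
  · change q.right = _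
    change q.right = ((iN R Ω G fun j => ((f j).left j)⁻¹) * q *
        (iN R Ω G fun j => ((f j).left j)⁻¹)⁻¹).right
    rw [mul_right', mul_right', inv_right']
    have h2 : ∀ n, (iN R Ω G n).right = 1 := fun _ => rfl
    rw [h2, inv_one, one_mul, mul_one]

end Pool.Agent.DP


end

section

/-!
# Dade's conjecture for `G ^ Ω ⋊ R`: the inner sum of a chain of the complement (module INNER)
-/

namespace Pool.Agent.DP.INNER

open Pool.Agent.Lib_helper13 Pool.Agent.DP

section Orb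

variable {R Ω G : Type} [Group R] [MulAction R Ω] [Group G]

/-- the orbits of a subgroup -/
abbrev Orb (Q : Subgroup R) (Ω : Type) [MulAction R Ω] : Type :=
  Quotient (MulAction.orbitRel Q Ω)

/-- the projection to the orbits -/
def prO (Q : Subgroup R) (w : Ω) : Orb Q Ω := Quotient.mk (MulAction.orbitRel Q Ω) w

theorem prO_eq_iff (Q : Subgroup R) (v w : Ω) : prO Q v = prO Q w ↔ ∃ q ∈ Q, q • w = v := by
  unfold prO
  rw [Quotient.eq, MulAction.orbitRel_apply, MulAction.mem_orbit_iff]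
  constructor
  · rintro ⟨q, hq⟩
    exact ⟨q, q.2, hq⟩
  · rintro ⟨q, hq, h⟩
    exact ⟨⟨q, hq⟩, h⟩

theorem prO_surjective (Q : Subgroup R) : Function.Surjective (prO (Ω := Ω) Q) :=
  Quotient.mk_surjective

omit [Group G] in
theorem factor (Q : Subgroup R) (m : Ω → G) (hm : ∀ q ∈ Q, ∀ w, m (q⁻¹ • w) = m w) :
    ∃ n : Orb Q Ω → G, ∀ w, n (prO Q w) = m w := by
  refine ⟨Quotient.lift m ?_, fun w => rfl⟩
  intro v w hvw
  have h : prO Q v = prO Q w := Quotient.sound hvw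
  rw [prO_eq_iff] at h
  obtain ⟨q, hq, rfl⟩ := h
  have h1 := hm q hq (q • w)
  rw [inv_smul_smul] at h1
  exact h1.symm

/-- the action of a subgroup normalizing `Q` on the orbits of `Q` -/
@[reducible] def actO (Q K : Subgroup R) (h : ∀ k ∈ K, ∀ q ∈ Q, k * q * k⁻¹ ∈ Q) :
    MulAction K (Orb Q Ω) where
  smul k := Quotient.lift (fun w => prO Q ((k : R) • w)) (by
    intro v w hvw
    have hvw' : prO Q v = prO Q w := Quotient.sound hvw
    rw [prO_eq_iff] at hvw' ⊢
    obtain ⟨q, hq, rfl⟩ := hvw'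
    refine ⟨(k : R) * q * (k : R)⁻¹, h k k.2 q hq, ?_⟩
    rw [← mul_smul, ← mul_smul, inv_mul_cancel_right])
  one_smul := by
    intro x
    obtain ⟨w, rfl⟩ := prO_surjective Q x
    change prO Q (((1 : K) : R) • w) = prO Q w
    rw [Subgroup.coe_one, one_smul]
  mul_smul := by
    intro k l x
    obtain ⟨w, rfl⟩ := prO_surjective Q x
    change prO Q (((k * l : K) : R) • w) = prO Q ((k : R) • ((l : R) • w))
    rw [Subgroup.coe_mul, mul_smul]

/-- the embedding -/
def iK (G : Type) [Group G] (Q K : Subgroup R) (h : ∀ k ∈ K, ∀ q ∈ Q, k * q * k⁻¹ ∈ Q) :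
    @Gam K (Orb Q Ω) G _ (actO Q K h) _ →* Gam R Ω G :=
  letI := actO (Ω := Ω) Q K h
  { toFun := fun x => ⟨fun w => x.left (prO Q w), (x.right : R)⟩
    map_one' := rfl
    map_mul' := by
      intro x y
      rfl }

theorem iK_injective (Q K : Subgroup R) (h : ∀ k ∈ K, ∀ q ∈ Q, k * q * k⁻¹ ∈ Q) :
    Function.Injective (iK (Ω := Ω) G Q K h) := by
  intro x y hxy
  have h1 : (fun w => x.left (prO Q w)) = fun w => y.left (prO Q w) :=
    congrArg SemidirectProduct.left hxy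
  have h2 : (x.right : R) = y.right := congrArg SemidirectProduct.right hxy
  apply SemidirectProduct.ext
  · funext o
    obtain ⟨w, rfl⟩ := prO_surjective Q o
    exact congrFun h1 w
  · exact Subtype.ext h2

theorem mem_range_iK (Q K : Subgroup R) (h : ∀ k ∈ K, ∀ q ∈ Q, k * q * k⁻¹ ∈ Q)
    (g : Gam R Ω G) : g ∈ (iK (Ω := Ω) G Q K h).range ↔
      g.right ∈ K ∧ ∀ q ∈ Q, ∀ w, g.left (q⁻¹ • w) = g.left w := by
  constructor
  · rintro ⟨x, rfl⟩
    refine ⟨x.right.2, fun q hq w => ?_⟩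
    have h1 : prO Q (q⁻¹ • w) = prO Q w := (prO_eq_iff Q _ _).2 ⟨q⁻¹, inv_mem hq, rfl⟩
    exact congrArg x.left h1
  · rintro ⟨h1, h2⟩
    obtain ⟨n, hn⟩ := factor Q g.left h2
    let := actO (Ω := Ω) Q K h
    refine ⟨⟨n, ⟨g.right, h1⟩⟩, ?_⟩
    apply SemidirectProduct.ext
    · funext w
      exact hn w
    · rfl

/-- the elements of `R` fixing a function -/
def inv (m : Ω → G) : Subgroup R where
  carrier := {r | ∀ w, m (r⁻¹ • w) = m w}
  one_mem' := by
    intro w
    rw [inv_one, one_smul]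
  mul_mem' := by
    intro r s hr hs w
    rw [mul_inv_rev, mul_smul, hs, hr]
  inv_mem' := by
    intro r hr w
    have h := hr (r • w)
    rw [inv_smul_smul] at h
    rw [inv_inv]
    exact h.symm

omit [Group G] in
theorem mem_inv {m : Ω → G} {r : R} : r ∈ inv (R := R) m ↔ ∀ w, m (r⁻¹ • w) = m w := Iff.rfl

theorem conj_iR (g : Gam R Ω G) (d : R) (hd : g.right * d * g.right⁻¹ ∈ inv (R := R) g.left) :
    g * iR R Ω G d * g⁻¹ = iR R Ω G (g.right * d * g.right⁻¹) := by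
  apply SemidirectProduct.ext
  · funext w
    have h := hd w
    simp only [mul_inv_rev, inv_inv, mul_smul] at h
    simp [pAct, mul_smul]
    rw [h]
    simp
  · simp

theorem conj_iR' (g : Gam R Ω G) (d d' : R) (h : g * iR R Ω G d * g⁻¹ = iR R Ω G d') :
    d' = g.right * d * g.right⁻¹ ∧ d' ∈ inv (R := R) g.left := by
  have h1 := congrArg SemidirectProduct.right h
  have h2 := congrArg SemidirectProduct.left h
  have h3 : g.right * d * g.right⁻¹ = d' := by simpa using h1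
  refine ⟨h3.symm, fun w => ?_⟩
  have h4 := congrFun h2 w
  simp [pAct, mul_smul] at h4
  rw [← h3]
  simp only [mul_inv_rev, inv_inv, mul_smul]
  rw [mul_inv_eq_one] at h4
  exact h4.symm

theorem mem_stb_iR (c : Finset (Subgroup R)) (g : Gam R Ω G) :
    g ∈ stb (mapCh (iR R Ω G) c) ↔ g.right ∈ stb c ∧ ∀ D ∈ c, D ≤ inv (R := R) g.left := by
  constructor
  · intro hg
    rw [mem_stb] at hg
    have key : ∀ D ∈ c, (∀ d ∈ D, g.right * d * g.right⁻¹ ∈ D) ∧
        ∀ d' ∈ D, (∃ d ∈ D, d' = g.right * d * g.right⁻¹) ∧ d' ∈ inv (R := R) g.left := by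
      intro D hD
      have h1 := hg (D.map (iR R Ω G)) (mem_mapCh.mpr ⟨D, hD, rfl⟩)
      constructor
      · intro d hd
        have h2 : g * iR R Ω G d * g⁻¹ ∈ D.map (iR R Ω G) := by
          rw [← h1]
          exact ⟨iR R Ω G d, ⟨d, hd, rfl⟩, rfl⟩
        obtain ⟨d', hd', h3⟩ := h2
        have h4 := conj_iR' g d d' h3.symm
        rw [← h4.1]
        exact hd'
      · intro d' hd'
        have h2 : iR R Ω G d' ∈ (D.map (iR R Ω G)).map (MulAut.conj g).toMonoidHom := by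
          rw [h1]
          exact ⟨d', hd', rfl⟩
        obtain ⟨_, ⟨d, hd, rfl⟩, h3⟩ := h2
        have h4 := conj_iR' g d d' h3
        exact ⟨⟨d, hd, h4.1⟩, h4.2⟩
    refine ⟨?_, fun D hD d hd => ((key D hD).2 d hd).2⟩
    rw [mem_stb']
    intro D hD x
    constructor
    · exact (key D hD).1 x
    · intro hx
      obtain ⟨⟨d, hd, h2⟩, _⟩ := (key D hD).2 _ hx
      have h3 : x = d := by
        have := congrArg (fun y => g.right⁻¹ * y * g.right) h2
        simpa [mul_assoc] using this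
      rw [h3]
      exact hd
  · rintro ⟨h1, h2⟩
    rw [mem_stb'] at h1 ⊢
    intro D' hD' x
    obtain ⟨D, hD, rfl⟩ := mem_mapCh.mp hD'
    have key : ∀ d ∈ D, g * iR R Ω G d * g⁻¹ = iR R Ω G (g.right * d * g.right⁻¹) :=
      fun d hd => conj_iR g d (h2 D hD ((h1 D hD d).mp hd))
    constructor
    · rintro ⟨d, hd, rfl⟩
      exact ⟨g.right * d * g.right⁻¹, (h1 D hD d).mp hd, (key d hd).symm⟩
    · rintro ⟨d', hd', hx⟩
      have h3 : g.right⁻¹ * d' * g.right ∈ D := by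
        rw [h1 D hD]
        have : g.right * (g.right⁻¹ * d' * g.right) * g.right⁻¹ = d' := by group
        rw [this]
        exact hd'
      refine ⟨g.right⁻¹ * d' * g.right, h3, ?_⟩
      have h4 := key _ h3
      have h5 : g.right * (g.right⁻¹ * d' * g.right) * g.right⁻¹ = d' := by group
      rw [h5, hx] at h4
      exact mul_left_cancel (mul_right_cancel h4)

theorem tp_conj (Z' : Subgroup R) [Z'.Normal] (c : Finset (Subgroup R)) :
    ∀ k ∈ stb c, ∀ q ∈ tp Z' c, k * q * k⁻¹ ∈ tp Z' c := by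
  intro k hk q hq
  have h1 : tp Z' c ≤ (tp Z' c).comap (MulAut.conj k).toMonoidHom := by
    refine sup_le ?_ ?_
    · rw [Finset.sup_le_iff]
      intro D hD x hx
      have h2 : k * x * k⁻¹ ∈ D := (mem_stb'.mp hk D hD x).mp hx
      have h3 : D ≤ tp Z' c := le_trans (Finset.le_sup (f := id) hD) le_sup_left
      exact h3 h2
    · intro x hx
      have h2 : k * x * k⁻¹ ∈ Z' := Subgroup.Normal.conj_mem inferInstance x hx k
      have h3 : Z' ≤ tp Z' c := le_sup_right
      exact h3 h2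
  exact h1 hq

theorem tp_map (Z' : Subgroup R) (c : Finset (Subgroup R)) :
    tp (Z'.map (iR R Ω G)) (mapCh (iR R Ω G) c) = (tp Z' c).map (iR R Ω G) := by
  apply le_antisymm
  · refine sup_le ?_ (Subgroup.map_mono le_sup_right)
    rw [Finset.sup_le_iff]
    intro D' hD'
    obtain ⟨D, hD, rfl⟩ := mem_mapCh.mp hD'
    exact Subgroup.map_mono (le_trans (Finset.le_sup (f := id) hD) le_sup_left)
  · rw [Subgroup.map_le_iff_le_comap]
    refine sup_le ?_ ?_
    · rw [Finset.sup_le_iff]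
      intro D hD
      rw [id, ← Subgroup.map_le_iff_le_comap]
      exact le_trans (Finset.le_sup (f := id) (mem_mapCh.mpr ⟨D, hD, rfl⟩)) le_sup_left
    · rw [← Subgroup.map_le_iff_le_comap]
      exact le_sup_right

theorem tp_pgroup {ℓ : ℕ} [Fact ℓ.Prime] (Z' : Subgroup R) [Z'.Normal] (hZ : IsPGroup ℓ Z')
    (c : Finset (Subgroup R)) (hc : IsCh ℓ Z' c) : IsPGroup ℓ (tp Z' c) := by
  apply IsPGroup.to_sup_of_normal_right _ hZ
  rcases c.eq_empty_or_nonempty with h | h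
  · rw [h, Finset.sup_empty]
    exact IsPGroup.of_bot
  · obtain ⟨T, hT, hT'⟩ := hc.exists_top h
    have : c.sup id = T := by
      apply le_antisymm
      · rw [Finset.sup_le_iff]
        exact hT'
      · exact Finset.le_sup (f := id) hT
    rw [this]
    exact (hc.1 T hT).1

theorem fibre {ℓ : ℕ} [Fact ℓ.Prime] [Finite Ω] (Q : Subgroup R) (hQ : IsPGroup ℓ Q)
    (o : Orb Q Ω) : ∃ k, Nat.card {w : Ω // prO Q w = o} = ℓ ^ k := by
  obtain ⟨w, rfl⟩ := prO_surjective Q o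
  obtain ⟨k, hk⟩ := hQ.card_orbit w
  refine ⟨k, ?_⟩
  rw [← hk]
  refine Nat.card_congr (Equiv.subtypeEquivRight fun v => ?_)
  rw [prO_eq_iff, MulAction.mem_orbit_iff]
  constructor
  · rintro ⟨q, hq, h⟩
    exact ⟨⟨q, hq⟩, h⟩
  · rintro ⟨q, hq⟩
    exact ⟨q, q.2, hq⟩

/-- the functions constant on the orbits and the centralizer -/
theorem exists_equiv (Q : Subgroup R) :
    ∃ e : (Orb Q Ω → G) ≃* cN (iN R Ω G).range (Q.map (iR R Ω G)),
      ∀ n, (e n : Gam R Ω G) = iN R Ω G (fun w => n (prO Q w)) := by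
  have hcomm : ∀ (q : R) (m : Ω → G), iR R Ω G q * iN R Ω G m = iN R Ω G m * iR R Ω G q ↔
      ∀ w, m (q⁻¹ • w) = m w := by
    intro q m
    constructor
    · intro h w
      have h1 := congrFun (congrArg SemidirectProduct.left h) w
      simpa [pAct] using h1
    · intro h
      apply SemidirectProduct.ext
      · funext w
        simpa [pAct] using h w
      · simp
  let f : (Orb Q Ω → G) →* cN (iN R Ω G).range (Q.map (iR R Ω G)) :=
    { toFun := fun n => ⟨iN R Ω G (fun w => n (prO Q w)), by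
        refine Subgroup.mem_inf.mpr ⟨⟨_, rfl⟩, ?_⟩
        rw [Subgroup.mem_centralizer_iff]
        rintro _ ⟨q, hq, rfl⟩
        rw [hcomm]
        intro w
        congr 1
        rw [prO_eq_iff]
        exact ⟨q⁻¹, inv_mem hq, rfl⟩⟩
      map_one' := rfl
      map_mul' := by
        intro x y
        apply Subtype.ext
        exact map_mul (iN R Ω G) (fun w => x (prO Q w)) (fun w => y (prO Q w)) }
  have hinj : Function.Injective f := by
    intro x y hxy
    have h1 : iN R Ω G (fun w => x (prO Q w)) = iN R Ω G (fun w => y (prO Q w)) :=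
      congrArg Subtype.val hxy
    have h2 := SemidirectProduct.inl_injective h1
    funext o
    obtain ⟨w, rfl⟩ := prO_surjective Q o
    exact congrFun h2 w
  have hsurj : Function.Surjective f := by
    rintro ⟨y, hy⟩
    obtain ⟨⟨m, rfl⟩, h2⟩ := Subgroup.mem_inf.mp hy
    rw [Subgroup.mem_centralizer_iff] at h2
    obtain ⟨n, hn⟩ := factor Q m (fun q hq => (hcomm q m).mp (h2 _ ⟨q, hq, rfl⟩))
    refine ⟨n, ?_⟩
    apply Subtype.ext
    change iN R Ω G (fun w => n (prO Q w)) = iN R Ω G m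
    congr 1
    funext w
    exact hn w
  exact ⟨MulEquiv.ofBijective f ⟨hinj, hsurj⟩, fun n => rfl⟩

/-- compatibility of the embeddings -/
theorem comp_eq (Q K : Subgroup R) (h : ∀ k ∈ K, ∀ q ∈ Q, k * q * k⁻¹ ∈ Q)
    (e : (Orb Q Ω → G) ≃* cN (iN R Ω G).range (Q.map (iR R Ω G)))
    (he : ∀ n, (e n : Gam R Ω G) = iN R Ω G (fun w => n (prO Q w))) :
    (cN (iN R Ω G).range (Q.map (iR R Ω G))).subtype.comp e.toMonoidHom =
      (iK (Ω := Ω) G Q K h).comp (@iN K (Orb Q Ω) G _ (actO Q K h) _) := by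
  apply MonoidHom.ext
  intro n
  exact he n

end Orb

/-- INNER2: the inner sum of a chain of the complement, with the explicit data. -/
def _root_.Pool.Agent.DP.Stmt_INNER2 : Prop :=
  ∀ (R Ω G : Type) [Group R] [Finite R] [MulAction R Ω] [Finite Ω] [Group G] [Fintype G] (ℓ : ℕ)
    [Fact ℓ.Prime] (Z' : Subgroup R) [Z'.Normal], IsPGroup ℓ Z' →
    (∀ z ∈ Z', ∀ w : Ω, z • w = w) → ∀ c : Finset (Subgroup R), IsCh ℓ Z' c →
    ∃ (K O : Type) (_ : Group K) (_ : Finite K) (_ : Fintype O) (_ : DecidableEq O)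
      (_ : MulAction K O) (i : Gam K O G →* Gam R Ω G) (π : Ω → O) (κ : K →* R),
      (Function.Injective i ∧ Function.Surjective π ∧
      (∀ o, ∃ k, Nat.card {w : Ω // π w = o} = ℓ ^ k) ∧
      (∀ n : O → G, i (iN K O G n) = iN R Ω G (fun w => n (π w))) ∧
      (∀ x, (i x).right = 1 → x.right = 1) ∧
      ∀ W : Subgroup (Gam R Ω G) → ℚ,
        innerS ℓ (Z'.map (iR R Ω G)) (iN R Ω G).range W (mapCh (iR R Ω G) c) =
          ∑ τ ∈ Ch ℓ (⊥ : Subgroup (O → G)), (-1 : ℚ) ^ τ.card * W ((YT K τ).map i)) ∧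
      Function.Injective κ ∧ κ.range = stb c ∧
      (∀ k, i (iR K O G k) = iR R Ω G (κ k)) ∧
      (∀ k w, π (κ k • w) = k • π w) ∧
      ∀ w w', π w = π w' ↔ ∃ q ∈ tp Z' c, q • w = w'

theorem main2 : Stmt_INNER2 := by
  classical
  intro R Ω G _ _ _ _ _ _ ℓ _ Z' _ hZp hZt c hc
  obtain ⟨Q, hQ⟩ : ∃ Q, Q = tp Z' c := ⟨_, rfl⟩
  have hK : ∀ k ∈ stb c, ∀ q ∈ Q, k * q * k⁻¹ ∈ Q := by
    rw [hQ]
    exact tp_conj Z' c
  let act := actO (Ω := Ω) Q (stb c) hK
  obtain ⟨fin, _⟩ : ∃ _ : Fintype (Orb Q Ω), True := ⟨Fintype.ofFinite _, trivial⟩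
  obtain ⟨dec, _⟩ : ∃ _ : DecidableEq (Orb Q Ω), True := ⟨Classical.decEq _, trivial⟩
  refine ⟨stb c, Orb Q Ω, inferInstance, inferInstance, fin, dec, act,
    iK G Q (stb c) hK, prO Q, (stb c).subtype, ⟨iK_injective Q (stb c) hK, prO_surjective Q, ?_,
      fun n => rfl, ?_, ?_⟩, Subtype.val_injective, Subgroup.range_subtype _, fun k => rfl,
      fun k w => rfl, ?_⟩
  · intro o
    refine fibre Q ?_ o
    rw [hQ]
    exact tp_pgroup Z' hZp c hc
  · intro x hx
    exact Subtype.ext hx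
  · intro W
    obtain ⟨e, he⟩ := exists_equiv (Ω := Ω) (G := G) Q
    have hrange : stb (mapCh (iR R Ω G) c) = (iK (Ω := Ω) G Q (stb c) hK).range := by
      ext g
      rw [mem_stb_iR, mem_range_iK]
      refine and_congr_right fun _ => ?_
      have h1 : (∀ q ∈ Q, ∀ w, g.left (q⁻¹ • w) = g.left w) ↔ tp Z' c ≤ inv (R := R) g.left := by
        rw [hQ]
        rfl
      rw [h1]
      unfold tp
      rw [sup_le_iff, Finset.sup_le_iff]
      constructor
      · intro h
        refine ⟨h, fun z hz w => ?_⟩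
        rw [hZt z⁻¹ (inv_mem hz) w]
      · intro h
        exact h.1
    unfold innerS
    rw [tp_map, ← hQ]
    have hbot : (⊥ : Subgroup (cN (iN R Ω G).range (Q.map (iR R Ω G)))) =
        (⊥ : Subgroup (Orb Q Ω → G)).map e.toMonoidHom := by
      rw [Subgroup.map_bot]
    rw [hbot, sum_Ch_equiv e ℓ ⊥]
    refine Finset.sum_congr rfl fun τ _ => ?_
    rw [card_mapCh e.injective, hrange, mapCh_comp]
    rw [comp_eq Q (stb c) hK e he, ← mapCh_comp, ← Subgroup.map_comap_eq,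
      comap_stb_mapCh (iK_injective (Ω := Ω) (G := G) Q (stb c) hK)]
  · intro w w'
    rw [← hQ, prO_eq_iff]
    constructor
    · rintro ⟨q, hq, rfl⟩
      exact ⟨q⁻¹, inv_mem hq, inv_smul_smul q w'⟩
    · rintro ⟨q, hq, rfl⟩
      exact ⟨q⁻¹, inv_mem hq, inv_smul_smul q w⟩

theorem main : Stmt_INNER := by
  intro R Ω G _ _ _ _ _ _ ℓ _ Z' _ hZp hZt c hc
  obtain ⟨K, O, i1, i2, i3, i4, i5, i, π, κ, h, _⟩ := main2 R Ω G ℓ Z' hZp hZt c hc
  exact ⟨K, O, i1, i2, i3, i4, i5, i, π, h⟩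

end Pool.Agent.DP.INNER

namespace Pool.Agent.DP

/-- INNER2: the inner sum of a chain of the complement, with the explicit data. -/
theorem INNER2_thm : Stmt_INNER2 := INNER.main2

/-- INNER: the inner sum of a chain of the complement. -/
theorem INNER_thm : Stmt_INNER := INNER.main

end Pool.Agent.DP


end

section

/-!
AA: modulo a maximal ideal the weighted sum depends only on the central functions.
-/

namespace Pool.Agent.DP.AA

open Pool.Agent.Lib_helper13 Pool.Agent.DP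

section

variable {G : Type} [Group G] [Fintype G]

theorem wt_sub (S : Subgroup G) {f : G → ℂ} (hf : ∀ x, x ∉ S → f x = 0) (h : G → ℂ) :
    wt (fun s : S => f s) (fun s : S => h s) = wt f h := by
  classical
  rw [wt, wt]
  have h1 : ∑ y : S, h y * f y = ∑ y : G, h y * f y := by
    have h2 : ∑ y : G, h y * f y = ∑ y ∈ Finset.univ.filter (fun y => y ∈ S), h y * f y := by
      rw [Finset.sum_filter]
      refine Finset.sum_congr rfl fun y _ => ?_
      split_ifs with hy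
      · rfl
      · rw [hf y hy, mul_zero]
    rw [h2]
    exact (Finset.sum_subtype _ (fun y => by simp) (fun y => h y * f y)).symm
  rw [h1]
  rfl

theorem cg_eq (𝔐 : Ideal (integralClosure ℤ ℂ)) (S : Subgroup G) {f : G → ℂ} (hf : IrrOn S f)
    (g : G) : cen 𝔐 S.subtype (fun s : S => f s) g = cg 𝔐 f g := by
  rw [cen, cg]
  have h := wt_sub S hf.2 (fun x => conjInd x g)
  rw [wt] at h
  rw [wt]
  rw [wt] at h
  change red 𝔐 ((∑ y : S, conjInd (y : G) g * f y) / f ((1 : S) : G)) = _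
  exact congrArg (red 𝔐) h

theorem hasDefect_df (ℓ : ℕ) [Fact ℓ.Prime] (S : Subgroup G) {f : G → ℂ} (hf : IrrOn S f) :
    HasDefect ℓ (fun s : S => f s) (df ℓ S f) := by
  obtain ⟨d, hd⟩ := hf.1.exists_defect (ℓ := ℓ)
  have h1 : df ℓ S f = d := by
    obtain ⟨n, hn, hv⟩ := hd
    have hn' : f 1 = n := hn
    rw [df, hn', hv]
    simp
  rw [h1]
  exact hd

theorem irr_top {S : Subgroup G} (hS : S = ⊤) {f : G → ℂ} (hf : IrrOn S f) : IsIrr f := by
  subst hS
  exact hf.1.comp_mulEquiv (Subgroup.topEquiv (G := G)).symm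

theorem hasDefect_top {ℓ d : ℕ} {S : Subgroup G} (hS : S = ⊤) {f : G → ℂ}
    (hf : HasDefect ℓ (fun s : S => f s) d) : HasDefect ℓ f d := by
  subst hS
  exact (hasDefect_comp_equiv (Subgroup.topEquiv (G := G)) (ψ := f)).1 hf

theorem base {O : Type} [Fintype O] [DecidableEq O] (𝔐 : Ideal (integralClosure ℤ ℂ))
    [𝔐.IsPrime] (h2 : Stmt_TENS) (S : O → Subgroup G) (θ : O → G → ℂ) (m : O → ℕ)
    (M : O → G → ℕ → ℕ → ℂ) (hI : ∀ o, IrrOn (S o) (θ o))
    (hMD : ∀ o, MD (S o) (θ o) (m o) (M o)) (F : (O → G) → ℂ)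
    (hF : ∀ g x : O → G, F (g * x * g⁻¹) = F x) (hFi : ∀ n, IsIntegral ℤ (F n)) :
    IsIntegral ℤ (aS S θ m M 1 F) ∧
      red 𝔐 (aS S θ m M 1 F) = pair 𝔐 F (fun x => ∏ o, cg 𝔐 (θ o) (x o)) := by
  obtain ⟨ψ, hψd⟩ : ∃ ψ : (∀ o, S o) → ℂ, ψ = prodFn (fun o (s : S o) => θ o s) := ⟨_, rfl⟩
  have hψ : IsIrr ψ := by
    rw [hψd]
    exact isIrr_prodFn fun o => (hI o).1
  obtain ⟨i, hi⟩ : ∃ i : (∀ o, S o) →* (O → G), i = piHom (fun o => (S o).subtype) := ⟨_, rfl⟩
  let act : MulAction Unit O :=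
    { smul := fun _ o => o
      one_smul := fun _ => rfl
      mul_smul := fun _ _ _ => rfl }
  have hTH : ∀ n : O → G, (∀ o, n o ∈ S o) → TH m M 1 n = ∏ o, θ o (n o) :=
    (h2.2 Unit O G S (fun _ _ => rfl) θ m M (fun _ _ => rfl) (fun _ _ => rfl) hMD).2
  have h : aS S θ m M 1 F = wt ψ (fun y => F (i y)) := by
    rw [aS, wt]
    have h1 : ψ 1 = ∏ o, θ o 1 := by
      rw [hψd]
      rfl
    rw [h1]
    congr 1
    refine Finset.sum_congr rfl fun n _ => ?_
    rw [hTH (fun o => n o) (fun o => (n o).2), hi, hψd]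
    rfl
  constructor
  · rw [h]
    refine isIntegral_wt hψ _ ?_ fun y => hFi _
    intro g x
    rw [map_mul, map_mul, map_inv, hF]
  · rw [h, red_wt_eq_pair 𝔐 i hψ F hF hFi]
    congr 1
    funext x
    rw [hi, hψd, cen_prodFn 𝔐 (fun o => (S o).subtype) (fun o => (hI o).1)]
    exact Finset.prod_congr rfl fun o _ => cg_eq 𝔐 (S o) (hI o) (x o)

theorem codeg {ℓ : ℕ} [Fact ℓ.Prime] {S : Subgroup G} {f : G → ℂ} (hf : IrrOn S f) :
    ∃ N : ℕ, (Nat.card S : ℂ) / f 1 = N ∧ (df ℓ S f ≠ 0 → ℓ ∣ N) := by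
  obtain ⟨n, N, hn, hn1, hN, hv⟩ := exists_codeg hf.1 (hasDefect_df ℓ S hf)
  have hn0 : (n : ℂ) ≠ 0 := by exact_mod_cast hn.ne'
  refine ⟨N, ?_, ?_⟩
  · have h1 : f 1 = n := hn1
    rw [h1, hN]
    push_cast
    field_simp
  · intro h
    rw [← hv] at h
    exact dvd_of_one_le_padicValNat (Nat.one_le_iff_ne_zero.2 h)

theorem eq_of_zero (𝔐 : Ideal (integralClosure ℤ ℂ)) [𝔐.IsPrime] {ℓ : ℕ} [Fact ℓ.Prime]
    (hℓ : (ℓ : integralClosure ℤ ℂ) ∈ 𝔐) {S S' : Subgroup G} {f f' : G → ℂ} (hf : IrrOn S f)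
    (hf' : IrrOn S' f') (hz : df ℓ S f = 0 → S = ⊤) (hz' : df ℓ S' f' = 0 → S' = ⊤)
    (hc : cg 𝔐 f = cg 𝔐 f') (h0 : df ℓ S f = 0) :
    (Nat.card S : ℂ) / f 1 = (Nat.card S' : ℂ) / f' 1 := by
  have hS := hz h0
  have hfi := irr_top hS hf
  have hd := hasDefect_df ℓ S hf
  rw [h0] at hd
  have hd0 := hasDefect_top hS hd
  have hcen : ∀ g, cen 𝔐 (MonoidHom.id G) f g = cg 𝔐 f g := fun g => rfl
  have h1 : HasDefect ℓ (fun s : S' => f' s) 0 := by
    refine defect_zero_of_cen 𝔐 hℓ hfi hd0 S'.subtype hf'.1 fun g => ?_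
    rw [cg_eq 𝔐 S' hf', hcen, hc]
  have h2 : df ℓ S' f' = 0 := (hasDefect_df ℓ S' hf').unique h1
  have hS' := hz' h2
  have hfi' := irr_top hS' hf'
  have h3 : f = f' := by
    refine eq_of_defect_zero 𝔐 hℓ hfi hfi' hd0 ?_
    exact hc
  rw [hS, hS', h3]

theorem red_codeg_eq (𝔐 : Ideal (integralClosure ℤ ℂ)) [𝔐.IsPrime] {ℓ : ℕ} [Fact ℓ.Prime]
    (hℓ : (ℓ : integralClosure ℤ ℂ) ∈ 𝔐) {S S' : Subgroup G} {f f' : G → ℂ} (hf : IrrOn S f)
    (hf' : IrrOn S' f') (hz : df ℓ S f = 0 → S = ⊤) (hz' : df ℓ S' f' = 0 → S' = ⊤)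
    (hc : cg 𝔐 f = cg 𝔐 f') :
    IsIntegral ℤ ((Nat.card S : ℂ) / f 1) ∧ IsIntegral ℤ ((Nat.card S' : ℂ) / f' 1) ∧
      red 𝔐 ((Nat.card S : ℂ) / f 1) = red 𝔐 ((Nat.card S' : ℂ) / f' 1) := by
  obtain ⟨N, hN, hd⟩ := codeg (ℓ := ℓ) hf
  obtain ⟨N', hN', hd'⟩ := codeg (ℓ := ℓ) hf'
  refine ⟨by rw [hN]; exact _root_.isIntegral_natCast N, by rw [hN']; exact _root_.isIntegral_natCast N', ?_⟩
  by_cases h0 : df ℓ S f = 0
  · rw [eq_of_zero 𝔐 hℓ hf hf' hz hz' hc h0]
  by_cases h0' : df ℓ S' f' = 0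
  · rw [eq_of_zero 𝔐 hℓ hf' hf hz' hz hc.symm h0']
  have hz0 : ∀ N : ℕ, ℓ ∣ N → red 𝔐 (N : ℂ) = 0 := by
    rintro _ ⟨k, rfl⟩
    push_cast
    rw [red_natCast_mul 𝔐 ℓ (_root_.isIntegral_natCast k)]
    exact nsmul_quot_eq_zero 𝔐 hℓ _
  rw [hN, hN', hz0 N (hd h0), hz0 N' (hd' h0')]

end

end Pool.Agent.DP.AA

namespace Pool.Agent.DP

open Pool.Agent.Lib_helper13 Pool.Agent.DP.AA in
theorem AA_thm (h1 : Stmt_AAK) (h2 : Stmt_TENS) : Stmt_AA := by
  intro O G _ _ _ _ 𝔐 ℓ _ hmax hℓ k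
  have : 𝔐.IsPrime := hmax.isPrime
  obtain ⟨c, hc⟩ : ∃ c, c = k.support.card := ⟨_, rfl⟩
  induction c using Nat.strong_induction_on generalizing k with
  | _ c ih =>
    intro S S' θ θ' m m' M M' kS kθ km kM kS' kθ' km' kM' hI hI' hMD hMD' hz hz' hcg F hF hFi
    by_cases hk : k = 1
    · subst hk
      have hF' : ∀ g x : O → G, F (g * x * g⁻¹) = F x := fun g x => hF g x
      have hb := base 𝔐 h2 S θ m M hI hMD F hF' hFi
      have hb' := base 𝔐 h2 S' θ' m' M' hI' hMD' F hF' hFi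
      refine ⟨hb.1, hb'.1, ?_⟩
      rw [hb.2, hb'.2]
      congr 1
      funext x
      exact Finset.prod_congr rfl fun o _ => by rw [hcg o]
    · obtain ⟨o, ho⟩ : ∃ o, k o ≠ o := by
        by_contra hcon
        push Not at hcon
        exact hk (Equiv.ext hcon)
      classical
      obtain ⟨k', hk'⟩ : ∃ k' : Equiv.Perm O, k' = Equiv.swap o (k o) * k := ⟨_, rfl⟩
      obtain ⟨F', hF'⟩ : ∃ F' : (O → G) → ℂ, F' = fun n => if n o = 1 then F n else 0 := ⟨_, rfl⟩
      have hF1 : ∀ n, n o = 1 → F' n = F n := fun n hn => by rw [hF']; exact if_pos hn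
      have hF0 : ∀ n, n o ≠ 1 → F' n = 0 := fun n hn => by rw [hF']; exact if_neg hn
      have hF'i : ∀ n, IsIntegral ℤ (F' n) := by
        intro n
        by_cases hn : n o = 1
        · rw [hF1 n hn]
          exact hFi n
        · rw [hF0 n hn]
          exact isIntegral_zero
      have hlt : k'.support.card < c := by
        rw [hc, hk']
        exact Equiv.Perm.card_support_swap_mul ho
      have htr : ∀ {α : Type} (f : O → α), (∀ a, f (k a) = f a) → ∀ a, f (k' a) = f a := by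
        intro α f hf a
        rw [hk', Equiv.Perm.mul_apply]
        by_cases h3 : k a = o
        · rw [h3, Equiv.swap_apply_left, hf, ← h3, hf]
        · by_cases h4 : k a = k o
          · rw [h4, Equiv.swap_apply_right, ← hf a, h4, hf]
          · rw [Equiv.swap_apply_of_ne_of_ne h3 h4, hf]
      have hA := h1 O G k S θ m M kS km kM hMD (fun a => (hI a).1.one_ne_zero) F hF o k' ho hk'
        F' hF1 hF0
      have hA' := h1 O G k S' θ' m' M' kS' km' kM' hMD' (fun a => (hI' a).1.one_ne_zero) F hF o k'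
        ho hk' F' hF1 hF0
      obtain ⟨i1, i2, i3⟩ := ih _ hlt k' rfl S S' θ θ' m m' M M' (htr S kS) (htr θ kθ) (htr m km)
        (htr M kM) (htr S' kS') (htr θ' kθ') (htr m' km') (htr M' kM') hI hI' hMD hMD' hz hz' hcg
        F' hA.1 hF'i
      obtain ⟨j1, j2, j3⟩ := red_codeg_eq 𝔐 hℓ (hI o) (hI' o) (hz o) (hz' o) (hcg o)
      rw [hA.2, hA'.2]
      refine ⟨j1.mul i1, j2.mul i2, ?_⟩
      rw [red_mul 𝔐 j1 i1, red_mul 𝔐 j2 i2, i3, j3]

end Pool.Agent.DP


end

section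

/-!
LSEP: characters of defect zero are separated by the orbit sums under a group of automorphisms
which contains the inner automorphisms.
-/

namespace Pool.Agent.DP

open Pool.Agent.Lib_helper13 Representation
open Pool.Agent.Lib_helper13.Dade (pCore DadeHolds)

namespace LSEP

variable {G B : Type} [Group G] [Group B]

/-- The orbits of `T` on `G`. -/
def rel (κ : B →* MulAut G) (T : Subgroup B) : Setoid G where
  r x g := ∃ t ∈ T, x = κ t g
  iseqv := by
    refine ⟨fun x => ⟨1, T.one_mem, by simp⟩, ?_, ?_⟩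
    · rintro x y ⟨t, ht, rfl⟩
      refine ⟨t⁻¹, T.inv_mem ht, ?_⟩
      rw [← MulAut.mul_apply, ← map_mul, inv_mul_cancel, map_one, MulAut.one_apply]
    · rintro x y z ⟨t, ht, rfl⟩ ⟨s, hs, rfl⟩
      exact ⟨t * s, T.mul_mem ht hs, by rw [map_mul, MulAut.mul_apply]⟩

open Classical in
/-- The indicator of the orbits of `T`. -/
noncomputable def od (κ : B →* MulAut G) (T : Subgroup B) (x g : G) : ℂ :=
  if ∃ t ∈ T, x = κ t g then 1 else 0

theorem isIntegral_od (κ : B →* MulAut G) (T : Subgroup B) (x g : G) :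
    IsIntegral ℤ (od κ T x g) := by
  rw [od]
  split_ifs
  · exact isIntegral_one
  · exact isIntegral_zero

theorem od_conj (κ : B →* MulAut G) (T : Subgroup B)
    (hT : ∀ g : G, ∃ t ∈ T, κ t = MulAut.conj g) (a x g : G) :
    od κ T (a * x * a⁻¹) g = od κ T x g := by
  obtain ⟨s, hs, hs'⟩ := hT a
  have h1 : a * x * a⁻¹ = κ s x := by rw [hs', MulAut.conj_apply]
  have h2 : (∃ t ∈ T, a * x * a⁻¹ = κ t g) ↔ ∃ t ∈ T, x = κ t g := by
    rw [h1]
    constructor
    · rintro ⟨t, ht, h⟩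
      refine ⟨s⁻¹ * t, T.mul_mem (T.inv_mem hs) ht, ?_⟩
      rw [map_mul, MulAut.mul_apply, ← h, ← MulAut.mul_apply, ← map_mul, inv_mul_cancel, map_one,
        MulAut.one_apply]
    · rintro ⟨t, ht, rfl⟩
      exact ⟨s * t, T.mul_mem hs ht, by rw [map_mul, MulAut.mul_apply]⟩
  rw [od, od]
  by_cases h3 : ∃ t ∈ T, x = κ t g
  · rw [if_pos h3, if_pos (h2.mpr h3)]
  · rw [if_neg h3, if_neg (fun h => h3 (h2.mp h))]

variable [Fintype G] [Fintype B]

omit [Fintype B] in
theorem isIntegral_orb (κ : B →* MulAut G) (T : Subgroup B)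
    (hT : ∀ g : G, ∃ t ∈ T, κ t = MulAut.conj g) {S : Subgroup G} {f : G → ℂ} (hf : IrrOn S f)
    (g : G) : IsIntegral ℤ ((∑ x, od κ T x g * f x) / f 1) := by
  classical
  have h1 := AA.wt_sub S hf.2 (fun x => od κ T x g)
  have h2 : IsIntegral ℤ (wt (fun s : S => f s) (fun s : S => od κ T s g)) := by
    refine isIntegral_wt hf.1 _ ?_ fun y => isIntegral_od κ T _ _
    intro a x
    exact od_conj κ T hT (a : G) (x : G) g
  rw [h1] at h2
  exact h2

/-- The value of an invariant weight depends only on the orbit function. -/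
theorem red_inv (𝔐 : Ideal (integralClosure ℤ ℂ)) (κ : B →* MulAut G) (T : Subgroup B)
    [Fintype (Quotient (rel κ T))]
    (hT : ∀ g : G, ∃ t ∈ T, κ t = MulAut.conj g) {S : Subgroup G} {f : G → ℂ} (hf : IrrOn S f)
    {F : G → ℂ} (hF : ∀ t ∈ T, ∀ g, F (κ t g) = F g) (hi : ∀ g, IsIntegral ℤ (F g)) :
    red 𝔐 ((∑ x, F x * f x) / f 1) =
      ∑ q : Quotient (rel κ T), red 𝔐 (F q.out) * cgO 𝔐 κ T f q.out := by
  classical
  have h1 : ∀ x, ∑ q : Quotient (rel κ T), F q.out * od κ T x q.out = F x := by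
    intro x
    rw [Finset.sum_eq_single (Quotient.mk (rel κ T) x)]
    · have h2 : (rel κ T).r x (Quotient.mk (rel κ T) x).out :=
        (rel κ T).iseqv.symm (Quotient.mk_out (s := rel κ T) x)
      obtain ⟨t, ht, h⟩ := h2
      rw [od, if_pos ⟨t, ht, h⟩, mul_one]
      conv_rhs => rw [h]
      rw [hF t ht]
    · intro q _ hq
      rw [od, if_neg, mul_zero]
      rintro ⟨t, ht, h⟩
      apply hq
      rw [← Quotient.out_eq q]
      exact Quotient.sound (s := rel κ T) ((rel κ T).iseqv.symm ⟨t, ht, h⟩)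
    · intro h
      exact absurd (Finset.mem_univ _) h
  have h2 : (∑ x, F x * f x) / f 1 =
      ∑ q : Quotient (rel κ T), F q.out * ((∑ x, od κ T x q.out * f x) / f 1) := by
    have h3 : ∑ x, F x * f x =
        ∑ q : Quotient (rel κ T), F q.out * ∑ x, od κ T x q.out * f x := by
      simp_rw [Finset.mul_sum]
      rw [Finset.sum_comm]
      refine Finset.sum_congr rfl fun x _ => ?_
      rw [← h1 x, Finset.sum_mul]
      refine Finset.sum_congr rfl fun q _ => ?_
      rw [mul_assoc]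
    rw [h3, Finset.sum_div]
    exact Finset.sum_congr rfl fun q _ => mul_div_assoc _ _ _
  rw [h2, red_sum]
  · refine Finset.sum_congr rfl fun q _ => ?_
    rw [red_mul 𝔐 (hi _) (isIntegral_orb κ T hT hf _)]
    rfl
  · intro q _
    exact (hi _).mul (isIntegral_orb κ T hT hf _)

theorem irrOn_top {θ : G → ℂ} (h : IsIrr θ) : IrrOn (⊤ : Subgroup G) θ := by
  refine ⟨?_, fun x hx => absurd (Subgroup.mem_top x) hx⟩
  exact h.comp_mulEquiv (Subgroup.topEquiv (G := G))

/-- The multiplicity of a character of `G` in a character of `S`. -/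
theorem mult {S : Subgroup G} {f : G → ℂ} (hf : IrrOn S f) {N : ℕ}
    (hN : (Nat.card S : ℂ) / f 1 = N) {φ : G → ℂ} (hφ : IsIrr φ) :
    ∃ m : ℕ, (∑ x, φ x⁻¹ * f x) / f 1 = ((N * m : ℕ) : ℂ) := by
  classical
  obtain ⟨m, hm⟩ := hf.1.isChr.exists_mult (hφ.isChr.comp S.subtype)
  refine ⟨m, ?_⟩
  have h1 := AA.wt_sub S hf.2 (fun x => φ x⁻¹)
  rw [wt, wt] at h1
  rw [← h1]
  have h2 : ∑ y : S, φ (y : G)⁻¹ * f y = Nat.card S * m := by
    rw [← hm]
    refine Finset.sum_congr rfl fun y _ => ?_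
    rw [mul_comm]
    rfl
  rw [h2]
  have h3 : ((1 : S) : G) = 1 := rfl
  rw [h3, mul_div_right_comm, hN]
  push_cast
  rfl

open Classical in
/-- The orbit of a character. -/
noncomputable def orb (κ : B →* MulAut G) (T : Subgroup B) (θ : G → ℂ) : Finset (G → ℂ) :=
  (Finset.univ.filter (fun t => t ∈ T)).image (fun t g => θ (κ t g))

theorem mem_orb {κ : B →* MulAut G} {T : Subgroup B} {θ φ : G → ℂ} :
    φ ∈ orb κ T θ ↔ ∃ t ∈ T, φ = fun g => θ (κ t g) := by
  classical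
  rw [orb, Finset.mem_image]
  constructor
  · rintro ⟨t, ht, rfl⟩
    exact ⟨t, (Finset.mem_filter.mp ht).2, rfl⟩
  · rintro ⟨t, ht, rfl⟩
    exact ⟨t, Finset.mem_filter.mpr ⟨Finset.mem_univ _, ht⟩, rfl⟩

theorem orb_irr {κ : B →* MulAut G} {T : Subgroup B} {θ φ : G → ℂ} (hθ : IsIrr θ)
    (h : φ ∈ orb κ T θ) : IsIrr φ := by
  obtain ⟨t, _, rfl⟩ := mem_orb.mp h
  exact hθ.comp_mulEquiv (κ t)

theorem orb_shift {κ : B →* MulAut G} {T : Subgroup B} {θ φ : G → ℂ} {s : B} (hs : s ∈ T)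
    (h : φ ∈ orb κ T θ) : (fun g => φ (κ s g)) ∈ orb κ T θ := by
  obtain ⟨t, ht, rfl⟩ := mem_orb.mp h
  refine mem_orb.mpr ⟨t * s, T.mul_mem ht hs, ?_⟩
  funext g
  rw [map_mul, MulAut.mul_apply]

end LSEP

theorem LSEP_thm : Stmt_LSEP := by
  classical
  intro G B _ _ _ _ 𝔐 ℓ hℓp κ h𝔐 hℓ T hT S ψ θ hψ hθ h0 hc
  have : 𝔐.IsPrime := h𝔐.isPrime
  by_contra hdf
  let : Fintype (Quotient (LSEP.rel κ T)) := Fintype.ofFinite _
  obtain ⟨F, hFd⟩ : ∃ F : G → ℂ, F = fun g => ∑ φ ∈ LSEP.orb κ T θ, φ g⁻¹ := ⟨_, rfl⟩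
  have hFi : ∀ g, IsIntegral ℤ (F g) := by
    intro g
    rw [hFd]
    exact isIntegral_sum _ _ fun φ hφ => isIntegral_char (LSEP.orb_irr hθ hφ) _
  have hF : ∀ t ∈ T, ∀ g, F (κ t g) = F g := by
    intro t ht g
    rw [hFd]
    simp only
    refine Finset.sum_nbij' (fun φ x => φ (κ t x)) (fun φ x => φ (κ t⁻¹ x))
      (fun φ hφ => LSEP.orb_shift ht hφ) (fun φ hφ => LSEP.orb_shift (T.inv_mem ht) hφ) ?_ ?_ ?_
    · intro φ _
      funext x
      simp only
      rw [← MulAut.mul_apply, ← map_mul, mul_inv_cancel, map_one, MulAut.one_apply]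
    · intro φ _
      funext x
      simp only
      rw [← MulAut.mul_apply, ← map_mul, inv_mul_cancel, map_one, MulAut.one_apply]
    · intro φ _
      simp only
      rw [map_inv]
  have e1 := LSEP.red_inv 𝔐 κ T hT hψ hF hFi
  have e2 := LSEP.red_inv 𝔐 κ T hT (LSEP.irrOn_top hθ) hF hFi
  rw [hc, ← e2] at e1
  -- the value at `θ`
  have w1 : (∑ x, F x * θ x) / θ 1 = Nat.card G / θ 1 := by
    congr 1
    have h1 : ∑ x, F x * θ x = ∑ φ ∈ LSEP.orb κ T θ, ∑ x, φ x⁻¹ * θ x := by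
      rw [hFd, Finset.sum_comm]
      exact Finset.sum_congr rfl fun x _ => Finset.sum_mul _ _ _
    rw [h1, Finset.sum_eq_single θ]
    · rw [← hθ.sum_self]
      exact Finset.sum_congr rfl fun x _ => mul_comm _ _
    · intro φ hφ hne
      rw [← hθ.sum_ne (LSEP.orb_irr hθ hφ) (fun h => hne h.symm)]
      exact Finset.sum_congr rfl fun x _ => mul_comm _ _
    · intro h
      exact absurd (LSEP.mem_orb.mpr ⟨1, T.one_mem, by simp⟩) h
  -- the value at `ψ`
  obtain ⟨N, hN, hdvd⟩ := AA.codeg (ℓ := ℓ) hψ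
  have w2 : ∃ m : ℕ, (∑ x, F x * ψ x) / ψ 1 = ((N * m : ℕ) : ℂ) := by
    have h1 : (∑ x, F x * ψ x) / ψ 1 =
        ∑ φ ∈ LSEP.orb κ T θ, (∑ x, φ x⁻¹ * ψ x) / ψ 1 := by
      rw [← Finset.sum_div]
      congr 1
      rw [hFd, Finset.sum_comm]
      exact Finset.sum_congr rfl fun x _ => Finset.sum_mul _ _ _
    have h2 : ∀ φ : G → ℂ, ∃ m : ℕ, φ ∈ LSEP.orb κ T θ →
        (∑ x, φ x⁻¹ * ψ x) / ψ 1 = ((N * m : ℕ) : ℂ) := by
      intro φ
      by_cases hφ : φ ∈ LSEP.orb κ T θ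
      · obtain ⟨m, hm⟩ := LSEP.mult hψ hN (LSEP.orb_irr hθ hφ)
        exact ⟨m, fun _ => hm⟩
      · exact ⟨0, fun h => absurd h hφ⟩
    choose m hm using h2
    refine ⟨∑ φ ∈ LSEP.orb κ T θ, m φ, ?_⟩
    rw [h1, Finset.sum_congr rfl hm, Finset.mul_sum]
    push_cast
    rfl
  obtain ⟨m, hm⟩ := w2
  obtain ⟨r, hr⟩ : ℓ ∣ N * m := (hdvd hdf).mul_right m
  apply red_codeg_ne_zero 𝔐 hℓ hθ h0
  rw [← w1, ← e1, hm, hr]
  push_cast
  rw [red_natCast_mul 𝔐 ℓ (Lib_helper13.isIntegral_natCast r), nsmul_quot_eq_zero 𝔐 hℓ]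

end Pool.Agent.DP


end

section

/-!
AAH: modulo a maximal ideal the weighted sum depends only on the central functions.
-/

namespace Pool.Agent.DP.AAH

open Pool.Agent.Lib_helper13 Pool.Agent.DP

section

variable {G B C : Type} [Group G] [Fintype G] [Group B] [Fintype B] [Group C]

/-- conjugacy under the subgroup `T` -/
def st (T : Subgroup B) : Setoid B where
  r x y := ∃ t ∈ T, x = t * y * t⁻¹
  iseqv :=
    { refl := fun x => ⟨1, T.one_mem, by simp⟩
      symm := by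
        rintro x y ⟨t, ht, rfl⟩
        exact ⟨t⁻¹, T.inv_mem ht, by group⟩
      trans := by
        rintro x y z ⟨t, ht, rfl⟩ ⟨s, hs, rfl⟩
        exact ⟨t * s, T.mul_mem ht hs, by group⟩ }

omit [Fintype B] in
theorem TH_one {O : Type} [Fintype O] [DecidableEq O] (S : O → Subgroup B) (θ : O → B → ℂ)
    (m : O → ℕ) (M : O → B → ℕ → ℕ → ℂ) (hMD : ∀ o, MD (S o) (θ o) (m o) (M o)) (n : O → B)
    (hn : ∀ o, n o ∈ S o) : TH m M 1 n = ∏ o, θ o (n o) := by
  unfold TH
  have h1 : ∀ o, θ o (n o) = ∑ i ∈ Finset.range (m o), M o (n o) i i :=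
    fun o => (hMD o).tr _ (hn o)
  simp only [h1]
  rw [Finset.prod_univ_sum]
  rfl

theorem aS_one {O : Type} [Fintype O] [DecidableEq O] (S : O → Subgroup B) (θ : O → B → ℂ)
    (m : O → ℕ) (M : O → B → ℕ → ℕ → ℂ) (hI : ∀ o, IrrOn (S o) (θ o))
    (hMD : ∀ o, MD (S o) (θ o) (m o) (M o)) (F : (O → B) → ℂ) :
    aS S θ m M 1 F = ∑ z : O → B, F z * ∏ o, θ o (z o) / θ o 1 := by
  classical
  unfold aS
  rw [Finset.sum_div]
  have h1 : ∀ n : ∀ o, S o, F (fun o => n o) * TH m M 1 (fun o => (n o : B)) / ∏ o, θ o 1 =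
      (fun z : O → B => F z * ∏ o, θ o (z o) / θ o 1) (fun o => (n o : B)) := by
    intro n
    rw [TH_one S θ m M hMD _ (fun o => (n o).2), mul_div_assoc]
    change _ = F (fun o => (n o : B)) * ∏ o, θ o (n o : B) / θ o 1
    rw [Finset.prod_div_distrib]
  rw [Finset.sum_congr rfl fun n _ => h1 n]
  refine Fintype.sum_of_injective (fun (n : ∀ o, S o) (o : O) => (n o : B)) ?_ _ _ ?_ ?_
  · intro a b hab
    funext o
    apply Subtype.ext
    exact congrFun hab o
  · intro z hz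
    have h2 : ∃ o, z o ∉ S o := by
      by_contra hcon
      push Not at hcon
      exact hz ⟨fun o => ⟨z o, hcon o⟩, rfl⟩
    obtain ⟨o, ho⟩ := h2
    rw [Finset.prod_eq_zero (Finset.mem_univ o), mul_zero]
    rw [(hI o).2 _ ho, zero_div]
  · intro n
    rfl

theorem cgT_eq (𝔐 : Ideal (integralClosure ℤ ℂ)) (T : Subgroup B) (f : B → ℂ) (g : B) :
    cgT 𝔐 T f g = red 𝔐 (∑ x, cjT T x g * (f x / f 1)) := by
  unfold cgT
  rw [Finset.sum_div]
  congr 1
  exact Finset.sum_congr rfl fun x _ => mul_div_assoc _ _ _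

theorem ite_iff {P Q : Prop} (i : Decidable P) (j : Decidable Q) (h : P ↔ Q) :
    (@ite ℂ P i 1 0) = @ite ℂ Q j 1 0 := by
  by_cases hP : P
  · rw [if_pos hP, if_pos (h.mp hP)]
  · rw [if_neg hP, if_neg (fun hQ => hP (h.mpr hQ))]

theorem int_class (h2 : Stmt_INTH) (ι : G →* B) (κ : B →* MulAut G) (ρ : B →* C)
    (hcl : ClG ι κ ρ) (S : Subgroup B) (f : B → ℂ) (hf : IrrOn S f)
    (hf' : IrrOn (S.comap ι) (fun h => f (ι h))) (g : B) :
    IsIntegral ℤ (∑ x, cjT ι.range x g * (f x / f 1)) := by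
  have h1 := h2 G B C ι κ ρ hcl S f hf hf' (fun x => cjT ι.range x g) ?_ ?_
  · rw [Finset.sum_div] at h1
    have h3 : ∀ x, cjT ι.range x g * f x / f 1 = cjT ι.range x g * (f x / f 1) :=
      fun x => mul_div_assoc _ _ _
    rwa [Finset.sum_congr rfl fun x _ => h3 x] at h1
  · intro x
    unfold cjT
    split_ifs
    · exact isIntegral_one
    · exact isIntegral_zero
  · intro h x
    unfold cjT
    refine ite_iff _ _ ?_
    constructor
    · rintro ⟨t, ht, hx⟩
      refine ⟨(ι h)⁻¹ * t, mul_mem (inv_mem ⟨h, rfl⟩) ht, ?_⟩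
      have : x = (ι h)⁻¹ * (ι h * x * (ι h)⁻¹) * ι h := by group
      rw [this, hx]
      group
    · rintro ⟨t, ht, rfl⟩
      exact ⟨ι h * t, mul_mem ⟨h, rfl⟩ ht, by group⟩

/-- the class sum as a sum over the fibre -/
theorem fibre (T : Subgroup B) [DecidableEq (Quotient (st T))] (w : B → ℂ)
    (c : Quotient (st T)) :
    ∑ x ∈ Finset.univ.filter (fun x : B => (Quotient.mk (st T) x) = c), w x =
      ∑ x, cjT T x c.out * w x := by
  classical
  rw [Finset.sum_filter]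
  refine Finset.sum_congr rfl fun x _ => ?_
  unfold cjT
  have h1 : (Quotient.mk (st T) x = c) ↔ ∃ t ∈ T, x = t * c.out * t⁻¹ := by
    constructor
    · intro h
      have h3 : Quotient.mk (st T) x = Quotient.mk (st T) c.out := by
        rw [Quotient.out_eq, h]
      exact Quotient.exact h3
    · intro h
      have h3 : Quotient.mk (st T) x = Quotient.mk (st T) c.out := Quotient.sound h
      rw [h3, Quotient.out_eq]
  by_cases h : Quotient.mk (st T) x = c
  · rw [if_pos h, if_pos (h1.mp h), one_mul]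
  · rw [if_neg h, if_neg (fun h' => h (h1.mpr h')), zero_mul]

theorem sum_classes {O : Type} [Fintype O] [DecidableEq O] (T : Subgroup B)
    [Fintype (Quotient (st T))] [DecidableEq (Quotient (st T))]
    (F : (O → B) → ℂ)
    (hF : ∀ z z' : O → B, (∀ o, ∃ t ∈ T, z o = t * z' o * t⁻¹) → F z = F z')
    (w : O → B → ℂ) :
    ∑ z : O → B, F z * ∏ o, w o (z o) =
      ∑ c : O → Quotient (st T), F (fun o => (c o).out) * ∏ o, ∑ x, cjT T x (c o).out * w o x := by
  classical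
  rw [← Finset.sum_fiberwise (s := Finset.univ)
    (g := fun (z : O → B) (o : O) => Quotient.mk (st T) (z o))]
  refine Finset.sum_congr rfl fun c _ => ?_
  have h1 : ∀ z ∈ Finset.univ.filter (fun z : O → B =>
      (fun o => Quotient.mk (st T) (z o)) = c), F z * ∏ o, w o (z o) =
      F (fun o => (c o).out) * ∏ o, w o (z o) := by
    intro z hz
    rw [Finset.mem_filter] at hz
    congr 1
    apply hF
    intro o
    have h3 : Quotient.mk (st T) (z o) = Quotient.mk (st T) (c o).out := by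
      rw [Quotient.out_eq, ← hz.2]
    exact Quotient.exact h3
  rw [Finset.sum_congr rfl h1, ← Finset.mul_sum]
  congr 1
  have h2 : Finset.univ.filter (fun z : O → B => (fun o => Quotient.mk (st T) (z o)) = c) =
      Fintype.piFinset (fun o => Finset.univ.filter
        (fun x : B => Quotient.mk (st T) x = c o)) := by
    ext z
    rw [Finset.mem_filter, Fintype.mem_piFinset]
    simp only [Finset.mem_univ, true_and, Finset.mem_filter]
    exact funext_iff
  rw [h2, ← Finset.prod_univ_sum]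
  exact Finset.prod_congr rfl fun o _ => fibre T (w o) (c o)

theorem base {O : Type} [Fintype O] [DecidableEq O] (𝔐 : Ideal (integralClosure ℤ ℂ))
    [𝔐.IsPrime] (h2 : Stmt_INTH) (ι : G →* B) (κ : B →* MulAut G) (ρ : B →* C)
    (hcl : ClG ι κ ρ) [Fintype (Quotient (st ι.range))] [DecidableEq (Quotient (st ι.range))]
    (S : O → Subgroup B) (θ : O → B → ℂ) (m : O → ℕ)
    (M : O → B → ℕ → ℕ → ℂ) (hI : ∀ o, IrrOn (S o) (θ o))
    (hR : ∀ o, IrrOn ((S o).comap ι) (fun h => θ o (ι h)))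
    (hMD : ∀ o, MD (S o) (θ o) (m o) (M o)) (F : (O → B) → ℂ)
    (hF : ∀ (x : O → G) (z : O → B), F (fun o => ι (x o) * z o * (ι (x o))⁻¹) = F z)
    (hFi : ∀ n, IsIntegral ℤ (F n)) :
    IsIntegral ℤ (aS S θ m M 1 F) ∧
      red 𝔐 (aS S θ m M 1 F) = ∑ c : O → Quotient (st ι.range),
        red 𝔐 (F (fun o => (c o).out)) * ∏ o, cgT 𝔐 ι.range (θ o) (c o).out := by
  have hF' : ∀ z z' : O → B, (∀ o, ∃ t ∈ ι.range, z o = t * z' o * t⁻¹) → F z = F z' := by
    intro z z' h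
    choose t ht hz using h
    choose x hx using ht
    rw [← hF x z']
    congr 1
    funext o
    rw [hz o, hx o]
  rw [aS_one S θ m M hI hMD, sum_classes ι.range F hF' (fun o x => θ o x / θ o 1)]
  have hint : ∀ (c : O → Quotient (st ι.range)) (o : O),
      IsIntegral ℤ (∑ x, cjT ι.range x (c o).out * (θ o x / θ o 1)) :=
    fun c o => int_class h2 ι κ ρ hcl (S o) (θ o) (hI o) (hR o) _
  have hint2 : ∀ c : O → Quotient (st ι.range), IsIntegral ℤ
      (∏ o, ∑ x, cjT ι.range x (c o).out * (θ o x / θ o 1)) :=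
    fun c => IsIntegral.prod _ fun o _ => hint c o
  constructor
  · exact IsIntegral.sum _ fun c _ => (hFi _).mul (hint2 c)
  · rw [red_sum 𝔐 _ _ fun c _ => (hFi _).mul (hint2 c)]
    refine Finset.sum_congr rfl fun c _ => ?_
    rw [red_mul 𝔐 (hFi _) (hint2 c), red_prod 𝔐 _ _ fun o _ => hint c o]
    congr 1
    exact Finset.prod_congr rfl fun o _ => (cgT_eq 𝔐 ι.range (θ o) _).symm

theorem cg_of_cgT (𝔐 : Ideal (integralClosure ℤ ℂ)) (ι : G →* B) (hι : Function.Injective ι)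
    (f : B → ℂ) (g : G) : cg 𝔐 (fun h => f (ι h)) g = cgT 𝔐 ι.range f (ι g) := by
  classical
  unfold cg cgT
  simp only [map_one]
  congr 2
  refine Fintype.sum_of_injective ι hι _ _ ?_ ?_
  · intro x hx
    unfold cjT
    rw [if_neg, zero_mul]
    rintro ⟨t, ⟨h, rfl⟩, rfl⟩
    exact hx ⟨h * g * h⁻¹, by simp⟩
  · intro x
    congr 1
    unfold conjInd cjT
    refine ite_iff _ _ ?_
    rw [isConj_iff]
    constructor
    · rintro ⟨c, hc⟩
      refine ⟨ι c⁻¹, ⟨c⁻¹, rfl⟩, ?_⟩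
      rw [← hc]
      simp only [map_mul, map_inv, inv_inv]
      group
    · rintro ⟨t, ⟨h, rfl⟩, hx⟩
      refine ⟨h⁻¹, hι ?_⟩
      simp only [map_mul, map_inv, inv_inv, hx]
      group

end

end Pool.Agent.DP.AAH

namespace Pool.Agent.DP

open Pool.Agent.Lib_helper13 Pool.Agent.DP.AAH in
theorem AAH_thm (h1 : Stmt_AAKH) (h2 : Stmt_INTH) : Stmt_AAH := by
  classical
  intro O G B C _ _ _ _ _ _ _ 𝔐 ℓ _ hmax hℓ ι κ ρ hcl hsurj k
  have : 𝔐.IsPrime := hmax.isPrime
  have hfin : Fintype (Quotient (st ι.range)) := Fintype.ofFinite _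
  have hfinC : Fintype C := Fintype.ofSurjective ρ hsurj
  obtain ⟨c, hc⟩ : ∃ c, c = k.support.card := ⟨_, rfl⟩
  induction c using Nat.strong_induction_on generalizing k with
  | _ c ih =>
    intro S S' θ θ' m m' M M' kS kθ km kM kS' kθ' km' kM' hI hR hI' hR' hMD hMD' hz hz' hSS hcg
      F hF hFi
    by_cases hk : k = 1
    · subst hk
      have hF' : ∀ (x : O → G) (z : O → B), F (fun o => ι (x o) * z o * (ι (x o))⁻¹) = F z :=
        fun g x => hF g x
      have hb := AAH.base 𝔐 h2 ι κ ρ hcl S θ m M hI hR hMD F hF' hFi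
      have hb' := AAH.base 𝔐 h2 ι κ ρ hcl S' θ' m' M' hI' hR' hMD' F hF' hFi
      refine ⟨hb.1, hb'.1, ?_⟩
      rw [hb.2, hb'.2]
      refine Finset.sum_congr rfl fun c _ => ?_
      congr 1
      exact Finset.prod_congr rfl fun o _ => by rw [hcg o]
    · obtain ⟨o, ho⟩ : ∃ o, k o ≠ o := by
        by_contra hcon
        push Not at hcon
        exact hk (Equiv.ext hcon)
      obtain ⟨k', hk'⟩ : ∃ k' : Equiv.Perm O, k' = Equiv.swap o (k o) * k := ⟨_, rfl⟩
      obtain ⟨s, hs⟩ : ∃ s : C → B, ∀ c, ρ (s c) = c := ⟨Function.surjInv hsurj,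
        Function.surjInv_eq hsurj⟩
      obtain ⟨F', hF'⟩ : ∃ F' : (O → B) → ℂ, F' = fun z => if z o = 1 then
        ∑ c : C, (if c ∈ (S o).map ρ then
          F (fun a => if a = o then s c else if a = k o then z (k o) * (s c)⁻¹ else z a) else 0)
          else 0 := ⟨_, rfl⟩
      have hF1 : ∀ z, z o = 1 → F' z = ∑ c : C, if c ∈ (S o).map ρ then
          F (fun a => if a = o then s c else if a = k o then z (k o) * (s c)⁻¹ else z a) else 0 :=
        fun n hn => by rw [hF']; exact if_pos hn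
      have hF1' : ∀ z, z o = 1 → F' z = ∑ c : C, if c ∈ (S' o).map ρ then
          F (fun a => if a = o then s c else if a = k o then z (k o) * (s c)⁻¹ else z a) else 0 := by
        rw [← hSS o]
        exact hF1
      have hF0 : ∀ n, n o ≠ 1 → F' n = 0 := fun n hn => by rw [hF']; exact if_neg hn
      have hF'i : ∀ n, IsIntegral ℤ (F' n) := by
        intro n
        by_cases hn : n o = 1
        · rw [hF1 n hn]
          refine IsIntegral.sum _ fun c _ => ?_
          split_ifs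
          · exact hFi _
          · exact isIntegral_zero
        · rw [hF0 n hn]
          exact isIntegral_zero
      have hlt : k'.support.card < c := by
        rw [hc, hk']
        exact Equiv.Perm.card_support_swap_mul ho
      have htr : ∀ {α : Type} (f : O → α), (∀ a, f (k a) = f a) → ∀ a, f (k' a) = f a := by
        intro α f hf a
        rw [hk', Equiv.Perm.mul_apply]
        by_cases h3 : k a = o
        · rw [h3, Equiv.swap_apply_left, hf, ← h3, hf]
        · by_cases h4 : k a = k o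
          · rw [h4, Equiv.swap_apply_right, ← hf a, h4, hf]
          · rw [Equiv.swap_apply_of_ne_of_ne h3 h4, hf]
      have hA := h1 O G B C ι κ ρ hcl hsurj k S θ m M kS km kM hMD
        (fun a => (hI a).1.one_ne_zero) F hF o k' ho hk' s hs F' hF1 hF0
      have hA' := h1 O G B C ι κ ρ hcl hsurj k S' θ' m' M' kS' km' kM' hMD'
        (fun a => (hI' a).1.one_ne_zero) F hF o k' ho hk' s hs F' hF1' hF0
      obtain ⟨i1, i2, i3⟩ := ih _ hlt k' rfl S S' θ θ' m m' M M' (htr S kS) (htr θ kθ) (htr m km)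
        (htr M kM) (htr S' kS') (htr θ' kθ') (htr m' km') (htr M' kM') hI hR hI' hR' hMD hMD'
        hz hz' hSS hcg F' hA.1 hF'i
      have hcg' : cg 𝔐 (fun h => θ o (ι h)) = cg 𝔐 (fun h => θ' o (ι h)) := by
        funext g
        rw [cg_of_cgT 𝔐 ι hcl.inj, cg_of_cgT 𝔐 ι hcl.inj, hcg o]
      obtain ⟨j1, j2, j3⟩ := AA.red_codeg_eq 𝔐 hℓ (hR o) (hR' o) (hz o) (hz' o) hcg'
      simp only [map_one] at j1 j2 j3
      rw [hA.2, hA'.2]
      refine ⟨j1.mul i1, j2.mul i2, ?_⟩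
      rw [red_mul 𝔐 j1 i1, red_mul 𝔐 j2 i2, i3, j3]

end Pool.Agent.DP


end
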