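import Mathlib
import Pool.Agent.DAM.C11
import Pool.Agent.DAM.C12
import Pool.Agent.DAM.C23

/-! Parts: DPC.TRBR, DPB.BRU -/

section

/-!
# TRBR: transports of the data
-/

namespace Pool.Agent.DPC

open Pool.Agent.DP

open Pool.Agent.Lib_helper13 Representation
open Pool.Agent.Lib_helper13.Dade (pCore DadeHolds)

namespace TRBR

variable {O G B C : Type*} [Group G] [Group B] [Group C] [Fintype O] [DecidableEq O] [Fintype G]
  [Fintype B]

theorem map_bot_iff {H : Type*} [Group H] (D : Subgroup H) (e : MulAut H) (h : D = ⊥) :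
    D.map e.toMonoidHom = D := by
  rw [h, Subgroup.map_bot]

theorem trB_iff (κ : B →* MulAut G) (τ : Finset (Subgroup (O → G))) (θ : O → G → ℂ) (o : O)
    (g : B) : trB κ τ θ o o g ↔ g ∈ Stx κ (comp τ o) (θ o) := by
  constructor
  · rintro ⟨h1, h2⟩
    refine ⟨fun D hD => ?_, h2⟩
    obtain ⟨-, E, hE, rfl⟩ := mem_comp.mp hD
    exact h1 E hE
  · rintro ⟨h1, h2⟩
    refine ⟨fun D hD => ?_, h2⟩
    by_cases hb : prj o D = ⊥
    · exact map_bot_iff _ _ hb
    · exact h1 _ (mem_comp.mpr ⟨hb, D, hD, rfl⟩)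

theorem kappa_iota {ι : G →* B} {κ : B →* MulAut G} {ρ : B →* C} (h : ClG ι κ ρ) (x : G) :
    κ (ι x) = MulAut.conj x := by
  ext y
  apply h.inj
  rw [h.act, MulAut.conj_apply, map_mul, map_mul, map_inv]

theorem irrOn_conj {S : Subgroup G} {f : G → ℂ} (h : IrrOn S f) {x : G} (hx : x ∈ S) (y : G) :
    f (x * y * x⁻¹) = f y := by
  by_cases hy : y ∈ S
  · have := h.1.conj_eq ⟨x, hx⟩ ⟨y, hy⟩
    exact this
  · rw [h.2 y hy, h.2]
    intro h'
    apply hy
    have : y = x⁻¹ * (x * y * x⁻¹) * x := by group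
    rw [this]
    exact S.mul_mem (S.mul_mem (S.inv_mem hx) h') hx

theorem iota_mem {ι : G →* B} {κ : B →* MulAut G} {ρ : B →* C} (h : ClG ι κ ρ)
    {σ : Finset (Subgroup G)} {ψ : G → ℂ} (hψ : IrrOn (stb σ) ψ) (x : G) :
    ι x ∈ Stx κ σ ψ ↔ x ∈ stb σ := by
  constructor
  · rintro ⟨h1, -⟩
    rw [mem_stb]
    intro D hD
    have := h1 D hD
    rwa [kappa_iota h] at this
  · intro hx
    refine ⟨fun D hD => ?_, fun y => ?_⟩
    · rw [kappa_iota h]
      exact mem_stb.mp hx D hD
    · rw [kappa_iota h, MulAut.conj_apply]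
      exact irrOn_conj hψ hx y

theorem exists_iota {ι : G →* B} {κ : B →* MulAut G} {ρ : B →* C} (h : ClG ι κ ρ) {a b : B}
    (hab : ρ a = ρ b) : ∃ x, a = ι x * b := by
  have h1 : ρ (a * b⁻¹) = 1 := by rw [map_mul, map_inv, hab, mul_inv_cancel]
  obtain ⟨x, hx⟩ := (h.ker _).mp h1
  exact ⟨x, by rw [hx, inv_mul_cancel_right]⟩

theorem rho_conj {ρ : B →* C} (hc : IsCyclic C) (g x : B) : ρ (g * x * g⁻¹) = ρ x := by
  let _ : CommGroup C := IsCyclic.commGroup
  rw [map_mul, map_mul, map_inv, mul_comm (ρ g) (ρ x), mul_inv_cancel_right]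

variable {κ : B →* MulAut G} {τ : Finset (Subgroup (O → G))} {θ : O → G → ℂ} {a b : O} {g : B}

theorem mem_conj (h : trB κ τ θ a b g) (x : B) :
    x ∈ Stx κ (comp τ a) (θ a) ↔ g * x * g⁻¹ ∈ Stx κ (comp τ b) (θ b) := by
  rw [← trB_iff, ← trB_iff]
  constructor
  · intro hx
    exact (h.mul hx).mul h.inv
  · intro hx
    have h1 : trB κ τ θ a a (g⁻¹ * (g * x * g⁻¹) * g) := (h.inv.mul hx).mul h
    have h2 : g⁻¹ * (g * x * g⁻¹) * g = x := by group
    rwa [h2] at h1

theorem mem_conj' (h : trB κ τ θ a b g) (x : B) :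
    x ∈ Stx κ (comp τ b) (θ b) ↔ g⁻¹ * x * g ∈ Stx κ (comp τ a) (θ a) := by
  rw [mem_conj h]
  have h2 : g * (g⁻¹ * x * g) * g⁻¹ = x := by group
  rw [h2]

theorem ext_transport {ι : G →* B} {ρ : B →* C} (hcl : ClG ι κ ρ) (hc : IsCyclic C)
    (h : trB κ τ θ a b g) (L : Subgroup C) (f : B → ℂ)
    (hf : ExtL ι κ ρ (comp τ a) (θ a) L f) :
    ExtL ι κ ρ (comp τ b) (θ b) L (fun x => f (g⁻¹ * x * g)) := by
  have hmem : ∀ x, x ∈ Stx κ (comp τ b) (θ b) ⊓ L.comap ρ ↔
      g⁻¹ * x * g ∈ Stx κ (comp τ a) (θ a) ⊓ L.comap ρ := by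
    intro x
    rw [Subgroup.mem_inf, Subgroup.mem_inf, mem_conj' h, Subgroup.mem_comap, Subgroup.mem_comap]
    have : ρ (g⁻¹ * x * g) = ρ x := by
      have := rho_conj (ρ := ρ) hc g⁻¹ x
      rwa [inv_inv] at this
    rw [this]
  refine ⟨⟨?_, ?_⟩, ?_⟩
  · let e : (Stx κ (comp τ b) (θ b) ⊓ L.comap ρ : Subgroup B) ≃*
        (Stx κ (comp τ a) (θ a) ⊓ L.comap ρ : Subgroup B) :=
      { toFun := fun x => ⟨g⁻¹ * x * g, (hmem x).mp x.2⟩
        invFun := fun x => ⟨g * x * g⁻¹, (hmem _).mpr (by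
          have : g⁻¹ * (g * (x : B) * g⁻¹) * g = x := by group
          rw [this]
          exact x.2)⟩
        left_inv := fun x => Subtype.ext (by
          change g * (g⁻¹ * (x : B) * g) * g⁻¹ = x
          group)
        right_inv := fun x => Subtype.ext (by
          change g⁻¹ * (g * (x : B) * g⁻¹) * g = x
          group)
        map_mul' := fun x y => Subtype.ext (by
          change g⁻¹ * ((x : B) * y) * g = (g⁻¹ * x * g) * (g⁻¹ * y * g)
          group) }
    classical
    have : Fintype (Stx κ (comp τ a) (θ a) ⊓ L.comap ρ : Subgroup B) := Fintype.ofFinite _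
    exact hf.1.1.comp_mulEquiv e
  · intro x hx
    exact hf.1.2 _ fun h' => hx ((hmem x).mpr h')
  · intro y
    have h1 : g⁻¹ * ι y * g = ι (κ g⁻¹ y) := by
      rw [hcl.act, inv_inv]
    change f (g⁻¹ * ι y * g) = θ b y
    rw [h1, hf.2, ← h.2, ← MulAut.mul_apply, ← map_mul, mul_inv_cancel, map_one,
      MulAut.one_apply]

end TRBR

open _root_.Pool.Agent.DPC.TRBR in
theorem TRBR_thm : Stmt_TRBR := by
  intro O G B C _ _ _ _ _ _ _ 𝔐 ℓ _ ι κ ρ hL τ θ hθ
  obtain ⟨-, -, hcg, -, -⟩ := CGT_thm G B C 𝔐 ι κ ρ hL.cl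
  refine ⟨trB_iff κ τ θ, fun a b g h => ?_⟩
  have hstb : (stb (comp τ a)).map (κ g).toMonoidHom = stb (comp τ b) := by
    ext x
    rw [Subgroup.mem_map]
    constructor
    · rintro ⟨y, hy, rfl⟩
      rw [← iota_mem hL.cl (hθ b)]
      change ι (κ g y) ∈ _
      rw [hL.cl.act, ← mem_conj h, iota_mem hL.cl (hθ a)]
      exact hy
    · intro hx
      refine ⟨κ g⁻¹ x, ?_, ?_⟩
      · rw [← iota_mem hL.cl (hθ a), hL.cl.act, inv_inv, ← mem_conj' h, iota_mem hL.cl (hθ b)]
        exact hx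
      · change κ g (κ g⁻¹ x) = x
        rw [← MulAut.mul_apply, ← map_mul, mul_inv_cancel, map_one, MulAut.one_apply]
  refine ⟨hstb, ?_, ?_, ?_, fun L f hf => ext_transport hL.cl hL.cyc h L f hf, fun L => ?_⟩
  · have h1 : Nat.card (stb (comp τ b)) = Nat.card (stb (comp τ a)) := by
      rw [← hstb]
      exact Subgroup.card_map_of_injective (κ g).injective
    have h2 : θ b 1 = θ a 1 := by
      rw [← h.2 1, map_one]
    rw [df, df, h1, h2]
  · ext x
    rw [Subgroup.mem_map]
    constructor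
    · rintro ⟨y, hy, rfl⟩
      exact (mem_conj h y).mp hy
    · intro hx
      refine ⟨g⁻¹ * x * g, (mem_conj' h x).mp hx, ?_⟩
      change g * (g⁻¹ * x * g) * g⁻¹ = x
      group
  · symm
    refine Nat.card_eq_of_bijective (fun x : stb (comp τ b) => (⟨ι x * g, ?_, ?_⟩ :
      {h : B // trB κ τ θ a b h ∧ ρ h = ρ g})) ⟨?_, ?_⟩
    · exact ((trB_iff κ τ θ b _).mpr ((iota_mem hL.cl (hθ b) _).mpr x.2)).mul h
    · rw [map_mul]
      have : ρ (ι x) = 1 := (hL.cl.ker _).mpr ⟨_, rfl⟩
      rw [this, one_mul]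
    · intro x y hxy
      have h1 : ι (x : G) * g = ι (y : G) * g := congrArg Subtype.val hxy
      exact Subtype.ext (hL.cl.inj (mul_right_cancel h1))
    · rintro ⟨y, hy1, hy2⟩
      obtain ⟨x, hx⟩ := exists_iota hL.cl hy2
      have h1 : trB κ τ θ b b (ι x) := by
        have h2 : ι x = y * g⁻¹ := by rw [hx, mul_inv_cancel_right]
        rw [h2]
        exact hy1.mul h.inv
      refine ⟨⟨x, (iota_mem hL.cl (hθ b) x).mp ((trB_iff κ τ θ b _).mp h1)⟩, ?_⟩
      exact Subtype.ext hx.symm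
  · ext b0
    constructor
    · rintro ⟨f, hf, rfl⟩
      have h1 := ext_transport hL.cl hL.cyc h.inv L f hf
      refine ⟨_, ⟨_, h1, rfl⟩, ?_⟩
      funext x
      change cgT 𝔐 ι.range (fun x => f (g⁻¹⁻¹ * x * g⁻¹)) (g⁻¹ * x * g) = cgT 𝔐 ι.range f x
      rw [hcg f g⁻¹]
      congr 1
      group
    · rintro ⟨_, ⟨f, hf, rfl⟩, rfl⟩
      refine ⟨_, ext_transport hL.cl hL.cyc h L f hf, ?_⟩
      funext x
      exact (hcg f g x).symm

end Pool.Agent.DPC


end

section

/-!
# The trace function determines the irreducible representation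
-/

namespace Pool.Agent.DPB

open Pool.Agent.Lib_helper13 Representation

namespace BRU

/-- a family of two types -/
def Fam (V W : Type) (b : Bool) : Type := match b with
  | true => V
  | false => W

/-- addition -/
@[reducible] def famAdd (V W : Type) [AddCommGroup V] [AddCommGroup W] (b : Bool) :
    AddCommGroup (Fam V W b) := match b with
  | true => inferInstanceAs (AddCommGroup V)
  | false => inferInstanceAs (AddCommGroup W)

/-- the module structure -/
@[reducible] def famMod (F V W : Type) [Field F] [AddCommGroup V] [Module F V] [AddCommGroup W]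
    [Module F W] (b : Bool) :
    @Module F (Fam V W b) _ (famAdd V W b).toAddCommMonoid := match b with
  | true => inferInstanceAs (Module F V)
  | false => inferInstanceAs (Module F W)

theorem two (h1 : Stmt_DEN) {F H V W : Type} [Field F] [IsAlgClosed F] [Group H] [Fintype H]
    [AddCommGroup V] [Module F V] [Module.Finite F V] [AddCommGroup W] [Module F W]
    [Module.Finite F W] (ρ : Representation F H V) (σ : Representation F H W)
    (hρ : ρ.IsIrreducible) (hσ : σ.IsIrreducible)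
    (h12 : ∀ f : V →ₗ[F] W, Eqv ρ σ f → f = 0) (h21 : ∀ f : W →ₗ[F] V, Eqv σ ρ f → f = 0)
    (A : Module.End F V) (B : Module.End F W) :
    ∃ z : H → F, Zop ρ z = A ∧ Zop σ z = B := by
  letI ia : ∀ b, AddCommGroup (Fam V W b) := famAdd V W
  letI im : ∀ b, Module F (Fam V W b) := famMod F V W
  haveI ifi : ∀ b, Module.Finite F (Fam V W b) := fun b => match b with
    | true => inferInstanceAs (Module.Finite F V)
    | false => inferInstanceAs (Module.Finite F W)
  let R : ∀ b, Representation F H (Fam V W b) := fun b => match b with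
    | true => ρ
    | false => σ
  obtain ⟨z, hz⟩ := h1 F H Bool (Fam V W) R (fun b => match b with
    | true => hρ
    | false => hσ) (fun i j hij => match i, j, hij with
    | true, true, h => absurd rfl h
    | false, false, h => absurd rfl h
    | true, false, _ => fun f hf => h12 f hf
    | false, true, _ => fun f hf => h21 f hf) (fun b => match b with
    | true => A
    | false => B)
  exact ⟨z, hz true, hz false⟩

theorem trace_Zop {F H V : Type} [Field F] [Group H] [Fintype H] [AddCommGroup V] [Module F V]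
    (ρ : Representation F H V) (z : H → F) :
    LinearMap.trace F V (Zop ρ z) = ∑ h, z h * ρ.character h := by
  unfold Zop
  rw [map_sum]
  refine Finset.sum_congr rfl fun h _ => ?_
  rw [map_smul, smul_eq_mul]
  rfl

theorem exists_ne_zero {F H V : Type} [Field F] [Group H] [AddCommGroup V] [Module F V]
    (ρ : Representation F H V) (hρ : ρ.IsIrreducible) : ∃ v : V, v ≠ 0 := by
  by_contra h
  push Not at h
  haveI := hρ
  have h2 : (⊥ : Subrepresentation ρ) = ⊤ := by
    apply SetLike.ext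
    intro v
    rw [h v]
    exact ⟨fun _ => trivial, fun _ => (⊥ : Subrepresentation ρ).toSubmodule.zero_mem⟩
  exact bot_ne_top h2

theorem exists_trace_one {F H V : Type} [Field F] [Group H] [AddCommGroup V] [Module F V]
    [Module.Finite F V] (ρ : Representation F H V) (hρ : ρ.IsIrreducible) :
    ∃ A : Module.End F V, LinearMap.trace F V A = 1 := by
  obtain ⟨v, hv⟩ := exists_ne_zero ρ hρ
  obtain ⟨f, hf⟩ := Module.Projective.exists_dual_eq_one F hv
  exact ⟨f.smulRight v, by rw [LinearMap.trace_smulRight, hf]⟩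

end BRU

open _root_.Pool.Agent.DPB.BRU in
/-- BRU. -/
theorem BRU_thm (h1 : Stmt_DEN) : Stmt_BRU := by
  intro F H V W _ _ _ _ _ _ _ _ _ _ ρ σ hρ hσ hχ
  by_contra hne
  haveI := hρ
  haveI := hσ
  have h12 : ∀ f : V →ₗ[F] W, Eqv ρ σ f → f = 0 := by
    intro f hf
    rcases IsIrreducible.bijective_or_eq_zero (f.intertwiningMap_of_isIntertwiningMap ρ σ hf)
      with hb | h0
    · exact absurd ⟨LinearEquiv.ofBijective f hb, fun g v => hf g v⟩ hne
    · exact congrArg IntertwiningMap.toLinearMap h0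
  have h21 : ∀ f : W →ₗ[F] V, Eqv σ ρ f → f = 0 := by
    intro f hf
    rcases IsIrreducible.bijective_or_eq_zero (f.intertwiningMap_of_isIntertwiningMap σ ρ hf)
      with hb | h0
    · refine absurd ⟨(LinearEquiv.ofBijective f hb).symm, fun g v => ?_⟩ hne
      rw [LinearEquiv.symm_apply_eq]
      show ρ g v = f (σ g ((LinearEquiv.ofBijective f hb).symm v))
      rw [hf]
      congr 1
      exact ((LinearEquiv.ofBijective f hb).apply_symm_apply v).symm
    · exact congrArg IntertwiningMap.toLinearMap h0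
  obtain ⟨A, hA⟩ := exists_trace_one ρ hρ
  obtain ⟨z, hz, hz'⟩ := two h1 ρ σ hρ hσ h12 h21 A 0
  have e1 := trace_Zop ρ z
  have e2 := trace_Zop σ z
  rw [hz, hA] at e1
  rw [hz', map_zero] at e2
  rw [hχ, ← e2] at e1
  exact one_ne_zero e1

end Pool.Agent.DPB


end
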