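import Mathlib
import Pool.Agent.DAM.C02
import Pool.Agent.DAM.C13
import Pool.Agent.DAM.C14
import Pool.Agent.DAM.C15
import Pool.Agent.DAM.C19
import Pool.Agent.DAM.C22
import Pool.Agent.DAM.C23
import Pool.Agent.DAM.C25
import Pool.Agent.DAM.C28
import Pool.Agent.DAM.C47
import Pool.Agent.DAM.C48
import Pool.Agent.DAM.C49

/-! Parts: DPC.RDZ, DPM.PSDB, DPV.MULV, DPV.NUV, DPW.MULW, DPW.NUVW, DPW.BLW, DPW.NUN, DPX.DFX -/

section

/-!
# Module RDZ: the characters of subgroups in a block over a character of defect zero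
-/

set_option linter.unusedSectionVars false

namespace Pool.Agent.DPC.RDZ

open Pool.Agent.DP Pool.Agent.Lib_helper13 Representation

section

variable {A X K : Type} [Group A] [Fintype A] [Group X] [Fintype X] [Group K]
  {j : A →* X} {c : X →* MulAut A} {p : X →* K}

open Classical in
/-- Extension by zero along `j`. -/
noncomputable def ex (j : A →* X) (F : A → ℂ) (x : X) : ℂ :=
  if h : ∃ a, j a = x then F h.choose else 0

theorem ex_j (hc : ClG j c p) (F : A → ℂ) (a : A) : ex j F (j a) = F a := by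
  have h : ∃ a', j a' = j a := ⟨a, rfl⟩
  rw [ex, dif_pos h]
  congr 1
  exact hc.inj h.choose_spec

theorem ex_not (F : A → ℂ) (x : X) (h : x ∉ j.range) : ex j F x = 0 := by
  rw [ex, dif_neg]
  rintro ⟨a, ha⟩
  exact h ⟨a, ha⟩

theorem ex_conj (hc : ClG j c p) (F : A → ℂ) (hF : ∀ x a, F (c x a) = F a) (g x : X) :
    ex j F (g * x * g⁻¹) = ex j F x := by
  by_cases h : ∃ a, j a = x
  · obtain ⟨a, rfl⟩ := h
    rw [← hc.act, ex_j hc, ex_j hc, hF]
  · have h' : ¬ ∃ a, j a = g * x * g⁻¹ := by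
      rintro ⟨a, ha⟩
      apply h
      refine ⟨c g⁻¹ a, ?_⟩
      rw [hc.act, ha]
      group
    rw [ex, ex, dif_neg h, dif_neg h']

theorem ex_int (F : A → ℂ) (hF : ∀ a, IsIntegral ℤ (F a)) (x : X) :
    IsIntegral ℤ (ex j F x) := by
  rw [ex]
  split_ifs
  · exact hF _
  · exact isIntegral_zero

/-- Class functions supported on the normal subgroup, for an embedding whose image is normal. -/
theorem wt_sub {S A' : Type} [Group S] [Fintype S] [Group A'] [Fintype A'] (j' : A' →* S)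
    (hinj : Function.Injective j') (hn : j'.range.Normal) {ψ : S → ℂ} (hψ : IsIrr ψ)
    {θ' : A' → ℂ} (hθ' : IsIrr θ') (hip : ip (resj j' ψ) θ' ≠ 0) (f : S → ℂ)
    (hf : ∀ g x, f (g * x * g⁻¹) = f x) (hs : ∀ y, y ∉ j'.range → f y = 0) :
    wt ψ f = wt θ' (fun a => f (j' a)) := by
  classical
  let e : A' ≃* j'.range := MonoidHom.ofInjective hinj
  have he : ∀ a, ((e a : j'.range) : S) = j' a := fun a => rfl
  have hcl : ClG (j'.range.subtype) (MulAut.conjNormal (H := j'.range))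
      (QuotientGroup.mk' j'.range) := by
    refine ⟨Subtype.val_injective, ?_, ?_⟩
    · intro y a
      exact MulAut.conjNormal_apply y a
    · intro y
      rw [QuotientGroup.mk'_apply, QuotientGroup.eq_one_iff, Subgroup.range_subtype]
  have hθ'' : IsIrr (fun n => θ' (e.symm n)) := hθ'.comp_mulEquiv e.symm
  have hip' : ip (resj j'.range.subtype ψ) (fun n => θ' (e.symm n)) ≠ 0 := by
    have h1 : ip (resj j'.range.subtype ψ) (fun n => θ' (e.symm n)) = ip (resj j' ψ) θ' := by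
      rw [ip, ip, Nat.card_congr e.toEquiv]
      congr 1
      refine (Fintype.sum_equiv e.toEquiv _ _ fun a => ?_).symm
      change ψ (j' a) * θ' a⁻¹ = ψ ((e a : j'.range) : S) * θ' (e.symm (e a)⁻¹)
      rw [map_inv, e.symm_apply_apply, he]
    rw [h1]
    exact hip
  have h1 := (SUMM_thm _ _ _ _ _ _ hcl).2.2.2 (fun n => θ' (e.symm n)) ψ f hθ'' hψ hip' hf
    (by
      intro y hy
      apply hs
      rwa [Subgroup.range_subtype] at hy)
  rw [h1, ← wt_comp_equiv e]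
  congr 1
  ext a
  change θ' (e.symm (e a)) = θ' a
  rw [e.symm_apply_apply]

/-- The second half of the statement. -/
theorem red_eq (𝔐 : Ideal (integralClosure ℤ ℂ)) (hc : ClG j c p) {χ : X → ℂ} {θ : A → ℂ}
    (hχ : IsIrr χ) (hθ : IsIrr θ) (hip : ip (resj j χ) θ ≠ 0) (S : Subgroup X) {ψ : S → ℂ}
    (hψ : IsIrr ψ) (hcen : cen 𝔐 S.subtype ψ = cen 𝔐 (MonoidHom.id X) χ)
    {A' : Type} [Group A'] [Fintype A'] (i : A' →* A) (j' : A' →* S)
    (hi : Function.Injective i) (hj' : ∀ a, (j' a : X) = j (i a))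
    (hS : ∀ a, j a ∈ S → a ∈ i.range) {θ' : A' → ℂ} (hθ' : IsIrr θ')
    (hip' : ip (resj j' ψ) θ' ≠ 0) (F : A → ℂ) (hF : ∀ x a, F (c x a) = F a)
    (hFi : ∀ a, IsIntegral ℤ (F a)) :
    red 𝔐 (wt θ' (fun a => F (i a))) = red 𝔐 (wt θ F) := by
  classical
  have hinj : Function.Injective j' := by
    intro a b hab
    apply hi
    apply hc.inj
    rw [← hj', ← hj', hab]
  have hmem : ∀ s : S, (s : X) ∈ j.range → s ∈ j'.range := by
    rintro s ⟨a, ha⟩
    obtain ⟨a', rfl⟩ := hS a (by rw [ha]; exact s.2)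
    refine ⟨a', ?_⟩
    apply Subtype.ext
    rw [hj', ha]
  have hn : j'.range.Normal := by
    constructor
    rintro _ ⟨a, rfl⟩ g
    apply hmem
    refine ⟨c g (i a), ?_⟩
    rw [hc.act, ← hj']
    rfl
  have h1 := (SUMM_thm _ _ _ _ _ _ hc).2.2.2 θ χ (ex j F) hθ hχ hip (ex_conj hc F hF)
    (fun y hy => ex_not F y hy)
  have h2 : (fun a => ex j F (j a)) = F := by
    ext a
    exact ex_j hc F a
  rw [h2] at h1
  have h3 := wt_sub j' hinj hn hψ hθ' hip' (fun s : S => ex j F (s : X))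
    (fun g x => by
      change ex j F ((g : X) * (x : X) * ((g : X))⁻¹) = ex j F (x : X)
      exact ex_conj hc F hF _ _)
    (fun y hy => ex_not F _ (fun h => hy (hmem y h)))
  have h4 : (fun a => ex j F ((j' a : S) : X)) = fun a => F (i a) := by
    ext a
    rw [hj', ex_j hc]
  rw [h4] at h3
  have h5 := red_wt_eq_pair 𝔐 (MonoidHom.id X) hχ (ex j F) (ex_conj hc F hF) (ex_int F hFi)
  have h6 := red_wt_eq_pair 𝔐 S.subtype hψ (ex j F) (ex_conj hc F hF) (ex_int F hFi)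
  rw [hcen, ← h5] at h6
  have h7 : wt ψ (fun y : S => ex j F (S.subtype y)) = wt θ' (fun a => F (i a)) := h3
  have h8 : wt χ (fun y => ex j F (MonoidHom.id X y)) = wt θ F := h1
  rw [h7, h8] at h6
  exact h6

open Classical in
/-- The orbit of `θ`. -/
noncomputable def orb (c : X →* MulAut A) (θ : A → ℂ) : Finset (A → ℂ) :=
  Finset.univ.image fun x : X => cfn c θ x

theorem mem_orb {θ θ₁ : A → ℂ} : θ₁ ∈ orb c θ ↔ ∃ x, cfn c θ x = θ₁ := by
  classical
  rw [orb, Finset.mem_image]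
  exact ⟨fun ⟨x, _, h⟩ => ⟨x, h⟩, fun ⟨x, h⟩ => ⟨x, Finset.mem_univ x, h⟩⟩

/-- The orbit sum. -/
noncomputable def F0 (c : X →* MulAut A) (θ : A → ℂ) (a : A) : ℂ := ∑ θ₁ ∈ orb c θ, θ₁ a⁻¹

theorem F0_inv (θ : A → ℂ) (x : X) (a : A) : F0 c θ (c x a) = F0 c θ a := by
  classical
  rw [F0, F0]
  refine Finset.sum_bij' (fun θ₁ _ => cfn c θ₁ x) (fun θ₁ _ => cfn c θ₁ x⁻¹) ?_ ?_ ?_ ?_ ?_
  · intro θ₁ h
    obtain ⟨y, rfl⟩ := mem_orb.mp h
    rw [cfn_mul]
    exact mem_orb.mpr ⟨_, rfl⟩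
  · intro θ₁ h
    obtain ⟨y, rfl⟩ := mem_orb.mp h
    rw [cfn_mul]
    exact mem_orb.mpr ⟨_, rfl⟩
  · intro θ₁ _
    rw [cfn_mul, mul_inv_cancel, cfn_one]
  · intro θ₁ _
    rw [cfn_mul, inv_mul_cancel, cfn_one]
  · intro θ₁ _
    rw [cfn, map_inv]

theorem orb_irr {θ : A → ℂ} (hθ : IsIrr θ) {θ₁ : A → ℂ} (h : θ₁ ∈ orb c θ) : IsIrr θ₁ := by
  obtain ⟨x, rfl⟩ := mem_orb.mp h
  exact hθ.cfn x

theorem F0_int {θ : A → ℂ} (hθ : IsIrr θ) (a : A) : IsIntegral ℤ (F0 c θ a) := by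
  apply IsIntegral.sum
  intro θ₁ h
  exact isIntegral_char (orb_irr hθ h) _

theorem wt_F0 {θ : A → ℂ} (hθ : IsIrr θ) : wt θ (F0 c θ) = Nat.card A / θ 1 := by
  classical
  rw [wt]
  congr 1
  have h1 : ∑ y, F0 c θ y * θ y = ∑ θ₁ ∈ orb c θ, ∑ y, θ y * θ₁ y⁻¹ := by
    rw [Finset.sum_comm]
    refine Finset.sum_congr rfl fun y _ => ?_
    rw [F0, Finset.sum_mul]
    exact Finset.sum_congr rfl fun θ₁ _ => mul_comm _ _
  rw [h1, Finset.sum_eq_single θ]
  · exact hθ.sum_self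
  · intro θ₁ h hne
    exact hθ.sum_ne (orb_irr hθ h) (fun h' => hne h'.symm)
  · intro h
    exact absurd (mem_orb.mpr ⟨1, cfn_one θ⟩) h

end

end Pool.Agent.DPC.RDZ

namespace Pool.Agent.DPC

open Pool.Agent.DP Pool.Agent.Lib_helper13 Representation
open Pool.Agent.Lib_helper13.Dade (pCore DadeHolds dadeSum)

theorem RDZ_thm : Stmt_RDZ := by
  classical
  intro A X K _ _ _ _ _ 𝔐 ℓ hℓp h𝔐 hℓ j c p hc χ θ hχ hθ hdz hip S ψ hψ hcen A' _ _ i j' hi hj'
    hS θ' hθ' hip'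
  have hprime : 𝔐.IsPrime := h𝔐.isPrime
  have key := fun F hF hFi => RDZ.red_eq 𝔐 hc hχ hθ hip S hψ hcen i j' hi hj' hS hθ' hip' F hF hFi
  refine ⟨?_, key⟩
  obtain ⟨d, hd⟩ := hθ'.exists_defect (ℓ := ℓ)
  obtain ⟨n, N, hn, hn', hN, hv⟩ := exists_codeg hθ' hd
  rcases Nat.eq_zero_or_pos d with rfl | hd0
  · exact hd
  exfalso
  have hn0 : (n : ℂ) ≠ 0 := by exact_mod_cast hn.ne'
  have h1 := key (RDZ.F0 c θ) (RDZ.F0_inv θ) (RDZ.F0_int hθ)
  rw [RDZ.wt_F0 hθ] at h1
  -- the weight of the orbit sum over the subgroup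
  obtain ⟨m, hm⟩ : ∃ m : ℕ, ∑ a, RDZ.F0 c θ (i a) * θ' a = Nat.card A' * m := by
    have h2 : ∀ θ₁ : A → ℂ, ∃ m : ℕ, θ₁ ∈ RDZ.orb c θ →
        ∑ a, θ' a * θ₁ (i a)⁻¹ = Nat.card A' * m := by
      intro θ₁
      by_cases h : θ₁ ∈ RDZ.orb c θ
      · obtain ⟨m, hm⟩ := hθ'.isChr.exists_mult ((RDZ.orb_irr hθ h).isChr.comp i)
        refine ⟨m, fun _ => ?_⟩
        rw [← hm]
        refine Finset.sum_congr rfl fun a _ => ?_
        rw [map_inv]
      · exact ⟨0, fun h' => absurd h' h⟩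
    choose m hm using h2
    refine ⟨∑ θ₁ ∈ RDZ.orb c θ, m θ₁, ?_⟩
    push_cast
    rw [Finset.mul_sum, ← Finset.sum_congr rfl fun θ₁ h => hm θ₁ h, Finset.sum_comm]
    refine Finset.sum_congr rfl fun a _ => ?_
    rw [RDZ.F0, Finset.sum_mul]
    exact Finset.sum_congr rfl fun θ₁ _ => mul_comm _ _
  have h4 : wt θ' (fun a => RDZ.F0 c θ (i a)) = ((N * m : ℕ) : ℂ) := by
    rw [wt, hm, hn', hN]
    push_cast
    field_simp
  rw [h4] at h1
  have h5 : ℓ ∣ N * m := by
    apply Dvd.dvd.mul_right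
    have h6 : padicValNat ℓ N ≠ 0 := by omega
    exact dvd_of_one_le_padicValNat (by omega)
  obtain ⟨r, hr⟩ := h5
  apply red_codeg_ne_zero 𝔐 hℓ hθ hdz
  have h6 : (((N * m : ℕ)) : ℂ) = (ℓ : ℂ) * (r : ℂ) := by
    rw [hr]
    push_cast
    rfl
  rw [← h1, h6, red_natCast_mul 𝔐 ℓ (Pool.Agent.Lib_helper13.isIntegral_natCast r), nsmul_quot_eq_zero 𝔐 hℓ]

end Pool.Agent.DPC


end

section

/-!
# Theorem A: isolation
-/

namespace Pool.Agent.DPM

open Pool.Agent.DP Pool.Agent.DPC Pool.Agent.Lib_helper13 Representation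

namespace PSDB

section Roots

variable (𝔐 : Ideal (integralClosure ℤ ℂ))

/-- A root of unity of order prime to `ℓ` which is congruent to one is one. -/
theorem eq_one_of_red [h𝔐 : 𝔐.IsPrime] {ℓ : ℕ} [Fact ℓ.Prime]
    (hℓ : (ℓ : integralClosure ℤ ℂ) ∈ 𝔐) {ζ : ℂ} {m : ℕ} (hm : ¬ ℓ ∣ m) (h1 : ζ ^ m = 1)
    (h2 : red 𝔐 ζ = 1) : ζ = 1 := by
  have hm0 : 0 < m := by
    rcases Nat.eq_zero_or_pos m with h | h
    · exact absurd (h ▸ dvd_zero ℓ) hm
    · exact h
  have hi : IsIntegral ℤ ζ := by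
    apply IsIntegral.of_pow hm0
    rw [h1]
    exact isIntegral_one
  by_contra hne
  have hchar := quot_char 𝔐 hℓ
  let z : integralClosure ℤ ℂ := ⟨ζ, hi⟩
  have hz1 : z ≠ 1 := fun h => hne (congrArg Subtype.val h)
  have hzm : z ^ m = 1 := Subtype.ext h1
  have h3 : (∑ i ∈ Finset.range m, z ^ i) * (z - 1) = 0 := by
    rw [geom_sum_mul, hzm, sub_self]
  have h4 : ∑ i ∈ Finset.range m, z ^ i = 0 :=
    (mul_eq_zero.1 h3).resolve_right (sub_ne_zero.2 hz1)
  have h5 : Ideal.Quotient.mk 𝔐 z = 1 := by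
    rw [← red_of_integral 𝔐 hi]
    exact h2
  have h6 := congrArg (Ideal.Quotient.mk 𝔐) h4
  rw [map_sum, map_zero] at h6
  have h7 : ∀ i ∈ Finset.range m, Ideal.Quotient.mk 𝔐 (z ^ i) = 1 := fun i _ => by
    rw [map_pow, h5, one_pow]
  rw [Finset.sum_congr rfl h7, Finset.sum_const, Finset.card_range, nsmul_eq_mul, mul_one] at h6
  exact hm ((CharP.cast_eq_zero_iff _ ℓ m).1 h6)

theorem isIntegral_of_pow_eq {ζ : ℂ} {m : ℕ} (hm : 0 < m) (h : ζ ^ m = 1) : IsIntegral ℤ ζ := by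
  apply IsIntegral.of_pow hm
  rw [h]
  exact isIntegral_one

end Roots

section Central

variable {Y : Type} [Group Y] [Fintype Y]

/-- A central element acts as a scalar. -/
theorem cscal {χ : Y → ℂ} (hχ : IsIrr χ) {q : Y} (hq : ∀ y, q * y = y * q) (x : Y) :
    χ (q * x) = χ q / χ 1 * χ x := by
  have hχ' := hχ
  obtain ⟨n, ρ, hρ, rfl⟩ := hχ
  obtain ⟨c, hc⟩ := exists_scalar ρ hρ (ρ q) (by
    intro g x
    rw [← Module.End.mul_apply, ← map_mul, hq, map_mul, Module.End.mul_apply])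
  have h1 : ∀ z, ρ.character (q * z) = c * ρ.character z := by
    intro z
    change LinearMap.trace ℂ _ (ρ (q * z)) = c * LinearMap.trace ℂ _ (ρ z)
    rw [map_mul, hc]
    have : (c • LinearMap.id : (Fin n → ℂ) →ₗ[ℂ] (Fin n → ℂ)) * ρ z = c • ρ z := by
      apply LinearMap.ext
      intro v
      rfl
    rw [this, map_smul, smul_eq_mul]
  have h2 := h1 1
  rw [mul_one] at h2
  rw [h1, h2, mul_div_assoc, div_self hχ'.one_ne_zero, mul_one]

/-- The scalar of a power. -/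
theorem cscal_pow {χ : Y → ℂ} (hχ : IsIrr χ) {q : Y} (hq : ∀ y, q * y = y * q) (m : ℕ) :
    χ (q ^ m) / χ 1 = (χ q / χ 1) ^ m := by
  induction m with
  | zero => rw [pow_zero, pow_zero, div_self hχ.one_ne_zero]
  | succ m ih => rw [pow_succ', cscal hχ hq, mul_div_assoc, ih, pow_succ']

variable {G : Type} [Group G]

/-- The central function at a central element. -/
theorem cen_central (𝔐 : Ideal (integralClosure ℤ ℂ)) (i : Y →* G) (hi : Function.Injective i)
    (θ : Y → ℂ) {y₀ : Y} (hy : ∀ g, g * i y₀ * g⁻¹ = i y₀) :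
    cen 𝔐 i θ (i y₀) = red 𝔐 (θ y₀ / θ 1) := by
  classical
  have h1 : ∀ y, conjInd (i y) (i y₀) = if y = y₀ then 1 else 0 := by
    intro y
    have h2 : IsConj (i y) (i y₀) ↔ y = y₀ := by
      constructor
      · intro h
        obtain ⟨g, hg⟩ := isConj_iff.1 h.symm
        rw [hy] at hg
        exact hi hg.symm
      · rintro rfl
        exact IsConj.refl _
    by_cases h3 : y = y₀
    · rw [if_pos h3]
      exact if_pos (h2.2 h3)
    · rw [if_neg h3]
      exact if_neg fun h => h3 (h2.1 h)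
  unfold cen wt
  simp only [h1, ite_mul, one_mul, zero_mul, Finset.sum_ite_eq', Finset.mem_univ, if_true]

end Central

section Transport

/-- Inner products along an isomorphism. -/
theorem ip_equiv {Y Y' : Type} [Group Y] [Fintype Y] [Group Y'] [Fintype Y'] (e : Y ≃* Y')
    (f g : Y' → ℂ) : ip (fun y => f (e y)) (fun y => g (e y)) = ip f g := by
  unfold ip
  rw [Nat.card_congr e.toEquiv]
  congr 1
  refine Fintype.sum_equiv e.toEquiv _ _ fun y => ?_
  show f (e y) * g (e y⁻¹) = f (e y) * g (e y)⁻¹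
  rw [map_inv]

theorem cnt_congr {L' : Type} [Group L'] [Fintype L'] (𝔐 : Ideal (integralClosure ℤ ℂ))
    (ℓ d : ℕ) {S T : Subgroup L'} (h : S = T) (c : L' → (integralClosure ℤ ℂ) ⧸ 𝔐) :
    cnt 𝔐 ℓ d S.subtype c = cnt 𝔐 ℓ d T.subtype c := by
  subst h
  rfl

variable {L L' : Type} [Group L] [Group L'] (q : L →* L')

/-- The order of a subgroup and of its image. -/
theorem card_image [Finite L] [Finite L'] (hq : Function.Surjective q) {S : Subgroup L}
    (hS : q.ker ≤ S) : Nat.card S = Nat.card q.ker * Nat.card (S.map q) := by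
  have h1 := S.card_mul_index
  have h2 := (S.map q).card_mul_index
  have h3 := q.ker.card_mul_index
  have h4 : q.ker.index = Nat.card L' := by
    rw [Subgroup.index_ker]
    have : q.range = ⊤ := MonoidHom.range_eq_top.2 hq
    rw [this]
    exact Nat.card_congr Subgroup.topEquiv.toEquiv
  rw [Subgroup.index_map_eq S hq hS] at h2
  have h5 : S.index ≠ 0 := Subgroup.index_ne_zero_of_finite
  apply mul_right_cancel₀ h5
  rw [h1, ← h3, h4, ← h2]
  ring

variable {q} {N : Subgroup L}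

theorem inj_on (hN : N ⊓ q.ker = ⊥) {x y : L} (hx : x ∈ N) (hy : y ∈ N) (h : q x = q y) :
    x = y := by
  have h1 : x * y⁻¹ ∈ N ⊓ q.ker := by
    refine ⟨N.mul_mem hx (N.inv_mem hy), ?_⟩
    show x * y⁻¹ ∈ q.ker
    rw [MonoidHom.mem_ker, map_mul, map_inv, h, mul_inv_cancel]
  rw [hN, Subgroup.mem_bot] at h1
  exact mul_inv_eq_one.1 h1

/-- The isomorphism onto the image. -/
noncomputable def eN (hN : N ⊓ q.ker = ⊥) : N ≃* N.map q :=
  MulEquiv.ofBijective (q.subgroupMap N)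
    ⟨fun x y h => Subtype.ext (inj_on hN x.2 y.2 (congrArg Subtype.val h)),
      q.subgroupMap_surjective N⟩

theorem eN_apply (hN : N ⊓ q.ker = ⊥) (x : N) : ((eN hN x : N.map q) : L') = q x := rfl

theorem mapCh_eN (hN : N ⊓ q.ker = ⊥) (τ : Finset (Subgroup N)) :
    mapCh (N.map q).subtype (mapCh (eN hN).toMonoidHom τ) = mapCh q (mapCh N.subtype τ) := by
  rw [mapCh_comp, mapCh_comp]
  congr 1

/-- The stabilizer of the image of a chain. -/
theorem stb_image (hq : Function.Surjective q) [N.Normal] (hN : N ⊓ q.ker = ⊥)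
    (τ : Finset (Subgroup N)) :
    stb (mapCh q (mapCh N.subtype τ)) = (stb (mapCh N.subtype τ)).map q := by
  have hle : ∀ D ∈ mapCh N.subtype τ, D ≤ N := by
    intro D hD
    obtain ⟨D', _, rfl⟩ := mem_mapCh.1 hD
    rintro _ ⟨x, _, rfl⟩
    exact x.2
  apply le_antisymm
  · intro g' hg'
    obtain ⟨g, rfl⟩ := hq g'
    refine ⟨g, ?_, rfl⟩
    show g ∈ stb (mapCh N.subtype τ)
    rw [mem_stb'] at hg' ⊢
    intro D hD x
    have h1 := hg' (D.map q) (mem_mapCh.2 ⟨D, hD, rfl⟩)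
    constructor
    · intro hx
      have h2 := (h1 (q x)).1 ⟨x, hx, rfl⟩
      obtain ⟨y, hy, hyx⟩ := h2
      have h3 : q y = q (g * x * g⁻¹) := by
        rw [hyx]
        simp
      have h4 := inj_on hN (hle D hD hy)
        (Subgroup.Normal.conj_mem inferInstance x (hle D hD hx) g) h3
      rw [← h4]
      exact hy
    · intro hx
      have h2 : q g * q x * (q g)⁻¹ ∈ D.map q := ⟨_, hx, by simp⟩
      obtain ⟨y, hy, hyx⟩ := (h1 (q x)).2 h2
      have hxN : x ∈ N := by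
        have h5 := Subgroup.Normal.conj_mem (H := N) inferInstance _ (hle D hD hx) g⁻¹
        have h6 : g⁻¹ * (g * x * g⁻¹) * g⁻¹⁻¹ = x := by group
        rwa [h6] at h5
      have h4 := inj_on hN (hle D hD hy) hxN hyx
      rw [← h4]
      exact hy
  · rintro _ ⟨g, hg, rfl⟩
    have hg' : g ∈ stb (mapCh N.subtype τ) := hg
    rw [mem_stb'] at hg' ⊢
    intro D' hD' x'
    obtain ⟨D, hD, rfl⟩ := mem_mapCh.1 hD'
    constructor
    · rintro ⟨x, hx, rfl⟩
      exact ⟨g * x * g⁻¹, (hg' D hD x).1 hx, by simp⟩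
    · rintro ⟨x, hx, hx'⟩
      refine ⟨g⁻¹ * x * g, ?_, ?_⟩
      · have h3 : g * (g⁻¹ * x * g) * g⁻¹ = x := by group
        have h4 : g⁻¹ * x * g ∈ D := by
          apply (hg' D hD _).2
          rw [h3]
          exact hx
        exact h4
      · rw [map_mul, map_mul, hx', map_inv]
        group

theorem mapCh_subtype_central {U : Subgroup L} (hU : U ≤ Subgroup.center L)
    (σ : Finset (Subgroup L)) : U ≤ stb σ := by
  intro u hu
  rw [mem_stb']
  intro D _ x
  have h1 := Subgroup.mem_center_iff.1 (hU hu) x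
  rw [← h1, mul_inv_cancel_right]

end Transport

end PSDB

open _root_.Pool.Agent.DPM.PSDB in
theorem PSDB_thm (h1 : Stmt_ISOL) (h2 : Stmt_BTC) : Stmt_PSDB := by
  classical
  intro L _ _ 𝔐 ℓ hℓ h𝔐 hℓ𝔐 U μ hU hUc hμ N _ hNU d c hIU hind
  have hprime : 𝔐.IsPrime := h𝔐.isPrime
  have hcU : ∀ u ∈ U, ∀ y : L, u * y = y * u := fun u hu y =>
    (Subgroup.mem_center_iff.1 (hU hu) y).symm
  -- the values of the central function on `U`
  have hcu : ∀ (u : L) (h : u ∈ U), c u = red 𝔐 ((μ ⟨u, h⟩ : ℂˣ) : ℂ) := by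
    intro u hu
    obtain ⟨τ, _, hτ⟩ := Finset.exists_ne_zero_of_sum_ne_zero hIU
    have h3 := right_ne_zero_of_mul (right_ne_zero_of_mul hτ)
    have h4 : Nonempty {η : ↥(stb (mapCh N.subtype τ)) → ℂ // IsIrr η ∧ OvL U μ _ η ∧
        HasDefect ℓ η d ∧ cen 𝔐 (stb (mapCh N.subtype τ)).subtype η = c} := by
      by_contra hne
      apply h3
      rw [not_nonempty_iff] at hne
      rw [Nat.card_of_isEmpty, Nat.cast_zero]
    obtain ⟨η, hη, hov, _, hce⟩ := h4
    have huS : u ∈ stb (mapCh N.subtype τ) := mapCh_subtype_central hU _ hu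
    have h5 := cen_central 𝔐 (stb (mapCh N.subtype τ)).subtype
      (Subgroup.subtype_injective _) η (y₀ := ⟨u, huS⟩) (by
        intro g
        show g * u * g⁻¹ = u
        rw [← hcU u hu g, mul_inv_cancel_right])
    have h6 : ((stb (mapCh N.subtype τ)).subtype ⟨u, huS⟩ : L) = u := rfl
    rw [h6, hce] at h5
    rw [h5]
    congr 1
    have h7 := hov ⟨u, huS⟩ 1 hu
    rw [mul_one] at h7
    rw [h7, mul_div_assoc, div_self hη.one_ne_zero, mul_one]
  -- isolation
  obtain ⟨L', hL'G, hL'F, q, d', c', hqs, hqU, _, _, hsum, hlast⟩ := h1 L (Finset (Subgroup N))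
    𝔐 ℓ h𝔐 hℓ𝔐 U μ hU hUc hμ (Ch ℓ (⊥ : Subgroup N))
    (fun τ => (-1 : ℚ) ^ τ.card * (Nat.card ↥(stb (mapCh N.subtype τ)) : ℚ))
    (fun τ => stb (mapCh N.subtype τ)) (fun τ _ => mapCh_subtype_central hU _) d c (by
      refine fun h => hIU ?_
      rw [← h]
      exact Finset.sum_congr rfl fun τ _ => (mul_assoc _ _ _).symm)
  have hN : N ⊓ q.ker = ⊥ := by
    rw [eq_bot_iff, ← hNU]
    exact inf_le_inf_left N hqU
  have hNn : (N.map q).Normal := Subgroup.Normal.map inferInstance q hqs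
  have hII : II 𝔐 ℓ d' (N.map q) (MonoidHom.id L') c' ≠ 0 := by
    intro h0
    apply hsum
    have h3 : II 𝔐 ℓ d' (N.map q) (MonoidHom.id L') c' =
        ∑ τ ∈ Ch ℓ (⊥ : Subgroup N), (-1 : ℚ) ^ τ.card *
          ((Nat.card ↥((stb (mapCh N.subtype τ)).map q) : ℚ) *
            cnt 𝔐 ℓ d' ((stb (mapCh N.subtype τ)).map q).subtype c') := by
      have h4 := sum_Ch_equiv (eN hN) ℓ (⊥ : Subgroup N) (M := ℚ) (fun σ =>
        (-1 : ℚ) ^ σ.card * ((Nat.card ↥(stb (mapCh (N.map q).subtype σ)) : ℚ) *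
          cnt 𝔐 ℓ d' ((MonoidHom.id L').comp (stb (mapCh (N.map q).subtype σ)).subtype) c'))
      rw [Subgroup.map_bot] at h4
      unfold II
      rw [h4]
      refine Finset.sum_congr rfl fun τ _ => ?_
      have h5 : stb (mapCh (N.map q).subtype (mapCh (eN hN).toMonoidHom τ)) =
          (stb (mapCh N.subtype τ)).map q := by
        rw [mapCh_eN, stb_image hqs hN]
      rw [card_mapCh (i := (eN hN).toMonoidHom) (eN hN).injective]
      rw [MonoidHom.id_comp, cnt_congr 𝔐 ℓ d' h5, h5]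
    have h4 : ∑ τ ∈ Ch ℓ (⊥ : Subgroup N), (-1 : ℚ) ^ τ.card *
        (Nat.card ↥(stb (mapCh N.subtype τ)) : ℚ) *
          (cnt 𝔐 ℓ d' ((stb (mapCh N.subtype τ)).map q).subtype c' : ℚ) =
        (Nat.card q.ker : ℚ) * II 𝔐 ℓ d' (N.map q) (MonoidHom.id L') c' := by
      rw [h3, Finset.mul_sum]
      refine Finset.sum_congr rfl fun τ _ => ?_
      rw [card_image q hqs (hqU.trans (mapCh_subtype_central hU _)), Nat.cast_mul]
      ring
    rw [h4, h0, mul_zero]
  -- the smaller group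
  have hidx : (Subgroup.center L').index ≤ (Subgroup.center L).index := by
    have h3 : (Subgroup.center L).map q ≤ Subgroup.center L' := by
      rintro _ ⟨z, hz, rfl⟩
      rw [Subgroup.mem_center_iff]
      intro g'
      obtain ⟨g, rfl⟩ := hqs g'
      rw [← map_mul, ← map_mul]
      exact congrArg q (Subgroup.mem_center_iff.1 hz g)
    have h4 : (Subgroup.center L').index ∣ ((Subgroup.center L).map q).index :=
      Subgroup.index_dvd_of_le h3
    exact Nat.le_of_dvd (Nat.pos_of_ne_zero Subgroup.index_ne_zero_of_finite)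
      (h4.trans (Subgroup.index_map_dvd _ hqs))
  obtain ⟨χ', θ', hχ', hθ', hθd, hip, hcen⟩ :=
    hind L' hidx 𝔐 h𝔐 hℓ𝔐 (N.map q) d' c' hII
  -- inflation
  have htop : (⊤ : Subgroup L).map q = ⊤ := by
    rw [← MonoidHom.range_eq_map]
    exact MonoidHom.range_eq_top.2 hqs
  have hinf : IsIrr (fun x : L => χ' (q x)) ∧
      cen 𝔐 (MonoidHom.id L) (fun x : L => χ' (q x)) = c := by
    have hE : ∀ S : Subgroup L', S = ⊤ → IsIrr (fun x : S => χ' x) ∧
        cen 𝔐 S.subtype (fun x : S => χ' x) = c' := by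
      intro S hS
      subst hS
      constructor
      · exact hχ'.comp_mulEquiv Subgroup.topEquiv
      · rw [← hcen]
        exact cen_comp_equiv 𝔐 (Subgroup.topEquiv (G := L')) (MonoidHom.id L') χ'
    obtain ⟨hE1, hE2⟩ := hE _ htop
    obtain ⟨h3, h4⟩ := hlast ⊤ le_top (fun x => χ' x) hE1 hE2
    constructor
    · have h5 := h3.comp_mulEquiv (Subgroup.topEquiv (G := L)).symm
      exact h5
    · rw [← h4]
      exact (cen_comp_equiv 𝔐 (Subgroup.topEquiv (G := L)) (MonoidHom.id L)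
        (fun x : L => χ' (q x))).symm
  obtain ⟨hχ₀, hc₀⟩ := hinf
  -- the Sylow subgroup of `U`
  let Z : Subgroup L :=
    { carrier := {z | z ∈ U ∧ ∃ k : ℕ, z ^ ℓ ^ k = 1}
      one_mem' := ⟨U.one_mem, 0, one_pow _⟩
      mul_mem' := by
        rintro a b ⟨ha, k, hk⟩ ⟨hb, m, hm⟩
        refine ⟨U.mul_mem ha hb, k + m, ?_⟩
        have hcomm : Commute a b := hcU a ha b
        rw [hcomm.mul_pow, pow_add, pow_mul, hk, one_pow, one_mul, mul_comm (ℓ ^ k), pow_mul, hm,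
          one_pow]
      inv_mem' := by
        rintro a ⟨ha, k, hk⟩
        exact ⟨U.inv_mem ha, k, by rw [inv_pow, hk, inv_one]⟩ }
  have hZU : Z ≤ U := fun z hz => hz.1
  have hZp : IsPGroup ℓ Z := by
    rintro ⟨z, hz⟩
    obtain ⟨k, hk⟩ := hz.2
    exact ⟨k, Subtype.ext hk⟩
  obtain ⟨χ, hχ, hχZ, hχc⟩ := h2 L 𝔐 ℓ h𝔐 hℓ𝔐 Z (hZU.trans hU) hZp
    (μ.comp (Subgroup.inclusion hZU)) _ hχ₀
  rw [hc₀] at hχc
  have hn : χ 1 ≠ 0 := hχ.one_ne_zero
  have hZv : ∀ (z : L) (hz : z ∈ Z), χ z / χ 1 = ((μ ⟨z, hZU hz⟩ : ℂˣ) : ℂ) := by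
    intro z hz
    have h3 := hχZ ⟨z, hz⟩ 1
    rw [mul_one] at h3
    have h4 : χ z = ((μ ⟨z, hZU hz⟩ : ℂˣ) : ℂ) * χ 1 := h3
    rw [h4, mul_div_assoc, div_self hn, mul_one]
  have hUv : ∀ (u : L) (hu : u ∈ U), χ u / χ 1 = ((μ ⟨u, hu⟩ : ℂˣ) : ℂ) := by
    intro u hu
    let a : ℂ := χ u / χ 1
    let m : ℂ := ((μ ⟨u, hu⟩ : ℂˣ) : ℂ)
    let m' : ℂ := ((μ ⟨u, hu⟩ : ℂˣ)⁻¹ : ℂˣ)
    have hmm' : m * m' = 1 := Units.mul_inv _
    have hO : 0 < orderOf u := orderOf_pos u
    obtain ⟨k, n', hn', hkn⟩ := Nat.exists_eq_pow_mul_and_not_dvd hO.ne' ℓ hℓ.out.ne_one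
    have hapow : ∀ j : ℕ, a ^ j = χ (u ^ j) / χ 1 := fun j => (cscal_pow hχ (hcU u hu) j).symm
    have hmpow : ∀ j : ℕ, m ^ j = ((μ ⟨u ^ j, U.pow_mem hu j⟩ : ℂˣ) : ℂ) := by
      intro j
      have h3 : (⟨u ^ j, U.pow_mem hu j⟩ : U) = ⟨u, hu⟩ ^ j := rfl
      rw [h3, map_pow, Units.val_pow_eq_pow_val]
    have haO : a ^ orderOf u = 1 := by
      rw [hapow, pow_orderOf_eq_one, div_self hn]
    have hmO : m ^ orderOf u = 1 := by
      have h3 : (⟨u, hu⟩ : U) ^ orderOf u = 1 := Subtype.ext (pow_orderOf_eq_one u)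
      show ((μ ⟨u, hu⟩ : ℂˣ) : ℂ) ^ orderOf u = 1
      rw [← Units.val_pow_eq_pow_val, ← map_pow, h3, map_one, Units.val_one]
    have hm'O : m' ^ orderOf u = 1 := by
      have h3 : m ^ orderOf u * m' ^ orderOf u = 1 := by
        rw [← mul_pow, hmm', one_pow]
      rwa [hmO, one_mul] at h3
    have hai : IsIntegral ℤ a := isIntegral_of_pow_eq hO haO
    have hmi : IsIntegral ℤ m := isIntegral_of_pow_eq hO hmO
    have hm'i : IsIntegral ℤ m' := isIntegral_of_pow_eq hO hm'O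
    have hra : red 𝔐 a = red 𝔐 m := by
      have h5 := cen_central 𝔐 (MonoidHom.id L) (fun x y h => h) χ (y₀ := u) (by
        intro g
        show g * u * g⁻¹ = u
        rw [← hcU u hu g, mul_inv_cancel_right])
      rw [hχc] at h5
      rw [← hcu u hu]
      exact h5.symm
    have hζ : a * m' = 1 := by
      refine eq_one_of_red 𝔐 hℓ𝔐 (m := n') hn' ?_ ?_
      · have h3 : u ^ n' ∈ Z := by
          refine ⟨U.pow_mem hu n', k, ?_⟩
          rw [← pow_mul, mul_comm, ← hkn, pow_orderOf_eq_one]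
        have h4 : a ^ n' = m ^ n' := by
          rw [hapow, hZv _ h3, hmpow]
        rw [mul_pow, h4, ← mul_pow, hmm', one_pow]
      · rw [red_mul 𝔐 hai hm'i, hra, ← red_mul 𝔐 hmi hm'i, hmm', red_one]
    show a = m
    have h3 : a * m' * m = m := by rw [hζ, one_mul]
    rw [mul_assoc, mul_comm m' m, hmm', mul_one] at h3
    exact h3
  -- the characters of `N`
  obtain ⟨θ, hθ, hθip⟩ := Cliff.exists_under hχ N.subtype
  have hClG : ClG N.subtype (MulAut.conjNormal : L →* MulAut N) (QuotientGroup.mk' N) :=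
    { inj := Subgroup.subtype_injective N
      act := fun y a => MulAut.conjNormal_apply y a
      ker := fun y => by
        rw [Subgroup.range_subtype]
        exact QuotientGroup.eq_one_iff y }
  have hθ0 : IsIrr (fun x : N => θ' (eN hN x)) := hθ'.comp_mulEquiv (eN hN)
  have hθ0d : HasDefect ℓ (fun x : N => θ' (eN hN x)) 0 := (hasDefect_comp_equiv (eN hN)).2 hθd
  have hθ0ip : ip (resj N.subtype (fun x : L => χ' (q x))) (fun x : N => θ' (eN hN x)) ≠ 0 := by
    have h3 := ip_equiv (eN hN) (resj (N.map q).subtype χ') θ'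
    have h4 : (fun y : N => resj (N.map q).subtype χ' (eN hN y)) =
        resj N.subtype (fun x : L => χ' (q x)) := rfl
    rw [h4] at h3
    rw [h3]
    exact hip
  have hRDZ := RDZ_thm N L (L ⧸ N) 𝔐 ℓ h𝔐 hℓ𝔐 N.subtype MulAut.conjNormal
    (QuotientGroup.mk' N) hClG _ _ hχ₀ hθ0 hθ0d hθ0ip ⊤ (fun x => χ x)
    (hχ.comp_mulEquiv Subgroup.topEquiv) (by
      rw [hc₀, ← hχc]
      exact cen_comp_equiv 𝔐 (Subgroup.topEquiv (G := L)) (MonoidHom.id L) χ)
    N (MonoidHom.id N) ((Subgroup.topEquiv (G := L)).symm.toMonoidHom.comp N.subtype)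
    (fun x y h => h) (fun a => rfl) (fun a _ => ⟨a, rfl⟩) θ hθ hθip
  refine ⟨χ, θ, hχ, hθ, hRDZ.1, hθip, hχc, fun u l h => ?_⟩
  rw [cscal hχ (hcU u h), hUv u h]

end Pool.Agent.DPM


end

section

/-!
# Theorem V: the central functions are multiplicative (module MULV)
-/

set_option linter.unusedSectionVars false

namespace Pool.Agent.DPV

open Pool.Agent.DP Pool.Agent.Lib_helper13 Representation
open Pool.Agent.Lib_helper13.Dade (pCore DadeHolds dadeSum)

namespace MULV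

/-! ### Sums over a set with a permutation of prime order -/

theorem card_mod {X : Type*} [Fintype X] [DecidableEq X] {ℓ : ℕ} [Fact ℓ.Prime]
    (e : Equiv.Perm X) (he : e ^ ℓ = 1) (p : X → Prop) [DecidablePred p]
    (hp : ∀ x, p (e x) ↔ p x) :
    (Finset.univ.filter p).card ≡ (Finset.univ.filter (fun x => e x = x ∧ p x)).card
      [MOD ℓ] := by
  classical
  let e' : Equiv.Perm {x // p x} := e.subtypePerm hp
  have he' : e' ^ ℓ = 1 := by
    rw [Equiv.Perm.subtypePerm_pow]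
    ext x
    simp [he]
  have h2 := Equiv.Perm.card_compl_support_modEq (n := 1) (by rw [pow_one]; exact he')
  have h3 : Fintype.card {x // p x} = (Finset.univ.filter p).card := Fintype.card_subtype p
  have h4 : (e'.support)ᶜ.card = (Finset.univ.filter (fun x => e x = x ∧ p x)).card := by
    refine Finset.card_bij (fun x _ => x.1) ?_ ?_ ?_
    · intro x hx
      rw [Finset.mem_compl, Equiv.Perm.notMem_support] at hx
      exact Finset.mem_filter.mpr ⟨Finset.mem_univ _, congrArg Subtype.val hx, x.2⟩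
    · intro x _ y _ hxy
      exact Subtype.ext hxy
    · intro x hx
      obtain ⟨-, hx1, hx2⟩ := Finset.mem_filter.mp hx
      refine ⟨⟨x, hx2⟩, ?_, rfl⟩
      rw [Finset.mem_compl, Equiv.Perm.notMem_support]
      exact Subtype.ext hx1
  rw [h3, h4] at h2
  exact h2.symm

theorem red_sum_perm (𝔐 : Ideal (integralClosure ℤ ℂ)) [𝔐.IsPrime] {ℓ : ℕ} [Fact ℓ.Prime]
    (hℓ : (ℓ : integralClosure ℤ ℂ) ∈ 𝔐) {X : Type*} [Fintype X] [DecidableEq X]
    (e : Equiv.Perm X) (he : e ^ ℓ = 1) (F : X → ℂ) (hi : ∀ x, IsIntegral ℤ (F x))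
    (hinv : ∀ x, F (e x) = F x) :
    red 𝔐 (∑ x, F x) = ∑ x ∈ Finset.univ.filter (fun x => e x = x), red 𝔐 (F x) := by
  classical
  have hchar := quot_char 𝔐 hℓ
  rw [red_sum 𝔐 _ _ (fun x _ => hi x)]
  obtain ⟨Φ, hΦ⟩ : ∃ Φ : X → (integralClosure ℤ ℂ) ⧸ 𝔐, Φ = fun x => red 𝔐 (F x) := ⟨_, rfl⟩
  have h1 : ∀ x, red 𝔐 (F x) = Φ x := fun x => by rw [hΦ]
  simp only [h1]
  have key : ∀ s : Finset X, ∑ x ∈ s, Φ x = ∑ v ∈ Finset.univ.image Φ,
      ((s.filter (fun x => Φ x = v)).card : (integralClosure ℤ ℂ) ⧸ 𝔐) * v := by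
    intro s
    rw [← Finset.sum_fiberwise_of_maps_to (s := s) (t := Finset.univ.image Φ) (g := Φ)
      (fun x _ => Finset.mem_image_of_mem _ (Finset.mem_univ x)) Φ]
    refine Finset.sum_congr rfl fun v _ => ?_
    rw [Finset.sum_congr rfl (g := fun _ => v) (fun x hx => (Finset.mem_filter.mp hx).2)]
    rw [Finset.sum_const, nsmul_eq_mul]
  rw [key Finset.univ, key]
  refine Finset.sum_congr rfl fun v _ => ?_
  congr 1
  have h2 := card_mod e he (fun x => Φ x = v) (fun x => by rw [hΦ]; simp only [hinv])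
  rw [Finset.filter_filter]
  exact (CharP.natCast_eq_natCast _ ℓ).mpr h2

/-! ### Multiplicativity of weights of functions supported on the subgroup -/

theorem wt_cvB {G B : Type} [Group G] [Fintype G] [Group B] [Fintype B] (ι : G →* B)
    (S : Subgroup B) (f : B → ℂ) (hf : IrrOn S f)
    (hres : IrrOn (S.comap ι) (fun h => f (ι h))) (b b' : B → ℂ) (hb : ∀ x, x ∉ S → b x = 0)
    (hb' : ∀ x, x ∉ S → b' x = 0)
    (hinv : ∀ h, ι h ∈ S → ∀ x, b' (ι h * x * (ι h)⁻¹) = b' x) :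
    wt f (cvB b b') = wt f b * wt f b' := by
  classical
  obtain ⟨n, R, hR, hRf⟩ := hf.1
  obtain ⟨n', R', hR', hRf'⟩ := hres.1
  have : Fintype S := Fintype.ofFinite _
  have : Fintype (S.comap ι) := Fintype.ofFinite _
  let j : S.comap ι →* S := (ι.comp (S.comap ι).subtype).codRestrict S (fun h => h.2)
  let σ : Representation ℂ (S.comap ι) (Fin n → ℂ) := R.comp j
  have hσc : σ.character = R'.character := by
    rw [hRf']
    funext h
    have h1 : σ.character h = R.character (j h) := rfl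
    rw [h1, hRf]
    rfl
  have hσ : σ.IsIrreducible := by
    apply irreducible_of_sum
    rw [hσc]
    exact sum_char_self R'
  let T : (Fin n → ℂ) →ₗ[ℂ] (Fin n → ℂ) := ∑ s : S, b' s • (R s : (Fin n → ℂ) →ₗ[ℂ] (Fin n → ℂ))
  have hT : ∀ x, T x = ∑ s : S, b' s • R s x := by
    intro x
    simp [T, LinearMap.sum_apply]
  have hcomm : ∀ g x, T (σ g x) = σ g (T x) := by
    intro g x
    rw [hT, hT, map_sum]
    have h1 : ∀ s : S, σ g (b' s • R s x) = b' s • R (j g * s) x := by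
      intro s
      rw [map_smul, map_mul]
      rfl
    have h2 : ∀ s : S, b' s • R s (σ g x) = b' s • R (s * j g) x := by
      intro s
      rw [map_mul]
      rfl
    simp only [h1, h2]
    rw [← Equiv.sum_comp (MulAut.conj (j g)).toEquiv]
    refine Finset.sum_congr rfl fun s _ => ?_
    have h3 : ((MulAut.conj (j g)).toEquiv s : S) = j g * s * (j g)⁻¹ := rfl
    rw [h3]
    have h4 : b' ((j g * s * (j g)⁻¹ : S) : B) = b' s := hinv (g : G) g.2 (s : B)
    rw [h4, inv_mul_cancel_right]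
  obtain ⟨c, hc⟩ := exists_scalar σ hσ T hcomm
  have hn : (R.character 1 : ℂ) ≠ 0 := IsIrr.one_ne_zero ⟨n, R, hR, rfl⟩
  have hf1 : f 1 = R.character 1 := by
    rw [hRf]
    rfl
  have htr : ∀ t : S, ∑ u : S, b' u * f ((t * u : S) : B) = c * f t := by
    intro t
    have h2 := congrArg (fun E : (Fin n → ℂ) →ₗ[ℂ] (Fin n → ℂ) =>
      LinearMap.trace ℂ (Fin n → ℂ) ((R t : (Fin n → ℂ) →ₗ[ℂ] (Fin n → ℂ)) * E)) hc
    simp only [T] at h2
    rw [Finset.mul_sum, map_sum, mul_smul_comm, map_smul, smul_eq_mul] at h2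
    have h3 : ∀ u : S, LinearMap.trace ℂ (Fin n → ℂ)
        ((R t : (Fin n → ℂ) →ₗ[ℂ] (Fin n → ℂ)) * (b' u • (R u : (Fin n → ℂ) →ₗ[ℂ] (Fin n → ℂ)))) =
        b' u * f ((t * u : S) : B) := by
      intro u
      rw [mul_smul_comm, map_smul, smul_eq_mul, ← map_mul]
      congr 1
      exact congrFun hRf (t * u)
    simp only [h3] at h2
    rw [h2]
    congr 1
    have h4 : ((R t : (Fin n → ℂ) →ₗ[ℂ] (Fin n → ℂ)) * (LinearMap.id : (Fin n → ℂ) →ₗ[ℂ] _)) =
        R t := LinearMap.ext fun x => rfl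
    rw [h4]
    exact congrFun hRf t
  have hw' : wt f b' = c := by
    have h5 := htr 1
    rw [wt, div_eq_iff (by rw [hf1]; exact hn), INTH.sum_restrict S b' f hf.2]
    rw [OneMemClass.coe_one] at h5
    rw [← h5]
    refine Finset.sum_congr rfl fun u _ => ?_
    rw [one_mul]
  rw [hw', wt, wt, div_mul_eq_mul_div]
  congr 1
  rw [INTH.sum_restrict S _ f hf.2, INTH.sum_restrict S _ f hf.2, Finset.sum_mul]
  have h6 : ∀ s : S, cvB b b' s = ∑ t : S, b t * b' ((t⁻¹ * s : S) : B) := by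
    intro s
    have h7 : cvB b b' s = ∑ y : B, b' (y⁻¹ * s) * b y := by
      rw [cvB]
      exact Finset.sum_congr rfl fun y _ => mul_comm _ _
    rw [h7, INTH.sum_restrict S (fun y => b' (y⁻¹ * s)) b hb]
    exact Finset.sum_congr rfl fun y _ => mul_comm _ _
  simp only [h6, Finset.sum_mul]
  rw [Finset.sum_comm]
  refine Finset.sum_congr rfl fun t _ => ?_
  rw [mul_assoc, mul_comm _ c, ← htr t, Finset.mul_sum]
  rw [← Equiv.sum_comp (Equiv.mulLeft t)]
  refine Finset.sum_congr rfl fun u _ => ?_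
  rw [Equiv.coe_mulLeft, inv_mul_cancel_left, mul_assoc]

/-! ### The degree -/

theorem degree_ne_zero {G : Type} [Group G] [Fintype G] (𝔐 : Ideal (integralClosure ℤ ℂ))
    {ℓ : ℕ} [Fact ℓ.Prime] (h𝔐 : 𝔐.IsMaximal) (hℓ : (ℓ : integralClosure ℤ ℂ) ∈ 𝔐)
    {P : Subgroup G} (hP : Nat.card P = ℓ) (hi : ¬ ℓ ∣ P.index) {ψ : G → ℂ}
    (hψ : IrrOn (stb {P}) ψ) : IsIntegral ℤ (ψ 1) ∧ red 𝔐 (ψ 1) ≠ 0 := by
  classical
  have hprime : 𝔐.IsPrime := h𝔐.isPrime
  have hp : ℓ.Prime := Fact.out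
  have hN := DPB.LOC.stb_singleton P
  rw [hN] at hψ
  have : Fintype (DPB.NP P) := Fintype.ofFinite _
  obtain ⟨-, -, h0⟩ := DPB.LOC_thm G 𝔐 ℓ h𝔐 hℓ P hP _ hψ.1
  obtain ⟨d, n, hn, hd⟩ := hψ.1.exists_defect (ℓ := ℓ)
  have hn1 : ψ 1 = n := hn
  have hd0 : d ≠ 0 := by
    rintro rfl
    exact h0 ⟨n, hn, hd⟩
  have hn0 : n ≠ 0 := by
    rintro rfl
    exact hψ.1.one_ne_zero (by
      change ψ 1 = 0
      rw [hn1]
      simp)
  have h1 : Nat.card (DPB.NP P) ∣ Nat.card G := Subgroup.card_subgroup_dvd_card _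
  have h2 : padicValNat ℓ (Nat.card (DPB.NP P)) ≤ 1 := by
    have h3 : padicValNat ℓ (Nat.card G) = 1 := by
      rw [← P.card_mul_index, hP, padicValNat.mul hp.ne_zero, padicValNat_self,
        padicValNat.eq_zero_of_not_dvd hi]
      exact Subgroup.index_ne_zero_of_finite
    rw [← h3]
    exact padicValNat_dvd_iff_le (Nat.card_pos.ne') |>.mp
      ((pow_padicValNat_dvd).trans h1)
  have hd' : padicValNat ℓ (Nat.card (DPB.NP P)) = d + padicValNat ℓ n := by
    rw [← hd]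
  have h4 : padicValNat ℓ n = 0 := by omega
  have h5 : ¬ ℓ ∣ n := by
    rw [padicValNat.eq_zero_iff] at h4
    rcases h4 with h6 | h6 | h6
    · exact absurd h6 hp.one_lt.ne'
    · exact absurd h6 hn0
    · exact h6
  rw [hn1]
  exact ⟨_root_.isIntegral_natCast n, red_card_ne_zero 𝔐 hℓ h5⟩

/-! ### Integrality and invariance of the convolution -/

theorem isIntegral_cvB {B : Type*} [Group B] [Fintype B] {a a' : B → ℂ}
    (ha : ∀ x, IsIntegral ℤ (a x)) (ha' : ∀ x, IsIntegral ℤ (a' x)) (x : B) :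
    IsIntegral ℤ (cvB a a' x) :=
  isIntegral_sum _ _ fun y _ => (ha y).mul (ha' _)

theorem cvB_conj {B : Type*} [Group B] [Fintype B] {a a' : B → ℂ} {g : B}
    (ha : ∀ x, a (g * x * g⁻¹) = a x) (ha' : ∀ x, a' (g * x * g⁻¹) = a' x) (x : B) :
    cvB a a' (g * x * g⁻¹) = cvB a a' x := by
  rw [cvB, cvB, ← Equiv.sum_comp (MulAut.conj g).toEquiv]
  refine Finset.sum_congr rfl fun y _ => ?_
  have h1 : (MulAut.conj g).toEquiv y = g * y * g⁻¹ := rfl
  have h2 : (g * y * g⁻¹)⁻¹ * (g * x * g⁻¹) = g * (y⁻¹ * x) * g⁻¹ := by group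
  rw [h1, h2, ha, ha']

end MULV

open _root_.Pool.Agent.DPV.MULV in
theorem MULV_thm : Stmt_MULV := by
  classical
  intro G B C _ _ _ _ _ 𝔐 ℓ _ h𝔐 hℓ ι κ ρ hL σ ψ hσ hψ L hLC f hf a a' ha ha' hi hi' hs hs'
  have hprime : 𝔐.IsPrime := h𝔐.isPrime
  have hcl := hL.cl
  have hρ : ∀ g, ρ (ι g) = 1 := fun g => (hcl.ker _).mpr ⟨g, rfl⟩
  obtain ⟨hf1, hf2⟩ := hf
  obtain ⟨H, hH⟩ : ∃ H, H = Stx κ σ ψ ⊓ L.comap ρ := ⟨_, rfl⟩
  rw [← hH] at hf1
  have hmem : ∀ g, ι g ∈ H ↔ g ∈ stb σ := by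
    intro g
    rw [hH, Subgroup.mem_inf, Subgroup.mem_comap, hρ, DPC.TRBR.iota_mem hcl hψ]
    exact ⟨fun h => h.1, fun h => ⟨h, L.one_mem⟩⟩
  have hcomap : H.comap ι = stb σ := by
    ext g
    rw [Subgroup.mem_comap, hmem]
  have hres : IrrOn (H.comap ι) (fun h => f (ι h)) := by
    rw [hcomap]
    have h1 : (fun h => f (ι h)) = ψ := funext hf2
    rw [h1]
    exact hψ
  have hw := INTH_thm G B C ι κ ρ hcl H f hf1 hres a hi ha
  have hw' := INTH_thm G B C ι κ ρ hcl H f hf1 hres a' hi' ha'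
  change IsIntegral ℤ (wt f a) at hw
  change IsIntegral ℤ (wt f a') at hw'
  rcases hσ with rfl | ⟨P, rfl, hP, hPi⟩
  · -- the empty chain
    have hT : ∀ x, ρ x ∈ L → x ∈ H := by
      intro x hx
      obtain ⟨h, hh, hh'⟩ := hLC hx
      obtain ⟨g, rfl⟩ := DPC.TRBR.exists_iota hcl hh'.symm
      rw [hH]
      refine Subgroup.mem_inf.mpr ⟨(Stx κ ∅ ψ).mul_mem ?_ hh, hx⟩
      rw [DPC.TRBR.iota_mem hcl hψ, stb_empty]
      exact Subgroup.mem_top _
    rw [wt_cvB ι H f hf1 hres a a' (fun x hx => hs x (fun h => hx (hT x h)))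
      (fun x hx => hs' x (fun h => hx (hT x h))) (fun h _ x => ha' h x), red_mul 𝔐 hw hw']
  · -- the chain `{P}`
    have : Finite P := inferInstance
    have hcyc : IsCyclic P := isCyclic_of_prime_card hP
    obtain ⟨u, hu⟩ := hcyc.exists_generator
    have hgen : ∀ x : G, x ∈ P ↔ ∃ k : ℤ, x = (u : G) ^ k := by
      intro x
      constructor
      · intro hx
        obtain ⟨k, hk⟩ := Subgroup.mem_zpowers_iff.mp (hu ⟨x, hx⟩)
        exact ⟨k, by rw [← SubgroupClass.coe_zpow, hk]⟩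
      · rintro ⟨k, rfl⟩
        exact zpow_mem u.2 k
    have hupow : (u : G) ^ ℓ = 1 := by
      have h1 : u ^ ℓ = 1 := by
        rw [← hP]
        exact pow_card_eq_one'
      have h2 := congrArg Subtype.val h1
      exact h2
    obtain ⟨v, hv⟩ : ∃ v, v = ι (u : G) := ⟨_, rfl⟩
    have hvpow : v ^ ℓ = 1 := by rw [hv, ← map_pow, hupow, map_one]
    have huP : (u : G) ∈ stb ({P} : Finset (Subgroup G)) := by
      rw [DPB.LOC.stb_singleton]
      exact Subgroup.le_normalizer u.2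
    have hvH : v ∈ H := by
      rw [hv, hmem]
      exact huP
    -- elements centralizing `P`
    have hZ : ∀ y, v * y * v⁻¹ = y → ρ y ∈ L → y ∈ H := by
      intro y hy hyL
      obtain ⟨h, hh, hh'⟩ := hLC hyL
      obtain ⟨g, rfl⟩ := DPC.TRBR.exists_iota hcl hh'.symm
      rw [hH]
      refine Subgroup.mem_inf.mpr ⟨(Stx κ {P} ψ).mul_mem ?_ hh, hyL⟩
      rw [DPC.TRBR.iota_mem hcl hψ, mem_stb]
      intro D hD
      rw [Finset.mem_singleton] at hD
      subst hD
      have hcomm : ∀ k : ℤ, κ (ι g * h) ((u : G) ^ k) = (u : G) ^ k := by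
        intro k
        rw [map_zpow]
        congr 1
        apply hcl.inj
        rw [hcl.act, ← hv]
        have h1 : v * (ι g * h) = ι g * h * v := by
          rw [mul_inv_eq_iff_eq_mul] at hy
          exact hy
        rw [← h1]
        group
      have h2 : D.map (κ (ι g * h)).toMonoidHom = D := by
        ext x
        rw [Subgroup.mem_map]
        constructor
        · rintro ⟨z, hz, rfl⟩
          obtain ⟨k, rfl⟩ := (hgen z).mp hz
          change κ (ι g * h) ((u : G) ^ k) ∈ D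
          rw [hcomm]
          exact hz
        · intro hx
          obtain ⟨k, rfl⟩ := (hgen x).mp hx
          exact ⟨_, hx, hcomm k⟩
      have h3 : D.map (κ h).toMonoidHom = D := hh.1 D (Finset.mem_singleton_self D)
      have h4 : (κ (ι g * h)).toMonoidHom =
          (MulAut.conj g).toMonoidHom.comp (κ h).toMonoidHom := by
        rw [map_mul, DPC.TRBR.kappa_iota hcl]
        rfl
      rw [h4, ← Subgroup.map_map, h3] at h2
      exact h2
    -- the permutation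
    let e : Equiv.Perm B := (MulAut.conj v).toEquiv
    have he : ∀ x, e x = v * x * v⁻¹ := fun x => rfl
    have hepow : e ^ ℓ = 1 := by
      have h1 : ∀ n : ℕ, ∀ x, (e ^ n) x = v ^ n * x * (v ^ n)⁻¹ := by
        intro n
        induction n with
        | zero =>
          intro x
          simp
        | succ n ih =>
          intro x
          rw [pow_succ', Equiv.Perm.mul_apply, ih, he]
          group
      ext x
      rw [h1, hvpow]
      simp
    have hav : ∀ x, a (v * x * v⁻¹) = a x := fun x => by rw [hv]; exact ha _ x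
    have hav' : ∀ x, a' (v * x * v⁻¹) = a' x := fun x => by rw [hv]; exact ha' _ x
    have hHv : ∀ x, v * x * v⁻¹ ∈ H ↔ x ∈ H := by
      intro x
      constructor
      · intro h
        have h1 : x = v⁻¹ * (v * x * v⁻¹) * v := by group
        rw [h1]
        exact mul_mem (mul_mem (inv_mem hvH) h) hvH
      · intro h
        exact mul_mem (mul_mem hvH h) (inv_mem hvH)
    have hfv : ∀ x, f (v * x * v⁻¹) = f x := fun x => DPC.TRBR.irrOn_conj hf1 hvH x
    have hfi : ∀ x, IsIntegral ℤ (f x) := by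
      intro x
      by_cases hx : x ∈ H
      · have : Fintype H := Fintype.ofFinite _
        exact isIntegral_char hf1.1 ⟨x, hx⟩
      · rw [hf1.2 x hx]
        exact isIntegral_zero
    have hf1' : f 1 = ψ 1 := by rw [← hf2 1, map_one]
    obtain ⟨hψi, hψ0⟩ := degree_ne_zero 𝔐 h𝔐 hℓ hP hPi hψ
    have hf0 : f 1 ≠ 0 := by
      intro h
      rw [hf1'] at h
      rw [h] at hψ0
      exact hψ0 (red_zero 𝔐)
    -- the general formula
    have hgenl : ∀ b b' : B → ℂ, (∀ x, IsIntegral ℤ (b x)) → (∀ x, IsIntegral ℤ (b' x)) →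
        (∀ x, b (v * x * v⁻¹) = b x) → (∀ x, b' (v * x * v⁻¹) = b' x) →
        IsIntegral ℤ (wt f (cvB b b')) →
        red 𝔐 (ψ 1) * red 𝔐 (wt f (cvB b b')) =
          ∑ x ∈ Finset.univ.filter (fun x => e x = x),
            (∑ y ∈ Finset.univ.filter (fun y => e y = y), red 𝔐 (b y * b' (y⁻¹ * x))) *
              red 𝔐 (f x) := by
      intro b b' hb hb' hbv hbv' hint
      rw [← red_mul 𝔐 hψi hint]
      have h1 : ψ 1 * wt f (cvB b b') = ∑ x, cvB b b' x * f x := by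
        rw [wt, ← hf1', mul_div_cancel₀ _ hf0]
      rw [h1, red_sum_perm 𝔐 hℓ e hepow (fun x => cvB b b' x * f x)
        (fun x => (isIntegral_cvB hb hb' x).mul (hfi x))
        (fun x => by
          change cvB b b' (v * x * v⁻¹) * f (v * x * v⁻¹) = cvB b b' x * f x
          rw [cvB_conj hbv hbv', hfv])]
      refine Finset.sum_congr rfl fun x hx => ?_
      have hx' : v * x * v⁻¹ = x := (Finset.mem_filter.mp hx).2
      rw [red_mul 𝔐 (isIntegral_cvB hb hb' x) (hfi x)]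
      congr 1
      refine red_sum_perm 𝔐 hℓ e hepow (fun y => b y * b' (y⁻¹ * x))
        (fun y => (hb y).mul (hb' _)) (fun y => ?_)
      change b (v * y * v⁻¹) * b' ((v * y * v⁻¹)⁻¹ * x) = b y * b' (y⁻¹ * x)
      rw [hbv]
      congr 1
      have h2 : (v * y * v⁻¹)⁻¹ * x = v * (y⁻¹ * (v⁻¹ * x * v)) * v⁻¹ := by group
      have h3 : v⁻¹ * x * v = x := by
        nth_rewrite 1 [← hx']
        group
      rw [h2, hbv', h3]
    -- restriction to `H`
    obtain ⟨b, hbdef⟩ : ∃ b : B → ℂ, b = fun x => if x ∈ H then a x else 0 := ⟨_, rfl⟩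
    obtain ⟨b', hbdef'⟩ : ∃ b' : B → ℂ, b' = fun x => if x ∈ H then a' x else 0 := ⟨_, rfl⟩
    have hbI : ∀ x, x ∈ H → b x = a x := fun x hx => by rw [hbdef]; exact if_pos hx
    have hbI' : ∀ x, x ∈ H → b' x = a' x := fun x hx => by rw [hbdef']; exact if_pos hx
    have hbO : ∀ x, x ∉ H → b x = 0 := fun x hx => by rw [hbdef]; exact if_neg hx
    have hbO' : ∀ x, x ∉ H → b' x = 0 := fun x hx => by rw [hbdef']; exact if_neg hx
    have hwb : wt f b = wt f a := by
      rw [wt, wt]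
      congr 1
      refine Finset.sum_congr rfl fun x _ => ?_
      by_cases hx : x ∈ H
      · rw [hbI x hx]
      · rw [hf1.2 x hx, mul_zero, mul_zero]
    have hwb' : wt f b' = wt f a' := by
      rw [wt, wt]
      congr 1
      refine Finset.sum_congr rfl fun x _ => ?_
      by_cases hx : x ∈ H
      · rw [hbI' x hx]
      · rw [hf1.2 x hx, mul_zero, mul_zero]
    have hbi : ∀ x, IsIntegral ℤ (b x) := by
      intro x
      by_cases hx : x ∈ H
      · rw [hbI x hx]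
        exact hi x
      · rw [hbO x hx]
        exact isIntegral_zero
    have hbi' : ∀ x, IsIntegral ℤ (b' x) := by
      intro x
      by_cases hx : x ∈ H
      · rw [hbI' x hx]
        exact hi' x
      · rw [hbO' x hx]
        exact isIntegral_zero
    have hbv : ∀ x, b (v * x * v⁻¹) = b x := by
      intro x
      by_cases hx : x ∈ H
      · rw [hbI x hx, hbI _ ((hHv x).mpr hx), hav]
      · rw [hbO x hx, hbO _ (fun h => hx ((hHv x).mp h))]
    have hbv' : ∀ x, b' (v * x * v⁻¹) = b' x := by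
      intro x
      by_cases hx : x ∈ H
      · rw [hbI' x hx, hbI' _ ((hHv x).mpr hx), hav']
      · rw [hbO' x hx, hbO' _ (fun h => hx ((hHv x).mp h))]
    have hbc := wt_cvB ι H f hf1 hres b b' hbO hbO' (by
      intro h hh x
      by_cases hx : x ∈ H
      · rw [hbI' x hx, hbI' _ (mul_mem (mul_mem hh hx) (inv_mem hh)), ha']
      · rw [hbO' x hx, hbO' _ (fun h' => hx (by
          have h1 : x = (ι h)⁻¹ * (ι h * x * (ι h)⁻¹) * ι h := by group
          rw [h1]
          exact mul_mem (mul_mem (inv_mem hh) h') hh))])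
    rw [hwb, hwb'] at hbc
    have hint2 : IsIntegral ℤ (wt f (cvB b b')) := by
      rw [hbc]
      exact hw.mul hw'
    have hint1 : IsIntegral ℤ (wt f (cvB a a')) :=
      INTH_thm G B C ι κ ρ hcl H f hf1 hres (cvB a a') (isIntegral_cvB hi hi')
        (fun h x => cvB_conj (ha h) (ha' h) x)
    have e1 := hgenl a a' hi hi' hav hav' hint1
    have e2 := hgenl b b' hbi hbi' hbv hbv' hint2
    have e3 : red 𝔐 (ψ 1) * red 𝔐 (wt f (cvB a a')) =
        red 𝔐 (ψ 1) * red 𝔐 (wt f (cvB b b')) := by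
      rw [e1, e2]
      refine Finset.sum_congr rfl fun x _ => ?_
      by_cases hx : x ∈ H
      · congr 1
        refine Finset.sum_congr rfl fun y hy => ?_
        have hy' : v * y * v⁻¹ = y := (Finset.mem_filter.mp hy).2
        by_cases hyH : y ∈ H
        · rw [hbI y hyH, hbI' _ (mul_mem (inv_mem hyH) hx)]
        · have h1 : ρ y ∉ L := fun h => hyH (hZ y hy' h)
          rw [hbO y hyH, hs y h1, zero_mul, zero_mul]
      · rw [hf1.2 x hx, red_zero, mul_zero, mul_zero]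
    have e4 := mul_left_cancel₀ hψ0 e3
    rw [e4, hbc, red_mul 𝔐 hw hw']

end Pool.Agent.DPV


end

section

/-!
# NUV: central functions over the same block differ by a linear character (theorem V)
-/

set_option linter.unusedSectionVars false

namespace Pool.Agent.DPV

open Pool.Agent.DP Pool.Agent.Lib_helper13 Representation
open Pool.Agent.Lib_helper13.Dade (pCore DadeHolds dadeSum)

namespace NUV

/-! ### The abstract argument -/

section Abs

variable {B C F : Type*} [Group B] [Group C] [Finite C] [CommRing F] [IsDomain F]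

/-- The elements over which `u` does not vanish form a subgroup. -/
theorem exists_sub (ρ : B →* C) (L : Subgroup C) (u : B → F) (w : B → B → F)
    (hw : ∀ t t', ρ t ∈ L → ρ t' ∈ L → w t t' = u t * u t')
    (hz : ∀ t t', ρ t ∈ L → ρ t' ∈ L → (∀ s, ρ s = ρ t * ρ t' → u s = 0) → w t t' = 0)
    (hu1 : u 1 = 1) :
    ∃ U : Subgroup C, ∀ c, c ∈ U ↔ c ∈ L ∧ ∃ t, ρ t = c ∧ u t ≠ 0 := by
  let M : Submonoid C :=
    { carrier := {c | c ∈ L ∧ ∃ t, ρ t = c ∧ u t ≠ 0}
      one_mem' := ⟨L.one_mem, 1, map_one ρ, by rw [hu1]; exact one_ne_zero⟩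
      mul_mem' := by
        rintro c c' ⟨hc, t, rfl, ht⟩ ⟨hc', t', rfl, ht'⟩
        refine ⟨L.mul_mem hc hc', ?_⟩
        by_contra hcon
        have h1 : ∀ s, ρ s = ρ t * ρ t' → u s = 0 := by
          intro s hs
          by_contra h2
          exact hcon ⟨s, hs, h2⟩
        have h3 := hz t t' hc hc' h1
        rw [hw t t' hc hc'] at h3
        exact mul_ne_zero ht ht' h3 }
  have hM : ∀ c, c ∈ M ↔ c ∈ L ∧ ∃ t, ρ t = c ∧ u t ≠ 0 := fun c => Iff.rfl
  have hinv : ∀ c ∈ M, c⁻¹ ∈ M := by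
    intro c hc
    have h1 : 0 < orderOf c := orderOf_pos c
    have h2 : c * c ^ (orderOf c - 1) = 1 := by
      rw [← pow_succ', Nat.sub_add_cancel h1, pow_orderOf_eq_one]
    rw [inv_eq_of_mul_eq_one_right h2]
    exact M.pow_mem hc _
  exact ⟨{ M with inv_mem' := fun {c} hc => hinv c hc }, fun c => hM c⟩

/-- The abstract form of the statement. -/
theorem main (ρ : B →* C) (hρ : Function.Surjective ρ) (L : Subgroup C) (u u' : B → F)
    (w w' : B → B → F) (hF : ∀ a : F, a ≠ 0 → ∃ b, a * b = 1)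
    (hout' : ∀ t, ρ t ∉ L → u' t = 0)
    (hw : ∀ t t', ρ t ∈ L → ρ t' ∈ L → w t t' = u t * u t')
    (hw' : ∀ t t', ρ t ∈ L → ρ t' ∈ L → w' t t' = u' t * u' t')
    (hz : ∀ t t', ρ t ∈ L → ρ t' ∈ L → (∀ s, ρ s = ρ t * ρ t' → u s = 0) → w t t' = 0)
    (hz' : ∀ t t', ρ t ∈ L → ρ t' ∈ L → (∀ s, ρ s = ρ t * ρ t' → u' s = 0) → w' t t' = 0)
    (hn : ∀ t t' (ν : F), ρ t ∈ L → ρ t' ∈ L → (∀ s, ρ s = ρ t * ρ t' → u' s = ν * u s) →
      w' t t' = ν * w t t')
    (h1 : ∀ t, ρ t = 1 → u' t = u t) (hu1 : u 1 = 1)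
    (hinv : ∀ b, ρ b ∈ L → ∀ t, u (b * t * b⁻¹) = u t)
    (hinv' : ∀ b, ρ b ∈ L → ∀ t, u' (b * t * b⁻¹) = u' t) :
    ∃ (U : Subgroup C) (ν : C → F), U ≤ L ∧
      (∀ c ∈ L, ∀ v ∈ U, c * v * c⁻¹ ∈ U ∧ ν (c * v * c⁻¹) = ν v) ∧
      (∀ c, c ∈ U ↔ c ∈ L ∧ ∃ t, ρ t = c ∧ u t ≠ 0) ∧ ν 1 = 1 ∧
      (∀ c ∈ U, ∀ c' ∈ U, ν (c * c') = ν c * ν c') ∧ ∀ t, u' t = ν (ρ t) * u t := by
  obtain ⟨U, hU⟩ := exists_sub ρ L u w hw hz hu1
  have hu1' : u' 1 = 1 := by rw [h1 1 (map_one ρ), hu1]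
  obtain ⟨U', hU'⟩ := exists_sub ρ L u' w' hw' hz' hu1'
  have hprod : ∀ t t', ρ t ∈ L → ρ t' ∈ L → ρ t * ρ t' = 1 → u' t * u' t' = u t * u t' := by
    intro t t' ht ht' htt
    have h2 := hn t t' 1 ht ht' (fun s hs => by rw [one_mul]; exact h1 s (hs.trans htt))
    rw [hw' t t' ht ht', hw t t' ht ht', one_mul] at h2
    exact h2
  have hex : ∀ c : C, ∃ ν : F, ∀ t, ρ t = c → u' t = ν * u t := by
    intro c
    by_cases hcL : c ∈ L
    · by_cases hcU : c ∈ U
      · obtain ⟨-, t0, ht0, ht0'⟩ := (hU c).mp hcU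
        obtain ⟨hcL', s, hs, hs'⟩ := (hU c⁻¹).mp (U.inv_mem hcU)
        have h2 : u' t0 * u' s = u t0 * u s :=
          hprod t0 s (by rw [ht0]; exact hcL) (by rw [hs]; exact hcL')
            (by rw [ht0, hs, mul_inv_cancel])
        have h3 : u' s ≠ 0 := by
          intro h4
          rw [h4, mul_zero] at h2
          exact mul_ne_zero ht0' hs' h2.symm
        obtain ⟨b, hb⟩ := hF (u' s) h3
        refine ⟨u s * b, fun t ht => ?_⟩
        have h5 : u' t * u' s = u t * u s :=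
          hprod t s (by rw [ht]; exact hcL) (by rw [hs]; exact hcL')
            (by rw [ht, hs, mul_inv_cancel])
        calc u' t = u' t * (u' s * b) := by rw [hb, mul_one]
          _ = (u' t * u' s) * b := by ring
          _ = (u t * u s) * b := by rw [h5]
          _ = u s * b * u t := by ring
      · have h2 : ∀ t, ρ t = c → u t = 0 := by
          intro t ht
          by_contra h3
          exact hcU ((hU c).mpr ⟨hcL, t, ht, h3⟩)
        refine ⟨0, fun t ht => ?_⟩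
        rw [zero_mul]
        by_contra h3
        have hc' : c ∈ U' := (hU' c).mpr ⟨hcL, t, ht, h3⟩
        obtain ⟨hcL', s, hs, hs'⟩ := (hU' c⁻¹).mp (U'.inv_mem hc')
        have h5 : u' t * u' s = u t * u s :=
          hprod t s (by rw [ht]; exact hcL) (by rw [hs]; exact hcL')
            (by rw [ht, hs, mul_inv_cancel])
        rw [h2 t ht, zero_mul] at h5
        exact mul_ne_zero h3 hs' h5
    · refine ⟨0, fun t ht => ?_⟩
      rw [hout' t (by rw [ht]; exact hcL), zero_mul]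
  choose ν hν using hex
  refine ⟨U, ν, fun c hc => ((hU c).mp hc).1, ?_, hU, ?_, ?_, fun t => hν (ρ t) t rfl⟩
  · intro c hc v hv
    obtain ⟨hvL, t, ht, htne⟩ := (hU v).mp hv
    obtain ⟨b, rfl⟩ := hρ c
    have h2 : ρ (b * t * b⁻¹) = ρ b * v * (ρ b)⁻¹ := by rw [map_mul, map_mul, map_inv, ht]
    have h3 : u (b * t * b⁻¹) = u t := hinv b hc t
    refine ⟨(hU _).mpr ⟨L.mul_mem (L.mul_mem hc hvL) (L.inv_mem hc), b * t * b⁻¹, h2, ?_⟩, ?_⟩
    · rw [h3]
      exact htne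
    · have h4 := hν _ (b * t * b⁻¹) h2
      rw [hinv' b hc t, h3, hν v t ht] at h4
      exact (mul_right_cancel₀ htne h4).symm
  · have h2 := hν 1 1 (map_one ρ)
    rw [hu1', hu1, mul_one] at h2
    exact h2.symm
  · intro c hc c' hc'
    obtain ⟨hcL, t, ht, htne⟩ := (hU c).mp hc
    obtain ⟨hcL', t', ht', htne'⟩ := (hU c').mp hc'
    have hL1 : ρ t ∈ L := by rw [ht]; exact hcL
    have hL2 : ρ t' ∈ L := by rw [ht']; exact hcL'
    have h2 := hn t t' (ν (c * c')) hL1 hL2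
      (fun s hs => hν (c * c') s (by rw [hs, ht, ht']))
    rw [hw' t t' hL1 hL2, hw t t' hL1 hL2, hν c t ht, hν c' t' ht'] at h2
    have h3 : u t * u t' ≠ 0 := mul_ne_zero htne htne'
    refine mul_right_cancel₀ h3 ?_
    rw [← h2]
    ring

end Abs

/-! ### Facts about the central functions -/

section Facts

variable {G B C : Type} [Group G] [Fintype G] [Group B] [Fintype B] [Group C]
  {ι : G →* B} {κ : B →* MulAut G} {ρ : B →* C}

theorem cjT_rho (h : ClG ι κ ρ) {x t : B} (hx : ρ x ≠ ρ t) : cjT ι.range x t = 0 := by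
  refine if_neg ?_
  rintro ⟨s, hs, rfl⟩
  apply hx
  have h3 : ρ s = 1 := (h.ker s).mpr hs
  rw [map_mul, map_mul, map_inv, h3, one_mul, inv_one, mul_one]

theorem cvB_supp {a a' : B → ℂ} {c c' : C} (ha : ∀ x, ρ x ≠ c → a x = 0)
    (ha' : ∀ x, ρ x ≠ c' → a' x = 0) (x : B) (hx : ρ x ≠ c * c') : cvB a a' x = 0 := by
  rw [cvB]
  refine Finset.sum_eq_zero fun y _ => ?_
  by_cases hy : ρ y = c
  · rw [ha', mul_zero]
    intro h1
    apply hx
    rw [map_mul, map_inv, hy] at h1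
    rw [← h1, mul_inv_cancel_left]
  · rw [ha y hy, zero_mul]

theorem cvB_inv {a a' : B → ℂ} {s : B} (ha : ∀ x, a (s * x * s⁻¹) = a x)
    (ha' : ∀ x, a' (s * x * s⁻¹) = a' x) (x : B) : cvB a a' (s * x * s⁻¹) = cvB a a' x := by
  rw [cvB, cvB]
  symm
  refine Fintype.sum_equiv (MulAut.conj s).toEquiv _ _ fun y => ?_
  have h1 : (MulAut.conj s).toEquiv y = s * y * s⁻¹ := rfl
  rw [h1, ha]
  congr 1
  have h2 : (s * y * s⁻¹)⁻¹ * (s * x * s⁻¹) = s * (y⁻¹ * x) * s⁻¹ := by group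
  rw [h2, ha']

theorem cvB_int {a a' : B → ℂ} (ha : ∀ x, IsIntegral ℤ (a x)) (ha' : ∀ x, IsIntegral ℤ (a' x))
    (x : B) : IsIntegral ℤ (cvB a a' x) :=
  Lib_helper13.isIntegral_sum _ _ fun y _ => (ha y).mul (ha' _)

theorem normal_range (h : ClG ι κ ρ) : ι.range.Normal := by
  rw [← LTI.ker_eq h]
  infer_instance

/-- Invariance under the stabilizer. -/
theorem cgT_inv (𝔐 : Ideal (integralClosure ℤ ℂ)) (h : ClG ι κ ρ) {S : Subgroup B} {f : B → ℂ}
    (hf : IrrOn S f) {s : B} (hs : s ∈ S) (t : B) :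
    cgT 𝔐 ι.range f (s * t * s⁻¹) = cgT 𝔐 ι.range f t := by
  have hN := normal_range h
  unfold cgT
  congr 2
  symm
  refine Fintype.sum_equiv (MulAut.conj s).toEquiv _ _ fun x => ?_
  have h1 : (MulAut.conj s).toEquiv x = s * x * s⁻¹ := rfl
  rw [h1, LTI.cjT_conj ι.range s x t, LTI.conj_inv hf hs]

theorem cgT_inv_iota (𝔐 : Ideal (integralClosure ℤ ℂ)) (h : ClG ι κ ρ) (f : B → ℂ) (g : G)
    (t : B) : cgT 𝔐 ι.range f (ι g * t * (ι g)⁻¹) = cgT 𝔐 ι.range f t := by
  have hN := normal_range h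
  unfold cgT
  congr 2
  refine Finset.sum_congr rfl fun x _ => ?_
  rw [LTI.cjT_conj_mem ι.range ⟨g, rfl⟩ x t]

/-- Invariance under the inverse image of `L`. -/
theorem cgT_inv_L (𝔐 : Ideal (integralClosure ℤ ℂ)) (h : ClG ι κ ρ) {σ : Finset (Subgroup G)}
    {ψ : G → ℂ} {L : Subgroup C} {f : B → ℂ} (hf : ExtL ι κ ρ σ ψ L f)
    (hL : L ≤ (Stx κ σ ψ).map ρ) {b : B} (hb : ρ b ∈ L) (t : B) :
    cgT 𝔐 ι.range f (b * t * b⁻¹) = cgT 𝔐 ι.range f t := by
  obtain ⟨s, hs, hs'⟩ := hL hb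
  obtain ⟨g, rfl⟩ := DPC.TRBR.exists_iota h hs'.symm
  have h1 : ι g * s * t * (ι g * s)⁻¹ = ι g * (s * t * s⁻¹) * (ι g)⁻¹ := by group
  rw [h1, cgT_inv_iota 𝔐 h]
  refine cgT_inv 𝔐 h hf.1 (Subgroup.mem_inf.mpr ⟨hs, ?_⟩) t
  rw [Subgroup.mem_comap, hs']
  exact hb

theorem cgT_one (𝔐 : Ideal (integralClosure ℤ ℂ)) {S : Subgroup B} {f : B → ℂ}
    (hf : IrrOn S f) : cgT 𝔐 ι.range f 1 = 1 := by
  have hf1 : f 1 ≠ 0 := by
    have h1 := hf.1.one_ne_zero
    exact h1
  have h2 : ∑ x, cjT ι.range x 1 * f x = f 1 := by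
    rw [Finset.sum_eq_single 1]
    · have h3 : cjT ι.range (1 : B) 1 = 1 := if_pos ⟨1, ι.range.one_mem, by simp⟩
      rw [h3, one_mul]
    · intro x _ hx
      have h3 : cjT ι.range x 1 = 0 := by
        refine if_neg ?_
        rintro ⟨s, -, rfl⟩
        apply hx
        simp
      rw [h3, zero_mul]
    · intro h3
      exact absurd (Finset.mem_univ _) h3
  unfold cgT
  rw [h2, div_self hf1, red_one]

end Facts

end NUV

open _root_.Pool.Agent.DPV.NUV in
theorem NUV_thm (h1 : Stmt_MULV) (h2 : Stmt_EXPV) : Stmt_NUV := by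
  classical
  intro G B C _ _ _ _ _ 𝔐 ℓ _ hmax hℓ ι κ ρ hV σ σ' ψ ψ' hσ hσ' hψ hψ' hblk L hL hL' f f' hf hf'
  have h := hV.cl
  have hprime : 𝔐.IsPrime := hmax.isPrime
  have hfinC : Finite C := Finite.of_surjective ρ hV.surj
  have hdom : IsDomain ((integralClosure ℤ ℂ) ⧸ 𝔐) := Ideal.Quotient.isDomain 𝔐
  have hainv : ∀ t : B, ∀ (g : G) x, (fun x => cjT ι.range x t) (ι g * x * (ι g)⁻¹) =
      (fun x => cjT ι.range x t) x := fun t g x => LTI.cjT_left ι.range ⟨g, rfl⟩ x t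
  have haint : ∀ t : B, ∀ x, IsIntegral ℤ ((fun x => cjT ι.range x t) x) :=
    fun t x => DPC.LTIC.isIntegral_cjT _ _ _
  have hasupp : ∀ t : B, ∀ x, ρ x ≠ ρ t → (fun x => cjT ι.range x t) x = 0 :=
    fun t x hx => cjT_rho h hx
  have haL : ∀ t : B, ρ t ∈ L → ∀ x, ρ x ∉ L → (fun x => cjT ι.range x t) x = 0 := by
    intro t ht x hx
    refine hasupp t x ?_
    intro h3
    apply hx
    rw [h3]
    exact ht
  have hbinv : ∀ t t' : B, ∀ (g : G) x,
      cvB (fun x => cjT ι.range x t) (fun x => cjT ι.range x t') (ι g * x * (ι g)⁻¹) =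
        cvB (fun x => cjT ι.range x t) (fun x => cjT ι.range x t') x :=
    fun t t' g x => cvB_inv (hainv t g) (hainv t' g) x
  have hbint : ∀ t t' : B, ∀ x, IsIntegral ℤ
      (cvB (fun x => cjT ι.range x t) (fun x => cjT ι.range x t') x) :=
    fun t t' x => cvB_int (haint t) (haint t') x
  have hbsupp : ∀ t t' x : B,
      cvB (fun x => cjT ι.range x t) (fun x => cjT ι.range x t') x ≠ 0 → ρ x = ρ t * ρ t' := by
    intro t t' x hx
    by_contra h3
    exact hx (cvB_supp (hasupp t) (hasupp t') x h3)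
  have hif : ∀ t, IsIntegral ℤ ((∑ x, cjT ι.range x t * f x) / f 1) :=
    DPC.LTIC.isIntegral_cj h ι.range le_rfl hf.1 (DPC.LTIC.irrOn_comap h hψ hf)
  have hif' : ∀ t, IsIntegral ℤ ((∑ x, cjT ι.range x t * f' x) / f' 1) :=
    DPC.LTIC.isIntegral_cj h ι.range le_rfl hf'.1 (DPC.LTIC.irrOn_comap h hψ' hf')
  have hw : ∀ t t', ρ t ∈ L → ρ t' ∈ L →
      red 𝔐 (wt f (cvB (fun x => cjT ι.range x t) (fun x => cjT ι.range x t'))) =
        cgT 𝔐 ι.range f t * cgT 𝔐 ι.range f t' := by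
    intro t t' ht ht'
    exact h1 G B C 𝔐 ℓ hmax hℓ ι κ ρ hV σ ψ hσ hψ L hL f hf _ _ (hainv t) (hainv t') (haint t)
      (haint t') (haL t ht) (haL t' ht')
  have hw' : ∀ t t', ρ t ∈ L → ρ t' ∈ L →
      red 𝔐 (wt f' (cvB (fun x => cjT ι.range x t) (fun x => cjT ι.range x t'))) =
        cgT 𝔐 ι.range f' t * cgT 𝔐 ι.range f' t' := by
    intro t t' ht ht'
    exact h1 G B C 𝔐 ℓ hmax hℓ ι κ ρ hV σ' ψ' hσ' hψ' L hL' f' hf' _ _ (hainv t) (hainv t')
      (haint t) (haint t') (haL t ht) (haL t' ht')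
  refine main ρ hV.surj L (cgT 𝔐 ι.range f) (cgT 𝔐 ι.range f')
    (fun t t' => red 𝔐 (wt f (cvB (fun x => cjT ι.range x t) (fun x => cjT ι.range x t'))))
    (fun t t' => red 𝔐 (wt f' (cvB (fun x => cjT ι.range x t) (fun x => cjT ι.range x t'))))
    (fun a ha => Ideal.Quotient.exists_inv ha)
    (fun t ht => DPC.LTIC.cgT_out 𝔐 h hf' ht) hw hw'
    ?_ ?_ ?_ ?_ (cgT_one 𝔐 hf.1) (fun b hb t => cgT_inv_L 𝔐 h hf hL hb t)
    (fun b hb t => cgT_inv_L 𝔐 h hf' hL' hb t)
  · intro t t' _ _ hs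
    have h3 := (h2 G B 𝔐 ι f f hif hif _ (hbinv t t') (hbint t t')).2.2 0 (by
      intro x hx
      rw [hs x (hbsupp t t' x hx), mul_zero])
    rw [zero_mul] at h3
    exact h3
  · intro t t' _ _ hs
    have h3 := (h2 G B 𝔐 ι f' f' hif' hif' _ (hbinv t t') (hbint t t')).2.2 0 (by
      intro x hx
      rw [hs x (hbsupp t t' x hx), mul_zero])
    rw [zero_mul] at h3
    exact h3
  · intro t t' ν _ _ hs
    exact (h2 G B 𝔐 ι f f' hif hif' _ (hbinv t t') (hbint t t')).2.2 ν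
      (fun x hx => hs x (hbsupp t t' x hx))
  · intro t ht
    obtain ⟨g, rfl⟩ := (h.ker t).mp ht
    rw [← AAH.cg_of_cgT 𝔐 ι h.inj f g, ← AAH.cg_of_cgT 𝔐 ι h.inj f' g]
    have h3 : (fun x => f (ι x)) = ψ := funext hf.2
    have h4 : (fun x => f' (ι x)) = ψ' := funext hf'.2
    rw [h3, h4, hblk]

end Pool.Agent.DPV


end

section

/-!
# Theorem W: the central functions are multiplicative (module MULW)
-/

set_option linter.unusedSectionVars false

namespace Pool.Agent.DPW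

open Pool.Agent.DP Pool.Agent.DPV Pool.Agent.Lib_helper13 Representation
open Pool.Agent.Lib_helper13.Dade (pCore DadeHolds dadeSum)

open Pool.Agent.DPV.MULV in
theorem MULW_thm (h1 : Stmt_BRC) : Stmt_MULW := by
  classical
  intro G B C _ _ _ _ _ 𝔐 ℓ _ h𝔐 hℓ ι κ ρ hL σ ψ hσ hψ L hLC f hf a a' ha ha' hi hi' hs hs'
  have hprime : 𝔐.IsPrime := h𝔐.isPrime
  have hcl := hL.cl
  have hρ : ∀ g, ρ (ι g) = 1 := fun g => (hcl.ker _).mpr ⟨g, rfl⟩
  have hf0 := hf
  obtain ⟨hf1, hf2⟩ := hf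
  obtain ⟨H, hH⟩ : ∃ H, H = Stx κ σ ψ ⊓ L.comap ρ := ⟨_, rfl⟩
  rw [← hH] at hf1
  have hmem : ∀ g, ι g ∈ H ↔ g ∈ stb σ := by
    intro g
    rw [hH, Subgroup.mem_inf, Subgroup.mem_comap, hρ, DPC.TRBR.iota_mem hcl hψ]
    exact ⟨fun h => h.1, fun h => ⟨h, L.one_mem⟩⟩
  have hcomap : H.comap ι = stb σ := by
    ext g
    rw [Subgroup.mem_comap, hmem]
  have hres : IrrOn (H.comap ι) (fun h => f (ι h)) := by
    rw [hcomap]
    have h1 : (fun h => f (ι h)) = ψ := funext hf2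
    rw [h1]
    exact hψ
  rcases hσ with rfl | ⟨P, rfl, hP⟩
  · -- the empty chain
    have hw := INTH_thm G B C ι κ ρ hcl H f hf1 hres a hi ha
    have hw' := INTH_thm G B C ι κ ρ hcl H f hf1 hres a' hi' ha'
    change IsIntegral ℤ (wt f a) at hw
    change IsIntegral ℤ (wt f a') at hw'
    have hT : ∀ x, ρ x ∈ L → x ∈ H := by
      intro x hx
      obtain ⟨h, hh, hh'⟩ := hLC hx
      obtain ⟨g, rfl⟩ := DPC.TRBR.exists_iota hcl hh'.symm
      rw [hH]
      refine Subgroup.mem_inf.mpr ⟨(Stx κ ∅ ψ).mul_mem ?_ hh, hx⟩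
      rw [DPC.TRBR.iota_mem hcl hψ, stb_empty]
      exact Subgroup.mem_top _
    rw [wt_cvB ι H f hf1 hres a a' (fun x hx => hs x (fun h => hx (hT x h)))
      (fun x hx => hs' x (fun h => hx (hT x h))) (fun h _ x => ha' h x), red_mul 𝔐 hw hw']
  · -- the chain `{P}`
    have : Finite P := inferInstance
    have hcyc : IsCyclic P := isCyclic_of_prime_card hP
    obtain ⟨u, hu⟩ := hcyc.exists_generator
    have hgen : ∀ x : G, x ∈ P ↔ ∃ k : ℤ, x = (u : G) ^ k := by
      intro x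
      constructor
      · intro hx
        obtain ⟨k, hk⟩ := Subgroup.mem_zpowers_iff.mp (hu ⟨x, hx⟩)
        exact ⟨k, by rw [← SubgroupClass.coe_zpow, hk]⟩
      · rintro ⟨k, rfl⟩
        exact zpow_mem u.2 k
    have hupow : (u : G) ^ ℓ = 1 := by
      have h1 : u ^ ℓ = 1 := by
        rw [← hP]
        exact pow_card_eq_one'
      have h2 := congrArg Subtype.val h1
      exact h2
    obtain ⟨v, hv⟩ : ∃ v, v = ι (u : G) := ⟨_, rfl⟩
    have hvpow : v ^ ℓ = 1 := by rw [hv, ← map_pow, hupow, map_one]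
    have huP : (u : G) ∈ stb ({P} : Finset (Subgroup G)) := by
      rw [DPB.LOC.stb_singleton]
      exact Subgroup.le_normalizer u.2
    -- elements centralizing `P`
    obtain ⟨Cn, hCn⟩ : ∃ Cn : B → Prop, Cn = fun x => ∀ w ∈ P, κ x w = w := ⟨_, rfl⟩
    have hCmul : ∀ x y, Cn x → Cn y → Cn (x * y) := by
      intro x y hx hy
      rw [hCn] at hx hy ⊢
      intro w hw
      rw [map_mul, MulAut.mul_apply, hy w hw, hx w hw]
    have hCinv : ∀ x, Cn x → Cn x⁻¹ := by
      intro x hx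
      rw [hCn] at hx ⊢
      intro w hw
      rw [map_inv]
      have h2 := hx w hw
      nth_rewrite 1 [← h2]
      exact MulAut.inv_apply_self _ _ _
    have hCv : ∀ y, v * y * v⁻¹ = y → Cn y := by
      intro y hy
      have h3 : κ y (u : G) = (u : G) := by
        apply hcl.inj
        rw [hcl.act, ← hv]
        have h1 : v * y = y * v := by
          rw [mul_inv_eq_iff_eq_mul] at hy
          exact hy
        rw [← h1]
        group
      rw [hCn]
      intro w hw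
      obtain ⟨k, rfl⟩ := (hgen w).mp hw
      rw [map_zpow, h3]
    have hvC : ∀ y, Cn y → v * y * v⁻¹ = y := by
      intro y hy
      rw [hCn] at hy
      have h3 := congrArg ι (hy (u : G) u.2)
      rw [hcl.act, ← hv] at h3
      rw [mul_inv_eq_iff_eq_mul] at h3 ⊢
      exact h3.symm
    have hCconj : ∀ n ∈ stb ({P} : Finset (Subgroup G)), ∀ x, Cn (ι n * x * (ι n)⁻¹) ↔ Cn x := by
      have key : ∀ n ∈ stb ({P} : Finset (Subgroup G)), ∀ x, Cn x → Cn (ι n * x * (ι n)⁻¹) := by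
        intro n hn x hx
        rw [hCn] at hx ⊢
        intro w hw
        rw [DPB.LOC.stb_singleton] at hn
        apply hcl.inj
        rw [hcl.act]
        have h2 : n⁻¹ * w * n ∈ P := by
          have h3 := (Subgroup.mem_normalizer_iff.mp (inv_mem hn) w).mp hw
          rwa [inv_inv] at h3
        have h4 := congrArg ι (hx _ h2)
        rw [hcl.act] at h4
        simp only [map_mul, map_inv] at h4
        have h5 : ι n * x * (ι n)⁻¹ * ι w * (ι n * x * (ι n)⁻¹)⁻¹ =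
            ι n * (x * ((ι n)⁻¹ * ι w * ι n) * x⁻¹) * (ι n)⁻¹ := by group
        rw [h5, h4]
        group
      intro n hn x
      refine ⟨fun h => ?_, key n hn x⟩
      have h2 := key n⁻¹ (inv_mem hn) _ h
      have h3 : ι n⁻¹ * (ι n * x * (ι n)⁻¹) * (ι n⁻¹)⁻¹ = x := by
        rw [map_inv]
        group
      rwa [h3] at h2
    have hZ : ∀ y, Cn y → ρ y ∈ L → y ∈ H := by
      intro y hy hyL
      obtain ⟨h, hh, hh'⟩ := hLC hyL
      obtain ⟨g, rfl⟩ := DPC.TRBR.exists_iota hcl hh'.symm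
      rw [hCn] at hy
      rw [hH]
      refine Subgroup.mem_inf.mpr ⟨(Stx κ {P} ψ).mul_mem ?_ hh, hyL⟩
      rw [DPC.TRBR.iota_mem hcl hψ, mem_stb]
      intro D hD
      rw [Finset.mem_singleton] at hD
      subst hD
      have h2 : D.map (κ (ι g * h)).toMonoidHom = D := by
        ext x
        rw [Subgroup.mem_map]
        constructor
        · rintro ⟨z, hz, rfl⟩
          change κ (ι g * h) z ∈ D
          rw [hy z hz]
          exact hz
        · intro hx
          exact ⟨x, hx, hy x hx⟩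
      have h3 : D.map (κ h).toMonoidHom = D := hh.1 D (Finset.mem_singleton_self D)
      have h4 : (κ (ι g * h)).toMonoidHom =
          (MulAut.conj g).toMonoidHom.comp (κ h).toMonoidHom := by
        rw [map_mul, DPC.TRBR.kappa_iota hcl]
        rfl
      rw [h4, ← Subgroup.map_map, h3] at h2
      exact h2
    have hHL : ∀ x ∈ H, ρ x ∈ L := by
      intro x hx
      rw [hH] at hx
      exact (Subgroup.mem_inf.mp hx).2
    -- the permutation
    let e : Equiv.Perm B := (MulAut.conj v).toEquiv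
    have he : ∀ x, e x = v * x * v⁻¹ := fun x => rfl
    have hepow : e ^ ℓ = 1 := by
      have h1 : ∀ n : ℕ, ∀ x, (e ^ n) x = v ^ n * x * (v ^ n)⁻¹ := by
        intro n
        induction n with
        | zero =>
          intro x
          simp
        | succ n ih =>
          intro x
          rw [pow_succ', Equiv.Perm.mul_apply, ih, he]
          group
      ext x
      rw [h1, hvpow]
      simp
    have hHn : ∀ n ∈ stb ({P} : Finset (Subgroup G)), ∀ x, ι n * x * (ι n)⁻¹ ∈ H ↔ x ∈ H := by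
      intro n hn x
      have hnH : ι n ∈ H := (hmem n).mpr hn
      constructor
      · intro h
        have h1 : x = (ι n)⁻¹ * (ι n * x * (ι n)⁻¹) * ι n := by group
        rw [h1]
        exact mul_mem (mul_mem (inv_mem hnH) h) hnH
      · intro h
        exact mul_mem (mul_mem hnH h) (inv_mem hnH)
    -- restriction to the centralizer of `P` in `H`
    have key : ∀ a : B → ℂ, (∀ g x, a (ι g * x * (ι g)⁻¹) = a x) → (∀ x, IsIntegral ℤ (a x)) →
        ∃ b : B → ℂ, (∀ x, x ∈ H → Cn x → b x = a x) ∧ (∀ x, ¬ (x ∈ H ∧ Cn x) → b x = 0) ∧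
          (∀ x, IsIntegral ℤ (b x)) ∧
          ∀ n ∈ stb ({P} : Finset (Subgroup G)), ∀ x, b (ι n * x * (ι n)⁻¹) = b x := by
      intro a ha hi
      refine ⟨fun x => if x ∈ H ∧ Cn x then a x else 0, fun x hx hc => if_pos ⟨hx, hc⟩,
        fun x hx => if_neg hx, fun x => ?_, fun n hn x => ?_⟩
      · show IsIntegral ℤ (if x ∈ H ∧ Cn x then a x else 0)
        by_cases hx : x ∈ H ∧ Cn x
        · rw [if_pos hx]
          exact hi x
        · rw [if_neg hx]
          exact isIntegral_zero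
      · show (if ι n * x * (ι n)⁻¹ ∈ H ∧ Cn (ι n * x * (ι n)⁻¹) then
          a (ι n * x * (ι n)⁻¹) else 0) = if x ∈ H ∧ Cn x then a x else 0
        by_cases hx : x ∈ H ∧ Cn x
        · rw [if_pos hx, if_pos ⟨(hHn n hn x).mpr hx.1, (hCconj n hn x).mpr hx.2⟩, ha]
        · rw [if_neg hx, if_neg (fun h => hx ⟨(hHn n hn x).mp h.1, (hCconj n hn x).mp h.2⟩)]
    obtain ⟨b, hbI, hbO, hbi, hbn⟩ := key a ha hi
    obtain ⟨b', hbI', hbO', hbi', hbn'⟩ := key a' ha' hi'
    have hbc := wt_cvB ι H f hf1 hres b b' (fun x hx => hbO x (fun h => hx h.1))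
      (fun x hx => hbO' x (fun h => hx h.1)) (fun h hh x => hbn' h ((hmem h).mp hh) x)
    have hBR := h1 G B C 𝔐 ℓ h𝔐 hℓ ι κ ρ hL.locN P hP ψ hψ L f hf0
    obtain ⟨hwa, hwa2⟩ := hBR a (fun n _ x => ha n x) hi
    obtain ⟨hwa', hwa2'⟩ := hBR a' (fun n _ x => ha' n x) hi'
    obtain ⟨hwb, -⟩ := hBR b hbn hbi
    obtain ⟨hwb', -⟩ := hBR b' hbn' hbi'
    have e1 : red 𝔐 (wt f a) = red 𝔐 (wt f b) := hwa2 b hbn hbi (fun x hx hc => by
      have hc' : Cn x := by
        rw [hCn]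
        exact hc
      rw [hbI x (hZ x hc' hx) hc'])
    have e2 : red 𝔐 (wt f a') = red 𝔐 (wt f b') := hwa2' b' hbn' hbi' (fun x hx hc => by
      have hc' : Cn x := by
        rw [hCn]
        exact hc
      rw [hbI' x (hZ x hc' hx) hc'])
    obtain ⟨hwc, hwc2⟩ := hBR (cvB a a') (fun n _ x => cvB_conj (ha n) (ha' n) x)
      (isIntegral_cvB hi hi')
    have e3 : red 𝔐 (wt f (cvB a a')) = red 𝔐 (wt f (cvB b b')) := by
      refine hwc2 (cvB b b') (fun n hn x => cvB_conj (hbn n hn) (hbn' n hn) x)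
        (isIntegral_cvB hbi hbi') (fun x hx hc => ?_)
      have hc' : Cn x := by
        rw [hCn]
        exact hc
      have hxH := hZ x hc' hx
      have hxv : v⁻¹ * x * v = x := by
        have h3 := hvC x hc'
        nth_rewrite 1 [← h3]
        group
      have hgenl : ∀ c c' : B → ℂ, (∀ x, IsIntegral ℤ (c x)) → (∀ x, IsIntegral ℤ (c' x)) →
          (∀ x, c (v * x * v⁻¹) = c x) → (∀ x, c' (v * x * v⁻¹) = c' x) →
          red 𝔐 (cvB c c' x) =
            ∑ y ∈ Finset.univ.filter (fun y => e y = y), red 𝔐 (c y * c' (y⁻¹ * x)) := by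
        intro c c' hc1 hc1' hc2 hc2'
        refine red_sum_perm 𝔐 hℓ e hepow (fun y => c y * c' (y⁻¹ * x))
          (fun y => (hc1 y).mul (hc1' _)) (fun y => ?_)
        change c (v * y * v⁻¹) * c' ((v * y * v⁻¹)⁻¹ * x) = c y * c' (y⁻¹ * x)
        rw [hc2]
        congr 1
        have h2 : (v * y * v⁻¹)⁻¹ * x = v * (y⁻¹ * (v⁻¹ * x * v)) * v⁻¹ := by group
        rw [h2, hc2', hxv]
      rw [hgenl a a' hi hi' (fun x => by rw [hv]; exact ha _ x)
        (fun x => by rw [hv]; exact ha' _ x),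
        hgenl b b' hbi hbi' (fun x => by rw [hv]; exact hbn _ huP x)
        (fun x => by rw [hv]; exact hbn' _ huP x)]
      refine Finset.sum_congr rfl fun y hy => ?_
      have hy' : v * y * v⁻¹ = y := (Finset.mem_filter.mp hy).2
      have hyC := hCv y hy'
      by_cases hyH : y ∈ H
      · rw [hbI y hyH hyC, hbI' _ (mul_mem (inv_mem hyH) hxH) (hCmul _ _ (hCinv _ hyC) hc')]
      · have h1 : ρ y ∉ L := fun h => hyH (hZ y hyC h)
        rw [hbO y (fun h => hyH h.1), hs y h1, zero_mul, zero_mul]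
    rw [e3, hbc, red_mul 𝔐 hwb hwb', e1, e2]

end Pool.Agent.DPW


end

section

/-!
# NUVW: central functions over the same block differ by a linear character (theorem W)
-/

namespace Pool.Agent.DPW

open Pool.Agent.DP Pool.Agent.DPV Pool.Agent.Lib_helper13 Representation
open Pool.Agent.Lib_helper13.Dade (pCore DadeHolds dadeSum)

open Pool.Agent.DPV.NUV in
theorem NUVW_thm (h1 : Stmt_MULW) : Stmt_NUVW := by
  classical
  have h2 := EXPV_thm
  intro G B C _ _ _ _ _ 𝔐 ℓ _ hmax hℓ ι κ ρ hV σ σ' ψ ψ' hσ hσ' hψ hψ' hblk L hL hL' f f' hf hf'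
  have h := hV.cl
  have hprime : 𝔐.IsPrime := hmax.isPrime
  have hfinC : Finite C := Finite.of_surjective ρ hV.surj
  have hdom : IsDomain ((integralClosure ℤ ℂ) ⧸ 𝔐) := Ideal.Quotient.isDomain 𝔐
  have hainv : ∀ t : B, ∀ (g : G) x, (fun x => cjT ι.range x t) (ι g * x * (ι g)⁻¹) =
      (fun x => cjT ι.range x t) x := fun t g x => LTI.cjT_left ι.range ⟨g, rfl⟩ x t
  have haint : ∀ t : B, ∀ x, IsIntegral ℤ ((fun x => cjT ι.range x t) x) :=
    fun t x => DPC.LTIC.isIntegral_cjT _ _ _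
  have hasupp : ∀ t : B, ∀ x, ρ x ≠ ρ t → (fun x => cjT ι.range x t) x = 0 :=
    fun t x hx => cjT_rho h hx
  have haL : ∀ t : B, ρ t ∈ L → ∀ x, ρ x ∉ L → (fun x => cjT ι.range x t) x = 0 := by
    intro t ht x hx
    refine hasupp t x ?_
    intro h3
    apply hx
    rw [h3]
    exact ht
  have hbinv : ∀ t t' : B, ∀ (g : G) x,
      cvB (fun x => cjT ι.range x t) (fun x => cjT ι.range x t') (ι g * x * (ι g)⁻¹) =
        cvB (fun x => cjT ι.range x t) (fun x => cjT ι.range x t') x :=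
    fun t t' g x => cvB_inv (hainv t g) (hainv t' g) x
  have hbint : ∀ t t' : B, ∀ x, IsIntegral ℤ
      (cvB (fun x => cjT ι.range x t) (fun x => cjT ι.range x t') x) :=
    fun t t' x => cvB_int (haint t) (haint t') x
  have hbsupp : ∀ t t' x : B,
      cvB (fun x => cjT ι.range x t) (fun x => cjT ι.range x t') x ≠ 0 → ρ x = ρ t * ρ t' := by
    intro t t' x hx
    by_contra h3
    exact hx (cvB_supp (hasupp t) (hasupp t') x h3)
  have hif : ∀ t, IsIntegral ℤ ((∑ x, cjT ι.range x t * f x) / f 1) :=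
    DPC.LTIC.isIntegral_cj h ι.range le_rfl hf.1 (DPC.LTIC.irrOn_comap h hψ hf)
  have hif' : ∀ t, IsIntegral ℤ ((∑ x, cjT ι.range x t * f' x) / f' 1) :=
    DPC.LTIC.isIntegral_cj h ι.range le_rfl hf'.1 (DPC.LTIC.irrOn_comap h hψ' hf')
  have hw : ∀ t t', ρ t ∈ L → ρ t' ∈ L →
      red 𝔐 (wt f (cvB (fun x => cjT ι.range x t) (fun x => cjT ι.range x t'))) =
        cgT 𝔐 ι.range f t * cgT 𝔐 ι.range f t' := by
    intro t t' ht ht'
    exact h1 G B C 𝔐 ℓ hmax hℓ ι κ ρ hV σ ψ hσ hψ L hL f hf _ _ (hainv t) (hainv t') (haint t)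
      (haint t') (haL t ht) (haL t' ht')
  have hw' : ∀ t t', ρ t ∈ L → ρ t' ∈ L →
      red 𝔐 (wt f' (cvB (fun x => cjT ι.range x t) (fun x => cjT ι.range x t'))) =
        cgT 𝔐 ι.range f' t * cgT 𝔐 ι.range f' t' := by
    intro t t' ht ht'
    exact h1 G B C 𝔐 ℓ hmax hℓ ι κ ρ hV σ' ψ' hσ' hψ' L hL' f' hf' _ _ (hainv t) (hainv t')
      (haint t) (haint t') (haL t ht) (haL t' ht')
  refine main ρ hV.surj L (cgT 𝔐 ι.range f) (cgT 𝔐 ι.range f')
    (fun t t' => red 𝔐 (wt f (cvB (fun x => cjT ι.range x t) (fun x => cjT ι.range x t'))))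
    (fun t t' => red 𝔐 (wt f' (cvB (fun x => cjT ι.range x t) (fun x => cjT ι.range x t'))))
    (fun a ha => Ideal.Quotient.exists_inv ha)
    (fun t ht => DPC.LTIC.cgT_out 𝔐 h hf' ht) hw hw'
    ?_ ?_ ?_ ?_ (cgT_one 𝔐 hf.1) (fun b hb t => cgT_inv_L 𝔐 h hf hL hb t)
    (fun b hb t => cgT_inv_L 𝔐 h hf' hL' hb t)
  · intro t t' _ _ hs
    have h3 := (h2 G B 𝔐 ι f f hif hif _ (hbinv t t') (hbint t t')).2.2 0 (by
      intro x hx
      rw [hs x (hbsupp t t' x hx), mul_zero])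
    rw [zero_mul] at h3
    exact h3
  · intro t t' _ _ hs
    have h3 := (h2 G B 𝔐 ι f' f' hif' hif' _ (hbinv t t') (hbint t t')).2.2 0 (by
      intro x hx
      rw [hs x (hbsupp t t' x hx), mul_zero])
    rw [zero_mul] at h3
    exact h3
  · intro t t' ν _ _ hs
    exact (h2 G B 𝔐 ι f f' hif hif' _ (hbinv t t') (hbint t t')).2.2 ν
      (fun x hx => hs x (hbsupp t t' x hx))
  · intro t ht
    obtain ⟨g, rfl⟩ := (h.ker t).mp ht
    rw [← AAH.cg_of_cgT 𝔐 ι h.inj f g, ← AAH.cg_of_cgT 𝔐 ι h.inj f' g]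
    have h3 : (fun x => f (ι x)) = ψ := funext hf.2
    have h4 : (fun x => f' (ι x)) = ψ' := funext hf'.2
    rw [h3, h4, hblk]

end Pool.Agent.DPW


end

section

/-!
# Theorem W, BLW: the local characters over the same block are in the same block of the normalizer
-/

namespace Pool.Agent.DPW

open Pool.Agent.DP Pool.Agent.DPV Pool.Agent.Lib_helper13 Representation
open Pool.Agent.Lib_helper13.Dade (pCore DadeHolds dadeSum)

namespace BLW

variable {G : Type} [Group G]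

theorem cl (G : Type) [Group G] :
    ClG (MonoidHom.id G) (MulAut.conj : G →* MulAut G) (1 : G →* Unit) where
  inj := Function.injective_id
  act _ _ := rfl
  ker y := ⟨fun _ => ⟨y, rfl⟩, fun _ => rfl⟩

theorem locN (G : Type) [Group G] :
    LocN (MonoidHom.id G) (MulAut.conj : G →* MulAut G) (1 : G →* Unit) where
  cl := cl G
  surj _ := ⟨1, rfl⟩

theorem stx_eq [Fintype G] {P : Subgroup G} {ψ : G → ℂ} (hψ : IrrOn (stb {P}) ψ) :
    Stx (MulAut.conj : G →* MulAut G) {P} ψ ⊓ (⊤ : Subgroup Unit).comap (1 : G →* Unit) =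
      stb {P} := by
  ext x
  rw [Subgroup.mem_inf]
  constructor
  · rintro ⟨h, -⟩
    exact (DPC.TRBR.iota_mem (cl G) hψ x).1 h
  · intro h
    exact ⟨(DPC.TRBR.iota_mem (cl G) hψ x).2 h, Subgroup.mem_top _⟩

theorem extL [Fintype G] {P : Subgroup G} {ψ : G → ℂ} (hψ : IrrOn (stb {P}) ψ) :
    ExtL (MonoidHom.id G) (MulAut.conj : G →* MulAut G) (1 : G →* Unit) {P} ψ ⊤ ψ := by
  refine ⟨?_, fun h => rfl⟩
  rw [stx_eq hψ]
  exact hψ

/-- `t` centralizes `P`, and the order of its centralizer is not divisible by the square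
of `ℓ`. -/
def Q (ℓ : ℕ) (P : Subgroup G) (t : G) : Prop :=
  (∀ u ∈ P, MulAut.conj t u = u) ∧
    ¬ ℓ ^ 2 ∣ Nat.card ↥(Subgroup.centralizer ({t} : Set G) ⊓ (MonoidHom.id G).range)

theorem cen_conj (n t : G) :
    (Subgroup.centralizer ({t} : Set G) ⊓ (MonoidHom.id G).range).map
      (MulAut.conj n).toMonoidHom =
    Subgroup.centralizer ({n * t * n⁻¹} : Set G) ⊓ (MonoidHom.id G).range := by
  ext y
  rw [Subgroup.mem_map, Subgroup.mem_inf, Subgroup.mem_centralizer_singleton_iff]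
  constructor
  · rintro ⟨x, hx, rfl⟩
    rw [Subgroup.mem_inf, Subgroup.mem_centralizer_singleton_iff] at hx
    refine ⟨?_, ⟨_, rfl⟩⟩
    change n * x * n⁻¹ * (n * t * n⁻¹) = n * t * n⁻¹ * (n * x * n⁻¹)
    have h := hx.1
    calc n * x * n⁻¹ * (n * t * n⁻¹) = n * (x * t) * n⁻¹ := by group
      _ = n * (t * x) * n⁻¹ := by rw [h]
      _ = n * t * n⁻¹ * (n * x * n⁻¹) := by group
  · rintro ⟨hy, -⟩
    refine ⟨n⁻¹ * y * n, ?_, ?_⟩
    · rw [Subgroup.mem_inf, Subgroup.mem_centralizer_singleton_iff]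
      refine ⟨?_, ⟨_, rfl⟩⟩
      calc n⁻¹ * y * n * t = n⁻¹ * (y * (n * t * n⁻¹)) * n := by group
        _ = n⁻¹ * (n * t * n⁻¹ * y) * n := by rw [hy]
        _ = t * (n⁻¹ * y * n) := by group
    · change n * (n⁻¹ * y * n) * n⁻¹ = y
      group

theorem Q_conj {ℓ : ℕ} {P : Subgroup G} {n t : G} (hn : n ∈ stb {P}) (h : Q ℓ P t) :
    Q ℓ P (n * t * n⁻¹) := by
  obtain ⟨h1, h2⟩ := h
  refine ⟨?_, ?_⟩
  · intro u hu
    have hm : P.map (MulAut.conj n).toMonoidHom = P := mem_stb.mp hn P (Finset.mem_singleton_self P)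
    rw [← hm] at hu
    obtain ⟨v, hv, rfl⟩ := hu
    have h3 : t * v * t⁻¹ = v := h1 v hv
    change n * t * n⁻¹ * (n * v * n⁻¹) * (n * t * n⁻¹)⁻¹ = n * v * n⁻¹
    calc n * t * n⁻¹ * (n * v * n⁻¹) * (n * t * n⁻¹)⁻¹ = n * (t * v * t⁻¹) * n⁻¹ := by group
      _ = n * v * n⁻¹ := by rw [h3]
  · rw [← cen_conj]
    have h3 : Nat.card ↥((Subgroup.centralizer ({t} : Set G) ⊓ (MonoidHom.id G).range).map
        (MulAut.conj n).toMonoidHom) =
        Nat.card ↥(Subgroup.centralizer ({t} : Set G) ⊓ (MonoidHom.id G).range) :=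
      Subgroup.card_map_of_injective (MulAut.conj n).injective
    rw [h3]
    exact h2

theorem Q_iff {ℓ : ℕ} {P : Subgroup G} {n t : G} (hn : n ∈ stb {P}) :
    Q ℓ P (n * t * n⁻¹) ↔ Q ℓ P t := by
  constructor
  · intro h
    have h1 := Q_conj (inv_mem hn) h
    have h2 : n⁻¹ * (n * t * n⁻¹) * n⁻¹⁻¹ = t := by group
    rwa [h2] at h1
  · exact Q_conj hn

theorem cjT_conj (T : Subgroup G) {n : G} (hn : n ∈ T) (x g : G) :
    cjT T (n * x * n⁻¹) g = cjT T x g := by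
  unfold cjT
  by_cases h : ∃ t ∈ T, x = t * g * t⁻¹
  · rw [if_pos h, if_pos]
    obtain ⟨t, ht, rfl⟩ := h
    exact ⟨n * t, mul_mem hn ht, by group⟩
  · rw [if_neg h, if_neg]
    rintro ⟨t, ht, h1⟩
    refine h ⟨n⁻¹ * t, mul_mem (inv_mem hn) ht, ?_⟩
    calc x = n⁻¹ * (n * x * n⁻¹) * n := by group
      _ = n⁻¹ * (t * g * t⁻¹) * n := by rw [h1]
      _ = n⁻¹ * t * g * (n⁻¹ * t)⁻¹ := by group

theorem isIntegral_cjT (T : Subgroup G) (x g : G) : IsIntegral ℤ (cjT T x g) := by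
  unfold cjT
  split_ifs
  · exact isIntegral_one
  · exact isIntegral_zero

end BLW

open _root_.Pool.Agent.DPW.BLW in
theorem BLW_thm (h1 : Stmt_BRC) (h2 : Stmt_GDW) : Stmt_BLW := by
  classical
  intro G _ _ 𝔐 ℓ _ h𝔐 hℓ P x₀ ψ ψ' hψ hψ' hcg hat a ha hai
  have hprime : 𝔐.IsPrime := h𝔐.isPrime
  have hx₀ : x₀ ∈ stb {P} := by
    rw [mem_stb]
    intro D hD
    rw [Finset.mem_singleton] at hD
    subst hD
    have hc : ∀ u ∈ D, x₀ * u * x₀⁻¹ = u := fun u hu => by
      rw [← hat.cen u hu]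
      group
    ext y
    rw [Subgroup.mem_map]
    constructor
    · rintro ⟨u, hu, rfl⟩
      change x₀ * u * x₀⁻¹ ∈ D
      rw [hc u hu]
      exact hu
    · intro hy
      exact ⟨y, hy, hc y hy⟩
  -- the functions
  obtain ⟨k0, hk0⟩ : ∃ k0 : G → ℂ, k0 = fun y => cjT (stb {P}) y x₀ := ⟨_, rfl⟩
  obtain ⟨aN, haN⟩ : ∃ aN : G → ℂ, aN = fun x => if x ∈ stb {P} then a x else 0 := ⟨_, rfl⟩
  have hmem : ∀ n ∈ stb ({P} : Finset (Subgroup G)), ∀ x, n * x * n⁻¹ ∈ stb {P} ↔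
      x ∈ stb ({P} : Finset (Subgroup G)) := by
    intro n hn x
    constructor
    · intro h
      have h3 : x = n⁻¹ * (n * x * n⁻¹) * n := by group
      rw [h3]
      exact mul_mem (mul_mem (inv_mem hn) h) hn
    · intro h
      exact mul_mem (mul_mem hn h) (inv_mem hn)
  have haNc : ∀ n ∈ stb ({P} : Finset (Subgroup G)), ∀ x, aN (n * x * n⁻¹) = aN x := by
    intro n hn x
    rw [haN]
    by_cases hx : x ∈ stb ({P} : Finset (Subgroup G))
    · change (if n * x * n⁻¹ ∈ stb {P} then a (n * x * n⁻¹) else 0) = if x ∈ stb {P} then a x else 0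
      rw [if_pos hx, if_pos ((hmem n hn x).2 hx), ha n hn]
    · change (if n * x * n⁻¹ ∈ stb {P} then a (n * x * n⁻¹) else 0) = if x ∈ stb {P} then a x else 0
      rw [if_neg hx, if_neg (fun h => hx ((hmem n hn x).1 h))]
  have haNi : ∀ x, IsIntegral ℤ (aN x) := by
    intro x
    rw [haN]
    change IsIntegral ℤ (if x ∈ stb {P} then a x else 0)
    split_ifs
    · exact hai x
    · exact isIntegral_zero
  have haNo : ∀ x, x ∉ stb {P} → aN x = 0 := by
    intro x hx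
    rw [haN]
    exact if_neg hx
  have hk0c : ∀ n ∈ stb ({P} : Finset (Subgroup G)), ∀ x, k0 (n * x * n⁻¹) = k0 x := by
    intro n hn x
    rw [hk0]
    exact cjT_conj _ hn x x₀
  have hk0i : ∀ x, IsIntegral ℤ (k0 x) := by
    intro x
    rw [hk0]
    exact isIntegral_cjT _ x x₀
  have hk0o : ∀ x, x ∉ stb {P} → k0 x = 0 := by
    intro x hx
    rw [hk0]
    change cjT (stb {P}) x x₀ = 0
    unfold cjT
    rw [if_neg]
    rintro ⟨t, ht, rfl⟩
    exact hx (mul_mem (mul_mem ht hx₀) (inv_mem ht))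
  obtain ⟨a1, ha1⟩ : ∃ a1 : G → ℂ, a1 = cvB k0 aN := ⟨_, rfl⟩
  have ha1c : ∀ n ∈ stb ({P} : Finset (Subgroup G)), ∀ x, a1 (n * x * n⁻¹) = a1 x := by
    intro n hn x
    rw [ha1]
    exact MULV.cvB_conj (hk0c n hn) (haNc n hn) x
  have ha1i : ∀ x, IsIntegral ℤ (a1 x) := by
    intro x
    rw [ha1]
    exact MULV.isIntegral_cvB hk0i haNi x
  obtain ⟨a2, ha2⟩ : ∃ a2 : G → ℂ, a2 = fun x => if Q ℓ P x then a1 x else 0 := ⟨_, rfl⟩
  have ha2c : ∀ n ∈ stb ({P} : Finset (Subgroup G)), ∀ x, a2 (n * x * n⁻¹) = a2 x := by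
    intro n hn x
    rw [ha2]
    change (if Q ℓ P (n * x * n⁻¹) then a1 (n * x * n⁻¹) else 0) = if Q ℓ P x then a1 x else 0
    by_cases hx : Q ℓ P x
    · rw [if_pos hx, if_pos ((Q_iff hn).2 hx), ha1c n hn]
    · rw [if_neg hx, if_neg (fun h => hx ((Q_iff hn).1 h))]
  have ha2i : ∀ x, IsIntegral ℤ (a2 x) := by
    intro x
    rw [ha2]
    change IsIntegral ℤ (if Q ℓ P x then a1 x else 0)
    split_ifs
    · exact ha1i x
    · exact isIntegral_zero
  -- everything for one character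
  have main : ∀ θ : G → ℂ, IrrOn (stb {P}) θ →
      red 𝔐 (wt θ k0) = cg 𝔐 θ x₀ ∧
      red 𝔐 (wt θ a1) = red 𝔐 (wt θ k0) * red 𝔐 (wt θ a) ∧
      red 𝔐 (wt θ a1) = ∑ q : Quotient (EXPV.cjS (stb ({P} : Finset (Subgroup G)))),
        red 𝔐 (a2 q.out) * cg 𝔐 θ q.out := by
    intro θ hθ
    have B1 := h1 G G Unit 𝔐 ℓ h𝔐 hℓ (MonoidHom.id G) MulAut.conj 1 (locN G) P hat.card θ hθ ⊤ θ
      (extL hθ)
    obtain ⟨G1, G2⟩ := h2 G G Unit 𝔐 ℓ h𝔐 hℓ (MonoidHom.id G) MulAut.conj 1 (locN G) P hat.card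
      θ hθ
    obtain ⟨G3, G4⟩ := G2 x₀ hat.cen hat.sq
    have ik0 : IsIntegral ℤ (wt θ k0) := (B1 k0 hk0c hk0i).1
    have ia : IsIntegral ℤ (wt θ a) := (B1 a ha hai).1
    refine ⟨?_, ?_, ?_⟩
    · rw [G3, hk0]
    · have hres : IrrOn ((stb ({P} : Finset (Subgroup G))).comap (MonoidHom.id G))
          (fun h => θ (MonoidHom.id G h)) := by
        rw [Subgroup.comap_id]
        exact hθ
      have e1 := MULV.wt_cvB (MonoidHom.id G) (stb {P}) θ hθ hres k0 aN hk0o haNo haNc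
      have e2 : wt θ aN = wt θ a := by
        rw [wt, wt]
        congr 1
        refine Finset.sum_congr rfl fun x _ => ?_
        by_cases hx : x ∈ stb ({P} : Finset (Subgroup G))
        · rw [haN]
          change (if x ∈ stb {P} then a x else 0) * θ x = a x * θ x
          rw [if_pos hx]
        · rw [hθ.2 x hx, mul_zero, mul_zero]
      rw [ha1, e1, e2, red_mul 𝔐 ik0 ia]
    · have e1 : red 𝔐 (wt θ a1) = red 𝔐 (wt θ a2) := by
        refine (B1 a1 ha1c ha1i).2 a2 ha2c ha2i ?_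
        intro x _ hx
        by_cases hQ : Q ℓ P x
        · rw [ha2]
          change red 𝔐 (a1 x) = red 𝔐 (if Q ℓ P x then a1 x else 0)
          rw [if_pos hQ]
        · have hd : ℓ ^ 2 ∣ Nat.card ↥(Subgroup.centralizer ({x} : Set G) ⊓
              (MonoidHom.id G).range) := by
            by_contra hd
            exact hQ ⟨hx, hd⟩
          have e2 := G4 aN haNc haNi x hx hd
          have e3 : a1 x = ∑ y : G, cjT (stb {P}) y x₀ * aN ((MonoidHom.id G y)⁻¹ * x) := by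
            rw [ha1, hk0]
            rfl
          rw [e3, e2, ha2]
          change 0 = red 𝔐 (if Q ℓ P x then a1 x else 0)
          rw [if_neg hQ, red_zero]
      have hint : ∀ t, IsIntegral ℤ ((∑ x, cjT (stb {P}) x t * θ x) / θ 1) := by
        intro t
        exact (B1 (fun x => cjT (stb {P}) x t) (fun n hn x => cjT_conj _ hn x t)
          (fun x => isIntegral_cjT _ x t)).1
      rw [e1, EXPV.wt_classes (stb {P}) a2 θ ha2c,
        red_sum 𝔐 _ _ (fun q _ => (ha2i _).mul (hint _))]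
      refine Finset.sum_congr rfl fun q _ => ?_
      rw [red_mul 𝔐 (ha2i _) (hint _)]
      by_cases hQ : Q ℓ P q.out
      · congr 1
        have e4 := G1 ⊤ θ (extL hθ) q.out (Subgroup.mem_top _) hQ.1 hQ.2
        have e5 := (CGT_thm G G Unit 𝔐 (MonoidHom.id G) MulAut.conj 1 (cl G)).2.1 θ q.out
        have e6 : cgT 𝔐 ((stb {P}).map (MonoidHom.id G)) θ q.out =
            red 𝔐 ((∑ x, cjT (stb {P}) x q.out * θ x) / θ 1) := by
          rw [Subgroup.map_id]
          rfl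
        rw [← e6, ← e4]
        exact e5
      · have e7 : a2 q.out = 0 := by
          rw [ha2]
          exact if_neg hQ
        rw [e7, red_zero, zero_mul, zero_mul]
  obtain ⟨m1, m2, m3⟩ := main ψ hψ
  obtain ⟨n1, n2, n3⟩ := main ψ' hψ'
  have hk : red 𝔐 (wt ψ k0) = red 𝔐 (wt ψ' k0) := by
    rw [m1, n1]
    exact hcg x₀
  have ha1eq : red 𝔐 (wt ψ a1) = red 𝔐 (wt ψ' a1) := by
    rw [m3, n3]
    refine Finset.sum_congr rfl fun q _ => ?_
    rw [hcg]
  rw [m2, n2, ← hk] at ha1eq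
  refine mul_left_cancel₀ ?_ ha1eq
  rw [m1]
  exact hat.ne

end Pool.Agent.DPW


end

section

/-!
# Theorem W, NUN: the central functions of two extensions of characters of the same block
-/

set_option linter.unusedSectionVars false

namespace Pool.Agent.DPW

open Pool.Agent.DP Pool.Agent.DPV Pool.Agent.Lib_helper13 Representation
open Pool.Agent.Lib_helper13.Dade (pCore DadeHolds dadeSum)

namespace NUN

theorem clG {M : Type} [Group M] (C : Subgroup M) [C.Normal] :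
    ClG C.subtype (MulAut.conjNormal (H := C)) (QuotientGroup.mk' C) where
  inj := C.subtype_injective
  act := fun y a => MulAut.conjNormal_apply y a
  ker := fun y => by
    rw [Subgroup.range_subtype]
    exact QuotientGroup.eq_one_iff y

theorem irrOn_top {G : Type} [Group G] [Fintype G] {θ : G → ℂ} (h : IsIrr θ) :
    IrrOn (⊤ : Subgroup G) θ := by
  refine ⟨?_, fun x hx => absurd (Subgroup.mem_top x) hx⟩
  exact h.comp_mulEquiv (Subgroup.topEquiv (G := G))

end NUN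

open _root_.Pool.Agent.DPW.NUN in
theorem NUN_thm : Stmt_NUN := by
  classical
  intro M _ _ 𝔐 ℓ _ hmax hℓ C _ E E' hE hE' hEC hEC' hblk hne
  have h := clG C
  have hprime : 𝔐.IsPrime := hmax.isPrime
  have hdom : IsDomain ((integralClosure ℤ ℂ) ⧸ 𝔐) := Ideal.Quotient.isDomain 𝔐
  have hT := irrOn_top hE
  have hT' := irrOn_top hE'
  have hcomap : (⊤ : Subgroup M).comap C.subtype = ⊤ := Subgroup.comap_top _
  have hres : IrrOn ((⊤ : Subgroup M).comap C.subtype) (fun c => E (C.subtype c)) := by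
    rw [hcomap]
    exact irrOn_top hEC
  have hres' : IrrOn ((⊤ : Subgroup M).comap C.subtype) (fun c => E' (C.subtype c)) := by
    rw [hcomap]
    exact irrOn_top hEC'
  have hainv : ∀ t : M, ∀ (g : C) x, (fun x => cjT C.subtype.range x t)
      (C.subtype g * x * (C.subtype g)⁻¹) = (fun x => cjT C.subtype.range x t) x :=
    fun t g x => LTI.cjT_left C.subtype.range ⟨g, rfl⟩ x t
  have haint : ∀ t : M, ∀ x, IsIntegral ℤ ((fun x => cjT C.subtype.range x t) x) :=
    fun t x => DPC.LTIC.isIntegral_cjT _ _ _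
  have hasupp : ∀ t : M, ∀ x, QuotientGroup.mk' C x ≠ QuotientGroup.mk' C t →
      (fun x => cjT C.subtype.range x t) x = 0 :=
    fun t x hx => NUV.cjT_rho h hx
  have hbinv : ∀ t t' : M, ∀ (g : C) x,
      cvB (fun x => cjT C.subtype.range x t) (fun x => cjT C.subtype.range x t')
        (C.subtype g * x * (C.subtype g)⁻¹) =
        cvB (fun x => cjT C.subtype.range x t) (fun x => cjT C.subtype.range x t') x :=
    fun t t' g x => NUV.cvB_inv (hainv t g) (hainv t' g) x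
  have hbint : ∀ t t' : M, ∀ x, IsIntegral ℤ
      (cvB (fun x => cjT C.subtype.range x t) (fun x => cjT C.subtype.range x t') x) :=
    fun t t' x => NUV.cvB_int (haint t) (haint t') x
  have hbsupp : ∀ t t' x : M,
      cvB (fun x => cjT C.subtype.range x t) (fun x => cjT C.subtype.range x t') x ≠ 0 →
        QuotientGroup.mk' C x = QuotientGroup.mk' C t * QuotientGroup.mk' C t' := by
    intro t t' x hx
    by_contra h3
    exact hx (NUV.cvB_supp (hasupp t) (hasupp t') x h3)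
  have hif : ∀ t, IsIntegral ℤ ((∑ x, cjT C.subtype.range x t * E x) / E 1) :=
    DPC.LTIC.isIntegral_cj h C.subtype.range le_rfl hT hres
  have hif' : ∀ t, IsIntegral ℤ ((∑ x, cjT C.subtype.range x t * E' x) / E' 1) :=
    DPC.LTIC.isIntegral_cj h C.subtype.range le_rfl hT' hres'
  have hw : ∀ t t', red 𝔐 (wt E (cvB (fun x => cjT C.subtype.range x t)
      (fun x => cjT C.subtype.range x t'))) =
        cgT 𝔐 C.subtype.range E t * cgT 𝔐 C.subtype.range E t' := by
    intro t t'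
    rw [MULV.wt_cvB C.subtype ⊤ E hT hres _ _ (fun x hx => absurd (Subgroup.mem_top x) hx)
      (fun x hx => absurd (Subgroup.mem_top x) hx) (fun g _ x => hainv t' g x)]
    exact red_mul 𝔐 (hif t) (hif t')
  have hw' : ∀ t t', red 𝔐 (wt E' (cvB (fun x => cjT C.subtype.range x t)
      (fun x => cjT C.subtype.range x t'))) =
        cgT 𝔐 C.subtype.range E' t * cgT 𝔐 C.subtype.range E' t' := by
    intro t t'
    rw [MULV.wt_cvB C.subtype ⊤ E' hT' hres' _ _ (fun x hx => absurd (Subgroup.mem_top x) hx)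
      (fun x hx => absurd (Subgroup.mem_top x) hx) (fun g _ x => hainv t' g x)]
    exact red_mul 𝔐 (hif' t) (hif' t')
  obtain ⟨U, ν, -, -, hU, hν1, hνmul, hν⟩ := NUV.main (QuotientGroup.mk' C)
    (QuotientGroup.mk'_surjective C) ⊤ (cgT 𝔐 C.subtype.range E) (cgT 𝔐 C.subtype.range E')
    (fun t t' => red 𝔐 (wt E (cvB (fun x => cjT C.subtype.range x t)
      (fun x => cjT C.subtype.range x t'))))
    (fun t t' => red 𝔐 (wt E' (cvB (fun x => cjT C.subtype.range x t)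
      (fun x => cjT C.subtype.range x t'))))
    (fun a ha => Ideal.Quotient.exists_inv ha)
    (fun t ht => absurd (Subgroup.mem_top _) ht) (fun t t' _ _ => hw t t')
    (fun t t' _ _ => hw' t t')
    (by
      intro t t' _ _ hs
      have h3 := (EXPV_thm C M 𝔐 C.subtype E E hif hif _ (hbinv t t') (hbint t t')).2.2 0 (by
        intro x hx
        rw [hs x (hbsupp t t' x hx), mul_zero])
      rw [zero_mul] at h3
      exact h3)
    (by
      intro t t' _ _ hs
      have h3 := (EXPV_thm C M 𝔐 C.subtype E' E' hif' hif' _ (hbinv t t') (hbint t t')).2.2 0 (by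
        intro x hx
        rw [hs x (hbsupp t t' x hx), mul_zero])
      rw [zero_mul] at h3
      exact h3)
    (by
      intro t t' ν _ _ hs
      exact (EXPV_thm C M 𝔐 C.subtype E E' hif hif' _ (hbinv t t') (hbint t t')).2.2 ν
        (fun x hx => hs x (hbsupp t t' x hx)))
    (by
      intro t ht
      obtain ⟨g, rfl⟩ := (h.ker t).mp ht
      rw [← AAH.cg_of_cgT 𝔐 C.subtype h.inj E g, ← AAH.cg_of_cgT 𝔐 C.subtype h.inj E' g]
      exact (congrFun hblk g).symm)
    (NUV.cgT_one 𝔐 hT) (fun b _ t => NUV.cgT_inv 𝔐 h hT (Subgroup.mem_top b) t)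
    (fun b _ t => NUV.cgT_inv 𝔐 h hT' (Subgroup.mem_top b) t)
  rw [Subgroup.range_subtype] at hU hν
  have hall : ∀ m : M, QuotientGroup.mk' C m ∈ U := by
    intro m
    obtain ⟨t, ht, ht'⟩ := hne m
    refine (hU _).mpr ⟨Subgroup.mem_top _, t, ?_, ht'⟩
    have h3 : QuotientGroup.mk' C (t * m⁻¹) = 1 := (QuotientGroup.eq_one_iff _).mpr ht
    rw [map_mul, map_inv] at h3
    exact mul_inv_eq_one.mp h3
  refine ⟨fun m => ν (QuotientGroup.mk' C m), ?_, ?_, ?_, hν⟩
  · show ν (QuotientGroup.mk' C 1) = 1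
    rw [map_one]
    exact hν1
  · intro x y
    show ν (QuotientGroup.mk' C (x * y)) = _
    rw [map_mul]
    exact hνmul _ (hall x) _ (hall y)
  · intro c hc
    have h3 : QuotientGroup.mk' C c = 1 := (QuotientGroup.eq_one_iff c).mpr hc
    show ν (QuotientGroup.mk' C c) = 1
    rw [h3]
    exact hν1

end Pool.Agent.DPW


end

section

/-!
# DFX: the defects of the characters which contribute
-/

set_option autoImplicit false
set_option linter.unusedSectionVars false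

namespace Pool.Agent.DPX

open Pool.Agent.DP Pool.Agent.DPV Pool.Agent.DPB Pool.Agent.DPW Pool.Agent.Lib_helper13
open Representation

namespace DFX

theorem df_eq {G : Type} [Group G] [Fintype G] {ℓ : ℕ} [hl : Fact ℓ.Prime] (n : ℕ)
    (S : Subgroup G) {f : G → ℂ} (hf : IrrOn S f) (m : ℕ) (hm : ¬ ℓ ∣ m)
    (h : (Nat.card S : ℂ) = ℓ ^ n * m * f 1) : df ℓ S f = n := by
  classical
  obtain ⟨k, hk, hv⟩ := Pool.Agent.DP.AA.hasDefect_df ℓ S hf
  have hk' : f 1 = k := hk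
  rw [hk'] at h
  have h1 : Nat.card S = ℓ ^ n * m * k := by exact_mod_cast h
  have h2 : Nat.card S ≠ 0 := Nat.card_pos.ne'
  have hk0 : k ≠ 0 := by
    rintro rfl
    exact h2 (by rw [h1, mul_zero])
  have hm0 : m ≠ 0 := by
    rintro rfl
    exact hm (dvd_zero _)
  have hp : ℓ ^ n ≠ 0 := pow_ne_zero _ hl.out.ne_zero
  rw [h1, padicValNat.mul (mul_ne_zero hp hm0) hk0, padicValNat.mul hp hm0,
    padicValNat.prime_pow, padicValNat.eq_zero_of_not_dvd hm] at hv
  omega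

end DFX

open _root_.Pool.Agent.DPX.DFX in
/-- DFX. -/
theorem DFX_thm (h1 : Stmt_ATNX) (h2 : Stmt_HGTX) : Stmt_DFX := by
  intro G _ _ 𝔐 ℓ n hl h𝔐 hℓ ω P₁ P x₀ hat
  classical
  haveI hpr : 𝔐.IsPrime := h𝔐.isPrime
  constructor
  · intro θ hθ hcg
    have hirr : IsIrr θ := Pool.Agent.DP.AA.irr_top stb_empty hθ
    have hcen : cen 𝔐 (MonoidHom.id G) θ = ω := by
      funext g
      rw [← hcg g, cen, cg, wt]
      rfl
    obtain ⟨m, hm, hc⟩ := h2 G 𝔐 ℓ n h𝔐 hℓ θ hirr P₁ P x₀ (by rw [hcen]; exact hat)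
    refine df_eq n _ hθ m hm ?_
    rw [← hc, stb_empty]
    exact congrArg Nat.cast (Nat.card_congr (Subgroup.topEquiv (G := G)).toEquiv)
  · intro ψ hψ hcg
    have hP1 : IsPGroup ℓ P₁ := IsPGroup.of_card (n := 1) (by rw [hat.cd.c1, pow_one])
    have hne : P₁ ≠ ⊥ := by
      rintro rfl
      have h3 := hat.cd.c1
      rw [Subgroup.card_bot] at h3
      exact hl.out.one_lt.ne h3
    obtain ⟨χ, hχ, hχc⟩ := exists_irr_of_mult 𝔐 hψ.1
      (exists_irr_of_chain 𝔐 hℓ (LOC.isCh_singleton hP1 hne) hψ.1)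
    have hom : cen 𝔐 (MonoidHom.id G) χ = ω := by
      rw [hχc]
      funext g
      rw [Pool.Agent.DP.AA.cg_eq 𝔐 _ hψ g, hcg]
    have key : ∀ (S : Subgroup G) (hS : S = Subgroup.normalizer (P₁ : Set G)), IrrOn S ψ →
        df ℓ S ψ = n := by
      intro S hS hψS
      subst hS
      let _ : Fintype (NP P₁) := subFintype _
      have hx : x₀ ∈ Subgroup.normalizer (P₁ : Set G) := by
        rw [Subgroup.mem_normalizer_iff]
        intro u
        constructor
        · intro hu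
          have h4 := hat.cd.cen u (hat.cd.le hu)
          rwa [← h4, mul_inv_cancel_right]
        · intro hu
          have h4 := hat.cd.cen _ (hat.cd.le hu)
          have h5 : u = x₀ * u * x₀⁻¹ := by
            calc u = x₀⁻¹ * (x₀ * u * x₀⁻¹ * x₀) := by group
              _ = x₀⁻¹ * (x₀ * (x₀ * u * x₀⁻¹)) := by rw [h4]
              _ = x₀ * u * x₀⁻¹ := by group
          rw [h5]
          exact hu
      have h3 : cen 𝔐 (Subgroup.normalizer (P₁ : Set G)).subtype (fun s : NP P₁ => ψ s) =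
          cen 𝔐 (MonoidHom.id G) χ := by
        rw [hom]
        funext g
        rw [Pool.Agent.DP.AA.cg_eq 𝔐 _ hψS g, hcg]
      have h4 := (h1 G 𝔐 ℓ n h𝔐 hℓ χ hχ P₁ P x₀ (by rw [hom]; exact hat) hx
        (fun s : NP P₁ => ψ s) hψS.1 h3).1
      obtain ⟨m, hm, hc⟩ := h2 (NP P₁) 𝔐 ℓ n h𝔐 hℓ (fun s : NP P₁ => ψ s) hψS.1 _ _ _ h4
      exact df_eq n _ hψS m hm hc
    exact key _ (LOC.stb_singleton P₁) hψ

end Pool.Agent.DPX


end
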