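import Mathlib
import Pool.Agent.DAM.C08
import Pool.Agent.DAM.C13
import Pool.Agent.DAM.C14
import Pool.Agent.DAM.C19
import Pool.Agent.DAM.C20
import Pool.Agent.DAM.C46
import Pool.Agent.DAM.C47

/-! Parts: DPM.EXPB, DP.RX0, DPV.TRIV, DPW.FXD -/

section

/-!
# EXPB: the sum over the chains of a normal subgroup in terms of stabilizers of pairs
-/

namespace Pool.Agent.DPM

open Pool.Agent.DP Pool.Agent.DPC Pool.Agent.Lib_helper13 Representation
open Pool.Agent.Lib_helper13.Dade (pCore DadeHolds dadeSum)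

namespace EXPB

theorem jmem {A Y K : Type} [Group A] [Group Y] [Group K]
    {j : A →* Y} {c : Y →* MulAut A} {p : Y →* K} (hj : ClG j c p) {θ : A → ℂ} (hθ : IsIrr θ)
    (a : A) : j a ∈ inert c θ := by
  intro b
  have h : c (j a) b = a * b * a⁻¹ := by
    apply hj.inj
    rw [hj.act, map_mul, map_mul, map_inv]
  rw [h, hθ.conj_eq]

/-- The order of an inverse image. -/
theorem card_comap {G H : Type} [Group G] [Finite G] [Group H] (f : G →* H) (V : Subgroup H) :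
    Nat.card ↥(V.comap f) = Nat.card f.ker * Nat.card ↥(V ⊓ f.range) := by
  have h1 : (f.comp (V.comap f).subtype).range = V ⊓ f.range := by
    ext x
    constructor
    · rintro ⟨y, rfl⟩
      exact ⟨y.2, ⟨y.1, rfl⟩⟩
    · rintro ⟨hx, ⟨y, rfl⟩⟩
      exact ⟨⟨y, hx⟩, rfl⟩
  have h2 : Nat.card (f.comp (V.comap f).subtype).ker = Nat.card f.ker := by
    refine Nat.card_congr
      { toFun := fun x => ⟨x.1.1, x.2⟩
        invFun := fun x => ⟨⟨x.1, ?_⟩, x.2⟩
        left_inv := fun _ => rfl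
        right_inv := fun _ => rfl }
    have hx : f x.1 = 1 := x.2
    change f x.1 ∈ V
    rw [hx]
    exact V.one_mem
  rw [Subgroup.card_eq_card_quotient_mul_card_subgroup (f.comp (V.comap f).subtype).ker,
    Nat.card_congr (QuotientGroup.quotientKerEquivRange (f.comp (V.comap f).subtype)).toEquiv,
    h1, h2, mul_comm]

section

variable {X H : Type} [Group X] [Fintype X] [Group H] [Fintype H] {M : Subgroup X}
  {c : X →* MulAut M} {p : X →* H}

/-- The embedding of `M` in the inverse image of `V`. -/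
def jV (h : ClG M.subtype c p) (V : Subgroup H) : M →* ↥(V.comap p) :=
  M.subtype.codRestrict _ (fun m => by
    change p m ∈ V
    rw [(h.ker m).mpr ⟨m, rfl⟩]
    exact V.one_mem)

omit [Fintype X] [Fintype H] in
theorem clG_V (h : ClG M.subtype c p) (V : Subgroup H) :
    ClG (jV h V) (c.comp (V.comap p).subtype) (p.comp (V.comap p).subtype) where
  inj := by
    intro a b hab
    have h1 : ((jV h V a : ↥(V.comap p)) : X) = (jV h V b : X) := by rw [hab]
    exact h.inj h1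
  act := fun y a => Subtype.ext (h.act y a)
  ker := by
    intro y
    constructor
    · intro h1
      obtain ⟨a, ha⟩ := (h.ker (y : X)).mp h1
      exact ⟨a, Subtype.ext ha⟩
    · rintro ⟨a, rfl⟩
      exact (h.ker a).mpr ⟨a, rfl⟩

omit [Fintype X] [Fintype H] in
theorem le_V (h : ClG M.subtype c p) (V : Subgroup H) : M ≤ V.comap p := by
  intro m hm
  change p m ∈ V
  rw [(h.ker m).mpr ⟨⟨m, hm⟩, rfl⟩]
  exact V.one_mem

/-- `M` as a subgroup of the inverse image. -/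
noncomputable def eM (h : ClG M.subtype c p) (V : Subgroup H) :
    M ≃* ↥(M.subgroupOf (V.comap p)) :=
  (Subgroup.subgroupOfEquivOfLe (le_V h V)).symm

omit [Fintype X] [Fintype H] in
theorem eM_comp (h : ClG M.subtype c p) (V : Subgroup H) :
    (M.subgroupOf (V.comap p)).subtype.comp (eM h V).toMonoidHom = jV h V := by
  ext m
  rfl

omit [Fintype X] [Fintype H] in
theorem mem_T (h : ClG M.subtype c p) (V : Subgroup H) (τ : Finset (Subgroup M))
    (x : ↥(V.comap p)) : x ∈ YS (jV h V) τ ↔ (x : X) ∈ YS M.subtype τ := by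
  have h1 : mapCh (V.comap p).subtype (mapCh (jV h V) τ) = mapCh M.subtype τ := by
    rw [mapCh_comp]
    rfl
  have h2 := comap_stb_mapCh (i := (V.comap p).subtype) (V.comap p).subtype_injective
    (mapCh (jV h V) τ)
  rw [h1] at h2
  change x ∈ stb (mapCh (jV h V) τ) ↔ _
  rw [← h2]
  rfl

/-- The inertia groups. -/
noncomputable def eI (h : ClG M.subtype c p) (V : Subgroup H) (τ : Finset (Subgroup M))
    (θ : stb τ → ℂ) : ↥(inert (cS (clG_V h V) τ) θ) ≃*
      ↥(V.comap ((pS p M.subtype τ).comp (inert (cS h τ) θ).subtype)) where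
  toFun x := ⟨⟨⟨x.1.1.1, (mem_T h V τ x.1.1).mp x.1.2⟩, x.2⟩, x.1.1.2⟩
  invFun x := ⟨⟨⟨x.1.1.1, x.2⟩, (mem_T h V τ ⟨x.1.1.1, x.2⟩).mpr x.1.1.2⟩, x.1.2⟩
  left_inv := fun _ => rfl
  right_inv := fun _ => rfl
  map_mul' := fun _ _ => rfl

omit [Fintype H] in
theorem card_I (h : ClG M.subtype c p) (V : Subgroup H) (τ : Finset (Subgroup M))
    (θ : stb τ → ℂ) (hθ : IsIrr θ) : Nat.card ↥(inert (cS (clG_V h V) τ) θ) =
      Nat.card (stb τ) * Nat.card ↥(V ⊓ (inert (cS h τ) θ).map (pS p M.subtype τ)) := by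
  have h0 : Finite ↥(inert (cS h τ) θ) := inferInstance
  rw [Nat.card_congr (eI h V τ θ).toEquiv, card_comap]
  have h1 : ((pS p M.subtype τ).comp (inert (cS h τ) θ).subtype).range =
      (inert (cS h τ) θ).map (pS p M.subtype τ) := by
    ext x
    constructor
    · rintro ⟨y, rfl⟩
      exact ⟨y.1, y.2, rfl⟩
    · rintro ⟨y, hy, rfl⟩
      exact ⟨⟨y, hy⟩, rfl⟩
  rw [h1]
  congr 1
  symm
  have hmem : ∀ a : stb τ, jS h τ a ∈ inert (cS h τ) θ := jmem (clG_S h τ) hθ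
  refine Nat.card_congr (Equiv.ofBijective
    (fun a => ⟨⟨jS h τ a, hmem a⟩, ?_⟩) ⟨?_, ?_⟩)
  · exact ((clG_S h τ).ker (jS h τ a)).mpr ⟨a, rfl⟩
  · intro a b hab
    apply (clG_S h τ).inj
    exact congrArg (fun z => z.1.1) hab
  · rintro ⟨⟨y, hy⟩, hy'⟩
    obtain ⟨a, ha⟩ := ((clG_S h τ).ker y).mp hy'
    exact ⟨a, Subtype.ext (Subtype.ext ha)⟩

omit [Fintype X] [Fintype H] in
theorem ext0_eq (h : ClG M.subtype c p) (V : Subgroup H) (τ : Finset (Subgroup M))
    (θ : stb τ → ℂ) (hθ : IsIrr θ)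
    (ψ : ↥(V.comap ((pS p M.subtype τ).comp (inert (cS h τ) θ).subtype)) → ℂ) :
    (fun a : stb τ => ext0 (fun y => ψ (eI h V τ θ y)) (jS (clG_V h V) τ a)) =
      fun a : stb τ => ext0 (ext0 ψ) (jS h τ a) := by
  funext a
  have h1 : jS (clG_V h V) τ a ∈ inert (cS (clG_V h V) τ) θ :=
    jmem (clG_S (clG_V h V) τ) hθ a
  have h2 : jS h τ a ∈ inert (cS h τ) θ := jmem (clG_S h τ) hθ a
  have h3 : (⟨jS h τ a, h2⟩ : inert (cS h τ) θ) ∈
      V.comap ((pS p M.subtype τ).comp (inert (cS h τ) θ).subtype) := by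
    change p (a : M) ∈ V
    rw [(h.ker ((a : M) : X)).mpr ⟨(a : M), rfl⟩]
    exact V.one_mem
  rw [ext0_of_mem _ h1, ext0_of_mem _ h2, ext0_of_mem _ h3]
  rfl

open Classical in
theorem term (hC : Stmt_CLC) (hR : Stmt_RCE) [M.Normal] (h : ClG M.subtype c p)
    (𝔐 : Ideal (integralClosure ℤ ℂ)) (ℓ : ℕ) [Fact ℓ.Prime] (d : ℕ)
    (ω : X → (integralClosure ℤ ℂ) ⧸ 𝔐) (V : Subgroup H) (τ : Finset (Subgroup M)) :
    (Nat.card ↥(YS (jV h V) τ) : ℚ) * Nat.card {ψ : ↥(YS (jV h V) τ) → ℂ // IsIrr ψ ∧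
        HasDefect ℓ ψ d ∧
        ∀ g ∈ M, cen 𝔐 ((V.comap p).subtype.comp (YS (jV h V) τ).subtype) ψ g = ω g} =
      ∑ θ ∈ irrF (stb τ) with ∀ g ∈ M, cen 𝔐 (M.subtype.comp (stb τ).subtype) θ g = ω g,
        (Nat.card (stb τ) : ℚ) *
          ((Nat.card ↥(V ⊓ (inert (cS h τ) θ).map (pS p M.subtype τ)) : ℚ) *
            Nat.card {ψ : ↥(V.comap ((pS p M.subtype τ).comp
                (inert (cS h τ) θ).subtype)) → ℂ // IsIrr ψ ∧
              ip (fun a : stb τ => ext0 (ext0 ψ) (jS h τ a)) θ ≠ 0 ∧ HasDefect ℓ ψ d}) := by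
  have hS := clG_S (clG_V h V) τ
  have h1 := hC (stb τ) ↥(YS (jV h V) τ) H ℓ (jS (clG_V h V) τ) (cS (clG_V h V) τ)
    (pS (p.comp (V.comap p).subtype) (jV h V) τ) hS
    (fun ψ => ∀ g ∈ M, cen 𝔐 ((V.comap p).subtype.comp (YS (jV h V) τ).subtype) ψ g = ω g) d
  rw [h1, Finset.sum_filter]
  refine Finset.sum_congr rfl fun θ hθ' => ?_
  have hθ : IsIrr θ := mem_irrF.mp hθ'
  have hcc := CCOR_thm IND_thm SUMM_thm (stb τ) ↥(YS (jV h V) τ) H (jS (clG_V h V) τ)
    (cS (clG_V h V) τ) (pS (p.comp (V.comap p).subtype) (jV h V) τ) hS θ hθ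
  have key : ∀ ψ : ↥(inert (cS (clG_V h V) τ) θ) → ℂ, IsIrr ψ →
      ip (fun a => ext0 ψ (jS (clG_V h V) τ a)) θ ≠ 0 →
      ((∀ g ∈ M, cen 𝔐 ((V.comap p).subtype.comp (YS (jV h V) τ).subtype)
          (indc (inert (cS (clG_V h V) τ) θ) ψ) g = ω g) ↔
        ∀ g ∈ M, cen 𝔐 (M.subtype.comp (stb τ).subtype) θ g = ω g) := by
    intro ψ hψ hψθ
    obtain ⟨h2, h3⟩ := hcc.1 ψ hψ hψθ
    have h4 := hR (stb τ) ↥(YS (jV h V) τ) H X 𝔐 (jS (clG_V h V) τ)
      (cS (clG_V h V) τ) (pS (p.comp (V.comap p).subtype) (jV h V) τ) hS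
      ((V.comap p).subtype.comp (YS (jV h V) τ).subtype) M inferInstance ?_ _ θ h2 hθ h3
    · have h5 : ((V.comap p).subtype.comp (YS (jV h V) τ).subtype).comp (jS (clG_V h V) τ) =
          M.subtype.comp (stb τ).subtype := rfl
      rw [h5] at h4
      exact forall₂_congr fun g hg => by rw [h4 g hg]
    · intro t ht
      have h6 : (jV h V) ⟨_, ht⟩ ∈ YS (jV h V) τ := t.2
      exact ⟨⟨⟨_, ht⟩, (mem_YS (clG_V h V) τ).mp h6⟩, rfl⟩
  split_ifs with hc
  · rw [card_I h V τ θ hθ]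
    push_cast
    rw [mul_assoc]
    congr 2
    rw [card_irr_equiv (eI h V τ θ)]
    intro ψ hψ
    have hψ' : IsIrr (fun y => ψ (eI h V τ θ y)) := hψ.comp_mulEquiv (eI h V τ θ)
    rw [ext0_eq h V τ θ hθ ψ, hasDefect_comp_equiv]
    constructor
    · rintro ⟨h7, h8, -⟩
      exact ⟨h7, h8⟩
    · rintro ⟨h7, h8⟩
      refine ⟨h7, h8, (key _ hψ' ?_).mpr hc⟩
      rw [ext0_eq h V τ θ hθ ψ]
      exact h7
  · have h9 : IsEmpty {ψ : ↥(inert (cS (clG_V h V) τ) θ) → ℂ // IsIrr ψ ∧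
          ip (fun a => ext0 ψ (jS (clG_V h V) τ a)) θ ≠ 0 ∧ HasDefect ℓ ψ d ∧
          ∀ g ∈ M, cen 𝔐 ((V.comap p).subtype.comp (YS (jV h V) τ).subtype)
            (indc (inert (cS (clG_V h V) τ) θ) ψ) g = ω g} := by
      constructor
      rintro ⟨ψ, h10, h11, -, h12⟩
      exact hc ((key ψ h10 h11).mp h12)
    rw [@Nat.card_of_isEmpty _ h9]
    simp

end

end EXPB

theorem EXPB_thm (h1 : Stmt_CLC) (h2 : Stmt_RCE) : Stmt_EXPB := by
  classical
  intro X H _ _ _ _ 𝔐 ℓ _ _ _ M _ c p h _ d ω V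
  have hbot : (⊥ : Subgroup ↥(M.subgroupOf (V.comap p))) =
      (⊥ : Subgroup M).map (EXPB.eM h V).toMonoidHom := by
    rw [Subgroup.map_bot]
  rw [PHY, hbot, sum_Ch_equiv]
  refine Finset.sum_congr rfl fun τ _ => ?_
  have hcard : (mapCh (EXPB.eM h V).toMonoidHom τ).card = τ.card :=
    card_mapCh (EXPB.eM h V).injective τ
  have hmap : mapCh (M.subgroupOf (V.comap p)).subtype (mapCh (EXPB.eM h V).toMonoidHom τ) =
      mapCh (EXPB.jV h V) τ := by
    rw [mapCh_comp, EXPB.eM_comp]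
  rw [hcard, hmap]
  congr 1
  exact EXPB.term h1 h2 h 𝔐 ℓ d ω V τ

end Pool.Agent.DPM


end

section

/-!
# RX0: the structure of a group with a normal subgroup `G ^ Ω`
-/

namespace Pool.Agent.DP

open Pool.Agent.Lib_helper13 Representation
open Pool.Agent.Lib_helper13.Dade (pCore DadeHolds)

namespace RX0

theorem wB_inj {O G B : Type*} [Group G] [Group B] [Nontrivial G] (κ : B →* MulAut G)
    (hκ : Function.Injective κ) : Function.Injective (wB κ O) := by
  classical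
  intro z z' h
  have h1 : ∀ (n : O → G) (o : O), κ (z.left o) (n (z.right⁻¹ • o)) =
      κ (z'.left o) (n (z'.right⁻¹ • o)) := by
    intro n o
    exact congrArg (fun f : MulAut (O → G) => f n o) h
  have hr : z.right = z'.right := by
    obtain ⟨g, hg⟩ := exists_ne (1 : G)
    have h2 : z.right⁻¹ = z'.right⁻¹ := by
      apply Equiv.ext
      intro o
      change z.right⁻¹ • o = z'.right⁻¹ • o
      by_contra hne
      have h3 := h1 (Pi.mulSingle (z.right⁻¹ • o) g) o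
      rw [Pi.mulSingle_eq_same, Pi.mulSingle_eq_of_ne (fun h => hne h.symm), map_one] at h3
      exact hg ((map_eq_one_iff _ (κ (z.left o)).injective).mp h3)
    exact inv_injective h2
  have hl : z.left = z'.left := by
    funext o
    apply hκ
    ext g
    exact h1 (fun _ => g) o
  exact SemidirectProduct.ext hl hr

theorem conj_range_normal (G : Type*) [Group G] :
    ((MulAut.conj : G →* MulAut G).range).Normal := by
  constructor
  rintro _ ⟨g, rfl⟩ α
  refine ⟨α g, ?_⟩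
  ext x
  simp [MulAut.mul_apply]

theorem conj_inj {G : Type*} [Group G] (h : Subgroup.center G = ⊥) :
    Function.Injective (MulAut.conj : G →* MulAut G) := by
  rw [← MonoidHom.ker_eq_bot_iff, eq_bot_iff]
  intro g hg
  rw [← h, Subgroup.mem_center_iff]
  intro x
  have h1 := congrArg (fun f : MulAut G => f x) (MonoidHom.mem_ker.mp hg)
  have h2 : g * x * g⁻¹ = x := h1
  rw [mul_inv_eq_iff_eq_mul] at h2
  exact h2.symm

theorem finite_mulAut (G : Type*) [Group G] [Finite G] : Finite (MulAut G) :=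
  Finite.of_injective (fun f : MulAut G => (f : G → G)) DFunLike.coe_injective

theorem cyclic_quot {M : Type*} [Group M] (I A : Subgroup M) [I.Normal] (a : M)
    (hA : A = I ⊔ Subgroup.zpowers a) : IsCyclic (A ⧸ I.subgroupOf A) := by
  have ha : a ∈ A := by
    rw [hA]
    exact Subgroup.mem_sup_right (Subgroup.mem_zpowers a)
  refine ⟨⟨QuotientGroup.mk' (I.subgroupOf A) ⟨a, ha⟩, ?_⟩⟩
  intro x
  obtain ⟨⟨y, hy⟩, rfl⟩ := QuotientGroup.mk'_surjective _ x
  have h1 : y ∈ ((I ⊔ Subgroup.zpowers a : Subgroup M) : Set M) := by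
    rw [← hA]
    exact hy
  rw [Subgroup.normal_mul] at h1
  obtain ⟨i, hi, b, hb, rfl⟩ := Set.mem_mul.mp h1
  obtain ⟨k, rfl⟩ := Subgroup.mem_zpowers_iff.mp hb
  refine ⟨k, ?_⟩
  change QuotientGroup.mk' (I.subgroupOf A) ⟨a, ha⟩ ^ k = _
  rw [← map_zpow]
  symm
  rw [QuotientGroup.mk'_eq_mk']
  have hiA : i ∈ A := by
    rw [hA]
    exact Subgroup.mem_sup_left hi
  refine ⟨⟨(a ^ k)⁻¹ * i⁻¹ * a ^ k, ?_⟩, ?_, ?_⟩
  · exact A.mul_mem (A.mul_mem (A.inv_mem (A.zpow_mem ha k)) (A.inv_mem hiA)) (A.zpow_mem ha k)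
  · rw [Subgroup.mem_subgroupOf]
    have h2 := (inferInstance : I.Normal).conj_mem i⁻¹ (I.inv_mem hi) (a ^ k)⁻¹
    rw [inv_inv] at h2
    exact h2
  · apply Subtype.ext
    simp
    group

end RX0

theorem RX0_thm (h1 : Stmt_DHE) : Stmt_RX0 := by
  classical
  intro G X Ω _ _ _ _ _ ℓ _ hcore hcen hnt a A hA hcop hDade e he hX
  have hIn : ((MulAut.conj : G →* MulAut G).range).Normal := RX0.conj_range_normal G
  have hIA : (MulAut.conj : G →* MulAut G).range ≤ A := by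
    rw [hA]
    exact le_sup_left
  have hfin : Finite (MulAut G) := RX0.finite_mulAut G
  let ι : G →* A := (MulAut.conj : G →* MulAut G).codRestrict A (fun g => hIA ⟨g, rfl⟩)
  let κ : A →* MulAut G := A.subtype
  let ρ : A →* A ⧸ (MulAut.conj : G →* MulAut G).range.subgroupOf A := QuotientGroup.mk' _
  have hκ : Function.Injective κ := A.subtype_injective
  have hex : ∀ y : X, ∃ z : Gam (Equiv.Perm Ω) Ω A, ∀ n, e (wB κ Ω z n) = y * e n * y⁻¹ := by
    intro y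
    obtain ⟨s, α, hα, h⟩ := hX y
    refine ⟨⟨fun i => ⟨α i, hα i⟩, s⁻¹⟩, fun n => ?_⟩
    rw [h n]
    congr 1
  choose φ0 hφ0 using hex
  have huniq : ∀ z z' : Gam (Equiv.Perm Ω) Ω A, (∀ n, e (wB κ Ω z n) = e (wB κ Ω z' n)) →
      z = z' := by
    intro z z' h
    apply RX0.wB_inj κ hκ
    apply MulEquiv.ext
    intro n
    exact he (h n)
  let φ : X →* Gam (Equiv.Perm Ω) Ω A := MonoidHom.mk' φ0 (by
    intro x y
    apply huniq
    intro n
    rw [hφ0, map_mul, MulAut.mul_apply, hφ0, hφ0]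
    group)
  have hen : e.range.Normal := by
    constructor
    rintro _ ⟨n, rfl⟩ y
    exact ⟨wB κ Ω (φ0 y) n, hφ0 y n⟩
  refine ⟨A, A ⧸ (MulAut.conj : G →* MulAut G).range.subgroupOf A, X ⧸ e.range, inferInstance,
    Fintype.ofFinite _, inferInstance, inferInstance, inferInstance, ι, κ, ρ,
    QuotientGroup.mk' _, φ, ?_, ?_, ?_⟩
  · refine ⟨⟨?_, ?_, ?_⟩, QuotientGroup.mk'_surjective _, RX0.cyclic_quot _ A a hA, hcop, hκ,
      hcore, hnt⟩
    · intro x y hxy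
      exact RX0.conj_inj hcen (congrArg Subtype.val hxy)
    · intro y x
      apply Subtype.ext
      change MulAut.conj ((y : MulAut G) x) = (y : MulAut G) * MulAut.conj x * (y : MulAut G)⁻¹
      ext z
      simp [MulAut.mul_apply]
    · intro y
      change QuotientGroup.mk' _ y = 1 ↔ _
      rw [QuotientGroup.mk'_apply, QuotientGroup.eq_one_iff, Subgroup.mem_subgroupOf]
      constructor
      · rintro ⟨g, hg⟩
        exact ⟨g, Subtype.ext hg⟩
      · rintro ⟨g, hg⟩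
        exact ⟨g, congrArg Subtype.val hg⟩
  · intro T hT
    have h2 : (MulAut.conj : G →* MulAut G).range ≤ T.map A.subtype := by
      rintro _ ⟨g, rfl⟩
      exact ⟨ι g, hT ⟨g, rfl⟩, rfl⟩
    exact h1 _ _ ℓ (Subgroup.equivMapOfInjective T A.subtype A.subtype_injective).symm
      (hDade _ h2 (Subgroup.map_subtype_le T))
  · refine ⟨⟨he, ?_, ?_⟩, QuotientGroup.mk'_surjective _, ?_⟩
    · intro y n
      exact hφ0 y n
    · intro y
      rw [QuotientGroup.mk'_apply, QuotientGroup.eq_one_iff]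
    · intro n
      apply huniq
      intro x
      change e (wB κ Ω (φ0 (e n)) x) = _
      rw [hφ0, ← map_inv, ← map_mul, ← map_mul]
      congr 1

end Pool.Agent.DP


end

section

/-!
# TRIV: the elements which act on a block as inner automorphisms fix all characters (theorem V)
-/

set_option linter.unusedSectionVars false

namespace Pool.Agent.DPV

open Pool.Agent.DP Pool.Agent.Lib_helper13 Representation
open Pool.Agent.Lib_helper13.Dade (pCore DadeHolds dadeSum)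

namespace TRIV

/-! ### Convolution powers -/

section Pow

variable {G B C : Type} [Group G] [Fintype G] [Group B] [Fintype B] [Group C]
  {ι : G →* B} {κ : B →* MulAut G} {ρ : B →* C}

/-- The convolution powers of `a`. -/
noncomputable def bp (a : B → ℂ) : ℕ → B → ℂ
  | 0 => a
  | k + 1 => cvB a (bp a k)

theorem cvB_inv {a a' : B → ℂ} {s : B} (ha : ∀ x, a (s * x * s⁻¹) = a x)
    (ha' : ∀ x, a' (s * x * s⁻¹) = a' x) (x : B) : cvB a a' (s * x * s⁻¹) = cvB a a' x := by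
  rw [cvB, cvB]
  symm
  refine Fintype.sum_equiv (MulAut.conj s).toEquiv _ _ fun y => ?_
  have h1 : (MulAut.conj s).toEquiv y = s * y * s⁻¹ := rfl
  rw [h1, ha]
  congr 1
  have h2 : (s * y * s⁻¹)⁻¹ * (s * x * s⁻¹) = s * (y⁻¹ * x) * s⁻¹ := by group
  rw [h2, ha']

theorem bp_inv {a : B → ℂ} (ha : ∀ (g : G) x, a (ι g * x * (ι g)⁻¹) = a x) (k : ℕ) :
    ∀ (g : G) x, bp a k (ι g * x * (ι g)⁻¹) = bp a k x := by
  induction k with
  | zero => exact ha
  | succ k ih =>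
    intro g x
    exact cvB_inv (ha g) (ih g) x

theorem bp_int {a : B → ℂ} (ha : ∀ x, IsIntegral ℤ (a x)) (k : ℕ) :
    ∀ x, IsIntegral ℤ (bp a k x) := by
  induction k with
  | zero => exact ha
  | succ k ih =>
    intro x
    exact Lib_helper13.isIntegral_sum _ _ fun y _ => (ha y).mul (ih _)

theorem bp_supp {a : B → ℂ} {c : C} (ha : ∀ x, ρ x ≠ c → a x = 0) (k : ℕ) :
    ∀ x, ρ x ≠ c ^ (k + 1) → bp a k x = 0 := by
  induction k with
  | zero =>
    intro x hx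
    apply ha
    rwa [zero_add, pow_one] at hx
  | succ k ih =>
    intro x hx
    change cvB a (bp a k) x = 0
    rw [cvB]
    refine Finset.sum_eq_zero fun y _ => ?_
    by_cases hy : ρ y = c
    · rw [ih, mul_zero]
      intro h1
      apply hx
      rw [map_mul, map_inv, hy] at h1
      rw [pow_succ' c (k + 1), ← h1, mul_inv_cancel_left]
    · rw [ha y hy, zero_mul]

/-- The restrictions to a subgroup which contains the support of `a`. -/
theorem bp_restrict (T1 : Subgroup B) {a : B → ℂ} (ha : ∀ x, x ∉ T1 → a x = 0)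
    (A : T1 → ℂ) (hA : ∀ x : T1, a x = A x) (b : ℕ → T1 → ℂ) (hb0 : b 0 = A)
    (hb : ∀ k, b (k + 1) = cv A (b k)) (k : ℕ) : ∀ x : T1, bp a k x = b k x := by
  induction k with
  | zero =>
    intro x
    rw [hb0]
    exact hA x
  | succ k ih =>
    intro x
    rw [hb]
    change cvB a (bp a k) (x : B) = _
    rw [cvB, cv]
    have h1 : ∑ y, a y * bp a k (y⁻¹ * (x : B)) = ∑ y, bp a k (y⁻¹ * (x : B)) * a y :=
      Finset.sum_congr rfl fun y _ => mul_comm _ _
    rw [h1, INTH.sum_restrict T1 (fun y => bp a k (y⁻¹ * (x : B))) a ha]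
    refine Finset.sum_congr rfl fun y _ => ?_
    rw [mul_comm, hA]
    congr 1
    exact ih (y⁻¹ * x)

end Pow

/-! ### Weights -/

section Wt

variable {G B C : Type} [Group G] [Fintype G] [Group B] [Fintype B] [Group C]
  {ι : G →* B} {κ : B →* MulAut G} {ρ : B →* C}

/-- A sum over a function supported on `G`. -/
theorem sum_range (h : ClG ι κ ρ) (b f : B → ℂ) (hb : ∀ x, ρ x ≠ 1 → b x = 0) :
    ∑ x, b x * f x = ∑ g, b (ι g) * f (ι g) := by
  classical
  have h1 : ∑ x ∈ Finset.univ.map ⟨ι, h.inj⟩, b x * f x = ∑ g, b (ι g) * f (ι g) := by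
    rw [Finset.sum_map]
    rfl
  rw [← h1]
  symm
  refine Finset.sum_subset (Finset.subset_univ _) fun x _ hx => ?_
  rw [hb, zero_mul]
  intro h2
  apply hx
  obtain ⟨g, rfl⟩ := (h.ker x).mp h2
  exact Finset.mem_map.mpr ⟨g, Finset.mem_univ _, rfl⟩

theorem cjT_id (x t : G) : cjT (MonoidHom.id G).range x t = conjInd x t := by
  classical
  unfold cjT conjInd
  have hiff : (∃ s ∈ (MonoidHom.id G).range, x = s * t * s⁻¹) ↔ IsConj x t := by
    rw [isConj_iff]
    constructor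
    · rintro ⟨s, -, rfl⟩
      exact ⟨s⁻¹, by group⟩
    · rintro ⟨s, rfl⟩
      exact ⟨s⁻¹, ⟨s⁻¹, rfl⟩, by group⟩
  by_cases hx : IsConj x t
  · rw [if_pos hx, if_pos (hiff.mpr hx)]
  · rw [if_neg hx, if_neg fun hx' => hx (hiff.mp hx')]

theorem isIntegral_id {S : Subgroup G} {ψ : G → ℂ} (hψ : IrrOn S ψ) (t : G) :
    IsIntegral ℤ ((∑ x, cjT (MonoidHom.id G).range x t * ψ x) / ψ 1) := by
  have h1 : ∑ x, cjT (MonoidHom.id G).range x t * ψ x = ∑ s : S, conjInd (s : G) t * ψ s := by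
    rw [INTH.sum_restrict S _ ψ hψ.2]
    exact Finset.sum_congr rfl fun s _ => by rw [cjT_id]
  rw [h1]
  exact isIntegral_wt_conj S.subtype hψ.1 t

theorem cgT_id (𝔐 : Ideal (integralClosure ℤ ℂ)) (ψ : G → ℂ) (t : G) :
    cgT 𝔐 (MonoidHom.id G).range ψ t = cg 𝔐 ψ t := by
  unfold cgT cg
  simp only [cjT_id]

end Wt

/-! ### Characters of the stabilizer -/

section Over

variable {G B C : Type} [Group G] [Fintype G] [Group B] [Fintype B] [Group C]
  {ι : G →* B} {κ : B →* MulAut G} {ρ : B →* C}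

/-- The group `T1`. -/
theorem clG_T1 (h : ClG ι κ ρ) (T1 : Subgroup B) (hT1 : ι.range ≤ T1) :
    ClG (DPC.LTIC.iT ι T1 hT1) (κ.comp T1.subtype) (ρ.comp T1.subtype) where
  inj := DPC.LTIC.iT_inj h hT1
  act := by
    intro y a
    apply Subtype.ext
    exact h.act (y : B) a
  ker := by
    intro y
    constructor
    · intro hy
      obtain ⟨a, ha⟩ := (h.ker (y : B)).mp hy
      exact ⟨a, Subtype.ext ha⟩
    · rintro ⟨a, rfl⟩
      exact (h.ker (ι a)).mpr ⟨a, rfl⟩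

theorem mem_YS_iff (h : ClG ι κ ρ) (σ : Finset (Subgroup G)) (x : B) :
    x ∈ YS ι σ ↔ ∀ D ∈ σ, D.map (κ x).toMonoidHom = D := by
  have h1 : ∀ D : Subgroup G, (D.map ι).map (MulAut.conj x).toMonoidHom =
      (D.map (κ x).toMonoidHom).map ι := by
    intro D
    rw [Subgroup.map_map, Subgroup.map_map]
    congr 1
    ext a
    exact (h.act x a).symm
  rw [mem_stb]
  constructor
  · intro h3 D hD
    have h4 := h3 _ (mem_mapCh.mpr ⟨D, hD, rfl⟩)
    rw [h1] at h4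
    exact Subgroup.map_injective h.inj h4
  · intro h3 E hE
    obtain ⟨D, hD, rfl⟩ := mem_mapCh.mp hE
    rw [h1, h3 D hD]

/-- An element of the inertia group stabilizes the data. -/
theorem mem_Stx_of_inert (h : ClG ι κ ρ) {σ : Finset (Subgroup G)} {ψ : G → ℂ}
    (hψ : IrrOn (stb σ) ψ) (y : YS ι σ)
    (hy : y ∈ inert (cS h σ) (fun s : stb σ => ψ s)) : (y : B) ∈ Stx κ σ ψ := by
  have h1 := (mem_YS_iff h σ (y : B)).mp y.2
  refine ⟨h1, fun g => ?_⟩
  by_cases hg : g ∈ stb σ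
  · exact hy ⟨g, hg⟩
  · rw [hψ.2 g hg, hψ.2]
    intro h2
    apply hg
    have h3 := mem_stb_act h σ y⁻¹ ⟨_, h2⟩
    have h4 : κ ((y⁻¹ : YS ι σ) : B) (κ (y : B) g) = g := by
      rw [← MulAut.mul_apply, ← map_mul]
      simp
    rwa [h4] at h3

/-- A character over `ψ` which vanishes on the elements over `c`. -/
theorem exists_over (h : ClG ι κ ρ) {σ : Finset (Subgroup G)} {ψ : G → ℂ}
    (hψ : IrrOn (stb σ) ψ) (c : C) (hcc : ∀ z : B, ρ z * c = c * ρ z)
    (hc : c ∉ (Stx κ σ ψ).map ρ) :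
    ∃ χ : YS ι σ → ℂ, IsIrr χ ∧ ip (resj (jS h σ) χ) (fun s : stb σ => ψ s) ≠ 0 ∧
      ∀ y : YS ι σ, ρ (y : B) = c → χ y = 0 := by
  have hS := SUMM_thm (stb σ) (YS ι σ) C (jS h σ) (cS h σ) (pS ρ ι σ) (clG_S h σ)
  have h1 := hS.1 (fun s : stb σ => ψ s) (fun s : stb σ => ψ s) hψ.1 hψ.1
  have h2 : ∃ χ ∈ irrF (YS ι σ), ip (resj (jS h σ) χ) (fun s : stb σ => ψ s) ≠ 0 := by
    by_contra hcon
    push Not at hcon
    rw [Finset.sum_eq_zero fun χ hχ => by rw [hcon χ hχ, mul_zero], mul_zero] at h1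
    have h3 : Nat.card {y : YS ι σ // ∀ a, (fun s : stb σ => ψ s) (cS h σ y a) =
        (fun s : stb σ => ψ s) a} ≠ 0 := by
      have : Nonempty {y : YS ι σ // ∀ a, (fun s : stb σ => ψ s) (cS h σ y a) =
          (fun s : stb σ => ψ s) a} := ⟨⟨1, fun a => by rw [map_one, MulAut.one_apply]⟩⟩
      exact Nat.card_pos.ne'
    exact h3 (by exact_mod_cast h1.symm)
  obtain ⟨χ, hχ, hip⟩ := h2
  have hχ' := mem_irrF.mp hχ
  refine ⟨χ, hχ', hip, ?_⟩
  obtain ⟨ψ1, -, -, hind⟩ := (CCOR_thm IND_thm SUMM_thm (stb σ) (YS ι σ) C (jS h σ) (cS h σ)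
    (pS ρ ι σ) (clG_S h σ) (fun s : stb σ => ψ s) hψ.1).2.2 χ hχ' hip
  intro y hy
  rw [← hind, indc]
  have h3 : ∀ z : YS ι σ, ext0 ψ1 (z⁻¹ * y * z) = 0 := by
    intro z
    refine ext0_of_not_mem ψ1 fun hz => ?_
    apply hc
    refine ⟨_, mem_Stx_of_inert h hψ _ hz, ?_⟩
    have h4 : ρ (((z⁻¹ * y * z : YS ι σ)) : B) = (ρ (z : B))⁻¹ * ρ (y : B) * ρ (z : B) := by
      simp
    rw [h4, hy, mul_assoc, ← hcc (z : B), inv_mul_cancel_left]
  rw [Finset.sum_eq_zero fun z _ => h3 z, zero_div]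

end Over

end TRIV

open _root_.Pool.Agent.DPV.TRIV in
/-- TRIV: the elements which act on a block as inner automorphisms fix all characters. -/
theorem TRIV_thm (h1 : Stmt_MULV) (h2 : Stmt_EXPV) : Stmt_TRIV := by
  classical
  intro G B C _ _ _ _ _ 𝔐 ℓ _ hmax hℓ ι κ ρ hV hC σ σ' ψ ψ' hσ hσ' hψ hψ' hblk c hc f hf hex
  obtain ⟨t, ht, htne⟩ := hex
  have h := hV.cl
  have hprime : 𝔐.IsPrime := hmax.isPrime
  have hfinC : Finite C := Finite.of_surjective ρ hV.surj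
  have hdom : IsDomain ((integralClosure ℤ ℂ) ⧸ 𝔐) := Ideal.Quotient.isDomain 𝔐
  have hρι : ∀ g, ρ (ι g) = 1 := fun g => (h.ker _).mpr ⟨g, rfl⟩
  -- the class of `t`
  obtain ⟨a, ha⟩ : ∃ a : B → ℂ, ∀ x, a x = cjT ι.range x t := ⟨fun x => cjT ι.range x t, fun _ => rfl⟩
  have hainv : ∀ (g : G) x, a (ι g * x * (ι g)⁻¹) = a x := by
    intro g x
    rw [ha, ha]
    exact LTI.cjT_left ι.range ⟨g, rfl⟩ x t
  have haint : ∀ x, IsIntegral ℤ (a x) := by
    intro x
    rw [ha]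
    exact DPC.LTIC.isIntegral_cjT _ _ _
  have hasupp : ∀ x, ρ x ≠ c → a x = 0 := by
    intro x hx
    rw [ha]
    refine if_neg ?_
    rintro ⟨s, hs, rfl⟩
    apply hx
    have h3 : ρ s = 1 := (h.ker s).mpr hs
    rw [map_mul, map_mul, map_inv, h3, ht, one_mul, inv_one, mul_one]
  have hwta : red 𝔐 (wt f a) = cgT 𝔐 ι.range f t := by
    unfold wt cgT
    simp only [ha]
  -- the powers
  have hL : Subgroup.zpowers c ≤ (Stx κ σ ψ).map ρ := by
    rw [Subgroup.zpowers_le]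
    exact hc
  have hsuppL : ∀ k, ∀ x, ρ x ∉ Subgroup.zpowers c → bp a k x = 0 := by
    intro k x hx
    apply bp_supp hasupp k
    intro h3
    apply hx
    rw [h3]
    exact (Subgroup.zpowers c).pow_mem (Subgroup.mem_zpowers c) _
  have hpow : ∀ k, red 𝔐 (wt f (bp a k)) = cgT 𝔐 ι.range f t ^ (k + 1) := by
    intro k
    induction k with
    | zero =>
      rw [zero_add, pow_one]
      exact hwta
    | succ k ih =>
      have h3 := h1 G B C 𝔐 ℓ hmax hℓ ι κ ρ hV σ ψ hσ hψ (Subgroup.zpowers c) hL f hf a (bp a k)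
        hainv (bp_inv hainv k) haint (bp_int haint k) (hsuppL 0) (hsuppL k)
      change red 𝔐 (wt f (cvB a (bp a k))) = _
      rw [h3, hwta, ih, pow_succ' _ (k + 1)]
  obtain ⟨n, hn⟩ : ∃ n, orderOf c = n + 1 := by
    have h3 : 0 < orderOf c := orderOf_pos c
    exact ⟨orderOf c - 1, by omega⟩
  have hcn : c ^ (n + 1) = 1 := by
    rw [← hn]
    exact pow_orderOf_eq_one c
  have hbsupp : ∀ x, ρ x ≠ 1 → bp a n x = 0 := by
    intro x hx
    apply bp_supp hasupp n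
    rwa [hcn]
  have hne : red 𝔐 (wt ψ (fun g => bp a n (ι g))) ≠ 0 := by
    have h3 : wt ψ (fun g => bp a n (ι g)) = wt f (bp a n) := by
      unfold wt
      rw [sum_range h (bp a n) f hbsupp]
      have h4 : f 1 = ψ 1 := by
        rw [← hf.2, map_one]
      rw [h4]
      congr 1
      exact Finset.sum_congr rfl fun g _ => by rw [hf.2]
    rw [h3, hpow]
    exact pow_ne_zero _ htne
  -- the other character of the block
  have hne' : red 𝔐 (wt ψ' (fun g => bp a n (ι g))) ≠ 0 := by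
    have h3 := (h2 G G 𝔐 (MonoidHom.id G) ψ ψ' (isIntegral_id hψ) (isIntegral_id hψ')
      (fun g => bp a n (ι g)) (fun g x => by
        change bp a n (ι (g * x * g⁻¹)) = _
        rw [map_mul, map_mul, map_inv]
        exact bp_inv hainv n g (ι x)) (fun x => bp_int haint n (ι x))).2.2 1 (fun x _ => by
        rw [cgT_id, cgT_id, one_mul, hblk])
    rw [h3, one_mul]
    exact hne
  -- the contradiction
  by_contra hcon
  apply hne'
  obtain ⟨T1, hT1def⟩ : ∃ T1 : Subgroup B, T1 = (Subgroup.zpowers c).comap ρ := ⟨_, rfl⟩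
  have hT1mem : ∀ x : B, x ∈ T1 ↔ ρ x ∈ Subgroup.zpowers c := by
    intro x
    rw [hT1def]
    rfl
  have hT1 : ι.range ≤ T1 := by
    rw [hT1def]
    exact DPC.LTIC.range_le h _
  have htT1 : t ∈ T1 := by
    rw [hT1mem, ht]
    exact Subgroup.mem_zpowers c
  have hT := clG_T1 h T1 hT1
  have hcomm : ∀ z : T1, (ρ.comp T1.subtype) z * c = c * (ρ.comp T1.subtype) z := by
    intro z
    obtain ⟨k, hk⟩ := Subgroup.mem_zpowers_iff.mp ((hT1mem (z : B)).mp z.2)
    change ρ (z : B) * c = c * ρ (z : B)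
    rw [← hk]
    exact (Commute.self_zpow c k).eq.symm
  have hcon' : c ∉ (Stx (κ.comp T1.subtype) σ' ψ').map (ρ.comp T1.subtype) := by
    rintro ⟨z, hz, hzc⟩
    exact hcon ⟨(z : B), hz, hzc⟩
  obtain ⟨χ, hχ, hip, hvan⟩ := exists_over hT hψ' c hcomm hcon'
  have hch : IsCh ℓ (⊥ : Subgroup G) σ' := by
    rcases hσ' with rfl | ⟨P, rfl, hP, -⟩
    · refine ⟨fun D hD => absurd hD (Finset.notMem_empty D), ?_⟩
      rw [Finset.coe_empty]
      exact IsChain.empty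
    · have hPp : IsPGroup ℓ P := IsPGroup.of_card (n := 1) (by rw [pow_one]; exact hP)
      refine ⟨fun D hD => ?_, ?_⟩
      · rw [Finset.mem_singleton] at hD
        subst hD
        refine ⟨hPp, bot_lt_iff_ne_bot.mpr ?_⟩
        rintro rfl
        rw [Subgroup.card_bot] at hP
        exact (Fact.out : ℓ.Prime).one_lt.ne hP
      · rw [Finset.coe_singleton]
        exact IsChain.singleton
  have hch' : IsCh ℓ (⊥ : Subgroup T1) (mapCh (DPC.LTIC.iT ι T1 hT1) σ') := by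
    have h3 := (isCh_mapCh_iff (DPC.LTIC.iT_inj h hT1) (Z := ⊥)).mpr hch
    rwa [Subgroup.map_bot] at h3
  have hm : MultOn 𝔐 χ ⊤ := exists_irr_of_chain 𝔐 hℓ hch' hχ
  -- the class of `t` in `T1`
  have hclass : ∀ x : T1, a x = conjInd x (⟨t, htT1⟩ : T1) := by
    intro x
    rw [ha]
    unfold conjInd cjT
    have hiff : IsConj x (⟨t, htT1⟩ : T1) ↔ ∃ s ∈ ι.range, (x : B) = s * t * s⁻¹ := by
      rw [isConj_iff]
      constructor
      · rintro ⟨u, hu⟩
        have hu' : (u : B) * x * (u : B)⁻¹ = t := congrArg Subtype.val hu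
        have hum : ρ ((u : B)⁻¹) ∈ Subgroup.zpowers c := (hT1mem _).mp (T1.inv_mem u.2)
        obtain ⟨k, hk⟩ := Subgroup.mem_zpowers_iff.mp hum
        refine ⟨(u : B)⁻¹ * (t ^ k)⁻¹, ?_, ?_⟩
        · apply (h.ker _).mp
          rw [map_mul, map_inv ρ (t ^ k), map_zpow, ht, hk, mul_inv_cancel]
        · have h3 : (x : B) = (u : B)⁻¹ * t * u := by
            rw [← hu']
            group
          have h4 : t ^ k * t = t * t ^ k := (Commute.self_zpow t k).eq.symm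
          have h5 : (t ^ k)⁻¹ * t * t ^ k = t := by
            rw [mul_assoc, ← h4, inv_mul_cancel_left]
          calc (x : B) = (u : B)⁻¹ * t * u := h3
            _ = (u : B)⁻¹ * ((t ^ k)⁻¹ * t * t ^ k) * u := by rw [h5]
            _ = _ := by group
      · rintro ⟨s, hs, hx⟩
        refine ⟨⟨s⁻¹, T1.inv_mem (hT1 hs)⟩, ?_⟩
        apply Subtype.ext
        change s⁻¹ * (x : B) * s⁻¹⁻¹ = t
        rw [hx]
        group
    by_cases hx : IsConj x (⟨t, htT1⟩ : T1)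
    · rw [if_pos hx, if_pos (hiff.mp hx)]
    · rw [if_neg hx, if_neg fun hx' => hx (hiff.mpr hx')]
  obtain ⟨b, hb0, hb⟩ : ∃ b : ℕ → T1 → ℂ, b 0 = (fun x => conjInd x (⟨t, htT1⟩ : T1)) ∧
      ∀ k, b (k + 1) = cv (fun x => conjInd x (⟨t, htT1⟩ : T1)) (b k) :=
    ⟨fun k => Nat.rec (fun x => conjInd x (⟨t, htT1⟩ : T1))
      (fun _ r => cv (fun x => conjInd x (⟨t, htT1⟩ : T1)) r) k, rfl, fun k => rfl⟩
  have hrestr : ∀ k, ∀ x : T1, bp a k x = b k x := by
    intro k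
    refine bp_restrict T1 (fun x hx => hasupp x ?_) _ hclass b hb0 hb k
    rintro h3
    apply hx
    rw [hT1mem, h3]
    exact Subgroup.mem_zpowers c
  have hAinv : ∀ g x : T1, conjInd (g * x * g⁻¹) (⟨t, htT1⟩ : T1) =
      conjInd x (⟨t, htT1⟩ : T1) := fun g x => conjInd_conj g x _
  have hbinv : ∀ k, ∀ g x, b k (g * x * g⁻¹) = b k x := by
    intro k
    induction k with
    | zero =>
      intro g x
      rw [hb0]
      exact hAinv g x
    | succ k ih =>
      intro g x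
      rw [hb]
      exact cv_conj hAinv ih g x
  have hbint : ∀ k, ∀ x, IsIntegral ℤ (b k x) := by
    intro k x
    rw [← hrestr]
    exact bp_int haint k _
  have hzero : ∀ k, red 𝔐 (wt χ (fun s => b k (s : T1))) = 0 := by
    have hA0 : red 𝔐 (wt χ (fun s => conjInd (s : T1) (⟨t, htT1⟩ : T1))) = 0 := by
      have h3 : wt χ (fun s => conjInd (s : T1) (⟨t, htT1⟩ : T1)) = 0 := by
        unfold wt
        rw [Finset.sum_eq_zero, zero_div]
        intro s _
        by_cases hs : ρ ((s : T1) : B) = c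
        · rw [hvan s hs, mul_zero]
        · change conjInd (s : T1) (⟨t, htT1⟩ : T1) * χ s = 0
          rw [← hclass, hasupp _ hs, zero_mul]
      rw [h3, red_zero]
    intro k
    induction k with
    | zero =>
      rw [hb0]
      exact hA0
    | succ k ih =>
      rw [hb]
      rw [red_wt_cv 𝔐 hχ hm hAinv (hbinv k) (fun x => isIntegral_conjInd _ _) (hbint k), ih,
        mul_zero]
  have hS := (SUMM_thm (stb σ') (YS (DPC.LTIC.iT ι T1 hT1) σ') C (jS hT σ') (cS hT σ')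
    (pS (ρ.comp T1.subtype) (DPC.LTIC.iT ι T1 hT1) σ') (clG_S hT σ')).2.2.2
    (fun s : stb σ' => ψ' s) χ (fun s => b n (s : T1)) hψ'.1 hχ hip
    (fun g x => hbinv n (g : T1) (x : T1)) (by
      intro y hy
      rw [← hrestr]
      apply hbsupp
      intro h3
      exact hy (((clG_S hT σ').ker y).mp h3))
  have h3 := hzero n
  rw [hS] at h3
  rw [← h3]
  congr 1
  unfold wt
  rw [INTH.sum_restrict (stb σ') (fun g => bp a n (ι g)) ψ' hψ'.2]
  congr 1
  refine Finset.sum_congr rfl fun s _ => ?_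
  congr 1
  exact hrestr n (DPC.LTIC.iT ι T1 hT1 s)

end Pool.Agent.DPV


end

section

/-!
# FXD: the sums of the squares of the orders of the stabilizers (theorem W)
-/

set_option linter.unusedSectionVars false

namespace Pool.Agent.DPW

open Pool.Agent.DP Pool.Agent.DPV Pool.Agent.Lib_helper13 Representation
open Pool.Agent.Lib_helper13.Dade (pCore DadeHolds dadeSum)

namespace FXD

section Card

variable {A Y K : Type} [Group A] [Group Y] [Group K] {j : A →* Y} {c : Y →* MulAut A}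
  {p : Y →* K}

theorem card_Y [Finite Y] (h : ClG j c p) (hs : Function.Surjective p) :
    Nat.card Y = Nat.card A * Nat.card K := by
  have h1 : p.ker = j.range := by
    ext y
    rw [MonoidHom.mem_ker]
    exact h.ker y
  have h2 := Subgroup.card_mul_index p.ker
  rw [Subgroup.index_ker, MonoidHom.range_eq_top.mpr hs, h1] at h2
  rw [← h2, Nat.card_congr (MonoidHom.ofInjective h.inj).toEquiv.symm,
    Nat.card_congr (Subgroup.topEquiv (G := K)).toEquiv]

end Card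

section Loc

variable {G B C : Type} [Group G] [Fintype G] [Group B] [Fintype B] [Group C]
  {ι : G →* B} {κ : B →* MulAut G} {ρ : B →* C}

theorem irrOn_ext0 {S : Subgroup G} {ψ : S → ℂ} (h : IsIrr ψ) : IrrOn S (ext0 ψ) := by
  refine ⟨?_, fun x hx => ext0_of_not_mem ψ hx⟩
  have e : (fun s : S => ext0 ψ (s : G)) = ψ := funext fun s => EVAL.ext0_coe ψ s
  rw [e]
  exact h

/-- The stabilizer of an extended character is the inertia group. -/
theorem mem_Stx (h : ClG ι κ ρ) (σ : Finset (Subgroup G)) {ψ : stb σ → ℂ} (hψ : IsIrr ψ)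
    (y : YS ι σ) : y ∈ inert (cS h σ) ψ ↔ (y : B) ∈ Stx κ σ (ext0 ψ) := by
  constructor
  · intro hy
    refine TRIV.mem_Stx_of_inert h (irrOn_ext0 hψ) y ?_
    have e : (fun s : stb σ => ext0 ψ (s : G)) = ψ := funext fun s => EVAL.ext0_coe ψ s
    rw [e]
    exact hy
  · intro hy a
    have h1 := hy.2 (a : G)
    rw [EVAL.ext0_coe] at h1
    rw [← h1, ← cS_apply h σ y a, EVAL.ext0_coe]

theorem map_Stx (h : ClG ι κ ρ) (σ : Finset (Subgroup G)) {ψ : stb σ → ℂ} (hψ : IsIrr ψ) :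
    (Stx κ σ (ext0 ψ)).map ρ = (inert (cS h σ) ψ).map (pS ρ ι σ) := by
  ext c
  constructor
  · rintro ⟨b, hb, rfl⟩
    have hb' : b ∈ YS ι σ := (TRIV.mem_YS_iff h σ b).mpr hb.1
    exact ⟨⟨b, hb'⟩, (mem_Stx h σ hψ ⟨b, hb'⟩).mpr hb, rfl⟩
  · rintro ⟨y, hy, rfl⟩
    exact ⟨(y : B), (mem_Stx h σ hψ y).mp hy, rfl⟩

open Classical in
theorem sum_S (𝔐 : Ideal (integralClosure ℤ ℂ)) (h : ClG ι κ ρ) (σ : Finset (Subgroup G))
    (ω : G → (integralClosure ℤ ℂ) ⧸ 𝔐) (Om : (stb σ → ℂ) → Prop)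
    (hOm : ∀ ψ, Om ψ ↔ cen 𝔐 (stb σ).subtype ψ = ω) :
    ∑ ψ ∈ irrOn (stb σ) with (∀ g, cg 𝔐 ψ g = ω g), (Nat.card ((Stx κ σ ψ).map ρ)) ^ 2 =
      ∑ ψ ∈ irrF (stb σ) with Om ψ, (Nat.card ((inert (cS h σ) ψ).map (pS ρ ι σ))) ^ 2 := by
  symm
  refine Finset.sum_bij (fun ψ _ => ext0 ψ) ?_ ?_ ?_ ?_
  · intro ψ hψ
    rw [Finset.mem_filter] at hψ ⊢
    refine ⟨Finset.mem_image_of_mem _ hψ.1, fun g => ?_⟩
    rw [EVAL.cg_eq, (hOm ψ).mp hψ.2]
  · intro ψ _ ψ' _ hh
    exact EVAL.ext0_inj hh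
  · intro f hf
    rw [Finset.mem_filter] at hf
    obtain ⟨ψ, hψ, rfl⟩ := Finset.mem_image.mp hf.1
    refine ⟨ψ, ?_, rfl⟩
    rw [Finset.mem_filter]
    refine ⟨hψ, (hOm ψ).mpr (funext fun g => ?_)⟩
    rw [← EVAL.cg_eq, hf.2]
  · intro ψ hψ
    rw [Finset.mem_filter, mem_irrF] at hψ
    rw [map_Stx h σ hψ.1]

theorem stx_empty (θ : G → ℂ) : Stx κ ∅ θ = inert κ θ := by
  ext b
  exact ⟨fun h => h.2, fun h => ⟨by simp, h⟩⟩

theorem irrOn_empty (θ : G → ℂ) : θ ∈ irrOn (stb (∅ : Finset (Subgroup G))) ↔ θ ∈ irrF G := by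
  classical
  let e : G ≃* stb (∅ : Finset (Subgroup G)) :=
    (Subgroup.topEquiv (G := G)).symm.trans (MulEquiv.subgroupCongr stb_empty.symm)
  have he : ∀ g, ((e g : stb (∅ : Finset (Subgroup G))) : G) = g := fun g => rfl
  rw [mem_irrF]
  constructor
  · intro h
    obtain ⟨ψ, hψ, rfl⟩ := Finset.mem_image.mp h
    rw [mem_irrF] at hψ
    have h1 := hψ.comp_mulEquiv e
    have h2 : ext0 ψ = ψ ∘ e := by
      funext g
      show ext0 ψ g = ψ (e g)
      rw [← EVAL.ext0_coe ψ (e g), he]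
    rw [h2]
    exact h1
  · intro h
    refine Finset.mem_image.mpr ⟨θ ∘ e.symm, ?_, ?_⟩
    · rw [mem_irrF]
      exact h.comp_mulEquiv e.symm
    · funext g
      have h1 : ext0 (θ ∘ e.symm) g = (θ ∘ e.symm) (e g) := by
        rw [← EVAL.ext0_coe (θ ∘ e.symm) (e g), he]
      rw [h1]
      simp

open Classical in
theorem sum_0 (𝔐 : Ideal (integralClosure ℤ ℂ)) (ω : G → (integralClosure ℤ ℂ) ⧸ 𝔐)
    (Om : (G → ℂ) → Prop) (hOm : ∀ θ, Om θ ↔ cen 𝔐 (MonoidHom.id G) θ = ω) :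
    ∑ θ ∈ irrOn (stb (∅ : Finset (Subgroup G))) with (∀ g, cg 𝔐 θ g = ω g),
      (Nat.card ((Stx κ ∅ θ).map ρ)) ^ 2 =
      ∑ θ ∈ irrF G with Om θ, (Nat.card ((inert κ θ).map ρ)) ^ 2 := by
  refine Finset.sum_congr ?_ fun θ _ => by rw [stx_empty]
  ext θ
  rw [Finset.mem_filter, Finset.mem_filter, irrOn_empty]
  refine and_congr_right fun _ => ?_
  rw [hOm, funext_iff]
  rfl

/-- Central functions and automorphisms. -/
theorem cen_aut (𝔐 : Ideal (integralClosure ℤ ℂ)) {A : Type} [Group A] [Fintype A]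
    (i : A →* G) (e : A ≃* A) (k : G ≃* G) (h : ∀ a, i (e a) = k (i a)) (θ : A → ℂ) (g : G) :
    cen 𝔐 i (fun a => θ (e a)) g = cen 𝔐 i θ (k g) := by
  rw [cen, cen, ← wt_comp_equiv e θ]
  congr 2
  funext a
  rw [h]
  unfold conjInd
  have h1 : IsConj (i a) g ↔ IsConj (k (i a)) (k g) := by
    constructor
    · intro hc
      exact k.toMonoidHom.map_isConj hc
    · intro hc
      have h2 := k.symm.toMonoidHom.map_isConj hc
      simpa using h2
  by_cases h2 : IsConj (i a) g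
  · rw [if_pos h2, if_pos (h1.mp h2)]
  · rw [if_neg h2, if_neg fun h3 => h2 (h1.mpr h3)]

/-- Extensions to the inertia groups. -/
theorem ext_S (h : LocV ι κ ρ) (σ : Finset (Subgroup G)) (θ : stb σ → ℂ) (hθ : IsIrr θ) :
    ∃ E : inert (cS h.cl σ) θ → ℂ, IsChr E ∧
      ∀ a (ha : jS h.cl σ a ∈ inert (cS h.cl σ) θ), E ⟨jS h.cl σ a, ha⟩ = θ a := by
  obtain ⟨f, hf, hfθ⟩ := h.ext σ (ext0 θ) (irrOn_ext0 hθ)
  let q : inert (cS h.cl σ) θ →* Stx κ σ (ext0 θ) :=
    ((YS ι σ).subtype.comp (inert (cS h.cl σ) θ).subtype).codRestrict (Stx κ σ (ext0 θ))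
      (fun y => (mem_Stx h.cl σ hθ (y : YS ι σ)).mp y.2)
  refine ⟨fun y => f (q y : B), hf.1.isChr.comp q, fun a ha => ?_⟩
  change f (ι (a : G)) = θ a
  rw [hfθ, EVAL.ext0_coe]

theorem ext_0 (h : LocV ι κ ρ) (θ : G → ℂ) (hθ : IsIrr θ) :
    ∃ E : inert κ θ → ℂ, IsChr E ∧ ∀ a (ha : ι a ∈ inert κ θ), E ⟨ι a, ha⟩ = θ a := by
  have hI : IrrOn (stb (∅ : Finset (Subgroup G))) θ := by
    classical
    have h1 := (irrOn_empty θ).mpr (mem_irrF.mpr hθ)
    obtain ⟨ψ, hψ, rfl⟩ := Finset.mem_image.mp h1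
    exact irrOn_ext0 (mem_irrF.mp hψ)
  obtain ⟨f, hf, hfθ⟩ := h.ext ∅ θ hI
  let q : inert κ θ →* Stx κ ∅ θ :=
    (inert κ θ).subtype.codRestrict (Stx κ ∅ θ) (fun y => by
      rw [stx_empty]
      exact y.2)
  refine ⟨fun y => f (q y : B), hf.1.isChr.comp q, fun a ha => ?_⟩
  exact hfθ a

/-- A character of the stabilizer of a chain has the central function of a character. -/
theorem exists_irr (𝔐 : Ideal (integralClosure ℤ ℂ)) [𝔐.IsPrime] {ℓ : ℕ} [Fact ℓ.Prime]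
    (hℓ : (ℓ : integralClosure ℤ ℂ) ∈ 𝔐) {σ : Finset (Subgroup G)} (hσ : IsCh ℓ ⊥ σ)
    {ω : G → (integralClosure ℤ ℂ) ⧸ 𝔐} {f : G → ℂ} (hf : f ∈ irrOn (stb σ))
    (hω : ∀ g, cg 𝔐 f g = ω g) : ∃ θ : G → ℂ, IsIrr θ ∧ cen 𝔐 (MonoidHom.id G) θ = ω := by
  classical
  obtain ⟨ψ, hψ, rfl⟩ := Finset.mem_image.mp hf
  rw [mem_irrF] at hψ
  obtain ⟨χ, h1, h2⟩ := exists_irr_of_mult 𝔐 hψ (exists_irr_of_chain 𝔐 hℓ hσ hψ)
  refine ⟨χ, h1, ?_⟩
  rw [h2]
  funext g
  rw [← EVAL.cg_eq, hω]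

end Loc

end FXD

open _root_.Pool.Agent.DPW.FXD in
theorem FXD_thm (h1 : Stmt_FXA) (h2 : Stmt_FXB) (h3 : Stmt_FXG) : Stmt_FXD := by
  classical
  intro G B C _ _ _ _ _ 𝔐 ℓ _ h𝔐 hℓ ι κ ρ hV hC hcomm ω hD P x₀ hP hinv
  have hprime : 𝔐.IsPrime := h𝔐.isPrime
  have hfin : Finite C := Finite.of_surjective ρ hV.surj
  have hPch : IsCh ℓ (⊥ : Subgroup G) {P} := by
    constructor
    · intro D hD
      rw [Finset.mem_singleton] at hD
      subst hD
      refine ⟨IsPGroup.of_card (n := 1) (by rw [hP.card, pow_one]), bot_lt_iff_ne_bot.mpr ?_⟩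
      intro h
      have h4 := hP.card
      rw [h, Subgroup.card_bot] at h4
      exact (Fact.out : ℓ.Prime).one_lt.ne h4
    · simp
  by_cases hex : ∃ θ : G → ℂ, IsIrr θ ∧ cen 𝔐 (MonoidHom.id G) θ = ω
  · have hA := h1 G B C 𝔐 ℓ h𝔐 hℓ ι κ ρ hV hC ω hD P x₀ hP hinv
    have hG := h3 G B C 𝔐 ℓ h𝔐 hℓ ι κ ρ hV.locN ω hD P x₀ hP hinv hex
    have hB1 := h2 G B C ι κ ρ hV.cl hcomm (ext_0 hV)
      (fun θ => cen 𝔐 (MonoidHom.id G) θ = ω) (by
        intro b θ hθ
        funext g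
        rw [cen_aut 𝔐 (MonoidHom.id G) (κ b) (κ b) (fun a => rfl) θ g, hθ, hinv])
    have hB2 := h2 (stb {P}) (YS ι {P}) C (jS hV.cl {P}) (cS hV.cl {P}) (pS ρ ι {P})
      (clG_S hV.cl {P}) hcomm (ext_S hV {P})
      (fun ψ => cen 𝔐 (stb {P}).subtype ψ = ω) (by
        intro y ψ hψ
        funext g
        rw [cen_aut 𝔐 (stb {P}).subtype (cS hV.cl {P} y) (κ (y : B))
          (fun a => cS_apply hV.cl {P} y a) ψ g, hψ, hinv])
    rw [sum_0 𝔐 ω (fun θ => cen 𝔐 (MonoidHom.id G) θ = ω) (fun _ => Iff.rfl),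
      sum_S 𝔐 hV.cl {P} ω (fun ψ => cen 𝔐 (stb {P}).subtype ψ = ω) (fun _ => Iff.rfl)]
    have hc1 : (Nat.card B : ℚ) = Nat.card G * Nat.card C := by
      exact_mod_cast card_Y hV.cl hV.surj
    have hsur : Function.Surjective (pS ρ ι {P}) := by
      intro c
      have hc : c ∈ (YS ι {P}).map ρ := by rw [hG]; exact Subgroup.mem_top c
      obtain ⟨b, hb, rfl⟩ := hc
      exact ⟨⟨b, hb⟩, rfl⟩
    have hc2 : (Nat.card (YS ι {P}) : ℚ) = Nat.card (stb {P}) * Nat.card C := by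
      exact_mod_cast card_Y (clG_S hV.cl {P}) hsur
    have hn1 : (Nat.card G : ℚ) ≠ 0 := by exact_mod_cast Nat.card_pos.ne'
    have hn2 : (Nat.card (stb {P}) : ℚ) ≠ 0 := by exact_mod_cast Nat.card_pos.ne'
    rw [← Finset.mul_sum, hc1, hA, mul_assoc] at hB1
    rw [← Finset.mul_sum, hc2, mul_assoc] at hB2
    have e1 := mul_left_cancel₀ hn1 hB1
    have e2 := mul_left_cancel₀ hn2 hB2
    have e3 := e1.symm.trans e2
    exact_mod_cast e3
  · rw [Finset.sum_eq_zero, Finset.sum_eq_zero]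
    · intro ψ hψ
      rw [Finset.mem_filter] at hψ
      exact absurd (exists_irr 𝔐 hℓ hPch hψ.1 hψ.2) hex
    · intro ψ hψ
      rw [Finset.mem_filter] at hψ
      exact absurd (exists_irr 𝔐 hℓ (isCh_empty ℓ ⊥) hψ.1 hψ.2) hex

end Pool.Agent.DPW


end
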