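import Mathlib
import Pool.Agent.DAM.C13
import Pool.Agent.DAM.C14
import Pool.Agent.DAM.C15
import Pool.Agent.DAM.C19
import Pool.Agent.DAM.C22
import Pool.Agent.DAM.C24
import Pool.Agent.DAM.C28
import Pool.Agent.DAM.C46
import Pool.Agent.DAM.C51

/-! Parts: DPC.FIBI, DPM.TWF, DPN.RDA, DPW.TRFB, DPW.TRIW, DPX.TRFX, DPX.ADMX -/

section

/-!
# FIBI: elementary properties of the sums over the fibres
-/

namespace Pool.Agent.DPC

open Pool.Agent.DP Pool.Agent.Lib_helper13 Representation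
open Pool.Agent.Lib_helper13.Dade (pCore DadeHolds dadeSum)

namespace FIBI

variable {A X K : Type} [Group A] [Fintype A] [Group X] [Fintype X] [Group K]
  {j : A →* X} {c : X →* MulAut A} {p : X →* K} {θ : A → ℂ} {E : X → ℂ}

omit [Fintype A] [Fintype X] in
/-- The projection is invariant under the conjugation by elements of `A`. -/
theorem p_conj (hC : ClG j c p) (a : A) (x : X) : p (j a * x * (j a)⁻¹) = p x := by
  have h1 : p (j a) = 1 := (hC.ker (j a)).2 ⟨a, rfl⟩
  rw [map_mul, map_mul, map_inv, h1, one_mul, inv_one, mul_one]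

omit [Fintype A] [Fintype X] in
theorem E_one (hE : ∀ a, E (j a) = θ a) : E 1 = θ 1 := by
  rw [← hE 1, map_one]

omit [Fintype X] in
theorem irrE (hθ : IsIrr θ) (hE : IsChr E) (hr : ∀ a, E (j a) = θ a) : IsIrr E := by
  obtain ⟨n, r, hc⟩ := hE
  refine ⟨n, r, EXTBR.irr_of_comp j r ?_, hc⟩
  have : (fun k => r.character (j k)) = θ := by
    funext k
    rw [hc, hr]
  rw [this]
  exact hθ

/-- Integrality of the sum over the whole group. -/
theorem int_all (hC : ClG j c p) (hθ : IsIrr θ) (hE : IsChr E) (hr : ∀ a, E (j a) = θ a)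
    (F : X → ℂ) (hF : ∀ a x, F (j a * x * (j a)⁻¹) = F x) (hi : ∀ x, IsIntegral ℤ (F x)) :
    IsIntegral ℤ ((∑ x, F x * E x) / θ 1) := by
  have hE' := irrE hθ hE hr
  rw [← E_one hr]
  refine INTH_thm A X K j c p hC ⊤ E ⟨?_, fun x hx => absurd (Subgroup.mem_top x) hx⟩
    ⟨?_, fun x hx => absurd (Subgroup.mem_top (j x)) hx⟩ F hi hF
  · exact hE'.comp_mulEquiv (Subgroup.topEquiv (G := X))
  · have h1 : IsIrr (fun s : (⊤ : Subgroup A) => θ (Subgroup.topEquiv s)) :=
      hθ.comp_mulEquiv (Subgroup.topEquiv (G := A))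
    have h2 : (⊤ : Subgroup X).comap j = ⊤ := Subgroup.comap_top j
    rw [h2]
    have h3 : (fun s : (⊤ : Subgroup A) => E (j (s : A))) =
        fun s : (⊤ : Subgroup A) => θ (Subgroup.topEquiv s) := by
      funext s
      exact hr _
    rw [h3]
    exact h1

open Classical in
theorem fib_eq (E : X → ℂ) (t : ℂ) (F : X → ℂ) (h : K) :
    fib p E t F h = (∑ x, (if p x = h then F x else 0) * E x) / t := by
  rw [fib]
  congr 1
  refine Finset.sum_congr rfl fun x _ => ?_
  split_ifs <;> ring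

theorem int_fib (hC : ClG j c p) (hθ : IsIrr θ) (hE : IsChr E) (hr : ∀ a, E (j a) = θ a)
    (F : X → ℂ) (hF : ∀ a x, F (j a * x * (j a)⁻¹) = F x) (hi : ∀ x, IsIntegral ℤ (F x)) (h : K) :
    IsIntegral ℤ (fib p E (θ 1) F h) := by
  classical
  rw [fib_eq]
  refine int_all hC hθ hE hr _ ?_ ?_
  · intro a x
    rw [p_conj hC, hF]
  · intro x
    split_ifs
    · exact hi x
    · exact isIntegral_zero

/-- The orbits of the conjugation by elements of `A`. -/
def orb (j : A →* X) : Setoid X where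
  r x y := ∃ a, j a * x * (j a)⁻¹ = y
  iseqv :=
    { refl := fun x => ⟨1, by simp⟩
      symm := by
        rintro x y ⟨a, rfl⟩
        exact ⟨a⁻¹, by rw [map_inv]; group⟩
      trans := by
        rintro x y z ⟨a, rfl⟩ ⟨b, rfl⟩
        exact ⟨b * a, by rw [map_mul]; group⟩ }

theorem red_fib_zero (𝔐 : Ideal (integralClosure ℤ ℂ)) (hC : ClG j c p) (hθ : IsIrr θ)
    (hE : IsChr E) (hr : ∀ a, E (j a) = θ a)
    (D : X → ℂ) (hD : ∀ a x, D (j a * x * (j a)⁻¹) = D x) (hi : ∀ x, IsIntegral ℤ (D x)) (h : K)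
    (h0 : ∀ x, p x = h → red 𝔐 (D x) = 0) : red 𝔐 (fib p E (θ 1) D h) = 0 := by
  classical
  let s : Setoid X := orb j
  have : Fintype (Quotient s) := Fintype.ofFinite _
  let I : Quotient s → X → ℂ := fun q x => if (Quotient.mk s x) = q then 1 else 0
  have hI : ∀ q a x, I q (j a * x * (j a)⁻¹) = I q x := by
    intro q a x
    have h1 : Quotient.mk s (j a * x * (j a)⁻¹) = Quotient.mk s x :=
      (Quotient.sound (⟨a, rfl⟩ : s.r x (j a * x * (j a)⁻¹))).symm
    show (if (Quotient.mk s (j a * x * (j a)⁻¹)) = q then (1 : ℂ) else 0) = _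
    rw [h1]
  have hIi : ∀ q x, IsIntegral ℤ (I q x) := by
    intro q x
    show IsIntegral ℤ (if (Quotient.mk s x) = q then (1 : ℂ) else 0)
    split_ifs
    · exact isIntegral_one
    · exact isIntegral_zero
  have hout : ∀ x : X, ∃ a, j a * (Quotient.mk s x).out * (j a)⁻¹ = x := by
    intro x
    exact Quotient.mk_out (s := s) x
  have hDx : ∀ x, D x = ∑ q : Quotient s, D q.out * I q x := by
    intro x
    rw [Finset.sum_eq_single (Quotient.mk s x)]
    · obtain ⟨a, ha⟩ := hout x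
      have h1 : D x = D (Quotient.mk s x).out := by
        conv_lhs => rw [← ha]
        exact hD a _
      show D x = D (Quotient.mk s x).out * (if (Quotient.mk s x) = (Quotient.mk s x) then 1 else 0)
      rw [if_pos rfl, mul_one, h1]
    · intro q _ hq
      show D q.out * (if (Quotient.mk s x) = q then 1 else 0) = 0
      rw [if_neg (fun h => hq h.symm), mul_zero]
    · intro h
      exact absurd (Finset.mem_univ _) h
  have hfib : fib p E (θ 1) D h = ∑ q : Quotient s, D q.out * fib p E (θ 1) (I q) h := by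
    have h1 : ∀ q : Quotient s, D q.out * fib p E (θ 1) (I q) h =
        (∑ x, D q.out * ((if p x = h then I q x else 0) * E x)) / θ 1 := by
      intro q
      rw [fib_eq, ← Finset.mul_sum, mul_div_assoc]
    rw [fib_eq, Finset.sum_congr rfl fun q _ => h1 q, ← Finset.sum_div, Finset.sum_comm]
    congr 1
    refine Finset.sum_congr rfl fun x _ => ?_
    by_cases hx : p x = h
    · simp only [if_pos hx]
      rw [hDx x, Finset.sum_mul]
      exact Finset.sum_congr rfl fun q _ => by ring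
    · simp only [if_neg hx, zero_mul, mul_zero, Finset.sum_const_zero]
  rw [hfib, red_sum]
  · refine Finset.sum_eq_zero fun q _ => ?_
    by_cases hq : p q.out = h
    · rw [red_mul 𝔐 (hi _) (int_fib hC hθ hE hr _ (hI q) (hIi q) h), h0 _ hq, zero_mul]
    · have h2 : fib p E (θ 1) (I q) h = 0 := by
        rw [fib_eq]
        rw [Finset.sum_eq_zero, zero_div]
        intro x _
        by_cases hx : p x = h
        · have h3 : Quotient.mk s x ≠ q := by
            intro h4
            obtain ⟨a, ha⟩ := hout x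
            apply hq
            rw [← h4, ← hx]
            conv_rhs => rw [← ha]
            exact (p_conj hC a _).symm
          show (if p x = h then (if (Quotient.mk s x) = q then (1 : ℂ) else 0) else 0) * E x = 0
          rw [if_neg h3, ite_self, zero_mul]
        · rw [if_neg hx, zero_mul]
      rw [h2, mul_zero, red_zero]
  · intro q _
    exact (hi _).mul (int_fib hC hθ hE hr _ (hI q) (hIi q) h)

end FIBI

open _root_.Pool.Agent.DPC.FIBI in
theorem FIBI_thm : Stmt_FIBI := by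
  classical
  intro A X K _ _ _ _ _ 𝔐 j c p hC θ E hθ hE hr
  refine ⟨fun F hF hi h => int_fib hC hθ hE hr F hF hi h, ?_, ?_, ?_⟩
  · intro F F' hF hF' hi hi' h hred
    have h1 : fib p E (θ 1) F h = fib p E (θ 1) F' h + fib p E (θ 1) (fun x => F x - F' x) h := by
      rw [fib_eq, fib_eq, fib_eq, ← add_div, ← Finset.sum_add_distrib]
      congr 1
      refine Finset.sum_congr rfl fun x _ => ?_
      split_ifs <;> ring
    have hD : ∀ a x, (fun x => F x - F' x) (j a * x * (j a)⁻¹) = (fun x => F x - F' x) x := by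
      intro a x
      show F (j a * x * (j a)⁻¹) - F' (j a * x * (j a)⁻¹) = F x - F' x
      rw [hF, hF']
    have hDi : ∀ x, IsIntegral ℤ ((fun x => F x - F' x) x) := fun x => (hi x).sub (hi' x)
    rw [h1, red_add 𝔐 (int_fib hC hθ hE hr F' hF' hi' h) (int_fib hC hθ hE hr _ hD hDi h),
      red_fib_zero 𝔐 hC hθ hE hr _ hD hDi h, add_zero]
    intro x hx
    have h2 : red 𝔐 (F x) = red 𝔐 (F' x) + red 𝔐 (F x - F' x) := by
      rw [← red_add 𝔐 (hi' x) ((hi x).sub (hi' x))]
      congr 1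
      ring
    rw [hred x hx] at h2
    exact (left_eq_add.1 h2)
  · intro F hF y h
    rw [fib, fib]
    congr 1
    rw [← Equiv.sum_comp (MulAut.conj y).toEquiv]
    refine Finset.sum_congr rfl fun x _ => ?_
    have h1 : (MulAut.conj y).toEquiv x = y * x * y⁻¹ := rfl
    rw [h1, hF, hE.conj_eq, map_mul, map_mul, map_inv]
    have h2 : (p y * p x * (p y)⁻¹ = p y * h * (p y)⁻¹) ↔ p x = h := by
      constructor
      · intro h3
        exact mul_left_cancel (mul_right_cancel h3)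
      · intro h3
        rw [h3]
    simp only [h2]
  · intro _ η F
    have hE1 := E_one hr
    rw [wt, wt]
    show (∑ x, F x * (E x * η (p x))) / (E 1 * η (p 1)) = _
    rw [hE1, map_one, ← div_div]
    congr 1
    rw [Finset.sum_div]
    have h1 : ∀ k : K, fib p E (θ 1) F k * η k =
        ∑ x, (if p x = k then F x * E x else 0) / θ 1 * η k := by
      intro k
      rw [fib, Finset.sum_div, Finset.sum_mul]
    rw [Finset.sum_congr rfl fun k _ => h1 k, Finset.sum_comm]
    refine Finset.sum_congr rfl fun x _ => ?_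
    rw [Finset.sum_eq_single (p x)]
    · rw [if_pos rfl]
      ring
    · intro k _ hk
      rw [if_neg (fun h => hk h.symm), zero_div, zero_mul]
    · intro h
      exact absurd (Finset.mem_univ _) h

end Pool.Agent.DPC


end

section

/-!
# TWF: the central functions of corresponding characters
-/

set_option autoImplicit false

namespace Pool.Agent.DPM

open Pool.Agent.DP Pool.Agent.DPC Pool.Agent.Lib_helper13 Representation

namespace TWF

/-- Sums over a subgroup. -/
theorem sum_ext0 {G : Type} [Group G] [Fintype G] (S : Subgroup G) [Fintype S] (f : G → ℂ)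
    (ψ : S → ℂ) : ∑ y : S, f y * ψ y = ∑ t, f t * ext0 ψ t := by
  refine Fintype.sum_of_injective (Subtype.val : S → G) Subtype.val_injective _ _ ?_ ?_
  · intro t ht
    rw [ext0_of_not_mem, mul_zero]
    intro h
    exact ht ⟨⟨t, h⟩, rfl⟩
  · intro y
    rw [EVAL.ext0_coe]

theorem sum_comp_surj {X Y : Type} [Group X] [Fintype X] [Group Y] [Fintype Y] (p : X →* Y)
    (hp : Function.Surjective p) (f : Y → ℂ) :
    ∑ x, f (p x) = (Nat.card p.ker : ℂ) * ∑ y, f y := by
  classical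
  rw [← Finset.sum_fiberwise_of_maps_to (s := Finset.univ) (t := Finset.univ) (g := p)
    (fun _ _ => Finset.mem_univ _), Finset.mul_sum]
  refine Finset.sum_congr rfl fun y _ => ?_
  have h1 : ∀ x ∈ Finset.univ.filter (fun x => p x = y), f (p x) = f y := by
    intro x hx
    rw [(Finset.mem_filter.mp hx).2]
  rw [Finset.sum_congr rfl h1, Finset.sum_const, nsmul_eq_mul]
  congr 2
  obtain ⟨x0, hx0⟩ := hp y
  rw [← Fintype.card_subtype, ← Nat.card_eq_fintype_card]
  refine Nat.card_congr ⟨fun x => ⟨x0⁻¹ * x.1, ?_⟩, fun x => ⟨x0 * x.1, ?_⟩, ?_, ?_⟩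
  · rw [MonoidHom.mem_ker, map_mul, map_inv, x.2, hx0, inv_mul_cancel]
  · rw [map_mul, MonoidHom.mem_ker.mp x.2, hx0, mul_one]
  · intro x
    apply Subtype.ext
    simp
  · intro x
    apply Subtype.ext
    simp

section conj

variable {L : Type} [Group L]

theorem isConj_mul {u l l' : L} (hu : u ∈ Subgroup.center L) (h : IsConj l l') :
    IsConj (u * l) (u * l') := by
  obtain ⟨c, hc⟩ := isConj_iff.1 h
  refine isConj_iff.2 ⟨c, ?_⟩
  rw [← hc, ← mul_assoc c u l, Subgroup.mem_center_iff.1 hu c]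
  group

/-- Conjugation and multiplication by elements of the central subgroup `U`. -/
def st (U : Subgroup L) (hU : U ≤ Subgroup.center L) : Setoid L where
  r l l' := ∃ u ∈ U, IsConj (u * l) l'
  iseqv :=
    { refl := fun l => ⟨1, U.one_mem, by rw [one_mul]⟩
      symm := by
        rintro l l' ⟨u, hu, h⟩
        refine ⟨u⁻¹, U.inv_mem hu, ?_⟩
        have h1 := isConj_mul (hU (U.inv_mem hu)) h.symm
        rwa [inv_mul_cancel_left] at h1
      trans := by
        rintro l l' l'' ⟨u, hu, h⟩ ⟨v, hv, h'⟩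
        refine ⟨v * u, U.mul_mem hv hu, ?_⟩
        have h1 := isConj_mul (hU hv) h
        rw [← mul_assoc] at h1
        exact h1.trans h' }

open Classical in
/-- The restriction of a function to the classes which represent the orbits of `U`. -/
noncomputable def rs (U : Subgroup L) (hU : U ≤ Subgroup.center L) (B : L → ℂ) (l : L) : ℂ :=
  if IsConj (Quotient.mk (st U hU) l).out l then B l else 0

theorem rs_conj (U : Subgroup L) (hU : U ≤ Subgroup.center L) (B : L → ℂ)
    (hB : ∀ m l, B (m * l * m⁻¹) = B l) (m l : L) : rs U hU B (m * l * m⁻¹) = rs U hU B l := by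
  have hc : IsConj l (m * l * m⁻¹) := isConj_iff.2 ⟨m, rfl⟩
  have hq : Quotient.mk (st U hU) (m * l * m⁻¹) = Quotient.mk (st U hU) l := by
    refine (Quotient.sound (?_ : (st U hU).r l (m * l * m⁻¹))).symm
    exact ⟨1, U.one_mem, by rw [one_mul]; exact hc⟩
  unfold rs
  rw [hq, hB]
  have h1 : IsConj (Quotient.mk (st U hU) l).out (m * l * m⁻¹) ↔
      IsConj (Quotient.mk (st U hU) l).out l :=
    ⟨fun h => h.trans hc.symm, fun h => h.trans hc⟩
  by_cases h : IsConj (Quotient.mk (st U hU) l).out l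
  · rw [if_pos h, if_pos (h1.2 h)]
  · rw [if_neg h, if_neg (fun h2 => h (h1.1 h2))]

theorem rs_sum (U : Subgroup L) [Fintype U] (hU : U ≤ Subgroup.center L) (μ : U →* ℂˣ)
    (hμ : Function.Injective μ) (B : L → ℂ)
    (hB : ∀ m l, B (m * l * m⁻¹) = B l)
    (hm : ∀ (u : U) (l : L), ((μ u : ℂˣ) : ℂ) * B (u * l) = B l) (l : L) :
    ∑ u : U, ((μ u : ℂˣ) : ℂ) * rs U hU B (u * l) = B l := by
  classical
  have hq : ∀ u : U, Quotient.mk (st U hU) ((u : L) * l) = Quotient.mk (st U hU) l := by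
    intro u
    refine (Quotient.sound (?_ : (st U hU).r l ((u : L) * l))).symm
    exact ⟨u, u.2, IsConj.refl _⟩
  have hterm : ∀ u : U, ((μ u : ℂˣ) : ℂ) * rs U hU B (u * l) =
      if IsConj (Quotient.mk (st U hU) l).out ((u : L) * l) then B l else 0 := by
    intro u
    unfold rs
    rw [hq u]
    by_cases h : IsConj (Quotient.mk (st U hU) l).out ((u : L) * l)
    · rw [if_pos h, if_pos h, hm]
    · rw [if_neg h, if_neg h, mul_zero]
  rw [Finset.sum_congr rfl fun u _ => hterm u]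
  by_cases h0 : B l = 0
  · rw [h0]
    refine Finset.sum_eq_zero fun u _ => ?_
    rw [ite_self]
  · obtain ⟨v, hv, hvl⟩ : ∃ v ∈ U, IsConj (v * (Quotient.mk (st U hU) l).out) l :=
      Quotient.mk_out (s := st U hU) l
    have hv1 : IsConj (Quotient.mk (st U hU) l).out (v⁻¹ * l) := by
      have h1 := isConj_mul (hU (U.inv_mem hv)) hvl
      rwa [inv_mul_cancel_left] at h1
    rw [Finset.sum_eq_single (⟨v⁻¹, U.inv_mem hv⟩ : U)]
    · rw [if_pos hv1]
    · intro u _ hu
      rw [if_neg]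
      intro h
      apply hu
      have h1 : IsConj (v⁻¹ * l) ((u : L) * l) := hv1.symm.trans h
      have h2 := isConj_mul (hU hv) h1
      rw [mul_inv_cancel_left] at h2
      obtain ⟨c, hc⟩ := isConj_iff.1 h2
      have h3 : B (v * ((u : L) * l)) = B l := by rw [← hc, hB]
      have h4 := hm (⟨v, hv⟩ * u) l
      have h5 : (((⟨v, hv⟩ * u : U) : L) * l) = v * ((u : L) * l) := mul_assoc _ _ _
      rw [h5, h3] at h4
      have h6 : (((μ (⟨v, hv⟩ * u) : ℂˣ) : ℂ) - 1) * B l = 0 := by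
        rw [sub_mul, h4, one_mul, sub_self]
      rcases mul_eq_zero.1 h6 with h7 | h7
      · have h8 : μ (⟨v, hv⟩ * u) = 1 := by
          apply Units.ext
          rw [Units.val_one]
          exact sub_eq_zero.1 h7
        have h9 : (⟨v, hv⟩ * u : U) = 1 := hμ (by rw [h8, map_one])
        have h10 := eq_inv_of_mul_eq_one_right h9
        rw [h10]
        rfl
      · exact absurd h7 h0
    · intro h
      exact absurd (Finset.mem_univ _) h

theorem rs_total [Fintype L] (U : Subgroup L) [Fintype U] (hU : U ≤ Subgroup.center L)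
    (μ : U →* ℂˣ) (hμ : Function.Injective μ) (B : L → ℂ)
    (hB : ∀ m l, B (m * l * m⁻¹) = B l)
    (hm : ∀ (u : U) (l : L), ((μ u : ℂˣ) : ℂ) * B (u * l) = B l) (η : L → ℂ)
    (hη : ∀ (u : U) (l : L), η (u * l) = ((μ u : ℂˣ) : ℂ) * η l) :
    (Nat.card U : ℂ) * ∑ l, rs U hU B l * η l = ∑ l, B l * η l := by
  have h1 : ∀ u : U, ∑ l, rs U hU B l * η l =
      ∑ l, (((μ u : ℂˣ) : ℂ) * rs U hU B (u * l)) * η l := by
    intro u
    refine (Fintype.sum_equiv (Equiv.mulLeft (u : L)) _ _ fun l => ?_).symm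
    rw [Equiv.coe_mulLeft, hη]
    ring
  have h2 : (Nat.card U : ℂ) * ∑ l, rs U hU B l * η l =
      ∑ _u : U, ∑ l, rs U hU B l * η l := by
    rw [Finset.sum_const, Finset.card_univ, nsmul_eq_mul, Nat.card_eq_fintype_card]
  rw [h2, Finset.sum_congr rfl fun u _ => h1 u, Finset.sum_comm]
  refine Finset.sum_congr rfl fun l _ => ?_
  rw [← Finset.sum_mul, rs_sum U hU μ hμ B hB hm]

end conj

section tw

variable {A T K Γ L : Type} [Group A] [Group T] [Group K] [Group Γ] [Group L] {j : A →* T}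
  {c : T →* MulAut A} {p : T →* K} {θ : A → ℂ} {e : A →* Γ} {q : Γ →* L} {r : Γ →* T} {E : Γ → ℂ}
  {U : Subgroup L} {μ : U →* ℂˣ} {π : L →* K}

theorem clg (hC : ClG j c p) (h : TWD j p θ e q r E U μ π) : ClG e (c.comp r) q where
  inj := by
    intro a b hab
    apply hC.inj
    rw [← h.re, ← h.re, hab]
  act := by
    intro γ a
    have h1 : q (γ * e a * γ⁻¹) = 1 := by
      rw [map_mul, map_mul, map_inv, (h.qk (e a)).2 ⟨a, rfl⟩, mul_one, mul_inv_cancel]
    obtain ⟨a', ha'⟩ := (h.qk _).1 h1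
    have h2 : j a' = j (c (r γ) a) := by
      rw [← h.re, ha', map_mul, map_mul, map_inv, h.re, hC.act]
    rw [← ha', MonoidHom.comp_apply, hC.inj h2]
  ker := h.qk

theorem exists_z (hC : ClG j c p) (h : TWD j p θ e q r E U μ π) {u : L} (hu : u ∈ U) :
    ∃ z, r z = 1 ∧ q z = u := by
  obtain ⟨γ, rfl⟩ := h.qs u
  have h1 : p (r γ) = 1 := by
    rw [← h.πq]
    exact (h.πk _).2 hu
  obtain ⟨a, ha⟩ := (hC.ker _).1 h1
  refine ⟨γ * (e a)⁻¹, ?_, ?_⟩
  · rw [map_mul, map_inv, h.re, ha, mul_inv_cancel]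
  · rw [map_mul, map_inv, (h.qk (e a)).2 ⟨a, rfl⟩, inv_one, mul_one]

theorem card_ker (hC : ClG j c p) (h : TWD j p θ e q r E U μ π) :
    Nat.card r.ker = Nat.card U := by
  refine Nat.card_congr (Equiv.ofBijective (fun z : r.ker => (⟨q z, (h.πk _).1 (by
    rw [h.πq, MonoidHom.mem_ker.1 z.2, map_one])⟩ : U)) ⟨?_, ?_⟩)
  · rintro ⟨z, hz⟩ ⟨z', hz'⟩ hzz
    have h1 : q z = q z' := congrArg Subtype.val hzz
    have h2 : q (z⁻¹ * z') = 1 := by
      rw [map_mul, map_inv, h1, inv_mul_cancel]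
    obtain ⟨a, ha⟩ := (h.qk _).1 h2
    have h3 : j a = 1 := by
      rw [← h.re, ha, map_mul, map_inv, MonoidHom.mem_ker.1 hz, MonoidHom.mem_ker.1 hz', inv_one,
        one_mul]
    have h4 : a = 1 := hC.inj (by rw [h3, map_one])
    rw [h4, map_one] at ha
    apply Subtype.ext
    exact inv_mul_eq_one.1 ha.symm
  · rintro ⟨u, hu⟩
    obtain ⟨z, hz, hzu⟩ := exists_z hC h hu
    exact ⟨⟨z, hz⟩, Subtype.ext hzu⟩

theorem B_mul [Fintype Γ] (hC : ClG j c p) (h : TWD j p θ e q r E U μ π) (f : Γ → ℂ)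
    (hf : ∀ z γ, r z = 1 → f (z * γ) = f γ) (u : U) (l : L) :
    ((μ u : ℂˣ) : ℂ) * fib q E (θ 1) f (u * l) = fib q E (θ 1) f l := by
  classical
  obtain ⟨z, hz, hzu⟩ := exists_z hC h u.2
  rw [fib, fib, ← mul_div_assoc]
  congr 1
  rw [Finset.mul_sum]
  refine (Fintype.sum_equiv (Equiv.mulLeft z) _ _ fun γ => ?_).symm
  rw [Equiv.coe_mulLeft, map_mul, hzu, hf z γ hz]
  have h1 : (u : L) * q γ = u * l ↔ q γ = l := mul_right_inj _
  have h2 := h.El z γ (by rw [hzu]; exact u.2) hz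
  have h3 : (⟨q z, by rw [hzu]; exact u.2⟩ : U) = u := Subtype.ext hzu
  rw [h3] at h2
  by_cases h4 : q γ = l
  · rw [if_pos h4, if_pos (h1.2 h4), ← h2]
    ring
  · rw [if_neg h4, if_neg (fun h5 => h4 (h1.1 h5)), mul_zero]

theorem ext_eta (h : TWD j p θ e q r E U μ π) (V : Subgroup K) (η : ↥(V.comap π) → ℂ)
    (hO : OvL U μ _ η) (u : U) (l : L) : ext0 η (u * l) = ((μ u : ℂˣ) : ℂ) * ext0 η l := by
  have hu : π (u : L) = 1 := (h.πk _).2 u.2
  have hu' : (u : L) ∈ V.comap π := by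
    rw [Subgroup.mem_comap, hu]
    exact V.one_mem
  by_cases hl : l ∈ V.comap π
  · rw [ext0_of_mem η hl, ext0_of_mem η ((V.comap π).mul_mem hu' hl)]
    exact hO ⟨u, hu'⟩ ⟨l, hl⟩ u.2
  · rw [ext0_of_not_mem η hl, mul_zero, ext0_of_not_mem]
    intro h1
    exact hl (((V.comap π).mul_mem_cancel_left hu').1 h1)

theorem ext_psi (h : TWD j p θ e q r E U μ π) (V : Subgroup K) (ψ : ↥(V.comap p) → ℂ)
    (η : ↥(V.comap π) → ℂ) (hc : Cor p q r E π V ψ η) (γ : Γ) :
    ext0 ψ (r γ) = E γ * ext0 η (q γ) := by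
  by_cases h1 : r γ ∈ V.comap p
  · have h2 : q γ ∈ V.comap π := by
      rw [Subgroup.mem_comap, h.πq]
      exact h1
    rw [ext0_of_mem ψ h1, ext0_of_mem η h2]
    exact hc γ h1 h2
  · have h2 : q γ ∉ V.comap π := by
      rw [Subgroup.mem_comap, h.πq]
      exact h1
    rw [ext0_of_not_mem ψ h1, ext0_of_not_mem η h2, mul_zero]

end tw

end TWF

open _root_.Pool.Agent.DPM.TWF in
theorem TWF_thm : Stmt_TWF := by
  classical
  intro A T K Γ L X _ _ _ _ _ _ _ _ _ _ _ _ j c p hC hp θ hθ hinv e q r E U μ π h i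
  have hC' := clg hC h
  obtain ⟨f1, -, f3, f4⟩ := FIBI_thm A Γ L ⊥ e (c.comp r) q hC' θ E hθ h.Ec h.Ee
  obtain ⟨f, hf⟩ : ∃ f : X → Γ → ℂ, ∀ g γ, f g γ = conjInd (i (r γ)) g := ⟨_, fun _ _ => rfl⟩
  have hfc : ∀ g y x, f g (y * x * y⁻¹) = f g x := by
    intro g y x
    rw [hf, hf]
    refine conjInd_left ?_ g
    refine (isConj_iff.2 ⟨i (r y), ?_⟩ : IsConj (i (r x)) (i (r (y * x * y⁻¹)))).symm
    rw [map_mul, map_mul, map_inv, map_mul, map_mul, map_inv]
  have hfi : ∀ g x, IsIntegral ℤ (f g x) := by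
    intro g x
    rw [hf]
    exact isIntegral_conjInd _ _
  have hfz : ∀ g z γ, r z = 1 → f g (z * γ) = f g γ := by
    intro g z γ hz
    rw [hf, hf, map_mul, hz, one_mul]
  have hBc : ∀ g m l, fib q E (θ 1) (f g) (m * l * m⁻¹) = fib q E (θ 1) (f g) l := by
    intro g m l
    obtain ⟨y, rfl⟩ := h.qs m
    exact f3 (f g) (hfc g) y l
  refine ⟨fun g l => rs U h.Uc (fib q E (θ 1) (f g)) l, ?_, ?_, ?_⟩
  · intro g m l
    exact rs_conj U h.Uc _ (hBc g) m l
  · intro g l
    show IsIntegral ℤ (rs U h.Uc (fib q E (θ 1) (f g)) l)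
    unfold rs
    split_ifs
    · exact f1 (f g) (fun a x => hfc g (e a) x) (hfi g) l
    · exact isIntegral_zero
  · intro V ψ η hψ hη hO hcor g
    have h1 := rs_total U h.Uc μ h.inj (fib q E (θ 1) (f g)) (hBc g)
      (fun u l => B_mul hC h (f g) (hfz g) u l) (ext0 η) (fun u l => ext_eta h V η hO u l)
    have h2 := f4 (ext0 η) (f g)
    have h3 : ∑ γ, f g γ * (E γ * ext0 η (q γ)) =
        (Nat.card r.ker : ℂ) * ∑ t, conjInd (i t) g * ext0 ψ t := by
      rw [← sum_comp_surj r h.rs (fun t => conjInd (i t) g * ext0 ψ t)]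
      refine Finset.sum_congr rfl fun γ _ => ?_
      rw [hf, ext_psi h V ψ η hcor γ]
    have hE1 : E 1 = θ 1 := by rw [← h.Ee 1, map_one]
    have hψ1 : ψ 1 = E 1 * η 1 := by
      have h5 := ext_psi h V ψ η hcor 1
      rw [map_one, map_one, EVAL.ext0_one, EVAL.ext0_one] at h5
      exact h5
    have hθ0 : θ 1 ≠ 0 := hθ.one_ne_zero
    have hη0 : η 1 ≠ 0 := hη.one_ne_zero
    have hU0 : (Nat.card U : ℂ) ≠ 0 := natCard_ne_zero
    rw [wt, wt] at h2
    simp only [map_one] at h2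
    rw [h3, ← h1, card_ker hC h, EVAL.ext0_one, hE1] at h2
    rw [wt, wt, sum_ext0 (V.comap p) (fun t => conjInd (i t) g) ψ,
      sum_ext0 (V.comap π) (fun l => rs U h.Uc (fib q E (θ 1) (f g)) l) η, hψ1, hE1]
    rw [mul_div_assoc, mul_div_assoc] at h2
    exact mul_left_cancel₀ hU0 h2

end Pool.Agent.DPM


end

section

/-!
# RDA: elementary properties of the reduced scalars of a twisted group
-/

set_option autoImplicit false

namespace Pool.Agent.DPN

open Pool.Agent.DP Pool.Agent.DPC Pool.Agent.DPM Pool.Agent.Lib_helper13 Representation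

namespace RDA

variable {A T H Γ L : Type} [Group A] [Group T] [Group H] [Group Γ] [Group L] {j : A →* T}
  {c : T →* MulAut A} {p : T →* H} {θ : A → ℂ} {e : A →* Γ} {q : Γ →* L} {r : Γ →* T} {E : Γ → ℂ}
  {U : Subgroup L} {μ : U →* ℂˣ} {π : L →* H}

/-- The twisted group is the fibre product. -/
theorem exists_g (hC : ClG j c p) (h : TWD j p θ e q r E U μ π) {t : T} {l : L}
    (htl : p t = π l) : ∃ g, r g = t ∧ q g = l := by
  obtain ⟨γ, rfl⟩ := h.rs t
  have h1 : (q γ)⁻¹ * l ∈ U := by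
    rw [← h.πk, map_mul, map_inv, h.πq, htl, inv_mul_cancel]
  obtain ⟨z, hz, hzq⟩ := TWF.exists_z hC h h1
  refine ⟨γ * z, ?_, ?_⟩
  · rw [map_mul, hz, mul_one]
  · rw [map_mul, hzq, mul_inv_cancel_left]

theorem inj_g (hC : ClG j c p) (h : TWD j p θ e q r E U μ π) {γ γ' : Γ} (hr : r γ = r γ')
    (hq : q γ = q γ') : γ = γ' := by
  have h2 : q (γ⁻¹ * γ') = 1 := by
    rw [map_mul, map_inv, hq, inv_mul_cancel]
  obtain ⟨a, ha⟩ := (h.qk _).1 h2
  have h3 : j a = 1 := by
    rw [← h.re, ha, map_mul, map_inv, hr, inv_mul_cancel]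
  have h4 : a = 1 := hC.inj (by rw [h3, map_one])
  rw [h4, map_one] at ha
  exact inv_mul_eq_one.1 ha.symm

theorem AIv_r (h : TWD j p θ e q r E U μ π) {u : T → ℤ} (hu : AIv j u) (a : A) (γ : Γ) :
    ((u (r (e a * γ * (e a)⁻¹)) : ℤ) : ℂ) = ((u (r γ) : ℤ) : ℂ) := by
  rw [map_mul, map_mul, map_inv, h.re, hu a (r γ)]

/-- The restriction of a representation. -/
def res {n : ℕ} (e : A →* Γ) (ρ : Representation ℂ Γ (Fin n → ℂ)) :
    Representation ℂ A (Fin n → ℂ) := ρ.comp e

/-- The scalar by which an invariant element of the group ring acts. -/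
theorem scal [Fintype Γ] {n : ℕ} (ρ : Representation ℂ Γ (Fin n → ℂ))
    (hρ : (res e ρ).IsIrreducible) (G : Γ → ℂ)
    (hG : ∀ a γ, G (e a * γ * (e a)⁻¹) = G γ) :
    ∃ s : ℂ, ∑ γ, G γ • (ρ γ : (Fin n → ℂ) →ₗ[ℂ] (Fin n → ℂ)) = s • LinearMap.id := by
  refine exists_scalar (res e ρ) hρ _ ?_
  intro a x
  have hT : ∀ y, (∑ γ, G γ • (ρ γ : (Fin n → ℂ) →ₗ[ℂ] (Fin n → ℂ))) y =
      ∑ γ, G γ • ρ γ y := by
    intro y
    simp [LinearMap.sum_apply]
  rw [hT, hT, map_sum]
  have h1 : ∀ γ, (res e ρ) a (G γ • ρ γ x) =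
      G γ • ρ (e a * γ) x := by
    intro γ
    rw [map_smul, map_mul]
    rfl
  have h2 : ∀ γ, G γ • ρ γ ((res e ρ) a x) =
      G γ • ρ (γ * e a) x := by
    intro γ
    rw [map_mul]
    rfl
  simp only [h1, h2]
  rw [← Equiv.sum_comp (MulAut.conj (e a)).toEquiv]
  refine Finset.sum_congr rfl fun γ _ => ?_
  have h3 : ((MulAut.conj (e a)).toEquiv γ : Γ) = e a * γ * (e a)⁻¹ := rfl
  rw [h3, hG, inv_mul_cancel_right]

theorem trace_sum [Fintype Γ] {n : ℕ} (ρ : Representation ℂ Γ (Fin n → ℂ)) (G : Γ → ℂ) :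
    LinearMap.trace ℂ (Fin n → ℂ) (∑ γ, G γ • (ρ γ : (Fin n → ℂ) →ₗ[ℂ] (Fin n → ℂ))) =
      ∑ γ, G γ * ρ.character γ := by
  rw [map_sum]
  refine Finset.sum_congr rfl fun γ _ => ?_
  rw [map_smul, smul_eq_mul]
  rfl

/-- The product of two invariant elements of the group ring. -/
theorem prod_wt [Fintype Γ] [Fintype A] (hθ : IsIrr θ) (hE : IsChr E) (hr : ∀ a, E (e a) = θ a)
    (G G' : Γ → ℂ) (hG : ∀ a γ, G (e a * γ * (e a)⁻¹) = G γ)
    (hG' : ∀ a γ, G' (e a * γ * (e a)⁻¹) = G' γ) :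
    (∑ γ, (∑ y, G y * G' (y⁻¹ * γ)) * E γ) / θ 1 =
      ((∑ γ, G γ * E γ) / θ 1) * ((∑ γ, G' γ * E γ) / θ 1) := by
  obtain ⟨n, ρ, hρ⟩ := hE
  have hσc : (res e ρ).character = θ := by
    funext a
    rw [← hr, ← hρ]
    rfl
  have hσ : (res e ρ).IsIrreducible := by
    apply irreducible_of_sum
    rw [hσc]
    obtain ⟨m, R, hR, hRc⟩ := hθ
    rw [← hRc]
    exact sum_char_self R
  obtain ⟨s, hs⟩ := scal ρ hσ G hG
  obtain ⟨s', hs'⟩ := scal ρ hσ G' hG'
  have hθ1 : θ 1 = (n : ℂ) := by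
    rw [← hσc, char_one]
    simp
  have hn : (n : ℂ) ≠ 0 := by
    rw [← hθ1]
    exact hθ.one_ne_zero
  have htr : LinearMap.trace ℂ (Fin n → ℂ) (LinearMap.id : (Fin n → ℂ) →ₗ[ℂ] (Fin n → ℂ)) =
      (n : ℂ) := by
    rw [LinearMap.trace_id]
    simp
  have e1 : ∑ γ, G γ * E γ = s * n := by
    rw [← hρ, ← trace_sum, hs, map_smul, htr, smul_eq_mul]
  have e2 : ∑ γ, G' γ * E γ = s' * n := by
    rw [← hρ, ← trace_sum, hs', map_smul, htr, smul_eq_mul]
  have e3 : ∑ γ, (∑ y, G y * G' (y⁻¹ * γ)) • (ρ γ : (Fin n → ℂ) →ₗ[ℂ] (Fin n → ℂ)) =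
      (∑ γ, G γ • (ρ γ : (Fin n → ℂ) →ₗ[ℂ] (Fin n → ℂ))) *
        ∑ γ, G' γ • (ρ γ : (Fin n → ℂ) →ₗ[ℂ] (Fin n → ℂ)) := by
    rw [Finset.sum_mul]
    have h1 : ∀ γ, (∑ y, G y * G' (y⁻¹ * γ)) • (ρ γ : (Fin n → ℂ) →ₗ[ℂ] (Fin n → ℂ)) =
        ∑ y, (G y * G' (y⁻¹ * γ)) • (ρ γ : (Fin n → ℂ) →ₗ[ℂ] (Fin n → ℂ)) := fun γ =>
      Finset.sum_smul
    rw [Finset.sum_congr rfl fun γ _ => h1 γ, Finset.sum_comm]
    refine Finset.sum_congr rfl fun y _ => ?_
    rw [Finset.mul_sum, ← Equiv.sum_comp (Equiv.mulLeft y)]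
    refine Finset.sum_congr rfl fun γ _ => ?_
    rw [Equiv.coe_mulLeft, inv_mul_cancel_left, map_mul, smul_mul_smul_comm]
  have e4 : ∑ γ, (∑ y, G y * G' (y⁻¹ * γ)) * E γ = s * s' * n := by
    rw [← hρ, ← trace_sum, e3, hs, hs']
    have h5 : (s • (LinearMap.id : (Fin n → ℂ) →ₗ[ℂ] (Fin n → ℂ))) *
        (s' • (LinearMap.id : (Fin n → ℂ) →ₗ[ℂ] (Fin n → ℂ))) =
        (s * s') • (LinearMap.id : (Fin n → ℂ) →ₗ[ℂ] (Fin n → ℂ)) := by
      rw [smul_mul_smul_comm]
      rfl
    rw [h5, map_smul, htr, smul_eq_mul]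
  rw [e1, e2, e4, hθ1]
  field_simp

theorem isIntegral_unit [Finite L] (U : Subgroup L) (μ : U →* ℂˣ) (z : U) :
    IsIntegral ℤ ((μ z : ℂˣ) : ℂ) := by
  have h0 : 0 < orderOf z := orderOf_pos z
  refine IsIntegral.of_pow h0 ?_
  have h1 : ((μ z : ℂˣ) : ℂ) ^ orderOf z = 1 := by
    rw [← Units.val_pow_eq_pow_val, ← map_pow, pow_orderOf_eq_one, map_one, Units.val_one]
  rw [h1]
  exact isIntegral_one

end RDA

open _root_.Pool.Agent.DPN.RDA in
theorem RDA_thm : Stmt_RDA := by
  classical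
  intro A T H Γ L _ _ _ _ _ _ _ _ _ _ 𝔐 ℓ _ h𝔐 hℓ j c p hC hp θ hθ hinv e q r E U μ π h
  have hC' := TWF.clg hC h
  obtain ⟨f1, f2, f3, f4⟩ := FIBI_thm A Γ L 𝔐 e (c.comp r) q hC' θ E hθ h.Ec h.Ee
  have hint : ∀ u : T → ℤ, AIv j u → ∀ l,
      IsIntegral ℤ (fib q E (θ 1) (fun γ => ((u (r γ) : ℤ) : ℂ)) l) := by
    intro u hu l
    exact f1 _ (fun a γ => AIv_r h hu a γ) (fun γ => _root_.isIntegral_intCast _) l
  have hcgr : ∀ (u v : T → ℤ) (l : L), (∀ t, p t = π l → u t = v t) →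
      fib q E (θ 1) (fun γ => ((u (r γ) : ℤ) : ℂ)) l =
        fib q E (θ 1) (fun γ => ((v (r γ) : ℤ) : ℂ)) l := by
    intro u v l huv
    rw [fib, fib]
    congr 1
    refine Finset.sum_congr rfl fun γ _ => ?_
    by_cases hγ : q γ = l
    · rw [if_pos hγ, if_pos hγ, huv (r γ) (by rw [← h.πq, hγ])]
    · rw [if_neg hγ, if_neg hγ]
  refine ⟨?_, ?_, ?_, ?_, ?_, ?_⟩
  · -- add
    intro u v hu hv l
    unfold LmL
    rw [← red_add 𝔐 (hint u hu l) (hint v hv l)]
    congr 1
    rw [fib, fib, fib, ← add_div, ← Finset.sum_add_distrib]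
    congr 1
    refine Finset.sum_congr rfl fun γ _ => ?_
    by_cases hγ : q γ = l
    · rw [if_pos hγ, if_pos hγ, if_pos hγ]
      push_cast
      ring
    · rw [if_neg hγ, if_neg hγ, if_neg hγ, add_zero]
  · -- cgr
    intro u v _ _ l huv
    unfold LmL
    rw [hcgr u v l huv]
  · -- mul
    intro u v hu hv l l' hul hvl
    unfold LmL
    rw [← red_mul 𝔐 (hint u hu l) (hint v hv l')]
    congr 1
    rw [FIBI.fib_eq, FIBI.fib_eq, FIBI.fib_eq]
    have hq : ∀ a γ, q (e a * γ * (e a)⁻¹) = q γ := fun a γ => FIBI.p_conj hC' a γ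
    have hG : ∀ (w : T → ℤ), AIv j w → ∀ (m : L) a γ,
        (if q (e a * γ * (e a)⁻¹) = m then ((w (r (e a * γ * (e a)⁻¹)) : ℤ) : ℂ) else 0) =
          if q γ = m then ((w (r γ) : ℤ) : ℂ) else 0 := by
      intro w hw m a γ
      rw [hq, AIv_r h hw]
    rw [← prod_wt (e := e) hθ h.Ec h.Ee (fun γ => if q γ = l then ((u (r γ) : ℤ) : ℂ) else 0)
      (fun γ => if q γ = l' then ((v (r γ) : ℤ) : ℂ) else 0) (hG u hu l) (hG v hv l')]
    congr 1
    refine Finset.sum_congr rfl fun γ _ => ?_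
    congr 1
    by_cases hγ : q γ = l * l'
    · rw [if_pos hγ]
      unfold conv
      push_cast
      symm
      have h1 : ∀ y, (if q y = l then ((u (r y) : ℤ) : ℂ) else 0) *
          (if q (y⁻¹ * γ) = l' then ((v (r (y⁻¹ * γ)) : ℤ) : ℂ) else 0) =
          if q y = l then ((u (r y) : ℤ) : ℂ) * ((v ((r y)⁻¹ * r γ) : ℤ) : ℂ) else 0 := by
        intro y
        by_cases hy : q y = l
        · have h2 : q (y⁻¹ * γ) = l' := by
            rw [map_mul, map_inv, hy, hγ, inv_mul_cancel_left]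
          rw [if_pos hy, if_pos h2, if_pos hy, map_mul, map_inv]
        · rw [if_neg hy, if_neg hy, zero_mul]
      rw [Finset.sum_congr rfl fun y _ => h1 y, ← Finset.sum_filter]
      have h3 : ∑ t, ((u t : ℤ) : ℂ) * ((v (t⁻¹ * r γ) : ℤ) : ℂ) =
          ∑ t ∈ Finset.univ.filter (fun t => p t = π l),
            ((u t : ℤ) : ℂ) * ((v (t⁻¹ * r γ) : ℤ) : ℂ) := by
        rw [Finset.sum_filter]
        refine Finset.sum_congr rfl fun t _ => ?_
        by_cases ht : p t = π l
        · rw [if_pos ht]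
        · rw [if_neg ht, hul t ht, Int.cast_zero, zero_mul]
      rw [h3]
      refine Finset.sum_bij (fun y _ => r y) ?_ ?_ ?_ ?_
      · intro y hy
        rw [Finset.mem_filter] at hy ⊢
        exact ⟨Finset.mem_univ _, by rw [← h.πq, hy.2]⟩
      · intro y hy y' hy' hyy
        rw [Finset.mem_filter] at hy hy'
        exact inj_g hC h hyy (hy.2.trans hy'.2.symm)
      · intro t ht
        rw [Finset.mem_filter] at ht
        obtain ⟨g, hg, hgl⟩ := exists_g hC h ht.2
        exact ⟨g, by rw [Finset.mem_filter]; exact ⟨Finset.mem_univ _, hgl⟩, hg⟩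
      · intro y _
        rfl
    · rw [if_neg hγ]
      symm
      refine Finset.sum_eq_zero fun y _ => ?_
      by_cases hy : q y = l
      · have h2 : q (y⁻¹ * γ) ≠ l' := by
          intro h2
          apply hγ
          rw [map_mul, map_inv, hy] at h2
          rw [← h2, mul_inv_cancel_left]
        rw [if_neg h2, mul_zero]
      · rw [if_neg hy, zero_mul]
  · -- eqv
    intro u hu t l' htl l
    obtain ⟨g, rfl, rfl⟩ := exists_g hC h htl
    unfold LmL
    congr 1
    rw [fib, fib]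
    congr 1
    rw [← Equiv.sum_comp (MulAut.conj g).toEquiv]
    refine Finset.sum_congr rfl fun γ _ => ?_
    have h3 : ((MulAut.conj g).toEquiv γ : Γ) = g * γ * g⁻¹ := rfl
    rw [h3]
    have h4 : q (g * γ * g⁻¹) = q g * l * (q g)⁻¹ ↔ q γ = l := by
      rw [map_mul, map_mul, map_inv]
      constructor
      · intro h5
        exact mul_left_cancel (mul_right_cancel h5)
      · intro h5
        rw [h5]
    have h6 : (r g)⁻¹ * r (g * γ * g⁻¹) * r g = r γ := by
      rw [map_mul, map_mul, map_inv]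
      group
    have h7 : E (g * γ * g⁻¹) = E γ := by
      obtain ⟨n, ρ, hρ⟩ := h.Ec
      rw [← hρ, char_conj]
    by_cases hγ : q γ = l
    · rw [if_pos hγ, if_pos (h4.2 hγ), h7]
      beta_reduce
      rw [h6]
    · rw [if_neg hγ, if_neg (fun h8 => hγ (h4.1 h8))]
  · -- one
    intro u hu
    unfold LmL
    congr 1
    rw [fib, wt]
    congr 1
    rw [← Finset.sum_filter]
    symm
    refine Finset.sum_bij (fun a _ => e a) ?_ ?_ ?_ ?_
    · intro a _
      rw [Finset.mem_filter]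
      exact ⟨Finset.mem_univ _, (h.qk _).2 ⟨a, rfl⟩⟩
    · intro a _ b _ hab
      exact hC'.inj hab
    · intro γ hγ
      rw [Finset.mem_filter] at hγ
      obtain ⟨a, ha⟩ := (h.qk _).1 hγ.2
      exact ⟨a, Finset.mem_univ _, ha⟩
    · intro a _
      show ((u (j a) : ℤ) : ℂ) * θ a = ((u (r (e a)) : ℤ) : ℂ) * E (e a)
      rw [h.re, h.Ee]
  · -- ctr
    intro u hu z l
    unfold LmL
    rw [← red_mul 𝔐 (isIntegral_unit U μ z) (hint u hu _)]
    congr 1
    refine TWF.B_mul hC h _ ?_ z l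
    intro y γ hy
    rw [map_mul, hy, one_mul]

end Pool.Agent.DPN


end

section

/-!
# Transfer of homomorphisms
-/

set_option autoImplicit false

namespace Pool.Agent.DPW

open Pool.Agent.DPB Pool.Agent.Lib_helper13 Representation

namespace TRFB

/-- Sums over finite invariant sets with a free action. -/
theorem sum_mem_free {P X Y : Type} [Group P] [Fintype P] [MulAction P X] [AddCommMonoid Y]
    (R : AddSubmonoid Y) (F : X → Y) (hF : ∀ x, ∑ p : P, F (p • x) ∈ R) (n : ℕ) :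
    ∀ S : Finset X, S.card ≤ n → (∀ (p : P) (x : X), x ∈ S → p • x ∈ S) →
      (∀ (p : P) (x : X), x ∈ S → p • x = x → p = 1) → ∑ x ∈ S, F x ∈ R := by
  classical
  induction n with
  | zero =>
    intro S hc _ _
    rw [Finset.card_eq_zero.1 (Nat.le_zero.1 hc), Finset.sum_empty]
    exact R.zero_mem
  | succ n ih =>
    intro S hc hS hfree
    rcases S.eq_empty_or_nonempty with rfl | ⟨x, hx⟩
    · rw [Finset.sum_empty]
      exact R.zero_mem
    · have hOS : (Finset.univ.image (fun p : P => p • x)) ⊆ S := by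
        intro y hy
        obtain ⟨p, -, rfl⟩ := Finset.mem_image.1 hy
        exact hS p x hx
      have hxO : x ∈ Finset.univ.image (fun p : P => p • x) :=
        Finset.mem_image.2 ⟨1, Finset.mem_univ _, one_smul _ _⟩
      have hsum : ∑ y ∈ Finset.univ.image (fun p : P => p • x), F y = ∑ p : P, F (p • x) := by
        rw [Finset.sum_image]
        intro p _ q _ hpq
        have hpq' : p • x = q • x := hpq
        have h1 : (q⁻¹ * p) • x = x := by rw [mul_smul, hpq', inv_smul_smul]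
        have h2 := hfree _ x hx h1
        exact (inv_mul_eq_one.1 h2).symm
      rw [← Finset.sum_sdiff hOS, hsum]
      refine R.add_mem (ih _ ?_ ?_ ?_) (hF x)
      · have : (S \ Finset.univ.image (fun p : P => p • x)).card < S.card :=
          Finset.card_lt_card (Finset.sdiff_ssubset hOS ⟨x, hxO⟩)
        omega
      · intro p y hy
        rw [Finset.mem_sdiff] at hy ⊢
        refine ⟨hS p y hy.1, fun h => hy.2 ?_⟩
        obtain ⟨q, -, hq⟩ := Finset.mem_image.1 h
        have hq' : q • x = p • y := hq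
        refine Finset.mem_image.2 ⟨p⁻¹ * q, Finset.mem_univ _, ?_⟩
        rw [mul_smul, hq', inv_smul_smul]
      · intro p y hy
        exact hfree p y (Finset.mem_sdiff.1 hy).1

section

variable {F T V V' : Type} [Field F] [Group T] [AddCommGroup V] [Module F V]
  [AddCommGroup V'] [Module F V'] (ρ : Representation F T V) (ρ' : Representation F T V')
  (P : Subgroup T) (f : V →ₗ[F] V')

/-- The conjugate of a linear map. -/
def cj (t : T) : V →ₗ[F] V' := (ρ' t) ∘ₗ f ∘ₗ (ρ t⁻¹)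

theorem cj_apply (t : T) (v : V) : cj ρ ρ' f t v = ρ' t (f (ρ t⁻¹ v)) := rfl

variable {ρ ρ' P f}

theorem cj_wd (hf : ∀ p ∈ P, ∀ v, f (ρ p v) = ρ' p (f v)) (a b : T)
    (h : a⁻¹ * b ∈ P) : cj ρ ρ' f a = cj ρ ρ' f b := by
  ext v
  rw [cj_apply, cj_apply]
  have h1 := hf (a⁻¹ * b) h (ρ b⁻¹ v)
  have h2 : ρ (a⁻¹ * b) (ρ b⁻¹ v) = ρ a⁻¹ v := by
    rw [← Module.End.mul_apply, ← map_mul]
    congr 2
    group
  rw [h2] at h1
  rw [h1]
  rw [← Module.End.mul_apply, ← map_mul]
  congr 2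
  group

/-- The conjugates as a function on the cosets. -/
def cjq (hf : ∀ p ∈ P, ∀ v, f (ρ p v) = ρ' p (f v)) (q : T ⧸ P) :
    V →ₗ[F] V' :=
  Quotient.liftOn' q (cj ρ ρ' f) (fun a b h => cj_wd hf a b (QuotientGroup.leftRel_apply.1 h))

theorem cjq_mk (hf : ∀ p ∈ P, ∀ v, f (ρ p v) = ρ' p (f v)) (t : T) :
    cjq hf (t : T ⧸ P) = cj ρ ρ' f t := rfl

theorem cjq_smul (hf : ∀ p ∈ P, ∀ v, f (ρ p v) = ρ' p (f v)) (g : T)
    (q : T ⧸ P) (v : V) :
    cjq hf (g • q) (ρ g v) = ρ' g (cjq hf q v) := by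
  induction q using QuotientGroup.induction_on with
  | H t =>
    have h1 : g • (t : T ⧸ P) = ((g * t : T) : T ⧸ P) := rfl
    rw [h1, cjq_mk, cjq_mk, cj_apply, cj_apply]
    have h2 : ρ (g * t)⁻¹ (ρ g v) = ρ t⁻¹ v := by
      rw [← Module.End.mul_apply, ← map_mul]
      congr 2
      group
    rw [h2, map_mul, Module.End.mul_apply]

theorem trC_eq [Fintype T] (hf : ∀ p ∈ P, ∀ v, f (ρ p v) = ρ' p (f v)) [Fintype (T ⧸ P)] :
    trC P ρ ρ' f = ∑ q : T ⧸ P, cjq hf q := by
  unfold trC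
  refine Finset.sum_congr ?_ fun q _ => ?_
  · ext q
    simp only [Finset.mem_univ]
  · have h1 : cjq hf q = cjq hf ((q.out : T) : T ⧸ P) := by rw [QuotientGroup.out_eq']
    rw [h1]
    rfl

end

end TRFB

open _root_.Pool.Agent.DPW.TRFB in
theorem TRFB_thm : Stmt_TRFB := by
  intro ℓ _ F T V V' _ _ _ _ _ _ _ _ ρ ρ' P _ hP f hf
  classical
  have hT : trC P ρ ρ' f = ∑ q : T ⧸ P, cjq hf q := trC_eq hf
  refine ⟨?_, ?_⟩
  · intro g v
    rw [hT, LinearMap.sum_apply, LinearMap.sum_apply, map_sum]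
    rw [← Equiv.sum_comp (MulAction.toPerm g)]
    refine Finset.sum_congr rfl fun q _ => ?_
    exact cjq_smul hf g q v
  · intro v hv
    -- the fixed cosets
    set S : Finset (T ⧸ P) := Finset.univ.filter (fun q => ∀ p : P, p • q = q) with hS
    have hN : ∀ t : T, ((t : T ⧸ P) ∈ S) ↔ t ∈ Subgroup.normalizer (P : Set T) := by
      intro t
      rw [hS, Finset.mem_filter]
      constructor
      · rintro ⟨-, h⟩
        have h1 : t⁻¹ ∈ Subgroup.normalizer (P : Set T) := by
          apply Subgroup.mem_normalizer_fintype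
          intro n hn
          have h2 : (((n : T) * t : T) : T ⧸ P) = (t : T ⧸ P) := h ⟨n, hn⟩
          have h3 := QuotientGroup.eq.1 h2.symm
          rw [inv_inv, mul_assoc]
          exact h3
        have := (Subgroup.normalizer (P : Set T)).inv_mem h1
        rwa [inv_inv] at this
      · intro h
        refine ⟨Finset.mem_univ _, fun p => ?_⟩
        have h1 : p • (t : T ⧸ P) = (((p : T) * t : T) : T ⧸ P) := rfl
        rw [h1, eq_comm, QuotientGroup.eq, ← mul_assoc]
        have h2 := (Subgroup.mem_normalizer_iff'.1 h) (t⁻¹ * p)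
        rw [← mul_assoc, mul_inv_cancel, one_mul] at h2
        exact h2.2 p.2
    have hsplit : trC P ρ ρ' f v = ∑ q ∈ S, cjq hf q v + ∑ q ∈ Sᶜ, cjq hf q v := by
      rw [hT, LinearMap.sum_apply, Finset.sum_add_sum_compl]
    have hfix : ∑ q ∈ S, cjq hf q v =
        trC (P.subgroupOf (Subgroup.normalizer (P : Set T))) (rN P ρ) (rN P ρ') f v := by
      unfold trC
      rw [LinearMap.sum_apply]
      symm
      refine Finset.sum_bij (fun q _ => ((q.out : T) : T ⧸ P)) ?_ ?_ ?_ ?_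
      · intro q _
        exact (hN _).2 q.out.2
      · intro a _ b _ hab
        have h1 := QuotientGroup.eq.1 hab
        have h2 : (a.out)⁻¹ * b.out ∈ P.subgroupOf (Subgroup.normalizer (P : Set T)) := h1
        have h3 := QuotientGroup.eq.2 h2
        rw [QuotientGroup.out_eq', QuotientGroup.out_eq'] at h3
        exact h3
      · intro q hq
        induction q using QuotientGroup.induction_on with
        | H t =>
          have ht := (hN t).1 hq
          refine ⟨((⟨t, ht⟩ : NP P) : NP P ⧸ P.subgroupOf (Subgroup.normalizer (P : Set T))),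
            Finset.mem_univ _, ?_⟩
          rw [QuotientGroup.eq]
          have h3 : (((⟨t, ht⟩ : NP P) : NP P ⧸ P.subgroupOf
              (Subgroup.normalizer (P : Set T))).out)⁻¹ * (⟨t, ht⟩ : NP P) ∈
              P.subgroupOf (Subgroup.normalizer (P : Set T)) := by
            rw [← QuotientGroup.eq, QuotientGroup.out_eq']
          exact h3
      · intro q _
        rfl
    rw [hsplit, hfix, add_sub_cancel_left]
    refine sum_mem_free (P := P) (LinearMap.range (tN P ρ')).toAddSubmonoid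
      (fun q => cjq hf q v) ?_ _ _ le_rfl ?_ ?_
    · intro q
      refine ⟨cjq hf q v, ?_⟩
      unfold tN
      rw [LinearMap.sum_apply]
      have h2 : ∀ h : T, (if h ∈ P then ρ' h else 0) (cjq hf q v) =
          if h ∈ P then ρ' h (cjq hf q v) else 0 := by
        intro h
        split_ifs
        · rfl
        · rfl
      rw [Finset.sum_congr rfl fun h _ => h2 h, ← Finset.sum_filter]
      rw [Finset.sum_subtype (Finset.univ.filter fun h => h ∈ P) (p := fun h => h ∈ P)
        (by intro x; simp)]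
      refine Finset.sum_congr rfl fun p _ => ?_
      have h3 := cjq_smul hf (p : T) q v
      rw [hv p p.2] at h3
      exact h3.symm
    · intro p q hq
      rw [Finset.mem_compl, hS, Finset.mem_filter] at hq ⊢
      intro h
      apply hq
      have h1 : p⁻¹ • p • q = p • q := h.2 p⁻¹
      rw [inv_smul_smul] at h1
      rw [h1]
      exact h
    · intro p q hq hpq
      by_contra hp1
      rw [Finset.mem_compl, hS, Finset.mem_filter] at hq
      apply hq
      refine ⟨Finset.mem_univ _, fun n => ?_⟩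
      have h7 : n ∈ Subgroup.zpowers p := mem_zpowers_of_prime_card hP hp1
      have h8 : Subgroup.zpowers p ≤ MulAction.stabilizer P q := by
        rw [Subgroup.zpowers_le]
        exact hpq
      exact h8 h7

end Pool.Agent.DPW


end

section

/-!
# TRIW: the elements which act on a block as inner automorphisms fix all characters (theorem W)
-/

set_option linter.unusedSectionVars false

namespace Pool.Agent.DPW

open Pool.Agent.DP Pool.Agent.DPV Pool.Agent.Lib_helper13 Representation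
open Pool.Agent.Lib_helper13.Dade (pCore DadeHolds dadeSum)

open Pool.Agent.DPV.TRIV in
/-- TRIW: the elements which act on a block as inner automorphisms fix all characters. -/
theorem TRIW_thm (h1 : Stmt_MULW) : Stmt_TRIW := by
  classical
  intro G B C _ _ _ _ _ 𝔐 ℓ _ hmax hℓ ι κ ρ hV hC σ σ' ψ ψ' hσ hσ' hψ hψ' hblk c hc f hf hex
  obtain ⟨t, ht, htne⟩ := hex
  have h := hV.cl
  have hprime : 𝔐.IsPrime := hmax.isPrime
  have hfinC : Finite C := Finite.of_surjective ρ hV.surj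
  have hdom : IsDomain ((integralClosure ℤ ℂ) ⧸ 𝔐) := Ideal.Quotient.isDomain 𝔐
  have hρι : ∀ g, ρ (ι g) = 1 := fun g => (h.ker _).mpr ⟨g, rfl⟩
  -- the class of `t`
  obtain ⟨a, ha⟩ : ∃ a : B → ℂ, ∀ x, a x = cjT ι.range x t := ⟨fun x => cjT ι.range x t, fun _ => rfl⟩
  have hainv : ∀ (g : G) x, a (ι g * x * (ι g)⁻¹) = a x := by
    intro g x
    rw [ha, ha]
    exact LTI.cjT_left ι.range ⟨g, rfl⟩ x t
  have haint : ∀ x, IsIntegral ℤ (a x) := by
    intro x
    rw [ha]
    exact DPC.LTIC.isIntegral_cjT _ _ _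
  have hasupp : ∀ x, ρ x ≠ c → a x = 0 := by
    intro x hx
    rw [ha]
    refine if_neg ?_
    rintro ⟨s, hs, rfl⟩
    apply hx
    have h3 : ρ s = 1 := (h.ker s).mpr hs
    rw [map_mul, map_mul, map_inv, h3, ht, one_mul, inv_one, mul_one]
  have hwta : red 𝔐 (wt f a) = cgT 𝔐 ι.range f t := by
    unfold wt cgT
    simp only [ha]
  -- the powers
  have hL : Subgroup.zpowers c ≤ (Stx κ σ ψ).map ρ := by
    rw [Subgroup.zpowers_le]
    exact hc
  have hsuppL : ∀ k, ∀ x, ρ x ∉ Subgroup.zpowers c → bp a k x = 0 := by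
    intro k x hx
    apply bp_supp hasupp k
    intro h3
    apply hx
    rw [h3]
    exact (Subgroup.zpowers c).pow_mem (Subgroup.mem_zpowers c) _
  have hpow : ∀ k, red 𝔐 (wt f (bp a k)) = cgT 𝔐 ι.range f t ^ (k + 1) := by
    intro k
    induction k with
    | zero =>
      rw [zero_add, pow_one]
      exact hwta
    | succ k ih =>
      have h3 := h1 G B C 𝔐 ℓ hmax hℓ ι κ ρ hV σ ψ hσ hψ (Subgroup.zpowers c) hL f hf a (bp a k)
        hainv (bp_inv hainv k) haint (bp_int haint k) (hsuppL 0) (hsuppL k)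
      change red 𝔐 (wt f (cvB a (bp a k))) = _
      rw [h3, hwta, ih, pow_succ' _ (k + 1)]
  obtain ⟨n, hn⟩ : ∃ n, orderOf c = n + 1 := by
    have h3 : 0 < orderOf c := orderOf_pos c
    exact ⟨orderOf c - 1, by omega⟩
  have hcn : c ^ (n + 1) = 1 := by
    rw [← hn]
    exact pow_orderOf_eq_one c
  have hbsupp : ∀ x, ρ x ≠ 1 → bp a n x = 0 := by
    intro x hx
    apply bp_supp hasupp n
    rwa [hcn]
  have hne : red 𝔐 (wt ψ (fun g => bp a n (ι g))) ≠ 0 := by
    have h3 : wt ψ (fun g => bp a n (ι g)) = wt f (bp a n) := by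
      unfold wt
      rw [sum_range h (bp a n) f hbsupp]
      have h4 : f 1 = ψ 1 := by
        rw [← hf.2, map_one]
      rw [h4]
      congr 1
      exact Finset.sum_congr rfl fun g _ => by rw [hf.2]
    rw [h3, hpow]
    exact pow_ne_zero _ htne
  -- the other character of the block
  have hne' : red 𝔐 (wt ψ' (fun g => bp a n (ι g))) ≠ 0 := by
    have h3 := (EXPV_thm G G 𝔐 (MonoidHom.id G) ψ ψ' (isIntegral_id hψ) (isIntegral_id hψ')
      (fun g => bp a n (ι g)) (fun g x => by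
        change bp a n (ι (g * x * g⁻¹)) = _
        rw [map_mul, map_mul, map_inv]
        exact bp_inv hainv n g (ι x)) (fun x => bp_int haint n (ι x))).2.2 1 (fun x _ => by
        rw [cgT_id, cgT_id, one_mul, hblk])
    rw [h3, one_mul]
    exact hne
  -- the contradiction
  by_contra hcon
  apply hne'
  obtain ⟨T1, hT1def⟩ : ∃ T1 : Subgroup B, T1 = (Subgroup.zpowers c).comap ρ := ⟨_, rfl⟩
  have hT1mem : ∀ x : B, x ∈ T1 ↔ ρ x ∈ Subgroup.zpowers c := by
    intro x
    rw [hT1def]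
    rfl
  have hT1 : ι.range ≤ T1 := by
    rw [hT1def]
    exact DPC.LTIC.range_le h _
  have htT1 : t ∈ T1 := by
    rw [hT1mem, ht]
    exact Subgroup.mem_zpowers c
  have hT := clG_T1 h T1 hT1
  have hcomm : ∀ z : T1, (ρ.comp T1.subtype) z * c = c * (ρ.comp T1.subtype) z := by
    intro z
    obtain ⟨k, hk⟩ := Subgroup.mem_zpowers_iff.mp ((hT1mem (z : B)).mp z.2)
    change ρ (z : B) * c = c * ρ (z : B)
    rw [← hk]
    exact (Commute.self_zpow c k).eq.symm
  have hcon' : c ∉ (Stx (κ.comp T1.subtype) σ' ψ').map (ρ.comp T1.subtype) := by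
    rintro ⟨z, hz, hzc⟩
    exact hcon ⟨(z : B), hz, hzc⟩
  obtain ⟨χ, hχ, hip, hvan⟩ := exists_over hT hψ' c hcomm hcon'
  have hch : IsCh ℓ (⊥ : Subgroup G) σ' := by
    rcases hσ' with rfl | ⟨P, rfl, hP⟩
    · refine ⟨fun D hD => absurd hD (Finset.notMem_empty D), ?_⟩
      rw [Finset.coe_empty]
      exact IsChain.empty
    · have hPp : IsPGroup ℓ P := IsPGroup.of_card (n := 1) (by rw [pow_one]; exact hP)
      refine ⟨fun D hD => ?_, ?_⟩
      · rw [Finset.mem_singleton] at hD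
        subst hD
        refine ⟨hPp, bot_lt_iff_ne_bot.mpr ?_⟩
        rintro rfl
        rw [Subgroup.card_bot] at hP
        exact (Fact.out : ℓ.Prime).one_lt.ne hP
      · rw [Finset.coe_singleton]
        exact IsChain.singleton
  have hch' : IsCh ℓ (⊥ : Subgroup T1) (mapCh (DPC.LTIC.iT ι T1 hT1) σ') := by
    have h3 := (isCh_mapCh_iff (DPC.LTIC.iT_inj h hT1) (Z := ⊥)).mpr hch
    rwa [Subgroup.map_bot] at h3
  have hm : MultOn 𝔐 χ ⊤ := exists_irr_of_chain 𝔐 hℓ hch' hχ
  -- the class of `t` in `T1`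
  have hclass : ∀ x : T1, a x = conjInd x (⟨t, htT1⟩ : T1) := by
    intro x
    rw [ha]
    unfold conjInd cjT
    have hiff : IsConj x (⟨t, htT1⟩ : T1) ↔ ∃ s ∈ ι.range, (x : B) = s * t * s⁻¹ := by
      rw [isConj_iff]
      constructor
      · rintro ⟨u, hu⟩
        have hu' : (u : B) * x * (u : B)⁻¹ = t := congrArg Subtype.val hu
        have hum : ρ ((u : B)⁻¹) ∈ Subgroup.zpowers c := (hT1mem _).mp (T1.inv_mem u.2)
        obtain ⟨k, hk⟩ := Subgroup.mem_zpowers_iff.mp hum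
        refine ⟨(u : B)⁻¹ * (t ^ k)⁻¹, ?_, ?_⟩
        · apply (h.ker _).mp
          rw [map_mul, map_inv ρ (t ^ k), map_zpow, ht, hk, mul_inv_cancel]
        · have h3 : (x : B) = (u : B)⁻¹ * t * u := by
            rw [← hu']
            group
          have h4 : t ^ k * t = t * t ^ k := (Commute.self_zpow t k).eq.symm
          have h5 : (t ^ k)⁻¹ * t * t ^ k = t := by
            rw [mul_assoc, ← h4, inv_mul_cancel_left]
          calc (x : B) = (u : B)⁻¹ * t * u := h3
            _ = (u : B)⁻¹ * ((t ^ k)⁻¹ * t * t ^ k) * u := by rw [h5]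
            _ = _ := by group
      · rintro ⟨s, hs, hx⟩
        refine ⟨⟨s⁻¹, T1.inv_mem (hT1 hs)⟩, ?_⟩
        apply Subtype.ext
        change s⁻¹ * (x : B) * s⁻¹⁻¹ = t
        rw [hx]
        group
    by_cases hx : IsConj x (⟨t, htT1⟩ : T1)
    · rw [if_pos hx, if_pos (hiff.mp hx)]
    · rw [if_neg hx, if_neg fun hx' => hx (hiff.mpr hx')]
  obtain ⟨b, hb0, hb⟩ : ∃ b : ℕ → T1 → ℂ, b 0 = (fun x => conjInd x (⟨t, htT1⟩ : T1)) ∧
      ∀ k, b (k + 1) = cv (fun x => conjInd x (⟨t, htT1⟩ : T1)) (b k) :=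
    ⟨fun k => Nat.rec (fun x => conjInd x (⟨t, htT1⟩ : T1))
      (fun _ r => cv (fun x => conjInd x (⟨t, htT1⟩ : T1)) r) k, rfl, fun k => rfl⟩
  have hrestr : ∀ k, ∀ x : T1, bp a k x = b k x := by
    intro k
    refine bp_restrict T1 (fun x hx => hasupp x ?_) _ hclass b hb0 hb k
    rintro h3
    apply hx
    rw [hT1mem, h3]
    exact Subgroup.mem_zpowers c
  have hAinv : ∀ g x : T1, conjInd (g * x * g⁻¹) (⟨t, htT1⟩ : T1) =
      conjInd x (⟨t, htT1⟩ : T1) := fun g x => conjInd_conj g x _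
  have hbinv : ∀ k, ∀ g x, b k (g * x * g⁻¹) = b k x := by
    intro k
    induction k with
    | zero =>
      intro g x
      rw [hb0]
      exact hAinv g x
    | succ k ih =>
      intro g x
      rw [hb]
      exact cv_conj hAinv ih g x
  have hbint : ∀ k, ∀ x, IsIntegral ℤ (b k x) := by
    intro k x
    rw [← hrestr]
    exact bp_int haint k _
  have hzero : ∀ k, red 𝔐 (wt χ (fun s => b k (s : T1))) = 0 := by
    have hA0 : red 𝔐 (wt χ (fun s => conjInd (s : T1) (⟨t, htT1⟩ : T1))) = 0 := by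
      have h3 : wt χ (fun s => conjInd (s : T1) (⟨t, htT1⟩ : T1)) = 0 := by
        unfold wt
        rw [Finset.sum_eq_zero, zero_div]
        intro s _
        by_cases hs : ρ ((s : T1) : B) = c
        · rw [hvan s hs, mul_zero]
        · change conjInd (s : T1) (⟨t, htT1⟩ : T1) * χ s = 0
          rw [← hclass, hasupp _ hs, zero_mul]
      rw [h3, red_zero]
    intro k
    induction k with
    | zero =>
      rw [hb0]
      exact hA0
    | succ k ih =>
      rw [hb]
      rw [red_wt_cv 𝔐 hχ hm hAinv (hbinv k) (fun x => isIntegral_conjInd _ _) (hbint k), ih,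
        mul_zero]
  have hS := (SUMM_thm (stb σ') (YS (DPC.LTIC.iT ι T1 hT1) σ') C (jS hT σ') (cS hT σ')
    (pS (ρ.comp T1.subtype) (DPC.LTIC.iT ι T1 hT1) σ') (clG_S hT σ')).2.2.2
    (fun s : stb σ' => ψ' s) χ (fun s => b n (s : T1)) hψ'.1 hχ hip
    (fun g x => hbinv n (g : T1) (x : T1)) (by
      intro y hy
      rw [← hrestr]
      apply hbsupp
      intro h3
      exact hy (((clG_S hT σ').ker y).mp h3))
  have h3 := hzero n
  rw [hS] at h3
  rw [← h3]
  congr 1
  unfold wt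
  rw [INTH.sum_restrict (stb σ') (fun g => bp a n (ι g)) ψ' hψ'.2]
  congr 1
  refine Finset.sum_congr rfl fun s _ => ?_
  congr 1
  exact hrestr n (DPC.LTIC.iT ι T1 hT1 s)

end Pool.Agent.DPW


end

section

/-!
# TRFX: transfer of homomorphisms
-/

set_option autoImplicit false

namespace Pool.Agent.DPX

open Pool.Agent.DPB Pool.Agent.DPW Pool.Agent.DPW.TRFB Representation

namespace TRFX

section Traces

variable {F H V V' : Type} [Field F] [Group H] [Fintype H] [AddCommGroup V] [Module F V]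
  [AddCommGroup V'] [Module F V'] (P : Subgroup H) (σ : Representation F H V)
  (σ' : Representation F H V')

theorem trS_add (f g : V →ₗ[F] V') : trS P σ σ' (f + g) = trS P σ σ' f + trS P σ σ' g := by
  unfold trS
  rw [← Finset.sum_add_distrib]
  refine Finset.sum_congr rfl fun h _ => ?_
  split_ifs
  · rw [LinearMap.add_comp, LinearMap.comp_add]
  · rw [add_zero]

theorem trS_zero : trS P σ σ' (0 : V →ₗ[F] V') = 0 := by
  unfold trS
  refine Finset.sum_eq_zero fun h _ => ?_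
  split_ifs
  · rw [LinearMap.zero_comp, LinearMap.comp_zero]
  · rfl

theorem comp_trS (α : V' →ₗ[F] V') (hα : ∀ p ∈ P, ∀ v, α (σ' p v) = σ' p (α v))
    (g : V →ₗ[F] V') : α ∘ₗ trS P σ σ' g = trS P σ σ' (α ∘ₗ g) := by
  unfold trS
  refine LinearMap.ext fun v => ?_
  rw [LinearMap.comp_apply, LinearMap.sum_apply, LinearMap.sum_apply, map_sum]
  refine Finset.sum_congr rfl fun h _ => ?_
  by_cases hh : h ∈ P
  · rw [if_pos hh, if_pos hh]
    exact hα h hh _
  · rw [if_neg hh, if_neg hh, LinearMap.zero_apply, map_zero]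

theorem trC_comp (α : V' →ₗ[F] V') (Θ : V →ₗ[F] V') (hΘ : Eqv σ σ' Θ) :
    trC P σ' σ' α ∘ₗ Θ = trC P σ σ' (α ∘ₗ Θ) := by
  unfold trC
  refine LinearMap.ext fun v => ?_
  rw [LinearMap.comp_apply, LinearMap.sum_apply, LinearMap.sum_apply]
  refine Finset.sum_congr rfl fun q _ => ?_
  change σ' q.out (α (σ' q.out⁻¹ (Θ v))) = σ' q.out (α (Θ (σ q.out⁻¹ v)))
  rw [hΘ]

/-- The trace is the composition of the trace for `P` and the relative trace. -/
theorem tr1_eq (f : V →ₗ[F] V') : tr1 σ σ' f = trC P σ σ' (trS P σ σ' f) := by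
  classical
  unfold trC tr1
  rw [← Finset.sum_fiberwise Finset.univ (fun t : H => (t : H ⧸ P))]
  refine Finset.sum_congr rfl fun q _ => ?_
  rw [Finset.sum_filter]
  have h2 : ∑ t : H, (if (t : H ⧸ P) = q then σ' t ∘ₗ f ∘ₗ σ t⁻¹ else 0) =
      ∑ h : H, (if h ∈ P then σ' (q.out * h) ∘ₗ f ∘ₗ σ (q.out * h)⁻¹ else 0) := by
    refine (Fintype.sum_equiv (Equiv.mulLeft q.out) _ _ fun h => ?_).symm
    have h3 : (((q.out * h : H)) : H ⧸ P) = q ↔ h ∈ P := by
      conv_lhs => rw [← QuotientGroup.out_eq' q]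
      rw [eq_comm, QuotientGroup.eq]
      simp
    by_cases hh : h ∈ P
    · exact (if_pos hh).trans (if_pos (h3.2 hh)).symm
    · exact (if_neg hh).trans (if_neg (fun h4 => hh (h3.1 h4))).symm
  rw [h2]
  refine LinearMap.ext fun v => ?_
  rw [LinearMap.comp_apply, LinearMap.comp_apply]
  unfold trS
  rw [LinearMap.sum_apply, LinearMap.sum_apply, map_sum]
  refine Finset.sum_congr rfl fun h _ => ?_
  by_cases hh : h ∈ P
  · rw [if_pos hh, if_pos hh]
    change σ' (q.out * h) (f (σ (q.out * h)⁻¹ v)) = σ' q.out (σ' h (f (σ h⁻¹ (σ q.out⁻¹ v))))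
    rw [map_mul, mul_inv_rev, map_mul]
    rfl
  · rw [if_neg hh, if_neg hh, LinearMap.zero_apply, LinearMap.zero_apply, map_zero]

end Traces

section Restrict

variable {F T V V' : Type} [Field F] [Group T] [Fintype T] [AddCommGroup V] [Module F V]
  [AddCommGroup V'] [Module F V'] (ρ : Representation F T V) (ρ' : Representation F T V')

/-- The trace for a subgroup of the normalizer. -/
theorem trS_restrict (P₁ P : Subgroup T) [Fintype (NP P₁)]
    (hP : P ≤ Subgroup.normalizer (P₁ : Set T)) (g : V →ₗ[F] V') :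
    trS (P.subgroupOf (Subgroup.normalizer (P₁ : Set T))) (rN P₁ ρ) (rN P₁ ρ') g =
      trS P ρ ρ' g := by
  classical
  unfold trS
  rw [← Finset.sum_filter, ← Finset.sum_filter]
  refine Finset.sum_bij (fun n _ => (n : T)) ?_ ?_ ?_ ?_
  · intro n hn
    rw [Finset.mem_filter] at hn ⊢
    exact ⟨Finset.mem_univ _, hn.2⟩
  · intro a _ b _ hab
    exact Subtype.ext hab
  · intro t ht
    rw [Finset.mem_filter] at ht
    refine ⟨⟨t, hP ht.2⟩, ?_, rfl⟩
    rw [Finset.mem_filter]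
    exact ⟨Finset.mem_univ _, ht.2⟩
  · intro n _
    rfl

end Restrict

end TRFX

open _root_.Pool.Agent.DPX.TRFX in
theorem TRFX_thm (h1 : Stmt_GCX) (h2 : Stmt_BKNX) (h3 : Stmt_RPRX) : Stmt_TRFX := by
  intro ℓ n _ F T V V' _ _ _ _ _ _ _ _ P₁ P _ x₀ e hB ρ ρ' φ hφ hφe
  classical
  obtain ⟨hPN, hBN⟩ := h2.2 ℓ n F T P₁ P x₀ e hB
  have hx : x₀ ∈ Subgroup.normalizer (P₁ : Set T) := by
    rw [Subgroup.mem_normalizer_iff]
    intro u
    have hc : ∀ v ∈ P₁, v * x₀ = x₀ * v := fun v hv => hB.cd.cen v (hB.cd.le hv)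
    constructor
    · intro hu
      rw [← hc u hu, mul_inv_cancel_right]
      exact hu
    · intro hu
      have h4 := hc _ hu
      have h5 : x₀ * u * x₀⁻¹ = u := by
        have h6 : x₀ * u * x₀⁻¹ * x₀ = x₀ * (x₀ * u * x₀⁻¹) := h4
        rw [inv_mul_cancel_right] at h6
        exact (mul_left_cancel h6).symm
      rw [h5] at hu
      exact hu
  obtain ⟨-, hBN2⟩ := hBN hx
  obtain ⟨α, hα, hαe⟩ := h3 ℓ n F (NP P₁) V' _ _ _ _ hBN2 (rN P₁ ρ')
  obtain ⟨g1, g2, -, -⟩ := h1 ℓ T P₁ hB.cd.c1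
  have hPp : IsPGroup ℓ P := IsPGroup.of_card hB.cd.card
  set P' : Subgroup (NP P₁) := P.subgroupOf (Subgroup.normalizer (P₁ : Set T)) with hP'
  -- the map `α φ`
  have hf : ∀ p ∈ P, ∀ v, (α ∘ₗ φ) (ρ p v) = ρ' p ((α ∘ₗ φ) v) := by
    intro p hp v
    have h4 := hφ ⟨p, hPN hp⟩ v
    have h5 := hα ⟨p, hPN hp⟩ hp (φ v)
    change α (φ (ρ p v)) = ρ' p (α (φ v))
    have h6 : φ (ρ p v) = ρ' p (φ v) := h4
    have h7 : α (ρ' p (φ v)) = ρ' p (α (φ v)) := h5
    rw [h6, h7]
  have hT : trC P ρ ρ' (α ∘ₗ φ) = ∑ q : T ⧸ P, cjq hf q := trC_eq hf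
  have hΨ : Eqv ρ ρ' (trC P ρ ρ' (α ∘ₗ φ)) := by
    intro g v
    rw [hT, LinearMap.sum_apply, LinearMap.sum_apply, map_sum]
    rw [← Equiv.sum_comp (MulAction.toPerm g)]
    refine Finset.sum_congr rfl fun q _ => ?_
    exact cjq_smul hf g q v
  -- the cosets in the normalizer
  set S : Finset (T ⧸ P) :=
    Finset.univ.filter (fun q => ∃ t ∈ Subgroup.normalizer (P₁ : Set T), (t : T ⧸ P) = q) with hS
  have hN : ∀ t : T, ((t : T ⧸ P) ∈ S) ↔ t ∈ Subgroup.normalizer (P₁ : Set T) := by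
    intro t
    rw [hS, Finset.mem_filter]
    constructor
    · rintro ⟨-, s, hs, hst⟩
      have h4 := hPN (QuotientGroup.eq.1 hst)
      have h5 := (Subgroup.normalizer (P₁ : Set T)).mul_mem hs h4
      rwa [mul_inv_cancel_left] at h5
    · intro h
      exact ⟨Finset.mem_univ _, t, h, rfl⟩
  have hsplit : trC P ρ ρ' (α ∘ₗ φ) = ∑ q ∈ S, cjq hf q + ∑ q ∈ Sᶜ, cjq hf q := by
    rw [hT, Finset.sum_add_sum_compl]
  have hfix : ∑ q ∈ S, cjq hf q = trC P' (rN P₁ ρ) (rN P₁ ρ') (α ∘ₗ φ) := by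
    unfold trC
    symm
    refine Finset.sum_bij (fun q _ => ((q.out : T) : T ⧸ P)) ?_ ?_ ?_ ?_
    · intro q _
      exact (hN _).2 q.out.2
    · intro a _ b _ hab
      have h4 := QuotientGroup.eq.1 hab
      have h5 : (a.out)⁻¹ * b.out ∈ P' := h4
      have h6 := QuotientGroup.eq.2 h5
      rw [QuotientGroup.out_eq', QuotientGroup.out_eq'] at h6
      exact h6
    · intro q hq
      induction q using QuotientGroup.induction_on with
      | H t =>
        have ht := (hN t).1 hq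
        refine ⟨((⟨t, ht⟩ : NP P₁) : NP P₁ ⧸ P'), Finset.mem_univ _, ?_⟩
        rw [QuotientGroup.eq]
        have h6 : (((⟨t, ht⟩ : NP P₁) : NP P₁ ⧸ P').out)⁻¹ * (⟨t, ht⟩ : NP P₁) ∈ P' := by
          rw [← QuotientGroup.eq, QuotientGroup.out_eq']
        exact h6
    · intro q _
      rfl
  have hfix2 : ∑ q ∈ S, cjq hf q = φ := by
    rw [hfix, ← trC_comp P' (rN P₁ ρ) (rN P₁ ρ') α φ hφ, hαe, hφe]
  -- the other cosets
  have hrest : ∑ q ∈ Sᶜ, cjq hf q ∈
      (({ carrier := {x | ∃ g, x = trS P ρ ρ' g}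
          add_mem' := by
            rintro a b ⟨g, rfl⟩ ⟨g', rfl⟩
            exact ⟨g + g', (trS_add P ρ ρ' g g').symm⟩
          zero_mem' := ⟨0, (trS_zero P ρ ρ').symm⟩ } : AddSubmonoid (V →ₗ[F] V'))) := by
    refine sum_mem_free (P := P) _ (fun q => cjq hf q) ?_ _ _ le_rfl ?_ ?_
    · intro q
      refine ⟨cjq hf q, ?_⟩
      unfold trS
      rw [← Finset.sum_filter, Finset.sum_subtype (Finset.univ.filter fun h => h ∈ P)
        (p := fun h => h ∈ P) (by intro x; simp)]
      refine Finset.sum_congr rfl fun p _ => ?_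
      refine LinearMap.ext fun v => ?_
      have h4 := cjq_smul hf (p : T) q (ρ (p : T)⁻¹ v)
      have h5 : ρ (p : T) (ρ (p : T)⁻¹ v) = v := by
        rw [← Module.End.mul_apply, ← map_mul, mul_inv_cancel, map_one, Module.End.one_apply]
      rw [h5] at h4
      exact h4
    · intro p q hq
      rw [Finset.mem_compl] at hq ⊢
      intro h
      apply hq
      induction q using QuotientGroup.induction_on with
      | H t =>
        have h4 : p • (t : T ⧸ P) = (((p : T) * t : T) : T ⧸ P) := rfl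
        rw [h4, hN] at h
        rw [hN]
        have h5 := (Subgroup.normalizer (P₁ : Set T)).mul_mem
          ((Subgroup.normalizer (P₁ : Set T)).inv_mem (hPN p.2)) h
        rwa [inv_mul_cancel_left] at h5
    · intro p q hq hpq
      by_contra hp1
      rw [Finset.mem_compl] at hq
      apply hq
      induction q using QuotientGroup.induction_on with
      | H t =>
        rw [hN]
        have h4 : (((p : T) * t : T) : T ⧸ P) = (t : T ⧸ P) := hpq
        have h5 := QuotientGroup.eq.1 h4.symm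
        have hp1' : (p : T) ≠ 1 := fun h => hp1 (Subtype.ext h)
        have h6 : P₁ ≤ Subgroup.zpowers (p : T) := g2 P hB.cd.cyc hB.cd.le hPp p p.2 hp1'
        -- the conjugate subgroup
        have h7 : ∀ u ∈ P₁, t⁻¹ * u * t ∈ P := by
          intro u hu
          obtain ⟨k, hk⟩ := Subgroup.mem_zpowers_iff.1 (h6 hu)
          have h8 : t⁻¹ * u * t = (t⁻¹ * (p * t)) ^ k := by
            rw [← hk, ← mul_assoc]
            have := (map_zpow (MulAut.conj t⁻¹) (p : T) k)
            simp only [MulAut.conj_apply, inv_inv] at this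
            exact this
          rw [h8]
          exact P.zpow_mem h5 k
        have h9 : (P₁.map (MulAut.conj t⁻¹).toMonoidHom) = P₁ := by
          apply g1 P hB.cd.cyc hB.cd.le
          · rintro _ ⟨u, hu, rfl⟩
            have := h7 u hu
            simpa using this
          · rw [Subgroup.card_map_of_injective (MulAut.conj t⁻¹).injective]
            exact hB.cd.c1
        have h10 : t⁻¹ ∈ Subgroup.normalizer (P₁ : Set T) := by
          apply Subgroup.mem_normalizer_fintype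
          intro u hu
          have h11 : (MulAut.conj t⁻¹).toMonoidHom u ∈ P₁.map (MulAut.conj t⁻¹).toMonoidHom :=
            ⟨u, hu, rfl⟩
          rw [h9] at h11
          exact h11
        have := (Subgroup.normalizer (P₁ : Set T)).inv_mem h10
        rwa [inv_inv] at this
  obtain ⟨g0, hg0⟩ := hrest
  have hΨ2 : trC P ρ ρ' (α ∘ₗ φ) = φ + trS P ρ ρ' g0 := by
    rw [hsplit, hfix2, hg0]
  refine ⟨trC P ρ ρ' (α ∘ₗ φ), hΨ, α ∘ₗ g0, ?_⟩
  -- `trS P g0` commutes with the normalizer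
  have hΘ : Eqv (rN P₁ ρ) (rN P₁ ρ') (trS P ρ ρ' g0) := by
    have h4 : trS P ρ ρ' g0 = trC P ρ ρ' (α ∘ₗ φ) - φ := by
      rw [hΨ2, add_sub_cancel_left]
    intro g v
    rw [h4, LinearMap.sub_apply, LinearMap.sub_apply, map_sub, hφ g v]
    congr 1
    exact hΨ (g : T) v
  have h5 : Zop (rN P₁ ρ') (brz P₁ e) ∘ₗ trS P ρ ρ' g0 =
      tr1 (rN P₁ ρ) (rN P₁ ρ') (α ∘ₗ g0) := by
    rw [← hαe, trC_comp P' (rN P₁ ρ) (rN P₁ ρ') α _ hΘ, tr1_eq P',
      ← trS_restrict ρ ρ' P₁ P hPN g0, comp_trS P' (rN P₁ ρ) (rN P₁ ρ') α hα g0]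
  rw [hΨ2, LinearMap.comp_add, hφe, h5]

end Pool.Agent.DPX


end

section

/-!
# Theorem X, ADMX: the property of belonging to a block with cyclic defect groups is admissible
-/

namespace Pool.Agent.DPX

open Pool.Agent.DP Pool.Agent.DPV Pool.Agent.DPB Pool.Agent.DPW Pool.Agent.Lib_helper13
open Representation

namespace ADMX

variable {G B : Type} [Group G] [Group B]

theorem mem_cent_iff (κ : B →* MulAut G) (b : B) (x a : G) :
    a ∈ Subgroup.centralizer ({x} : Set G) ↔
      κ b a ∈ Subgroup.centralizer ({κ b x} : Set G) := by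
  rw [Subgroup.mem_centralizer_singleton_iff, Subgroup.mem_centralizer_singleton_iff,
    ← map_mul, ← map_mul]
  exact (κ b).injective.eq_iff.symm

theorem card_cent (κ : B →* MulAut G) (b : B) (x : G) :
    Nat.card (Subgroup.centralizer ({κ b x} : Set G)) =
      Nat.card (Subgroup.centralizer ({x} : Set G)) :=
  (Nat.card_congr (Equiv.subtypeEquiv (κ b).toEquiv fun a => mem_cent_iff κ b x a)).symm

/-- The condition on the `ℓ`-subgroups of a centralizer is invariant. -/
theorem cyc_of (ℓ : ℕ) (κ : B →* MulAut G) (b : B) (x : G)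
    (h : ∀ Q : Subgroup G, IsPGroup ℓ Q → Q ≤ Subgroup.centralizer ({x} : Set G) → IsCyclic Q) :
    ∀ Q : Subgroup G, IsPGroup ℓ Q → Q ≤ Subgroup.centralizer ({κ b x} : Set G) →
      IsCyclic Q := by
  intro Q hQ hle
  have h1 : ∀ y, κ b ((κ b).symm y) = y := fun y => (κ b).apply_symm_apply y
  have hc : IsCyclic (Q.map (κ b).symm.toMonoidHom) := by
    apply h _ (hQ.map _)
    rintro _ ⟨u, hu, rfl⟩
    change (κ b).symm u ∈ Subgroup.centralizer ({x} : Set G)
    rw [mem_cent_iff κ b, h1]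
    exact hle hu
  let f : Q →* Q.map (κ b).symm.toMonoidHom :=
    ((κ b).symm.toMonoidHom.comp Q.subtype).codRestrict _ fun u => ⟨u, u.2, rfl⟩
  refine isCyclic_of_injective f ?_
  intro a c hac
  have h2 : (κ b).symm (a : G) = (κ b).symm (c : G) := congrArg Subtype.val hac
  exact Subtype.ext ((κ b).symm.injective h2)

end ADMX

open _root_.Pool.Agent.DPX.ADMX in
theorem ADMX_thm : Stmt_ADMX := by
  intro G B _ _ _ 𝔐 ℓ _ h𝔐 κ
  constructor
  · rintro b ω ⟨⟨x, hx, hx2⟩, h⟩
    refine ⟨⟨κ b x, hx, cyc_of ℓ κ b x hx2⟩, ?_⟩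
    intro y hy
    have h1 : κ b ((κ b).symm y) = y := (κ b).apply_symm_apply y
    have h2 := h ((κ b).symm y) (by
      change ω (κ b ((κ b).symm y)) ≠ 0
      rwa [h1])
    rwa [← card_cent κ b, h1] at h2
  · intro ω
    have hf : IsDomain ((integralClosure ℤ ℂ) ⧸ 𝔐) := Ideal.Quotient.isDomain 𝔐
    have h0 : ∀ x, (ω x ^ ℓ ≠ 0 ↔ ω x ≠ 0) := fun x =>
      not_congr (pow_eq_zero_iff (Fact.out : ℓ.Prime).ne_zero)
    simp only [DX, h0]

end Pool.Agent.DPX


end
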