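import Mathlib
import Pool.Agent.DAM.C05
import Pool.Agent.DAM.C07
import Pool.Agent.DAM.C08
import Pool.Agent.DAM.C12
import Pool.Agent.DAM.C13
import Pool.Agent.DAM.C14
import Pool.Agent.DAM.C19
import Pool.Agent.DAM.C23
import Pool.Agent.DAM.C25
import Pool.Agent.DAM.C43
import Pool.Agent.DAM.C48

/-! Parts: DPM.PHT, DP.PERB, DP.VV, DP.PERBR, DPV.PERBV, DPC.VVC, DPW.FXG -/

section

/-!
# PHT: the sum over the chains of `M` for the whole group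
-/

namespace Pool.Agent.DPM

open Pool.Agent.DP Pool.Agent.DPC Pool.Agent.Lib_helper13 Representation
open Pool.Agent.Lib_helper13.Dade (pCore DadeHolds dadeSum)

set_option linter.unusedSectionVars false

namespace PHT

/-- Monotonicity. -/
theorem HQ_mono {ℓ m n : ℕ} (h : HQ ℓ n) (hmn : m ≤ n) : HQ ℓ m := by
  intro Y _ _ h1 h2
  exact h Y h1 (h2.trans hmn)

section

variable {X : Type} [Group X] [Fintype X] (𝔐 : Ideal (integralClosure ℤ ℂ))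
  (M : Subgroup X) [M.Normal]

theorem clG : ClG M.subtype (MulAut.conjNormal : X →* MulAut M) (QuotientGroup.mk' M) where
  inj := Subtype.coe_injective
  act := by
    intro y a
    exact MulAut.conjNormal_apply y a
  ker := by
    intro y
    rw [Subgroup.range_subtype, ← MonoidHom.mem_ker, QuotientGroup.ker_mk']

/-- The central function on `M` of a character over `θ`. -/
theorem cen_under (h5 : Stmt_RCE) {χ : X → ℂ} {θ : M → ℂ} (hχ : IsIrr χ) (hθ : IsIrr θ)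
    (h : ip (resj M.subtype χ) θ ≠ 0) :
    ∀ g ∈ M, cen 𝔐 (MonoidHom.id X) χ g = cen 𝔐 M.subtype θ g := by
  intro g hg
  have h1 := h5 M X (X ⧸ M) X 𝔐 M.subtype MulAut.conjNormal (QuotientGroup.mk' M) (clG M)
    (MonoidHom.id X) M inferInstance (fun t ht => by
      rw [Subgroup.range_subtype]
      exact ht) χ θ hχ hθ h g hg
  rw [h1, MonoidHom.id_comp]

theorem ip_conj {χ : X → ℂ} (hχ : IsIrr χ) (θ : M → ℂ) (x : X) :
    ip (resj M.subtype χ) (fun m : M => θ (MulAut.conjNormal x m)) =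
      ip (resj M.subtype χ) θ := by
  rw [ip, ip]
  refine congrArg (fun z : ℂ => z / (Nat.card M : ℂ)) ?_
  refine Fintype.sum_equiv (MulAut.conjNormal x : MulAut M).toEquiv _ _ fun m => ?_
  have h1 : resj M.subtype χ m = resj M.subtype χ ((MulAut.conjNormal x : MulAut M) m) := by
    rw [resj, resj]
    have h2 : M.subtype ((MulAut.conjNormal x : MulAut M) m) = x * M.subtype m * x⁻¹ :=
      MulAut.conjNormal_apply x m
    rw [h2, hχ.conj_eq]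
  rw [h1]
  have h3 : (MulAut.conjNormal x : MulAut M) m⁻¹ = ((MulAut.conjNormal x : MulAut M) m)⁻¹ :=
    map_inv _ _
  rw [h3]
  rfl

/-- A character over a character of defect zero which agrees with `χ` on `M`. -/
theorem no_dz (h5 : Stmt_RCE) (h6 : Stmt_CVX) (ℓ : ℕ) [Fact ℓ.Prime] (h𝔐 : 𝔐.IsMaximal)
    (hℓ : (ℓ : integralClosure ℤ ℂ) ∈ 𝔐) {χ χ1 : X → ℂ} {ξ θ : M → ℂ} (hχ : IsIrr χ)
    (hξ : IsIrr ξ) (h : ip (resj M.subtype χ) ξ ≠ 0) (hχ1 : IsIrr χ1) (hθ : IsIrr θ)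
    (hθ0 : HasDefect ℓ θ 0) (h1 : ip (resj M.subtype χ1) θ ≠ 0)
    (hc : ∀ g ∈ M, cen 𝔐 (MonoidHom.id X) χ1 g = cen 𝔐 (MonoidHom.id X) χ g) :
    HasDefect ℓ ξ 0 := by
  have : 𝔐.IsPrime := h𝔐.isPrime
  have h2 : ∀ g ∈ M, cen 𝔐 M.subtype ξ g = cen 𝔐 M.subtype θ g := by
    intro g hg
    rw [← cen_under 𝔐 M h5 hχ hξ h g hg, ← cen_under 𝔐 M h5 hχ1 hθ h1 g hg, hc g hg]
  obtain ⟨x, hx1, hx2, hx3⟩ := h6 X 𝔐 ℓ h𝔐 hℓ M ξ θ hξ hθ h2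
  exact defect_zero_of_cen 𝔐 hℓ hx1 ((hx3 0).mpr hθ0) (MonoidHom.id M) hξ
    (fun g => congrFun hx2.symm g)

end

end PHT

open _root_.Pool.Agent.DPM.PHT in
theorem PHT_thm (h1 : Stmt_PSI) (h2 : Stmt_PSA) (h3 : Stmt_PSE) (h4 : Stmt_MXM)
    (h5 : Stmt_RCE) (h6 : Stmt_CVX) : Stmt_PHT := by
  intro X _ _ 𝔐 ℓ _ h𝔐 hℓ hp hHQ M _ χ ξ hχ hξ hip hξ0 hU d hKK
  have : 𝔐.IsPrime := h𝔐.isPrime
  have hPSt : ∀ (L : Type) [Group L] [Fintype L],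
      (Subgroup.center L).index < (Subgroup.center X).index → PSt ℓ L := by
    intro L _ _ hL
    exact h1 ℓ L (HQ_mono hHQ (by omega))
  have hII : KK 𝔐 ℓ d (⊥ : Subgroup X) (cen 𝔐 (MonoidHom.id X) χ) =
      II 𝔐 ℓ d M (MonoidHom.id X) (cen 𝔐 (MonoidHom.id X) χ) := by
    by_contra hne
    obtain ⟨c, hc, hc0, hc1⟩ := (h2 X 𝔐 ℓ M d (cen 𝔐 (MonoidHom.id X) χ)).2 ⊥ bot_le
      IsPGroup.of_bot (bot_inf_eq M) hne
    obtain ⟨χ1, θ, hχ1, hθ, hθ0, h7, h8⟩ := h3 X 𝔐 ℓ h𝔐 hℓ ⊥ M (by rw [hp, bot_inf_eq])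
      (bot_inf_eq M) hPSt c hc hc0 d _ hc1
    exact hξ0 (no_dz 𝔐 M h5 h6 ℓ h𝔐 hℓ hχ hξ hip hχ1 hθ hθ0 h7 (fun g _ => congrFun h8 g))
  have hII0 : II 𝔐 ℓ d M (MonoidHom.id X) (cen 𝔐 (MonoidHom.id X) χ) ≠ 0 := by
    rw [← hII]
    exact hKK
  obtain ⟨F, hF1, hF2, hF3⟩ := h4 X X 𝔐 ℓ h𝔐 hℓ M (MonoidHom.id X) M d
    (cen 𝔐 (MonoidHom.id X) χ)
  have hχF : cen 𝔐 (MonoidHom.id X) χ ∈ F := hF3 χ hχ (fun _ _ => rfl) hII0
  rw [hF1, Finset.sum_eq_single (cen 𝔐 (MonoidHom.id X) χ)]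
  · exact hII0
  · intro ω' hω' hne
    by_contra hn
    apply hne
    rw [II] at hn
    obtain ⟨τ, hτ, h7⟩ := Finset.exists_ne_zero_of_sum_ne_zero hn
    have h8 : cnt 𝔐 ℓ d ((MonoidHom.id X).comp (stb (mapCh M.subtype τ)).subtype) ω' ≠ 0 := by
      intro h8
      rw [h8, Nat.cast_zero, mul_zero, mul_zero] at h7
      exact h7 rfl
    rw [cnt, Nat.card_ne_zero] at h8
    obtain ⟨⟨ψ, hψ, -, h9⟩⟩ := h8.1
    have hτ' : IsCh ℓ (⊥ : Subgroup X) (mapCh M.subtype τ) := by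
      have h10 := (isCh_mapCh_iff (i := M.subtype) Subtype.coe_injective).mpr (mem_Ch.mp hτ)
      rw [Subgroup.map_bot] at h10
      exact h10
    obtain ⟨χ1, hχ1, h10⟩ := exists_irr_of_mult 𝔐 hψ (exists_irr_of_chain 𝔐 hℓ hτ' hψ)
    have h11 : cen 𝔐 (MonoidHom.id X) χ1 = ω' := by
      rw [h10]
      funext g
      rw [← h9 g, MonoidHom.id_comp]
    have h12 : ∀ g ∈ M, cen 𝔐 (MonoidHom.id X) χ1 g = cen 𝔐 (MonoidHom.id X) χ g :=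
      hF2 ω' hω' χ1 hχ1 h11
    obtain ⟨ξ1, hξ1, h13⟩ := Cliff.exists_under hχ1 M.subtype
    have h14 : ∀ g ∈ M, cen 𝔐 M.subtype ξ g = cen 𝔐 M.subtype ξ1 g := by
      intro g hg
      rw [← cen_under 𝔐 M h5 hχ hξ hip g hg, ← cen_under 𝔐 M h5 hχ1 hξ1 h13 g hg, h12 g hg]
    obtain ⟨x, hx1, hx2, -⟩ := h6 X 𝔐 ℓ h𝔐 hℓ M ξ ξ1 hξ hξ1 h14
    rw [← h11]
    exact hU χ1 (fun m : M => ξ1 (MulAut.conjNormal x m)) hχ1 hx1
      (by rw [ip_conj M hχ1]; exact h13) hx2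
  · intro hn
    exact absurd hχF hn

end Pool.Agent.DPM


end

section

/-!
# PERB: standardization
-/

namespace Pool.Agent.DP.PERB

open Pool.Agent.Lib_helper13 Representation

section Tr

variable {O G : Type*} [Group G] {τ : Finset (Subgroup (O → G))} {θ : O → G → ℂ}

theorem trP_inv {a b : O} {g : G} (h : trP τ θ a b g) : trP τ θ b a g⁻¹ := by
  obtain ⟨h1, h2⟩ := h
  refine ⟨?_, ?_⟩
  · intro D hD
    rw [← h1 D hD, Subgroup.map_map]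
    have h : ((MulAut.conj g⁻¹).toMonoidHom).comp (MulAut.conj g).toMonoidHom =
        MonoidHom.id G := by
      ext x
      simp [mul_assoc]
    rw [h, Subgroup.map_id]
  · intro x
    rw [← h2]
    congr 1
    group

theorem trP_comp {a b c : O} {g g' : G} (h : trP τ θ a b g) (h' : trP τ θ b c g') :
    trP τ θ a c (g' * g) := by
  obtain ⟨h1, h2⟩ := h
  obtain ⟨h1', h2'⟩ := h'
  refine ⟨?_, ?_⟩
  · intro D hD
    rw [← h1' D hD, ← h1 D hD, Subgroup.map_map]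
    congr 1
    ext x
    simp [mul_assoc]
  · intro x
    rw [← h2, ← h2']
    congr 1
    group

end Tr

theorem cg_conj {G : Type*} [Group G] [Fintype G] (𝔐 : Ideal (integralClosure ℤ ℂ))
    {f f' : G → ℂ} (g : G) (h : ∀ x, f' (g * x * g⁻¹) = f x) : cg 𝔐 f = cg 𝔐 f' := by
  ext h0
  unfold cg
  have h1 : f 1 = f' 1 := by
    rw [← h 1]
    simp
  have h2 : ∑ x, conjInd x h0 * f x = ∑ x, conjInd x h0 * f' x := by
    refine Fintype.sum_equiv (MulAut.conj g).toEquiv _ _ fun x => ?_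
    change conjInd x h0 * f x = conjInd (g * x * g⁻¹) h0 * f' (g * x * g⁻¹)
    rw [conjInd_conj, h]
  rw [h1, h2]

/-- a character of defect zero -/
theorem dz (hD : Stmt_DZT) {G : Type} [Group G] [Fintype G] {ℓ : ℕ} [Fact ℓ.Prime]
    {σ : Finset (Subgroup G)} (hσ : IsCh ℓ ⊥ σ) {f : G → ℂ} (hf : IrrOn (stb σ) f)
    (h0 : df ℓ (stb σ) f = 0) : stb σ = ⊤ := by
  classical
  have hi := hf.1
  obtain ⟨n, hn, h1⟩ := hi.exists_degree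
  have hdvd := hi.degree_dvd h1
  have h1' : f 1 = n := by
    simpa using h1
  have hv : padicValNat ℓ n ≤ padicValNat ℓ (Nat.card (stb σ)) :=
    (padicValNat_dvd_iff_le (p := ℓ) Nat.card_pos.ne').mp
      ((pow_padicValNat_dvd).trans hdvd)
  have hfl : ⌊(f 1).re⌋₊ = n := by
    rw [h1']
    simp
  unfold df at h0
  rw [hfl] at h0
  have hdef : HasDefect ℓ (fun s : stb σ => f s) 0 := by
    refine ⟨n, h1, ?_⟩
    omega
  have he := hD G ℓ σ hσ _ hi hdef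
  rw [he, stb_empty]

end Pool.Agent.DP.PERB

namespace Pool.Agent.DP

open Pool.Agent.Lib_helper13 Representation

/-- MODULE PERB -/
theorem PERB_thm (h1 : Stmt_TRC) (h2 : Stmt_DZT) (h3 : Stmt_TENS) : Stmt_PERB := by
  intro O G _ _ _ _ 𝔐 ℓ _ τ θ hτ hθ
  classical
  obtain ⟨hch, hcl⟩ := mem_ClCh.mp hτ
  obtain ⟨t1, t2, t3⟩ := h1 O G τ θ hθ
  -- representatives
  obtain ⟨r, hr1, hr2⟩ : ∃ r : O → O, (∀ o, prt τ θ (r o) o) ∧
      ∀ x y, prt τ θ x y → r x = r y := by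
    refine ⟨fun o => (Quotient.mk (prt τ θ) o).out, fun o => ?_, fun x y hxy => ?_⟩
    · exact Quotient.mk_out (s := prt τ θ) o
    · have : Quotient.mk (prt τ θ) x = Quotient.mk (prt τ θ) y := Quotient.sound hxy
      simp only [this]
  have hr3 : ∀ o, ∃ g, trP τ θ (r o) o g := fun o => hr1 o
  choose g hg using hr3
  have hmd : ∀ a, ∃ m M, MD (stb (comp τ a)) (θ a) m M := fun a =>
    h3.1 G (stb (comp τ a)) (θ a) (hθ a)
  choose mm MM hM using hmd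
  refine ⟨g, fun o => stb (comp τ (r o)), fun o => θ (r o), fun o => mm (r o),
    fun o => MM (r o), ⟨?_, ?_, ?_, ?_, ?_, ?_, ?_, ?_⟩, ?_, ?_, ?_⟩
  · intro x y hxy
    simp only [hr2 x y hxy]
  · intro x y hxy
    simp only [hr2 x y hxy]
  · intro x y hxy
    simp only [hr2 x y hxy]
  · intro x y hxy
    simp only [hr2 x y hxy]
  · exact fun o => hθ (r o)
  · exact fun o => hM (r o)
  · exact fun o h => PERB.dz h2 (comp_isCh hch (r o)) (hθ (r o)) h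
  · exact fun o => PERB.cg_conj 𝔐 (g o) (hg o).2
  · intro o
    have h4 := t2 (r o) o (g o) (hg o)
    simp only
    rw [← h4, Subgroup.map_map]
    have h : ((MulAut.conj (g o)⁻¹).toMonoidHom).comp (MulAut.conj (g o)).toMonoidHom =
        MonoidHom.id G := by
      ext x
      simp [mul_assoc]
    rw [h, Subgroup.map_id]
  · intro o x
    exact ((hg o).2 x).symm
  · intro a b x hab
    have hrab := hr2 a b hab
    have e1 : trP τ θ (r b) (r b) ((g b)⁻¹ * x * g a) ↔ trP τ θ a b x := by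
      constructor
      · intro h
        have h5 := PERB.trP_comp (PERB.trP_inv (hrab ▸ hg a)) (PERB.trP_comp h (hg b))
        have e : g b * ((g b)⁻¹ * x * g a) * (g a)⁻¹ = x := by group
        rwa [e] at h5
      · intro h
        have h5 := PERB.trP_comp (hrab ▸ hg a) (PERB.trP_comp h (PERB.trP_inv (hg b)))
        exact h5
    rw [← e1, t1]

end Pool.Agent.DP


end

section

/-!
# VV: the local sum vanishes outside the type of defect zero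
-/

namespace Pool.Agent.DP

open Pool.Agent.Lib_helper13 Representation
open Pool.Agent.Lib_helper13.Dade (pCore DadeHolds)

namespace VV

/-- The indicator of a proposition. -/
noncomputable def ind (p : Prop) : ℚ := @ite ℚ p (Classical.propDecidable p) 1 0

theorem ite_eq_ind (p : Prop) [Decidable p] : (if p then (1 : ℚ) else 0) = ind p := by
  unfold ind
  by_cases h : p
  · rw [if_pos h, if_pos h]
  · rw [if_neg h, if_neg h]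

theorem ind_pos {p : Prop} (h : p) : ind p = 1 := by
  unfold ind
  exact if_pos h

theorem ind_neg {p : Prop} (h : ¬ p) : ind p = 0 := by
  unfold ind
  exact if_neg h

theorem ind_and (p q : Prop) : ind (p ∧ q) = ind p * ind q := by
  by_cases hp : p
  · by_cases hq : q
    · rw [ind_pos ⟨hp, hq⟩, ind_pos hp, ind_pos hq, one_mul]
    · rw [ind_neg (fun h => hq h.2), ind_neg hq, mul_zero]
  · rw [ind_neg (fun h => hp h.1), ind_neg hp, zero_mul]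

theorem ind_congr {p q : Prop} (h : p ↔ q) : ind p = ind q := by
  rw [propext h]

section

variable {G B C : Type} [Group G] [Fintype G] [Group B] [Fintype B] [Group C]
  {ι : G →* B} {κ : B →* MulAut G} {ρ : B →* C}

omit [Fintype G] [Fintype B] in
theorem KL_inf (σ : Finset (Subgroup G)) (ψ : G → ℂ) {L' L : Subgroup C} (h : L' ≤ L) :
    L' ⊓ KL κ ρ σ ψ L = KL κ ρ σ ψ L' := by
  rw [KL, KL, inf_left_comm, inf_eq_left.mpr h]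

omit [Fintype G] [Fintype B] in
theorem KL_eq_iff (σ : Finset (Subgroup G)) (ψ : G → ℂ) (L : Subgroup C) :
    KL κ ρ σ ψ L = L ↔ L ≤ (Stx κ σ ψ).map ρ := inf_eq_right

omit [Fintype B] in
theorem trn_trn {A : Type*} [Zero A] (L' L'' : Subgroup C) (u : B → A) :
    trn ρ L' (trn ρ L'' u) = trn ρ (L' ⊓ L'') u := by
  classical
  funext x
  simp only [trn, Subgroup.mem_inf]
  by_cases h1 : ρ x ∈ L'
  · by_cases h2 : ρ x ∈ L''
    · rw [if_pos h1, if_pos h2, if_pos ⟨h1, h2⟩]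
    · rw [if_pos h1, if_neg h2, if_neg (fun h => h2 h.2)]
  · rw [if_neg h1, if_neg (fun h => h1 h.1)]

omit [Fintype B] in
theorem trn_of_mem {A : Type*} [Zero A] (L : Subgroup C) (u : B → A) {x : B} (h : ρ x ∈ L) :
    trn ρ L u x = u x := by
  classical
  rw [trn, if_pos h]

omit [Fintype G] [Fintype B] in
theorem trn_ext {σ : Finset (Subgroup G)} {ψ : G → ℂ} {L : Subgroup C} {f : B → ℂ}
    (hf : ExtL ι κ ρ σ ψ L f) : trn ρ (KL κ ρ σ ψ L) f = f := by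
  classical
  funext x
  rw [trn]
  split_ifs with h
  · rfl
  · symm
    apply hf.1.2
    intro hx
    apply h
    exact ⟨⟨x, hx.1, rfl⟩, hx.2⟩

open Classical in
/-- The finite set of extensions. -/
noncomputable def extF (ι : G →* B) (κ : B →* MulAut G) (ρ : B →* C) (σ : Finset (Subgroup G))
    (ψ : G → ℂ) (L : Subgroup C) : Finset (B → ℂ) :=
  (irrOn (Stx κ σ ψ ⊓ L.comap ρ)).filter (fun f => ExtL ι κ ρ σ ψ L f)

omit [Fintype G] in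
theorem mem_extF {σ : Finset (Subgroup G)} {ψ : G → ℂ} {L : Subgroup C} {f : B → ℂ} :
    f ∈ extF ι κ ρ σ ψ L ↔ ExtL ι κ ρ σ ψ L f := by
  classical
  rw [extF, Finset.mem_filter]
  exact ⟨fun h => h.2, fun h => ⟨IRRPI.mem_irrOn.mpr h.1, h⟩⟩

omit [Fintype G] in
theorem card_extF (σ : Finset (Subgroup G)) (ψ : G → ℂ) (L : Subgroup C)
    (P : (B → ℂ) → Prop) :
    (Nat.card {f : B → ℂ // ExtL ι κ ρ σ ψ L f ∧ P f} : ℚ) =
      ∑ f ∈ extF ι κ ρ σ ψ L, ind (P f) := by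
  classical
  have h1 : Nat.card {f : B → ℂ // ExtL ι κ ρ σ ψ L f ∧ P f} =
      ((extF ι κ ρ σ ψ L).filter P).card := by
    apply Nat.subtype_card
    intro f
    rw [Finset.mem_filter, mem_extF]
  rw [h1, ← Finset.sum_boole]
  exact Finset.sum_congr rfl fun f _ => ite_eq_ind _

omit [Fintype G] [Fintype B] in
theorem comm_of (hL : IsCyclic C) (a b : C) : a * b = b * a := by
  obtain ⟨g, hg⟩ := hL.exists_generator
  obtain ⟨i, hi⟩ := hg a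
  obtain ⟨k, hk⟩ := hg b
  have h1 : g ^ i = a := hi
  have h2 : g ^ k = b := hk
  rw [← h1, ← h2]
  exact (Commute.refl g).zpow_zpow i k

omit [Fintype B] in
theorem conj_mem (hL : IsCyclic C) (L : Subgroup C) (t y : B) :
    ρ (t * y * t⁻¹) ∈ L ↔ ρ y ∈ L := by
  have h : ρ (t * y * t⁻¹) = ρ y := by
    rw [map_mul, map_mul, comm_of hL (ρ t) (ρ y), map_inv, mul_assoc, mul_inv_cancel, mul_one]
  rw [h]

variable {ℓ : ℕ} [Fact ℓ.Prime] (𝔐 : Ideal (integralClosure ℤ ℂ))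

omit [Fact ℓ.Prime] in
theorem trn_cgT (h3 : Stmt_CGT) (hL : LocS ℓ ι κ ρ) (T : Subgroup B) (L' : Subgroup C)
    (f : B → ℂ) : trn ρ L' (cgT 𝔐 T f) = cgT 𝔐 T (trn ρ L' f) := by
  funext x
  exact ((h3 G B C 𝔐 ι κ ρ hL.cl).2.2.2.1 T L' f x
    (fun t _ y => conj_mem hL.cyc L' t y)).symm

theorem stepA (h2 : Stmt_EXTBR) (h3 : Stmt_CGT) (hL : LocS ℓ ι κ ρ) [Finite C]
    {L' L : Subgroup C} (hle : L' ≤ L) {σ : Finset (Subgroup G)} {ψ : G → ℂ}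
    (hψ : IrrOn (stb σ) ψ) (u : B → (integralClosure ℤ ℂ) ⧸ 𝔐) :
    ∑ f ∈ extF ι κ ρ σ ψ L, ((Nat.card (L' ⊓ KL κ ρ σ ψ L : Subgroup C) : ℚ) ^ 2 /
        Nat.card (KL κ ρ σ ψ L)) * ind (trn ρ L' (cgT 𝔐 (L.comap ρ) f) = u) =
      Nat.card (KL κ ρ σ ψ L') *
        ∑ f ∈ extF ι κ ρ σ ψ L', ind (cgT 𝔐 (L.comap ρ) f = u) := by
  rw [KL_inf σ ψ hle, ← Finset.mul_sum, ← card_extF σ ψ L' (fun f => cgT 𝔐 (L.comap ρ) f = u)]
  have e2 : ∑ f ∈ extF ι κ ρ σ ψ L, ind (trn ρ L' (cgT 𝔐 (L.comap ρ) f) = u) =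
      (Nat.card {f : B → ℂ // ExtL ι κ ρ σ ψ L f ∧
        cgT 𝔐 (L.comap ρ) (trn ρ L' f) = u} : ℚ) := by
    rw [card_extF σ ψ L (fun f => cgT 𝔐 (L.comap ρ) (trn ρ L' f) = u)]
    refine Finset.sum_congr rfl fun f _ => ?_
    rw [trn_cgT 𝔐 h3 hL]
  have e3 := (h2 G B C 𝔐 ℓ ι κ ρ hL σ ψ hψ L' L hle).2.1
    (fun f' => cgT 𝔐 (L.comap ρ) f' = u)
  have e4 : (Nat.card (KL κ ρ σ ψ L) : ℚ) *
      Nat.card {f : B → ℂ // ExtL ι κ ρ σ ψ L' f ∧ cgT 𝔐 (L.comap ρ) f = u} =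
      Nat.card (KL κ ρ σ ψ L') * Nat.card {f : B → ℂ // ExtL ι κ ρ σ ψ L f ∧
        cgT 𝔐 (L.comap ρ) (trn ρ L' f) = u} := by
    exact_mod_cast e3
  have hK : (Nat.card (KL κ ρ σ ψ L) : ℚ) ≠ 0 := by
    exact_mod_cast Nat.card_pos.ne'
  rw [e2]
  field_simp
  linear_combination (-1 : ℚ) * e4

theorem stepB (L' L : Subgroup C) (e : ℕ)
    (Θ : (L'.comap ρ → (integralClosure ℤ ℂ) ⧸ 𝔐) → B → (integralClosure ℤ ℂ) ⧸ 𝔐)
    {σ : Finset (Subgroup G)} {ψ : G → ℂ}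
    (hΘ : ∀ f, ExtL ι κ ρ σ ψ L' f →
      cgT 𝔐 (L.comap ρ) f = Θ (fun g => cgT 𝔐 (L'.comap ρ) f g))
    (Om : Finset (L'.comap ρ → (integralClosure ℤ ℂ) ⧸ 𝔐))
    (hOm : ∀ f ∈ extF ι κ ρ σ ψ L',
      (fun g : L'.comap ρ => cgT 𝔐 (L'.comap ρ) f g) ∈ Om)
    (u : B → (integralClosure ℤ ℂ) ⧸ 𝔐) :
    ind (df ℓ (stb σ) ψ = e) *
        ∑ f ∈ extF ι κ ρ σ ψ L', ind (cgT 𝔐 (L.comap ρ) f = u) =
      ∑ ω ∈ Om, ind (Θ ω = u) *
        Nat.card {f : B → ℂ // ExtL ι κ ρ σ ψ L' f ∧ df ℓ (stb σ) ψ = e ∧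
          ∀ g : L'.comap ρ, cgT 𝔐 (L'.comap ρ) f g = ω g} := by
  classical
  have e1 : ∀ ω ∈ Om, ind (Θ ω = u) *
        (Nat.card {f : B → ℂ // ExtL ι κ ρ σ ψ L' f ∧ df ℓ (stb σ) ψ = e ∧
          ∀ g : L'.comap ρ, cgT 𝔐 (L'.comap ρ) f g = ω g} : ℚ) =
      ∑ f ∈ extF ι κ ρ σ ψ L', ind (Θ ω = u) * (ind (df ℓ (stb σ) ψ = e) *
        ind (∀ g : L'.comap ρ, cgT 𝔐 (L'.comap ρ) f g = ω g)) := by
    intro ω _
    rw [card_extF σ ψ L' (fun f => df ℓ (stb σ) ψ = e ∧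
      ∀ g : L'.comap ρ, cgT 𝔐 (L'.comap ρ) f g = ω g), Finset.mul_sum]
    exact Finset.sum_congr rfl fun f _ => by rw [ind_and]
  rw [Finset.sum_congr rfl e1, Finset.sum_comm, Finset.mul_sum]
  refine Finset.sum_congr rfl fun f hf => ?_
  rw [Finset.sum_eq_single (fun g : L'.comap ρ => cgT 𝔐 (L'.comap ρ) f g)]
  · rw [← hΘ f (mem_extF.mp hf), ind_pos (p := ∀ g : L'.comap ρ, cgT 𝔐 (L'.comap ρ) f g =
      (fun g : L'.comap ρ => cgT 𝔐 (L'.comap ρ) f g) g) (fun g => rfl)]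
    ring
  · intro ω _ hω
    rw [ind_neg (p := ∀ g : L'.comap ρ, cgT 𝔐 (L'.comap ρ) f g = ω g)]
    · ring
    · intro h
      exact hω (funext fun g => (h g).symm)
  · intro h
    exact absurd (hOm f hf) h

theorem stepC (h3 : Stmt_CGT) (h5 : Stmt_LKA) (h6 : Stmt_LKB) (h7 : Stmt_LDZ)
    (hL : LocS ℓ ι κ ρ) (hmax : 𝔐.IsMaximal) (hℓ : (ℓ : integralClosure ℤ ℂ) ∈ 𝔐)
    (hD : ∀ T : Subgroup B, ι.range ≤ T → DadeHolds ℓ T) (L' L : Subgroup C) (e : ℕ)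
    (Θ : (L'.comap ρ → (integralClosure ℤ ℂ) ⧸ 𝔐) → B → (integralClosure ℤ ℂ) ⧸ 𝔐)
    (hΘ : ∀ (σ : Finset (Subgroup G)) (ψ : G → ℂ) f, IrrOn (stb σ) ψ → ExtL ι κ ρ σ ψ L' f →
      cgT 𝔐 (L.comap ρ) f = Θ (fun g => cgT 𝔐 (L'.comap ρ) f g))
    (u : B → (integralClosure ℤ ℂ) ⧸ 𝔐)
    (hu : ¬ ∃ θ : G → ℂ, IsIrr θ ∧ HasDefect ℓ θ 0 ∧
      ∀ g, u (ι g) = cgO 𝔐 κ (L.comap ρ) θ g)
    (ω : L'.comap ρ → (integralClosure ℤ ℂ) ⧸ 𝔐) (hω : Θ ω = u) :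
    ∑ σ ∈ Ch ℓ (⊥ : Subgroup G), (-1 : ℚ) ^ σ.card * ∑ ψ ∈ irrOn (stb σ),
      (Nat.card (stb σ) : ℚ) * Nat.card (KL κ ρ σ ψ L') *
        Nat.card {f : B → ℂ // ExtL ι κ ρ σ ψ L' f ∧ df ℓ (stb σ) ψ = e ∧
          ∀ g : L'.comap ρ, cgT 𝔐 (L'.comap ρ) f g = ω g} = 0 := by
  have e1 := (h5 G B C ℓ ι κ ρ hL L').2
    (fun S => (Nat.card S : ℚ) * cnt 𝔐 ℓ e S.subtype ω)
  have e2 : ∀ σ ∈ Ch ℓ (⊥ : Subgroup G), (-1 : ℚ) ^ σ.card * ∑ ψ ∈ irrOn (stb σ),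
      (Nat.card (stb σ) : ℚ) * Nat.card (KL κ ρ σ ψ L') *
        Nat.card {f : B → ℂ // ExtL ι κ ρ σ ψ L' f ∧ df ℓ (stb σ) ψ = e ∧
          ∀ g : L'.comap ρ, cgT 𝔐 (L'.comap ρ) f g = ω g} =
      (-1 : ℚ) ^ σ.card * ((fun S : Subgroup (L'.comap ρ) =>
        (Nat.card S : ℚ) * cnt 𝔐 ℓ e S.subtype ω)
          ((Stx κ σ (fun _ => 0)).comap (L'.comap ρ).subtype)) := by
    intro σ _
    congr 1
    exact (h6 G B C 𝔐 ℓ ι κ ρ hL hmax hℓ L' σ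
      ((Stx κ σ (fun _ => 0)).comap (L'.comap ρ).subtype) rfl e ω).symm
  rw [Finset.sum_congr rfl e2, ← e1]
  by_contra hne
  obtain ⟨θ, hθ, hθ0, f, hf, hfω⟩ := h7 G B C 𝔐 ℓ ι κ ρ hL hmax hℓ hD L' e ω hne
  apply hu
  refine ⟨θ, hθ, hθ0, fun g => ?_⟩
  have hst : IrrOn (stb (∅ : Finset (Subgroup G))) θ := by
    rw [stb_empty]
    exact ⟨hθ.comp_mulEquiv (Subgroup.topEquiv (G := G)),
      fun x hx => absurd (Subgroup.mem_top x) hx⟩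
  have e3 : u = cgT 𝔐 (L.comap ρ) f := by
    rw [hΘ ∅ θ f hst hf, ← hω]
    congr 1
    funext g
    exact (hfω g).symm
  rw [e3, (h3 G B C 𝔐 ι κ ρ hL.cl).1]
  congr 1
  funext h
  exact hf.2 h

theorem stepD (h2 : Stmt_EXTBR) (h3 : Stmt_CGT) (h5 : Stmt_LKA) (h6 : Stmt_LKB)
    (h7 : Stmt_LDZ) (h8 : Stmt_LTR) (hL : LocS ℓ ι κ ρ) [Finite C] (hmax : 𝔐.IsMaximal)
    (hℓ : (ℓ : integralClosure ℤ ℂ) ∈ 𝔐)
    (hD : ∀ T : Subgroup B, ι.range ≤ T → DadeHolds ℓ T) {L' L : Subgroup C} (hle : L' ≤ L)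
    (e : ℕ) (u : B → (integralClosure ℤ ℂ) ⧸ 𝔐)
    (hu : ¬ ∃ θ : G → ℂ, IsIrr θ ∧ HasDefect ℓ θ 0 ∧
      ∀ g, u (ι g) = cgO 𝔐 κ (L.comap ρ) θ g) :
    ∑ σ ∈ Ch ℓ (⊥ : Subgroup G), ∑ ψ ∈ irrOn (stb σ), ∑ f ∈ extF ι κ ρ σ ψ L,
      ((-1 : ℚ) ^ σ.card * ((Nat.card (stb σ) : ℚ) * ind (df ℓ (stb σ) ψ = e))) *
        (((Nat.card (L' ⊓ KL κ ρ σ ψ L : Subgroup C) : ℚ) ^ 2 /
          Nat.card (KL κ ρ σ ψ L)) * ind (trn ρ L' (cgT 𝔐 (L.comap ρ) f) = u)) = 0 := by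
  classical
  obtain ⟨Θ, hΘ⟩ := h8 G B C 𝔐 ℓ ι κ ρ hL L' L hle
  let Om : Finset (L'.comap ρ → (integralClosure ℤ ℂ) ⧸ 𝔐) :=
    (Ch ℓ (⊥ : Subgroup G)).biUnion fun σ => (irrOn (stb σ)).biUnion fun ψ =>
      (extF ι κ ρ σ ψ L').image fun f => (fun g : L'.comap ρ => cgT 𝔐 (L'.comap ρ) f g)
  have hOm : ∀ σ ∈ Ch ℓ (⊥ : Subgroup G), ∀ ψ ∈ irrOn (stb σ), ∀ f ∈ extF ι κ ρ σ ψ L',
      (fun g : L'.comap ρ => cgT 𝔐 (L'.comap ρ) f g) ∈ Om := by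
    intro σ hσ ψ hψ f hf
    exact Finset.mem_biUnion.mpr ⟨σ, hσ, Finset.mem_biUnion.mpr ⟨ψ, hψ,
      Finset.mem_image.mpr ⟨f, hf, rfl⟩⟩⟩
  have e1 : ∀ σ ∈ Ch ℓ (⊥ : Subgroup G), ∀ ψ ∈ irrOn (stb σ), ∑ f ∈ extF ι κ ρ σ ψ L,
      ((-1 : ℚ) ^ σ.card * ((Nat.card (stb σ) : ℚ) * ind (df ℓ (stb σ) ψ = e))) *
        (((Nat.card (L' ⊓ KL κ ρ σ ψ L : Subgroup C) : ℚ) ^ 2 /
          Nat.card (KL κ ρ σ ψ L)) * ind (trn ρ L' (cgT 𝔐 (L.comap ρ) f) = u)) =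
      ∑ ω ∈ Om, ind (Θ ω = u) * ((-1 : ℚ) ^ σ.card *
        ((Nat.card (stb σ) : ℚ) * Nat.card (KL κ ρ σ ψ L') *
        Nat.card {f : B → ℂ // ExtL ι κ ρ σ ψ L' f ∧ df ℓ (stb σ) ψ = e ∧
          ∀ g : L'.comap ρ, cgT 𝔐 (L'.comap ρ) f g = ω g})) := by
    intro σ hσ ψ hψ
    have hψ' := IRRPI.mem_irrOn.mp hψ
    rw [← Finset.mul_sum, stepA 𝔐 h2 h3 hL hle hψ' u]
    have e3 := stepB (ι := ι) (κ := κ) (ρ := ρ) (ℓ := ℓ) 𝔐 L' L e Θ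
      (fun f hf => hΘ σ ψ f hψ' hf) Om (fun f hf => hOm σ hσ ψ hψ f hf) u
    calc ((-1 : ℚ) ^ σ.card * ((Nat.card (stb σ) : ℚ) * ind (df ℓ (stb σ) ψ = e))) *
          (Nat.card (KL κ ρ σ ψ L') *
            ∑ f ∈ extF ι κ ρ σ ψ L', ind (cgT 𝔐 (L.comap ρ) f = u))
        = (-1 : ℚ) ^ σ.card * ((Nat.card (stb σ) : ℚ) * Nat.card (KL κ ρ σ ψ L')) *
          (ind (df ℓ (stb σ) ψ = e) *
            ∑ f ∈ extF ι κ ρ σ ψ L', ind (cgT 𝔐 (L.comap ρ) f = u)) := by ring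
      _ = _ := by
        rw [e3, Finset.mul_sum]
        refine Finset.sum_congr rfl fun ω _ => ?_
        ring
  rw [Finset.sum_congr rfl fun σ hσ => Finset.sum_congr rfl fun ψ hψ => e1 σ hσ ψ hψ]
  have e4 : ∀ σ ∈ Ch ℓ (⊥ : Subgroup G), ∑ ψ ∈ irrOn (stb σ),
      ∑ ω ∈ Om, ind (Θ ω = u) * ((-1 : ℚ) ^ σ.card *
        ((Nat.card (stb σ) : ℚ) * Nat.card (KL κ ρ σ ψ L') *
        Nat.card {f : B → ℂ // ExtL ι κ ρ σ ψ L' f ∧ df ℓ (stb σ) ψ = e ∧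
          ∀ g : L'.comap ρ, cgT 𝔐 (L'.comap ρ) f g = ω g})) =
      ∑ ω ∈ Om, ind (Θ ω = u) * ((-1 : ℚ) ^ σ.card * ∑ ψ ∈ irrOn (stb σ),
        (Nat.card (stb σ) : ℚ) * Nat.card (KL κ ρ σ ψ L') *
        Nat.card {f : B → ℂ // ExtL ι κ ρ σ ψ L' f ∧ df ℓ (stb σ) ψ = e ∧
          ∀ g : L'.comap ρ, cgT 𝔐 (L'.comap ρ) f g = ω g}) := by
    intro σ _
    rw [Finset.sum_comm]
    refine Finset.sum_congr rfl fun ω _ => ?_
    rw [← Finset.mul_sum, ← Finset.mul_sum]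
  rw [Finset.sum_congr rfl e4, Finset.sum_comm]
  apply Finset.sum_eq_zero
  intro ω _
  rw [← Finset.mul_sum]
  by_cases hω : Θ ω = u
  · rw [stepC 𝔐 h3 h5 h6 h7 hL hmax hℓ hD L' L e Θ hΘ u hu ω hω, mul_zero]
  · rw [ind_neg hω, zero_mul]

/-- The result of the inversion. -/
theorem stepE (h2 : Stmt_EXTBR) (h3 : Stmt_CGT) (h5 : Stmt_LKA) (h6 : Stmt_LKB)
    (h7 : Stmt_LDZ) (h8 : Stmt_LTR) (h11 : Stmt_MOBB) (hL : LocS ℓ ι κ ρ) [Finite C]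
    (hmax : 𝔐.IsMaximal) (hℓ : (ℓ : integralClosure ℤ ℂ) ∈ 𝔐)
    (hD : ∀ T : Subgroup B, ι.range ≤ T → DadeHolds ℓ T) (L : Subgroup C)
    (e : ℕ) (u : B → (integralClosure ℤ ℂ) ⧸ 𝔐)
    (hu : ¬ ∃ θ : G → ℂ, IsIrr θ ∧ HasDefect ℓ θ 0 ∧
      ∀ g, u (ι g) = cgO 𝔐 κ (L.comap ρ) θ g) :
    ∑ σ ∈ Ch ℓ (⊥ : Subgroup G), ∑ ψ ∈ irrOn (stb σ), ∑ f ∈ extF ι κ ρ σ ψ L,
      ((-1 : ℚ) ^ σ.card * ((Nat.card (stb σ) : ℚ) * ind (df ℓ (stb σ) ψ = e))) *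
        ind (KL κ ρ σ ψ L = L ∧ cgT 𝔐 (L.comap ρ) f = u) = 0 := by
  classical
  let T : Finset (Σ _ : Finset (Subgroup G), Σ _ : G → ℂ, B → ℂ) :=
    (Ch ℓ (⊥ : Subgroup G)).sigma fun σ => (irrOn (stb σ)).sigma fun ψ => extF ι κ ρ σ ψ L
  have hsum : ∀ F : Finset (Subgroup G) → (G → ℂ) → (B → ℂ) → ℚ,
      ∑ i : {t // t ∈ T}, F i.1.1 i.1.2.1 i.1.2.2 =
        ∑ σ ∈ Ch ℓ (⊥ : Subgroup G), ∑ ψ ∈ irrOn (stb σ), ∑ f ∈ extF ι κ ρ σ ψ L, F σ ψ f := by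
    intro F
    have h1 : ∑ i : {t // t ∈ T}, F i.1.1 i.1.2.1 i.1.2.2 =
        ∑ t ∈ T, F t.1 t.2.1 t.2.2 :=
      Finset.sum_coe_sort T (fun t => F t.1 t.2.1 t.2.2)
    rw [h1, Finset.sum_sigma]
    refine Finset.sum_congr rfl fun σ _ => ?_
    rw [Finset.sum_sigma]
  have key := h11 C {t // t ∈ T} (B → (integralClosure ℤ ℂ) ⧸ 𝔐) hL.cyc L
    (fun i => (-1 : ℚ) ^ i.1.1.card *
      ((Nat.card (stb i.1.1) : ℚ) * ind (df ℓ (stb i.1.1) i.1.2.1 = e)))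
    (fun i => KL κ ρ i.1.1 i.1.2.1 L) (fun i => cgT 𝔐 (L.comap ρ) i.1.2.2)
    (fun L' u => trn ρ L' u)
    (fun u => ¬ ∃ θ : G → ℂ, IsIrr θ ∧ HasDefect ℓ θ 0 ∧
      ∀ g, u (ι g) = cgO 𝔐 κ (L.comap ρ) θ g)
    (fun i => inf_le_right)
    (by
      rintro ⟨⟨σ, ψ, f⟩, hi⟩
      have hf : ExtL ι κ ρ σ ψ L f := by
        have h1 := Finset.mem_sigma.mp hi
        have h2 := Finset.mem_sigma.mp h1.2
        exact mem_extF.mp h2.2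
      change trn ρ (KL κ ρ σ ψ L) (cgT 𝔐 (L.comap ρ) f) = cgT 𝔐 (L.comap ρ) f
      rw [trn_cgT 𝔐 h3 hL, trn_ext hf])
    (fun L' L'' u => trn_trn L' L'' u)
    (by
      intro L' u
      have h1 : ∀ g, trn ρ L' u (ι g) = u (ι g) := by
        intro g
        apply trn_of_mem
        rw [(hL.cl.ker (ι g)).mpr ⟨g, rfl⟩]
        exact L'.one_mem
      simp only [h1])
    (by
      intro L' hle u hu
      simp only [ite_eq_ind]
      rw [hsum (fun σ ψ f => ((-1 : ℚ) ^ σ.card * ((Nat.card (stb σ) : ℚ) *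
        ind (df ℓ (stb σ) ψ = e))) * (((Nat.card (L' ⊓ KL κ ρ σ ψ L : Subgroup C) : ℚ) ^ 2 /
          Nat.card (KL κ ρ σ ψ L)) * ind (trn ρ L' (cgT 𝔐 (L.comap ρ) f) = u)))]
      exact stepD 𝔐 h2 h3 h5 h6 h7 h8 hL hmax hℓ hD hle e u hu)
    u hu
  simp only [ite_eq_ind] at key
  rw [hsum (fun σ ψ f => ((-1 : ℚ) ^ σ.card * ((Nat.card (stb σ) : ℚ) *
    ind (df ℓ (stb σ) ψ = e))) * ind (KL κ ρ σ ψ L = L ∧ cgT 𝔐 (L.comap ρ) f = u))] at key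
  exact key

/-- A class of central functions of a counted pair is good. -/
theorem stepF (h3 : Stmt_CGT) (h10 : Stmt_LSEP) (hL : LocS ℓ ι κ ρ) (hmax : 𝔐.IsMaximal)
    (hℓ : (ℓ : integralClosure ℤ ℂ) ∈ 𝔐) (L : Subgroup C)
    (β : Set (B → (integralClosure ℤ ℂ) ⧸ 𝔐)) (hβ : ¬ dzT 𝔐 ℓ ι β)
    {σ : Finset (Subgroup G)} (hσ : σ ∈ Ch ℓ (⊥ : Subgroup G)) {ψ : G → ℂ}
    (hψ : IrrOn (stb σ) ψ) {f : B → ℂ} (hf : ExtL ι κ ρ σ ψ L f)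
    (hfβ : cgT 𝔐 ι.range f ∈ β) :
    ¬ ∃ θ : G → ℂ, IsIrr θ ∧ HasDefect ℓ θ 0 ∧
      ∀ g, cgT 𝔐 (L.comap ρ) f (ι g) = cgO 𝔐 κ (L.comap ρ) θ g := by
  rintro ⟨θ, hθ, hθ0, hθg⟩
  have hfι : (fun h => f (ι h)) = ψ := funext hf.2
  have e1 : cgO 𝔐 κ (L.comap ρ) ψ = cgO 𝔐 κ (L.comap ρ) θ := by
    funext g
    rw [← hθg g, (h3 G B C 𝔐 ι κ ρ hL.cl).1, hfι]
  have e2 : df ℓ (stb σ) ψ = 0 := by
    refine h10 G B 𝔐 ℓ κ hmax hℓ (L.comap ρ) (fun g => ⟨ι g, ?_, ?_⟩) (stb σ) ψ θ hψ hθ hθ0 e1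
    · rw [Subgroup.mem_comap, (hL.cl.ker (ι g)).mpr ⟨g, rfl⟩]
      exact L.one_mem
    · ext a
      apply hL.cl.inj
      rw [hL.cl.act]
      simp
  have e3 := AA.hasDefect_df ℓ (stb σ) hψ
  rw [e2] at e3
  have e4 : σ = ∅ := DZT_thm G ℓ σ (mem_Ch.mp hσ) _ hψ.1 e3
  have e5 : stb σ = ⊤ := by rw [e4, stb_empty]
  apply hβ
  refine ⟨cgT 𝔐 ι.range f, hfβ, ψ, AA.irr_top e5 hψ, AA.hasDefect_top e5 e3, fun g => ?_⟩
  rw [(h3 G B C 𝔐 ι κ ρ hL.cl).2.1, hfι]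

end

end VV

theorem VV_thm (h1 : Stmt_EXTAR) (h2 : Stmt_EXTBR) (h3 : Stmt_CGT) (h4 : Stmt_BETG)
    (h5 : Stmt_LKA) (h6 : Stmt_LKB) (h7 : Stmt_LDZ) (h8 : Stmt_LTR) (h9 : Stmt_LTI)
    (h10 : Stmt_LSEP) (h11 : Stmt_MOBB) : Stmt_VV := by
  classical
  intro G B C _ _ _ _ _ 𝔐 ℓ _ ι κ ρ hL hmax hℓ hD L β e hβ
  have hfin : Finite C := Finite.of_surjective ρ hL.surj
  -- the counted pairs
  by_cases hex : ∃ σ ∈ Ch ℓ (⊥ : Subgroup G), ∃ ψ ∈ irrOn (stb σ),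
      L ≤ (Stx κ σ ψ).map ρ ∧ df ℓ (stb σ) ψ = e ∧ bet 𝔐 ι κ ρ σ ψ L = β
  · obtain ⟨σ1, hσ1, ψ1, hψ1, hL1, hd1, hβ1⟩ := hex
    have hψ1' := IRRPI.mem_irrOn.mp hψ1
    -- the set of values
    let U : Finset (B → (integralClosure ℤ ℂ) ⧸ 𝔐) :=
      (Ch ℓ (⊥ : Subgroup G)).biUnion fun σ => (irrOn (stb σ)).biUnion fun ψ =>
        ((VV.extF ι κ ρ σ ψ L).filter fun f => KL κ ρ σ ψ L = L ∧
          cgT 𝔐 ι.range f ∈ β).image fun f => cgT 𝔐 (L.comap ρ) f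
    have hU : ∀ u, u ∈ U ↔ ∃ σ ∈ Ch ℓ (⊥ : Subgroup G), ∃ ψ ∈ irrOn (stb σ),
        ∃ f, ExtL ι κ ρ σ ψ L f ∧ KL κ ρ σ ψ L = L ∧ cgT 𝔐 ι.range f ∈ β ∧
          cgT 𝔐 (L.comap ρ) f = u := by
      intro u
      simp only [U, Finset.mem_biUnion, Finset.mem_image, Finset.mem_filter, VV.mem_extF]
      constructor
      · rintro ⟨σ, hσ, ψ, hψ, f, ⟨hf, hk, hb⟩, rfl⟩
        exact ⟨σ, hσ, ψ, hψ, f, hf, hk, hb, rfl⟩
      · rintro ⟨σ, hσ, ψ, hψ, f, hf, hk, hb, rfl⟩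
        exact ⟨σ, hσ, ψ, hψ, f, ⟨hf, hk, hb⟩, rfl⟩
    have hzero : ∀ u ∈ U, ∑ σ ∈ Ch ℓ (⊥ : Subgroup G), ∑ ψ ∈ irrOn (stb σ),
        ∑ f ∈ VV.extF ι κ ρ σ ψ L,
        ((-1 : ℚ) ^ σ.card * ((Nat.card (stb σ) : ℚ) * VV.ind (df ℓ (stb σ) ψ = e))) *
          VV.ind (KL κ ρ σ ψ L = L ∧ cgT 𝔐 (L.comap ρ) f = u) = 0 := by
      intro u hu
      obtain ⟨σ, hσ, ψ, hψ, f, hf, hk, hb, rfl⟩ := (hU u).mp hu
      exact VV.stepE 𝔐 h2 h3 h5 h6 h7 h8 h11 hL hmax hℓ hD L e _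
        (VV.stepF 𝔐 h3 h10 hL hmax hℓ L β hβ hσ (IRRPI.mem_irrOn.mp hψ) hf hb)
    have hsum := Finset.sum_eq_zero hzero
    -- exchange
    have e1 : ∑ u ∈ U, ∑ σ ∈ Ch ℓ (⊥ : Subgroup G), ∑ ψ ∈ irrOn (stb σ),
        ∑ f ∈ VV.extF ι κ ρ σ ψ L,
        ((-1 : ℚ) ^ σ.card * ((Nat.card (stb σ) : ℚ) * VV.ind (df ℓ (stb σ) ψ = e))) *
          VV.ind (KL κ ρ σ ψ L = L ∧ cgT 𝔐 (L.comap ρ) f = u) =
        ∑ σ ∈ Ch ℓ (⊥ : Subgroup G), ∑ ψ ∈ irrOn (stb σ),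
          (Nat.card L : ℚ) * ((-1 : ℚ) ^ σ.card * ((Nat.card (stb σ) : ℚ) *
            VV.ind (L ≤ (Stx κ σ ψ).map ρ ∧ df ℓ (stb σ) ψ = e ∧
              bet 𝔐 ι κ ρ σ ψ L = β))) := by
      rw [Finset.sum_comm]
      refine Finset.sum_congr rfl fun σ hσ => ?_
      rw [Finset.sum_comm]
      refine Finset.sum_congr rfl fun ψ hψ => ?_
      have hψ' := IRRPI.mem_irrOn.mp hψ
      rw [Finset.sum_comm]
      by_cases hk : KL κ ρ σ ψ L = L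
      · have hk' := (VV.KL_eq_iff σ ψ L).mp hk
        -- for every extension the number of values
        have e2 : ∀ f ∈ VV.extF ι κ ρ σ ψ L, ∑ u ∈ U,
            ((-1 : ℚ) ^ σ.card * ((Nat.card (stb σ) : ℚ) * VV.ind (df ℓ (stb σ) ψ = e))) *
              VV.ind (KL κ ρ σ ψ L = L ∧ cgT 𝔐 (L.comap ρ) f = u) =
            ((-1 : ℚ) ^ σ.card * ((Nat.card (stb σ) : ℚ) * VV.ind (df ℓ (stb σ) ψ = e))) *
              VV.ind (bet 𝔐 ι κ ρ σ ψ L = β) := by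
          intro f hf
          have hf' := VV.mem_extF.mp hf
          rw [← Finset.mul_sum]
          congr 1
          by_cases hfb : cgT 𝔐 ι.range f ∈ β
          · have hbet : bet 𝔐 ι κ ρ σ ψ L = β := by
              have hfb' := hfb
              rw [← hβ1] at hfb'
              obtain ⟨f1, hf1, hf1'⟩ := hfb'
              rw [← hβ1]
              exact (h4 G B C 𝔐 ℓ ι κ ρ hL).2 σ σ1 ψ ψ1 hψ' hψ1' L f f1 hf' hf1 hf1'
            rw [VV.ind_pos hbet, Finset.sum_eq_single (cgT 𝔐 (L.comap ρ) f)]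
            · exact VV.ind_pos ⟨hk, rfl⟩
            · intro u _ hne
              exact VV.ind_neg fun h => hne h.2.symm
            · intro hn
              exact absurd ((hU _).mpr ⟨σ, hσ, ψ, hψ, f, hf', hk, hfb, rfl⟩) hn
          · have hbet : ¬ bet 𝔐 ι κ ρ σ ψ L = β := by
              intro h
              apply hfb
              rw [← h]
              exact ⟨f, hf', rfl⟩
            rw [VV.ind_neg hbet]
            apply Finset.sum_eq_zero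
            intro u hu
            apply VV.ind_neg
            rintro ⟨_, rfl⟩
            obtain ⟨σ2, hσ2, ψ2, hψ2, f2, hf2, hk2, hb2, he2⟩ := (hU _).mp hu
            have h12 := (h9 G B C 𝔐 ℓ ι κ ρ hL hmax hℓ L σ2 σ ψ2 ψ f2 f
              (IRRPI.mem_irrOn.mp hψ2) hψ' ((VV.KL_eq_iff σ2 ψ2 L).mp hk2) hk' hf2 hf').mp he2
            rw [h12] at hb2
            exact hfb hb2
        rw [Finset.sum_congr rfl e2, Finset.sum_const, nsmul_eq_mul]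
        have hcard : ((VV.extF ι κ ρ σ ψ L).card : ℚ) = Nat.card L := by
          have h12 := (h1 G B C ℓ ι κ ρ hL σ ψ hψ' L).2.2.2.2.2
          have h13 : Nat.card {f : B → ℂ // ExtL ι κ ρ σ ψ L f} =
              (VV.extF ι κ ρ σ ψ L).card :=
            Nat.subtype_card _ fun f => VV.mem_extF
          rw [← h13, h12, hk]
        rw [hcard, VV.ind_and, VV.ind_and, VV.ind_pos hk']
        ring
      · have hk' : ¬ L ≤ (Stx κ σ ψ).map ρ := fun h => hk ((VV.KL_eq_iff σ ψ L).mpr h)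
        rw [VV.ind_neg (p := L ≤ (Stx κ σ ψ).map ρ ∧ df ℓ (stb σ) ψ = e ∧
          bet 𝔐 ι κ ρ σ ψ L = β) (fun h => hk' h.1)]
        rw [mul_zero, mul_zero, mul_zero]
        apply Finset.sum_eq_zero
        intro f _
        apply Finset.sum_eq_zero
        intro u _
        rw [VV.ind_neg (p := KL κ ρ σ ψ L = L ∧ cgT 𝔐 (L.comap ρ) f = u)
          (fun h => hk h.1), mul_zero]
    rw [e1] at hsum
    have hLc : (Nat.card L : ℚ) ≠ 0 := by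
      exact_mod_cast Nat.card_pos.ne'
    have e3 : (Nat.card L : ℚ) * VS 𝔐 ℓ ι κ ρ L β e = 0 := by
      rw [← hsum, VS, Finset.mul_sum]
      refine Finset.sum_congr rfl fun σ _ => ?_
      rw [Finset.mul_sum, Finset.mul_sum]
      refine Finset.sum_congr rfl fun ψ _ => ?_
      rw [VV.ite_eq_ind]
    exact (mul_eq_zero.mp e3).resolve_left hLc
  · rw [VS]
    apply Finset.sum_eq_zero
    intro σ hσ
    have : ∑ ψ ∈ irrOn (stb σ), (Nat.card (stb σ) : ℚ) * (if L ≤ (Stx κ σ ψ).map ρ ∧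
        df ℓ (stb σ) ψ = e ∧ bet 𝔐 ι κ ρ σ ψ L = β then 1 else 0) = 0 := by
      apply Finset.sum_eq_zero
      intro ψ hψ
      rw [if_neg, mul_zero]
      intro h
      exact hex ⟨σ, hσ, ψ, hψ, h⟩
    rw [this, mul_zero]

end Pool.Agent.DP


end

section

/-!
# PERBR: standardization
-/

namespace Pool.Agent.DP

open Pool.Agent.Lib_helper13 Representation

/-- MODULE PERBR -/
theorem PERBR_thm (h1 : Stmt_EXTAR) (h2 : Stmt_PERAR) (h3 : Stmt_REPJ) (_h4 : Stmt_TRBR) :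
    Stmt_PERBR := by
  intro O G B C Y K _ _ _ _ _ _ _ _ _ _ _ ℓ _ ι κ ρ hL j p φ hE τ hτ θ hθ r t hR
  classical
  obtain ⟨hch, hcl⟩ := mem_ClCh.mp hτ
  obtain ⟨_, _, _, _, a5⟩ := h2 O G B C Y K ℓ ι κ ρ hL j p φ hE τ hτ θ hθ
  obtain ⟨_, _, b3⟩ := h3 O G B C Y K ℓ ι κ ρ hL j p φ hE (KB κ p φ τ θ)
  obtain ⟨b4, b5, b6⟩ := b3 r t hR
  -- transporting elements
  have hy : ∀ o, ∃ y, y ∈ InY κ φ τ θ ∧ p y = p (t o) := by
    intro o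
    obtain ⟨y, hy1, hy2⟩ := Subgroup.mem_map.mp (hR.mem o)
    exact ⟨y, hy1, hy2⟩
  choose y hy1 hy2 using hy
  have hyr : ∀ o, (φ (y o)).right⁻¹ • o = r o ∧ ρ ((φ (y o)).left o) = ρ ((φ (t o)).left o) := by
    intro o
    have h5 : p (y o * (t o)⁻¹) = 1 := by
      rw [map_mul, map_inv, hy2, mul_inv_cancel]
    obtain ⟨n, hn⟩ := (hE.cl.ker _).mp h5
    have h6 : y o = j n * t o := by
      rw [hn, inv_mul_cancel_right]
    have h7 : φ (y o) = SemidirectProduct.inl (fun o => ι (n o)) * φ (t o) := by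
      rw [h6, map_mul, hE.jn]
    have h8 : (φ (y o)).right = (φ (t o)).right := by
      rw [h7, SemidirectProduct.mul_right, SemidirectProduct.right_inl, one_mul]
    have h9 : (φ (y o)).left o = ι (n o) * (φ (t o)).left o := by
      rw [h7, SemidirectProduct.mul_left, Pi.mul_apply, SemidirectProduct.left_inl,
        SemidirectProduct.right_inl, map_one, MulAut.one_apply]
    refine ⟨?_, ?_⟩
    · rw [h8, inv_smul_eq_iff]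
      exact (hR.map o).symm
    · rw [h9, map_mul, (hL.cl.ker (ι (n o))).mpr ⟨n o, rfl⟩, one_mul]
  -- extensions and matrices
  have hf : ∀ w, ∃ f, ExtL ι κ ρ (comp τ w) (θ w)
      (vg ρ p φ (KB κ p φ τ θ) w) f := fun w =>
    (h1 G B C ℓ ι κ ρ hL (comp τ w) (θ w) (hθ w) _).2.2.1
  choose f hf1 using hf
  have hm : ∀ w, ∃ m M, MD (Stx κ (comp τ w) (θ w) ⊓
      (vg ρ p φ (KB κ p φ τ θ) w).comap ρ) (f w) m M := fun w =>
    TENS_thm.1 B _ (f w) (hf1 w).1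
  choose m M hM using hm
  have hc : ∀ w, (Stx κ (comp τ w) (θ w) ⊓
      (vg ρ p φ (KB κ p φ τ θ) w).comap ρ).comap ι = stb (comp τ w) :=
    fun w => (h1 G B C ℓ ι κ ρ hL (comp τ w) (θ w) (hθ w) _).1
  have hfe : ∀ w, (fun h => f w (ι h)) = θ w := fun w => funext (hf1 w).2
  have himg : ∀ w, (Stx κ (comp τ w) (θ w) ⊓
      (vg ρ p φ (KB κ p φ τ θ) w).comap ρ).map ρ = vg ρ p φ (KB κ p φ τ θ) w := by
    intro w
    rw [(h1 G B C ℓ ι κ ρ hL (comp τ w) (θ w) (hθ w) _).2.1]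
    exact inf_eq_right.mpr (a5 w)
  refine ⟨fun o => (φ (y o)).left o,
    fun o => Stx κ (comp τ (r o)) (θ (r o)) ⊓
      (vg ρ p φ (KB κ p φ τ θ) (r o)).comap ρ,
    fun o => f (r o), fun o => m (r o), fun o => M (r o), ?_⟩
  refine ⟨⟨?_, ?_, ?_, ?_, ?_, ?_, ?_, ?_, ?_, ?_⟩, hR, ?_, ?_, ?_, ?_⟩
  · intro x hx o
    simp only [hR.con x hx o]
  · intro x hx o
    simp only [hR.con x hx o]
  · intro x hx o
    simp only [hR.con x hx o]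
  · intro x hx o
    simp only [hR.con x hx o]
  · exact fun o => (hf1 (r o)).1
  · intro o
    simp only [hc, hfe]
    exact hθ (r o)
  · exact fun o => hM (r o)
  · intro o
    simp only [hc, hfe]
    exact fun h => PERB.dz DZT_thm (comp_isCh hch (r o)) (hθ (r o)) h
  · intro o
    simp only [himg]
    exact b5 o
  · intro x hx o
    simp only [himg]
    exact b6 x hx _ (fun o => (hyr o).2) o
  · exact fun o => (hyr o).2
  · intro o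
    have h5 := hy1 o o
    rw [(hyr o).1] at h5
    exact h5
  · exact fun o => rfl
  · exact fun o => hf1 (r o)

end Pool.Agent.DP


end

section

/-!
# PERBV: standardization (theorem V)
-/

namespace Pool.Agent.DPV

open Pool.Agent.DP Pool.Agent.Lib_helper13 Representation
open Pool.Agent.Lib_helper13.Dade (pCore DadeHolds dadeSum)

/-- MODULE PERBV -/
theorem PERBV_thm (h1 : Stmt_EXTV) (h2 : Stmt_PERAV) (h3 : Stmt_REPV) (_h4 : Stmt_TRV) :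
    Stmt_PERBV := by
  intro O G B C Y K _ _ _ _ _ _ _ _ _ _ _ ℓ _ ι κ ρ hL j p φ hE τ hτ θ hθ r t hR
  classical
  obtain ⟨hch, hcl⟩ := mem_ClCh.mp hτ
  obtain ⟨_, _, _, _, a5⟩ := h2 O G B C Y K ℓ ι κ ρ hL j p φ hE τ hτ θ hθ
  obtain ⟨_, _, b3⟩ := h3 O G B C Y K ι κ ρ hL j p φ hE (KB κ p φ τ θ)
  obtain ⟨b4, b5, b6⟩ := b3 r t hR
  -- transporting elements
  have hy : ∀ o, ∃ y, y ∈ InY κ φ τ θ ∧ p y = p (t o) := by
    intro o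
    obtain ⟨y, hy1, hy2⟩ := Subgroup.mem_map.mp (hR.mem o)
    exact ⟨y, hy1, hy2⟩
  choose y hy1 hy2 using hy
  have hyr : ∀ o, (φ (y o)).right⁻¹ • o = r o ∧ ρ ((φ (y o)).left o) = ρ ((φ (t o)).left o) := by
    intro o
    have h5 : p (y o * (t o)⁻¹) = 1 := by
      rw [map_mul, map_inv, hy2, mul_inv_cancel]
    obtain ⟨n, hn⟩ := (hE.cl.ker _).mp h5
    have h6 : y o = j n * t o := by
      rw [hn, inv_mul_cancel_right]
    have h7 : φ (y o) = SemidirectProduct.inl (fun o => ι (n o)) * φ (t o) := by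
      rw [h6, map_mul, hE.jn]
    have h8 : (φ (y o)).right = (φ (t o)).right := by
      rw [h7, SemidirectProduct.mul_right, SemidirectProduct.right_inl, one_mul]
    have h9 : (φ (y o)).left o = ι (n o) * (φ (t o)).left o := by
      rw [h7, SemidirectProduct.mul_left, Pi.mul_apply, SemidirectProduct.left_inl,
        SemidirectProduct.right_inl, map_one, MulAut.one_apply]
    refine ⟨?_, ?_⟩
    · rw [h8, inv_smul_eq_iff]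
      exact (hR.map o).symm
    · rw [h9, map_mul, (hL.cl.ker (ι (n o))).mpr ⟨n o, rfl⟩, one_mul]
  -- extensions and matrices
  have hf : ∀ w, ∃ f, ExtL ι κ ρ (comp τ w) (θ w)
      (vg ρ p φ (KB κ p φ τ θ) w) f := fun w =>
    (h1 G B C ι κ ρ hL (comp τ w) (θ w) (hθ w) _).2.2.1
  choose f hf1 using hf
  have hm : ∀ w, ∃ m M, MD (Stx κ (comp τ w) (θ w) ⊓
      (vg ρ p φ (KB κ p φ τ θ) w).comap ρ) (f w) m M := fun w =>
    TENS_thm.1 B _ (f w) (hf1 w).1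
  choose m M hM using hm
  have hc : ∀ w, (Stx κ (comp τ w) (θ w) ⊓
      (vg ρ p φ (KB κ p φ τ θ) w).comap ρ).comap ι = stb (comp τ w) :=
    fun w => (h1 G B C ι κ ρ hL (comp τ w) (θ w) (hθ w) _).1
  have hfe : ∀ w, (fun h => f w (ι h)) = θ w := fun w => funext (hf1 w).2
  have himg : ∀ w, (Stx κ (comp τ w) (θ w) ⊓
      (vg ρ p φ (KB κ p φ τ θ) w).comap ρ).map ρ = vg ρ p φ (KB κ p φ τ θ) w := by
    intro w
    rw [(h1 G B C ι κ ρ hL (comp τ w) (θ w) (hθ w) _).2.1]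
    exact inf_eq_right.mpr (a5 w)
  refine ⟨fun o => (φ (y o)).left o,
    fun o => Stx κ (comp τ (r o)) (θ (r o)) ⊓
      (vg ρ p φ (KB κ p φ τ θ) (r o)).comap ρ,
    fun o => f (r o), fun o => m (r o), fun o => M (r o), ?_⟩
  refine ⟨⟨?_, ?_, ?_, ?_, ?_, ?_, ?_, ?_, ?_, ?_⟩, hR, ?_, ?_, ?_, ?_⟩
  · intro x hx o
    simp only [hR.con x hx o]
  · intro x hx o
    simp only [hR.con x hx o]
  · intro x hx o
    simp only [hR.con x hx o]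
  · intro x hx o
    simp only [hR.con x hx o]
  · exact fun o => (hf1 (r o)).1
  · intro o
    simp only [hc, hfe]
    exact hθ (r o)
  · exact fun o => hM (r o)
  · intro o
    simp only [hc, hfe]
    exact fun h => PERB.dz DZT_thm (comp_isCh hch (r o)) (hθ (r o)) h
  · intro o
    simp only [himg]
  · intro x hx o
    simp only [himg]
    exact b6 x hx _ (fun o => (hyr o).2) o
  · exact fun o => (hyr o).2
  · intro o
    have h5 := hy1 o o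
    rw [(hyr o).1] at h5
    exact h5
  · exact fun o => rfl
  · exact fun o => hf1 (r o)

end Pool.Agent.DPV


end

section

/-!
# VVC: the local sum vanishes outside the type of defect zero (cyclic quotients of any order)
-/

namespace Pool.Agent.DPC

open Pool.Agent.DP Pool.Agent.Lib_helper13 Representation
open Pool.Agent.Lib_helper13.Dade (pCore DadeHolds dadeSum)

namespace VVC

open Pool.Agent.DP.VV (ind ite_eq_ind ind_pos ind_neg ind_and ind_congr KL_inf KL_eq_iff trn_trn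
  trn_of_mem trn_ext extF mem_extF card_extF comm_of conj_mem)

section

variable {G B C : Type} [Group G] [Fintype G] [Group B] [Fintype B] [Group C]
  {ι : G →* B} {κ : B →* MulAut G} {ρ : B →* C}
variable {ℓ : ℕ} [Fact ℓ.Prime] (𝔐 : Ideal (integralClosure ℤ ℂ))

omit [Fact ℓ.Prime] in
theorem trn_cgT (hL : LocW ℓ ι κ ρ) (T : Subgroup B) (L' : Subgroup C)
    (f : B → ℂ) : trn ρ L' (cgT 𝔐 T f) = cgT 𝔐 T (trn ρ L' f) := by
  funext x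
  exact ((CGT_thm G B C 𝔐 ι κ ρ hL.cl).2.2.2.1 T L' f x
    (fun t _ y => conj_mem hL.cyc L' t y)).symm

/-- The number of the extensions with a given truncated central function. -/
theorem stepA (h2 : Stmt_EXTBR) (hL : LocW ℓ ι κ ρ) [Finite C]
    {L' L : Subgroup C} (hle : L' ≤ L) {σ : Finset (Subgroup G)} {ψ : G → ℂ}
    (hψ : IrrOn (stb σ) ψ) (u : B → (integralClosure ℤ ℂ) ⧸ 𝔐) (d : ℕ) :
    ∑ f ∈ extF ι κ ρ σ ψ L, ((Nat.card (L' ⊓ KL κ ρ σ ψ L : Subgroup C) : ℚ) ^ 2 /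
        Nat.card (KL κ ρ σ ψ L)) * ind (trn ρ L' (cgT 𝔐 (L.comap ρ) f) = u ∧
          df ℓ (stb σ) ψ + padicValNat ℓ (Nat.card (L' ⊓ KL κ ρ σ ψ L : Subgroup C)) = d) =
      Nat.card (KL κ ρ σ ψ L') *
        (ind (df ℓ (stb σ) ψ + padicValNat ℓ (Nat.card (KL κ ρ σ ψ L')) = d) *
          ∑ f ∈ extF ι κ ρ σ ψ L', ind (cgT 𝔐 (L.comap ρ) f = u)) := by
  rw [KL_inf σ ψ hle, ← Finset.mul_sum, ← card_extF σ ψ L' (fun f => cgT 𝔐 (L.comap ρ) f = u)]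
  have e1 : ∑ f ∈ extF ι κ ρ σ ψ L, ind (trn ρ L' (cgT 𝔐 (L.comap ρ) f) = u ∧
        df ℓ (stb σ) ψ + padicValNat ℓ (Nat.card (KL κ ρ σ ψ L')) = d) =
      (∑ f ∈ extF ι κ ρ σ ψ L, ind (trn ρ L' (cgT 𝔐 (L.comap ρ) f) = u)) *
        ind (df ℓ (stb σ) ψ + padicValNat ℓ (Nat.card (KL κ ρ σ ψ L')) = d) := by
    rw [Finset.sum_mul]
    exact Finset.sum_congr rfl fun f _ => ind_and _ _
  have e2 : ∑ f ∈ extF ι κ ρ σ ψ L, ind (trn ρ L' (cgT 𝔐 (L.comap ρ) f) = u) =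
      (Nat.card {f : B → ℂ // ExtL ι κ ρ σ ψ L f ∧
        cgT 𝔐 (L.comap ρ) (trn ρ L' f) = u} : ℚ) := by
    rw [card_extF σ ψ L (fun f => cgT 𝔐 (L.comap ρ) (trn ρ L' f) = u)]
    refine Finset.sum_congr rfl fun f _ => ?_
    rw [trn_cgT 𝔐 hL]
  have e3 := (h2 G B C 𝔐 ℓ ι κ ρ hL σ ψ hψ L' L hle).2.1
    (fun f' => cgT 𝔐 (L.comap ρ) f' = u)
  have e4 : (Nat.card (KL κ ρ σ ψ L) : ℚ) *
      Nat.card {f : B → ℂ // ExtL ι κ ρ σ ψ L' f ∧ cgT 𝔐 (L.comap ρ) f = u} =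
      Nat.card (KL κ ρ σ ψ L') * Nat.card {f : B → ℂ // ExtL ι κ ρ σ ψ L f ∧
        cgT 𝔐 (L.comap ρ) (trn ρ L' f) = u} := by
    exact_mod_cast e3
  have hK : (Nat.card (KL κ ρ σ ψ L) : ℚ) ≠ 0 := by
    exact_mod_cast Nat.card_pos.ne'
  rw [e1, e2]
  generalize ind (df ℓ (stb σ) ψ + padicValNat ℓ (Nat.card (KL κ ρ σ ψ L')) = d) = z
  field_simp
  linear_combination (-1 : ℚ) * z * e4

/-- The number of the extensions with a given central function, as a sum over the central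
functions with respect to the smaller group. -/
theorem stepB (L' L : Subgroup C) (q : Prop)
    (Θ : (L'.comap ρ → (integralClosure ℤ ℂ) ⧸ 𝔐) → B → (integralClosure ℤ ℂ) ⧸ 𝔐)
    {σ : Finset (Subgroup G)} {ψ : G → ℂ}
    (hΘ : ∀ f, ExtL ι κ ρ σ ψ L' f →
      cgT 𝔐 (L.comap ρ) f = Θ (fun g => cgT 𝔐 (L'.comap ρ) f g))
    (Om : Finset (L'.comap ρ → (integralClosure ℤ ℂ) ⧸ 𝔐))
    (hOm : ∀ f ∈ extF ι κ ρ σ ψ L',
      (fun g : L'.comap ρ => cgT 𝔐 (L'.comap ρ) f g) ∈ Om)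
    (u : B → (integralClosure ℤ ℂ) ⧸ 𝔐) :
    ind q * ∑ f ∈ extF ι κ ρ σ ψ L', ind (cgT 𝔐 (L.comap ρ) f = u) =
      ∑ ω ∈ Om, ind (Θ ω = u) *
        Nat.card {f : B → ℂ // ExtL ι κ ρ σ ψ L' f ∧ q ∧
          ∀ g : L'.comap ρ, cgT 𝔐 (L'.comap ρ) f g = ω g} := by
  classical
  have e1 : ∀ ω ∈ Om, ind (Θ ω = u) *
        (Nat.card {f : B → ℂ // ExtL ι κ ρ σ ψ L' f ∧ q ∧
          ∀ g : L'.comap ρ, cgT 𝔐 (L'.comap ρ) f g = ω g} : ℚ) =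
      ∑ f ∈ extF ι κ ρ σ ψ L', ind (Θ ω = u) * (ind q *
        ind (∀ g : L'.comap ρ, cgT 𝔐 (L'.comap ρ) f g = ω g)) := by
    intro ω _
    rw [card_extF σ ψ L' (fun f => q ∧
      ∀ g : L'.comap ρ, cgT 𝔐 (L'.comap ρ) f g = ω g), Finset.mul_sum]
    exact Finset.sum_congr rfl fun f _ => by rw [ind_and]
  rw [Finset.sum_congr rfl e1, Finset.sum_comm, Finset.mul_sum]
  refine Finset.sum_congr rfl fun f hf => ?_
  rw [Finset.sum_eq_single (fun g : L'.comap ρ => cgT 𝔐 (L'.comap ρ) f g)]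
  · rw [← hΘ f (mem_extF.mp hf), ind_pos (p := ∀ g : L'.comap ρ, cgT 𝔐 (L'.comap ρ) f g =
      (fun g : L'.comap ρ => cgT 𝔐 (L'.comap ρ) f g) g) (fun g => rfl)]
    ring
  · intro ω _ hω
    rw [ind_neg (p := ∀ g : L'.comap ρ, cgT 𝔐 (L'.comap ρ) f g = ω g)]
    · ring
    · intro h
      exact hω (funext fun g => (h g).symm)
  · intro h
    exact absurd (hOm f hf) h

/-- The natural homomorphism to the inverse image of `L`. -/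
theorem exists_iota (hL : LocW ℓ ι κ ρ) (L : Subgroup C) :
    ∃ ι' : G →* L.comap ρ, ∀ g, (ι' g : B) = ι g := by
  refine ⟨ι.codRestrict (L.comap ρ) fun g => ?_, fun g => rfl⟩
  rw [Subgroup.mem_comap, (hL.cl.ker (ι g)).mpr ⟨g, rfl⟩]
  exact L.one_mem

theorem Stx_comp (T : Subgroup B) (σ : Finset (Subgroup G)) (ψ : G → ℂ) :
    Stx (κ.comp T.subtype) σ ψ = (Stx κ σ ψ).comap T.subtype := by
  ext x
  exact Iff.rfl

/-- The hypothesis on the partial sums. -/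
def HP (ℓ : ℕ) (𝔐 : Ideal (integralClosure ℤ ℂ)) (ι : G →* B) (κ : B →* MulAut G)
    (ρ : B →* C) : Prop :=
  ∀ (L : Subgroup C) (ι' : G →* L.comap ρ), (∀ g, (ι' g : B) = ι g) →
    PZ 𝔐 ℓ ι' (κ.comp (L.comap ρ).subtype)

theorem stepC (h6 : Stmt_LKBC) (h7 : Stmt_LZC)
    (hL : LocW ℓ ι κ ρ) (hmax : 𝔐.IsMaximal) (hℓ : (ℓ : integralClosure ℤ ℂ) ∈ 𝔐)
    (hD : HP ℓ 𝔐 ι κ ρ) (L' L : Subgroup C) (e : ℕ)
    (Θ : (L'.comap ρ → (integralClosure ℤ ℂ) ⧸ 𝔐) → B → (integralClosure ℤ ℂ) ⧸ 𝔐)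
    (hΘ : ∀ (σ : Finset (Subgroup G)) (ψ : G → ℂ) f, IrrOn (stb σ) ψ → ExtL ι κ ρ σ ψ L' f →
      cgT 𝔐 (L.comap ρ) f = Θ (fun g => cgT 𝔐 (L'.comap ρ) f g))
    (u : B → (integralClosure ℤ ℂ) ⧸ 𝔐)
    (hu : ¬ ∃ θ : G → ℂ, IsIrr θ ∧ HasDefect ℓ θ 0 ∧
      ∀ g, u (ι g) = cgO 𝔐 κ (L.comap ρ) θ g)
    (ω : L'.comap ρ → (integralClosure ℤ ℂ) ⧸ 𝔐) (hω : Θ ω = u) :
    ∑ σ ∈ Ch ℓ (⊥ : Subgroup G), (-1 : ℚ) ^ σ.card * ∑ ψ ∈ irrOn (stb σ),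
      (Nat.card (stb σ) : ℚ) * Nat.card (KL κ ρ σ ψ L') *
        Nat.card {f : B → ℂ // ExtL ι κ ρ σ ψ L' f ∧
          df ℓ (stb σ) ψ + padicValNat ℓ (Nat.card (KL κ ρ σ ψ L')) = e ∧
          ∀ g : L'.comap ρ, cgT 𝔐 (L'.comap ρ) f g = ω g} = 0 := by
  have e2 : ∑ σ ∈ Ch ℓ (⊥ : Subgroup G), (-1 : ℚ) ^ σ.card * ∑ ψ ∈ irrOn (stb σ),
        (Nat.card (stb σ) : ℚ) * Nat.card (KL κ ρ σ ψ L') *
        Nat.card {f : B → ℂ // ExtL ι κ ρ σ ψ L' f ∧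
          df ℓ (stb σ) ψ + padicValNat ℓ (Nat.card (KL κ ρ σ ψ L')) = e ∧
          ∀ g : L'.comap ρ, cgT 𝔐 (L'.comap ρ) f g = ω g} =
      PSm 𝔐 ℓ (κ.comp (L'.comap ρ).subtype) e ω := by
    rw [PSm]
    refine Finset.sum_congr rfl fun σ _ => ?_
    congr 1
    rw [WW, Stx_comp]
    exact (h6 G B C 𝔐 ℓ ι κ ρ hL hmax hℓ L' σ
      ((Stx κ σ (fun _ => 0)).comap (L'.comap ρ).subtype) rfl e ω).symm
  rw [e2]
  by_contra hne
  obtain ⟨ι', hι'⟩ := exists_iota hL L'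
  obtain ⟨χ, θ, hχ, hθ, hθ0, hχθ, hχω⟩ := hD L' ι' hι' e ω hne
  obtain ⟨f, hf, hfω⟩ := h7 G B C 𝔐 ℓ ι κ ρ hL L' ι' hι' χ θ hχ hθ hχθ
  apply hu
  refine ⟨θ, hθ, hθ0, fun g => ?_⟩
  have hst : IrrOn (stb (∅ : Finset (Subgroup G))) θ := by
    rw [stb_empty]
    exact ⟨hθ.comp_mulEquiv (Subgroup.topEquiv (G := G)),
      fun x hx => absurd (Subgroup.mem_top x) hx⟩
  have e3 : u = cgT 𝔐 (L.comap ρ) f := by
    rw [hΘ ∅ θ f hst hf, ← hω]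
    congr 1
    funext g
    rw [hfω g, hχω]
  rw [e3, (CGT_thm G B C 𝔐 ι κ ρ hL.cl).1]
  congr 1
  funext h
  exact hf.2 h

theorem stepD (h2 : Stmt_EXTBR) (h4 : Stmt_LTR) (h6 : Stmt_LKBC)
    (h7 : Stmt_LZC) (hL : LocW ℓ ι κ ρ) [Finite C] (hmax : 𝔐.IsMaximal)
    (hℓ : (ℓ : integralClosure ℤ ℂ) ∈ 𝔐)
    (hD : HP ℓ 𝔐 ι κ ρ) {L' L : Subgroup C} (hle : L' ≤ L)
    (u : B → (integralClosure ℤ ℂ) ⧸ 𝔐)
    (hu : ¬ ∃ θ : G → ℂ, IsIrr θ ∧ HasDefect ℓ θ 0 ∧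
      ∀ g, u (ι g) = cgO 𝔐 κ (L.comap ρ) θ g) (d : ℕ) :
    ∑ σ ∈ Ch ℓ (⊥ : Subgroup G), ∑ ψ ∈ irrOn (stb σ), ∑ f ∈ extF ι κ ρ σ ψ L,
      ((-1 : ℚ) ^ σ.card * (Nat.card (stb σ) : ℚ)) *
        (((Nat.card (L' ⊓ KL κ ρ σ ψ L : Subgroup C) : ℚ) ^ 2 /
          Nat.card (KL κ ρ σ ψ L)) * ind (trn ρ L' (cgT 𝔐 (L.comap ρ) f) = u ∧
            df ℓ (stb σ) ψ +
              padicValNat ℓ (Nat.card (L' ⊓ KL κ ρ σ ψ L : Subgroup C)) = d)) = 0 := by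
  classical
  obtain ⟨Θ, hΘ⟩ := h4 G B C 𝔐 ℓ ι κ ρ hL L' L hle
  let Om : Finset (L'.comap ρ → (integralClosure ℤ ℂ) ⧸ 𝔐) :=
    (Ch ℓ (⊥ : Subgroup G)).biUnion fun σ => (irrOn (stb σ)).biUnion fun ψ =>
      (extF ι κ ρ σ ψ L').image fun f => (fun g : L'.comap ρ => cgT 𝔐 (L'.comap ρ) f g)
  have hOm : ∀ σ ∈ Ch ℓ (⊥ : Subgroup G), ∀ ψ ∈ irrOn (stb σ), ∀ f ∈ extF ι κ ρ σ ψ L',
      (fun g : L'.comap ρ => cgT 𝔐 (L'.comap ρ) f g) ∈ Om := by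
    intro σ hσ ψ hψ f hf
    exact Finset.mem_biUnion.mpr ⟨σ, hσ, Finset.mem_biUnion.mpr ⟨ψ, hψ,
      Finset.mem_image.mpr ⟨f, hf, rfl⟩⟩⟩
  have e1 : ∀ σ ∈ Ch ℓ (⊥ : Subgroup G), ∀ ψ ∈ irrOn (stb σ), ∑ f ∈ extF ι κ ρ σ ψ L,
      ((-1 : ℚ) ^ σ.card * (Nat.card (stb σ) : ℚ)) *
        (((Nat.card (L' ⊓ KL κ ρ σ ψ L : Subgroup C) : ℚ) ^ 2 /
          Nat.card (KL κ ρ σ ψ L)) * ind (trn ρ L' (cgT 𝔐 (L.comap ρ) f) = u ∧
            df ℓ (stb σ) ψ +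
              padicValNat ℓ (Nat.card (L' ⊓ KL κ ρ σ ψ L : Subgroup C)) = d)) =
      ∑ ω ∈ Om, ind (Θ ω = u) * ((-1 : ℚ) ^ σ.card *
        ((Nat.card (stb σ) : ℚ) * Nat.card (KL κ ρ σ ψ L') *
        Nat.card {f : B → ℂ // ExtL ι κ ρ σ ψ L' f ∧
          df ℓ (stb σ) ψ + padicValNat ℓ (Nat.card (KL κ ρ σ ψ L')) = d ∧
          ∀ g : L'.comap ρ, cgT 𝔐 (L'.comap ρ) f g = ω g})) := by
    intro σ hσ ψ hψ
    have hψ' := IRRPI.mem_irrOn.mp hψ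
    rw [← Finset.mul_sum, stepA 𝔐 h2 hL hle hψ' u d]
    have e3 := stepB (ι := ι) (κ := κ) (ρ := ρ) 𝔐 L' L
      (df ℓ (stb σ) ψ + padicValNat ℓ (Nat.card (KL κ ρ σ ψ L')) = d) Θ
      (fun f hf => hΘ σ ψ f hψ' hf) Om (fun f hf => hOm σ hσ ψ hψ f hf) u
    rw [e3, Finset.mul_sum, Finset.mul_sum]
    refine Finset.sum_congr rfl fun ω _ => ?_
    ring
  rw [Finset.sum_congr rfl fun σ hσ => Finset.sum_congr rfl fun ψ hψ => e1 σ hσ ψ hψ]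
  have e4 : ∀ σ ∈ Ch ℓ (⊥ : Subgroup G), ∑ ψ ∈ irrOn (stb σ),
      ∑ ω ∈ Om, ind (Θ ω = u) * ((-1 : ℚ) ^ σ.card *
        ((Nat.card (stb σ) : ℚ) * Nat.card (KL κ ρ σ ψ L') *
        Nat.card {f : B → ℂ // ExtL ι κ ρ σ ψ L' f ∧
          df ℓ (stb σ) ψ + padicValNat ℓ (Nat.card (KL κ ρ σ ψ L')) = d ∧
          ∀ g : L'.comap ρ, cgT 𝔐 (L'.comap ρ) f g = ω g})) =
      ∑ ω ∈ Om, ind (Θ ω = u) * ((-1 : ℚ) ^ σ.card * ∑ ψ ∈ irrOn (stb σ),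
        (Nat.card (stb σ) : ℚ) * Nat.card (KL κ ρ σ ψ L') *
        Nat.card {f : B → ℂ // ExtL ι κ ρ σ ψ L' f ∧
          df ℓ (stb σ) ψ + padicValNat ℓ (Nat.card (KL κ ρ σ ψ L')) = d ∧
          ∀ g : L'.comap ρ, cgT 𝔐 (L'.comap ρ) f g = ω g}) := by
    intro σ _
    rw [Finset.sum_comm]
    refine Finset.sum_congr rfl fun ω _ => ?_
    rw [← Finset.mul_sum, ← Finset.mul_sum]
  rw [Finset.sum_congr rfl e4, Finset.sum_comm]
  apply Finset.sum_eq_zero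
  intro ω _
  rw [← Finset.mul_sum]
  by_cases hω : Θ ω = u
  · rw [stepC 𝔐 h6 h7 hL hmax hℓ hD L' L d Θ hΘ u hu ω hω, mul_zero]
  · rw [ind_neg hω, zero_mul]

/-- The result of the inversion. -/
theorem stepE (h2 : Stmt_EXTBR) (h4 : Stmt_LTR) (h6 : Stmt_LKBC)
    (h7 : Stmt_LZC) (h8 : Stmt_MOBBC) (hL : LocW ℓ ι κ ρ) [Finite C]
    (hmax : 𝔐.IsMaximal) (hℓ : (ℓ : integralClosure ℤ ℂ) ∈ 𝔐)
    (hD : HP ℓ 𝔐 ι κ ρ) (L : Subgroup C)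
    (e : ℕ) (u : B → (integralClosure ℤ ℂ) ⧸ 𝔐)
    (hu : ¬ ∃ θ : G → ℂ, IsIrr θ ∧ HasDefect ℓ θ 0 ∧
      ∀ g, u (ι g) = cgO 𝔐 κ (L.comap ρ) θ g) :
    ∑ σ ∈ Ch ℓ (⊥ : Subgroup G), ∑ ψ ∈ irrOn (stb σ), ∑ f ∈ extF ι κ ρ σ ψ L,
      ((-1 : ℚ) ^ σ.card * (Nat.card (stb σ) : ℚ)) *
        ind (KL κ ρ σ ψ L = L ∧ cgT 𝔐 (L.comap ρ) f = u ∧ df ℓ (stb σ) ψ = e) = 0 := by
  classical
  let T : Finset (Σ _ : Finset (Subgroup G), Σ _ : G → ℂ, B → ℂ) :=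
    (Ch ℓ (⊥ : Subgroup G)).sigma fun σ => (irrOn (stb σ)).sigma fun ψ => extF ι κ ρ σ ψ L
  have hsum : ∀ F : Finset (Subgroup G) → (G → ℂ) → (B → ℂ) → ℚ,
      ∑ i : {t // t ∈ T}, F i.1.1 i.1.2.1 i.1.2.2 =
        ∑ σ ∈ Ch ℓ (⊥ : Subgroup G), ∑ ψ ∈ irrOn (stb σ), ∑ f ∈ extF ι κ ρ σ ψ L, F σ ψ f := by
    intro F
    have h1 : ∑ i : {t // t ∈ T}, F i.1.1 i.1.2.1 i.1.2.2 =
        ∑ t ∈ T, F t.1 t.2.1 t.2.2 :=
      Finset.sum_coe_sort T (fun t => F t.1 t.2.1 t.2.2)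
    rw [h1, Finset.sum_sigma]
    refine Finset.sum_congr rfl fun σ _ => ?_
    rw [Finset.sum_sigma]
  have key := h8 C {t // t ∈ T} (B → (integralClosure ℤ ℂ) ⧸ 𝔐) ℓ hL.cyc L
    (fun i => (-1 : ℚ) ^ i.1.1.card * (Nat.card (stb i.1.1) : ℚ))
    (fun i => KL κ ρ i.1.1 i.1.2.1 L) (fun i => cgT 𝔐 (L.comap ρ) i.1.2.2)
    (fun i => df ℓ (stb i.1.1) i.1.2.1)
    (fun L' u => trn ρ L' u)
    (fun u => ¬ ∃ θ : G → ℂ, IsIrr θ ∧ HasDefect ℓ θ 0 ∧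
      ∀ g, u (ι g) = cgO 𝔐 κ (L.comap ρ) θ g)
    (fun i => inf_le_right)
    (by
      rintro ⟨⟨σ, ψ, f⟩, hi⟩
      have hf : ExtL ι κ ρ σ ψ L f := by
        have h1 := Finset.mem_sigma.mp hi
        have h2 := Finset.mem_sigma.mp h1.2
        exact mem_extF.mp h2.2
      change trn ρ (KL κ ρ σ ψ L) (cgT 𝔐 (L.comap ρ) f) = cgT 𝔐 (L.comap ρ) f
      rw [trn_cgT 𝔐 hL, trn_ext hf])
    (fun L' L'' u => trn_trn L' L'' u)
    (by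
      intro L' u
      have h1 : ∀ g, trn ρ L' u (ι g) = u (ι g) := by
        intro g
        apply trn_of_mem
        rw [(hL.cl.ker (ι g)).mpr ⟨g, rfl⟩]
        exact L'.one_mem
      simp only [h1])
    (by
      intro L' hle u hu d
      simp only [ite_eq_ind]
      rw [hsum (fun σ ψ f => ((-1 : ℚ) ^ σ.card * (Nat.card (stb σ) : ℚ)) *
        (((Nat.card (L' ⊓ KL κ ρ σ ψ L : Subgroup C) : ℚ) ^ 2 /
          Nat.card (KL κ ρ σ ψ L)) * ind (trn ρ L' (cgT 𝔐 (L.comap ρ) f) = u ∧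
            df ℓ (stb σ) ψ +
              padicValNat ℓ (Nat.card (L' ⊓ KL κ ρ σ ψ L : Subgroup C)) = d)))]
      exact stepD 𝔐 h2 h4 h6 h7 hL hmax hℓ hD hle u hu d)
    u hu e
  simp only [ite_eq_ind] at key
  rw [hsum (fun σ ψ f => ((-1 : ℚ) ^ σ.card * (Nat.card (stb σ) : ℚ)) *
    ind (KL κ ρ σ ψ L = L ∧ cgT 𝔐 (L.comap ρ) f = u ∧ df ℓ (stb σ) ψ = e))] at key
  exact key

/-- A class of central functions of a counted pair is good. -/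
theorem stepF (hL : LocW ℓ ι κ ρ) (hmax : 𝔐.IsMaximal)
    (hℓ : (ℓ : integralClosure ℤ ℂ) ∈ 𝔐) (L : Subgroup C)
    (β : Set (B → (integralClosure ℤ ℂ) ⧸ 𝔐)) (hβ : ¬ dzT 𝔐 ℓ ι β)
    {σ : Finset (Subgroup G)} (hσ : σ ∈ Ch ℓ (⊥ : Subgroup G)) {ψ : G → ℂ}
    (hψ : IrrOn (stb σ) ψ) {f : B → ℂ} (hf : ExtL ι κ ρ σ ψ L f)
    (hfβ : cgT 𝔐 ι.range f ∈ β) :
    ¬ ∃ θ : G → ℂ, IsIrr θ ∧ HasDefect ℓ θ 0 ∧
      ∀ g, cgT 𝔐 (L.comap ρ) f (ι g) = cgO 𝔐 κ (L.comap ρ) θ g := by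
  rintro ⟨θ, hθ, hθ0, hθg⟩
  have hfι : (fun h => f (ι h)) = ψ := funext hf.2
  have e1 : cgO 𝔐 κ (L.comap ρ) ψ = cgO 𝔐 κ (L.comap ρ) θ := by
    funext g
    rw [← hθg g, (CGT_thm G B C 𝔐 ι κ ρ hL.cl).1, hfι]
  have e2 : df ℓ (stb σ) ψ = 0 := by
    refine LSEP_thm G B 𝔐 ℓ κ hmax hℓ (L.comap ρ) (fun g => ⟨ι g, ?_, ?_⟩) (stb σ) ψ θ hψ hθ
      hθ0 e1
    · rw [Subgroup.mem_comap, (hL.cl.ker (ι g)).mpr ⟨g, rfl⟩]
      exact L.one_mem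
    · ext a
      apply hL.cl.inj
      rw [hL.cl.act]
      simp
  have e3 := AA.hasDefect_df ℓ (stb σ) hψ
  rw [e2] at e3
  have e4 : σ = ∅ := DZT_thm G ℓ σ (mem_Ch.mp hσ) _ hψ.1 e3
  have e5 : stb σ = ⊤ := by rw [e4, stb_empty]
  apply hβ
  refine ⟨cgT 𝔐 ι.range f, hfβ, ψ, AA.irr_top e5 hψ, AA.hasDefect_top e5 e3, fun g => ?_⟩
  rw [(CGT_thm G B C 𝔐 ι κ ρ hL.cl).2.1, hfι]

end

end VVC

open Pool.Agent.DP.VV (ind ite_eq_ind ind_pos ind_neg ind_and ind_congr KL_inf KL_eq_iff extF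
  mem_extF) in
theorem VVC_thm (h1 : Stmt_EXTAR) (h2 : Stmt_EXTBR) (h3 : Stmt_BETG) (h4 : Stmt_LTR)
    (h5 : Stmt_LTIC) (h6 : Stmt_LKBC) (h7 : Stmt_LZC) (h8 : Stmt_MOBBC) : Stmt_VVC := by
  classical
  intro G B C _ _ _ _ _ 𝔐 ℓ _ ι κ ρ hL hmax hℓ hD L β e hβ
  have hfin : Finite C := Finite.of_surjective ρ hL.surj
  -- the counted pairs
  by_cases hex : ∃ σ ∈ Ch ℓ (⊥ : Subgroup G), ∃ ψ ∈ irrOn (stb σ),
      L ≤ (Stx κ σ ψ).map ρ ∧ df ℓ (stb σ) ψ = e ∧ bet 𝔐 ι κ ρ σ ψ L = β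
  · obtain ⟨σ1, hσ1, ψ1, hψ1, hL1, hd1, hβ1⟩ := hex
    have hψ1' := IRRPI.mem_irrOn.mp hψ1
    -- the set of values
    let U : Finset (B → (integralClosure ℤ ℂ) ⧸ 𝔐) :=
      (Ch ℓ (⊥ : Subgroup G)).biUnion fun σ => (irrOn (stb σ)).biUnion fun ψ =>
        ((extF ι κ ρ σ ψ L).filter fun f => KL κ ρ σ ψ L = L ∧
          cgT 𝔐 ι.range f ∈ β).image fun f => cgT 𝔐 (L.comap ρ) f
    have hU : ∀ u, u ∈ U ↔ ∃ σ ∈ Ch ℓ (⊥ : Subgroup G), ∃ ψ ∈ irrOn (stb σ),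
        ∃ f, ExtL ι κ ρ σ ψ L f ∧ KL κ ρ σ ψ L = L ∧ cgT 𝔐 ι.range f ∈ β ∧
          cgT 𝔐 (L.comap ρ) f = u := by
      intro u
      simp only [U, Finset.mem_biUnion, Finset.mem_image, Finset.mem_filter, mem_extF]
      constructor
      · rintro ⟨σ, hσ, ψ, hψ, f, ⟨hf, hk, hb⟩, rfl⟩
        exact ⟨σ, hσ, ψ, hψ, f, hf, hk, hb, rfl⟩
      · rintro ⟨σ, hσ, ψ, hψ, f, hf, hk, hb, rfl⟩
        exact ⟨σ, hσ, ψ, hψ, f, ⟨hf, hk, hb⟩, rfl⟩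
    have hzero : ∀ u ∈ U, ∑ σ ∈ Ch ℓ (⊥ : Subgroup G), ∑ ψ ∈ irrOn (stb σ),
        ∑ f ∈ extF ι κ ρ σ ψ L,
        ((-1 : ℚ) ^ σ.card * (Nat.card (stb σ) : ℚ)) *
          ind (KL κ ρ σ ψ L = L ∧ cgT 𝔐 (L.comap ρ) f = u ∧ df ℓ (stb σ) ψ = e) = 0 := by
      intro u hu
      obtain ⟨σ, hσ, ψ, hψ, f, hf, hk, hb, rfl⟩ := (hU u).mp hu
      exact VVC.stepE 𝔐 h2 h4 h6 h7 h8 hL hmax hℓ hD L e _
        (VVC.stepF 𝔐 hL hmax hℓ L β hβ hσ (IRRPI.mem_irrOn.mp hψ) hf hb)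
    have hsum := Finset.sum_eq_zero hzero
    -- exchange
    have e1 : ∑ u ∈ U, ∑ σ ∈ Ch ℓ (⊥ : Subgroup G), ∑ ψ ∈ irrOn (stb σ),
        ∑ f ∈ extF ι κ ρ σ ψ L,
        ((-1 : ℚ) ^ σ.card * (Nat.card (stb σ) : ℚ)) *
          ind (KL κ ρ σ ψ L = L ∧ cgT 𝔐 (L.comap ρ) f = u ∧ df ℓ (stb σ) ψ = e) =
        ∑ σ ∈ Ch ℓ (⊥ : Subgroup G), ∑ ψ ∈ irrOn (stb σ),
          (Nat.card L : ℚ) * ((-1 : ℚ) ^ σ.card * ((Nat.card (stb σ) : ℚ) *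
            ind (L ≤ (Stx κ σ ψ).map ρ ∧ df ℓ (stb σ) ψ = e ∧
              bet 𝔐 ι κ ρ σ ψ L = β))) := by
      rw [Finset.sum_comm]
      refine Finset.sum_congr rfl fun σ hσ => ?_
      rw [Finset.sum_comm]
      refine Finset.sum_congr rfl fun ψ hψ => ?_
      have hψ' := IRRPI.mem_irrOn.mp hψ
      rw [Finset.sum_comm]
      by_cases hk : KL κ ρ σ ψ L = L
      · have hk' := (KL_eq_iff σ ψ L).mp hk
        -- for every extension the number of values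
        have e2 : ∀ f ∈ extF ι κ ρ σ ψ L, ∑ u ∈ U,
            ((-1 : ℚ) ^ σ.card * (Nat.card (stb σ) : ℚ)) *
              ind (KL κ ρ σ ψ L = L ∧ cgT 𝔐 (L.comap ρ) f = u ∧ df ℓ (stb σ) ψ = e) =
            ((-1 : ℚ) ^ σ.card * (Nat.card (stb σ) : ℚ)) *
              (ind (df ℓ (stb σ) ψ = e) * ind (bet 𝔐 ι κ ρ σ ψ L = β)) := by
          intro f hf
          have hf' := mem_extF.mp hf
          rw [← Finset.mul_sum]
          congr 1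
          by_cases hfb : cgT 𝔐 ι.range f ∈ β
          · have hbet : bet 𝔐 ι κ ρ σ ψ L = β := by
              have hfb' := hfb
              rw [← hβ1] at hfb'
              obtain ⟨f1, hf1, hf1'⟩ := hfb'
              rw [← hβ1]
              exact (h3 G B C 𝔐 ℓ ι κ ρ hL).2 σ σ1 ψ ψ1 hψ' hψ1' L f f1 hf' hf1 hf1'
            rw [ind_pos hbet, mul_one, Finset.sum_eq_single (cgT 𝔐 (L.comap ρ) f)]
            · exact ind_congr ⟨fun h => h.2.2, fun h => ⟨hk, rfl, h⟩⟩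
            · intro u _ hne
              exact ind_neg fun h => hne h.2.1.symm
            · intro hn
              exact absurd ((hU _).mpr ⟨σ, hσ, ψ, hψ, f, hf', hk, hfb, rfl⟩) hn
          · have hbet : ¬ bet 𝔐 ι κ ρ σ ψ L = β := by
              intro h
              apply hfb
              rw [← h]
              exact ⟨f, hf', rfl⟩
            rw [ind_neg hbet, mul_zero]
            apply Finset.sum_eq_zero
            intro u hu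
            apply ind_neg
            rintro ⟨_, rfl, _⟩
            obtain ⟨σ2, hσ2, ψ2, hψ2, f2, hf2, hk2, hb2, he2⟩ := (hU _).mp hu
            have h12 := (h5 G B C 𝔐 ℓ ι κ ρ hL hmax hℓ L σ2 σ ψ2 ψ f2 f
              (mem_Ch.mp hσ2) (mem_Ch.mp hσ)
              (IRRPI.mem_irrOn.mp hψ2) hψ' ((KL_eq_iff σ2 ψ2 L).mp hk2) hk' hf2 hf').mp he2
            rw [h12] at hb2
            exact hfb hb2
        rw [Finset.sum_congr rfl e2, Finset.sum_const, nsmul_eq_mul]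
        have hcard : ((extF ι κ ρ σ ψ L).card : ℚ) = Nat.card L := by
          have h12 := (h1 G B C ℓ ι κ ρ hL σ ψ hψ' L).2.2.2.2.2
          have h13 : Nat.card {f : B → ℂ // ExtL ι κ ρ σ ψ L f} =
              (extF ι κ ρ σ ψ L).card :=
            Nat.subtype_card _ fun f => mem_extF
          rw [← h13, h12, hk]
        rw [hcard, ind_and, ind_and, ind_pos hk']
        ring
      · have hk' : ¬ L ≤ (Stx κ σ ψ).map ρ := fun h => hk ((KL_eq_iff σ ψ L).mpr h)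
        rw [ind_neg (p := L ≤ (Stx κ σ ψ).map ρ ∧ df ℓ (stb σ) ψ = e ∧
          bet 𝔐 ι κ ρ σ ψ L = β) (fun h => hk' h.1)]
        rw [mul_zero, mul_zero, mul_zero]
        apply Finset.sum_eq_zero
        intro f _
        apply Finset.sum_eq_zero
        intro u _
        rw [ind_neg (p := KL κ ρ σ ψ L = L ∧ cgT 𝔐 (L.comap ρ) f = u ∧ df ℓ (stb σ) ψ = e)
          (fun h => hk h.1), mul_zero]
    rw [e1] at hsum
    have hLc : (Nat.card L : ℚ) ≠ 0 := by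
      exact_mod_cast Nat.card_pos.ne'
    have e3 : (Nat.card L : ℚ) * VS 𝔐 ℓ ι κ ρ L β e = 0 := by
      rw [← hsum, VS, Finset.mul_sum]
      refine Finset.sum_congr rfl fun σ _ => ?_
      rw [Finset.mul_sum, Finset.mul_sum]
      refine Finset.sum_congr rfl fun ψ _ => ?_
      rw [ite_eq_ind]
    exact (mul_eq_zero.mp e3).resolve_left hLc
  · rw [VS]
    apply Finset.sum_eq_zero
    intro σ hσ
    have : ∑ ψ ∈ irrOn (stb σ), (Nat.card (stb σ) : ℚ) * (if L ≤ (Stx κ σ ψ).map ρ ∧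
        df ℓ (stb σ) ψ = e ∧ bet 𝔐 ι κ ρ σ ψ L = β then 1 else 0) = 0 := by
      apply Finset.sum_eq_zero
      intro ψ hψ
      rw [if_neg, mul_zero]
      intro h
      exact hex ⟨σ, hσ, ψ, hψ, h⟩
    rw [this, mul_zero]

end Pool.Agent.DPC


end

section

/-!
# Theorem W: module FXG, the normalizer of a defect group of an invariant block
-/

namespace Pool.Agent.DPW

open Pool.Agent.DP Pool.Agent.DPV Pool.Agent.Lib_helper13 Representation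
open Pool.Agent.Lib_helper13.Dade (pCore DadeHolds dadeSum)

namespace FXG

theorem card_cen_map {G : Type} [Group G] (e : MulAut G) (x : G) :
    Nat.card (Subgroup.centralizer ({e x} : Set G)) =
      Nat.card (Subgroup.centralizer ({x} : Set G)) := by
  have h : Subgroup.centralizer ({e x} : Set G) =
      (Subgroup.centralizer ({x} : Set G)).map e.toMonoidHom := by
    ext y
    simp only [Subgroup.mem_map, Subgroup.mem_centralizer_iff, Set.mem_singleton_iff, forall_eq]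
    constructor
    · intro hy
      refine ⟨e.symm y, ?_, ?_⟩
      · apply e.injective
        rw [map_mul, map_mul, MulEquiv.apply_symm_apply]
        exact hy
      · exact e.apply_symm_apply y
    · rintro ⟨z, hz, rfl⟩
      change e x * e z = e z * e x
      rw [← map_mul, ← map_mul, hz]
  rw [h]
  exact Nat.card_congr (Subgroup.equivMapOfInjective _ _ e.injective).toEquiv.symm

theorem at1_map {G B F : Type} [Group G] [Group B] [Zero F] {ℓ : ℕ} {κ : B →* MulAut G}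
    {ω : G → F} {P : Subgroup G} {x₀ : G} (h : At1 ℓ ω P x₀) (hω : ∀ b g, ω (κ b g) = ω g)
    (b : B) : At1 ℓ ω (P.map (κ b).toMonoidHom) (κ b x₀) := by
  refine ⟨?_, ?_, ?_, ?_⟩
  · rw [hω]
    exact h.ne
  · rw [← h.card]
    exact Nat.card_congr (Subgroup.equivMapOfInjective P _ (κ b).injective).toEquiv.symm
  · rintro u ⟨v, hv, rfl⟩
    change κ b v * κ b x₀ = κ b x₀ * κ b v
    rw [← map_mul, ← map_mul, h.cen v hv]
  · rw [card_cen_map]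
    exact h.sq

theorem exists_local (h2 : Stmt_CNTB) {T : Type} [Group T] [Fintype T]
    (𝔐 : Ideal (integralClosure ℤ ℂ)) (ℓ : ℕ) [Fact ℓ.Prime] (hmax : 𝔐.IsMaximal)
    (hℓ : (ℓ : integralClosure ℤ ℂ) ∈ 𝔐) {ω : T → (integralClosure ℤ ℂ) ⧸ 𝔐} (hD : D1 ℓ ω)
    {P : Subgroup T} {x₀ : T} (hA : At1 ℓ ω P x₀) {θ : T → ℂ} (hθ : IsIrr θ)
    (hc : cen 𝔐 (MonoidHom.id T) θ = ω) :
    ∃ f : T → ℂ, IrrOn (stb {P}) f ∧ ∀ g, cg 𝔐 f g = ω g := by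
  classical
  haveI : Fintype (DPB.NP P) := Fintype.ofFinite _
  subst hc
  have h := h2 T 𝔐 ℓ hmax hℓ θ hθ hD P x₀ hA
  haveI hf : Finite {χ : T → ℂ // IsIrr χ ∧
      cen 𝔐 (MonoidHom.id T) χ = cen 𝔐 (MonoidHom.id T) θ} :=
    Finite.of_injective
      (fun χ => (⟨χ.1, χ.2.1⟩ : {χ : T → ℂ // IsIrr χ}))
      (fun χ χ' hh => Subtype.ext (congrArg (fun z => z.1) hh))
  haveI hn : Nonempty {χ : T → ℂ // IsIrr χ ∧
      cen 𝔐 (MonoidHom.id T) χ = cen 𝔐 (MonoidHom.id T) θ} := ⟨⟨θ, hθ, rfl⟩⟩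
  have hpos : 0 < Nat.card {χ : T → ℂ // IsIrr χ ∧
      cen 𝔐 (MonoidHom.id T) χ = cen 𝔐 (MonoidHom.id T) θ} := Nat.card_pos
  rw [h] at hpos
  obtain ⟨⟨ψ, hψ, hψc⟩⟩ := (Nat.card_pos_iff.mp hpos).1
  have hext : (fun s : Subgroup.normalizer (P : Set T) => ext0 ψ (s : T)) = ψ := by
    funext s
    exact ext0_of_mem ψ s.2
  have hzero : ∀ x, x ∉ Subgroup.normalizer (P : Set T) → ext0 ψ x = 0 :=
    fun x hx => ext0_of_not_mem ψ hx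
  refine ⟨ext0 ψ, ?_, fun g => ?_⟩
  · rw [DPB.LOC.stb_singleton P]
    refine ⟨?_, hzero⟩
    rw [hext]
    exact hψ
  · rw [← BLKC.cg_eq_cen 𝔐 (Subgroup.normalizer (P : Set T)) (ext0 ψ) hzero g, hext, hψc]

end FXG

theorem FXG_thm (h1 : Stmt_CHNW) (h2 : Stmt_CNTB) : Stmt_FXG := by
  classical
  intro G B C _ _ _ _ _ 𝔐 ℓ _ hmax hℓ ι κ ρ h ω hD P x₀ hA hω hex
  obtain ⟨θ, hθ, hc⟩ := hex
  obtain ⟨f, hf, hfω⟩ := FXG.exists_local h2 𝔐 ℓ hmax hℓ hD hA hθ hc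
  have hpr : ℓ.Prime := Fact.out
  have hPg : IsPGroup ℓ P := IsPGroup.of_card (n := 1) (by rw [hA.card, pow_one])
  have hne : P ≠ ⊥ := by
    rintro rfl
    have h3 := hA.card
    rw [Subgroup.card_bot] at h3
    exact hpr.one_lt.ne h3
  rw [eq_top_iff]
  rintro c -
  obtain ⟨b, rfl⟩ := h.surj c
  have hAb := FXG.at1_map hA hω b
  rcases h1 G 𝔐 ℓ hmax hℓ ω _ _ hAb {P} (DPB.LOC.isCh_singleton hPg hne) f hf hfω with h4 | h4
  · exact absurd h4 (Finset.singleton_ne_empty P)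
  obtain ⟨g, hg⟩ := h4
  have h5 : P = (P.map (κ b).toMonoidHom).map (MulAut.conj g).toMonoidHom :=
    Finset.singleton_injective hg
  have hcl := h.cl
  refine ⟨ι g * b, ?_, ?_⟩
  · change ι g * b ∈ stb (mapCh ι {P})
    rw [mem_stb]
    intro D hD'
    obtain ⟨E, hE, rfl⟩ := mem_mapCh.mp hD'
    rw [Finset.mem_singleton] at hE
    subst hE
    have h6 : ((MulAut.conj (ι g * b)).toMonoidHom).comp ι =
        ι.comp (((MulAut.conj g).toMonoidHom).comp (κ b).toMonoidHom) := by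
      ext a
      change (ι g * b) * ι a * (ι g * b)⁻¹ = ι (g * κ b a * g⁻¹)
      rw [map_mul, map_mul, map_inv, hcl.act, mul_inv_rev]
      simp only [mul_assoc]
    rw [Subgroup.map_map, h6, ← Subgroup.map_map, ← Subgroup.map_map, ← h5]
  · rw [map_mul, (hcl.ker (ι g)).mpr ⟨g, rfl⟩, one_mul]

end Pool.Agent.DPW


end
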