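import Mathlib
import Pool.Agent.DAM.C03
import Pool.Agent.DAM.C06
import Pool.Agent.DAM.C08
import Pool.Agent.DAM.C09
import Pool.Agent.DAM.C10
import Pool.Agent.DAM.C12
import Pool.Agent.DAM.C13
import Pool.Agent.DAM.C14
import Pool.Agent.DAM.C15
import Pool.Agent.DAM.C23
import Pool.Agent.DAM.C25
import Pool.Agent.DAM.C26
import Pool.Agent.DAM.C43
import Pool.Agent.DAM.C54

/-! Parts: Lib_helper13.Unique, Lib_helper13.Amplify, DPM.GALX, DPM.GAU, DPN.NUX, DPT.DGSD, DP.BLKCR, DPV.BEQV, DPC.PERBR -/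

section

set_option linter.unusedSectionVars false

/-! Uniqueness of the block function of a wreath product with a group of order `ℓ` over a given
block function of the base group, and Frobenius roots. -/

namespace Pool.Agent.Lib_helper13

open Representation

section Roots

variable (𝔐 : Ideal (integralClosure ℤ ℂ))

theorem exists_root {ℓ : ℕ} (hℓ0 : 0 < ℓ) :
    ∃ r : (integralClosure ℤ ℂ) ⧸ 𝔐 → (integralClosure ℤ ℂ) ⧸ 𝔐, ∀ x, r x ^ ℓ = x := by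
  have h : ∀ x : (integralClosure ℤ ℂ) ⧸ 𝔐, ∃ y, y ^ ℓ = x := by
    intro x
    obtain ⟨a, rfl⟩ := Ideal.Quotient.mk_surjective x
    obtain ⟨b, hb⟩ := IsAlgClosed.exists_pow_nat_eq (a : ℂ) hℓ0
    have hbi : IsIntegral ℤ b := by
      apply IsIntegral.of_pow hℓ0
      rw [hb]
      exact a.2
    refine ⟨Ideal.Quotient.mk 𝔐 ⟨b, hbi⟩, ?_⟩
    rw [← map_pow]
    congr 1
    exact Subtype.ext hb
  exact ⟨fun x => (h x).choose, fun x => (h x).choose_spec⟩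

theorem frob_inj [h𝔐 : 𝔐.IsPrime] {ℓ : ℕ} [Fact ℓ.Prime]
    (hℓ : (ℓ : integralClosure ℤ ℂ) ∈ 𝔐) {x y : (integralClosure ℤ ℂ) ⧸ 𝔐}
    (h : x ^ ℓ = y ^ ℓ) : x = y := by
  have hchar := quot_char 𝔐 hℓ
  have h1 : (x - y) ^ ℓ = 0 := by rw [sub_pow_char, h, sub_self]
  exact sub_eq_zero.mp ((pow_eq_zero_iff (Fact.out : ℓ.Prime).ne_zero).mp h1)

end Roots

section Uniq

variable {G Q : Type*} [Group G] [Fintype G] [CommGroup Q] [Fintype Q] [DecidableEq Q]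
variable (𝔐 : Ideal (integralClosure ℤ ℂ))

theorem right_eq_of_isConj {x y : G ≀ᵣ Q} (h : IsConj x y) : x.right = y.right := by
  obtain ⟨a, ha⟩ := isConj_iff.mp h
  rw [← ha]
  change x.right = a.right * x.right * a.right⁻¹
  rw [mul_comm a.right, mul_inv_cancel_right]

theorem cpow_iz_right (g : G ≀ᵣ Q) (n : ℕ) (x : G ≀ᵣ Q)
    (h : cpow (iz (ConjClasses.mk g)) n x ≠ 0) : x.right = g.right ^ n := by
  classical
  induction n generalizing x with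
  | zero =>
    rw [cpow] at h
    by_cases hx : x = 1
    · rw [hx, pow_zero]
      rfl
    · exact absurd (if_neg hx) h
  | succ n ih =>
    rw [cpow, conv] at h
    obtain ⟨y, _, hy⟩ := Finset.exists_ne_zero_of_sum_ne_zero h
    have h1 := ih y (left_ne_zero_of_mul hy)
    have h2 : iz (ConjClasses.mk g) (y⁻¹ * x) ≠ 0 := right_ne_zero_of_mul hy
    have h3 : IsConj (y⁻¹ * x) g := by
      by_contra hcon
      apply h2
      rw [iz, if_neg]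
      rwa [ConjClasses.mk_eq_mk_iff_isConj]
    have h4 := right_eq_of_isConj h3
    have h5 : y.right⁻¹ * x.right = g.right := h4
    rw [pow_succ, ← h1, ← h5, mul_inv_cancel_left]

theorem c_pow [h𝔐 : 𝔐.IsPrime] {ℓ : ℕ} [Fact ℓ.Prime]
    (hℓ : (ℓ : integralClosure ℤ ℂ) ∈ 𝔐) (hq : Nat.card Q = ℓ)
    {ω : G → (integralClosure ℤ ℂ) ⧸ 𝔐} {c : G ≀ᵣ Q → (integralClosure ℤ ℂ) ⧸ 𝔐}
    (h : ∀ u : Q → G, pair 𝔐 (fun x => conjInd x (bse u)) c = Wf 𝔐 Q ω u)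
    (hne : ∃ d, KK 𝔐 ℓ d ⊥ c ≠ 0) (g : G ≀ᵣ Q) :
    c g ^ ℓ = ∑ᶠ C : ConjClasses (G ≀ᵣ Q),
      red 𝔐 ((cpow (iz (ConjClasses.mk g)) ℓ C.out : ℤ) : ℂ) * Wf 𝔐 Q ω C.out.left := by
  classical
  obtain ⟨d, hd⟩ := hne
  obtain ⟨τ, hτ, ψ, hψ, _, hcen⟩ := KK_ne_zero 𝔐 hd
  have hcen' : cen 𝔐 (stb τ).subtype ψ = c := funext hcen
  have hm := exists_irr_of_chain 𝔐 hℓ hτ hψ
  have h1 : c g = Lam 𝔐 ψ (iz (ConjClasses.mk g)) := by
    rw [← hcen g, cen, Lam]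
    congr 2
    ext s
    rw [conjInd, iz]
    by_cases hs : IsConj ((stb τ).subtype s) g
    · have hs' : ConjClasses.mk (s : G ≀ᵣ Q) = ConjClasses.mk g :=
        ConjClasses.mk_eq_mk_iff_isConj.mpr hs
      rw [if_pos hs, if_pos hs']
      simp
    · have hs' : ¬ ConjClasses.mk (s : G ≀ᵣ Q) = ConjClasses.mk g :=
        fun h' => hs (ConjClasses.mk_eq_mk_iff_isConj.mp h')
      rw [if_neg hs, if_neg hs']
      simp
  rw [h1, ← Lam_cpow 𝔐 hψ hm (iz_supp _), Lam]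
  have hcl : ∀ a x, cpow (iz (ConjClasses.mk g)) ℓ (a * x * a⁻¹) =
      cpow (iz (ConjClasses.mk g)) ℓ x := fun a x =>
    (cpow_supp (⊤ : Subgroup (G ≀ᵣ Q)) (iz_supp (ConjClasses.mk g)) ℓ).2 a trivial x
  have h2 := red_wt_eq_pair 𝔐 (stb τ).subtype hψ
    (fun x => ((cpow (iz (ConjClasses.mk g)) ℓ x : ℤ) : ℂ)) (fun a x => by rw [hcl])
    (fun x => isIntegral_intCast _)
  rw [hcen'] at h2
  refine Eq.trans h2 ?_
  rw [pair]
  refine finsum_congr fun C => ?_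
  by_cases hC : cpow (iz (ConjClasses.mk g)) ℓ C.out = 0
  · rw [hC, Int.cast_zero, red_zero, zero_mul, zero_mul]
  · congr 1
    have h3 := cpow_iz_right g ℓ C.out hC
    have h4 : C.out.right = 1 := by
      rw [h3, ← hq]
      exact pow_card_eq_one'
    have h5 : (bse C.out.left : G ≀ᵣ Q) = C.out := by
      ext1
      · rfl
      · exact h4.symm
    rw [← h C.out.left, ← hcen', ← red_wt_eq_pair 𝔐 (stb τ).subtype hψ
      (fun x => conjInd x (bse C.out.left)) (fun a x => conjInd_conj a x _)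
      (fun x => isIntegral_conjInd x _)]
    conv_lhs => rw [← h5]
    rfl

theorem c_unique [h𝔐 : 𝔐.IsPrime] {ℓ : ℕ} [Fact ℓ.Prime]
    (hℓ : (ℓ : integralClosure ℤ ℂ) ∈ 𝔐) (hq : Nat.card Q = ℓ)
    {ω : G → (integralClosure ℤ ℂ) ⧸ 𝔐} {c c' : G ≀ᵣ Q → (integralClosure ℤ ℂ) ⧸ 𝔐}
    (h : ∀ u : Q → G, pair 𝔐 (fun x => conjInd x (bse u)) c = Wf 𝔐 Q ω u)
    (hne : ∃ d, KK 𝔐 ℓ d ⊥ c ≠ 0)
    (h' : ∀ u : Q → G, pair 𝔐 (fun x => conjInd x (bse u)) c' = Wf 𝔐 Q ω u)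
    (hne' : ∃ d, KK 𝔐 ℓ d ⊥ c' ≠ 0) : c = c' := by
  ext g
  apply frob_inj 𝔐 hℓ
  rw [c_pow 𝔐 hℓ hq h hne, c_pow 𝔐 hℓ hq h' hne']

end Uniq

end Pool.Agent.Lib_helper13


end

section

set_option linter.unusedSectionVars false

/-! Amplification of nonzero chain sums. -/

namespace Pool.Agent.Lib_helper13

open Representation Dade

section Min

variable {G : Type*} [Group G] [Fintype G]
variable (𝔐 : Ideal (integralClosure ℤ ℂ))

theorem aa_pi_min {ι : Type*} [Fintype ι] [DecidableEq ι] {ℓ : ℕ} [Fact ℓ.Prime]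
    {ω : G → (integralClosure ℤ ℂ) ⧸ 𝔐} (hω : ω 1 = 1) {I : ℕ}
    (hI : ∀ e < I, aa 𝔐 ℓ e ω = 0) :
    (∀ d < Fintype.card ι * I, aa 𝔐 ℓ d (powFn 𝔐 ι ω) = 0) ∧
      aa 𝔐 ℓ (Fintype.card ι * I) (powFn 𝔐 ι ω) = aa 𝔐 ℓ I ω ^ Fintype.card ι := by
  constructor
  · intro d hd
    rw [aa_pi 𝔐 d ω hω]
    apply Finset.sum_eq_zero
    intro e he
    have h1 := (Finset.mem_piAntidiag.mp he).1
    by_contra hne
    replace hne := Finset.prod_ne_zero_iff.mp hne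
    have h2 : ∀ t ∈ (Finset.univ : Finset ι), I ≤ e t := by
      intro t ht
      by_contra h3
      exact hne t ht (hI _ (not_le.mp h3))
    have h3 := Finset.card_nsmul_le_sum Finset.univ e I h2
    rw [Finset.card_univ, smul_eq_mul] at h3
    omega
  · rw [aa_pi 𝔐 _ ω hω, Finset.sum_eq_single (fun _ : ι => I)]
    · rw [Finset.prod_const, Finset.card_univ]
    · intro e he hne
      have h1 := (Finset.mem_piAntidiag.mp he).1
      by_contra hne'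
      replace hne' := Finset.prod_ne_zero_iff.mp hne'
      have h2 : ∀ t ∈ (Finset.univ : Finset ι), I ≤ e t := by
        intro t ht
        by_contra h3
        exact hne' t ht (hI _ (not_le.mp h3))
      apply hne
      have h3 : ∑ _t : ι, I = ∑ t : ι, e t := by
        rw [h1, Finset.sum_const, Finset.card_univ, smul_eq_mul]
      ext t
      exact ((Finset.sum_eq_sum_iff_of_le h2).mp h3 t (Finset.mem_univ t)).symm
    · intro h
      exfalso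
      apply h
      rw [Finset.mem_piAntidiag]
      refine ⟨?_, fun i _ => Finset.mem_univ i⟩
      rw [Finset.sum_const, Finset.card_univ, smul_eq_mul]

end Min

section Frob

variable {Y : Type*} [Group Y] [Fintype Y] {G : Type*} [Group G] [Fintype G]
variable (𝔐 : Ideal (integralClosure ℤ ℂ)) [h𝔐 : 𝔐.IsPrime]

theorem red_pow {a : ℂ} (ha : IsIntegral ℤ a) (n : ℕ) : red 𝔐 (a ^ n) = red 𝔐 a ^ n := by
  rw [red_of_integral 𝔐 ha, red_of_integral 𝔐 (ha.pow n), ← map_pow]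
  rfl

/-- Defect zero is inherited along powers of the Frobenius map. -/
theorem defect_zero_of_cen_pow' {ℓ : ℕ} [Fact ℓ.Prime] (hℓ : (ℓ : integralClosure ℤ ℂ) ∈ 𝔐)
    {χ : G → ℂ} (hχ : IsIrr χ) (h0 : HasDefect ℓ χ 0) (i : Y →* G) {ψ : Y → ℂ} (hψ : IsIrr ψ)
    {k : ℕ} (hcen : ∀ g, cen 𝔐 i ψ g = cen 𝔐 (MonoidHom.id G) χ g ^ ℓ ^ k) : HasDefect ℓ ψ 0 := by
  classical
  obtain ⟨d, hd⟩ := hψ.exists_defect (ℓ := ℓ)
  obtain ⟨n, N, hn, hn', hN, hv⟩ := exists_codeg hψ hd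
  rcases Nat.eq_zero_or_pos d with rfl | hd0
  · exact hd
  exfalso
  have hchar := quot_char 𝔐 hℓ
  have hcl : ∀ g x : G, χ (g * x * g⁻¹)⁻¹ = χ x⁻¹ := by
    intro g x
    have : (g * x * g⁻¹)⁻¹ = g * x⁻¹ * g⁻¹ := by group
    rw [this, hχ.conj_eq]
  have hint : ∀ x : G, IsIntegral ℤ (χ x⁻¹) := fun x => isIntegral_char hχ _
  have h1 := red_wt_eq_pair 𝔐 (MonoidHom.id G) hχ (fun x => χ x⁻¹) hcl hint
  have h2 := red_wt_eq_pair 𝔐 i hψ (fun x => χ x⁻¹ ^ ℓ ^ k) (fun g x => by rw [hcl])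
    (fun x => (hint x).pow _)
  have hpair : pair 𝔐 (fun x => χ x⁻¹ ^ ℓ ^ k) (cen 𝔐 i ψ) =
      pair 𝔐 (fun x => χ x⁻¹) (cen 𝔐 (MonoidHom.id G) χ) ^ ℓ ^ k := by
    have hft : Fintype (ConjClasses G) := Fintype.ofFinite _
    rw [pair, pair, finsum_eq_sum_of_fintype, finsum_eq_sum_of_fintype, sum_pow_char_pow]
    refine Finset.sum_congr rfl fun C _ => ?_
    rw [hcen, mul_pow, red_pow 𝔐 (hint _)]
  rw [hpair, ← h1] at h2
  have h3 : wt χ (fun y => χ (MonoidHom.id G y)⁻¹) = Nat.card G / χ 1 := by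
    rw [wt]
    congr 1
    rw [← hχ.sum_self]
    refine Finset.sum_congr rfl fun y _ => ?_
    rw [mul_comm]
    rfl
  have hchr : IsChr (fun y : Y => χ (i y) ^ ℓ ^ k) := by
    have h4 : (fun y : Y => χ (i y) ^ ℓ ^ k) = fun y => ∏ _j ∈ Finset.range (ℓ ^ k), χ (i y) := by
      ext y
      rw [Finset.prod_const, Finset.card_range]
    rw [h4]
    exact IsChr.prod (Finset.range (ℓ ^ k)) (fun _ y => χ (i y)) (fun _ => hχ.isChr.comp i)
  obtain ⟨m, hm⟩ := hψ.isChr.exists_mult hchr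
  have hn0 : (n : ℂ) ≠ 0 := by exact_mod_cast hn.ne'
  have h4 : wt ψ (fun y => χ (i y)⁻¹ ^ ℓ ^ k) = ((N * m : ℕ) : ℂ) := by
    have h5 : ∑ y, χ (i y)⁻¹ ^ ℓ ^ k * ψ y = Nat.card Y * m := by
      rw [← hm]
      refine Finset.sum_congr rfl fun y _ => ?_
      rw [mul_comm, map_inv]
    rw [wt, h5, hn', hN]
    push_cast
    field_simp
  rw [h3, h4] at h2
  have h5 : ℓ ∣ N * m := by
    apply Dvd.dvd.mul_right
    have h6 : padicValNat ℓ N ≠ 0 := by omega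
    exact dvd_of_one_le_padicValNat (by omega)
  obtain ⟨r, hr⟩ := h5
  apply red_codeg_ne_zero 𝔐 hℓ hχ h0
  have h6 : (((N * m : ℕ)) : ℂ) = (ℓ : ℂ) * (r : ℂ) := by
    rw [hr]
    push_cast
    rfl
  rw [h6, red_natCast_mul 𝔐 ℓ (isIntegral_natCast r), nsmul_quot_eq_zero 𝔐 hℓ] at h2
  exact (pow_eq_zero_iff (pow_pos (Fact.out : ℓ.Prime).pos k).ne').mp h2.symm

theorem KK_frob_zero' {ℓ : ℕ} [Fact ℓ.Prime] (hℓ : (ℓ : integralClosure ℤ ℂ) ∈ 𝔐)
    {ω : G → (integralClosure ℤ ℂ) ⧸ 𝔐} (h : KK 𝔐 ℓ 0 (⊥ : Subgroup G) ω ≠ 0) {d : ℕ}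
    (hd : 0 < d) (k : ℕ) : KK 𝔐 ℓ d (⊥ : Subgroup G) (fun g => ω g ^ ℓ ^ k) = 0 := by
  obtain ⟨χ, hχ, h0, hcen⟩ := KK_zero 𝔐 hℓ h
  by_contra hne
  obtain ⟨τ, _, ψ, hψ, hd', hcen'⟩ := KK_ne_zero 𝔐 hne
  have h1 := defect_zero_of_cen_pow' 𝔐 hℓ hχ h0 (stb τ).subtype hψ (k := k)
    (fun g => by rw [hcen' g, hcen g])
  have := h1.unique hd'
  omega

theorem KK_frob_zero {ℓ : ℕ} [Fact ℓ.Prime] (hℓ : (ℓ : integralClosure ℤ ℂ) ∈ 𝔐)
    {ω : G → (integralClosure ℤ ℂ) ⧸ 𝔐} (h : KK 𝔐 ℓ 0 (⊥ : Subgroup G) ω ≠ 0) {d : ℕ}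
    (hd : 0 < d) : KK 𝔐 ℓ d (⊥ : Subgroup G) (fun g => ω g ^ ℓ) = 0 := by
  have h1 := KK_frob_zero' 𝔐 hℓ h hd 1
  simp only [pow_one] at h1
  exact h1

theorem aa_zero_of_ne {ℓ : ℕ} [Fact ℓ.Prime] (hℓ : (ℓ : integralClosure ℤ ℂ) ∈ 𝔐)
    {ω : G → (integralClosure ℤ ℂ) ⧸ 𝔐} {d : ℕ} (hd : 0 < d) (h : aa 𝔐 ℓ d ω ≠ 0) :
    aa 𝔐 ℓ 0 ω = 0 := by
  by_contra h0
  apply h
  have h1 : KK 𝔐 ℓ 0 (⊥ : Subgroup G) ω ≠ 0 := by
    intro h2
    apply h0
    rw [aa, h2, zero_div]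
  rw [aa, KK_eq_zero_of_zero 𝔐 hℓ h1 hd, zero_div]

theorem aa_root_zero' {ℓ : ℕ} [Fact ℓ.Prime] (hℓ : (ℓ : integralClosure ℤ ℂ) ∈ 𝔐)
    {ω : G → (integralClosure ℤ ℂ) ⧸ 𝔐} {d : ℕ} (hd : 0 < d) {k : ℕ}
    (h : aa 𝔐 ℓ d (fun g => ω g ^ ℓ ^ k) ≠ 0) : aa 𝔐 ℓ 0 ω = 0 := by
  by_contra h0
  apply h
  have h1 : KK 𝔐 ℓ 0 (⊥ : Subgroup G) ω ≠ 0 := by
    intro h2
    apply h0
    rw [aa, h2, zero_div]
  rw [aa, KK_frob_zero' 𝔐 hℓ h1 hd, zero_div]

theorem aa_root_zero {ℓ : ℕ} [Fact ℓ.Prime] (hℓ : (ℓ : integralClosure ℤ ℂ) ∈ 𝔐)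
    {ω : G → (integralClosure ℤ ℂ) ⧸ 𝔐} {d : ℕ} (hd : 0 < d)
    (h : aa 𝔐 ℓ d (fun g => ω g ^ ℓ) ≠ 0) : aa 𝔐 ℓ 0 ω = 0 := by
  by_contra h0
  apply h
  have h1 : KK 𝔐 ℓ 0 (⊥ : Subgroup G) ω ≠ 0 := by
    intro h2
    apply h0
    rw [aa, h2, zero_div]
  rw [aa, KK_frob_zero 𝔐 hℓ h1 hd, zero_div]

/-- Central functions take the value `1` at `1` and are class functions. -/
theorem aa_ne_zero_facts {ℓ d : ℕ} {ω : G → (integralClosure ℤ ℂ) ⧸ 𝔐}
    (h : aa 𝔐 ℓ d ω ≠ 0) : ω 1 = 1 ∧ ∀ g g', IsConj g g' → ω g = ω g' := by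
  have h1 : KK 𝔐 ℓ d (⊥ : Subgroup G) ω ≠ 0 := by
    intro h2
    apply h
    rw [aa, h2, zero_div]
  obtain ⟨τ, _, ψ, hψ, _, hcen⟩ := KK_ne_zero 𝔐 h1
  constructor
  · rw [← hcen 1]
    exact cen_at_one 𝔐 Subtype.val_injective hψ
  · intro g g' hg
    rw [← hcen g, ← hcen g']
    exact cen_isConj 𝔐 _ _ hg

theorem nontrivial_of_aa {ℓ d : ℕ} [Fact ℓ.Prime] {ω : G → (integralClosure ℤ ℂ) ⧸ 𝔐}
    (hd : 0 < d) (h : aa 𝔐 ℓ d ω ≠ 0) : Nontrivial G := by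
  by_contra hcon
  rw [not_nontrivial_iff_subsingleton] at hcon
  have h1 : KK 𝔐 ℓ d (⊥ : Subgroup G) ω ≠ 0 := by
    intro h2
    apply h
    rw [aa, h2, zero_div]
  obtain ⟨τ, _, ψ, hψ, hdef, _⟩ := KK_ne_zero 𝔐 h1
  obtain ⟨n, _, hn⟩ := hdef
  have h2 : Nat.card (stb τ) = 1 := Nat.card_unique
  rw [h2] at hn
  simp at hn
  omega

end Frob

end Pool.Agent.Lib_helper13


end

section

/-!
# GALX: the numbers of characters over congruent faithful characters of a central subgroup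
-/

set_option autoImplicit false

namespace Pool.Agent.DPM

open Pool.Agent.DP Pool.Agent.DPC Pool.Agent.Lib_helper13 Representation

namespace GALX

/-- The roots of unity of order prime to `ℓ` are distinct modulo `𝔐`. -/
theorem root_eq (𝔐 : Ideal (integralClosure ℤ ℂ)) [𝔐.IsPrime] {ℓ : ℕ} [Fact ℓ.Prime]
    (hℓ : (ℓ : integralClosure ℤ ℂ) ∈ 𝔐) {m : ℕ} (hm : ¬ ℓ ∣ m) {x y : ℂ} (hx : x ^ m = 1)
    (hy : y ^ m = 1) (h : red 𝔐 x = red 𝔐 y) : x = y := by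
  have hm0 : m ≠ 0 := by
    rintro rfl
    exact hm (dvd_zero ℓ)
  have hint : ∀ z : ℂ, z ^ m = 1 → IsIntegral ℤ z := by
    intro z hz
    refine IsIntegral.of_pow (Nat.pos_of_ne_zero hm0) ?_
    rw [hz]
    exact isIntegral_one
  have hy0 : y ≠ 0 := by
    rintro rfl
    rw [zero_pow hm0] at hy
    exact zero_ne_one hy
  have hyi : (y⁻¹) ^ m = 1 := by rw [inv_pow, hy, inv_one]
  have hz : (x * y⁻¹) ^ m = 1 := by rw [mul_pow, hx, hyi, one_mul]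
  have hrz : red 𝔐 (x * y⁻¹) = 1 := by
    rw [red_mul 𝔐 (hint x hx) (hint _ hyi), h, ← red_mul 𝔐 (hint y hy) (hint _ hyi),
      mul_inv_cancel₀ hy0, red_one]
  by_contra hne
  have hz1 : x * y⁻¹ ≠ 1 := by
    intro h1
    apply hne
    rw [← mul_one x, ← inv_mul_cancel₀ hy0, ← mul_assoc, h1, one_mul]
  have hsum : ∑ i ∈ Finset.range m, (x * y⁻¹) ^ i = 0 := by
    rw [geom_sum_eq hz1, hz, sub_self, zero_div]
  apply red_card_ne_zero 𝔐 hℓ hm
  have h1 : red 𝔐 (∑ i ∈ Finset.range m, (x * y⁻¹) ^ i) = red 𝔐 (m : ℂ) := by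
    rw [red_sum 𝔐 _ _ (fun i _ => (hint _ hz).pow i), red_natCast]
    rw [Finset.sum_congr rfl fun i _ => by
      rw [red_pow 𝔐 (hint _ hz) i, hrz, one_pow]]
    simp
  rw [← h1, hsum, red_zero]

/-- A lift of an exponent. -/
theorem exists_exp {ℓ : ℕ} [hp : Fact ℓ.Prime] {N n k₀ : ℕ} (hn : 0 < n) (hN : N ∣ n)
    (hk : Nat.Coprime k₀ N) (h1 : ∀ m : ℕ, m ∣ N → ¬ ℓ ∣ m → k₀ ≡ 1 [MOD m]) :
    ∃ k : ℕ, Nat.Coprime k n ∧ (∀ m : ℕ, m ∣ n → ¬ ℓ ∣ m → k ≡ 1 [MOD m]) ∧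
      k ≡ k₀ [MOD N] := by
  have hN0 : 0 < N := Nat.pos_of_dvd_of_pos hN hn
  have : NeZero n := ⟨hn.ne'⟩
  obtain ⟨w, hw⟩ := ZMod.unitsMap_surjective hN (ZMod.unitOfCoprime k₀ hk)
  have hk1 : Nat.Coprime (w : ZMod n).val n := ZMod.val_coe_unit_coprime w
  have hk2 : (w : ZMod n).val ≡ k₀ [MOD N] := by
    rw [← ZMod.natCast_eq_natCast_iff]
    have h2 := congrArg Units.val hw
    rw [ZMod.coe_unitOfCoprime, ZMod.unitsMap_val] at h2
    rw [← h2, ZMod.natCast_val]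
  obtain ⟨k₁, hk₁⟩ : ∃ k₁, k₁ = (w : ZMod n).val := ⟨_, rfl⟩
  rw [← hk₁] at hk1 hk2
  obtain ⟨b, n', hn', hb⟩ := Nat.exists_eq_pow_mul_and_not_dvd hn.ne' ℓ hp.out.ne_one
  obtain ⟨a, N', hN', ha⟩ := Nat.exists_eq_pow_mul_and_not_dvd hN0.ne' ℓ hp.out.ne_one
  have hco : Nat.Coprime (ℓ ^ b) n' := Nat.Coprime.pow_left b
    ((Nat.Prime.coprime_iff_not_dvd hp.out).2 hn')
  have hcop : ∀ m : ℕ, ¬ ℓ ∣ m → Nat.Coprime m (ℓ ^ b) := fun m hm =>
    (Nat.Coprime.pow_left b ((Nat.Prime.coprime_iff_not_dvd hp.out).2 hm)).symm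
  have hdvd : ∀ m : ℕ, m ∣ n → ¬ ℓ ∣ m → m ∣ n' := by
    intro m hm hm'
    rw [hb] at hm
    exact (hcop m hm').dvd_of_dvd_mul_left hm
  obtain ⟨k, hka, hkb⟩ := Nat.chineseRemainder hco k₁ 1
  refine ⟨k, ?_, ?_, ?_⟩
  · rw [hb]
    apply Nat.Coprime.mul_right
    · have h3 : Nat.Coprime k₁ (ℓ ^ b) := Nat.Coprime.coprime_dvd_right ⟨n', hb⟩ hk1
      rw [Nat.coprime_iff_gcd_eq_one, hka.gcd_eq]
      exact h3
    · rw [Nat.coprime_iff_gcd_eq_one, hkb.gcd_eq]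
      exact Nat.gcd_one_left _
  · intro m hm hm'
    exact hkb.of_dvd (hdvd m hm hm')
  · rw [ha]
    have hco2 : Nat.Coprime (ℓ ^ a) N' := Nat.Coprime.pow_left a
      ((Nat.Prime.coprime_iff_not_dvd hp.out).2 hN')
    rw [← Nat.modEq_and_modEq_iff_modEq_mul hco2]
    constructor
    · have h3 : ℓ ^ a ∣ ℓ ^ b := by
        have h4 : ℓ ^ a ∣ ℓ ^ b * n' := by
          rw [← hb]
          exact (Dvd.intro _ ha.symm).trans hN
        exact (Nat.Coprime.pow_left a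
          ((Nat.Prime.coprime_iff_not_dvd hp.out).2 hn')).dvd_of_dvd_mul_right h4
      exact (hka.of_dvd h3).trans (hk2.of_dvd (Dvd.intro _ ha.symm))
    · have h3 : N' ∣ N := Dvd.intro_left _ ha.symm
      exact (hkb.of_dvd (hdvd N' (h3.trans hN) hN')).trans (h1 N' h3 hN').symm

end GALX

open _root_.Pool.Agent.DPM.GALX in
theorem GALX_thm (h1 : Stmt_GAU) : Stmt_GALX := by
  classical
  intro L _ _ 𝔐 ℓ _ h𝔐 hℓ U μ ν hU hcyc hμ hν hred S hUS d c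
  have hprime : 𝔐.IsPrime := h𝔐.isPrime
  have hn : 0 < Nat.card L := Nat.card_pos
  obtain ⟨g, hg⟩ := hcyc.exists_generator
  have hNL : orderOf g ∣ Nat.card L := (orderOf_dvd_natCard g).trans (Subgroup.card_subgroup_dvd_card U)
  have hμg : IsPrimitiveRoot ((μ g : ℂˣ) : ℂ) (orderOf g) := by
    rw [IsPrimitiveRoot.coe_units_iff, ← orderOf_injective μ hμ g]
    exact IsPrimitiveRoot.orderOf _
  have hνg : IsPrimitiveRoot ((ν g : ℂˣ) : ℂ) (orderOf g) := by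
    rw [IsPrimitiveRoot.coe_units_iff, ← orderOf_injective ν hν g]
    exact IsPrimitiveRoot.orderOf _
  have hN0 : orderOf g ≠ 0 := (orderOf_pos g).ne'
  have : NeZero (orderOf g) := ⟨hN0⟩
  obtain ⟨k₀, -, hk₀, hk₀'⟩ := (hμg.isPrimitiveRoot_iff).1 hνg
  have hk₁ : μ g ^ k₀ = ν g := by
    apply Units.ext
    rw [Units.val_pow_eq_pow_val, hk₀']
  have hmod : ∀ m : ℕ, m ∣ orderOf g → ¬ ℓ ∣ m → k₀ ≡ 1 [MOD m] := by
    rintro m ⟨q, hq⟩ hm
    have hq0 : q ≠ 0 := by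
      rintro rfl
      exact hN0 (by rw [hq, mul_zero])
    have h2 : (((μ (g ^ q) : ℂˣ) : ℂ)) = ((ν (g ^ q) : ℂˣ) : ℂ) := by
      refine root_eq 𝔐 hℓ hm ?_ ?_ (hred _)
      · rw [← Units.val_pow_eq_pow_val, ← map_pow, ← pow_mul, mul_comm q m, ← hq,
          pow_orderOf_eq_one, map_one, Units.val_one]
      · rw [← Units.val_pow_eq_pow_val, ← map_pow, ← pow_mul, mul_comm q m, ← hq,
          pow_orderOf_eq_one, map_one, Units.val_one]
    have h2' := Units.ext h2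
    rw [map_pow, map_pow, ← hk₁, ← pow_mul] at h2'
    have h3 : q ≡ k₀ * q [MOD orderOf (μ g)] := pow_eq_pow_iff_modEq.1 h2'
    rw [orderOf_injective μ hμ g, hq] at h3
    have h4 : 1 * q ≡ k₀ * q [MOD m * q] := by rwa [one_mul]
    exact (Nat.ModEq.mul_right_cancel' hq0 h4).symm
  obtain ⟨k, hk1, hk2, hk3⟩ := exists_exp hn hNL hk₀ hmod
  obtain ⟨σ, hσ1, hσ2⟩ := h1 𝔐 ℓ h𝔐 hℓ (Nat.card L) k hn hk1 hk2
  have hσ : ∀ u : U, σ ((μ u : ℂˣ) : ℂ) = ((ν u : ℂˣ) : ℂ) := by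
    intro u
    rw [hσ1]
    · obtain ⟨j, hj⟩ := Subgroup.mem_zpowers_iff.1 (hg u)
      have h3 : μ g ^ k = ν g := by
        rw [← hk₁, pow_eq_pow_iff_modEq, orderOf_injective μ hμ g]
        exact hk3
      rw [← Units.val_pow_eq_pow_val, ← hj, map_zpow, map_zpow, ← h3]
      congr 1
      rw [← zpow_natCast, ← zpow_natCast, zpow_comm]
    · rw [← Units.val_pow_eq_pow_val, ← map_pow]
      have h4 : u ^ Nat.card L = 1 := by
        rw [← orderOf_dvd_iff_pow_eq_one]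
        exact (orderOf_dvd_natCard u).trans (Subgroup.card_subgroup_dvd_card U)
      rw [h4, map_one, Units.val_one]
  have hσ' : ∀ u : U, σ.symm ((ν u : ℂˣ) : ℂ) = ((μ u : ℂˣ) : ℂ) := by
    intro u
    rw [← hσ, RingEquiv.symm_apply_apply]
  have hσ3 : ∀ a : ℂ, IsIntegral ℤ a → a ∈ Dade90.cyc (Nat.card L) →
      red 𝔐 (σ a) = red 𝔐 a ^ 1 := by
    intro a ha ha'
    rw [pow_one]
    exact hσ2 a ha ha'
  have hcen : ∀ η : S → ℂ, IsIrr η →
      cen 𝔐 S.subtype (fun y => σ (η y)) = cen 𝔐 S.subtype η := by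
    intro η hη
    funext x
    rw [Dade90.cen_sig 𝔐 hn hσ3 (Subgroup.card_subgroup_dvd_card S) S.subtype hη x, pow_one]
  refine Nat.card_congr ⟨fun η => ⟨fun y => σ (η.1 y), Dade90.isIrr_sig σ η.2.1, ?_,
      (Dade90.hasDefect_sig σ).mpr η.2.2.2.1, ?_⟩,
    fun η => ⟨fun y => σ.symm (η.1 y), Dade90.isIrr_sig σ.symm η.2.1, ?_,
      (Dade90.hasDefect_sig σ.symm).mpr η.2.2.2.1, ?_⟩, ?_, ?_⟩
  · intro s t h
    change σ (η.1 (s * t)) = _
    rw [η.2.2.1 s t h, map_mul, hσ]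
  · rw [hcen η.1 η.2.1]
    exact η.2.2.2.2
  · intro s t h
    change σ.symm (η.1 (s * t)) = _
    rw [η.2.2.1 s t h, map_mul, hσ']
  · rw [← hcen _ (Dade90.isIrr_sig σ.symm η.2.1)]
    refine Eq.trans ?_ η.2.2.2.2
    congr 1
    funext y
    exact σ.apply_symm_apply _
  · intro η
    apply Subtype.ext
    funext y
    exact σ.symm_apply_apply _
  · intro η
    apply Subtype.ext
    funext y
    exact σ.apply_symm_apply _

end Pool.Agent.DPM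


end

section

/-!
# Galois automorphisms which raise the `ℓ`-power roots of unity to a power
-/

namespace Pool.Agent.DPM

open Pool.Agent.Lib_helper13 Pool.Agent.Dade90

theorem gau_cyc {n : ℕ} (hn : 0 < n) : IsCyclotomicExtension {n} ℚ (cyc n) := by
  have hne : NeZero n := ⟨hn.ne'⟩
  have hζ := Complex.isPrimitiveRoot_exp n hn.ne'
  set ζ := Complex.exp (2 * Real.pi * Complex.I / n) with hζd
  have h1 : cyc n = IntermediateField.adjoin ℚ {ζ} := by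
    apply le_antisymm
    · refine IntermediateField.adjoin_le_iff.mpr ?_
      intro x hx
      rw [Polynomial.mem_rootSet'] at hx
      have hx1 : x ^ n = 1 := by
        have := hx.2
        simp only [map_sub, map_pow, Polynomial.aeval_X, map_one] at this
        exact sub_eq_zero.mp this
      obtain ⟨i, -, rfl⟩ := hζ.eq_pow_of_pow_eq_one hx1
      exact pow_mem (IntermediateField.mem_adjoin_simple_self ℚ ζ) i
    · refine IntermediateField.adjoin_le_iff.mpr ?_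
      intro x hx
      rw [Set.mem_singleton_iff.mp hx]
      exact mem_cyc hn hζ.pow_eq_one
  have hint : IsAlgebraic ℚ ζ := by
    have h2 : IsIntegral ℚ ζ := IsIntegral.of_pow hn (by rw [hζ.pow_eq_one]; exact isIntegral_one)
    exact h2.isAlgebraic
  rw [h1]
  change IsCyclotomicExtension {n} ℚ (IntermediateField.adjoin ℚ {ζ}).toSubalgebra
  rw [IntermediateField.adjoin_simple_toSubalgebra_of_isAlgebraic hint]
  exact hζ.adjoin_isCyclotomicExtension ℚ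

theorem gau_red (𝔐 : Ideal (integralClosure ℤ ℂ)) (ℓ : ℕ) [hℓf : Fact ℓ.Prime]
    (hM : 𝔐.IsMaximal) (hℓ : (ℓ : integralClosure ℤ ℂ) ∈ 𝔐) (n k : ℕ) (hn : 0 < n)
    (hk : ∀ m : ℕ, m ∣ n → ¬ ℓ ∣ m → k ≡ 1 [MOD m]) (ζ : ℂ) (hζ : ζ ^ n = 1) :
    red 𝔐 (ζ ^ k) = red 𝔐 ζ := by
  have hp : 𝔐.IsPrime := hM.isPrime
  have hint : IsIntegral ℤ ζ := IsIntegral.of_pow hn (by rw [hζ]; exact isIntegral_one)
  obtain ⟨s, m, hm, hnm⟩ := Nat.exists_eq_pow_mul_and_not_dvd hn.ne' ℓ hℓf.out.ne_one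
  have hx : red 𝔐 (ζ ^ m) = 1 := by
    refine (red_eq_one_of_pow 𝔐 hℓ (k := s) ?_).2
    rw [← pow_mul, mul_comm, ← hnm, hζ]
  rw [red_pow 𝔐 hint] at hx
  have hkm : k ≡ 1 [MOD m] := hk m (hnm ▸ Dvd.intro_left _ rfl) hm
  rw [red_pow 𝔐 hint]
  rw [pow_eq_pow_mod k hx, hkm, ← pow_eq_pow_mod 1 hx, pow_one]

theorem GAU_thm : Stmt_GAU := by
  intro 𝔐 ℓ hℓf hM hℓ n k hn hkn hk
  have hne : NeZero n := ⟨hn.ne'⟩
  have hcyc := gau_cyc hn
  have hζ := IsCyclotomicExtension.zeta_spec n ℚ (cyc n)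
  set z := IsCyclotomicExtension.zeta n ℚ (cyc n) with hz
  have hμ : IsPrimitiveRoot (z ^ k) n := hζ.pow_of_coprime k hkn
  have hirr : Irreducible (Polynomial.cyclotomic n ℚ) := Polynomial.cyclotomic.irreducible_rat hn
  have hσz := IsCyclotomicExtension.fromZetaAut_spec hμ hirr
  set σ₀ := IsCyclotomicExtension.fromZetaAut hμ hirr with hσ₀
  obtain ⟨σ, hσ⟩ := exists_extension (cyc n) σ₀
  have hzC : IsPrimitiveRoot (z : ℂ) n := hζ.map_of_injective (f := (cyc n).val)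
    (cyc n).val.injective
  have hσz' : σ (z : ℂ) = (z : ℂ) ^ k := by
    rw [hσ, hσz]
    rfl
  refine ⟨σ, ?_, ?_⟩
  · intro ζ hζ1
    obtain ⟨i, -, rfl⟩ := hzC.eq_pow_of_pow_eq_one hζ1
    rw [map_pow, hσz', ← pow_mul, ← pow_mul, mul_comm]
  · intro a ha hac
    have hb : IsIntegral ℤ (⟨a, hac⟩ : cyc n) := by
      rw [← isIntegral_algebraMap_iff (FaithfulSMul.algebraMap_injective (cyc n) ℂ)]
      exact ha
    have hcl := IsCyclotomicExtension.Rat.isIntegralClosure_adjoin_singleton hζ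
    obtain ⟨y, hy⟩ := hcl.isIntegral_iff.1 hb
    have hz1 : IsIntegral ℤ (z : ℂ) :=
      IsIntegral.of_pow hn (by rw [hzC.pow_eq_one]; exact isIntegral_one)
    have key : ∀ x ∈ Algebra.adjoin ℤ {z}, IsIntegral ℤ (x : ℂ) ∧ IsIntegral ℤ (σ (x : ℂ)) ∧
        red 𝔐 (σ (x : ℂ)) = red 𝔐 (x : ℂ) := by
      intro x hx
      induction hx using Algebra.adjoin_induction with
      | mem x hx =>
        rw [Set.mem_singleton_iff.mp hx, hσz']
        exact ⟨hz1, hz1.pow k, gau_red 𝔐 ℓ hM hℓ n k hn hk _ hzC.pow_eq_one⟩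
      | algebraMap r =>
        have h1 : ((algebraMap ℤ (cyc n) r : cyc n) : ℂ) = (r : ℂ) := by simp
        rw [h1, map_intCast]
        exact ⟨isIntegral_algebraMap, isIntegral_algebraMap, rfl⟩
      | add x y _ _ hx hy =>
        have h1 : ((x + y : cyc n) : ℂ) = (x : ℂ) + (y : ℂ) := rfl
        rw [h1, map_add]
        refine ⟨hx.1.add hy.1, hx.2.1.add hy.2.1, ?_⟩
        rw [red_add 𝔐 hx.2.1 hy.2.1, red_add 𝔐 hx.1 hy.1, hx.2.2, hy.2.2]
      | mul x y _ _ hx hy =>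
        have h1 : ((x * y : cyc n) : ℂ) = (x : ℂ) * (y : ℂ) := rfl
        rw [h1, map_mul]
        refine ⟨hx.1.mul hy.1, hx.2.1.mul hy.2.1, ?_⟩
        rw [red_mul 𝔐 hx.2.1 hy.2.1, red_mul 𝔐 hx.1 hy.1, hx.2.2, hy.2.2]
    have h5 := (key y y.2).2.2
    have h6 : ((y : cyc n) : ℂ) = a := by
      have : (y : cyc n) = ⟨a, hac⟩ := hy
      rw [this]
    rw [h6] at h5
    exact h5

end Pool.Agent.DPM


end

section

/-!
# NUX: the linear characters by which the scalars of two pairs differ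
-/

set_option autoImplicit false

namespace Pool.Agent.DPN

open Pool.Agent.DP Pool.Agent.DPC Pool.Agent.DPM Pool.Agent.Lib_helper13 Representation

namespace NUX

/-! ### Lifting homomorphisms -/

theorem natCast_ne_zero (𝔐 : Ideal (integralClosure ℤ ℂ)) (hmax : 𝔐.IsMaximal) {ℓ : ℕ}
    [Fact ℓ.Prime] (hℓ : (ℓ : integralClosure ℤ ℂ) ∈ 𝔐) {N : ℕ} (hN : ¬ ℓ ∣ N) :
    ((N : ℕ) : (integralClosure ℤ ℂ) ⧸ 𝔐) ≠ 0 := by
  intro h0
  have hNm : ((N : ℕ) : integralClosure ℤ ℂ) ∈ 𝔐 := by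
    rw [← Ideal.Quotient.eq_zero_iff_mem, map_natCast]
    exact h0
  have hcop : Nat.Coprime ℓ N := (Nat.Prime.coprime_iff_not_dvd Fact.out).2 hN
  have hb := Nat.gcd_eq_gcd_ab ℓ N
  rw [hcop.gcd_eq_one] at hb
  apply hmax.ne_top
  rw [Ideal.eq_top_iff_one]
  have : (1 : integralClosure ℤ ℂ) =
      (ℓ : integralClosure ℤ ℂ) * ((Nat.gcdA ℓ N : ℤ) : integralClosure ℤ ℂ) +
        (N : integralClosure ℤ ℂ) * ((Nat.gcdB ℓ N : ℤ) : integralClosure ℤ ℂ) := by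
    have := congrArg (fun x : ℤ => (x : integralClosure ℤ ℂ)) hb
    push_cast at this
    simpa using this
  rw [this]
  exact 𝔐.add_mem (𝔐.mul_mem_right _ hℓ) (𝔐.mul_mem_right _ hNm)

/-- A homomorphism of a finite group to the units of the residue field is the reduction of a
linear character of order prime to `ℓ`. -/
theorem lift_hom (𝔐 : Ideal (integralClosure ℤ ℂ)) (hmax : 𝔐.IsMaximal) {ℓ : ℕ}
    [hp : Fact ℓ.Prime] (hℓ : (ℓ : integralClosure ℤ ℂ) ∈ 𝔐) {R : Type} [Group R] [Finite R]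
    (ρ : R → (integralClosure ℤ ℂ) ⧸ 𝔐) (h1 : ρ 1 = 1) (hmul : ∀ r s, ρ (r * s) = ρ r * ρ s) :
    ∃ ν : R →* ℂˣ, (∃ n : ℕ, ¬ ℓ ∣ n ∧ ∀ r, ν r ^ n = 1) ∧
      ∀ r, red 𝔐 ((ν r : ℂˣ) : ℂ) = ρ r := by
  classical
  let _ : Field ((integralClosure ℤ ℂ) ⧸ 𝔐) := Ideal.Quotient.field 𝔐
  have h𝔐 : 𝔐.IsPrime := hmax.isPrime
  obtain ⟨s, N, hN, hcard⟩ := Nat.exists_eq_pow_mul_and_not_dvd
    (Nat.card_pos (α := R)).ne' ℓ hp.out.ne_one
  have hN0 : N ≠ 0 := by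
    rintro rfl
    exact hN (dvd_zero ℓ)
  have hNF : ((N : ℕ) : (integralClosure ℤ ℂ) ⧸ 𝔐) ≠ 0 := natCast_ne_zero 𝔐 hmax hℓ hN
  have hζ : IsPrimitiveRoot (Complex.exp (2 * Real.pi * Complex.I / N)) N :=
    Complex.isPrimitiveRoot_exp N hN0
  set ζ := Complex.exp (2 * Real.pi * Complex.I / N) with hζd
  have hζ0 : ζ ≠ 0 := Complex.exp_ne_zero _
  have hζi : IsIntegral ℤ ζ := hζ.isIntegral (Nat.pos_of_ne_zero hN0)
  let w : integralClosure ℤ ℂ := ⟨ζ, hζi⟩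
  have hw : IsPrimitiveRoot w N := by
    refine IsPrimitiveRoot.of_map_of_injective (f := algebraMap (integralClosure ℤ ℂ) ℂ) ?_
      Subtype.val_injective
    exact hζ
  have _ : NeZero ((N : ℕ) : (integralClosure ℤ ℂ) ⧸ 𝔐) := ⟨hNF⟩
  have _ : NeZero ((N : ℕ) : integralClosure ℤ ℂ) := ⟨by
    intro h0
    apply hNF
    have := congrArg (Ideal.Quotient.mk 𝔐) h0
    rwa [map_natCast, map_zero] at this⟩
  have hwF : IsPrimitiveRoot (Ideal.Quotient.mk 𝔐 w) N := by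
    rw [← Polynomial.isRoot_cyclotomic_iff] at hw ⊢
    have := hw.map (f := Ideal.Quotient.mk 𝔐)
    rwa [Polynomial.map_cyclotomic] at this
  have _ : NeZero N := ⟨hN0⟩
  have hpow : ∀ (x : R) (n : ℕ), ρ (x ^ n) = ρ x ^ n := by
    intro x n
    induction n with
    | zero => simp [h1]
    | succ n ih => rw [pow_succ, hmul, ih, pow_succ]
  have hchar := quot_char 𝔐 hℓ
  have hroot : ∀ x : R, ∃ i : ℕ, Ideal.Quotient.mk 𝔐 w ^ i = ρ x := by
    intro x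
    have h2 : ρ x ^ N = 1 := by
      have h3 : (ρ x ^ N) ^ ℓ ^ s = 1 := by
        rw [← pow_mul, mul_comm N, ← hcard, ← hpow, pow_card_eq_one', h1]
      have h4 : (ρ x ^ N - 1) ^ ℓ ^ s = 0 := by
        rw [sub_pow_char_pow, h3, one_pow, sub_self]
      exact sub_eq_zero.mp ((pow_eq_zero_iff (pow_pos hp.out.pos s).ne').mp h4)
    obtain ⟨i, -, hi⟩ := hwF.eq_pow_of_pow_eq_one h2
    exact ⟨i, hi⟩
  choose i hi using hroot
  have hkey' : ∀ a d : ℕ, Ideal.Quotient.mk 𝔐 w ^ a = Ideal.Quotient.mk 𝔐 w ^ (a + d) →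
      ζ ^ a = ζ ^ (a + d) := by
    intro a d h
    have hw0 : Ideal.Quotient.mk 𝔐 w ≠ 0 := hwF.ne_zero hN0
    have h2 : Ideal.Quotient.mk 𝔐 w ^ d = 1 := by
      rw [pow_add] at h
      exact mul_left_cancel₀ (pow_ne_zero a hw0) (by rw [mul_one]; exact h.symm)
    rw [pow_add, (hζ.pow_eq_one_iff_dvd d).2 ((hwF.pow_eq_one_iff_dvd d).1 h2), mul_one]
  have hkey : ∀ a b : ℕ, Ideal.Quotient.mk 𝔐 w ^ a = Ideal.Quotient.mk 𝔐 w ^ b →
      ζ ^ a = ζ ^ b := by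
    intro a b h
    rcases le_total a b with hab | hab
    · obtain ⟨d, rfl⟩ := Nat.exists_eq_add_of_le hab
      exact hkey' a d h
    · obtain ⟨d, rfl⟩ := Nat.exists_eq_add_of_le hab
      exact (hkey' b d h.symm).symm
  have hadd : ∀ x y, ζ ^ i (x * y) = ζ ^ i x * ζ ^ i y := by
    intro x y
    have h3 : Ideal.Quotient.mk 𝔐 w ^ i (x * y) = Ideal.Quotient.mk 𝔐 w ^ (i x + i y) := by
      rw [hi, hmul, pow_add, hi x, hi y]
    rw [← pow_add]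
    exact hkey _ _ h3
  let ν : R →* ℂˣ := MonoidHom.mk' (fun x => Units.mk0 ζ hζ0 ^ i x) (by
    intro x y
    apply Units.ext
    push_cast
    exact hadd x y)
  refine ⟨ν, ⟨N, hN, ?_⟩, ?_⟩
  · intro r
    apply Units.ext
    change (((Units.mk0 ζ hζ0 ^ i r) ^ N : ℂˣ) : ℂ) = 1
    push_cast
    change (ζ ^ i r) ^ N = 1
    rw [← pow_mul, mul_comm, pow_mul, hζ.pow_eq_one, one_pow]
  · intro r
    have h2 : ((ν r : ℂˣ) : ℂ) = ζ ^ i r := by
      change ((Units.mk0 ζ hζ0 ^ i r : ℂˣ) : ℂ) = ζ ^ i r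
      push_cast
      rfl
    rw [h2, red_of_integral 𝔐 (hζi.pow _), ← hi r, ← map_pow]
    rfl

/-! ### Invariant functions -/

section Inv

variable {O X H : Type} [Group O] [Group X] [Group H] {j : O →* X} {c : X →* MulAut O}
  {p : X →* H}

theorem p_j (h : ClG j c p) (a : O) : p (j a) = 1 := (h.ker _).mpr ⟨a, rfl⟩

theorem AIv_restr (h : ClG j c p) (τ : Finset (Subgroup O)) {u : X → ℤ} (hu : AIv j u) :
    AIv (jS h τ) (fun t : YS j τ => u t) := by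
  intro a x
  exact hu (a : O) (x : X)

theorem AIv_conv [Fintype X] {u v : X → ℤ} (hu : AIv j u) (hv : AIv j v) :
    AIv j (conv u v) := by
  intro a x
  rw [conv, conv]
  refine (Fintype.sum_equiv (MulAut.conj (j a)).toEquiv _ _ ?_).symm
  intro y
  have h1 : (MulAut.conj (j a)).toEquiv y = j a * y * (j a)⁻¹ := rfl
  have h2 : (j a * y * (j a)⁻¹)⁻¹ * (j a * x * (j a)⁻¹) = j a * (y⁻¹ * x) * (j a)⁻¹ := by group
  rw [h1, hu, h2, hv]

open Classical in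
/-- The part of a function above an element. -/
noncomputable def part (p : X →* H) (u : X → ℤ) (g : H) (x : X) : ℤ :=
  if p x = g then u x else 0

theorem AIv_part (h : ClG j c p) {u : X → ℤ} (hu : AIv j u) (g : H) : AIv j (part p u g) := by
  intro a x
  have h1 : p (j a * x * (j a)⁻¹) = p x := by
    rw [map_mul, map_mul, map_inv, p_j h, one_mul, inv_one, mul_one]
  rw [part, part, h1, hu]

theorem part_of_ne (u : X → ℤ) (g : H) (x : X) (hx : p x ≠ g) : part p u g x = 0 := by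
  rw [part, if_neg hx]

theorem part_of_eq (u : X → ℤ) (g : H) (x : X) (hx : p x = g) : part p u g x = u x := by
  rw [part, if_pos hx]

/-- The conjugate of an invariant function. -/
theorem AIv_conj (h : ClG j c p) {u : X → ℤ} (hu : AIv j u) (t : X) :
    AIv j (fun x => u (t⁻¹ * x * t)) := by
  intro a x
  have h1 : t⁻¹ * (j a * x * (j a)⁻¹) * t =
      j (c t⁻¹ a) * (t⁻¹ * x * t) * (j (c t⁻¹ a))⁻¹ := by
    rw [h.act]
    group
  change u (t⁻¹ * (j a * x * (j a)⁻¹) * t) = u (t⁻¹ * x * t)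
  rw [h1, hu]

/-- The conjugates of an invariant function by elements with the same image. -/
theorem conj_eq (h : ClG j c p) {u : X → ℤ} (hu : AIv j u) {t t₀ : X} (ht : p t = p t₀) (x : X) :
    u (t₀⁻¹ * x * t₀) = u (t⁻¹ * x * t) := by
  have h1 : p (t₀⁻¹ * t) = 1 := by
    rw [map_mul, map_inv, ht, inv_mul_cancel]
  obtain ⟨a, ha⟩ := (h.ker _).mp h1
  have h2 : t₀⁻¹ * x * t₀ = j a * (t⁻¹ * x * t) * (j a)⁻¹ := by
    rw [ha]
    group
  rw [h2, hu]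

end Inv

/-! ### The scalars of a pair -/

section Scal

variable {O X H W : Type} [Group O] [Fintype O] [Group X] [Fintype X] [Group H] [Fintype H]
  [Group W] [Fintype W] {𝔐 : Ideal (integralClosure ℤ ℂ)} {ℓ : ℕ} {j : O →* X}
  {c : X →* MulAut O} {p : X →* H} {a : ℕ}

theorem Lm_part (h : ClG j c p) {τ : Finset (Subgroup O)} {θ : stb τ → ℂ} {π : W →* H}
    {μ : π.ker →* ℂˣ} {Lm : (YS j τ → ℤ) → W → (integralClosure ℤ ℂ) ⧸ 𝔐}
    (hr : RDS 𝔐 ℓ a (jS h τ) (pS p j τ) θ π μ Lm) {u : X → ℤ} (hu : AIv j u) (w : W) :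
    Lm (fun t => part p u (π w) t) w = Lm (fun t => u t) w := by
  refine hr.cgr _ _ (AIv_restr h τ (AIv_part h hu _)) (AIv_restr h τ hu) w ?_
  intro t ht
  exact part_of_eq u _ _ ht

/-- The scalars of the identity. -/
theorem Lm_one (h : ClG j c p) {τ : Finset (Subgroup O)} {θ : stb τ → ℂ} (hθ : IsIrr θ)
    {π : W →* H} {μ : π.ker →* ℂˣ} {Lm : (YS j τ → ℤ) → W → (integralClosure ℤ ℂ) ⧸ 𝔐}
    (hr : RDS 𝔐 ℓ a (jS h τ) (pS p j τ) θ π μ Lm) {u : X → ℤ} (hu : AIv j u)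
    (hu1 : u 1 = 1) (hu0 : ∀ x, x ≠ 1 → u x = 0) : Lm (fun t => u t) 1 = 1 := by
  classical
  rw [hr.one _ (AIv_restr h τ hu)]
  have h1 : wt θ (fun a => ((u ((jS h τ a : YS j τ) : X) : ℤ) : ℂ)) = 1 := by
    rw [wt, Finset.sum_eq_single (1 : stb τ)]
    · rw [map_one]
      change ((u 1 : ℤ) : ℂ) * θ 1 / θ 1 = 1
      rw [hu1, Int.cast_one, one_mul, div_self hθ.one_ne_zero]
    · intro b _ hb
      have h2 : ((jS h τ b : YS j τ) : X) ≠ 1 := by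
        intro h3
        apply hb
        apply Subtype.ext
        apply h.inj
        rw [Subgroup.coe_one, map_one]
        exact h3
      rw [hu0 _ h2, Int.cast_zero, zero_mul]
    · intro h3
      exact absurd (Finset.mem_univ _) h3
  rw [h1, red_one]

end Scal

end NUX

open _root_.Pool.Agent.DPN.NUX

theorem NUX_thm (h1 : Stmt_KEYN) (h2 : Stmt_MUN) : Stmt_NUX := by
  intro O X H W _ _ _ _ _ _ _ _ 𝔐 ℓ _ hmax hℓ j c p h a Z Λ π R μ Lm hF τ₀ θ₀ hP₀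
  classical
  let _ : Field ((integralClosure ℤ ℂ) ⧸ 𝔐) := Ideal.Quotient.field 𝔐
  have h𝔐 : 𝔐.IsPrime := hmax.isPrime
  -- it suffices to treat each pair separately
  suffices hs : ∀ τ θ, ∃ ν : R →* ℂˣ, Pr h 𝔐 ℓ a Z Λ τ θ →
      (∃ n : ℕ, ¬ ℓ ∣ n ∧ ∀ r, ν r ^ n = 1) ∧
      (∀ (w : W) (r r' : R), (r' : W) = w * r * w⁻¹ → ν r' = ν r) ∧
      (∀ u : X → ℤ, AIv j u → ∀ r : R, Lm τ₀ θ₀ (fun t => u t) r =
        red 𝔐 ((ν r : ℂˣ) : ℂ) * Lm τ θ (fun t => u t) r) ∧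
      (∀ (z : π.ker) (r : R), (r : W) = z → ν r * μ τ₀ θ₀ z = μ τ θ z) by
    choose ν hν using hs
    exact ⟨ν, fun τ θ hP => (hν τ θ hP).1, fun τ θ hP => (hν τ θ hP).2.1,
      fun τ θ hP => (hν τ θ hP).2.2.1, fun τ θ hP => (hν τ θ hP).2.2.2⟩
  intro τ θ
  by_cases hP : Pr h 𝔐 ℓ a Z Λ τ θ
  swap
  · exact ⟨1, fun h3 => absurd h3 hP⟩
  have hr := hF.rds τ θ hP
  have hr₀ := hF.rds τ₀ θ₀ hP₀
  -- the comparison of products
  have hkey : ∀ r ∈ R, ∀ u v : X → ℤ, AIv j u → AIv j v → (∀ y, p y ≠ π r → u y = 0) →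
      (∀ y, p y ≠ π r⁻¹ → v y = 0) →
      Lm τ₀ θ₀ (fun t => u t) r * Lm τ₀ θ₀ (fun t => v t) r⁻¹ =
        Lm τ θ (fun t => u t) r * Lm τ θ (fun t => v t) r⁻¹ := by
    intro r _ u v hu hv hu0 hv0
    have hl : ∀ x ∈ [(u, r), (v, r⁻¹)], AIv j x.1 ∧ ∀ y, p y ≠ π x.2 → x.1 y = 0 := by
      intro x hx
      rcases List.mem_cons.mp hx with rfl | hx
      · exact ⟨hu, hu0⟩
      · rcases List.mem_singleton.mp hx with rfl
        exact ⟨hv, hv0⟩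
    have hl1 : (([(u, r), (v, r⁻¹)] : List ((X → ℤ) × W)).map Prod.snd).prod = 1 := by simp
    have e1 := h1 O X H W 𝔐 ℓ hmax hℓ j c p h a Z Λ τ₀ θ₀ hP₀ π (μ τ₀ θ₀) (Lm τ₀ θ₀) hr₀
      [(u, r), (v, r⁻¹)] hl hl1
    have e2 := h1 O X H W 𝔐 ℓ hmax hℓ j c p h a Z Λ τ θ hP π (μ τ θ) (Lm τ θ) hr
      [(u, r), (v, r⁻¹)] hl hl1
    have e3 := e1.trans e2.symm
    simpa using e3
  -- the ratio
  have hex : ∀ r : R, ∃ ρ : (integralClosure ℤ ℂ) ⧸ 𝔐, ρ ≠ 0 ∧ ∀ u : X → ℤ, AIv j u →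
      Lm τ₀ θ₀ (fun t => u t) r = ρ * Lm τ θ (fun t => u t) r := by
    intro r
    obtain ⟨u, hu, hu0, hu1⟩ := (hF.mem τ θ hP r).mp r.2
    obtain ⟨v, hv, hv0, hv1⟩ := (hF.mem τ θ hP (r : W)⁻¹).mp (R.inv_mem r.2)
    have e1 := hkey r r.2 u v hu hv hu0 hv0
    have e2 : Lm τ₀ θ₀ (fun t => v t) (r : W)⁻¹ ≠ 0 := by
      intro h3
      rw [h3, mul_zero] at e1
      exact (mul_ne_zero hu1 hv1) e1.symm
    refine ⟨Lm τ θ (fun t => v t) (r : W)⁻¹ / Lm τ₀ θ₀ (fun t => v t) (r : W)⁻¹,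
      div_ne_zero hv1 e2, ?_⟩
    intro u' hu'
    have e3 := hkey r r.2 (part p u' (π r)) v (AIv_part h hu' _) hv
      (fun y hy => part_of_ne u' _ y hy) hv0
    rw [Lm_part h hr₀ hu', Lm_part h hr hu'] at e3
    rw [div_mul_eq_mul_div, eq_div_iff e2, e3, mul_comm]
  choose ρ hρ0 hρ using hex
  have hρm : ∀ r s : R, ρ (r * s) = ρ r * ρ s := by
    intro r s
    obtain ⟨u, hu, hu0, hu1⟩ := (hF.mem τ θ hP r).mp r.2
    obtain ⟨v, hv, hv0, hv1⟩ := (hF.mem τ θ hP s).mp s.2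
    have e1 := h2 O X H W 𝔐 ℓ hmax hℓ j c p h a Z Λ τ₀ θ₀ hP₀ π (μ τ₀ θ₀) (Lm τ₀ θ₀) hr₀
      u v r s hu hv hu0 hv0
    have e2 := h2 O X H W 𝔐 ℓ hmax hℓ j c p h a Z Λ τ θ hP π (μ τ θ) (Lm τ θ) hr
      u v r s hu hv hu0 hv0
    have e3 := hρ (r * s) (conv u v) (AIv_conv hu hv)
    rw [Subgroup.coe_mul, e1, e2, hρ r u hu, hρ s v hv] at e3
    have e4 : ρ (r * s) * (Lm τ θ (fun t => u t) r * Lm τ θ (fun t => v t) s) =
        (ρ r * ρ s) * (Lm τ θ (fun t => u t) r * Lm τ θ (fun t => v t) s) := by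
      rw [← e3]
      ring
    exact mul_right_cancel₀ (mul_ne_zero hu1 hv1) e4
  have hρ1 : ρ 1 = 1 := by
    have e1 := hρm 1 1
    rw [mul_one] at e1
    exact (mul_left_cancel₀ (hρ0 1) (by rw [mul_one]; exact e1)).symm
  have hρc : ∀ (w : W) (r r' : R), (r' : W) = w * r * w⁻¹ → ρ r' = ρ r := by
    intro w r r' hrr
    obtain ⟨t, ht⟩ := hP.fp.1 (π w)
    obtain ⟨t₀, ht₀⟩ := hP₀.fp.1 (π w)
    obtain ⟨u, hu, hu0, hu1⟩ := (hF.mem τ θ hP r).mp r.2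
    have htt : p (t : X) = p (t₀ : X) := by
      have e1 : p (t : X) = π w := ht
      have e2 : p (t₀ : X) = π w := ht₀
      rw [e1, e2]
    have e1 := hr.eqv (fun x => u x) (AIv_restr h τ hu) t w ht r
    have e2 := hr₀.eqv (fun x => u x) (AIv_restr h τ₀ hu) t₀ w ht₀ r
    have e3 : (fun x : YS j τ₀ => u (((t₀⁻¹ * x * t₀ : YS j τ₀)) : X)) =
        fun x : YS j τ₀ => (fun y : X => u ((t : X)⁻¹ * y * t)) x := by
      ext x
      exact conj_eq h hu htt x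
    have e4 : (fun x : YS j τ => u (((t⁻¹ * x * t : YS j τ)) : X)) =
        fun x : YS j τ => (fun y : X => u ((t : X)⁻¹ * y * t)) x := by
      ext x
      rfl
    rw [e3] at e2
    rw [e4] at e1
    have e5 := hρ r' (fun y : X => u ((t : X)⁻¹ * y * t)) (AIv_conj h hu t)
    rw [hrr, e1, e2, hρ r u hu] at e5
    exact (mul_right_cancel₀ hu1 e5).symm
  obtain ⟨ν, ⟨n, hn, hνn⟩, hν⟩ := lift_hom 𝔐 hmax hℓ ρ hρ1 hρm
  refine ⟨ν, fun _ => ⟨⟨n, hn, hνn⟩, ?_, ?_, ?_⟩⟩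
  · intro w r r' hrr
    apply Units.ext
    have hc : ∀ r : R, ((ν r : ℂˣ) : ℂ) ^ n = 1 := by
      intro r
      rw [← Units.val_pow_eq_pow_val, hνn, Units.val_one]
    refine GALX.root_eq 𝔐 hℓ hn (hc r') (hc r) ?_
    rw [hν, hν, hρc w r r' hrr]
  · intro u hu r
    rw [hν, hρ r u hu]
  · intro z r hz
    -- the indicator of the identity
    let δ : X → ℤ := fun x => if x = 1 then 1 else 0
    have hδ : AIv j δ := by
      intro b x
      have e1 : j b * x * (j b)⁻¹ = 1 ↔ x = 1 := by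
        rw [mul_inv_eq_one, mul_eq_left]
      by_cases e2 : x = 1
      · change (if j b * x * (j b)⁻¹ = 1 then (1 : ℤ) else 0) = if x = 1 then 1 else 0
        rw [if_pos (e1.mpr e2), if_pos e2]
      · change (if j b * x * (j b)⁻¹ = 1 then (1 : ℤ) else 0) = if x = 1 then 1 else 0
        rw [if_neg (fun e3 => e2 (e1.mp e3)), if_neg e2]
    have hδ1 : δ 1 = 1 := if_pos rfl
    have hδ0 : ∀ x, x ≠ 1 → δ x = 0 := fun x hx => if_neg hx
    have e1 := hr.ctr (fun t => δ t) (AIv_restr h τ hδ) z 1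
    have e2 := hr₀.ctr (fun t => δ t) (AIv_restr h τ₀ hδ) z 1
    rw [Lm_one h hP.irr hr hδ hδ1 hδ0, mul_one] at e1
    rw [Lm_one h hP₀.irr hr₀ hδ hδ1 hδ0, mul_one] at e2
    have e3 := hρ r δ hδ
    rw [hz] at e3
    -- roots of unity of order prime to `ℓ`
    set m := Nat.card π.ker with hm
    have hμ : ∀ (μ' : π.ker →* ℂˣ), ((μ' z : ℂˣ) : ℂ) ^ (n * m) = 1 := by
      intro μ'
      rw [← Units.val_pow_eq_pow_val, mul_comm, pow_mul, ← map_pow, hm, pow_card_eq_one',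
        map_one, one_pow, Units.val_one]
    have hνm : ((ν r : ℂˣ) : ℂ) ^ (n * m) = 1 := by
      rw [← Units.val_pow_eq_pow_val, pow_mul, hνn, one_pow, Units.val_one]
    have hnm : ¬ ℓ ∣ n * m := by
      intro h3
      rcases (Nat.Prime.dvd_mul Fact.out).mp h3 with h4 | h4
      · exact hn h4
      · exact hF.πl h4
    have hnm0 : 0 < n * m := by
      rcases Nat.eq_zero_or_pos (n * m) with h3 | h3
      · exact absurd (h3 ▸ dvd_zero ℓ) hnm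
      · exact h3
    have hint : ∀ y : ℂ, y ^ (n * m) = 1 → IsIntegral ℤ y := by
      intro y hy
      refine IsIntegral.of_pow hnm0 ?_
      rw [hy]
      exact isIntegral_one
    apply Units.ext
    rw [Units.val_mul]
    refine GALX.root_eq 𝔐 hℓ hnm ?_ (hμ _) ?_
    · rw [mul_pow, hνm, hμ, one_mul]
    · rw [red_mul 𝔐 (hint _ hνm) (hint _ (hμ _)), hν]
      -- `red μ₀ * L₀ = 1`, `red μ * L = 1`, `L₀ = ρ * L`
      rw [e3] at e2
      calc ρ r * red 𝔐 ((μ τ₀ θ₀ z : ℂˣ) : ℂ)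
          = (red 𝔐 ((μ τ θ z : ℂˣ) : ℂ) * Lm τ θ (fun t => δ t) z) *
            (ρ r * red 𝔐 ((μ τ₀ θ₀ z : ℂˣ) : ℂ)) := by rw [e1, one_mul]
        _ = red 𝔐 ((μ τ θ z : ℂˣ) : ℂ) *
            (red 𝔐 ((μ τ₀ θ₀ z : ℂˣ) : ℂ) * (ρ r * Lm τ θ (fun t => δ t) z)) := by ring
        _ = red 𝔐 ((μ τ θ z : ℂˣ) : ℂ) := by rw [e2, mul_one]

end Pool.Agent.DPN


end

section

/-!
# DGSD: the correspondence for a group acting trivially
-/

namespace Pool.Agent.DPT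

open Pool.Agent.DP Pool.Agent.DPC Pool.Agent.DPM Pool.Agent.DPN Pool.Agent.Lib_helper13
open Representation

namespace DGSD

/-- A number prime to `ℓ` is not zero in the residue field. -/
theorem red_nat_ne {𝔐 : Ideal (integralClosure ℤ ℂ)} {ℓ : ℕ} [Fact ℓ.Prime] (h𝔐 : 𝔐.IsMaximal)
    (hℓ : (ℓ : integralClosure ℤ ℂ) ∈ 𝔐) {m : ℕ} (hm : ¬ ℓ ∣ m) : red 𝔐 (m : ℂ) ≠ 0 := by
  intro h
  have hco : IsCoprime (ℓ : ℤ) (m : ℤ) := by
    rw [Nat.isCoprime_iff_coprime]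
    exact (Nat.Prime.coprime_iff_not_dvd Fact.out).mpr hm
  obtain ⟨a, b, hab⟩ := hco
  have h1 : (m : integralClosure ℤ ℂ) ∈ 𝔐 := by
    rw [red_of_integral 𝔐 (Lib_helper13.isIntegral_natCast m), Ideal.Quotient.eq_zero_iff_mem] at h
    have e : (⟨(m : ℂ), Lib_helper13.isIntegral_natCast m⟩ : integralClosure ℤ ℂ) = (m : integralClosure ℤ ℂ) :=
      Subtype.ext (by simp)
    rwa [e] at h
  have h2 : (1 : integralClosure ℤ ℂ) ∈ 𝔐 := by
    have h3 : (1 : integralClosure ℤ ℂ) = (a : integralClosure ℤ ℂ) * ℓ + b * m := by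
      have := congrArg (Int.cast : ℤ → integralClosure ℤ ℂ) hab
      push_cast at this
      exact this.symm
    rw [h3]
    exact 𝔐.add_mem (𝔐.mul_mem_left _ hℓ) (𝔐.mul_mem_left _ h1)
  exact h𝔐.ne_top ((Ideal.eq_top_iff_one 𝔐).mpr h2)

end DGSD

open _root_.Pool.Agent.DPT.DGSD

theorem DGSD_thm : Stmt_DGSD := by
  intro G _ _ 𝔐 ℓ _ h𝔐 hℓ N R hR
  have hcN : cN N R = N := by
    unfold DP.cN
    rw [inf_eq_left]
    intro n hn
    rw [Subgroup.mem_centralizer_iff]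
    intro r hr
    exact hR r hr n hn
  refine ⟨hcN, ?_⟩
  intro θ' θ hθ' hθ hD
  by_contra hne
  obtain ⟨⟨hi', hz'⟩, hd'⟩ := hθ'
  obtain ⟨⟨hi, hz⟩, hd⟩ := hθ
  have hneN : (fun s : N => θ' s) ≠ fun s : N => θ s := by
    intro h
    apply hne
    funext x
    by_cases hx : x ∈ N
    · exact congrFun h ⟨x, hx⟩
    · rw [hz' x hx, hz x hx]
  have hint : ∀ x, IsIntegral ℤ (θ x⁻¹) := by
    intro x
    by_cases hx : x⁻¹ ∈ N
    · exact isIntegral_char hi ⟨x⁻¹, hx⟩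
    · rw [hz _ hx]
      exact isIntegral_zero
  have key := hD (fun x => θ x⁻¹) ?_ ?_ hint
  · rw [hcN] at key
    have e1 : wS N θ' (fun x => θ x⁻¹) = 0 := by
      unfold wS wt
      have h2 := hi'.sum_ne hi hneN
      have h3 : ∑ y : N, θ ((y : G)⁻¹) * θ' y = 0 := by
        rw [← h2]
        refine Finset.sum_congr rfl fun y _ => ?_
        rw [mul_comm]
        rfl
      show (∑ y : N, θ ((y : G)⁻¹) * θ' y) / _ = 0
      rw [h3, zero_div]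
    obtain ⟨n, hn, hn'⟩ := hd
    obtain ⟨m, hm⟩ := hi.degree_dvd hn
    have hn0 : (n : ℂ) ≠ 0 := by
      rw [← hn]
      exact hi.one_ne_zero
    have hnn : n ≠ 0 := by
      rintro rfl
      simp at hn0
    have hm0 : m ≠ 0 := by
      rintro rfl
      exact Nat.card_pos.ne' (by rw [hm, mul_zero])
    have e2 : wS N θ (fun x => θ x⁻¹) = (m : ℂ) := by
      unfold wS wt
      have h2 := hi.sum_self
      have h3 : ∑ y : N, θ ((y : G)⁻¹) * θ y = Nat.card N := by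
        rw [← h2]
        refine Finset.sum_congr rfl fun y _ => ?_
        rw [mul_comm]
        rfl
      show (∑ y : N, θ ((y : G)⁻¹) * θ y) / (fun s : N => θ s) 1 = m
      rw [h3, hn, hm, div_eq_iff hn0]
      push_cast
      ring
    rw [e1, e2, red_zero] at key
    refine red_nat_ne h𝔐 hℓ ?_ key.symm
    have h4 : padicValNat ℓ m = 0 := by
      rw [hm, padicValNat.mul hnn hm0] at hn'
      omega
    intro hdvd
    have := (dvd_iff_padicValNat_ne_zero hm0).mp hdvd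
    exact this h4
  · intro n hn x hx
    have : (n * x * n⁻¹)⁻¹ = n * x⁻¹ * n⁻¹ := by group
    rw [this]
    exact hi.conj_eq ⟨n, hn⟩ ⟨x⁻¹, N.inv_mem hx⟩
  · intro r hr x hx
    have : r * x * r⁻¹ = x := by
      rw [hR r hr x hx]
      group
    rw [this]

end Pool.Agent.DPT


end

section

/-!
# Theorem R: only the empty chain contributes to products of defect zero
-/

namespace Pool.Agent.DP

open Pool.Agent.Lib_helper13 Representation
open Pool.Agent.Lib_helper13.Dade (pCore DadeHolds)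

namespace BLKCR

/-- The isomorphism with the stabilizer of the empty chain of the normal subgroup. -/
noncomputable def eYS {A Y : Type*} [Group A] [Group Y] (j : A →* Y) :
    Y ≃* YS j (∅ : Finset (Subgroup A)) :=
  (BLKC.eE Y).trans (MulEquiv.subgroupCongr (by rw [YS, BLKC.mapCh_empty]))

end BLKCR

open BLKC _root_.Pool.Agent.DP.BLKCR in
theorem BLKCR_thm (h1 : Stmt_CGT) : Stmt_BLKCR := by
  intro O G B C Y K X _ _ _ _ _ _ _ _ _ _ _ _ 𝔐 ℓ _ hmax hℓ ι κ ρ hL j p φ h i τ hτ θ hθ ψ hψ hip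
    J hdz
  have hprime : 𝔐.IsPrime := hmax.isPrime
  have hτ' := mem_ClCh.mp hτ
  have hdef : ∀ o, HasDefect ℓ (fun s : stb (comp τ o) => θ o s) 0 := by
    intro o
    obtain ⟨b, ⟨f, hf, rfl⟩, χ, hχ, hχ0, hχc⟩ := hdz o
    refine defect_zero_of_cen 𝔐 hℓ hχ hχ0 (stb (comp τ o)).subtype (hθ o).1 fun g => ?_
    rw [cg_eq_cen 𝔐 (stb (comp τ o)) (θ o) (hθ o).2 g]
    have h2 := (h1 G B C 𝔐 ι κ ρ hL.cl).2.1 f g
    have h3 : (fun h => f (ι h)) = θ o := funext hf.2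
    rw [h3, hχc g] at h2
    rw [← h2]
    rfl
  have hempty : ∀ o, comp τ o = ∅ := fun o =>
    DZT_thm G ℓ (comp τ o) (comp_isCh hτ'.1 o) _ (hθ o).1 (hdef o)
  have hfull := fun o => irr_of_empty (hempty o) (hθ o).1 (hdef o)
  refine ⟨fun o => (hfull o).1, fun o => (hfull o).2, ?_⟩
  have hτ0 : τ = ∅ := by
    by_contra hne
    obtain ⟨D, hD'⟩ := Finset.nonempty_iff_ne_empty.mpr hne
    have h4 : D = ⊥ := by
      rw [← hτ'.2 D hD', cl, ← pK_bot]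
      congr 1
      ext1 o
      by_contra h5
      have h6 : prj o D ∈ comp τ o := mem_comp.mpr ⟨h5, D, hD', rfl⟩
      rw [hempty o] at h6
      exact Finset.notMem_empty _ h6
    exact (hτ'.1.1 D hD').2.ne' h4
  subst hτ0
  refine ⟨fun y => ψ (eYS j y), hψ.comp_mulEquiv (eYS j), ?_, fun g => ?_⟩
  · intro h
    apply hip
    rw [← ip_comp_equiv (eE (O → G))]
    exact h
  · rw [← cen_comp_equiv 𝔐 (eYS j) (i.comp (YS j (∅ : Finset (Subgroup (O → G)))).subtype) ψ]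
    rfl

end Pool.Agent.DP


end

section

/-!
BEQV: the classes of central functions over the same block agree.
-/

namespace Pool.Agent.DPV

open Pool.Agent.DP Pool.Agent.Lib_helper13 Representation
open Pool.Agent.Lib_helper13.Dade (pCore DadeHolds dadeSum)

namespace BEQV

/-- The central function of a function supported on the inverse image of `L` is supported there. -/
theorem rho_mem {G B C : Type} [Group G] [Group B] [Fintype B] [Group C]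
    (𝔐 : Ideal (integralClosure ℤ ℂ)) (ι : G →* B) (ρ : B →* C) (hk : ∀ g, ρ (ι g) = 1)
    (L : Subgroup C) (f : B → ℂ) (hf : ∀ x, ρ x ∉ L → f x = 0) (t : B)
    (ht : cgT 𝔐 ι.range f t ≠ 0) : ρ t ∈ L := by
  by_contra hL
  apply ht
  unfold cgT
  have h0 : ∑ x, cjT ι.range x t * f x = 0 := by
    apply Finset.sum_eq_zero
    intro x _
    by_cases hx : ∃ s ∈ ι.range, x = s * t * s⁻¹
    · obtain ⟨s, ⟨g, rfl⟩, hxs⟩ := hx
      have h1 : ρ x = ρ t := by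
        rw [hxs, map_mul, map_mul, map_inv, hk, one_mul, inv_one, mul_one]
      rw [hf x (by rw [h1]; exact hL), mul_zero]
    · unfold cjT
      rw [if_neg hx, zero_mul]
  rw [h0, zero_div, red_zero]

end BEQV

open _root_.Pool.Agent.DPV.BEQV in
theorem BEQV_thm (h1 : Stmt_EXTV) (h2 : Stmt_BETV) (h3 : Stmt_NUV) (h4 : Stmt_LINX) :
    Stmt_BEQV := by
  intro G B C _ _ _ _ _ 𝔐 ℓ _ hM hl ι κ ρ hloc hcop σ σ' ψ ψ' hσ hσ' hψ hψ' hcg L hL hL' f hf hc0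
  obtain ⟨e1, e2, _, e4, _, _⟩ := h1 G B C ι κ ρ hloc σ ψ hψ L
  obtain ⟨_, _, ⟨f', hf'⟩, _, _, _⟩ := h1 G B C ι κ ρ hloc σ' ψ' hψ' L
  obtain ⟨U, ν, hUL, hconj, hU, hν1, hνm, hν⟩ :=
    h3 G B C 𝔐 ℓ hM hl ι κ ρ hloc σ σ' ψ ψ' hσ hσ' hψ hψ' hcg L hL hL' f f' hf hf'
  haveI : Finite C := Finite.of_surjective ρ hloc.surj
  have hK : KL κ ρ σ ψ L = L := inf_eq_right.mpr hL
  obtain ⟨lam, hlam, hlamU⟩ := h4 C 𝔐 ℓ hM hl hcop L U hUL
    (fun c hc u hu => (hconj c hc u hu).1)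
    (by
      obtain ⟨c0, hc0L, hc⟩ := hc0
      refine ⟨c0, hc0L, fun c hcL => ?_⟩
      obtain ⟨k, t, ht, ht0⟩ := hc c hcL
      exact ⟨k, (hU _).mpr ⟨L.mul_mem hcL (L.zpow_mem hc0L k), t, ht, ht0⟩⟩)
    ν hν1 hνm (fun c hc u hu => (hconj c hc u hu).2)
  have hlamK : LinOn (KL κ ρ σ ψ L) lam := by rw [hK]; exact hlam
  have hf2 : ExtL ι κ ρ σ ψ L (fun x => f x * lam (ρ x)) := e4 f lam hlamK hf
  have hker : ∀ g, ρ (ι g) = 1 := fun g => (hloc.cl.ker (ι g)).mpr ⟨g, rfl⟩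
  -- the support of `f`
  have hsupp : ∀ x, ρ x ∉ L → f x = 0 := by
    intro x hx
    apply hf.1.2
    intro hx2
    exact hx hx2.2
  obtain ⟨b1, b2, _⟩ := h2 G B C 𝔐 ι κ ρ hloc
  have hS : IrrOn ((Stx κ σ ψ ⊓ L.comap ρ).comap ι) (fun h => f (ι h)) := by
    rw [e1]
    have : (fun h => f (ι h)) = ψ := funext hf.2
    rw [this]
    exact hψ
  have hlamS : LinOn ((Stx κ σ ψ ⊓ L.comap ρ).map ρ) lam := by rw [e2]; exact hlamK
  have htw := b1 (Stx κ σ ψ ⊓ L.comap ρ) f hf.1 hS lam hlamS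
  have heq : cgT 𝔐 ι.range (fun x => f x * lam (ρ x)) = cgT 𝔐 ι.range f' := by
    funext x
    rw [htw x, hν x]
    by_cases hx : cgT 𝔐 ι.range f x = 0
    · rw [hx, mul_zero, mul_zero]
    · have hxU : ρ x ∈ U := (hU _).mpr ⟨rho_mem 𝔐 ι ρ hker L f hsupp x hx, x, rfl, hx⟩
      rw [hlamU _ hxU]
  exact b2 σ σ' ψ ψ' hψ hψ' L hL hL' _ f' hf2 hf' heq

end Pool.Agent.DPV


end

section

/-!
# PERBR: standardization
-/

namespace Pool.Agent.DPC

open Pool.Agent.DP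

open Pool.Agent.Lib_helper13 Representation

/-- MODULE PERBR -/
theorem PERBR_thm (h1 : Stmt_EXTAR) (h2 : Stmt_PERAR) (h3 : Stmt_REPJ) (_h4 : Stmt_TRBR) :
    Stmt_PERBR := by
  intro O G B C Y K _ _ _ _ _ _ _ _ _ _ _ ℓ _ ι κ ρ hL j p φ hE τ hτ θ hθ r t hR
  classical
  obtain ⟨hch, hcl⟩ := mem_ClCh.mp hτ
  obtain ⟨_, _, _, _, a5⟩ := h2 O G B C Y K ℓ ι κ ρ hL j p φ hE τ hτ θ hθ
  obtain ⟨_, _, b3⟩ := h3 O G B C Y K ℓ ι κ ρ hL j p φ hE (KB κ p φ τ θ)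
  obtain ⟨b4, b5, b6⟩ := b3 r t hR
  -- transporting elements
  have hy : ∀ o, ∃ y, y ∈ InY κ φ τ θ ∧ p y = p (t o) := by
    intro o
    obtain ⟨y, hy1, hy2⟩ := Subgroup.mem_map.mp (hR.mem o)
    exact ⟨y, hy1, hy2⟩
  choose y hy1 hy2 using hy
  have hyr : ∀ o, (φ (y o)).right⁻¹ • o = r o ∧ ρ ((φ (y o)).left o) = ρ ((φ (t o)).left o) := by
    intro o
    have h5 : p (y o * (t o)⁻¹) = 1 := by
      rw [map_mul, map_inv, hy2, mul_inv_cancel]
    obtain ⟨n, hn⟩ := (hE.cl.ker _).mp h5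
    have h6 : y o = j n * t o := by
      rw [hn, inv_mul_cancel_right]
    have h7 : φ (y o) = SemidirectProduct.inl (fun o => ι (n o)) * φ (t o) := by
      rw [h6, map_mul, hE.jn]
    have h8 : (φ (y o)).right = (φ (t o)).right := by
      rw [h7, SemidirectProduct.mul_right, SemidirectProduct.right_inl, one_mul]
    have h9 : (φ (y o)).left o = ι (n o) * (φ (t o)).left o := by
      rw [h7, SemidirectProduct.mul_left, Pi.mul_apply, SemidirectProduct.left_inl,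
        SemidirectProduct.right_inl, map_one, MulAut.one_apply]
    refine ⟨?_, ?_⟩
    · rw [h8, inv_smul_eq_iff]
      exact (hR.map o).symm
    · rw [h9, map_mul, (hL.cl.ker (ι (n o))).mpr ⟨n o, rfl⟩, one_mul]
  -- extensions and matrices
  have hf : ∀ w, ∃ f, ExtL ι κ ρ (comp τ w) (θ w)
      (vg ρ p φ (KB κ p φ τ θ) w) f := fun w =>
    (h1 G B C ℓ ι κ ρ hL (comp τ w) (θ w) (hθ w) _).2.2.1
  choose f hf1 using hf
  have hm : ∀ w, ∃ m M, MD (Stx κ (comp τ w) (θ w) ⊓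
      (vg ρ p φ (KB κ p φ τ θ) w).comap ρ) (f w) m M := fun w =>
    TENS_thm.1 B _ (f w) (hf1 w).1
  choose m M hM using hm
  have hc : ∀ w, (Stx κ (comp τ w) (θ w) ⊓
      (vg ρ p φ (KB κ p φ τ θ) w).comap ρ).comap ι = stb (comp τ w) :=
    fun w => (h1 G B C ℓ ι κ ρ hL (comp τ w) (θ w) (hθ w) _).1
  have hfe : ∀ w, (fun h => f w (ι h)) = θ w := fun w => funext (hf1 w).2
  have himg : ∀ w, (Stx κ (comp τ w) (θ w) ⊓
      (vg ρ p φ (KB κ p φ τ θ) w).comap ρ).map ρ = vg ρ p φ (KB κ p φ τ θ) w := by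
    intro w
    rw [(h1 G B C ℓ ι κ ρ hL (comp τ w) (θ w) (hθ w) _).2.1]
    exact inf_eq_right.mpr (a5 w)
  refine ⟨fun o => (φ (y o)).left o,
    fun o => Stx κ (comp τ (r o)) (θ (r o)) ⊓
      (vg ρ p φ (KB κ p φ τ θ) (r o)).comap ρ,
    fun o => f (r o), fun o => m (r o), fun o => M (r o), ?_⟩
  refine ⟨⟨?_, ?_, ?_, ?_, ?_, ?_, ?_, ?_, ?_, ?_⟩, hR, ?_, ?_, ?_, ?_⟩
  · intro x hx o
    simp only [hR.con x hx o]
  · intro x hx o
    simp only [hR.con x hx o]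
  · intro x hx o
    simp only [hR.con x hx o]
  · intro x hx o
    simp only [hR.con x hx o]
  · exact fun o => (hf1 (r o)).1
  · intro o
    simp only [hc, hfe]
    exact hθ (r o)
  · exact fun o => hM (r o)
  · intro o
    simp only [hc, hfe]
    exact fun h => PERB.dz DZT_thm (comp_isCh hch (r o)) (hθ (r o)) h
  · intro o
    simp only [himg]
    exact b5 o
  · intro x hx o
    simp only [himg]
    exact b6 x hx _ (fun o => (hyr o).2) o
  · exact fun o => (hyr o).2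
  · intro o
    have h5 := hy1 o o
    rw [(hyr o).1] at h5
    exact h5
  · exact fun o => rfl
  · exact fun o => hf1 (r o)

end Pool.Agent.DPC


end
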