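import Mathlib
import Pool.Agent.DAM.C08
import Pool.Agent.DAM.C12
import Pool.Agent.DAM.C14
import Pool.Agent.DAM.C19

/-! Parts: DP.RINB, DPV.RINBV, DPC.OUTD, DPW.FXA -/

section

/-!
# Dade's conjecture, theorem R: the action of a group normalizing `Q` on the centralizer
-/

namespace Pool.Agent.DP

namespace RINB

section Act

variable {Ω B X O : Type*} [Group B] [Group X] {φ : X →* Gam (Equiv.Perm Ω) Ω B}
  {Q Y : Subgroup X} {π : Ω → O} {u : Ω → B}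

theorem right_mul (x y : X) (w : Ω) :
    (φ (x * y)).right • w = (φ x).right • (φ y).right • w := by
  rw [map_mul, SemidirectProduct.mul_right, mul_smul]

theorem left_mul (x y : X) (w : Ω) :
    (φ (x * y)).left w = (φ x).left w * (φ y).left ((φ x).right⁻¹ • w) := by
  rw [map_mul]
  rfl

theorem right_inv (x : X) : (φ x⁻¹).right = (φ x).right⁻¹ := by
  rw [map_inv, SemidirectProduct.inv_right]

/-- Elements of `Y` normalize `Q`. -/
theorem conj_mem (hY : ∀ y ∈ Y, Q.map (MulAut.conj y).toMonoidHom = Q) {y q : X} (hy : y ∈ Y)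
    (hq : q ∈ Q) : y * q * y⁻¹ ∈ Q := by
  have h : y * q * y⁻¹ ∈ Q.map (MulAut.conj y).toMonoidHom := ⟨q, hq, by simp⟩
  rwa [hY y hy] at h

theorem conj_mem' (hY : ∀ y ∈ Y, Q.map (MulAut.conj y).toMonoidHom = Q) {y q : X} (hy : y ∈ Y)
    (hq : q ∈ Q) : y⁻¹ * q * y ∈ Q := by
  have h := conj_mem hY (Y.inv_mem hy) hq
  rwa [inv_inv] at h

theorem pi_congr (hπ : ∀ w w', π w = π w' ↔ ∃ q ∈ Q, (φ q).right • w = w')
    (hY : ∀ y ∈ Y, Q.map (MulAut.conj y).toMonoidHom = Q) {y : X} (hy : y ∈ Y) {w w' : Ω}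
    (h : π w = π w') : π ((φ y).right • w) = π ((φ y).right • w') := by
  obtain ⟨q, hq, rfl⟩ := (hπ _ _).mp h
  rw [hπ]
  refine ⟨y * q * y⁻¹, conj_mem hY hy hq, ?_⟩
  rw [← right_mul, ← right_mul]
  congr 3
  group

theorem left_congr (hπ : ∀ w w', π w = π w' ↔ ∃ q ∈ Q, (φ q).right • w = w')
    (hu : ∀ q ∈ Q, ∀ w, u ((φ q).right • w) = (φ q).left ((φ q).right • w) * u w)
    (hY : ∀ y ∈ Y, Q.map (MulAut.conj y).toMonoidHom = Q) {y : X} (hy : y ∈ Y) {w w' : Ω}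
    (h : π w = π w') :
    (u w)⁻¹ * (φ y).left w * u ((φ y).right⁻¹ • w) =
      (u w')⁻¹ * (φ y).left w' * u ((φ y).right⁻¹ • w') := by
  obtain ⟨q, hq, rfl⟩ := (hπ _ _).mp h
  have hq' := conj_mem' hY hy hq
  have h1 : q * y = y * (y⁻¹ * q * y) := by group
  have h2 : (φ y).right⁻¹ • (φ q).right • w =
      (φ (y⁻¹ * q * y)).right • (φ y).right⁻¹ • w := by
    rw [← right_inv, ← right_mul, ← right_mul]
    congr 3
    group
  have h3 : u ((φ y).right⁻¹ • (φ q).right • w) =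
      (φ (y⁻¹ * q * y)).left ((φ y).right⁻¹ • (φ q).right • w) * u ((φ y).right⁻¹ • w) := by
    rw [h2]
    exact hu _ hq' _
  have h4 : (φ q).left ((φ q).right • w) * (φ y).left w =
      (φ y).left ((φ q).right • w) *
        (φ (y⁻¹ * q * y)).left ((φ y).right⁻¹ • (φ q).right • w) := by
    rw [← left_mul, ← h1, left_mul, inv_smul_smul]
  rw [h3, hu q hq w]
  calc (u w)⁻¹ * (φ y).left w * u ((φ y).right⁻¹ • w)
      = ((φ q).left ((φ q).right • w) * u w)⁻¹ *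
        ((φ q).left ((φ q).right • w) * (φ y).left w) * u ((φ y).right⁻¹ • w) := by group
    _ = ((φ q).left ((φ q).right • w) * u w)⁻¹ * (φ y).left ((φ q).right • w) *
        ((φ (y⁻¹ * q * y)).left ((φ y).right⁻¹ • (φ q).right • w) *
          u ((φ y).right⁻¹ • w)) := by
        rw [h4]
        group

/-- The action on the set of orbits. -/
noncomputable def permO (hs : Function.Surjective π)
    (hπ : ∀ w w', π w = π w' ↔ ∃ q ∈ Q, (φ q).right • w = w')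
    (hY : ∀ y ∈ Y, Q.map (MulAut.conj y).toMonoidHom = Q) (y : Y) : Equiv.Perm O where
  toFun o := π ((φ (y : X)).right • Function.surjInv hs o)
  invFun o := π ((φ (y : X)).right⁻¹ • Function.surjInv hs o)
  left_inv := by
    intro o
    have h := pi_congr hπ hY (Y.inv_mem y.2) (Function.surjInv_eq hs
      (π ((φ (y : X)).right • Function.surjInv hs o)))
    rw [right_inv, inv_smul_smul] at h
    exact h.trans (Function.surjInv_eq hs o)
  right_inv := by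
    intro o
    have h := pi_congr hπ hY y.2 (Function.surjInv_eq hs
      (π ((φ (y : X)).right⁻¹ • Function.surjInv hs o)))
    rw [smul_inv_smul] at h
    exact h.trans (Function.surjInv_eq hs o)

theorem permO_apply (hs : Function.Surjective π)
    (hπ : ∀ w w', π w = π w' ↔ ∃ q ∈ Q, (φ q).right • w = w')
    (hY : ∀ y ∈ Y, Q.map (MulAut.conj y).toMonoidHom = Q) (y : Y) (w : Ω) :
    permO hs hπ hY y • π w = π ((φ (y : X)).right • w) :=
  pi_congr hπ hY y.2 (Function.surjInv_eq hs (π w))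

theorem permO_inv (hs : Function.Surjective π)
    (hπ : ∀ w w', π w = π w' ↔ ∃ q ∈ Q, (φ q).right • w = w')
    (hY : ∀ y ∈ Y, Q.map (MulAut.conj y).toMonoidHom = Q) (y : Y) (w : Ω) :
    (permO hs hπ hY y)⁻¹ • π w = π ((φ (y : X)).right⁻¹ • w) := by
  rw [inv_smul_eq_iff, permO_apply, smul_inv_smul]

/-- The left component. -/
noncomputable def leftO (φ : X →* Gam (Equiv.Perm Ω) Ω B) (u : Ω → B)
    (hs : Function.Surjective π) (y : Y) (o : O) : B :=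
  (u (Function.surjInv hs o))⁻¹ * (φ (y : X)).left (Function.surjInv hs o) *
    u ((φ (y : X)).right⁻¹ • Function.surjInv hs o)

theorem leftO_apply (hs : Function.Surjective π)
    (hπ : ∀ w w', π w = π w' ↔ ∃ q ∈ Q, (φ q).right • w = w')
    (hu : ∀ q ∈ Q, ∀ w, u ((φ q).right • w) = (φ q).left ((φ q).right • w) * u w)
    (hY : ∀ y ∈ Y, Q.map (MulAut.conj y).toMonoidHom = Q) (y : Y) (w : Ω) :
    leftO φ u hs y (π w) =
      (u w)⁻¹ * (φ (y : X)).left w * u ((φ (y : X)).right⁻¹ • w) :=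
  left_congr hπ hu hY y.2 (Function.surjInv_eq hs (π w))

/-- The map to `B ≀ Sym(O)`. -/
noncomputable def phiO (hs : Function.Surjective π)
    (hπ : ∀ w w', π w = π w' ↔ ∃ q ∈ Q, (φ q).right • w = w')
    (hu : ∀ q ∈ Q, ∀ w, u ((φ q).right • w) = (φ q).left ((φ q).right • w) * u w)
    (hY : ∀ y ∈ Y, Q.map (MulAut.conj y).toMonoidHom = Q) :
    Y →* Gam (Equiv.Perm O) O B :=
  MonoidHom.mk' (fun y => ⟨leftO φ u hs y, permO hs hπ hY y⟩) (by
    intro x y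
    apply SemidirectProduct.ext
    · funext o
      obtain ⟨w, rfl⟩ := hs o
      change leftO φ u hs (x * y) (π w) =
        leftO φ u hs x (π w) * leftO φ u hs y ((permO hs hπ hY x)⁻¹ • π w)
      rw [permO_inv, leftO_apply hs hπ hu hY, leftO_apply hs hπ hu hY,
        leftO_apply hs hπ hu hY]
      have h1 : (φ ((x * y : Y) : X)).right⁻¹ • w =
          (φ (y : X)).right⁻¹ • (φ (x : X)).right⁻¹ • w := by
        rw [← right_inv, ← right_inv, ← right_inv, ← right_mul]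
        congr 3
        simp
      have h2 : (φ ((x * y : Y) : X)).left w =
          (φ (x : X)).left w * (φ (y : X)).left ((φ (x : X)).right⁻¹ • w) :=
        left_mul (x : X) (y : X) w
      rw [h1, h2]
      group
    · apply Equiv.ext
      intro o
      obtain ⟨w, rfl⟩ := hs o
      change permO hs hπ hY (x * y) • π w =
        permO hs hπ hY x • permO hs hπ hY y • π w
      rw [permO_apply, permO_apply, permO_apply]
      congr 1
      exact right_mul (x : X) (y : X) w)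

end Act

end RINB

theorem RINB_thm : Stmt_RINB := by
  intro Ω G B C X K O _ _ _ _ _ _ _ _ _ _ _ _ ℓ _ ι κ ρ hloc e p φ hext Q hQ π u hs hπ hu hcen
    Y hY hle
  classical
  -- the normal subgroup
  have hmem : ∀ n : O → G, e (fun w => κ (u w) (n (π w))) ∈ Y := by
    intro n
    apply hle
    exact ⟨⟨_, rfl⟩, (hcen _).mpr ⟨n, rfl⟩⟩
  let E : (O → G) →* (Ω → G) :=
    { toFun := fun n w => κ (u w) (n (π w))
      map_one' := by
        funext w
        simp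
      map_mul' := by
        intro a b
        funext w
        simp }
  let j : (O → G) →* Y := (e.comp E).codRestrict Y hmem
  have hj : ∀ n : O → G, ((j n : Y) : X) = e (fun w => κ (u w) (n (π w))) := fun n => rfl
  let φ' : Y →* Gam (Equiv.Perm O) O B := RINB.phiO hs hπ hu hY
  have hr : ∀ (y : Y) (w : Ω), (φ' y).right • π w = π ((φ (y : X)).right • w) :=
    fun y w => RINB.permO_apply hs hπ hY y w
  have hri : ∀ (y : Y) (w : Ω), (φ' y).right⁻¹ • π w = π ((φ (y : X)).right⁻¹ • w) :=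
    fun y w => RINB.permO_inv hs hπ hY y w
  have hl : ∀ (y : Y) (w : Ω), (φ' y).left (π w) =
      (u w)⁻¹ * (φ (y : X)).left w * u ((φ (y : X)).right⁻¹ • w) :=
    fun y w => RINB.leftO_apply hs hπ hu hY y w
  have hjinj : Function.Injective j := by
    intro a b hab
    have h1 : e (fun w => κ (u w) (a (π w))) = e (fun w => κ (u w) (b (π w))) :=
      congrArg Subtype.val hab
    have h2 := hext.cl.inj h1
    funext o
    obtain ⟨w, rfl⟩ := hs o
    exact (κ (u w)).injective (congrFun h2 w)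
  have hact : ∀ (y : Y) (n : O → G), j (wB κ O (φ' y) n) = y * j n * y⁻¹ := by
    intro y n
    apply Subtype.ext
    change e (fun w => κ (u w) (wB κ O (φ' y) n (π w))) =
      (y : X) * e (fun w => κ (u w) (n (π w))) * (y : X)⁻¹
    rw [← hext.cl.act]
    congr 1
    funext w
    rw [MonoidHom.comp_apply, wB_apply, wB_apply, hl, hri, ← MulAut.mul_apply, ← map_mul,
      ← MulAut.mul_apply, ← map_mul]
    congr 2
    group
  have hN : j.range.Normal := by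
    constructor
    rintro _ ⟨n, rfl⟩ y
    exact ⟨_, hact y n⟩
  have hrange : ∀ y : Y, (y : X) ∈ e.range → y ∈ j.range := by
    rintro y ⟨n, hn⟩
    have h1 : e n ∈ Subgroup.centralizer (Q : Set X) := by
      rw [Subgroup.mem_centralizer_iff]
      intro q hq
      have h2 : (y : X) * q * (y : X)⁻¹ * q⁻¹ ∈ Q :=
        Q.mul_mem (RINB.conj_mem hY y.2 hq) (Q.inv_mem hq)
      have h3 : (y : X) * q * (y : X)⁻¹ * q⁻¹ ∈ e.range := by
        have h4 : (y : X) * q * (y : X)⁻¹ * q⁻¹ = (y : X) * (q * (y : X)⁻¹ * q⁻¹) := by group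
        rw [h4, ← hn, ← map_inv, ← hext.cl.act]
        exact e.range.mul_mem ⟨_, rfl⟩ ⟨_, rfl⟩
      have h5 : (y : X) * q * (y : X)⁻¹ * q⁻¹ = 1 := by
        have h6 : (y : X) * q * (y : X)⁻¹ * q⁻¹ ∈ Q ⊓ e.range := ⟨h2, h3⟩
        rw [hQ] at h6
        exact Subgroup.mem_bot.mp h6
      rw [hn]
      have h7 : (y : X) * q = q * (y : X) := by
        have h8 := mul_inv_eq_one.mp h5
        exact mul_inv_eq_iff_eq_mul.mp h8
      exact h7.symm
    obtain ⟨n', hn'⟩ := (hcen n).mp h1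
    refine ⟨n', ?_⟩
    apply Subtype.ext
    rw [hj, ← hn, hn']
  refine ⟨Y ⧸ j.range, inferInstance, inferInstance, j, QuotientGroup.mk' j.range, φ',
    ⟨⟨hjinj, hact, ?_⟩, QuotientGroup.mk'_surjective _, ?_⟩, hj, hrange, ?_⟩
  · intro y
    exact QuotientGroup.eq_one_iff y
  · intro n
    have h1 : φ ((j n : Y) : X) = SemidirectProduct.inl (fun w => ι (κ (u w) (n (π w)))) :=
      hext.jn _
    apply SemidirectProduct.ext
    · funext o
      obtain ⟨w, rfl⟩ := hs o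
      rw [hl, h1]
      change (u w)⁻¹ * ι (κ (u w) (n (π w))) * u ((1 : Equiv.Perm Ω)⁻¹ • w) = ι (n (π w))
      rw [hloc.cl.act]
      simp only [inv_one, one_smul]
      group
    · apply Equiv.ext
      intro o
      obtain ⟨w, rfl⟩ := hs o
      change (φ' (j n)).right • π w = π w
      rw [hr, h1]
      change π ((1 : Equiv.Perm Ω) • w) = π w
      rw [one_smul]
  · intro y
    constructor
    · intro hy
      exact hrange y hy.1
    · rintro ⟨n, rfl⟩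
      exact ⟨⟨_, rfl⟩, (hcen _).mpr ⟨n, rfl⟩⟩

end Pool.Agent.DP


end

section

/-!
# Dade's conjecture, theorem V: the action of a group normalizing `Q` on the centralizer
-/

namespace Pool.Agent.DPV

open Pool.Agent.DP Pool.Agent.Lib_helper13 Representation
open Pool.Agent.Lib_helper13.Dade (pCore DadeHolds dadeSum)

theorem RINBV_thm : Stmt_RINBV := by
  intro Ω G B C X K O _ _ _ _ _ _ _ _ _ _ _ _ ℓ _ ι κ ρ hloc e p φ hext Q hQ π u hs hπ hu hcen
    Y hY hle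
  classical
  -- the normal subgroup
  have hmem : ∀ n : O → G, e (fun w => κ (u w) (n (π w))) ∈ Y := by
    intro n
    apply hle
    exact ⟨⟨_, rfl⟩, (hcen _).mpr ⟨n, rfl⟩⟩
  let E : (O → G) →* (Ω → G) :=
    { toFun := fun n w => κ (u w) (n (π w))
      map_one' := by
        funext w
        simp
      map_mul' := by
        intro a b
        funext w
        simp }
  let j : (O → G) →* Y := (e.comp E).codRestrict Y hmem
  have hj : ∀ n : O → G, ((j n : Y) : X) = e (fun w => κ (u w) (n (π w))) := fun n => rfl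
  let φ' : Y →* Gam (Equiv.Perm O) O B := Pool.Agent.DP.RINB.phiO hs hπ hu hY
  have hr : ∀ (y : Y) (w : Ω), (φ' y).right • π w = π ((φ (y : X)).right • w) :=
    fun y w => Pool.Agent.DP.RINB.permO_apply hs hπ hY y w
  have hri : ∀ (y : Y) (w : Ω), (φ' y).right⁻¹ • π w = π ((φ (y : X)).right⁻¹ • w) :=
    fun y w => Pool.Agent.DP.RINB.permO_inv hs hπ hY y w
  have hl : ∀ (y : Y) (w : Ω), (φ' y).left (π w) =
      (u w)⁻¹ * (φ (y : X)).left w * u ((φ (y : X)).right⁻¹ • w) :=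
    fun y w => Pool.Agent.DP.RINB.leftO_apply hs hπ hu hY y w
  have hjinj : Function.Injective j := by
    intro a b hab
    have h1 : e (fun w => κ (u w) (a (π w))) = e (fun w => κ (u w) (b (π w))) :=
      congrArg Subtype.val hab
    have h2 := hext.cl.inj h1
    funext o
    obtain ⟨w, rfl⟩ := hs o
    exact (κ (u w)).injective (congrFun h2 w)
  have hact : ∀ (y : Y) (n : O → G), j (wB κ O (φ' y) n) = y * j n * y⁻¹ := by
    intro y n
    apply Subtype.ext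
    change e (fun w => κ (u w) (wB κ O (φ' y) n (π w))) =
      (y : X) * e (fun w => κ (u w) (n (π w))) * (y : X)⁻¹
    rw [← hext.cl.act]
    congr 1
    funext w
    rw [MonoidHom.comp_apply, wB_apply, wB_apply, hl, hri, ← MulAut.mul_apply, ← map_mul,
      ← MulAut.mul_apply, ← map_mul]
    congr 2
    group
  have hN : j.range.Normal := by
    constructor
    rintro _ ⟨n, rfl⟩ y
    exact ⟨_, hact y n⟩
  have hrange : ∀ y : Y, (y : X) ∈ e.range → y ∈ j.range := by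
    rintro y ⟨n, hn⟩
    have h1 : e n ∈ Subgroup.centralizer (Q : Set X) := by
      rw [Subgroup.mem_centralizer_iff]
      intro q hq
      have h2 : (y : X) * q * (y : X)⁻¹ * q⁻¹ ∈ Q :=
        Q.mul_mem (Pool.Agent.DP.RINB.conj_mem hY y.2 hq) (Q.inv_mem hq)
      have h3 : (y : X) * q * (y : X)⁻¹ * q⁻¹ ∈ e.range := by
        have h4 : (y : X) * q * (y : X)⁻¹ * q⁻¹ = (y : X) * (q * (y : X)⁻¹ * q⁻¹) := by group
        rw [h4, ← hn, ← map_inv, ← hext.cl.act]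
        exact e.range.mul_mem ⟨_, rfl⟩ ⟨_, rfl⟩
      have h5 : (y : X) * q * (y : X)⁻¹ * q⁻¹ = 1 := by
        have h6 : (y : X) * q * (y : X)⁻¹ * q⁻¹ ∈ Q ⊓ e.range := ⟨h2, h3⟩
        rw [hQ] at h6
        exact Subgroup.mem_bot.mp h6
      rw [hn]
      have h7 : (y : X) * q = q * (y : X) := by
        have h8 := mul_inv_eq_one.mp h5
        exact mul_inv_eq_iff_eq_mul.mp h8
      exact h7.symm
    obtain ⟨n', hn'⟩ := (hcen n).mp h1
    refine ⟨n', ?_⟩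
    apply Subtype.ext
    rw [hj, ← hn, hn']
  refine ⟨Y ⧸ j.range, inferInstance, inferInstance, j, QuotientGroup.mk' j.range, φ',
    ⟨⟨hjinj, hact, ?_⟩, QuotientGroup.mk'_surjective _, ?_⟩, hj, hrange, ?_⟩
  · intro y
    exact QuotientGroup.eq_one_iff y
  · intro n
    have h1 : φ ((j n : Y) : X) = SemidirectProduct.inl (fun w => ι (κ (u w) (n (π w)))) :=
      hext.jn _
    apply SemidirectProduct.ext
    · funext o
      obtain ⟨w, rfl⟩ := hs o
      rw [hl, h1]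
      change (u w)⁻¹ * ι (κ (u w) (n (π w))) * u ((1 : Equiv.Perm Ω)⁻¹ • w) = ι (n (π w))
      rw [hloc.cl.act]
      simp only [inv_one, one_smul]
      group
    · apply Equiv.ext
      intro o
      obtain ⟨w, rfl⟩ := hs o
      change (φ' (j n)).right • π w = π w
      rw [hr, h1]
      change π ((1 : Equiv.Perm Ω) • w) = π w
      rw [one_smul]
  · intro y
    constructor
    · intro hy
      exact hrange y hy.1
    · rintro ⟨n, rfl⟩
      exact ⟨⟨_, rfl⟩, (hcen _).mpr ⟨n, rfl⟩⟩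

end Pool.Agent.DPV


end

section

/-!
# Dade's conjecture, theorem C: the structure of a group normalizing `Q` with respect to the
coordinates in one orbit
-/

namespace Pool.Agent.DPC

open Pool.Agent.DP Pool.Agent.Lib_helper13 Representation
open Pool.Agent.Lib_helper13.Dade (pCore DadeHolds dadeSum)

namespace OUTD

section Basic

variable {Ω B X B1 : Type} [Group B] [Group X] [Group B1] {φ : X →* Gam (Equiv.Perm Ω) Ω B}
  {Q Y : Subgroup X} {w0 : Ω}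

theorem lam_mul {x : X} (hx : (φ x).right • w0 = w0) (y : X) :
    (φ (x * y)).left w0 = (φ x).left w0 * (φ y).left w0 := by
  have h : (φ x).right⁻¹ • w0 = w0 := by rw [inv_smul_eq_iff, hx]
  rw [RINB.left_mul, h]

theorem lam_inv (x : X) (w : Ω) : (φ x⁻¹).left w = ((φ x).left ((φ x).right • w))⁻¹ := by
  rw [map_inv]
  change ((φ x).left ((φ x).right⁻¹⁻¹ • w))⁻¹ = _
  rw [inv_inv]

theorem bracket_right {x r r' : X} {w w' : Ω} (hr : (φ r).right • w0 = w)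
    (hr' : (φ r').right • w0 = w') (hx : (φ x).right • w' = w) :
    (φ (r⁻¹ * x * r')).right • w0 = w0 := by
  rw [RINB.right_mul, RINB.right_mul, hr', hx, RINB.right_inv, inv_smul_eq_iff, hr]

theorem bracket_left {x r r' : X} {w w' : Ω} (hr : (φ r).right • w0 = w)
    (_hr' : (φ r').right • w0 = w') (hx : (φ x).right • w' = w) :
    (φ (r⁻¹ * x * r')).left w0 = ((φ r).left w)⁻¹ * (φ x).left w * (φ r').left w' := by
  have h1 : (φ (r⁻¹ * x)).right⁻¹ • w0 = w' := by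
    rw [inv_smul_eq_iff, RINB.right_mul, hx, RINB.right_inv, eq_inv_smul_iff, hr]
  rw [RINB.left_mul, h1, RINB.left_mul, lam_inv, hr, RINB.right_inv, inv_inv, hr]

/-- The normalizer of `Q`. -/
def NQ (Q : Subgroup X) : Subgroup X where
  carrier := {x | (∀ q ∈ Q, x * q * x⁻¹ ∈ Q) ∧ ∀ q ∈ Q, x⁻¹ * q * x ∈ Q}
  one_mem' := by
    constructor
    · intro q hq
      simpa using hq
    · intro q hq
      simpa using hq
  mul_mem' := by
    rintro x y ⟨hx1, hx2⟩ ⟨hy1, hy2⟩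
    constructor
    · intro q hq
      have h : x * y * q * (x * y)⁻¹ = x * (y * q * y⁻¹) * x⁻¹ := by group
      rw [h]
      exact hx1 _ (hy1 q hq)
    · intro q hq
      have h : (x * y)⁻¹ * q * (x * y) = y⁻¹ * (x⁻¹ * q * x) * y := by group
      rw [h]
      exact hy2 _ (hx2 q hq)
  inv_mem' := by
    rintro x ⟨hx1, hx2⟩
    constructor
    · intro q hq
      rw [inv_inv]
      exact hx2 q hq
    · intro q hq
      rw [inv_inv]
      exact hx1 q hq

theorem Q_NQ : Q ≤ NQ Q := fun _ hx =>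
  ⟨fun _ hq => Q.mul_mem (Q.mul_mem hx hq) (Q.inv_mem hx),
    fun _ hq => Q.mul_mem (Q.mul_mem (Q.inv_mem hx) hq) hx⟩

/-- The stabilizer of `w0` in the normalizer of `Q`. -/
def St (φ : X →* Gam (Equiv.Perm Ω) Ω B) (Q : Subgroup X) (w0 : Ω) : Subgroup X where
  carrier := {x | x ∈ NQ Q ∧ (φ x).right • w0 = w0}
  one_mem' := ⟨(NQ Q).one_mem, by simp⟩
  mul_mem' := by
    rintro x y ⟨hx1, hx2⟩ ⟨hy1, hy2⟩
    refine ⟨(NQ Q).mul_mem hx1 hy1, ?_⟩
    rw [RINB.right_mul, hy2, hx2]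
  inv_mem' := by
    rintro x ⟨hx1, hx2⟩
    refine ⟨(NQ Q).inv_mem hx1, ?_⟩
    rw [RINB.right_inv, inv_smul_eq_iff, hx2]

theorem lam_conj {x : X} (hx : x ∈ St φ Q w0) {b : B} (hb : b ∈ Pw φ Q w0) :
    (φ x).left w0 * b * ((φ x).left w0)⁻¹ ∈ Pw φ Q w0 := by
  obtain ⟨q, hq, hq1, rfl⟩ := hb
  have hx2 : (φ x).right • w0 = w0 := hx.2
  have h1 : (φ (x * q)).right • w0 = w0 := by rw [RINB.right_mul, hq1, hx2]
  refine ⟨x * q * x⁻¹, hx.1.1 q hq, ?_, ?_⟩
  · have h2 : (φ x).right⁻¹ • w0 = w0 := by rw [inv_smul_eq_iff, hx2]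
    rw [RINB.right_mul, RINB.right_inv, h2, h1]
  · rw [lam_mul h1, lam_mul hx2, lam_inv, hx2]

theorem lam_map {x : X} (hx : x ∈ St φ Q w0) :
    (Pw φ Q w0).map (MulAut.conj ((φ x).left w0)).toMonoidHom = Pw φ Q w0 := by
  have hx2 : (φ x).right • w0 = w0 := hx.2
  apply le_antisymm
  · rintro _ ⟨b, hb, rfl⟩
    exact lam_conj hx hb
  · intro b hb
    refine ⟨((φ x).left w0)⁻¹ * b * (φ x).left w0, ?_, ?_⟩
    · have h := lam_conj ((St φ Q w0).inv_mem hx) hb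
      rw [lam_inv, hx2, inv_inv] at h
      exact h
    · change (φ x).left w0 * (((φ x).left w0)⁻¹ * b * (φ x).left w0) * ((φ x).left w0)⁻¹ = b
      group

/-- The homomorphism to `B1` of the stabilizer of `w0`. -/
def Lam (hP : ∀ b : B, (Pw φ Q w0).map (MulAut.conj b).toMonoidHom = Pw φ Q w0 →
      b ∈ Subgroup.centralizer (Pw φ Q w0 : Set B))
    (πB : ↥(Subgroup.centralizer (Pw φ Q w0 : Set B)) →* B1) : ↥(St φ Q w0) →* B1 :=
  πB.comp (MonoidHom.mk' (fun x => ⟨(φ (x : X)).left w0, hP _ (lam_map x.2)⟩) (by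
    intro x y
    apply Subtype.ext
    exact lam_mul x.2.2 _))

/-- The stabilizer in `Y` of the orbit of `w0`. -/
def YM (φ : X →* Gam (Equiv.Perm Ω) Ω B) (w0 : Ω) (hYN : Y ≤ NQ Q) : Subgroup Y where
  carrier := {v | ∃ q ∈ Q, (φ (q * (v : X))).right • w0 = w0}
  one_mem' := ⟨1, Q.one_mem, by simp⟩
  mul_mem' := by
    rintro v v' ⟨q, hq, h⟩ ⟨q', hq', h'⟩
    refine ⟨q * ((v : X) * q' * (v : X)⁻¹), Q.mul_mem hq ((hYN v.2).1 q' hq'), ?_⟩
    have e : q * ((v : X) * q' * (v : X)⁻¹) * ((v * v' : Y) : X) = (q * v) * (q' * v') := by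
      rw [Subgroup.coe_mul]
      group
    rw [e, RINB.right_mul, h', h]
  inv_mem' := by
    rintro v ⟨q, hq, h⟩
    refine ⟨(v : X)⁻¹ * q⁻¹ * v, (hYN v.2).2 _ (Q.inv_mem hq), ?_⟩
    have e : (v : X)⁻¹ * q⁻¹ * v * ((v⁻¹ : Y) : X) = (q * v)⁻¹ := by
      rw [Subgroup.coe_inv]
      group
    rw [e, RINB.right_inv, inv_smul_eq_iff, h]

end Basic

section Part1

variable {Ω B X B1 : Type} [Group B] [Group X] [Group B1] {φ : X →* Gam (Equiv.Perm Ω) Ω B}
  {Q Y : Subgroup X} {w0 : Ω}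
  (hP : ∀ b : B, (Pw φ Q w0).map (MulAut.conj b).toMonoidHom = Pw φ Q w0 →
      b ∈ Subgroup.centralizer (Pw φ Q w0 : Set B))
  (πB : ↥(Subgroup.centralizer (Pw φ Q w0 : Set B)) →* B1)
  (hπ : ∀ x, πB x = 1 ↔ (x : B) ∈ Pw φ Q w0) (hYN : Y ≤ NQ Q)

include hπ in
theorem Lam_Q (s : St φ Q w0) (hs : (s : X) ∈ Q) : Lam hP πB s = 1 :=
  (hπ _).mpr ⟨s, hs, s.2.2, rfl⟩

include hπ in
theorem Lam_eq {s s' : St φ Q w0} {x : X} (h : (s : X) * x⁻¹ ∈ Q) (h' : (s' : X) * x⁻¹ ∈ Q) :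
    Lam hP πB s = Lam hP πB s' := by
  rw [← mul_inv_eq_one, ← map_inv, ← map_mul]
  apply Lam_Q hP πB hπ
  have e : ((s * s'⁻¹ : St φ Q w0) : X) = (s : X) * x⁻¹ * ((s' : X) * x⁻¹)⁻¹ := by
    rw [Subgroup.coe_mul, Subgroup.coe_inv]
    group
  rw [e]
  exact Q.mul_mem h (Q.inv_mem h')

theorem exists_s (v : YM φ w0 hYN) : ∃ s : St φ Q w0, (s : X) * ((v : Y) : X)⁻¹ ∈ Q := by
  obtain ⟨q, hq, h⟩ := v.2
  refine ⟨⟨q * ((v : Y) : X), (NQ Q).mul_mem (Q_NQ hq) (hYN (v : Y).2), h⟩, ?_⟩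
  change q * ((v : Y) : X) * ((v : Y) : X)⁻¹ ∈ Q
  rwa [mul_inv_cancel_right]

/-- The homomorphism to `B1` of the stabilizer of the orbit of `w0`. -/
noncomputable def LamY : ↥(YM φ w0 hYN) →* B1 :=
  MonoidHom.mk' (fun v => Lam hP πB (exists_s hYN v).choose) (by
    intro v v'
    have h := (exists_s hYN v).choose_spec
    have h' := (exists_s hYN v').choose_spec
    have h'' := (exists_s hYN (v * v')).choose_spec
    rw [← map_mul]
    refine Lam_eq hP πB hπ h'' ?_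
    set s := (exists_s hYN v).choose
    set s' := (exists_s hYN v').choose
    have e : ((s * s' : St φ Q w0) : X) * (((v * v' : YM φ w0 hYN) : Y) : X)⁻¹ =
        ((s : X) * ((s' : X) * ((v' : Y) : X)⁻¹) * (s : X)⁻¹) * ((s : X) * ((v : Y) : X)⁻¹) := by
      rw [Subgroup.coe_mul, Subgroup.coe_mul, Subgroup.coe_mul]
      group
    rw [e]
    exact Q.mul_mem (s.2.1.1 _ h') h)

theorem LamY_eq (v : YM φ w0 hYN) (s : St φ Q w0) (h : (s : X) * ((v : Y) : X)⁻¹ ∈ Q) :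
    LamY hP πB hπ hYN v = Lam hP πB s :=
  Lam_eq hP πB hπ (exists_s hYN v).choose_spec h

variable (τ : (Y ⧸ YM φ w0 hYN) → Y) (hτ : ∀ o, ((τ o : Y) : Y ⧸ YM φ w0 hYN) = o)

include hτ in
theorem tau_mem (y : Y) (o : Y ⧸ YM φ w0 hYN) :
    (τ o)⁻¹ * y * τ (y⁻¹ • o) ∈ YM φ w0 hYN := by
  rw [mul_assoc, ← QuotientGroup.eq, hτ]
  have h : ((y * τ (y⁻¹ • o) : Y) : Y ⧸ YM φ w0 hYN) = y • ((τ (y⁻¹ • o) : Y) : Y ⧸ YM φ w0 hYN) :=
    rfl
  rw [h, hτ, smul_inv_smul]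

/-- The map to `B1 ≀ Sym(O1)`. -/
noncomputable def phi1 :
    Y →* Gam (Equiv.Perm (Y ⧸ YM φ w0 hYN)) (Y ⧸ YM φ w0 hYN) B1 :=
  MonoidHom.mk' (fun y => ⟨fun o => LamY hP πB hπ hYN ⟨(τ o)⁻¹ * y * τ (y⁻¹ • o),
      tau_mem hYN τ hτ y o⟩, MulAction.toPermHom Y (Y ⧸ YM φ w0 hYN) y⟩) (by
    intro x y
    apply SemidirectProduct.ext
    · funext o
      change LamY hP πB hπ hYN ⟨(τ o)⁻¹ * (x * y) * τ ((x * y)⁻¹ • o), _⟩ =
        LamY hP πB hπ hYN ⟨(τ o)⁻¹ * x * τ (x⁻¹ • o), _⟩ *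
        LamY hP πB hπ hYN ⟨(τ (x⁻¹ • o))⁻¹ * y * τ (y⁻¹ • x⁻¹ • o), _⟩
      rw [← map_mul]
      congr 1
      apply Subtype.ext
      change (τ o)⁻¹ * (x * y) * τ ((x * y)⁻¹ • o) =
        ((τ o)⁻¹ * x * τ (x⁻¹ • o)) * ((τ (x⁻¹ • o))⁻¹ * y * τ (y⁻¹ • x⁻¹ • o))
      rw [mul_inv_rev, mul_smul]
      group
    · exact map_mul _ x y)

/-- `w` lies in the orbit `o`. -/
def Rel (w : Ω) (o : Y ⧸ YM φ w0 hYN) : Prop :=
  ∃ q ∈ Q, (φ (q * ((τ o : Y) : X))).right • w0 = w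

include hτ in
theorem Rel_unique {w : Ω} {o o' : Y ⧸ YM φ w0 hYN} (h : Rel hYN τ w o) (h' : Rel hYN τ w o') :
    o' = o := by
  obtain ⟨q, hq, h⟩ := h
  obtain ⟨q', hq', h'⟩ := h'
  rw [← hτ o, ← hτ o', QuotientGroup.eq]
  have h1 : (φ ((q' * ((τ o' : Y) : X))⁻¹ * (q * ((τ o : Y) : X)))).right • w0 = w0 := by
    rw [RINB.right_mul, h, RINB.right_inv, inv_smul_eq_iff, h']
  refine ⟨((τ o' : Y) : X)⁻¹ * (q'⁻¹ * q) * ((τ o' : Y) : X),
    (hYN (τ o').2).2 _ (Q.mul_mem (Q.inv_mem hq') hq), ?_⟩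
  have e : ((τ o' : Y) : X)⁻¹ * (q'⁻¹ * q) * ((τ o' : Y) : X) * (((τ o')⁻¹ * τ o : Y) : X) =
      (q' * ((τ o' : Y) : X))⁻¹ * (q * ((τ o : Y) : X)) := by
    rw [Subgroup.coe_mul, Subgroup.coe_inv]
    group
  rw [e, h1]

theorem Rel_Q {w : Ω} {o : Y ⧸ YM φ w0 hYN} (h : Rel hYN τ w o) {q : X} (hq : q ∈ Q) :
    Rel hYN τ ((φ q).right • w) o := by
  obtain ⟨q', hq', rfl⟩ := h
  refine ⟨q * q', Q.mul_mem hq hq', ?_⟩
  rw [mul_assoc, RINB.right_mul]

include hτ in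
theorem Rel_Y {w : Ω} {o : Y ⧸ YM φ w0 hYN} (h : Rel hYN τ w o) (y : Y) :
    Rel hYN τ ((φ (y : X)).right • w) (y • o) := by
  obtain ⟨q, hq, rfl⟩ := h
  have h1 : (τ (y • o))⁻¹ * (y * τ o) ∈ YM φ w0 hYN := by
    rw [← QuotientGroup.eq, hτ]
    have h : ((y * τ o : Y) : Y ⧸ YM φ w0 hYN) = y • ((τ o : Y) : Y ⧸ YM φ w0 hYN) := rfl
    rw [h, hτ]
  obtain ⟨q', hq', h2⟩ := h1
  refine ⟨(y * q * (y : X)⁻¹) * ((τ (y • o) : X) * q'⁻¹ * (τ (y • o) : X)⁻¹),
    Q.mul_mem ((hYN y.2).1 q hq) ((hYN (τ (y • o)).2).1 _ (Q.inv_mem hq')), ?_⟩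
  have e : (y * q * (y : X)⁻¹) * ((τ (y • o) : X) * q'⁻¹ * (τ (y • o) : X)⁻¹) * (τ (y • o) : X) =
      (y * q * ((τ o : Y) : X)) * (q' * (((τ (y • o))⁻¹ * (y * τ o) : Y) : X))⁻¹ := by
    rw [Subgroup.coe_mul, Subgroup.coe_mul, Subgroup.coe_inv]
    group
  have h3 : (φ (q' * (((τ (y • o))⁻¹ * (y * τ o) : Y) : X))⁻¹).right • w0 = w0 := by
    rw [RINB.right_inv, inv_smul_eq_iff, h2]
  rw [e, RINB.right_mul, h3, mul_assoc, RINB.right_mul]

end Part1

section Part2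

variable {Ω B X B1 : Type} [Group B] [Group X] [Group B1]

/-- The data of the action of `Y` on the orbits. -/
structure Dat (φ : X →* Gam (Equiv.Perm Ω) Ω B) (Q Y : Subgroup X) (w0 : Ω)
    (πB : ↥(Subgroup.centralizer (Pw φ Q w0 : Set B)) →* B1) (O1 : Type)
    (φ1 : Y →* Gam (Equiv.Perm O1) O1 B1) (o0 : O1) (D : Ω → Prop) (oo : Ω → O1)
    (rr : Ω → X) : Prop where
  r_map : ∀ w, D w → (φ (rr w)).right • w0 = w
  r_NQ : ∀ w, D w → rr w ∈ NQ Q
  q_D : ∀ w, D w → ∀ q ∈ Q, D ((φ q).right • w)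
  q_oo : ∀ w, D w → ∀ q ∈ Q, oo ((φ q).right • w) = oo w
  r_Q : ∀ w, D w → ∀ q ∈ Q, (rr ((φ q).right • w))⁻¹ * q * rr w ∈ Q
  y_D : ∀ w, D w → ∀ y : Y, D ((φ (y : X)).right • w)
  y_oo : ∀ w, D w → ∀ y : Y, oo ((φ (y : X)).right • w) = (φ1 y).right • oo w
  lft : ∀ (y : Y) (w w' : Ω), D w → D w' → (φ (y : X)).right • w' = w →
    ∃ x : ↥(Subgroup.centralizer (Pw φ Q w0 : Set B)),
      (x : B) = ((φ (rr w)).left w)⁻¹ * (φ (y : X)).left w * (φ (rr w')).left w' ∧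
      (φ1 y).left (oo w) = πB x
  sur : ∀ o, ∃ w, D w ∧ oo w = o
  trn : ∀ w w', D w → D w' → oo w = oo w' → ∃ q ∈ Q, (φ q).right • w = w'
  base : ∀ q ∈ Q, D ((φ q).right • w0) ∧ oo ((φ q).right • w0) = o0
  base_r : ∀ w, D w → oo w = o0 → rr w ∈ Q

theorem exists_dat {φ : X →* Gam (Equiv.Perm Ω) Ω B} {Q Y : Subgroup X} {w0 : Ω} [Finite X]
    (hP : ∀ b : B, (Pw φ Q w0).map (MulAut.conj b).toMonoidHom = Pw φ Q w0 →
      b ∈ Subgroup.centralizer (Pw φ Q w0 : Set B))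
    (πB : ↥(Subgroup.centralizer (Pw φ Q w0 : Set B)) →* B1)
    (hπ : ∀ x, πB x = 1 ↔ (x : B) ∈ Pw φ Q w0) (hYN : Y ≤ NQ Q) :
    ∃ (O1 : Type) (_ : Finite O1) (φ1 : Y →* Gam (Equiv.Perm O1) O1 B1) (o0 : O1)
      (D : Ω → Prop) (oo : Ω → O1) (rr : Ω → X), Dat φ Q Y w0 πB O1 φ1 o0 D oo rr := by
  classical
  obtain ⟨τ, hτ, hτ1⟩ : ∃ τ : (Y ⧸ YM φ w0 hYN) → Y,
      (∀ o, ((τ o : Y) : Y ⧸ YM φ w0 hYN) = o) ∧ τ ((1 : Y) : Y ⧸ YM φ w0 hYN) = 1 := by
    refine ⟨fun o => if o = ((1 : Y) : Y ⧸ YM φ w0 hYN) then 1 else Quotient.out o, ?_, ?_⟩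
    · intro o
      by_cases h : o = ((1 : Y) : Y ⧸ YM φ w0 hYN)
      · simp only [h, if_true]
      · simp only [h, if_false]
        exact Quotient.out_eq o
    · simp
  have hex : ∀ w : Ω, ∃ (o : Y ⧸ YM φ w0 hYN) (q : X), q ∈ Q ∧
      ((∃ o, Rel hYN τ w o) → (φ (q * ((τ o : Y) : X))).right • w0 = w) := by
    intro w
    by_cases h : ∃ o, Rel hYN τ w o
    · obtain ⟨o, q, hq, h1⟩ := h
      exact ⟨o, q, hq, fun _ => h1⟩
    · exact ⟨((1 : Y) : Y ⧸ YM φ w0 hYN), 1, Q.one_mem, fun h' => absurd h' h⟩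
  choose oo qq hqQ hqq using hex
  have hoo : ∀ w o, Rel hYN τ w o → oo w = o := by
    intro w o h
    exact Rel_unique hYN τ hτ h ⟨qq w, hqQ w, hqq w ⟨o, h⟩⟩
  refine ⟨Y ⧸ YM φ w0 hYN, inferInstance, phi1 hP πB hπ hYN τ hτ, ((1 : Y) : Y ⧸ YM φ w0 hYN),
    fun w => ∃ o, Rel hYN τ w o, oo, fun w => qq w * ((τ (oo w) : Y) : X), ?_⟩
  refine ⟨?_, ?_, ?_, ?_, ?_, ?_, ?_, ?_, ?_, ?_, ?_, ?_⟩
  · exact hqq
  · intro w _
    exact (NQ Q).mul_mem (Q_NQ (hqQ w)) (hYN (τ (oo w)).2)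
  · rintro w ⟨o, h⟩ q hq
    exact ⟨o, Rel_Q hYN τ h hq⟩
  · rintro w ⟨o, h⟩ q hq
    rw [hoo _ _ (Rel_Q hYN τ h hq), hoo _ _ h]
  · rintro w ⟨o, h⟩ q hq
    have e1 : oo ((φ q).right • w) = oo w := by
      rw [hoo _ _ (Rel_Q hYN τ h hq), hoo _ _ h]
    show (qq ((φ q).right • w) * ((τ (oo ((φ q).right • w)) : Y) : X))⁻¹ * q *
      (qq w * ((τ (oo w) : Y) : X)) ∈ Q
    rw [e1]
    have e2 : (qq ((φ q).right • w) * ((τ (oo w) : Y) : X))⁻¹ * q * (qq w * ((τ (oo w) : Y) : X)) =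
        ((τ (oo w) : Y) : X)⁻¹ * ((qq ((φ q).right • w))⁻¹ * q * qq w) * ((τ (oo w) : Y) : X) := by
      group
    rw [e2]
    exact (hYN (τ (oo w)).2).2 _ (Q.mul_mem (Q.mul_mem (Q.inv_mem (hqQ _)) hq) (hqQ w))
  · rintro w ⟨o, h⟩ y
    exact ⟨_, Rel_Y hYN τ hτ h y⟩
  · rintro w ⟨o, h⟩ y
    rw [hoo _ _ (Rel_Y hYN τ hτ h y), hoo _ _ h]
    rfl
  · rintro y w w' hw hw' hyw
    have h1 := hqq w hw
    have h1' := hqq w' hw'
    have hN : (qq w * ((τ (oo w) : Y) : X))⁻¹ * (y : X) * (qq w' * ((τ (oo w') : Y) : X)) ∈ NQ Q :=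
      (NQ Q).mul_mem ((NQ Q).mul_mem ((NQ Q).inv_mem ((NQ Q).mul_mem (Q_NQ (hqQ w))
        (hYN (τ (oo w)).2))) (hYN y.2)) ((NQ Q).mul_mem (Q_NQ (hqQ w')) (hYN (τ (oo w')).2))
    have hS : (qq w * ((τ (oo w) : Y) : X))⁻¹ * (y : X) * (qq w' * ((τ (oo w') : Y) : X)) ∈
        St φ Q w0 := ⟨hN, bracket_right h1 h1' hyw⟩
    refine ⟨⟨(φ ((qq w * ((τ (oo w) : Y) : X))⁻¹ * (y : X) * (qq w' * ((τ (oo w') : Y) : X)))).left
      w0, hP _ (lam_map hS)⟩, bracket_left h1 h1' hyw, ?_⟩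
    have e1 : y⁻¹ • oo w = oo w' := by
      obtain ⟨o', h'⟩ := hw'
      have h2 := Rel_Y hYN τ hτ h' y
      rw [hyw] at h2
      rw [hoo _ _ h2, hoo _ _ h', inv_smul_smul]
    refine LamY_eq hP πB hπ hYN ⟨(τ (oo w))⁻¹ * y * τ (y⁻¹ • oo w), tau_mem hYN τ hτ y (oo w)⟩
      ⟨_, hS⟩ ?_
    show (qq w * ((τ (oo w) : Y) : X))⁻¹ * (y : X) * (qq w' * ((τ (oo w') : Y) : X)) *
      (((τ (oo w))⁻¹ * y * τ (y⁻¹ • oo w) : Y) : X)⁻¹ ∈ Q
    rw [e1]
    have e2 : (qq w * ((τ (oo w) : Y) : X))⁻¹ * (y : X) * (qq w' * ((τ (oo w') : Y) : X)) *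
        (((τ (oo w))⁻¹ * y * τ (oo w') : Y) : X)⁻¹ =
        ((τ (oo w) : Y) : X)⁻¹ * ((qq w)⁻¹ * ((y : X) * qq w' * (y : X)⁻¹)) *
          ((τ (oo w) : Y) : X) := by
      rw [Subgroup.coe_mul, Subgroup.coe_mul, Subgroup.coe_inv]
      group
    rw [e2]
    exact (hYN (τ (oo w)).2).2 _ (Q.mul_mem (Q.inv_mem (hqQ w)) ((hYN y.2).1 _ (hqQ w')))
  · intro o
    have h : Rel hYN τ ((φ ((τ o : Y) : X)).right • w0) o :=
      ⟨1, Q.one_mem, by rw [one_mul]⟩
    exact ⟨_, ⟨o, h⟩, hoo _ _ h⟩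
  · rintro w w' hw hw' h
    have h1 := hqq w hw
    have h1' := hqq w' hw'
    refine ⟨qq w' * (qq w)⁻¹, Q.mul_mem (hqQ w') (Q.inv_mem (hqQ w)), ?_⟩
    rw [RINB.right_mul] at h1 h1'
    have h2 : (φ (qq w)).right⁻¹ • w = (φ ((τ (oo w) : Y) : X)).right • w0 := by
      rw [inv_smul_eq_iff]
      exact h1.symm
    rw [RINB.right_mul, RINB.right_inv, h2, h, h1']
  · intro q hq
    have h : Rel hYN τ ((φ q).right • w0) ((1 : Y) : Y ⧸ YM φ w0 hYN) :=
      ⟨q, hq, by rw [hτ1, Subgroup.coe_one, mul_one]⟩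
    exact ⟨⟨_, h⟩, hoo _ _ h⟩
  · intro w _ h
    show qq w * ((τ (oo w) : Y) : X) ∈ Q
    rw [h, hτ1, Subgroup.coe_one, mul_one]
    exact hqQ w

end Part2

end OUTD

open _root_.Pool.Agent.DPC.OUTD in
open Classical in
/-- OUTD: the structure of a group normalizing `Q` with respect to the coordinates in one
orbit. -/
theorem OUTD_thm : Stmt_OUTD := by
  intro Ω G B C X K _ _ _ _ _ _ _ _ _ _ ℓ _ ι κ ρ hloc e p φ hext Q _ hQN w0 _ _ Y hY hle hP
    B1 _ πB ι1 κ1 _ hπ hι hκ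
  have hYN : Y ≤ NQ Q := fun y hy => ⟨fun q hq => RINB.conj_mem hY hy hq,
    fun q hq => RINB.conj_mem' hY hy hq⟩
  obtain ⟨O1, hO1, φ1, o0, D, oo, rr, H⟩ := exists_dat (Y := Y) hP πB hπ hYN
  have hD_Qi : ∀ w, ∀ q ∈ Q, D ((φ q).right⁻¹ • w) → D w := by
    intro w q hq h
    have := H.q_D _ h q hq
    rwa [smul_inv_smul] at this
  have hD_Y : ∀ (w : Ω) (y : Y), D w → D ((φ (y : X)).right⁻¹ • w) := by
    intro w y h
    have := H.y_D _ h y⁻¹
    rwa [Subgroup.coe_inv, RINB.right_inv] at this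
  have hD_Yi : ∀ (w : Ω) (y : Y), D ((φ (y : X)).right⁻¹ • w) → D w := by
    intro w y h
    have := H.y_D _ h y
    rwa [smul_inv_smul] at this
  have hD_Q : ∀ w, ∀ q ∈ Q, D w → D ((φ q).right⁻¹ • w) := by
    intro w q hq h
    have := H.q_D _ h q⁻¹ (Q.inv_mem hq)
    rwa [RINB.right_inv] at this
  -- the standardizing elements
  set u : Ω → B := fun w => (φ (rr w)).left w with hu
  -- comparison of the standardizing elements along `Q`
  have hcmp : ∀ w w', D w' → ∀ q ∈ Q, (φ q).right • w' = w → ∀ g : FX κ (Pw φ Q w0),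
      κ ((φ q).left w) (κ (u w') g) = κ (u w) g := by
    intro w w' hw' q hq hqw g
    have hw : D w := hqw ▸ H.q_D _ hw' q hq
    have hm : (rr w)⁻¹ * q * rr w' ∈ Q := by
      have := H.r_Q w' hw' q hq
      rwa [hqw] at this
    have hb : (φ ((rr w)⁻¹ * q * rr w')).left w0 ∈ Pw φ Q w0 :=
      ⟨_, hm, bracket_right (H.r_map w hw) (H.r_map w' hw') hqw, rfl⟩
    rw [bracket_left (H.r_map w hw) (H.r_map w' hw') hqw] at hb
    have h1 := g.2 _ hb
    have h2 : (φ q).left w * u w' = u w * ((u w)⁻¹ * (φ q).left w * u w') := by group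
    rw [← MulAut.mul_apply, ← map_mul, h2, map_mul, MulAut.mul_apply, h1]
  -- the embedding
  let E : (O1 → ↥(FX κ (Pw φ Q w0))) →* (Ω → G) :=
    { toFun := fun n w => if D w then κ (u w) (n (oo w)) else 1
      map_one' := by
        funext w
        simp
      map_mul' := by
        intro a b
        funext w
        by_cases h : D w
        · simp [h]
        · simp [h] }
  have hE1 : ∀ n w, D w → E n w = κ (u w) (n (oo w)) := fun n w h => if_pos h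
  have hE0 : ∀ n w, ¬ D w → E n w = 1 := fun n w h => if_neg h
  have hEcen : ∀ n, e (E n) ∈ Subgroup.centralizer (Q : Set X) := by
    intro n
    rw [Subgroup.mem_centralizer_iff]
    intro q hq
    have h1 : q * e (E n) * q⁻¹ = e (E n) := by
      rw [← hext.cl.act]
      congr 1
      funext w
      rw [MonoidHom.comp_apply, wB_apply]
      by_cases h : D w
      · have h' := hD_Q w q hq h
        rw [hE1 n _ h', hE1 n w h]
        have h3 : oo ((φ q).right⁻¹ • w) = oo w := by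
          have := H.q_oo _ h' q hq
          rw [smul_inv_smul] at this
          exact this.symm
        rw [h3]
        exact hcmp w _ h' q hq (smul_inv_smul _ _) _
      · rw [hE0 n _ (fun h' => h (hD_Qi w q hq h')), hE0 n w h, map_one]
    exact mul_inv_eq_iff_eq_mul.mp h1
  have hmem : ∀ n, e (E n) ∈ Y := fun n => hle ⟨⟨_, rfl⟩, hEcen n⟩
  let e1 : (O1 → ↥(FX κ (Pw φ Q w0))) →* Y := (e.comp E).codRestrict Y hmem
  have he1 : ∀ n, ((e1 n : Y) : X) = e (E n) := fun n => rfl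
  -- the action
  have hκ1 : ∀ (y : Y) (w : Ω), D w → ∀ g : FX κ (Pw φ Q w0),
      κ (u w) ((κ1 ((φ1 y).left (oo w)) g : FX κ (Pw φ Q w0)) : G) =
        κ ((φ (y : X)).left w) (κ (u ((φ (y : X)).right⁻¹ • w)) g) := by
    intro y w hw g
    obtain ⟨x, hx, hx2⟩ := H.lft y w _ hw (hD_Y w y hw) (smul_inv_smul _ _)
    rw [hx2, hκ, hx, ← MulAut.mul_apply, ← map_mul, ← MulAut.mul_apply, ← map_mul]
    congr 2
    simp only [hu]
    group
  have hoo1 : ∀ (y : Y) (w : Ω), D w →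
      oo ((φ (y : X)).right⁻¹ • w) = (φ1 y).right⁻¹ • oo w := by
    intro y w hw
    have h := H.y_oo _ (hD_Y w y hw) y
    rw [smul_inv_smul] at h
    rw [h, inv_smul_smul]
  have hinj : Function.Injective e1 := by
    intro a b hab
    have h1 : e (E a) = e (E b) := congrArg Subtype.val hab
    have h2 := hext.cl.inj h1
    funext o
    obtain ⟨w, hw, rfl⟩ := H.sur o
    have h3 := congrFun h2 w
    rw [hE1 a w hw, hE1 b w hw] at h3
    exact Subtype.ext ((κ (u w)).injective h3)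
  have hact : ∀ (y : Y) (n : O1 → ↥(FX κ (Pw φ Q w0))),
      e1 (wB κ1 O1 (φ1 y) n) = y * e1 n * y⁻¹ := by
    intro y n
    apply Subtype.ext
    rw [Subgroup.coe_mul, Subgroup.coe_mul, Subgroup.coe_inv, he1, he1, ← hext.cl.act]
    congr 1
    funext w
    rw [MonoidHom.comp_apply, wB_apply]
    by_cases h : D w
    · rw [hE1 _ w h, hE1 n _ (hD_Y w y h), wB_apply, hκ1 y w h, hoo1 y w h]
    · rw [hE0 _ w h, hE0 n _ (fun h' => h (hD_Yi w y h')), map_one]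
  have hN : e1.range.Normal := by
    constructor
    rintro _ ⟨n, rfl⟩ y
    exact ⟨_, hact y n⟩
  -- the complement
  let M2 : Subgroup Y :=
    { carrier := {y | ∃ n : Ω → G, (y : X) = e n ∧ ∀ w, D w → n w = 1}
      one_mem' := ⟨1, by simp, fun _ _ => rfl⟩
      mul_mem' := by
        rintro x y ⟨n, hn, hn'⟩ ⟨m, hm, hm'⟩
        refine ⟨n * m, ?_, ?_⟩
        · rw [Subgroup.coe_mul, hn, hm, map_mul]
        · intro w hw
          rw [Pi.mul_apply, hn' w hw, hm' w hw, one_mul]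
      inv_mem' := by
        rintro x ⟨n, hn, hn'⟩
        refine ⟨n⁻¹, ?_, ?_⟩
        · rw [Subgroup.coe_inv, hn, map_inv]
        · intro w hw
          rw [Pi.inv_apply, hn' w hw, inv_one] }
  have hM2 : ∀ y : Y, y ∈ M2 ↔ ∃ n : Ω → G, (y : X) = e n ∧ ∀ w, D w → n w = 1 :=
    fun y => Iff.rfl
  have hM2n : M2.Normal := by
    constructor
    rintro x ⟨n, hn, hn'⟩ y
    refine ⟨((wB κ Ω).comp φ) (y : X) n, ?_, ?_⟩
    · rw [hext.cl.act, Subgroup.coe_mul, Subgroup.coe_mul, Subgroup.coe_inv, hn]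
    · intro w hw
      rw [MonoidHom.comp_apply, wB_apply, hn' _ (hD_Y w y hw), map_one]
  have hsplit : ∀ y : Y, (y : X) ∈ e.range → y ∈ e1.range ⊔ M2 := by
    rintro y ⟨m, hm⟩
    -- `y` centralizes `Q`
    have hcen : ∀ q ∈ Q, q * (y : X) * q⁻¹ = y := by
      intro q hq
      have h2 : (y : X) * q * (y : X)⁻¹ * q⁻¹ ∈ Q :=
        Q.mul_mem (RINB.conj_mem hY y.2 hq) (Q.inv_mem hq)
      have h3 : (y : X) * q * (y : X)⁻¹ * q⁻¹ ∈ e.range := by
        have h4 : (y : X) * q * (y : X)⁻¹ * q⁻¹ = (y : X) * (q * (y : X)⁻¹ * q⁻¹) := by group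
        rw [h4, ← hm, ← map_inv, ← hext.cl.act]
        exact e.range.mul_mem ⟨_, rfl⟩ ⟨_, rfl⟩
      have h5 : (y : X) * q * (y : X)⁻¹ * q⁻¹ = 1 := by
        have h6 : (y : X) * q * (y : X)⁻¹ * q⁻¹ ∈ Q ⊓ e.range := ⟨h2, h3⟩
        rw [hQN] at h6
        exact Subgroup.mem_bot.mp h6
      have h7 : (y : X) * q = q * (y : X) := by
        have h8 := mul_inv_eq_one.mp h5
        exact mul_inv_eq_iff_eq_mul.mp h8
      rw [← h7, mul_inv_cancel_right]
    have hm2 : ∀ q ∈ Q, ∀ w, κ ((φ q).left ((φ q).right • w)) (m w) = m ((φ q).right • w) := by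
      intro q hq w
      have h1 := hcen q hq
      rw [← hm, ← hext.cl.act] at h1
      have h2 := congrFun (hext.cl.inj h1) ((φ q).right • w)
      rw [MonoidHom.comp_apply, wB_apply, inv_smul_smul] at h2
      exact h2
    -- the value at a point of `D`
    have hfix : ∀ w, D w → (κ (u w))⁻¹ (m w) ∈ FX κ (Pw φ Q w0) := by
      rintro w hw _ ⟨t, ht, ht1, rfl⟩
      have hq : rr w * t * (rr w)⁻¹ ∈ Q := (H.r_NQ w hw).1 t ht
      have hrw := H.r_map w hw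
      have h1 : (φ (rr w * t * (rr w)⁻¹)).right • w = w := by
        have h2 : (φ (rr w)).right⁻¹ • w = w0 := by
          rw [inv_smul_eq_iff, hrw]
        rw [RINB.right_mul, RINB.right_mul, RINB.right_inv, h2, ht1, hrw]
      have h3 := hm2 _ hq w
      rw [h1] at h3
      have h4 : (rr w)⁻¹ * (rr w * t * (rr w)⁻¹) * rr w = t := by group
      have h5 := bracket_left hrw hrw h1
      rw [h4] at h5
      rw [h5, ← map_inv, ← MulAut.mul_apply, ← map_mul]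
      have h6 : ((φ (rr w)).left w)⁻¹ * (φ (rr w * t * (rr w)⁻¹)).left w * (φ (rr w)).left w *
          (u w)⁻¹ = (u w)⁻¹ * (φ (rr w * t * (rr w)⁻¹)).left w := by
        simp only [hu]
        group
      rw [h6, map_mul, MulAut.mul_apply, h3]
    have hn : ∃ n : O1 → ↥(FX κ (Pw φ Q w0)), ∀ w, D w → m w = E n w := by
      choose sw hsw hsw2 using H.sur
      refine ⟨fun o => ⟨(κ (u (sw o)))⁻¹ (m (sw o)), hfix _ (hsw o)⟩, ?_⟩
      intro w hw
      obtain ⟨q, hq, hq2⟩ := H.trn (sw (oo w)) w (hsw _) hw (hsw2 _)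
      have h1 := hcmp w _ (hsw (oo w)) q hq hq2
        ⟨(κ (u (sw (oo w))))⁻¹ (m (sw (oo w))), hfix _ (hsw (oo w))⟩
      rw [hE1 _ w hw, ← h1]
      change m w = κ ((φ q).left w) (κ (u (sw (oo w))) ((κ (u (sw (oo w))))⁻¹ (m (sw (oo w)))))
      rw [MulAut.apply_inv_self]
      have h2 := hm2 q hq (sw (oo w))
      rw [hq2] at h2
      exact h2.symm
    obtain ⟨n, hn⟩ := hn
    have h1 : y = e1 n * ((e1 n)⁻¹ * y) := by group
    rw [h1]
    refine Subgroup.mul_mem_sup ⟨n, rfl⟩ ⟨(E n)⁻¹ * m, ?_, ?_⟩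
    · rw [Subgroup.coe_mul, Subgroup.coe_inv, he1, ← hm, map_mul, map_inv]
    · intro w hw
      rw [Pi.mul_apply, Pi.inv_apply, hn w hw, inv_mul_cancel]
  refine ⟨O1, Y ⧸ e1.range, Fintype.ofFinite O1, Classical.decEq O1, inferInstance,
    inferInstance, e1, QuotientGroup.mk' e1.range, φ1, M2, o0,
    ⟨⟨hinj, hact, fun y => QuotientGroup.eq_one_iff y⟩, QuotientGroup.mk'_surjective _, ?_⟩,
    hM2n, ?_, ?_, ?_, ?_⟩
  · -- the image of the normal subgroup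
    intro n
    have h1 : φ ((e1 n : Y) : X) = SemidirectProduct.inl (fun w => ι (E n w)) := hext.jn _
    have hr1 : (φ ((e1 n : Y) : X)).right = 1 := by rw [h1]; rfl
    apply SemidirectProduct.ext
    · funext o
      obtain ⟨w, hw, rfl⟩ := H.sur o
      have h2 : (φ ((e1 n : Y) : X)).right • w = w := by rw [hr1, one_smul]
      obtain ⟨x, hx, hx2⟩ := H.lft (e1 n) w w hw hw h2
      rw [hx2]
      change πB x = ι1 (n (oo w))
      refine hι _ _ ?_
      rw [hx, h1]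
      change (u w)⁻¹ * ι (E n w) * u w = ι (n (oo w))
      rw [hE1 n w hw, hloc.cl.act]
      group
    · apply Equiv.ext
      intro o
      obtain ⟨w, hw, rfl⟩ := H.sur o
      change (φ1 (e1 n)).right • oo w = oo w
      rw [← H.y_oo w hw, hr1, one_smul]
  · -- trivial intersection
    rw [eq_bot_iff]
    rintro y ⟨⟨m, hm, hm'⟩, ⟨n, rfl⟩⟩
    rw [Subgroup.mem_bot]
    have h1 : E n = m := hext.cl.inj (by rw [← hm, he1])
    have h2 : E n = 1 := by
      funext w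
      by_cases h : D w
      · rw [h1, hm' w h, Pi.one_apply]
      · rw [hE0 n w h, Pi.one_apply]
    apply Subtype.ext
    rw [he1, h2, map_one, Subgroup.coe_one]
  · intro y
    constructor
    · exact hsplit y
    · intro hy
      have h1 : e1.range ⊔ M2 ≤ e.range.comap Y.subtype := by
        refine sup_le ?_ ?_
        · rintro _ ⟨n, rfl⟩
          exact ⟨E n, rfl⟩
        · rintro x ⟨n, hn, _⟩
          exact ⟨n, hn.symm⟩
      exact h1 hy
  · -- the two factors commute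
    rintro x ⟨m, hm, hm'⟩ n
    apply Subtype.ext
    rw [Subgroup.coe_mul, Subgroup.coe_mul, he1, hm, ← map_mul, ← map_mul]
    congr 1
    funext w
    rw [Pi.mul_apply, Pi.mul_apply]
    by_cases h : D w
    · rw [hm' w h, one_mul, mul_one]
    · rw [hE0 n w h, one_mul, mul_one]
  · -- the single elements
    intro g
    refine ⟨E (Pi.mulSingle o0 g), rfl, ?_, ?_⟩
    · intro q hq
      obtain ⟨hD, ho⟩ := H.base q hq
      rw [hE1 _ _ hD, ho, Pi.mulSingle_eq_same]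
      set w := (φ q).right • w0 with hw
      have hrQ := H.base_r w hD ho
      have hrw := H.r_map w hD
      have hb : (φ ((rr w)⁻¹ * q)).left w0 ∈ Pw φ Q w0 := by
        refine ⟨_, Q.mul_mem (Q.inv_mem hrQ) hq, ?_, rfl⟩
        rw [RINB.right_mul, RINB.right_inv, inv_smul_eq_iff, hrw]
      have h2 : (φ ((rr w)⁻¹ * q)).left w0 = (u w)⁻¹ * (φ q).left w := by
        rw [RINB.left_mul, lam_inv, hrw, RINB.right_inv, inv_inv, hrw]
      rw [h2] at hb
      have h3 := g.2 _ hb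
      have h4 : (φ q).left w = u w * ((u w)⁻¹ * (φ q).left w) := by group
      rw [h4, map_mul, MulAut.mul_apply, h3]
    · intro w' hw'
      by_cases h : D w'
      · have h1 : oo w' ≠ o0 := by
          intro h2
          have h3 := H.r_map w' h
          exact hw' _ (H.base_r w' h h2) h3
        rw [hE1 _ _ h, Pi.mulSingle_eq_of_ne h1, Subgroup.coe_one, map_one]
      · exact hE0 _ _ h

end Pool.Agent.DPC


end

section

/-!
# FXA: the numbers of characters over an invariant block and over its local counterpart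
-/

set_option linter.unusedSectionVars false

namespace Pool.Agent.DPW

open Pool.Agent.DP Pool.Agent.DPV Pool.Agent.DPB Pool.Agent.Lib_helper13 Representation
open Pool.Agent.Lib_helper13.Dade (pCore DadeHolds dadeSum)

namespace FXA

/-- Counting by fibres. -/
theorem card_eq_of_fibers {α β γ : Type*} [Finite α] [Finite β] (f : α → γ) (g : β → γ)
    (h : ∀ c, Nat.card {a // f a = c} = Nat.card {b // g b = c}) : Nat.card α = Nat.card β := by
  have e : ∀ c, Nonempty ({a // f a = c} ≃ {b // g b = c}) := fun c => Finite.card_eq.mp (h c)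
  exact Nat.card_congr ((Equiv.sigmaFiberEquiv f).symm.trans
    ((Equiv.sigmaCongrRight fun c => (e c).some).trans (Equiv.sigmaFiberEquiv g)))

variable {T : Type} [Group T] [Fintype T] (𝔐 : Ideal (integralClosure ℤ ℂ)) {ℓ : ℕ}
  [Fact ℓ.Prime]

/-- CNTB for a subgroup which is equal to the normalizer. -/
theorem cntb_of_eq (h1 : Stmt_CNTB) (hmax : 𝔐.IsMaximal) (hℓ : (ℓ : integralClosure ℤ ℂ) ∈ 𝔐)
    {χ₀ : T → ℂ} (hχ₀ : IsIrr χ₀) (hD : D1 ℓ (cen 𝔐 (MonoidHom.id T) χ₀)) (P : Subgroup T)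
    (S : Subgroup T) [Fintype S] (hS : S = Subgroup.normalizer (P : Set T)) {x₀ : T}
    (hA : At1 ℓ (cen 𝔐 (MonoidHom.id T) χ₀) P x₀) :
    Nat.card {χ : T → ℂ // IsIrr χ ∧
        cen 𝔐 (MonoidHom.id T) χ = cen 𝔐 (MonoidHom.id T) χ₀} =
      Nat.card {ψ : S → ℂ // IsIrr ψ ∧ cen 𝔐 S.subtype ψ = cen 𝔐 (MonoidHom.id T) χ₀} := by
  subst hS
  exact h1 T 𝔐 ℓ hmax hℓ χ₀ hχ₀ hD P x₀ hA

/-- Every irreducible character of the normalizer lies in the block of a character of the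
group. -/
theorem exists_above (hmax : 𝔐.IsMaximal) (hℓ : (ℓ : integralClosure ℤ ℂ) ∈ 𝔐)
    (P : Subgroup T) (hP : Nat.card P = ℓ) {τ : Finset (Subgroup T)} (hτ : τ = {P})
    {η : stb τ → ℂ} (hη : IsIrr η) :
    ∃ χ : T → ℂ, IsIrr χ ∧ cen 𝔐 (MonoidHom.id T) χ = cen 𝔐 (stb τ).subtype η := by
  have hprime : 𝔐.IsPrime := hmax.isPrime
  have hPg : IsPGroup ℓ P := IsPGroup.of_card (n := 1) (by rw [hP, pow_one])
  have hne : P ≠ ⊥ := by
    intro h
    have h1 : Nat.card P = 1 := by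
      rw [h]
      exact Subgroup.card_bot
    rw [hP] at h1
    exact (Fact.out : ℓ.Prime).one_lt.ne' h1
  subst hτ
  exact exists_irr_of_mult 𝔐 hη (exists_irr_of_chain 𝔐 hℓ (LOC.isCh_singleton hPg hne) hη)

end FXA

theorem FXA_thm (h1 : Stmt_CNTB) (h2 : Stmt_FXE) (h3 : Stmt_FXF) : Stmt_FXA := by
  intro G B C _ _ _ _ _ 𝔐 ℓ _ hmax hℓ ι κ ρ h hC ω hD P x₀ hAt hinv
  classical
  have hmap : mapCh ι {P} = {P.map ι} := by
    ext E
    rw [mem_mapCh, Finset.mem_singleton]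
    constructor
    · rintro ⟨D, hD, rfl⟩
      rw [Finset.mem_singleton.mp hD]
    · rintro rfl
      exact ⟨P, Finset.mem_singleton_self P, rfl⟩
  have hYS : YS ι {P} = Subgroup.normalizer ((P.map ι : Subgroup B) : Set B) := by
    show stb (mapCh ι {P}) = _
    rw [hmap]
    exact LOC.stb_singleton _
  have hPB : Nat.card (P.map ι) = ℓ := by
    rw [← hAt.card]
    exact (Nat.card_congr (P.equivMapOfInjective ι h.cl.inj).toEquiv).symm
  obtain ⟨h31, h32⟩ := h3 G B C 𝔐 ℓ hmax hℓ ι κ ρ h.locN ω hinv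
  have hfin1 : Finite {χ : B → ℂ // IsIrr χ ∧
      ∃ θ : G → ℂ, IsIrr θ ∧ cen 𝔐 (MonoidHom.id G) θ = ω ∧ ip (resj ι χ) θ ≠ 0} :=
    Finite.of_injective (fun χ => (⟨χ.1, χ.2.1⟩ : {χ : B → ℂ // IsIrr χ}))
      fun a b hab => Subtype.ext (Subtype.mk.inj hab)
  have hfin2 : Finite {η : YS ι {P} → ℂ // IsIrr η ∧
      ∃ ψ : stb {P} → ℂ, IsIrr ψ ∧ cen 𝔐 (stb {P}).subtype ψ = ω ∧
        ip (resj (jS h.cl {P}) η) ψ ≠ 0} :=
    Finite.of_injective (fun χ => (⟨χ.1, χ.2.1⟩ : {χ : YS ι {P} → ℂ // IsIrr χ}))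
      fun a b hab => Subtype.ext (Subtype.mk.inj hab)
  refine FXA.card_eq_of_fibers (fun χ => cen 𝔐 (MonoidHom.id B) χ.1)
    (fun η => cen 𝔐 (YS ι {P}).subtype η.1) ?_
  intro Ω
  by_cases hex : ∃ χ₀ : B → ℂ, IsIrr χ₀ ∧ cen 𝔐 (MonoidHom.id B) χ₀ = Ω ∧
      ∃ θ : G → ℂ, IsIrr θ ∧ cen 𝔐 (MonoidHom.id G) θ = ω ∧ ip (resj ι χ₀) θ ≠ 0
  · obtain ⟨χ₀, hχ₀, rfl, θ, hθ, hθω, hip⟩ := hex
    obtain ⟨hD', hAt'⟩ := h2 G B C 𝔐 ℓ hmax hℓ ι κ ρ h hC ω hD P x₀ hAt hinv θ hθ hθω χ₀ hχ₀ hip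
    have hcn := FXA.cntb_of_eq 𝔐 h1 hmax hℓ hχ₀ hD' (P.map ι) (YS ι {P}) hYS hAt'
    have e1 : {a : {χ : B → ℂ // IsIrr χ ∧
        ∃ θ : G → ℂ, IsIrr θ ∧ cen 𝔐 (MonoidHom.id G) θ = ω ∧ ip (resj ι χ) θ ≠ 0} //
          cen 𝔐 (MonoidHom.id B) a.1 = cen 𝔐 (MonoidHom.id B) χ₀} ≃
        {χ : B → ℂ // IsIrr χ ∧
          cen 𝔐 (MonoidHom.id B) χ = cen 𝔐 (MonoidHom.id B) χ₀} :=
      { toFun := fun a => ⟨a.1.1, a.1.2.1, a.2⟩
        invFun := fun a => ⟨⟨a.1, a.2.1, h31 χ₀ a.1 hχ₀ a.2.1 a.2.2.symm ⟨θ, hθ, hθω, hip⟩⟩, a.2.2⟩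
        left_inv := fun _ => rfl
        right_inv := fun _ => rfl }
    have e2 : {b : {η : YS ι {P} → ℂ // IsIrr η ∧
        ∃ ψ : stb {P} → ℂ, IsIrr ψ ∧ cen 𝔐 (stb {P}).subtype ψ = ω ∧
          ip (resj (jS h.cl {P}) η) ψ ≠ 0} //
            cen 𝔐 (YS ι {P}).subtype b.1 = cen 𝔐 (MonoidHom.id B) χ₀} ≃
        {η : YS ι {P} → ℂ // IsIrr η ∧
          cen 𝔐 (YS ι {P}).subtype η = cen 𝔐 (MonoidHom.id B) χ₀} :=
      { toFun := fun a => ⟨a.1.1, a.1.2.1, a.2⟩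
        invFun := fun a => ⟨⟨a.1, a.2.1, (h32 P hAt.card χ₀ a.1 hχ₀ a.2.1 a.2.2.symm).mp
          ⟨θ, hθ, hθω, hip⟩⟩, a.2.2⟩
        left_inv := fun _ => rfl
        right_inv := fun _ => rfl }
    exact (Nat.card_congr e1).trans (hcn.trans (Nat.card_congr e2).symm)
  · have e1 : IsEmpty {a : {χ : B → ℂ // IsIrr χ ∧
        ∃ θ : G → ℂ, IsIrr θ ∧ cen 𝔐 (MonoidHom.id G) θ = ω ∧ ip (resj ι χ) θ ≠ 0} //
          cen 𝔐 (MonoidHom.id B) a.1 = Ω} :=
      ⟨fun a => hex ⟨a.1.1, a.1.2.1, a.2, a.1.2.2⟩⟩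
    have e2 : IsEmpty {b : {η : YS ι {P} → ℂ // IsIrr η ∧
        ∃ ψ : stb {P} → ℂ, IsIrr ψ ∧ cen 𝔐 (stb {P}).subtype ψ = ω ∧
          ip (resj (jS h.cl {P}) η) ψ ≠ 0} //
            cen 𝔐 (YS ι {P}).subtype b.1 = Ω} := by
      refine ⟨fun b => hex ?_⟩
      obtain ⟨χ, hχ, hc⟩ := FXA.exists_above 𝔐 hmax hℓ (P.map ι) hPB hmap b.1.2.1
      exact ⟨χ, hχ, hc.trans b.2, (h32 P hAt.card χ b.1.1 hχ b.1.2.1 hc).mpr b.1.2.2⟩
    rw [Nat.card_of_isEmpty, Nat.card_of_isEmpty]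

end Pool.Agent.DPW


end
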