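import Mathlib
import Pool.Agent.DAM.C13
import Pool.Agent.DAM.C14
import Pool.Agent.DAM.C23
import Pool.Agent.DAM.C34

/-! Parts: DPM.ZCM, DPW.StmtsWA, DPW.RINBP, DPW.RINNP, DPW.SCH, DPW.CPB -/

section

/-!
# ZCM: the centre is contained in `M`
-/

namespace Pool.Agent.DPM

open Pool.Agent.DP Pool.Agent.DPC Pool.Agent.Lib_helper13 Representation
open Pool.Agent.Lib_helper13.Dade (pCore DadeHolds dadeSum)

namespace ZCM

/-- roots of unity of order prime to `ℓ` are different modulo `𝔐` -/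
theorem sep {𝔐 : Ideal (integralClosure ℤ ℂ)} (hmax : 𝔐.IsMaximal) {ℓ N : ℕ}
    (hℓ : (ℓ : integralClosure ℤ ℂ) ∈ 𝔐) (hN : 0 < N) (hc : Nat.Coprime ℓ N)
    {a b : integralClosure ℤ ℂ} (ha : a ^ N = 1) (hb : b ^ N = 1)
    (h : Ideal.Quotient.mk 𝔐 a = Ideal.Quotient.mk 𝔐 b) : a = b := by
  obtain ⟨e, he⟩ : ∃ e, e = a * b ^ (N - 1) := ⟨_, rfl⟩
  have hbb : b * b ^ (N - 1) = 1 := by
    rw [← pow_succ', Nat.sub_add_cancel hN, hb]
  have heN : e ^ N = 1 := by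
    rw [he, mul_pow, ha, ← pow_mul, mul_comm (N - 1) N, pow_mul, hb, one_pow, mul_one]
  have hme : Ideal.Quotient.mk 𝔐 e = 1 := by
    rw [he, map_mul, h, ← map_mul, hbb, map_one]
  have hae : a = e * b := by
    rw [he, mul_assoc, mul_comm (b ^ (N - 1)) b, hbb, mul_one]
  by_cases he1 : e = 1
  · rw [hae, he1, one_mul]
  · exfalso
    have h1 : (e - 1) * ∑ k ∈ Finset.range N, e ^ k = 0 := by
      rw [mul_comm, geom_sum_mul, heN, sub_self]
    have h2 : ∑ k ∈ Finset.range N, e ^ k = 0 := by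
      rcases mul_eq_zero.mp h1 with h3 | h3
      · exact absurd (sub_eq_zero.mp h3) he1
      · exact h3
    have h3 := congrArg (Ideal.Quotient.mk 𝔐) h2
    rw [map_sum, map_zero] at h3
    simp only [map_pow, hme, one_pow, Finset.sum_const, Finset.card_range, nsmul_eq_mul,
      mul_one] at h3
    have h4 : (N : integralClosure ℤ ℂ) ∈ 𝔐 := by
      rw [← Ideal.Quotient.eq_zero_iff_mem, map_natCast]
      exact h3
    have h5 : (1 : integralClosure ℤ ℂ) ∈ 𝔐 := by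
      have h6 : IsCoprime (ℓ : ℤ) (N : ℤ) := Nat.isCoprime_iff_coprime.mpr hc
      obtain ⟨u, v, huv⟩ := h6
      have h7 := congrArg (fun x : ℤ => (x : integralClosure ℤ ℂ)) huv
      simp only [Int.cast_add, Int.cast_mul, Int.cast_natCast, Int.cast_one] at h7
      rw [← h7]
      exact 𝔐.add_mem (𝔐.mul_mem_left _ hℓ) (𝔐.mul_mem_left _ h4)
    exact hmax.ne_top ((Ideal.eq_top_iff_one _).mpr h5)

/-- the central character -/
theorem cchar {X : Type} [Group X] [Fintype X] {χ : X → ℂ} (hχ : IsIrr χ) {z : X}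
    (hz : ∀ g, z * g = g * z) : ∃ c : ℂ, c ^ orderOf z = 1 ∧ χ z = c * χ 1 := by
  have h0 := hχ.one_ne_zero
  obtain ⟨n, ρ, hρ, rfl⟩ := hχ
  obtain ⟨c, hc⟩ := exists_scalar ρ hρ (ρ z) (by
    intro g x
    have h1 : ρ (z * g) = ρ (g * z) := by rw [hz g]
    rw [map_mul, map_mul] at h1
    exact congrArg (fun f : Module.End ℂ (Fin n → ℂ) => f x) h1)
  have h2 : ρ.character z = c * ρ.character 1 := by
    show LinearMap.trace ℂ _ (ρ z) = c * LinearMap.trace ℂ _ (ρ 1)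
    rw [hc, map_smul, map_one, smul_eq_mul]
    rfl
  refine ⟨c, ?_, h2⟩
  have h3 : ∀ k : ℕ, ρ.character (z ^ k) = c ^ k * ρ.character 1 := by
    intro k
    have h4 : ρ (z ^ k) = c ^ k • (LinearMap.id : (Fin n → ℂ) →ₗ[ℂ] (Fin n → ℂ)) := by
      rw [map_pow, hc]
      induction k with
      | zero => rw [pow_zero, pow_zero, one_smul]; rfl
      | succ k ih =>
        rw [pow_succ, ih, pow_succ]
        apply LinearMap.ext
        intro x
        show c ^ k • (c • x) = (c ^ k * c) • x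
        rw [smul_smul]
    show LinearMap.trace ℂ _ (ρ (z ^ k)) = c ^ k * LinearMap.trace ℂ _ (ρ 1)
    rw [h4, map_smul, map_one, smul_eq_mul]
    rfl
  have h5 := h3 (orderOf z)
  rw [pow_orderOf_eq_one] at h5
  exact mul_right_cancel₀ h0 (by rw [← h5, one_mul])

/-- the central function at a central element -/
theorem cen_central {X : Type} [Group X] [Fintype X] (𝔐 : Ideal (integralClosure ℤ ℂ))
    {χ : X → ℂ} (hχ : IsIrr χ) {z : X} (hz : ∀ g, z * g = g * z) {c : ℂ} (hc : χ z = c * χ 1) :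
    cen 𝔐 (MonoidHom.id X) χ z = red 𝔐 c := by
  classical
  have h0 := hχ.one_ne_zero
  rw [cen, wt]
  congr 1
  rw [div_eq_iff h0, ← hc]
  rw [Finset.sum_eq_single z]
  · rw [MonoidHom.id_apply, conjInd, if_pos (IsConj.refl z), one_mul]
  · intro y _ hy
    rw [MonoidHom.id_apply, conjInd, if_neg, zero_mul]
    intro h
    apply hy
    obtain ⟨g, hg⟩ := isConj_iff.mp h
    have : y = g⁻¹ * z * g := by rw [← hg]; group
    rw [this, mul_assoc, hz g, ← mul_assoc, inv_mul_cancel, one_mul]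
  · intro h
    exact absurd (Finset.mem_univ z) h

section Ind

variable {X : Type} [Group X] [Fintype X] (M : Subgroup X)

open Classical in
/-- the extension by zero -/
noncomputable def ex (ξ : M → ℂ) (x : X) : ℂ := if h : x ∈ M then ξ ⟨x, h⟩ else 0

/-- a multiple of the induced character -/
noncomputable def fn (ξ : M → ℂ) (x : X) : ℂ := ∑ g, ex M ξ (g * x * g⁻¹)

theorem fn_conj (ξ : M → ℂ) (g x : X) : fn M ξ (g * x * g⁻¹) = fn M ξ x := by
  unfold fn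
  refine Fintype.sum_equiv (Equiv.mulRight g) _ _ ?_
  intro y
  show ex M ξ (y * (g * x * g⁻¹) * y⁻¹) = ex M ξ (y * g * x * (y * g)⁻¹)
  rw [mul_inv_rev]
  simp only [mul_assoc]

theorem ip_fn [Fintype M] (ξ : M → ℂ) {χ : X → ℂ} (hχ : IsIrr χ) :
    ip (fn M ξ) χ = (Nat.card M : ℂ) * ip (resj M.subtype χ) ξ := by
  have h1 : ∑ x, fn M ξ x * χ x⁻¹ = (Nat.card X : ℂ) * ∑ y, ex M ξ y * χ y⁻¹ := by
    unfold fn
    simp only [Finset.sum_mul]
    rw [Finset.sum_comm]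
    have h2 : ∀ g : X, ∑ x, ex M ξ (g * x * g⁻¹) * χ x⁻¹ = ∑ y, ex M ξ y * χ y⁻¹ := by
      intro g
      refine Fintype.sum_equiv (MulAut.conj g).toEquiv _ _ ?_
      intro x
      show ex M ξ (g * x * g⁻¹) * χ x⁻¹ = ex M ξ (g * x * g⁻¹) * χ (g * x * g⁻¹)⁻¹
      have h3 : (g * x * g⁻¹)⁻¹ = g * x⁻¹ * g⁻¹ := by group
      rw [h3, hχ.conj_eq]
    rw [Finset.sum_congr rfl (fun g _ => h2 g), Finset.sum_const, Finset.card_univ, nsmul_eq_mul,
      Nat.card_eq_fintype_card]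
  have h4 : ∑ m : M, resj M.subtype χ m * ξ m⁻¹ = ∑ y, ex M ξ y * χ y⁻¹ := by
    rw [← Equiv.sum_comp (Equiv.inv M)]
    refine Fintype.sum_of_injective (fun m : M => (m : X)) Subtype.val_injective _ _ ?_ ?_
    · intro y hy
      rw [ex, dif_neg, zero_mul]
      intro h
      exact hy ⟨⟨y, h⟩, rfl⟩
    · intro m
      show χ ((m⁻¹ : M) : X) * ξ (m⁻¹)⁻¹ = ex M ξ (m : X) * χ (m : X)⁻¹
      rw [ex, dif_pos m.2, inv_inv, mul_comm]
      rfl
  have hX : (Nat.card X : ℂ) ≠ 0 := natCard_ne_zero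
  have hM : (Nat.card M : ℂ) ≠ 0 := natCard_ne_zero
  rw [ip, h1, ip, h4, mul_div_cancel_left₀ _ hX, mul_div_cancel₀ _ hM]

end Ind

end ZCM

/-- ZCM: the centre is contained in `M`. -/
theorem ZCM_thm : Stmt_ZCM := by
  classical
  intro X _ _ 𝔐 ℓ hℓf hmax hℓ hcore M hMn χ ξ hχ hξ hne hU z hz
  by_contra hzM
  have hz' : ∀ g, z * g = g * z := fun g => (Subgroup.mem_center_iff.mp hz g).symm
  -- the order of `z` is prime to `ℓ`
  have hN : 0 < orderOf z := orderOf_pos z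
  have hcop : Nat.Coprime ℓ (orderOf z) := by
    rw [Nat.Prime.coprime_iff_not_dvd hℓf.out]
    rintro ⟨k, hk⟩
    have hz2 : z ^ k = 1 := by
      refine ZR.central_one (ℓ := ℓ) hcore (z ^ k) ?_ 1 ?_
      · intro g
        exact ((show Commute z g from hz' g).pow_left k).eq
      · rw [pow_one, ← pow_mul, mul_comm, ← hk, pow_orderOf_eq_one]
    have hk0 : 0 < k := by
      rcases Nat.eq_zero_or_pos k with h | h
      · rw [h, mul_zero] at hk
        omega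
      · exact h
    have h1 : orderOf z ≤ k := orderOf_le_of_pow_eq_one hk0 hz2
    have h2 := hℓf.out.two_le
    rw [hk] at h1
    nlinarith
  obtain ⟨c, hcN, hcz⟩ := ZCM.cchar hχ hz'
  have hint : ∀ {b : ℂ}, b ^ orderOf z = 1 → IsIntegral ℤ b := by
    intro b hb
    exact IsIntegral.of_pow hN (by rw [hb]; exact isIntegral_one)
  -- all the characters over `ξ` have the same central character at `z`
  have key : ∀ χ' : X → ℂ, IsIrr χ' → ip (resj M.subtype χ') ξ ≠ 0 → χ' z = c * χ' 1 := by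
    intro χ' hχ' hne'
    obtain ⟨c', hcN', hcz'⟩ := ZCM.cchar hχ' hz'
    have h1 := congrFun (hU χ' ξ hχ' hξ hne' rfl) z
    rw [ZCM.cen_central 𝔐 hχ' hz' hcz', ZCM.cen_central 𝔐 hχ hz' hcz,
      red_of_integral 𝔐 (hint hcN'), red_of_integral 𝔐 (hint hcN)] at h1
    have h2 := ZCM.sep hmax hℓ hN hcop (a := ⟨c', hint hcN'⟩) (b := ⟨c, hint hcN⟩)
      (Subtype.ext hcN') (Subtype.ext hcN) h1
    have h3 : c' = c := congrArg Subtype.val h2
    rw [hcz', h3]
  -- the induced character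
  have hexp := class_fn_expand (ZCM.fn M ξ) (ZCM.fn_conj M ξ)
  have e1 : ZCM.fn M ξ z = c * ZCM.fn M ξ 1 := by
    have h1 := congrFun hexp z
    have h2 := congrFun hexp 1
    rw [h1, h2, Finset.mul_sum]
    refine Finset.sum_congr rfl fun χ' hχ' => ?_
    have hi := mem_irrF.mp hχ'
    by_cases h3 : ip (resj M.subtype χ') ξ = 0
    · rw [ZCM.ip_fn M ξ hi, h3]
      ring
    · rw [key χ' hi h3]
      ring
  have e2 : ZCM.fn M ξ z = 0 := by
    rw [ZCM.fn]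
    refine Finset.sum_eq_zero fun g _ => ?_
    have : g * z * g⁻¹ = z := by rw [← hz' g, mul_assoc, mul_inv_cancel, mul_one]
    rw [this, ZCM.ex, dif_neg hzM]
  have e3 : ZCM.fn M ξ 1 = (Nat.card X : ℂ) * ξ 1 := by
    rw [ZCM.fn]
    have : ∀ g ∈ (Finset.univ : Finset X), ZCM.ex M ξ (g * 1 * g⁻¹) = ξ 1 := by
      intro g _
      have h1 : g * 1 * g⁻¹ = 1 := by group
      rw [h1, ZCM.ex, dif_pos M.one_mem]
      rfl
    rw [Finset.sum_congr rfl this, Finset.sum_const, Finset.card_univ, nsmul_eq_mul,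
      Nat.card_eq_fintype_card]
  rw [e2, e3] at e1
  have hc0 : c ≠ 0 := by
    rintro rfl
    rw [zero_pow hN.ne'] at hcN
    exact zero_ne_one hcN
  exact (mul_ne_zero hc0 (mul_ne_zero natCard_ne_zero hξ.one_ne_zero)) e1.symm

end Pool.Agent.DPM


end

section

/-!
# Theorem W: statements of the modules, global part
-/

namespace Pool.Agent.DPW

open Pool.Agent.DP Pool.Agent.DPV Pool.Agent.Lib_helper13 Representation
open Pool.Agent.Lib_helper13.Dade (pCore DadeHolds dadeSum IsIrrChar)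

/-! ### The inner theorem for a property of central functions -/

open Classical in
/-- TJP: the sum over the data whose group contains `J` vanishes. -/
def Stmt_TJP : Prop :=
  ∀ (O G B C Y K : Type) [Fintype O] [DecidableEq O] [Group G] [Fintype G] [Group B] [Fintype B]
    [Group C] [Group Y] [Fintype Y] [Group K] [Finite K]
    (𝔐 : Ideal (integralClosure ℤ ℂ)) (ℓ : ℕ) [Fact ℓ.Prime], 𝔐.IsMaximal →
    (ℓ : integralClosure ℤ ℂ) ∈ 𝔐 →
    ∀ (ι : G →* B) (κ : B →* MulAut G) (ρ : B →* C), LocV ι κ ρ →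
    ∀ Pr : (G → (integralClosure ℤ ℂ) ⧸ 𝔐) → Prop,
      (∀ b ω, Pr (fun g => ω (κ b g)) → Pr ω) →
    (∀ (L : Subgroup C) (β : Set (B → (integralClosure ℤ ℂ) ⧸ 𝔐)) (e : ℕ),
      gT ι Pr β → VS 𝔐 ℓ ι κ ρ L β e = 0) →
    ∀ (j : (O → G) →* Y) (p : Y →* K) (φ : Y →* Gam (Equiv.Perm O) O B), ExtS ι κ j p φ →
    ∀ (J : Subgroup K) (e : ℕ) (β : O → Set (B → (integralClosure ℤ ℂ) ⧸ 𝔐)),
      (∃ o, gT ι Pr (β o)) →
      ∑ τ ∈ ClCh O G ℓ, (-1 : ℚ) ^ τ.card * ((∏ o, (Nat.card (stb (comp τ o)) : ℚ)) *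
        ∑ θ ∈ Fintype.piFinset (fun o => irrOn (stb (comp τ o))),
          (if J ≤ KB κ p φ τ θ ∧ ∑ o, df ℓ (stb (comp τ o)) (θ o) = e ∧
            bts 𝔐 ι κ ρ p φ τ θ J = β then 1 else 0)) = 0

open Classical in
/-- COMBP: the vanishing of the combinatorial sum. -/
def Stmt_COMBP : Prop :=
  ∀ (O G B C Y K : Type) [Fintype O] [DecidableEq O] [Group G] [Fintype G] [Group B] [Fintype B]
    [Group C] [Group Y] [Fintype Y] [Group K] [Finite K]
    (𝔐 : Ideal (integralClosure ℤ ℂ)) (ℓ : ℕ) [Fact ℓ.Prime]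
    (ι : G →* B) (κ : B →* MulAut G) (ρ : B →* C), LocV ι κ ρ →
    ∀ Pr : (G → (integralClosure ℤ ℂ) ⧸ 𝔐) → Prop,
    ∀ (j : (O → G) →* Y) (p : Y →* K) (φ : Y →* Gam (Equiv.Perm O) O B), ExtS ι κ j p φ →
    (∀ (J : Subgroup K) (e : ℕ) (β : O → Set (B → (integralClosure ℤ ℂ) ⧸ 𝔐)),
      (∃ o, gT ι Pr (β o)) →
      ∑ τ ∈ ClCh O G ℓ, (-1 : ℚ) ^ τ.card * ((∏ o, (Nat.card (stb (comp τ o)) : ℚ)) *
        ∑ θ ∈ Fintype.piFinset (fun o => irrOn (stb (comp τ o))),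
          (if J ≤ KB κ p φ τ θ ∧ ∑ o, df ℓ (stb (comp τ o)) (θ o) = e ∧
            bts 𝔐 ι κ ρ p φ τ θ J = β then 1 else 0)) = 0) →
    ∀ Φ : Subgroup K → ℕ → (O → Set (B → (integralClosure ℤ ℂ) ⧸ 𝔐)) → ℚ,
      (∀ J e β, Φ J e β ≠ 0 → ∃ o, gT ι Pr (β o)) →
      ∑ τ ∈ ClCh O G ℓ, (-1 : ℚ) ^ τ.card * ((∏ o, (Nat.card (stb (comp τ o)) : ℚ)) *
        ∑ θ ∈ Fintype.piFinset (fun o => irrOn (stb (comp τ o))),
          Φ (KB κ p φ τ θ) (∑ o, df ℓ (stb (comp τ o)) (θ o))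
            (bts 𝔐 ι κ ρ p φ τ θ (KB κ p φ τ θ))) = 0

/-- INNP: the inner theorem for a property of central functions. -/
def Stmt_INNP : Prop :=
  ∀ (O G B C Y K X : Type) [Fintype O] [DecidableEq O] [Group G] [Fintype G] [Group B]
    [Fintype B] [Group C] [Group Y] [Fintype Y] [Group K] [Finite K] [Group X]
    (𝔐 : Ideal (integralClosure ℤ ℂ)) (ℓ : ℕ) [Fact ℓ.Prime], 𝔐.IsMaximal →
    (ℓ : integralClosure ℤ ℂ) ∈ 𝔐 →
    ∀ (ι : G →* B) (κ : B →* MulAut G) (ρ : B →* C), LocV ι κ ρ →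
    ∀ Pr : (G → (integralClosure ℤ ℂ) ⧸ 𝔐) → Prop,
      (∀ b ω, Pr (fun g => ω (κ b g)) → Pr ω) →
    (∀ (L : Subgroup C) (β : Set (B → (integralClosure ℤ ℂ) ⧸ 𝔐)) (e : ℕ),
      gT ι Pr β → VS 𝔐 ℓ ι κ ρ L β e = 0) →
    ∀ (j : (O → G) →* Y) (p : Y →* K) (φ : Y →* Gam (Equiv.Perm O) O B)
      (h : ExtS ι κ j p φ),
    ∀ (i : Y →* X) (ω : X → (integralClosure ℤ ℂ) ⧸ 𝔐),
      (∀ τ ∈ ClCh O G ℓ, ∀ θ : O → G → ℂ, (∀ o, IrrOn (stb (comp τ o)) (θ o)) →
        ∀ ψ : YS j τ → ℂ, IsIrr ψ →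
        ip (resj (jS h.cl τ) ψ) (fun a => ∏ o, θ o ((a : O → G) o)) ≠ 0 →
        (∀ x, cen 𝔐 (i.comp (YS j τ).subtype) ψ x = ω x) → ∃ o, Pr (fun g => cg 𝔐 (θ o) g)) →
      ∀ d : ℕ, ∑ τ ∈ Ch ℓ (⊥ : Subgroup (O → G)), (-1 : ℚ) ^ τ.card *
        ((Nat.card (YS j τ) : ℚ) * cnt 𝔐 ℓ d (i.comp (YS j τ).subtype) ω) = 0

/-- HATIP: the inner theorem for a group whose covering group has extendible characters. -/
def Stmt_HATIP : Prop :=
  ∀ (O G B C B' C' Y K X : Type) [Fintype O] [DecidableEq O] [Group G] [Fintype G] [Group B]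
    [Fintype B] [Group C] [Group B'] [Fintype B'] [Group C'] [Group Y] [Fintype Y] [Group K]
    [Group X] (𝔐 : Ideal (integralClosure ℤ ℂ)) (ℓ : ℕ) [Fact ℓ.Prime], 𝔐.IsMaximal →
    (ℓ : integralClosure ℤ ℂ) ∈ 𝔐 →
    ∀ (ι : G →* B) (κ : B →* MulAut G) (ρ : B →* C), LocN ι κ ρ →
    ∀ (ι' : G →* B') (κ' : B' →* MulAut G) (ρ' : B' →* C') (π : B' →* B), LocV ι' κ' ρ' →
    Function.Surjective π → (∀ g, π (ι' g) = ι g) → κ' = κ.comp π → ¬ ℓ ∣ Nat.card π.ker →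
    ∀ Pr : (G → (integralClosure ℤ ℂ) ⧸ 𝔐) → Prop,
      (∀ b ω, Pr (fun g => ω (κ b g)) → Pr ω) →
    (∀ (L : Subgroup C') (β : Set (B' → (integralClosure ℤ ℂ) ⧸ 𝔐)) (e : ℕ),
      gT ι' Pr β → VS 𝔐 ℓ ι' κ' ρ' L β e = 0) →
    ∀ (j : (O → G) →* Y) (p : Y →* K) (φ : Y →* Gam (Equiv.Perm O) O B)
      (h : ExtS ι κ j p φ),
    ∀ (i : Y →* X), Function.Injective i → ∀ (ω : X → (integralClosure ℤ ℂ) ⧸ 𝔐),
      (∀ τ ∈ ClCh O G ℓ, ∀ θ : O → G → ℂ, (∀ o, IrrOn (stb (comp τ o)) (θ o)) →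
        ∀ ψ : YS j τ → ℂ, IsIrr ψ →
        ip (resj (jS h.cl τ) ψ) (fun a => ∏ o, θ o ((a : O → G) o)) ≠ 0 →
        (∀ x, cen 𝔐 (i.comp (YS j τ).subtype) ψ x = ω x) → ∃ o, Pr (fun g => cg 𝔐 (θ o) g)) →
      ∀ d : ℕ, ∑ τ ∈ Ch ℓ (⊥ : Subgroup (O → G)), (-1 : ℚ) ^ τ.card *
        ((Nat.card (YS j τ) : ℚ) * cnt 𝔐 ℓ d (i.comp (YS j τ).subtype) ω) = 0

/-! ### Separation of the blocks with an admissible property -/

/-- IDFP: an invariant class function with integer values which separates the blocks with an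
admissible property from the other blocks. -/
def Stmt_IDFP : Prop :=
  ∀ (G B : Type) [Group G] [Fintype G] [Group B]
    (𝔐 : Ideal (integralClosure ℤ ℂ)) (ℓ : ℕ) [Fact ℓ.Prime], 𝔐.IsMaximal →
    (ℓ : integralClosure ℤ ℂ) ∈ 𝔐 → ∀ κ : B →* MulAut G,
    ∀ Pr : (G → (integralClosure ℤ ℂ) ⧸ 𝔐) → Prop, AdmP ℓ κ Pr →
      ∃ f : G → ℤ, (∀ g x, f (g * x * g⁻¹) = f x) ∧ (∀ b x, f (κ b x) = f x) ∧
        (∀ χ : G → ℂ, IsIrr χ → Pr (fun g => cg 𝔐 χ g) →
          red 𝔐 (wt χ (fun x => (f x : ℂ))) = 0) ∧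
        ∀ χ : G → ℂ, IsIrr χ → ¬ Pr (fun g => cg 𝔐 χ g) →
          red 𝔐 (wt χ (fun x => (f x : ℂ))) ≠ 0

/-- BLKP: the blocks over a block with an admissible property in some coordinate, and the induced
blocks of the stabilizers of inner chains. -/
def Stmt_BLKP : Prop :=
  ∀ (Ω O G B X Y K K' : Type) [Fintype Ω] [DecidableEq Ω] [Fintype O] [DecidableEq O]
    [Group G] [Fintype G] [Group B] [Fintype B] [Group X] [Fintype X] [Group Y] [Fintype Y]
    [Group K] [Group K'] (𝔐 : Ideal (integralClosure ℤ ℂ)) (ℓ : ℕ) [Fact ℓ.Prime],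
    𝔐.IsMaximal → (ℓ : integralClosure ℤ ℂ) ∈ 𝔐 →
    ∀ (ι : G →* B) (κ : B →* MulAut G) (e : (Ω → G) →* X) (p : X →* K)
      (φ : X →* Gam (Equiv.Perm Ω) Ω B) (j : (O → G) →* Y) (p' : Y →* K')
      (φ' : Y →* Gam (Equiv.Perm O) O B), ExtS ι κ e p φ →
    ∀ (h : ExtS ι κ j p' φ') (Pr : (G → (integralClosure ℤ ℂ) ⧸ 𝔐) → Prop), AdmP ℓ κ Pr →
    ∀ (i : Y →* X) (π : Ω → O) (u : Ω → B),
      (∀ o, ∃ k, Nat.card {w : Ω // π w = o} = ℓ ^ k) →
      (∀ n : O → G, i (j n) = e (fun w => κ (u w) (n (π w)))) →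
      (∀ y, i y ∈ e.range → y ∈ j.range) →
    ∀ (χ : X → ℂ) (ξ : Ω → G → ℂ) (w : Ω), IsIrr χ → (∀ a, IsIrr (ξ a)) →
      ip (resj e χ) (fun n => ∏ a, ξ a (n a)) ≠ 0 → Pr (fun g => cg 𝔐 (ξ w) g) →
    ∀ τ ∈ ClCh O G ℓ, ∀ θ : O → G → ℂ, (∀ o, IrrOn (stb (comp τ o)) (θ o)) →
      ∀ ψ : YS j τ → ℂ, IsIrr ψ →
      ip (resj (jS h.cl τ) ψ) (fun a => ∏ o, θ o ((a : O → G) o)) ≠ 0 →
      (∀ x, cen 𝔐 (i.comp (YS j τ).subtype) ψ x = cen 𝔐 (MonoidHom.id X) χ x) →
      ∃ o, Pr (fun g => cg 𝔐 (θ o) g)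

/-! ### The outer layer -/

/-- RINAP: the centralizer of an `ℓ`-subgroup. -/
def Stmt_RINAP : Prop :=
  ∀ (Ω G B C X K : Type) [Fintype Ω] [DecidableEq Ω] [Group G] [Fintype G] [Group B]
    [Fintype B] [Group C] [Group X] [Fintype X] [Group K] (ℓ : ℕ) [Fact ℓ.Prime]
    (ι : G →* B) (κ : B →* MulAut G) (ρ : B →* C), LocN ι κ ρ → ¬ ℓ ∣ Nat.card C →
    ∀ (e : (Ω → G) →* X) (p : X →* K) (φ : X →* Gam (Equiv.Perm Ω) Ω B), ExtS ι κ e p φ →
    ∀ Q : Subgroup X, IsPGroup ℓ Q → Q ⊓ e.range = ⊥ → pCore ℓ (cN e.range Q) = ⊥ →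
    ∃ (O : Type) (_ : Fintype O) (_ : DecidableEq O) (π : Ω → O) (u : Ω → B),
      Function.Surjective π ∧ (∀ w w', π w = π w' ↔ ∃ q ∈ Q, (φ q).right • w = w') ∧
      (∀ o, ∃ k, Nat.card {w : Ω // π w = o} = ℓ ^ k) ∧
      (∀ q ∈ Q, ∀ w, u ((φ q).right • w) = (φ q).left ((φ q).right • w) * u w) ∧
      ∀ n : Ω → G, e n ∈ Subgroup.centralizer (Q : Set X) ↔
        ∃ n' : O → G, n = fun w => κ (u w) (n' (π w))

/-- RINBP: the action of a group normalizing `Q` on the centralizer. -/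
def Stmt_RINBP : Prop :=
  ∀ (Ω G B C X K O : Type) [Fintype Ω] [DecidableEq Ω] [Group G] [Fintype G] [Group B]
    [Fintype B] [Group C] [Group X] [Fintype X] [Group K] [Fintype O] [DecidableEq O]
    (ℓ : ℕ) [Fact ℓ.Prime]
    (ι : G →* B) (κ : B →* MulAut G) (ρ : B →* C), LocN ι κ ρ →
    ∀ (e : (Ω → G) →* X) (p : X →* K) (φ : X →* Gam (Equiv.Perm Ω) Ω B), ExtS ι κ e p φ →
    ∀ Q : Subgroup X, Q ⊓ e.range = ⊥ →
    ∀ (π : Ω → O) (u : Ω → B),
      Function.Surjective π → (∀ w w', π w = π w' ↔ ∃ q ∈ Q, (φ q).right • w = w') →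
      (∀ q ∈ Q, ∀ w, u ((φ q).right • w) = (φ q).left ((φ q).right • w) * u w) →
      (∀ n : Ω → G, e n ∈ Subgroup.centralizer (Q : Set X) ↔
        ∃ n' : O → G, n = fun w => κ (u w) (n' (π w))) →
    ∀ Y : Subgroup X, (∀ y ∈ Y, Q.map (MulAut.conj y).toMonoidHom = Q) →
      cN e.range Q ≤ Y →
      ∃ (K' : Type) (_ : Group K') (_ : Finite K') (j : (O → G) →* Y) (p' : Y →* K')
        (φ' : Y →* Gam (Equiv.Perm O) O B), ExtS ι κ j p' φ' ∧
        (∀ n : O → G, ((j n : Y) : X) = e (fun w => κ (u w) (n (π w)))) ∧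
        (∀ y : Y, (y : X) ∈ e.range → y ∈ j.range) ∧
        ∀ y : Y, (y : X) ∈ cN e.range Q ↔ y ∈ j.range

/-- RINNP: the inner sum of an outer chain. -/
def Stmt_RINNP : Prop :=
  ∀ (Ω G B C X K : Type) [Fintype Ω] [DecidableEq Ω] [Group G] [Fintype G] [Group B]
    [Fintype B] [Group C] [Group X] [Fintype X] [Group K] (ℓ : ℕ) [Fact ℓ.Prime]
    (ι : G →* B) (κ : B →* MulAut G) (ρ : B →* C), LocN ι κ ρ → ¬ ℓ ∣ Nat.card C →
    ∀ (e : (Ω → G) →* X) (p : X →* K) (φ : X →* Gam (Equiv.Perm Ω) Ω B), ExtS ι κ e p φ →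
    ∀ Z : Subgroup X, Z.Normal → IsPGroup ℓ Z → Z ⊓ e.range = ⊥ →
    ∀ c : Finset (Subgroup X), IsCh ℓ Z c → (∀ D ∈ c, D ⊓ e.range = ⊥) →
      pCore ℓ (cN e.range (tp Z c)) ≠ ⊥ ∨
      ∃ (O K' : Type) (_ : Fintype O) (_ : DecidableEq O) (_ : Group K') (_ : Finite K')
        (π : Ω → O) (u : Ω → B) (j : (O → G) →* stb c) (p' : stb c →* K')
        (φ' : stb c →* Gam (Equiv.Perm O) O B), ExtS ι κ j p' φ' ∧
        Function.Surjective π ∧ (∀ o, ∃ k, Nat.card {w : Ω // π w = o} = ℓ ^ k) ∧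
        (∀ n : O → G, ((j n : stb c) : X) = e (fun w => κ (u w) (n (π w)))) ∧
        (∀ y : stb c, (y : X) ∈ e.range → y ∈ j.range) ∧
        ∀ W : Subgroup X → ℚ, innerS ℓ Z e.range W c =
          ∑ τ ∈ Ch ℓ (⊥ : Subgroup (O → G)), (-1 : ℚ) ^ τ.card *
            W ((YS j τ).map (stb c).subtype)

/-! ### Central products -/

/-- SCH: a supplement of order prime to `ℓ`. -/
def Stmt_SCH : Prop :=
  ∀ (A : Type) [Group A] [Finite A] (N : Subgroup A) [N.Normal] (ℓ : ℕ) [Fact ℓ.Prime],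
    ¬ ℓ ∣ N.index → ∃ K₁ : Subgroup A, ¬ ℓ ∣ Nat.card K₁ ∧ N ⊔ K₁ = ⊤

/-- CPA: the central product of the conjugates of `K`. -/
def Stmt_CPA : Prop :=
  ∀ (X : Type) [Group X] [Finite X] (K : Subgroup X),
    (∀ x : X, (∀ k ∈ K, x * k * x⁻¹ ∈ K) ∨
      ∀ k ∈ K, ∀ k' ∈ K, (x * k * x⁻¹) * k' = k' * (x * k * x⁻¹)) →
    ∃ (Ω : Type) (_ : Fintype Ω) (_ : DecidableEq Ω) (w₀ : Ω) (e : (Ω → K) →* X)
      (c : X →* MulAut (Ω → K)) (s : X → Equiv.Perm Ω) (α : X → Ω → MulAut K),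
      (∀ k : K, e (Pi.mulSingle w₀ k) = k) ∧ (∀ y n, e (c y n) = y * e n * y⁻¹) ∧
      (∀ y n w, c y n w = α y w (n (s y w))) ∧
      (∀ y w, ∃ z ∈ Subgroup.normalizer (K : Set X), ∀ k : K, ((α y w k : K) : X) =
        z * k * z⁻¹) ∧
      (∀ n m, c (e n) m = n * m * n⁻¹) ∧
      ∀ z : X, (∀ n, z * e n = e n * z) → c z = 1

/-- CPZ: normal `ℓ`-subgroups centralize the central product. -/
def Stmt_CPZ : Prop :=
  ∀ (X G Ω : Type) [Group X] [Finite X] [Group G] [Finite G] [Fintype Ω] [DecidableEq Ω]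
    (ℓ : ℕ) [Fact ℓ.Prime] (e : (Ω → G) →* X) (c : X →* MulAut (Ω → G)), pCore ℓ G = ⊥ →
    (∀ y n, e (c y n) = y * e n * y⁻¹) → (∀ n m, c (e n) m = n * m * n⁻¹) →
    (∀ z : X, (∀ n, z * e n = e n * z) → c z = 1) →
    ∀ Z : Subgroup X, Z.Normal → IsPGroup ℓ Z → ∀ z ∈ Z, c z = 1

/-- CPB: a covering group of `X` in which the power of `G` is a normal subgroup. -/
def Stmt_CPB : Prop :=
  ∀ (X G Ω : Type) [Group X] [Finite X] [Group G] [Finite G] [Nontrivial G] [Fintype Ω]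
    [DecidableEq Ω] (ℓ : ℕ) [Fact ℓ.Prime] (e : (Ω → G) →* X) (c : X →* MulAut (Ω → G)),
    pCore ℓ G = ⊥ → (∀ y n, e (c y n) = y * e n * y⁻¹) → (∀ n m, c (e n) m = n * m * n⁻¹) →
    ∀ A : Subgroup (MulAut G), (MulAut.conj : G →* MulAut G).range ≤ A →
      ¬ ℓ ∣ (MulAut.conj : G →* MulAut G).range.relIndex A →
      (∀ y, ∃ (s : Equiv.Perm Ω) (α : Ω → MulAut G), (∀ w, α w ∈ A) ∧
        ∀ n w, c y n w = α w (n (s w))) →
      ∃ (X' B C K' : Type) (_ : Group X') (_ : Fintype X') (_ : Group B) (_ : Fintype B)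
        (_ : Group C) (_ : Group K') (q : X' →* X) (ι : G →* B) (κ : B →* MulAut G)
        (ρ : B →* C) (e' : (Ω → G) →* X') (p' : X' →* K') (φ' : X' →* Gam (Equiv.Perm Ω) Ω B),
        Function.Surjective q ∧ ¬ ℓ ∣ Nat.card q.ker ∧ LocN ι κ ρ ∧ ¬ ℓ ∣ Nat.card C ∧
        ExtS ι κ e' p' φ' ∧ (∀ n, q (e' n) = e n) ∧
        ∀ Z : Subgroup X, Z.Normal → IsPGroup ℓ Z → (∀ z ∈ Z, c z = 1) →
          ∃ Z' : Subgroup X', Z'.Normal ∧ IsPGroup ℓ Z' ∧ Z' ⊓ e'.range = ⊥ ∧ Z'.map q = Z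

/-- CPO: the constituents of the restriction to the central product. -/
def Stmt_CPO : Prop :=
  ∀ (X Ω : Type) [Group X] [Fintype X] [Fintype Ω] [DecidableEq Ω] (K : Subgroup X)
    (w₀ : Ω) (e : (Ω → K) →* X), (∀ k : K, e (Pi.mulSingle w₀ k) = k) →
    ∀ (χ : X → ℂ) (ξ : K → ℂ), IsIrr χ → IsIrr ξ → ip (fun k : K => χ k) ξ ≠ 0 →
      ∃ ξ' : Ω → K → ℂ, (∀ w, IsIrr (ξ' w)) ∧ ξ' w₀ = ξ ∧
        ip (resj e χ) (fun n => ∏ w, ξ' w (n w)) ≠ 0

/-! ### Quotients by normal subgroups of order prime to `ℓ` -/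

/-- HATQ: the chain sums of a group and of its quotient by a normal subgroup of order prime
to `ℓ`. -/
def Stmt_HATQ : Prop :=
  ∀ (X' X : Type) [Group X'] [Fintype X'] [Group X] [Fintype X]
    (𝔐 : Ideal (integralClosure ℤ ℂ)) (ℓ : ℕ) [Fact ℓ.Prime], 𝔐.IsMaximal →
    (ℓ : integralClosure ℤ ℂ) ∈ 𝔐 → ∀ q : X' →* X, Function.Surjective q →
    ¬ ℓ ∣ Nat.card q.ker → ∀ Z' : Subgroup X', Z'.Normal → IsPGroup ℓ Z' →
    ∀ χ : X → ℂ, IsIrr χ → ∀ d : ℕ,
      KK 𝔐 ℓ d Z' (cen 𝔐 (MonoidHom.id X') (fun x => χ (q x))) =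
        (Nat.card q.ker : ℚ) * KK 𝔐 ℓ d (Z'.map q) (cen 𝔐 (MonoidHom.id X) χ)

end Pool.Agent.DPW


end

section

/-!
# Dade's conjecture, theorem V: the action of a group normalizing `Q` on the centralizer
-/

namespace Pool.Agent.DPW

open Pool.Agent.DP Pool.Agent.DPV Pool.Agent.Lib_helper13 Representation
open Pool.Agent.Lib_helper13.Dade (pCore DadeHolds dadeSum)

theorem RINBP_thm : Stmt_RINBP := by
  intro Ω G B C X K O _ _ _ _ _ _ _ _ _ _ _ _ ℓ _ ι κ ρ hloc e p φ hext Q hQ π u hs hπ hu hcen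
    Y hY hle
  classical
  -- the normal subgroup
  have hmem : ∀ n : O → G, e (fun w => κ (u w) (n (π w))) ∈ Y := by
    intro n
    apply hle
    exact ⟨⟨_, rfl⟩, (hcen _).mpr ⟨n, rfl⟩⟩
  let E : (O → G) →* (Ω → G) :=
    { toFun := fun n w => κ (u w) (n (π w))
      map_one' := by
        funext w
        simp
      map_mul' := by
        intro a b
        funext w
        simp }
  let j : (O → G) →* Y := (e.comp E).codRestrict Y hmem
  have hj : ∀ n : O → G, ((j n : Y) : X) = e (fun w => κ (u w) (n (π w))) := fun n => rfl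
  let φ' : Y →* Gam (Equiv.Perm O) O B := Pool.Agent.DP.RINB.phiO hs hπ hu hY
  have hr : ∀ (y : Y) (w : Ω), (φ' y).right • π w = π ((φ (y : X)).right • w) :=
    fun y w => Pool.Agent.DP.RINB.permO_apply hs hπ hY y w
  have hri : ∀ (y : Y) (w : Ω), (φ' y).right⁻¹ • π w = π ((φ (y : X)).right⁻¹ • w) :=
    fun y w => Pool.Agent.DP.RINB.permO_inv hs hπ hY y w
  have hl : ∀ (y : Y) (w : Ω), (φ' y).left (π w) =
      (u w)⁻¹ * (φ (y : X)).left w * u ((φ (y : X)).right⁻¹ • w) :=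
    fun y w => Pool.Agent.DP.RINB.leftO_apply hs hπ hu hY y w
  have hjinj : Function.Injective j := by
    intro a b hab
    have h1 : e (fun w => κ (u w) (a (π w))) = e (fun w => κ (u w) (b (π w))) :=
      congrArg Subtype.val hab
    have h2 := hext.cl.inj h1
    funext o
    obtain ⟨w, rfl⟩ := hs o
    exact (κ (u w)).injective (congrFun h2 w)
  have hact : ∀ (y : Y) (n : O → G), j (wB κ O (φ' y) n) = y * j n * y⁻¹ := by
    intro y n
    apply Subtype.ext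
    change e (fun w => κ (u w) (wB κ O (φ' y) n (π w))) =
      (y : X) * e (fun w => κ (u w) (n (π w))) * (y : X)⁻¹
    rw [← hext.cl.act]
    congr 1
    funext w
    rw [MonoidHom.comp_apply, wB_apply, wB_apply, hl, hri, ← MulAut.mul_apply, ← map_mul,
      ← MulAut.mul_apply, ← map_mul]
    congr 2
    group
  have hN : j.range.Normal := by
    constructor
    rintro _ ⟨n, rfl⟩ y
    exact ⟨_, hact y n⟩
  have hrange : ∀ y : Y, (y : X) ∈ e.range → y ∈ j.range := by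
    rintro y ⟨n, hn⟩
    have h1 : e n ∈ Subgroup.centralizer (Q : Set X) := by
      rw [Subgroup.mem_centralizer_iff]
      intro q hq
      have h2 : (y : X) * q * (y : X)⁻¹ * q⁻¹ ∈ Q :=
        Q.mul_mem (Pool.Agent.DP.RINB.conj_mem hY y.2 hq) (Q.inv_mem hq)
      have h3 : (y : X) * q * (y : X)⁻¹ * q⁻¹ ∈ e.range := by
        have h4 : (y : X) * q * (y : X)⁻¹ * q⁻¹ = (y : X) * (q * (y : X)⁻¹ * q⁻¹) := by group
        rw [h4, ← hn, ← map_inv, ← hext.cl.act]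
        exact e.range.mul_mem ⟨_, rfl⟩ ⟨_, rfl⟩
      have h5 : (y : X) * q * (y : X)⁻¹ * q⁻¹ = 1 := by
        have h6 : (y : X) * q * (y : X)⁻¹ * q⁻¹ ∈ Q ⊓ e.range := ⟨h2, h3⟩
        rw [hQ] at h6
        exact Subgroup.mem_bot.mp h6
      rw [hn]
      have h7 : (y : X) * q = q * (y : X) := by
        have h8 := mul_inv_eq_one.mp h5
        exact mul_inv_eq_iff_eq_mul.mp h8
      exact h7.symm
    obtain ⟨n', hn'⟩ := (hcen n).mp h1
    refine ⟨n', ?_⟩
    apply Subtype.ext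
    rw [hj, ← hn, hn']
  refine ⟨Y ⧸ j.range, inferInstance, inferInstance, j, QuotientGroup.mk' j.range, φ',
    ⟨⟨hjinj, hact, ?_⟩, QuotientGroup.mk'_surjective _, ?_⟩, hj, hrange, ?_⟩
  · intro y
    exact QuotientGroup.eq_one_iff y
  · intro n
    have h1 : φ ((j n : Y) : X) = SemidirectProduct.inl (fun w => ι (κ (u w) (n (π w)))) :=
      hext.jn _
    apply SemidirectProduct.ext
    · funext o
      obtain ⟨w, rfl⟩ := hs o
      rw [hl, h1]
      change (u w)⁻¹ * ι (κ (u w) (n (π w))) * u ((1 : Equiv.Perm Ω)⁻¹ • w) = ι (n (π w))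
      rw [hloc.cl.act]
      simp only [inv_one, one_smul]
      group
    · apply Equiv.ext
      intro o
      obtain ⟨w, rfl⟩ := hs o
      change (φ' (j n)).right • π w = π w
      rw [hr, h1]
      change π ((1 : Equiv.Perm Ω) • w) = π w
      rw [one_smul]
  · intro y
    constructor
    · intro hy
      exact hrange y hy.1
    · rintro ⟨n, rfl⟩
      exact ⟨⟨_, rfl⟩, (hcen _).mpr ⟨n, rfl⟩⟩

end Pool.Agent.DPW


end

section

/-!
# Theorem V: the inner sum of an outer chain (module RINNP, adapted from RINNER)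
-/

namespace Pool.Agent.DPW.RINNP

open Pool.Agent.DP Pool.Agent.DPV Pool.Agent.Lib_helper13 Representation
open Pool.Agent.Lib_helper13.Dade (pCore DadeHolds dadeSum)
open Pool.Agent.DP.RINNER (tp_pgroup tp_inf tp_map_conj cN_le_stb)

theorem main (h1 : Stmt_RINAP) (h2 : Stmt_RINBP) : Stmt_RINNP := by
  classical
  intro Ω G B C X K _ _ _ _ _ _ _ _ _ _ ℓ _ ι κ ρ hL hcop e p φ hE Z hZn hZp hZe c hc hce
  by_cases hcore : pCore ℓ (cN e.range (tp Z c)) = ⊥
  swap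
  · exact Or.inl hcore
  right
  have hQe : tp Z c ⊓ e.range = ⊥ := tp_inf Z e.range hZe c hc hce
  have hQp : IsPGroup ℓ (tp Z c) := tp_pgroup Z hZp c hc
  obtain ⟨O, iO, dO, π, u, hπ, hfib, hcard, hu, hcent⟩ :=
    h1 Ω G B C X K ℓ ι κ ρ hL hcop e p φ hE (tp Z c) hQp hQe hcore
  obtain ⟨K', iK, fK, j, p', φ', hext, hj, hjr, hcN⟩ :=
    h2 Ω G B C X K O ℓ ι κ ρ hL e p φ hE (tp Z c) hQe π u hπ hfib hu hcent (stb c)
      (fun y hy => tp_map_conj Z c hy) (cN_le_stb Z e.range c)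
  refine ⟨O, K', iO, dO, iK, fK, π, u, j, p', φ', hext, hπ, hcard, hj, hjr, ?_⟩
  intro W
  have hmem : ∀ n : O → G, ((j n : stb c) : X) ∈ cN e.range (tp Z c) :=
    fun n => (hcN (j n)).mpr ⟨n, rfl⟩
  let f : (O → G) →* cN e.range (tp Z c) :=
    ((stb c).subtype.comp j).codRestrict (cN e.range (tp Z c)) hmem
  have hf : ∀ n, (f n : X) = ((j n : stb c) : X) := fun n => rfl
  have hbij : Function.Bijective f := by
    constructor
    · intro x y hxy
      have h3 : (f x : X) = f y := congrArg Subtype.val hxy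
      rw [hf, hf] at h3
      exact hext.cl.inj (Subtype.ext h3)
    · rintro ⟨y, hy⟩
      obtain ⟨n, hn⟩ := (hcN ⟨y, cN_le_stb Z e.range c hy⟩).mp hy
      refine ⟨n, Subtype.ext ?_⟩
      rw [hf, hn]
  obtain ⟨E, hEf⟩ : ∃ E : (O → G) ≃* cN e.range (tp Z c), ∀ n, E n = f n :=
    ⟨MulEquiv.ofBijective f hbij, fun n => rfl⟩
  have hcomp : (cN e.range (tp Z c)).subtype.comp E.toMonoidHom = (stb c).subtype.comp j := by
    apply MonoidHom.ext
    intro n
    change ((E n : cN e.range (tp Z c)) : X) = ((j n : stb c) : X)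
    rw [hEf, hf]
  unfold innerS
  have hbot : (⊥ : Subgroup (cN e.range (tp Z c))) =
      (⊥ : Subgroup (O → G)).map E.toMonoidHom := by
    rw [Subgroup.map_bot]
  rw [hbot, sum_Ch_equiv E ℓ ⊥]
  refine Finset.sum_congr rfl fun τ _ => ?_
  have h4 : stb c ⊓ stb (mapCh (cN e.range (tp Z c)).subtype (mapCh E.toMonoidHom τ)) =
      (YS j τ).map (stb c).subtype := by
    rw [mapCh_comp, hcomp, ← mapCh_comp]
    have h5 := comap_stb_mapCh (i := (stb c).subtype) Subtype.val_injective (mapCh j τ)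
    rw [YS, ← h5, Subgroup.map_comap_eq, Subgroup.range_subtype]
  rw [card_mapCh E.injective, h4]

end Pool.Agent.DPW.RINNP

namespace Pool.Agent.DPW

/-- RINNP: the inner sum of an outer chain. -/
theorem RINNP_thm (h1 : Stmt_RINAP) (h2 : Stmt_RINBP) : Stmt_RINNP := RINNP.main h1 h2

end Pool.Agent.DPW


end

section

/-!
# SCH: a supplement of order prime to `ℓ` (Frattini and Schur-Zassenhaus)
-/

namespace Pool.Agent.DPW

theorem SCH_thm : Stmt_SCH := by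
  intro A _ _ N _ ℓ hℓ hN
  obtain ⟨P⟩ : Nonempty (Sylow ℓ N) := inferInstance
  obtain ⟨P', hP'⟩ : ∃ P' : Subgroup A, P' = (P : Subgroup N).map N.subtype := ⟨_, rfl⟩
  have hfr : Subgroup.normalizer (P' : Set A) ⊔ N = ⊤ := by
    rw [hP']
    exact P.normalizer_sup_eq_top
  obtain ⟨M, hM⟩ : ∃ M : Subgroup A, M = Subgroup.normalizer (P' : Set A) := ⟨_, rfl⟩
  rw [← hM] at hfr
  have hPM : P' ≤ M := hM ▸ Subgroup.le_normalizer
  have hPN : P' ≤ N := by
    rw [hP']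
    exact Subgroup.map_subtype_le _
  -- the index of `P'`
  have hidx : ¬ ℓ ∣ P'.index := by
    rw [hP', Subgroup.index_map_subtype]
    exact Nat.Prime.not_dvd_mul hℓ.out P.not_dvd_index hN
  have hrel : ¬ ℓ ∣ P'.relIndex M := fun h =>
    hidx (h.trans (Dvd.intro _ (Subgroup.relIndex_mul_index hPM)))
  -- Schur-Zassenhaus in `M`
  have hnorm : (P'.subgroupOf M).Normal := by
    subst hM
    exact Subgroup.normal_in_normalizer
  have hcard : ∃ n, Nat.card (P'.subgroupOf M) = ℓ ^ n := by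
    obtain ⟨n, hn⟩ := P.isPGroup'.exists_card_eq
    refine ⟨n, ?_⟩
    rw [Nat.card_congr (Subgroup.subgroupOfEquivOfLe hPM).toEquiv, hP', ← hn]
    exact (Nat.card_congr ((P : Subgroup N).equivMapOfInjective N.subtype
      N.subtype_injective).toEquiv).symm
  obtain ⟨n, hn⟩ := hcard
  have hco : Nat.Coprime (Nat.card (P'.subgroupOf M)) (P'.subgroupOf M).index := by
    rw [hn]
    exact Nat.Coprime.pow_left n ((Nat.Prime.coprime_iff_not_dvd hℓ.out).2 hrel)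
  obtain ⟨H, hH⟩ := Subgroup.exists_right_complement'_of_coprime hco
  refine ⟨H.map M.subtype, ?_, ?_⟩
  · have h1 : Nat.card (H.map M.subtype) = Nat.card H :=
      (Nat.card_congr (H.equivMapOfInjective M.subtype M.subtype_injective).toEquiv).symm
    have h2 : (P'.subgroupOf M).index = Nat.card H := hH.symm.index_eq_card
    rw [h1, ← h2]
    exact hrel
  · have h1 : (P'.subgroupOf M).map M.subtype ⊔ H.map M.subtype = M := by
      rw [← Subgroup.map_sup, hH.sup_eq_top, ← MonoidHom.range_eq_map, Subgroup.range_subtype]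
    have h2 : M ≤ N ⊔ H.map M.subtype := by
      refine h1.ge.trans (sup_le (le_sup_of_le_left ?_) le_sup_right)
      rw [Subgroup.subgroupOf_map_subtype]
      exact inf_le_left.trans hPN
    rw [eq_top_iff, ← hfr]
    exact sup_le h2 le_sup_left

end Pool.Agent.DPW


end

section

/-!
# CPB: a covering group in which the power of `G` is a normal subgroup
-/

namespace Pool.Agent.DPW

open Pool.Agent.DP Pool.Agent.DPV Pool.Agent.Lib_helper13 Representation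
open Pool.Agent.Lib_helper13.Dade (pCore DadeHolds dadeSum)

namespace CPB

section Loc

variable {G : Type} [Group G] (A : Subgroup (MulAut G)) (K₁ : Subgroup A)

/-- The action of `K₁`. -/
def th : K₁ →* MulAut G := A.subtype.comp K₁.subtype

/-- The action of `G ⋊ K₁` on `G`. -/
def kap : G ⋊[th A K₁] K₁ →* MulAut G :=
  SemidirectProduct.lift MulAut.conj (th A K₁) (by
    intro a
    ext g x
    change (th A K₁ a g) * x * (th A K₁ a g)⁻¹ =
      th A K₁ a (g * ((th A K₁ a)⁻¹ x) * g⁻¹)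
    rw [map_mul, map_mul, MulAut.apply_inv_self, map_inv])

theorem kap_apply (b : G ⋊[th A K₁] K₁) (g : G) :
    kap A K₁ b g = b.left * th A K₁ b.right g * b.left⁻¹ := rfl

theorem kap_inl (g : G) : kap A K₁ (SemidirectProduct.inl g) = MulAut.conj g :=
  SemidirectProduct.lift_inl _ _ _ _

theorem locN : LocN (SemidirectProduct.inl : G →* G ⋊[th A K₁] K₁) (kap A K₁)
    SemidirectProduct.rightHom where
  cl :=
    { inj := SemidirectProduct.inl_injective
      act := by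
        intro b g
        ext
        · rw [kap_apply]
          simp
        · simp
      ker := by
        intro b
        rw [SemidirectProduct.range_inl_eq_ker_rightHom, MonoidHom.mem_ker] }
  surj := SemidirectProduct.rightHom_surjective

end Loc

section Glob

variable {X G B Ω : Type} [Group X] [Group G] [Group B] (c : X →* MulAut (Ω → G))
  (κ : B →* MulAut G)

/-- The fibre product. -/
def XS : Subgroup (X × Gam (Equiv.Perm Ω) Ω B) :=
  MonoidHom.eqLocus (c.comp (MonoidHom.fst _ _)) ((wB κ Ω).comp (MonoidHom.snd _ _))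

theorem mem_XS (y : X × Gam (Equiv.Perm Ω) Ω B) : y ∈ XS c κ ↔ c y.1 = wB κ Ω y.2 := Iff.rfl

/-- The projection to `X`. -/
def q : XS c κ →* X := (MonoidHom.fst _ _).comp (XS c κ).subtype

/-- The projection to the wreath product. -/
def ph : XS c κ →* Gam (Equiv.Perm Ω) Ω B := (MonoidHom.snd _ _).comp (XS c κ).subtype

theorem wB_inl (ι : G →* B) (hκ : ∀ g, κ (ι g) = MulAut.conj g) (n m : Ω → G) :
    wB κ Ω (SemidirectProduct.inl (fun w => ι (n w))) m = n * m * n⁻¹ := by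
  funext w
  rw [wB_apply]
  simp [hκ]

/-- The embedding of the power of `G`. -/
def e' (ι : G →* B) (hκ : ∀ g, κ (ι g) = MulAut.conj g) (e : (Ω → G) →* X)
    (hc : ∀ n m, c (e n) m = n * m * n⁻¹) : (Ω → G) →* XS c κ where
  toFun n := ⟨(e n, SemidirectProduct.inl (fun w => ι (n w))), by
    rw [mem_XS]
    ext m : 1
    rw [hc, wB_inl κ ι hκ]⟩
  map_one' := by
    apply Subtype.ext
    apply Prod.ext
    · exact map_one e
    · change SemidirectProduct.inl (fun w => ι ((1 : Ω → G) w)) = 1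
      have : (fun w => ι ((1 : Ω → G) w)) = (1 : Ω → B) := by
        funext w
        simp
      rw [this, map_one]
  map_mul' n m := by
    apply Subtype.ext
    apply Prod.ext
    · exact map_mul e n m
    · change SemidirectProduct.inl (fun w => ι ((n * m) w)) =
        SemidirectProduct.inl (fun w => ι (n w)) * SemidirectProduct.inl (fun w => ι (m w))
      rw [← map_mul]
      congr 1
      funext w
      simp

theorem wB_conj (ι : G →* B) (hact : ∀ b g, ι (κ b g) = b * ι g * b⁻¹)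
    (b : Gam (Equiv.Perm Ω) Ω B) (n : Ω → G) :
    (SemidirectProduct.inl (fun w => ι (wB κ Ω b n w)) : Gam (Equiv.Perm Ω) Ω B) =
      b * SemidirectProduct.inl (fun w => ι (n w)) * b⁻¹ := by
  apply SemidirectProduct.ext
  · funext w
    change ι (wB κ Ω b n w) = _
    rw [wB_apply, hact]
    change b.left w * ι (n (b.right⁻¹ • w)) * (b.left w)⁻¹ =
      (b.left w * ι (n (b.right⁻¹ • w))) *
        (b.left ((b.right⁻¹)⁻¹ • ((b.right * 1)⁻¹ • w)))⁻¹
    rw [mul_one, inv_inv, smul_inv_smul]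
  · simp

theorem wB_eq_one [Nontrivial G] [DecidableEq Ω] (b : Gam (Equiv.Perm Ω) Ω B)
    (h : wB κ Ω b = 1) : b.right = 1 ∧ ∀ w, κ (b.left w) = 1 := by
  have h1 : ∀ (n : Ω → G) (w : Ω), κ (b.left w) (n (b.right⁻¹ • w)) = n w := by
    intro n w
    rw [← wB_apply, h]
    rfl
  obtain ⟨g, hg⟩ := exists_ne (1 : G)
  have h2 : b.right⁻¹ = 1 := by
    ext w
    by_contra hw
    have h3 := h1 (Pi.mulSingle w g) w
    have hw' : b.right⁻¹ • w ≠ w := hw
    rw [Pi.mulSingle_eq_same, Pi.mulSingle_eq_of_ne hw', map_one] at h3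
    exact hg h3.symm
  refine ⟨inv_eq_one.1 h2, fun w => ?_⟩
  ext x
  exact h1 (fun _ => x) w

end Glob

/-- An element of order dividing `ℓ` in the kernel of `κ` is trivial. -/
theorem ker_kap {G : Type} [Group G] [Finite G] (A : Subgroup (MulAut G)) (K₁ : Subgroup A)
    (ℓ : ℕ) [Fact ℓ.Prime] (hK : ¬ ℓ ∣ Nat.card K₁) (hG : pCore ℓ G = ⊥)
    (b : G ⋊[th A K₁] K₁) (hb : kap A K₁ b = 1) (hℓ : b ^ ℓ = 1) : b = 1 := by
  have hp : ℓ.Prime := Fact.out
  have h1 : b.right ^ ℓ = 1 := by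
    have := congrArg SemidirectProduct.rightHom hℓ
    rw [map_pow, map_one] at this
    exact this
  have h2 : b.right = 1 := by
    rcases (Nat.dvd_prime hp).1 (orderOf_dvd_of_pow_eq_one h1) with h | h
    · exact orderOf_eq_one_iff.1 h
    · exact absurd (h ▸ orderOf_dvd_natCard b.right) hK
  have h3 : b = SemidirectProduct.inl b.left := by
    ext
    · simp
    · simp [h2]
  obtain ⟨g, hg⟩ : ∃ g, g = b.left := ⟨_, rfl⟩
  rw [← hg] at h3
  have h4 : MulAut.conj g = 1 := by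
    rw [← kap_inl A K₁, ← h3, hb]
  have h5 : g ^ ℓ = 1 := by
    apply SemidirectProduct.inl_injective (φ := th A K₁)
    rw [map_pow, ← h3, hℓ, map_one]
  have hcen : ∀ x, g * x = x * g := by
    intro x
    have : MulAut.conj g x = x := by rw [h4]; rfl
    rw [MulAut.conj_apply] at this
    exact mul_inv_eq_iff_eq_mul.1 this
  have h6 : g ∈ pCore ℓ G := by
    have hn : (Subgroup.zpowers g).Normal := by
      refine ⟨fun x hx y => ?_⟩
      obtain ⟨k, rfl⟩ := hx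
      have : Commute y (g ^ k) := Commute.zpow_right (hcen y).symm k
      rw [this.eq, mul_inv_cancel_right]
      exact ⟨k, rfl⟩
    have hpg : IsPGroup ℓ (Subgroup.zpowers g) := by
      rintro ⟨x, k, rfl⟩
      refine ⟨1, ?_⟩
      apply Subtype.ext
      change (g ^ k) ^ (ℓ ^ 1) = 1
      rw [pow_one, ← zpow_natCast, ← zpow_mul, mul_comm, zpow_mul, zpow_natCast, h5, one_zpow]
    exact (le_sSup (show Subgroup.zpowers g ∈ {N : Subgroup G | N.Normal ∧ IsPGroup ℓ N} from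
      ⟨hn, hpg⟩)) (Subgroup.mem_zpowers g)
  rw [hG, Subgroup.mem_bot] at h6
  rw [h3, h6, map_one]

theorem surj_kap {G : Type} [Group G] (A : Subgroup (MulAut G)) (K₁ : Subgroup A)
    (hN : (((MulAut.conj : G →* MulAut G).range).subgroupOf A).Normal)
    (h : ((MulAut.conj : G →* MulAut G).range).subgroupOf A ⊔ K₁ = ⊤) (a : MulAut G)
    (ha : a ∈ A) : ∃ b, kap A K₁ b = a := by
  have h1 : (⟨a, ha⟩ : A) ∈ ((MulAut.conj : G →* MulAut G).range).subgroupOf A ⊔ K₁ := by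
    rw [h]
    exact Subgroup.mem_top _
  rw [← SetLike.mem_coe, Subgroup.normal_mul] at h1
  obtain ⟨x, hx, k, hk, hxk⟩ := Set.mem_mul.1 h1
  obtain ⟨g, hg⟩ := hx
  refine ⟨⟨g, ⟨k, hk⟩⟩, ?_⟩
  have h2 : (x : MulAut G) * (k : MulAut G) = a := congrArg Subtype.val hxk
  have hg' : MulAut.conj g = (x : MulAut G) := hg
  rw [← h2, ← hg']
  rfl

theorem normal_inn {G : Type} [Group G] (A : Subgroup (MulAut G)) :
    (((MulAut.conj : G →* MulAut G).range).subgroupOf A).Normal := by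
  have : ((MulAut.conj : G →* MulAut G).range).Normal := by
    refine ⟨fun x hx a => ?_⟩
    obtain ⟨g, rfl⟩ := hx
    refine ⟨a g, ?_⟩
    ext y
    change a g * y * (a g)⁻¹ = a (g * (a⁻¹ y) * g⁻¹)
    rw [map_mul, map_mul, MulAut.apply_inv_self, map_inv]
  exact Subgroup.normal_subgroupOf

instance finite_sd {N H : Type} [Group N] [Group H] (φ : H →* MulAut N) [Finite N] [Finite H] :
    Finite (N ⋊[φ] H) :=
  Finite.of_injective (fun b : N ⋊[φ] H => (b.left, b.right)) (by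
    intro a b h
    ext
    · exact congrArg Prod.fst h
    · exact congrArg Prod.snd h)

end CPB

open _root_.Pool.Agent.DPW.CPB in
theorem CPB_thm (h1 : Stmt_SCH) : Stmt_CPB := by
  intro X G Ω _ _ _ _ _ _ _ ℓ _ e c hcore hec hc A hA hrel hex
  have hp : ℓ.Prime := Fact.out
  have hN := CPB.normal_inn (G := G) A
  obtain ⟨K₁, hK, hsup⟩ := h1 A (((MulAut.conj : G →* MulAut G).range).subgroupOf A) ℓ hrel
  obtain ⟨ι, hι⟩ : ∃ ι : G →* G ⋊[th A K₁] K₁, ι = SemidirectProduct.inl := ⟨_, rfl⟩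
  obtain ⟨κ, hκ⟩ : ∃ κ : G ⋊[th A K₁] K₁ →* MulAut G, κ = kap A K₁ := ⟨_, rfl⟩
  have hloc : LocN ι κ SemidirectProduct.rightHom := by
    rw [hι, hκ]
    exact CPB.locN A K₁
  have hconj : ∀ g, κ (ι g) = MulAut.conj g := by
    intro g
    rw [hι, hκ]
    exact CPB.kap_inl A K₁ g
  have hfin : Finite (Gam (Equiv.Perm Ω) Ω (G ⋊[th A K₁] K₁)) := inferInstance
  have hact : ∀ y n, e' c κ ι hconj e hc (((wB κ Ω).comp (ph c κ)) y n) =
      y * e' c κ ι hconj e hc n * y⁻¹ := by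
    intro y n
    have hy : c y.1.1 = wB κ Ω y.1.2 := y.2
    apply Subtype.ext
    apply Prod.ext
    · change e (wB κ Ω y.1.2 n) = y.1.1 * e n * y.1.1⁻¹
      rw [← hy, hec]
    · exact CPB.wB_conj κ ι hloc.cl.act y.1.2 n
  have hnorm : (e' c κ ι hconj e hc).range.Normal := by
    refine ⟨fun x hx y => ?_⟩
    obtain ⟨n, rfl⟩ := hx
    exact ⟨_, hact y n⟩
  have hinj : ∀ n : Ω → G,
      (SemidirectProduct.inl (fun w => ι (n w)) : Gam (Equiv.Perm Ω) Ω (G ⋊[th A K₁] K₁)) = 1 →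
      n = 1 := by
    intro n hn
    have h2 : (fun w => ι (n w)) = 1 := SemidirectProduct.inl_injective
      (hn.trans (map_one (SemidirectProduct.inl :
        (Ω → G ⋊[th A K₁] K₁) →* Gam (Equiv.Perm Ω) Ω (G ⋊[th A K₁] K₁))).symm)
    funext w
    have h3 : ι (n w) = 1 := congrFun h2 w
    exact hloc.cl.inj (h3.trans (map_one ι).symm)
  refine ⟨XS c κ, G ⋊[th A K₁] K₁, K₁, XS c κ ⧸ (e' c κ ι hconj e hc).range, inferInstance,
    Fintype.ofFinite _, inferInstance, Fintype.ofFinite _, inferInstance, inferInstance,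
    q c κ, ι, κ, SemidirectProduct.rightHom, e' c κ ι hconj e hc, QuotientGroup.mk' _, ph c κ,
    ?_, ?_, hloc, hK, ?_, fun n => rfl, ?_⟩
  · -- surjective
    intro x
    obtain ⟨s, α, hα, hx⟩ := hex x
    have h2 : ∀ w, ∃ b, κ b = α w := by
      intro w
      rw [hκ]
      exact CPB.surj_kap A K₁ hN hsup (α w) (hα w)
    choose b hb using h2
    refine ⟨⟨(x, ⟨b, s⁻¹⟩), ?_⟩, rfl⟩
    rw [mem_XS]
    ext n w
    rw [hx, wB_apply, hb, inv_inv]
    rfl
  · -- the kernel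
    intro hdvd
    obtain ⟨y, hy⟩ := exists_prime_orderOf_dvd_card' (G := (q c κ).ker) ℓ hdvd
    have hy1 : (y : XS c κ).1.1 = 1 := y.2
    have hy2 : wB κ Ω (y : XS c κ).1.2 = 1 := by
      have : c (y : XS c κ).1.1 = wB κ Ω (y : XS c κ).1.2 := (y : XS c κ).2
      rw [← this, hy1, map_one]
    obtain ⟨h3, h4⟩ := CPB.wB_eq_one κ _ hy2
    have hpow : (y : XS c κ).1.2 ^ ℓ = 1 := by
      have h5 : y ^ ℓ = 1 := hy ▸ pow_orderOf_eq_one y
      have h6 := congrArg (fun z : (q c κ).ker => (z : XS c κ).1.2) h5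
      exact h6
    have hb : (y : XS c κ).1.2 = SemidirectProduct.inl (y : XS c κ).1.2.left := by
      apply SemidirectProduct.ext
      · simp
      · rw [h3, SemidirectProduct.right_inl]
    have hl : (y : XS c κ).1.2.left ^ ℓ = 1 := by
      rw [hb, ← map_pow] at hpow
      exact SemidirectProduct.inl_injective
        (hpow.trans (map_one (SemidirectProduct.inl :
        (Ω → G ⋊[th A K₁] K₁) →* Gam (Equiv.Perm Ω) Ω (G ⋊[th A K₁] K₁))).symm)
    have hl1 : (y : XS c κ).1.2.left = 1 := by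
      funext w
      refine CPB.ker_kap A K₁ ℓ hK hcore _ (hκ ▸ h4 w) ?_
      exact congrFun hl w
    have hy3 : y = 1 := by
      apply Subtype.ext
      apply Subtype.ext
      apply Prod.ext
      · exact hy1
      · change (y : XS c κ).1.2 = 1
        rw [hb, hl1, map_one]
    rw [hy3, orderOf_one] at hy
    exact hp.one_lt.ne hy
  · -- `ExtS`
    refine ⟨⟨?_, hact, ?_⟩, QuotientGroup.mk'_surjective _, fun n => rfl⟩
    · rw [injective_iff_map_eq_one]
      intro n hn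
      exact hinj n (congrArg (fun z : XS c κ => z.1.2) hn)
    · intro y
      exact QuotientGroup.eq_one_iff y
  · intro Z hZn hZp hZc
    refine ⟨(Z.prod ⊥).comap (XS c κ).subtype, ?_, ?_, ?_, ?_⟩
    · have := Subgroup.prod_normal Z (⊥ : Subgroup (Gam (Equiv.Perm Ω) Ω (G ⋊[th A K₁] K₁)))
      exact Subgroup.normal_comap _
    · rintro ⟨y, hy⟩
      have hy' : y.1.1 ∈ Z ∧ y.1.2 = 1 := hy
      obtain ⟨k, hk⟩ := hZp ⟨y.1.1, hy'.1⟩
      refine ⟨k, ?_⟩
      apply Subtype.ext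
      apply Subtype.ext
      apply Prod.ext
      · exact congrArg Subtype.val hk
      · change y.1.2 ^ (ℓ ^ k) = 1
        rw [hy'.2, one_pow]
    · rw [eq_bot_iff]
      rintro y ⟨hy1, n, rfl⟩
      have hy' : (e' c κ ι hconj e hc n).1.1 ∈ Z ∧ (e' c κ ι hconj e hc n).1.2 = 1 := hy1
      rw [Subgroup.mem_bot, hinj n hy'.2, map_one]
    · ext x
      constructor
      · rintro ⟨y, hy, rfl⟩
        exact hy.1
      · intro hx
        refine ⟨⟨(x, 1), ?_⟩, ⟨hx, rfl⟩, rfl⟩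
        rw [mem_XS]
        change c x = wB κ Ω 1
        rw [hZc x hx, map_one]

end Pool.Agent.DPW


end
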