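import Mathlib
import Pool.Agent.DAM.C08
import Pool.Agent.DAM.C14
import Pool.Agent.DAM.C48

/-! Parts: DP.FIXR, DPV.TWV -/

section

/-!
# Module FIXR: chains and characters with prescribed transports, automorphisms
-/

namespace Pool.Agent.DP.FIXR

open Pool.Agent.Lib_helper13 Representation FIX

/-! ### Characters -/

section IrrOn

variable {G : Type} [Group G]

theorem irrOn_aut [Fintype G] {S : Subgroup G} {f : G → ℂ} (h : IrrOn S f) (a : MulAut G) :
    IrrOn (S.map a.toMonoidHom) (fun x => f (a⁻¹ x)) := by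
  refine ⟨?_, ?_⟩
  · have h1 := h.1.comp_mulEquiv
      (S.equivMapOfInjective a.toMonoidHom a.injective).symm
    have h2 : (fun s : S => f s) ∘
        (S.equivMapOfInjective a.toMonoidHom a.injective).symm =
        fun s : S.map a.toMonoidHom => f (a⁻¹ s) := by
      ext s'
      obtain ⟨s, rfl⟩ := (S.equivMapOfInjective a.toMonoidHom
        a.injective).surjective s'
      rw [Function.comp_apply, MulEquiv.symm_apply_apply,
        Subgroup.coe_equivMapOfInjective_apply]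
      change f s = f (a⁻¹ (a s))
      rw [MulAut.inv_apply_self]
    rw [h2] at h1
    exact h1
  · intro x hx
    apply h.2
    intro h3
    apply hx
    refine ⟨a⁻¹ x, h3, ?_⟩
    change a (a⁻¹ x) = x
    exact MulAut.apply_inv_self _ _ _

theorem stb_image_aut [DecidableEq (Subgroup G)] (σ : Finset (Subgroup G)) (a : MulAut G) :
    stb (σ.image (fun K => K.map a.toMonoidHom)) = (stb σ).map a.toMonoidHom := by
  have key : ∀ (x : G) (K : Subgroup G),
      (K.map a.toMonoidHom).map (MulAut.conj (a x)).toMonoidHom = K.map a.toMonoidHom ↔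
      K.map (MulAut.conj x).toMonoidHom = K := by
    intro x K
    have h1 : (K.map a.toMonoidHom).map (MulAut.conj (a x)).toMonoidHom =
        (K.map (MulAut.conj x).toMonoidHom).map a.toMonoidHom := by
      rw [Subgroup.map_map, Subgroup.map_map]
      congr 1
      ext z
      change a x * a z * (a x)⁻¹ = a (x * z * x⁻¹)
      rw [map_mul, map_mul, map_inv]
    rw [h1]
    exact (Subgroup.map_injective a.injective).eq_iff
  ext x
  obtain ⟨y, rfl⟩ := a.surjective x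
  rw [mem_stb]
  constructor
  · intro h
    refine ⟨y, ?_, rfl⟩
    change y ∈ stb σ
    rw [mem_stb]
    intro K hK
    exact (key y K).1 (h _ (Finset.mem_image_of_mem _ hK))
  · rintro ⟨z, hz, hz'⟩ D hD
    have h2 : z = y := a.injective hz'
    subst h2
    obtain ⟨K, hK, rfl⟩ := Finset.mem_image.1 hD
    rw [key]
    exact mem_stb.1 hz K hK

end IrrOn

/-! ### Subgroups -/

section Sub

variable {O Q G : Type} [Group G]

theorem aut_one' : (1 : MulAut G).toMonoidHom = MonoidHom.id G := by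
  ext x
  simp

/-- expansion -/
def B (q : O → Q) (g : O → MulAut G) (D : Subgroup (Q → G)) : Subgroup (O → G) :=
  pK (fun o => (prj (q o) D).map (g o).toMonoidHom)

theorem prj_B (q : O → Q) (g : O → MulAut G) (D : Subgroup (Q → G)) (o : O) :
    prj o (B q g D) = (prj (q o) D).map (g o).toMonoidHom :=
  prj_pK _ o

theorem B_mono (q : O → Q) (g : O → MulAut G) {D E : Subgroup (Q → G)} (h : D ≤ E) :
    B q g D ≤ B q g E :=
  pK_le_pK.2 fun _ => Subgroup.map_mono (Subgroup.map_mono h)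

theorem cl_B (q : O → Q) (g : O → MulAut G) (D : Subgroup (Q → G)) :
    cl (B q g D) = B q g D := cl_pK _

theorem F_B {q : O → Q} {s : Q → O} {g : O → MulAut G} (hq : ∀ w, q (s w) = w)
    (hg : ∀ w, g (s w) = 1) {D : Subgroup (Q → G)} (hD : cl D = D) :
    FIX.F s (B q g D) = D := by
  conv_rhs => rw [← hD]
  unfold FIX.F cl
  congr 1
  ext1 w
  rw [prj_B, hq, hg, aut_one', Subgroup.map_id]

theorem B_F {q : O → Q} {s : Q → O} {g : O → MulAut G} {D : Subgroup (O → G)} (hD : cl D = D)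
    (h : ∀ o, (prj (s (q o)) D).map (g o).toMonoidHom = prj o D) :
    B q g (FIX.F s D) = D := by
  conv_rhs => rw [← hD]
  unfold B cl
  congr 1
  ext1 o
  rw [FIX.prj_F, h]

theorem B_bot (q : O → Q) (g : O → MulAut G) : B q g (⊥ : Subgroup (Q → G)) = ⊥ := by
  unfold B
  have h : (fun o => (prj (q o) (⊥ : Subgroup (Q → G))).map (g o).toMonoidHom) =
      fun _ => (⊥ : Subgroup G) := by
    ext1 o
    change ((⊥ : Subgroup (Q → G)).map (Pi.evalMonoidHom (fun _ => G) (q o))).map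
      (g o).toMonoidHom = ⊥
    rw [Subgroup.map_bot, Subgroup.map_bot]
  rw [h, pK_bot]

variable [Fintype O] [DecidableEq O] [Fintype Q] [DecidableEq Q] [Fintype G]

theorem comp_B [DecidableEq (Subgroup (O → G))] [DecidableEq (Subgroup G)] (q : O → Q)
    (g : O → MulAut G) (τ : Finset (Subgroup (Q → G))) (o : O) :
    comp (τ.image (B q g)) o =
      (comp τ (q o)).image (fun K => K.map (g o).toMonoidHom) := by
  ext K
  rw [mem_comp, Finset.mem_image]
  constructor
  · rintro ⟨h1, D, hD, rfl⟩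
    obtain ⟨E, hE, rfl⟩ := Finset.mem_image.1 hD
    rw [prj_B] at h1 ⊢
    refine ⟨prj (q o) E, mem_comp.2 ⟨?_, E, hE, rfl⟩, rfl⟩
    intro h2
    rw [h2, Subgroup.map_bot] at h1
    exact h1 rfl
  · rintro ⟨L, hL, rfl⟩
    obtain ⟨h1, E, hE, rfl⟩ := mem_comp.1 hL
    refine ⟨?_, B q g E, Finset.mem_image_of_mem _ hE, prj_B q g E o⟩
    intro h2
    rw [Subgroup.map_eq_bot_iff_of_injective _ (g o).injective] at h2
    exact h1 h2

theorem image_F_mem [DecidableEq (Subgroup (Q → G))] {ℓ : ℕ} {q : O → Q} {s : Q → O}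
    {g : O → MulAut G} {τ : Finset (Subgroup (O → G))} (hτ : τ ∈ ClCh O G ℓ)
    (h : ∀ D ∈ τ, ∀ o, (prj (s (q o)) D).map (g o).toMonoidHom = prj o D) :
    τ.image (FIX.F s) ∈ ClCh Q G ℓ := by
  rw [mem_ClCh] at hτ ⊢
  obtain ⟨⟨h1, h2⟩, h3⟩ := hτ
  refine ⟨⟨?_, ?_⟩, ?_⟩
  · intro D hD
    obtain ⟨E, hE, rfl⟩ := Finset.mem_image.1 hD
    obtain ⟨h4, h5⟩ := h1 E hE
    refine ⟨isPGroup_pK fun w => isPGroup_prj h4 _, ?_⟩
    rw [bot_lt_iff_ne_bot]
    intro h6
    apply h5.ne'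
    have h7 := B_F (q := q) (s := s) (g := g) (h3 E hE) (h E hE)
    rw [← h7, h6, B_bot]
  · intro D hD E hE _
    obtain ⟨D', hD', rfl⟩ := Finset.mem_image.1 (Finset.mem_coe.1 hD)
    obtain ⟨E', hE', rfl⟩ := Finset.mem_image.1 (Finset.mem_coe.1 hE)
    rcases IsCh.total (ℓ := ℓ) (Z := ⊥) ⟨h1, h2⟩ hD' hE' with h4 | h4
    · exact Or.inl (FIX.F_mono s h4)
    · exact Or.inr (FIX.F_mono s h4)
  · intro D hD
    obtain ⟨E, hE, rfl⟩ := Finset.mem_image.1 hD
    exact FIX.cl_F s E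

theorem image_B_mem [DecidableEq (Subgroup (O → G))] {ℓ : ℕ} {q : O → Q} {s : Q → O}
    {g : O → MulAut G} (hq : ∀ w, q (s w) = w) (hg : ∀ w, g (s w) = 1)
    {τ : Finset (Subgroup (Q → G))} (hτ : τ ∈ ClCh Q G ℓ) :
    τ.image (B q g) ∈ ClCh O G ℓ := by
  rw [mem_ClCh] at hτ ⊢
  obtain ⟨⟨h1, h2⟩, h3⟩ := hτ
  refine ⟨⟨?_, ?_⟩, ?_⟩
  · intro D hD
    obtain ⟨E, hE, rfl⟩ := Finset.mem_image.1 hD
    obtain ⟨h4, h5⟩ := h1 E hE
    refine ⟨isPGroup_pK fun o => (isPGroup_prj h4 _).map _, ?_⟩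
    rw [bot_lt_iff_ne_bot]
    intro h6
    apply h5.ne'
    have h7 := F_B hq hg (h3 E hE)
    rw [← h7, h6, FIX.F_bot]
  · intro D hD E hE _
    obtain ⟨D', hD', rfl⟩ := Finset.mem_image.1 (Finset.mem_coe.1 hD)
    obtain ⟨E', hE', rfl⟩ := Finset.mem_image.1 (Finset.mem_coe.1 hE)
    rcases IsCh.total (ℓ := ℓ) (Z := ⊥) ⟨h1, h2⟩ hD' hE' with h4 | h4
    · exact Or.inl (B_mono q g h4)
    · exact Or.inr (B_mono q g h4)
  · intro D hD
    obtain ⟨E, hE, rfl⟩ := Finset.mem_image.1 hD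
    exact cl_B q g E

end Sub

end Pool.Agent.DP.FIXR

namespace Pool.Agent.DP

open Pool.Agent.Lib_helper13 Representation

/-- FIXR: chains and characters with prescribed transports. -/
theorem FIXR_thm : Stmt_FIXR := by
  classical
  intro O Q G B _ _ _ _ _ _ _ ℓ κ q s g hq hg' H
  obtain ⟨a, ha⟩ : ∃ a : O → MulAut G, a = fun o => κ (g o) := ⟨_, rfl⟩
  have ha' : ∀ o, κ (g o) = a o := fun o => by rw [ha]
  have hg : ∀ w, a (s w) = 1 := fun w => by rw [← ha', hg', map_one]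
  simp only [trB, ha', Finset.mul_sum]
  rw [Finset.sum_sigma', Finset.sum_sigma']
  symm
  refine Finset.sum_bij'
    (fun p _ => (⟨p.1.image (FIXR.B q a), fun o x => p.2 (q o) ((a o)⁻¹ x)⟩ :
      (_ : Finset (Subgroup (O → G))) × (O → G → ℂ)))
    (fun p _ => (⟨p.1.image (FIX.F s), fun w => p.2 (s w)⟩ :
      (_ : Finset (Subgroup (Q → G))) × (Q → G → ℂ))) ?_ ?_ ?_ ?_ ?_
  · rintro ⟨τ, θ⟩ hp
    rw [Finset.mem_sigma, Fintype.mem_piFinset] at hp
    obtain ⟨hτ, hθ⟩ := hp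
    rw [Finset.mem_sigma, Finset.mem_filter, Fintype.mem_piFinset]
    refine ⟨FIXR.image_B_mem hq hg hτ, ?_, ?_⟩
    · intro o
      change (fun x => θ (q o) ((a o)⁻¹ x)) ∈ irrOn (stb (comp (τ.image (FIXR.B q a)) o))
      rw [FIX.mem_irrOn, FIXR.comp_B, FIXR.stb_image_aut]
      exact FIXR.irrOn_aut (FIX.mem_irrOn.1 (hθ (q o))) (a o)
    · intro o
      refine ⟨?_, ?_⟩
      · intro D hD
        obtain ⟨E, hE, rfl⟩ := Finset.mem_image.1 hD
        rw [FIXR.prj_B, FIXR.prj_B, hq, hg, FIXR.aut_one', Subgroup.map_id]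
      · intro x
        change θ (q o) ((a o)⁻¹ (a o x)) = θ (q (s (q o))) ((a (s (q o)))⁻¹ x)
        rw [hq, hg, MulAut.inv_apply_self, inv_one, MulAut.one_apply]
  · rintro ⟨τ, θ⟩ hp
    rw [Finset.mem_sigma, Finset.mem_filter, Fintype.mem_piFinset] at hp
    obtain ⟨hτ, hθ, htr⟩ := hp
    rw [Finset.mem_sigma, Fintype.mem_piFinset]
    refine ⟨FIXR.image_F_mem hτ fun D hD o => (htr o).1 D hD, fun w => ?_⟩
    change θ (s w) ∈ irrOn (stb (comp (τ.image (FIX.F s)) w))
    rw [FIX.comp_F]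
    exact hθ (s w)
  · rintro ⟨τ, θ⟩ hp
    rw [Finset.mem_sigma, Fintype.mem_piFinset] at hp
    obtain ⟨hτ, hθ⟩ := hp
    have hτ' := (mem_ClCh.1 hτ).2
    have e1 : (τ.image (FIXR.B q a)).image (FIX.F s) = τ := by
      rw [Finset.image_image]
      ext D
      rw [Finset.mem_image]
      constructor
      · rintro ⟨E, hE, rfl⟩
        rw [Function.comp_apply, FIXR.F_B hq hg (hτ' E hE)]
        exact hE
      · intro hD
        exact ⟨D, hD, FIXR.F_B hq hg (hτ' D hD)⟩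
    have e2 : (fun w x => θ (q (s w)) ((a (s w))⁻¹ x)) = θ := by
      ext w x
      rw [hq, hg, inv_one, MulAut.one_apply]
    simp only [e1, e2]
  · rintro ⟨τ, θ⟩ hp
    rw [Finset.mem_sigma, Finset.mem_filter, Fintype.mem_piFinset] at hp
    obtain ⟨hτ, hθ, htr⟩ := hp
    have hτ' := (mem_ClCh.1 hτ).2
    have e0 : ∀ D ∈ τ, FIXR.B q a (FIX.F s D) = D := fun D hD =>
      FIXR.B_F (hτ' D hD) fun o => (htr o).1 D hD
    have e1 : (τ.image (FIX.F s)).image (FIXR.B q a) = τ := by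
      rw [Finset.image_image]
      ext D
      rw [Finset.mem_image]
      constructor
      · rintro ⟨E, hE, rfl⟩
        rw [Function.comp_apply, e0 E hE]
        exact hE
      · intro hD
        exact ⟨D, hD, e0 D hD⟩
    have e2 : (fun o x => θ (s (q o)) ((a o)⁻¹ x)) = θ := by
      ext o x
      have h2 : θ o (a o ((a o)⁻¹ x)) = θ (s (q o)) ((a o)⁻¹ x) := (htr o).2 ((a o)⁻¹ x)
      rw [← h2, MulAut.apply_inv_self]
    simp only [e1, e2]
  · rintro ⟨τ, θ⟩ hp
    rw [Finset.mem_sigma, Fintype.mem_piFinset] at hp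
    obtain ⟨hτ, hθ⟩ := hp
    have hτ' := (mem_ClCh.1 hτ).2
    have e1 : (τ.image (FIXR.B q a)).card = τ.card := by
      apply Finset.card_image_of_injOn
      intro D hD E hE h
      rw [← FIXR.F_B hq hg (hτ' D hD), ← FIXR.F_B hq hg (hτ' E hE)]
      exact congrArg (FIX.F s) h
    have e2 : (fun w => comp (τ.image (FIXR.B q a)) (s w)) = fun w => comp τ w := by
      ext1 w
      rw [FIXR.comp_B, hq, hg]
      have h3 : (fun K : Subgroup G => K.map (1 : MulAut G).toMonoidHom) = id := by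
        ext1 K
        rw [FIXR.aut_one', Subgroup.map_id]
        rfl
      rw [h3, Finset.image_id]
    have e3 : (fun w x => θ (q (s w)) ((a (s w))⁻¹ x)) = θ := by
      ext w x
      rw [hq, hg, inv_one, MulAut.one_apply]
    simp only [e1, e2, e3]

end Pool.Agent.DP


end

section

/-!
# Twists of standard data (arbitrary outer automorphisms)
-/

namespace Pool.Agent.DPV

open Pool.Agent.DP Pool.Agent.Lib_helper13 Representation
open Pool.Agent.Lib_helper13.Dade (pCore DadeHolds dadeSum)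

namespace TWV

/-- Twists of irreducible characters by linear characters. -/
theorem isIrr_tw {Y : Type*} [Group Y] [Finite Y] {η : Y → ℂ} (h : IsIrr η) (c : Y →* ℂˣ) :
    IsIrr (fun y => η y * ((c y : ℂˣ) : ℂ)) := by
  have : Fintype Y := Fintype.ofFinite _
  refine (h.isChr.mul (isChr_lin c)).isIrr ?_
  rw [← h.sum_self]
  refine Finset.sum_congr rfl fun y _ => ?_
  rw [map_inv]
  have h1 : ((c y : ℂˣ) : ℂ) * (((c y)⁻¹ : ℂˣ) : ℂ) = 1 := (c y).mul_inv
  calc η y * ((c y : ℂˣ) : ℂ) * (η y⁻¹ * (((c y)⁻¹ : ℂˣ) : ℂ))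
      = (η y * η y⁻¹) * (((c y : ℂˣ) : ℂ) * (((c y)⁻¹ : ℂˣ) : ℂ)) := by ring
    _ = η y * η y⁻¹ := by rw [h1, mul_one]

theorem isIrr_tw_iff {Y : Type*} [Group Y] [Finite Y] {η : Y → ℂ} (c : Y →* ℂˣ) :
    IsIrr (fun y => η y * ((c y : ℂˣ) : ℂ)) ↔ IsIrr η := by
  refine ⟨fun h => ?_, fun h => isIrr_tw h c⟩
  have h1 := isIrr_tw h c⁻¹
  have h2 : (fun y => (fun y => η y * ((c y : ℂˣ) : ℂ)) y * (((c⁻¹ : Y →* ℂˣ) y : ℂˣ) : ℂ)) = η := by
    funext y
    have h3 : ((c y : ℂˣ) : ℂ) * (((c y)⁻¹ : ℂˣ) : ℂ) = 1 := (c y).mul_inv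
    change η y * ((c y : ℂˣ) : ℂ) * (((c y)⁻¹ : ℂˣ) : ℂ) = η y
    rw [mul_assoc, h3, mul_one]
  rw [h2] at h1
  exact h1

section

variable {O G B C Y K X : Type} [Fintype O] [DecidableEq O] [Group G] [Group B] [Group C]
  [Group Y] [Group K] [Group X]
variable {ℓ : ℕ} {ι : G →* B} {κ : B →* MulAut G} {ρ : B →* C} {j : (O → G) →* Y} {p : Y →* K}
  {φ : Y →* Gam (Equiv.Perm O) O B} {J : Subgroup K} {U : O → Subgroup C} {g : O → B}
  {S : O → Subgroup B} {θ : O → B → ℂ} {m : O → ℕ} {M : O → B → ℕ → ℕ → ℂ}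

theorem rho_iota (hL : LocV ι κ ρ) (x : G) : ρ (ι x) = 1 := (hL.cl.ker _).mpr ⟨x, rfl⟩

omit [Fintype O] [DecidableEq O] in
/-- The cocycle. -/
theorem zz_mul (x y : Y) (o : O) :
    zz φ g (x * y) o = zz φ g x o * zz φ g y ((φ x).right⁻¹ • o) := by
  unfold zz
  rw [map_mul]
  change (g o)⁻¹ * ((φ x).left o * (φ y).left ((φ x).right⁻¹ • o)) *
    g (((φ x).right * (φ y).right)⁻¹ • o) = _
  rw [mul_inv_rev, mul_smul]
  group

omit [Fintype O] [DecidableEq O] in
theorem rho_zz (hL : LocV ι κ ρ) (hE : ExtS ι κ j p φ) {x y : Y} (h : p x = p y) (o : O) :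
    ρ (zz φ g x o) = ρ (zz φ g y o) := by
  have h1 : p (x * y⁻¹) = 1 := by rw [map_mul, map_inv, h, mul_inv_cancel]
  obtain ⟨a, ha⟩ := (hE.cl.ker _).mp h1
  have h2 : x = j a * y := by rw [ha, inv_mul_cancel_right]
  have h3 : (φ (j a)).right = 1 := by rw [hE.jn]; rfl
  have h4 : (φ (j a)).left = fun o => ι (a o) := by rw [hE.jn]; rfl
  rw [h2, zz_mul, h3, inv_one, one_smul]
  unfold zz
  rw [h4, h3]
  simp only [map_mul, map_inv, rho_iota hL, inv_one, one_smul, mul_one, inv_mul_cancel, one_mul]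

omit [Fintype O] [DecidableEq O] in
theorem mem_U (hD : SDV ℓ ι ρ p φ J U g S θ m M) {y : Y} (hy : p y ∈ J) (o : O) :
    ρ (zz φ g y o) ∈ U o := by
  rw [← hD.img o]
  exact hD.adp y hy o

omit [Fintype O] [DecidableEq O] in
theorem U_inv (hD : SDV ℓ ι ρ p φ J U g S θ m M) {x : Y} (hx : p x ∈ J) (o : O) :
    U ((φ x).right⁻¹ • o) = U o := by
  rw [← hD.img, ← hD.img o]
  have h : S ((φ x).right • ((φ x).right⁻¹ • o)) = S ((φ x).right⁻¹ • o) := hD.cS x hx _
  rw [smul_inv_smul] at h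
  rw [h]

/-- The factor. -/
noncomputable def L0 (φ : Y →* Gam (Equiv.Perm O) O B) (g : O → B) (ρ : B →* C)
    (lam : O → C → ℂ) (y : Y) : ℂ := ∏ o, lam o (ρ (zz φ g y o))

omit [DecidableEq O] in
theorem L0_congr (hL : LocV ι κ ρ) (hE : ExtS ι κ j p φ) (lam : O → C → ℂ) {x y : Y}
    (h : p x = p y) : L0 φ g ρ lam x = L0 φ g ρ lam y :=
  Finset.prod_congr rfl fun o _ => by rw [rho_zz hL hE h]

omit [DecidableEq O] in
theorem L0_one {lam : O → C → ℂ} (hlin : ∀ o, LinOn (U o) (lam o)) :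
    L0 φ g ρ lam 1 = 1 := by
  unfold L0
  refine Finset.prod_eq_one fun o _ => ?_
  have h : zz φ g 1 o = 1 := by
    unfold zz
    rw [map_one]
    change (g o)⁻¹ * 1 * g ((1 : Equiv.Perm O)⁻¹ • o) = 1
    rw [inv_one, one_smul, mul_one, inv_mul_cancel]
  rw [h, map_one, (hlin o).1]

omit [DecidableEq O] in
theorem L0_mul (hD : SDV ℓ ι ρ p φ J U g S θ m M) {lam : O → C → ℂ}
    (hlin : ∀ o, LinOn (U o) (lam o))
    (hlam : ∀ y, p y ∈ J → ∀ o, lam ((φ y).right • o) = lam o) {x y : Y}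
    (hx : p x ∈ J) (hy : p y ∈ J) :
    L0 φ g ρ lam (x * y) = L0 φ g ρ lam x * L0 φ g ρ lam y := by
  unfold L0
  have h1 : ∀ o, lam o (ρ (zz φ g (x * y) o)) = lam o (ρ (zz φ g x o)) *
      lam ((φ x).right⁻¹ • o) (ρ (zz φ g y ((φ x).right⁻¹ • o))) := by
    intro o
    have h2 : lam ((φ x).right⁻¹ • o) = lam o := by
      rw [← hlam x hx, smul_inv_smul]
    have h3 : ρ (zz φ g y ((φ x).right⁻¹ • o)) ∈ U o := by
      rw [← U_inv hD hx o]
      exact mem_U hD hy _
    rw [zz_mul, map_mul, (hlin o).2 _ (mem_U hD hx o) _ h3, h2]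
  rw [Finset.prod_congr rfl fun o _ => h1 o, Finset.prod_mul_distrib]
  congr 1
  exact Fintype.prod_equiv (MulAction.toPerm ((φ x).right⁻¹)) _ _ fun o => rfl

/-- The linear character of `J`, with complex values. -/
noncomputable def Lr (hL : LocV ι κ ρ) (hE : ExtS ι κ j p φ)
    (hD : SDV ℓ ι ρ p φ J U g S θ m M) (lam : O → C → ℂ) (hlin : ∀ o, LinOn (U o) (lam o))
    (hlam : ∀ y, p y ∈ J → ∀ o, lam ((φ y).right • o) = lam o) : J →* ℂ where
  toFun k := L0 φ g ρ lam (Function.surjInv hE.surj (k : K))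
  map_one' := by
    have h : p (Function.surjInv hE.surj ((1 : J) : K)) = p 1 := by
      rw [Function.surjInv_eq hE.surj, map_one]
      rfl
    rw [L0_congr hL hE lam h, L0_one hlin]
  map_mul' a b := by
    have ha : p (Function.surjInv hE.surj (a : K)) = a := Function.surjInv_eq hE.surj _
    have hb : p (Function.surjInv hE.surj (b : K)) = b := Function.surjInv_eq hE.surj _
    have hab : p (Function.surjInv hE.surj ((a * b : J) : K)) = (a * b : J) :=
      Function.surjInv_eq hE.surj _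
    rw [← L0_mul hD hlin hlam (by rw [ha]; exact a.2) (by rw [hb]; exact b.2)]
    refine L0_congr hL hE lam ?_
    rw [map_mul, ha, hb, hab]
    rfl

/-- The linear character of `J`. -/
noncomputable def Lc (hL : LocV ι κ ρ) (hE : ExtS ι κ j p φ)
    (hD : SDV ℓ ι ρ p φ J U g S θ m M) (lam : O → C → ℂ) (hlin : ∀ o, LinOn (U o) (lam o))
    (hlam : ∀ y, p y ∈ J → ∀ o, lam ((φ y).right • o) = lam o) : J →* ℂˣ :=
  (Lr hL hE hD lam hlin hlam).toHomUnits

omit [DecidableEq O] in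
theorem Lc_apply (hL : LocV ι κ ρ) (hE : ExtS ι κ j p φ)
    (hD : SDV ℓ ι ρ p φ J U g S θ m M) (lam : O → C → ℂ) (hlin : ∀ o, LinOn (U o) (lam o))
    (hlam : ∀ y, p y ∈ J → ∀ o, lam ((φ y).right • o) = lam o) (k : J) (y : Y)
    (hy : p y = (k : K)) :
    L0 φ g ρ lam y = ((Lc hL hE hD lam hlin hlam k : ℂˣ) : ℂ) := by
  change L0 φ g ρ lam y = L0 φ g ρ lam (Function.surjInv hE.surj (k : K))
  refine L0_congr hL hE lam ?_
  rw [hy]
  exact (Function.surjInv_eq hE.surj _).symm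

/-- The twisted function `TH`. -/
theorem TH_tw (m : O → ℕ) (M : O → B → ℕ → ℕ → ℂ) (lam : O → C → ℂ) (k : Equiv.Perm O)
    (n : O → B) : TH m (fun o x a b => M o x a b * lam o (ρ x)) k n =
      (∏ o, lam o (ρ (n o))) * TH m M k n := by
  unfold TH
  rw [Finset.mul_sum]
  refine Finset.sum_congr rfl fun f _ => ?_
  rw [Finset.prod_mul_distrib, mul_comm]

/-- The twisted weighted sum. -/
theorem AS_tw [Fintype Y] (hL : LocV ι κ ρ) (hE : ExtS ι κ j p φ)
    (hD : SDV ℓ ι ρ p φ J U g S θ m M) (lam : O → C → ℂ) (hlin : ∀ o, LinOn (U o) (lam o))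
    (hlam : ∀ y, p y ∈ J → ∀ o, lam ((φ y).right • o) = lam o) (k : J) (F : Y → ℂ) :
    AS p φ g S (fun o x => θ o x * lam o (ρ x)) m
      (fun o x a b => M o x a b * lam o (ρ x)) (k : K) F =
      ((Lc hL hE hD lam hlin hlam k : ℂˣ) : ℂ) * AS p φ g S θ m M (k : K) F := by
  classical
  unfold AS
  rw [← mul_div_assoc, Finset.mul_sum]
  congr 1
  · refine Finset.sum_congr rfl fun y _ => ?_
    split_ifs with h
    · rw [TH_tw, ← Lc_apply hL hE hD lam hlin hlam k y h.1]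
      unfold L0
      ring
    · rw [mul_zero]
  · refine Finset.prod_congr rfl fun o _ => ?_
    change θ o 1 * lam o (ρ 1) = θ o 1
    rw [map_one, (hlin o).1, mul_one]

end

end TWV

open _root_.Pool.Agent.DPV.TWV in
theorem TWV_thm : Stmt_TWV := by
  intro O G B C Y K X _ _ _ _ _ _ _ _ _ _ _ _ 𝔐 ℓ ι κ ρ hL j p φ hE J U g S θ m M hD lam hlin
    hlam
  have hres : ∀ o, (fun h => θ o (ι h) * lam o (ρ (ι h))) = fun h => θ o (ι h) := by
    intro o
    funext h
    rw [rho_iota hL, (hlin o).1, mul_one]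
  have hU : ∀ o, ∀ s ∈ S o, ρ s ∈ U o := by
    intro o s hs
    rw [← hD.img o]
    exact ⟨s, hs, rfl⟩
  refine ⟨⟨hD.cS, ?_, hD.cm, ?_, ?_, ?_, ?_, ?_, hD.img, hD.adp⟩, ?_⟩
  · intro y hy o
    funext x
    rw [hD.cθ y hy, hlam y hy]
  · intro y hy o
    funext x a b
    rw [hD.cM y hy, hlam y hy]
  · intro o
    refine ⟨?_, ?_⟩
    · exact isIrr_tw (hD.irr o).1 (MonoidHom.toHomUnits
        ({ toFun := fun s => lam o (ρ (s : B))
           map_one' := by
             change lam o (ρ 1) = 1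
             rw [map_one]
             exact (hlin o).1
           map_mul' := fun s t => by
             change lam o (ρ ((s : B) * (t : B))) = _
             rw [map_mul]
             exact (hlin o).2 _ (hU o s s.2) _ (hU o t t.2) } : S o →* ℂ))
    · intro x hx
      change θ o x * _ = 0
      rw [(hD.irr o).2 x hx, zero_mul]
  · intro o
    rw [hres o]
    exact hD.res o
  · intro o
    have h := hD.md o
    refine ⟨?_, ?_, ?_⟩
    · intro a ha b hb
      rw [map_one, (hlin o).1, mul_one]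
      exact h.one a ha b hb
    · intro s hs t ht a ha b hb
      rw [h.mul s hs t ht a ha b hb, map_mul, (hlin o).2 _ (hU o s hs) _ (hU o t ht),
        Finset.sum_mul]
      refine Finset.sum_congr rfl fun k _ => ?_
      ring
    · intro s hs
      rw [h.tr s hs, Finset.sum_mul]
  · intro o
    rw [hres o]
    exact hD.dz o
  · intro d e i ω
    unfold NNR
    congr 2
    set c := Lc hL hE hD lam hlin hlam with hc
    have hc1 : ((c 1 : ℂˣ) : ℂ) = 1 := by rw [map_one, Units.val_one]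
    refine Nat.card_congr (Equiv.subtypeEquiv
      { toFun := fun η k => η k * ((c k : ℂˣ) : ℂ)
        invFun := fun η k => η k * (((c k)⁻¹ : ℂˣ) : ℂ)
        left_inv := fun η => funext fun k => by
          simp
        right_inv := fun η => funext fun k => by
          simp } fun η => ?_)
    change _ ↔ IsIrr (fun k => η k * ((c k : ℂˣ) : ℂ)) ∧
      (∃ d', HasDefect ℓ (fun k => η k * ((c k : ℂˣ) : ℂ)) d' ∧ e + d' = d) ∧
      ∀ x, red 𝔐 (wt (fun k => η k * ((c k : ℂˣ) : ℂ))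
        (fun k => AS p φ g S θ m M (k : K) (fun y => conjInd (i y) x))) = ω x
    rw [isIrr_tw_iff]
    have h1 : ∀ d', HasDefect ℓ (fun k => η k * ((c k : ℂˣ) : ℂ)) d' ↔ HasDefect ℓ η d' := by
      intro d'
      unfold HasDefect
      simp only [hc1, mul_one]
    have h2 : ∀ x, wt (fun k => η k * ((c k : ℂˣ) : ℂ))
        (fun k => AS p φ g S θ m M (k : K) (fun y => conjInd (i y) x)) =
        wt η (fun k => AS p φ g S (fun o x => θ o x * lam o (ρ x)) m
          (fun o x a b => M o x a b * lam o (ρ x)) (k : K)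
          (fun y => conjInd (i y) x)) := by
      intro x
      unfold wt
      simp only [hc1, mul_one]
      congr 1
      refine Finset.sum_congr rfl fun k _ => ?_
      rw [AS_tw hL hE hD lam hlin hlam k, ← hc]
      ring
    simp only [h1, h2]

end Pool.Agent.DPV


end
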