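import Mathlib
import Pool.Agent.DAM.C13
import Pool.Agent.DAM.C14
import Pool.Agent.DAM.C15
import Pool.Agent.DAM.C19
import Pool.Agent.DAM.C23
import Pool.Agent.DAM.C26
import Pool.Agent.DAM.C35
import Pool.Agent.DAM.C47
import Pool.Agent.DAM.C48
import Pool.Agent.DAM.C63

/-! Parts: DPM.TD, DPN.YFR, DPT.LAYG, DPV.TJV, DPV.CYCV, DPV.LVB, DPW.TJP, DPW.CPZ -/

section

/-!
# The twisted chain sums vanish above the top defect (module TD)
-/

set_option linter.unusedSectionVars false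

namespace Pool.Agent.DPM

open Pool.Agent.DP Pool.Agent.DPC Pool.Agent.Lib_helper13 Representation
open Pool.Agent.Lib_helper13.Dade (pCore DadeHolds dadeSum)

namespace TD

/-- Counting characters according to the value of a function. -/
theorem card_split {Y : Type*} [Group Y] [Fintype Y] {β : Type*} (P : (Y → ℂ) → Prop)
    (f : (Y → ℂ) → β) (C : Finset β) (hC : ∀ ψ : Y → ℂ, IsIrr ψ → f ψ ∈ C) :
    Nat.card {ψ : Y → ℂ // IsIrr ψ ∧ P ψ} =
      ∑ c ∈ C, Nat.card {ψ : Y → ℂ // IsIrr ψ ∧ P ψ ∧ f ψ = c} := by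
  classical
  have hfin : ∀ Q : (Y → ℂ) → Prop, (Set.Finite {ψ : Y → ℂ | IsIrr ψ ∧ Q ψ}) :=
    fun Q => finite_isIrr.subset fun θ h => h.1
  have hcard : ∀ Q : (Y → ℂ) → Prop, Nat.card {ψ : Y → ℂ // IsIrr ψ ∧ Q ψ} =
      (hfin Q).toFinset.card := by
    intro Q
    have : Nat.card {ψ : Y → ℂ // IsIrr ψ ∧ Q ψ} = Nat.card (hfin Q).toFinset :=
      Nat.card_congr (Equiv.subtypeEquivRight fun θ => by simp)
    rw [this, Nat.card_eq_fintype_card, Fintype.card_coe]
  rw [hcard, Finset.card_eq_sum_card_fiberwise (f := f) (t := C)]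
  · refine Finset.sum_congr rfl fun c _ => ?_
    rw [hcard]
    congr 1
    ext ψ
    simp only [Finset.mem_filter, Set.Finite.mem_toFinset, Set.mem_ofPred_eq]
    tauto
  · intro ψ hψ
    simp only [Set.Finite.coe_toFinset, Set.mem_ofPred_eq] at hψ
    exact hC ψ hψ.1

theorem card_comap {L K : Type*} [Group L] [Finite L] [Group K] [Finite K] (π : L →* K)
    (hs : Function.Surjective π) (V : Subgroup K) :
    Nat.card ↥(V.comap π) = Nat.card π.ker * Nat.card V := by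
  have h1 : (V.comap π).index = V.index := V.index_comap_of_surjective hs
  have h2 : (V.comap π).index * Nat.card ↥(V.comap π) = Nat.card L :=
    (V.comap π).index_mul_card
  have h3 : V.index * Nat.card V = Nat.card K := V.index_mul_card
  have h4 : π.ker.index * Nat.card π.ker = Nat.card L := π.ker.index_mul_card
  have h5 : π.ker.index = Nat.card K := by
    rw [Subgroup.index_ker, MonoidHom.range_eq_top.mpr hs]
    exact Nat.card_congr Subgroup.topEquiv.toEquiv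
  have h6 : 0 < V.index := Nat.pos_of_ne_zero Subgroup.index_ne_zero_of_finite
  have h7 : V.index * Nat.card ↥(V.comap π) = V.index * (Nat.card π.ker * Nat.card V) := by
    rw [h1] at h2
    rw [h2, ← h4, h5, ← h3]
    ring
  exact Nat.eq_of_mul_eq_mul_left h6 h7

end TD

open Classical in
theorem TD_thm (h1 : Stmt_TWC) (h2 : Stmt_TWN) (h3 : Stmt_ISOL) (h4 : Stmt_CHC)
    (h5 : Stmt_DZC) : Stmt_TD := by
  intro A T K _ _ _ _ _ _ 𝔐 ℓ _ hmax hℓ j c p hcl hp hcore hHQ θ hθ hinv a e ha he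
  obtain ⟨Γ, L, iΓ, fΓ, iL, fL, e', q, r, E, U, μ, π, tw⟩ := h1 A T K j c p hcl hp θ hθ hinv
  -- the number of characters of the twisted group
  have hcount : ∀ V : Subgroup K, Nat.card {ψ : ↥(V.comap p) → ℂ // IsIrr ψ ∧
        ip (fun a : A => ext0 ψ (j a)) θ ≠ 0 ∧ HasDefect ℓ ψ (a + e)} =
      Nat.card {η : ↥(V.comap π) → ℂ // IsIrr η ∧ (OvL U μ _ η ∧
        HasDefect ℓ η (e + padicValNat ℓ (Nat.card U)))} := by
    intro V
    obtain ⟨-, -, -, -, -, -, h7, h8⟩ := h2 A T K Γ L ℓ j c p hcl hp θ hθ hinv e' q r E U μ π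
      tw V
    apply h8
    intro ψ η hψ _ hη _ hcor
    obtain ⟨d, hd⟩ := hψ.exists_defect (ℓ := ℓ)
    obtain ⟨d', hd'⟩ := hη.exists_defect (ℓ := ℓ)
    have h9 := h7 ψ η a d d' hη hcor ha hd hd'
    constructor
    · intro h
      have h10 := hd.unique h
      have h11 : d' = e + padicValNat ℓ (Nat.card U) := by omega
      rw [← h11]
      exact hd'
    · intro h
      have h10 := hd'.unique h
      have h11 : d = a + e := by omega
      rw [← h11]
      exact hd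
  by_contra hne
  simp only [hcount] at hne
  -- split according to the central function
  have hfin : (⋃ σ ∈ Ch ℓ (⊥ : Subgroup K), {x : L → (integralClosure ℤ ℂ) ⧸ 𝔐 |
      ∃ ψ : ↥((stb σ).comap π) → ℂ, IsIrr ψ ∧
      cen 𝔐 ((stb σ).comap π).subtype ψ = x}).Finite := by
    apply Set.Finite.biUnion (Finset.finite_toSet _)
    intro τ _
    exact finite_cen 𝔐 _
  have hC : ∀ σ ∈ Ch ℓ (⊥ : Subgroup K), ∀ ψ : ↥((stb σ).comap π) → ℂ, IsIrr ψ →
      cen 𝔐 ((stb σ).comap π).subtype ψ ∈ hfin.toFinset := by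
    intro σ hσ ψ hψ
    rw [Set.Finite.mem_toFinset, Set.mem_iUnion₂]
    exact ⟨σ, hσ, ψ, hψ, rfl⟩
  have hsplit : ∑ σ ∈ Ch ℓ (⊥ : Subgroup K), (-1 : ℚ) ^ σ.card * ((Nat.card (stb σ) : ℚ) *
      Nat.card {η : ↥((stb σ).comap π) → ℂ // IsIrr η ∧ (OvL U μ _ η ∧
        HasDefect ℓ η (e + padicValNat ℓ (Nat.card U)))}) =
      ∑ x ∈ hfin.toFinset, ∑ σ ∈ Ch ℓ (⊥ : Subgroup K),
        ((-1 : ℚ) ^ σ.card * (Nat.card (stb σ) : ℚ)) *
        Nat.card {η : ↥((stb σ).comap π) → ℂ // IsIrr η ∧ OvL U μ _ η ∧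
          HasDefect ℓ η (e + padicValNat ℓ (Nat.card U)) ∧
          cen 𝔐 ((stb σ).comap π).subtype η = x} := by
    rw [Finset.sum_comm]
    refine Finset.sum_congr rfl fun σ hσ => ?_
    rw [TD.card_split (fun η : ↥((stb σ).comap π) → ℂ => OvL U μ _ η ∧
        HasDefect ℓ η (e + padicValNat ℓ (Nat.card U)))
      (fun η => cen 𝔐 ((stb σ).comap π).subtype η) hfin.toFinset (hC σ hσ)]
    rw [Nat.cast_sum, Finset.mul_sum, Finset.mul_sum]
    refine Finset.sum_congr rfl fun x _ => ?_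
    rw [mul_assoc]
    congr 3
    exact Nat.card_congr (Equiv.subtypeEquivRight fun θ => by tauto)
  rw [hsplit] at hne
  obtain ⟨x, -, hx⟩ := Finset.exists_ne_zero_of_sum_ne_zero hne
  -- isolation
  have hUS : ∀ σ ∈ Ch ℓ (⊥ : Subgroup K), U ≤ (stb σ).comap π := by
    intro σ _ u hu
    rw [Subgroup.mem_comap, (tw.πk u).mpr hu]
    exact one_mem _
  obtain ⟨L', iL', fL', q', d', c', hq's, hq'U, hq'p, hd', hsum, -⟩ :=
    h3 L (Finset (Subgroup K)) 𝔐 ℓ hmax hℓ U μ tw.Uc tw.cyc tw.inj (Ch ℓ (⊥ : Subgroup K))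
      (fun σ => (-1 : ℚ) ^ σ.card * (Nat.card (stb σ) : ℚ)) (fun σ => (stb σ).comap π) hUS
      (e + padicValNat ℓ (Nat.card U)) x hx
  -- the projection of the quotient
  have hker : q'.ker ≤ π.ker := by
    intro l hl
    exact (tw.πk l).mpr (hq'U hl)
  let π' : L' →* K := q'.liftOfSurjective hq's ⟨π, hker⟩
  have hπ' : ∀ l, π' (q' l) = π l := fun l => MonoidHom.liftOfRightInverse_comp_apply _ _ _ _ l
  have hπ's : Function.Surjective π' := by
    intro k
    obtain ⟨l, hl⟩ := tw.πs k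
    exact ⟨q' l, by rw [hπ', hl]⟩
  have hπ'k : π'.ker = U.map q' := by
    ext l'
    obtain ⟨l, rfl⟩ := hq's l'
    rw [MonoidHom.mem_ker, hπ', tw.πk, Subgroup.mem_map]
    constructor
    · intro h
      exact ⟨l, h, rfl⟩
    · rintro ⟨u, hu, hul⟩
      have h6 : u⁻¹ * l ∈ q'.ker := by
        rw [MonoidHom.mem_ker, map_mul, map_inv, hul, inv_mul_cancel]
      have h7 := U.mul_mem hu (hq'U h6)
      rwa [mul_inv_cancel_left] at h7
  have hcent : π'.ker ≤ Subgroup.center L' := by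
    rw [hπ'k]
    rintro _ ⟨u, hu, rfl⟩
    rw [Subgroup.mem_center_iff]
    intro g
    obtain ⟨l, rfl⟩ := hq's g
    rw [← map_mul, ← map_mul, Subgroup.mem_center_iff.mp (tw.Uc hu) l]
  have hmap : ∀ V : Subgroup K, (V.comap π).map q' = V.comap π' := by
    intro V
    ext l'
    obtain ⟨l, rfl⟩ := hq's l'
    rw [Subgroup.mem_comap, hπ', Subgroup.mem_map]
    constructor
    · rintro ⟨u, hu, hul⟩
      rw [Subgroup.mem_comap] at hu
      rwa [← hπ', ← hul, hπ']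
    · intro h
      exact ⟨l, h, rfl⟩
  obtain ⟨h6, h7, h8⟩ := h4 L' K ℓ π' hπ's hcent hcore
  have h9 : KK 𝔐 ℓ d' (pCore ℓ L') c' ≠ 0 := by
    have h10 := h8 (fun S => Nat.card S * cnt 𝔐 ℓ d' S.subtype c')
    rw [KK, h10]
    have h11 : ∑ σ ∈ Ch ℓ (⊥ : Subgroup K), (-1 : ℚ) ^ σ.card *
        ((Nat.card ↥((stb σ).comap π') : ℚ) * cnt 𝔐 ℓ d' ((stb σ).comap π').subtype c') =
        (Nat.card π'.ker : ℚ) * ∑ σ ∈ Ch ℓ (⊥ : Subgroup K),
          (-1 : ℚ) ^ σ.card * (Nat.card (stb σ) : ℚ) *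
            cnt 𝔐 ℓ d' (((stb σ).comap π).map q').subtype c' := by
      rw [Finset.mul_sum]
      refine Finset.sum_congr rfl fun σ _ => ?_
      rw [TD.card_comap π' hπ's, hmap, Nat.cast_mul]
      ring
    rw [h11]
    refine mul_ne_zero ?_ hsum
    exact Nat.cast_ne_zero.mpr Nat.card_pos.ne'
  have h12 : (Subgroup.center L').index ≤ Nat.card K := by
    have h13 : π'.ker.index = Nat.card K := by
      rw [Subgroup.index_ker, MonoidHom.range_eq_top.mpr hπ's]
      exact Nat.card_congr Subgroup.topEquiv.toEquiv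
    rw [← h13]
    exact Nat.le_of_dvd (Nat.pos_of_ne_zero Subgroup.index_ne_zero_of_finite)
      (Subgroup.index_dvd_of_le hcent)
  have h14 : DadeHolds ℓ L' := hHQ L' h6 h12
  obtain ⟨h15, -⟩ := h5 L' 𝔐 ℓ hmax hℓ h6 h14 d' c' h9
  rw [h7] at h15
  have h16 : d' ≤ padicValNat ℓ (Nat.card π'.ker) :=
    (Nat.pow_le_pow_iff_right (Fact.out : ℓ.Prime).one_lt).mp h15
  have h17 : Nat.card U = Nat.card π'.ker * Nat.card q'.ker := by
    have h18 := TD.card_comap q' hq's (U.map q')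
    rw [Subgroup.comap_map_eq_self hq'U] at h18
    rw [h18, hπ'k, mul_comm]
  have h19 : padicValNat ℓ (Nat.card U) = padicValNat ℓ (Nat.card π'.ker) +
      padicValNat ℓ (Nat.card q'.ker) := by
    rw [h17, padicValNat.mul Nat.card_pos.ne' Nat.card_pos.ne']
  omega

end Pool.Agent.DPM


end

section

/-!
# The chain sums of the fibre product vanish (module YFR)
-/

set_option linter.unusedSectionVars false

namespace Pool.Agent.DPN

open Pool.Agent.DP Pool.Agent.DPC Pool.Agent.DPM Pool.Agent.Lib_helper13 Representation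
open Pool.Agent.Lib_helper13.Dade (pCore DadeHolds dadeSum)

namespace YFR

/-- The order of an inverse image. -/
theorem card_comap {L K : Type} [Group L] [Finite L] [Group K] [Finite K] (π : L →* K)
    (hs : Function.Surjective π) (V : Subgroup K) :
    Nat.card ↥(V.comap π) = Nat.card π.ker * Nat.card V := by
  have h1 : (V.comap π).index = V.index := V.index_comap_of_surjective hs
  have h2 : (V.comap π).index * Nat.card ↥(V.comap π) = Nat.card L :=
    (V.comap π).index_mul_card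
  have h3 : V.index * Nat.card V = Nat.card K := V.index_mul_card
  have h4 : π.ker.index * Nat.card π.ker = Nat.card L := π.ker.index_mul_card
  have h5 : π.ker.index = Nat.card K := by
    rw [Subgroup.index_ker, MonoidHom.range_eq_top.mpr hs]
    exact Nat.card_congr Subgroup.topEquiv.toEquiv
  have h6 : 0 < V.index := Nat.pos_of_ne_zero Subgroup.index_ne_zero_of_finite
  have h7 : V.index * Nat.card ↥(V.comap π) = V.index * (Nat.card π.ker * Nat.card V) := by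
    rw [h1] at h2
    rw [h2, ← h4, h5, ← h3]
    ring
  exact Nat.eq_of_mul_eq_mul_left h6 h7

/-- The order of a subgroup: kernel and image. -/
theorem card_inf_ker {V H : Type} [Group V] [Finite V] [Group H] (g : V →* H) (V' : Subgroup V) :
    Nat.card V' = Nat.card ↥(V' ⊓ g.ker) * Nat.card (V'.map g) := by
  have h1 : (g.comp V'.subtype).ker.index * Nat.card (g.comp V'.subtype).ker = Nat.card V' :=
    (g.comp V'.subtype).ker.index_mul_card
  have h2 : (g.comp V'.subtype).ker.index = Nat.card (V'.map g) := by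
    rw [Subgroup.index_ker, MonoidHom.range_comp, Subgroup.range_subtype]
  have h3 : Nat.card (g.comp V'.subtype).ker = Nat.card ↥(V' ⊓ g.ker) := by
    refine Nat.card_congr
      { toFun := fun x => ⟨((x : V') : V), (x : V').2, x.2⟩
        invFun := fun x => ⟨⟨(x : V), x.2.1⟩, x.2.2⟩
        left_inv := fun x => rfl
        right_inv := fun x => rfl }
  rw [← h1, h2, h3, mul_comm]

/-- A proper subgroup has at most half of the elements. -/
theorem two_card_le {H : Type} [Group H] [Finite H] (S : Subgroup H) (hS : S ≠ ⊤) :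
    2 * Nat.card S ≤ Nat.card H := by
  have h1 : S.index * Nat.card S = Nat.card H := S.index_mul_card
  have h2 : S.index ≠ 0 := Subgroup.index_ne_zero_of_finite
  have h3 : S.index ≠ 1 := fun h => hS (Subgroup.index_eq_one.mp h)
  have h4 : 2 ≤ S.index := by omega
  calc 2 * Nat.card S ≤ S.index * Nat.card S := Nat.mul_le_mul_right _ h4
    _ = Nat.card H := h1

section

variable {O X H V : Type} [Group O] [Finite O] [Group X] [Finite X] [Group H] [Finite H]
  [Group V] [Finite V] {j : O →* X} {c : X →* MulAut O} {p : X →* H} (h : ClG j c p) (g : V →* H)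

theorem fsnd_surj (hp : Function.Surjective p) : Function.Surjective (fsnd p g) := by
  intro v
  obtain ⟨x, hx⟩ := hp (g v)
  exact ⟨⟨(x, v), hx⟩, rfl⟩

include h

theorem finj_inj : Function.Injective (finj h g) := (clG_f h g).inj

theorem card_ker : Nat.card (fsnd p g).ker = Nat.card O := by
  have h1 : (fsnd p g).ker = (finj h g).range := by
    ext y
    exact (clG_f h g).ker y
  rw [h1]
  exact (Nat.card_congr (MonoidHom.ofInjective (finj_inj h g)).toEquiv).symm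

theorem card_X (hp : Function.Surjective p) : Nat.card X = Nat.card O * Nat.card H := by
  have h1 : p.ker = j.range := by
    ext y
    exact h.ker y
  have h2 : p.ker.index * Nat.card p.ker = Nat.card X := p.ker.index_mul_card
  have h3 : p.ker.index = Nat.card H := by
    rw [Subgroup.index_ker, MonoidHom.range_eq_top.mpr hp]
    exact Nat.card_congr Subgroup.topEquiv.toEquiv
  have h4 : Nat.card p.ker = Nat.card O := by
    rw [h1]
    exact (Nat.card_congr (MonoidHom.ofInjective h.inj).toEquiv).symm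
  rw [← h2, h3, h4, mul_comm]

/-- The central elements `(x, v)` with `x` central and `g v = 1`. -/
theorem card_center_ge (hc : Subgroup.center X ≤ j.range) (hg : g.ker ≤ Subgroup.center V)
    (V' : Subgroup V) :
    Nat.card (Subgroup.center X) * Nat.card ↥(V' ⊓ g.ker) ≤
      Nat.card (Subgroup.center ↥(V'.comap (fsnd p g))) := by
  rw [← Nat.card_prod]
  have hpx : ∀ x : Subgroup.center X, p x = 1 := fun x => (h.ker _).mpr (hc x.2)
  have hmem : ∀ (x : Subgroup.center X) (v : ↥(V' ⊓ g.ker)),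
      (((x : X), (v : V)) : X × V) ∈ fpr p g := by
    intro x v
    rw [mem_fpr]
    have h1 : g (v : V) = 1 := v.2.2
    rw [h1]
    exact hpx x
  have hmem' : ∀ (x : Subgroup.center X) (v : ↥(V' ⊓ g.ker)),
      (⟨((x : X), (v : V)), hmem x v⟩ : fpr p g) ∈ V'.comap (fsnd p g) := by
    intro x v
    exact v.2.1
  refine Nat.card_le_card_of_injective
    (fun y : Subgroup.center X × ↥(V' ⊓ g.ker) =>
      (⟨⟨⟨((y.1 : X), (y.2 : V)), hmem y.1 y.2⟩, hmem' y.1 y.2⟩, ?_⟩ :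
        Subgroup.center ↥(V'.comap (fsnd p g)))) ?_
  · rw [Subgroup.mem_center_iff]
    intro z
    apply Subtype.ext
    apply Subtype.ext
    apply Prod.ext
    · exact Subgroup.mem_center_iff.mp y.1.2 _
    · exact Subgroup.mem_center_iff.mp (hg y.2.2.2) _
  · intro y z hyz
    have h1 := congrArg (fun w : Subgroup.center ↥(V'.comap (fsnd p g)) =>
      (((w : ↥(V'.comap (fsnd p g))) : fpr p g) : X × V)) hyz
    apply Prod.ext
    · apply Subtype.ext
      exact congrArg Prod.fst h1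
    · apply Subtype.ext
      exact congrArg Prod.snd h1

/-- The index of the centre. -/
theorem index_le (hp : Function.Surjective p) (hc : Subgroup.center X ≤ j.range) (n : ℕ)
    (hn : (Subgroup.center X).index ≤ n + 1) (hg : g.ker ≤ Subgroup.center V)
    (hgs : ¬ Function.Surjective g) (V' : Subgroup V) :
    (Subgroup.center ↥(V'.comap (fsnd p g))).index ≤ n := by
  have h1 : Nat.card ↥(V'.comap (fsnd p g)) = Nat.card O * Nat.card V' := by
    rw [card_comap (fsnd p g) (fsnd_surj g hp) V', card_ker h g]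
  have h2 := card_inf_ker g V'
  have h3 := card_center_ge h g hc hg V'
  have h4 : (Subgroup.center ↥(V'.comap (fsnd p g))).index *
      Nat.card (Subgroup.center ↥(V'.comap (fsnd p g))) = Nat.card ↥(V'.comap (fsnd p g)) :=
    Subgroup.index_mul_card _
  have h5 : (Subgroup.center X).index * Nat.card (Subgroup.center X) = Nat.card X :=
    Subgroup.index_mul_card _
  have h6 := card_X h hp
  have h7 : 2 * Nat.card (V'.map g) ≤ Nat.card H := by
    apply two_card_le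
    intro ht
    apply hgs
    intro y
    have hy : y ∈ V'.map g := by rw [ht]; trivial
    obtain ⟨v, _, hv⟩ := hy
    exact ⟨v, hv⟩
  have h8 : (Subgroup.center ↥(V'.comap (fsnd p g))).index ≠ 0 :=
    Subgroup.index_ne_zero_of_finite
  have h9 : 0 < Nat.card (Subgroup.center X) := Nat.card_pos
  have h10 : 0 < Nat.card ↥(V' ⊓ g.ker) := Nat.card_pos
  generalize (Subgroup.center ↥(V'.comap (fsnd p g))).index = a at *
  generalize Nat.card (Subgroup.center ↥(V'.comap (fsnd p g))) = b at *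
  generalize Nat.card ↥(V'.comap (fsnd p g)) = e at *
  generalize Nat.card (Subgroup.center X) = z at *
  generalize Nat.card ↥(V' ⊓ g.ker) = k at *
  generalize Nat.card (V'.map g) = m at *
  generalize (Subgroup.center X).index = i at *
  have h11 : a * z * k ≤ Nat.card O * m * k := by
    calc a * z * k = a * (z * k) := by ring
      _ ≤ a * b := Nat.mul_le_mul_left _ h3
      _ = Nat.card O * m * k := by rw [h4, h1, h2]; ring
  have h12 : a * z ≤ Nat.card O * m := Nat.le_of_mul_le_mul_right h11 h10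
  have h13 : 2 * a * z ≤ i * z := by
    calc 2 * a * z = 2 * (a * z) := by ring
      _ ≤ 2 * (Nat.card O * m) := Nat.mul_le_mul_left _ h12
      _ = Nat.card O * (2 * m) := by ring
      _ ≤ Nat.card O * Nat.card H := Nat.mul_le_mul_left _ h7
      _ = i * z := by rw [h5, h6]
  have h14 : 2 * a ≤ i := Nat.le_of_mul_le_mul_right h13 h9
  omega

theorem map_le (Z : Subgroup O) (V' : Subgroup V) :
    Z.map (finj h g) ≤ V'.comap (fsnd p g) := by
  rintro _ ⟨z, _, rfl⟩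
  rw [Subgroup.mem_comap]
  have h1 : fsnd p g (finj h g z) = 1 := ((clG_f h g).ker _).mpr ⟨z, rfl⟩
  rw [h1]
  exact one_mem _

theorem card_Z (Z : Subgroup O) (V' : Subgroup V) :
    Nat.card ↥((Z.map (finj h g)).subgroupOf (V'.comap (fsnd p g))) = Nat.card Z := by
  rw [Nat.card_congr (Subgroup.subgroupOfEquivOfLe (map_le h g Z V')).toEquiv]
  exact (Nat.card_congr (Z.equivMapOfInjective (finj h g) (finj_inj h g)).toEquiv).symm

theorem center_Z (Z : Subgroup O) (hZ : Z.map j ≤ Subgroup.center X) (V' : Subgroup V) :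
    (Z.map (finj h g)).subgroupOf (V'.comap (fsnd p g)) ≤ Subgroup.center _ := by
  intro y hy
  rw [Subgroup.mem_subgroupOf] at hy
  obtain ⟨z, hz, hzy⟩ := hy
  rw [Subgroup.mem_center_iff]
  intro w
  apply Subtype.ext
  apply Subtype.ext
  have h1 : ((y : fpr p g) : X × V) = (j z, 1) := by
    rw [← hzy]
    rfl
  have h2 : j z ∈ Subgroup.center X := hZ ⟨z, hz, rfl⟩
  change ((w : fpr p g) : X × V) * ((y : fpr p g) : X × V) =
    ((y : fpr p g) : X × V) * ((w : fpr p g) : X × V)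
  rw [h1]
  apply Prod.ext
  · exact Subgroup.mem_center_iff.mp h2 _
  · change ((w : fpr p g) : X × V).2 * 1 = 1 * ((w : fpr p g) : X × V).2
    rw [mul_one, one_mul]

theorem pgroup_Z (ℓ : ℕ) (Z : Subgroup O) (hZ : IsPGroup ℓ Z) (V' : Subgroup V) :
    IsPGroup ℓ ↥((Z.map (finj h g)).subgroupOf (V'.comap (fsnd p g))) :=
  (hZ.map (finj h g)).comap_of_injective _ (Subgroup.subtype_injective _)

end

end YFR

theorem YFR_thm (h1 : Stmt_DKV) : Stmt_YFR := by
  intro O X H V _ _ _ _ _ _ _ _ 𝔐 ℓ _ hM hℓ j c p h hp n hHQ hc hn Z hZ hZc g hg hgs d hd P V'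
  have : Fintype ↥(fpr p g) := Fintype.ofFinite _
  exact h1 _ _ 𝔐 ℓ hM hℓ n hHQ (YFR.index_le h g hp hc n hn hg hgs V') _
    (YFR.center_Z h g Z hZc V') (YFR.pgroup_Z h g ℓ Z hZ V') d
    (by rw [YFR.card_Z h g Z V']; exact hd) _ P

end Pool.Agent.DPN


end

section

/-!
# Module LAYG: a normal subgroup on which an abelian group acts through a cyclic group
-/

set_option autoImplicit false

namespace Pool.Agent.DPT

namespace LAYG

/-! ### Schur's lemma -/

section Ring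

open scoped IsMulCommutative

variable {V : Type} [AddCommGroup V] [Finite V] [Nontrivial V] {S : Type} [Group S]

/-- A commutative group of operators without invariant subgroups is cyclic. -/
theorem schur (ρ : S →* AddMonoid.End V) (hc : ∀ s t, ρ s * ρ t = ρ t * ρ s)
    (hs : ∀ H : AddSubgroup V, (∀ s, ∀ x ∈ H, ρ s x ∈ H) → H = ⊥ ∨ H = ⊤) :
    ∃ s₀ : S, ∀ s, ∃ i : ℤ, ρ (s * s₀ ^ i) = 1 := by
  classical
  have hcomm : ∀ x ∈ Set.range ρ, ∀ y ∈ Set.range ρ, x * y = y * x := by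
    rintro _ ⟨s, rfl⟩ _ ⟨t, rfl⟩
    exact hc s t
  let A : Subring (AddMonoid.End V) := Subring.closure (Set.range ρ)
  have hcA : IsMulCommutative A := Subring.isMulCommutative_closure hcomm
  let _ : CommRing A := inferInstance
  have hmem : ∀ s, ρ s ∈ A := fun s => Subring.subset_closure ⟨s, rfl⟩
  have hcs : ∀ (f : A) (s : S) (x : V), ρ s ((f : AddMonoid.End V) x) =
      (f : AddMonoid.End V) (ρ s x) := by
    intro f s x
    have h1 : (⟨ρ s, hmem s⟩ : A) * f = f * ⟨ρ s, hmem s⟩ := mul_comm _ _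
    have h2 : ρ s * (f : AddMonoid.End V) = (f : AddMonoid.End V) * ρ s :=
      congrArg (fun g : A => (g : AddMonoid.End V)) h1
    exact DFunLike.congr_fun h2 x
  have hinj : ∀ f : A, f ≠ 0 → ∀ x : V, (f : AddMonoid.End V) x = 0 → x = 0 := by
    intro f hf x hx
    let H : AddSubgroup V := AddMonoidHom.ker (f : AddMonoid.End V)
    rcases hs H (by
      intro s y hy
      have hy' : (f : AddMonoid.End V) y = 0 := hy
      change (f : AddMonoid.End V) (ρ s y) = 0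
      rw [← hcs, hy', map_zero]) with h | h
    · have h1 : x ∈ H := hx
      rw [h] at h1
      exact h1
    · exfalso
      apply hf
      apply Subtype.ext
      apply AddMonoidHom.ext
      intro y
      have h1 : y ∈ H := by
        rw [h]
        exact AddSubgroup.mem_top y
      exact h1
  have : NoZeroDivisors A := by
    constructor
    intro f g hfg
    by_cases hf : f = 0
    · exact Or.inl hf
    · right
      apply Subtype.ext
      apply AddMonoidHom.ext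
      intro y
      apply hinj f hf
      have h1 : ((f * g : A) : AddMonoid.End V) y = 0 := by
        rw [hfg]
        rfl
      exact h1
  have : Nontrivial A := by
    obtain ⟨v, hv⟩ := exists_ne (0 : V)
    refine ⟨⟨0, 1, ?_⟩⟩
    intro h
    have h1 := congrArg (fun g : A => (g : AddMonoid.End V) v) h
    exact hv h1.symm
  have : IsDomain A := NoZeroDivisors.to_isDomain A
  have : Finite (AddMonoid.End V) := DFunLike.finite (AddMonoid.End V)
  have : Finite A := Subtype.finite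
  have : Finite Aˣ := inferInstance
  let ρ' : S →* A := ρ.codRestrict A hmem
  let ρu : S →* Aˣ := ρ'.toHomUnits
  have hcyc : IsCyclic ρu.range := inferInstance
  obtain ⟨⟨g, t, rfl⟩, hg⟩ := hcyc.exists_generator
  refine ⟨t, fun s => ?_⟩
  obtain ⟨i, hi⟩ := hg ⟨ρu s, s, rfl⟩
  refine ⟨-i, ?_⟩
  have h1 : ρu t ^ i = ρu s := congrArg Subtype.val hi
  have h2 : ρu (s * t ^ (-i)) = 1 := by
    rw [map_mul, map_zpow, ← h1, ← zpow_add, add_neg_cancel, zpow_zero]
  have h3 := congrArg (fun u : Aˣ => ((u : A) : AddMonoid.End V)) h2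
  exact h3

end Ring

/-! ### Actions on finite groups -/

/-- The multiplicative form of Schur's lemma. -/
theorem schurG {Q : Type} [Group Q] [Finite Q] [Nontrivial Q] (hQ : ∀ a b : Q, a * b = b * a)
    {S : Type} [Group S] (φ : S → (Q →* Q)) (h1 : ∀ x, φ 1 x = x)
    (hm : ∀ s t x, φ (s * t) x = φ s (φ t x)) (hc : ∀ s t x, φ s (φ t x) = φ t (φ s x))
    (hs : ∀ H : Subgroup Q, (∀ s, ∀ x ∈ H, φ s x ∈ H) → H = ⊥ ∨ H = ⊤) :
    ∃ s₀ : S, ∀ s, ∃ i : ℤ, ∀ x, φ (s * s₀ ^ i) x = x := by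
  let _ : CommGroup Q := { (inferInstance : Group Q) with mul_comm := hQ }
  let ρ : S →* AddMonoid.End (Additive Q) :=
    { toFun := fun s => MonoidHom.toAdditive (φ s)
      map_one' := by
        apply AddMonoidHom.ext
        intro x
        exact h1 x
      map_mul' := by
        intro s t
        apply AddMonoidHom.ext
        intro x
        exact hm s t x }
  obtain ⟨s₀, h₀⟩ := schur (V := Additive Q) ρ (by
    intro s t
    apply AddMonoidHom.ext
    intro x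
    exact hc s t x) (by
    intro H hH
    let K : Subgroup Q := AddSubgroup.toSubgroup' H
    rcases hs K (fun s x hx => hH s x hx) with h | h
    · left
      ext x
      have h2 : x.toMul ∈ K ↔ x.toMul ∈ (⊥ : Subgroup Q) := by rw [h]
      exact h2
    · right
      ext x
      have h2 : x.toMul ∈ K ↔ x.toMul ∈ (⊤ : Subgroup Q) := by rw [h]
      exact h2)
  refine ⟨s₀, fun s => ?_⟩
  obtain ⟨i, hi⟩ := h₀ s
  exact ⟨i, fun x => DFunLike.congr_fun hi (Additive.ofMul x)⟩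

/-! ### The layer -/

section Grp

variable {G : Type} [Group G]

/-- The elements of `R` which are central modulo `R₀`. -/
def Zc (R R₀ : Subgroup G) (hn : ∀ r ∈ R, ∀ x ∈ R₀, r * x * r⁻¹ ∈ R₀) : Subgroup G where
  carrier := {z | z ∈ R ∧ ∀ r ∈ R, z * r * z⁻¹ * r⁻¹ ∈ R₀}
  one_mem' := ⟨R.one_mem, fun r _ => by
    rw [one_mul, inv_one, mul_one, mul_inv_cancel]
    exact R₀.one_mem⟩
  mul_mem' := by
    rintro a b ⟨ha, ha'⟩ ⟨hb, hb'⟩
    refine ⟨R.mul_mem ha hb, fun r hr => ?_⟩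
    have h1 : a * b * r * (a * b)⁻¹ * r⁻¹ =
        (a * (b * r * b⁻¹ * r⁻¹) * a⁻¹) * (a * r * a⁻¹ * r⁻¹) := by group
    rw [h1]
    exact R₀.mul_mem (hn a ha _ (hb' r hr)) (ha' r hr)
  inv_mem' := by
    rintro a ⟨ha, ha'⟩
    refine ⟨R.inv_mem ha, fun r hr => ?_⟩
    have h1 : a⁻¹ * r * a⁻¹⁻¹ * r⁻¹ = a⁻¹ * (a * r * a⁻¹ * r⁻¹)⁻¹ * a⁻¹⁻¹ := by group
    rw [h1]
    exact hn _ (R.inv_mem ha) _ (R₀.inv_mem (ha' r hr))

theorem exists_central [Finite G] {ℓ : ℕ} [Fact ℓ.Prime] {R R₀ : Subgroup G} (hR : IsPGroup ℓ R)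
    (hlt : R₀ < R) (hn : ∀ r ∈ R, ∀ x ∈ R₀, r * x * r⁻¹ ∈ R₀) : R₀ < Zc R R₀ hn := by
  refine lt_of_le_not_ge (fun x hx => ⟨hlt.le hx, fun r hr => ?_⟩) ?_
  · have h1 : x * r * x⁻¹ * r⁻¹ = x * (r * x⁻¹ * r⁻¹) := by group
    rw [h1]
    exact R₀.mul_mem hx (hn r hr _ (R₀.inv_mem hx))
  · intro hle
    let N : Subgroup R := R₀.subgroupOf R
    have hN : N.Normal := ⟨fun x hx r => hn r r.2 x hx⟩
    have hne : N ≠ ⊤ := by
      intro h
      apply hlt.not_ge
      rwa [← Subgroup.subgroupOf_eq_top]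
    have h1 : Nontrivial (R ⧸ N) := QuotientGroup.nontrivial_iff.mpr hne
    have h2 : IsPGroup ℓ (R ⧸ N) := hR.to_quotient N
    have h3 : Nontrivial (Subgroup.center (R ⧸ N)) := h2.center_nontrivial
    obtain ⟨⟨z, hz⟩, hz1⟩ := exists_ne (1 : Subgroup.center (R ⧸ N))
    obtain ⟨r, rfl⟩ := QuotientGroup.mk_surjective z
    apply hz1
    have h4 : (r : G) ∈ R₀ := by
      apply hle
      refine ⟨r.2, fun s hs => ?_⟩
      have h5 : ((⟨s, hs⟩ : R) : R ⧸ N) * (r : R ⧸ N) = (r : R ⧸ N) * ((⟨s, hs⟩ : R) : R ⧸ N) :=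
        Subgroup.mem_center_iff.mp hz _
      have h6 : ((r * ⟨s, hs⟩ * r⁻¹ * (⟨s, hs⟩ : R)⁻¹ : R) : R ⧸ N) = 1 := by
        rw [QuotientGroup.mk_mul, QuotientGroup.mk_mul, QuotientGroup.mk_mul, ← h5,
          QuotientGroup.mk_inv, QuotientGroup.mk_inv, mul_inv_cancel_right, mul_inv_cancel]
      have h7 : (r * ⟨s, hs⟩ * r⁻¹ * (⟨s, hs⟩ : R)⁻¹ : R) ∈ N :=
        (QuotientGroup.eq_one_iff _).mp h6
      exact h7
    apply Subtype.ext
    exact (QuotientGroup.eq_one_iff _).mpr h4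

end Grp

end LAYG

open _root_.Pool.Agent.DPT.LAYG in
theorem LAYG_thm : Stmt_LAYG := by
  intro G _ _ ℓ _ R R₀ S C hR hlt hn hSR hSR₀ hSC hCR
  let T : Set (Subgroup G) := {H | R₀ < H ∧ H ≤ Zc R R₀ hn ∧ ∀ s ∈ S, ∀ x ∈ H, s * x * s⁻¹ ∈ H}
  have hT : (Zc R R₀ hn) ∈ T := by
    refine ⟨exists_central hR hlt hn, le_rfl, ?_⟩
    rintro s hs x ⟨hx, hx'⟩
    refine ⟨hSR s hs x hx, fun r hr => ?_⟩
    have h1 : s * x * s⁻¹ * r * (s * x * s⁻¹)⁻¹ * r⁻¹ =
        s * (x * (s⁻¹ * r * s⁻¹⁻¹) * x⁻¹ * (s⁻¹ * r * s⁻¹⁻¹)⁻¹) * s⁻¹ := by group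
    rw [h1]
    exact hSR₀ s hs _ (hx' _ (hSR _ (S.inv_mem hs) r hr))
  obtain ⟨R₁, ⟨hR₁, hR₁Z, hR₁S⟩, hmin⟩ := (wellFounded_lt (α := Subgroup G)).has_min T ⟨_, hT⟩
  have hR₁R : R₁ ≤ R := fun x hx => (hR₁Z hx).1
  have hcen : ∀ x ∈ R₁, ∀ r ∈ R, x * r * x⁻¹ * r⁻¹ ∈ R₀ := fun x hx => (hR₁Z hx).2
  refine ⟨R₁, hR₁, hR₁R, ?_, hR₁S, ?_⟩
  · intro r hr x hx
    have h1 : r * x * r⁻¹ = (x * r * x⁻¹ * r⁻¹)⁻¹ * x := by group
    rw [h1]
    exact R₁.mul_mem (R₁.inv_mem (hR₁.le (hcen x hx r hr))) hx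
  let N : Subgroup R₁ := R₀.subgroupOf R₁
  have hN : N.Normal := ⟨fun x hx r => hn r (hR₁R r.2) x hx⟩
  have hne : N ≠ ⊤ := by
    intro h
    apply hR₁.not_ge
    rwa [← Subgroup.subgroupOf_eq_top]
  have hnt : Nontrivial (R₁ ⧸ N) := QuotientGroup.nontrivial_iff.mpr hne
  have hcomm : ∀ a b : R₁ ⧸ N, a * b = b * a := by
    intro a b
    obtain ⟨x, rfl⟩ := QuotientGroup.mk_surjective a
    obtain ⟨y, rfl⟩ := QuotientGroup.mk_surjective b
    have h1 : ((x * y * x⁻¹ * y⁻¹ : R₁) : R₁ ⧸ N) = 1 :=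
      (QuotientGroup.eq_one_iff _).mpr (hcen x x.2 y (hR₁R y.2))
    rw [QuotientGroup.mk_mul, QuotientGroup.mk_mul, QuotientGroup.mk_mul, QuotientGroup.mk_inv,
      QuotientGroup.mk_inv, mul_inv_eq_one, mul_inv_eq_iff_eq_mul] at h1
    exact h1
  let c : S → (R₁ →* R₁) := fun s =>
    { toFun := fun x => ⟨s * x * (s : G)⁻¹, hR₁S s s.2 x x.2⟩
      map_one' := Subtype.ext (by
        change (s : G) * 1 * (s : G)⁻¹ = 1
        rw [mul_one, mul_inv_cancel])
      map_mul' := fun x y => Subtype.ext (by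
        change (s : G) * ((x : G) * y) * (s : G)⁻¹ = s * x * (s : G)⁻¹ * (s * y * (s : G)⁻¹)
        group) }
  have hcN : ∀ s : S, N ≤ N.comap (c s) := fun s x hx => hSR₀ s s.2 x hx
  let φ : S → (R₁ ⧸ N →* R₁ ⧸ N) := fun s => QuotientGroup.map N N (c s) (hcN s)
  have hφ : ∀ (s : S) (x : R₁), φ s (x : R₁ ⧸ N) = ((c s x : R₁) : R₁ ⧸ N) := fun s x => rfl
  obtain ⟨s₀, h₀⟩ := schurG hcomm φ (by
    intro a
    obtain ⟨x, rfl⟩ := QuotientGroup.mk_surjective a
    rw [hφ]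
    apply congrArg (fun y : R₁ => (y : R₁ ⧸ N))
    apply Subtype.ext
    change (1 : G) * x * (1 : G)⁻¹ = x
    group) (by
    intro s t a
    obtain ⟨x, rfl⟩ := QuotientGroup.mk_surjective a
    rw [hφ, hφ, hφ]
    apply congrArg (fun y : R₁ => (y : R₁ ⧸ N))
    apply Subtype.ext
    change (s : G) * t * x * ((s : G) * t)⁻¹ = s * (t * x * (t : G)⁻¹) * (s : G)⁻¹
    group) (by
    intro s t a
    obtain ⟨x, rfl⟩ := QuotientGroup.mk_surjective a
    rw [hφ, hφ, hφ, hφ]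
    apply congrArg (fun y : R₁ => (y : R₁ ⧸ N))
    apply Subtype.ext
    change (s : G) * (t * x * (t : G)⁻¹) * (s : G)⁻¹ = t * (s * x * (s : G)⁻¹) * (t : G)⁻¹
    have h1 := hCR _ (hSC s s.2 t t.2) ((t : G) * (s * x * (s : G)⁻¹) * (t : G)⁻¹)
      (hSR t t.2 _ (hSR s s.2 x (hR₁R x.2)))
    have h2 : (s : G) * (t * x * (t : G)⁻¹) * (s : G)⁻¹ =
        (s * t * (s : G)⁻¹ * (t : G)⁻¹) * (t * (s * x * (s : G)⁻¹) * (t : G)⁻¹) *
          (s * t * (s : G)⁻¹ * (t : G)⁻¹)⁻¹ := by group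
    rw [h2, h1, mul_inv_cancel_right]) (by
    intro H hH
    by_cases hb : H = ⊥
    · exact Or.inl hb
    right
    let K : Subgroup G := (H.comap (QuotientGroup.mk' N)).map R₁.subtype
    have hK : ∀ x : R₁, (x : R₁ ⧸ N) ∈ H ↔ (x : G) ∈ K := by
      intro x
      constructor
      · intro hx
        exact ⟨x, hx, rfl⟩
      · rintro ⟨y, hy, hxy⟩
        have h1 : y = x := Subtype.ext hxy
        rw [← h1]
        exact hy
    have hKR : K ≤ R₁ := by
      rintro _ ⟨y, -, rfl⟩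
      exact y.2
    have hR₀K : R₀ ≤ K := by
      intro x hx
      apply (hK ⟨x, hR₁.le hx⟩).mp
      have h1 : ((⟨x, hR₁.le hx⟩ : R₁) : R₁ ⧸ N) = 1 := (QuotientGroup.eq_one_iff _).mpr hx
      rw [h1]
      exact H.one_mem
    have hR₀K' : R₀ < K := by
      refine lt_of_le_not_ge hR₀K fun hle => hb ?_
      rw [eq_bot_iff]
      intro a ha
      obtain ⟨x, rfl⟩ := QuotientGroup.mk_surjective a
      have h1 : (x : G) ∈ R₀ := hle ((hK x).mp ha)
      exact (QuotientGroup.eq_one_iff _).mpr h1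
    have hKT : K ∈ T := by
      refine ⟨hR₀K', hKR.trans hR₁Z, ?_⟩
      rintro s hs _ ⟨y, hy, rfl⟩
      exact ⟨c ⟨s, hs⟩ y, hH ⟨s, hs⟩ _ hy, rfl⟩
    have hKe : K = R₁ := by
      by_contra hne
      exact hmin K hKT (lt_of_le_of_ne hKR hne)
    rw [eq_top_iff]
    intro a _
    obtain ⟨x, rfl⟩ := QuotientGroup.mk_surjective a
    apply (hK x).mpr
    rw [hKe]
    exact x.2)
  refine ⟨s₀, s₀.2, fun s hs => ?_⟩
  obtain ⟨i, hi⟩ := h₀ ⟨s, hs⟩
  refine ⟨i, fun r hr => ?_⟩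
  have h1 := hi ((⟨r, hr⟩ : R₁) : R₁ ⧸ N)
  rw [hφ, ← mul_inv_eq_one, ← QuotientGroup.mk_inv, ← QuotientGroup.mk_mul,
    QuotientGroup.eq_one_iff] at h1
  exact h1

end Pool.Agent.DPT


end

section

/-!
# The sum over the data whose group contains `J` vanishes (theorem V)
-/

namespace Pool.Agent.DPV

open Pool.Agent.DP Pool.Agent.Lib_helper13 Representation
open Pool.Agent.Lib_helper13.Dade (pCore DadeHolds dadeSum)

namespace TJV

theorem irrOn_of_mem {G : Type*} [Group G] [Fintype G] {S : Subgroup G} {f : G → ℂ}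
    (hf : f ∈ irrOn S) : IrrOn S f := by
  classical
  rw [irrOn, Finset.mem_image] at hf
  obtain ⟨ψ, hψ, rfl⟩ := hf
  refine ⟨?_, fun x hx => ext0_of_not_mem ψ hx⟩
  have h : (fun s : S => ext0 ψ (s : G)) = ψ := by
    funext s
    simp [ext0]
  rw [h]
  exact mem_irrF.mp hψ

theorem cg_comp {G : Type*} [Group G] [Fintype G] (𝔐 : Ideal (integralClosure ℤ ℂ))
    (α : MulAut G) (θ : G → ℂ) (g : G) : cg 𝔐 (fun x => θ (α x)) g = cg 𝔐 θ (α g) := by
  change red 𝔐 ((∑ x, conjInd x g * θ (α x)) / θ (α 1)) =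
    red 𝔐 ((∑ x, conjInd x (α g) * θ x) / θ 1)
  rw [map_one]
  congr 2
  refine Fintype.sum_equiv α.toEquiv _ _ fun x => ?_
  change conjInd x g * θ (α x) = conjInd (α x) (α g) * θ (α x)
  congr 1
  refine conjInd_congr ?_
  constructor
  · intro h
    exact MonoidHom.map_isConj α.toMonoidHom h
  · intro h
    have h' := MonoidHom.map_isConj α.symm.toMonoidHom h
    simpa using h'

theorem dzT_transport {G B C : Type*} [Group G] [Group B] [Group C] [Fintype G]
    (𝔐 : Ideal (integralClosure ℤ ℂ)) (ℓ : ℕ) {ι : G →* B} {κ : B →* MulAut G} {ρ : B →* C}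
    (cl : ClG ι κ ρ) (a : B) {β : Set (B → (integralClosure ℤ ℂ) ⧸ 𝔐)} (h : dzT 𝔐 ℓ ι β) :
    dzT 𝔐 ℓ ι ((fun b0 x => b0 (a⁻¹ * x * a)) '' β) := by
  obtain ⟨b, hb, θ, h1, h2, h3⟩ := h
  refine ⟨_, ⟨b, hb, rfl⟩, fun x => θ (κ a⁻¹ x), ?_, ?_, ?_⟩
  · exact h1.comp_mulEquiv (κ a⁻¹)
  · exact (hasDefect_comp_equiv (κ a⁻¹)).mpr h2
  · intro g
    have h4 : a⁻¹ * ι g * a = ι (κ a⁻¹ g) := by rw [cl.act, inv_inv]
    change b (a⁻¹ * ι g * a) = _
    rw [h4, h3, cg_comp]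

theorem expand {Q : Type*} [Fintype Q] [DecidableEq Q] (n d : Q → ℕ) (hn : ∀ w, 1 ≤ n w)
    (e : ℕ) :
    (if ∑ w, n w * d w = e then (1 : ℚ) else 0) =
      ∑ E ∈ (Fintype.piFinset (fun _ : Q => Finset.range (e + 1))).filter
        (fun E => ∑ w, n w * E w = e), ∏ w, (if d w = E w then (1 : ℚ) else 0) := by
  have h1 : ∀ E : Q → ℕ, ∏ w, (if d w = E w then (1 : ℚ) else 0) = if d = E then 1 else 0 := by
    intro E
    by_cases h : d = E
    · subst h
      simp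
    · rw [if_neg h]
      obtain ⟨w, hw⟩ := Function.ne_iff.mp h
      exact Finset.prod_eq_zero (Finset.mem_univ w) (if_neg hw)
  simp_rw [h1]
  rw [Finset.sum_ite_eq]
  refine if_congr ?_ rfl rfl
  rw [Finset.mem_filter, Fintype.mem_piFinset]
  constructor
  · intro h
    refine ⟨fun w => ?_, h⟩
    rw [Finset.mem_range]
    have h2 : n w * d w ≤ ∑ w, n w * d w :=
      Finset.single_le_sum (f := fun w => n w * d w) (fun _ _ => Nat.zero_le _)
        (Finset.mem_univ w)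
    have h3 : d w ≤ n w * d w := Nat.le_mul_of_pos_left _ (hn w)
    omega
  · exact fun h => h.2

theorem ite_help (a b c : Prop) [Decidable (a ∧ b ∧ c)] [Decidable (a ∧ c)] [Decidable b] :
    (if a ∧ b ∧ c then (1 : ℚ) else 0) = (if a ∧ c then 1 else 0) * (if b then 1 else 0) := by
  by_cases ha : a <;> by_cases hb : b <;> by_cases hc : c <;> simp [ha, hb, hc]

end TJV

open Classical in
theorem TJV_thm (h1 : Stmt_LIFTV) (h2 : Stmt_CNTV) (h3 : Stmt_REPV) (h4 : Stmt_TRV) :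
    Stmt_TJV := by
  intro O G B C Y K _ _ _ _ _ _ _ _ _ _ _ 𝔐 ℓ _ h𝔐 hℓ ι κ ρ hL hVS j p φ hE J e β hβ
  obtain ⟨o₀, ho₀⟩ := hβ
  obtain ⟨⟨r, t, hr⟩, -, hrep⟩ := h3 O G B C Y K ι κ ρ hL j p φ hE J
  obtain ⟨hrr, -, -⟩ := hrep r t hr
  -- existence of transports
  have hex : ∀ τ ∈ ClCh O G ℓ, ∀ θ : O → G → ℂ, (∀ o, IrrOn (stb (comp τ o)) (θ o)) →
      J ≤ KB κ p φ τ θ → ∃ g : O → B, (∀ o, r o = o → g o = 1) ∧
        (∀ o, ρ (g o) = ρ ((φ (t o)).left o)) ∧ ∀ o, trB κ τ θ (r o) o (g o) := by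
    intro τ hτ θ hθ hJ
    have h := h2 O G B C Y K ℓ ι κ ρ hL j p φ hE J r t hr τ hτ θ hθ hJ
    have h' : 0 < ∏ o ∈ Finset.univ.filter (fun o => r o ≠ o), Nat.card (stb (comp τ o)) :=
      Finset.prod_pos fun o _ => Nat.card_pos
    rw [← h] at h'
    obtain ⟨⟨g, hg⟩⟩ := (Nat.card_pos_iff.mp h').1
    exact ⟨g, hg⟩
  by_cases hcomp : ∀ o, (fun (b0 : B → (integralClosure ℤ ℂ) ⧸ 𝔐) x =>
      b0 (((φ (t o)).left o)⁻¹ * x * (φ (t o)).left o)) '' β (r o) = β o
  swap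
  · refine Finset.sum_eq_zero fun τ hτ => ?_
    rw [Finset.sum_eq_zero, mul_zero, mul_zero]
    intro θ hθ
    rw [if_neg]
    rintro ⟨hJ, -, hb⟩
    have hθ' : ∀ o, IrrOn (stb (comp τ o)) (θ o) := fun o =>
      TJV.irrOn_of_mem (Fintype.mem_piFinset.mp hθ o)
    obtain ⟨g, -, hg2, hg3⟩ := hex τ hτ θ hθ' hJ
    apply hcomp
    intro o
    have h := (h1 O G B C Y K 𝔐 ℓ ι κ ρ hL j p φ hE J r t hr τ hτ θ hθ' g hg2 hg3).2 o
    rw [hb] at h
    exact h.symm
  -- the representatives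
  let Q := {o : O // r o = o}
  let q : O → Q := fun o => ⟨r o, hrr o⟩
  let s : Q → O := Subtype.val
  have hqs : ∀ w, q (s w) = w := fun w => Subtype.ext w.2
  have hsq : ∀ o, s (q o) = r o := fun o => rfl
  let n : Q → ℕ := fun w => (Finset.univ.filter (fun o => q o = w)).card
  have hn : ∀ w, 1 ≤ n w := by
    intro w
    refine Finset.card_pos.mpr ⟨s w, ?_⟩
    rw [Finset.mem_filter]
    exact ⟨Finset.mem_univ _, hqs w⟩
  let 𝒢 : Finset (O → B) := Finset.univ.filter (fun g => (∀ o, r o = o → g o = 1) ∧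
    ∀ o, ρ (g o) = ρ ((φ (t o)).left o))
  let cond : Finset (Subgroup (O → G)) → (O → G → ℂ) → Prop := fun τ θ =>
    J ≤ KB κ p φ τ θ ∧ ∑ o, df ℓ (stb (comp τ o)) (θ o) = e ∧ bts 𝔐 ι κ ρ p φ τ θ J = β
  let P0 : Finset (Subgroup (O → G)) → ℚ := fun τ =>
    ∏ o ∈ Finset.univ.filter (fun o => r o = o), (Nat.card (stb (comp τ o)) : ℚ)
  -- step A
  have hA : ∀ τ ∈ ClCh O G ℓ, ∀ θ ∈ Fintype.piFinset (fun o => irrOn (stb (comp τ o))),
      (∏ o, (Nat.card (stb (comp τ o)) : ℚ)) * (if cond τ θ then 1 else 0) =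
        ∑ g ∈ 𝒢, if ∀ o, trB κ τ θ (s (q o)) o (g o) then
          P0 τ * (if cond τ θ then (1 : ℚ) else 0) else 0 := by
    intro τ hτ θ hθ
    have hθ' : ∀ o, IrrOn (stb (comp τ o)) (θ o) := fun o =>
      TJV.irrOn_of_mem (Fintype.mem_piFinset.mp hθ o)
    by_cases hc : cond τ θ
    · rw [if_pos hc, mul_one, mul_one, ← Finset.sum_filter, Finset.sum_const, nsmul_eq_mul,
        Finset.filter_filter]
      have h := h2 O G B C Y K ℓ ι κ ρ hL j p φ hE J r t hr τ hτ θ hθ' hc.1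
      rw [Nat.card_eq_fintype_card, Fintype.card_subtype] at h
      have h' : (Finset.univ.filter (fun g : O → B => ((∀ o, r o = o → g o = 1) ∧
          ∀ o, ρ (g o) = ρ ((φ (t o)).left o)) ∧ ∀ o, trB κ τ θ (s (q o)) o (g o))).card =
          ∏ o ∈ Finset.univ.filter (fun o => r o ≠ o), Nat.card (stb (comp τ o)) := by
        rw [← h]
        congr 1
        ext g
        simp only [Finset.mem_filter, Finset.mem_univ, true_and, and_assoc, hsq]
      rw [h', Nat.cast_prod, mul_comm]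
      exact (Finset.prod_filter_mul_prod_filter_not _ _ _).symm
    · rw [if_neg hc, mul_zero, mul_zero]
      simp
  -- step B
  have hB : ∑ τ ∈ ClCh O G ℓ, (-1 : ℚ) ^ τ.card * ((∏ o, (Nat.card (stb (comp τ o)) : ℚ)) *
        ∑ θ ∈ Fintype.piFinset (fun o => irrOn (stb (comp τ o))),
          (if cond τ θ then 1 else 0)) =
      ∑ g ∈ 𝒢, ∑ τ ∈ ClCh O G ℓ, (-1 : ℚ) ^ τ.card *
        ∑ θ ∈ (Fintype.piFinset (fun o => irrOn (stb (comp τ o)))).filter
          (fun θ => ∀ o, trB κ τ θ (s (q o)) o (g o)),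
          P0 τ * (if cond τ θ then (1 : ℚ) else 0) := by
    rw [Finset.sum_comm]
    refine Finset.sum_congr rfl fun τ hτ => ?_
    rw [← Finset.mul_sum, Finset.mul_sum]
    congr 1
    rw [Finset.sum_congr rfl (hA τ hτ), Finset.sum_comm]
    refine Finset.sum_congr rfl fun g _ => ?_
    rw [Finset.sum_filter]
  refine hB.trans ?_
  refine Finset.sum_eq_zero fun g hg => ?_
  obtain ⟨hg1, hg2⟩ : (∀ o, r o = o → g o = 1) ∧ ∀ o, ρ (g o) = ρ ((φ (t o)).left o) := by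
    have := (Finset.mem_filter.mp hg).2
    exact this
  let H : (Q → Finset (Subgroup G)) → (Q → G → ℂ) → ℚ := fun c th =>
    (∏ w, (Nat.card (stb (c w)) : ℚ)) *
      (if (∀ w, vg ρ p φ J w.1 ≤ (Stx κ (c w) (th w)).map ρ) ∧
        ∑ w, n w * df ℓ (stb (c w)) (th w) = e ∧
        ∀ w, bet 𝔐 ι κ ρ (c w) (th w) (vg ρ p φ J w.1) = β w.1 then 1 else 0)
  -- step C
  have hC : ∀ τ ∈ ClCh O G ℓ, ∀ θ ∈ (Fintype.piFinset (fun o => irrOn (stb (comp τ o)))).filter
      (fun θ => ∀ o, trB κ τ θ (s (q o)) o (g o)),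
      P0 τ * (if cond τ θ then (1 : ℚ) else 0) =
        H (fun w => comp τ (s w)) (fun w => θ (s w)) := by
    intro τ hτ θ hθ
    rw [Finset.mem_filter, Fintype.mem_piFinset] at hθ
    obtain ⟨hθ1, hθ2⟩ := hθ
    have hθ' : ∀ o, IrrOn (stb (comp τ o)) (θ o) := fun o => TJV.irrOn_of_mem (hθ1 o)
    have htr : ∀ o, trB κ τ θ (r o) o (g o) := hθ2
    obtain ⟨hl1, hl2⟩ := h1 O G B C Y K 𝔐 ℓ ι κ ρ hL j p φ hE J r t hr τ hτ θ hθ' g hg2 htr
    have hdf : ∀ o, df ℓ (stb (comp τ o)) (θ o) = df ℓ (stb (comp τ (s (q o)))) (θ (s (q o))) :=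
      fun o => (((h4 O G B C 𝔐 ℓ ι κ ρ hL τ θ hθ').2 (r o) o (g o) (htr o)).2.1).symm
    have hsum : ∑ o, df ℓ (stb (comp τ o)) (θ o) =
        ∑ w, n w * df ℓ (stb (comp τ (s w))) (θ (s w)) := by
      rw [← Finset.sum_fiberwise Finset.univ q]
      refine Finset.sum_congr rfl fun w _ => ?_
      rw [Finset.sum_congr rfl (g := fun _ => df ℓ (stb (comp τ (s w))) (θ (s w)))]
      · rw [Finset.sum_const, smul_eq_mul]
      · intro o ho
        rw [hdf o, (Finset.mem_filter.mp ho).2]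
    change _ = (∏ w : Q, (Nat.card (stb (comp τ (s w))) : ℚ)) * _
    congr 1
    · change ∏ o ∈ Finset.univ.filter (fun o => r o = o), (Nat.card (stb (comp τ o)) : ℚ) = _
      exact Finset.prod_subtype (p := fun o => r o = o) _
        (fun o => by rw [Finset.mem_filter]; exact and_iff_right (Finset.mem_univ _)) _
    · refine if_congr ?_ rfl rfl
      refine and_congr ?_ (and_congr ?_ ?_)
      · rw [hl1]
        constructor
        · intro h w
          have h' := h w.1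
          rw [w.2] at h'
          exact h'
        · intro h o
          exact h (q o)
      · rw [hsum]
      · constructor
        · intro h w
          have h' := congrFun h w.1
          rw [← h']
          rfl
        · intro h
          funext o
          rw [hl2 o, ← hcomp o]
          congr 1
          have h' := h (q o)
          exact h'
  have hC' : ∑ τ ∈ ClCh O G ℓ, (-1 : ℚ) ^ τ.card *
        ∑ θ ∈ (Fintype.piFinset (fun o => irrOn (stb (comp τ o)))).filter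
          (fun θ => ∀ o, trB κ τ θ (s (q o)) o (g o)),
          P0 τ * (if cond τ θ then (1 : ℚ) else 0) =
      ∑ τ ∈ ClCh O G ℓ, (-1 : ℚ) ^ τ.card *
        ∑ θ ∈ (Fintype.piFinset (fun o => irrOn (stb (comp τ o)))).filter
          (fun θ => ∀ o, trB κ τ θ (s (q o)) o (g o)),
          H (fun w => comp τ (s w)) (fun w => θ (s w)) := by
    refine Finset.sum_congr rfl fun τ hτ => ?_
    rw [Finset.sum_congr rfl (hC τ hτ)]
  rw [hC', FIXR_thm O Q G B ℓ κ q s g hqs (fun w => hg1 _ w.2) H]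
  -- step D
  have hD : ∀ c th, H c th = ∑ E ∈ (Fintype.piFinset (fun _ : Q => Finset.range (e + 1))).filter
        (fun E => ∑ w, n w * E w = e), ∏ w, ((Nat.card (stb (c w)) : ℚ) *
        (if vg ρ p φ J w.1 ≤ (Stx κ (c w) (th w)).map ρ ∧ df ℓ (stb (c w)) (th w) = E w ∧
          bet 𝔐 ι κ ρ (c w) (th w) (vg ρ p φ J w.1) = β w.1 then 1 else 0)) := by
    intro c th
    have hite : ∀ E : Q → ℕ, ∏ w, ((Nat.card (stb (c w)) : ℚ) *
        (if vg ρ p φ J w.1 ≤ (Stx κ (c w) (th w)).map ρ ∧ df ℓ (stb (c w)) (th w) = E w ∧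
          bet 𝔐 ι κ ρ (c w) (th w) (vg ρ p φ J w.1) = β w.1 then 1 else 0)) =
        ((∏ w, (Nat.card (stb (c w)) : ℚ)) *
          (if (∀ w, vg ρ p φ J w.1 ≤ (Stx κ (c w) (th w)).map ρ) ∧
            ∀ w, bet 𝔐 ι κ ρ (c w) (th w) (vg ρ p φ J w.1) = β w.1 then 1 else 0)) *
          ∏ w, (if df ℓ (stb (c w)) (th w) = E w then (1 : ℚ) else 0) := by
      intro E
      rw [Finset.prod_mul_distrib, mul_assoc]
      congr 1
      by_cases hx : (∀ w, vg ρ p φ J w.1 ≤ (Stx κ (c w) (th w)).map ρ) ∧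
            ∀ w, bet 𝔐 ι κ ρ (c w) (th w) (vg ρ p φ J w.1) = β w.1
      · rw [if_pos hx, one_mul]
        refine Finset.prod_congr rfl fun w _ => ?_
        refine if_congr ?_ rfl rfl
        exact ⟨fun h => h.2.1, fun h => ⟨hx.1 w, h, hx.2 w⟩⟩
      · rw [if_neg hx, zero_mul]
        rw [not_and_or, not_forall, not_forall] at hx
        rcases hx with ⟨w, hw⟩ | ⟨w, hw⟩
        · exact Finset.prod_eq_zero (Finset.mem_univ w) (if_neg fun h => hw h.1)
        · exact Finset.prod_eq_zero (Finset.mem_univ w) (if_neg fun h => hw h.2.2)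
    simp_rw [hite]
    rw [← Finset.mul_sum, ← TJV.expand n _ hn e, mul_assoc]
    change (∏ w, (Nat.card (stb (c w)) : ℚ)) * _ = _
    congr 1
    exact TJV.ite_help _ _ _
  have hD' : ∑ τ ∈ ClCh Q G ℓ, (-1 : ℚ) ^ τ.card *
      ∑ θ ∈ Fintype.piFinset (fun w => irrOn (stb (comp τ w))), H (fun w => comp τ w) θ =
      ∑ E ∈ (Fintype.piFinset (fun _ : Q => Finset.range (e + 1))).filter
        (fun E => ∑ w, n w * E w = e), ∏ w : Q, VS 𝔐 ℓ ι κ ρ (vg ρ p φ J w.1) (β w.1) (E w) := by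
    have hE' : ∀ E : Q → ℕ, ∏ w : Q, VS 𝔐 ℓ ι κ ρ (vg ρ p φ J w.1) (β w.1) (E w) =
        ∑ τ ∈ ClCh Q G ℓ, (-1 : ℚ) ^ τ.card *
          ∑ θ ∈ Fintype.piFinset (fun w => irrOn (stb (comp τ w))),
            ∏ w, ((Nat.card (stb (comp τ w)) : ℚ) *
        (if vg ρ p φ J w.1 ≤ (Stx κ (comp τ w) (θ w)).map ρ ∧
          df ℓ (stb (comp τ w)) (θ w) = E w ∧
          bet 𝔐 ι κ ρ (comp τ w) (θ w) (vg ρ p φ J w.1) = β w.1 then 1 else 0)) := by
      intro E
      exact (EVALR_thm Q G ℓ (fun w σ ψ => (Nat.card (stb σ) : ℚ) *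
        (if vg ρ p φ J w.1 ≤ (Stx κ σ ψ).map ρ ∧
          df ℓ (stb σ) ψ = E w ∧
          bet 𝔐 ι κ ρ σ ψ (vg ρ p φ J w.1) = β w.1 then 1 else 0))).symm
    simp_rw [hE']
    rw [Finset.sum_comm]
    refine Finset.sum_congr rfl fun τ _ => ?_
    rw [Finset.sum_congr rfl (fun θ _ => hD _ _), Finset.sum_comm, Finset.mul_sum]
  rw [hD']
  refine Finset.sum_eq_zero fun E _ => ?_
  refine Finset.prod_eq_zero (Finset.mem_univ (q o₀)) ?_
  apply hVS
  intro hdz
  apply ho₀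
  rw [← hcomp o₀]
  exact TJV.dzT_transport 𝔐 ℓ hL.cl _ hdz

end Pool.Agent.DPV


end

section

set_option linter.unusedSectionVars false

/-!
# CYCV (theorem V): the quotient by the elements which act on the block as inner automorphisms
is cyclic
-/

namespace Pool.Agent.DPV

open Pool.Agent.DP Pool.Agent.Lib_helper13 Representation
open Pool.Agent.Lib_helper13.Dade (pCore DadeHolds dadeSum)

namespace CYCV

open Pool.Agent.DPC.EXTAR (mem_YY rho_iota)

/-- Central functions computed in a subgroup which contains the support. -/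
theorem cgT_sub {B : Type} [Group B] [Fintype B] (𝔐 : Ideal (integralClosure ℤ ℂ))
    (H T : Subgroup B) [Fintype H] (hT : T ≤ H) (f : B → ℂ) (hf : ∀ x, x ∉ H → f x = 0)
    (h : H) : cgT 𝔐 (T.subgroupOf H) (fun x : H => f x) h = cgT 𝔐 T f (h : B) := by
  classical
  have h1 : ∑ x : H, cjT (T.subgroupOf H) x h * f x = ∑ x, cjT T x (h : B) * f x := by
    refine Fintype.sum_of_injective (fun x : H => (x : B)) Subtype.coe_injective _ _ ?_ ?_
    · intro b hb
      rw [hf b, mul_zero]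
      intro hb'
      exact hb ⟨⟨b, hb'⟩, rfl⟩
    · intro x
      have h2 : (∃ t ∈ T.subgroupOf H, x = t * h * t⁻¹) ↔
          ∃ t ∈ T, (x : B) = t * (h : B) * t⁻¹ := by
        constructor
        · rintro ⟨t, ht, hx⟩
          exact ⟨t, Subgroup.mem_subgroupOf.mp ht, by rw [hx]; rfl⟩
        · rintro ⟨t, ht, hx⟩
          exact ⟨⟨t, hT ht⟩, Subgroup.mem_subgroupOf.mpr ht, Subtype.ext hx⟩
      have h3 : cjT (T.subgroupOf H) x h = cjT T (x : B) (h : B) := by
        rw [cjT, cjT]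
        by_cases hc : ∃ t ∈ T, (x : B) = t * (h : B) * t⁻¹
        · rw [if_pos hc, if_pos (h2.mpr hc)]
        · rw [if_neg hc, if_neg (fun h4 => hc (h2.mp h4))]
      rw [h3]
  rw [cgT, cgT, h1]
  rfl

end CYCV

open _root_.Pool.Agent.DPV.CYCV Pool.Agent.DPC.EXTAR in
theorem CYCV_thm (h1 : Stmt_CYH) (h2 : Stmt_BRV) : Stmt_CYCV := by
  classical
  intro G B C _ _ _ _ _ 𝔐 ℓ _ hM hl ι κ ρ hloc hC P hP hPi ψ hψ L hL f hf
  have hcl := hloc.cl
  obtain ⟨H, hH⟩ : ∃ H : Subgroup B, H = Stx κ {P} ψ ⊓ L.comap ρ := ⟨_, rfl⟩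
  have hmem : ∀ g : G, ι g ∈ H ↔ g ∈ stb ({P} : Finset (Subgroup G)) := by
    intro g
    rw [hH]
    exact mem_YY hcl hψ L
  have hH1 : ∀ h ∈ H, ∀ u ∈ P, κ h u ∈ P := by
    intro h hh u hu
    rw [hH] at hh
    have h3 := hh.1.1 P (Finset.mem_singleton_self P)
    rw [← h3]
    exact ⟨u, hu, rfl⟩
  have hH2 : ∀ h ∈ H, ρ h ∈ L := by
    intro h hh
    rw [hH] at hh
    exact hh.2
  have hPn : P ≤ stb ({P} : Finset (Subgroup G)) := by
    intro g hg
    rw [mem_stb']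
    intro D hD x
    rw [Finset.mem_singleton] at hD
    subst hD
    constructor
    · intro hx
      exact D.mul_mem (D.mul_mem hg hx) (D.inv_mem hg)
    · intro hx
      have h3 := D.mul_mem (D.mul_mem (D.inv_mem hg) hx) hg
      have h4 : g⁻¹ * (g * x * g⁻¹) * g = x := by group
      rwa [h4] at h3
  obtain ⟨T, hT⟩ : ∃ T : Subgroup B, T = (stb ({P} : Finset (Subgroup G))).map ι := ⟨_, rfl⟩
  have hTH : T ≤ H := by
    rw [hT]
    rintro _ ⟨g, hg, rfl⟩
    exact (hmem g).mpr hg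
  have hPT : P.map ι ≤ T := by
    rw [hT]
    exact Subgroup.map_mono hPn
  have hPH : P.map ι ≤ H := hPT.trans hTH
  have hTmem : ∀ b : B, b ∈ T ↔ ∃ g ∈ stb ({P} : Finset (Subgroup G)), ι g = b := by
    intro b
    rw [hT]
    exact Subgroup.mem_map
  -- normality
  have hPnorm : ((P.map ι).subgroupOf H).Normal := by
    constructor
    intro x hx h
    rw [Subgroup.mem_subgroupOf] at hx ⊢
    obtain ⟨u, hu, hux⟩ := hx
    refine ⟨κ (h : B) u, hH1 _ h.2 u hu, ?_⟩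
    rw [hcl.act, hux]
    rfl
  have hTnorm : (T.subgroupOf H).Normal := by
    constructor
    intro x hx h
    rw [Subgroup.mem_subgroupOf] at hx ⊢
    obtain ⟨g, hg, hgx⟩ := (hTmem _).mp hx
    rw [hTmem]
    have h3 : ι (κ (h : B) g) = ((h * x * h⁻¹ : H) : B) := by
      rw [hcl.act, hgx]
      rfl
    refine ⟨κ (h : B) g, ?_, h3⟩
    rw [← hmem, h3]
    exact (h * x * h⁻¹).2
  -- cardinalities
  have hcP : Nat.card ((P.map ι).subgroupOf H) = ℓ := by
    rw [Nat.card_congr (Subgroup.subgroupOfEquivOfLe hPH).toEquiv,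
      ← Nat.card_congr (P.equivMapOfInjective ι hcl.inj).toEquiv, hP]
  have hcT : Nat.card (T.subgroupOf H) = Nat.card (stb ({P} : Finset (Subgroup G))) := by
    rw [Nat.card_congr (Subgroup.subgroupOfEquivOfLe hTH).toEquiv, hT,
      ← Nat.card_congr ((stb ({P} : Finset (Subgroup G))).equivMapOfInjective ι
        hcl.inj).toEquiv]
  have hPTs : (P.map ι).subgroupOf H ≤ T.subgroupOf H := by
    intro x hx
    rw [Subgroup.mem_subgroupOf] at hx ⊢
    exact hPT hx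
  have hker : T.subgroupOf H = (ρ.comp H.subtype).ker := by
    ext x
    rw [Subgroup.mem_subgroupOf, MonoidHom.mem_ker, hTmem]
    constructor
    · rintro ⟨g, -, hg⟩
      change ρ (x : B) = 1
      rw [← hg]
      exact rho_iota hcl g
    · intro hx
      obtain ⟨g, hg⟩ := (hcl.ker (x : B)).mp hx
      refine ⟨g, ?_, hg⟩
      rw [← hmem, hg]
      exact x.2
  have hiT : ¬ ℓ ∣ (T.subgroupOf H).index := by
    intro hd
    apply hC
    rw [hker, Subgroup.index_ker] at hd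
    exact hd.trans (Subgroup.card_subgroup_dvd_card _)
  have hiP : ¬ ℓ ∣ ((P.map ι).subgroupOf H).index := by
    intro hd
    rw [← Subgroup.relIndex_mul_index hPTs] at hd
    rcases (Fact.out : ℓ.Prime).dvd_mul.mp hd with hd | hd
    · apply hPi
      have h3 : ((P.map ι).subgroupOf H).relIndex (T.subgroupOf H) * ℓ =
          Nat.card (stb ({P} : Finset (Subgroup G))) := by
        rw [← hcT, ← hcP]
        have h4 := Subgroup.card_mul_index (((P.map ι).subgroupOf H).subgroupOf (T.subgroupOf H))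
        rw [Nat.card_congr (Subgroup.subgroupOfEquivOfLe hPTs).toEquiv] at h4
        rw [mul_comm]
        exact h4
      have h4 : Nat.card (stb ({P} : Finset (Subgroup G))) ∣ P.index * ℓ := by
        have h5 : P.index * ℓ = Nat.card G := by
          rw [← hP, Subgroup.index_mul_card]
        rw [h5]
        exact Subgroup.card_subgroup_dvd_card _
      rw [← h3] at h4
      exact hd.trans (Nat.dvd_of_mul_dvd_mul_right (Fact.out : ℓ.Prime).pos h4)
    · exact hiT hd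
  -- characters
  have hf1 : IsIrr (fun x : H => f x) := by
    subst hH
    exact hf.1.1
  have hf0 : ∀ x, x ∉ H → f x = 0 := by
    subst hH
    exact hf.1.2
  have hfN : IsIrr (fun n : T.subgroupOf H => f ((n : H) : B)) := by
    have h3 : ∀ n : T.subgroupOf H, ∃ g : stb ({P} : Finset (Subgroup G)),
        ι (g : G) = ((n : H) : B) := by
      intro n
      obtain ⟨g, hg, hgn⟩ := (hTmem _).mp (Subgroup.mem_subgroupOf.mp n.2)
      exact ⟨⟨g, hg⟩, hgn⟩
    choose e he using h3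
    let E : T.subgroupOf H ≃* stb ({P} : Finset (Subgroup G)) :=
      { toFun := e
        invFun := fun g => ⟨⟨ι (g : G), (hmem _).mpr g.2⟩, Subgroup.mem_subgroupOf.mpr
          ((hTmem _).mpr ⟨g, g.2, rfl⟩)⟩
        left_inv := by
          intro n
          apply Subtype.ext
          apply Subtype.ext
          exact he n
        right_inv := by
          intro g
          apply Subtype.ext
          apply hcl.inj
          exact he _
        map_mul' := by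
          intro a b
          apply Subtype.ext
          apply hcl.inj
          have h6 : ι ((e a * e b : stb ({P} : Finset (Subgroup G))) : G) =
              ι (e a : G) * ι (e b : G) := map_mul ι _ _
          rw [h6, he, he, he]
          rfl }
    have h4 := hψ.1.comp_mulEquiv E
    have h5 : (fun n : T.subgroupOf H => f ((n : H) : B)) =
        (fun s : stb ({P} : Finset (Subgroup G)) => ψ s) ∘ E := by
      funext n
      change f ((n : H) : B) = ψ (e n : G)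
      rw [← hf.2, he]
    rw [h5]
    exact h4
  obtain ⟨h0, hh0⟩ := h1 H 𝔐 ℓ hM hl ((P.map ι).subgroupOf H) (T.subgroupOf H) hcP hiP hPTs
    (fun x : H => f x) hf1 hfN
  refine ⟨ρ (h0 : B), hH2 _ h0.2, ?_⟩
  intro c hc
  obtain ⟨b, hb, hbc⟩ := hL hc
  have hbH : b ∈ H := by
    rw [hH]
    refine ⟨hb, ?_⟩
    change ρ b ∈ L
    rw [hbc]
    exact hc
  obtain ⟨k, h', hu, hN, hne⟩ := hh0 ⟨b, hbH⟩
  refine ⟨k, (h' : B), ?_, ?_⟩
  · obtain ⟨g, -, hg⟩ := (hTmem _).mp (Subgroup.mem_subgroupOf.mp hN)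
    have h3 : ρ ((h' * ((⟨b, hbH⟩ : H) * h0 ^ k)⁻¹ : H) : B) = 1 := by
      rw [← hg]
      exact rho_iota hcl g
    have h4 : ((h' * ((⟨b, hbH⟩ : H) * h0 ^ k)⁻¹ : H) : B) =
        (h' : B) * (b * (h0 : B) ^ k)⁻¹ := by
      simp
    rw [h4, map_mul, map_inv, mul_inv_eq_one, map_mul, map_zpow, hbc] at h3
    exact h3
  · rw [cgT_sub 𝔐 H T hTH f hf0 h'] at hne
    have h3 := (h2 G B C 𝔐 ℓ hM hl ι κ ρ hloc hC P hP hPi).1 ψ hψ L hL f hf (h' : B)
      (hH2 _ h'.2) ?_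
    · rw [h3, ← hT]
      exact hne
    · intro u huP
      apply hcl.inj
      rw [hcl.act]
      have h4 := hu ⟨ι u, hPH ⟨u, huP, rfl⟩⟩ (Subgroup.mem_subgroupOf.mpr ⟨u, huP, rfl⟩)
      have h5 : (h' : B) * ι u = ι u * (h' : B) := congrArg Subtype.val h4
      rw [h5, mul_inv_cancel_right]

end Pool.Agent.DPV


end

section

/-!
# LVB: the local sum vanishes outside the type of defect zero (Sylow subgroups of order `ℓ`,
arbitrary outer automorphisms)
-/

namespace Pool.Agent.DPV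

open Pool.Agent.DP Pool.Agent.Lib_helper13 Representation
open Pool.Agent.Lib_helper13.Dade (pCore DadeHolds dadeSum)

namespace LVB

section

variable {G B C : Type} [Group G] [Fintype G] [Group B] [Fintype B] [Group C]
  {ι : G →* B} {κ : B →* MulAut G} {ρ : B →* C} {ℓ : ℕ}
  (𝔐 : Ideal (integralClosure ℤ ℂ))

theorem finite_irrOn (S : Subgroup G) (p : (G → ℂ) → Prop) :
    Finite {θ : G → ℂ // IrrOn S θ ∧ p θ} := by
  have h : {θ : G → ℂ | IrrOn S θ ∧ p θ}.Finite := by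
    apply ((irrOn S).finite_toSet).subset
    intro θ hθ
    exact IRRPI.mem_irrOn.mpr hθ.1
  exact h.to_subtype

/-- The central function on `G`. -/
theorem cg_of_ext (hcl : ClG ι κ ρ) {σ : Finset (Subgroup G)} {ψ : G → ℂ} {L : Subgroup C}
    {f : B → ℂ} (hf : ExtL ι κ ρ σ ψ L f) (g : G) : cgT 𝔐 ι.range f (ι g) = cg 𝔐 ψ g := by
  have hfι : (fun h => f (ι h)) = ψ := funext hf.2
  rw [(CGT_thm G B C 𝔐 ι κ ρ hcl).2.1, hfι]

/-- The same class of central functions, hence the same block. -/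
theorem cg_of_bet (hcl : ClG ι κ ρ) {σ σ' : Finset (Subgroup G)} {ψ ψ' : G → ℂ}
    {L : Subgroup C} {f : B → ℂ} (hf : ExtL ι κ ρ σ ψ L f)
    (h : bet 𝔐 ι κ ρ σ ψ L = bet 𝔐 ι κ ρ σ' ψ' L) (g : G) : cg 𝔐 ψ' g = cg 𝔐 ψ g := by
  have h1 : cgT 𝔐 ι.range f ∈ bet 𝔐 ι κ ρ σ ψ L := ⟨f, hf, rfl⟩
  rw [h] at h1
  obtain ⟨f', hf', he⟩ := h1
  rw [← cg_of_ext 𝔐 hcl hf', ← he, cg_of_ext 𝔐 hcl hf]

theorem dz_of (hcl : ClG ι κ ρ) {σ : Finset (Subgroup G)} {ψ : G → ℂ} {L : Subgroup C}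
    {f : B → ℂ} (hf : ExtL ι κ ρ σ ψ L f) {θ : G → ℂ} (hθ : IsIrr θ) (hθ0 : HasDefect ℓ θ 0)
    (h : ∀ g, cg 𝔐 θ g = cg 𝔐 ψ g) : dzT 𝔐 ℓ ι (bet 𝔐 ι κ ρ σ ψ L) := by
  refine ⟨cgT 𝔐 ι.range f, ⟨f, hf, rfl⟩, θ, hθ, hθ0, fun g => ?_⟩
  rw [cg_of_ext 𝔐 hcl hf, h]

theorem df_le_one [Fact ℓ.Prime] (hG : ¬ ℓ ^ 2 ∣ Nat.card G) (S : Subgroup G) (ψ : G → ℂ) :
    df ℓ S ψ ≤ 1 := by
  have h1 : padicValNat ℓ (Nat.card S) ≤ 1 := by
    by_contra hlt
    have h2 : 2 ≤ padicValNat ℓ (Nat.card S) := by omega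
    apply hG
    calc ℓ ^ 2 ∣ ℓ ^ padicValNat ℓ (Nat.card S) := pow_dvd_pow ℓ h2
      _ ∣ Nat.card S := pow_padicValNat_dvd
      _ ∣ Nat.card G := Subgroup.card_subgroup_dvd_card S
  unfold df
  omega

theorem irr_defect [Fact ℓ.Prime] {ψ : G → ℂ} (hψ : IrrOn (stb (∅ : Finset (Subgroup G))) ψ)
    (h0 : df ℓ (stb (∅ : Finset (Subgroup G))) ψ = 0) : IsIrr ψ ∧ HasDefect ℓ ψ 0 := by
  have e3 := AA.hasDefect_df ℓ (stb (∅ : Finset (Subgroup G))) hψ
  rw [h0] at e3
  exact ⟨AA.irr_top stb_empty hψ, AA.hasDefect_top stb_empty e3⟩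

/-- Two subgroups do not cover. -/
theorem exists_of_two {Ψ : Type*} (Q : Ψ → Prop) (K : Ψ → Subgroup C) (tt : Ψ → Prop)
    (hK : ∀ x y, Q x → Q y → (tt x ↔ tt y) → K x ≤ K y) (L : Subgroup C)
    (hL : ∀ c ∈ L, ∃ x, Q x ∧ c ∈ K x) : ∃ x, Q x ∧ L ≤ K x := by
  by_contra hcon
  push Not at hcon
  obtain ⟨x, hx, -⟩ := hL 1 L.one_mem
  obtain ⟨a, haL, ha⟩ := SetLike.not_le_iff_exists.mp (hcon x hx)
  obtain ⟨y, hy, hya⟩ := hL a haL
  have hxy : ¬ (tt y ↔ tt x) := fun h => ha (hK y x hy hx h hya)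
  obtain ⟨b, hbL, hb⟩ := SetLike.not_le_iff_exists.mp (hcon y hy)
  obtain ⟨z, hz, hzb⟩ := hL b hbL
  have hyz : ¬ (tt z ↔ tt y) := fun h => hb (hK z y hz hy h hzb)
  have hzx : tt z ↔ tt x := by tauto
  have hbx : b ∈ K x := hK z x hz hx hzx hzb
  obtain ⟨w, hw, hwab⟩ := hL (a * b) (L.mul_mem haL hbL)
  by_cases hwx : tt w ↔ tt x
  · have h1 : a * b ∈ K x := hK w x hw hx hwx hwab
    apply ha
    have h2 := (K x).mul_mem h1 ((K x).inv_mem hbx)
    rwa [mul_assoc, mul_inv_cancel, mul_one] at h2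
  · have hwy : tt w ↔ tt y := by tauto
    have h1 : a * b ∈ K y := hK w y hw hy hwy hwab
    apply hb
    have h2 := (K y).mul_mem ((K y).inv_mem hya) h1
    rwa [← mul_assoc, inv_mul_cancel, one_mul] at h2

end

end LVB

theorem LVB_thm (h1 : Stmt_EXTV) (h2 : Stmt_BEQV) (h3 : Stmt_TRIV) (h4 : Stmt_CYCV)
    (h5 : Stmt_TWOV) (h6 : Stmt_VSX) (h7 : Stmt_FIXV) : Stmt_LVB := by
  classical
  intro G B C _ _ _ _ _ 𝔐 ℓ _ hmax hℓ ι κ ρ hL hC hG L β e hβ
  have hcl := hL.cl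
  have hex : ∀ (σ : Finset (Subgroup G)) (ψ : G → ℂ), IrrOn (stb σ) ψ →
      ∃ f, ExtL ι κ ρ σ ψ L f := fun σ ψ hψ => (h1 G B C ι κ ρ hL σ ψ hψ L).2.2.1
  by_cases hdvd : ℓ ∣ Nat.card G
  · -- the Sylow subgroup
    obtain ⟨x, hx⟩ := exists_prime_orderOf_dvd_card' ℓ hdvd
    obtain ⟨P, hP⟩ : ∃ P : Subgroup G, Nat.card P = ℓ :=
      ⟨Subgroup.zpowers x, by rw [Nat.card_zpowers, hx]⟩
    have hPi : ¬ ℓ ∣ P.index := by
      intro h
      apply hG
      rw [← P.card_mul_index, hP, pow_two]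
      exact Nat.mul_dvd_mul_left ℓ h
    have hSe : Sml ℓ (∅ : Finset (Subgroup G)) := Or.inl rfl
    have hSP : Sml ℓ ({P} : Finset (Subgroup G)) := Or.inr ⟨P, rfl, hP, hPi⟩
    rw [h6 G B C 𝔐 ℓ ι κ ρ hL.locN P hP hPi L β e]
    -- the main step
    have main : ∀ (σ0 : Finset (Subgroup G)) (ψ0 : G → ℂ), (σ0 = ∅ ∨ σ0 = {P}) →
        IrrOn (stb σ0) ψ0 → L ≤ (Stx κ σ0 ψ0).map ρ → df ℓ (stb σ0) ψ0 = e →
        bet 𝔐 ι κ ρ σ0 ψ0 L = β →
        Nat.card {θ : G → ℂ // IrrOn (stb ∅) θ ∧ L ≤ (Stx κ ∅ θ).map ρ ∧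
          df ℓ (stb (∅ : Finset (Subgroup G))) θ = e ∧ bet 𝔐 ι κ ρ ∅ θ L = β} =
        Nat.card {ψ : G → ℂ // IrrOn (stb {P}) ψ ∧ L ≤ (Stx κ {P} ψ).map ρ ∧
          df ℓ (stb {P}) ψ = e ∧ bet 𝔐 ι κ ρ {P} ψ L = β} := by
      intro σ0 ψ0 hσ0 hψ0 hL0 he0 hb0
      have hS0 : Sml ℓ σ0 := by
        rcases hσ0 with h | h
        · rw [h]
          exact hSe
        · rw [h]
          exact hSP
      obtain ⟨f0, hf0⟩ := hex σ0 ψ0 hψ0
      obtain ⟨ω, hω⟩ : ∃ ω, ω = cg 𝔐 ψ0 := ⟨_, rfl⟩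
      have hndz : ¬ ∃ θ : G → ℂ, IsIrr θ ∧ HasDefect ℓ θ 0 ∧ ∀ g, cg 𝔐 θ g = ω g := by
        rintro ⟨θ, hθ, hθ0, hθω⟩
        apply hβ
        rw [← hb0]
        exact LVB.dz_of 𝔐 hcl hf0 hθ hθ0 (fun g => by rw [hθω, hω])
      -- defects
      have hdfe : ∀ θ : G → ℂ, IrrOn (stb ∅) θ → (∀ g, cg 𝔐 θ g = ω g) →
          df ℓ (stb (∅ : Finset (Subgroup G))) θ = 1 := by
        intro θ hθ hθω
        have h8 := LVB.df_le_one (ℓ := ℓ) hG (stb (∅ : Finset (Subgroup G))) θ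
        have h9 : df ℓ (stb (∅ : Finset (Subgroup G))) θ ≠ 0 := by
          intro h0
          obtain ⟨h10, h11⟩ := LVB.irr_defect hθ h0
          exact hndz ⟨θ, h10, h11, hθω⟩
        omega
      have hdfP : ∀ ψ : G → ℂ, IrrOn (stb {P}) ψ → df ℓ (stb ({P} : Finset (Subgroup G))) ψ = 1 := by
        intro ψ hψ
        have h8 := LVB.df_le_one (ℓ := ℓ) hG (stb ({P} : Finset (Subgroup G))) ψ
        have h9 : df ℓ (stb ({P} : Finset (Subgroup G))) ψ ≠ 0 := by
          intro h0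
          have e3 := AA.hasDefect_df ℓ (stb ({P} : Finset (Subgroup G))) hψ
          rw [h0] at e3
          have hch : IsCh ℓ ⊥ ({P} : Finset (Subgroup G)) := by
            constructor
            · intro D hD
              rw [Finset.mem_singleton] at hD
              subst hD
              refine ⟨IsPGroup.of_card (n := 1) (by rw [hP, pow_one]), ?_⟩
              rw [bot_lt_iff_ne_bot]
              intro hbot
              rw [hbot, Subgroup.card_bot] at hP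
              exact (Fact.out : ℓ.Prime).one_lt.ne hP
            · rw [Finset.coe_singleton]
              exact IsChain.singleton
          exact Finset.singleton_ne_empty P (DZT_thm G ℓ {P} hch _ hψ.1 e3)
        omega
      have he : e = 1 := by
        rcases hσ0 with h | h
        · subst h
          rw [← he0]
          exact hdfe ψ0 hψ0 (fun g => by rw [hω])
        · subst h
          rw [← he0]
          exact hdfP ψ0 hψ0
      -- (i)
      obtain ⟨ψ1, ⟨hψ1, hω1⟩, hL1⟩ : ∃ ψ : G → ℂ,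
          (IrrOn (stb ({P} : Finset (Subgroup G))) ψ ∧ ∀ g, cg 𝔐 ψ g = ω g) ∧
            L ≤ (Stx κ {P} ψ).map ρ := by
        rcases hσ0 with h | h
        · subst h
          refine LVB.exists_of_two _ (fun ψ => (Stx κ ({P} : Finset (Subgroup G)) ψ).map ρ)
            (fun ψ => ∀ u ∈ P, ψ u = ψ 1) ?_ L ?_
          · rintro ψ ψ' ⟨hψ, hψω⟩ ⟨hψ', hψω'⟩ hiff
            exact h5 G B C 𝔐 ℓ hmax hℓ ι κ ρ hL hC P hP hPi ψ ψ' hψ hψ'
              (fun g => by rw [hψω, hψω']) hiff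
          · intro c hc
            have hfix := h7 G B C 𝔐 ℓ hmax hℓ ι κ ρ hL hC P hP hPi ω hndz c
            have hfin := LVB.finite_irrOn (stb (∅ : Finset (Subgroup G)))
              (fun θ => (∀ g, cg 𝔐 θ g = ω g) ∧ c ∈ (Stx κ ∅ θ).map ρ)
            have hne : Nonempty {θ : G → ℂ // IrrOn (stb ∅) θ ∧ (∀ g, cg 𝔐 θ g = ω g) ∧
                c ∈ (Stx κ ∅ θ).map ρ} := ⟨⟨ψ0, hψ0, fun g => by rw [hω], hL0 hc⟩⟩
            have hpos : 0 < Nat.card {ψ : G → ℂ // IrrOn (stb {P}) ψ ∧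
                (∀ g, cg 𝔐 ψ g = ω g) ∧ c ∈ (Stx κ {P} ψ).map ρ} := by
              rw [← hfix]
              exact Nat.card_pos
            obtain ⟨⟨⟨ψ, hψ, hψω, hψc⟩⟩, -⟩ := Nat.card_pos_iff.mp hpos
            exact ⟨ψ, ⟨hψ, hψω⟩, hψc⟩
        · subst h
          exact ⟨ψ0, ⟨hψ0, fun g => by rw [hω]⟩, hL0⟩
      -- (ii)
      obtain ⟨f1, hf1⟩ := hex {P} ψ1 hψ1
      obtain ⟨c0, hc0, hcyc⟩ := h4 G B C 𝔐 ℓ hmax hℓ ι κ ρ hL hC P hP hPi ψ1 hψ1 L hL1 f1 hf1
      have hbeq : ∀ (σ : Finset (Subgroup G)) (ψ : G → ℂ), Sml ℓ σ → IrrOn (stb σ) ψ →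
          (∀ g, cg 𝔐 ψ g = ω g) → L ≤ (Stx κ σ ψ).map ρ →
          bet 𝔐 ι κ ρ {P} ψ1 L = bet 𝔐 ι κ ρ σ ψ L := by
        intro σ ψ hσ hψ hψω hLψ
        exact h2 G B C 𝔐 ℓ hmax hℓ ι κ ρ hL hC {P} σ ψ1 ψ hSP hσ hψ1 hψ
          (fun g => by rw [hω1, hψω]) L hL1 hLψ f1 hf1 ⟨c0, hc0, hcyc⟩
      have hb1 : bet 𝔐 ι κ ρ {P} ψ1 L = β := by
        rw [← hb0]
        exact hbeq σ0 ψ0 hS0 hψ0 (fun g => by rw [hω]) hL0
      -- (iii), (iv)
      have key : ∀ (σ : Finset (Subgroup G)) (ψ : G → ℂ), Sml ℓ σ → IrrOn (stb σ) ψ →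
          ((∀ g, cg 𝔐 ψ g = ω g) → df ℓ (stb σ) ψ = 1) →
          ((L ≤ (Stx κ σ ψ).map ρ ∧ df ℓ (stb σ) ψ = e ∧ bet 𝔐 ι κ ρ σ ψ L = β) ↔
            ((∀ g, cg 𝔐 ψ g = ω g) ∧ c0 ∈ (Stx κ σ ψ).map ρ)) := by
        intro σ ψ hσ hψ hdf
        constructor
        · rintro ⟨h8, -, h9⟩
          refine ⟨fun g => ?_, h8 hc0⟩
          rw [hω]
          exact LVB.cg_of_bet 𝔐 hcl hf0 (by rw [hb0, h9]) g
        · rintro ⟨h8, h9⟩
          have hle : L ≤ (Stx κ σ ψ).map ρ := by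
            intro c hc
            obtain ⟨k, t, ht, hne⟩ := hcyc c hc
            have huL : c * c0 ^ k ∈ L := L.mul_mem hc (L.zpow_mem hc0 k)
            have hzL : Subgroup.zpowers (c * c0 ^ k) ≤ L := by
              rw [Subgroup.zpowers_le]
              exact huL
            have hext := (h1 G B C ι κ ρ hL {P} ψ1 hψ1 L).2.2.2.2.2 _ hzL f1 hf1
            have hu : c * c0 ^ k ∈ (Stx κ σ ψ).map ρ := by
              refine h3 G B C 𝔐 ℓ hmax hℓ ι κ ρ hL hC {P} σ ψ1 ψ hSP hσ hψ1 hψ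
                (fun g => by rw [hω1, h8]) _ (hL1 huL) _ hext ⟨t, ht, ?_⟩
              rw [(CGT_thm G B C 𝔐 ι κ ρ hcl).2.2.2.1]
              · unfold trn
                rw [if_pos]
                · exact hne
                · rw [ht]
                  exact Subgroup.mem_zpowers _
              · rintro _ ⟨g, rfl⟩ y
                have hg : ρ (ι g) = 1 := (hcl.ker (ι g)).mpr ⟨g, rfl⟩
                rw [map_mul, map_mul, map_inv, hg, inv_one, one_mul, mul_one]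
            have h10 := ((Stx κ σ ψ).map ρ).mul_mem hu
              (((Stx κ σ ψ).map ρ).inv_mem (((Stx κ σ ψ).map ρ).zpow_mem h9 k))
            rwa [mul_assoc, mul_inv_cancel, mul_one] at h10
          refine ⟨hle, ?_, ?_⟩
          · rw [hdf h8, he]
          · rw [← hbeq σ ψ hσ hψ h8 hle, hb1]
      -- (v)
      have hfix := h7 G B C 𝔐 ℓ hmax hℓ ι κ ρ hL hC P hP hPi ω hndz c0
      calc Nat.card {θ : G → ℂ // IrrOn (stb ∅) θ ∧ L ≤ (Stx κ ∅ θ).map ρ ∧
          df ℓ (stb (∅ : Finset (Subgroup G))) θ = e ∧ bet 𝔐 ι κ ρ ∅ θ L = β}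
          = Nat.card {θ : G → ℂ // IrrOn (stb ∅) θ ∧ (∀ g, cg 𝔐 θ g = ω g) ∧
              c0 ∈ (Stx κ ∅ θ).map ρ} := by
            refine Nat.card_congr (Equiv.subtypeEquivRight fun θ => ?_)
            exact and_congr_right fun hθ => key ∅ θ hSe hθ (hdfe θ hθ)
        _ = Nat.card {ψ : G → ℂ // IrrOn (stb {P}) ψ ∧ (∀ g, cg 𝔐 ψ g = ω g) ∧
              c0 ∈ (Stx κ {P} ψ).map ρ} := hfix
        _ = Nat.card {ψ : G → ℂ // IrrOn (stb {P}) ψ ∧ L ≤ (Stx κ {P} ψ).map ρ ∧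
              df ℓ (stb {P}) ψ = e ∧ bet 𝔐 ι κ ρ {P} ψ L = β} := by
            refine Nat.card_congr (Equiv.subtypeEquivRight fun ψ => ?_)
            exact and_congr_right fun hψ => (key {P} ψ hSP hψ (fun _ => hdfP ψ hψ)).symm
    by_cases hN : Nonempty {θ : G → ℂ // IrrOn (stb ∅) θ ∧ L ≤ (Stx κ ∅ θ).map ρ ∧
          df ℓ (stb (∅ : Finset (Subgroup G))) θ = e ∧ bet 𝔐 ι κ ρ ∅ θ L = β}
    · obtain ⟨⟨θ, h8, h9, h10, h11⟩⟩ := hN
      rw [main ∅ θ (Or.inl rfl) h8 h9 h10 h11, sub_self, mul_zero]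
    · by_cases hN' : Nonempty {ψ : G → ℂ // IrrOn (stb {P}) ψ ∧ L ≤ (Stx κ {P} ψ).map ρ ∧
          df ℓ (stb {P}) ψ = e ∧ bet 𝔐 ι κ ρ {P} ψ L = β}
      · obtain ⟨⟨θ, h8, h9, h10, h11⟩⟩ := hN'
        rw [main {P} θ (Or.inr rfl) h8 h9 h10 h11, sub_self, mul_zero]
      · rw [not_nonempty_iff] at hN hN'
        rw [@Nat.card_of_isEmpty _ hN, @Nat.card_of_isEmpty _ hN', sub_self, mul_zero]
  · -- order prime to `ℓ`
    rw [VS]
    apply Finset.sum_eq_zero
    intro σ hσ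
    have hσe : σ = ∅ := by
      by_contra hne
      obtain ⟨D, hD⟩ := Finset.nonempty_iff_ne_empty.mpr hne
      obtain ⟨hDp, hDb⟩ := (mem_Ch.mp hσ).1 D hD
      obtain ⟨n, hn⟩ := (IsPGroup.iff_card).mp hDp
      have hn0 : n ≠ 0 := by
        intro h0
        rw [h0, pow_zero] at hn
        exact hDb.ne' (Subgroup.card_eq_one.mp hn)
      apply hdvd
      calc ℓ ∣ ℓ ^ n := dvd_pow_self ℓ hn0
        _ = Nat.card D := hn.symm
        _ ∣ Nat.card G := Subgroup.card_subgroup_dvd_card D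
    subst hσe
    have : ∑ ψ ∈ irrOn (stb (∅ : Finset (Subgroup G))),
        (Nat.card (stb (∅ : Finset (Subgroup G))) : ℚ) * (if L ≤ (Stx κ ∅ ψ).map ρ ∧
        df ℓ (stb ∅) ψ = e ∧ bet 𝔐 ι κ ρ ∅ ψ L = β then 1 else 0) = 0 := by
      apply Finset.sum_eq_zero
      intro ψ hψ
      have hψ' := IRRPI.mem_irrOn.mp hψ
      rw [if_neg, mul_zero]
      rintro ⟨-, -, h9⟩
      apply hβ
      rw [← h9]
      obtain ⟨f, hf⟩ := hex ∅ ψ hψ'
      have h0 : df ℓ (stb (∅ : Finset (Subgroup G))) ψ = 0 := by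
        have h10 : padicValNat ℓ (Nat.card (stb (∅ : Finset (Subgroup G)))) = 0 := by
          apply padicValNat.eq_zero_of_not_dvd
          intro h11
          exact hdvd (h11.trans (Subgroup.card_subgroup_dvd_card _))
        unfold df
        omega
      obtain ⟨h10, h11⟩ := LVB.irr_defect hψ' h0
      exact LVB.dz_of 𝔐 hcl hf h10 h11 (fun g => rfl)
    rw [this, mul_zero]

end Pool.Agent.DPV


end

section

/-!
# TJP: the sum over the data whose group contains `J` vanishes (theorem W)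
-/

namespace Pool.Agent.DPW

open Pool.Agent.DP Pool.Agent.DPV Pool.Agent.Lib_helper13 Representation
open Pool.Agent.Lib_helper13.Dade (pCore DadeHolds)

theorem gT_transport {G B C F : Type} [Group G] [Group B] [Group C]
    {ι : G →* B} {κ : B →* MulAut G} {ρ : B →* C} (cl : ClG ι κ ρ) {Pr : (G → F) → Prop}
    (hPr : ∀ b ω, Pr (fun g => ω (κ b g)) → Pr ω) (a : B) {β : Set (B → F)}
    (h : gT ι Pr ((fun b0 x => b0 (a⁻¹ * x * a)) '' β)) : gT ι Pr β := by
  obtain ⟨_, ⟨b, hb, rfl⟩, h2⟩ := h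
  refine ⟨b, hb, hPr a⁻¹ _ ?_⟩
  have h4 : ∀ g, a⁻¹ * ι g * a = ι (κ a⁻¹ g) := by
    intro g
    rw [cl.act, inv_inv]
  simp only [h4] at h2
  exact h2

open Classical in
theorem TJP_thm (h1 : Stmt_LIFTV) (h2 : Stmt_CNTV) (h3 : Stmt_REPV) (h4 : Stmt_TRV) :
    Stmt_TJP := by
  intro O G B C Y K _ _ _ _ _ _ _ _ _ _ _ 𝔐 ℓ _ h𝔐 hℓ ι κ ρ hL Pr hPr hVS j p φ hE J e β hβ
  obtain ⟨o₀, ho₀⟩ := hβ
  obtain ⟨⟨r, t, hr⟩, -, hrep⟩ := h3 O G B C Y K ι κ ρ hL j p φ hE J
  obtain ⟨hrr, -, -⟩ := hrep r t hr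
  -- existence of transports
  have hex : ∀ τ ∈ ClCh O G ℓ, ∀ θ : O → G → ℂ, (∀ o, IrrOn (stb (comp τ o)) (θ o)) →
      J ≤ KB κ p φ τ θ → ∃ g : O → B, (∀ o, r o = o → g o = 1) ∧
        (∀ o, ρ (g o) = ρ ((φ (t o)).left o)) ∧ ∀ o, trB κ τ θ (r o) o (g o) := by
    intro τ hτ θ hθ hJ
    have h := h2 O G B C Y K ℓ ι κ ρ hL j p φ hE J r t hr τ hτ θ hθ hJ
    have h' : 0 < ∏ o ∈ Finset.univ.filter (fun o => r o ≠ o), Nat.card (stb (comp τ o)) :=
      Finset.prod_pos fun o _ => Nat.card_pos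
    rw [← h] at h'
    obtain ⟨⟨g, hg⟩⟩ := (Nat.card_pos_iff.mp h').1
    exact ⟨g, hg⟩
  by_cases hcomp : ∀ o, (fun (b0 : B → (integralClosure ℤ ℂ) ⧸ 𝔐) x =>
      b0 (((φ (t o)).left o)⁻¹ * x * (φ (t o)).left o)) '' β (r o) = β o
  swap
  · refine Finset.sum_eq_zero fun τ hτ => ?_
    rw [Finset.sum_eq_zero, mul_zero, mul_zero]
    intro θ hθ
    rw [if_neg]
    rintro ⟨hJ, -, hb⟩
    have hθ' : ∀ o, IrrOn (stb (comp τ o)) (θ o) := fun o =>
      TJV.irrOn_of_mem (Fintype.mem_piFinset.mp hθ o)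
    obtain ⟨g, -, hg2, hg3⟩ := hex τ hτ θ hθ' hJ
    apply hcomp
    intro o
    have h := (h1 O G B C Y K 𝔐 ℓ ι κ ρ hL j p φ hE J r t hr τ hτ θ hθ' g hg2 hg3).2 o
    rw [hb] at h
    exact h.symm
  -- the representatives
  let Q := {o : O // r o = o}
  let q : O → Q := fun o => ⟨r o, hrr o⟩
  let s : Q → O := Subtype.val
  have hqs : ∀ w, q (s w) = w := fun w => Subtype.ext w.2
  have hsq : ∀ o, s (q o) = r o := fun o => rfl
  let n : Q → ℕ := fun w => (Finset.univ.filter (fun o => q o = w)).card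
  have hn : ∀ w, 1 ≤ n w := by
    intro w
    refine Finset.card_pos.mpr ⟨s w, ?_⟩
    rw [Finset.mem_filter]
    exact ⟨Finset.mem_univ _, hqs w⟩
  let 𝒢 : Finset (O → B) := Finset.univ.filter (fun g => (∀ o, r o = o → g o = 1) ∧
    ∀ o, ρ (g o) = ρ ((φ (t o)).left o))
  let cond : Finset (Subgroup (O → G)) → (O → G → ℂ) → Prop := fun τ θ =>
    J ≤ KB κ p φ τ θ ∧ ∑ o, df ℓ (stb (comp τ o)) (θ o) = e ∧ bts 𝔐 ι κ ρ p φ τ θ J = β
  let P0 : Finset (Subgroup (O → G)) → ℚ := fun τ =>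
    ∏ o ∈ Finset.univ.filter (fun o => r o = o), (Nat.card (stb (comp τ o)) : ℚ)
  -- step A
  have hA : ∀ τ ∈ ClCh O G ℓ, ∀ θ ∈ Fintype.piFinset (fun o => irrOn (stb (comp τ o))),
      (∏ o, (Nat.card (stb (comp τ o)) : ℚ)) * (if cond τ θ then 1 else 0) =
        ∑ g ∈ 𝒢, if ∀ o, trB κ τ θ (s (q o)) o (g o) then
          P0 τ * (if cond τ θ then (1 : ℚ) else 0) else 0 := by
    intro τ hτ θ hθ
    have hθ' : ∀ o, IrrOn (stb (comp τ o)) (θ o) := fun o =>
      TJV.irrOn_of_mem (Fintype.mem_piFinset.mp hθ o)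
    by_cases hc : cond τ θ
    · rw [if_pos hc, mul_one, mul_one, ← Finset.sum_filter, Finset.sum_const, nsmul_eq_mul,
        Finset.filter_filter]
      have h := h2 O G B C Y K ℓ ι κ ρ hL j p φ hE J r t hr τ hτ θ hθ' hc.1
      rw [Nat.card_eq_fintype_card, Fintype.card_subtype] at h
      have h' : (Finset.univ.filter (fun g : O → B => ((∀ o, r o = o → g o = 1) ∧
          ∀ o, ρ (g o) = ρ ((φ (t o)).left o)) ∧ ∀ o, trB κ τ θ (s (q o)) o (g o))).card =
          ∏ o ∈ Finset.univ.filter (fun o => r o ≠ o), Nat.card (stb (comp τ o)) := by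
        rw [← h]
        congr 1
        ext g
        simp only [Finset.mem_filter, Finset.mem_univ, true_and, and_assoc, hsq]
      rw [h', Nat.cast_prod, mul_comm]
      exact (Finset.prod_filter_mul_prod_filter_not _ _ _).symm
    · rw [if_neg hc, mul_zero, mul_zero]
      simp
  -- step B
  have hB : ∑ τ ∈ ClCh O G ℓ, (-1 : ℚ) ^ τ.card * ((∏ o, (Nat.card (stb (comp τ o)) : ℚ)) *
        ∑ θ ∈ Fintype.piFinset (fun o => irrOn (stb (comp τ o))),
          (if cond τ θ then 1 else 0)) =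
      ∑ g ∈ 𝒢, ∑ τ ∈ ClCh O G ℓ, (-1 : ℚ) ^ τ.card *
        ∑ θ ∈ (Fintype.piFinset (fun o => irrOn (stb (comp τ o)))).filter
          (fun θ => ∀ o, trB κ τ θ (s (q o)) o (g o)),
          P0 τ * (if cond τ θ then (1 : ℚ) else 0) := by
    rw [Finset.sum_comm]
    refine Finset.sum_congr rfl fun τ hτ => ?_
    rw [← Finset.mul_sum, Finset.mul_sum]
    congr 1
    rw [Finset.sum_congr rfl (hA τ hτ), Finset.sum_comm]
    refine Finset.sum_congr rfl fun g _ => ?_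
    rw [Finset.sum_filter]
  refine hB.trans ?_
  refine Finset.sum_eq_zero fun g hg => ?_
  obtain ⟨hg1, hg2⟩ : (∀ o, r o = o → g o = 1) ∧ ∀ o, ρ (g o) = ρ ((φ (t o)).left o) := by
    have := (Finset.mem_filter.mp hg).2
    exact this
  let H : (Q → Finset (Subgroup G)) → (Q → G → ℂ) → ℚ := fun c th =>
    (∏ w, (Nat.card (stb (c w)) : ℚ)) *
      (if (∀ w, vg ρ p φ J w.1 ≤ (Stx κ (c w) (th w)).map ρ) ∧
        ∑ w, n w * df ℓ (stb (c w)) (th w) = e ∧
        ∀ w, bet 𝔐 ι κ ρ (c w) (th w) (vg ρ p φ J w.1) = β w.1 then 1 else 0)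
  -- step C
  have hC : ∀ τ ∈ ClCh O G ℓ, ∀ θ ∈ (Fintype.piFinset (fun o => irrOn (stb (comp τ o)))).filter
      (fun θ => ∀ o, trB κ τ θ (s (q o)) o (g o)),
      P0 τ * (if cond τ θ then (1 : ℚ) else 0) =
        H (fun w => comp τ (s w)) (fun w => θ (s w)) := by
    intro τ hτ θ hθ
    rw [Finset.mem_filter, Fintype.mem_piFinset] at hθ
    obtain ⟨hθ1, hθ2⟩ := hθ
    have hθ' : ∀ o, IrrOn (stb (comp τ o)) (θ o) := fun o => TJV.irrOn_of_mem (hθ1 o)
    have htr : ∀ o, trB κ τ θ (r o) o (g o) := hθ2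
    obtain ⟨hl1, hl2⟩ := h1 O G B C Y K 𝔐 ℓ ι κ ρ hL j p φ hE J r t hr τ hτ θ hθ' g hg2 htr
    have hdf : ∀ o, df ℓ (stb (comp τ o)) (θ o) = df ℓ (stb (comp τ (s (q o)))) (θ (s (q o))) :=
      fun o => (((h4 O G B C 𝔐 ℓ ι κ ρ hL τ θ hθ').2 (r o) o (g o) (htr o)).2.1).symm
    have hsum : ∑ o, df ℓ (stb (comp τ o)) (θ o) =
        ∑ w, n w * df ℓ (stb (comp τ (s w))) (θ (s w)) := by
      rw [← Finset.sum_fiberwise Finset.univ q]
      refine Finset.sum_congr rfl fun w _ => ?_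
      rw [Finset.sum_congr rfl (g := fun _ => df ℓ (stb (comp τ (s w))) (θ (s w)))]
      · rw [Finset.sum_const, smul_eq_mul]
      · intro o ho
        rw [hdf o, (Finset.mem_filter.mp ho).2]
    change _ = (∏ w : Q, (Nat.card (stb (comp τ (s w))) : ℚ)) * _
    congr 1
    · change ∏ o ∈ Finset.univ.filter (fun o => r o = o), (Nat.card (stb (comp τ o)) : ℚ) = _
      exact Finset.prod_subtype (p := fun o => r o = o) _
        (fun o => by rw [Finset.mem_filter]; exact and_iff_right (Finset.mem_univ _)) _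
    · refine if_congr ?_ rfl rfl
      refine and_congr ?_ (and_congr ?_ ?_)
      · rw [hl1]
        constructor
        · intro h w
          have h' := h w.1
          rw [w.2] at h'
          exact h'
        · intro h o
          exact h (q o)
      · rw [hsum]
      · constructor
        · intro h w
          have h' := congrFun h w.1
          rw [← h']
          rfl
        · intro h
          funext o
          rw [hl2 o, ← hcomp o]
          congr 1
          have h' := h (q o)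
          exact h'
  have hC' : ∑ τ ∈ ClCh O G ℓ, (-1 : ℚ) ^ τ.card *
        ∑ θ ∈ (Fintype.piFinset (fun o => irrOn (stb (comp τ o)))).filter
          (fun θ => ∀ o, trB κ τ θ (s (q o)) o (g o)),
          P0 τ * (if cond τ θ then (1 : ℚ) else 0) =
      ∑ τ ∈ ClCh O G ℓ, (-1 : ℚ) ^ τ.card *
        ∑ θ ∈ (Fintype.piFinset (fun o => irrOn (stb (comp τ o)))).filter
          (fun θ => ∀ o, trB κ τ θ (s (q o)) o (g o)),
          H (fun w => comp τ (s w)) (fun w => θ (s w)) := by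
    refine Finset.sum_congr rfl fun τ hτ => ?_
    rw [Finset.sum_congr rfl (hC τ hτ)]
  rw [hC', FIXR_thm O Q G B ℓ κ q s g hqs (fun w => hg1 _ w.2) H]
  -- step D
  have hD : ∀ c th, H c th = ∑ E ∈ (Fintype.piFinset (fun _ : Q => Finset.range (e + 1))).filter
        (fun E => ∑ w, n w * E w = e), ∏ w, ((Nat.card (stb (c w)) : ℚ) *
        (if vg ρ p φ J w.1 ≤ (Stx κ (c w) (th w)).map ρ ∧ df ℓ (stb (c w)) (th w) = E w ∧
          bet 𝔐 ι κ ρ (c w) (th w) (vg ρ p φ J w.1) = β w.1 then 1 else 0)) := by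
    intro c th
    have hite : ∀ E : Q → ℕ, ∏ w, ((Nat.card (stb (c w)) : ℚ) *
        (if vg ρ p φ J w.1 ≤ (Stx κ (c w) (th w)).map ρ ∧ df ℓ (stb (c w)) (th w) = E w ∧
          bet 𝔐 ι κ ρ (c w) (th w) (vg ρ p φ J w.1) = β w.1 then 1 else 0)) =
        ((∏ w, (Nat.card (stb (c w)) : ℚ)) *
          (if (∀ w, vg ρ p φ J w.1 ≤ (Stx κ (c w) (th w)).map ρ) ∧
            ∀ w, bet 𝔐 ι κ ρ (c w) (th w) (vg ρ p φ J w.1) = β w.1 then 1 else 0)) *
          ∏ w, (if df ℓ (stb (c w)) (th w) = E w then (1 : ℚ) else 0) := by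
      intro E
      rw [Finset.prod_mul_distrib, mul_assoc]
      congr 1
      by_cases hx : (∀ w, vg ρ p φ J w.1 ≤ (Stx κ (c w) (th w)).map ρ) ∧
            ∀ w, bet 𝔐 ι κ ρ (c w) (th w) (vg ρ p φ J w.1) = β w.1
      · rw [if_pos hx, one_mul]
        refine Finset.prod_congr rfl fun w _ => ?_
        refine if_congr ?_ rfl rfl
        exact ⟨fun h => h.2.1, fun h => ⟨hx.1 w, h, hx.2 w⟩⟩
      · rw [if_neg hx, zero_mul]
        rw [not_and_or, not_forall, not_forall] at hx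
        rcases hx with ⟨w, hw⟩ | ⟨w, hw⟩
        · exact Finset.prod_eq_zero (Finset.mem_univ w) (if_neg fun h => hw h.1)
        · exact Finset.prod_eq_zero (Finset.mem_univ w) (if_neg fun h => hw h.2.2)
    simp_rw [hite]
    rw [← Finset.mul_sum, ← TJV.expand n _ hn e, mul_assoc]
    change (∏ w, (Nat.card (stb (c w)) : ℚ)) * _ = _
    congr 1
    exact TJV.ite_help _ _ _
  have hD' : ∑ τ ∈ ClCh Q G ℓ, (-1 : ℚ) ^ τ.card *
      ∑ θ ∈ Fintype.piFinset (fun w => irrOn (stb (comp τ w))), H (fun w => comp τ w) θ =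
      ∑ E ∈ (Fintype.piFinset (fun _ : Q => Finset.range (e + 1))).filter
        (fun E => ∑ w, n w * E w = e), ∏ w : Q, VS 𝔐 ℓ ι κ ρ (vg ρ p φ J w.1) (β w.1) (E w) := by
    have hE' : ∀ E : Q → ℕ, ∏ w : Q, VS 𝔐 ℓ ι κ ρ (vg ρ p φ J w.1) (β w.1) (E w) =
        ∑ τ ∈ ClCh Q G ℓ, (-1 : ℚ) ^ τ.card *
          ∑ θ ∈ Fintype.piFinset (fun w => irrOn (stb (comp τ w))),
            ∏ w, ((Nat.card (stb (comp τ w)) : ℚ) *
        (if vg ρ p φ J w.1 ≤ (Stx κ (comp τ w) (θ w)).map ρ ∧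
          df ℓ (stb (comp τ w)) (θ w) = E w ∧
          bet 𝔐 ι κ ρ (comp τ w) (θ w) (vg ρ p φ J w.1) = β w.1 then 1 else 0)) := by
      intro E
      exact (EVALR_thm Q G ℓ (fun w σ ψ => (Nat.card (stb σ) : ℚ) *
        (if vg ρ p φ J w.1 ≤ (Stx κ σ ψ).map ρ ∧
          df ℓ (stb σ) ψ = E w ∧
          bet 𝔐 ι κ ρ σ ψ (vg ρ p φ J w.1) = β w.1 then 1 else 0))).symm
    simp_rw [hE']
    rw [Finset.sum_comm]
    refine Finset.sum_congr rfl fun τ _ => ?_
    rw [Finset.sum_congr rfl (fun θ _ => hD _ _), Finset.sum_comm, Finset.mul_sum]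
  rw [hD']
  refine Finset.sum_eq_zero fun E _ => ?_
  refine Finset.prod_eq_zero (Finset.mem_univ (q o₀)) ?_
  apply hVS
  rw [← hcomp o₀] at ho₀
  exact gT_transport hL.cl hPr _ ho₀

end Pool.Agent.DPW


end

section

/-!
# Theorem W, module CPZ: normal `ℓ`-subgroups centralize the central product
-/

namespace Pool.Agent.DPW

open Pool.Agent.DP Pool.Agent.DPV Pool.Agent.Lib_helper13
open Pool.Agent.Lib_helper13.Dade (pCore)

namespace CPZ

/-- A normal subgroup `R` of a finite group with trivial `ℓ`-core, all of whose elements have a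
power of `ℓ`-power exponent in the centre, has order prime to `ℓ`. -/
theorem card_of_central {H : Type} [Group H] [Finite H] (ℓ : ℕ) [Fact ℓ.Prime]
    (hH : pCore ℓ H = ⊥) (R : Subgroup H) [R.Normal]
    (hR : ∀ r ∈ R, ∃ k, ∀ m : H, r ^ ℓ ^ k * m = m * r ^ ℓ ^ k) : ¬ ℓ ∣ Nat.card R := by
  have hpg : IsPGroup ℓ (R ⧸ Subgroup.center R) := by
    intro q
    obtain ⟨x, rfl⟩ := QuotientGroup.mk_surjective q
    obtain ⟨k, hk⟩ := hR x.1 x.2
    refine ⟨k, ?_⟩
    rw [← QuotientGroup.mk_pow, QuotientGroup.eq_one_iff, Subgroup.mem_center_iff]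
    intro y
    apply Subtype.ext
    exact (hk y.1).symm
  have hnil : Group.IsNilpotent R := Group.of_quotient_center_nilpotent hpg.isNilpotent
  obtain ⟨P⟩ : Nonempty (Sylow ℓ R) := inferInstance
  have hPn : (P : Subgroup R).Normal := inferInstance
  have hPc : (P : Subgroup R).Characteristic := P.characteristic_of_normal hPn
  have hPm : ((P : Subgroup R).map R.subtype).Normal := inferInstance
  have hle : (P : Subgroup R).map R.subtype ≤ ⊥ := by
    rw [← hH]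
    exact ZR.le_pCore ℓ _ hPm (P.isPGroup'.map _)
  intro hdvd
  have h1 : ℓ ∣ Nat.card P := P.dvd_card_of_dvd_card hdvd
  have h2 : (P : Subgroup R) = ⊥ := by
    rw [eq_bot_iff]
    intro x hx
    have h3 : (x : H) ∈ (P : Subgroup R).map R.subtype := ⟨x, hx, rfl⟩
    have h4 : (x : H) = 1 := Subgroup.mem_bot.1 (hle h3)
    exact Subgroup.mem_bot.2 (Subtype.ext h4)
  have h3 : Nat.card (P : Subgroup R) = 1 := by rw [h2]; exact Subgroup.card_bot
  have h4 : ℓ ∣ 1 := h3 ▸ h1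
  exact (Fact.out : ℓ.Prime).one_lt.ne' (Nat.dvd_one.1 h4)

end CPZ

theorem CPZ_thm : Stmt_CPZ := by
  intro X G Ω _ _ _ _ _ _ ℓ _ e c hG h1 h2 h3 Z hZ hP z hz
  have hH : pCore ℓ (Ω → G) = ⊥ := pCore_pi hG Ω
  have hker : ∀ n, e n = 1 → ∀ m, n * m = m * n := by
    intro n hn m
    have h4 := h2 n m
    rw [hn, map_one] at h4
    have h5 : m = n * m * n⁻¹ := h4
    calc n * m = n * m * n⁻¹ * n := by group
      _ = m * n := by rw [← h5]
  have hRn : (Z.comap e).Normal := hZ.comap e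
  have hcard : ¬ ℓ ∣ Nat.card (Z.comap e) := by
    refine CPZ.card_of_central ℓ hH (Z.comap e) ?_
    intro r hr
    obtain ⟨k, hk⟩ := hP ⟨e r, hr⟩
    refine ⟨k, hker _ ?_⟩
    have h4 : (e r) ^ ℓ ^ k = 1 := congrArg Subtype.val hk
    rw [map_pow]
    exact h4
  have hone : ∀ r : Ω → G, e r ∈ Z → e r = 1 := by
    intro r hr
    obtain ⟨k, hk⟩ := hP ⟨e r, hr⟩
    have h4 : (e r) ^ ℓ ^ k = 1 := congrArg Subtype.val hk
    have h5 : (⟨r, hr⟩ : Z.comap e) ^ Nat.card (Z.comap e) = 1 := pow_card_eq_one'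
    have h6 : r ^ Nat.card (Z.comap e) = 1 := congrArg Subtype.val h5
    have h7 : (e r) ^ Nat.card (Z.comap e) = 1 := by rw [← map_pow, h6, map_one]
    have h8 : Nat.Coprime (ℓ ^ k) (Nat.card (Z.comap e)) :=
      Nat.Coprime.pow_left k (((Fact.out : ℓ.Prime).coprime_iff_not_dvd).2 hcard)
    have h9 : orderOf (e r) ∣ 1 := by
      rw [← h8]
      exact Nat.dvd_gcd (orderOf_dvd_of_pow_eq_one h4) (orderOf_dvd_of_pow_eq_one h7)
    exact orderOf_eq_one_iff.1 (Nat.dvd_one.1 h9)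
  apply h3
  intro n
  have h4 : e (c z n * n⁻¹) = z * (e n * z⁻¹ * (e n)⁻¹) := by
    rw [map_mul, h1, map_inv]
    group
  have h5 : e (c z n * n⁻¹) ∈ Z := by
    rw [h4]
    exact Z.mul_mem hz (hZ.conj_mem _ (Z.inv_mem hz) _)
  have h6 := hone _ h5
  rw [h4] at h6
  calc z * e n = z * (e n * z⁻¹ * (e n)⁻¹) * (e n * z) := by group
    _ = e n * z := by rw [h6, one_mul]

end Pool.Agent.DPW


end
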