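import Mathlib
import Pool.Agent.DAM.C15
import Pool.Agent.DAM.C24
import Pool.Agent.DAM.C26
import Pool.Agent.DAM.C28
import Pool.Agent.DAM.C43

/-! Parts: DPN.RDE, DPN.YCC, DPT.CNTW, DPT.DGQ, DPC.TIG -/

section

/-!
# Extensions over groups of order prime to `ℓ`
-/

namespace Pool.Agent.DPN.RDE

open Pool.Agent.DP Pool.Agent.DPC Pool.Agent.DPM Pool.Agent.Lib_helper13 Representation
open Pool.Agent.Lib_helper13.Dade (pCore DadeHolds dadeSum)

/-- A homomorphism from a group of order prime to `ℓ` lifts along a surjection whose kernel is an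
`ℓ`-group. -/
theorem lift {V L L' : Type} [Group V] [Fintype V] [Group L] [Fintype L] [Group L'] (ℓ : ℕ)
    [Fact ℓ.Prime] (κ : L →* L') (hκ : Function.Surjective κ) (hp : IsPGroup ℓ κ.ker)
    (hV : ¬ ℓ ∣ Nat.card V) (f : V →* L') : ∃ g : V →* L, ∀ v, κ (g v) = f v := by
  classical
  let N : Subgroup (fpr f κ) := (ffst f κ).ker
  have hsurj : Function.Surjective (ffst f κ) := by
    intro v
    obtain ⟨l, hl⟩ := hκ (f v)
    exact ⟨⟨(v, l), hl.symm⟩, rfl⟩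
  have hNp : IsPGroup ℓ N := by
    intro x
    have h1 : ((x : fpr f κ) : V × L).1 = 1 := x.2
    have h2 : κ ((x : fpr f κ) : V × L).2 = 1 := by
      rw [← mem_fpr.mp (x : fpr f κ).2, h1, map_one]
    obtain ⟨k, hk⟩ := hp ⟨((x : fpr f κ) : V × L).2, h2⟩
    refine ⟨k, ?_⟩
    apply Subtype.ext
    apply Subtype.ext
    apply Prod.ext
    · change (((x : fpr f κ) : V × L).1) ^ ℓ ^ k = 1
      rw [h1, one_pow]
    · have h3 := congrArg (fun y : κ.ker => (y : L)) hk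
      exact h3
  have hNi : N.index = Nat.card V := by
    have h1 : (ffst f κ).ker.index = Nat.card (ffst f κ).range := Subgroup.index_ker _
    rw [show N.index = (ffst f κ).ker.index from rfl, h1,
      MonoidHom.range_eq_top.mpr hsurj]
    exact Nat.card_congr (Subgroup.topEquiv).toEquiv
  have hcop : Nat.Coprime (Nat.card N) N.index := by
    obtain ⟨k, hk⟩ := (IsPGroup.iff_card (p := ℓ)).mp hNp
    rw [hk, hNi]
    exact Nat.Coprime.pow_left k (((Fact.out : ℓ.Prime).coprime_iff_not_dvd).mpr hV)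
  obtain ⟨K, hK⟩ := Subgroup.exists_right_complement'_of_coprime hcop
  have hinj : Function.Injective ((ffst f κ).comp K.subtype) := by
    rw [injective_iff_map_eq_one]
    intro x hx
    have h1 : (x : fpr f κ) ∈ N := hx
    have h2 : (x : fpr f κ) ∈ N ⊓ K := ⟨h1, x.2⟩
    rw [hK.disjoint.eq_bot, Subgroup.mem_bot] at h2
    exact Subtype.ext h2
  have hsurj' : Function.Surjective ((ffst f κ).comp K.subtype) := by
    intro v
    obtain ⟨y, hy⟩ := hsurj v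
    obtain ⟨⟨n, k⟩, hnk⟩ := hK.2 y
    refine ⟨k, ?_⟩
    have h2 : ffst f κ (n : fpr f κ) = 1 := n.2
    have h3 : (n : fpr f κ) * (k : fpr f κ) = y := hnk
    change ffst f κ (k : fpr f κ) = v
    rw [← hy, ← h3, map_mul, h2, one_mul]
  let E : K ≃* V := MulEquiv.ofBijective ((ffst f κ).comp K.subtype) ⟨hinj, hsurj'⟩
  refine ⟨(fsnd f κ).comp (K.subtype.comp E.symm.toMonoidHom), fun v => ?_⟩
  have h1 : ffst f κ (E.symm v : K) = v := E.apply_symm_apply v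
  have h2 := mem_fpr.mp ((E.symm v : K) : fpr f κ).2
  change κ ((((E.symm v : K) : fpr f κ) : V × L).2) = f v
  rw [← h2]
  exact congrArg f h1

section TW

variable {A T K Γ L : Type} [Group A] [Group T] [Group K] [Group Γ] [Group L]
    {j : A →* T} {p : T →* K} {θ : A → ℂ} {e : A →* Γ} {q : Γ →* L} {r : Γ →* T} {E : Γ → ℂ}
    {U : Subgroup L} {μ : U →* ℂˣ} {π : L →* K} {c : T →* MulAut A}

/-- The elements of the twisted group are determined by their images. -/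
theorem inj (hc : ClG j c p) (h : TWD j p θ e q r E U μ π) {γ γ' : Γ} (h1 : r γ = r γ')
    (h2 : q γ = q γ') : γ = γ' := by
  have hq : q (γ * γ'⁻¹) = 1 := by rw [map_mul, map_inv, h2, mul_inv_cancel]
  have hr : r (γ * γ'⁻¹) = 1 := by rw [map_mul, map_inv, h1, mul_inv_cancel]
  obtain ⟨a, ha⟩ := (h.qk _).mp hq
  rw [← ha, h.re] at hr
  have ha1 : a = 1 := hc.inj (by rw [hr, map_one])
  rw [ha1, map_one] at ha
  exact (mul_inv_eq_one.mp ha.symm)

/-- The images of the elements of the twisted group. -/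
theorem surj (hc : ClG j c p) (h : TWD j p θ e q r E U μ π) {t : T} {l : L} (htl : p t = π l) :
    ∃ γ, r γ = t ∧ q γ = l := by
  obtain ⟨γ₀, hγ₀⟩ := h.rs t
  have h1 : π ((q γ₀)⁻¹ * l) = 1 := by
    rw [map_mul, map_inv, h.πq, hγ₀, htl, inv_mul_cancel]
  obtain ⟨γ', hγ'⟩ := h.qs ((q γ₀)⁻¹ * l)
  have h2 : p (r γ') = 1 := by rw [← h.πq, hγ', h1]
  obtain ⟨a, ha⟩ := (hc.ker _).mp h2
  have hqe : q (e a) = 1 := (h.qk _).mpr ⟨a, rfl⟩
  refine ⟨γ₀ * (γ' * (e a)⁻¹), ?_, ?_⟩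
  · rw [map_mul, map_mul, map_inv, h.re, ha, mul_inv_cancel, mul_one, hγ₀]
  · rw [map_mul, map_mul, map_inv, hqe, hγ', inv_one, mul_one, mul_inv_cancel_left]

end TW

end Pool.Agent.DPN.RDE

namespace Pool.Agent.DPN

open Pool.Agent.DP Pool.Agent.DPC Pool.Agent.DPM Pool.Agent.Lib_helper13 Representation
open Pool.Agent.Lib_helper13.Dade (pCore DadeHolds dadeSum)

/-- RDE: extensions over groups of order prime to `ℓ`. -/
theorem RDE_thm : Stmt_RDE := by
  intro A T H Γ L L' B V _ _ _ _ _ _ _ _ _ _ _ _ _ _ _ _ 𝔐 ℓ _ hmax hℓ j c p hc hp θ hθ hinv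
    e q r E U μ π hT κ π' μ' hQ Lm hLm hV f α β hαβ huniq
  classical
  obtain ⟨g, hg⟩ := RDE.lift ℓ κ hQ.κs hQ.κp hV f
  have hex : ∀ b, ∃ γ, r γ = α b ∧ q γ = g (β b) := by
    intro b
    apply RDE.surj hc hT
    rw [hαβ, ← hQ.ππ, hg]
  choose γ hγ1 hγ2 using hex
  let G : B →* Γ :=
    { toFun := γ
      map_one' := by
        apply RDE.inj hc hT
        · rw [hγ1, map_one, map_one]
        · rw [hγ2, map_one, map_one, map_one]
      map_mul' := by
        intro x y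
        apply RDE.inj hc hT
        · rw [hγ1, map_mul, map_mul, hγ1, hγ1]
        · rw [hγ2, map_mul, map_mul, map_mul, hγ2, hγ2] }
  refine ⟨fun b => E (G b), hT.Ec.comp G, ?_, ?_⟩
  · intro b a hb ha
    have h1 : G b = e a := by
      apply RDE.inj hc hT
      · change r (γ b) = r (e a)
        rw [hγ1, hT.re, ha]
      · change q (γ b) = q (e a)
        rw [hγ2, hb, map_one, (hT.qk _).mpr ⟨a, rfl⟩]
    change E (G b) = θ a
    rw [h1, hT.Ee]
  · intro u hu v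
    have h1 : Lm u (f v) = LmL 𝔐 θ q r E u (g v) := by
      rw [← hg, hLm u hu]
    rw [h1]
    unfold LmL
    congr 1
    unfold fib
    congr 1
    rw [← Finset.sum_filter, ← Finset.sum_filter]
    refine Finset.sum_bij (fun b _ => G b) ?_ ?_ ?_ ?_
    · intro b hb
      rw [Finset.mem_filter] at hb ⊢
      refine ⟨Finset.mem_univ _, ?_⟩
      change q (γ b) = g v
      rw [hγ2, hb.2]
    · intro b hb b' hb' h
      rw [Finset.mem_filter] at hb hb'
      have h2 : α b = α b' := by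
        rw [← hγ1 b, ← hγ1 b']
        exact congrArg r h
      obtain ⟨x, -, hx⟩ := huniq (α b) v (by rw [hαβ, hb.2])
      rw [hx b ⟨rfl, hb.2⟩, hx b' ⟨h2.symm, hb'.2⟩]
    · intro y hy
      rw [Finset.mem_filter] at hy
      obtain ⟨b, hb, -⟩ := huniq (r y) v (by rw [← hT.πq, hy.2, ← hg, hQ.ππ])
      refine ⟨b, ?_, ?_⟩
      · rw [Finset.mem_filter]
        exact ⟨Finset.mem_univ _, hb.2⟩
      · apply RDE.inj hc hT
        · change r (γ b) = r y
          rw [hγ1, hb.1]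
        · change q (γ b) = q y
          rw [hγ2, hb.2, hy.2]
    · intro b _
      change ((u (α b) : ℤ) : ℂ) * E (G b) = ((u (r (G b)) : ℤ) : ℂ) * E (G b)
      have : r (G b) = α b := hγ1 b
      rw [this]

end Pool.Agent.DPN


end

section

/-!
# YCC: the Moebius sum of the numbers of characters over an invariant linear character
-/

namespace Pool.Agent.DPN

open Pool.Agent.DP Pool.Agent.DPC Pool.Agent.DPM Pool.Agent.Lib_helper13 Representation

namespace YCC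

/-- Schur: an intertwining map of an irreducible representation is a scalar. -/
theorem scalar {A : Type} [Group A] {n : ℕ} (ρ : Representation ℂ A (Fin n → ℂ))
    (hρ : ρ.IsIrreducible) (f : (Fin n → ℂ) →ₗ[ℂ] (Fin n → ℂ))
    (hf : ∀ (g : A), f * ρ g = ρ g * f) :
    ∃ c : ℂ, f = c • (1 : Module.End ℂ (Fin n → ℂ)) := by
  have := hρ
  obtain ⟨c, hc⟩ :=
    (IsIrreducible.algebraMap_intertwiningMap_bijective_of_isAlgClosed (ρ := ρ)).2
      (LinearMap.intertwiningMap_of_isIntertwiningMap (ρ := ρ) (σ := ρ) f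
        (fun g v => congrArg (fun T : Module.End ℂ (Fin n → ℂ) => T v) (hf g)))
  refine ⟨c, ?_⟩
  have h := congrArg (fun T : IntertwiningMap ρ ρ => T.toLinearMap) hc
  ext v i
  have h2 := congrArg (fun T : (Fin n → ℂ) →ₗ[ℂ] (Fin n → ℂ) =>
    (T (Pi.single v 1)) i) h
  exact h2.symm

/-- Linear characters are irreducible. -/
theorem isIrr_lin {K : Type} [Group K] [Fintype K] (lam : K →* ℂˣ) :
    IsIrr (fun k => ((lam k : ℂˣ) : ℂ)) := by
  apply (isChr_lin lam).isIrr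
  simp

/-- The characters over an invariant linear character of a normal subgroup. -/
theorem over_lin {G : Type} [Group G] (N : Subgroup G) [Fintype N]
    (lam : N →* ℂˣ) (hl : ∀ (g : G) (r r' : N), (r' : G) = g * r * g⁻¹ → lam r' = lam r)
    (hN : N.Normal) {η : G → ℂ} (hη : IsIrr η)
    (hne : ∑ r : N, η r * ((lam r⁻¹ : ℂˣ) : ℂ) ≠ 0) (s : N) :
    η s = η 1 * ((lam s : ℂˣ) : ℂ) := by
  obtain ⟨n, ρ, hρ, rfl⟩ := hη
  let P : Module.End ℂ (Fin n → ℂ) := ∑ r : N, ((lam r⁻¹ : ℂˣ) : ℂ) • ρ r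
  have hP : ∀ g, P * ρ g = ρ g * P := by
    intro g
    have h1 : P * ρ g = ∑ r : N, ((lam r⁻¹ : ℂˣ) : ℂ) • ρ (r * g) := by
      change (∑ r : N, ((lam r⁻¹ : ℂˣ) : ℂ) • ρ r) * ρ g = _
      rw [Finset.sum_mul]
      refine Finset.sum_congr rfl fun r _ => ?_
      rw [smul_mul_assoc, map_mul]
    have h2 : ρ g * P = ∑ r : N, ((lam r⁻¹ : ℂˣ) : ℂ) • ρ (g * r) := by
      change ρ g * (∑ r : N, ((lam r⁻¹ : ℂˣ) : ℂ) • ρ r) = _
      rw [Finset.mul_sum]
      refine Finset.sum_congr rfl fun r _ => ?_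
      rw [mul_smul_comm, map_mul]
    rw [h1, h2]
    symm
    refine Fintype.sum_equiv (MulAut.conjNormal g).toEquiv _ _ ?_
    intro r
    have h3 : (((MulAut.conjNormal g).toEquiv r : N) : G) = g * r * g⁻¹ := by
      simp
    have h4 : lam ((MulAut.conjNormal g).toEquiv r)⁻¹ = lam r⁻¹ := by
      rw [map_inv, map_inv, hl g r _ h3]
    rw [h4, h3, inv_mul_cancel_right]
  obtain ⟨c, hc⟩ := scalar ρ hρ P hP
  have htr : LinearMap.trace ℂ (Fin n → ℂ) P = ∑ r : N, ρ.character r * ((lam r⁻¹ : ℂˣ) : ℂ) := by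
    change LinearMap.trace ℂ (Fin n → ℂ) (∑ r : N, ((lam r⁻¹ : ℂˣ) : ℂ) • ρ r) = _
    rw [map_sum]
    refine Finset.sum_congr rfl fun r _ => ?_
    rw [map_smul, smul_eq_mul, mul_comm]
    rfl
  have hc0 : c ≠ 0 := by
    rintro rfl
    apply hne
    rw [← htr, hc, zero_smul, map_zero]
  have h5 : ρ s * P = ((lam s : ℂˣ) : ℂ) • P := by
    change ρ s * (∑ r : N, ((lam r⁻¹ : ℂˣ) : ℂ) • ρ r) = _ • (∑ r : N, ((lam r⁻¹ : ℂˣ) : ℂ) • ρ r)
    rw [Finset.mul_sum, Finset.smul_sum]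
    refine Fintype.sum_equiv (Equiv.mulLeft s) _ _ ?_
    intro r
    have h6 : (Equiv.mulLeft s) r = s * r := rfl
    rw [h6, mul_smul_comm, smul_smul, Subgroup.coe_mul, map_mul]
    congr 1
    rw [mul_inv_rev, map_mul, Units.val_mul, map_inv (f := lam) s]
    rw [mul_comm ((lam r⁻¹ : ℂˣ) : ℂ), ← mul_assoc, ← Units.val_mul, mul_inv_cancel,
      Units.val_one, one_mul]
  rw [hc, mul_smul_comm, mul_one, smul_comm] at h5
  have h7 : ρ s = ((lam s : ℂˣ) : ℂ) • (1 : Module.End ℂ (Fin n → ℂ)) := by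
    have := congrArg (fun T : Module.End ℂ (Fin n → ℂ) => c⁻¹ • T) h5
    simpa [smul_smul, hc0] using this
  change LinearMap.trace ℂ (Fin n → ℂ) (ρ s) = LinearMap.trace ℂ (Fin n → ℂ) (ρ 1) * _
  rw [h7, map_one, map_smul, smul_eq_mul, mul_comm]

open Classical in
/-- One subgroup. -/
theorem one (h1 : Stmt_FRO) {V : Type} [Group V] [Fintype V] (S : Subgroup V) [S.Normal]
    (hS : ∀ x y : V, x * y * x⁻¹ * y⁻¹ ∈ S) (lam : S →* ℂˣ)
    (hl : ∀ (v : V) (r r' : S), (r' : V) = v * r * v⁻¹ → lam r' = lam r) (V' : Subgroup V)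
    (hV : S ≤ V') :
    (Nat.card V' : ℂ) * Nat.card {ζ : V' → ℂ // IsIrr ζ ∧
        ∀ (s : V) (hs : s ∈ S) (hs' : s ∈ V'), ζ ⟨s, hs'⟩ = ζ 1 * ((lam ⟨s, hs⟩ : ℂˣ) : ℂ)} =
      ∑ x : V', ∑ y : V', ((lam ⟨(x : V) * y * (x : V)⁻¹ * (y : V)⁻¹, hS x y⟩ : ℂˣ) : ℂ)⁻¹ /
        Nat.card S := by
  let N : Subgroup V' := S.subgroupOf V'
  have hNn : N.Normal := inferInstanceAs (S.subgroupOf V').Normal
  let lamV : N →* ℂˣ := lam.comp (V'.subtype.subgroupComap S)
  have hlamV : ∀ (s : V) (hs : s ∈ S) (hs' : s ∈ V'), lamV ⟨⟨s, hs'⟩, hs⟩ = lam ⟨s, hs⟩ :=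
    fun s hs hs' => rfl
  have hinv : ∀ (g : V') (r r' : N), (r' : V') = g * r * g⁻¹ → lamV r' = lamV r := by
    intro g r r' hr
    apply hl (g : V)
    have := congrArg (fun v : V' => (v : V)) hr
    exact this
  have hcard : Nat.card N = Nat.card S :=
    Nat.card_congr (Subgroup.subgroupOfEquivOfLe hV).toEquiv
  have h2 := h1 V' N (fun κ => ∀ n, κ n = ((lamV n : ℂˣ) : ℂ)) (by
    intro g κ hκ n
    change κ (MulAut.conjNormal g n) = _
    rw [hκ]
    congr 1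
    apply hinv g
    simp)
  have h3 : Nat.card {η : V' → ℂ // IsIrr η ∧ ∃ κ : N → ℂ, IsIrr κ ∧
      (∀ n, κ n = ((lamV n : ℂˣ) : ℂ)) ∧ ip (resj N.subtype η) κ ≠ 0} =
      Nat.card {ζ : V' → ℂ // IsIrr ζ ∧
        ∀ (s : V) (hs : s ∈ S) (hs' : s ∈ V'), ζ ⟨s, hs'⟩ = ζ 1 * ((lam ⟨s, hs⟩ : ℂˣ) : ℂ)} := by
    apply Nat.card_congr
    apply Equiv.subtypeEquivRight
    intro η
    refine and_congr_right fun hη => ?_
    constructor
    · rintro ⟨κ, -, hκ, hne⟩ s hs hs'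
      have h4 := over_lin N lamV hinv hNn hη (by
        intro h0
        apply hne
        rw [ip]
        have h5 : ∑ g : N, resj N.subtype η g * κ g⁻¹ = ∑ r : N, η r * ((lamV r⁻¹ : ℂˣ) : ℂ) := by
          refine Finset.sum_congr rfl fun g _ => ?_
          rw [hκ]
          rfl
        rw [h5, h0, zero_div]) ⟨⟨s, hs'⟩, hs⟩
      exact h4
    · intro h
      refine ⟨fun n => ((lamV n : ℂˣ) : ℂ), isIrr_lin lamV, fun n => rfl, ?_⟩
      rw [ip]
      have h5 : ∑ g : N, resj N.subtype η g * ((lamV g⁻¹ : ℂˣ) : ℂ) = (Nat.card N : ℂ) * η 1 := by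
        have h6 : ∀ g : N, resj N.subtype η g * ((lamV g⁻¹ : ℂˣ) : ℂ) = η 1 := by
          intro g
          have h7 : resj N.subtype η g = η 1 * ((lamV g : ℂˣ) : ℂ) :=
            h (((g : V') : V)) g.2 (g : V').2
          rw [h7, mul_assoc, ← Units.val_mul, ← map_mul, mul_inv_cancel, map_one, Units.val_one,
            mul_one]
        rw [Finset.sum_congr rfl fun g _ => h6 g, Finset.sum_const, Finset.card_univ, nsmul_eq_mul,
          Nat.card_eq_fintype_card]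
      rw [h5, mul_div_assoc]
      exact mul_ne_zero natCard_ne_zero (div_ne_zero hη.one_ne_zero natCard_ne_zero)
  rw [h3] at h2
  rw [h2]
  refine Finset.sum_congr rfl fun x _ => Finset.sum_congr rfl fun y _ => ?_
  have hmem : x * y * x⁻¹ * y⁻¹ ∈ N := hS (x : V) (y : V)
  rw [if_pos hmem, ed]
  have hfil : ∀ inst : DecidablePred (fun κ : N → ℂ => ∀ n, κ n = ((lamV n : ℂˣ) : ℂ)),
      @Finset.filter _ (fun κ : N → ℂ => ∀ n, κ n = ((lamV n : ℂˣ) : ℂ)) inst (irrF N) =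
      {fun n => ((lamV n : ℂˣ) : ℂ)} := by
    intro inst
    ext κ
    rw [Finset.mem_filter, Finset.mem_singleton]
    constructor
    · intro h
      ext n
      exact h.2 n
    · rintro rfl
      exact ⟨mem_irrF.mpr (isIrr_lin lamV), fun n => rfl⟩
  have h9 : (fun n : N => ((lamV n : ℂˣ) : ℂ)) 1 = 1 := by
    change ((lamV 1 : ℂˣ) : ℂ) = 1
    rw [map_one, Units.val_one]
  rw [hfil, Finset.sum_singleton, h9, one_mul, hcard]
  congr 1
  have hmem' : (x * y * x⁻¹ * y⁻¹)⁻¹ ∈ N := N.inv_mem hmem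
  rw [ext0, dif_pos hmem']
  have h8 : lamV ⟨(x * y * x⁻¹ * y⁻¹)⁻¹, hmem'⟩ =
      (lam ⟨(x : V) * y * (x : V)⁻¹ * (y : V)⁻¹, hS x y⟩)⁻¹ := by
    rw [← map_inv lam]
    rfl
  rw [h8, Units.val_inv_eq_inv_val]

end YCC

open Classical in
theorem YCC_thm (h1 : Stmt_FRO) : Stmt_YCC := by
  intro V _ _ S _ hS lam hl m hm hmS
  set f : V → V → ℂ := fun x y => ((lam ⟨x * y * x⁻¹ * y⁻¹, hS x y⟩ : ℂˣ) : ℂ)⁻¹ with hf
  have h2 : ∀ V' : Subgroup V, ((m V' : ℚ) : ℂ) * ((Nat.card V' : ℂ) *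
      Nat.card {ζ : V' → ℂ // IsIrr ζ ∧
        ∀ (s : V) (hs : s ∈ S) (hs' : s ∈ V'), ζ ⟨s, hs'⟩ = ζ 1 * ((lam ⟨s, hs⟩ : ℂˣ) : ℂ)}) =
      ∑ x : V, ∑ y : V, (if x ∈ V' ∧ y ∈ V' then ((m V' : ℚ) : ℂ) else 0) *
        (f x y / Nat.card S) := by
    intro V'
    by_cases hV : m V' = 0
    · rw [hV]
      simp
    · rw [YCC.one h1 S hS lam hl V' (hmS V' hV)]
      have h3 : ∀ F : V → ℂ, ∑ x : V', F x = ∑ x : V, if x ∈ V' then F x else 0 := by
        intro F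
        rw [← Finset.sum_filter]
        exact (Finset.sum_subtype (Finset.univ.filter fun x => x ∈ V') (by simp) F).symm
      have h4 : ∀ x y : V', ((lam ⟨(x : V) * y * (x : V)⁻¹ * (y : V)⁻¹, hS x y⟩ : ℂˣ) : ℂ)⁻¹ =
          f x y := fun x y => rfl
      simp only [h4]
      rw [h3 (fun x => ∑ y : V', f x y / Nat.card S), Finset.mul_sum]
      refine Finset.sum_congr rfl fun x _ => ?_
      by_cases hx : x ∈ V'
      · rw [if_pos hx, h3 (fun y => f x y / Nat.card S), Finset.mul_sum]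
        refine Finset.sum_congr rfl fun y _ => ?_
        by_cases hy : y ∈ V'
        · rw [if_pos hy, if_pos ⟨hx, hy⟩]
        · rw [if_neg hy, if_neg (fun h => hy h.2), mul_zero, zero_mul]
      · rw [if_neg hx, mul_zero]
        symm
        apply Finset.sum_eq_zero
        intro y _
        rw [if_neg (fun h => hx h.1), zero_mul]
  rw [Finset.sum_congr rfl fun V' _ => h2 V', Finset.sum_comm, Finset.sum_div]
  refine Finset.sum_congr rfl fun x _ => ?_
  rw [Finset.sum_comm, Finset.sum_div]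
  refine Finset.sum_congr rfl fun y _ => ?_
  rw [← Finset.sum_mul]
  have h5 : ∑ V' : Subgroup V, (if x ∈ V' ∧ y ∈ V' then ((m V' : ℚ) : ℂ) else 0) =
      if Subgroup.closure {x, y} = ⊤ then 1 else 0 := by
    have h6 := hm (Subgroup.closure {x, y})
    have h7 : (Finset.univ.filter fun V' : Subgroup V => Subgroup.closure {x, y} ≤ V') =
        Finset.univ.filter fun V' : Subgroup V => x ∈ V' ∧ y ∈ V' := by
      ext V'
      rw [Finset.mem_filter, Finset.mem_filter, Subgroup.closure_le, Set.insert_subset_iff,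
        Set.singleton_subset_iff]
      rfl
    rw [h7] at h6
    rw [← Finset.sum_filter]
    have h8 := congrArg (fun q : ℚ => (q : ℂ)) h6
    push_cast at h8
    rw [h8]
    split_ifs <;> simp
  rw [h5]
  by_cases hcl : Subgroup.closure {x, y} = ⊤
  · rw [if_pos hcl, if_pos hcl, one_mul]
  · rw [if_neg hcl, if_neg hcl, zero_mul, zero_div]

end Pool.Agent.DPN


end

section

/-!
# CNTW: the numbers of characters over linear characters which differ by an extendible one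
-/

set_option linter.unusedSectionVars false

namespace Pool.Agent.DPT

open Pool.Agent.DP Pool.Agent.DPC Pool.Agent.DPM Pool.Agent.DPN Pool.Agent.Lib_helper13
open Representation

namespace CNTW

section

variable {W L₁ L₂ : Type} [Group W] [Fintype W] [Group L₁] [Fintype L₁] [Group L₂] [Fintype L₂]
  {a : W →* L₁} {b : W →* L₂} {U₁ : Subgroup L₁} {U₂ : Subgroup L₂} {μ₁ : U₁ →* ℂˣ}
  {μ₂ : U₂ →* ℂˣ} {c : W →* ℂˣ}

/-- The product of a character with a linear character is irreducible. -/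
theorem irr_mul {ψ : W → ℂ} (hψ : IsIrr ψ) (c : W →* ℂˣ) :
    IsIrr (fun w => ψ w * ((c w : ℂˣ) : ℂ)) := by
  apply (hψ.isChr.mul (isChr_lin c)).isIrr
  rw [← hψ.sum_self]
  refine Finset.sum_congr rfl fun g _ => ?_
  rw [map_inv, mul_mul_mul_comm, ← Units.val_mul, mul_inv_cancel, Units.val_one, mul_one]

theorem push (ha : Function.Surjective a) (hb : Function.Surjective b)
    (hU : ∀ w, a w ∈ U₁ ↔ b w ∈ U₂)
    (hc : ∀ w (h₁ : a w ∈ U₁) (h₂ : b w ∈ U₂), μ₁ ⟨a w, h₁⟩ * c w = μ₂ ⟨b w, h₂⟩)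
    {η : L₁ → ℂ} (hη : IsIrr η)
    (hμ : ∀ (u : U₁) (l : L₁), η (u * l) = ((μ₁ u : ℂˣ) : ℂ) * η l) :
    ∃ η' : L₂ → ℂ, (∀ w, η' (b w) = η (a w) * ((c w : ℂˣ) : ℂ)) ∧ IsIrr η' ∧
      (∀ (u : U₂) (l : L₂), η' (u * l) = ((μ₂ u : ℂˣ) : ℂ) * η' l) := by
  have h1 : IsIrr (fun w => η (a w) * ((c w : ℂˣ) : ℂ)) :=
    irr_mul (QINF.irr_inf a ha hη) c
  have h2 : ∀ x y, b x ∈ U₂ → ∀ h₂ : b x ∈ U₂, η (a (x * y)) * ((c (x * y) : ℂˣ) : ℂ) =
      ((μ₂ ⟨b x, h₂⟩ : ℂˣ) : ℂ) * (η (a y) * ((c y : ℂˣ) : ℂ)) := by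
    intro x y _ h₂
    have h₁ : a x ∈ U₁ := (hU x).mpr h₂
    have h3 := hμ ⟨a x, h₁⟩ (a y)
    change η (a x * a y) = _ at h3
    rw [map_mul, map_mul, h3, ← hc x h₁ h₂, Units.val_mul, Units.val_mul]
    ring
  obtain ⟨η', hη', he⟩ := QINF.exists_inf b hb h1 (by
    intro x y hx
    have hx2 : b x ∈ U₂ := by rw [hx]; exact U₂.one_mem
    have h3 := h2 x y hx2 hx2
    have h4 : (⟨b x, hx2⟩ : U₂) = 1 := Subtype.ext hx
    rw [h4, map_one, Units.val_one, one_mul] at h3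
    exact h3)
  have he' : ∀ w, η' (b w) = η (a w) * ((c w : ℂˣ) : ℂ) := fun w => (congrFun he w).symm
  refine ⟨η', he', hη', ?_⟩
  intro u l
  obtain ⟨x, hx⟩ := hb (u : L₂)
  obtain ⟨y, rfl⟩ := hb l
  have hx2 : b x ∈ U₂ := by rw [hx]; exact u.2
  have h3 := h2 x y hx2 hx2
  have h4 : (⟨b x, hx2⟩ : U₂) = u := Subtype.ext hx
  rw [← he' (x * y), ← he' y, map_mul, h4] at h3
  rw [← hx]
  exact h3

theorem main (ha : Function.Surjective a) (hb : Function.Surjective b)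
    (hU : ∀ w, a w ∈ U₁ ↔ b w ∈ U₂)
    (hc : ∀ w (h₁ : a w ∈ U₁) (h₂ : b w ∈ U₂), μ₁ ⟨a w, h₁⟩ * c w = μ₂ ⟨b w, h₂⟩) (n : ℕ) :
    Nat.card {η : L₁ → ℂ // IsIrr η ∧
        (∀ (u : U₁) (l : L₁), η (u * l) = ((μ₁ u : ℂˣ) : ℂ) * η l) ∧ η 1 = n} =
      Nat.card {η : L₂ → ℂ // IsIrr η ∧
        (∀ (u : U₂) (l : L₂), η (u * l) = ((μ₂ u : ℂˣ) : ℂ) * η l) ∧ η 1 = n} := by
  have hc' : ∀ w (h₂ : b w ∈ U₂) (h₁ : a w ∈ U₁), μ₂ ⟨b w, h₂⟩ * (c⁻¹) w = μ₁ ⟨a w, h₁⟩ := by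
    intro w h₂ h₁
    rw [← hc w h₁ h₂, MonoidHom.inv_apply, mul_inv_cancel_right]
  have hf : ∀ η : {η : L₁ → ℂ // IsIrr η ∧
        (∀ (u : U₁) (l : L₁), η (u * l) = ((μ₁ u : ℂˣ) : ℂ) * η l) ∧ η 1 = n},
      ∃ η' : {η : L₂ → ℂ // IsIrr η ∧
        (∀ (u : U₂) (l : L₂), η (u * l) = ((μ₂ u : ℂˣ) : ℂ) * η l) ∧ η 1 = n},
        ∀ w, η'.1 (b w) = η.1 (a w) * ((c w : ℂˣ) : ℂ) := by
    rintro ⟨η, h1, h2, h3⟩
    obtain ⟨η', h4, h5, h6⟩ := push (c := c) ha hb hU hc h1 h2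
    refine ⟨⟨η', h5, h6, ?_⟩, h4⟩
    have h7 := h4 1
    rw [map_one, map_one, map_one, Units.val_one, mul_one, h3] at h7
    exact h7
  choose f hf using hf
  refine Nat.card_congr (Equiv.ofBijective f ⟨?_, ?_⟩)
  · intro η η' h
    apply Subtype.ext
    funext l
    obtain ⟨w, rfl⟩ := ha l
    have h1 := hf η w
    rw [h, hf η' w] at h1
    exact (mul_right_cancel₀ (c w).ne_zero h1).symm
  · rintro ⟨η, h1, h2, h3⟩
    obtain ⟨η', h4, h5, h6⟩ := push (a := b) (b := a) (c := c⁻¹) hb ha (fun w => (hU w).symm)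
      hc' h1 h2
    have h7 : η' 1 = n := by
      have h8 := h4 1
      rw [map_one, map_one, map_one, Units.val_one, mul_one, h3] at h8
      exact h8
    refine ⟨⟨η', h5, h6, h7⟩, ?_⟩
    apply Subtype.ext
    funext l
    obtain ⟨w, rfl⟩ := hb l
    rw [hf ⟨η', h5, h6, h7⟩ w]
    change η' (a w) * _ = η (b w)
    rw [h4 w, mul_assoc, ← Units.val_mul, MonoidHom.inv_apply, inv_mul_cancel, Units.val_one,
      mul_one]

end

end CNTW

/-- CNTW: the numbers of characters over linear characters which differ by an extendible one. -/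
theorem CNTW_thm : Stmt_CNTW := by
  intro L₁ L₂ K _ _ _ _ _ π₁ π₂ U₁ U₂ μ₁ μ₂ hs₁ hs₂ hk₁ hk₂ κ hκ n
  classical
  have : Fintype ↥(fpr π₁ π₂) := Fintype.ofFinite _
  have hw : ∀ w : ↥(fpr π₁ π₂), π₁ (ffst π₁ π₂ w) = π₂ (fsnd π₁ π₂ w) := fun w => w.2
  refine CNTW.main (a := ffst π₁ π₂) (b := fsnd π₁ π₂) (c := κ) ?_ ?_ ?_ ?_ n
  · intro l
    obtain ⟨l', hl'⟩ := hs₂ (π₁ l)
    exact ⟨⟨(l, l'), hl'.symm⟩, rfl⟩
  · intro l
    obtain ⟨l', hl'⟩ := hs₁ (π₂ l)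
    exact ⟨⟨(l', l), hl'⟩, rfl⟩
  · intro w
    rw [← hk₁, ← hk₂, hw w]
  · intro w h₁ h₂
    exact hκ w h₁ h₂

end Pool.Agent.DPT


end

section

/-!
# DGQ: the numbers of characters over corresponding characters of defect zero
-/

set_option linter.unusedSectionVars false

namespace Pool.Agent.DPT

open Pool.Agent.DP Pool.Agent.DPC Pool.Agent.DPM Pool.Agent.DPN Pool.Agent.Lib_helper13
open Representation
open Pool.Agent.Lib_helper13.Dade (pCore DadeHolds dadeSum)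

namespace DGQ

section Grp

variable {G : Type} [Group G]

/-- Commuting generators: the generated subgroup is commutative. -/
theorem comm_closure {a b : G} (hab : a * b = b * a) {u v : G}
    (hu : u ∈ Subgroup.closure ({a, b} : Set G)) (hv : v ∈ Subgroup.closure ({a, b} : Set G)) :
    u * v = v * u := by
  have h1 : ∀ w ∈ Subgroup.closure ({a, b} : Set G), a * w = w * a ∧ b * w = w * b := by
    intro w hw
    have h2 : Subgroup.closure ({a, b} : Set G) ≤ Subgroup.centralizer ({a, b} : Set G) := by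
      rw [Subgroup.closure_le]
      rintro x (rfl | rfl)
      · rw [SetLike.mem_coe, Subgroup.mem_centralizer_iff]
        rintro y (rfl | rfl)
        · rfl
        · exact hab.symm
      · rw [SetLike.mem_coe, Subgroup.mem_centralizer_iff]
        rintro y (rfl | rfl)
        · exact hab
        · rfl
    have h3 := Subgroup.mem_centralizer_iff.mp (h2 hw)
    exact ⟨h3 a (Or.inl rfl), h3 b (Or.inr rfl)⟩
  have h2 : Subgroup.closure ({a, b} : Set G) ≤
      Subgroup.centralizer ((Subgroup.closure ({a, b} : Set G) : Subgroup G) : Set G) := by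
    rw [Subgroup.closure_le]
    rintro x (rfl | rfl)
    · rw [SetLike.mem_coe, Subgroup.mem_centralizer_iff]
      intro y hy
      exact (h1 y hy).1.symm
    · rw [SetLike.mem_coe, Subgroup.mem_centralizer_iff]
      intro y hy
      exact (h1 y hy).2.symm
  exact Subgroup.mem_centralizer_iff.mp (h2 hv) u hu

theorem pow_closure {a b : G} (hab : a * b = b * a) {n : ℕ} (ha : a ^ n = 1) (hb : b ^ n = 1)
    {u : G} (hu : u ∈ Subgroup.closure ({a, b} : Set G)) : u ^ n = 1 := by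
  induction hu using Subgroup.closure_induction with
  | mem x hx =>
    rcases hx with rfl | rfl
    · exact ha
    · exact hb
  | one => exact one_pow n
  | mul x y hx hy h1 h2 =>
    have h3 : Commute x y := comm_closure hab hx hy
    rw [h3.mul_pow, h1, h2, mul_one]
  | inv x hx h1 => rw [inv_pow, h1, inv_one]

/-- The subgroup generated by a normal subgroup `C` of `S` and two elements which commute modulo
`C`. -/
theorem gen {S C : Subgroup G} (hCS : C ≤ S) (hn : ∀ s ∈ S, ∀ c ∈ C, s * c * s⁻¹ ∈ C) {a b : G}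
    (ha : a ∈ S) (hb : b ∈ S) (hab : a * b * a⁻¹ * b⁻¹ ∈ C) {n : ℕ} (han : a ^ n ∈ C)
    (hbn : b ^ n ∈ C) :
    C ⊔ Subgroup.closure {a, b} ≤ S ∧
    (∀ s ∈ C ⊔ Subgroup.closure {a, b}, ∀ t ∈ C ⊔ Subgroup.closure {a, b},
      s * t * s⁻¹ * t⁻¹ ∈ C) ∧
    ∀ s ∈ C ⊔ Subgroup.closure {a, b}, s ^ n ∈ C := by
  have hle : C ⊔ Subgroup.closure {a, b} ≤ S := by
    refine sup_le hCS ?_
    rw [Subgroup.closure_le]
    rintro x (rfl | rfl)
    · exact ha
    · exact hb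
  have hN : (C.subgroupOf S).Normal := by
    refine ⟨fun c hc s => ?_⟩
    rw [Subgroup.mem_subgroupOf] at hc ⊢
    exact hn s s.2 c hc
  let q : S →* S ⧸ C.subgroupOf S := QuotientGroup.mk' (C.subgroupOf S)
  have hq : ∀ s : S, q s = 1 ↔ (s : G) ∈ C := by
    intro s
    rw [← MonoidHom.mem_ker, QuotientGroup.ker_mk', Subgroup.mem_subgroupOf]
  have hcl : ∀ (s : G) (hs : s ∈ S), s ∈ C ⊔ Subgroup.closure {a, b} →
      q ⟨s, hs⟩ ∈ Subgroup.closure ({q ⟨a, ha⟩, q ⟨b, hb⟩} : Set (S ⧸ C.subgroupOf S)) := by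
    intro s hs hs'
    have h1 : C ⊔ Subgroup.closure {a, b} ≤
        ((Subgroup.closure ({q ⟨a, ha⟩, q ⟨b, hb⟩} :
          Set (S ⧸ C.subgroupOf S))).comap q).map S.subtype := by
      refine sup_le ?_ ?_
      · intro c hc
        refine ⟨⟨c, hCS hc⟩, ?_, rfl⟩
        have e1 : q ⟨c, hCS hc⟩ = 1 := (hq ⟨c, hCS hc⟩).mpr hc
        rw [SetLike.mem_coe, Subgroup.mem_comap, e1]
        exact one_mem _
      · rw [Subgroup.closure_le]
        rintro x (rfl | rfl)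
        · exact ⟨⟨x, ha⟩, Subgroup.subset_closure (Or.inl rfl), rfl⟩
        · exact ⟨⟨x, hb⟩, Subgroup.subset_closure (Or.inr rfl), rfl⟩
    obtain ⟨t, ht, ht'⟩ := h1 hs'
    have h2 : t = ⟨s, hs⟩ := Subtype.ext ht'
    rw [h2] at ht
    exact ht
  have hc : q ⟨a, ha⟩ * q ⟨b, hb⟩ = q ⟨b, hb⟩ * q ⟨a, ha⟩ := by
    have h1 : q (⟨a, ha⟩ * ⟨b, hb⟩ * ⟨a, ha⟩⁻¹ * ⟨b, hb⟩⁻¹) = 1 := (hq _).mpr hab
    rw [map_mul, map_mul, map_mul, map_inv, map_inv, mul_inv_eq_one, mul_inv_eq_iff_eq_mul] at h1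
    exact h1
  refine ⟨hle, ?_, ?_⟩
  · intro s hs t ht
    have h1 := comm_closure hc (hcl s (hle hs) hs) (hcl t (hle ht) ht)
    have h2 : q (⟨s, hle hs⟩ * ⟨t, hle ht⟩ * ⟨s, hle hs⟩⁻¹ * ⟨t, hle ht⟩⁻¹) = 1 := by
      rw [map_mul, map_mul, map_mul, map_inv, map_inv, mul_inv_eq_one, mul_inv_eq_iff_eq_mul]
      exact h1
    exact (hq _).mp h2
  · intro s hs
    have h1 : q (⟨a, ha⟩ : S) ^ n = 1 := by
      rw [← map_pow]
      exact (hq _).mpr han
    have h2 : q (⟨b, hb⟩ : S) ^ n = 1 := by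
      rw [← map_pow]
      exact (hq _).mpr hbn
    have h3 := pow_closure hc h1 h2 (hcl s (hle hs) hs)
    rw [← map_pow] at h3
    exact (hq _).mp h3

/-- The centralizer is normalized. -/
theorem cN_conj {M R : Subgroup G} {s : G} (hM : ∀ n, n ∈ M ↔ s * n * s⁻¹ ∈ M)
    (hR : ∀ r, r ∈ R ↔ s * r * s⁻¹ ∈ R) (c : G) : c ∈ cN M R ↔ s * c * s⁻¹ ∈ cN M R := by
  have h1 : ∀ c : G, c ∈ cN M R ↔ c ∈ M ∧ ∀ r ∈ R, r * c = c * r := by
    intro c
    rw [DP.cN, Subgroup.mem_inf, Subgroup.mem_centralizer_iff]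
    rfl
  rw [h1, h1, ← hM c]
  refine and_congr_right fun _ => ⟨fun h r hr => ?_, fun h r hr => ?_⟩
  · have h2 : s⁻¹ * r * s ∈ R := by
      rw [hR]
      have : s * (s⁻¹ * r * s) * s⁻¹ = r := by group
      rw [this]
      exact hr
    have h3 := h _ h2
    calc r * (s * c * s⁻¹) = s * ((s⁻¹ * r * s) * c) * s⁻¹ := by group
      _ = s * (c * (s⁻¹ * r * s)) * s⁻¹ := by rw [h3]
      _ = s * c * s⁻¹ * r := by group
  · have h3 := h _ ((hR r).mp hr)
    calc r * c = s⁻¹ * ((s * r * s⁻¹) * (s * c * s⁻¹)) * s := by group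
      _ = s⁻¹ * ((s * c * s⁻¹) * (s * r * s⁻¹)) * s := by rw [h3]
      _ = c * r := by group

end Grp

end DGQ

theorem DGQ_thm (h1 : Stmt_CQ) (h2 : Stmt_BTF) (h3 : Stmt_BTL) (h4 : Stmt_XIP) (h5 : Stmt_MLE)
    (h6 : Stmt_MLT) (h7 : Stmt_DGSB) (h8 : Stmt_DGSC) : Stmt_DGQ := by
  intro Y G K _ _ _ _ _ _ 𝔐 ℓ _ hmax hℓ hH k hk lam M₀ R S hMk f hf hR hRM hRn hSk hSR hCS
    θ θ' hθ hθ' hDG hSθ χ χ' hχ hχ' d
  have hCM : cN M₀ R ≤ M₀ := inf_le_left
  -- normality of `M₀` in the range of `k`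
  have hMn : ∀ x ∈ k.range, ∀ n ∈ M₀, x * n * x⁻¹ ∈ M₀ := by
    intro x hx n hn
    have e1 : f (⟨x, hx⟩ * ⟨n, hMk hn⟩ * ⟨x, hx⟩⁻¹) = 1 := by
      rw [map_mul, map_mul, (hf ⟨n, hMk hn⟩).mpr hn, mul_one, ← map_mul, mul_inv_cancel, map_one]
    exact (hf _).mp e1
  have hMn' : ∀ x ∈ k.range, ∀ n, n ∈ M₀ ↔ x * n * x⁻¹ ∈ M₀ := by
    intro x hx n
    refine ⟨hMn x hx n, fun h => ?_⟩
    have e1 := hMn x⁻¹ (inv_mem hx) _ h
    have e2 : x⁻¹ * (x * n * x⁻¹) * x⁻¹⁻¹ = n := by group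
    rwa [e2] at e1
  have hSR' : ∀ s ∈ S, ∀ r, r ∈ R ↔ s * r * s⁻¹ ∈ R := by
    intro s hs r
    refine ⟨hSR s hs r, fun h => ?_⟩
    have e1 := hSR s⁻¹ (inv_mem hs) _ h
    have e2 : s⁻¹ * (s * r * s⁻¹) * s⁻¹⁻¹ = r := by group
    rwa [e2] at e1
  have hCn : ∀ s ∈ S, ∀ c, c ∈ cN M₀ R ↔ s * c * s⁻¹ ∈ cN M₀ R := fun s hs c =>
    DGQ.cN_conj (hMn' s (hSk hs)) (hSR' s hs) c
  -- `S ∩ M₀ = C`
  have hSM : S ⊓ M₀ = cN M₀ R := by
    apply le_antisymm
    · intro s hs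
      refine ⟨hs.2, Subgroup.mem_centralizer_iff.mpr ?_⟩
      intro r hr
      have e1 : s * r * s⁻¹ * r⁻¹ ∈ R ⊓ M₀ := by
        have hr' : r ∈ R := hr
        have hs1 : s ∈ S := hs.1
        have hs2 : s ∈ M₀ := hs.2
        refine Subgroup.mem_inf.mpr ⟨R.mul_mem (hSR s hs1 r hr') (R.inv_mem hr'), ?_⟩
        have e2 : s * r * s⁻¹ * r⁻¹ = s * (r * s⁻¹ * r⁻¹) := by group
        rw [e2]
        exact M₀.mul_mem hs2 (hRn r hr' _ (M₀.inv_mem hs2))
      rw [hRM, Subgroup.mem_bot, mul_inv_eq_one, mul_inv_eq_iff_eq_mul] at e1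
      exact e1.symm
    · exact le_inf hCS hCM
  -- `θ'` is invariant
  have hSθ' : S ≤ sx θ' := by
    intro s hs
    obtain ⟨c1, c2⟩ := h8 G 𝔐 ℓ 0 s
    have e1 := c1 (cN M₀ R) (cN M₀ R) θ' (hCn s hs) hθ'
    have e2 := (c2 M₀ M₀ R R θ' θ (hMn' s (hSk hs)) (hSR' s hs) hDG).2
    have e3 : (fun x => θ (s * x * s⁻¹)) = θ := funext fun x => hSθ hs x
    rw [e3] at e2
    have e4 := (h7 G 𝔐 ℓ hmax hℓ M₀ R hR hRn).2.2.2 _ _ θ e1 hθ' hθ e2 hDG
    intro x
    exact congrFun e4 x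
  obtain ⟨hE1, hE2, hE3, -⟩ := (h5 Y G 𝔐 ℓ hmax hℓ k hk lam M₀ hMk).1 θ hθ
  obtain ⟨hF1, hF2, hF3, -⟩ :=
    (h5 Y G 𝔐 ℓ hmax hℓ k hk lam (cN M₀ R) (hCM.trans hMk)).1 θ' hθ'
  have hSχ : S.comap k ≤ sx χ := by
    intro y hy
    have e1 := h6 Y G 𝔐 ℓ k hk lam M₀ θ χ hχ y (hMn' (k y) ⟨y, rfl⟩)
    have e3 : (fun x => θ (k y * x * (k y)⁻¹)) = θ := funext fun x => hSθ hy x
    rw [e3] at e1
    have e4 := hE2 _ _ e1 hχ
    intro x
    exact congrFun e4 x
  have hSχ' : S.comap k ≤ sx χ' := by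
    intro y hy
    have e1 := h6 Y G 𝔐 ℓ k hk lam (cN M₀ R) θ' χ' hχ' y (hCn (k y) hy)
    have e3 : (fun x => θ' (k y * x * (k y)⁻¹)) = θ' := funext fun x => hSθ' hy x
    rw [e3] at e1
    have e4 := hF2 _ _ e1 hχ'
    intro x
    exact congrFun e4 x
  -- the multiplicity
  obtain ⟨m, hm, hm'⟩ := h4 Y G 𝔐 ℓ hmax hℓ k hk lam (cN M₀ R) M₀ hCM hMk θ θ' hθ hθ' (by
    obtain ⟨-, ε, hε, hε'⟩ := (h7 G 𝔐 ℓ hmax hℓ M₀ R hR hRn).2.1 θ' θ hθ' hθ hDG
    refine ⟨red 𝔐 ε, ?_, hε'⟩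
    have : Nontrivial ((integralClosure ℤ ℂ) ⧸ 𝔐) := Ideal.Quotient.nontrivial_iff.mpr hmax.ne_top
    intro h0
    have e1 : red 𝔐 ε * red 𝔐 ε = 1 := by
      have e2 : IsIntegral ℤ ε := by
        rcases hε with rfl | rfl
        · exact isIntegral_one
        · exact isIntegral_one.neg
      rw [← red_mul 𝔐 e2 e2]
      have e3 : ε * ε = 1 := by
        rcases hε with rfl | rfl <;> norm_num
      rw [e3, red_one]
    rw [h0, mul_zero] at e1
    exact zero_ne_one e1) χ χ' hχ hχ'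
  refine h1 Y K ℓ hH (M₀.comap k) ((S ⊔ M₀).comap k) ((cN M₀ R).comap k) (S.comap k)
    (Subgroup.comap_mono le_sup_right) (Subgroup.comap_mono le_sup_left) ?_ ?_
    ((f.comp k.rangeRestrict).comp ((S ⊔ M₀).comap k).subtype) ?_ χ χ'
    (padicValNat ℓ (Nat.card k.ker)) (hE3 χ hχ) (hF3 χ' hχ') hSχ hSχ' m hm hm' ?_ d
  · rw [← Subgroup.comap_inf, hSM]
  · exact (Subgroup.comap_sup_eq_of_le_range k hSk hMk).symm
  · intro x
    exact hf (k.rangeRestrict x)
  · intro x hx y hy hxy n hn hxn hyn ζ hBT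
    have hx' : k x ∈ S := hx
    have hy' : k y ∈ S := hy
    have hxy' : k x * k y * (k x)⁻¹ * (k y)⁻¹ ∈ cN M₀ R := by
      have e1 : k (x * y * x⁻¹ * y⁻¹) ∈ cN M₀ R := hxy
      rwa [map_mul, map_mul, map_mul, map_inv, map_inv] at e1
    have hxn' : k x ^ n ∈ cN M₀ R := by
      have e1 : k (x ^ n) ∈ cN M₀ R := hxn
      rwa [map_pow] at e1
    have hyn' : k y ^ n ∈ cN M₀ R := by
      have e1 : k (y ^ n) ∈ cN M₀ R := hyn
      rwa [map_pow] at e1
    have b1 := (h2 Y G 𝔐 ℓ hmax hℓ k hk lam M₀ hMk θ χ hθ hχ x y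
      (hMn (k x) ⟨x, rfl⟩) (hMn (k y) ⟨y, rfl⟩) (hSθ hx') (hSθ hy') (hCM hxy') n hn
      (hCM hyn') ζ).mp hBT
    obtain ⟨g1, g2, g3⟩ := DGQ.gen hCS (fun s hs c hc => (hCn s hs c).mp hc) hx' hy' hxy'
      hxn' hyn'
    have b2 := h3 G 𝔐 ℓ hmax hℓ M₀ R (cN M₀ R ⊔ Subgroup.closure {k x, k y}) hR hRn
      (fun s hs n hn => hMn s (hSk (g1 hs)) n hn) (fun s hs r hr => hSR s (g1 hs) r hr)
      le_sup_left g2 (fun s hs => ⟨n, hn, g3 s hs⟩) θ θ' hθ hθ' hDG (g1.trans hSθ) (k x)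
      (Subgroup.mem_sup_right (Subgroup.subset_closure (Or.inl rfl))) (k y)
      (Subgroup.mem_sup_right (Subgroup.subset_closure (Or.inr rfl))) ζ b1
    exact (h2 Y G 𝔐 ℓ hmax hℓ k hk lam (cN M₀ R) (hCM.trans hMk) θ' χ' hθ' hχ' x y
      (fun c hc => (hCn (k x) hx' c).mp hc) (fun c hc => (hCn (k y) hy' c).mp hc) (hSθ' hx')
      (hSθ' hy') hxy' n hn hyn' ζ).mpr b2

end Pool.Agent.DPT


end

section

/-!
# TIG: tensor induction gives characters
-/

namespace Pool.Agent.DPC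

open Pool.Agent.DP Pool.Agent.Lib_helper13 Representation
open Pool.Agent.Lib_helper13.Dade (pCore DadeHolds dadeSum)

namespace TIG

/-- Matrices of a character of a subgroup. -/
theorem exists_MD {G : Type} [Group G] (S : Subgroup G) (θ : G → ℂ)
    (h : IsChr (fun s : S => θ s)) : ∃ m M, MD S θ m M := by
  classical
  obtain ⟨n, ρ, hρ⟩ := h
  refine ⟨n, fun g i j => if h : g ∈ S ∧ i < n ∧ j < n then
    LinearMap.toMatrix' (ρ ⟨g, h.1⟩) ⟨i, h.2.1⟩ ⟨j, h.2.2⟩ else 0, ?_, ?_, ?_⟩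
  · intro i hi j hj
    rw [dif_pos ⟨S.one_mem, hi, hj⟩]
    have h1 : ρ ⟨1, S.one_mem⟩ = 1 := map_one ρ
    rw [h1]
    change LinearMap.toMatrix' (LinearMap.id : (Fin n → ℂ) →ₗ[ℂ] (Fin n → ℂ)) _ _ = _
    rw [LinearMap.toMatrix'_id, Matrix.one_apply]
    simp [Fin.ext_iff]
  · intro s hs t ht i hi j hj
    rw [dif_pos ⟨S.mul_mem hs ht, hi, hj⟩]
    have h1 : ρ ⟨s * t, S.mul_mem hs ht⟩ = ρ ⟨s, hs⟩ * ρ ⟨t, ht⟩ :=
      map_mul ρ ⟨s, hs⟩ ⟨t, ht⟩
    rw [h1, LinearMap.toMatrix'_mul, Matrix.mul_apply, Finset.sum_range]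
    apply Finset.sum_congr rfl
    intro k _
    rw [dif_pos ⟨hs, hi, k.2⟩, dif_pos ⟨ht, k.2, hj⟩]
  · intro s hs
    have h1 : θ s = ρ.character ⟨s, hs⟩ := by rw [hρ]
    rw [h1]
    change LinearMap.trace ℂ (Fin n → ℂ) (ρ ⟨s, hs⟩) = _
    rw [LinearMap.trace_eq_matrix_trace ℂ (Pi.basisFun ℂ (Fin n)), Matrix.trace,
      Finset.sum_range]
    apply Finset.sum_congr rfl
    intro k _
    rw [dif_pos ⟨hs, k.2, k.2⟩]
    rfl

/-- Representatives of the orbits, and elements which move them to the points. -/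
theorem exists_rep {O Y : Type} [Group Y] (a : Y →* Equiv.Perm O) :
    ∃ (r : O → O) (t : O → Y), (∀ y o, r (a y o) = r o) ∧ ∀ o, a (t o) (r o) = o := by
  classical
  let s : Setoid O :=
    { r := fun o o' => ∃ y, a y o = o'
      iseqv := by
        refine ⟨fun o => ⟨1, by simp⟩, ?_, ?_⟩
        · rintro o o' ⟨y, rfl⟩
          exact ⟨y⁻¹, by rw [← Equiv.Perm.mul_apply, ← map_mul, inv_mul_cancel, map_one,
            Equiv.Perm.one_apply]⟩
        · rintro o o' o'' ⟨y, rfl⟩ ⟨z, rfl⟩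
          exact ⟨z * y, by rw [map_mul, Equiv.Perm.mul_apply]⟩ }
  have h : ∀ o : O, ∃ y, a y ((Quotient.mk s o).out) = o := fun o =>
    Quotient.exact (Quotient.out_eq (Quotient.mk s o))
  choose t ht using h
  refine ⟨fun o => (Quotient.mk s o).out, t, ?_, ht⟩
  intro y o
  have h1 : Quotient.mk s (a y o) = Quotient.mk s o :=
    (Quotient.sound (s := s) ⟨y, rfl⟩).symm
  change (Quotient.mk s (a y o)).out = (Quotient.mk s o).out
  rw [h1]

section

variable {O Y : Type} [Group Y] (a : Y →* Equiv.Perm O) (r : O → O) (t : O → Y)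

/-- The coordinates of an element. -/
def nn (y : Y) (o : O) : Y := (t o)⁻¹ * y * t ((a y)⁻¹ o)

theorem nn_mem (hr : ∀ y o, r (a y o) = r o) (ht : ∀ o, a (t o) (r o) = o) (y : Y) (o : O) :
    nn a t y o ∈ St a (r o) := by
  rw [mem_St, nn, map_mul, map_mul, Equiv.Perm.mul_apply, Equiv.Perm.mul_apply]
  have h1 : r o = r ((a y)⁻¹ o) := by
    rw [← map_inv, hr]
  have h2 : a (t ((a y)⁻¹ o)) (r o) = (a y)⁻¹ o := by
    rw [h1, ht]
  have h3 : a y ((a y)⁻¹ o) = o := by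
    rw [← Equiv.Perm.mul_apply, mul_inv_cancel, Equiv.Perm.one_apply]
  rw [h2, h3, map_inv, Equiv.Perm.inv_eq_iff_eq, ht]

theorem nn_mul (y z : Y) (o : O) :
    nn a t (y * z) o = nn a t y o * nn a t z ((a y)⁻¹ o) := by
  rw [nn, nn, nn, map_mul, mul_inv_rev, Equiv.Perm.mul_apply]
  group

theorem nn_one (o : O) : nn a t 1 o = 1 := by
  rw [nn, map_one, inv_one, Equiv.Perm.one_apply]
  group

theorem cyp_nn (y : Y) (o : O) (i : ℕ) :
    cyp (a y) (nn a t y) o i = (t o)⁻¹ * y ^ i * t (((a y)⁻¹ ^ i) o) := by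
  induction i with
  | zero => simp [cyp]
  | succ i ih =>
    have h1 : ((a y)⁻¹ ^ (i + 1)) o = (a y)⁻¹ (((a y)⁻¹ ^ i) o) := by
      rw [pow_succ', Equiv.Perm.mul_apply]
    rw [cyp, ih, nn, h1, pow_succ]
    group

/-- The subgroups of the coordinates are constant on the orbits. -/
theorem hSS (hr : ∀ y o, r (a y o) = r o) (l : a.range) (o : O) :
    (fun o => St a (r o)) (l • o) = (fun o => St a (r o)) o := by
  obtain ⟨_, y, rfl⟩ := l
  change St a (r (a y o)) = St a (r o)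
  rw [hr]

/-- The homomorphism to the standard group. -/
def Psi (hr : ∀ y o, r (a y o) = r o) (ht : ∀ o, a (t o) (r o) = o) :
    Y →* stdS (L := a.range) (fun o => St a (r o)) (hSS a r hr) where
  toFun y := ⟨⟨nn a t y, ⟨a y, y, rfl⟩⟩, nn_mem a r t hr ht y⟩
  map_one' := by
    apply Subtype.ext
    apply SemidirectProduct.ext
    · funext o
      exact nn_one a t o
    · apply Subtype.ext
      exact map_one a
  map_mul' := by
    intro y z
    apply Subtype.ext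
    apply SemidirectProduct.ext
    · funext o
      exact nn_mul a t y z o
    · apply Subtype.ext
      exact map_mul a y z

end

end TIG

open _root_.Pool.Agent.DPC.TIG in
theorem TIG_thm (h1 : Stmt_CYC) : Stmt_TIG := by
  classical
  intro O Y _ _ _ _ a f hf he
  have : Fintype Y := Fintype.ofFinite Y
  obtain ⟨r, t, hr, ht⟩ := exists_rep a
  have h2 : ∀ o, ∃ m M, MD (St a o) (f o) m M := fun o => exists_MD (St a o) (f o) (hf o)
  choose m M hM using h2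
  -- equivariance
  have h3 : ∀ o z, a z o = o → f (r o) ((t o)⁻¹ * z * t o) = f o z := by
    intro o z hz
    have h4 : a ((t o)⁻¹ * z * t o) (r o) = r o := by
      rw [map_mul, map_mul, Equiv.Perm.mul_apply, Equiv.Perm.mul_apply, ht, hz, map_inv,
        Equiv.Perm.inv_eq_iff_eq, ht]
    rw [← he (t o) (r o) _ h4, ht]
    congr 1
    group
  obtain ⟨h5, h6⟩ := TENS_thm.2 a.range O Y (fun o => St a (r o)) (hSS a r hr)
    (fun o => f (r o)) (fun o => m (r o)) (fun o => M (r o))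
    (by
      rintro ⟨_, y, rfl⟩ o
      change m (r (a y o)) = m (r o)
      rw [hr])
    (by
      rintro ⟨_, y, rfl⟩ o
      change M (r (a y o)) = M (r o)
      rw [hr])
    (fun o => hM (r o))
  -- the trace is the tensor induced function
  have h7 : ∀ y, TH (fun o => m (r o)) (fun o => M (r o)) (a y) (nn a t y) = TI a f y := by
    intro y
    rw [h1 O Y (fun o => St a (r o)) (fun o => f (r o)) (fun o => m (r o)) (fun o => M (r o))
      (a y) (nn a t y) (fun o => by rw [hr]) (fun o => by rw [hr]) (fun o => by rw [hr])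
      (fun o => hM (r o)) (nn_mem a r t hr ht y), TI]
    apply finprod_congr
    intro s
    set o := s.out with ho
    have h8 : (a y ^ Function.minimalPeriod (a y) o) o = o := by
      have h9 := Function.isPeriodicPt_minimalPeriod (a y) o
      rw [Function.IsPeriodicPt, Function.IsFixedPt] at h9
      rw [Equiv.Perm.coe_pow]
      exact h9
    rw [cyp_nn, inv_pow, Equiv.Perm.inv_eq_iff_eq.mpr h8.symm]
    exact h3 o _ (by rw [map_pow]; exact h8)
  constructor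
  · have h8 := h5.comp (Psi a r t hr ht)
    have h9 : (fun y : Y => TI a f y) = fun y => TH (fun o => m (r o)) (fun o => M (r o))
        (MulAction.toPerm ((Psi a r t hr ht y : stdS (L := a.range) (fun o => St a (r o))
          (hSS a r hr)) : Gam a.range O Y).right)
        ((Psi a r t hr ht y : stdS (L := a.range) (fun o => St a (r o))
          (hSS a r hr)) : Gam a.range O Y).left := by
      funext y
      rw [← h7 y]
      congr 1
    change IsChr (fun y : Y => TI a f y)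
    rw [h9]
    exact h8
  · intro y hy
    rw [← h7 y, hy, h6 _ (nn_mem a r t hr ht y)]
    apply Finset.prod_congr rfl
    intro o _
    rw [← h3 o y (by rw [hy]; rfl)]
    congr 1
    rw [nn, hy, inv_one, Equiv.Perm.one_apply]

end Pool.Agent.DPC


end
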