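import Mathlib
import Pool.Agent.DAM.C18
import Pool.Agent.DAM.C28
import Pool.Agent.DAM.C33
import Pool.Agent.DAM.C44
import Pool.Agent.DAM.C52
import Pool.Agent.DAM.C68

/-! Parts: DPG.STO, DPG.WDB, DPG.EDKA, DPG.EDK, DPG.TIE, DPG.RSC -/

section

/-!
# STO: the product of the coordinates of a commutator is a commutator
-/

namespace Pool.Agent.DPG

open Pool.Agent.DP Pool.Agent.DPC Pool.Agent.DPM Pool.Agent.DPN Pool.Agent.DPF
  Pool.Agent.Lib_helper13 Representation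

namespace STO

/-- The Sylow subgroup of a central extension. -/
theorem exists_Q {W1 H1 : Type} [Group W1] [Finite W1] [Group H1] [Finite H1] (ℓ : ℕ)
    [Fact ℓ.Prime] (π1 : W1 →* H1) (hs : Function.Surjective π1)
    (hc : π1.ker ≤ Subgroup.center W1) (P1 : Subgroup H1) (hP : SylAb ℓ P1) :
    ∃ Q : Subgroup W1, Q.Normal ∧ IsPGroup ℓ Q ∧ ¬ ℓ ∣ Q.index ∧ Q ≤ P1.comap π1 := by
  have := hP.nrm
  have hN : (P1.comap π1).Normal := inferInstance
  let f : ↥(P1.comap π1) →* ↥P1 := π1.subgroupComap P1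
  have hf : f.ker ≤ Subgroup.center ↥(P1.comap π1) := by
    intro x hx
    have h1 : π1 (x : W1) = 1 := congrArg Subtype.val (MonoidHom.mem_ker.mp hx)
    have h2 : (x : W1) ∈ Subgroup.center W1 := hc (MonoidHom.mem_ker.mpr h1)
    rw [Subgroup.mem_center_iff] at h2 ⊢
    intro y
    exact Subtype.ext (h2 y)
  have hnil : Group.IsNilpotent ↥P1 := hP.pgr.isNilpotent
  have hnil2 : Group.IsNilpotent ↥(P1.comap π1) := Subgroup.isNilpotent_of_ker_le_center f hf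
  obtain ⟨S⟩ : Nonempty (Sylow ℓ ↥(P1.comap π1)) := inferInstance
  have ht := (Group.isNilpotent_of_finite_tfae (G := ↥(P1.comap π1))).out 0 3
  have hSn : (S : Subgroup ↥(P1.comap π1)).Normal := ht.mp hnil2 ℓ inferInstance S
  have hSc : (S : Subgroup ↥(P1.comap π1)).Characteristic := S.characteristic_of_normal hSn
  refine ⟨(S : Subgroup ↥(P1.comap π1)).map (P1.comap π1).subtype,
    ConjAct.normal_of_characteristic_of_normal, S.isPGroup'.map _, ?_, ?_⟩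
  · rw [Subgroup.index_map_subtype, Subgroup.index_comap_of_surjective P1 hs]
    intro hd
    rcases (Nat.Prime.dvd_mul (Fact.out : ℓ.Prime)).mp hd with h | h
    · exact S.not_dvd_index h
    · exact hP.idx h
  · rintro x ⟨y, _, rfl⟩
    exact y.2

/-- Characters separate the elements of a central subgroup. -/
theorem sep {B : Type} [Group B] [Finite B] (C : Subgroup B) (hC : C ≤ Subgroup.center B)
    (a b : C) (h : ∀ χ : C →* ℂˣ, χ a = χ b) : a = b := by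
  let _ : CommGroup C :=
    { (inferInstance : Group C) with
      mul_comm := fun x y => Subtype.ext (Subgroup.mem_center_iff.mp (hC y.2) x) }
  by_contra hne
  have h1 : a * b⁻¹ ≠ 1 := fun h0 => hne (mul_inv_eq_one.mp h0)
  obtain ⟨χ, hχ⟩ := CommGroup.exists_apply_ne_one_of_hasEnoughRootsOfUnity C ℂ h1
  apply hχ
  have h2 := h χ
  rw [map_mul, map_inv]
  exact mul_inv_eq_one.mpr h2

variable {W W1 Ω : Type} [Group W] [Group W1] [Fintype Ω]

/-- The product of the values of a linear character at the coordinates. -/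
def ph (ψ : W →* Gam (Equiv.Perm Ω) Ω W1) (κ : W1 →* ℂˣ) : W →* ℂˣ where
  toFun w := ∏ o, κ ((ψ w).left o)
  map_one' := by
    rw [map_one]
    exact Finset.prod_eq_one fun o _ => map_one κ
  map_mul' := by
    intro x y
    have h1 : ∀ o, κ ((ψ (x * y)).left o) =
        κ ((ψ x).left o) * κ ((ψ y).left ((ψ x).right⁻¹ • o)) := by
      intro o
      rw [map_mul ψ, ← map_mul κ]
      rfl
    simp only [h1]
    rw [Finset.prod_mul_distrib]
    congr 1
    exact Equiv.prod_comp (ψ x).right⁻¹ (fun o => κ ((ψ y).left o))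

/-- A linear character vanishes on a commutator times an element of the commutator subgroup. -/
theorem hom_comm {G : Type} [Group G] (κ : G →* ℂˣ) (P : Subgroup G) {x y e : G}
    (he : e ∈ ⁅P, P⁆) : κ (x * y * x⁻¹ * y⁻¹ * e) = 1 := by
  have h1 : κ e = 1 := by
    have h2 : ⁅P, P⁆ ≤ κ.ker := by
      rw [Subgroup.commutator_le]
      intro a _ b _
      rw [MonoidHom.mem_ker, map_commutatorElement, commutatorElement_eq_one_iff_mul_comm]
      exact mul_comm _ _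
    exact MonoidHom.mem_ker.mp (h2 he)
  rw [map_mul, map_mul, map_mul, map_mul, map_inv, map_inv, h1, mul_one]
  rw [mul_comm (κ x) (κ y), mul_assoc (κ y), mul_inv_cancel, mul_one, mul_inv_cancel]

/-- The transfer of a linear character at a central element. -/
theorem trans_central [Finite W1] (Q : Subgroup W1) [Q.Normal] (lam : Q →* ℂˣ) {a s j : W1}
    (hs : s ∈ Q) (ha : a ∈ Subgroup.center W1) (haj : a = j * s) (hj : j ^ Q.index = 1) :
    ∃ κ : W1 →* ℂˣ, κ a = lam ⟨s, hs⟩ ^ Q.index := by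
  refine ⟨lam.transfer, ?_⟩
  have hc : ∀ (k : ℕ) (g : W1), g⁻¹ * a ^ k * g = a ^ k := by
    intro k g
    have h1 := Subgroup.mem_center_iff.mp (Subgroup.pow_mem _ ha k) g
    rw [mul_assoc, ← h1, inv_mul_cancel_left]
  have h2 := MonoidHom.transfer_eq_pow lam a (fun k g _ => hc k g)
  rw [h2, ← map_pow]
  congr 1
  apply Subtype.ext
  change a ^ Q.index = s ^ Q.index
  have h3 : Commute j s := by
    have h4 := Subgroup.mem_center_iff.mp ha j
    have h5 : j * (j * s) = (j * s) * j := by rw [← haj]; exact h4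
    rw [mul_assoc] at h5
    exact mul_left_cancel h5
  rw [haj, h3.mul_pow, hj, one_mul]

end STO

open _root_.Pool.Agent.DPG.STO in
theorem STO_thm (h1 : Stmt_PST) : Stmt_STO := by
  intro W H W1 H1 Ω _ _ _ _ _ _ _ _ _ _ ℓ _ π hπ P hP π1 hπ1 hc1 P1 hP1 ψ htr hco hker hk a hIn
  obtain ⟨x, y, e, hgen, he, hae⟩ := hIn
  obtain ⟨Q, hQn, hQp, hQi, hQle⟩ := exists_Q ℓ π1 hπ1 hc1 P1 hP1
  have hPn := hP.nrm
  -- the complement
  have hcop : (Nat.card Q).Coprime Q.index := by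
    obtain ⟨n, hn⟩ := IsPGroup.iff_card.mp hQp
    rw [hn]
    exact ((Nat.Prime.coprime_iff_not_dvd (Fact.out : ℓ.Prime)).mpr hQi).pow_left n
  obtain ⟨J, hJ⟩ := Subgroup.exists_right_complement'_of_coprime hcop
  let pr : W1 →* W1 ⧸ Q := QuotientGroup.mk' Q
  have hprs : Function.Surjective pr := QuotientGroup.mk'_surjective Q
  have hprk : ∀ g, pr g = 1 ↔ g ∈ Q := fun g => QuotientGroup.eq_one_iff g
  have hB : ¬ ℓ ∣ Nat.card (W1 ⧸ Q) := hQi
  obtain ⟨o0⟩ : Nonempty Ω := inferInstance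
  -- the product of the coordinates
  let instK : CommGroup π1.ker :=
    { (inferInstance : Group π1.ker) with
      mul_comm := fun x y => Subtype.ext (Subgroup.mem_center_iff.mp (hc1 y.2) x) }
  let a1 : π1.ker := ∏ o, (⟨(ψ (a : W)).left o, hk _ a.2 o⟩ : π1.ker)
  have ha1 : ∀ χ : π1.ker →* ℂˣ, χ a1 = ∏ o, χ ⟨(ψ (a : W)).left o, hk _ a.2 o⟩ := by
    intro χ
    exact map_prod χ _ _
  -- passage to the quotient
  let C0 : Subgroup (W1 ⧸ Q) := π1.ker.map pr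
  have hC0 : C0 ≤ Subgroup.center (W1 ⧸ Q) := by
    rintro _ ⟨t, ht, rfl⟩
    rw [Subgroup.mem_center_iff]
    intro g
    obtain ⟨g', rfl⟩ := hprs g
    rw [← map_mul, ← map_mul, Subgroup.mem_center_iff.mp (hc1 ht) g']
  have hPpow : ∀ w ∈ P.comap π, ∃ k : ℕ, w ^ ℓ ^ k ∈ π.ker := by
    intro w hw
    obtain ⟨k, hk'⟩ := hP.pgr ⟨π w, hw⟩
    refine ⟨k, ?_⟩
    rw [MonoidHom.mem_ker, map_pow]
    exact congrArg Subtype.val hk'
  have haw : x * y * x⁻¹ * y⁻¹ * e ∈ π.ker := hae ▸ a.2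
  have hT : ∀ t ∈ π.ker, ∀ o, (((gmap Ω pr).comp ψ) t).left o ∈ C0 := by
    intro t ht o
    exact ⟨_, hk t ht o, rfl⟩
  obtain ⟨U, V, ⟨hUV, hUVχ⟩, hgB⟩ := h1 W (W1 ⧸ Q) Ω ℓ hB ((gmap Ω pr).comp ψ) π.ker
    (P.comap π) inferInstance inferInstance
    (fun t ht => by
      rw [Subgroup.mem_comap, MonoidHom.mem_ker.mp ht]; exact P.one_mem)
    hPpow C0 hC0 (fun t ht => hker t ht) hT htr x y e hgen he haw o0
  -- the image of `a1` is the commutator of `U` and `V`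
  have hprC : pr (a1 : W1) ∈ C0 := ⟨_, a1.2, rfl⟩
  have hpra : pr (a1 : W1) = U * V * U⁻¹ * V⁻¹ := by
    have key : (⟨pr (a1 : W1), hprC⟩ : C0) = ⟨U * V * U⁻¹ * V⁻¹, hUV⟩ := by
      apply sep C0 hC0
      intro χ
      rw [hUVχ χ]
      let χ' : π1.ker →* ℂˣ := χ.comp ((pr.comp π1.ker.subtype).codRestrict C0
        (fun t => ⟨_, t.2, rfl⟩))
      have h2 := ha1 χ'
      have h3 : χ' a1 = χ ⟨pr (a1 : W1), hprC⟩ := rfl
      rw [← h3, h2]
      apply Finset.prod_congr rfl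
      intro o _
      change χ ⟨_, _⟩ = χ ⟨_, _⟩
      congr 1
      apply Subtype.ext
      change pr ((ψ (a : W)).left o) = pr ((ψ (x * y * x⁻¹ * y⁻¹ * e)).left o)
      rw [hae]
    exact congrArg Subtype.val key
  -- lifts in the complement
  have hlift : ∀ b : W1 ⧸ Q, ∃ z ∈ J, pr z = b := by
    intro b
    obtain ⟨g, rfl⟩ := hprs b
    obtain ⟨⟨q, j⟩, hqj⟩ := hJ.2 g
    refine ⟨j, j.2, ?_⟩
    have : pr g = pr (q : W1) * pr (j : W1) := by rw [← map_mul]; exact congrArg pr hqj.symm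
    rw [this, (hprk _).mpr q.2, one_mul]
  obtain ⟨x1, hx1, hx1U⟩ := hlift U
  obtain ⟨y1, hy1, hy1V⟩ := hlift V
  -- the decomposition of `a1`
  set j : W1 := x1 * y1 * x1⁻¹ * y1⁻¹ with hj
  have hjJ : j ∈ J := J.mul_mem (J.mul_mem (J.mul_mem hx1 hy1) (J.inv_mem hx1)) (J.inv_mem hy1)
  set s : W1 := j⁻¹ * (a1 : W1) with hs
  have hprj : pr j = U * V * U⁻¹ * V⁻¹ := by
    rw [hj, map_mul, map_mul, map_mul, map_inv, map_inv, hx1U, hy1V]
  have hsQ : s ∈ Q := by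
    rw [← hprk, hs, map_mul, map_inv, hprj, hpra, inv_mul_cancel]
  have haj : (a1 : W1) = j * s := by rw [hs, mul_inv_cancel_left]
  have hcard : Nat.card J = Q.index := by
    have e1 := hJ.card_mul
    have e2 := Q.card_mul_index
    have e3 : 0 < Nat.card Q := Nat.card_pos
    exact Nat.eq_of_mul_eq_mul_left e3 (e1.trans e2.symm)
  have hjn : j ^ Q.index = 1 := by
    rw [← hcard]
    have := pow_card_eq_one' (x := (⟨j, hjJ⟩ : J))
    exact congrArg Subtype.val this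
  refine ⟨a1, ⟨x1, y1, s, ?_, ?_, haj⟩, ha1⟩
  · -- generation
    rw [eq_top_iff]
    intro b _
    obtain ⟨w, hw1, hw2⟩ := hco o0 b
    have h2 := hgB w hw1
    have h3 : (((gmap Ω pr).comp ψ) w).left o0 = pr b := congrArg pr hw2
    rw [h3] at h2
    have h4 : Subgroup.closure {U, V} ⊔ C0 = (Subgroup.closure {x1, y1} ⊔ π1.ker).map pr := by
      rw [Subgroup.map_sup, MonoidHom.map_closure, Set.image_pair, hx1U, hy1V]
    rw [h4] at h2
    obtain ⟨b', hb', hb''⟩ := h2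
    have h5 : b'⁻¹ * b ∈ Q := by
      rw [← hprk, map_mul, map_inv, hb'', inv_mul_cancel]
    have h6 : b = b' * (b'⁻¹ * b) := by rw [mul_inv_cancel_left]
    rw [h6]
    apply Subgroup.mul_mem
    · refine (sup_le_sup_left ?_ (Subgroup.closure {x1, y1})) hb'
      intro t ht
      rw [Subgroup.mem_comap, MonoidHom.mem_ker.mp ht]
      exact P1.one_mem
    · exact (le_sup_right : P1.comap π1 ≤ _) (hQle h5)
  · -- the `ℓ`-part is a product of commutators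
    have hQQ : ⁅Q, Q⁆ ≤ ⁅P1.comap π1, P1.comap π1⁆ := Subgroup.commutator_mono hQle hQle
    apply hQQ
    by_contra hns
    have hns' : (⟨s, hsQ⟩ : Q) ∉ commutator Q := by
      intro h0
      apply hns
      have h2 : (commutator Q).map Q.subtype = ⁅Q, Q⁆ := by
        rw [commutator_def, Subgroup.map_commutator, ← MonoidHom.range_eq_map, Subgroup.range_subtype]
      rw [← h2]
      exact ⟨_, h0, rfl⟩
    have hab : (Abelianization.of (⟨s, hsQ⟩ : Q)) ≠ 1 := by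
      intro h0
      exact hns' ((QuotientGroup.eq_one_iff _).mp h0)
    have : Finite (Abelianization Q) := inferInstanceAs (Finite (Q ⧸ commutator Q))
    obtain ⟨χ, hχ⟩ := CommGroup.exists_apply_ne_one_of_hasEnoughRootsOfUnity (Abelianization Q) ℂ hab
    let lam : Q →* ℂˣ := χ.comp Abelianization.of
    have hlam : lam ⟨s, hsQ⟩ ≠ 1 := hχ
    obtain ⟨κ, hκ⟩ := trans_central Q lam hsQ (hc1 a1.2) haj hjn
    have h2 : ph ψ κ (a : W) = 1 := by
      rw [hae]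
      exact hom_comm (ph ψ κ) (P.comap π) he
    have h3 : ph ψ κ (a : W) = κ (a1 : W1) := (ha1 (κ.comp π1.ker.subtype)).symm
    rw [h3, hκ] at h2
    obtain ⟨k, hk'⟩ := hQp ⟨s, hsQ⟩
    have h4 : lam ⟨s, hsQ⟩ ^ ℓ ^ k = 1 := by rw [← map_pow, hk', map_one]
    have h5 : (ℓ ^ k).Coprime Q.index :=
      ((Nat.Prime.coprime_iff_not_dvd (Fact.out : ℓ.Prime)).mpr hQi).pow_left k
    apply hlam
    rw [← orderOf_eq_one_iff]
    exact Nat.eq_one_of_dvd_coprimes h5 (orderOf_dvd_of_pow_eq_one h4)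
      (orderOf_dvd_of_pow_eq_one h2)

end Pool.Agent.DPG


end

section

/-!
# Basic facts on the wreath product data
-/

set_option linter.unusedSectionVars false

namespace Pool.Agent.DPG.WDB

open Pool.Agent.DP Pool.Agent.DPC Pool.Agent.DPM Pool.Agent.DPN Pool.Agent.DPF Pool.Agent.DPG
  Pool.Agent.Lib_helper13 Representation

/-! ### Wreath products -/

section Gamma

variable {B B' Ω : Type} [Group B] [Group B']

theorem mul_left (g g' : Gam (Equiv.Perm Ω) Ω B) (o : Ω) :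
    (g * g').left o = g.left o * g'.left (g.right⁻¹ o) := rfl

theorem mul_right (g g' : Gam (Equiv.Perm Ω) Ω B) : (g * g').right = g.right * g'.right := rfl

theorem inv_right (g : Gam (Equiv.Perm Ω) Ω B) : g⁻¹.right = g.right⁻¹ := rfl

theorem one_left (o : Ω) : (1 : Gam (Equiv.Perm Ω) Ω B).left o = 1 := rfl

theorem one_right : (1 : Gam (Equiv.Perm Ω) Ω B).right = 1 := rfl

theorem inv_left (g : Gam (Equiv.Perm Ω) Ω B) (o : Ω) :
    g⁻¹.left o = (g.left (g.right o))⁻¹ := by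
  rw [SemidirectProduct.inv_left]
  change (g.left (g.right⁻¹⁻¹ • o))⁻¹ = _
  rw [inv_inv]
  rfl

theorem ext' {g g' : Gam (Equiv.Perm Ω) Ω B} (h1 : g.right = g'.right)
    (h2 : ∀ o, g.left o = g'.left o) : g = g' :=
  SemidirectProduct.ext (funext h2) h1

theorem conj_left (g m : Gam (Equiv.Perm Ω) Ω B) (hm : m.right = 1) (o : Ω) :
    (g * m * g⁻¹).left o = g.left o * m.left (g.right⁻¹ o) * (g.left o)⁻¹ := by
  rw [mul_left, mul_left, mul_right, hm, mul_one, inv_left]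
  congr 2
  exact congrArg g.left (g.right.apply_symm_apply o)

theorem conj_right (g m : Gam (Equiv.Perm Ω) Ω B) (hm : m.right = 1) :
    (g * m * g⁻¹).right = 1 := by
  rw [mul_right, mul_right, hm, mul_one, inv_right, mul_inv_cancel]

theorem gmap_left (f : B →* B') (g : Gam (Equiv.Perm Ω) Ω B) (o : Ω) :
    (gmap Ω f g).left o = f (g.left o) := rfl

theorem gmap_right (f : B →* B') (g : Gam (Equiv.Perm Ω) Ω B) :
    (gmap Ω f g).right = g.right := rfl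

theorem gmap_eq {f : B →* B'} {g : Gam (Equiv.Perm Ω) Ω B} {g' : Gam (Equiv.Perm Ω) Ω B'} :
    gmap Ω f g = g' ↔ g.right = g'.right ∧ ∀ o, f (g.left o) = g'.left o := by
  constructor
  · rintro rfl
    exact ⟨rfl, fun _ => rfl⟩
  · rintro ⟨h1, h2⟩
    exact ext' h1 h2

theorem gmap_surj {f : B →* B'} (hf : Function.Surjective f)
    (g' : Gam (Equiv.Perm Ω) Ω B') : ∃ g, gmap Ω f g = g' := by
  choose s hs using hf
  exact ⟨⟨fun o => s (g'.left o), g'.right⟩, ext' rfl fun o => hs _⟩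

theorem gmap_surj' {f : B →* B'} (hf : Function.Surjective f)
    (g' : Gam (Equiv.Perm Ω) Ω B') (o : Ω) (b : B) (hb : f b = g'.left o) :
    ∃ g, gmap Ω f g = g' ∧ g.left o = b := by
  classical
  choose s hs using hf
  refine ⟨⟨fun w => if w = o then b else s (g'.left w), g'.right⟩, ext' rfl fun w => ?_, ?_⟩
  · rw [gmap_left]
    change f (if w = o then b else s (g'.left w)) = g'.left w
    split_ifs with h
    · rw [h, hb]
    · exact hs _
  · change (if o = o then b else s (g'.left o)) = b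
    rw [if_pos rfl]

theorem gin_left (n : Ω → B) (o : Ω) : (gin n : Gam (Equiv.Perm Ω) Ω B).left o = n o := rfl

theorem gin_right (n : Ω → B) : (gin n : Gam (Equiv.Perm Ω) Ω B).right = 1 := rfl

theorem gin_one : (gin (fun _ => 1) : Gam (Equiv.Perm Ω) Ω B) = 1 := rfl

theorem gin_mul (n n' : Ω → B) :
    (gin (fun o => n o * n' o) : Gam (Equiv.Perm Ω) Ω B) = gin n * gin n' := by
  refine ext' ?_ fun o => ?_
  · rw [mul_right, gin_right, gin_right, gin_right, mul_one]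
  · rw [mul_left, gin_left, gin_left, gin_right, gin_left]
    rfl

theorem gin_inv (n : Ω → B) :
    (gin n : Gam (Equiv.Perm Ω) Ω B)⁻¹ = gin (fun o => (n o)⁻¹) := by
  refine ext' ?_ fun o => ?_
  · rw [inv_right, gin_right, gin_right, inv_one]
  · rw [inv_left, gin_left, gin_left, gin_right]
    rfl

theorem gin_inj {n n' : Ω → B} (h : (gin n : Gam (Equiv.Perm Ω) Ω B) = gin n') : n = n' := by
  funext o
  rw [← gin_left n o, h, gin_left]

theorem eq_gin {g : Gam (Equiv.Perm Ω) Ω B} (hg : g.right = 1) : g = gin g.left :=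
  ext' hg fun _ => rfl

theorem conj_gin (g : Gam (Equiv.Perm Ω) Ω B) (n : Ω → B) :
    g * gin n * g⁻¹ = gin (fun o => g.left o * n (g.right⁻¹ o) * (g.left o)⁻¹) :=
  ext' (conj_right g (gin n) rfl) fun o => conj_left g (gin n) rfl o

theorem gmap_gin (f : B →* B') (n : Ω → B) :
    gmap Ω f (gin n) = gin (fun o => f (n o)) := rfl

end Gamma

/-! ### The data -/

section Data

variable {L K K1 Q Ω : Type} [Group L] [Group K] [Group K1] [Group Q] [Fintype Ω]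
  {π : L →* K} {μ : π.ker →* ℂˣ} {φ : K →* Gam (Equiv.Perm Ω) Ω K1} {q : Q →* K1}
  {α : K1 →* MulAut Q} {ε : (Ω → Q) →* L} {μQ : q.ker →* ℂˣ}

/-- `ker q` is central. -/
theorem kerq_comm (h : WD π μ φ q α ε μQ) {z : Q} (hz : z ∈ q.ker) (x : Q) :
    z * x = x * z := by
  have h1 := h.qα z x
  rw [MonoidHom.mem_ker.mp hz, map_one, MulAut.one_apply] at h1
  rw [eq_mul_inv_iff_mul_eq] at h1
  exact h1.symm

theorem kerq_le (h : WD π μ φ q α ε μQ) : q.ker ≤ Subgroup.center Q :=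
  fun _ hz => Subgroup.mem_center_iff.mpr fun x => (kerq_comm h hz x).symm

theorem φε_right (h : WD π μ φ q α ε μQ) (n : Ω → Q) : (φ (π (ε n))).right = 1 := by
  rw [h.φε]
  rfl

theorem φε_left (h : WD π μ φ q α ε μQ) (n : Ω → Q) (o : Ω) :
    (φ (π (ε n))).left o = q (n o) := by
  rw [h.φε]
  rfl

theorem eq_of_coords (h : WD π μ φ q α ε μQ) {k k' : K} (h1 : (φ k).right = (φ k').right)
    (h2 : ∀ o, (φ k).left o = (φ k').left o) : k = k' :=
  h.φi (ext' h1 h2)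

/-- The elements of `N`. -/
theorem mem_NN (h : WD π μ φ q α ε μQ) {k : K} :
    k ∈ NN' π ε ↔ (φ k).right = 1 ∧ ∀ o, (φ k).left o ∈ q.range := by
  constructor
  · rintro ⟨_, ⟨n, rfl⟩, rfl⟩
    exact ⟨φε_right h n, fun o => ⟨n o, (φε_left h n o).symm⟩⟩
  · rintro ⟨h1, h2⟩
    choose n hn using h2
    refine ⟨ε n, ⟨n, rfl⟩, eq_of_coords h ?_ fun o => ?_⟩
    · rw [φε_right h n, h1]
    · rw [φε_left h n, hn]

theorem πε_mem (_ : WD π μ φ q α ε μQ) (n : Ω → Q) : π (ε n) ∈ NN' π ε :=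
  ⟨ε n, ⟨n, rfl⟩, rfl⟩

/-- Every family of elements of `q.range` is the family of the coordinates of an element of
`N`. -/
theorem exists_NN (h : WD π μ φ q α ε μQ) (s : Ω → K1) (hs : ∀ o, s o ∈ q.range) :
    ∃ n : Ω → Q, (∀ o, q (n o) = s o) ∧ (φ (π (ε n))).right = 1 ∧
      ∀ o, (φ (π (ε n))).left o = s o := by
  choose n hn using hs
  exact ⟨n, hn, φε_right h n, fun o => by rw [φε_left h n, hn]⟩

/-- The inverse image of `N` in `L` is the image of `ε`. -/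
theorem mem_comap_NN (h : WD π μ φ q α ε μQ) {x : L} :
    π x ∈ NN' π ε ↔ ∃ n, ε n = x := by
  constructor
  · rintro ⟨_, ⟨n, rfl⟩, hn⟩
    have h1 : x * (ε n)⁻¹ ∈ π.ker := by
      rw [MonoidHom.mem_ker, map_mul, map_inv, hn, mul_inv_cancel]
    obtain ⟨m, hm⟩ := h.kr h1
    exact ⟨m * n, by rw [map_mul, hm, inv_mul_cancel_right]⟩
  · rintro ⟨n, rfl⟩
    exact πε_mem h n

theorem comap_NN (h : WD π μ φ q α ε μQ) : (NN' π ε).comap π = ε.range := by
  ext x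
  exact mem_comap_NN h

theorem πε_eq_one (h : WD π μ φ q α ε μQ) {n : Ω → Q} :
    π (ε n) = 1 ↔ ∀ o, n o ∈ q.ker := by
  constructor
  · intro h1 o
    rw [MonoidHom.mem_ker, ← φε_left h n o, h1, map_one]
    rfl
  · intro h1
    refine eq_of_coords h ?_ fun o => ?_
    · rw [φε_right h, map_one]
      rfl
    · rw [φε_left h, MonoidHom.mem_ker.mp (h1 o), map_one]
      rfl

theorem ε_eq_one (h : WD π μ φ q α ε μQ) {n : Ω → Q} :
    ε n = 1 ↔ ∃ hn : ∀ o, n o ∈ q.ker, ∏ o, μQ ⟨n o, hn o⟩ = 1 := by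
  constructor
  · intro h1
    have h2 : π (ε n) = 1 := by rw [h1, map_one]
    refine ⟨(πε_eq_one h).mp h2, ?_⟩
    rw [← h.με n _ (MonoidHom.mem_ker.mpr h2)]
    have h3 : (⟨ε n, MonoidHom.mem_ker.mpr h2⟩ : π.ker) = 1 := Subtype.ext h1
    rw [h3, map_one]
  · rintro ⟨hn, h1⟩
    have h2 : π (ε n) = 1 := (πε_eq_one h).mpr hn
    rw [← h.με n hn (MonoidHom.mem_ker.mpr h2), ← map_one μ] at h1
    exact congrArg Subtype.val (h.μi h1)

/-- Conjugation of `ε n`. -/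
theorem conj_ε (h : WD π μ φ q α ε μQ) (l : L) (n : Ω → Q) :
    l * ε n * l⁻¹ = ε (fun o => α ((φ (π l)).left o) (n ((φ (π l)).right⁻¹ o))) :=
  (h.cj l n).symm

theorem inv_conj_ε (h : WD π μ φ q α ε μQ) (l : L) (hl : (φ (π l)).right = 1) (n : Ω → Q) :
    l⁻¹ * ε n * l = ε (fun o => α ((φ (π l)).left o)⁻¹ (n o)) := by
  have h1 := conj_ε h l (fun o => α ((φ (π l)).left o)⁻¹ (n o))
  simp only [hl, inv_one, Equiv.Perm.one_apply] at h1
  have h2 : (fun o => α ((φ (π l)).left o) (α ((φ (π l)).left o)⁻¹ (n o))) = n := by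
    funext o
    rw [← MulAut.mul_apply, ← map_mul, mul_inv_cancel, map_one, MulAut.one_apply]
  rw [h2] at h1
  rw [← h1]
  group

theorem normal_NN (h : WD π μ φ q α ε μQ) : (NN' π ε).Normal := by
  refine ⟨fun n hn k => ?_⟩
  obtain ⟨_, ⟨m, rfl⟩, rfl⟩ := hn
  obtain ⟨l, rfl⟩ := h.πs k
  rw [← map_inv, ← map_mul, ← map_mul, conj_ε h]
  exact πε_mem h _

theorem normal_range (h : WD π μ φ q α ε μQ) : q.range.Normal := by
  refine ⟨fun n hn k => ?_⟩
  obtain ⟨x, rfl⟩ := hn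
  exact ⟨α k x, h.qe k x⟩

/-- The elements of the inverse image of `N ⊓ PS φ S`. -/
theorem ε_mem_AL (h : WD π μ φ q α ε μQ) (S : Ω → Subgroup K1) {n : Ω → Q} :
    ε n ∈ AL π (NN' π ε) (PS φ S) ↔ ∀ o, q (n o) ∈ S o := by
  rw [Subgroup.mem_comap, Subgroup.mem_inf]
  constructor
  · rintro ⟨-, -, h1⟩ o
    rw [← φε_left h n o]
    exact h1 o
  · intro h1
    refine ⟨πε_mem h n, φε_right h n, fun o => ?_⟩
    rw [φε_left h]
    exact h1 o

theorem AL_eq_map (h : WD π μ φ q α ε μQ) (S : Ω → Subgroup K1) :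
    AL π (NN' π ε) (PS φ S) =
      (Subgroup.pi Set.univ (fun o => (S o).comap q)).map ε := by
  ext x
  constructor
  · intro hx
    obtain ⟨n, rfl⟩ := (mem_comap_NN h).mp (Subgroup.mem_comap.mp hx).1
    exact ⟨n, fun o _ => (ε_mem_AL h S).mp hx o, rfl⟩
  · rintro ⟨n, hn, rfl⟩
    exact (ε_mem_AL h S).mpr fun o => hn o (Set.mem_univ o)

/-- `ker ε`. -/
theorem card_kerε (h : WD π μ φ q α ε μQ) :
    Nat.card ε.ker = Nat.card {z : Ω → q.ker // ∏ o, μQ (z o) = 1} := by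
  refine Nat.card_congr ⟨fun n => ⟨fun o => ⟨(n : Ω → Q) o,
      ((ε_eq_one h).mp (MonoidHom.mem_ker.mp n.2)).1 o⟩,
      ((ε_eq_one h).mp (MonoidHom.mem_ker.mp n.2)).2⟩,
    fun z => ⟨fun o => (z.1 o : Q), MonoidHom.mem_ker.mpr ((ε_eq_one h).mpr
      ⟨fun o => (z.1 o).2, z.2⟩)⟩, fun n => rfl, fun z => rfl⟩

theorem card_NN (h : WD π μ φ q α ε μQ) :
    Nat.card (NN' π ε) = Nat.card q.range ^ Fintype.card Ω := by
  have h1 : Nat.card (NN' π ε) = Nat.card (Ω → q.range) := by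
    refine Nat.card_congr (Equiv.ofBijective (fun k => fun o =>
      ⟨(φ (k : K)).left o, ((mem_NN h).mp k.2).2 o⟩) ⟨?_, ?_⟩)
    · intro k k' hk
      refine Subtype.ext (eq_of_coords h ?_ fun o => ?_)
      · rw [((mem_NN h).mp k.2).1, ((mem_NN h).mp k'.2).1]
      · exact congrArg Subtype.val (congrFun hk o)
    · intro s
      obtain ⟨n, -, -, hn⟩ := exists_NN h (fun o => (s o : K1)) fun o => (s o).2
      refine ⟨⟨π (ε n), πε_mem h n⟩, ?_⟩
      funext o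
      exact Subtype.ext (hn o)
  rw [h1, Nat.card_fun, Nat.card_eq_fintype_card (α := Ω)]

theorem card_comap_NN (h : WD π μ φ q α ε μQ) :
    Nat.card ↥((NN' π ε).comap π) * Nat.card ε.ker = Nat.card Q ^ Fintype.card Ω := by
  rw [comap_NN h, ← Nat.card_eq_fintype_card (α := Ω), ← Nat.card_fun (α := Ω) (β := Q),
    Subgroup.card_eq_card_quotient_mul_card_subgroup ε.ker,
    Nat.card_congr (QuotientGroup.quotientKerEquivRange ε).toEquiv]

theorem card_kerπ (h : WD π μ φ q α ε μQ) :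
    Nat.card π.ker * Nat.card ε.ker = Nat.card q.ker ^ Fintype.card Ω := by
  classical
  rw [← Nat.card_eq_fintype_card (α := Ω), ← Nat.card_fun (α := Ω) (β := q.ker)]
  let j : (Ω → q.ker) →* π.ker :=
    { toFun := fun z => ⟨ε (fun o => (z o : Q)),
        MonoidHom.mem_ker.mpr ((πε_eq_one h).mpr fun o => (z o).2)⟩
      map_one' := Subtype.ext (map_one ε)
      map_mul' := fun z z' => Subtype.ext (map_mul ε (fun o => (z o : Q)) fun o => (z' o : Q)) }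
  have hj : Function.Surjective j := by
    intro z
    obtain ⟨n, hn⟩ := h.kr z.2
    have h1 : ∀ o, n o ∈ q.ker := (πε_eq_one h).mp (by rw [hn]; exact z.2)
    exact ⟨fun o => ⟨n o, h1 o⟩, Subtype.ext hn⟩
  have hk : Nat.card j.ker = Nat.card ε.ker := by
    refine Nat.card_congr ⟨fun z => ⟨fun o => ((z : Ω → q.ker) o : Q), ?_⟩,
      fun n => ⟨fun o => ⟨(n : Ω → Q) o, ((ε_eq_one h).mp (MonoidHom.mem_ker.mp n.2)).1 o⟩, ?_⟩,
      fun z => rfl, fun n => rfl⟩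
    · exact congrArg Subtype.val (MonoidHom.mem_ker.mp z.2)
    · exact Subtype.ext (MonoidHom.mem_ker.mp n.2)
  rw [Subgroup.card_eq_card_quotient_mul_card_subgroup j.ker, hk,
    Nat.card_congr (QuotientGroup.quotientKerEquivOfSurjective j hj).toEquiv]

/-! ### The groups `L1`, `YY`, `MY` -/

variable {L1 : Type} [Group L1] {π1 : L1 →* K1} {μ1 : π1.ker →* ℂˣ} {ι : Q →* L1}

theorem kerπ1_comm (h1 : LD q α μQ π1 μ1 ι) {z : L1} (hz : z ∈ π1.ker) (x : L1) :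
    z * x = x * z :=
  ((Subgroup.mem_center_iff.mp (h1.c hz)) x).symm

theorem conj_ι (h1 : LD q α μQ π1 μ1 ι) (y : L1) (x : Q) :
    y * ι x * y⁻¹ = ι (α (π1 y) x) :=
  (h1.ια y x).symm

theorem ι_mul (h1 : LD q α μQ π1 μ1 ι) (y : L1) (x : Q) :
    ι x * y = y * ι (α (π1 y)⁻¹ x) := by
  have h2 := conj_ι h1 y (α (π1 y)⁻¹ x)
  rw [← MulAut.mul_apply, ← map_mul, mul_inv_cancel, map_one, MulAut.one_apply] at h2
  rw [← h2]
  group

theorem ι_ker (h1 : LD q α μQ π1 μ1 ι) {x : Q} : ι x ∈ π1.ker ↔ x ∈ q.ker := by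
  rw [MonoidHom.mem_ker, MonoidHom.mem_ker, h1.πι]

theorem mem_comap_range (h1 : LD q α μQ π1 μ1 ι) {y : L1} :
    π1 y ∈ q.range ↔ ∃ z ∈ π1.ker, ∃ x, y = z * ι x := by
  constructor
  · rintro ⟨x, hx⟩
    refine ⟨y * (ι x)⁻¹, ?_, x, by rw [inv_mul_cancel_right]⟩
    rw [MonoidHom.mem_ker, map_mul, map_inv, h1.πι, hx, mul_inv_cancel]
  · rintro ⟨z, hz, x, rfl⟩
    rw [map_mul, MonoidHom.mem_ker.mp hz, one_mul, h1.πι]
    exact ⟨x, rfl⟩

theorem mem_YY {x : L × Gam (Equiv.Perm Ω) Ω L1} :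
    x ∈ YY π φ π1 ↔ φ (π x.1) = gmap Ω π1 x.2 := Iff.rfl

theorem mem_MY {M : Subgroup K} {x : L × Gam (Equiv.Perm Ω) Ω L1} :
    x ∈ MY π φ π1 M ↔ φ (π x.1) = gmap Ω π1 x.2 ∧ π x.1 ∈ M := Iff.rfl

theorem MY_le {M : Subgroup K} : MY π φ π1 M ≤ YY π φ π1 := inf_le_left

theorem YY_right {x : L × Gam (Equiv.Perm Ω) Ω L1} (hx : x ∈ YY π φ π1) :
    (φ (π x.1)).right = x.2.right := by
  rw [mem_YY.mp hx]
  rfl

theorem YY_left {x : L × Gam (Equiv.Perm Ω) Ω L1} (hx : x ∈ YY π φ π1) (o : Ω) :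
    (φ (π x.1)).left o = π1 (x.2.left o) := by
  rw [mem_YY.mp hx]
  rfl

theorem exists_YY (h1 : LD q α μQ π1 μ1 ι) (l : L) :
    ∃ g : Gam (Equiv.Perm Ω) Ω L1, (l, g) ∈ YY π φ π1 := by
  obtain ⟨g, hg⟩ := gmap_surj (Ω := Ω) h1.s (φ (π l))
  exact ⟨g, hg.symm⟩

theorem exists_YY' (h1 : LD q α μQ π1 μ1 ι) (l : L) (o : Ω) (y : L1)
    (hy : π1 y = (φ (π l)).left o) :
    ∃ g : Gam (Equiv.Perm Ω) Ω L1, (l, g) ∈ YY π φ π1 ∧ g.left o = y := by
  obtain ⟨g, hg, hgo⟩ := gmap_surj' (Ω := Ω) h1.s (φ (π l)) o y hy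
  exact ⟨g, hg.symm, hgo⟩

theorem MY_normal (M : Subgroup K) (hM : M.Normal) {x y : L × Gam (Equiv.Perm Ω) Ω L1}
    (hy : y ∈ YY π φ π1) (hx : x ∈ MY π φ π1 M) : y * x * y⁻¹ ∈ MY π φ π1 M := by
  refine ⟨Subgroup.mul_mem _ (Subgroup.mul_mem _ hy (MY_le hx)) (Subgroup.inv_mem _ hy), ?_⟩
  change π (y.1 * x.1 * y.1⁻¹) ∈ M
  rw [map_mul, map_mul, map_inv]
  exact hM.conj_mem _ (mem_MY.mp hx).2 _

theorem dY_fst (n : Ω → Q) : (dY ε ι n).1 = ε n := rfl

theorem dY_left (n : Ω → Q) (o : Ω) : (dY ε ι n).2.left o = ι (n o) := rfl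

theorem dY_right (n : Ω → Q) : (dY ε ι n).2.right = 1 := rfl

theorem dY_one : dY ε ι (1 : Ω → Q) = 1 := by
  refine Prod.ext (map_one ε) (ext' rfl fun o => ?_)
  exact map_one ι

theorem dY_mul (n n' : Ω → Q) : dY ε ι (n * n') = dY ε ι n * dY ε ι n' := by
  refine Prod.ext (map_mul ε n n') (ext' ?_ fun o => ?_)
  · change (1 : Equiv.Perm Ω) = 1 * 1
    rw [mul_one]
  · exact map_mul ι _ _

theorem dY_inv (n : Ω → Q) : dY ε ι n⁻¹ = (dY ε ι n)⁻¹ := by
  rw [eq_inv_iff_mul_eq_one, ← dY_mul, inv_mul_cancel, dY_one]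

theorem dY_inj (h1 : LD q α μQ π1 μ1 ι) {n n' : Ω → Q} (h2 : dY ε ι n = dY ε ι n') :
    n = n' := by
  funext o
  refine h1.ιi ?_
  rw [← dY_left (ε := ε), h2, dY_left]

theorem dY_mem_YY (h : WD π μ φ q α ε μQ) (h1 : LD q α μQ π1 μ1 ι) (n : Ω → Q) :
    dY ε ι n ∈ YY π φ π1 := by
  rw [mem_YY, dY_fst, h.φε]
  refine ext' rfl fun o => ?_
  rw [gmap_left, dY_left, h1.πι]
  rfl

theorem dY_mem_MY (h : WD π μ φ q α ε μQ) (h1 : LD q α μQ π1 μ1 ι) {M : Subgroup K}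
    (hM : NN' π ε ≤ M) (n : Ω → Q) : dY ε ι n ∈ MY π φ π1 M :=
  ⟨dY_mem_YY h h1 n, hM (πε_mem h n)⟩

/-- Conjugation of `dY n`. -/
theorem conj_dY (h : WD π μ φ q α ε μQ) (h1 : LD q α μQ π1 μ1 ι)
    {x : L × Gam (Equiv.Perm Ω) Ω L1} (hx : x ∈ YY π φ π1) (n : Ω → Q) :
    x * dY ε ι n * x⁻¹ =
      dY ε ι (fun o => α (π1 (x.2.left o)) (n (x.2.right⁻¹ o))) := by
  refine Prod.ext ?_ (ext' (conj_right _ _ rfl) fun o => ?_)
  · change x.1 * ε n * x.1⁻¹ = _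
    rw [conj_ε h, YY_right hx, dY_fst]
    congr 1
    funext o
    rw [YY_left hx]
  · rw [Prod.snd_mul, Prod.snd_mul, Prod.snd_inv, conj_left _ _ (dY_right n), dY_left, dY_left,
      conj_ι h1]

theorem MY_right {ℓ : ℕ} {M : Subgroup K} {M1 : Subgroup K1} (hm : MM ℓ π φ q ε M M1)
    {x : L × Gam (Equiv.Perm Ω) Ω L1} (hx : x ∈ MY π φ π1 M) : x.2.right = 1 := by
  rw [← YY_right (MY_le hx)]
  exact hm.r _ (mem_MY.mp hx).2

theorem MY_left {ℓ : ℕ} {M : Subgroup K} {M1 : Subgroup K1} (hm : MM ℓ π φ q ε M M1)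
    {x : L × Gam (Equiv.Perm Ω) Ω L1} (hx : x ∈ MY π φ π1 M) (o : Ω) :
    π1 (x.2.left o) ∈ M1 := by
  rw [← YY_left (MY_le hx)]
  exact hm.l _ (mem_MY.mp hx).2 o

/-- Coordinates are multiplicative on `MY`. -/
theorem MY_mul_left {ℓ : ℕ} {M : Subgroup K} {M1 : Subgroup K1} (hm : MM ℓ π φ q ε M M1)
    {x : L × Gam (Equiv.Perm Ω) Ω L1} (hx : x ∈ MY π φ π1 M)
    (y : L × Gam (Equiv.Perm Ω) Ω L1) (o : Ω) :
    (x * y).2.left o = x.2.left o * y.2.left o := by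
  rw [Prod.snd_mul, mul_left, MY_right hm hx]
  rfl

theorem mul_dY_left (x : L × Gam (Equiv.Perm Ω) Ω L1) (hx : x.2.right = 1) (n : Ω → Q)
    (o : Ω) : (x * dY ε ι n).2.left o = x.2.left o * ι (n o) := by
  rw [Prod.snd_mul, mul_left, hx]
  rfl

theorem z_mem_MY (M : Subgroup K) (z : Ω → π1.ker) :
    ((1, gin (fun o => (z o : L1))) : L × Gam (Equiv.Perm Ω) Ω L1) ∈ MY π φ π1 M := by
  refine ⟨?_, ?_⟩
  · change φ (π 1) = gmap Ω π1 (gin (fun o => (z o : L1)))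
    rw [map_one, map_one]
    refine ext' rfl fun o => ?_
    rw [gmap_left, gin_left, MonoidHom.mem_ker.mp (z o).2]
    rfl
  · change π 1 ∈ M
    rw [map_one]
    exact M.one_mem

theorem z_comm (h1 : LD q α μQ π1 μ1 ι) {ℓ : ℕ} {M : Subgroup K} {M1 : Subgroup K1}
    (hm : MM ℓ π φ q ε M M1) {x : L × Gam (Equiv.Perm Ω) Ω L1} (hx : x ∈ MY π φ π1 M)
    (z : Ω → π1.ker) :
    ((1, gin (fun o => (z o : L1))) : L × Gam (Equiv.Perm Ω) Ω L1) * x =
      x * (1, gin (fun o => (z o : L1))) := by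
  refine Prod.ext ?_ (ext' ?_ fun o => ?_)
  · change 1 * x.1 = x.1 * 1
    rw [one_mul, mul_one]
  · change 1 * x.2.right = x.2.right * 1
    rw [one_mul, mul_one]
  · rw [Prod.snd_mul, Prod.snd_mul, mul_left, mul_left, MY_right hm hx]
    exact kerπ1_comm h1 (z o).2 _

/-- The kernel of the projection to `L`. -/
theorem fst_eq_one {x : L × Gam (Equiv.Perm Ω) Ω L1} (hx : x ∈ YY π φ π1) (h2 : x.1 = 1) :
    ∃ z : Ω → π1.ker, x = (1, gin (fun o => (z o : L1))) := by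
  have h3 : φ (π x.1) = 1 := by rw [h2, map_one, map_one]
  have h4 : x.2.right = 1 := by
    rw [← YY_right hx, h3]
    rfl
  refine ⟨fun o => ⟨x.2.left o, ?_⟩, Prod.ext h2 (eq_gin h4)⟩
  rw [MonoidHom.mem_ker, ← YY_left hx, h3]
  rfl

/-- The elements of `MY` above `N`. -/
theorem MY_N (h : WD π μ φ q α ε μQ) (h1 : LD q α μQ π1 μ1 ι)
    {x : L × Gam (Equiv.Perm Ω) Ω L1} (hx : x ∈ YY π φ π1) (h2 : π x.1 ∈ NN' π ε) :
    ∃ (n : Ω → Q) (z : Ω → π1.ker), x = dY ε ι n * (1, gin (fun o => (z o : L1))) := by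
  obtain ⟨n, hn⟩ := (mem_comap_NN h).mp h2
  obtain ⟨z, hz⟩ := fst_eq_one (x := (dY ε ι n)⁻¹ * x)
    (Subgroup.mul_mem _ (Subgroup.inv_mem _ (dY_mem_YY h h1 n)) hx) (by
      change (ε n)⁻¹ * x.1 = 1
      rw [hn, inv_mul_cancel])
  exact ⟨n, z, by rw [← hz, mul_inv_cancel_left]⟩

end Data

end Pool.Agent.DPG.WDB


end

section

/-!
# EDK: the extensions of the products: the character of the fibre product
-/

namespace Pool.Agent.DPG

open Pool.Agent.DP Pool.Agent.DPC Pool.Agent.DPM Pool.Agent.DPN Pool.Agent.DPF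
  Pool.Agent.Lib_helper13 Representation

namespace EDK

/-! ### Characters -/

/-- A character which is constant on the cosets of a normal subgroup is a character of the
quotient. -/
theorem deflate {B G : Type} [Group B] [Finite B] [Group G] (f : B →* G)
    (hf : Function.Surjective f) (X : B → ℂ) (hX : IsChr X)
    (h : ∀ k x, f k = 1 → X (k * x) = X x) : ∃ Y : G → ℂ, IsChr Y ∧ ∀ b, Y (f b) = X b := by
  classical
  obtain ⟨n, ρ, hρ⟩ := hX
  have hX1 : ∀ k, f k = 1 → X k = (n : ℂ) := by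
    intro k hk
    rw [← mul_one k, h k 1 hk, ← hρ, char_one]
    simp
  let _ : Fintype f.ker := Fintype.ofFinite _
  let σ : Representation ℂ f.ker (Fin n → ℂ) := ρ.comp f.ker.subtype
  have h1 : (Module.finrank ℂ σ.invariants : ℂ) = (n : ℂ) := by
    rw [← card_inv_mul_sum_char_eq_finrank σ]
    have h2 : ∀ g : f.ker, σ.character g = (n : ℂ) := by
      intro g
      rw [← hX1 (g : B) (MonoidHom.mem_ker.mp g.2), ← hρ]
      rfl
    rw [Finset.sum_congr rfl fun g _ => h2 g, Finset.sum_const, nsmul_eq_mul, Finset.card_univ,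
      ← Nat.card_eq_fintype_card, ← mul_assoc, inv_mul_cancel₀ natCard_ne_zero, one_mul]
  have h2 : σ.invariants = ⊤ := by
    apply Submodule.eq_top_of_finrank_eq
    rw [Module.finrank_fin_fun]
    exact_mod_cast h1
  have h3 : ∀ k, f k = 1 → ρ k = 1 := by
    intro k hk
    refine LinearMap.ext fun v => ?_
    have h4 : v ∈ σ.invariants := by
      rw [h2]
      exact Submodule.mem_top
    exact h4 ⟨k, MonoidHom.mem_ker.mpr hk⟩
  have h4 : ∀ b b', f b = f b' → ρ b = ρ b' := by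
    intro b b' hb
    have h5 : ρ (b * b'⁻¹) = 1 := h3 _ (by rw [map_mul, map_inv, hb, mul_inv_cancel])
    have h6 : b = b * b'⁻¹ * b' := by rw [inv_mul_cancel_right]
    rw [h6, map_mul, h5, one_mul]
  choose s hs using hf
  let τ : Representation ℂ G (Fin n → ℂ) :=
    { toFun := fun g => ρ (s g)
      map_one' := h3 _ (hs 1)
      map_mul' := fun g g' => by
        rw [← map_mul]
        exact h4 _ _ (by rw [map_mul, hs, hs, hs]) }
  refine ⟨τ.character, ⟨n, τ, rfl⟩, fun b => ?_⟩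
  rw [← hρ]
  change LinearMap.trace ℂ (Fin n → ℂ) (ρ (s (f b))) = LinearMap.trace ℂ (Fin n → ℂ) (ρ b)
  rw [h4 _ _ (hs (f b))]

/-- A central element of a group on which the character is irreducible acts as a scalar. -/
theorem scal {A Γ : Type} [Group A] [Finite A] [Group Γ] (e : A →* Γ) {θ : A → ℂ} {E : Γ → ℂ}
    (hθ : IsIrr θ) (hE : IsChr E) (hr : ∀ a, E (e a) = θ a) (x : A)
    (hx : ∀ a, x * a = a * x) {c : ℂ} (hc : c * θ x = θ 1) (γ : Γ) :
    c * E (e x * γ) = E γ := by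
  classical
  let _ : Fintype A := Fintype.ofFinite _
  obtain ⟨n, ρ, hρ⟩ := hE
  have hσc : (RDA.res e ρ).character = θ := by
    funext a
    rw [← hr, ← hρ]
    rfl
  have hσ : (RDA.res e ρ).IsIrreducible := by
    apply irreducible_of_sum
    rw [hσc]
    exact hθ.sum_self
  obtain ⟨s, hs⟩ := exists_scalar (RDA.res e ρ) hσ (ρ (e x)) (by
    intro a v
    change (ρ (e x) * ρ (e a)) v = (ρ (e a) * ρ (e x)) v
    rw [← map_mul, ← map_mul, ← map_mul, ← map_mul, hx])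
  have htr : LinearMap.trace ℂ (Fin n → ℂ) (LinearMap.id : (Fin n → ℂ) →ₗ[ℂ] (Fin n → ℂ)) =
      (n : ℂ) := by
    rw [LinearMap.trace_id]
    simp
  have hθ1 : θ 1 = (n : ℂ) := by
    rw [← hσc, char_one]
    simp
  have h1 : θ x = s * n := by
    rw [← hr, ← hρ]
    change LinearMap.trace ℂ (Fin n → ℂ) (ρ (e x)) = _
    rw [hs, map_smul, htr, smul_eq_mul]
  have hn : (n : ℂ) ≠ 0 := by
    rw [← hθ1]
    exact hθ.one_ne_zero
  have h2 : c * s = 1 := by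
    rw [h1, hθ1, ← mul_assoc] at hc
    exact mul_right_cancel₀ hn (by rw [hc, one_mul])
  rw [← hρ]
  change c * LinearMap.trace ℂ (Fin n → ℂ) (ρ (e x * γ)) = _
  rw [map_mul, hs, smul_mul_assoc, map_smul, smul_eq_mul, ← mul_assoc, h2, one_mul]
  rfl

/-! ### The groups -/

set_option linter.unusedSectionVars false

section Grp

variable {L K H K1 H1 Q L1 W1 Ω : Type} [Group L] [Group K] [Group H] [Group K1] [Group H1]
  [Group Q] [Group L1] [Group W1] [Fintype Ω]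

/-- The projection of the fibre product to `H`. -/
def pY (π : L →* K) (φ : K →* Gam (Equiv.Perm Ω) Ω K1) (π1 : L1 →* K1) (p : K →* H) :
    YY π φ π1 →* H :=
  (p.comp π).comp (ffst (φ.comp π) (gmap Ω π1))

theorem pY_apply (π : L →* K) (φ : K →* Gam (Equiv.Perm Ω) Ω K1) (π1 : L1 →* K1) (p : K →* H)
    (y : YY π φ π1) : pY π φ π1 p y = p (π (y : L × Gam (Equiv.Perm Ω) Ω L1).1) := rfl

theorem clg {T : Type} [Group T] (p : T →* H) : ClG p.ker.subtype
    (MulAut.conjNormal : T →* MulAut p.ker) p where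
  inj := Subtype.val_injective
  act := fun _ _ => rfl
  ker := by
    intro y
    constructor
    · intro h
      exact ⟨⟨y, MonoidHom.mem_ker.mpr h⟩, rfl⟩
    · rintro ⟨a, rfl⟩
      exact MonoidHom.mem_ker.mp a.2

/-- The homomorphism induced by `φ` on the quotients. -/
theorem exists_bar {ℓ : ℕ} {π : L →* K} {φ : K →* Gam (Equiv.Perm Ω) Ω K1} {q : Q →* K1}
    {ε : (Ω → Q) →* L} {M : Subgroup K} {M1 : Subgroup K1} (hm : MM ℓ π φ q ε M M1)
    {p : K →* H} (hp : Function.Surjective p) (hpM : ∀ k, p k = 1 ↔ k ∈ M) {p1 : K1 →* H1}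
    (hpM1 : ∀ k, p1 k = 1 ↔ k ∈ M1) :
    ∃ φb : H →* Gam (Equiv.Perm Ω) Ω H1, ∀ k, φb (p k) = gmap Ω p1 (φ k) := by
  have h1 : ∀ k, p k = 1 → gmap Ω p1 (φ k) = 1 := by
    intro k hk
    have hk' := (hpM k).mp hk
    refine WDB.ext' (hm.r k hk') fun o => ?_
    exact (hpM1 _).mpr (hm.l k hk' o)
  have h2 : ∀ k k', p k = p k' → gmap Ω p1 (φ k) = gmap Ω p1 (φ k') := by
    intro k k' hk
    have h3 := h1 (k * k'⁻¹) (by rw [map_mul, map_inv, hk, mul_inv_cancel])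
    rw [map_mul, map_mul, map_inv, map_inv] at h3
    exact mul_inv_eq_one.mp h3
  choose s hs using hp
  let φb : H →* Gam (Equiv.Perm Ω) Ω H1 :=
    { toFun := fun h => gmap Ω p1 (φ (s h))
      map_one' := h1 _ (hs 1)
      map_mul' := fun h h' => by
        rw [← map_mul, ← map_mul]
        exact h2 _ _ (by rw [hs, map_mul, hs, hs]) }
  exact ⟨φb, fun k => h2 _ _ (hs _)⟩

/-- The element of the kernel which belongs to an element of `MY`. -/
def toA {π : L →* K} {φ : K →* Gam (Equiv.Perm Ω) Ω K1} {π1 : L1 →* K1} {p : K →* H}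
    {M : Subgroup K} (hpM : ∀ k, p k = 1 ↔ k ∈ M) (x : L × Gam (Equiv.Perm Ω) Ω L1)
    (hx : x ∈ MY π φ π1 M) : (pY π φ π1 p).ker :=
  ⟨⟨x, hx.1⟩, MonoidHom.mem_ker.mpr ((hpM _).mpr hx.2)⟩

theorem mem_of_ker {π : L →* K} {φ : K →* Gam (Equiv.Perm Ω) Ω K1} {π1 : L1 →* K1} {p : K →* H}
    {M : Subgroup K} (hpM : ∀ k, p k = 1 ↔ k ∈ M) (a : (pY π φ π1 p).ker) :
    ((a : YY π φ π1) : L × Gam (Equiv.Perm Ω) Ω L1) ∈ MY π φ π1 M :=
  ⟨a.1.2, (hpM _).mp (MonoidHom.mem_ker.mp a.2)⟩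

/-- The restriction of `ζ` to the kernel. -/
theorem irr_ker {π : L →* K} {φ : K →* Gam (Equiv.Perm Ω) Ω K1} {π1 : L1 →* K1} {p : K →* H}
    {M : Subgroup K} [Finite L] [Finite L1] (hpM : ∀ k, p k = 1 ↔ k ∈ M)
    {ζ : L × Gam (Equiv.Perm Ω) Ω L1 → ℂ} (hζ : IrrOn (MY π φ π1 M) ζ) :
    IsIrr (fun a : (pY π φ π1 p).ker => ζ ((a : YY π φ π1) : L × Gam (Equiv.Perm Ω) Ω L1)) := by
  classical
  let _ : Fintype (MY π φ π1 M) := Fintype.ofFinite _
  let eq : (pY π φ π1 p).ker ≃* MY π φ π1 M :=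
    { toFun := fun a => ⟨_, mem_of_ker hpM a⟩
      invFun := fun x => toA hpM x.1 x.2
      left_inv := fun a => rfl
      right_inv := fun x => rfl
      map_mul' := fun a b => rfl }
  exact hζ.1.comp_mulEquiv eq

end Grp

/-! ### The character -/

section Edb

variable {L K H K1 H1 Q L1 W1 Ω : Type} [Group L] [Group K] [Group H] [Group K1] [Group H1]
  [Group Q] [Group L1] [Group W1] [Fintype Ω]

/-- The extension of the product. -/
theorem edb {Γ L0 W : Type} [Group Γ] [Finite Γ] [Group L0] [Group W] [Finite W]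
    [Finite L] [Finite L1] {ℓ : ℕ} {π : L →* K} {φ : K →* Gam (Equiv.Perm Ω) Ω K1} {q : Q →* K1}
    {ε : (Ω → Q) →* L} {α : K1 →* MulAut Q} {μQ : q.ker →* ℂˣ} {ι : Q →* L1}
    {M : Subgroup K} {M1 : Subgroup K1} (hm : MM ℓ π φ q ε M M1) {π1 : L1 →* K1}
    {μ1 : π1.ker →* ℂˣ} (h1 : LD q α μQ π1 μ1 ι)
    {p : K →* H} (hpM : ∀ k, p k = 1 ↔ k ∈ M) {p1 : K1 →* H1} {πW1 : W1 →* H1}
    {ζ : L × Gam (Equiv.Perm Ω) Ω L1 → ℂ} (hζ : ZT π φ π1 μ1 ε ι M ζ)
    {e : (pY π φ π1 p).ker →* Γ} {q0 : Γ →* L0} {r0 : Γ →* YY π φ π1} {E0 : Γ → ℂ}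
    {U0 : Subgroup L0} {μ' : U0 →* ℂˣ} {π0 : L0 →* H}
    (tw : TWD (pY π φ π1 p).ker.subtype (pY π φ π1 p)
      (fun a : (pY π φ π1 p).ker => ζ ((a : YY π φ π1) : L × Gam (Equiv.Perm Ω) Ω L1))
      e q0 r0 E0 U0 μ' π0)
    {fW : W →* L0} {πW : W →* H} {ψ : W →* Gam (Equiv.Perm Ω) Ω W1}
    (hW1 : ∀ w, π0 (fW w) = πW w)
    (hW2 : ∀ w k, πW w = p k → gmap Ω πW1 (ψ w) = gmap Ω p1 (φ k))
    {S : Subgroup K} {S1 : Subgroup K1} (hS : ∀ k ∈ S, ∀ o, (φ k).left o ∈ S1)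
    {F : L1 → ℂ} {ν1 : πW1.ker →* ℂˣ} {θ : L → ℂ} (hθ : TP π φ π1 M F ζ θ)
    {E : Gam (Equiv.Perm Ω) Ω L1 × Gam (Equiv.Perm Ω) Ω W1 → ℂ}
    (hE1 : ∀ (B : Type) [Group B] [Finite B]
        (h : B →* Gam (Equiv.Perm Ω) Ω L1 × Gam (Equiv.Perm Ω) Ω W1),
        (∀ b, gmap Ω (p1.comp π1) (h b).1 = gmap Ω πW1 (h b).2 ∧
          ∀ o, π1 ((h b).1.left o) ∈ S1) → IsChr (fun b => E (h b)))
    (hE2 : ∀ g : Gam (Equiv.Perm Ω) Ω L1, g.right = 1 → (∀ o, π1 (g.left o) ∈ M1 ⊓ S1) →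
        E (g, 1) = ∏ o, F (g.left o))
    (hE3 : ∀ (z : Ω → π1.ker) (a : Ω → πW1.ker) (g : Gam (Equiv.Perm Ω) Ω L1)
        (w : Gam (Equiv.Perm Ω) Ω W1), gmap Ω (p1.comp π1) g = gmap Ω πW1 w →
        (∀ o, π1 (g.left o) ∈ S1) →
        (∏ o, ((ν1 (a o) : ℂˣ) : ℂ)) *
          E (gin (fun o => (z o : L1)) * g, gin (fun o => (a o : W1)) * w) =
        (∏ o, ((μ1 (z o) : ℂˣ) : ℂ)) * E (g, w))
    {ν : πW.ker →* ℂˣ}
    (hν : ∀ (a : πW.ker) (h0 : fW (a : W) ∈ U0) (h : ∀ o, (ψ (a : W)).left o ∈ πW1.ker),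
      ν a = μ' ⟨fW (a : W), h0⟩ * ∏ o, ν1 ⟨(ψ (a : W)).left o, h o⟩) :
    EDb π p M πW S θ ν := by
  classical
  have hC := clg (pY π φ π1 p)
  -- the group
  let B : Subgroup (Γ × W) := fpr q0 fW ⊓
    ((S.comap (π.comp (ffst (φ.comp π) (gmap Ω π1)))).comap r0).comap (MonoidHom.fst Γ W)
  have hB1 : ∀ b : B, q0 (b : Γ × W).1 = fW (b : Γ × W).2 := fun b => b.2.1
  have hB2 : ∀ b : B, π (r0 (b : Γ × W).1 : L × Gam (Equiv.Perm Ω) Ω L1).1 ∈ S :=
    fun b => b.2.2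
  have hB3 : ∀ b : B, p (π (r0 (b : Γ × W).1 : L × Gam (Equiv.Perm Ω) Ω L1).1) =
      πW (b : Γ × W).2 := by
    intro b
    rw [← pY_apply, ← tw.πq, hB1, hW1]
  have hB4 : ∀ b : B, gmap Ω (p1.comp π1) (r0 (b : Γ × W).1 : L × Gam (Equiv.Perm Ω) Ω L1).2 =
      gmap Ω πW1 (ψ (b : Γ × W).2) := by
    intro b
    rw [hW2 _ _ (hB3 b).symm, WDB.mem_YY.mp (r0 (b : Γ × W).1).2]
    rfl
  have hB5 : ∀ (b : B) o,
      π1 ((r0 (b : Γ × W).1 : L × Gam (Equiv.Perm Ω) Ω L1).2.left o) ∈ S1 := by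
    intro b o
    rw [← WDB.YY_left (r0 (b : Γ × W).1).2]
    exact hS _ (hB2 b) o
  -- the homomorphisms
  let f : B →* GS π p πW S :=
    { toFun := fun b => ⟨((r0 (b : Γ × W).1 : L × Gam (Equiv.Perm Ω) Ω L1).1, (b : Γ × W).2),
        hB2 b, hB3 b⟩
      map_one' := by
        refine Subtype.ext (Prod.ext ?_ rfl)
        change (r0 1 : L × Gam (Equiv.Perm Ω) Ω L1).1 = 1
        rw [map_one]
        rfl
      map_mul' := by
        intro a b
        refine Subtype.ext (Prod.ext ?_ rfl)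
        change (r0 ((a : Γ × W).1 * (b : Γ × W).1) : L × Gam (Equiv.Perm Ω) Ω L1).1 = _
        rw [map_mul]
        rfl }
  let g : B →* Gam (Equiv.Perm Ω) Ω L1 × Gam (Equiv.Perm Ω) Ω W1 :=
    { toFun := fun b => ((r0 (b : Γ × W).1 : L × Gam (Equiv.Perm Ω) Ω L1).2, ψ (b : Γ × W).2)
      map_one' := by
        refine Prod.ext ?_ ?_
        · change (r0 1 : L × Gam (Equiv.Perm Ω) Ω L1).2 = 1
          rw [map_one]
          rfl
        · exact map_one ψ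
      map_mul' := by
        intro a b
        refine Prod.ext ?_ ?_
        · change (r0 ((a : Γ × W).1 * (b : Γ × W).1) : L × Gam (Equiv.Perm Ω) Ω L1).2 = _
          rw [map_mul]
          rfl
        · exact map_mul ψ _ _ }
  have hf : Function.Surjective f := by
    rintro ⟨⟨t, w⟩, ht, htw⟩
    obtain ⟨y, hy⟩ := WDB.exists_YY (φ := φ) (π := π) h1 t
    obtain ⟨γ, hγ, hγ'⟩ := RDA.exists_g hC tw (t := ⟨(t, y), hy⟩) (l := fW w) (by
      rw [pY_apply, hW1]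
      exact htw)
    refine ⟨⟨(γ, w), hγ', ?_⟩, ?_⟩
    · change π (r0 γ : L × Gam (Equiv.Perm Ω) Ω L1).1 ∈ S
      rw [hγ]
      exact ht
    · refine Subtype.ext (Prod.ext ?_ rfl)
      change (r0 γ : L × Gam (Equiv.Perm Ω) Ω L1).1 = t
      rw [hγ]
  -- the character
  have hX : IsChr (fun b : B => E (g b) * E0 (b : Γ × W).1) :=
    (hE1 B g fun b => ⟨hB4 b, hB5 b⟩).mul
      (tw.Ec.comp ((MonoidHom.fst Γ W).comp B.subtype))
  have hinv : ∀ k x : B, f k = 1 →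
      E (g (k * x)) * E0 ((k * x : B) : Γ × W).1 = E (g x) * E0 (x : Γ × W).1 := by
    intro k x hk
    have hk1 : (r0 (k : Γ × W).1 : L × Gam (Equiv.Perm Ω) Ω L1).1 = 1 :=
      congrArg (fun y : GS π p πW S => (y : L × W).1) hk
    have hk2 : (k : Γ × W).2 = 1 := congrArg (fun y : GS π p πW S => (y : L × W).2) hk
    obtain ⟨a, ha⟩ := (tw.qk (k : Γ × W).1).mp (by rw [hB1, hk2, map_one])
    have ha1 : r0 (k : Γ × W).1 = (a : YY π φ π1) := by
      rw [← ha]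
      exact tw.re a
    rw [ha1] at hk1
    obtain ⟨z, hz⟩ := WDB.fst_eq_one (a : YY π φ π1).2 hk1
    have h2 : E (g (k * x)) = E (gin (fun o => (z o : L1)) *
        (r0 (x : Γ × W).1 : L × Gam (Equiv.Perm Ω) Ω L1).2,
        gin (fun _ => ((1 : πW1.ker) : W1)) * ψ (x : Γ × W).2) := by
      rw [map_mul g k x]
      change E (((r0 (k : Γ × W).1 : L × Gam (Equiv.Perm Ω) Ω L1).2) *
        (r0 (x : Γ × W).1 : L × Gam (Equiv.Perm Ω) Ω L1).2, ψ (k : Γ × W).2 * ψ (x : Γ × W).2) = _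
      rw [ha1, hz, hk2, map_one]
      rfl
    have h3 := hE3 z (fun _ => 1) _ _ (hB4 x) (hB5 x)
    rw [← h2] at h3
    have h4 : ∏ o : Ω, ((ν1 ((fun _ => 1 : Ω → πW1.ker) o) : ℂˣ) : ℂ) = 1 :=
      Finset.prod_eq_one fun o _ => by
        change ((ν1 1 : ℂˣ) : ℂ) = 1
        rw [map_one, Units.val_one]
    rw [h4, one_mul] at h3
    have h5 := scal e (irr_ker hpM hζ.irr) tw.Ec tw.Ee a (by
      intro a'
      refine Subtype.ext (Subtype.ext ?_)
      change ((a : YY π φ π1) : L × Gam (Equiv.Perm Ω) Ω L1) *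
        ((a' : YY π φ π1) : L × Gam (Equiv.Perm Ω) Ω L1) =
        ((a' : YY π φ π1) : L × Gam (Equiv.Perm Ω) Ω L1) *
        ((a : YY π φ π1) : L × Gam (Equiv.Perm Ω) Ω L1)
      rw [hz]
      exact WDB.z_comm h1 hm (mem_of_ker hpM a') z) (c := ∏ o, ((μ1 (z o) : ℂˣ) : ℂ)) (by
      have h6 := hζ.z z 1
      rw [mul_one, ← hz] at h6
      exact h6) (x : Γ × W).1
    rw [ha] at h5
    have h6 : ((k * x : B) : Γ × W).1 = (k : Γ × W).1 * (x : Γ × W).1 := rfl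
    rw [h6, h3, mul_assoc, mul_left_comm, h5]
    rfl
  obtain ⟨Y, hY, hYf⟩ := deflate f hf _ hX hinv
  refine ⟨fun x => if h : x ∈ GS π p πW S then Y ⟨x, h⟩ else 0, ?_, ?_, ?_, ?_⟩
  · have h2 : (fun x : GS π p πW S =>
        if h : (x : L × W) ∈ GS π p πW S then Y ⟨(x : L × W), h⟩ else 0) = Y :=
      funext fun x => dif_pos x.2
    rw [h2]
    exact hY
  · intro x hx
    exact dif_neg hx
  · intro a haM haS
    obtain ⟨y, hy⟩ := WDB.exists_YY (φ := φ) (π := π) h1 a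
    have hx : (a, y) ∈ MY π φ π1 M := ⟨hy, haM⟩
    let a' : (pY π φ π1 p).ker := toA hpM (a, y) hx
    have hr : r0 (e a') = ⟨(a, y), hy⟩ := tw.re a'
    have hq : q0 (e a') = fW 1 := by
      rw [map_one]
      exact (tw.qk _).mpr ⟨a', rfl⟩
    let b : B := ⟨(e a', 1), hq, by
      change π (r0 (e a') : L × Gam (Equiv.Perm Ω) Ω L1).1 ∈ S
      rw [hr]
      exact haS⟩
    have hmem : (a, (1 : W)) ∈ GS π p πW S :=
      ⟨haS, by
        change p (π a) = πW 1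
        rw [map_one]
        exact (hpM _).mpr haM⟩
    have hb : f b = ⟨(a, 1), hmem⟩ := by
      refine Subtype.ext (Prod.ext ?_ rfl)
      change (r0 (e a') : L × Gam (Equiv.Perm Ω) Ω L1).1 = a
      rw [hr]
    have h2 : (fun x => if h : x ∈ GS π p πW S then Y ⟨x, h⟩ else 0) (a, (1 : W)) =
        Y ⟨(a, 1), hmem⟩ := dif_pos hmem
    rw [h2, ← hb, hYf]
    have h3 : g b = (y, 1) := by
      refine Prod.ext ?_ (map_one ψ)
      change (r0 (e a') : L × Gam (Equiv.Perm Ω) Ω L1).2 = y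
      rw [hr]
    have h4 : E0 (b : Γ × W).1 = ζ (a, y) := tw.Ee a'
    rw [h3, h4, hE2 y (WDB.MY_right hm hx), hθ.2 _ hx]
    intro o
    refine ⟨WDB.MY_left hm hx o, ?_⟩
    rw [← WDB.YY_left hy]
    exact hS _ haS o
  · intro z t w
    have hz := MonoidHom.mem_ker.mp z.2
    have hiff : (t, (z : W) * w) ∈ GS π p πW S ↔ (t, w) ∈ GS π p πW S := by
      change (π t ∈ S ∧ p (π t) = πW (z * w)) ↔ (π t ∈ S ∧ p (π t) = πW w)
      rw [map_mul, hz, one_mul]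
    by_cases h : (t, w) ∈ GS π p πW S
    · have h' := hiff.mpr h
      obtain ⟨b, hb⟩ := hf ⟨(t, w), h⟩
      have h2 : (fun x => if h : x ∈ GS π p πW S then Y ⟨x, h⟩ else 0) (t, w) =
          Y ⟨(t, w), h⟩ := dif_pos h
      have h2' : (fun x => if h : x ∈ GS π p πW S then Y ⟨x, h⟩ else 0) (t, (z : W) * w) =
          Y ⟨(t, (z : W) * w), h'⟩ := dif_pos h'
      have hU : fW (z : W) ∈ U0 := by
        rw [← tw.πk, hW1, hz]
      obtain ⟨γ1, hγ1, hγ1'⟩ := TWF.exists_z hC tw hU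
      have hr : r0 (γ1 * (b : Γ × W).1) = r0 (b : Γ × W).1 := by
        rw [map_mul, hγ1, one_mul]
      let b' : B := ⟨(γ1 * (b : Γ × W).1, (z : W) * (b : Γ × W).2), by
        change q0 (γ1 * (b : Γ × W).1) = fW ((z : W) * (b : Γ × W).2)
        rw [map_mul, map_mul, hγ1', hB1], by
        change π (r0 (γ1 * (b : Γ × W).1) : L × Gam (Equiv.Perm Ω) Ω L1).1 ∈ S
        rw [hr]
        exact hB2 b⟩
      have hb1 : (r0 (b : Γ × W).1 : L × Gam (Equiv.Perm Ω) Ω L1).1 = t :=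
        congrArg (fun y : GS π p πW S => (y : L × W).1) hb
      have hb2 : (b : Γ × W).2 = w := congrArg (fun y : GS π p πW S => (y : L × W).2) hb
      have hb' : f b' = ⟨(t, (z : W) * w), h'⟩ := by
        refine Subtype.ext (Prod.ext ?_ ?_)
        · change (r0 (γ1 * (b : Γ × W).1) : L × Gam (Equiv.Perm Ω) Ω L1).1 = t
          rw [hr, hb1]
        · change (z : W) * (b : Γ × W).2 = z * w
          rw [hb2]
      rw [h2, h2', ← hb, ← hb', hYf, hYf]
      have h3 : gmap Ω πW1 (ψ (z : W)) = 1 := by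
        rw [hW2 _ 1 (by rw [hz, map_one]), map_one, map_one]
      have h4 : (ψ (z : W)).right = 1 := by
        rw [← WDB.gmap_right πW1, h3]
        rfl
      have h5 : ∀ o, (ψ (z : W)).left o ∈ πW1.ker := by
        intro o
        rw [MonoidHom.mem_ker, ← WDB.gmap_left, h3]
        rfl
      have h6 : g b' = (gin (fun _ => ((1 : π1.ker) : L1)) * (g b).1,
          gin (fun o => (((⟨(ψ (z : W)).left o, h5 o⟩ : πW1.ker)) : W1)) * (g b).2) := by
        refine Prod.ext ?_ ?_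
        · change (r0 (γ1 * (b : Γ × W).1) : L × Gam (Equiv.Perm Ω) Ω L1).2 =
            1 * (r0 (b : Γ × W).1 : L × Gam (Equiv.Perm Ω) Ω L1).2
          rw [hr, one_mul]
        · change ψ ((z : W) * (b : Γ × W).2) = gin (ψ (z : W)).left * ψ (b : Γ × W).2
          rw [map_mul, ← WDB.eq_gin h4]
      have h7 := hE3 (fun _ => 1) (fun o => ⟨(ψ (z : W)).left o, h5 o⟩) _ _ (hB4 b) (hB5 b)
      have h8 : ∏ o : Ω, ((μ1 ((fun _ => 1 : Ω → π1.ker) o) : ℂˣ) : ℂ) = 1 :=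
        Finset.prod_eq_one fun o _ => by
          change ((μ1 1 : ℂˣ) : ℂ) = 1
          rw [map_one, Units.val_one]
      rw [h8, one_mul] at h7
      have h9 : (∏ o, ((ν1 ⟨(ψ (z : W)).left o, h5 o⟩ : ℂˣ) : ℂ)) * E (g b') = E (g b) := by
        rw [h6]
        exact h7
      have h10 := tw.El γ1 (b : Γ × W).1 (by rw [hγ1']; exact hU) hγ1
      have h11 : (⟨q0 γ1, by rw [hγ1']; exact hU⟩ : U0) = ⟨fW (z : W), hU⟩ :=
        Subtype.ext hγ1'
      rw [h11] at h10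
      rw [hν z hU h5, ← h9, ← h10, Units.val_mul, Units.coe_prod]
      change _ * _ * (E (g b') * E0 (γ1 * (b : Γ × W).1)) = _
      ring
    · have h' := fun h0 => h (hiff.mp h0)
      have h2 : (fun x => if h : x ∈ GS π p πW S then Y ⟨x, h⟩ else 0) (t, w) = 0 := dif_neg h
      have h2' : (fun x => if h : x ∈ GS π p πW S then Y ⟨x, h⟩ else 0) (t, (z : W) * w) = 0 :=
        dif_neg h'
      rw [h2, h2', mul_zero]

end Edb

end EDK

end Pool.Agent.DPG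


end

section

/-!
# EDK: the extensions of the products
-/

namespace Pool.Agent.DPG

open Pool.Agent.DP Pool.Agent.DPC Pool.Agent.DPM Pool.Agent.DPN Pool.Agent.DPF
  Pool.Agent.Lib_helper13 Representation

open EDK in
/-- **EDK** -/
theorem EDK_thm (hTIE : Stmt_TIE) (hCST : Stmt_CST) : Stmt_EDK := by
  classical
  intro L K H K1 H1 Q L1 W1 Ω _ _ _ _ _ _ _ _ _ _ _ _ _ _ _ _ _ _ 𝔐 ℓ _ h𝔐 hℓ π μ φ q α ε μQ
    π1 μ1 ι M M1 σr Fr ζ hR p hp hpM p1 hp1 hpM1 πW1 hπW1 hcW1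
  obtain ⟨φb, hφb⟩ := exists_bar hR.mm hp hpM hpM1
  -- the twisted group
  let _ : Fintype (YY π φ π1) := Fintype.ofFinite _
  let _ : Fintype (pY π φ π1 p).ker := Fintype.ofFinite _
  have hC := clg (pY π φ π1 p)
  have hpY : Function.Surjective (pY π φ π1 p) := by
    intro h
    obtain ⟨k, rfl⟩ := hp h
    obtain ⟨l, rfl⟩ := hR.wd.πs k
    obtain ⟨y, hy⟩ := WDB.exists_YY (φ := φ) (π := π) hR.ld l
    exact ⟨⟨(l, y), hy⟩, rfl⟩
  obtain ⟨Γ, L0, iΓ, fΓ, iL0, fL0, e, q0, r0, E0, U0, μ', π0, tw⟩ :=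
    TWC_thm (pY π φ π1 p).ker (YY π φ π1) H (pY π φ π1 p).ker.subtype
      (MulAut.conjNormal : YY π φ π1 →* MulAut (pY π φ π1 p).ker) (pY π φ π1 p) hC hpY
      (fun a : (pY π φ π1 p).ker => ζ ((a : YY π φ π1) : L × Gam (Equiv.Perm Ω) Ω L1))
      (irr_ker hpM hR.zt.irr) (fun t a => hR.zi _ t.2 _)
  let _ : Group Γ := iΓ
  let _ : Fintype Γ := fΓ
  let _ : Group L0 := iL0
  let _ : Fintype L0 := fL0
  -- the group
  let W : Subgroup (L0 × Gam (Equiv.Perm Ω) Ω W1) := fpr (φb.comp π0) (gmap Ω πW1)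
  let _ : Fintype W := Fintype.ofFinite _
  let fW : W →* L0 := ffst (φb.comp π0) (gmap Ω πW1)
  let πW : W →* H := π0.comp fW
  let ψ : W →* Gam (Equiv.Perm Ω) Ω W1 := fsnd (φb.comp π0) (gmap Ω πW1)
  have hU : ∀ a : πW.ker, fW (a : W) ∈ U0 := by
    intro a
    rw [← tw.πk]
    exact MonoidHom.mem_ker.mp a.2
  let μ0 : πW.ker →* ℂˣ :=
    { toFun := fun a => μ' ⟨fW (a : W), hU a⟩
      map_one' := by
        rw [← map_one μ']
        congr 1
      map_mul' := by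
        intro a b
        rw [← map_mul μ']
        congr 1 }
  have hP2 : ∀ w k, πW w = p k → gmap Ω πW1 (ψ w) = gmap Ω p1 (φ k) := by
    intro w k hw
    rw [← hφb, ← hw]
    exact (mem_fpr.mp w.2).symm
  have hP3 : ∀ g k, gmap Ω πW1 g = gmap Ω p1 (φ k) → ∃ w, πW w = p k ∧ ψ w = g := by
    intro g k hg
    obtain ⟨l0, hl0⟩ := tw.πs (p k)
    refine ⟨⟨(l0, g), ?_⟩, hl0, rfl⟩
    change φb (π0 l0) = gmap Ω πW1 g
    rw [hl0, hφb, hg]
  refine ⟨W, inferInstance, inferInstance, πW, ψ, μ0, ?_, hP2, hP3, ?_⟩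
  · intro h
    obtain ⟨k, rfl⟩ := hp h
    obtain ⟨g, hg⟩ := WDB.gmap_surj (Ω := Ω) hπW1 (gmap Ω p1 (φ k))
    obtain ⟨w, hw, _⟩ := hP3 g k hg
    exact ⟨w, hw⟩
  intro σ F ν1 θ hσ hF hov hEDb hTP
  obtain ⟨E, hE1, hE2, hE3⟩ := hTIE L K H K1 H1 Q L1 W1 Ω ℓ π μ φ q α ε μQ π1 μ1 ι M M1 hR.wd
    hR.ld hR.mm p1 hp1 hpM1 πW1 hπW1 hcW1 (stb σ) F ν1 hF.irr hov hEDb
  obtain ⟨_, _, hC3⟩ := hCST L K K1 Q Ω ℓ π μ φ q α ε μQ hR.wd
  obtain ⟨_, _, _, hS, _⟩ := hC3 σ hσ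
  -- the linear character
  have hk : ∀ (a : πW.ker), gmap Ω πW1 (ψ (a : W)) = 1 := by
    intro a
    rw [hP2 _ 1 (by rw [map_one]; exact MonoidHom.mem_ker.mp a.2), map_one, map_one]
  have hkl : ∀ (a : πW.ker) o, (ψ (a : W)).left o ∈ πW1.ker := by
    intro a o
    rw [MonoidHom.mem_ker, ← WDB.gmap_left, hk a]
    rfl
  have hkr : ∀ (a : πW.ker), (ψ (a : W)).right = 1 := by
    intro a
    rw [← WDB.gmap_right πW1, hk a]
    rfl
  let ν' : πW.ker →* ℂˣ :=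
    { toFun := fun a => ∏ o, ν1 ⟨(ψ (a : W)).left o, hkl a o⟩
      map_one' := by
        refine Finset.prod_eq_one fun o _ => ?_
        rw [← map_one ν1]
        congr 1
      map_mul' := by
        intro a b
        rw [← Finset.prod_mul_distrib]
        refine Finset.prod_congr rfl fun o _ => ?_
        rw [← map_mul ν1]
        congr 1
        refine Subtype.ext ?_
        change (ψ ((a : W) * (b : W))).left o = (ψ (a : W)).left o * (ψ (b : W)).left o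
        rw [map_mul, WDB.mul_left, hkr a]
        rfl }
  refine ⟨μ0 * ν', fun a h => rfl, ?_⟩
  exact edb hR.mm hR.ld hpM (p1 := p1) (πW1 := πW1) hR.zt tw (fW := fW) (πW := πW) (ψ := ψ)
    (fun w => rfl) hP2 (S1 := stb σ) (fun k hk => (hS k).mp hk) hTP hE1 hE2 hE3
    (fun a h0 h => rfl)

end Pool.Agent.DPG


end

section

/-!
# TIE: the tensor induced character
-/

namespace Pool.Agent.DPG

open Pool.Agent.DP Pool.Agent.DPC Pool.Agent.DPM Pool.Agent.DPN Pool.Agent.DPF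
  Pool.Agent.Lib_helper13 Representation

namespace TIE

/-- If the values of a character at the image of `j` are the multiples of the degree by the
linear character `lam`, then the image of `j` acts by the scalars `lam`. -/
theorem scal {C B : Type} [Group C] [Finite C] [Group B] (j : C →* B) (lam : C →* ℂˣ)
    (X : B → ℂ) (hX : IsChr X) (h : ∀ c, X (j c) = ((lam c : ℂˣ) : ℂ) * X 1) (c : C) (x : B) :
    X (j c * x) = ((lam c : ℂˣ) : ℂ) * X x := by
  classical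
  obtain ⟨n, ρ, hρ⟩ := hX
  let _ : Fintype C := Fintype.ofFinite _
  have hX1 : X 1 = (n : ℂ) := by
    rw [← hρ, char_one]
    simp
  let σ : Representation ℂ C (Fin n → ℂ) :=
    { toFun := fun c => (((lam c)⁻¹ : ℂˣ) : ℂ) • ρ (j c)
      map_one' := by
        rw [map_one, map_one, map_one, inv_one, Units.val_one, one_smul]
      map_mul' := by
        intro a b
        rw [map_mul, map_mul, map_mul, mul_inv, Units.val_mul, smul_mul_smul_comm] }
  have hσ : ∀ c, σ c = (((lam c)⁻¹ : ℂˣ) : ℂ) • ρ (j c) := fun _ => rfl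
  have h0 : ∀ g : C, σ.character g = (n : ℂ) := by
    intro g
    have h1 : σ.character g = (((lam g)⁻¹ : ℂˣ) : ℂ) * ρ.character (j g) := by
      rw [Representation.character, Representation.character, hσ, map_smul, smul_eq_mul]
    rw [h1, hρ, h, hX1, ← mul_assoc, Units.inv_mul, one_mul]
  have h1 : (Module.finrank ℂ σ.invariants : ℂ) = (n : ℂ) := by
    rw [← card_inv_mul_sum_char_eq_finrank σ]
    rw [Finset.sum_congr rfl fun g _ => h0 g, Finset.sum_const, nsmul_eq_mul, Finset.card_univ,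
      ← Nat.card_eq_fintype_card, ← mul_assoc, inv_mul_cancel₀ natCard_ne_zero, one_mul]
  have h2 : σ.invariants = ⊤ := by
    apply Submodule.eq_top_of_finrank_eq
    rw [Module.finrank_fin_fun]
    exact_mod_cast h1
  have h3 : ρ (j c) = ((lam c : ℂˣ) : ℂ) • (1 : (Fin n → ℂ) →ₗ[ℂ] (Fin n → ℂ)) := by
    refine LinearMap.ext fun v => ?_
    have h4 : v ∈ σ.invariants := by
      rw [h2]
      exact Submodule.mem_top
    have h5 := h4 c
    rw [hσ, LinearMap.smul_apply] at h5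
    rw [LinearMap.smul_apply, Module.End.one_apply]
    conv_rhs => rw [← h5]
    rw [smul_smul, Units.mul_inv, one_smul]
  rw [← hρ]
  rw [Representation.character, Representation.character, map_mul, h3, smul_mul_assoc, one_mul,
    map_smul, smul_eq_mul]

section

variable {L1 K1 H1 W1 Ω : Type} [Group L1] [Group K1] [Group H1] [Group W1]

/-- The fibre product of the wreath products. -/
def BB (Ω : Type) (π1 : L1 →* K1) (p1 : K1 →* H1) (πW1 : W1 →* H1) (S1 : Subgroup K1) :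
    Subgroup (Gam (Equiv.Perm Ω) Ω L1 × Gam (Equiv.Perm Ω) Ω W1) where
  carrier := {x | gmap Ω (p1.comp π1) x.1 = gmap Ω πW1 x.2 ∧ ∀ o, π1 (x.1.left o) ∈ S1}
  one_mem' := by
    constructor
    · rw [Prod.fst_one, Prod.snd_one, map_one, map_one]
    · intro o
      rw [Prod.fst_one, WDB.one_left, map_one]
      exact S1.one_mem
  mul_mem' := by
    rintro a b ⟨ha1, ha2⟩ ⟨hb1, hb2⟩
    constructor
    · rw [Prod.fst_mul, Prod.snd_mul, map_mul, map_mul, ha1, hb1]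
    · intro o
      rw [Prod.fst_mul, WDB.mul_left, map_mul]
      exact S1.mul_mem (ha2 _) (hb2 _)
  inv_mem' := by
    rintro a ⟨ha1, ha2⟩
    constructor
    · rw [Prod.fst_inv, Prod.snd_inv, map_inv, map_inv, ha1]
    · intro o
      rw [Prod.fst_inv, WDB.inv_left, map_inv]
      exact S1.inv_mem (ha2 _)

variable {π1 : L1 →* K1} {p1 : K1 →* H1} {πW1 : W1 →* H1} {S1 : Subgroup K1}

theorem mem_BB {x : Gam (Equiv.Perm Ω) Ω L1 × Gam (Equiv.Perm Ω) Ω W1} :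
    x ∈ BB Ω π1 p1 πW1 S1 ↔
      gmap Ω (p1.comp π1) x.1 = gmap Ω πW1 x.2 ∧ ∀ o, π1 (x.1.left o) ∈ S1 := Iff.rfl

theorem right_eq {x : Gam (Equiv.Perm Ω) Ω L1 × Gam (Equiv.Perm Ω) Ω W1}
    (hx : x ∈ BB Ω π1 p1 πW1 S1) : x.1.right = x.2.right := by
  have h := congrArg SemidirectProduct.right hx.1
  rw [WDB.gmap_right, WDB.gmap_right] at h
  exact h

theorem coord_mem {x : Gam (Equiv.Perm Ω) Ω L1 × Gam (Equiv.Perm Ω) Ω W1}
    (hx : x ∈ BB Ω π1 p1 πW1 S1) (o : Ω) : (x.1.left o, x.2.left o) ∈ GS π1 p1 πW1 S1 := by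
  refine ⟨hx.2 o, ?_⟩
  have h : (gmap Ω (p1.comp π1) x.1).left o = (gmap Ω πW1 x.2).left o := by rw [hx.1]
  exact h

/-- The action on `Ω`. -/
def aa (Ω : Type) (π1 : L1 →* K1) (p1 : K1 →* H1) (πW1 : W1 →* H1) (S1 : Subgroup K1) :
    ↥(BB Ω π1 p1 πW1 S1) →* Equiv.Perm Ω where
  toFun x := (x : Gam (Equiv.Perm Ω) Ω L1 × Gam (Equiv.Perm Ω) Ω W1).1.right
  map_one' := rfl
  map_mul' _ _ := rfl

/-- The coordinate at `o` of the elements which fix `o`. -/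
def co (o : Ω) : ↥(St (aa Ω π1 p1 πW1 S1) o) →* ↥(GS π1 p1 πW1 S1) where
  toFun x := ⟨(((x : ↥(BB Ω π1 p1 πW1 S1)) :
      Gam (Equiv.Perm Ω) Ω L1 × Gam (Equiv.Perm Ω) Ω W1).1.left o,
    ((x : ↥(BB Ω π1 p1 πW1 S1)) :
      Gam (Equiv.Perm Ω) Ω L1 × Gam (Equiv.Perm Ω) Ω W1).2.left o),
    coord_mem (x : ↥(BB Ω π1 p1 πW1 S1)).2 o⟩
  map_one' := rfl
  map_mul' := by
    intro x y
    have hx : (((x : ↥(BB Ω π1 p1 πW1 S1)) :
      Gam (Equiv.Perm Ω) Ω L1 × Gam (Equiv.Perm Ω) Ω W1).1.right)⁻¹ o = o := by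
      rw [Equiv.Perm.inv_eq_iff_eq]
      exact (mem_St.1 x.2).symm
    apply Subtype.ext
    apply Prod.ext
    · change (((x : ↥(BB Ω π1 p1 πW1 S1)) :
        Gam (Equiv.Perm Ω) Ω L1 × Gam (Equiv.Perm Ω) Ω W1).1 *
        ((y : ↥(BB Ω π1 p1 πW1 S1)) :
        Gam (Equiv.Perm Ω) Ω L1 × Gam (Equiv.Perm Ω) Ω W1).1).left o = _
      rw [WDB.mul_left, hx]
      rfl
    · change (((x : ↥(BB Ω π1 p1 πW1 S1)) :
        Gam (Equiv.Perm Ω) Ω L1 × Gam (Equiv.Perm Ω) Ω W1).2 *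
        ((y : ↥(BB Ω π1 p1 πW1 S1)) :
        Gam (Equiv.Perm Ω) Ω L1 × Gam (Equiv.Perm Ω) Ω W1).2).left o = _
      rw [WDB.mul_left, ← right_eq (x : ↥(BB Ω π1 p1 πW1 S1)).2, hx]
      rfl

theorem conj_coord {B : Type} [Group B] (g m : Gam (Equiv.Perm Ω) Ω B) (o : Ω)
    (hm : m.right o = o) : (g * m * g⁻¹).left (g.right o) =
      g.left (g.right o) * m.left o * (g.left (g.right o))⁻¹ := by
  rw [WDB.mul_left, WDB.mul_left, WDB.mul_right, WDB.inv_left]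
  have h1 : g.right⁻¹ (g.right o) = o := g.right.symm_apply_apply o
  have h2 : (g.right * m.right)⁻¹ (g.right o) = o := by
    rw [Equiv.Perm.inv_eq_iff_eq, Equiv.Perm.mul_apply, hm]
  rw [h1, h2]

end

end TIE

open _root_.Pool.Agent.DPG.TIE in
/-- TIE: the tensor induced character. -/
theorem TIE_thm : Stmt_TIE := by
  classical
  intro L K H K1 H1 Q L1 W1 Ω _ _ _ _ _ _ _ _ _ _ _ _ _ _ _ ℓ π μ φ q α ε μQ π1 μ1 ι M M1 hwd
    hld hmm p1 hp1 hp1k πW1 hπW1 hπc S1 F ν1 hF hov hE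
  obtain ⟨E1, hE1c, hE1z, hE1F, hE1ν⟩ := hE
  have i1 : Finite (Gam (Equiv.Perm Ω) Ω L1) :=
    Finite.of_equiv _ (SemidirectProduct.equivProd).symm
  have i2 : Finite (Gam (Equiv.Perm Ω) Ω W1) :=
    Finite.of_equiv _ (SemidirectProduct.equivProd).symm
  -- the family of functions
  let a := aa Ω π1 p1 πW1 S1
  let f : Ω → ↥(BB Ω π1 p1 πW1 S1) → ℂ := fun o x =>
    E1 ((x : Gam (Equiv.Perm Ω) Ω L1 × Gam (Equiv.Perm Ω) Ω W1).1.left o,
      (x : Gam (Equiv.Perm Ω) Ω L1 × Gam (Equiv.Perm Ω) Ω W1).2.left o)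
  obtain ⟨hT, hT1⟩ := TIG_thm CYC_thm Ω ↥(BB Ω π1 p1 πW1 S1) a f
    (fun o => hE1c.comp (co (π1 := π1) (p1 := p1) (πW1 := πW1) (S1 := S1) o))
    (by
      intro y o z hz
      have hz2 : (z : Gam (Equiv.Perm Ω) Ω L1 × Gam (Equiv.Perm Ω) Ω W1).2.right o = o := by
        rw [← right_eq z.2]
        exact hz
      have hy2 : a y = (y : Gam (Equiv.Perm Ω) Ω L1 × Gam (Equiv.Perm Ω) Ω W1).2.right :=
        right_eq y.2
      have h1 := conj_coord (y : Gam (Equiv.Perm Ω) Ω L1 × Gam (Equiv.Perm Ω) Ω W1).1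
        (z : Gam (Equiv.Perm Ω) Ω L1 × Gam (Equiv.Perm Ω) Ω W1).1 o hz
      have h2 := conj_coord (y : Gam (Equiv.Perm Ω) Ω L1 × Gam (Equiv.Perm Ω) Ω W1).2
        (z : Gam (Equiv.Perm Ω) Ω L1 × Gam (Equiv.Perm Ω) Ω W1).2 o hz2
      change E1 (((y : Gam (Equiv.Perm Ω) Ω L1 × Gam (Equiv.Perm Ω) Ω W1).1 *
        (z : Gam (Equiv.Perm Ω) Ω L1 × Gam (Equiv.Perm Ω) Ω W1).1 *
        (y : Gam (Equiv.Perm Ω) Ω L1 × Gam (Equiv.Perm Ω) Ω W1).1⁻¹).left (a y o),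
        ((y : Gam (Equiv.Perm Ω) Ω L1 × Gam (Equiv.Perm Ω) Ω W1).2 *
        (z : Gam (Equiv.Perm Ω) Ω L1 × Gam (Equiv.Perm Ω) Ω W1).2 *
        (y : Gam (Equiv.Perm Ω) Ω L1 × Gam (Equiv.Perm Ω) Ω W1).2⁻¹).left (a y o)) = _
      rw [← hy2] at h2
      rw [h2]
      have h1' : ((y : Gam (Equiv.Perm Ω) Ω L1 × Gam (Equiv.Perm Ω) Ω W1).1 *
        (z : Gam (Equiv.Perm Ω) Ω L1 × Gam (Equiv.Perm Ω) Ω W1).1 *
        (y : Gam (Equiv.Perm Ω) Ω L1 × Gam (Equiv.Perm Ω) Ω W1).1⁻¹).left (a y o) =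
        (y : Gam (Equiv.Perm Ω) Ω L1 × Gam (Equiv.Perm Ω) Ω W1).1.left (a y o) *
        (z : Gam (Equiv.Perm Ω) Ω L1 × Gam (Equiv.Perm Ω) Ω W1).1.left o *
        ((y : Gam (Equiv.Perm Ω) Ω L1 × Gam (Equiv.Perm Ω) Ω W1).1.left (a y o))⁻¹ := h1
      rw [h1']
      exact hE1c.conj_eq ⟨_, coord_mem y.2 (a y o)⟩ ⟨_, coord_mem z.2 o⟩)
  -- the extension by zero
  let E : Gam (Equiv.Perm Ω) Ω L1 × Gam (Equiv.Perm Ω) Ω W1 → ℂ := fun x =>
    if hx : x ∈ BB Ω π1 p1 πW1 S1 then TI a f ⟨x, hx⟩ else 0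
  have hEB : ∀ x (hx : x ∈ BB Ω π1 p1 πW1 S1), E x = TI a f ⟨x, hx⟩ := fun x hx =>
    dif_pos hx
  have hE0 : ∀ x (hx : x ∈ BB Ω π1 p1 πW1 S1), x.1.right = 1 →
      E x = ∏ o, E1 (x.1.left o, x.2.left o) := by
    intro x hx h1
    rw [hEB x hx]
    exact hT1 ⟨x, hx⟩ h1
  refine ⟨E, ?_, ?_, ?_⟩
  · intro B _ _ h hh
    have h1 := hT.comp (h.codRestrict (BB Ω π1 p1 πW1 S1) fun b => hh b)
    have h2 : (fun b => E (h b)) = fun b => TI a f
        (h.codRestrict (BB Ω π1 p1 πW1 S1) (fun b => hh b) b) := by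
      funext b
      exact hEB (h b) (hh b)
    rw [h2]
    exact h1
  · intro g hg hgo
    have hx : ((g, 1) : Gam (Equiv.Perm Ω) Ω L1 × Gam (Equiv.Perm Ω) Ω W1) ∈
        BB Ω π1 p1 πW1 S1 := by
      refine ⟨?_, fun o => (hgo o).2⟩
      change gmap Ω (p1.comp π1) g = gmap Ω πW1 1
      rw [map_one]
      refine WDB.ext' hg fun o => ?_
      rw [WDB.gmap_left, WDB.one_left, MonoidHom.comp_apply, hp1k]
      exact (hgo o).1
    rw [hE0 _ hx hg]
    refine Finset.prod_congr rfl fun o _ => ?_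
    change E1 (g.left o, 1) = _
    exact hE1F _ (hgo o).1 (hgo o).2
  · intro z b g w hgw hgS
    have hgw' : ((g, w) : Gam (Equiv.Perm Ω) Ω L1 × Gam (Equiv.Perm Ω) Ω W1) ∈
        BB Ω π1 p1 πW1 S1 := ⟨hgw, hgS⟩
    -- the homomorphism from the central elements
    let jj : (Ω → π1.ker) × (Ω → πW1.ker) →*
        Gam (Equiv.Perm Ω) Ω L1 × Gam (Equiv.Perm Ω) Ω W1 :=
      { toFun := fun c => (gin (fun o => ((c.1 o : π1.ker) : L1)),
          gin (fun o => ((c.2 o : πW1.ker) : W1)))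
        map_one' := rfl
        map_mul' := fun c c' => Prod.ext (WDB.gin_mul _ _) (WDB.gin_mul _ _) }
    have hj : ∀ c, jj c ∈ BB Ω π1 p1 πW1 S1 := by
      intro c
      refine ⟨?_, ?_⟩
      · refine WDB.ext' rfl fun o => ?_
        change p1 (π1 (c.1 o : L1)) = πW1 (c.2 o : W1)
        rw [MonoidHom.mem_ker.mp (c.1 o).2, map_one, MonoidHom.mem_ker.mp (c.2 o).2]
      · intro o
        change π1 (c.1 o : L1) ∈ S1
        rw [MonoidHom.mem_ker.mp (c.1 o).2]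
        exact S1.one_mem
    let lam : (Ω → π1.ker) × (Ω → πW1.ker) →* ℂˣ :=
      { toFun := fun c => (∏ o, μ1 (c.1 o)) * (∏ o, ν1 (c.2 o))⁻¹
        map_one' := by simp
        map_mul' := by
          intro c c'
          simp only [Prod.fst_mul, Prod.snd_mul, Pi.mul_apply, map_mul, Finset.prod_mul_distrib,
            mul_inv]
          exact mul_mul_mul_comm _ _ _ _ }
    have hval : ∀ c : (Ω → π1.ker) × (Ω → πW1.ker), TI a f ⟨jj c, hj c⟩ =
        ((lam c : ℂˣ) : ℂ) * F 1 ^ Fintype.card Ω := by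
      intro c
      rw [← hEB (jj c) (hj c), hE0 _ (hj c) rfl]
      have h1 : ∀ o, E1 ((jj c).1.left o, (jj c).2.left o) =
          ((μ1 (c.1 o) : ℂˣ) : ℂ) * (((ν1 (c.2 o))⁻¹ : ℂˣ) : ℂ) * F 1 := by
        intro o
        change E1 (((c.1 o : π1.ker) : L1), ((c.2 o : πW1.ker) : W1)) = _
        have h2 := hE1ν (c.2 o) ((c.1 o : π1.ker) : L1) 1
        rw [mul_one, hE1F _ (by rw [MonoidHom.mem_ker.mp (c.1 o).2]; exact M1.one_mem)
          (by rw [MonoidHom.mem_ker.mp (c.1 o).2]; exact S1.one_mem)] at h2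
        have h3 := hov (c.1 o) 1
        rw [mul_one] at h3
        rw [h3] at h2
        rw [mul_right_comm, ← h2, mul_comm, ← mul_assoc, Units.inv_mul, one_mul]
      rw [Finset.prod_congr rfl fun o _ => h1 o, Finset.prod_mul_distrib, Finset.prod_mul_distrib,
        Finset.prod_const, Finset.card_univ]
      congr 1
      change _ = (((∏ o, μ1 (c.1 o)) * (∏ o, ν1 (c.2 o))⁻¹ : ℂˣ) : ℂ)
      rw [Units.val_mul, Units.coe_prod, ← Finset.prod_inv_distrib, Units.coe_prod]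
    have hval1 : TI a f 1 = F 1 ^ Fintype.card Ω := by
      have h1 := hval 1
      have h2 : lam 1 = 1 := map_one lam
      rw [h2, Units.val_one, one_mul] at h1
      exact h1
    have h := scal (jj.codRestrict (BB Ω π1 p1 πW1 S1) hj) lam (TI a f) hT
      (fun c => by rw [hval1]; exact hval c) (z, b) ⟨(g, w), hgw'⟩
    have h' : E (gin (fun o => (z o : L1)) * g, gin (fun o => (b o : W1)) * w) =
        ((lam (z, b) : ℂˣ) : ℂ) * E (g, w) := by
      rw [hEB (g, w) hgw']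
      rw [← h]
      exact hEB _ _
    rw [h']
    change _ * ((((∏ o, μ1 (z o)) * (∏ o, ν1 (b o))⁻¹ : ℂˣ) : ℂ) * _) = _
    rw [← mul_assoc, Units.val_mul, ← Units.coe_prod, ← Units.coe_prod, mul_comm
      (((∏ o, μ1 (z o) : ℂˣ)) : ℂ), ← mul_assoc, Units.mul_inv, one_mul]

end Pool.Agent.DPG


end

section

/-!
# RSC: the pairs of `L1` in the block of the reference pair
-/

set_option autoImplicit false

namespace Pool.Agent.DPG

open Pool.Agent.DP Pool.Agent.DPC Pool.Agent.DPM Pool.Agent.DPN Pool.Agent.DPF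
  Pool.Agent.DPK Pool.Agent.Lib_helper13 Representation
open Pool.Agent.Lib_helper13.Dade (pCore DadeHolds dadeSum)

namespace RSC

/-- An `ℓ`-subgroup of `M` is contained in a normal subgroup `N` such that the index of `N` in `M`
is prime to `ℓ`. -/
theorem le_of_pgroup {G : Type} [Group G] {ℓ : ℕ} (hℓ : ℓ.Prime) {N M D : Subgroup G}
    (hN : N.Normal) (hD : IsPGroup ℓ D) (hDM : D ≤ M) (hc : ¬ ℓ ∣ N.relIndex M) : D ≤ N := by
  intro x hx
  obtain ⟨k, hk⟩ := hD ⟨x, hx⟩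
  have hk' : x ^ ℓ ^ k = 1 := by
    have := congrArg (Subtype.val) hk
    simpa using this
  have hcop : Nat.Coprime (ℓ ^ k) (N.relIndex M) :=
    Nat.Coprime.pow_left k ((Nat.Prime.coprime_iff_not_dvd hℓ).mpr hc)
  have : (N.subgroupOf M).Normal := Subgroup.normal_subgroupOf
  have h1 : (⟨x, hDM hx⟩ : M) ^ (N.subgroupOf M).index ∈ N.subgroupOf M :=
    Subgroup.pow_index_mem (N.subgroupOf M) _
  have h2 : x ^ N.relIndex M ∈ N := by
    have := Subgroup.mem_subgroupOf.mp h1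
    simpa [Subgroup.relIndex] using this
  have := hN
  have h3 : ((x : G) : G ⧸ N) ^ (N.relIndex M) = 1 := by
    rw [← QuotientGroup.mk_pow]
    exact (QuotientGroup.eq_one_iff _).mpr h2
  have h4 : ((x : G) : G ⧸ N) ^ (ℓ ^ k) = 1 := by
    rw [← QuotientGroup.mk_pow, hk']
    rfl
  have h5 : orderOf ((x : G) : G ⧸ N) ∣ 1 := by
    rw [← hcop.gcd_eq_one]
    exact Nat.dvd_gcd (orderOf_dvd_of_pow_eq_one h4) (orderOf_dvd_of_pow_eq_one h3)
  have h6 : ((x : G) : G ⧸ N) = 1 := orderOf_eq_one_iff.mp (Nat.dvd_one.mp h5)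
  exact (QuotientGroup.eq_one_iff _).mp h6

end RSC

theorem RSC_thm (h1 : Stmt_BEM) (h2 : Stmt_RIU) : Stmt_RSC := by
  intro L K K1 Q L1 Ω _ _ _ _ _ _ _ _ _ _ _ _ 𝔐 ℓ _ hM hℓM π μ φ q α ε μQ π1 μ1 ι M M1 σr Fr ζ
    hRF
  have hN : q.range.Normal := WDB.normal_range hRF.wd
  have := hN
  have := hRF.mm.nm1
  have hle : q.range ≤ M1 := hRF.mm.le1
  have hsj : M1 ⊔ stb σr = ⊤ := by
    rw [eq_top_iff, ← hRF.sj]
    exact sup_le_sup_right hle _
  have hB : BPs 𝔐 π1 μ1 M1 (cg 𝔐 Fr) (stb σr) Fr :=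
    ⟨hRF.ef.irr, hRF.ov, fun _ _ => rfl, hsj, hRF.iv⟩
  refine ⟨hB, ?_⟩
  intro σ F hσ hF
  have hσ' : ChN ℓ q.range σ := by
    refine ⟨hσ.1, fun D hD => ?_⟩
    exact RSC.le_of_pgroup (Fact.out) hN (hσ.1.1 D hD).1 (hσ.2 D hD) hRF.mm.cop1
  have hσr : ChN ℓ M1 σr := ⟨hRF.ch.1, fun D hD => (hRF.ch.2 D hD).trans hle⟩
  have h3 := h1 L1 K1 𝔐 ℓ hM hℓM π1 hRF.ld.s hRF.ld.c μ1 M1 (cg 𝔐 Fr) σ σr F Fr hσ hσr hF hB
  obtain ⟨h4, h5⟩ := h2 L1 K1 𝔐 ℓ hM hℓM π1 hRF.ld.s hRF.ld.c q.range M1 hle hRF.mm.cop1 σr Fr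
    hRF.ch hRF.ef hRF.sup σ F hσ' hF.irr h3
  refine ⟨hσ', h4, ?_, h5⟩
  rw [eq_top_iff, ← hF.sj]
  exact sup_le h4.cov le_sup_right

end Pool.Agent.DPG


end
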