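import Mathlib
import Pool.Agent.DAM.C13
import Pool.Agent.DAM.C15
import Pool.Agent.DAM.C18
import Pool.Agent.DAM.C19
import Pool.Agent.DAM.C26
import Pool.Agent.DAM.C27

/-! Parts: DPM.RCE, DPN.FNA, DPT.MLV, DPK.Stmts, DPK.FNAr -/

section

/-! # RCE: the central function on a normal subgroup -/

namespace Pool.Agent.DPM

open Pool.Agent.DP Pool.Agent.DPC Pool.Agent.Lib_helper13 Representation
open Pool.Agent.Lib_helper13.Dade (pCore DadeHolds dadeSum)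

theorem RCE_thm : Stmt_RCE := by
  intro A T K X _ _ _ _ _ _ 𝔐 j c p hc i M hM hi ψ θ hψ hθ h g hg
  have h1 := (SUMM_thm A T K j c p hc).2.2.2 θ ψ (fun t => conjInd (i t) g) hθ hψ h ?_ ?_
  · show red 𝔐 (wt ψ (fun y => conjInd (i y) g)) = red 𝔐 (wt θ (fun y => conjInd ((i.comp j) y) g))
    rw [h1]
    rfl
  · intro x y
    apply conjInd_congr
    have h2 : IsConj (i (x * y * x⁻¹)) (i y) := by
      rw [map_mul, map_mul, map_inv]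
      exact (isConj_iff.2 ⟨i x, rfl⟩).symm
    exact ⟨fun h3 => h2.symm.trans h3, fun h3 => h2.trans h3⟩
  · intro y hy
    show conjInd (i y) g = 0
    rw [conjInd, if_neg]
    intro h2
    apply hy
    apply hi
    obtain ⟨b, hb⟩ := isConj_iff.1 h2.symm
    rw [← hb]
    exact hM.conj_mem g hg b

end Pool.Agent.DPM


end

section

/-!
# FNA: the pairs which contribute
-/

namespace Pool.Agent.DPN

open Pool.Agent.DP Pool.Agent.DPC Pool.Agent.DPM Pool.Agent.Lib_helper13 Representation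
open Pool.Agent.Lib_helper13.Dade (pCore DadeHolds dadeSum)

namespace FNA

/-- A contributing pair determines the values of the central function on the normal subgroup. -/
theorem key {O X H : Type} [Group O] [Fintype O] [Group X] [Fintype X] [Group H] [Fintype H]
    (𝔐 : Ideal (integralClosure ℤ ℂ)) (ℓ : ℕ) {j : O →* X} {c : X →* MulAut O} {p : X →* H}
    (h : ClG j c p) (d : ℕ) (ω : X → (integralClosure ℤ ℂ) ⧸ 𝔐) (m : Subgroup H → ℚ)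
    (τ : Finset (Subgroup O)) (θ : stb τ → ℂ) (hθ : IsIrr θ)
    (hne : ∑ V, m V * ((Nat.card V : ℚ) *
      NT 𝔐 ℓ d (jS h τ) (pS p j τ) θ (YS j τ).subtype {ω} V) ≠ 0) :
    ∀ o, ω (j o) = cen 𝔐 (j.comp (stb τ).subtype) θ (j o) := by
  classical
  obtain ⟨V, _, hV⟩ := Finset.exists_ne_zero_of_sum_ne_zero hne
  have h1 : NT 𝔐 ℓ d (jS h τ) (pS p j τ) θ (YS j τ).subtype {ω} V ≠ 0 := by
    intro h0
    apply hV
    rw [h0, mul_zero, mul_zero]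
  unfold NT at h1
  obtain ⟨⟨ψ, hψ, hip, hdf, hcen⟩⟩ := (Nat.card_ne_zero.mp (Nat.cast_ne_zero.mp h1)).1
  have hS := clG_S h τ
  have hmem : ∀ a : stb τ, jS h τ a ∈ V.comap (pS p j τ) := by
    intro a
    rw [Subgroup.mem_comap, (hS.ker _).mpr ⟨a, rfl⟩]
    exact V.one_mem
  have hClG : ClG ((jS h τ).codRestrict (V.comap (pS p j τ)) hmem)
      ((cS h τ).comp (V.comap (pS p j τ)).subtype)
      ((pS p j τ).comp (V.comap (pS p j τ)).subtype) := by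
    refine ⟨?_, ?_, ?_⟩
    · intro a b hab
      apply hS.inj
      exact congrArg Subtype.val hab
    · intro y a
      apply Subtype.ext
      exact hS.act (y : YS j τ) a
    · intro y
      constructor
      · intro hy
        obtain ⟨a, ha⟩ := (hS.ker (y : YS j τ)).mp hy
        exact ⟨a, Subtype.ext ha⟩
      · rintro ⟨a, rfl⟩
        exact (hS.ker (jS h τ a)).mpr ⟨a, rfl⟩
  have hM : j.range.Normal := by
    have h3 : j.range = p.ker := by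
      ext y
      rw [MonoidHom.mem_ker, h.ker]
    rw [h3]
    exact MonoidHom.normal_ker p
  have hi : ∀ t : ↥(V.comap (pS p j τ)),
      ((YS j τ).subtype.comp (V.comap (pS p j τ)).subtype) t ∈ j.range →
        t ∈ ((jS h τ).codRestrict (V.comap (pS p j τ)) hmem).range := by
    intro t ht
    exact (hClG.ker t).mp ((h.ker _).mpr ht)
  have hres : resj ((jS h τ).codRestrict (V.comap (pS p j τ)) hmem) ψ =
      fun a => ext0 ψ (jS h τ a) := by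
    funext a
    rw [ext0_of_mem ψ (hmem a)]
    rfl
  have h4 := RCE_thm (stb τ) ↥(V.comap (pS p j τ)) H X 𝔐 _ _ _ hClG
    ((YS j τ).subtype.comp (V.comap (pS p j τ)).subtype) j.range hM hi ψ θ hψ hθ
    (by rw [hres]; exact hip)
  intro o
  have h5 := h4 (j o) ⟨o, rfl⟩
  have h6 : cen 𝔐 ((YS j τ).subtype.comp (V.comap (pS p j τ)).subtype) ψ = ω := hcen
  rw [h6] at h5
  exact h5

end FNA

open _root_.Pool.Agent.DPN.FNA in
theorem FNA_thm (h1 : Stmt_CONS) (h2 : Stmt_BEQ) : Stmt_FNA := by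
  intro O X H _ _ _ _ _ _ 𝔐 ℓ _ h𝔐 hℓ j c p h hcore hHQ Z d ω m hm τ₀ hτ₀ θ₀ hθ₀ hFP₀ hne₀
    τ hτ θ hθ hFP hne
  have hdf : HasDefect ℓ θ d := by
    obtain ⟨a, ha⟩ := hθ.exists_defect (ℓ := ℓ)
    by_cases hda : d = a
    · rw [hda]
      exact ha
    · exfalso
      exact hne (h1 (stb τ) (YS j τ) H X 𝔐 ℓ h𝔐 hℓ (jS h τ) (cS h τ) (pS p j τ) (clG_S h τ)
        hFP.1 hcore hHQ θ hθ hFP.2 a d ha hda (YS j τ).subtype ω m hm)
  have hk := key 𝔐 ℓ h d ω m τ θ hθ hne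
  have hk₀ := key 𝔐 ℓ h d ω m τ₀ θ₀ hθ₀ hne₀
  have hinv := (h2 O X H 𝔐 ℓ h𝔐 hℓ j c p h Z τ₀ hτ₀ θ₀ hθ₀).1 hFP₀
  have hcn := (h2 O X H 𝔐 ℓ h𝔐 hℓ j c p h Z τ hτ θ hθ).2 τ₀ hτ₀ θ₀ hθ₀ hinv
    (fun o => (hk o).symm.trans (hk₀ o))
  exact ⟨hτ, hθ, hdf, hcn, hFP⟩

end Pool.Agent.DPN


end

section

/-!
# MLV: the weights
-/

namespace Pool.Agent.DPT

open Pool.Agent.DP Pool.Agent.DPC Pool.Agent.DPM Pool.Agent.DPN Pool.Agent.Lib_helper13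
open Representation
open Pool.Agent.Lib_helper13.Dade (pCore DadeHolds dadeSum)

namespace MLV

section Lift

variable {Y G : Type} [Group Y] [Group G] {ℓ : ℕ} [hℓ : Fact ℓ.Prime] {k : Y →* G}

theorem exists_pow (h : FC ℓ k) {z : Y} (hz : z ∈ k.ker) : ∃ m : ℕ, z ^ ℓ ^ m = 1 := by
  obtain ⟨m, hm⟩ := h.pg ⟨z, hz⟩
  exact ⟨m, congrArg Subtype.val hm⟩

theorem lift_ex (h : FC ℓ k) {s : G} (hs : s ∈ k.range) (ho : ¬ ℓ ∣ orderOf s) :
    ∃ y, k y = s ∧ ¬ ℓ ∣ orderOf y := by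
  obtain ⟨y0, rfl⟩ := hs
  have hz : y0 ^ orderOf (k y0) ∈ k.ker := by
    rw [MonoidHom.mem_ker, map_pow, pow_orderOf_eq_one]
  obtain ⟨m, hm⟩ := exists_pow h hz
  have hco : (orderOf (k y0)).Coprime (ℓ ^ m) :=
    Nat.Coprime.pow_right m ((hℓ.out.coprime_iff_not_dvd.mpr ho).symm)
  obtain ⟨u, hu1, hu2⟩ := Nat.chineseRemainder hco 1 0
  refine ⟨y0 ^ u, ?_, ?_⟩
  · rw [map_pow]
    have h1 : k y0 ^ u = k y0 ^ 1 := pow_eq_pow_iff_modEq.mpr hu1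
    rw [h1, pow_one]
  · intro hd
    apply ho
    refine hd.trans (orderOf_dvd_of_pow_eq_one ?_)
    obtain ⟨c, hc⟩ := (Nat.modEq_zero_iff_dvd.mp hu2)
    have h2 : u * orderOf (k y0) = orderOf (k y0) * ℓ ^ m * c := by
      rw [hc]
      ring
    rw [← pow_mul, h2, pow_mul, pow_mul, hm, one_pow]

theorem lift_un (h : FC ℓ k) {y y' : Y} (hk : k y = k y') (ho : ¬ ℓ ∣ orderOf y)
    (ho' : ¬ ℓ ∣ orderOf y') : y = y' := by
  have hz : y' * y⁻¹ ∈ k.ker := by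
    rw [MonoidHom.mem_ker, map_mul, map_inv, hk, mul_inv_cancel]
  obtain ⟨m, hm⟩ := exists_pow h hz
  have hc : Commute (y' * y⁻¹) y := (Subgroup.mem_center_iff.mp (h.cen hz) y).symm
  have hy' : y' * y⁻¹ * y = y' := inv_mul_cancel_right y' y
  have h1 : (y' * y⁻¹) ^ (orderOf y * orderOf y') = 1 := by
    have h2 := hc.mul_pow (orderOf y * orderOf y')
    rw [hy'] at h2
    have h3 : y' ^ (orderOf y * orderOf y') = 1 := by
      rw [mul_comm, pow_mul, pow_orderOf_eq_one, one_pow]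
    have h4 : y ^ (orderOf y * orderOf y') = 1 := by
      rw [pow_mul, pow_orderOf_eq_one, one_pow]
    rw [h3, h4, mul_one] at h2
    exact h2.symm
  have hnd : ¬ ℓ ∣ orderOf y * orderOf y' := by
    intro hd
    rcases (hℓ.out.dvd_mul).mp hd with h5 | h5
    · exact ho h5
    · exact ho' h5
  have hco : (orderOf y * orderOf y').Coprime (ℓ ^ m) :=
    Nat.Coprime.pow_right m ((hℓ.out.coprime_iff_not_dvd.mpr hnd).symm)
  have h6 : orderOf (y' * y⁻¹) = 1 := by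
    apply Nat.eq_one_of_dvd_coprimes hco
    · exact orderOf_dvd_of_pow_eq_one h1
    · exact orderOf_dvd_of_pow_eq_one hm
  have h7 : y' * y⁻¹ = 1 := orderOf_eq_one_iff.mp h6
  exact (mul_inv_eq_one.mp h7).symm

end Lift

section Sum

variable {Y G : Type} [Group Y] [Fintype Y] [Group G] [Fintype G]

theorem sum_comp_surj {X Y : Type*} [Group X] [Fintype X] [Group Y] [Fintype Y] (p : X →* Y)
    (hp : Function.Surjective p) (f : Y → ℂ) :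
    ∑ x, f (p x) = (Nat.card p.ker : ℂ) * ∑ y, f y := by
  classical
  rw [← Finset.sum_fiberwise_of_maps_to (s := Finset.univ) (t := Finset.univ) (g := p)
    (fun _ _ => Finset.mem_univ _), Finset.mul_sum]
  refine Finset.sum_congr rfl fun y _ => ?_
  have h1 : ∀ x ∈ Finset.univ.filter (fun x => p x = y), f (p x) = f y := by
    intro x hx
    rw [(Finset.mem_filter.mp hx).2]
  rw [Finset.sum_congr rfl h1, Finset.sum_const, nsmul_eq_mul]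
  congr 2
  obtain ⟨x0, hx0⟩ := hp y
  rw [← Fintype.card_subtype, ← Nat.card_eq_fintype_card]
  refine Nat.card_congr ⟨fun x => ⟨x0⁻¹ * x.1, ?_⟩, fun x => ⟨x0 * x.1, ?_⟩, ?_, ?_⟩
  · rw [MonoidHom.mem_ker, map_mul, map_inv, x.2, hx0, inv_mul_cancel]
  · rw [map_mul, MonoidHom.mem_ker.mp x.2, hx0, mul_one]
  · intro x
    apply Subtype.ext
    simp
  · intro x
    apply Subtype.ext
    simp

/-- Inflation of irreducible characters. -/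
theorem isIrr_surj {X Y : Type*} [Group X] [Fintype X] [Group Y] [Fintype Y] (p : X →* Y)
    (hp : Function.Surjective p) {χ : Y → ℂ} (hχ : IsIrr χ) : IsIrr (fun x => χ (p x)) := by
  refine (hχ.isChr.comp p).isIrr ?_
  have h1 := sum_comp_surj p hp (fun y => χ y * χ y⁻¹)
  have h2 : ∀ x, χ (p x) * χ (p x⁻¹) = (fun y => χ y * χ y⁻¹) (p x) := by
    intro x
    simp
  rw [Finset.sum_congr rfl fun x _ => h2 x, h1, hχ.sum_self]
  have h3 : Nat.card X = Nat.card p.ker * Nat.card Y := by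
    have h4 := Subgroup.card_mul_index p.ker
    rw [← h4, Subgroup.index_ker, MonoidHom.range_eq_top.mpr hp]
    congr 1
    exact Nat.card_congr Subgroup.topEquiv.toEquiv
  rw [h3]
  push_cast
  rfl

/-- The weight of an inflated function. -/
theorem wS_pu (k : Y →* G) (C : Subgroup G) (θ : G → ℂ) (F : Y → ℂ) :
    wS (C.comap k) (fun y => θ (k y)) F = wS C θ (pu k F) := by
  classical
  unfold wS wt
  have h0 : θ (k ((1 : ↥(C.comap k)) : Y)) = θ ((1 : C) : G) := by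
    rw [Subgroup.coe_one, Subgroup.coe_one, map_one]
  have h1 : ∑ x : C, pu k F x * θ x = ∑ y : ↥(C.comap k), F y * θ (k y) := by
    have h2 : ∀ x : C, pu k F x * θ x = ∑ y : Y, if k y = x then F y * θ (k y) else 0 := by
      intro x
      unfold pu
      rw [Finset.sum_mul]
      refine Finset.sum_congr rfl fun y _ => ?_
      by_cases h3 : k y = x
      · rw [if_pos h3, if_pos h3, h3]
      · rw [if_neg h3, if_neg h3, zero_mul]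
    rw [Finset.sum_congr rfl fun x _ => h2 x, Finset.sum_comm]
    have h4 : ∀ y : Y, (∑ x : C, if k y = x then F y * θ (k y) else 0) =
        if y ∈ C.comap k then F y * θ (k y) else 0 := by
      intro y
      by_cases h5 : k y ∈ C
      · rw [if_pos (show y ∈ C.comap k from h5), Finset.sum_eq_single ⟨k y, h5⟩]
        · rw [if_pos rfl]
        · intro b _ hb
          rw [if_neg]
          intro h6
          exact hb (Subtype.ext h6.symm)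
        · intro h6
          exact absurd (Finset.mem_univ _) h6
      · rw [if_neg (show ¬ y ∈ C.comap k from h5)]
        refine Finset.sum_eq_zero fun x _ => ?_
        rw [if_neg]
        intro h6
        exact h5 (h6 ▸ x.2)
    rw [Finset.sum_congr rfl fun y _ => h4 y, ← Finset.sum_filter]
    refine Finset.sum_subtype (Finset.univ.filter fun y : Y => y ∈ C.comap k) ?_
      (fun y => F y * θ (k y))
    intro y
    rw [Finset.mem_filter]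
    exact ⟨fun h => h.2, fun h => ⟨Finset.mem_univ _, h⟩⟩
  change (∑ y : ↥(C.comap k), F y * θ (k y)) / θ (k ((1 : ↥(C.comap k)) : Y)) =
    (∑ x : C, pu k F x * θ x) / θ ((1 : C) : G)
  rw [h1, h0]

end Sum

end MLV

theorem MLV_thm (h1 : Stmt_MLX) : Stmt_MLV := by
  classical
  intro Y G _ _ _ _ 𝔐 ℓ _ hmax hℓ k hk lam C hC θ χ hθ hχ
  obtain ⟨hx0, hx1⟩ := h1 Y G 𝔐 ℓ hmax hℓ k hk lam C hC θ hθ
  have hpr : 𝔐.IsPrime := hmax.isPrime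
  have hsur : Function.Surjective (k.subgroupComap C) := by
    rintro ⟨x, hx⟩
    obtain ⟨y, rfl⟩ := hC hx
    exact ⟨⟨y, hx⟩, rfl⟩
  have hirr : IsIrr (fun y : ↥(C.comap k) => θ (k y)) :=
    MLV.isIrr_surj (k.subgroupComap C) hsur hθ.1.1
  have key : ∀ F : Y → ℂ, (∀ n ∈ C.comap k, ∀ x ∈ C.comap k, F (n * x * n⁻¹) = F x) →
      (∀ x, IsIntegral ℤ (F x)) →
      red 𝔐 (wS (C.comap k) χ F) = red 𝔐 (wS C θ (pu k F)) := by
    intro F hF hi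
    rw [← MLV.wS_pu]
    have hF' : ∀ g x : ↥(C.comap k), (fun y : ↥(C.comap k) => F y) (g * x * g⁻¹) =
        (fun y : ↥(C.comap k) => F y) x := fun g x => hF g g.2 x x.2
    have h2 := red_wt_eq_pair 𝔐 (MonoidHom.id ↥(C.comap k)) hχ.1.1 (fun y => F y) hF'
      (fun x => hi x)
    have h3 := red_wt_eq_pair 𝔐 (MonoidHom.id ↥(C.comap k)) hirr (fun y => F y) hF'
      (fun x => hi x)
    rw [hχ.2.2, ← h3] at h2
    exact h2
  refine ⟨key, ?_⟩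
  intro F hF hi
  rw [key (rg ℓ k F)]
  · congr 1
    unfold wS wt
    congr 1
    refine Finset.sum_congr rfl fun s _ => ?_
    change pu k (rg ℓ k F) s * θ s = F s * θ s
    by_cases ho : ℓ ∣ orderOf (s : G)
    · rw [hx0 s ho, mul_zero, mul_zero]
    · congr 1
      obtain ⟨y, hy, hoy⟩ := MLV.lift_ex hk (hC s.2) ho
      unfold pu
      rw [Finset.sum_eq_single y]
      · rw [if_pos hy]
        unfold rg
        rw [if_neg hoy, hy]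
      · intro y' _ hne
        by_cases h4 : k y' = s
        · rw [if_pos h4]
          unfold rg
          rw [if_pos]
          by_contra h5
          exact hne (MLV.lift_un hk (h4.trans hy.symm) h5 hoy)
        · rw [if_neg h4]
      · intro h4
        exact absurd (Finset.mem_univ _) h4
  · intro n hn x hx
    unfold rg
    have h4 : orderOf (n * x * n⁻¹) = orderOf x := by
      have h5 := (MulAut.conj n).orderOf_eq x
      rw [MulAut.conj_apply] at h5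
      exact h5
    rw [h4]
    by_cases h5 : ℓ ∣ orderOf x
    · rw [if_pos h5, if_pos h5]
    · rw [if_neg h5, if_neg h5, map_mul, map_mul, map_inv]
      exact hF (k n) hn (k x) hx
  · intro x
    unfold rg
    by_cases h5 : ℓ ∣ orderOf x
    · rw [if_pos h5]
      exact isIntegral_zero
    · rw [if_neg h5]
      exact hi _

end Pool.Agent.DPT


end

section

/-!
# Dade's conjecture for the groups of a class: the statements of DPN, DPT and DPF which use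
Dade's conjecture for smaller groups, for a class of groups
-/

namespace Pool.Agent.DPK

open Pool.Agent.DP Pool.Agent.DPC Pool.Agent.DPM Pool.Agent.DPN Pool.Agent.DPT Pool.Agent.DPF
open Pool.Agent.Lib_helper13
open Representation
open Pool.Agent.Lib_helper13.Dade (pCore DadeHolds dadeSum)

/-- DKV: the chain sums vanish for the groups for which Dade's conjecture is known. -/
def Stmt_DKVr (Cl : ∀ (Y : Type) [Group Y], Prop) : Prop :=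
  ∀ (Y X : Type) [Group Y] [Fintype Y] [Group X] [Fintype X]
    (𝔐 : Ideal (integralClosure ℤ ℂ)) (ℓ : ℕ) [Fact ℓ.Prime], 𝔐.IsMaximal →
    (ℓ : integralClosure ℤ ℂ) ∈ 𝔐 → ∀ n : ℕ, Cl Y → HR Cl ℓ n → (Subgroup.center Y).index ≤ n →
    ∀ Z : Subgroup Y, Z ≤ Subgroup.center Y → IsPGroup ℓ Z → ∀ d : ℕ,
    padicValNat ℓ (Nat.card Z) < d →
    ∀ (i : Y →* X) (P : Set (X → (integralClosure ℤ ℂ) ⧸ 𝔐)), DK 𝔐 ℓ d Z i P = 0

/-- TDC: the twisted chain sums. -/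
def Stmt_TDCr (Cl : ∀ (Y : Type) [Group Y], Prop) : Prop :=
  ∀ (L K X : Type) [Group L] [Fintype L] [Group K] [Fintype K] [Group X] [Fintype X]
    (𝔐 : Ideal (integralClosure ℤ ℂ)) (ℓ : ℕ) [Fact ℓ.Prime], 𝔐.IsMaximal →
    (ℓ : integralClosure ℤ ℂ) ∈ 𝔐 → ∀ π : L →* K, Function.Surjective π → pCore ℓ K = ⊥ →
    Cl K → HR Cl ℓ (Nat.card K) → ∀ (U : Subgroup L) (μ : U →* ℂˣ), U ≤ Subgroup.center L →
    (∀ l, π l = 1 ↔ l ∈ U) → IsCyclic U → Function.Injective μ → ∀ d : ℕ,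
    padicValNat ℓ (Nat.card U) < d →
    ∀ (i : L →* X) (Q : Set (X → (integralClosure ℤ ℂ) ⧸ 𝔐)),
    ∑ σ ∈ Ch ℓ (⊥ : Subgroup K), (-1 : ℚ) ^ σ.card * ((Nat.card (stb σ) : ℚ) *
      Nat.card {η : ↥((stb σ).comap π) → ℂ // IsIrr η ∧ OvL U μ _ η ∧ HasDefect ℓ η d ∧
        cen 𝔐 (i.comp ((stb σ).comap π).subtype) η ∈ Q}) = 0

open Classical in
/-- TDM: the twisted Moebius sums. -/
def Stmt_TDMr (Cl : ∀ (Y : Type) [Group Y], Prop) : Prop :=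
  ∀ (L K : Type) [Group L] [Fintype L] [Group K] [Fintype K]
    (𝔐 : Ideal (integralClosure ℤ ℂ)) (ℓ : ℕ) [Fact ℓ.Prime], 𝔐.IsMaximal →
    (ℓ : integralClosure ℤ ℂ) ∈ 𝔐 → ∀ π : L →* K, Function.Surjective π → pCore ℓ K = ⊥ →
    Cl K → HR Cl ℓ (Nat.card K) → ∀ (U : Subgroup L) (μ : U →* ℂˣ), U ≤ Subgroup.center L →
    (∀ l, π l = 1 ↔ l ∈ U) → IsCyclic U → Function.Injective μ → ∀ d : ℕ,
    padicValNat ℓ (Nat.card U) < d → ∀ m : Subgroup K → ℚ, Mob m →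
    ∀ Q : Set (L → (integralClosure ℤ ℂ) ⧸ 𝔐),
    ∑ V, m V * ((Nat.card V : ℚ) * Nat.card {η : ↥(V.comap π) → ℂ // IsIrr η ∧
      OvL U μ _ η ∧ HasDefect ℓ η d ∧ cen 𝔐 (V.comap π).subtype η ∈ Q}) = 0

open Classical in
/-- CONS: only the characters with the same defect as `θ` contribute. -/
def Stmt_CONSr (Cl : ∀ (Y : Type) [Group Y], Prop) : Prop :=
  ∀ (A T H X : Type) [Group A] [Fintype A] [Group T] [Fintype T] [Group H] [Fintype H]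
    [Group X] [Fintype X] (𝔐 : Ideal (integralClosure ℤ ℂ)) (ℓ : ℕ) [Fact ℓ.Prime],
    𝔐.IsMaximal → (ℓ : integralClosure ℤ ℂ) ∈ 𝔐 → ∀ (j : A →* T) (c : T →* MulAut A)
    (p : T →* H), ClG j c p → Function.Surjective p → pCore ℓ H = ⊥ → Cl H → HR Cl ℓ (Nat.card H) →
    ∀ θ : A → ℂ, IsIrr θ → (∀ t a, θ (c t a) = θ a) → ∀ a d : ℕ, HasDefect ℓ θ a → d ≠ a →
    ∀ (i : T →* X) (ω : X → (integralClosure ℤ ℂ) ⧸ 𝔐) (m : Subgroup H → ℚ), Mob m →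
    ∑ V, m V * ((Nat.card V : ℚ) * NT 𝔐 ℓ d j p θ i {ω} V) = 0

/-- RDX: existence of reduced data. -/
def Stmt_RDXr (Cl : ∀ (Y : Type) [Group Y], Prop) : Prop :=
  ∀ (A T H : Type) [Group A] [Fintype A] [Group T] [Fintype T] [Group H] [Fintype H]
    (𝔐 : Ideal (integralClosure ℤ ℂ)) (ℓ : ℕ) [Fact ℓ.Prime], 𝔐.IsMaximal →
    (ℓ : integralClosure ℤ ℂ) ∈ 𝔐 → ∀ (j : A →* T) (c : T →* MulAut A) (p : T →* H),
    ClG j c p → Function.Surjective p → pCore ℓ H = ⊥ → Cl H → HR Cl ℓ (Nat.card H) →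
    ∀ θ : A → ℂ, IsIrr θ → (∀ t a, θ (c t a) = θ a) → ∀ a : ℕ, HasDefect ℓ θ a →
    ∃ (L : Type) (_ : Group L) (_ : Fintype L) (π : L →* H) (μ : π.ker →* ℂˣ)
      (Lm : (T → ℤ) → L → (integralClosure ℤ ℂ) ⧸ 𝔐), Function.Surjective π ∧
      π.ker ≤ Subgroup.center L ∧ ¬ ℓ ∣ Nat.card π.ker ∧ RDS 𝔐 ℓ a j p θ π μ Lm

/-- FAM: existence of families. -/
def Stmt_FAMr (Cl : ∀ (Y : Type) [Group Y], Prop) : Prop :=
  ∀ (O X H : Type) [Group O] [Fintype O] [Group X] [Fintype X] [Group H] [Fintype H]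
    (𝔐 : Ideal (integralClosure ℤ ℂ)) (ℓ : ℕ) [Fact ℓ.Prime], 𝔐.IsMaximal →
    (ℓ : integralClosure ℤ ℂ) ∈ 𝔐 → ∀ (j : O →* X) (c : X →* MulAut O) (p : X →* H)
    (h : ClG j c p), pCore ℓ H = ⊥ → Cl H → HR Cl ℓ (Nat.card H) → ∀ (a : ℕ) (Z : Subgroup O)
    (Λ : O → (integralClosure ℤ ℂ) ⧸ 𝔐),
    ∃ (W : Type) (_ : Group W) (_ : Fintype W) (π : W →* H) (R : Subgroup W)
      (μ : ∀ τ : Finset (Subgroup O), (stb τ → ℂ) → (π.ker →* ℂˣ))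
      (Lm : ∀ τ : Finset (Subgroup O), (stb τ → ℂ) → (YS j τ → ℤ) → W →
        (integralClosure ℤ ℂ) ⧸ 𝔐), Fam h 𝔐 ℓ a Z Λ π R μ Lm

/-- YFR: the chain sums of the fibre product vanish. -/
def Stmt_YFRr (Cl : ∀ (Y : Type) [Group Y], Prop) : Prop :=
  ∀ (O X H V : Type) [Group O] [Fintype O] [Group X] [Fintype X] [Group H] [Fintype H]
    [Group V] [Fintype V] (𝔐 : Ideal (integralClosure ℤ ℂ)) (ℓ : ℕ) [Fact ℓ.Prime],
    𝔐.IsMaximal → (ℓ : integralClosure ℤ ℂ) ∈ 𝔐 → ∀ (j : O →* X) (c : X →* MulAut O)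
    (p : X →* H) (h : ClG j c p), Function.Surjective p → ∀ n : ℕ, Cl X → HR Cl ℓ n →
    Subgroup.center X ≤ j.range → (Subgroup.center X).index ≤ n + 1 →
    ∀ Z : Subgroup O, IsPGroup ℓ Z → Z.map j ≤ Subgroup.center X →
    ∀ g : V →* H, g.ker ≤ Subgroup.center V → ¬ Function.Surjective g → ∀ d : ℕ,
    padicValNat ℓ (Nat.card Z) < d →
    ∀ (P : Set (fpr p g → (integralClosure ℤ ℂ) ⧸ 𝔐)) (V' : Subgroup V),
      DK 𝔐 ℓ d ((Z.map (finj h g)).subgroupOf (V'.comap (fsnd p g)))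
        (V'.comap (fsnd p g)).subtype P = 0

open Classical in
/-- YFF: the relations for the linear characters of the pairs. -/
def Stmt_YFFr (Cl : ∀ (Y : Type) [Group Y], Prop) : Prop :=
  ∀ (O X H W : Type) [Group O] [Fintype O] [Group X] [Fintype X] [Group H] [Fintype H]
    [Group W] [Fintype W] (𝔐 : Ideal (integralClosure ℤ ℂ)) (ℓ : ℕ) [Fact ℓ.Prime],
    𝔐.IsMaximal → (ℓ : integralClosure ℤ ℂ) ∈ 𝔐 → ∀ (j : O →* X) (c : X →* MulAut O)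
    (p : X →* H) (h : ClG j c p), Function.Surjective p → ∀ n : ℕ, Cl X → HR Cl ℓ n →
    Subgroup.center X ≤ j.range → (Subgroup.center X).index ≤ n + 1 → ∀ (a : ℕ)
    (Z : Subgroup O), IsPGroup ℓ Z → Z.map j ≤ Subgroup.center X →
    padicValNat ℓ (Nat.card Z) < a →
    ∀ (Λ : O → (integralClosure ℤ ℂ) ⧸ 𝔐) (π : W →* H) (R : Subgroup W)
    (μ : ∀ τ : Finset (Subgroup O), (stb τ → ℂ) → (π.ker →* ℂˣ))
    (Lm : ∀ τ : Finset (Subgroup O), (stb τ → ℂ) → (YS j τ → ℤ) → W →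
      (integralClosure ℤ ℂ) ⧸ 𝔐), Fam h 𝔐 ℓ a Z Λ π R μ Lm →
    ∀ (τ₀ : Finset (Subgroup O)) (θ₀ : stb τ₀ → ℂ), Pr h 𝔐 ℓ a Z Λ τ₀ θ₀ →
    ∀ ν : ∀ τ : Finset (Subgroup O), (stb τ → ℂ) → (R →* ℂˣ),
      NuF h 𝔐 ℓ a Z Λ π R μ Lm τ₀ θ₀ ν → ∀ hR : ∀ x y : W, x * y * x⁻¹ * y⁻¹ ∈ R,
    ∀ V : Subgroup W, V ⊔ R = ⊤ → ¬ ℓ ∣ Nat.card V →
    (∀ m : Subgroup V → ℚ, Mob m → ∀ V' : Subgroup V, m V' ≠ 0 → R.subgroupOf V ≤ V') →
    ¬ Function.Surjective (π.comp V.subtype) →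
    ∀ χ : R.subgroupOf V →* ℂˣ, (∀ (v : V) (r r' : R.subgroupOf V),
      (r' : V) = v * r * v⁻¹ → χ r' = χ r) →
    ∑ τ ∈ Ch ℓ Z, (-1 : ℂ) ^ τ.card * ∑ θ ∈ irrF (stb τ) with Pr h 𝔐 ℓ a Z Λ τ θ,
      (Nat.card (stb τ) : ℂ) * ∑ x : V, ∑ y : V, (if Subgroup.closure {x, y} = ⊤ then
        ((χ ⟨x * y * x⁻¹ * y⁻¹, Subgroup.mem_subgroupOf.mpr (hR x y)⟩ : ℂˣ) : ℂ)⁻¹ *
          ((ν τ θ ⟨(x : W) * y * (x : W)⁻¹ * (y : W)⁻¹, hR x y⟩ : ℂˣ) : ℂ)⁻¹ else 0) = 0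

open Classical in
/-- FNA: the pairs which contribute. -/
def Stmt_FNAr (Cl : ∀ (Y : Type) [Group Y], Prop) : Prop :=
  ∀ (O X H : Type) [Group O] [Fintype O] [Group X] [Fintype X] [Group H] [Fintype H]
    (𝔐 : Ideal (integralClosure ℤ ℂ)) (ℓ : ℕ) [Fact ℓ.Prime], 𝔐.IsMaximal →
    (ℓ : integralClosure ℤ ℂ) ∈ 𝔐 → ∀ (j : O →* X) (c : X →* MulAut O) (p : X →* H)
    (h : ClG j c p), pCore ℓ H = ⊥ → Cl H → HR Cl ℓ (Nat.card H) → ∀ (Z : Subgroup O) (d : ℕ)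
    (ω : X → (integralClosure ℤ ℂ) ⧸ 𝔐) (m : Subgroup H → ℚ), Mob m → ∀ τ₀ ∈ Ch ℓ Z,
    ∀ θ₀ : stb τ₀ → ℂ, IsIrr θ₀ → FP h τ₀ θ₀ →
    ∑ V, m V * ((Nat.card V : ℚ) *
      NT 𝔐 ℓ d (jS h τ₀) (pS p j τ₀) θ₀ (YS j τ₀).subtype {ω} V) ≠ 0 →
    ∀ τ ∈ Ch ℓ Z, ∀ θ : stb τ → ℂ, IsIrr θ → FP h τ θ →
    ∑ V, m V * ((Nat.card V : ℚ) *
      NT 𝔐 ℓ d (jS h τ) (pS p j τ) θ (YS j τ).subtype {ω} V) ≠ 0 →
    Pr h 𝔐 ℓ d Z (cen 𝔐 (stb τ₀).subtype θ₀) τ θ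

/-- FINN: the quotients without normal `ℓ`-subgroups. -/
def Stmt_FINNr (Cl : ∀ (Y : Type) [Group Y], Prop) : Prop :=
  ∀ (O X H : Type) [Group O] [Fintype O] [Group X] [Fintype X] [Group H] [Fintype H]
    (𝔐 : Ideal (integralClosure ℤ ℂ)) (ℓ : ℕ) [Fact ℓ.Prime], 𝔐.IsMaximal →
    (ℓ : integralClosure ℤ ℂ) ∈ 𝔐 → ∀ (j : O →* X) (c : X →* MulAut O) (p : X →* H)
    (_ : ClG j c p), Function.Surjective p → pCore ℓ H = ⊥ → ∀ n : ℕ, Cl X → HR Cl ℓ n →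
    Subgroup.center X ≤ j.range → (Subgroup.center X).index ≤ n + 1 → Nat.card H ≤ n →
    ∀ Z : Subgroup O, IsPGroup ℓ Z → Z.map j ≤ Subgroup.center X → ∀ (d : ℕ)
    (ω : X → (integralClosure ℤ ℂ) ⧸ 𝔐), padicValNat ℓ (Nat.card Z) < d →
    DK 𝔐 ℓ d (Z.map j) (MonoidHom.id X) {ω} ≠ 0 →
    Group.IsNilpotent H ∧ ¬ ℓ ∣ Nat.card H ∧ ∃ x y : H, Subgroup.closure {x, y} = ⊤

/-- STRN: the proper quotients of a minimal counterexample. -/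
def Stmt_STRNr (Cl : ∀ (Y : Type) [Group Y], Prop) : Prop :=
  ∀ (X : Type) [Group X] [Fintype X] (ℓ : ℕ) [Fact ℓ.Prime],
    pCore ℓ X ≤ Subgroup.center X → Cl X → HR Cl ℓ ((Subgroup.center X).index - 1) →
    ¬ DadeHolds ℓ X → ∀ N : Subgroup X, N.Normal → Subgroup.center X < N →
    ∃ P : Subgroup X, ∃ _ : P.Normal, N ≤ P ∧ (∀ x ∈ P, ∃ k : ℕ, x ^ ℓ ^ k ∈ N) ∧
      ¬ ℓ ∣ P.index ∧ Group.IsNilpotent (X ⧸ P) ∧
      ∃ x y : X, Subgroup.closure {x, y} ⊔ P = ⊤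

/-- UMN: the intersection of normal subgroups. -/
def Stmt_UMNr (Cl : ∀ (Y : Type) [Group Y], Prop) : Prop :=
  ∀ (X : Type) [Group X] [Fintype X] (ℓ : ℕ) [Fact ℓ.Prime],
    pCore ℓ X ≤ Subgroup.center X → Cl X → HR Cl ℓ ((Subgroup.center X).index - 1) →
    ¬ DadeHolds ℓ X → ∀ N N' : Subgroup X, N.Normal → N'.Normal →
    Subgroup.center X < N → Subgroup.center X < N' → Subgroup.center X < N ⊓ N'

/-- STB: the blocks of the normal subgroups of a minimal counterexample are stable. -/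
def Stmt_STBr (Cl : ∀ (Y : Type) [Group Y], Prop) : Prop :=
  ∀ (X : Type) [Group X] [Fintype X] (𝔐 : Ideal (integralClosure ℤ ℂ)) (ℓ : ℕ)
    [Fact ℓ.Prime], 𝔐.IsMaximal → (ℓ : integralClosure ℤ ℂ) ∈ 𝔐 → ∀ n : ℕ, Cl X → HR Cl ℓ n →
    (Subgroup.center X).index ≤ n + 1 → ∀ Z N : Subgroup X, Z ≤ Subgroup.center X →
    IsPGroup ℓ Z → N.Normal → ∀ d : ℕ, padicValNat ℓ (Nat.card Z) < d →
    ∀ ω : X → (integralClosure ℤ ℂ) ⧸ 𝔐, KK 𝔐 ℓ d Z ω ≠ 0 → ∀ ξ : X → ℂ, IrrOn N ξ →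
    (∀ x ∈ N, cgT 𝔐 ⊤ ξ x = ω x) → sx (cgT 𝔐 N ξ) = ⊤

/-- OUTF: a family for a nonvanishing chain sum. -/
def Stmt_OUTFr (Cl : ∀ (Y : Type) [Group Y], Prop) : Prop :=
  ∀ (O X H : Type) [Group O] [Fintype O] [Group X] [Fintype X] [Group H] [Fintype H]
    (𝔐 : Ideal (integralClosure ℤ ℂ)) (ℓ : ℕ) [Fact ℓ.Prime], 𝔐.IsMaximal →
    (ℓ : integralClosure ℤ ℂ) ∈ 𝔐 → ∀ (j : O →* X) (c : X →* MulAut O) (p : X →* H)
    (h : ClG j c p), Function.Surjective p → pCore ℓ H = ⊥ → ∀ n : ℕ, Cl X → HR Cl ℓ n →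
    Subgroup.center X ≤ j.range → (Subgroup.center X).index ≤ n + 1 → Nat.card H ≤ n →
    ∀ Z : Subgroup O, IsPGroup ℓ Z → Z.map j ≤ Subgroup.center X → ∀ (d : ℕ)
    (ω : X → (integralClosure ℤ ℂ) ⧸ 𝔐), padicValNat ℓ (Nat.card Z) < d →
    DK 𝔐 ℓ d (Z.map j) (MonoidHom.id X) {ω} ≠ 0 →
    ∃ (W : Type) (_ : Group W) (_ : Fintype W) (π : W →* H) (R : Subgroup W)
      (μ : ∀ τ : Finset (Subgroup O), (stb τ → ℂ) → (π.ker →* ℂˣ))
      (Lm : ∀ τ : Finset (Subgroup O), (stb τ → ℂ) → (YS j τ → ℤ) → W →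
        (integralClosure ℤ ℂ) ⧸ 𝔐) (τ : Finset (Subgroup O)) (θ : stb τ → ℂ),
      Fam h 𝔐 ℓ d Z (cen 𝔐 (stb τ).subtype θ) π R μ Lm ∧
      Pr h 𝔐 ℓ d Z (cen 𝔐 (stb τ).subtype θ) τ θ ∧
      (∀ o, ω (j o) = cen 𝔐 (j.comp (stb τ).subtype) θ (j o)) ∧
      (∀ x y : W, x * y * x⁻¹ * y⁻¹ ∈ R) ∧ ¬ ℓ ∣ R.index

/-- OUT1: for a nonvanishing chain sum of a minimal counterexample and a normal subgroup `N`, there
is a normal subgroup `M` with quotient in the class such that `M / N` has order prime to `ℓ`. -/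
def Stmt_OUT1r (Cl : ∀ (Y : Type) [Group Y], Prop) : Prop :=
  ∀ (X : Type) [Group X] [Fintype X] (𝔐 : Ideal (integralClosure ℤ ℂ)) (ℓ : ℕ)
    [Fact ℓ.Prime], 𝔐.IsMaximal → (ℓ : integralClosure ℤ ℂ) ∈ 𝔐 →
    pCore ℓ X ≤ Subgroup.center X → Cl X → HR Cl ℓ ((Subgroup.center X).index - 1) →
    ∀ (d : ℕ) (ω : X → (integralClosure ℤ ℂ) ⧸ 𝔐),
    padicValNat ℓ (Nat.card (pCore ℓ X)) < d → KK 𝔐 ℓ d (pCore ℓ X) ω ≠ 0 →
    ∀ N : Subgroup X, N.Normal → Subgroup.center X < N →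
    ∃ M : Subgroup X, M.Normal ∧ N ≤ M ∧ (∀ x ∈ M, x ^ ℓ ∈ N → x ∈ N) ∧
      ∃ (H : Type) (_ : Group H) (_ : Finite H) (f : X →* H), Function.Surjective f ∧
        (∀ x, f x = 1 ↔ x ∈ M) ∧ HH ℓ H

/-- B0F: the minimal normal subgroup of a minimal counterexample. -/
def Stmt_B0Fr (Cl : ∀ (Y : Type) [Group Y], Prop) : Prop :=
  ∀ (X : Type) [Group X] [Fintype X] (ℓ : ℕ) [Fact ℓ.Prime],
    pCore ℓ X ≤ Subgroup.center X → Cl X → HR Cl ℓ ((Subgroup.center X).index - 1) →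
    ¬ DadeHolds ℓ X →
    (∀ N : Subgroup X, N.Normal → Subgroup.center X < N →
      (∃ x ∈ N, x ^ ℓ ∈ Subgroup.center X ∧ x ∉ Subgroup.center X) ∧
      ∃ x ∈ N, ∃ y ∈ N, x * y * x⁻¹ * y⁻¹ ∉ Subgroup.center X) ∧
    ∃ N : Subgroup X, N.Normal ∧ Subgroup.center X < N ∧
      ∀ N' : Subgroup X, N'.Normal → Subgroup.center X < N' → N ≤ N'

/-- DDS: the sum over all chains of `K`. -/
def Stmt_DDSr (Cl : ∀ (Y : Type) [Group Y], Prop) : Prop :=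
  ∀ (L K : Type) [Group L] [Fintype L] [Group K] [Fintype K]
    (𝔐 : Ideal (integralClosure ℤ ℂ)) (ℓ : ℕ) [Fact ℓ.Prime], 𝔐.IsMaximal →
    (ℓ : integralClosure ℤ ℂ) ∈ 𝔐 → ∀ π : L →* K, Function.Surjective π →
    π.ker ≤ Subgroup.center L → IsCyclic π.ker → ∀ μ : π.ker →* ℂˣ, Function.Injective μ →
    Cl K → HR Cl ℓ (Nat.card K) → ∀ M : Subgroup K, M.Normal →
    ∀ (ω : L → (integralClosure ℤ ℂ) ⧸ 𝔐) (d : ℕ),
    CS ℓ ⊤ (WF 𝔐 ℓ d π μ M ω) ≠ 0 → GdF 𝔐 ℓ π μ M ω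

/-- PSN: the sums over the chains of the normal subgroups. -/
def Stmt_PSNr (Cl : ∀ (Y : Type) [Group Y], Prop) : Prop :=
  ∀ (ℓ : ℕ) [Fact ℓ.Prime] (K : Type) [Group K] [Fintype K], Cl K → HR Cl ℓ (Nat.card K) → PF ℓ K

/-- OUT2: for a nonvanishing chain sum of a minimal counterexample and a normal subgroup `N`, there
is a normal subgroup `M` with quotient in the class such that `M / N` has order prime to `ℓ` and
is contained in the support of the block of `N`. -/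
def Stmt_OUT2r (Cl : ∀ (Y : Type) [Group Y], Prop) : Prop :=
  ∀ (X : Type) [Group X] [Fintype X] (𝔐 : Ideal (integralClosure ℤ ℂ)) (ℓ : ℕ)
    [Fact ℓ.Prime], 𝔐.IsMaximal → (ℓ : integralClosure ℤ ℂ) ∈ 𝔐 →
    pCore ℓ X ≤ Subgroup.center X → Cl X → HR Cl ℓ ((Subgroup.center X).index - 1) →
    ∀ (d : ℕ) (ω : X → (integralClosure ℤ ℂ) ⧸ 𝔐),
    padicValNat ℓ (Nat.card (pCore ℓ X)) < d → KK 𝔐 ℓ d (pCore ℓ X) ω ≠ 0 →
    ∀ N : Subgroup X, N.Normal → Subgroup.center X < N →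
    ∃ M : Subgroup X, M.Normal ∧ N ≤ M ∧ (∀ x ∈ M, x ^ ℓ ∈ N → x ∈ N) ∧
      (∃ (H : Type) (_ : Group H) (_ : Finite H) (f : X →* H), Function.Surjective f ∧
        (∀ x, f x = 1 ↔ x ∈ M) ∧ HH ℓ H) ∧
      ∀ ξ : X → ℂ, IrrOn N ξ → (∀ x ∈ N, cgT 𝔐 ⊤ ξ x = ω x) →
        sx (cgT 𝔐 N ξ) = ⊤ ∧
        ∀ x ∈ M, ∃ u v : X → ℤ, (∀ a ∈ N, ∀ z, u (a * z * a⁻¹) = u z) ∧
          (∀ a ∈ N, ∀ z, v (a * z * a⁻¹) = v z) ∧ (∀ z, u z ≠ 0 → x⁻¹ * z ∈ N) ∧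
          (∀ z, v z ≠ 0 → x * z ∈ N) ∧
          red 𝔐 (wS N ξ (fun z => ((conv u v z : ℤ) : ℂ))) ≠ 0

/-- PS1: the sum over the chains of a normal subgroup vanishes if there are no characters of
minimal defect (faithful linear character of a cyclic kernel). -/
def Stmt_PS1r (Cl : ∀ (Y : Type) [Group Y], Prop) : Prop :=
  ∀ (L K H : Type) [Group L] [Fintype L] [Group K] [Fintype K] [Group H] [Fintype H]
    (𝔐 : Ideal (integralClosure ℤ ℂ)) (ℓ : ℕ) [Fact ℓ.Prime], 𝔐.IsMaximal →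
    (ℓ : integralClosure ℤ ℂ) ∈ 𝔐 → ∀ π : L →* K, Function.Surjective π →
    π.ker ≤ Subgroup.center L → IsCyclic π.ker → ∀ μ : π.ker →* ℂˣ, Function.Injective μ →
    Cl K → HR Cl ℓ (Nat.card K) → ∀ (M : Subgroup K) [M.Normal] (p : K →* H), Function.Surjective
    p →
    (∀ k, p k = 1 ↔ k ∈ M) → ∀ P : Subgroup H, SylAb ℓ P →
    ∀ ω : L → (integralClosure ℤ ℂ) ⧸ 𝔐, Pos 𝔐 ℓ π μ M ω → ∀ d : ℕ,
    PHU 𝔐 ℓ d π μ M ⊤ ω = 0

/-- PS2: the same for arbitrary linear characters of the kernel. -/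
def Stmt_PS2r (Cl : ∀ (Y : Type) [Group Y], Prop) : Prop :=
  ∀ (L K H : Type) [Group L] [Fintype L] [Group K] [Fintype K] [Group H] [Fintype H]
    (𝔐 : Ideal (integralClosure ℤ ℂ)) (ℓ : ℕ) [Fact ℓ.Prime], 𝔐.IsMaximal →
    (ℓ : integralClosure ℤ ℂ) ∈ 𝔐 → ∀ π : L →* K, Function.Surjective π →
    π.ker ≤ Subgroup.center L → ∀ μ : π.ker →* ℂˣ,
    Cl K → HR Cl ℓ (Nat.card K) → ∀ (M : Subgroup K) [M.Normal] (p : K →* H), Function.Surjective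
    p →
    (∀ k, p k = 1 ↔ k ∈ M) → ∀ P : Subgroup H, SylAb ℓ P →
    ∀ ω : L → (integralClosure ℤ ℂ) ⧸ 𝔐, Pos 𝔐 ℓ π μ M ω → ∀ d : ℕ,
    PHU 𝔐 ℓ d π μ M ⊤ ω = 0

/-- PS3: the same for the subgroups which contain `M`. -/
def Stmt_PS3r (Cl : ∀ (Y : Type) [Group Y], Prop) : Prop :=
  ∀ (L K H : Type) [Group L] [Fintype L] [Group K] [Fintype K] [Group H] [Fintype H]
    (𝔐 : Ideal (integralClosure ℤ ℂ)) (ℓ : ℕ) [Fact ℓ.Prime], 𝔐.IsMaximal →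
    (ℓ : integralClosure ℤ ℂ) ∈ 𝔐 → ∀ π : L →* K, Function.Surjective π →
    π.ker ≤ Subgroup.center L → ∀ μ : π.ker →* ℂˣ,
    ∀ (M : Subgroup K) [M.Normal] (p : K →* H), Function.Surjective p →
    (∀ k, p k = 1 ↔ k ∈ M) → ∀ P : Subgroup H, SylAb ℓ P →
    ∀ ω : L → (integralClosure ℤ ℂ) ⧸ 𝔐, Pos 𝔐 ℓ π μ M ω → ∀ V : Subgroup H,
    Cl K → HR Cl ℓ (Nat.card ↥(V.comap p)) → ∀ d : ℕ, PHU 𝔐 ℓ d π μ M (V.comap p) ω = 0

open Classical in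
/-- T2R: the twisted relations. -/
def Stmt_T2Rr (Cl : ∀ (Y : Type) [Group Y], Prop) : Prop :=
  ∀ (L K H W : Type) [Group L] [Fintype L] [Group K] [Fintype K] [Group H] [Fintype H]
    [Group W] [Fintype W] (𝔐 : Ideal (integralClosure ℤ ℂ)) (ℓ : ℕ) [Fact ℓ.Prime],
    𝔐.IsMaximal → (ℓ : integralClosure ℤ ℂ) ∈ 𝔐 → ∀ π : L →* K,
    Function.Surjective π → π.ker ≤ Subgroup.center L → ∀ (μ : π.ker →* ℂˣ)
    (M : Subgroup K) [M.Normal] (p : K →* H), Function.Surjective p →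
    (∀ k, p k = 1 ↔ k ∈ M) → ∀ P : Subgroup H, SylAb ℓ P → Cl K → HR Cl ℓ (Nat.card K) →
    ∀ ω : L → (integralClosure ℤ ℂ) ⧸ 𝔐, Pos 𝔐 ℓ π μ M ω → ∀ πW : W →* H,
    Function.Surjective πW → πW.ker ≤ Subgroup.center W →
    ∀ ν : ∀ τ : Finset (Subgroup M), (↥(SL π M τ M) → ℂ) → (πW.ker →* ℂˣ),
    (∀ τ θ, PrU 𝔐 π μ p M ω τ θ → EDt π p M πW τ θ (ν τ θ)) →
    ∀ m : Subgroup H → ℚ, Mob m → ∀ (ν' : πW.ker →* ℂˣ) (n : ℕ),
    ∑ τ ∈ Ch ℓ (⊥ : Subgroup M), (-1 : ℚ) ^ τ.card *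
      ∑ θ ∈ irrF (SL π M τ M) with PrU 𝔐 π μ p M ω τ θ,
        (Nat.card ↥(M ⊓ stb (mapCh M.subtype τ)) : ℚ) *
          ∑ V, m V * ((Nat.card V : ℚ) * Nat.card {η : ↥(V.comap πW) → ℂ // IsIrr η ∧
            OvL πW.ker (ν τ θ * ν') _ η ∧
            ∃ e a, HasDefect ℓ η e ∧ HasDefect ℓ θ a ∧ e + a = n}) = 0

/-- T2A: the relations between the linear characters, from Dade's conjecture. -/
def Stmt_T2Ar (Cl : ∀ (Y : Type) [Group Y], Prop) : Prop :=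
  ∀ (L K H W : Type) [Group L] [Fintype L] [Group K] [Fintype K] [Group H] [Fintype H]
    [Group W] [Fintype W] (𝔐 : Ideal (integralClosure ℤ ℂ)) (ℓ : ℕ) [Fact ℓ.Prime],
    𝔐.IsMaximal → (ℓ : integralClosure ℤ ℂ) ∈ 𝔐 → ∀ π : L →* K,
    Function.Surjective π → π.ker ≤ Subgroup.center L → ∀ (μ : π.ker →* ℂˣ)
    (M : Subgroup K) [M.Normal] (p : K →* H), Function.Surjective p →
    (∀ k, p k = 1 ↔ k ∈ M) → ∀ P : Subgroup H, SylAb ℓ P → Cl K → HR Cl ℓ (Nat.card K) →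
    ∀ ω : L → (integralClosure ℤ ℂ) ⧸ 𝔐, Pos 𝔐 ℓ π μ M ω → ∀ πW : W →* H,
    Function.Surjective πW → πW.ker ≤ Subgroup.center W →
    ∀ ν : ∀ τ : Finset (Subgroup M), (↥(SL π M τ M) → ℂ) → (πW.ker →* ℂˣ),
    (∀ τ θ, PrU 𝔐 π μ p M ω τ θ → EDt π p M πW τ θ (ν τ θ)) →
    T2 𝔐 ℓ π μ p M ω πW P ν

/-- PSZ: the sum over the chains of `K` and the sum over the chains of `M` (minimal
counterexample). -/
def Stmt_PSZr (Cl : ∀ (Y : Type) [Group Y], Prop) : Prop :=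
  ∀ (L K H : Type) [Group L] [Fintype L] [Group K] [Fintype K] [Group H] [Fintype H]
    (𝔐 : Ideal (integralClosure ℤ ℂ)) (ℓ : ℕ) [Fact ℓ.Prime], 𝔐.IsMaximal →
    (ℓ : integralClosure ℤ ℂ) ∈ 𝔐 → ∀ π : L →* K, Function.Surjective π →
    π.ker ≤ Subgroup.center L → ∀ μ : π.ker →* ℂˣ, pCore ℓ K = ⊥ →
    Cl K → (∀ n < Nat.card K, HR Cl ℓ n) → ∀ (M : Subgroup K) [M.Normal] (p : K →* H),
    Function.Surjective p →
    (∀ k, p k = 1 ↔ k ∈ M) → ∀ P : Subgroup H, SylAb ℓ P →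
    ∀ ω : L → (integralClosure ℤ ℂ) ⧸ 𝔐, Pos 𝔐 ℓ π μ M ω → ∀ d : ℕ,
    DKU 𝔐 ℓ d π μ M ω = PHU 𝔐 ℓ d π μ M ⊤ ω

/-- T2B: the relations imply that the sum over the chains vanishes. -/
def Stmt_T2Br (Cl : ∀ (Y : Type) [Group Y], Prop) : Prop :=
  ∀ (L K H W : Type) [Group L] [Fintype L] [Group K] [Fintype K] [Group H] [Fintype H]
    [Group W] [Fintype W] (𝔐 : Ideal (integralClosure ℤ ℂ)) (ℓ : ℕ) [Fact ℓ.Prime],
    𝔐.IsMaximal → (ℓ : integralClosure ℤ ℂ) ∈ 𝔐 → ∀ π : L →* K,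
    Function.Surjective π → π.ker ≤ Subgroup.center L → ∀ (μ : π.ker →* ℂˣ)
    (M : Subgroup K) [M.Normal] (p : K →* H), Function.Surjective p →
    (∀ k, p k = 1 ↔ k ∈ M) → ∀ P : Subgroup H, SylAb ℓ P → pCore ℓ K = ⊥ →
    Cl K → (∀ n < Nat.card K, HR Cl ℓ n) →
    ∀ ω : L → (integralClosure ℤ ℂ) ⧸ 𝔐, Pos 𝔐 ℓ π μ M ω → ∀ πW : W →* H,
    Function.Surjective πW →
    ∀ ν : ∀ τ : Finset (Subgroup M), (↥(SL π M τ M) → ℂ) → (πW.ker →* ℂˣ),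
    (∀ τ θ, PrU 𝔐 π μ p M ω τ θ → NumW ℓ π p M πW τ θ (ν τ θ)) →
    T2 𝔐 ℓ π μ p M ω πW P ν → ∀ d : ℕ, DKU 𝔐 ℓ d π μ M ω = 0

end Pool.Agent.DPK


end

section

/-!
# FNAr: the pairs which contribute, for the groups of a class
-/

namespace Pool.Agent.DPK

open Pool.Agent.DP Pool.Agent.DPC Pool.Agent.DPM Pool.Agent.DPN Pool.Agent.Lib_helper13
open Representation
open Pool.Agent.Lib_helper13.Dade (pCore DadeHolds dadeSum)

open Pool.Agent.DPN.FNA in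
theorem FNAr_thm (Cl : ∀ (Y : Type) [Group Y], Prop) (_hC : GC Cl) (h1 : Stmt_CONSr Cl)
    (h2 : Stmt_BEQ) : Stmt_FNAr Cl := by
  intro O X H _ _ _ _ _ _ 𝔐 ℓ _ h𝔐 hℓ j c p h hcore hCl hHR Z d ω m hm τ₀ hτ₀ θ₀ hθ₀ hFP₀ hne₀
    τ hτ θ hθ hFP hne
  have hdf : HasDefect ℓ θ d := by
    obtain ⟨a, ha⟩ := hθ.exists_defect (ℓ := ℓ)
    by_cases hda : d = a
    · rw [hda]
      exact ha
    · exfalso
      exact hne (h1 (stb τ) (YS j τ) H X 𝔐 ℓ h𝔐 hℓ (jS h τ) (cS h τ) (pS p j τ) (clG_S h τ)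
        hFP.1 hcore hCl hHR θ hθ hFP.2 a d ha hda (YS j τ).subtype ω m hm)
  have hk := key 𝔐 ℓ h d ω m τ θ hθ hne
  have hk₀ := key 𝔐 ℓ h d ω m τ₀ θ₀ hθ₀ hne₀
  have hinv := (h2 O X H 𝔐 ℓ h𝔐 hℓ j c p h Z τ₀ hτ₀ θ₀ hθ₀).1 hFP₀
  have hcn := (h2 O X H 𝔐 ℓ h𝔐 hℓ j c p h Z τ hτ θ hθ).2 τ₀ hτ₀ θ₀ hθ₀ hinv
    (fun o => (hk o).symm.trans (hk₀ o))
  exact ⟨hτ, hθ, hdf, hcn, hFP⟩

end Pool.Agent.DPK


end
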