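import Mathlib
import Pool.Agent.DAM.C04
import Pool.Agent.DAM.C05
import Pool.Agent.DAM.C08
import Pool.Agent.DAM.C11
import Pool.Agent.DAM.C12
import Pool.Agent.DAM.C13
import Pool.Agent.DAM.C14

/-! Parts: DP.SPLIT, DP.CORE, DPM.PSA, DPC.SPA, DPC.CONST, DPX.GCX, DPX.QUZX -/

section

set_option linter.unusedSectionVars false

/-!
# Module DP_SPLIT: outer and inner chains
-/

namespace Pool.Agent.DP

open Pool.Agent.Lib_helper13

namespace SPLIT

section Basic

variable {X : Type*} [Group X]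

theorem tp_cases {ℓ : ℕ} {Z : Subgroup X} {c : Finset (Subgroup X)} (hc : IsCh ℓ Z c) :
    (c = ∅ ∧ tp Z c = Z) ∨ tp Z c ∈ c := by
  rcases c.eq_empty_or_nonempty with h | h
  · left
    refine ⟨h, ?_⟩
    rw [tp, h, Finset.sup_empty, bot_sup_eq]
  · right
    have h1 := sup_mem_of_chain (fun D hD E hE => hc.total hD hE) h
    have h2 : tp Z c = c.sup id := sup_eq_left.mpr (hc.1 _ h1).2.le
    rw [h2]
    exact h1

theorem le_tp {Z : Subgroup X} {c : Finset (Subgroup X)} {D : Subgroup X} (hD : D ∈ c) :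
    D ≤ tp Z c := (Finset.le_sup (f := id) hD).trans le_sup_left

theorem Z_le_tp {Z : Subgroup X} {c : Finset (Subgroup X)} : Z ≤ tp Z c := le_sup_right

/-- the product of two commuting subgroups -/
def prodS (Q T : Subgroup X) (h : ∀ q ∈ Q, ∀ t ∈ T, q * t = t * q) : Subgroup X where
  carrier := {x | ∃ q ∈ Q, ∃ t ∈ T, q * t = x}
  one_mem' := ⟨1, one_mem _, 1, one_mem _, by simp⟩
  mul_mem' := by
    rintro _ _ ⟨q, hq, t, ht, rfl⟩ ⟨q', hq', t', ht', rfl⟩
    refine ⟨q * q', mul_mem hq hq', t * t', mul_mem ht ht', ?_⟩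
    rw [mul_assoc, ← mul_assoc q' t t', h q' hq' t ht, mul_assoc, mul_assoc]
  inv_mem' := by
    rintro _ ⟨q, hq, t, ht, rfl⟩
    refine ⟨q⁻¹, inv_mem hq, t⁻¹, inv_mem ht, ?_⟩
    rw [mul_inv_rev, h q⁻¹ (inv_mem hq) t⁻¹ (inv_mem ht)]

theorem comm_of_le {N Q T : Subgroup X} (hT : T ≤ cN N Q) : ∀ q ∈ Q, ∀ t ∈ T, q * t = t * q := by
  intro q hq t ht
  have h := (Subgroup.mem_inf.mp (show t ∈ N ⊓ Subgroup.centralizer (Q : Set X) from hT ht)).2
  rw [Subgroup.mem_centralizer_iff] at h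
  exact h q hq

theorem mem_sup_cN {N Q T : Subgroup X} (hT : T ≤ cN N Q) {x : X} (hx : x ∈ Q ⊔ T) :
    ∃ q ∈ Q, ∃ t ∈ T, q * t = x := by
  have h : Q ⊔ T ≤ prodS Q T (comm_of_le hT) := by
    apply sup_le
    · intro q hq
      exact ⟨q, hq, 1, one_mem _, by simp⟩
    · intro t ht
      exact ⟨1, one_mem _, t, ht, by simp⟩
  exact h hx

theorem sup_inf_N {N Q T : Subgroup X} (hT : T ≤ cN N Q) (hQN : Q ⊓ N = ⊥) :
    (Q ⊔ T) ⊓ N = T := by
  apply le_antisymm
  · intro x hx'
    obtain ⟨hx, hxN⟩ := Subgroup.mem_inf.mp hx'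
    obtain ⟨q, hq, t, ht, rfl⟩ := mem_sup_cN hT hx
    have htN : t ∈ N :=
      (Subgroup.mem_inf.mp (show t ∈ N ⊓ Subgroup.centralizer (Q : Set X) from hT ht)).1
    have h1 : q ∈ N := by
      have := mul_mem hxN (inv_mem htN)
      rwa [mul_inv_cancel_right] at this
    have h2 : q ∈ Q ⊓ N := ⟨hq, h1⟩
    rw [hQN, Subgroup.mem_bot] at h2
    rw [h2, one_mul]
    exact ht
  · exact le_inf le_sup_right (hT.trans inf_le_left)

theorem sup_inf_C {N Q T : Subgroup X} (hT : T ≤ cN N Q) (hQN : Q ⊓ N = ⊥) :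
    (Q ⊔ T) ⊓ cN N Q = T := by
  apply le_antisymm
  · refine le_trans (inf_le_inf_left _ inf_le_left) ?_
    rw [sup_inf_N hT hQN]
  · exact le_inf le_sup_right hT

/-- the interior operator -/
def fo (N Q R : Subgroup X) : Subgroup X := Q ⊔ (R ⊓ cN N Q)

theorem fo_inf_C {N Q R : Subgroup X} (hQN : Q ⊓ N = ⊥) : fo N Q R ⊓ cN N Q = R ⊓ cN N Q :=
  sup_inf_C inf_le_right hQN

theorem fo_fo {N Q R : Subgroup X} (hQN : Q ⊓ N = ⊥) : fo N Q (fo N Q R) = fo N Q R := by
  rw [fo, fo_inf_C hQN, fo]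

theorem fo_mono {N Q R R' : Subgroup X} (h : R ≤ R') : fo N Q R ≤ fo N Q R' :=
  sup_le_sup_left (inf_le_inf_right _ h) _

theorem fo_le {N Q R : Subgroup X} (h : Q ≤ R) : fo N Q R ≤ R := sup_le h inf_le_left

theorem inf_C_ne_bot {ℓ : ℕ} [Fact ℓ.Prime] [Finite X] {N Q R : Subgroup X} [N.Normal]
    (hR : IsPGroup ℓ R) (hQR : Q ≤ R) (hRN : R ⊓ N ≠ ⊥) : R ⊓ cN N Q ≠ ⊥ := by
  have hmem : ∀ (q : Q) (x : (R ⊓ N : Subgroup X)), (q : X) * x * (q : X)⁻¹ ∈ R ⊓ N := by
    intro q x
    obtain ⟨h1, h2⟩ := Subgroup.mem_inf.mp x.2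
    refine Subgroup.mem_inf.mpr ⟨mul_mem (mul_mem (hQR q.2) h1) (inv_mem (hQR q.2)), ?_⟩
    exact (inferInstance : N.Normal).conj_mem _ h2 _
  let act : MulAction Q (R ⊓ N : Subgroup X) :=
    { smul := fun q x => ⟨(q : X) * x * (q : X)⁻¹, hmem q x⟩
      one_smul := fun x => by
        apply Subtype.ext
        change ((1 : Q) : X) * x * ((1 : Q) : X)⁻¹ = x
        simp
      mul_smul := fun q q' x => by
        apply Subtype.ext
        change ((q * q' : Q) : X) * x * ((q * q' : Q) : X)⁻¹ =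
          (q : X) * ((q' : X) * x * (q' : X)⁻¹) * (q : X)⁻¹
        rw [Subgroup.coe_mul]
        group }
  have hα : IsPGroup ℓ (R ⊓ N : Subgroup X) := hR.to_inf_left
  have hQ : IsPGroup ℓ Q := hR.to_le hQR
  have hcard : ℓ ∣ Nat.card (R ⊓ N : Subgroup X) := by
    rcases hα.card_eq_or_dvd with h | h
    · exact absurd (Subgroup.card_eq_one.mp h) hRN
    · exact h
  have h1 : (1 : (R ⊓ N : Subgroup X)) ∈ MulAction.fixedPoints Q (R ⊓ N : Subgroup X) := by
    intro q
    apply Subtype.ext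
    change (q : X) * ((1 : (R ⊓ N : Subgroup X)) : X) * (q : X)⁻¹ = _
    simp
  obtain ⟨b, hb, hb1⟩ := hQ.exists_fixed_point_of_prime_dvd_card_of_fixed_point _ hcard h1
  intro h
  apply hb1
  have h2 : (b : X) ∈ R ⊓ cN N Q := by
    obtain ⟨h1, h2⟩ := Subgroup.mem_inf.mp b.2
    refine Subgroup.mem_inf.mpr ⟨h1, Subgroup.mem_inf.mpr ⟨h2, ?_⟩⟩
    rw [Subgroup.mem_centralizer_iff]
    intro q hq
    have h3 := congrArg Subtype.val (hb ⟨q, hq⟩)
    change q * (b : X) * q⁻¹ = b at h3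
    rw [mul_inv_eq_iff_eq_mul] at h3
    exact h3
  rw [h, Subgroup.mem_bot] at h2
  apply Subtype.ext
  rw [h2]
  rfl

theorem inf_mem_of_chain {s : Finset (Subgroup X)}
    (h : ∀ D ∈ s, ∀ E ∈ s, D ≤ E ∨ E ≤ D) (hne : s.Nonempty) : s.inf id ∈ s := by
  obtain ⟨T, hT⟩ := s.exists_minimal hne
  have h1 : ∀ D ∈ s, T ≤ D := by
    intro D hD
    rcases h D hD T hT.1 with h1 | h1
    · exact hT.2 hD h1
    · exact h1
  have : s.inf id = T := by
    apply le_antisymm
    · exact Finset.inf_le (f := id) hT.1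
    · rw [Finset.le_inf_iff]
      exact h1
  rw [this]
  exact hT.1

theorem map_inf_conj (g : X) (A B : Subgroup X) :
    (A ⊓ B).map (MulAut.conj g).toMonoidHom =
      A.map (MulAut.conj g).toMonoidHom ⊓ B.map (MulAut.conj g).toMonoidHom :=
  Subgroup.map_inf _ _ _ (MulAut.conj g).injective

theorem map_conj_normal (g : X) (N : Subgroup X) [hN : N.Normal] :
    N.map (MulAut.conj g).toMonoidHom = N := by
  have := Subgroup.mem_normalizer_iff_map_conj_eq.mp
    (show g ∈ Subgroup.normalizer (N : Set X) by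
      rw [Subgroup.normalizer_eq_top_iff.mpr inferInstance]
      trivial)
  exact this

theorem map_conj_inv {g : X} {Q : Subgroup X} (hQ : Q.map (MulAut.conj g).toMonoidHom = Q) :
    Q.map (MulAut.conj g⁻¹).toMonoidHom = Q := by
  have h : ((MulAut.conj g⁻¹).toMonoidHom).comp (MulAut.conj g).toMonoidHom =
      MonoidHom.id X := by
    ext x
    simp [mul_assoc]
  calc Q.map (MulAut.conj g⁻¹).toMonoidHom
      = (Q.map (MulAut.conj g).toMonoidHom).map (MulAut.conj g⁻¹).toMonoidHom := by rw [hQ]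
    _ = Q := by rw [Subgroup.map_map, h, Subgroup.map_id]

theorem conj_mem_centralizer {g : X} {Q : Subgroup X}
    (hQ : Q.map (MulAut.conj g).toMonoidHom = Q) {x : X}
    (hx : x ∈ Subgroup.centralizer (Q : Set X)) :
    g * x * g⁻¹ ∈ Subgroup.centralizer (Q : Set X) := by
  rw [Subgroup.mem_centralizer_iff] at hx ⊢
  intro q hq
  have h1 : q ∈ Q.map (MulAut.conj g).toMonoidHom := by
    rw [hQ]
    exact hq
  obtain ⟨q', hq', h2⟩ := h1
  have h3 : g * q' * g⁻¹ = q := h2
  have h4 := hx q' hq'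
  rw [← h3]
  calc g * q' * g⁻¹ * (g * x * g⁻¹) = g * (q' * x) * g⁻¹ := by group
    _ = g * (x * q') * g⁻¹ := by rw [h4]
    _ = g * x * g⁻¹ * (g * q' * g⁻¹) := by group

theorem map_conj_centralizer {g : X} {Q : Subgroup X}
    (hQ : Q.map (MulAut.conj g).toMonoidHom = Q) :
    (Subgroup.centralizer (Q : Set X)).map (MulAut.conj g).toMonoidHom =
      Subgroup.centralizer (Q : Set X) := by
  apply le_antisymm
  · rintro _ ⟨x, hx, rfl⟩
    exact conj_mem_centralizer hQ hx
  · intro x hx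
    refine ⟨g⁻¹ * x * g⁻¹⁻¹, conj_mem_centralizer (map_conj_inv hQ) hx, ?_⟩
    change g * (g⁻¹ * x * g⁻¹⁻¹) * g⁻¹ = x
    group

/-- conjugation fixing `Q` and `R` fixes `fo N Q R` -/
theorem map_conj_cN {g : X} {N Q : Subgroup X} [N.Normal]
    (hQ : Q.map (MulAut.conj g).toMonoidHom = Q) :
    (cN N Q).map (MulAut.conj g).toMonoidHom = cN N Q := by
  rw [cN, map_inf_conj, map_conj_normal, map_conj_centralizer hQ]

theorem map_conj_fo {g : X} {N Q R : Subgroup X} [N.Normal]
    (hQ : Q.map (MulAut.conj g).toMonoidHom = Q) (hR : R.map (MulAut.conj g).toMonoidHom = R) :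
    (fo N Q R).map (MulAut.conj g).toMonoidHom = fo N Q R := by
  rw [fo, Subgroup.map_sup, map_inf_conj, map_conj_cN hQ, hQ, hR]

/-- elements of the stabilizer of `c` normalize `tp Z c` -/
theorem map_conj_tp {ℓ : ℕ} {Z : Subgroup X} [Z.Normal] {c : Finset (Subgroup X)}
    (hc : IsCh ℓ Z c) {g : X} (hg : g ∈ stb c) :
    (tp Z c).map (MulAut.conj g).toMonoidHom = tp Z c := by
  rcases tp_cases hc with ⟨_, h⟩ | h
  · rw [h, map_conj_normal]
  · exact mem_stb.mp hg _ h

theorem tp_isPGroup {ℓ : ℕ} {Z : Subgroup X} (hZ : IsPGroup ℓ Z) {c : Finset (Subgroup X)}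
    (hc : IsCh ℓ Z c) : IsPGroup ℓ (tp Z c) := by
  rcases tp_cases hc with ⟨_, h⟩ | h
  · rw [h]
    exact hZ
  · exact (hc.1 _ h).1

theorem tp_inf {ℓ : ℕ} {Z N : Subgroup X} (hZN : Z ⊓ N = ⊥) {c : Finset (Subgroup X)}
    (hc : IsCh ℓ Z c) (hN : ∀ D ∈ c, D ⊓ N = ⊥) : tp Z c ⊓ N = ⊥ := by
  rcases tp_cases hc with ⟨_, h⟩ | h
  · rw [h]
    exact hZN
  · exact hN _ h

/-- the product of `Q` with an `ℓ`-subgroup of its centralizer -/
theorem sup_isPGroup {ℓ : ℕ} {N Q T : Subgroup X} (hQ : IsPGroup ℓ Q) (hT : IsPGroup ℓ T)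
    (hTC : T ≤ cN N Q) : IsPGroup ℓ (Q ⊔ T : Subgroup X) := by
  apply hQ.to_sup_of_normal_left' hT
  intro t ht
  rw [Subgroup.mem_normalizer_iff]
  intro q
  constructor
  · intro hq
    rw [← comm_of_le hTC q hq t ht, mul_inv_cancel_right]
    exact hq
  · intro hq
    have h := comm_of_le hTC _ hq t ht
    have h2 : q = t * q * t⁻¹ := by
      have h3 : t * q * t⁻¹ * t = t * (t * q * t⁻¹) := h
      have h4 : t * q = t * (t * q * t⁻¹) := by
        rwa [inv_mul_cancel_right] at h3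
      exact mul_left_cancel h4
    rw [h2]
    exact hq

end Basic

section Main

variable {X : Type*} [Group X] [Fintype X]

theorem tp_le {ℓ : ℕ} {Z N : Subgroup X} {σ c : Finset (Subgroup X)} (hσ : IsCh ℓ Z σ)
    (hcσ : ∀ D ∈ c, D ∈ σ ∧ D ⊓ N = ⊥) {R : Subgroup X} (hR : R ∈ σ) (hRN : R ⊓ N ≠ ⊥) :
    tp Z c ≤ R := by
  apply sup_le _ (hσ.1 R hR).2.le
  rw [Finset.sup_le_iff]
  intro D hD
  rcases hσ.total (hcσ D hD).1 hR with h | h
  · exact h
  · exfalso
    apply hRN
    rw [eq_bot_iff, ← (hcσ D hD).2]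
    exact inf_le_inf_right _ h

open Classical in
/-- the outer part of a chain -/
noncomputable def outer (N : Subgroup X) (σ : Finset (Subgroup X)) : Finset (Subgroup X) :=
  σ.filter (fun D => D ⊓ N = ⊥)

theorem mem_outer {N : Subgroup X} {σ : Finset (Subgroup X)} {D : Subgroup X} :
    D ∈ outer N σ ↔ D ∈ σ ∧ D ⊓ N = ⊥ := by
  classical
  rw [outer, Finset.mem_filter]

open Classical in
/-- the chains with outer part `c` -/
noncomputable def SC (ℓ : ℕ) (Z N : Subgroup X) (c : Finset (Subgroup X)) :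
    Finset (Finset (Subgroup X)) :=
  (Ch ℓ Z).filter (fun σ => outer N σ = c)

theorem mem_SC {ℓ : ℕ} {Z N : Subgroup X} {c σ : Finset (Subgroup X)} :
    σ ∈ SC ℓ Z N c ↔ IsCh ℓ Z σ ∧ outer N σ = c := by
  classical
  rw [SC, Finset.mem_filter, mem_Ch]

open Classical in
/-- the closed chains with outer part `c` -/
noncomputable def SCC (ℓ : ℕ) (Z N : Subgroup X) (c : Finset (Subgroup X)) :
    Finset (Finset (Subgroup X)) :=
  (SC ℓ Z N c).filter (fun σ => ∀ R ∈ σ, R ⊓ N ≠ ⊥ → fo N (tp Z c) R = R)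

theorem mem_SCC {ℓ : ℕ} {Z N : Subgroup X} {c σ : Finset (Subgroup X)} :
    σ ∈ SCC ℓ Z N c ↔ (IsCh ℓ Z σ ∧ outer N σ = c) ∧
      ∀ R ∈ σ, R ⊓ N ≠ ⊥ → fo N (tp Z c) R = R := by
  classical
  rw [SCC, Finset.mem_filter, mem_SC]

theorem toggle_sum {ℓ : ℕ} [Fact ℓ.Prime] {Z N : Subgroup X} [Z.Normal] [N.Normal]
    (hZN : Z ⊓ N = ⊥) (W : Subgroup X → ℚ) {c : Finset (Subgroup X)}
    (hc : IsCh ℓ Z c) (hN : ∀ D ∈ c, D ⊓ N = ⊥) :
    ∑ σ ∈ SC ℓ Z N c, (-1 : ℚ) ^ σ.card * W (stb σ) =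
      ∑ σ ∈ SCC ℓ Z N c, (-1 : ℚ) ^ σ.card * W (stb σ) := by
  classical
  have hQN : tp Z c ⊓ N = ⊥ := tp_inf hZN hc hN
  have hSCC : SCC ℓ Z N c =
      (SC ℓ Z N c).filter (fun σ => ∀ R ∈ σ, R ⊓ N ≠ ⊥ → fo N (tp Z c) R = R) := by
    ext σ
    rw [mem_SCC, Finset.mem_filter, mem_SC]
  rw [hSCC, ← Finset.sum_filter_add_sum_filter_not (SC ℓ Z N c)
    (fun σ => ∀ R ∈ σ, R ⊓ N ≠ ⊥ → fo N (tp Z c) R = R)]
  rw [add_eq_left]
  obtain ⟨C, hC⟩ : ∃ C : Finset (Finset (Subgroup X)),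
      C = (SC ℓ Z N c).filter
        (fun σ => ¬ ∀ R ∈ σ, R ⊓ N ≠ ⊥ → fo N (tp Z c) R = R) := ⟨_, rfl⟩
  obtain ⟨T, hT⟩ : ∃ T : Finset (Subgroup X) → Subgroup X,
      ∀ σ, T σ = (σ.filter (fun R => R ⊓ N ≠ ⊥ ∧ fo N (tp Z c) R ≠ R)).inf id :=
    ⟨_, fun _ => rfl⟩
  rw [← hC]
  have hmem : ∀ σ ∈ C, T σ ∈ σ ∧ T σ ⊓ N ≠ ⊥ ∧ fo N (tp Z c) (T σ) ≠ T σ := by
    intro σ hσ
    rw [hC, Finset.mem_filter, mem_SC] at hσ
    obtain ⟨⟨h1, _⟩, h2⟩ := hσ
    push Not at h2
    obtain ⟨D, hD, hD', hD''⟩ := h2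
    have h3 : T σ ∈ σ.filter (fun R => R ⊓ N ≠ ⊥ ∧ fo N (tp Z c) R ≠ R) := by
      rw [hT]
      apply inf_mem_of_chain
      · intro A hA B hB
        exact h1.total (Finset.mem_filter.mp hA).1 (Finset.mem_filter.mp hB).1
      · exact ⟨D, Finset.mem_filter.mpr ⟨hD, hD', hD''⟩⟩
    rw [Finset.mem_filter] at h3
    exact h3
  have hle : ∀ σ ∈ C, tp Z c ≤ T σ := by
    intro σ hσ
    obtain ⟨h1, h2, _⟩ := hmem σ hσ
    rw [hC, Finset.mem_filter, mem_SC] at hσ
    refine tp_le (N := N) hσ.1.1 (fun D hD => ?_) h1 h2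
    rw [← hσ.1.2] at hD
    exact mem_outer.mp hD
  have hEN : ∀ σ ∈ C, fo N (tp Z c) (T σ) ⊓ N ≠ ⊥ := by
    intro σ hσ h
    obtain ⟨h1, h2, _⟩ := hmem σ hσ
    have hle' := hle σ hσ
    rw [hC, Finset.mem_filter, mem_SC] at hσ
    have h3 : T σ ⊓ cN N (tp Z c) ≠ ⊥ := inf_C_ne_bot (hσ.1.1.1 _ h1).1 hle' h2
    apply h3
    rw [fo, sup_inf_N inf_le_right hQN] at h
    exact h
  have hins : ∀ σ, T (insert (fo N (tp Z c) (T σ)) σ) = T σ := by
    intro σ
    rw [hT (insert (fo N (tp Z c) (T σ)) σ), Finset.filter_insert, if_neg, ← hT]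
    rintro ⟨_, h⟩
    exact h (fo_fo hQN)
  have hers : ∀ σ, T (σ.erase (fo N (tp Z c) (T σ))) = T σ := by
    intro σ
    rw [hT (σ.erase (fo N (tp Z c) (T σ))), Finset.filter_erase, Finset.erase_eq_of_notMem, ← hT]
    intro h
    exact (Finset.mem_filter.mp h).2.2 (fo_fo hQN)
  apply sum_toggle C (fun σ => fo N (tp Z c) (T σ)) (fun σ => W (stb σ))
  · intro σ hσ hn
    obtain ⟨h1, h2, h3⟩ := hmem σ hσ
    have hle' := hle σ hσ
    have hEN' := hEN σ hσ
    rw [hC, Finset.mem_filter, mem_SC] at hσ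
    have hout : ∀ D, D ∈ c ↔ D ∈ σ ∧ D ⊓ N = ⊥ := by
      intro D
      rw [← hσ.1.2]
      exact mem_outer
    refine ⟨?_, by rw [hins], ?_⟩
    · rw [hC, Finset.mem_filter, mem_SC]
      refine ⟨⟨hσ.1.1.insert ?_ ?_ ?_, ?_⟩, ?_⟩
      · exact (hσ.1.1.1 _ h1).1.to_le (fo_le hle')
      · refine lt_of_le_of_ne (Z_le_tp.trans le_sup_left) ?_
        intro h4
        apply hEN'
        rw [← h4]
        exact hZN
      · intro D hD
        by_cases hDN : D ⊓ N = ⊥
        · left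
          exact (le_tp ((hout D).mpr ⟨hD, hDN⟩)).trans le_sup_left
        · rcases hσ.1.1.total hD h1 with h4 | h4
          · by_cases h5 : fo N (tp Z c) D = D
            · left
              rw [← h5]
              exact fo_mono h4
            · right
              refine (fo_le hle').trans ?_
              rw [hT]
              exact Finset.inf_le (f := id) (Finset.mem_filter.mpr ⟨hD, hDN, h5⟩)
          · right
            exact (fo_le hle').trans h4
      · have h5 := hσ.1.2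
        rw [outer] at h5 ⊢
        rw [Finset.filter_insert, if_neg hEN']
        exact h5
      · push Not
        exact ⟨T σ, Finset.mem_insert_of_mem h1, h2, h3⟩
    · change W (stb (insert (fo N (tp Z c) (T σ)) σ)) = W (stb σ)
      congr 1
      ext g
      rw [mem_stb, mem_stb]
      constructor
      · intro h E hE
        exact h E (Finset.mem_insert_of_mem hE)
      · intro h E hE
        rcases Finset.mem_insert.mp hE with rfl | hE
        · apply map_conj_fo _ (h _ h1)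
          apply map_conj_tp hc
          rw [mem_stb]
          intro D hD
          exact h D ((hout D).mp hD).1
        · exact h E hE
  · intro σ hσ hn
    obtain ⟨h1, h2, h3⟩ := hmem σ hσ
    have hEN' := hEN σ hσ
    rw [hC, Finset.mem_filter, mem_SC] at hσ
    refine ⟨?_, by rw [hers]⟩
    rw [hC, Finset.mem_filter, mem_SC]
    refine ⟨⟨hσ.1.1.subset (Finset.erase_subset _ _), ?_⟩, ?_⟩
    · have h5 := hσ.1.2
      rw [outer] at h5 ⊢
      rw [Finset.filter_erase, Finset.erase_eq_of_notMem]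
      · exact h5
      · intro h
        exact hEN' (Finset.mem_filter.mp h).2
    · push Not
      exact ⟨T σ, Finset.mem_erase.mpr ⟨fun h => h3 h.symm, h1⟩, h2, h3⟩

theorem closed_sum {ℓ : ℕ} [Fact ℓ.Prime] {Z N : Subgroup X} [Z.Normal] [N.Normal]
    (hZ : IsPGroup ℓ Z) (hZN : Z ⊓ N = ⊥) (W : Subgroup X → ℚ) {c : Finset (Subgroup X)}
    (hc : IsCh ℓ Z c) (hN : ∀ D ∈ c, D ⊓ N = ⊥) :
    ∑ σ ∈ SCC ℓ Z N c, (-1 : ℚ) ^ σ.card * W (stb σ) =
      (-1 : ℚ) ^ c.card * innerS ℓ Z N W c := by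
  classical
  have hQN : tp Z c ⊓ N = ⊥ := tp_inf hZN hc hN
  have hQp : IsPGroup ℓ (tp Z c) := tp_isPGroup hZ hc
  have h := sum_Ch_range (i := (cN N (tp Z c)).subtype) Subtype.coe_injective ℓ
    (⊥ : Subgroup (cN N (tp Z c))) (fun t => (-1 : ℚ) ^ t.card * W (stb c ⊓ stb t))
  have h2 : innerS ℓ Z N W c = ∑ τ ∈ Ch ℓ (⊥ : Subgroup (cN N (tp Z c))),
      (-1 : ℚ) ^ (mapCh (cN N (tp Z c)).subtype τ).card *
        W (stb c ⊓ stb (mapCh (cN N (tp Z c)).subtype τ)) := by
    unfold innerS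
    refine Finset.sum_congr rfl fun τ _ => ?_
    rw [card_mapCh Subtype.coe_injective]
  rw [h2, ← h, Finset.mul_sum]
  have hmemT : ∀ t : Finset (Subgroup X),
      t ∈ (Ch ℓ ((⊥ : Subgroup (cN N (tp Z c))).map (cN N (tp Z c)).subtype)).filter
        (fun σ => ∀ D ∈ σ, D ≤ (cN N (tp Z c)).subtype.range) ↔
      IsCh ℓ ⊥ t ∧ ∀ T ∈ t, T ≤ cN N (tp Z c) := by
    intro t
    rw [Finset.mem_filter, mem_Ch, Subgroup.map_bot, Subgroup.range_subtype]
  symm
  apply Finset.sum_bij' (fun t _ => c ∪ t.image (fun T => tp Z c ⊔ T))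
    (fun σ _ => (σ.filter (fun D => ¬ D ⊓ N = ⊥)).image (fun R => R ⊓ cN N (tp Z c)))
  · intro t ht
    rw [hmemT] at ht
    obtain ⟨ht1, ht2⟩ := ht
    have hnew : ∀ T ∈ t, (tp Z c ⊔ T) ⊓ N ≠ ⊥ := by
      intro T hT
      rw [sup_inf_N (ht2 T hT) hQN]
      exact (ht1.1 T hT).2.ne'
    rw [mem_SCC]
    refine ⟨⟨⟨?_, ?_⟩, ?_⟩, ?_⟩
    · intro D hD
      rcases Finset.mem_union.mp hD with hD | hD
      · exact hc.1 D hD
      · obtain ⟨T, hT, rfl⟩ := Finset.mem_image.mp hD
        refine ⟨sup_isPGroup hQp (ht1.1 T hT).1 (ht2 T hT), ?_⟩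
        refine lt_of_le_of_ne (Z_le_tp.trans le_sup_left) ?_
        intro h4
        apply hnew T hT
        rw [← h4]
        exact hZN
    · intro A hA B hB _
      rw [Finset.mem_coe, Finset.mem_union] at hA hB
      rcases hA with hA | hA <;> rcases hB with hB | hB
      · exact hc.total hA hB
      · obtain ⟨T, hT, rfl⟩ := Finset.mem_image.mp hB
        exact Or.inl ((le_tp hA).trans le_sup_left)
      · obtain ⟨T, hT, rfl⟩ := Finset.mem_image.mp hA
        exact Or.inr ((le_tp hB).trans le_sup_left)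
      · obtain ⟨T, hT, rfl⟩ := Finset.mem_image.mp hA
        obtain ⟨T', hT', rfl⟩ := Finset.mem_image.mp hB
        exact (ht1.total hT hT').imp (fun h => sup_le_sup_left h _)
          (fun h => sup_le_sup_left h _)
    · ext D
      rw [mem_outer, Finset.mem_union]
      constructor
      · rintro ⟨hD | hD, hDN⟩
        · exact hD
        · obtain ⟨T, hT, rfl⟩ := Finset.mem_image.mp hD
          exact absurd hDN (hnew T hT)
      · intro hD
        exact ⟨Or.inl hD, hN D hD⟩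
    · intro R hR hRN
      rcases Finset.mem_union.mp hR with hR | hR
      · exact absurd (hN R hR) hRN
      · obtain ⟨T, hT, rfl⟩ := Finset.mem_image.mp hR
        rw [fo, sup_inf_C (ht2 T hT) hQN]
  · intro σ hσ
    rw [mem_SCC] at hσ
    obtain ⟨⟨h1, h3⟩, h4⟩ := hσ
    have hout : ∀ D, D ∈ c ↔ D ∈ σ ∧ D ⊓ N = ⊥ := by
      intro D
      rw [← h3]
      exact mem_outer
    rw [hmemT]
    refine ⟨⟨?_, ?_⟩, ?_⟩
    · intro T hT
      obtain ⟨R, hR, rfl⟩ := Finset.mem_image.mp hT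
      obtain ⟨hR, hRN⟩ := Finset.mem_filter.mp hR
      refine ⟨(h1.1 R hR).1.to_inf_left, bot_lt_iff_ne_bot.mpr ?_⟩
      exact inf_C_ne_bot (h1.1 R hR).1 (tp_le h1 (fun D hD => (hout D).mp hD) hR hRN) hRN
    · intro A hA B hB _
      rw [Finset.mem_coe] at hA hB
      obtain ⟨R, hR, rfl⟩ := Finset.mem_image.mp hA
      obtain ⟨R', hR', rfl⟩ := Finset.mem_image.mp hB
      exact (h1.total (Finset.mem_filter.mp hR).1 (Finset.mem_filter.mp hR').1).imp
        (fun h => inf_le_inf_right _ h) (fun h => inf_le_inf_right _ h)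
    · intro T hT
      obtain ⟨R, hR, rfl⟩ := Finset.mem_image.mp hT
      exact inf_le_right
  · intro t ht
    rw [hmemT] at ht
    obtain ⟨ht1, ht2⟩ := ht
    ext T
    rw [Finset.mem_image]
    constructor
    · rintro ⟨R, hR, rfl⟩
      obtain ⟨hR, hRN⟩ := Finset.mem_filter.mp hR
      rcases Finset.mem_union.mp hR with hR | hR
      · exact absurd (hN R hR) hRN
      · obtain ⟨T, hT, rfl⟩ := Finset.mem_image.mp hR
        rw [sup_inf_C (ht2 T hT) hQN]
        exact hT
    · intro hT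
      refine ⟨tp Z c ⊔ T, Finset.mem_filter.mpr ⟨Finset.mem_union_right _
        (Finset.mem_image_of_mem _ hT), ?_⟩, sup_inf_C (ht2 T hT) hQN⟩
      rw [sup_inf_N (ht2 T hT) hQN]
      exact (ht1.1 T hT).2.ne'
  · intro σ hσ
    rw [mem_SCC] at hσ
    obtain ⟨⟨h1, h3⟩, h4⟩ := hσ
    have hout : ∀ D, D ∈ c ↔ D ∈ σ ∧ D ⊓ N = ⊥ := by
      intro D
      rw [← h3]
      exact mem_outer
    ext D
    rw [Finset.mem_union, Finset.mem_image]
    constructor
    · rintro (hD | ⟨T, hT, rfl⟩)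
      · exact ((hout D).mp hD).1
      · obtain ⟨R, hR, rfl⟩ := Finset.mem_image.mp hT
        obtain ⟨hR, hRN⟩ := Finset.mem_filter.mp hR
        have h5 := h4 R hR hRN
        rw [fo] at h5
        rw [h5]
        exact hR
    · intro hD
      by_cases hDN : D ⊓ N = ⊥
      · exact Or.inl ((hout D).mpr ⟨hD, hDN⟩)
      · right
        refine ⟨D ⊓ cN N (tp Z c), Finset.mem_image_of_mem _
          (Finset.mem_filter.mpr ⟨hD, hDN⟩), ?_⟩
        exact h4 D hD hDN
  · intro t ht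
    rw [hmemT] at ht
    obtain ⟨ht1, ht2⟩ := ht
    have hdisj : Disjoint c (t.image (fun T => tp Z c ⊔ T)) := by
      rw [Finset.disjoint_left]
      intro D hD hD'
      obtain ⟨T, hT, rfl⟩ := Finset.mem_image.mp hD'
      have h5 := hN _ hD
      rw [sup_inf_N (ht2 T hT) hQN] at h5
      exact (ht1.1 T hT).2.ne' h5
    have hinj : Set.InjOn (fun T => tp Z c ⊔ T) (t : Set (Subgroup X)) := by
      intro T hT T' hT' h5
      have h6 := congrArg (fun R => R ⊓ N) h5
      simp only at h6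
      rwa [sup_inf_N (ht2 T hT) hQN, sup_inf_N (ht2 T' hT') hQN] at h6
    have hstb : stb (c ∪ t.image (fun T => tp Z c ⊔ T)) = stb c ⊓ stb t := by
      ext g
      rw [Subgroup.mem_inf]
      constructor
      · intro hg
        rw [mem_stb] at hg
        refine ⟨mem_stb.mpr fun D hD => hg D (Finset.mem_union_left _ hD),
          mem_stb.mpr fun T hT => ?_⟩
        have h5 := hg _ (Finset.mem_union_right _
          (Finset.mem_image_of_mem (fun T => tp Z c ⊔ T) hT))
        have h6 := sup_inf_N (ht2 T hT) hQN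
        rw [← h6, map_inf_conj, map_conj_normal g N]
        exact congrArg (fun R => R ⊓ N) h5
      · rintro ⟨hg1, hg2⟩
        rw [mem_stb]
        intro D hD
        rcases Finset.mem_union.mp hD with hD | hD
        · exact mem_stb.mp hg1 D hD
        · obtain ⟨T, hT, rfl⟩ := Finset.mem_image.mp hD
          rw [Subgroup.map_sup, map_conj_tp hc hg1, mem_stb.mp hg2 T hT]
    rw [hstb, Finset.card_union_of_disjoint hdisj, Finset.card_image_of_injOn hinj, pow_add]
    ring

end Main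

end SPLIT

open _root_.Pool.Agent.DP.SPLIT in
/-- MODULE DP_SPLIT -/
theorem SPLIT_thm : Stmt_SPLIT := by
  classical
  intro X _ _ ℓ _ Z N _ _ hZ hZN W
  have hmaps : ∀ σ ∈ Ch ℓ Z, outer N σ ∈ OutC ℓ Z N := by
    intro σ hσ
    rw [OutC, Finset.mem_filter, mem_Ch]
    refine ⟨(mem_Ch.mp hσ).subset (Finset.filter_subset _ _), fun D hD => ?_⟩
    exact (mem_outer.mp hD).2
  rw [← Finset.sum_fiberwise_of_maps_to hmaps]
  refine Finset.sum_congr rfl fun c hc => ?_
  rw [OutC, Finset.mem_filter, mem_Ch] at hc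
  have h1 : (Ch ℓ Z).filter (fun σ => outer N σ = c) = SC ℓ Z N c := by
    ext σ
    rw [mem_SC, Finset.mem_filter, mem_Ch]
  rw [h1, toggle_sum hZN W hc.1 hc.2, closed_sum hZ hZN W hc.1 hc.2]

end Pool.Agent.DP


end

section

/-!
# CORE: the inner sum vanishes if the centralizer has a normal `ℓ`-subgroup
-/

namespace Pool.Agent.DP

open Pool.Agent.Lib_helper13 Representation
open Pool.Agent.Lib_helper13.Dade (pCore DadeHolds)

namespace CORE

section Norm

variable {X : Type*} [Group X]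

theorem map_sup_id (g : X) (s : Finset (Subgroup X)) :
    (s.sup id).map (MulAut.conj g).toMonoidHom =
      s.sup (fun D => D.map (MulAut.conj g).toMonoidHom) := by
  classical
  induction s using Finset.induction_on with
  | empty => rw [Finset.sup_empty, Finset.sup_empty, Subgroup.map_bot]
  | insert a s _ ih =>
    rw [Finset.sup_insert, Finset.sup_insert, Subgroup.map_sup, ih]
    rfl

theorem map_normal (g : X) (Z : Subgroup X) [Z.Normal] :
    Z.map (MulAut.conj g).toMonoidHom = Z := by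
  have := Subgroup.mem_normalizer_iff_map_conj_eq.mp
    (show g ∈ Subgroup.normalizer (Z : Set X) by
      rw [Subgroup.normalizer_eq_top_iff.mpr inferInstance]
      trivial)
  exact this

theorem norm_tp {Z : Subgroup X} [Z.Normal] {c : Finset (Subgroup X)} {g : X}
    (hg : g ∈ stb c) : (tp Z c).map (MulAut.conj g).toMonoidHom = tp Z c := by
  rw [mem_stb] at hg
  rw [tp, Subgroup.map_sup, map_normal g Z, map_sup_id]
  congr 1
  exact Finset.sup_congr rfl fun D hD => hg D hD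

theorem norm_cN_le {N Q : Subgroup X} [N.Normal] {g : X}
    (hg : Q.map (MulAut.conj g).toMonoidHom = Q) :
    (cN N Q).map (MulAut.conj g).toMonoidHom ≤ cN N Q := by
  rintro _ ⟨y, hy, rfl⟩
  rw [SetLike.mem_coe, cN, Subgroup.mem_inf, Subgroup.mem_centralizer_iff] at hy
  change g * y * g⁻¹ ∈ cN N Q
  rw [cN, Subgroup.mem_inf, Subgroup.mem_centralizer_iff]
  refine ⟨(inferInstance : N.Normal).conj_mem y hy.1 g, ?_⟩
  intro q hq
  have hq' : q ∈ Q.map (MulAut.conj g).toMonoidHom := by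
    rw [hg]
    exact hq
  obtain ⟨q', hq1, rfl⟩ := hq'
  have h := hy.2 q' hq1
  change g * q' * g⁻¹ * (g * y * g⁻¹) = g * y * g⁻¹ * (g * q' * g⁻¹)
  have h1 : g * q' * g⁻¹ * (g * y * g⁻¹) = g * (q' * y) * g⁻¹ := by group
  have h2 : g * y * g⁻¹ * (g * q' * g⁻¹) = g * (y * q') * g⁻¹ := by group
  rw [h1, h2, h]

theorem norm_cN {N Q : Subgroup X} [N.Normal] {g : X}
    (hg : Q.map (MulAut.conj g).toMonoidHom = Q) :
    (cN N Q).map (MulAut.conj g).toMonoidHom = cN N Q := by
  apply le_antisymm (norm_cN_le hg)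
  have hg' : Q.map (MulAut.conj g⁻¹).toMonoidHom = Q := by
    conv_lhs => rw [← hg]
    rw [Subgroup.map_map]
    convert Subgroup.map_id Q
    ext x
    change g⁻¹ * (g * x * g⁻¹) * g⁻¹⁻¹ = x
    group
  have h := Subgroup.map_mono (f := (MulAut.conj g).toMonoidHom) (norm_cN_le (N := N) hg')
  refine le_trans (le_of_eq ?_) h
  rw [Subgroup.map_map]
  symm
  convert Subgroup.map_id (cN N Q)
  ext x
  change g * (g⁻¹ * x * g⁻¹⁻¹) * g⁻¹ = x
  group

/-- Conjugation by `g` as an automorphism of a subgroup normalized by `g`. -/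
theorem map_core {ℓ : ℕ} {C : Subgroup X} {g : X}
    (hg : C.map (MulAut.conj g).toMonoidHom = C) :
    ((pCore ℓ C).map C.subtype).map (MulAut.conj g).toMonoidHom = (pCore ℓ C).map C.subtype := by
  let e : C ≃* C := ((MulAut.conj g).subgroupMap C).trans (MulEquiv.subgroupCongr hg)
  have h1 : (MulAut.conj g).toMonoidHom.comp C.subtype = C.subtype.comp e.toMonoidHom := by
    ext x
    rfl
  rw [Subgroup.map_map, h1, ← Subgroup.map_map, pCore_equiv]

end Norm

end CORE

open Classical in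
theorem CORE_thm : Stmt_CORE := by
  intro X _ _ ℓ _ Z N _ _ W c hc hcore
  unfold innerS
  set Q := tp Z c with hQ
  set C := cN N Q with hC
  set O : Subgroup C := pCore ℓ C with hO'
  have hOn : O.Normal := pCore_normal ℓ
  have hO : IsPGroup ℓ O := isPGroup_pCore ℓ
  have hZO : (⊥ : Subgroup C) < O := bot_lt_iff_ne_bot.mpr hcore
  let E : Finset (Subgroup C) → Subgroup C := fun σ =>
    ((σ.filter (fun D => ¬ O ≤ D)).sup id) ⊔ O
  have hOE : ∀ σ, O ≤ E σ := fun σ => le_sup_right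
  have hE1 : ∀ σ, E (insert (E σ) σ) = E σ := by
    intro σ
    have : (insert (E σ) σ).filter (fun D => ¬ O ≤ D) = σ.filter (fun D => ¬ O ≤ D) := by
      rw [Finset.filter_insert, if_neg (not_not.mpr (hOE σ))]
    change ((((insert (E σ) σ).filter (fun D => ¬ O ≤ D))).sup id) ⊔ O = _
    rw [this]
  have hE2 : ∀ σ, E (σ.erase (E σ)) = E σ := by
    intro σ
    have : (σ.erase (E σ)).filter (fun D => ¬ O ≤ D) = σ.filter (fun D => ¬ O ≤ D) := by
      rw [Finset.filter_erase, Finset.erase_eq_of_notMem]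
      intro h
      exact (Finset.mem_filter.mp h).2 (hOE σ)
    change ((((σ.erase (E σ)).filter (fun D => ¬ O ≤ D))).sup id) ⊔ O = _
    rw [this]
  have hcomp : ∀ σ, IsCh ℓ (⊥ : Subgroup C) σ → ∀ D ∈ σ, D ≤ E σ ∨ E σ ≤ D := by
    intro σ hσ D hD
    by_cases h : O ≤ D
    · right
      apply sup_le _ h
      rw [Finset.sup_le_iff]
      intro D' hD'
      rw [Finset.mem_filter] at hD'
      rcases hσ.total hD'.1 hD with h1 | h1
      · exact h1
      · exact absurd (h.trans h1) hD'.2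
    · left
      refine le_trans ?_ le_sup_left
      exact Finset.le_sup (f := id) (Finset.mem_filter.mpr ⟨hD, h⟩)
  have hEp : ∀ σ, IsCh ℓ (⊥ : Subgroup C) σ → IsPGroup ℓ (E σ) := by
    intro σ hσ
    apply IsPGroup.to_sup_of_normal_right _ hO
    rcases (σ.filter (fun D => ¬ O ≤ D)).eq_empty_or_nonempty with h | h
    · rw [h, Finset.sup_empty]
      exact IsPGroup.of_bot
    · obtain ⟨T, hT, hT'⟩ := (hσ.subset (Finset.filter_subset _ _)).exists_top h
      have : (σ.filter (fun D => ¬ O ≤ D)).sup id = T := by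
        apply le_antisymm
        · rw [Finset.sup_le_iff]
          exact hT'
        · exact Finset.le_sup (f := id) hT
      rw [this]
      exact (hσ.1 T (Finset.mem_filter.mp hT).1).1
  have hmap : ∀ (g : X), g ∈ stb c → ∀ σ : Finset (Subgroup C),
      (∀ D ∈ σ, (D.map C.subtype).map (MulAut.conj g).toMonoidHom = D.map C.subtype) →
      ((E σ).map C.subtype).map (MulAut.conj g).toMonoidHom = (E σ).map C.subtype := by
    intro g hg σ h
    have hsup : ∀ s : Finset (Subgroup C), (∀ D ∈ s,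
        (D.map C.subtype).map (MulAut.conj g).toMonoidHom = D.map C.subtype) →
        ((s.sup id).map C.subtype).map (MulAut.conj g).toMonoidHom =
          (s.sup id).map C.subtype := by
      intro s
      induction s using Finset.induction_on with
      | empty =>
        intro _
        rw [Finset.sup_empty, Subgroup.map_bot, Subgroup.map_bot]
      | insert a s _ ih =>
        intro h'
        rw [Finset.sup_insert, Subgroup.map_sup, Subgroup.map_sup,
          ih (fun D hD => h' D (Finset.mem_insert_of_mem hD)), id_eq,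
          h' a (Finset.mem_insert_self _ _)]
    change ((((σ.filter (fun D => ¬ O ≤ D)).sup id) ⊔ O).map C.subtype).map _ =
      (((σ.filter (fun D => ¬ O ≤ D)).sup id) ⊔ O).map C.subtype
    rw [Subgroup.map_sup, Subgroup.map_sup,
      hsup _ (fun D hD => h D (Finset.mem_filter.mp hD).1),
      CORE.map_core (CORE.norm_cN (CORE.norm_tp hg))]
  refine sum_toggle (Ch ℓ (⊥ : Subgroup C)) E (fun τ => W (stb c ⊓ stb (mapCh C.subtype τ)))
    ?_ ?_
  · intro σ hσ hE
    rw [mem_Ch] at hσ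
    refine ⟨?_, hE1 σ, ?_⟩
    · rw [mem_Ch]
      exact hσ.insert (hEp σ hσ) (lt_of_lt_of_le hZO (hOE σ)) (hcomp σ hσ)
    · congr 1
      ext g
      rw [Subgroup.mem_inf, Subgroup.mem_inf]
      refine and_congr_right fun hg => ?_
      rw [mem_stb, mem_stb]
      constructor
      · intro h D hD
        obtain ⟨D', hD', rfl⟩ := mem_mapCh.mp hD
        exact h _ (mem_mapCh.mpr ⟨D', Finset.mem_insert_of_mem hD', rfl⟩)
      · intro h D hD
        obtain ⟨D', hD', rfl⟩ := mem_mapCh.mp hD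
        rcases Finset.mem_insert.mp hD' with rfl | hD''
        · exact hmap g hg σ fun D hD => h _ (mem_mapCh.mpr ⟨D, hD, rfl⟩)
        · exact h _ (mem_mapCh.mpr ⟨D', hD'', rfl⟩)
  · intro σ hσ hE
    rw [mem_Ch] at hσ
    refine ⟨?_, hE2 σ⟩
    rw [mem_Ch]
    exact hσ.subset (Finset.erase_subset _ _)

end Pool.Agent.DP


end

section

/-!
# Module PSA: the inner sum and the chain sum
-/

namespace Pool.Agent.DPM

open Pool.Agent.DP Pool.Agent.DPC Pool.Agent.Lib_helper13 Representation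
open Pool.Agent.Lib_helper13.Dade (pCore DadeHolds dadeSum)

theorem psa_innerS_empty {Y : Type} [Group Y] [Fintype Y] (𝔐 : Ideal (integralClosure ℤ ℂ))
    (ℓ d : ℕ) (Z N : Subgroup Y) (ω : Y → (integralClosure ℤ ℂ) ⧸ 𝔐)
    (h : cN N (tp Z (∅ : Finset (Subgroup Y))) = N) :
    innerS ℓ Z N (WW 𝔐 ℓ d ω) ∅ = II 𝔐 ℓ d N (MonoidHom.id Y) ω := by
  unfold innerS II
  generalize cN N (tp Z (∅ : Finset (Subgroup Y))) = N' at h
  subst h
  refine Finset.sum_congr rfl fun τ _ => ?_
  rw [stb_empty, top_inf_eq]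
  rfl

theorem psa_tp_empty {Y : Type} [Group Y] (Z : Subgroup Y) :
    tp Z (∅ : Finset (Subgroup Y)) = Z := by
  unfold tp
  rw [Finset.sup_empty, bot_sup_eq]

theorem psa_cN_center {Y : Type} [Group Y] (Z N : Subgroup Y) (hZ : Z ≤ Subgroup.center Y) :
    cN N (tp Z (∅ : Finset (Subgroup Y))) = N := by
  rw [psa_tp_empty]
  unfold DP.cN
  refine inf_eq_left.mpr fun x _ => ?_
  rw [Subgroup.mem_centralizer_iff]
  intro z hz
  exact (Subgroup.mem_center_iff.mp (hZ hz) x).symm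

theorem PSA_thm : Stmt_PSA := by
  intro Y _ _ 𝔐 ℓ _ N _ d ω
  refine ⟨fun h => ?_, fun Z hZc hZp hZN hne => ?_⟩
  · by_contra hcon
    have hc : cN N (tp (⊥ : Subgroup Y) (∅ : Finset (Subgroup Y))) = N :=
      psa_cN_center ⊥ N bot_le
    have h1 := CORE_thm Y ℓ (⊥ : Subgroup Y) N (WW 𝔐 ℓ d ω) ∅ (isCh_empty ℓ _)
      (by rw [hc]; exact hcon)
    rw [psa_innerS_empty 𝔐 ℓ d ⊥ N ω hc] at h1
    exact h h1
  · have hZn : Z.Normal := by
      refine ⟨fun z hz g => ?_⟩
      have h2 := Subgroup.mem_center_iff.mp (hZc hz) g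
      rw [h2, mul_inv_cancel_right]
      exact hz
    have hs := SPLIT_thm Y ℓ Z N hZp hZN (WW 𝔐 ℓ d ω)
    have hK : KK 𝔐 ℓ d Z ω = ∑ σ ∈ Ch ℓ Z, (-1 : ℚ) ^ σ.card * WW 𝔐 ℓ d ω (stb σ) := rfl
    by_contra hcon
    push Not at hcon
    apply hne
    rw [hK, hs, ← psa_innerS_empty 𝔐 ℓ d Z N ω (psa_cN_center Z N hZc)]
    have hmem : (∅ : Finset (Subgroup Y)) ∈ OutC ℓ Z N := by
      classical
      unfold OutC
      rw [Finset.mem_filter]
      exact ⟨mem_Ch.mpr (isCh_empty ℓ Z), by simp⟩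
    rw [Finset.sum_eq_single_of_mem ∅ hmem]
    · simp
    · intro c hc hc0
      rw [hcon c hc (Finset.nonempty_iff_ne_empty.mpr hc0), mul_zero]

end Pool.Agent.DPM


end

section

/-!
# SPA: decomposition of the partial sum
-/

namespace Pool.Agent.DPC

open Pool.Agent.DP Pool.Agent.Lib_helper13 Representation
open Pool.Agent.Lib_helper13.Dade (pCore DadeHolds dadeSum)

namespace SPA

/-- The inner sum through an embedding whose range is the centralizer. -/
theorem innerS_eq {X H : Type} [Group X] [Fintype X] [Group H] [Fintype H] (ℓ : ℕ)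
    (Z N : Subgroup X) (W : Subgroup X → ℚ) (c : Finset (Subgroup X)) (f : H →* X)
    (hf : Function.Injective f) (hr : f.range = cN N (tp Z c)) :
    innerS ℓ Z N W c = ∑ τ ∈ Ch ℓ (⊥ : Subgroup H), (-1 : ℚ) ^ τ.card *
      W (stb c ⊓ stb (mapCh f τ)) := by
  classical
  let e : H ≃* cN N (tp Z c) := (MonoidHom.ofInjective hf).trans (MulEquiv.subgroupCongr hr)
  have he : (cN N (tp Z c)).subtype.comp e.toMonoidHom = f := by
    ext x
    rfl
  rw [innerS]
  have hb : (⊥ : Subgroup (cN N (tp Z c))) = (⊥ : Subgroup H).map e.toMonoidHom :=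
    (Subgroup.map_bot _).symm
  rw [hb, sum_Ch_equiv e ℓ ⊥]
  refine Finset.sum_congr rfl fun τ _ => ?_
  rw [card_mapCh e.injective, mapCh_comp, he]

/-- The stabilizer of a chain, seen in a group acting by conjugation. -/
theorem mem_stx {G1 S B : Type} [Group G1] [Group S] [Group B] (i : G1 →* B)
    (hi : Function.Injective i) (κ1 : S →* MulAut G1) (j : S →* B)
    (h : ∀ s a, i (κ1 s a) = j s * i a * (j s)⁻¹) (σ : Finset (Subgroup G1)) (s : S) :
    s ∈ Stx κ1 σ (fun _ => 0) ↔ j s ∈ stb (mapCh i σ) := by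
  have h1 : ∀ D : Subgroup G1, (D.map i).map (MulAut.conj (j s)).toMonoidHom =
      (D.map (κ1 s).toMonoidHom).map i := by
    intro D
    rw [Subgroup.map_map, Subgroup.map_map]
    congr 1
    ext a
    exact (h s a).symm
  rw [mem_stb]
  constructor
  · intro hs D' hD'
    obtain ⟨D, hD, rfl⟩ := mem_mapCh.mp hD'
    rw [h1, hs.1 D hD]
  · intro hs
    refine ⟨fun D hD => ?_, fun _ => rfl⟩
    have h2 := hs (D.map i) (mem_mapCh.mpr ⟨D, hD, rfl⟩)
    rw [h1] at h2
    exact Subgroup.map_injective hi h2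

theorem tp_eq {X : Type} [Group X] {ℓ : ℕ} {c : Finset (Subgroup X)}
    (hc : IsCh ℓ (⊥ : Subgroup X) c) (hne : c.Nonempty) :
    ∃ E ∈ c, (∀ D ∈ c, D ≤ E) ∧ tp ⊥ c = E := by
  obtain ⟨E, hE, hE'⟩ := hc.exists_top hne
  refine ⟨E, hE, hE', ?_⟩
  rw [tp, sup_bot_eq]
  apply le_antisymm
  · rw [Finset.sup_le_iff]
    exact hE'
  · exact Finset.le_sup (f := id) hE

end SPA

theorem SPA_thm (h1 : Stmt_MIX) : Stmt_SPA := by
  classical
  intro G B C _ _ _ _ _ 𝔐 ℓ _ ι κ ρ hL e ω hne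
  by_cases hKK : KK 𝔐 ℓ e (⊥ : Subgroup B) ω ≠ 0
  · exact Or.inl hKK
  push Not at hKK
  right
  have hN : (ι.range).Normal := by
    constructor
    rintro _ ⟨a, rfl⟩ y
    rw [← hL.cl.act]
    exact ⟨_, rfl⟩
  have hsplit := SPLIT_thm B ℓ ⊥ ι.range IsPGroup.of_bot (bot_inf_eq _) (WW 𝔐 ℓ e ω)
  have hz : ∑ σ ∈ Ch ℓ (⊥ : Subgroup B), (-1 : ℚ) ^ σ.card * WW 𝔐 ℓ e ω (stb σ) = 0 := hKK
  rw [hz] at hsplit
  have hem : (∅ : Finset (Subgroup B)) ∈ OutC ℓ ⊥ ι.range := by
    rw [OutC, Finset.mem_filter, mem_Ch]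
    exact ⟨isCh_empty ℓ _, by simp⟩
  have hE0 : innerS ℓ ⊥ ι.range (WW 𝔐 ℓ e ω) ∅ = PSm 𝔐 ℓ κ e ω := by
    rw [SPA.innerS_eq ℓ ⊥ ι.range (WW 𝔐 ℓ e ω) ∅ ι hL.cl.inj, PSm]
    · refine Finset.sum_congr rfl fun σ _ => ?_
      congr 2
      ext b
      rw [stb_empty, top_inf_eq]
      exact (SPA.mem_stx ι hL.cl.inj κ (MonoidHom.id B) hL.cl.act σ b).symm
    · ext b
      rw [DP.cN, tp, Finset.sup_empty, sup_bot_eq, Subgroup.mem_inf]
      constructor
      · intro hb
        refine ⟨hb, ?_⟩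
        rw [Subgroup.mem_centralizer_iff]
        intro x hx
        have hx1 : x = 1 := hx
        rw [hx1, one_mul, mul_one]
      · exact fun hb => hb.1
  have hex : ∃ c ∈ OutC ℓ ⊥ ι.range, c ≠ ∅ ∧
      innerS ℓ ⊥ ι.range (WW 𝔐 ℓ e ω) c ≠ 0 := by
    by_contra hcon
    rw [Finset.sum_eq_single ∅] at hsplit
    · rw [Finset.card_empty, pow_zero, one_mul, hE0] at hsplit
      exact hne hsplit.symm
    · intro c hc hc0
      have h2 : innerS ℓ ⊥ ι.range (WW 𝔐 ℓ e ω) c = 0 := by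
        by_contra h3
        exact hcon ⟨c, hc, hc0, h3⟩
      rw [h2, mul_zero]
    · intro hcon'
      exact absurd hem hcon'
  obtain ⟨c, hcO, hc0, hcne⟩ := hex
  rw [OutC, Finset.mem_filter, mem_Ch] at hcO
  obtain ⟨hc, hcN⟩ := hcO
  obtain ⟨E, hE, hEtop, htp⟩ := SPA.tp_eq hc (Finset.nonempty_iff_ne_empty.mpr hc0)
  have hEN : E ⊓ ι.range = ⊥ := hcN E hE
  have hstb : stb c = Subgroup.centralizer (E : Set B) := by
    ext x
    rw [mem_stb']
    constructor
    · intro hx
      rw [Subgroup.mem_centralizer_iff]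
      intro y hy
      have hy' : y ∈ E := hy
      have h2 : x * y * x⁻¹ * y⁻¹ ∈ E := E.mul_mem ((hx E hE y).mp hy') (E.inv_mem hy')
      have h3 : ρ (x * y * x⁻¹ * y⁻¹) = 1 := by
        have := hL.cyc
        letI : CommGroup C := IsCyclic.commGroup
        rw [map_mul, map_mul, map_mul, map_inv, map_inv, mul_comm (ρ x) (ρ y)]
        group
      have h4 : x * y * x⁻¹ * y⁻¹ ∈ E ⊓ ι.range := ⟨h2, (hL.cl.ker _).mp h3⟩
      rw [hEN, Subgroup.mem_bot] at h4
      have h5 : x * y * x⁻¹ = y := mul_inv_eq_one.mp h4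
      exact (mul_inv_eq_iff_eq_mul.mp h5).symm
    · intro hx D hD y
      rw [Subgroup.mem_centralizer_iff] at hx
      constructor
      · intro hy
        have h2 : y * x = x * y := hx y (hEtop D hD hy)
        rw [← h2, mul_inv_cancel_right]
        exact hy
      · intro hy
        have h2 := hx (x * y * x⁻¹) (hEtop D hD hy)
        have h3 : x * y * x⁻¹ = y := by
          have h4 : x * y = x * (x * y * x⁻¹) := by
            rw [← h2]
            group
          have h5 : y = x * y * x⁻¹ := mul_left_cancel h4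
          exact h5.symm
        rwa [h3] at hy
  refine ⟨E, ?_, (hc.1 E hE).1, hEN, ?_⟩
  · intro hE1
    have h2 := (hc.1 E hE).2
    rw [hE1] at h2
    exact lt_irrefl _ h2
  intro κE hκE
  -- the embedding of the fixed points
  have hfi : Function.Injective (ι.comp (FX κ E).subtype) :=
    hL.cl.inj.comp Subtype.val_injective
  have hfr : (ι.comp (FX κ E).subtype).range = cN ι.range (tp ⊥ c) := by
    rw [htp]
    ext b
    rw [DP.cN, Subgroup.mem_inf]
    constructor
    · rintro ⟨g, rfl⟩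
      refine ⟨⟨(g : G), rfl⟩, ?_⟩
      rw [Subgroup.mem_centralizer_iff]
      intro y hy
      have h2 := (mem_FX.mp g.2) y hy
      have h3 := hL.cl.act y (g : G)
      rw [h2] at h3
      change y * ι (g : G) = ι (g : G) * y
      exact (mul_inv_eq_iff_eq_mul.mp h3.symm)
    · rintro ⟨⟨g, rfl⟩, hb⟩
      rw [Subgroup.mem_centralizer_iff] at hb
      refine ⟨⟨g, mem_FX.mpr ?_⟩, rfl⟩
      intro y hy
      apply hL.cl.inj
      rw [hL.cl.act, hb y hy, mul_inv_cancel_right]
  rw [SPA.innerS_eq ℓ ⊥ ι.range (WW 𝔐 ℓ e ω) c (ι.comp (FX κ E).subtype) hfi hfr] at hcne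
  obtain ⟨F, hF1, hF2⟩ := h1 B ↥(Subgroup.centralizer (E : Set B)) 𝔐 ℓ
    (Subgroup.centralizer (E : Set B)).subtype ω
  have hsum : ∑ τ ∈ Ch ℓ (⊥ : Subgroup ↥(FX κ E)), (-1 : ℚ) ^ τ.card *
      WW 𝔐 ℓ e ω (stb c ⊓ stb (mapCh (ι.comp (FX κ E).subtype) τ)) =
      ∑ ω' ∈ F, PSm 𝔐 ℓ κE e ω' := by
    simp only [PSm]
    rw [Finset.sum_comm]
    refine Finset.sum_congr rfl fun τ _ => ?_
    rw [← Finset.mul_sum]
    congr 1
    have h2 : stb c ⊓ stb (mapCh (ι.comp (FX κ E).subtype) τ) =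
        (Stx κE τ (fun _ => 0)).map (Subgroup.centralizer (E : Set B)).subtype := by
      rw [hstb]
      ext b
      rw [Subgroup.mem_inf, Subgroup.mem_map]
      have h3 : ∀ (s : ↥(Subgroup.centralizer (E : Set B))) (a : ↥(FX κ E)),
          (ι.comp (FX κ E).subtype) (κE s a) =
            (Subgroup.centralizer (E : Set B)).subtype s * (ι.comp (FX κ E).subtype) a *
              ((Subgroup.centralizer (E : Set B)).subtype s)⁻¹ := by
        intro s a
        change ι ((κE s a : FX κ E) : G) = (s : B) * ι (a : G) * (s : B)⁻¹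
        rw [hκE, hL.cl.act]
      constructor
      · rintro ⟨hb1, hb2⟩
        refine ⟨⟨b, hb1⟩, ?_, rfl⟩
        exact (SPA.mem_stx (ι.comp (FX κ E).subtype) hfi κE
          (Subgroup.centralizer (E : Set B)).subtype h3 τ ⟨b, hb1⟩).mpr hb2
      · rintro ⟨s, hs, rfl⟩
        exact ⟨s.2, (SPA.mem_stx (ι.comp (FX κ E).subtype) hfi κE
          (Subgroup.centralizer (E : Set B)).subtype h3 τ s).mp hs⟩
    rw [h2, WW_map 𝔐 ℓ e ω _ Subtype.val_injective, hF1, Finset.mul_sum]
    rfl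
  rw [hsum] at hcne
  obtain ⟨ω', hω', hω'ne⟩ := Finset.exists_ne_zero_of_sum_ne_zero hcne
  refine ⟨ω', hω'ne, ?_⟩
  intro ψ hψ hcen
  let t : (⊤ : Subgroup ↥(Subgroup.centralizer (E : Set B))) ≃*
      ↥(Subgroup.centralizer (E : Set B)) := Subgroup.topEquiv
  have h2 := hF2 ω' hω' ⊤ (fun y => ψ (t y)) (hψ.comp_mulEquiv t)
    ((cen_comp_equiv 𝔐 t (MonoidHom.id _) ψ).trans hcen)
  rw [← h2]
  exact (cen_comp_equiv 𝔐 t (Subgroup.centralizer (E : Set B)).subtype ψ).symm

end Pool.Agent.DPC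


end

section

/-!
# CONST: constituents of a power
-/

namespace Pool.Agent.DPC

open Pool.Agent.DP Pool.Agent.Lib_helper13 Representation
open Pool.Agent.Lib_helper13.Dade (pCore DadeHolds dadeSum)

namespace CONST

/-- The value of an outer product at a function supported on one coordinate. -/
theorem prodFn_single {O G : Type} [Fintype O] [DecidableEq O] [Group G] (ξ : O → G → ℂ) (o : O)
    (g : G) : (∏ a, ξ a ((Pi.mulSingle o g : O → G) a)) =
      (∏ a ∈ Finset.univ.erase o, ξ a 1) * ξ o g := by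
  rw [← Finset.prod_erase_mul _ _ (Finset.mem_univ o), Pi.mulSingle_eq_same]
  congr 1
  refine Finset.prod_congr rfl fun a ha => ?_
  rw [Pi.mulSingle_eq_of_ne (Finset.ne_of_mem_erase ha)]

theorem ip_smul {G : Type} [Group G] [Fintype G] (c : ℂ) (f θ : G → ℂ) :
    ip (fun g => c * f g) θ = c * ip f θ := by
  rw [ip, ip, ← mul_div_assoc, Finset.mul_sum]
  congr 1
  exact Finset.sum_congr rfl fun g _ => by ring

end CONST

theorem CONST_thm : Stmt_CONST := by
  intro O G Y _ _ _ _ _ _ e _ ψ o θ hψ hθ hne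
  have h1 : (fun g : G => ψ (e (Pi.mulSingle o g))) = fun g : G =>
      ∑ χ ∈ irrF (O → G), ip (resj e ψ) χ * χ (Pi.mulSingle o g) := by
    funext g
    exact congrFun (class_fn_expand (resj e ψ) (resj_class hψ)) (Pi.mulSingle o g)
  rw [h1, ip_sum (irrF (O → G)) (fun χ => ip (resj e ψ) χ)
    (fun χ g => χ (Pi.mulSingle o g)) θ] at hne
  obtain ⟨Φ, hΦ, h2⟩ := Finset.exists_ne_zero_of_sum_ne_zero hne
  obtain ⟨ξ, hξ, h3⟩ := exists_prodFn (mem_irrF.mp hΦ)
  have h4 : ip (resj e ψ) Φ ≠ 0 := left_ne_zero_of_mul h2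
  have h5 : ip (fun g => Φ (Pi.mulSingle o g)) θ ≠ 0 := right_ne_zero_of_mul h2
  refine ⟨ξ, hξ, ?_, ?_⟩
  · by_contra hcon
    apply h5
    have h6 : (fun g : G => Φ (Pi.mulSingle o g)) =
        fun g => (∏ a ∈ Finset.univ.erase o, ξ a 1) * ξ o g := by
      funext g
      rw [← h3]
      exact CONST.prodFn_single ξ o g
    rw [h6, CONST.ip_smul, ip_ne (hξ o) hθ hcon, mul_zero]
  · rw [← h3] at h4
    exact h4

end Pool.Agent.DPC


end

section

/-!
# Theorem X: elements whose centralizers have cyclic Sylow subgroups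
-/

namespace Pool.Agent.DPX

open Pool.Agent.DPB Pool.Agent.DPW Representation

namespace GCX

/-- a cyclic group has at most one subgroup of a given order -/
lemma uniq {C : Type} [Group C] [Finite C] [IsCyclic C] {A B : Subgroup C}
    (h : Nat.card A = Nat.card B) : A = B := by
  classical
  have : Fintype C := Fintype.ofFinite C
  set n := Nat.card A with hn
  have hn0 : 0 < n := Nat.card_pos
  set S : Set C := {a : C | a ^ n = 1} with hS
  have hSn : S.ncard ≤ n := by
    have h1 := IsCyclic.card_pow_eq_one_le (α := C) hn0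
    have h2 : S.ncard = (Finset.univ.filter fun a : C => a ^ n = 1).card := by
      rw [← Set.ncard_coe_finset]
      congr 1
      ext a
      simp [hS]
    rw [h2]
    exact h1
  have key : ∀ D : Subgroup C, Nat.card D = n → (D : Set C) = S := by
    intro D hD
    apply Set.eq_of_subset_of_ncard_le _ _ (Set.toFinite S)
    · intro a ha
      have h1 : (⟨a, ha⟩ : D) ^ Nat.card D = 1 := pow_card_eq_one'
      rw [hD] at h1
      exact congrArg Subtype.val h1
    · have h1 : (D : Set C).ncard = n := by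
        rw [← hD]
        rfl
      rw [h1]
      exact hSn
  exact SetLike.coe_injective ((key A hn.symm).trans (key B h.symm).symm)

variable {T : Type} [Group T]

lemma card_subgroupOf {A P : Subgroup T} (h : A ≤ P) : Nat.card (A.subgroupOf P) = Nat.card A :=
  Nat.card_congr (Subgroup.subgroupOfEquivOfLe h).toEquiv

lemma uniq' [Finite T] {P A B : Subgroup T} (hP : IsCyclic P) (hA : A ≤ P) (hB : B ≤ P)
    (h : Nat.card A = Nat.card B) : A = B := by
  have h1 : A.subgroupOf P = B.subgroupOf P := by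
    apply uniq
    rw [card_subgroupOf hA, card_subgroupOf hB, h]
  have h2 := Subgroup.subgroupOf_inj.1 h1
  rwa [inf_eq_left.2 hA, inf_eq_left.2 hB] at h2

/-- the conjugate of a subgroup -/
def cj (g : T) (H : Subgroup T) : Subgroup T := H.map (MulAut.conj g).toMonoidHom

lemma mem_cj {g : T} {H : Subgroup T} {x : T} : x ∈ cj g H ↔ g⁻¹ * x * g ∈ H := by
  unfold cj
  rw [Subgroup.mem_map]
  constructor
  · rintro ⟨y, hy, rfl⟩
    have e : g⁻¹ * ((MulAut.conj g).toMonoidHom y) * g = y := by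
      change g⁻¹ * (g * y * g⁻¹) * g = y
      group
    rw [e]
    exact hy
  · intro h
    refine ⟨_, h, ?_⟩
    change g * (g⁻¹ * x * g) * g⁻¹ = x
    group

lemma conj_mem_cj {g : T} {H : Subgroup T} {x : T} (h : x ∈ H) : g * x * g⁻¹ ∈ cj g H := by
  rw [mem_cj]
  have e : g⁻¹ * (g * x * g⁻¹) * g = x := by group
  rw [e]
  exact h

lemma card_cj (g : T) (H : Subgroup T) : Nat.card (cj g H) = Nat.card H :=
  (Nat.card_congr (H.equivMapOfInjective (MulAut.conj g).toMonoidHom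
    (MulAut.conj g).injective).toEquiv).symm

lemma isPGroup_cj {ℓ : ℕ} {g : T} {H : Subgroup T} (h : IsPGroup ℓ H) : IsPGroup ℓ (cj g H) :=
  h.map _

/-- a Sylow subgroup of a subgroup -/
lemma sylowIn [Finite T] (ℓ : ℕ) [Fact ℓ.Prime] (H A : Subgroup T) (hA : A ≤ H)
    (hp : IsPGroup ℓ A) :
    ∃ R ≤ H, IsPGroup ℓ R ∧ A ≤ R ∧ ∀ Q ≤ H, IsPGroup ℓ Q → ∃ c ∈ H, ∀ u ∈ Q, c * u * c⁻¹ ∈ R := by
  obtain ⟨S, hS⟩ := (hp.of_equiv (Subgroup.subgroupOfEquivOfLe hA).symm).exists_le_sylow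
  refine ⟨(S : Subgroup H).map H.subtype, ?_, S.isPGroup'.map H.subtype, ?_, ?_⟩
  · rintro x ⟨y, _, rfl⟩
    exact y.2
  · intro x hx
    exact ⟨⟨x, hA hx⟩, hS hx, rfl⟩
  · intro Q hQ hQp
    obtain ⟨S2, hS2⟩ := (hQp.of_equiv (Subgroup.subgroupOfEquivOfLe hQ).symm).exists_le_sylow
    obtain ⟨c, hc⟩ := MulAction.exists_smul_eq H S2 S
    refine ⟨c, c.2, fun u hu => ?_⟩
    have h1 : (⟨u, hQ hu⟩ : H) ∈ (S2 : Subgroup H) := hS2 hu
    have h2 := Subgroup.smul_mem_pointwise_smul _ (MulAut.conj c) _ h1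
    rw [← Sylow.coe_subgroup_smul, hc] at h2
    exact ⟨_, h2, rfl⟩

lemma mem_cen {t u : T} : u ∈ Subgroup.centralizer ({t} : Set T) ↔ u * t = t * u := by
  rw [Subgroup.mem_centralizer_singleton_iff]

/-- the inverse direction for normalizers -/
lemma normalizes [Finite T] {P : Subgroup T} {m : T} (h : ∀ u ∈ P, m * u * m⁻¹ ∈ P) :
    m ∈ Subgroup.normalizer (P : Set T) := by
  have h1 : cj m P ≤ P := by
    intro x hx
    rw [mem_cj] at hx
    have h2 := h _ hx
    have e : m * (m⁻¹ * x * m) * m⁻¹ = x := by group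
    rwa [e] at h2
  have h2 : cj m P = P := Subgroup.eq_of_le_of_card_ge h1 (card_cj m P).ge
  rw [Subgroup.mem_normalizer_iff]
  intro x
  constructor
  · exact h x
  · intro hx
    rw [← h2, mem_cj] at hx
    have e : m⁻¹ * (m * x * m⁻¹) * m = x := by group
    rwa [e] at hx

end GCX

open _root_.Pool.Agent.DPX.GCX in
theorem GCX_thm : Stmt_GCX := by
  intro ℓ _ T _ _ P₁ hP₁
  have hℓ : ℓ.Prime := Fact.out
  have hP₁p : IsPGroup ℓ P₁ := IsPGroup.of_card (n := 1) (by rw [hP₁, pow_one])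
  have p1 : ∀ P : Subgroup T, IsCyclic P → P₁ ≤ P → ∀ Q ≤ P, Nat.card Q = ℓ → Q = P₁ :=
    fun P hP hle Q hQ hc => uniq' hP hQ hle (by rw [hc, hP₁])
  refine ⟨p1, ?_, ?_, ?_⟩
  · intro P hP hle hpg p hp hp1
    obtain ⟨k, hk⟩ := IsPGroup.iff_orderOf.1 hpg ⟨p, hp⟩
    have hk' : orderOf p = ℓ ^ k := by
      rw [← hk]
      exact (Subgroup.orderOf_mk p hp).symm
    have hk0 : k ≠ 0 := by
      rintro rfl
      rw [pow_zero, orderOf_eq_one_iff] at hk'
      exact hp1 hk'
    obtain ⟨j, rfl⟩ := Nat.exists_eq_succ_of_ne_zero hk0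
    have ho : orderOf (p ^ ℓ ^ j) = ℓ := by
      rw [orderOf_pow_of_dvd (pow_ne_zero _ hℓ.ne_zero) (by rw [hk']; exact pow_dvd_pow _ (by omega)),
        hk', Nat.succ_eq_add_one, pow_succ, Nat.mul_div_cancel_left _ (pow_pos hℓ.pos _)]
    have hQ : Subgroup.zpowers (p ^ ℓ ^ j) = P₁ := by
      apply p1 P hP hle
      · rw [Subgroup.zpowers_le]
        exact P.pow_mem hp _
      · rw [Nat.card_zpowers, ho]
    rw [← hQ, Subgroup.zpowers_le]
    exact Subgroup.pow_mem _ (Subgroup.mem_zpowers p) _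
  · intro t hcen hcyc g hg
    set C := Subgroup.centralizer ({t} : Set T) with hC
    have hP₁C : P₁ ≤ C := fun u hu => mem_cen.2 (hcen u hu)
    obtain ⟨R, hRC, hRp, hP₁R, hconj⟩ := sylowIn ℓ C P₁ hP₁C hP₁p
    have hRcyc : IsCyclic R := hcyc R hRp fun u hu => mem_cen.1 (hRC hu)
    -- the conjugate subgroup
    have hA : cj g⁻¹ P₁ ≤ C := by
      intro x hx
      rw [mem_cj, inv_inv] at hx
      rw [mem_cen]
      have h1 := hg _ hx
      have e1 : g * x * g⁻¹ * (g * t * g⁻¹) = g * (x * t) * g⁻¹ := by group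
      have e2 : g * t * g⁻¹ * (g * x * g⁻¹) = g * (t * x) * g⁻¹ := by group
      rw [e1, e2] at h1
      exact mul_left_cancel (mul_right_cancel h1)
    obtain ⟨c, hcC, hc⟩ := hconj _ hA (isPGroup_cj hP₁p)
    have hle : cj c (cj g⁻¹ P₁) ≤ R := by
      intro x hx
      rw [mem_cj] at hx
      have := hc _ hx
      have e : c * (c⁻¹ * x * c) * c⁻¹ = x := by group
      rwa [e] at this
    have heq : cj c (cj g⁻¹ P₁) = P₁ := p1 R hRcyc hP₁R _ hle (by rw [card_cj, card_cj, hP₁])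
    refine ⟨g * c⁻¹, ?_, ?_⟩
    · apply normalizes
      intro u hu
      rw [← heq, mem_cj, mem_cj, inv_inv] at hu
      have e : g * c⁻¹ * u * (g * c⁻¹)⁻¹ = g * (c⁻¹ * u * c) * g⁻¹ := by group
      rw [e]
      exact hu
    · have hct : c * t = t * c := mem_cen.1 hcC
      have e : c⁻¹ * t * c = t := by
        rw [mul_assoc, ← hct]
        group
      calc g * c⁻¹ * t * (g * c⁻¹)⁻¹ = g * (c⁻¹ * t * c) * g⁻¹ := by group
        _ = g * t * g⁻¹ := by rw [e]
  · intro t hcen hcyc Q hQp hQt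
    set C := Subgroup.centralizer ({t} : Set T) with hC
    set N := Subgroup.normalizer (P₁ : Set T) with hN
    have hP₁C : P₁ ≤ C := fun u hu => mem_cen.2 (hcen u hu)
    have hP₁N : P₁ ≤ N := Subgroup.le_normalizer
    -- P₁ is contained in a Sylow subgroup of the intersection
    obtain ⟨R, hR, hRp, hP₁R, hRconj⟩ := sylowIn ℓ (C ⊓ N) P₁ (le_inf hP₁C hP₁N) hP₁p
    have hRC : R ≤ C := hR.trans inf_le_left
    have hRN : R ≤ N := hR.trans inf_le_right
    have hRcyc : IsCyclic R := hcyc R hRp hRN fun u hu => mem_cen.1 (hRC hu)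
    obtain ⟨R', hR', hR'p, hRR', hconj⟩ := sylowIn ℓ C R hRC hRp
    -- maximality of R
    have hmax : ∀ Q' ≤ C ⊓ N, IsPGroup ℓ Q' → R ≤ Q' → Q' = R := by
      intro Q' hQ' hQ'p hle
      obtain ⟨c, _, hc⟩ := hRconj Q' hQ' hQ'p
      have h1 : cj c Q' ≤ R := by
        intro x hx
        rw [mem_cj] at hx
        have := hc _ hx
        have e : c * (c⁻¹ * x * c) * c⁻¹ = x := by group
        rwa [e] at this
      have h2 : Nat.card Q' ≤ Nat.card R := by
        rw [← card_cj c Q']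
        exact Subgroup.card_le_of_le h1
      exact (Subgroup.eq_of_le_of_card_ge hle h2).symm
    -- R is the Sylow subgroup of C
    have hRR : R' ≤ R := by
      by_contra hne
      have hnil : Group.IsNilpotent R' := hR'p.isNilpotent
      have hlt : R.subgroupOf R' < ⊤ := by
        rw [lt_top_iff_ne_top]
        intro h
        exact hne (Subgroup.subgroupOf_eq_top.1 h)
      have hnc := Group.normalizerCondition_of_isNilpotent (G := R') _ hlt
      set M := Subgroup.normalizer ((R.subgroupOf R' : Subgroup R') : Set R') with hM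
      have hMle : M.map R'.subtype ≤ C ⊓ N := by
        rintro _ ⟨x, hx, rfl⟩
        refine ⟨hR' x.2, ?_⟩
        apply normalizes
        intro u hu
        -- x normalizes R, hence its unique subgroup of order ℓ
        have hxR : ∀ y ∈ R, (x : T) * y * (x : T)⁻¹ ∈ R := by
          intro y hy
          have h1 := (Subgroup.mem_normalizer_iff.1 hx ⟨y, hRR' hy⟩).1 hy
          exact h1
        have h2 : cj (x : T) P₁ ≤ R := by
          intro z hz
          rw [mem_cj] at hz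
          have := hxR _ (hP₁R hz)
          have e : (x : T) * ((x : T)⁻¹ * z * x) * (x : T)⁻¹ = z := by group
          rwa [e] at this
        have h3 : cj (x : T) P₁ = P₁ := p1 R hRcyc hP₁R _ h2 (by rw [card_cj, hP₁])
        rw [← h3]
        exact conj_mem_cj hu
      have hMp : IsPGroup ℓ (M.map R'.subtype) := (hR'p.to_subgroup M).map R'.subtype
      have hRM : R ≤ M.map R'.subtype := by
        intro y hy
        exact ⟨⟨y, hRR' hy⟩, hnc.le hy, rfl⟩
      have hEq := hmax _ hMle hMp hRM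
      apply hnc.not_ge
      intro x hx
      have h1 : (x : T) ∈ M.map R'.subtype := ⟨x, hx, rfl⟩
      rw [hEq] at h1
      exact h1
    obtain ⟨c, hcC, hc⟩ := hconj Q (fun u hu => mem_cen.2 (hQt u hu)) hQp
    refine ⟨?_, c, mem_cen.1 hcC, fun u hu => hRN (hRR (hc u hu))⟩
    let f : Q →* R :=
      ((MulAut.conj c).toMonoidHom.comp Q.subtype).codRestrict R fun u => hRR (hc u u.2)
    refine isCyclic_of_injective f ?_
    intro a b hab
    have h1 : c * (a : T) * c⁻¹ = c * (b : T) * c⁻¹ := congrArg Subtype.val hab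
    exact Subtype.ext (mul_left_cancel (mul_right_cancel h1))

end Pool.Agent.DPX


end

section

/-!
# Theorem X, module QUZX: the irreducible representations in `e` are those of the quotient
-/

set_option autoImplicit false
set_option linter.unusedSectionVars false

namespace Pool.Agent.DPX

open Pool.Agent.DPB Pool.Agent.DPW Representation

namespace QUZX

section irr

variable {F T S V : Type} [Field F] [Group T] [Group S] [AddCommGroup V] [Module F V]
  (π : T →* S) (hπ : Function.Surjective π) (σ : Representation F S V)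

/-- Pull back of a subrepresentation. -/
def down (W : Subrepresentation σ) :
    Subrepresentation (σ.comp π : Representation F T V) :=
  ⟨W.toSubmodule, fun g _ hv => W.apply_mem_toSubmodule (π g) hv⟩

include hπ in
/-- A subrepresentation of the pull back is a subrepresentation. -/
theorem exists_up (W : Subrepresentation (σ.comp π : Representation F T V)) :
    ∃ W' : Subrepresentation σ, down π σ W' = W := by
  refine ⟨⟨W.toSubmodule, fun s v hv => ?_⟩, ?_⟩
  · obtain ⟨t, rfl⟩ := hπ s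
    exact W.apply_mem_toSubmodule t hv
  · exact Subrepresentation.toSubmodule_injective rfl

theorem down_inj : Function.Injective (down π σ) := fun W W' hW =>
  Subrepresentation.toSubmodule_injective (congrArg (fun U => U.toSubmodule) hW)

theorem down_bot : down π σ ⊥ = ⊥ := rfl

theorem down_top : down π σ ⊤ = ⊤ := rfl

include hπ in
theorem irr_iff :
    Representation.IsIrreducible (σ.comp π : Representation F T V) ↔ σ.IsIrreducible := by
  constructor
  · intro h
    have hbt : (⊥ : Subrepresentation (σ.comp π : Representation F T V)) ≠ ⊤ := bot_ne_top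
    have hnt : Nontrivial (Subrepresentation σ) :=
      ⟨⊥, ⊤, fun hh => hbt (by rw [← down_bot π σ, ← down_top π σ, hh])⟩
    refine { eq_bot_or_eq_top := fun W => ?_ }
    rcases eq_bot_or_eq_top (down π σ W) with hW | hW
    · left
      exact down_inj π σ (hW.trans (down_bot π σ).symm)
    · right
      exact down_inj π σ (hW.trans (down_top π σ).symm)
  · intro h
    have hbt : (⊥ : Subrepresentation σ) ≠ ⊤ := bot_ne_top
    have hnt : Nontrivial (Subrepresentation (σ.comp π : Representation F T V)) :=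
      ⟨⊥, ⊤, fun hh => hbt (down_inj π σ (by rw [down_bot, down_top]; exact hh))⟩
    refine { eq_bot_or_eq_top := fun W => ?_ }
    obtain ⟨W', rfl⟩ := exists_up π hπ σ W
    rcases eq_bot_or_eq_top W' with hW | hW
    · left
      rw [hW]
      rfl
    · right
      rw [hW]
      rfl

/-- The representation of the quotient. -/
theorem exists_factor (ρ : Representation F T V) (hker : ∀ t, π t = 1 → ρ t = 1)
    (hπ : Function.Surjective π) : ∃ σ : Representation F S V, ρ = σ.comp π := by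
  have key : ∀ t t', π t = π t' → ρ t = ρ t' := by
    intro t t' h
    have h1 : π (t * t'⁻¹) = 1 := by rw [map_mul, map_inv, h, mul_inv_cancel]
    have h2 : t = t * t'⁻¹ * t' := by group
    rw [h2, map_mul, hker _ h1, one_mul]
  have hs : ∀ s, π (Function.surjInv hπ s) = s := Function.surjInv_eq hπ
  refine ⟨{ toFun := fun s => ρ (Function.surjInv hπ s), map_one' := ?_, map_mul' := ?_ }, ?_⟩
  · have h := key (Function.surjInv hπ 1) 1 (by rw [hs, map_one])
    rw [h, map_one]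
  · intro s s'
    rw [← map_mul]
    apply key
    rw [map_mul, hs, hs, hs]
  · ext1 t
    exact key _ _ (hs (π t)).symm

end irr

section sums

variable {F T S : Type} [Field F] [Group T] [Fintype T] [Group S] [Fintype S] [DecidableEq S]
  (π : T →* S) (e : T → F)

/-- Sums over the fibres. -/
theorem sum_psh {M : Type} [AddCommGroup M] [Module F M] (f : S → M) :
    ∑ t, e t • f (π t) = ∑ s, psh π e s • f s := by
  rw [← Finset.sum_fiberwise (s := (Finset.univ : Finset T)) (g := fun t => π t)]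
  refine Finset.sum_congr rfl fun s _ => ?_
  unfold psh
  rw [Finset.sum_smul]
  refine Finset.sum_congr rfl fun t ht => ?_
  rw [(Finset.mem_filter.1 ht).2]

theorem psh_CF (hπ : Function.Surjective π) (he : e ∈ CF F T) : psh π e ∈ CF F S := by
  intro g x
  obtain ⟨t, rfl⟩ := hπ g
  unfold psh
  symm
  refine Finset.sum_bij (fun y _ => t * y * t⁻¹) ?_ ?_ ?_ ?_
  · intro y hy
    rw [Finset.mem_filter] at hy ⊢
    exact ⟨Finset.mem_univ _, by rw [map_mul, map_mul, map_inv, hy.2]⟩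
  · intro a _ b _ hab
    exact mul_left_cancel (mul_right_cancel hab)
  · intro z hz
    rw [Finset.mem_filter] at hz
    refine ⟨t⁻¹ * z * t, ?_, by group⟩
    rw [Finset.mem_filter]
    refine ⟨Finset.mem_univ _, ?_⟩
    rw [map_mul, map_mul, map_inv, hz.2]
    group
  · intro y _
    exact (he t y).symm

theorem Lz_comp (φ : S → F) (t : T) :
    Lz e (fun y => φ (π y)) t = Lz (psh π e) φ (π t) := by
  have h := sum_psh π e (fun s => φ (s * π t))
  simp only [smul_eq_mul] at h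
  show ∑ h, e h * φ (π (h * t)) = ∑ h, psh π e h * φ (h * π t)
  rw [← h]
  refine Finset.sum_congr rfl fun y _ => ?_
  rw [map_mul]

end sums

end QUZX

open _root_.Pool.Agent.DPX.QUZX

theorem QUZX_thm : Stmt_QUZX := by
  intro ℓ _ F T S _ _ _ _ _ _ _ _ π P₁ e hπ hker hcard he
  have hn : P₁.Normal := by
    rw [← hker]
    exact MonoidHom.normal_ker π
  have hfac : ∀ (V : Type) [AddCommGroup V] [Module F V] [Module.Finite F V]
      (ρ : Representation F T V), ρ.IsIrreducible →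
      ∃ σ : Representation F S V, ρ = σ.comp π := by
    intro V _ _ _ ρ hρ
    refine exists_factor π ρ (fun t ht => ?_) hπ
    have h1 : t ∈ P₁ := by
      rw [← hker]
      exact MonoidHom.mem_ker.2 ht
    exact PTR_thm ℓ F T V ρ P₁ hcard hρ t h1
  refine ⟨psh_CF π e hπ he, ?_, fun V _ _ _ => ⟨fun σ => ⟨?_, irr_iff π hπ σ⟩, hfac V⟩⟩
  · symm
    refine Nat.card_congr (Equiv.ofBijective (fun φ => ⟨fun t => φ.1 (π t), ?_, ?_⟩) ⟨?_, ?_⟩)
    · obtain ⟨n, σ, hσ, hc⟩ := φ.2.1
      refine ⟨n, σ.comp π, (irr_iff π hπ σ).2 hσ, ?_⟩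
      funext t
      rw [← hc]
      rfl
    · funext t
      rw [Lz_comp, φ.2.2]
    · intro φ ψ h
      apply Subtype.ext
      funext s
      obtain ⟨t, rfl⟩ := hπ s
      exact congrFun (congrArg Subtype.val h) t
    · rintro ⟨φ, ⟨n, ρ, hρ, hc⟩, hL⟩
      obtain ⟨σ, rfl⟩ := hfac (Fin n → F) ρ hρ
      have hφ : φ = fun t => σ.character (π t) := by
        rw [← hc]
        rfl
      refine ⟨⟨σ.character, ⟨n, σ, (irr_iff π hπ σ).1 hρ, rfl⟩, ?_⟩, ?_⟩
      · funext s
        obtain ⟨t, rfl⟩ := hπ s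
        rw [← Lz_comp]
        rw [hφ] at hL
        exact congrFun hL t
      · apply Subtype.ext
        exact hφ.symm
  · exact sum_psh π e (fun s => σ s)

end Pool.Agent.DPX


end
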