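import Mathlib
import Pool.Agent.DAM.C08
import Pool.Agent.DAM.C11

/-! Parts: DP.PERC, DPB.KAI -/

section

set_option linter.unusedSectionVars false

/-! PERC: the extension to the inertia group, in terms of standard data. -/

namespace Pool.Agent.DP

open Pool.Agent.Lib_helper13 Representation

theorem PERC_thm (hA : Stmt_PERA) (hB : Stmt_PERB) (hT : Stmt_TENS) : Stmt_PERC := by
  classical
  intro K O G _ _ _ _ _ _ _ 𝔐 ℓ _ τ θ hτ hθ
  obtain ⟨g, S', θ', m, M, hSD, hS', hθ', htr⟩ := hB O G 𝔐 ℓ τ θ hτ hθ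
  obtain ⟨hin, hmap, hcard, hmem⟩ := hA K O G ℓ τ θ hτ hθ
  set π := prt τ θ with hπ
  set I := inert (cT K τ) (fun a => ∏ o, θ o ((a : O → G) o)) with hI
  have hKp : ∀ (l : Kp K π) (o : O), π (l • o) o := by
    intro l o
    have h := l.2 (l • o)
    change π ((l : K)⁻¹ • (l : K) • o) ((l : K) • o) at h
    rw [inv_smul_smul] at h
    exact π.symm h
  have hfin : Finite (Kp K π) := inferInstance
  have hSS : ∀ (l : Kp K π) o, S' (l • o) = S' o := fun l o => hSD.cS _ _ (hKp l o)
  have hTE := hT.2 (Kp K π) O G S' hSS θ' m M (fun l o => hSD.cm _ _ (hKp l o))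
    (fun l o => hSD.cM _ _ (hKp l o)) hSD.md
  -- the inertia group
  have hk : ∀ y : I, ((y : YT K τ) : Gam K O G).right ∈ Kp K π := by
    intro y
    have h1 := (hin y.1).mp y.2
    exact (hmem ((y : YT K τ) : Gam K O G) h1).2
  have hS0 : ∀ (y : I) (o : O), (g o)⁻¹ * ((y : YT K τ) : Gam K O G).left o *
      g (((y : YT K τ) : Gam K O G).right⁻¹ • o) ∈ S' o := by
    intro y o
    have h1 := (hin y.1).mp y.2 o
    exact (htr _ _ _ (hk y o)).mp h1
  let φ : I →* stdS (L := Kp K π) S' hSS :=
    { toFun := fun y => ⟨⟨fun o => (g o)⁻¹ * ((y : YT K τ) : Gam K O G).left o *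
        g (((y : YT K τ) : Gam K O G).right⁻¹ • o), ⟨_, hk y⟩⟩, hS0 y⟩
      map_one' := by
        apply Subtype.ext
        apply SemidirectProduct.ext
        · ext o
          simp
        · rfl
      map_mul' := by
        intro x y
        apply Subtype.ext
        apply SemidirectProduct.ext
        · ext o
          change (g o)⁻¹ * (((x : YT K τ) : Gam K O G).left o *
            ((y : YT K τ) : Gam K O G).left (((x : YT K τ) : Gam K O G).right⁻¹ • o)) *
            g ((((x : YT K τ) : Gam K O G).right * ((y : YT K τ) : Gam K O G).right)⁻¹ • o) =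
            ((g o)⁻¹ * ((x : YT K τ) : Gam K O G).left o *
              g (((x : YT K τ) : Gam K O G).right⁻¹ • o)) *
            ((g (((x : YT K τ) : Gam K O G).right⁻¹ • o))⁻¹ *
              ((y : YT K τ) : Gam K O G).left (((x : YT K τ) : Gam K O G).right⁻¹ • o) *
              g (((y : YT K τ) : Gam K O G).right⁻¹ •
                (((x : YT K τ) : Gam K O G).right⁻¹ • o)))
          rw [mul_inv_rev, mul_smul]
          group
        · rfl }
  let E : I → ℂ := fun y => TH m M (MulAction.toPerm ((y : YT K τ) : Gam K O G).right)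
    (fun o => (g o)⁻¹ * ((y : YT K τ) : Gam K O G).left o *
        g (((y : YT K τ) : Gam K O G).right⁻¹ • o))
  have hE1 : IsChr E := hTE.1.comp φ
  have hE2 : ∀ a (ha : jT K τ a ∈ I), E ⟨jT K τ a, ha⟩ = ∏ o, θ o ((a : O → G) o) := by
    intro a ha
    have h1 : E ⟨jT K τ a, ha⟩ = TH m M 1 (fun o => (g o)⁻¹ * (a : O → G) o * g o) := by
      change TH m M (MulAction.toPerm (1 : K)) (fun o => (g o)⁻¹ * (a : O → G) o *
        g ((1 : K)⁻¹ • o)) = _
      have h2 : MulAction.toPerm (1 : K) = (1 : Equiv.Perm O) := by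
        ext o
        simp
      rw [h2]
      simp
    rw [h1, hTE.2]
    · refine Finset.prod_congr rfl fun o _ => ?_
      rw [hθ']
      congr 1
      group
    · intro o
      have h2 := hS0 ⟨jT K τ a, ha⟩ o
      change (g o)⁻¹ * (a : O → G) o * g ((1 : K)⁻¹ • o) ∈ S' o at h2
      simpa using h2
  refine ⟨S', θ', m, M, E, hSD, hE1, hE2, ?_⟩
  intro η hη F hF
  -- the equivalence
  have hconj : ∀ y : Gam K O G,
      (⟨fun o => (g o)⁻¹ * y.left o * g (y.right⁻¹ • o), y.right⟩ : Gam K O G) =
        (iN K O G g)⁻¹ * y * iN K O G g := by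
    intro y
    apply SemidirectProduct.ext
    · ext o
      simp [pAct, mul_assoc]
    · simp
  let e : I ≃ (Kp K π) × (∀ o, S' o) :=
    { toFun := fun y => (⟨_, hk y⟩, fun o => ⟨_, hS0 y o⟩)
      invFun := fun p => ⟨⟨⟨fun o => g o * (p.2 o : G) * (g ((p.1 : K)⁻¹ • o))⁻¹, (p.1 : K)⟩,
          (hmem _ (fun o => (htr _ _ _ (p.1.2 o)).mpr (by
            change (g o)⁻¹ * (g o * (p.2 o : G) * (g ((p.1 : K)⁻¹ • o))⁻¹) *
              g ((p.1 : K)⁻¹ • o) ∈ S' o
            have : (g o)⁻¹ * (g o * (p.2 o : G) * (g ((p.1 : K)⁻¹ • o))⁻¹) *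
              g ((p.1 : K)⁻¹ • o) = (p.2 o : G) := by group
            rw [this]
            exact (p.2 o).2))).1⟩, (hin _).mpr (fun o => (htr _ _ _ (p.1.2 o)).mpr (by
            change (g o)⁻¹ * (g o * (p.2 o : G) * (g ((p.1 : K)⁻¹ • o))⁻¹) *
              g ((p.1 : K)⁻¹ • o) ∈ S' o
            have : (g o)⁻¹ * (g o * (p.2 o : G) * (g ((p.1 : K)⁻¹ • o))⁻¹) *
              g ((p.1 : K)⁻¹ • o) = (p.2 o : G) := by group
            rw [this]
            exact (p.2 o).2))⟩
      left_inv := by
        intro y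
        apply Subtype.ext
        apply Subtype.ext
        apply SemidirectProduct.ext
        · ext o
          change g o * ((g o)⁻¹ * ((y : YT K τ) : Gam K O G).left o *
            g (((y : YT K τ) : Gam K O G).right⁻¹ • o)) *
            (g (((y : YT K τ) : Gam K O G).right⁻¹ • o))⁻¹ = _
          group
        · rfl
      right_inv := by
        rintro ⟨k, n⟩
        apply Prod.ext
        · rfl
        · funext o
          apply Subtype.ext
          change (g o)⁻¹ * (g o * (n o : G) * (g ((k : K)⁻¹ • o))⁻¹) *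
              g ((k : K)⁻¹ • o) = (n o : G)
          group }
  have hone : E 1 = ∏ o, θ' o 1 := by
    have h1 := hE2 1 (by
      have : jT K τ 1 = 1 := map_one _
      rw [this]
      exact I.one_mem)
    have h2 : (⟨jT K τ 1, by
      have : jT K τ 1 = 1 := map_one _
      rw [this]
      exact I.one_mem⟩ : I) = 1 := Subtype.ext (map_one _)
    rw [h2] at h1
    rw [h1]
    refine Finset.prod_congr rfl fun o _ => ?_
    rw [hθ']
    simp
  have hext : ext0 η (pT K τ ((1 : I) : YT K τ)) = η 1 := by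
    have h1 : pT K τ ((1 : I) : YT K τ) = 1 := map_one _
    rw [h1, ext0_of_mem η (Kp K π).one_mem]
    rfl
  have hsum : ∑ s : I, F ((s : YT K τ) : Gam K O G) * (E s * ext0 η (pT K τ s)) =
      ∑ p : (Kp K π) × (∀ o, S' o), F ⟨fun o => (p.2 o : G), (p.1 : K)⟩ *
        (TH m M (MulAction.toPerm (p.1 : K)) (fun o => (p.2 o : G)) * η p.1) := by
    refine Fintype.sum_equiv e _ _ fun s => ?_
    have h1 : ext0 η (pT K τ s) = η ⟨_, hk s⟩ := ext0_of_mem η (hk s)
    have h2 : F ((s : YT K τ) : Gam K O G) =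
        F ⟨fun o => ((e s).2 o : G), ((e s).1 : K)⟩ := by
      have h3 := hconj ((s : YT K τ) : Gam K O G)
      change _ = F (⟨fun o => (g o)⁻¹ * ((s : YT K τ) : Gam K O G).left o *
        g (((s : YT K τ) : Gam K O G).right⁻¹ • o), ((s : YT K τ) : Gam K O G).right⟩ :
          Gam K O G)
      rw [h3]
      have h4 := hF (iN K O G g)⁻¹ ((s : YT K τ) : Gam K O G)
      rw [inv_inv] at h4
      exact h4.symm
    rw [h2, h1]
    rfl
  rw [wt, wt]
  rw [hsum, hone, hext, Fintype.sum_prod_type]
  have h3 : ∀ k : Kp K π, aS S' θ' m M (MulAction.toPerm (k : K)) (fun n => F ⟨n, (k : K)⟩) *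
      η k = (∑ n : ∀ o, S' o, F ⟨fun o => (n o : G), (k : K)⟩ *
        (TH m M (MulAction.toPerm (k : K)) (fun o => (n o : G)) * η k)) / ∏ o, θ' o 1 := by
    intro k
    rw [aS, div_mul_eq_mul_div, Finset.sum_mul]
    congr 1
    refine Finset.sum_congr rfl fun n _ => ?_
    ring
  rw [Finset.sum_congr rfl fun k _ => h3 k, ← Finset.sum_div, div_div]

end Pool.Agent.DP


end

section

/-!
# KAI: every irreducible representation of the normalizer occurs
-/

open Pool.Agent.Lib_helper13 Representation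

namespace Pool.Agent.DPB

namespace KAI

variable {F T W : Type} [Field F] [Group T] [AddCommGroup W] [Module F W]
  (P : Subgroup T) (σ : Representation F (NP P) W)

/-- The coinduced module. -/
def VV : Submodule F (T → W) where
  carrier := {f | ∀ (n : NP P) (t : T), f ((n : T) * t) = σ n (f t)}
  zero_mem' := fun n t => by simp
  add_mem' := by
    intro f g hf hg n t
    rw [Pi.add_apply, Pi.add_apply, hf n t, hg n t, map_add]
  smul_mem' := by
    intro c f hf n t
    rw [Pi.smul_apply, Pi.smul_apply, hf n t, map_smul]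

/-- The action of the group by right translations. -/
def act : Representation F T (VV P σ) where
  toFun s :=
    { toFun := fun f => ⟨fun t => f.1 (t * s), fun n t => by
        show f.1 ((n : T) * t * s) = σ n (f.1 (t * s))
        rw [mul_assoc]
        exact f.2 n (t * s)⟩
      map_add' := fun _ _ => rfl
      map_smul' := fun _ _ => rfl }
  map_one' := by
    ext f t
    show f.1 (t * 1) = f.1 t
    rw [mul_one]
  map_mul' := by
    intro a b
    ext f t
    show f.1 (t * (a * b)) = f.1 (t * a * b)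
    rw [mul_assoc]

theorem act_apply (s : T) (f : VV P σ) (t : T) : (act P σ s f).1 t = f.1 (t * s) := rfl

open Classical in
/-- The embedding. -/
noncomputable def jj : W →ₗ[F] VV P σ where
  toFun w := ⟨fun t => if h : t ∈ Subgroup.normalizer (P : Set T) then σ ⟨t, h⟩ w else 0, by
    intro n t
    show (if h : (n : T) * t ∈ Subgroup.normalizer (P : Set T) then σ ⟨(n : T) * t, h⟩ w else 0) =
      σ n (if h : t ∈ Subgroup.normalizer (P : Set T) then σ ⟨t, h⟩ w else 0)
    by_cases h : t ∈ Subgroup.normalizer (P : Set T)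
    · have h' : (n : T) * t ∈ Subgroup.normalizer (P : Set T) := mul_mem n.2 h
      rw [dif_pos h', dif_pos h]
      have h2 : (⟨(n : T) * t, h'⟩ : NP P) = n * ⟨t, h⟩ := rfl
      rw [h2, map_mul]
      rfl
    · have h' : (n : T) * t ∉ Subgroup.normalizer (P : Set T) := fun h' =>
        h ((Subgroup.mul_mem_cancel_left _ n.2).1 h')
      rw [dif_neg h', dif_neg h, map_zero]⟩
  map_add' v w := by
    ext t
    show (if h : t ∈ Subgroup.normalizer (P : Set T) then σ ⟨t, h⟩ (v + w) else 0) =
      (if h : t ∈ Subgroup.normalizer (P : Set T) then σ ⟨t, h⟩ v else 0) +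
        (if h : t ∈ Subgroup.normalizer (P : Set T) then σ ⟨t, h⟩ w else 0)
    by_cases h : t ∈ Subgroup.normalizer (P : Set T)
    · rw [dif_pos h, dif_pos h, dif_pos h, map_add]
    · rw [dif_neg h, dif_neg h, dif_neg h, add_zero]
  map_smul' c v := by
    ext t
    show (if h : t ∈ Subgroup.normalizer (P : Set T) then σ ⟨t, h⟩ (c • v) else 0) =
      c • (if h : t ∈ Subgroup.normalizer (P : Set T) then σ ⟨t, h⟩ v else 0)
    by_cases h : t ∈ Subgroup.normalizer (P : Set T)
    · rw [dif_pos h, dif_pos h, map_smul]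
    · rw [dif_neg h, dif_neg h, smul_zero]

theorem jj_mem (w : W) {t : T} (h : t ∈ Subgroup.normalizer (P : Set T)) :
    (jj P σ w).1 t = σ ⟨t, h⟩ w := dif_pos h

theorem jj_not_mem (w : W) {t : T} (h : t ∉ Subgroup.normalizer (P : Set T)) :
    (jj P σ w).1 t = 0 := dif_neg h

theorem jj_eqv (n : NP P) (w : W) : jj P σ (σ n w) = act P σ (n : T) (jj P σ w) := by
  apply Subtype.ext
  funext t
  rw [act_apply]
  by_cases h : t ∈ Subgroup.normalizer (P : Set T)
  · have h' : t * (n : T) ∈ Subgroup.normalizer (P : Set T) := mul_mem h n.2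
    rw [jj_mem P σ _ h, jj_mem P σ _ h']
    have h2 : (⟨t * (n : T), h'⟩ : NP P) = ⟨t, h⟩ * n := rfl
    rw [h2, map_mul]
    rfl
  · have h' : t * (n : T) ∉ Subgroup.normalizer (P : Set T) := fun h' =>
      h ((Subgroup.mul_mem_cancel_right _ n.2).1 h')
    rw [jj_not_mem P σ _ h, jj_not_mem P σ _ h']

theorem jj_one (w : W) : (jj P σ w).1 1 = w := by
  rw [jj_mem P σ w (one_mem _)]
  have h2 : (⟨1, one_mem _⟩ : NP P) = 1 := rfl
  rw [h2, map_one]
  rfl

theorem tN_one [Fintype T] (ℓ : ℕ) [CharP F ℓ] (hP : Nat.card P = ℓ)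
    (htriv : ∀ p : NP P, (p : T) ∈ P → σ p = 1) (f : VV P σ) :
    (tN P (act P σ) f).1 1 = 0 := by
  classical
  have h1 : tN P (act P σ) f = ∑ h : T, if h ∈ P then act P σ h f else 0 := by
    unfold tN
    rw [LinearMap.sum_apply]
    refine Finset.sum_congr rfl fun h _ => ?_
    by_cases hh : h ∈ P
    · rw [if_pos hh, if_pos hh]
    · rw [if_neg hh, if_neg hh, LinearMap.zero_apply]
  have h2 : (tN P (act P σ) f).1 1 = ∑ h : T, if h ∈ P then f.1 1 else 0 := by
    rw [h1, AddSubmonoidClass.coe_finsetSum, Finset.sum_apply]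
    refine Finset.sum_congr rfl fun h _ => ?_
    by_cases hh : h ∈ P
    · rw [if_pos hh, if_pos hh, act_apply]
      have hn : h ∈ Subgroup.normalizer (P : Set T) := Subgroup.le_normalizer hh
      have h3 := f.2 ⟨h, hn⟩ 1
      rw [htriv ⟨h, hn⟩ hh] at h3
      rw [one_mul]
      have h4 : ((⟨h, hn⟩ : NP P) : T) * 1 = h := mul_one h
      rw [h4] at h3
      exact h3
    · rw [if_neg hh, if_neg hh]
      rfl
  rw [h2, ← Finset.sum_filter, Finset.sum_const]
  have h5 : (Finset.univ.filter fun h : T => h ∈ P).card = ℓ := by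
    rw [← hP, Nat.card_eq_fintype_card, Fintype.card_subtype]
  rw [h5, ← Nat.cast_smul_eq_nsmul F, CharP.cast_eq_zero, zero_smul]

end KAI

open _root_.Pool.Agent.DPB.KAI in
/-- KAI. -/
theorem KAI_thm : Stmt_KAI := by
  intro ℓ _ F T W _ _ _ _ _ _ _ P σ hP hirr htriv
  classical
  set n := Module.finrank F (VV P σ) with hn
  let e : VV P σ ≃ₗ[F] (Fin n → F) := (Module.finBasis F (VV P σ)).equivFun
  let ρ : Representation F T (Fin n → F) :=
    { toFun := fun g => e.toLinearMap ∘ₗ act P σ g ∘ₗ e.symm.toLinearMap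
      map_one' := by
        rw [map_one]
        refine LinearMap.ext fun v => ?_
        show e (e.symm v) = v
        exact e.apply_symm_apply v
      map_mul' := by
        intro a b
        rw [map_mul]
        refine LinearMap.ext fun v => ?_
        show e (act P σ a (act P σ b (e.symm v))) = e (act P σ a (e.symm (e (act P σ b (e.symm v)))))
        rw [e.symm_apply_apply] }
  have hρ : ∀ g v, ρ g (e v) = e (act P σ g v) := by
    intro g v
    show e (act P σ g (e.symm (e v))) = _
    rw [e.symm_apply_apply]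
  refine ⟨n, ρ, e.toLinearMap ∘ₗ jj P σ, ?_, ?_⟩
  · intro g w
    show e (jj P σ (σ g w)) = ρ g (e (jj P σ w))
    rw [hρ, jj_eqv]
  · obtain ⟨w, hw⟩ : ∃ w : W, w ≠ 0 := by
      by_contra hcon
      push Not at hcon
      have hnt : Nontrivial (Subrepresentation σ) := hirr.toNontrivial
      obtain ⟨a, b, hab⟩ := hnt.exists_pair_ne
      apply hab
      ext w
      rw [hcon w]
      exact ⟨fun _ => b.toSubmodule.zero_mem, fun _ => a.toSubmodule.zero_mem⟩
    refine ⟨w, ?_⟩
    rintro ⟨v, hv⟩
    have h1 : tN P ρ v = e (tN P (act P σ) (e.symm v)) := by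
      unfold tN
      rw [LinearMap.sum_apply, LinearMap.sum_apply, map_sum]
      refine Finset.sum_congr rfl fun h _ => ?_
      by_cases hh : h ∈ P
      · rw [if_pos hh, if_pos hh]
        rfl
      · rw [if_neg hh, if_neg hh, LinearMap.zero_apply, LinearMap.zero_apply, map_zero]
    rw [h1] at hv
    have h2 : tN P (act P σ) (e.symm v) = jj P σ w := e.injective hv
    have h3 := tN_one P σ ℓ hP htriv (e.symm v)
    rw [h2, jj_one] at h3
    exact hw h3

end Pool.Agent.DPB


end
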