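import Mathlib
import Pool.Agent.DAM.C04
import Pool.Agent.DAM.C08
import Pool.Agent.DAM.C11
import Pool.Agent.DAM.C14
import Pool.Agent.DAM.C15
import Pool.Agent.DAM.C18
import Pool.Agent.DAM.C22
import Pool.Agent.DAM.C25
import Pool.Agent.DAM.C27
import Pool.Agent.DAM.C32
import Pool.Agent.DAM.C33
import Pool.Agent.DAM.C41
import Pool.Agent.DAM.C43
import Pool.Agent.DAM.C48
import Pool.Agent.DAM.C51
import Pool.Agent.DAM.C62
import Pool.Agent.DAM.C71
import Pool.Agent.DAM.C72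

/-! Parts: DPN.FNB, DPF.PS3, DPK.PS3r, DP.LIFT, DPW.KAIB, DPW.CHNW, DPX.KAIX, DPX.KDX, DPX.BASX, DPX.CHNX, DPG.CJN, DPG.TQBA, DPG.TQB -/

section

/-!
# Transport from a supplement of a normal subgroup to the whole group
-/

namespace Pool.Agent.DPN

namespace FNB

variable {W : Type} [Group W] {R : Subgroup W}

theorem nu_left (hN : R.Normal) (ν : R →* ℂˣ)
    (hν : ∀ (w : W) (r r' : R), (r' : W) = w * r * w⁻¹ → ν r' = ν r)
    (x y : W) (r c d : R) (hc : (c : W) = x * r * y * (x * r)⁻¹ * y⁻¹)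
    (hd : (d : W) = x * y * x⁻¹ * y⁻¹) : ν c = ν d := by
  have h1 : ν ⟨y * (r : W)⁻¹ * y⁻¹, hN.conj_mem _ (R.inv_mem r.2) y⟩ = ν (r⁻¹) :=
    hν y (r⁻¹) _ rfl
  let e : R := r * ⟨y * (r : W)⁻¹ * y⁻¹, hN.conj_mem _ (R.inv_mem r.2) y⟩
  have he : ν e = 1 := by
    change ν (r * ⟨y * (r : W)⁻¹ * y⁻¹, hN.conj_mem _ (R.inv_mem r.2) y⟩) = 1
    rw [map_mul, h1, ← map_mul, mul_inv_cancel, map_one]
  have h2 : ν ⟨x * (e : W) * x⁻¹, hN.conj_mem _ e.2 x⟩ = ν e := hν x e _ rfl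
  have h3 : c = ⟨x * (e : W) * x⁻¹, hN.conj_mem _ e.2 x⟩ * d := by
    apply Subtype.ext
    rw [Subgroup.coe_mul, hc, hd]
    change _ = x * ((r : W) * (y * (r : W)⁻¹ * y⁻¹)) * x⁻¹ * (x * y * x⁻¹ * y⁻¹)
    group
  rw [h3, map_mul, h2, he, one_mul]

theorem nu_right (hN : R.Normal) (ν : R →* ℂˣ)
    (hν : ∀ (w : W) (r r' : R), (r' : W) = w * r * w⁻¹ → ν r' = ν r)
    (x y : W) (r c d : R) (hc : (c : W) = x * (y * r) * x⁻¹ * (y * r)⁻¹)
    (hd : (d : W) = x * y * x⁻¹ * y⁻¹) : ν c = ν d := by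
  have h1 : ν ⟨x * (r : W) * x⁻¹, hN.conj_mem _ r.2 x⟩ = ν r := hν x r _ rfl
  let e : R := ⟨x * (r : W) * x⁻¹, hN.conj_mem _ r.2 x⟩ * r⁻¹
  have he : ν e = 1 := by
    change ν (⟨x * (r : W) * x⁻¹, hN.conj_mem _ r.2 x⟩ * r⁻¹) = 1
    rw [map_mul, h1, ← map_mul, mul_inv_cancel, map_one]
  have h2 : ν ⟨y * (e : W) * y⁻¹, hN.conj_mem _ e.2 y⟩ = ν e := hν y e _ rfl
  have h3 : c = d * ⟨y * (e : W) * y⁻¹, hN.conj_mem _ e.2 y⟩ := by
    apply Subtype.ext
    rw [Subgroup.coe_mul, hc, hd]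
    change _ = x * y * x⁻¹ * y⁻¹ * (y * (x * (r : W) * x⁻¹ * (r : W)⁻¹) * y⁻¹)
    group
  rw [h3, map_mul, h2, he, mul_one]

end FNB

open _root_.Pool.Agent.DPN.FNB in
theorem FNB_thm : Stmt_FNB := by
  intro W ι _ _ I R hN hR V hVR hV s ν hν h x y hxy
  have hx : x ∈ V ⊔ R := hVR ▸ Subgroup.mem_top x
  have hy : y ∈ V ⊔ R := hVR ▸ Subgroup.mem_top y
  obtain ⟨x', hx', r, hr, rfl⟩ := Subgroup.mem_sup_of_normal_right.mp hx
  obtain ⟨y', hy', r', hr', rfl⟩ := Subgroup.mem_sup_of_normal_right.mp hy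
  have h1 : Subgroup.closure {x', y'} ⊔ R = ⊤ := by
    rw [eq_top_iff, ← hxy]
    refine sup_le ?_ le_sup_right
    rw [Subgroup.closure_le]
    have hle : Subgroup.closure {x', y'} ≤ Subgroup.closure {x', y'} ⊔ R := le_sup_left
    have hle2 : R ≤ Subgroup.closure {x', y'} ⊔ R := le_sup_right
    have hx1 : x' ∈ Subgroup.closure {x', y'} ⊔ R := hle (Subgroup.subset_closure (by simp))
    have hy1 : y' ∈ Subgroup.closure {x', y'} ⊔ R := hle (Subgroup.subset_closure (by simp))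
    intro z hz
    rcases hz with rfl | hz
    · exact Subgroup.mul_mem _ hx1 (hle2 hr)
    · rw [Set.mem_singleton_iff] at hz
      subst hz
      exact Subgroup.mul_mem _ hy1 (hle2 hr')
  have h2 := h ⟨x', hx'⟩ ⟨y', hy'⟩ (hV ⟨x', hx'⟩ ⟨y', hy'⟩ h1)
  rw [← h2]
  refine Finset.sum_congr rfl fun i hi => ?_
  have e1 : ν i ⟨x' * r * (y' * r') * (x' * r)⁻¹ * (y' * r')⁻¹, hR _ _⟩ =
      ν i ⟨x' * (y' * r') * x'⁻¹ * (y' * r')⁻¹, hR _ _⟩ :=
    nu_left hN (ν i) (hν i hi) x' (y' * r') ⟨r, hr⟩ _ _ rfl rfl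
  have e2 : ν i ⟨x' * (y' * r') * x'⁻¹ * (y' * r')⁻¹, hR _ _⟩ =
      ν i ⟨x' * y' * x'⁻¹ * y'⁻¹, hR _ _⟩ :=
    nu_right hN (ν i) (hν i hi) x' y' ⟨r', hr'⟩ _ _ rfl rfl
  rw [e1, e2]

end Pool.Agent.DPN


end

section

/-!
# PS3: the sums over the chains of `M` vanish for the subgroups which contain `M`
-/

set_option autoImplicit false

namespace Pool.Agent.DPF

open Pool.Agent.DP Pool.Agent.DPC Pool.Agent.DPM Pool.Agent.DPN Pool.Agent.Lib_helper13
  Representation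
open Pool.Agent.Lib_helper13.Dade (pCore DadeHolds dadeSum)

namespace PS3

/-- A subgroup `B` of `T` is isomorphic to the subgroup `A` of `G` with the same elements. -/
def subE {G : Type} [Group G] {T A : Subgroup G} {B : Subgroup T} (hAT : A ≤ T)
    (h : ∀ x : T, x ∈ B ↔ (x : G) ∈ A) : B ≃* A where
  toFun x := ⟨x.1.1, (h x.1).1 x.2⟩
  invFun y := ⟨⟨y.1, hAT y.2⟩, (h _).2 y.2⟩
  left_inv _ := rfl
  right_inv _ := rfl
  map_mul' _ _ := rfl

theorem sylAb {H : Type} [Group H] {ℓ : ℕ} {P : Subgroup H} (hP : SylAb ℓ P) (V : Subgroup H) :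
    SylAb ℓ (P.subgroupOf V) := by
  have := hP.nrm
  refine ⟨inferInstance, ?_, ?_, ?_⟩
  · exact hP.pgr.comap_of_injective V.subtype V.subtype_injective
  · intro h
    exact hP.idx (h.trans (Subgroup.relIndex_dvd_index_of_normal P V))
  · intro x y
    exact hP.abl x y

open Classical in
/-- The function which agrees with `c` on `N` and vanishes outside `N`. -/
noncomputable def rsN {Y k : Type} [Group Y] [Zero k] (N : Subgroup Y) (c : Y → k) (y : Y) : k :=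
  if y ∈ N then c y else 0

theorem rsN_of_mem {Y k : Type} [Group Y] [Zero k] {N : Subgroup Y} (c : Y → k) {y : Y}
    (h : y ∈ N) : rsN N c y = c y := if_pos h

theorem rsN_of_notMem {Y k : Type} [Group Y] [Zero k] {N : Subgroup Y} (c : Y → k) {y : Y}
    (h : y ∉ N) : rsN N c y = 0 := if_neg h

/-- A function which vanishes outside `N`. -/
theorem rsN_eq_iff {Y k : Type} [Group Y] [Zero k] {N : Subgroup Y} {c c' ω : Y → k}
    (hω : ω = rsN N c') : rsN N c = ω ↔ ∀ g ∈ N, c g = ω g := by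
  constructor
  · intro h g hg
    rw [← h, rsN_of_mem c hg]
  · intro h
    funext g
    by_cases hg : g ∈ N
    · rw [rsN_of_mem c hg, h g hg]
    · rw [rsN_of_notMem c hg, hω, rsN_of_notMem c' hg]

/-- The pairing with the class of an element of `M` depends only on the values on `N`. -/
theorem pair_rsN {X Y : Type} [Group X] [Group Y] [Fintype Y]
    (𝔐 : Ideal (integralClosure ℤ ℂ)) (i : Y →* X) (M : Subgroup X) [hM : M.Normal]
    (N : Subgroup Y) (hN : ∀ y, i y ∈ M → y ∈ N) {g : X} (hg : g ∈ M)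
    (c : Y → (integralClosure ℤ ℂ) ⧸ 𝔐) :
    pair 𝔐 (fun y => conjInd (i y) g) (rsN N c) = pair 𝔐 (fun y => conjInd (i y) g) c := by
  unfold pair
  refine finsum_congr fun C => ?_
  by_cases hC : C.out ∈ N
  · rw [rsN_of_mem c hC]
  · have h1 : conjInd (i C.out) g = 0 := by
      rw [conjInd, if_neg]
      intro h
      apply hC
      apply hN
      obtain ⟨x, hx⟩ := isConj_iff.1 h.symm
      rw [← hx]
      exact hM.conj_mem g hg x
    have h2 : red 𝔐 (0 : ℂ) = 0 := by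
      have := red_zero 𝔐
      exact this
    change red 𝔐 (conjInd (i C.out) g) * _ = red 𝔐 (conjInd (i C.out) g) * _
    rw [h1, h2, zero_mul, zero_mul]

open Classical in
theorem card_split {S β : Type} [Group S] [Fintype S] (f : (S → ℂ) → β)
    (Q1 Q2 R : (S → ℂ) → Prop) (F : Finset β)
    (h : ∀ ψ : S → ℂ, IsIrr ψ → (R ψ ↔ f ψ ∈ F)) :
    Nat.card {ψ : S → ℂ // IsIrr ψ ∧ Q1 ψ ∧ Q2 ψ ∧ R ψ} =
      ∑ b ∈ F, Nat.card {ψ : S → ℂ // IsIrr ψ ∧ Q1 ψ ∧ Q2 ψ ∧ f ψ = b} := by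
  rw [MXM.card_irr (fun ψ => Q1 ψ ∧ Q2 ψ ∧ R ψ)]
  rw [Finset.card_eq_sum_card_fiberwise (f := f) (t := F)]
  · refine Finset.sum_congr rfl fun b hb => ?_
    rw [MXM.card_irr (fun ψ => Q1 ψ ∧ Q2 ψ ∧ f ψ = b)]
    congr 1
    ext ψ
    simp only [Finset.mem_filter, mem_irrF]
    constructor
    · rintro ⟨⟨h1, h2, h3, h5⟩, h4⟩
      exact ⟨h1, h2, h3, h4⟩
    · rintro ⟨h1, h2, h3, h4⟩
      exact ⟨⟨h1, h2, h3, (h ψ h1).2 (h4 ▸ hb)⟩, h4⟩
  · intro ψ hψ
    have hψ' := Finset.mem_coe.1 hψ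
    rw [Finset.mem_filter, mem_irrF] at hψ'
    exact Finset.mem_coe.2 ((h ψ hψ'.1).1 hψ'.2.2.2)

section Sub

variable {L K : Type} [Group L] [Group K] (π : L →* K) (M S : Subgroup K)

theorem ker_le : π.ker ≤ S.comap π := by
  intro x hx
  rw [Subgroup.mem_comap, (show π x = 1 from hx)]
  exact S.one_mem

/-- The kernel of the projection of the inverse image of `S`. -/
def kerE : (π.subgroupComap S).ker ≃* π.ker :=
  subE (ker_le π S) fun x => by
    rw [MonoidHom.mem_ker, MonoidHom.mem_ker]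
    constructor
    · intro h
      exact congrArg Subtype.val h
    · intro h
      exact Subtype.ext h

/-- The linear character of the kernel of the projection of the inverse image of `S`. -/
def muS (μ : π.ker →* ℂˣ) : (π.subgroupComap S).ker →* ℂˣ :=
  μ.comp (kerE π S).toMonoidHom

theorem muS_apply (μ : π.ker →* ℂˣ) (z : (π.subgroupComap S).ker) (h : ((z : ↥(S.comap π)) : L) ∈ π.ker) :
    muS π S μ z = μ ⟨((z : ↥(S.comap π)) : L), h⟩ := rfl

/-- `OvL` for a subgroup of the inverse image of `S`. -/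
theorem ovl_iff (μ : π.ker →* ℂˣ) {A : Subgroup L} {B : Subgroup ↥(S.comap π)}
    (hAT : A ≤ S.comap π) (h : ∀ x : ↥(S.comap π), x ∈ B ↔ (x : L) ∈ A) (ψ : A → ℂ) :
    OvL (π.subgroupComap S).ker (muS π S μ) B (fun y => ψ (subE hAT h y)) ↔
      OvL π.ker μ A ψ := by
  constructor
  · intro h1 s t hs
    have h2 := h1 ((subE hAT h).symm s) ((subE hAT h).symm t) (by
      rw [MonoidHom.mem_ker]
      exact Subtype.ext hs)
    exact h2
  · intro h1 s t hs
    have h2 := h1 (subE hAT h s) (subE hAT h t) (congrArg Subtype.val hs)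
    rw [← map_mul] at h2
    exact h2

/-- The isomorphism of `M` as a subgroup of `S` and `M`. -/
def eM (hMS : M ≤ S) : ↥(M.subgroupOf S) ≃* M :=
  subE hMS fun _ => Iff.rfl

theorem mapCh_eq (hMS : M ≤ S) (τ : Finset (Subgroup ↥(M.subgroupOf S))) :
    mapCh S.subtype (mapCh (M.subgroupOf S).subtype τ) =
      mapCh M.subtype (mapCh (eM M S hMS).toMonoidHom τ) := by
  rw [mapCh_comp, mapCh_comp]
  rfl

theorem mem_stb_iff (hMS : M ≤ S) (τ : Finset (Subgroup ↥(M.subgroupOf S))) (x : S) :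
    x ∈ (⊤ : Subgroup S) ⊓ stb (mapCh (M.subgroupOf S).subtype τ) ↔
      (x : K) ∈ S ⊓ stb (mapCh M.subtype (mapCh (eM M S hMS).toMonoidHom τ)) := by
  rw [← mapCh_eq, ← comap_stb_mapCh (i := S.subtype) S.subtype_injective]
  constructor
  · intro h
    exact ⟨x.2, h.2⟩
  · intro h
    exact ⟨trivial, h.2⟩

theorem mem_SL_iff (hMS : M ≤ S) (τ : Finset (Subgroup ↥(M.subgroupOf S)))
    (x : ↥(S.comap π)) : x ∈ SL (π.subgroupComap S) (M.subgroupOf S) τ ⊤ ↔
      (x : L) ∈ SL π M (mapCh (eM M S hMS).toMonoidHom τ) S :=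
  mem_stb_iff M S hMS τ (π.subgroupComap S x)

theorem SL_le (τ : Finset (Subgroup M)) : SL π M τ S ≤ S.comap π :=
  Subgroup.comap_mono inf_le_left

variable [Fintype L] [Fintype K]

open Classical in
/-- The sum over the chains for `S` is a sum of sums over the chains for the group `S`. -/
theorem split (𝔐 : Ideal (integralClosure ℤ ℂ)) (ℓ d : ℕ) [hMn : M.Normal] (hMS : M ≤ S)
    (μ : π.ker →* ℂˣ) (ω : L → (integralClosure ℤ ℂ) ⧸ 𝔐) :
    ∃ F : Finset (↥(S.comap π) → (integralClosure ℤ ℂ) ⧸ 𝔐),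
      (∀ ω' ∈ F, (∃ c, ω' = rsN ((M.subgroupOf S).comap (π.subgroupComap S)) c) ∧
        ∀ g ∈ M.comap π, pair 𝔐 (fun y => conjInd ((S.comap π).subtype y) g) ω' = ω g) ∧
      PHU 𝔐 ℓ d π μ M S ω =
        ∑ ω' ∈ F, PHU 𝔐 ℓ d (π.subgroupComap S) (muS π S μ) (M.subgroupOf S) ⊤ ω' := by
  let N : Subgroup ↥(S.comap π) := (M.subgroupOf S).comap (π.subgroupComap S)
  let Call : Finset (↥(S.comap π) → (integralClosure ℤ ℂ) ⧸ 𝔐) :=
    (Ch ℓ (⊥ : Subgroup ↥(M.subgroupOf S))).biUnion fun τ =>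
      (irrF ↥(SL (π.subgroupComap S) (M.subgroupOf S) τ ⊤)).image fun ψ =>
        rsN N (cen 𝔐 (SL (π.subgroupComap S) (M.subgroupOf S) τ ⊤).subtype ψ)
  let F : Finset (↥(S.comap π) → (integralClosure ℤ ℂ) ⧸ 𝔐) :=
    Call.filter fun ω' => ∀ g ∈ M.comap π,
      pair 𝔐 (fun y => conjInd ((S.comap π).subtype y) g) ω' = ω g
  have hF : ∀ ω' ∈ F, (∃ c, ω' = rsN N c) ∧
        ∀ g ∈ M.comap π, pair 𝔐 (fun y => conjInd ((S.comap π).subtype y) g) ω' = ω g := by
    intro ω' hω'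
    obtain ⟨h1, h2⟩ := Finset.mem_filter.1 hω'
    obtain ⟨τ, -, h3⟩ := Finset.mem_biUnion.1 h1
    obtain ⟨ψ, -, h4⟩ := Finset.mem_image.1 h3
    exact ⟨⟨_, h4.symm⟩, h2⟩
  refine ⟨F, hF, ?_⟩
  unfold PHU
  rw [Finset.sum_comm]
  have hb : (⊥ : Subgroup M) = (⊥ : Subgroup ↥(M.subgroupOf S)).map (eM M S hMS).toMonoidHom :=
    Subgroup.map_bot _ |>.symm
  rw [hb, sum_Ch_equiv]
  refine Finset.sum_congr rfl fun τ hτ => ?_
  rw [← Finset.mul_sum, ← Finset.mul_sum]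
  rw [card_mapCh (i := (eM M S hMS).toMonoidHom) (eM M S hMS).injective]
  have hc : Nat.card ↥(S ⊓ stb (mapCh M.subtype (mapCh (eM M S hMS).toMonoidHom τ))) =
      Nat.card ↥((⊤ : Subgroup S) ⊓ stb (mapCh (M.subgroupOf S).subtype τ)) :=
    (Nat.card_congr (subE inf_le_left (mem_stb_iff M S hMS τ)).toEquiv).symm
  rw [hc, ← Nat.cast_sum]
  congr 3
  rw [← card_irr_equiv (subE (SL_le π M S _) (mem_SL_iff π M S hMS τ))
    (fun ψ => OvL (π.subgroupComap S).ker (muS π S μ) _ ψ ∧ HasDefect ℓ ψ d ∧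
      ∀ g ∈ M.comap π, cen 𝔐 ((S.comap π).subtype.comp
        (SL (π.subgroupComap S) (M.subgroupOf S) τ ⊤).subtype) ψ g = ω g)]
  · rw [card_split (fun ψ => rsN N
      (cen 𝔐 (SL (π.subgroupComap S) (M.subgroupOf S) τ ⊤).subtype ψ)) _ _ _ F]
    · refine Finset.sum_congr rfl fun ω' hω' => ?_
      obtain ⟨⟨c, hc⟩, -⟩ := hF ω' hω'
      refine Nat.card_congr (Equiv.subtypeEquivRight fun ψ => ?_)
      rw [rsN_eq_iff hc]
    · intro ψ hψ
      rw [Finset.mem_filter]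
      have h3 : ∀ g ∈ M.comap π, cen 𝔐 ((S.comap π).subtype.comp
          (SL (π.subgroupComap S) (M.subgroupOf S) τ ⊤).subtype) ψ g =
          pair 𝔐 (fun y => conjInd ((S.comap π).subtype y) g) (rsN N
            (cen 𝔐 (SL (π.subgroupComap S) (M.subgroupOf S) τ ⊤).subtype ψ)) := by
        intro g hg
        rw [pair_rsN 𝔐 (S.comap π).subtype (M.comap π) N (fun y hy => hy) hg]
        exact MXM.cen_comp 𝔐 _ _ hψ g
      constructor
      · intro h1
        refine ⟨Finset.mem_biUnion.2 ⟨τ, hτ, Finset.mem_image_of_mem _ (mem_irrF.2 hψ)⟩,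
          fun g hg => ?_⟩
        rw [← h3 g hg]
        exact h1 g hg
      · rintro ⟨-, h1⟩ g hg
        rw [h3 g hg]
        exact h1 g hg
  · intro ψ hψ
    rw [ovl_iff, hasDefect_comp_equiv]
    have h4 := cen_comp_equiv 𝔐 (subE (SL_le π M S _) (mem_SL_iff π M S hMS τ))
      (SL π M (mapCh (eM M S hMS).toMonoidHom τ) S).subtype ψ
    rw [← h4]
    rfl

omit [Fintype K] in
/-- The central functions which occur are positive. -/
theorem pos (𝔐 : Ideal (integralClosure ℤ ℂ)) (ℓ : ℕ) [hMn : M.Normal] (hMS : M ≤ S)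
    (μ : π.ker →* ℂˣ) (ω : L → (integralClosure ℤ ℂ) ⧸ 𝔐) (hω : Pos 𝔐 ℓ π μ M ω)
    (ω' : ↥(S.comap π) → (integralClosure ℤ ℂ) ⧸ 𝔐)
    (h1 : ∃ c, ω' = rsN ((M.subgroupOf S).comap (π.subgroupComap S)) c)
    (h2 : ∀ g ∈ M.comap π, pair 𝔐 (fun y => conjInd ((S.comap π).subtype y) g) ω' = ω g) :
    Pos 𝔐 ℓ (π.subgroupComap S) (muS π S μ) (M.subgroupOf S) ω' := by
  intro θ hθ hO hd hc
  obtain ⟨c, hc'⟩ := h1
  have hT : M.comap π ≤ S.comap π := Subgroup.comap_mono hMS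
  let e : ↥((M.subgroupOf S).comap (π.subgroupComap S)) ≃* ↥(M.comap π) :=
    subE hT fun _ => Iff.rfl
  have he : (fun y => (fun x => θ (e.symm x)) (e y)) = θ := by
    funext y
    exact congrArg θ (e.symm_apply_apply y)
  refine hω (fun x => θ (e.symm x)) (hθ.comp_mulEquiv e.symm) ?_ ?_ ?_
  · rw [← ovl_iff π S μ (B := (M.subgroupOf S).comap (π.subgroupComap S)) hT (fun _ => Iff.rfl)]
    exact hO
  · rw [← hasDefect_comp_equiv e, he, ← Nat.card_congr (kerE π S).toEquiv]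
    exact hd
  · intro g hg
    rw [← h2 g hg, ← (rsN_eq_iff hc').2 hc,
      pair_rsN 𝔐 (S.comap π).subtype (M.comap π) _ (fun y hy => hy) hg,
      ← MXM.cen_comp 𝔐 (S.comap π).subtype _ hθ g]
    have h4 := cen_comp_equiv 𝔐 e (M.comap π).subtype (fun x => θ (e.symm x))
    rw [he] at h4
    rw [← h4]
    rfl

end Sub

end PS3

open _root_.Pool.Agent.DPF.PS3 in
/-- PS3: the sum over the chains of a normal subgroup vanishes for the subgroups which
contain `M`. -/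
theorem PS3_thm (h1 : Stmt_PS2) : Stmt_PS3 := by
  intro L K H _ _ _ _ _ _ 𝔐 ℓ _ h𝔐 hℓ π hπ hZ μ M _ p hp hpM P hP ω hω V hV d
  have hMS : M ≤ V.comap p := fun x hx => by
    rw [Subgroup.mem_comap, (hpM x).2 hx]
    exact V.one_mem
  classical
  obtain ⟨F, hF, hsum⟩ := split π M (V.comap p) 𝔐 ℓ d hMS μ ω
  rw [hsum]
  refine Finset.sum_eq_zero fun ω' hω' => ?_
  obtain ⟨h2, h3⟩ := hF ω' hω'
  refine h1 ↥((V.comap p).comap π) ↥(V.comap p) ↥V 𝔐 ℓ h𝔐 hℓ (π.subgroupComap (V.comap p)) ?_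
    ?_ (muS π (V.comap p) μ) hV (M.subgroupOf (V.comap p)) (p.subgroupComap V) ?_ ?_
    (P.subgroupOf V) (sylAb hP V) ω' (pos π M (V.comap p) 𝔐 ℓ hMS μ ω hω ω' h2 h3) d
  · intro y
    obtain ⟨x, hx⟩ := hπ y
    refine ⟨⟨x, ?_⟩, Subtype.ext hx⟩
    rw [Subgroup.mem_comap, hx]
    exact y.2
  · intro z hz
    rw [Subgroup.mem_center_iff]
    intro g
    have h4 : (z : L) ∈ π.ker := congrArg Subtype.val hz
    exact Subtype.ext ((Subgroup.mem_center_iff.1 (hZ h4)) g)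
  · intro y
    obtain ⟨x, hx⟩ := hp y
    refine ⟨⟨x, ?_⟩, Subtype.ext hx⟩
    rw [Subgroup.mem_comap, hx]
    exact y.2
  · intro k
    rw [Subgroup.mem_subgroupOf, ← hpM]
    constructor
    · intro h
      exact congrArg Subtype.val h
    · intro h
      exact Subtype.ext h

end Pool.Agent.DPF


end

section

/-!
# PS3r: the sums over the chains of `M` vanish for the subgroups which contain `M`, for a class
-/

set_option autoImplicit false

namespace Pool.Agent.DPK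

open Pool.Agent.DP Pool.Agent.DPC Pool.Agent.DPM Pool.Agent.DPN Pool.Agent.DPT Pool.Agent.DPF
open Pool.Agent.Lib_helper13
open Representation
open Pool.Agent.Lib_helper13.Dade (pCore DadeHolds dadeSum)

open Pool.Agent.DPF.PS3 in
/-- PS3r: the sum over the chains of a normal subgroup vanishes for the subgroups which
contain `M`. -/
theorem PS3r_thm (Cl : ∀ (Y : Type) [Group Y], Prop) (hC : GC Cl) (h1 : Stmt_PS2r Cl) :
    Stmt_PS3r Cl := by
  intro L K H _ _ _ _ _ _ 𝔐 ℓ _ h𝔐 hℓ π hπ hZ μ M _ p hp hpM P hP ω hω V hCK hV d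
  have hMS : M ≤ V.comap p := fun x hx => by
    rw [Subgroup.mem_comap, (hpM x).2 hx]
    exact V.one_mem
  classical
  obtain ⟨F, hF, hsum⟩ := split π M (V.comap p) 𝔐 ℓ d hMS μ ω
  rw [hsum]
  refine Finset.sum_eq_zero fun ω' hω' => ?_
  obtain ⟨h2, h3⟩ := hF ω' hω'
  refine h1 ↥((V.comap p).comap π) ↥(V.comap p) ↥V 𝔐 ℓ h𝔐 hℓ (π.subgroupComap (V.comap p)) ?_
    ?_ (muS π (V.comap p) μ) (hC.sub hCK (V.comap p)) hV (M.subgroupOf (V.comap p))
    (p.subgroupComap V) ?_ ?_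
    (P.subgroupOf V) (sylAb hP V) ω' (pos π M (V.comap p) 𝔐 ℓ hMS μ ω hω ω' h2 h3) d
  · intro y
    obtain ⟨x, hx⟩ := hπ y
    refine ⟨⟨x, ?_⟩, Subtype.ext hx⟩
    rw [Subgroup.mem_comap, hx]
    exact y.2
  · intro z hz
    rw [Subgroup.mem_center_iff]
    intro g
    have h4 : (z : L) ∈ π.ker := congrArg Subtype.val hz
    exact Subtype.ext ((Subgroup.mem_center_iff.1 (hZ h4)) g)
  · intro y
    obtain ⟨x, hx⟩ := hp y
    refine ⟨⟨x, ?_⟩, Subtype.ext hx⟩
    rw [Subgroup.mem_comap, hx]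
    exact y.2
  · intro k
    rw [Subgroup.mem_subgroupOf, ← hpM]
    constructor
    · intro h
      exact congrArg Subtype.val h
    · intro h
      exact Subtype.ext h

end Pool.Agent.DPK


end

section

/-!
# LIFT: transports and the group of the data
-/

namespace Pool.Agent.DP

open Pool.Agent.Lib_helper13 Representation
open Pool.Agent.Lib_helper13.Dade (pCore DadeHolds)

namespace LIFT

variable {O G B C Y K : Type*} [Group G] [Group B] [Group C] [Group Y] [Group K]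

theorem vg_mono (ρ : B →* C) (p : Y →* K) (φ : Y →* Gam (Equiv.Perm O) O B) {J J' : Subgroup K}
    (h : J ≤ J') (o : O) : vg ρ p φ J o ≤ vg ρ p φ J' o := by
  rintro c ⟨y, hy1, hy2, hy3⟩
  exact ⟨y, h hy1, hy2, hy3⟩

theorem exists_iota {ι : G →* B} {κ : B →* MulAut G} {ρ : B →* C} (h : ClG ι κ ρ) {a b : B}
    (hab : ρ a = ρ b) : ∃ x, a = ι x * b := by
  have h1 : ρ (a * b⁻¹) = 1 := by rw [map_mul, map_inv, hab, mul_inv_cancel]
  obtain ⟨x, hx⟩ := (h.ker _).mp h1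
  exact ⟨x, by rw [hx, inv_mul_cancel_right]⟩

end LIFT

open _root_.Pool.Agent.DP.LIFT in
theorem LIFT_thm (h1 : Stmt_TRBR) (h2 : Stmt_REPJ) (h3 : Stmt_PERAR) (h4 : Stmt_CGT) :
    Stmt_LIFT := by
  intro O G B C Y K _ _ _ _ _ _ _ _ _ _ _ 𝔐 ℓ _ ι κ ρ hL j p φ hE J r t hr τ hτ θ hθ g hg htr
  obtain ⟨-, -, hrep⟩ := h2 O G B C Y K ℓ ι κ ρ hL j p φ hE J
  obtain ⟨hrr, hvg, hzz⟩ := hrep r t hr
  obtain ⟨hst, htrb⟩ := h1 O G B C 𝔐 ℓ ι κ ρ hL τ θ hθ
  constructor
  · constructor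
    · intro hJ o
      obtain ⟨-, -, -, -, h5⟩ := h3 O G B C Y K ℓ ι κ ρ hL j p φ hE τ hτ θ hθ
      exact (vg_mono ρ p φ hJ (r o)).trans (h5 (r o))
    · intro hJ k hk
      obtain ⟨y0, rfl⟩ := hE.surj k
      have hr' : ∀ o, r ((φ y0).right⁻¹ • o) = r o := by
        intro o
        have := hr.con y0⁻¹ (by rw [map_inv]; exact J.inv_mem hk) o
        rw [map_inv, SemidirectProduct.inv_right] at this
        exact this
      have hx : ∀ o, ∃ x, ι x * zz φ g y0 o ∈ Stx κ (comp τ (r o)) (θ (r o)) := by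
        intro o
        obtain ⟨s, hs, hs'⟩ := hJ o (hzz y0 hk g hg o)
        obtain ⟨x, hx⟩ := exists_iota hL.cl hs'
        exact ⟨x, by rw [← hx]; exact hs⟩
      choose x hx using hx
      refine ⟨j (fun o => κ (g o) (x o)) * y0, ?_, ?_⟩
      · intro o
        have e1 : (φ (j (fun o => κ (g o) (x o)) * y0)).right = (φ y0).right := by
          rw [map_mul, hE.jn, SemidirectProduct.mul_right, SemidirectProduct.right_inl, one_mul]
        have e2 : (φ (j (fun o => κ (g o) (x o)) * y0)).left o =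
            g o * (ι (x o) * zz φ g y0 o) * (g ((φ y0).right⁻¹ • o))⁻¹ := by
          rw [map_mul, hE.jn, SemidirectProduct.mul_left, SemidirectProduct.left_inl,
            SemidirectProduct.right_inl, map_one, MulAut.one_apply, Pi.mul_apply, hL.cl.act, zz]
          group
        rw [e1, e2]
        have t1 : trB κ τ θ ((φ y0).right⁻¹ • o) (r o) (g ((φ y0).right⁻¹ • o))⁻¹ := by
          have := (htr ((φ y0).right⁻¹ • o)).inv
          rw [hr' o] at this
          exact this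
        have t2 : trB κ τ θ (r o) (r o) (ι (x o) * zz φ g y0 o) := (hst _ _).mpr (hx o)
        rw [mul_assoc]
        exact (htr o).mul (t2.mul t1)
      · rw [map_mul]
        have : p (j (fun o => κ (g o) (x o))) = 1 := (hE.cl.ker _).mpr ⟨_, rfl⟩
        rw [this, one_mul]
  · intro o
    unfold bts
    rw [← hvg o, (htrb (r o) o (g o) (htr o)).2.2.2.2.2]
    refine Set.image_congr ?_
    rintro _ ⟨f, -, rfl⟩
    obtain ⟨n, hn⟩ := exists_iota hL.cl (hg o)
    obtain ⟨-, -, -, -, h5⟩ := h4 G B C 𝔐 ι κ ρ hL.cl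
    funext x
    have e : (g o)⁻¹ * x * g o = ι (κ ((φ (t o)).left o)⁻¹ n⁻¹) *
        (((φ (t o)).left o)⁻¹ * x * (φ (t o)).left o) *
        (ι (κ ((φ (t o)).left o)⁻¹ n⁻¹))⁻¹ := by
      rw [hn, hL.cl.act, map_inv]
      group
    rw [e, h5]

end Pool.Agent.DP


end

section

/-!
# KAIB: every irreducible representation of the local block occurs
-/

namespace Pool.Agent.DPW

open Pool.Agent.DP Pool.Agent.DPV Pool.Agent.DPB Pool.Agent.Lib_helper13 Representation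

namespace KAIB

section

variable {F T V W : Type} [Field F] [Group T] [Fintype T] [AddCommGroup V] [Module F V]
  [AddCommGroup W] [Module F W]

theorem Zop_comm (ρ : Representation F T V) {z : T → F} (hz : z ∈ CF F T) (g : T) (v : V) :
    ρ g (Zop ρ z v) = Zop ρ z (ρ g v) := by
  rw [KE.Zop_apply, KE.Zop_apply, map_sum]
  refine Fintype.sum_equiv (MulAut.conj g).toEquiv _ _ fun h => ?_
  have e1 : z (g * h * g⁻¹) = z h := hz g h
  change ρ g (z h • ρ h v) = z (g * h * g⁻¹) • ρ (g * h * g⁻¹) (ρ g v)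
  rw [e1, map_smul, ← Module.End.mul_apply, ← Module.End.mul_apply, ← map_mul, ← map_mul,
    inv_mul_cancel_right]

theorem Zop_cvF (ρ : Representation F T V) (a b : T → F) (v : V) :
    Zop ρ (cvF a b) v = Zop ρ a (Zop ρ b v) := by
  rw [KE.Zop_apply, KE.Zop_apply, KE.Zop_apply]
  have h1 : ∀ x : T, cvF a b x • ρ x v = ∑ y, (a y * b (y⁻¹ * x)) • ρ x v := by
    intro x
    unfold cvF
    rw [Finset.sum_smul]
  rw [Finset.sum_congr rfl fun x _ => h1 x, Finset.sum_comm]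
  refine Finset.sum_congr rfl fun y _ => ?_
  rw [map_sum, Finset.smul_sum]
  refine Fintype.sum_equiv (Equiv.mulLeft y⁻¹) _ _ fun x => ?_
  change (a y * b (y⁻¹ * x)) • ρ x v = a y • ρ y (b (y⁻¹ * x) • ρ (y⁻¹ * x) v)
  rw [map_smul, smul_smul, ← Module.End.mul_apply, ← map_mul, mul_inv_cancel_left]

/-- The operator of a central element and of its image under the Brauer homomorphism on fixed
vectors of `P`. -/
theorem brauer_mod {ℓ : ℕ} [Fact ℓ.Prime] (P : Subgroup T) [Fintype (NP P)]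
    (hP : Nat.card P = ℓ) (ρ : Representation F T V) (σ : Representation F (NP P) W)
    (hσ : ∀ p : NP P, (p : T) ∈ P → σ p = 1) (j : W →ₗ[F] V)
    (hj : ∀ (n : NP P) (w : W), j (σ n w) = ρ (n : T) (j w)) {z : T → F} (hz : z ∈ CF F T)
    (w : W) : Zop ρ z (j w) - j (Zop σ (brz P z) w) ∈ LinearMap.range (tN P ρ) := by
  classical
  -- `j w` is fixed by `P`
  have hfix : ∀ p ∈ P, ρ p (j w) = j w := by
    intro p hp
    have hpN : p ∈ Subgroup.normalizer (P : Set T) := Subgroup.le_normalizer hp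
    have h3 := hj ⟨p, hpN⟩ w
    rw [hσ ⟨p, hpN⟩ hp] at h3
    exact h3.symm
  have hμ : Zop ρ z (j w) = ∑ h, z h • ρ h (j w) := KE.Zop_apply _ _ _
  have hμ' : j (Zop σ (brz P z) w) = ∑ h, (if h ∈ Subgroup.centralizer (P : Set T) then
      z h • ρ h (j w) else 0) := by
    rw [KE.Zop_apply, map_sum]
    refine Fintype.sum_of_injective (fun n : NP P => (n : T)) Subtype.val_injective _ _ ?_ ?_
    · intro h hh
      rw [if_neg]
      intro hC
      apply hh
      have hN : h ∈ Subgroup.normalizer (P : Set T) :=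
        Subgroup.centralizer_le_normalizer (P : Set T) hC
      exact ⟨⟨h, hN⟩, rfl⟩
    · intro n
      rw [map_smul, hj]
      unfold brz
      split_ifs
      · rfl
      · rw [zero_smul]
  have key : Zop ρ z (j w) - j (Zop σ (brz P z) w) ∈
      (LinearMap.range (tN P ρ)).toAddSubgroup := by
    rw [hμ, hμ', ← Finset.sum_sub_distrib]
    let _ := KE.conjAct P
    have hsm : ∀ (p : P) (h : T), p • h = (p : T) * h * (p : T)⁻¹ := fun _ _ => rfl
    refine KE.orbit_sum (Q := P) _ _ fun h => ?_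
    by_cases hC : h ∈ Subgroup.centralizer (P : Set T)
    · left
      intro p
      have h3 : p • h = h := by
        rw [hsm, Subgroup.mem_centralizer_iff.mp hC p p.2, mul_inv_cancel_right]
      rw [h3, if_pos hC, sub_self]
    · right
      refine ⟨?_, ?_⟩
      · intro p hp
        by_contra hp1
        apply hC
        rw [Subgroup.mem_centralizer_iff]
        intro q hq
        have h3 : (⟨q, hq⟩ : P) ∈ Subgroup.zpowers p := mem_zpowers_of_prime_card hP hp1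
        obtain ⟨k, hk⟩ := Subgroup.mem_zpowers_iff.mp h3
        have h4 : Commute (p : T) h := by
          rw [hsm] at hp
          exact mul_inv_eq_iff_eq_mul.mp hp
        have h5 : ((p : T) ^ k) = q := by
          have := congrArg Subtype.val hk
          simpa using this
        rw [← h5]
        exact (h4.zpow_left k).eq
      · have hn : ∀ p : P, p • h ∉ Subgroup.centralizer (P : Set T) := by
          intro p hp
          apply hC
          have h3 : (p : T)⁻¹ * (p • h) * (p : T) = h := by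
            rw [hsm]
            group
          rw [Subgroup.mem_centralizer_iff]
          intro q hq
          have h6 := Subgroup.mem_centralizer_iff.mp hp ((p : T) * q * (p : T)⁻¹)
            (P.mul_mem (P.mul_mem p.2 hq) (P.inv_mem p.2))
          rw [← h3]
          calc q * ((p : T)⁻¹ * (p • h) * (p : T))
              = (p : T)⁻¹ * (((p : T) * q * (p : T)⁻¹) * (p • h)) * (p : T) := by group
            _ = (p : T)⁻¹ * ((p • h) * ((p : T) * q * (p : T)⁻¹)) * (p : T) := by rw [h6]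
            _ = (p : T)⁻¹ * (p • h) * (p : T) * q := by group
        have hs : ∑ p : P, (z (p • h) • ρ (p • h) (j w) -
            if p • h ∈ Subgroup.centralizer (P : Set T) then z (p • h) • ρ (p • h) (j w) else 0) =
            tN P ρ (z h • ρ h (j w)) := by
          rw [KE.tN_apply]
          refine Finset.sum_congr rfl fun p _ => ?_
          rw [if_neg (hn p), sub_zero]
          have e1 : z (p • h) = z h := hz (p : T) h
          have e2 : ρ (p • h) (j w) = ρ (p : T) (ρ h (j w)) := by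
            rw [hsm, map_mul, map_mul]
            show ρ (p : T) (ρ h (ρ (p : T)⁻¹ (j w))) = _
            rw [hfix _ (P.inv_mem p.2)]
          rw [e1, e2, map_smul]
        rw [hs]
        exact ⟨_, rfl⟩
  exact key

/-- The representation on a stable subspace. -/
def subRep (ρ : Representation F T V) (R : Submodule F V) (h : ∀ g, ∀ v ∈ R, ρ g v ∈ R) :
    Representation F T R where
  toFun g := (ρ g).restrict (h g)
  map_one' := by
    ext v
    change ρ 1 (v : V) = v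
    rw [map_one]
    rfl
  map_mul' := by
    intro a b
    ext v
    change ρ (a * b) (v : V) = ρ a (ρ b v)
    rw [map_mul]
    rfl

/-- Transport of a representation. -/
def trn (ρ : Representation F T V) (e : V ≃ₗ[F] W) : Representation F T W where
  toFun := fun g => e.toLinearMap ∘ₗ ρ g ∘ₗ e.symm.toLinearMap
  map_one' := by
    rw [map_one]
    refine LinearMap.ext fun v => ?_
    show e (e.symm v) = v
    exact e.apply_symm_apply v
  map_mul' := by
    intro a b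
    rw [map_mul]
    refine LinearMap.ext fun v => ?_
    show e (ρ a (ρ b (e.symm v))) = e (ρ a (e.symm (e (ρ b (e.symm v)))))
    rw [e.symm_apply_apply]

theorem trn_apply (ρ : Representation F T V) (e : V ≃ₗ[F] W) (g : T) (v : V) :
    trn ρ e g (e v) = e (ρ g v) := by
  show e (ρ g (e.symm (e v))) = _
  rw [e.symm_apply_apply]

/-- The part of a representation on which a central idempotent acts as the identity. -/
theorem core {ℓ : ℕ} [Fact ℓ.Prime] [Module.Finite F V] (P : Subgroup T) [Fintype (NP P)]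
    (hP : Nat.card P = ℓ) (ρ : Representation F T V) (σ : Representation F (NP P) W)
    (hσ : ∀ p : NP P, (p : T) ∈ P → σ p = 1) (j : W →ₗ[F] V)
    (hj : ∀ (n : NP P) (w : W), j (σ n w) = ρ (n : T) (j w)) {z : T → F} (hz : z ∈ CF F T)
    (hzz : cvF z z = z) (hσz : Zop σ (brz P z) = 1)
    (hw : ∃ w, j w ∉ LinearMap.range (tN P ρ)) :
    ∃ (n : ℕ) (ρ' : Representation F T (Fin n → F)), Emb P ρ' σ ∧ Zop ρ' z = 1 := by
  have hEE : ∀ v, Zop ρ z (Zop ρ z v) = Zop ρ z v := by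
    intro v
    have h := Zop_cvF ρ z z v
    rw [hzz] at h
    exact h.symm
  have hR : ∀ g, ∀ v ∈ LinearMap.range (Zop ρ z), ρ g v ∈ LinearMap.range (Zop ρ z) := by
    rintro g _ ⟨v, rfl⟩
    exact ⟨ρ g v, (Zop_comm ρ hz g v).symm⟩
  let ρR : Representation F T (LinearMap.range (Zop ρ z)) := subRep ρ _ hR
  have hρR : ∀ (g : T) (v : LinearMap.range (Zop ρ z)),
      ((ρR g v : LinearMap.range (Zop ρ z)) : V) = ρ g v := fun _ _ => rfl
  let jR : W →ₗ[F] LinearMap.range (Zop ρ z) := (Zop ρ z).rangeRestrict ∘ₗ j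
  have hjR : ∀ w, ((jR w : LinearMap.range (Zop ρ z)) : V) = Zop ρ z (j w) :=
    fun _ => rfl
  set n := Module.finrank F (LinearMap.range (Zop ρ z)) with hn
  let eq : LinearMap.range (Zop ρ z) ≃ₗ[F] (Fin n → F) :=
    (Module.finBasis F (LinearMap.range (Zop ρ z))).equivFun
  refine ⟨n, trn ρR eq, ⟨eq.toLinearMap ∘ₗ jR, ?_, ?_⟩, ?_⟩
  · intro g w
    show eq (jR (σ g w)) = trn ρR eq g (eq (jR w))
    rw [trn_apply]
    congr 1
    apply Subtype.ext
    rw [hρR, hjR, hjR, hj, Zop_comm ρ hz]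
  · obtain ⟨w, hw⟩ := hw
    refine ⟨w, ?_⟩
    rintro ⟨v, hv⟩
    have h1 : tN P (trn ρR eq) v = eq (tN P ρR (eq.symm v)) := by
      rw [KE.tN_apply, KE.tN_apply, map_sum]
      refine Finset.sum_congr rfl fun h _ => ?_
      rfl
    rw [h1] at hv
    have h2 : tN P ρR (eq.symm v) = jR w := eq.injective hv
    have h3 : tN P ρ ((eq.symm v : LinearMap.range (Zop ρ z)) : V) = Zop ρ z (j w) := by
      rw [← hjR, ← h2, KE.tN_apply, KE.tN_apply, AddSubmonoidClass.coe_finsetSum]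
      refine Finset.sum_congr rfl fun h _ => ?_
      rfl
    have h4 := brauer_mod P hP ρ σ hσ j hj hz w
    rw [hσz] at h4
    apply hw
    have h6 : j w = Zop ρ z (j w) - (Zop ρ z (j w) - j ((1 : Module.End F W) w)) := by
      rw [sub_sub_cancel]
      rfl
    rw [h6]
    exact Submodule.sub_mem _ ⟨_, h3⟩ h4
  · refine LinearMap.ext fun v => ?_
    obtain ⟨u, rfl⟩ := eq.surjective v
    have h1 : Zop (trn ρR eq) z (eq u) = eq (Zop ρR z u) := by
      rw [KE.Zop_apply, KE.Zop_apply, map_sum]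
      refine Finset.sum_congr rfl fun h _ => ?_
      rw [trn_apply, map_smul]
    rw [h1]
    show eq (Zop ρR z u) = eq u
    congr 1
    apply Subtype.ext
    have h2 : ((Zop ρR z u : LinearMap.range (Zop ρ z)) : V) = Zop ρ z u := by
      rw [KE.Zop_apply, KE.Zop_apply, AddSubmonoidClass.coe_finsetSum]
      refine Finset.sum_congr rfl fun h _ => ?_
      rfl
    rw [h2]
    obtain ⟨v0, hv0⟩ := u.2
    rw [← hv0, hEE]

end

end KAIB

open _root_.Pool.Agent.DPW.KAIB in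
theorem KAIB_thm : Stmt_KAIB := by
  intro ℓ _ F T W _ _ _ _ _ _ _ P _ x₀ e hB σ hirr hσe
  -- `P` acts trivially on `W`
  have htriv : ∀ p : NP P, (p : T) ∈ P → σ p = 1 := by
    intro p hp
    have hle : P ≤ Subgroup.normalizer (P : Set T) := Subgroup.le_normalizer
    have hc : Nat.card (P.subgroupOf (Subgroup.normalizer (P : Set T))) = ℓ := by
      rw [← hB.card]
      exact Nat.card_congr (Subgroup.subgroupOfEquivOfLe hle).toEquiv
    exact PTR_thm ℓ F (NP P) W σ (P.subgroupOf (Subgroup.normalizer (P : Set T))) hc hirr p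
      (Subgroup.mem_subgroupOf.2 hp)
  refine core P hB.card (KAI.act P σ) σ htriv (KAI.jj P σ) (KAI.jj_eqv P σ) hB.cf hB.idem hσe ?_
  obtain ⟨w, hw⟩ : ∃ w : W, w ≠ 0 := by
    by_contra hcon
    push Not at hcon
    have hnt : Nontrivial (Subrepresentation σ) := hirr.toNontrivial
    obtain ⟨a, b, hab⟩ := hnt.exists_pair_ne
    apply hab
    ext w
    rw [hcon w]
    exact ⟨fun _ => b.toSubmodule.zero_mem, fun _ => a.toSubmodule.zero_mem⟩
  refine ⟨w, ?_⟩
  rintro ⟨f, hf⟩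
  have h7 := KAI.tN_one P σ ℓ hB.card htriv f
  rw [hf, KAI.jj_one] at h7
  exact hw h7

end Pool.Agent.DPW


end

section

/-!
# Theorem W: only the chains with the conjugates of the defect group contribute
-/

namespace Pool.Agent.DPW

open Pool.Agent.DP Pool.Agent.DPV Pool.Agent.Lib_helper13 Representation
open Pool.Agent.Lib_helper13.Dade (pCore DadeHolds dadeSum)

namespace CHNW

/-- If the central function does not vanish at `x₀`, some conjugate of `x₀` commutes with a given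
normal `ℓ`-subgroup. -/
theorem exists_conj {G : Type} [Group G] [Fintype G] (𝔐 : Ideal (integralClosure ℤ ℂ)) {ℓ : ℕ}
    [Fact ℓ.Prime] (h𝔐 : 𝔐.IsMaximal) (hℓ : (ℓ : integralClosure ℤ ℂ) ∈ 𝔐) {S R : Subgroup G}
    {ψ : G → ℂ} (hψ : IrrOn S ψ) (hRS : R ≤ S) (hn : ∀ s ∈ S, ∀ r ∈ R, s * r * s⁻¹ ∈ R)
    (hR : IsPGroup ℓ R) {x₀ : G} (h0 : cg 𝔐 ψ x₀ ≠ 0) :
    ∃ t : G, ∀ r ∈ R, r * (t * x₀ * t⁻¹) = t * x₀ * t⁻¹ * r := by
  classical
  have hp : 𝔐.IsPrime := h𝔐.isPrime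
  by_contra hc
  apply h0
  rw [← AA.cg_eq 𝔐 S hψ x₀, cen]
  have hnor : (R.subgroupOf S).Normal := by
    constructor
    intro r hr s
    rw [Subgroup.mem_subgroupOf] at hr ⊢
    exact hn s s.2 r hr
  have hR' : IsPGroup ℓ (R.subgroupOf S) :=
    hR.of_injective (Subgroup.subgroupOfEquivOfLe hRS).toMonoidHom
      (Subgroup.subgroupOfEquivOfLe hRS).injective
  have h1 := red_wt_eq 𝔐 hℓ hψ.1 (R.subgroupOf S) hR' (fun s : S => conjInd (S.subtype s) x₀)
    (fun _ => 0)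
    (fun g y => by
      change conjInd (S.subtype (g * y * g⁻¹)) x₀ = _
      rw [map_mul, map_mul, map_inv, conjInd_conj])
    (fun y => isIntegral_conjInd _ _) (fun _ _ => rfl) (fun _ => isIntegral_zero)
    (fun y hy => by
      have : ¬ IsConj (S.subtype y) x₀ := by
        intro hcon
        obtain ⟨t, ht⟩ := isConj_iff.mp hcon.symm
        refine hc ⟨t, fun r hr => ?_⟩
        have h2 := hy ⟨r, hRS hr⟩ (Subgroup.mem_subgroupOf.mpr hr)
        have h3 := congrArg (fun s : S => (s : G)) h2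
        rw [ht]
        exact h3
      rw [conjInd, if_neg this])
  rw [h1]
  have h2 : wt (fun s : S => ψ s) (fun _ => 0) = 0 := by
    simp [wt]
  rw [h2, red_zero]

end CHNW

open _root_.Pool.Agent.DPW.CHNW in
/-- CHNW. -/
theorem CHNW_thm : Stmt_CHNW := by
  classical
  intro G _ _ 𝔐 ℓ hprime h𝔐 hℓ ω P x₀ hAt σ hσ ψ hψ hcg
  rcases σ.eq_empty_or_nonempty with hne | hne
  · exact Or.inl hne
  right
  obtain ⟨Q, hQ, hQmax⟩ := hσ.exists_top hne
  obtain ⟨D, hD, hDmin⟩ := hσ.exists_bot hne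
  have hRp : IsPGroup ℓ ↥(Q ⊓ stb σ) := (hσ.1 Q hQ).1.to_le inf_le_left
  obtain ⟨t, ht⟩ := exists_conj 𝔐 h𝔐 hℓ (S := stb σ) (R := Q ⊓ stb σ) hψ inf_le_right
    (fun s hs r hr => ⟨((mem_stb'.mp hs) Q hQ r).mp hr.1,
      (stb σ).mul_mem ((stb σ).mul_mem hs hr.2) ((stb σ).inv_mem hs)⟩) hRp
    (x₀ := x₀) (by rw [hcg]; exact hAt.ne)
  have hPC : P ≤ Subgroup.centralizer ({x₀} : Set G) := by
    intro u hu
    rw [Subgroup.mem_centralizer_iff]
    intro x hx
    rw [Set.mem_singleton_iff] at hx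
    subst hx
    exact (hAt.cen u hu).symm
  have hRC : (Q ⊓ stb σ).map (MulAut.conj t⁻¹).toMonoidHom ≤
      Subgroup.centralizer ({x₀} : Set G) := by
    rintro _ ⟨q, hq, rfl⟩
    rw [Subgroup.mem_centralizer_iff]
    intro x hx
    rw [Set.mem_singleton_iff] at hx
    subst hx
    have h2 := ht q hq
    change x * (t⁻¹ * q * t⁻¹⁻¹) = t⁻¹ * q * t⁻¹⁻¹ * x
    calc x * (t⁻¹ * q * t⁻¹⁻¹) = t⁻¹ * (t * x * t⁻¹ * q) * t := by group
      _ = t⁻¹ * (q * (t * x * t⁻¹)) * t := by rw [h2]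
      _ = t⁻¹ * q * t⁻¹⁻¹ * x := by group
  obtain ⟨c, hc⟩ := SUPB.syl (ℓ := ℓ) (Subgroup.centralizer ({x₀} : Set G)) P
    ((Q ⊓ stb σ).map (MulAut.conj t⁻¹).toMonoidHom) hPC hAt.card hAt.sq (hRp.map _) hRC
  have hRP : (Q ⊓ stb σ).map (MulAut.conj (c * t⁻¹)).toMonoidHom ≤ P := by
    rintro _ ⟨q, hq, rfl⟩
    have h1 := hc (t⁻¹ * q * t⁻¹⁻¹) ⟨q, hq, rfl⟩
    have h2 : (MulAut.conj (c * t⁻¹)).toMonoidHom q = c * (t⁻¹ * q * t⁻¹⁻¹) * c⁻¹ := by
      change c * t⁻¹ * q * (c * t⁻¹)⁻¹ = _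
      group
    rw [h2]
    exact h1
  have hDR : D ≤ Q ⊓ stb σ := by
    refine le_inf (hQmax D hD) (QN.le_stb.mpr fun E hE => ?_)
    exact (hDmin E hE).trans Subgroup.le_normalizer
  have hDne : D ≠ ⊥ := (hσ.1 D hD).2.ne'
  -- every nontrivial subgroup of `P` is `P`
  have hsub : ∀ A : Subgroup G, A ≠ ⊥ → A ≤ P → A = P := by
    intro A hA hAP
    have h1 : Nat.card A ∣ ℓ := by
      rw [← hAt.card]
      exact Subgroup.card_dvd_of_le hAP
    rcases (Nat.dvd_prime hprime.out).mp h1 with h2 | h2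
    · exact absurd (Subgroup.card_eq_one.mp h2) hA
    · apply Subgroup.eq_of_le_of_card_ge hAP
      rw [h2, hAt.card]
  have hinj : Function.Injective (MulAut.conj (c * t⁻¹)).toMonoidHom :=
    (MulAut.conj (c * t⁻¹)).injective
  have hmne : ∀ A : Subgroup G, A ≠ ⊥ → A.map (MulAut.conj (c * t⁻¹)).toMonoidHom ≠ ⊥ := by
    intro A hA h
    exact hA ((Subgroup.map_eq_bot_iff_of_injective A hinj).mp h)
  have hDm : D.map (MulAut.conj (c * t⁻¹)).toMonoidHom = P :=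
    hsub _ (hmne D hDne) ((Subgroup.map_mono hDR).trans hRP)
  have hRne : Q ⊓ stb σ ≠ ⊥ := by
    intro h
    rw [h] at hDR
    exact hDne (le_bot_iff.mp hDR)
  have hRm : (Q ⊓ stb σ).map (MulAut.conj (c * t⁻¹)).toMonoidHom = P :=
    hsub _ (hmne _ hRne) hRP
  have hDRe : D = Q ⊓ stb σ := Subgroup.map_injective hinj (hDm.trans hRm.symm)
  have hall : ∀ E ∈ σ, E = D := by
    by_contra hcon
    push Not at hcon
    obtain ⟨E, hE, hED⟩ := hcon
    have hne' : (σ.filter (fun E => E ≠ D)).Nonempty := ⟨E, Finset.mem_filter.mpr ⟨hE, hED⟩⟩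
    obtain ⟨E2, hE2, hmin⟩ := (hσ.subset (Finset.filter_subset _ _)).exists_bot hne'
    rw [Finset.mem_filter] at hE2
    have hlt : D < E2 := lt_of_le_of_ne (hDmin E2 hE2.1) (Ne.symm hE2.2)
    have h1 := lt_inf_normalizer (ℓ := ℓ) (hσ.1 E2 hE2.1).1 hlt
    have h2 : E2 ⊓ Subgroup.normalizer (D : Set G) ≤ Q ⊓ stb σ := by
      refine le_inf (inf_le_left.trans (hQmax E2 hE2.1)) (QN.le_stb.mpr fun E' hE' => ?_)
      by_cases h3 : E' = D
      · rw [h3]
        exact inf_le_right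
      · exact (inf_le_left.trans (hmin E' (Finset.mem_filter.mpr ⟨hE', h3⟩))).trans
          Subgroup.le_normalizer
    exact absurd (h1.trans_le h2) (by rw [← hDRe]; exact lt_irrefl D)
  refine ⟨(c * t⁻¹)⁻¹, ?_⟩
  have hDP : D = P.map (MulAut.conj (c * t⁻¹)⁻¹).toMonoidHom := by
    rw [← hDm, Subgroup.map_map]
    have h1 : (MulAut.conj (c * t⁻¹)⁻¹).toMonoidHom.comp (MulAut.conj (c * t⁻¹)).toMonoidHom =
        MonoidHom.id G := by
      ext x
      change (c * t⁻¹)⁻¹ * (c * t⁻¹ * x * (c * t⁻¹)⁻¹) * (c * t⁻¹)⁻¹⁻¹ = x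
      group
    rw [h1, Subgroup.map_id]
  rw [← hDP]
  exact Finset.eq_singleton_iff_unique_mem.mpr ⟨hD, hall⟩

end Pool.Agent.DPW


end

section

/-!
# KAIX: every irreducible representation of the normalizer occurs
-/

namespace Pool.Agent.DPX

open Pool.Agent.DPB Pool.Agent.DPW Representation

namespace KAIX

variable {F T W : Type} [Field F] [Group T] [Fintype T] [AddCommGroup W] [Module F W]

theorem tr1_apply {H V : Type} [Group H] [Fintype H] [AddCommGroup V] [Module F V]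
    (σ : Representation F H W) (ρ : Representation F H V) (f : W →ₗ[F] V) (w : W) :
    tr1 σ ρ f w = ∑ h, ρ h (f (σ h⁻¹ w)) := by
  unfold tr1
  rw [LinearMap.sum_apply]
  rfl

/-- A trace of an endomorphism is zero if a subgroup of order `ℓ` acts trivially. -/
theorem tr_zero {N : Type} [Group N] [Fintype N] (ℓ : ℕ) [CharP F ℓ]
    (σ : Representation F N W) (Q : Subgroup N) (hQ : Nat.card Q = ℓ) (htriv : ∀ q ∈ Q, σ q = 1)
    (G : W →ₗ[F] W) (w : W) : ∑ n, σ n (G (σ n⁻¹ w)) = 0 := by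
  classical
  have : Fintype Q := Fintype.ofFinite Q
  have h0 : ∑ n, σ n (G (σ n⁻¹ w)) = ∑ n, σ n⁻¹ (G (σ n w)) := by
    refine Fintype.sum_equiv (Equiv.inv N) _ _ fun n => ?_
    change σ n (G (σ n⁻¹ w)) = σ (n⁻¹)⁻¹ (G (σ n⁻¹ w))
    rw [inv_inv]
  rw [h0]
  have key : ∑ n, σ n⁻¹ (G (σ n w)) ∈ (⊥ : AddSubgroup W) := by
    refine KE.orbit_sum (Q := Q) (X := N) _ _ fun x => Or.inr ⟨fun q hq => ?_, ?_⟩
    · have h1 : (q : N) * x = x := hq
      exact Subtype.ext (mul_eq_right.mp h1)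
    · have h1 : ∀ q : Q, σ (q • x)⁻¹ (G (σ (q • x) w)) = σ x⁻¹ (G (σ x w)) := by
        intro q
        have h2 : q • x = (q : N) * x := rfl
        rw [h2, mul_inv_rev, map_mul, map_mul, htriv _ q.2, htriv _ (inv_mem q.2)]
        rfl
      rw [Finset.sum_congr rfl fun q _ => h1 q, Finset.sum_const, Finset.card_univ,
        ← Nat.card_eq_fintype_card, hQ, ← Nat.cast_smul_eq_nsmul F, CharP.cast_eq_zero, zero_smul]
      exact AddSubgroup.zero_mem _
  exact key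

end KAIX

open _root_.Pool.Agent.DPX.KAIX in
/-- KAIX. -/
theorem KAIX_thm : Stmt_KAIX := by
  intro ℓ _ F T W _ _ _ _ _ _ _ P₁ _ hP σ hirr
  classical
  have hle : P₁ ≤ Subgroup.normalizer (P₁ : Set T) := Subgroup.le_normalizer
  have hc : Nat.card (P₁.subgroupOf (Subgroup.normalizer (P₁ : Set T))) = ℓ := by
    rw [← hP]
    exact Nat.card_congr (Subgroup.subgroupOfEquivOfLe hle).toEquiv
  have htriv : ∀ q ∈ P₁.subgroupOf (Subgroup.normalizer (P₁ : Set T)), σ q = 1 :=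
    PTR_thm ℓ F (NP P₁) W σ (P₁.subgroupOf (Subgroup.normalizer (P₁ : Set T))) hc hirr
  set d := Module.finrank F (KAI.VV P₁ σ) with hd
  let e : KAI.VV P₁ σ ≃ₗ[F] (Fin d → F) := (Module.finBasis F (KAI.VV P₁ σ)).equivFun
  refine ⟨d, KAIB.trn (KAI.act P₁ σ) e, e.toLinearMap ∘ₗ KAI.jj P₁ σ, ?_, ?_⟩
  · intro n w
    change e (KAI.jj P₁ σ (σ n w)) = KAIB.trn (KAI.act P₁ σ) e (n : T) (e (KAI.jj P₁ σ w))
    rw [KAIB.trn_apply, KAI.jj_eqv]
  · rintro ⟨f, hf⟩
    obtain ⟨w, hw⟩ : ∃ w : W, w ≠ 0 := by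
      by_contra hcon
      push Not at hcon
      have hnt : Nontrivial (Subrepresentation σ) := hirr.toNontrivial
      obtain ⟨a, b, hab⟩ := hnt.exists_pair_ne
      apply hab
      ext w
      rw [hcon w]
      exact ⟨fun _ => b.toSubmodule.zero_mem, fun _ => a.toSubmodule.zero_mem⟩
    apply hw
    -- the evaluation at `1`
    let G : W →ₗ[F] W :=
      { toFun := fun w => (e.symm (f w)).1 1
        map_add' := fun v w => by rw [map_add, map_add]; rfl
        map_smul' := fun c v => by rw [map_smul, map_smul]; rfl }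
    have h1 := LinearMap.congr_fun hf w
    rw [tr1_apply] at h1
    have h2 : KAI.jj P₁ σ w = ∑ n : NP P₁, KAI.act P₁ σ (n : T) (e.symm (f (σ n⁻¹ w))) := by
      apply e.injective
      rw [map_sum]
      exact h1
    have h3 : (KAI.jj P₁ σ w).1 1 = ∑ n : NP P₁, σ n (G (σ n⁻¹ w)) := by
      rw [h2, AddSubmonoidClass.coe_finsetSum, Finset.sum_apply]
      refine Finset.sum_congr rfl fun n _ => ?_
      change (e.symm (f (σ n⁻¹ w))).1 (1 * (n : T)) = σ n ((e.symm (f (σ n⁻¹ w))).1 1)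
      rw [← (e.symm (f (σ n⁻¹ w))).2 n 1, one_mul, mul_one]
    rw [KAI.jj_one, tr_zero ℓ σ _ hc htriv G w] at h3
    exact h3

end Pool.Agent.DPX


end

section

/-!
# KDX: irreducible representations in a block which does not act as a projective map
-/

set_option autoImplicit false

namespace Pool.Agent.DPX

open Pool.Agent.DPB Pool.Agent.DPW Representation

namespace KDX

open Pool.Agent.DPB.KAH Pool.Agent.DPW.KAHB Pool.Agent.DPW.KAIB

section Basic

variable {F H V V' W : Type} [Field F] [Group H] [Fintype H] [AddCommGroup V] [Module F V]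
  [AddCommGroup V'] [Module F V'] [AddCommGroup W] [Module F W]

theorem tr1_apply (σ : Representation F H W) (ρ : Representation F H V) (f : W →ₗ[F] V) (w : W) :
    tr1 σ ρ f w = ∑ h, ρ h (f (σ h⁻¹ w)) := by
  unfold tr1
  rw [LinearMap.sum_apply]
  rfl

theorem tr1_comp {τ : Representation F H V'} {σ : Representation F H W}
    (ρ : Representation F H V) (f : W →ₗ[F] V) {b : V' →ₗ[F] W} (hb : Eqv τ σ b) :
    tr1 τ ρ (f ∘ₗ b) = tr1 σ ρ f ∘ₗ b := by
  apply LinearMap.ext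
  intro v
  rw [LinearMap.comp_apply, tr1_apply, tr1_apply]
  refine Finset.sum_congr rfl fun h _ => ?_
  rw [LinearMap.comp_apply, hb]

theorem comp_tr1 (σ : Representation F H W) {ρ : Representation F H V}
    {ρ' : Representation F H V'} (f : W →ₗ[F] V) {b : V →ₗ[F] V'} (hb : Eqv ρ ρ' b) :
    tr1 σ ρ' (b ∘ₗ f) = b ∘ₗ tr1 σ ρ f := by
  apply LinearMap.ext
  intro v
  rw [LinearMap.comp_apply, tr1_apply, tr1_apply, map_sum]
  refine Finset.sum_congr rfl fun h _ => ?_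
  rw [LinearMap.comp_apply, hb]

theorem tr1_add (σ : Representation F H W) (ρ : Representation F H V) (f g : W →ₗ[F] V) :
    tr1 σ ρ (f + g) = tr1 σ ρ f + tr1 σ ρ g := by
  apply LinearMap.ext
  intro v
  rw [LinearMap.add_apply, tr1_apply, tr1_apply, tr1_apply, ← Finset.sum_add_distrib]
  refine Finset.sum_congr rfl fun h _ => ?_
  rw [LinearMap.add_apply, map_add]

theorem tr1_zero (σ : Representation F H W) (ρ : Representation F H V) :
    tr1 σ ρ (0 : W →ₗ[F] V) = 0 := by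
  apply LinearMap.ext
  intro v
  rw [tr1_apply]
  simp

theorem zop_self (ρ : Representation F H V) {e : H → F} (he : e ∈ CF F H) :
    Eqv ρ ρ (Zop ρ e) := fun g v => (Zop_comm ρ he g v).symm

end Basic

/-- The induction on the dimension. -/
theorem core {F H V : Type} [Field F] [Group H] [Fintype H]
    [AddCommGroup V] [Module F V] (ρ : Representation F H V) (e : H → F)
    (he : e ∈ CF F H) (hee : cvF e e = e) :
    ∀ (d : ℕ) (M : Type) [AddCommGroup M] [Module F M] [Module.Finite F M]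
      (τ : Representation F H M) (φ : M →ₗ[F] V), Module.finrank F M = d → Eqv τ ρ φ →
      Zop ρ e ∘ₗ φ = φ → ¬ Prj τ ρ φ →
      ∃ (m : ℕ) (σ : Representation F H (Fin m → F)) (j : (Fin m → F) →ₗ[F] V),
        σ.IsIrreducible ∧ Zop σ e = 1 ∧ Eqv σ ρ j ∧ ¬ Prj σ ρ j := by
  intro d
  induction d using Nat.strong_induction_on with
  | _ d ih =>
    intro M _ _ _ τ φ hd hφ hZ hP
    by_cases hirr : τ.IsIrreducible
    · let b : M ≃ₗ[F] (Fin (Module.finrank F M) → F) := (Module.finBasis F M).equivFun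
      have hp2 : ∀ x, Zop τ e (Zop τ e x) = Zop τ e x := by
        intro x
        rw [← Zop_cvF, hee]
      have hone : Zop τ e = 1 := by
        let S : Subrepresentation τ := ⟨LinearMap.range (Zop τ e), by
          rintro g _ ⟨v, rfl⟩
          exact ⟨τ g v, zop_self τ he g v⟩⟩
        rcases hirr.eq_bot_or_eq_top S with hS | hS
        · exfalso
          apply hP
          have h1 : LinearMap.range (Zop τ e) = ⊥ := congrArg Subrepresentation.toSubmodule hS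
          have h2 : Zop τ e = 0 := LinearMap.range_eq_bot.1 h1
          refine ⟨0, ?_⟩
          rw [tr1_zero, ← hZ]
          apply LinearMap.ext
          intro v
          rw [LinearMap.comp_apply, ← zop_eqv hφ, h2]
          simp
        · have h1 : LinearMap.range (Zop τ e) = ⊤ := congrArg Subrepresentation.toSubmodule hS
          apply LinearMap.ext
          intro v
          have h2 : v ∈ LinearMap.range (Zop τ e) := by
            rw [h1]
            exact Submodule.mem_top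
          obtain ⟨x, rfl⟩ := h2
          rw [hp2]
          rfl
      refine ⟨_, trans τ b, φ ∘ₗ b.symm.toLinearMap, trans_irr b hirr,
        zop_of_surjective (trans_eqv τ b) b.surjective hone, ?_, ?_⟩
      · intro g v
        rw [LinearMap.comp_apply, LinearMap.comp_apply, trans_apply]
        simp only [LinearEquiv.coe_coe, LinearEquiv.symm_apply_apply]
        exact hφ g _
      · rintro ⟨f, hf⟩
        apply hP
        refine ⟨f ∘ₗ b.toLinearMap, ?_⟩
        rw [tr1_comp ρ f (trans_eqv τ b), ← hf]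
        apply LinearMap.ext
        intro v
        simp
    · have hφ0 : φ ≠ 0 := by
        intro h
        apply hP
        exact ⟨0, by rw [tr1_zero, h]⟩
      have hex : ∃ a : Subrepresentation τ, a ≠ ⊥ ∧ a ≠ ⊤ := by
        by_contra hcon
        push Not at hcon
        apply hirr
        refine { exists_pair_ne := ⟨⊥, ⊤, ?_⟩, eq_bot_or_eq_top := ?_ }
        · intro hbt
          apply hφ0
          apply LinearMap.ext
          intro x
          have hxt : x ∈ (⊤ : Subrepresentation τ) := by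
            change x ∈ (⊤ : Submodule F M)
            trivial
          rw [← hbt] at hxt
          change x ∈ (⊥ : Submodule F M) at hxt
          rw [Submodule.mem_bot] at hxt
          rw [hxt, map_zero, map_zero]
        · intro a
          by_cases ha : a = ⊥
          · exact Or.inl ha
          · exact Or.inr (hcon a ha)
      obtain ⟨a, ha1, ha2⟩ := hex
      have hb1 : a.toSubmodule ≠ ⊥ := fun h => ha1 (Subrepresentation.toSubmodule_injective h)
      have hb2 : a.toSubmodule ≠ ⊤ := fun h => ha2 (Subrepresentation.toSubmodule_injective h)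
      have hlt1 : Module.finrank F a.toSubmodule < d := by
        rw [← hd]
        exact Submodule.finrank_lt hb2
      have hlt2 : Module.finrank F (M ⧸ a.toSubmodule) < d := by
        have h1 := Submodule.finrank_quotient_add_finrank a.toSubmodule
        have h2 : 0 < Module.finrank F a.toSubmodule := by
          rw [Module.finrank_pos_iff]
          exact Submodule.nontrivial_iff_ne_bot.2 hb1
        omega
      have hs : Eqv a.toRepresentation τ a.toSubmodule.subtype := fun g v => rfl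
      by_cases hcase : Prj a.toRepresentation ρ (φ ∘ₗ a.toSubmodule.subtype)
      · obtain ⟨f, hf⟩ := hcase
        obtain ⟨f', hf'⟩ := LinearMap.exists_extend f
        -- the quotient representation
        let τq : Representation F H (M ⧸ a.toSubmodule) :=
          { toFun := fun g => a.toSubmodule.mapQ a.toSubmodule (τ g)
              (fun v hv => a.apply_mem_toSubmodule g hv)
            map_one' := by
              ext v
              simp
            map_mul' := by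
              intro g h
              ext v
              simp }
        have hq : Eqv τ τq a.toSubmodule.mkQ := fun g v => rfl
        have htr : Eqv τ ρ (tr1 τ ρ f') := by
          intro g v
          rw [tr1_apply, tr1_apply, map_sum]
          refine Fintype.sum_equiv (Equiv.mulLeft g⁻¹) _ _ fun h => ?_
          have h1 : τ (g⁻¹ * h)⁻¹ v = τ h⁻¹ (τ g v) := by
            rw [← Module.End.mul_apply, ← map_mul]
            congr 2
            group
          have h2 : ρ g (ρ (g⁻¹ * h) (f' (τ h⁻¹ (τ g v)))) = ρ h (f' (τ h⁻¹ (τ g v))) := by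
            rw [← Module.End.mul_apply, ← map_mul]
            congr 2
            group
          rw [Equiv.coe_mulLeft, h1, h2]
        let φ' : M →ₗ[F] V := φ - Zop ρ e ∘ₗ tr1 τ ρ f'
        have hφ'0 : ∀ x ∈ a.toSubmodule, φ' x = 0 := by
          intro x hx
          have h1 : tr1 τ ρ f' x = φ x := by
            have h2 := LinearMap.congr_fun hf ⟨x, hx⟩
            rw [← hf', tr1_comp ρ f' hs] at h2
            exact h2.symm
          show φ x - Zop ρ e (tr1 τ ρ f' x) = 0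
          rw [h1, ← LinearMap.comp_apply, hZ, sub_self]
        have hφ'e : Eqv τ ρ φ' := by
          intro g v
          show φ (τ g v) - Zop ρ e (tr1 τ ρ f' (τ g v)) = ρ g (φ v - Zop ρ e (tr1 τ ρ f' v))
          rw [hφ g v, htr g v, zop_self ρ he g, map_sub]
        have hφ'Z : ∀ x, Zop ρ e (φ' x) = φ' x := by
          intro x
          show Zop ρ e (φ x - Zop ρ e (tr1 τ ρ f' x)) = φ x - Zop ρ e (tr1 τ ρ f' x)
          rw [map_sub, ← Zop_cvF, hee, ← LinearMap.comp_apply, hZ]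
        let φq : (M ⧸ a.toSubmodule) →ₗ[F] V := a.toSubmodule.liftQ φ' fun x hx => hφ'0 x hx
        have hφq : ∀ x, φq (a.toSubmodule.mkQ x) = φ' x := fun x => rfl
        refine ih _ hlt2 (M ⧸ a.toSubmodule) τq φq rfl ?_ ?_ ?_
        · intro g v
          obtain ⟨v, rfl⟩ := a.toSubmodule.mkQ_surjective v
          rw [← hq g v, hφq, hφq, hφ'e g v]
        · apply LinearMap.ext
          intro v
          obtain ⟨v, rfl⟩ := a.toSubmodule.mkQ_surjective v
          rw [LinearMap.comp_apply, hφq, hφ'Z]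
        · rintro ⟨g, hg⟩
          apply hP
          refine ⟨g ∘ₗ a.toSubmodule.mkQ + Zop ρ e ∘ₗ f', ?_⟩
          rw [tr1_add, tr1_comp ρ g hq, comp_tr1 τ f' (zop_self ρ he), ← hg]
          apply LinearMap.ext
          intro x
          show φ x = φ' x + Zop ρ e (tr1 τ ρ f' x)
          show φ x = φ x - Zop ρ e (tr1 τ ρ f' x) + Zop ρ e (tr1 τ ρ f' x)
          abel
      · refine ih _ hlt1 a.toSubmodule a.toRepresentation (φ ∘ₗ a.toSubmodule.subtype) rfl ?_ ?_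
          hcase
        · intro g v
          exact hφ g _
        · rw [← LinearMap.comp_assoc, hZ]

end KDX

/-- KDX. -/
theorem KDX_thm : Stmt_KDX := by
  intro F H V _ _ _ _ _ _ ρ e he hee hP
  refine KDX.core ρ e he hee _ V ρ (Zop ρ e) rfl (KDX.zop_self ρ he) ?_ hP
  apply LinearMap.ext
  intro v
  rw [LinearMap.comp_apply, ← Pool.Agent.DPW.KAIB.Zop_cvF, hee]

end Pool.Agent.DPX


end

section

/-!
# Theorem X, module BASX: the structure theorem for the defect groups of order `ℓ`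
-/

set_option autoImplicit false
set_option linter.unusedSectionVars false

namespace Pool.Agent.DPX

open Pool.Agent.DPB Pool.Agent.DPW Representation

namespace BASX

variable {F S V : Type} [Field F] [Group S] [Fintype S] [AddCommGroup V] [Module F V]

open Classical in
/-- The number of the elements which conjugate `s` to `x`. -/
theorem card_conj (s x : S) :
    (Finset.univ.filter fun h : S => h * s * h⁻¹ = x).card =
      if ∃ g, x = g * s * g⁻¹ then Nat.card (Subgroup.centralizer ({s} : Set S)) else 0 := by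
  split_ifs with hx
  · obtain ⟨g, rfl⟩ := hx
    rw [← Fintype.card_subtype, ← Nat.card_eq_fintype_card]
    refine (Nat.card_congr ?_).symm
    refine
      { toFun := fun c => ⟨g * c, ?_⟩
        invFun := fun h => ⟨g⁻¹ * h, ?_⟩
        left_inv := fun c => Subtype.ext (by simp)
        right_inv := fun h => Subtype.ext (by simp) }
    · have h1 : s * (c : S) = c * s := Subgroup.mem_centralizer_singleton_iff.1 c.2 |>.symm
      calc g * (c : S) * s * (g * (c : S))⁻¹ = g * ((c : S) * s) * (c : S)⁻¹ * g⁻¹ := by group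
        _ = g * (s * (c : S)) * (c : S)⁻¹ * g⁻¹ := by rw [h1]
        _ = g * s * g⁻¹ := by group
    · have h1 : (h : S) * s * (h : S)⁻¹ = g * s * g⁻¹ := h.2
      rw [Subgroup.mem_centralizer_singleton_iff]
      calc g⁻¹ * (h : S) * s = g⁻¹ * ((h : S) * s * (h : S)⁻¹) * h := by group
        _ = g⁻¹ * (g * s * g⁻¹) * h := by rw [h1]
        _ = s * (g⁻¹ * (h : S)) := by group
  · rw [Finset.card_eq_zero, Finset.filter_eq_empty_iff]
    intro h _ hh
    exact hx ⟨h, hh.symm⟩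

/-- The trace of `σ s`. -/
theorem tr1_apply (σ : Representation F S V) (s : S) :
    tr1 σ σ (σ s) = (Nat.card (Subgroup.centralizer ({s} : Set S)) : F) • Zop σ (clsF F s) := by
  classical
  have h1 : tr1 σ σ (σ s) = ∑ h : S, σ (h * s * h⁻¹) := by
    unfold tr1
    refine Finset.sum_congr rfl fun h _ => ?_
    rw [map_mul, map_mul]
    rfl
  rw [h1, ← Finset.sum_fiberwise Finset.univ (fun h : S => h * s * h⁻¹) fun h => σ (h * s * h⁻¹)]
  unfold Zop
  rw [Finset.smul_sum]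
  refine Finset.sum_congr rfl fun x _ => ?_
  have h2 : ∑ h ∈ Finset.univ.filter (fun h : S => h * s * h⁻¹ = x), σ (h * s * h⁻¹) =
      ∑ h ∈ Finset.univ.filter (fun h : S => h * s * h⁻¹ = x), σ x :=
    Finset.sum_congr rfl fun h hh => by rw [(Finset.mem_filter.1 hh).2]
  rw [h2, Finset.sum_const, card_conj]
  unfold clsF
  split_ifs with hx
  · rw [one_smul, Nat.cast_smul_eq_nsmul]
  · rw [zero_smul, zero_smul, smul_zero]

/-- The traces are an ideal. -/
theorem tr1_comp (σ : Representation F S V) (f : V →ₗ[F] V) {y : S → F} (hy : y ∈ CF F S) :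
    tr1 σ σ f ∘ₗ Zop σ y = tr1 σ σ (f ∘ₗ Zop σ y) := by
  refine LinearMap.ext fun v => ?_
  unfold tr1
  rw [LinearMap.comp_apply, LinearMap.sum_apply, LinearMap.sum_apply]
  refine Finset.sum_congr rfl fun h _ => ?_
  simp only [LinearMap.comp_apply]
  rw [KAIB.Zop_comm σ hy]

/-- The idempotent acts as a trace if the order of the centralizer is invertible. -/
theorem trace (σ : Representation F S V) (s : S) (y : S → F) (hy : y ∈ CF F S)
    (hs : (Nat.card (Subgroup.centralizer ({s} : Set S)) : F) ≠ 0) :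
    ∃ g : V →ₗ[F] V, tr1 σ σ g = Zop σ (cvF (clsF F s) y) := by
  refine ⟨((Nat.card (Subgroup.centralizer ({s} : Set S)) : F)⁻¹ • σ s) ∘ₗ Zop σ y, ?_⟩
  rw [← tr1_comp σ _ hy]
  have h1 : tr1 σ σ ((Nat.card (Subgroup.centralizer ({s} : Set S)) : F)⁻¹ • σ s) =
      Zop σ (clsF F s) := by
    have h2 : tr1 σ σ ((Nat.card (Subgroup.centralizer ({s} : Set S)) : F)⁻¹ • σ s) =
        (Nat.card (Subgroup.centralizer ({s} : Set S)) : F)⁻¹ • tr1 σ σ (σ s) := by
      unfold tr1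
      rw [Finset.smul_sum]
      refine Finset.sum_congr rfl fun h _ => ?_
      rw [LinearMap.smul_comp, LinearMap.comp_smul]
    rw [h2, tr1_apply, smul_smul, inv_mul_cancel₀ hs, one_smul]
  rw [h1]
  refine LinearMap.ext fun v => ?_
  rw [KAIB.Zop_cvF]
  rfl

end BASX

open _root_.Pool.Agent.DPX.BASX in
theorem BASX_thm (h1 : Stmt_SUPX) (h2 : Stmt_QUAX) (h3 : Stmt_QUZX) (h4 : Stmt_SSX)
    (h5 : Stmt_UNSX) (h6 : Stmt_CENX) (h7 : Stmt_DERX) (h8 : Stmt_ALGX) (h9 : Stmt_DIMX) :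
    Stmt_BASX := by
  classical
  intro ℓ _ F _ _ _ T _ _ P₁ P x₀ e hB hPrm hcen
  have hn : P₁.Normal := ⟨fun p hp g => by
    have h := Subgroup.mem_center_iff.1 (hcen hp) g
    rw [h, mul_inv_cancel_right]
    exact hp⟩
  have hℓ : ℓ.Prime := Fact.out
  have hs : Function.Surjective (QuotientGroup.mk' P₁) := QuotientGroup.mk'_surjective P₁
  have hk : (QuotientGroup.mk' P₁).ker = P₁ := QuotientGroup.ker_mk' P₁
  obtain ⟨hc, hcls, hPrm', ⟨y, hy, hey⟩, -⟩ :=
    h2 ℓ 1 F T (T ⧸ P₁) (QuotientGroup.mk' P₁) P₁ P x₀ e hs hk hcen hB hPrm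
  set e' : T ⧸ P₁ → F := psh (QuotientGroup.mk' P₁) e with he'
  -- the order of the centralizer is invertible
  have hnd : ¬ ℓ ∣ Nat.card (Subgroup.centralizer ({QuotientGroup.mk' P₁ x₀} : Set (T ⧸ P₁))) := by
    intro h
    apply hB.cd.sq
    rw [hc, pow_succ, pow_one]
    exact Nat.mul_dvd_mul_left ℓ h
  have hne : (Nat.card (Subgroup.centralizer
      ({QuotientGroup.mk' P₁ x₀} : Set (T ⧸ P₁))) : F) ≠ 0 := fun h =>
    hnd ((CharP.cast_eq_zero_iff F ℓ _).1 h)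
  have htr : ∀ (V : Type) [AddCommGroup V] [Module F V] (σ : Representation F (T ⧸ P₁) V),
      ∃ g : V →ₗ[F] V, tr1 σ σ g = Zop σ e' := by
    intro V _ _ σ
    rw [hey]
    exact trace σ _ y hy hne
  obtain ⟨m', E', hN'⟩ := h4 F (T ⧸ P₁) e' hPrm' fun V _ _ _ σ => htr V σ
  obtain ⟨-, -, -, hcard'⟩ := h5 F (T ⧸ P₁) e' hPrm'.1 hPrm'.2.1 hPrm'.2.2.1 m' 1 E' 0 hN'
  obtain ⟨hmlt, -⟩ := h6 F (T ⧸ P₁) e' hPrm'.1 hPrm'.2.1 hPrm'.2.2.1 m' 1 E' 0 hN'
  obtain ⟨-, hcard, hrep⟩ :=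
    h3 ℓ F T (T ⧸ P₁) (QuotientGroup.mk' P₁) P₁ e hs hk hB.cd.c1 hPrm.1
  -- the irreducible representation
  have hex : Nonempty {φ : T ⧸ P₁ → F // IsBr F φ ∧ Lz e' φ = φ} := by
    by_contra hcon
    rw [not_nonempty_iff] at hcon
    rw [Nat.card_of_isEmpty] at hcard'
    exact zero_ne_one hcard'
  obtain ⟨φ, ⟨d, σ, hσ, rfl⟩, hφ⟩ := hex
  obtain ⟨hχ, hBRE⟩ := BRE_thm DEN_thm F (T ⧸ P₁) (Fin d → F) σ hσ
  obtain ⟨μ, hμ1, hμ2⟩ := hBRE e' hPrm'.1
  have hμ : μ = 1 := by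
    rw [hφ] at hμ2
    by_contra hcon
    apply hχ
    have h : (μ - 1) • σ.character = 0 := by rw [sub_smul, one_smul, ← hμ2, sub_self]
    exact (smul_eq_zero.1 h).resolve_left (sub_ne_zero.2 hcon)
  rw [hμ, one_smul] at hμ1
  have hprj : Prj σ σ 1 := by
    obtain ⟨g, hg⟩ := htr (Fin d → F) σ
    exact ⟨g, by rw [hg, hμ1]⟩
  have hDR := (h7 ℓ 1 F T (T ⧸ P₁) (Fin d → F) (QuotientGroup.mk' P₁) P₁ P hs hk hcen hB.cd.c1
    hB.cd.le hB.cd.cyc hB.cd.card σ hσ).2 hprj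
  obtain ⟨hZ, hirr⟩ := (hrep (Fin d → F)).1 σ
  obtain ⟨m, c, E, z, hN⟩ := h8 F T (Fin d → F) e hPrm.1 hPrm.2.1
    (σ.comp (QuotientGroup.mk' P₁) : Representation F T (Fin d → F)) (hirr.2 hσ)
    (by rw [hZ]; exact hμ1) (by rw [hcard]; exact hcard') hDR
  obtain ⟨a, hca, hma, -⟩ := h9 ℓ F T (T ⧸ P₁) (QuotientGroup.mk' P₁) P₁ e hs hk hcen hB.cd.c1
    hPrm.1 hPrm.2.1 hPrm.2.2.1 m c E z hN
  have ha : a = 1 := by
    rw [← hma]
    exact hmlt
  refine ⟨m, E, z, ?_⟩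
  rw [hca, ha, mul_one] at hN
  rw [pow_one]
  exact hN

end Pool.Agent.DPX


end

section

/-!
# Theorem X: only the chains whose members are conjugate to subgroups of the defect group
contribute
-/

namespace Pool.Agent.DPX

open Pool.Agent.DP Pool.Agent.DPV Pool.Agent.DPB Pool.Agent.DPW Pool.Agent.Lib_helper13
open Representation

namespace CHNX

variable {G : Type} [Group G] [Finite G]

/-- An element which normalizes a cyclic group normalizes its subgroups. -/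
theorem norm_sub {M F : Subgroup G} (hM : IsCyclic M) (hF : F ≤ M) {g : G}
    (hg : g ∈ Subgroup.normalizer (M : Set G)) : g ∈ Subgroup.normalizer (F : Set G) := by
  have h1 : GCX.cj g F ≤ M := by
    intro x hx
    rw [GCX.mem_cj] at hx
    have h2 := (Subgroup.mem_normalizer_iff.mp hg (g⁻¹ * x * g)).mp (hF hx)
    have e : g * (g⁻¹ * x * g) * g⁻¹ = x := by group
    rwa [e] at h2
  have h2 : GCX.cj g F = F := GCX.uniq' hM h1 hF (GCX.card_cj g F)
  apply GCX.normalizes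
  intro u hu
  have h3 := GCX.conj_mem_cj (g := g) hu
  rwa [h2] at h3

/-- If the intersection of the greatest member of a chain with the stabilizer of the chain is
cyclic, it contains all the members. -/
theorem le_stb_of_cyc {ℓ : ℕ} [Fact ℓ.Prime] {σ : Finset (Subgroup G)} (hσ : IsCh ℓ ⊥ σ)
    {Q : Subgroup G} (hQmax : ∀ D ∈ σ, D ≤ Q) (hR : IsCyclic ↥(Q ⊓ stb σ)) :
    ∀ D ∈ σ, D ≤ Q ⊓ stb σ := by
  classical
  by_contra hcon
  push Not at hcon
  obtain ⟨E₀, hE₀, hE₀R⟩ := hcon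
  have hne : (σ.filter (fun E => ¬ E ≤ Q ⊓ stb σ)).Nonempty :=
    ⟨E₀, Finset.mem_filter.mpr ⟨hE₀, hE₀R⟩⟩
  obtain ⟨E, hE, hmin⟩ := (hσ.subset (Finset.filter_subset _ _)).exists_bot hne
  rw [Finset.mem_filter] at hE
  have hlt : E ⊓ (Q ⊓ stb σ) < E := by
    refine lt_of_le_of_ne inf_le_left fun h => hE.2 ?_
    rw [← h]
    exact inf_le_right
  have h1 := lt_inf_normalizer (ℓ := ℓ) (hσ.1 E hE.1).1 hlt
  have hMc : IsCyclic ↥(E ⊓ (Q ⊓ stb σ)) :=
    isCyclic_of_injective (Subgroup.inclusion (inf_le_right : E ⊓ (Q ⊓ stb σ) ≤ Q ⊓ stb σ))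
      (Subgroup.inclusion_injective _)
  have h2 : E ⊓ Subgroup.normalizer ((E ⊓ (Q ⊓ stb σ) : Subgroup G) : Set G) ≤
      E ⊓ (Q ⊓ stb σ) := by
    refine le_inf inf_le_left (le_inf (inf_le_left.trans (hQmax E hE.1))
      (QN.le_stb.mpr fun F hF => ?_))
    by_cases h3 : F ≤ Q ⊓ stb σ
    · rcases hσ.2 hF hE.1 (fun h => hE.2 (h ▸ h3)) with h4 | h4
      · intro g hg
        exact norm_sub hMc (le_inf h4 h3) hg.2
      · exact (inf_le_left.trans h4).trans Subgroup.le_normalizer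
    · exact (inf_le_left.trans (hmin F (Finset.mem_filter.mpr ⟨hF, h3⟩))).trans
        Subgroup.le_normalizer
  exact absurd (h1.trans_le h2) (lt_irrefl _)

end CHNX

open _root_.Pool.Agent.DPX.CHNX in
/-- CHNX. -/
theorem CHNX_thm : Stmt_CHNX := by
  classical
  intro G _ _ 𝔐 ℓ n hprime h𝔐 hℓ ω P₁ P x₀ hAt σ hσ ψ hψ hcg
  rcases σ.eq_empty_or_nonempty with hne | hne
  · exact ⟨1, fun D hD => by rw [hne] at hD; exact absurd hD (Finset.notMem_empty D)⟩
  obtain ⟨Q, hQ, hQmax⟩ := hσ.exists_top hne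
  have hRp : IsPGroup ℓ ↥(Q ⊓ stb σ) := (hσ.1 Q hQ).1.to_le inf_le_left
  obtain ⟨t, ht⟩ := CHNW.exists_conj 𝔐 h𝔐 hℓ (S := stb σ) (R := Q ⊓ stb σ) hψ inf_le_right
    (fun s hs r hr => ⟨((mem_stb'.mp hs) Q hQ r).mp hr.1,
      (stb σ).mul_mem ((stb σ).mul_mem hs hr.2) ((stb σ).inv_mem hs)⟩) hRp
    (x₀ := x₀) (by rw [hcg]; exact hAt.ne)
  have hPC : P ≤ Subgroup.centralizer ({x₀} : Set G) := by
    intro u hu
    rw [GCX.mem_cen]
    exact hAt.cd.cen u hu
  have hRC : (Q ⊓ stb σ).map (MulAut.conj t⁻¹).toMonoidHom ≤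
      Subgroup.centralizer ({x₀} : Set G) := by
    rintro _ ⟨q, hq, rfl⟩
    rw [Subgroup.mem_centralizer_iff]
    intro x hx
    rw [Set.mem_singleton_iff] at hx
    subst hx
    have h2 := ht q hq
    change x * (t⁻¹ * q * t⁻¹⁻¹) = t⁻¹ * q * t⁻¹⁻¹ * x
    calc x * (t⁻¹ * q * t⁻¹⁻¹) = t⁻¹ * (t * x * t⁻¹ * q) * t := by group
      _ = t⁻¹ * (q * (t * x * t⁻¹)) * t := by rw [h2]
      _ = t⁻¹ * q * t⁻¹⁻¹ * x := by group
  obtain ⟨c, -, hc⟩ := SUPX.syl (ℓ := ℓ) (Subgroup.centralizer ({x₀} : Set G)) P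
    ((Q ⊓ stb σ).map (MulAut.conj t⁻¹).toMonoidHom) hPC hAt.cd.card hAt.cd.sq (hRp.map _) hRC
  have hRP : (Q ⊓ stb σ).map (MulAut.conj (c * t⁻¹)).toMonoidHom ≤ P := by
    rintro _ ⟨q, hq, rfl⟩
    have h1 := hc (t⁻¹ * q * t⁻¹⁻¹) ⟨q, hq, rfl⟩
    have h2 : (MulAut.conj (c * t⁻¹)).toMonoidHom q = c * (t⁻¹ * q * t⁻¹⁻¹) * c⁻¹ := by
      change c * t⁻¹ * q * (c * t⁻¹)⁻¹ = _
      group
    rw [h2]
    exact h1
  have hcyc : IsCyclic ↥(Q ⊓ stb σ) := by
    have hPcyc := hAt.cd.cyc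
    refine isCyclic_of_injective (G := ↥(Q ⊓ stb σ)) (G' := P)
      (((MulAut.conj (c * t⁻¹)).toMonoidHom.comp (Subgroup.subtype _)).codRestrict P
        fun q => hRP ⟨q, q.2, rfl⟩) ?_
    intro a b hab
    have h1 := congrArg (fun z : P => (z : G)) hab
    exact Subtype.ext ((MulAut.conj (c * t⁻¹)).injective h1)
  have hall := le_stb_of_cyc hσ hQmax hcyc
  refine ⟨(c * t⁻¹)⁻¹, fun D hD x hx => ?_⟩
  refine ⟨(MulAut.conj (c * t⁻¹)).toMonoidHom x, hRP ⟨x, hall D hD hx, rfl⟩, ?_⟩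
  change (c * t⁻¹)⁻¹ * (c * t⁻¹ * x * (c * t⁻¹)⁻¹) * (c * t⁻¹)⁻¹⁻¹ = x
  group

end Pool.Agent.DPX


end

section

/-!
# Conjugation of pairs
-/

namespace Pool.Agent.DPG

open Pool.Agent.DP Pool.Agent.DPC Pool.Agent.DPM Pool.Agent.DPN Pool.Agent.DPF
  Pool.Agent.Lib_helper13 Representation

namespace CJN

variable {L K : Type} [Group L] [Group K]

theorem mem_mapc {G : Type} [Group G] (g x : G) (S : Subgroup G) :
    x ∈ S.map (MulAut.conj g).toMonoidHom ↔ g⁻¹ * x * g ∈ S := by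
  constructor
  · rintro ⟨y, hy, rfl⟩
    have h : g⁻¹ * ((MulAut.conj g).toMonoidHom y) * g = y := by
      change g⁻¹ * (g * y * g⁻¹) * g = y
      group
    rw [h]
    exact hy
  · intro h
    refine ⟨g⁻¹ * x * g, h, ?_⟩
    change g * (g⁻¹ * x * g) * g⁻¹ = x
    group

theorem pi_conj (π : L →* K) (l y : L) : π (l⁻¹ * y * l) = (π l)⁻¹ * π y * π l := by
  rw [map_mul, map_mul, map_inv]

theorem mem_nm (M : Subgroup K) [hM : M.Normal] (g x : K) : g⁻¹ * x * g ∈ M ↔ x ∈ M := by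
  constructor
  · intro h
    have h1 := hM.conj_mem _ h g
    have h2 : g * (g⁻¹ * x * g) * g⁻¹ = x := by group
    rw [h2] at h1
    exact h1
  · intro h
    have h1 := hM.conj_mem _ h g⁻¹
    rw [inv_inv] at h1
    exact h1

theorem mem_AL (π : L →* K) (M : Subgroup K) [M.Normal] (l : L) (S : Subgroup K) (y : L) :
    y ∈ AL π M (S.map (MulAut.conj (π l)).toMonoidHom) ↔ l⁻¹ * y * l ∈ AL π M S := by
  rw [Subgroup.mem_comap, Subgroup.mem_inf, Subgroup.mem_comap, Subgroup.mem_inf, mem_mapc,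
    pi_conj, mem_nm M (π l) (π y)]

/-- Conjugation between the inverse images. -/
def eAL (π : L →* K) (M : Subgroup K) [M.Normal] (l : L) (S : Subgroup K) :
    AL π M (S.map (MulAut.conj (π l)).toMonoidHom) ≃* AL π M S where
  toFun y := ⟨l⁻¹ * y * l, (mem_AL π M l S y).mp y.2⟩
  invFun y := ⟨l * y * l⁻¹, (mem_AL π M l S _).mpr (by
    have h : l⁻¹ * (l * (y : L) * l⁻¹) * l = y := by group
    rw [h]
    exact y.2)⟩
  left_inv y := by
    apply Subtype.ext
    change l * (l⁻¹ * (y : L) * l) * l⁻¹ = y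
    group
  right_inv y := by
    apply Subtype.ext
    change l⁻¹ * (l * (y : L) * l⁻¹) * l = y
    group
  map_mul' y z := by
    apply Subtype.ext
    change l⁻¹ * ((y : L) * z) * l = (l⁻¹ * y * l) * (l⁻¹ * z * l)
    group

theorem mem_GS {H W : Type} [Group H] [Group W] (π : L →* K) (p : K →* H) (πW : W →* H)
    (l : L) (hl : p (π l) = 1) (S : Subgroup K) (y : L × W) :
    y ∈ GS π p πW (S.map (MulAut.conj (π l)).toMonoidHom) ↔
      (l⁻¹ * y.1 * l, y.2) ∈ GS π p πW S := by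
  change (π y.1 ∈ S.map (MulAut.conj (π l)).toMonoidHom ∧ p (π y.1) = πW y.2) ↔
    (π (l⁻¹ * y.1 * l) ∈ S ∧ p (π (l⁻¹ * y.1 * l)) = πW y.2)
  rw [mem_mapc, pi_conj]
  have h : p ((π l)⁻¹ * π y.1 * π l) = p (π y.1) := by
    rw [map_mul, map_mul, map_inv, hl]
    simp
  rw [h]

/-- Conjugation between the fibre products. -/
def eGS {H W : Type} [Group H] [Group W] (π : L →* K) (p : K →* H) (πW : W →* H)
    (l : L) (hl : p (π l) = 1) (S : Subgroup K) :
    GS π p πW (S.map (MulAut.conj (π l)).toMonoidHom) →* GS π p πW S where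
  toFun y := ⟨(l⁻¹ * y.1.1 * l, y.1.2), (mem_GS π p πW l hl S y).mp y.2⟩
  map_one' := by
    apply Subtype.ext
    apply Prod.ext
    · change l⁻¹ * 1 * l = 1
      group
    · rfl
  map_mul' y z := by
    apply Subtype.ext
    apply Prod.ext
    · change l⁻¹ * ((y : L × W).1 * (z : L × W).1) * l =
        (l⁻¹ * (y : L × W).1 * l) * (l⁻¹ * (z : L × W).1 * l)
      group
    · rfl

end CJN

open _root_.Pool.Agent.DPG.CJN

theorem CJN_thm : Stmt_CJN := by
  intro L K _ _ _ _ 𝔐 π hπ hc μ M _ l S f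
  refine ⟨?_, ?_, ?_⟩
  · intro ω h
    refine ⟨⟨?_, ?_⟩, ?_, ?_, ?_, ?_⟩
    · exact h.irr.1.comp_mulEquiv (eAL π M l S)
    · intro x hx
      apply h.irr.2
      intro hx'
      exact hx ((mem_AL π M l S x).mpr hx')
    · intro z x
      change f (l⁻¹ * (z * x) * l) = _ * f (l⁻¹ * x * l)
      have hz := Subgroup.mem_center_iff.mp (hc z.2) l⁻¹
      have h1 : l⁻¹ * ((z : L) * x) * l = (z : L) * (l⁻¹ * x * l) := by
        rw [← mul_assoc, ← mul_assoc, hz, mul_assoc, mul_assoc, ← mul_assoc]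
        group
      rw [h1]
      exact h.ovl z _
    · intro g hg
      rw [← h.cn g hg]
      unfold cg
      have h1 : cjF l f 1 = f 1 := by
        change f (l⁻¹ * 1 * l) = f 1
        rw [mul_one, inv_mul_cancel]
      rw [h1]
      have h2 : (∑ x, conjInd x g * cjF l f x) = ∑ x, conjInd x g * f x := by
        refine Fintype.sum_equiv (MulAut.conj l⁻¹).toEquiv _ _ ?_
        intro x
        have h3 : (MulAut.conj l⁻¹).toEquiv x = l⁻¹ * x * l := by
          change l⁻¹ * x * l⁻¹⁻¹ = _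
          rw [inv_inv]
        rw [h3]
        have h4 : conjInd (l⁻¹ * x * l) g = conjInd x g := by
          have h5 := conjInd_conj l⁻¹ x g
          rw [inv_inv] at h5
          exact h5
        rw [h4]
        rfl
      rw [h2]
    · rw [eq_top_iff]
      intro x _
      have h1 : (π l)⁻¹ * x * π l ∈ M ⊔ S := by
        rw [h.sj]
        exact Subgroup.mem_top _
      rw [Subgroup.mem_sup_of_normal_left] at h1
      obtain ⟨m, hm, s, hs, hms⟩ := h1
      have h2 : x = (π l * m * (π l)⁻¹) * (π l * s * (π l)⁻¹) := by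
        have h3 : x = π l * ((π l)⁻¹ * x * π l) * (π l)⁻¹ := by group
        rw [h3, ← hms]
        group
      rw [h2]
      refine Subgroup.mul_mem_sup ?_ ?_
      · exact Subgroup.Normal.conj_mem inferInstance _ hm _
      · rw [mem_mapc]
        have h3 : (π l)⁻¹ * (π l * s * (π l)⁻¹) * π l = s := by group
        rw [h3]
        exact hs
    · intro t ht x
      rw [mem_mapc, ← pi_conj] at ht
      have h1 := h.iv _ ht (l⁻¹ * x * l)
      change f (l⁻¹ * (t * x * t⁻¹) * l) = f (l⁻¹ * x * l)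
      rw [← h1]
      congr 1
      group
  · intro ℓ n h
    exact (hasDefect_comp_equiv (eAL π M l S) (ψ := fun s : AL π M S => f s)).mpr h
  · intro H W _ _ p πW ν hl h
    obtain ⟨E, hE1, hE2, hE3, hE4⟩ := h
    refine ⟨fun y => E (l⁻¹ * y.1 * l, y.2), ?_, ?_, ?_, ?_⟩
    · exact IsChr.comp hE1 (eGS π p πW l hl S)
    · intro x hx
      apply hE2
      intro hx'
      exact hx ((mem_GS π p πW l hl S x).mpr hx')
    · intro a ha ha'
      change E (l⁻¹ * a * l, 1) = f (l⁻¹ * a * l)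
      apply hE3
      · rw [pi_conj, mem_nm M (π l) (π a)]
        exact ha
      · rw [pi_conj, ← mem_mapc]
        exact ha'
    · intro z t w
      exact hE4 z _ w

end Pool.Agent.DPG


end

section

/-!
# The relations for the pairs of the closed chains: auxiliary results
-/

namespace Pool.Agent.DPG

open Pool.Agent.DP Pool.Agent.DPC Pool.Agent.DPM Pool.Agent.DPN Pool.Agent.DPF
  Pool.Agent.Lib_helper13 Representation
open Pool.Agent.Lib_helper13.Dade (pCore DadeHolds dadeSum)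

namespace TQB

/-! ### The homomorphism to the wreath product -/

section Psi

variable {K H K1 H1 W W1 Ω : Type} [Group K] [Group H] [Group K1] [Group H1] [Group W]
  [Group W1] [Fintype Ω] {φ : K →* Gam (Equiv.Perm Ω) Ω K1} {p : K →* H} {p1 : K1 →* H1}
  {πW : W →* H} {πW1 : W1 →* H1} {ψ : W →* Gam (Equiv.Perm Ω) Ω W1}

theorem psi_one (h1 : ∀ w k, πW w = p k → gmap Ω πW1 (ψ w) = gmap Ω p1 (φ k)) {z : W}
    (hz : z ∈ πW.ker) : gmap Ω πW1 (ψ z) = 1 := by
  have h := h1 z 1 (by rw [map_one]; exact hz)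
  rw [map_one, map_one] at h
  exact h

theorem psi_right (h1 : ∀ w k, πW w = p k → gmap Ω πW1 (ψ w) = gmap Ω p1 (φ k)) {z : W}
    (hz : z ∈ πW.ker) : (ψ z).right = 1 :=
  congrArg (fun x : Gam (Equiv.Perm Ω) Ω H1 => x.right) (psi_one h1 hz)

theorem psi_left (h1 : ∀ w k, πW w = p k → gmap Ω πW1 (ψ w) = gmap Ω p1 (φ k)) {z : W}
    (hz : z ∈ πW.ker) (o : Ω) : (ψ z).left o ∈ πW1.ker :=
  congrArg (fun x : Gam (Equiv.Perm Ω) Ω H1 => x.left o) (psi_one h1 hz)

theorem psi_tr (hs : Function.Surjective πW)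
    (h1 : ∀ w k, πW w = p k → gmap Ω πW1 (ψ w) = gmap Ω p1 (φ k))
    (htr : ∀ o o', ∃ k, (φ k).right o = o') (o o' : Ω) : ∃ w, (ψ w).right o = o' := by
  obtain ⟨k, hk⟩ := htr o o'
  obtain ⟨w, hw⟩ := hs (p k)
  refine ⟨w, ?_⟩
  have h2 : (ψ w).right = (φ k).right :=
    congrArg (fun x : Gam (Equiv.Perm Ω) Ω H1 => x.right) (h1 w k hw)
  rw [h2]
  exact hk

theorem psi_sj (hs1 : Function.Surjective p1) (hsW : Function.Surjective πW1)
    (h2 : ∀ g k, gmap Ω πW1 g = gmap Ω p1 (φ k) → ∃ w, πW w = p k ∧ ψ w = g)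
    (hsj : ∀ o b, ∃ k, (φ k).right o = o ∧ (φ k).left o = b) (o : Ω) (b : W1) :
    ∃ w, (ψ w).right o = o ∧ (ψ w).left o = b := by
  classical
  obtain ⟨b1, hb1⟩ := hs1 (πW1 b)
  obtain ⟨k, hk1, hk2⟩ := hsj o b1
  have hex : ∀ o', ∃ c, πW1 c = p1 ((φ k).left o') := fun o' => hsW _
  choose c hc using hex
  let g : Gam (Equiv.Perm Ω) Ω W1 := ⟨fun o' => if o' = o then b else c o', (φ k).right⟩
  have hg : gmap Ω πW1 g = gmap Ω p1 (φ k) := by
    apply SemidirectProduct.ext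
    · funext o'
      change πW1 (if o' = o then b else c o') = p1 ((φ k).left o')
      by_cases ho : o' = o
      · rw [if_pos ho, ho, hk2, hb1]
      · rw [if_neg ho, hc]
    · rfl
  obtain ⟨w, _, hw⟩ := h2 g k hg
  refine ⟨w, ?_, ?_⟩
  · rw [hw]
    exact hk1
  · rw [hw]
    change (if o = o then b else c o) = b
    rw [if_pos rfl]

end Psi

/-! ### Closed chains -/

section Clo

variable {K K1 Ω : Type} [Group K] [Group K1] [Fintype Ω]

theorem left_conj (a b : Gam (Equiv.Perm Ω) Ω K1) (ha : a.right = 1) (hb : b.right = 1)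
    (o : Ω) : (a⁻¹ * b * a).left o = (a.left o)⁻¹ * b.left o * a.left o := by
  have h : ∀ x y : Gam (Equiv.Perm Ω) Ω K1, x.right = 1 → (x * y).left o =
      x.left o * y.left o := by
    intro x y hx
    change x.left o * y.left (x.right⁻¹ • o) = _
    rw [hx, inv_one, one_smul]
  have h1 : a⁻¹.right = 1 := by
    rw [SemidirectProduct.inv_right, ha, inv_one]
  have h2 : (a⁻¹ * b).right = 1 := by
    rw [SemidirectProduct.mul_right, h1, hb, one_mul]
  have h3 : a⁻¹.left o = (a.left o)⁻¹ := by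
    have h4 := h a⁻¹ a h1
    rw [inv_mul_cancel] at h4
    exact eq_inv_of_mul_eq_one_left h4.symm
  rw [h _ _ h2, h _ _ h1, h3]

theorem clo_conj {φ : K →* Gam (Equiv.Perm Ω) Ω K1} {N : Subgroup K} (hN : N.Normal)
    (hr : ∀ k ∈ N, (φ k).right = 1) {g : K} (hg : g ∈ N) {σ : Finset (Subgroup K)}
    (hσ : ∀ D ∈ σ, D ≤ N) (hc : Clo φ N σ) : Clo φ N (cjC g σ) := by
  classical
  intro D' hD' k hk
  rw [cjC, Finset.mem_image] at hD'
  obtain ⟨D, hD, rfl⟩ := hD'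
  change k ∈ D.map (MulAut.conj g).toMonoidHom
  rw [CJN.mem_mapc]
  refine hc D hD ⟨?_, fun o => ?_⟩
  · have h := hN.conj_mem k hk.1 g⁻¹
    rw [inv_inv] at h
    exact h
  · obtain ⟨d', hd', h2⟩ := hk.2 o
    have hd2 := (CJN.mem_mapc g d' D).mp hd'
    refine ⟨g⁻¹ * d' * g, hd2, ?_⟩
    have hd3 : d' ∈ N := by
      have h := hN.conj_mem _ (hσ D hD hd2) g
      have h4 : g * (g⁻¹ * d' * g) * g⁻¹ = d' := by group
      rw [h4] at h
      exact h
    rw [map_mul, map_mul, map_inv, map_mul, map_mul, map_inv,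
      left_conj _ _ (hr g hg) (hr d' hd3), left_conj _ _ (hr g hg) (hr k hk.1), h2]

end Clo

/-! ### Uniqueness -/

section Uni

variable {L K K1 L1 Ω : Type} [Group L] [Group K] [Group K1] [Group L1] [Fintype Ω]

theorem tp_unique {π : L →* K} {φ : K →* Gam (Equiv.Perm Ω) Ω K1} {π1 : L1 →* K1}
    (hs : Function.Surjective π1) {M : Subgroup K} {F : L1 → ℂ}
    {ζ : L × Gam (Equiv.Perm Ω) Ω L1 → ℂ} {θ θ' : L → ℂ} (h : TP π φ π1 M F ζ θ)
    (h' : TP π φ π1 M F ζ θ') : θ = θ' := by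
  funext l
  by_cases hl : π l ∈ M
  · have hex : ∀ o, ∃ c, π1 c = (φ (π l)).left o := fun o => hs _
    choose c hc using hex
    have hx : ((l, ⟨c, (φ (π l)).right⟩) : L × Gam (Equiv.Perm Ω) Ω L1) ∈ MY π φ π1 M := by
      refine ⟨?_, hl⟩
      change φ (π l) = gmap Ω π1 ⟨c, (φ (π l)).right⟩
      apply SemidirectProduct.ext
      · funext o
        exact (hc o).symm
      · rfl
    exact (h.2 _ hx).trans (h'.2 _ hx).symm
  · rw [h.1 l hl, h'.1 l hl]

end Uni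

/-! ### Numbers -/

section Num

theorem card_prod {G : Type} [Group G] [Finite G] {N M S : Subgroup G} (hN : N.Normal)
    (hNM : N ≤ M) (hM : M ≤ N ⊔ S) :
    Nat.card M * Nat.card ↥(N ⊓ S) = Nat.card N * Nat.card ↥(M ⊓ S) := by
  haveI := hN
  have h1 : Nat.card N * N.relIndex M = Nat.card M := by
    have h := Subgroup.relIndex_mul_relIndex ⊥ N M bot_le hNM
    rw [Subgroup.relIndex_bot_left, Subgroup.relIndex_bot_left] at h
    exact h
  have h2 : Nat.card ↥(N ⊓ S) * (N ⊓ S).relIndex (M ⊓ S) = Nat.card ↥(M ⊓ S) := by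
    have h := Subgroup.relIndex_mul_relIndex ⊥ (N ⊓ S) (M ⊓ S) bot_le
      (inf_le_inf_right S hNM)
    rw [Subgroup.relIndex_bot_left, Subgroup.relIndex_bot_left] at h
    exact h
  have h3 : N ⊔ (M ⊓ S) = M := by
    apply le_antisymm (sup_le hNM inf_le_left)
    intro x hx
    have hx2 := hM hx
    rw [Subgroup.mem_sup_of_normal_left] at hx2
    obtain ⟨y, hy, z, hz, rfl⟩ := hx2
    refine Subgroup.mul_mem_sup hy ⟨?_, hz⟩
    have h := M.mul_mem (M.inv_mem (hNM hy)) hx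
    rw [inv_mul_cancel_left] at h
    exact h
  have h4 : N.relIndex M = (N ⊓ S).relIndex (M ⊓ S) := by
    have h5 : N.relIndex (N ⊔ (M ⊓ S)) = N.relIndex (M ⊓ S) := Subgroup.relIndex_sup_left _ _
    rw [h3] at h5
    rw [h5, ← Subgroup.inf_relIndex_right]
    have h6 : N ⊓ (M ⊓ S) = N ⊓ S := by
      rw [← inf_assoc, inf_eq_left.mpr hNM]
    rw [h6]
  rw [← h1, ← h2, h4]
  ring

theorem numer {r rs m m1 m1s X s cQ kq w : ℕ} (hw : 0 < w) (hr : 0 < r) (hrs : 0 < rs)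
    (hm1 : 0 < m1) (hk : 0 < kq) (h1 : X * r ^ w = m * rs ^ w) (h2 : cQ = kq * r)
    (h2' : s = kq * rs) (h3 : m1 * rs = r * m1s) :
    ((cQ : ℂ) / (s : ℂ)) ^ (w - 1) * (X : ℂ) = (m : ℂ) / (m1 : ℂ) * (m1s : ℂ) := by
  obtain ⟨v, rfl⟩ : ∃ v, w = v + 1 := ⟨w - 1, by omega⟩
  rw [Nat.add_sub_cancel]
  have hr' : (r : ℂ) ≠ 0 := by exact_mod_cast hr.ne'
  have hrs' : (rs : ℂ) ≠ 0 := by exact_mod_cast hrs.ne'
  have hm1' : (m1 : ℂ) ≠ 0 := by exact_mod_cast hm1.ne'
  have hk' : (kq : ℂ) ≠ 0 := by exact_mod_cast hk.ne'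
  have h1' : (X : ℂ) * (r : ℂ) ^ (v + 1) = (m : ℂ) * (rs : ℂ) ^ (v + 1) := by
    exact_mod_cast h1
  have h3' : (m1 : ℂ) * (rs : ℂ) = (r : ℂ) * (m1s : ℂ) := by exact_mod_cast h3
  have hX : (X : ℂ) = (m : ℂ) * (rs : ℂ) ^ (v + 1) / (r : ℂ) ^ (v + 1) := by
    rw [eq_div_iff (pow_ne_zero _ hr'), h1']
  have hs : (m1s : ℂ) = (m1 : ℂ) * (rs : ℂ) / (r : ℂ) := by
    rw [eq_div_iff hr', h3']
    ring
  have hc : (cQ : ℂ) / (s : ℂ) = (r : ℂ) / (rs : ℂ) := by
    rw [h2, h2']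
    push_cast
    rw [mul_div_mul_left _ _ hk']
  rw [hc, hX, hs, div_pow]
  field_simp
  ring

end Num

/-! ### Conjugation of functions -/

section Cj

variable {G : Type} [Group G]

theorem cjF_one (f : G → ℂ) : cjF 1 f = f := by
  funext x
  change f (1⁻¹ * x * 1) = f x
  rw [inv_one, one_mul, mul_one]

theorem cjF_mul (g h : G) (f : G → ℂ) : cjF (g * h) f = cjF g (cjF h f) := by
  funext x
  change f ((g * h)⁻¹ * x * (g * h)) = f (h⁻¹ * (g⁻¹ * x * g) * h)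
  congr 1
  group

theorem map_conj_one (S : Subgroup G) : S.map (MulAut.conj (1 : G)).toMonoidHom = S := by
  ext x
  rw [CJN.mem_mapc]
  simp

theorem card_conj (M : Subgroup G) [M.Normal] (S : Subgroup G) (g : G) :
    Nat.card ↥(M ⊓ S.map (MulAut.conj g).toMonoidHom) = Nat.card ↥(M ⊓ S) := by
  have h : M ⊓ S.map (MulAut.conj g).toMonoidHom =
      (M ⊓ S).map (MulAut.conj g).toMonoidHom := by
    ext x
    rw [Subgroup.mem_inf, CJN.mem_mapc, CJN.mem_mapc, Subgroup.mem_inf,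
      CJN.mem_nm M]
  rw [h]
  exact (Nat.card_congr ((M ⊓ S).equivMapOfInjective _ (MulAut.conj g).injective).toEquiv).symm

end Cj

end TQB

end Pool.Agent.DPG


end

section

/-!
# The relations for the pairs of the closed chains
-/

namespace Pool.Agent.DPG

open Pool.Agent.DP Pool.Agent.DPC Pool.Agent.DPM Pool.Agent.DPN Pool.Agent.DPF
  Pool.Agent.Lib_helper13 Representation
open Pool.Agent.Lib_helper13.Dade (pCore DadeHolds dadeSum)

namespace TQB

/-- Pairs of a chain and a function. -/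
abbrev IT (G L : Type) [Group G] : Type := (_ : Finset (Subgroup G)) × (L → ℂ)

/-- Conjugation of pairs. -/
noncomputable def act {G L X : Type} [Group G] [Group L] (q : X → G) (ι : X → L) (x : X)
    (i : IT G L) : IT G L :=
  ⟨cjC (q x) i.1, cjF (ι x) i.2⟩

section PFs

variable {L K : Type} [Group L] [Fintype L] [Group K] [Fintype K]

open Classical in
/-- The finite set of the invariant pairs. -/
noncomputable def PF (𝔐 : Ideal (integralClosure ℤ ℂ)) (ℓ : ℕ) (π : L →* K)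
    (μ : π.ker →* ℂˣ) (M : Subgroup K) (ω : L → (integralClosure ℤ ℂ) ⧸ 𝔐)
    (C : Finset (Subgroup K) → Prop) : Finset (IT K L) :=
  ((Ch ℓ (⊥ : Subgroup K)).filter C).sigma
    (fun σ => (irrOn (AL π M (stb σ))).filter (fun θ => BPs 𝔐 π μ M ω (stb σ) θ))

theorem mem_PF {𝔐 : Ideal (integralClosure ℤ ℂ)} {ℓ : ℕ} {π : L →* K}
    {μ : π.ker →* ℂˣ} {M : Subgroup K} {ω : L → (integralClosure ℤ ℂ) ⧸ 𝔐}
    {C : Finset (Subgroup K) → Prop} (hC : ∀ σ, C σ → IsCh ℓ ⊥ σ) {c : IT K L} :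
    c ∈ PF 𝔐 ℓ π μ M ω C ↔ C c.1 ∧ BPs 𝔐 π μ M ω (stb c.1) c.2 := by
  classical
  rw [PF, Finset.mem_sigma, Finset.mem_filter, Finset.mem_filter, mem_Ch, CLIFF.mem_irrOn]
  constructor
  · rintro ⟨⟨_, h1⟩, _, h2⟩
    exact ⟨h1, h2⟩
  · rintro ⟨h1, h2⟩
    exact ⟨⟨hC _ h1, h1⟩, h2.irr, h2⟩

open Classical in
/-- The summand of a pair. -/
noncomputable def GG (ℓ : ℕ) (π : L →* K) (M : Subgroup K) (v : Subgroup K → (L → ℂ) → ℂ)
    (n : ℕ) (k : ℕ) (S : Subgroup K) (θ : L → ℂ) : ℂ :=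
  (-1 : ℂ) ^ k * (if HasDefect ℓ (fun s : AL π M S => θ s) n then
    (Nat.card ↥(M ⊓ S) : ℂ) * v S θ else 0)

theorem T2X_iff {H W : Type} [Group H] [Group W] (𝔐 : Ideal (integralClosure ℤ ℂ)) (ℓ : ℕ)
    (π : L →* K) (μ : π.ker →* ℂˣ) (M : Subgroup K) (ω : L → (integralClosure ℤ ℂ) ⧸ 𝔐)
    (πW : W →* H) (P : Subgroup H) (C : Finset (Subgroup K) → Prop)
    (ν : Subgroup K → (L → ℂ) → (πW.ker →* ℂˣ)) :
    T2X 𝔐 ℓ π μ M ω πW P C ν ↔ ∀ a : πW.ker, InS πW P (a : W) → ∀ n : ℕ,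
      ∑ c ∈ PF 𝔐 ℓ π μ M ω C, GG ℓ π M (fun S f => ((ν S f a : ℂˣ) : ℂ)) n c.1.card
        (stb c.1) c.2 = 0 := by
  classical
  unfold T2X
  refine forall_congr' fun a => imp_congr_right fun _ => forall_congr' fun n => ?_
  rw [PF, Finset.sum_sigma]
  refine Eq.congr_left (Finset.sum_congr rfl fun σ _ => ?_)
  have h : ∀ f : L → ℂ, GG ℓ π M (fun S f => ((ν S f a : ℂˣ) : ℂ)) n σ.card (stb σ) f =
      (-1 : ℂ) ^ σ.card * (if HasDefect ℓ (fun s : AL π M (stb σ) => f s) n then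
        (Nat.card ↥(M ⊓ stb σ) : ℂ) * ((ν (stb σ) f a : ℂˣ) : ℂ) else 0) := fun f => rfl
  simp only [h]
  rw [← Finset.filter_filter, Finset.sum_filter, Finset.mul_sum]

end PFs

section PsiDef

variable {L K L1 K1 : Type} [Group L] [Group K] [Group L1] [Group K1]

open Classical in
/-- The pair of `L` which belongs to a pair of `L1`. -/
noncomputable def Psi (R : IT K1 L1 → (L → ℂ) → Prop)
    (Φ : Finset (Subgroup K1) → Finset (Subgroup K)) (i : IT K1 L1) : IT K L :=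
  ⟨Φ i.1, if h : ∃ θ, R i θ then h.choose else 0⟩

theorem Psi_spec (R : IT K1 L1 → (L → ℂ) → Prop)
    (Φ : Finset (Subgroup K1) → Finset (Subgroup K)) {i : IT K1 L1} (h : ∃ θ, R i θ) :
    R i (Psi R Φ i).2 := by
  classical
  change R i (if h : ∃ θ, R i θ then h.choose else 0)
  rw [dif_pos h]
  exact h.choose_spec

end PsiDef

section Conj

variable {L K : Type} [Group L] [Group K]

theorem map_map_conj (S : Subgroup K) (g h : K) :
    (S.map (MulAut.conj h).toMonoidHom).map (MulAut.conj g).toMonoidHom =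
      S.map (MulAut.conj (g * h)).toMonoidHom := by
  ext x
  rw [CJN.mem_mapc, CJN.mem_mapc, CJN.mem_mapc]
  have h1 : h⁻¹ * (g⁻¹ * x * g) * h = (g * h)⁻¹ * x * (g * h) := by group
  rw [h1]

theorem defect_iff {π : L →* K} {M : Subgroup K} {ℓ n : ℕ}
    (hc : ∀ (l : L) (S : Subgroup K) (f : L → ℂ),
      HasDefect ℓ (fun s : AL π M S => f s) n →
      HasDefect ℓ (fun s : AL π M (S.map (MulAut.conj (π l)).toMonoidHom) => cjF l f s) n)
    (l : L) (S : Subgroup K) (f : L → ℂ) :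
    HasDefect ℓ (fun s : AL π M (S.map (MulAut.conj (π l)).toMonoidHom) => cjF l f s) n ↔
      HasDefect ℓ (fun s : AL π M S => f s) n := by
  constructor
  · intro h
    have h1 := hc l⁻¹ _ _ h
    rw [map_map_conj, ← cjF_mul, ← map_mul, inv_mul_cancel, map_one, map_conj_one,
      cjF_one] at h1
    exact h1
  · exact hc l S f

theorem GG_conj {π : L →* K} {M : Subgroup K} [M.Normal] {ℓ n : ℕ}
    (hc : ∀ (l : L) (S : Subgroup K) (f : L → ℂ),
      HasDefect ℓ (fun s : AL π M S => f s) n →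
      HasDefect ℓ (fun s : AL π M (S.map (MulAut.conj (π l)).toMonoidHom) => cjF l f s) n)
    (v : Subgroup K → (L → ℂ) → ℂ) (k : ℕ) (l : L) (S : Subgroup K) (f : L → ℂ)
    (hv : v (S.map (MulAut.conj (π l)).toMonoidHom) (cjF l f) = v S f) :
    GG ℓ π M v n k (S.map (MulAut.conj (π l)).toMonoidHom) (cjF l f) = GG ℓ π M v n k S f := by
  classical
  unfold GG
  rw [hv, card_conj]
  by_cases h : HasDefect ℓ (fun s : AL π M S => f s) n
  · rw [if_pos h, if_pos ((defect_iff hc l S f).mpr h)]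
  · rw [if_neg h, if_neg (fun h' => h ((defect_iff hc l S f).mp h'))]

end Conj

end TQB

theorem TQB_thm (h1 : Stmt_UPP) (h2 : Stmt_DWN) (h3 : Stmt_RSC) (h4 : Stmt_PSI)
    (h5 : Stmt_CJN) (h6 : Stmt_CJS) (h7 : Stmt_CNO) (h8 : Stmt_DFT) (h9 : Stmt_STO)
    (h10 : Stmt_CST) : Stmt_TQB := by
  classical
  intro L K H K1 H1 Q L1 W W1 Ω _ _ _ _ _ _ _ _ _ _ _ _ _ _ _ _ _ _ _ _ 𝔐 ℓ _ h𝔐 hℓ𝔐 π μ
    φ q α ε μQ π1 μ1 ι M M1 σr Fr ζ hRF ω θr hTPr hBr hSTB hSPP p hp hpk P hP p1 hp1 hp1k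
    P1 hP1 πW1 hW1 hcW1 ν1 hT2X πW ψ μ0 hW hψ1 hψ2 ν hν
  have := hRF.mm.nm
  have := hRF.mm.nm1
  obtain ⟨hNn, hqn, hCST⟩ := h10 L K K1 Q Ω ℓ π μ φ q α ε μQ hRF.wd
  have := hNn
  have := hqn
  have hNr : ∀ k ∈ NN' π ε, (φ k).right = 1 := by
    rintro _ ⟨_, ⟨n, rfl⟩, rfl⟩
    rw [hRF.wd.φε]
    rfl
  have hεN : ∀ n : Ω → Q, π (ε n) ∈ NN' π ε := fun n => ⟨ε n, ⟨n, rfl⟩, rfl⟩
  rw [TQB.T2X_iff] at hT2X ⊢
  intro a ha n0
  have hkψ : ∀ z ∈ πW.ker, ∀ o, (ψ z).left o ∈ πW1.ker :=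
    fun z hz o => TQB.psi_left hψ1 hz o
  obtain ⟨a1, ha1, hχ⟩ := h9 W H W1 H1 Ω ℓ πW hW P hP πW1 hW1 hcW1 P1 hP1 ψ
    (TQB.psi_tr hW hψ1 hRF.wd.tr) (TQB.psi_sj hp1 hW1 hψ2 hRF.wd.sj)
    (fun z hz => TQB.psi_right hψ1 hz) hkψ a ha
  obtain ⟨_, hrsc⟩ := h3 L K K1 Q L1 Ω 𝔐 ℓ h𝔐 hℓ𝔐 π μ φ q α ε μQ π1 μ1 ι M M1 σr Fr ζ hRF
  have hCJ1 := fun (l : L1) (S : Subgroup K1) (f : L1 → ℂ) =>
    h5 L1 K1 𝔐 π1 hRF.ld.s hRF.ld.c μ1 M1 l S f
  have hCJ := fun (l : L) (S : Subgroup K) (f : L → ℂ) =>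
    h5 L K 𝔐 π hRF.wd.πs hRF.wd.πc μ M l S f
  have hCS1 := fun (g h : K1) (σ : Finset (Subgroup K1)) => h6 K1 ℓ M1 g h σ
  have hCS := fun (g h : K) (σ : Finset (Subgroup K)) => h6 K ℓ (NN' π ε) g h σ
  -- the finite sets
  have hmD : ∀ i : TQB.IT K1 L1, i ∈ TQB.PF 𝔐 ℓ π1 μ1 M1 (cg 𝔐 Fr) (ChN ℓ M1) ↔
      ChN ℓ M1 i.1 ∧ BPs 𝔐 π1 μ1 M1 (cg 𝔐 Fr) (stb i.1) i.2 :=
    fun i => TQB.mem_PF (fun σ h => h.1)
  have hmC : ∀ c : TQB.IT K L, c ∈ TQB.PF 𝔐 ℓ π μ M ω
      (fun σ => ChN ℓ (NN' π ε) σ ∧ Clo φ (NN' π ε) σ) ↔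
      (ChN ℓ (NN' π ε) c.1 ∧ Clo φ (NN' π ε) c.1) ∧ BPs 𝔐 π μ M ω (stb c.1) c.2 :=
    fun c => TQB.mem_PF (fun σ h => h.1.1)
  set D := TQB.PF 𝔐 ℓ π1 μ1 M1 (cg 𝔐 Fr) (ChN ℓ M1) with hD
  set C := TQB.PF 𝔐 ℓ π μ M ω (fun σ => ChN ℓ (NN' π ε) σ ∧ Clo φ (NN' π ε) σ) with hC
  -- the map
  let R : TQB.IT K1 L1 → (L → ℂ) → Prop := fun i θ => TP π φ π1 M i.2 ζ θ ∧
    BPs 𝔐 π μ M ω (stb (cstC φ (NN' π ε) i.1)) θ
  have hR : ∀ i ∈ D, R i (TQB.Psi R (cstC φ (NN' π ε)) i).2 := by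
    intro i hi
    apply TQB.Psi_spec
    obtain ⟨hi1, hi2⟩ := (hmD i).mp hi
    exact h1 L K K1 Q L1 Ω 𝔐 ℓ h𝔐 hℓ𝔐 π μ φ q α ε μQ π1 μ1 ι M M1 σr Fr ζ hRF ω θr hTPr hBr
      i.1 i.2 hi1 hi2
  have hΨ1 : ∀ i, (TQB.Psi R (cstC φ (NN' π ε)) i).1 = cstC φ (NN' π ε) i.1 := fun i => rfl
  set Ψ := TQB.Psi R (cstC φ (NN' π ε)) with hΨ
  have hdat : ∀ i ∈ D, ChN ℓ q.range i.1 ∧ EF π1 q.range M1 (stb i.1) i.2 ∧
      q.range ⊔ stb i.1 = ⊤ ∧
      ∀ u : L1 → ℤ, CIv (q.range.comap π1) u → sc 𝔐 i.2 u = sc 𝔐 Fr u := by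
    intro i hi
    obtain ⟨hi1, hi2⟩ := (hmD i).mp hi
    exact hrsc i.1 i.2 hi1 hi2
  have hst1 : ∀ (x : Q) (σ : Finset (Subgroup K1)), stb (cjC (q x) σ) =
      (stb σ).map (MulAut.conj (π1 (ι x))).toMonoidHom := by
    intro x σ
    rw [hRF.ld.πι]
    exact (hCS1 (q x) 1 σ).2.2.2.1
  have hst : ∀ (n : Ω → Q) (σ : Finset (Subgroup K)), stb (cjC (π (ε n)) σ) =
      (stb σ).map (MulAut.conj (π (ε n))).toMonoidHom :=
    fun n σ => (hCS (π (ε n)) 1 σ).2.2.2.1
  -- the actions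
  have k1 : ∀ i : TQB.IT K1 L1, TQB.act q ι 1 i = i := by
    rintro ⟨σ, F⟩
    change (⟨cjC (q 1) σ, cjF (ι 1) F⟩ : TQB.IT K1 L1) = ⟨σ, F⟩
    rw [map_one, map_one, (hCS1 1 1 σ).1, TQB.cjF_one]
  have k2 : ∀ (g h : Q) (i : TQB.IT K1 L1), TQB.act q ι (g * h) i =
      TQB.act q ι g (TQB.act q ι h i) := by
    rintro g h ⟨σ, F⟩
    change (⟨cjC (q (g * h)) σ, cjF (ι (g * h)) F⟩ : TQB.IT K1 L1) =
      ⟨cjC (q g) (cjC (q h) σ), cjF (ι g) (cjF (ι h) F)⟩
    rw [map_mul, map_mul, (hCS1 (q g) (q h) σ).2.1, TQB.cjF_mul]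
  have k3 : ∀ c : TQB.IT K L, TQB.act (fun n : Ω → Q => π (ε n)) ε 1 c = c := by
    rintro ⟨σ, F⟩
    change (⟨cjC (π (ε 1)) σ, cjF (ε 1) F⟩ : TQB.IT K L) = ⟨σ, F⟩
    rw [map_one, map_one, (hCS 1 1 σ).1, TQB.cjF_one]
  have k4 : ∀ (n m : Ω → Q) (c : TQB.IT K L), TQB.act (fun n : Ω → Q => π (ε n)) ε (n * m) c =
      TQB.act (fun n : Ω → Q => π (ε n)) ε n (TQB.act (fun n : Ω → Q => π (ε n)) ε m c) := by
    rintro n m ⟨σ, F⟩
    change (⟨cjC (π (ε (n * m))) σ, cjF (ε (n * m)) F⟩ : TQB.IT K L) =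
      ⟨cjC (π (ε n)) (cjC (π (ε m)) σ), cjF (ε n) (cjF (ε m) F)⟩
    rw [map_mul, map_mul, (hCS (π (ε n)) (π (ε m)) σ).2.1, TQB.cjF_mul]
  have k5 : ∀ g, ∀ i ∈ D, TQB.act q ι g i ∈ D := by
    rintro g ⟨σ, F⟩ hi
    rw [hmD] at hi ⊢
    obtain ⟨hi1, hi2⟩ := hi
    refine ⟨(hCS1 (q g) 1 σ).2.2.2.2.1 hi1, ?_⟩
    change BPs 𝔐 π1 μ1 M1 (cg 𝔐 Fr) (stb (cjC (q g) σ)) (cjF (ι g) F)
    rw [hst1]
    exact (hCJ1 (ι g) (stb σ) F).1 _ hi2
  have k6 : ∀ i ∈ D, ∀ n, TQB.act (fun n : Ω → Q => π (ε n)) ε n (Ψ i) ∈ C := by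
    intro i hi n
    rw [hmC]
    obtain ⟨hc1, hc2, _⟩ := hCST i.1 (hdat i hi).1
    refine ⟨⟨(hCS (π (ε n)) 1 _).2.2.2.2.1 hc1, ?_⟩, ?_⟩
    · exact TQB.clo_conj hNn hNr (hεN n) hc1.2 hc2
    · change BPs 𝔐 π μ M ω (stb (cjC (π (ε n)) (cstC φ (NN' π ε) i.1))) (cjF (ε n) (Ψ i).2)
      rw [hst]
      exact (hCJ (ε n) _ _).1 _ (hR i hi).2
  have k7 : ∀ c ∈ C, ∃ i ∈ D, ∃ n, c = TQB.act (fun n : Ω → Q => π (ε n)) ε n (Ψ i) := by
    rintro ⟨σ, θ⟩ hc
    rw [hmC] at hc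
    obtain ⟨⟨hc1, hc2⟩, hc3⟩ := hc
    obtain ⟨n, σ1, F1, hch, hbp, hσ, htp⟩ := h2 L K K1 Q L1 Ω 𝔐 ℓ h𝔐 hℓ𝔐 π μ φ q α ε μQ π1
      μ1 ι M M1 σr Fr ζ hRF ω θr hTPr hBr hSTB hSPP σ θ hc1 hc2 hc3
    have hi : (⟨σ1, F1⟩ : TQB.IT K1 L1) ∈ D := (hmD _).mpr ⟨hch, hbp⟩
    refine ⟨⟨σ1, F1⟩, hi, n, ?_⟩
    have h11 := TQB.tp_unique hRF.ld.s (hR _ hi).1 htp
    change (⟨σ, θ⟩ : TQB.IT K L) = ⟨cjC (π (ε n)) (cstC φ (NN' π ε) σ1),
      cjF (ε n) (Ψ ⟨σ1, F1⟩).2⟩
    rw [h11, ← hσ, ← TQB.cjF_mul, mul_inv_cancel, TQB.cjF_one]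
  have k8 : ∀ i ∈ D, ∀ i' ∈ D, ∀ n, TQB.act (fun n : Ω → Q => π (ε n)) ε n (Ψ i) = Ψ i' ↔
      ∀ o, TQB.act q ι (n o) i = i' := by
    rintro ⟨σ, F⟩ hi ⟨σ', F'⟩ hi' n
    have hd := hdat _ hi
    have hd' := hdat _ hi'
    have hps := (h4 L K K1 Q L1 Ω 𝔐 ℓ h𝔐 hℓ𝔐 π μ φ q α ε μQ π1 μ1 ι M M1 σr Fr ζ hRF σ σ' F
      F' _ _ hd.1 hd'.1 hd.2.2.1 hd'.2.2.1 hd.2.1 hd'.2.1 ((hmD _).mp hi).2.ovl
      ((hmD _).mp hi').2.ovl hd.2.2.2 hd'.2.2.2 (hR _ hi).1 (hR _ hi').1 n).1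
    have e1 : (TQB.act (fun n : Ω → Q => π (ε n)) ε n (Ψ ⟨σ, F⟩) = Ψ ⟨σ', F'⟩) ↔
        (cjC (π (ε n)) (cstC φ (NN' π ε) σ) = cstC φ (NN' π ε) σ' ∧
          cjF (ε n) (Ψ ⟨σ, F⟩).2 = (Ψ ⟨σ', F'⟩).2) := by
      constructor
      · intro h
        exact ⟨congrArg Sigma.fst h, congrArg (fun c : TQB.IT K L => c.2) h⟩
      · rintro ⟨h, h'⟩
        exact Sigma.ext h (heq_of_eq h')
    have e2 : (∀ o, TQB.act q ι (n o) (⟨σ, F⟩ : TQB.IT K1 L1) = ⟨σ', F'⟩) ↔
        ∀ o, cjC (q (n o)) σ = σ' ∧ cjF (ι (n o)) F = F' := by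
      refine forall_congr' fun o => ⟨fun h => ?_, fun h => ?_⟩
      · exact ⟨congrArg Sigma.fst h, congrArg (fun c : TQB.IT K1 L1 => c.2) h⟩
      · exact Sigma.ext h.1 (heq_of_eq h.2)
    rw [e1, e2]
    exact hps
  -- the values
  have hval : ∀ i ∈ D, ∀ n : Ω → Q,
      ν ((stb (cstC φ (NN' π ε) i.1)).map (MulAut.conj (π (ε n))).toMonoidHom)
        (cjF (ε n) (Ψ i).2) a = μ0 a * ν1 (stb i.1) i.2 a1 := by
    intro i hi n
    rw [hν i.1 i.2 (Ψ i).2 n ((hmD i).mp hi).1 ((hmD i).mp hi).2 (hR i hi).1 a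
      (hkψ _ a.2), hχ]
  have hdc : ∀ (l : L) (S : Subgroup K) (f : L → ℂ),
      HasDefect ℓ (fun s : AL π M S => f s) n0 →
      HasDefect ℓ (fun s : AL π M (S.map (MulAut.conj (π l)).toMonoidHom) => cjF l f s) n0 :=
    fun l S f => (hCJ l S f).2.1 ℓ n0
  have k9 : ∀ c ∈ C, ∀ n,
      TQB.GG ℓ π M (fun S f => ((ν S f a : ℂˣ) : ℂ)) n0
        (TQB.act (fun n : Ω → Q => π (ε n)) ε n c).1.card
        (stb (TQB.act (fun n : Ω → Q => π (ε n)) ε n c).1)
        (TQB.act (fun n : Ω → Q => π (ε n)) ε n c).2 =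
      TQB.GG ℓ π M (fun S f => ((ν S f a : ℂˣ) : ℂ)) n0 c.1.card (stb c.1) c.2 := by
    intro c hc n
    obtain ⟨i, hi, m, rfl⟩ := k7 c hc
    set θ := (Ψ i).2 with hθ
    have e1 : (TQB.act (fun n : Ω → Q => π (ε n)) ε m (Ψ i)).1 =
      cjC (π (ε m)) (cstC φ (NN' π ε) i.1) := rfl
    have e2 : (TQB.act (fun n : Ω → Q => π (ε n)) ε m (Ψ i)).2 = cjF (ε m) θ := rfl
    have e3 : (TQB.act (fun n : Ω → Q => π (ε n)) ε n
      (TQB.act (fun n : Ω → Q => π (ε n)) ε m (Ψ i))).1 =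
      cjC (π (ε n)) (cjC (π (ε m)) (cstC φ (NN' π ε) i.1)) := rfl
    have e4 : (TQB.act (fun n : Ω → Q => π (ε n)) ε n
      (TQB.act (fun n : Ω → Q => π (ε n)) ε m (Ψ i))).2 = cjF (ε n) (cjF (ε m) θ) := rfl
    rw [e1, e2, e3, e4, (hCS (π (ε n)) 1 _).2.2.1, hst n]
    apply TQB.GG_conj hdc
    change ((ν _ _ a : ℂˣ) : ℂ) = ((ν _ _ a : ℂˣ) : ℂ)
    rw [hst, TQB.map_map_conj, ← TQB.cjF_mul, ← map_mul, ← map_mul, hval i hi, hval i hi]
  have k10 : ∀ i ∈ D, Nat.card ↥((stb i.1).comap q) =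
      Nat.card {g : Q // TQB.act q ι g i = i} := by
    rintro ⟨σ, F⟩ hi
    obtain ⟨hi1, hi2⟩ := (hmD _).mp hi
    refine Nat.card_congr (Equiv.subtypeEquivRight fun g => ?_)
    constructor
    · intro hg
      have hg' : q g ∈ stb σ := hg
      apply Sigma.ext
      · exact (hCS1 (q g) 1 σ).2.2.2.2.2.1 hg'
      · apply heq_of_eq
        funext x
        have hq : π1 (ι g)⁻¹ ∈ stb σ := by
          rw [map_inv, hRF.ld.πι]
          exact (stb σ).inv_mem hg'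
        have h12 := hi2.iv (ι g)⁻¹ hq x
        rw [inv_inv] at h12
        exact h12
    · intro hg
      have h12 : cjC (q g) σ = σ := congrArg Sigma.fst hg
      exact (hCS1 (q g) 1 σ).2.2.2.2.2.2 hi1.1 h12
  have hsum := h7 Q (TQB.IT K1 L1) (TQB.IT K L) Ω (TQB.act q ι)
    (TQB.act (fun n : Ω → Q => π (ε n)) ε) k1 k2 k3 k4 D C Ψ k5 k6 k7 k8
    (fun c => TQB.GG ℓ π M (fun S f => ((ν S f a : ℂˣ) : ℂ)) n0 c.1.card (stb c.1) c.2)
    k9 (fun i => Nat.card ↥((stb i.1).comap q)) k10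
  rw [hsum]
  clear hsum k1 k2 k3 k4 k5 k6 k7 k8 k9 k10
  -- the orders
  have hnum : ∀ i ∈ D, ((Nat.card Q : ℂ) / (Nat.card ↥((stb i.1).comap q) : ℂ)) ^
      (Fintype.card Ω - 1) * (Nat.card ↥(M ⊓ stb (cstC φ (NN' π ε) i.1)) : ℂ) =
      (Nat.card M : ℂ) / (Nat.card M1 : ℂ) * (Nat.card ↥(M1 ⊓ stb i.1) : ℂ) := by
    intro i hi
    have hd := hdat i hi
    have hb := ((hmD i).mp hi).2
    have hf := (h8 L K K1 Q L1 Ω ℓ π μ φ q α ε μQ π1 μ1 ι M M1 hRF.wd hRF.ld hRF.mm i.1 i.2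
      hd.1 hd.2.1 hb.ovl ζ hRF.zt (Ψ i).2 (hR i hi).1).1
    refine TQB.numer (r := Nat.card q.range) (rs := Nat.card ↥(q.range ⊓ stb i.1))
      (kq := Nat.card q.ker) Fintype.card_pos Nat.card_pos Nat.card_pos Nat.card_pos
      Nat.card_pos hf ?_ ?_ ?_
    · have h13 := EXPB.card_comap q ⊤
      rw [Subgroup.comap_top, top_inf_eq, Subgroup.card_top] at h13
      exact h13
    · rw [EXPB.card_comap q (stb i.1), inf_comm]
    · exact TQB.card_prod hqn hRF.mm.le1 hd.2.1.cov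
  by_cases hex : ∃ n1, n0 + Fintype.card Ω * padicValNat ℓ (Nat.card π1.ker) =
      Fintype.card Ω * n1 + padicValNat ℓ (Nat.card π.ker)
  · obtain ⟨n1, hn1⟩ := hex
    have hz := hT2X a1 ha1 n1
    have hterm : ∀ i ∈ D, ((Nat.card Q : ℂ) / (Nat.card ↥((stb i.1).comap q) : ℂ)) ^
        (Fintype.card Ω - 1) * TQB.GG ℓ π M (fun S f => ((ν S f a : ℂˣ) : ℂ)) n0
          (Ψ i).1.card (stb (Ψ i).1) (Ψ i).2 =
        ((Nat.card M : ℂ) / (Nat.card M1 : ℂ) * ((μ0 a : ℂˣ) : ℂ)) *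
          TQB.GG ℓ π1 M1 (fun S f => ((ν1 S f a1 : ℂˣ) : ℂ)) n1 i.1.card (stb i.1) i.2 := by
      intro i hi
      have hd := hdat i hi
      have hb := ((hmD i).mp hi).2
      have hf := (h8 L K K1 Q L1 Ω ℓ π μ φ q α ε μQ π1 μ1 ι M M1 hRF.wd hRF.ld hRF.mm i.1
        i.2 hd.1 hd.2.1 hb.ovl ζ hRF.zt (Ψ i).2 (hR i hi).1).2 n0
      have hdf : HasDefect ℓ (fun s : AL π M (stb (cstC φ (NN' π ε) i.1)) => (Ψ i).2 s) n0 ↔
          HasDefect ℓ (fun s : AL π1 M1 (stb i.1) => i.2 s) n1 := by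
        rw [hf]
        constructor
        · rintro ⟨n2, h14, h15⟩
          have h16 : Fintype.card Ω * n2 = Fintype.card Ω * n1 := by omega
          have h17 : n2 = n1 := Nat.eq_of_mul_eq_mul_left Fintype.card_pos h16
          rw [← h17]
          exact h14
        · intro h14
          exact ⟨n1, h14, hn1⟩
      have hv0 := hval i hi 1
      rw [map_one, map_one, TQB.map_conj_one, TQB.cjF_one] at hv0
      rw [hΨ1]
      unfold TQB.GG
      rw [(hCST i.1 hd.1).2.2.1]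
      by_cases h14 : HasDefect ℓ (fun s : AL π1 M1 (stb i.1) => i.2 s) n1
      · rw [if_pos h14, if_pos (hdf.mpr h14)]
        beta_reduce
        rw [hv0]
        have h15 := hnum i hi
        push_cast
        linear_combination ((-1 : ℂ) ^ i.1.card * ((μ0 a : ℂˣ) : ℂ) *
          ((ν1 (stb i.1) i.2 a1 : ℂˣ) : ℂ)) * h15
      · rw [if_neg h14, if_neg (fun h => h14 (hdf.mp h))]
        ring
    rw [Finset.sum_congr rfl hterm, ← Finset.mul_sum, hz, mul_zero]
  · apply Finset.sum_eq_zero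
    intro i hi
    have hd := hdat i hi
    have hb := ((hmD i).mp hi).2
    have hf := (h8 L K K1 Q L1 Ω ℓ π μ φ q α ε μQ π1 μ1 ι M M1 hRF.wd hRF.ld hRF.mm i.1
      i.2 hd.1 hd.2.1 hb.ovl ζ hRF.zt (Ψ i).2 (hR i hi).1).2 n0
    rw [hΨ1]
    unfold TQB.GG
    rw [if_neg, mul_zero, mul_zero]
    intro h14
    obtain ⟨n1, _, h15⟩ := hf.mp h14
    exact hex ⟨n1, h15⟩

end Pool.Agent.DPG


end
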