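import Mathlib
import Pool.Agent.DAM.C14
import Pool.Agent.DAM.C24
import Pool.Agent.DAM.C47

/-! Parts: DPV.EXTV -/

section

set_option linter.unusedSectionVars false

/-!
# EXTV (theorem V): the extensions of `ψ`
-/

namespace Pool.Agent.DPV

open Pool.Agent.DP Pool.Agent.Lib_helper13 Representation
open Pool.Agent.Lib_helper13.Dade (pCore DadeHolds dadeSum)

namespace EXTV

open Pool.Agent.DPC.EXTAR

section Loc

variable {G B C : Type} [Group G] [Group B] [Group C] {ι : G →* B} {κ : B →* MulAut G}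
  {ρ : B →* C}

/-- A linear character on a subgroup as a homomorphism. -/
theorem linOn_hom {K : Subgroup C} {lam : C → ℂ} (h : LinOn K lam) :
    ∃ l : K →* ℂˣ, ∀ k : K, ((l k : ℂˣ) : ℂ) = lam k :=
  ⟨MonoidHom.toHomUnits
    { toFun := fun k : K => lam k
      map_one' := h.1
      map_mul' := fun a b => h.2 a a.2 b b.2 }, fun _ => rfl⟩

theorem ext_trn (h : ClG ι κ ρ) {σ : Finset (Subgroup G)} {ψ : G → ℂ} [Finite G]
    (hψ : IrrOn (stb σ) ψ) (L : Subgroup C) {f : B → ℂ} (hf : IrrOn (Stx κ σ ψ) f)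
    (he : ∀ x, f (ι x) = ψ x) : ExtL ι κ ρ σ ψ L (trn ρ L f) := by
  have hc := comap_eq h hψ L
  refine ⟨⟨?_, ?_⟩, ?_⟩
  · have h1 : (fun s : (Stx κ σ ψ ⊓ L.comap ρ : Subgroup B) => trn ρ L f s) =
        fun s : (Stx κ σ ψ ⊓ L.comap ρ : Subgroup B) => f s := by
      funext s
      exact if_pos (Subgroup.mem_inf.mp s.2).2
    rw [h1]
    refine Pool.Agent.DPC.EXTBR.irrOn_trn ι (A := stb σ) inf_le_left ?_ hf.1 ?_
    · intro a ha
      rw [← hc] at ha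
      exact ha
    · have h2 : (fun a : stb σ => f (ι a)) = fun a : stb σ => ψ a := by
        funext a
        exact he a
      rw [h2]
      exact hψ.1
  · intro x hx
    by_cases hxL : ρ x ∈ L
    · have h1 : trn ρ L f x = f x := if_pos hxL
      rw [h1]
      apply hf.2
      intro hx2
      exact hx (Subgroup.mem_inf.mpr ⟨hx2, hxL⟩)
    · exact if_neg hxL
  · intro g
    have h1 : trn ρ L f (ι g) = f (ι g) := if_pos (by rw [rho_iota h]; exact L.one_mem)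
    rw [h1, he]

theorem twist [Fintype G] [Fintype B] (hG : Stmt_GALL) (h : ClG ι κ ρ) [Finite C]
    {σ : Finset (Subgroup G)} {ψ : G → ℂ} (hψ : IrrOn (stb σ) ψ) (L : Subgroup C)
    {f : B → ℂ} (hf : ExtL ι κ ρ σ ψ L f) {lam : C → ℂ} (hlam : LinOn (KL κ ρ σ ψ L) lam) :
    ExtL ι κ ρ σ ψ L (fun x => f x * lam (ρ x)) := by
  classical
  have : Fintype (stb σ) := Fintype.ofFinite _
  have : Fintype (YY κ ρ σ ψ L) := Fintype.ofFinite _
  have : Fintype (KL κ ρ σ ψ L) := Fintype.ofFinite _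
  obtain ⟨h1, _, _⟩ := hG (stb σ) (YY κ ρ σ ψ L) (KL κ ρ σ ψ L) (jY h hψ L) (cY h hψ L)
    (qY κ ρ σ ψ L) (clG_Y h hψ L) (qY_surj κ ρ σ ψ L) (fun a => ψ a) (fun y => f y) hψ.1
    hf.1.1.isChr (ext_res h hψ L hf)
  obtain ⟨l, hl⟩ := linOn_hom hlam
  refine ⟨⟨?_, ?_⟩, ?_⟩
  · have h2 := (h1 _ (isIrr_lin l)).1
    have h3 : (fun y : YY κ ρ σ ψ L => f y * ((l (qY κ ρ σ ψ L y) : ℂˣ) : ℂ)) =
        fun y : YY κ ρ σ ψ L => f y * lam (ρ y) := by
      funext y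
      rw [hl, qY_coe]
    rw [h3] at h2
    exact h2
  · intro x hx
    change f x * _ = 0
    rw [hf.1.2 x hx, zero_mul]
  · intro g
    change f (ι g) * lam (ρ (ι g)) = ψ g
    rw [hf.2, rho_iota h, hlam.1, mul_one]

theorem torsor [Fintype G] [Fintype B] (hG : Stmt_GALL) (h : ClG ι κ ρ) [Finite C]
    {σ : Finset (Subgroup G)} {ψ : G → ℂ} (hψ : IrrOn (stb σ) ψ)
    (L : Subgroup C) {f f' : B → ℂ} (hf : ExtL ι κ ρ σ ψ L f) (hf' : ExtL ι κ ρ σ ψ L f') :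
    ∃ lam : C → ℂ, LinOn (KL κ ρ σ ψ L) lam ∧ f' = fun x => f x * lam (ρ x) := by
  classical
  have : Fintype (stb σ) := Fintype.ofFinite _
  have : Fintype (YY κ ρ σ ψ L) := Fintype.ofFinite _
  have : Fintype (KL κ ρ σ ψ L) := Fintype.ofFinite _
  obtain ⟨_, _, h3⟩ := hG (stb σ) (YY κ ρ σ ψ L) (KL κ ρ σ ψ L) (jY h hψ L) (cY h hψ L)
    (qY κ ρ σ ψ L) (clG_Y h hψ L) (qY_surj κ ρ σ ψ L) (fun a => ψ a) (fun y => f y) hψ.1
    hf.1.1.isChr (ext_res h hψ L hf)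
  have h4 : resj (jY h hψ L) (fun y : YY κ ρ σ ψ L => f' y) = fun a : stb σ => ψ a :=
    funext (ext_res h hψ L hf')
  obtain ⟨η, hη, hη'⟩ := h3 (fun y => f' y) hf'.1.1 (by
    rw [h4, ip_self hψ.1]
    exact _root_.one_ne_zero)
  have h5 : η 1 = 1 := by
    have h6 := congrFun hη' (1 : YY κ ρ σ ψ L)
    have h7 : f' ((1 : YY κ ρ σ ψ L) : B) = ψ 1 := by
      have := hf'.2 1
      rwa [map_one] at this
    have h8 : f ((1 : YY κ ρ σ ψ L) : B) = ψ 1 := by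
      have := hf.2 1
      rwa [map_one] at this
    simp only [map_one] at h6
    rw [h7, h8] at h6
    have h9 : ψ 1 ≠ 0 := hψ.1.one_ne_zero
    exact (mul_left_cancel₀ h9 (h6.symm.trans (mul_one _).symm))
  refine ⟨ext0 η, ⟨?_, ?_⟩, ?_⟩
  · rw [ext0_of_mem η (one_mem (KL κ ρ σ ψ L))]
    exact h5
  · intro x hx y hy
    rw [ext0_of_mem η (mul_mem hx hy), ext0_of_mem η hx, ext0_of_mem η hy]
    exact lin_mul hη h5 ⟨x, hx⟩ ⟨y, hy⟩
  · funext x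
    by_cases hx : x ∈ YY κ ρ σ ψ L
    · have h10 := congrFun hη' (⟨x, hx⟩ : YY κ ρ σ ψ L)
      have h12 : ρ x ∈ KL κ ρ σ ψ L := (qY κ ρ σ ψ L ⟨x, hx⟩).2
      rw [ext0_of_mem η h12]
      exact h10
    · rw [hf'.1.2 x hx, hf.1.2 x hx, zero_mul]

end Loc

end EXTV

/-- EXTV: the extensions of `ψ`. -/
theorem EXTV_thm : Stmt_EXTV := by
  intro G B C _ _ _ _ _ ι κ ρ hL σ ψ hψ L
  have hG : Stmt_GALL := GALL_thm COSET_thm SUMM_thm
  have hfin : Finite C := Finite.of_surjective ρ hL.surj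
  obtain ⟨f, hf, he⟩ := hL.ext σ ψ hψ
  exact ⟨Pool.Agent.DPC.EXTAR.comap_eq hL.cl hψ L, Pool.Agent.DPC.EXTAR.map_eq σ ψ L,
    ⟨_, EXTV.ext_trn hL.cl hψ L hf he⟩,
    fun f lam hlam hf => EXTV.twist hG hL.cl hψ L hf hlam,
    fun f f' hf hf' => EXTV.torsor hG hL.cl hψ L hf hf',
    fun L' hL' f hf => Pool.Agent.DPC.EXTBR.extL_trn hL.cl hψ hL'
      (Pool.Agent.DPC.EXTAR.comap_eq hL.cl hψ L') hf⟩

end Pool.Agent.DPV


end
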