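import Mathlib
import Pool.Agent.DAM.C14
import Pool.Agent.DAM.C15
import Pool.Agent.DAM.C18
import Pool.Agent.DAM.C19
import Pool.Agent.DAM.C23
import Pool.Agent.DAM.C25

/-! Parts: DPN.FRO, DPF.FRZ, DPV.BLKCV -/

section

/-!
# FRO: Frobenius' formula for the characters over a stable set of characters of a normal subgroup
-/

namespace Pool.Agent.DPN.FRO

open Pool.Agent.DP Pool.Agent.Lib_helper13 Representation

variable {G : Type} [Group G] [Fintype G]

/-- A class function acts by a scalar on an irreducible character. -/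
theorem scal {χ f : G → ℂ} (hχ : IsIrr χ) (hf : ∀ g x, f (g * x * g⁻¹) = f x) (y : G) :
    ∑ r, f r * χ (r * y) = wt χ f * χ y := by
  have h1 := hχ.one_ne_zero
  obtain ⟨n, ρ, hρ, rfl⟩ := hχ
  have hf' : ∀ g x, (fun g => f g⁻¹) (g * x * g⁻¹) = (fun g => f g⁻¹) x := by
    intro g x
    change f (g * x * g⁻¹)⁻¹ = f x⁻¹
    have h2 : (g * x * g⁻¹)⁻¹ = g * x⁻¹ * g⁻¹ := by group
    rw [h2, hf]
  obtain ⟨c, hc⟩ := exists_scalar ρ hρ (opSum (fun g => f g⁻¹) ρ)
    (fun g x => opSum_comm _ hf' ρ g x)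
  have hs : opSum (fun g => f g⁻¹) ρ = ∑ r, f r • ρ r := by
    rw [opSum]
    refine Fintype.sum_equiv (Equiv.inv G) _ _ (fun g => ?_)
    rfl
  rw [hs] at hc
  have ht : ∀ y : G, ∑ r, f r * ρ.character (r * y) = c * ρ.character y := by
    intro y
    have h2 := congrArg (fun T : Module.End ℂ (Fin n → ℂ) =>
      LinearMap.trace ℂ (Fin n → ℂ) (T * ρ y)) hc
    simp only [Finset.sum_mul, map_sum, smul_mul_assoc, map_smul, smul_eq_mul,
      ← map_mul] at h2
    have h3 : (LinearMap.id : (Fin n → ℂ) →ₗ[ℂ] (Fin n → ℂ)) * ρ y = ρ y := rfl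
    rw [h3] at h2
    exact h2
  have h4 : wt ρ.character f = c := by
    rw [wt, div_eq_iff h1, ← ht 1]
    exact Finset.sum_congr rfl fun r _ => by rw [mul_one]
  rw [h4, ht]

open Classical in
/-- The idempotent is a class function. -/
theorem ed_conj (N : Subgroup G) [N.Normal] (Q : (N → ℂ) → Prop)
    (hQ : ∀ (g : G) (κ : N → ℂ), Q κ → Q (fun n => κ (MulAut.conjNormal g n))) (g r : G) :
    ed N Q (g * r * g⁻¹) = ed N Q r := by
  unfold ed
  congr 1
  refine Finset.sum_bij' (fun κ _ => cfn MulAut.conjNormal κ g)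
    (fun κ _ => cfn MulAut.conjNormal κ g⁻¹) ?_ ?_ ?_ ?_ ?_
  · intro κ hκ
    rw [Finset.mem_filter] at hκ ⊢
    exact ⟨mem_irrF.mpr ((mem_irrF.mp hκ.1).cfn g), hQ g κ hκ.2⟩
  · intro κ hκ
    rw [Finset.mem_filter] at hκ ⊢
    exact ⟨mem_irrF.mpr ((mem_irrF.mp hκ.1).cfn g⁻¹), hQ g⁻¹ κ hκ.2⟩
  · intro κ _
    rw [cfn_mul, mul_inv_cancel, cfn_one]
  · intro κ _
    rw [cfn_mul, inv_mul_cancel, cfn_one]
  · intro κ _
    rw [cfn_deg]
    congr 1
    have h2 : (g * r * g⁻¹)⁻¹ = g * r⁻¹ * g⁻¹ := by group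
    rw [h2]
    by_cases h : r⁻¹ ∈ N
    · have h' : g * r⁻¹ * g⁻¹ ∈ N := ‹N.Normal›.conj_mem _ h g
      rw [ext0_of_mem _ h, ext0_of_mem _ h', cfn]
      rfl
    · have h' : g * r⁻¹ * g⁻¹ ∉ N := by
        intro h'
        apply h
        have h3 := ‹N.Normal›.conj_mem _ h' g⁻¹
        have h4 : g⁻¹ * (g * r⁻¹ * g⁻¹) * g⁻¹⁻¹ = r⁻¹ := by group
        rwa [h4] at h3
      rw [ext0_of_not_mem _ h, ext0_of_not_mem _ h']

theorem ed_out (N : Subgroup G) (Q : (N → ℂ) → Prop) {r : G} (hr : r ∉ N) : ed N Q r = 0 := by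
  classical
  unfold ed
  rw [Finset.sum_eq_zero, zero_div]
  intro κ _
  rw [ext0_of_not_mem _ (fun h => hr (by simpa using N.inv_mem h)), mul_zero]

omit [Fintype G] in
theorem clG (N : Subgroup G) [N.Normal] :
    ClG N.subtype (MulAut.conjNormal : G →* MulAut N) (QuotientGroup.mk' N) where
  inj := N.subtype_injective
  act := fun y a => MulAut.conjNormal_apply y a
  ker := by
    intro y
    rw [QuotientGroup.mk'_apply, QuotientGroup.eq_one_iff, Subgroup.range_subtype]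

theorem exists_under (N : Subgroup G) {χ : G → ℂ} (hχ : IsIrr χ) :
    ∃ θ : N → ℂ, IsIrr θ ∧ ip (resj N.subtype χ) θ ≠ 0 := by
  by_contra hn
  push Not at hn
  have h := class_fn_expand (resj N.subtype χ) (fun g x => (hχ.resj N.subtype).conj_eq g x)
  have h1 := congrFun h 1
  have h2 : ∑ θ ∈ irrF N, ip (resj N.subtype χ) θ * θ 1 = 0 :=
    Finset.sum_eq_zero fun θ hθ => by rw [hn θ (mem_irrF.mp hθ), zero_mul]
  rw [h2] at h1
  apply hχ.one_ne_zero
  rw [← h1, resj, map_one]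

open Classical in
/-- The action of the idempotent on a character of the normal subgroup. -/
theorem wt_ed (N : Subgroup G) (Q : (N → ℂ) → Prop) {κ : N → ℂ} (hκ : IsIrr κ) :
    wt κ (fun a : N => ed N Q (a : G)) = if Q κ then 1 else 0 := by
  have h0 : (Nat.card N : ℂ) ≠ 0 := natCard_ne_zero
  have h1 : ∑ a : N, ed N Q (a : G) * κ a =
      ∑ κ' ∈ irrF N with Q κ', κ' 1 * ip κ κ' := by
    have h2 : ∀ a : N, ed N Q (a : G) * κ a =
        ∑ κ' ∈ irrF N with Q κ', κ' 1 * (κ a * κ' a⁻¹ / Nat.card N) := by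
      intro a
      unfold ed
      rw [Finset.sum_div, Finset.sum_mul]
      refine Finset.sum_congr rfl fun κ' _ => ?_
      have h3 : ((a : G))⁻¹ ∈ N := N.inv_mem a.2
      rw [ext0_of_mem _ h3]
      have h4 : (⟨(a : G)⁻¹, h3⟩ : N) = a⁻¹ := rfl
      rw [h4]
      ring
    rw [Finset.sum_congr rfl fun a _ => h2 a, Finset.sum_comm]
    refine Finset.sum_congr rfl fun κ' _ => ?_
    rw [← Finset.mul_sum, ip, Finset.sum_div]
  rw [wt, h1]
  split_ifs with hQ
  · rw [Finset.sum_eq_single κ]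
    · rw [ip_self hκ, mul_one, div_self hκ.one_ne_zero]
    · intro κ' hκ' hne
      rw [ip_ne hκ (mem_irrF.mp (Finset.mem_filter.mp hκ').1) (Ne.symm hne), mul_zero]
    · intro h
      exact absurd (Finset.mem_filter.mpr ⟨mem_irrF.mpr hκ, hQ⟩) h
  · rw [Finset.sum_eq_zero, zero_div]
    intro κ' hκ'
    rw [Finset.mem_filter] at hκ'
    have hne : κ ≠ κ' := by
      rintro rfl
      exact hQ hκ'.2
    rw [ip_ne hκ (mem_irrF.mp hκ'.1) hne, mul_zero]

open Classical in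
/-- The action of the idempotent on a character of the group. -/
theorem wt_edG (N : Subgroup G) [N.Normal] (Q : (N → ℂ) → Prop)
    (hQ : ∀ (g : G) (κ : N → ℂ), Q κ → Q (fun n => κ (MulAut.conjNormal g n)))
    {η : G → ℂ} (hη : IsIrr η) :
    wt η (ed N Q) =
      if ∃ κ : N → ℂ, IsIrr κ ∧ Q κ ∧ ip (resj N.subtype η) κ ≠ 0 then 1 else 0 := by
  obtain ⟨κ, hκ, hr⟩ := exists_under N hη
  have hS := SUMM_thm N G (G ⧸ N) N.subtype MulAut.conjNormal (QuotientGroup.mk' N) (clG N)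
  have h1 := hS.2.2.2 κ η (ed N Q) hκ hη hr (ed_conj N Q hQ) (by
    intro y hy
    rw [Subgroup.range_subtype] at hy
    exact ed_out N Q hy)
  have h2 := wt_ed N Q hκ
  have h3 : wt η (ed N Q) = if Q κ then 1 else 0 := h1.trans h2
  rw [h3]
  by_cases hq : Q κ
  · rw [if_pos hq, if_pos ⟨κ, hκ, hq, hr⟩]
  · rw [if_neg hq, if_neg]
    rintro ⟨κ', hκ', hq', hr'⟩
    obtain ⟨y, hy⟩ := hS.2.1 κ' κ η hκ' hκ hη hr' hr
    apply hq
    have h4 := hQ y κ' hq'
    have h5 : (fun n => κ' (MulAut.conjNormal y n)) = κ := funext hy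
    rwa [h5] at h4

open Classical in
/-- The sum of a class function over the commutators. -/
theorem sum_comm_eq (f : G → ℂ) (hf : ∀ g x, f (g * x * g⁻¹) = f x) :
    ∑ x : G, ∑ y : G, f (x * y * x⁻¹ * y⁻¹) = (Nat.card G : ℂ) * ∑ ψ ∈ irrF G, wt ψ f := by
  have h1 : ∀ y : G, ∑ x : G, f (x * y * x⁻¹ * y⁻¹) =
      ∑ r : G, f r * ∑ ψ ∈ irrF G, ψ (r * y) * ψ y⁻¹ := by
    intro y
    have h2 : ∀ r : G, f r * ∑ ψ ∈ irrF G, ψ (r * y) * ψ y⁻¹ =
        ∑ x : G, if x * y * x⁻¹ * y⁻¹ = r then f r else 0 := by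
      intro r
      rw [column_orth, Finset.card_filter]
      push_cast
      rw [Finset.mul_sum]
      refine Finset.sum_congr rfl fun x _ => ?_
      have h3 : x * y * x⁻¹ = r * y ↔ x * y * x⁻¹ * y⁻¹ = r := by
        rw [mul_inv_eq_iff_eq_mul (b := y)]
      simp only [h3, mul_ite, mul_one, mul_zero]
    rw [Finset.sum_congr rfl fun r _ => h2 r, Finset.sum_comm]
    refine Finset.sum_congr rfl fun x _ => ?_
    rw [Finset.sum_ite_eq Finset.univ (x * y * x⁻¹ * y⁻¹) (fun r => f r),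
      if_pos (Finset.mem_univ _)]
  rw [Finset.sum_comm, Finset.sum_congr rfl fun y _ => h1 y]
  have h4 : ∀ y : G, ∑ r : G, f r * ∑ ψ ∈ irrF G, ψ (r * y) * ψ y⁻¹ =
      ∑ ψ ∈ irrF G, wt ψ f * (ψ y * ψ y⁻¹) := by
    intro y
    have h5 : ∀ r : G, f r * ∑ ψ ∈ irrF G, ψ (r * y) * ψ y⁻¹ =
        ∑ ψ ∈ irrF G, ψ y⁻¹ * (f r * ψ (r * y)) := by
      intro r
      rw [Finset.mul_sum]
      exact Finset.sum_congr rfl fun ψ _ => by ring
    rw [Finset.sum_congr rfl fun r _ => h5 r, Finset.sum_comm]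
    refine Finset.sum_congr rfl fun ψ hψ => ?_
    rw [← Finset.mul_sum, scal (mem_irrF.mp hψ) hf]
    ring
  rw [Finset.sum_congr rfl fun y _ => h4 y, Finset.sum_comm, Finset.mul_sum]
  refine Finset.sum_congr rfl fun ψ hψ => ?_
  rw [← Finset.mul_sum, (mem_irrF.mp hψ).sum_self]
  ring

end Pool.Agent.DPN.FRO

namespace Pool.Agent.DPN

open Pool.Agent.DP Pool.Agent.Lib_helper13 Representation

theorem FRO_thm : Stmt_FRO := by
  classical
  intro G _ _ N _ Q hQ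
  have h1 : ∀ x y : G, (if x * y * x⁻¹ * y⁻¹ ∈ N then ed N Q (x * y * x⁻¹ * y⁻¹) else 0) =
      ed N Q (x * y * x⁻¹ * y⁻¹) := by
    intro x y
    split_ifs with h
    · rfl
    · rw [FRO.ed_out N Q h]
  have h2 : ∑ x : G, ∑ y : G, (if x * y * x⁻¹ * y⁻¹ ∈ N then ed N Q (x * y * x⁻¹ * y⁻¹) else 0) =
      ∑ x : G, ∑ y : G, ed N Q (x * y * x⁻¹ * y⁻¹) :=
    Finset.sum_congr rfl fun x _ => Finset.sum_congr rfl fun y _ => h1 x y
  have h3 := FRO.sum_comm_eq (ed N Q) (FRO.ed_conj N Q hQ)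
  have h4 : ∑ ψ ∈ irrF G, wt ψ (ed N Q) = (Nat.card {η : G → ℂ // IsIrr η ∧
        ∃ κ : N → ℂ, IsIrr κ ∧ Q κ ∧ ip (resj N.subtype η) κ ≠ 0} : ℂ) := by
    rw [Finset.sum_congr rfl fun ψ hψ => FRO.wt_edG N Q hQ (mem_irrF.mp hψ), Finset.sum_boole]
    congr 1
    symm
    have h5 : ∀ η : G → ℂ, (IsIrr η ∧ ∃ κ : N → ℂ, IsIrr κ ∧ Q κ ∧
        ip (resj N.subtype η) κ ≠ 0) ↔ η ∈ (irrF G).filter (fun η => ∃ κ : N → ℂ, IsIrr κ ∧ Q κ ∧
        ip (resj N.subtype η) κ ≠ 0) := by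
      intro η
      rw [Finset.mem_filter, mem_irrF]
    rw [Nat.card_congr (Equiv.subtypeEquivRight h5), Nat.card_eq_fintype_card,
      Fintype.card_coe]
  rw [← h4, ← h3, ← h2]

end Pool.Agent.DPN


end

section

/-!
# FRZ: Frobenius' formula with a central element
-/

namespace Pool.Agent.DPF.FRZ

open Pool.Agent.DP Pool.Agent.DPN Pool.Agent.Lib_helper13 Representation

variable {G : Type} [Group G] [Fintype G]

/-- The translate of a class function by a central element. -/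
theorem wt_translate {χ f : G → ℂ} (hχ : IsIrr χ) (hf : ∀ g x, f (g * x * g⁻¹) = f x) (a : G) :
    wt χ (fun x => f (x * a)) = wt χ f * (χ a⁻¹ / χ 1) := by
  have h1 : ∑ y : G, f (y * a) * χ y = ∑ r : G, f r * χ (r * a⁻¹) := by
    refine Fintype.sum_equiv (Equiv.mulRight a) _ _ fun y => ?_
    rw [Equiv.coe_mulRight, mul_inv_cancel_right]
  rw [wt, h1, FRO.scal hχ hf]
  ring

end Pool.Agent.DPF.FRZ

namespace Pool.Agent.DPF

open Pool.Agent.DP Pool.Agent.DPN Pool.Agent.Lib_helper13 Representation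

/-- FRZ: Frobenius' formula with a central element. -/
theorem FRZ_thm : Stmt_FRZ := by
  classical
  intro G _ _ N _ Q hQ a ha hac
  have hcl : ∀ g x : G, (fun x => ed N Q (x * a)) (g * x * g⁻¹) = (fun x => ed N Q (x * a)) x := by
    intro g x
    change ed N Q (g * x * g⁻¹ * a) = ed N Q (x * a)
    have h1 : g * x * g⁻¹ * a = g * (x * a) * g⁻¹ := by
      rw [mul_assoc (g * x), Subgroup.mem_center_iff.mp hac g⁻¹]
      simp only [mul_assoc]
    rw [h1, FRO.ed_conj N Q hQ]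
  have h1 : ∀ x y : G,
      (if x * y * x⁻¹ * y⁻¹ ∈ N then ed N Q (x * y * x⁻¹ * y⁻¹ * a) else 0) =
      ed N Q (x * y * x⁻¹ * y⁻¹ * a) := by
    intro x y
    split_ifs with h
    · rfl
    · rw [FRO.ed_out N Q]
      intro h'
      apply h
      have := N.mul_mem h' (N.inv_mem ha)
      rwa [mul_inv_cancel_right] at this
  have h3 := FRO.sum_comm_eq (fun x => ed N Q (x * a)) hcl
  have h4 : ∑ ψ ∈ irrF G, wt ψ (fun x => ed N Q (x * a)) =
      ∑ η ∈ irrF G with (∃ κ : N → ℂ, IsIrr κ ∧ Q κ ∧ ip (resj N.subtype η) κ ≠ 0),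
        η a⁻¹ / η 1 := by
    rw [Finset.sum_filter]
    refine Finset.sum_congr rfl fun ψ hψ => ?_
    rw [FRZ.wt_translate (mem_irrF.mp hψ) (FRO.ed_conj N Q hQ) a,
      FRO.wt_edG N Q hQ (mem_irrF.mp hψ)]
    split_ifs
    · rw [one_mul]
    · rw [zero_mul]
  rw [← h4, ← h3]
  exact Finset.sum_congr rfl fun x _ => Finset.sum_congr rfl fun y _ => (h1 x y).symm

end Pool.Agent.DPF


end

section

/-!
# Theorem V: only the empty chain contributes to products of defect zero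
-/

namespace Pool.Agent.DPV

open Pool.Agent.DP

open Pool.Agent.Lib_helper13 Representation
open Pool.Agent.Lib_helper13.Dade (pCore DadeHolds dadeSum)

namespace BLKCV

/-- The isomorphism with the stabilizer of the empty chain of the normal subgroup. -/
noncomputable def eYS {A Y : Type*} [Group A] [Group Y] (j : A →* Y) :
    Y ≃* YS j (∅ : Finset (Subgroup A)) :=
  (BLKC.eE Y).trans (MulEquiv.subgroupCongr (by rw [YS, BLKC.mapCh_empty]))

end BLKCV

open BLKC _root_.Pool.Agent.DPV.BLKCV in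
theorem BLKCV_thm : Stmt_BLKCV := by
  intro O G B C Y K X _ _ _ _ _ _ _ _ _ _ _ _ 𝔐 ℓ _ hmax hℓ ι κ ρ hL j p φ h i τ hτ θ hθ ψ hψ hip
    J hdz
  have hprime : 𝔐.IsPrime := hmax.isPrime
  have hτ' := mem_ClCh.mp hτ
  have hdef : ∀ o, HasDefect ℓ (fun s : stb (comp τ o) => θ o s) 0 := by
    intro o
    obtain ⟨b, ⟨f, hf, rfl⟩, χ, hχ, hχ0, hχc⟩ := hdz o
    refine defect_zero_of_cen 𝔐 hℓ hχ hχ0 (stb (comp τ o)).subtype (hθ o).1 fun g => ?_
    rw [cg_eq_cen 𝔐 (stb (comp τ o)) (θ o) (hθ o).2 g]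
    have h2 := (CGT_thm G B C 𝔐 ι κ ρ hL.cl).2.1 f g
    have h3 : (fun h => f (ι h)) = θ o := funext hf.2
    rw [h3, hχc g] at h2
    rw [← h2]
    rfl
  have hempty : ∀ o, comp τ o = ∅ := fun o =>
    DZT_thm G ℓ (comp τ o) (comp_isCh hτ'.1 o) _ (hθ o).1 (hdef o)
  have hfull := fun o => irr_of_empty (hempty o) (hθ o).1 (hdef o)
  refine ⟨fun o => (hfull o).1, fun o => (hfull o).2, ?_⟩
  have hτ0 : τ = ∅ := by
    by_contra hne
    obtain ⟨D, hD'⟩ := Finset.nonempty_iff_ne_empty.mpr hne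
    have h4 : D = ⊥ := by
      rw [← hτ'.2 D hD', cl, ← pK_bot]
      congr 1
      ext1 o
      by_contra h5
      have h6 : prj o D ∈ comp τ o := mem_comp.mpr ⟨h5, D, hD', rfl⟩
      rw [hempty o] at h6
      exact Finset.notMem_empty _ h6
    exact (hτ'.1.1 D hD').2.ne' h4
  subst hτ0
  refine ⟨fun y => ψ (eYS j y), hψ.comp_mulEquiv (eYS j), ?_, fun g => ?_⟩
  · intro h
    apply hip
    rw [← ip_comp_equiv (eE (O → G))]
    exact h
  · rw [← cen_comp_equiv 𝔐 (eYS j) (i.comp (YS j (∅ : Finset (Subgroup (O → G)))).subtype) ψ]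
    rfl

end Pool.Agent.DPV


end
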