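import Mathlib
import Pool.Agent.DAM.C08
import Pool.Agent.DAM.C12
import Pool.Agent.DAM.C14
import Pool.Agent.DAM.C15
import Pool.Agent.DAM.C19
import Pool.Agent.DAM.C20
import Pool.Agent.DAM.C21
import Pool.Agent.DAM.C24
import Pool.Agent.DAM.C43
import Pool.Agent.DAM.C47

/-! Parts: DPN.PUL, DP.LKB, DPC.LKBC, DPC.SDZ, DPW.CYCW -/

section

/-!
# PUL: reduced data are pulled back along surjections of central extensions
-/

set_option autoImplicit false

namespace Pool.Agent.DPN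

open Pool.Agent.DP Pool.Agent.DPC Pool.Agent.DPM Pool.Agent.Lib_helper13 Representation

namespace PUL

section Gen

variable {L W : Type} [Group L] [Group W] (f : W →* L)

/-- The restriction of `f` to a subgroup. -/
def rst (S : Subgroup W) (S' : Subgroup L) (h : S.map f = S') : S →* S' :=
  (f.comp S.subtype).codRestrict S' (fun x => h ▸ Subgroup.mem_map_of_mem f x.2)

theorem rst_val (S : Subgroup W) (S' : Subgroup L) (h : S.map f = S') (x : S) :
    ((rst f S S' h x : S') : L) = f x := rfl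

theorem rst_surj (S : Subgroup W) (S' : Subgroup L) (h : S.map f = S') :
    Function.Surjective (rst f S S' h) := by
  rintro ⟨y, hy⟩
  subst h
  obtain ⟨x, hx, rfl⟩ := hy
  exact ⟨⟨x, hx⟩, rfl⟩

theorem rst_ker (S : Subgroup W) (S' : Subgroup L) (h : S.map f = S') (hS : f.ker ≤ S) :
    Nat.card (rst f S S' h).ker = Nat.card f.ker := by
  refine Nat.card_congr ⟨fun z => ⟨((z : S) : W), ?_⟩, fun z => ⟨⟨(z : W), hS z.2⟩, ?_⟩,
    fun z => rfl, fun z => rfl⟩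
  · have h1 := (MonoidHom.mem_ker).1 z.2
    rw [MonoidHom.mem_ker]
    exact congrArg Subtype.val h1
  · rw [MonoidHom.mem_ker]
    apply Subtype.ext
    exact (MonoidHom.mem_ker).1 z.2

theorem cen_eq [Fintype L] [Fintype W] (𝔐 : Ideal (integralClosure ℤ ℂ))
    (hf : Function.Surjective f) (hc : f.ker ≤ Subgroup.center W)
    (S : Subgroup W) (S' : Subgroup L) (h : S.map f = S') (hS : f.ker ≤ S) {η' : S' → ℂ}
    (hη' : IsIrr η') :
    cen 𝔐 S.subtype (fun x : S => η' (rst f S S' h x)) = fun g =>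
      (QINF.nst f g : (integralClosure ℤ ℂ) ⧸ 𝔐) * cen 𝔐 S'.subtype η' (f g) := by
  subst h
  funext g
  exact QINF.cen_inf f S 𝔐 hf hc hS hη' g

theorem expand [Fintype L] (𝔐 : Ideal (integralClosure ℤ ℂ)) [Fintype (ConjClasses L)]
    (F : L → (integralClosure ℤ ℂ) ⧸ 𝔐) (hF : ∀ g x, F (g * x * g⁻¹) = F x) (l : L) :
    F l = ∑ C : ConjClasses L, F C.out * red 𝔐 (conjInd l C.out) := by
  classical
  have hm : ∀ C : ConjClasses L, ConjClasses.mk C.out = C := fun C => Quotient.out_eq C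
  rw [Finset.sum_eq_single (ConjClasses.mk l)]
  · have h1 : IsConj l (ConjClasses.mk l).out :=
      (ConjClasses.mk_eq_mk_iff_isConj.mp (hm (ConjClasses.mk l))).symm
    have h2 : conjInd l (ConjClasses.mk l).out = 1 := if_pos h1
    obtain ⟨c, hc⟩ := isConj_iff.mp h1
    rw [h2, red_one, mul_one, ← hc, hF]
  · intro C _ hC
    have h2 : conjInd l C.out = 0 := if_neg (fun h1 => hC (by
      rw [← hm C]
      exact (ConjClasses.mk_eq_mk_iff_isConj.mpr h1).symm))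
    rw [h2, red_zero, mul_zero]
  · intro h1
    exact absurd (Finset.mem_univ _) h1

theorem pk_eq [Fintype L] [Fintype W] (𝔐 : Ideal (integralClosure ℤ ℂ))
    (S : Subgroup W) (S' : Subgroup L) (h : S.map f = S') {η' : S' → ℂ}
    (hη' : IsIrr η') (F : L → (integralClosure ℤ ℂ) ⧸ 𝔐) (hF : ∀ g x, F (g * x * g⁻¹) = F x) :
    pk 𝔐 (fun w => F (f w)) (cen 𝔐 S.subtype (fun x : S => η' (rst f S S' h x))) =
      (Nat.card (rst f S S' h).ker : (integralClosure ℤ ℂ) ⧸ 𝔐) *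
        pk 𝔐 F (cen 𝔐 S'.subtype η') := by
  classical
  have : Fintype (ConjClasses L) := Fintype.ofFinite _
  have : Fintype (ConjClasses W) := Fintype.ofFinite _
  have hirr : IsIrr (fun x : S => η' (rst f S S' h x)) :=
    QINF.irr_inf _ (rst_surj f S S' h) hη'
  have hB : ∀ C' : ConjClasses L, ∑ C : ConjClasses W, red 𝔐 (conjInd (f C.out) C'.out) *
      cen 𝔐 S.subtype (fun x : S => η' (rst f S S' h x)) C.out =
      (Nat.card (rst f S S' h).ker : (integralClosure ℤ ℂ) ⧸ 𝔐) *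
        cen 𝔐 S'.subtype η' C'.out := by
    intro C'
    have h1 := red_wt_eq_pair 𝔐 S.subtype hirr (fun w => conjInd (f w) C'.out)
      (by
        intro g x
        show conjInd (f (g * x * g⁻¹)) _ = conjInd (f x) _
        rw [map_mul, map_mul, map_inv, conjInd_conj])
      (fun x => isIntegral_conjInd _ _)
    rw [pair, finsum_eq_sum_of_fintype] at h1
    rw [← h1, cen]
    have h2 : wt (fun x : S => η' (rst f S S' h x))
        (fun y : S => conjInd (f (S.subtype y)) C'.out) =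
        (Nat.card (rst f S S' h).ker : ℂ) *
          wt η' (fun y => conjInd (S'.subtype y) C'.out) := by
      have h3 := QINF.sum_comp (rst f S S' h) (rst_surj f S S' h)
        (fun y : S' => conjInd (S'.subtype y) C'.out * η' y)
      have h4 : (fun x : S => η' (rst f S S' h x)) 1 = η' 1 :=
        congrArg η' (map_one (rst f S S' h))
      unfold wt
      rw [h4, ← mul_div_assoc, ← h3]
      rfl
    rw [h2, red_natCast_mul 𝔐 _ (isIntegral_wt_conj _ hη' _), nsmul_eq_mul]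
  unfold pk
  rw [finsum_eq_sum_of_fintype, finsum_eq_sum_of_fintype]
  calc ∑ C : ConjClasses W, F (f C.out) *
        cen 𝔐 S.subtype (fun x : S => η' (rst f S S' h x)) C.out
      = ∑ C : ConjClasses W, ∑ C' : ConjClasses L, F C'.out *
          (red 𝔐 (conjInd (f C.out) C'.out) *
            cen 𝔐 S.subtype (fun x : S => η' (rst f S S' h x)) C.out) := by
        refine Finset.sum_congr rfl fun C _ => ?_
        rw [expand 𝔐 F hF (f C.out), Finset.sum_mul]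
        refine Finset.sum_congr rfl fun C' _ => ?_
        rw [mul_assoc]
    _ = ∑ C' : ConjClasses L, F C'.out * ((Nat.card (rst f S S' h).ker :
          (integralClosure ℤ ℂ) ⧸ 𝔐) * cen 𝔐 S'.subtype η' C'.out) := by
        rw [Finset.sum_comm]
        refine Finset.sum_congr rfl fun C' _ => ?_
        rw [← Finset.mul_sum, hB]
    _ = _ := by
        rw [Finset.mul_sum]
        refine Finset.sum_congr rfl fun C' _ => ?_
        ring

end Gen

theorem cI_conj {T X : Type} [Group T] [Group X] (i : T →* X) (g : X) (t x : T) :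
    cI i g (t * x * t⁻¹) = cI i g x := by
  have h1 : IsConj (i (t * x * t⁻¹)) g ↔ IsConj (i x) g := by
    have h2 : IsConj (i x) (i (t * x * t⁻¹)) :=
      isConj_iff.mpr ⟨i t, by rw [map_mul, map_mul, map_inv]⟩
    exact ⟨fun h3 => h2.trans h3, fun h3 => h2.symm.trans h3⟩
  unfold cI
  by_cases h : IsConj (i x) g
  · rw [if_pos (h1.mpr h), if_pos h]
  · rw [if_neg (fun h3 => h (h1.mp h3)), if_neg h]

section Count

variable {L W H : Type} [Group L] [Fintype L] [Group W] [Fintype W] [Group H] (f : W →* L)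
  (π' : L →* H) (μ' : π'.ker →* ℂˣ)

/-- The restriction of `f` to the kernels. -/
def km : (π'.comp f).ker →* π'.ker :=
  (f.comp (π'.comp f).ker.subtype).codRestrict π'.ker (fun x => x.2)

/-- The linear character. -/
def pm : (π'.comp f).ker →* ℂˣ := μ'.comp (km f π')

omit [Fintype L] [Fintype W] in
theorem map_eq (hf : Function.Surjective f) (V : Subgroup H) :
    (V.comap (π'.comp f)).map f = V.comap π' := by
  ext l
  constructor
  · rintro ⟨w, hw, rfl⟩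
    exact hw
  · intro hl
    obtain ⟨w, rfl⟩ := hf l
    exact ⟨w, hl, rfl⟩

omit [Fintype L] [Fintype W] in
theorem ker_le (V : Subgroup H) : f.ker ≤ V.comap (π'.comp f) := by
  intro w hw
  show π' (f w) ∈ V
  rw [(MonoidHom.mem_ker).1 hw, map_one]
  exact V.one_mem

theorem card_eq (hf : Function.Surjective f) (V : Subgroup H)
    (P : (↥(V.comap (π'.comp f)) → ℂ) → Prop) (P' : (↥(V.comap π') → ℂ) → Prop)
    (hP : ∀ η' : ↥(V.comap π') → ℂ, IsIrr η' →
      (P (fun x => η' (rst f _ _ (map_eq f π' hf V) x)) ↔ P' η')) :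
    Nat.card {η : ↥(V.comap (π'.comp f)) → ℂ // IsIrr η ∧ OvL (π'.comp f).ker (pm f π' μ') _ η ∧
      P η} =
    Nat.card {η' : ↥(V.comap π') → ℂ // IsIrr η' ∧ OvL π'.ker μ' _ η' ∧ P' η'} := by
  have hsurj := rst_surj f _ _ (map_eq f π' hf V)
  have hov : ∀ η' : ↥(V.comap π') → ℂ, OvL (π'.comp f).ker (pm f π' μ') (V.comap (π'.comp f))
      (fun x => η' (rst f _ _ (map_eq f π' hf V) x)) ↔ OvL π'.ker μ' (V.comap π') η' := by
    intro η'
    constructor
    · intro h1 s' t' hs'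
      obtain ⟨s, rfl⟩ := hsurj s'
      obtain ⟨t, rfl⟩ := hsurj t'
      have h2 := h1 s t hs'
      rw [← map_mul]
      exact h2
    · intro h1 s t hs
      have h2 := h1 (rst f _ _ (map_eq f π' hf V) s) (rst f _ _ (map_eq f π' hf V) t) hs
      rw [← map_mul] at h2
      exact h2
  symm
  refine Nat.card_congr (Equiv.ofBijective (fun η' => ⟨fun x =>
    η'.1 (rst f _ _ (map_eq f π' hf V) x), QINF.irr_inf _ hsurj η'.2.1, (hov _).mpr η'.2.2.1,
    (hP _ η'.2.1).mpr η'.2.2.2⟩) ⟨?_, ?_⟩)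
  · intro η₁ η₂ h1
    apply Subtype.ext
    funext y
    obtain ⟨x, rfl⟩ := hsurj y
    exact congrFun (congrArg Subtype.val h1) x
  · rintro ⟨η, h1, h2, h3⟩
    obtain ⟨η', h4, h5⟩ := QINF.exists_inf (rst f _ _ (map_eq f π' hf V)) hsurj h1 (by
      intro x y hxy
      have h6 : f x = 1 := congrArg Subtype.val hxy
      have h7 : (x : W) ∈ (π'.comp f).ker := by
        rw [MonoidHom.mem_ker, MonoidHom.comp_apply, h6, map_one]
      rw [h2 x y h7]
      have h8 : pm f π' μ' ⟨x, h7⟩ = 1 := by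
        have h9 : km f π' ⟨x, h7⟩ = 1 := Subtype.ext h6
        rw [pm, MonoidHom.comp_apply, h9, map_one]
      rw [h8, Units.val_one, one_mul])
    subst h5
    exact ⟨⟨η', h4, (hov _).mp h2, (hP _ h4).mp h3⟩, rfl⟩

end Count

end PUL

/-- **PUL** -/
theorem PUL_thm : Stmt_PUL := by
  classical
  intro A T H L W _ _ _ _ _ _ _ _ _ _ 𝔐 ℓ _ hmax hℓ a j p θ π' μ' Lm hp hR f hf π hπ hc hn
  obtain rfl : π = π'.comp f := MonoidHom.ext hπ
  have hk : f.ker ≤ (π'.comp f).ker := by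
    intro w hw
    rw [MonoidHom.mem_ker, MonoidHom.comp_apply, (MonoidHom.mem_ker).1 hw, map_one]
  have hfc : f.ker ≤ Subgroup.center W := hk.trans hc
  have hcard : Nat.card (π'.comp f).ker = Nat.card f.ker * Nat.card π'.ker := by
    have hs : Function.Surjective (PUL.km f π') := by
      rintro ⟨y, hy⟩
      obtain ⟨x, rfl⟩ := hf y
      exact ⟨⟨x, hy⟩, rfl⟩
    rw [QINF.card_eq (PUL.km f π') hs]
    congr 1
    refine Nat.card_congr ⟨fun z => ⟨((z : (π'.comp f).ker) : W), ?_⟩,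
      fun z => ⟨⟨(z : W), hk z.2⟩, ?_⟩, fun z => rfl, fun z => rfl⟩
    · have h1 := (MonoidHom.mem_ker).1 z.2
      rw [MonoidHom.mem_ker]
      exact congrArg Subtype.val h1
    · rw [MonoidHom.mem_ker]
      apply Subtype.ext
      exact (MonoidHom.mem_ker).1 z.2
  have hnN : ¬ ℓ ∣ Nat.card f.ker := fun h1 => hn (by
    rw [hcard]
    exact Dvd.dvd.mul_right h1 _)
  have hdef : ∀ (V : Subgroup H) (d : ℕ) (η' : ↥(V.comap π') → ℂ),
      HasDefect ℓ (fun x => η' (PUL.rst f _ _ (PUL.map_eq f π' hf V) x)) d ↔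
        HasDefect ℓ η' d := by
    intro V d η'
    have h1 := QINF.defect_inf (PUL.rst f _ _ (PUL.map_eq f π' hf V)) ℓ
      (PUL.rst_surj f _ _ (PUL.map_eq f π' hf V)) η' d
    rw [PUL.rst_ker f _ _ (PUL.map_eq f π' hf V) (PUL.ker_le f π' V),
      padicValNat.eq_zero_of_not_dvd hnN, add_zero] at h1
    exact h1
  have hunit : ∀ x y : (integralClosure ℤ ℂ) ⧸ 𝔐,
      (Nat.card f.ker : (integralClosure ℤ ℂ) ⧸ 𝔐) * x =
        (Nat.card f.ker : (integralClosure ℤ ℂ) ⧸ 𝔐) * y → x = y := by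
    intro x y hxy
    have hco : Nat.Coprime (Nat.card f.ker) ℓ :=
      ((Nat.Prime.coprime_iff_not_dvd (Fact.out : ℓ.Prime)).mpr hnN).symm
    have h1 := Nat.isCoprime_iff_coprime.mpr hco
    obtain ⟨s, t, hst⟩ := h1
    have hl0 : (ℓ : (integralClosure ℤ ℂ) ⧸ 𝔐) = 0 := by
      have h2 : Ideal.Quotient.mk 𝔐 (ℓ : integralClosure ℤ ℂ) = 0 :=
        Ideal.Quotient.eq_zero_iff_mem.mpr hℓ
      rwa [map_natCast] at h2
    have h3 : (s : (integralClosure ℤ ℂ) ⧸ 𝔐) * (Nat.card f.ker : (integralClosure ℤ ℂ) ⧸ 𝔐) =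
        1 := by
      have h4 := congrArg (fun z : ℤ => (z : (integralClosure ℤ ℂ) ⧸ 𝔐)) hst
      simpa [hl0] using h4
    calc x = (s * (Nat.card f.ker : (integralClosure ℤ ℂ) ⧸ 𝔐)) * x := by rw [h3, one_mul]
      _ = s * ((Nat.card f.ker : (integralClosure ℤ ℂ) ⧸ 𝔐) * x) := by rw [mul_assoc]
      _ = s * ((Nat.card f.ker : (integralClosure ℤ ℂ) ⧸ 𝔐) * y) := by rw [hxy]
      _ = (s * (Nat.card f.ker : (integralClosure ℤ ℂ) ⧸ 𝔐)) * y := by rw [mul_assoc]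
      _ = y := by rw [h3, one_mul]
  refine ⟨PUL.pm f π' μ', ?_⟩
  refine
    { add := fun u v hu hv w => hR.add u v hu hv (f w)
      cgr := fun u v hu hv w h1 => hR.cgr u v hu hv (f w) h1
      mul := ?_
      eqv := ?_
      one := ?_
      ctr := ?_
      num := ?_
      van := ?_
      ext := ?_ }
  · intro u v hu hv w w' h1 h2
    show Lm (conv u v) (f (w * w')) = _
    rw [map_mul]
    exact hR.mul u v hu hv (f w) (f w') h1 h2
  · intro u hu t w' h1 w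
    show Lm _ (f (w' * w * w'⁻¹)) = _
    rw [map_mul, map_mul, map_inv]
    exact hR.eqv u hu t (f w') h1 (f w)
  · intro u hu
    show Lm u (f 1) = _
    rw [map_one]
    exact hR.one u hu
  · intro u hu z w
    show _ * Lm u (f (z * w)) = Lm u (f w)
    rw [map_mul]
    exact hR.ctr u hu (PUL.km f π' z) (f w)
  · intro X _ _ i ω V
    have hAI : ∀ g, AIv j (cI i g) := fun g b x => PUL.cI_conj i g (j b) x
    have hcl : ∀ g l x, Lm (cI i g) (l * x * l⁻¹) = Lm (cI i g) x := by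
      intro g l x
      obtain ⟨t, ht⟩ := hp (π' l)
      have h1 := hR.eqv (cI i g) (hAI g) t l ht x
      have h2 : (fun y => cI i g (t⁻¹ * y * t)) = cI i g := by
        funext y
        have h3 := PUL.cI_conj i g t⁻¹ y
        rwa [inv_inv] at h3
      rwa [h2] at h1
    rw [hR.num X i ω V]
    symm
    refine congrArg (Nat.cast : ℕ → ℚ) ?_
    refine PUL.card_eq f π' μ' hf V _ _ ?_
    intro η' hη'
    rw [hdef V 0 η']
    refine and_congr Iff.rfl (forall_congr' fun g => ?_)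
    rw [PUL.pk_eq f 𝔐 _ _ (PUL.map_eq f π' hf V) hη' (Lm (cI i g)) (hcl g),
      PUL.rst_ker f _ _ (PUL.map_eq f π' hf V) (PUL.ker_le f π' V), hcard, Nat.cast_mul,
      mul_assoc]
    exact ⟨fun h1 => hunit _ _ h1, fun h1 => by rw [h1]⟩
  · intro m hm e he Q
    rw [← hR.van m hm e he {c | (fun g => (QINF.nst f g : (integralClosure ℤ ℂ) ⧸ 𝔐) *
      c (f g)) ∈ Q}]
    refine Finset.sum_congr rfl fun V _ => ?_
    congr 3
    refine PUL.card_eq f π' μ' hf V _ _ ?_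
    intro η' hη'
    rw [hdef V e η', PUL.cen_eq f 𝔐 hf hfc _ _ (PUL.map_eq f π' hf V) (PUL.ker_le f π' V) hη']
    rfl
  · intro B V _ _ _ _ hV g α β h1 h2
    exact hR.ext B V hV (f.comp g) α β h1 h2

end Pool.Agent.DPN


end

section

/-!
# Module LKB: Clifford theory in the inverse image of `L` (theorem R)
-/

namespace Pool.Agent.DP

open Pool.Agent.Lib_helper13 Representation
open Pool.Agent.Lib_helper13.Dade (pCore DadeHolds)

namespace LKB

theorem gall : Stmt_GALL := GALL_thm COSET_thm SUMM_thm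

theorem clg : Stmt_CLG := CLG_thm gall (CCOR_thm IND_thm SUMM_thm) SUMM_thm

section

variable {G B C : Type} [Group G] [Group B] [Group C]
  {ι : G →* B} {κ : B →* MulAut G} {ρ : B →* C}

theorem κι (h : ClG ι κ ρ) (a b : G) : κ (ι a) b = a * b * a⁻¹ := by
  apply h.inj
  rw [h.act, map_mul, map_mul, map_inv]

theorem κι' (h : ClG ι κ ρ) (a : G) : κ (ι a) = MulAut.conj a := by
  ext b
  rw [κι h, MulAut.conj_apply]

theorem ρι (h : ClG ι κ ρ) (a : G) : ρ (ι a) = 1 := (h.ker (ι a)).mpr ⟨a, rfl⟩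

theorem mem_Stx0 {σ : Finset (Subgroup G)} {b : B} :
    b ∈ Stx κ σ (fun _ => 0) ↔ ∀ D ∈ σ, D.map (κ b).toMonoidHom = D :=
  ⟨fun h => h.1, fun h => ⟨h, fun _ => rfl⟩⟩

theorem ι_mem_iff (h : ClG ι κ ρ) {σ : Finset (Subgroup G)} {a : G} :
    ι a ∈ Stx κ σ (fun _ => 0) ↔ a ∈ stb σ := by
  rw [mem_Stx0, mem_stb, κι' h]

theorem act_mem (h : ClG ι κ ρ) {σ : Finset (Subgroup G)} {b : B}
    (hb : b ∈ Stx κ σ (fun _ => 0)) {a : G} (ha : a ∈ stb σ) : κ b a ∈ stb σ := by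
  rw [← ι_mem_iff h, h.act]
  exact mul_mem (mul_mem hb ((ι_mem_iff h).mpr ha)) (inv_mem hb)

theorem act_mem_iff (h : ClG ι κ ρ) {σ : Finset (Subgroup G)} {b : B}
    (hb : b ∈ Stx κ σ (fun _ => 0)) {a : G} : κ b a ∈ stb σ ↔ a ∈ stb σ := by
  constructor
  · intro h1
    have h2 := act_mem h (inv_mem hb) h1
    rwa [← MulAut.mul_apply, ← map_mul, inv_mul_cancel, map_one, MulAut.one_apply] at h2
  · exact act_mem h hb

/-- The stabilizer of the chain in the inverse image of `L`. -/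
abbrev YY (κ : B →* MulAut G) (ρ : B →* C) (σ : Finset (Subgroup G)) (L : Subgroup C) :
    Subgroup (L.comap ρ) :=
  (Stx κ σ (fun _ => 0)).comap (L.comap ρ).subtype

/-- The embedding of the stabilizer. -/
def jY (h : ClG ι κ ρ) (σ : Finset (Subgroup G)) (L : Subgroup C) : stb σ →* YY κ ρ σ L where
  toFun a := ⟨⟨ι a, by
    rw [Subgroup.mem_comap, ρι h]
    exact L.one_mem⟩, (ι_mem_iff h).mpr a.2⟩
  map_one' := by
    apply Subtype.ext
    apply Subtype.ext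
    exact map_one ι
  map_mul' := by
    intro a b
    apply Subtype.ext
    apply Subtype.ext
    exact map_mul ι (a : G) b

/-- The projection. -/
def pY (κ : B →* MulAut G) (ρ : B →* C) (σ : Finset (Subgroup G)) (L : Subgroup C) :
    YY κ ρ σ L →* C :=
  ρ.comp ((L.comap ρ).subtype.comp (YY κ ρ σ L).subtype)

/-- The action. -/
def cY (h : ClG ι κ ρ) (σ : Finset (Subgroup G)) (L : Subgroup C) :
    YY κ ρ σ L →* MulAut (stb σ) where
  toFun y :=
    { toFun := fun a => ⟨κ ((y : L.comap ρ) : B) a, act_mem h y.2 a.2⟩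
      invFun := fun a => ⟨κ (((y : L.comap ρ) : B)⁻¹) a, act_mem h (inv_mem y.2) a.2⟩
      left_inv := by
        intro a
        apply Subtype.ext
        change κ (((y : L.comap ρ) : B)⁻¹) (κ ((y : L.comap ρ) : B) a) = a
        rw [← MulAut.mul_apply, ← map_mul, inv_mul_cancel, map_one, MulAut.one_apply]
      right_inv := by
        intro a
        apply Subtype.ext
        change κ ((y : L.comap ρ) : B) (κ (((y : L.comap ρ) : B)⁻¹) a) = a
        rw [← MulAut.mul_apply, ← map_mul, mul_inv_cancel, map_one, MulAut.one_apply]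
      map_mul' := by
        intro a b
        apply Subtype.ext
        exact map_mul (κ ((y : L.comap ρ) : B)) (a : G) b }
  map_one' := by
    ext a
    change κ 1 (a : G) = a
    rw [map_one, MulAut.one_apply]
  map_mul' := by
    intro x y
    ext a
    change κ (((x : L.comap ρ) : B) * ((y : L.comap ρ) : B)) (a : G) =
      κ ((x : L.comap ρ) : B) (κ ((y : L.comap ρ) : B) a)
    rw [map_mul, MulAut.mul_apply]

theorem clG_Y (h : ClG ι κ ρ) (σ : Finset (Subgroup G)) (L : Subgroup C) :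
    ClG (jY h σ L) (cY h σ L) (pY κ ρ σ L) where
  inj := by
    intro a b hab
    apply Subtype.ext
    apply h.inj
    exact congrArg (fun y : YY κ ρ σ L => ((y : L.comap ρ) : B)) hab
  act := by
    intro y a
    apply Subtype.ext
    apply Subtype.ext
    exact h.act ((y : L.comap ρ) : B) (a : G)
  ker := by
    intro y
    constructor
    · intro h1
      obtain ⟨a, ha⟩ := (h.ker ((y : L.comap ρ) : B)).mp h1
      have h2 : a ∈ stb σ := by
        rw [← ι_mem_iff h, ha]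
        exact y.2
      exact ⟨⟨a, h2⟩, Subtype.ext (Subtype.ext ha)⟩
    · rintro ⟨a, rfl⟩
      exact ρι h (a : G)

theorem mem_inert_iff (h : ClG ι κ ρ) {σ : Finset (Subgroup G)} {L : Subgroup C}
    {θ : stb σ → ℂ} {y : YY κ ρ σ L} :
    y ∈ inert (cY h σ L) θ ↔ ((y : L.comap ρ) : B) ∈ Stx κ σ (ext0 θ) := by
  have hy : ((y : L.comap ρ) : B) ∈ Stx κ σ (fun _ => 0) := y.2
  constructor
  · intro h1
    refine ⟨hy.1, fun g => ?_⟩
    by_cases hg : g ∈ stb σ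
    · rw [ext0_of_mem θ hg, ext0_of_mem θ ((act_mem_iff h hy).mpr hg)]
      exact h1 ⟨g, hg⟩
    · rw [ext0_of_not_mem θ hg, ext0_of_not_mem θ (fun h2 => hg ((act_mem_iff h hy).mp h2))]
  · intro h1 a
    have h2 := h1.2 (a : G)
    rw [ext0_of_mem θ a.2, ext0_of_mem θ ((act_mem_iff h hy).mpr a.2)] at h2
    exact h2

/-- The inertia group as a subgroup of `B`. -/
def eY (h : ClG ι κ ρ) (σ : Finset (Subgroup G)) (L : Subgroup C) (θ : stb σ → ℂ) :
    inert (cY h σ L) θ ≃* ↥(Stx κ σ (ext0 θ) ⊓ L.comap ρ) where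
  toFun s := ⟨((s : YY κ ρ σ L) : L.comap ρ), (mem_inert_iff h).mp s.2,
    ((s : YY κ ρ σ L) : L.comap ρ).2⟩
  invFun x := ⟨⟨⟨x, x.2.2⟩, ⟨x.2.1.1, fun _ => rfl⟩⟩, (mem_inert_iff h).mpr x.2.1⟩
  left_inv := fun _ => rfl
  right_inv := fun _ => rfl
  map_mul' := fun _ _ => rfl

theorem irrOn_iff (h : ClG ι κ ρ) {σ : Finset (Subgroup G)} {L : Subgroup C} [Fintype B]
    {θ : stb σ → ℂ} {f : B → ℂ} (h0 : ∀ x, x ∉ Stx κ σ (ext0 θ) ⊓ L.comap ρ → f x = 0) :
    IrrOn (Stx κ σ (ext0 θ) ⊓ L.comap ρ) f ↔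
      IsIrr (fun s : inert (cY h σ L) θ => f (((s : YY κ ρ σ L) : L.comap ρ) : B)) := by
  classical
  constructor
  · intro h1
    have : Fintype (inert (cY h σ L) θ) := Fintype.ofFinite _
    have : Fintype ↥(Stx κ σ (ext0 θ) ⊓ L.comap ρ) := Fintype.ofFinite _
    exact h1.1.comp_mulEquiv (eY h σ L θ)
  · intro h1
    have : Fintype (inert (cY h σ L) θ) := Fintype.ofFinite _
    have : Fintype ↥(Stx κ σ (ext0 θ) ⊓ L.comap ρ) := Fintype.ofFinite _
    exact ⟨h1.comp_mulEquiv (eY h σ L θ).symm, h0⟩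

/-- The irreducible characters of a commutative group have degree one. -/
theorem one_of_comm {K : Type} [Group K] [IsMulCommutative K] {η : K → ℂ} (h : IsIrr η) :
    η 1 = 1 := by
  obtain ⟨n, τ, hτ, rfl⟩ := h
  have h1 := Representation.IsIrreducible.finrank_eq_one_of_isMulCommutative τ
  rw [Representation.char_one, h1, Nat.cast_one]

end

/-! ### The count -/

section Count

variable {G B C : Type} [Group G] [Fintype G] [Group B] [Fintype B] [Group C]
  {ι : G →* B} {κ : B →* MulAut G} {ρ : B →* C}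

/-- The image of the inertia group. -/
abbrev MM (h : ClG ι κ ρ) (σ : Finset (Subgroup G)) (L : Subgroup C) (θ : stb σ → ℂ) :
    Subgroup C :=
  (inert (cY h σ L) θ).map (pY κ ρ σ L)

theorem MM_eq (h : ClG ι κ ρ) (σ : Finset (Subgroup G)) (L : Subgroup C) (θ : stb σ → ℂ) :
    MM h σ L θ = (Stx κ σ (ext0 θ) ⊓ L.comap ρ).map ρ := by
  ext c
  constructor
  · rintro ⟨y, hy, rfl⟩
    exact ⟨_, (eY h σ L θ ⟨y, hy⟩).2, rfl⟩
  · rintro ⟨b, hb, rfl⟩
    exact ⟨_, ((eY h σ L θ).symm ⟨b, hb⟩).2, rfl⟩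

theorem comm_MM {ℓ : ℕ} (hL : LocS ℓ ι κ ρ) (M : Subgroup C) : IsMulCommutative M := by
  have := hL.cyc
  letI : CommGroup C := IsCyclic.commGroup
  exact ⟨⟨fun a b => Subtype.ext (mul_comm (a : C) b)⟩⟩

/-- The function on `B` belonging to a character of the quotient. -/
noncomputable def Ph (ρ : B →* C) (f0 : B → ℂ) {M : Subgroup C} (η : M → ℂ) (x : B) : ℂ :=
  f0 x * ext0 η (ρ x)

theorem Ph_iota {ℓ : ℕ} (hL : LocS ℓ ι κ ρ) {σ : Finset (Subgroup G)} {L : Subgroup C}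
    {ψ : G → ℂ} {f0 : B → ℂ} (hf0 : ExtL ι κ ρ σ ψ L f0) {M : Subgroup C} {η : M → ℂ}
    (hη : IsIrr η) (a : G) : Ph ρ f0 η (ι a) = ψ a := by
  have := comm_MM hL M
  rw [Ph, hf0.2, ρι hL.cl, ext0_of_mem η M.one_mem]
  have h1 : η ⟨1, M.one_mem⟩ = 1 := one_of_comm hη
  rw [h1, mul_one]

/-- The bijection between the characters of the quotient and the extensions. -/
theorem count {ℓ : ℕ} (hL : LocS ℓ ι κ ρ) (σ : Finset (Subgroup G)) (L : Subgroup C)
    (θ : stb σ → ℂ) (hθ : IsIrr θ) (f0 : B → ℂ) (hf0 : ExtL ι κ ρ σ (ext0 θ) L f0)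
    (P : (LKB.MM hL.cl σ L θ → ℂ) → Prop) (Q : (B → ℂ) → Prop)
    (hPQ : ∀ η : LKB.MM hL.cl σ L θ → ℂ, IsIrr η → ExtL ι κ ρ σ (ext0 θ) L (Ph ρ f0 η) →
      (P η ↔ Q (Ph ρ f0 η))) :
    Nat.card {η : LKB.MM hL.cl σ L θ → ℂ // IsIrr η ∧ P η} =
      Nat.card {f : B → ℂ // ExtL ι κ ρ σ (ext0 θ) L f ∧ Q f} := by
  classical
  have : Finite C := Finite.of_surjective ρ hL.surj
  have iA : Fintype (stb σ) := Fintype.ofFinite _
  have iS : Fintype (inert (cY hL.cl σ L) θ) := Fintype.ofFinite _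
  have iM : Fintype (LKB.MM hL.cl σ L θ) := Fintype.ofFinite _
  have hmap : (inert (cY hL.cl σ L) θ).map (pY κ ρ σ L) = LKB.MM hL.cl σ L θ := rfl
  set E : inert (cY hL.cl σ L) θ → ℂ :=
    fun s => f0 (((s : YY κ ρ σ L) : L.comap ρ) : B) with hE
  have h0 : ∀ x, x ∉ Stx κ σ (ext0 θ) ⊓ L.comap ρ → f0 x = 0 := hf0.1.2
  have hEirr : IsIrr E := (irrOn_iff hL.cl h0).mp hf0.1
  have hEθ : ∀ a, E (CLG.jS (clG_Y hL.cl σ L) hθ a) = θ a := by
    intro a
    have h1 : E (CLG.jS (clG_Y hL.cl σ L) hθ a) = f0 (ι (a : G)) := rfl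
    rw [h1, hf0.2, ext0_of_mem θ a.2]
  obtain ⟨g1, g2, g3⟩ := gall _ _ _ (CLG.jS (clG_Y hL.cl σ L) hθ)
    ((cY hL.cl σ L).comp (inert (cY hL.cl σ L) θ).subtype) (CLG.qS hmap)
    (CLG.clG_S (clG_Y hL.cl σ L) hθ hmap) (CLG.qS_surj hmap) θ E hθ hEirr.isChr hEθ
  have hPh : ∀ η : LKB.MM hL.cl σ L θ → ℂ,
      (fun s : inert (cY hL.cl σ L) θ => Ph ρ f0 η (((s : YY κ ρ σ L) : L.comap ρ) : B)) =
        fun s => E s * η (CLG.qS hmap s) := by
    intro η
    exact CLG.ext0_q hmap η E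
  have hzero : ∀ η : LKB.MM hL.cl σ L θ → ℂ, ∀ x, x ∉ Stx κ σ (ext0 θ) ⊓ L.comap ρ →
      Ph ρ f0 η x = 0 := by
    intro η x hx
    rw [Ph, h0 x hx, zero_mul]
  have hext : ∀ η : LKB.MM hL.cl σ L θ → ℂ, IsIrr η → ExtL ι κ ρ σ (ext0 θ) L (Ph ρ f0 η) := by
    intro η hη
    refine ⟨(irrOn_iff hL.cl (hzero η)).mpr ?_, fun a => Ph_iota hL hf0 hη a⟩
    rw [hPh η]
    exact (g1 η hη).1
  refine Nat.card_congr (Equiv.ofBijective
    (fun η => ⟨Ph ρ f0 η.1, hext η.1 η.2.1, (hPQ η.1 η.2.1 (hext η.1 η.2.1)).mp η.2.2⟩) ⟨?_, ?_⟩)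
  · intro η η' hh
    apply Subtype.ext
    apply g2 η.1 η'.1 η.2.1 η'.2.1
    have h1 : Ph ρ f0 η.1 = Ph ρ f0 η'.1 := congrArg Subtype.val hh
    rw [← hPh, ← hPh, h1]
  · rintro ⟨f, hf, hQ⟩
    have hfirr : IsIrr (fun s : inert (cY hL.cl σ L) θ =>
        f (((s : YY κ ρ σ L) : L.comap ρ) : B)) := (irrOn_iff hL.cl hf.1.2).mp hf.1
    have hres : resj (CLG.jS (clG_Y hL.cl σ L) hθ) (fun s : inert (cY hL.cl σ L) θ =>
        f (((s : YY κ ρ σ L) : L.comap ρ) : B)) = θ := by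
      funext a
      have h1 : resj (CLG.jS (clG_Y hL.cl σ L) hθ) (fun s : inert (cY hL.cl σ L) θ =>
        f (((s : YY κ ρ σ L) : L.comap ρ) : B)) a = f (ι (a : G)) := rfl
      rw [h1, hf.2, ext0_of_mem θ a.2]
    obtain ⟨η, hη, hη'⟩ := g3 _ hfirr (by
      rw [hres, ip_self hθ]
      exact one_ne_zero)
    have hfη : f = Ph ρ f0 η := by
      funext x
      by_cases hx : x ∈ Stx κ σ (ext0 θ) ⊓ L.comap ρ
      · have h1 := congrFun (hη'.trans (hPh η).symm) ((eY hL.cl σ L θ).symm ⟨x, hx⟩)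
        exact h1
      · rw [hf.1.2 x hx, hzero η x hx]
    subst hfη
    exact ⟨⟨η, hη, (hPQ η hη hf).mpr hQ⟩, rfl⟩

theorem card_inert {ℓ : ℕ} (hL : LocS ℓ ι κ ρ) (σ : Finset (Subgroup G)) (L : Subgroup C)
    (θ : stb σ → ℂ) (hθ : IsIrr θ) :
    Nat.card (inert (cY hL.cl σ L) θ) = Nat.card (stb σ) * Nat.card (LKB.MM hL.cl σ L θ) := by
  classical
  have : Finite C := Finite.of_surjective ρ hL.surj
  have iA : Fintype (stb σ) := Fintype.ofFinite _
  have iS : Fintype (inert (cY hL.cl σ L) θ) := Fintype.ofFinite _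
  have iM : Fintype (LKB.MM hL.cl σ L θ) := Fintype.ofFinite _
  have hmap : (inert (cY hL.cl σ L) θ).map (pY κ ρ σ L) = LKB.MM hL.cl σ L θ := rfl
  have h := GALL.card_eq (CLG.clG_S (clG_Y hL.cl σ L) hθ hmap) (CLG.qS_surj hmap)
  exact_mod_cast h

theorem card_YY (h : ClG ι κ ρ) (σ : Finset (Subgroup G)) (L : Subgroup C) :
    Nat.card (YY κ ρ σ L) = Nat.card (stb σ) * Nat.card (pY κ ρ σ L).range := by
  have h1 := Subgroup.card_eq_card_quotient_mul_card_subgroup (pY κ ρ σ L).ker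
  have h2 : Nat.card (YY κ ρ σ L ⧸ (pY κ ρ σ L).ker) = Nat.card (pY κ ρ σ L).range :=
    Nat.card_congr (QuotientGroup.quotientKerEquivRange (pY κ ρ σ L)).toEquiv
  have h3 : (pY κ ρ σ L).ker = (jY h σ L).range := by
    ext y
    exact (clG_Y h σ L).ker y
  have h4 : Nat.card (jY h σ L).range = Nat.card (stb σ) :=
    (Nat.card_congr (MonoidHom.ofInjective (clG_Y h σ L).inj).toEquiv).symm
  rw [h1, h2, h3, h4, mul_comm]

/-- The defect of the induced character. -/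
theorem defect_iff {ℓ : ℕ} [Fact ℓ.Prime] (hL : LocS ℓ ι κ ρ) (σ : Finset (Subgroup G))
    (L : Subgroup C) [Fintype (YY κ ρ σ L)] (θ : stb σ → ℂ) (hθ : IsIrr θ)
    (F : inert (cY hL.cl σ L) θ → ℂ) (hF : F 1 = θ 1) (e : ℕ) :
    HasDefect ℓ (indc (inert (cY hL.cl σ L) θ) F) e ↔ df ℓ (stb σ) (ext0 θ) = e := by
  classical
  have : Finite C := Finite.of_surjective ρ hL.surj
  have hcop : ∀ M : Subgroup C, ¬ ℓ ∣ Nat.card M :=
    fun M hM => hL.cop (hM.trans (Subgroup.card_subgroup_dvd_card M))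
  obtain ⟨n, hn0, hn⟩ := hθ.exists_degree
  have iA : Fintype (stb σ) := Fintype.ofFinite _
  have hdvd : n ∣ Nat.card (stb σ) := hθ.degree_dvd hn
  have hA0 : Nat.card (stb σ) ≠ 0 := Nat.card_pos.ne'
  have hle : LKB.MM hL.cl σ L θ ≤ (pY κ ρ σ L).range := by
    rintro c ⟨y, hy, rfl⟩
    exact ⟨y, rfl⟩
  obtain ⟨r, hr⟩ := Subgroup.card_dvd_of_le hle
  have hM0 : Nat.card (LKB.MM hL.cl σ L θ) ≠ 0 := Nat.card_pos.ne'
  have hR0 : Nat.card (pY κ ρ σ L).range ≠ 0 := Nat.card_pos.ne'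
  have hr0 : r ≠ 0 := by
    rintro rfl
    rw [mul_zero] at hr
    exact hR0 hr
  have hrl : ¬ ℓ ∣ r := fun h => hcop (pY κ ρ σ L).range (by rw [hr]; exact Dvd.dvd.mul_left h _)
  have hval : indc (inert (cY hL.cl σ L) θ) F 1 = ((r * n : ℕ) : ℂ) := by
    rw [IND.indc_one, hF, hn, card_YY hL.cl, hr, card_inert hL σ L θ hθ]
    have h1 : (Nat.card (stb σ) : ℂ) ≠ 0 := by exact_mod_cast hA0
    have h2 : (Nat.card (LKB.MM hL.cl σ L θ) : ℂ) ≠ 0 := by exact_mod_cast hM0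
    push_cast
    field_simp
  have hvY : padicValNat ℓ (Nat.card (YY κ ρ σ L)) = padicValNat ℓ (Nat.card (stb σ)) := by
    rw [card_YY hL.cl, padicValNat.mul hA0 hR0,
      padicValNat.eq_zero_of_not_dvd (hcop (pY κ ρ σ L).range), add_zero]
  have hvr : padicValNat ℓ (r * n) = padicValNat ℓ n := by
    rw [padicValNat.mul hr0 hn0.ne', padicValNat.eq_zero_of_not_dvd hrl, zero_add]
  have hle2 : padicValNat ℓ n ≤ padicValNat ℓ (Nat.card (stb σ)) := by
    obtain ⟨m, hm⟩ := hdvd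
    have hm0 : m ≠ 0 := by
      rintro rfl
      rw [mul_zero] at hm
      exact hA0 hm
    rw [hm, padicValNat.mul hn0.ne' hm0]
    exact Nat.le_add_right _ _
  have hdf : df ℓ (stb σ) (ext0 θ) = padicValNat ℓ (Nat.card (stb σ)) - padicValNat ℓ n := by
    have h1 : ext0 θ (1 : G) = (n : ℂ) := by
      rw [ext0_of_mem θ (stb σ).one_mem]
      exact hn
    rw [df, h1, Complex.natCast_re, Nat.floor_natCast]
  rw [hdf]
  constructor
  · rintro ⟨m, hm, hm'⟩
    rw [hval] at hm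
    have h1 : r * n = m := by exact_mod_cast hm
    rw [← h1, hvr, hvY] at hm'
    omega
  · intro h1
    refine ⟨r * n, hval, ?_⟩
    rw [hvr, hvY]
    omega

/-- The central function of the induced character. -/
theorem cen_ind (h : ClG ι κ ρ) (𝔐 : Ideal (integralClosure ℤ ℂ)) (σ : Finset (Subgroup G))
    (L : Subgroup C) [Fintype (YY κ ρ σ L)] (θ : stb σ → ℂ)
    (f : B → ℂ) (h0 : ∀ x, x ∉ Stx κ σ (ext0 θ) ⊓ L.comap ρ → f x = 0) (h1 : f 1 ≠ 0)
    (g : L.comap ρ) :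
    cen 𝔐 (YY κ ρ σ L).subtype (indc (inert (cY h σ L) θ)
      (fun s => f (((s : YY κ ρ σ L) : L.comap ρ) : B))) g = cgT 𝔐 (L.comap ρ) f g := by
  classical
  have hI := (IND_thm _ (inert (cY h σ L) θ)
    (fun s => f (((s : YY κ ρ σ L) : L.comap ρ) : B))).2.2.2 h1
    (fun y => conjInd ((YY κ ρ σ L).subtype y) g) (by
      intro a x
      rw [map_mul, map_mul, map_inv, conjInd_conj])
  rw [cen, cgT]
  refine congrArg (red 𝔐) (hI.trans ?_)
  rw [wt]
  have h2 : f ((((1 : inert (cY h σ L) θ) : YY κ ρ σ L) : L.comap ρ) : B) = f 1 := rfl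
  rw [h2]
  congr 1
  have h3 : ∀ x : B, cjT (L.comap ρ) x g * f x =
      cjT (L.comap ρ) x g * ext0 (fun s : ↥(Stx κ σ (ext0 θ) ⊓ L.comap ρ) => f s) x := by
    intro x
    by_cases hx : x ∈ Stx κ σ (ext0 θ) ⊓ L.comap ρ
    · rw [ext0_of_mem _ hx]
    · rw [ext0_of_not_mem _ hx, h0 x hx]
  rw [Finset.sum_congr rfl (fun x _ => h3 x), ← IND.sum_sub]
  refine Fintype.sum_equiv (eY h σ L θ).toEquiv _ _ ?_
  intro s
  have h4 : conjInd ((YY κ ρ σ L).subtype (s : YY κ ρ σ L)) g =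
      cjT (L.comap ρ) (((s : YY κ ρ σ L) : L.comap ρ) : B) g := by
    rw [conjInd, cjT]
    congr 1
    apply propext
    rw [isConj_iff]
    constructor
    · rintro ⟨c, hc⟩
      refine ⟨(c⁻¹ : L.comap ρ), (c⁻¹).2, ?_⟩
      have h5 : ((c : B) * (((s : YY κ ρ σ L) : L.comap ρ) : B) * (c : B)⁻¹) = (g : B) :=
        congrArg Subtype.val hc
      rw [← h5]
      simp [mul_assoc]
    · rintro ⟨t, ht, hc⟩
      refine ⟨⟨t, ht⟩⁻¹, ?_⟩
      apply Subtype.ext
      change t⁻¹ * (((s : YY κ ρ σ L) : L.comap ρ) : B) * t⁻¹⁻¹ = g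
      rw [hc]
      simp [mul_assoc]
  rw [h4]
  rfl

end Count

end LKB

open _root_.Pool.Agent.DP.LKB in
theorem LKB_thm (h1 : Stmt_EXTAR) : Stmt_LKB := by
  classical
  intro G B C _ _ _ _ _ 𝔐 ℓ _ ι κ ρ hL _ _ L _ σ Y _ hY e ω
  subst hY
  have : Finite C := Finite.of_surjective ρ hL.surj
  have hEX : ∀ θ : stb σ → ℂ, ∃ f : B → ℂ, IsIrr θ → ExtL ι κ ρ σ (ext0 θ) L f := by
    intro θ
    by_cases hθ : IsIrr θ
    · have hψ : IrrOn (stb σ) (ext0 θ) := by
        refine ⟨?_, fun x hx => ext0_of_not_mem θ hx⟩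
        have h2 : (fun s : stb σ => ext0 θ (s : G)) = θ := by
          funext s
          rw [ext0_of_mem θ s.2]
        rw [h2]
        exact hθ
      obtain ⟨f, hf⟩ := (h1 G B C ℓ ι κ ρ hL σ (ext0 θ) hψ L).2.2.1
      exact ⟨f, fun _ => hf⟩
    · exact ⟨fun _ => 0, fun h => absurd h hθ⟩
  choose f0 hf0 using hEX
  have hC := (clg (stb σ) (YY κ ρ σ L) C (jY hL.cl σ L) (cY hL.cl σ L) (pY κ ρ σ L)
    (clG_Y hL.cl σ L) (fun θ => LKB.MM hL.cl σ L θ)
    (fun θ s => f0 θ (((s : YY κ ρ σ L) : L.comap ρ) : B)) (by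
      intro θ hθ
      refine ⟨rfl, ((irrOn_iff hL.cl (hf0 θ hθ).1.2).mp (hf0 θ hθ).1).isChr, ?_⟩
      intro a _
      have h2 : f0 θ (ι (a : G)) = θ a := by
        rw [(hf0 θ hθ).2, ext0_of_mem θ a.2]
      exact h2)).2 (fun χ => HasDefect ℓ χ e ∧ ∀ g, cen 𝔐 (YY κ ρ σ L).subtype χ g = ω g)
  have h6 : (Nat.card (YY κ ρ σ L) : ℚ) * cnt 𝔐 ℓ e (YY κ ρ σ L).subtype ω =
      (Nat.card (YY κ ρ σ L) : ℚ) * Nat.card {χ : YY κ ρ σ L → ℂ // IsIrr χ ∧
        (HasDefect ℓ χ e ∧ ∀ g, cen 𝔐 (YY κ ρ σ L).subtype χ g = ω g)} := rfl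
  refine h6.trans (hC.trans ?_)
  have hirr : irrOn (stb σ) = (irrF (stb σ)).image (fun ψ => ext0 ψ) := rfl
  rw [hirr, Finset.sum_image (by
    intro θ _ θ' _ hh
    funext s
    have h2 := congrFun hh (s : G)
    simp only at h2
    rw [ext0_of_mem θ s.2, ext0_of_mem θ' s.2] at h2
    exact h2)]
  refine Finset.sum_congr rfl fun θ hθ => ?_
  have hθ' : IsIrr θ := mem_irrF.mp hθ
  have hψ : IrrOn (stb σ) (ext0 θ) := by
    refine ⟨?_, fun x hx => ext0_of_not_mem θ hx⟩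
    have h2 : (fun s : stb σ => ext0 θ (s : G)) = θ := by
      funext s
      rw [ext0_of_mem θ s.2]
    rw [h2]
    exact hθ'
  have hKL : LKB.MM hL.cl σ L θ = KL κ ρ σ (ext0 θ) L :=
    (MM_eq hL.cl σ L θ).trans (h1 G B C ℓ ι κ ρ hL σ (ext0 θ) hψ L).2.1
  have hcard : (Nat.card (inert (cY hL.cl σ L) θ) : ℚ) =
      Nat.card (stb σ) * Nat.card (KL κ ρ σ (ext0 θ) L) := by
    rw [← hKL, card_inert hL σ L θ hθ']
    push_cast
    ring
  have hcnt := count hL σ L θ hθ' (f0 θ) (hf0 θ hθ')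
    (fun η => (HasDefect ℓ (indc (inert (cY hL.cl σ L) θ)
      (fun s => f0 θ (((s : YY κ ρ σ L) : L.comap ρ) : B) * ext0 η (pY κ ρ σ L s))) e ∧
      ∀ g, cen 𝔐 (YY κ ρ σ L).subtype (indc (inert (cY hL.cl σ L) θ)
        (fun s => f0 θ (((s : YY κ ρ σ L) : L.comap ρ) : B) * ext0 η (pY κ ρ σ L s))) g = ω g))
    (fun f => df ℓ (stb σ) (ext0 θ) = e ∧ ∀ g : L.comap ρ, cgT 𝔐 (L.comap ρ) f g = ω g) (by
      intro η hη hext
      have h3 : Ph ρ (f0 θ) η 1 = θ 1 := by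
        have h4 := hext.2 1
        rw [map_one, ext0_of_mem θ (stb σ).one_mem] at h4
        exact h4
      refine and_congr ?_ (forall_congr' fun g => ?_)
      · exact defect_iff hL σ L θ hθ' _ h3 e
      · have h5 := cen_ind hL.cl 𝔐 σ L θ (Ph ρ (f0 θ) η) hext.1.2
          (by rw [h3]; exact hθ'.one_ne_zero) g
        exact (Iff.of_eq (congrArg (fun z => z = ω g) h5)))
  have hcnt' : (Nat.card {η : LKB.MM hL.cl σ L θ → ℂ // IsIrr η ∧
      (HasDefect ℓ (indc (inert (cY hL.cl σ L) θ)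
      (fun s => f0 θ (((s : YY κ ρ σ L) : L.comap ρ) : B) * ext0 η (pY κ ρ σ L s))) e ∧
      ∀ g, cen 𝔐 (YY κ ρ σ L).subtype (indc (inert (cY hL.cl σ L) θ)
        (fun s => f0 θ (((s : YY κ ρ σ L) : L.comap ρ) : B) * ext0 η (pY κ ρ σ L s))) g = ω g)} :
        ℚ) = Nat.card {f : B → ℂ // ExtL ι κ ρ σ (ext0 θ) L f ∧ df ℓ (stb σ) (ext0 θ) = e ∧
          ∀ g : L.comap ρ, cgT 𝔐 (L.comap ρ) f g = ω g} := by
    exact_mod_cast hcnt
  rw [hcard]
  exact congrArg (fun z : ℚ => (Nat.card (stb σ) : ℚ) * Nat.card (KL κ ρ σ (ext0 θ) L) * z) hcnt'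

end Pool.Agent.DP


end

section

/-!
# Module LKBC: Clifford theory in the inverse image of `L` (theorem C)
-/

namespace Pool.Agent.DPC

open Pool.Agent.DP Pool.Agent.Lib_helper13 Representation
open Pool.Agent.Lib_helper13.Dade (pCore DadeHolds)

namespace LKBC

open Pool.Agent.DP.LKB (gall clg κι κι' ρι YY jY pY cY clG_Y mem_inert_iff eY irrOn_iff one_of_comm
  MM MM_eq Ph card_YY cen_ind)

/-! ### The count -/

section Count

variable {G B C : Type} [Group G] [Fintype G] [Group B] [Fintype B] [Group C]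
  {ι : G →* B} {κ : B →* MulAut G} {ρ : B →* C}

theorem comm_MM {ℓ : ℕ} (hL : LocW ℓ ι κ ρ) (M : Subgroup C) : IsMulCommutative M := by
  have := hL.cyc
  letI : CommGroup C := IsCyclic.commGroup
  exact ⟨⟨fun a b => Subtype.ext (mul_comm (a : C) b)⟩⟩

theorem Ph_iota {ℓ : ℕ} (hL : LocW ℓ ι κ ρ) {σ : Finset (Subgroup G)} {L : Subgroup C}
    {ψ : G → ℂ} {f0 : B → ℂ} (hf0 : ExtL ι κ ρ σ ψ L f0) {M : Subgroup C} {η : M → ℂ}
    (hη : IsIrr η) (a : G) : Ph ρ f0 η (ι a) = ψ a := by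
  have := comm_MM hL M
  rw [Ph, hf0.2, ρι hL.cl, ext0_of_mem η M.one_mem]
  have h1 : η ⟨1, M.one_mem⟩ = 1 := one_of_comm hη
  rw [h1, mul_one]

/-- The bijection between the characters of the quotient and the extensions. -/
theorem count {ℓ : ℕ} (hL : LocW ℓ ι κ ρ) (σ : Finset (Subgroup G)) (L : Subgroup C)
    (θ : stb σ → ℂ) (hθ : IsIrr θ) (f0 : B → ℂ) (hf0 : ExtL ι κ ρ σ (ext0 θ) L f0)
    (P : (MM hL.cl σ L θ → ℂ) → Prop) (Q : (B → ℂ) → Prop)
    (hPQ : ∀ η : MM hL.cl σ L θ → ℂ, IsIrr η → ExtL ι κ ρ σ (ext0 θ) L (Ph ρ f0 η) →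
      (P η ↔ Q (Ph ρ f0 η))) :
    Nat.card {η : MM hL.cl σ L θ → ℂ // IsIrr η ∧ P η} =
      Nat.card {f : B → ℂ // ExtL ι κ ρ σ (ext0 θ) L f ∧ Q f} := by
  classical
  have : Finite C := Finite.of_surjective ρ hL.surj
  have iA : Fintype (stb σ) := Fintype.ofFinite _
  have iS : Fintype (inert (cY hL.cl σ L) θ) := Fintype.ofFinite _
  have iM : Fintype (MM hL.cl σ L θ) := Fintype.ofFinite _
  have hmap : (inert (cY hL.cl σ L) θ).map (pY κ ρ σ L) = MM hL.cl σ L θ := rfl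
  set E : inert (cY hL.cl σ L) θ → ℂ :=
    fun s => f0 (((s : YY κ ρ σ L) : L.comap ρ) : B) with hE
  have h0 : ∀ x, x ∉ Stx κ σ (ext0 θ) ⊓ L.comap ρ → f0 x = 0 := hf0.1.2
  have hEirr : IsIrr E := (irrOn_iff hL.cl h0).mp hf0.1
  have hEθ : ∀ a, E (CLG.jS (clG_Y hL.cl σ L) hθ a) = θ a := by
    intro a
    have h1 : E (CLG.jS (clG_Y hL.cl σ L) hθ a) = f0 (ι (a : G)) := rfl
    rw [h1, hf0.2, ext0_of_mem θ a.2]
  obtain ⟨g1, g2, g3⟩ := gall _ _ _ (CLG.jS (clG_Y hL.cl σ L) hθ)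
    ((cY hL.cl σ L).comp (inert (cY hL.cl σ L) θ).subtype) (CLG.qS hmap)
    (CLG.clG_S (clG_Y hL.cl σ L) hθ hmap) (CLG.qS_surj hmap) θ E hθ hEirr.isChr hEθ
  have hPh : ∀ η : MM hL.cl σ L θ → ℂ,
      (fun s : inert (cY hL.cl σ L) θ => Ph ρ f0 η (((s : YY κ ρ σ L) : L.comap ρ) : B)) =
        fun s => E s * η (CLG.qS hmap s) := by
    intro η
    exact CLG.ext0_q hmap η E
  have hzero : ∀ η : MM hL.cl σ L θ → ℂ, ∀ x, x ∉ Stx κ σ (ext0 θ) ⊓ L.comap ρ →
      Ph ρ f0 η x = 0 := by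
    intro η x hx
    rw [Ph, h0 x hx, zero_mul]
  have hext : ∀ η : MM hL.cl σ L θ → ℂ, IsIrr η → ExtL ι κ ρ σ (ext0 θ) L (Ph ρ f0 η) := by
    intro η hη
    refine ⟨(irrOn_iff hL.cl (hzero η)).mpr ?_, fun a => Ph_iota hL hf0 hη a⟩
    rw [hPh η]
    exact (g1 η hη).1
  refine Nat.card_congr (Equiv.ofBijective
    (fun η => ⟨Ph ρ f0 η.1, hext η.1 η.2.1, (hPQ η.1 η.2.1 (hext η.1 η.2.1)).mp η.2.2⟩) ⟨?_, ?_⟩)
  · intro η η' hh
    apply Subtype.ext
    apply g2 η.1 η'.1 η.2.1 η'.2.1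
    have h1 : Ph ρ f0 η.1 = Ph ρ f0 η'.1 := congrArg Subtype.val hh
    rw [← hPh, ← hPh, h1]
  · rintro ⟨f, hf, hQ⟩
    have hfirr : IsIrr (fun s : inert (cY hL.cl σ L) θ =>
        f (((s : YY κ ρ σ L) : L.comap ρ) : B)) := (irrOn_iff hL.cl hf.1.2).mp hf.1
    have hres : resj (CLG.jS (clG_Y hL.cl σ L) hθ) (fun s : inert (cY hL.cl σ L) θ =>
        f (((s : YY κ ρ σ L) : L.comap ρ) : B)) = θ := by
      funext a
      have h1 : resj (CLG.jS (clG_Y hL.cl σ L) hθ) (fun s : inert (cY hL.cl σ L) θ =>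
        f (((s : YY κ ρ σ L) : L.comap ρ) : B)) a = f (ι (a : G)) := rfl
      rw [h1, hf.2, ext0_of_mem θ a.2]
    obtain ⟨η, hη, hη'⟩ := g3 _ hfirr (by
      rw [hres, ip_self hθ]
      exact one_ne_zero)
    have hfη : f = Ph ρ f0 η := by
      funext x
      by_cases hx : x ∈ Stx κ σ (ext0 θ) ⊓ L.comap ρ
      · have h1 := congrFun (hη'.trans (hPh η).symm) ((eY hL.cl σ L θ).symm ⟨x, hx⟩)
        exact h1
      · rw [hf.1.2 x hx, hzero η x hx]
    subst hfη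
    exact ⟨⟨η, hη, (hPQ η hη hf).mpr hQ⟩, rfl⟩

theorem card_inert {ℓ : ℕ} (hL : LocW ℓ ι κ ρ) (σ : Finset (Subgroup G)) (L : Subgroup C)
    (θ : stb σ → ℂ) (hθ : IsIrr θ) :
    Nat.card (inert (cY hL.cl σ L) θ) = Nat.card (stb σ) * Nat.card (MM hL.cl σ L θ) := by
  classical
  have : Finite C := Finite.of_surjective ρ hL.surj
  have iA : Fintype (stb σ) := Fintype.ofFinite _
  have iS : Fintype (inert (cY hL.cl σ L) θ) := Fintype.ofFinite _
  have iM : Fintype (MM hL.cl σ L θ) := Fintype.ofFinite _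
  have hmap : (inert (cY hL.cl σ L) θ).map (pY κ ρ σ L) = MM hL.cl σ L θ := rfl
  have h := GALL.card_eq (CLG.clG_S (clG_Y hL.cl σ L) hθ hmap) (CLG.qS_surj hmap)
  exact_mod_cast h

/-- The defect of the induced character. -/
theorem defect_iff {ℓ : ℕ} [Fact ℓ.Prime] (hL : LocW ℓ ι κ ρ) (σ : Finset (Subgroup G))
    (L : Subgroup C) [Fintype (YY κ ρ σ L)] (θ : stb σ → ℂ) (hθ : IsIrr θ)
    (F : inert (cY hL.cl σ L) θ → ℂ) (hF : F 1 = θ 1) (e : ℕ) :
    HasDefect ℓ (indc (inert (cY hL.cl σ L) θ) F) e ↔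
      df ℓ (stb σ) (ext0 θ) + padicValNat ℓ (Nat.card (MM hL.cl σ L θ)) = e := by
  classical
  have : Finite C := Finite.of_surjective ρ hL.surj
  obtain ⟨n, hn0, hn⟩ := hθ.exists_degree
  have iA : Fintype (stb σ) := Fintype.ofFinite _
  have hdvd : n ∣ Nat.card (stb σ) := hθ.degree_dvd hn
  have hA0 : Nat.card (stb σ) ≠ 0 := Nat.card_pos.ne'
  have hle : MM hL.cl σ L θ ≤ (pY κ ρ σ L).range := by
    rintro c ⟨y, hy, rfl⟩
    exact ⟨y, rfl⟩
  obtain ⟨r, hr⟩ := Subgroup.card_dvd_of_le hle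
  have hM0 : Nat.card (MM hL.cl σ L θ) ≠ 0 := Nat.card_pos.ne'
  have hR0 : Nat.card (pY κ ρ σ L).range ≠ 0 := Nat.card_pos.ne'
  have hr0 : r ≠ 0 := by
    rintro rfl
    rw [mul_zero] at hr
    exact hR0 hr
  have hval : indc (inert (cY hL.cl σ L) θ) F 1 = ((r * n : ℕ) : ℂ) := by
    rw [IND.indc_one, hF, hn, card_YY hL.cl, hr, card_inert hL σ L θ hθ]
    have h1 : (Nat.card (stb σ) : ℂ) ≠ 0 := by exact_mod_cast hA0
    have h2 : (Nat.card (MM hL.cl σ L θ) : ℂ) ≠ 0 := by exact_mod_cast hM0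
    push_cast
    field_simp
  have hvY : padicValNat ℓ (Nat.card (YY κ ρ σ L)) = padicValNat ℓ (Nat.card (stb σ)) +
      (padicValNat ℓ (Nat.card (MM hL.cl σ L θ)) + padicValNat ℓ r) := by
    rw [card_YY hL.cl, padicValNat.mul hA0 hR0, hr, padicValNat.mul hM0 hr0]
  have hvr : padicValNat ℓ (r * n) = padicValNat ℓ r + padicValNat ℓ n := by
    rw [padicValNat.mul hr0 hn0.ne']
  have hle2 : padicValNat ℓ n ≤ padicValNat ℓ (Nat.card (stb σ)) := by
    obtain ⟨m, hm⟩ := hdvd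
    have hm0 : m ≠ 0 := by
      rintro rfl
      rw [mul_zero] at hm
      exact hA0 hm
    rw [hm, padicValNat.mul hn0.ne' hm0]
    exact Nat.le_add_right _ _
  have hdf : df ℓ (stb σ) (ext0 θ) = padicValNat ℓ (Nat.card (stb σ)) - padicValNat ℓ n := by
    have h1 : ext0 θ (1 : G) = (n : ℂ) := by
      rw [ext0_of_mem θ (stb σ).one_mem]
      exact hn
    rw [df, h1, Complex.natCast_re, Nat.floor_natCast]
  rw [hdf]
  constructor
  · rintro ⟨m, hm, hm'⟩
    rw [hval] at hm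
    have h1 : r * n = m := by exact_mod_cast hm
    rw [← h1, hvr, hvY] at hm'
    omega
  · intro h1
    refine ⟨r * n, hval, ?_⟩
    rw [hvr, hvY]
    omega

end Count

end LKBC

open _root_.Pool.Agent.DPC.LKBC in
open Pool.Agent.DP.LKB (gall clg κι κι' ρι YY jY pY cY clG_Y mem_inert_iff eY irrOn_iff one_of_comm
  MM MM_eq Ph card_YY cen_ind) in
theorem LKBC_thm (h1 : Stmt_EXTAR) : Stmt_LKBC := by
  classical
  intro G B C _ _ _ _ _ 𝔐 ℓ _ ι κ ρ hL _ _ L _ σ Y _ hY e ω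
  subst hY
  have : Finite C := Finite.of_surjective ρ hL.surj
  have hEX : ∀ θ : stb σ → ℂ, ∃ f : B → ℂ, IsIrr θ → ExtL ι κ ρ σ (ext0 θ) L f := by
    intro θ
    by_cases hθ : IsIrr θ
    · have hψ : IrrOn (stb σ) (ext0 θ) := by
        refine ⟨?_, fun x hx => ext0_of_not_mem θ hx⟩
        have h2 : (fun s : stb σ => ext0 θ (s : G)) = θ := by
          funext s
          rw [ext0_of_mem θ s.2]
        rw [h2]
        exact hθ
      obtain ⟨f, hf⟩ := (h1 G B C ℓ ι κ ρ hL σ (ext0 θ) hψ L).2.2.1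
      exact ⟨f, fun _ => hf⟩
    · exact ⟨fun _ => 0, fun h => absurd h hθ⟩
  choose f0 hf0 using hEX
  have hC := (clg (stb σ) (YY κ ρ σ L) C (jY hL.cl σ L) (cY hL.cl σ L) (pY κ ρ σ L)
    (clG_Y hL.cl σ L) (fun θ => MM hL.cl σ L θ)
    (fun θ s => f0 θ (((s : YY κ ρ σ L) : L.comap ρ) : B)) (by
      intro θ hθ
      refine ⟨rfl, ((irrOn_iff hL.cl (hf0 θ hθ).1.2).mp (hf0 θ hθ).1).isChr, ?_⟩
      intro a _
      have h2 : f0 θ (ι (a : G)) = θ a := by
        rw [(hf0 θ hθ).2, ext0_of_mem θ a.2]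
      exact h2)).2 (fun χ => HasDefect ℓ χ e ∧ ∀ g, cen 𝔐 (YY κ ρ σ L).subtype χ g = ω g)
  have h6 : (Nat.card (YY κ ρ σ L) : ℚ) * cnt 𝔐 ℓ e (YY κ ρ σ L).subtype ω =
      (Nat.card (YY κ ρ σ L) : ℚ) * Nat.card {χ : YY κ ρ σ L → ℂ // IsIrr χ ∧
        (HasDefect ℓ χ e ∧ ∀ g, cen 𝔐 (YY κ ρ σ L).subtype χ g = ω g)} := rfl
  refine h6.trans (hC.trans ?_)
  have hirr : irrOn (stb σ) = (irrF (stb σ)).image (fun ψ => ext0 ψ) := rfl
  rw [hirr, Finset.sum_image (by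
    intro θ _ θ' _ hh
    funext s
    have h2 := congrFun hh (s : G)
    simp only at h2
    rw [ext0_of_mem θ s.2, ext0_of_mem θ' s.2] at h2
    exact h2)]
  refine Finset.sum_congr rfl fun θ hθ => ?_
  have hθ' : IsIrr θ := mem_irrF.mp hθ
  have hψ : IrrOn (stb σ) (ext0 θ) := by
    refine ⟨?_, fun x hx => ext0_of_not_mem θ hx⟩
    have h2 : (fun s : stb σ => ext0 θ (s : G)) = θ := by
      funext s
      rw [ext0_of_mem θ s.2]
    rw [h2]
    exact hθ'
  have hKL : MM hL.cl σ L θ = KL κ ρ σ (ext0 θ) L :=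
    (MM_eq hL.cl σ L θ).trans (h1 G B C ℓ ι κ ρ hL σ (ext0 θ) hψ L).2.1
  have hcard : (Nat.card (inert (cY hL.cl σ L) θ) : ℚ) =
      Nat.card (stb σ) * Nat.card (KL κ ρ σ (ext0 θ) L) := by
    rw [← hKL, card_inert hL σ L θ hθ']
    push_cast
    ring
  have hcnt := count hL σ L θ hθ' (f0 θ) (hf0 θ hθ')
    (fun η => (HasDefect ℓ (indc (inert (cY hL.cl σ L) θ)
      (fun s => f0 θ (((s : YY κ ρ σ L) : L.comap ρ) : B) * ext0 η (pY κ ρ σ L s))) e ∧
      ∀ g, cen 𝔐 (YY κ ρ σ L).subtype (indc (inert (cY hL.cl σ L) θ)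
        (fun s => f0 θ (((s : YY κ ρ σ L) : L.comap ρ) : B) * ext0 η (pY κ ρ σ L s))) g = ω g))
    (fun f => df ℓ (stb σ) (ext0 θ) + padicValNat ℓ (Nat.card (KL κ ρ σ (ext0 θ) L)) = e ∧
      ∀ g : L.comap ρ, cgT 𝔐 (L.comap ρ) f g = ω g) (by
      intro η hη hext
      have h3 : Ph ρ (f0 θ) η 1 = θ 1 := by
        have h4 := hext.2 1
        rw [map_one, ext0_of_mem θ (stb σ).one_mem] at h4
        exact h4
      refine and_congr ?_ (forall_congr' fun g => ?_)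
      · rw [← hKL]
        exact defect_iff hL σ L θ hθ' _ h3 e
      · have h5 := cen_ind hL.cl 𝔐 σ L θ (Ph ρ (f0 θ) η) hext.1.2
          (by rw [h3]; exact hθ'.one_ne_zero) g
        exact (Iff.of_eq (congrArg (fun z => z = ω g) h5)))
  have hcnt' : (Nat.card {η : MM hL.cl σ L θ → ℂ // IsIrr η ∧
      (HasDefect ℓ (indc (inert (cY hL.cl σ L) θ)
      (fun s => f0 θ (((s : YY κ ρ σ L) : L.comap ρ) : B) * ext0 η (pY κ ρ σ L s))) e ∧
      ∀ g, cen 𝔐 (YY κ ρ σ L).subtype (indc (inert (cY hL.cl σ L) θ)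
        (fun s => f0 θ (((s : YY κ ρ σ L) : L.comap ρ) : B) * ext0 η (pY κ ρ σ L s))) g = ω g)} :
        ℚ) = Nat.card {f : B → ℂ // ExtL ι κ ρ σ (ext0 θ) L f ∧
          df ℓ (stb σ) (ext0 θ) + padicValNat ℓ (Nat.card (KL κ ρ σ (ext0 θ) L)) = e ∧
          ∀ g : L.comap ρ, cgT 𝔐 (L.comap ρ) f g = ω g} := by
    exact_mod_cast hcnt
  rw [hcard]
  exact congrArg (fun z : ℚ => (Nat.card (stb σ) : ℚ) * Nat.card (KL κ ρ σ (ext0 θ) L) * z) hcnt'

end Pool.Agent.DPC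


end

section

/-!
# Module SDZ: characters under a character of defect zero have defect zero (theorem C)
-/

namespace Pool.Agent.DPC

open Pool.Agent.DP Pool.Agent.Lib_helper13 Representation
open Pool.Agent.Lib_helper13.Dade (pCore DadeHolds dadeSum)

/-- SDZ: characters under a character of defect zero have defect zero. -/
theorem SDZ_thm : Stmt_SDZ := by
  classical
  intro G B C _ _ _ _ _ ℓ _ ι κ ρ hL χ θ hχ hθ hd hne
  have hC : Finite C := Finite.of_surjective ρ hL.surj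
  have hcyc := hL.cyc
  obtain ⟨ψ, hψ, hψne, hψχ⟩ :=
    ((CCOR_thm IND_thm SUMM_thm) G B C ι κ ρ hL.cl θ hθ).2.2 χ hχ hne
  have hmap : (inert κ θ).map ρ = (inert κ θ).map ρ := rfl
  have iT : Fintype (inert κ θ) := Fintype.ofFinite _
  have iM : Fintype ↥((inert κ θ).map ρ) := Fintype.ofFinite _
  have hclS := CLG.clG_S hL.cl hθ hmap
  have hqs := CLG.qS_surj hmap
  obtain ⟨E, hE, hEθ⟩ := EXTC_thm G (inert κ θ) ↥((inert κ θ).map ρ) (CLG.jS hL.cl hθ)
    (κ.comp (inert κ θ).subtype) (CLG.qS hmap) hclS hqs inferInstance θ hθ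
    (fun y a => y.2 a)
  obtain ⟨-, -, g3⟩ := LKB.gall G (inert κ θ) ↥((inert κ θ).map ρ) (CLG.jS hL.cl hθ)
    (κ.comp (inert κ θ).subtype) (CLG.qS hmap) hclS hqs θ E hθ hE.isChr hEθ
  have hψ' : ip (resj (CLG.jS hL.cl hθ) ψ) θ ≠ 0 := by
    have h1 : resj (CLG.jS hL.cl hθ) ψ = fun a => ext0 ψ (ι a) := by
      funext a
      rw [ext0_of_mem ψ (CLG.j_mem hL.cl hθ a)]
      rfl
    rw [h1]
    exact hψne
  obtain ⟨η, hη, hψη⟩ := g3 ψ hψ hψ'
  have hcomm : IsMulCommutative ↥((inert κ θ).map ρ) := by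
    let _ : CommGroup C := IsCyclic.commGroup
    exact ⟨⟨fun a b => Subtype.ext (mul_comm (a : C) b)⟩⟩
  have hη1 : η 1 = 1 := LKB.one_of_comm hη
  obtain ⟨n, hn0, hn⟩ := hθ.exists_degree
  have hψ1 : ψ 1 = (n : ℂ) := by
    rw [hψη]
    simp only [map_one]
    rw [hη1, mul_one, ← map_one (CLG.jS hL.cl hθ), hEθ, hn]
  -- degrees and orders
  have hB0 : Nat.card B ≠ 0 := Nat.card_pos.ne'
  have hT0 : Nat.card (inert κ θ) ≠ 0 := Nat.card_pos.ne'
  have hG0 : Nat.card G ≠ 0 := Nat.card_pos.ne'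
  have hM0 : Nat.card ↥((inert κ θ).map ρ) ≠ 0 := Nat.card_pos.ne'
  obtain ⟨r, hr⟩ := Subgroup.card_subgroup_dvd_card (inert κ θ)
  have hr0 : r ≠ 0 := by
    rintro rfl
    rw [mul_zero] at hr
    exact hB0 hr
  have hχ1 : χ 1 = ((r * n : ℕ) : ℂ) := by
    rw [← hψχ, IND.indc_one, hψ1, hr]
    have h1 : (Nat.card (inert κ θ) : ℂ) ≠ 0 := by exact_mod_cast hT0
    push_cast
    field_simp
  have hcard : Nat.card (inert κ θ) = Nat.card G * Nat.card ↥((inert κ θ).map ρ) := by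
    have h := GALL.card_eq hclS hqs
    exact_mod_cast h
  obtain ⟨m, hm, hmd⟩ := hd
  rw [hχ1] at hm
  have hm' : r * n = m := by exact_mod_cast hm
  rw [← hm', hr, padicValNat.mul hT0 hr0, padicValNat.mul hr0 hn0.ne', hcard,
    padicValNat.mul hG0 hM0] at hmd
  have hle : padicValNat ℓ n ≤ padicValNat ℓ (Nat.card G) := by
    obtain ⟨q, hq⟩ := hθ.degree_dvd hn
    have hq0 : q ≠ 0 := by
      rintro rfl
      rw [mul_zero] at hq
      exact hG0 hq
    rw [hq, padicValNat.mul hn0.ne' hq0]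
    exact Nat.le_add_right _ _
  exact ⟨n, hn, by omega⟩

end Pool.Agent.DPC


end

section

set_option linter.unusedSectionVars false

/-!
# CYCW (theorem W): the quotient by the elements which act on the block as inner automorphisms
is cyclic
-/

namespace Pool.Agent.DPW

open Pool.Agent.DP Pool.Agent.DPV Pool.Agent.Lib_helper13 Representation
open Pool.Agent.Lib_helper13.Dade (pCore DadeHolds dadeSum)

namespace CYCW

open Pool.Agent.DPC.EXTAR (mem_YY rho_iota)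

/-- Central functions computed in a subgroup which contains the support. -/
theorem cgT_sub {B : Type} [Group B] [Fintype B] (𝔐 : Ideal (integralClosure ℤ ℂ))
    (H T : Subgroup B) [Fintype H] (hT : T ≤ H) (f : B → ℂ) (hf : ∀ x, x ∉ H → f x = 0)
    (h : H) : cgT 𝔐 (T.subgroupOf H) (fun x : H => f x) h = cgT 𝔐 T f (h : B) := by
  classical
  have h1 : ∑ x : H, cjT (T.subgroupOf H) x h * f x = ∑ x, cjT T x (h : B) * f x := by
    refine Fintype.sum_of_injective (fun x : H => (x : B)) Subtype.coe_injective _ _ ?_ ?_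
    · intro b hb
      rw [hf b, mul_zero]
      intro hb'
      exact hb ⟨⟨b, hb'⟩, rfl⟩
    · intro x
      have h2 : (∃ t ∈ T.subgroupOf H, x = t * h * t⁻¹) ↔
          ∃ t ∈ T, (x : B) = t * (h : B) * t⁻¹ := by
        constructor
        · rintro ⟨t, ht, hx⟩
          exact ⟨t, Subgroup.mem_subgroupOf.mp ht, by rw [hx]; rfl⟩
        · rintro ⟨t, ht, hx⟩
          exact ⟨⟨t, hT ht⟩, Subgroup.mem_subgroupOf.mpr ht, Subtype.ext hx⟩
      have h3 : cjT (T.subgroupOf H) x h = cjT T (x : B) (h : B) := by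
        rw [cjT, cjT]
        by_cases hc : ∃ t ∈ T, (x : B) = t * (h : B) * t⁻¹
        · rw [if_pos hc, if_pos (h2.mpr hc)]
        · rw [if_neg hc, if_neg (fun h4 => hc (h2.mp h4))]
      rw [h3]
  rw [cgT, cgT, h1]
  rfl

end CYCW

open _root_.Pool.Agent.DPW.CYCW Pool.Agent.DPC.EXTAR in
theorem CYCW_thm (h1 : Stmt_LFW) (h2 : Stmt_DFW) (h3 : Stmt_CYAW) (h4 : Stmt_CYBW) :
    Stmt_CYCW := by
  classical
  intro G B C _ _ _ _ _ 𝔐 ℓ _ hM hl ι κ ρ hloc P x₀ ψ hψ hAt L hL f hf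
  have hcl := hloc.cl
  have hP : Nat.card P = ℓ := hAt.card
  obtain ⟨H, hH⟩ : ∃ H : Subgroup B, H = Stx κ {P} ψ ⊓ L.comap ρ := ⟨_, rfl⟩
  have hmem : ∀ g : G, ι g ∈ H ↔ g ∈ stb ({P} : Finset (Subgroup G)) := by
    intro g
    rw [hH]
    exact mem_YY hcl hψ L
  have hH1 : ∀ h ∈ H, ∀ u ∈ P, κ h u ∈ P := by
    intro h hh u hu
    rw [hH] at hh
    have h3 := hh.1.1 P (Finset.mem_singleton_self P)
    rw [← h3]
    exact ⟨u, hu, rfl⟩
  have hH2 : ∀ h ∈ H, ρ h ∈ L := by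
    intro h hh
    rw [hH] at hh
    exact hh.2
  have hPn : P ≤ stb ({P} : Finset (Subgroup G)) := by
    intro g hg
    rw [mem_stb']
    intro D hD x
    rw [Finset.mem_singleton] at hD
    subst hD
    constructor
    · intro hx
      exact D.mul_mem (D.mul_mem hg hx) (D.inv_mem hg)
    · intro hx
      have h3 := D.mul_mem (D.mul_mem (D.inv_mem hg) hx) hg
      have h4 : g⁻¹ * (g * x * g⁻¹) * g = x := by group
      rwa [h4] at h3
  obtain ⟨T, hT⟩ : ∃ T : Subgroup B, T = (stb ({P} : Finset (Subgroup G))).map ι := ⟨_, rfl⟩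
  have hTH : T ≤ H := by
    rw [hT]
    rintro _ ⟨g, hg, rfl⟩
    exact (hmem g).mpr hg
  have hPT : P.map ι ≤ T := by
    rw [hT]
    exact Subgroup.map_mono hPn
  have hPH : P.map ι ≤ H := hPT.trans hTH
  have hTmem : ∀ b : B, b ∈ T ↔ ∃ g ∈ stb ({P} : Finset (Subgroup G)), ι g = b := by
    intro b
    rw [hT]
    exact Subgroup.mem_map
  -- normality
  have hPnorm : ((P.map ι).subgroupOf H).Normal := by
    constructor
    intro x hx h
    rw [Subgroup.mem_subgroupOf] at hx ⊢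
    obtain ⟨u, hu, hux⟩ := hx
    refine ⟨κ (h : B) u, hH1 _ h.2 u hu, ?_⟩
    rw [hcl.act, hux]
    rfl
  have hTnorm : (T.subgroupOf H).Normal := by
    constructor
    intro x hx h
    rw [Subgroup.mem_subgroupOf] at hx ⊢
    obtain ⟨g, hg, hgx⟩ := (hTmem _).mp hx
    rw [hTmem]
    have h3 : ι (κ (h : B) g) = ((h * x * h⁻¹ : H) : B) := by
      rw [hcl.act, hgx]
      rfl
    refine ⟨κ (h : B) g, ?_, h3⟩
    rw [← hmem, h3]
    exact (h * x * h⁻¹).2
  -- cardinalities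
  have hcP : Nat.card ((P.map ι).subgroupOf H) = ℓ := by
    rw [Nat.card_congr (Subgroup.subgroupOfEquivOfLe hPH).toEquiv,
      ← Nat.card_congr (P.equivMapOfInjective ι hcl.inj).toEquiv, hP]
  have hcT : Nat.card (T.subgroupOf H) = Nat.card (stb ({P} : Finset (Subgroup G))) := by
    rw [Nat.card_congr (Subgroup.subgroupOfEquivOfLe hTH).toEquiv, hT,
      ← Nat.card_congr ((stb ({P} : Finset (Subgroup G))).equivMapOfInjective ι
        hcl.inj).toEquiv]
  have hPTs : (P.map ι).subgroupOf H ≤ T.subgroupOf H := by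
    intro x hx
    rw [Subgroup.mem_subgroupOf] at hx ⊢
    exact hPT hx
  -- characters
  have hf1 : IsIrr (fun x : H => f x) := by
    subst hH
    exact hf.1.1
  have hf0 : ∀ x, x ∉ H → f x = 0 := by
    subst hH
    exact hf.1.2
  have hfN : IsIrr (fun n : T.subgroupOf H => f ((n : H) : B)) := by
    have h3 : ∀ n : T.subgroupOf H, ∃ g : stb ({P} : Finset (Subgroup G)),
        ι (g : G) = ((n : H) : B) := by
      intro n
      obtain ⟨g, hg, hgn⟩ := (hTmem _).mp (Subgroup.mem_subgroupOf.mp n.2)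
      exact ⟨⟨g, hg⟩, hgn⟩
    choose e he using h3
    let E : T.subgroupOf H ≃* stb ({P} : Finset (Subgroup G)) :=
      { toFun := e
        invFun := fun g => ⟨⟨ι (g : G), (hmem _).mpr g.2⟩, Subgroup.mem_subgroupOf.mpr
          ((hTmem _).mpr ⟨g, g.2, rfl⟩)⟩
        left_inv := by
          intro n
          apply Subtype.ext
          apply Subtype.ext
          exact he n
        right_inv := by
          intro g
          apply Subtype.ext
          apply hcl.inj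
          exact he _
        map_mul' := by
          intro a b
          apply Subtype.ext
          apply hcl.inj
          have h6 : ι ((e a * e b : stb ({P} : Finset (Subgroup G))) : G) =
              ι (e a : G) * ι (e b : G) := map_mul ι _ _
          rw [h6, he, he, he]
          rfl }
    have h4 := hψ.1.comp_mulEquiv E
    have h5 : (fun n : T.subgroupOf H => f ((n : H) : B)) =
        (fun s : stb ({P} : Finset (Subgroup G)) => ψ s) ∘ E := by
      funext n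
      change f ((n : H) : B) = ψ (e n : G)
      rw [← hf.2, he]
    rw [h5]
    exact h4
  have hf1ψ : f 1 = ψ 1 := by rw [← hf.2, map_one]
  -- the degree
  obtain ⟨m, hm1, hm2⟩ := ((h2 G 𝔐 ℓ hM hl ψ).2 P x₀ hAt hψ).2
  have hdeg : ∃ m : ℕ, ¬ ℓ ∣ m ∧ (Nat.card (T.subgroupOf H) : ℂ) =
      ℓ * m * (fun x : H => f x) 1 := by
    refine ⟨m, hm1, ?_⟩
    rw [hcT, hm2]
    change (ℓ : ℂ) * m * ψ 1 = ℓ * m * f ((1 : H) : B)
    rw [Subgroup.coe_one, hf1ψ]
  have hcyc : ∃ h0 : H, ∀ h : H, ∃ (k : ℤ) (t : H), t * (h * h0 ^ k)⁻¹ ∈ T.subgroupOf H ∧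
      cgT 𝔐 (T.subgroupOf H) (fun x : H => f x) t ≠ 0 := by
    by_cases hu : ∀ u ∈ (P.map ι).subgroupOf H, (fun x : H => f x) u = (fun x : H => f x) 1
    · exact h3 H 𝔐 ℓ hM hl ((P.map ι).subgroupOf H) (T.subgroupOf H) hcP hPTs
        (fun x : H => f x) hf1 hfN hdeg hu
    · have hu' : ∃ u ∈ (P.map ι).subgroupOf H, (fun x : H => f x) u ≠ (fun x : H => f x) 1 := by
        by_contra hc
        apply hu
        intro u hu1
        by_contra hc1
        exact hc ⟨u, hu1, hc1⟩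
      exact h4 H 𝔐 ℓ hM hl ((P.map ι).subgroupOf H) (T.subgroupOf H) hcP hPTs
        (fun x : H => f x) hf1 hfN hdeg hu'
  obtain ⟨h0, hh0⟩ := hcyc
  refine ⟨ρ (h0 : B), hH2 _ h0.2, ?_⟩
  intro c hc
  obtain ⟨b, hb, hbc⟩ := hL hc
  have hbH : b ∈ H := by
    rw [hH]
    refine ⟨hb, ?_⟩
    change ρ b ∈ L
    rw [hbc]
    exact hc
  obtain ⟨k, h', hN, hne⟩ := hh0 ⟨b, hbH⟩
  have hρh' : ρ (h' : B) = c * ρ (h0 : B) ^ k := by
    obtain ⟨g, -, hg⟩ := (hTmem _).mp (Subgroup.mem_subgroupOf.mp hN)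
    have h3 : ρ ((h' * ((⟨b, hbH⟩ : H) * h0 ^ k)⁻¹ : H) : B) = 1 := by
      rw [← hg]
      exact rho_iota hcl g
    have h4 : ((h' * ((⟨b, hbH⟩ : H) * h0 ^ k)⁻¹ : H) : B) =
        (h' : B) * (b * (h0 : B) ^ k)⁻¹ := by
      simp
    rw [h4, map_mul, map_inv, mul_inv_eq_one, map_mul, map_zpow, hbc] at h3
    exact h3
  rw [cgT_sub 𝔐 H T hTH f hf0 h'] at hne
  have hinv : ∀ n ∈ stb ({P} : Finset (Subgroup G)), ∀ x,
      (fun x => cjT T x (h' : B)) (ι n * x * (ι n)⁻¹) = (fun x => cjT T x (h' : B)) x := by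
    intro n hn x
    have hnT : ι n ∈ T := (hTmem _).mpr ⟨n, hn, rfl⟩
    change cjT T (ι n * x * (ι n)⁻¹) (h' : B) = cjT T x (h' : B)
    rw [cjT, cjT]
    have hiff : (∃ s ∈ T, ι n * x * (ι n)⁻¹ = s * (h' : B) * s⁻¹) ↔
        ∃ s ∈ T, x = s * (h' : B) * s⁻¹ := by
      constructor
      · rintro ⟨s, hs, hx⟩
        refine ⟨(ι n)⁻¹ * s, T.mul_mem (T.inv_mem hnT) hs, ?_⟩
        have h5 : x = (ι n)⁻¹ * (ι n * x * (ι n)⁻¹) * ι n := by group
        rw [h5, hx]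
        group
      · rintro ⟨s, hs, hx⟩
        refine ⟨ι n * s, T.mul_mem hnT hs, ?_⟩
        rw [hx]
        group
    by_cases hc1 : ∃ s ∈ T, x = s * (h' : B) * s⁻¹
    · rw [if_pos hc1, if_pos (hiff.mpr hc1)]
    · rw [if_neg hc1, if_neg (fun h => hc1 (hiff.mp h))]
  have hint : ∀ x, IsIntegral ℤ ((fun x => cjT T x (h' : B)) x) := by
    intro x
    change IsIntegral ℤ (cjT T x (h' : B))
    rw [cjT]
    split
    · exact isIntegral_one
    · exact isIntegral_zero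
  have hsup : ∀ x, ρ x ≠ ρ (h' : B) → (fun x => cjT T x (h' : B)) x = 0 := by
    intro x hx
    change cjT T x (h' : B) = 0
    rw [cjT, if_neg]
    rintro ⟨s, hs, rfl⟩
    apply hx
    obtain ⟨g, -, rfl⟩ := (hTmem _).mp hs
    rw [map_mul, map_mul, map_inv, rho_iota hcl g, one_mul, inv_one, mul_one]
  have hex : ∃ t, ρ t = ρ (h' : B) ∧ cgT 𝔐 ι.range f t ≠ 0 := by
    refine h1 G B C 𝔐 ℓ hM hl ι κ ρ hloc P x₀ ψ hψ hAt L f hf (ρ (h' : B))
      (hH2 _ h'.2) (fun x => cjT T x (h' : B)) hinv hint hsup hne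
  obtain ⟨t, ht1, ht2⟩ := hex
  exact ⟨k, t, ht1.trans hρh', ht2⟩
end Pool.Agent.DPW


end
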