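import Mathlib
import Pool.Agent.DAM.C08
import Pool.Agent.DAM.C12
import Pool.Agent.DAM.C14
import Pool.Agent.DAM.C15
import Pool.Agent.DAM.C18
import Pool.Agent.DAM.C19
import Pool.Agent.DAM.C20
import Pool.Agent.DAM.C22
import Pool.Agent.DAM.C27
import Pool.Agent.DAM.C43
import Pool.Agent.DAM.C48
import Pool.Agent.DAM.C50
import Pool.Agent.DAM.C64
import Pool.Agent.DAM.C76
import Pool.Agent.DAM.C77
import Pool.Agent.DAM.C78

/-! Parts: DPT.CAZ, DPF.EDL, DP.LTR, DPV.BRV, DPC.MINDR, DPC.LIFT, DPC.LZC, DPW.BRC, DPW.LFW, DPW.LVW, DPX.FREX, DPX.BLX, DPX.LFX -/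

section

/-!
# CAZ: the sum vanishes if the character of minimal defect is fixed by an element outside the
inverse image of `M₀`
-/

set_option autoImplicit false

namespace Pool.Agent.DPT

open Pool.Agent.DP Pool.Agent.DPC Pool.Agent.DPM Pool.Agent.DPN Pool.Agent.Lib_helper13
open Representation

namespace CAZ

/-- The stabilizer contains the group. -/
theorem le_sx {G : Type} [Group G] {C : Subgroup G} {ξ : G → ℂ} (hξ : IrrOn C ξ) : C ≤ sx ξ := by
  intro g hg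
  rw [mem_sx]
  intro x
  by_cases hx : x ∈ C
  · exact hξ.1.conj_eq ⟨g, hg⟩ ⟨x, hx⟩
  · rw [hξ.2 x hx]
    apply hξ.2
    intro h1
    apply hx
    have h2 := mul_mem (mul_mem (inv_mem hg) h1) hg
    have h3 : g⁻¹ * (g * x * g⁻¹) * g = x := by group
    rwa [h3] at h2

section Main

variable {L K Y G H : Type} [Group L] [Fintype L] [Group K] [Fintype K] [Group Y] [Fintype Y]
  [Group G] [Fintype G] [Group H] [Finite H] {𝔐 : Ideal (integralClosure ℤ ℂ)} {ℓ : ℕ}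
  [hp : Fact ℓ.Prime] {π : L →* K} {μ : π.ker →* ℂˣ} {Q M M₀ : Subgroup K} {ν : L → ℂ}
  {k' : L →* G} {q : ↥(sx ν) →* Y} {k : Y →* G} {lam : k.ker →* ℂˣ}

omit [Fintype L] [Fintype K] [Fintype Y] [Fintype G] hp in
/-- The elements of the inverse image of `M₀`. -/
theorem mem_M0 (hLN : LN ℓ π μ Q M M₀ ν)
    (hkk : ∀ x, k' x = 1 ↔ π x ∈ Q ∧ ∃ n : ℕ, x ^ ℓ ^ n = 1) {y : L} (hy : π y ∈ M)
    (h : k' y ∈ (M₀.comap π).map k') : π y ∈ M₀ := by
  obtain ⟨m, hm, hmy⟩ := h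
  have hm' : π m ∈ M₀ := hm
  have h1 : k' (m⁻¹ * y) = 1 := by
    rw [map_mul, map_inv, hmy, inv_mul_cancel]
  have h2 := ((hkk _).mp h1).1
  have h3 : π (m⁻¹ * y) ∈ M := by
    rw [map_mul, map_inv]
    exact mul_mem (inv_mem (hLN.le hm')) hy
  have h4 : π (m⁻¹ * y) ∈ Q ⊓ M := Subgroup.mem_inf.mpr ⟨h2, h3⟩
  rw [hLN.QM, Subgroup.mem_bot, map_mul, map_inv, inv_mul_eq_one] at h4
  rw [← h4]
  exact hm'

omit [Fintype L] [Fintype K] [Fintype Y] [Fintype G] hp in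
/-- The image of `M₀` is contained in the range. -/
theorem le_range (hLN : LN ℓ π μ Q M M₀ ν) (hXD : XD ℓ π Q ν k' q k lam) :
    (M₀.comap π).map k' ≤ k.range := by
  rintro _ ⟨y, hy, rfl⟩
  have hy' : π y ∈ M₀ := hy
  have h1 : y ∈ sx ν := (hLN.st y (hLN.le hy')).mp hy'
  exact ⟨q ⟨y, h1⟩, hXD.kq ⟨y, h1⟩⟩

omit [Fintype L] [Fintype K] [Fintype Y] [Fintype G] in
/-- The quotient belongs to the class. -/
theorem hh_quot (hHHS : Stmt_HHS) (hLN : LN ℓ π μ Q M M₀ ν) (hXD : XD ℓ π Q ν k' q k lam)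
    (f : K →* H) (hf : ∀ x, f x = 1 ↔ x ∈ M) (hH : HH ℓ H)
    (hn : (((M₀.comap π).map k').subgroupOf k.range).Normal) :
    HH ℓ (k.range ⧸ ((M₀.comap π).map k').subgroupOf k.range) := by
  have h1 : HH ℓ (f.comp (π.comp (sx ν).subtype)).range :=
    (hHHS H ℓ hH).1 _ (f.comp (π.comp (sx ν).subtype)).range.subtype
      (Subgroup.subtype_injective _)
  have hs : Function.Surjective (f.comp (π.comp (sx ν).subtype)).rangeRestrict :=
    MonoidHom.rangeRestrict_surjective _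
  have hker : (f.comp (π.comp (sx ν).subtype)).rangeRestrict.ker ≤
      ((QuotientGroup.mk' (((M₀.comap π).map k').subgroupOf k.range)).comp
        (k.rangeRestrict.comp q)).ker := by
    intro t ht
    rw [MonoidHom.ker_rangeRestrict, MonoidHom.mem_ker] at ht
    have ht1 : f (π (t : L)) = 1 := ht
    have ht2 : π (t : L) ∈ M := (hf _).mp ht1
    have ht3 : π (t : L) ∈ M₀ := (hLN.st _ ht2).mpr t.2
    rw [MonoidHom.mem_ker]
    change ((k.rangeRestrict (q t) : k.range) :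
      k.range ⧸ ((M₀.comap π).map k').subgroupOf k.range) = 1
    rw [QuotientGroup.eq_one_iff, Subgroup.mem_subgroupOf]
    change k (q t) ∈ _
    rw [hXD.kq]
    exact ⟨t, ht3, rfl⟩
  have h2 := (hHHS _ ℓ h1).2.1 _
    ((f.comp (π.comp (sx ν).subtype)).rangeRestrict.liftOfSurjective hs ⟨_, hker⟩)
  apply h2
  intro z
  obtain ⟨y, rfl⟩ := QuotientGroup.mk_surjective z
  obtain ⟨_, y, rfl⟩ := y
  obtain ⟨t, rfl⟩ := hXD.qs y
  refine ⟨(f.comp (π.comp (sx ν).subtype)).rangeRestrict t, ?_⟩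
  have h3 := MonoidHom.liftOfRightInverse_comp_apply
    (f.comp (π.comp (sx ν).subtype)).rangeRestrict (Function.surjInv hs)
    (Function.rightInverse_surjInv hs) ⟨_, hker⟩ t
  exact h3

omit [Fintype L] [Fintype K] [Fintype G] hp in
/-- The images of central elements belong to the stabilizers. -/
theorem mem_stab (hc : π.ker ≤ Subgroup.center L) (hs : Function.Surjective k')
    (σ : Finset (Subgroup G)) (x : L) (hx : π x = 1) : k' x ∈ stb σ := by
  rw [mem_stb']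
  intro D _ y
  obtain ⟨y, rfl⟩ := hs y
  have h1 : x ∈ Subgroup.center L := hc (MonoidHom.mem_ker.mpr hx)
  have h2 : x * y * x⁻¹ = y := by
    rw [← Subgroup.mem_center_iff.mp h1 y, mul_inv_cancel_right]
  rw [← map_inv, ← map_mul, ← map_mul, h2]

omit [Fintype K] [Fintype Y] hp in
/-- The condition of DZS. -/
theorem alt (hLN : LN ℓ π μ Q M M₀ ν)
    (hXD : XD ℓ π Q ν k' q k lam) {θ₀ : L → ℂ} {θb : G → ℂ} (hTB : TB 𝔐 ℓ π M₀ k' θ₀ θb)
    (hm : ∃ m, π m ∈ M ∧ m ∈ sx θ₀ ∧ π m ∉ M₀) (ξ : G → ℂ)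
    (hξ : ∃ g, ∀ x, ξ x = θb (g * x * g⁻¹)) :
    ∃ O : Subgroup G, (M₀.comap π).map k' < O ∧ O ≤ (M.comap π).map k' ⊓ sx ξ ∧
      (∀ x ∈ O, ∃ n : ℕ, x ^ ℓ ^ n ∈ (M₀.comap π).map k') ∧
      ∀ g ∈ sx ξ, ∀ x ∈ O, g * x * g⁻¹ ∈ O := by
  have hCn : ((M₀.comap π).map k').Normal := (hLN.M0n.comap π).map k' hXD.ks
  have hMn : ((M.comap π).map k').Normal := (hLN.Mn.comap π).map k' hXD.ks
  have hle : (M₀.comap π).map k' ≤ (M.comap π).map k' :=
    Subgroup.map_mono (Subgroup.comap_mono hLN.le)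
  obtain ⟨g, hg⟩ := hξ
  have hCξ : (M₀.comap π).map k' ≤ sx ξ := by
    intro c hc
    rw [mem_sx]
    intro x
    rw [hg, hg]
    have h1 := mem_sx.mp (le_sx hTB.dz.1 (hCn.conj_mem c hc g)) (g * x * g⁻¹)
    rw [← h1]
    congr 1
    group
  refine ⟨(M.comap π).map k' ⊓ sx ξ, lt_of_le_of_ne (le_inf hle hCξ) ?_, le_rfl, ?_, ?_⟩
  · intro heq
    obtain ⟨l, rfl⟩ := hXD.ks g
    obtain ⟨m, hm1, hm2, hm3⟩ := hm
    have h1 : π (l⁻¹ * m * l) ∈ M := by
      have h2 := hLN.Mn.conj_mem _ hm1 (π l)⁻¹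
      rw [inv_inv] at h2
      rw [map_mul, map_mul, map_inv]
      exact h2
    have h2 : k' (l⁻¹ * m * l) ∈ sx ξ := by
      rw [mem_sx]
      intro x
      rw [hg, hg]
      have h3 := mem_sx.mp ((hTB.sx m).mpr hm2) (k' l * x * (k' l)⁻¹)
      rw [← h3]
      congr 1
      rw [map_mul, map_mul, map_inv]
      group
    have h3 : k' (l⁻¹ * m * l) ∈ (M.comap π).map k' ⊓ sx ξ :=
      Subgroup.mem_inf.mpr ⟨⟨_, h1, rfl⟩, h2⟩
    rw [← heq] at h3
    have h4 := mem_M0 hLN hXD.kk h1 h3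
    apply hm3
    have h5 := hLN.M0n.conj_mem _ h4 (π l)
    rw [← map_inv, ← map_mul, ← map_mul] at h5
    have h6 : l * (l⁻¹ * m * l) * l⁻¹ = m := by group
    rwa [h6] at h5
  · intro x hx
    obtain ⟨y, hy, rfl⟩ := (Subgroup.mem_inf.mp hx).1
    obtain ⟨n, hn⟩ := hLN.pg (π y) hy
    refine ⟨n, y ^ ℓ ^ n, ?_, map_pow _ _ _⟩
    change π (y ^ ℓ ^ n) ∈ M₀
    rw [map_pow]
    exact hn
  · intro g' hg' x hx
    obtain ⟨hx1, hx2⟩ := Subgroup.mem_inf.mp hx
    exact Subgroup.mem_inf.mpr ⟨hMn.conj_mem x hx1 g', mul_mem (mul_mem hg' hx2) (inv_mem hg')⟩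

end Main

end CAZ

open _root_.Pool.Agent.DPT.CAZ

theorem CAZ_thm (h1 : Stmt_CAX) (h2 : Stmt_CAT) (h3 : Stmt_CAN) (h4 : Stmt_CHG)
    (h5 : Stmt_DZS) (h6 : Stmt_HHS) : Stmt_CAZ := by
  classical
  intro L K H _ _ _ _ _ _ 𝔐 ℓ hp h𝔐 hℓ π hπ hπc μ Q M M₀ ν hLN f hf hH ω θ₀ hθ₀ hov hω hω0 hm d
  obtain ⟨Y, G, _, _, _, _, k', q, k, lam, hXD⟩ := h1 L K ℓ π hπ hπc μ Q M M₀ ν hLN
  obtain ⟨θb, hTB⟩ := h2 L K G 𝔐 ℓ h𝔐 hℓ π hπ hπc μ Q M M₀ ν hLN k' hXD.ks hXD.kk θ₀ hθ₀ hov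
  have hCn : ((M₀.comap π).map k').Normal := (hLN.M0n.comap π).map k' hXD.ks
  have hMn : ((M.comap π).map k').Normal := (hLN.Mn.comap π).map k' hXD.ks
  have hle : (M₀.comap π).map k' ≤ (M.comap π).map k' :=
    Subgroup.map_mono (Subgroup.comap_mono hLN.le)
  have hr := le_range hLN hXD
  have hn : (((M₀.comap π).map k').subgroupOf k.range).Normal := Subgroup.normal_subgroupOf
  have hHH := hh_quot h6 hLN hXD f hf hH hn
  have hG := h4 L K G ℓ π hπc M (by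
      intro x _
      exact hπ x) (fun t y hy => hLN.Mn.conj_mem y hy _) k' hXD.ks
    (by
      intro t ht ht1
      have h8 : π t ∈ Q ⊓ M := Subgroup.mem_inf.mpr ⟨((hXD.kk t).mp ht1).1, ht⟩
      rw [hLN.QM, Subgroup.mem_bot] at h8
      exact h8)
    (by
      intro t ht ht1
      refine (hXD.kk t).mpr ⟨?_, ht1⟩
      rw [ht]
      exact one_mem _)
    (fun R => (Nat.card ↥(R ⊓ sx ν) : ℚ) * Nat.card {ψ : L → ℂ // ID ℓ (R ⊓ sx ν) d ψ ∧
      iS (Q.comap π) ψ ν ≠ 0 ∧ ∀ g, π g ∈ M → cgT 𝔐 ⊤ ψ g = ω g})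
  refine hG.trans ?_
  have hN := fun σ : Finset (Subgroup G) => h3 L K Y G 𝔐 ℓ h𝔐 hℓ π hπ hπc μ Q M M₀ ν hLN k' q k
    lam hXD ω θ₀ θb hθ₀ hov hω hω0 hTB (stb σ) (mem_stab hπc hXD.ks σ)
  rcases lt_or_ge d (padicValNat ℓ (Nat.card q.ker)) with hd | hd
  · unfold CS
    apply Finset.sum_eq_zero
    intro σ _
    have h8 := (hN σ).2.2 d hd
    change (-1 : ℚ) ^ σ.card * ((Nat.card ↥((stb σ).comap k' ⊓ sx ν) : ℚ) *
      (Nat.card {ψ : L → ℂ // ID ℓ ((stb σ).comap k' ⊓ sx ν) d ψ ∧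
      iS (Q.comap π) ψ ν ≠ 0 ∧ ∀ g, π g ∈ M → cgT 𝔐 ⊤ ψ g = ω g} : ℚ)) = 0
    rw [h8, Nat.cast_zero, mul_zero, mul_zero]
  · obtain ⟨d₁, rfl⟩ := Nat.exists_eq_add_of_le' hd
    have hD := h5 Y G (k.range ⧸ ((M₀.comap π).map k').subgroupOf k.range) 𝔐 ℓ h𝔐 hℓ hHH k
      hXD.fc lam ((M₀.comap π).map k') ((M.comap π).map k') hCn hMn hle hr
      (QuotientGroup.mk' (((M₀.comap π).map k').subgroupOf k.range)) (by
        intro x
        rw [QuotientGroup.mk'_apply, QuotientGroup.eq_one_iff, Subgroup.mem_subgroupOf])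
      θb hTB.dz d₁ (fun ξ hξ => Or.inl (alt hLN hXD hTB hm ξ hξ))
    have hE : CS ℓ ((M.comap π).map k') (fun S => (Nat.card ↥(S.comap k' ⊓ sx ν) : ℚ) *
        Nat.card {ψ : L → ℂ // ID ℓ (S.comap k' ⊓ sx ν) (d₁ + padicValNat ℓ (Nat.card q.ker)) ψ ∧
        iS (Q.comap π) ψ ν ≠ 0 ∧ ∀ g, π g ∈ M → cgT 𝔐 ⊤ ψ g = ω g}) =
        (Nat.card k'.ker : ℚ) *
        ∑ σ ∈ (Ch ℓ (⊥ : Subgroup G)).filter (fun σ => ∀ D ∈ σ, D ≤ (M.comap π).map k'),
          (-1 : ℚ) ^ σ.card * WR 𝔐 ℓ d₁ k lam ((M₀.comap π).map k') θb (stb σ) := by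
      unfold CS
      rw [Finset.mul_sum]
      refine Finset.sum_congr rfl fun σ _ => ?_
      beta_reduce
      rw [(hN σ).1, (hN σ).2.1 d₁, WR, Nat.cast_mul]
      ring
    refine hE.trans ?_
    rw [hD, mul_zero]

end Pool.Agent.DPT


end

section

/-!
# EDL: the idempotent of the characters of a given defect over a linear character
-/

namespace Pool.Agent.DPF

open Pool.Agent.DP Pool.Agent.DPC Pool.Agent.DPM Pool.Agent.DPN Pool.Agent.Lib_helper13
  Representation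

namespace EDL

variable {W : Type} [Group W] [Fintype W]

/-- The class function of `S` supported on `A` with the values of the inverse of `ν`. -/
noncomputable def fA {S A : Subgroup W} (ν : A →* ℂˣ) (s : S) : ℂ :=
  open Classical in if h : (s : W) ∈ A then (((ν ⟨s, h⟩)⁻¹ : ℂˣ) : ℂ) else 0

omit [Fintype W] in
theorem fA_mem {S A : Subgroup W} (ν : A →* ℂˣ) (s : S) (h : (s : W) ∈ A) :
    fA ν s = (((ν ⟨s, h⟩)⁻¹ : ℂˣ) : ℂ) := by simp [fA, h]

omit [Fintype W] in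
theorem fA_not {S A : Subgroup W} (ν : A →* ℂˣ) (s : S) (h : (s : W) ∉ A) :
    fA ν s = 0 := by simp [fA, h]

omit [Fintype W] in
theorem fA_conj {S A : Subgroup W} (hn : ∀ s ∈ S, ∀ a ∈ A, s * a * s⁻¹ ∈ A) (ν : A →* ℂˣ)
    (hν : ∀ s ∈ S, ∀ a a' : A, (a' : W) = s * a * s⁻¹ → ν a' = ν a) (g x : S) :
    fA ν (g * x * g⁻¹) = fA ν x := by
  by_cases h : (x : W) ∈ A
  · have h' : ((g * x * g⁻¹ : S) : W) ∈ A := hn g g.2 x h
    rw [fA_mem ν _ h, fA_mem ν _ h', hν g g.2 ⟨x, h⟩ ⟨_, h'⟩ rfl]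
  · have h' : ((g * x * g⁻¹ : S) : W) ∉ A := by
      intro h'
      apply h
      have h2 := hn (g : W)⁻¹ (S.inv_mem g.2) _ h'
      have h3 : (g : W)⁻¹ * ((g * x * g⁻¹ : S) : W) * ((g : W)⁻¹)⁻¹ = x := by
        change (g : W)⁻¹ * ((g : W) * (x : W) * (g : W)⁻¹) * ((g : W)⁻¹)⁻¹ = x
        group
      rwa [h3] at h2
    rw [fA_not ν _ h, fA_not ν _ h']

theorem sum_fA {S A : Subgroup W} [Fintype A] (hA : A ≤ S) (ν : A →* ℂˣ) (u : S → ℂ) :
    ∑ a : A, (((ν a)⁻¹ : ℂˣ) : ℂ) * u ⟨a, hA a.2⟩ = ∑ s : S, fA ν s * u s := by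
  refine Finset.sum_of_injOn (fun a : A => (⟨a, hA a.2⟩ : S)) ?_ ?_ ?_ ?_
  · intro a _ b _ hab
    exact Subtype.ext (congrArg (fun s : S => (s : W)) hab)
  · intro a _
    exact Finset.mem_coe.mpr (Finset.mem_univ _)
  · intro s _ hs
    have h : (s : W) ∉ A := by
      intro h
      exact hs ⟨⟨s, h⟩, Finset.mem_coe.mpr (Finset.mem_univ _), rfl⟩
    rw [fA_not ν s h, zero_mul]
  · intro a _
    rw [fA_mem ν (⟨a, hA a.2⟩ : S) a.2]

theorem key_eq {S A : Subgroup W} [Fintype A] (hA : A ≤ S)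
    (hn : ∀ s ∈ S, ∀ a ∈ A, s * a * s⁻¹ ∈ A) (ν : A →* ℂˣ)
    (hν : ∀ s ∈ S, ∀ a a' : A, (a' : W) = s * a * s⁻¹ → ν a' = ν a) {κ : S → ℂ}
    (hκ : IsIrr κ) (y : S) :
    ∑ a : A, (((ν a)⁻¹ : ℂˣ) : ℂ) * κ (⟨a, hA a.2⟩ * y) = wt κ (fA ν) * κ y := by
  rw [sum_fA hA ν (fun s => κ (s * y))]
  exact FRO.scal hκ (fA_conj hn ν hν) y

omit [Fintype W] in
theorem key_pos {S A : Subgroup W} [Fintype A] (hA : A ≤ S) (ν : A →* ℂˣ) {κ : S → ℂ}
    (ho : OvL A ν S κ) (y : S) :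
    ∑ a : A, (((ν a)⁻¹ : ℂˣ) : ℂ) * κ (⟨a, hA a.2⟩ * y) = (Nat.card A : ℂ) * κ y := by
  have h1 : ∀ a : A, (((ν a)⁻¹ : ℂˣ) : ℂ) * κ (⟨a, hA a.2⟩ * y) = κ y := by
    intro a
    rw [ho ⟨a, hA a.2⟩ y a.2, ← mul_assoc]
    have h2 : (((ν a)⁻¹ : ℂˣ) : ℂ) * ((ν a : ℂˣ) : ℂ) = 1 := Units.inv_mul _
    have h3 : ν ⟨((⟨a, hA a.2⟩ : S) : W), a.2⟩ = ν a := rfl
    rw [h3, h2, one_mul]
  rw [Finset.sum_congr rfl fun a _ => h1 a, Finset.sum_const, nsmul_eq_mul, Finset.card_univ,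
    Nat.card_eq_fintype_card]

theorem key_neg {S A : Subgroup W} [Fintype A] (hA : A ≤ S)
    (hn : ∀ s ∈ S, ∀ a ∈ A, s * a * s⁻¹ ∈ A) (ν : A →* ℂˣ)
    (hν : ∀ s ∈ S, ∀ a a' : A, (a' : W) = s * a * s⁻¹ → ν a' = ν a) {κ : S → ℂ}
    (hκ : IsIrr κ) (ho : ¬ OvL A ν S κ) : wt κ (fA ν) = 0 := by
  by_contra hc
  apply ho
  intro s t h
  have h1 := key_eq hA hn ν hν hκ (s * t)
  have h2 : ∑ a : A, (((ν a)⁻¹ : ℂˣ) : ℂ) * κ (⟨a, hA a.2⟩ * (s * t)) =
      ((ν ⟨s, h⟩ : ℂˣ) : ℂ) *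
        ∑ a : A, (((ν a)⁻¹ : ℂˣ) : ℂ) * κ (⟨a, hA a.2⟩ * t) := by
    rw [Finset.mul_sum]
    refine Fintype.sum_equiv (Equiv.mulRight (⟨s, h⟩ : A)) _ _ fun a => ?_
    have h3 : (⟨((Equiv.mulRight (⟨s, h⟩ : A)) a : A), hA ((Equiv.mulRight (⟨s, h⟩ : A)) a).2⟩
        : S) * t = ⟨a, hA a.2⟩ * (s * t) := by
      apply Subtype.ext
      change (a : W) * (s : W) * (t : W) = (a : W) * ((s : W) * (t : W))
      rw [mul_assoc]
    have h4 : ν ((Equiv.mulRight (⟨s, h⟩ : A)) a) = ν a * ν ⟨s, h⟩ := by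
      rw [Equiv.coe_mulRight, map_mul]
    have h6 : ((ν ⟨s, h⟩ : ℂˣ) : ℂ) * (((ν a * ν ⟨s, h⟩)⁻¹ : ℂˣ) : ℂ) =
        (((ν a)⁻¹ : ℂˣ) : ℂ) := by
      rw [← Units.val_mul]
      congr 1
      rw [mul_inv, mul_comm (ν a)⁻¹, ← mul_assoc, mul_inv_cancel, one_mul]
    rw [h3, h4, ← h6, mul_assoc]
  rw [h2, key_eq hA hn ν hν hκ t] at h1
  have h5 : wt κ (fA ν) * κ (s * t) = wt κ (fA ν) * (((ν ⟨s, h⟩ : ℂˣ) : ℂ) * κ t) := by
    rw [← h1]
    ring
  exact mul_left_cancel₀ hc h5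

open Classical in
theorem key {S A : Subgroup W} [Fintype A] (hA : A ≤ S)
    (hn : ∀ s ∈ S, ∀ a ∈ A, s * a * s⁻¹ ∈ A) (ν : A →* ℂˣ)
    (hν : ∀ s ∈ S, ∀ a a' : A, (a' : W) = s * a * s⁻¹ → ν a' = ν a) {κ : S → ℂ}
    (hκ : IsIrr κ) (r : W) :
    ∑ a : A, (((ν a)⁻¹ : ℂˣ) : ℂ) * ext0 κ ((a : W)⁻¹ * r)⁻¹ =
      if OvL A ν S κ then (Nat.card A : ℂ) * ext0 κ r⁻¹ else 0 := by
  by_cases hr : r⁻¹ ∈ S
  · have h1 : ∀ a : A, ext0 κ ((a : W)⁻¹ * r)⁻¹ = κ (⟨a, hA a.2⟩ * ⟨r⁻¹, hr⟩) := by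
      intro a
      have h2 : ((a : W)⁻¹ * r)⁻¹ = r⁻¹ * a := by group
      have h3 : r⁻¹ * (a : W) ∈ S := S.mul_mem hr (hA a.2)
      rw [h2, ext0_of_mem κ h3]
      have h4 := hκ.conj_eq (⟨r⁻¹, hr⟩ : S) (⟨a, hA a.2⟩ * ⟨r⁻¹, hr⟩)
      rw [← h4]
      congr 1
      apply Subtype.ext
      change r⁻¹ * (a : W) = r⁻¹ * ((a : W) * r⁻¹) * (r⁻¹)⁻¹
      group
    simp only [h1]
    rw [ext0_of_mem κ hr]
    split_ifs with ho
    · exact key_pos hA ν ho _
    · rw [key_eq hA hn ν hν hκ, key_neg hA hn ν hν hκ ho, zero_mul]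
  · have h1 : ∀ a : A, ext0 κ ((a : W)⁻¹ * r)⁻¹ = 0 := by
      intro a
      refine ext0_of_not_mem κ ?_
      intro h
      apply hr
      have h2 : ((a : W)⁻¹ * r)⁻¹ * (a : W)⁻¹ = r⁻¹ := by group
      rw [← h2]
      exact S.mul_mem h (S.inv_mem (hA a.2))
    simp only [h1]
    rw [ext0_of_not_mem κ hr]
    simp

end EDL

open _root_.Pool.Agent.DPF.EDL in
theorem EDL_thm : Stmt_EDL := by
  intro W _ _ ℓ S A hA hn ν hν e r
  classical
  unfold ed
  have h1 : ∀ a : A, (((ν a)⁻¹ : ℂˣ) : ℂ) *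
      ((∑ κ ∈ irrF S with HasDefect ℓ κ e, κ 1 * ext0 κ ((a : W)⁻¹ * r)⁻¹) / Nat.card S) =
      (∑ κ ∈ irrF S with HasDefect ℓ κ e,
        κ 1 * ((((ν a)⁻¹ : ℂˣ) : ℂ) * ext0 κ ((a : W)⁻¹ * r)⁻¹)) / Nat.card S := by
    intro a
    rw [← mul_div_assoc, Finset.mul_sum]
    congr 1
    exact Finset.sum_congr rfl fun κ _ => by ring
  rw [Finset.sum_congr rfl fun a _ => h1 a, ← Finset.sum_div, Finset.sum_comm,
    ← mul_div_assoc]
  congr 1
  simp only [← Finset.mul_sum]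
  rw [Finset.mul_sum]
  have h2 : ∑ κ ∈ irrF S with HasDefect ℓ κ e,
      κ 1 * ∑ a : A, (((ν a)⁻¹ : ℂˣ) : ℂ) * ext0 κ ((a : W)⁻¹ * r)⁻¹ =
      ∑ κ ∈ irrF S with HasDefect ℓ κ e,
        if OvL A ν S κ then (Nat.card A : ℂ) * (κ 1 * ext0 κ r⁻¹) else 0 := by
    refine Finset.sum_congr rfl fun κ hκ => ?_
    rw [Finset.mem_filter] at hκ
    rw [key hA hn ν hν (mem_irrF.mp hκ.1) r]
    split_ifs with ho
    · ring
    · rw [mul_zero]
  rw [h2, ← Finset.sum_filter, Finset.filter_filter]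
  refine Finset.sum_congr ?_ fun κ _ => rfl
  ext κ
  simp only [Finset.mem_filter]
  tauto

end Pool.Agent.DPF


end

section

/-!
# Transitivity of the central functions

Module LTR: `Stmt_LTR`.
-/

namespace Pool.Agent.DP

open Pool.Agent.Lib_helper13 Representation

namespace LTR

section

variable {G B C : Type*} [Group G] [Group B] [Group C] {ι : G →* B} {κ : B →* MulAut G}
  {ρ : B →* C}

theorem kap (h : ClG ι κ ρ) (g a : G) : κ (ι g) a = g * a * g⁻¹ := by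
  apply h.inj
  rw [h.act, map_mul, map_mul, map_inv]

theorem comap_Stx (h : ClG ι κ ρ) {σ : Finset (Subgroup G)} {ψ : G → ℂ}
    (hψ : IrrOn (stb σ) ψ) (L : Subgroup C) : (Stx κ σ ψ ⊓ L.comap ρ).comap ι = stb σ := by
  ext g
  rw [Subgroup.mem_comap, Subgroup.mem_inf, Subgroup.mem_comap, mem_stb]
  have h1 : ρ (ι g) = 1 := (h.ker _).mpr ⟨g, rfl⟩
  have hk : (κ (ι g)).toMonoidHom = (MulAut.conj g).toMonoidHom := by
    ext a
    exact kap h g a
  constructor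
  · rintro ⟨⟨h2, _⟩, _⟩ D hD
    rw [← hk]
    exact h2 D hD
  · intro h2
    refine ⟨⟨fun D hD => by rw [hk]; exact h2 D hD, fun a => ?_⟩, by rw [h1]; exact one_mem _⟩
    rw [kap h]
    have hg : g ∈ stb σ := mem_stb.mpr h2
    by_cases ha : a ∈ stb σ
    · exact hψ.1.conj_eq (⟨g, hg⟩ : stb σ) ⟨a, ha⟩
    · rw [hψ.2 a ha]
      apply hψ.2
      intro h3
      apply ha
      have := mul_mem (mul_mem (inv_mem hg) h3) hg
      simpa [mul_assoc] using this

end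

/-- Conjugacy under the subgroup `T`. -/
def cjS {B : Type*} [Group B] (T : Subgroup B) : Setoid B where
  r x y := ∃ t ∈ T, x = t * y * t⁻¹
  iseqv := by
    refine ⟨fun x => ⟨1, one_mem _, by simp⟩, ?_, ?_⟩
    · rintro x y ⟨t, ht, rfl⟩
      exact ⟨t⁻¹, inv_mem ht, by group⟩
    · rintro x y z ⟨t, ht, rfl⟩ ⟨s, hs, rfl⟩
      exact ⟨t * s, mul_mem ht hs, by group⟩

end LTR

open _root_.Pool.Agent.DP.LTR in
theorem LTR_thm (h1 : Stmt_INTH) : Stmt_LTR := by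
  classical
  intro G B C _ _ _ _ _ 𝔐 ℓ _ ι κ ρ hS L' L hL
  have hcl := hS.cl
  set T := L.comap ρ with hT
  set T' := L'.comap ρ with hT'
  have hTT : T' ≤ T := Subgroup.comap_mono hL
  -- the part of the class of `g` which is contained in `T'`
  set O : B → Finset B := fun g => Finset.univ.filter (fun x => x ∈ T' ∧ ∃ t ∈ T, x = t * g * t⁻¹)
    with hO
  set Q : B → Finset (Quotient (cjS T')) := fun g => (O g).image (Quotient.mk (cjS T')) with hQ
  have hrep : ∀ g, ∀ q ∈ Q g, q.out ∈ O g := by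
    intro g q hq
    obtain ⟨x, hx, rfl⟩ := Finset.mem_image.mp hq
    obtain ⟨t, ht, hxt⟩ : (cjS T').r ((Quotient.mk (cjS T') x).out) x :=
      Quotient.exact (Quotient.out_eq _)
    obtain ⟨_, hx1, s, hs, hxs⟩ := Finset.mem_filter.mp hx
    refine Finset.mem_filter.mpr ⟨Finset.mem_univ _, ?_, t * s, mul_mem (hTT ht) hs, ?_⟩
    · rw [hxt]
      exact mul_mem (mul_mem ht hx1) (inv_mem ht)
    · rw [hxt, hxs]
      group
  refine ⟨fun ω g => ∑ q ∈ Q g, if hq : q.out ∈ T' then ω ⟨q.out, hq⟩ else 0, ?_⟩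
  intro σ ψ f hψ hf
  funext g
  -- `f` vanishes outside `T'`
  have hf0 : ∀ x, x ∉ T' → f x = 0 := fun x hx => hf.1.2 x fun h => hx h.2
  have hco := comap_Stx hcl hψ L'
  have hψ' : IrrOn ((Stx κ σ ψ ⊓ L'.comap ρ).comap ι) (fun h => f (ι h)) := by
    rw [hco]
    have : (fun h => f (ι h)) = ψ := by
      funext h
      exact hf.2 h
    rw [this]
    exact hψ
  have hint : ∀ y, IsIntegral ℤ ((∑ x, cjT T' x y * f x) / f 1) := by
    intro y
    refine h1 G B C ι κ ρ hcl _ f hf.1 hψ' (fun x => cjT T' x y) (fun x => ?_) (fun h x => ?_)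
    · unfold cjT
      split_ifs
      · exact isIntegral_one
      · exact isIntegral_zero
    · have hι : ι h ∈ T' := by
        rw [hT', Subgroup.mem_comap, (hcl.ker _).mpr ⟨h, rfl⟩]
        exact one_mem _
      unfold cjT
      congr 1
      apply propext
      constructor
      · rintro ⟨t, ht, hxt⟩
        refine ⟨(ι h)⁻¹ * t, mul_mem (inv_mem hι) ht, ?_⟩
        calc x = (ι h)⁻¹ * (ι h * x * (ι h)⁻¹) * ι h := by group
          _ = _ := by rw [hxt]; group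
      · rintro ⟨t, ht, rfl⟩
        exact ⟨ι h * t, mul_mem hι ht, by group⟩
  -- the sum over the class
  have hsum : ∑ x, cjT T x g * f x = ∑ q ∈ Q g, ∑ x, cjT T' x q.out * f x := by
    have e1 : ∑ x, cjT T x g * f x = ∑ x ∈ O g, f x := by
      rw [hO, Finset.sum_filter]
      refine Finset.sum_congr rfl fun x _ => ?_
      by_cases hx : x ∈ T'
      · unfold cjT
        by_cases hc : ∃ t ∈ T, x = t * g * t⁻¹
        · rw [if_pos hc, if_pos ⟨hx, hc⟩, one_mul]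
        · rw [if_neg hc, if_neg fun h => hc h.2, zero_mul]
      · rw [hf0 x hx, mul_zero, if_neg fun h => hx h.1]
    rw [e1, ← Finset.sum_fiberwise_of_maps_to (t := Q g) (g := Quotient.mk (cjS T'))
      (fun x hx => Finset.mem_image_of_mem _ hx)]
    refine Finset.sum_congr rfl fun q hq => ?_
    have hqO := hrep g q hq
    obtain ⟨_, hq1, s, hs, hqs⟩ := Finset.mem_filter.mp hqO
    have e2 : (O g).filter (fun x => Quotient.mk (cjS T') x = q) =
        Finset.univ.filter (fun x => ∃ t ∈ T', x = t * q.out * t⁻¹) := by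
      ext x
      simp only [Finset.mem_filter, Finset.mem_univ, true_and]
      constructor
      · rintro ⟨_, rfl⟩
        have : (cjS T').r x ((Quotient.mk (cjS T') x).out) :=
          Quotient.exact (Quotient.out_eq _).symm
        exact this
      · rintro ⟨t, ht, hxt⟩
        refine ⟨Finset.mem_filter.mpr ⟨Finset.mem_univ _, ?_, t * s, mul_mem (hTT ht) hs, ?_⟩, ?_⟩
        · rw [hxt]
          exact mul_mem (mul_mem ht hq1) (inv_mem ht)
        · rw [hxt]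
          nth_rewrite 1 [hqs]
          group
        · rw [← Quotient.out_eq q]
          exact Quotient.sound (s := cjS T') ⟨t, ht, hxt⟩
    rw [e2, Finset.sum_filter]
    refine Finset.sum_congr rfl fun x _ => ?_
    unfold cjT
    split_ifs <;> simp
  have e3 : cgT 𝔐 T f g = ∑ q ∈ Q g, cgT 𝔐 T' f q.out := by
    unfold cgT
    rw [hsum, Finset.sum_div, red_sum 𝔐 _ _ fun q _ => hint q.out]
  rw [e3]
  refine Finset.sum_congr rfl fun q hq => ?_
  have hq1 : q.out ∈ T' := (Finset.mem_filter.mp (hrep g q hq)).2.1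
  rw [dif_pos hq1]

end Pool.Agent.DP


end

section

/-!
# BRV: the Brauer homomorphism for a Sylow subgroup of order `ℓ`
-/

namespace Pool.Agent.DPV

open Pool.Agent.DP Pool.Agent.Lib_helper13 Representation
open Pool.Agent.Lib_helper13.Dade (pCore DadeHolds dadeSum)

namespace BRV

/-- Integrality of the weights of functions which are invariant under the part of `G` in the
domain of the character. -/
theorem intN {G B : Type} [Group G] [Fintype G] [Group B] [Fintype B] (ι : G →* B)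
    (S : Subgroup B) (f : B → ℂ) (hf : IrrOn S f)
    (hres : IrrOn (S.comap ι) (fun h => f (ι h))) (F : B → ℂ) (hF : ∀ x, IsIntegral ℤ (F x))
    (hinv : ∀ h ∈ S.comap ι, ∀ x, F (ι h * x * (ι h)⁻¹) = F x) :
    IsIntegral ℤ ((∑ x, F x * f x) / f 1) := by
  classical
  obtain ⟨n, R, hR, hRf⟩ := hf.1
  obtain ⟨n', R', hR', hRf'⟩ := hres.1
  have : Fintype S := Fintype.ofFinite _
  have : Fintype (S.comap ι) := Fintype.ofFinite _
  -- the restriction to `G`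
  let j : S.comap ι →* S := (ι.comp (S.comap ι).subtype).codRestrict S (fun h => h.2)
  let σ : Representation ℂ (S.comap ι) (Fin n → ℂ) := R.comp j
  have hσc : σ.character = R'.character := by
    rw [hRf']
    funext h
    have h1 : σ.character h = R.character (j h) := rfl
    rw [h1, hRf]
    rfl
  have hσ : σ.IsIrreducible := by
    apply irreducible_of_sum
    rw [hσc]
    exact sum_char_self R'
  -- the operator
  let T : (Fin n → ℂ) →ₗ[ℂ] (Fin n → ℂ) := ∑ s : S, F s • (R s : (Fin n → ℂ) →ₗ[ℂ] (Fin n → ℂ))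
  have hT : ∀ x, T x = ∑ s : S, F s • R s x := by
    intro x
    simp [T, LinearMap.sum_apply]
  have hcomm : ∀ g x, T (σ g x) = σ g (T x) := by
    intro g x
    rw [hT, hT, map_sum]
    have h1 : ∀ s : S, σ g (F s • R s x) = F s • R (j g * s) x := by
      intro s
      rw [map_smul, map_mul]
      rfl
    have h2 : ∀ s : S, F s • R s (σ g x) = F s • R (s * j g) x := by
      intro s
      rw [map_mul]
      rfl
    simp only [h1, h2]
    -- substitute `s = j g * s' * (j g)⁻¹`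
    rw [← Equiv.sum_comp (MulAut.conj (j g)).toEquiv]
    refine Finset.sum_congr rfl fun s _ => ?_
    have h3 : ((MulAut.conj (j g)).toEquiv s : S) = j g * s * (j g)⁻¹ := rfl
    rw [h3]
    have h4 : F ((j g * s * (j g)⁻¹ : S) : B) = F s := hinv (g : G) g.2 (s : B)
    rw [h4, inv_mul_cancel_right]
  obtain ⟨c, hc⟩ := exists_scalar σ hσ T hcomm
  -- the scalar
  have hn : (R.character 1 : ℂ) ≠ 0 := IsIrr.one_ne_zero ⟨n, R, hR, rfl⟩
  have hcval : (∑ x, F x * f x) / f 1 = c := by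
    have hf1 : f 1 = R.character 1 := by
      rw [hRf]
      rfl
    rw [hf1, div_eq_iff hn, INTH.sum_restrict S F f hf.2]
    have h2 := congrArg (LinearMap.trace ℂ (Fin n → ℂ)) hc
    simp only [T] at h2
    rw [map_sum] at h2
    have h3 : ∀ s : S, LinearMap.trace ℂ (Fin n → ℂ) (F s • R s) = F s * f s := by
      intro s
      rw [map_smul, smul_eq_mul]
      congr 1
      exact congrFun hRf s
    simp only [h3] at h2
    rw [h2, map_smul, char_one]
    simp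
  rw [hcval]
  -- integrality
  have hn0 : n ≠ 0 := by
    rintro rfl
    apply hn
    rw [char_one]
    simp
  let i : Fin n := ⟨0, Nat.pos_of_ne_zero hn0⟩
  refine INTH.isIntegral_of_mem (S := S) (fun y => R y⁻¹ (Pi.single i 1) i) ⟨1, ?_⟩ c ?_
  · simp
  · intro x
    have h1 : c * R x⁻¹ (Pi.single i 1) i = ∑ s : S, F s * R (s⁻¹ * x)⁻¹ (Pi.single i 1) i := by
      have h2 : c • (Pi.single i 1 : Fin n → ℂ) = ∑ s : S, F s • R s (Pi.single i 1) := by
        rw [← hT, hc]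
        rfl
      have h3 := congrArg (fun u : Fin n → ℂ => R x⁻¹ u i) h2
      simp only [map_smul, map_sum, Pi.smul_apply, smul_eq_mul, Finset.sum_apply] at h3
      rw [h3]
      refine Finset.sum_congr rfl fun s _ => ?_
      rw [mul_inv_rev, inv_inv, map_mul]
      rfl
    rw [h1]
    refine Submodule.sum_mem _ fun s _ => ?_
    exact Submodule.smul_mem _ (⟨F s, hF s⟩ : integralClosure ℤ ℂ)
      (Submodule.subset_span ⟨s⁻¹ * x, rfl⟩)

section Sylow

variable {G : Type} [Group G] [Finite G] {ℓ : ℕ} [Fact ℓ.Prime]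

/-- Sylow's theorem in the subgroup `K`. -/
theorem conj_stb {P K : Subgroup G} (hPc : Nat.card P = ℓ) (hPi : ¬ ℓ ∣ P.index) (hPK : P ≤ K)
    (g : G) (hg : ∀ u ∈ P, g⁻¹ * u * g ∈ K) :
    ∃ c ∈ K, g * c ∈ stb ({P} : Finset (Subgroup G)) := by
  classical
  have hPg : IsPGroup ℓ P := IsPGroup.of_card (n := 1) (by rw [hPc, pow_one])
  -- the two Sylow subgroups of `K`
  let P1 : Subgroup K := P.subgroupOf K
  let e1 : P1 ≃* P := Subgroup.subgroupOfEquivOfLe hPK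
  have c1 : Nat.card P1 = ℓ := by rw [Nat.card_congr e1.toEquiv, hPc]
  have p1 : IsPGroup ℓ P1 := IsPGroup.of_card (n := 1) (by rw [c1, pow_one])
  have i1 : ¬ ℓ ∣ P1.index := by
    intro h
    exact hPi (h.trans (Subgroup.relIndex_dvd_index_of_le hPK))
  let Pg : Subgroup G := P.map (MulAut.conj g⁻¹).toMonoidHom
  have hPgK : Pg ≤ K := by
    rintro _ ⟨u, hu, rfl⟩
    have h1 : (MulAut.conj g⁻¹).toMonoidHom u = g⁻¹ * u * g := by
      change g⁻¹ * u * g⁻¹⁻¹ = _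
      rw [inv_inv]
    rw [h1]
    exact hg u hu
  have cPg : Nat.card Pg = ℓ := by
    have h1 : Function.Injective (MulAut.conj g⁻¹).toMonoidHom := (MulAut.conj g⁻¹).injective
    rw [Subgroup.card_map_of_injective h1, hPc]
  let P2 : Subgroup K := Pg.subgroupOf K
  let e2 : P2 ≃* Pg := Subgroup.subgroupOfEquivOfLe hPgK
  have c2 : Nat.card P2 = ℓ := by rw [Nat.card_congr e2.toEquiv, cPg]
  have p2 : IsPGroup ℓ P2 := IsPGroup.of_card (n := 1) (by rw [c2, pow_one])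
  have i2 : ¬ ℓ ∣ P2.index := by
    have h1 := P1.card_mul_index
    have h2 := P2.card_mul_index
    rw [c1] at h1
    rw [c2, ← h1] at h2
    have h3 := Nat.eq_of_mul_eq_mul_left (Fact.out : ℓ.Prime).pos h2
    rw [h3]
    exact i1
  let S1 : Sylow ℓ K := p1.toSylow i1
  let S2 : Sylow ℓ K := p2.toSylow i2
  obtain ⟨c, hc⟩ := MulAction.exists_smul_eq K S1 S2
  refine ⟨c, c.2, ?_⟩
  have key : ∀ u ∈ P, (g * c) * u * (g * c)⁻¹ ∈ P := by
    intro u hu
    have h1 : (⟨u, hPK hu⟩ : K) ∈ S1 := Subgroup.mem_subgroupOf.mpr hu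
    have h2 : c * ⟨u, hPK hu⟩ * c⁻¹ ∈ c • S1 :=
      Subgroup.smul_mem_pointwise_smul _ (MulAut.conj c) (S1 : Subgroup K) h1
    rw [hc] at h2
    have h3 : ((c * ⟨u, hPK hu⟩ * c⁻¹ : K) : G) ∈ Pg := Subgroup.mem_subgroupOf.mp h2
    obtain ⟨v, hv, hv'⟩ := h3
    have h4 : (MulAut.conj g⁻¹).toMonoidHom v = g⁻¹ * v * g := by
      change g⁻¹ * v * g⁻¹⁻¹ = _
      rw [inv_inv]
    rw [h4] at hv'
    have h5 : (g * c) * u * (g * c)⁻¹ = g * ((c * ⟨u, hPK hu⟩ * c⁻¹ : K) : G) * g⁻¹ := by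
      push_cast
      group
    rw [h5, ← hv']
    have h6 : g * (g⁻¹ * v * g) * g⁻¹ = v := by group
    rw [h6]
    exact hv
  rw [mem_stb]
  intro D hD
  rw [Finset.mem_singleton] at hD
  subst hD
  apply Subgroup.eq_of_le_of_card_ge
  · rintro _ ⟨u, hu, rfl⟩
    exact key u hu
  · have h1 : Function.Injective (MulAut.conj (g * c)).toMonoidHom :=
      (MulAut.conj (g * c)).injective
    rw [Subgroup.card_map_of_injective h1]

theorem degree {P : Subgroup G} (hPc : Nat.card P = ℓ) (hPi : ¬ ℓ ∣ P.index)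
    (𝔐 : Ideal (integralClosure ℤ ℂ)) [𝔐.IsPrime] (hℓ : (ℓ : integralClosure ℤ ℂ) ∈ 𝔐)
    {ψ : G → ℂ} (hψ : IrrOn (stb {P}) ψ) : ∃ n : ℕ, ψ 1 = n ∧ ¬ ℓ ∣ n := by
  classical
  let _ : Fintype (stb ({P} : Finset (Subgroup G))) := Fintype.ofFinite _
  have hPg : IsPGroup ℓ P := IsPGroup.of_card (n := 1) (by rw [hPc, pow_one])
  obtain ⟨n, hn, hn'⟩ := hψ.1.exists_degree
  obtain ⟨m, hm⟩ := hψ.1.degree_dvd hn'
  refine ⟨n, hn', fun hdvd => ?_⟩
  have hle : P ≤ stb ({P} : Finset (Subgroup G)) := by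
    intro u hu
    rw [mem_stb]
    intro D hD
    rw [Finset.mem_singleton] at hD
    subst hD
    have h1 : Function.Injective (MulAut.conj u).toMonoidHom := (MulAut.conj u).injective
    apply Subgroup.eq_of_le_of_card_ge
    · rintro _ ⟨v, hv, rfl⟩
      exact mul_mem (mul_mem hu hv) (inv_mem hu)
    · rw [Subgroup.card_map_of_injective h1]
  have hnor : (P.subgroupOf (stb {P})).Normal := by
    constructor
    intro y hy g
    rw [Subgroup.mem_subgroupOf] at hy ⊢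
    have h1 := (mem_stb.mp g.2) P (Finset.mem_singleton_self P)
    have h2 : (MulAut.conj (g : G)).toMonoidHom (y : G) ∈
        P.map (MulAut.conj (g : G)).toMonoidHom := ⟨_, hy, rfl⟩
    rw [h1] at h2
    exact h2
  have hQ : IsPGroup ℓ (P.subgroupOf (stb {P})) :=
    hPg.of_injective (Subgroup.subgroupOfEquivOfLe hle).toMonoidHom
      (Subgroup.subgroupOfEquivOfLe hle).injective
  have hne : P.subgroupOf (stb {P}) ≠ ⊥ := by
    intro h
    have h1 : Nat.card (P.subgroupOf (stb ({P} : Finset (Subgroup G)))) = ℓ := by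
      rw [Nat.card_congr (Subgroup.subgroupOfEquivOfLe hle).toEquiv, hPc]
    rw [h, Subgroup.card_bot] at h1
    exact (Fact.out : ℓ.Prime).one_lt.ne h1
  have h0 := no_defect_zero 𝔐 hℓ (P.subgroupOf (stb {P})) hQ hne hψ.1
  have hn0 : (n : ℂ) ≠ 0 := by exact_mod_cast hn.ne'
  have h1 : (Nat.card (stb ({P} : Finset (Subgroup G))) : ℂ) / (fun s : stb ({P} :
      Finset (Subgroup G)) => ψ s) 1 = (m : ℂ) := by
    change (Nat.card (stb ({P} : Finset (Subgroup G))) : ℂ) /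
      ψ ((1 : stb ({P} : Finset (Subgroup G))) : G) = m
    have h5 : ψ ((1 : stb ({P} : Finset (Subgroup G))) : G) = n := hn'
    rw [h5, hm]
    push_cast
    field_simp
  rw [h1] at h0
  have h2 : ℓ ∣ m := by
    by_contra h
    exact red_card_ne_zero 𝔐 hℓ h h0
  -- the order of `G` is not divisible by `ℓ ^ 2`
  have h3 : ℓ * ℓ ∣ Nat.card (stb ({P} : Finset (Subgroup G))) := by
    rw [hm]
    exact Nat.mul_dvd_mul hdvd h2
  have h4 : ℓ * ℓ ∣ Nat.card G := h3.trans (Subgroup.card_subgroup_dvd_card _)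
  rw [← P.card_mul_index, hPc] at h4
  exact hPi (Nat.dvd_of_mul_dvd_mul_left (Fact.out : ℓ.Prime).pos h4)

end Sylow

theorem le_stb {G : Type} [Group G] [Finite G] (P : Subgroup G) :
    P ≤ stb ({P} : Finset (Subgroup G)) := by
  intro u hu
  rw [mem_stb]
  intro D hD
  rw [Finset.mem_singleton] at hD
  subst hD
  have h1 : Function.Injective (MulAut.conj u).toMonoidHom := (MulAut.conj u).injective
  apply Subgroup.eq_of_le_of_card_ge
  · rintro _ ⟨v, hv, rfl⟩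
    exact mul_mem (mul_mem hu hv) (inv_mem hu)
  · rw [Subgroup.card_map_of_injective h1]

theorem isIntegral_cjT {B : Type} [Group B] (T : Subgroup B) (x t : B) :
    IsIntegral ℤ (cjT T x t) := by
  rw [cjT]
  split_ifs
  · exact isIntegral_one
  · exact isIntegral_zero

theorem cjT_congr {B : Type} [Group B] {T T' : Subgroup B} {x x' t : B}
    (h : (∃ r ∈ T, x = r * t * r⁻¹) ↔ ∃ r ∈ T', x' = r * t * r⁻¹) :
    cjT T x t = cjT T' x' t := by
  rw [cjT, cjT]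
  by_cases hx : ∃ r ∈ T, x = r * t * r⁻¹
  · rw [if_pos hx, if_pos (h.mp hx)]
  · rw [if_neg hx, if_neg (fun hx' => hx (h.mpr hx'))]

theorem cjT_conj {B : Type} [Group B] {T : Subgroup B} {s : B} (hs : s ∈ T) (x t : B) :
    cjT T (s * x * s⁻¹) t = cjT T x t := by
  have h : (∃ r ∈ T, s * x * s⁻¹ = r * t * r⁻¹) ↔ ∃ r ∈ T, x = r * t * r⁻¹ := by
    constructor
    · rintro ⟨r, hr, h⟩
      refine ⟨s⁻¹ * r, mul_mem (inv_mem hs) hr, ?_⟩
      have h1 : x = s⁻¹ * (s * x * s⁻¹) * s := by group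
      rw [h1, h]
      group
    · rintro ⟨r, hr, rfl⟩
      exact ⟨s * r, mul_mem hs hr, by group⟩
  exact cjT_congr h

/-- Part (a). -/
theorem partA {G B C : Type} [Group G] [Fintype G] [Group B] [Fintype B] [Group C]
    (𝔐 : Ideal (integralClosure ℤ ℂ)) {ℓ : ℕ} [Fact ℓ.Prime] [𝔐.IsPrime]
    (hℓ : (ℓ : integralClosure ℤ ℂ) ∈ 𝔐) {ι : G →* B} {κ : B →* MulAut G} {ρ : B →* C}
    (hV : ClG ι κ ρ) {P : Subgroup G} (hPc : Nat.card P = ℓ) (hPi : ¬ ℓ ∣ P.index)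
    {ψ : G → ℂ} (hψ : IrrOn (stb {P}) ψ) {L : Subgroup C} {f : B → ℂ}
    (hf : ExtL ι κ ρ {P} ψ L f) {t : B} (htP : ∀ u ∈ P, κ t u = u) :
    cgT 𝔐 ι.range f t = cgT 𝔐 ((stb {P}).map ι) f t := by
  classical
  have hPg : IsPGroup ℓ P := IsPGroup.of_card (n := 1) (by rw [hPc, pow_one])
  obtain ⟨n, hn, hn'⟩ := degree hPc hPi 𝔐 hℓ hψ
  have hcom : (Stx κ {P} ψ ⊓ L.comap ρ).comap ι = stb {P} := LTR.comap_Stx hV hψ L
  have hfι : (fun h => f (ι h)) = ψ := funext hf.2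
  have hres : IrrOn ((Stx κ {P} ψ ⊓ L.comap ρ).comap ι) (fun h => f (ι h)) := by
    rw [hcom, hfι]
    exact hψ
  have hf1 : f 1 = n := by
    rw [← map_one ι, hf.2, hn]
  have hfint : ∀ x, IsIntegral ℤ (f x) := by
    intro x
    by_cases hx : x ∈ Stx κ {P} ψ ⊓ L.comap ρ
    · exact isIntegral_char hf.1.1 ⟨x, hx⟩
    · rw [hf.1.2 x hx]
      exact isIntegral_zero
  have i1 : IsIntegral ℤ ((∑ x, cjT ι.range x t * f x) / f 1) := by
    apply intN ι _ f hf.1 hres _ (fun x => isIntegral_cjT _ _ _)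
    intro h _ x
    exact cjT_conj (MonoidHom.mem_range.mpr ⟨h, rfl⟩) x t
  have i2 : IsIntegral ℤ ((∑ x, cjT ((stb {P}).map ι) x t * f x) / f 1) := by
    apply intN ι _ f hf.1 hres _ (fun x => isIntegral_cjT _ _ _)
    intro h hh x
    rw [hcom] at hh
    exact cjT_conj (Subgroup.mem_map.mpr ⟨h, hh, rfl⟩) x t
  -- the classes agree on the fixed points
  have hκ : ∀ (x : B) (u : G), (ι u) * x * (ι u)⁻¹ = x ↔ κ x u = u := by
    intro x u
    constructor
    · intro h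
      apply hV.inj
      rw [hV.act]
      have h1 : ι u * x = x * ι u := by
        rw [← mul_inv_eq_iff_eq_mul]
        exact h
      rw [← h1]
      group
    · intro h
      have h1 := hV.act x u
      rw [h] at h1
      have h2 : ι u * x = x * ι u := by
        conv_lhs => rw [h1]
        group
      rw [h2]
      group
  have hfix : ∀ x : B, (∀ u ∈ P, κ x u = u) →
      cjT ι.range x t = cjT ((stb {P}).map ι) x t := by
    intro x hx
    have h : (∃ s ∈ ι.range, x = s * t * s⁻¹) ↔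
        ∃ s ∈ (stb ({P} : Finset (Subgroup G))).map ι, x = s * t * s⁻¹ := by
      constructor
      · rintro ⟨_, ⟨g, rfl⟩, hg⟩
        let K : Subgroup G :=
          { carrier := {h | κ t h = h}
            one_mem' := map_one _
            mul_mem' := fun {a b} ha hb => by
              change κ t (a * b) = a * b
              rw [map_mul, show κ t a = a from ha, show κ t b = b from hb]
            inv_mem' := fun {a} ha => by
              change κ t a⁻¹ = a⁻¹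
              rw [map_inv, show κ t a = a from ha] }
        obtain ⟨c, hc, hgc⟩ := conj_stb hPc hPi (P := P) (K := K) (fun u hu => htP u hu) g (by
          intro u hu
          change κ t (g⁻¹ * u * g) = g⁻¹ * u * g
          rw [← hκ]
          have h1 := (hκ x u).mpr (hx u hu)
          rw [hg] at h1
          have h2 : ι (g⁻¹ * u * g) * t * (ι (g⁻¹ * u * g))⁻¹ =
              (ι g)⁻¹ * (ι u * (ι g * t * (ι g)⁻¹) * (ι u)⁻¹) * ι g := by
            rw [map_mul, map_mul, map_inv]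
            group
          rw [h2, h1]
          group)
        refine ⟨ι (g * c), ⟨g * c, hgc, rfl⟩, ?_⟩
        have h3 : ι c * t * (ι c)⁻¹ = t := (hκ t c).mpr hc
        have h4 : ι (g * c) * t * (ι (g * c))⁻¹ = ι g * (ι c * t * (ι c)⁻¹) * (ι g)⁻¹ := by
          rw [map_mul]
          group
        rw [h4, h3, hg]
      · rintro ⟨_, ⟨g, _, rfl⟩, hg⟩
        exact ⟨ι g, ⟨g, rfl⟩, hg⟩
    exact cjT_congr h
  -- the sums
  have hsum : red 𝔐 (∑ x, cjT ι.range x t * f x) =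
      red 𝔐 (∑ x, cjT ((stb {P}).map ι) x t * f x) := by
    rw [red_sum 𝔐 _ _ fun x _ => (isIntegral_cjT _ _ _).mul (hfint x),
      red_sum 𝔐 _ _ fun x _ => (isIntegral_cjT _ _ _).mul (hfint x)]
    let act : MulAction P B :=
      { smul := fun u x => ι (u : G) * x * (ι (u : G))⁻¹
        one_smul := fun x => by
          change ι ((1 : P) : G) * x * (ι ((1 : P) : G))⁻¹ = x
          rw [Subgroup.coe_one, map_one]
          group
        mul_smul := fun a b x => by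
          change ι ((a * b : P) : G) * x * (ι ((a * b : P) : G))⁻¹ =
            ι (a : G) * (ι (b : G) * x * (ι (b : G))⁻¹) * (ι (a : G))⁻¹
          rw [Subgroup.coe_mul, map_mul]
          group }
    have hsmul : ∀ (u : P) (x : B), u • x = ι (u : G) * x * (ι (u : G))⁻¹ := fun _ _ => rfl
    have hfP : ∀ (u : P) (x : B), f (u • x) = f x := by
      intro u x
      rw [hsmul]
      have hu : ι (u : G) ∈ Stx κ {P} ψ ⊓ L.comap ρ := by
        have h1 : (u : G) ∈ (Stx κ {P} ψ ⊓ L.comap ρ).comap ι := by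
          rw [hcom]
          exact le_stb P u.2
        exact h1
      by_cases hx : x ∈ Stx κ {P} ψ ⊓ L.comap ρ
      · exact hf.1.1.conj_eq (⟨ι (u : G), hu⟩ : ↥(Stx κ {P} ψ ⊓ L.comap ρ)) ⟨x, hx⟩
      · rw [hf.1.2 x hx, hf.1.2]
        intro h1
        apply hx
        have h2 := mul_mem (mul_mem (inv_mem hu) h1) hu
        have h3 : (ι (u : G))⁻¹ * (ι (u : G) * x * (ι (u : G))⁻¹) * ι (u : G) = x := by group
        rwa [h3] at h2
    rw [sum_eq_sum_fixed hPg (nsmul_quot_eq_zero 𝔐 hℓ) (fun x => red 𝔐 (cjT ι.range x t * f x)),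
      sum_eq_sum_fixed hPg (nsmul_quot_eq_zero 𝔐 hℓ)
        (fun x => red 𝔐 (cjT ((stb {P}).map ι) x t * f x))]
    · refine Finset.sum_congr rfl fun x hx => ?_
      have hx' := (Finset.mem_filter.mp hx).2
      rw [hfix x]
      intro u hu
      exact (hκ x u).mp (hx' ⟨u, hu⟩)
    · intro u x
      change red 𝔐 (cjT ((stb {P}).map ι) (u • x) t * f (u • x)) = _
      rw [hfP, hsmul, cjT_conj (Subgroup.mem_map.mpr ⟨(u : G), le_stb P u.2, rfl⟩)]
    · intro u x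
      change red 𝔐 (cjT ι.range (u • x) t * f (u • x)) = _
      rw [hfP, hsmul, cjT_conj (MonoidHom.mem_range.mpr ⟨(u : G), rfl⟩)]
  have hn0 : f 1 ≠ 0 := by
    rw [hf1]
    rintro h
    apply hn'
    have : n = 0 := by exact_mod_cast h
    rw [this]
    exact dvd_zero _
  have hf1i : IsIntegral ℤ (f 1) := hfint 1
  have hr : red 𝔐 (f 1) ≠ 0 := by
    rw [hf1]
    exact red_card_ne_zero 𝔐 hℓ hn'
  rw [cgT, cgT]
  apply mul_left_cancel₀ hr
  rw [← red_mul 𝔐 hf1i i1, ← red_mul 𝔐 hf1i i2, mul_div_cancel₀ _ hn0, mul_div_cancel₀ _ hn0]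
  exact hsum

/-- Part (b). -/
theorem partB {G : Type} [Group G] [Fintype G]
    (𝔐 : Ideal (integralClosure ℤ ℂ)) {ℓ : ℕ} [Fact ℓ.Prime] [𝔐.IsPrime]
    (hℓ : (ℓ : integralClosure ℤ ℂ) ∈ 𝔐) {P : Subgroup G} (hPc : Nat.card P = ℓ)
    (hPi : ¬ ℓ ∣ P.index) {a : G → ℂ} (ha : ∀ n ∈ stb {P}, ∀ x, a (n * x * n⁻¹) = a x)
    (hai : ∀ x, IsIntegral ℤ (a x))
    (hac : ∀ x, x ∉ Subgroup.centralizer (P : Set G) → a x = 0) :
    ∃ A : G → ℂ, ∀ ψ : G → ℂ, IrrOn (stb {P}) ψ →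
      red 𝔐 (wt ψ a) = pair 𝔐 A (cg 𝔐 ψ) := by
  classical
  have hPg : IsPGroup ℓ P := IsPGroup.of_card (n := 1) (by rw [hPc, pow_one])
  -- well defined
  have hwd : ∀ y ∈ Subgroup.centralizer (P : Set G), ∀ g : G,
      g * y * g⁻¹ ∈ Subgroup.centralizer (P : Set G) → a (g * y * g⁻¹) = a y := by
    intro y hy g hg
    rw [Subgroup.mem_centralizer_iff] at hy hg
    obtain ⟨c, hc, hgc⟩ := conj_stb hPc hPi (P := P) (K := Subgroup.centralizer {y}) (by
      intro u hu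
      rw [Subgroup.mem_centralizer_singleton_iff]
      exact hy u hu) g (by
      intro u hu
      rw [Subgroup.mem_centralizer_singleton_iff]
      have h1 := hg u hu
      have h2 : g⁻¹ * u * g * y = g⁻¹ * (u * (g * y * g⁻¹)) * g := by group
      rw [h2, h1]
      group)
    rw [Subgroup.mem_centralizer_singleton_iff] at hc
    have h3 := ha (g * c) hgc y
    have h4 : g * c * y * (g * c)⁻¹ = g * y * g⁻¹ := by
      have h5 : g * c * y * (g * c)⁻¹ = g * (c * y) * c⁻¹ * g⁻¹ := by group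
      rw [h5, hc]
      group
    rw [h4] at h3
    exact h3
  let A : G → ℂ := fun x =>
    if h : ∃ y ∈ Subgroup.centralizer (P : Set G), ∃ g, g * y * g⁻¹ = x then a h.choose else 0
  have hA : ∀ y ∈ Subgroup.centralizer (P : Set G), ∀ g, A (g * y * g⁻¹) = a y := by
    intro y hy g
    have h : ∃ y' ∈ Subgroup.centralizer (P : Set G), ∃ g', g' * y' * g'⁻¹ = g * y * g⁻¹ :=
      ⟨y, hy, g, rfl⟩
    have h1 : A (g * y * g⁻¹) = a h.choose := dif_pos h
    rw [h1]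
    obtain ⟨h2, g', hg'⟩ := h.choose_spec
    have h3 : h.choose = (g'⁻¹ * g) * y * (g'⁻¹ * g)⁻¹ := by
      have h4 : h.choose = g'⁻¹ * (g' * h.choose * g'⁻¹) * g' := by group
      rw [h4, hg']
      group
    rw [h3] at h2 ⊢
    exact hwd y hy _ h2
  have hA0 : ∀ x, (¬ ∃ y ∈ Subgroup.centralizer (P : Set G), ∃ g, g * y * g⁻¹ = x) → A x = 0 :=
    fun x h => dif_neg h
  have hAcl : ∀ g x, A (g * x * g⁻¹) = A x := by
    intro g x
    by_cases h : ∃ y ∈ Subgroup.centralizer (P : Set G), ∃ g', g' * y * g'⁻¹ = x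
    · obtain ⟨y, hy, g', rfl⟩ := h
      have h1 : g * (g' * y * g'⁻¹) * g⁻¹ = (g * g') * y * (g * g')⁻¹ := by group
      rw [h1, hA y hy, hA y hy]
    · rw [hA0 x h, hA0]
      rintro ⟨y, hy, g', h1⟩
      apply h
      refine ⟨y, hy, g⁻¹ * g', ?_⟩
      have h2 : x = g⁻¹ * (g * x * g⁻¹) * g := by group
      rw [h2, ← h1]
      group
  have hAi : ∀ x, IsIntegral ℤ (A x) := by
    intro x
    by_cases h : ∃ y ∈ Subgroup.centralizer (P : Set G), ∃ g', g' * y * g'⁻¹ = x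
    · obtain ⟨y, hy, g', rfl⟩ := h
      rw [hA y hy]
      exact hai y
    · rw [hA0 x h]
      exact isIntegral_zero
  refine ⟨A, fun ψ hψ => ?_⟩
  let _ : Fintype (stb ({P} : Finset (Subgroup G))) := Fintype.ofFinite _
  have hnor : (P.subgroupOf (stb {P})).Normal := by
    constructor
    intro y hy g
    rw [Subgroup.mem_subgroupOf] at hy ⊢
    have h1 := (mem_stb.mp g.2) P (Finset.mem_singleton_self P)
    have h2 : (MulAut.conj (g : G)).toMonoidHom (y : G) ∈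
        P.map (MulAut.conj (g : G)).toMonoidHom := ⟨_, hy, rfl⟩
    rw [h1] at h2
    exact h2
  have hQ : IsPGroup ℓ (P.subgroupOf (stb {P})) :=
    hPg.of_injective (Subgroup.subgroupOfEquivOfLe (le_stb P)).toMonoidHom
      (Subgroup.subgroupOfEquivOfLe (le_stb P)).injective
  have h1 : red 𝔐 (wt (fun s : stb ({P} : Finset (Subgroup G)) => ψ s) (fun s => a s)) =
      red 𝔐 (wt (fun s : stb ({P} : Finset (Subgroup G)) => ψ s) (fun s => A s)) := by
    apply red_wt_eq 𝔐 hℓ hψ.1 (P.subgroupOf (stb {P})) hQ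
    · intro g x
      exact ha g g.2 x
    · exact fun x => hai x
    · intro g x
      exact hAcl g x
    · exact fun x => hAi x
    · intro y hy
      have hy' : (y : G) ∈ Subgroup.centralizer (P : Set G) := by
        rw [Subgroup.mem_centralizer_iff]
        intro q hq
        exact congrArg Subtype.val (hy ⟨q, le_stb P hq⟩ (Subgroup.mem_subgroupOf.mpr hq))
      have h2 := hA (y : G) hy' 1
      rw [one_mul, inv_one, mul_one] at h2
      rw [h2]
  have h2 := red_wt_eq_pair 𝔐 (stb ({P} : Finset (Subgroup G))).subtype hψ.1 A hAcl hAi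
  have h3 : cen 𝔐 (stb ({P} : Finset (Subgroup G))).subtype
      (fun s : stb ({P} : Finset (Subgroup G)) => ψ s) = cg 𝔐 ψ :=
    funext fun g => AA.cg_eq 𝔐 (stb {P}) hψ g
  rw [← AA.wt_sub (stb {P}) hψ.2 a, h1, ← h3]
  exact h2

end BRV

open _root_.Pool.Agent.DPV.BRV in
theorem BRV_thm : Stmt_BRV := by
  intro G B C _ _ _ _ _ 𝔐 ℓ _ h𝔐 hℓ ι κ ρ hV _ P hPc hPi
  have hprime : 𝔐.IsPrime := h𝔐.isPrime
  refine ⟨?_, ?_⟩
  · intro ψ hψ L _ f hf t _ htP
    exact partA 𝔐 hℓ hV.cl hPc hPi hψ hf htP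
  · intro ψ ψ' hψ hψ' hcg a ha hai hac
    obtain ⟨A, hA⟩ := partB 𝔐 hℓ hPc hPi ha hai hac
    have h1 : cg 𝔐 ψ = cg 𝔐 ψ' := funext hcg
    rw [hA ψ hψ, hA ψ' hψ', h1]

end Pool.Agent.DPV


end

section

set_option linter.unusedSectionVars false

/-!
# Theorem R: module MINDR
-/

namespace Pool.Agent.DPC

open Pool.Agent.DP

open Pool.Agent.Lib_helper13 Representation

namespace MINDR

theorem conjInd_class {Y X : Type} [Group Y] [Group X] (i : Y →* X) (x : X) (a y : Y) :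
    conjInd (i (a * y * a⁻¹)) x = conjInd (i y) x := by
  rw [map_mul, map_mul, map_inv, conjInd_conj]

/-- Equal central functions: equal counts. -/
theorem core (h1 : Stmt_ASH) (h2 : Stmt_ASC) (O G B C Y K X : Type) [Fintype O] [DecidableEq O]
    [Group G] [Fintype G] [Group B] [Fintype B] [Group C] [Group Y] [Fintype Y] [Group K]
    [Finite K] [Group X] (𝔐 : Ideal (integralClosure ℤ ℂ)) (ℓ : ℕ) [Fact ℓ.Prime]
    (hM : 𝔐.IsMaximal) (hℓ : (ℓ : integralClosure ℤ ℂ) ∈ 𝔐)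
    (ι : G →* B) (κ : B →* MulAut G) (ρ : B →* C) (hloc : LocW ℓ ι κ ρ)
    (j : (O → G) →* Y) (p : Y →* K) (φ : Y →* Gam (Equiv.Perm O) O B) (hext : ExtS ι κ j p φ)
    (J : Subgroup K) (g g' : O → B) (S S' : O → Subgroup B) (θ θ' : O → B → ℂ)
    (m m' : O → ℕ) (M M' : O → B → ℕ → ℕ → ℂ)
    (hS : SDR ℓ ι ρ p φ J g S θ m M) (hS' : SDR ℓ ι ρ p φ J g' S' θ' m' M')
    (hg : ∀ o, ρ (g' o) = ρ (g o)) (hc : ∀ o, cgT 𝔐 ι.range (θ o) = cgT 𝔐 ι.range (θ' o))
    (d e : ℕ) (i : Y →* X) (ω : X → (integralClosure ℤ ℂ) ⧸ 𝔐) :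
    NNR 𝔐 ℓ d i ω p φ J e g' S' θ' m' M' = NNR 𝔐 ℓ d i ω p φ J e g S θ m M := by
  have hAS : ∀ (k : J) (x : X),
      IsIntegral ℤ (AS p φ g S θ m M (k : K) (fun y => conjInd (i y) x)) ∧
      IsIntegral ℤ (AS p φ g' S' θ' m' M' (k : K) (fun y => conjInd (i y) x)) ∧
      red 𝔐 (AS p φ g S θ m M (k : K) (fun y => conjInd (i y) x)) =
      red 𝔐 (AS p φ g' S' θ' m' M' (k : K) (fun y => conjInd (i y) x)) := by
    intro k x
    exact h1 O G B C Y K 𝔐 ℓ hM hℓ ι κ ρ hloc j p φ hext J g g' S S' θ θ' m m' M M' hS hS'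
      hg hc (k : K) k.2 (fun y => conjInd (i y) x) (fun a y => conjInd_class i x a y)
      (fun y => isIntegral_conjInd _ _)
  have hcl : ∀ (x : X) (l k : J),
      AS p φ g S θ m M ((l * k * l⁻¹ : J) : K) (fun y => conjInd (i y) x) =
      AS p φ g S θ m M (k : K) (fun y => conjInd (i y) x) := by
    intro x l k
    exact h2 O G B C Y K ℓ ι κ ρ hloc j p φ hext J g S θ m M hS (k : K) k.2 (l : K) l.2
      (fun y => conjInd (i y) x) (fun a y => conjInd_class i x a y)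
  have hcl' : ∀ (x : X) (l k : J),
      AS p φ g' S' θ' m' M' ((l * k * l⁻¹ : J) : K) (fun y => conjInd (i y) x) =
      AS p φ g' S' θ' m' M' (k : K) (fun y => conjInd (i y) x) := by
    intro x l k
    exact h2 O G B C Y K ℓ ι κ ρ hloc j p φ hext J g' S' θ' m' M' hS' (k : K) k.2 (l : K) l.2
      (fun y => conjInd (i y) x) (fun a y => conjInd_class i x a y)
  have hprime : 𝔐.IsPrime := hM.isPrime
  have key : ∀ (η : J → ℂ), IsIrr η → ∀ x : X,
      red 𝔐 (wt η (fun k => AS p φ g S θ m M (k : K) (fun y => conjInd (i y) x))) =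
      red 𝔐 (wt η (fun k => AS p φ g' S' θ' m' M' (k : K) (fun y => conjInd (i y) x))) := by
    intro η hη x
    exact red_wt_eq 𝔐 hℓ hη (⊥ : Subgroup J) IsPGroup.of_bot _ _
      (fun l k => hcl x l k) (fun k => (hAS k x).1) (fun l k => hcl' x l k)
      (fun k => (hAS k x).2.1) (fun k _ => (hAS k x).2.2)
  have hset : ∀ η : J → ℂ,
      (IsIrr η ∧ (∃ d', HasDefect ℓ η d' ∧ e + d' = d) ∧
        ∀ x, red 𝔐 (wt η (fun k => AS p φ g' S' θ' m' M' (k : K)
          (fun y => conjInd (i y) x))) = ω x) ↔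
      (IsIrr η ∧ (∃ d', HasDefect ℓ η d' ∧ e + d' = d) ∧
        ∀ x, red 𝔐 (wt η (fun k => AS p φ g S θ m M (k : K)
          (fun y => conjInd (i y) x))) = ω x) := by
    intro η
    constructor
    · rintro ⟨ha, hb, hc⟩
      exact ⟨ha, hb, fun x => (key η ha x).trans (hc x)⟩
    · rintro ⟨ha, hb, hc⟩
      exact ⟨ha, hb, fun x => (key η ha x).symm.trans (hc x)⟩
  unfold NNR
  rw [Nat.card_congr (Equiv.subtypeEquivRight hset)]

end MINDR

theorem MINDR_thm (h1 : Stmt_ASH) (h2 : Stmt_ASC) (h3 : Stmt_TWR) : Stmt_MINDR := by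
  classical
  intro O G B C Y K X _ _ _ _ _ _ _ _ _ _ _ _ 𝔐 ℓ _ hM hℓ ι κ ρ hloc j p φ hext J g g' S S'
    θ θ' m m' M M' hS hS' hg hlam d e i ω
  -- a choice of the twist which depends only on the two characters
  let Lm : (B → ℂ) → (B → ℂ) → (C →* ℂˣ) := fun f f' =>
    if h : ∃ lam : C →* ℂˣ, cgT 𝔐 ι.range f' =
      cgT 𝔐 ι.range (fun x => f x * ((lam (ρ x) : ℂˣ) : ℂ)) then h.choose else 1
  have hLm : ∀ o, cgT 𝔐 ι.range (θ' o) =
      cgT 𝔐 ι.range (fun x => θ o x * ((Lm (θ o) (θ' o) (ρ x) : ℂˣ) : ℂ)) := by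
    intro o
    have h := hlam o
    simp only [Lm, dif_pos h]
    exact h.choose_spec
  obtain ⟨hS1, hN⟩ := h3 O G B C Y K X 𝔐 ℓ ι κ ρ hloc j p φ hext J g S θ m M hS
    (fun o => Lm (θ o) (θ' o)) (by
      intro y hy o
      show Lm (θ ((φ y).right • o)) (θ' ((φ y).right • o)) = Lm (θ o) (θ' o)
      rw [hS.cθ y hy o, hS'.cθ y hy o])
  rw [← hN d e i ω]
  exact MINDR.core h1 h2 O G B C Y K X 𝔐 ℓ hM hℓ ι κ ρ hloc j p φ hext J g g' S S' _ θ' m m' _ M'
    hS1 hS' hg (fun o => (hLm o).symm) d e i ω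

end Pool.Agent.DPC


end

section

/-!
# LIFT: transports and the group of the data
-/

namespace Pool.Agent.DPC

open Pool.Agent.DP

open Pool.Agent.Lib_helper13 Representation
open Pool.Agent.Lib_helper13.Dade (pCore DadeHolds)

namespace LIFT

variable {O G B C Y K : Type*} [Group G] [Group B] [Group C] [Group Y] [Group K]

theorem vg_mono (ρ : B →* C) (p : Y →* K) (φ : Y →* Gam (Equiv.Perm O) O B) {J J' : Subgroup K}
    (h : J ≤ J') (o : O) : vg ρ p φ J o ≤ vg ρ p φ J' o := by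
  rintro c ⟨y, hy1, hy2, hy3⟩
  exact ⟨y, h hy1, hy2, hy3⟩

theorem exists_iota {ι : G →* B} {κ : B →* MulAut G} {ρ : B →* C} (h : ClG ι κ ρ) {a b : B}
    (hab : ρ a = ρ b) : ∃ x, a = ι x * b := by
  have h1 : ρ (a * b⁻¹) = 1 := by rw [map_mul, map_inv, hab, mul_inv_cancel]
  obtain ⟨x, hx⟩ := (h.ker _).mp h1
  exact ⟨x, by rw [hx, inv_mul_cancel_right]⟩

end LIFT

open _root_.Pool.Agent.DPC.LIFT in
theorem LIFT_thm (h1 : Stmt_TRBR) (h2 : Stmt_REPJ) (h3 : Stmt_PERAR) (h4 : Stmt_CGT) :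
    Stmt_LIFT := by
  intro O G B C Y K _ _ _ _ _ _ _ _ _ _ _ 𝔐 ℓ _ ι κ ρ hL j p φ hE J r t hr τ hτ θ hθ g hg htr
  obtain ⟨-, -, hrep⟩ := h2 O G B C Y K ℓ ι κ ρ hL j p φ hE J
  obtain ⟨hrr, hvg, hzz⟩ := hrep r t hr
  obtain ⟨hst, htrb⟩ := h1 O G B C 𝔐 ℓ ι κ ρ hL τ θ hθ
  constructor
  · constructor
    · intro hJ o
      obtain ⟨-, -, -, -, h5⟩ := h3 O G B C Y K ℓ ι κ ρ hL j p φ hE τ hτ θ hθ
      exact (vg_mono ρ p φ hJ (r o)).trans (h5 (r o))
    · intro hJ k hk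
      obtain ⟨y0, rfl⟩ := hE.surj k
      have hr' : ∀ o, r ((φ y0).right⁻¹ • o) = r o := by
        intro o
        have := hr.con y0⁻¹ (by rw [map_inv]; exact J.inv_mem hk) o
        rw [map_inv, SemidirectProduct.inv_right] at this
        exact this
      have hx : ∀ o, ∃ x, ι x * zz φ g y0 o ∈ Stx κ (comp τ (r o)) (θ (r o)) := by
        intro o
        obtain ⟨s, hs, hs'⟩ := hJ o (hzz y0 hk g hg o)
        obtain ⟨x, hx⟩ := exists_iota hL.cl hs'
        exact ⟨x, by rw [← hx]; exact hs⟩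
      choose x hx using hx
      refine ⟨j (fun o => κ (g o) (x o)) * y0, ?_, ?_⟩
      · intro o
        have e1 : (φ (j (fun o => κ (g o) (x o)) * y0)).right = (φ y0).right := by
          rw [map_mul, hE.jn, SemidirectProduct.mul_right, SemidirectProduct.right_inl, one_mul]
        have e2 : (φ (j (fun o => κ (g o) (x o)) * y0)).left o =
            g o * (ι (x o) * zz φ g y0 o) * (g ((φ y0).right⁻¹ • o))⁻¹ := by
          rw [map_mul, hE.jn, SemidirectProduct.mul_left, SemidirectProduct.left_inl,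
            SemidirectProduct.right_inl, map_one, MulAut.one_apply, Pi.mul_apply, hL.cl.act, zz]
          group
        rw [e1, e2]
        have t1 : trB κ τ θ ((φ y0).right⁻¹ • o) (r o) (g ((φ y0).right⁻¹ • o))⁻¹ := by
          have := (htr ((φ y0).right⁻¹ • o)).inv
          rw [hr' o] at this
          exact this
        have t2 : trB κ τ θ (r o) (r o) (ι (x o) * zz φ g y0 o) := (hst _ _).mpr (hx o)
        rw [mul_assoc]
        exact (htr o).mul (t2.mul t1)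
      · rw [map_mul]
        have : p (j (fun o => κ (g o) (x o))) = 1 := (hE.cl.ker _).mpr ⟨_, rfl⟩
        rw [this, one_mul]
  · intro o
    unfold bts
    rw [← hvg o, (htrb (r o) o (g o) (htr o)).2.2.2.2.2]
    refine Set.image_congr ?_
    rintro _ ⟨f, -, rfl⟩
    obtain ⟨n, hn⟩ := exists_iota hL.cl (hg o)
    obtain ⟨-, -, -, -, h5⟩ := h4 G B C 𝔐 ι κ ρ hL.cl
    funext x
    have e : (g o)⁻¹ * x * g o = ι (κ ((φ (t o)).left o)⁻¹ n⁻¹) *
        (((φ (t o)).left o)⁻¹ * x * (φ (t o)).left o) *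
        (ι (κ ((φ (t o)).left o)⁻¹ n⁻¹))⁻¹ := by
      rw [hn, hL.cl.act, map_inv]
      group
    rw [e, h5]

end Pool.Agent.DPC


end

section

/-!
# Module LZC: the characters of the inverse image of `L` over a character of `G`
-/

namespace Pool.Agent.DPC

open Pool.Agent.DP Pool.Agent.Lib_helper13 Representation
open Pool.Agent.Lib_helper13.Dade (pCore DadeHolds dadeSum)

namespace LZC

section

variable {G B C : Type} [Group G] [Group B] [Group C]
  {ι : G →* B} {κ : B →* MulAut G} {ρ : B →* C}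

theorem clG_T (h : ClG ι κ ρ) (L : Subgroup C) (ι' : G →* L.comap ρ)
    (hι : ∀ g, (ι' g : B) = ι g) :
    ClG ι' (κ.comp (L.comap ρ).subtype) (ρ.comp (L.comap ρ).subtype) where
  inj := fun a b hab => h.inj (by rw [← hι, ← hι, hab])
  act := by
    intro y a
    apply Subtype.ext
    change ((ι' (κ (y : B) a) : L.comap ρ) : B) = (y : B) * (ι' a : B) * (y : B)⁻¹
    rw [hι, hι]
    exact h.act (y : B) a
  ker := by
    intro y
    change ρ (y : B) = 1 ↔ _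
    rw [h.ker]
    constructor
    · rintro ⟨a, ha⟩
      exact ⟨a, Subtype.ext (by rw [hι, ha])⟩
    · rintro ⟨a, rfl⟩
      exact ⟨a, (hι a).symm⟩

theorem mem_inert_iff {L : Subgroup C} {θ : G → ℂ} {y : L.comap ρ} :
    y ∈ inert (κ.comp (L.comap ρ).subtype) θ ↔
      (y : B) ∈ Stx κ (∅ : Finset (Subgroup G)) θ :=
  ⟨fun h => ⟨fun D hD => absurd hD (Finset.notMem_empty D), h⟩, fun h => h.2⟩

/-- The inertia group as a subgroup of `B`. -/
def eT (κ : B →* MulAut G) (ρ : B →* C) (L : Subgroup C) (θ : G → ℂ) :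
    inert (κ.comp (L.comap ρ).subtype) θ ≃*
      ↥(Stx κ (∅ : Finset (Subgroup G)) θ ⊓ L.comap ρ) where
  toFun s := ⟨((s : L.comap ρ) : B), mem_inert_iff.mp s.2, (s : L.comap ρ).2⟩
  invFun x := ⟨⟨x, x.2.2⟩, mem_inert_iff.mpr x.2.1⟩
  left_inv := fun _ => rfl
  right_inv := fun _ => rfl
  map_mul' := fun _ _ => rfl

end

section

variable {G B C : Type} [Group G] [Fintype G] [Group B] [Fintype B] [Group C]
  {ι : G →* B} {κ : B →* MulAut G} {ρ : B →* C}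

/-- The central function of the induced character. -/
theorem cen_ind (𝔐 : Ideal (integralClosure ℤ ℂ)) (L : Subgroup C) [Fintype (L.comap ρ)]
    (θ : G → ℂ) (f : B → ℂ)
    (h0 : ∀ x, x ∉ Stx κ (∅ : Finset (Subgroup G)) θ ⊓ L.comap ρ → f x = 0) (h1 : f 1 ≠ 0)
    (g : L.comap ρ) :
    cen 𝔐 (MonoidHom.id (L.comap ρ)) (indc (inert (κ.comp (L.comap ρ).subtype) θ)
      (fun s => f ((s : L.comap ρ) : B))) g = cgT 𝔐 (L.comap ρ) f g := by
  classical
  have hI := (IND_thm _ (inert (κ.comp (L.comap ρ).subtype) θ)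
    (fun s => f ((s : L.comap ρ) : B))).2.2.2 h1
    (fun y => conjInd ((MonoidHom.id (L.comap ρ)) y) g) (by
      intro a x
      rw [map_mul, map_mul, map_inv, conjInd_conj])
  rw [cen, cgT]
  refine congrArg (red 𝔐) (hI.trans ?_)
  rw [wt]
  have h2 : f (((1 : inert (κ.comp (L.comap ρ).subtype) θ) : L.comap ρ) : B) = f 1 := rfl
  rw [h2]
  congr 1
  have h3 : ∀ x : B, cjT (L.comap ρ) x g * f x =
      cjT (L.comap ρ) x g *
        ext0 (fun s : ↥(Stx κ (∅ : Finset (Subgroup G)) θ ⊓ L.comap ρ) => f s) x := by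
    intro x
    by_cases hx : x ∈ Stx κ (∅ : Finset (Subgroup G)) θ ⊓ L.comap ρ
    · rw [ext0_of_mem _ hx]
    · rw [ext0_of_not_mem _ hx, h0 x hx]
  rw [Finset.sum_congr rfl (fun x _ => h3 x), ← IND.sum_sub]
  refine Fintype.sum_equiv (eT κ ρ L θ).toEquiv _ _ ?_
  intro s
  have h4 : conjInd ((MonoidHom.id (L.comap ρ)) (s : L.comap ρ)) g =
      cjT (L.comap ρ) ((s : L.comap ρ) : B) g := by
    rw [conjInd, cjT]
    congr 1
    apply propext
    rw [isConj_iff]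
    constructor
    · rintro ⟨c, hc⟩
      refine ⟨(c⁻¹ : L.comap ρ), (c⁻¹).2, ?_⟩
      have h5 : ((c : B) * ((s : L.comap ρ) : B) * (c : B)⁻¹) = (g : B) :=
        congrArg Subtype.val hc
      rw [← h5]
      simp [mul_assoc]
    · rintro ⟨t, ht, hc⟩
      refine ⟨⟨t, ht⟩⁻¹, ?_⟩
      apply Subtype.ext
      change t⁻¹ * ((s : L.comap ρ) : B) * t⁻¹⁻¹ = g
      rw [hc]
      simp [mul_assoc]
  rw [h4]
  rfl

end

end LZC

open _root_.Pool.Agent.DPC.LZC in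
theorem LZC_thm (h1 : Stmt_EXTAR) : Stmt_LZC := by
  classical
  intro G B C _ _ _ _ _ 𝔐 ℓ _ ι κ ρ hL L _ ι' hι χ θ hχ hθ hne
  have : Finite C := Finite.of_surjective ρ hL.surj
  have hcl := clG_T hL.cl L ι' hι
  -- the Clifford correspondent
  obtain ⟨ψ, hψ, hψθ, hψχ⟩ := (CCOR_thm IND_thm SUMM_thm G (L.comap ρ) C ι'
    (κ.comp (L.comap ρ).subtype) (ρ.comp (L.comap ρ).subtype) hcl θ hθ).2.2 χ hχ hne
  -- an extension
  have hθI : IrrOn (stb (∅ : Finset (Subgroup G))) θ := by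
    refine ⟨?_, fun x hx => absurd (by rw [stb_empty]; exact Subgroup.mem_top x) hx⟩
    have : (fun s : stb (∅ : Finset (Subgroup G)) => θ s) =
      fun s => θ ((MulEquiv.subgroupCongr (stb_empty (G := G))).trans Subgroup.topEquiv s) := rfl
    rw [this]
    exact hθ.comp_mulEquiv _
  obtain ⟨-, -, ⟨f0, hf0⟩, -⟩ := h1 G B C ℓ ι κ ρ hL ∅ θ hθI L
  obtain ⟨M, hM⟩ : ∃ M : Subgroup C, (inert (κ.comp (L.comap ρ).subtype) θ).map
    (ρ.comp (L.comap ρ).subtype) = M := ⟨_, rfl⟩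
  have iM : Fintype M := Fintype.ofFinite _
  have hE : IsIrr (fun s : inert (κ.comp (L.comap ρ).subtype) θ => f0 ((s : L.comap ρ) : B)) :=
    hf0.1.1.comp_mulEquiv (eT κ ρ L θ)
  have hEθ : ∀ a, (fun s : inert (κ.comp (L.comap ρ).subtype) θ => f0 ((s : L.comap ρ) : B))
      (CLG.jS hcl hθ a) = θ a := by
    intro a
    change f0 ((ι' a : L.comap ρ) : B) = θ a
    rw [hι, hf0.2]
  obtain ⟨-, -, g3⟩ := GALL_thm COSET_thm SUMM_thm _ _ _ (CLG.jS hcl hθ)
    ((κ.comp (L.comap ρ).subtype).comp (inert (κ.comp (L.comap ρ).subtype) θ).subtype)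
    (CLG.qS hM) (CLG.clG_S hcl hθ hM) (CLG.qS_surj hM) θ _ hθ hE.isChr hEθ
  have hres : (fun a => ext0 ψ (ι' a)) = resj (CLG.jS hcl hθ) ψ := by
    funext a
    rw [ext0_of_mem ψ (CLG.j_mem hcl hθ a)]
    rfl
  rw [hres] at hψθ
  obtain ⟨η, hη, hψη⟩ := g3 ψ hψ hψθ
  have hη1 : η 1 = 1 := by
    have := hL.cyc
    let _ : CommGroup C := IsCyclic.commGroup
    have : IsMulCommutative M := ⟨⟨fun a b => Subtype.ext (mul_comm (a : C) b)⟩⟩
    exact LKB.one_of_comm hη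
  -- the function on `B`
  have hf0z := hf0.1.2
  have hfz : ∀ x, x ∉ Stx κ (∅ : Finset (Subgroup G)) θ ⊓ L.comap ρ →
      (fun x => f0 x * ext0 η (ρ x)) x = 0 := by
    intro x hx
    change f0 x * ext0 η (ρ x) = 0
    rw [hf0z x hx, zero_mul]
  have hfψ : (fun s : inert (κ.comp (L.comap ρ).subtype) θ =>
      (fun x => f0 x * ext0 η (ρ x)) ((s : L.comap ρ) : B)) = ψ := by
    rw [hψη]
    exact CLG.ext0_q hM η (fun s => f0 ((s : L.comap ρ) : B))
  have hfι : ∀ a, (fun x => f0 x * ext0 η (ρ x)) (ι a) = θ a := by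
    intro a
    change f0 (ι a) * ext0 η (ρ (ι a)) = θ a
    have h2 : ρ (ι a) = 1 := (hL.cl.ker (ι a)).mpr ⟨a, rfl⟩
    rw [hf0.2, h2, ext0_of_mem η M.one_mem]
    have h3 : η ⟨1, M.one_mem⟩ = 1 := hη1
    rw [h3, mul_one]
  refine ⟨fun x => f0 x * ext0 η (ρ x), ⟨⟨?_, hfz⟩, hfι⟩, ?_⟩
  · have h2 : (fun s : ↥(Stx κ (∅ : Finset (Subgroup G)) θ ⊓ L.comap ρ) =>
        (fun x => f0 x * ext0 η (ρ x)) (s : B)) = fun s => ψ ((eT κ ρ L θ).symm s) := by
      rw [← hfψ]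
      rfl
    rw [h2]
    exact hψ.comp_mulEquiv _
  · intro g
    have h2 : (fun x => f0 x * ext0 η (ρ x)) 1 ≠ 0 := by
      have h3 := hfι 1
      rw [map_one] at h3
      rw [h3]
      exact hθ.one_ne_zero
    rw [← cen_ind 𝔐 L θ _ hfz h2 g, hfψ, hψχ]

end Pool.Agent.DPC


end

section

/-!
# Theorem W: weights of the extensions of a character of the normalizer of a group of order `ℓ`
(module BRC)
-/

set_option linter.unusedSectionVars false

namespace Pool.Agent.DPW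

open Pool.Agent.DP Pool.Agent.DPV Pool.Agent.Lib_helper13 Representation
open Pool.Agent.Lib_helper13.Dade (pCore DadeHolds dadeSum)

namespace BRC

/-- A representation whose pull back is irreducible is irreducible. -/
theorem irr_of_comp {k N M V : Type*} [Field k] [Monoid N] [Monoid M] [AddCommGroup V]
    [Module k V] (τ : Representation k M V) (j : N →* M)
    (h : Representation.IsIrreducible (τ.comp j : Representation k N V)) :
    τ.IsIrreducible := by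
  let F : Subrepresentation τ → Subrepresentation (τ.comp j : Representation k N V) := fun W =>
    ⟨W.toSubmodule, fun g v hv => W.apply_mem_toSubmodule (j g) hv⟩
  have hF : Function.Injective F := fun W W' hW =>
    Subrepresentation.toSubmodule_injective (congrArg (fun U => U.toSubmodule) hW)
  have hbt : (⊥ : Subrepresentation (τ.comp j : Representation k N V)) ≠ ⊤ := bot_ne_top
  have h0 : F ⊥ = ⊥ := rfl
  have h1 : F ⊤ = ⊤ := rfl
  have hnt : Nontrivial (Subrepresentation τ) := ⟨⊥, ⊤, fun hh => hbt (by rw [← h0, ← h1, hh])⟩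
  refine { eq_bot_or_eq_top := fun W => ?_ }
  rcases eq_bot_or_eq_top (F W) with hW | hW
  · left
    exact hF (hW.trans h0.symm)
  · right
    exact hF (hW.trans h1.symm)

section

variable {G B C : Type} [Group G] [Fintype G] [Group B] [Fintype B] [Group C]
  {ι : G →* B} {κ : B →* MulAut G} {ρ : B →* C}

/-- The restriction of an extension to an intermediate group is irreducible. -/
theorem irr_mid {f : B → ℂ} {H M : Subgroup B} (hf : IrrOn H f)
    (hres : IrrOn (H.comap ι) (fun h => f (ι h))) (hMH : M ≤ H)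
    (hM : ∀ g ∈ H.comap ι, ι g ∈ M) : IsIrr (fun m : M => f m) := by
  classical
  obtain ⟨n, R, hR, hRf⟩ := hf.1
  obtain ⟨n', R', hR', hRf'⟩ := hres.1
  have : Fintype (H.comap ι) := Fintype.ofFinite _
  let j : H.comap ι →* M := (ι.comp (H.comap ι).subtype).codRestrict M (fun h => hM h.1 h.2)
  let τ : Representation ℂ M (Fin n → ℂ) := R.comp (Subgroup.inclusion hMH)
  let σ : Representation ℂ (H.comap ι) (Fin n → ℂ) := τ.comp j
  have hσc : σ.character = R'.character := by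
    rw [hRf']
    funext h
    have h1 : σ.character h = R.character (Subgroup.inclusion hMH (j h)) := rfl
    rw [h1, hRf]
    rfl
  have hσ : σ.IsIrreducible := by
    apply irreducible_of_sum
    rw [hσc]
    exact sum_char_self R'
  refine ⟨n, τ, irr_of_comp τ j hσ, ?_⟩
  funext m
  have h1 : τ.character m = R.character (Subgroup.inclusion hMH m) := rfl
  rw [h1, hRf]
  rfl

open Classical in
/-- The part of a function over `c`. -/
noncomputable def cf (ρ : B →* C) (b : B → ℂ) (c : C) (x : B) : ℂ := if ρ x = c then b x else 0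

theorem cf_int {b : B → ℂ} (hb : ∀ x, IsIntegral ℤ (b x)) (c : C) (x : B) :
    IsIntegral ℤ (cf ρ b c x) := by
  unfold cf
  split_ifs
  · exact hb x
  · exact isIntegral_zero

theorem cf_inv (hρ : ∀ g, ρ (ι g) = 1) {N : Subgroup G} {b : B → ℂ}
    (hb : ∀ n ∈ N, ∀ x, b (ι n * x * (ι n)⁻¹) = b x) (c : C) :
    ∀ n ∈ N, ∀ x, cf ρ b c (ι n * x * (ι n)⁻¹) = cf ρ b c x := by
  intro n hn x
  have h1 : ρ (ι n * x * (ι n)⁻¹) = ρ x := by
    rw [map_mul, map_mul, map_inv, hρ, one_mul, inv_one, mul_one]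
  unfold cf
  rw [h1, hb n hn]

/-- Invariance under the elements of the intermediate group. -/
theorem cf_class (hcl : ClG ι κ ρ) {H : Subgroup B} {b : B → ℂ}
    (hb : ∀ n ∈ H.comap ι, ∀ x, b (ι n * x * (ι n)⁻¹) = b x) {y : B} (hy : y ∈ H) :
    ∀ m ∈ H ⊓ (Subgroup.zpowers (ρ y)).comap ρ, ∀ x ∈ H,
      cf ρ b (ρ y) (m * x * m⁻¹) = cf ρ b (ρ y) x := by
  have hρ : ∀ g, ρ (ι g) = 1 := fun g => (hcl.ker _).mpr ⟨g, rfl⟩
  let K : Subgroup B :=
    { carrier := {m | m ∈ H ∧ ∀ x ∈ H, cf ρ b (ρ y) (m * x * m⁻¹) = cf ρ b (ρ y) x}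
      one_mem' := ⟨H.one_mem, fun x _ => by rw [one_mul, inv_one, mul_one]⟩
      mul_mem' := by
        rintro m m' ⟨h1, h2⟩ ⟨h3, h4⟩
        refine ⟨H.mul_mem h1 h3, fun x hx => ?_⟩
        have e : m * m' * x * (m * m')⁻¹ = m * (m' * x * m'⁻¹) * m⁻¹ := by group
        rw [e, h2 _ (H.mul_mem (H.mul_mem h3 hx) (H.inv_mem h3)), h4 x hx]
      inv_mem' := by
        rintro m ⟨h1, h2⟩
        refine ⟨H.inv_mem h1, fun x hx => ?_⟩
        have h3 := h2 (m⁻¹ * x * m⁻¹⁻¹) (H.mul_mem (H.mul_mem (H.inv_mem h1) hx)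
          (H.inv_mem (H.inv_mem h1)))
        have e : m * (m⁻¹ * x * m⁻¹⁻¹) * m⁻¹ = x := by group
        rw [e] at h3
        exact h3.symm }
  have hιK : ∀ g, ι g ∈ H → ι g ∈ K := fun g hg =>
    ⟨hg, fun x _ => cf_inv hρ hb (ρ y) g hg x⟩
  have hyK : y ∈ K := by
    refine ⟨hy, fun x hx => ?_⟩
    by_cases hxc : ρ x = ρ y
    · have h1 : ρ (x * y⁻¹) = 1 := by rw [map_mul, map_inv, hxc, mul_inv_cancel]
      obtain ⟨g, hg⟩ := (hcl.ker _).mp h1
      have hgH : g ∈ H.comap ι := by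
        rw [Subgroup.mem_comap, hg]
        exact H.mul_mem hx (H.inv_mem hy)
      have h2 : y * x * y⁻¹ = ι g⁻¹ * x * (ι g⁻¹)⁻¹ := by
        rw [map_inv, hg]
        group
      rw [h2]
      exact cf_inv hρ hb (ρ y) g⁻¹ ((H.comap ι).inv_mem hgH) x
    · have h1 : ρ (y * x * y⁻¹) ≠ ρ y := by
        intro h
        apply hxc
        rw [map_mul, map_mul, map_inv, mul_inv_eq_iff_eq_mul] at h
        exact mul_left_cancel h
      unfold cf
      rw [if_neg h1, if_neg hxc]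
  rintro m ⟨hm, hm'⟩ x hx
  obtain ⟨k, hk⟩ := Subgroup.mem_zpowers_iff.mp (Subgroup.mem_comap.mp hm')
  have h1 : ρ (m * (y ^ k)⁻¹) = 1 := by
    rw [map_mul, map_inv, map_zpow, hk, mul_inv_cancel]
  obtain ⟨g, hg⟩ := (hcl.ker _).mp h1
  have h2 : ι g ∈ H := by
    rw [hg]
    exact H.mul_mem hm (H.inv_mem (H.zpow_mem hy k))
  have h3 : m ∈ K := by
    have h4 := K.mul_mem (hιK g h2) (K.zpow_mem hyK k)
    rw [hg, inv_mul_cancel_right] at h4
    exact h4
  exact h3.2 x hx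

end

end BRC

open _root_.Pool.Agent.DPW.BRC in
theorem BRC_thm : Stmt_BRC := by
  classical
  intro G B C _ _ _ _ _ 𝔐 ℓ _ h𝔐 hℓ ι κ ρ hL P hP ψ hψ L f hf a ha hi
  have hprime : 𝔐.IsPrime := h𝔐.isPrime
  have hcl := hL.cl
  have hρ : ∀ g, ρ (ι g) = 1 := fun g => (hcl.ker _).mpr ⟨g, rfl⟩
  obtain ⟨hf1, hf2⟩ := hf
  obtain ⟨H, hH⟩ : ∃ H, H = Stx κ {P} ψ ⊓ L.comap ρ := ⟨_, rfl⟩
  rw [← hH] at hf1
  have hcomap : H.comap ι = stb {P} := by
    rw [hH]
    exact LTR.comap_Stx hcl hψ L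
  have hres : IrrOn (H.comap ι) (fun h => f (ι h)) := by
    rw [hcomap]
    have h1 : (fun h => f (ι h)) = ψ := funext hf2
    rw [h1]
    exact hψ
  have hint : ∀ b : B → ℂ, (∀ n ∈ stb {P}, ∀ x, b (ι n * x * (ι n)⁻¹) = b x) →
      (∀ x, IsIntegral ℤ (b x)) → IsIntegral ℤ (wt f b) := fun b hb hbi =>
    BRV.intN ι H f hf1 hres b hbi (by rw [hcomap]; exact hb)
  refine ⟨hint a ha hi, fun a' ha' hi' hred => ?_⟩
  -- decomposition over the cosets
  have hdec : ∀ b : B → ℂ, wt f b = ∑ c ∈ Finset.univ.image ρ, wt f (cf ρ b c) := by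
    intro b
    rw [← wt_sum]
    congr 1
    funext x
    unfold cf
    rw [Finset.sum_ite_eq, if_pos (Finset.mem_image_of_mem _ (Finset.mem_univ x))]
  rw [hdec a, hdec a', red_sum 𝔐 _ _ (fun c _ => hint _ (cf_inv hρ ha c) (cf_int hi c)),
    red_sum 𝔐 _ _ (fun c _ => hint _ (cf_inv hρ ha' c) (cf_int hi' c))]
  refine Finset.sum_congr rfl fun c _ => ?_
  by_cases hc : ∃ y ∈ H, ρ y = c
  · obtain ⟨y, hy, rfl⟩ := hc
    obtain ⟨M, hM⟩ : ∃ M, M = H ⊓ (Subgroup.zpowers (ρ y)).comap ρ := ⟨_, rfl⟩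
    have hMH : M ≤ H := by
      rw [hM]
      exact inf_le_left
    have hιM : ∀ g ∈ H.comap ι, ι g ∈ M := by
      intro g hg
      rw [hM]
      refine ⟨hg, ?_⟩
      change ρ (ι g) ∈ Subgroup.zpowers (ρ y)
      rw [hρ]
      exact one_mem _
    have hirr := irr_mid hf1 hres hMH hιM
    have : Fintype M := Fintype.ofFinite _
    have hwt : ∀ b : B → ℂ, wt f (cf ρ b (ρ y)) =
        wt (fun m : M => f m) (fun m => cf ρ b (ρ y) m) := by
      intro b
      rw [wt, wt]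
      congr 1
      have h1 := INTH.sum_restrict M (fun _ => 1) (fun x => cf ρ b (ρ y) x * f x) (by
        intro x hx
        by_cases hxc : ρ x = ρ y
        · have h2 : x ∉ H := by
            intro hxH
            apply hx
            rw [hM]
            refine ⟨hxH, ?_⟩
            change ρ x ∈ Subgroup.zpowers (ρ y)
            rw [hxc]
            exact Subgroup.mem_zpowers _
          rw [hf1.2 x h2, mul_zero]
        · unfold cf
          rw [if_neg hxc, zero_mul])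
      simp only [one_mul] at h1
      exact h1
    rw [hwt a, hwt a']
    have hPH : ∀ u ∈ P, ι u ∈ M := fun u hu => hιM u (by
      rw [hcomap]
      exact BRV.le_stb P hu)
    have hmem : ∀ m ∈ M, m ∈ Stx κ {P} ψ ∧ ρ m ∈ L := by
      intro m hm
      have h1 := hMH hm
      rw [hH] at h1
      exact h1
    have hnor : ((P.map ι).subgroupOf M).Normal := by
      constructor
      intro q hq g
      rw [Subgroup.mem_subgroupOf] at hq ⊢
      obtain ⟨u, hu, huq⟩ := hq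
      have h1 := (hmem g.1 g.2).1.1 P (Finset.mem_singleton_self P)
      have h2 : κ (g : B) u ∈ P.map (κ (g : B)).toMonoidHom := ⟨u, hu, rfl⟩
      rw [h1] at h2
      refine ⟨κ (g : B) u, h2, ?_⟩
      rw [hcl.act, huq]
      rfl
    have hPg : IsPGroup ℓ P := IsPGroup.of_card (n := 1) (by rw [hP, pow_one])
    have hQ : IsPGroup ℓ ((P.map ι).subgroupOf M) := by
      have h1 : IsPGroup ℓ (P.map ι) := hPg.map ι
      exact h1.comap_of_injective M.subtype M.subtype_injective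
    have hclass : ∀ b : B → ℂ, (∀ n ∈ stb {P}, ∀ x, b (ι n * x * (ι n)⁻¹) = b x) →
        ∀ g x : M, cf ρ b (ρ y) ((g * x * g⁻¹ : M) : B) = cf ρ b (ρ y) (x : B) := by
      intro b hb g x
      have h1 := cf_class hcl (H := H) (b := b) (by rw [hcomap]; exact hb) hy (g : B)
        (by rw [← hM]; exact g.2) (x : B) (hMH x.2)
      exact h1
    apply red_wt_eq 𝔐 hℓ hirr ((P.map ι).subgroupOf M) hQ
    · exact hclass a ha
    · exact fun m => cf_int hi _ _
    · exact hclass a' ha'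
    · exact fun m => cf_int hi' _ _
    · intro m hm
      by_cases hmc : ρ (m : B) = ρ y
      · have h1 : cf ρ a (ρ y) (m : B) = a m := if_pos hmc
        have h2 : cf ρ a' (ρ y) (m : B) = a' m := if_pos hmc
        rw [h1, h2]
        refine hred m (hmem m m.2).2 fun u hu => ?_
        apply hcl.inj
        rw [hcl.act, mul_inv_eq_iff_eq_mul]
        have h3 := hm ⟨ι u, hPH u hu⟩ (Subgroup.mem_subgroupOf.mpr ⟨u, hu, rfl⟩)
        exact (congrArg Subtype.val h3).symm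
      · have h1 : cf ρ a (ρ y) (m : B) = 0 := if_neg hmc
        have h2 : cf ρ a' (ρ y) (m : B) = 0 := if_neg hmc
        rw [h1, h2]
  · have h0 : ∀ b : B → ℂ, wt f (cf ρ b c) = 0 := by
      intro b
      rw [wt, Finset.sum_eq_zero, zero_div]
      intro x _
      by_cases hxc : ρ x = c
      · have h2 : x ∉ H := fun hxH => hc ⟨x, hxH, hxc⟩
        rw [hf1.2 x h2, mul_zero]
      · unfold cf
        rw [if_neg hxc, zero_mul]
    rw [h0, h0]

end Pool.Agent.DPW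


end

section

/-!
# Theorem W, LFW: lifting of the elements with central function different from zero
-/

set_option autoImplicit false

namespace Pool.Agent.DPW

open Pool.Agent.DP Pool.Agent.DPV Pool.Agent.Lib_helper13 Representation
open Pool.Agent.Lib_helper13.Dade (pCore DadeHolds dadeSum)

namespace LFW

theorem card_conj {B : Type} [Group B] (T : Subgroup B) {s : B} (hs : s ∈ T) (x : B) :
    Nat.card ↥(Subgroup.centralizer ({s * x * s⁻¹} : Set B) ⊓ T) =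
      Nat.card ↥(Subgroup.centralizer ({x} : Set B) ⊓ T) := by
  have h : (Subgroup.centralizer ({x} : Set B) ⊓ T).map (MulAut.conj s).toMonoidHom =
      Subgroup.centralizer ({s * x * s⁻¹} : Set B) ⊓ T := by
    ext y
    rw [Subgroup.mem_map_equiv, Subgroup.mem_inf, Subgroup.mem_inf,
      Subgroup.mem_centralizer_singleton_iff, Subgroup.mem_centralizer_singleton_iff,
      MulAut.conj_symm_apply]
    constructor
    · rintro ⟨h1, h2⟩
      constructor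
      · have h3 : s * x * s⁻¹ * y = s * (x * (s⁻¹ * y * s)) * s⁻¹ := by group
        rw [h3, ← h1]
        group
      · have h3 : y = s * (s⁻¹ * y * s) * s⁻¹ := by group
        rw [h3]
        exact mul_mem (mul_mem hs h2) (inv_mem hs)
    · rintro ⟨h1, h2⟩
      constructor
      · have h3 : x * (s⁻¹ * y * s) = s⁻¹ * (s * x * s⁻¹ * y) * s := by group
        rw [h3, ← h1]
        group
      · exact mul_mem (mul_mem (inv_mem hs) h2) hs
  rw [← h, Subgroup.card_map_of_injective (MulAut.conj s).injective]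

end LFW

open _root_.Pool.Agent.DPW.LFW in
theorem LFW_thm (h1 : Stmt_BRC) (h2 : Stmt_GDW) : Stmt_LFW := by
  classical
  intro G B C _ _ _ _ _ 𝔐 ℓ _ h𝔐 hℓ ι κ ρ hL P x₀ ψ hψ hat L f hf c hc a hainv haint hasup hane
  have hprime : 𝔐.IsPrime := h𝔐.isPrime
  have hcl := hL.cl
  have hρ : ∀ g, ρ (ι g) = 1 := fun g => (hcl.ker _).mpr ⟨g, rfl⟩
  have hκ : ∀ g u, κ (ι g) u = g * u * g⁻¹ := by
    intro g u
    apply hcl.inj
    rw [hcl.act, map_mul, map_mul, map_inv]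
  obtain ⟨hf1, hf2⟩ := id hf
  obtain ⟨H, hH⟩ : ∃ H, H = Stx κ {P} ψ ⊓ L.comap ρ := ⟨_, rfl⟩
  rw [← hH] at hf1
  have hmem : ∀ g, ι g ∈ H ↔ g ∈ stb ({P} : Finset (Subgroup G)) := by
    intro g
    rw [hH, Subgroup.mem_inf, Subgroup.mem_comap, hρ, DPC.TRBR.iota_mem hcl hψ]
    exact ⟨fun h => h.1, fun h => ⟨h, L.one_mem⟩⟩
  have hcomap : H.comap ι = stb {P} := by
    ext g
    rw [Subgroup.mem_comap, hmem]
  have hres : IrrOn (H.comap ι) (fun h => f (ι h)) := by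
    rw [hcomap]
    have h3 : (fun h => f (ι h)) = ψ := funext hf2
    rw [h3]
    exact hψ
  -- the normalizer
  obtain ⟨N, hN⟩ : ∃ N, N = stb ({P} : Finset (Subgroup G)) := ⟨_, rfl⟩
  have hNP : ∀ n ∈ N, ∀ u ∈ P, n * u * n⁻¹ ∈ P := by
    intro n hn u hu
    rw [hN, mem_stb] at hn
    have h3 := hn P (Finset.mem_singleton_self P)
    rw [← h3]
    exact ⟨u, hu, rfl⟩
  have hx0N : x₀ ∈ N := by
    rw [hN, mem_stb]
    intro D hD
    rw [Finset.mem_singleton] at hD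
    subst hD
    ext u
    constructor
    · rintro ⟨v, hv, rfl⟩
      change x₀ * v * x₀⁻¹ ∈ D
      rw [← hat.cen v hv, mul_inv_cancel_right]
      exact hv
    · intro hu
      refine ⟨u, hu, ?_⟩
      change x₀ * u * x₀⁻¹ = u
      rw [← hat.cen u hu, mul_inv_cancel_right]
  obtain ⟨k, hk⟩ : ∃ k : B → ℂ, k = fun x => cjT (N.map ι) x (ι x₀) := ⟨_, rfl⟩
  have hkN : ∀ n ∈ N, ∀ x, k (ι n * x * (ι n)⁻¹) = k x := by
    intro n hn x
    rw [hk]
    exact BRV.cjT_conj (Subgroup.mem_map_of_mem ι hn) x _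
  have hkint : ∀ x, IsIntegral ℤ (k x) := by
    intro x
    rw [hk]
    exact BRV.isIntegral_cjT _ _ _
  have hkι : ∀ y, k (ι y) = cjT N y x₀ := by
    intro y
    rw [hk]
    have h3 : (∃ r ∈ N.map ι, ι y = r * ι x₀ * r⁻¹) ↔ ∃ r ∈ N, y = r * x₀ * r⁻¹ := by
      constructor
      · rintro ⟨_, ⟨n, hn, rfl⟩, h⟩
        refine ⟨n, hn, ?_⟩
        apply hcl.inj
        rw [h, map_mul, map_mul, map_inv]
      · rintro ⟨n, hn, rfl⟩
        refine ⟨ι n, Subgroup.mem_map_of_mem ι hn, ?_⟩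
        rw [map_mul, map_mul, map_inv]
    change cjT (N.map ι) (ι y) (ι x₀) = cjT N y x₀
    rw [cjT, cjT]
    by_cases hx : ∃ r ∈ N, y = r * x₀ * r⁻¹
    · rw [if_pos hx, if_pos (h3.mpr hx)]
    · rw [if_neg hx, if_neg (fun hx' => hx (h3.mp hx'))]
  have hk0 : ∀ x, x ∉ N.map ι → k x = 0 := by
    intro x hx
    rw [hk]
    change cjT (N.map ι) x (ι x₀) = 0
    rw [cjT, if_neg]
    rintro ⟨s, hs, rfl⟩
    exact hx (mul_mem (mul_mem hs (Subgroup.mem_map_of_mem ι hx0N)) (inv_mem hs))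
  have hkr : ∀ x, x ∉ Set.range ι → k x = 0 := by
    intro x hx
    refine hk0 x ?_
    rintro ⟨n, -, rfl⟩
    exact hx ⟨n, rfl⟩
  have hkH : ∀ x, x ∉ H → k x = 0 := by
    intro x hx
    refine hk0 x ?_
    rintro ⟨n, hn, rfl⟩
    exact hx ((hmem n).2 (hN ▸ hn))
  have hksum : ∀ F : B → ℂ, ∑ x, k x * F x = ∑ y, cjT N y x₀ * F (ι y) := by
    intro F
    symm
    refine Fintype.sum_of_injective ι hcl.inj _ _ ?_ ?_
    · intro x hx
      rw [hkr x hx, zero_mul]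
    · intro y
      rw [hkι]
  have hwk : wt f k = wt ψ (fun y => cjT N y x₀) := by
    rw [wt, wt, hksum]
    have h3 : f 1 = ψ 1 := by rw [← hf2, map_one]
    rw [h3]
    congr 1
    exact Finset.sum_congr rfl fun y _ => by rw [hf2]
  -- `a` on `H`
  obtain ⟨aH, haH⟩ : ∃ aH : B → ℂ, aH = fun x => if x ∈ H then a x else 0 := ⟨_, rfl⟩
  have haH1 : ∀ x, x ∈ H → aH x = a x := fun x hx => by rw [haH]; exact if_pos hx
  have haH0 : ∀ x, x ∉ H → aH x = 0 := fun x hx => by rw [haH]; exact if_neg hx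
  have hιH : ∀ n ∈ N, ι n ∈ H := fun n hn => (hmem n).2 (hN ▸ hn)
  have haHN : ∀ n ∈ N, ∀ x, aH (ι n * x * (ι n)⁻¹) = aH x := by
    intro n hn x
    by_cases hx : x ∈ H
    · rw [haH1 x hx, haH1 _ (mul_mem (mul_mem (hιH n hn) hx) (inv_mem (hιH n hn)))]
      exact hainv n (hN ▸ hn) x
    · rw [haH0 x hx, haH0]
      intro h3
      apply hx
      have h4 : x = (ι n)⁻¹ * (ι n * x * (ι n)⁻¹) * ι n := by group
      rw [h4]
      exact mul_mem (mul_mem (inv_mem (hιH n hn)) h3) (hιH n hn)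
  have haHint : ∀ x, IsIntegral ℤ (aH x) := by
    intro x
    by_cases hx : x ∈ H
    · rw [haH1 x hx]
      exact haint x
    · rw [haH0 x hx]
      exact isIntegral_zero
  have hwaH : wt f aH = wt f a := by
    rw [wt, wt]
    congr 1
    refine Finset.sum_congr rfl fun x _ => ?_
    by_cases hx : x ∈ H
    · rw [haH1 x hx]
    · rw [hf1.2 x hx, mul_zero, mul_zero]
  -- the product
  obtain ⟨a1, ha1⟩ : ∃ a1, a1 = cvB k aH := ⟨_, rfl⟩
  have hw1 : wt f a1 = wt f k * wt f aH := by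
    rw [ha1]
    refine MULV.wt_cvB ι H f hf1 hres k aH hkH haH0 ?_
    intro h hh x
    exact haHN h (hN ▸ (hmem h).1 hh) x
  have ha1int : ∀ x, IsIntegral ℤ (a1 x) := by
    rw [ha1]
    exact MULV.isIntegral_cvB hkint haHint
  have ha1N : ∀ n ∈ N, ∀ x, a1 (ι n * x * (ι n)⁻¹) = a1 x := by
    intro n hn x
    rw [ha1]
    exact MULV.cvB_conj (hkN n hn) (haHN n hn) x
  have ha1sum : ∀ x, a1 x = ∑ y : G, cjT N y x₀ * aH ((ι y)⁻¹ * x) := by
    intro x
    rw [ha1, cvB]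
    exact hksum (fun y => aH (y⁻¹ * x))
  have ha1sup : ∀ x, a1 x ≠ 0 → ρ x = c := by
    intro x hx
    rw [ha1sum] at hx
    obtain ⟨y, -, hy⟩ := Finset.exists_ne_zero_of_sum_ne_zero hx
    have h3 : aH ((ι y)⁻¹ * x) ≠ 0 := fun h => hy (by rw [h, mul_zero])
    by_contra h4
    apply h3
    by_cases h5 : (ι y)⁻¹ * x ∈ H
    · rw [haH1 _ h5]
      apply hasup
      rw [map_mul, map_inv, hρ, inv_one, one_mul]
      exact h4
    · exact haH0 _ h5
  have hBk := (h1 G B C 𝔐 ℓ h𝔐 hℓ ι κ ρ hL P hat.card ψ hψ L f hf k (hN ▸ hkN) hkint).1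
  have hBa := (h1 G B C 𝔐 ℓ h𝔐 hℓ ι κ ρ hL P hat.card ψ hψ L f hf aH (hN ▸ haHN) haHint).1
  obtain ⟨hG1, hG2⟩ := h2 G B C 𝔐 ℓ h𝔐 hℓ ι κ ρ hL P hat.card ψ hψ
  obtain ⟨hG3, hG4⟩ := hG2 x₀ hat.cen hat.sq
  have hne1 : red 𝔐 (wt f a1) ≠ 0 := by
    rw [hw1, red_mul 𝔐 hBk hBa, hwaH]
    refine mul_ne_zero ?_ hane
    rw [hwk, hN, ← hG3]
    exact hat.ne
  -- the part of `a1` that counts
  obtain ⟨Q, hQ⟩ : ∃ Q : B → Prop, Q = fun x => (∀ u ∈ P, κ x u = u) ∧
      ¬ ℓ ^ 2 ∣ Nat.card ↥(Subgroup.centralizer ({x} : Set B) ⊓ ι.range) := ⟨_, rfl⟩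
  have hQN : ∀ n ∈ N, ∀ x, Q x → Q (ι n * x * (ι n)⁻¹) := by
    intro n hn x hx
    rw [hQ] at hx ⊢
    refine ⟨?_, ?_⟩
    · intro u hu
      have h3 : κ (ι n * x * (ι n)⁻¹) u = n * κ x (n⁻¹ * u * n) * n⁻¹ := by
        rw [map_mul, map_mul, MulAut.mul_apply, MulAut.mul_apply, ← map_inv, hκ, hκ, inv_inv]
      have h4 : n⁻¹ * u * n ∈ P := by
        have := hNP n⁻¹ (inv_mem hn) u hu
        rwa [inv_inv] at this
      rw [h3, hx.1 _ h4]
      group
    · rw [card_conj ι.range ⟨n, rfl⟩]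
      exact hx.2
  have hQN' : ∀ n ∈ N, ∀ x, Q (ι n * x * (ι n)⁻¹) ↔ Q x := by
    intro n hn x
    refine ⟨fun h => ?_, hQN n hn x⟩
    have h3 := hQN n⁻¹ (inv_mem hn) _ h
    have h4 : ι n⁻¹ * (ι n * x * (ι n)⁻¹) * (ι n⁻¹)⁻¹ = x := by
      rw [map_inv]
      group
    rwa [h4] at h3
  obtain ⟨a2, ha2⟩ : ∃ a2 : B → ℂ, a2 = fun x => if Q x then a1 x else 0 := ⟨_, rfl⟩
  have ha21 : ∀ x, Q x → a2 x = a1 x := fun x hx => by rw [ha2]; exact if_pos hx
  have ha20 : ∀ x, ¬ Q x → a2 x = 0 := fun x hx => by rw [ha2]; exact if_neg hx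
  have ha2N : ∀ n ∈ N, ∀ x, a2 (ι n * x * (ι n)⁻¹) = a2 x := by
    intro n hn x
    by_cases hx : Q x
    · rw [ha21 x hx, ha21 _ ((hQN' n hn x).2 hx)]
      exact ha1N n hn x
    · rw [ha20 x hx, ha20 _ (fun h => hx ((hQN' n hn x).1 h))]
  have ha2int : ∀ x, IsIntegral ℤ (a2 x) := by
    intro x
    by_cases hx : Q x
    · rw [ha21 x hx]
      exact ha1int x
    · rw [ha20 x hx]
      exact isIntegral_zero
  have hne2 : red 𝔐 (wt f a2) ≠ 0 := by
    have h3 := (h1 G B C 𝔐 ℓ h𝔐 hℓ ι κ ρ hL P hat.card ψ hψ L f hf a1 (hN ▸ ha1N) ha1int).2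
      a2 (hN ▸ ha2N) ha2int ?_
    · rw [← h3]
      exact hne1
    · intro x _ hx
      by_cases hxQ : Q x
      · rw [ha21 x hxQ]
      · rw [ha20 x hxQ, red_zero, ha1sum, hN]
        refine hG4 aH (hN ▸ haHN) haHint x hx ?_
        by_contra h4
        apply hxQ
        rw [hQ]
        exact ⟨hx, h4⟩
  -- expansion
  by_contra hcon
  push Not at hcon
  apply hne2
  have hinv' : ∀ t ∈ N.map ι, ∀ x, a2 (t * x * t⁻¹) = a2 x := by
    rintro _ ⟨n, hn, rfl⟩ x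
    exact ha2N n hn x
  have hint : ∀ t, IsIntegral ℤ ((∑ x, cjT (N.map ι) x t * f x) / f 1) := by
    intro t
    refine (h1 G B C 𝔐 ℓ h𝔐 hℓ ι κ ρ hL P hat.card ψ hψ L f hf
      (fun x => cjT (N.map ι) x t) ?_ ?_).1
    · intro n hn x
      exact BRV.cjT_conj (Subgroup.mem_map_of_mem ι (hN ▸ hn)) x t
    · intro x
      exact BRV.isIntegral_cjT _ _ _
  rw [EXPV.wt_classes (N.map ι) a2 f hinv', red_sum 𝔐 _ _ fun q _ => (ha2int _).mul (hint _)]
  refine Finset.sum_eq_zero fun q _ => ?_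
  rw [red_mul 𝔐 (ha2int _) (hint _)]
  by_cases hq : Q q.out
  · by_cases h3 : a1 q.out = 0
    · rw [ha21 _ hq, h3, red_zero, zero_mul]
    · have h4 := ha1sup _ h3
      have h5 := hcon q.out h4
      have hq' := hq
      rw [hQ] at hq'
      have h6 := hG1 L f hf q.out (h4 ▸ hc) hq'.1 hq'.2
      rw [h5, ← hN] at h6
      rw [cgT] at h6
      rw [← h6, mul_zero]
  · rw [ha20 _ hq, red_zero, zero_mul]

end Pool.Agent.DPW


end

section

/-!
# LVW: the local sum vanishes for the blocks of defect one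
-/

namespace Pool.Agent.DPW

open Pool.Agent.DP Pool.Agent.DPV Pool.Agent.Lib_helper13 Representation
open Pool.Agent.Lib_helper13.Dade (pCore DadeHolds dadeSum)

theorem LVW_thm (h1 : Stmt_BEQW) (h2 : Stmt_TRIW) (h3 : Stmt_CYCW) (h4 : Stmt_TWOW)
    (h5 : Stmt_VSXW) (h6 : Stmt_FIXW) (_h7 : Stmt_CHNW) (h8 : Stmt_DFW) : Stmt_LVW := by
  classical
  intro G B C _ _ _ _ _ 𝔐 ℓ _ hmax hℓ ι κ ρ hL hC L β e hβ
  have hcl := hL.cl
  have hex : ∀ (σ : Finset (Subgroup G)) (ψ : G → ℂ), IrrOn (stb σ) ψ →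
      ∃ f, ExtL ι κ ρ σ ψ L f := fun σ ψ hψ => (EXTV_thm G B C ι κ ρ hL σ ψ hψ L).2.2.1
  obtain ⟨b, hb, hD⟩ := hβ
  -- the subgroup of order `ℓ`
  obtain ⟨x₀, hx₀, hsq⟩ := hD.1
  obtain ⟨u, hu⟩ := exists_prime_orderOf_dvd_card' ℓ (hD.2 x₀ hx₀)
  obtain ⟨P, hP, hPc⟩ : ∃ P : Subgroup G, Nat.card P = ℓ ∧ ∀ v ∈ P, v * x₀ = x₀ * v := by
    refine ⟨Subgroup.zpowers (u : G), ?_, fun v hv => ?_⟩
    · rw [Nat.card_zpowers, Subgroup.orderOf_coe, hu]
    · obtain ⟨k, rfl⟩ := Subgroup.mem_zpowers_iff.mp hv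
      have h9 : ((u ^ k : Subgroup.centralizer ({x₀} : Set G)) : G) ∈
          Subgroup.centralizer ({x₀} : Set G) := (u ^ k).2
      rw [Subgroup.mem_centralizer_singleton_iff] at h9
      exact h9
  have hAt : At1 ℓ (fun g => b (ι g)) P x₀ := ⟨hx₀, hP, hPc, hsq⟩
  obtain ⟨ω, hω⟩ : ∃ ω : G → (integralClosure ℤ ℂ) ⧸ 𝔐, ω = fun g => b (ι g) := ⟨_, rfl⟩
  rw [← hω] at hD hAt
  have hSe : SmW ℓ (∅ : Finset (Subgroup G)) := Or.inl rfl
  have hSP : SmW ℓ ({P} : Finset (Subgroup G)) := Or.inr ⟨P, rfl, hP⟩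
  rw [h5 G B C 𝔐 ℓ hmax hℓ ι κ ρ hL.locN P x₀ L β e ⟨b, hb, by rw [← hω]; exact hAt⟩]
  have hcg : ∀ ψ : G → ℂ, (∀ g, cg 𝔐 ψ g = ω g) → (fun g => cg 𝔐 ψ g) = ω :=
    fun ψ h => funext h
  -- defects
  have hdfe : ∀ θ : G → ℂ, IrrOn (stb ∅) θ → (∀ g, cg 𝔐 θ g = ω g) →
      df ℓ (stb (∅ : Finset (Subgroup G))) θ = 1 := by
    intro θ hθ hθω
    exact (h8 G 𝔐 ℓ hmax hℓ θ).1 (by rw [hcg θ hθω]; exact hD) hθ
  have hdfP : ∀ ψ : G → ℂ, IrrOn (stb {P}) ψ → (∀ g, cg 𝔐 ψ g = ω g) →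
      df ℓ (stb ({P} : Finset (Subgroup G))) ψ = 1 := by
    intro ψ hψ hψω
    exact ((h8 G 𝔐 ℓ hmax hℓ ψ).2 P x₀ (by rw [hcg ψ hψω]; exact hAt) hψ).1
  -- the main step
  have main : ∀ (σ0 : Finset (Subgroup G)) (ψ0 : G → ℂ), (σ0 = ∅ ∨ σ0 = {P}) →
      IrrOn (stb σ0) ψ0 → L ≤ (Stx κ σ0 ψ0).map ρ → df ℓ (stb σ0) ψ0 = e →
      bet 𝔐 ι κ ρ σ0 ψ0 L = β →
      Nat.card {θ : G → ℂ // IrrOn (stb ∅) θ ∧ L ≤ (Stx κ ∅ θ).map ρ ∧
        df ℓ (stb (∅ : Finset (Subgroup G))) θ = e ∧ bet 𝔐 ι κ ρ ∅ θ L = β} =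
      Nat.card {ψ : G → ℂ // IrrOn (stb {P}) ψ ∧ L ≤ (Stx κ {P} ψ).map ρ ∧
        df ℓ (stb {P}) ψ = e ∧ bet 𝔐 ι κ ρ {P} ψ L = β} := by
    intro σ0 ψ0 hσ0 hψ0 hL0 he0 hb0
    have hS0 : SmW ℓ σ0 := by
      rcases hσ0 with h | h
      · rw [h]
        exact hSe
      · rw [h]
        exact hSP
    obtain ⟨f0, hf0⟩ := hex σ0 ψ0 hψ0
    have hω0 : ∀ g, cg 𝔐 ψ0 g = ω g := by
      intro g
      rw [← hb0] at hb
      obtain ⟨f', hf', he'⟩ := hb
      rw [hω]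
      show cg 𝔐 ψ0 g = b (ι g)
      rw [he', LVB.cg_of_ext 𝔐 hcl hf']
    have he : e = 1 := by
      rcases hσ0 with h | h
      · subst h
        rw [← he0]
        exact hdfe ψ0 hψ0 hω0
      · subst h
        rw [← he0]
        exact hdfP ψ0 hψ0 hω0
    -- (i)
    obtain ⟨ψ1, ⟨hψ1, hω1⟩, hL1⟩ : ∃ ψ : G → ℂ,
        (IrrOn (stb ({P} : Finset (Subgroup G))) ψ ∧ ∀ g, cg 𝔐 ψ g = ω g) ∧
          L ≤ (Stx κ {P} ψ).map ρ := by
      rcases hσ0 with h | h
      · subst h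
        refine LVB.exists_of_two _ (fun ψ => (Stx κ ({P} : Finset (Subgroup G)) ψ).map ρ)
          (fun ψ => ∀ u ∈ P, ψ u = ψ 1) ?_ L ?_
        · rintro ψ ψ' ⟨hψ, hψω⟩ ⟨hψ', hψω'⟩ hiff
          exact h4 G B C 𝔐 ℓ hmax hℓ ι κ ρ hL.locN P x₀ ψ ψ' hψ hψ'
            (fun g => by rw [hψω, hψω']) (by rw [hcg ψ hψω]; exact hAt) hiff
        · intro c hc
          have hfix := h6 G B C 𝔐 ℓ hmax hℓ ι κ ρ hL hC ω hD P x₀ hAt c
          have hfin := LVB.finite_irrOn (stb (∅ : Finset (Subgroup G)))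
            (fun θ => (∀ g, cg 𝔐 θ g = ω g) ∧ c ∈ (Stx κ ∅ θ).map ρ)
          have hne : Nonempty {θ : G → ℂ // IrrOn (stb ∅) θ ∧ (∀ g, cg 𝔐 θ g = ω g) ∧
              c ∈ (Stx κ ∅ θ).map ρ} := ⟨⟨ψ0, hψ0, hω0, hL0 hc⟩⟩
          have hpos : 0 < Nat.card {ψ : G → ℂ // IrrOn (stb {P}) ψ ∧
              (∀ g, cg 𝔐 ψ g = ω g) ∧ c ∈ (Stx κ {P} ψ).map ρ} := by
            rw [← hfix]
            exact Nat.card_pos
          obtain ⟨⟨⟨ψ, hψ, hψω, hψc⟩⟩, -⟩ := Nat.card_pos_iff.mp hpos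
          exact ⟨ψ, ⟨hψ, hψω⟩, hψc⟩
      · subst h
        exact ⟨ψ0, ⟨hψ0, hω0⟩, hL0⟩
    -- (ii)
    obtain ⟨f1, hf1⟩ := hex {P} ψ1 hψ1
    obtain ⟨c0, hc0, hcyc⟩ := h3 G B C 𝔐 ℓ hmax hℓ ι κ ρ hL.locN P x₀ ψ1 hψ1
      (by rw [hcg ψ1 hω1]; exact hAt) L hL1 f1 hf1
    have hbeq : ∀ (σ : Finset (Subgroup G)) (ψ : G → ℂ), SmW ℓ σ → IrrOn (stb σ) ψ →
        (∀ g, cg 𝔐 ψ g = ω g) → L ≤ (Stx κ σ ψ).map ρ →
        bet 𝔐 ι κ ρ {P} ψ1 L = bet 𝔐 ι κ ρ σ ψ L := by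
      intro σ ψ hσ hψ hψω hLψ
      exact h1 G B C 𝔐 ℓ hmax hℓ ι κ ρ hL hC {P} σ ψ1 ψ hSP hσ hψ1 hψ
        (fun g => by rw [hω1, hψω]) L hL1 hLψ f1 hf1 ⟨c0, hc0, hcyc⟩
    have hb1 : bet 𝔐 ι κ ρ {P} ψ1 L = β := by
      rw [← hb0]
      exact hbeq σ0 ψ0 hS0 hψ0 hω0 hL0
    -- (iii), (iv)
    have key : ∀ (σ : Finset (Subgroup G)) (ψ : G → ℂ), SmW ℓ σ → IrrOn (stb σ) ψ →
        ((∀ g, cg 𝔐 ψ g = ω g) → df ℓ (stb σ) ψ = 1) →
        ((L ≤ (Stx κ σ ψ).map ρ ∧ df ℓ (stb σ) ψ = e ∧ bet 𝔐 ι κ ρ σ ψ L = β) ↔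
          ((∀ g, cg 𝔐 ψ g = ω g) ∧ c0 ∈ (Stx κ σ ψ).map ρ)) := by
      intro σ ψ hσ hψ hdf
      constructor
      · rintro ⟨h8, -, h9⟩
        refine ⟨fun g => ?_, h8 hc0⟩
        rw [LVB.cg_of_bet 𝔐 hcl hf0 (by rw [hb0, h9]) g, hω0]
      · rintro ⟨h8, h9⟩
        have hle : L ≤ (Stx κ σ ψ).map ρ := by
          intro c hc
          obtain ⟨k, t, ht, hne⟩ := hcyc c hc
          have huL : c * c0 ^ k ∈ L := L.mul_mem hc (L.zpow_mem hc0 k)
          have hzL : Subgroup.zpowers (c * c0 ^ k) ≤ L := by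
            rw [Subgroup.zpowers_le]
            exact huL
          have hext := (EXTV_thm G B C ι κ ρ hL {P} ψ1 hψ1 L).2.2.2.2.2 _ hzL f1 hf1
          have hu : c * c0 ^ k ∈ (Stx κ σ ψ).map ρ := by
            refine h2 G B C 𝔐 ℓ hmax hℓ ι κ ρ hL hC {P} σ ψ1 ψ hSP hσ hψ1 hψ
              (fun g => by rw [hω1, h8]) _ (hL1 huL) _ hext ⟨t, ht, ?_⟩
            rw [(CGT_thm G B C 𝔐 ι κ ρ hcl).2.2.2.1]
            · unfold trn
              rw [if_pos]
              · exact hne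
              · rw [ht]
                exact Subgroup.mem_zpowers _
            · rintro _ ⟨g, rfl⟩ y
              have hg : ρ (ι g) = 1 := (hcl.ker (ι g)).mpr ⟨g, rfl⟩
              rw [map_mul, map_mul, map_inv, hg, inv_one, one_mul, mul_one]
          have h10 := ((Stx κ σ ψ).map ρ).mul_mem hu
            (((Stx κ σ ψ).map ρ).inv_mem (((Stx κ σ ψ).map ρ).zpow_mem h9 k))
          rwa [mul_assoc, mul_inv_cancel, mul_one] at h10
        refine ⟨hle, ?_, ?_⟩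
        · rw [hdf h8, he]
        · rw [← hbeq σ ψ hσ hψ h8 hle, hb1]
    -- (v)
    have hfix := h6 G B C 𝔐 ℓ hmax hℓ ι κ ρ hL hC ω hD P x₀ hAt c0
    calc Nat.card {θ : G → ℂ // IrrOn (stb ∅) θ ∧ L ≤ (Stx κ ∅ θ).map ρ ∧
        df ℓ (stb (∅ : Finset (Subgroup G))) θ = e ∧ bet 𝔐 ι κ ρ ∅ θ L = β}
        = Nat.card {θ : G → ℂ // IrrOn (stb ∅) θ ∧ (∀ g, cg 𝔐 θ g = ω g) ∧
            c0 ∈ (Stx κ ∅ θ).map ρ} := by
          refine Nat.card_congr (Equiv.subtypeEquivRight fun θ => ?_)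
          exact and_congr_right fun hθ => key ∅ θ hSe hθ (hdfe θ hθ)
      _ = Nat.card {ψ : G → ℂ // IrrOn (stb {P}) ψ ∧ (∀ g, cg 𝔐 ψ g = ω g) ∧
            c0 ∈ (Stx κ {P} ψ).map ρ} := hfix
      _ = Nat.card {ψ : G → ℂ // IrrOn (stb {P}) ψ ∧ L ≤ (Stx κ {P} ψ).map ρ ∧
            df ℓ (stb {P}) ψ = e ∧ bet 𝔐 ι κ ρ {P} ψ L = β} := by
          refine Nat.card_congr (Equiv.subtypeEquivRight fun ψ => ?_)
          exact and_congr_right fun hψ => (key {P} ψ hSP hψ (hdfP ψ hψ)).symm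
  by_cases hN : Nonempty {θ : G → ℂ // IrrOn (stb ∅) θ ∧ L ≤ (Stx κ ∅ θ).map ρ ∧
        df ℓ (stb (∅ : Finset (Subgroup G))) θ = e ∧ bet 𝔐 ι κ ρ ∅ θ L = β}
  · obtain ⟨⟨θ, h8, h9, h10, h11⟩⟩ := hN
    rw [main ∅ θ (Or.inl rfl) h8 h9 h10 h11, sub_self, mul_zero]
  · by_cases hN' : Nonempty {ψ : G → ℂ // IrrOn (stb {P}) ψ ∧ L ≤ (Stx κ {P} ψ).map ρ ∧
        df ℓ (stb {P}) ψ = e ∧ bet 𝔐 ι κ ρ {P} ψ L = β}
    · obtain ⟨⟨θ, h8, h9, h10, h11⟩⟩ := hN'
      rw [main {P} θ (Or.inr rfl) h8 h9 h10 h11, sub_self, mul_zero]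
    · rw [not_nonempty_iff] at hN hN'
      rw [@Nat.card_of_isEmpty _ hN, @Nat.card_of_isEmpty _ hN', sub_self, mul_zero]

end Pool.Agent.DPW


end

section

set_option autoImplicit false

namespace Pool.Agent.DPX

open Pool.Agent.DPB Pool.Agent.DPW Representation

namespace FREX

theorem fixedA {ℓ : ℕ} [Fact ℓ.Prime] {P W : Type} [Group P] [Finite P]
    [AddCommGroup W] [Module (ZMod ℓ) W] (hP : IsPGroup ℓ P) (σ : P → W →+ W)
    (h1 : ∀ w, σ 1 w = w) (hm : ∀ p q w, σ (p * q) w = σ p (σ q w)) (w₀ : W)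
    (h0 : w₀ ≠ 0) : ∃ w, w ≠ 0 ∧ ∀ p, σ p w = w := by
  classical
  have hℓ : ∀ x : W, ℓ • x = 0 := by
    intro x
    rw [← Nat.cast_smul_eq_nsmul (ZMod ℓ), CharP.cast_eq_zero, zero_smul]
  let M : Submodule (ZMod ℓ) W := Submodule.span (ZMod ℓ) (Set.range fun p => σ p w₀)
  have hst : ∀ (p : P) (x : W), x ∈ M → σ p x ∈ M := by
    intro p x hx
    have hle : M ≤ M.comap ((σ p).toZModLinearMap ℓ) := by
      refine Submodule.span_le.2 ?_
      rintro _ ⟨q, rfl⟩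
      refine Submodule.subset_span ⟨p * q, ?_⟩
      exact hm p q w₀
    exact hle hx
  have : Module.Finite (ZMod ℓ) M := Module.Finite.span_of_finite (ZMod ℓ) (Set.finite_range _)
  have : Finite M := Module.finite_of_finite (ZMod ℓ)
  let _ : MulAction P M :=
    { smul := fun p x => ⟨σ p x, hst p x x.2⟩
      one_smul := fun x => Subtype.ext (h1 x)
      mul_smul := fun p q x => Subtype.ext (hm p q x) }
  have hw : w₀ ∈ M := Submodule.subset_span ⟨1, h1 w₀⟩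
  have hdvd : ℓ ∣ Nat.card M := by
    have h2 : addOrderOf (⟨w₀, hw⟩ : M) = ℓ := by
      refine addOrderOf_eq_prime ?_ ?_
      · exact Subtype.ext (hℓ w₀)
      · intro h
        exact h0 (congrArg Subtype.val h)
    exact (dvd_of_eq h2.symm).trans (addOrderOf_dvd_natCard _)
  obtain ⟨b, hb, hb0⟩ := hP.exists_fixed_point_of_prime_dvd_card_of_fixed_point M hdvd
    (a := (0 : M)) (by
      intro p
      apply Subtype.ext
      change σ p (0 : W) = 0
      exact map_zero _)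
  refine ⟨b, fun h => hb0 (Subtype.ext h.symm), fun p => ?_⟩
  exact congrArg Subtype.val (hb p)

theorem fixed {ℓ : ℕ} [Fact ℓ.Prime] {F P W : Type} [Field F] [CharP F ℓ] [Group P] [Finite P]
    [AddCommGroup W] [Module F W] (hP : IsPGroup ℓ P) (σ : Representation F P W) (w₀ : W)
    (h0 : w₀ ≠ 0) : ∃ w, w ≠ 0 ∧ ∀ p, σ p w = w := by
  have hℓ : ∀ x : W, ℓ • x = 0 := by
    intro x
    rw [← Nat.cast_smul_eq_nsmul F, CharP.cast_eq_zero, zero_smul]
  exact @fixedA ℓ _ P W _ _ _ (AddCommGroup.zmodModule hℓ) hP (fun p => (σ p).toAddMonoidHom)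
    (fun w => by
      change σ 1 w = w
      rw [map_one]
      rfl)
    (fun p q w => by
      change σ (p * q) w = σ p (σ q w)
      rw [map_mul]
      rfl) w₀ h0

section

variable {F H V : Type} [Field F] [Group H] [Fintype H] [AddCommGroup V] [Module F V]
  (ρ : Representation F H V) (P : Subgroup H)

open Classical in
theorem trS_apply (g : V →ₗ[F] V) (v : V) :
    trS P ρ ρ g v = ∑ h, if h ∈ P then ρ h (g (ρ h⁻¹ v)) else 0 := by
  rw [trS, LinearMap.sum_apply]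
  refine Finset.sum_congr rfl fun h _ => ?_
  split_ifs <;> rfl

open Classical in
theorem tN_apply (v : V) : tN P ρ v = ∑ h, if h ∈ P then ρ h v else 0 := by
  rw [tN, LinearMap.sum_apply]
  refine Finset.sum_congr rfl fun h _ => ?_
  split_ifs <;> rfl

theorem trS_fix (g : V →ₗ[F] V) (v : V) (hv : ∀ p ∈ P, ρ p v = v) :
    trS P ρ ρ g v = tN P ρ (g v) := by
  classical
  rw [trS_apply, tN_apply]
  refine Finset.sum_congr rfl fun h _ => ?_
  split_ifs with hh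
  · rw [hv _ (P.inv_mem hh)]
  · rfl

theorem trS_comm (g : V →ₗ[F] V) (p : H) (hp : p ∈ P) (v : V) :
    trS P ρ ρ g (ρ p v) = ρ p (trS P ρ ρ g v) := by
  classical
  rw [trS_apply, trS_apply, map_sum]
  refine Fintype.sum_equiv (Equiv.mulLeft p⁻¹) _ _ fun h => ?_
  have h1 : p⁻¹ * h ∈ P ↔ h ∈ P := P.mul_mem_cancel_left (P.inv_mem hp)
  simp only [Equiv.coe_mulLeft, h1]
  split_ifs with hh
  · have h2 : ρ h⁻¹ (ρ p v) = ρ (p⁻¹ * h)⁻¹ v := by
      rw [← Module.End.mul_apply, ← map_mul]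
      congr 2
      group
    have h3 : ∀ w, ρ p (ρ (p⁻¹ * h) w) = ρ h w := by
      intro w
      rw [← Module.End.mul_apply, ← map_mul]
      congr 2
      group
    rw [h2, h3]
  · rw [map_zero]

end

end FREX

open _root_.Pool.Agent.DPX.FREX in
theorem FREX_thm : Stmt_FREX := by
  intro ℓ _ F H V _ _ _ _ _ _ _ ρ P hP
  classical
  constructor
  · intro h
    obtain ⟨s, hs⟩ := LinearMap.exists_rightInverse_of_surjective (tN P ρ).rangeRestrict
      (LinearMap.range_rangeRestrict _)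
    obtain ⟨lam, hlam⟩ := LinearMap.exists_leftInverse_of_injective
      (LinearMap.range (tN P ρ)).subtype (Submodule.ker_subtype _)
    let g₀ : V →ₗ[F] V := s ∘ₗ lam
    let Φ : V →ₗ[F] V := trS P ρ ρ g₀
    have hΦ : ∀ v, (∀ p ∈ P, ρ p v = v) → Φ v = v := by
      intro v hv
      have h1 := h v hv
      change trS P ρ ρ g₀ v = v
      rw [trS_fix ρ P g₀ v hv]
      have h2 : lam v = ⟨v, h1⟩ := by
        have := LinearMap.congr_fun hlam ⟨v, h1⟩
        exact this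
      have h3 := LinearMap.congr_fun hs ⟨v, h1⟩
      change tN P ρ (s (lam v)) = v
      rw [h2]
      exact congrArg Subtype.val h3
    have hinj : Function.Injective Φ := by
      rw [← LinearMap.ker_eq_bot]
      by_contra hne
      obtain ⟨w₀, hw₀, hw0⟩ := Submodule.exists_mem_ne_zero_of_ne_bot hne
      have hst : ∀ p : P, ∀ x ∈ LinearMap.ker Φ, ρ (p : H) x ∈ LinearMap.ker Φ := by
        intro p x hx
        rw [LinearMap.mem_ker] at hx ⊢
        change trS P ρ ρ g₀ (ρ p x) = 0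
        rw [trS_comm ρ P g₀ p p.2]
        change ρ (p : H) (Φ x) = 0
        rw [hx, map_zero]
      let σ : Representation F P (LinearMap.ker Φ) :=
        { toFun := fun p => (ρ (p : H)).restrict (hst p)
          map_one' := by
            ext x
            change ρ ((1 : P) : H) (x : V) = x
            rw [Subgroup.coe_one, map_one]
            rfl
          map_mul' := fun p q => by
            ext x
            change ρ ((p * q : P) : H) (x : V) = ρ (p : H) (ρ (q : H) x)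
            rw [Subgroup.coe_mul, map_mul]
            rfl }
      obtain ⟨w, hw, hwf⟩ := fixed hP σ ⟨w₀, hw₀⟩ (fun h' => hw0 (congrArg Subtype.val h'))
      have h4 : Φ (w : V) = w := by
        refine hΦ _ fun p hp => ?_
        exact congrArg Subtype.val (hwf ⟨p, hp⟩)
      have h5 : Φ (w : V) = 0 := w.2
      rw [h5] at h4
      exact hw (Subtype.ext h4.symm)
    let e : V ≃ₗ[F] V := LinearEquiv.ofInjectiveEndo Φ hinj
    have he : ∀ v, e v = Φ v := fun v => rfl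
    have hecomm : ∀ p ∈ P, ∀ v, e.symm (ρ p v) = ρ p (e.symm v) := by
      intro p hp v
      apply e.injective
      rw [e.apply_symm_apply, he]
      change ρ p v = trS P ρ ρ g₀ (ρ p (e.symm v))
      rw [trS_comm ρ P g₀ p hp]
      change ρ p v = ρ p (e (e.symm v))
      rw [e.apply_symm_apply]
    refine ⟨g₀ ∘ₗ (e.symm : V →ₗ[F] V), ?_⟩
    ext v
    rw [trS_apply]
    have h6 : ∀ h : H, (if h ∈ P then ρ h ((g₀ ∘ₗ (e.symm : V →ₗ[F] V)) (ρ h⁻¹ v)) else 0) =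
        if h ∈ P then ρ h (g₀ (ρ h⁻¹ (e.symm v))) else 0 := by
      intro h
      split_ifs with hh
      · rw [LinearMap.comp_apply]
        change ρ h (g₀ (e.symm (ρ h⁻¹ v))) = _
        rw [hecomm _ (P.inv_mem hh)]
      · rfl
    simp only [h6]
    rw [← trS_apply ρ P g₀ (e.symm v)]
    change e (e.symm v) = v
    exact e.apply_symm_apply v
  · rintro ⟨g, hg⟩ v hv
    refine ⟨g v, ?_⟩
    rw [← trS_fix ρ P g v hv, hg]
    rfl

end Pool.Agent.DPX


end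

section

/-!
# Theorem X, BLX: the local characters over the same block are in the same block of the normalizer
-/

namespace Pool.Agent.DPX

open Pool.Agent.DP Pool.Agent.DPV Pool.Agent.DPB Pool.Agent.DPW Pool.Agent.Lib_helper13
open Representation

namespace BLX

variable {G : Type} [Group G]

/-- `t` centralizes `P`, and the `ℓ`-subgroups of its centralizer are cyclic. -/
def Q (ℓ : ℕ) (P : Subgroup G) (t : G) : Prop :=
  (∀ u ∈ P, MulAut.conj t u = u) ∧ CyC ℓ (MonoidHom.id G).range t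

theorem Q_conj {ℓ : ℕ} {P : Subgroup G} {n t : G} (hn : n ∈ stb {P}) (h : Q ℓ P t) :
    Q ℓ P (n * t * n⁻¹) := by
  obtain ⟨h1, h2⟩ := h
  refine ⟨?_, ?_⟩
  · intro u hu
    have hm : P.map (MulAut.conj n).toMonoidHom = P := mem_stb.mp hn P (Finset.mem_singleton_self P)
    rw [← hm] at hu
    obtain ⟨v, hv, rfl⟩ := hu
    have h3 : t * v * t⁻¹ = v := h1 v hv
    change n * t * n⁻¹ * (n * v * n⁻¹) * (n * t * n⁻¹)⁻¹ = n * v * n⁻¹
    calc n * t * n⁻¹ * (n * v * n⁻¹) * (n * t * n⁻¹)⁻¹ = n * (t * v * t⁻¹) * n⁻¹ := by group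
      _ = n * v * n⁻¹ := by rw [h3]
  · intro R hR _ hRc
    have h3 : IsCyclic (R.map (MulAut.conj n⁻¹).toMonoidHom) := by
      refine h2 _ (hR.map _) (fun _ _ => ⟨_, rfl⟩) ?_
      rintro _ ⟨u, hu, rfl⟩
      change n⁻¹ * u * n⁻¹⁻¹ * t = t * (n⁻¹ * u * n⁻¹⁻¹)
      calc n⁻¹ * u * n⁻¹⁻¹ * t = n⁻¹ * (u * (n * t * n⁻¹)) * n := by group
        _ = n⁻¹ * (n * t * n⁻¹ * u) * n := by rw [hRc u hu]
        _ = t * (n⁻¹ * u * n⁻¹⁻¹) := by group
    exact isCyclic_of_surjective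
      (R.equivMapOfInjective (MulAut.conj n⁻¹).toMonoidHom (MulAut.conj n⁻¹).injective).symm
      (R.equivMapOfInjective (MulAut.conj n⁻¹).toMonoidHom
        (MulAut.conj n⁻¹).injective).symm.surjective

theorem Q_iff {ℓ : ℕ} {P : Subgroup G} {n t : G} (hn : n ∈ stb {P}) :
    Q ℓ P (n * t * n⁻¹) ↔ Q ℓ P t := by
  constructor
  · intro h
    have h1 := Q_conj (inv_mem hn) h
    have h2 : n⁻¹ * (n * t * n⁻¹) * n⁻¹⁻¹ = t := by group
    rwa [h2] at h1
  · exact Q_conj hn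

theorem cyc_base {ℓ n : ℕ} [Fact ℓ.Prime] [Fintype G] {P₁ P : Subgroup G} {x₀ : G}
    (h : CycD ℓ n P₁ P x₀) : CyC ℓ ⊤ x₀ := by
  intro R hR _ hRc
  obtain ⟨t, -, ht⟩ := SUPX.part2 ℓ n G P₁ P x₀ h R hR hRc
  have := h.cyc
  have h1 : R.map (MulAut.conj t).toMonoidHom ≤ P := by
    rintro _ ⟨u, hu, rfl⟩
    exact ht u hu
  have h2 : IsCyclic (R.map (MulAut.conj t).toMonoidHom) :=
    isCyclic_of_injective (Subgroup.inclusion h1) (Subgroup.inclusion_injective h1)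
  exact isCyclic_of_surjective
    (R.equivMapOfInjective (MulAut.conj t).toMonoidHom (MulAut.conj t).injective).symm
    (R.equivMapOfInjective (MulAut.conj t).toMonoidHom
      (MulAut.conj t).injective).symm.surjective

end BLX

open _root_.Pool.Agent.DPX.BLX
open Pool.Agent.DPW.BLW (locN cl extL cjT_conj isIntegral_cjT)

theorem BLX_thm (h2 : Stmt_GDX) : Stmt_BLX := by
  classical
  intro G _ _ 𝔐 ℓ n _ h𝔐 hℓ P P₂ x₀ ψ ψ' hψ hψ' hcg hat a ha hai
  have hcen : ∀ u ∈ P, u * x₀ = x₀ * u := fun u hu => hat.cd.cen u (hat.cd.le hu)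
  have hprime : 𝔐.IsPrime := h𝔐.isPrime
  have hx₀ : x₀ ∈ stb {P} := by
    rw [mem_stb]
    intro D hD
    rw [Finset.mem_singleton] at hD
    subst hD
    have hc : ∀ u ∈ D, x₀ * u * x₀⁻¹ = u := fun u hu => by
      rw [← hcen u hu]
      group
    ext y
    rw [Subgroup.mem_map]
    constructor
    · rintro ⟨u, hu, rfl⟩
      change x₀ * u * x₀⁻¹ ∈ D
      rw [hc u hu]
      exact hu
    · intro hy
      exact ⟨y, hy, hc y hy⟩
  -- the functions
  obtain ⟨k0, hk0⟩ : ∃ k0 : G → ℂ, k0 = fun y => cjT (stb {P}) y x₀ := ⟨_, rfl⟩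
  obtain ⟨aN, haN⟩ : ∃ aN : G → ℂ, aN = fun x => if x ∈ stb {P} then a x else 0 := ⟨_, rfl⟩
  have hmem : ∀ n ∈ stb ({P} : Finset (Subgroup G)), ∀ x, n * x * n⁻¹ ∈ stb {P} ↔
      x ∈ stb ({P} : Finset (Subgroup G)) := by
    intro n hn x
    constructor
    · intro h
      have h3 : x = n⁻¹ * (n * x * n⁻¹) * n := by group
      rw [h3]
      exact mul_mem (mul_mem (inv_mem hn) h) hn
    · intro h
      exact mul_mem (mul_mem hn h) (inv_mem hn)
  have haNc : ∀ n ∈ stb ({P} : Finset (Subgroup G)), ∀ x, aN (n * x * n⁻¹) = aN x := by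
    intro n hn x
    rw [haN]
    by_cases hx : x ∈ stb ({P} : Finset (Subgroup G))
    · change (if n * x * n⁻¹ ∈ stb {P} then a (n * x * n⁻¹) else 0) = if x ∈ stb {P} then a x else 0
      rw [if_pos hx, if_pos ((hmem n hn x).2 hx), ha n hn]
    · change (if n * x * n⁻¹ ∈ stb {P} then a (n * x * n⁻¹) else 0) = if x ∈ stb {P} then a x else 0
      rw [if_neg hx, if_neg (fun h => hx ((hmem n hn x).1 h))]
  have haNi : ∀ x, IsIntegral ℤ (aN x) := by
    intro x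
    rw [haN]
    change IsIntegral ℤ (if x ∈ stb {P} then a x else 0)
    split_ifs
    · exact hai x
    · exact isIntegral_zero
  have haNo : ∀ x, x ∉ stb {P} → aN x = 0 := by
    intro x hx
    rw [haN]
    exact if_neg hx
  have hk0c : ∀ n ∈ stb ({P} : Finset (Subgroup G)), ∀ x, k0 (n * x * n⁻¹) = k0 x := by
    intro n hn x
    rw [hk0]
    exact cjT_conj _ hn x x₀
  have hk0i : ∀ x, IsIntegral ℤ (k0 x) := by
    intro x
    rw [hk0]
    exact isIntegral_cjT _ x x₀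
  have hk0o : ∀ x, x ∉ stb {P} → k0 x = 0 := by
    intro x hx
    rw [hk0]
    change cjT (stb {P}) x x₀ = 0
    unfold cjT
    rw [if_neg]
    rintro ⟨t, ht, rfl⟩
    exact hx (mul_mem (mul_mem ht hx₀) (inv_mem ht))
  obtain ⟨a1, ha1⟩ : ∃ a1 : G → ℂ, a1 = cvB k0 aN := ⟨_, rfl⟩
  have ha1c : ∀ n ∈ stb ({P} : Finset (Subgroup G)), ∀ x, a1 (n * x * n⁻¹) = a1 x := by
    intro n hn x
    rw [ha1]
    exact MULV.cvB_conj (hk0c n hn) (haNc n hn) x
  have ha1i : ∀ x, IsIntegral ℤ (a1 x) := by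
    intro x
    rw [ha1]
    exact MULV.isIntegral_cvB hk0i haNi x
  obtain ⟨a2, ha2⟩ : ∃ a2 : G → ℂ, a2 = fun x => if Q ℓ P x then a1 x else 0 := ⟨_, rfl⟩
  have ha2c : ∀ n ∈ stb ({P} : Finset (Subgroup G)), ∀ x, a2 (n * x * n⁻¹) = a2 x := by
    intro n hn x
    rw [ha2]
    change (if Q ℓ P (n * x * n⁻¹) then a1 (n * x * n⁻¹) else 0) = if Q ℓ P x then a1 x else 0
    by_cases hx : Q ℓ P x
    · rw [if_pos hx, if_pos ((Q_iff hn).2 hx), ha1c n hn]
    · rw [if_neg hx, if_neg (fun h => hx ((Q_iff hn).1 h))]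
  have ha2i : ∀ x, IsIntegral ℤ (a2 x) := by
    intro x
    rw [ha2]
    change IsIntegral ℤ (if Q ℓ P x then a1 x else 0)
    split_ifs
    · exact ha1i x
    · exact isIntegral_zero
  -- everything for one character
  have main : ∀ θ : G → ℂ, IrrOn (stb {P}) θ →
      red 𝔐 (wt θ k0) = cg 𝔐 θ x₀ ∧
      red 𝔐 (wt θ a1) = red 𝔐 (wt θ k0) * red 𝔐 (wt θ a) ∧
      red 𝔐 (wt θ a1) = ∑ q : Quotient (EXPV.cjS (stb ({P} : Finset (Subgroup G)))),
        red 𝔐 (a2 q.out) * cg 𝔐 θ q.out := by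
    intro θ hθ
    have B1 := BRC_thm G G Unit 𝔐 ℓ h𝔐 hℓ (MonoidHom.id G) MulAut.conj 1 (locN G) P hat.cd.c1 θ hθ ⊤ θ
      (extL hθ)
    obtain ⟨G1, G2⟩ := h2 G G Unit 𝔐 ℓ h𝔐 hℓ (MonoidHom.id G) MulAut.conj 1 (locN G) P hat.cd.c1
      θ hθ
    obtain ⟨G3, G4⟩ := G2 x₀ hcen (cyc_base hat.cd)
    have ik0 : IsIntegral ℤ (wt θ k0) := (B1 k0 hk0c hk0i).1
    have ia : IsIntegral ℤ (wt θ a) := (B1 a ha hai).1
    refine ⟨?_, ?_, ?_⟩
    · rw [G3, hk0]
    · have hres : IrrOn ((stb ({P} : Finset (Subgroup G))).comap (MonoidHom.id G))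
          (fun h => θ (MonoidHom.id G h)) := by
        rw [Subgroup.comap_id]
        exact hθ
      have e1 := MULV.wt_cvB (MonoidHom.id G) (stb {P}) θ hθ hres k0 aN hk0o haNo haNc
      have e2 : wt θ aN = wt θ a := by
        rw [wt, wt]
        congr 1
        refine Finset.sum_congr rfl fun x _ => ?_
        by_cases hx : x ∈ stb ({P} : Finset (Subgroup G))
        · rw [haN]
          change (if x ∈ stb {P} then a x else 0) * θ x = a x * θ x
          rw [if_pos hx]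
        · rw [hθ.2 x hx, mul_zero, mul_zero]
      rw [ha1, e1, e2, red_mul 𝔐 ik0 ia]
    · have e1 : red 𝔐 (wt θ a1) = red 𝔐 (wt θ a2) := by
        refine (B1 a1 ha1c ha1i).2 a2 ha2c ha2i ?_
        intro x _ hx
        by_cases hQ : Q ℓ P x
        · rw [ha2]
          change red 𝔐 (a1 x) = red 𝔐 (if Q ℓ P x then a1 x else 0)
          rw [if_pos hQ]
        · have hd : ¬ CyC ℓ (MonoidHom.id G).range x := fun hd => hQ ⟨hx, hd⟩
          have e2 := G4 aN haNc haNi x hx hd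
          have e3 : a1 x = ∑ y : G, cjT (stb {P}) y x₀ * aN ((MonoidHom.id G y)⁻¹ * x) := by
            rw [ha1, hk0]
            rfl
          rw [e3, e2, ha2]
          change 0 = red 𝔐 (if Q ℓ P x then a1 x else 0)
          rw [if_neg hQ, red_zero]
      have hint : ∀ t, IsIntegral ℤ ((∑ x, cjT (stb {P}) x t * θ x) / θ 1) := by
        intro t
        exact (B1 (fun x => cjT (stb {P}) x t) (fun n hn x => cjT_conj _ hn x t)
          (fun x => isIntegral_cjT _ x t)).1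
      rw [e1, EXPV.wt_classes (stb {P}) a2 θ ha2c,
        red_sum 𝔐 _ _ (fun q _ => (ha2i _).mul (hint _))]
      refine Finset.sum_congr rfl fun q _ => ?_
      rw [red_mul 𝔐 (ha2i _) (hint _)]
      by_cases hQ : Q ℓ P q.out
      · congr 1
        have e4 := G1 ⊤ θ (extL hθ) q.out (Subgroup.mem_top _) hQ.1 hQ.2
        have e5 := (CGT_thm G G Unit 𝔐 (MonoidHom.id G) MulAut.conj 1 (cl G)).2.1 θ q.out
        have e6 : cgT 𝔐 ((stb {P}).map (MonoidHom.id G)) θ q.out =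
            red 𝔐 ((∑ x, cjT (stb {P}) x q.out * θ x) / θ 1) := by
          rw [Subgroup.map_id]
          rfl
        rw [← e6, ← e4]
        exact e5
      · have e7 : a2 q.out = 0 := by
          rw [ha2]
          exact if_neg hQ
        rw [e7, red_zero, zero_mul, zero_mul]
  obtain ⟨m1, m2, m3⟩ := main ψ hψ
  obtain ⟨n1, n2, n3⟩ := main ψ' hψ'
  have hk : red 𝔐 (wt ψ k0) = red 𝔐 (wt ψ' k0) := by
    rw [m1, n1]
    exact hcg x₀
  have ha1eq : red 𝔐 (wt ψ a1) = red 𝔐 (wt ψ' a1) := by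
    rw [m3, n3]
    refine Finset.sum_congr rfl fun q _ => ?_
    rw [hcg]
  rw [m2, n2, ← hk] at ha1eq
  refine mul_left_cancel₀ ?_ ha1eq
  rw [m1]
  exact hat.ne

end Pool.Agent.DPX


end

section

/-!
# Theorem X, LFX: lifting of the elements with central function different from zero
-/

set_option autoImplicit false

namespace Pool.Agent.DPX

open Pool.Agent.DP Pool.Agent.DPB Pool.Agent.DPV Pool.Agent.DPW Pool.Agent.Lib_helper13
open Representation

namespace LFX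

/-- The condition on the centralizer of `x` does not change under conjugation by an element
of the subgroup. -/
theorem cyC_conj {B : Type} [Group B] {ℓ : ℕ} (T : Subgroup B) {s : B} (hs : s ∈ T) {x : B}
    (hx : CyC ℓ T x) : CyC ℓ T (s * x * s⁻¹) := by
  intro Q hQ hQT hQx
  have hmem : ∀ u, u ∈ Q.map (MulAut.conj s⁻¹).toMonoidHom ↔ s * u * s⁻¹ ∈ Q := by
    intro u
    rw [Subgroup.mem_map_equiv, MulAut.conj_symm_apply, inv_inv]
  have h1 : IsCyclic (Q.map (MulAut.conj s⁻¹).toMonoidHom) := by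
    refine hx _ (hQ.map _) ?_ ?_
    · intro u hu
      have h2 : u = s⁻¹ * (s * u * s⁻¹) * s := by group
      rw [h2]
      exact mul_mem (mul_mem (inv_mem hs) (hQT ((hmem u).1 hu))) hs
    · intro u hu
      have h2 := hQx _ ((hmem u).1 hu)
      have h3 : u * x = s⁻¹ * (s * u * s⁻¹ * (s * x * s⁻¹)) * s := by group
      rw [h3, h2]
      group
  exact (Q.equivMapOfInjective (MulAut.conj s⁻¹).toMonoidHom
    (MulAut.conj s⁻¹).injective).isCyclic.2 h1

/-- The `ℓ`-subgroups of the centralizer of `x₀` are cyclic. -/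
theorem cyC_top {G : Type} [Group G] [Finite G] {ℓ n : ℕ} [Fact ℓ.Prime] {P₁ P : Subgroup G}
    {x₀ : G} (h : CycD ℓ n P₁ P x₀) : CyC ℓ ⊤ x₀ := by
  intro Q hQ _ hQx
  have hPC : P ≤ Subgroup.centralizer ({x₀} : Set G) := by
    intro u hu
    rw [Subgroup.mem_centralizer_singleton_iff]
    exact h.cen u hu
  have hQC : Q ≤ Subgroup.centralizer ({x₀} : Set G) := by
    intro u hu
    rw [Subgroup.mem_centralizer_singleton_iff]
    exact hQx u hu
  obtain ⟨c, -, hc⟩ := SUPX.syl (ℓ := ℓ) (n := n) _ P Q hPC h.card h.sq hQ hQC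
  have hcyc : IsCyclic P := h.cyc
  have h1 : Q.map (MulAut.conj c).toMonoidHom ≤ P := by
    rintro _ ⟨u, hu, rfl⟩
    exact hc u hu
  have h2 : IsCyclic (Q.map (MulAut.conj c).toMonoidHom) :=
    isCyclic_of_injective (Subgroup.inclusion h1) (Subgroup.inclusion_injective h1)
  exact (Q.equivMapOfInjective (MulAut.conj c).toMonoidHom
    (MulAut.conj c).injective).isCyclic.2 h2

end LFX

open _root_.Pool.Agent.DPX.LFX in
theorem LFX_thm (h2 : Stmt_GDX) : Stmt_LFX := by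
  classical
  have h1 : Stmt_BRC := BRC_thm
  intro G B C _ _ _ _ _ 𝔐 ℓ n _ h𝔐 hℓ ι κ ρ hL P PP x₀ ψ hψ hat L f hf c hc a hainv haint hasup
    hane
  have hprime : 𝔐.IsPrime := h𝔐.isPrime
  have hcl := hL.cl
  have hcard : Nat.card P = ℓ := hat.cd.c1
  have hcen : ∀ u ∈ P, u * x₀ = x₀ * u := fun u hu => hat.cd.cen u (hat.cd.le hu)
  have htop : CyC ℓ ⊤ x₀ := cyC_top hat.cd
  have hρ : ∀ g, ρ (ι g) = 1 := fun g => (hcl.ker _).mpr ⟨g, rfl⟩
  have hκ : ∀ g u, κ (ι g) u = g * u * g⁻¹ := by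
    intro g u
    apply hcl.inj
    rw [hcl.act, map_mul, map_mul, map_inv]
  obtain ⟨hf1, hf2⟩ := id hf
  obtain ⟨H, hH⟩ : ∃ H, H = Stx κ {P} ψ ⊓ L.comap ρ := ⟨_, rfl⟩
  rw [← hH] at hf1
  have hmem : ∀ g, ι g ∈ H ↔ g ∈ stb ({P} : Finset (Subgroup G)) := by
    intro g
    rw [hH, Subgroup.mem_inf, Subgroup.mem_comap, hρ, DPC.TRBR.iota_mem hcl hψ]
    exact ⟨fun h => h.1, fun h => ⟨h, L.one_mem⟩⟩
  have hcomap : H.comap ι = stb {P} := by
    ext g
    rw [Subgroup.mem_comap, hmem]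
  have hres : IrrOn (H.comap ι) (fun h => f (ι h)) := by
    rw [hcomap]
    have h3 : (fun h => f (ι h)) = ψ := funext hf2
    rw [h3]
    exact hψ
  -- the normalizer
  obtain ⟨N, hN⟩ : ∃ N, N = stb ({P} : Finset (Subgroup G)) := ⟨_, rfl⟩
  have hNP : ∀ n ∈ N, ∀ u ∈ P, n * u * n⁻¹ ∈ P := by
    intro n hn u hu
    rw [hN, mem_stb] at hn
    have h3 := hn P (Finset.mem_singleton_self P)
    rw [← h3]
    exact ⟨u, hu, rfl⟩
  have hx0N : x₀ ∈ N := by
    rw [hN, mem_stb]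
    intro D hD
    rw [Finset.mem_singleton] at hD
    subst hD
    ext u
    constructor
    · rintro ⟨v, hv, rfl⟩
      change x₀ * v * x₀⁻¹ ∈ D
      rw [← hcen v hv, mul_inv_cancel_right]
      exact hv
    · intro hu
      refine ⟨u, hu, ?_⟩
      change x₀ * u * x₀⁻¹ = u
      rw [← hcen u hu, mul_inv_cancel_right]
  obtain ⟨k, hk⟩ : ∃ k : B → ℂ, k = fun x => cjT (N.map ι) x (ι x₀) := ⟨_, rfl⟩
  have hkN : ∀ n ∈ N, ∀ x, k (ι n * x * (ι n)⁻¹) = k x := by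
    intro n hn x
    rw [hk]
    exact BRV.cjT_conj (Subgroup.mem_map_of_mem ι hn) x _
  have hkint : ∀ x, IsIntegral ℤ (k x) := by
    intro x
    rw [hk]
    exact BRV.isIntegral_cjT _ _ _
  have hkι : ∀ y, k (ι y) = cjT N y x₀ := by
    intro y
    rw [hk]
    have h3 : (∃ r ∈ N.map ι, ι y = r * ι x₀ * r⁻¹) ↔ ∃ r ∈ N, y = r * x₀ * r⁻¹ := by
      constructor
      · rintro ⟨_, ⟨n, hn, rfl⟩, h⟩
        refine ⟨n, hn, ?_⟩
        apply hcl.inj
        rw [h, map_mul, map_mul, map_inv]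
      · rintro ⟨n, hn, rfl⟩
        refine ⟨ι n, Subgroup.mem_map_of_mem ι hn, ?_⟩
        rw [map_mul, map_mul, map_inv]
    change cjT (N.map ι) (ι y) (ι x₀) = cjT N y x₀
    rw [cjT, cjT]
    by_cases hx : ∃ r ∈ N, y = r * x₀ * r⁻¹
    · rw [if_pos hx, if_pos (h3.mpr hx)]
    · rw [if_neg hx, if_neg (fun hx' => hx (h3.mp hx'))]
  have hk0 : ∀ x, x ∉ N.map ι → k x = 0 := by
    intro x hx
    rw [hk]
    change cjT (N.map ι) x (ι x₀) = 0
    rw [cjT, if_neg]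
    rintro ⟨s, hs, rfl⟩
    exact hx (mul_mem (mul_mem hs (Subgroup.mem_map_of_mem ι hx0N)) (inv_mem hs))
  have hkr : ∀ x, x ∉ Set.range ι → k x = 0 := by
    intro x hx
    refine hk0 x ?_
    rintro ⟨n, -, rfl⟩
    exact hx ⟨n, rfl⟩
  have hkH : ∀ x, x ∉ H → k x = 0 := by
    intro x hx
    refine hk0 x ?_
    rintro ⟨n, hn, rfl⟩
    exact hx ((hmem n).2 (hN ▸ hn))
  have hksum : ∀ F : B → ℂ, ∑ x, k x * F x = ∑ y, cjT N y x₀ * F (ι y) := by
    intro F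
    symm
    refine Fintype.sum_of_injective ι hcl.inj _ _ ?_ ?_
    · intro x hx
      rw [hkr x hx, zero_mul]
    · intro y
      rw [hkι]
  have hwk : wt f k = wt ψ (fun y => cjT N y x₀) := by
    rw [wt, wt, hksum]
    have h3 : f 1 = ψ 1 := by rw [← hf2, map_one]
    rw [h3]
    congr 1
    exact Finset.sum_congr rfl fun y _ => by rw [hf2]
  -- `a` on `H`
  obtain ⟨aH, haH⟩ : ∃ aH : B → ℂ, aH = fun x => if x ∈ H then a x else 0 := ⟨_, rfl⟩
  have haH1 : ∀ x, x ∈ H → aH x = a x := fun x hx => by rw [haH]; exact if_pos hx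
  have haH0 : ∀ x, x ∉ H → aH x = 0 := fun x hx => by rw [haH]; exact if_neg hx
  have hιH : ∀ n ∈ N, ι n ∈ H := fun n hn => (hmem n).2 (hN ▸ hn)
  have haHN : ∀ n ∈ N, ∀ x, aH (ι n * x * (ι n)⁻¹) = aH x := by
    intro n hn x
    by_cases hx : x ∈ H
    · rw [haH1 x hx, haH1 _ (mul_mem (mul_mem (hιH n hn) hx) (inv_mem (hιH n hn)))]
      exact hainv n (hN ▸ hn) x
    · rw [haH0 x hx, haH0]
      intro h3
      apply hx
      have h4 : x = (ι n)⁻¹ * (ι n * x * (ι n)⁻¹) * ι n := by group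
      rw [h4]
      exact mul_mem (mul_mem (inv_mem (hιH n hn)) h3) (hιH n hn)
  have haHint : ∀ x, IsIntegral ℤ (aH x) := by
    intro x
    by_cases hx : x ∈ H
    · rw [haH1 x hx]
      exact haint x
    · rw [haH0 x hx]
      exact isIntegral_zero
  have hwaH : wt f aH = wt f a := by
    rw [wt, wt]
    congr 1
    refine Finset.sum_congr rfl fun x _ => ?_
    by_cases hx : x ∈ H
    · rw [haH1 x hx]
    · rw [hf1.2 x hx, mul_zero, mul_zero]
  -- the product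
  obtain ⟨a1, ha1⟩ : ∃ a1, a1 = cvB k aH := ⟨_, rfl⟩
  have hw1 : wt f a1 = wt f k * wt f aH := by
    rw [ha1]
    refine MULV.wt_cvB ι H f hf1 hres k aH hkH haH0 ?_
    intro h hh x
    exact haHN h (hN ▸ (hmem h).1 hh) x
  have ha1int : ∀ x, IsIntegral ℤ (a1 x) := by
    rw [ha1]
    exact MULV.isIntegral_cvB hkint haHint
  have ha1N : ∀ n ∈ N, ∀ x, a1 (ι n * x * (ι n)⁻¹) = a1 x := by
    intro n hn x
    rw [ha1]
    exact MULV.cvB_conj (hkN n hn) (haHN n hn) x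
  have ha1sum : ∀ x, a1 x = ∑ y : G, cjT N y x₀ * aH ((ι y)⁻¹ * x) := by
    intro x
    rw [ha1, cvB]
    exact hksum (fun y => aH (y⁻¹ * x))
  have ha1sup : ∀ x, a1 x ≠ 0 → ρ x = c := by
    intro x hx
    rw [ha1sum] at hx
    obtain ⟨y, -, hy⟩ := Finset.exists_ne_zero_of_sum_ne_zero hx
    have h3 : aH ((ι y)⁻¹ * x) ≠ 0 := fun h => hy (by rw [h, mul_zero])
    by_contra h4
    apply h3
    by_cases h5 : (ι y)⁻¹ * x ∈ H
    · rw [haH1 _ h5]
      apply hasup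
      rw [map_mul, map_inv, hρ, inv_one, one_mul]
      exact h4
    · exact haH0 _ h5
  have hBk := (h1 G B C 𝔐 ℓ h𝔐 hℓ ι κ ρ hL P hcard ψ hψ L f hf k (hN ▸ hkN) hkint).1
  have hBa := (h1 G B C 𝔐 ℓ h𝔐 hℓ ι κ ρ hL P hcard ψ hψ L f hf aH (hN ▸ haHN) haHint).1
  obtain ⟨hG1, hG2⟩ := h2 G B C 𝔐 ℓ h𝔐 hℓ ι κ ρ hL P hcard ψ hψ
  obtain ⟨hG3, hG4⟩ := hG2 x₀ hcen htop
  have hne1 : red 𝔐 (wt f a1) ≠ 0 := by
    rw [hw1, red_mul 𝔐 hBk hBa, hwaH]
    refine mul_ne_zero ?_ hane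
    rw [hwk, hN, ← hG3]
    exact hat.ne
  -- the part of `a1` that counts
  obtain ⟨Q, hQ⟩ : ∃ Q : B → Prop, Q = fun x => (∀ u ∈ P, κ x u = u) ∧
      CyC ℓ ι.range x := ⟨_, rfl⟩
  have hQN : ∀ n ∈ N, ∀ x, Q x → Q (ι n * x * (ι n)⁻¹) := by
    intro n hn x hx
    rw [hQ] at hx ⊢
    refine ⟨?_, ?_⟩
    · intro u hu
      have h3 : κ (ι n * x * (ι n)⁻¹) u = n * κ x (n⁻¹ * u * n) * n⁻¹ := by
        rw [map_mul, map_mul, MulAut.mul_apply, MulAut.mul_apply, ← map_inv, hκ, hκ, inv_inv]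
      have h4 : n⁻¹ * u * n ∈ P := by
        have := hNP n⁻¹ (inv_mem hn) u hu
        rwa [inv_inv] at this
      rw [h3, hx.1 _ h4]
      group
    · exact cyC_conj ι.range ⟨n, rfl⟩ hx.2
  have hQN' : ∀ n ∈ N, ∀ x, Q (ι n * x * (ι n)⁻¹) ↔ Q x := by
    intro n hn x
    refine ⟨fun h => ?_, hQN n hn x⟩
    have h3 := hQN n⁻¹ (inv_mem hn) _ h
    have h4 : ι n⁻¹ * (ι n * x * (ι n)⁻¹) * (ι n⁻¹)⁻¹ = x := by
      rw [map_inv]
      group
    rwa [h4] at h3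
  obtain ⟨a2, ha2⟩ : ∃ a2 : B → ℂ, a2 = fun x => if Q x then a1 x else 0 := ⟨_, rfl⟩
  have ha21 : ∀ x, Q x → a2 x = a1 x := fun x hx => by rw [ha2]; exact if_pos hx
  have ha20 : ∀ x, ¬ Q x → a2 x = 0 := fun x hx => by rw [ha2]; exact if_neg hx
  have ha2N : ∀ n ∈ N, ∀ x, a2 (ι n * x * (ι n)⁻¹) = a2 x := by
    intro n hn x
    by_cases hx : Q x
    · rw [ha21 x hx, ha21 _ ((hQN' n hn x).2 hx)]
      exact ha1N n hn x
    · rw [ha20 x hx, ha20 _ (fun h => hx ((hQN' n hn x).1 h))]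
  have ha2int : ∀ x, IsIntegral ℤ (a2 x) := by
    intro x
    by_cases hx : Q x
    · rw [ha21 x hx]
      exact ha1int x
    · rw [ha20 x hx]
      exact isIntegral_zero
  have hne2 : red 𝔐 (wt f a2) ≠ 0 := by
    have h3 := (h1 G B C 𝔐 ℓ h𝔐 hℓ ι κ ρ hL P hcard ψ hψ L f hf a1 (hN ▸ ha1N) ha1int).2
      a2 (hN ▸ ha2N) ha2int ?_
    · rw [← h3]
      exact hne1
    · intro x _ hx
      by_cases hxQ : Q x
      · rw [ha21 x hxQ]
      · rw [ha20 x hxQ, red_zero, ha1sum, hN]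
        refine hG4 aH (hN ▸ haHN) haHint x hx ?_
        intro h4
        apply hxQ
        rw [hQ]
        exact ⟨hx, h4⟩
  -- expansion
  by_contra hcon
  push Not at hcon
  apply hne2
  have hinv' : ∀ t ∈ N.map ι, ∀ x, a2 (t * x * t⁻¹) = a2 x := by
    rintro _ ⟨n, hn, rfl⟩ x
    exact ha2N n hn x
  have hint : ∀ t, IsIntegral ℤ ((∑ x, cjT (N.map ι) x t * f x) / f 1) := by
    intro t
    refine (h1 G B C 𝔐 ℓ h𝔐 hℓ ι κ ρ hL P hcard ψ hψ L f hf
      (fun x => cjT (N.map ι) x t) ?_ ?_).1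
    · intro n hn x
      exact BRV.cjT_conj (Subgroup.mem_map_of_mem ι (hN ▸ hn)) x t
    · intro x
      exact BRV.isIntegral_cjT _ _ _
  rw [EXPV.wt_classes (N.map ι) a2 f hinv', red_sum 𝔐 _ _ fun q _ => (ha2int _).mul (hint _)]
  refine Finset.sum_eq_zero fun q _ => ?_
  rw [red_mul 𝔐 (ha2int _) (hint _)]
  by_cases hq : Q q.out
  · by_cases h3 : a1 q.out = 0
    · rw [ha21 _ hq, h3, red_zero, zero_mul]
    · have h4 := ha1sup _ h3
      have h5 := hcon q.out h4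
      have hq' := hq
      rw [hQ] at hq'
      have h6 := hG1 L f hf q.out (h4 ▸ hc) hq'.1 hq'.2
      rw [h5, ← hN] at h6
      rw [cgT] at h6
      rw [← h6, mul_zero]
  · rw [ha20 _ hq, red_zero, zero_mul]

end Pool.Agent.DPX


end
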