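import Mathlib
import Pool.Agent.DAM.C02
import Pool.Agent.DAM.C10
import Pool.Agent.DAM.C11
import Pool.Agent.DAM.C15
import Pool.Agent.DAM.C18
import Pool.Agent.DAM.C19
import Pool.Agent.DAM.C20
import Pool.Agent.DAM.C26
import Pool.Agent.DAM.C28

/-! Parts: DPN.FF, DPT.OUTN, DPC.FRI, DPB.NPJ -/

section

/-!
# FF: only the fixed pairs contribute
-/

namespace Pool.Agent.DPN

open Pool.Agent.DP Pool.Agent.DPC Pool.Agent.DPM Pool.Agent.Lib_helper13 Representation

namespace FF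

/-- the weighted number of the characters -/
noncomputable def GG {X : Type} [Group X] [Fintype X] (𝔐 : Ideal (integralClosure ℤ ℂ))
    (ℓ d : ℕ) (P : Set (X → (integralClosure ℤ ℂ) ⧸ 𝔐)) (S : Subgroup X) : ℚ :=
  (Nat.card S : ℚ) * Nat.card {ψ : S → ℂ // IsIrr ψ ∧ HasDefect ℓ ψ d ∧ cen 𝔐 S.subtype ψ ∈ P}

theorem GG_map {X : Type} [Group X] [Fintype X] (𝔐 : Ideal (integralClosure ℤ ℂ))
    (ℓ d : ℕ) (P : Set (X → (integralClosure ℤ ℂ) ⧸ 𝔐)) (Y : Subgroup X) (S : Subgroup Y) :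
    GG 𝔐 ℓ d P (S.map Y.subtype) =
      (Nat.card S : ℚ) * Nat.card {ψ : S → ℂ // IsIrr ψ ∧ HasDefect ℓ ψ d ∧
        cen 𝔐 (Y.subtype.comp S.subtype) ψ ∈ P} := by
  rw [GG]
  congr 1
  · exact congrArg _ (Nat.card_congr (S.equivMapOfInjective Y.subtype Y.subtype_injective).toEquiv).symm
  · congr 1
    symm
    apply card_irr_equiv (S.equivMapOfInjective Y.subtype Y.subtype_injective)
    intro ψ _
    rw [hasDefect_comp_equiv (S.equivMapOfInjective Y.subtype Y.subtype_injective),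
      ← cen_comp_equiv 𝔐 (S.equivMapOfInjective Y.subtype Y.subtype_injective)
        (S.map Y.subtype).subtype ψ]
    rfl

section Fixed

variable {A T H X : Type} [Group A] [Fintype A] [Group T] [Fintype T] [Group H] [Fintype H]
  [Group X]

/-- the number of the characters of a subgroup of the subgroup `I` -/
noncomputable def NN (𝔐 : Ideal (integralClosure ℤ ℂ)) (ℓ d : ℕ) (j : A →* T) (θ : A → ℂ)
    (i : T →* X) (P : Set (X → (integralClosure ℤ ℂ) ⧸ 𝔐)) (I : Subgroup T) (W : Subgroup I) : ℚ :=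
  Nat.card {ψ : W → ℂ // IsIrr ψ ∧ ip (fun a : A => ext0 (ext0 ψ) (j a)) θ ≠ 0 ∧
    HasDefect ℓ ψ d ∧ cen 𝔐 (i.comp (I.subtype.comp W.subtype)) ψ ∈ P}

/-- the isomorphism -/
noncomputable def eT (p : T →* H) (V : Subgroup H) :
    V.comap (p.comp (⊤ : Subgroup T).subtype) ≃* V.comap p where
  toFun x := ⟨((x : (⊤ : Subgroup T)) : T), x.2⟩
  invFun x := ⟨⟨(x : T), Subgroup.mem_top _⟩, x.2⟩
  left_inv _ := rfl
  right_inv _ := rfl
  map_mul' _ _ := rfl

theorem NN_top (𝔐 : Ideal (integralClosure ℤ ℂ)) (ℓ d : ℕ) (j : A →* T) (p : T →* H) (θ : A → ℂ)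
    (i : T →* X) (P : Set (X → (integralClosure ℤ ℂ) ⧸ 𝔐)) (I : Subgroup T) (hI : I = ⊤)
    (V : Subgroup H) :
    NN 𝔐 ℓ d j θ i P I (V.comap (p.comp I.subtype)) = NT 𝔐 ℓ d j p θ i P V := by
  subst hI
  rw [NN, NT]
  congr 1
  apply card_irr_equiv (eT p V)
  intro ψ _
  rw [hasDefect_comp_equiv (eT p V), ← cen_comp_equiv 𝔐 (eT p V) (i.comp (V.comap p).subtype) ψ]
  have h1 : (fun a : A => ext0 (ext0 (fun y => ψ (eT p V y))) (j a)) =
      fun a : A => ext0 ψ (j a) := by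
    funext a
    rw [ext0_of_mem _ (Subgroup.mem_top (j a))]
    by_cases h : j a ∈ V.comap p
    · rw [ext0_of_mem ψ h, ext0_of_mem _ (show (⟨j a, Subgroup.mem_top _⟩ : (⊤ : Subgroup T)) ∈
        V.comap (p.comp (⊤ : Subgroup T).subtype) from h)]
      rfl
    · rw [ext0_of_not_mem ψ h, ext0_of_not_mem _
        (show ¬ (⟨j a, Subgroup.mem_top _⟩ : (⊤ : Subgroup T)) ∈
        V.comap (p.comp (⊤ : Subgroup T).subtype) from h)]
  rw [h1]
  rfl

theorem inf_comap (p : T →* H) (I : Subgroup T) (V : Subgroup H) :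
    (V ⊓ I.map p).comap (p.comp I.subtype) = V.comap (p.comp I.subtype) := by
  ext x
  rw [Subgroup.mem_comap, Subgroup.mem_comap, Subgroup.mem_inf]
  constructor
  · exact fun h => h.1
  · exact fun h => ⟨h, ⟨(x : T), x.2, rfl⟩⟩

/-- The Moebius sum of the numbers of the characters over `θ` is `0` if the image of the inertia
group is proper. -/
theorem sum_zero (𝔐 : Ideal (integralClosure ℤ ℂ)) (ℓ d : ℕ) (j : A →* T) (p : T →* H)
    (θ : A → ℂ) (i : T →* X) (P : Set (X → (integralClosure ℤ ℂ) ⧸ 𝔐)) (I : Subgroup T)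
    (hI : I.map p ≠ ⊤) (m : Subgroup H → ℚ) (hm : Mob m) :
    ∑ V, m V * ((Nat.card ↥(V ⊓ I.map p) : ℚ) *
      NN 𝔐 ℓ d j θ i P I (V.comap (p.comp I.subtype))) = 0 := by
  have h := ((MOBX_thm H).2 m hm).2 (I.map p) hI
    (fun W => (Nat.card W : ℚ) * NN 𝔐 ℓ d j θ i P I (W.comap (p.comp I.subtype)))
  rw [← h]
  refine Finset.sum_congr rfl fun V _ => ?_
  simp only [inf_comap]

end Fixed

section Inert

variable {O X H : Type} [Group O] [Fintype O] [Group X] [Fintype X] [Group H] [Fintype H]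
variable {j : O →* X} {c : X →* MulAut O} {p : X →* H}

theorem inert_of_map (h : ClG j c p) {θ : O → ℂ} (hθ : IsIrr θ)
    (hI : (inert c θ).map p = ⊤) : Function.Surjective p ∧ inert c θ = ⊤ := by
  constructor
  · intro y
    have hy : y ∈ (inert c θ).map p := by rw [hI]; exact Subgroup.mem_top y
    obtain ⟨x, -, rfl⟩ := hy
    exact ⟨x, rfl⟩
  · rw [eq_top_iff]
    intro t _
    have hy : p t ∈ (inert c θ).map p := by rw [hI]; exact Subgroup.mem_top _
    obtain ⟨s, hs, hst⟩ := hy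
    have h1 : p (s⁻¹ * t) = 1 := by rw [map_mul, map_inv, hst, inv_mul_cancel]
    obtain ⟨a, ha⟩ := (h.ker _).mp h1
    have h2 : j a ∈ inert c θ := by
      intro b
      have h3 : c (j a) b = a * b * a⁻¹ := by
        apply h.inj
        rw [h.act, map_mul, map_mul, map_inv]
      rw [h3]
      exact hθ.conj_eq a b
    have h4 : t = s * j a := by rw [ha]; group
    rw [h4]
    exact mul_mem hs h2

theorem FP_iff (h : ClG j c p) (τ : Finset (Subgroup O)) {θ : stb τ → ℂ} (hθ : IsIrr θ) :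
    FP h τ θ ↔ (inert (cS h τ) θ).map (pS p j τ) = ⊤ := by
  constructor
  · rintro ⟨h1, h2⟩
    rw [eq_top_iff]
    intro y _
    obtain ⟨x, rfl⟩ := h1 y
    exact ⟨x, fun a => h2 x a, rfl⟩
  · intro hI
    obtain ⟨h1, h2⟩ := inert_of_map (clG_S h τ) hθ hI
    refine ⟨h1, fun t a => ?_⟩
    have ht : t ∈ inert (cS h τ) θ := by rw [h2]; exact Subgroup.mem_top t
    exact ht a

end Inert

end FF

open Classical in
theorem FF_thm (h1 : Stmt_FFA) (h2 : Stmt_FFC) : Stmt_FF := by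
  intro O X H _ _ _ _ _ _ 𝔐 ℓ _ j c p h hp hcore Z m hm d P
  have hA := h1 O X H ℓ j c p h hp hcore Z m hm (FF.GG 𝔐 ℓ d P)
  have hL : ∑ V, m V * DK 𝔐 ℓ d ((Z.map j).subgroupOf (V.comap p)) (V.comap p).subtype P =
      ∑ V, m V * ∑ σ ∈ Ch ℓ ((Z.map j).subgroupOf (V.comap p)), (-1 : ℚ) ^ σ.card *
        FF.GG 𝔐 ℓ d P ((stb σ).map (V.comap p).subtype) := by
    refine Finset.sum_congr rfl fun V _ => ?_
    congr 1
    rw [DK]
    refine Finset.sum_congr rfl fun σ _ => ?_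
    rw [FF.GG_map]
  rw [hL, hA]
  refine Finset.sum_congr rfl fun τ _ => ?_
  congr 1
  have hC : ∀ V : Subgroup H, FF.GG 𝔐 ℓ d P (V.comap p ⊓ YS j τ) =
      ∑ θ ∈ irrF (stb τ), (Nat.card (stb τ) : ℚ) *
        ((Nat.card ↥(V ⊓ (inert (cS h τ) θ).map (pS p j τ)) : ℚ) *
          FF.NN 𝔐 ℓ d (jS h τ) θ (YS j τ).subtype P (inert (cS h τ) θ)
            (V.comap ((pS p j τ).comp (inert (cS h τ) θ).subtype))) := by
    intro V
    rw [FF.GG]
    exact h2 O X H 𝔐 ℓ j c p h τ d P V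
  have hC' : ∑ V, m V * FF.GG 𝔐 ℓ d P (V.comap p ⊓ YS j τ) =
      ∑ θ ∈ irrF (stb τ), (Nat.card (stb τ) : ℚ) * ∑ V, m V *
        ((Nat.card ↥(V ⊓ (inert (cS h τ) θ).map (pS p j τ)) : ℚ) *
          FF.NN 𝔐 ℓ d (jS h τ) θ (YS j τ).subtype P (inert (cS h τ) θ)
            (V.comap ((pS p j τ).comp (inert (cS h τ) θ).subtype))) := by
    simp only [hC, Finset.mul_sum]
    rw [Finset.sum_comm]
    refine Finset.sum_congr rfl fun θ _ => Finset.sum_congr rfl fun V _ => ?_
    ring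
  rw [hC', Finset.sum_filter]
  refine Finset.sum_congr rfl fun θ hθ => ?_
  have hθ' : IsIrr θ := mem_irrF.mp hθ
  by_cases hF : FP h τ θ
  · rw [if_pos hF]
    congr 1
    have hI := (FF.FP_iff h τ hθ').mp hF
    have hI' := (FF.inert_of_map (clG_S h τ) hθ' hI).2
    refine Finset.sum_congr rfl fun V _ => ?_
    rw [FF.NN_top 𝔐 ℓ d (jS h τ) (pS p j τ) θ (YS j τ).subtype P _ hI' V, hI, inf_top_eq]
  · rw [if_neg hF, FF.sum_zero 𝔐 ℓ d (jS h τ) (pS p j τ) θ (YS j τ).subtype P _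
      (fun hI => hF ((FF.FP_iff h τ hθ').mpr hI)) m hm, mul_zero]

end Pool.Agent.DPN


end

section

/-!
# Module OUTN: elements which centralize `O / N`
-/

set_option autoImplicit false
set_option linter.unusedSectionVars false

namespace Pool.Agent.DPT

open Pool.Agent.DP Pool.Agent.DPC Pool.Agent.DPM Pool.Agent.DPN Pool.Agent.Lib_helper13
open Representation

namespace OUTN

section Blocks

variable {Y : Type} [Group Y] [Fintype Y]

/-- The Clifford data of a normal subgroup. -/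
theorem clg (A : Subgroup Y) [A.Normal] :
    ClG A.subtype (MulAut.conjNormal (H := A)) (QuotientGroup.mk' A) := by
  refine ⟨Subtype.val_injective, fun y a => ?_, fun y => ?_⟩
  · exact MulAut.conjNormal_apply y a
  · rw [QuotientGroup.mk'_apply, QuotientGroup.eq_one_iff, Subgroup.range_subtype]

/-- The central function of a character on a normal subgroup in terms of a constituent of
the restriction. -/
theorem cen_mem (𝔐 : Ideal (integralClosure ℤ ℂ)) {A B K : Type} [Group A] [Fintype A]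
    [Group B] [Fintype B] [Group K] {i : A →* B} {c : B →* MulAut A} {p : B →* K}
    (hc : ClG i c p) {ψ : B → ℂ} {θ : A → ℂ} (hψ : IsIrr ψ) (hθ : IsIrr θ)
    (h : ip (resj i ψ) θ ≠ 0) (g : B) (hg : g ∈ i.range) :
    cen 𝔐 (MonoidHom.id B) ψ g =
      pair 𝔐 (fun a : A => conjInd (i a) g) (cen 𝔐 (MonoidHom.id A) θ) := by
  have hcl : ∀ a x : A, conjInd (i (a * x * a⁻¹)) g = conjInd (i x) g := by
    intro a x
    rw [map_mul, map_mul, map_inv, conjInd_conj]
  have h1 := red_wt_eq_pair 𝔐 (MonoidHom.id A) hθ (fun a : A => conjInd (i a) g) hcl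
    (fun x => isIntegral_conjInd _ _)
  have h2 := (SUMM_thm A B K i c p hc).2.2.2 θ ψ (fun b => conjInd b g) hθ hψ h
    (fun a x => conjInd_conj a x g) (by
      intro y hy
      rw [conjInd, if_neg]
      intro hcj
      apply hy
      obtain ⟨d, hd⟩ := isConj_iff.mp hcj
      obtain ⟨a, ha⟩ := hg
      refine ⟨c d⁻¹ a, ?_⟩
      rw [hc.act, ha, ← hd]
      group)
  rw [← h1]
  change red 𝔐 (wt ψ (fun y => conjInd ((MonoidHom.id B) y) g)) = _
  have h3 : (fun y : B => conjInd ((MonoidHom.id B) y) g) = fun b => conjInd b g := rfl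
  rw [h3, h2]
  rfl

/-- The blocks of the conjugates of a character of a normal subgroup over a stable block. -/
theorem cen_conj_eq (hBLM : Stmt_BLM) (𝔐 : Ideal (integralClosure ℤ ℂ)) (ℓ : ℕ)
    [Fact ℓ.Prime] (hmax : 𝔐.IsMaximal) (hℓ : (ℓ : integralClosure ℤ ℂ) ∈ 𝔐)
    (A B : Subgroup Y) [A.Normal] [B.Normal] (hAB : A ≤ B)
    (hpg : ∀ y : Y, ∃ n : ℕ, y ^ ℓ ^ n ∈ A) {χ : Y → ℂ} (hχ : IsIrr χ) {θ : A → ℂ}
    (hθ : IsIrr θ) (hχθ : ip (resj A.subtype χ) θ ≠ 0)
    (hst : ∀ y : Y, cen 𝔐 (MonoidHom.id A) (fun a => θ (MulAut.conjNormal y a)) =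
      cen 𝔐 (MonoidHom.id A) θ)
    {ξ : B → ℂ} (hξ : IsIrr ξ) (hχξ : ip (resj B.subtype χ) ξ ≠ 0) (r : Y) :
    cen 𝔐 (MonoidHom.id B) (fun b => ξ (MulAut.conjNormal r b)) =
      cen 𝔐 (MonoidHom.id B) ξ := by
  classical
  have hprime : 𝔐.IsPrime := hmax.isPrime
  obtain ⟨θ₁, hθ₁, hξθ₁⟩ := MPR.exists_under (Subgroup.inclusion hAB) hξ
  have h1 : ip (resj A.subtype χ) θ₁ ≠ 0 :=
    MPR.ip_trans_ne (Subgroup.inclusion hAB) B.subtype hχ hξ hθ₁ hχξ hξθ₁
  obtain ⟨y, hy⟩ := (SUMM_thm A Y (Y ⧸ A) _ _ _ (clg A)).2.1 θ θ₁ χ hθ hθ₁ hχ hχθ h1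
  have h2 : ∀ s : Y, cen 𝔐 (MonoidHom.id A) (fun a => θ₁ (MulAut.conjNormal s a)) =
      cen 𝔐 (MonoidHom.id A) θ := by
    intro s
    rw [← hst (y * s)]
    congr 1
    funext a
    rw [← hy, map_mul, MulAut.mul_apply]
  have h2' : cen 𝔐 (MonoidHom.id A) θ₁ = cen 𝔐 (MonoidHom.id A) θ := by
    have h := h2 1
    rw [map_one] at h
    exact h
  have hξr : IsIrr (fun b => ξ (MulAut.conjNormal r b)) :=
    hξ.comp_mulEquiv (MulAut.conjNormal r)
  have hθr : IsIrr (fun a => θ₁ (MulAut.conjNormal r a)) :=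
    hθ₁.comp_mulEquiv (MulAut.conjNormal r)
  have h3 : ip (resj (Subgroup.inclusion hAB) (fun b => ξ (MulAut.conjNormal r b)))
      (fun a => θ₁ (MulAut.conjNormal r a)) ≠ 0 := by
    have h4 : ip (resj (Subgroup.inclusion hAB) (fun b => ξ (MulAut.conjNormal r b)))
        (fun a => θ₁ (MulAut.conjNormal r a)) = ip (resj (Subgroup.inclusion hAB) ξ) θ₁ := by
      rw [ip, ip]
      congr 1
      refine Fintype.sum_equiv (MulAut.conjNormal r : MulAut A).toEquiv _ _ fun a => ?_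
      have e1 : (MulAut.conjNormal r : MulAut A) a⁻¹ =
          ((MulAut.conjNormal r : MulAut A).toEquiv a)⁻¹ := map_inv _ _
      have e2 : (MulAut.conjNormal r : MulAut B) (Subgroup.inclusion hAB a) =
          Subgroup.inclusion hAB ((MulAut.conjNormal r : MulAut A).toEquiv a) := by
        apply Subtype.ext
        rfl
      change ξ ((MulAut.conjNormal r : MulAut B) (Subgroup.inclusion hAB a)) *
        θ₁ ((MulAut.conjNormal r : MulAut A) a⁻¹) = _
      rw [e1, e2]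
      rfl
    rw [h4]
    exact hξθ₁
  have hcl := MPR.clG_incl A B hAB
  have hM : ∀ g : B, g ∈ A.subgroupOf B → g ∈ (Subgroup.inclusion hAB).range := by
    intro g hg
    exact ⟨⟨(g : Y), hg⟩, Subtype.ext rfl⟩
  have h5 : ∀ g ∈ A.subgroupOf B, cen 𝔐 (MonoidHom.id B) ξ g =
      cen 𝔐 (MonoidHom.id B) (fun b => ξ (MulAut.conjNormal r b)) g := by
    intro g hg
    rw [cen_mem 𝔐 hcl hξ hθ₁ hξθ₁ g (hM g hg), cen_mem 𝔐 hcl hξr hθr h3 g (hM g hg), h2, h2']
  have hpq : IsPGroup ℓ (⊤ : Subgroup (B ⧸ A.subgroupOf B)) := by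
    rintro ⟨q, hq⟩
    obtain ⟨b, rfl⟩ := QuotientGroup.mk_surjective q
    obtain ⟨n, hn⟩ := hpg b
    refine ⟨n, ?_⟩
    apply Subtype.ext
    change (QuotientGroup.mk b : B ⧸ A.subgroupOf B) ^ ℓ ^ n = 1
    rw [← QuotientGroup.mk_pow, QuotientGroup.eq_one_iff]
    exact hn
  have hfin : Finite (B ⧸ A.subgroupOf B) := inferInstance
  obtain ⟨lam, hl1, hl2⟩ := hBLM B (B ⧸ A.subgroupOf B) 𝔐 ℓ hmax hℓ (A.subgroupOf B)
    (QuotientGroup.mk' _) (QuotientGroup.mk'_surjective _)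
    (fun x => by rw [QuotientGroup.mk'_apply, QuotientGroup.eq_one_iff]) ⊤ inferInstance hpq
    (by
      rw [Subgroup.index_top]
      exact fun h => (Fact.out : ℓ.Prime).one_lt.ne' (Nat.dvd_one.mp h))
    (fun _ _ => Subgroup.mem_top _) ξ (fun b => ξ (MulAut.conjNormal r b)) hξ hξr h5
  funext g
  rw [hl2 g, hl1 _ (Subgroup.mem_top _), Units.val_one, red_one, one_mul]

end Blocks

section Coatom

variable {Y : Type} [Group Y] [Finite Y]

/-- A maximal subgroup over a normal subgroup with quotient an `ℓ`-group is normal. -/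
theorem normal_of_coatom (ℓ : ℕ) [Fact ℓ.Prime] (A B : Subgroup Y) [A.Normal]
    (hAB : A ≤ B) (hpg : ∀ y : Y, ∃ n : ℕ, y ^ ℓ ^ n ∈ A) (hB : IsCoatom B) : B.Normal := by
  have hP : IsPGroup ℓ (Y ⧸ A) := by
    intro q
    obtain ⟨b, rfl⟩ := QuotientGroup.mk_surjective q
    obtain ⟨n, hn⟩ := hpg b
    exact ⟨n, by rw [← QuotientGroup.mk_pow, QuotientGroup.eq_one_iff]; exact hn⟩
  have hnil : Group.IsNilpotent (Y ⧸ A) := hP.isNilpotent
  have hnc : NormalizerCondition (Y ⧸ A) := Group.normalizerCondition_of_isNilpotent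
  set K := B.map (QuotientGroup.mk' A) with hK
  have hmemK : ∀ y : Y, (QuotientGroup.mk' A) y ∈ K ↔ y ∈ B := by
    intro y
    constructor
    · rintro ⟨b, hb, hby⟩
      rw [QuotientGroup.mk'_apply, QuotientGroup.mk'_apply, QuotientGroup.eq] at hby
      have h1 : y = b * (b⁻¹ * y) := by group
      rw [h1]
      exact B.mul_mem hb (hAB hby)
    · intro hy
      exact ⟨y, hy, rfl⟩
  have hKt : K < ⊤ := by
    rw [lt_top_iff_ne_top]
    intro h
    apply hB.1
    rw [eq_top_iff]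
    intro y _
    rw [← hmemK, h]
    trivial
  have hlt := hnc K hKt
  obtain ⟨x, hx1, hx2⟩ := Set.exists_of_ssubset hlt
  obtain ⟨x, rfl⟩ := QuotientGroup.mk'_surjective A x
  have hxB : x ∉ B := fun h => hx2 ((hmemK x).mpr h)
  have hxn : x ∈ Subgroup.normalizer (B : Set Y) := by
    rw [Subgroup.mem_normalizer_iff]
    intro h
    have h1 := (Subgroup.mem_normalizer_iff.mp hx1) ((QuotientGroup.mk' A) h)
    have h2 : (QuotientGroup.mk' A) h ∈ K ↔ h ∈ B := hmemK h
    have h3 : (QuotientGroup.mk' A) x * (QuotientGroup.mk' A) h * ((QuotientGroup.mk' A) x)⁻¹ ∈ K ↔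
        x * h * x⁻¹ ∈ B := by
      rw [← map_mul, ← map_inv, ← map_mul]
      exact hmemK _
    exact h2.symm.trans (h1.trans h3)
  have hlt2 : B < Subgroup.normalizer (B : Set Y) := by
    refine lt_of_le_of_ne Subgroup.le_normalizer ?_
    intro h
    apply hxB
    rw [h]
    exact hxn
  exact Subgroup.normalizer_eq_top_iff.mp (hB.2 _ hlt2)

theorem dvd_index (ℓ : ℕ) [hp : Fact ℓ.Prime] (A B : Subgroup Y) [A.Normal]
    (hAB : A ≤ B) (hpg : ∀ y : Y, ∃ n : ℕ, y ^ ℓ ^ n ∈ A) (hB : B ≠ ⊤) : ℓ ∣ B.index := by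
  have hP : IsPGroup ℓ (Y ⧸ A) := by
    intro q
    obtain ⟨b, rfl⟩ := QuotientGroup.mk_surjective q
    obtain ⟨n, hn⟩ := hpg b
    exact ⟨n, by rw [← QuotientGroup.mk_pow, QuotientGroup.eq_one_iff]; exact hn⟩
  obtain ⟨k, hk⟩ := hP.exists_card_eq
  have h1 : B.index ∣ ℓ ^ k := by
    rw [← hk]
    exact Subgroup.index_dvd_of_le hAB
  obtain ⟨m, _, hm⟩ := (Nat.dvd_prime_pow hp.out).mp h1
  rw [hm]
  apply dvd_pow_self
  rintro rfl
  rw [pow_zero, Subgroup.index_eq_one] at hm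
  exact hB hm

end Coatom

section Cgt

variable {X : Type} [Group X] [Fintype X]

/-- The central function of the restriction to `N`. -/
theorem cen_eq_cgT (𝔐 : Ideal (integralClosure ℤ ℂ)) (N O : Subgroup X) (hNO : N ≤ O)
    (ξ : X → ℂ) (hξ : ∀ x, x ∉ N → ξ x = 0) (a : N.subgroupOf O) :
    cen 𝔐 (MonoidHom.id (N.subgroupOf O)) (fun n => ξ ((n : O) : X)) a =
      cgT 𝔐 N ξ ((a : O) : X) := by
  classical
  rw [cen, cgT, wt]
  congr 2
  have h1 : ∑ x : X, cjT N x ((a : O) : X) * ξ x =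
      ∑ x : N, cjT N (x : X) ((a : O) : X) * ξ x := by
    have h2 : ∀ x : X, x ∉ N → cjT N x ((a : O) : X) * ξ x = 0 := fun x hx => by
      rw [hξ x hx, mul_zero]
    rw [← Finset.sum_subset (Finset.subset_univ (Finset.univ.filter (fun x : X => x ∈ N)))]
    · rw [← Finset.sum_subtype_eq_sum_filter, Finset.subtype_univ]
    · intro x _ hx
      apply h2
      intro h
      exact hx (Finset.mem_filter.mpr ⟨Finset.mem_univ _, h⟩)
  rw [h1]
  refine Fintype.sum_equiv (Subgroup.subgroupOfEquivOfLe hNO).toEquiv _ _ fun y => ?_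
  have h3 : conjInd ((MonoidHom.id (N.subgroupOf O)) y) a =
      cjT N (((y : O) : X)) ((a : O) : X) := by
    rw [conjInd, cjT]
    congr 1
    apply propext
    rw [MonoidHom.id_apply, isConj_iff]
    constructor
    · rintro ⟨c, hc⟩
      refine ⟨(((c : O) : X))⁻¹, N.inv_mem c.2, ?_⟩
      have h4 : (((c * y * c⁻¹ : N.subgroupOf O) : O) : X) = ((a : O) : X) := by rw [hc]
      have h5 : (((c : O) : X)) * ((y : O) : X) * (((c : O) : X))⁻¹ = ((a : O) : X) := h4
      rw [← h5]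
      group
    · rintro ⟨t, ht, hty⟩
      refine ⟨(⟨⟨t⁻¹, hNO (N.inv_mem ht)⟩, N.inv_mem ht⟩ : N.subgroupOf O), ?_⟩
      apply Subtype.ext
      apply Subtype.ext
      change t⁻¹ * ((y : O) : X) * (t⁻¹)⁻¹ = ((a : O) : X)
      rw [hty]
      group
  rw [h3]
  rfl

end Cgt

section Sums

variable {X : Type} [Group X] [Fintype X] (O : Subgroup X) (B : Subgroup O) (y : X)

open Classical in
/-- The indicator of the class of `y` under `B`. -/
noncomputable def clB (z : X) : ℤ := if ∃ b ∈ B, z = (b : X) * y * ((b : O) : X)⁻¹ then 1 else 0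

open Classical in
/-- The indicator of the class of `y` under `O`. -/
noncomputable def clO (z : X) : ℤ := if ∃ b ∈ O, z = b * y * b⁻¹ then 1 else 0

theorem clO_conj (b : X) (hb : b ∈ O) (z : X) : clO O y (b * z * b⁻¹) = clO O y z := by
  unfold clO
  congr 1
  apply propext
  constructor
  · rintro ⟨d, hd, h⟩
    refine ⟨b⁻¹ * d, O.mul_mem (O.inv_mem hb) hd, ?_⟩
    have h1 : z = b⁻¹ * (b * z * b⁻¹) * b := by group
    rw [h1, h]
    group
  · rintro ⟨d, hd, rfl⟩
    exact ⟨b * d, O.mul_mem hb hd, by group⟩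

theorem clB_conj (b : O) (hb : b ∈ B) (z : X) :
    clB O B y ((b : X) * z * (b : X)⁻¹) = clB O B y z := by
  unfold clB
  congr 1
  apply propext
  constructor
  · rintro ⟨d, hd, h⟩
    refine ⟨b⁻¹ * d, B.mul_mem (B.inv_mem hb) hd, ?_⟩
    have h1 : z = (b : X)⁻¹ * ((b : X) * z * (b : X)⁻¹) * b := by group
    rw [h1, h]
    push_cast
    group
  · rintro ⟨d, hd, rfl⟩
    exact ⟨b * d, B.mul_mem hb hd, by push_cast; group⟩

/-- Splitting of a class. -/
theorem clO_eq_sum [Fintype (O ⧸ B)] (hC : ∀ o : O, (o : X) * y = y * (o : X) → o ∈ B) (z : X) :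
    clO O y z = ∑ c : O ⧸ B, clB O B y ((c.out : X)⁻¹ * z * (c.out : X)) := by
  classical
  by_cases h : ∃ b ∈ O, z = b * y * b⁻¹
  · obtain ⟨s, hs, rfl⟩ := h
    have h1 : clO O y (s * y * s⁻¹) = 1 := by
      unfold clO
      rw [if_pos ⟨s, hs, rfl⟩]
    rw [h1, Finset.sum_eq_single ((⟨s, hs⟩ : O) : O ⧸ B)]
    · unfold clB
      rw [if_pos]
      have h2 : (((⟨s, hs⟩ : O) : O ⧸ B)).out⁻¹ * (⟨s, hs⟩ : O) ∈ B := by
        rw [← QuotientGroup.eq]
        exact QuotientGroup.out_eq' _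
      refine ⟨_, h2, ?_⟩
      push_cast
      group
    · intro c _ hc
      unfold clB
      rw [if_neg]
      rintro ⟨b, hb, h2⟩
      apply hc
      have h3 : b⁻¹ * c.out⁻¹ * (⟨s, hs⟩ : O) ∈ B := by
        apply hC
        push_cast
        have h4 : (b : X)⁻¹ * ((c.out : X)⁻¹ * (s * y * s⁻¹) * (c.out : X)) * (b : X) = y := by
          rw [h2]
          group
        calc (b : X)⁻¹ * (c.out : X)⁻¹ * s * y
            = ((b : X)⁻¹ * ((c.out : X)⁻¹ * (s * y * s⁻¹) * (c.out : X)) * (b : X)) *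
                ((b : X)⁻¹ * (c.out : X)⁻¹ * s) := by group
          _ = y * ((b : X)⁻¹ * (c.out : X)⁻¹ * s) := by rw [h4]
      have h4 : c.out⁻¹ * (⟨s, hs⟩ : O) ∈ B := by
        have h5 : c.out⁻¹ * (⟨s, hs⟩ : O) = b * (b⁻¹ * c.out⁻¹ * (⟨s, hs⟩ : O)) := by group
        rw [h5]
        exact B.mul_mem hb h3
      rw [← QuotientGroup.out_eq' c]
      exact QuotientGroup.eq.mpr h4
    · intro hn
      exact absurd (Finset.mem_univ _) hn
  · have h1 : clO O y z = 0 := by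
      unfold clO
      rw [if_neg h]
    rw [h1, Finset.sum_eq_zero]
    intro c _
    unfold clB
    rw [if_neg]
    rintro ⟨b, hb, h2⟩
    apply h
    refine ⟨(c.out : X) * b, O.mul_mem c.out.2 b.2, ?_⟩
    have h3 : z = (c.out : X) * ((c.out : X)⁻¹ * z * (c.out : X)) * (c.out : X)⁻¹ := by group
    rw [h3, h2]
    group

/-- Splitting of a product. -/
theorem conv_clO [Fintype (O ⧸ B)] (hC : ∀ o : O, (o : X) * y = y * (o : X) → o ∈ B)
    (v : X → ℤ) (hv : ∀ a ∈ O, ∀ y, v (a * y * a⁻¹) = v y) (z : X) :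
    conv (clO O y) v z =
      ∑ c : O ⧸ B, conv (clB O B y) v ((c.out : X)⁻¹ * z * (c.out : X)) := by
  classical
  have h1 : conv (clO O y) v z =
      ∑ c : O ⧸ B, ∑ w : X, clB O B y ((c.out : X)⁻¹ * w * (c.out : X)) * v (w⁻¹ * z) := by
    rw [Finset.sum_comm, conv]
    refine Finset.sum_congr rfl fun w _ => ?_
    rw [clO_eq_sum O B y hC, Finset.sum_mul]
  rw [h1]
  refine Finset.sum_congr rfl fun c _ => ?_
  rw [conv]
  refine Fintype.sum_equiv (MulAut.conj (c.out : X)⁻¹).toEquiv _ _ fun w => ?_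
  have e1 : (MulAut.conj (c.out : X)⁻¹).toEquiv w = (c.out : X)⁻¹ * w * (c.out : X) := by
    change (c.out : X)⁻¹ * w * ((c.out : X)⁻¹)⁻¹ = _
    rw [inv_inv]
  rw [e1]
  congr 1
  have e2 : ((c.out : X)⁻¹ * w * (c.out : X))⁻¹ * ((c.out : X)⁻¹ * z * (c.out : X)) =
      (c.out : X)⁻¹ * (w⁻¹ * z) * ((c.out : X)⁻¹)⁻¹ := by group
  rw [e2, hv _ (O.inv_mem c.out.2)]

theorem conv_conj (a v : X → ℤ) (b : X) (ha : ∀ z, a (b * z * b⁻¹) = a z)
    (hv : ∀ z, v (b * z * b⁻¹) = v z) (z : X) : conv a v (b * z * b⁻¹) = conv a v z := by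
  rw [conv, conv]
  symm
  refine Fintype.sum_equiv (MulAut.conj b).toEquiv _ _ fun w => ?_
  have e1 : (MulAut.conj b).toEquiv w = b * w * b⁻¹ := rfl
  rw [e1, ha]
  congr 1
  have e2 : (b * w * b⁻¹)⁻¹ * (b * z * b⁻¹) = b * (w⁻¹ * z) * b⁻¹ := by group
  rw [e2, hv]

end Sums

section Main

variable {X : Type} [Group X] [Fintype X]

theorem intz (n : ℤ) : IsIntegral ℤ ((n : ℤ) : ℂ) := by
  have := isIntegral_algebraMap (R := ℤ) (A := ℂ) (x := n)
  simpa using this

/-- The contribution of one class. -/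
theorem class_zero (hBLM : Stmt_BLM) (𝔐 : Ideal (integralClosure ℤ ℂ)) (ℓ : ℕ)
    [Fact ℓ.Prime] (hmax : 𝔐.IsMaximal) (hℓ : (ℓ : integralClosure ℤ ℂ) ∈ 𝔐)
    (N O : Subgroup X) (hN : N.Normal) (hNO : N ≤ O)
    (hpg : ∀ x ∈ O, ∃ n : ℕ, x ^ ℓ ^ n ∈ N) (χ : O → ℂ) (hχ : IsIrr χ) (ξ : X → ℂ)
    (hξ : IrrOn N ξ)
    (hip : ip (fun n : N.subgroupOf O => χ n) (fun n : N.subgroupOf O => ξ (n : O)) ≠ 0)
    (hst : O ≤ sx (cgT 𝔐 N ξ)) (y : X) (v : X → ℤ)
    (hv : ∀ a ∈ O, ∀ y, v (a * y * a⁻¹) = v y)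
    (hy : ¬ ∀ o ∈ O, y * o * y⁻¹ * o⁻¹ ∈ N) :
    red 𝔐 (wt χ (fun o => ((conv (clO O y) v (o : X) : ℤ) : ℂ))) = 0 := by
  classical
  have hprime : 𝔐.IsPrime := hmax.isPrime
  have hNn : (N.subgroupOf O).Normal := inferInstance
  have hpg' : ∀ o : O, ∃ n : ℕ, o ^ ℓ ^ n ∈ N.subgroupOf O := by
    intro o
    obtain ⟨n, hn⟩ := hpg o o.2
    exact ⟨n, hn⟩
  -- the subgroup of the elements which commute with `y` modulo `N`
  let O₃ : Subgroup O :=
    { carrier := {o | y * (o : X) * y⁻¹ * (o : X)⁻¹ ∈ N}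
      one_mem' := by
        change y * ((1 : O) : X) * y⁻¹ * ((1 : O) : X)⁻¹ ∈ N
        simp
      mul_mem' := by
        intro a b ha hb
        change y * ((a * b : O) : X) * y⁻¹ * ((a * b : O) : X)⁻¹ ∈ N
        have h1 : y * ((a * b : O) : X) * y⁻¹ * ((a * b : O) : X)⁻¹ =
            (y * (a : X) * y⁻¹ * (a : X)⁻¹) *
              ((a : X) * (y * (b : X) * y⁻¹ * (b : X)⁻¹) * (a : X)⁻¹) := by
          push_cast
          group
        rw [h1]
        exact N.mul_mem ha (hN.conj_mem _ hb _)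
      inv_mem' := by
        intro a ha
        change y * ((a⁻¹ : O) : X) * y⁻¹ * ((a⁻¹ : O) : X)⁻¹ ∈ N
        have h1 : y * ((a⁻¹ : O) : X) * y⁻¹ * ((a⁻¹ : O) : X)⁻¹ =
            (a : X)⁻¹ * ((a : X) * (y * ((a : X))⁻¹ * y⁻¹)) * ((a : X)⁻¹)⁻¹ := by
          push_cast
          group
        have h2 : (a : X) * (y * ((a : X))⁻¹ * y⁻¹) = (y * (a : X) * y⁻¹ * (a : X)⁻¹)⁻¹ := by
          group
        rw [h1, h2]
        exact hN.conj_mem _ (N.inv_mem ha) _ }
  have hO₃ : O₃ ≠ ⊤ := by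
    intro h
    apply hy
    intro o ho
    have h1 : (⟨o, ho⟩ : O) ∈ O₃ := by
      rw [h]
      trivial
    exact h1
  obtain ⟨B, hB, hO₃B⟩ := (eq_top_or_exists_le_coatom O₃).resolve_left hO₃
  have hNO₃ : N.subgroupOf O ≤ O₃ := by
    intro n hn
    change y * (n : X) * y⁻¹ * (n : X)⁻¹ ∈ N
    exact N.mul_mem (hN.conj_mem _ hn _) (N.inv_mem hn)
  have hAB : N.subgroupOf O ≤ B := hNO₃.trans hO₃B
  have hBn : B.Normal := normal_of_coatom ℓ (N.subgroupOf O) B hAB hpg' hB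
  have hC : ∀ o : O, (o : X) * y = y * (o : X) → o ∈ B := by
    intro o ho
    apply hO₃B
    change y * (o : X) * y⁻¹ * (o : X)⁻¹ ∈ N
    rw [← ho]
    simp
  have hidx : ℓ ∣ B.index := dvd_index ℓ (N.subgroupOf O) B hAB hpg' hB.1
  -- the functions
  let w : X → ℤ := conv (clB O B y) v
  have hw : ∀ b ∈ B, ∀ z, w ((b : X) * z * (b : X)⁻¹) = w z := fun b hb z =>
    conv_conj _ _ _ (fun z => clB_conj O B y b hb z) (fun z => hv _ b.2 z) z
  have hw' : ∀ b ∈ B, ∀ z, w ((b : X)⁻¹ * z * (b : X)) = w z := by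
    intro b hb z
    have h1 := hw b⁻¹ (B.inv_mem hb) z
    push_cast at h1
    rw [inv_inv] at h1
    exact h1
  have hf : ∀ z : X, conv (clO O y) v z =
      ∑ c : O ⧸ B, w ((c.out : X)⁻¹ * z * (c.out : X)) := fun z => conv_clO O B y hC v hv z
  -- outside `B`
  have hout : ∀ o : O, o ∉ B → ∀ c : O, w ((c : X)⁻¹ * (o : X) * (c : X)) = w (o : X) := by
    intro o ho c
    have htop : B ⊔ Subgroup.zpowers o = ⊤ := by
      apply hB.2
      refine lt_of_le_of_ne le_sup_left ?_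
      intro h
      apply ho
      rw [h]
      exact (le_sup_right : Subgroup.zpowers o ≤ _) (Subgroup.mem_zpowers o)
    have hc : c⁻¹ ∈ B ⊔ Subgroup.zpowers o := by
      rw [htop]
      trivial
    rw [Subgroup.mem_sup_of_normal_left] at hc
    obtain ⟨b, hb, s, hs, hbs⟩ := hc
    obtain ⟨i, rfl⟩ := Subgroup.mem_zpowers_iff.mp hs
    have h1 : (c : X)⁻¹ * (o : X) * (c : X) = (b : X) * (o : X) * (b : X)⁻¹ := by
      have h2 : (c : X)⁻¹ = (b : X) * (o : X) ^ i := by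
        have h3 : (((b * o ^ i : O)) : X) = ((c⁻¹ : O) : X) := by rw [hbs]
        push_cast at h3
        exact h3.symm
      have h4 : (c : X) = ((b : X) * (o : X) ^ i)⁻¹ := by rw [← h2, inv_inv]
      rw [h2, h4]
      group
    rw [h1, hw b hb]
  -- the splitting
  let g : O → ℂ := fun o => ((conv (clO O y) v (o : X) : ℤ) : ℂ)
  let f₁ : O → ℂ := fun o => if o ∈ B then g o else 0
  let g₂ : O → ℂ := fun o => if o ∈ B then 0 else ((w (o : X) : ℤ) : ℂ)
  have hgc : ∀ a x : O, g (a * x * a⁻¹) = g x := by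
    intro a x
    have h1 := conv_conj (clO O y) v (a : X) (fun z => clO_conj O y a a.2 z)
      (fun z => hv _ a.2 z) (x : X)
    change ((conv (clO O y) v ((a * x * a⁻¹ : O) : X) : ℤ) : ℂ) = _
    have h2 : ((a * x * a⁻¹ : O) : X) = (a : X) * (x : X) * (a : X)⁻¹ := rfl
    rw [h2, h1]
  have hmemB : ∀ a x : O, a * x * a⁻¹ ∈ B ↔ x ∈ B := by
    intro a x
    constructor
    · intro h
      have h1 := hBn.conj_mem _ h a⁻¹
      have h2 : a⁻¹ * (a * x * a⁻¹) * a⁻¹⁻¹ = x := by group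
      rwa [h2] at h1
    · intro h
      exact hBn.conj_mem _ h a
  have hf₁c : ∀ a x : O, f₁ (a * x * a⁻¹) = f₁ x := by
    intro a x
    change (if a * x * a⁻¹ ∈ B then g (a * x * a⁻¹) else 0) = if x ∈ B then g x else 0
    simp only [hmemB, hgc]
  have hf₁i : ∀ x : O, IsIntegral ℤ (f₁ x) := by
    intro x
    change IsIntegral ℤ (if x ∈ B then g x else 0)
    split_ifs
    · exact intz _
    · exact isIntegral_zero
  have hg₂c : ∀ a x : O, g₂ (a * x * a⁻¹) = g₂ x := by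
    intro a x
    change (if a * x * a⁻¹ ∈ B then 0 else ((w ((a * x * a⁻¹ : O) : X) : ℤ) : ℂ)) =
      if x ∈ B then 0 else ((w (x : X) : ℤ) : ℂ)
    simp only [hmemB]
    split_ifs with hx
    · rfl
    · have h1 := hout x hx a⁻¹
      push_cast at h1
      rw [inv_inv] at h1
      push_cast
      rw [h1]
  have hg₂i : ∀ x : O, IsIntegral ℤ (g₂ x) := by
    intro x
    change IsIntegral ℤ (if x ∈ B then 0 else ((w (x : X) : ℤ) : ℂ))
    split_ifs
    · exact isIntegral_zero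
    · exact intz _
  have hcard : (Finset.univ : Finset (O ⧸ B)).card = B.index := by
    rw [Finset.card_univ, ← Nat.card_eq_fintype_card]
    rfl
  have hsplit : g = fun o => f₁ o + (B.index : ℂ) * g₂ o := by
    funext o
    change g o = (if o ∈ B then g o else 0) +
      (B.index : ℂ) * (if o ∈ B then 0 else ((w (o : X) : ℤ) : ℂ))
    split_ifs with ho
    · ring
    · change ((conv (clO O y) v (o : X) : ℤ) : ℂ) = _
      rw [hf, Finset.sum_congr rfl fun c _ => hout o ho c.out, Finset.sum_const, hcard,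
        nsmul_eq_mul, Int.cast_mul, Int.cast_natCast]
      ring
  have hwt : wt χ g = wt χ f₁ + (B.index : ℂ) * wt χ g₂ := by
    rw [hsplit]
    have h1 : (fun o => f₁ o + (B.index : ℂ) * g₂ o) =
        f₁ + fun o => (B.index : ℂ) * g₂ o := rfl
    rw [h1, wt_add, wt_smul]
  have hi1 : IsIntegral ℤ (wt χ f₁) := isIntegral_wt hχ f₁ hf₁c hf₁i
  have hi2 : IsIntegral ℤ (wt χ g₂) := isIntegral_wt hχ g₂ hg₂c hg₂i
  obtain ⟨k, hk⟩ := hidx
  have hkill : ∀ m : (integralClosure ℤ ℂ) ⧸ 𝔐, B.index • m = 0 := by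
    intro m
    rw [hk, mul_comm, mul_nsmul, nsmul_quot_eq_zero 𝔐 hℓ]
  have hz2 : red 𝔐 ((B.index : ℂ) * wt χ g₂) = 0 := by
    rw [red_natCast_mul 𝔐 _ hi2]
    exact hkill _
  -- the part on `B`
  obtain ⟨ψ, hψ, hχψ⟩ := MPR.exists_under B.subtype hχ
  have hθ : IsIrr (fun n : N.subgroupOf O => ξ ((n : O) : X)) :=
    hξ.1.comp_mulEquiv (Subgroup.subgroupOfEquivOfLe hNO)
  have hstab : ∀ o : O, cen 𝔐 (MonoidHom.id (N.subgroupOf O))
      (fun a => (fun n : N.subgroupOf O => ξ ((n : O) : X)) (MulAut.conjNormal o a)) =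
      cen 𝔐 (MonoidHom.id (N.subgroupOf O)) (fun n : N.subgroupOf O => ξ ((n : O) : X)) := by
    intro o
    funext a
    have h1 : cen 𝔐 (MonoidHom.id (N.subgroupOf O))
        (fun a => (fun n : N.subgroupOf O => ξ ((n : O) : X)) (MulAut.conjNormal o a)) a =
        cen 𝔐 (MonoidHom.id (N.subgroupOf O)) (fun n : N.subgroupOf O => ξ ((n : O) : X))
          (MulAut.conjNormal o a) := by
      rw [cen, cen]
      congr 1
      rw [← wt_comp_equiv (MulAut.conjNormal o : MulAut (N.subgroupOf O))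
        (fun n : N.subgroupOf O => ξ ((n : O) : X))]
      congr 1
      funext n
      apply conjInd_congr
      constructor
      · intro h
        exact ((MulAut.conjNormal o : MulAut (N.subgroupOf O)) : N.subgroupOf O →*
          N.subgroupOf O).map_isConj h
      · intro h
        have h2 := (((MulAut.conjNormal o : MulAut (N.subgroupOf O)).symm) : N.subgroupOf O →*
          N.subgroupOf O).map_isConj h
        simpa using h2
    rw [h1, cen_eq_cgT 𝔐 N O hNO ξ hξ.2, cen_eq_cgT 𝔐 N O hNO ξ hξ.2]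
    have h3 : (((MulAut.conjNormal o : MulAut (N.subgroupOf O)) a : O) : X) =
        (o : X) * ((a : O) : X) * (o : X)⁻¹ := rfl
    rw [h3]
    exact (mem_sx.mp (hst o.2)) _
  have hcen := cen_conj_eq hBLM 𝔐 ℓ hmax hℓ (N.subgroupOf O) B hAB hpg' hχ hθ hip hstab hψ hχψ
  have hres := (SUMM_thm B O (O ⧸ B) B.subtype _ _ (clg B)).2.2.2 ψ χ f₁ hψ hχ hχψ hf₁c (by
    intro x hx
    change (if x ∈ B then g x else 0) = 0
    rw [if_neg]
    intro h
    exact hx ⟨⟨x, h⟩, rfl⟩)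
  let F : B → ℂ := fun b => ((w ((b : O) : X) : ℤ) : ℂ)
  have hFc : ∀ a x : B, F (a * x * a⁻¹) = F x := by
    intro a x
    change ((w (((a * x * a⁻¹ : B) : O) : X) : ℤ) : ℂ) = _
    have h1 : (((a * x * a⁻¹ : B) : O) : X) =
        ((a : O) : X) * ((x : O) : X) * ((a : O) : X)⁻¹ := rfl
    rw [h1, hw _ a.2]
  have hFi : ∀ x : B, IsIntegral ℤ (F x) := fun x => intz _
  have hterm : ∀ c : O, wt ψ (fun b : B => ((w ((c : X)⁻¹ * ((b : O) : X) * (c : X)) : ℤ) : ℂ)) =
      wt (fun b => ψ (MulAut.conjNormal c b)) F := by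
    intro c
    rw [← wt_comp_equiv (MulAut.conjNormal c : MulAut B) ψ]
    congr 1
    funext b
    have h1 : (((MulAut.conjNormal c : MulAut B) b : O) : X) =
        (c : X) * ((b : O) : X) * (c : X)⁻¹ := rfl
    rw [h1]
    have h2 : (c : X)⁻¹ * ((c : X) * ((b : O) : X) * (c : X)⁻¹) * (c : X) = ((b : O) : X) := by
      group
    rw [h2]
  have hi3 : ∀ c : O, IsIntegral ℤ (wt (fun b => ψ (MulAut.conjNormal c b)) F) := fun c =>
    isIntegral_wt (hψ.comp_mulEquiv (MulAut.conjNormal c)) F hFc hFi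
  have hz1 : red 𝔐 (wt χ f₁) = 0 := by
    rw [hres]
    have h1 : (fun a : B => f₁ (B.subtype a)) = fun a : B => ∑ c : O ⧸ B,
        ((w ((c.out : X)⁻¹ * ((a : O) : X) * (c.out : X)) : ℤ) : ℂ) := by
      funext a
      change (if (a : O) ∈ B then g a else 0) = _
      rw [if_pos a.2]
      change ((conv (clO O y) v ((a : O) : X) : ℤ) : ℂ) = _
      rw [hf]
      push_cast
      rfl
    rw [h1, wt_sum]
    simp only [hterm]
    rw [red_sum 𝔐 _ _ (fun c _ => hi3 c.out)]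
    have h2 : ∀ c : O, red 𝔐 (wt (fun b => ψ (MulAut.conjNormal c b)) F) =
        pair 𝔐 F (cen 𝔐 (MonoidHom.id B) ψ) := by
      intro c
      rw [← hcen c]
      exact red_wt_eq_pair 𝔐 (MonoidHom.id B) (hψ.comp_mulEquiv (MulAut.conjNormal c)) F hFc hFi
    rw [Finset.sum_congr rfl fun c _ => h2 c.out, Finset.sum_const, hcard]
    exact hkill _
  change red 𝔐 (wt χ g) = 0
  rw [hwt, red_add 𝔐 hi1 ((isIntegral_natCast _).mul hi2), hz1, hz2, add_zero]

end Main

end OUTN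

open _root_.Pool.Agent.DPT.OUTN in
/-- OUTN. -/
theorem OUTN_thm (h1 : Stmt_BLM) : Stmt_OUTN := by
  classical
  intro X _ _ 𝔐 ℓ _ hmax hℓ N O hN hO hNO hpg χ hχ ξ hξ hip hst x u v hu hv hus hvs hne
  have hprime : 𝔐.IsPrime := hmax.isPrime
  by_contra hcon
  push Not at hcon
  have hy : ∀ y, x⁻¹ * y ∈ O → ¬ ∀ o ∈ O, y * o * y⁻¹ * o⁻¹ ∈ N := by
    intro y hxy hall
    obtain ⟨o, ho, h⟩ := hcon y hxy
    exact h (hall o ho)
  have hint : ∀ u : X → ℤ, (∀ a ∈ O, ∀ y, u (a * y * a⁻¹) = u y) →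
      IsIntegral ℤ (wt χ (fun o => ((conv u v (o : X) : ℤ) : ℂ))) := by
    intro u hu
    apply isIntegral_wt hχ
    · intro a z
      have h2 := conv_conj u v (a : X) (fun z => hu _ a.2 z) (fun z => hv _ a.2 z) (z : X)
      have h3 : ((a * z * a⁻¹ : O) : X) = (a : X) * (z : X) * (a : X)⁻¹ := rfl
      rw [h3, h2]
    · intro z
      exact intz _
  have key : ∀ (n : ℕ) (u : X → ℤ), (∀ a ∈ O, ∀ y, u (a * y * a⁻¹) = u y) →
      (∀ y, u y ≠ 0 → x⁻¹ * y ∈ O) → (Finset.univ.filter (fun y => u y ≠ 0)).card = n →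
      red 𝔐 (wt χ (fun o => ((conv u v (o : X) : ℤ) : ℂ))) = 0 := by
    intro n
    induction n using Nat.strong_induction_on with
    | _ n ih =>
      intro u hu hus hn
      by_cases h0 : ∀ y, u y = 0
      · have h2 : (fun o : O => ((conv u v (o : X) : ℤ) : ℂ)) = fun _ => 0 := by
          funext o
          rw [conv, Finset.sum_eq_zero fun z _ => by rw [h0 z, zero_mul], Int.cast_zero]
        rw [h2, wt]
        simp [red_zero]
      · push Not at h0
        obtain ⟨y, hy0⟩ := h0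
        have hE : ∀ z, clO O y z ≠ 0 → u z = u y := by
          intro z hz
          unfold clO at hz
          split_ifs at hz with h2
          · obtain ⟨b, hb, rfl⟩ := h2
            exact hu b hb y
          · exact absurd rfl hz
        have hE1 : ∀ z, clO O y z = 0 ∨ clO O y z = 1 := by
          intro z
          unfold clO
          split_ifs
          · exact Or.inr rfl
          · exact Or.inl rfl
        let u' : X → ℤ := fun z => u z - u y * clO O y z
        have hu' : ∀ a ∈ O, ∀ z, u' (a * z * a⁻¹) = u' z := by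
          intro a ha z
          change u (a * z * a⁻¹) - u y * clO O y (a * z * a⁻¹) = _
          rw [hu a ha, clO_conj O y a ha]
        have hsup : ∀ z, u' z ≠ 0 → u z ≠ 0 := by
          intro z hz h2
          apply hz
          change u z - u y * clO O y z = 0
          rcases hE1 z with h3 | h3
          · rw [h2, h3, mul_zero, sub_zero]
          · rw [h2, h3, ← hE z (by rw [h3]; exact one_ne_zero), h2]
            ring
        have hy' : u' y = 0 := by
          change u y - u y * clO O y y = 0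
          have h3 : clO O y y = 1 := by
            unfold clO
            rw [if_pos ⟨1, O.one_mem, by group⟩]
          rw [h3]
          ring
        have hlt : (Finset.univ.filter (fun z => u' z ≠ 0)).card < n := by
          rw [← hn]
          apply Finset.card_lt_card
          refine (Finset.ssubset_iff_of_subset ?_).mpr ⟨y, ?_, ?_⟩
          · intro z hz
            rw [Finset.mem_filter] at hz ⊢
            exact ⟨hz.1, hsup z hz.2⟩
          · rw [Finset.mem_filter]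
            exact ⟨Finset.mem_univ _, hy0⟩
          · rw [Finset.mem_filter]
            rintro ⟨_, h2⟩
            exact h2 hy'
        have h2 := ih _ hlt u' hu' (fun z hz => hus z (hsup z hz)) rfl
        have h3 : (fun o : O => ((conv u v (o : X) : ℤ) : ℂ)) =
            (fun o : O => ((conv u' v (o : X) : ℤ) : ℂ)) +
              fun o : O => ((u y : ℤ) : ℂ) * ((conv (clO O y) v (o : X) : ℤ) : ℂ) := by
          funext o
          change ((conv u v (o : X) : ℤ) : ℂ) = ((conv u' v (o : X) : ℤ) : ℂ) +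
            ((u y : ℤ) : ℂ) * ((conv (clO O y) v (o : X) : ℤ) : ℂ)
          rw [← Int.cast_mul, ← Int.cast_add]
          congr 1
          rw [conv, conv, conv, Finset.mul_sum, ← Finset.sum_add_distrib]
          refine Finset.sum_congr rfl fun z _ => ?_
          change _ = (u z - u y * clO O y z) * _ + _
          ring
        have h4 := class_zero h1 𝔐 ℓ hmax hℓ N O hN hNO hpg χ hχ ξ hξ hip hst y v hv
          (hy y (hus y hy0))
        have hi := hint (clO O y) (fun a ha z => clO_conj O y a ha z)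
        rw [h3, wt_add, wt_smul, red_add 𝔐 (hint u' hu') ((intz _).mul hi),
          red_mul 𝔐 (intz _) hi, h2, h4, mul_zero, add_zero]
  exact hne (key _ u hu hus rfl)

end Pool.Agent.DPT


end

section

set_option linter.unusedSectionVars false

/-!
# FRI: the Clifford correspondence respects blocks
-/

namespace Pool.Agent.DPC

open Pool.Agent.DP Pool.Agent.Lib_helper13 Representation
open Pool.Agent.Lib_helper13.Dade (pCore DadeHolds dadeSum)

namespace FRI

section Conv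

variable {A : Type} [Group A] [Fintype A]

/-- Convolution of a class function with an irreducible character. -/
theorem conv (f θ : A → ℂ) (hf : ∀ g x, f (g * x * g⁻¹) = f x) (hθ : IsIrr θ) (x : A) :
    ∑ b, f b * θ (x * b⁻¹) = (∑ b, f b * θ b⁻¹) / θ 1 * θ x := by
  have h0 := hθ.one_ne_zero
  obtain ⟨n, σ, hσ, rfl⟩ := hθ
  obtain ⟨t, ht⟩ := exists_scalar σ hσ (opSum f σ) (fun g v => opSum_comm f hf σ g v)
  have h1 : LinearMap.trace ℂ (Fin n → ℂ) (opSum f σ) = ∑ b, f b * σ.character b⁻¹ := by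
    rw [opSum, map_sum]
    refine Finset.sum_congr rfl fun a _ => ?_
    rw [map_smul, smul_eq_mul]
    rfl
  have h2 : LinearMap.trace ℂ (Fin n → ℂ) (opSum f σ) = t * σ.character 1 := by
    rw [ht, map_smul, smul_eq_mul]
    congr 1
    have h3 : σ.character 1 = LinearMap.trace ℂ (Fin n → ℂ) (σ 1) := rfl
    rw [h3, map_one]
    rfl
  have h4 : LinearMap.trace ℂ (Fin n → ℂ) (σ x * opSum f σ) =
      ∑ b, f b * σ.character (x * b⁻¹) := by
    rw [opSum, Finset.mul_sum, map_sum]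
    refine Finset.sum_congr rfl fun a _ => ?_
    rw [mul_smul_comm, ← map_mul, map_smul, smul_eq_mul]
    rfl
  have h5 : LinearMap.trace ℂ (Fin n → ℂ) (σ x * opSum f σ) = t * σ.character x := by
    have h7 : σ x * opSum f σ = t • σ x := by
      rw [ht]
      ext v i
      simp
    rw [h7, map_smul, smul_eq_mul]
    rfl
  rw [← h4, h5, ← h1, h2, mul_div_assoc, div_self h0, mul_one]

end Conv

section Iso

variable {A T : Type} [Group A] [Fintype A] [Group T] {n : ℕ}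

/-- Products of the operators. -/
theorem opSum_mul (f θ : A → ℂ) (hf : ∀ g x, f (g * x * g⁻¹) = f x) (hθ : IsIrr θ)
    (ρ : Representation ℂ A (Fin n → ℂ)) :
    opSum θ ρ * opSum f ρ = ((∑ b, f b * θ b⁻¹) / θ 1) • opSum θ ρ := by
  have h1 : opSum θ ρ * opSum f ρ = ∑ b, ∑ a, (f b * θ a) • ρ (a⁻¹ * b⁻¹) := by
    rw [opSum, opSum, Finset.mul_sum]
    refine Finset.sum_congr rfl fun b _ => ?_
    rw [Finset.sum_mul]
    refine Finset.sum_congr rfl fun a _ => ?_
    rw [smul_mul_smul_comm, ← map_mul, mul_comm (θ a)]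
  have h2 : ∀ b, ∑ a, (f b * θ a) • ρ (a⁻¹ * b⁻¹) = ∑ x, (f b * θ (x * b⁻¹)) • ρ x⁻¹ := by
    intro b
    refine Fintype.sum_equiv (Equiv.mulLeft b) _ _ fun a => ?_
    have h3 : θ (b * a * b⁻¹) = θ a := hθ.conj_eq b a
    simp only [Equiv.coe_mulLeft, mul_inv_rev, h3]
  rw [h1]
  simp only [h2]
  rw [Finset.sum_comm]
  simp only [← Finset.sum_smul, conv f θ hf hθ]
  rw [opSum, Finset.smul_sum]
  refine Finset.sum_congr rfl fun x _ => ?_
  rw [smul_smul]

variable (ρ : Representation ℂ T (Fin n → ℂ)) (j : A →* T) (c : T → MulAut A)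
  (hact : ∀ t a, j (c t a) = t * j a * t⁻¹)

include hact in
/-- The operator of an invariant character commutes with the group. -/
theorem comm (θ : A → ℂ) (hinv : ∀ t a, θ (c t a) = θ a) (t : T) (v : Fin n → ℂ) :
    opSum θ (ρ.comp j : Representation ℂ A (Fin n → ℂ)) (ρ t v) =
      ρ t (opSum θ (ρ.comp j : Representation ℂ A (Fin n → ℂ)) v) := by
  rw [opSum_apply, opSum_apply, map_sum]
  symm
  refine Fintype.sum_equiv (c t).toEquiv _ _ fun a => ?_
  have h1 : (c t).toEquiv a = c t a := rfl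
  rw [h1, hinv, map_smul]
  congr 1
  change ρ t (ρ (j a⁻¹) v) = ρ (j (c t a)⁻¹) (ρ t v)
  rw [← Module.End.mul_apply, ← Module.End.mul_apply, ← map_mul, ← map_mul, ← map_inv (c t),
    hact]
  congr 2
  group

include hact in
/-- The isotypic projections. -/
theorem proj (hρ : ρ.IsIrreducible) (θ : A → ℂ) (hθ : IsIrr θ) (hinv : ∀ t a, θ (c t a) = θ a)
    (hne : ∑ a, θ a * ρ.character (j a)⁻¹ ≠ 0) :
    (∀ t, ∑ a, θ a * ρ.character (t * (j a)⁻¹) = (Nat.card A : ℂ) / θ 1 * ρ.character t) ∧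
    ∀ θ₁ : A → ℂ, IsIrr θ₁ → θ₁ ≠ θ → ∀ t, ∑ a, θ₁ a * ρ.character (t * (j a)⁻¹) = 0 := by
  have hθ1 := hθ.one_ne_zero
  obtain ⟨s, hs⟩ := exists_scalar ρ hρ (opSum θ (ρ.comp j : Representation ℂ A (Fin n → ℂ)))
    (fun g v => comm ρ j c hact θ hinv g v)
  have htr : ∀ (f : A → ℂ) (t : T), LinearMap.trace ℂ (Fin n → ℂ)
      (ρ t * opSum f (ρ.comp j : Representation ℂ A (Fin n → ℂ))) =
      ∑ a, f a * ρ.character (t * (j a)⁻¹) := by
    intro f t
    rw [opSum, Finset.mul_sum, map_sum]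
    refine Finset.sum_congr rfl fun a _ => ?_
    have h1 : (ρ.comp j : Representation ℂ A (Fin n → ℂ)) a⁻¹ = ρ (j a)⁻¹ := by
      change ρ (j a⁻¹) = _
      rw [map_inv]
    rw [h1, mul_smul_comm, ← map_mul, map_smul, smul_eq_mul]
    rfl
  have hs0 : s ≠ 0 := by
    rintro rfl
    apply hne
    have h1 := htr θ 1
    rw [hs, zero_smul, mul_zero, map_zero] at h1
    simp only [one_mul] at h1
    exact h1.symm
  have hss : s * s = (Nat.card A : ℂ) / θ 1 * s := by
    have h1 := opSum_mul θ θ hθ.conj_eq hθ (ρ.comp j : Representation ℂ A (Fin n → ℂ))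
    rw [hθ.sum_self, hs] at h1
    have h2 : (s * s) • (LinearMap.id : (Fin n → ℂ) →ₗ[ℂ] (Fin n → ℂ)) =
        ((Nat.card A : ℂ) / θ 1 * s) • LinearMap.id := by
      rw [← smul_smul, ← smul_smul, ← h1]
      ext v i
      simp
    have hn : (LinearMap.id : (Fin n → ℂ) →ₗ[ℂ] (Fin n → ℂ)) ≠ 0 := by
      intro h3
      apply hs0
      exfalso
      apply hne
      have h4 := htr θ 1
      rw [hs, h3, smul_zero, mul_zero, map_zero] at h4
      simp only [one_mul] at h4
      exact h4.symm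
    exact smul_left_injective ℂ hn h2
  have hsv : s = (Nat.card A : ℂ) / θ 1 := mul_right_cancel₀ hs0 hss
  refine ⟨fun t => ?_, fun θ₁ hθ₁ hne₁ t => ?_⟩
  · rw [← htr θ t, hs, hsv]
    have h7 : ρ t * (((Nat.card A : ℂ) / θ 1) •
        (LinearMap.id : (Fin n → ℂ) →ₗ[ℂ] (Fin n → ℂ))) = ((Nat.card A : ℂ) / θ 1) • ρ t := by
      ext v i
      simp
    rw [h7, map_smul, smul_eq_mul]
    rfl
  · have h1 := opSum_mul θ₁ θ hθ₁.conj_eq hθ (ρ.comp j : Representation ℂ A (Fin n → ℂ))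
    rw [hθ₁.sum_ne hθ hne₁, zero_div, zero_smul, hs] at h1
    have h2 : opSum θ₁ (ρ.comp j : Representation ℂ A (Fin n → ℂ)) = 0 := by
      have h3 : s • opSum θ₁ (ρ.comp j : Representation ℂ A (Fin n → ℂ)) = 0 := by
        rw [← h1]
        ext v i
        simp
      exact (smul_eq_zero.mp h3).resolve_left hs0
    rw [← htr θ₁ t, h2, mul_zero, map_zero]

end Iso

section Main

variable {A Y K : Type} [Group A] [Fintype A] [Group Y] [Fintype Y] [Group K]
  {j : A →* Y} {c : Y →* MulAut A} {p : Y →* K} (hc : ClG j c p) {θ : A → ℂ} (hθ : IsIrr θ)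

include hc in
theorem c_j (a b : A) : c (j a) b = a * b * a⁻¹ := by
  apply hc.inj
  rw [hc.act, map_mul, map_mul, map_inv]

include hc hθ in
theorem mem_inert (a : A) : j a ∈ inert c θ := by
  intro b
  rw [c_j hc, hθ.conj_eq]

/-- The embedding in the inertia group. -/
noncomputable def jI : A →* inert c θ := j.codRestrict (inert c θ) (mem_inert hc hθ)

theorem coe_jI (a : A) : ((jI hc hθ a : inert c θ) : Y) = j a := rfl

theorem jI_act (t : inert c θ) (a : A) :
    jI hc hθ (c (t : Y) a) = t * jI hc hθ a * t⁻¹ := by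
  apply Subtype.ext
  exact hc.act (t : Y) a

/-- The transform of a function on the inertia group. -/
noncomputable def tr (h : inert c θ → ℂ) (t : inert c θ) : ℂ := ∑ a, h (t * jI hc hθ a) * θ a

theorem tr_conj (h : inert c θ → ℂ) (hh : ∀ g x, h (g * x * g⁻¹) = h x) (s t : inert c θ) :
    tr hc hθ h (s * t * s⁻¹) = tr hc hθ h t := by
  rw [tr, tr]
  symm
  refine Fintype.sum_equiv (c (s : Y)).toEquiv _ _ fun a => ?_
  have h1 : (c (s : Y)).toEquiv a = c (s : Y) a := rfl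
  rw [h1, s.2 a, jI_act, ← hh s (t * jI hc hθ a)]
  congr 2
  group

theorem isIntegral_tr (h : inert c θ → ℂ) (hi : ∀ x, IsIntegral ℤ (h x)) (t : inert c θ) :
    IsIntegral ℤ (tr hc hθ h t) :=
  isIntegral_sum _ _ fun a _ => (hi _).mul (isIntegral_char hθ a)

theorem ext0_tr (h : inert c θ → ℂ) (u : Y) :
    ext0 (tr hc hθ h) u = ∑ a, ext0 h (u * j a) * θ a := by
  by_cases hu : u ∈ inert c θ
  · rw [ext0_of_mem _ hu, tr]
    refine Finset.sum_congr rfl fun a _ => ?_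
    have h1 : u * j a ∈ inert c θ := (inert c θ).mul_mem hu (mem_inert hc hθ a)
    rw [ext0_of_mem _ h1]
    rfl
  · rw [ext0_of_not_mem _ hu]
    symm
    refine Finset.sum_eq_zero fun a _ => ?_
    have h1 : u * j a ∉ inert c θ := by
      intro h2
      apply hu
      have h3 := (inert c θ).mul_mem h2 ((inert c θ).inv_mem (mem_inert hc hθ a))
      rwa [mul_inv_cancel_right] at h3
    rw [ext0_of_not_mem _ h1, zero_mul]

/-- The characters over `θ`. -/
theorem iso {ψ : inert c θ → ℂ} (hψ : IsIrr ψ) (hip : ip (fun a => ext0 ψ (j a)) θ ≠ 0) :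
    (∀ t, ∑ a, θ a * ψ (t * (jI hc hθ a)⁻¹) = (Nat.card A : ℂ) / θ 1 * ψ t) ∧
    ∀ θ₁ : A → ℂ, IsIrr θ₁ → θ₁ ≠ θ → ∀ t, ∑ a, θ₁ a * ψ (t * (jI hc hθ a)⁻¹) = 0 := by
  obtain ⟨n, ρ, hρ, rfl⟩ := hψ
  refine proj ρ (jI hc hθ) (fun t => c (t : Y)) (fun t a => jI_act hc hθ t a) hρ θ hθ
    (fun t a => t.2 a) ?_
  intro h0
  apply hip
  rw [ip]
  have h1 : ∑ g, ext0 ρ.character (j g) * θ g⁻¹ = ∑ a, θ a * ρ.character (jI hc hθ a)⁻¹ := by
    refine Fintype.sum_equiv (Equiv.inv A) _ _ fun a => ?_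
    rw [Equiv.inv_apply, ext0_of_mem _ (mem_inert hc hθ a), map_inv, inv_inv, mul_comm]
    rfl
  rw [h1, h0, zero_div]

theorem wt_tr (h : inert c θ → ℂ) {ψ : inert c θ → ℂ} (hψ : IsIrr ψ)
    (hip : ip (fun a => ext0 ψ (j a)) θ ≠ 0) :
    ∑ t, tr hc hθ h t * ψ t = (Nat.card A : ℂ) / θ 1 * ∑ t, h t * ψ t := by
  have h1 : ∑ t, tr hc hθ h t * ψ t =
      ∑ a, ∑ t, h t * (θ a * ψ (t * (jI hc hθ a)⁻¹)) := by
    simp only [tr, Finset.sum_mul]
    rw [Finset.sum_comm]
    refine Finset.sum_congr rfl fun a _ => ?_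
    refine Fintype.sum_equiv (Equiv.mulRight (jI hc hθ a)) _ _ fun t => ?_
    rw [Equiv.coe_mulRight, mul_inv_cancel_right]
    ring
  rw [h1, Finset.sum_comm]
  simp only [← Finset.mul_sum, (iso hc hθ hψ hip).1]
  rw [Finset.mul_sum]
  refine Finset.sum_congr rfl fun t _ => ?_
  ring

theorem wt_tr_out (h : inert c θ → ℂ) {ψ : inert c θ → ℂ} (hψ : IsIrr ψ)
    (hip : ip (fun a => ext0 ψ (j a)) θ ≠ 0) (z : Y) (hz : z ∉ inert c θ) :
    ∑ t : inert c θ, ext0 (tr hc hθ h) (z⁻¹ * t * z) * ψ t = 0 := by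
  have hact : ∀ a, z * j a = j (c z a) * z := by
    intro a
    rw [hc.act]
    group
  have h1 : ∑ t : inert c θ, ext0 (tr hc hθ h) (z⁻¹ * t * z) * ψ t =
      ∑ a, ∑ t : inert c θ, ext0 h (z⁻¹ * t * z) *
        (θ a * ψ (t * (jI hc hθ (c z a))⁻¹)) := by
    simp only [ext0_tr, Finset.sum_mul]
    rw [Finset.sum_comm]
    refine Finset.sum_congr rfl fun a _ => ?_
    refine Fintype.sum_equiv (Equiv.mulRight (jI hc hθ (c z a))) _ _ fun t => ?_
    rw [Equiv.coe_mulRight, mul_inv_cancel_right, Subgroup.coe_mul, coe_jI]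
    have h2 : z⁻¹ * (t : Y) * z * j a = z⁻¹ * ((t : Y) * j (c z a)) * z := by
      rw [mul_assoc (z⁻¹ * (t : Y)), hact]
      group
    rw [h2]
    ring
  rw [h1, Finset.sum_comm]
  refine Finset.sum_eq_zero fun t _ => ?_
  rw [← Finset.mul_sum]
  have h3 : ∑ a, θ a * ψ (t * (jI hc hθ (c z a))⁻¹) =
      ∑ b, θ (c z⁻¹ b) * ψ (t * (jI hc hθ b)⁻¹) := by
    refine Fintype.sum_equiv (c z).toEquiv _ _ fun a => ?_
    have h4 : (c z).toEquiv a = c z a := rfl
    rw [h4, ← MulAut.mul_apply, ← map_mul, inv_mul_cancel, map_one, MulAut.one_apply]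
  rw [h3, (iso hc hθ hψ hip).2 (fun b => θ (c z⁻¹ b)) (hθ.comp_mulEquiv (c z⁻¹)) ?_ t, mul_zero]
  intro h5
  apply hz
  have h6 : z⁻¹ ∈ inert c θ := fun b => congrFun h5 b
  have h7 := (inert c θ).inv_mem h6
  rwa [inv_inv] at h7

/-- The sum over the inertia group of the induced function. -/
theorem main (h : inert c θ → ℂ) (_hh : ∀ g x, h (g * x * g⁻¹) = h x) {ψ : inert c θ → ℂ}
    (hψ : IsIrr ψ) (hip : ip (fun a => ext0 ψ (j a)) θ ≠ 0) :
    wt (indc (inert c θ) ψ) (indc (inert c θ) (tr hc hθ h)) =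
      (Nat.card A : ℂ) / θ 1 * wt ψ h := by
  classical
  have hT : (Nat.card (inert c θ) : ℂ) ≠ 0 := natCard_ne_zero
  obtain ⟨-, hcl, -, -⟩ := IND_thm Y (inert c θ) (tr hc hθ h)
  obtain ⟨-, -, -, hw⟩ := IND_thm Y (inert c θ) ψ
  rw [hw hψ.one_ne_zero _ hcl, wt, wt, ← mul_div_assoc]
  congr 1
  have h1 : ∑ s : inert c θ, indc (inert c θ) (tr hc hθ h) s * ψ s =
      (∑ z : Y, ∑ s : inert c θ, ext0 (tr hc hθ h) (z⁻¹ * s * z) * ψ s) /
        Nat.card (inert c θ) := by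
    rw [Finset.sum_comm, Finset.sum_div]
    refine Finset.sum_congr rfl fun s _ => ?_
    rw [indc, ← Finset.sum_mul]
    ring
  have h2 : ∀ z : Y, ∑ s : inert c θ, ext0 (tr hc hθ h) (z⁻¹ * s * z) * ψ s =
      if z ∈ inert c θ then ∑ t, tr hc hθ h t * ψ t else 0 := by
    intro z
    split_ifs with hz
    · refine Fintype.sum_equiv (MulAut.conj (⟨z, hz⟩⁻¹ : inert c θ)).toEquiv _ _ fun s => ?_
      have h3 : (MulAut.conj (⟨z, hz⟩⁻¹ : inert c θ)).toEquiv s =
          (⟨z, hz⟩⁻¹ : inert c θ) * s * (⟨z, hz⟩⁻¹ : inert c θ)⁻¹ := rfl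
      rw [h3, hψ.conj_eq]
      have h4 : z⁻¹ * (s : Y) * z ∈ inert c θ :=
        (inert c θ).mul_mem ((inert c θ).mul_mem ((inert c θ).inv_mem hz) s.2) hz
      rw [ext0_of_mem _ h4]
      congr 2
      apply Subtype.ext
      simp
    · exact wt_tr_out hc hθ h hψ hip z hz
  rw [h1]
  simp only [h2]
  rw [← Finset.sum_filter, Finset.sum_const, nsmul_eq_mul]
  have h5 : ((Finset.univ.filter (fun z : Y => z ∈ inert c θ)).card : ℂ) =
      (Nat.card (inert c θ) : ℂ) := by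
    rw [Nat.card_eq_fintype_card, Fintype.card_subtype]
  rw [h5, mul_div_assoc, mul_comm, div_mul_cancel₀ _ hT, wt_tr hc hθ h hψ hip]

end Main

end FRI

open _root_.Pool.Agent.DPC.FRI in
/-- FRI: the Clifford correspondence respects blocks. -/
theorem FRI_thm : Stmt_FRI := by
  intro A Y K _ _ _ _ _ 𝔐 ℓ _ h𝔐 hℓ j c p hc θ hθ hθ0 ψ ψ' hψ hψ' hip hip' heq
  have hprime : 𝔐.IsPrime := h𝔐.isPrime
  obtain ⟨hcc, -, -⟩ := CCOR_thm IND_thm SUMM_thm A Y K j c p hc θ hθ
  have hI := (hcc ψ hψ hip).1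
  have hI' := (hcc ψ' hψ' hip').1
  have hcod : IsIntegral ℤ ((Nat.card A : ℂ) / θ 1) := by
    obtain ⟨n, N, hn, hn', hN, -⟩ := exists_codeg hθ hθ0
    have h1 : (Nat.card A : ℂ) / θ 1 = (N : ℂ) := by
      have hn0 : (n : ℂ) ≠ 0 := by exact_mod_cast hn.ne'
      rw [hn', hN]
      push_cast
      field_simp
    rw [h1]
    exact _root_.isIntegral_natCast N
  have h0 := red_codeg_ne_zero 𝔐 hℓ hθ hθ0
  funext g
  rw [cen, cen]
  have hh : ∀ x y : inert c θ, (fun t : inert c θ =>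
      conjInd ((MonoidHom.id (inert c θ)) t) g) (x * y * x⁻¹) =
      (fun t : inert c θ => conjInd ((MonoidHom.id (inert c θ)) t) g) y := by
    intro x y
    exact conjInd_conj x y g
  have hi : ∀ t : inert c θ, IsIntegral ℤ
      ((fun t : inert c θ => conjInd ((MonoidHom.id (inert c θ)) t) g) t) :=
    fun t => isIntegral_conjInd _ _
  set h : inert c θ → ℂ := fun t => conjInd ((MonoidHom.id (inert c θ)) t) g with hhdef
  obtain ⟨-, hcl, -, -⟩ := IND_thm Y (inert c θ) (tr hc hθ h)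
  have hint : ∀ y, IsIntegral ℤ (indc (inert c θ) (tr hc hθ h) y) := fun y =>
    TEST.isIntegral_indc (inert c θ) (tr hc hθ h) (tr_conj hc hθ h hh)
      (isIntegral_tr hc hθ h hi) y
  have key : ∀ φ : inert c θ → ℂ, IsIrr φ → ip (fun a => ext0 φ (j a)) θ ≠ 0 →
      IsIrr (indc (inert c θ) φ) →
      red 𝔐 ((Nat.card A : ℂ) / θ 1) * red 𝔐 (wt φ h) =
        pair 𝔐 (indc (inert c θ) (tr hc hθ h))
          (cen 𝔐 (MonoidHom.id Y) (indc (inert c θ) φ)) := by
    intro φ hφ hφi hφI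
    rw [← red_wt_eq_pair 𝔐 (MonoidHom.id Y) hφI _ hcl hint,
      ← red_mul 𝔐 hcod (isIntegral_wt hφ h hh hi), ← main hc hθ h hh hφ hφi]
    rfl
  have e1 := key ψ hψ hip hI
  have e2 := key ψ' hψ' hip' hI'
  rw [heq, ← e2] at e1
  exact mul_left_cancel₀ h0 e1

end Pool.Agent.DPC


end

section

set_option autoImplicit false

namespace Pool.Agent.DPB

open Pool.Agent.Lib_helper13 Representation

namespace NPJ

section A

variable {ℓ : ℕ} [Fact ℓ.Prime] {F T V : Type} [Field F] [CharP F ℓ] [Group T] [Fintype T]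
  [AddCommGroup V] [Module F V] (P : Subgroup T) (ρ : Representation F T V)

open Classical in
/-- The trace over `P` of an endomorphism. -/
noncomputable def trP (θ : Module.End F V) : Module.End F V :=
  ∑ h, if h ∈ P then ρ h * θ * ρ h⁻¹ else 0

theorem exists_fixed (hP : Nat.card P = ℓ) (W : Submodule F V)
    (hW : ∀ p ∈ P, ∀ w ∈ W, ρ p w ∈ W) (w₀ : V) (hw₀ : w₀ ∈ W) (h0 : w₀ ≠ 0) :
    ∃ w ∈ W, w ≠ 0 ∧ ∀ p ∈ P, ρ p w = w := by
  classical
  haveI : Nontrivial V := ⟨⟨w₀, 0, h0⟩⟩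
  haveI : CharP (Module.End F V) ℓ :=
    charP_of_injective_algebraMap (FaithfulSMul.algebraMap_injective F (Module.End F V)) ℓ
  haveI : IsCyclic P := isCyclic_of_prime_card hP
  obtain ⟨s, hs⟩ := IsCyclic.exists_generator (α := P)
  have hsl : s ^ ℓ = 1 := by
    rw [← hP]; exact pow_card_eq_one'
  set x : Module.End F V := ρ (s : T) - 1 with hx
  have hxl : x ^ ℓ = 0 := by
    rw [hx, sub_pow_char_of_commute _ (Commute.one_right _), one_pow, ← map_pow]
    have h1 : ((s : T)) ^ ℓ = 1 := by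
      have := congrArg (Subtype.val) hsl
      simpa using this
    rw [h1, map_one, sub_self]
  have hex : ∃ k, (x ^ k) w₀ = 0 := ⟨ℓ, by rw [hxl]; rfl⟩
  obtain ⟨k, hk, hmin⟩ : ∃ k, (x ^ k) w₀ = 0 ∧ ∀ m < k, (x ^ m) w₀ ≠ 0 :=
    ⟨Nat.find hex, Nat.find_spec hex, fun m hm => Nat.find_min hex hm⟩
  have hstab : ∀ w ∈ W, x w ∈ W := by
    intro w hw
    rw [hx, LinearMap.sub_apply]
    exact W.sub_mem (hW _ s.2 _ hw) hw
  have hpow : ∀ m, (x ^ m) w₀ ∈ W := by
    intro m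
    induction m with
    | zero => simpa using hw₀
    | succ m ih =>
      rw [pow_succ']
      exact hstab _ ih
  cases k with
  | zero => exact absurd (by simpa using hk) h0
  | succ k =>
    refine ⟨(x ^ k) w₀, hpow k, hmin k (Nat.lt_succ_self k), ?_⟩
    have h1 : x ((x ^ k) w₀) = 0 := by
      rw [pow_succ'] at hk
      exact hk
    have h2 : ρ (s : T) ((x ^ k) w₀) = (x ^ k) w₀ := by
      rw [hx, LinearMap.sub_apply] at h1
      have := sub_eq_zero.1 h1
      simpa using this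
    intro p hp
    obtain ⟨n, hn⟩ := hs ⟨p, hp⟩
    have hn' : ((s : T)) ^ n = p := by
      have := congrArg (Subtype.val) hn
      simpa using this
    rw [← hn']
    have h3 : ∀ g : T, ρ g ((x ^ k) w₀) = (x ^ k) w₀ → ρ g⁻¹ ((x ^ k) w₀) = (x ^ k) w₀ := by
      intro g hg
      conv_lhs => rw [← hg]
      rw [← Module.End.mul_apply, ← map_mul, inv_mul_cancel, map_one]
      rfl
    have h4 : ∀ m : ℕ, ρ ((s : T) ^ m) ((x ^ k) w₀) = (x ^ k) w₀ := by
      intro m
      induction m with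
      | zero => simp
      | succ m ih => rw [pow_succ, map_mul, Module.End.mul_apply, h2, ih]
    cases n with
    | ofNat m => simpa using h4 m
    | negSucc m =>
      rw [zpow_negSucc]
      exact h3 _ (h4 _)

theorem trP_comm (θ : Module.End F V) (q : T) (hq : q ∈ P) :
    ρ q * trP P ρ θ = trP P ρ θ * ρ q := by
  classical
  unfold trP
  rw [Finset.mul_sum, Finset.sum_mul]
  refine Fintype.sum_equiv (Equiv.mulLeft q) _ _ fun h => ?_
  simp only [Equiv.coe_mulLeft]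
  have h1 : q * h ∈ P ↔ h ∈ P := Subgroup.mul_mem_cancel_left P hq
  by_cases hh : h ∈ P
  · rw [if_pos hh, if_pos (h1.2 hh), map_mul, mul_inv_rev, map_mul]
    simp only [mul_assoc]
    rw [← map_mul ρ q⁻¹ q, inv_mul_cancel, map_one, mul_one]
  · rw [if_neg hh, if_neg (fun h2 => hh (h1.1 h2)), mul_zero, zero_mul]

theorem exists_alpha [Module.Finite F V] (hP : Nat.card P = ℓ) (hn : ¬ NPr P ρ) :
    ∃ α : Module.End F V, trP P ρ α = 1 := by
  classical
  obtain ⟨g, hg⟩ := (tN P ρ).rangeRestrict.exists_rightInverse_of_surjective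
    (LinearMap.range_rangeRestrict _)
  obtain ⟨π, hπ⟩ := (LinearMap.range (tN P ρ)).subtype.exists_leftInverse_of_injective
    (Submodule.ker_subtype _)
  set θ : Module.End F V := g ∘ₗ π with hθ
  have hθ1 : ∀ v ∈ LinearMap.range (tN P ρ), tN P ρ (θ v) = v := by
    intro v hv
    have h1 : π v = ⟨v, hv⟩ := by
      have := LinearMap.congr_fun hπ ⟨v, hv⟩
      simpa using this
    have h2 := LinearMap.congr_fun hg ⟨v, hv⟩
    have h3 := congrArg Subtype.val h2
    rw [hθ, LinearMap.comp_apply, h1]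
    simpa using h3
  set β := trP P ρ θ with hβ
  have hfix : ∀ v : V, (∀ p ∈ P, ρ p v = v) → β v = v := by
    intro v hv
    have hr : v ∈ LinearMap.range (tN P ρ) := by
      by_contra h
      exact hn ⟨v, hv, h⟩
    rw [hβ]
    unfold trP
    rw [LinearMap.sum_apply]
    conv_rhs => rw [← hθ1 v hr]
    unfold tN
    rw [LinearMap.sum_apply]
    refine Finset.sum_congr rfl fun h _ => ?_
    by_cases hh : h ∈ P
    · rw [if_pos hh, if_pos hh, Module.End.mul_apply, Module.End.mul_apply,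
        hv _ (P.inv_mem hh)]
    · rw [if_neg hh, if_neg hh]; rfl
  have hinj : LinearMap.ker β = ⊥ := by
    rw [LinearMap.ker_eq_bot']
    intro m hm
    by_contra h0
    obtain ⟨w, hw, hw0, hwf⟩ := exists_fixed P ρ hP (LinearMap.ker β) (by
      intro p hp w hw
      rw [LinearMap.mem_ker] at hw ⊢
      have h1 := LinearMap.congr_fun (trP_comm P ρ θ p hp) w
      rw [Module.End.mul_apply, Module.End.mul_apply, ← hβ] at h1
      rw [← h1, hw, map_zero]) m (LinearMap.mem_ker.2 hm) h0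
    apply hw0
    rw [← hfix w hwf]
    exact LinearMap.mem_ker.1 hw
  obtain ⟨u, hu⟩ := (LinearMap.isUnit_iff_ker_eq_bot β).2 hinj
  refine ⟨θ * (↑u⁻¹ : Module.End F V), ?_⟩
  have h1 : trP P ρ (θ * (↑u⁻¹ : Module.End F V)) = β * (↑u⁻¹ : Module.End F V) := by
    rw [hβ]
    unfold trP
    rw [Finset.sum_mul]
    refine Finset.sum_congr rfl fun h _ => ?_
    by_cases hh : h ∈ P
    · rw [if_pos hh, if_pos hh]
      have hc : Commute (u : Module.End F V) (ρ h⁻¹) := by
        rw [hu]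
        exact (trP_comm P ρ θ _ (P.inv_mem hh)).symm
      have hc' := hc.units_inv_left
      simp only [mul_assoc]
      rw [hc'.eq]
    · rw [if_neg hh, if_neg hh, zero_mul]
  rw [h1, ← hu, Units.mul_inv]

theorem sum_all (α : Module.End F V) (hα : trP P ρ α = 1) :
    ∑ t, ρ t * α * ρ t⁻¹ = (P.index : F) • (1 : Module.End F V) := by
  classical
  haveI : Fintype (T ⧸ P) := Fintype.ofFinite _
  rw [← Finset.sum_fiberwise Finset.univ (fun t : T => (t : T ⧸ P))]
  have h1 : ∀ q : T ⧸ P, ∑ t ∈ Finset.univ.filter (fun t : T => (t : T ⧸ P) = q),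
      ρ t * α * ρ t⁻¹ = 1 := by
    intro q
    rw [Finset.sum_filter]
    have h2 : ∑ t : T, (if (t : T ⧸ P) = q then ρ t * α * ρ t⁻¹ else 0) =
        ∑ h : T, (if h ∈ P then ρ (q.out * h) * α * ρ (q.out * h)⁻¹ else 0) := by
      refine (Fintype.sum_equiv (Equiv.mulLeft q.out) _ _ fun h => ?_).symm
      simp only [Equiv.coe_mulLeft]
      have h3 : (((q.out * h : T)) : T ⧸ P) = q ↔ h ∈ P := by
        conv_lhs => rw [← QuotientGroup.out_eq' q]
        rw [eq_comm, QuotientGroup.eq]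
        simp
      by_cases hh : h ∈ P
      · rw [if_pos hh, if_pos (h3.2 hh)]
      · rw [if_neg hh, if_neg (fun h4 => hh (h3.1 h4))]
    rw [h2]
    have h5 : ∑ h : T, (if h ∈ P then ρ (q.out * h) * α * ρ (q.out * h)⁻¹ else 0) =
        ρ q.out * trP P ρ α * ρ q.out⁻¹ := by
      unfold trP
      rw [Finset.mul_sum, Finset.sum_mul]
      refine Finset.sum_congr rfl fun h _ => ?_
      by_cases hh : h ∈ P
      · rw [if_pos hh, if_pos hh, map_mul, mul_inv_rev, map_mul]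
        simp only [mul_assoc]
      · rw [if_neg hh, if_neg hh, mul_zero, zero_mul]
    rw [h5, hα, mul_one, ← map_mul, mul_inv_cancel, map_one]
  rw [Finset.sum_congr rfl fun q _ => h1 q, Finset.sum_const, Finset.card_univ,
    Subgroup.index, Nat.card_eq_fintype_card]
  rw [← Nat.cast_smul_eq_nsmul F]

end A

end NPJ

theorem NPJ_thm (h1 : Stmt_DEN) : Stmt_NPJ := by
  intro ℓ _ F T V _ _ _ _ _ _ _ _ P ρ hP hidx hirr hn
  classical
  obtain ⟨α, hα⟩ := NPJ.exists_alpha P ρ hP hn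
  have hne : (P.index : F) ≠ 0 := by
    intro h
    exact hidx ((CharP.cast_eq_zero_iff F ℓ _).1 h)
  obtain ⟨b, hb⟩ := h1 F T Unit (fun _ => V) (fun _ => ρ) (fun _ => hirr)
    (fun i j hij => absurd (Subsingleton.elim i j) hij)
    (fun _ => (P.index : F)⁻¹ • α)
  have hb := hb ()
  refine ⟨fun g => ∑ t, b (t⁻¹ * g * t), ?_, ?_, ?_⟩
  · intro g x
    refine Fintype.sum_equiv (Equiv.mulLeft g⁻¹) _ _ fun t => ?_
    simp only [Equiv.coe_mulLeft]
    congr 1
    group
  · intro g u hu hul hug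
    have hord : IsPGroup ℓ (Subgroup.zpowers u) := by
      intro y
      refine ⟨1, ?_⟩
      obtain ⟨n, hn'⟩ := Subgroup.mem_zpowers_iff.1 y.2
      apply Subtype.ext
      rw [pow_one, Subgroup.coe_pow, ← hn', ← zpow_natCast, ← zpow_mul, mul_comm n, zpow_mul,
        zpow_natCast, hul, one_zpow]
      rfl
    have h2 := sum_eq_sum_fixed (X := T) hord (M := F) (fun m => by
      rw [← Nat.cast_smul_eq_nsmul F, CharP.cast_eq_zero F ℓ, zero_smul])
      (fun t => b (t⁻¹ * g * t)) (by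
        intro q t
        have hcomm : (q : T) * g = g * (q : T) := by
          obtain ⟨n, hn'⟩ := Subgroup.mem_zpowers_iff.1 q.2
          rw [← hn']
          have : Commute u g := hug
          exact (this.zpow_left n).eq
        have h3 : ((q • t : T))⁻¹ * g * (q • t) = t⁻¹ * g * t := by
          change ((q : T) * t)⁻¹ * g * ((q : T) * t) = t⁻¹ * g * t
          have h4 : (q : T)⁻¹ * g * (q : T) = g := by
            rw [mul_assoc, ← hcomm, ← mul_assoc, inv_mul_cancel, one_mul]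
          calc ((q : T) * t)⁻¹ * g * ((q : T) * t) = t⁻¹ * ((q : T)⁻¹ * g * (q : T)) * t := by
                group
            _ = t⁻¹ * g * t := by rw [h4]
        change b (((q • t : T))⁻¹ * g * (q • t)) = b (t⁻¹ * g * t)
        rw [h3])
    change ∑ t, b (t⁻¹ * g * t) = 0
    rw [h2]
    refine Finset.sum_eq_zero fun t ht => ?_
    exfalso
    have h5 := (Finset.mem_filter.1 ht).2 ⟨u, Subgroup.mem_zpowers u⟩
    have h6 : u * t = t := h5
    exact hu (mul_eq_right.1 h6)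
  · have h7 : Zop ρ (fun g => ∑ t, b (t⁻¹ * g * t)) =
        ∑ t, ρ t * Zop ρ b * ρ t⁻¹ := by
      unfold Zop
      simp only [Finset.sum_smul, Finset.mul_sum, Finset.sum_mul]
      rw [Finset.sum_comm]
      refine Finset.sum_congr rfl fun t _ => ?_
      refine Fintype.sum_equiv (MulAut.conj t⁻¹).toEquiv _ _ fun g => ?_
      have h8 : (MulAut.conj t⁻¹).toEquiv g = t⁻¹ * g * t := by
        simp
      rw [h8]
      rw [Algebra.mul_smul_comm, Algebra.smul_mul_assoc, ← map_mul, ← map_mul]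
      congr 2
      group
    rw [h7, hb]
    have h9 : ∀ t : T, ρ t * ((P.index : F)⁻¹ • α) * ρ t⁻¹ =
        (P.index : F)⁻¹ • (ρ t * α * ρ t⁻¹) := by
      intro t
      rw [Algebra.mul_smul_comm, Algebra.smul_mul_assoc]
    rw [Finset.sum_congr rfl fun t _ => h9 t, ← Finset.smul_sum, NPJ.sum_all P ρ α hα,
      smul_smul, inv_mul_cancel₀ hne, one_smul]

end Pool.Agent.DPB


end
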