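import Mathlib
import Pool.Agent.DAM.C11
import Pool.Agent.DAM.C14
import Pool.Agent.DAM.C15
import Pool.Agent.DAM.C18
import Pool.Agent.DAM.C19
import Pool.Agent.DAM.C22
import Pool.Agent.DAM.C25
import Pool.Agent.DAM.C26
import Pool.Agent.DAM.C43
import Pool.Agent.DAM.C48
import Pool.Agent.DAM.C52

/-! Parts: DPN.ABQ, DPN.SUPG, DPT.DETL, DPV.LINX, DPV.TWH, DPV.TWOV, DPW.RPRB, DPW.TWW, DPX.RPRX, DPX.KEX, DPX.UNSX, DPX.CENX, DPX.E1TX, DPX.TWX, DPX.TWOX -/

section

/-!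
# ABQ: the quotient of `W` by `R`
-/

set_option autoImplicit false

namespace Pool.Agent.DPN

open Pool.Agent.DP Pool.Agent.DPC Pool.Agent.DPM Pool.Agent.Lib_helper13 Representation

namespace ABQ

/-- A finite abelian group whose order is divisible by `ℓ` has a subgroup of index `ℓ`. -/
theorem exists_index_comm (ℓ : ℕ) [Fact ℓ.Prime] : ∀ (n : ℕ) (Q : Type) [CommGroup Q] [Finite Q],
    Nat.card Q = n → ℓ ∣ Nat.card Q → ∃ N : Subgroup Q, N.index = ℓ := by
  intro n
  induction n using Nat.strong_induction_on with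
  | _ n ih =>
    intro Q _ _ hn hd
    obtain ⟨x, hx⟩ := exists_prime_orderOf_dvd_card' ℓ hd
    have hC : Nat.card (Subgroup.zpowers x) = ℓ := by rw [Nat.card_zpowers, hx]
    have hp : ℓ.Prime := Fact.out
    by_cases h : ℓ ∣ (Subgroup.zpowers x).index
    · have hlt : Nat.card (Q ⧸ Subgroup.zpowers x) < n := by
        have h1 := Subgroup.card_mul_index (Subgroup.zpowers x)
        rw [hC, hn] at h1
        have h2 : 0 < n := by rw [← hn]; exact Nat.card_pos
        have h3 : (Subgroup.zpowers x).index ≠ 0 := by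
          rintro h3
          rw [h3, mul_zero] at h1
          omega
        have h4 : 2 ≤ ℓ := hp.two_le
        have h5 : (Subgroup.zpowers x).index = Nat.card (Q ⧸ Subgroup.zpowers x) := rfl
        rw [← h5, ← h1]
        have h6 : 0 < (Subgroup.zpowers x).index := Nat.pos_of_ne_zero h3
        nlinarith
      obtain ⟨N, hN⟩ := ih _ hlt (Q ⧸ Subgroup.zpowers x) rfl h
      refine ⟨N.comap (QuotientGroup.mk' (Subgroup.zpowers x)), ?_⟩
      rw [Subgroup.index_comap_of_surjective _ (QuotientGroup.mk'_surjective _), hN]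
    · have hco : Nat.Coprime (Nat.card (Subgroup.zpowers x)) (Subgroup.zpowers x).index := by
        rw [hC]
        exact (Nat.Prime.coprime_iff_not_dvd hp).2 h
      obtain ⟨K, hK⟩ := Subgroup.exists_right_complement'_of_coprime hco
      exact ⟨K, by rw [hK.index_eq_card, hC]⟩

theorem exists_index (ℓ : ℕ) [Fact ℓ.Prime] (Q : Type) [Group Q] [Finite Q]
    (hc : ∀ a b : Q, a * b = b * a) (hd : ℓ ∣ Nat.card Q) :
    ∃ N : Subgroup Q, N.Normal ∧ N.index = ℓ := by
  let _ : CommGroup Q := { (inferInstance : Group Q) with mul_comm := hc }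
  obtain ⟨N, hN⟩ := exists_index_comm ℓ (Nat.card Q) Q rfl hd
  refine ⟨N, ⟨fun n hn g => ?_⟩, hN⟩
  rw [hc g n, mul_inv_cancel_right]
  exact hn

/-- A group generated by two commuting elements is abelian. -/
theorem comm_of_two {Q : Type} [Group Q] {x y : Q} (h : Subgroup.closure {x, y} = ⊤)
    (hxy : x * y = y * x) (a b : Q) : a * b = b * a := by
  have key : ∀ z ∈ ({x, y} : Set Q), ∀ b : Q, z * b = b * z := by
    intro z hz b
    have h1 : Subgroup.closure {x, y} ≤ Subgroup.centralizer {z} := by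
      rw [Subgroup.closure_le]
      intro w hw
      rw [SetLike.mem_coe, Subgroup.mem_centralizer_singleton_iff]
      rcases hz with rfl | rfl <;> rcases hw with rfl | rfl
      · rfl
      · exact hxy.symm
      · exact hxy
      · rfl
    have h2 : b ∈ Subgroup.centralizer {z} := h1 (by rw [h]; exact Subgroup.mem_top b)
    rw [Subgroup.mem_centralizer_singleton_iff] at h2
    exact h2.symm
  have h1 : Subgroup.closure {x, y} ≤ Subgroup.centralizer {b} := by
    rw [Subgroup.closure_le]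
    intro w hw
    rw [SetLike.mem_coe, Subgroup.mem_centralizer_singleton_iff]
    exact key w hw b
  have h2 : a ∈ Subgroup.centralizer {b} := h1 (by rw [h]; exact Subgroup.mem_top a)
  rw [Subgroup.mem_centralizer_singleton_iff] at h2
  exact h2

theorem comm_quot {W : Type} [Group W] (R : Subgroup W) [R.Normal] {x y : W}
    (hR : x * y * x⁻¹ * y⁻¹ ∈ R) (h : Subgroup.closure {x, y} ⊔ R = ⊤) (a b : W ⧸ R) :
    a * b = b * a := by
  refine comm_of_two (x := (x : W ⧸ R)) (y := (y : W ⧸ R)) ?_ ?_ a b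
  · have h1 := congrArg (Subgroup.map (QuotientGroup.mk' R)) h
    rw [Subgroup.map_sup, MonoidHom.map_closure, QuotientGroup.map_mk'_self, sup_bot_eq,
      Set.image_pair, Subgroup.map_top_of_surjective _ (QuotientGroup.mk'_surjective R)] at h1
    exact h1
  · have h1 : ((x * y * x⁻¹ * y⁻¹ : W) : W ⧸ R) = 1 := (QuotientGroup.eq_one_iff _).2 hR
    have h2 : ((x : W ⧸ R) * y) * (x : W ⧸ R)⁻¹ * (y : W ⧸ R)⁻¹ = 1 := h1
    rw [mul_inv_eq_one, mul_inv_eq_iff_eq_mul] at h2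
    exact h2

theorem ite_cg {a b : Prop} {_ : Decidable a} {_ : Decidable b} (h : a ↔ b) :
    (if a then (1 : ℤ) else 0) = if b then 1 else 0 := by
  by_cases hb : b
  · rw [if_pos hb, if_pos (h.2 hb)]
  · rw [if_neg hb, if_neg (fun ha => hb (h.1 ha))]

theorem card_filter_cg {α : Type*} {s : Finset α} {p q : α → Prop} {_ : DecidablePred p}
    {_ : DecidablePred q} (h : ∀ x ∈ s, p x ↔ q x) : (s.filter p).card = (s.filter q).card := by
  congr 1
  ext x
  rw [Finset.mem_filter, Finset.mem_filter]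
  exact and_congr_right (h x)

/-- The numbers of the characters of all defects. -/
theorem sum_defect {G : Type} [Group G] [Fintype G] (ℓ : ℕ) [Fact ℓ.Prime] (N : ℕ)
    (hN : padicValNat ℓ (Nat.card G) ≤ N) (P : (G → ℂ) → Prop) :
    ∑ e ∈ Finset.range (N + 1), (Nat.card {η : G → ℂ // IsIrr η ∧ P η ∧ HasDefect ℓ η e} : ℚ) =
      Nat.card {η : G → ℂ // IsIrr η ∧ P η} := by
  classical
  have hc : ∀ Q : (G → ℂ) → Prop, Nat.card {η : G → ℂ // IsIrr η ∧ Q η} =
      ((irrF G).filter Q).card := by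
    intro Q
    refine Nat.subtype_card _ fun η => ?_
    rw [Finset.mem_filter, mem_irrF]
  obtain ⟨d, hd⟩ : ∃ d : (G → ℂ) → ℕ, ∀ η, IsIrr η → HasDefect ℓ η (d η) := by
    refine ⟨fun η => if h : ∃ e, HasDefect ℓ η e then h.choose else 0, fun η hη => ?_⟩
    have h : ∃ e, HasDefect ℓ η e := hη.exists_defect
    beta_reduce
    rw [dif_pos h]
    exact h.choose_spec
  have hdN : ∀ η, IsIrr η → d η < N + 1 := by
    intro η hη
    obtain ⟨n, -, hn⟩ := hd η hη
    omega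
  rw [hc P, Finset.card_eq_sum_card_fiberwise (f := d) (t := Finset.range (N + 1))]
  · push_cast
    refine Finset.sum_congr rfl fun e _ => ?_
    rw [hc (fun η => P η ∧ HasDefect ℓ η e), Finset.filter_filter]
    congr 1
    refine card_filter_cg fun η hη => ?_
    rw [mem_irrF] at hη
    constructor
    · rintro ⟨h1, h2⟩
      exact ⟨h1, (hd η hη).unique h2⟩
    · rintro ⟨h1, rfl⟩
      exact ⟨h1, hd η hη⟩
  · intro η hη
    rw [Finset.mem_coe, Finset.mem_filter, mem_irrF] at hη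
    rw [Finset.mem_coe, Finset.mem_range]
    exact hdN η hη.1

section Loc

variable {O X H W : Type} [Group O] [Fintype O] [Group X] [Fintype X] [Group H] [Fintype H]
    [Group W] [Fintype W] {𝔐 : Ideal (integralClosure ℤ ℂ)} {ℓ : ℕ} {j : O →* X}
    {c : X →* MulAut O} {p : X →* H} {h : ClG j c p} {a : ℕ} {Z : Subgroup O}
    {Λ : O → (integralClosure ℤ ℂ) ⧸ 𝔐} {π : W →* H} {R : Subgroup W}
    {μ : ∀ τ : Finset (Subgroup O), (stb τ → ℂ) → (π.ker →* ℂˣ)}
    {Lm : ∀ τ : Finset (Subgroup O), (stb τ → ℂ) → (YS j τ → ℤ) → W →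
      (integralClosure ℤ ℂ) ⧸ 𝔐} {τ : Finset (Subgroup O)} {θ : stb τ → ℂ}

/-- The scalars of the class functions vanish outside `R`. -/
theorem Lm_cI (hF : Fam h 𝔐 ℓ a Z Λ π R μ Lm) (hP : Pr h 𝔐 ℓ a Z Λ τ θ) (g : X) {w : W}
    (hw : w ∉ R) : Lm τ θ (cI (YS j τ).subtype g) w = 0 := by
  classical
  have rds := hF.rds τ θ hP
  let u : X → ℤ := fun x => if p x = π w then (if IsConj x g then 1 else 0) else 0
  have hconj : ∀ (b x : X), IsConj (b * x * b⁻¹) g ↔ IsConj x g := by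
    intro b x
    have h1 : IsConj x (b * x * b⁻¹) := isConj_iff.2 ⟨b, rfl⟩
    exact ⟨fun h2 => h1.trans h2, fun h2 => h1.symm.trans h2⟩
  have hpc : ∀ (b : O) (x : X), p (j b * x * (j b)⁻¹) = p x := by
    intro b x
    have h1 : p (j b) = 1 := (h.ker _).2 ⟨b, rfl⟩
    rw [map_mul, map_mul, map_inv, h1, one_mul, inv_one, mul_one]
  have hu : AIv j u := by
    intro b x
    show (if p (j b * x * (j b)⁻¹) = π w then (if IsConj (j b * x * (j b)⁻¹) g then (1 : ℤ) else 0)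
      else 0) = if p x = π w then (if IsConj x g then 1 else 0) else 0
    rw [hpc]
    simp only [hconj]
  have h0 : Lm τ θ (fun t => u t) w = 0 := by
    by_contra hne
    exact hw ((hF.mem τ θ hP w).2 ⟨u, hu, fun x hx => if_neg hx, hne⟩)
  rw [← h0]
  refine rds.cgr _ _ ?_ ?_ w ?_
  · intro b x
    unfold cI
    have h1 : (YS j τ).subtype (jS h τ b * x * (jS h τ b)⁻¹) =
        (YS j τ).subtype (jS h τ b) * (YS j τ).subtype x * ((YS j τ).subtype (jS h τ b))⁻¹ := by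
      rw [map_mul, map_mul, map_inv]
    rw [h1]
    exact ite_cg (hconj _ _)
  · intro b x
    exact hu (b : O) (x : X)
  · intro t ht
    unfold cI
    show _ = if p (t : X) = π w then (if IsConj (t : X) g then (1 : ℤ) else 0) else 0
    have h1 : p (t : X) = π w := ht
    rw [if_pos h1]
    exact ite_cg Iff.rfl

theorem pk_loc (hF : Fam h 𝔐 ℓ a Z Λ π R μ Lm) (hP : Pr h 𝔐 ℓ a Z Λ τ θ) (g : X)
    {c1 c2 : W → (integralClosure ℤ ℂ) ⧸ 𝔐} (hc : ∀ w ∈ R, c1 w = c2 w) :
    pk 𝔐 (Lm τ θ (cI (YS j τ).subtype g)) c1 = pk 𝔐 (Lm τ θ (cI (YS j τ).subtype g)) c2 := by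
  unfold pk
  refine finsum_congr fun C => ?_
  by_cases hC : C.out ∈ R
  · rw [hc _ hC]
  · rw [Lm_cI hF hP g hC, zero_mul, zero_mul]

end Loc

end ABQ

open _root_.Pool.Agent.DPN.ABQ in
theorem ABQ_thm (h1 : Stmt_ABF) (h2 : Stmt_WGT) (h3 : Stmt_SQN) : Stmt_ABQ := by
  classical
  intro O X H W _ _ _ _ _ _ _ _ 𝔐 ℓ _ h𝔐 hℓ j c p h a Z Λ π R μ Lm hF τ θ hP m hm ω hne
  have rds := hF.rds τ θ hP
  obtain ⟨D, hD⟩ : ∃ D : (W → (integralClosure ℤ ℂ) ⧸ 𝔐) → Prop, ∀ c', D c' ↔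
      ∀ g, pk 𝔐 (Lm τ θ (cI (YS j τ).subtype g)) c' = (Nat.card π.ker : ℕ) * ω g :=
    ⟨_, fun _ => Iff.rfl⟩
  have hloc : ∀ c1 c2 : W → (integralClosure ℤ ℂ) ⧸ 𝔐, (∀ w ∈ R, c1 w = c2 w) →
      (D c1 ↔ D c2) := by
    intro c1 c2 hc
    rw [hD, hD]
    constructor
    · intro hh g
      rw [← pk_loc hF hP g hc]
      exact hh g
    · intro hh g
      rw [pk_loc hF hP g hc]
      exact hh g
  have hw : ∀ w : ℕ → ℚ, w 0 = 1 → ∑ V, m V * ((Nat.card V : ℚ) *
      NT 𝔐 ℓ a (jS h τ) (pS p j τ) θ (YS j τ).subtype {ω} V) =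
      ∑ V, m V * ((Nat.card V : ℚ) *
        ∑ e ∈ Finset.range (padicValNat ℓ (Nat.card W) + 1), w e *
          Nat.card {η : ↥(V.comap π) → ℂ // IsIrr η ∧ OvL π.ker (μ τ θ) _ η ∧ HasDefect ℓ η e ∧
            D (cen 𝔐 (V.comap π).subtype η)}) := by
    intro w hw0
    have h4 := h2 (stb τ) (YS j τ) H W X 𝔐 ℓ a (jS h τ) (pS p j τ) θ π (μ τ θ) (Lm τ θ) rds
      (YS j τ).subtype ω m hm w hw0
    rw [h4]
    simp only [hD]
  obtain ⟨x, y, hxy, hcl⟩ : ∃ x y : W, x * y * x⁻¹ * y⁻¹ ∈ R ∧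
      Subgroup.closure {x, y} ⊔ R = ⊤ := by
    by_contra hno
    push Not at hno
    apply hne
    have h4 := h1 H W 𝔐 π hF.πs R hF.Rn hF.Rk (μ τ θ) hF.πc D hloc m hm
    rw [Finset.sum_eq_zero (fun x _ => Finset.sum_eq_zero fun y _ =>
      if_neg fun hh => hno x y hh.1 hh.2)] at h4
    have hk : (Nat.card π.ker : ℂ) ≠ 0 := by
      rw [Nat.cast_ne_zero]
      exact Nat.card_pos.ne'
    have h5 := (mul_eq_zero.1 h4).resolve_left hk
    rw [hw (fun _ => 1) rfl]
    have h6 : ∀ V : Subgroup H, ∑ e ∈ Finset.range (padicValNat ℓ (Nat.card W) + 1), (1 : ℚ) *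
        Nat.card {η : ↥(V.comap π) → ℂ // IsIrr η ∧ OvL π.ker (μ τ θ) _ η ∧ HasDefect ℓ η e ∧
            D (cen 𝔐 (V.comap π).subtype η)} =
        Nat.card {η : ↥(V.comap π) → ℂ // IsIrr η ∧ OvL π.ker (μ τ θ) _ η ∧
            D (cen 𝔐 (V.comap π).subtype η)} := by
      intro V
      rw [← sum_defect ℓ (padicValNat ℓ (Nat.card W)) ?_
        (fun η => OvL π.ker (μ τ θ) _ η ∧ D (cen 𝔐 (V.comap π).subtype η))]
      · refine Finset.sum_congr rfl fun e _ => ?_
        rw [one_mul]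
        congr 1
        refine Nat.card_congr (Equiv.subtypeEquivRight fun η => ?_)
        tauto
      · obtain ⟨k, hk⟩ := Subgroup.card_subgroup_dvd_card (V.comap π)
        have hk0 : k ≠ 0 := by
          rintro rfl
          rw [mul_zero] at hk
          exact Nat.card_pos.ne' hk
        rw [hk, padicValNat.mul Nat.card_pos.ne' hk0]
        omega
    have h7 : ((∑ V, m V * ((Nat.card V : ℚ) * Nat.card {η : ↥(V.comap π) → ℂ // IsIrr η ∧
        OvL π.ker (μ τ θ) _ η ∧ D (cen 𝔐 (V.comap π).subtype η)}) : ℚ) : ℂ) = 0 := by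
      push_cast
      exact h5
    have h8 : (∑ V, m V * ((Nat.card V : ℚ) * Nat.card {η : ↥(V.comap π) → ℂ // IsIrr η ∧
        OvL π.ker (μ τ θ) _ η ∧ D (cen 𝔐 (V.comap π).subtype η)}) : ℚ) = 0 := by
      exact_mod_cast h7
    rw [← h8]
    exact Finset.sum_congr rfl fun V _ => by rw [h6 V]
  have hRn : R.Normal := hF.Rn
  have hcomm : ∀ a b : W ⧸ R, a * b = b * a := comm_quot R hxy hcl
  refine ⟨?_, ?_, x, y, hcl⟩
  · intro x' y'
    rw [← QuotientGroup.eq_one_iff]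
    have h4 := hcomm (x' : W ⧸ R) (y' : W ⧸ R)
    show (x' : W ⧸ R) * (y' : W ⧸ R) * (x' : W ⧸ R)⁻¹ * (y' : W ⧸ R)⁻¹ = 1
    rw [h4, mul_inv_cancel_right, mul_inv_cancel]
  · intro hdvd
    obtain ⟨N, hN, hNi⟩ := exists_index ℓ (W ⧸ R) hcomm hdvd
    obtain ⟨S', hS'⟩ : ∃ S' : Subgroup W, S' = N.comap (QuotientGroup.mk' R) := ⟨_, rfl⟩
    have hS'n : S'.Normal := by
      rw [hS']
      exact hN.comap _
    have hS'i : S'.index = ℓ := by
      rw [hS', Subgroup.index_comap_of_surjective _ (QuotientGroup.mk'_surjective _), hNi]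
    have hRS' : R ≤ S' := by
      intro w hw
      rw [hS', Subgroup.mem_comap]
      have : QuotientGroup.mk' R w = 1 := (QuotientGroup.eq_one_iff _).2 hw
      rw [this]
      exact N.one_mem
    obtain ⟨S, hS⟩ : ∃ S : Subgroup H, S = S'.map π := ⟨_, rfl⟩
    have hSc : S.comap π = S' := by
      rw [hS]
      exact Subgroup.comap_map_eq_self (hF.Rk.trans hRS')
    have hSn : S.Normal := by
      rw [hS]
      exact hS'n.map π hF.πs
    have hSi : S.index = ℓ := by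
      rw [← hS'i, ← hSc, Subgroup.index_comap_of_surjective _ hF.πs]
    have hSt : S ≠ ⊤ := by
      rintro rfl
      rw [Subgroup.index_top] at hSi
      exact (Fact.out : ℓ.Prime).one_lt.ne hSi
    apply hne
    rw [hw (fun e => ((ℓ : ℚ) ^ (2 * e))⁻¹) (by norm_num)]
    have h4 := ((MOBX_thm H).2 m hm).2 S hSt (fun V => (Nat.card V : ℚ) *
      ∑ e ∈ Finset.range (padicValNat ℓ (Nat.card W) + 1), ((ℓ : ℚ) ^ (2 * e))⁻¹ *
        Nat.card {η : ↥(V.comap π) → ℂ // IsIrr η ∧ OvL π.ker (μ τ θ) _ η ∧ HasDefect ℓ η e ∧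
            D (cen 𝔐 (V.comap π).subtype η)})
    rw [← h4]
    refine Finset.sum_congr rfl fun V _ => ?_
    rw [h3 H W 𝔐 ℓ π hF.πs R hF.Rn hF.Rk (μ τ θ) hF.πc D hloc S hSn hSi (by rw [hSc]; exact hRS')
      V (V ⊓ S) rfl]

end Pool.Agent.DPN


end

section

/-!
# SUPG: a minimal supplement of a normal subgroup
-/

set_option autoImplicit false

namespace Pool.Agent.DPN

open Pool.Agent.DP Pool.Agent.DPC Pool.Agent.DPM Pool.Agent.Lib_helper13 Representation
open Pool.Agent.Lib_helper13.Dade (pCore DadeHolds dadeSum)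

namespace SUPG

/-- Moebius functions vanish at the subgroups which do not contain the small subgroup `S`. -/
theorem mob_zero {K : Type} [Group K] [Fintype K] (S : Subgroup K)
    (hS : ∀ V : Subgroup K, V ⊔ S = ⊤ → V = ⊤) (m : Subgroup K → ℚ) (hm : Mob m) :
    ∀ V : Subgroup K, ¬ S ≤ V → m V = 0 := by
  classical
  intro V
  induction V using WellFoundedGT.induction with
  | ind V ih =>
    intro hV
    have h1 := hm V
    have h2 := hm (V ⊔ S)
    have hVt : V ≠ ⊤ := by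
      rintro rfl
      exact hV le_top
    rw [if_neg hVt] at h1
    rw [if_neg (fun h => hVt (hS V h))] at h2
    have h3 : ∑ V' with V ≤ V', m V' = m V + ∑ V' with V ⊔ S ≤ V', m V' := by
      have h4 : m V = ∑ V' with V ≤ V', if V' = V then m V' else 0 := by
        rw [Finset.sum_ite_eq' (Finset.univ.filter fun V' => V ≤ V') V m, if_pos]
        exact Finset.mem_filter.mpr ⟨Finset.mem_univ _, le_rfl⟩
      have h5 : ∑ V' with V ⊔ S ≤ V', m V' = ∑ V' with V ≤ V', if S ≤ V' then m V' else 0 := by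
        rw [← Finset.sum_filter, Finset.filter_filter]
        refine Finset.sum_congr ?_ fun _ _ => rfl
        ext V'
        simp only [Finset.mem_filter, Finset.mem_univ, true_and, sup_le_iff]
      rw [h5]
      conv_rhs => rw [h4]
      rw [← Finset.sum_add_distrib]
      refine Finset.sum_congr rfl fun V' hV' => ?_
      have hle : V ≤ V' := (Finset.mem_filter.mp hV').2
      by_cases he : V' = V
      · subst he
        rw [if_pos rfl, if_neg hV, add_zero]
      · rw [if_neg he, zero_add]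
        by_cases hSV : S ≤ V'
        · rw [if_pos hSV]
        · rw [if_neg hSV]
          exact ih V' (lt_of_le_of_ne hle (Ne.symm he)) hSV
    rw [h1, h2, add_zero] at h3
    exact h3.symm

end SUPG

theorem SUPG_thm : Stmt_SUPG := by
  intro W _ _ ℓ hℓ R hRn hcomm hRi hgen
  obtain ⟨V, hVmin⟩ : ∃ V, Minimal (· ∈ {V : Subgroup W | V ⊔ R = ⊤}) V :=
    Set.Finite.exists_minimal (Set.toFinite _) ⟨⊤, top_sup_eq R⟩
  have hVR : V ⊔ R = ⊤ := hVmin.1
  -- minimality
  have a0 : ∀ V' : Subgroup V, V'.map V.subtype ⊔ R = ⊤ → V' = ⊤ := by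
    intro V' hV'
    have h1 : V'.map V.subtype ≤ V := by
      rintro _ ⟨x, _, rfl⟩
      exact x.2
    have h2 := hVmin.2 (y := V'.map V.subtype) hV' h1
    rw [eq_top_iff]
    intro x _
    obtain ⟨y, hy, hyx⟩ := h2 x.2
    have : y = x := Subtype.ext hyx
    rw [← this]
    exact hy
  have hSn : (R.subgroupOf V).Normal := inferInstance
  have a1 : ∀ V' : Subgroup V, V' ⊔ R.subgroupOf V = ⊤ → V' = ⊤ := by
    intro V' hV'
    apply a0
    rw [eq_top_iff, ← hVR]
    refine sup_le ?_ le_sup_right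
    have h1 : (V' ⊔ R.subgroupOf V).map V.subtype = V := by
      rw [hV', ← MonoidHom.range_eq_map, Subgroup.range_subtype]
    rw [Subgroup.map_sup] at h1
    calc V = V'.map V.subtype ⊔ (R.subgroupOf V).map V.subtype := h1.symm
      _ ≤ V'.map V.subtype ⊔ R := by
        refine sup_le_sup_left ?_ _
        rintro _ ⟨x, hx, rfl⟩
        exact hx
  have hnil : Group.IsNilpotent V := by
    have htf := Group.isNilpotent_of_finite_tfae (G := V)
    refine (htf.out 0 2).mpr ?_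
    intro M hM
    have hSM : R.subgroupOf V ≤ M := by
      by_contra hne
      have h1 : M < M ⊔ R.subgroupOf V := lt_of_le_of_ne le_sup_left (by
        intro h
        apply hne
        rw [h]
        exact le_sup_right)
      exact hM.1 (a1 M (hM.2 _ h1))
    refine ⟨fun x hx g => ?_⟩
    have h1 : g * x * g⁻¹ = (g * x * g⁻¹ * x⁻¹) * x := by group
    rw [h1]
    refine mul_mem (hSM ?_) hx
    exact hcomm g x
  have hidx : (R.subgroupOf V).index = R.index := by
    have h1 : R.relIndex (R ⊔ V) = R.relIndex V := Subgroup.relIndex_sup_left V R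
    rw [sup_comm, hVR, Subgroup.relIndex_top_right] at h1
    exact h1.symm
  have hcard : ¬ ℓ ∣ Nat.card V := by
    have htf := Group.isNilpotent_of_finite_tfae (G := V)
    have htf' : Group.IsNilpotent V ↔
      ∀ (p : ℕ) (_ : Fact p.Prime) (P : Sylow p V), (P : Subgroup V).Normal := htf.out 0 3
    have hsyl := htf'.mp hnil ℓ hℓ (default : Sylow ℓ V)
    set P : Sylow ℓ V := default with hP
    have hPS : (P : Subgroup V) ≤ R.subgroupOf V := by
      intro x hx
      obtain ⟨k, hk⟩ := P.isPGroup' ⟨x, hx⟩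
      have hk' : x ^ ℓ ^ k = 1 := congrArg Subtype.val hk
      rw [← QuotientGroup.eq_one_iff]
      have h1 : orderOf (x : V ⧸ R.subgroupOf V) ∣ ℓ ^ k := by
        apply orderOf_dvd_of_pow_eq_one
        rw [← QuotientGroup.mk_pow, hk', QuotientGroup.mk_one]
      have h2 : orderOf (x : V ⧸ R.subgroupOf V) ∣ R.index := by
        rw [← hidx, Subgroup.index_eq_card]
        exact orderOf_dvd_natCard _
      have h3 : Nat.Coprime (ℓ ^ k) R.index :=
        Nat.Coprime.pow_left k ((Nat.Prime.coprime_iff_not_dvd hℓ.out).mpr hRi)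
      have h4 := Nat.dvd_gcd h1 h2
      rw [Nat.Coprime.gcd_eq_one h3, Nat.dvd_one] at h4
      exact orderOf_eq_one_iff.mp h4
    obtain ⟨C, hC⟩ := Subgroup.exists_right_complement'_of_coprime (N := (P : Subgroup V))
      P.card_coprime_index
    have hCt : C = ⊤ := by
      apply a1
      rw [eq_top_iff, ← hC.sup_eq_top]
      exact sup_le (hPS.trans le_sup_right) le_sup_left
    have hPb : (P : Subgroup V) = ⊥ := by
      have h1 := hC.disjoint
      rw [hCt, disjoint_top] at h1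
      exact h1
    have h5 := P.not_dvd_index
    rw [hPb, Subgroup.index_bot] at h5
    exact h5
  have hc : ∀ x y : V, Subgroup.closure {(x : W), (y : W)} ⊔ R = ⊤ →
      Subgroup.closure {x, y} = ⊤ := by
    intro x y hxy
    apply a0
    rw [MonoidHom.map_closure, Set.image_pair]
    exact hxy
  refine ⟨V, hVR, hcard, hnil, ?_, hc, ?_⟩
  · obtain ⟨x₀, y₀, h0⟩ := hgen
    have hx : x₀ ∈ V ⊔ R := by rw [hVR]; trivial
    have hy : y₀ ∈ V ⊔ R := by rw [hVR]; trivial
    obtain ⟨x, hxV, r, hr, hxr⟩ := Subgroup.mem_sup_of_normal_right.mp hx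
    obtain ⟨y, hyV, s, hs, hys⟩ := Subgroup.mem_sup_of_normal_right.mp hy
    refine ⟨⟨x, hxV⟩, ⟨y, hyV⟩, hc _ _ ?_⟩
    rw [eq_top_iff, ← h0]
    refine sup_le ?_ le_sup_right
    rw [Subgroup.closure_le]
    have hx1 : x ∈ Subgroup.closure {x, y} ⊔ R :=
      (le_sup_left : Subgroup.closure {x, y} ≤ _) (Subgroup.subset_closure (by simp))
    have hy1 : y ∈ Subgroup.closure {x, y} ⊔ R :=
      (le_sup_left : Subgroup.closure {x, y} ≤ _) (Subgroup.subset_closure (by simp))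
    rintro z (rfl | hz)
    · rw [← hxr]
      exact mul_mem hx1 ((le_sup_right : R ≤ _) hr)
    · rw [Set.mem_singleton_iff.mp hz, ← hys]
      exact mul_mem hy1 ((le_sup_right : R ≤ _) hs)
  · intro m hm V' hV'
    by_contra hne
    exact hV' (SUPG.mob_zero _ a1 m hm V' hne)

end Pool.Agent.DPN


end

section

/-!
# DETL: the determinant of a character which lies over a linear character
-/

namespace Pool.Agent.DPT

open Pool.Agent.DP Pool.Agent.DPC Pool.Agent.DPM Pool.Agent.DPN Pool.Agent.Lib_helper13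
open Representation

namespace DETL

variable {W : Type} [Group W] [Fintype W] {A : Subgroup W} (χ : A →* ℂˣ) {n : ℕ}
  (ρ : Representation ℂ W (Fin n → ℂ))

/-- The projection onto the isotypic part. -/
noncomputable def pr : (Fin n → ℂ) →ₗ[ℂ] (Fin n → ℂ) :=
  (Nat.card A : ℂ)⁻¹ • ∑ a : A, (((χ a)⁻¹ : ℂˣ) : ℂ) • ρ (a : W)

omit [Fintype W] in
theorem card_ne [Finite W] : (Nat.card A : ℂ) ≠ 0 := by
  have : Nat.card A ≠ 0 := Nat.card_pos.ne'
  exact_mod_cast this

theorem mul_pr (b : A) : ρ (b : W) * pr χ ρ = ((χ b : ℂˣ) : ℂ) • pr χ ρ := by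
  unfold pr
  rw [mul_smul_comm, smul_comm, Finset.mul_sum]
  congr 1
  rw [Finset.smul_sum]
  refine Fintype.sum_equiv (Equiv.mulLeft b) _ _ fun a => ?_
  rw [mul_smul_comm, ← map_mul, smul_smul]
  have e : ((χ b : ℂˣ) : ℂ) * (((χ (b * a))⁻¹ : ℂˣ) : ℂ) = (((χ a)⁻¹ : ℂˣ) : ℂ) := by
    rw [map_mul, ← Units.val_mul]
    congr 1
    rw [mul_inv_rev, mul_comm, mul_assoc, inv_mul_cancel, mul_one]
  change _ = (((χ b : ℂˣ) : ℂ) * (((χ (b * a))⁻¹ : ℂˣ) : ℂ)) • ρ ((b * a : A) : W)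
  rw [e]
  rfl

theorem pr_mul_pr : pr χ ρ * pr χ ρ = pr χ ρ := by
  have h : pr χ ρ * pr χ ρ = (Nat.card A : ℂ)⁻¹ •
      ∑ a : A, (((χ a)⁻¹ : ℂˣ) : ℂ) • (ρ (a : W) * pr χ ρ) := by
    conv_lhs => rw [show pr χ ρ * pr χ ρ =
      ((Nat.card A : ℂ)⁻¹ • ∑ a : A, (((χ a)⁻¹ : ℂˣ) : ℂ) • ρ (a : W)) * pr χ ρ from rfl]
    rw [smul_mul_assoc, Finset.sum_mul]
    exact congrArg _ (Finset.sum_congr rfl fun a _ => smul_mul_assoc _ _ _)
  rw [h]
  have h2 : ∀ a : A, (((χ a)⁻¹ : ℂˣ) : ℂ) • (ρ (a : W) * pr χ ρ) = pr χ ρ := by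
    intro a
    rw [mul_pr, smul_smul, ← Units.val_mul, inv_mul_cancel, Units.val_one, one_smul]
  rw [Finset.sum_congr rfl fun a _ => h2 a, Finset.sum_const, Finset.card_univ,
    ← Nat.card_eq_fintype_card, ← Nat.cast_smul_eq_nsmul ℂ, smul_smul, inv_mul_cancel₀ card_ne,
    one_smul]

theorem trace_pr (m : ℂ) (h1 : ρ.character 1 = m)
    (hA : ∀ (a : A) (w : W), ρ.character (a * w) = ((χ a : ℂˣ) : ℂ) * ρ.character w) :
    LinearMap.trace ℂ _ (pr χ ρ) = m := by
  unfold pr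
  rw [map_smul, map_sum]
  have h2 : ∀ a : A, LinearMap.trace ℂ (Fin n → ℂ) ((((χ a)⁻¹ : ℂˣ) : ℂ) • ρ (a : W)) = m := by
    intro a
    rw [map_smul]
    have h3 : LinearMap.trace ℂ (Fin n → ℂ) (ρ (a : W)) = ((χ a : ℂˣ) : ℂ) * m := by
      have h4 := hA a 1
      rw [mul_one, h1] at h4
      exact h4
    rw [h3, smul_eq_mul, ← mul_assoc, ← Units.val_mul, inv_mul_cancel, Units.val_one, one_mul]
  rw [Finset.sum_congr rfl fun a _ => h2 a, Finset.sum_const, Finset.card_univ,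
    ← Nat.card_eq_fintype_card, nsmul_eq_mul, smul_eq_mul, ← mul_assoc,
    inv_mul_cancel₀ card_ne, one_mul]

theorem pr_eq_one (m : ℂ) (h1 : ρ.character 1 = m)
    (hA : ∀ (a : A) (w : W), ρ.character (a * w) = ((χ a : ℂˣ) : ℂ) * ρ.character w) :
    pr χ ρ = 1 := by
  have hn : (n : ℂ) = m := by
    have h := char_one ρ
    rw [h1, Module.finrank_fin_fun] at h
    exact h.symm
  have hid : IsIdempotentElem (1 - pr χ ρ) := by
    unfold IsIdempotentElem
    rw [mul_sub, sub_mul, sub_mul, pr_mul_pr, mul_one, mul_one, one_mul, sub_self, sub_zero]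
  have ht : LinearMap.trace ℂ (Fin n → ℂ) (1 - pr χ ρ) = 0 := by
    rw [map_sub, trace_pr χ ρ m h1 hA, LinearMap.trace_one, Module.finrank_fin_fun, hn, sub_self]
  have := (LinearMap.IsIdempotentElem.trace_eq_zero_iff hid).1 ht
  exact (sub_eq_zero.1 this).symm

end DETL

/-- DETL -/
theorem DETL_thm : Stmt_DETL := by
  intro W _ _ A χ Ξ m hΞ h1 hA _
  obtain ⟨n, ρ, rfl⟩ := hΞ
  have hn : n = m := by
    have h := char_one ρ
    rw [h1, Module.finrank_fin_fun] at h
    exact_mod_cast h.symm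
  let ρ' : W →* ((Fin n → ℂ) →ₗ[ℂ] (Fin n → ℂ)) := ρ
  refine ⟨MonoidHom.toHomUnits ((LinearMap.det : ((Fin n → ℂ) →ₗ[ℂ] (Fin n → ℂ)) →* ℂ).comp ρ'),
    fun a => ?_⟩
  apply Units.ext
  have hp := DETL.pr_eq_one χ ρ m h1 hA
  have hm := DETL.mul_pr χ ρ a
  rw [hp, mul_one] at hm
  change LinearMap.det (ρ (a : W)) = _
  rw [hm, LinearMap.det_smul, Module.finrank_fin_fun, map_one, mul_one, hn]
  rfl

end Pool.Agent.DPT


end

section

/-!
Theorem V: extension of an invariant linear character modulo `𝔐` (module LINX).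
-/

open Pool.Agent.DP Pool.Agent.Lib_helper13 Representation
open Pool.Agent.Lib_helper13.Dade (pCore DadeHolds dadeSum)

namespace Pool.Agent.DPV

namespace LINX

/-- Extension of an invariant linear character over a cyclic quotient. -/
theorem ext_lin {C F : Type} [Group C] [Finite C] [Field F] [IsAlgClosed F]
    (L U : Subgroup C) (hUL : U ≤ L) (hnorm : ∀ c ∈ L, ∀ u ∈ U, c * u * c⁻¹ ∈ U)
    (hcyc : ∃ c0 ∈ L, ∀ c ∈ L, ∃ k : ℤ, c * c0 ^ k ∈ U) (ν : C → F) (h1 : ν 1 = 1)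
    (hmul : ∀ c ∈ U, ∀ c' ∈ U, ν (c * c') = ν c * ν c')
    (hinv : ∀ c ∈ L, ∀ u ∈ U, ν (c * u * c⁻¹) = ν u) :
    ∃ ν' : C → F, (∀ x ∈ L, ∀ y ∈ L, ν' (x * y) = ν' x * ν' y) ∧ ∀ u ∈ U, ν' u = ν u := by
  classical
  obtain ⟨c0, hc0, hc⟩ := hcyc
  have hne : ∀ u ∈ U, ν u ≠ 0 := by
    intro u hu h0
    have := hmul u hu u⁻¹ (U.inv_mem hu)
    rw [mul_inv_cancel, h1, h0, zero_mul] at this
    exact one_ne_zero this
  -- the homomorphism on `U`
  have hzp : ∀ u ∈ U, ∀ k : ℤ, ν (u ^ k) = ν u ^ k := by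
    intro u hu
    have hn : ∀ n : ℕ, ν (u ^ n) = ν u ^ n := by
      intro n
      induction n with
      | zero => simp [h1]
      | succ n ih => rw [pow_succ, hmul _ (U.pow_mem hu n) _ hu, ih, pow_succ]
    have hinv' : ∀ v ∈ U, ν v⁻¹ = (ν v)⁻¹ := by
      intro v hv
      have := hmul v hv v⁻¹ (U.inv_mem hv)
      rw [mul_inv_cancel, h1] at this
      exact (inv_eq_of_mul_eq_one_right this.symm).symm
    intro k
    cases k with
    | ofNat n => simpa using hn n
    | negSucc n => rw [zpow_negSucc, zpow_negSucc, hinv' _ (U.pow_mem hu _), hn]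
  -- the least positive exponent
  have hex : ∃ n : ℕ, 0 < n ∧ c0 ^ n ∈ U :=
    ⟨orderOf c0, orderOf_pos c0, by rw [pow_orderOf_eq_one]; exact U.one_mem⟩
  obtain ⟨n, ⟨hn, hnU⟩, hmin⟩ : ∃ n : ℕ, (0 < n ∧ c0 ^ n ∈ U) ∧ ∀ m < n, ¬ (0 < m ∧ c0 ^ m ∈ U) :=
    ⟨Nat.find hex, Nat.find_spec hex, fun m hm => Nat.find_min hex hm⟩
  have hdiv : ∀ k : ℤ, c0 ^ k ∈ U → (n : ℤ) ∣ k := by
    intro k hk
    have hnz : (n : ℤ) ≠ 0 := by exact_mod_cast hn.ne'
    have hr0 := Int.emod_nonneg k hnz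
    have hr1 := Int.emod_lt_of_pos k (by exact_mod_cast hn : (0 : ℤ) < n)
    have hmem : c0 ^ (k % n) ∈ U := by
      rw [Int.emod_def, zpow_sub, zpow_mul, zpow_natCast]
      exact U.mul_mem hk (U.inv_mem (U.zpow_mem hnU _))
    obtain ⟨m, hm⟩ := Int.eq_ofNat_of_zero_le hr0
    rw [hm] at hmem hr1
    rw [zpow_natCast] at hmem
    have hmn : m < n := by exact_mod_cast hr1
    have hm0 : m = 0 := by
      by_contra hne
      exact hmin m hmn ⟨Nat.pos_of_ne_zero hne, hmem⟩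
    rw [hm0] at hm
    exact Int.dvd_of_emod_eq_zero (by simpa using hm)
  obtain ⟨z, hz⟩ := IsAlgClosed.exists_pow_nat_eq (ν (c0 ^ n)) hn
  have hz0 : z ≠ 0 := by
    rintro rfl
    rw [zero_pow hn.ne'] at hz
    exact hne _ hnU hz.symm
  -- compatibility
  have hcomp : ∀ k : ℤ, c0 ^ k ∈ U → ν (c0 ^ k) = z ^ k := by
    intro k hk
    obtain ⟨q, rfl⟩ := hdiv k hk
    rw [zpow_mul, zpow_natCast, hzp _ hnU, ← hz, zpow_mul, zpow_natCast]
  choose! e he using hc
  have hval : ∀ x ∈ L, ∀ k : ℤ, x * c0 ^ k ∈ U →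
      ν (x * c0 ^ e x) * z ^ (-e x) = ν (x * c0 ^ k) * z ^ (-k) := by
    intro x hx k hk
    have h2 : c0 ^ (-e x + k) ∈ U := by
      have : c0 ^ (-e x + k) = (x * c0 ^ e x)⁻¹ * (x * c0 ^ k) := by
        rw [zpow_add, zpow_neg]; group
      rw [this]
      exact U.mul_mem (U.inv_mem (he x hx)) hk
    have h3 : x * c0 ^ k = (x * c0 ^ e x) * c0 ^ (-e x + k) := by
      rw [zpow_add, zpow_neg]; group
    rw [h3, hmul _ (he x hx) _ h2, hcomp _ h2, mul_assoc, ← zpow_add₀ hz0]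
    congr 2
    ring
  refine ⟨fun x => ν (x * c0 ^ e x) * z ^ (-e x), ?_, ?_⟩
  · intro x hx y hy
    have hk : x * y * c0 ^ (e x + e y) ∈ U ∧
        ν (x * y * c0 ^ (e x + e y)) = ν (x * c0 ^ e x) * ν (y * c0 ^ e y) := by
      have h4 : x * y * c0 ^ (e x + e y) =
          (x * c0 ^ e x) * ((c0 ^ e x)⁻¹ * (y * c0 ^ e y) * ((c0 ^ e x)⁻¹)⁻¹) := by
        rw [add_comm (e x), zpow_add]
        group
      have h5 : (c0 ^ e x)⁻¹ ∈ L := L.inv_mem (L.zpow_mem hc0 _)
      have h6 := hnorm _ h5 _ (he y hy)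
      rw [h4]
      exact ⟨U.mul_mem (he x hx) h6, by rw [hmul _ (he x hx) _ h6, hinv _ h5 _ (he y hy)]⟩
    have := hval (x * y) (L.mul_mem hx hy) (e x + e y) hk.1
    change ν (x * y * c0 ^ e (x * y)) * z ^ (-e (x * y)) =
      ν (x * c0 ^ e x) * z ^ (-e x) * (ν (y * c0 ^ e y) * z ^ (-e y))
    rw [this, hk.2, neg_add, zpow_add₀ hz0]
    ring
  · intro u hu
    have := hval u (hUL hu) 0 (by simpa using hu)
    change ν (u * c0 ^ e u) * z ^ (-e u) = ν u
    rw [this]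
    simp

end LINX

theorem LINX_thm : Stmt_LINX := by
  intro C _ _ 𝔐 ℓ _ hmax hℓ hcard L U hUL hnorm hcyc ν h1 hmul hinv
  classical
  let _ : Field ((integralClosure ℤ ℂ) ⧸ 𝔐) := Ideal.Quotient.field 𝔐
  have _ : IsAlgClosed ((integralClosure ℤ ℂ) ⧸ 𝔐) :=
    DPB.ACF_thm _ (Ideal.Quotient.mk 𝔐) Ideal.Quotient.mk_surjective
  obtain ⟨ν', hν', hνν⟩ := LINX.ext_lin L U hUL hnorm hcyc ν h1 hmul hinv
  set N := Nat.card C with hN
  have hN0 : N ≠ 0 := Nat.card_pos.ne'
  -- `N` is not zero modulo `𝔐`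
  have hNF : ((N : ℕ) : (integralClosure ℤ ℂ) ⧸ 𝔐) ≠ 0 := by
    intro h0
    have hNm : ((N : ℕ) : integralClosure ℤ ℂ) ∈ 𝔐 := by
      rw [← Ideal.Quotient.eq_zero_iff_mem, map_natCast]
      exact h0
    have hcop : Nat.Coprime ℓ N := (Nat.Prime.coprime_iff_not_dvd Fact.out).2 hcard
    have hb := Nat.gcd_eq_gcd_ab ℓ N
    rw [hcop.gcd_eq_one] at hb
    apply hmax.ne_top
    rw [Ideal.eq_top_iff_one]
    have : (1 : integralClosure ℤ ℂ) =
        (ℓ : integralClosure ℤ ℂ) * ((Nat.gcdA ℓ N : ℤ) : integralClosure ℤ ℂ) +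
          (N : integralClosure ℤ ℂ) * ((Nat.gcdB ℓ N : ℤ) : integralClosure ℤ ℂ) := by
      have := congrArg (fun x : ℤ => (x : integralClosure ℤ ℂ)) hb
      push_cast at this
      simpa using this
    rw [this]
    exact 𝔐.add_mem (𝔐.mul_mem_right _ hℓ) (𝔐.mul_mem_right _ hNm)
  -- a primitive root of unity
  have hζ : IsPrimitiveRoot (Complex.exp (2 * Real.pi * Complex.I / N)) N :=
    Complex.isPrimitiveRoot_exp N hN0
  set ζ := Complex.exp (2 * Real.pi * Complex.I / N) with hζd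
  have hζi : IsIntegral ℤ ζ := hζ.isIntegral (Nat.pos_of_ne_zero hN0)
  let w : integralClosure ℤ ℂ := ⟨ζ, hζi⟩
  have hw : IsPrimitiveRoot w N := by
    refine IsPrimitiveRoot.of_map_of_injective (f := algebraMap (integralClosure ℤ ℂ) ℂ) ?_
      Subtype.val_injective
    exact hζ
  have _ : NeZero ((N : ℕ) : (integralClosure ℤ ℂ) ⧸ 𝔐) := ⟨hNF⟩
  have _ : NeZero ((N : ℕ) : integralClosure ℤ ℂ) := ⟨by
    intro h0
    apply hNF
    have := congrArg (Ideal.Quotient.mk 𝔐) h0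
    rwa [map_natCast, map_zero] at this⟩
  have hwF : IsPrimitiveRoot (Ideal.Quotient.mk 𝔐 w) N := by
    rw [← Polynomial.isRoot_cyclotomic_iff] at hw ⊢
    have := hw.map (f := Ideal.Quotient.mk 𝔐)
    rwa [Polynomial.map_cyclotomic] at this
  have _ : NeZero N := ⟨hN0⟩
  -- values of `ν'`
  have hν1 : ν' 1 = 1 := by rw [hνν 1 U.one_mem, h1]
  have hpow : ∀ x ∈ L, ∀ n : ℕ, ν' (x ^ n) = ν' x ^ n := by
    intro x hx n
    induction n with
    | zero => simp [hν1]
    | succ n ih => rw [pow_succ, hν' _ (L.pow_mem hx n) _ hx, ih, pow_succ]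
  have hroot : ∀ x ∈ L, ∃ i : ℕ, Ideal.Quotient.mk 𝔐 w ^ i = ν' x := by
    intro x hx
    have h2 : ν' x ^ N = 1 := by
      rw [← hpow x hx, hN, pow_card_eq_one', hν1]
    obtain ⟨i, -, hi⟩ := hwF.eq_pow_of_pow_eq_one h2
    exact ⟨i, hi⟩
  choose! i hi using hroot
  have hkey' : ∀ a d : ℕ, Ideal.Quotient.mk 𝔐 w ^ a = Ideal.Quotient.mk 𝔐 w ^ (a + d) →
      ζ ^ a = ζ ^ (a + d) := by
    intro a d h
    have hw0 : Ideal.Quotient.mk 𝔐 w ≠ 0 := hwF.ne_zero hN0
    have h2 : Ideal.Quotient.mk 𝔐 w ^ d = 1 := by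
      rw [pow_add] at h
      exact mul_left_cancel₀ (pow_ne_zero a hw0) (by rw [mul_one]; exact h.symm)
    rw [pow_add, (hζ.pow_eq_one_iff_dvd d).2 ((hwF.pow_eq_one_iff_dvd d).1 h2), mul_one]
  have hkey : ∀ a b : ℕ, Ideal.Quotient.mk 𝔐 w ^ a = Ideal.Quotient.mk 𝔐 w ^ b →
      ζ ^ a = ζ ^ b := by
    intro a b h
    rcases le_total a b with hab | hab
    · obtain ⟨d, rfl⟩ := Nat.exists_eq_add_of_le hab
      exact hkey' a d h
    · obtain ⟨d, rfl⟩ := Nat.exists_eq_add_of_le hab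
      exact (hkey' b d h.symm).symm
  have hadd : ∀ x ∈ L, ∀ y ∈ L, ζ ^ i (x * y) = ζ ^ i x * ζ ^ i y := by
    intro x hx y hy
    have h3 : Ideal.Quotient.mk 𝔐 w ^ i (x * y) = Ideal.Quotient.mk 𝔐 w ^ (i x + i y) := by
      rw [hi _ (L.mul_mem hx hy), hν' x hx y hy, pow_add, hi x hx, hi y hy]
    rw [← pow_add]
    exact hkey _ _ h3
  refine ⟨fun x => ζ ^ i x, ⟨?_, hadd⟩, ?_⟩
  · have h5 := hadd 1 L.one_mem 1 L.one_mem
    rw [mul_one] at h5
    have hne : ζ ^ i 1 ≠ 0 := pow_ne_zero _ (Complex.exp_ne_zero _)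
    exact (mul_left_cancel₀ hne (by rw [mul_one]; exact h5)).symm
  · intro u hu
    have hui : IsIntegral ℤ (ζ ^ i u) := hζi.pow _
    change red 𝔐 (ζ ^ i u) = ν u
    rw [red_of_integral 𝔐 hui, ← hνν u hu, ← hi u (hUL hu), ← map_pow]
    rfl

end Pool.Agent.DPV


end

section

/-!
# Module TWH: the stabilizers of the characters of a block of the normalizer
-/

namespace Pool.Agent.DPV.TWH

open Pool.Agent.DP Pool.Agent.Lib_helper13 Representation
open Pool.Agent.Lib_helper13.Dade (pCore DadeHolds dadeSum)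

/-! ### Group theory -/

/-- The projection to the complement of a central Sylow subgroup is a power map. -/
theorem exists_q {A : Type} [Group A] [Finite A] (Z : Subgroup A) (ℓ : ℕ) [Fact ℓ.Prime]
    (hc : Nat.card Z = ℓ) (hi : ¬ ℓ ∣ Z.index) (hz : ∀ u ∈ Z, ∀ x, u * x = x * u) :
    ∃ (e : ℕ) (q : A →* A), (∀ x, q x = x ^ e) ∧ (∀ u ∈ Z, q u = 1) ∧ ∀ x, x * (q x)⁻¹ ∈ Z := by
  have hn : Z.Normal := ⟨fun u hu g => by rw [← hz u hu g, mul_inv_cancel_right]; exact hu⟩
  have hco : Nat.Coprime (Nat.card Z) Z.index := by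
    rw [hc]
    exact (Nat.Prime.coprime_iff_not_dvd Fact.out).mpr hi
  obtain ⟨K, hK⟩ := Subgroup.exists_right_complement'_of_coprime hco
  have hKc : Nat.card K = Z.index := by
    have h1 := hK.card_mul_card
    rw [← Z.card_mul_index] at h1
    exact Nat.eq_of_mul_eq_mul_left Nat.card_pos h1
  obtain ⟨e, he1, he2⟩ := Nat.chineseRemainder hco 0 1
  have hu : ∀ u ∈ Z, u ^ e = 1 := by
    intro u hu
    have h1 : Nat.card Z ∣ e := (Nat.modEq_zero_iff_dvd).mp he1
    obtain ⟨r, hr⟩ := h1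
    have h2 : u ^ Nat.card Z = 1 := by
      have h3 : (⟨u, hu⟩ : Z) ^ Nat.card Z = 1 := pow_card_eq_one'
      exact congrArg Subtype.val h3
    rw [hr, pow_mul, h2, one_pow]
  have hk : ∀ k ∈ K, k ^ e = k := by
    intro k hk
    have h2 : k ^ Nat.card K = 1 := by
      have h3 : (⟨k, hk⟩ : K) ^ Nat.card K = 1 := pow_card_eq_one'
      exact congrArg Subtype.val h3
    have h4 : orderOf k ∣ Z.index := by
      rw [← hKc]
      exact orderOf_dvd_of_pow_eq_one h2
    have h5 : e ≡ 1 [MOD orderOf k] := he2.of_dvd h4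
    have h6 := pow_eq_pow_iff_modEq.mpr h5
    rw [h6, pow_one]
  have hex : ∀ x : A, ∃ u ∈ Z, ∃ k ∈ K, x = u * k := by
    intro x
    obtain ⟨⟨u, k⟩, h⟩ := hK.2 x
    exact ⟨u, u.2, k, k.2, h.symm⟩
  have hp : ∀ u ∈ Z, ∀ k ∈ K, (u * k) ^ e = k := by
    intro u hu' k hk'
    have h1 : Commute u k := hz u hu' k
    rw [h1.mul_pow, hu u hu', hk k hk', one_mul]
  refine ⟨e, MonoidHom.mk' (fun x => x ^ e) ?_, fun x => rfl, hu, ?_⟩
  · intro x y
    obtain ⟨u, hu1, k, hk1, rfl⟩ := hex x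
    obtain ⟨v, hv1, l, hl1, rfl⟩ := hex y
    have h1 : u * k * (v * l) = (u * v) * (k * l) := by
      have := hz v hv1 k
      calc u * k * (v * l) = u * (k * v) * l := by group
        _ = u * (v * k) * l := by rw [this]
        _ = (u * v) * (k * l) := by group
    change (u * k * (v * l)) ^ e = (u * k) ^ e * (v * l) ^ e
    rw [h1, hp _ (mul_mem hu1 hv1) _ (mul_mem hk1 hl1), hp u hu1 k hk1, hp v hv1 l hl1]
  · intro x
    obtain ⟨u, hu1, k, hk1, rfl⟩ := hex x
    change u * k * ((u * k) ^ e)⁻¹ ∈ Z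
    rw [hp u hu1 k hk1, mul_inv_cancel_right]
    exact hu1

/-- Subgroups of prime order. -/
theorem eq_one_or {A : Type} [Group A] (Z : Subgroup A) (ℓ : ℕ) [hl : Fact ℓ.Prime]
    (hc : Nat.card Z = ℓ) (S : Subgroup A) :
    (∀ u ∈ Z, u ∈ S) ∨ ∀ u ∈ Z, u ∈ S → u = 1 := by
  have : Fact (Nat.card Z).Prime := ⟨by rw [hc]; exact Fact.out⟩
  rcases Subgroup.eq_bot_or_eq_top_of_prime_card (S.subgroupOf Z) with h | h
  · right
    intro u hu hS
    have h1 : (⟨u, hu⟩ : Z) ∈ S.subgroupOf Z := Subgroup.mem_subgroupOf.mpr hS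
    rw [h, Subgroup.mem_bot] at h1
    exact congrArg Subtype.val h1
  · left
    intro u hu
    have h1 : (⟨u, hu⟩ : Z) ∈ S.subgroupOf Z := by
      rw [h]
      exact Subgroup.mem_top _
    exact Subgroup.mem_subgroupOf.mp h1

/-- Elements act on a normal subgroup of prime order by powers. -/
theorem exists_pow {H : Type} [Group H] (P : Subgroup H) [P.Normal] (ℓ : ℕ) [hl : Fact ℓ.Prime]
    (hc : Nat.card P = ℓ) (g : H) : ∃ a : ℤ, ∀ u ∈ P, g * u * g⁻¹ = u ^ a := by
  have hcyc : IsCyclic P := isCyclic_of_prime_card hc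
  obtain ⟨a, ha⟩ := MonoidHom.map_cyclic ((MulAut.conjNormal g : P ≃* P) : P →* P)
  refine ⟨a, fun u hu => ?_⟩
  have h1 := congrArg Subtype.val (ha ⟨u, hu⟩)
  exact h1

theorem comm_act {H : Type} [Group H] (P : Subgroup H) [P.Normal] (ℓ : ℕ) [hl : Fact ℓ.Prime]
    (hc : Nat.card P = ℓ) (g h : H) : ∀ u ∈ P, (g * h * g⁻¹ * h⁻¹) * u = u * (g * h * g⁻¹ * h⁻¹) := by
  obtain ⟨a, ha⟩ := exists_pow P ℓ hc g
  obtain ⟨b, hb⟩ := exists_pow P ℓ hc h
  have hz : ∀ (x : H) (n : ℤ) (u : H), x * u ^ n * x⁻¹ = (x * u * x⁻¹) ^ n := by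
    intro x n u
    exact (conj_zpow).symm
  have h1 : ∀ u ∈ P, g * h * u * (g * h)⁻¹ = h * g * u * (h * g)⁻¹ := by
    intro u hu
    calc g * h * u * (g * h)⁻¹ = g * (h * u * h⁻¹) * g⁻¹ := by group
      _ = (u ^ a) ^ b := by rw [hb u hu, hz, ha u hu]
      _ = h * (g * u * g⁻¹) * h⁻¹ := by rw [ha u hu, hz, hb u hu, ← zpow_mul, ← zpow_mul, mul_comm]
      _ = h * g * u * (h * g)⁻¹ := by group
  intro u hu
  have hv : (h * g)⁻¹ * u * (h * g) ∈ P := by
    have := (inferInstance : P.Normal).conj_mem u hu (h * g)⁻¹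
    rwa [inv_inv] at this
  have h2 := h1 _ hv
  have h3 : h * g * ((h * g)⁻¹ * u * (h * g)) * (h * g)⁻¹ = u := by group
  rw [h3] at h2
  calc g * h * g⁻¹ * h⁻¹ * u = (g * h * ((h * g)⁻¹ * u * (h * g)) * (g * h)⁻¹) *
        (g * h * g⁻¹ * h⁻¹) := by group
    _ = u * (g * h * g⁻¹ * h⁻¹) := by rw [h2]

/-! ### Class sums -/

open Classical in
theorem class_mul {Y : Type} [Group Y] {ψ : Y → ℂ} (hψ : IsIrr ψ) (S : Finset Y)
    (hS : ∀ g, ∀ y ∈ S, g * y * g⁻¹ ∈ S) (x : Y) :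
    ψ 1 * ∑ y ∈ S, ψ (y * x) = (∑ y ∈ S, ψ y) * ψ x := by
  obtain ⟨n, ρ, hρ, rfl⟩ := hψ
  obtain ⟨c, hc⟩ := exists_scalar ρ hρ (∑ y ∈ S, ρ y) (by
    intro g v
    rw [LinearMap.sum_apply, LinearMap.sum_apply, map_sum]
    refine Finset.sum_bij' (fun y _ => g⁻¹ * y * g) (fun y _ => g * y * g⁻¹) ?_ ?_ ?_ ?_ ?_
    · intro y hy
      have := hS g⁻¹ y hy
      rwa [inv_inv] at this
    · intro y hy
      exact hS g y hy
    · intro y _
      group
    · intro y _
      group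
    · intro y _
      have h0 : g * (g⁻¹ * y * g) = y * g := by group
      rw [← Module.End.mul_apply, ← Module.End.mul_apply, ← map_mul, ← map_mul, h0])
  have h1 : ∑ y ∈ S, ρ.character y = c * n := by
    have := congrArg (LinearMap.trace ℂ (Fin n → ℂ)) hc
    rw [map_sum, map_smul, LinearMap.trace_id] at this
    rw [show ∑ y ∈ S, ρ.character y = ∑ y ∈ S, LinearMap.trace ℂ (Fin n → ℂ) (ρ y) from rfl, this]
    simp
  have h2 : ∑ y ∈ S, ρ.character (y * x) = c * ρ.character x := by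
    have h3 : (∑ y ∈ S, ρ y) * ρ x = c • ρ x := by
      rw [hc]
      ext v
      simp
    have := congrArg (LinearMap.trace ℂ (Fin n → ℂ)) h3
    rw [Finset.sum_mul, map_sum, map_smul] at this
    rw [show ρ.character x = LinearMap.trace ℂ (Fin n → ℂ) (ρ x) from rfl, ← smul_eq_mul, ← this]
    refine Finset.sum_congr rfl fun y _ => ?_
    rw [← map_mul]
    rfl
  have h4 : ρ.character 1 = n := by
    rw [char_one]
    simp
  rw [h1, h2, h4]
  ring

/-! ### Central subgroups of prime order -/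

section Cent

variable {A : Type} [Group A] [Fintype A] {Z : Subgroup A} {θ : A → ℂ}

omit [Fintype A] in
theorem lam_mul (hz : ∀ u ∈ Z, ∀ x, u * x = x * u) (hθ : IsIrr θ) {u : A} (hu : u ∈ Z) (x : A) :
    θ 1 * θ (u * x) = θ u * θ x := by
  classical
  have h := class_mul hθ {u} (by
    intro g y hy
    rw [Finset.mem_singleton] at hy ⊢
    subst hy
    rw [← hz y hu g, mul_inv_cancel_right]) x
  rwa [Finset.sum_singleton, Finset.sum_singleton] at h

omit [Fintype A] in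
theorem lam_ne_zero (hz : ∀ u ∈ Z, ∀ x, u * x = x * u) (hθ : IsIrr θ) {u : A} (hu : u ∈ Z) :
    θ u ≠ 0 := by
  intro h
  have h1 := lam_mul hz hθ hu u⁻¹
  rw [mul_inv_cancel, h, zero_mul] at h1
  exact mul_ne_zero hθ.one_ne_zero hθ.one_ne_zero h1

/-- The values on the central subgroup: trivial, or faithful. -/
theorem lam_cases (hz : ∀ u ∈ Z, ∀ x, u * x = x * u) (ℓ : ℕ) [Fact ℓ.Prime]
    (hc : Nat.card Z = ℓ) (hθ : IsIrr θ) :
    (∀ u ∈ Z, θ u = θ 1) ∨ ((∀ u ∈ Z, ∀ v ∈ Z, θ u = θ v → u = v) ∧ ∑ u : Z, θ u = 0) := by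
  have h1 := hθ.one_ne_zero
  let S : Subgroup A :=
    { carrier := {u | u ∈ Z ∧ θ u = θ 1}
      one_mem' := ⟨one_mem _, rfl⟩
      mul_mem' := by
        rintro a b ⟨ha, ha'⟩ ⟨hb, hb'⟩
        refine ⟨mul_mem ha hb, ?_⟩
        have h2 := lam_mul hz hθ ha b
        rw [ha', hb'] at h2
        exact mul_left_cancel₀ h1 h2
      inv_mem' := by
        rintro a ⟨ha, ha'⟩
        refine ⟨inv_mem ha, ?_⟩
        have h2 := lam_mul hz hθ ha a⁻¹
        rw [ha', mul_inv_cancel] at h2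
        exact (mul_left_cancel₀ h1 h2).symm }
  rcases eq_one_or Z ℓ hc S with h | h
  · left
    exact fun u hu => (h u hu).2
  · right
    constructor
    · intro u hu v hv huv
      have h2 : u * v⁻¹ ∈ S := by
        refine ⟨mul_mem hu (inv_mem hv), ?_⟩
        have h3 := lam_mul hz hθ hu v⁻¹
        rw [huv, ← lam_mul hz hθ hv v⁻¹, mul_inv_cancel] at h3
        exact mul_left_cancel₀ h1 h3
      have h3 := h _ h2.1 h2
      exact mul_inv_eq_one.mp h3
    · have h2 : ∃ v ∈ Z, θ v ≠ θ 1 := by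
        by_contra hcon
        push Not at hcon
        have h3 : ∀ u ∈ Z, u = 1 := fun u hu => h u hu ⟨hu, hcon u hu⟩
        have h4 : Z = ⊥ := by
          rw [eq_bot_iff]
          intro u hu
          rw [h3 u hu]
          exact one_mem _
        rw [h4, Subgroup.card_bot] at hc
        exact (Fact.out : ℓ.Prime).one_lt.ne hc
      obtain ⟨v, hv, hne⟩ := h2
      have h3 : ∑ u : Z, θ u = ∑ u : Z, θ (v * u) :=
        (Fintype.sum_equiv (Equiv.mulLeft (⟨v, hv⟩ : Z)) _ _ fun u => rfl).symm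
      have h4 : θ 1 * ∑ u : Z, θ (v * u) = θ v * ∑ u : Z, θ u := by
        rw [Finset.mul_sum, Finset.mul_sum]
        exact Finset.sum_congr rfl fun u _ => lam_mul hz hθ hv u
      rw [← h3] at h4
      by_contra hne'
      exact hne (mul_right_cancel₀ hne' h4).symm

/-- The character `θ ∘ q` is irreducible. -/
theorem irr_q (hz : ∀ u ∈ Z, ∀ x, u * x = x * u) (hθ : IsIrr θ) (q : A →* A)
    (hq : ∀ x, x * (q x)⁻¹ ∈ Z) : IsIrr (fun x => θ (q x)) := by
  apply (hθ.isChr.comp q).isIrr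
  rw [← hθ.sum_self]
  refine Finset.sum_congr rfl fun x _ => ?_
  have h1 := hθ.one_ne_zero
  set u := x * (q x)⁻¹ with hu
  have huZ : u ∈ Z := hq x
  have hx : x = u * q x := by rw [hu]; group
  have hx' : x⁻¹ = u⁻¹ * (q x)⁻¹ := by
    rw [hz u⁻¹ (inv_mem huZ), ← mul_inv_rev, ← hx]
  have h2 := lam_mul hz hθ huZ (q x)
  have h3 := lam_mul hz hθ (inv_mem huZ) (q x)⁻¹
  have h4 := lam_mul hz hθ huZ u⁻¹
  rw [mul_inv_cancel] at h4
  rw [← hx] at h2
  rw [← hx'] at h3
  have h5 : (θ 1 * θ x) * (θ 1 * θ x⁻¹) = (θ 1 * θ 1) * (θ (q x) * θ (q x)⁻¹) := by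
    rw [h2, h3, h4]
    ring
  rw [map_inv]
  have h6 : (θ 1 * θ 1) * (θ x * θ x⁻¹) = (θ 1 * θ 1) * (θ (q x) * θ (q x)⁻¹) := by
    rw [← h5]
    ring
  exact (mul_left_cancel₀ (mul_ne_zero h1 h1) h6).symm

/-- A character is determined by its values on `Z` and on the image of `q`. -/
theorem eq_of_q (hz : ∀ u ∈ Z, ∀ x, u * x = x * u) {θ' : A → ℂ} (hθ : IsIrr θ) (hθ' : IsIrr θ')
    (q : A →* A) (hq : ∀ x, x * (q x)⁻¹ ∈ Z) (h1 : ∀ u ∈ Z, θ u = θ' u)
    (h2 : ∀ x, θ (q x) = θ' (q x)) (x : A) : θ x = θ' x := by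
  have hx : x = (x * (q x)⁻¹) * q x := by group
  have h3 := lam_mul hz hθ (hq x) (q x)
  have h4 := lam_mul hz hθ' (hq x) (q x)
  rw [← hx] at h3 h4
  rw [h1 _ (hq x), h2 x, h1 1 (one_mem _), ← h4] at h3
  exact mul_left_cancel₀ hθ'.one_ne_zero h3

open Classical in
/-- Sums over the image of `q`. -/
theorem sum_q (q : A →* A) (hqq : ∀ x, q (q x) = q x) (hk : ∀ x, q x = 1 ↔ x ∈ Z)
    (F : A → ℂ) : ∑ x, F (q x) = (Nat.card Z : ℂ) * ∑ x, if q x = x then F x else 0 := by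
  have h1 : ∑ x, F (q x) = ∑ k : A, ∑ x ∈ Finset.univ.filter (fun x => q x = k), F k := by
    rw [← Finset.sum_fiberwise Finset.univ (fun x => q x) (fun x => F (q x))]
    refine Finset.sum_congr rfl fun k _ => Finset.sum_congr rfl fun x hx => ?_
    rw [(Finset.mem_filter.mp hx).2]
  rw [h1, Finset.mul_sum]
  refine Finset.sum_congr rfl fun k _ => ?_
  rw [Finset.sum_const, nsmul_eq_mul]
  split_ifs with hqk
  · congr 2
    have e1 : Nat.card Z = (Finset.univ.filter (fun x => x ∈ Z)).card := by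
      rw [Nat.card_eq_fintype_card, ← Fintype.card_subtype]
    rw [e1]
    refine Finset.card_bij' (fun x _ => x * k⁻¹) (fun u _ => u * k) ?_ ?_ ?_ ?_
    · intro x hx
      rw [Finset.mem_filter] at hx ⊢
      refine ⟨Finset.mem_univ _, ?_⟩
      rw [← hk, map_mul, hx.2, map_inv, hqk, mul_inv_cancel]
    · intro u hu
      rw [Finset.mem_filter] at hu ⊢
      refine ⟨Finset.mem_univ _, ?_⟩
      rw [map_mul, (hk u).mpr hu.2, one_mul, hqk]
    · intro x _
      group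
    · intro x _
      group
  · rw [Finset.filter_false_of_mem, Finset.card_empty, Nat.cast_zero, zero_mul, mul_zero]
    intro x _ hx
    apply hqk
    rw [← hx, hqq]

end Cent

/-! ### The test function -/

section Tst

variable {A Y K : Type} [Group A] [Fintype A] [Group Y] [Fintype Y] [Group K]
  {j : A →* Y} {c : Y →* MulAut A} {p : Y →* K}

open Classical in
/-- The sum of the inverses of the characters of a set, on the image of `q`. -/
noncomputable def tst (j : A →* Y) (q : A →* A) (S : Finset (A → ℂ)) : Y → ℂ :=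
  fun y => ∑ x : A, if j x = y ∧ q x = x then ∑ f ∈ S, f x⁻¹ else 0

open Classical in
omit [Fintype Y] in
theorem tst_apply (hj : Function.Injective j) (q : A →* A) (S : Finset (A → ℂ)) (x : A) :
    tst j q S (j x) = if q x = x then ∑ f ∈ S, f x⁻¹ else 0 := by
  rw [tst, Finset.sum_eq_single x]
  · simp only [true_and]
  · intro b _ hb
    rw [if_neg]
    exact fun h => hb (hj h.1)
  · exact fun h => absurd (Finset.mem_univ _) h

omit [Fintype Y] in
theorem tst_zero (q : A →* A) (S : Finset (A → ℂ)) (y : Y) (hy : y ∉ j.range) :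
    tst j q S y = 0 := by
  classical
  rw [tst]
  refine Finset.sum_eq_zero fun x _ => ?_
  rw [if_neg]
  exact fun h => hy ⟨x, h.1⟩

omit [Fintype Y] in
theorem tst_int (q : A →* A) (S : Finset (A → ℂ)) (hS : ∀ f ∈ S, IsIrr f) (y : Y) :
    IsIntegral ℤ (tst j q S y) := by
  classical
  rw [tst]
  refine IsIntegral.sum _ fun x _ => ?_
  split_ifs
  · exact IsIntegral.sum _ fun f hf => isIntegral_char (hS f hf) _
  · exact isIntegral_zero

theorem tst_inv (hc : ClG j c p) (q : A →* A) (hqc : ∀ (y : Y) (x : A), q (c y x) = c y (q x))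
    (S : Finset (A → ℂ)) (hS : ∀ y, ∀ f ∈ S, cfn c f y ∈ S) (n x : Y) :
    tst j q S (n * x * n⁻¹) = tst j q S x := by
  classical
  rw [tst, tst]
  symm
  refine Fintype.sum_equiv (c n).toEquiv _ _ fun a => ?_
  change _ = if j (c n a) = n * x * n⁻¹ ∧ q (c n a) = c n a then ∑ f ∈ S, f (c n a)⁻¹ else 0
  have h1 : j (c n a) = n * x * n⁻¹ ↔ j a = x := by
    rw [hc.act]
    constructor
    · intro h
      exact mul_left_cancel (mul_right_cancel h)
    · intro h
      rw [h]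
  have h2 : q (c n a) = c n a ↔ q a = a := by
    rw [hqc]
    exact (c n).injective.eq_iff
  simp only [h1, h2]
  split_ifs
  · symm
    refine Finset.sum_bij' (fun f _ => cfn c f n) (fun f _ => cfn c f n⁻¹) ?_ ?_ ?_ ?_ ?_
    · exact fun f hf => hS n f hf
    · exact fun f hf => hS n⁻¹ f hf
    · intro f _
      rw [cfn_mul, mul_inv_cancel, cfn_one]
    · intro f _
      rw [cfn_mul, inv_mul_cancel, cfn_one]
    · intro f _
      rw [cfn, map_inv]
  · rfl

open Classical in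
omit [Fintype Y] in
theorem wt_tst (hj : Function.Injective j) {Z : Subgroup A} (hz : ∀ u ∈ Z, ∀ x, u * x = x * u)
    (q : A →* A) (hq : ∀ x, x * (q x)⁻¹ ∈ Z) (hqq : ∀ x, q (q x) = q x)
    (hk : ∀ x, q x = 1 ↔ x ∈ Z) (S : Finset (A → ℂ)) (hS : ∀ f ∈ S, IsIrr f)
    (hSq : ∀ f ∈ S, ∀ x, f (q x) = f x) {θ : A → ℂ} (hθ : IsIrr θ) :
    (Nat.card Z : ℂ) * (θ 1 * wt θ (fun x => tst j q S (j x))) =
      if (fun x => θ (q x)) ∈ S then (Nat.card A : ℂ) else 0 := by
  have h1 : θ 1 * wt θ (fun x => tst j q S (j x)) =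
      ∑ x, if q x = x then (∑ f ∈ S, f x⁻¹) * θ x else 0 := by
    rw [wt, mul_div_cancel₀ _ hθ.one_ne_zero]
    refine Finset.sum_congr rfl fun x _ => ?_
    rw [tst_apply hj]
    split_ifs
    · rfl
    · rw [zero_mul]
  rw [h1, ← sum_q q hqq hk]
  have h2 : ∑ x, (∑ f ∈ S, f (q x)⁻¹) * θ (q x) = ∑ f ∈ S, ∑ x, (fun x => θ (q x)) x * f x⁻¹ := by
    rw [Finset.sum_comm]
    refine Finset.sum_congr rfl fun x _ => ?_
    rw [Finset.sum_mul]
    refine Finset.sum_congr rfl fun f hf => ?_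
    rw [← map_inv, hSq f hf, mul_comm]
  rw [h2]
  have hθq := irr_q hz hθ q hq
  split_ifs with hmem
  · rw [Finset.sum_eq_single_of_mem _ hmem]
    · exact hθq.sum_self
    · intro f hf hne
      exact hθq.sum_ne (hS f hf) hne.symm
  · refine Finset.sum_eq_zero fun f hf => ?_
    refine hθq.sum_ne (hS f hf) ?_
    intro h
    exact hmem (h ▸ hf)

/-- The characters under two characters with the same weights. -/
theorem block (hc : ClG j c p) {Z : Subgroup A} (hz : ∀ u ∈ Z, ∀ x, u * x = x * u)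
    (𝔐 : Ideal (integralClosure ℤ ℂ)) [𝔐.IsPrime] (ℓ : ℕ) [Fact ℓ.Prime]
    (hℓ : (ℓ : integralClosure ℤ ℂ) ∈ 𝔐) (hZ : Nat.card Z = ℓ) (hi : ¬ ℓ ∣ Z.index)
    (q : A →* A) (hq : ∀ x, x * (q x)⁻¹ ∈ Z) (hqq : ∀ x, q (q x) = q x)
    (hk : ∀ x, q x = 1 ↔ x ∈ Z) (hqc : ∀ (y : Y) (x : A), q (c y x) = c y (q x))
    {ψ ψ' : Y → ℂ} (hψ : IsIrr ψ) (hψ' : IsIrr ψ') {θ θ' : A → ℂ} (hθ : IsIrr θ) (hθ' : IsIrr θ')
    (h : ip (resj j ψ) θ ≠ 0) (h' : ip (resj j ψ') θ' ≠ 0)
    (hred : ∀ a : Y → ℂ, (∀ n x, a (n * x * n⁻¹) = a x) → (∀ x, IsIntegral ℤ (a x)) →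
      (∀ x, x ∉ j.range → a x = 0) → red 𝔐 (wt ψ a) = red 𝔐 (wt ψ' a)) :
    ∃ y, ∀ x, θ' (q x) = θ (q (c y x)) := by
  classical
  have hθq := irr_q hz hθ q hq
  let S : Finset (A → ℂ) := Finset.univ.image (fun y : Y => cfn c (fun x => θ (q x)) y)
  have hSmem : ∀ f, f ∈ S ↔ ∃ y, cfn c (fun x => θ (q x)) y = f := by
    intro f
    simp only [S, Finset.mem_image, Finset.mem_univ, true_and]
  have hS : ∀ f ∈ S, IsIrr f := by
    intro f hf
    obtain ⟨y, rfl⟩ := (hSmem f).mp hf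
    exact hθq.cfn y
  have hSq : ∀ f ∈ S, ∀ x, f (q x) = f x := by
    intro f hf x
    obtain ⟨y, rfl⟩ := (hSmem f).mp hf
    change θ (q (c y (q x))) = θ (q (c y x))
    rw [hqc, hqc, hqq]
  have hSc : ∀ y, ∀ f ∈ S, cfn c f y ∈ S := by
    intro y f hf
    obtain ⟨z, rfl⟩ := (hSmem f).mp hf
    rw [cfn_mul]
    exact (hSmem _).mpr ⟨_, rfl⟩
  have hmem : (fun x => θ (q x)) ∈ S := (hSmem _).mpr ⟨1, cfn_one _⟩
  have h1 := hred (tst j q S) (tst_inv hc q hqc S hSc) (tst_int q S hS) (tst_zero q S)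
  rw [SUMM.wt_eq hc hθ hψ h _ (tst_inv hc q hqc S hSc) (tst_zero q S),
    SUMM.wt_eq hc hθ' hψ' h' _ (tst_inv hc q hqc S hSc) (tst_zero q S)] at h1
  have h2 := wt_tst hc.inj hz q hq hqq hk S hS hSq hθ
  have h3 := wt_tst hc.inj hz q hq hqq hk S hS hSq hθ'
  rw [if_pos hmem] at h2
  have hl0 : (ℓ : ℂ) ≠ 0 := by exact_mod_cast (Fact.out : ℓ.Prime).ne_zero
  by_cases hmem' : (fun x => θ' (q x)) ∈ S
  · obtain ⟨y, hy⟩ := (hSmem _).mp hmem'
    exact ⟨y, fun x => (congrFun hy x).symm⟩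
  · exfalso
    rw [if_neg hmem', hZ] at h3
    have h4 := (mul_eq_zero.mp ((mul_eq_zero.mp h3).resolve_left hl0)).resolve_left hθ'.one_ne_zero
    rw [h4, red_zero] at h1
    have hint : IsIntegral ℤ (wt θ (fun x => tst j q S (j x))) := by
      apply isIntegral_wt hθ
      · intro g x
        rw [map_mul, map_mul, map_inv, tst_inv hc q hqc S hSc]
      · exact fun x => tst_int q S hS _
    obtain ⟨n, hn, hn'⟩ := hθ.exists_degree
    have hA : Nat.card A = ℓ * Z.index := by rw [← hZ, Z.card_mul_index]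
    have h5 : wt θ (fun x => tst j q S (j x)) = (Z.index : ℂ) / n := by
      have hn0 : (n : ℂ) ≠ 0 := by exact_mod_cast hn.ne'
      rw [hZ, hA, hn'] at h2
      push_cast at h2
      have h6 := mul_left_cancel₀ hl0 h2
      rw [eq_div_iff hn0, ← h6, mul_comm]
    have h6 : (Z.index : ℂ) / n = algebraMap ℚ ℂ ((Z.index : ℚ) / n) := by
      rw [map_div₀, map_natCast, map_natCast]
    have hint' := hint
    rw [h5, h6, isIntegral_algebraMap_iff (algebraMap ℚ ℂ).injective] at hint'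
    obtain ⟨z, hz'⟩ := IsIntegrallyClosed.isIntegral_iff.mp hint'
    have hn0 : (n : ℚ) ≠ 0 := by exact_mod_cast hn.ne'
    have h7 : (Z.index : ℚ) = z * n := by
      have h8 : (z : ℚ) = (Z.index : ℚ) / n := hz'
      rw [h8]
      field_simp
    have h8 : (Z.index : ℤ) = z * n := by exact_mod_cast h7
    have h9 : ∃ w : ℕ, (w : ℤ) = z := by
      have : 0 ≤ z := by
        by_contra hneg
        push Not at hneg
        have h10 : z * n < 0 := mul_neg_of_neg_of_pos hneg (by exact_mod_cast hn)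
        rw [← h8] at h10
        exact absurd h10 (not_lt.mpr (Int.natCast_nonneg _))
      exact ⟨z.toNat, Int.toNat_of_nonneg this⟩
    obtain ⟨w, hw⟩ := h9
    have h10 : Z.index = w * n := by
      rw [← hw] at h8
      exact_mod_cast h8
    have h11 : wt θ (fun x => tst j q S (j x)) = (w : ℂ) := by
      have hn1 : (n : ℂ) ≠ 0 := by exact_mod_cast hn.ne'
      rw [h5, h10]
      push_cast
      field_simp
    rw [h11] at h1
    apply red_card_ne_zero 𝔐 hℓ (n := w) _ h1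
    intro hdvd
    exact hi (h10 ▸ hdvd.mul_right n)

end Tst

/-! ### The values on `P` -/

section Val

variable {H : Type} [Group H] [Fintype H] {P N C : Subgroup H}

open Classical in
/-- The sum of the values over `P`. -/
theorem sum_P [P.Normal] (hPN : P ≤ N) {ψ : N → ℂ} (hψ : IsIrr ψ) (x : N) :
    ψ 1 * ∑ v : P, ψ (Subgroup.inclusion hPN v * x) =
      (∑ v : P, ψ (Subgroup.inclusion hPN v)) * ψ x := by
  have h := class_mul hψ (Finset.univ.image (fun v : P => Subgroup.inclusion hPN v)) (by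
    intro g y hy
    obtain ⟨v, _, rfl⟩ := Finset.mem_image.mp hy
    refine Finset.mem_image.mpr ⟨⟨g * v * (g : H)⁻¹,
      (inferInstance : P.Normal).conj_mem v v.2 g⟩, Finset.mem_univ _, ?_⟩
    exact Subtype.ext rfl) x
  rw [Finset.sum_image (fun a _ b _ h => Subgroup.inclusion_injective hPN h),
    Finset.sum_image (fun a _ b _ h => Subgroup.inclusion_injective hPN h)] at h
  exact h

/-- The sums over `P` of a character and of a character under it. -/
theorem sum_under [P.Normal] (hPN : P ≤ N) (hPC : P ≤ C) (hCN : C ≤ N)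
    (hz : ∀ u ∈ P.subgroupOf C, ∀ x : C, u * x = x * u) {ψ : N → ℂ} (hψ : IsIrr ψ)
    {θ : C → ℂ} (hθ : IsIrr θ) (h : ip (resj (Subgroup.inclusion hCN) ψ) θ ≠ 0) :
    θ 1 * ∑ v : P, ψ (Subgroup.inclusion hPN v) = ψ 1 * ∑ v : P, θ (Subgroup.inclusion hPC v) := by
  classical
  set I : ℂ := ∑ x : C, ψ (Subgroup.inclusion hCN x) * θ x⁻¹ with hI
  have hI0 : I ≠ 0 := by
    intro h0
    apply h
    rw [ip]
    change I / _ = 0
    rw [h0, zero_div]
  have h1 : ∀ v : P, θ 1 * ∑ x : C, ψ (Subgroup.inclusion hPN v * Subgroup.inclusion hCN x) * θ x⁻¹ =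
      θ (Subgroup.inclusion hPC v) * I := by
    intro v
    have hv : Subgroup.inclusion hPC v ∈ P.subgroupOf C := Subgroup.mem_subgroupOf.mpr v.2
    have h2 : ∑ x : C, ψ (Subgroup.inclusion hPN v * Subgroup.inclusion hCN x) * θ x⁻¹ =
        ∑ x : C, ψ (Subgroup.inclusion hCN x) * θ (Subgroup.inclusion hPC v * x⁻¹) := by
      refine Fintype.sum_equiv (Equiv.mulLeft (Subgroup.inclusion hPC v)) _ _ fun x => ?_
      have h3 : Subgroup.inclusion hPC v * (Subgroup.inclusion hPC v * x)⁻¹ = x⁻¹ := by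
        rw [hz _ hv x]
        group
      change _ = ψ (Subgroup.inclusion hCN (Subgroup.inclusion hPC v * x)) *
        θ (Subgroup.inclusion hPC v * (Subgroup.inclusion hPC v * x)⁻¹)
      rw [h3]
      rfl
    rw [h2, hI, Finset.mul_sum, Finset.mul_sum]
    refine Finset.sum_congr rfl fun x _ => ?_
    have h4 := lam_mul hz hθ hv x⁻¹
    linear_combination ψ (Subgroup.inclusion hCN x) * h4
  have h5 : ψ 1 * ∑ v : P, ∑ x : C, ψ (Subgroup.inclusion hPN v * Subgroup.inclusion hCN x) * θ x⁻¹ =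
      (∑ v : P, ψ (Subgroup.inclusion hPN v)) * I := by
    rw [Finset.sum_comm, Finset.mul_sum, hI, Finset.mul_sum]
    refine Finset.sum_congr rfl fun x _ => ?_
    rw [← Finset.sum_mul, ← mul_assoc, sum_P hPN hψ, mul_assoc]
  have h6 : θ 1 * ∑ v : P, ∑ x : C, ψ (Subgroup.inclusion hPN v * Subgroup.inclusion hCN x) * θ x⁻¹ =
      (∑ v : P, θ (Subgroup.inclusion hPC v)) * I := by
    rw [Finset.mul_sum, Finset.sum_mul]
    exact Finset.sum_congr rfl fun v _ => h1 v
  apply mul_right_cancel₀ hI0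
  linear_combination ψ 1 * h6 - θ 1 * h5

/-- `P` is in the kernel of `ψ` if it is in the kernel of the characters under `ψ`. -/
theorem ker_of (hPC : P ≤ C) (hCN : C ≤ N) {ψ : N → ℂ} (hψ : IsIrr ψ)
    (h : ∀ θ : C → ℂ, IsIrr θ → ip (resj (Subgroup.inclusion hCN) ψ) θ ≠ 0 →
      ∀ u : C, (u : H) ∈ P → θ u = θ 1) (u : N) (hu : (u : H) ∈ P) : ψ u = ψ 1 := by
  classical
  have h1 := class_fn_expand (resj (Subgroup.inclusion hCN) ψ) (resj_class hψ)
  have h2 := congrFun h1 ⟨u, hPC hu⟩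
  have h3 := congrFun h1 1
  have h4 : ψ u = resj (Subgroup.inclusion hCN) ψ ⟨u, hPC hu⟩ := rfl
  have h5 : ψ 1 = resj (Subgroup.inclusion hCN) ψ 1 := by rw [resj, map_one]
  rw [h4, h5, h2, h3]
  refine Finset.sum_congr rfl fun θ hθ => ?_
  by_cases h6 : ip (resj (Subgroup.inclusion hCN) ψ) θ = 0
  · rw [h6, zero_mul, zero_mul]
  · rw [h θ (mem_irrF.mp hθ) h6 _ hu]

/-- Characters with `P` in no kernel vanish off the centralizer of `P`. -/
theorem vanish [P.Normal] (hPN : P ≤ N) (ℓ : ℕ) [Fact ℓ.Prime] (hPc : Nat.card P = ℓ)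
    {ψ : N → ℂ} (hψ : IsIrr ψ) (h0 : ∑ v : P, ψ (Subgroup.inclusion hPN v) = 0) (x : N)
    (hx : ¬ ∀ u ∈ P, (x : H) * u = u * x) : ψ x = 0 := by
  classical
  have h1 := sum_P hPN hψ x
  rw [h0, zero_mul] at h1
  have h2 := (mul_eq_zero.mp h1).resolve_left hψ.one_ne_zero
  let f : P → P := fun w => ⟨w * (x * (w : H)⁻¹ * (x : H)⁻¹), mul_mem w.2
    ((inferInstance : P.Normal).conj_mem _ (inv_mem w.2) x)⟩
  have hf : Function.Injective f := by
    intro w w' hww
    have h3 : (w : H) * (x * (w : H)⁻¹ * (x : H)⁻¹) = w' * (x * (w' : H)⁻¹ * (x : H)⁻¹) :=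
      congrArg Subtype.val hww
    rcases eq_one_or P ℓ hPc (Subgroup.centralizer {(x : H)}) with h4 | h4
    · exfalso
      apply hx
      intro u hu
      have := Subgroup.mem_centralizer_iff.mp (h4 u hu) x rfl
      exact this
    · have h5 : (w' : H)⁻¹ * w = 1 := by
        apply h4 _ (mul_mem (inv_mem w'.2) w.2)
        rw [Subgroup.mem_centralizer_iff]
        intro y hy
        have hy' : y = x := hy
        rw [hy']
        have h6 : (w : H) * x * (w : H)⁻¹ = w' * x * (w' : H)⁻¹ := by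
          calc (w : H) * x * (w : H)⁻¹ = (w : H) * (x * (w : H)⁻¹ * (x : H)⁻¹) * x := by group
            _ = w' * (x * (w' : H)⁻¹ * (x : H)⁻¹) * x := by rw [h3]
            _ = w' * x * (w' : H)⁻¹ := by group
        calc (x : H) * ((w' : H)⁻¹ * w) = (w' : H)⁻¹ * (w' * x * (w' : H)⁻¹) * w := by group
          _ = (w' : H)⁻¹ * ((w : H) * x * (w : H)⁻¹) * w := by rw [h6]
          _ = (w' : H)⁻¹ * w * x := by group
      apply Subtype.ext
      exact (inv_mul_eq_one.mp h5).symm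
  have hfs : Function.Surjective f := Finite.surjective_of_injective hf
  have h3 : ∀ v : P, ψ (Subgroup.inclusion hPN v * x) = ψ x := by
    intro v
    obtain ⟨w, rfl⟩ := hfs v
    have h4 : Subgroup.inclusion hPN (f w) * x =
        Subgroup.inclusion hPN w * x * (Subgroup.inclusion hPN w)⁻¹ := by
      apply Subtype.ext
      change (w : H) * (x * (w : H)⁻¹ * (x : H)⁻¹) * x = w * x * (w : H)⁻¹
      group
    rw [h4, hψ.conj_eq]
  simp only [h3] at h2
  rw [Finset.sum_const, nsmul_eq_mul] at h2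
  have h4 : ((Finset.univ : Finset P).card : ℂ) ≠ 0 := by
    rw [Finset.card_univ, Fintype.card_eq_nat_card, hPc]
    exact_mod_cast (Fact.out : ℓ.Prime).ne_zero
  exact (mul_eq_zero.mp h2).resolve_left h4

/-- The sum over `P` as a sum over the subgroup of `C`. -/
theorem sum_Z (hPC : P ≤ C) (f : C → ℂ) :
    ∑ u : P.subgroupOf C, f u = ∑ v : P, f (Subgroup.inclusion hPC v) :=
  Fintype.sum_equiv (Subgroup.subgroupOfEquivOfLe hPC).toEquiv _ _ fun _ => rfl

/-- `P` is in the kernel of `ψ` if and only if it is in the kernel of a character under it. -/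
theorem type_iff [P.Normal] (hPN : P ≤ N) (hPC : P ≤ C) (hCN : C ≤ N)
    (hz : ∀ u ∈ P.subgroupOf C, ∀ x : C, u * x = x * u) (ℓ : ℕ) [Fact ℓ.Prime]
    (hPc : Nat.card P = ℓ) (hZc : Nat.card (P.subgroupOf C) = ℓ) {ψ : N → ℂ} (hψ : IsIrr ψ)
    {θ : C → ℂ} (hθ : IsIrr θ) (h : ip (resj (Subgroup.inclusion hCN) ψ) θ ≠ 0) :
    (∀ u : N, (u : H) ∈ P → ψ u = ψ 1) ↔ ∀ u ∈ P.subgroupOf C, θ u = θ 1 := by
  classical
  have hl0 : (ℓ : ℂ) ≠ 0 := by exact_mod_cast (Fact.out : ℓ.Prime).ne_zero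
  have hcard : ((Finset.univ : Finset P).card : ℂ) = ℓ := by
    rw [Finset.card_univ, Fintype.card_eq_nat_card, hPc]
  have key : ∑ v : P, ψ (Subgroup.inclusion hPN v) = ℓ * ψ 1 → ∀ θ2 : C → ℂ, IsIrr θ2 →
      ip (resj (Subgroup.inclusion hCN) ψ) θ2 ≠ 0 → ∀ u ∈ P.subgroupOf C, θ2 u = θ2 1 := by
    intro hs θ2 hθ2 h2
    rcases lam_cases hz ℓ hZc hθ2 with h3 | ⟨-, h3⟩
    · exact h3
    · exfalso
      have h4 := sum_under hPN hPC hCN hz hψ hθ2 h2
      rw [← sum_Z hPC θ2, h3, mul_zero, hs] at h4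
      exact mul_ne_zero hθ2.one_ne_zero (mul_ne_zero hl0 hψ.one_ne_zero) h4
  constructor
  · intro hk
    apply key _ θ hθ h
    have h3 : ∀ v : P, ψ (Subgroup.inclusion hPN v) = ψ 1 := fun v => hk _ v.2
    simp only [h3]
    rw [Finset.sum_const, nsmul_eq_mul, hcard]
  · intro hk
    apply ker_of hPC hCN hψ
    intro θ2 hθ2 h2 u hu
    refine key ?_ θ2 hθ2 h2 u (Subgroup.mem_subgroupOf.mpr hu)
    have h4 := sum_under hPN hPC hCN hz hψ hθ h
    have h5 : ∀ v : P, θ (Subgroup.inclusion hPC v) = θ 1 :=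
      fun v => hk _ (Subgroup.mem_subgroupOf.mpr v.2)
    simp only [h5] at h4
    rw [Finset.sum_const, nsmul_eq_mul, hcard] at h4
    apply mul_left_cancel₀ hθ.one_ne_zero
    rw [h4]
    ring

/-- Two characters over the same character of `C`. -/
theorem abl (h1 : Stmt_ABL) [C.Normal] (hCN : C ≤ N)
    (hcomm : ∀ x y : N, (x : H) * y * (x : H)⁻¹ * (y : H)⁻¹ ∈ C) {ψ ψ' : N → ℂ} (hψ : IsIrr ψ)
    (hψ' : IsIrr ψ') {θ : C → ℂ} (hθ : IsIrr θ)
    (h : ip (resj (Subgroup.inclusion hCN) ψ) θ ≠ 0)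
    (h' : ip (resj (Subgroup.inclusion hCN) ψ') θ ≠ 0) :
    ∃ lam : N →* ℂˣ, (∀ c : N, (c : H) ∈ C → lam c = 1) ∧
      ∀ x, ψ' x = ψ x * ((lam x : ℂˣ) : ℂ) := by
  classical
  have e : C.subgroupOf N ≃* C := Subgroup.subgroupOfEquivOfLe hCN
  have h2 := h1 N (C.subgroupOf N) (fun x y => Subgroup.mem_subgroupOf.mpr (hcomm x y)) ψ ψ' hψ hψ'
    (fun c => θ (Subgroup.subgroupOfEquivOfLe hCN c))
    (hθ.comp_mulEquiv (Subgroup.subgroupOfEquivOfLe hCN))
  have h3 : ∀ φ : N → ℂ, ip (fun c : C.subgroupOf N => φ c)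
      (fun c => θ (Subgroup.subgroupOfEquivOfLe hCN c)) =
      ip (resj (Subgroup.inclusion hCN) φ) θ := by
    intro φ
    rw [← BLKC.ip_comp_equiv (Subgroup.subgroupOfEquivOfLe hCN)]
    rfl
  obtain ⟨lam, hl, hl'⟩ := h2 (by rw [h3]; exact h) (by rw [h3]; exact h')
  exact ⟨lam, fun c hc => hl c (Subgroup.mem_subgroupOf.mpr hc), fun x => congrFun hl' x⟩

end Val

end Pool.Agent.DPV.TWH

namespace Pool.Agent.DPV

open Pool.Agent.DP Pool.Agent.Lib_helper13 Representation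
open Pool.Agent.Lib_helper13.Dade (pCore DadeHolds dadeSum)

open TWH in
/-- TWH: the stabilizers of the characters of a block of the normalizer. -/
theorem TWH_thm (h1 : Stmt_ABL) : Stmt_TWH := by
  intro H _ _ 𝔐 ℓ _ h𝔐 hℓ P N _ _ hPc hPi hPN ψ ψ' hψ hψ' hwt hker h hh
  classical
  have hprime : 𝔐.IsPrime := h𝔐.isPrime
  let C : Subgroup H := Subgroup.centralizer (P : Set H) ⊓ N
  have hCmem : ∀ x, x ∈ C ↔ (∀ u ∈ P, x * u = u * x) ∧ x ∈ N := by
    intro x
    rw [Subgroup.mem_inf, Subgroup.mem_centralizer_iff]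
    exact ⟨fun h => ⟨fun u hu => (h.1 u hu).symm, h.2⟩, fun h => ⟨fun u hu => (h.1 u hu).symm, h.2⟩⟩
  have hCN : C ≤ N := inf_le_right
  have hcyc : IsCyclic P := isCyclic_of_prime_card hPc
  have hPab : ∀ u ∈ P, ∀ v ∈ P, u * v = v * u := by
    intro u hu v hv
    have hcg : ∀ a b : P, a * b = b * a := by
      let _ := IsCyclic.commGroup (α := P)
      exact mul_comm
    exact congrArg Subtype.val (hcg ⟨u, hu⟩ ⟨v, hv⟩)
  have hPC : P ≤ C := fun u hu => (hCmem u).mpr ⟨fun v hv => hPab u hu v hv, hPN hu⟩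
  have hCn : C.Normal := by
    constructor
    intro x hx g
    rw [hCmem] at hx ⊢
    refine ⟨fun u hu => ?_, (inferInstance : N.Normal).conj_mem x hx.2 g⟩
    have h2 : g⁻¹ * u * g ∈ P := by
      have := (inferInstance : P.Normal).conj_mem u hu g⁻¹
      rwa [inv_inv] at this
    have h3 := hx.1 _ h2
    calc g * x * g⁻¹ * u = g * (x * (g⁻¹ * u * g)) * g⁻¹ := by group
      _ = u * (g * x * g⁻¹) := by rw [h3]; group
  have hcomm := comm_act P ℓ hPc
  have hz : ∀ u ∈ P.subgroupOf C, ∀ x : C, u * x = x * u := by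
    intro u hu x
    apply Subtype.ext
    exact (((hCmem _).mp x.2).1 u (Subgroup.mem_subgroupOf.mp hu)).symm
  have hZc : Nat.card (P.subgroupOf C) = ℓ := by
    rw [Nat.card_congr (Subgroup.subgroupOfEquivOfLe hPC).toEquiv, hPc]
  have hZi : ¬ ℓ ∣ (P.subgroupOf C).index :=
    fun hd => hPi (hd.trans (Subgroup.relIndex_dvd_index_of_normal P C))
  obtain ⟨e, q, hqe, hqZ, hq⟩ := exists_q (P.subgroupOf C) ℓ hZc hZi hz
  have hqq : ∀ x, q (q x) = q x := by
    intro x
    have h2 := hqZ _ (hq x)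
    rw [map_mul, map_inv] at h2
    exact (mul_inv_eq_one.mp h2).symm
  have hk : ∀ x, q x = 1 ↔ x ∈ P.subgroupOf C := by
    intro x
    refine ⟨fun h => ?_, hqZ x⟩
    have h2 := hq x
    rwa [h, inv_one, mul_one] at h2
  have hqd : ∀ (g : H) (x : C), q (MulAut.conjNormal g x) = MulAut.conjNormal g (q x) := by
    intro g x
    rw [hqe, hqe, map_pow]
  let j : C →* N := Subgroup.inclusion hCN
  let c : N →* MulAut C := (MulAut.conjNormal (H := C)).comp N.subtype
  let p : N →* N ⧸ C.subgroupOf N := QuotientGroup.mk' (C.subgroupOf N)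
  have hcl : ClG j c p := by
    refine ⟨Subgroup.inclusion_injective hCN, fun y a => Subtype.ext rfl, fun y => ?_⟩
    change ((y : N) : N ⧸ C.subgroupOf N) = 1 ↔ _
    rw [QuotientGroup.eq_one_iff, Subgroup.mem_subgroupOf]
    constructor
    · intro h
      exact ⟨⟨y, h⟩, rfl⟩
    · rintro ⟨a, rfl⟩
      exact a.2
  obtain ⟨θ, hθ, hθu⟩ := CLG.exists_under j hψ
  obtain ⟨θ1, hθ1, hθ1u⟩ := CLG.exists_under j hψ'
  obtain ⟨y, hy⟩ := block hcl hz 𝔐 ℓ hℓ hZc hZi q hq hqq hk (fun y x => hqd y x) hψ hψ' hθ hθ1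
    hθu hθ1u (by
      intro a ha hi h0
      apply hwt a ha hi
      rintro x ⟨u, hu, hxu⟩
      apply h0
      rintro ⟨a, rfl⟩
      exact hxu (((hCmem _).mp a.2).1 u hu))
  have hθ' : IsIrr (cfn c θ1 y⁻¹) := hθ1.cfn _
  have hθ'u : ip (resj j ψ') (cfn c θ1 y⁻¹) ≠ 0 := by
    rw [SUMM.ip_cfn hcl hψ']
    exact hθ1u
  have hqθ : ∀ x, θ (q x) = cfn c θ1 y⁻¹ (q x) := by
    intro x
    have h2 : cfn c θ1 y⁻¹ (q x) = θ1 (q (c y⁻¹ x)) := congrArg θ1 (hqd _ x).symm
    rw [h2, hy, ← MulAut.mul_apply, ← map_mul, mul_inv_cancel, map_one, MulAut.one_apply]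
  set θ' : C → ℂ := cfn c θ1 y⁻¹ with hθ'def
  have ht := type_iff hPN hPC hCN hz ℓ hPc hZc hψ hθ hθu
  have ht' := type_iff hPN hPC hCN hz ℓ hPc hZc hψ' hθ' hθ'u
  have hcomm' : ∀ x y : N, (x : H) * y * (x : H)⁻¹ * (y : H)⁻¹ ∈ C := fun x y =>
    (hCmem _).mpr ⟨hcomm x y, mul_mem (mul_mem (mul_mem x.2 y.2) (inv_mem x.2)) (inv_mem y.2)⟩
  rcases lam_cases hz ℓ hZc hθ with hcase | ⟨hinj, hsum⟩
  · -- `P` is in the kernels
    have hcase' := ht'.mp (hker.mp (ht.mpr hcase))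
    have h11 : θ 1 = θ' 1 := by
      have := hqθ 1
      rwa [map_one] at this
    have heq : θ = θ' := by
      funext x
      refine eq_of_q hz hθ hθ' q hq (fun u hu => ?_) hqθ x
      rw [hcase u hu, hcase' u hu, h11]
    rw [← heq] at hθ'u
    obtain ⟨lam, hlam, hlam'⟩ := abl h1 hCN hcomm' hψ hψ' hθ hθu hθ'u
    intro x z hxz
    have h2 : lam z = lam x := by
      have h3 : ((z * x⁻¹ : N) : H) ∈ C := by
        rw [hCmem]
        refine ⟨?_, (z * x⁻¹).2⟩
        have h4 : ((z * x⁻¹ : N) : H) = h * x * h⁻¹ * (x : H)⁻¹ := by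
          rw [← hxz]
          rfl
        rw [h4]
        exact hcomm h x
      have h4 := hlam _ h3
      rw [map_mul, map_inv] at h4
      exact mul_inv_eq_one.mp h4
    rw [hlam', hlam', h2, hh x z hxz]
  · -- `P` is in no kernel
    have hsum' : ∑ u : P.subgroupOf C, θ' u = 0 := by
      rcases lam_cases hz ℓ hZc hθ' with h2 | ⟨-, h2⟩
      · exfalso
        have h3 := ht.mp (hker.mpr (ht'.mpr h2))
        have h4 : ∀ u ∈ P.subgroupOf C, u = 1 :=
          fun u hu => hinj u hu 1 (one_mem _) (h3 u hu)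
        have h5 : P.subgroupOf C = ⊥ := by
          rw [eq_bot_iff]
          intro u hu
          rw [h4 u hu]
          exact one_mem _
        rw [h5, Subgroup.card_bot] at hZc
        exact (Fact.out : ℓ.Prime).one_lt.ne hZc
      · exact h2
    have h0 : ∑ v : P, ψ' (Subgroup.inclusion hPN v) = 0 := by
      have h2 := sum_under hPN hPC hCN hz hψ' hθ' hθ'u
      rw [← sum_Z hPC θ', hsum', mul_zero] at h2
      exact (mul_eq_zero.mp h2).resolve_left hθ'.one_ne_zero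
    have hvan : ∀ x : N, (x : H) ∉ C → ψ' x = 0 := by
      intro x hx
      apply vanish hPN ℓ hPc hψ' h0 x
      intro h2
      exact hx ((hCmem _).mpr ⟨h2, x.2⟩)
    -- the conjugate of `θ`
    have hψh : ∀ x : C, resj j ψ (MulAut.conjNormal h x) = resj j ψ x :=
      fun x => hh (j x) (j (MulAut.conjNormal h x)) rfl
    have hθh : IsIrr (fun x : C => θ (MulAut.conjNormal h x)) :=
      hθ.comp_mulEquiv (MulAut.conjNormal h : C ≃* C)
    have hθhu : ip (resj j ψ) (fun x : C => θ (MulAut.conjNormal h x)) ≠ 0 := by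
      have h2 := BLKC.ip_comp_equiv (MulAut.conjNormal h : C ≃* C) (resj j ψ) θ
      rw [funext hψh] at h2
      rw [h2]
      exact hθu
    obtain ⟨n, hn⟩ := SUMM.exists_conj hcl hθ hθh hψ hθu hθhu
    have hg : ∀ x : C, θ (MulAut.conjNormal (h * (n : H)⁻¹) x) = θ x := by
      intro x
      have h2 := congrFun hn (MulAut.conjNormal (n : H)⁻¹ x)
      rw [map_mul, MulAut.mul_apply]
      refine h2.symm.trans ?_
      change θ (MulAut.conjNormal (n : H) (MulAut.conjNormal (n : H)⁻¹ x)) = θ x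
      rw [← MulAut.mul_apply, ← map_mul, mul_inv_cancel, map_one, MulAut.one_apply]
    set g : H := h * (n : H)⁻¹ with hgdef
    have hgZ : ∀ u ∈ P.subgroupOf C, (MulAut.conjNormal g : MulAut C) u = u := by
      intro u hu
      refine hinj _ ?_ u hu (hg u)
      rw [Subgroup.mem_subgroupOf]
      exact (inferInstance : P.Normal).conj_mem _ (Subgroup.mem_subgroupOf.mp hu) g
    have hg' : ∀ x : C, θ' (MulAut.conjNormal g x) = θ' x := by
      intro x
      refine eq_of_q hz (hθ'.comp_mulEquiv (MulAut.conjNormal g : C ≃* C)) hθ' q hq ?_ ?_ x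
      · intro u hu
        change θ' ((MulAut.conjNormal g : MulAut C) u) = θ' u
        rw [hgZ u hu]
      · intro x
        change θ' ((MulAut.conjNormal g : MulAut C) (q x)) = θ' (q x)
        rw [← hqd, ← hqθ, ← hqθ, hqd, hg]
    have hψg : IsIrr (fun x : N => ψ' (MulAut.conjNormal g x)) :=
      hψ'.comp_mulEquiv (MulAut.conjNormal g : N ≃* N)
    have hψgu : ip (resj j (fun x : N => ψ' (MulAut.conjNormal g x))) θ' ≠ 0 := by
      have h2 := BLKC.ip_comp_equiv (MulAut.conjNormal g : C ≃* C) (resj j ψ') θ'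
      have h3 : (fun x : C => θ' ((MulAut.conjNormal g : C ≃* C) x)) = θ' := funext hg'
      rw [h3] at h2
      have h4 : resj j (fun x : N => ψ' (MulAut.conjNormal g x)) =
          fun x : C => resj j ψ' ((MulAut.conjNormal g : C ≃* C) x) := rfl
      rw [h4, h2]
      exact hθ'u
    obtain ⟨lam, hlam, hlam'⟩ := abl h1 hCN hcomm' hψ' hψg hθ' hθ'u hψgu
    have hfin : ∀ x : N, ψ' (MulAut.conjNormal g x) = ψ' x := by
      intro x
      by_cases hx : (x : H) ∈ C
      · have h2 := hlam' x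
        rw [hlam x hx, Units.val_one, mul_one] at h2
        exact h2
      · have h2 := hlam' x
        rw [hvan x hx, zero_mul] at h2
        rw [hvan x hx]
        exact h2
    intro x z hxz
    have h2 := hfin (n * x * n⁻¹)
    rw [hψ'.conj_eq] at h2
    rw [← h2]
    congr 1
    apply Subtype.ext
    rw [hxz]
    change _ = g * (n * x * (n : H)⁻¹) * g⁻¹
    rw [hgdef]
    group

end Pool.Agent.DPV


end

section

/-!
# TWOV: the stabilizers of the local characters of a block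
-/

namespace Pool.Agent.DPV

open Pool.Agent.DP Pool.Agent.Lib_helper13 Representation
open Pool.Agent.Lib_helper13.Dade (pCore DadeHolds dadeSum)

namespace TWOV

open Classical in
/-- extension by zero along an isomorphism -/
noncomputable def ex0 {G N : Type} [Group G] [Group N] {S : Subgroup G} (e : S ≃* N)
    (a : N → ℂ) (g : G) : ℂ := if h : g ∈ S then a (e ⟨g, h⟩) else 0

theorem ex0_mem {G N : Type} [Group G] [Group N] {S : Subgroup G} (e : S ≃* N)
    (a : N → ℂ) {g : G} (h : g ∈ S) : ex0 e a g = a (e ⟨g, h⟩) := by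
  rw [ex0, dif_pos h]

theorem ex0_not {G N : Type} [Group G] [Group N] {S : Subgroup G} (e : S ≃* N)
    (a : N → ℂ) {g : G} (h : g ∉ S) : ex0 e a g = 0 := by
  rw [ex0, dif_neg h]

theorem wt_tr {G N : Type} [Group G] [Fintype G] [Group N] [Fintype N] {S : Subgroup G}
    (e : S ≃* N) (ψ : G → ℂ) (a : N → ℂ) :
    wt (fun n => ψ (e.symm n : S)) a = wt ψ (ex0 e a) := by
  have h1 : ∑ n, a n * ψ (e.symm n : S) = ∑ g, ex0 e a g * ψ g := by
    apply Fintype.sum_of_injective (fun n : N => ((e.symm n : S) : G))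
      (fun x y hxy => e.symm.injective (Subtype.ext hxy))
    · intro g hg
      have h2 : g ∉ S := by
        intro h3
        apply hg
        refine ⟨e ⟨g, h3⟩, ?_⟩
        simp
      rw [ex0_not e a h2, zero_mul]
    · intro n
      have h2 : ((e.symm n : S) : G) ∈ S := (e.symm n).2
      rw [ex0_mem e a h2]
      have h3 : e ⟨((e.symm n : S) : G), h2⟩ = n := by
        have h4 : (⟨((e.symm n : S) : G), h2⟩ : S) = e.symm n := Subtype.ext rfl
        rw [h4, MulEquiv.apply_symm_apply]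
      rw [h3]
  have h5 : ((e.symm (1 : N) : S) : G) = 1 := by
    rw [map_one]
    rfl
  change (∑ n, a n * ψ (e.symm n : S)) / ψ ((e.symm (1 : N) : S) : G) =
    (∑ g, ex0 e a g * ψ g) / ψ 1
  rw [h1, h5]

section Main

variable {G B C : Type} [Group G] [Group B] [Group C] {ι : G →* B} {κ : B →* MulAut G}
  {ρ : B →* C}

theorem kap (cl : ClG ι κ ρ) (g x : G) : κ (ι g) x = g * x * g⁻¹ := by
  apply cl.inj
  rw [cl.act, map_mul, map_mul, map_inv]

/-- the normalizer of `P` in `B` -/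
def HH (κ : B →* MulAut G) (P : Subgroup G) : Subgroup B := Stx κ {P} (fun _ => 0)

theorem mem_HH {P : Subgroup G} {b : B} :
    b ∈ HH κ P ↔ P.map (κ b).toMonoidHom = P := by
  constructor
  · intro h
    exact h.1 P (Finset.mem_singleton_self P)
  · intro h
    refine ⟨fun D hD => ?_, fun g => rfl⟩
    rw [Finset.mem_singleton.mp hD]
    exact h

theorem mem_HH_iff {P : Subgroup G} {b : B} (hb : b ∈ HH κ P) (x : G) :
    κ b x ∈ P ↔ x ∈ P := by
  have h1 := mem_HH.mp hb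
  constructor
  · intro h
    rw [← h1] at h
    obtain ⟨y, hy, hyx⟩ := h
    have h2 : y = x := (κ b).injective hyx
    rw [← h2]
    exact hy
  · intro h
    rw [← h1]
    exact ⟨x, h, rfl⟩

theorem mem_stb1 {P : Subgroup G} {g : G} :
    g ∈ stb ({P} : Finset (Subgroup G)) ↔ ∀ x, x ∈ P ↔ g * x * g⁻¹ ∈ P := by
  rw [mem_stb']
  constructor
  · intro h
    exact h P (Finset.mem_singleton_self P)
  · intro h D hD
    rw [Finset.mem_singleton.mp hD]
    exact h

theorem stb_kap {P : Subgroup G} {b : B} (hb : b ∈ HH κ P) (g : G) :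
    κ b g ∈ stb ({P} : Finset (Subgroup G)) ↔ g ∈ stb ({P} : Finset (Subgroup G)) := by
  rw [mem_stb1, mem_stb1]
  constructor
  · intro h x
    have h1 := h (κ b x)
    rw [mem_HH_iff hb, ← map_inv, ← map_mul, ← map_mul, mem_HH_iff hb] at h1
    exact h1
  · intro h x
    obtain ⟨y, rfl⟩ := (κ b).surjective x
    rw [mem_HH_iff hb, ← map_inv, ← map_mul, ← map_mul, mem_HH_iff hb]
    exact h y

theorem map_stb_le (cl : ClG ι κ ρ) (P : Subgroup G) :
    (stb ({P} : Finset (Subgroup G))).map ι ≤ HH κ P := by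
  rintro _ ⟨g, hg, rfl⟩
  rw [mem_HH]
  have hg' := mem_stb1.mp hg
  ext x
  constructor
  · rintro ⟨y, hy, rfl⟩
    have h1 : (κ (ι g)).toMonoidHom y = g * y * g⁻¹ := kap cl g y
    rw [h1]
    exact (hg' y).mp hy
  · intro hx
    refine ⟨g⁻¹ * x * g, ?_, ?_⟩
    · have h2 := (hg' (g⁻¹ * x * g)).mpr
      apply h2
      have h3 : g * (g⁻¹ * x * g) * g⁻¹ = x := by group
      rw [h3]
      exact hx
    · have h1 : (κ (ι g)).toMonoidHom (g⁻¹ * x * g) = g * (g⁻¹ * x * g) * g⁻¹ :=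
        kap cl g _
      rw [h1]
      group

theorem P_le_stb (P : Subgroup G) : P ≤ stb ({P} : Finset (Subgroup G)) := by
  intro g hg
  rw [mem_stb1]
  intro x
  constructor
  · intro hx
    exact P.mul_mem (P.mul_mem hg hx) (P.inv_mem hg)
  · intro hx
    have h1 := P.mul_mem (P.mul_mem (P.inv_mem hg) hx) hg
    have h3 : g⁻¹ * (g * x * g⁻¹) * g = x := by group
    rw [h3] at h1
    exact h1

/-- `P` as a subgroup of its normalizer -/
def PP (ι : G →* B) (κ : B →* MulAut G) (P : Subgroup G) : Subgroup (HH κ P) :=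
  (P.map ι).subgroupOf (HH κ P)

/-- the normalizer of `P` in `G`, as a subgroup of the normalizer in `B` -/
def NS (ι : G →* B) (κ : B →* MulAut G) (P : Subgroup G) : Subgroup (HH κ P) :=
  ((stb ({P} : Finset (Subgroup G))).map ι).subgroupOf (HH κ P)

theorem PP_normal (cl : ClG ι κ ρ) (P : Subgroup G) : (PP ι κ P).Normal := by
  constructor
  rintro ⟨n, hn0⟩ hn ⟨b, hb⟩
  rw [PP, Subgroup.mem_subgroupOf] at hn ⊢
  obtain ⟨x, hx, hxn⟩ := hn
  refine ⟨κ b x, (mem_HH_iff hb x).mpr hx, ?_⟩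
  rw [cl.act, hxn]
  rfl

theorem NN_normal (cl : ClG ι κ ρ) (P : Subgroup G) : (NS ι κ P).Normal := by
  constructor
  rintro ⟨n, hn0⟩ hn ⟨b, hb⟩
  rw [NS, Subgroup.mem_subgroupOf] at hn ⊢
  obtain ⟨x, hx, hxn⟩ := hn
  refine ⟨κ b x, (stb_kap hb x).mpr hx, ?_⟩
  rw [cl.act, hxn]
  rfl

theorem card_PP (cl : ClG ι κ ρ) (P : Subgroup G) : Nat.card (PP ι κ P) = Nat.card P := by
  have h1 : P.map ι ≤ HH κ P :=
    le_trans (Subgroup.map_mono (P_le_stb P)) (map_stb_le cl P)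
  have h2 := Nat.card_congr (Subgroup.subgroupOfEquivOfLe h1).toEquiv
  have h3 := Nat.card_congr (P.equivMapOfInjective ι cl.inj).toEquiv
  rw [PP, h2, ← h3]

theorem card_B (cl : ClG ι κ ρ) (hs : Function.Surjective ρ) :
    Nat.card B = Nat.card G * Nat.card C := by
  have h1 : ρ.ker = ι.range := by
    ext x
    rw [MonoidHom.mem_ker, cl.ker]
  have h2 : ρ.ker.index = Nat.card C := by
    rw [Subgroup.index_ker, MonoidHom.range_eq_top.mpr hs]
    exact Nat.card_congr Subgroup.topEquiv.toEquiv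
  have h3 : Nat.card ρ.ker = Nat.card G := by
    rw [h1]
    exact (Nat.card_congr (MonoidHom.ofInjective cl.inj).toEquiv).symm
  rw [← Subgroup.card_mul_index ρ.ker, h2, h3]

theorem index_PP [Finite B] {ℓ : ℕ} (hℓ : ℓ.Prime) (cl : ClG ι κ ρ)
    (hs : Function.Surjective ρ) (hC : ¬ ℓ ∣ Nat.card C) (P : Subgroup G)
    (hP : Nat.card P = ℓ) (hi : ¬ ℓ ∣ P.index) : ¬ ℓ ∣ (PP ι κ P).index := by
  intro h
  have h1 : Nat.card (HH κ P) = ℓ * (PP ι κ P).index := by
    rw [← Subgroup.card_mul_index (PP ι κ P), card_PP cl, hP]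
  have h2 : Nat.card (HH κ P) ∣ Nat.card B := Subgroup.card_subgroup_dvd_card _
  have h3 : Nat.card B = ℓ * (P.index * Nat.card C) := by
    rw [card_B cl hs, ← Subgroup.card_mul_index P, hP, mul_assoc]
  have h4 : ℓ * ℓ ∣ ℓ * (P.index * Nat.card C) := by
    rw [← h3]
    refine dvd_trans ?_ h2
    rw [h1]
    exact Nat.mul_dvd_mul_left ℓ h
  have h5 : ℓ ∣ P.index * Nat.card C := Nat.dvd_of_mul_dvd_mul_left hℓ.pos h4
  rcases (Nat.Prime.dvd_mul hℓ).mp h5 with h6 | h6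
  · exact hi h6
  · exact hC h6

/-- the isomorphism -/
noncomputable def ee (cl : ClG ι κ ρ) (P : Subgroup G) :
    stb ({P} : Finset (Subgroup G)) ≃* NS ι κ P :=
  ((stb ({P} : Finset (Subgroup G))).equivMapOfInjective ι cl.inj).trans
    (Subgroup.subgroupOfEquivOfLe (map_stb_le cl P)).symm

theorem ee_coe (cl : ClG ι κ ρ) (P : Subgroup G) (s : stb ({P} : Finset (Subgroup G))) :
    (((ee cl P s : NS ι κ P) : HH κ P) : B) = ι s := rfl

end Main

end TWOV

open _root_.Pool.Agent.DPV.TWOV in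
theorem TWOV_thm (h1 : Stmt_TWH) (h2 : Stmt_BRV) : Stmt_TWOV := by
  intro G B C _ _ _ _ _ 𝔐 ℓ _ h𝔐 hℓ ι κ ρ hV hC P hP hi ψ ψ' hψ hψ' hcg htr
  have cl := hV.cl
  have hb2 := (h2 G B C 𝔐 ℓ h𝔐 hℓ ι κ ρ hV hC P hP hi).2 ψ ψ' hψ hψ' hcg
  apply Subgroup.map_mono
  intro b hb
  have hbH : b ∈ HH κ P := ⟨hb.1, fun _ => rfl⟩
  letI : Fintype (HH κ P) := Fintype.ofFinite _
  haveI := PP_normal cl P
  haveI := NN_normal cl P
  have hle : PP ι κ P ≤ NS ι κ P := by
    intro x hx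
    rw [NS, Subgroup.mem_subgroupOf]
    exact Subgroup.map_mono (P_le_stb P) hx
  have hirr : ∀ f : G → ℂ, IrrOn (stb ({P} : Finset (Subgroup G))) f →
      IsIrr (fun n : NS ι κ P => f ((ee cl P).symm n : stb ({P} : Finset (Subgroup G)))) := by
    intro f hf
    exact hf.1.comp_mulEquiv (ee cl P).symm
  have hsy : ∀ (g : G) (hg : g ∈ stb ({P} : Finset (Subgroup G))),
      (((ee cl P).symm (ee cl P ⟨g, hg⟩) : stb ({P} : Finset (Subgroup G))) : G) = g := by
    intro g hg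
    rw [MulEquiv.symm_apply_apply]
  have hsy1 : (((ee cl P).symm 1 : stb ({P} : Finset (Subgroup G))) : G) = 1 := by
    rw [map_one]
    rfl
  have htriv : ∀ f : G → ℂ, (∀ u : NS ι κ P, (u : HH κ P) ∈ PP ι κ P →
      f ((ee cl P).symm u : stb ({P} : Finset (Subgroup G))) =
        f ((ee cl P).symm 1 : stb ({P} : Finset (Subgroup G)))) ↔ ∀ u ∈ P, f u = f 1 := by
    intro f
    constructor
    · intro h u hu
      have hus := P_le_stb P hu
      have h3 := h (ee cl P ⟨u, hus⟩) ⟨u, hu, rfl⟩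
      rw [hsy, hsy1] at h3
      exact h3
    · intro h u hu
      rw [hsy1]
      apply h
      obtain ⟨s, rfl⟩ := (ee cl P).surjective u
      rw [MulEquiv.symm_apply_apply]
      obtain ⟨x, hx, hxs⟩ := hu
      have h4 : ι x = ι s := hxs
      have h5 : x = s := cl.inj h4
      rw [← h5]
      exact hx
  have key := h1 (HH κ P) 𝔐 ℓ h𝔐 hℓ (PP ι κ P) (NS ι κ P) (by rw [card_PP cl, hP])
    (index_PP (Fact.out) cl hV.surj hC P hP hi) hle
    (fun n => ψ ((ee cl P).symm n : stb ({P} : Finset (Subgroup G))))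
    (fun n => ψ' ((ee cl P).symm n : stb ({P} : Finset (Subgroup G))))
    (hirr ψ hψ) (hirr ψ' hψ')
    (by
      intro a ha1 ha2 ha3
      rw [wt_tr (ee cl P) ψ a, wt_tr (ee cl P) ψ' a]
      apply hb2
      · intro n hn x
        by_cases hx : x ∈ stb ({P} : Finset (Subgroup G))
        · have hx' : n * x * n⁻¹ ∈ stb ({P} : Finset (Subgroup G)) :=
            Subgroup.mul_mem _ (Subgroup.mul_mem _ hn hx) (Subgroup.inv_mem _ hn)
          rw [ex0_mem _ a hx, ex0_mem _ a hx']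
          have h3 : ee cl P ⟨n * x * n⁻¹, hx'⟩ =
              ee cl P ⟨n, hn⟩ * ee cl P ⟨x, hx⟩ * (ee cl P ⟨n, hn⟩)⁻¹ := by
            rw [← map_inv, ← map_mul, ← map_mul]
            rfl
          rw [h3, ha1]
        · have hx' : n * x * n⁻¹ ∉ stb ({P} : Finset (Subgroup G)) := by
            intro h3
            apply hx
            have h4 := Subgroup.mul_mem _ (Subgroup.mul_mem _ (Subgroup.inv_mem _ hn) h3) hn
            have h5 : n⁻¹ * (n * x * n⁻¹) * n = x := by group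
            rw [h5] at h4
            exact h4
          rw [ex0_not _ a hx, ex0_not _ a hx']
      · intro x
        by_cases hx : x ∈ stb ({P} : Finset (Subgroup G))
        · rw [ex0_mem _ a hx]
          exact ha2 _
        · rw [ex0_not _ a hx]
          exact isIntegral_zero
      · intro x hxc
        by_cases hx : x ∈ stb ({P} : Finset (Subgroup G))
        · rw [ex0_mem _ a hx]
          apply ha3
          rw [Subgroup.mem_centralizer_iff] at hxc
          push Not at hxc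
          obtain ⟨u, hu, hne⟩ := hxc
          have hus : ι u ∈ HH κ P :=
            map_stb_le cl P (Subgroup.mem_map_of_mem ι (P_le_stb P hu))
          refine ⟨⟨ι u, hus⟩, ⟨u, hu, rfl⟩, ?_⟩
          intro h3
          apply hne
          apply cl.inj
          have h4 := congrArg (fun z : HH κ P => (z : B)) h3
          rw [map_mul, map_mul]
          exact h4.symm
        · exact ex0_not _ a hx)
    ((htriv ψ).trans (htr.trans (htriv ψ').symm)) ⟨b, hbH⟩
    (by
      intro x y hxy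
      obtain ⟨s, rfl⟩ := (ee cl P).surjective x
      obtain ⟨t, rfl⟩ := (ee cl P).surjective y
      rw [MulEquiv.symm_apply_apply, MulEquiv.symm_apply_apply]
      have h3 := congrArg (fun z : HH κ P => (z : B)) hxy
      have h4 : ι (t : G) = b * ι (s : G) * b⁻¹ := h3
      rw [← cl.act] at h4
      rw [cl.inj h4]
      exact hb.2 _)
  refine ⟨hb.1, fun g => ?_⟩
  by_cases hg : g ∈ stb ({P} : Finset (Subgroup G))
  · have hg' := (stb_kap hbH g).mpr hg
    have h3 := key (ee cl P ⟨g, hg⟩) (ee cl P ⟨κ b g, hg'⟩) (by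
      apply Subtype.ext
      exact cl.act b g)
    rw [hsy, hsy] at h3
    exact h3
  · have hg' : κ b g ∉ stb ({P} : Finset (Subgroup G)) := fun h => hg ((stb_kap hbH g).mp h)
    rw [hψ'.2 _ hg, hψ'.2 _ hg']

end Pool.Agent.DPV


end

section

/-!
# Theorem W, module RPRB: the representations of the block are relatively projective
-/

namespace Pool.Agent.DPW

open Pool.Agent.DPB Pool.Agent.Lib_helper13 Representation

namespace RPRB

section count

variable {T : Type} [Group T] (P : Subgroup T) (x₀ : T)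

theorem conj_mul (hc : ∀ u ∈ P, u * x₀ = x₀ * u) (a p : T) (hp : p ∈ P) :
    (a * p) * x₀ * (a * p)⁻¹ = a * x₀ * a⁻¹ := by
  have h := hc p hp
  calc (a * p) * x₀ * (a * p)⁻¹ = a * (p * x₀) * p⁻¹ * a⁻¹ := by group
    _ = a * x₀ * a⁻¹ := by rw [h]; group

theorem out_mem (t : T) : ((t : T ⧸ P)).out⁻¹ * t ∈ P :=
  QuotientGroup.eq.1 (QuotientGroup.out_eq' (t : T ⧸ P))

theorem out_conj (hc : ∀ u ∈ P, u * x₀ = x₀ * u) (t : T) :
    ((t : T ⧸ P)).out * x₀ * ((t : T ⧸ P)).out⁻¹ = t * x₀ * t⁻¹ := by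
  have h := conj_mul P x₀ hc ((t : T ⧸ P)).out _ (out_mem P t)
  rw [mul_inv_cancel_left] at h
  exact h.symm

/-- The elements conjugating `x₀` to a given conjugate, by cosets of `P`. -/
noncomputable def e1 (hc : ∀ u ∈ P, u * x₀ = x₀ * u) (h : T) :
    {q : T ⧸ P // q.out * x₀ * q.out⁻¹ = h} × P ≃ {t : T // t * x₀ * t⁻¹ = h} where
  toFun x := ⟨x.1.1.out * x.2, by rw [conj_mul P x₀ hc _ _ x.2.2]; exact x.1.2⟩
  invFun t := (⟨(t.1 : T ⧸ P), by rw [out_conj P x₀ hc]; exact t.2⟩,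
    ⟨((t.1 : T ⧸ P)).out⁻¹ * t.1, out_mem P t.1⟩)
  left_inv := by
    rintro ⟨⟨q, hq⟩, ⟨p, hp⟩⟩
    have h1 : ((q.out * p : T) : T ⧸ P) = q := by
      rw [QuotientGroup.mk_mul_of_mem _ hp, QuotientGroup.out_eq']
    have h2 : ((q.out * p : T) : T ⧸ P).out⁻¹ * (q.out * p) = p := by
      rw [h1, inv_mul_cancel_left]
    exact Prod.ext (Subtype.ext h1) (Subtype.ext h2)
  right_inv := by
    rintro ⟨t, ht⟩
    exact Subtype.ext (mul_inv_cancel_left _ _)

/-- The elements conjugating `x₀` to `g x₀ g⁻¹` form a coset of the centralizer. -/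
def e2 (g : T) : Subgroup.centralizer ({x₀} : Set T) ≃ {t : T // t * x₀ * t⁻¹ = g * x₀ * g⁻¹} where
  toFun c := ⟨g * c.1, by
    have h : c.1 * x₀ = x₀ * c.1 := Subgroup.mem_centralizer_singleton_iff.1 c.2
    calc g * c.1 * x₀ * (g * c.1)⁻¹ = g * (c.1 * x₀) * c.1⁻¹ * g⁻¹ := by group
      _ = g * x₀ * g⁻¹ := by rw [h]; group⟩
  invFun t := ⟨g⁻¹ * t.1, by
    rw [Subgroup.mem_centralizer_singleton_iff]
    have h : t.1 * x₀ * t.1⁻¹ = g * x₀ * g⁻¹ := t.2
    calc g⁻¹ * t.1 * x₀ = g⁻¹ * (t.1 * x₀ * t.1⁻¹) * t.1 := by group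
      _ = x₀ * (g⁻¹ * t.1) := by rw [h]; group⟩
  left_inv := by
    rintro ⟨c, hc⟩
    exact Subtype.ext (inv_mul_cancel_left _ _)
  right_inv := by
    rintro ⟨t, ht⟩
    exact Subtype.ext (mul_inv_cancel_left _ _)

open Classical in
theorem count [Fintype T] (hc : ∀ u ∈ P, u * x₀ = x₀ * u) (g : T) :
    (Finset.univ.filter (fun q : T ⧸ P => q.out * x₀ * q.out⁻¹ = g * x₀ * g⁻¹)).card *
      Nat.card P = Nat.card (Subgroup.centralizer ({x₀} : Set T)) := by
  rw [Nat.card_congr (e2 x₀ g), ← Nat.card_congr (e1 P x₀ hc (g * x₀ * g⁻¹)), Nat.card_prod]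
  congr 1
  rw [Nat.card_eq_fintype_card, Fintype.card_subtype]

end count

open Classical in
theorem sum_conj (ℓ : ℕ) [Fact ℓ.Prime] (F T V : Type) [Field F] [CharP F ℓ] [Group T] [Fintype T]
    [AddCommGroup V] [Module F V] (P : Subgroup T) (x₀ : T) (hP : Nat.card P = ℓ)
    (hc : ∀ u ∈ P, u * x₀ = x₀ * u)
    (hsq : ¬ ℓ ^ 2 ∣ Nat.card (Subgroup.centralizer ({x₀} : Set T)))
    (ρ : Representation F T V) : ∃ m : F, m ≠ 0 ∧
      ∑ q : T ⧸ P, ρ (q.out * x₀ * q.out⁻¹) = m • Zop ρ (clsF F x₀) := by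
  set m : ℕ := (Finset.univ.filter (fun q : T ⧸ P => q.out * x₀ * q.out⁻¹ = 1 * x₀ * 1⁻¹)).card
    with hm
  have hcount : ∀ g : T, (Finset.univ.filter
      (fun q : T ⧸ P => q.out * x₀ * q.out⁻¹ = g * x₀ * g⁻¹)).card * ℓ =
      Nat.card (Subgroup.centralizer ({x₀} : Set T)) := by
    intro g
    have h := count P x₀ hc g
    rwa [hP] at h
  have hℓ : 0 < ℓ := (Fact.out : ℓ.Prime).pos
  have hN : ∀ g : T, (Finset.univ.filter
      (fun q : T ⧸ P => q.out * x₀ * q.out⁻¹ = g * x₀ * g⁻¹)).card = m := fun g =>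
    Nat.eq_of_mul_eq_mul_right hℓ ((hcount g).trans (hcount 1).symm)
  refine ⟨(m : F), ?_, ?_⟩
  · intro h0
    rw [CharP.cast_eq_zero_iff F ℓ] at h0
    obtain ⟨d, hd⟩ := h0
    apply hsq
    rw [← hcount 1, ← hm, hd]
    exact ⟨d, by ring⟩
  · have h1 : ∑ q : T ⧸ P, ρ (q.out * x₀ * q.out⁻¹) =
        ∑ h : T, ((Finset.univ.filter (fun q : T ⧸ P => q.out * x₀ * q.out⁻¹ = h)).card : F) •
          ρ h := by
      rw [← Finset.sum_fiberwise Finset.univ (fun q : T ⧸ P => q.out * x₀ * q.out⁻¹)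
        (fun q => ρ (q.out * x₀ * q.out⁻¹))]
      refine Finset.sum_congr rfl fun h _ => ?_
      rw [Finset.sum_congr rfl (g := fun _ => ρ h) (fun q hq => by
        rw [(Finset.mem_filter.1 hq).2]), Finset.sum_const, Nat.cast_smul_eq_nsmul]
    rw [h1]
    unfold Zop
    rw [Finset.smul_sum]
    refine Finset.sum_congr rfl fun h _ => ?_
    rw [smul_smul]
    congr 1
    unfold clsF
    by_cases hh : ∃ g, h = g * x₀ * g⁻¹
    · obtain ⟨g, rfl⟩ := hh
      rw [hN g, if_pos ⟨g, rfl⟩, mul_one]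
    · rw [if_neg hh, mul_zero, Finset.card_eq_zero.2, Nat.cast_zero]
      rw [Finset.filter_eq_empty_iff]
      intro q _ hq
      exact hh ⟨_, hq.symm⟩

section ops

variable {F T V : Type} [Field F] [Group T] [Fintype T] [AddCommGroup V] [Module F V]

theorem zop_cvF (ρ : Representation F T V) (a b : T → F) :
    Zop ρ (cvF a b) = Zop ρ a * Zop ρ b := by
  unfold Zop cvF
  rw [Finset.sum_mul]
  have h1 : ∀ y : T, (a y • ρ y) * ∑ z, b z • ρ z = ∑ x, (a y * b (y⁻¹ * x)) • ρ x := by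
    intro y
    rw [Finset.mul_sum]
    refine Fintype.sum_equiv (Equiv.mulLeft y) _ _ fun z => ?_
    rw [Equiv.coe_mulLeft, inv_mul_cancel_left, smul_mul_smul_comm, ← map_mul]
  rw [Finset.sum_congr rfl fun y _ => h1 y, Finset.sum_comm]
  refine Finset.sum_congr rfl fun x _ => ?_
  rw [Finset.sum_smul]

theorem zop_comm (ρ : Representation F T V) {y : T → F} (hy : y ∈ CF F T) (t : T) :
    Zop ρ y * ρ t = ρ t * Zop ρ y := by
  unfold Zop
  rw [Finset.sum_mul, Finset.mul_sum]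
  refine Fintype.sum_equiv (MulAut.conj t⁻¹).toEquiv _ _ fun h => ?_
  have h1 : y ((MulAut.conj t⁻¹).toEquiv h) = y h := hy t⁻¹ h
  rw [h1, smul_mul_assoc, mul_smul_comm, ← map_mul, ← map_mul]
  congr 2
  change h * t = t * (t⁻¹ * h * t⁻¹⁻¹)
  group

end ops

end RPRB

theorem RPRB_thm : Stmt_RPRB := by
  intro ℓ _ F T V _ _ _ _ _ _ P x₀ e hB ρ he
  obtain ⟨y, hy, hey⟩ := hB.fac
  obtain ⟨m, hm, hsum⟩ := RPRB.sum_conj ℓ F T V P x₀ hB.card hB.cen hB.sq ρ
  refine ⟨m⁻¹ • (ρ x₀ * Zop ρ y), ?_, ?_⟩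
  · intro p hp v
    have h1 : (ρ x₀ * Zop ρ y) * ρ p = ρ p * (ρ x₀ * Zop ρ y) := by
      rw [mul_assoc, RPRB.zop_comm ρ hy, ← mul_assoc, ← mul_assoc, ← map_mul, ← map_mul,
        hB.cen p hp]
    have h2 := LinearMap.congr_fun h1 v
    have h3 : (ρ x₀ * Zop ρ y) (ρ p v) = ρ p ((ρ x₀ * Zop ρ y) v) := h2
    rw [LinearMap.smul_apply, LinearMap.smul_apply, map_smul, h3]
  · unfold trC
    have h1 : ∀ q : T ⧸ P, ρ q.out ∘ₗ (m⁻¹ • (ρ x₀ * Zop ρ y)) ∘ₗ ρ q.out⁻¹ =
        m⁻¹ • (ρ (q.out * x₀ * q.out⁻¹) * Zop ρ y) := by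
      intro q
      change ρ q.out * ((m⁻¹ • (ρ x₀ * Zop ρ y)) * ρ q.out⁻¹) = _
      rw [smul_mul_assoc, mul_smul_comm, mul_assoc, RPRB.zop_comm ρ hy, map_mul, map_mul]
      simp only [mul_assoc]
    rw [Finset.sum_congr rfl fun q _ => h1 q, ← Finset.smul_sum, ← Finset.sum_mul, hsum,
      smul_mul_assoc, smul_smul, inv_mul_cancel₀ hm, one_smul, ← RPRB.zop_cvF, ← hey, he]

end Pool.Agent.DPW


end

section

/-!
# TWW: the stabilizers of the characters of a block of the normalizer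
-/

namespace Pool.Agent.DPW

open Pool.Agent.DP Pool.Agent.DPV Pool.Agent.Lib_helper13 Representation
open Pool.Agent.Lib_helper13.Dade (pCore DadeHolds dadeSum)

namespace TWW

section Deg

variable {A Y K : Type} [Group A] [Fintype A] [Group Y] [Fintype Y] [Group K]
  {j : A →* Y} {c : Y →* MulAut A} {p : Y →* K}

/-- The degree of a character over `θ`. -/
theorem deg_under (hc : ClG j c p) {θ : A → ℂ} (hθ : IsIrr θ) {χ : Y → ℂ} (hχ : IsIrr χ)
    (h : ip (resj j χ) θ ≠ 0) : ∃ e r : ℕ, 0 < e ∧ 0 < r ∧ χ 1 = e * r * θ 1 ∧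
      e ^ 2 * r * Nat.card A ≤ Nat.card Y := by
  classical
  obtain ⟨e, he⟩ := (hχ.resj j).exists_ip hθ.isChr
  have he0 : e ≠ 0 := by
    rintro rfl
    exact h (by rw [he]; simp)
  let F : Finset (A → ℂ) := (irrF A).filter (fun θ2 => ip (resj j χ) θ2 ≠ 0)
  have hF : ∀ θ2 ∈ F, IsIrr θ2 ∧ ip (resj j χ) θ2 = e ∧ θ2 1 = θ 1 := by
    intro θ2 hθ2
    obtain ⟨h1, h2⟩ := Finset.mem_filter.mp hθ2
    have h3 := mem_irrF.mp h1
    obtain ⟨y, rfl⟩ := SUMM.exists_conj hc hθ h3 hχ h h2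
    refine ⟨h3, ?_, cfn_deg θ y⟩
    rw [SUMM.ip_cfn hc hχ, he]
  have hθF : θ ∈ F := Finset.mem_filter.mpr ⟨mem_irrF.mpr hθ, h⟩
  refine ⟨e, F.card, Nat.pos_of_ne_zero he0, Finset.card_pos.mpr ⟨θ, hθF⟩, ?_, ?_⟩
  · have h1 := congrFun (class_fn_expand (resj j χ) (resj_class hχ)) 1
    have h2 : χ 1 = resj j χ 1 := by rw [resj, map_one]
    rw [h2, h1, ← Finset.sum_filter_ne_zero]
    have h3 : ∑ θ2 ∈ (irrF A).filter (fun θ2 => ip (resj j χ) θ2 * θ2 1 ≠ 0),
        ip (resj j χ) θ2 * θ2 1 = ∑ θ2 ∈ F, ip (resj j χ) θ2 * θ2 1 := by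
      refine Finset.sum_congr ?_ fun _ _ => rfl
      ext θ2
      rw [Finset.mem_filter, Finset.mem_filter]
      refine and_congr_right fun h4 => ?_
      have h5 := (mem_irrF.mp h4).one_ne_zero
      exact ⟨fun h6 h7 => h6 (by rw [h7, zero_mul]), fun h6 => mul_ne_zero h6 h5⟩
    rw [h3, Finset.sum_congr rfl fun θ2 hθ2 => by rw [(hF θ2 hθ2).2.1, (hF θ2 hθ2).2.2],
      Finset.sum_const, nsmul_eq_mul]
    ring
  · have h1 := CLG.sum_inert SUMM_thm hc hχ
    rw [← h1]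
    have h2 : ∀ θ2 ∈ F, e ^ 2 * Nat.card A ≤ Nat.card (inert c θ2) := by
      intro θ2 hθ2
      obtain ⟨h3, h4, -⟩ := hF θ2 hθ2
      have h5 := SUMM.sum_mult hc h3 h3
      have h6 : ∀ ψ : Y → ℂ, ∃ m : ℕ, IsIrr ψ → ip (resj j ψ) θ2 = m := by
        intro ψ
        by_cases hψ : IsIrr ψ
        · obtain ⟨m, hm⟩ := (hψ.resj j).exists_ip h3.isChr
          exact ⟨m, fun _ => hm⟩
        · exact ⟨0, fun h => absurd h hψ⟩
      choose m hm using h6
      have h7 : (Nat.card A : ℂ) * ∑ ψ ∈ irrF Y, ip (resj j ψ) θ2 * ip (resj j ψ) θ2 =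
          ((Nat.card A * ∑ ψ ∈ irrF Y, m ψ * m ψ : ℕ) : ℂ) := by
        push_cast
        congr 1
        exact Finset.sum_congr rfl fun ψ hψ => by rw [hm ψ (mem_irrF.mp hψ)]
      rw [h7] at h5
      have h8 : Nat.card A * ∑ ψ ∈ irrF Y, m ψ * m ψ =
          (Finset.univ.filter (fun y : Y => cfn c θ2 y = θ2)).card := by exact_mod_cast h5
      have h9 : (Finset.univ.filter (fun y : Y => cfn c θ2 y = θ2)).card =
          Nat.card (inert c θ2) := by
        rw [Nat.card_eq_fintype_card, Fintype.card_subtype]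
        congr 1
        ext y
        rw [Finset.mem_filter, Finset.mem_filter]
        refine and_congr_right fun _ => ?_
        exact ⟨fun h a => congrFun h a, fun h => funext h⟩
      have h10 : m χ = e := by
        have := hm χ hχ
        rw [h4] at this
        exact_mod_cast this.symm
      have h11 : e ^ 2 ≤ ∑ ψ ∈ irrF Y, m ψ * m ψ := by
        rw [pow_two, ← h10]
        exact Finset.single_le_sum (f := fun ψ => m ψ * m ψ) (fun _ _ => Nat.zero_le _)
          (mem_irrF.mpr hχ)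
      rw [← h9, ← h8, mul_comm]
      exact Nat.mul_le_mul_left _ h11
    have h3 := Finset.card_nsmul_le_sum F _ _ h2
    rw [smul_eq_mul] at h3
    calc e ^ 2 * F.card * Nat.card A = F.card * (e ^ 2 * Nat.card A) := by ring
      _ ≤ _ := h3

end Deg

/-- The index of the centralizer. -/
theorem index_lt {H : Type} [Group H] [Finite H] (P N C : Subgroup H) [P.Normal] {ℓ : ℕ}
    [hl : Fact ℓ.Prime] (hPc : Nat.card P = ℓ) (hCN : C ≤ N)
    (hC : ∀ x ∈ N, (∀ u ∈ P, x * u = u * x) → x ∈ C) :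
    ∃ q : ℕ, 0 < q ∧ q < ℓ ∧ Nat.card N = q * Nat.card C := by
  have hcyc : IsCyclic P := isCyclic_of_prime_card hPc
  let f : N →* MulAut P := (MulAut.conjNormal (H := P)).comp N.subtype
  have hker : f.ker ≤ C.subgroupOf N := by
    intro x hx
    rw [MonoidHom.mem_ker] at hx
    rw [Subgroup.mem_subgroupOf]
    refine hC x x.2 fun u hu => ?_
    have h1 : ((f x) ⟨u, hu⟩ : H) = u := by
      rw [hx]
      rfl
    have h2 : (x : H) * u * (x : H)⁻¹ = u := h1
    exact mul_inv_eq_iff_eq_mul.mp h2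
  have h1 : Nat.card (MulAut P) = ℓ - 1 := by
    have e1 := IsCyclic.mulAutMulEquiv P
    rw [hPc] at e1
    rw [Nat.card_congr e1.toEquiv, Nat.card_eq_fintype_card, ZMod.card_units]
  have h2 : f.ker.index ≤ ℓ - 1 := by
    rw [Subgroup.index_ker, ← h1]
    have : Finite (MulAut P) := inferInstance
    exact Subgroup.card_le_card_group _
  have h3 : (C.subgroupOf N).index ∣ f.ker.index := Subgroup.index_dvd_of_le hker
  have h4 : 0 < f.ker.index := Nat.pos_of_ne_zero Subgroup.index_ne_zero_of_finite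
  have h5 : (C.subgroupOf N).index ≤ ℓ - 1 := (Nat.le_of_dvd h4 h3).trans h2
  refine ⟨(C.subgroupOf N).index, Nat.pos_of_ne_zero Subgroup.index_ne_zero_of_finite, ?_, ?_⟩
  · have := hl.out.one_lt
    omega
  · have h6 := (C.subgroupOf N).index_mul_card
    rw [Nat.card_congr (Subgroup.subgroupOfEquivOfLe hCN).toEquiv] at h6
    exact h6.symm

/-- The defect of a character of the centralizer. -/
theorem defect {A Y K : Type} [Group A] [Fintype A] [Group Y] [Fintype Y] [Group K]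
    {j : A →* Y} {c : Y →* MulAut A} {p : Y →* K} (hc : ClG j c p) {ℓ : ℕ} [hl : Fact ℓ.Prime]
    {q : ℕ} (hq0 : 0 < q) (hq : q < ℓ) (hcard : Nat.card Y = q * Nat.card A)
    {θ : A → ℂ} (hθ : IsIrr θ) {χ : Y → ℂ} (hχ : IsIrr χ) (h : ip (resj j χ) θ ≠ 0)
    (hm : ∃ m : ℕ, ¬ ℓ ∣ m ∧ (Nat.card Y : ℂ) = ℓ * m * χ 1) :
    ∃ m : ℕ, ¬ ℓ ∣ m ∧ (Nat.card A : ℂ) = ℓ * m * θ 1 := by
  obtain ⟨e, r, he, hr, h1, h2⟩ := deg_under hc hθ hχ h
  obtain ⟨m, hm0, hm1⟩ := hm
  obtain ⟨n, hn, hn1⟩ := hθ.exists_degree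
  obtain ⟨k, hk⟩ := hθ.degree_dvd hn1
  have hA : 0 < Nat.card A := Nat.card_pos
  have h3 : e ^ 2 * r ≤ q := by
    rw [hcard] at h2
    exact Nat.le_of_mul_le_mul_right h2 hA
  have h4 : ¬ ℓ ∣ e := by
    intro hd
    have h5 := Nat.le_of_dvd he hd
    have h6 : e ≤ e ^ 2 * r := by
      calc e = e * 1 * 1 := by ring
        _ ≤ e * e * r := Nat.mul_le_mul (Nat.mul_le_mul_left _ he) hr
        _ = e ^ 2 * r := by ring
    omega
  have h5 : ¬ ℓ ∣ r := by
    intro hd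
    have h5 := Nat.le_of_dvd hr hd
    have h6 : r ≤ e ^ 2 * r := by
      calc r = 1 * r := by ring
        _ ≤ e ^ 2 * r := Nat.mul_le_mul_right _ (pow_pos he 2)
    omega
  have h6 : ¬ ℓ ∣ q := fun hd => absurd (Nat.le_of_dvd hq0 hd) (not_le.mpr hq)
  have h7 : q * k = ℓ * (m * e * r) := by
    have h8 : ((q * (n * k) : ℕ) : ℂ) = ((ℓ * (m * e * r) * n : ℕ) : ℂ) := by
      rw [← hk, ← hcard, hm1, h1, hn1]
      push_cast
      ring
    have h9 : q * (n * k) = ℓ * (m * e * r) * n := by exact_mod_cast h8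
    have h10 : n * (q * k) = n * (ℓ * (m * e * r)) := by
      calc n * (q * k) = q * (n * k) := by ring
        _ = ℓ * (m * e * r) * n := h9
        _ = n * (ℓ * (m * e * r)) := by ring
    exact Nat.eq_of_mul_eq_mul_left hn h10
  have h8 : ℓ ∣ k := by
    have h9 : ℓ ∣ q * k := by
      rw [h7]
      exact dvd_mul_right _ _
    exact (hl.out.dvd_mul.mp h9).resolve_left h6
  obtain ⟨m', rfl⟩ := h8
  refine ⟨m', ?_, ?_⟩
  · intro hd
    have h9 : q * m' = m * e * r := by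
      apply Nat.eq_of_mul_eq_mul_left hl.out.pos
      rw [← h7]
      ring
    have h10 : ℓ ∣ m * e * r := by
      rw [← h9]
      exact hd.mul_left q
    rcases hl.out.dvd_mul.mp h10 with h11 | h11
    · rcases hl.out.dvd_mul.mp h11 with h12 | h12
      · exact hm0 h12
      · exact h4 h12
    · exact h5 h11
  · rw [hk, hn1]
    push_cast
    ring

/-- The central function and automorphisms. -/
theorem cen_aut {A : Type} [Group A] [Fintype A] (𝔐 : Ideal (integralClosure ℤ ℂ))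
    (θ : A → ℂ) (σ : MulAut A) (g : A) :
    cen 𝔐 (MonoidHom.id A) (fun x => θ (σ x)) g = cen 𝔐 (MonoidHom.id A) θ (σ g) := by
  rw [cen, cen, ← wt_comp_equiv (σ : A ≃* A) θ (fun y => conjInd (MonoidHom.id A y) (σ g))]
  congr 2
  funext y
  refine conjInd_congr ⟨fun h => ?_, fun h => ?_⟩
  · obtain ⟨a, ha⟩ := isConj_iff.mp h
    refine isConj_iff.mpr ⟨σ a, ?_⟩
    change σ a * σ y * (σ a)⁻¹ = σ g
    rw [← map_mul, ← map_inv, ← map_mul]
    exact congrArg σ ha
  · obtain ⟨a, ha⟩ := isConj_iff.mp h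
    refine isConj_iff.mpr ⟨σ⁻¹ a, ?_⟩
    apply σ.injective
    rw [map_mul, map_mul, map_inv]
    have h1 : σ (σ⁻¹ a) = a := MulAut.apply_inv_self _ _ _
    rw [h1]
    exact ha

end TWW

open _root_.Pool.Agent.DPW.TWW in
/-- TWW: the stabilizers of the characters of a block of the normalizer. -/
theorem TWW_thm (h1 : Stmt_UNQ) (h2 : Stmt_COVW) : Stmt_TWW := by
  intro H _ _ 𝔐 ℓ _ h𝔐 hℓ P N _ _ hPc hPN ψ ψ' hψ hψ' hdf hdf' hcen hker h hh
  classical
  let C : Subgroup H := Subgroup.centralizer (P : Set H) ⊓ N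
  have hCmem : ∀ x, x ∈ C ↔ (∀ u ∈ P, x * u = u * x) ∧ x ∈ N := by
    intro x
    rw [Subgroup.mem_inf, Subgroup.mem_centralizer_iff]
    exact ⟨fun h => ⟨fun u hu => (h.1 u hu).symm, h.2⟩, fun h => ⟨fun u hu => (h.1 u hu).symm, h.2⟩⟩
  have hCN : C ≤ N := inf_le_right
  have hcyc : IsCyclic P := isCyclic_of_prime_card hPc
  have hPab : ∀ u ∈ P, ∀ v ∈ P, u * v = v * u := by
    intro u hu v hv
    have hcg : ∀ a b : P, a * b = b * a := by
      let _ := IsCyclic.commGroup (α := P)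
      exact mul_comm
    exact congrArg Subtype.val (hcg ⟨u, hu⟩ ⟨v, hv⟩)
  have hPC : P ≤ C := fun u hu => (hCmem u).mpr ⟨fun v hv => hPab u hu v hv, hPN hu⟩
  have hCn : C.Normal := by
    constructor
    intro x hx g
    rw [hCmem] at hx ⊢
    refine ⟨fun u hu => ?_, (inferInstance : N.Normal).conj_mem x hx.2 g⟩
    have h2 : g⁻¹ * u * g ∈ P := by
      have := (inferInstance : P.Normal).conj_mem u hu g⁻¹
      rwa [inv_inv] at this
    have h3 := hx.1 _ h2
    calc g * x * g⁻¹ * u = g * (x * (g⁻¹ * u * g)) * g⁻¹ := by group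
      _ = u * (g * x * g⁻¹) := by rw [h3]; group
  have hcomm := TWH.comm_act P ℓ hPc
  have hz : ∀ u ∈ P.subgroupOf C, ∀ x : C, u * x = x * u := by
    intro u hu x
    apply Subtype.ext
    exact (((hCmem _).mp x.2).1 u (Subgroup.mem_subgroupOf.mp hu)).symm
  have hZc : Nat.card (P.subgroupOf C) = ℓ := by
    rw [Nat.card_congr (Subgroup.subgroupOfEquivOfLe hPC).toEquiv, hPc]
  obtain ⟨q, hq0, hq, hcard⟩ := index_lt P N C hPc hCN (fun x hx hx' => (hCmem x).mpr ⟨hx', hx⟩)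
  let j : C →* N := Subgroup.inclusion hCN
  let c : N →* MulAut C := (MulAut.conjNormal (H := C)).comp N.subtype
  let p : N →* N ⧸ C.subgroupOf N := QuotientGroup.mk' (C.subgroupOf N)
  have hcl : ClG j c p := by
    refine ⟨Subgroup.inclusion_injective hCN, fun y a => Subtype.ext rfl, fun y => ?_⟩
    change ((y : N) : N ⧸ C.subgroupOf N) = 1 ↔ _
    rw [QuotientGroup.eq_one_iff, Subgroup.mem_subgroupOf]
    constructor
    · intro h
      exact ⟨⟨y, h⟩, rfl⟩
    · rintro ⟨a, rfl⟩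
      exact a.2
  obtain ⟨θ, hθ, hθu⟩ := CLG.exists_under j hψ
  obtain ⟨θ1, hθ1, hθ1u⟩ := CLG.exists_under j hψ'
  -- the characters `θ` and `θ1` agree on the invariant functions
  have hinv : ∀ a : C → ℂ, (∀ (y : N) (x : C), a (c y x) = a x) → (∀ x, IsIntegral ℤ (a x)) →
      red 𝔐 (wt θ a) = red 𝔐 (wt θ1 a) := by
    intro a ha hi
    let b : N → ℂ := fun y => if hy : (y : H) ∈ C then a ⟨y, hy⟩ else 0
    have hbj : ∀ x : C, b (j x) = a x := fun x => dif_pos x.2
    have hb0 : ∀ y, y ∉ j.range → b y = 0 := by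
      intro y hy
      refine dif_neg fun hyC => hy ⟨⟨y, hyC⟩, ?_⟩
      exact Subtype.ext rfl
    have hbc : ∀ g x : N, b (g * x * g⁻¹) = b x := by
      intro g x
      by_cases hx : (x : H) ∈ C
      · have h3 : g * x * g⁻¹ = j (c g ⟨x, hx⟩) := Subtype.ext rfl
        have h4 : x = j ⟨x, hx⟩ := Subtype.ext rfl
        rw [h3, hbj, ha, ← hbj, ← h4]
      · have hx' : ((g * x * g⁻¹ : N) : H) ∉ C := by
          intro h3
          apply hx
          have h4 := hCn.conj_mem _ h3 (g : H)⁻¹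
          have h5 : (g : H)⁻¹ * ((g * x * g⁻¹ : N) : H) * ((g : H)⁻¹)⁻¹ = x := by
            change (g : H)⁻¹ * ((g : H) * x * (g : H)⁻¹) * ((g : H)⁻¹)⁻¹ = x
            group
          rwa [h5] at h4
        have e1 : b (g * x * g⁻¹) = 0 := dif_neg hx'
        have e2 : b x = 0 := dif_neg hx
        rw [e1, e2]
    have hbi : ∀ x, IsIntegral ℤ (b x) := by
      intro x
      by_cases hx : (x : H) ∈ C
      · have e1 : b x = a ⟨x, hx⟩ := dif_pos hx
        rw [e1]
        exact hi _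
      · have e1 : b x = 0 := dif_neg hx
        rw [e1]
        exact isIntegral_zero
    have h3 := SUMM.wt_eq hcl hθ hψ hθu b hbc hb0
    have h4 := SUMM.wt_eq hcl hθ1 hψ' hθ1u b hbc hb0
    have h5 : (fun k => b (j k)) = a := funext hbj
    rw [h5] at h3 h4
    rw [← h3, ← h4]
    have h6 := red_wt_eq_pair 𝔐 (MonoidHom.id N) hψ b hbc hbi
    have h7 := red_wt_eq_pair 𝔐 (MonoidHom.id N) hψ' b hbc hbi
    rw [← hcen, ← h6] at h7
    exact h7.symm
  obtain ⟨y, hy⟩ := h2 C N (N ⧸ C.subgroupOf N) 𝔐 ℓ h𝔐 hℓ j c p hcl θ θ1 hθ hθ1 hinv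
  have hθ' : IsIrr (cfn c θ1 y) := hθ1.cfn _
  have hθ'u : ip (resj j ψ') (cfn c θ1 y) ≠ 0 := by
    rw [SUMM.ip_cfn hcl hψ']
    exact hθ1u
  have hcθ : cen 𝔐 (MonoidHom.id C) (cfn c θ1 y) = cen 𝔐 (MonoidHom.id C) θ := hy
  set θ' : C → ℂ := cfn c θ1 y with hθ'def
  have hdθ := defect hcl hq0 hq hcard hθ hψ hθu hdf
  have hdθ' := defect hcl hq0 hq hcard hθ' hψ' hθ'u hdf'
  have ht := TWH.type_iff hPN hPC hCN hz ℓ hPc hZc hψ hθ hθu
  have ht' := TWH.type_iff hPN hPC hCN hz ℓ hPc hZc hψ' hθ' hθ'u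
  have hcomm' : ∀ x y : N, (x : H) * y * (x : H)⁻¹ * (y : H)⁻¹ ∈ C := fun x y =>
    (hCmem _).mpr ⟨hcomm x y, mul_mem (mul_mem (mul_mem x.2 y.2) (inv_mem x.2)) (inv_mem y.2)⟩
  rcases TWH.lam_cases hz ℓ hZc hθ with hcase | ⟨hinj, hsum⟩
  · -- `P` is in the kernels
    have hcase' := ht'.mp (hker.mp (ht.mpr hcase))
    have heq : θ = θ' := by
      refine h1 C 𝔐 ℓ h𝔐 hℓ (P.subgroupOf C) hZc hz θ θ' hθ hθ' hdθ ?_ hcθ.symm
      intro u hu
      rw [hcase u hu, hcase' u hu, mul_comm]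
    rw [← heq] at hθ'u
    obtain ⟨lam, hlam, hlam'⟩ := TWH.abl ABL_thm hCN hcomm' hψ hψ' hθ hθu hθ'u
    intro x z hxz
    have h2 : lam z = lam x := by
      have h3 : ((z * x⁻¹ : N) : H) ∈ C := by
        rw [hCmem]
        refine ⟨?_, (z * x⁻¹).2⟩
        have h4 : ((z * x⁻¹ : N) : H) = h * x * h⁻¹ * (x : H)⁻¹ := by
          rw [← hxz]
          rfl
        rw [h4]
        exact hcomm h x
      have h4 := hlam _ h3
      rw [map_mul, map_inv] at h4
      exact mul_inv_eq_one.mp h4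
    rw [hlam', hlam', h2, hh x z hxz]
  · -- `P` is in no kernel
    have hsum' : ∑ u : P.subgroupOf C, θ' u = 0 := by
      rcases TWH.lam_cases hz ℓ hZc hθ' with h2 | ⟨-, h2⟩
      · exfalso
        have h3 := ht.mp (hker.mpr (ht'.mpr h2))
        have h4 : ∀ u ∈ P.subgroupOf C, u = 1 :=
          fun u hu => hinj u hu 1 (one_mem _) (h3 u hu)
        have h5 : P.subgroupOf C = ⊥ := by
          rw [eq_bot_iff]
          intro u hu
          rw [h4 u hu]
          exact one_mem _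
        rw [h5, Subgroup.card_bot] at hZc
        exact (Fact.out : ℓ.Prime).one_lt.ne hZc
      · exact h2
    have h0 : ∑ v : P, ψ' (Subgroup.inclusion hPN v) = 0 := by
      have h2 := TWH.sum_under hPN hPC hCN hz hψ' hθ' hθ'u
      rw [← TWH.sum_Z hPC θ', hsum', mul_zero] at h2
      exact (mul_eq_zero.mp h2).resolve_left hθ'.one_ne_zero
    have hvan : ∀ x : N, (x : H) ∉ C → ψ' x = 0 := by
      intro x hx
      apply TWH.vanish hPN ℓ hPc hψ' h0 x
      intro h2
      exact hx ((hCmem _).mpr ⟨h2, x.2⟩)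
    -- the conjugate of `θ`
    have hψh : ∀ x : C, resj j ψ (MulAut.conjNormal h x) = resj j ψ x :=
      fun x => hh (j x) (j (MulAut.conjNormal h x)) rfl
    have hθh : IsIrr (fun x : C => θ (MulAut.conjNormal h x)) :=
      hθ.comp_mulEquiv (MulAut.conjNormal h : C ≃* C)
    have hθhu : ip (resj j ψ) (fun x : C => θ (MulAut.conjNormal h x)) ≠ 0 := by
      have h2 := BLKC.ip_comp_equiv (MulAut.conjNormal h : C ≃* C) (resj j ψ) θ
      rw [funext hψh] at h2
      rw [h2]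
      exact hθu
    obtain ⟨n, hn⟩ := SUMM.exists_conj hcl hθ hθh hψ hθu hθhu
    have hg : ∀ x : C, θ (MulAut.conjNormal (h * (n : H)⁻¹) x) = θ x := by
      intro x
      have h2 := congrFun hn (MulAut.conjNormal (n : H)⁻¹ x)
      rw [map_mul, MulAut.mul_apply]
      refine h2.symm.trans ?_
      change θ (MulAut.conjNormal (n : H) (MulAut.conjNormal (n : H)⁻¹ x)) = θ x
      rw [← MulAut.mul_apply, ← map_mul, mul_inv_cancel, map_one, MulAut.one_apply]
    set g : H := h * (n : H)⁻¹ with hgdef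
    have hgZ : ∀ u ∈ P.subgroupOf C, (MulAut.conjNormal g : MulAut C) u = u := by
      intro u hu
      refine hinj _ ?_ u hu (hg u)
      rw [Subgroup.mem_subgroupOf]
      exact (inferInstance : P.Normal).conj_mem _ (Subgroup.mem_subgroupOf.mp hu) g
    have hg' : ∀ x : C, θ' (MulAut.conjNormal g x) = θ' x := by
      have h3 : θ' = fun x : C => θ' ((MulAut.conjNormal g : MulAut C) x) := by
        refine h1 C 𝔐 ℓ h𝔐 hℓ (P.subgroupOf C) hZc hz θ' _ hθ'
          (hθ'.comp_mulEquiv (MulAut.conjNormal g : C ≃* C)) hdθ' ?_ ?_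
        · intro u hu
          rw [hgZ u hu, map_one]
        · funext x
          have h4 : (fun x : C => θ ((MulAut.conjNormal g : MulAut C) x)) = θ := funext hg
          rw [cen_aut, hcθ, ← cen_aut, h4]
      exact fun x => (congrFun h3 x).symm
    have hψg : IsIrr (fun x : N => ψ' (MulAut.conjNormal g x)) :=
      hψ'.comp_mulEquiv (MulAut.conjNormal g : N ≃* N)
    have hψgu : ip (resj j (fun x : N => ψ' (MulAut.conjNormal g x))) θ' ≠ 0 := by
      have h2 := BLKC.ip_comp_equiv (MulAut.conjNormal g : C ≃* C) (resj j ψ') θ'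
      have h3 : (fun x : C => θ' ((MulAut.conjNormal g : C ≃* C) x)) = θ' := funext hg'
      rw [h3] at h2
      have h4 : resj j (fun x : N => ψ' (MulAut.conjNormal g x)) =
          fun x : C => resj j ψ' ((MulAut.conjNormal g : C ≃* C) x) := rfl
      rw [h4, h2]
      exact hθ'u
    obtain ⟨lam, hlam, hlam'⟩ := TWH.abl ABL_thm hCN hcomm' hψ' hψg hθ' hθ'u hψgu
    have hfin : ∀ x : N, ψ' (MulAut.conjNormal g x) = ψ' x := by
      intro x
      by_cases hx : (x : H) ∈ C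
      · have h2 := hlam' x
        rw [hlam x hx, Units.val_one, mul_one] at h2
        exact h2
      · have h2 := hlam' x
        rw [hvan x hx, zero_mul] at h2
        rw [hvan x hx]
        exact h2
    intro x z hxz
    have h2 := hfin (n * x * n⁻¹)
    rw [hψ'.conj_eq] at h2
    rw [← h2]
    congr 1
    apply Subtype.ext
    rw [hxz]
    change _ = g * (n * x * (n : H)⁻¹) * g⁻¹
    rw [hgdef]
    group

end Pool.Agent.DPW


end

section

/-!
# Theorem X, module RPRX: the representations of the block are relatively projective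
-/

namespace Pool.Agent.DPX

open Pool.Agent.DPB Pool.Agent.DPW Pool.Agent.Lib_helper13 Representation

namespace RPRX

open Classical in
theorem sum_conj (ℓ n : ℕ) [Fact ℓ.Prime] (F T V : Type) [Field F] [CharP F ℓ] [Group T]
    [Fintype T] [AddCommGroup V] [Module F V] (P : Subgroup T) (x₀ : T)
    (hP : Nat.card P = ℓ ^ n) (hc : ∀ u ∈ P, u * x₀ = x₀ * u)
    (hsq : ¬ ℓ ^ (n + 1) ∣ Nat.card (Subgroup.centralizer ({x₀} : Set T)))
    (ρ : Representation F T V) : ∃ m : F, m ≠ 0 ∧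
      ∑ q : T ⧸ P, ρ (q.out * x₀ * q.out⁻¹) = m • Zop ρ (clsF F x₀) := by
  set m : ℕ := (Finset.univ.filter (fun q : T ⧸ P => q.out * x₀ * q.out⁻¹ = 1 * x₀ * 1⁻¹)).card
    with hm
  have hcount : ∀ g : T, (Finset.univ.filter
      (fun q : T ⧸ P => q.out * x₀ * q.out⁻¹ = g * x₀ * g⁻¹)).card * ℓ ^ n =
      Nat.card (Subgroup.centralizer ({x₀} : Set T)) := by
    intro g
    have h := RPRB.count P x₀ hc g
    rwa [hP] at h
  have hℓ : 0 < ℓ ^ n := pow_pos (Fact.out : ℓ.Prime).pos n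
  have hN : ∀ g : T, (Finset.univ.filter
      (fun q : T ⧸ P => q.out * x₀ * q.out⁻¹ = g * x₀ * g⁻¹)).card = m := fun g =>
    Nat.eq_of_mul_eq_mul_right hℓ ((hcount g).trans (hcount 1).symm)
  refine ⟨(m : F), ?_, ?_⟩
  · intro h0
    rw [CharP.cast_eq_zero_iff F ℓ] at h0
    obtain ⟨d, hd⟩ := h0
    apply hsq
    rw [← hcount 1, ← hm, hd]
    exact ⟨d, by ring⟩
  · have h1 : ∑ q : T ⧸ P, ρ (q.out * x₀ * q.out⁻¹) =
        ∑ h : T, ((Finset.univ.filter (fun q : T ⧸ P => q.out * x₀ * q.out⁻¹ = h)).card : F) •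
          ρ h := by
      rw [← Finset.sum_fiberwise Finset.univ (fun q : T ⧸ P => q.out * x₀ * q.out⁻¹)
        (fun q => ρ (q.out * x₀ * q.out⁻¹))]
      refine Finset.sum_congr rfl fun h _ => ?_
      rw [Finset.sum_congr rfl (g := fun _ => ρ h) (fun q hq => by
        rw [(Finset.mem_filter.1 hq).2]), Finset.sum_const, Nat.cast_smul_eq_nsmul]
    rw [h1]
    unfold Zop
    rw [Finset.smul_sum]
    refine Finset.sum_congr rfl fun h _ => ?_
    rw [smul_smul]
    congr 1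
    unfold clsF
    by_cases hh : ∃ g, h = g * x₀ * g⁻¹
    · obtain ⟨g, rfl⟩ := hh
      rw [hN g, if_pos ⟨g, rfl⟩, mul_one]
    · rw [if_neg hh, mul_zero, Finset.card_eq_zero.2, Nat.cast_zero]
      rw [Finset.filter_eq_empty_iff]
      intro q _ hq
      exact hh ⟨_, hq.symm⟩

end RPRX

theorem RPRX_thm : Stmt_RPRX := by
  intro ℓ n _ F T V _ _ _ _ _ _ P₁ P x₀ e hB ρ
  obtain ⟨y, hy, hey⟩ := hB.fac
  obtain ⟨m, hm, hsum⟩ := RPRX.sum_conj ℓ n F T V P x₀ hB.cd.card hB.cd.cen hB.cd.sq ρ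
  refine ⟨m⁻¹ • (ρ x₀ * Zop ρ y), ?_, ?_⟩
  · intro p hp v
    have h1 : (ρ x₀ * Zop ρ y) * ρ p = ρ p * (ρ x₀ * Zop ρ y) := by
      rw [mul_assoc, RPRB.zop_comm ρ hy, ← mul_assoc, ← mul_assoc, ← map_mul, ← map_mul,
        hB.cd.cen p hp]
    have h2 := LinearMap.congr_fun h1 v
    have h3 : (ρ x₀ * Zop ρ y) (ρ p v) = ρ p ((ρ x₀ * Zop ρ y) v) := h2
    rw [LinearMap.smul_apply, LinearMap.smul_apply, map_smul, h3]
  · unfold trC
    have h1 : ∀ q : T ⧸ P, ρ q.out ∘ₗ (m⁻¹ • (ρ x₀ * Zop ρ y)) ∘ₗ ρ q.out⁻¹ =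
        m⁻¹ • (ρ (q.out * x₀ * q.out⁻¹) * Zop ρ y) := by
      intro q
      change ρ q.out * ((m⁻¹ • (ρ x₀ * Zop ρ y)) * ρ q.out⁻¹) = _
      rw [smul_mul_assoc, mul_smul_comm, mul_assoc, RPRB.zop_comm ρ hy, map_mul, map_mul]
      simp only [mul_assoc]
    rw [Finset.sum_congr rfl fun q _ => h1 q, ← Finset.smul_sum, ← Finset.sum_mul, hsum,
      smul_mul_assoc, smul_smul, inv_mul_cancel₀ hm, one_smul, ← RPRB.zop_cvF, ← hey]

end Pool.Agent.DPX


end

section

/-!
# KEX: the idempotents `e` and `brz P₁ e` agree modulo projective maps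
-/

set_option autoImplicit false

namespace Pool.Agent.DPX

open Pool.Agent.DPB Pool.Agent.DPW Pool.Agent.Lib_helper13 Representation

namespace KEX

section gen

variable {F H V W : Type} [Field F] [Group H] [Fintype H] [AddCommGroup V] [Module F V]
  [AddCommGroup W] [Module F W]

theorem trS_apply (P : Subgroup H) (σ : Representation F H W) (ρ : Representation F H V)
    (g : W →ₗ[F] V) [DecidablePred (fun h => h ∈ P)] (w : W) :
    trS P σ ρ g w = ∑ h with h ∈ P, ρ h (g (σ h⁻¹ w)) := by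
  unfold trS
  rw [LinearMap.sum_apply, Finset.sum_filter]
  refine Finset.sum_congr rfl fun h _ => ?_
  by_cases hh : h ∈ P
  · rw [if_pos hh, if_pos hh]
    rfl
  · rw [if_neg hh, if_neg hh]
    rfl

theorem trC_trS (P : Subgroup H) (σ : Representation F H W) (ρ : Representation F H V)
    (g : W →ₗ[F] V) : trC P σ ρ (trS P σ ρ g) = tr1 σ ρ g := by
  classical
  ext w
  unfold trC tr1
  rw [LinearMap.sum_apply, LinearMap.sum_apply,
    ← Finset.sum_fiberwise Finset.univ (fun t : H => (t : H ⧸ P))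
      (fun h => (ρ h ∘ₗ g ∘ₗ σ h⁻¹) w)]
  refine Finset.sum_congr (by ext; simp) fun q _ => ?_
  rw [LinearMap.comp_apply, LinearMap.comp_apply, trS_apply, map_sum]
  refine Finset.sum_bij (fun h _ => q.out * h) ?_ ?_ ?_ ?_
  · intro h hh
    rw [Finset.mem_filter] at hh ⊢
    refine ⟨Finset.mem_univ _, ?_⟩
    rw [QuotientGroup.mk_mul_of_mem _ hh.2, QuotientGroup.out_eq']
  · intro a _ b _ hab
    exact mul_left_cancel hab
  · intro t ht
    rw [Finset.mem_filter] at ht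
    refine ⟨q.out⁻¹ * t, ?_, mul_inv_cancel_left _ _⟩
    rw [Finset.mem_filter]
    refine ⟨Finset.mem_univ _, ?_⟩
    rw [← ht.2]
    exact RPRB.out_mem P t
  · intro h _
    show ρ q.out (ρ h (g (σ h⁻¹ (σ q.out⁻¹ w)))) = ρ (q.out * h) (g (σ (q.out * h)⁻¹ w))
    rw [mul_inv_rev, map_mul, map_mul]
    rfl

theorem trS_add (P : Subgroup H) (σ : Representation F H W) (ρ : Representation F H V)
    (f g : W →ₗ[F] V) : trS P σ ρ (f + g) = trS P σ ρ f + trS P σ ρ g := by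
  classical
  ext w
  rw [LinearMap.add_apply, trS_apply, trS_apply, trS_apply, ← Finset.sum_add_distrib]
  refine Finset.sum_congr rfl fun h _ => ?_
  rw [LinearMap.add_apply, map_add]

/-- The sums of conjugates. -/
def RT (P : Subgroup H) (σ : Representation F H W) (ρ : Representation F H V) :
    AddSubmonoid (W →ₗ[F] V) where
  carrier := {m | ∃ g, m = trS P σ ρ g}
  zero_mem' := by
    classical
    refine ⟨0, ?_⟩
    ext w
    rw [trS_apply]
    simp
  add_mem' := by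
    rintro _ _ ⟨f, rfl⟩ ⟨g, rfl⟩
    exact ⟨f + g, (trS_add P σ ρ f g).symm⟩

/-- The group with the action by conjugation. -/
def Cj (T : Type) : Type := T

instance cjAct {T : Type} [Group T] (P : Subgroup T) : MulAction P (Cj T) where
  smul p x := ((p : T) * (show T from x) * (p : T)⁻¹ : T)
  one_smul x := by
    show (((1 : P) : T) * (show T from x) * ((1 : P) : T)⁻¹ : T) = x
    simp
  mul_smul p q x := by
    show (((p * q : P) : T) * (show T from x) * ((p * q : P) : T)⁻¹ : T) =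
      (p : T) * ((q : T) * (show T from x) * (q : T)⁻¹) * (p : T)⁻¹
    rw [Subgroup.coe_mul]
    group

instance cjFin {T : Type} [h : Fintype T] : Fintype (Cj T) := h

open Classical in
theorem sum_off (P P₁ : Subgroup H) (e : H → F) (he : e ∈ CF F H) (ρ : Representation F H V)
    (hcen : ∀ p ∈ P, p ∈ Subgroup.centralizer (P₁ : Set H))
    (hfr : ∀ p ∈ P, p ≠ 1 → P₁ ≤ Subgroup.zpowers p) :
    ∑ h with h ∉ Subgroup.centralizer (P₁ : Set H), e h • ρ h ∈ RT P ρ ρ := by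
  refine TRFB.sum_mem_free (P := P) (X := Cj H) (RT P ρ ρ)
    (fun x : Cj H => e (show H from x) • ρ (show H from x)) ?_ _
    (show Finset (Cj H) from
      (Finset.univ.filter (fun h : H => h ∉ Subgroup.centralizer (P₁ : Set H)) : Finset H))
    le_rfl ?_ ?_
  · intro x
    refine ⟨e (show H from x) • ρ (show H from x), ?_⟩
    ext v
    rw [LinearMap.sum_apply, trS_apply]
    symm
    rw [Finset.sum_subtype (Finset.univ.filter fun h => h ∈ P) (p := fun h => h ∈ P)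
      (by intro x; simp)]
    refine Finset.sum_congr rfl fun p _ => ?_
    show ρ (p : H) ((e (show H from x) • ρ (show H from x)) (ρ (p : H)⁻¹ v)) =
      (e ((p : H) * (show H from x) * (p : H)⁻¹) • ρ ((p : H) * (show H from x) * (p : H)⁻¹)) v
    rw [he (p : H) (show H from x), LinearMap.smul_apply, LinearMap.smul_apply, map_smul,
      map_mul, map_mul]
    rfl
  · intro p x hx
    have hx' := (Finset.mem_filter.1 hx).2
    refine Finset.mem_filter.2 ⟨Finset.mem_univ _, ?_⟩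
    intro h
    apply hx'
    have h' : (p : H) * (show H from x) * (p : H)⁻¹ ∈ Subgroup.centralizer (P₁ : Set H) := h
    have h1 := (Subgroup.centralizer (P₁ : Set H)).mul_mem
      ((Subgroup.centralizer (P₁ : Set H)).mul_mem
        ((Subgroup.centralizer (P₁ : Set H)).inv_mem (hcen p p.2)) h') (hcen p p.2)
    have h2 : (p : H)⁻¹ * ((p : H) * (show H from x) * (p : H)⁻¹) * (p : H) =
        (show H from x) := by group
    rw [h2] at h1
    exact h1
  · intro p x hx hpx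
    by_contra hp1
    have hx' := (Finset.mem_filter.1 hx).2
    apply hx'
    have hp1' : (p : H) ≠ 1 := fun h => hp1 (Subtype.ext h)
    have hle := hfr p p.2 hp1'
    have hc : (p : H) * (show H from x) = (show H from x) * (p : H) := by
      have h1 : (p : H) * (show H from x) * (p : H)⁻¹ = (show H from x) := hpx
      calc (p : H) * (show H from x) = (p : H) * (show H from x) * (p : H)⁻¹ * (p : H) := by group
        _ = (show H from x) * (p : H) := by rw [h1]
    have hz : Subgroup.zpowers (p : H) ≤ Subgroup.centralizer ({(show H from x)} : Set H) := by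
      rw [Subgroup.zpowers_le]
      exact Subgroup.mem_centralizer_singleton_iff.2 hc
    show (show H from x) ∈ Subgroup.centralizer (P₁ : Set H)
    rw [Subgroup.mem_centralizer_iff]
    intro u hu
    exact Subgroup.mem_centralizer_singleton_iff.1 (hz (hle hu))

theorem zop_commute (ρ : Representation F H V) (b : H → F) (E : Module.End F V)
    (hE : ∀ t, E * ρ t = ρ t * E) : E * Zop ρ b = Zop ρ b * E := by
  unfold Zop
  rw [Finset.mul_sum, Finset.sum_mul]
  refine Finset.sum_congr rfl fun h _ => ?_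
  rw [mul_smul_comm, smul_mul_assoc, hE]

end gen

end KEX

open _root_.Pool.Agent.DPX.KEX in
theorem KEX_thm (h1 : Stmt_GCX) (h2 : Stmt_BKNX) (h3 : Stmt_RPRX) : Stmt_KEX := by
  classical
  intro ℓ n _ F T V _ _ _ _ _ _ P₁ P _ x₀ e hB ρ
  have hcd := hB.cd
  obtain ⟨-, hz, -, -⟩ := h1 ℓ T P₁ hcd.c1
  have hpg : IsPGroup ℓ P := IsPGroup.of_card hcd.card
  have hcomm : ∀ p ∈ P, ∀ q ∈ P, p * q = q * p := by
    intro p hp q hq
    obtain ⟨g, hg⟩ := hcd.cyc.exists_generator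
    obtain ⟨a, ha⟩ := Subgroup.mem_zpowers_iff.1 (hg ⟨p, hp⟩)
    obtain ⟨b, hb⟩ := Subgroup.mem_zpowers_iff.1 (hg ⟨q, hq⟩)
    have h4 : (⟨p, hp⟩ : P) * ⟨q, hq⟩ = ⟨q, hq⟩ * ⟨p, hp⟩ := by
      rw [← ha, ← hb, ← zpow_add, ← zpow_add, add_comm]
    exact congrArg Subtype.val h4
  have hcen : ∀ p ∈ P, p ∈ Subgroup.centralizer (P₁ : Set T) := by
    intro p hp
    rw [Subgroup.mem_centralizer_iff]
    intro u hu
    exact hcomm u (hcd.le hu) p hp
  have hCN : Subgroup.centralizer (P₁ : Set T) ≤ Subgroup.normalizer (P₁ : Set T) :=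
    Subgroup.centralizer_le_normalizer _
  -- the first part
  have hfirst : ∃ h : V →ₗ[F] V, Zop ρ e = Zop (rN P₁ ρ) (brz P₁ e) + trS P ρ ρ h := by
    obtain ⟨g, hg⟩ := sum_off P P₁ e hB.cf ρ hcen
      (fun p hp hp1 => hz P hcd.cyc hcd.le hpg p hp hp1)
    refine ⟨g, ?_⟩
    rw [← hg]
    have hsp : Zop ρ e = ∑ h with h ∈ Subgroup.centralizer (P₁ : Set T), e h • ρ h +
        ∑ h with h ∉ Subgroup.centralizer (P₁ : Set T), e h • ρ h := by
      unfold Zop
      rw [Finset.sum_filter_add_sum_filter_not]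
    rw [hsp]
    congr 1
    unfold Zop
    rw [← Finset.sum_filter_add_sum_filter_not Finset.univ
      (fun m : NP P₁ => (m : T) ∈ Subgroup.centralizer (P₁ : Set T))]
    have hzero : ∑ m ∈ Finset.univ.filter
        (fun m : NP P₁ => ¬ (m : T) ∈ Subgroup.centralizer (P₁ : Set T)),
        brz P₁ e m • rN P₁ ρ m = 0 := by
      refine Finset.sum_eq_zero fun m hm => ?_
      unfold brz
      rw [if_neg (Finset.mem_filter.1 hm).2, zero_smul]
    rw [hzero, add_zero]
    symm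
    refine Finset.sum_bij (fun m _ => (m : T)) ?_ ?_ ?_ ?_
    · intro m hm
      exact Finset.mem_filter.2 ⟨Finset.mem_univ _, (Finset.mem_filter.1 hm).2⟩
    · intro a _ b _ hab
      exact Subtype.ext hab
    · intro t ht
      have ht' := (Finset.mem_filter.1 ht).2
      exact ⟨⟨t, hCN ht'⟩, Finset.mem_filter.2 ⟨Finset.mem_univ _, ht'⟩, rfl⟩
    · intro m hm
      unfold brz
      rw [if_pos (Finset.mem_filter.1 hm).2]
      rfl
  refine ⟨hfirst, ?_⟩
  obtain ⟨h, hh⟩ := hfirst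
  intro W _ _ σ j hj hpj
  obtain ⟨hPN, hN⟩ := h2.2 ℓ n F T P₁ P x₀ e hB
  have hx : x₀ ∈ Subgroup.normalizer (P₁ : Set T) := by
    apply hCN
    rw [Subgroup.mem_centralizer_iff]
    intro u hu
    exact hcd.cen u (hcd.le hu)
  obtain ⟨-, hBN⟩ := hN hx
  obtain ⟨α, hα, hαt⟩ := h3 ℓ n F (NP P₁) V _ _ _ _ hBN (rN P₁ ρ)
  obtain ⟨hcf, hmul⟩ := h2.1 ℓ F T P₁ hcd.c1 e hB.cf e hB.cf
  set p : Module.End F V := Zop (rN P₁ ρ) (brz P₁ e) with hp
  set D : Module.End F V := trS P ρ ρ h with hD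
  have hE : ∀ t : NP P₁, Zop ρ e * rN P₁ ρ t = rN P₁ ρ t * Zop ρ e := fun t =>
    RPRB.zop_comm ρ hB.cf (t : T)
  have hpc : ∀ t : NP P₁, p * rN P₁ ρ t = rN P₁ ρ t * p := fun t =>
    RPRB.zop_comm (rN P₁ ρ) hcf t
  have hDe : D = Zop ρ e - p := by
    rw [hh]
    exact (add_sub_cancel_left _ _).symm
  have hDc : ∀ t : NP P₁, D * rN P₁ ρ t = rN P₁ ρ t * D := by
    intro t
    rw [hDe, sub_mul, mul_sub, hE, hpc]
  have hDp : D * p = p * D := zop_commute (rN P₁ ρ) (brz P₁ e) D hDc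
  have hDj : Eqv σ (rN P₁ ρ) (D ∘ₗ j) := by
    intro t w
    rw [LinearMap.comp_apply, hj, LinearMap.comp_apply]
    exact LinearMap.congr_fun (hDc t) (j w)
  refine ⟨α ∘ₗ h ∘ₗ j, ?_⟩
  have hmain : D ∘ₗ j = tr1 σ (rN P₁ ρ) (α ∘ₗ h ∘ₗ j) := by
    have e1 : D ∘ₗ j = p ∘ₗ (D ∘ₗ j) := by
      have : p ∘ₗ (D ∘ₗ j) = (p * D) ∘ₗ j := rfl
      rw [this, ← hDp]
      show D ∘ₗ j = D ∘ₗ (p ∘ₗ j)
      rw [hpj]
    have e2 : p ∘ₗ (D ∘ₗ j) = trC (P.subgroupOf (Subgroup.normalizer (P₁ : Set T))) σ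
        (rN P₁ ρ) (α ∘ₗ (D ∘ₗ j)) := by
      rw [← hαt]
      ext w
      unfold trC
      rw [LinearMap.comp_apply, LinearMap.sum_apply, LinearMap.sum_apply]
      refine Finset.sum_congr rfl fun q _ => ?_
      show rN P₁ ρ q.out (α (rN P₁ ρ q.out⁻¹ ((D ∘ₗ j) w))) =
        rN P₁ ρ q.out (α ((D ∘ₗ j) (σ q.out⁻¹ w)))
      rw [hDj]
    have e3 : α ∘ₗ (D ∘ₗ j) = trS (P.subgroupOf (Subgroup.normalizer (P₁ : Set T))) σ
        (rN P₁ ρ) (α ∘ₗ h ∘ₗ j) := by
      ext w
      rw [LinearMap.comp_apply, LinearMap.comp_apply, hD, trS_apply, trS_apply, map_sum]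
      symm
      refine Finset.sum_bij (fun m _ => (m : T)) ?_ ?_ ?_ ?_
      · intro m hm
        exact Finset.mem_filter.2 ⟨Finset.mem_univ _, (Finset.mem_filter.1 hm).2⟩
      · intro a _ b _ hab
        exact Subtype.ext hab
      · intro t ht
        have ht' := (Finset.mem_filter.1 ht).2
        exact ⟨⟨t, hPN ht'⟩, Finset.mem_filter.2 ⟨Finset.mem_univ _, ht'⟩, rfl⟩
      · intro m hm
        have hm' := (Finset.mem_filter.1 hm).2
        rw [LinearMap.comp_apply, LinearMap.comp_apply, hj]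
        have h5 := hα m hm' (h (rN P₁ ρ m⁻¹ (j w)))
        exact h5.symm
    rw [e1, e2, e3, trC_trS]
  rw [hh, ← hmain, LinearMap.add_comp, hpj]

end Pool.Agent.DPX


end

section

/-!
# UNSX: a block whose algebra is a matrix algebra over a truncated polynomial algebra has one
irreducible representation
-/

set_option autoImplicit false

namespace Pool.Agent.DPX

open Pool.Agent.DPB Pool.Agent.DPW Representation

namespace UNSX

section ops

variable {F T V : Type} [Field F] [Group T] [Fintype T] [AddCommGroup V] [Module F V]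

/-- `Zop` as a linear map. -/
def zl (ρ : Representation F T V) : (T → F) →ₗ[F] Module.End F V where
  toFun := Zop ρ
  map_add' a b := by
    unfold Zop
    simp only [Pi.add_apply, add_smul, Finset.sum_add_distrib]
  map_smul' c a := by
    unfold Zop
    simp only [Pi.smul_apply, smul_eq_mul, mul_smul, Finset.smul_sum, RingHom.id_apply]

theorem zl_apply (ρ : Representation F T V) (a : T → F) : zl ρ a = Zop ρ a := rfl

theorem zop_single [DecidableEq T] (ρ : Representation F T V) (g : T) :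
    Zop ρ (Pi.single g (1 : F)) = ρ g := by
  unfold Zop
  rw [Finset.sum_eq_single g]
  · rw [Pi.single_eq_same, one_smul]
  · intro h _ hne
    rw [Pi.single_eq_of_ne hne, zero_smul]
  · intro h
    exact absurd (Finset.mem_univ g) h

theorem zop_cvp (ρ : Representation F T V) (z : T → F) (k : ℕ) :
    Zop ρ (cvp z k) = Zop ρ z ^ k := by
  classical
  induction k with
  | zero =>
    rw [pow_zero]
    have h : cvp z 0 = Pi.single 1 (1 : F) := by
      unfold cvp
      funext x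
      by_cases hx : x = 1
      · subst hx
        rw [Pi.single_eq_same]
      · rw [Pi.single_eq_of_ne hx]
    rw [h, zop_single, map_one]
  | succ k ih =>
    rw [pow_succ, ← ih, ← RPRB.zop_cvF]
    rfl

theorem zop_zero (ρ : Representation F T V) : Zop ρ (0 : T → F) = 0 := (zl ρ).map_zero

end ops

theorem fix_iff {F H V : Type} [Field F] [IsAlgClosed F] [Group H] [Fintype H]
    [AddCommGroup V] [Module F V] [Module.Finite F V] (ρ : Representation F H V)
    (hρ : ρ.IsIrreducible) (z : H → F) (hz : z ∈ CF F H) :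
    Lz z ρ.character = ρ.character ↔ Zop ρ z = 1 := by
  obtain ⟨h0, h1⟩ := BRE_thm DEN_thm F H V ρ hρ
  obtain ⟨μ, hμ, hμ'⟩ := h1 z hz
  rw [hμ, hμ']
  constructor
  · intro h
    have h' : (μ - 1) • ρ.character = 0 := by rw [sub_smul, h, one_smul, sub_self]
    rcases smul_eq_zero.1 h' with h'' | h''
    · rw [sub_eq_zero.1 h'', one_smul]
    · exact absurd h'' h0
  · intro h
    have h' : (μ - 1) • (1 : Module.End F V) = 0 := by rw [sub_smul, h, one_smul, sub_self]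
    rcases smul_eq_zero.1 h' with h'' | h''
    · rw [sub_eq_zero.1 h'', one_smul]
    · exfalso
      apply h0
      funext g
      have h2 : ρ g = 0 := by
        rw [← mul_one (ρ g), h'', mul_zero]
      rw [Representation.character, h2]
      exact map_zero _

theorem nontrivial_of_irr {F H V : Type} [Field F] [Group H] [AddCommGroup V] [Module F V]
    (ρ : Representation F H V) (hρ : ρ.IsIrreducible) : Nontrivial V := by
  by_contra h
  rw [not_nontrivial_iff_subsingleton] at h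
  obtain ⟨a, b, hab⟩ := hρ.exists_pair_ne
  apply hab
  apply Subrepresentation.toSubmodule_injective
  exact Subsingleton.elim _ _

section core

variable {F T V : Type} [Field F] [Group T] [Fintype T] [AddCommGroup V] [Module F V]

/-- The element `z` acts as zero. -/
theorem z_zero [IsAlgClosed F] [Module.Finite F V] {e : T → F} {m c : ℕ}
    {E : Fin m → Fin m → T → F} {z : T → F} (hN : NilB e m c E z)
    (ρ : Representation F T V) (hρ : ρ.IsIrreducible) (he : Zop ρ e = 1) : Zop ρ z = 0 := by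
  obtain ⟨-, h1⟩ := BRE_thm DEN_thm F T V ρ hρ
  obtain ⟨μ, hμ, -⟩ := h1 z hN.zc
  have h2 : Zop ρ (cvF e (cvp z c)) = 0 := by
    rw [hN.nl, zop_zero]
  rw [RPRB.zop_cvF, he, one_mul, zop_cvp, hμ, smul_pow, one_pow] at h2
  have := nontrivial_of_irr ρ hρ
  rcases smul_eq_zero.1 h2 with h3 | h3
  · have hc0 : c ≠ 0 := by
      intro h5
      rw [h5, pow_zero] at h3
      exact one_ne_zero h3
    have h4 : μ = 0 := (pow_eq_zero_iff hc0).1 h3
    rw [hμ, h4, zero_smul]
  · exact absurd h3 one_ne_zero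

/-- The action of the group algebra in terms of the matrix units. -/
theorem zop_eq {e : T → F} {m c : ℕ} {E : Fin m → Fin m → T → F} {z : T → F}
    (ρ : Representation F T V) (he : Zop ρ e = 1) (hz : Zop ρ z = 0) (hc : 0 < c)
    (a : T → F) (t : ℕ → Fin m → Fin m → F)
    (ht : cvF e a = ∑ k ∈ Finset.range c, ∑ i, ∑ j, t k i j • cvF (cvp z k) (E i j)) :
    Zop ρ a = ∑ i, ∑ j, t 0 i j • Zop ρ (E i j) := by
  have h1 : Zop ρ (cvF e a) = Zop ρ a := by
    rw [RPRB.zop_cvF, he, one_mul]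
  rw [← h1, ht, ← zl_apply, map_sum]
  rw [Finset.sum_eq_single 0]
  · rw [map_sum]
    refine Finset.sum_congr rfl fun i _ => ?_
    rw [map_sum]
    refine Finset.sum_congr rfl fun j _ => ?_
    rw [map_smul, zl_apply, RPRB.zop_cvF, zop_cvp, pow_zero, one_mul]
  · intro k _ hk
    rw [map_sum]
    refine Finset.sum_eq_zero fun i _ => ?_
    rw [map_sum]
    refine Finset.sum_eq_zero fun j _ => ?_
    rw [map_smul, zl_apply, RPRB.zop_cvF, zop_cvp, hz, zero_pow hk, zero_mul, smul_zero]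
  · intro h
    exact absurd (Finset.mem_range.2 hc) h

/-- The basis. -/
theorem basis {e : T → F} {m c : ℕ} {E : Fin m → Fin m → T → F} {z : T → F}
    (hN : NilB e m c E z) (hc : 0 < c) (ρ : Representation F T V) (hρ : ρ.IsIrreducible)
    (he : Zop ρ e = 1) (hz : Zop ρ z = 0) :
    ∃ b : Module.Basis (Fin m) F V, ∀ i j k,
      Zop ρ (E i j) (b k) = if j = k then b i else 0 := by
  classical
  have hmul : ∀ i j k l (v : V), Zop ρ (E i j) (Zop ρ (E k l) v) =
      if j = k then Zop ρ (E i l) v else 0 := by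
    intro i j k l v
    have h1 := congrArg (Zop ρ) (hN.mu i j k l)
    rw [RPRB.zop_cvF] at h1
    have h2 := LinearMap.congr_fun h1 v
    rw [Module.End.mul_apply] at h2
    rw [h2]
    split_ifs
    · rfl
    · rw [zop_zero]
      rfl
  have hsum : ∀ v : V, ∑ i, Zop ρ (E i i) v = v := by
    intro v
    have h1 : ∑ i, Zop ρ (E i i) = 1 := by
      rw [← he, ← hN.on, ← zl_apply, map_sum]
      rfl
    have h2 := LinearMap.congr_fun h1 v
    rw [LinearMap.sum_apply] at h2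
    exact h2
  have hnt := nontrivial_of_irr ρ hρ
  obtain ⟨v0, hv0⟩ := exists_ne (0 : V)
  obtain ⟨i0, hi0⟩ : ∃ i0, Zop ρ (E i0 i0) v0 ≠ 0 := by
    by_contra h
    push Not at h
    apply hv0
    rw [← hsum v0]
    exact Finset.sum_eq_zero fun i _ => h i
  obtain ⟨w, hw⟩ : ∃ w, w = Zop ρ (E i0 i0) v0 := ⟨_, rfl⟩
  rw [← hw] at hi0
  obtain ⟨b, hb⟩ : ∃ b : Fin m → V, ∀ i, b i = Zop ρ (E i i0) w := ⟨_, fun _ => rfl⟩
  have hact : ∀ i j k, Zop ρ (E i j) (b k) = if j = k then b i else 0 := by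
    intro i j k
    rw [hb k, hmul]
    split_ifs
    · rw [hb]
    · rfl
  have hb0 : b i0 = w := by
    rw [hb, hw, hmul, if_pos rfl]
  have hli : LinearIndependent F b := by
    rw [Fintype.linearIndependent_iff]
    intro g hg i
    have h1 : Zop ρ (E i0 i) (∑ j, g j • b j) = g i • w := by
      rw [map_sum, Finset.sum_eq_single i]
      · rw [map_smul, hact, if_pos rfl, hb0]
      · intro j _ hj
        rw [map_smul, hact, if_neg (fun h => hj h.symm), smul_zero]
      · intro h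
        exact absurd (Finset.mem_univ i) h
    rw [hg, map_zero] at h1
    rcases smul_eq_zero.1 h1.symm with h2 | h2
    · exact h2
    · exact absurd h2 hi0
  have hstab : ∀ (g : T) (v : V), v ∈ Submodule.span F (Set.range b) →
      ρ g v ∈ Submodule.span F (Set.range b) := by
    intro g v hv
    obtain ⟨t, ht⟩ := hN.sp (Pi.single g 1)
    have h1 := zop_eq ρ he hz hc (Pi.single g 1) t ht
    rw [zop_single] at h1
    have h2 : ∀ k, ρ g (b k) ∈ Submodule.span F (Set.range b) := by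
      intro k
      rw [h1, LinearMap.sum_apply]
      refine Submodule.sum_mem _ fun i _ => ?_
      rw [LinearMap.sum_apply]
      refine Submodule.sum_mem _ fun j _ => ?_
      rw [LinearMap.smul_apply, hact]
      refine Submodule.smul_mem _ _ ?_
      split_ifs
      · exact Submodule.subset_span ⟨i, rfl⟩
      · exact Submodule.zero_mem _
    have h3 : Submodule.span F (Set.range b) ≤
        (Submodule.span F (Set.range b)).comap (ρ g) := by
      rw [Submodule.span_le]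
      rintro _ ⟨k, rfl⟩
      exact h2 k
    exact h3 hv
  have htop : ⊤ ≤ Submodule.span F (Set.range b) := by
    let S : Subrepresentation ρ := ⟨Submodule.span F (Set.range b), fun g v hv => hstab g v hv⟩
    rcases hρ.eq_bot_or_eq_top S with h | h
    · exfalso
      apply hi0
      rw [← hb0]
      have h1 : b i0 ∈ S.toSubmodule := Submodule.subset_span ⟨i0, rfl⟩
      rw [h] at h1
      exact h1
    · have h1 : S.toSubmodule = ⊤ := congrArg Subrepresentation.toSubmodule h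
      exact h1.ge
  refine ⟨Module.Basis.mk hli htop, ?_⟩
  intro i j k
  rw [Module.Basis.mk_apply, Module.Basis.mk_apply]
  exact hact i j k

/-- The traces of the matrix units. -/
theorem trace_unit {m : ℕ} {E : Fin m → Fin m → T → F} {ρ : Representation F T V}
    (b : Module.Basis (Fin m) F V)
    (hb : ∀ i j k, Zop ρ (E i j) (b k) = if j = k then b i else 0) (i j : Fin m) :
    LinearMap.trace F V (Zop ρ (E i j)) = if i = j then 1 else 0 := by
  classical
  rw [LinearMap.trace_eq_matrix_trace F b, Matrix.trace]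
  simp only [Matrix.diag_apply, LinearMap.toMatrix_apply, hb]
  rw [Finset.sum_eq_single j]
  · rw [if_pos rfl, Module.Basis.repr_self, Finsupp.single_apply]
  · intro k _ hk
    rw [if_neg (fun h => hk h.symm), map_zero]
    rfl
  · intro h
    exact absurd (Finset.mem_univ j) h

/-- Existence of an irreducible representation. -/
theorem exists_irr {e : T → F} (he : e ∈ CF F T) (hi : cvF e e = e) (h0 : e ≠ 0) :
    ∃ (n : ℕ) (σ : Representation F T (Fin n → F)), σ.IsIrreducible ∧ Zop σ e = 1 := by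
  classical
  let ρ : Representation F T (T → F) :=
    { toFun := fun g =>
        { toFun := fun f x => f (g⁻¹ * x)
          map_add' := fun _ _ => rfl
          map_smul' := fun _ _ => rfl }
      map_one' := by
        apply LinearMap.ext
        intro f
        funext x
        change f (1⁻¹ * x) = f x
        rw [inv_one, one_mul]
      map_mul' := by
        intro g h
        apply LinearMap.ext
        intro f
        funext x
        change f ((g * h)⁻¹ * x) = f (h⁻¹ * (g⁻¹ * x))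
        rw [mul_inv_rev, mul_assoc] }
  have hρ : ∀ g f x, ρ g f x = f (g⁻¹ * x) := fun _ _ _ => rfl
  have hne : Zop ρ e ≠ 0 := by
    intro h
    apply h0
    funext g
    have h1 := congrFun (LinearMap.congr_fun h (Pi.single 1 1)) g
    unfold Zop at h1
    rw [LinearMap.sum_apply, Finset.sum_apply, Finset.sum_eq_single g] at h1
    · rw [LinearMap.smul_apply, Pi.smul_apply, hρ, inv_mul_cancel, Pi.single_eq_same,
        smul_eq_mul, mul_one] at h1
      exact h1
    · intro x _ hx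
      have h2 : x⁻¹ * g ≠ 1 := by
        intro h3
        exact hx (inv_mul_eq_one.1 h3)
      rw [LinearMap.smul_apply, Pi.smul_apply, hρ, Pi.single_eq_of_ne h2, smul_zero]
    · intro h
      exact absurd (Finset.mem_univ g) h
  have hstab : ∀ (g : T), ∀ v ∈ LinearMap.range (Zop ρ e), ρ g v ∈ LinearMap.range (Zop ρ e) := by
    rintro g _ ⟨v, rfl⟩
    refine ⟨ρ g v, ?_⟩
    have h1 := LinearMap.congr_fun (RPRB.zop_comm ρ he g) v
    exact h1
  obtain ⟨n, σ, j, h1, h2, h3, h4⟩ := KD.exists_irr ρ _ (LinearMap.range (Zop ρ e)) le_rfl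
    (fun h => hne (LinearMap.range_eq_bot.1 h)) hstab
  refine ⟨n, σ, h1, ?_⟩
  apply LinearMap.ext
  intro w
  apply h4
  have h5 : ∀ w, j (Zop σ e w) = Zop ρ e (j w) := by
    intro w
    unfold Zop
    rw [LinearMap.sum_apply, LinearMap.sum_apply, map_sum]
    refine Finset.sum_congr rfl fun g _ => ?_
    rw [LinearMap.smul_apply, LinearMap.smul_apply, map_smul, h2]
  rw [h5]
  obtain ⟨v, hv⟩ := h3 w
  rw [← hv]
  have h6 := LinearMap.congr_fun (RPRB.zop_cvF ρ e e) v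
  rw [hi] at h6
  rw [Module.End.mul_apply] at h6
  rw [← h6, hv]
  rfl

end core

end UNSX

open _root_.Pool.Agent.DPX.UNSX in
theorem UNSX_thm : Stmt_UNSX := by
  classical
  intro F T _ _ _ _ e he hi h0 m c E z hN
  have hm : 0 < m := by
    rcases Nat.eq_zero_or_pos m with h | h
    · subst h
      exfalso
      apply h0
      rw [← hN.on]
      rfl
    · exact h
  have hc : 0 < c := by
    rcases Nat.eq_zero_or_pos c with h | h
    · subst h
      exfalso
      apply h0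
      obtain ⟨t, ht⟩ := hN.sp e
      rw [hi, Finset.range_zero, Finset.sum_empty] at ht
      exact ht
    · exact h
  refine ⟨hm, hc, ?_, ?_⟩
  · intro V _ _ _ ρ hρ hρe
    have hz := z_zero hN ρ hρ hρe
    obtain ⟨b, -⟩ := basis hN hc ρ hρ hρe hz
    refine ⟨?_, hz⟩
    rw [Module.finrank_eq_card_basis b, Fintype.card_fin]
  · obtain ⟨n, σ, hσ, hσe⟩ := exists_irr he hi h0
    rw [Nat.card_eq_one_iff_unique]
    constructor
    · constructor
      rintro ⟨φ, ⟨n1, ρ1, hρ1, rfl⟩, hφ⟩ ⟨ψ, ⟨n2, ρ2, hρ2, rfl⟩, hψ⟩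
      apply Subtype.ext
      change ρ1.character = ρ2.character
      have e1 := (fix_iff ρ1 hρ1 e he).1 hφ
      have e2 := (fix_iff ρ2 hρ2 e he).1 hψ
      have z1 := z_zero hN ρ1 hρ1 e1
      have z2 := z_zero hN ρ2 hρ2 e2
      obtain ⟨b1, hb1⟩ := basis hN hc ρ1 hρ1 e1 z1
      obtain ⟨b2, hb2⟩ := basis hN hc ρ2 hρ2 e2 z2
      funext g
      obtain ⟨t, ht⟩ := hN.sp (Pi.single g 1)
      have k1 := zop_eq ρ1 e1 z1 hc (Pi.single g 1) t ht
      have k2 := zop_eq ρ2 e2 z2 hc (Pi.single g 1) t ht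
      rw [zop_single] at k1 k2
      rw [Representation.character, Representation.character, k1, k2]
      simp only [map_sum, map_smul, trace_unit b1 hb1, trace_unit b2 hb2]
    · exact ⟨⟨σ.character, ⟨n, σ, hσ, rfl⟩, (fix_iff σ hσ e he).2 hσe⟩⟩

end Pool.Agent.DPX


end

section

/-!
# Theorem X: the dimension of the centre of a block

The centre of the algebra `e F T = M_m(F[z] / (z ^ c))` is spanned by the `e z ^ k`, `k < c`.
-/

set_option autoImplicit false

namespace Pool.Agent.DPX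

open Pool.Agent.DPB Pool.Agent.DPW Representation

namespace CENX

variable {F T : Type} [Field F] [Group T] [Fintype T]

theorem cvF_assoc (a b c : T → F) : cvF (cvF a b) c = cvF a (cvF b c) := by
  funext x
  simp only [cvF, Finset.sum_mul, Finset.mul_sum]
  rw [Finset.sum_comm]
  refine Finset.sum_congr rfl fun y _ => ?_
  rw [← Equiv.sum_comp (Equiv.mulLeft y)]
  refine Finset.sum_congr rfl fun u _ => ?_
  simp only [Equiv.coe_mulLeft, inv_mul_cancel_left, mul_inv_rev]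
  rw [mul_assoc, mul_assoc (u⁻¹)]

theorem cvF_comm {z : T → F} (hz : z ∈ CF F T) (b : T → F) : cvF z b = cvF b z := by
  funext x
  simp only [cvF]
  rw [← Equiv.sum_comp ((Equiv.inv T).trans (Equiv.mulLeft x))]
  refine Finset.sum_congr rfl fun u _ => ?_
  have h1 : z (x * u⁻¹) = z (u⁻¹ * x) := by
    have h := hz (u⁻¹) (x * u⁻¹)
    rw [← h]
    congr 1
    group
  simp only [Equiv.trans_apply, Equiv.inv_apply, Equiv.coe_mulLeft]
  rw [h1, mul_comm]
  congr 2
  group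

theorem cvF_mem {a b : T → F} (ha : a ∈ CF F T) (hb : b ∈ CF F T) : cvF a b ∈ CF F T := by
  intro g x
  simp only [cvF]
  rw [← Equiv.sum_comp (MulAut.conj g).toEquiv]
  refine Finset.sum_congr rfl fun u _ => ?_
  have e1 : (MulAut.conj g).toEquiv u = g * u * g⁻¹ := rfl
  rw [e1, ha g u]
  have h2 : (g * u * g⁻¹)⁻¹ * (g * x * g⁻¹) = g * (u⁻¹ * x) * g⁻¹ := by group
  rw [h2, hb g (u⁻¹ * x)]

theorem cvF_zero (a : T → F) : cvF a (0 : T → F) = 0 := by
  funext x
  simp [cvF]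

theorem zero_cvF (a : T → F) : cvF (0 : T → F) a = 0 := by
  funext x
  simp [cvF]

theorem cvF_smul (r : F) (a b : T → F) : cvF a (r • b) = r • cvF a b := by
  funext x
  simp only [cvF, Pi.smul_apply, smul_eq_mul, Finset.mul_sum]
  refine Finset.sum_congr rfl fun y _ => ?_
  ring

theorem smul_cvF (r : F) (a b : T → F) : cvF (r • a) b = r • cvF a b := by
  funext x
  simp only [cvF, Pi.smul_apply, smul_eq_mul, Finset.mul_sum]
  refine Finset.sum_congr rfl fun y _ => ?_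
  ring

theorem cvF_sum {ι : Type} (s : Finset ι) (a : T → F) (b : ι → T → F) :
    cvF a (∑ i ∈ s, b i) = ∑ i ∈ s, cvF a (b i) := by
  funext x
  simp only [cvF, Finset.sum_apply, Finset.mul_sum]
  exact Finset.sum_comm

theorem sum_cvF {ι : Type} (s : Finset ι) (a : T → F) (b : ι → T → F) :
    cvF (∑ i ∈ s, b i) a = ∑ i ∈ s, cvF (b i) a := by
  funext x
  simp only [cvF, Finset.sum_apply, Finset.sum_mul]
  exact Finset.sum_comm

open Classical in
theorem cvF_one (a : T → F) : cvF a (Pi.single 1 1) = a := by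
  funext x
  unfold cvF
  rw [Finset.sum_eq_single x]
  · simp
  · intro y _ hy
    rw [Pi.single_eq_of_ne, mul_zero]
    intro h
    exact hy (inv_mul_eq_one.1 h)
  · intro h
    exact absurd (Finset.mem_univ x) h

omit [Fintype T] in
open Classical in
theorem one_mem : (Pi.single 1 1 : T → F) ∈ CF F T := by
  intro g x
  by_cases hx : x = 1
  · subst hx
    simp
  · rw [Pi.single_eq_of_ne hx, Pi.single_eq_of_ne]
    intro h
    apply hx
    calc x = g⁻¹ * (g * x * g⁻¹) * g := by group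
      _ = 1 := by rw [h]; group

theorem cvp_mem {z : T → F} (hz : z ∈ CF F T) (k : ℕ) : cvp z k ∈ CF F T := by
  induction k with
  | zero => exact one_mem
  | succ k ih => exact cvF_mem ih hz

theorem cvp_add (z : T → F) (a b : ℕ) : cvp z (a + b) = cvF (cvp z a) (cvp z b) := by
  induction b with
  | zero => exact (cvF_one _).symm
  | succ b ih =>
    show cvF (cvp z (a + b)) z = cvF (cvp z a) (cvF (cvp z b) z)
    rw [ih, cvF_assoc]

section nil

variable {e : T → F} {m c : ℕ} {E : Fin m → Fin m → T → F} {z : T → F}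

theorem sandwich (H : NilB e m c E z) (o i a b : Fin m) (k : ℕ) :
    cvF (cvF (E i o) (cvF (cvp z k) (E a b))) (E o i) =
      if a = o ∧ b = o then cvF (cvp z k) (E i i) else 0 := by
  have h1 : cvF (cvF (E i o) (cvF (cvp z k) (E a b))) (E o i) =
      cvF (cvp z k) (cvF (cvF (E i o) (E a b)) (E o i)) := by
    rw [← cvF_assoc (E i o), ← cvF_comm (cvp_mem H.zc k), cvF_assoc, cvF_assoc, cvF_assoc]
  rw [h1, H.mu]
  by_cases ha : a = o
  · rw [if_pos ha.symm, H.mu]
    by_cases hb : b = o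
    · rw [if_pos hb, if_pos ⟨ha, hb⟩]
    · rw [if_neg hb, if_neg fun h => hb h.2, cvF_zero]
  · rw [if_neg (Ne.symm ha), if_neg fun h => ha h.1, zero_cvF, cvF_zero]

/-- the elements of the centre are polynomials in `z` -/
theorem span_lem (H : NilB e m c E z) (he : e ∈ CF F T) (o : Fin m) {w : T → F}
    (hw : w ∈ CF F T) (hew : cvF e w = w) :
    ∃ t : ℕ → F, w = ∑ k ∈ Finset.range c, t k • cvF e (cvp z k) := by
  obtain ⟨t, ht⟩ := H.sp w
  rw [hew] at ht
  refine ⟨fun k => t k o o, ?_⟩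
  have key : ∀ i, cvF w (E i i) =
      ∑ k ∈ Finset.range c, t k o o • cvF (cvp z k) (E i i) := by
    intro i
    have h1 : cvF w (E i i) = cvF (cvF (E i o) w) (E o i) := by
      rw [← cvF_comm hw (E i o), cvF_assoc, H.mu, if_pos rfl]
    rw [h1]
    conv_lhs => rw [ht]
    rw [cvF_sum, sum_cvF]
    refine Finset.sum_congr rfl fun k _ => ?_
    rw [cvF_sum, sum_cvF, Finset.sum_eq_single o]
    · rw [cvF_sum, sum_cvF, Finset.sum_eq_single o]
      · rw [cvF_smul, smul_cvF, sandwich H, if_pos ⟨rfl, rfl⟩]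
      · intro b _ hb
        rw [cvF_smul, smul_cvF, sandwich H, if_neg fun h => hb h.2, smul_zero]
      · intro h
        exact absurd (Finset.mem_univ _) h
    · intro a _ ha
      rw [cvF_sum, sum_cvF]
      refine Finset.sum_eq_zero fun b _ => ?_
      rw [cvF_smul, smul_cvF, sandwich H, if_neg fun h => ha h.1, smul_zero]
    · intro h
      exact absurd (Finset.mem_univ _) h
  have h2 : w = ∑ i, cvF w (E i i) := by
    rw [← cvF_sum, H.on, ← cvF_comm he, hew]
  conv_lhs => rw [h2]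
  simp only [key]
  rw [Finset.sum_comm]
  refine Finset.sum_congr rfl fun k _ => ?_
  rw [← Finset.smul_sum, ← cvF_sum, H.on, cvF_comm he]

omit [Fintype T] in
theorem Z_mul [Fintype T] (e z : T → F) (k l : ℕ) :
    cvF (cvF e (cvp z k)) (cvp z l) = cvF e (cvp z (k + l)) := by
  rw [cvF_assoc, ← cvp_add]

theorem Z_zero (H : NilB e m c E z) {k : ℕ} (hk : c ≤ k) : cvF e (cvp z k) = 0 := by
  obtain ⟨l, rfl⟩ := Nat.exists_eq_add_of_le hk
  rw [← Z_mul, H.nl, zero_cvF]

theorem indep (H : NilB e m c E z) :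
    LinearIndependent F (fun k : Fin c => cvF e (cvp z k)) := by
  rw [Fintype.linearIndependent_iff]
  intro a ha
  have key : ∀ n : ℕ, ∀ k : Fin c, (k : ℕ) = n → a k = 0 := by
    intro n
    induction n using Nat.strong_induction_on with
    | _ n ih =>
      intro k hk
      have h1 : cvF (∑ i : Fin c, a i • cvF e (cvp z i)) (cvp z (c - 1 - k)) = 0 := by
        rw [ha, zero_cvF]
      rw [sum_cvF, Finset.sum_eq_single k] at h1
      · rw [smul_cvF, Z_mul, show (k : ℕ) + (c - 1 - k) = c - 1 by omega, smul_eq_zero] at h1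
        rcases h1 with h1 | h1
        · exact h1
        · exact absurd h1 (H.nn (c - 1) (by omega))
      · intro j _ hj
        rw [smul_cvF, Z_mul]
        rcases lt_or_ge (j : ℕ) k with h2 | h2
        · rw [ih j (hk ▸ h2) j rfl, zero_smul]
        · have h3 : (j : ℕ) ≠ k := fun h => hj (Fin.ext h)
          rw [Z_zero H (by omega), smul_zero]
      · intro h
        exact absurd (Finset.mem_univ _) h
  exact fun k => key k k rfl

end nil

theorem Lz_Lz (z z' φ : T → F) : Lz z (Lz z' φ) = Lz (cvF z' z) φ := by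
  funext g
  rw [Lz_apply, Lz_apply]
  simp only [Lz_apply, cvF, Finset.mul_sum, Finset.sum_mul]
  rw [Finset.sum_comm]
  conv_rhs => rw [Finset.sum_comm]
  refine Finset.sum_congr rfl fun y _ => ?_
  symm
  refine Fintype.sum_equiv (Equiv.mulLeft y⁻¹) _ _ fun x => ?_
  show z' y * z (y⁻¹ * x) * φ (x * g) = z (y⁻¹ * x) * (z' y * φ (y * (y⁻¹ * x * g)))
  have e : y * (y⁻¹ * x * g) = x * g := by group
  rw [e]
  ring

theorem mem_gen {V : Type} [AddCommGroup V] [Module F V] {f : Module.End F V}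
    (hf : ∀ v, f (f v) = f v) (v : V) : v ∈ f.maxGenEigenspace 1 ↔ f v = v := by
  have hid : ∀ w, (f - (1 : F) • (1 : Module.End F V)) w = f w - w := by
    intro w
    rw [LinearMap.sub_apply, LinearMap.smul_apply, Module.End.one_apply, one_smul]
  rw [Module.End.mem_maxGenEigenspace]
  constructor
  · rintro ⟨n, hn⟩
    have hpow : ∀ n : ℕ, ((f - (1 : F) • (1 : Module.End F V)) ^ (n + 1)) v =
        (-1 : F) ^ n • (f v - v) := by
      intro n
      induction n with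
      | zero => rw [zero_add, pow_one, hid, pow_zero, one_smul]
      | succ n ih =>
        rw [pow_succ', Module.End.mul_apply, ih, map_smul, hid, map_sub, hf, sub_self, zero_sub,
          pow_succ, mul_smul, neg_one_smul]
    rcases n with _ | n
    · rw [pow_zero, Module.End.one_apply] at hn
      rw [hn, map_zero]
    · rw [hpow] at hn
      rw [smul_eq_zero] at hn
      rcases hn with hn | hn
      · exact absurd hn (pow_ne_zero _ (neg_ne_zero.mpr one_ne_zero))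
      · exact sub_eq_zero.mp hn
  · intro h
    refine ⟨1, ?_⟩
    rw [pow_one, hid, h, sub_self]

/-- The inversion. -/
noncomputable def inv' : (T → F) ≃ₗ[F] (T → F) := LinearEquiv.funCongrLeft F F (Equiv.inv T)

omit [Fintype T] in
theorem inv'_apply (w : T → F) (g : T) : inv' w g = w g⁻¹ := rfl

omit [Fintype T] in
theorem inv'_mem {w : T → F} (hw : w ∈ CF F T) : inv' w ∈ CF F T := by
  intro g x
  rw [inv'_apply, inv'_apply, ← hw g x⁻¹]
  congr 1
  group

omit [Fintype T] in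
theorem inv'_inv' (w : T → F) : inv' (inv' w) = w := by
  funext g
  rw [inv'_apply, inv'_apply, inv_inv]

theorem inv'_Lz (e : T → F) {v : T → F} (hv : v ∈ CF F T) : inv' (Lz e v) = cvF e (inv' v) := by
  funext g
  rw [inv'_apply, Lz_apply]
  unfold cvF
  refine Finset.sum_congr rfl fun y _ => ?_
  rw [inv'_apply, ← hv g (y⁻¹ * g)⁻¹]
  congr 2
  group

end CENX

open _root_.Pool.Agent.DPX.CENX in
theorem CENX_thm : Stmt_CENX := by
  intro F T _ _ _ e he hee hne m c E z H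
  have ho : 0 < m := by
    rcases Nat.eq_zero_or_pos m with h | h
    · exfalso
      subst h
      apply hne
      rw [← H.on]
      exact Finset.sum_of_isEmpty _
    · exact h
  have hspan : ∀ w ∈ CF F T, cvF e w = w → ∃ t : ℕ → F,
      w = ∑ k ∈ Finset.range c, t k • cvF e (cvp z k) :=
    fun w hw hew => span_lem H he ⟨0, ho⟩ hw hew
  refine ⟨?_, hspan⟩
  have hL : ∀ v, Lz e (Lz e v) = Lz e v := fun v => by rw [Lz_Lz, hee]
  have h1 : (Lz e).maxGenEigenspace 1 ⊓ CF F T =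
      (Submodule.span F (Set.range fun k : Fin c => cvF e (cvp z k))).map
        (inv' (F := F) (T := T)).toLinearMap := by
    ext v
    rw [Submodule.mem_inf, mem_gen hL, Submodule.mem_map]
    constructor
    · rintro ⟨h2, h3⟩
      refine ⟨inv' v, ?_, inv'_inv' v⟩
      obtain ⟨t, ht⟩ := hspan (inv' v) (inv'_mem h3) (by rw [← inv'_Lz e h3, h2])
      rw [ht]
      refine Submodule.sum_mem _ fun k hk => Submodule.smul_mem _ _ ?_
      exact Submodule.subset_span ⟨⟨k, Finset.mem_range.1 hk⟩, rfl⟩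
    · rintro ⟨w, hw, rfl⟩
      have h4 : w ∈ CF F T ∧ cvF e w = w := by
        refine Submodule.span_induction (p := fun w _ => w ∈ CF F T ∧ cvF e w = w)
          ?_ ?_ ?_ ?_ hw
        · rintro _ ⟨k, rfl⟩
          exact ⟨cvF_mem he (cvp_mem H.zc k), by rw [← cvF_assoc, hee]⟩
        · exact ⟨(CF F T).zero_mem, cvF_zero e⟩
        · rintro a b _ _ ⟨ha, ha'⟩ ⟨hb, hb'⟩
          refine ⟨(CF F T).add_mem ha hb, ?_⟩
          have : cvF e (a + b) = cvF e a + cvF e b := by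
            funext x
            simp only [cvF, Pi.add_apply, mul_add, Finset.sum_add_distrib]
          rw [this, ha', hb']
        · rintro r a _ ⟨ha, ha'⟩
          exact ⟨(CF F T).smul_mem r ha, by rw [cvF_smul, ha']⟩
      have h5 : inv' w ∈ CF F T := inv'_mem h4.1
      refine ⟨?_, h5⟩
      show Lz e (inv' w) = inv' w
      apply (inv' (F := F) (T := T)).injective
      rw [inv'_Lz e h5, inv'_inv', h4.2]
  unfold mlt
  rw [h1, LinearEquiv.finrank_map_eq, finrank_span_eq_card (indep H), Fintype.card_fin]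

end Pool.Agent.DPX


end

section

/-!
# Theorem X, module E1TX: outer derivations of the irreducible representations of the block
-/

namespace Pool.Agent.DPX

open Pool.Agent.DPB Pool.Agent.DPW Pool.Agent.Lib_helper13 Representation

theorem E1TX_thm (h1 : Stmt_BKNX) (h2 : Stmt_RPRX) (h3 : Stmt_KEX) (h4 : Stmt_TRFX)
    (h5 : Stmt_DERP) (h6 : Stmt_E1ZX) : Stmt_E1TX := by
  intro ℓ n _ F T V _ _ _ _ _ _ _ _ P₁ P _ x₀ e hB m c E z hN ρ hρ he δ₁ δ₂ hδ₁ hδ₂
  obtain ⟨hcf, hid0⟩ := h1.1 ℓ F T P₁ hB.cd.c1 e hB.cf e hB.cf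
  have hid : cvF (brz P₁ e) (brz P₁ e) = brz P₁ e := by
    rw [← hid0, hB.idem]
  have hPN : P ≤ Subgroup.normalizer (P₁ : Set T) := (h1.2 ℓ n F T P₁ P x₀ e hB).1
  set p : V →ₗ[F] V := Zop (rN P₁ ρ) (brz P₁ e) with hp
  have hpp : p ∘ₗ p = p := by
    have h := RPRB.zop_cvF (rN P₁ ρ) (brz P₁ e) (brz P₁ e)
    rw [hid] at h
    exact h.symm
  have hpc : ∀ g : NP P₁, p ∘ₗ rN P₁ ρ g = rN P₁ ρ g ∘ₗ p := fun g =>
    RPRB.zop_comm (rN P₁ ρ) hcf g
  -- the endomorphisms of the restriction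
  have hE : DR2e (rN P₁ ρ) (brz P₁ e) := by
    refine h6 F (NP P₁) V (brz P₁ e) hcf hid m c E z hN (rN P₁ ρ) ?_
    intro φ hφ hφe
    obtain ⟨Ψ, hΨ, g, hg⟩ := h4 ℓ n F T V V P₁ P x₀ e hB ρ ρ φ hφ hφe
    obtain ⟨μ, hμ⟩ := KB.exists_scalar ρ hρ Ψ hΨ
    refine ⟨μ, -g, ?_⟩
    have e1 : tr1 (rN P₁ ρ) (rN P₁ ρ) (-g) = - tr1 (rN P₁ ρ) (rN P₁ ρ) g := by
      unfold tr1
      rw [← Finset.sum_neg_distrib]
      refine Finset.sum_congr rfl fun h _ => ?_
      rw [LinearMap.neg_comp, LinearMap.comp_neg]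
    have e2 : Zop (rN P₁ ρ) (brz P₁ e) ∘ₗ Ψ = μ • Zop (rN P₁ ρ) (brz P₁ e) := by
      apply LinearMap.ext
      intro v
      rw [LinearMap.comp_apply, hμ, map_smul, LinearMap.smul_apply]
    rw [e1, ← e2, hg, add_neg_cancel_right]
  -- the compression of a derivation
  have hcomp : ∀ δ : T → V →ₗ[F] V, IsDer ρ δ →
      IsDer (rN P₁ ρ) (fun g : NP P₁ => p ∘ₗ δ g ∘ₗ p) ∧
      ∀ g : NP P₁, p ∘ₗ (p ∘ₗ δ g ∘ₗ p) = p ∘ₗ δ g ∘ₗ p ∧
        (p ∘ₗ δ g ∘ₗ p) ∘ₗ p = p ∘ₗ δ g ∘ₗ p := by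
    intro δ hδ
    refine ⟨?_, ?_⟩
    · intro g h
      have e0 : δ (((g * h : NP P₁)) : T) = ρ g ∘ₗ δ h + δ g ∘ₗ ρ h := hδ g h
      have e1 : p ∘ₗ ρ (g : T) = ρ (g : T) ∘ₗ p := hpc g
      have e2 : ρ (h : T) ∘ₗ p = p ∘ₗ ρ (h : T) := (hpc h).symm
      change p ∘ₗ δ (((g * h : NP P₁)) : T) ∘ₗ p =
        ρ (g : T) ∘ₗ (p ∘ₗ δ h ∘ₗ p) + (p ∘ₗ δ g ∘ₗ p) ∘ₗ ρ (h : T)
      rw [e0, LinearMap.add_comp, LinearMap.comp_add]
      congr 1
      · calc p ∘ₗ (ρ (g : T) ∘ₗ δ h) ∘ₗ p = (p ∘ₗ ρ (g : T)) ∘ₗ (δ h ∘ₗ p) := rfl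
          _ = _ := by rw [e1]; rfl
      · calc p ∘ₗ (δ g ∘ₗ ρ (h : T)) ∘ₗ p = p ∘ₗ δ g ∘ₗ (ρ (h : T) ∘ₗ p) := rfl
          _ = _ := by rw [e2]; rfl
    · intro g
      refine ⟨?_, ?_⟩
      · calc p ∘ₗ (p ∘ₗ δ g ∘ₗ p) = (p ∘ₗ p) ∘ₗ (δ g ∘ₗ p) := rfl
          _ = _ := by rw [hpp]
      · calc (p ∘ₗ δ g ∘ₗ p) ∘ₗ p = p ∘ₗ δ g ∘ₗ (p ∘ₗ p) := rfl
          _ = _ := by rw [hpp]
  obtain ⟨c₁, c₂, X, hc, hX⟩ := hE _ _ (hcomp δ₁ hδ₁).1 (hcomp δ₂ hδ₂).1 (hcomp δ₁ hδ₁).2
    (hcomp δ₂ hδ₂).2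
  -- the combination
  have hδ : IsDer ρ (fun t => c₁ • δ₁ t + c₂ • δ₂ t) := by
    intro g h
    change c₁ • δ₁ (g * h) + c₂ • δ₂ (g * h) = ρ g ∘ₗ (c₁ • δ₁ h + c₂ • δ₂ h) +
      (c₁ • δ₁ g + c₂ • δ₂ g) ∘ₗ ρ h
    rw [hδ₁ g h, hδ₂ g h, smul_add, smul_add, LinearMap.comp_add, LinearMap.add_comp,
      LinearMap.comp_smul, LinearMap.comp_smul, LinearMap.smul_comp, LinearMap.smul_comp]
    abel
  obtain ⟨δ, hδd⟩ : ∃ δ : T → V →ₗ[F] V, δ = fun t => c₁ • δ₁ t + c₂ • δ₂ t := ⟨_, rfl⟩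
  rw [← hδd] at hδ
  have hX' : ∀ g : NP P₁, p ∘ₗ δ g ∘ₗ p = ρ (g : T) ∘ₗ X - X ∘ₗ ρ (g : T) := by
    intro g
    have e1 : p ∘ₗ δ g ∘ₗ p = c₁ • (p ∘ₗ δ₁ g ∘ₗ p) + c₂ • (p ∘ₗ δ₂ g ∘ₗ p) := by
      rw [hδd]
      change p ∘ₗ (c₁ • δ₁ g + c₂ • δ₂ g) ∘ₗ p = _
      rw [LinearMap.add_comp, LinearMap.comp_add, LinearMap.smul_comp, LinearMap.smul_comp,
        LinearMap.comp_smul, LinearMap.comp_smul]
    rw [e1]
    exact hX g
  obtain ⟨⟨h, hh⟩, -⟩ := h3 ℓ n F T V P₁ P x₀ e hB ρ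
  rw [he, ← hp] at hh
  obtain ⟨d1, d2, d3⟩ := h5 F T V ρ P δ hδ
  obtain ⟨Y1, hY1⟩ := d1 h
  obtain ⟨Y2, hY2⟩ := d2 h
  obtain ⟨α, hα, hα1⟩ := h2 ℓ n F T V P₁ P x₀ e hB ρ
  rw [he] at hα1
  have key : ∀ x ∈ P, δ x = ρ x ∘ₗ (X + p ∘ₗ Y1 + Y2) - (X + p ∘ₗ Y1 + Y2) ∘ₗ ρ x := by
    intro x hx
    have e1 : δ x = p ∘ₗ δ x ∘ₗ p + p ∘ₗ (δ x ∘ₗ trS P ρ ρ h) + trS P ρ ρ h ∘ₗ δ x := by
      have e2 : δ x = (p + trS P ρ ρ h) ∘ₗ δ x := by
        rw [← hh]
        rfl
      have e3 : δ x = δ x ∘ₗ (p + trS P ρ ρ h) := by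
        rw [← hh]
        rfl
      calc δ x = (p + trS P ρ ρ h) ∘ₗ δ x := e2
        _ = p ∘ₗ δ x + trS P ρ ρ h ∘ₗ δ x := by rw [LinearMap.add_comp]
        _ = p ∘ₗ (δ x ∘ₗ (p + trS P ρ ρ h)) + trS P ρ ρ h ∘ₗ δ x := by rw [← e3]
        _ = _ := by rw [LinearMap.comp_add, LinearMap.comp_add]
    have e4 := hX' ⟨x, hPN hx⟩
    have e5 : p ∘ₗ ρ x = ρ x ∘ₗ p := hpc ⟨x, hPN hx⟩
    have e6 : p ∘ₗ (ρ x ∘ₗ Y1 - Y1 ∘ₗ ρ x) = ρ x ∘ₗ (p ∘ₗ Y1) - (p ∘ₗ Y1) ∘ₗ ρ x := by
      rw [LinearMap.comp_sub]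
      congr 1
      calc p ∘ₗ (ρ x ∘ₗ Y1) = (p ∘ₗ ρ x) ∘ₗ Y1 := rfl
        _ = _ := by rw [e5]; rfl
    rw [hY1 x hx, hY2 x hx, e6] at e1
    rw [e1]
    change p ∘ₗ δ x ∘ₗ p = _ at e4
    rw [e4]
    simp only [LinearMap.comp_add, LinearMap.add_comp]
    abel
  obtain ⟨Y, hY⟩ := d3 α hα hα1 ⟨_, key⟩
  refine ⟨c₁, c₂, Y, hc, fun g => ?_⟩
  have := hY g
  rw [hδd] at this
  exact this

end Pool.Agent.DPX


end

section

/-!
# TWX: the stabilizers of the characters of a block of a normal subgroup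
-/

set_option autoImplicit false

namespace Pool.Agent.DPX

open Pool.Agent.DP Pool.Agent.DPV Pool.Agent.DPB Pool.Agent.DPW Pool.Agent.Lib_helper13
open Representation

namespace TWX

/-- The stabilizer of a function. -/
def stF {H A X : Type} [Group H] [Group A] (κ : H →* MulAut A) (f : A → X) : Subgroup H where
  carrier := {h | ∀ x, f (κ h x) = f x}
  one_mem' := by
    intro x
    rw [map_one, MulAut.one_apply]
  mul_mem' := by
    intro a b ha hb x
    rw [map_mul, MulAut.mul_apply, ha, hb]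
  inv_mem' := by
    intro a ha x
    have h := ha (κ a⁻¹ x)
    rw [← MulAut.mul_apply, ← map_mul, mul_inv_cancel, map_one, MulAut.one_apply] at h
    exact h.symm

theorem mem_stF {H A X : Type} [Group H] [Group A] {κ : H →* MulAut A} {f : A → X} {h : H} :
    h ∈ stF κ f ↔ ∀ x, f (κ h x) = f x := Iff.rfl

section Kap

variable {H : Type} [Group H] (N : Subgroup H) [N.Normal] (C : Subgroup N)

/-- The action of the group by conjugation on an invariant subgroup of a normal subgroup. -/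
theorem exists_kap (hC : ∀ (h : H) (c : N), c ∈ C → (MulAut.conjNormal h : MulAut N) c ∈ C) :
    ∃ κ : H →* MulAut C, ∀ (h : H) (c : C),
      (((κ h c : C) : N) : H) = h * ((c : N) : H) * h⁻¹ := by
  let CH : Subgroup H := C.map N.subtype
  have hn : CH.Normal := by
    constructor
    rintro _ ⟨c, hc, rfl⟩ g
    exact ⟨(MulAut.conjNormal g : MulAut N) c, hC g c hc, rfl⟩
  let e : C ≃* CH := C.equivMapOfInjective N.subtype N.subtype_injective
  have he : ∀ c : C, ((e c : CH) : H) = ((c : N) : H) := fun c =>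
    Subgroup.coe_equivMapOfInjective_apply C N.subtype N.subtype_injective c
  refine ⟨(MulAut.congr e.symm).toMonoidHom.comp (MulAut.conjNormal (H := CH)), ?_⟩
  intro h c
  have h1 : e (((MulAut.congr e.symm).toMonoidHom.comp (MulAut.conjNormal (H := CH))) h c) =
      MulAut.conjNormal h (e c) := by
    change e (e.symm (MulAut.conjNormal h (e c))) = _
    rw [MulEquiv.apply_symm_apply]
  have h2 := congrArg (Subtype.val : CH → H) h1
  rw [he, MulAut.conjNormal_apply, he] at h2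
  exact h2

end Kap

section Unique

variable {N : Type} [Group N] [Fintype N] (C : Subgroup N) [C.Normal]

omit [Fintype N] in
/-- The data of Clifford theory. -/
theorem clG : ClG C.subtype (MulAut.conjNormal (H := C)) (QuotientGroup.mk' C) := by
  refine ⟨Subtype.val_injective, fun y a => rfl, fun y => ?_⟩
  change ((y : N) : N ⧸ C) = 1 ↔ _
  rw [QuotientGroup.eq_one_iff, Subgroup.range_subtype]

/-- If the stabilizer of `φ` is `C` then only one character lies over `φ`. -/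
theorem unique_over {φ : C → ℂ} (hφ : IsIrr φ)
    (hst : ∀ n : N, (∀ x, φ (MulAut.conjNormal n x) = φ x) → n ∈ C) {ψ ψ' : N → ℂ}
    (hψ : IsIrr ψ) (hψ' : IsIrr ψ') (h : ip (fun c : C => ψ c) φ ≠ 0)
    (h' : ip (fun c : C => ψ' c) φ ≠ 0) : ψ = ψ' := by
  classical
  by_contra hne
  have h1 := SUMM.sum_mult (clG C) hφ hφ
  have h2 : ∀ χ : N → ℂ, ∃ m : ℕ, IsIrr χ → ip (resj C.subtype χ) φ = m := by
    intro χ
    by_cases hχ : IsIrr χ
    · obtain ⟨m, hm⟩ := (hχ.resj C.subtype).exists_ip hφ.isChr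
      exact ⟨m, fun _ => hm⟩
    · exact ⟨0, fun h => absurd h hχ⟩
  choose m hm using h2
  have h3 : (Nat.card C : ℂ) * ∑ χ ∈ irrF N, ip (resj C.subtype χ) φ * ip (resj C.subtype χ) φ =
      ((Nat.card C * ∑ χ ∈ irrF N, m χ * m χ : ℕ) : ℂ) := by
    push_cast
    congr 1
    exact Finset.sum_congr rfl fun χ hχ => by rw [hm χ (mem_irrF.mp hχ)]
  rw [h3] at h1
  have h4 : Nat.card C * ∑ χ ∈ irrF N, m χ * m χ =
      (Finset.univ.filter (fun y : N => cfn (MulAut.conjNormal (H := C)) φ y = φ)).card := by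
    exact_mod_cast h1
  have h5 : (Finset.univ.filter (fun y : N => cfn (MulAut.conjNormal (H := C)) φ y = φ)).card ≤
      Nat.card C := by
    rw [Nat.card_eq_fintype_card, Fintype.card_subtype]
    refine Finset.card_le_card ?_
    intro y hy
    rw [Finset.mem_filter] at hy ⊢
    exact ⟨hy.1, hst y fun x => congrFun hy.2 x⟩
  have h6 : ∑ χ ∈ irrF N, m χ * m χ ≤ 1 := by
    have h7 : Nat.card C * ∑ χ ∈ irrF N, m χ * m χ ≤ Nat.card C * 1 := by
      rw [h4, mul_one]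
      exact h5
    exact Nat.le_of_mul_le_mul_left h7 Nat.card_pos
  have h7 : ∀ χ : N → ℂ, IsIrr χ → ip (fun c : C => χ c) φ ≠ 0 → 1 ≤ m χ := by
    intro χ hχ hne0
    rcases Nat.eq_zero_or_pos (m χ) with h0 | h0
    · exfalso
      apply hne0
      have h8 := hm χ hχ
      rw [h0, Nat.cast_zero] at h8
      exact h8
    · exact h0
  have h8 : m ψ * m ψ + m ψ' * m ψ' ≤ ∑ χ ∈ irrF N, m χ * m χ := by
    have h9 := Finset.sum_pair (f := fun χ => m χ * m χ) hne
    refine h9.symm.le.trans (Finset.sum_le_sum_of_subset ?_)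
    intro χ hχ
    rw [Finset.mem_insert, Finset.mem_singleton] at hχ
    rcases hχ with rfl | rfl
    · exact mem_irrF.mpr hψ
    · exact mem_irrF.mpr hψ'
  have h9 : 1 ≤ m ψ * m ψ := Nat.one_le_iff_ne_zero.mpr (by
    have := h7 ψ hψ h
    positivity)
  have h10 : 1 ≤ m ψ' * m ψ' := Nat.one_le_iff_ne_zero.mpr (by
    have := h7 ψ' hψ' h'
    positivity)
  omega

end Unique

/-- A power of every element centralizes a normal subgroup of order `ℓ`. -/
theorem pow_cen {H : Type} [Group H] [Finite H] (P : Subgroup H) [P.Normal] {ℓ : ℕ}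
    [hl : Fact ℓ.Prime] (hPc : Nat.card P = ℓ) (g : H) :
    g ^ (ℓ - 1) ∈ Subgroup.centralizer (P : Set H) := by
  have hcyc : IsCyclic P := isCyclic_of_prime_card hPc
  have h1 : Nat.card (MulAut P) = ℓ - 1 := by
    have e1 := IsCyclic.mulAutMulEquiv P
    rw [hPc] at e1
    rw [Nat.card_congr e1.toEquiv, Nat.card_eq_fintype_card, ZMod.card_units]
  have h2 : (MulAut.conjNormal (g ^ (ℓ - 1)) : MulAut P) = 1 := by
    rw [map_pow, ← h1]
    exact pow_card_eq_one'
  rw [Subgroup.mem_centralizer_iff]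
  intro u hu
  have h3 : ((MulAut.conjNormal (g ^ (ℓ - 1)) : MulAut P) ⟨u, hu⟩ : H) = u := by
    rw [h2]
    rfl
  rw [MulAut.conjNormal_apply] at h3
  exact (mul_inv_eq_iff_eq_mul.mp h3).symm

end TWX

open _root_.Pool.Agent.DPX.TWX in
theorem TWX_thm (h1 : Stmt_ATCX) (h2 : Stmt_ACTX) (h3 : Stmt_ORBX) : Stmt_TWX := by
  intro H _ _ 𝔐 ℓ n hl h𝔐 hℓ P₁ N _ _ hPc hPN hidx ψ₀ P x₀ hψ₀ hAt
  classical
  have hlp : ℓ.Prime := hl.out
  set Z : Subgroup H := Subgroup.centralizer (P₁ : Set H) with hZ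
  let C : Subgroup N := Subgroup.centralizer ((P₁.subgroupOf N : Subgroup N) : Set N)
  have hmem : ∀ x : N, x ∈ C ↔ (x : H) ∈ Z := by
    intro x
    rw [Subgroup.mem_centralizer_iff, hZ, Subgroup.mem_centralizer_iff]
    constructor
    · intro h u hu
      exact congrArg Subtype.val (h ⟨u, hPN hu⟩ (Subgroup.mem_subgroupOf.mpr hu))
    · intro h u hu
      exact Subtype.ext (h u (Subgroup.mem_subgroupOf.mp hu))
  have hZn : Z.Normal := by
    constructor
    intro x hx g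
    rw [hZ, Subgroup.mem_centralizer_iff] at hx ⊢
    intro u hu
    have e1 : g⁻¹ * u * g ∈ P₁ := by
      have := (inferInstance : P₁.Normal).conj_mem u hu g⁻¹
      rwa [inv_inv] at this
    have e2 := hx _ e1
    calc u * (g * x * g⁻¹) = g * ((g⁻¹ * u * g) * x) * g⁻¹ := by group
      _ = g * x * g⁻¹ * u := by rw [e2]; group
  have hCst : ∀ (h : H) (c : N), c ∈ C → (MulAut.conjNormal h : MulAut N) c ∈ C := by
    intro h c hc
    rw [hmem] at hc ⊢
    rw [MulAut.conjNormal_apply]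
    exact hZn.conj_mem _ hc h
  have hCn : C.Normal := by
    constructor
    intro x hx g
    rw [hmem] at hx ⊢
    exact hZn.conj_mem _ hx g
  obtain ⟨κ, hκ⟩ := exists_kap N C hCst
  have hκN : ∀ g : N, (MulAut.conjNormal g : MulAut C) = κ (g : H) := by
    intro g
    refine MulEquiv.ext fun x => ?_
    apply Subtype.ext
    apply Subtype.ext
    rw [hκ]
    rfl
  have hκC : ∀ (c : C) (x : C), κ ((c : N) : H) x = c * x * c⁻¹ := by
    intro c x
    apply Subtype.ext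
    apply Subtype.ext
    rw [hκ]
    rfl
  -- elements of `C` fix the class functions
  have hfixC : ∀ φ : C → ℂ, IsIrr φ → ∀ g : H, g ∈ Z → g ∈ N → ∀ x, φ (κ g x) = φ x := by
    intro φ hφ g hgZ hgN x
    have e1 := hκC ⟨⟨g, hgN⟩, (hmem _).mpr hgZ⟩ x
    rw [e1, hφ.conj_eq]
  -- commutators
  have hcomm : ∀ g h : H, g * h * g⁻¹ * h⁻¹ ∈ Z := by
    intro g h
    rw [hZ, Subgroup.mem_centralizer_iff]
    intro u hu
    exact (TWH.comm_act P₁ ℓ hPc g h u hu).symm
  obtain ⟨φ₀, hφ₀, hφ₀u⟩ := CLG.exists_under C.subtype hψ₀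
  have hcardP : Nat.card (P₁.subgroupOf N) = ℓ := by
    rw [Nat.card_congr (Subgroup.subgroupOfEquivOfLe hPN).toEquiv, hPc]
  obtain ⟨P', x', -, -, -, hAtC⟩ := h1 N 𝔐 ℓ n h𝔐 hℓ (P₁.subgroupOf N) P x₀ ψ₀ hψ₀ hAt C rfl
    φ₀ hφ₀ hφ₀u
  obtain ⟨hO1, hO2⟩ := h3 N 𝔐 ℓ h𝔐 hℓ (P₁.subgroupOf N) hcardP C rfl ψ₀ hψ₀ φ₀ hφ₀ hφ₀u
  -- the block of `φ₀`
  let I : (C → ℂ) → Prop := fun φ => IsIrr φ ∧
    cen 𝔐 (MonoidHom.id C) φ = cen 𝔐 (MonoidHom.id C) φ₀
  let Γ : Subgroup H := stF κ (cen 𝔐 (MonoidHom.id C) φ₀)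
  have hstΓ : ∀ φ, I φ → stF κ φ ≤ Γ := by
    rintro φ ⟨hφ, hφc⟩ h hh x
    rw [← hφc, ← TWW.cen_aut]
    have e1 : (fun x => φ (κ h x)) = φ := funext hh
    rw [e1]
  have hIΓ : ∀ φ, I φ → ∀ h ∈ Γ, I (fun x => φ (κ h x)) := by
    rintro φ ⟨hφ, hφc⟩ h hh
    refine ⟨hφ.comp_mulEquiv (κ h : C ≃* C), ?_⟩
    funext x
    rw [TWW.cen_aut, hφc]
    exact hh x
  -- the action on the block
  have hcenP : ((P₁.subgroupOf N).subgroupOf C : Subgroup C) ≤ Subgroup.center C := by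
    intro u hu
    rw [Subgroup.mem_center_iff]
    intro g
    have e1 := Subgroup.mem_centralizer_iff.mp g.2 (u : N) (Subgroup.mem_subgroupOf.mp hu)
    exact Subtype.ext e1.symm
  have hact : ∀ h ∈ Γ, (h ∈ Z → ∀ φ, I φ → h ∈ stF κ φ) ∧
      (h ∉ Z → ∃ φ₁, I φ₁ ∧ h ∈ stF κ φ₁ ∧ ∀ φ, I φ → h ∈ stF κ φ → φ = φ₁) := by
    intro h hh
    have e1 : ∀ u ∈ ((P₁.subgroupOf N).subgroupOf C : Subgroup C),
        κ h u ∈ ((P₁.subgroupOf N).subgroupOf C : Subgroup C) := by
      intro u hu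
      rw [Subgroup.mem_subgroupOf, Subgroup.mem_subgroupOf] at hu ⊢
      rw [hκ]
      exact (inferInstance : P₁.Normal).conj_mem _ hu h
    have e2 : ∃ M : ℕ, ¬ ℓ ∣ M ∧ ∃ g, ∀ x, (κ h ^ M) x = g * x * g⁻¹ := by
      refine ⟨N.index * (ℓ - 1), ?_, ?_⟩
      · intro hd
        rcases hlp.dvd_mul.mp hd with h4 | h4
        · exact hidx h4
        · have h5 := hlp.one_lt
          exact absurd (Nat.le_of_dvd (by omega) h4) (by omega)
      · have h4 : h ^ (N.index * (ℓ - 1)) ∈ N := by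
          rw [pow_mul]
          exact N.pow_mem (N.pow_index_mem h) _
        have h5 : h ^ (N.index * (ℓ - 1)) ∈ Z := by
          rw [pow_mul]
          exact pow_cen P₁ hPc _
        refine ⟨⟨⟨_, h4⟩, (hmem _).mpr h5⟩, fun x => ?_⟩
        rw [← map_pow]
        exact hκC ⟨⟨_, h4⟩, (hmem _).mpr h5⟩ x
    obtain ⟨a1, a2⟩ := h2 C 𝔐 ℓ n h𝔐 hℓ _ P' x' hcenP φ₀ hφ₀ hAtC (κ h) hh e1 e2
    constructor
    · intro hhZ φ hφ
      refine a1 ?_ φ hφ.1 hφ.2
      intro u hu
      apply Subtype.ext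
      apply Subtype.ext
      rw [hκ]
      have h4 := Subgroup.mem_centralizer_iff.mp hhZ _
        (Subgroup.mem_subgroupOf.mp (Subgroup.mem_subgroupOf.mp hu))
      rw [← h4, mul_inv_cancel_right]
    · intro hhZ
      have h4 : ∃ u ∈ ((P₁.subgroupOf N).subgroupOf C : Subgroup C), κ h u ≠ u := by
        by_contra hcon
        push Not at hcon
        apply hhZ
        rw [hZ, Subgroup.mem_centralizer_iff]
        intro u hu
        have huN : (⟨u, hPN hu⟩ : N) ∈ C := by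
          rw [hmem, hZ, Subgroup.mem_centralizer_iff]
          intro v hv
          have hcyc : IsCyclic P₁ := isCyclic_of_prime_card hPc
          have hcg : ∀ a b : P₁, a * b = b * a := by
            let _ := IsCyclic.commGroup (α := P₁)
            exact mul_comm
          exact congrArg Subtype.val (hcg ⟨v, hv⟩ ⟨u, hu⟩)
        have h5 := hcon ⟨⟨u, hPN hu⟩, huN⟩
          (Subgroup.mem_subgroupOf.mpr (Subgroup.mem_subgroupOf.mpr hu))
        have h6 := congrArg (fun y : C => ((y : N) : H)) h5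
        simp only [hκ] at h6
        exact (mul_inv_eq_iff_eq_mul.mp h6).symm
      obtain ⟨φ₁, b1, b2, b3, b4⟩ := a2 h4
      exact ⟨φ₁, ⟨b1, b2⟩, b3, fun φ hφ hφh => b4 φ hφ.1 hφ.2 hφh⟩
  -- at most one character of the block is fixed by an element outside `Z`
  have huniq : ∀ φ φ', I φ → I φ' → ¬ stF κ φ ≤ Z → ¬ stF κ φ' ≤ Z → φ = φ' := by
    intro φ φ' hφ hφ' hn hn'
    obtain ⟨g, hg, hgZ⟩ := SetLike.not_le_iff_exists.mp hn
    obtain ⟨g', hg', hgZ'⟩ := SetLike.not_le_iff_exists.mp hn'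
    have hgΓ := hstΓ φ hφ hg
    have hgΓ' := hstΓ φ' hφ' hg'
    obtain ⟨φ₁, b1, b2, b3⟩ := (hact g hgΓ).2 hgZ
    obtain ⟨φ₂, c1, c2, c3⟩ := (hact g' hgΓ').2 hgZ'
    have e1 : φ = φ₁ := b3 φ hφ hg
    have e2 : (fun x => φ (κ g' x)) = φ₁ := by
      refine b3 _ (hIΓ φ hφ g' hgΓ') ?_
      intro x
      change φ (κ g' (κ g x)) = φ (κ g' x)
      have h4 : κ g' (κ g x) = κ (g' * g * g'⁻¹ * g⁻¹) (κ g (κ g' x)) := by
        rw [← MulAut.mul_apply, ← MulAut.mul_apply, ← MulAut.mul_apply, ← map_mul, ← map_mul,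
          ← map_mul]
        congr 2
        group
      have h5 : g' * g * g'⁻¹ * g⁻¹ ∈ Γ :=
        mul_mem (mul_mem (mul_mem hgΓ' hgΓ) (inv_mem hgΓ')) (inv_mem hgΓ)
      have h6 := (hact _ h5).1 (hcomm g' g) φ hφ
      rw [h4, h6, hg]
    have e3 : g' ∈ stF κ φ := by
      intro x
      have := congrFun e2 x
      rw [← e1] at this
      exact this
    exact (c3 φ hφ e3).trans (c3 φ' hφ' hg').symm
  -- every character of the block lies over a character of `I`
  have hover : ∀ ψ : N → ℂ, IsIrr ψ →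
      cen 𝔐 (MonoidHom.id N) ψ = cen 𝔐 (MonoidHom.id N) ψ₀ →
      ∃ φ, I φ ∧ ip (fun c : C => ψ c) φ ≠ 0 := by
    intro ψ hψ hψc
    obtain ⟨φ, hφ, hφu⟩ := CLG.exists_under C.subtype hψ
    obtain ⟨g, hg⟩ := (hO1 ψ φ hψ hφ hφu).mp hψc
    refine ⟨fun c => φ (MulAut.conjNormal g c), ⟨(hO2 φ g hφ).1, hg⟩, ?_⟩
    have h4 := SUMM.ip_cfn (clG C) (θ := φ) hψ g
    have h5 : ip (fun c : C => ψ c) (fun c => φ (MulAut.conjNormal g c)) =
        ip (fun c : C => ψ c) φ := h4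
    rw [h5]
    exact hφu
  -- the stabilizer of a character over `φ`
  have hst1 : ∀ (ψ : N → ℂ) (φ : C → ℂ), IsIrr ψ → IsIrr φ → ip (fun c : C => ψ c) φ ≠ 0 →
      ∀ h ∈ stF (MulAut.conjNormal (H := N)) ψ, ∃ k : N, h * (k : H)⁻¹ ∈ stF κ φ := by
    intro ψ φ hψ hφ hu h hh
    have h4 : ip (fun c : C => ψ c) (fun x : C => φ (κ h x)) ≠ 0 := by
      have h5 := BLKC.ip_comp_equiv (κ h : C ≃* C) (fun c : C => ψ c) φ
      have h6 : (fun y : C => (fun c : C => ψ c) ((κ h : C ≃* C) y)) = fun c : C => ψ c := by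
        funext y
        have h7 : ((κ h y : C) : N) = (MulAut.conjNormal h : MulAut N) (y : N) := by
          apply Subtype.ext
          rw [hκ]
          rfl
        change ψ ((κ h y : C) : N) = ψ y
        rw [h7]
        exact hh y
      rw [h6] at h5
      rw [h5]
      exact hu
    obtain ⟨k, hk⟩ := SUMM.exists_conj (clG C) hφ (hφ.comp_mulEquiv (κ h : C ≃* C)) hψ hu h4
    refine ⟨k, ?_⟩
    intro x
    have h5 := congrFun hk (κ (k : H)⁻¹ x)
    change φ ((MulAut.conjNormal k : MulAut C) (κ (k : H)⁻¹ x)) = φ (κ h (κ (k : H)⁻¹ x)) at h5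
    rw [hκN, ← MulAut.mul_apply, ← map_mul, mul_inv_cancel, map_one, MulAut.one_apply,
      ← MulAut.mul_apply, ← map_mul] at h5
    exact h5.symm
  have hstN : ∀ ψ : N → ℂ, IsIrr ψ → N ≤ stF (MulAut.conjNormal (H := N)) ψ := by
    intro ψ hψ h hh x
    have h4 : (MulAut.conjNormal h : MulAut N) x = (⟨h, hh⟩ : N) * x * (⟨h, hh⟩ : N)⁻¹ :=
      Subtype.ext rfl
    rw [h4, hψ.conj_eq]
  let S₂ : Subgroup H := N ⊔ (Γ ⊓ Z)
  have hfree : ∀ (ψ : N → ℂ) (φ : C → ℂ), IsIrr ψ → I φ → ip (fun c : C => ψ c) φ ≠ 0 →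
      stF κ φ ≤ Z → stF (MulAut.conjNormal (H := N)) ψ = S₂ := by
    intro ψ φ hψ hφ hu hfr
    apply le_antisymm
    · intro h hh
      obtain ⟨k, hk⟩ := hst1 ψ φ hψ hφ.1 hu h hh
      have h4 : h = (h * (k : H)⁻¹) * k := by group
      rw [h4]
      exact mul_mem (Subgroup.mem_sup_right ⟨hstΓ φ hφ hk, hfr hk⟩) (Subgroup.mem_sup_left k.2)
    · refine sup_le (hstN ψ hψ) ?_
      rintro h ⟨hhΓ, hhZ⟩
      have h4 := (hact h hhΓ).1 hhZ φ hφ
      have h5 : IsIrr (fun x : N => ψ ((MulAut.conjNormal h : N ≃* N) x)) :=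
        hψ.comp_mulEquiv (MulAut.conjNormal h : N ≃* N)
      have h6 : ip (fun c : C => ψ ((MulAut.conjNormal h : N ≃* N) c)) φ ≠ 0 := by
        have h7 := BLKC.ip_comp_equiv (κ h : C ≃* C) (fun c : C => ψ c) φ
        have h8 : (fun y : C => φ ((κ h : C ≃* C) y)) = φ := funext h4
        rw [h8] at h7
        have h9 : (fun y : C => (fun c : C => ψ c) ((κ h : C ≃* C) y)) =
            fun c : C => ψ ((MulAut.conjNormal h : N ≃* N) c) := by
          funext y
          have h10 : ((κ h y : C) : N) = (MulAut.conjNormal h : MulAut N) (y : N) := by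
            apply Subtype.ext
            rw [hκ]
            rfl
          change ψ ((κ h y : C) : N) = ψ ((MulAut.conjNormal h : MulAut N) (y : N))
          rw [h10]
        rw [h9] at h7
        rw [h7]
        exact hu
      have h7 := unique_over C hφ.1 (fun k hk => by
        rw [hmem]
        apply hfr
        intro x
        rw [← hκN]
        exact hk x) hψ h5 hu h6
      intro x
      exact (congrFun h7 x).symm
  -- two characters over the same character have the same stabilizer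
  have hsame : ∀ (ψ ψ' : N → ℂ) (φ : C → ℂ), IsIrr ψ → IsIrr ψ' → IsIrr φ →
      ip (fun c : C => ψ c) φ ≠ 0 → ip (fun c : C => ψ' c) φ ≠ 0 →
      stF (MulAut.conjNormal (H := N)) ψ ≤ stF (MulAut.conjNormal (H := N)) ψ' := by
    intro ψ ψ' φ hψ hψ' hφ hu hu' h hh x
    have hcN : ∀ x y : N, x * y * x⁻¹ * y⁻¹ ∈ C := by
      intro x y
      rw [hmem]
      exact hcomm x y
    obtain ⟨lam, hl1, hl2⟩ := ABL_thm N C hcN ψ ψ' hψ hψ' φ hφ hu hu'
    have h4 : lam ((MulAut.conjNormal h : MulAut N) x) = lam x := by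
      have h5 : (MulAut.conjNormal h : MulAut N) x * x⁻¹ ∈ C := by
        rw [hmem]
        exact hcomm h x
      have h6 := hl1 _ h5
      rw [map_mul, map_inv] at h6
      exact mul_inv_eq_one.mp h6
    rw [hl2]
    simp only
    rw [h4, hh x]
  by_cases hex : ∃ (ψ₁ : N → ℂ) (φ₁ : C → ℂ), IsIrr ψ₁ ∧ I φ₁ ∧
      ip (fun c : C => ψ₁ c) φ₁ ≠ 0 ∧ ¬ stF κ φ₁ ≤ Z
  · obtain ⟨ψ₁, φ₁, hψ₁, hφ₁, hu₁, hn₁⟩ := hex
    refine ⟨stF (MulAut.conjNormal (H := N)) ψ₁, S₂, ?_⟩
    intro ψ hψ hψc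
    obtain ⟨φ, hφ, hu⟩ := hover ψ hψ hψc
    by_cases hfr : stF κ φ ≤ Z
    · right
      intro h
      rw [← hfree ψ φ hψ hφ hu hfr]
      rfl
    · left
      have h4 : φ = φ₁ := huniq φ φ₁ hφ hφ₁ hfr hn₁
      rw [h4] at hu
      intro h
      rw [le_antisymm (hsame ψ₁ ψ φ₁ hψ₁ hψ hφ₁.1 hu₁ hu) (hsame ψ ψ₁ φ₁ hψ hψ₁ hφ₁.1 hu hu₁)]
      rfl
  · refine ⟨S₂, S₂, ?_⟩
    intro ψ hψ hψc
    obtain ⟨φ, hφ, hu⟩ := hover ψ hψ hψc
    right
    by_cases hfr : stF κ φ ≤ Z
    · intro h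
      rw [← hfree ψ φ hψ hφ hu hfr]
      rfl
    · exact absurd ⟨ψ, φ, hψ, hφ, hu, hfr⟩ hex

end Pool.Agent.DPX


end

section

/-!
# TWOX: the stabilizers of the local characters of a block
-/

set_option autoImplicit false
set_option linter.unusedSectionVars false

namespace Pool.Agent.DPX

open Pool.Agent.DP Pool.Agent.DPV Pool.Agent.DPB Pool.Agent.DPW Pool.Agent.Lib_helper13
open Representation

namespace TWOX

theorem stb_single {G : Type} [Group G] (P : Subgroup G) :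
    stb ({P} : Finset (Subgroup G)) = Subgroup.normalizer (P : Set G) := by
  simp [stb]

theorem conjInd_equiv {T T' : Type} [Group T] [Group T'] (e : T ≃* T') (y s : T) :
    conjInd (e y) (e s) = conjInd y s := by
  have h : IsConj (e y) (e s) ↔ IsConj y s := by
    constructor
    · intro h
      have h2 := MonoidHom.map_isConj (e.symm : T' →* T) h
      simpa using h2
    · intro h
      exact MonoidHom.map_isConj (e : T →* T') h
  exact conjInd_congr h

theorem cen_equiv (𝔐 : Ideal (integralClosure ℤ ℂ)) {T T' : Type} [Group T] [Fintype T]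
    [Group T'] [Fintype T'] (e : T ≃* T') (θ : T' → ℂ) (s : T) :
    cen 𝔐 (MonoidHom.id T') θ (e s) = cen 𝔐 (MonoidHom.id T) (fun y => θ (e y)) s := by
  rw [← cen_comp_equiv 𝔐 e (MonoidHom.id T') θ, cen, cen]
  congr 2
  funext y
  exact conjInd_equiv e y s

theorem card_centralizer_equiv {T T' : Type} [Group T] [Group T'] (e : T ≃* T') (x : T) :
    Nat.card (Subgroup.centralizer ({e x} : Set T')) =
      Nat.card (Subgroup.centralizer ({x} : Set T)) := by
  refine (Nat.card_congr ((e.subgroupMap (Subgroup.centralizer ({x} : Set T))).toEquiv.trans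
    (Equiv.setCongr ?_))).symm
  ext y
  simp only [SetLike.mem_coe, Subgroup.mem_map, Subgroup.mem_centralizer_singleton_iff]
  constructor
  · rintro ⟨z, hz, rfl⟩
    change e z * e x = e x * e z
    rw [← map_mul, hz, map_mul]
  · intro hy
    refine ⟨e.symm y, ?_, by simp⟩
    apply e.injective
    simpa using hy

theorem CycD.equiv {ℓ n : ℕ} {T T' : Type} [Group T] [Group T'] (e : T ≃* T')
    {P₁ P : Subgroup T} {x₀ : T} (h : CycD ℓ n P₁ P x₀) :
    CycD ℓ n (P₁.map (e : T →* T')) (P.map (e : T →* T')) (e x₀) := by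
  have hinj : Function.Injective (e : T →* T') := e.injective
  have e1 := P₁.equivMapOfInjective (e : T →* T') hinj
  have e2 := P.equivMapOfInjective (e : T →* T') hinj
  have := h.cyc
  refine ⟨Subgroup.map_mono h.le, ?_, ?_, ?_, ?_, ?_⟩
  · rw [← Nat.card_congr e1.toEquiv, h.c1]
  · exact isCyclic_of_surjective e2 e2.surjective
  · rw [← Nat.card_congr e2.toEquiv, h.card]
  · rintro _ ⟨u, hu, rfl⟩
    change e u * e x₀ = e x₀ * e u
    rw [← map_mul, h.cen u hu, map_mul]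
  · rw [card_centralizer_equiv e]
    exact h.sq

theorem AtX.equiv {ℓ n : ℕ} {F T T' : Type} [Zero F] [Group T] [Group T'] (e : T ≃* T')
    {ω : T → F} {ω' : T' → F} (hω : ∀ x, ω' (e x) = ω x)
    {P₁ P : Subgroup T} {x₀ : T} (h : AtX ℓ n ω P₁ P x₀) :
    AtX ℓ n ω' (P₁.map (e : T →* T')) (P.map (e : T →* T')) (e x₀) := by
  refine ⟨CycD.equiv e h.cd, ?_, ?_⟩
  · rw [hω]
    exact h.ne
  · intro x hx
    obtain ⟨y, rfl⟩ := e.surjective x
    rw [hω] at hx
    rw [card_centralizer_equiv e]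
    exact h.mn y hx

open TWOV

section Main

variable {G B C : Type} [Group G] [Group B] [Group C] {ι : G →* B} {κ : B →* MulAut G}
  {ρ : B →* C}

theorem mem_NS_iff (cl : ClG ι κ ρ) (P : Subgroup G) (x : HH κ P) :
    x ∈ NS ι κ P ↔ ρ x = 1 := by
  rw [NS, Subgroup.mem_subgroupOf]
  constructor
  · rintro ⟨g, -, hg⟩
    rw [cl.ker]
    exact ⟨g, hg⟩
  · intro h
    rw [cl.ker] at h
    obtain ⟨g, hg⟩ := h
    refine ⟨g, ?_, hg⟩
    rw [SetLike.mem_coe, mem_stb1]
    intro y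
    have h1 := mem_HH_iff x.2 y
    rw [← hg, kap cl] at h1
    exact h1.symm

theorem index_NS [Finite B] [Finite C] (cl : ClG ι κ ρ) (P : Subgroup G) :
    (NS ι κ P).index ∣ Nat.card C := by
  have h1 : NS ι κ P = (ρ.comp (HH κ P).subtype).ker := by
    ext x
    rw [mem_NS_iff cl, MonoidHom.mem_ker]
    rfl
  rw [h1, Subgroup.index_ker]
  exact Subgroup.card_subgroup_dvd_card _

/-- the isomorphism of the normalizer -/
noncomputable def eN (cl : ClG ι κ ρ) (P : Subgroup G) : NP P ≃* NS ι κ P :=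
  (MulEquiv.subgroupCongr (stb_single P).symm).trans (ee cl P)

theorem eN_coe (cl : ClG ι κ ρ) (P : Subgroup G) (s : NP P) :
    (((eN cl P s : NS ι κ P) : HH κ P) : B) = ι s := rfl

theorem PP_map (cl : ClG ι κ ρ) (P : Subgroup G) :
    (P.subgroupOf (Subgroup.normalizer (P : Set G))).map (eN cl P : NP P →* NS ι κ P) =
      (PP ι κ P).subgroupOf (NS ι κ P) := by
  ext x
  rw [Subgroup.mem_subgroupOf, PP, Subgroup.mem_subgroupOf]
  constructor
  · rintro ⟨s, hs, rfl⟩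
    exact ⟨s, hs, rfl⟩
  · rintro ⟨g, hg, hgx⟩
    obtain ⟨s, rfl⟩ := (eN cl P).surjective x
    refine ⟨s, ?_, rfl⟩
    rw [SetLike.mem_coe, Subgroup.mem_subgroupOf]
    rw [eN_coe] at hgx
    rw [← cl.inj hgx]
    exact hg

end Main

end TWOX

open TWOV _root_.Pool.Agent.DPX.TWOX in
/-- TWOX. -/
theorem TWOX_thm (h1 : Stmt_ATNX) (h3 : Stmt_TWX) : Stmt_TWOX := by
  intro G B C _ _ _ _ _ 𝔐 ℓ n hl h𝔐 hℓ ι κ ρ hV hC P₁ P x₀ ω hat hθ
  classical
  obtain ⟨θ, hθ, hθω⟩ := hθ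
  have cl := hV.cl
  by_cases hex : ∃ ψ : G → ℂ, IrrOn (stb {P₁}) ψ ∧ ∀ g, cg 𝔐 ψ g = ω g
  swap
  · refine ⟨⊥, ⊥, fun ψ hψ hcg => absurd ⟨ψ, hψ, hcg⟩ hex⟩
  obtain ⟨ψ₀, hψ₀, hcg₀⟩ := hex
  have hfC : Finite C := Finite.of_surjective ρ hV.surj
  let _ : Fintype (HH κ P₁) := Fintype.ofFinite _
  have := PP_normal cl P₁
  have := NN_normal cl P₁
  let _ : Fintype (NP P₁) := subFintype _
  have hx : x₀ ∈ Subgroup.normalizer (P₁ : Set G) := by
    rw [Subgroup.mem_normalizer_iff]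
    intro u
    constructor
    · intro hu
      have h4 := hat.cd.cen u (hat.cd.le hu)
      rwa [← h4, mul_inv_cancel_right]
    · intro hu
      have h4 := hat.cd.cen _ (hat.cd.le hu)
      have h5 : u = x₀ * u * x₀⁻¹ := by
        calc u = x₀⁻¹ * (x₀ * u * x₀⁻¹ * x₀) := by group
          _ = x₀⁻¹ * (x₀ * (x₀ * u * x₀⁻¹)) := by rw [h4]
          _ = x₀ * u * x₀⁻¹ := by group
      rw [h5]
      exact hu
  have hstb : ∀ f : G → ℂ, IrrOn (stb ({P₁} : Finset (Subgroup G))) f →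
      IrrOn (Subgroup.normalizer (P₁ : Set G)) f := by
    intro f hf
    have := stb_single P₁
    rwa [this] at hf
  have hcs : ∀ f : G → ℂ, IrrOn (stb ({P₁} : Finset (Subgroup G))) f →
      (∀ g, cg 𝔐 f g = ω g) →
      cen 𝔐 (Subgroup.normalizer (P₁ : Set G)).subtype (fun s : NP P₁ => f s) =
        cen 𝔐 (MonoidHom.id G) θ := by
    intro f hf hcg
    rw [hθω]
    funext g
    rw [Pool.Agent.DP.AA.cg_eq 𝔐 _ (hstb f hf) g, hcg]
  obtain ⟨h4, h5⟩ := h1 G 𝔐 ℓ n h𝔐 hℓ θ hθ P₁ P x₀ (by rw [hθω]; exact hat) hx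
    (fun s : NP P₁ => ψ₀ s) (hstb ψ₀ hψ₀).1 (hcs ψ₀ hψ₀ hcg₀)
  have hle : PP ι κ P₁ ≤ NS ι κ P₁ := by
    intro x hx
    rw [NS, Subgroup.mem_subgroupOf]
    exact Subgroup.map_mono (P_le_stb P₁) hx
  have hirr : ∀ f : G → ℂ, IrrOn (stb ({P₁} : Finset (Subgroup G))) f →
      IsIrr (fun n : NS ι κ P₁ => f ((eN cl P₁).symm n : NP P₁)) := by
    intro f hf
    exact (hstb f hf).1.comp_mulEquiv (eN cl P₁).symm
  have hsy : ∀ (s : NP P₁), (((eN cl P₁).symm (eN cl P₁ s) : NP P₁) : G) = s := by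
    intro s
    rw [MulEquiv.symm_apply_apply]
  have hcen : ∀ (f : G → ℂ) (s : NP P₁),
      cen 𝔐 (MonoidHom.id (NS ι κ P₁)) (fun n : NS ι κ P₁ => f ((eN cl P₁).symm n : NP P₁))
        (eN cl P₁ s) = cen 𝔐 (MonoidHom.id (NP P₁)) (fun s : NP P₁ => f s) s := by
    intro f s
    rw [cen_equiv]
    simp only [hsy]
  have h6 := AtX.equiv (eN cl P₁) (hcen ψ₀) h4
  rw [PP_map] at h6
  obtain ⟨S₁, S₂, hS⟩ := h3 (HH κ P₁) 𝔐 ℓ n h𝔐 hℓ (PP ι κ P₁) (NS ι κ P₁)
    (by rw [card_PP cl, hat.cd.c1]) hle (fun h => hC (h.trans (index_NS cl P₁))) _ _ _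
    (hirr ψ₀ hψ₀) h6
  refine ⟨(S₁.map (HH κ P₁).subtype).map ρ, (S₂.map (HH κ P₁).subtype).map ρ, ?_⟩
  intro ψ hψ hcg
  have h7 : cen 𝔐 (MonoidHom.id (NS ι κ P₁))
      (fun n : NS ι κ P₁ => ψ ((eN cl P₁).symm n : NP P₁)) =
      cen 𝔐 (MonoidHom.id (NS ι κ P₁))
      (fun n : NS ι κ P₁ => ψ₀ ((eN cl P₁).symm n : NP P₁)) := by
    funext x
    obtain ⟨s, rfl⟩ := (eN cl P₁).surjective x
    rw [hcen, hcen]
    exact congrFun ((h5 _ (hstb ψ hψ).1).mpr (hcs ψ hψ hcg)) s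
  have key : ∀ S : Subgroup (HH κ P₁), (∀ h : HH κ P₁, h ∈ S ↔ ∀ x : NS ι κ P₁,
      ψ ((eN cl P₁).symm (MulAut.conjNormal h x) : NP P₁) = ψ ((eN cl P₁).symm x : NP P₁)) →
      Stx κ {P₁} ψ = S.map (HH κ P₁).subtype := by
    intro S hS
    have hstb1 : ∀ g : G, g ∈ stb ({P₁} : Finset (Subgroup G)) ↔
        g ∈ Subgroup.normalizer (P₁ : Set G) := by
      intro g
      rw [stb_single P₁]
    have hcj : ∀ (b : HH κ P₁) (g : G) (hg : g ∈ Subgroup.normalizer (P₁ : Set G))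
        (hg' : κ b g ∈ Subgroup.normalizer (P₁ : Set G)),
        MulAut.conjNormal b (eN cl P₁ ⟨g, hg⟩) = eN cl P₁ ⟨κ b g, hg'⟩ := by
      intro b g hg hg'
      apply Subtype.ext
      apply Subtype.ext
      rw [MulAut.conjNormal_apply]
      exact (cl.act b g).symm
    ext b
    constructor
    · intro hb
      have hbH : b ∈ HH κ P₁ := ⟨hb.1, fun _ => rfl⟩
      refine ⟨⟨b, hbH⟩, ?_, rfl⟩
      rw [SetLike.mem_coe, hS]
      intro x
      obtain ⟨⟨g, hg⟩, rfl⟩ := (eN cl P₁).surjective x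
      have hg' : κ b g ∈ Subgroup.normalizer (P₁ : Set G) := by
        rw [← hstb1] at hg ⊢
        exact (stb_kap hbH g).mpr hg
      rw [hcj ⟨b, hbH⟩ g hg hg', hsy, hsy]
      exact hb.2 g
    · rintro ⟨⟨b', hbH⟩, hb, rfl⟩
      rw [SetLike.mem_coe, hS] at hb
      refine ⟨hbH.1, fun g => ?_⟩
      change ψ (κ b' g) = ψ g
      by_cases hg : g ∈ stb ({P₁} : Finset (Subgroup G))
      · have hg' := (stb_kap hbH g).mpr hg
        have h8 := hb (eN cl P₁ ⟨g, (hstb1 g).mp hg⟩)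
        rw [hcj ⟨b', hbH⟩ g _ ((hstb1 _).mp hg'), hsy, hsy] at h8
        exact h8
      · have hg' : κ b' g ∉ stb ({P₁} : Finset (Subgroup G)) :=
          fun h => hg ((stb_kap hbH g).mp h)
        rw [hψ.2 _ hg, hψ.2 _ hg']
  rcases hS _ (hirr ψ hψ) h7 with h8 | h8
  · left
    rw [key S₁ h8]
  · right
    rw [key S₂ h8]

end Pool.Agent.DPX


end
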