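import Mathlib
import Pool.Agent.DAM.C14

/-! Parts: DPV.CYA -/

section

/-!
# CYA: the case of a group of order prime to `ℓ`
-/

set_option linter.unusedSectionVars false

namespace Pool.Agent.DPV.CYA

open Pool.Agent.DP Pool.Agent.Lib_helper13 Representation
open Pool.Agent.Lib_helper13.Dade (pCore DadeHolds dadeSum)

section Gen

variable {H : Type*} [Group H] [Fintype H]

/-- The sum of a character over a coset, if the coset acts trivially on the invariants. -/
theorem sum_coset {W : Type*} [AddCommGroup W] [Module ℂ W] [FiniteDimensional ℂ W]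
    (R : Representation ℂ H W) (M : Subgroup H) [Fintype M] (h : H)
    (hh : ∀ w : W, (∀ c ∈ M, R c w = w) → R h w = w) :
    ∑ c : M, R.character (h * c) = Nat.card M *
      Module.finrank ℂ (invariants (R.comp M.subtype)) := by
  have h1 := card_inv_mul_sum_char_eq_finrank (k := ℂ) (R.comp M.subtype)
  rw [← h1, ← mul_assoc, mul_inv_cancel₀ natCard_ne_zero, one_mul]
  have h2 : ∀ g : H, R.character g = LinearMap.trace ℂ W (R g) := fun g => rfl
  have h3 : ∀ g : M, Representation.character (R.comp M.subtype) g =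
    LinearMap.trace ℂ W (R (g : H)) := fun g => rfl
  simp_rw [h2, h3, map_mul]
  rw [← map_sum, ← map_sum, ← Finset.mul_sum]
  congr 1
  ext w
  apply hh
  intro c hc
  change R c ((∑ x : M, R (x : H)) w) = (∑ x : M, R (x : H)) w
  rw [LinearMap.sum_apply, map_sum]
  exact Fintype.sum_equiv (Equiv.mulLeft (⟨c, hc⟩ : M)) _ _ (fun x => by
    simp [map_mul])

variable {n : ℕ} (ρ : Representation ℂ H (Fin n → ℂ))

/-- The action by conjugation on the endomorphisms. -/
noncomputable abbrev RR : Representation ℂ H ((Fin n → ℂ) →ₗ[ℂ] (Fin n → ℂ)) := linHom ρ ρ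

theorem RR_apply (h : H) (T : (Fin n → ℂ) →ₗ[ℂ] (Fin n → ℂ)) :
    RR ρ h T = ρ h ∘ₗ T ∘ₗ ρ h⁻¹ := rfl

theorem RR_char (h : H) : (RR ρ).character h = ρ.character h⁻¹ * ρ.character h :=
  char_linHom ρ ρ h

/-- `ρ h T = a T ρ h`. -/
theorem RR_eq_iff (h : H) (T : (Fin n → ℂ) →ₗ[ℂ] (Fin n → ℂ)) (a : ℂ) :
    RR ρ h T = a • T ↔ ∀ x, ρ h (T x) = a • T (ρ h x) := by
  constructor
  · intro e x
    have := congrArg (fun f : (Fin n → ℂ) →ₗ[ℂ] (Fin n → ℂ) => f (ρ h x)) e
    simp only [RR_apply, LinearMap.comp_apply, LinearMap.smul_apply] at this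
    rw [← this, ← Module.End.mul_apply (ρ h⁻¹), ← map_mul, inv_mul_cancel, map_one]
    rfl
  · intro e
    refine LinearMap.ext fun x => ?_
    rw [RR_apply, LinearMap.comp_apply, LinearMap.comp_apply, e,
      ← Module.End.mul_apply (ρ h) (ρ h⁻¹), ← map_mul, mul_inv_cancel, map_one]
    rfl

theorem mul_fix {h : H} {T : (Fin n → ℂ) →ₗ[ℂ] (Fin n → ℂ)} (e : RR ρ h T = T) :
    ∀ x, ρ h (T x) = T (ρ h x) := by
  have := (RR_eq_iff ρ h T 1).mp (by rw [one_smul]; exact e)
  simpa using this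

end Gen

section Main

variable {H : Type} [Group H] [Fintype H] {n : ℕ} {ρ : Representation ℂ H (Fin n → ℂ)}
  {Z N : Subgroup H} [Z.Normal] [N.Normal]

/-- Eigenvectors of the normal subgroup are fixed by the elements with nonzero trace. -/
theorem eig_fixed (hN : Representation.IsIrreducible (k := ℂ) (G := N) (ρ.comp N.subtype))
    (hcomm : ∀ h m : H, m ∈ N → ∃ c ∈ Z ⊓ N, h⁻¹ * m * h = m * c)
    {n0 : H}
    (hgen : ∀ m ∈ N, ∃ k : ℕ, ∃ c ∈ Z ⊓ N, m = n0 ^ k * c)
    {h : H} (hf : ρ.character h ≠ 0) {T : (Fin n → ℂ) →ₗ[ℂ] (Fin n → ℂ)}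
    (hT : ∀ c ∈ Z ⊓ N, RR ρ c T = T) {μ : ℂ} (hμ : RR ρ n0 T = μ • T) :
    RR ρ h T = T := by
  by_cases hT0 : T = 0
  · rw [hT0, map_zero]
  -- the eigenvalues
  have hpow : ∀ k : ℕ, RR ρ (n0 ^ k) T = μ ^ k • T := by
    intro k
    induction k with
    | zero => simp
    | succ k ih =>
      rw [pow_succ, map_mul, Module.End.mul_apply, hμ, map_smul, ih, smul_smul, pow_succ,
        mul_comm]
  have hinj : ∀ g : H, ∀ S : (Fin n → ℂ) →ₗ[ℂ] (Fin n → ℂ), RR ρ g S = 0 → S = 0 := by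
    intro g S e
    have := congrArg (RR ρ g⁻¹) e
    rw [map_zero, ← Module.End.mul_apply, ← map_mul, inv_mul_cancel, map_one] at this
    exact this
  have heig : ∀ m ∈ N, ∃ a : ℂ, a ≠ 0 ∧ RR ρ m T = a • T ∧ RR ρ m (RR ρ h T) = a • RR ρ h T := by
    intro m hm
    obtain ⟨k, c, hc, rfl⟩ := hgen m hm
    have h1 : RR ρ (n0 ^ k * c) T = μ ^ k • T := by
      rw [map_mul, Module.End.mul_apply, hT c hc, hpow]
    refine ⟨μ ^ k, ?_, h1, ?_⟩
    · intro h0
      rw [h0, zero_smul] at h1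
      exact hT0 (hinj _ _ h1)
    · obtain ⟨c', hc', e⟩ := hcomm h _ hm
      have h2 : n0 ^ k * c * h = h * ((n0 ^ k * c) * c') := by
        rw [← e]; group
      rw [← Module.End.mul_apply, ← map_mul, h2, map_mul, Module.End.mul_apply, map_mul,
        Module.End.mul_apply, hT c' hc', h1, map_smul]
  -- injectivity
  have hker : Function.Injective T := by
    let W : Subrepresentation (ρ.comp N.subtype) :=
      { toSubmodule := LinearMap.ker T
        apply_mem_toSubmodule := by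
          intro g x hx
          obtain ⟨a, ha, h1, -⟩ := heig g g.2
          have h2 := (RR_eq_iff ρ _ _ _).mp h1 x
          rw [LinearMap.mem_ker] at hx ⊢
          rw [hx, map_zero] at h2
          exact (smul_eq_zero.mp h2.symm).resolve_left ha }
    rcases hN.eq_bot_or_eq_top W with h1 | h1
    · have h2 : LinearMap.ker T = ⊥ := congrArg Subrepresentation.toSubmodule h1
      exact LinearMap.ker_eq_bot.mp h2
    · have h2 : LinearMap.ker T = ⊤ := congrArg Subrepresentation.toSubmodule h1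
      exact absurd (LinearMap.ker_eq_top.mp h2) hT0
  let e : (Fin n → ℂ) ≃ₗ[ℂ] (Fin n → ℂ) := LinearEquiv.ofInjectiveEndo T hker
  have he : ∀ x, e x = T x := fun x => rfl
  have hes : ∀ x, T (e.symm x) = x := fun x => e.apply_symm_apply x
  -- the quotient is a scalar
  obtain ⟨c, hc⟩ := exists_scalar (ρ.comp N.subtype) hN
    (e.symm.toLinearMap ∘ₗ RR ρ h T) (by
      intro g x
      apply hker
      obtain ⟨a, ha, h1, h2⟩ := heig g g.2
      have h3 := (RR_eq_iff ρ _ _ _).mp h1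
      have h4 := (RR_eq_iff ρ _ _ _).mp h2
      change T (e.symm (RR ρ h T (ρ (g : H) x))) = T (ρ (g : H) (e.symm (RR ρ h T x)))
      rw [hes]
      have h5 := h3 (e.symm (RR ρ h T x))
      rw [hes, h4 x] at h5
      exact smul_right_injective _ ha h5)
  have hsc : RR ρ h T = c • T := by
    refine LinearMap.ext fun x => ?_
    have := congrArg (fun f : (Fin n → ℂ) →ₗ[ℂ] (Fin n → ℂ) => T (f x)) hc
    simpa [hes] using this
  -- the scalar is one
  have h6 := (RR_eq_iff ρ _ _ _).mp hsc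
  have h7 : ρ.character h = c * ρ.character h := by
    have h8 : LinearMap.trace ℂ _ (e.symm.conj (ρ h)) = LinearMap.trace ℂ _ (ρ h) :=
      LinearMap.trace_conj' (ρ h) e.symm
    have h9 : e.symm.conj (ρ h) = c • ρ h := by
      refine LinearMap.ext fun x => ?_
      apply hker
      rw [LinearEquiv.conj_apply_apply, hes, LinearEquiv.symm_symm, he, h6, LinearMap.smul_apply,
        map_smul]
    rw [h9, map_smul] at h8
    exact h8.symm
  have h10 : c = 1 := by
    have : (c - 1) * ρ.character h = 0 := by linear_combination -h7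
    exact sub_eq_zero.mp ((mul_eq_zero.mp this).resolve_right hf)
  rw [hsc, h10, one_smul]

theorem iSup_eig {V : Type*} [AddCommGroup V] [Module ℂ V] [FiniteDimensional ℂ V]
    (ν : Module.End ℂ V) {m : ℕ} (hm0 : m ≠ 0) (hνm : ν ^ m = 1) :
    ⨆ μ : ℂ, Module.End.eigenspace ν μ = ⊤ := by
  have hss : Module.End.IsSemisimple ν := by
    apply Module.End.isSemisimple_of_squarefree_aeval_eq_zero
      (p := (Polynomial.X ^ m - 1 : Polynomial ℂ))
    · apply Polynomial.Separable.squarefree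
      have := (Polynomial.separable_X_pow_sub_C (F := ℂ) (n := m) 1
        (by exact_mod_cast hm0) one_ne_zero)
      simpa using this
    · rw [map_sub, map_pow, Polynomial.aeval_X, map_one, hνm, sub_self]
  exact hss.iSup_eigenspace_eq_top

/-- All endomorphisms commuting with `Z ∩ N` commute with the elements with nonzero trace. -/
theorem all_fixed (hN : Representation.IsIrreducible (k := ℂ) (G := N) (ρ.comp N.subtype))
    (hcomm : ∀ h m : H, m ∈ N → ∃ c ∈ Z ⊓ N, h⁻¹ * m * h = m * c)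
    {n0 : H}
    (hgen : ∀ m ∈ N, ∃ k : ℕ, ∃ c ∈ Z ⊓ N, m = n0 ^ k * c)
    {h : H} (hf : ρ.character h ≠ 0) {T : (Fin n → ℂ) →ₗ[ℂ] (Fin n → ℂ)}
    (hT : ∀ c ∈ Z ⊓ N, RR ρ c T = T) : RR ρ h T = T := by
  classical
  let E : Submodule ℂ ((Fin n → ℂ) →ₗ[ℂ] (Fin n → ℂ)) :=
    { carrier := {T | ∀ c ∈ Z ⊓ N, RR ρ c T = T}
      add_mem' := by
        intro a b ha hb c hc
        rw [map_add, ha c hc, hb c hc]
      zero_mem' := fun c _ => map_zero _
      smul_mem' := by
        intro a b hb c hc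
        rw [map_smul, hb c hc] }
  have hE : ∀ T, T ∈ E ↔ ∀ c ∈ Z ⊓ N, RR ρ c T = T := fun T => Iff.rfl
  have hst : ∀ T ∈ E, RR ρ n0 T ∈ E := by
    intro T hT c hc
    have h1 : c * n0 = n0 * (n0⁻¹ * c * n0) := by group
    have h2 : n0⁻¹ * c * n0 ∈ Z ⊓ N := by
      have := (inferInstance : (Z ⊓ N).Normal).conj_mem c hc n0⁻¹
      simpa using this
    rw [← Module.End.mul_apply, ← map_mul, h1, map_mul, Module.End.mul_apply, hT _ h2]
  let ν : Module.End ℂ E := (RR ρ n0).restrict hst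
  have hν : ∀ x : E, ((ν x : E) : (Fin n → ℂ) →ₗ[ℂ] (Fin n → ℂ)) = RR ρ n0 x := fun x => rfl
  have hνk : ∀ (k : ℕ) (x : E), (((ν ^ k) x : E) : (Fin n → ℂ) →ₗ[ℂ] (Fin n → ℂ)) =
      RR ρ (n0 ^ k) x := by
    intro k
    induction k with
    | zero => intro x; simp
    | succ k ih =>
      intro x
      rw [pow_succ, Module.End.mul_apply, ih, hν, ← Module.End.mul_apply, ← map_mul, ← pow_succ]
  have hm0 : orderOf n0 ≠ 0 := (orderOf_pos n0).ne'
  have hνm : ν ^ (orderOf n0) = 1 := by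
    refine LinearMap.ext fun x => Subtype.ext ?_
    rw [hνk, pow_orderOf_eq_one, map_one]
    rfl
  have htop := iSup_eig (V := E) ν hm0 hνm
  have hle : (⊤ : Submodule ℂ E) ≤
      { carrier := {T | RR ρ h T = (T : (Fin n → ℂ) →ₗ[ℂ] (Fin n → ℂ))}
        add_mem' := by
          intro a b ha hb
          change RR ρ h ((a + b : E) : (Fin n → ℂ) →ₗ[ℂ] (Fin n → ℂ)) = _
          rw [Submodule.coe_add, map_add]
          exact congrArg₂ (· + ·) ha hb
        zero_mem' := map_zero _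
        smul_mem' := by
          intro a b hb
          change RR ρ h ((a • b : E) : (Fin n → ℂ) →ₗ[ℂ] (Fin n → ℂ)) = _
          rw [Submodule.coe_smul, map_smul]
          exact congrArg (a • ·) hb } := by
    rw [← htop]
    refine iSup_le fun μ => ?_
    intro T hT
    have h1 := Module.End.mem_eigenspace_iff.mp hT
    have h2 : RR ρ n0 (T : (Fin n → ℂ) →ₗ[ℂ] (Fin n → ℂ)) = μ • (T : (Fin n → ℂ) →ₗ[ℂ] _) := by
      rw [← hν, h1]; rfl
    exact eig_fixed hN hcomm hgen hf T.2 h2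
  exact hle (Submodule.mem_top (x := (⟨T, hT⟩ : E)))

end Main

/-- Natural numbers prime to `ℓ` are units modulo `𝔐`. -/
theorem natCast_ne {𝔐 : Ideal (integralClosure ℤ ℂ)} {ℓ : ℕ} [Fact ℓ.Prime]
    (hM : 𝔐.IsMaximal) (hℓ : (ℓ : integralClosure ℤ ℂ) ∈ 𝔐) {m : ℕ} (hm : ¬ ℓ ∣ m) :
    red 𝔐 (m : ℂ) ≠ 0 := by
  intro h0
  have h1 : red 𝔐 (m : ℂ) = Ideal.Quotient.mk 𝔐 (m : integralClosure ℤ ℂ) := by
    rw [red_of_integral 𝔐 (Lib_helper13.isIntegral_natCast m)]
    congr 1
  rw [h1] at h0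
  have h2 : (m : integralClosure ℤ ℂ) ∈ 𝔐 := Ideal.Quotient.eq_zero_iff_mem.mp h0
  have h3 : Nat.Coprime ℓ m := (Nat.Prime.coprime_iff_not_dvd Fact.out).mpr hm
  have h4 := Nat.isCoprime_iff_coprime.mpr h3
  obtain ⟨a, b, hab⟩ := h4
  have h5 : ((a : integralClosure ℤ ℂ)) * (ℓ : integralClosure ℤ ℂ) +
      (b : integralClosure ℤ ℂ) * (m : integralClosure ℤ ℂ) = 1 := by
    have := congrArg (fun z : ℤ => (z : integralClosure ℤ ℂ)) hab
    simpa using this
  apply hM.ne_top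
  rw [Ideal.eq_top_iff_one, ← h5]
  exact 𝔐.add_mem (𝔐.mul_mem_left _ hℓ) (𝔐.mul_mem_left _ h2)

section Fin

variable {H : Type} [Group H] [Fintype H] {n : ℕ} {ρ : Representation ℂ H (Fin n → ℂ)}

/-- A cyclic quotient: generator as a natural power. -/
theorem exists_gen (Z K : Subgroup H) [Z.Normal] (hc : IsCyclic (H ⧸ Z)) :
    ∃ k0 ∈ K, ∀ m ∈ K, ∃ k : ℕ, ∃ c ∈ Z ⊓ K, m = k0 ^ k * c := by
  have h1 : IsCyclic (K.map (QuotientGroup.mk' Z)) := inferInstance
  obtain ⟨⟨g, hg⟩, hgen⟩ := h1.exists_generator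
  obtain ⟨k0, hk0, rfl⟩ := Subgroup.mem_map.mp hg
  refine ⟨k0, hk0, fun m hm => ?_⟩
  have h2 := hgen ⟨QuotientGroup.mk' Z m, Subgroup.mem_map_of_mem _ hm⟩
  rw [← mem_powers_iff_mem_zpowers] at h2
  obtain ⟨k, hk⟩ := h2
  have h3 : QuotientGroup.mk' Z (k0 ^ k) = QuotientGroup.mk' Z m := by
    have := congrArg Subtype.val hk
    simpa using this
  refine ⟨k, (k0 ^ k)⁻¹ * m, ⟨?_, K.mul_mem (K.inv_mem (K.pow_mem hk0 _)) hm⟩, by group⟩
  exact QuotientGroup.eq.mp h3

variable {Z N : Subgroup H} [Z.Normal] [N.Normal]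

theorem main (𝔐 : Ideal (integralClosure ℤ ℂ)) (ℓ : ℕ)
    [Fact ℓ.Prime] (hM : 𝔐.IsMaximal) (hℓ : (ℓ : integralClosure ℤ ℂ) ∈ 𝔐)
    (hH : ¬ ℓ ∣ Nat.card H) (hcyc : IsCyclic (H ⧸ Z))
    (hN : Representation.IsIrreducible (k := ℂ) (G := N) (ρ.comp N.subtype))
    (hint : ∀ x, IsIntegral ℤ (ρ.character x)) :
    ∃ h0 : H, ∀ h : H, ∃ (k : ℤ) (h' : H), h' ∈ Z ∧ h' * (h * h0 ^ k)⁻¹ ∈ N ∧
        red 𝔐 (ρ.character h') ≠ 0 := by
  classical
  -- the generator of `N / (Z ∩ N)`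
  obtain ⟨n0, hn0, hgen⟩ := exists_gen Z N hcyc
  have hcomm : ∀ h m : H, m ∈ N → ∃ c ∈ Z ⊓ N, h⁻¹ * m * h = m * c := by
    intro h m hm
    refine ⟨m⁻¹ * (h⁻¹ * m * h), ⟨?_, ?_⟩, by group⟩
    · have h1 : QuotientGroup.mk' Z (m⁻¹ * (h⁻¹ * m * h)) = 1 := by
        have : IsMulCommutative (H ⧸ Z) := inferInstance
        have h2 := (this.is_comm.comm (QuotientGroup.mk' Z m) (QuotientGroup.mk' Z h))
        rw [map_mul, map_mul, map_mul, map_inv, map_inv, mul_assoc _ (QuotientGroup.mk' Z m), h2]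
        group
      exact (QuotientGroup.eq_one_iff _).mp h1
    · refine N.mul_mem (N.inv_mem hm) ?_
      have := (inferInstance : N.Normal).conj_mem m hm h⁻¹
      simpa using this
  -- the group of all elements commuting with the endomorphisms
  let K : Subgroup H :=
    { carrier := {h | ∀ T, (∀ c ∈ Z ⊓ N, RR ρ c T = T) → RR ρ h T = T}
      mul_mem' := by
        intro a b ha hb T hT
        rw [map_mul, Module.End.mul_apply, hb T hT, ha T hT]
      one_mem' := by
        intro T _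
        rw [map_one]; rfl
      inv_mem' := by
        intro a ha T hT
        have h1 := congrArg (RR ρ a⁻¹) (ha T hT)
        rw [← Module.End.mul_apply, ← map_mul, inv_mul_cancel, map_one] at h1
        exact h1.symm }
  have hK : ∀ h, h ∈ K ↔ ∀ T, (∀ c ∈ Z ⊓ N, RR ρ c T = T) → RR ρ h T = T := fun h => Iff.rfl
  have hsupp : ∀ h : H, ρ.character h ≠ 0 → h ∈ K := fun h hf T hT =>
    all_fixed hN hcomm hgen hf hT
  have hCK : Z ⊓ N ≤ K := fun c hc T hT => hT c hc
  set t : ℕ := Module.finrank ℂ (invariants ((RR ρ).comp (Z ⊓ N).subtype)) with ht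
  have hF3 : ∀ h ∈ K, ∑ c : (Z ⊓ N : Subgroup H), ρ.character (h * c) * ρ.character (h * c)⁻¹ =
      Nat.card (Z ⊓ N : Subgroup H) * t := by
    intro h hh
    rw [← sum_coset (RR ρ) (Z ⊓ N) h (fun T hT => hh T hT)]
    exact Finset.sum_congr rfl fun c _ => by rw [RR_char, mul_comm]
  have hF2 : ∀ h : H, ∑ m : N, ρ.character (h * m) * ρ.character (h * m)⁻¹ = Nat.card N := by
    have hs : ∀ T, (∀ c ∈ N, RR ρ c T = T) → ∃ a : ℂ, T = a • LinearMap.id := by
      intro T hT
      refine exists_scalar (ρ.comp N.subtype) hN T fun g x => ?_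
      exact (mul_fix ρ (hT g g.2) x).symm
    have h1 : ∀ h : H, ∑ m : N, ρ.character (h * m) * ρ.character (h * m)⁻¹ =
        Nat.card N * Module.finrank ℂ (invariants ((RR ρ).comp N.subtype)) := by
      intro h
      rw [← sum_coset (RR ρ) N h (fun T hT => by
        obtain ⟨a, rfl⟩ := hs T hT
        rw [map_smul]
        congr 1
        refine LinearMap.ext fun x => ?_
        rw [RR_apply, LinearMap.comp_apply, LinearMap.comp_apply, LinearMap.id_apply,
          ← Module.End.mul_apply (ρ h) (ρ h⁻¹), ← map_mul, mul_inv_cancel, map_one]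
        rfl)]
      exact Finset.sum_congr rfl fun c _ => by rw [RR_char, mul_comm]
    have h2 : ∑ m : N, ρ.character (m : H) * ρ.character (m : H)⁻¹ = Nat.card N :=
      (irreducible_iff_sum (H := N) (ρ.comp N.subtype)).mp hN
    intro h
    rw [h1 h, ← h1 1]
    simpa using h2
  -- `|N| = |N ∩ K| t`
  have hF4 : ((Nat.card (Z ⊓ N : Subgroup H) : ℕ) : ℂ) * Nat.card N =
      ((Finset.univ.filter (fun m : N => (m : H) ∈ K)).card : ℂ) *
        (Nat.card (Z ⊓ N : Subgroup H) * t) := by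
    have h1 : ∑ c : (Z ⊓ N : Subgroup H), ∑ m : N,
        ρ.character ((m : H) * c) * ρ.character ((m : H) * c)⁻¹ =
        Nat.card (Z ⊓ N : Subgroup H) * Nat.card N := by
      have h2 : ∀ c : (Z ⊓ N : Subgroup H), ∑ m : N,
          ρ.character ((m : H) * c) * ρ.character ((m : H) * c)⁻¹ = Nat.card N := by
        intro c
        rw [← hF2 1]
        exact Fintype.sum_equiv (Equiv.mulRight (⟨c, c.2.2⟩ : N)) _ _ (fun x => by simp)
      rw [Finset.sum_congr rfl fun c _ => h2 c, Finset.sum_const, nsmul_eq_mul,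
        Finset.card_univ, ← Nat.card_eq_fintype_card]
    have h6 : ∑ m ∈ Finset.univ.filter (fun m : N => (m : H) ∈ K),
        ∑ c : (Z ⊓ N : Subgroup H), ρ.character ((m : H) * c) * ρ.character ((m : H) * c)⁻¹ =
        ((Finset.univ.filter (fun m : N => (m : H) ∈ K)).card : ℂ) *
        (Nat.card (Z ⊓ N : Subgroup H) * t) := by
      have h7 : ∀ m ∈ Finset.univ.filter (fun m : N => (m : H) ∈ K),
          ∑ c : (Z ⊓ N : Subgroup H), ρ.character ((m : H) * c) * ρ.character ((m : H) * c)⁻¹ =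
          Nat.card (Z ⊓ N : Subgroup H) * t := fun m hm => hF3 (m : H) (Finset.mem_filter.mp hm).2
      rw [Finset.sum_congr rfl h7, Finset.sum_const, nsmul_eq_mul]
    rw [← h1, Finset.sum_comm, ← Finset.sum_filter_add_sum_filter_not _ (fun m : N => (m : H) ∈ K),
      h6]
    have h3 : ∑ m ∈ Finset.univ.filter (fun m : N => ¬ (m : H) ∈ K),
        ∑ c : (Z ⊓ N : Subgroup H), ρ.character ((m : H) * c) * ρ.character ((m : H) * c)⁻¹ = 0 := by
      refine Finset.sum_eq_zero fun m hm => Finset.sum_eq_zero fun c _ => ?_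
      have h4 : ρ.character ((m : H) * c) = 0 := by
        by_contra hne
        have h5 := K.mul_mem (hsupp _ hne) (K.inv_mem (hCK c.2))
        rw [mul_inv_cancel_right] at h5
        exact (Finset.mem_filter.mp hm).2 h5
      rw [h4, zero_mul]
    rw [h3, add_zero]
  have hdiv : ¬ ℓ ∣ Nat.card (Z ⊓ N : Subgroup H) * t := by
    intro hd
    have h1 : Nat.card (Z ⊓ N : Subgroup H) * Nat.card N =
        (Finset.univ.filter (fun m : N => (m : H) ∈ K)).card *
          (Nat.card (Z ⊓ N : Subgroup H) * t) := by exact_mod_cast hF4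
    have h2 : ℓ ∣ Nat.card (Z ⊓ N : Subgroup H) * Nat.card N := h1 ▸ Dvd.dvd.mul_left hd _
    rcases (Nat.Prime.dvd_mul Fact.out).mp h2 with h3 | h3
    · exact hH (h3.trans (Subgroup.card_subgroup_dvd_card _))
    · exact hH (h3.trans (Subgroup.card_subgroup_dvd_card _))
  -- the generator
  obtain ⟨h0, hh0, hgen'⟩ := exists_gen Z K hcyc
  refine ⟨h0, fun h => ?_⟩
  have hex : ∃ m : N, ρ.character (h * m) ≠ 0 := by
    by_contra hcon
    push Not at hcon
    have h1 := hF2 h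
    rw [Finset.sum_eq_zero fun m _ => by rw [hcon m, zero_mul]] at h1
    have h2 : (Nat.card N : ℂ) ≠ 0 := by exact_mod_cast Nat.card_pos.ne'
    exact h2 h1.symm
  obtain ⟨m, hm⟩ := hex
  obtain ⟨k, z, hz, hk⟩ := hgen' _ (hsupp _ hm)
  -- `h m = h0 ^ k z`
  have hz' : h0 ^ k * z * (h0 ^ k)⁻¹ ∈ Z ⊓ K :=
    ⟨(inferInstance : Z.Normal).conj_mem _ hz.1 _,
      K.mul_mem (K.mul_mem (K.pow_mem hh0 _) hz.2) (K.inv_mem (K.pow_mem hh0 _))⟩
  set z' : H := h0 ^ k * z * (h0 ^ k)⁻¹ with hz'def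
  have hz'' : z' = h * m * (h0 ^ k)⁻¹ := by rw [hz'def, hk]
  have hexc : ∃ c : (Z ⊓ N : Subgroup H), red 𝔐 (ρ.character (z' * c)) ≠ 0 := by
    by_contra hcon
    push Not at hcon
    have h1 := hF3 z' hz'.2
    have h2 := congrArg (red 𝔐) h1
    rw [red_sum 𝔐 _ _ (fun c _ => (hint _).mul (hint _)),
      Finset.sum_eq_zero (fun c _ => by rw [red_mul 𝔐 (hint _) (hint _), hcon c, zero_mul])] at h2
    apply natCast_ne hM hℓ hdiv
    rw [h2]
    push_cast
    rfl
  obtain ⟨c, hc⟩ := hexc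
  refine ⟨-(k : ℤ), z' * c, Z.mul_mem hz'.1 c.2.1, ?_, hc⟩
  have h1 : z' * c * (h * h0 ^ (-(k : ℤ)))⁻¹ =
      h * (m * ((h0 ^ k)⁻¹ * c * (h0 ^ k))) * h⁻¹ := by
    rw [hz'', zpow_neg, zpow_natCast]
    group
  rw [h1]
  refine (inferInstance : N.Normal).conj_mem _ (N.mul_mem m.2 ?_) _
  have := (inferInstance : N.Normal).conj_mem c c.2.2 (h0 ^ k)⁻¹
  simpa using this

end Fin

end Pool.Agent.DPV.CYA

namespace Pool.Agent.DPV

open Pool.Agent.DP Pool.Agent.Lib_helper13 Representation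

theorem CYA_thm : Stmt_CYA := by
  intro H _ _ 𝔐 ℓ _ hM hℓ hH Z N _ _ hcyc f hf hfN
  classical
  have hint := isIntegral_char hf
  obtain ⟨n, ρ, hρ, rfl⟩ := hf
  have hN : Representation.IsIrreducible (k := ℂ) (G := N) (ρ.comp N.subtype) := by
    rw [irreducible_iff_sum]
    exact hfN.sum_self
  exact CYA.main 𝔐 ℓ hM hℓ hH hcyc hN hint

end Pool.Agent.DPV


end
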