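import Mathlib
import Pool.Agent.DAM.C08
import Pool.Agent.DAM.C12
import Pool.Agent.DAM.C13
import Pool.Agent.DAM.C14
import Pool.Agent.DAM.C19
import Pool.Agent.DAM.C36

/-! Parts: DPM.EXPA, DP.COMB, DPC.COMBR, DPV.COMBV, DPC.FinalC, DPW.SCT -/

section

set_option linter.unusedSectionVars false

/-!
# EXPA: an invariant pair with a nonvanishing Moebius sum
-/

namespace Pool.Agent.DPM

open Pool.Agent.DP Pool.Agent.DPC Pool.Agent.Lib_helper13 Representation
open Pool.Agent.Lib_helper13.Dade (pCore DadeHolds dadeSum)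

namespace EXPA

section transport

variable {Y Y' X : Type} [Group Y] [Fintype Y] [Group Y'] [Fintype Y'] [Group X]
  {𝔐 : Ideal (integralClosure ℤ ℂ)}

theorem PHY_equiv (ℓ d : ℕ) (e : Y ≃* Y') (N : Subgroup Y) (i : Y' →* X) (M : Subgroup X)
    (ω : X → (integralClosure ℤ ℂ) ⧸ 𝔐) :
    PHY 𝔐 ℓ d (N.map e.toMonoidHom) i M ω = PHY 𝔐 ℓ d N (i.comp e.toMonoidHom) M ω := by
  have hb : (⊥ : Subgroup N).map
      (N.equivMapOfInjective e.toMonoidHom e.injective).toMonoidHom = ⊥ := Subgroup.map_bot _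
  rw [PHY, PHY, ← hb, sum_Ch_equiv]
  refine Finset.sum_congr rfl fun τ _ => ?_
  have h1 : mapCh (N.map e.toMonoidHom).subtype
      (mapCh (N.equivMapOfInjective e.toMonoidHom e.injective).toMonoidHom τ) =
      mapCh e.toMonoidHom (mapCh N.subtype τ) := by
    rw [mapCh_comp, mapCh_comp]
    rfl
  rw [card_mapCh (i := (N.equivMapOfInjective e.toMonoidHom e.injective).toMonoidHom)
    (N.equivMapOfInjective e.toMonoidHom e.injective).injective, h1, stb_mapCh_equiv]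
  congr 2
  · congr 1
    exact (Nat.card_congr ((stb (mapCh N.subtype τ)).equivMapOfInjective _
      e.injective).toEquiv).symm
  · congr 1
    symm
    apply card_irr_equiv ((stb (mapCh N.subtype τ)).equivMapOfInjective e.toMonoidHom e.injective)
    intro ψ _
    rw [hasDefect_comp_equiv]
    have h2 := cen_comp_equiv 𝔐 ((stb (mapCh N.subtype τ)).equivMapOfInjective e.toMonoidHom
      e.injective) (i.comp ((stb (mapCh N.subtype τ)).map e.toMonoidHom).subtype) ψ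
    rw [← h2]
    exact Iff.rfl

end transport

section stable

variable {X : Type} [Group X] [Fintype X] {𝔐 : Ideal (integralClosure ℤ ℂ)}

theorem cen_comp {C : Type} [Group C] [Fintype C] (κ : MulAut C) (χ : C → ℂ) (x : C) :
    cen 𝔐 (MonoidHom.id C) (fun y => χ (κ y)) x = cen 𝔐 (MonoidHom.id C) χ (κ x) := by
  have h1 := wt_comp_equiv κ χ (fun y => conjInd y (κ x))
  unfold cen
  congr 1
  show wt (fun y => χ (κ y)) (fun y => conjInd y x) = wt χ (fun y => conjInd y (κ x))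
  rw [← h1]
  congr 1
  funext y
  apply conjInd_congr
  show IsConj y x ↔ IsConj (κ y) (κ x)
  rw [isConj_iff, isConj_iff]
  constructor
  · rintro ⟨c, rfl⟩
    exact ⟨κ c, by rw [map_mul, map_mul, map_inv]⟩
  · rintro ⟨c, hc⟩
    obtain ⟨d, rfl⟩ := κ.surjective c
    refine ⟨d, κ.injective ?_⟩
    rw [map_mul, map_mul, map_inv, hc]

theorem conjInd_map {C : Type} [Group C] (κ : MulAut C) (y g : C) :
    conjInd (κ y) (κ g) = conjInd y g := by
  apply conjInd_congr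
  rw [isConj_iff, isConj_iff]
  constructor
  · rintro ⟨c, hc⟩
    obtain ⟨d, rfl⟩ := κ.surjective c
    refine ⟨d, κ.injective ?_⟩
    rw [map_mul, map_mul, map_inv, hc]
  · rintro ⟨c, rfl⟩
    exact ⟨κ c, by rw [map_mul, map_mul, map_inv]⟩

variable {H : Type} [Group H] {M : Subgroup X} [M.Normal] {p : X →* H}

theorem stable (h : ClG M.subtype MulAut.conjNormal p) (τ : Finset (Subgroup M))
    (θ : stb τ → ℂ) (hT : (inert (cS h τ) θ).map (pS p M.subtype τ) = ⊤) (ξ : M → ℂ)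
    (hξ : cen 𝔐 (MonoidHom.id M) ξ = cen 𝔐 (stb τ).subtype θ) (x : X) :
    cen 𝔐 (MonoidHom.id M) (fun m : M => ξ (MulAut.conjNormal x m)) =
      cen 𝔐 (MonoidHom.id M) ξ := by
  have h1 : p x ∈ (inert (cS h τ) θ).map (pS p M.subtype τ) := by
    rw [hT]
    exact Subgroup.mem_top _
  obtain ⟨t, ht, htx⟩ := h1
  have h2 : p (x * ((t : X))⁻¹) = 1 := by
    have h3 : p (t : X) = p x := htx
    rw [map_mul, map_inv, h3, mul_inv_cancel]
  obtain ⟨m, hm⟩ := (h.ker _).1 h2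
  have hm' : x = (m : X) * (t : X) := by
    have h3 : (m : X) = x * ((t : X))⁻¹ := hm
    rw [h3, inv_mul_cancel_right]
  funext g
  have h4 := cen_comp (𝔐 := 𝔐) (MulAut.conjNormal x : MulAut M) ξ g
  rw [h4]
  have h5 : IsConj ((MulAut.conjNormal x : MulAut M) g)
      ((MulAut.conjNormal (t : X) : MulAut M) g) := by
    rw [isConj_comm, isConj_iff]
    refine ⟨m, ?_⟩
    apply Subtype.ext
    rw [Subgroup.coe_mul, Subgroup.coe_mul, Subgroup.coe_inv, MulAut.conjNormal_apply,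
      MulAut.conjNormal_apply, hm']
    group
  rw [cen_isConj 𝔐 (MonoidHom.id M) ξ h5, hξ]
  unfold cen
  congr 1
  have h6 := wt_comp_equiv (cS h τ t) θ
    (fun y => conjInd ((stb τ).subtype y) ((MulAut.conjNormal (t : X) : MulAut M) g))
  rw [← h6]
  have h7 : (fun y => θ (cS h τ t y)) = θ := funext ht
  rw [h7]
  congr 1
  funext y
  exact conjInd_map (MulAut.conjNormal (t : X) : MulAut M) (y : M) g

end stable

section inertia

variable {A Y K : Type} [Group A] [Group Y] [Group K] {j : A →* Y} {c : Y →* MulAut A}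
  {p : Y →* K}

theorem mem_inert (h : ClG j c p) {θ : A → ℂ} (hθ : IsIrr θ) (a : A) : j a ∈ inert c θ := by
  intro b
  have h1 : c (j a) b = a * b * a⁻¹ := by
    apply h.inj
    rw [h.act, map_mul, map_mul, map_inv]
  rw [h1, hθ.conj_eq]

/-- The embedding into the inertia group. -/
def jI (h : ClG j c p) {θ : A → ℂ} (hθ : IsIrr θ) : A →* inert c θ :=
  j.codRestrict (inert c θ) (mem_inert h hθ)

theorem clG_I (h : ClG j c p) {θ : A → ℂ} (hθ : IsIrr θ) :
    ClG (jI h hθ) (c.comp (inert c θ).subtype) (p.comp (inert c θ).subtype) := by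
  refine ⟨?_, ?_, ?_⟩
  · intro a b hab
    exact h.inj (congrArg Subtype.val hab)
  · intro y a
    apply Subtype.ext
    exact h.act y a
  · intro y
    constructor
    · intro hy
      obtain ⟨a, ha⟩ := (h.ker (y : Y)).1 hy
      exact ⟨a, Subtype.ext ha⟩
    · rintro ⟨a, rfl⟩
      exact (h.ker (j a)).2 ⟨a, rfl⟩

/-- The number of characters depends only on the intersection with the image. -/
theorem comap_inf {H' T' : Type} [Group H'] [Group T'] (f : T' →* H') (V : Subgroup H') :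
    (V ⊓ f.range).comap f = V.comap f := by
  ext x
  rw [Subgroup.mem_comap, Subgroup.mem_comap, Subgroup.mem_inf]
  exact ⟨fun h => h.1, fun h => ⟨h, x, rfl⟩⟩

end inertia

end EXPA

open Classical in
theorem EXPA_thm (h1 : Stmt_EXPB) (h2 : Stmt_MOBX) : Stmt_EXPA := by
  intro X H _ _ _ _ 𝔐 ℓ _ hmax hℓ M _ p hp hker d ω hV hne m hm
  have hprime : 𝔐.IsPrime := hmax.isPrime
  have h : ClG M.subtype (MulAut.conjNormal : X →* MulAut M) p := by
    refine ⟨Subtype.val_injective, ?_, ?_⟩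
    · intro y a
      exact MulAut.conjNormal_apply y a
    · intro y
      rw [hker, Subgroup.range_subtype]
  obtain ⟨hm1, hm2⟩ := (h2 H).2 m hm
  -- the functions on the subgroups of `H`
  obtain ⟨g, hg⟩ : ∃ g : ∀ (τ : Finset (Subgroup M)) (_ : stb τ → ℂ), Subgroup H → ℚ,
      ∀ τ θ V, g τ θ V = (Nat.card V : ℚ) *
        Nat.card {ψ : ↥(V.comap ((pS p M.subtype τ).comp
          (inert (cS h τ) θ).subtype)) → ℂ // IsIrr ψ ∧
            ip (fun a : stb τ => ext0 (ext0 ψ) (jS h τ a)) θ ≠ 0 ∧ HasDefect ℓ ψ d} :=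
    ⟨fun τ θ V => (Nat.card V : ℚ) *
        Nat.card {ψ : ↥(V.comap ((pS p M.subtype τ).comp
          (inert (cS h τ) θ).subtype)) → ℂ // IsIrr ψ ∧
            ip (fun a : stb τ => ext0 (ext0 ψ) (jS h τ a)) θ ≠ 0 ∧ HasDefect ℓ ψ d},
      fun _ _ _ => rfl⟩
  have hB : ∀ V : Subgroup H,
      PHY 𝔐 ℓ d (M.subgroupOf (V.comap p)) (V.comap p).subtype M ω =
        ∑ τ ∈ Ch ℓ (⊥ : Subgroup M), (-1 : ℚ) ^ τ.card *
          ∑ θ ∈ irrF (stb τ) with ∀ g ∈ M, cen 𝔐 (M.subtype.comp (stb τ).subtype) θ g = ω g,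
            (Nat.card (stb τ) : ℚ) * g τ θ (V ⊓ (inert (cS h τ) θ).map (pS p M.subtype τ)) := by
    intro V
    rw [h1 X H 𝔐 ℓ hmax hℓ M MulAut.conjNormal p h hp d ω V]
    refine Finset.sum_congr rfl fun τ _ => ?_
    congr 1
    refine Finset.sum_congr rfl fun θ _ => ?_
    have h3 : (inert (cS h τ) θ).map (pS p M.subtype τ) =
        ((pS p M.subtype τ).comp (inert (cS h τ) θ).subtype).range := by
      rw [MonoidHom.range_comp, Subgroup.range_subtype]
    rw [hg, h3, EXPA.comap_inf]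
  have hTop : PHY 𝔐 ℓ d (M.subgroupOf ((⊤ : Subgroup H).comap p))
      ((⊤ : Subgroup H).comap p).subtype M ω = PHY 𝔐 ℓ d M (MonoidHom.id X) M ω := by
    have h4 := EXPA.PHY_equiv (𝔐 := 𝔐) ℓ d
      ((MulEquiv.subgroupCongr (Subgroup.comap_top p)).trans Subgroup.topEquiv).symm M
      ((⊤ : Subgroup H).comap p).subtype M ω
    have h5 : M.map ((MulEquiv.subgroupCongr (Subgroup.comap_top p)).trans
        Subgroup.topEquiv).symm.toMonoidHom = M.subgroupOf ((⊤ : Subgroup H).comap p) := by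
      ext y
      rw [Subgroup.mem_subgroupOf, Subgroup.mem_map]
      constructor
      · rintro ⟨x, hx, rfl⟩
        exact hx
      · intro hy
        exact ⟨(y : X), hy, rfl⟩
    rw [h5] at h4
    exact h4
  have hS : ∑ V : Subgroup H, m V *
      PHY 𝔐 ℓ d (M.subgroupOf (V.comap p)) (V.comap p).subtype M ω ≠ 0 := by
    rw [Finset.sum_eq_single (⊤ : Subgroup H), hm1, one_mul, hTop]
    · exact hne
    · intro V _ hV'
      rw [hV V hV', mul_zero]
    · intro h4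
      exact absurd (Finset.mem_univ _) h4
  have hS2 : ∑ V : Subgroup H, m V *
      PHY 𝔐 ℓ d (M.subgroupOf (V.comap p)) (V.comap p).subtype M ω =
      ∑ τ ∈ Ch ℓ (⊥ : Subgroup M), (-1 : ℚ) ^ τ.card *
        ∑ θ ∈ irrF (stb τ) with ∀ g ∈ M, cen 𝔐 (M.subtype.comp (stb τ).subtype) θ g = ω g,
          (Nat.card (stb τ) : ℚ) * ∑ V : Subgroup H, m V *
            g τ θ (V ⊓ (inert (cS h τ) θ).map (pS p M.subtype τ)) := by
    simp only [hB, Finset.mul_sum]
    rw [Finset.sum_comm]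
    refine Finset.sum_congr rfl fun τ _ => ?_
    rw [Finset.sum_comm]
    refine Finset.sum_congr rfl fun θ _ => ?_
    refine Finset.sum_congr rfl fun V _ => ?_
    ring
  rw [hS2] at hS
  obtain ⟨τ, hτ, h6⟩ := Finset.exists_ne_zero_of_sum_ne_zero hS
  obtain ⟨θ, hθ, h7⟩ := Finset.exists_ne_zero_of_sum_ne_zero (right_ne_zero_of_mul h6)
  have h8 := right_ne_zero_of_mul h7
  rw [Finset.mem_filter, mem_irrF] at hθ
  obtain ⟨hθ, hω⟩ := hθ
  rw [mem_Ch] at hτ
  have hH : (inert (cS h τ) θ).map (pS p M.subtype τ) = ⊤ := by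
    by_contra h9
    exact h8 (hm2 _ h9 (g τ θ))
  obtain ⟨ξ, hξ, hξ'⟩ := exists_irr_of_mult 𝔐 hθ (exists_irr_of_chain 𝔐 hℓ hτ hθ)
  refine ⟨stb τ, ↥(inert (cS h τ) θ), inferInstance, inferInstance, inferInstance, inferInstance,
    EXPA.jI (clG_S h τ) hθ, (cS h τ).comp (inert (cS h τ) θ).subtype,
    (pS p M.subtype τ).comp (inert (cS h τ) θ).subtype, θ, ξ, EXPA.clG_I (clG_S h τ) hθ,
    ?_, hθ, ?_, ?_, hξ, ?_, EXPA.stable h τ θ hH ξ hξ'⟩
  · intro k
    have h9 : k ∈ (inert (cS h τ) θ).map (pS p M.subtype τ) := by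
      rw [hH]
      exact Subgroup.mem_top k
    obtain ⟨t, ht, rfl⟩ := h9
    exact ⟨⟨t, ht⟩, rfl⟩
  · intro t a
    exact t.2 a
  · have h9 : ∀ V : Subgroup H, g τ θ (V ⊓ (inert (cS h τ) θ).map (pS p M.subtype τ)) =
        (Nat.card V : ℚ) * Nat.card {ψ : ↥(V.comap ((pS p M.subtype τ).comp
          (inert (cS h τ) θ).subtype)) → ℂ // IsIrr ψ ∧
            ip (fun a : stb τ => ext0 ψ (EXPA.jI (clG_S h τ) hθ a)) θ ≠ 0 ∧
              HasDefect ℓ ψ d} := by
      intro V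
      rw [hH, inf_top_eq, hg]
      have h10 : ∀ (ψ : ↥(V.comap ((pS p M.subtype τ).comp
          (inert (cS h τ) θ).subtype)) → ℂ) (a : stb τ),
          ext0 (ext0 ψ) (jS h τ a) = ext0 ψ (EXPA.jI (clG_S h τ) hθ a) := by
        intro ψ a
        exact ext0_of_mem (ext0 ψ) (EXPA.mem_inert (clG_S h τ) hθ a)
      simp only [h10]
    simp only [h9] at h8
    exact h8
  · intro x hx
    rw [← hω x hx]
    have hf : ∀ u y : M, conjInd (((u * y * u⁻¹ : M)) : X) x = conjInd ((y : M) : X) x := by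
      intro u y
      have h9 : (((u * y * u⁻¹ : M)) : X) = (u : X) * (y : X) * ((u : X))⁻¹ := rfl
      rw [h9, conjInd_conj]
    have h9 := red_wt_eq_pair 𝔐 (MonoidHom.id M) hξ (fun y : M => conjInd (y : X) x) hf
      (fun y => isIntegral_conjInd _ _)
    have h10 := red_wt_eq_pair 𝔐 (stb τ).subtype hθ (fun y : M => conjInd (y : X) x) hf
      (fun y => isIntegral_conjInd _ _)
    rw [← hξ', ← h9] at h10
    exact h10.symm

end Pool.Agent.DPM


end

section

/-!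
# COMB: the vanishing of the combinatorial sum
-/

namespace Pool.Agent.DP.COMB

open Pool.Agent.Lib_helper13 Representation

theorem irrOn_of_mem {G : Type*} [Group G] [Fintype G] {S : Subgroup G} {f : G → ℂ}
    (h : f ∈ irrOn S) : IrrOn S f := by
  classical
  rw [irrOn, Finset.mem_image] at h
  obtain ⟨ψ, hψ, rfl⟩ := h
  refine ⟨?_, fun x hx => ext0_of_not_mem ψ hx⟩
  have h1 : (fun s : S => ext0 ψ (s : G)) = ψ := by
    funext s
    rw [ext0_of_mem ψ s.2]
  rw [h1]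
  exact mem_irrF.mp hψ

section Gen

variable {I V : Type*} (s : Finset I) (w : I → ℚ) (val : I → V)

open Classical in
theorem sum_vanish (Φ : V → ℚ)
    (h : ∀ v, Φ v ≠ 0 → ∑ i ∈ s, w i * (if val i = v then 1 else 0) = 0) :
    ∑ i ∈ s, w i * Φ (val i) = 0 := by
  rw [← Finset.sum_fiberwise_of_maps_to (g := val) (t := s.image val)
    (fun i hi => Finset.mem_image_of_mem val hi)]
  refine Finset.sum_eq_zero fun v _ => ?_
  have h1 : ∑ i ∈ s.filter (fun i => val i = v), w i * Φ (val i) =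
      (∑ i ∈ s, w i * (if val i = v then 1 else 0)) * Φ v := by
    rw [Finset.sum_filter, Finset.sum_mul]
    refine Finset.sum_congr rfl fun i _ => ?_
    by_cases hv : val i = v
    · rw [if_pos hv, if_pos hv, hv, mul_one]
    · rw [if_neg hv, if_neg hv, mul_zero, zero_mul]
  rw [h1]
  by_cases h2 : Φ v = 0
  · rw [h2, mul_zero]
  · rw [h v h2, zero_mul]

end Gen

instance finiteSetoid {O : Type*} [Finite O] : Finite (Setoid O) := by
  have h : Function.Injective (fun (π : Setoid O) (a b : O) => π a b) := by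
    intro π ρ h
    ext a b
    have := congrFun (congrFun h a) b
    simp only at this
    rw [this]
  exact Finite.of_injective _ h

section Mob

variable {I O : Type*} [Finite O] (s : Finset I) (w : I → ℚ) (val : I → Setoid O)

open Classical in
/-- Downward induction over the partitions. -/
theorem mob (h : ∀ π : Setoid O, ∑ i ∈ s, w i * (if π ≤ val i then 1 else 0) = 0)
    (π : Setoid O) : ∑ i ∈ s, w i * (if val i = π then 1 else 0) = 0 := by
  have hwf : WellFounded (fun a b : Setoid O => a > b) := wellFounded_gt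
  induction π using hwf.induction with
  | _ π ih =>
    have h1 := h π
    have h2 : ∑ i ∈ s, w i * (if π < val i then 1 else 0) = 0 :=
      sum_vanish s w val (fun ρ => if π < ρ then 1 else 0) (by
        intro ρ hρ
        by_cases h3 : π < ρ
        · exact ih ρ h3
        · rw [if_neg h3] at hρ
          exact absurd rfl hρ)
    have h3 : ∑ i ∈ s, w i * (if π ≤ val i then 1 else 0) =
        ∑ i ∈ s, w i * (if π < val i then 1 else 0) +
          ∑ i ∈ s, w i * (if val i = π then 1 else 0) := by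
      rw [← Finset.sum_add_distrib]
      refine Finset.sum_congr rfl fun i _ => ?_
      by_cases h4 : val i = π
      · have h7 : ¬ π < val i := by
          rw [h4]
          exact fun h8 => h8.ne rfl
        rw [if_pos h4, if_neg h7, if_pos (le_of_eq h4.symm)]
        ring
      · by_cases h5 : π < val i
        · rw [if_pos h5, if_pos h5.le, if_neg h4]
          ring
        · rw [if_neg h5, if_neg h4, if_neg (fun h6 => h5 (lt_of_le_of_ne h6 (Ne.symm h4)))]
          ring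
    rw [h1, h2, zero_add] at h3
    exact h3.symm

end Mob

section Cnt

variable {O G : Type} [Fintype O] [DecidableEq O] [Group G] [Fintype G]

open Classical in
/-- The systems of transporters. -/
theorem card_trans (h1 : Stmt_TRC) (τ : Finset (Subgroup (O → G))) (θ : O → G → ℂ)
    (hθ : ∀ o, IrrOn (stb (comp τ o)) (θ o)) (π : Setoid O) [Fintype (Quotient π)]
    (s : Quotient π → O)
    (hs : ∀ w, Quotient.mk π (s w) = w) :
    ∑ g ∈ Finset.univ.filter (fun g : O → G => ∀ w, g (s w) = 1),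
      (if ∀ o, trP τ θ (s (Quotient.mk π o)) o (g o) then
        ∏ w, (Nat.card (stb (comp τ (s w))) : ℚ) else 0) =
    (∏ o, (Nat.card (stb (comp τ o)) : ℚ)) * (if π ≤ prt τ θ then 1 else 0) := by
  obtain ⟨t1, t2, t3⟩ := h1 O G τ θ hθ
  rw [← Finset.sum_filter, Finset.filter_filter, Finset.sum_const, nsmul_eq_mul]
  by_cases hπ : π ≤ prt τ θ
  · rw [if_pos hπ, mul_one]
    have hset : Finset.univ.filter (fun g : O → G => (∀ w, g (s w) = 1) ∧
        ∀ o, trP τ θ (s (Quotient.mk π o)) o (g o)) =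
        Fintype.piFinset (fun o => if o = s (Quotient.mk π o) then {1} else
          Finset.univ.filter (fun x : G => trP τ θ (s (Quotient.mk π o)) o x)) := by
      ext g
      rw [Finset.mem_filter, Fintype.mem_piFinset]
      constructor
      · rintro ⟨-, hg1, hg2⟩ o
        by_cases ho : o = s (Quotient.mk π o)
        · rw [if_pos ho, Finset.mem_singleton]
          have := hg1 (Quotient.mk π o)
          rwa [← ho] at this
        · rw [if_neg ho, Finset.mem_filter]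
          exact ⟨Finset.mem_univ _, hg2 o⟩
      · intro hg
        refine ⟨Finset.mem_univ _, ?_, ?_⟩
        · intro w
          have := hg (s w)
          rw [if_pos (by rw [hs]), Finset.mem_singleton] at this
          exact this
        · intro o
          have := hg o
          by_cases ho : o = s (Quotient.mk π o)
          · rw [if_pos ho, Finset.mem_singleton] at this
            rw [← ho, this]
            exact (t1 o 1).mpr (one_mem _)
          · rw [if_neg ho, Finset.mem_filter] at this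
            exact this.2
    rw [hset, Fintype.card_piFinset]
    push_cast
    have hc : ∀ o, (((if o = s (Quotient.mk π o) then {1} else
          Finset.univ.filter (fun x : G => trP τ θ (s (Quotient.mk π o)) o x)) :
          Finset G).card : ℚ) = if o = s (Quotient.mk π o) then 1 else
            (Nat.card (stb (comp τ o)) : ℚ) := by
      intro o
      by_cases ho : o = s (Quotient.mk π o)
      · rw [if_pos ho, if_pos ho, Finset.card_singleton, Nat.cast_one]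
      · rw [if_neg ho, if_neg ho]
        congr 1
        have hpr : prt τ θ (s (Quotient.mk π o)) o := by
          apply hπ
          exact Quotient.exact (hs (Quotient.mk π o))
        rw [← (t3 _ _ hpr).2, Nat.card_eq_fintype_card, Fintype.card_subtype]
    rw [Finset.prod_congr rfl (fun o _ => hc o)]
    have hsplit : ∏ o, (Nat.card (stb (comp τ o)) : ℚ) =
        (∏ o, (if o = s (Quotient.mk π o) then 1 else (Nat.card (stb (comp τ o)) : ℚ))) *
        ∏ o, (if o = s (Quotient.mk π o) then (Nat.card (stb (comp τ o)) : ℚ) else 1) := by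
      rw [← Finset.prod_mul_distrib]
      refine Finset.prod_congr rfl fun o _ => ?_
      by_cases ho : o = s (Quotient.mk π o)
      · rw [if_pos ho, if_pos ho, one_mul]
      · rw [if_neg ho, if_neg ho, mul_one]
    rw [hsplit]
    congr 1
    rw [← Finset.prod_filter]
    refine Finset.prod_bij (fun w _ => s w) ?_ ?_ ?_ ?_
    · intro w _
      rw [Finset.mem_filter]
      exact ⟨Finset.mem_univ _, by rw [hs]⟩
    · intro w _ w' _ h
      rw [← hs w, ← hs w', h]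
    · intro o ho
      rw [Finset.mem_filter] at ho
      exact ⟨Quotient.mk π o, Finset.mem_univ _, ho.2.symm⟩
    · intro w _
      rfl
  · rw [if_neg hπ, mul_zero]
    have hset : Finset.univ.filter (fun g : O → G => (∀ w, g (s w) = 1) ∧
        ∀ o, trP τ θ (s (Quotient.mk π o)) o (g o)) = ∅ := by
      rw [Finset.filter_eq_empty_iff]
      rintro g - ⟨-, hg⟩
      apply hπ
      intro a b hab
      have ha : prt τ θ (s (Quotient.mk π a)) a := ⟨g a, hg a⟩
      have hb : prt τ θ (s (Quotient.mk π b)) b := ⟨g b, hg b⟩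
      have he : Quotient.mk π a = Quotient.mk π b := Quotient.sound hab
      rw [he] at ha
      exact (prt τ θ).trans ((prt τ θ).symm ha) hb
    rw [hset, Finset.card_empty, Nat.cast_zero, zero_mul]

open Classical in
theorem combInd (h1 : Stmt_TRC) (h2 : Stmt_FIX) (h3 : Stmt_EVAL)
    (𝔐 : Ideal (integralClosure ℤ ℂ)) (ℓ : ℕ) [Fact ℓ.Prime] (e1 : O → ℕ)
    (b0 : O → G → (integralClosure ℤ ℂ) ⧸ 𝔐) (o1 : O)
    (hb : ∀ d, KK 𝔐 ℓ d (⊥ : Subgroup G) (b0 o1) = 0) (π : Setoid O) :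
    ∑ τ ∈ ClCh O G ℓ, (-1 : ℚ) ^ τ.card * ((∏ o, (Nat.card (stb (comp τ o)) : ℚ)) *
      ∑ θ ∈ Fintype.piFinset (fun o => irrOn (stb (comp τ o))),
        (if π ≤ prt τ θ then 1 else 0) *
          (if (fun o => df ℓ (stb (comp τ o)) (θ o)) = e1 ∧ (fun o => cg 𝔐 (θ o)) = b0
            then (1 : ℚ) else 0)) = 0 := by
  letI : Fintype (Quotient π) := Fintype.ofFinite _
  have hs : ∀ w : Quotient π, Quotient.mk π (Quotient.out w) = w := fun w => Quotient.out_eq w
  have hF : ∀ g ∈ Finset.univ.filter (fun g : O → G => ∀ w : Quotient π, g (Quotient.out w) = 1),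
      ∑ τ ∈ ClCh O G ℓ, (-1 : ℚ) ^ τ.card *
      ∑ θ ∈ (Fintype.piFinset (fun o => irrOn (stb (comp τ o)))).filter
        (fun θ => ∀ o, trP τ θ (Quotient.out (Quotient.mk π o)) o (g o)),
        (∏ w : Quotient π, (Nat.card (stb (comp τ (Quotient.out w))) : ℚ)) *
          (if (fun o => df ℓ (stb (comp τ o)) (θ o)) = e1 ∧ (fun o => cg 𝔐 (θ o)) = b0
            then (1 : ℚ) else 0) = 0 := by
    intro g hg
    rw [Finset.mem_filter] at hg
    have hfix := h2 O (Quotient π) G 𝔐 ℓ (Quotient.mk π) Quotient.out g hs hg.2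
      (fun e b => if e = e1 ∧ b = b0 then 1 else 0)
    refine hfix.trans ?_
    by_cases hf : (∀ o, e1 o = e1 (Quotient.out (Quotient.mk π o))) ∧
        (∀ o, b0 o = b0 (Quotient.out (Quotient.mk π o)))
    · have hev := h3 (Quotient π) G 𝔐 ℓ (fun w => e1 (Quotient.out w))
        (fun w => b0 (Quotient.out w))
      have hz : ∏ w : Quotient π, KK 𝔐 ℓ (e1 (Quotient.out w)) (⊥ : Subgroup G)
          (b0 (Quotient.out w)) = 0 := by
        apply Finset.prod_eq_zero (Finset.mem_univ (Quotient.mk π o1))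
        rw [← hf.2 o1]
        exact hb _
      rw [hz] at hev
      refine Eq.trans ?_ hev
      refine Finset.sum_congr rfl fun τ _ => ?_
      congr 1
      refine Finset.sum_congr rfl fun θ _ => ?_
      congr 1
      refine if_congr ?_ rfl rfl
      constructor
      · rintro ⟨ha, hc⟩ w
        have h5 := congrFun ha (Quotient.out w)
        have h6 := congrFun hc (Quotient.out w)
        simp only [hs] at h5 h6
        exact ⟨h5, h6⟩
      · intro hw
        refine ⟨?_, ?_⟩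
        · funext o
          rw [(hw (Quotient.mk π o)).1, ← hf.1 o]
        · funext o
          rw [(hw (Quotient.mk π o)).2, ← hf.2 o]
    · refine Finset.sum_eq_zero fun τ _ => ?_
      rw [Finset.sum_eq_zero, mul_zero]
      intro θ _
      rw [if_neg, mul_zero]
      rintro ⟨ha, hc⟩
      apply hf
      refine ⟨?_, ?_⟩
      · intro o
        rw [← ha]
        simp only [hs]
      · intro o
        rw [← hc]
        simp only [hs]
  refine Eq.trans ?_ (Finset.sum_eq_zero hF)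
  rw [Finset.sum_comm]
  refine Finset.sum_congr rfl fun τ _ => ?_
  rw [← Finset.mul_sum]
  congr 1
  rw [Finset.mul_sum]
  simp only [Finset.sum_filter]
  rw [← Finset.sum_filter, Finset.sum_comm]
  refine Finset.sum_congr rfl fun θ hθ => ?_
  rw [Fintype.mem_piFinset] at hθ
  have hc := card_trans h1 τ θ (fun o => irrOn_of_mem (hθ o)) π Quotient.out hs
  rw [← mul_assoc, ← hc, Finset.sum_mul]
  refine Finset.sum_congr rfl fun g _ => ?_
  by_cases ht : ∀ o, trP τ θ (Quotient.out (Quotient.mk π o)) o (g o)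
  · rw [if_pos ht, if_pos ht]
  · rw [if_neg ht, if_neg ht, zero_mul]

end Cnt

end Pool.Agent.DP.COMB

namespace Pool.Agent.DP

open Pool.Agent.Lib_helper13 Representation

open Classical in
theorem COMB_thm (h1 : Stmt_TRC) (h2 : Stmt_FIX) (h3 : Stmt_EVAL) : Stmt_COMB := by
  intro O G _ _ _ _ 𝔐 ℓ _ Φ hΦ
  have key := COMB.sum_vanish
    ((ClCh O G ℓ).sigma (fun τ => Fintype.piFinset (fun o => irrOn (stb (comp τ o)))))
    (fun x => (-1 : ℚ) ^ x.1.card * ∏ o, (Nat.card (stb (comp x.1 o)) : ℚ))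
    (fun x => (prt x.1 x.2, (fun o => df ℓ (stb (comp x.1 o)) (x.2 o)),
      (fun o => cg 𝔐 (x.2 o))))
    (fun v : Setoid O × (O → ℕ) × (O → G → (integralClosure ℤ ℂ) ⧸ 𝔐) =>
      Φ v.1 (∑ o, v.2.1 o) v.2.2) (by
      rintro ⟨π, e1, b0⟩ hv
      obtain ⟨o1, ho1⟩ := hΦ π (∑ o, e1 o) b0 hv
      have hm := COMB.mob
        ((ClCh O G ℓ).sigma (fun τ => Fintype.piFinset (fun o => irrOn (stb (comp τ o)))))
        (fun x => ((-1 : ℚ) ^ x.1.card * ∏ o, (Nat.card (stb (comp x.1 o)) : ℚ)) *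
          (if (fun o => df ℓ (stb (comp x.1 o)) (x.2 o)) = e1 ∧ (fun o => cg 𝔐 (x.2 o)) = b0
            then (1 : ℚ) else 0))
        (fun x => prt x.1 x.2) (by
          intro ρ
          have hc := COMB.combInd h1 h2 h3 𝔐 ℓ e1 b0 o1 ho1 ρ
          refine Eq.trans ?_ hc
          rw [Finset.sum_sigma]
          refine Finset.sum_congr rfl fun τ _ => ?_
          rw [← mul_assoc, Finset.mul_sum]
          refine Finset.sum_congr rfl fun θ _ => ?_
          simp only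
          ring) π
      refine Eq.trans ?_ hm
      refine Finset.sum_congr rfl fun x _ => ?_
      simp only [Prod.mk.injEq]
      by_cases h4 : prt x.1 x.2 = π
      · rw [if_pos h4, mul_one]
        congr 1
        exact if_congr ⟨fun h => h.2, fun h => ⟨h4, h⟩⟩ rfl rfl
      · rw [if_neg h4, if_neg (fun h => h4 h.1), mul_zero, mul_zero])
  rw [Finset.sum_sigma] at key
  refine Eq.trans ?_ key
  refine Finset.sum_congr rfl fun τ _ => ?_
  rw [← mul_assoc, Finset.mul_sum]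

end Pool.Agent.DP


end

section

/-!
# COMBR: the vanishing of the combinatorial sum (theorem R)
-/

namespace Pool.Agent.DPC.COMBR

open Pool.Agent.DP

open Pool.Agent.Lib_helper13 Representation

theorem vg_mono {O B C Y K : Type*} [Group B] [Group C] [Group Y] [Group K]
    (ρ : B →* C) (p : Y →* K) (φ : Y →* Gam (Equiv.Perm O) O B) {J J' : Subgroup K} (h : J ≤ J')
    (o : O) : vg ρ p φ J o ≤ vg ρ p φ J' o := by
  rintro c ⟨y, hy, h2, h3⟩
  exact ⟨y, h hy, h2, h3⟩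

/-- The type is invariant under truncation. -/
theorem dzT_trn {G B C : Type} [Group G] [Fintype G] [Group B] [Group C]
    (𝔐 : Ideal (integralClosure ℤ ℂ)) (ℓ : ℕ) {ι : G →* B} {κ : B →* MulAut G} {ρ : B →* C}
    (hcl : ClG ι κ ρ) (L : Subgroup C) (β : Set (B → (integralClosure ℤ ℂ) ⧸ 𝔐)) :
    dzT 𝔐 ℓ ι ((fun b => trn ρ L b) '' β) ↔ dzT 𝔐 ℓ ι β := by
  have h1 : ∀ (b : B → (integralClosure ℤ ℂ) ⧸ 𝔐) (g : G), trn ρ L b (ι g) = b (ι g) := by
    intro b g
    have h2 : ρ (ι g) = 1 := (hcl.ker (ι g)).mpr ⟨g, rfl⟩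
    rw [trn, if_pos (by rw [h2]; exact L.one_mem)]
  constructor
  · rintro ⟨_, ⟨b, hb, rfl⟩, θ, h2, h3, h4⟩
    refine ⟨b, hb, θ, h2, h3, fun g => ?_⟩
    rw [← h4 g]
    exact (h1 b g).symm
  · rintro ⟨b, hb, θ, h2, h3, h4⟩
    refine ⟨_, ⟨b, hb, rfl⟩, θ, h2, h3, fun g => ?_⟩
    rw [← h4 g]
    exact h1 b g

theorem ite_dec (P : Prop) (d1 d2 : Decidable P) (a b : ℚ) :
    @ite _ P d1 a b = @ite _ P d2 a b := by
  by_cases h : P
  · rw [if_pos h, if_pos h]
  · rw [if_neg h, if_neg h]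

section Gen

variable {I P E V : Type*} [PartialOrder P] [Finite P] (s : Finset I) (w : I → ℚ) (k : I → P)
  (e : I → E) (v : I → P → V) (r : P → V → V) (good : V → Prop)

open Classical in
/-- Downward induction. -/
theorem down (hr : ∀ i ∈ s, ∀ J ≤ k i, v i J = r J (v i (k i)))
    (hg : ∀ J u, good (r J u) → good u)
    (h : ∀ J e0 u, good u →
      ∑ i ∈ s, w i * (if J ≤ k i ∧ e i = e0 ∧ v i J = u then 1 else 0) = 0)
    (J : P) : ∀ (e0 : E) (u : V), good u →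
      ∑ i ∈ s, w i * (if k i = J ∧ e i = e0 ∧ v i (k i) = u then 1 else 0) = 0 := by
  have hwf : WellFounded (fun a b : P => a > b) := wellFounded_gt
  induction J using hwf.induction with
  | _ J ih =>
    intro e0 u hu
    have h1 := h J e0 u hu
    have h2 : ∑ i ∈ s, w i * (if J < k i ∧ e i = e0 ∧ r J (v i (k i)) = u then 1 else 0) = 0 := by
      have := COMB.sum_vanish s w (fun i => (k i, e i, v i (k i)))
        (fun x : P × E × V => if J < x.1 ∧ x.2.1 = e0 ∧ r J x.2.2 = u then 1 else 0) (by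
          rintro ⟨J', e', u'⟩ hx
          by_cases h3 : J < J' ∧ e' = e0 ∧ r J u' = u
          · have h4 := ih J' h3.1 e' u' (hg J u' (by rw [h3.2.2]; exact hu))
            refine Eq.trans ?_ h4
            refine Finset.sum_congr rfl fun i _ => ?_
            congr 1
            by_cases h5 : (k i, e i, v i (k i)) = (J', e', u')
            · rw [if_pos h5, if_pos (by simpa only [Prod.mk.injEq] using h5)]
            · rw [if_neg h5, if_neg (fun h6 => h5 (by simpa only [Prod.mk.injEq] using h6))]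
          · exact absurd (if_neg h3) hx)
      exact this
    have h3 : ∑ i ∈ s, w i * (if J ≤ k i ∧ e i = e0 ∧ v i J = u then 1 else 0) =
        ∑ i ∈ s, w i * (if J < k i ∧ e i = e0 ∧ r J (v i (k i)) = u then 1 else 0) +
          ∑ i ∈ s, w i * (if k i = J ∧ e i = e0 ∧ v i (k i) = u then 1 else 0) := by
      rw [← Finset.sum_add_distrib]
      refine Finset.sum_congr rfl fun i hi => ?_
      by_cases h4 : k i = J
      · have h7 : ¬ (J < k i ∧ e i = e0 ∧ r J (v i (k i)) = u) := by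
          rintro ⟨h8, -⟩
          exact h8.ne h4.symm
        rw [if_neg h7, mul_zero, zero_add]
        congr 1
        refine if_congr ?_ rfl rfl
        rw [h4]
        simp
      · have h7 : ¬ (k i = J ∧ e i = e0 ∧ v i (k i) = u) := fun h8 => h4 h8.1
        rw [if_neg h7, mul_zero, add_zero]
        congr 1
        refine if_congr ?_ rfl rfl
        constructor
        · rintro ⟨a, b, c⟩
          refine ⟨lt_of_le_of_ne a (Ne.symm h4), b, ?_⟩
          rw [← hr i hi J a]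
          exact c
        · rintro ⟨a, b, c⟩
          refine ⟨a.le, b, ?_⟩
          rw [hr i hi J a.le]
          exact c
    rw [h1, h2, zero_add] at h3
    exact h3.symm

end Gen

end Pool.Agent.DPC.COMBR

namespace Pool.Agent.DPC

open Pool.Agent.DP

open Pool.Agent.Lib_helper13 Representation

open Classical in
theorem COMBR_thm (h1 : Stmt_EXTBR) : Stmt_COMBR := by
  intro O G B C Y K _ _ _ _ _ _ _ _ _ _ _ 𝔐 ℓ _ ι κ ρ hL j p φ hE hT Φ hΦ
  have hdown := COMBR.down (P := Subgroup K) (E := ℕ)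
    (V := O → Set (B → (integralClosure ℤ ℂ) ⧸ 𝔐))
    ((ClCh O G ℓ).sigma (fun τ => Fintype.piFinset (fun o => irrOn (stb (comp τ o)))))
    (fun x => (-1 : ℚ) ^ x.1.card * ∏ o, (Nat.card (stb (comp x.1 o)) : ℚ))
    (fun x => KB κ p φ x.1 x.2)
    (fun x => ∑ o, df ℓ (stb (comp x.1 o)) (x.2 o))
    (fun x J => bts 𝔐 ι κ ρ p φ x.1 x.2 J)
    (fun J β o => (fun b => trn ρ (vg ρ p φ J o) b) '' β o)
    (fun β => ∃ o, ¬ dzT 𝔐 ℓ ι (β o))
    (by
      rintro ⟨τ, θ⟩ hx J hJ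
      rw [Finset.mem_sigma, Fintype.mem_piFinset] at hx
      funext o
      exact (h1 G B C 𝔐 ℓ ι κ ρ hL (comp τ o) (θ o) (COMB.irrOn_of_mem (hx.2 o)) _ _
        (COMBR.vg_mono ρ p φ hJ o)).2.2)
    (by
      rintro J β ⟨o, ho⟩
      refine ⟨o, fun h => ho ?_⟩
      exact (COMBR.dzT_trn 𝔐 ℓ hL.cl _ _).mpr h)
    (by
      intro J e0 β hβ
      refine Eq.trans ?_ (hT J e0 β hβ)
      rw [Finset.sum_sigma]
      refine Finset.sum_congr rfl fun τ _ => ?_
      rw [← mul_assoc, Finset.mul_sum]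
      refine Finset.sum_congr rfl fun θ _ => ?_
      congr 1
      exact COMBR.ite_dec _ _ _ _ _)
  have key := COMB.sum_vanish
    ((ClCh O G ℓ).sigma (fun τ => Fintype.piFinset (fun o => irrOn (stb (comp τ o)))))
    (fun x => (-1 : ℚ) ^ x.1.card * ∏ o, (Nat.card (stb (comp x.1 o)) : ℚ))
    (fun x => (KB κ p φ x.1 x.2, ∑ o, df ℓ (stb (comp x.1 o)) (x.2 o),
      bts 𝔐 ι κ ρ p φ x.1 x.2 (KB κ p φ x.1 x.2)))
    (fun v : Subgroup K × ℕ × (O → Set (B → (integralClosure ℤ ℂ) ⧸ 𝔐)) => Φ v.1 v.2.1 v.2.2)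
    (by
      rintro ⟨J, e0, β⟩ hv
      refine Eq.trans ?_ (hdown J e0 β (hΦ J e0 β hv))
      refine Finset.sum_congr rfl fun x _ => ?_
      congr 1
      by_cases h5 : (KB κ p φ x.1 x.2, ∑ o, df ℓ (stb (comp x.1 o)) (x.2 o),
        bts 𝔐 ι κ ρ p φ x.1 x.2 (KB κ p φ x.1 x.2)) = (J, e0, β)
      · rw [if_pos h5, if_pos (by simpa only [Prod.mk.injEq] using h5)]
      · rw [if_neg h5, if_neg (fun h6 => h5 (by simpa only [Prod.mk.injEq] using h6))])
  rw [Finset.sum_sigma] at key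
  refine Eq.trans ?_ key
  refine Finset.sum_congr rfl fun τ _ => ?_
  rw [← mul_assoc, Finset.mul_sum]

end Pool.Agent.DPC


end

section

/-!
# COMBV: the vanishing of the combinatorial sum (theorem V)
-/

namespace Pool.Agent.DPV

open Pool.Agent.DP Pool.Agent.Lib_helper13 Representation
open Pool.Agent.Lib_helper13.Dade (pCore DadeHolds dadeSum)

namespace COMBV

/-- The type of a class passes to its truncations. -/
theorem dzT_trL {G B C : Type} [Group G] [Fintype G] [Group B] [Group C]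
    (𝔐 : Ideal (integralClosure ℤ ℂ)) (ℓ : ℕ) {ι : G →* B} {κ : B →* MulAut G} {ρ : B →* C}
    (hcl : ClG ι κ ρ) (L : Subgroup C) (β : Set (B → (integralClosure ℤ ℂ) ⧸ 𝔐))
    (h : dzT 𝔐 ℓ ι β) : dzT 𝔐 ℓ ι (trL 𝔐 ρ L β) := by
  obtain ⟨b, hb, θ, h2, h3, h4⟩ := h
  refine ⟨fun x => red 𝔐 ((fun _ : C => (1 : ℂ)) (ρ x)) * trn ρ L b x,
    ⟨b, hb, fun _ => 1, ⟨rfl, fun x _ y _ => by simp⟩, rfl⟩, θ, h2, h3, fun g => ?_⟩
  have h5 : ρ (ι g) = 1 := (hcl.ker (ι g)).mpr ⟨g, rfl⟩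
  have h6 : trn ρ L b (ι g) = b (ι g) := by
    rw [trn, if_pos (by rw [h5]; exact L.one_mem)]
  rw [← h4 g]
  change red 𝔐 1 * trn ρ L b (ι g) = _
  rw [h6, red_one, one_mul]

end COMBV

open Classical in
theorem COMBV_thm (h1 : Stmt_BETV) (h2 : Stmt_PERAV) : Stmt_COMBV := by
  intro O G B C Y K _ _ _ _ _ _ _ _ _ _ _ 𝔐 ℓ _ ι κ ρ hL j p φ hE hT Φ hΦ
  have hdown := DPC.COMBR.down (P := Subgroup K) (E := ℕ)
    (V := O → Set (B → (integralClosure ℤ ℂ) ⧸ 𝔐))
    ((ClCh O G ℓ).sigma (fun τ => Fintype.piFinset (fun o => irrOn (stb (comp τ o)))))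
    (fun x => (-1 : ℚ) ^ x.1.card * ∏ o, (Nat.card (stb (comp x.1 o)) : ℚ))
    (fun x => KB κ p φ x.1 x.2)
    (fun x => ∑ o, df ℓ (stb (comp x.1 o)) (x.2 o))
    (fun x J => bts 𝔐 ι κ ρ p φ x.1 x.2 J)
    (fun J β o => trL 𝔐 ρ (vg ρ p φ J o) (β o))
    (fun β => ∃ o, ¬ dzT 𝔐 ℓ ι (β o))
    (by
      rintro ⟨τ, θ⟩ hx J hJ
      rw [Finset.mem_sigma, Fintype.mem_piFinset] at hx
      funext o
      have hθ : ∀ o, IrrOn (stb (comp τ o)) (θ o) := fun o => COMB.irrOn_of_mem (hx.2 o)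
      exact (h1 G B C 𝔐 ι κ ρ hL).2.2 (comp τ o) (θ o) (hθ o) _ _
        (DPC.COMBR.vg_mono ρ p φ hJ o)
        ((h2 O G B C Y K ℓ ι κ ρ hL j p φ hE τ hx.1 θ hθ).2.2.2.2 o))
    (by
      rintro J β ⟨o, ho⟩
      exact ⟨o, fun h => ho (COMBV.dzT_trL 𝔐 ℓ hL.cl _ _ h)⟩)
    (by
      intro J e0 β hβ
      refine Eq.trans ?_ (hT J e0 β hβ)
      rw [Finset.sum_sigma]
      refine Finset.sum_congr rfl fun τ _ => ?_
      rw [← mul_assoc, Finset.mul_sum]
      refine Finset.sum_congr rfl fun θ _ => ?_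
      congr 1
      exact DPC.COMBR.ite_dec _ _ _ _ _)
  have key := COMB.sum_vanish
    ((ClCh O G ℓ).sigma (fun τ => Fintype.piFinset (fun o => irrOn (stb (comp τ o)))))
    (fun x => (-1 : ℚ) ^ x.1.card * ∏ o, (Nat.card (stb (comp x.1 o)) : ℚ))
    (fun x => (KB κ p φ x.1 x.2, ∑ o, df ℓ (stb (comp x.1 o)) (x.2 o),
      bts 𝔐 ι κ ρ p φ x.1 x.2 (KB κ p φ x.1 x.2)))
    (fun v : Subgroup K × ℕ × (O → Set (B → (integralClosure ℤ ℂ) ⧸ 𝔐)) => Φ v.1 v.2.1 v.2.2)
    (by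
      rintro ⟨J, e0, β⟩ hv
      refine Eq.trans ?_ (hdown J e0 β (hΦ J e0 β hv))
      refine Finset.sum_congr rfl fun x _ => ?_
      congr 1
      by_cases h5 : (KB κ p φ x.1 x.2, ∑ o, df ℓ (stb (comp x.1 o)) (x.2 o),
        bts 𝔐 ι κ ρ p φ x.1 x.2 (KB κ p φ x.1 x.2)) = (J, e0, β)
      · rw [if_pos h5, if_pos (by simpa only [Prod.mk.injEq] using h5)]
      · rw [if_neg h5, if_neg (fun h6 => h5 (by simpa only [Prod.mk.injEq] using h6))])
  rw [Finset.sum_sigma] at key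
  refine Eq.trans ?_ key
  refine Finset.sum_congr rfl fun τ _ => ?_
  rw [← mul_assoc, Finset.mul_sum]

end Pool.Agent.DPV


end

section

/-!
# Theorem C: assembly
-/

namespace Pool.Agent.DPC

open Pool.Agent.DP Pool.Agent.Lib_helper13 Representation
open Pool.Agent.Lib_helper13.Dade (pCore DadeHolds dadeSum IsIrrChar)

namespace FinalC

section

variable {Y X : Type} [Group Y] [Fintype Y] [Group X] [Fintype X]

theorem exists_of_cnt {𝔐 : Ideal (integralClosure ℤ ℂ)} {ℓ d : ℕ} {i : Y →* X}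
    {ω : X → (integralClosure ℤ ℂ) ⧸ 𝔐} (h : cnt 𝔐 ℓ d i ω ≠ 0) :
    ∃ ψ : Y → ℂ, IsIrr ψ ∧ cen 𝔐 i ψ = ω := by
  rw [cnt, Nat.card_ne_zero] at h
  obtain ⟨⟨ψ, h3, h4, h5⟩⟩ := h.1
  exact ⟨ψ, h3, funext h5⟩

/-- the image of a chain of a subgroup is a chain -/
theorem isCh_sub {ℓ : ℕ} {N : Type} [Group N] {j : N →* Y} (hj : Function.Injective j)
    {τ : Finset (Subgroup N)} (hτ : IsCh ℓ ⊥ τ) : IsCh ℓ (⊥ : Subgroup Y) (mapCh j τ) := by
  have h := (isCh_mapCh_iff (ℓ := ℓ) (Z := (⊥ : Subgroup N)) hj (τ := τ)).mpr hτ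
  rwa [Subgroup.map_bot] at h

theorem single_unique {Ω G B : Type} [Group G] [Group B] {κ : B →* MulAut G}
    {e : (Ω → G) →* X} {φ : X →* Gam (Equiv.Perm Ω) Ω B} {Q : Subgroup X} {w : Ω} {g : G}
    {x x' : X} (h : Single κ e φ Q w g x) (h' : Single κ e φ Q w g x') : x = x' := by
  obtain ⟨n, rfl, h1, h2⟩ := h
  obtain ⟨n', rfl, h1', h2'⟩ := h'
  congr 1
  ext w'
  by_cases hw : ∃ q ∈ Q, (φ q).right • w = w'
  · obtain ⟨q, hq, rfl⟩ := hw
    rw [h1 q hq, h1' q hq]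
  · push Not at hw
    rw [h2 w' hw, h2' w' hw]

end

/-- The local sums vanish. -/
theorem vs_zero (hPART : Stmt_PART) (hDHR : Stmt_DHR) (hVVC : Stmt_VVC)
    (G B C : Type) [Group G] [Fintype G] [Group B] [Fintype B] [Group C]
    (𝔐 : Ideal (integralClosure ℤ ℂ)) (ℓ : ℕ) [Fact ℓ.Prime]
    (ι : G →* B) (κ : B →* MulAut G) (ρ : B →* C) (hL : LocW ℓ ι κ ρ) (h𝔐 : 𝔐.IsMaximal)
    (hℓ : (ℓ : integralClosure ℤ ℂ) ∈ 𝔐) (hD : DH ℓ ι)
    (L : Subgroup C) (β : Set (B → (integralClosure ℤ ℂ) ⧸ 𝔐)) (e : ℕ)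
    (hβ : ¬ dzT 𝔐 ℓ ι β) : VS 𝔐 ℓ ι κ ρ L β e = 0 := by
  refine hVVC G B C 𝔐 ℓ ι κ ρ hL h𝔐 hℓ ?_ L β e hβ
  intro L' ι' hι'
  have hcyc := hL.cyc
  let ρ' : L'.comap ρ →* L' := (ρ.comp (L'.comap ρ).subtype).codRestrict L' (fun x => x.2)
  have hL' : LocW ℓ ι' (κ.comp (L'.comap ρ).subtype) ρ' := by
    refine ⟨⟨?_, ?_, ?_⟩, ?_, ?_⟩
    · intro a b hab
      apply hL.cl.inj
      rw [← hι', ← hι', hab]
    · intro y a
      apply Subtype.ext
      rw [hι']
      change ι (κ (y : B) a) = (y : B) * (ι' a : B) * (y : B)⁻¹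
      rw [hι', hL.cl.act]
    · intro y
      constructor
      · intro hy
        obtain ⟨g, hg⟩ := (hL.cl.ker (y : B)).mp (congrArg Subtype.val hy)
        exact ⟨g, Subtype.ext (by rw [hι', hg])⟩
      · rintro ⟨g, rfl⟩
        apply Subtype.ext
        change ρ (ι' g : B) = 1
        rw [hι']
        exact (hL.cl.ker _).mpr ⟨g, rfl⟩
    · rintro ⟨c, hc⟩
      obtain ⟨b, rfl⟩ := hL.surj c
      exact ⟨⟨b, hc⟩, rfl⟩
    · infer_instance
  exact hPART G (L'.comap ρ) L' 𝔐 ℓ h𝔐 hℓ ι' (κ.comp (L'.comap ρ).subtype) ρ' hL'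
    (hDHR G B ℓ ι hD (L'.comap ρ) ι' hι')

/-- The stabilizer of a chain of `Y2`, mapped to `Y`. -/
theorem map_YS {Y N : Type} [Group Y] [Group N] {e : N →* Y} (he : Function.Injective e)
    {Y2 : Subgroup Y} (j2 : N →* Y2) (hj : ∀ n, (j2 n : Y) = e n) (τ : Finset (Subgroup N)) :
    (YS j2 τ).map Y2.subtype = stb (mapCh e τ) ⊓ Y2 := by
  have h1 : mapCh Y2.subtype (mapCh j2 τ) = mapCh e τ := by
    rw [mapCh_comp]
    congr 1
    ext n
    exact hj n
  rw [YS, ← comap_stb_mapCh (i := Y2.subtype) (Subgroup.subtype_injective _) (mapCh j2 τ), h1]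
  exact Subgroup.subgroupOf_map_subtype _ _

/-- A layer: the sum over the chains of the normal subgroup `G ^ O` in the stabilizer of a chain
of a normal subgroup which centralizes it. -/
theorem layer (hRIN : Stmt_RIN) (hCONST : Stmt_CONST) (hPART : Stmt_PART) (hDHR : Stmt_DHR)
    (hVVC : Stmt_VVC)
    (G B C O Y K : Type) [Fintype O] [DecidableEq O] [Group G] [Fintype G] [Group B] [Fintype B]
    [Group C] [Group Y] [Fintype Y] [Group K] (𝔐 : Ideal (integralClosure ℤ ℂ)) (ℓ : ℕ)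
    [Fact ℓ.Prime] (h𝔐 : 𝔐.IsMaximal) (hℓ : (ℓ : integralClosure ℤ ℂ) ∈ 𝔐)
    (ι : G →* B) (κ : B →* MulAut G) (ρ : B →* C) (hL : LocW ℓ ι κ ρ) (hD : DH ℓ ι)
    (e : (O → G) →* Y) (p : Y →* K) (φ : Y →* Gam (Equiv.Perm O) O B) (hE : ExtS ι κ e p φ)
    (M2 : Subgroup Y) (hcomm : ∀ x ∈ M2, ∀ n, x * e n = e n * x)
    (χ : Y → ℂ) (hχ : IsIrr χ) (o : O) (θ : G → ℂ) (hθ : IsIrr θ) (d' : ℕ)
    (hdθ : HasDefect ℓ θ d') (hd' : 0 < d')
    (hip : ip (fun g => χ (e (Pi.mulSingle o g))) θ ≠ 0) (d : ℕ)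
    (τ2 : Finset (Subgroup M2)) :
    ∑ τ1 ∈ Ch ℓ (⊥ : Subgroup (O → G)), (-1 : ℚ) ^ τ1.card *
      WW 𝔐 ℓ d (cen 𝔐 (MonoidHom.id Y) χ)
        (stb (mapCh e τ1) ⊓ stb (mapCh M2.subtype τ2)) = 0 := by
  classical
  set Y2 : Subgroup Y := stb (mapCh M2.subtype τ2) with hY2
  have heY2 : ∀ n, e n ∈ Y2 := by
    intro n
    rw [hY2, mem_stb']
    intro D hD x
    obtain ⟨D', hD', rfl⟩ := mem_mapCh.mp hD
    have h0 : ∀ x, x ∈ D'.map M2.subtype → e n * x * (e n)⁻¹ = x := by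
      rintro _ ⟨y, hy, rfl⟩
      rw [Subgroup.coe_subtype, ← hcomm y y.2 n, mul_assoc, mul_inv_cancel, mul_one]
    constructor
    · intro hx
      rw [h0 x hx]
      exact hx
    · intro hx
      have h1 := h0 _ hx
      have h2 : x = (e n)⁻¹ * (e n * x * (e n)⁻¹) * e n := by group
      have h3 : (e n)⁻¹ * (e n * x * (e n)⁻¹) * e n = e n * x * (e n)⁻¹ := by
        have h4 : ∃ y : M2, (y : Y) = e n * x * (e n)⁻¹ := by
          obtain ⟨y, hy, hy'⟩ := hx
          exact ⟨y, hy'⟩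
        obtain ⟨y, hy⟩ := h4
        rw [← hy, mul_assoc, hcomm y y.2 n, inv_mul_cancel_left]
      rw [h2, h3]
      exact hx
  let j2 : (O → G) →* Y2 := e.codRestrict Y2 heY2
  have hj2 : ∀ n, (j2 n : Y) = e n := fun _ => rfl
  let q : Y2 →* K := p.comp Y2.subtype
  have hfin : Finite q.range := Finite.of_surjective _ q.rangeRestrict_surjective
  have hE2 : ExtS ι κ j2 q.rangeRestrict (φ.comp Y2.subtype) := by
    refine ⟨⟨?_, ?_, ?_⟩, q.rangeRestrict_surjective, ?_⟩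
    · intro a b hab
      exact hE.cl.inj (congrArg Subtype.val hab)
    · intro y a
      exact Subtype.ext (hE.cl.act (y : Y) a)
    · intro y
      constructor
      · intro hy
        obtain ⟨n, hn⟩ := (hE.cl.ker (y : Y)).mp (congrArg Subtype.val hy)
        exact ⟨n, Subtype.ext hn⟩
      · rintro ⟨n, rfl⟩
        apply Subtype.ext
        exact (hE.cl.ker _).mpr ⟨n, rfl⟩
    · intro n
      exact hE.jn n
  obtain ⟨ξ, hξ, hξo, hover⟩ := hCONST O G Y e hE.cl.inj χ o θ hχ hθ hip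
  have h1 := hRIN O G B C Y2 q.range Y K 𝔐 ℓ h𝔐 hℓ ι κ ρ hL
    (fun L β e hβ => vs_zero hPART hDHR hVVC G B C 𝔐 ℓ ι κ ρ hL h𝔐 hℓ hD L β e hβ)
    e p φ j2 q.rangeRestrict (φ.comp Y2.subtype) hE hE2 Y2.subtype hj2
    (by
      rintro y ⟨n, hn⟩
      exact ⟨n, Subtype.ext hn⟩)
    χ ξ o d' hχ hξ hover (by rw [hξo]; exact hdθ) hd' d
  rw [← h1]
  refine Finset.sum_congr rfl fun τ1 _ => ?_
  rw [← map_YS hE.cl.inj j2 hj2 τ1, WW_map 𝔐 ℓ d _ Y2.subtype (Subgroup.subtype_injective _)]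

/-- The contribution of an outer chain. -/
theorem inner_zeroC (hINY : Stmt_INY) (hCORE : Pool.Agent.DP.Stmt_CORE) (hOUTA : Stmt_OUTA)
    (hMIX : Stmt_MIX) (hOUTC : Stmt_OUTC) (hDER : Stmt_DER) (hOUTD : Stmt_OUTD)
    (hJOIN : Stmt_JOIN) (hRIN : Stmt_RIN) (hCONST : Stmt_CONST) (hPART : Stmt_PART)
    (hDHR : Stmt_DHR) (hVVC : Stmt_VVC)
    (Ω G B C X K : Type) [Fintype Ω] [DecidableEq Ω] [Group G] [Fintype G] [Group B]
    [Fintype B] [Group C] [Group X] [Fintype X] [Group K] (𝔐 : Ideal (integralClosure ℤ ℂ))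
    (ℓ : ℕ) [Fact ℓ.Prime] (h𝔐 : 𝔐.IsMaximal) (hℓ : (ℓ : integralClosure ℤ ℂ) ∈ 𝔐)
    (ι : G →* B) (κ : B →* MulAut G) (ρ : B →* C) (hL : LocW ℓ ι κ ρ) (hD : DH ℓ ι)
    (e : (Ω → G) →* X) (p : X →* K) (φ : X →* Gam (Equiv.Perm Ω) Ω B) (hE : ExtS ι κ e p φ)
    (χ : X → ℂ) (ξ : Ω → G → ℂ) (w : Ω) (e' : ℕ) (hχ : IsIrr χ) (hξ : ∀ a, IsIrr (ξ a))
    (hover : ip (resj e χ) (fun n => ∏ a, ξ a (n a)) ≠ 0)
    (he : HasDefect ℓ (ξ w) e') (he0 : 0 < e') (Z : Subgroup X) (hZn : Z.Normal)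
    (heN : e.range.Normal) (hZ : IsPGroup ℓ Z) (hZN : Z ⊓ e.range = ⊥) (d : ℕ)
    (c : Finset (Subgroup X)) (hc : IsCh ℓ Z c) (hcN : ∀ D ∈ c, D ⊓ e.range = ⊥) :
    innerS ℓ Z e.range (WW 𝔐 ℓ d (cen 𝔐 (MonoidHom.id X) χ)) c = 0 := by
  classical
  by_cases hco : pCore ℓ (cN e.range (tp Z c)) = ⊥
  swap
  · exact hCORE X ℓ Z e.range _ c hc hco
  have hprime : 𝔐.IsPrime := h𝔐.isPrime
  obtain ⟨hQ, hQN, hst, hcNs, -, hsum⟩ := hINY X ℓ Z e.range c hc hcN hZN hZ
  have hA := hOUTA Ω G B C X K ℓ ι κ ρ hL e p φ hE (tp Z c) hQ hQN hco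
  set M : Subgroup (stb c) := e.range.subgroupOf (stb c) with hMdef
  rw [hsum M (fun y => Subgroup.mem_subgroupOf) _]
  obtain ⟨F, hF1, hF2⟩ := hMIX X (stb c) 𝔐 ℓ (stb c).subtype (cen 𝔐 (MonoidHom.id X) χ)
  have h1 : ∀ τ ∈ Ch ℓ (⊥ : Subgroup M), (-1 : ℚ) ^ τ.card *
      WW 𝔐 ℓ d (cen 𝔐 (MonoidHom.id X) χ) ((stb (mapCh M.subtype τ)).map (stb c).subtype) =
      ∑ ω' ∈ F, (-1 : ℚ) ^ τ.card * WW 𝔐 ℓ d ω' (stb (mapCh M.subtype τ)) := by
    intro τ _
    rw [WW_map 𝔐 ℓ d _ (stb c).subtype (Subgroup.subtype_injective _), hF1, Finset.mul_sum,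
      Finset.mul_sum]
    rfl
  rw [Finset.sum_congr rfl h1, Finset.sum_comm]
  refine Finset.sum_eq_zero fun ω' hω' => ?_
  by_contra hne
  obtain ⟨τ, hτ, h2⟩ := Finset.exists_ne_zero_of_sum_ne_zero hne
  have h3 : cnt 𝔐 ℓ d (stb (mapCh M.subtype τ)).subtype ω' ≠ 0 := by
    intro h
    rw [WW, h] at h2
    simp at h2
  obtain ⟨ψ, hψ, hcen⟩ := exists_of_cnt h3
  obtain ⟨χ1, hχ1, hcen1⟩ := exists_irr_of_mult 𝔐 hψ (exists_irr_of_chain 𝔐 hℓ
    (isCh_sub (Subgroup.subtype_injective _) (mem_Ch.mp hτ)) hψ)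
  have hω : cen 𝔐 (MonoidHom.id (stb c)) χ1 = ω' := by rw [hcen1, hcen]
  have h4 : cen 𝔐 (stb c).subtype χ1 = cen 𝔐 (MonoidHom.id X) χ := by
    have h5 := hF2 ω' hω' ⊤ (fun y => χ1 (Subgroup.topEquiv y)) (hχ1.comp_mulEquiv _) (by
      rw [← hω]
      exact cen_comp_equiv 𝔐 Subgroup.topEquiv (MonoidHom.id (stb c)) χ1)
    rw [← h5]
    exact (cen_comp_equiv 𝔐 Subgroup.topEquiv (stb c).subtype χ1).symm
  obtain ⟨w0, m, θ, d', hm, hθ, hdθ, hd', hip⟩ := hOUTC Ω G B C X K 𝔐 ℓ h𝔐 hℓ ι κ ρ hL e p φ hE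
    (tp Z c) hQ hQN hA (stb c) hst hcNs χ ξ w e' hχ hξ hover he he0 χ1 hχ1 h4
  obtain ⟨hDER1, B1, C1, _, _, _, π, ι1, κ1, ρ1, hL1, hπs, hπk, hπι, hπκ, hDH⟩ :=
    hDER G B C ℓ ι κ ρ hL (Pw φ (tp Z c) w0) (hA w0).1 (hA w0).2
  obtain ⟨O1, K1, _, _, _, _, e1, p1, φ1, M2, o0, hE1, hM2n, hM2e, hM2m, hM2c, hsing⟩ :=
    hOUTD Ω G B C X K ℓ ι κ ρ hL e p φ hE (tp Z c) hQ hQN w0 (hA w0).1 (hA w0).2 (stb c) hst hcNs
      hDER1 B1 π ι1 κ1 hπs hπk hπι hπκ
  have hm1 : ∀ g, m g = e1 (Pi.mulSingle o0 g) := fun g =>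
    Subtype.ext (single_unique (hm g) (hsing g))
  apply hne
  have hM : M = e1.range ⊔ M2 := by
    ext y
    rw [hMdef, Subgroup.mem_subgroupOf]
    exact hM2m y
  have hn1 : e1.range.Normal := by
    constructor
    rintro _ ⟨n, rfl⟩ y
    rw [← hE1.cl.act]
    exact ⟨_, rfl⟩
  rw [hJOIN (stb c) (O1 → ↥(FX κ (Pw φ (tp Z c) w0))) ℓ e1 M2 M hE1.cl.inj hn1 hM2n hM2e hM
    (WW 𝔐 ℓ d ω')]
  refine Finset.sum_eq_zero fun τ2 _ => ?_
  rw [← hω, layer hRIN hCONST hPART hDHR hVVC ↥(FX κ (Pw φ (tp Z c) w0)) B1 C1 O1 (stb c) K1 𝔐 ℓ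
    h𝔐 hℓ ι1 κ1 ρ1 hL1 (hDH hD) e1 p1 φ1 hE1 M2 hM2c χ1 hχ1 o0 θ hθ d' hdθ hd' ?_ d τ2, mul_zero]
  have h6 : (fun g => χ1 (e1 (Pi.mulSingle o0 g))) = resj m χ1 := by
    funext g
    rw [resj, hm1]
  rw [h6]
  exact hip

/-- The vanishing of the sums of Dade. -/
theorem finalC (hSPLIT : Pool.Agent.DP.Stmt_SPLIT) (hZRR : Pool.Agent.DP.Stmt_ZRR)
    (hINY : Stmt_INY) (hCORE : Pool.Agent.DP.Stmt_CORE) (hOUTA : Stmt_OUTA)
    (hMIX : Stmt_MIX) (hOUTC : Stmt_OUTC) (hDER : Stmt_DER) (hOUTD : Stmt_OUTD)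
    (hJOIN : Stmt_JOIN) (hRIN : Stmt_RIN) (hCONST : Stmt_CONST) (hPART : Stmt_PART)
    (hDHR : Stmt_DHR) (hVVC : Stmt_VVC)
    (Ω G B C X K : Type) [Fintype Ω] [DecidableEq Ω] [Group G] [Fintype G] [Group B]
    [Fintype B] [Group C] [Group X] [Fintype X] [Group K] (𝔐 : Ideal (integralClosure ℤ ℂ))
    (ℓ : ℕ) [Fact ℓ.Prime] (h𝔐 : 𝔐.IsMaximal) (hℓ : (ℓ : integralClosure ℤ ℂ) ∈ 𝔐)
    (ι : G →* B) (κ : B →* MulAut G) (ρ : B →* C) (hL : LocW ℓ ι κ ρ) (hD : DH ℓ ι)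
    (hcore : pCore ℓ G = ⊥)
    (e : (Ω → G) →* X) (p : X →* K) (φ : X →* Gam (Equiv.Perm Ω) Ω B) (hE : ExtS ι κ e p φ)
    (χ : X → ℂ) (ξ : Ω → G → ℂ) (w : Ω) (e' : ℕ) (hχ : IsIrr χ) (hξ : ∀ a, IsIrr (ξ a))
    (hover : ip (resj e χ) (fun n => ∏ a, ξ a (n a)) ≠ 0)
    (he : HasDefect ℓ (ξ w) e') (he0 : 0 < e') (d : ℕ) : dadeSum 𝔐 ℓ χ d = 0 := by
  classical
  obtain ⟨hZn, hZ, heN, hZN⟩ := hZRR Ω G B X K ℓ ι κ hcore e p φ hE
  have h1 := dadeSum_eq 𝔐 ℓ d hχ
  have h2 : KK 𝔐 ℓ d (pCore ℓ X) (cen 𝔐 (MonoidHom.id X) χ) = 0 := by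
    rw [KK]
    have h3 := hSPLIT X ℓ (pCore ℓ X) e.range hZ hZN
      (WW 𝔐 ℓ d (cen 𝔐 (MonoidHom.id X) χ))
    refine Eq.trans h3 ?_
    refine Finset.sum_eq_zero fun c hc => ?_
    have hc' : IsCh ℓ (pCore ℓ X) c ∧ ∀ D ∈ c, D ⊓ e.range = ⊥ := by
      rw [OutC, Finset.mem_filter, mem_Ch] at hc
      exact hc
    rw [inner_zeroC hINY hCORE hOUTA hMIX hOUTC hDER hOUTD hJOIN hRIN hCONST hPART hDHR hVVC
      Ω G B C X K 𝔐 ℓ h𝔐 hℓ ι κ ρ hL hD e p φ hE χ ξ w e' hχ hξ hover he he0 (pCore ℓ X) hZn heN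
      hZ hZN d c hc'.1 hc'.2, mul_zero]
  rw [h2] at h1
  have h3 : (Nat.card X : ℚ) ≠ 0 := by exact_mod_cast Nat.card_pos.ne'
  have h4 := (mul_eq_zero.mp h1).resolve_left h3
  exact_mod_cast h4

theorem mainC (hRXC : Stmt_RXC) (hSPLIT : Pool.Agent.DP.Stmt_SPLIT)
    (hZRR : Pool.Agent.DP.Stmt_ZRR)
    (hINY : Stmt_INY) (hCORE : Pool.Agent.DP.Stmt_CORE) (hOUTA : Stmt_OUTA)
    (hMIX : Stmt_MIX) (hOUTC : Stmt_OUTC) (hDER : Stmt_DER) (hOUTD : Stmt_OUTD)
    (hJOIN : Stmt_JOIN) (hRIN : Stmt_RIN) (hCONST : Stmt_CONST) (hPART : Stmt_PART)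
    (hDHR : Stmt_DHR) (hVVC : Stmt_VVC)
    (ℓ : ℕ) (hℓ : ℓ.Prime) (G : Type) [Group G] [Finite G] (hcen : Subgroup.center G = ⊥)
    (hcore : pCore ℓ G = ⊥) (a : MulAut G) (A : Subgroup (MulAut G))
    (hA : A = (MulAut.conj : G →* MulAut G).range ⊔ Subgroup.zpowers a)
    (hD : ∀ T : Subgroup (MulAut G), (MulAut.conj : G →* MulAut G).range ≤ T → T ≤ A →
        ∀ E : Subgroup (MulAut G), E ≤ T → IsPGroup ℓ E →
        E ⊓ (MulAut.conj : G →* MulAut G).range = ⊥ →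
        ∀ (H : Type) [Group H] [Finite H]
          (q : ↥(T ⊓ Subgroup.centralizer (E : Set (MulAut G))) →* H),
          Function.Surjective q → (∀ x, q x = 1 ↔ (x : MulAut G) ∈ E) → pCore ℓ H = ⊥ →
          DadeHolds ℓ H)
    (X Ω : Type) [Group X] [Finite X] [Fintype Ω] (e : (Ω → G) →* X)
    (he : Function.Injective e)
    (hact : ∀ y : X, ∃ (s : Equiv.Perm Ω) (α : Ω → MulAut G), (∀ i, α i ∈ A) ∧
      ∀ x : Ω → G, y * e x * y⁻¹ = e (fun i => α i (x (s i))))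
    (𝔐 : Ideal (integralClosure ℤ ℂ)) (h𝔐 : 𝔐.IsMaximal)
    (hℓ𝔐 : (ℓ : integralClosure ℤ ℂ) ∈ 𝔐) (ξ : Ω → G → ℂ) (hξ : ∀ a, IsIrrChar (ξ a)) (w : Ω)
    (hw : ¬ Dade.HasDefect ℓ (ξ w) 0) (χ : X → ℂ) (hχ : IsIrrChar χ)
    (hover : ∑ᶠ x : Ω → G, χ (e x) * ∏ i, ξ i (x i)⁻¹ ≠ 0) (d : ℕ) : dadeSum 𝔐 ℓ χ d = 0 := by
  classical
  have hf : Fact ℓ.Prime := ⟨hℓ⟩
  have hG' : Fintype G := Fintype.ofFinite G
  have hX' : Fintype X := Fintype.ofFinite X
  have hnt : Nontrivial G := by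
    by_contra hcon
    rw [not_nontrivial_iff_subsingleton] at hcon
    obtain ⟨n, hn, hn'⟩ := IsIrr.exists_degree (χ := ξ w) (hξ w)
    apply hw
    refine ⟨n, hn', ?_⟩
    have h1 : Nat.card G = 1 := Nat.card_of_subsingleton 1
    have h2 : n ∣ Nat.card G := IsIrr.degree_dvd (χ := ξ w) (hξ w) hn'
    rw [h1] at h2 ⊢
    rw [Nat.dvd_one.mp h2, zero_add]
  obtain ⟨e', he'⟩ := IsIrr.exists_defect (ℓ := ℓ) (χ := ξ w) (hξ w)
  have he0 : 0 < e' := by
    rcases Nat.eq_zero_or_pos e' with rfl | h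
    · exact absurd he' hw
    · exact h
  obtain ⟨B, C, K, _, _, _, _, _, ι, κ, ρ, p, φ, hL, hDB, hE⟩ :=
    hRXC G X Ω ℓ hcen hnt a A hA hD e he hact
  refine finalC hSPLIT hZRR hINY hCORE hOUTA hMIX hOUTC hDER hOUTD hJOIN hRIN hCONST hPART hDHR
    hVVC Ω G B C X K 𝔐 ℓ h𝔐 hℓ𝔐 ι κ ρ hL hDB hcore e p φ hE χ ξ w e' hχ hξ ?_ he' he0 d
  rw [finsum_eq_sum_of_fintype] at hover
  rw [ip]
  refine div_ne_zero ?_ natCard_ne_zero
  exact hover

end FinalC

end Pool.Agent.DPC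


end

section

/-!
# SCT: sections of the classes
-/

set_option linter.unusedSectionVars false

namespace Pool.Agent.DPW.SCT

open Pool.Agent.DP Pool.Agent.DPV Pool.Agent.Lib_helper13 Representation
open Pool.Agent.Lib_helper13.Dade (pCore DadeHolds dadeSum)

section Rep

variable {M : Type} [Group M] [Fintype M]

/-- A scalar which is an integral combination of the operators of a representation is integral. -/
theorem int_scalar {n : ℕ} (R : Representation ℂ M (Fin n → ℂ)) (hn : n ≠ 0) {ι : Type}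
    [Fintype ι] (F : ι → ℂ) (hF : ∀ i, IsIntegral ℤ (F i)) (x : ι → M) (c : ℂ)
    (h : ∀ w, ∑ i, F i • R (x i) w = c • w) : IsIntegral ℤ c := by
  let i0 : Fin n := ⟨0, Nat.pos_of_ne_zero hn⟩
  refine INTH.isIntegral_of_mem (S := M) (fun y => R y⁻¹ (Pi.single i0 1) i0) ⟨1, by simp⟩ c ?_
  intro y
  have h1 : c * R y⁻¹ (Pi.single i0 1) i0 =
      ∑ i, F i * R ((x i)⁻¹ * y)⁻¹ (Pi.single i0 1) i0 := by
    have h3 := congrArg (fun u : Fin n → ℂ => R y⁻¹ u i0) (h (Pi.single i0 1))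
    simp only [map_smul, map_sum, Pi.smul_apply, smul_eq_mul, Finset.sum_apply] at h3
    rw [← h3]
    refine Finset.sum_congr rfl fun s _ => ?_
    rw [mul_inv_rev, inv_inv, map_mul]
    rfl
  rw [h1]
  refine Submodule.sum_mem _ fun s _ => ?_
  exact Submodule.smul_mem _ (⟨F s, hF s⟩ : integralClosure ℤ ℂ)
    (Submodule.subset_span ⟨(x s)⁻¹ * y, rfl⟩)

theorem rep_of {C : Subgroup M} {χ : M → ℂ} (h1 : IsIrr χ) (h2 : IsIrr (fun c : C => χ c)) :
    ∃ (n : ℕ) (R : Representation ℂ M (Fin n → ℂ)), n ≠ 0 ∧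
      Representation.IsIrreducible (k := ℂ) (G := C) (R.comp C.subtype) ∧ R.character = χ := by
  classical
  obtain ⟨n, R, hR, hRχ⟩ := h1
  obtain ⟨n', R', hR', hRχ'⟩ := h2
  have : Fintype C := Fintype.ofFinite _
  refine ⟨n, R, ?_, ?_, hRχ⟩
  · rintro rfl
    have h3 : R.character 1 ≠ 0 := IsIrr.one_ne_zero ⟨0, R, hR, rfl⟩
    apply h3
    rw [char_one]
    simp
  · apply irreducible_of_sum
    have h4 : Representation.character (R.comp C.subtype : Representation ℂ C (Fin n → ℂ)) =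
        R'.character := by
      rw [hRχ']
      funext h
      have h1 : Representation.character (R.comp C.subtype : Representation ℂ C (Fin n → ℂ)) h =
        R.character h := rfl
      rw [h1, hRχ]
    rw [h4]
    exact sum_char_self R'

theorem scal {n : ℕ} (R : Representation ℂ M (Fin n → ℂ)) {C : Subgroup M}
    (hC : Representation.IsIrreducible (k := ℂ) (G := C) (R.comp C.subtype))
    (hn : n ≠ 0) (F : M → ℂ) (hF : ∀ c ∈ C, ∀ x, F (c * x * c⁻¹) = F x) (w : Fin n → ℂ) :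
    ∑ x, F x • R x w = ((∑ x, F x * R.character x) / R.character 1) • w := by
  classical
  let T : (Fin n → ℂ) →ₗ[ℂ] (Fin n → ℂ) := ∑ s : M, F s • (R s : (Fin n → ℂ) →ₗ[ℂ] (Fin n → ℂ))
  have hT : ∀ x, T x = ∑ s : M, F s • R s x := by
    intro x
    simp [T, LinearMap.sum_apply]
  obtain ⟨c, hc⟩ := exists_scalar (R.comp C.subtype) hC T (by
    intro g x
    change T (R (g : M) x) = R (g : M) (T x)
    rw [hT, hT, map_sum]
    have h1 : ∀ s : M, R (g : M) (F s • R s x) = F s • R (g * s) x := by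
      intro s
      rw [map_smul, map_mul]
      rfl
    have h2 : ∀ s : M, F s • R s (R (g : M) x) = F s • R (s * g) x := by
      intro s
      rw [map_mul]
      rfl
    simp only [h1, h2]
    rw [← Equiv.sum_comp (MulAut.conj (g : M)).toEquiv]
    refine Finset.sum_congr rfl fun s _ => ?_
    have h3 : ((MulAut.conj (g : M)).toEquiv s : M) = g * s * (g : M)⁻¹ := rfl
    rw [h3, hF g g.2 s, inv_mul_cancel_right])
  have hn1 : (R.character 1 : ℂ) ≠ 0 := by
    rw [char_one]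
    simpa using hn
  have h2 := congrArg (LinearMap.trace ℂ (Fin n → ℂ)) hc
  simp only [T] at h2
  rw [map_sum] at h2
  have h3 : ∀ s : M, LinearMap.trace ℂ (Fin n → ℂ) (F s • R s) = F s * R.character s := by
    intro s
    rw [map_smul, smul_eq_mul]
    rfl
  simp only [h3] at h2
  have h4 : (∑ x, F x * R.character x) / R.character 1 = c := by
    rw [div_eq_iff hn1, h2, map_smul, char_one]
    simp
  rw [h4, ← hT, hc]
  rfl

theorem sum_cosets {H V : Type} [Group H] [Fintype H] [AddCommMonoid V] (P : Subgroup H)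
    [Fintype (H ⧸ P)] (g : H → V)
    (hg : ∀ u ∈ P, ∀ x, g (x * u) = g x) :
    ∑ x, g x = Nat.card P • ∑ q : H ⧸ P, g q.out := by
  classical
  have : Fintype P := Fintype.ofFinite _
  have h1 : ∑ p : (H ⧸ P) × P, g (p.1.out * (p.2 : H)) = ∑ x, g x := by
    refine Fintype.sum_bijective (fun p : (H ⧸ P) × P => p.1.out * (p.2 : H)) ⟨?_, ?_⟩ _ _
      (fun _ => rfl)
    · rintro ⟨q, u⟩ ⟨q', u'⟩ h
      change q.out * (u : H) = q'.out * (u' : H) at h
      have h2 : q = q' := by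
        have h3 : ∀ (q : H ⧸ P) (u : P), (QuotientGroup.mk (q.out * (u : H)) : H ⧸ P) = q := by
          intro q u
          rw [QuotientGroup.mk_mul_of_mem _ u.2]
          exact q.out_eq'
        rw [← h3 q u, h, h3 q' u']
      subst h2
      rw [Prod.mk.injEq]
      exact ⟨rfl, Subtype.ext (mul_left_cancel h)⟩
    · intro x
      have h4 : (QuotientGroup.mk (QuotientGroup.mk x : H ⧸ P).out : H ⧸ P) =
        QuotientGroup.mk x := Quotient.out_eq' _
      exact ⟨⟨QuotientGroup.mk x, ⟨(QuotientGroup.mk x : H ⧸ P).out⁻¹ * x,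
        QuotientGroup.eq.mp h4⟩⟩, mul_inv_cancel_left _ _⟩
  rw [← h1, Fintype.sum_prod_type, Finset.smul_sum]
  refine Finset.sum_congr rfl fun q _ => ?_
  rw [Finset.sum_congr rfl (fun (u : P) _ => hg u u.2 q.out), Finset.sum_const, Finset.card_univ,
    Nat.card_eq_fintype_card]

variable {C P : Subgroup M} {χ : M → ℂ}

theorem int_wt (h1 : IsIrr χ) (h2 : IsIrr (fun c : C => χ c)) (F : M → ℂ)
    (hF : ∀ c ∈ C, ∀ x, F (c * x * c⁻¹) = F x) (hI : ∀ x, IsIntegral ℤ (F x)) :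
    IsIntegral ℤ ((∑ x, F x * χ x) / χ 1) := by
  obtain ⟨n, R, hn, hR, rfl⟩ := rep_of h1 h2
  exact int_scalar R hn F hI id _ (scal R hR hn F hF)

theorem central (h1 : IsIrr χ) (h2 : IsIrr (fun c : C => χ c))
    (hP : ∀ u ∈ P, ∀ x, u * x = x * u) : ∀ u ∈ P, ∀ x, χ (u * x) = χ u / χ 1 * χ x := by
  intro u hu x
  obtain ⟨n, R, hn, hR, rfl⟩ := rep_of h1 h2
  obtain ⟨c, hc⟩ := exists_scalar (R.comp C.subtype) hR (R u) (by
    intro g w
    change R u (R (g : M) w) = R (g : M) (R u w)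
    rw [← Module.End.mul_apply, ← map_mul, hP u hu, map_mul]
    rfl)
  have hn1 : (R.character 1 : ℂ) ≠ 0 := by
    rw [char_one]
    simpa using hn
  have h3 : R.character u = c * R.character 1 := by
    change LinearMap.trace ℂ _ (R u) = _
    rw [hc, map_smul, char_one]
    simp
  have h4 : R.character (u * x) = c * R.character x := by
    change LinearMap.trace ℂ _ (R (u * x)) = _
    rw [map_mul, hc]
    change LinearMap.trace ℂ _ ((c • (1 : Module.End ℂ (Fin n → ℂ))) * R x) = _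
    rw [smul_mul_assoc, one_mul, map_smul]
    rfl
  rw [h4, h3, mul_div_assoc, div_self hn1, mul_one]

theorem int_div (h1 : IsIrr χ) (h2 : IsIrr (fun c : C => χ c))
    (hP : ∀ u ∈ P, ∀ x, u * x = x * u) (hu : ∀ u ∈ P, χ u = χ 1) (F : M → ℂ)
    (hF : ∀ c ∈ C, ∀ x, F (c * x * c⁻¹) = F x) (hFP : ∀ u ∈ P, ∀ x, F (x * u) = F x)
    (hI : ∀ x, IsIntegral ℤ (F x)) :
    IsIntegral ℤ ((∑ x, F x * χ x) / (Nat.card P * χ 1)) := by
  classical
  obtain ⟨n, R, hn, hR, rfl⟩ := rep_of h1 h2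
  have : Fintype (M ⧸ P) := Fintype.ofFinite _
  have hn1 : (R.character 1 : ℂ) ≠ 0 := by
    rw [char_one]
    simpa using hn
  have hc0 : (Nat.card P : ℂ) ≠ 0 := natCard_ne_zero
  have hRu : ∀ u ∈ P, ∀ w, R u w = w := by
    intro u hu' w
    obtain ⟨c, hc⟩ := exists_scalar (R.comp C.subtype) hR (R u) (by
      intro g w
      change R u (R (g : M) w) = R (g : M) (R u w)
      rw [← Module.End.mul_apply, ← map_mul, hP u hu', map_mul]
      rfl)
    have h3 : R.character u = c * R.character 1 := by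
      change LinearMap.trace ℂ _ (R u) = _
      rw [hc, map_smul, char_one]
      simp
    rw [hu u hu'] at h3
    have h4 : c = 1 := by
      have h5 : c * R.character 1 = 1 * R.character 1 := by rw [← h3, one_mul]
      exact mul_right_cancel₀ hn1 h5
    rw [hc, h4, one_smul]
    rfl
  refine int_scalar R hn (fun q : M ⧸ P => F q.out) (fun q => hI _) (fun q => q.out) _ ?_
  intro w
  have h3 := scal R hR hn F hF w
  rw [sum_cosets P (fun x => F x • R x w) (by
    intro u hu' x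
    rw [hFP u hu' x, map_mul, Module.End.mul_apply, hRu u hu'])] at h3
  have h4 : (Nat.card P : ℂ) • ∑ q : M ⧸ P, F q.out • R q.out w =
      ((∑ x, F x * R.character x) / R.character 1) • w := by
    rw [← h3, Nat.cast_smul_eq_nsmul]
  have h5 := congrArg (fun v : Fin n → ℂ => (Nat.card P : ℂ)⁻¹ • v) h4
  simp only [smul_smul] at h5
  rw [inv_mul_cancel₀ hc0, one_smul] at h5
  rw [h5]
  congr 1
  field_simp

end Rep

section Comb

variable {M : Type} [Group M] [Fintype M] {C P : Subgroup M}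

/-- The `C`-class of `x` is stable under multiplication by `P`. -/
def Fx (C P : Subgroup M) (x : M) : Prop := ∀ u ∈ P, ∃ c ∈ C, u * x = c * x * c⁻¹

theorem fx_conj (hP : ∀ u ∈ P, ∀ x : M, u * x = x * u) {x d : M} (hd : d ∈ C)
    (h : Fx C P x) : Fx C P (d * x * d⁻¹) := by
  intro u hu
  obtain ⟨c, hc, e⟩ := h u hu
  refine ⟨d * c * d⁻¹, C.mul_mem (C.mul_mem hd hc) (C.inv_mem hd), ?_⟩
  have h1 : u * (d * x * d⁻¹) = d * (u * x) * d⁻¹ := by
    rw [← mul_assoc, ← mul_assoc, hP u hu d, mul_assoc d u x]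
  rw [h1, e]
  group

theorem fx_conj_iff (hP : ∀ u ∈ P, ∀ x : M, u * x = x * u) {x d : M} (hd : d ∈ C) :
    Fx C P (d * x * d⁻¹) ↔ Fx C P x := by
  refine ⟨fun h => ?_, fx_conj hP hd⟩
  have h1 := fx_conj hP (C.inv_mem hd) h
  have h2 : d⁻¹ * (d * x * d⁻¹) * d⁻¹⁻¹ = x := by group
  rwa [h2] at h1

theorem fx_mul (hP : ∀ u ∈ P, ∀ x : M, u * x = x * u) {x v : M} (hv : v ∈ P)
    (h : Fx C P x) : Fx C P (v * x) := by
  intro u hu
  obtain ⟨c, hc, e⟩ := h u hu
  refine ⟨c, hc, ?_⟩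
  have h1 : u * (v * x) = v * (u * x) := by
    rw [← mul_assoc, hP u hu v, mul_assoc]
  have h2 : c * (v * x) * c⁻¹ = v * (c * x * c⁻¹) := by
    rw [← mul_assoc c v x, ← hP v hv c]
    group
  rw [h1, h2, e]

theorem fx_mul_iff (hP : ∀ u ∈ P, ∀ x : M, u * x = x * u) {x v : M} (hv : v ∈ P) :
    Fx C P (v * x) ↔ Fx C P x := by
  refine ⟨fun h => ?_, fx_mul hP hv⟩
  have h1 := fx_mul hP (P.inv_mem hv) h
  rwa [inv_mul_cancel_left] at h1

theorem fx_inv (hP : ∀ u ∈ P, ∀ x : M, u * x = x * u) {x : M} (h : Fx C P x) :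
    Fx C P x⁻¹ := by
  intro u hu
  obtain ⟨c, hc, e⟩ := h u⁻¹ (P.inv_mem hu)
  refine ⟨c, hc, ?_⟩
  rw [hP u hu]
  have h1 : x⁻¹ * u = (u⁻¹ * x)⁻¹ := by group
  rw [h1, e]
  group

/-- The section of the orbits. -/
theorem exists_sec (hP : ∀ u ∈ P, ∀ x : M, u * x = x * u) (hp : (Nat.card P).Prime) :
    ∃ T : M → Prop, (∀ c ∈ C, ∀ x, T (c * x * c⁻¹) ↔ T x) ∧
      ∀ x, ¬ Fx C P x → ∃! u : P, T ((u : M) * x) := by
  classical
  let s : Setoid M :=
    { r := fun x y => ∃ u ∈ P, ∃ c ∈ C, y = u * (c * x * c⁻¹)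
      iseqv :=
        { refl := fun x => ⟨1, P.one_mem, 1, C.one_mem, by simp⟩
          symm := by
            rintro x y ⟨u, hu, c, hc, rfl⟩
            refine ⟨u⁻¹, P.inv_mem hu, c⁻¹, C.inv_mem hc, ?_⟩
            have h1 : c⁻¹ * (u * (c * x * c⁻¹)) * c⁻¹⁻¹ = u * x := by
              rw [← mul_assoc c⁻¹ u, ← hP u hu c⁻¹]
              group
            rw [h1, inv_mul_cancel_left]
          trans := by
            rintro x y w ⟨u, hu, c, hc, rfl⟩ ⟨v, hv, d, hd, rfl⟩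
            refine ⟨v * u, P.mul_mem hv hu, d * c, C.mul_mem hd hc, ?_⟩
            have h1 : d * (u * (c * x * c⁻¹)) * d⁻¹ = u * (d * c * x * (d * c)⁻¹) := by
              rw [← mul_assoc d u, ← hP u hu d]
              group
            rw [h1, mul_assoc v u] } }
  let rep : M → M := fun x => (Quotient.mk s x).out
  have hrep : ∀ x, ∃ u ∈ P, ∃ c ∈ C, x = u * (c * rep x * c⁻¹) := fun x => Quotient.mk_out x
  have hrepe : ∀ x y : M, (∃ u ∈ P, ∃ c ∈ C, y = u * (c * x * c⁻¹)) → rep y = rep x := by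
    intro x y h
    have h1 : Quotient.mk s x = Quotient.mk s y := Quotient.sound h
    change (Quotient.mk s y).out = (Quotient.mk s x).out
    rw [h1]
  refine ⟨fun x => ∃ c ∈ C, x = c * rep x * c⁻¹, ?_, ?_⟩
  · have h1 : ∀ d ∈ C, ∀ x, (∃ c ∈ C, x = c * rep x * c⁻¹) →
        ∃ c ∈ C, d * x * d⁻¹ = c * rep (d * x * d⁻¹) * c⁻¹ := by
      rintro d hd x ⟨c, hc, e⟩
      refine ⟨d * c, C.mul_mem hd hc, ?_⟩
      rw [hrepe x (d * x * d⁻¹) ⟨1, P.one_mem, d, hd, by rw [one_mul]⟩]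
      conv_lhs => rw [e]
      group
    intro d hd x
    refine ⟨fun h => ?_, h1 d hd x⟩
    have h2 := h1 d⁻¹ (C.inv_mem hd) _ h
    have h3 : d⁻¹ * (d * x * d⁻¹) * d⁻¹⁻¹ = x := by group
    rwa [h3] at h2
  · intro x hx
    obtain ⟨u, hu, c, hc, e⟩ := hrep x
    have hru : ∀ v ∈ P, rep (v * x) = rep x := fun v hv =>
      hrepe x (v * x) ⟨v, hv, 1, C.one_mem, by simp⟩
    refine ⟨⟨u⁻¹, P.inv_mem hu⟩, ⟨c, hc, ?_⟩, ?_⟩
    · change u⁻¹ * x = c * rep (u⁻¹ * x) * c⁻¹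
      rw [hru _ (P.inv_mem hu)]
      conv_lhs => rw [e]
      rw [inv_mul_cancel_left]
    · rintro ⟨v, hv⟩ ⟨d, hd, e'⟩
      change v * x = d * rep (v * x) * d⁻¹ at e'
      rw [hru v hv] at e'
      by_contra hne
      apply hx
      -- `w = u v` multiplies `x` to a conjugate
      have h5 : (u * v) * x = (d * c⁻¹) * x * (d * c⁻¹)⁻¹ := by
        have h6 : rep x = c⁻¹ * (u⁻¹ * x) * c := by
          conv_rhs => rw [e]
          group
        have h7 : v * x = d * (c⁻¹ * (u⁻¹ * x) * c) * d⁻¹ := by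
          rw [← h6]
          exact e'
        have h8 : d * (c⁻¹ * (u⁻¹ * x) * c) * d⁻¹ = u⁻¹ * ((d * c⁻¹) * x * (d * c⁻¹)⁻¹) := by
          have h9 : d * c⁻¹ * u⁻¹ = u⁻¹ * (d * c⁻¹) := (hP _ (P.inv_mem hu) _).symm
          calc d * (c⁻¹ * (u⁻¹ * x) * c) * d⁻¹ = (d * c⁻¹ * u⁻¹) * x * (d * c⁻¹)⁻¹ := by group
            _ = _ := by rw [h9]; group
        rw [mul_assoc, h7, h8, mul_inv_cancel_left]
      have huv : (⟨u * v, P.mul_mem hu hv⟩ : P) ≠ 1 := by
        intro h0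
        apply hne
        have h9 : u * v = 1 := congrArg Subtype.val h0
        exact Subtype.ext (eq_inv_of_mul_eq_one_right h9)
      intro w hw
      have : Fact (Nat.card P).Prime := ⟨hp⟩
      obtain ⟨k, hk⟩ := mem_powers_of_prime_card rfl huv (g' := (⟨w, hw⟩ : P))
      have hk' : (u * v) ^ k = w := congrArg Subtype.val hk
      refine ⟨(d * c⁻¹) ^ k, C.pow_mem (C.mul_mem hd (C.inv_mem hc)) k, ?_⟩
      rw [← hk']
      clear hk' hk
      induction k with
      | zero => simp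
      | succ k ih =>
        rw [pow_succ (u * v), mul_assoc, h5]
        have h10 : (u * v) ^ k * (d * c⁻¹ * x * (d * c⁻¹)⁻¹) =
            (d * c⁻¹) * ((u * v) ^ k * x) * (d * c⁻¹)⁻¹ := by
          have h11 : (u * v) ^ k * (d * c⁻¹) = (d * c⁻¹) * (u * v) ^ k :=
            hP _ (P.pow_mem (P.mul_mem hu hv) k) _
          calc (u * v) ^ k * (d * c⁻¹ * x * (d * c⁻¹)⁻¹) =
              ((u * v) ^ k * (d * c⁻¹)) * x * (d * c⁻¹)⁻¹ := by group
            _ = _ := by rw [h11]; group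
        rw [h10, ih, pow_succ' (d * c⁻¹)]
        generalize d * c⁻¹ = e1
        group

theorem sum_sec (T D : M → Prop) [DecidablePred T] [DecidablePred D]
    (hT : ∀ x, D x → ∃! u : P, T ((u : M) * x))
    (hD : ∀ u ∈ P, ∀ x, D (u * x) ↔ D x) (g : M → ℂ) (hg : ∀ u ∈ P, ∀ x, g (u * x) = g x) :
    ∑ x, (if D x then g x else 0) =
      (Nat.card P : ℂ) * ∑ x, (if D x ∧ T x then g x else 0) := by
  classical
  have : Fintype P := Fintype.ofFinite _
  have h1 : ∀ x, (if D x then g x else 0) =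
      ∑ u : P, (if D x ∧ T ((u : M) * x) then g x else 0) := by
    intro x
    by_cases hx : D x
    · obtain ⟨u0, h2, h3⟩ := hT x hx
      rw [if_pos hx, Finset.sum_eq_single u0]
      · rw [if_pos ⟨hx, h2⟩]
      · intro u _ hu
        exact if_neg fun h => hu (h3 u h.2)
      · intro h
        exact absurd (Finset.mem_univ _) h
    · rw [if_neg hx]
      symm
      exact Finset.sum_eq_zero fun u _ => if_neg fun h => hx h.1
  rw [Finset.sum_congr rfl fun x _ => h1 x, Finset.sum_comm]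
  have h2 : ∀ u : P, ∑ x, (if D x ∧ T ((u : M) * x) then g x else 0) =
      ∑ x, (if D x ∧ T x then g x else 0) := by
    intro u
    refine Fintype.sum_equiv (Equiv.mulLeft (u : M)) _ _ fun x => ?_
    change _ = (if D ((u : M) * x) ∧ T ((u : M) * x) then g ((u : M) * x) else 0)
    rw [hg u u.2 x]
    exact if_congr (and_congr (hD u u.2 x).symm Iff.rfl) rfl rfl
  rw [Finset.sum_congr rfl fun u _ => h2 u, Finset.sum_const, Finset.card_univ, nsmul_eq_mul,
    ← Nat.card_eq_fintype_card]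

theorem int_fix {χ : M → ℂ} (h1 : IsIrr χ) (h2 : IsIrr (fun c : C => χ c))
    (hP : ∀ u ∈ P, ∀ x : M, u * x = x * u) (hPC : P ≤ C) (hu : ∀ u ∈ P, χ u = χ 1) {m : ℂ}
    (hm : (Nat.card C : ℂ) = Nat.card P * m * χ 1) {y : M} (hy : Fx C P y) :
    IsIntegral ℤ (m * χ y / Nat.card P) := by
  classical
  have : Fintype C := Fintype.ofFinite _
  have : Fintype (C ⧸ P.subgroupOf C) := Fintype.ofFinite _
  have hc0 : (Nat.card P : ℂ) ≠ 0 := natCard_ne_zero
  have h10 : χ 1 ≠ 0 := h1.one_ne_zero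
  have hcard : Nat.card (P.subgroupOf C) = Nat.card P :=
    Nat.card_congr (Subgroup.subgroupOfEquivOfLe hPC).toEquiv
  let N : M → ℕ := fun x => ∑ c : C, if (c : M) * y * (c : M)⁻¹ = x then 1 else 0
  let N1 : M → ℕ := fun x => ∑ q : C ⧸ P.subgroupOf C,
    if ((q.out : C) : M) * y * ((q.out : C) : M)⁻¹ = x then 1 else 0
  have hN : ∀ x, N x = Nat.card P * N1 x := by
    intro x
    have h3 := sum_cosets (P.subgroupOf C)
      (fun c : C => if (c : M) * y * (c : M)⁻¹ = x then (1 : ℕ) else 0) (by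
        intro u hu' c
        have hu2 : (u : M) ∈ P := hu'
        have h4 : ((c * u : C) : M) * y * ((c * u : C) : M)⁻¹ = (c : M) * y * (c : M)⁻¹ := by
          rw [Subgroup.coe_mul]
          have h5 := hP _ hu2 y
          calc (c : M) * (u : M) * y * ((c : M) * (u : M))⁻¹ =
              (c : M) * ((u : M) * y) * (u : M)⁻¹ * (c : M)⁻¹ := by group
            _ = _ := by rw [h5]; group
        simp only [h4])
    rw [hcard, smul_eq_mul] at h3
    exact h3
  have hpos : 0 < Nat.card P := Nat.card_pos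
  have hinv : ∀ d ∈ C, ∀ x, N1 (d * x * d⁻¹) = N1 x := by
    intro d hd x
    apply Nat.eq_of_mul_eq_mul_left hpos
    rw [← hN, ← hN]
    refine Fintype.sum_equiv (Equiv.mulLeft (⟨d⁻¹, C.inv_mem hd⟩ : C)) _ _ fun c => ?_
    change (if (c : M) * y * (c : M)⁻¹ = d * x * d⁻¹ then 1 else 0) =
      (if (d⁻¹ * (c : M)) * y * (d⁻¹ * (c : M))⁻¹ = x then 1 else 0)
    refine if_congr ⟨fun h => ?_, fun h => ?_⟩ rfl rfl
    · have h5 : d⁻¹ * (c : M) * y * (d⁻¹ * (c : M))⁻¹ = d⁻¹ * ((c : M) * y * (c : M)⁻¹) * d := by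
        group
      rw [h5, h]
      group
    · rw [← h]
      group
  have hinvP : ∀ u ∈ P, ∀ x, N1 (x * u) = N1 x := by
    intro u hu' x
    obtain ⟨d, hd, e⟩ := hy u⁻¹ (P.inv_mem hu')
    apply Nat.eq_of_mul_eq_mul_left hpos
    rw [← hN, ← hN]
    refine Fintype.sum_equiv (Equiv.mulRight (⟨d, hd⟩ : C)) _ _ fun c => ?_
    change (if (c : M) * y * (c : M)⁻¹ = x * u then 1 else 0) =
      (if ((c : M) * d) * y * ((c : M) * d)⁻¹ = x then 1 else 0)
    have h5 : ((c : M) * d) * y * ((c : M) * d)⁻¹ = (c : M) * y * (c : M)⁻¹ * u⁻¹ := by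
      calc ((c : M) * d) * y * ((c : M) * d)⁻¹ = (c : M) * (d * y * d⁻¹) * (c : M)⁻¹ := by group
        _ = (c : M) * (u⁻¹ * y) * (c : M)⁻¹ := by rw [e]
        _ = ((c : M) * u⁻¹) * (y * (c : M)⁻¹) := by group
        _ = (u⁻¹ * (c : M)) * (y * (c : M)⁻¹) := by rw [hP u⁻¹ (P.inv_mem hu') (c : M)]
        _ = u⁻¹ * ((c : M) * y * (c : M)⁻¹) := by group
        _ = _ := hP u⁻¹ (P.inv_mem hu') _
    rw [h5]
    exact if_congr ⟨fun h => by rw [h, mul_inv_cancel_right], fun h => by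
      rw [← h, inv_mul_cancel_right]⟩ rfl rfl
  have h3 := int_div h1 h2 hP hu (fun x => (N1 x : ℂ))
    (fun c hc x => by rw [hinv c hc x]) (fun u hu' x => by rw [hinvP u hu' x])
    (fun x => Lib_helper13.isIntegral_natCast _)
  have h4 : (Nat.card P : ℂ) * ∑ x, (N1 x : ℂ) * χ x = Nat.card C * χ y := by
    rw [Finset.mul_sum]
    have h5 : ∀ x, (Nat.card P : ℂ) * ((N1 x : ℂ) * χ x) =
        ∑ c : C, if (c : M) * y * (c : M)⁻¹ = x then χ x else 0 := by
      intro x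
      have h6 : (Nat.card P : ℂ) * (N1 x : ℂ) = (N x : ℂ) := by
        rw [hN]
        push_cast
        ring
      rw [← mul_assoc, h6]
      simp only [N]
      push_cast
      rw [Finset.sum_mul]
      exact Finset.sum_congr rfl fun c _ => by split_ifs <;> simp
    rw [Finset.sum_congr rfl fun x _ => h5 x, Finset.sum_comm]
    have h7 : ∀ c : C, (∑ x, if (c : M) * y * (c : M)⁻¹ = x then χ x else 0) = χ y := by
      intro c
      rw [Finset.sum_ite_eq, if_pos (Finset.mem_univ _), h1.conj_eq]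
    rw [Finset.sum_congr rfl fun c _ => h7 c, Finset.sum_const, Finset.card_univ, nsmul_eq_mul,
      Nat.card_eq_fintype_card]
  have h8 : (∑ x, (N1 x : ℂ) * χ x) / (Nat.card P * χ 1) = m * χ y / Nat.card P := by
    rw [hm] at h4
    have h9 : ∑ x, (N1 x : ℂ) * χ x = m * χ 1 * χ y := by
      apply mul_left_cancel₀ hc0
      rw [h4]
      ring
    rw [h9]
    field_simp
  rwa [h8] at h3

end Comb

section Main

variable {M : Type} [Group M] [Fintype M] {C P : Subgroup M}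

/-- The part of the fixed classes. -/
theorem fix_part [C.Normal] {E E' : M → ℂ} (h1 : IsIrr E) (h2 : IsIrr (fun c : C => E c))
    (h1' : IsIrr E') (h2' : IsIrr (fun c : C => E' c))
    (hP : ∀ u ∈ P, ∀ x : M, u * x = x * u) (hPC : P ≤ C) {m : ℂ}
    (hm : (Nat.card C : ℂ) = Nat.card P * m * E 1) (hEE : ∀ u ∈ P, E' u * E 1 = E u * E' 1)
    (z : M) (Q : M → Prop) [DecidablePred Q] (hQ : ∀ x, Q x ↔ x * z⁻¹ ∈ C ∧ Fx C P x) :
    ∃ s : ℂ, IsIntegral ℤ s ∧
      m * (∑ x, (if Q x then E' x * E x⁻¹ else 0)) / E' 1 = (Nat.card P : ℂ) ^ 2 * s := by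
  classical
  have hc0 : (Nat.card P : ℂ) ≠ 0 := natCard_ne_zero
  have h10 : E 1 ≠ 0 := h1.one_ne_zero
  have h10' : E' 1 ≠ 0 := h1'.one_ne_zero
  by_cases hu : ∀ u ∈ P, E u = E 1
  · have hu' : ∀ u ∈ P, E' u = E' 1 := by
      intro u hu'
      have h3 := hEE u hu'
      rw [hu u hu', mul_comm (E 1)] at h3
      exact mul_right_cancel₀ h10 h3
    refine ⟨_, int_div h1' h2' hP hu' (fun x => if Q x then m * E x⁻¹ / Nat.card P else 0)
      ?_ ?_ ?_, ?_⟩
    · intro c hc x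
      have h3 : Q (c * x * c⁻¹) ↔ Q x := by
        rw [hQ, hQ, fx_conj_iff hP hc]
        refine and_congr_left fun _ => ?_
        have h4 : c * x * c⁻¹ * z⁻¹ = c * (x * z⁻¹) * (z * c⁻¹ * z⁻¹) := by group
        rw [h4, Subgroup.mul_mem_cancel_right _
          ((inferInstance : C.Normal).conj_mem _ (C.inv_mem hc) z),
          Subgroup.mul_mem_cancel_left _ hc]
      have h5 : (c * x * c⁻¹)⁻¹ = c * x⁻¹ * c⁻¹ := by group
      rw [h5, h1.conj_eq]
      exact if_congr h3 rfl rfl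
    · intro u hu2 x
      have h3 : Q (x * u) ↔ Q x := by
        rw [hQ, hQ, ← hP u hu2, fx_mul_iff hP hu2]
        refine and_congr_left fun _ => ?_
        rw [mul_assoc, Subgroup.mul_mem_cancel_left _ (hPC hu2)]
      have h5 : E (x * u)⁻¹ = E x⁻¹ := by
        rw [mul_inv_rev, central h1 h2 hP u⁻¹ (P.inv_mem hu2), hu _ (P.inv_mem hu2),
          div_self h10, one_mul]
      rw [h5]
      exact if_congr h3 rfl rfl
    · intro x
      split_ifs with h3
      · exact int_fix h1 h2 hP hPC hu hm (fx_inv hP ((hQ x).mp h3).2)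
      · exact isIntegral_zero
    · have h3 : ∑ x, (if Q x then m * E x⁻¹ / Nat.card P else 0) * E' x =
          m / Nat.card P * ∑ x, (if Q x then E' x * E x⁻¹ else 0) := by
        rw [Finset.mul_sum]
        refine Finset.sum_congr rfl fun x _ => ?_
        split_ifs
        · ring
        · ring
      rw [h3]
      field_simp
  · push Not at hu
    obtain ⟨u, hu1, hu2⟩ := hu
    refine ⟨0, isIntegral_zero, ?_⟩
    have h3 : ∀ x, (if Q x then E' x * E x⁻¹ else 0) = 0 := by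
      intro x
      split_ifs with h4
      · have h5 : Fx C P x⁻¹ := fx_inv hP ((hQ x).mp h4).2
        obtain ⟨c, hc, e⟩ := h5 u hu1
        have h6 := central h1 h2 hP u hu1 x⁻¹
        rw [e, h1.conj_eq] at h6
        have h7 : (E u - E 1) * E x⁻¹ = 0 := by
          have h8 : E x⁻¹ * E 1 = E u * E x⁻¹ := by
            conv_lhs => rw [h6]
            field_simp
          linear_combination -h8
        rcases mul_eq_zero.mp h7 with h8 | h8
        · exact absurd (sub_eq_zero.mp h8) hu2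
        · rw [h8, mul_zero]
      · rfl
    rw [Finset.sum_eq_zero fun x _ => h3 x]
    simp

/-- The orthogonality relation on a coset. -/
theorem sum_self {E : M → ℂ} (h1 : IsIrr E) (h2 : IsIrr (fun c : C => E c)) [Fintype C] (z : M) :
    ∑ c : C, E ((c : M) * z) * E (((c : M) * z)⁻¹) = Nat.card C := by
  classical
  obtain ⟨n, ρ, hn, hN, rfl⟩ := rep_of h1 h2
  have hs : ∀ T, (∀ c ∈ C, CYA.RR ρ c T = T) → ∃ a : ℂ, T = a • LinearMap.id := by
    intro T hT
    refine exists_scalar (ρ.comp C.subtype) hN T fun g x => ?_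
    exact (CYA.mul_fix ρ (hT g g.2) x).symm
  have h3 : ∀ h : M, ∑ m : C, ρ.character (h * m) * ρ.character (h * m)⁻¹ =
      Nat.card C * Module.finrank ℂ (invariants ((CYA.RR ρ).comp C.subtype)) := by
    intro h
    rw [← CYA.sum_coset (CYA.RR ρ) C h (fun T hT => by
      obtain ⟨a, rfl⟩ := hs T hT
      rw [map_smul]
      congr 1
      refine LinearMap.ext fun x => ?_
      rw [CYA.RR_apply, LinearMap.comp_apply, LinearMap.comp_apply, LinearMap.id_apply,
        ← Module.End.mul_apply (ρ h) (ρ h⁻¹), ← map_mul, mul_inv_cancel, map_one]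
      rfl)]
    exact Finset.sum_congr rfl fun c _ => by rw [CYA.RR_char, mul_comm]
  have h4 : ∑ m : C, ρ.character (m : M) * ρ.character (m : M)⁻¹ = Nat.card C :=
    (irreducible_iff_sum (H := C) (ρ.comp C.subtype)).mp hN
  have h5 : ∑ m : C, ρ.character (z⁻¹ * m) * ρ.character (z⁻¹ * m)⁻¹ = Nat.card C := by
    rw [h3 z⁻¹, ← h3 1]
    simpa using h4
  rw [← h5]
  refine Fintype.sum_equiv (Equiv.inv C) _ _ fun c => ?_
  change _ = ρ.character (z⁻¹ * ((c⁻¹ : C) : M)) * ρ.character (z⁻¹ * ((c⁻¹ : C) : M))⁻¹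
  have h6 : z⁻¹ * ((c⁻¹ : C) : M) = ((c : M) * z)⁻¹ := by
    rw [mul_inv_rev]
    rfl
  rw [h6, inv_inv, mul_comm]

theorem sum_coset_eq [Fintype C] (z : M) (g : M → ℂ) (Q : M → Prop) [DecidablePred Q]
    (hQ : ∀ x, Q x ↔ x * z⁻¹ ∈ C) :
    ∑ c : C, g ((c : M) * z) = ∑ x, (if Q x then g x else 0) := by
  classical
  have h1 : ∑ x, (if Q x then g x else 0) = ∑ y : M, (if y ∈ C then g (y * z) else 0) := by
    symm
    refine Fintype.sum_equiv (Equiv.mulRight z) _ _ fun y => ?_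
    change _ = (if Q (y * z) then g (y * z) else 0)
    refine if_congr ?_ rfl rfl
    rw [hQ, mul_inv_cancel_right]
  rw [h1, ← Finset.sum_filter]
  exact (Finset.sum_subtype (Finset.univ.filter (fun y : M => y ∈ C)) (by intro x; simp)
    (fun y => g (y * z))).symm

end Main

end Pool.Agent.DPW.SCT

namespace Pool.Agent.DPW

open Pool.Agent.DP Pool.Agent.DPV Pool.Agent.Lib_helper13 Representation
open Pool.Agent.Lib_helper13.Dade (pCore DadeHolds dadeSum)

theorem SCT_thm : Stmt_SCT := by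
  classical
  intro M _ _ 𝔐 ℓ hℓp hMax hℓ P C _ hPl hPC hP E h1 h2 ⟨m, hm, hcard⟩ z
  have hp : (Nat.card P).Prime := by rw [hPl]; exact hℓp.out
  have hl0 : (ℓ : ℂ) ≠ 0 := by exact_mod_cast hℓp.out.ne_zero
  have h10 : E 1 ≠ 0 := h1.one_ne_zero
  have hPrime : 𝔐.IsPrime := hMax.isPrime
  have hm' : (Nat.card C : ℂ) = Nat.card P * m * E 1 := by rw [hPl, hcard]
  obtain ⟨T, hT1, hT2⟩ := SCT.exists_sec (C := C) hP hp
  let D : M → Prop := fun x => x * z⁻¹ ∈ C ∧ ¬ SCT.Fx C P x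
  let a : M → ℂ := fun x => if D x ∧ T x then E x⁻¹ else 0
  have hzC : ∀ c ∈ C, ∀ x, c * x * c⁻¹ * z⁻¹ ∈ C ↔ x * z⁻¹ ∈ C := by
    intro c hc x
    have h4 : c * x * c⁻¹ * z⁻¹ = c * (x * z⁻¹) * (z * c⁻¹ * z⁻¹) := by group
    rw [h4, Subgroup.mul_mem_cancel_right _
      ((inferInstance : C.Normal).conj_mem _ (C.inv_mem hc) z),
      Subgroup.mul_mem_cancel_left _ hc]
  have ha1 : ∀ c ∈ C, ∀ x, a (c * x * c⁻¹) = a x := by
    intro c hc x
    have h5 : (c * x * c⁻¹)⁻¹ = c * x⁻¹ * c⁻¹ := by group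
    change (if D (c * x * c⁻¹) ∧ T (c * x * c⁻¹) then E (c * x * c⁻¹)⁻¹ else 0) = _
    rw [h5, h1.conj_eq]
    refine if_congr (and_congr ?_ (hT1 c hc x)) rfl rfl
    exact and_congr (hzC c hc x) (not_congr (SCT.fx_conj_iff hP hc))
  have ha2 : ∀ x, IsIntegral ℤ (a x) := by
    intro x
    change IsIntegral ℤ (if D x ∧ T x then E x⁻¹ else 0)
    split_ifs
    · exact isIntegral_char h1 _
    · exact isIntegral_zero
  -- the key identity
  have key : ∀ E' : M → ℂ, IsIrr E' → IsIrr (fun c : C => E' c) →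
      (∀ u ∈ P, E' u * E 1 = E u * E' 1) → IsIntegral ℤ (wt E' a) ∧ ∃ s : ℂ, IsIntegral ℤ s ∧
        (m : ℂ) * (∑ c : C, E' ((c : M) * z) * E (((c : M) * z)⁻¹)) / E' 1 =
          ℓ * m * wt E' a + (ℓ : ℂ) ^ 2 * s := by
    intro E' h1' h2' hEE
    have h10' : E' 1 ≠ 0 := h1'.one_ne_zero
    refine ⟨SCT.int_wt h1' h2' a ha1 ha2, ?_⟩
    obtain ⟨s, hs, hs'⟩ := SCT.fix_part h1 h2 h1' h2' hP hPC hm' hEE z
      (fun x => x * z⁻¹ ∈ C ∧ SCT.Fx C P x) (fun x => Iff.rfl)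
    refine ⟨s, hs, ?_⟩
    rw [SCT.sum_coset_eq z (fun x => E' x * E x⁻¹) (fun x => x * z⁻¹ ∈ C) (fun x => Iff.rfl)]
    have hg : ∀ u ∈ P, ∀ x, E' (u * x) * E (u * x)⁻¹ = E' x * E x⁻¹ := by
      intro u hu x
      have h5 : E' u / E' 1 = E u / E 1 := by
        rw [div_eq_div_iff h10' h10]
        exact hEE u hu
      have h6 : (u * x)⁻¹ = u⁻¹ * x⁻¹ := by
        rw [hP u hu x, mul_inv_rev]
      have h7 : E u / E 1 * (E u⁻¹ / E 1) = 1 := by
        have h8 := SCT.central h1 h2 hP u hu u⁻¹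
        rw [mul_inv_cancel] at h8
        rw [← mul_div_assoc, ← h8, div_self h10]
      rw [h6, SCT.central h1' h2' hP u hu x, SCT.central h1 h2 hP u⁻¹ (P.inv_mem hu) x⁻¹, h5]
      calc E u / E 1 * E' x * (E u⁻¹ / E 1 * E x⁻¹) =
          (E u / E 1 * (E u⁻¹ / E 1)) * (E' x * E x⁻¹) := by ring
        _ = _ := by rw [h7, one_mul]
    have hD : ∀ u ∈ P, ∀ x, D (u * x) ↔ D x := by
      intro u hu x
      refine and_congr ?_ (not_congr (SCT.fx_mul_iff hP hu))
      rw [mul_assoc, Subgroup.mul_mem_cancel_left _ (hPC hu)]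
    have h8 := SCT.sum_sec (P := P) T D (fun x hx => hT2 x hx.2) hD (fun x => E' x * E x⁻¹) hg
    have h9 : ∑ x, (if x * z⁻¹ ∈ C then E' x * E x⁻¹ else 0) =
        ∑ x, (if D x then E' x * E x⁻¹ else 0) +
        ∑ x, (if x * z⁻¹ ∈ C ∧ SCT.Fx C P x then E' x * E x⁻¹ else 0) := by
      rw [← Finset.sum_add_distrib]
      refine Finset.sum_congr rfl fun x _ => ?_
      change _ = (if x * z⁻¹ ∈ C ∧ ¬ SCT.Fx C P x then E' x * E x⁻¹ else 0) + _
      by_cases hx : x * z⁻¹ ∈ C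
      · by_cases hx' : SCT.Fx C P x
        · rw [if_pos hx, if_neg (fun h => h.2 hx'), if_pos ⟨hx, hx'⟩, zero_add]
        · rw [if_pos hx, if_pos ⟨hx, hx'⟩, if_neg (fun h => hx' h.2), add_zero]
      · rw [if_neg hx, if_neg (fun h => hx h.1), if_neg (fun h => hx h.1), zero_add]
    have h11 : wt E' a = (∑ x, (if D x ∧ T x then E' x * E x⁻¹ else 0)) / E' 1 := by
      unfold wt
      congr 1
      refine Finset.sum_congr rfl fun x _ => ?_
      change (if D x ∧ T x then E x⁻¹ else 0) * E' x = _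
      split_ifs
      · ring
      · ring
    rw [h9, h8, h11, mul_add, add_div, hs', hPl]
    ring
  refine ⟨a, ha1, ha2, ?_, ?_, ?_⟩
  · intro x hx
    exact if_neg fun h => hx h.1.1
  · obtain ⟨hw, s, hs, e⟩ := key E h1 h2 fun u _ => rfl
    rw [SCT.sum_self h1 h2 z, hcard] at e
    have e2 : (m : ℂ) * m = m * wt E a + ℓ * s := by
      apply mul_left_cancel₀ hl0
      have h3 : (m : ℂ) * (ℓ * m * E 1) / E 1 = ℓ * (m * m) := by
        field_simp
      rw [← h3, e]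
      ring
    intro h0
    have hmI : IsIntegral ℤ (m : ℂ) := Lib_helper13.isIntegral_natCast m
    have hlI : IsIntegral ℤ (ℓ : ℂ) := Lib_helper13.isIntegral_natCast ℓ
    have hl : red 𝔐 (ℓ : ℂ) = 0 := red_eq_zero_of_mem 𝔐 ⟨(ℓ : integralClosure ℤ ℂ), hℓ, by simp⟩
    have e3 := congrArg (red 𝔐) e2
    rw [red_mul 𝔐 hmI hmI, red_add 𝔐 (hmI.mul hw) (hlI.mul hs), red_mul 𝔐 hmI hw,
      red_mul 𝔐 hlI hs, h0, hl, mul_zero, zero_mul, add_zero] at e3
    have hne := CYA.natCast_ne hMax hℓ hm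
    rcases mul_eq_zero.mp e3 with h | h
    · exact hne h
    · exact hne h
  · intro E' h1' h2' hEE hS
    obtain ⟨hw, s, hs, e⟩ := key E' h1' h2' hEE
    rw [hS, mul_zero, zero_div] at e
    have e2 : (m : ℂ) * wt E' a + ℓ * s = 0 := by
      apply mul_left_cancel₀ hl0
      rw [mul_zero, e]
      ring
    have hmI : IsIntegral ℤ (m : ℂ) := Lib_helper13.isIntegral_natCast m
    have hlI : IsIntegral ℤ (ℓ : ℂ) := Lib_helper13.isIntegral_natCast ℓ
    have hl : red 𝔐 (ℓ : ℂ) = 0 := red_eq_zero_of_mem 𝔐 ⟨(ℓ : integralClosure ℤ ℂ), hℓ, by simp⟩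
    have e3 := congrArg (red 𝔐) e2
    rw [red_add 𝔐 (hmI.mul hw) (hlI.mul hs), red_mul 𝔐 hmI hw,
      red_mul 𝔐 hlI hs, hl, zero_mul, add_zero, red_zero] at e3
    rcases mul_eq_zero.mp e3 with h | h
    · exact absurd h (CYA.natCast_ne hMax hℓ hm)
    · exact h

end Pool.Agent.DPW


end
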