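import Mathlib
import Pool.Agent.DAM.C15
import Pool.Agent.DAM.C26
import Pool.Agent.DAM.C35
import Pool.Agent.DAM.C37

/-! Parts: DPN.FXR, DPT.STB, DPW.COMBP -/

section

/-!
# FXR: the characters of the block are fixed by the elements above `R`
-/

namespace Pool.Agent.DPN

open Pool.Agent.DP Pool.Agent.DPC Pool.Agent.DPM Pool.Agent.Lib_helper13 Representation

namespace FXR

theorem pl_nil {X : Type} [Group X] [Fintype X] (x : X) : pl ([] : List (X → ℤ)) x =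
    open Classical in if x = 1 then 1 else 0 := by
  classical
  rw [pl, List.map_nil, List.prod_nil, MonoidAlgebra.one_def, MonoidAlgebra.coeff_single,
    Finsupp.single_apply]
  by_cases h : x = 1
  · rw [if_pos h.symm, if_pos h]
  · rw [if_neg (fun h' => h h'.symm), if_neg h]

theorem elt_pl {X : Type} [Group X] [Fintype X] (l : List (X → ℤ)) :
    elt (pl l) = (l.map elt).prod := by
  ext x
  rw [elt_coeff, pl]

theorem pl_cons {X : Type} [Group X] [Fintype X] (u : X → ℤ) (l : List (X → ℤ)) :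
    pl (u :: l) = conv u (pl l) := by
  apply elt_injective
  rw [elt_conv, elt_pl, elt_pl, List.map_cons, List.prod_cons]

theorem AIv_conv {A X : Type} [Group A] [Group X] [Fintype X] (j : A →* X) {u v : X → ℤ}
    (hu : AIv j u) (hv : AIv j v) : AIv j (conv u v) := by
  intro a x
  rw [conv, conv]
  refine (Fintype.sum_equiv (MulAut.conj (j a)).toEquiv _ _ ?_).symm
  intro y
  have h1 : (MulAut.conj (j a)).toEquiv y = j a * y * (j a)⁻¹ := rfl
  have h2 : (j a * y * (j a)⁻¹)⁻¹ * (j a * x * (j a)⁻¹) = j a * (y⁻¹ * x) * (j a)⁻¹ := by group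
  rw [h1, hu, h2, hv]

theorem AIv_pl {A X : Type} [Group A] [Group X] [Fintype X] (j : A →* X) (l : List (X → ℤ))
    (h : ∀ u ∈ l, AIv j u) : AIv j (pl l) := by
  induction l with
  | nil =>
    intro a x
    rw [pl_nil, pl_nil]
    have h1 : j a * x * (j a)⁻¹ = 1 ↔ x = 1 := by
      rw [mul_inv_eq_one, mul_eq_left]
    by_cases h2 : x = 1
    · rw [if_pos (h1.mpr h2), if_pos h2]
    · rw [if_neg (fun h3 => h2 (h1.mp h3)), if_neg h2]
  | cons u l ih =>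
    rw [pl_cons]
    exact AIv_conv j (h u List.mem_cons_self) (ih fun v hv => h v (List.mem_cons_of_mem _ hv))

theorem conv_zero_left {X : Type} [Group X] [Fintype X] (v : X → ℤ) :
    conv (fun _ => 0) v = fun _ => 0 := by
  ext x
  simp [conv]

/-- The twisted average of an irreducible representation vanishes. -/
theorem twisted {A : Type} [Group A] [Fintype A] {θ : A → ℂ} (hθ : IsIrr θ) (e : MulAut A)
    (hne : θ ≠ θ ∘ e) (U : A → ℂ) (hU : ∀ a b, U ((e⁻¹ : MulAut A) a * b * a⁻¹) = U b) (a : A) :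
    ∑ b, U b * θ (e (b * a)) = 0 := by
  have hθ' : IsIrr (θ ∘ e) := hθ.comp_mulEquiv e
  obtain ⟨n, ρ, hρ, rfl⟩ := hθ
  let ρ' : Representation ℂ A (Fin n → ℂ) := ρ.comp e.toMonoidHom
  have hρ' : ∀ b, ρ' b = ρ (e b) := fun b => rfl
  have hch : ρ'.character = ρ.character ∘ e := rfl
  let M : (Fin n → ℂ) →ₗ[ℂ] (Fin n → ℂ) := ∑ b, U b • ρ' b
  have hM : ∀ g, M ∘ₗ ρ' g = ρ g ∘ₗ M := by
    intro g
    have h1 : M ∘ₗ ρ' g = ∑ b, U b • ρ' (b * g) := by
      change (∑ b, U b • ρ' b) * ρ' g = _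
      rw [Finset.sum_mul]
      refine Finset.sum_congr rfl fun b _ => ?_
      rw [smul_mul_assoc, map_mul]
    have h2 : ρ g ∘ₗ M = ∑ b, U b • ρ' ((e⁻¹ : MulAut A) g * b) := by
      change ρ g * (∑ b, U b • ρ' b) = _
      rw [Finset.mul_sum]
      refine Finset.sum_congr rfl fun b _ => ?_
      rw [mul_smul_comm, map_mul, hρ' ((e⁻¹ : MulAut A) g)]
      have h3 : e ((e⁻¹ : MulAut A) g) = g := MulAut.apply_inv_self _ _ _
      rw [h3]
    rw [h1, h2]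
    refine Fintype.sum_equiv
      ((Equiv.mulRight g).trans (Equiv.mulLeft ((e⁻¹ : MulAut A) g)⁻¹)) _ _ ?_
    intro b
    have h4 : ((Equiv.mulRight g).trans (Equiv.mulLeft ((e⁻¹ : MulAut A) g)⁻¹)) b =
        ((e⁻¹ : MulAut A) g)⁻¹ * (b * g) := rfl
    rw [h4, mul_inv_cancel_left]
    congr 1
    rw [← hU g (((e⁻¹ : MulAut A) g)⁻¹ * (b * g))]
    congr 1
    group
  let F : IntertwiningMap ρ' ρ := ⟨M, hM⟩
  have hfin : Module.finrank ℂ (IntertwiningMap ρ' ρ) = 0 := by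
    have h1 := sum_char_eq_finrank ρ' ρ
    rw [hch] at h1
    have h2 : ∑ g : A, ρ.character g * (ρ.character ∘ e) g⁻¹ = 0 :=
      IsIrr.sum_ne ⟨n, ρ, hρ, rfl⟩ hθ' hne
    rw [h2] at h1
    have h3 := (mul_eq_zero.mp h1.symm).resolve_left natCard_ne_zero
    exact_mod_cast h3
  have hsub : Subsingleton (IntertwiningMap ρ' ρ) := Module.finrank_zero_iff.mp hfin
  have hF : F = 0 := Subsingleton.elim _ _
  have hM0 : M = 0 := congrArg IntertwiningMap.toLinearMap hF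
  have h5 : ∑ b, U b * ρ.character (e (b * a)) = LinearMap.trace ℂ _ (M ∘ₗ ρ' a) := by
    have h6 : M ∘ₗ ρ' a = ∑ b, U b • ρ' (b * a) := by
      change (∑ b, U b • ρ' b) * ρ' a = _
      rw [Finset.sum_mul]
      refine Finset.sum_congr rfl fun b _ => ?_
      rw [smul_mul_assoc, map_mul]
    rw [h6, map_sum]
    refine Finset.sum_congr rfl fun b _ => ?_
    rw [map_smul, smul_eq_mul]
    rfl
  rw [h5, hM0, LinearMap.zero_comp, map_zero]

/-- The product of a function supported in a coset which moves `θ` is killed by `θ`. -/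
theorem key {A T H : Type} [Group A] [Fintype A] [Group T] [Fintype T] [Group H] {j : A →* T}
    {c : T →* MulAut A} {p : T →* H} (h : ClG j c p) {θ : A → ℂ} (hθ : IsIrr θ) (x : T)
    (hx : ¬ ∀ a, θ (c x a) = θ a) (u v : T → ℤ) (hu : AIv j u)
    (hs : ∀ t, p t ≠ p x → u t = 0) : ∑ a, ((conv u v (j a) : ℤ) : ℂ) * θ a = 0 := by
  have hne : θ ≠ θ ∘ (c x) := by
    intro h1
    apply hx
    intro a
    exact (congrFun h1 a).symm
  -- the sum over the coset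
  have h1 : ∀ a, ((conv u v (j a) : ℤ) : ℂ) =
      ∑ b : A, ((u (x * j b) : ℤ) : ℂ) * ((v ((x * j b)⁻¹ * j a) : ℤ) : ℂ) := by
    intro a
    rw [conv]
    push_cast
    symm
    apply Fintype.sum_of_injective (fun b : A => x * j b)
    · intro b b' hb
      exact h.inj (mul_left_cancel hb)
    · intro t ht
      rw [hs t, Int.cast_zero, zero_mul]
      intro hp
      apply ht
      have h2 : p (x⁻¹ * t) = 1 := by
        rw [map_mul, map_inv, hp, inv_mul_cancel]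
      obtain ⟨b, hb⟩ := (h.ker _).mp h2
      refine ⟨b, ?_⟩
      change x * j b = t
      rw [hb, mul_inv_cancel_left]
    · intro b
      rfl
  simp only [h1, Finset.sum_mul]
  rw [Finset.sum_comm]
  have h2 : ∀ b : A, ∑ a, ((u (x * j b) : ℤ) : ℂ) * ((v ((x * j b)⁻¹ * j a) : ℤ) : ℂ) * θ a =
      ∑ a, ((u (x * j b) : ℤ) : ℂ) * ((v (j a * x⁻¹) : ℤ) : ℂ) * θ (c x (b * a)) := by
    intro b
    symm
    refine Fintype.sum_equiv ((Equiv.mulLeft b).trans (c x).toEquiv) _ _ ?_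
    intro a
    have h3 : ((Equiv.mulLeft b).trans (c x).toEquiv) a = c x (b * a) := rfl
    have h4 : (x * j b)⁻¹ * j (c x (b * a)) = j a * x⁻¹ := by
      rw [h.act, map_mul]
      group
    rw [h3, h4]
  simp only [h2]
  rw [Finset.sum_comm]
  apply Finset.sum_eq_zero
  intro a _
  have h5 := twisted hθ (c x) hne (fun b => ((u (x * j b) : ℤ) : ℂ)) ?_ a
  · have h6 : ∑ b, ((u (x * j b) : ℤ) : ℂ) * ((v (j a * x⁻¹) : ℤ) : ℂ) * θ (c x (b * a)) =
        ((v (j a * x⁻¹) : ℤ) : ℂ) * ∑ b, ((u (x * j b) : ℤ) : ℂ) * θ (c x (b * a)) := by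
      rw [Finset.mul_sum]
      refine Finset.sum_congr rfl fun b _ => ?_
      ring
    rw [h6, h5, mul_zero]
  · intro g b
    have h7 : x * j ((c x)⁻¹ g * b * g⁻¹) = j g * (x * j b) * (j g)⁻¹ := by
      have h8 : j ((c x)⁻¹ g) = x⁻¹ * j g * x := by
        rw [← map_inv, h.act, inv_inv]
      rw [map_mul, map_mul, map_inv, h8]
      group
    change ((u (x * j ((c x)⁻¹ g * b * g⁻¹)) : ℤ) : ℂ) = _
    rw [h7, hu]

end FXR

open _root_.Pool.Agent.DPN.FXR in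
theorem FXR_thm (h1 : Stmt_KEYN) (h2 : Stmt_CHM) : Stmt_FXR := by
  intro O X H W _ _ _ _ _ _ _ _ 𝔐 ℓ _ hmax hℓ j c p h a Z Λ π R μ Lm hF τ₀ θ₀ hp₀ τ hτ θ hθ
    hcen r hr
  obtain ⟨u, hu, hus, hne⟩ := (hF.mem τ₀ θ₀ hp₀ r).mp hr
  have hn : 0 < orderOf r := orderOf_pos r
  obtain ⟨m, hm⟩ : ∃ m, orderOf r = m + 1 := ⟨orderOf r - 1, by omega⟩
  have hk := h1 O X H W 𝔐 ℓ hmax hℓ j c p h a Z Λ τ₀ θ₀ hp₀ π (μ τ₀ θ₀) (Lm τ₀ θ₀)
    (hF.rds τ₀ θ₀ hp₀) (List.replicate (m + 1) (u, r)) ?_ ?_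
  rotate_left
  · intro x hx
    rw [List.eq_of_mem_replicate hx]
    exact ⟨hu, hus⟩
  · rw [List.map_replicate, List.prod_replicate, ← hm]
    exact pow_orderOf_eq_one r
  rw [List.map_replicate, List.map_replicate, List.prod_replicate] at hk
  have hfield : IsDomain ((integralClosure ℤ ℂ) ⧸ 𝔐) := by
    have := hmax
    exact Ideal.Quotient.isDomain 𝔐
  have hk0 : Lm τ₀ θ₀ (fun t => u t) r ^ (m + 1) ≠ 0 := pow_ne_zero _ hne
  have hcl : ∀ g x : O, ((pl (List.replicate (m + 1) u) (j (g * x * g⁻¹)) : ℤ) : ℂ) =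
      ((pl (List.replicate (m + 1) u) (j x) : ℤ) : ℂ) := by
    intro g x
    rw [map_mul, map_mul, map_inv, AIv_pl j _ (fun v hv => by
      rw [List.eq_of_mem_replicate hv]; exact hu)]
  have hpair := red_wt_eq_pair 𝔐 (stb τ).subtype hθ
    (fun o : O => ((pl (List.replicate (m + 1) u) (j o) : ℤ) : ℂ)) hcl
    (fun x => isIntegral_algebraMap (R := ℤ) (A := ℂ))
  rw [hcen] at hpair
  have hchm := h2 O X H 𝔐 ℓ hmax hℓ j c p h Z τ hτ θ hθ (List.replicate (m + 1) u) (fun v hv => by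
    rw [List.eq_of_mem_replicate hv]; exact hu)
  have hne2 : red 𝔐 (wt θ (fun a => ((pl ((List.replicate (m + 1) u).map
      (fun (u : X → ℤ) (t : YS j τ) => u t)) (jS h τ a) : ℤ) : ℂ))) ≠ 0 := by
    rw [hchm]
    change red 𝔐 (wt θ (fun a : stb τ => ((pl (List.replicate (m + 1) u)
      (j ((stb τ).subtype a)) : ℤ) : ℂ))) ≠ 0
    rw [hpair]
    intro h0
    exact hk0 (hk.trans h0)
  rw [List.map_replicate, List.replicate_succ, pl_cons] at hne2
  constructor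
  · by_contra hno
    apply hne2
    have h3 : (fun t : YS j τ => u t) = fun _ => 0 := by
      ext t
      apply hus
      intro h4
      exact hno ⟨t, h4⟩
    rw [h3, conv_zero_left]
    have h5 : wt θ (fun _ : stb τ => (((0 : ℤ)) : ℂ)) = 0 := by
      simp [wt]
    rw [h5, red_zero]
  · intro x hx
    by_contra hno
    apply hne2
    have h3 := key (clG_S h τ) hθ x hno (fun t : YS j τ => u t)
      (pl (List.replicate m (fun t : YS j τ => u t))) (fun a t => hu _ _) (fun t ht => hus _ (by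
        rw [← hx]
        exact ht))
    rw [wt]
    rw [h3, zero_div, red_zero]

end Pool.Agent.DPN


end

section

/-!
# STB: the blocks of the normal subgroups of a minimal counterexample are stable
-/

namespace Pool.Agent.DPT

open Pool.Agent.DP Pool.Agent.DPC Pool.Agent.DPM Pool.Agent.DPN Pool.Agent.Lib_helper13
open Representation
open Pool.Agent.Lib_helper13.Dade (pCore DadeHolds dadeSum)

namespace STB

variable {X : Type} [Group X] [Fintype X]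

/-! ### Functions extended by zero -/

omit [Fintype X] in
theorem ext0_coe {S : Subgroup X} (θ : S → ℂ) : (fun s : S => ext0 θ (s : X)) = θ := by
  funext s
  exact ext0_of_mem θ s.2

omit [Fintype X] in
theorem ext0_res {S : Subgroup X} {ψ : X → ℂ} (h : ∀ x, x ∉ S → ψ x = 0) :
    ext0 (fun s : S => ψ s) = ψ := by
  funext x
  by_cases hx : x ∈ S
  · rw [ext0_of_mem _ hx]
  · rw [ext0_of_not_mem _ hx, h x hx]

theorem irrOn_ext0 {S : Subgroup X} {θ : S → ℂ} (h : IsIrr θ) : IrrOn S (ext0 θ) := by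
  refine ⟨?_, fun x hx => ext0_of_not_mem θ hx⟩
  rw [ext0_coe]
  exact h

/-- Characters of `S` as functions on the group. -/
theorem card_ID (ℓ d : ℕ) (S : Subgroup X) (Q : (X → ℂ) → Prop) :
    Nat.card {ψ : X → ℂ // ID ℓ S d ψ ∧ Q ψ} =
      Nat.card {θ : S → ℂ // IsIrr θ ∧ (HasDefect ℓ θ d ∧ Q (ext0 θ))} := by
  refine Nat.card_congr ⟨fun ψ => ⟨fun s => ψ.1 s, ψ.2.1.1.1, ψ.2.1.2, ?_⟩,
    fun θ => ⟨ext0 θ.1, ⟨irrOn_ext0 θ.2.1, ?_⟩, θ.2.2.2⟩, ?_, ?_⟩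
  · rw [ext0_res ψ.2.1.1.2]
    exact ψ.2.2
  · have h := θ.2.2.1
    rw [ext0_coe]
    exact h
  · intro ψ
    apply Subtype.ext
    exact ext0_res ψ.2.1.1.2
  · intro θ
    apply Subtype.ext
    exact ext0_coe θ.1

/-! ### Central functions -/

omit [Group X] [Fintype X] in
theorem ite_eq {p q : Prop} {hp : Decidable p} {hq : Decidable q} (h : p ↔ q) :
    @ite ℂ p hp 1 0 = @ite ℂ q hq 1 0 := by
  by_cases h1 : p
  · rw [if_pos h1, if_pos (h.mp h1)]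
  · rw [if_neg h1, if_neg fun h2 => h1 (h.mpr h2)]

theorem isIntegral_cjT (T : Subgroup X) (x g : X) : IsIntegral ℤ (cjT T x g) := by
  classical
  rw [cjT]
  split_ifs
  · exact isIntegral_one
  · exact isIntegral_zero

theorem cjT_conj {T : Subgroup X} {t : X} (ht : t ∈ T) (x g : X) :
    cjT T (t * x * t⁻¹) g = cjT T x g := by
  classical
  rw [cjT, cjT]
  refine ite_eq ?_
  constructor
  · rintro ⟨s, hs, h⟩
    refine ⟨t⁻¹ * s, T.mul_mem (T.inv_mem ht) hs, ?_⟩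
    have h3 : x = t⁻¹ * (t * x * t⁻¹) * t := by group
    rw [h3, h]
    group
  · rintro ⟨s, hs, h⟩
    refine ⟨t * s, T.mul_mem ht hs, ?_⟩
    rw [h]
    group

theorem cgT_eq (𝔐 : Ideal (integralClosure ℤ ℂ)) (T S : Subgroup X) {ψ : X → ℂ}
    (h : ∀ x, x ∉ S → ψ x = 0) (g : X) :
    cgT 𝔐 T ψ g = red 𝔐 (wt (fun s : S => ψ s) (fun s => cjT T (s : X) g)) := by
  classical
  have h1 : ∑ x : X, cjT T x g * ψ x = ∑ s : S, cjT T (s : X) g * ψ s := by
    symm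
    refine Fintype.sum_of_injective (fun s : S => (s : X)) Subtype.val_injective _ _ ?_
      (fun s => rfl)
    intro x hx
    rw [h x (fun h2 => hx ⟨⟨x, h2⟩, rfl⟩), mul_zero]
  rw [cgT, wt, h1]
  rfl

/-- The central function with respect to `⊤`. -/
theorem cjT_top (x g : X) : cjT (⊤ : Subgroup X) x g = conjInd x g := by
  classical
  rw [cjT, conjInd]
  refine ite_eq ?_
  constructor
  · rintro ⟨t, _, rfl⟩
    exact (isConj_iff.mpr ⟨t, rfl⟩).symm
  · intro h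
    obtain ⟨t, ht⟩ := isConj_iff.mp h.symm
    exact ⟨t, trivial, ht.symm⟩

theorem cen_eq (𝔐 : Ideal (integralClosure ℤ ℂ)) (S : Subgroup X) (θ : S → ℂ) (g : X) :
    cen 𝔐 S.subtype θ g = cgT 𝔐 ⊤ (ext0 θ) g := by
  rw [cgT_eq 𝔐 ⊤ S (fun x hx => ext0_of_not_mem θ hx), cen, ext0_coe]
  congr 2
  funext s
  rw [cjT_top]
  rfl

theorem cnt_eq (𝔐 : Ideal (integralClosure ℤ ℂ)) (ℓ d : ℕ) (S : Subgroup X)
    (ω : X → (integralClosure ℤ ℂ) ⧸ 𝔐) :
    cnt 𝔐 ℓ d S.subtype ω = Nat.card {ψ : X → ℂ // ID ℓ S d ψ ∧ cgT 𝔐 ⊤ ψ = ω} := by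
  rw [card_ID ℓ d S (fun ψ => cgT 𝔐 ⊤ ψ = ω), cnt]
  refine Nat.card_congr (Equiv.subtypeEquivRight fun θ => ?_)
  refine and_congr_right fun _ => and_congr_right fun _ => ?_
  constructor
  · intro h
    funext g
    rw [← cen_eq, h g]
  · intro h g
    rw [cen_eq, h]

/-! ### The chains of a subgroup -/

/-- The stabilizer of a chain of `Y`. -/
noncomputable def eqv (Y : Subgroup X) (τ : Finset (Subgroup Y)) :
    ↥(stb τ) ≃* ↥(stb (mapCh Y.subtype τ) ⊓ Y) :=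
  ((stb τ).equivMapOfInjective Y.subtype Y.subtype_injective).trans
    (MulEquiv.subgroupCongr (by
      rw [← comap_stb_mapCh (i := Y.subtype) Y.subtype_injective τ, Subgroup.map_comap_eq,
        Subgroup.range_subtype, inf_comm]))

omit [Fintype X] in
theorem eqv_coe (Y : Subgroup X) (τ : Finset (Subgroup Y)) (s : stb τ) :
    ((eqv Y τ s : ↥(stb (mapCh Y.subtype τ) ⊓ Y)) : X) = ((s : Y) : X) := rfl

/-- The set of the central functions on `Y` for the sum over the chains of `Y`. -/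
def PP (𝔐 : Ideal (integralClosure ℤ ℂ)) (Y N : Subgroup X)
    (ω b : X → (integralClosure ℤ ℂ) ⧸ 𝔐) : Set (Y → (integralClosure ℤ ℂ) ⧸ 𝔐) :=
  {c | (∀ x : X, pair 𝔐 (fun y : Y => cjT (⊤ : Subgroup X) (y : X) x) c = ω x) ∧
    ∀ x ∈ N, pair 𝔐 (fun y : Y => cjT Y (y : X) x) c = b x}

theorem card_eq (𝔐 : Ideal (integralClosure ℤ ℂ)) (ℓ d : ℕ) (Y N : Subgroup X)
    (ω b : X → (integralClosure ℤ ℂ) ⧸ 𝔐) (τ : Finset (Subgroup Y)) :
    Nat.card {ψ : X → ℂ // ID ℓ (stb (mapCh Y.subtype τ) ⊓ Y) d ψ ∧ cgT 𝔐 ⊤ ψ = ω ∧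
        ∀ x ∈ N, cgT 𝔐 Y ψ x = b x} =
      Nat.card {ψ : stb τ → ℂ // IsIrr ψ ∧ HasDefect ℓ ψ d ∧
        cen 𝔐 ((MonoidHom.id Y).comp (stb τ).subtype) ψ ∈ PP 𝔐 Y N ω b} := by
  rw [card_ID ℓ d _ (fun ψ => cgT 𝔐 ⊤ ψ = ω ∧ ∀ x ∈ N, cgT 𝔐 Y ψ x = b x)]
  symm
  apply card_irr_equiv (eqv Y τ)
  intro ψ hψ
  rw [hasDefect_comp_equiv]
  refine and_congr_right fun _ => ?_
  have hψ' : IsIrr (fun s => ψ (eqv Y τ s)) := hψ.comp_mulEquiv (eqv Y τ)
  have key : ∀ T : Subgroup X, Y ≤ T → ∀ x : X,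
      pair 𝔐 (fun y : Y => cjT T (y : X) x)
        (cen 𝔐 ((MonoidHom.id Y).comp (stb τ).subtype) (fun s => ψ (eqv Y τ s))) =
      cgT 𝔐 T (ext0 ψ) x := by
    intro T hT x
    rw [← red_wt_eq_pair 𝔐 ((MonoidHom.id Y).comp (stb τ).subtype) hψ'
      (fun y : Y => cjT T (y : X) x)
      (fun g y => by
        have h1 := cjT_conj (hT g.2) (y : X) x
        simpa using h1)
      (fun y => isIntegral_cjT T _ _)]
    rw [cgT_eq 𝔐 T _ (fun x hx => ext0_of_not_mem ψ hx), ext0_coe]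
    rw [← wt_comp_equiv (eqv Y τ)]
    rfl
  rw [PP, Set.mem_ofPred_eq]
  refine and_congr ?_ ?_
  · constructor
    · intro h
      funext x
      rw [← key ⊤ le_top x, h x]
    · intro h x
      rw [key ⊤ le_top x, h]
  · constructor
    · intro h x hx
      rw [← key Y le_rfl x, h x hx]
    · intro h x hx
      rw [key Y le_rfl x, h x hx]

omit [Fintype X] in
theorem map_subgroupOf {Z Y : Subgroup X} (h : Z ≤ Y) : (Z.subgroupOf Y).map Y.subtype = Z := by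
  rw [Subgroup.subgroupOf_map_subtype, inf_eq_left.mpr h]

open Classical in
theorem sum_eq (𝔐 : Ideal (integralClosure ℤ ℂ)) (ℓ d : ℕ) (Z Y N : Subgroup X) (hZ : Z ≤ Y)
    (ω b : X → (integralClosure ℤ ℂ) ⧸ 𝔐) :
    ∑ σ ∈ Ch ℓ Z, (-1 : ℚ) ^ σ.card * (if tp Z σ ≤ Y then
        (Nat.card ↥(stb σ ⊓ Y) : ℚ) *
          Nat.card {ψ : X → ℂ // ID ℓ (stb σ ⊓ Y) d ψ ∧ cgT 𝔐 ⊤ ψ = ω ∧
            ∀ x ∈ N, cgT 𝔐 Y ψ x = b x} else 0) =
      DK 𝔐 ℓ d (Z.subgroupOf Y) (MonoidHom.id Y) (PP 𝔐 Y N ω b) := by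
  simp only [mul_ite, mul_zero]
  rw [← Finset.sum_filter]
  have hf : (Ch ℓ Z).filter (fun σ => tp Z σ ≤ Y) =
      (Ch ℓ ((Z.subgroupOf Y).map Y.subtype)).filter
        (fun σ => ∀ D ∈ σ, D ≤ Y.subtype.range) := by
    rw [map_subgroupOf hZ]
    refine Finset.filter_congr fun σ _ => ?_
    rw [Subgroup.range_subtype, tp, sup_le_iff, Finset.sup_le_iff]
    exact ⟨fun h => h.1, fun h => ⟨h, hZ⟩⟩
  rw [hf, sum_Ch_range Y.subtype_injective ℓ (Z.subgroupOf Y), DK]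
  refine Finset.sum_congr rfl fun τ _ => ?_
  rw [card_mapCh Y.subtype_injective, card_eq 𝔐 ℓ d Y N ω b τ,
    Nat.card_congr (eqv Y τ).toEquiv]

/-! ### The stabilizers -/

theorem cjT_move {N : Subgroup X} [N.Normal] (g x y : X) :
    cjT N (g * x * g⁻¹) (g * y * g⁻¹) = cjT N x y := by
  classical
  rw [cjT, cjT]
  refine ite_eq ?_
  constructor
  · rintro ⟨t, ht, h⟩
    refine ⟨g⁻¹ * t * g, ?_, ?_⟩
    · have h3 := Subgroup.Normal.conj_mem ‹N.Normal› t ht g⁻¹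
      simpa using h3
    · have h3 : x = g⁻¹ * (g * x * g⁻¹) * g := by group
      rw [h3, h]
      group
  · rintro ⟨t, ht, h⟩
    refine ⟨g * t * g⁻¹, Subgroup.Normal.conj_mem ‹N.Normal› t ht g, ?_⟩
    rw [h]
    group

theorem cgT_move (𝔐 : Ideal (integralClosure ℤ ℂ)) {N : Subgroup X} [N.Normal] (ξ : X → ℂ)
    (g y : X) : cgT 𝔐 N (fun x => ξ (g * x * g⁻¹)) y = cgT 𝔐 N ξ (g * y * g⁻¹) := by
  rw [cgT, cgT]
  have h1 : ∑ x, cjT N x y * ξ (g * x * g⁻¹) = ∑ x, cjT N x (g * y * g⁻¹) * ξ x := by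
    refine Fintype.sum_equiv (MulAut.conj g).toEquiv _ _ fun x => ?_
    change _ = cjT N (g * x * g⁻¹) (g * y * g⁻¹) * ξ (g * x * g⁻¹)
    rw [cjT_move]
  rw [h1]
  simp

theorem sx_top (𝔐 : Ideal (integralClosure ℤ ℂ)) {N : Subgroup X} [N.Normal] (ξ : X → ℂ)
    (g : X) (h : sx (cgT 𝔐 N (fun x => ξ (g * x * g⁻¹))) = ⊤) : sx (cgT 𝔐 N ξ) = ⊤ := by
  rw [eq_top_iff]
  intro k _
  rw [mem_sx]
  intro x
  have h1 : g⁻¹ * k * g ∈ sx (cgT 𝔐 N (fun x => ξ (g * x * g⁻¹))) := by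
    rw [h]
    trivial
  have h2 := mem_sx.mp h1 (g⁻¹ * x * g)
  rw [cgT_move, cgT_move] at h2
  have h3 : g * (g⁻¹ * k * g * (g⁻¹ * x * g) * (g⁻¹ * k * g)⁻¹) * g⁻¹ = k * x * k⁻¹ := by group
  have h4 : g * (g⁻¹ * x * g) * g⁻¹ = x := by group
  rw [h3, h4] at h2
  exact h2

omit [Fintype X] in
theorem center_le_sx {α : Type} (b : X → α) : Subgroup.center X ≤ sx b := by
  intro z hz
  rw [mem_sx]
  intro x
  rw [← Subgroup.mem_center_iff.mp hz x]
  congr 1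
  group

theorem index_le {Y : Subgroup X} (hc : Subgroup.center X ≤ Y) (hY : Y ≠ ⊤) {n : ℕ}
    (hn : (Subgroup.center X).index ≤ n + 1) : (Subgroup.center Y).index ≤ n := by
  have h1 : (Subgroup.center X).subgroupOf Y ≤ Subgroup.center Y := by
    intro y hy
    rw [Subgroup.mem_center_iff]
    intro x
    apply Subtype.ext
    exact Subgroup.mem_center_iff.mp (Subgroup.mem_subgroupOf.mp hy) (x : X)
  have h2 : (Subgroup.center Y).index ≤ ((Subgroup.center X).subgroupOf Y).index := by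
    apply Nat.le_of_dvd
    · exact Nat.pos_of_ne_zero Subgroup.index_ne_zero_of_finite
    · exact Subgroup.index_dvd_of_le h1
  have h3 : ((Subgroup.center X).subgroupOf Y).index * Y.index = (Subgroup.center X).index :=
    Subgroup.relIndex_mul_index hc
  have h4 : Y.index ≠ 1 := fun h => hY (Subgroup.index_eq_one.mp h)
  have h5 : Y.index ≠ 0 := Subgroup.index_ne_zero_of_finite
  have h6 : ((Subgroup.center X).subgroupOf Y).index ≠ 0 := Subgroup.index_ne_zero_of_finite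
  have h7 : ((Subgroup.center X).subgroupOf Y).index * 2 ≤ n + 1 := by
    calc ((Subgroup.center X).subgroupOf Y).index * 2 ≤
        ((Subgroup.center X).subgroupOf Y).index * Y.index :=
          Nat.mul_le_mul_left _ (by omega)
      _ ≤ n + 1 := by rw [h3]; exact hn
  omega

end STB

open _root_.Pool.Agent.DPT.STB in
theorem STB_thm (h1 : Stmt_STC) (h2 : Stmt_DKV) : Stmt_STB := by
  classical
  intro X _ _ 𝔐 ℓ _ hM hl n hn hidx Z N hZ hZp hN d hd ω hKK ξ hξ hω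
  by_contra hne
  apply hKK
  have hpos : (Nat.card (sx (cgT 𝔐 N ξ)) : ℚ) ≠ 0 := by
    exact_mod_cast (Nat.card_pos (α := ↥(sx (cgT 𝔐 N ξ)))).ne'
  refine (mul_eq_zero.mp ?_).resolve_left hpos
  rw [KK, Finset.mul_sum]
  have hterm : ∀ σ ∈ Ch ℓ Z, (Nat.card (sx (cgT 𝔐 N ξ)) : ℚ) *
      ((-1 : ℚ) ^ σ.card * ((Nat.card (stb σ) : ℚ) * cnt 𝔐 ℓ d (stb σ).subtype ω)) =
      (-1 : ℚ) ^ σ.card * ((Nat.card (sx (cgT 𝔐 N ξ)) : ℚ) * ((Nat.card (stb σ) : ℚ) *
        Nat.card {ψ : X → ℂ // ID ℓ (stb σ) d ψ ∧ cgT 𝔐 ⊤ ψ = ω})) := by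
    intro σ _
    rw [cnt_eq, mul_left_comm]
  rw [Finset.sum_congr rfl hterm]
  have hterm2 : ∀ σ ∈ Ch ℓ Z, _ = _ := fun σ hσ =>
    congrArg (fun q : ℚ => (-1 : ℚ) ^ σ.card * q)
      (h1 X 𝔐 ℓ hM hl Z N hZ hN ω ξ hξ hω σ (mem_Ch.mp hσ) d)
  rw [Finset.sum_congr rfl hterm2]
  simp only [Finset.mul_sum]
  rw [Finset.sum_comm]
  apply Finset.sum_eq_zero
  intro g _
  have hcY : Subgroup.center X ≤ sx (cgT 𝔐 N (fun x => ξ (g * x * g⁻¹))) := center_le_sx _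
  have hY : sx (cgT 𝔐 N (fun x => ξ (g * x * g⁻¹))) ≠ ⊤ := fun h => hne (sx_top 𝔐 ξ g h)
  have hs := sum_eq 𝔐 ℓ d Z (sx (cgT 𝔐 N (fun x => ξ (g * x * g⁻¹)))) N (hZ.trans hcY) ω
    (cgT 𝔐 (sx (cgT 𝔐 N (fun x => ξ (g * x * g⁻¹)))) (fun x => ξ (g * x * g⁻¹)))
  refine Eq.trans ?_ (hs.trans ?_)
  · refine Finset.sum_congr rfl fun σ _ => ?_
    congr 1
  · refine h2 _ _ 𝔐 ℓ hM hl n hn (index_le hcY hY hidx) _ ?_ ?_ d ?_ _ _
    · intro y hy
      rw [Subgroup.mem_center_iff]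
      intro x
      apply Subtype.ext
      exact Subgroup.mem_center_iff.mp (hZ (Subgroup.mem_subgroupOf.mp hy)) (x : X)
    · exact hZp.of_injective
        ((Subgroup.subgroupOfEquivOfLe (hZ.trans hcY)).toMonoidHom)
        (Subgroup.subgroupOfEquivOfLe (hZ.trans hcY)).injective
    · rw [Nat.card_congr (Subgroup.subgroupOfEquivOfLe (hZ.trans hcY)).toEquiv]
      exact hd

end Pool.Agent.DPT


end

section

/-!
# COMBP: the vanishing of the combinatorial sum (theorem W)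
-/

namespace Pool.Agent.DPW

open Pool.Agent.DP Pool.Agent.DPV Pool.Agent.Lib_helper13 Representation
open Pool.Agent.Lib_helper13.Dade (pCore DadeHolds dadeSum)

theorem gT_trL {G B C : Type} [Group G] [Group B] [Group C]
    (𝔐 : Ideal (integralClosure ℤ ℂ)) {ι : G →* B} {κ : B →* MulAut G} {ρ : B →* C}
    (hcl : ClG ι κ ρ) (Pr : (G → (integralClosure ℤ ℂ) ⧸ 𝔐) → Prop) (L : Subgroup C)
    (β : Set (B → (integralClosure ℤ ℂ) ⧸ 𝔐))
    (h : gT ι Pr (trL 𝔐 ρ L β)) : gT ι Pr β := by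
  obtain ⟨b, ⟨b0, hb0, lam, hlam, rfl⟩, h2⟩ := h
  refine ⟨b0, hb0, ?_⟩
  have h6 : ∀ g, red 𝔐 (lam (ρ (ι g))) * trn ρ L b0 (ι g) = b0 (ι g) := by
    intro g
    have h5 : ρ (ι g) = 1 := (hcl.ker (ι g)).mpr ⟨g, rfl⟩
    rw [trn, if_pos (by rw [h5]; exact L.one_mem), h5, hlam.1, red_one, one_mul]
  simp only [h6] at h2
  exact h2

open Classical in
theorem COMBP_thm (h1 : Stmt_BETV) (h2 : Stmt_PERAV) : Stmt_COMBP := by
  intro O G B C Y K _ _ _ _ _ _ _ _ _ _ _ 𝔐 ℓ _ ι κ ρ hL Pr j p φ hE hT Φ hΦ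
  have hdown := DPC.COMBR.down (P := Subgroup K) (E := ℕ)
    (V := O → Set (B → (integralClosure ℤ ℂ) ⧸ 𝔐))
    ((ClCh O G ℓ).sigma (fun τ => Fintype.piFinset (fun o => irrOn (stb (comp τ o)))))
    (fun x => (-1 : ℚ) ^ x.1.card * ∏ o, (Nat.card (stb (comp x.1 o)) : ℚ))
    (fun x => KB κ p φ x.1 x.2)
    (fun x => ∑ o, df ℓ (stb (comp x.1 o)) (x.2 o))
    (fun x J => bts 𝔐 ι κ ρ p φ x.1 x.2 J)
    (fun J β o => trL 𝔐 ρ (vg ρ p φ J o) (β o))
    (fun β => ∃ o, gT ι Pr (β o))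
    (by
      rintro ⟨τ, θ⟩ hx J hJ
      rw [Finset.mem_sigma, Fintype.mem_piFinset] at hx
      funext o
      have hθ : ∀ o, IrrOn (stb (comp τ o)) (θ o) := fun o => COMB.irrOn_of_mem (hx.2 o)
      exact (h1 G B C 𝔐 ι κ ρ hL).2.2 (comp τ o) (θ o) (hθ o) _ _
        (DPC.COMBR.vg_mono ρ p φ hJ o)
        ((h2 O G B C Y K ℓ ι κ ρ hL j p φ hE τ hx.1 θ hθ).2.2.2.2 o))
    (by
      rintro J β ⟨o, ho⟩
      exact ⟨o, gT_trL 𝔐 hL.cl Pr _ _ ho⟩)
    (by
      intro J e0 β hβ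
      refine Eq.trans ?_ (hT J e0 β hβ)
      rw [Finset.sum_sigma]
      refine Finset.sum_congr rfl fun τ _ => ?_
      rw [← mul_assoc, Finset.mul_sum]
      refine Finset.sum_congr rfl fun θ _ => ?_
      congr 1
      exact DPC.COMBR.ite_dec _ _ _ _ _)
  have key := COMB.sum_vanish
    ((ClCh O G ℓ).sigma (fun τ => Fintype.piFinset (fun o => irrOn (stb (comp τ o)))))
    (fun x => (-1 : ℚ) ^ x.1.card * ∏ o, (Nat.card (stb (comp x.1 o)) : ℚ))
    (fun x => (KB κ p φ x.1 x.2, ∑ o, df ℓ (stb (comp x.1 o)) (x.2 o),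
      bts 𝔐 ι κ ρ p φ x.1 x.2 (KB κ p φ x.1 x.2)))
    (fun v : Subgroup K × ℕ × (O → Set (B → (integralClosure ℤ ℂ) ⧸ 𝔐)) => Φ v.1 v.2.1 v.2.2)
    (by
      rintro ⟨J, e0, β⟩ hv
      refine Eq.trans ?_ (hdown J e0 β (hΦ J e0 β hv))
      refine Finset.sum_congr rfl fun x _ => ?_
      congr 1
      by_cases h5 : (KB κ p φ x.1 x.2, ∑ o, df ℓ (stb (comp x.1 o)) (x.2 o),
        bts 𝔐 ι κ ρ p φ x.1 x.2 (KB κ p φ x.1 x.2)) = (J, e0, β)
      · rw [if_pos h5, if_pos (by simpa only [Prod.mk.injEq] using h5)]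
      · rw [if_neg h5, if_neg (fun h6 => h5 (by simpa only [Prod.mk.injEq] using h6))])
  rw [Finset.sum_sigma] at key
  refine Eq.trans ?_ key
  refine Finset.sum_congr rfl fun τ _ => ?_
  rw [← mul_assoc, Finset.mul_sum]

end Pool.Agent.DPW


end
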