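import Mathlib
import Pool.Agent.DAM.C11
import Pool.Agent.DAM.C14
import Pool.Agent.DAM.C22
import Pool.Agent.DAM.C23

/-! Parts: DPW.IDMB, DPX.IDX -/

section

/-!
# IDMB: existence of the block idempotent
-/

namespace Pool.Agent.DPW

open Pool.Agent.DP Pool.Agent.DPV Pool.Agent.DPB Pool.Agent.Lib_helper13 Representation

namespace IDMB

open Polynomial

section alg

variable {F T : Type} [Field F] [Group T] [Fintype T]

variable (F T) in
open Classical in
/-- The unit of the group algebra. -/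
noncomputable def dl (x : T) : F := if x = 1 then 1 else 0

omit [Fintype T] in
theorem dl_mem : dl F T ∈ CF F T := by
  classical
  intro g x
  unfold dl
  refine if_congr ?_ rfl rfl
  constructor
  · intro h
    have h1 : x = g⁻¹ * (g * x * g⁻¹) * g := by group
    rw [h1, h]
    group
  · rintro rfl
    group

theorem Lz_cvF (a b : T → F) : Lz (cvF a b) = Lz b * Lz a := by
  apply LinearMap.ext
  intro φ
  funext g
  show ∑ h, (∑ y, a y * b (y⁻¹ * h)) * φ (h * g) = ∑ h, b h * ∑ y, a y * φ (y * (h * g))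
  simp only [Finset.sum_mul, Finset.mul_sum]
  rw [Finset.sum_comm]
  rw [Finset.sum_comm (s := Finset.univ (α := T)) (t := Finset.univ (α := T))
    (f := fun h y => b h * (a y * φ (y * (h * g))))]
  refine Finset.sum_congr rfl fun y _ => ?_
  refine Fintype.sum_equiv (Equiv.mulLeft y⁻¹) _ _ fun h => ?_
  show a y * b (y⁻¹ * h) * φ (h * g) = b (y⁻¹ * h) * (a y * φ (y * (y⁻¹ * h * g)))
  have : y * (y⁻¹ * h * g) = h * g := by group
  rw [this]
  ring

theorem Lz_dl : Lz (dl F T) = 1 := by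
  classical
  apply LinearMap.ext
  intro φ
  funext g
  show ∑ h, dl F T h * φ (h * g) = φ g
  rw [Finset.sum_eq_single 1]
  · simp [dl]
  · intro b _ hb
    simp [dl, hb]
  · intro h
    exact absurd (Finset.mem_univ _) h

theorem Lz_apply_dl (a : T → F) (g : T) : Lz a (dl F T) g = a g⁻¹ := by
  classical
  rw [Lz_apply, Finset.sum_eq_single g⁻¹]
  · simp [dl]
  · intro b _ hb
    have : b * g ≠ 1 := fun h => hb (eq_inv_of_mul_eq_one_left h)
    simp [dl, this]
  · intro h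
    exact absurd (Finset.mem_univ _) h

theorem Lz_inj {a b : T → F} (h : Lz a (dl F T) = Lz b (dl F T)) : a = b := by
  funext x
  have h1 := congrFun h x⁻¹
  rwa [Lz_apply_dl, Lz_apply_dl, inv_inv] at h1

theorem Lz_add (a b : T → F) : Lz (a + b) = Lz a + Lz b := by
  apply LinearMap.ext
  intro φ
  funext g
  show ∑ h, (a h + b h) * φ (h * g) = ∑ h, a h * φ (h * g) + ∑ h, b h * φ (h * g)
  rw [← Finset.sum_add_distrib]
  exact Finset.sum_congr rfl fun h _ => add_mul _ _ _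

theorem Lz_smul (c : F) (a : T → F) : Lz (c • a) = c • Lz a := by
  apply LinearMap.ext
  intro φ
  funext g
  show ∑ h, (c * a h) * φ (h * g) = c * ∑ h, a h * φ (h * g)
  rw [Finset.mul_sum]
  exact Finset.sum_congr rfl fun h _ => mul_assoc _ _ _

theorem Lz_neg (a : T → F) : Lz ((-1 : F) • a) = -Lz a := by
  apply LinearMap.ext
  intro φ
  funext g
  show ∑ h, (-1 * a h) * φ (h * g) = -∑ h, a h * φ (h * g)
  rw [← Finset.sum_neg_distrib]
  exact Finset.sum_congr rfl fun h _ => by ring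

theorem cvF_mem {a b : T → F} (ha : a ∈ CF F T) (hb : b ∈ CF F T) : cvF a b ∈ CF F T := by
  intro g x
  show ∑ y, a y * b (y⁻¹ * (g * x * g⁻¹)) = ∑ y, a y * b (y⁻¹ * x)
  refine Fintype.sum_equiv (MulAut.conj g⁻¹).toEquiv _ _ fun y => ?_
  have h1 : (MulAut.conj g⁻¹).toEquiv y = g⁻¹ * y * g⁻¹⁻¹ := rfl
  rw [h1, ha]
  congr 1
  have h2 := hb g ((g⁻¹ * y * g⁻¹⁻¹)⁻¹ * x)
  rw [← h2]
  congr 1
  group

theorem cvF_comm (a : T → F) {b : T → F} (hb : b ∈ CF F T) : cvF a b = cvF b a := by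
  funext x
  show ∑ y, a y * b (y⁻¹ * x) = ∑ y, b y * a (y⁻¹ * x)
  refine Fintype.sum_equiv ((Equiv.inv T).trans (Equiv.mulLeft x)) _ _ fun y => ?_
  show a y * b (y⁻¹ * x) = b (x * y⁻¹) * a ((x * y⁻¹)⁻¹ * x)
  have h1 : (x * y⁻¹)⁻¹ * x = y := by group
  have h2 : b (x * y⁻¹) = b (y⁻¹ * x) := by
    rw [← hb y (y⁻¹ * x)]
    congr 1
    group
  rw [h1, h2]
  ring

theorem aeval_Lr {z : T → F} (hz : z ∈ CF F T) (p : F[X]) (φ : CF F T) :
    ((aeval (CHP.Lr hz) p φ : CF F T) : T → F) = aeval (Lz z) p (φ : T → F) := by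
  induction p using Polynomial.induction_on generalizing φ with
  | C c => simp
  | add p q hp hq => simp [hp, hq]
  | monomial n c ih =>
    have h1 : (C c * X ^ (n + 1) : F[X]) = C c * X ^ n * X := by rw [pow_succ, mul_assoc]
    have h2 : aeval (CHP.Lr hz) (C c * X ^ (n + 1)) =
        aeval (CHP.Lr hz) (C c * X ^ n) * CHP.Lr hz := by
      rw [h1, map_mul _ _ X, aeval_X]
    have h3 : aeval (Lz z) (C c * X ^ (n + 1)) = aeval (Lz z) (C c * X ^ n) * Lz z := by
      rw [h1, map_mul _ _ X, aeval_X]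
    rw [h2, h3, Module.End.mul_apply, Module.End.mul_apply, ih]
    rfl

/-- Polynomials in a class function. -/
theorem exists_aeval {z : T → F} (hz : z ∈ CF F T) {ι : Type} (lam : ι → (T → F) → F)
    (ladd : ∀ i a b, lam i (a + b) = lam i a + lam i b)
    (lsmul : ∀ i c a, lam i (c • a) = c * lam i a)
    (lone : ∀ i, lam i (dl F T) = 1)
    (lmul : ∀ i a b, a ∈ CF F T → b ∈ CF F T → lam i (cvF a b) = lam i a * lam i b) (Q : F[X]) :
    ∃ e ∈ CF F T, Lz e = aeval (Lz z) Q ∧ ∀ i, lam i e = Q.eval (lam i z) := by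
  induction Q using Polynomial.induction_on with
  | C c =>
    refine ⟨c • dl F T, (CF F T).smul_mem c dl_mem, ?_, fun i => ?_⟩
    · rw [Lz_smul, Lz_dl, aeval_C]
      rfl
    · rw [lsmul, lone, eval_C, mul_one]
  | add p q hp hq =>
    obtain ⟨e, he, he1, he2⟩ := hp
    obtain ⟨e', he', he1', he2'⟩ := hq
    refine ⟨e + e', (CF F T).add_mem he he', ?_, fun i => ?_⟩
    · rw [Lz_add, he1, he1', map_add]
    · rw [ladd, he2, he2', eval_add]
  | monomial n c ih =>
    obtain ⟨e, he, he1, he2⟩ := ih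
    refine ⟨cvF z e, cvF_mem hz he, ?_, fun i => ?_⟩
    · have h1 : (C c * X ^ (n + 1) : F[X]) = C c * X ^ n * X := by rw [pow_succ, mul_assoc]
      rw [Lz_cvF, he1, h1, map_mul _ _ X, aeval_X]
    · rw [lmul i z e hz he, he2]
      simp only [eval_mul, eval_C, eval_pow, eval_X]
      ring

end alg

section lam

variable {F T : Type} [Field F] [Group T] [Fintype T] (r : integralClosure ℤ ℂ →+* F)

open Classical in
/-- The residue in `F` of an algebraic integer (`0` for other complex numbers). -/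
noncomputable def ro (z : ℂ) : F := if h : IsIntegral ℤ z then r ⟨z, h⟩ else 0

theorem ro_of {z : ℂ} (h : IsIntegral ℤ z) : ro r z = r ⟨z, h⟩ := by
  unfold ro
  rw [dif_pos h]

theorem ro_coe (b : integralClosure ℤ ℂ) : ro r (b : ℂ) = r b := ro_of r b.2

theorem ro_mul {z w : ℂ} (hz : IsIntegral ℤ z) (hw : IsIntegral ℤ w) :
    ro r (z * w) = ro r z * ro r w := by
  rw [ro_of r hz, ro_of r hw, ro_of r (hz.mul hw), ← map_mul]
  rfl

theorem ro_add {z w : ℂ} (hz : IsIntegral ℤ z) (hw : IsIntegral ℤ w) :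
    ro r (z + w) = ro r z + ro r w := by
  rw [ro_of r hz, ro_of r hw, ro_of r (hz.add hw), ← map_add]
  rfl

theorem ro_zero : ro r 0 = 0 := by
  rw [ro_of r isIntegral_zero]
  exact map_zero r

theorem ro_one : ro r 1 = 1 := by
  rw [ro_of r isIntegral_one]
  exact map_one r

theorem ro_sum {ι : Type} (s : Finset ι) (f : ι → ℂ) (h : ∀ i ∈ s, IsIntegral ℤ (f i)) :
    ro r (∑ i ∈ s, f i) = ∑ i ∈ s, ro r (f i) := by
  classical
  induction s using Finset.induction_on with
  | empty => simp [ro_zero]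
  | insert a s ha ih =>
    rw [Finset.sum_insert ha, Finset.sum_insert ha, ro_add r (h a (Finset.mem_insert_self _ _))
      (isIntegral_sum s f fun i hi => h i (Finset.mem_insert_of_mem hi)),
      ih fun i hi => h i (Finset.mem_insert_of_mem hi)]

theorem red_eq_iff_ro {𝔐 : Ideal (integralClosure ℤ ℂ)} (hr : RingHom.ker r = 𝔐) {z w : ℂ}
    (hz : IsIntegral ℤ z) (hw : IsIntegral ℤ w) : red 𝔐 z = red 𝔐 w ↔ ro r z = ro r w := by
  rw [red_of_integral 𝔐 hz, red_of_integral 𝔐 hw, ro_of r hz, ro_of r hw, Ideal.Quotient.eq,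
    ← hr, RingHom.mem_ker, map_sub, sub_eq_zero]

open Classical in
/-- The indicator of a class. -/
noncomputable def ind (C : ConjClasses T) (y : T) : ℂ := if ConjClasses.mk y = C then 1 else 0

theorem ind_conj (C : ConjClasses T) (g x : T) : ind C (g * x * g⁻¹) = ind C x := by
  unfold ind
  rw [CHP.mk_conj']

theorem ind_int (C : ConjClasses T) (x : T) : IsIntegral ℤ (ind C x) := by
  unfold ind
  split_ifs
  · exact isIntegral_one
  · exact isIntegral_zero

theorem wt_ind_int {χ : T → ℂ} (hχ : IsIrr χ) (C : ConjClasses T) :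
    IsIntegral ℤ (wt χ (ind C)) :=
  isIntegral_wt hχ _ (ind_conj C) (ind_int C)

/-- The central character of `χ`, with values in `F`. -/
noncomputable def lam (χ : T → ℂ) (e : T → F) : F :=
  ∑ᶠ C : ConjClasses T, e (CHP.rp C) * ro r (wt χ (ind C))

theorem lam_eq [Fintype (ConjClasses T)] (χ : T → ℂ) (e : T → F) :
    lam r χ e = ∑ C : ConjClasses T, e (CHP.rp C) * ro r (wt χ (ind C)) := by
  unfold lam
  rw [finsum_eq_sum_of_fintype]

theorem lam_add (χ : T → ℂ) (a b : T → F) : lam r χ (a + b) = lam r χ a + lam r χ b := by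
  have : Fintype (ConjClasses T) := Fintype.ofFinite _
  rw [lam_eq, lam_eq, lam_eq, ← Finset.sum_add_distrib]
  exact Finset.sum_congr rfl fun C _ => add_mul _ _ _

theorem lam_smul (χ : T → ℂ) (c : F) (a : T → F) : lam r χ (c • a) = c * lam r χ a := by
  have : Fintype (ConjClasses T) := Fintype.ofFinite _
  rw [lam_eq, lam_eq, Finset.mul_sum]
  exact Finset.sum_congr rfl fun C _ => mul_assoc _ _ _

theorem lam_red {χ : T → ℂ} (hχ : IsIrr χ) (a : T → integralClosure ℤ ℂ)
    (ha : ∀ g x, a (g * x * g⁻¹) = a x) :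
    lam r χ (fun x => r (a x)) = ro r (wt χ fun h => (a h : ℂ)) := by
  classical
  have : Fintype (ConjClasses T) := Fintype.ofFinite _
  obtain ⟨A, hA⟩ := exists_lift_class (fun h => (a h : ℂ)) (fun g x => by rw [ha])
  have h1 : (fun h => (a h : ℂ)) = fun y => A (ConjClasses.mk (id y)) := by
    funext y
    exact (hA y).symm
  have h2 : ∀ C : ConjClasses T, A C = (a (CHP.rp C) : ℂ) := fun C => by
    rw [← hA (CHP.rp C), CHP.mk_rp]
  rw [lam_eq, h1, wt_comp_classes, ro_sum]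
  · refine Finset.sum_congr rfl fun C _ => ?_
    have e1 : (fun y : T => if ConjClasses.mk (id y) = C then (1 : ℂ) else 0) = ind C := rfl
    have e2 : IsIntegral ℤ (A C) := by
      rw [h2]
      exact (a (CHP.rp C)).2
    rw [e1, ro_mul r e2 (wt_ind_int hχ C), h2, ro_coe]
  · intro C _
    have e2 : IsIntegral ℤ (A C) := by
      rw [h2]
      exact (a (CHP.rp C)).2
    exact IsIntegral.mul e2 (wt_ind_int hχ C)

omit [Group T] [Fintype T] in
theorem exists_lift (hr : Function.Surjective r) (e : T → F) :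
    ∃ σ : F → integralClosure ℤ ℂ, ∀ x, r (σ (e x)) = e x := by
  choose σ hσ using hr
  exact ⟨σ, fun x => hσ _⟩

theorem cv_coe (a b : T → integralClosure ℤ ℂ) (x : T) :
    ((∑ y, a y * b (y⁻¹ * x) : integralClosure ℤ ℂ) : ℂ) =
      cvF (fun h => (a h : ℂ)) (fun h => (b h : ℂ)) x := by
  show _ = ∑ y, (a y : ℂ) * (b (y⁻¹ * x) : ℂ)
  push_cast
  rfl

theorem wt_cv {χ a b : T → ℂ} (hχ : IsIrr χ) (ha : a ∈ CF ℂ T) (hb : b ∈ CF ℂ T) :
    wt χ (cvF a b) = wt χ a * wt χ b := by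
  have hn : χ 1 ≠ 0 := IsIrr.one_ne_zero hχ
  have h1 : Lz (cvF a b) χ = (wt χ a * wt χ b) • χ := by
    rw [Lz_cvF, Module.End.mul_apply, CHP.eigen hχ ha, map_smul, CHP.eigen hχ hb, smul_smul]
  have h2 := congrFun (CHP.eigen hχ (cvF_mem ha hb)) 1
  rw [h1] at h2
  exact (mul_right_cancel₀ hn h2).symm

theorem lam_mul (hr : Function.Surjective r) {χ : T → ℂ} (hχ : IsIrr χ) {e e' : T → F}
    (he : e ∈ CF F T) (he' : e' ∈ CF F T) :
    lam r χ (cvF e e') = lam r χ e * lam r χ e' := by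
  choose σ hσ using hr
  let a : T → integralClosure ℤ ℂ := fun x => σ (e x)
  let b : T → integralClosure ℤ ℂ := fun x => σ (e' x)
  have ha : ∀ g x, a (g * x * g⁻¹) = a x := fun g x => congrArg σ (he g x)
  have hb : ∀ g x, b (g * x * g⁻¹) = b x := fun g x => congrArg σ (he' g x)
  have ea : e = fun x => r (a x) := funext fun x => (hσ _).symm
  have eb : e' = fun x => r (b x) := funext fun x => (hσ _).symm
  let c : T → integralClosure ℤ ℂ := fun x => ∑ y, a y * b (y⁻¹ * x)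
  have haC : (fun h => (a h : ℂ)) ∈ CF ℂ T := fun g x =>
    congrArg (fun t : integralClosure ℤ ℂ => (t : ℂ)) (ha g x)
  have hbC : (fun h => (b h : ℂ)) ∈ CF ℂ T := fun g x =>
    congrArg (fun t : integralClosure ℤ ℂ => (t : ℂ)) (hb g x)
  have hcc : (fun h => (c h : ℂ)) = cvF (fun h => (a h : ℂ)) (fun h => (b h : ℂ)) :=
    funext fun x => cv_coe a b x
  have hc : ∀ g x, c (g * x * g⁻¹) = c x := by
    intro g x
    apply Subtype.ext
    have h1 := congrFun hcc (g * x * g⁻¹)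
    have h2 := congrFun hcc x
    have h3 := cvF_mem haC hbC g x
    exact h1.trans (h3.trans h2.symm)
  have ec : cvF e e' = fun x => r (c x) := by
    funext x
    show ∑ y, e y * e' (y⁻¹ * x) = r (∑ y, a y * b (y⁻¹ * x))
    rw [map_sum]
    refine Finset.sum_congr rfl fun y _ => ?_
    rw [map_mul, ea, eb]
  rw [ec, lam_red r hχ c hc, hcc, wt_cv hχ haC hbC, ea, eb, lam_red r hχ a ha,
    lam_red r hχ b hb, ro_mul r]
  · exact isIntegral_wt hχ _ (fun g x => haC g x) fun y => (a y).2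
  · exact isIntegral_wt hχ _ (fun g x => hbC g x) fun y => (b y).2

theorem lam_dl {χ : T → ℂ} (hχ : IsIrr χ) : lam r χ (dl F T) = 1 := by
  classical
  let a : T → integralClosure ℤ ℂ := fun x => if x = 1 then 1 else 0
  have ha : ∀ g x, a (g * x * g⁻¹) = a x := by
    intro g x
    refine if_congr ?_ rfl rfl
    constructor
    · intro h
      have h1 : x = g⁻¹ * (g * x * g⁻¹) * g := by group
      rw [h1, h]
      group
    · rintro rfl
      group
  have h1 : dl F T = fun x => r (a x) := by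
    funext x
    show (if x = 1 then (1 : F) else 0) = r (if x = 1 then 1 else 0)
    split_ifs
    · exact (map_one r).symm
    · exact (map_zero r).symm
  rw [h1, lam_red r hχ a ha]
  have h2 : wt χ (fun h => (a h : ℂ)) = 1 := by
    unfold wt
    rw [Finset.sum_eq_single 1]
    · have : ((a 1 : integralClosure ℤ ℂ) : ℂ) = 1 := by simp [a]
      show ((a 1 : integralClosure ℤ ℂ) : ℂ) * χ 1 / χ 1 = 1
      rw [this, one_mul, div_self (IsIrr.one_ne_zero hχ)]
    · intro b _ hb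
      have : ((a b : integralClosure ℤ ℂ) : ℂ) = 0 := by simp [a, hb]
      show ((a b : integralClosure ℤ ℂ) : ℂ) * χ b = 0
      rw [this, zero_mul]
    · intro h
      exact absurd (Finset.mem_univ _) h
  rw [h2, ro_one]

theorem charpoly_lam (hr : Function.Surjective r) {e : T → F} (he : e ∈ CF F T) :
    (CHP.Lr he).charpoly = ∏ χ ∈ irrF T, (X - C (lam r χ e)) := by
  classical
  have : Fintype (ConjClasses T) := Fintype.ofFinite _
  choose σ hσ using hr
  let a : T → integralClosure ℤ ℂ := fun x => σ (e x)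
  have ha : ∀ g x, a (g * x * g⁻¹) = a x := fun g x => congrArg σ (he g x)
  have ea : e = fun x => r (a x) := funext fun x => (hσ _).symm
  have haC : (fun h => (a h : ℂ)) ∈ CF ℂ T := fun g x =>
    congrArg (fun t : integralClosure ℤ ℂ => (t : ℂ)) (ha g x)
  have hint : ∀ χ : irrF T, IsIntegral ℤ (wt χ.1 (fun h => (a h : ℂ))) := fun χ =>
    isIntegral_wt (mem_irrF.mp χ.2) (fun h => (a h : ℂ)) (fun g x => haC g x) fun y => (a y).2
  let b : irrF T → integralClosure ℤ ℂ := fun χ => ⟨_, hint χ⟩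
  have h1 : (CHP.mat a).charpoly = ∏ χ : irrF T, (X - C (b χ)) := by
    apply Polynomial.map_injective (algebraMap (integralClosure ℤ ℂ) ℂ)
      Subtype.val_injective
    rw [← Matrix.charpoly_map, CHP.mat_map]
    rw [Polynomial.map_prod]
    have h2 := CHP.charpoly_cpx haC
    refine Eq.trans h2 (Finset.prod_congr rfl fun χ _ => ?_)
    rw [Polynomial.map_sub, Polynomial.map_X, Polynomial.map_C]
    rfl
  rw [CHP.charpoly_Lr he, ea, ← CHP.mat_map r a, Matrix.charpoly_map, h1, Polynomial.map_prod,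
    ← Finset.prod_coe_sort (irrF T)]
  refine Finset.prod_congr rfl fun χ _ => ?_
  rw [Polynomial.map_sub, Polynomial.map_X, Polynomial.map_C, lam_red r (mem_irrF.mp χ.2) a ha,
    ro_of r (hint χ)]

end lam

section main

variable {F T : Type} [Field F] [Group T] [Fintype T] (r : integralClosure ℤ ℂ →+* F)

/-- an element of the centre of the group algebra with nonzero central characters is a unit -/
theorem exists_inv (hr : Function.Surjective r) {w : T → F} (hw : w ∈ CF F T)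
    (h : ∀ χ ∈ irrF T, lam r χ w ≠ 0) : ∃ w' ∈ CF F T, cvF w w' = dl F T := by
  classical
  have h1 : LinearMap.det (CHP.Lr hw) ≠ 0 := by
    rw [LinearMap.det_eq_sign_charpoly_coeff, charpoly_lam r hr hw]
    refine mul_ne_zero (pow_ne_zero _ (neg_ne_zero.2 one_ne_zero)) ?_
    rw [coeff_zero_eq_eval_zero, eval_prod]
    refine Finset.prod_ne_zero_iff.2 fun χ hχ => ?_
    rw [eval_sub, eval_X, eval_C, zero_sub]
    exact neg_ne_zero.2 (h χ hχ)
  have h2 : Function.Surjective (CHP.Lr hw) := by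
    have h3 : IsUnit (CHP.Lr hw) := by
      rw [LinearMap.isUnit_iff_isUnit_det]
      exact isUnit_iff_ne_zero.2 h1
    exact ((Module.End.isUnit_iff _).1 h3).2
  obtain ⟨φ, hφ⟩ := h2 ⟨dl F T, dl_mem⟩
  have hφ' : Lz w (φ : T → F) = dl F T := congrArg Subtype.val hφ
  have hφc := φ.2
  refine ⟨fun x => (φ : T → F) x⁻¹, fun g x => ?_, ?_⟩
  · show (φ : T → F) (g * x * g⁻¹)⁻¹ = (φ : T → F) x⁻¹
    rw [← hφc g x⁻¹]
    group
  · funext x
    show ∑ y, w y * (φ : T → F) (y⁻¹ * x)⁻¹ = dl F T x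
    have h4 := congrFun hφ' x⁻¹
    rw [Lz_apply] at h4
    have h5 : dl F T x⁻¹ = dl F T x := by
      unfold dl
      simp only [inv_eq_one]
    rw [h5] at h4
    rw [← h4]
    refine Finset.sum_congr rfl fun y _ => ?_
    congr 1
    rw [← hφc y⁻¹ (y * x⁻¹)]
    group

end main

end IDMB

open _root_.Pool.Agent.DPW.IDMB in
theorem IDMB_thm : Stmt_IDMB := by
  classical
  intro F T _ _ _ 𝔐 ℓ _ h𝔐 _ r hr hker χ₀ hχ₀
  obtain ⟨a₀, ha₀, hsep⟩ := SEP_thm ACF_thm T 𝔐 h𝔐
  let z : T → F := fun x => r (a₀ x)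
  have hz : z ∈ CF F T := fun g x => congrArg r (ha₀ g x)
  have hcoe : ∀ a : T → integralClosure ℤ ℂ, (∀ g x, a (g * x * g⁻¹) = a x) →
      ∀ χ : T → ℂ, IsIrr χ → IsIntegral ℤ (wt χ (fun h => (a h : ℂ))) := fun a ha χ hχ =>
    isIntegral_wt hχ _ (fun g x => congrArg (fun t : integralClosure ℤ ℂ => (t : ℂ)) (ha g x))
      fun y => (a y).2
  have hlamz : ∀ χ : T → ℂ, IsIrr χ → lam r χ z = ro r (wt χ fun h => (a₀ h : ℂ)) :=
    fun χ hχ => lam_red r hχ a₀ ha₀
  have hsep' : ∀ χ χ' : T → ℂ, IsIrr χ → IsIrr χ' →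
      (cen 𝔐 (MonoidHom.id T) χ = cen 𝔐 (MonoidHom.id T) χ' ↔ lam r χ z = lam r χ' z) := by
    intro χ χ' hχ hχ'
    rw [hsep χ χ' hχ hχ', hlamz χ hχ, hlamz χ' hχ']
    exact red_eq_iff_ro r hker (hcoe a₀ ha₀ χ hχ) (hcoe a₀ ha₀ χ' hχ')
  -- the interpolating polynomial
  let B : Finset (T → ℂ) := (irrF T).filter fun χ =>
    cen 𝔐 (MonoidHom.id T) χ = cen 𝔐 (MonoidHom.id T) χ₀
  let B' : Finset (T → ℂ) := (irrF T).filter fun χ =>
    ¬ cen 𝔐 (MonoidHom.id T) χ = cen 𝔐 (MonoidHom.id T) χ₀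
  let P1 : Polynomial F := ∏ χ ∈ B, (Polynomial.X - Polynomial.C (lam r χ z))
  let P2 : Polynomial F := ∏ χ ∈ B', (Polynomial.X - Polynomial.C (lam r χ z))
  have hcop : IsCoprime P1 P2 := by
    refine IsCoprime.prod_left fun χ hχ => IsCoprime.prod_right fun χ' hχ' => ?_
    obtain ⟨h1, h2⟩ := Finset.mem_filter.1 hχ
    obtain ⟨h1', h2'⟩ := Finset.mem_filter.1 hχ'
    refine Polynomial.isCoprime_X_sub_C_of_isUnit_sub ?_
    rw [isUnit_iff_ne_zero, sub_ne_zero]
    intro h3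
    refine h2' ?_
    rw [← h2]
    exact ((hsep' χ χ' (mem_irrF.1 h1) (mem_irrF.1 h1')).2 h3).symm
  have hP : (CHP.Lr hz).charpoly = P1 * P2 := by
    rw [charpoly_lam r hr hz]
    exact (Finset.prod_filter_mul_prod_filter_not (irrF T) _ _).symm
  obtain ⟨u, v, huv⟩ := hcop
  have hQ1 : ∀ χ : T → ℂ, IsIrr χ →
      cen 𝔐 (MonoidHom.id T) χ = cen 𝔐 (MonoidHom.id T) χ₀ →
      (v * P2).eval (lam r χ z) = 1 := by
    intro χ hχ h
    have h1 : P1.eval (lam r χ z) = 0 := by
      rw [Polynomial.eval_prod]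
      refine Finset.prod_eq_zero (i := χ) (Finset.mem_filter.2 ⟨mem_irrF.2 hχ, h⟩) ?_
      simp
    have h2 := congrArg (Polynomial.eval (lam r χ z)) huv
    rw [Polynomial.eval_add, Polynomial.eval_mul, h1, mul_zero, zero_add,
      Polynomial.eval_one] at h2
    exact h2
  have hQ0 : ∀ χ : T → ℂ, IsIrr χ →
      cen 𝔐 (MonoidHom.id T) χ ≠ cen 𝔐 (MonoidHom.id T) χ₀ →
      (v * P2).eval (lam r χ z) = 0 := by
    intro χ hχ h
    have h1 : P2.eval (lam r χ z) = 0 := by
      rw [Polynomial.eval_prod]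
      refine Finset.prod_eq_zero (i := χ) (Finset.mem_filter.2 ⟨mem_irrF.2 hχ, h⟩) ?_
      simp
    rw [Polynomial.eval_mul, h1, mul_zero]
  -- the idempotent
  obtain ⟨e, he, heL, hel⟩ := exists_aeval hz (ι := {χ : T → ℂ // IsIrr χ})
    (fun χ e => lam r χ.1 e) (fun χ a b => lam_add r χ.1 a b) (fun χ c a => lam_smul r χ.1 c a)
    (fun χ => lam_dl r χ.2) (fun χ a b ha hb => lam_mul r hr χ.2 ha hb) (v * P2)
  have hidem : cvF e e = e := by
    apply Lz_inj
    rw [Lz_cvF, heL, ← map_mul]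
    have h1 : v * P2 * (v * P2) = v * P2 - (u * v) * (CHP.Lr hz).charpoly := by
      rw [hP]
      linear_combination (v * P2) * huv
    rw [h1, map_sub, LinearMap.sub_apply]
    have h2 : (Polynomial.aeval (Lz z) (u * v * (CHP.Lr hz).charpoly)) (dl F T) = 0 := by
      have h3 := aeval_Lr hz (u * v * (CHP.Lr hz).charpoly) ⟨dl F T, dl_mem⟩
      rw [← h3, map_mul _ (u * v), LinearMap.aeval_self_charpoly, mul_zero]
      rfl
    rw [h2, sub_zero]
  choose σ hσ using hr
  have hr : Function.Surjective r := fun x => ⟨σ x, hσ x⟩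
  let a : T → integralClosure ℤ ℂ := fun x => σ (e x)
  have ha : ∀ g x, a (g * x * g⁻¹) = a x := fun g x => congrArg σ (he g x)
  have hae : (fun x => r (a x)) = e := funext fun x => hσ _
  have hval : ∀ χ : T → ℂ, IsIrr χ → ro r (wt χ fun h => (a h : ℂ)) = lam r χ e := by
    intro χ hχ
    rw [← lam_red r hχ a ha, hae]
  refine ⟨a, ha, ?_, ?_, ?_, ?_⟩
  · rw [hae, hidem]
  · intro χ hχ h
    rw [← red_one 𝔐, red_eq_iff_ro r hker (hcoe a ha χ hχ) isIntegral_one, hval χ hχ, ro_one]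
    exact (hel ⟨χ, hχ⟩).trans (hQ1 χ hχ h)
  · intro χ hχ h
    rw [← red_zero 𝔐, red_eq_iff_ro r hker (hcoe a ha χ hχ) isIntegral_zero, hval χ hχ, ro_zero]
    exact (hel ⟨χ, hχ⟩).trans (hQ0 χ hχ h)
  · intro x₀ hx₀
    rw [hae]
    -- the class sum
    let c : T → F := clsF F x₀
    let cO : T → integralClosure ℤ ℂ := fun x => if ∃ g, x = g * x₀ * g⁻¹ then 1 else 0
    have hcO : ∀ g x, cO (g * x * g⁻¹) = cO x := by
      intro g x
      refine if_congr ?_ rfl rfl
      constructor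
      · rintro ⟨h, hh⟩
        refine ⟨g⁻¹ * h, ?_⟩
        have h1 : x = g⁻¹ * (g * x * g⁻¹) * g := by group
        rw [h1, hh]
        group
      · rintro ⟨h, rfl⟩
        exact ⟨g * h, by group⟩
    have hcc : c = fun x => r (cO x) := by
      funext x
      show c x = r (cO x)
      by_cases hx : ∃ g, x = g * x₀ * g⁻¹
      · have h1 : c x = 1 := if_pos hx
        have h2 : cO x = 1 := if_pos hx
        rw [h1, h2, map_one]
      · have h1 : c x = 0 := if_neg hx
        have h2 : cO x = 0 := if_neg hx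
        rw [h1, h2, map_zero]
    have hc : c ∈ CF F T := by
      intro g x
      rw [hcc]
      exact congrArg r (hcO g x)
    have hcint : (fun h => ((cO h : integralClosure ℤ ℂ) : ℂ)) =
        fun y => conjInd (MonoidHom.id T y) x₀ := by
      funext y
      show ((cO y : integralClosure ℤ ℂ) : ℂ) = conjInd y x₀
      have h1 : (∃ g, y = g * x₀ * g⁻¹) ↔ IsConj y x₀ := by
        constructor
        · rintro ⟨g, rfl⟩
          exact (isConj_iff.2 ⟨g, rfl⟩).symm
        · intro h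
          obtain ⟨g, hg⟩ := isConj_iff.1 h.symm
          exact ⟨g, hg.symm⟩
      by_cases h2 : IsConj y x₀
      · have h3 : conjInd y x₀ = 1 := if_pos h2
        have h4 : cO y = 1 := if_pos (h1.2 h2)
        rw [h3, h4]
        rfl
      · have h3 : conjInd y x₀ = 0 := if_neg h2
        have h4 : cO y = 0 := if_neg (fun h => h2 (h1.1 h))
        rw [h3, h4]
        rfl
    have hlamc : ∀ χ : T → ℂ, IsIrr χ →
        cen 𝔐 (MonoidHom.id T) χ = cen 𝔐 (MonoidHom.id T) χ₀ → lam r χ c ≠ 0 := by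
      intro χ hχ h
      have h1 := hcoe cO hcO χ hχ
      rw [hcc, lam_red r hχ cO hcO]
      intro h2
      have h3 : red 𝔐 (wt χ fun h => ((cO h : integralClosure ℤ ℂ) : ℂ)) = red 𝔐 0 :=
        (red_eq_iff_ro r hker h1 isIntegral_zero).2 (by rw [h2, ro_zero])
      rw [red_zero, hcint] at h3
      apply hx₀
      rw [← h]
      exact h3
    -- the unit
    let w : T → F := cvF c e + (dl F T + (-1 : F) • e)
    have hce : cvF c e ∈ CF F T := cvF_mem hc he
    have hw : w ∈ CF F T :=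
      (CF F T).add_mem hce ((CF F T).add_mem dl_mem ((CF F T).smul_mem _ he))
    have hlw : ∀ χ ∈ irrF T, lam r χ w ≠ 0 := by
      intro χ hχ
      have hχ' := mem_irrF.1 hχ
      have h1 : lam r χ w = lam r χ c * lam r χ e + (1 + (-1) * lam r χ e) := by
        show lam r χ (cvF c e + (dl F T + (-1 : F) • e)) = _
        rw [lam_add, lam_add, lam_smul, lam_mul r hr hχ' hc he, lam_dl r hχ']
      have h2 : lam r χ e = (v * P2).eval (lam r χ z) := hel ⟨χ, hχ'⟩
      by_cases h3 : cen 𝔐 (MonoidHom.id T) χ = cen 𝔐 (MonoidHom.id T) χ₀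
      · rw [h1, h2, hQ1 χ hχ' h3]
        simpa using hlamc χ hχ' h3
      · rw [h1, h2, hQ0 χ hχ' h3]
        simp
    obtain ⟨w', hw', hww⟩ := exists_inv r hr hw hlw
    refine ⟨cvF e w', cvF_mem he hw', ?_⟩
    apply Lz_inj
    have hE : Lz e * Lz e = Lz e := by rw [← Lz_cvF, hidem]
    have hW : Lz w' * Lz w = 1 := by rw [← Lz_cvF, hww, Lz_dl]
    have hcomm : Lz e * Lz c = Lz c * Lz e := by
      rw [← Lz_cvF, ← Lz_cvF, cvF_comm c he]
    have hwL : Lz w = Lz e * Lz c + (1 - Lz e) := by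
      show Lz (cvF c e + (dl F T + (-1 : F) • e)) = _
      rw [Lz_add, Lz_add, Lz_neg, Lz_dl, Lz_cvF, sub_eq_add_neg]
    have h4 : Lz w * Lz e = Lz e * Lz c := by
      rw [hwL, add_mul, sub_mul, one_mul, hE, sub_self, add_zero, mul_assoc, ← hcomm,
        ← mul_assoc, hE]
    have h5 : Lz (cvF c (cvF e w')) = Lz e := by
      rw [Lz_cvF, Lz_cvF, mul_assoc, ← h4, ← mul_assoc, hW, one_mul]
    exact congrArg (fun A : Module.End F (T → F) => A (dl F T)) h5.symm

end Pool.Agent.DPW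


end

section

/-!
# Theorem X: the block idempotent
-/

namespace Pool.Agent.DPX

open Pool.Agent.DP Pool.Agent.DPB Pool.Agent.DPV Pool.Agent.DPW Pool.Agent.Lib_helper13
  Representation

namespace IDX

open Polynomial Pool.Agent.DPW.IDMB

section lam

variable {F T : Type} [Field F] [Group T] [Fintype T] (r : integralClosure ℤ ℂ →+* F)

/-- An idempotent whose central characters all vanish is zero. -/
theorem zero_of_lam (hr : Function.Surjective r) {f : T → F} (hf : f ∈ CF F T)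
    (hff : cvF f f = f) (h : ∀ χ ∈ irrF T, lam r χ f = 0) : f = 0 := by
  have h1 : (CHP.Lr hf).charpoly = X ^ (irrF T).card := by
    rw [charpoly_lam r hr hf]
    rw [← Finset.prod_const]
    refine Finset.prod_congr rfl fun χ hχ => ?_
    rw [h χ hχ, map_zero, sub_zero]
  have h2 : aeval (CHP.Lr hf) (X ^ (irrF T).card : F[X]) = 0 := by
    rw [← h1]
    exact LinearMap.aeval_self_charpoly (CHP.Lr hf)
  have h3 := aeval_Lr hf (X ^ (irrF T).card : F[X]) ⟨dl F T, dl_mem⟩
  rw [h2, map_pow, aeval_X] at h3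
  have h4 : ((Lz f) ^ (irrF T).card) (dl F T) = 0 := h3.symm
  have h5 : IsIdempotentElem (Lz f) := by
    show Lz f * Lz f = Lz f
    rw [← Lz_cvF, hff]
  have h6 : (Lz f) ^ ((irrF T).card + 1) = Lz f := h5.pow_succ_eq _
  have h7 : Lz f (dl F T) = 0 := by
    rw [← h6, pow_succ', Module.End.mul_apply, h4, map_zero]
  funext x
  have h8 := congrFun h7 x⁻¹
  rwa [Lz_apply_dl, inv_inv] at h8

/-- An idempotent is determined by its central characters. -/
theorem le_of_lam (hr : Function.Surjective r) {f f' : T → F} (hf : f ∈ CF F T)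
    (hff : cvF f f = f) (hf' : f' ∈ CF F T) (hff' : cvF f' f' = f')
    (h : ∀ χ ∈ irrF T, lam r χ f = lam r χ f') : f = cvF f f' := by
  have hm : cvF f f' ∈ CF F T := cvF_mem hf hf'
  have hA : Lz f * Lz f = Lz f := by rw [← Lz_cvF, hff]
  have hB : Lz f' * Lz f' = Lz f' := by rw [← Lz_cvF, hff']
  have hAB : Lz f * Lz f' = Lz f' * Lz f := by
    rw [← Lz_cvF, ← Lz_cvF, cvF_comm f hf']
  have hg : f + (-1 : F) • cvF f f' = 0 := by
    refine zero_of_lam r hr ((CF F T).add_mem hf ((CF F T).smul_mem _ hm)) ?_ ?_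
    · apply Lz_inj
      have hL : Lz (f + (-1 : F) • cvF f f') = Lz f - Lz f' * Lz f := by
        rw [Lz_add, Lz_neg, Lz_cvF, sub_eq_add_neg]
      have hid : Lz (f + (-1 : F) • cvF f f') * Lz (f + (-1 : F) • cvF f f') =
          Lz (f + (-1 : F) • cvF f f') := by
        rw [hL, sub_mul, mul_sub, mul_sub, hA]
        have e1 : Lz f * (Lz f' * Lz f) = Lz f' * Lz f := by
          rw [← mul_assoc, hAB, mul_assoc, hA]
        have e2 : Lz f' * Lz f * Lz f = Lz f' * Lz f := by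
          rw [mul_assoc, hA]
        have e3 : Lz f' * Lz f * (Lz f' * Lz f) = Lz f' * Lz f := by
          rw [mul_assoc, e1, ← mul_assoc, hB]
        rw [e1, e2, e3, sub_self, sub_zero]
      rw [Lz_cvF, hid]
    · intro χ hχ
      have hχ' := mem_irrF.1 hχ
      have e1 : lam r χ f * lam r χ f = lam r χ f := by
        rw [← lam_mul r hr hχ' hf hf, hff]
      rw [lam_add, lam_smul, lam_mul r hr hχ' hf hf', ← h χ hχ, e1]
      ring
  have h1 : f = f + (-1 : F) • cvF f f' + cvF f f' := by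
    funext x
    show f x = f x + (-1) * cvF f f' x + cvF f f' x
    ring
  rw [hg, zero_add] at h1
  exact h1

theorem eq_of_lam (hr : Function.Surjective r) {f f' : T → F} (hf : f ∈ CF F T)
    (hff : cvF f f = f) (hf' : f' ∈ CF F T) (hff' : cvF f' f' = f')
    (h : ∀ χ ∈ irrF T, lam r χ f = lam r χ f') : f = f' := by
  rw [le_of_lam r hr hf hff hf' hff' h, cvF_comm f hf']
  exact (le_of_lam r hr hf' hff' hf hff fun χ hχ => (h χ hχ).symm).symm

theorem ind_eq (C : ConjClasses T) :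
    (ind C : T → ℂ) = fun y => conjInd (MonoidHom.id T y) (CHP.rp C) := by
  classical
  funext y
  have h1 : ConjClasses.mk y = C ↔ IsConj y (CHP.rp C) := by
    rw [← ConjClasses.mk_eq_mk_iff_isConj, CHP.mk_rp]
  show ind C y = conjInd y (CHP.rp C)
  by_cases h2 : ConjClasses.mk y = C
  · have h3 : ind C y = 1 := if_pos h2
    have h4 : conjInd y (CHP.rp C) = 1 := if_pos (h1.1 h2)
    rw [h3, h4]
  · have h3 : ind C y = 0 := if_neg h2
    have h4 : conjInd y (CHP.rp C) = 0 := if_neg fun h => h2 (h1.2 h)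
    rw [h3, h4]

theorem ro_cen {𝔐 : Ideal (integralClosure ℤ ℂ)} (hker : RingHom.ker r = 𝔐) {χ : T → ℂ}
    (hχ : IsIrr χ) (C : ConjClasses T) (h : ro r (wt χ (ind C)) ≠ 0) :
    cen 𝔐 (MonoidHom.id T) χ (CHP.rp C) ≠ 0 := by
  intro h1
  apply h
  have h2 : red 𝔐 (wt χ (ind C)) = red 𝔐 0 := by
    rw [red_zero, ind_eq]
    exact h1
  rw [(red_eq_iff_ro r hker (wt_ind_int hχ C) isIntegral_zero).1 h2, ro_zero]

theorem lam_cen {𝔐 : Ideal (integralClosure ℤ ℂ)} (hker : RingHom.ker r = 𝔐) {χ χ' : T → ℂ}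
    (hχ : IsIrr χ) (hχ' : IsIrr χ')
    (h : cen 𝔐 (MonoidHom.id T) χ = cen 𝔐 (MonoidHom.id T) χ') (e : T → F) :
    lam r χ e = lam r χ' e := by
  have : Fintype (ConjClasses T) := Fintype.ofFinite _
  rw [lam_eq, lam_eq]
  refine Finset.sum_congr rfl fun C _ => ?_
  congr 1
  rw [← red_eq_iff_ro r hker (wt_ind_int hχ C) (wt_ind_int hχ' C), ind_eq]
  exact congrFun h (CHP.rp C)

end lam

section grp

/-- Two conjugate elements have centralizers of the same order. -/
theorem card_cen {T : Type} [Group T] [Finite T] (g x : T) :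
    Nat.card (Subgroup.centralizer ({g * x * g⁻¹} : Set T)) =
      Nat.card (Subgroup.centralizer ({x} : Set T)) := by
  refine Nat.card_congr
    { toFun := fun u => ⟨g⁻¹ * u * g, ?_⟩
      invFun := fun u => ⟨g * u * g⁻¹, ?_⟩
      left_inv := ?_
      right_inv := ?_ }
  · have h := u.2
    rw [Subgroup.mem_centralizer_singleton_iff] at h ⊢
    have h1 : g⁻¹ * (u : T) * g * x = g⁻¹ * ((u : T) * (g * x * g⁻¹)) * g := by group
    rw [h1, h]
    group
  · have h := u.2
    rw [Subgroup.mem_centralizer_singleton_iff] at h ⊢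
    have h1 : g * (u : T) * g⁻¹ * (g * x * g⁻¹) = g * ((u : T) * x) * g⁻¹ := by group
    rw [h1, h]
    group
  · intro u
    apply Subtype.ext
    show g * (g⁻¹ * (u : T) * g) * g⁻¹ = u
    group
  · intro u
    apply Subtype.ext
    show g⁻¹ * (g * (u : T) * g⁻¹) * g = u
    group

/-- The Sylow subgroup is conjugate to the defect group. -/
theorem move {ℓ n : ℕ} [hp : Fact ℓ.Prime] {T : Type} [Group T] [Finite T]
    (P : Subgroup T) (hP : Nat.card P = ℓ ^ n) (h : T)
    (hn : ℓ ^ n ∣ Nat.card (Subgroup.centralizer ({h} : Set T)))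
    (hc : ∀ Q : Subgroup T, IsPGroup ℓ Q → (∀ u ∈ Q, u * h = h * u) →
      ∃ t : T, ∀ u ∈ Q, t * u * t⁻¹ ∈ P) :
    ¬ ℓ ^ (n + 1) ∣ Nat.card (Subgroup.centralizer ({h} : Set T)) ∧
      ∃ t : T, ∀ u ∈ P, u * (t * h * t⁻¹) = t * h * t⁻¹ * u := by
  classical
  have key : ∀ k : ℕ, ℓ ^ k ∣ Nat.card (Subgroup.centralizer ({h} : Set T)) →
      ∃ (Q : Subgroup T) (t : T), Nat.card Q = ℓ ^ k ∧ (∀ u ∈ Q, u * h = h * u) ∧
        (∀ u ∈ Q, t * u * t⁻¹ ∈ P) ∧ Q.map (MulAut.conj t).toMonoidHom ≤ P := by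
    intro k hk
    obtain ⟨R, hR⟩ := Sylow.exists_subgroup_card_pow_prime ℓ hk
    let Q : Subgroup T := R.map (Subgroup.centralizer ({h} : Set T)).subtype
    have hQc : Nat.card Q = ℓ ^ k := by
      rw [← hR]
      exact (Nat.card_congr (R.equivMapOfInjective _ (Subgroup.subtype_injective _)).toEquiv).symm
    have hQh : ∀ u ∈ Q, u * h = h * u := by
      rintro u ⟨v, _, rfl⟩
      exact Subgroup.mem_centralizer_singleton_iff.1 v.2
    obtain ⟨t, ht⟩ := hc Q (IsPGroup.of_card hQc) hQh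
    refine ⟨Q, t, hQc, hQh, ht, ?_⟩
    rintro _ ⟨u, hu, rfl⟩
    exact ht u hu
  constructor
  · intro hk
    obtain ⟨Q, t, hQ, _, _, hle⟩ := key _ hk
    have h1 := Subgroup.card_le_of_le hle
    have h2 : Nat.card (Q.map (MulAut.conj t).toMonoidHom) = Nat.card Q :=
      (Nat.card_congr (Q.equivMapOfInjective _ (MulAut.conj t).injective).toEquiv).symm
    rw [h2, hQ, hP] at h1
    have h3 := Nat.pow_lt_pow_right hp.out.one_lt (Nat.lt_succ_self n)
    exact absurd h1 (not_le.2 h3)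
  · obtain ⟨Q, t, hQ, hQh, _, hle⟩ := key _ hn
    have h2 : Nat.card (Q.map (MulAut.conj t).toMonoidHom) = Nat.card Q :=
      (Nat.card_congr (Q.equivMapOfInjective _ (MulAut.conj t).injective).toEquiv).symm
    have h3 : Q.map (MulAut.conj t).toMonoidHom = P := by
      apply Subgroup.eq_of_le_of_card_ge hle
      rw [h2, hQ, hP]
    refine ⟨t, fun u hu => ?_⟩
    rw [← h3] at hu
    obtain ⟨v, hv, rfl⟩ := hu
    show t * v * t⁻¹ * (t * h * t⁻¹) = t * h * t⁻¹ * (t * v * t⁻¹)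
    have h4 : t * v * t⁻¹ * (t * h * t⁻¹) = t * (v * h) * t⁻¹ := by group
    rw [h4, hQh v hv]
    group

end grp

end IDX

open _root_.Pool.Agent.DPX.IDX Pool.Agent.DPW.IDMB in
theorem IDX_thm (h1 : Stmt_SUPX) : Stmt_IDX := by
  classical
  intro F T _ _ _ 𝔐 ℓ hℓ h𝔐 hℓ𝔐 r hr hker χ₀ hχ₀
  obtain ⟨a, ha, hid, hin, hout, hfac⟩ := IDMB_thm F T 𝔐 ℓ h𝔐 hℓ𝔐 r hr hker χ₀ hχ₀
  have hchar : CharP F ℓ := by
    rw [CharP.charP_iff_prime_eq_zero hℓ.out]
    have h2 : r (ℓ : integralClosure ℤ ℂ) = 0 := by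
      rw [← RingHom.mem_ker, hker]
      exact hℓ𝔐
    rwa [map_natCast] at h2
  have hcoe : ∀ b : T → integralClosure ℤ ℂ, (∀ g x, b (g * x * g⁻¹) = b x) →
      ∀ χ : T → ℂ, IsIrr χ → IsIntegral ℤ (wt χ (fun h => (b h : ℂ))) := fun b hb χ hχ =>
    isIntegral_wt hχ _ (fun g x => congrArg (fun t : integralClosure ℤ ℂ => (t : ℂ)) (hb g x))
      fun y => (b y).2
  let e : T → F := fun x => r (a x)
  have he : e ∈ CF F T := fun g x => congrArg r (ha g x)
  have hee : cvF e e = e := hid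
  have hlin : ∀ χ : T → ℂ, IsIrr χ → cen 𝔐 (MonoidHom.id T) χ = cen 𝔐 (MonoidHom.id T) χ₀ →
      lam r χ e = 1 := by
    intro χ hχ h
    have h2 : red 𝔐 (wt χ (fun h => (a h : ℂ))) = red 𝔐 1 := by
      rw [red_one]
      exact hin χ hχ h
    have h3 := (red_eq_iff_ro r hker (hcoe a ha χ hχ) isIntegral_one).1 h2
    rw [ro_one] at h3
    exact (lam_red r hχ a ha).trans h3
  have hlout : ∀ χ : T → ℂ, IsIrr χ → cen 𝔐 (MonoidHom.id T) χ ≠ cen 𝔐 (MonoidHom.id T) χ₀ →
      lam r χ e = 0 := by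
    intro χ hχ h
    have h2 : red 𝔐 (wt χ (fun h => (a h : ℂ))) = red 𝔐 0 := by
      rw [red_zero]
      exact hout χ hχ h
    have h3 := (red_eq_iff_ro r hker (hcoe a ha χ hχ) isIntegral_zero).1 h2
    rw [ro_zero] at h3
    exact (lam_red r hχ a ha).trans h3
  have hprm : Prm e := by
    refine ⟨he, hee, ?_, ?_⟩
    · intro h0
      have h2 := hlin χ₀ hχ₀ rfl
      have h3 : lam r χ₀ e = 0 := by
        have : Fintype (ConjClasses T) := Fintype.ofFinite _
        rw [h0, lam_eq]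
        refine Finset.sum_eq_zero fun C _ => ?_
        show (0 : F) * _ = 0
        rw [zero_mul]
      rw [h3] at h2
      exact zero_ne_one h2
    · intro f hf hff hef
      have hlf : ∀ χ : T → ℂ, IsIrr χ → lam r χ f * lam r χ f = lam r χ f := by
        intro χ hχ
        rw [← lam_mul r hr hχ hf hf, hff]
      have hlef : ∀ χ : T → ℂ, IsIrr χ → lam r χ f = lam r χ e * lam r χ f := by
        intro χ hχ
        rw [← lam_mul r hr hχ he hf, hef]
      have h01 : lam r χ₀ f = 0 ∨ lam r χ₀ f = 1 := by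
        have h2 : lam r χ₀ f * (lam r χ₀ f - 1) = 0 := by
          linear_combination hlf χ₀ hχ₀
        rcases mul_eq_zero.1 h2 with h3 | h3
        · exact Or.inl h3
        · exact Or.inr (sub_eq_zero.1 h3)
      rcases h01 with h0 | h0
      · left
        refine zero_of_lam r hr hf hff fun χ hχ => ?_
        have hχ' := mem_irrF.1 hχ
        by_cases hb : cen 𝔐 (MonoidHom.id T) χ = cen 𝔐 (MonoidHom.id T) χ₀
        · rw [lam_cen r hker hχ' hχ₀ hb f, h0]
        · rw [hlef χ hχ', hlout χ hχ' hb, zero_mul]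
      · right
        refine eq_of_lam r hr hf hff he hee fun χ hχ => ?_
        have hχ' := mem_irrF.1 hχ
        by_cases hb : cen 𝔐 (MonoidHom.id T) χ = cen 𝔐 (MonoidHom.id T) χ₀
        · rw [lam_cen r hker hχ' hχ₀ hb f, h0, hlin χ hχ' hb]
        · rw [hlef χ hχ', hlout χ hχ' hb, zero_mul]
  have hexh : ∃ h, r (a h) ≠ 0 ∧ cen 𝔐 (MonoidHom.id T) χ₀ h ≠ 0 := by
    have : Fintype (ConjClasses T) := Fintype.ofFinite _
    have h2 := hlin χ₀ hχ₀ rfl
    rw [lam_eq] at h2
    obtain ⟨C, _, hC⟩ := Finset.exists_ne_zero_of_sum_ne_zero (s := Finset.univ)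
      (f := fun C : ConjClasses T => e (CHP.rp C) * ro r (wt χ₀ (ind C)))
      (by rw [h2]; exact one_ne_zero)
    exact ⟨CHP.rp C, left_ne_zero_of_mul hC, ro_cen r hker hχ₀ C (right_ne_zero_of_mul hC)⟩
  refine ⟨a, ha, hprm, ?_, hfac, hexh, ?_, ?_⟩
  · intro χ hχ
    split_ifs with hb
    · exact hin χ hχ hb
    · exact hout χ hχ hb
  · intro n P₁ P x₀ hAt
    obtain ⟨h, hah, hch⟩ := hexh
    obtain ⟨y, hy, hey⟩ := hfac x₀ hAt.ne
    have hmv := move (ℓ := ℓ) (n := n) P hAt.cd.card h (hAt.mn h hch) (by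
      intro Q hQ hQh
      have h2 : cvF (clsF F x₀) y h ≠ 0 := by
        rw [← hey]
        exact hah
      obtain ⟨t, ht⟩ := h1.1 ℓ F T x₀ y hy h h2 Q hQ hQh
      obtain ⟨s, _, hs⟩ := h1.2.1 ℓ n T P₁ P x₀ hAt.cd (Q.map (MulAut.conj t).toMonoidHom)
        (hQ.map _) (by
          rintro _ ⟨u, hu, rfl⟩
          exact ht u hu)
      refine ⟨s * t, fun u hu => ?_⟩
      have h3 := hs _ (Subgroup.mem_map_of_mem (MulAut.conj t).toMonoidHom hu)
      have h4 : s * t * u * (s * t)⁻¹ = s * (MulAut.conj t).toMonoidHom u * s⁻¹ := by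
        show _ = s * (t * u * t⁻¹) * s⁻¹
        group
      rw [h4]
      exact h3)
    obtain ⟨hsq, t, ht⟩ := hmv
    have hat : r (a (t * h * t⁻¹)) ≠ 0 := by
      rw [ha]
      exact hah
    have hct : cen 𝔐 (MonoidHom.id T) χ₀ (t * h * t⁻¹) ≠ 0 := by
      have h2 : IsConj h (t * h * t⁻¹) := isConj_iff.2 ⟨t, rfl⟩
      rw [← SEP.cen_conj_right 𝔐 χ₀ h2]
      exact hch
    refine ⟨⟨hAt.cd, he, hee, ⟨y, hy, hey⟩, ⟨t * h * t⁻¹, hat, ht⟩⟩, t * h * t⁻¹, hat, ?_⟩
    refine ⟨⟨hAt.cd.le, hAt.cd.c1, hAt.cd.cyc, hAt.cd.card, ht, ?_⟩, hct, hAt.mn⟩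
    rw [card_cen]
    exact hsq
  · intro a' ha' hid' hval x
    have he' : (fun x => r (a' x)) ∈ CF F T := fun g x => congrArg r (ha' g x)
    have h2 : (fun x => r (a' x)) = e := by
      refine eq_of_lam r hr he' hid' he hee fun χ hχ => ?_
      have hχ' := mem_irrF.1 hχ
      rw [lam_red r hχ' a' ha']
      have h3 : lam r χ e = ro r (wt χ fun h => (a h : ℂ)) := lam_red r hχ' a ha
      rw [h3]
      exact (red_eq_iff_ro r hker (hcoe a' ha' χ hχ') (hcoe a ha χ hχ')).1 (hval χ hχ')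
    exact congrFun h2 x

end Pool.Agent.DPX


end
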