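import Mathlib
import Pool.Agent.DAM.C02
import Pool.Agent.DAM.C13
import Pool.Agent.DAM.C14
import Pool.Agent.DAM.C19
import Pool.Agent.DAM.C22
import Pool.Agent.DAM.C27
import Pool.Agent.DAM.C34
import Pool.Agent.DAM.C38
import Pool.Agent.DAM.C40
import Pool.Agent.DAM.C44

/-! Parts: DPW.COVW, DPM.CVX, DPT.PSO, DPW.UNQ, DPW.CYS, DPX.ORBX, DPX.FXAX -/

section

/-!
# COVW: characters which agree on the invariant functions belong to conjugate blocks
-/

namespace Pool.Agent.DPW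

open Pool.Agent.DP Pool.Agent.DPV Pool.Agent.DPB Pool.Agent.Lib_helper13 Representation

namespace COVW

open IDMB

section list

variable {F A Y : Type} [Field F] [Group A] [Fintype A] [Group Y]

/-- The twist of `e` by `y`. -/
def tw (c : Y →* MulAut A) (e : A → F) (y : Y) : A → F := fun x => e (c y x)

omit [Fintype A] in
theorem tw_mem (c : Y →* MulAut A) {e : A → F} (he : e ∈ CF F A) (y : Y) :
    tw c e y ∈ CF F A := by
  intro g x
  show e (c y (g * x * g⁻¹)) = e (c y x)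
  rw [map_mul, map_mul, map_inv]
  exact he _ _

/-- The unit minus the twist of `e`. -/
noncomputable def uu (c : Y →* MulAut A) (e : A → F) (y : Y) : A → F :=
  dl F A + (-1 : F) • tw c e y

omit [Fintype A] in
theorem uu_mem (c : Y →* MulAut A) {e : A → F} (he : e ∈ CF F A) (y : Y) :
    uu c e y ∈ CF F A :=
  (CF F A).add_mem dl_mem ((CF F A).smul_mem _ (tw_mem c he y))

/-- The product of the functions `1 - e ∘ c_y` over a list. -/
noncomputable def pp (c : Y →* MulAut A) (e : A → F) : List Y → (A → F)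
  | [] => dl F A
  | y :: L => cvF (uu c e y) (pp c e L)

theorem pp_mem (c : Y →* MulAut A) {e : A → F} (he : e ∈ CF F A) (L : List Y) :
    pp c e L ∈ CF F A := by
  induction L with
  | nil => exact dl_mem
  | cons y L ih => exact cvF_mem (uu_mem c he y) ih

theorem cvF_swap {u v : A → F} (hv : v ∈ CF F A) (w : A → F) :
    cvF u (cvF v w) = cvF v (cvF u w) := by
  apply Lz_inj
  have h1 : Lz v * Lz u = Lz u * Lz v := by
    rw [← Lz_cvF, ← Lz_cvF, cvF_comm u hv]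
  rw [Lz_cvF, Lz_cvF, Lz_cvF, Lz_cvF, mul_assoc, mul_assoc, h1]

theorem pp_perm (c : Y →* MulAut A) {e : A → F} (he : e ∈ CF F A) {L L' : List Y}
    (h : L.Perm L') : pp c e L = pp c e L' := by
  induction h with
  | nil => rfl
  | cons y _ ih =>
    show cvF (uu c e y) _ = cvF (uu c e y) _
    rw [ih]
  | swap x y L =>
    show cvF (uu c e y) (cvF (uu c e x) _) = cvF (uu c e x) (cvF (uu c e y) _)
    exact cvF_swap (uu_mem c he x) _
  | trans _ _ ih1 ih2 => rw [ih1, ih2]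

theorem cvF_comp (φ : MulAut A) (a b : A → F) :
    (fun x => cvF a b (φ x)) = cvF (fun x => a (φ x)) (fun x => b (φ x)) := by
  funext x
  show ∑ y, a y * b (y⁻¹ * φ x) = ∑ y, a (φ y) * b (φ (y⁻¹ * x))
  symm
  refine Fintype.sum_equiv φ.toEquiv _ _ fun y => ?_
  show a (φ y) * b (φ (y⁻¹ * x)) = a (φ y) * b ((φ y)⁻¹ * φ x)
  rw [map_mul, map_inv]

theorem dl_comp (φ : MulAut A) : (fun x => dl F A (φ x)) = dl F A := by
  funext x
  by_cases hx : x = 1
  · rw [hx, map_one]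
  · have h1 : φ x ≠ 1 := fun h => hx ((map_eq_one_iff φ φ.injective).1 h)
    unfold IDMB.dl
    rw [if_neg h1, if_neg hx]

theorem uu_comp (c : Y →* MulAut A) (e : A → F) (y z : Y) :
    (fun x => uu c e y (c z x)) = uu c e (y * z) := by
  funext x
  have h1 := congrFun (dl_comp (F := F) (c z)) x
  have h1' : dl F A (c z x) = dl F A x := h1
  show dl F A (c z x) + (-1 : F) * e (c y (c z x)) = dl F A x + (-1 : F) * e (c (y * z) x)
  rw [h1', map_mul, MulAut.mul_apply]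

theorem pp_comp (c : Y →* MulAut A) (e : A → F) (z : Y) (L : List Y) :
    (fun x => pp c e L (c z x)) = pp c e (L.map (· * z)) := by
  induction L with
  | nil => exact dl_comp (c z)
  | cons y L ih =>
    show (fun x => cvF (uu c e y) (pp c e L) (c z x)) =
      cvF (uu c e (y * z)) (pp c e (L.map (· * z)))
    rw [cvF_comp, uu_comp, ih]

theorem pp_inv [Fintype Y] (c : Y →* MulAut A) {e : A → F} (he : e ∈ CF F A) (z : Y) (x : A) :
    pp c e (Finset.univ : Finset Y).toList (c z x) =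
      pp c e (Finset.univ : Finset Y).toList x := by
  classical
  have h1 := congrFun (pp_comp c e z (Finset.univ : Finset Y).toList) x
  have h2 : ((Finset.univ : Finset Y).toList.map (· * z)).Perm
      (Finset.univ : Finset Y).toList := by
    have hn : ((Finset.univ : Finset Y).toList.map (· * z)).Nodup :=
      (Finset.nodup_toList _).map (mul_left_injective z)
    rw [List.perm_ext_iff_of_nodup hn (Finset.nodup_toList _)]
    intro y
    simp only [Finset.mem_toList, Finset.mem_univ, iff_true, List.mem_map, true_and]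
    exact ⟨y * z⁻¹, by group⟩
  rw [pp_perm c he h2] at h1
  exact h1

theorem lam_pp (r : integralClosure ℤ ℂ →+* F) (hr : Function.Surjective r)
    (c : Y →* MulAut A) {e : A → F} (he : e ∈ CF F A) {χ : A → ℂ} (hχ : IsIrr χ)
    (L : List Y) :
    lam r χ (pp c e L) = (L.map fun y => 1 - lam r χ (tw c e y)).prod := by
  induction L with
  | nil => exact lam_dl r hχ
  | cons y L ih =>
    show lam r χ (cvF (uu c e y) (pp c e L)) = _
    rw [lam_mul r hr hχ (uu_mem c he y) (pp_mem c he L), ih, List.map_cons, List.prod_cons]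
    congr 1
    show lam r χ (dl F A + (-1 : F) • tw c e y) = _
    rw [lam_add, lam_smul, lam_dl r hχ]
    ring

end list

theorem main {F A Y : Type} [Field F] [Group A] [Fintype A] [Group Y] [Fintype Y]
    (𝔐 : Ideal (integralClosure ℤ ℂ)) (ℓ : ℕ) [Fact ℓ.Prime] (h𝔐 : 𝔐.IsMaximal)
    (hℓ : (ℓ : integralClosure ℤ ℂ) ∈ 𝔐) (r : integralClosure ℤ ℂ →+* F)
    (hr : Function.Surjective r) (hker : RingHom.ker r = 𝔐) (c : Y →* MulAut A)
    (θ θ' : A → ℂ) (hθ : IsIrr θ) (hθ' : IsIrr θ')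
    (h : ∀ a : A → ℂ, (∀ y x, a (c y x) = a x) → (∀ x, IsIntegral ℤ (a x)) →
      red 𝔐 (wt θ a) = red 𝔐 (wt θ' a)) :
    ∃ y : Y, cen 𝔐 (MonoidHom.id A) (fun x => θ' (c y x)) = cen 𝔐 (MonoidHom.id A) θ := by
  classical
  obtain ⟨at', ha, -, hv1, hv0, -⟩ := IDMB_thm F A 𝔐 ℓ h𝔐 hℓ r hr hker θ hθ
  have hint : ∀ (b : A → integralClosure ℤ ℂ), (∀ g x, b (g * x * g⁻¹) = b x) →
      ∀ χ : A → ℂ, IsIrr χ → IsIntegral ℤ (wt χ (fun h => (b h : ℂ))) := fun b hb χ hχ =>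
    isIntegral_wt hχ _ (fun g x => congrArg (fun t : integralClosure ℤ ℂ => (t : ℂ)) (hb g x))
      fun y => (b y).2
  let e : A → F := fun x => r (at' x)
  have he : e ∈ CF F A := fun g x => congrArg r (ha g x)
  let E : A → F := dl F A + (-1 : F) • pp c e (Finset.univ : Finset Y).toList
  have hE : E ∈ CF F A := (CF F A).add_mem dl_mem ((CF F A).smul_mem _ (pp_mem c he _))
  have hEc : ∀ y x, E (c y x) = E x := by
    intro y x
    have h1 : dl F A (c y x) = dl F A x := congrFun (dl_comp (F := F) (c y)) x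
    show dl F A (c y x) + (-1 : F) * pp c e (Finset.univ : Finset Y).toList (c y x) =
      dl F A x + (-1 : F) * pp c e (Finset.univ : Finset Y).toList x
    rw [h1, pp_inv c he]
  have hlamE : ∀ χ : A → ℂ, IsIrr χ → lam r χ E =
      1 - ∏ y : Y, (1 - lam r χ (tw c e y)) := by
    intro χ hχ
    show lam r χ (dl F A + (-1 : F) • pp c e (Finset.univ : Finset Y).toList) = _
    rw [lam_add, lam_smul, lam_dl r hχ, lam_pp r hr c he hχ, Finset.prod_map_toList]
    ring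
  choose σ hσ using hr
  let a0 : A → integralClosure ℤ ℂ := fun x => σ (E x)
  have ha0 : ∀ g x, a0 (g * x * g⁻¹) = a0 x := fun g x => congrArg σ (hE g x)
  have hae : (fun x => r (a0 x)) = E := funext fun x => hσ _
  have h1 := h (fun x => (a0 x : ℂ))
    (fun y x => congrArg (fun t : F => ((σ t : integralClosure ℤ ℂ) : ℂ)) (hEc y x))
    (fun x => (a0 x).2)
  rw [red_eq_iff_ro r hker (hint a0 ha0 θ hθ) (hint a0 ha0 θ' hθ'), ← lam_red r hθ a0 ha0,
    ← lam_red r hθ' a0 ha0, hae, hlamE θ hθ, hlamE θ' hθ'] at h1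
  have h2 : lam r θ (tw c e 1) = 1 := by
    have e1 : tw c e 1 = fun x => r (at' x) := by
      funext x
      show e (c 1 x) = e x
      rw [map_one]
      rfl
    rw [e1, lam_red r hθ at' ha]
    have h3 := hv1 θ hθ rfl
    rw [← red_one 𝔐, red_eq_iff_ro r hker (hint at' ha θ hθ) isIntegral_one, ro_one] at h3
    exact h3
  have h3 : ∏ y : Y, (1 - lam r θ (tw c e y)) = 0 :=
    Finset.prod_eq_zero (Finset.mem_univ (1 : Y)) (by rw [h2, sub_self])
  rw [h3, sub_zero] at h1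
  have h4 : ∏ y : Y, (1 - lam r θ' (tw c e y)) = 0 := by
    have := h1
    linear_combination this
  obtain ⟨y, -, hy⟩ := Finset.prod_eq_zero_iff.1 h4
  have hy1 : lam r θ' (tw c e y) = 1 := (sub_eq_zero.1 hy).symm
  refine ⟨y⁻¹, ?_⟩
  by_contra hne
  have hirr : IsIrr (fun x => θ' (c y⁻¹ x)) := hθ'.comp_mulEquiv (c y⁻¹)
  have h5 := hv0 _ hirr hne
  rw [← red_zero 𝔐, red_eq_iff_ro r hker (hint at' ha _ hirr) isIntegral_zero, ro_zero] at h5
  -- change of variables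
  let b : A → integralClosure ℤ ℂ := fun x => at' (c y x)
  have hb : ∀ g x, b (g * x * g⁻¹) = b x := by
    intro g x
    show at' (c y (g * x * g⁻¹)) = at' (c y x)
    rw [map_mul, map_mul, map_inv]
    exact ha _ _
  have e2 : tw c e y = fun x => r (b x) := rfl
  rw [e2, lam_red r hθ' b hb] at hy1
  have e3 : wt θ' (fun h => (b h : ℂ)) =
      wt (fun x => θ' (c y⁻¹ x)) (fun h => (at' h : ℂ)) := by
    have h6 := wt_comp_equiv (c y) (fun x => θ' (c y⁻¹ x)) (fun h => (at' h : ℂ))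
    rw [← h6]
    have h7 : (fun x => θ' (c y⁻¹ (c y x))) = θ' := by
      funext x
      rw [← MulAut.mul_apply, ← map_mul, inv_mul_cancel, map_one]
      rfl
    rw [h7]
  rw [e3, h5] at hy1
  exact zero_ne_one hy1

end COVW

/-- COVW: characters of a normal subgroup which agree on the invariant functions belong to
conjugate blocks. -/
theorem COVW_thm : Stmt_COVW := by
  intro A Y K _ _ _ _ _ 𝔐 ℓ _ hmax hℓ j c p _ θ θ' hθ hθ' h
  let _ : Field ((integralClosure ℤ ℂ) ⧸ 𝔐) := Ideal.Quotient.field 𝔐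
  exact COVW.main 𝔐 ℓ hmax hℓ (Ideal.Quotient.mk 𝔐) Ideal.Quotient.mk_surjective Ideal.mk_ker
    c θ θ' hθ hθ' h

end Pool.Agent.DPW


end

section

/-!
# Theorem A, module CVX: characters of a normal subgroup which agree on the classes of the group
-/

set_option autoImplicit false

namespace Pool.Agent.DPM

open Pool.Agent.DP Pool.Agent.DPW Pool.Agent.Lib_helper13 Representation

namespace CVX

variable {X : Type} [Group X] (M : Subgroup X) [M.Normal]

/-- The Clifford data of a normal subgroup. -/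
theorem clg : ClG M.subtype (MulAut.conjNormal (H := M)) (QuotientGroup.mk' M) := by
  refine ⟨Subtype.val_injective, fun y a => ?_, fun y => ?_⟩
  · exact MulAut.conjNormal_apply y a
  · rw [QuotientGroup.mk'_apply, QuotientGroup.eq_one_iff, Subgroup.range_subtype]

variable [Fintype M]

/-- The central function on `X` of a character of `M` vanishes outside `M`. -/
theorem cen_out (𝔐 : Ideal (integralClosure ℤ ℂ)) (ξ : M → ℂ) {g : X} (hg : g ∉ M) :
    cen 𝔐 M.subtype ξ g = red 𝔐 0 := by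
  classical
  unfold cen
  congr 1
  unfold wt
  have h1 : ∀ y : M, conjInd (M.subtype y) g = 0 := by
    intro y
    unfold conjInd
    rw [if_neg]
    intro hc
    obtain ⟨u, hu⟩ := isConj_iff.1 hc
    apply hg
    rw [← hu]
    exact (inferInstance : M.Normal).conj_mem _ y.2 u
  have h2 : ∑ y : M, conjInd (M.subtype y) g * ξ y = 0 :=
    Finset.sum_eq_zero fun y _ => by rw [h1 y, zero_mul]
  rw [h2, zero_div]

end CVX

open _root_.Pool.Agent.DPM.CVX in
/-- CVX. -/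
theorem CVX_thm : Stmt_CVX := by
  intro X _ _ 𝔐 ℓ _ hmax hℓ M _ ξ ξ1 hξ hξ1 hag
  have hprime : 𝔐.IsPrime := hmax.isPrime
  have hcl := clg M
  have hcen : cen 𝔐 M.subtype ξ = cen 𝔐 M.subtype ξ1 := by
    funext g
    by_cases hg : g ∈ M
    · exact hag g hg
    · rw [cen_out M 𝔐 ξ hg, cen_out M 𝔐 ξ1 hg]
  obtain ⟨x, hx⟩ := COVW_thm M X (X ⧸ M) 𝔐 ℓ hmax hℓ M.subtype (MulAut.conjNormal (H := M))
    (QuotientGroup.mk' M) hcl ξ ξ1 hξ hξ1 (fun a ha hai => by
      have h1 := red_wt_eq_pair 𝔐 M.subtype hξ (FXF.exF M.subtype a)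
        (FXF.exF_class hcl ha) (FXF.exF_int hai)
      have h2 := red_wt_eq_pair 𝔐 M.subtype hξ1 (FXF.exF M.subtype a)
        (FXF.exF_class hcl ha) (FXF.exF_int hai)
      have h3 : (fun y : M => FXF.exF M.subtype a (M.subtype y)) = a := by
        funext y
        exact FXF.exF_j hcl.inj a y
      rw [h3] at h1 h2
      rw [h1, h2, hcen])
  exact ⟨x, hξ1.comp_mulEquiv (MulAut.conjNormal x), hx,
    fun d => hasDefect_comp_equiv (MulAut.conjNormal x)⟩

end Pool.Agent.DPM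


end

section

/-!
# PSO: the sum over the chains of a normal subgroup vanishes if there are no characters of minimal
defect (the statement PS1 of DPF)
-/

namespace Pool.Agent.DPT

open Pool.Agent.DP Pool.Agent.DPC Pool.Agent.DPM Pool.Agent.DPN Pool.Agent.Lib_helper13
open Representation
open Pool.Agent.Lib_helper13.Dade (pCore DadeHolds dadeSum)

namespace PSO

variable {L K : Type} [Group L] [Group K]

theorem ker_mem {π : L →* K} (U : Subgroup K) {z : L} (hz : z ∈ π.ker) : z ∈ U.comap π := by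
  rw [Subgroup.mem_comap, MonoidHom.mem_ker.1 hz]
  exact U.one_mem

/-- Functions over a linear character, on a subgroup and extended by zero. -/
theorem ovK_iff (π : L →* K) (μ : π.ker →* ℂˣ) (U : Subgroup K) (θ : ↥(U.comap π) → ℂ) :
    OvK π μ (ext0 θ) ↔ OvL π.ker μ _ θ := by
  constructor
  · intro h s t hs
    have h1 := h ⟨s, hs⟩ (t : L)
    have h2 : ext0 θ ((s : L) * (t : L)) = θ (s * t) := ext0_of_mem θ (s * t).2
    have h3 : ext0 θ (t : L) = θ t := ext0_of_mem θ t.2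
    calc θ (s * t) = ext0 θ ((s : L) * (t : L)) := h2.symm
      _ = ((μ ⟨s, hs⟩ : ℂˣ) : ℂ) * ext0 θ (t : L) := h1
      _ = ((μ ⟨s, hs⟩ : ℂˣ) : ℂ) * θ t := by rw [h3]
  · intro h z y
    have hz := ker_mem (π := π) U z.2
    by_cases hy : y ∈ U.comap π
    · rw [ext0_of_mem θ hy, ext0_of_mem θ ((U.comap π).mul_mem hz hy)]
      exact h ⟨z, hz⟩ ⟨y, hy⟩ z.2
    · have hzy : (z : L) * y ∉ U.comap π := fun h' =>
        hy (((U.comap π).mul_mem_cancel_left hz).1 h')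
      rw [ext0_of_not_mem θ hy, ext0_of_not_mem θ hzy, mul_zero]

variable [Fintype L] [Fintype K]

/-- The numbers of characters of subgroups and of characters extended by zero. -/
theorem card_eq (𝔐 : Ideal (integralClosure ℤ ℂ)) (ℓ d : ℕ) (π : L →* K) (μ : π.ker →* ℂˣ)
    (M U : Subgroup K) (ω : L → (integralClosure ℤ ℂ) ⧸ 𝔐) :
    Nat.card {ψ : L → ℂ // ID ℓ (U.comap π) d ψ ∧ OvK π μ ψ ∧
        ∀ g, π g ∈ M → cgT 𝔐 ⊤ ψ g = ω g} =
      Nat.card {ψ : ↥(U.comap π) → ℂ // IsIrr ψ ∧ OvL π.ker μ _ ψ ∧ HasDefect ℓ ψ d ∧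
        ∀ g ∈ M.comap π, cen 𝔐 (U.comap π).subtype ψ g = ω g} := by
  rw [STB.card_ID ℓ d (U.comap π)
    (fun ψ => OvK π μ ψ ∧ ∀ g, π g ∈ M → cgT 𝔐 ⊤ ψ g = ω g)]
  refine Nat.card_congr (Equiv.subtypeEquivRight fun θ => ?_)
  refine and_congr_right fun _ => ?_
  have h1 : (∀ g, π g ∈ M → cgT 𝔐 ⊤ (ext0 θ) g = ω g) ↔
      ∀ g ∈ M.comap π, cen 𝔐 (U.comap π).subtype θ g = ω g := by
    constructor
    · intro h g hg
      rw [STB.cen_eq]
      exact h g hg
    · intro h g hg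
      rw [← STB.cen_eq]
      exact h g hg
  rw [ovK_iff, h1]
  constructor
  · rintro ⟨h2, h3, h4⟩
    exact ⟨h3, h2, h4⟩
  · rintro ⟨h2, h3, h4⟩
    exact ⟨h3, h2, h4⟩

theorem WF_eq (𝔐 : Ideal (integralClosure ℤ ℂ)) (ℓ d : ℕ) (π : L →* K) (μ : π.ker →* ℂˣ)
    (M U : Subgroup K) (ω : L → (integralClosure ℤ ℂ) ⧸ 𝔐) :
    WF 𝔐 ℓ d π μ M ω U = (Nat.card U : ℚ) *
      Nat.card {ψ : ↥(U.comap π) → ℂ // IsIrr ψ ∧ OvL π.ker μ _ ψ ∧ HasDefect ℓ ψ d ∧
        ∀ g ∈ M.comap π, cen 𝔐 (U.comap π).subtype ψ g = ω g} := by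
  rw [WF, card_eq]

/-- The sum over the chains of `M`. -/
theorem PHU_eq (h : Stmt_CHI) (𝔐 : Ideal (integralClosure ℤ ℂ)) (ℓ d : ℕ) (π : L →* K)
    (μ : π.ker →* ℂˣ) (M : Subgroup K) (ω : L → (integralClosure ℤ ℂ) ⧸ 𝔐) :
    Pool.Agent.DPF.PHU 𝔐 ℓ d π μ M ⊤ ω = CS ℓ M (WF 𝔐 ℓ d π μ M ω) := by
  rw [← h K ℓ M (WF 𝔐 ℓ d π μ M ω), Pool.Agent.DPF.PHU]
  refine Finset.sum_congr rfl fun τ _ => ?_
  congr 1
  have h1 := WF_eq 𝔐 ℓ d π μ M (⊤ ⊓ stb (mapCh M.subtype τ)) ω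
  rw [← h1, top_inf_eq]

/-- The sum over the chains of `K`. -/
theorem DKU_eq (𝔐 : Ideal (integralClosure ℤ ℂ)) (ℓ d : ℕ) (π : L →* K)
    (μ : π.ker →* ℂˣ) (M : Subgroup K) (ω : L → (integralClosure ℤ ℂ) ⧸ 𝔐) :
    Pool.Agent.DPF.DKU 𝔐 ℓ d π μ M ω = CS ℓ ⊤ (WF 𝔐 ℓ d π μ M ω) := by
  classical
  rw [Pool.Agent.DPF.DKU, CS, Finset.filter_true_of_mem fun σ _ D _ => le_top]
  refine Finset.sum_congr rfl fun σ _ => ?_
  rw [WF_eq]

/-- The absence of characters of minimal defect. -/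
theorem not_GdF {𝔐 : Ideal (integralClosure ℤ ℂ)} {ℓ : ℕ} {π : L →* K} {μ : π.ker →* ℂˣ}
    {M : Subgroup K} {ω : L → (integralClosure ℤ ℂ) ⧸ 𝔐} (h : Pool.Agent.DPF.Pos 𝔐 ℓ π μ M ω) :
    ¬ GdF 𝔐 ℓ π μ M ω := by
  rintro ⟨θ, ⟨⟨h1, h2⟩, h3⟩, h4, h5⟩
  have h6 : ext0 (fun s : ↥(M.comap π) => θ s) = θ := STB.ext0_res h2
  refine h (fun s : ↥(M.comap π) => θ s) h1 ?_ h3 ?_
  · rw [← ovK_iff, h6]
    exact h4
  · intro g hg
    rw [STB.cen_eq, h6]
    exact h5 g hg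

omit [Group K] [Fintype K] [Group L] [Fintype L] in
/-- A group with a normal Sylow subgroup with an abelian quotient. -/
theorem hh {ℓ : ℕ} {H : Type} [Group H] {P : Subgroup H} (h : Pool.Agent.DPF.SylAb ℓ P) :
    HH ℓ H := ⟨P, h.nrm, h.pgr, h.idx, h.abl⟩

end PSO

theorem PSO_thm (h1 : Stmt_PSN) (h2 : Stmt_CHI) : Stmt_PSO := by
  intro L K H _ _ _ _ _ _ 𝔐 ℓ _ hM hℓ π hπ hc hcyc μ hμ hQ M hMn p hp hpk P hP ω hPos d
  rw [PSO.PHU_eq h2]
  by_contra hne
  exact PSO.not_GdF hPos (h1 ℓ K hQ L H 𝔐 hM hℓ π hπ hc hcyc μ hμ M hMn p hpk (PSO.hh hP) ω d hne)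

end Pool.Agent.DPT


end

section

/-!
# UNQ: a character of a block of defect one with central defect group is determined by its
restriction to the defect group
-/

namespace Pool.Agent.DPW

open Pool.Agent.DP Pool.Agent.DPV Pool.Agent.Lib_helper13 Representation
open Pool.Agent.Lib_helper13.Dade (pCore DadeHolds dadeSum)

namespace UNQ

/-- Sums of a class function on the group itself. -/
theorem red_wt_id {L : Type} [Group L] [Fintype L] (𝔐 : Ideal (integralClosure ℤ ℂ))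
    {ψ ψ' : L → ℂ} (hψ : IsIrr ψ) (hψ' : IsIrr ψ')
    (h : cen 𝔐 (MonoidHom.id L) ψ = cen 𝔐 (MonoidHom.id L) ψ') (f : L → ℂ)
    (hf : ∀ g x, f (g * x * g⁻¹) = f x) (hi : ∀ x, IsIntegral ℤ (f x)) :
    red 𝔐 (wt ψ f) = red 𝔐 (wt ψ' f) := by
  have h1 := red_wt_eq_pair 𝔐 (MonoidHom.id L) hψ f hf hi
  have h2 := red_wt_eq_pair 𝔐 (MonoidHom.id L) hψ' f hf hi
  rw [h, ← h2] at h1
  exact h1

end UNQ

theorem UNQ_thm (h1 : Stmt_SCT) : Stmt_UNQ := by
  classical
  intro C _ _ 𝔐 ℓ _ h𝔐 hℓ P hP hcen φ φ' hφ hφ' hm hrel hblk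
  obtain ⟨m, hm1, hm2⟩ := hm
  have hirr : ∀ χ : C → ℂ, IsIrr χ → IsIrr (fun c : (⊤ : Subgroup C) => χ c) := fun χ hχ =>
    hχ.comp_mulEquiv (Subgroup.topEquiv (G := C))
  obtain ⟨a, ha1, ha2, _, ha4, ha5⟩ := h1 C 𝔐 ℓ h𝔐 hℓ P ⊤ hP le_top hcen φ hφ (hirr φ hφ)
    ⟨m, hm1, by rw [Subgroup.card_top]; exact hm2⟩ 1
  by_contra hne
  have h2 : red 𝔐 (wt φ' a) = 0 := by
    refine ha5 φ' hφ' (hirr φ' hφ') hrel ?_
    have h3 : (∑ c : (⊤ : Subgroup C), φ' ((c : C) * 1) * φ (((c : C) * 1)⁻¹)) =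
        ∑ c : C, φ' c * φ c⁻¹ :=
      Fintype.sum_equiv (Subgroup.topEquiv (G := C)).toEquiv _ _ fun c => by
        rw [mul_one]; rfl
    rw [h3]
    exact hφ'.sum_ne hφ (Ne.symm hne)
  have h4 := UNQ.red_wt_id 𝔐 hφ hφ' hblk a (fun g x => ha1 g (Subgroup.mem_top g) x) ha2
  exact ha4 (h4.trans h2)

end Pool.Agent.DPW


end

section

/-!
# CYS: the weight of an invariant function supported on a coset
-/

namespace Pool.Agent.DPW

open Pool.Agent.DP Pool.Agent.DPV Pool.Agent.Lib_helper13 Representation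
open Pool.Agent.Lib_helper13.Dade (pCore DadeHolds dadeSum)

namespace CYS

section basic

variable {H : Type} [Group H] [Fintype H]

/-- A normal subgroup as normal data. -/
theorem clG_normal (N : Subgroup H) [N.Normal] :
    ClG N.subtype (MulAut.conjNormal (H := N) : H →* MulAut N) (QuotientGroup.mk' N) where
  inj := Subtype.val_injective
  act := by
    intro y a
    rw [Subgroup.subtype_apply, MulAut.conjNormal_apply, Subgroup.subtype_apply]
  ker := by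
    intro y
    rw [QuotientGroup.mk'_apply, QuotientGroup.eq_one_iff, Subgroup.range_subtype]

theorem irrOn_top_comap (M N : Subgroup H) (h : N ≤ M) (E : H → ℂ)
    (hE : IsIrr (fun c : N => E c)) : IrrOn (M.comap N.subtype) (fun c : N => E (N.subtype c)) := by
  have htop : M.comap N.subtype = ⊤ := by
    rw [eq_top_iff]
    intro x _
    exact h x.2
  rw [htop]
  refine ⟨?_, fun x hx => absurd (Subgroup.mem_top x) hx⟩
  exact IsIrr.comp_mulEquiv (χ := fun c : N => E c) hE Subgroup.topEquiv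

theorem isIrr_irrOn_top {f : H → ℂ} (hf : IsIrr f) : IrrOn (⊤ : Subgroup H) f := by
  refine ⟨?_, fun x hx => absurd (Subgroup.mem_top x) hx⟩
  exact IsIrr.comp_mulEquiv (χ := f) hf Subgroup.topEquiv

/-- Integrality of the weights. -/
theorem int_wt (N M : Subgroup H) [N.Normal] (hNM : N ≤ M) (E : H → ℂ) (hE : IrrOn M E)
    (hEN : IsIrr (fun c : N => E c)) (a : H → ℂ) (ha : ∀ n ∈ N, ∀ x, a (n * x * n⁻¹) = a x)
    (hi : ∀ x, IsIntegral ℤ (a x)) : IsIntegral ℤ (wt E a) := by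
  exact INTH_thm N H (H ⧸ N) N.subtype (MulAut.conjNormal (H := N)) (QuotientGroup.mk' N)
    (clG_normal N) M E hE (irrOn_top_comap M N hNM E hEN) a hi (fun n x => ha n n.2 x)

/-- A class function of `C` acts as a scalar on the irreducible restriction. -/
theorem scalar (C M : Subgroup H) [Fintype C] (hCM : C ≤ M) (E : H → ℂ) (hE : IrrOn M E)
    (hEC : IsIrr (fun c : C => E c)) (b : C → ℂ) (hb : ∀ g x : C, b (g * x * g⁻¹) = b x)
    (y : H) (hy : y ∈ M) : (∑ c : C, b c * E (c * y)) * E 1 = (∑ c : C, b c * E c) * E y := by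
  classical
  obtain ⟨n, R, hR, hRf⟩ := hE.1
  obtain ⟨n', R', hR', hRf'⟩ := hEC
  let j : C →* M := Subgroup.inclusion hCM
  let σ : Representation ℂ C (Fin n → ℂ) := R.comp j
  have hEM : ∀ m : M, LinearMap.trace ℂ (Fin n → ℂ) (R m) = E m := fun m => congrFun hRf m
  have hσc : σ.character = R'.character := by
    rw [hRf']
    funext h
    exact hEM (j h)
  have hσ : σ.IsIrreducible := by
    apply irreducible_of_sum
    rw [hσc]
    exact sum_char_self R'
  let T : (Fin n → ℂ) →ₗ[ℂ] (Fin n → ℂ) := ∑ c : C, b c • (R (j c) : (Fin n → ℂ) →ₗ[ℂ] _)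
  have hT : ∀ x, T x = ∑ c : C, b c • R (j c) x := by
    intro x
    simp [T, LinearMap.sum_apply]
  have hcomm : ∀ g x, T (σ g x) = σ g (T x) := by
    intro g x
    rw [hT, hT, map_sum]
    have h1 : ∀ c : C, σ g (b c • R (j c) x) = b c • R (j (g * c)) x := by
      intro c
      rw [map_smul, map_mul, map_mul]
      rfl
    have h2 : ∀ c : C, b c • R (j c) (σ g x) = b c • R (j (c * g)) x := by
      intro c
      rw [map_mul, map_mul]
      rfl
    simp only [h1, h2]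
    rw [← Equiv.sum_comp (MulAut.conj g).toEquiv]
    refine Finset.sum_congr rfl fun c _ => ?_
    have h3 : ((MulAut.conj g).toEquiv c : C) = g * c * g⁻¹ := rfl
    rw [h3, hb, inv_mul_cancel_right]
  obtain ⟨lam, hlam⟩ := exists_scalar σ hσ T hcomm
  have key : ∀ m : M, ∑ c : C, b c * E (c * m) = lam * E m := by
    intro m
    have h1 : LinearMap.trace ℂ (Fin n → ℂ) (T ∘ₗ R m) = lam * E m := by
      rw [hlam, LinearMap.smul_comp, LinearMap.id_comp, map_smul, smul_eq_mul, hEM]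
    rw [← h1]
    have h2 : T ∘ₗ R m = ∑ c : C, b c • R (j c * m) := by
      apply LinearMap.ext
      intro x
      rw [LinearMap.comp_apply, hT, LinearMap.sum_apply]
      refine Finset.sum_congr rfl fun c _ => ?_
      rw [map_mul]
      rfl
    rw [h2, map_sum]
    refine Finset.sum_congr rfl fun c _ => ?_
    rw [map_smul, smul_eq_mul, hEM]
    rfl
  have e1 := key ⟨y, hy⟩
  have e2 := key 1
  have e3 : ∑ c : C, b c * E c = lam * E 1 := by
    have h3 : ∑ c : C, b c * E (c * ((1 : M) : H)) = ∑ c : C, b c * E c := by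
      refine Finset.sum_congr rfl fun c _ => ?_
      rw [Subgroup.coe_one, mul_one]
    rw [← h3, e2, Subgroup.coe_one]
  rw [e3]
  have e4 : ∑ c : C, b c * E (c * y) = lam * E y := e1
  rw [e4]
  ring

/-- The weight of the product. -/
theorem wt_prod (C M : Subgroup H) [Fintype C] (hCM : C ≤ M) (E : H → ℂ) (hE : IrrOn M E)
    (hEC : IsIrr (fun c : C => E c)) (b : C → ℂ) (hb : ∀ g x : C, b (g * x * g⁻¹) = b x)
    (a' : H → ℂ) :
    wt E (fun x => ∑ c : C, b c * a' ((c : H)⁻¹ * x)) =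
      wt (fun c : C => E c) b * wt E a' := by
  have hE1 : E 1 ≠ 0 := by
    have h := hEC.one_ne_zero
    exact h
  have hsum : (∑ x, (∑ c : C, b c * a' ((c : H)⁻¹ * x)) * E x) * E 1 =
      (∑ c : C, b c * E c) * ∑ x, a' x * E x := by
    have h1 : ∑ x, (∑ c : C, b c * a' ((c : H)⁻¹ * x)) * E x =
        ∑ x, a' x * ∑ c : C, b c * E (c * x) := by
      simp only [Finset.sum_mul, Finset.mul_sum]
      rw [Finset.sum_comm]
      rw [Finset.sum_comm (s := Finset.univ (α := H)) (t := Finset.univ (α := C))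
        (f := fun x c => a' x * (b c * E (c * x)))]
      refine Finset.sum_congr rfl fun c _ => ?_
      refine Fintype.sum_equiv (Equiv.mulLeft (c : H)⁻¹) _ _ fun x => ?_
      have h2 : (Equiv.mulLeft (c : H)⁻¹) x = (c : H)⁻¹ * x := rfl
      rw [h2, mul_inv_cancel_left]
      ring
    rw [h1, Finset.sum_mul, Finset.mul_sum]
    refine Finset.sum_congr rfl fun x _ => ?_
    by_cases hx : x ∈ M
    · rw [mul_assoc, scalar C M hCM E hE hEC b hb x hx]
      ring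
    · have h0 : ∀ c : C, E (c * x) = 0 := by
        intro c
        apply hE.2
        intro h
        apply hx
        have := M.mul_mem (M.inv_mem (hCM c.2)) h
        rwa [inv_mul_cancel_left] at this
      have h2 : ∑ c : C, b c * E (c * x) = 0 := by
        apply Finset.sum_eq_zero
        intro c _
        rw [h0, mul_zero]
      rw [h2, hE.2 x hx]
      ring
  change (∑ x, (∑ c : C, b c * a' ((c : H)⁻¹ * x)) * E x) / E 1 =
    (∑ c : C, b c * E c) / E 1 * ((∑ x, a' x * E x) / E 1)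
  rw [div_mul_div_comm, div_eq_div_iff hE1 (mul_ne_zero hE1 hE1), ← hsum]
  ring

end basic

section cosets

/-- Sums of functions which are constant on the left cosets. -/
theorem sum_cos {N : Type*} [Group N] [Fintype N] (K : Subgroup N) [Fintype K]
    [Fintype (N ⧸ K)] (F : N → ℂ) (hF : ∀ n, ∀ k ∈ K, F (n * k) = F n) :
    ∑ n, F n = (Fintype.card K : ℂ) * ∑ q : N ⧸ K, F q.out := by
  have hb : Function.Bijective (fun p : (N ⧸ K) × K => p.1.out * (p.2 : N)) := by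
    constructor
    · rintro ⟨q, k⟩ ⟨q', k'⟩ h
      have h1 : q.out * (k : N) = q'.out * (k' : N) := h
      have h2 : (QuotientGroup.mk (q.out * (k : N)) : N ⧸ K) = q := by
        rw [QuotientGroup.mk_mul_of_mem _ k.2]
        exact QuotientGroup.out_eq' q
      have h3 : (QuotientGroup.mk (q'.out * (k' : N)) : N ⧸ K) = q' := by
        rw [QuotientGroup.mk_mul_of_mem _ k'.2]
        exact QuotientGroup.out_eq' q'
      have h4 : q = q' := by rw [← h2, ← h3, h1]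
      subst h4
      have h5 := mul_left_cancel h1
      rw [Subtype.ext h5]
    · intro n
      refine ⟨(QuotientGroup.mk n, ⟨(QuotientGroup.mk n : N ⧸ K).out⁻¹ * n, ?_⟩), ?_⟩
      · rw [← QuotientGroup.eq]
        exact QuotientGroup.out_eq' _
      · simp
  rw [← hb.sum_comp F, Fintype.sum_prod_type]
  have h1 : ∀ q : N ⧸ K, ∑ k : K, F (q.out * (k : N)) = (Fintype.card K : ℂ) * F q.out := by
    intro q
    rw [Finset.sum_congr rfl (fun (k : K) _ => hF q.out k k.2), Finset.sum_const, nsmul_eq_mul,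
      Finset.card_univ]
  rw [Finset.mul_sum]
  exact Finset.sum_congr rfl (fun q _ => h1 q)

end cosets

end CYS

open _root_.Pool.Agent.DPW.CYS in
theorem CYS_thm : Stmt_CYS := by
  classical
  intro H _ _ 𝔐 ℓ _ hmax hℓ C N M _ _ hCN hCM hcomm f hf hfN S hS hfS φ hφ hS1 z hz a' ha' hi'
    hsupp'
  have := hmax
  let _ : Field ((integralClosure ℤ ℂ) ⧸ 𝔐) := Ideal.Quotient.field 𝔐
  obtain ⟨at1, hat1, -, hat2, hat3, -⟩ := IDMB_thm ((integralClosure ℤ ℂ) ⧸ 𝔐) C 𝔐 ℓ hmax hℓ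
    (Ideal.Quotient.mk 𝔐) Ideal.Quotient.mk_surjective Ideal.mk_ker φ hφ
  have hf1 : f 1 ≠ 0 := hf.one_ne_zero
  -- the function a''
  let b : C → ℂ := fun c => (at1 c : ℂ)
  have hb : ∀ g x : C, b (g * x * g⁻¹) = b x := fun g x => by
    show ((at1 (g * x * g⁻¹) : integralClosure ℤ ℂ) : ℂ) = (at1 x : ℂ)
    rw [hat1]
  have hbi : ∀ c, IsIntegral ℤ (b c) := fun c => (at1 c).2
  let a2 : H → ℂ := fun x => ∑ c : C, b c * a' ((c : H)⁻¹ * x)
  have ha2i : ∀ x, IsIntegral ℤ (a2 x) := fun x =>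
    IsIntegral.sum _ (fun c _ => (hbi c).mul (hi' _))
  have ha2c : ∀ d ∈ C, ∀ x, a2 (d * x * d⁻¹) = a2 x := by
    intro d hd x
    show ∑ c : C, b c * a' ((c : H)⁻¹ * (d * x * d⁻¹)) = ∑ c : C, b c * a' ((c : H)⁻¹ * x)
    symm
    refine Fintype.sum_equiv (MulAut.conj (⟨d, hd⟩ : C)).toEquiv _ _ fun c => ?_
    have h1 : ((MulAut.conj (⟨d, hd⟩ : C)).toEquiv c : C) = ⟨d, hd⟩ * c * (⟨d, hd⟩ : C)⁻¹ := rfl
    rw [h1, hb]
    congr 1
    have h2 := ha' d hd ((c : H)⁻¹ * x)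
    rw [← h2]
    congr 1
    simp only [Subgroup.coe_mul, Subgroup.coe_inv]
    group
  have ha2s : ∀ x, x * z⁻¹ ∉ C → a2 x = 0 := by
    intro x hx
    show ∑ c : C, b c * a' ((c : H)⁻¹ * x) = 0
    apply Finset.sum_eq_zero
    intro c _
    rw [hsupp', mul_zero]
    intro h
    apply hx
    have := C.mul_mem c.2 h
    have e : (c : H) * ((c : H)⁻¹ * x * z⁻¹) = x * z⁻¹ := by group
    rwa [e] at this
  -- the function a
  let K : Subgroup N := C.subgroupOf N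
  have : Fintype K := Fintype.ofFinite _
  have : Fintype (N ⧸ K) := Fintype.ofFinite _
  let a : H → ℂ := fun x => ∑ q : N ⧸ K, a2 ((q.out : H)⁻¹ * x * (q.out : H))
  have hsumN : ∀ x, ∑ n : N, a2 ((n : H)⁻¹ * x * (n : H)) = (Fintype.card K : ℂ) * a x := by
    intro x
    apply sum_cos K (fun n : N => a2 ((n : H)⁻¹ * x * (n : H)))
    intro n k hk
    have hk' : (k : H) ∈ C := hk
    show a2 (((n * k : N) : H)⁻¹ * x * ((n * k : N) : H)) = a2 ((n : H)⁻¹ * x * (n : H))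
    rw [← ha2c (k : H) hk' (((n * k : N) : H)⁻¹ * x * ((n * k : N) : H))]
    congr 1
    simp only [Subgroup.coe_mul]
    group
  have hcardK : (Fintype.card K : ℂ) ≠ 0 := by
    have : Fintype.card K ≠ 0 := Fintype.card_ne_zero
    exact_mod_cast this
  have haN : ∀ n ∈ N, ∀ x, a (n * x * n⁻¹) = a x := by
    intro n hn x
    apply mul_left_cancel₀ hcardK
    rw [← hsumN, ← hsumN]
    refine Fintype.sum_equiv (Equiv.mulLeft (⟨n, hn⟩ : N)⁻¹) _ _ fun m => ?_
    have h1 : (Equiv.mulLeft (⟨n, hn⟩ : N)⁻¹) m = (⟨n, hn⟩ : N)⁻¹ * m := rfl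
    rw [h1]
    congr 1
    simp only [Subgroup.coe_mul, Subgroup.coe_inv]
    group
  have hai : ∀ x, IsIntegral ℤ (a x) := fun x => IsIntegral.sum _ (fun q _ => ha2i _)
  have has : ∀ x, x * z⁻¹ ∉ C → a x = 0 := by
    intro x hx
    apply Finset.sum_eq_zero
    intro q _
    apply ha2s
    intro h
    apply hx
    have h1 : (q.out : H) * ((q.out : H)⁻¹ * x * (q.out : H) * z⁻¹) * (q.out : H)⁻¹ ∈ C :=
      (inferInstance : C.Normal).conj_mem _ h _
    have h2 : (q.out : H) * z * (q.out : H)⁻¹ * z⁻¹ ∈ C := hcomm _ q.out.2 z hz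
    have h3 := C.mul_mem h1 h2
    have e : (q.out : H) * ((q.out : H)⁻¹ * x * (q.out : H) * z⁻¹) * (q.out : H)⁻¹ *
        ((q.out : H) * z * (q.out : H)⁻¹ * z⁻¹) = x * z⁻¹ := by group
    rwa [e] at h3
  refine ⟨a, haN, hai, has, ?_⟩
  -- the weights
  have hwfa : wt f a = (C.relIndex N : ℂ) * wt f a2 := by
    have h1 : wt f a = ∑ q : N ⧸ K, wt f (fun x => a2 ((q.out : H)⁻¹ * x * (q.out : H))) :=
      wt_sum _ _ _
    have h2 : ∀ q : N ⧸ K, wt f (fun x => a2 ((q.out : H)⁻¹ * x * (q.out : H))) = wt f a2 := by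
      intro q
      rw [wt, wt]
      congr 1
      refine Fintype.sum_equiv (MulAut.conj (q.out : H)⁻¹).toEquiv _ _ fun x => ?_
      have h3 : ((MulAut.conj (q.out : H)⁻¹).toEquiv x : H) =
        (q.out : H)⁻¹ * x * (q.out : H)⁻¹⁻¹ := rfl
      rw [h3, hf.conj_eq, inv_inv]
    rw [h1, Finset.sum_congr rfl (fun q _ => h2 q), Finset.sum_const, nsmul_eq_mul,
      Finset.card_univ]
    congr 1
    have h4 : C.relIndex N = Nat.card (N ⧸ K) := rfl
    rw [h4, Nat.card_eq_fintype_card]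
  have hfone : f 1 = (S.card : ℂ) * φ 1 := by
    rw [hfS 1 M.one_mem, Finset.sum_congr rfl hS1, Finset.sum_const, nsmul_eq_mul]
  have hwS : (S.card : ℂ) * wt f a2 = ∑ E ∈ S, wt E a2 := by
    have h1 : ∑ x, a2 x * f x = ∑ E ∈ S, ∑ x, a2 x * E x := by
      rw [Finset.sum_comm]
      refine Finset.sum_congr rfl fun x _ => ?_
      by_cases hx : x ∈ M
      · rw [hfS x hx, Finset.mul_sum]
      · have h0 : a2 x = 0 := by
          apply ha2s
          intro h
          apply hx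
          have h2 := M.mul_mem (hCM h) hz
          rwa [inv_mul_cancel_right] at h2
        rw [h0]
        simp
    have hφ1 : φ 1 ≠ 0 := hφ.one_ne_zero
    have hSc : (S.card : ℂ) ≠ 0 := by
      intro h0
      rw [hfone, h0, zero_mul] at hf1
      exact hf1 rfl
    have h3 : ∀ E ∈ S, wt E a2 = (∑ x, a2 x * E x) / φ 1 := by
      intro E hE
      rw [wt, hS1 E hE]
    rw [Finset.sum_congr rfl h3, ← Finset.sum_div, ← h1, wt, hfone]
    field_simp
  have hwE : ∀ E ∈ S, wt E a2 = wt (fun c : C => E c) b * wt E a' := fun E hE =>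
    wt_prod C M hCM E (hS E hE).1 (hS E hE).2 b hb a'
  have hInt1 : IsIntegral ℤ (wt f a) :=
    int_wt N ⊤ le_top f (isIrr_irrOn_top hf) hfN a haN hai
  have hInt2 : ∀ E ∈ S, IsIntegral ℤ (wt (fun c : C => E c) b) := fun E hE =>
    isIntegral_wt (hS E hE).2 b hb hbi
  have hInt3 : ∀ E ∈ S, IsIntegral ℤ (wt E a') := fun E hE =>
    int_wt C M hCM E (hS E hE).1 (hS E hE).2 a' ha' hi'
  have hmain : (S.card : ℂ) * wt f a = (C.relIndex N : ℂ) *
      ∑ E ∈ S, wt (fun c : C => E c) b * wt E a' := by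
    rw [hwfa, mul_left_comm, hwS, Finset.sum_congr rfl hwE]
  have hred := congrArg (red 𝔐) hmain
  rw [red_natCast_mul 𝔐 _ hInt1, red_natCast_mul 𝔐 _
    (IsIntegral.sum _ (fun E hE => (hInt2 E hE).mul (hInt3 E hE))),
    red_sum 𝔐 _ _ (fun E hE => (hInt2 E hE).mul (hInt3 E hE)), nsmul_eq_mul, nsmul_eq_mul] at hred
  rw [hred]
  congr 1
  rw [Finset.sum_filter]
  refine Finset.sum_congr rfl fun E hE => ?_
  rw [red_mul 𝔐 (hInt2 E hE) (hInt3 E hE)]
  by_cases hcen : cen 𝔐 (MonoidHom.id C) (fun c : C => E c) = cen 𝔐 (MonoidHom.id C) φ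
  · rw [if_pos hcen]
    have h1 : red 𝔐 (wt (fun c : C => E c) b) = 1 := hat2 _ (hS E hE).2 hcen
    rw [h1, one_mul]
  · rw [if_neg hcen]
    have h1 : red 𝔐 (wt (fun c : C => E c) b) = 0 := hat3 _ (hS E hE).2 hcen
    rw [h1, zero_mul]

end Pool.Agent.DPW


end

section

/-!
# Theorem X, module ORBX: the blocks of the centralizer under a block of the group
-/

set_option autoImplicit false

namespace Pool.Agent.DPX

open Pool.Agent.DP Pool.Agent.DPB Pool.Agent.DPW Pool.Agent.Lib_helper13 Representation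

namespace ORBX

variable {N : Type} [Group N] (C : Subgroup N) [C.Normal]

/-- The Clifford data of a normal subgroup. -/
theorem clg : ClG C.subtype (MulAut.conjNormal (H := C)) (QuotientGroup.mk' C) := by
  refine ⟨Subtype.val_injective, fun y a => ?_, fun y => ?_⟩
  · exact MulAut.conjNormal_apply y a
  · rw [QuotientGroup.mk'_apply, QuotientGroup.eq_one_iff, Subgroup.range_subtype]

variable [Fintype N] [Fintype C]

/-- Sums of a class function of `N` with respect to a character over `φ`. -/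
theorem red_wt_under (𝔐 : Ideal (integralClosure ℤ ℂ)) [h𝔐 : 𝔐.IsPrime] (ℓ : ℕ)
    [Fact ℓ.Prime] (hℓ : (ℓ : integralClosure ℤ ℂ) ∈ 𝔐) (P₁ : Subgroup N) [P₁.Normal]
    (hP : Nat.card P₁ = ℓ) (hC : C = Subgroup.centralizer (P₁ : Set N)) {ψ : N → ℂ}
    {φ : C → ℂ} (hψ : IsIrr ψ) (hφ : IsIrr φ) (hip : ip (fun c : C => ψ c) φ ≠ 0) (x : N) :
    cen 𝔐 (MonoidHom.id N) ψ x = red 𝔐 (wt φ (fun c : C => conjInd (c : N) x)) := by
  have hcl := clg C
  have ha : ∀ (y : N) (c : C), conjInd ((MulAut.conjNormal y c : C) : N) x =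
      conjInd (c : N) x := by
    intro y c
    rw [MulAut.conjNormal_apply, conjInd_conj]
  rw [← FXF.wt_ex hcl hφ hψ hip ha]
  have hPp : IsPGroup ℓ P₁ := IsPGroup.of_card (n := 1) (by rw [hP, pow_one])
  refine red_wt_eq 𝔐 hℓ hψ P₁ hPp _ _ (fun g y => conjInd_conj g y x)
    (fun y => isIntegral_conjInd _ _) (FXF.exF_class hcl ha)
    (FXF.exF_int fun c => isIntegral_conjInd _ _) ?_
  intro y hy
  have hyC : y ∈ C := by
    rw [hC, Subgroup.mem_centralizer_iff]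
    exact fun q hq => hy q hq
  have h1 : FXF.exF C.subtype (fun c : C => conjInd (c : N) x) y = conjInd y x :=
    FXF.exF_j hcl.inj (fun c : C => conjInd (c : N) x) ⟨y, hyC⟩
  rw [h1]
  rfl

end ORBX

open _root_.Pool.Agent.DPX.ORBX in
/-- ORBX. -/
theorem ORBX_thm : Stmt_ORBX := by
  intro N _ _ 𝔐 ℓ _ hmax hℓ P₁ _ hP C _ hC ψ₀ hψ₀ φ₀ hφ₀ hip₀
  have hprime : 𝔐.IsPrime := hmax.isPrime
  have hcl := clg C
  refine ⟨?_, ?_⟩
  · intro ψ φ hψ hφ hip
    constructor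
    · intro hcen
      refine COVW_thm C N (N ⧸ C) 𝔐 ℓ hmax hℓ C.subtype (MulAut.conjNormal (H := C))
        (QuotientGroup.mk' C) hcl φ₀ φ hφ₀ hφ (fun a ha hai => ?_)
      rw [← FXF.wt_ex hcl hφ₀ hψ₀ hip₀ ha, ← FXF.wt_ex hcl hφ hψ hip ha]
      exact UNQ.red_wt_id 𝔐 hψ₀ hψ hcen.symm _ (FXF.exF_class hcl ha) (FXF.exF_int hai)
    · rintro ⟨g, hg⟩
      funext x
      rw [red_wt_under C 𝔐 ℓ hℓ P₁ hP hC hψ hφ hip x,
        red_wt_under C 𝔐 ℓ hℓ P₁ hP hC hψ₀ hφ₀ hip₀ x]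
      have hirr : IsIrr (fun c : C => φ (MulAut.conjNormal g c)) :=
        hφ.comp_mulEquiv (MulAut.conjNormal g)
      have h1 := UNQ.red_wt_id 𝔐 hirr hφ₀ hg (fun c : C => conjInd (c : N) x)
        (fun u y => conjInd_conj (u : N) (y : N) x) (fun y => isIntegral_conjInd _ _)
      rw [← h1]
      congr 1
      rw [← wt_comp_equiv (MulAut.conjNormal g : C ≃* C) φ (fun c : C => conjInd (c : N) x)]
      congr 1
      funext c
      rw [MulAut.conjNormal_apply, conjInd_conj]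
  · intro φ g hφ
    refine ⟨hφ.comp_mulEquiv (MulAut.conjNormal g), fun x => ?_⟩
    exact FXF.cen_twist 𝔐 (MulAut.conjNormal g) φ x

end Pool.Agent.DPX


end

section

/-!
# FXAX: the numbers of characters over an invariant block and over its local counterpart
(blocks with cyclic defect groups)
-/

set_option linter.unusedSectionVars false

namespace Pool.Agent.DPX

open Pool.Agent.DP Pool.Agent.DPV Pool.Agent.DPB Pool.Agent.DPW Pool.Agent.Lib_helper13
open Representation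

namespace FXAX

variable {T : Type} [Group T] [Fintype T] (𝔐 : Ideal (integralClosure ℤ ℂ)) {ℓ : ℕ}
  [Fact ℓ.Prime]

/-- CNTX for a subgroup which is equal to the normalizer. -/
theorem cntx_of_eq (h1 : Stmt_CNTX) (hmax : 𝔐.IsMaximal) (hℓ : (ℓ : integralClosure ℤ ℂ) ∈ 𝔐)
    {n : ℕ} {χ₀ : T → ℂ} (hχ₀ : IsIrr χ₀) (P₁ P : Subgroup T)
    (S : Subgroup T) [Fintype S] (hS : S = Subgroup.normalizer (P₁ : Set T)) {x₀ : T}
    (hA : AtX ℓ n (cen 𝔐 (MonoidHom.id T) χ₀) P₁ P x₀) :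
    Nat.card {χ : T → ℂ // IsIrr χ ∧
        cen 𝔐 (MonoidHom.id T) χ = cen 𝔐 (MonoidHom.id T) χ₀} =
      Nat.card {ψ : S → ℂ // IsIrr ψ ∧ cen 𝔐 S.subtype ψ = cen 𝔐 (MonoidHom.id T) χ₀} := by
  subst hS
  exact h1 T 𝔐 ℓ n hmax hℓ χ₀ hχ₀ P₁ P x₀ hA

end FXAX

theorem FXAX_thm (h1 : Stmt_CNTX) (h2 : Stmt_FXEX) : Stmt_FXAX := by
  intro G B C _ _ _ _ _ 𝔐 ℓ n _ hmax hℓ ι κ ρ h hC ω P₁ P x₀ hAt hinv
  classical
  have hmap : mapCh ι {P₁} = {P₁.map ι} := by
    ext E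
    rw [mem_mapCh, Finset.mem_singleton]
    constructor
    · rintro ⟨D, hD, rfl⟩
      rw [Finset.mem_singleton.mp hD]
    · rintro rfl
      exact ⟨P₁, Finset.mem_singleton_self P₁, rfl⟩
  have hYS : YS ι {P₁} = Subgroup.normalizer ((P₁.map ι : Subgroup B) : Set B) := by
    show stb (mapCh ι {P₁}) = _
    rw [hmap]
    exact LOC.stb_singleton _
  have hPB : Nat.card (P₁.map ι) = ℓ := by
    rw [← hAt.cd.c1]
    exact (Nat.card_congr (P₁.equivMapOfInjective ι h.cl.inj).toEquiv).symm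
  obtain ⟨h31, h32⟩ := FXF_thm COVW_thm G B C 𝔐 ℓ hmax hℓ ι κ ρ h.locN ω hinv
  have hfin1 : Finite {χ : B → ℂ // IsIrr χ ∧
      ∃ θ : G → ℂ, IsIrr θ ∧ cen 𝔐 (MonoidHom.id G) θ = ω ∧ ip (resj ι χ) θ ≠ 0} :=
    Finite.of_injective (fun χ => (⟨χ.1, χ.2.1⟩ : {χ : B → ℂ // IsIrr χ}))
      fun a b hab => Subtype.ext (Subtype.mk.inj hab)
  have hfin2 : Finite {η : YS ι {P₁} → ℂ // IsIrr η ∧
      ∃ ψ : stb {P₁} → ℂ, IsIrr ψ ∧ cen 𝔐 (stb {P₁}).subtype ψ = ω ∧
        ip (resj (jS h.cl {P₁}) η) ψ ≠ 0} :=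
    Finite.of_injective (fun χ => (⟨χ.1, χ.2.1⟩ : {χ : YS ι {P₁} → ℂ // IsIrr χ}))
      fun a b hab => Subtype.ext (Subtype.mk.inj hab)
  refine FXA.card_eq_of_fibers (fun χ => cen 𝔐 (MonoidHom.id B) χ.1)
    (fun η => cen 𝔐 (YS ι {P₁}).subtype η.1) ?_
  intro Ω
  by_cases hex : ∃ χ₀ : B → ℂ, IsIrr χ₀ ∧ cen 𝔐 (MonoidHom.id B) χ₀ = Ω ∧
      ∃ θ : G → ℂ, IsIrr θ ∧ cen 𝔐 (MonoidHom.id G) θ = ω ∧ ip (resj ι χ₀) θ ≠ 0
  · obtain ⟨χ₀, hχ₀, rfl, θ, hθ, hθω, hip⟩ := hex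
    have hAt' := h2 G B C 𝔐 ℓ n hmax hℓ ι κ ρ h hC ω P₁ P x₀ hAt hinv θ hθ hθω χ₀ hχ₀ hip
    have hcn := FXAX.cntx_of_eq 𝔐 h1 hmax hℓ hχ₀ (P₁.map ι) (P.map ι) (YS ι {P₁}) hYS hAt'
    have e1 : {a : {χ : B → ℂ // IsIrr χ ∧
        ∃ θ : G → ℂ, IsIrr θ ∧ cen 𝔐 (MonoidHom.id G) θ = ω ∧ ip (resj ι χ) θ ≠ 0} //
          cen 𝔐 (MonoidHom.id B) a.1 = cen 𝔐 (MonoidHom.id B) χ₀} ≃
        {χ : B → ℂ // IsIrr χ ∧
          cen 𝔐 (MonoidHom.id B) χ = cen 𝔐 (MonoidHom.id B) χ₀} :=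
      { toFun := fun a => ⟨a.1.1, a.1.2.1, a.2⟩
        invFun := fun a => ⟨⟨a.1, a.2.1, h31 χ₀ a.1 hχ₀ a.2.1 a.2.2.symm ⟨θ, hθ, hθω, hip⟩⟩, a.2.2⟩
        left_inv := fun _ => rfl
        right_inv := fun _ => rfl }
    have e2 : {b : {η : YS ι {P₁} → ℂ // IsIrr η ∧
        ∃ ψ : stb {P₁} → ℂ, IsIrr ψ ∧ cen 𝔐 (stb {P₁}).subtype ψ = ω ∧
          ip (resj (jS h.cl {P₁}) η) ψ ≠ 0} //
            cen 𝔐 (YS ι {P₁}).subtype b.1 = cen 𝔐 (MonoidHom.id B) χ₀} ≃
        {η : YS ι {P₁} → ℂ // IsIrr η ∧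
          cen 𝔐 (YS ι {P₁}).subtype η = cen 𝔐 (MonoidHom.id B) χ₀} :=
      { toFun := fun a => ⟨a.1.1, a.1.2.1, a.2⟩
        invFun := fun a => ⟨⟨a.1, a.2.1, (h32 P₁ hAt.cd.c1 χ₀ a.1 hχ₀ a.2.1 a.2.2.symm).mp
          ⟨θ, hθ, hθω, hip⟩⟩, a.2.2⟩
        left_inv := fun _ => rfl
        right_inv := fun _ => rfl }
    exact (Nat.card_congr e1).trans (hcn.trans (Nat.card_congr e2).symm)
  · have e1 : IsEmpty {a : {χ : B → ℂ // IsIrr χ ∧
        ∃ θ : G → ℂ, IsIrr θ ∧ cen 𝔐 (MonoidHom.id G) θ = ω ∧ ip (resj ι χ) θ ≠ 0} //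
          cen 𝔐 (MonoidHom.id B) a.1 = Ω} :=
      ⟨fun a => hex ⟨a.1.1, a.1.2.1, a.2, a.1.2.2⟩⟩
    have e2 : IsEmpty {b : {η : YS ι {P₁} → ℂ // IsIrr η ∧
        ∃ ψ : stb {P₁} → ℂ, IsIrr ψ ∧ cen 𝔐 (stb {P₁}).subtype ψ = ω ∧
          ip (resj (jS h.cl {P₁}) η) ψ ≠ 0} //
            cen 𝔐 (YS ι {P₁}).subtype b.1 = Ω} := by
      refine ⟨fun b => hex ?_⟩
      obtain ⟨χ, hχ, hc⟩ := FXA.exists_above 𝔐 hmax hℓ (P₁.map ι) hPB hmap b.1.2.1
      exact ⟨χ, hχ, hc.trans b.2, (h32 P₁ hAt.cd.c1 χ b.1.1 hχ b.1.2.1 hc).mpr b.1.2.2⟩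
    rw [Nat.card_of_isEmpty, Nat.card_of_isEmpty]

end Pool.Agent.DPX


end
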