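import Mathlib
import Pool.Agent.DAM.C19
import Pool.Agent.DAM.C26
import Pool.Agent.DAM.C29
import Pool.Agent.DAM.C40

/-! Parts: DPT.BTR, DPT.TY0, DPT.STA -/

section

/-!
# BTR: the commutator forms of corresponding characters, one layer
-/

set_option linter.unusedSectionVars false

namespace Pool.Agent.DPT

open Pool.Agent.DP Pool.Agent.DPC Pool.Agent.DPM Pool.Agent.DPN Pool.Agent.Lib_helper13
open Representation

namespace BTR

/-! ### Groups -/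

section Grp

variable {G : Type} [Group G] [Finite G]

theorem nrm {M : Subgroup G} {y : G} (hy : ∀ m ∈ M, y * m * y⁻¹ ∈ M) :
    y ∈ Subgroup.normalizer (M : Set G) :=
  Subgroup.mem_normalizer_fintype (S := (M : Set G)) hy

theorem nrm_iff {M : Subgroup G} {y : G} (hy : ∀ m ∈ M, y * m * y⁻¹ ∈ M) (m : G) :
    m ∈ M ↔ y * m * y⁻¹ ∈ M := Subgroup.mem_normalizer_iff.mp (nrm hy) m

theorem sup_le_nrm {M : Subgroup G} {y : G} (hy : ∀ m ∈ M, y * m * y⁻¹ ∈ M) :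
    M ⊔ Subgroup.zpowers y ≤ Subgroup.normalizer (M : Set G) := by
  refine sup_le Subgroup.le_normalizer ?_
  rw [Subgroup.zpowers_le]
  exact nrm hy

theorem sup_nrm {M : Subgroup G} {y : G} (hy : ∀ m ∈ M, y * m * y⁻¹ ∈ M) :
    ∀ s ∈ M ⊔ Subgroup.zpowers y, ∀ m ∈ M, s * m * s⁻¹ ∈ M := fun _ hs m hm =>
  (Subgroup.mem_normalizer_iff.mp (sup_le_nrm hy hs) m).mp hm

theorem mem_sup {M : Subgroup G} {y : G} (hy : ∀ m ∈ M, y * m * y⁻¹ ∈ M) {z : G} :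
    z ∈ M ⊔ Subgroup.zpowers y ↔ ∃ i : ℤ, ∃ m ∈ M, z = y ^ i * m := by
  have h1 : Subgroup.zpowers y ≤ Subgroup.normalizer (M : Set G) := by
    rw [Subgroup.zpowers_le]
    exact nrm hy
  have h2 := Subgroup.coe_mul_of_left_le_normalizer_right (Subgroup.zpowers y) M h1
  rw [sup_comm, ← SetLike.mem_coe, h2, Set.mem_mul]
  constructor
  · rintro ⟨a, ha, m, hm, rfl⟩
    obtain ⟨i, rfl⟩ := Subgroup.mem_zpowers_iff.mp ha
    exact ⟨i, m, hm, rfl⟩
  · rintro ⟨i, m, hm, rfl⟩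
    exact ⟨y ^ i, Subgroup.zpow_mem_zpowers y i, m, hm, rfl⟩

theorem pow_mem (M : Subgroup G) (y : G) (i : ℤ) : y ^ i ∈ M ⊔ Subgroup.zpowers y :=
  (le_sup_right : Subgroup.zpowers y ≤ M ⊔ Subgroup.zpowers y) (Subgroup.zpow_mem_zpowers y i)

/-- The centralizer of `R` in `⟨N, y⟩`. -/
theorem cN_sup {N R : Subgroup G} {y : G} (hy : ∀ n ∈ N, y * n * y⁻¹ ∈ N)
    (hc : ∀ r ∈ R, r * y = y * r) :
    cN (N ⊔ Subgroup.zpowers y) R = cN N R ⊔ Subgroup.zpowers y := by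
  have hyc : ∀ i : ℤ, ∀ r ∈ R, r * y ^ i = y ^ i * r := by
    intro i r hr
    exact (Commute.zpow_right (hc r hr : Commute r y) i).eq
  apply le_antisymm
  · rintro z ⟨hz1, hz2⟩
    obtain ⟨i, m, hm, rfl⟩ := (mem_sup hy).mp hz1
    refine mul_mem (pow_mem _ _ _) ((le_sup_left : cN N R ≤ _) ⟨hm, ?_⟩)
    refine Subgroup.mem_centralizer_iff.mpr ?_
    intro r hr
    have h1 := Subgroup.mem_centralizer_iff.mp hz2 r hr
    have h2 := hyc i r hr
    have h3 : y ^ i * (r * m) = y ^ i * (m * r) := by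
      calc y ^ i * (r * m) = (y ^ i * r) * m := by group
        _ = r * (y ^ i * m) := by rw [← h2]; group
        _ = y ^ i * m * r := h1
        _ = y ^ i * (m * r) := by group
    exact mul_left_cancel h3
  · refine sup_le ?_ ?_
    · rintro z ⟨h1, h2⟩
      exact ⟨(le_sup_left : N ≤ N ⊔ Subgroup.zpowers y) h1, h2⟩
    · rw [Subgroup.zpowers_le]
      refine ⟨(le_sup_right : Subgroup.zpowers y ≤ _) (Subgroup.mem_zpowers y), ?_⟩
      refine Subgroup.mem_centralizer_iff.mpr ?_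
      exact fun r hr => hc r hr

/-- `y` normalizes the centralizer. -/
theorem cN_nrm {N R : Subgroup G} {y : G} (hy : ∀ n ∈ N, y * n * y⁻¹ ∈ N)
    (hc : ∀ r ∈ R, r * y = y * r) : ∀ c ∈ cN N R, y * c * y⁻¹ ∈ cN N R := by
  rintro c ⟨h1, h2⟩
  refine ⟨hy c h1, ?_⟩
  refine Subgroup.mem_centralizer_iff.mpr ?_
  intro r hr
  have h3 := Subgroup.mem_centralizer_iff.mp h2 r hr
  have h4 := hc r hr
  have h5 : r * y⁻¹ = y⁻¹ * r := (Commute.inv_right (h4 : Commute r y)).eq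
  calc r * (y * c * y⁻¹) = (r * y) * c * y⁻¹ := by group
    _ = y * (r * c) * y⁻¹ := by rw [h4]; group
    _ = y * c * (r * y⁻¹) := by rw [h3]; group
    _ = y * c * y⁻¹ * r := by rw [h5]; group

end Grp

/-! ### Characters of a subgroup and of a subgroup containing it as a normal subgroup -/

section Rel

variable {G : Type} [Group G] [Fintype G] {M M' : Subgroup G}

theorem normal (hM : ∀ s ∈ M', ∀ m ∈ M, s * m * s⁻¹ ∈ M) : (M.subgroupOf M').Normal := by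
  refine ⟨fun m hm s => ?_⟩
  rw [Subgroup.mem_subgroupOf] at hm ⊢
  exact hM s s.2 m hm

theorem clG (hn : (M.subgroupOf M').Normal) :
    ClG (M.subgroupOf M').subtype (MulAut.conjNormal (H := M.subgroupOf M'))
      (QuotientGroup.mk' (M.subgroupOf M')) where
  inj := Subgroup.subtype_injective _
  act := fun y a => MulAut.conjNormal_apply y a
  ker := by
    intro y
    rw [Subgroup.range_subtype]
    exact QuotientGroup.eq_one_iff y

theorem irrA (hle : M ≤ M') {θ : G → ℂ} (hθ : IrrOn M θ) :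
    IsIrr (fun a : M.subgroupOf M' => θ ((a : M') : G)) :=
  hθ.1.comp_mulEquiv (Subgroup.subgroupOfEquivOfLe hle)

theorem ipA (hle : M ≤ M') (f g : G → ℂ) :
    ip (fun a : M.subgroupOf M' => f ((a : M') : G)) (fun a => g ((a : M') : G)) = iS M f g := by
  unfold iS ip
  rw [Nat.card_congr (Subgroup.subgroupOfEquivOfLe hle).toEquiv]
  congr 1
  exact Fintype.sum_equiv (Subgroup.subgroupOfEquivOfLe hle).toEquiv _ _ (fun a => rfl)

theorem wtA (hle : M ≤ M') (f g : G → ℂ) :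
    wt (fun a : M.subgroupOf M' => f ((a : M') : G)) (fun a => g ((a : M') : G)) = wS M f g :=
  wt_comp_equiv (Subgroup.subgroupOfEquivOfLe hle) (fun m : M => f m) (fun m : M => g m)

/-- The weights of functions on `M` with respect to a character of `M'` over a character of
`M`. -/
theorem wS_under (h6 : Stmt_SUMM) (hle : M ≤ M') (hM : ∀ s ∈ M', ∀ m ∈ M, s * m * s⁻¹ ∈ M)
    {ψ θ F : G → ℂ} (hψ : IrrOn M' ψ) (hθ : IrrOn M θ) (hip : iS M ψ θ ≠ 0)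
    (hF : ∀ g ∈ M', ∀ x ∈ M', F (g * x * g⁻¹) = F x) (h0 : ∀ x ∈ M', x ∉ M → F x = 0) :
    wS M' ψ F = wS M θ F := by
  have hn := normal hM
  have h := (h6 _ _ _ _ _ _ (clG hn)).2.2.2 (fun a : M.subgroupOf M' => θ ((a : M') : G))
    (fun s : M' => ψ s) (fun s : M' => F s) (irrA hle hθ) hψ.1 ?_ ?_ ?_
  · rw [← wtA hle]
    exact h
  · rw [← ipA hle] at hip
    exact hip
  · intro g x
    exact hF g g.2 x x.2
  · intro y hy
    rw [Subgroup.range_subtype] at hy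
    exact h0 y y.2 hy

theorem IrrOn_class {θ : G → ℂ} (hθ : IrrOn M θ) : M ≤ sx θ := by
  intro m hm x
  by_cases hx : x ∈ M
  · exact hθ.1.conj_eq ⟨m, hm⟩ ⟨x, hx⟩
  · rw [hθ.2 x hx]
    apply hθ.2
    intro h
    apply hx
    have h1 := mul_mem (mul_mem (inv_mem hm) h) hm
    have h2 : m⁻¹ * (m * x * m⁻¹) * m = x := by group
    rwa [h2] at h1

/-- A character of `M` under a character of `M'`. -/
theorem exists_under (hle : M ≤ M') {ψ : G → ℂ} (hψ : IrrOn M' ψ) :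
    ∃ ξ, IrrOn M ξ ∧ iS M ψ ξ ≠ 0 := by
  classical
  by_contra hcon
  push Not at hcon
  have hcl : ∀ g x : M, ψ ((g * x * g⁻¹ : M) : G) = ψ (x : G) := by
    intro g x
    exact hψ.1.conj_eq ⟨g, hle g.2⟩ ⟨x, hle x.2⟩
  have h1 := class_fn_expand (Y := M) (fun m : M => ψ m) hcl
  have h2 : ∀ χ ∈ irrF M, ip (fun m : M => ψ m) χ = 0 := by
    intro χ hχ
    have h3 := hcon (ext0 χ) ⟨by
      have : (fun s : M => ext0 χ (s : G)) = χ := by
        funext s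
        rw [ext0_of_mem χ s.2]
      rw [this]
      exact mem_irrF.mp hχ, fun x hx => ext0_of_not_mem χ hx⟩
    unfold iS at h3
    have : (fun s : M => ext0 χ (s : G)) = χ := by
      funext s
      rw [ext0_of_mem χ s.2]
    rwa [this] at h3
  have h4 := congrFun h1 1
  rw [Finset.sum_eq_zero (fun χ hχ => by rw [h2 χ hχ, zero_mul])] at h4
  exact hψ.1.one_ne_zero h4

end Rel

/-! ### Linear characters -/

section Lin

/-- Twists of irreducible characters by linear characters. -/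
theorem isIrr_tw {Y : Type} [Group Y] [Finite Y] {η : Y → ℂ} (h : IsIrr η) (c : Y →* ℂˣ) :
    IsIrr (fun y => η y * ((c y : ℂˣ) : ℂ)) := by
  have : Fintype Y := Fintype.ofFinite _
  refine (h.isChr.mul (isChr_lin c)).isIrr ?_
  rw [← h.sum_self]
  refine Finset.sum_congr rfl fun y _ => ?_
  rw [map_inv]
  have h1 : ((c y : ℂˣ) : ℂ) * (((c y)⁻¹ : ℂˣ) : ℂ) = 1 := (c y).mul_inv
  calc η y * ((c y : ℂˣ) : ℂ) * (η y⁻¹ * (((c y)⁻¹ : ℂˣ) : ℂ))
      = (η y * η y⁻¹) * (((c y : ℂˣ) : ℂ) * (((c y)⁻¹ : ℂˣ) : ℂ)) := by ring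
    _ = η y * η y⁻¹ := by rw [h1, mul_one]

theorem one_of_cyclic {K : Type} [Group K] (hK : IsCyclic K) {η : K → ℂ} (h : IsIrr η) :
    η 1 = 1 := by
  have : IsMulCommutative K := inferInstance
  obtain ⟨n, τ, hτ, rfl⟩ := h
  have h1 := Representation.IsIrreducible.finrank_eq_one_of_isMulCommutative τ
  rw [Representation.char_one, h1, Nat.cast_one]

theorem trace_mul_one_dim (f g : (Fin 1 → ℂ) →ₗ[ℂ] (Fin 1 → ℂ)) :
    LinearMap.trace ℂ _ (f * g) = LinearMap.trace ℂ _ f * LinearMap.trace ℂ _ g := by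
  rw [LinearMap.trace_eq_matrix_trace ℂ (Pi.basisFun ℂ (Fin 1)),
    LinearMap.trace_eq_matrix_trace ℂ (Pi.basisFun ℂ (Fin 1)),
    LinearMap.trace_eq_matrix_trace ℂ (Pi.basisFun ℂ (Fin 1)), LinearMap.toMatrix_mul]
  simp [Matrix.trace, Matrix.mul_apply]

theorem lin_mul {K : Type} [Group K] {η : K → ℂ} (h : IsIrr η) (h1 : η 1 = 1) (a b : K) :
    η (a * b) = η a * η b := by
  obtain ⟨n, ρ, _, rfl⟩ := h
  have hn : n = 1 := by
    rw [char_one] at h1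
    simpa using h1
  subst hn
  change LinearMap.trace ℂ _ (ρ (a * b)) = LinearMap.trace ℂ _ (ρ a) * LinearMap.trace ℂ _ (ρ b)
  rw [map_mul]
  exact trace_mul_one_dim _ _

theorem exists_lin {K : Type} [Group K] {η : K → ℂ} (h : IsIrr η) (h1 : η 1 = 1) :
    ∃ lam : K →* ℂˣ, ∀ k, ((lam k : ℂˣ) : ℂ) = η k :=
  ⟨MonoidHom.toHomUnits { toFun := η, map_one' := h1, map_mul' := lin_mul h h1 },
    fun _ => rfl⟩

end Lin

section Tw

variable {G : Type} [Group G] [Fintype G] {N' : Subgroup G}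

theorem lam_integral (lam : N' →* ℂˣ) (z : N') : IsIntegral ℤ ((lam z : ℂˣ) : ℂ) := by
  apply IsIntegral.of_pow (Nat.card_pos (α := N'))
  rw [← Units.val_pow_eq_pow_val, ← map_pow, pow_card_eq_one', map_one, Units.val_one]
  exact isIntegral_one

open Classical in
/-- The product with a linear character of a subgroup. -/
noncomputable def tw (lam : N' →* ℂˣ) (f : G → ℂ) (x : G) : ℂ :=
  if h : x ∈ N' then f x * ((lam ⟨x, h⟩ : ℂˣ) : ℂ) else 0

theorem tw_of_mem (lam : N' →* ℂˣ) (f : G → ℂ) {x : G} (h : x ∈ N') :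
    tw lam f x = f x * ((lam ⟨x, h⟩ : ℂˣ) : ℂ) := dif_pos h

theorem tw_of_not_mem (lam : N' →* ℂˣ) (f : G → ℂ) {x : G} (h : x ∉ N') :
    tw lam f x = 0 := dif_neg h

theorem tw_one (lam : N' →* ℂˣ) (f : G → ℂ) : tw lam f 1 = f 1 := by
  rw [tw_of_mem lam f N'.one_mem]
  have h : lam ⟨1, N'.one_mem⟩ = 1 := map_one lam
  rw [h, Units.val_one, mul_one]

theorem tw_irr {C : Subgroup G} (hC : C ≤ N') (lam : N' →* ℂˣ) {f : G → ℂ} (hf : IrrOn C f) :
    IrrOn C (tw lam f) := by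
  refine ⟨?_, ?_⟩
  · have h := isIrr_tw hf.1 (lam.comp (Subgroup.inclusion hC))
    have h1 : (fun s : C => tw lam f (s : G)) =
        fun s : C => f (s : G) * (((lam.comp (Subgroup.inclusion hC)) s : ℂˣ) : ℂ) := by
      funext s
      exact tw_of_mem lam f (hC s.2)
    rw [h1]
    exact h
  · intro x hx
    by_cases h : x ∈ N'
    · rw [tw_of_mem lam f h, hf.2 x hx, zero_mul]
    · exact tw_of_not_mem lam f h

theorem tw_ID {ℓ d : ℕ} {C : Subgroup G} (hC : C ≤ N') (lam : N' →* ℂˣ) {f : G → ℂ}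
    (hf : ID ℓ C d f) : ID ℓ C d (tw lam f) := by
  refine ⟨tw_irr hC lam hf.1, ?_⟩
  obtain ⟨n, hn, hn'⟩ := hf.2
  refine ⟨n, ?_, hn'⟩
  change tw lam f ((1 : C) : G) = n
  rw [← hn]
  exact tw_one lam f

theorem wS_tw {C : Subgroup G} (hC : C ≤ N') (lam : N' →* ℂˣ) (f F : G → ℂ) :
    wS C (tw lam f) F = wS C f (tw lam F) := by
  change (∑ s : C, F s * tw lam f s) / tw lam f ((1 : C) : G) =
    (∑ s : C, tw lam F s * f s) / f ((1 : C) : G)
  have h1 : tw lam f ((1 : C) : G) = f ((1 : C) : G) := tw_one lam f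
  rw [h1]
  congr 1
  refine Finset.sum_congr rfl fun s _ => ?_
  rw [tw_of_mem lam f (hC s.2), tw_of_mem lam F (hC s.2)]
  ring

theorem tw_DGs (𝔐 : Ideal (integralClosure ℤ ℂ)) {R : Subgroup G}
    (hR : ∀ r ∈ R, ∀ z ∈ N', r * z * r⁻¹ ∈ N') (lam : N' →* ℂˣ)
    (hl : ∀ r ∈ R, ∀ (z : G) (hz : z ∈ N') (hz' : r * z * r⁻¹ ∈ N'),
      lam ⟨r * z * r⁻¹, hz'⟩ = lam ⟨z, hz⟩) {θ' θ : G → ℂ} (h : DGs 𝔐 N' R θ' θ) :
    DGs 𝔐 N' R (tw lam θ') (tw lam θ) := by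
  intro F h1 h2 h3
  have hC : cN N' R ≤ N' := inf_le_left
  rw [wS_tw hC, wS_tw le_rfl]
  apply h
  · intro n hn x hx
    have hx' : n * x * n⁻¹ ∈ N' := mul_mem (mul_mem hn hx) (inv_mem hn)
    rw [tw_of_mem lam F hx, tw_of_mem lam F hx', h1 n hn x hx]
    congr 2
    have h4 : (⟨n * x * n⁻¹, hx'⟩ : N') = ⟨n, hn⟩ * ⟨x, hx⟩ * ⟨n, hn⟩⁻¹ := rfl
    rw [h4, map_mul, map_mul, map_inv, mul_comm, ← mul_assoc, inv_mul_cancel, one_mul]
  · intro r hr x hx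
    have hx' : r * x * r⁻¹ ∈ N' := hR r hr x hx
    rw [tw_of_mem lam F hx, tw_of_mem lam F hx', h2 r hr x hx, hl r hr x hx hx']
  · intro x
    by_cases hx : x ∈ N'
    · rw [tw_of_mem lam F hx]
      exact (h3 x).mul (lam_integral lam _)
    · rw [tw_of_not_mem lam F hx]
      exact isIntegral_zero

end Tw

/-! ### Cyclic quotients -/

section Cyc

variable {G : Type} [Group G] [Fintype G] {M : Subgroup G} {y : G}

theorem mem_zp (hy : ∀ m ∈ M, y * m * y⁻¹ ∈ M)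
    [hN : (M.subgroupOf (M ⊔ Subgroup.zpowers y)).Normal]
    (x : ↥(M ⊔ Subgroup.zpowers y) ⧸ M.subgroupOf (M ⊔ Subgroup.zpowers y)) :
    x ∈ Subgroup.zpowers (QuotientGroup.mk' (M.subgroupOf (M ⊔ Subgroup.zpowers y))
      ⟨y, (le_sup_right : Subgroup.zpowers y ≤ M ⊔ Subgroup.zpowers y)
        (Subgroup.mem_zpowers y)⟩) := by
  obtain ⟨⟨z, hz⟩, rfl⟩ := QuotientGroup.mk'_surjective _ x
  obtain ⟨i, m, hm, rfl⟩ := (mem_sup hy).mp hz
  rw [Subgroup.mem_zpowers_iff]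
  refine ⟨i, ?_⟩
  rw [← map_zpow]
  change ((QuotientGroup.mk _ : _ ⧸ _)) = QuotientGroup.mk _
  rw [QuotientGroup.eq, Subgroup.mem_subgroupOf]
  change (y ^ i)⁻¹ * (y ^ i * m) ∈ M
  rw [inv_mul_cancel_left]
  exact hm

theorem cyc (hy : ∀ m ∈ M, y * m * y⁻¹ ∈ M)
    [hN : (M.subgroupOf (M ⊔ Subgroup.zpowers y)).Normal] :
    IsCyclic (↥(M ⊔ Subgroup.zpowers y) ⧸ M.subgroupOf (M ⊔ Subgroup.zpowers y)) :=
  ⟨⟨_, mem_zp hy⟩⟩

theorem padic_eq {ℓ : ℕ} [Fact ℓ.Prime] (hy : ∀ m ∈ M, y * m * y⁻¹ ∈ M) {n : ℕ} (hn : ¬ ℓ ∣ n)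
    (hyn : y ^ n ∈ M) :
    padicValNat ℓ (Nat.card ↥(M ⊔ Subgroup.zpowers y)) = padicValNat ℓ (Nat.card M) := by
  have hN := normal (sup_nrm hy)
  set g : ↥(M ⊔ Subgroup.zpowers y) ⧸ M.subgroupOf (M ⊔ Subgroup.zpowers y) :=
    QuotientGroup.mk' (M.subgroupOf (M ⊔ Subgroup.zpowers y))
      ⟨y, (le_sup_right : Subgroup.zpowers y ≤ M ⊔ Subgroup.zpowers y)
        (Subgroup.mem_zpowers y)⟩ with hg
  have h1 : orderOf g = Nat.card (↥(M ⊔ Subgroup.zpowers y) ⧸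
      M.subgroupOf (M ⊔ Subgroup.zpowers y)) :=
    orderOf_eq_card_of_forall_mem_zpowers (mem_zp hy)
  have h2 : g ^ n = 1 := by
    rw [hg, ← map_pow]
    refine (QuotientGroup.eq_one_iff _).mpr ?_
    rw [Subgroup.mem_subgroupOf]
    exact hyn
  have h3 : ¬ ℓ ∣ Nat.card (↥(M ⊔ Subgroup.zpowers y) ⧸
      M.subgroupOf (M ⊔ Subgroup.zpowers y)) := by
    intro h
    rw [← h1] at h
    exact hn (h.trans (orderOf_dvd_of_pow_eq_one h2))
  rw [Subgroup.card_eq_card_quotient_mul_card_subgroup (M.subgroupOf (M ⊔ Subgroup.zpowers y)),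
    Nat.card_congr (Subgroup.subgroupOfEquivOfLe (le_sup_left : M ≤ M ⊔
      Subgroup.zpowers y)).toEquiv, padicValNat.mul Nat.card_pos.ne' Nat.card_pos.ne',
    padicValNat.eq_zero_of_not_dvd h3, zero_add]

/-- The defect of extensions. -/
theorem ID_of_ext {ℓ : ℕ} [Fact ℓ.Prime] (hy : ∀ m ∈ M, y * m * y⁻¹ ∈ M) {n : ℕ}
    (hn : ¬ ℓ ∣ n) (hyn : y ^ n ∈ M) {θ E : G → ℂ} (hθ : ID ℓ M 0 θ)
    (hE : IrrOn (M ⊔ Subgroup.zpowers y) E) (h : ∀ m ∈ M, E m = θ m) :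
    ID ℓ (M ⊔ Subgroup.zpowers y) 0 E := by
  refine ⟨hE, ?_⟩
  obtain ⟨k, hk, hk'⟩ := hθ.2
  refine ⟨k, ?_, ?_⟩
  · rw [← hk]
    exact h 1 M.one_mem
  · rw [padic_eq hy hn hyn]
    exact hk'

theorem inv_sup {θ : G → ℂ} (hθ : IrrOn M θ) (hyθ : y ∈ sx θ) :
    M ⊔ Subgroup.zpowers y ≤ sx θ := by
  refine sup_le (IrrOn_class hθ) ?_
  rw [Subgroup.zpowers_le]
  exact hyθ

theorem exists_ext (h4 : Stmt_EXTC) {ℓ : ℕ} [Fact ℓ.Prime] (hy : ∀ m ∈ M, y * m * y⁻¹ ∈ M)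
    {n : ℕ} (hn : ¬ ℓ ∣ n) (hyn : y ^ n ∈ M) {θ : G → ℂ} (hθ : ID ℓ M 0 θ) (hyθ : y ∈ sx θ) :
    ∃ E, ID ℓ (M ⊔ Subgroup.zpowers y) 0 E ∧ ∀ m ∈ M, E m = θ m := by
  classical
  have hN := normal (sup_nrm hy)
  have hinv := inv_sup hθ.1 hyθ
  obtain ⟨E, hE, hEθ⟩ := h4 _ _ _ _ _ _ (clG hN) (QuotientGroup.mk'_surjective _) (cyc hy)
    (fun a : M.subgroupOf (M ⊔ Subgroup.zpowers y) =>
      θ ((a : ↥(M ⊔ Subgroup.zpowers y)) : G)) (irrA le_sup_left hθ.1) (by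
        intro s a
        exact hinv s.2 _)
  have hext : ∀ m ∈ M, ext0 E m = θ m := by
    intro m hm
    have hm' : m ∈ M ⊔ Subgroup.zpowers y := (le_sup_left : M ≤ _) hm
    rw [ext0_of_mem E hm']
    exact hEθ ⟨⟨m, hm'⟩, hm⟩
  refine ⟨ext0 E, ID_of_ext hy hn hyn hθ ⟨?_, fun x hx => ext0_of_not_mem E hx⟩ hext, hext⟩
  have : (fun s : ↥(M ⊔ Subgroup.zpowers y) => ext0 E (s : G)) = E := by
    funext s
    rw [ext0_of_mem E s.2]
  rw [this]
  exact hE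

/-- The characters of `⟨M, y⟩` over a character which extends. -/
theorem gall (h5 : Stmt_GALL) (hy : ∀ m ∈ M, y * m * y⁻¹ ∈ M) {θ E ψ : G → ℂ}
    (hθ : IrrOn M θ) (hE : IrrOn (M ⊔ Subgroup.zpowers y) E) (hEθ : ∀ m ∈ M, E m = θ m)
    (hψ : IrrOn (M ⊔ Subgroup.zpowers y) ψ) (hip : iS M ψ θ ≠ 0) :
    ∃ lam : ↥(M ⊔ Subgroup.zpowers y) →* ℂˣ,
      (∀ m : ↥(M ⊔ Subgroup.zpowers y), (m : G) ∈ M → lam m = 1) ∧ ψ = tw lam E := by
  classical
  have hN := normal (sup_nrm hy)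
  have : Fintype (↥(M ⊔ Subgroup.zpowers y) ⧸ M.subgroupOf (M ⊔ Subgroup.zpowers y)) :=
    Fintype.ofFinite _
  obtain ⟨η, hη, hψη⟩ := (h5 _ _ _ _ _ _ (clG hN) (QuotientGroup.mk'_surjective _)
    (fun a : M.subgroupOf (M ⊔ Subgroup.zpowers y) =>
      θ ((a : ↥(M ⊔ Subgroup.zpowers y)) : G))
    (fun s : ↥(M ⊔ Subgroup.zpowers y) => E s) (irrA le_sup_left hθ) hE.1.isChr
    (fun a => hEθ _ a.2)).2.2 (fun s : ↥(M ⊔ Subgroup.zpowers y) => ψ s) hψ.1 (by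
      rw [← ipA (le_sup_left : M ≤ M ⊔ Subgroup.zpowers y)] at hip
      exact hip)
  obtain ⟨ν, hν⟩ := exists_lin hη (one_of_cyclic (cyc hy) hη)
  refine ⟨ν.comp (QuotientGroup.mk' _), ?_, ?_⟩
  · intro m hm
    have h1 : QuotientGroup.mk' (M.subgroupOf (M ⊔ Subgroup.zpowers y)) m = 1 :=
      (QuotientGroup.eq_one_iff _).mpr hm
    rw [MonoidHom.comp_apply, h1, map_one]
  · funext x
    by_cases hx : x ∈ M ⊔ Subgroup.zpowers y
    · rw [tw_of_mem _ E hx, MonoidHom.comp_apply, hν]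
      exact congrFun hψη ⟨x, hx⟩
    · rw [tw_of_not_mem _ E hx, hψ.2 x hx]

end Cyc

section Main

variable {G : Type} [Group G] [Fintype G]

theorem iS_self {M : Subgroup G} {θ ψ : G → ℂ} (hθ : IrrOn M θ) (h : ∀ m ∈ M, ψ m = θ m) :
    iS M ψ θ ≠ 0 := by
  have h1 : (fun m : M => ψ m) = fun m : M => θ m := funext fun m => h m m.2
  unfold iS
  rw [h1, ip_self hθ.1]
  exact one_ne_zero

/-- Some value of an extension above `y` does not vanish. -/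
theorem exists_ne {N : Subgroup G} {y : G} (hy : ∀ n ∈ N, y * n * y⁻¹ ∈ N) {θ E : G → ℂ}
    (hθ : IrrOn N θ) (hE : IrrOn (N ⊔ Subgroup.zpowers y) E) (hEθ : ∀ n ∈ N, E n = θ n) :
    ∃ n ∈ N, E (y * n) ≠ 0 := by
  by_contra hcon
  push Not at hcon
  have hN := normal (sup_nrm hy)
  have hy' : y ∈ N ⊔ Subgroup.zpowers y :=
    (le_sup_right : Subgroup.zpowers y ≤ _) (Subgroup.mem_zpowers y)
  have h := COSET_thm _ _ _ _ _ _ (clG hN)
    (fun a : N.subgroupOf (N ⊔ Subgroup.zpowers y) =>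
      θ ((a : ↥(N ⊔ Subgroup.zpowers y)) : G))
    (fun s : ↥(N ⊔ Subgroup.zpowers y) => E s) (irrA le_sup_left hθ) hE.1.isChr
    (fun a => hEθ _ a.2) ⟨y, hy'⟩
  rw [Finset.sum_eq_zero (fun a _ => ?_)] at h
  · exact natCard_ne_zero h.symm
  · have h1 : E ((⟨y, hy'⟩ * (N.subgroupOf (N ⊔ Subgroup.zpowers y)).subtype a :
        ↥(N ⊔ Subgroup.zpowers y)) : G) = 0 := hcon _ a.2
    rw [h1, zero_mul]

theorem tw_inv {N' : Subgroup G} (lam : N' →* ℂˣ) {E E₀ : G → ℂ} (hE : ∀ x, x ∉ N' → E x = 0)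
    (h : E₀ = tw lam E) : E = tw lam⁻¹ E₀ := by
  funext x
  by_cases hx : x ∈ N'
  · rw [tw_of_mem _ _ hx, h, tw_of_mem _ _ hx]
    have h1 : ((lam ⟨x, hx⟩ : ℂˣ) : ℂ) * (((lam ⟨x, hx⟩)⁻¹ : ℂˣ) : ℂ) = 1 :=
      (lam ⟨x, hx⟩).mul_inv
    change E x = E x * ((lam ⟨x, hx⟩ : ℂˣ) : ℂ) * (((lam ⟨x, hx⟩)⁻¹ : ℂˣ) : ℂ)
    rw [mul_assoc, h1, mul_one]
  · rw [tw_of_not_mem _ _ hx, hE x hx]

end Main

end BTR

open _root_.Pool.Agent.DPT.BTR in
theorem BTR_thm (h1 : Stmt_DGSB) (h2 : Stmt_DGSC) (h3 : Stmt_BTX) (h4 : Stmt_EXTC)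
    (h5 : Stmt_GALL) (h6 : Stmt_SUMM) : Stmt_BTR := by
  intro G _ _ 𝔐 ℓ _ hmax hℓ N R hR hRN θ θ' hθ hθ' hD x y hxN hyN hxθ hyθ hxR hyR hxy n hn hyn
    ζ hBT
  classical
  have hprime : 𝔐.IsPrime := hmax.isPrime
  have eC' : cN (N ⊔ Subgroup.zpowers y) R = cN N R ⊔ Subgroup.zpowers y := cN_sup hyN hyR
  have hyC : ∀ c ∈ cN N R, y * c * y⁻¹ ∈ cN N R := cN_nrm hyN hyR
  have hCN : cN N R ≤ N := inf_le_left
  have hCN' : cN N R ⊔ Subgroup.zpowers y ≤ N ⊔ Subgroup.zpowers y := sup_le_sup_right hCN _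
  have hyci : ∀ i : ℤ, ∀ r ∈ R, r * y ^ i = y ^ i * r := by
    intro i r hr
    exact (Commute.zpow_right (hyR r hr : Commute r y) i).eq
  have hynC : y ^ n ∈ cN N R := by
    refine ⟨hyn, Subgroup.mem_centralizer_iff.mpr ?_⟩
    intro r hr
    exact (Commute.pow_right (hyR r hr : Commute r y) n).eq
  obtain ⟨B1, B2, B3, B4⟩ := h1 G 𝔐 ℓ hmax hℓ N R hR hRN
  have hRθ : R ≤ sx θ := (B2 θ' θ hθ' hθ hD).1
  have hinvN' : N ⊔ Subgroup.zpowers y ≤ sx θ := inv_sup hθ.1 hyθ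
  -- `θ'` is invariant under `y`
  have hyθ' : y ∈ sx θ' := by
    obtain ⟨S1, S2⟩ := h2 G 𝔐 ℓ 0 y
    have e2 : ∀ z, z ∈ R ↔ y * z * y⁻¹ ∈ R := by
      intro z
      constructor
      · intro hz
        have h : y * z * y⁻¹ = z := by
          rw [← hyR z hz]
          group
        rw [h]
        exact hz
      · intro hz
        have h := hyR _ hz
        have h' : z = y * z * y⁻¹ := by
          have h'' : y * z = y * (y * z * y⁻¹) := by
            rw [← h]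
            group
          exact mul_left_cancel h''
        rw [h']
        exact hz
    obtain ⟨e3, e4⟩ := S2 N N R R θ' θ (nrm_iff hyN) e2 hD
    have e5 := S1 (cN N R) (cN N R) θ' e3 hθ'
    have e6 : (fun z => θ (y * z * y⁻¹)) = θ := funext hyθ
    rw [e6] at e4
    exact congrFun (B4 _ _ θ e5 hθ' hθ e4 hD)
  obtain ⟨E₀', hE₀', hE₀'θ⟩ := exists_ext h4 hyC hn hynC hθ' hyθ'
  -- `R` normalizes `⟨N, y⟩`
  have hconj : ∀ (i : ℤ), ∀ r ∈ R, ∀ m : G, r * (y ^ i * m) * r⁻¹ = y ^ i * (r * m * r⁻¹) := by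
    intro i r hr m
    calc r * (y ^ i * m) * r⁻¹ = (r * y ^ i) * m * r⁻¹ := by group
      _ = y ^ i * (r * m * r⁻¹) := by rw [hyci i r hr]; group
  have hRN' : ∀ r ∈ R, ∀ z ∈ N ⊔ Subgroup.zpowers y, r * z * r⁻¹ ∈ N ⊔ Subgroup.zpowers y := by
    intro r hr z hz
    obtain ⟨i, m, hm, rfl⟩ := (mem_sup hyN).mp hz
    rw [hconj i r hr m]
    exact (mem_sup hyN).mpr ⟨i, _, hRN r hr m hm, rfl⟩
  have hlR : ∀ (lam : ↥(N ⊔ Subgroup.zpowers y) →* ℂˣ),
      (∀ m : ↥(N ⊔ Subgroup.zpowers y), (m : G) ∈ N → lam m = 1) → ∀ r ∈ R, ∀ (z : G)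
      (hz : z ∈ N ⊔ Subgroup.zpowers y) (hz' : r * z * r⁻¹ ∈ N ⊔ Subgroup.zpowers y),
      lam ⟨r * z * r⁻¹, hz'⟩ = lam ⟨z, hz⟩ := by
    intro lam hlam r hr z hz hz'
    have e : (⟨r * z * r⁻¹, hz'⟩ : ↥(N ⊔ Subgroup.zpowers y)) =
        ⟨z, hz⟩ * ⟨z⁻¹ * (r * z * r⁻¹), mul_mem (inv_mem hz) hz'⟩ :=
      Subtype.ext (mul_inv_cancel_left z (r * z * r⁻¹)).symm
    have hq : z⁻¹ * (r * z * r⁻¹) ∈ N → lam ⟨z⁻¹ * (r * z * r⁻¹),
        mul_mem (inv_mem hz) hz'⟩ = 1 := fun h => hlam ⟨_, _⟩ h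
    rw [e, map_mul, hq, mul_one]
    obtain ⟨i, m, hm, rfl⟩ := (mem_sup hyN).mp hz
    rw [hconj i r hr m]
    have h : (y ^ i * m)⁻¹ * (y ^ i * (r * m * r⁻¹)) = m⁻¹ * (r * m * r⁻¹) := by group
    rw [h]
    exact mul_mem (inv_mem hm) (hRN r hr m hm)
  obtain ⟨D1, D2, D3, D4⟩ := h1 G 𝔐 ℓ hmax hℓ (N ⊔ Subgroup.zpowers y) R hR hRN'
  rw [eC'] at D1 D4
  obtain ⟨E₀, hE₀, hDE₀⟩ := D1 E₀' hE₀'
  -- `θ` lies under `E₀`
  have hunder : iS N E₀ θ ≠ 0 := by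
    obtain ⟨ξ, hξ, hip⟩ := exists_under (M := N) le_sup_left hE₀.1
    suffices hξθ : ξ = θ by
      rw [← hξθ]
      exact hip
    by_contra hne
    have hFint : ∀ z, IsIntegral ℤ (θ z⁻¹) := by
      intro z
      by_cases hz : z⁻¹ ∈ N
      · exact isIntegral_char hθ.1.1 ⟨z⁻¹, hz⟩
      · rw [hθ.1.2 _ hz]
        exact isIntegral_zero
    have F1 : ∀ g ∈ sx θ, ∀ z, θ (g * z * g⁻¹)⁻¹ = θ z⁻¹ := by
      intro g hg z
      have h : (g * z * g⁻¹)⁻¹ = g * z⁻¹ * g⁻¹ := by group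
      rw [h]
      exact mem_sx.mp hg _
    have a1 : wS (N ⊔ Subgroup.zpowers y) E₀ (fun z => θ z⁻¹) = wS N ξ (fun z => θ z⁻¹) :=
      wS_under h6 le_sup_left (sup_nrm hyN) hE₀.1 hξ hip (fun g hg z _ => F1 g (hinvN' hg) z)
        (fun z _ hz => hθ.1.2 _ (fun h => hz (by
          have h' := inv_mem h
          rwa [inv_inv] at h')))
    have a2 := hDE₀ (fun z => θ z⁻¹) (fun g hg z _ => F1 g (hinvN' hg) z)
      (fun r hr z _ => F1 r (hRθ hr) z) hFint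
    rw [eC'] at a2
    have a3 : wS (cN N R ⊔ Subgroup.zpowers y) E₀' (fun z => θ z⁻¹) =
        wS (cN N R) θ' (fun z => θ z⁻¹) :=
      wS_under h6 le_sup_left (sup_nrm hyC) hE₀'.1 hθ'.1 (iS_self hθ'.1 hE₀'θ)
        (fun g hg z _ => F1 g (hinvN' (hCN' hg)) z)
        (fun z hz hzC => hθ.1.2 _ (fun h => hzC (by
          have h' := inv_mem h
          rw [inv_inv] at h'
          rw [← eC'] at hz
          exact ⟨h', hz.2⟩)))
    have a4 := hD (fun z => θ z⁻¹) (fun g hg z _ => F1 g (IrrOn_class hθ.1 hg) z)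
      (fun r hr z _ => F1 r (hRθ hr) z) hFint
    have a5 : wS N ξ (fun z => θ z⁻¹) = 0 := by
      have hne' : (fun s : N => ξ s) ≠ fun s : N => θ s := by
        intro h
        apply hne
        funext z
        by_cases hz : z ∈ N
        · exact congrFun h ⟨z, hz⟩
        · rw [hξ.2 z hz, hθ.1.2 z hz]
      have h := hξ.1.sum_ne hθ.1.1 hne'
      change (∑ s : N, θ ((s : G))⁻¹ * ξ s) / ξ ((1 : N) : G) = 0
      have h'' : (∑ s : N, θ ((s : G))⁻¹ * ξ s) = ∑ s : N, ξ s * θ ((s : G))⁻¹ :=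
        Finset.sum_congr rfl (fun s _ => mul_comm _ _)
      have h' : (∑ s : N, ξ s * θ ((s : G))⁻¹) = 0 := h
      rw [h'', h', zero_div]
    have a6 : wS N θ (fun z => θ z⁻¹) = Nat.card N / θ ((1 : N) : G) := by
      have h := hθ.1.1.sum_self
      change (∑ s : N, θ ((s : G))⁻¹ * θ s) / θ ((1 : N) : G) = _
      have h'' : (∑ s : N, θ ((s : G))⁻¹ * θ s) = ∑ s : N, θ s * θ ((s : G))⁻¹ :=
        Finset.sum_congr rfl (fun s _ => mul_comm _ _)
      have h' : (∑ s : N, θ s * θ ((s : G))⁻¹) = Nat.card N := h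
      rw [h'', h']
    have a7 := red_codeg_ne_zero 𝔐 hℓ hθ.1.1 hθ.2
    apply a7
    have a8 : red 𝔐 (Nat.card N / θ ((1 : N) : G)) = red 𝔐 0 := by
      rw [← a6, ← a4, ← a3, a2, a1, a5]
    exact a8.trans (red_zero 𝔐)
  obtain ⟨E, hE, hEθ, hEx⟩ := hBT
  obtain ⟨lam, hlam, hlamE⟩ := gall h5 hyN hθ.1 hE hEθ hE₀.1 hunder
  have hEE : E = tw lam⁻¹ E₀ := tw_inv lam hE.2 hlamE
  have hlam' : ∀ m : ↥(N ⊔ Subgroup.zpowers y), (m : G) ∈ N → lam⁻¹ m = 1 := by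
    intro m hm
    rw [MonoidHom.inv_apply, hlam m hm, inv_one]
  have hEID : ID ℓ (N ⊔ Subgroup.zpowers y) 0 E := by
    rw [hEE]
    exact tw_ID le_rfl _ hE₀
  have hE'ID : ID ℓ (cN N R ⊔ Subgroup.zpowers y) 0 (tw lam⁻¹ E₀') := tw_ID hCN' _ hE₀'
  have hDE : DGs 𝔐 (N ⊔ Subgroup.zpowers y) R (tw lam⁻¹ E₀') E := by
    rw [hEE]
    exact tw_DGs 𝔐 hRN' _ (hlR _ hlam') hDE₀
  -- conjugation by `x`
  have hxN' : ∀ z ∈ N ⊔ Subgroup.zpowers y, x * z * x⁻¹ ∈ N ⊔ Subgroup.zpowers y := by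
    have h0 : x * y * x⁻¹ ∈ N ⊔ Subgroup.zpowers y := by
      have h : x * y * x⁻¹ = (x * y * x⁻¹ * y⁻¹) * y := by group
      rw [h]
      exact mul_mem ((le_sup_left : N ≤ _) hxy)
        ((le_sup_right : Subgroup.zpowers y ≤ _) (Subgroup.mem_zpowers y))
    intro z hz
    obtain ⟨i, m, hm, rfl⟩ := (mem_sup hyN).mp hz
    have h : x * (y ^ i * m) * x⁻¹ = (x * y * x⁻¹) ^ i * (x * m * x⁻¹) := by
      rw [conj_zpow]
      group
    rw [h]
    exact mul_mem (Subgroup.zpow_mem _ h0 i) ((le_sup_left : N ≤ _) ((hxN m).mp hm))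
  have e1 := nrm_iff hxN'
  obtain ⟨S1, S2⟩ := h2 G 𝔐 ℓ 0 x
  obtain ⟨e3, e4⟩ := S2 (N ⊔ Subgroup.zpowers y) (N ⊔ Subgroup.zpowers y) R R (tw lam⁻¹ E₀') E
    e1 hxR hDE
  rw [eC'] at e3
  have e5 := S1 _ _ (tw lam⁻¹ E₀') e3 hE'ID
  have e6 := S1 _ _ E e1 hEID
  have hExθ : ∀ m ∈ N, E (x * m * x⁻¹) = θ m := by
    intro m hm
    rw [hEθ _ ((hxN m).mp hm)]
    exact mem_sx.mp hxθ m
  obtain ⟨μ, hμ, hμE⟩ := gall h5 hyN hθ.1 hE hEθ e6.1 (iS_self hθ.1 hExθ)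
  have e7 : DGs 𝔐 (N ⊔ Subgroup.zpowers y) R (tw μ (tw lam⁻¹ E₀')) (tw μ E) :=
    tw_DGs 𝔐 hRN' _ (hlR _ hμ) hDE
  rw [← hμE] at e7
  have hfin : (fun z => tw lam⁻¹ E₀' (x * z * x⁻¹)) = tw μ (tw lam⁻¹ E₀') :=
    D4 _ _ _ e5 (tw_ID hCN' _ hE'ID) e6 e4 e7
  have hy' : y ∈ N ⊔ Subgroup.zpowers y :=
    (le_sup_right : Subgroup.zpowers y ≤ _) (Subgroup.mem_zpowers y)
  -- the value of `μ` at `y`
  have hμi : ∀ (i : ℤ), ∀ m ∈ N, ∀ h : y ^ i * m ∈ N ⊔ Subgroup.zpowers y,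
      μ ⟨y ^ i * m, h⟩ = μ ⟨y, hy'⟩ ^ i := by
    intro i m hm h
    have h' : (⟨y ^ i * m, h⟩ : ↥(N ⊔ Subgroup.zpowers y)) =
        ⟨y, hy'⟩ ^ i * ⟨m, (le_sup_left : N ≤ _) hm⟩ := by
      apply Subtype.ext
      rw [Subgroup.coe_mul, SubgroupClass.coe_zpow]
    rw [h', map_mul, map_zpow, hμ ⟨m, _⟩ hm, mul_one]
  have hζ : ((μ ⟨y, hy'⟩ : ℂˣ) : ℂ) = ζ := by
    obtain ⟨m, hm, hne⟩ := exists_ne hyN hθ.1 hE hEθ
    have hmem : y ^ (1 : ℤ) * m ∈ N ⊔ Subgroup.zpowers y := (mem_sup hyN).mpr ⟨1, m, hm, rfl⟩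
    have f1 := hEx 1 m hm
    have f2 := congrFun hμE (y ^ (1 : ℤ) * m)
    rw [tw_of_mem μ E hmem, hμi 1 m hm hmem] at f2
    have f3 : ζ ^ (1 : ℤ) * E (y ^ (1 : ℤ) * m) =
        E (y ^ (1 : ℤ) * m) * (((μ ⟨y, hy'⟩) ^ (1 : ℤ) : ℂˣ) : ℂ) := f1.symm.trans f2
    rw [zpow_one, zpow_one, zpow_one, mul_comm ζ] at f3
    exact (mul_left_cancel₀ hne f3).symm
  refine ⟨tw lam⁻¹ E₀', hE'ID.1, ?_, ?_⟩
  · intro c hc
    have hc' : c ∈ N ⊔ Subgroup.zpowers y := (le_sup_left : N ≤ _) (hCN hc)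
    rw [tw_of_mem _ _ hc', hlam' _ (hCN hc), Units.val_one, mul_one]
    exact hE₀'θ c hc
  · intro i c hc
    have hmem : y ^ i * c ∈ N ⊔ Subgroup.zpowers y := (mem_sup hyN).mpr ⟨i, c, hCN hc, rfl⟩
    have f2 := congrFun hfin (y ^ i * c)
    rw [tw_of_mem μ _ hmem, hμi i c (hCN hc) hmem, Units.val_zpow_eq_zpow_val, hζ] at f2
    rw [mul_comm]
    exact f2

end Pool.Agent.DPT


end

section

/-!
# TY0: the characters under a character of the type of a character of defect zero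
-/

set_option autoImplicit false
set_option linter.unusedSectionVars false

namespace Pool.Agent.DPT

open Pool.Agent.DP Pool.Agent.DPC Pool.Agent.DPM Pool.Agent.DPN Pool.Agent.Lib_helper13
open Representation

namespace TY0

variable {Y G : Type} [Group Y] [Fintype Y] [Group G] [Fintype G]

theorem ker_le (k : Y →* G) (C : Subgroup G) : k.ker ≤ C.comap k := by
  intro z hz
  rw [Subgroup.mem_comap, MonoidHom.mem_ker.mp hz]
  exact C.one_mem

/-- A constituent of a function over `lam` is over `lam`. -/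
theorem ovK_under {ℓ : ℕ} {k : Y →* G} (hk : FC ℓ k) {lam : k.ker →* ℂˣ} {C : Subgroup G}
    {ψ χ : Y → ℂ} (hχ : IrrOn (C.comap k) χ) (hOv : OvK k lam ψ)
    (hne : iS (C.comap k) ψ χ ≠ 0) : OvK k lam χ := by
  classical
  have hle := ker_le k C
  have hcen : k.ker.subgroupOf (C.comap k) ≤ Subgroup.center ↥(C.comap k) := by
    intro z hz
    rw [Subgroup.mem_center_iff]
    intro g
    apply Subtype.ext
    exact Subgroup.mem_center_iff.mp (hk.cen (Subgroup.mem_subgroupOf.mp hz)) g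
  obtain ⟨μ, hμ⟩ := BTC.exists_cc hcen hχ.1
  have key : ∀ (z : k.ker), ((μ ⟨⟨z, hle z.2⟩, Subgroup.mem_subgroupOf.mpr z.2⟩ : ℂˣ) : ℂ) =
      ((lam z : ℂˣ) : ℂ) := by
    intro z
    set zz : ↥(k.ker.subgroupOf (C.comap k)) :=
      ⟨⟨z, hle z.2⟩, Subgroup.mem_subgroupOf.mpr z.2⟩ with hzz
    have hsum : ∑ g : ↥(C.comap k), ψ g * χ (g⁻¹ : ↥(C.comap k)) ≠ 0 := by
      intro h0
      apply hne
      change (∑ g : ↥(C.comap k), ψ g * χ (g⁻¹ : ↥(C.comap k))) / _ = 0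
      rw [h0, zero_div]
    have h1 : ∑ g : ↥(C.comap k), ψ g * χ (g⁻¹ : ↥(C.comap k)) =
        ((lam z : ℂˣ) : ℂ) * ((μ zz⁻¹ : ℂˣ) : ℂ) *
          ∑ g : ↥(C.comap k), ψ g * χ (g⁻¹ : ↥(C.comap k)) := by
      refine (Equiv.sum_comp (Equiv.mulLeft (zz : ↥(C.comap k)))
        (fun g : ↥(C.comap k) => ψ g * χ (g⁻¹ : ↥(C.comap k)))).symm.trans ?_
      rw [Finset.mul_sum]
      refine Finset.sum_congr rfl fun g _ => ?_
      have h2 : ψ (((zz : ↥(C.comap k)) * g : ↥(C.comap k)) : Y) =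
          ((lam z : ℂˣ) : ℂ) * ψ g := hOv z g
      have h3 : χ ((((zz : ↥(C.comap k)) * g)⁻¹ : ↥(C.comap k)) : Y) =
          ((μ zz⁻¹ : ℂˣ) : ℂ) * χ (g⁻¹ : ↥(C.comap k)) := by
        have h4 : (((zz : ↥(C.comap k)) * g)⁻¹ : ↥(C.comap k)) =
            ((zz⁻¹ : ↥(k.ker.subgroupOf (C.comap k))) : ↥(C.comap k)) * g⁻¹ := by
          rw [mul_inv_rev]
          exact Subgroup.mem_center_iff.mp (hcen (zz⁻¹).2) g⁻¹
        rw [h4]
        exact hμ zz⁻¹ g⁻¹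
      rw [Equiv.coe_mulLeft, h2, h3]
      ring
    have h6 : ((lam z : ℂˣ) : ℂ) * ((μ zz⁻¹ : ℂˣ) : ℂ) = 1 := by
      have h7 : (1 - ((lam z : ℂˣ) : ℂ) * ((μ zz⁻¹ : ℂˣ) : ℂ)) *
          ∑ g : ↥(C.comap k), ψ g * χ (g⁻¹ : ↥(C.comap k)) = 0 := by
        rw [sub_mul, one_mul, ← h1, sub_self]
      rcases mul_eq_zero.mp h7 with h8 | h8
      · exact (sub_eq_zero.mp h8).symm
      · exact absurd h8 hsum
    rw [map_inv] at h6
    have h8 : lam z * (μ zz)⁻¹ = 1 := by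
      apply Units.ext
      rw [Units.val_mul, Units.val_one]
      exact h6
    rw [mul_inv_eq_one.mp h8]
  intro z y
  by_cases hy : y ∈ C.comap k
  · rw [← key z]
    exact hμ ⟨⟨z, hle z.2⟩, Subgroup.mem_subgroupOf.mpr z.2⟩ ⟨y, hy⟩
  · have hzy : (z : Y) * y ∉ C.comap k := fun h' =>
      hy (((C.comap k).mul_mem_cancel_left (hle z.2)).1 h')
    rw [hχ.2 y hy, hχ.2 _ hzy, mul_zero]

theorem rg_conj (ℓ : ℕ) (k : Y →* G) {F : G → ℂ} (n y : Y)
    (h : F (k n * k y * (k n)⁻¹) = F (k y)) : rg ℓ k F (n * y * n⁻¹) = rg ℓ k F y := by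
  unfold rg
  have h4 : orderOf (n * y * n⁻¹) = orderOf y := by
    have h5 := (MulAut.conj n).orderOf_eq y
    rw [MulAut.conj_apply] at h5
    exact h5
  rw [h4, map_mul, map_mul, map_inv, h]

theorem rg_ne {ℓ : ℕ} {k : Y →* G} {F : G → ℂ} {y : Y} (h : rg ℓ k F y ≠ 0) : F (k y) ≠ 0 := by
  intro h0
  apply h
  unfold rg
  rw [h0, ite_self]

theorem rg_int (ℓ : ℕ) (k : Y →* G) {F : G → ℂ} (hF : ∀ x, IsIntegral ℤ (F x)) (y : Y) :
    IsIntegral ℤ (rg ℓ k F y) := by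
  unfold rg
  by_cases h5 : ℓ ∣ orderOf y
  · rw [if_pos h5]
    exact isIntegral_zero
  · rw [if_neg h5]
    exact hF _

theorem conjInd_class (x g y : G) : conjInd (g * y * g⁻¹) x = conjInd y x :=
  conjInd_congr ⟨fun h => (isConj_iff.mpr ⟨g, rfl⟩ : IsConj y (g * y * g⁻¹)).trans h,
    fun h => (isConj_iff.mpr ⟨g, rfl⟩ : IsConj y (g * y * g⁻¹)).symm.trans h⟩

theorem conjInd_int (x y : G) : IsIntegral ℤ (conjInd y x) := by
  classical
  unfold conjInd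
  by_cases h : IsConj y x
  · rw [if_pos h]
    exact isIntegral_one
  · rw [if_neg h]
    exact isIntegral_zero

theorem conjInd_ne {x y : G} (h : conjInd y x ≠ 0) : IsConj y x := by
  classical
  unfold conjInd at h
  by_contra h0
  exact h (if_neg h0)

/-- The weights of the functions `rg ℓ k F`. -/
theorem weights (h5 : Stmt_SUMM) {ℓ : ℕ} {k : Y →* G} {M₀ S : Subgroup G} (hM : M₀.Normal)
    {ψ χ : Y → ℂ} (hψ : IrrOn (S.comap k) ψ) (hχ : IrrOn ((S ⊓ M₀).comap k) χ)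
    (hne : iS ((S ⊓ M₀).comap k) ψ χ ≠ 0) {F : G → ℂ} (hF : ∀ g x, F (g * x * g⁻¹) = F x)
    (h0 : ∀ x, x ∉ M₀ → F x = 0) :
    wS (S.comap k) ψ (rg ℓ k F) = wS ((S ⊓ M₀).comap k) χ (rg ℓ k F) := by
  refine BTR.wS_under h5 (Subgroup.comap_mono inf_le_left) ?_ hψ hχ hne ?_ ?_
  · intro s hs m hm
    rw [Subgroup.mem_comap] at hs hm ⊢
    rw [map_mul, map_mul, map_inv]
    exact ⟨S.mul_mem (S.mul_mem hs hm.1) (S.inv_mem hs), hM.conj_mem _ hm.2 _⟩
  · intro g _ x _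
    exact rg_conj ℓ k g x (hF _ _)
  · intro x hx hx'
    have h6 : k x ∉ M₀ := fun h => hx' ⟨hx, h⟩
    unfold rg
    rw [h0 _ h6, ite_self]

open Classical in
/-- The part of `rg ℓ k F` above a conjugacy class of `C`. -/
noncomputable def prt (ℓ : ℕ) (k : Y →* G) (C : Subgroup G) (F : G → ℂ) (K : ConjClasses C)
    (y : Y) : ℂ :=
  if ∃ h : k y ∈ C, ConjClasses.mk (⟨k y, h⟩ : C) = K then rg ℓ k F y else 0

open Classical in
theorem prt_sum (ℓ : ℕ) (k : Y →* G) (C : Subgroup G) (F : G → ℂ) (y : ↥(C.comap k)) :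
    ∑ K : ConjClasses C, prt ℓ k C F K y = rg ℓ k F y := by
  classical
  rw [Finset.sum_eq_single (ConjClasses.mk (⟨k y, y.2⟩ : C))]
  · unfold prt
    rw [if_pos ⟨y.2, rfl⟩]
  · intro K _ hK
    unfold prt
    rw [if_neg]
    rintro ⟨h, h'⟩
    exact hK h'.symm
  · intro h
    exact absurd (Finset.mem_univ _) h

theorem prt_int (ℓ : ℕ) (k : Y →* G) (C : Subgroup G) {F : G → ℂ}
    (hF : ∀ x, IsIntegral ℤ (F x)) (K : ConjClasses C) (y : Y) :
    IsIntegral ℤ (prt ℓ k C F K y) := by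
  classical
  unfold prt
  split_ifs with h
  · exact rg_int ℓ k hF y
  · exact isIntegral_zero

theorem prt_conj (ℓ : ℕ) (k : Y →* G) (C : Subgroup G) {F : G → ℂ}
    (hF : ∀ g x, F (g * x * g⁻¹) = F x) (K : ConjClasses C) :
    ∀ n ∈ C.comap k, ∀ y ∈ C.comap k, prt ℓ k C F K (n * y * n⁻¹) = prt ℓ k C F K y := by
  classical
  intro n hn y hy
  unfold prt
  rw [rg_conj ℓ k n y (hF _ _)]
  have hny : k (n * y * n⁻¹) ∈ C := by
    rw [map_mul, map_mul, map_inv]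
    exact C.mul_mem (C.mul_mem hn hy) (C.inv_mem hn)
  have h1 : ConjClasses.mk (⟨k (n * y * n⁻¹), hny⟩ : C) = ConjClasses.mk (⟨k y, hy⟩ : C) := by
    rw [ConjClasses.mk_eq_mk_iff_isConj]
    refine IsConj.symm (isConj_iff.mpr ⟨⟨k n, hn⟩, ?_⟩)
    apply Subtype.ext
    change k n * k y * (k n)⁻¹ = k (n * y * n⁻¹)
    rw [map_mul, map_mul, map_inv]
  refine if_congr ⟨?_, ?_⟩ rfl rfl
  · rintro ⟨h, h'⟩
    exact ⟨hy, h1.symm.trans h'⟩
  · rintro ⟨h, h'⟩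
    exact ⟨hny, h1.trans h'⟩

end TY0

theorem TY0_thm (h1 : Stmt_GCL) (h2 : Stmt_DEFR) (h3 : Stmt_MLE) (h4 : Stmt_MLV)
    (h5 : Stmt_SUMM) : Stmt_TY0 := by
  classical
  intro Y G _ _ _ _ 𝔐 ℓ _ hmax hℓ k hk lam M₀ hM hMk θ₀ hθ₀ S ψ hψ hOv hTy χ hχ hne
  have hpr : 𝔐.IsPrime := hmax.isPrime
  have hCk : S ⊓ M₀ ≤ k.range := inf_le_right.trans hMk
  have hOv' : OvK k lam χ := TY0.ovK_under hk hχ hOv hne
  -- the weights
  have hw : ∀ F : G → ℂ, (∀ g x, F (g * x * g⁻¹) = F x) → (∀ x, IsIntegral ℤ (F x)) →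
      (∀ x, x ∉ M₀ → F x = 0) →
      red 𝔐 (wS ((S ⊓ M₀).comap k) χ (rg ℓ k F)) = red 𝔐 (wS M₀ θ₀ F) := by
    intro F hF hi h0
    rw [← TY0.weights h5 hM hψ hχ hne hF h0]
    exact hTy F hF hi h0
  obtain ⟨x, hx, hxc, hxw⟩ := h1 G 𝔐 ℓ hmax hℓ M₀ hM θ₀ hθ₀
  have hFc : ∀ g y : G, (fun y => conjInd y x) (g * y * g⁻¹) = (fun y => conjInd y x) y :=
    fun g y => TY0.conjInd_class x g y
  have hFi : ∀ y : G, IsIntegral ℤ ((fun y => conjInd y x) y) := fun y => TY0.conjInd_int x y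
  have hF0 : ∀ y : G, y ∉ M₀ → (fun y => conjInd y x) y = 0 := by
    intro y hy
    by_contra h
    obtain ⟨c, hc⟩ := isConj_iff.mp (TY0.conjInd_ne h).symm
    apply hy
    rw [← hc]
    exact hM.conj_mem x hx c
  have hne2 : red 𝔐 (wS ((S ⊓ M₀).comap k) χ (rg ℓ k fun y => conjInd y x)) ≠ 0 := by
    rw [hw _ hFc hFi hF0]
    exact hxw
  -- a class of `C`
  obtain ⟨K, hK⟩ : ∃ K : ConjClasses ↥(S ⊓ M₀), red 𝔐 (wS ((S ⊓ M₀).comap k) χ
      (TY0.prt ℓ k (S ⊓ M₀) (fun y => conjInd y x) K)) ≠ 0 := by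
    by_contra hcon
    push Not at hcon
    apply hne2
    have h6 : wS ((S ⊓ M₀).comap k) χ (rg ℓ k fun y => conjInd y x) =
        ∑ K : ConjClasses ↥(S ⊓ M₀), wS ((S ⊓ M₀).comap k) χ
          (TY0.prt ℓ k (S ⊓ M₀) (fun y => conjInd y x) K) := by
      unfold wS
      rw [← wt_sum]
      congr 1
      funext y
      exact (TY0.prt_sum ℓ k (S ⊓ M₀) (fun y => conjInd y x) y).symm
    rw [h6, red_sum]
    · exact Finset.sum_eq_zero fun K _ => hcon K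
    · intro K _
      refine isIntegral_wt hχ.1 _ ?_ ?_
      · intro g y
        exact TY0.prt_conj ℓ k (S ⊓ M₀) hFc K g g.2 y y.2
      · intro y
        exact TY0.prt_int ℓ k (S ⊓ M₀) hFi K y
  -- an element of the class
  obtain ⟨y₀, hy₀, hy₀n⟩ : ∃ y ∈ (S ⊓ M₀).comap k,
      TY0.prt ℓ k (S ⊓ M₀) (fun y => conjInd y x) K y ≠ 0 := by
    by_contra hcon
    push Not at hcon
    apply hK
    have h6 : wS ((S ⊓ M₀).comap k) χ
        (TY0.prt ℓ k (S ⊓ M₀) (fun y => conjInd y x) K) = 0 := by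
      unfold wS wt
      rw [Finset.sum_eq_zero, zero_div]
      intro y _
      change TY0.prt ℓ k (S ⊓ M₀) (fun y => conjInd y x) K (y : Y) * χ y = 0
      rw [hcon y y.2, zero_mul]
    rw [h6, red_zero]
  have hmk : ConjClasses.mk (⟨k y₀, hy₀⟩ : ↥(S ⊓ M₀)) = K := by
    by_contra h
    apply hy₀n
    unfold TY0.prt
    rw [if_neg]
    rintro ⟨h6, h7⟩
    exact h h7
  have hcx : IsConj (k y₀) x := by
    apply TY0.conjInd_ne
    apply TY0.rg_ne (ℓ := ℓ) (F := fun y => conjInd y x)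
    intro h
    apply hy₀n
    unfold TY0.prt
    rw [h, ite_self]
  have hID : ID ℓ ((S ⊓ M₀).comap k) (padicValNat ℓ (Nat.card k.ker)) χ := by
    refine h2 Y G 𝔐 ℓ hmax hℓ k hk lam (S ⊓ M₀) hCk χ hχ hOv' (k y₀) hy₀ ?_
      (TY0.prt ℓ k (S ⊓ M₀) (fun y => conjInd y x) K) (TY0.prt_conj ℓ k (S ⊓ M₀) hFc K)
      (TY0.prt_int ℓ k (S ⊓ M₀) hFi K) ?_ hK
    · intro g hg hgc n hn
      obtain ⟨c, hc⟩ := isConj_iff.mp hcx
      have h6 := hxc (c * g * c⁻¹) (hM.conj_mem g hg.2 c) (by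
        rw [← hc]
        calc c * g * c⁻¹ * (c * k y₀ * c⁻¹) = c * (g * k y₀) * c⁻¹ := by group
          _ = c * (k y₀ * g) * c⁻¹ := by rw [hgc]
          _ = c * k y₀ * c⁻¹ * (c * g * c⁻¹) := by group) n (by
        rw [conj_pow, hn, mul_one, mul_inv_cancel])
      have h7 : g = c⁻¹ * (c * g * c⁻¹) * c := by group
      rw [h7, h6, mul_one, inv_mul_cancel]
    · intro y hy hyn
      have h6 : ConjClasses.mk (⟨k y, hy⟩ : ↥(S ⊓ M₀)) = K := by
        by_contra h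
        apply hyn
        unfold TY0.prt
        rw [if_neg]
        rintro ⟨h6, h7⟩
        exact h h7
      rw [← hmk, ConjClasses.mk_eq_mk_iff_isConj] at h6
      obtain ⟨g, hg⟩ := isConj_iff.mp h6.symm
      exact ⟨g, g.2, (congrArg Subtype.val hg).symm⟩
  obtain ⟨θ', hθ', hML⟩ := (h3 Y G 𝔐 ℓ hmax hℓ k hk lam (S ⊓ M₀) hCk).2 χ hID hOv'
  refine ⟨θ', hθ', hML, ?_⟩
  intro F hF hi h0
  rw [← (h4 Y G 𝔐 ℓ hmax hℓ k hk lam (S ⊓ M₀) hCk θ' χ hθ' hML).2 F (fun n _ y _ => hF n y) hi]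
  exact hw F hF hi h0

end Pool.Agent.DPT


end

section

/-!
# STA: the block which belongs to a character of the normalizer of an `ℓ`-subgroup
-/

set_option linter.unusedSectionVars false

namespace Pool.Agent.DPT

open Pool.Agent.DP Pool.Agent.DPC Pool.Agent.DPM Pool.Agent.DPN Pool.Agent.Lib_helper13
open Representation

namespace STA

/-! ### The monoid of the integral class functions -/

section CCM

variable {T : Type} [Group T] [Fintype T]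

variable (T) in
/-- Integral class functions. -/
def CC : Type := {f : T → ℂ // (∀ g x, f (g * x * g⁻¹) = f x) ∧ ∀ x, IsIntegral ℤ (f x)}

theorem CC.ext' {f g : CC T} (h : ∀ x, f.1 x = g.1 x) : f = g := Subtype.ext (funext h)

open Classical in
/-- The unit. -/
noncomputable def dlt (x : T) : ℂ := if x = 1 then 1 else 0

theorem dlt_conj (g x : T) : dlt (g * x * g⁻¹) = dlt x := by
  classical
  unfold dlt
  refine if_congr ?_ rfl rfl
  constructor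
  · intro h
    have h1 : x = g⁻¹ * (g * x * g⁻¹) * g := by group
    rw [h1, h]
    group
  · rintro rfl
    group

theorem dlt_int (x : T) : IsIntegral ℤ (dlt x) := by
  classical
  unfold dlt
  split_ifs
  · exact isIntegral_one
  · exact isIntegral_zero

theorem cv_assoc' (a b c : T → ℂ) (x : T) : cv (cv a b) c x = cv a (cv b c) x := by
  show ∑ z, (∑ y, a y * b (y⁻¹ * z)) * c (z⁻¹ * x) =
    ∑ y, a y * ∑ w, b w * c (w⁻¹ * (y⁻¹ * x))
  simp only [Finset.sum_mul, Finset.mul_sum]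
  rw [Finset.sum_comm]
  refine Finset.sum_congr rfl fun y _ => ?_
  refine Fintype.sum_equiv (Equiv.mulLeft y⁻¹) _ _ fun z => ?_
  show a y * b (y⁻¹ * z) * c (z⁻¹ * x) = a y * (b (y⁻¹ * z) * c ((y⁻¹ * z)⁻¹ * (y⁻¹ * x)))
  have h : (y⁻¹ * z)⁻¹ * (y⁻¹ * x) = z⁻¹ * x := by group
  rw [h, mul_assoc]

theorem cv_comm' (a : T → ℂ) {b : T → ℂ} (hb : ∀ g x, b (g * x * g⁻¹) = b x) (x : T) :
    cv a b x = cv b a x := by
  show ∑ y, a y * b (y⁻¹ * x) = ∑ y, b y * a (y⁻¹ * x)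
  refine Fintype.sum_equiv ((Equiv.inv T).trans (Equiv.mulLeft x)) _ _ fun y => ?_
  show a y * b (y⁻¹ * x) = b (x * y⁻¹) * a ((x * y⁻¹)⁻¹ * x)
  have h1 : (x * y⁻¹)⁻¹ * x = y := by group
  have h2 : b (x * y⁻¹) = b (y⁻¹ * x) := by
    rw [← hb y (y⁻¹ * x)]
    congr 1
    group
  rw [h1, h2]
  ring

theorem dlt_cv (a : T → ℂ) (x : T) : cv dlt a x = a x := by
  classical
  show ∑ y, dlt y * a (y⁻¹ * x) = a x
  rw [Finset.sum_eq_single 1]
  · simp [dlt]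
  · intro b _ hb
    simp [dlt, hb]
  · intro h
    exact absurd (Finset.mem_univ _) h

noncomputable instance : CommMonoid (CC T) where
  mul f g := ⟨cv f.1 g.1, cv_conj f.2.1 g.2.1, isIntegral_cv f.2.2 g.2.2⟩
  mul_assoc a b c := CC.ext' fun x => cv_assoc' a.1 b.1 c.1 x
  one := ⟨dlt, dlt_conj, dlt_int⟩
  one_mul a := CC.ext' fun x => dlt_cv a.1 x
  mul_one a := CC.ext' fun x => (cv_comm' a.1 dlt_conj x).trans (dlt_cv a.1 x)
  mul_comm a b := CC.ext' fun x => cv_comm' a.1 b.2.1 x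

theorem CC.mul_val (f g : CC T) : (f * g).1 = cv f.1 g.1 := rfl

theorem CC.one_val : (1 : CC T).1 = dlt := rfl

theorem wt_dlt {χ : T → ℂ} (hχ : IsIrr χ) : wt χ dlt = 1 := by
  classical
  unfold wt
  rw [Finset.sum_eq_single 1]
  · rw [dlt, if_pos rfl, one_mul, div_self (IsIrr.one_ne_zero hχ)]
  · intro b _ hb
    rw [dlt, if_neg hb, zero_mul]
  · intro h
    exact absurd (Finset.mem_univ _) h

/-- The central character modulo `𝔐`. -/
noncomputable def lamH (𝔐 : Ideal (integralClosure ℤ ℂ)) {χ : T → ℂ} (hχ : IsIrr χ) :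
    CC T →* (integralClosure ℤ ℂ) ⧸ 𝔐 where
  toFun f := red 𝔐 (wt χ f.1)
  map_one' := by
    rw [CC.one_val, wt_dlt hχ, red_one]
  map_mul' f g := by
    have h1 : wt χ (f * g).1 = wt χ f.1 * wt χ g.1 := DPW.IDMB.wt_cv hχ f.2.1 g.2.1
    rw [h1, red_mul 𝔐 (isIntegral_wt hχ _ f.2.1 f.2.2) (isIntegral_wt hχ _ g.2.1 g.2.2)]

theorem lamH_apply (𝔐 : Ideal (integralClosure ℤ ℂ)) {χ : T → ℂ} (hχ : IsIrr χ) (f : CC T) :
    lamH 𝔐 hχ f = red 𝔐 (wt χ f.1) := rfl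

/-- The functions composed with an automorphism. -/
noncomputable def pull (e : T ≃* T) : CC T →* CC T where
  toFun f := ⟨fun x => f.1 (e x), fun g x => by
    show f.1 (e (g * x * g⁻¹)) = f.1 (e x)
    rw [map_mul, map_mul, map_inv]
    exact f.2.1 (e g) (e x), fun x => f.2.2 (e x)⟩
  map_one' := by
    classical
    apply CC.ext'
    intro x
    show dlt (e x) = dlt x
    unfold dlt
    refine if_congr ?_ rfl rfl
    rw [EmbeddingLike.map_eq_one_iff]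
  map_mul' f g := by
    apply CC.ext'
    intro x
    show ∑ y, f.1 y * g.1 (y⁻¹ * e x) = ∑ y, f.1 (e y) * g.1 (e (y⁻¹ * x))
    symm
    refine Fintype.sum_equiv e.toEquiv _ _ fun y => ?_
    show f.1 (e y) * g.1 (e (y⁻¹ * x)) = f.1 (e y) * g.1 ((e y)⁻¹ * e x)
    rw [map_mul, map_inv]

theorem pull_apply (e : T ≃* T) (f : CC T) (x : T) : (pull e f).1 x = f.1 (e x) := rfl

end CCM

/-! ### The action on the class functions -/

section Act

variable {X : Type} [Group X] [Fintype X] {N D : Subgroup X}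

/-- Conjugation by an element which normalizes `N`. -/
def al (hN : ∀ r ∈ D, ∀ n ∈ N, r * n * r⁻¹ ∈ N) (r : D) : N ≃* N where
  toFun n := ⟨r * n * (r : X)⁻¹, hN r r.2 n n.2⟩
  invFun n := ⟨(r : X)⁻¹ * n * r, by
    have h := hN _ (inv_mem r.2) n n.2
    rwa [inv_inv] at h⟩
  left_inv n := by
    apply Subtype.ext
    show (r : X)⁻¹ * (r * n * (r : X)⁻¹) * r = n
    group
  right_inv n := by
    apply Subtype.ext
    show (r : X) * ((r : X)⁻¹ * n * r) * (r : X)⁻¹ = n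
    group
  map_mul' m n := by
    apply Subtype.ext
    show (r : X) * (m * n) * (r : X)⁻¹ = (r * m * (r : X)⁻¹) * (r * n * (r : X)⁻¹)
    group

variable (hN : ∀ r ∈ D, ∀ n ∈ N, r * n * r⁻¹ ∈ N)

theorem al_coe (r : D) (n : N) : ((al hN r n : N) : X) = r * n * (r : X)⁻¹ := rfl

theorem al_mul (r s : D) (n : N) : al hN (r * s) n = al hN r (al hN s n) := by
  apply Subtype.ext
  rw [al_coe, al_coe, al_coe, Subgroup.coe_mul]
  group

theorem al_one (n : N) : al hN 1 n = n := by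
  apply Subtype.ext
  rw [al_coe]
  simp

theorem al_symm (r : D) (n : N) : (al hN r).symm n = al hN r⁻¹ n := by
  rw [MulEquiv.symm_apply_eq, ← al_mul, mul_inv_cancel, al_one]

theorem pull_al (r s : D) (f : CC N) :
    pull (al hN s) (pull (al hN r) f) = pull (al hN (r * s)) f := by
  apply CC.ext'
  intro n
  rw [pull_apply, pull_apply, pull_apply, al_mul]

/-- The weight of a function composed with a conjugation. -/
theorem wt_al (r : D) (ζ f : N → ℂ) :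
    wt ζ (fun n => f (al hN r n)) = wt (fun n => ζ (al hN r⁻¹ n)) f := by
  have h := wt_comp_equiv (al hN r⁻¹) ζ (fun n => f (al hN r n))
  rw [← h]
  congr 1
  funext n
  rw [← al_mul, mul_inv_cancel, al_one]

/-- The block of a conjugate character. -/
theorem cen_al (𝔐 : Ideal (integralClosure ℤ ℂ)) (r : D) (ζ : N → ℂ) (x : N) :
    cen 𝔐 (MonoidHom.id N) (fun n => ζ (al hN r n)) x =
      cen 𝔐 (MonoidHom.id N) ζ (al hN r x) := by
  unfold cen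
  rw [← wt_comp_equiv (al hN r) ζ]
  congr 2
  funext y
  apply conjInd_congr
  show IsConj y x ↔ IsConj (al hN r y) (al hN r x)
  constructor
  · intro h
    exact (al hN r).toMonoidHom.map_isConj h
  · intro h
    have h1 := (al hN r).symm.toMonoidHom.map_isConj h
    have e1 : ∀ z, (al hN r).symm.toMonoidHom (al hN r z) = z := fun z =>
      (al hN r).symm_apply_apply z
    rwa [e1, e1] at h1

/-- The reduced central function of a character of `N`. -/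
theorem cgT_of_mem (𝔐 : Ideal (integralClosure ℤ ℂ)) {ξ : X → ℂ} (h0 : ∀ x, x ∉ N → ξ x = 0)
    (x : N) : cgT 𝔐 N ξ x = cen 𝔐 (MonoidHom.id N) (fun n : N => ξ n) x := by
  classical
  unfold cgT cen wt
  congr 2
  rw [← Finset.sum_subset (Finset.subset_univ (Finset.univ.filter (fun k => k ∈ N)))]
  · rw [← Finset.sum_subtype_eq_sum_filter, Finset.subtype_univ]
    refine Fintype.sum_equiv (Equiv.refl _) _ _ fun y => ?_
    show cjT N (y : X) x * ξ y = conjInd y x * ξ y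
    congr 1
    have hiff : (∃ t ∈ N, (y : X) = t * x * t⁻¹) ↔ IsConj y x := by
      constructor
      · rintro ⟨t, ht, h⟩
        refine (isConj_iff.mpr ⟨⟨t, ht⟩, ?_⟩ : IsConj x y).symm
        apply Subtype.ext
        exact h.symm
      · intro h
        obtain ⟨c, hc⟩ := isConj_iff.mp h.symm
        refine ⟨c, c.2, ?_⟩
        rw [← hc]
        rfl
    unfold cjT conjInd
    by_cases hc : IsConj y x
    · rw [if_pos hc, if_pos (hiff.mpr hc)]
    · rw [if_neg hc, if_neg (fun h => hc (hiff.mp h))]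
  · intro y _ hy
    rw [h0 y (fun h => hy (Finset.mem_filter.mpr ⟨Finset.mem_univ _, h⟩)), mul_zero]

theorem cgT_of_not_mem (𝔐 : Ideal (integralClosure ℤ ℂ)) {ξ : X → ℂ}
    (h0 : ∀ x, x ∉ N → ξ x = 0) {x : X} (hx : x ∉ N) : cgT 𝔐 N ξ x = 0 := by
  classical
  unfold cgT
  rw [Finset.sum_eq_zero, zero_div, red_zero]
  intro y _
  unfold cjT
  split_ifs with h
  · obtain ⟨t, ht, rfl⟩ := h
    rw [h0, mul_zero]
    intro h1
    apply hx
    have h2 := mul_mem (mul_mem (inv_mem ht) h1) ht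
    have h3 : t⁻¹ * (t * x * t⁻¹) * t = x := by group
    rwa [h3] at h2
  · rw [zero_mul]

/-- The stabilizer of the block. -/
theorem mem_sx_iff (𝔐 : Ideal (integralClosure ℤ ℂ)) {ξ : X → ℂ} (h0 : ∀ x, x ∉ N → ξ x = 0)
    (r : D) : (r : X) ∈ sx (cgT 𝔐 N ξ) ↔
      cen 𝔐 (MonoidHom.id N) (fun n => ξ (al hN r n)) =
        cen 𝔐 (MonoidHom.id N) (fun n : N => ξ n) := by
  have e1 := fun x => cen_al hN 𝔐 r (fun n : N => ξ n) x
  rw [mem_sx]
  constructor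
  · intro h
    funext x
    have h1 := h x
    rw [e1, ← cgT_of_mem 𝔐 h0, ← cgT_of_mem 𝔐 h0]
    exact h1
  · intro h x
    by_cases hx : x ∈ N
    · have h1 := congrFun h ⟨x, hx⟩
      rw [e1, ← cgT_of_mem 𝔐 h0, ← cgT_of_mem 𝔐 h0] at h1
      exact h1
    · rw [cgT_of_not_mem 𝔐 h0 hx, cgT_of_not_mem 𝔐 h0]
      intro h1
      apply hx
      have h2 := hN _ (inv_mem r.2) _ h1
      have h3 : (r : X)⁻¹ * (r * x * (r : X)⁻¹) * (r : X)⁻¹⁻¹ = x := by group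
      rwa [h3] at h2

end Act

/-! ### An invariant class function -/

section Inv

variable {X : Type} [Group X] [Fintype X] {N D : Subgroup X}
  (hN : ∀ r ∈ D, ∀ n ∈ N, r * n * r⁻¹ ∈ N)

/-- The product of the conjugates of a class function. -/
noncomputable def PP (B : Subgroup D) [Fintype B] (a : CC N) : CC N :=
  ∏ r : B, pull (al hN (r : D)) a

theorem PP_inv (B : Subgroup D) [Fintype B] (a : CC N) (s : D) (hs : s ∈ B) :
    pull (al hN s) (PP hN B a) = PP hN B a := by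
  unfold PP
  rw [map_prod]
  refine Fintype.prod_equiv (Equiv.mulRight (⟨s, hs⟩ : B)) _ _ fun r => ?_
  rw [pull_al]
  rfl

theorem lam_PP (𝔐 : Ideal (integralClosure ℤ ℂ)) {ζ : N → ℂ} (hζ : IsIrr ζ) (B : Subgroup D)
    [Fintype B] (a : CC N) (r : D) :
    lamH 𝔐 hζ (pull (al hN r) (PP hN B a)) =
      ∏ d : B, lamH 𝔐 hζ (pull (al hN ((d : D) * r)) a) := by
  unfold PP
  rw [map_prod, map_prod]
  refine Finset.prod_congr rfl fun d _ => ?_
  rw [pull_al]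

/-- The sum over the cosets. -/
noncomputable def ff (B : Subgroup D) [Fintype (D ⧸ B)] (P : CC N) (n : N) : ℂ :=
  ∑ q : D ⧸ B, (pull (al hN (q.out)⁻¹) P).1 n

theorem out_inv {B : Subgroup D} {P : CC N} (hP : ∀ s ∈ B, pull (al hN s) P = P) (r : D)
    (n : N) :
    (pull (al hN ((QuotientGroup.mk r : D ⧸ B).out)⁻¹) P).1 n = (pull (al hN r⁻¹) P).1 n := by
  obtain ⟨d, hd⟩ := QuotientGroup.mk_out_eq_mul B r
  have h := hP (d : D)⁻¹ (inv_mem d.2)
  rw [hd, mul_inv_rev, ← pull_al, h]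

theorem ff_inv {B : Subgroup D} [Fintype (D ⧸ B)] {P : CC N}
    (hP : ∀ s ∈ B, pull (al hN s) P = P) (s : D) (n : N) :
    ff hN B P (al hN s n) = ff hN B P n := by
  unfold ff
  refine Fintype.sum_equiv (MulAction.toPerm s⁻¹) _ _ fun q => ?_
  have h1 : MulAction.toPerm s⁻¹ q = (QuotientGroup.mk (s⁻¹ * q.out) : D ⧸ B) := by
    have h2 : (QuotientGroup.mk (s⁻¹ * q.out) : D ⧸ B) = s⁻¹ • QuotientGroup.mk q.out := rfl
    rw [h2, QuotientGroup.out_eq']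
    rfl
  rw [h1, out_inv hN hP, pull_apply, pull_apply, ← al_mul, mul_inv_rev, inv_inv]

theorem ff_conj {B : Subgroup D} [Fintype (D ⧸ B)] (P : CC N) (g n : N) :
    ff hN B P (g * n * g⁻¹) = ff hN B P n := by
  unfold ff
  exact Finset.sum_congr rfl fun q _ => (pull (al hN (q.out)⁻¹) P).2.1 g n

theorem ff_int {B : Subgroup D} [Fintype (D ⧸ B)] (P : CC N) (n : N) :
    IsIntegral ℤ (ff hN B P n) := by
  unfold ff
  exact isIntegral_sum _ _ fun q _ => (pull (al hN (q.out)⁻¹) P).2.2 n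

theorem ff_fix {B : Subgroup D} [Fintype (D ⧸ B)] (P : CC N) (n : N)
    (hn : ∀ r : D, al hN r n = n) :
    ff hN B P n = (Fintype.card (D ⧸ B) : ℂ) * P.1 n := by
  unfold ff
  rw [Finset.sum_congr rfl (fun q _ => by rw [pull_apply, hn])]
  rw [Finset.sum_const, Finset.card_univ, nsmul_eq_mul]

theorem red_ff (𝔐 : Ideal (integralClosure ℤ ℂ)) {ζ : N → ℂ} (hζ : IsIrr ζ) (B : Subgroup D)
    [Fintype (D ⧸ B)] (P : CC N) :
    red 𝔐 (wt ζ (ff hN B P)) = ∑ q : D ⧸ B, lamH 𝔐 hζ (pull (al hN (q.out)⁻¹) P) := by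
  have h1 : wt ζ (ff hN B P) = ∑ q : D ⧸ B, wt ζ (pull (al hN (q.out)⁻¹) P).1 := wt_sum _ _ _
  rw [h1, red_sum]
  · rfl
  · intro q _
    exact isIntegral_wt hζ _ (pull (al hN (q.out)⁻¹) P).2.1 (pull (al hN (q.out)⁻¹) P).2.2

theorem red_ff_one (𝔐 : Ideal (integralClosure ℤ ℂ)) {ζ : N → ℂ} (hζ : IsIrr ζ)
    (B : Subgroup D) [Fintype B] [Fintype (D ⧸ B)] (a : CC N)
    (h1 : ∀ r : D, r ∈ B → lamH 𝔐 hζ (pull (al hN r) a) = 1)
    (h0 : ∀ r : D, r ∉ B → lamH 𝔐 hζ (pull (al hN r) a) = 0) :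
    red 𝔐 (wt ζ (ff hN B (PP hN B a))) = 1 := by
  classical
  have hout : ∀ q : D ⧸ B, q.out ∈ B ↔ q = QuotientGroup.mk 1 := by
    intro q
    conv_rhs => rw [← QuotientGroup.out_eq' q]
    rw [QuotientGroup.eq, mul_one, inv_mem_iff]
  rw [red_ff hN 𝔐 hζ, Finset.sum_eq_single (QuotientGroup.mk 1)]
  · rw [lam_PP]
    apply Finset.prod_eq_one
    intro d _
    apply h1
    exact mul_mem d.2 (inv_mem ((hout _).mpr rfl))
  · intro q _ hq
    rw [lam_PP]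
    apply Finset.prod_eq_zero (Finset.mem_univ (1 : B))
    apply h0
    intro h
    apply hq
    rw [← hout]
    have h2 : ((1 : B) : D) * (q.out)⁻¹ = (q.out)⁻¹ := by
      rw [Subgroup.coe_one, one_mul]
    rw [h2] at h
    exact inv_mem_iff.mp h
  · intro h
    exact absurd (Finset.mem_univ _) h

/-- A character with the property which is used in the proof of the stability. -/
theorem stab {𝔐 : Ideal (integralClosure ℤ ℂ)} (hM : 𝔐.IsMaximal) {ℓ : ℕ} [Fact ℓ.Prime]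
    (hℓ : (ℓ : integralClosure ℤ ℂ) ∈ 𝔐) (hD : IsPGroup ℓ D) {ξ : X → ℂ} (hξ : IrrOn N ξ)
    (hkey : ∀ f : N → ℂ, (∀ g x, f (g * x * g⁻¹) = f x) → (∀ (r : D) n, f (al hN r n) = f n) →
      (∀ x, IsIntegral ℤ (f x)) → (∀ n : N, (∀ r : D, al hN r n = n) → red 𝔐 (f n) = 0) →
      red 𝔐 (wt (fun n : N => ξ n) f) = 0) : D ≤ sx (cgT 𝔐 N ξ) := by
  classical
  by_contra hcon
  have : Fintype D := Fintype.ofFinite _
  set B : Subgroup D := (sx (cgT 𝔐 N ξ)).subgroupOf D with hB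
  have : Fintype (D ⧸ B) := Fintype.ofFinite _
  have : Fintype B := Fintype.ofFinite _
  have hBtop : B ≠ ⊤ := by
    intro h
    apply hcon
    intro x hx
    have h1 : (⟨x, hx⟩ : D) ∈ B := by
      rw [h]
      exact Subgroup.mem_top _
    exact Subgroup.mem_subgroupOf.mp h1
  have hdvd : ℓ ∣ Fintype.card (D ⧸ B) := by
    obtain ⟨n, hn⟩ := hD.index B
    have hn0 : n ≠ 0 := by
      rintro rfl
      rw [pow_zero] at hn
      exact hBtop (Subgroup.index_eq_one.mp hn)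
    have h1 : Fintype.card (D ⧸ B) = ℓ ^ n := by
      rw [← hn, ← Nat.card_eq_fintype_card]
      rfl
    rw [h1]
    exact dvd_pow_self ℓ hn0
  let _ : Field ((integralClosure ℤ ℂ) ⧸ 𝔐) := @Ideal.Quotient.field _ _ 𝔐 hM
  obtain ⟨a', ha, -, ha1, ha0, -⟩ := DPW.IDMB_thm ((integralClosure ℤ ℂ) ⧸ 𝔐) N 𝔐 ℓ hM hℓ
    (Ideal.Quotient.mk 𝔐) Ideal.Quotient.mk_surjective (Ideal.mk_ker) (fun n : N => ξ n) hξ.1
  let a : CC N := ⟨fun x => (a' x : ℂ),
    fun g x => congrArg (fun t : integralClosure ℤ ℂ => (t : ℂ)) (ha g x), fun x => (a' x).2⟩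
  have hirr : ∀ r : D, IsIrr (fun n : N => ξ (al hN r n)) := fun r =>
    hξ.1.comp_mulEquiv (al hN r)
  have hl : ∀ r : D, lamH 𝔐 hξ.1 (pull (al hN r) a) =
      red 𝔐 (wt (fun n : N => ξ (al hN r⁻¹ n)) (fun x => (a' x : ℂ))) := by
    intro r
    rw [lamH_apply]
    exact congrArg (red 𝔐) (wt_al hN r (fun n : N => ξ n) (fun x => (a' x : ℂ)))
  have hmem : ∀ r : D, r ∈ B ↔ cen 𝔐 (MonoidHom.id N) (fun n => ξ (al hN r⁻¹ n)) =
        cen 𝔐 (MonoidHom.id N) (fun n : N => ξ n) := by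
    intro r
    rw [← mem_sx_iff hN 𝔐 hξ.2, ← inv_mem_iff, hB, Subgroup.mem_subgroupOf]
  have hone : red 𝔐 (wt (fun n : N => ξ n) (ff hN B (PP hN B a))) = 1 := by
    apply red_ff_one hN 𝔐 hξ.1 B a
    · intro r hr
      rw [hl]
      exact ha1 _ (hirr _) ((hmem r).mp hr)
    · intro r hr
      rw [hl]
      exact ha0 _ (hirr _) (fun h => hr ((hmem r).mpr h))
  have hzero := hkey (ff hN B (PP hN B a)) (ff_conj hN _) (ff_inv hN (PP_inv hN B a))
    (ff_int hN _) (by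
      intro n hn
      rw [ff_fix hN _ n hn, red_natCast_mul 𝔐 _ ((PP hN B a).2.2 n)]
      obtain ⟨k, hk⟩ := hdvd
      rw [hk, mul_comm, mul_smul, nsmul_quot_eq_zero 𝔐 hℓ, smul_zero])
  rw [hone] at hzero
  exact one_ne_zero hzero

end Inv

/-! ### Characters above and chains -/

section Over

variable {X : Type} [Group X] [Fintype X]

/-- A character of `M'` over a character of `M`. -/
theorem exists_over (h6 : Stmt_SUMM) {M M' : Subgroup X} (hle : M ≤ M')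
    (hM : ∀ s ∈ M', ∀ m ∈ M, s * m * s⁻¹ ∈ M) {θ : X → ℂ} (hθ : IrrOn M θ) :
    ∃ ψ, IrrOn M' ψ ∧ iS M ψ θ ≠ 0 := by
  classical
  by_contra hcon
  push Not at hcon
  have hn := BTR.normal hM
  have hA := BTR.irrA hle hθ
  have h := (h6 _ _ _ _ _ _ (BTR.clG hn)).1 _ _ hA hA
  rw [Finset.sum_eq_zero, mul_zero] at h
  · have h1 : Nat.card {y : M' // ∀ a : M.subgroupOf M',
        θ ((((MulAut.conjNormal (H := M.subgroupOf M')) y a : M.subgroupOf M') : M') : X) =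
          θ ((a : M') : X)} = 0 := by
      exact_mod_cast h.symm
    have h2 : Nonempty {y : M' // ∀ a : M.subgroupOf M',
        θ ((((MulAut.conjNormal (H := M.subgroupOf M')) y a : M.subgroupOf M') : M') : X) =
          θ ((a : M') : X)} := by
      refine ⟨⟨1, fun a => ?_⟩⟩
      rw [map_one, MulAut.one_apply]
    exact (Nat.card_pos.ne') h1
  · intro χ hχ
    have h3 := hcon (ext0 χ) ⟨by
      have : (fun s : M' => ext0 χ (s : X)) = χ := by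
        funext s
        rw [ext0_of_mem χ s.2]
      rw [this]
      exact mem_irrF.mp hχ, fun x hx => ext0_of_not_mem χ hx⟩
    rw [← BTR.ipA hle] at h3
    have h4 : (fun a : M.subgroupOf M' => ext0 χ ((a : M') : X)) =
        resj (M.subgroupOf M').subtype χ := by
      funext a
      rw [ext0_of_mem χ (a : M').2]
      rfl
    rw [h4] at h3
    rw [h3, zero_mul]

/-- The block of `Y` which belongs to a character of the normalizer of an `ℓ`-subgroup. -/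
theorem exists_chain {𝔐 : Ideal (integralClosure ℤ ℂ)} (hM : 𝔐.IsMaximal) {ℓ : ℕ}
    [Fact ℓ.Prime] (hℓ : (ℓ : integralClosure ℤ ℂ) ∈ 𝔐) {Y D : Subgroup X} (hDY : D ≤ Y)
    (hD : IsPGroup ℓ D) (hne : D ≠ ⊥) {ψ : X → ℂ}
    (hψ : IrrOn (Y ⊓ Subgroup.normalizer (D : Set X)) ψ) :
    ∃ χ, IrrOn Y χ ∧ ∀ F : X → ℂ, (∀ g ∈ Y, ∀ x ∈ Y, F (g * x * g⁻¹) = F x) →
      (∀ x, IsIntegral ℤ (F x)) →
      red 𝔐 (wS (Y ⊓ Subgroup.normalizer (D : Set X)) ψ F) = red 𝔐 (wS Y χ F) := by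
  classical
  have hP : 𝔐.IsPrime := hM.isPrime
  have hch : IsCh ℓ (⊥ : Subgroup Y) {D.subgroupOf Y} := by
    constructor
    · intro D' hD'
      rw [Finset.mem_singleton] at hD'
      subst hD'
      refine ⟨hD.of_equiv (Subgroup.subgroupOfEquivOfLe hDY).symm, ?_⟩
      rw [bot_lt_iff_ne_bot]
      intro h
      apply hne
      rw [Subgroup.subgroupOf_eq_bot] at h
      have h1 : D = D ⊓ Y := (inf_eq_left.mpr hDY).symm
      rw [h1]
      exact h.eq_bot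
    · rw [Finset.coe_singleton]
      exact Set.subsingleton_singleton.isChain
  have hstb : ∀ y : Y, y ∈ stb {D.subgroupOf Y} ↔
      (y : X) ∈ Y ⊓ Subgroup.normalizer (D : Set X) := by
    intro y
    rw [mem_stb', Subgroup.mem_inf, Subgroup.mem_normalizer_iff]
    constructor
    · intro h
      refine ⟨y.2, fun d => ?_⟩
      have h1 := h _ (Finset.mem_singleton_self _)
      constructor
      · intro hd
        have h2 := (h1 ⟨d, hDY hd⟩).mp (Subgroup.mem_subgroupOf.mpr hd)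
        exact Subgroup.mem_subgroupOf.mp h2
      · intro hd
        have hdY : d ∈ Y := by
          have h3 := mul_mem (mul_mem (inv_mem y.2) (hDY hd)) y.2
          have h4 : (y : X)⁻¹ * (y * d * (y : X)⁻¹) * y = d := by group
          rwa [h4] at h3
        have h2 := (h1 ⟨d, hdY⟩).mpr (Subgroup.mem_subgroupOf.mpr hd)
        exact Subgroup.mem_subgroupOf.mp h2
    · rintro ⟨-, h⟩ D' hD' x
      rw [Finset.mem_singleton] at hD'
      subst hD'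
      rw [Subgroup.mem_subgroupOf, Subgroup.mem_subgroupOf]
      exact h x
  let e : stb {D.subgroupOf Y} ≃* ↥(Y ⊓ Subgroup.normalizer (D : Set X)) :=
    { toFun := fun s => ⟨((s : Y) : X), (hstb s).mp s.2⟩
      invFun := fun l => ⟨⟨l, l.2.1⟩, (hstb ⟨l, l.2.1⟩).mpr l.2⟩
      left_inv := fun s => rfl
      right_inv := fun l => rfl
      map_mul' := fun s t => rfl }
  have hψ' : IsIrr (fun s : stb {D.subgroupOf Y} => ψ ((s : Y) : X)) :=
    hψ.1.comp_mulEquiv e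
  obtain ⟨χ, hχ, hcen⟩ := exists_irr_of_mult 𝔐 hψ' (exists_irr_of_chain 𝔐 hℓ hch hψ')
  have hχe : (fun s : Y => ext0 χ (s : X)) = χ := by
    funext s
    rw [ext0_of_mem χ s.2]
  refine ⟨ext0 χ, ⟨?_, fun x hx => ext0_of_not_mem χ hx⟩, ?_⟩
  · rw [hχe]
    exact hχ
  · intro F hF hFi
    have hcl : ∀ g x : Y, (fun y : Y => F y) (g * x * g⁻¹) = (fun y : Y => F y) x := fun g x =>
      hF g g.2 x x.2
    have e1 := red_wt_eq_pair 𝔐 (stb {D.subgroupOf Y}).subtype hψ' (fun y : Y => F y) hcl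
      (fun y => hFi y)
    have e2 := red_wt_eq_pair 𝔐 (MonoidHom.id Y) hχ (fun y : Y => F y) hcl (fun y => hFi y)
    have e3 : wS (Y ⊓ Subgroup.normalizer (D : Set X)) ψ F =
        wt (fun s : stb {D.subgroupOf Y} => ψ ((s : Y) : X))
          (fun s => F ((s : Y) : X)) :=
      (wt_comp_equiv e (fun l : ↥(Y ⊓ Subgroup.normalizer (D : Set X)) => ψ l)
        (fun l => F l)).symm
    have e4 : wS Y (ext0 χ) F = wt χ (fun y : Y => F y) := by
      unfold wS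
      rw [hχe]
    rw [e3, e4]
    rw [hcen] at e2
    exact e1.trans e2.symm

end Over

/-! ### Restriction to the normal subgroup -/

section Rs

variable {X : Type} [Group X] [Fintype X]

open Classical in
/-- The restriction of `F` to `N`, extended by zero. -/
noncomputable def rs (N : Subgroup X) (F : X → ℂ) (x : X) : ℂ := if x ∈ N then F x else 0

theorem rs_of_mem {N : Subgroup X} (F : X → ℂ) {x : X} (h : x ∈ N) : rs N F x = F x := by
  unfold rs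
  rw [if_pos h]

theorem rs_of_not_mem {N : Subgroup X} (F : X → ℂ) {x : X} (h : x ∉ N) : rs N F x = 0 := by
  unfold rs
  rw [if_neg h]

theorem rs_int {N : Subgroup X} {F : X → ℂ} (hF : ∀ x, IsIntegral ℤ (F x)) (x : X) :
    IsIntegral ℤ (rs N F x) := by
  by_cases h : x ∈ N
  · rw [rs_of_mem F h]
    exact hF x
  · rw [rs_of_not_mem F h]
    exact isIntegral_zero

theorem wS_rs {M N : Subgroup X} (hMN : M ≤ N) (θ F : X → ℂ) : wS M θ (rs N F) = wS M θ F := by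
  unfold wS
  congr 1
  funext s
  exact rs_of_mem F (hMN s.2)

theorem rs_sx_aux {N S : Subgroup X} (hS : ∀ s ∈ S, ∀ n ∈ N, s * n * s⁻¹ ∈ N) {F : X → ℂ}
    (h : ∀ s ∈ S, ∀ x ∈ N, F (s * x * s⁻¹) = F x) : S ≤ sx (rs N F) := by
  intro s hs x
  by_cases hx : x ∈ N
  · rw [rs_of_mem F hx, rs_of_mem F (hS s hs x hx), h s hs x hx]
  · rw [rs_of_not_mem F hx, rs_of_not_mem F]
    intro h1
    apply hx
    have h2 := hS _ (inv_mem hs) _ h1
    have h3 : s⁻¹ * (s * x * s⁻¹) * s⁻¹⁻¹ = x := by group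
    rwa [h3] at h2

theorem rs_sx {N D : Subgroup X} (hN : ∀ r ∈ D, ∀ n ∈ N, r * n * r⁻¹ ∈ N) {F : X → ℂ}
    (h1 : ∀ n ∈ N, ∀ x ∈ N, F (n * x * n⁻¹) = F x)
    (h2 : ∀ r ∈ D, ∀ x ∈ N, F (r * x * r⁻¹) = F x) : N ⊔ D ≤ sx (rs N F) :=
  sup_le (rs_sx_aux (fun _ hs _ hn => mul_mem (mul_mem hs hn) (inv_mem hs)) h1)
    (rs_sx_aux hN h2)

end Rs

end STA

open _root_.Pool.Agent.DPT.STA in
theorem STA_thm (h1 : Stmt_SUMM) : Stmt_STA := by
  intro X _ _ 𝔐 ℓ _ hM hℓ N D hD hN θ' hθ'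
  classical
  by_cases hne : D = ⊥
  · subst hne
    have h2 : Subgroup.normalizer ((⊥ : Subgroup X) : Set X) ⊓ N = N := by
      rw [inf_eq_right]
      intro x _
      rw [Subgroup.mem_normalizer_iff]
      intro h
      rw [Subgroup.mem_bot, Subgroup.mem_bot, conj_eq_one_iff]
    rw [h2] at hθ' ⊢
    exact ⟨θ', hθ', bot_le, fun F _ _ _ => rfl⟩
  have hYN : ∀ s ∈ N ⊔ D, ∀ n ∈ N, s * n * s⁻¹ ∈ N := by
    have h2 : N ⊔ D ≤ Subgroup.normalizer (N : Set X) :=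
      sup_le Subgroup.le_normalizer (fun r hr => BTR.nrm (hN r hr))
    exact fun s hs n hn => (Subgroup.mem_normalizer_iff.mp (h2 hs) n).mp hn
  have hCL : Subgroup.normalizer (D : Set X) ⊓ N ≤ (N ⊔ D) ⊓ Subgroup.normalizer (D : Set X) :=
    fun x hx => ⟨(le_sup_left : N ≤ N ⊔ D) hx.2, hx.1⟩
  have hLC : ∀ s ∈ (N ⊔ D) ⊓ Subgroup.normalizer (D : Set X),
      ∀ m ∈ Subgroup.normalizer (D : Set X) ⊓ N,
        s * m * s⁻¹ ∈ Subgroup.normalizer (D : Set X) ⊓ N := fun s hs m hm =>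
    Subgroup.mem_inf.mpr ⟨(Subgroup.normalizer (D : Set X)).mul_mem
      ((Subgroup.normalizer (D : Set X)).mul_mem hs.2 hm.1)
      ((Subgroup.normalizer (D : Set X)).inv_mem hs.2), hYN s hs.1 m hm.2⟩
  obtain ⟨ψ, hψ, hip⟩ := exists_over h1 hCL hLC hθ'
  obtain ⟨χ, hχ, hcen⟩ := exists_chain hM hℓ (le_sup_right : D ≤ N ⊔ D) hD hne hψ
  obtain ⟨ξ, hξ, hip2⟩ := BTR.exists_under (le_sup_left : N ≤ N ⊔ D) hχ
  have key : ∀ F : X → ℂ, (∀ n ∈ N, ∀ x ∈ N, F (n * x * n⁻¹) = F x) →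
      (∀ r ∈ D, ∀ x ∈ N, F (r * x * r⁻¹) = F x) → (∀ x, IsIntegral ℤ (F x)) →
      red 𝔐 (wS (Subgroup.normalizer (D : Set X) ⊓ N) θ' F) =
        red 𝔐 (wS ((N ⊔ D) ⊓ Subgroup.normalizer (D : Set X)) ψ (rs N F)) ∧
      red 𝔐 (wS N ξ F) =
        red 𝔐 (wS ((N ⊔ D) ⊓ Subgroup.normalizer (D : Set X)) ψ (rs N F)) := by
    intro F hF1 hF2 hF3
    have hsx := rs_sx hN hF1 hF2
    constructor
    · rw [← wS_rs (inf_le_right : Subgroup.normalizer (D : Set X) ⊓ N ≤ N) θ' F]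
      congr 1
      symm
      apply BTR.wS_under h1 hCL hLC hψ hθ' hip
      · intro g hg x _
        exact hsx hg.1 x
      · intro x hx hx'
        apply rs_of_not_mem
        intro h
        exact hx' ⟨hx.2, h⟩
    · rw [← wS_rs le_rfl ξ F, hcen (rs N F) (fun g hg x _ => hsx hg x) (rs_int hF3)]
      congr 1
      symm
      apply BTR.wS_under h1 le_sup_left hYN hχ hξ hip2
      · intro g hg x _
        exact hsx hg x
      · intro x _ hx
        exact rs_of_not_mem F hx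
  refine ⟨ξ, hξ, stab hN hM hℓ hD hξ ?_, fun F hF1 hF2 hF3 =>
    (key F hF1 hF2 hF3).1.trans (key F hF1 hF2 hF3).2.symm⟩
  intro f hf1 hf2 hf3 hf4
  have hfe : (fun n : N => ext0 f (n : X)) = f := by
    funext n
    rw [ext0_of_mem f n.2]
  have hint : ∀ x, IsIntegral ℤ (ext0 f x) := by
    intro x
    by_cases hx : x ∈ N
    · rw [ext0_of_mem f hx]
      exact hf3 _
    · rw [ext0_of_not_mem f hx]
      exact isIntegral_zero
  have hN' : ∀ n ∈ N, ∀ x ∈ N, ext0 f (n * x * n⁻¹) = ext0 f x := by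
    intro n hn x hx
    rw [ext0_of_mem f hx, ext0_of_mem f (mul_mem (mul_mem hn hx) (inv_mem hn))]
    exact hf1 ⟨n, hn⟩ ⟨x, hx⟩
  have hD' : ∀ r ∈ D, ∀ x ∈ N, ext0 f (r * x * r⁻¹) = ext0 f x := by
    intro r hr x hx
    rw [ext0_of_mem f hx, ext0_of_mem f (hN r hr x hx)]
    exact hf2 ⟨r, hr⟩ ⟨x, hx⟩
  have e1 : wt (fun n : N => ξ n) f = wS N ξ (ext0 f) := by
    unfold wS
    rw [hfe]
  have hsx := rs_sx hN hN' hD'
  rw [e1, (key (ext0 f) hN' hD' hint).2]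
  have hDL : D ≤ (N ⊔ D) ⊓ Subgroup.normalizer (D : Set X) :=
    fun x hx => ⟨(le_sup_right : D ≤ N ⊔ D) hx, Subgroup.le_normalizer hx⟩
  have hQn : (D.subgroupOf ((N ⊔ D) ⊓ Subgroup.normalizer (D : Set X))).Normal :=
    BTR.normal fun s hs m hm => (Subgroup.mem_normalizer_iff.mp hs.2 m).mp hm
  have h3 := red_wt_eq 𝔐 hℓ hψ.1 (D.subgroupOf ((N ⊔ D) ⊓ Subgroup.normalizer (D : Set X)))
    (hD.of_equiv (Subgroup.subgroupOfEquivOfLe hDL).symm)
    (fun s => rs N (ext0 f) (s : X)) (fun _ => 0)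
    (fun g x => hsx g.2.1 x) (fun y => rs_int hint y) (fun _ _ => rfl)
    (fun _ => isIntegral_zero) ?_
  · have h4 : wt (fun s : ↥((N ⊔ D) ⊓ Subgroup.normalizer (D : Set X)) => ψ s)
        (fun _ => (0 : ℂ)) = 0 := by
      unfold wt
      simp
    rw [h4, red_zero] at h3
    exact h3
  · intro y hy
    show red 𝔐 (rs N (ext0 f) (y : X)) = red 𝔐 0
    rw [red_zero]
    by_cases hyN : (y : X) ∈ N
    · rw [rs_of_mem _ hyN, ext0_of_mem f hyN]
      apply hf4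
      intro r
      apply Subtype.ext
      rw [al_coe]
      have h5 := congrArg (fun t : ↥((N ⊔ D) ⊓ Subgroup.normalizer (D : Set X)) => (t : X))
        (hy ⟨(r : X), hDL r.2⟩ (Subgroup.mem_subgroupOf.mpr r.2))
      have h6 : (r : X) * (y : X) = (y : X) * r := h5
      show (r : X) * (y : X) * (r : X)⁻¹ = y
      rw [h6, mul_inv_cancel_right]
    · rw [rs_of_not_mem _ hyN, red_zero]

end Pool.Agent.DPT


end
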