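import Mathlib
import Pool.Agent.DAM.C04
import Pool.Agent.DAM.C08
import Pool.Agent.DAM.C100
import Pool.Agent.DAM.C14
import Pool.Agent.DAM.C15
import Pool.Agent.DAM.C19
import Pool.Agent.DAM.C22
import Pool.Agent.DAM.C25
import Pool.Agent.DAM.C27
import Pool.Agent.DAM.C33
import Pool.Agent.DAM.C44
import Pool.Agent.DAM.C50
import Pool.Agent.DAM.C51
import Pool.Agent.DAM.C52
import Pool.Agent.DAM.C55
import Pool.Agent.DAM.C64
import Pool.Agent.DAM.C67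
import Pool.Agent.DAM.C69
import Pool.Agent.DAM.C73
import Pool.Agent.DAM.C78
import Pool.Agent.DAM.C79
import Pool.Agent.DAM.C85
import Pool.Agent.DAM.C90
import Pool.Agent.DAM.C99

/-! Parts: DPN.RDQ, DPT.DEFM, DPV.BETV, DPV.CYH, DPW.BEQW, DPX.LVX, DPG.CMB, DPG.TOG -/

section

/-!
# The quotient by the `ℓ`-part of the kernel
-/

namespace Pool.Agent.DPN

open Pool.Agent.DP Pool.Agent.DPC Pool.Agent.DPM Pool.Agent.Lib_helper13 Representation
open Pool.Agent.Lib_helper13.Dade (pCore DadeHolds dadeSum)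

namespace RDQ

/-- An exponent which is `0` modulo the `ℓ`-part and `1` modulo the `ℓ'`-part. -/
theorem exists_exp (ℓ : ℕ) [hℓ : Fact ℓ.Prime] (m : ℕ) (hm : m ≠ 0) :
    ∃ a b n : ℕ, m = ℓ ^ a * b ∧ Nat.Coprime ℓ b ∧ ℓ ^ a ∣ n ∧ n ≡ 1 [MOD b] := by
  refine ⟨m.factorization ℓ, m / ℓ ^ m.factorization ℓ, ?_⟩
  have h1 : Nat.Coprime ℓ (m / ℓ ^ m.factorization ℓ) := Nat.coprime_ordCompl hℓ.out hm
  have h2 : Nat.Coprime (ℓ ^ m.factorization ℓ) (m / ℓ ^ m.factorization ℓ) :=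
    Nat.Coprime.pow_left _ h1
  obtain ⟨n, hn1, hn2⟩ := Nat.chineseRemainder h2 0 1
  exact ⟨n, (Nat.ordProj_mul_ordCompl_eq_self m ℓ).symm, h1, (Nat.modEq_zero_iff_dvd).1 hn1, hn2⟩

/-- Divisors of the order with `u ^ n = 1`. -/
theorem dvd_of {ℓ a b n k : ℕ} (hb : Nat.Coprime ℓ b) (hn : n ≡ 1 [MOD b])
    (h1 : k ∣ ℓ ^ a * b) (h2 : k ∣ ℓ * n) : k ∣ ℓ ^ a := by
  have hnb : Nat.Coprime n b := by
    have := Nat.ModEq.gcd_eq hn
    rw [Nat.Coprime, this, Nat.gcd_one_left]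
  have h3 : Nat.Coprime (ℓ * n) b := Nat.Coprime.mul_left hb hnb
  have h4 : Nat.Coprime k b := Nat.Coprime.coprime_dvd_left h2 h3
  exact h4.dvd_of_dvd_mul_right h1

theorem rpow (𝔐 : Ideal (integralClosure ℤ ℂ)) {a : ℂ} (ha : IsIntegral ℤ a) (n : ℕ) :
    red 𝔐 (a ^ n) = red 𝔐 a ^ n := by
  rw [red_of_integral 𝔐 ha, red_of_integral 𝔐 (ha.pow n), ← map_pow]
  rfl

/-- The reductions of `x ^ n` and `x` agree. -/
theorem red_pow_eq (𝔐 : Ideal (integralClosure ℤ ℂ)) {ℓ : ℕ} [hℓ : Fact ℓ.Prime]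
    (h𝔐 : 𝔐.IsMaximal) (hM : (ℓ : integralClosure ℤ ℂ) ∈ 𝔐) {a b n : ℕ} {x : ℂ}
    (hx : x ^ (ℓ ^ a * b) = 1) (hb0 : 0 < b) (hn : n ≡ 1 [MOD b]) :
    red 𝔐 (x ^ n) = red 𝔐 x := by
  have hpr := h𝔐.isPrime
  have hint : IsIntegral ℤ x :=
    IsIntegral.of_pow (Nat.mul_pos (pow_pos hℓ.out.pos a) hb0) (by rw [hx]; exact isIntegral_one)
  have hchar : CharP ((integralClosure ℤ ℂ) ⧸ 𝔐) ℓ := quot_char 𝔐 hM
  rw [rpow 𝔐 hint]
  have h1 : (red 𝔐 x ^ b) ^ ℓ ^ a = 1 := by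
    rw [← pow_mul, mul_comm b, ← rpow 𝔐 hint, hx, red_one]
  have h2 : red 𝔐 x ^ b = 1 := by
    have h3 : (iterateFrobenius ((integralClosure ℤ ℂ) ⧸ 𝔐) ℓ a) (red 𝔐 x ^ b) =
        (iterateFrobenius ((integralClosure ℤ ℂ) ⧸ 𝔐) ℓ a) 1 := by
      rw [map_one, iterateFrobenius_def]
      exact h1
    exact iterateFrobenius_inj _ ℓ a h3
  have h4 : red 𝔐 x ^ n = red 𝔐 x ^ 1 := by
    rcases Nat.eq_zero_or_pos n with h0 | h0
    · subst h0
      have h5 : b ∣ 1 := (Nat.modEq_zero_iff_dvd).1 hn.symm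
      have h6 : b = 1 := Nat.dvd_one.1 h5
      rw [h6] at h2
      rw [h2, pow_zero]
    · obtain ⟨c, hc⟩ := (Nat.modEq_iff_dvd' h0).1 hn.symm
      have h5 : n = b * c + 1 := by omega
      rw [h5, pow_add, pow_mul, h2, one_pow, one_mul]
  rw [h4, pow_one]

end RDQ

theorem RDQ_thm : Stmt_RDQ := by
  intro L H _ _ _ 𝔐 ℓ hℓ h𝔐 hM U μ π hUc hπ hcyc hinj
  classical
  have hcomm : ∀ u ∈ U, ∀ l : L, Commute u l := fun u hu l =>
    (Subgroup.mem_center_iff.1 (hUc hu) l).symm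
  obtain ⟨a, b, n, hm, hb, hn1, hn2⟩ := RDQ.exists_exp ℓ (Nat.card U) Nat.card_pos.ne'
  have hb0 : 0 < b := by
    rcases Nat.eq_zero_or_pos b with h | h
    · rw [h, mul_zero] at hm
      exact absurd hm Nat.card_pos.ne'
    · exact h
  have hord : ∀ u ∈ U, orderOf u ∣ ℓ ^ a * b := by
    intro u hu
    rw [← hm]
    have h1 : u ^ Nat.card U = 1 := by
      have h2 : (⟨u, hu⟩ : U) ^ Nat.card U = 1 := pow_card_eq_one'
      exact congrArg Subtype.val h2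
    exact orderOf_dvd_of_pow_eq_one h1
  let N : Subgroup L :=
    { carrier := {u | u ∈ U ∧ u ^ n = 1}
      one_mem' := ⟨one_mem U, one_pow n⟩
      mul_mem' := fun {x y} hx hy => ⟨mul_mem hx.1 hy.1, by
        rw [(hcomm x hx.1 y).mul_pow, hx.2, hy.2, one_mul]⟩
      inv_mem' := fun {x} hx => ⟨inv_mem hx.1, by rw [inv_pow, hx.2, inv_one]⟩ }
  have hNmem : ∀ x, x ∈ N ↔ x ∈ U ∧ x ^ n = 1 := fun x => Iff.rfl
  have hN : N.Normal := ⟨fun u hu g => by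
    have h1 : g * u * g⁻¹ = u := by
      rw [← (hcomm u hu.1 g).eq, mul_inv_cancel_right]
    rw [h1]
    exact hu⟩
  let κ : L →* L ⧸ N := QuotientGroup.mk' N
  have hκ1 : ∀ x, κ x = 1 ↔ x ∈ N := fun x => QuotientGroup.eq_one_iff x
  let π' : L ⧸ N →* H := QuotientGroup.lift N π fun u hu => (hπ u).2 hu.1
  have hππ : ∀ l, π' (κ l) = π l := fun l => rfl
  have hker : ∀ l : L, κ l ∈ π'.ker ↔ l ∈ U := fun l => by
    rw [MonoidHom.mem_ker, hππ, hπ]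
  let κU : U →* π'.ker := (κ.comp U.subtype).codRestrict π'.ker fun u => (hker u).2 u.2
  have hκU : ∀ u : U, ((κU u : π'.ker) : L ⧸ N) = κ u := fun u => rfl
  have hκUs : Function.Surjective κU := by
    rintro ⟨x, hx⟩
    obtain ⟨l, rfl⟩ := QuotientGroup.mk'_surjective N x
    exact ⟨⟨l, (hker l).1 hx⟩, rfl⟩
  have hκUk : ∀ u : U, κU u = 1 ↔ (u : L) ^ n = 1 := by
    intro u
    constructor
    · intro h
      have h1 : κ u = 1 := by rw [← hκU, h]; rfl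
      exact ((hκ1 _).1 h1).2
    · intro h
      apply Subtype.ext
      exact (hκ1 _).2 ⟨u.2, h⟩
  have hle : κU.ker ≤ (μ ^ n).ker := by
    intro u hu
    rw [MonoidHom.mem_ker] at hu ⊢
    have h1 : u ^ n = 1 := Subtype.ext ((hκUk u).1 hu)
    rw [MonoidHom.pow_apply, ← map_pow, h1, map_one]
  let μ' : π'.ker →* ℂˣ := MonoidHom.liftOfSurjective κU hκUs ⟨μ ^ n, hle⟩
  have hμ' : ∀ u : U, μ' (κU u) = μ u ^ n := fun u =>
    MonoidHom.liftOfRightInverse_comp_apply κU _ _ ⟨μ ^ n, hle⟩ u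
  have hμn : ∀ u : U, μ u ^ n = 1 → κU u = 1 := by
    intro u hu
    rw [hκUk]
    rw [← map_pow] at hu
    have h1 : u ^ n = 1 := hinj (hu.trans (map_one μ).symm)
    exact congrArg Subtype.val h1
  refine ⟨L ⧸ N, inferInstance, Fintype.ofFinite _, κ, π', μ', ?_⟩
  refine ⟨QuotientGroup.mk'_surjective N, ?_, ?_, hππ, ?_, ?_, ?_, ?_, ?_⟩
  · intro x hx
    exact ((hκ1 x).1 hx).1
  · rintro ⟨x, hx⟩
    refine ⟨a, Subtype.ext ?_⟩
    have h1 := (hκ1 x).1 hx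
    exact orderOf_dvd_iff_pow_eq_one.1 (RDQ.dvd_of hb hn2 (hord x h1.1)
      ((orderOf_dvd_of_pow_eq_one h1.2).trans (Dvd.intro_left ℓ rfl)))
  · intro hdvd
    obtain ⟨x, hx⟩ := exists_prime_orderOf_dvd_card' ℓ hdvd
    obtain ⟨u, rfl⟩ := hκUs x
    have h1 : κU (u ^ ℓ) = 1 := by
      rw [map_pow, ← hx, pow_orderOf_eq_one]
    have h2 : ((u : L) ^ ℓ) ^ n = 1 := (hκUk (u ^ ℓ)).1 h1
    rw [← pow_mul] at h2
    have h3 := RDQ.dvd_of hb hn2 (hord u u.2) (orderOf_dvd_of_pow_eq_one h2)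
    have h4 : κU u = 1 := (hκUk u).2 (orderOf_dvd_iff_pow_eq_one.1 (h3.trans hn1))
    rw [h4, orderOf_one] at hx
    exact hℓ.out.one_lt.ne hx
  · rintro x hx
    obtain ⟨l, rfl⟩ := QuotientGroup.mk'_surjective N x
    have hl := (hker l).1 hx
    rw [Subgroup.mem_center_iff]
    intro y
    obtain ⟨g, rfl⟩ := QuotientGroup.mk'_surjective N y
    rw [← map_mul, ← map_mul, (hcomm l hl g).eq]
  · exact isCyclic_of_surjective κU hκUs
  · rw [injective_iff_map_eq_one]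
    intro x hx
    obtain ⟨u, rfl⟩ := hκUs x
    rw [hμ'] at hx
    exact hμn u hx
  · intro u hu h
    have h1 : (⟨κ u, h⟩ : π'.ker) = κU ⟨u, hu⟩ := rfl
    rw [h1, hμ', Units.val_pow_eq_pow_val]
    refine RDQ.red_pow_eq 𝔐 h𝔐 hM (a := a) (b := b) ?_ hb0 hn2
    rw [← Units.val_pow_eq_pow_val, ← map_pow, ← hm, pow_card_eq_one', map_one, Units.val_one]

end Pool.Agent.DPN


end

section

/-!
# DEFM: the defects of the characters over an invariant character of a subgroup which commutes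
with `M` modulo the centre
-/

set_option autoImplicit false
set_option linter.unusedSectionVars false

namespace Pool.Agent.DPT

open Pool.Agent.DP Pool.Agent.DPC Pool.Agent.DPM Pool.Agent.DPN Pool.Agent.Lib_helper13
open Representation

namespace DEFM

section Clif

variable {A Y K : Type} [Group A] [Fintype A] [Group Y] [Fintype Y] [Group K] {j : A →* Y}
  {c : Y →* MulAut A} {p : Y →* K}

/-- Extension of an invariant function by zero. -/
theorem exists_ext (hc : ClG j c p) (F : A → ℂ) (hF : ∀ y a, F (c y a) = F a) :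
    ∃ f : Y → ℂ, (∀ a, f (j a) = F a) ∧ (∀ y, y ∉ j.range → f y = 0) ∧
      ∀ g x, f (g * x * g⁻¹) = f x := by
  classical
  have h1 : ∀ a, (if h : ∃ a', j a' = j a then F h.choose else 0) = F a := by
    intro a
    have h : ∃ a', j a' = j a := ⟨a, rfl⟩
    rw [dif_pos h, hc.inj h.choose_spec]
  have h2 : ∀ y, y ∉ j.range → (if h : ∃ a', j a' = y then F h.choose else 0) = 0 := by
    intro y hy
    exact dif_neg hy
  refine ⟨fun y => if h : ∃ a, j a = y then F h.choose else 0, h1, h2, ?_⟩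
  intro g x
  by_cases hx : x ∈ j.range
  · obtain ⟨a, rfl⟩ := hx
    have h3 : g * j a * g⁻¹ = j (c g a) := (hc.act g a).symm
    change (if h : ∃ a', j a' = g * j a * g⁻¹ then F h.choose else 0) = _
    rw [h3]
    rw [h1 (c g a), hF]
    exact (h1 a).symm
  · have h3 : g * x * g⁻¹ ∉ j.range := by
      rintro ⟨a, ha⟩
      apply hx
      refine ⟨c g⁻¹ a, ?_⟩
      rw [hc.act, ha]
      group
    exact (h2 _ h3).trans (h2 _ hx).symm

/-- Proportionality of the sums of a character and of a constituent of its restriction. -/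
theorem cl1 (hc : ClG j c p) {ψ : Y → ℂ} {θ : A → ℂ} (hψ : IsIrr ψ) (hθ : IsIrr θ)
    (h : ip (resj j ψ) θ ≠ 0) (F : A → ℂ) (hF : ∀ y a, F (c y a) = F a) :
    (∑ a, F a * ψ (j a)) * θ 1 = (∑ a, F a * θ a) * ψ 1 := by
  obtain ⟨f, hf1, hf2, hf3⟩ := exists_ext hc F hF
  have h1 := (SUMM_thm A Y K j c p hc).2.2.2 θ ψ f hθ hψ h hf3 hf2
  have h2 : ∑ y, f y * ψ y = ∑ a, F a * ψ (j a) := by
    symm
    refine Fintype.sum_of_injective j hc.inj _ _ ?_ ?_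
    · intro y hy
      rw [hf2 y (by
        rintro ⟨a, ha⟩
        exact hy ⟨a, ha⟩), zero_mul]
    · intro a
      rw [hf1]
  unfold wt at h1
  rw [h2] at h1
  simp only [hf1] at h1
  rw [div_eq_div_iff hψ.one_ne_zero hθ.one_ne_zero] at h1
  exact h1

/-- The multiplicity and the stabilizer. -/
theorem cl2 (hc : ClG j c p) {ψ : Y → ℂ} {θ : A → ℂ} (hψ : IsIrr ψ) (hθ : IsIrr θ)
    (h : ip (resj j ψ) θ ≠ 0) :
    (Nat.card Y : ℂ) * ip (resj j ψ) θ * θ 1 = (Nat.card (inert c θ) : ℂ) * ψ 1 := by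
  classical
  have hA : (Nat.card A : ℂ) ≠ 0 := natCard_ne_zero
  have h1 := cl1 hc hψ hθ h (fun a => ∑ y : Y, θ (c y a⁻¹)) (by
    intro y' a
    refine Fintype.sum_equiv (Equiv.mulRight y') _ _ fun y => ?_
    rw [Equiv.coe_mulRight, map_mul, MulAut.mul_apply, map_inv (c y')])
  have h2 : ∑ a, (∑ y : Y, θ (c y a⁻¹)) * ψ (j a) =
      (Nat.card A : ℂ) * ((Nat.card Y : ℂ) * ip (resj j ψ) θ) := by
    simp only [Finset.sum_mul]
    rw [Finset.sum_comm]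
    have h3 : ∀ y : Y, ∑ a, θ (c y a⁻¹) * ψ (j a) = (Nat.card A : ℂ) * ip (resj j ψ) θ := by
      intro y
      have h4 := (SUMM_thm A Y K j c p hc).2.2.1 θ ψ y hψ
      rw [← h4]
      unfold ip
      rw [mul_div_cancel₀ _ hA]
      refine Finset.sum_congr rfl fun a _ => ?_
      rw [mul_comm]
      rfl
    rw [Finset.sum_congr rfl fun y _ => h3 y, Finset.sum_const, Finset.card_univ, nsmul_eq_mul,
      Nat.card_eq_fintype_card (α := Y)]
    ring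
  have h3 : ∑ a, (∑ y : Y, θ (c y a⁻¹)) * θ a =
      (Nat.card A : ℂ) * (Nat.card (inert c θ) : ℂ) := by
    simp only [Finset.sum_mul]
    rw [Finset.sum_comm]
    have h4 : ∀ y : Y, ∑ a, θ (c y a⁻¹) * θ a =
        if y ∈ inert c θ then (Nat.card A : ℂ) else 0 := by
      intro y
      split_ifs with hy
      · rw [← hθ.sum_self]
        refine Finset.sum_congr rfl fun a _ => ?_
        rw [mul_comm]
        congr 1
        exact hy _
      · have h5 : IsIrr (fun a => θ (c y a)) := hθ.comp_mulEquiv (c y)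
        have h6 := hθ.sum_ne h5 (by
          intro h7
          apply hy
          intro a
          exact (congrFun h7 a).symm)
        rw [← h6]
        refine Finset.sum_congr rfl fun a _ => ?_
        rw [mul_comm]
    rw [Finset.sum_congr rfl fun y _ => h4 y, ← Finset.sum_filter, Finset.sum_const, nsmul_eq_mul,
      mul_comm]
    congr 2
    rw [Nat.card_eq_fintype_card, Fintype.card_subtype]
  rw [h2, h3] at h1
  have h4 : (Nat.card A : ℂ) * ((Nat.card Y : ℂ) * ip (resj j ψ) θ * θ 1) =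
      (Nat.card A : ℂ) * ((Nat.card (inert c θ) : ℂ) * ψ 1) := by
    rw [← mul_assoc, ← mul_assoc, ← mul_assoc (Nat.card A : ℂ), ← h1]
    ring
  exact mul_left_cancel₀ hA h4

/-- The norm of the restriction. -/
theorem cl3 (hc : ClG j c p) {ψ : Y → ℂ} {θ : A → ℂ} (hψ : IsIrr ψ) (hθ : IsIrr θ)
    (h : ip (resj j ψ) θ ≠ 0) :
    ip (resj j ψ) (resj j ψ) * θ 1 = ip (resj j ψ) θ * ψ 1 := by
  have hA : (Nat.card A : ℂ) ≠ 0 := natCard_ne_zero
  have h1 := cl1 hc hψ hθ h (fun a => ψ (j a⁻¹)) (by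
    intro y a
    rw [← hψ.conj_eq y (j a⁻¹), ← map_inv (c y), hc.act])
  have h2 : ∑ a, ψ (j a⁻¹) * ψ (j a) = (Nat.card A : ℂ) * ip (resj j ψ) (resj j ψ) := by
    unfold ip
    rw [mul_div_cancel₀ _ hA]
    refine Finset.sum_congr rfl fun a _ => ?_
    rw [mul_comm]
    rfl
  have h3 : ∑ a, ψ (j a⁻¹) * θ a = (Nat.card A : ℂ) * ip (resj j ψ) θ := by
    rw [ip_comm]
    unfold ip
    rw [mul_div_cancel₀ _ hA]
    refine Finset.sum_congr rfl fun a _ => ?_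
    rw [mul_comm]
    rfl
  rw [h2, h3] at h1
  have h4 : (Nat.card A : ℂ) * (ip (resj j ψ) (resj j ψ) * θ 1) =
      (Nat.card A : ℂ) * (ip (resj j ψ) θ * ψ 1) := by
    rw [← mul_assoc, ← mul_assoc, h1]
  exact mul_left_cancel₀ hA h4

/-- The sum over a coset, for an invariant character. -/
theorem cl4 (hc : ClG j c p) {ψ : Y → ℂ} {θ : A → ℂ} (hψ : IsIrr ψ) (hθ : IsIrr θ)
    (h : ip (resj j ψ) θ ≠ 0) (hinv : ∀ y a, θ (c y a) = θ a) (g : Y) :
    (∑ a, θ a * ψ (g * (j a)⁻¹)) * θ 1 = (Nat.card A : ℂ) * ψ g := by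
  obtain ⟨f, hf1, hf2, hf3⟩ := exists_ext hc θ hinv
  have h1 := FRI.conv f ψ hf3 hψ g
  have h2 : ∀ F : Y → ℂ, ∑ y, f y * F y = ∑ a, θ a * F (j a) := by
    intro F
    symm
    refine Fintype.sum_of_injective j hc.inj _ _ ?_ ?_
    · intro y hy
      rw [hf2 y (by
        rintro ⟨a, ha⟩
        exact hy ⟨a, ha⟩), zero_mul]
    · intro a
      rw [hf1]
  have h3 := h2 (fun y => ψ (g * y⁻¹))
  have h4 := h2 (fun y => ψ y⁻¹)
  rw [h3, h4] at h1
  have h5 := cl1 hc hψ hθ h (fun a => θ a⁻¹) (by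
    intro y a
    rw [← map_inv, hinv])
  have h6 : ∑ a, θ a⁻¹ * θ a = (Nat.card A : ℂ) := by
    rw [← hθ.sum_self]
    refine Finset.sum_congr rfl fun a _ => mul_comm _ _
  have h7 : ∑ a, θ a * ψ (j a)⁻¹ = ∑ a, θ a⁻¹ * ψ (j a) := by
    refine Fintype.sum_equiv (Equiv.inv A) _ _ fun a => ?_
    rw [Equiv.inv_apply, inv_inv, map_inv]
  rw [h6, ← h7] at h5
  have h8 : (∑ a, θ a * ψ (g * (j a)⁻¹)) * θ 1 =
      ((∑ a, θ a * ψ (j a)⁻¹) * θ 1) / ψ 1 * ψ g := by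
    rw [h1]
    ring
  rw [h8, h5, mul_div_assoc, div_self hψ.one_ne_zero, mul_one]

/-- Normality gives the Clifford data. -/
theorem exists_clg {C X : Type} [Group C] [Group X] (k : C →* X) (hk : Function.Injective k)
    (hn : ∀ y c, ∃ c', k c' = y * k c * y⁻¹) :
    ∃ (K : Type) (_ : Group K) (c : X →* MulAut C) (p : X →* K), ClG k c p := by
  have hN : k.range.Normal := by
    refine ⟨?_⟩
    rintro _ ⟨c, rfl⟩ g
    exact hn g c
  refine ⟨X ⧸ k.range, inferInstance,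
    ((MulAut.congr (MonoidHom.ofInjective hk).symm).toMonoidHom).comp
      (MulAut.conjNormal : X →* MulAut k.range), QuotientGroup.mk' k.range, hk, ?_, ?_⟩
  · intro y a
    change k ((MonoidHom.ofInjective hk).symm (MulAut.conjNormal y
      ((MonoidHom.ofInjective hk).symm.symm a))) = _
    have h1 : ∀ z : k.range, k ((MonoidHom.ofInjective hk).symm z) = z := by
      intro z
      have := congrArg Subtype.val ((MonoidHom.ofInjective hk).apply_symm_apply z)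
      exact this
    rw [h1, MulAut.conjNormal_apply]
    rfl
  · intro y
    rw [QuotientGroup.mk'_apply, QuotientGroup.eq_one_iff]

end Clif

section Norm

variable {H : Type} [Group H] [Fintype H]

theorem sum_norm {χ : H → ℂ} (hχ : IsChr χ) :
    ∑ h, χ h * χ h⁻¹ = ((∑ h, ‖χ h‖ ^ 2 : ℝ) : ℂ) := by
  rw [Complex.ofReal_sum]
  refine Finset.sum_congr rfl fun h _ => ?_
  rw [Pool.Agent.DPX.NRMX.mul_inv_eq hχ, Complex.normSq_eq_norm_sq]

theorem ip_norm {χ : H → ℂ} (hχ : IsChr χ) :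
    (Nat.card H : ℂ) * ip χ χ = ((∑ h, ‖χ h‖ ^ 2 : ℝ) : ℂ) := by
  rw [ip, mul_div_cancel₀ _ natCard_ne_zero, sum_norm hχ]

theorem irr_norm {χ : H → ℂ} (hχ : IsIrr χ) : ∑ h, ‖χ h‖ ^ 2 = (Nat.card H : ℝ) := by
  have h1 := sum_norm hχ.isChr
  rw [hχ.sum_self] at h1
  exact_mod_cast h1.symm

/-- The norm of the restriction to a subgroup. -/
theorem res_norm {C : Type} [Group C] [Fintype C] (k : C →* H) (hk : Function.Injective k)
    {χ : H → ℂ} (hχ : IsIrr χ) : ∑ c, ‖χ (k c)‖ ^ 2 ≤ (Nat.card H : ℝ) := by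
  classical
  rw [← irr_norm hχ]
  have h1 : ∑ c, ‖χ (k c)‖ ^ 2 = ∑ h ∈ Finset.univ.image k, ‖χ h‖ ^ 2 := by
    rw [Finset.sum_image fun a _ b _ hab => hk hab]
  rw [h1]
  exact Finset.sum_le_sum_of_subset_of_nonneg (Finset.subset_univ _)
    fun h _ _ => sq_nonneg _

end Norm

section Cauchy

variable {A Y K : Type} [Group A] [Fintype A] [Group Y] [Fintype Y] [Group K] {j : A →* Y}
  {c : Y →* MulAut A} {p : Y →* K}

/-- The value at `g` and the norm of the coset of `g`. -/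
theorem cauchy (hc : ClG j c p) {ψ : Y → ℂ} {θ : A → ℂ} (hψ : IsIrr ψ) (hθ : IsIrr θ)
    (h : ip (resj j ψ) θ ≠ 0) (hinv : ∀ y a, θ (c y a) = θ a) {n : ℕ} (hn : θ 1 = n) (g : Y) :
    (Nat.card A : ℝ) * ‖ψ g‖ ^ 2 ≤ (n : ℝ) ^ 2 * ∑ a, ‖ψ (g * j a)‖ ^ 2 := by
  have h1 := cl4 hc hψ hθ h hinv g
  have hA : 0 < (Nat.card A : ℝ) := by exact_mod_cast Nat.card_pos
  have h2 : ∑ a, ‖ψ (g * j a)‖ ^ 2 = ∑ a, ‖ψ (g * (j a)⁻¹)‖ ^ 2 := by
    refine Fintype.sum_equiv (Equiv.inv A) _ _ fun a => ?_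
    rw [Equiv.inv_apply, map_inv, inv_inv]
  have h3 : (Nat.card A : ℝ) * ‖ψ g‖ = ‖∑ a, θ a * ψ (g * (j a)⁻¹)‖ * n := by
    have h4 := congrArg (fun z : ℂ => ‖z‖) h1
    simp only [norm_mul] at h4
    rw [hn, Complex.norm_natCast, Complex.norm_natCast] at h4
    exact h4.symm
  have h4 : ‖∑ a, θ a * ψ (g * (j a)⁻¹)‖ ≤ ∑ a, ‖θ a‖ * ‖ψ (g * (j a)⁻¹)‖ := by
    refine (norm_sum_le _ _).trans_eq ?_
    exact Finset.sum_congr rfl fun a _ => norm_mul _ _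
  have h5 := Finset.sum_mul_sq_le_sq_mul_sq Finset.univ (fun a => ‖θ a‖)
    (fun a => ‖ψ (g * (j a)⁻¹)‖)
  rw [irr_norm hθ, ← h2] at h5
  have h6 : ‖∑ a, θ a * ψ (g * (j a)⁻¹)‖ ^ 2 ≤
      (Nat.card A : ℝ) * ∑ a, ‖ψ (g * j a)‖ ^ 2 :=
    (pow_le_pow_left₀ (norm_nonneg _) h4 2).trans h5
  have h7 : ((Nat.card A : ℝ) * ‖ψ g‖) ^ 2 ≤
      (Nat.card A : ℝ) * ((n : ℝ) ^ 2 * ∑ a, ‖ψ (g * j a)‖ ^ 2) := by
    rw [h3, mul_pow]
    calc _ ≤ ((Nat.card A : ℝ) * ∑ a, ‖ψ (g * j a)‖ ^ 2) * (n : ℝ) ^ 2 :=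
          mul_le_mul_of_nonneg_right h6 (sq_nonneg _)
      _ = _ := by ring
  have h8 : (Nat.card A : ℝ) * ((Nat.card A : ℝ) * ‖ψ g‖ ^ 2) ≤
      (Nat.card A : ℝ) * ((n : ℝ) ^ 2 * ∑ a, ‖ψ (g * j a)‖ ^ 2) := by
    calc _ = ((Nat.card A : ℝ) * ‖ψ g‖) ^ 2 := by ring
      _ ≤ _ := h7
  exact le_of_mul_le_mul_left h8 hA

end Cauchy

section Groups

variable {A B U Y : Type} [Group A] [Fintype A] [Group B] [Fintype B] [Group U] [Fintype U]
  [Group Y] [Fintype Y]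

/-- `Y` is the product of the images of `A` and `B`, which commute modulo the central
subgroup `U`, their intersection. -/
structure PR (ℓ : ℕ) (j : A →* Y) (i : B →* Y) (k : U →* A) (k' : U →* B) : Prop where
  hj : Function.Injective j
  hi : Function.Injective i
  hk : Function.Injective k
  hkk : ∀ u, j (k u) = i (k' u)
  int : ∀ a b, j a = i b → ∃ u, k u = a
  gen : ∀ y, ∃ a b, y = j a * i b
  cen : ∀ u y, j (k u) * y = y * j (k u)
  com : ∀ a b, ∃ u, j a * i b = j (k u) * i b * j a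
  pp : ∀ b, ∃ n : ℕ, ∃ u, b ^ ℓ ^ n = k' u

variable {ℓ : ℕ} {j : A →* Y} {i : B →* Y} {k : U →* A} {k' : U →* B}

theorem PR.hk' (h : PR ℓ j i k k') : Function.Injective k' := by
  intro u v huv
  apply h.hk
  apply h.hj
  rw [h.hkk, h.hkk, huv]

theorem PR.normA (h : PR ℓ j i k k') (y : Y) (a' : A) : ∃ a'', j a'' = y * j a' * y⁻¹ := by
  obtain ⟨a, b, rfl⟩ := h.gen y
  obtain ⟨u, hu⟩ := h.com a' b
  refine ⟨a * ((k u)⁻¹ * a') * a⁻¹, ?_⟩
  rw [map_mul, map_mul, map_mul, map_inv, map_inv]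
  have h1 : i b * j a' = (j (k u))⁻¹ * j a' * i b := by
    rw [mul_assoc, hu]
    group
  calc j a * ((j (k u))⁻¹ * j a') * (j a)⁻¹
      = j a * ((j (k u))⁻¹ * j a' * i b) * (i b)⁻¹ * (j a)⁻¹ := by group
    _ = j a * (i b * j a') * (i b)⁻¹ * (j a)⁻¹ := by rw [h1]
    _ = j a * i b * j a' * (j a * i b)⁻¹ := by group

theorem PR.conjB (h : PR ℓ j i k k') (a : A) (b' : B) : ∃ b'', i b'' = j a * i b' * (j a)⁻¹ := by
  obtain ⟨u, hu⟩ := h.com a b'
  refine ⟨k' u * b', ?_⟩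
  rw [hu, map_mul, ← h.hkk]
  group

theorem PR.normB (h : PR ℓ j i k k') (y : Y) (b' : B) : ∃ b'', i b'' = y * i b' * y⁻¹ := by
  obtain ⟨a, b, rfl⟩ := h.gen y
  obtain ⟨b'', hb⟩ := h.conjB a (b * b' * b⁻¹)
  refine ⟨b'', ?_⟩
  rw [hb, map_mul, map_mul, map_inv]
  group

/-- The sum over the products. -/
theorem PR.sum (h : PR ℓ j i k k') (f : Y → ℝ) :
    ∑ a, ∑ b, f (j a * i b) = (Nat.card U : ℝ) * ∑ y, f y := by
  classical
  choose α β hαβ using h.gen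
  have h1 : Function.Bijective
      (fun x : Y × U => ((α x.1 * k x.2, (k' x.2)⁻¹ * β x.1) : A × B)) := by
    have hφ : ∀ y u, j (α y * k u) * i ((k' u)⁻¹ * β y) = y := by
      intro y u
      rw [map_mul, map_mul, map_inv, ← h.hkk]
      calc j (α y) * j (k u) * ((j (k u))⁻¹ * i (β y)) = j (α y) * i (β y) := by group
        _ = y := (hαβ y).symm
    constructor
    · rintro ⟨y, u⟩ ⟨y', u'⟩ hxy
      have h2 := congrArg (fun z : A × B => j z.1 * i z.2) hxy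
      simp only at h2
      rw [hφ, hφ] at h2
      subst h2
      have h3 := congrArg Prod.fst hxy
      simp only at h3
      have h4 := h.hk (mul_left_cancel h3)
      rw [h4]
    · rintro ⟨a, b⟩
      have h2 := hαβ (j a * i b)
      have h3 : j ((α (j a * i b))⁻¹ * a) = i (β (j a * i b) * b⁻¹) := by
        rw [map_mul, map_mul, map_inv, map_inv]
        calc (j (α (j a * i b)))⁻¹ * j a
            = (j (α (j a * i b)))⁻¹ * (j a * i b) * (i b)⁻¹ := by group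
          _ = (j (α (j a * i b)))⁻¹ * (j (α (j a * i b)) * i (β (j a * i b))) * (i b)⁻¹ := by
              rw [← h2]
          _ = i (β (j a * i b)) * (i b)⁻¹ := by group
      obtain ⟨u, hu⟩ := h.int _ _ h3
      have h4 : k' u = β (j a * i b) * b⁻¹ := by
        apply h.hi
        rw [← h.hkk, hu, h3]
      refine ⟨(j a * i b, u), ?_⟩
      simp only
      rw [hu, h4]
      refine Prod.ext ?_ ?_
      · simp
      · simp
  have h2 : ∑ a, ∑ b, f (j a * i b) = ∑ x : A × B, f (j x.1 * i x.2) :=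
    (Fintype.sum_prod_type (fun x : A × B => f (j x.1 * i x.2))).symm
  have h3 : ∑ x : A × B, f (j x.1 * i x.2) = ∑ x : Y × U, f x.1 := by
    symm
    refine Fintype.sum_bijective _ h1 _ _ fun x => ?_
    congr 1
    rw [map_mul, map_mul, map_inv, ← h.hkk]
    calc x.1 = j (α x.1) * i (β x.1) := hαβ x.1
      _ = _ := by group
  rw [h2, h3, Fintype.sum_prod_type, Finset.mul_sum]
  refine Finset.sum_congr rfl fun y _ => ?_
  simp only [Finset.sum_const, Finset.card_univ, nsmul_eq_mul, Nat.card_eq_fintype_card]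

theorem PR.card (h : PR ℓ j i k k') :
    Nat.card A * Nat.card B = Nat.card U * Nat.card Y := by
  have h1 := h.sum (fun _ => 1)
  simp only [Finset.sum_const, Finset.card_univ, nsmul_eq_mul, mul_one] at h1
  rw [Nat.card_eq_fintype_card, Nat.card_eq_fintype_card, Nat.card_eq_fintype_card]
  rw [Nat.card_eq_fintype_card] at h1
  rw [Nat.card_eq_fintype_card (α := Y)]
  exact_mod_cast h1

/-- The elements of `A` which commute with `B`. -/
def CC (j : A →* Y) (i : B →* Y) : Subgroup A :=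
  (Subgroup.centralizer (i.range : Set Y)).comap j

theorem mem_CC {a : A} : a ∈ CC j i ↔ ∀ b, i b * j a = j a * i b := by
  rw [CC, Subgroup.mem_comap, Subgroup.mem_centralizer_iff]
  constructor
  · intro h b
    exact h (i b) ⟨b, rfl⟩
  · rintro h _ ⟨b, rfl⟩
    exact h b

theorem PR.k_mem (h : PR ℓ j i k k') (u : U) : k u ∈ CC j i := by
  rw [mem_CC]
  intro b
  exact (h.cen u (i b)).symm

theorem PR.conjC (h : PR ℓ j i k k') (y : Y) (a : A) (ha : a ∈ CC j i) :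
    ∃ a' ∈ CC j i, j a' = y * j a * y⁻¹ := by
  obtain ⟨a', ha'⟩ := h.normA y a
  refine ⟨a', ?_, ha'⟩
  rw [mem_CC] at ha ⊢
  intro b
  obtain ⟨b', hb'⟩ := h.normB y⁻¹ b
  rw [inv_inv] at hb'
  have h1 := ha b'
  rw [hb'] at h1
  rw [ha']
  calc i b * (y * j a * y⁻¹) = y * (y⁻¹ * i b * y * j a) * y⁻¹ := by group
    _ = y * (j a * (y⁻¹ * i b * y)) * y⁻¹ := by rw [h1]
    _ = y * j a * y⁻¹ * i b := by group

theorem PR.normC (h : PR ℓ j i k k') : (CC j i).Normal := by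
  refine ⟨fun a ha g => ?_⟩
  obtain ⟨a', ha', he⟩ := h.conjC (j g) a ha
  have h1 : a' = g * a * g⁻¹ := by
    apply h.hj
    rw [he, map_mul, map_mul, map_inv]
  rw [← h1]
  exact ha'

/-- Elements of `A` act trivially on `C`, up to conjugation in `A`. -/
theorem PR.uniform [Fact ℓ.Prime] (h : PR ℓ j i k k') :
    ∃ N : ℕ, ∀ b, ∃ u, b ^ ℓ ^ N = k' u := by
  choose n u hu using h.pp
  refine ⟨∑ b, n b, fun b => ?_⟩
  have h1 : n b ≤ ∑ b, n b := Finset.single_le_sum (fun _ _ => Nat.zero_le _) (Finset.mem_univ b)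
  obtain ⟨m, hm⟩ := Nat.exists_eq_add_of_le h1
  refine ⟨u b ^ ℓ ^ m, ?_⟩
  rw [hm, pow_add, pow_mul, hu, map_pow]

theorem PR.index [Fact ℓ.Prime] (h : PR ℓ j i k k') :
    ∃ b : ℕ, Nat.card A = ℓ ^ b * Nat.card (CC j i) := by
  obtain ⟨N, hN⟩ := h.uniform
  have hn := h.normC
  have h1 : ∀ a : A, a ^ ℓ ^ N ∈ CC j i := by
    intro a
    rw [mem_CC]
    intro b
    obtain ⟨u, hu⟩ := h.com a b
    obtain ⟨w, hw⟩ := hN b
    have h2 : ∀ m : ℕ, j a * i b ^ m = j (k u) ^ m * i b ^ m * j a := by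
      intro m
      induction m with
      | zero => simp
      | succ m ih =>
        calc j a * i b ^ (m + 1) = (j a * i b ^ m) * i b := by rw [pow_succ]; group
          _ = j (k u) ^ m * i b ^ m * (j a * i b) := by rw [ih]; group
          _ = j (k u) ^ m * (i b ^ m * j (k u)) * (i b * j a) := by rw [hu]; group
          _ = j (k u) ^ m * (j (k u) * i b ^ m) * (i b * j a) := by rw [h.cen u]
          _ = j (k u) ^ (m + 1) * i b ^ (m + 1) * j a := by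
            rw [pow_succ, pow_succ]
            simp only [mul_assoc]
    have h3 : ∀ m : ℕ, j a ^ m * i b = j (k u) ^ m * i b * j a ^ m := by
      intro m
      induction m with
      | zero => simp
      | succ m ih =>
        calc j a ^ (m + 1) * i b = j a * (j a ^ m * i b) := by rw [pow_succ']; group
          _ = j a * (j (k u) ^ m * i b * j a ^ m) := by rw [ih]
          _ = j a * j (k u) ^ m * (i b * j a ^ m) := by group
          _ = j (k u) ^ m * j a * (i b * j a ^ m) := by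
            congr 1
            have h4 := h.cen (u ^ m) (j a)
            rw [map_pow, map_pow] at h4
            exact h4.symm
          _ = j (k u) ^ m * (j a * i b) * j a ^ m := by group
          _ = j (k u) ^ (m + 1) * i b * j a ^ (m + 1) := by
            rw [hu, pow_succ, pow_succ']
            simp only [mul_assoc]
    have h4 := h2 (ℓ ^ N)
    have h5 : i b ^ ℓ ^ N = j (k w) := by
      rw [← map_pow, hw, h.hkk]
    rw [h5] at h4
    have h6 : j (k u) ^ ℓ ^ N = 1 := by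
      have h7 : j (k u) ^ ℓ ^ N * (j (k w) * j a) = j (k w) * j a := by
        rw [← mul_assoc, ← h4]
        exact (h.cen w (j a)).symm
      exact mul_eq_right.mp h7
    have h7 := h3 (ℓ ^ N)
    rw [h6, one_mul] at h7
    rw [map_pow]
    exact h7.symm
  have h2 : IsPGroup ℓ (A ⧸ CC j i) := by
    intro x
    obtain ⟨a, rfl⟩ := QuotientGroup.mk_surjective x
    refine ⟨N, ?_⟩
    rw [← QuotientGroup.mk_pow, QuotientGroup.eq_one_iff]
    exact h1 a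
  obtain ⟨b, hb⟩ := IsPGroup.iff_card.mp h2
  refine ⟨b, ?_⟩
  rw [← hb]
  exact Subgroup.card_eq_card_quotient_mul_card_subgroup _

/-- The degree of an irreducible character of `B` is a power of `ℓ`. -/
theorem PR.deg_pow [Fact ℓ.Prime] (hE : Stmt_DEFA) (h : PR ℓ j i k k') {ν : B → ℂ}
    (hν : IsIrr ν) {n : ℕ} (hn : ν 1 = n) : n = ℓ ^ padicValNat ℓ n := by
  have hn0 : n ≠ 0 := by
    rintro rfl
    exact hν.one_ne_zero (by rw [hn, Nat.cast_zero])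
  have hZ : k'.range ≤ Subgroup.center B := by
    rintro _ ⟨u, rfl⟩
    rw [Subgroup.mem_center_iff]
    intro b
    apply h.hi
    rw [map_mul, map_mul, ← h.hkk, h.cen]
  have hZn : k'.range.Normal := by
    refine ⟨fun x hx g => ?_⟩
    have h1 : g * x * g⁻¹ = x := by
      rw [Subgroup.mem_center_iff.mp (hZ hx) g]
      group
    rw [h1]
    exact hx
  obtain ⟨N, hN⟩ := h.uniform
  have h2 : IsPGroup ℓ (B ⧸ k'.range) := by
    intro x
    obtain ⟨b, rfl⟩ := QuotientGroup.mk_surjective x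
    refine ⟨N, ?_⟩
    rw [← QuotientGroup.mk_pow, QuotientGroup.eq_one_iff]
    obtain ⟨u, hu⟩ := hN b
    exact ⟨u, hu.symm⟩
  obtain ⟨e, he⟩ := IsPGroup.iff_card.mp h2
  have hcard : Nat.card B = ℓ ^ e * Nat.card k'.range := by
    rw [← he]
    exact Subgroup.card_eq_card_quotient_mul_card_subgroup _
  have h3 : ∀ {q : ℕ}, q.Prime → q ∣ n → q = ℓ := by
    intro q hq hqn
    by_contra hne
    have hqf : Fact q.Prime := ⟨hq⟩
    obtain ⟨d, m, hm, hd⟩ := hν.exists_defect (ℓ := q)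
    have hmn : m = n := by
      have : (m : ℂ) = n := by rw [← hm, hn]
      exact_mod_cast this
    subst hmn
    have h4 := DLO.defect_ge hE q k'.range hZ hν ⟨m, hm, hd⟩
    have h5 : padicValNat q (Nat.card B) = padicValNat q (Nat.card k'.range) := by
      rw [hcard, padicValNat.mul (pow_ne_zero _ (Fact.out : ℓ.Prime).ne_zero) Nat.card_pos.ne',
        padicValNat.pow]
      have h6 : padicValNat q ℓ = 0 := by
        apply padicValNat.eq_zero_of_not_dvd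
        intro h7
        exact hne ((Nat.prime_dvd_prime_iff_eq hq Fact.out).mp h7)
      rw [h6, mul_zero, zero_add]
    have h6 : padicValNat q m = 0 := by omega
    have h7 : 1 ≤ padicValNat q m := one_le_padicValNat_of_dvd hn0 hqn
    omega
  have h4 := Nat.eq_prime_pow_of_unique_prime_dvd hn0 h3
  conv_rhs => rw [h4]
  rw [padicValNat.prime_pow]
  exact h4

end Groups

section Core

variable {A B U Y : Type} [Group A] [Fintype A] [Group B] [Fintype B] [Group U] [Fintype U]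
  [Group Y] [Fintype Y]
variable {ℓ : ℕ} {j : A →* Y} {i : B →* Y} {k : U →* A} {k' : U →* B}

/-- The restrictions to `C` of `ψ` and of a constituent of its restriction to `A` are
proportional. -/
theorem PR.prop (h : PR ℓ j i k k') {ψ : Y → ℂ} {θ : A → ℂ} (hψ : IsIrr ψ) (hθ : IsIrr θ)
    (h2 : ip (resj j ψ) θ ≠ 0) (x : A) (hx : x ∈ CC j i) :
    ψ (j x) * θ 1 = ψ 1 * θ x := by
  classical
  obtain ⟨K, _, c, p, hc⟩ := exists_clg j h.hj h.normA
  have hY : (Nat.card Y : ℂ) ≠ 0 := natCard_ne_zero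
  have h1 := cl1 hc hψ hθ h2 (fun a => ∑ y : Y, if c y a = x then 1 else 0) (by
    intro y' a
    refine Fintype.sum_equiv (Equiv.mulRight y') _ _ fun y => ?_
    rw [Equiv.coe_mulRight, map_mul, MulAut.mul_apply])
  have h3 : ∀ G : A → ℂ, ∑ a, (∑ y : Y, if c y a = x then (1 : ℂ) else 0) * G a =
      ∑ y : Y, G (c y⁻¹ x) := by
    intro G
    simp only [Finset.sum_mul]
    rw [Finset.sum_comm]
    refine Finset.sum_congr rfl fun y _ => ?_
    have h4 : ∀ a, (if c y a = x then (1 : ℂ) else 0) * G a =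
        if a = c y⁻¹ x then G a else 0 := by
      intro a
      have h5 : c y a = x ↔ a = c y⁻¹ x := by
        rw [map_inv, MulAut.inv_def, MulEquiv.eq_symm_apply]
      simp only [h5]
      split_ifs
      · rw [one_mul]
      · rw [zero_mul]
    rw [Finset.sum_congr rfl fun a _ => h4 a, Finset.sum_ite_eq' Finset.univ]
    simp
  have h4 : ∀ y : Y, ψ (j (c y⁻¹ x)) = ψ (j x) := by
    intro y
    rw [hc.act, hψ.conj_eq]
  have h5 : ∀ y : Y, θ (c y⁻¹ x) = θ x := by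
    intro y
    obtain ⟨a, b, hy⟩ := h.gen y⁻¹
    have h6 : c y⁻¹ x = a * x * a⁻¹ := by
      apply h.hj
      rw [hc.act, hy, map_mul, map_mul, map_inv]
      have h7 := (mem_CC.mp hx) b
      calc j a * i b * j x * (j a * i b)⁻¹ = j a * (i b * j x) * (i b)⁻¹ * (j a)⁻¹ := by group
        _ = j a * (j x * i b) * (i b)⁻¹ * (j a)⁻¹ := by rw [h7]
        _ = j a * j x * (j a)⁻¹ := by group
    rw [h6, hθ.conj_eq]
  have h6 : ∑ a, (∑ y : Y, if c y a = x then (1 : ℂ) else 0) * ψ (j a) =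
      (Nat.card Y : ℂ) * ψ (j x) := by
    rw [h3 (fun a => ψ (j a)), Finset.sum_congr rfl fun y _ => h4 y, Finset.sum_const,
      Finset.card_univ, nsmul_eq_mul, Nat.card_eq_fintype_card]
  have h7 : ∑ a, (∑ y : Y, if c y a = x then (1 : ℂ) else 0) * θ a =
      (Nat.card Y : ℂ) * θ x := by
    rw [h3 θ, Finset.sum_congr rfl fun y _ => h5 y, Finset.sum_const,
      Finset.card_univ, nsmul_eq_mul, Nat.card_eq_fintype_card]
  rw [h6, h7] at h1
  apply mul_left_cancel₀ hY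
  rw [← mul_assoc, h1]
  ring

theorem core [Fact ℓ.Prime] (hE : Stmt_DEFA) (h : PR ℓ j i k k') {ν : B → ℂ} {ψ : Y → ℂ}
    {θ : A → ℂ} (hν : IsIrr ν) (hψ : IsIrr ψ) (hθ : IsIrr θ)
    (hinv : ∀ a b b', i b' = j a * i b * (j a)⁻¹ → ν b' = ν b) {a : ℕ}
    (hνa : HasDefect ℓ ν a) (hψa : HasDefect ℓ ψ a) (h1 : ip (resj i ψ) ν ≠ 0)
    (h2 : ip (resj j ψ) θ ≠ 0) : HasDefect ℓ θ (padicValNat ℓ (Nat.card U)) := by
  classical
  have hℓ : ℓ.Prime := Fact.out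
  obtain ⟨C, hC⟩ : ∃ C : Subgroup A, C = CC j i := ⟨_, rfl⟩
  obtain ⟨kC, hkC⟩ : ∃ kC : C →* Y, kC = j.comp C.subtype := ⟨_, rfl⟩
  have hkCi : Function.Injective kC := by
    rw [hkC]
    exact h.hj.comp C.subtype_injective
  obtain ⟨KC, _, cC, pC, hcC⟩ := exists_clg kC hkCi (by
    intro y c
    have hcm : (c : A) ∈ CC j i := by
      rw [← hC]
      exact c.2
    obtain ⟨a', ha', he⟩ := h.conjC y c hcm
    refine ⟨⟨a', ?_⟩, ?_⟩
    · rw [hC]
      exact ha'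
    · rw [hkC]
      exact he)
  obtain ⟨KB, _, cB, pB, hcB⟩ := exists_clg i h.hi h.normB
  have hinvB : ∀ y b, ν (cB y b) = ν b := by
    intro y b
    obtain ⟨a', b', rfl⟩ := h.gen y
    have h3 := hinv a' (b' * b * b'⁻¹) (cB (j a' * i b') b) (by
      rw [hcB.act, map_mul, map_mul, map_inv]
      group)
    rw [h3, hν.conj_eq]
  -- a constituent on `C`
  obtain ⟨θ₀, hθ₀, h0⟩ : ∃ θ₀ : C → ℂ, IsIrr θ₀ ∧ ip (resj kC ψ) θ₀ ≠ 0 := by
    by_contra hno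
    push Not at hno
    have h3 := congrFun (class_fn_expand (resj kC ψ) (fun g x => resj_class hψ g x)) 1
    rw [Finset.sum_eq_zero (fun χ hχ => by rw [hno χ (mem_irrF.mp hχ), zero_mul])] at h3
    apply hψ.one_ne_zero
    rw [← h3]
    change ψ 1 = ψ (kC 1)
    rw [map_one]
  obtain ⟨n, hn, hvn⟩ := hνa
  obtain ⟨m, hm, hvm⟩ := hψa
  obtain ⟨d0, t0, ht0, hd0⟩ := hθ₀.exists_defect (ℓ := ℓ)
  obtain ⟨q, hq0, hq⟩ := hθ.exists_degree
  obtain ⟨e, he⟩ := (hψ.resj kC).exists_ip hθ₀.isChr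
  obtain ⟨b, hb⟩ := h.index
  rw [← hC] at hb
  have he0 : e ≠ 0 := by
    rintro rfl
    exact h0 (by rw [he, Nat.cast_zero])
  have ht00 : t0 ≠ 0 := by
    rintro rfl
    exact hθ₀.one_ne_zero (by rw [ht0, Nat.cast_zero])
  have hm0 : m ≠ 0 := by
    rintro rfl
    exact hψ.one_ne_zero (by rw [hm, Nat.cast_zero])
  have hn0 : n ≠ 0 := by
    rintro rfl
    exact hν.one_ne_zero (by rw [hn, Nat.cast_zero])
  obtain ⟨t, ht⟩ : ∃ t, t = (inert cC θ₀).index := ⟨_, rfl⟩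
  have hTt : Nat.card (inert cC θ₀) * t = Nat.card Y := by
    rw [ht]
    exact Subgroup.card_mul_index _
  have htz : t ≠ 0 := by
    rw [ht]
    exact Subgroup.index_ne_zero_of_finite
  have hmt : m = t * e * t0 := by
    have h3 := cl2 hcC hψ hθ₀ h0
    rw [he, ht0, hm, ← hTt] at h3
    have h4 : Nat.card (inert cC θ₀) * t * e * t0 = Nat.card (inert cC θ₀) * m := by
      exact_mod_cast h3
    apply Nat.eq_of_mul_eq_mul_left (Nat.card_pos (α := inert cC θ₀))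
    rw [← h4]
    ring
  obtain ⟨S, hS⟩ : ∃ S : ℝ, S = ∑ c : C, ‖ψ (kC c)‖ ^ 2 := ⟨_, rfl⟩
  have hSe : S = (Nat.card C : ℝ) * e ^ 2 * t := by
    have h3 := cl3 hcC hψ hθ₀ h0
    have h4 : (Nat.card C : ℂ) * ip (resj kC ψ) (resj kC ψ) = ((S : ℝ) : ℂ) := by
      rw [hS]
      exact ip_norm (hψ.resj kC)
    rw [he, ht0, hm] at h3
    have h5 : ((S : ℝ) : ℂ) * t0 = (Nat.card C : ℂ) * (e * m) := by
      rw [← h4, ← h3]
      ring
    have h6 : S * (t0 : ℝ) = (Nat.card C : ℝ) * (e * m) := by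
      exact_mod_cast h5
    have h7 : (t0 : ℝ) ≠ 0 := by exact_mod_cast ht00
    apply mul_right_cancel₀ h7
    rw [h6, hmt]
    push_cast
    ring
  have hSle : S ≤ (n : ℝ) ^ 2 * Nat.card A := by
    have hB : 0 < (Nat.card B : ℝ) := by exact_mod_cast Nat.card_pos
    have h3 : (Nat.card B : ℝ) * S ≤ (n : ℝ) ^ 2 * ∑ c : C, ∑ b, ‖ψ (kC c * i b)‖ ^ 2 := by
      rw [hS, Finset.mul_sum, Finset.mul_sum]
      exact Finset.sum_le_sum fun c _ => cauchy hcB hψ hν h1 hinvB hn (kC c)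
    have h4 : ∑ c : C, ∑ b, ‖ψ (kC c * i b)‖ ^ 2 ≤ ∑ a, ∑ b, ‖ψ (j a * i b)‖ ^ 2 := by
      have h5 : ∑ c : C, ∑ b, ‖ψ (kC c * i b)‖ ^ 2 =
          ∑ a ∈ Finset.univ.image (fun c : C => (c : A)), ∑ b, ‖ψ (j a * i b)‖ ^ 2 := by
        rw [Finset.sum_image fun a _ b _ hab => Subtype.ext hab, hkC]
        rfl
      rw [h5]
      exact Finset.sum_le_sum_of_subset_of_nonneg (Finset.subset_univ _)
        fun a _ _ => Finset.sum_nonneg fun b _ => sq_nonneg _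
    have h5 := h.sum (fun y => ‖ψ y‖ ^ 2)
    rw [irr_norm hψ] at h5
    have h6 : ((Nat.card A : ℝ) * Nat.card B) = (Nat.card U : ℝ) * Nat.card Y := by
      exact_mod_cast h.card
    rw [← h6] at h5
    rw [h5] at h4
    have h7 : (Nat.card B : ℝ) * S ≤ (Nat.card B : ℝ) * ((n : ℝ) ^ 2 * Nat.card A) := by
      calc (Nat.card B : ℝ) * S ≤ (n : ℝ) ^ 2 * ((Nat.card A : ℝ) * Nat.card B) :=
            h3.trans (mul_le_mul_of_nonneg_left h4 (sq_nonneg _))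
        _ = _ := by ring
    exact le_of_mul_le_mul_left h7 hB
  have hCpos : 0 < (Nat.card C : ℝ) := by exact_mod_cast Nat.card_pos
  have hAr : (Nat.card A : ℝ) = (ℓ : ℝ) ^ b * Nat.card C := by exact_mod_cast hb
  have hle1 : e ^ 2 * t ≤ n ^ 2 * ℓ ^ b := by
    rw [hSe, hAr] at hSle
    have h3 : (Nat.card C : ℝ) * ((e : ℝ) ^ 2 * t) ≤ (Nat.card C : ℝ) * ((n : ℝ) ^ 2 * ℓ ^ b) := by
      calc _ = (Nat.card C : ℝ) * e ^ 2 * t := by ring
        _ ≤ _ := hSle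
        _ = _ := by ring
    exact_mod_cast le_of_mul_le_mul_left h3 hCpos
  -- the constituent `θ`
  have hprop : ∀ c : C, ψ (kC c) * q = m * θ c := by
    intro c
    have h3 := h.prop hψ hθ h2 c (by
      rw [← hC]
      exact c.2)
    rw [hq, hm] at h3
    rw [hkC]
    exact h3
  obtain ⟨r, hr⟩ := (hθ.resj C.subtype).exists_ip hθ₀.isChr
  have hrm : r * m = q * e := by
    have h3 : (m : ℂ) * ip (resj C.subtype θ) θ₀ = q * ip (resj kC ψ) θ₀ := by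
      unfold ip
      rw [← mul_div_assoc, ← mul_div_assoc, Finset.mul_sum, Finset.mul_sum]
      congr 1
      refine Finset.sum_congr rfl fun c _ => ?_
      have h4 := hprop c
      change (m : ℂ) * (θ c * θ₀ c⁻¹) = q * (ψ (kC c) * θ₀ c⁻¹)
      rw [← mul_assoc, ← h4]
      ring
    rw [hr, he] at h3
    have h4 : m * r = q * e := by exact_mod_cast h3
    rw [← h4, mul_comm]
  have hr0 : r ≠ 0 := by
    rintro rfl
    rw [zero_mul] at hrm
    rcases Nat.mul_eq_zero.mp hrm.symm with h3 | h3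
    · exact hq0.ne' h3
    · exact he0 h3
  have hle2 : r ^ 2 * t ≤ ℓ ^ b := by
    have h3 := res_norm C.subtype C.subtype_injective hθ
    have h4 : (m : ℝ) ^ 2 * ∑ c : C, ‖θ (C.subtype c)‖ ^ 2 = (q : ℝ) ^ 2 * S := by
      rw [hS, Finset.mul_sum, Finset.mul_sum]
      refine Finset.sum_congr rfl fun c _ => ?_
      have h5 := congrArg (fun z : ℂ => ‖z‖) (hprop c)
      simp only [norm_mul, Complex.norm_natCast] at h5
      change (m : ℝ) ^ 2 * ‖θ c‖ ^ 2 = _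
      rw [← mul_pow, ← h5]
      ring
    have h5 : (q : ℝ) * e = r * m := by exact_mod_cast hrm.symm
    have h6 : (m : ℝ) ^ 2 * ∑ c : C, ‖θ (C.subtype c)‖ ^ 2 =
        (m : ℝ) ^ 2 * ((Nat.card C : ℝ) * (r ^ 2 * t)) := by
      rw [h4, hSe]
      calc (q : ℝ) ^ 2 * ((Nat.card C : ℝ) * e ^ 2 * t)
          = ((q : ℝ) * e) ^ 2 * ((Nat.card C : ℝ) * t) := by ring
        _ = ((r : ℝ) * m) ^ 2 * ((Nat.card C : ℝ) * t) := by rw [h5]
        _ = _ := by ring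
    have h7 : ((m : ℝ) ^ 2) ≠ 0 := by
      have : (m : ℝ) ≠ 0 := by exact_mod_cast hm0
      exact pow_ne_zero _ this
    have h8 := mul_left_cancel₀ h7 h6
    rw [h8, hAr] at h3
    have h9 : (Nat.card C : ℝ) * ((r : ℝ) ^ 2 * t) ≤ (Nat.card C : ℝ) * (ℓ : ℝ) ^ b := by
      calc _ ≤ _ := h3
        _ = _ := by ring
    exact_mod_cast le_of_mul_le_mul_left h9 hCpos
  -- valuations
  have hU0 : Nat.card U ≠ 0 := Nat.card_pos.ne'
  have hv1 : padicValNat ℓ (Nat.card A) + padicValNat ℓ (Nat.card B) =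
      padicValNat ℓ (Nat.card U) + padicValNat ℓ (Nat.card Y) := by
    rw [← padicValNat.mul Nat.card_pos.ne' Nat.card_pos.ne', h.card,
      padicValNat.mul Nat.card_pos.ne' Nat.card_pos.ne']
  have hv2 : padicValNat ℓ (Nat.card A) = b + padicValNat ℓ (Nat.card C) := by
    rw [hb, padicValNat.mul (pow_ne_zero _ hℓ.ne_zero) Nat.card_pos.ne', padicValNat.prime_pow]
  have hv3 : padicValNat ℓ m = padicValNat ℓ t + padicValNat ℓ e + padicValNat ℓ t0 := by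
    rw [hmt, padicValNat.mul (mul_ne_zero htz he0) ht00, padicValNat.mul htz he0]
  have hv4 : padicValNat ℓ (Nat.card U) ≤ d0 := by
    have hkm : ∀ u, k u ∈ C := by
      intro u
      rw [hC]
      exact h.k_mem u
    let κ : U →* C := k.codRestrict C hkm
    have hκ : Function.Injective κ := by
      intro u v huv
      exact h.hk (congrArg Subtype.val huv)
    have hZ : κ.range ≤ Subgroup.center C := by
      rintro _ ⟨u, rfl⟩
      rw [Subgroup.mem_center_iff]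
      intro g
      apply Subtype.ext
      apply h.hj
      change j ((g : A) * k u) = j (k u * (g : A))
      rw [map_mul, map_mul, h.cen]
    have h3 := DLO.defect_ge hE ℓ κ.range hZ hθ₀ ⟨t0, ht0, hd0⟩
    have h4 : Nat.card κ.range = Nat.card U :=
      (Nat.card_congr (MonoidHom.ofInjective hκ).toEquiv).symm
    rw [h4] at h3
    exact h3
  have hnp := h.deg_pow hE hν hn
  have hpos : 1 < ℓ := hℓ.one_lt
  have hte : ℓ ^ padicValNat ℓ t ≤ t := Nat.le_of_dvd (Nat.pos_of_ne_zero htz) pow_padicValNat_dvd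
  have hee : ℓ ^ padicValNat ℓ e ≤ e := Nat.le_of_dvd (Nat.pos_of_ne_zero he0) pow_padicValNat_dvd
  have hv5 : 2 * padicValNat ℓ e + padicValNat ℓ t ≤ 2 * padicValNat ℓ n + b := by
    rw [← Nat.pow_le_pow_iff_right hpos]
    calc ℓ ^ (2 * padicValNat ℓ e + padicValNat ℓ t)
        = (ℓ ^ padicValNat ℓ e) ^ 2 * ℓ ^ padicValNat ℓ t := by ring
      _ ≤ e ^ 2 * t := Nat.mul_le_mul (Nat.pow_le_pow_left hee 2) hte
      _ ≤ n ^ 2 * ℓ ^ b := hle1
      _ = (ℓ ^ padicValNat ℓ n) ^ 2 * ℓ ^ b := by rw [← hnp]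
      _ = _ := by ring
  have hvt : b ≤ padicValNat ℓ t := by omega
  have htb : ℓ ^ b ≤ t := (Nat.pow_le_pow_right hℓ.pos hvt).trans hte
  have hr1 : r = 1 := by
    by_contra hne
    have h3 : 2 ≤ r := by omega
    have h4 : 4 * t ≤ r ^ 2 * t := Nat.mul_le_mul_right t (by nlinarith)
    omega
  have htb' : t = ℓ ^ b := by
    rw [hr1, one_pow, one_mul] at hle2
    exact le_antisymm hle2 htb
  have hvt' : padicValNat ℓ t = b := by
    rw [htb', padicValNat.prime_pow]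
  have hve : padicValNat ℓ e ≤ padicValNat ℓ n := by omega
  have hvq : padicValNat ℓ m = padicValNat ℓ q + padicValNat ℓ e := by
    rw [hr1, one_mul] at hrm
    rw [hrm, padicValNat.mul hq0.ne' he0]
  refine ⟨q, hq, ?_⟩
  omega

end Core

end DEFM

theorem DEFM_thm (h1 : Stmt_DEFA) : Stmt_DEFM := by
  intro L _ _ ℓ _ U M Q hUc hUM hUQ hMQ hcom hpow ν ψ θ hMν a hν hψ hψν hθ hψθ
  classical
  have hQn : ∀ m ∈ M, ∀ x ∈ Q, m * x * m⁻¹ ∈ Q := by
    intro m hm x hx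
    have h2 : m * x * m⁻¹ = (m * x * m⁻¹ * x⁻¹) * x := by group
    rw [h2]
    exact Q.mul_mem (hUQ (hcom m hm x hx)) hx
  have hcenU : ∀ u ∈ U, ∀ y : L, u * y = y * u := fun u hu y =>
    (Subgroup.mem_center_iff.mp (hUc hu) y).symm
  -- the products
  have hgen : ∀ y ∈ M ⊔ Q, ∃ m ∈ M, ∃ x ∈ Q, y = m * x := by
    intro y hy
    rw [Subgroup.sup_eq_closure] at hy
    induction hy using Subgroup.closure_induction with
    | mem x hx =>
      rcases hx with hx | hx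
      · exact ⟨x, hx, 1, Q.one_mem, (mul_one x).symm⟩
      · exact ⟨1, M.one_mem, x, hx, (one_mul x).symm⟩
    | one => exact ⟨1, M.one_mem, 1, Q.one_mem, (one_mul 1).symm⟩
    | mul x y _ _ hx hy =>
      obtain ⟨m, hm, z, hz, rfl⟩ := hx
      obtain ⟨m', hm', z', hz', rfl⟩ := hy
      refine ⟨m * m', M.mul_mem hm hm', m'⁻¹ * z * m' * z', Q.mul_mem ?_ hz', by group⟩
      have := hQn m'⁻¹ (M.inv_mem hm') z hz
      rwa [inv_inv] at this
    | inv x _ hx =>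
      obtain ⟨m, hm, z, hz, rfl⟩ := hx
      refine ⟨m⁻¹, M.inv_mem hm, m * z⁻¹ * m⁻¹, hQn m hm _ (Q.inv_mem hz), by group⟩
  have hP : DEFM.PR ℓ (Subgroup.inclusion (le_sup_left : M ≤ M ⊔ Q))
      (Subgroup.inclusion (le_sup_right : Q ≤ M ⊔ Q)) (Subgroup.inclusion hUM)
      (Subgroup.inclusion hUQ) := by
    refine ⟨Subgroup.inclusion_injective _, Subgroup.inclusion_injective _,
      Subgroup.inclusion_injective _, fun u => rfl, ?_, ?_, ?_, ?_, ?_⟩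
    · intro x y hxy
      have h2 : (x : L) = y := congrArg Subtype.val hxy
      have h3 : (x : L) ∈ U := hMQ x x.2 (by
        rw [h2]
        exact y.2)
      exact ⟨⟨x, h3⟩, rfl⟩
    · rintro ⟨y, hy⟩
      obtain ⟨m, hm, x, hx, rfl⟩ := hgen y hy
      exact ⟨⟨m, hm⟩, ⟨x, hx⟩, rfl⟩
    · rintro u y
      apply Subtype.ext
      exact hcenU u u.2 y
    · intro m x
      refine ⟨⟨_, hcom m m.2 x x.2⟩, ?_⟩
      apply Subtype.ext
      change (m : L) * x = (m * x * (m : L)⁻¹ * (x : L)⁻¹) * x * m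
      group
    · intro x
      obtain ⟨n, hn⟩ := hpow x x.2
      refine ⟨n, ⟨_, hn⟩, ?_⟩
      apply Subtype.ext
      rfl
  refine ⟨hθ, ?_⟩
  refine DEFM.core h1 hP hν.1.1 hψ.1.1 hθ.1 ?_ hν.2 hψ.2 hψν hψθ
  intro m x x' hx
  have h2 : (x' : L) = m * x * (m : L)⁻¹ := congrArg Subtype.val hx
  have h3 := hMν m.2 (x : L)
  change ν (x' : L) = ν (x : L)
  rw [h2]
  exact h3

end Pool.Agent.DPT


end

section

/-!
BETV: twists of the central functions; the class is determined by one member; truncation.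
-/

namespace Pool.Agent.DPV

open Pool.Agent.DP Pool.Agent.Lib_helper13 Representation
open Pool.Agent.Lib_helper13.Dade (pCore DadeHolds dadeSum)

namespace BETV

section

variable {G B C : Type} [Group G] [Group B] [Group C]

theorem linOn_pow {L : Subgroup C} {lam : C → ℂ} (h : LinOn L lam) {c : C} (hc : c ∈ L) (n : ℕ) :
    lam (c ^ n) = lam c ^ n := by
  induction n with
  | zero => rw [pow_zero, pow_zero, h.1]
  | succ n ih => rw [pow_succ, pow_succ, h.2 _ (L.pow_mem hc n) _ hc, ih]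

theorem linOn_integral [Finite C] {L : Subgroup C} {lam : C → ℂ} (h : LinOn L lam) {c : C}
    (hc : c ∈ L) : IsIntegral ℤ (lam c) := by
  have h1 : lam c ^ Nat.card C = 1 := by
    rw [← linOn_pow h hc, pow_card_eq_one', h.1]
  refine IsIntegral.of_pow (n := Nat.card C) Nat.card_pos ?_
  rw [h1]
  exact isIntegral_one

theorem rho_conj {ι : G →* B} {κ : B →* MulAut G} {ρ : B →* C} (h : ClG ι κ ρ) {t g x : B}
    (ht : t ∈ ι.range) (hx : x = t * g * t⁻¹) : ρ x = ρ g := by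
  have h1 : ρ t = 1 := (h.ker t).mpr ht
  rw [hx, map_mul, map_mul, map_inv, h1, inv_one, mul_one, one_mul]

theorem cjT_integral (T : Subgroup B) (x g : B) : IsIntegral ℤ (cjT T x g) := by
  unfold cjT
  split_ifs
  · exact isIntegral_one
  · exact isIntegral_zero

theorem cjT_conj {T : Subgroup B} {u : B} (hu : u ∈ T) (x g : B) :
    cjT T (u * x * u⁻¹) g = cjT T x g := by
  have h1 : (∃ t ∈ T, u * x * u⁻¹ = t * g * t⁻¹) ↔ ∃ t ∈ T, x = t * g * t⁻¹ := by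
    constructor
    · rintro ⟨t, ht, h⟩
      refine ⟨u⁻¹ * t, T.mul_mem (T.inv_mem hu) ht, ?_⟩
      have h2 : x = u⁻¹ * (u * x * u⁻¹) * u := by group
      rw [h2, h]
      group
    · rintro ⟨t, ht, h⟩
      refine ⟨u * t, T.mul_mem hu ht, ?_⟩
      rw [h]
      group
  unfold cjT
  by_cases h : ∃ t ∈ T, x = t * g * t⁻¹
  · rw [if_pos h, if_pos (h1.mpr h)]
  · rw [if_neg h, if_neg (fun h' => h (h1.mp h'))]

/-- Two functions which agree on the fibre of `ρ` over `ρ x` have the same class sums at `x`. -/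
theorem sum_congr_fibre [Fintype B] {ι : G →* B} {κ : B →* MulAut G} {ρ : B →* C}
    (h : ClG ι κ ρ) (x : B) (a b : B → ℂ) (hab : ∀ y, ρ y = ρ x → a y = b y) :
    ∑ y, cjT ι.range y x * a y = ∑ y, cjT ι.range y x * b y := by
  refine Finset.sum_congr rfl fun y _ => ?_
  by_cases hy : ∃ t ∈ ι.range, y = t * x * t⁻¹
  · obtain ⟨t, ht, hty⟩ := hy
    rw [hab y (rho_conj h ht hty)]
  · have h2 : cjT ι.range y x = 0 := by
      unfold cjT
      rw [if_neg hy]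
    rw [h2, zero_mul, zero_mul]

theorem sum_zero_fibre [Fintype B] {ι : G →* B} {κ : B →* MulAut G} {ρ : B →* C}
    (h : ClG ι κ ρ) (x : B) (a : B → ℂ) (ha : ∀ y, ρ y = ρ x → a y = 0) :
    ∑ y, cjT ι.range y x * a y = 0 := by
  rw [sum_congr_fibre h x a (fun _ => 0) ha]
  simp

theorem twist [Fintype G] [Fintype B] [Finite C] (𝔐 : Ideal (integralClosure ℤ ℂ))
    (hI : Stmt_INTH) {ι : G →* B} {κ : B →* MulAut G} {ρ : B →* C} (h : ClG ι κ ρ)
    (S : Subgroup B) (f : B → ℂ) (hf : IrrOn S f)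
    (hf' : IrrOn (S.comap ι) (fun h => f (ι h))) (lam : C → ℂ) (hlam : LinOn (S.map ρ) lam)
    (x : B) :
    cgT 𝔐 ι.range (fun y => f y * lam (ρ y)) x = red 𝔐 (lam (ρ x)) * cgT 𝔐 ι.range f x := by
  by_cases hx : ρ x ∈ S.map ρ
  · have h1 : ∑ y, cjT ι.range y x * (f y * lam (ρ y)) =
        lam (ρ x) * ∑ y, cjT ι.range y x * f y := by
      rw [sum_congr_fibre h x (fun y => f y * lam (ρ y)) (fun y => f y * lam (ρ x))
        (fun y hy => by rw [hy]), Finset.mul_sum]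
      refine Finset.sum_congr rfl fun y _ => ?_
      ring
    have h2 : IsIntegral ℤ ((∑ y, cjT ι.range y x * f y) / f 1) :=
      hI G B C ι κ ρ h S f hf hf' (fun y => cjT ι.range y x) (fun y => cjT_integral _ y x)
        (fun g y => cjT_conj (MonoidHom.mem_range.mpr ⟨g, rfl⟩) y x)
    show red 𝔐 ((∑ y, cjT ι.range y x * (f y * lam (ρ y))) / (f 1 * lam (ρ 1))) =
        red 𝔐 (lam (ρ x)) * red 𝔐 ((∑ y, cjT ι.range y x * f y) / f 1)
    rw [h1, map_one, hlam.1, mul_one, mul_div_assoc, red_mul 𝔐 (linOn_integral hlam hx) h2]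
  · have h0 : ∀ y, ρ y = ρ x → f y = 0 := by
      intro y hy
      refine hf.2 y fun hyS => hx ?_
      rw [← hy]
      exact Subgroup.mem_map_of_mem ρ hyS
    have h1 : ∑ y, cjT ι.range y x * f y = 0 := sum_zero_fibre h x f h0
    have h2 : ∑ y, cjT ι.range y x * (f y * lam (ρ y)) = 0 :=
      sum_zero_fibre h x (fun y => f y * lam (ρ y)) (fun y hy => by rw [h0 y hy, zero_mul])
    show red 𝔐 ((∑ y, cjT ι.range y x * (f y * lam (ρ y))) / (f 1 * lam (ρ 1))) =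
        red 𝔐 (lam (ρ x)) * red 𝔐 ((∑ y, cjT ι.range y x * f y) / f 1)
    rw [h1, h2, zero_div, zero_div, red_zero, mul_zero]

theorem cgT_trn [Fintype B] (𝔐 : Ideal (integralClosure ℤ ℂ))
    {ι : G →* B} {κ : B →* MulAut G} {ρ : B →* C} (h : ClG ι κ ρ) (L : Subgroup C) (f : B → ℂ) :
    cgT 𝔐 ι.range (trn ρ L f) = trn ρ L (cgT 𝔐 ι.range f) := by
  funext x
  have h1 : trn ρ L f 1 = f 1 := by
    unfold trn
    rw [if_pos (by rw [map_one]; exact L.one_mem)]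
  show red 𝔐 ((∑ y, cjT ι.range y x * trn ρ L f y) / trn ρ L f 1) = trn ρ L (cgT 𝔐 ι.range f) x
  rw [h1]
  by_cases hx : ρ x ∈ L
  · rw [sum_congr_fibre h x (trn ρ L f) f]
    · unfold trn
      rw [if_pos hx]
      rfl
    · intro y hy
      unfold trn
      rw [if_pos (by rw [hy]; exact hx)]
  · rw [sum_zero_fibre h x (trn ρ L f), zero_div, red_zero]
    · unfold trn
      rw [if_neg hx]
    · intro y hy
      unfold trn
      rw [if_neg (by rw [hy]; exact hx)]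

/-- The twist of an extension, for a linear character of the image of the stabilizer. -/
theorem twist_ext [Fintype G] [Fintype B] [Finite C] (𝔐 : Ideal (integralClosure ℤ ℂ))
    (hI : Stmt_INTH) (hE : Stmt_EXTV) {ι : G →* B} {κ : B →* MulAut G}
    {ρ : B →* C} (h : LocV ι κ ρ) (σ : Finset (Subgroup G)) (ψ : G → ℂ)
    (hψ : IrrOn (stb σ) ψ) (L : Subgroup C) (f : B → ℂ)
    (hf : ExtL ι κ ρ σ ψ L f) (lam : C → ℂ) (hlam : LinOn (KL κ ρ σ ψ L) lam) :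
    cgT 𝔐 ι.range (fun y => f y * lam (ρ y)) =
      fun x => red 𝔐 (lam (ρ x)) * cgT 𝔐 ι.range f x := by
  have e1 := hE G B C ι κ ρ h σ ψ hψ L
  have r1 : IrrOn ((Stx κ σ ψ ⊓ L.comap ρ).comap ι) (fun g => f (ι g)) := by
    rw [e1.1, funext hf.2]
    exact hψ
  funext x
  refine twist 𝔐 hI h.cl _ f hf.1 r1 lam ?_ x
  rw [e1.2.1]
  exact hlam

theorem KL_eq {κ : B →* MulAut G} {ρ : B →* C} {σ : Finset (Subgroup G)} {ψ : G → ℂ}
    {L : Subgroup C} (hL : L ≤ (Stx κ σ ψ).map ρ) : KL κ ρ σ ψ L = L :=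
  inf_eq_right.mpr hL

theorem sub_bet [Fintype G] [Fintype B] [Finite C] (𝔐 : Ideal (integralClosure ℤ ℂ))
    (hI : Stmt_INTH) (hE : Stmt_EXTV) {ι : G →* B} {κ : B →* MulAut G}
    {ρ : B →* C} (h : LocV ι κ ρ) (σ σ' : Finset (Subgroup G)) (ψ ψ' : G → ℂ)
    (hψ : IrrOn (stb σ) ψ) (hψ' : IrrOn (stb σ') ψ') (L : Subgroup C)
    (hL : L ≤ (Stx κ σ ψ).map ρ) (hL' : L ≤ (Stx κ σ' ψ').map ρ) (f f' : B → ℂ)
    (hf : ExtL ι κ ρ σ ψ L f) (hf' : ExtL ι κ ρ σ' ψ' L f')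
    (he : cgT 𝔐 ι.range f = cgT 𝔐 ι.range f') :
    bet 𝔐 ι κ ρ σ ψ L ⊆ bet 𝔐 ι κ ρ σ' ψ' L := by
  rintro b ⟨f1, hf1, rfl⟩
  have e1 := hE G B C ι κ ρ h σ ψ hψ L
  have e2 := hE G B C ι κ ρ h σ' ψ' hψ' L
  obtain ⟨lam, hlam, rfl⟩ := e1.2.2.2.2.1 f f1 hf hf1
  have hlam' : LinOn (KL κ ρ σ' ψ' L) lam := by
    rw [KL_eq hL']
    rw [KL_eq hL] at hlam
    exact hlam
  refine ⟨_, e2.2.2.2.1 f' lam hlam' hf', ?_⟩
  rw [twist_ext 𝔐 hI hE h σ ψ hψ L f hf lam hlam,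
    twist_ext 𝔐 hI hE h σ' ψ' hψ' L f' hf' lam hlam', he]

theorem bet_trn [Fintype G] [Fintype B] [Finite C] (𝔐 : Ideal (integralClosure ℤ ℂ))
    (hI : Stmt_INTH) (hE : Stmt_EXTV) {ι : G →* B} {κ : B →* MulAut G}
    {ρ : B →* C} (h : LocV ι κ ρ) (σ : Finset (Subgroup G)) (ψ : G → ℂ)
    (hψ : IrrOn (stb σ) ψ) (L' L : Subgroup C) (hLL : L' ≤ L)
    (hL : L ≤ (Stx κ σ ψ).map ρ) :
    bet 𝔐 ι κ ρ σ ψ L' = trL 𝔐 ρ L' (bet 𝔐 ι κ ρ σ ψ L) := by
  have e := hE G B C ι κ ρ h σ ψ hψ L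
  have e' := hE G B C ι κ ρ h σ ψ hψ L'
  have hK : KL κ ρ σ ψ L' = L' := KL_eq (hLL.trans hL)
  apply Set.Subset.antisymm
  · rintro b ⟨f', hf', rfl⟩
    obtain ⟨f, hf⟩ := e.2.2.1
    have ht : ExtL ι κ ρ σ ψ L' (trn ρ L' f) := e.2.2.2.2.2 L' hLL f hf
    obtain ⟨lam, hlam, rfl⟩ := e'.2.2.2.2.1 (trn ρ L' f) f' ht hf'
    refine ⟨cgT 𝔐 ι.range f, ⟨f, hf, rfl⟩, lam, ?_, ?_⟩
    · rw [hK] at hlam
      exact hlam
    · rw [twist_ext 𝔐 hI hE h σ ψ hψ L' (trn ρ L' f) ht lam hlam, cgT_trn 𝔐 h.cl]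
  · rintro b ⟨b0, ⟨f, hf, rfl⟩, lam, hlam, rfl⟩
    have ht : ExtL ι κ ρ σ ψ L' (trn ρ L' f) := e.2.2.2.2.2 L' hLL f hf
    have hlam' : LinOn (KL κ ρ σ ψ L') lam := by
      rw [hK]
      exact hlam
    refine ⟨_, e'.2.2.2.1 (trn ρ L' f) lam hlam' ht, ?_⟩
    rw [twist_ext 𝔐 hI hE h σ ψ hψ L' (trn ρ L' f) ht lam hlam', cgT_trn 𝔐 h.cl]

end

end BETV

/-- BETV: twists of the central functions; the class is determined by one member; truncation. -/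
theorem BETV_thm (h1 : Stmt_EXTV) : Stmt_BETV := by
  intro G B C _ _ _ _ _ 𝔐 ι κ ρ h
  have : Finite C := Finite.of_surjective ρ h.surj
  refine ⟨fun S f hf hf' lam hlam x => BETV.twist 𝔐 INTH_thm h.cl S f hf hf' lam hlam x, ?_, ?_⟩
  · intro σ σ' ψ ψ' hψ hψ' L hL hL' f f' hf hf' he
    exact Set.Subset.antisymm
      (BETV.sub_bet 𝔐 INTH_thm h1 h σ σ' ψ ψ' hψ hψ' L hL hL' f f' hf hf' he)
      (BETV.sub_bet 𝔐 INTH_thm h1 h σ' σ ψ' ψ hψ' hψ L hL' hL f' f hf' hf he.symm)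
  · intro σ ψ hψ L' L hLL hL
    exact BETV.bet_trn 𝔐 INTH_thm h1 h σ ψ hψ L' L hLL hL

end Pool.Agent.DPV


end

section

/-!
CYH: the elements with central function different from zero, in the normalizer.
-/

namespace Pool.Agent.DPV

open Pool.Agent.DP Pool.Agent.Lib_helper13 Representation
open Pool.Agent.Lib_helper13.Dade (pCore DadeHolds dadeSum)

namespace CYH

section

variable {H : Type} [Group H] [Fintype H]

/-- The class of `h` under conjugation by `N`. -/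
def cl (N : Subgroup H) (h : H) : Set H := {x | ∃ t ∈ N, x = t * h * t⁻¹}

/-- The number of conjugates under `N` of an element which centralizes `P ≤ N` is prime to `ℓ`. -/
theorem cl_prime {ℓ : ℕ} (P N : Subgroup H) (hP : Nat.card P = ℓ) (hℓ : 0 < ℓ)
    (hi : ¬ ℓ ∣ P.index) (hPN : P ≤ N) (h : H) (hc : ∀ u ∈ P, h * u = u * h) :
    ¬ ℓ ∣ Nat.card (cl N h) := by
  classical
  let S : Subgroup N := (Subgroup.centralizer {h}).comap N.subtype
  have h1 : Nat.card (cl N h) = S.index := by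
    have e : cl N h ≃ N ⧸ S := by
      refine Equiv.symm (Equiv.ofBijective (fun q : N ⧸ S => Quotient.liftOn' q
        (fun t : N => (⟨(t : H) * h * (t : H)⁻¹, t, t.2, rfl⟩ : cl N h)) ?_) ⟨?_, ?_⟩)
      · intro a b hab
        have h2 : a⁻¹ * b ∈ S := QuotientGroup.leftRel_apply.mp hab
        have h3 : (a : H)⁻¹ * b * h = h * ((a : H)⁻¹ * b) :=
          (Subgroup.mem_centralizer_singleton_iff.mp h2)
        apply Subtype.ext
        show (a : H) * h * (a : H)⁻¹ = (b : H) * h * (b : H)⁻¹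
        have h4 : (b : H) * h = a * h * (a : H)⁻¹ * b := by
          calc (b : H) * h = a * ((a : H)⁻¹ * b * h) := by group
            _ = a * (h * ((a : H)⁻¹ * b)) := by rw [h3]
            _ = _ := by group
        rw [h4]
        group
      · intro a b
        induction a using QuotientGroup.induction_on with | H a => ?_
        induction b using QuotientGroup.induction_on with | H b => ?_
        intro hab
        have h2 : (a : H) * h * (a : H)⁻¹ = (b : H) * h * (b : H)⁻¹ :=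
          congrArg Subtype.val hab
        apply QuotientGroup.eq.mpr
        show (a : H)⁻¹ * b ∈ Subgroup.centralizer {h}
        rw [Subgroup.mem_centralizer_singleton_iff]
        calc (a : H)⁻¹ * b * h = (a : H)⁻¹ * ((b : H) * h * (b : H)⁻¹) * b := by group
          _ = (a : H)⁻¹ * ((a : H) * h * (a : H)⁻¹) * b := by rw [h2]
          _ = h * ((a : H)⁻¹ * b) := by group
      · rintro ⟨x, t, ht, rfl⟩
        exact ⟨QuotientGroup.mk (⟨t, ht⟩ : N), rfl⟩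
    rw [Nat.card_congr e]
    rfl
  have h2 : ℓ ∣ Nat.card S := by
    have h3 : (P.subgroupOf N) ≤ S := by
      intro u hu
      show (u : H) ∈ Subgroup.centralizer {h}
      rw [Subgroup.mem_centralizer_singleton_iff]
      exact (hc u hu).symm
    have h4 : Nat.card (P.subgroupOf N) = ℓ := by
      rw [Nat.card_congr (Subgroup.subgroupOfEquivOfLe hPN).toEquiv, hP]
    rw [← h4]
    exact Subgroup.card_dvd_of_le h3
  intro h5
  rw [h1] at h5
  apply hi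
  have h6 : ℓ * ℓ ∣ Nat.card N := by
    rw [← Subgroup.card_mul_index S]
    exact mul_dvd_mul h2 h5
  have h7 : ℓ * ℓ ∣ ℓ * P.index := by
    have h8 : Nat.card P * P.index = Nat.card H := Subgroup.card_mul_index P
    rw [hP] at h8
    rw [h8]
    exact h6.trans (Subgroup.card_subgroup_dvd_card N)
  exact Nat.dvd_of_mul_dvd_mul_left hℓ h7

theorem sum_cl (N : Subgroup H) {f : H → ℂ} (hf : IsIrr f) (h : H) :
    ∑ x, cjT N x h * f x = Nat.card (cl N h) * f h := by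
  classical
  have h1 : ∀ x, cjT N x h * f x = if x ∈ cl N h then f h else 0 := by
    intro x
    unfold cjT
    by_cases hx : ∃ t ∈ N, x = t * h * t⁻¹
    · have hx' : x ∈ cl N h := hx
      rw [if_pos hx, if_pos hx', one_mul]
      obtain ⟨t, _, rfl⟩ := hx
      rw [hf.conj_eq]
    · have hx' : ¬ x ∈ cl N h := hx
      rw [if_neg hx, if_neg hx', zero_mul]
  rw [Finset.sum_congr rfl (fun x _ => h1 x), ← Finset.sum_filter, Finset.sum_const,
    nsmul_eq_mul]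
  congr 2
  rw [Nat.card_eq_fintype_card, ← Fintype.card_subtype]

theorem integral_cl (N : Subgroup H) [N.Normal] {f : H → ℂ} (hf : IsIrr f)
    (hfN : IsIrr (fun n : N => f n)) (h : H) :
    IsIntegral ℤ ((∑ x, cjT N x h * f x) / f 1) := by
  classical
  have hcl : ClG N.subtype (MulAut.conjNormal : H →* MulAut N) (QuotientGroup.mk' N) := by
    refine ⟨N.subtype_injective, ?_, ?_⟩
    · intro y a
      exact MulAut.conjNormal_apply y a
    · intro y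
      rw [Subgroup.range_subtype, QuotientGroup.mk'_apply, QuotientGroup.eq_one_iff]
  have h1 : IrrOn (⊤ : Subgroup H) f := by
    refine ⟨?_, fun x hx => absurd (Subgroup.mem_top x) hx⟩
    exact hf.comp_mulEquiv (Subgroup.topEquiv (G := H))
  have h2 : IrrOn ((⊤ : Subgroup H).comap N.subtype) (fun n : N => f (N.subtype n)) := by
    refine ⟨?_, fun x hx => absurd (Subgroup.mem_top _) hx⟩
    have e : ((⊤ : Subgroup H).comap N.subtype) = ⊤ := Subgroup.comap_top _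
    rw [e]
    exact hfN.comp_mulEquiv (Subgroup.topEquiv (G := N))
  refine INTH_thm N H (H ⧸ N) N.subtype MulAut.conjNormal (QuotientGroup.mk' N) hcl ⊤ f h1 h2
    (fun x => cjT N x h) ?_ ?_
  · intro x
    unfold cjT
    split_ifs
    · exact isIntegral_one
    · exact isIntegral_zero
  · intro u x
    have h3 : (∃ t ∈ N, (N.subtype u) * x * (N.subtype u)⁻¹ = t * h * t⁻¹) ↔
        ∃ t ∈ N, x = t * h * t⁻¹ := by
      constructor
      · rintro ⟨t, ht, h4⟩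
        refine ⟨(N.subtype u)⁻¹ * t, N.mul_mem (N.inv_mem u.2) ht, ?_⟩
        have h5 : x = (N.subtype u)⁻¹ * ((N.subtype u) * x * (N.subtype u)⁻¹) * N.subtype u := by
          group
        rw [h5, h4]
        group
      · rintro ⟨t, ht, rfl⟩
        refine ⟨N.subtype u * t, N.mul_mem u.2 ht, ?_⟩
        group
    unfold cjT
    by_cases h6 : ∃ t ∈ N, x = t * h * t⁻¹
    · rw [if_pos h6, if_pos (h3.mpr h6)]
    · rw [if_neg h6, if_neg (fun h' => h6 (h3.mp h'))]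

theorem cgT_ne (𝔐 : Ideal (integralClosure ℤ ℂ)) (ℓ : ℕ) [hℓ : Fact ℓ.Prime]
    (hM : 𝔐.IsMaximal) (hlM : (ℓ : integralClosure ℤ ℂ) ∈ 𝔐) (P N : Subgroup H) [N.Normal]
    (hP : Nat.card P = ℓ) (hi : ¬ ℓ ∣ P.index) (hPN : P ≤ N) {f : H → ℂ} (hf : IsIrr f)
    (hfN : IsIrr (fun n : N => f n)) (h : H) (hc : ∀ u ∈ P, h * u = u * h)
    (hr : red 𝔐 (f h) ≠ 0) : cgT 𝔐 N f h ≠ 0 := by
  have : 𝔐.IsPrime := hM.isPrime
  intro h0
  have h1 := integral_cl N hf hfN h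
  have h2 : red 𝔐 ((∑ x, cjT N x h * f x) / f 1) = 0 := h0
  have h3 : red 𝔐 (f 1 * ((∑ x, cjT N x h * f x) / f 1)) = 0 := by
    rw [red_mul 𝔐 (isIntegral_char hf 1) h1, h2, mul_zero]
  rw [mul_div_cancel₀ _ hf.one_ne_zero, sum_cl N hf h,
    red_mul 𝔐 (Lib_helper13.isIntegral_natCast _) (isIntegral_char hf h)] at h3
  have : IsDomain ((integralClosure ℤ ℂ) ⧸ 𝔐) := Ideal.Quotient.isDomain 𝔐
  rcases mul_eq_zero.mp h3 with h4 | h4
  · exact red_card_ne_zero 𝔐 hlM (cl_prime P N hP hℓ.out.pos hi hPN h hc) h4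
  · exact hr h4

/-- The quotient of `H` by the centralizer of a normal subgroup of prime order is cyclic. -/
theorem exists_gen {ℓ : ℕ} [hℓ : Fact ℓ.Prime] (P : Subgroup H) [P.Normal]
    (hP : Nat.card P = ℓ) : ∃ g : H, ∀ h : H, ∃ k : ℤ, ∀ u ∈ P,
      (h * (g ^ k)⁻¹) * u = u * (h * (g ^ k)⁻¹) := by
  have hcyc : IsCyclic P := isCyclic_of_prime_card hP
  have hu : IsCyclic (MulAut P) := by
    have e : MulAut P ≃* (ZMod ℓ)ˣ := by
      have e1 := IsCyclic.mulAutMulEquiv P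
      rw [hP] at e1
      exact e1
    exact isCyclic_of_injective e.toMonoidHom e.injective
  have hr : IsCyclic (MulAut.conjNormal : H →* MulAut P).range := Subgroup.isCyclic _
  obtain ⟨⟨_, g, rfl⟩, hg⟩ := hr.exists_generator
  refine ⟨g, fun h => ?_⟩
  obtain ⟨k, hk⟩ := hg ⟨MulAut.conjNormal h, h, rfl⟩
  refine ⟨k, fun u hu => ?_⟩
  have h1 : (MulAut.conjNormal g : MulAut P) ^ k = MulAut.conjNormal h :=
    congrArg Subtype.val hk
  have h2 : (MulAut.conjNormal (h * (g ^ k)⁻¹) : MulAut P) = 1 := by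
    rw [map_mul, map_inv, map_zpow, h1, mul_inv_cancel]
  have h3 : ((MulAut.conjNormal (h * (g ^ k)⁻¹) : MulAut P) ⟨u, hu⟩ : H) = u := by
    rw [h2]
    rfl
  rw [MulAut.conjNormal_apply] at h3
  exact mul_inv_eq_iff_eq_mul.mp h3

theorem triv_case (𝔐 : Ideal (integralClosure ℤ ℂ)) (ℓ : ℕ) [hℓ : Fact ℓ.Prime]
    (hM : 𝔐.IsMaximal) (hlM : (ℓ : integralClosure ℤ ℂ) ∈ 𝔐) (hA : Stmt_CYA)
    (P N : Subgroup H) [P.Normal] [N.Normal]
    (hP : Nat.card P = ℓ) (hi : ¬ ℓ ∣ P.index) (hPN : P ≤ N) (f : H → ℂ) (hf : IsIrr f)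
    (hfN : IsIrr (fun n : N => f n)) (ht : ∀ u ∈ P, f u = f 1) :
    ∃ h0 : H, ∀ h : H, ∃ (k : ℤ) (h' : H), (∀ u ∈ P, h' * u = u * h') ∧
        h' * (h * h0 ^ k)⁻¹ ∈ N ∧ red 𝔐 (f h') ≠ 0 := by
  classical
  let π : H →* H ⧸ P := QuotientGroup.mk' P
  have hπ : Function.Surjective π := QuotientGroup.mk'_surjective P
  have hker : ∀ n, n ∈ π.ker ↔ n ∈ P := by
    intro n
    rw [MonoidHom.mem_ker]
    exact QuotientGroup.eq_one_iff n
  have hsum : ∀ (S : Type) [Fintype S] (a : S → ℂ), (∀ s, a s = f 1) → Nonempty S →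
      ∑ s, a s ≠ 0 := by
    intro S _ a ha _
    rw [Finset.sum_congr rfl (fun s _ => ha s), Finset.sum_const, nsmul_eq_mul]
    refine mul_ne_zero ?_ hf.one_ne_zero
    rw [Finset.card_univ]
    exact_mod_cast Fintype.card_ne_zero
  obtain ⟨ψ, hψ, hψf⟩ := QB.defl hπ hf (hsum π.ker (fun n => f n)
    (fun n => ht n ((hker n).mp n.2)) ⟨1⟩)
  let π' : N →* N.map π := π.subgroupMap N
  have hπ' : Function.Surjective π' := π.subgroupMap_surjective N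
  have hker' : ∀ n : N, n ∈ π'.ker → (n : H) ∈ P := by
    intro n hn
    rw [← hker, MonoidHom.mem_ker]
    exact congrArg Subtype.val (MonoidHom.mem_ker.mp hn)
  obtain ⟨φ, hφ, hφf⟩ := QB.defl hπ' hfN (hsum π'.ker (fun n => f ((n : N) : H))
    (fun n => ht _ (hker' n n.2)) ⟨1⟩)
  have hψN : IsIrr (fun n : N.map π => ψ n) := by
    have h1 : (fun n : N.map π => ψ n) = φ := by
      funext n
      obtain ⟨m, rfl⟩ := hπ' n
      rw [← hφf m, hψf]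
      rfl
    rw [h1]
    exact hφ
  let C : Subgroup H := Subgroup.centralizer (P : Set H)
  have hC : ∀ h : H, h ∈ C ↔ ∀ u ∈ P, h * u = u * h := by
    intro h
    rw [Subgroup.mem_centralizer_iff]
    exact ⟨fun h1 u hu => (h1 u hu).symm, fun h1 u hu => (h1 u hu).symm⟩
  have hZ : (C.map π).Normal := Subgroup.Normal.map inferInstance π hπ
  have hN : (N.map π).Normal := Subgroup.Normal.map inferInstance π hπ
  have hcyc : IsCyclic ((H ⧸ P) ⧸ C.map π) := by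
    obtain ⟨g, hg⟩ := exists_gen P hP
    refine ⟨⟨QuotientGroup.mk (π g), fun x => ?_⟩⟩
    obtain ⟨y, rfl⟩ := QuotientGroup.mk_surjective x
    obtain ⟨h, rfl⟩ := hπ y
    obtain ⟨k, hk⟩ := hg h
    refine ⟨k, ?_⟩
    show (QuotientGroup.mk (π g) : (H ⧸ P) ⧸ C.map π) ^ k = QuotientGroup.mk (π h)
    rw [← QuotientGroup.mk_zpow, ← map_zpow]
    refine QuotientGroup.eq.mpr ?_
    refine ⟨(g ^ k)⁻¹ * (h * (g ^ k)⁻¹) * (g ^ k), ?_, ?_⟩
    · have h1 : h * (g ^ k)⁻¹ ∈ C := (hC _).mpr hk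
      have h2 : (g ^ k)⁻¹ * (h * (g ^ k)⁻¹) * ((g ^ k)⁻¹)⁻¹ ∈ C :=
        (inferInstance : C.Normal).conj_mem _ h1 _
      rw [inv_inv] at h2
      exact h2
    · rw [← map_inv, ← map_mul]
      congr 1
      group
  have hcard : ¬ ℓ ∣ Nat.card (H ⧸ P) := hi
  obtain ⟨x0, hx0⟩ := hA (H ⧸ P) 𝔐 ℓ hM hlM hcard (C.map π) (N.map π) hcyc ψ hψ hψN
  obtain ⟨h0, rfl⟩ := hπ x0
  refine ⟨h0, fun h => ?_⟩
  obtain ⟨k, x', ⟨h', hh', rfl⟩, h1, h2⟩ := hx0 (π h)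
  refine ⟨k, h', (hC h').mp hh', ?_, ?_⟩
  · rw [← map_zpow, ← map_mul, ← map_inv, ← map_mul] at h1
    obtain ⟨n, hn, h3⟩ := h1
    have h4 : n⁻¹ * (h' * (h * h0 ^ k)⁻¹) ∈ P := by
      rw [← hker, MonoidHom.mem_ker, map_mul, map_inv, h3, inv_mul_cancel]
    have h5 := N.mul_mem hn (hPN h4)
    rw [mul_inv_cancel_left] at h5
    exact h5
  · rw [hψf]
    exact h2

end

end CYH

/-- CYH: the elements with central function different from zero, in the normalizer. -/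
theorem CYH_thm (h1 : Stmt_CYA) (h2 : Stmt_CYE) : Stmt_CYH := by
  intro H _ _ 𝔐 ℓ _ hM hlM P N _ _ hP hi hPN f hf hfN
  by_cases ht : ∃ u ∈ P, f u ≠ f 1
  · obtain ⟨h0, hh0⟩ := h2 H 𝔐 ℓ hM hlM P N hP hi hPN f hf hfN ht
    refine ⟨h0, fun h => ?_⟩
    obtain ⟨k, h', hc, _, hn, hr⟩ := hh0 h
    exact ⟨k, h', hc, hn, CYH.cgT_ne 𝔐 ℓ hM hlM P N hP hi hPN hf hfN h' hc hr⟩
  · have ht' : ∀ u ∈ P, f u = f 1 := by
      intro u hu
      by_contra hne
      exact ht ⟨u, hu, hne⟩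
    obtain ⟨h0, hh0⟩ := CYH.triv_case 𝔐 ℓ hM hlM h1 P N hP hi hPN f hf hfN ht'
    refine ⟨h0, fun h => ?_⟩
    obtain ⟨k, h', hc, hn, hr⟩ := hh0 h
    exact ⟨k, h', hc, hn, CYH.cgT_ne 𝔐 ℓ hM hlM P N hP hi hPN hf hfN h' hc hr⟩

end Pool.Agent.DPV


end

section

/-!
BEQW: the classes of central functions over the same block agree.
-/

namespace Pool.Agent.DPW

open Pool.Agent.DP Pool.Agent.DPV Pool.Agent.Lib_helper13 Representation
open Pool.Agent.Lib_helper13.Dade (pCore DadeHolds dadeSum)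

theorem BEQW_thm (h1 : Stmt_NUVW) : Stmt_BEQW := by
  intro G B C _ _ _ _ _ 𝔐 ℓ _ hM hl ι κ ρ hloc hcop σ σ' ψ ψ' hσ hσ' hψ hψ' hcg L hL hL' f hf hc0
  obtain ⟨e1, e2, _, e4, _, _⟩ := EXTV_thm G B C ι κ ρ hloc σ ψ hψ L
  obtain ⟨_, _, ⟨f', hf'⟩, _, _, _⟩ := EXTV_thm G B C ι κ ρ hloc σ' ψ' hψ' L
  obtain ⟨U, ν, hUL, hconj, hU, hν1, hνm, hν⟩ :=
    h1 G B C 𝔐 ℓ hM hl ι κ ρ hloc σ σ' ψ ψ' hσ hσ' hψ hψ' hcg L hL hL' f f' hf hf'
  haveI : Finite C := Finite.of_surjective ρ hloc.surj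
  have hK : KL κ ρ σ ψ L = L := inf_eq_right.mpr hL
  obtain ⟨lam, hlam, hlamU⟩ := LINX_thm C 𝔐 ℓ hM hl hcop L U hUL
    (fun c hc u hu => (hconj c hc u hu).1)
    (by
      obtain ⟨c0, hc0L, hc⟩ := hc0
      refine ⟨c0, hc0L, fun c hcL => ?_⟩
      obtain ⟨k, t, ht, ht0⟩ := hc c hcL
      exact ⟨k, (hU _).mpr ⟨L.mul_mem hcL (L.zpow_mem hc0L k), t, ht, ht0⟩⟩)
    ν hν1 hνm (fun c hc u hu => (hconj c hc u hu).2)
  have hlamK : LinOn (KL κ ρ σ ψ L) lam := by rw [hK]; exact hlam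
  have hf2 : ExtL ι κ ρ σ ψ L (fun x => f x * lam (ρ x)) := e4 f lam hlamK hf
  have hker : ∀ g, ρ (ι g) = 1 := fun g => (hloc.cl.ker (ι g)).mpr ⟨g, rfl⟩
  -- the support of `f`
  have hsupp : ∀ x, ρ x ∉ L → f x = 0 := by
    intro x hx
    apply hf.1.2
    intro hx2
    exact hx hx2.2
  obtain ⟨b1, b2, _⟩ := BETV_thm EXTV_thm G B C 𝔐 ι κ ρ hloc
  have hS : IrrOn ((Stx κ σ ψ ⊓ L.comap ρ).comap ι) (fun h => f (ι h)) := by
    rw [e1]
    have : (fun h => f (ι h)) = ψ := funext hf.2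
    rw [this]
    exact hψ
  have hlamS : LinOn ((Stx κ σ ψ ⊓ L.comap ρ).map ρ) lam := by rw [e2]; exact hlamK
  have htw := b1 (Stx κ σ ψ ⊓ L.comap ρ) f hf.1 hS lam hlamS
  have heq : cgT 𝔐 ι.range (fun x => f x * lam (ρ x)) = cgT 𝔐 ι.range f' := by
    funext x
    rw [htw x, hν x]
    by_cases hx : cgT 𝔐 ι.range f x = 0
    · rw [hx, mul_zero, mul_zero]
    · have hxU : ρ x ∈ U :=
        (hU _).mpr ⟨Pool.Agent.DPV.BEQV.rho_mem 𝔐 ι ρ hker L f hsupp x hx, x, rfl, hx⟩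
      rw [hlamU _ hxU]
  exact b2 σ σ' ψ ψ' hψ hψ' L hL hL' _ f' hf2 hf' heq

end Pool.Agent.DPW


end

section

/-!
# LVX: the local sum vanishes for the blocks with cyclic defect groups
-/

namespace Pool.Agent.DPX

open Pool.Agent.DP Pool.Agent.DPV Pool.Agent.DPB Pool.Agent.DPW Pool.Agent.Lib_helper13
open Representation

namespace LVX

theorem mulw : Stmt_MULW := MULW_thm BRC_thm

theorem beqw : Stmt_BEQW := BEQW_thm (NUVW_thm mulw)

theorem triw : Stmt_TRIW := TRIW_thm mulw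

end LVX

theorem LVX_thm (h1 : Stmt_DXMX) (h2 : Stmt_CYCX) (h3 : Stmt_TWOX) (h4 : Stmt_VSXX)
    (h5 : Stmt_FIXX) (h6 : Stmt_DFX) : Stmt_LVX := by
  classical
  intro G B C _ _ _ _ _ 𝔐 ℓ _ hmax hℓ ι κ ρ hL hC L β e hβ
  have hprime : 𝔐.IsPrime := hmax.isPrime
  have hcl := hL.cl
  have hex : ∀ (σ : Finset (Subgroup G)) (ψ : G → ℂ), IrrOn (stb σ) ψ →
      ∃ f, ExtL ι κ ρ σ ψ L f := fun σ ψ hψ => (EXTV_thm G B C ι κ ρ hL σ ψ hψ L).2.2.1
  obtain ⟨b, hb, hD⟩ := hβ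
  obtain ⟨ω, hω⟩ : ∃ ω : G → (integralClosure ℤ ℂ) ⧸ 𝔐, ω = fun g => b (ι g) := ⟨_, rfl⟩
  rw [← hω] at hD
  by_contra hVS
  -- a contributing character
  have hcont : ∃ σ ∈ Ch ℓ (⊥ : Subgroup G), ∃ ψ ∈ irrOn (stb σ),
      bet 𝔐 ι κ ρ σ ψ L = β := by
    by_contra hcon
    push Not at hcon
    apply hVS
    unfold VS
    refine Finset.sum_eq_zero fun σ hσ => ?_
    rw [Finset.sum_eq_zero, mul_zero]
    intro ψ hψ
    rw [if_neg, mul_zero]
    rintro ⟨-, -, h⟩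
    exact hcon σ hσ ψ hψ h
  obtain ⟨σ₁, hσ₁, ψ₂, hψ₂, hb₂⟩ := hcont
  have hω2 : ∀ g, cg 𝔐 ψ₂ g = ω g := by
    intro g
    rw [← hb₂] at hb
    obtain ⟨f', hf', he'⟩ := hb
    rw [hω]
    show cg 𝔐 ψ₂ g = b (ι g)
    rw [he', LVB.cg_of_ext 𝔐 hcl hf']
  obtain ⟨θ₀, hθ₀, hθω⟩ := FXD.exists_irr 𝔐 hℓ (mem_Ch.mp hσ₁) hψ₂ hω2
  obtain ⟨n, P₁, P, x₀, hAt'⟩ := (h1 G 𝔐 ℓ hmax hℓ θ₀ hθ₀).1 (by rw [hθω]; exact hD)
  have hAt : AtX ℓ n ω P₁ P x₀ := by
    rw [← hθω]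
    exact hAt'
  have hirr : ∃ θ : G → ℂ, IsIrr θ ∧ cen 𝔐 (MonoidHom.id G) θ = ω := ⟨θ₀, hθ₀, hθω⟩
  have hSe : SmW ℓ (∅ : Finset (Subgroup G)) := Or.inl rfl
  have hSP : SmW ℓ ({P₁} : Finset (Subgroup G)) := Or.inr ⟨P₁, rfl, hAt.cd.c1⟩
  apply hVS
  rw [h4 G B C 𝔐 ℓ n hmax hℓ ι κ ρ hL.locN P₁ P x₀ L β e ⟨b, hb, by rw [← hω]; exact hAt⟩]
  -- defects
  obtain ⟨hdfe, hdfP⟩ := h6 G 𝔐 ℓ n hmax hℓ ω P₁ P x₀ hAt
  -- the main step
  have main : ∀ (σ0 : Finset (Subgroup G)) (ψ0 : G → ℂ), (σ0 = ∅ ∨ σ0 = {P₁}) →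
      IrrOn (stb σ0) ψ0 → L ≤ (Stx κ σ0 ψ0).map ρ → df ℓ (stb σ0) ψ0 = e →
      bet 𝔐 ι κ ρ σ0 ψ0 L = β →
      Nat.card {θ : G → ℂ // IrrOn (stb ∅) θ ∧ L ≤ (Stx κ ∅ θ).map ρ ∧
        df ℓ (stb (∅ : Finset (Subgroup G))) θ = e ∧ bet 𝔐 ι κ ρ ∅ θ L = β} =
      Nat.card {ψ : G → ℂ // IrrOn (stb {P₁}) ψ ∧ L ≤ (Stx κ {P₁} ψ).map ρ ∧
        df ℓ (stb {P₁}) ψ = e ∧ bet 𝔐 ι κ ρ {P₁} ψ L = β} := by
    intro σ0 ψ0 hσ0 hψ0 hL0 he0 hb0
    have hS0 : SmW ℓ σ0 := by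
      rcases hσ0 with h | h
      · rw [h]
        exact hSe
      · rw [h]
        exact hSP
    obtain ⟨f0, hf0⟩ := hex σ0 ψ0 hψ0
    have hω0 : ∀ g, cg 𝔐 ψ0 g = ω g := by
      intro g
      rw [← hb0] at hb
      obtain ⟨f', hf', he'⟩ := hb
      rw [hω]
      show cg 𝔐 ψ0 g = b (ι g)
      rw [he', LVB.cg_of_ext 𝔐 hcl hf']
    have he : e = n := by
      rcases hσ0 with h | h
      · subst h
        rw [← he0]
        exact hdfe ψ0 hψ0 hω0
      · subst h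
        rw [← he0]
        exact hdfP ψ0 hψ0 hω0
    -- (i)
    obtain ⟨ψ1, ⟨hψ1, hω1⟩, hL1⟩ : ∃ ψ : G → ℂ,
        (IrrOn (stb ({P₁} : Finset (Subgroup G))) ψ ∧ ∀ g, cg 𝔐 ψ g = ω g) ∧
          L ≤ (Stx κ {P₁} ψ).map ρ := by
      rcases hσ0 with h | h
      · subst h
        obtain ⟨S₁, S₂, hS⟩ := h3 G B C 𝔐 ℓ n hmax hℓ ι κ ρ hL.locN hC P₁ P x₀ ω hAt hirr
        refine LVB.exists_of_two _ (fun ψ => (Stx κ ({P₁} : Finset (Subgroup G)) ψ).map ρ)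
          (fun ψ => (Stx κ ({P₁} : Finset (Subgroup G)) ψ).map ρ = S₁) ?_ L ?_
        · rintro ψ ψ' ⟨hψ, hψω⟩ ⟨hψ', hψω'⟩ hiff
          by_cases h7 : (Stx κ ({P₁} : Finset (Subgroup G)) ψ).map ρ = S₁
          · have h8 := hiff.mp h7
            show (Stx κ ({P₁} : Finset (Subgroup G)) ψ).map ρ ≤
              (Stx κ ({P₁} : Finset (Subgroup G)) ψ').map ρ
            rw [h7]
            exact h8.ge
          · have h8 : ¬ (Stx κ ({P₁} : Finset (Subgroup G)) ψ').map ρ = S₁ :=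
              fun h9 => h7 (hiff.mpr h9)
            have h10 := (hS ψ hψ hψω).resolve_left h7
            have h11 := (hS ψ' hψ' hψω').resolve_left h8
            show (Stx κ ({P₁} : Finset (Subgroup G)) ψ).map ρ ≤
              (Stx κ ({P₁} : Finset (Subgroup G)) ψ').map ρ
            rw [h10, h11]
        · intro c hc
          have hfix := h5 G B C 𝔐 ℓ n hmax hℓ ι κ ρ hL hC ω P₁ P x₀ hAt c
          have hfin := LVB.finite_irrOn (stb (∅ : Finset (Subgroup G)))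
            (fun θ => (∀ g, cg 𝔐 θ g = ω g) ∧ c ∈ (Stx κ ∅ θ).map ρ)
          have hne : Nonempty {θ : G → ℂ // IrrOn (stb ∅) θ ∧ (∀ g, cg 𝔐 θ g = ω g) ∧
              c ∈ (Stx κ ∅ θ).map ρ} := ⟨⟨ψ0, hψ0, hω0, hL0 hc⟩⟩
          have hpos : 0 < Nat.card {ψ : G → ℂ // IrrOn (stb {P₁}) ψ ∧
              (∀ g, cg 𝔐 ψ g = ω g) ∧ c ∈ (Stx κ {P₁} ψ).map ρ} := by
            rw [← hfix]
            exact Nat.card_pos
          obtain ⟨⟨⟨ψ, hψ, hψω, hψc⟩⟩, -⟩ := Nat.card_pos_iff.mp hpos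
          exact ⟨ψ, ⟨hψ, hψω⟩, hψc⟩
      · subst h
        exact ⟨ψ0, ⟨hψ0, hω0⟩, hL0⟩
    -- (ii)
    obtain ⟨f1, hf1⟩ := hex {P₁} ψ1 hψ1
    obtain ⟨c0, hc0, hcyc⟩ := h2 G B C 𝔐 ℓ n hmax hℓ ι κ ρ hL.locN hC P₁ P x₀ ω hAt hirr ψ1 hψ1
      hω1 L hL1 f1 hf1
    have hbeq : ∀ (σ : Finset (Subgroup G)) (ψ : G → ℂ), SmW ℓ σ → IrrOn (stb σ) ψ →
        (∀ g, cg 𝔐 ψ g = ω g) → L ≤ (Stx κ σ ψ).map ρ →
        bet 𝔐 ι κ ρ {P₁} ψ1 L = bet 𝔐 ι κ ρ σ ψ L := by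
      intro σ ψ hσ hψ hψω hLψ
      exact LVX.beqw G B C 𝔐 ℓ hmax hℓ ι κ ρ hL hC {P₁} σ ψ1 ψ hSP hσ hψ1 hψ
        (fun g => by rw [hω1, hψω]) L hL1 hLψ f1 hf1 ⟨c0, hc0, hcyc⟩
    have hb1 : bet 𝔐 ι κ ρ {P₁} ψ1 L = β := by
      rw [← hb0]
      exact hbeq σ0 ψ0 hS0 hψ0 hω0 hL0
    -- (iii), (iv)
    have key : ∀ (σ : Finset (Subgroup G)) (ψ : G → ℂ), SmW ℓ σ → IrrOn (stb σ) ψ →
        ((∀ g, cg 𝔐 ψ g = ω g) → df ℓ (stb σ) ψ = n) →
        ((L ≤ (Stx κ σ ψ).map ρ ∧ df ℓ (stb σ) ψ = e ∧ bet 𝔐 ι κ ρ σ ψ L = β) ↔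
          ((∀ g, cg 𝔐 ψ g = ω g) ∧ c0 ∈ (Stx κ σ ψ).map ρ)) := by
      intro σ ψ hσ hψ hdf
      constructor
      · rintro ⟨h8, -, h9⟩
        refine ⟨fun g => ?_, h8 hc0⟩
        rw [LVB.cg_of_bet 𝔐 hcl hf0 (by rw [hb0, h9]) g, hω0]
      · rintro ⟨h8, h9⟩
        have hle : L ≤ (Stx κ σ ψ).map ρ := by
          intro c hc
          obtain ⟨k, t, ht, hne⟩ := hcyc c hc
          have huL : c * c0 ^ k ∈ L := L.mul_mem hc (L.zpow_mem hc0 k)
          have hzL : Subgroup.zpowers (c * c0 ^ k) ≤ L := by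
            rw [Subgroup.zpowers_le]
            exact huL
          have hext := (EXTV_thm G B C ι κ ρ hL {P₁} ψ1 hψ1 L).2.2.2.2.2 _ hzL f1 hf1
          have hu : c * c0 ^ k ∈ (Stx κ σ ψ).map ρ := by
            refine LVX.triw G B C 𝔐 ℓ hmax hℓ ι κ ρ hL hC {P₁} σ ψ1 ψ hSP hσ hψ1 hψ
              (fun g => by rw [hω1, h8]) _ (hL1 huL) _ hext ⟨t, ht, ?_⟩
            rw [(CGT_thm G B C 𝔐 ι κ ρ hcl).2.2.2.1]
            · unfold trn
              rw [if_pos]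
              · exact hne
              · rw [ht]
                exact Subgroup.mem_zpowers _
            · rintro _ ⟨g, rfl⟩ y
              have hg : ρ (ι g) = 1 := (hcl.ker (ι g)).mpr ⟨g, rfl⟩
              rw [map_mul, map_mul, map_inv, hg, inv_one, one_mul, mul_one]
          have h10 := ((Stx κ σ ψ).map ρ).mul_mem hu
            (((Stx κ σ ψ).map ρ).inv_mem (((Stx κ σ ψ).map ρ).zpow_mem h9 k))
          rwa [mul_assoc, mul_inv_cancel, mul_one] at h10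
        refine ⟨hle, ?_, ?_⟩
        · rw [hdf h8, he]
        · rw [← hbeq σ ψ hσ hψ h8 hle, hb1]
    -- (v)
    have hfix := h5 G B C 𝔐 ℓ n hmax hℓ ι κ ρ hL hC ω P₁ P x₀ hAt c0
    calc Nat.card {θ : G → ℂ // IrrOn (stb ∅) θ ∧ L ≤ (Stx κ ∅ θ).map ρ ∧
        df ℓ (stb (∅ : Finset (Subgroup G))) θ = e ∧ bet 𝔐 ι κ ρ ∅ θ L = β}
        = Nat.card {θ : G → ℂ // IrrOn (stb ∅) θ ∧ (∀ g, cg 𝔐 θ g = ω g) ∧
            c0 ∈ (Stx κ ∅ θ).map ρ} := by
          refine Nat.card_congr (Equiv.subtypeEquivRight fun θ => ?_)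
          exact and_congr_right fun hθ => key ∅ θ hSe hθ (hdfe θ hθ)
      _ = Nat.card {ψ : G → ℂ // IrrOn (stb {P₁}) ψ ∧ (∀ g, cg 𝔐 ψ g = ω g) ∧
            c0 ∈ (Stx κ {P₁} ψ).map ρ} := hfix
      _ = Nat.card {ψ : G → ℂ // IrrOn (stb {P₁}) ψ ∧ L ≤ (Stx κ {P₁} ψ).map ρ ∧
            df ℓ (stb {P₁}) ψ = e ∧ bet 𝔐 ι κ ρ {P₁} ψ L = β} := by
          refine Nat.card_congr (Equiv.subtypeEquivRight fun ψ => ?_)
          exact and_congr_right fun hψ => (key {P₁} ψ hSP hψ (hdfP ψ hψ)).symm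
  by_cases hN : Nonempty {θ : G → ℂ // IrrOn (stb ∅) θ ∧ L ≤ (Stx κ ∅ θ).map ρ ∧
        df ℓ (stb (∅ : Finset (Subgroup G))) θ = e ∧ bet 𝔐 ι κ ρ ∅ θ L = β}
  · obtain ⟨⟨θ, h8, h9, h10, h11⟩⟩ := hN
    rw [main ∅ θ (Or.inl rfl) h8 h9 h10 h11, sub_self, mul_zero]
  · by_cases hN' : Nonempty {ψ : G → ℂ // IrrOn (stb {P₁}) ψ ∧ L ≤ (Stx κ {P₁} ψ).map ρ ∧
        df ℓ (stb {P₁}) ψ = e ∧ bet 𝔐 ι κ ρ {P₁} ψ L = β}
    · obtain ⟨⟨θ, h8, h9, h10, h11⟩⟩ := hN'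
      rw [main {P₁} θ (Or.inr rfl) h8 h9 h10 h11, sub_self, mul_zero]
    · rw [not_nonempty_iff] at hN hN'
      rw [@Nat.card_of_isEmpty _ hN, @Nat.card_of_isEmpty _ hN', sub_self, mul_zero]

end Pool.Agent.DPX


end

section

/-!
# CMB: the character of the quotient is determined by the central function
-/

set_option autoImplicit false
set_option linter.unusedSectionVars false

namespace Pool.Agent.DPG.CMB

open Pool.Agent.DP Pool.Agent.DPC Pool.Agent.DPM Pool.Agent.DPN Pool.Agent.DPF Pool.Agent.DPG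
  Pool.Agent.Lib_helper13 Representation
open Pool.Agent.DPG.WDB

/-! ### The functions on the cosets of `L1` -/

section Co

variable {K1 Q L1 : Type} [Group K1] [Group Q] [Fintype Q] [Group L1] [Fintype L1]
  {𝔐 : Ideal (integralClosure ℤ ℂ)} {q : Q →* K1} {α : K1 →* MulAut Q} {μQ : q.ker →* ℂˣ}
  {π1 : L1 →* K1} {μ1 : π1.ker →* ℂˣ} {ι : Q →* L1} {M1 : Subgroup K1}

open Classical in
/-- The part of a function on a coset. -/
noncomputable def prt (ι : Q →* L1) (u : L1 → ℤ) (T : L1 ⧸ ι.range) (y : L1) : ℤ :=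
  if (QuotientGroup.mk y : L1 ⧸ ι.range) = T then u y else 0

theorem prt_civ (h1 : LD q α μQ π1 μ1 ι) {u : L1 → ℤ} (hu : CIv (q.range.comap π1) u)
    (T : L1 ⧸ ι.range) : CIv (q.range.comap π1) (prt ι u T) := by
  intro s hs y
  have h2 : (QuotientGroup.mk (s * y * s⁻¹) : L1 ⧸ ι.range) = QuotientGroup.mk y := by
    obtain ⟨z, hz, x, rfl⟩ := (mem_comap_range h1).mp hs
    refine (QuotientGroup.eq.mpr ?_).symm
    have h3 : y⁻¹ * (z * ι x * y * (z * ι x)⁻¹) = (y⁻¹ * ι x * y⁻¹⁻¹) * (ι x)⁻¹ := by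
      have h4 : z * ι x * y * (z * ι x)⁻¹ = z * (ι x * y * (ι x)⁻¹) * z⁻¹ := by group
      rw [h4, kerπ1_comm h1 hz]
      group
    rw [h3, conj_ι h1, ← map_inv, ← map_mul]
    exact ⟨_, rfl⟩
  unfold prt
  rw [h2, hu s hs y]

theorem integral_unit {G : Type} [Group G] [Finite G] (χ : G →* ℂˣ) (z : G) :
    IsIntegral ℤ ((χ z : ℂˣ) : ℂ) := by
  refine IsIntegral.of_pow (Nat.card_pos (α := G)) ?_
  rw [← Units.val_pow_eq_pow_val, ← map_pow, pow_card_eq_one', map_one, Units.val_one]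
  exact isIntegral_one

/-- A twisted invariant function on `Q` with a nonzero scalar. -/
theorem exists_w [𝔐.IsPrime] (hq : q.range.Normal) (h1 : LD q α μQ π1 μ1 ι)
    {S : Subgroup K1} {F : L1 → ℂ} (hle : q.range ≤ M1) (hF : EF π1 q.range M1 S F)
    (oF : Ov π1 μ1 F) (hS : SUP 𝔐 π1 q.range M1 F) {g : L1} (hg : π1 g ∈ M1) :
    ∃ w : Q → ℤ, (∀ a n, w (α (π1 g)⁻¹ a * n * a⁻¹) = w n) ∧
      IsIntegral ℤ (∑ n, ((w n : ℤ) : ℂ) * (F (g * ι n) / F 1)) ∧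
      red 𝔐 (∑ n, ((w n : ℤ) : ℂ) * (F (g * ι n) / F 1)) ≠ 0 := by
  classical
  obtain ⟨u, hu, hs, hne⟩ := hS g hg
  have : Fintype (L1 ⧸ ι.range) := Fintype.ofFinite _
  have hUi : ∀ T, IsIntegral ℤ ((∑ y, ((prt ι u T y : ℤ) : ℂ) * F y) / F 1) := by
    intro T
    refine RIU.lam_int h1.s hle hF (prt_civ h1 hu T) hg ?_
    intro y hy
    unfold prt
    rw [hs y hy, ite_self]
  have hsum : (∑ y, ((u y : ℤ) : ℂ) * F y) / F 1 =
      ∑ T, (∑ y, ((prt ι u T y : ℤ) : ℂ) * F y) / F 1 := by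
    rw [← Finset.sum_div, Finset.sum_comm]
    congr 1
    refine Finset.sum_congr rfl fun y _ => ?_
    rw [← Finset.sum_mul, ← Int.cast_sum]
    congr 2
    unfold prt
    rw [Finset.sum_ite_eq, if_pos (Finset.mem_univ _)]
  unfold sc at hne
  rw [hsum, red_sum _ _ _ (fun T _ => hUi T)] at hne
  obtain ⟨T, -, hT⟩ := Finset.exists_ne_zero_of_sum_ne_zero hne
  obtain ⟨y, hy⟩ : ∃ y, prt ι u T y ≠ 0 := by
    by_contra hcon
    push Not at hcon
    apply hT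
    have h2 : (∑ y, ((prt ι u T y : ℤ) : ℂ) * F y) / F 1 = 0 := by
      rw [Finset.sum_eq_zero, zero_div]
      intro y _
      rw [hcon y, Int.cast_zero, zero_mul]
    rw [h2, red_zero]
  have hyT : QuotientGroup.mk y = T := by
    by_contra hcon
    apply hy
    unfold prt
    rw [if_neg hcon]
  have hyu : u y ≠ 0 := by
    intro hcon
    apply hy
    unfold prt
    rw [hcon, ite_self]
  have hys : π1 (g⁻¹ * y) ∈ q.range := by
    by_contra hcon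
    exact hyu (hs y hcon)
  obtain ⟨z, hz, n0, hzn⟩ := (mem_comap_range h1).mp hys
  have hy0 : y = z * (g * ι n0) := by
    have h2 : y = g * (z * ι n0) := by rw [← hzn, mul_inv_cancel_left]
    rw [h2, ← mul_assoc, ← mul_assoc, kerπ1_comm h1 hz]
  have hsum2 : ∑ n, ((u (z * (g * ι n)) : ℤ) : ℂ) * F (z * (g * ι n)) =
      ∑ y, ((prt ι u T y : ℤ) : ℂ) * F y := by
    refine Fintype.sum_of_injective (fun n => z * (g * ι n)) ?_ _ _ ?_ ?_
    · intro n n' hn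
      exact h1.ιi (mul_left_cancel (mul_left_cancel hn))
    · intro y' hy'
      unfold prt
      rw [if_neg, Int.cast_zero, zero_mul]
      intro hcon
      apply hy'
      rw [← hyT] at hcon
      obtain ⟨x, hx⟩ := QuotientGroup.eq.mp hcon.symm
      refine ⟨n0 * x, ?_⟩
      change z * (g * ι (n0 * x)) = y'
      rw [map_mul, hx, hy0]
      group
    · intro n
      unfold prt
      rw [if_pos]
      rw [← hyT]
      refine (QuotientGroup.eq.mpr ?_).symm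
      refine ⟨n0⁻¹ * n, ?_⟩
      rw [hy0, map_mul, map_inv]
      group
  have hlam : (∑ y, ((prt ι u T y : ℤ) : ℂ) * F y) / F 1 =
      ((μ1 ⟨z, hz⟩ : ℂˣ) : ℂ) *
        ∑ n, ((u (z * (g * ι n)) : ℤ) : ℂ) * (F (g * ι n) / F 1) := by
    rw [← hsum2, Finset.sum_div, Finset.mul_sum]
    refine Finset.sum_congr rfl fun n _ => ?_
    have h2 := oF ⟨z, hz⟩ (g * ι n)
    change F (z * (g * ι n)) = _ at h2
    rw [h2]
    ring
  have hμ := integral_unit μ1 ⟨z, hz⟩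
  have hμ' := integral_unit μ1 (⟨z, hz⟩ : π1.ker)⁻¹
  have hint : IsIntegral ℤ (∑ n, ((u (z * (g * ι n)) : ℤ) : ℂ) * (F (g * ι n) / F 1)) := by
    have h2 := hμ'.mul (hUi T)
    rw [hlam, ← mul_assoc, map_inv, Units.inv_mul, one_mul] at h2
    exact h2
  refine ⟨fun n => u (z * (g * ι n)), ?_, hint, ?_⟩
  · intro a n
    change u (z * (g * ι (α (π1 g)⁻¹ a * n * a⁻¹))) = u (z * (g * ι n))
    have h2 : z * (g * ι (α (π1 g)⁻¹ a * n * a⁻¹)) = ι a * (z * (g * ι n)) * (ι a)⁻¹ := by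
      have h3 := ι_mul h1 g a
      rw [map_mul ι, map_mul ι, map_inv ι]
      calc z * (g * (ι (α (π1 g)⁻¹ a) * ι n * (ι a)⁻¹))
          = z * (g * ι (α (π1 g)⁻¹ a)) * ι n * (ι a)⁻¹ := by group
        _ = z * (ι a * g) * ι n * (ι a)⁻¹ := by rw [← h3]
        _ = (z * ι a) * g * ι n * (ι a)⁻¹ := by group
        _ = (ι a * z) * g * ι n * (ι a)⁻¹ := by rw [kerπ1_comm h1 hz]
        _ = ι a * (z * (g * ι n)) * (ι a)⁻¹ := by group
    rw [h2]
    refine hu (ι a) ?_ _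
    rw [Subgroup.mem_comap, h1.πι]
    exact ⟨a, rfl⟩
  · intro hcon
    apply hT
    rw [hlam, red_mul _ hμ hint, hcon, mul_zero]

end Co

/-! ### The functions on `L` -/

section Fu

variable {L K K1 Q L1 Ω : Type} [Group L] [Fintype L] [Group K] [Group K1] [Group Q] [Fintype Q]
  [Group L1] [Fintype Ω] {π : L →* K} {μ : π.ker →* ℂˣ} {φ : K →* Gam (Equiv.Perm Ω) Ω K1}
  {q : Q →* K1} {α : K1 →* MulAut Q} {ε : (Ω → Q) →* L} {μQ : q.ker →* ℂˣ} {π1 : L1 →* K1}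
  {μ1 : π1.ker →* ℂˣ} {ι : Q →* L1} {M : Subgroup K} {M1 : Subgroup K1}

open Classical in
/-- The sum of the values of `W` at the elements which belong to `z`. -/
noncomputable def u0 (ε : (Ω → Q) →* L) (W : (Ω → Q) → ℤ) (l z : L) : ℤ :=
  ∑ n : Ω → Q, if l * ε n = z then W n else 0

theorem u0_civ (h : WD π μ φ q α ε μQ) {l : L} (hl : (φ (π l)).right = 1)
    {W : (Ω → Q) → ℤ}
    (hW : ∀ a n : Ω → Q, W (fun o => α ((φ (π l)).left o)⁻¹ (a o) * n o * (a o)⁻¹) = W n) :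
    CIv ((NN' π ε).comap π) (u0 ε W l) := by
  classical
  intro s hs z
  obtain ⟨a, rfl⟩ := (mem_comap_NN h).mp hs
  unfold u0
  let b : Ω → Q := fun o => α ((φ (π l)).left o)⁻¹ (a o)
  have hb : ε a * l = l * ε b := by
    rw [← inv_conj_ε h l hl a]
    group
  refine (Fintype.sum_equiv ((Equiv.mulLeft b).trans (Equiv.mulRight a⁻¹)) _ _ ?_).symm
  intro n
  have e1 : ((Equiv.mulLeft b).trans (Equiv.mulRight a⁻¹)) n = b * n * a⁻¹ := rfl
  rw [e1]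
  have e2 : W (b * n * a⁻¹) = W n := hW a n
  rw [e2]
  have e3 : l * ε (b * n * a⁻¹) = ε a * (l * ε n) * (ε a)⁻¹ := by
    rw [map_mul, map_mul, map_inv, ← mul_assoc, ← mul_assoc, ← hb]
    group
  rw [e3]
  refine if_congr ?_ rfl rfl
  constructor
  · intro h2
    rw [h2]
  · intro h2
    exact mul_left_cancel (mul_right_cancel h2)

theorem u0_son (l : L) (W : (Ω → Q) → ℤ) : SOn {y | π (l⁻¹ * y) ∈ NN' π ε} (u0 ε W l) := by
  classical
  intro y hy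
  unfold u0
  refine Finset.sum_eq_zero fun n _ => ?_
  rw [if_neg]
  intro h2
  apply hy
  change π (l⁻¹ * y) ∈ NN' π ε
  rw [← h2, inv_mul_cancel_left]
  exact ⟨ε n, ⟨n, rfl⟩, rfl⟩

open Classical in
theorem sum_u0 (l : L) (W : (Ω → Q) → ℤ) (f : L → ℂ) :
    ∑ z, ((u0 ε W l z : ℤ) : ℂ) * f z = ∑ n : Ω → Q, ((W n : ℤ) : ℂ) * f (l * ε n) := by
  classical
  have h1 : ∀ z, ((u0 ε W l z : ℤ) : ℂ) * f z =
      ∑ n : Ω → Q, if l * ε n = z then ((W n : ℤ) : ℂ) * f (l * ε n) else 0 := by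
    intro z
    unfold u0
    rw [Int.cast_sum, Finset.sum_mul]
    refine Finset.sum_congr rfl fun n _ => ?_
    split_ifs with h2
    · rw [h2]
    · rw [Int.cast_zero, zero_mul]
  rw [Finset.sum_congr rfl fun z _ => h1 z, Finset.sum_comm]
  refine Finset.sum_congr rfl fun n _ => ?_
  rw [Finset.sum_ite_eq, if_pos (Finset.mem_univ _)]

/-- The product of the values at the coordinates does not depend on the preimage. -/
theorem prod_ker (h : WD π μ φ q α ε μQ) (h1 : LD q α μQ π1 μ1 ι) {F : L1 → ℂ}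
    (oF : Ov π1 μ1 F) (g : Ω → L1) (m : Ω → Q) {k : Ω → Q} (hk : ε k = 1) :
    ∏ o, F (g o * ι ((m * k) o)) = ∏ o, F (g o * ι (m o)) := by
  obtain ⟨hn, hp⟩ := (ε_eq_one h).mp hk
  have h2 : ∀ o, F (g o * ι ((m * k) o)) = ((μQ ⟨k o, hn o⟩ : ℂˣ) : ℂ) * F (g o * ι (m o)) := by
    intro o
    have hz : ι (k o) ∈ π1.ker := (ι_ker h1).mpr (hn o)
    have h3 : g o * ι ((m * k) o) = ι (k o) * (g o * ι (m o)) := by
      rw [kerπ1_comm h1 hz, Pi.mul_apply, map_mul, mul_assoc]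
    have h4 := oF ⟨ι (k o), hz⟩ (g o * ι (m o))
    rw [h1.μι ⟨k o, hn o⟩ hz] at h4
    rw [h3]
    exact h4
  rw [Finset.prod_congr rfl fun o _ => h2 o, Finset.prod_mul_distrib, ← Units.coe_prod, hp,
    Units.val_one, one_mul]

open Classical in
theorem psm_u0 [Fintype L1] (h : WD π μ φ q α ε μQ) (h1 : LD q α μQ π1 μ1 ι) {F : L1 → ℂ}
    (oF : Ov π1 μ1 F) (x : L × Gam (Equiv.Perm Ω) Ω L1) (W : (Ω → Q) → ℤ) :
    psm ε ι F (u0 ε W x.1) x =
      (∑ n : Ω → Q, ((W n : ℤ) : ℂ) * ∏ o, F (x.2.left o * ι (n o))) /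
        F 1 ^ Fintype.card Ω := by
  classical
  have hc : (Nat.card ε.ker : ℂ) ≠ 0 := by
    have : Nat.card ε.ker ≠ 0 := Nat.card_pos.ne'
    exact_mod_cast this
  unfold psm
  have h2 : ∀ m : Ω → Q, ∑ n : Ω → Q, (if x.1 * ε m = x.1 * ε n then
      ((W m : ℤ) : ℂ) * ∏ o, F (x.2.left o * ι (n o)) else 0) =
      (Nat.card ε.ker : ℂ) * (((W m : ℤ) : ℂ) * ∏ o, F (x.2.left o * ι (m o))) := by
    intro m
    have h3 : ∑ n : Ω → Q, (if x.1 * ε m = x.1 * ε n then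
        ((W m : ℤ) : ℂ) * ∏ o, F (x.2.left o * ι (n o)) else 0) =
        ∑ k : Ω → Q, if k ∈ ε.ker then
          ((W m : ℤ) : ℂ) * ∏ o, F (x.2.left o * ι (m o)) else 0 := by
      refine (Fintype.sum_equiv (Equiv.mulLeft m) _ _ ?_).symm
      intro k
      have e1 : Equiv.mulLeft m k = m * k := rfl
      rw [e1]
      by_cases hk : k ∈ ε.ker
      · rw [if_pos hk, if_pos, prod_ker h h1 oF _ m (MonoidHom.mem_ker.mp hk)]
        rw [map_mul, MonoidHom.mem_ker.mp hk, mul_one]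
      · rw [if_neg hk, if_neg]
        intro hcon
        apply hk
        rw [map_mul] at hcon
        have h4 := mul_left_cancel hcon
        rw [MonoidHom.mem_ker]
        exact mul_eq_left.mp h4.symm
    rw [h3, ← Finset.sum_filter, Finset.sum_const, nsmul_eq_mul]
    congr 2
    rw [Nat.card_eq_fintype_card, Fintype.card_subtype]
  have h3 : ∑ n : Ω → Q, ((u0 ε W x.1 (x.1 * ε n) : ℤ) : ℂ) * ∏ o, F (x.2.left o * ι (n o)) =
      (Nat.card ε.ker : ℂ) *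
        ∑ n : Ω → Q, ((W n : ℤ) : ℂ) * ∏ o, F (x.2.left o * ι (n o)) := by
    rw [Finset.mul_sum, ← Finset.sum_congr rfl fun m _ => h2 m, Finset.sum_comm]
    refine Finset.sum_congr rfl fun n _ => ?_
    unfold u0
    rw [Int.cast_sum, Finset.sum_mul]
    refine Finset.sum_congr rfl fun m _ => ?_
    split_ifs with h4
    · rfl
    · rw [Int.cast_zero, zero_mul]
  rw [h3, mul_div_mul_left _ _ hc]

open Classical in
theorem prod_form (w : Ω → Q → ℤ) (F : L1 → ℂ) (g : Ω → L1) :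
    (∑ n : Ω → Q, (((∏ o, w o (n o) : ℤ)) : ℂ) * ∏ o, F (g o * ι (n o))) /
        F 1 ^ Fintype.card Ω =
      ∏ o, ∑ n, ((w o n : ℤ) : ℂ) * (F (g o * ι n) / F 1) := by
  classical
  rw [Finset.prod_univ_sum, Fintype.piFinset_univ, Finset.sum_div]
  refine Finset.sum_congr rfl fun n _ => ?_
  rw [Finset.prod_mul_distrib, Finset.prod_div_distrib, Finset.prod_const, Finset.card_univ,
    Int.cast_prod, mul_div_assoc]

end Fu

/-! ### The scalars of `θ` -/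

section Th

variable {L K K1 Q L1 Ω : Type} [Group L] [Fintype L] [Group K] [Group K1] [Group Q] [Fintype Q]
  [Group L1] [Fintype L1] [Fintype Ω] {ℓ : ℕ} {π : L →* K} {μ : π.ker →* ℂˣ}
  {φ : K →* Gam (Equiv.Perm Ω) Ω K1} {q : Q →* K1} {α : K1 →* MulAut Q} {ε : (Ω → Q) →* L}
  {μQ : q.ker →* ℂˣ} {π1 : L1 →* K1} {μ1 : π1.ker →* ℂˣ} {ι : Q →* L1} {M : Subgroup K}
  {M1 : Subgroup K1} {ζ : L × Gam (Equiv.Perm Ω) Ω L1 → ℂ} {S : Subgroup K1} {F : L1 → ℂ}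
  {θ : L → ℂ}

theorem zeta_conj (hζ : ZT π φ π1 μ1 ε ι M ζ) {y : L × Gam (Equiv.Perm Ω) Ω L1}
    (hy : y ∈ MY π φ π1 M) (x : L × Gam (Equiv.Perm Ω) Ω L1) : ζ (y * x * y⁻¹) = ζ x :=
  DPT.BTR.IrrOn_class hζ.irr hy x

/-- Every coset contains an element which stabilizes `θ`. -/
theorem exists_conj (h : WD π μ φ q α ε μQ) (h1 : LD q α μQ π1 μ1 ι)
    (hm : MM ℓ π φ q ε M M1) (hF : EF π1 q.range M1 S F) (hζ : ZT π φ π1 μ1 ε ι M ζ)
    (hθ : TP π φ π1 M F ζ θ) {m : L} (hmM : π m ∈ M) :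
    ∃ n : Ω → Q, ∀ l, θ ((m * ε n) * l * (m * ε n)⁻¹) = θ l := by
  classical
  have hq := normal_range h
  have hM := hm.nm
  have h2 : ∀ o, ∃ a : Q, (φ (π m)).left o * q a ∈ S := by
    intro o
    have h3 : (φ (π m)).left o ∈ S ⊔ q.range := by
      rw [sup_comm]
      exact hF.cov (hm.l _ hmM o)
    rw [← SetLike.mem_coe, Subgroup.mul_normal] at h3
    obtain ⟨s, hs, _, ⟨a, rfl⟩, hsa⟩ := Set.mem_mul.mp h3
    refine ⟨a⁻¹, ?_⟩
    rw [← hsa, map_inv, mul_inv_cancel_right]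
    exact hs
  choose n hn using h2
  refine ⟨n, ?_⟩
  obtain ⟨g, hg⟩ := exists_YY (π := π) (φ := φ) h1 (m * ε n)
  have htM : π (m * ε n) ∈ M := by
    rw [map_mul]
    exact M.mul_mem hmM (hm.le (πε_mem h n))
  have hy : ((m * ε n, g) : L × Gam (Equiv.Perm Ω) Ω L1) ∈ MY π φ π1 M := ⟨hg, htM⟩
  have hgr : g.right = 1 := MY_right hm hy
  have hgS : ∀ o, g.left o ∈ AL π1 M1 S := by
    intro o
    have h3 := MY_left hm hy o
    refine ⟨h3, ?_⟩
    have h4 : π1 (g.left o) = (φ (π m)).left o * q (n o) := by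
      rw [← YY_left hg o]
      change (φ (π (m * ε n))).left o = _
      rw [map_mul, map_mul, mul_left, hm.r _ hmM]
      rw [φε_left h]
      rfl
    change π1 (g.left o) ∈ S
    rw [h4]
    exact hn o
  intro l
  by_cases hl : π l ∈ M
  · obtain ⟨g', hg'⟩ := exists_YY (π := π) (φ := φ) h1 l
    have hx : ((l, g') : L × Gam (Equiv.Perm Ω) Ω L1) ∈ MY π φ π1 M := ⟨hg', hl⟩
    have hxr : g'.right = 1 := MY_right hm hx
    have e1 := hθ.2 _ hx
    have e2 := hθ.2 _ (MY_normal M hM hg hx)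
    rw [zeta_conj hζ hy] at e2
    change θ (m * ε n * l * (m * ε n)⁻¹) = (∏ o, F ((g * g' * g⁻¹).left o)) * ζ (l, g') at e2
    change θ l = (∏ o, F (g'.left o)) * ζ (l, g') at e1
    rw [e1, e2]
    congr 1
    refine Finset.prod_congr rfl fun o _ => ?_
    rw [conj_left _ _ hxr, hgr]
    exact DPT.BTR.IrrOn_class hF.irr (hgS o) _
  · rw [hθ.1 l hl, hθ.1]
    intro hcon
    apply hl
    have h3 := hM.conj_mem _ hcon (π (m * ε n))⁻¹
    have h4 : (π (m * ε n))⁻¹ * π (m * ε n * l * (m * ε n)⁻¹) * (π (m * ε n))⁻¹⁻¹ = π l := by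
      rw [← map_inv, ← map_inv, ← map_mul, ← map_mul]
      congr 1
      group
    rwa [h4] at h3

open Classical in
theorem lam (h : WD π μ φ q α ε μQ) (h1 : LD q α μQ π1 μ1 ι)
    (hm : MM ℓ π φ q ε M M1) (hF : EF π1 q.range M1 S F) (hζ : ZT π φ π1 μ1 ε ι M ζ)
    (hθ : TP π φ π1 M F ζ θ) {x : L × Gam (Equiv.Perm Ω) Ω L1} (hx : x ∈ MY π φ π1 M)
    {W : (Ω → Q) → ℤ} (hW : CIv ((NN' π ε).comap π) (u0 ε W x.1)) :
    ∑ l, ((RIU.av ((NN' π ε).comap π) (M.comap π) (u0 ε W x.1) l : ℤ) : ℂ) * θ l =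
      (Nat.card (↥(M.comap π) ⧸ ((NN' π ε).comap π).subgroupOf (M.comap π)) : ℂ) *
        ((∑ n : Ω → Q, ((W n : ℤ) : ℂ) * ∏ o, F (x.2.left o * ι (n o))) * ζ x) := by
  have e1 : ∀ l, ((RIU.av ((NN' π ε).comap π) (M.comap π) (u0 ε W x.1) l : ℤ) : ℂ) * θ l =
      ∑ c : ↥(M.comap π) ⧸ ((NN' π ε).comap π).subgroupOf (M.comap π),
        ((u0 ε W x.1 ((c.out : L)⁻¹ * l * c.out) : ℤ) : ℂ) * θ l := by
    intro l
    unfold RIU.av
    rw [Int.cast_sum, Finset.sum_mul]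
  have e2 : ∀ m : L, π m ∈ M → ∑ l, ((u0 ε W x.1 (m⁻¹ * l * m) : ℤ) : ℂ) * θ l =
      ∑ l, ((u0 ε W x.1 l : ℤ) : ℂ) * θ l := by
    intro m hmM
    obtain ⟨n, hn⟩ := exists_conj h h1 hm hF hζ hθ hmM
    refine (Fintype.sum_equiv (MulAut.conj (m * ε n)).toEquiv _ _ ?_).symm
    intro l
    have h3 : (MulAut.conj (m * ε n)).toEquiv l = (m * ε n) * l * (m * ε n)⁻¹ := rfl
    rw [h3, hn l]
    have h4 : m⁻¹ * ((m * ε n) * l * (m * ε n)⁻¹) * m = ε n * l * (ε n)⁻¹ := by group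
    rw [h4, hW (ε n) (πε_mem h n)]
  rw [Finset.sum_congr rfl fun l _ => e1 l, Finset.sum_comm,
    Finset.sum_congr rfl fun c _ => e2 _ (show π ((c.out : ↥(M.comap π)) : L) ∈ M from c.out.2),
    Finset.sum_const, Finset.card_univ, ← Nat.card_eq_fintype_card, nsmul_eq_mul, sum_u0,
    Finset.sum_mul]
  congr 1
  refine Finset.sum_congr rfl fun n _ => ?_
  have hd : x * dY ε ι n ∈ MY π φ π1 M := Subgroup.mul_mem _ hx (dY_mem_MY h h1 hm.le n)
  have h3 := hθ.2 _ hd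
  rw [hζ.d] at h3
  change θ (x.1 * ε n) = _ at h3
  rw [h3, ← mul_assoc]
  congr 2
  refine Finset.prod_congr rfl fun o _ => ?_
  rw [mul_dY_left _ (MY_right hm hx)]

theorem theta_one (hθ : TP π φ π1 M F ζ θ) : θ 1 = F 1 ^ Fintype.card Ω * ζ 1 := by
  have h2 := hθ.2 1 (Subgroup.one_mem _)
  change θ 1 = (∏ _o : Ω, F 1) * ζ 1 at h2
  rw [h2, Finset.prod_const, Finset.card_univ]

/-! ### The group `MY` -/

/-- The projection to `K`. -/
def fE (π : L →* K) (φ : K →* Gam (Equiv.Perm Ω) Ω K1) (π1 : L1 →* K1) (M : Subgroup K) :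
    ↥(MY π φ π1 M) →* K :=
  (π.comp (MonoidHom.fst L (Gam (Equiv.Perm Ω) Ω L1))).comp (MY π φ π1 M).subtype

theorem fE_range (h : WD π μ φ q α ε μQ) (h1 : LD q α μQ π1 μ1 ι) :
    (fE π φ π1 M).range = M := by
  ext m
  constructor
  · rintro ⟨x, rfl⟩
    exact (mem_MY.mp x.2).2
  · intro hm
    obtain ⟨l, rfl⟩ := h.πs m
    obtain ⟨g, hg⟩ := exists_YY (π := π) (φ := φ) h1 l
    exact ⟨⟨(l, g), hg, hm⟩, rfl⟩

theorem index_E (h : WD π μ φ q α ε μQ) (h1 : LD q α μQ π1 μ1 ι) :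
    ((NN' π ε).comap (fE π φ π1 M)).index = (NN' π ε).relIndex M := by
  rw [Subgroup.index_comap, fE_range h h1]

/-- The elements above `N` act by the same scalars. -/
theorem scal (h : WD π μ φ q α ε μQ) (h1 : LD q α μQ π1 μ1 ι) (hm : MM ℓ π φ q ε M M1)
    {e : L × Gam (Equiv.Perm Ω) Ω L1} (he : e ∈ MY π φ π1 M) (hN : π e.1 ∈ NN' π ε) :
    ∃ c : ℂ, ∀ ζ, ZT π φ π1 μ1 ε ι M ζ → ∀ x ∈ MY π φ π1 M, ζ (x * e) = c * ζ x := by
  obtain ⟨n, z, rfl⟩ := MY_N h h1 he.1 hN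
  refine ⟨(∏ o, ((μ1 (z o) : ℂˣ) : ℂ))⁻¹, ?_⟩
  intro ζ hζ x hx
  have hd : x * dY ε ι n ∈ MY π φ π1 M := Subgroup.mul_mem _ hx (dY_mem_MY h h1 hm.le n)
  rw [← mul_assoc, ← z_comm h1 hm hd z]
  have h2 := hζ.z z (x * dY ε ι n)
  rw [hζ.d] at h2
  have h3 : (∏ o, ((μ1 (z o) : ℂˣ) : ℂ)) ≠ 0 :=
    Finset.prod_ne_zero_iff.mpr fun o _ => Units.ne_zero _
  rw [← h2, inv_mul_cancel_left₀ h3]

theorem zeta_one (hζ : ZT π φ π1 μ1 ε ι M ζ) : ζ 1 ≠ 0 :=
  hζ.irr.1.one_ne_zero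

theorem pair_coset (h : WD π μ φ q α ε μQ) (h1 : LD q α μQ π1 μ1 ι)
    (hm : MM ℓ π φ q ε M M1) {ζ ζ' : L × Gam (Equiv.Perm Ω) Ω L1 → ℂ}
    (hζ : ZT π φ π1 μ1 ε ι M ζ) (hζ' : ZT π φ π1 μ1 ε ι M ζ')
    {e x : L × Gam (Equiv.Perm Ω) Ω L1} (he : e ∈ MY π φ π1 M) (hN : π e.1 ∈ NN' π ε)
    (hx : x ∈ MY π φ π1 M) : ζ (x * e) * ζ' (x * e)⁻¹ = ζ x * ζ' x⁻¹ := by
  obtain ⟨c, hc⟩ := scal h h1 hm he hN
  have hN' : π (e⁻¹).1 ∈ NN' π ε := by
    change π (e.1⁻¹) ∈ NN' π ε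
    rw [map_inv]
    exact Subgroup.inv_mem _ hN
  obtain ⟨c', hc'⟩ := scal h h1 hm (Subgroup.inv_mem _ he) hN'
  have h2 : c * c' = 1 := by
    have h3 := hc ζ' hζ' e⁻¹ (Subgroup.inv_mem _ he)
    have h4 := hc' ζ' hζ' 1 (Subgroup.one_mem _)
    rw [inv_mul_cancel] at h3
    rw [one_mul] at h4
    rw [h4, ← mul_assoc] at h3
    exact (mul_eq_right₀ (zeta_one hζ')).mp h3.symm
  have h3 : ζ' (x * e)⁻¹ = c' * ζ' x⁻¹ := by
    rw [← hc' ζ' hζ' x⁻¹ (Subgroup.inv_mem _ hx), ← zeta_conj hζ' he (x * e)⁻¹]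
    congr 1
    group
  rw [hc ζ hζ x hx, h3]
  linear_combination (ζ x * ζ' x⁻¹) * h2

/-- The degree is prime to `ℓ`. -/
theorem deg_prime [Fact ℓ.Prime] (h : WD π μ φ q α ε μQ) (h1 : LD q α μQ π1 μ1 ι)
    (hm : MM ℓ π φ q ε M M1) (hζ : ZT π φ π1 μ1 ε ι M ζ) : ∃ d : ℕ, ζ 1 = d ∧ ¬ ℓ ∣ d := by
  classical
  have hNn := normal_NN h
  let E : Subgroup ↥(MY π φ π1 M) := (NN' π ε).comap (fE π φ π1 M)
  have hEn : E.Normal := Subgroup.normal_comap _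
  have hidx : ¬ ℓ ∣ E.index := by
    rw [index_E h h1]
    exact hm.cop
  have hz1 := zeta_one hζ
  have hsc : ∀ e : E, ∀ x : ↥(MY π φ π1 M), ζ (x * (e : ↥(MY π φ π1 M))) =
      ζ (e : ↥(MY π φ π1 M)) / ζ 1 * ζ x := by
    intro e x
    obtain ⟨c, hc⟩ := scal h h1 hm (e : ↥(MY π φ π1 M)).2 e.2
    have h2 := hc ζ hζ 1 (Subgroup.one_mem _)
    rw [one_mul] at h2
    rw [hc ζ hζ x x.2, h2, mul_div_cancel_right₀ _ hz1]
  let κ0 : E →* ℂ :=
    { toFun := fun e => ζ (e : ↥(MY π φ π1 M)) / ζ 1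
      map_one' := div_self hz1
      map_mul' := by
        intro a b
        have h2 := hsc b a
        change ζ (((a : ↥(MY π φ π1 M)) : L × Gam (Equiv.Perm Ω) Ω L1) *
          (b : ↥(MY π φ π1 M))) / ζ 1 = _
        rw [h2]
        ring }
  let κ : E →* ℂˣ := MonoidHom.toHomUnits κ0
  have hκ : IsIrr (fun e : E => ((κ e : ℂˣ) : ℂ)) := DP.EXTAR.isIrr_lin κ
  have hres : ∀ e : E, resj E.subtype (fun s : ↥(MY π φ π1 M) => ζ s) e =
      ζ 1 * ((κ e : ℂˣ) : ℂ) := by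
    intro e
    change ζ (e : ↥(MY π φ π1 M)) = ζ 1 * (ζ (e : ↥(MY π φ π1 M)) / ζ 1)
    rw [mul_div_cancel₀ _ hz1]
  have hip : ip (resj E.subtype (fun s : ↥(MY π φ π1 M) => ζ s))
      (fun e : E => ((κ e : ℂˣ) : ℂ)) ≠ 0 := by
    have h2 : ip (resj E.subtype (fun s : ↥(MY π φ π1 M) => ζ s))
        (fun e : E => ((κ e : ℂˣ) : ℂ)) = ζ 1 := by
      unfold ip
      rw [Finset.sum_congr rfl fun e _ => by rw [hres e, mul_assoc], ← Finset.mul_sum,
        hκ.sum_self, mul_div_cancel_right₀ _ natCard_ne_zero]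
    rw [h2]
    exact hz1
  have hdgi := DGI_thm ↥(MY π φ π1 M) ℓ E hidx _ _ hζ.irr.1 hκ hip
    (padicValNat ℓ (Nat.card E))
  obtain ⟨n, hn, hn'⟩ := hdgi.mpr ⟨1, by
    change ((κ 1 : ℂˣ) : ℂ) = ((1 : ℕ) : ℂ)
    rw [map_one, Units.val_one, Nat.cast_one], by
    rw [padicValNat_one_right, add_zero]⟩
  refine ⟨n, hn, ?_⟩
  have hn0 : n ≠ 0 := by
    rintro rfl
    apply hz1
    rw [Nat.cast_zero] at hn
    exact hn
  rw [← Subgroup.card_mul_index E, padicValNat.mul Nat.card_pos.ne'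
    Subgroup.index_ne_zero_of_finite, padicValNat.eq_zero_of_not_dvd hidx, add_zero] at hn'
  intro hdvd
  have h3 := one_le_padicValNat_of_dvd hn0 hdvd
  omega

end Th

/-! ### The congruences -/

section Key

variable {L K K1 Q L1 Ω : Type} [Group L] [Fintype L] [Group K] [Fintype K] [Group K1]
  [Fintype K1] [Group Q] [Fintype Q] [Group L1] [Fintype L1] [Fintype Ω]
  {𝔐 : Ideal (integralClosure ℤ ℂ)} {ℓ : ℕ} [Fact ℓ.Prime] {π : L →* K} {μ : π.ker →* ℂˣ}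
  {φ : K →* Gam (Equiv.Perm Ω) Ω K1} {q : Q →* K1} {α : K1 →* MulAut Q} {ε : (Ω → Q) →* L}
  {μQ : q.ker →* ℂˣ} {π1 : L1 →* K1} {μ1 : π1.ker →* ℂˣ} {ι : Q →* L1} {M : Subgroup K}
  {M1 : Subgroup K1}

theorem red_prod (s : Finset Ω) (f : Ω → ℂ) (hf : ∀ o, IsIntegral ℤ (f o)) :
    IsIntegral ℤ (∏ o ∈ s, f o) ∧ red 𝔐 (∏ o ∈ s, f o) = ∏ o ∈ s, red 𝔐 (f o) := by
  classical
  induction s using Finset.induction_on with
  | empty =>
    rw [Finset.prod_empty, Finset.prod_empty, red_one]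
    exact ⟨isIntegral_one, rfl⟩
  | insert a s ha ih =>
    rw [Finset.prod_insert ha, Finset.prod_insert ha]
    exact ⟨(hf a).mul ih.1, by rw [red_mul _ (hf a) ih.1, ih.2]⟩

theorem alg {k A B z y : ℂ} (hB : B ≠ 0) (hz : z ≠ 0) :
    k * (A * y) / (B * z) * z = k * (A / B * y) := by
  field_simp

theorem zeta_int {ζ : L × Gam (Equiv.Perm Ω) Ω L1 → ℂ} (hζ : ZT π φ π1 μ1 ε ι M ζ)
    {x : L × Gam (Equiv.Perm Ω) Ω L1} (hx : x ∈ MY π φ π1 M) : IsIntegral ℤ (ζ x) :=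
  isIntegral_char hζ.irr.1 ⟨x, hx⟩

theorem key (hPRF : Stmt_PRF) (hmax : 𝔐.IsMaximal) (hℓ : (ℓ : integralClosure ℤ ℂ) ∈ 𝔐)
    (h : WD π μ φ q α ε μQ) (h1 : LD q α μQ π1 μ1 ι) (hm : MM ℓ π φ q ε M M1)
    {S S' : Subgroup K1} {F F' : L1 → ℂ} (hF : EF π1 q.range M1 S F)
    (hF' : EF π1 q.range M1 S' F') (oF : Ov π1 μ1 F) (oF' : Ov π1 μ1 F')
    (hS : SUP 𝔐 π1 q.range M1 F)
    (hu : ∀ u : L1 → ℤ, CIv (q.range.comap π1) u → sc 𝔐 F u = sc 𝔐 F' u)
    {ζ ζ' : L × Gam (Equiv.Perm Ω) Ω L1 → ℂ} (hζ : ZT π φ π1 μ1 ε ι M ζ)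
    (hζ' : ZT π φ π1 μ1 ε ι M ζ') {T T' : Subgroup K} {θ θ' : L → ℂ}
    (hi : IrrOn (AL π M T) θ) (hi' : IrrOn (AL π M T') θ') (hθ : TP π φ π1 M F ζ θ)
    (hθ' : TP π φ π1 M F' ζ' θ')
    (hsc : ∀ u : L → ℤ, CIv (M.comap π) u → SOn (M.comap π : Set L) u →
      sc 𝔐 θ u = sc 𝔐 θ' u) {x : L × Gam (Equiv.Perm Ω) Ω L1} (hx : x ∈ MY π φ π1 M) :
    red 𝔐 (ζ x) * red 𝔐 (ζ' 1) = red 𝔐 (ζ' x) * red 𝔐 (ζ 1) := by
  classical
  have hprime : 𝔐.IsPrime := hmax.isPrime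
  have hq := normal_range h
  have hNn := normal_NN h
  have hMn := hm.nm
  have hw := fun o => exists_w hq h1 hm.le1 hF oF hS (MY_left hm hx o)
  choose w hw1 hw2 hw3 using hw
  let W : (Ω → Q) → ℤ := fun n => ∏ o, w o (n o)
  have hW : ∀ a n : Ω → Q,
      W (fun o => α ((φ (π x.1)).left o)⁻¹ (a o) * n o * (a o)⁻¹) = W n := by
    intro a n
    refine Finset.prod_congr rfl fun o _ => ?_
    change w o (α ((φ (π x.1)).left o)⁻¹ (a o) * n o * (a o)⁻¹) = w o (n o)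
    rw [YY_left (MY_le hx)]
    exact hw1 o (a o) (n o)
  have hciv : CIv ((NN' π ε).comap π) (u0 ε W x.1) := u0_civ h (hm.r _ hx.2) hW
  obtain ⟨hi1, hi2, hr⟩ := hPRF L K K1 Q L1 Ω 𝔐 ℓ hmax hℓ π μ φ q α ε μQ π1 μ1 ι M M1 h h1 hm
    S S' F F' hF hF' oF oF' hu x hx (u0 ε W x.1) hciv
  have hne : red 𝔐 (psm ε ι F (u0 ε W x.1) x) ≠ 0 := by
    rw [psm_u0 h h1 oF, prod_form, (red_prod _ _ hw2).2]
    exact Finset.prod_ne_zero_iff.mpr fun o _ => hw3 o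
  set P := psm ε ι F (u0 ε W x.1) x with hP
  set P' := psm ε ι F' (u0 ε W x.1) x with hP'
  set k := Nat.card (↥(M.comap π) ⧸ ((NN' π ε).comap π).subgroupOf (M.comap π)) with hk
  have hk0 : red 𝔐 (k : ℂ) ≠ 0 := by
    refine RIU.red_nat_ne hℓ ?_
    rw [hk, RIU.idx_top h.πs]
    exact hm.cop
  let u : L → ℤ := RIU.av ((NN' π ε).comap π) (M.comap π) (u0 ε W x.1)
  have huc : CIv (M.comap π) u := RIU.av_civ inferInstance hciv
  have hus : SOn (M.comap π : Set L) u := RIU.av_son hm.le (t := x.1) hx.2 (u0_son x.1 W)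
  have gen : ∀ {S0 : Subgroup K1} {F0 : L1 → ℂ} {ζ0 : L × Gam (Equiv.Perm Ω) Ω L1 → ℂ}
      {T0 : Subgroup K} {θ0 : L → ℂ}, EF π1 q.range M1 S0 F0 → Ov π1 μ1 F0 →
      ZT π φ π1 μ1 ε ι M ζ0 → IrrOn (AL π M T0) θ0 → TP π φ π1 M F0 ζ0 θ0 →
      IsIntegral ℤ (psm ε ι F0 (u0 ε W x.1) x) →
      sc 𝔐 θ0 u * red 𝔐 (ζ0 1) =
        red 𝔐 (k : ℂ) * (red 𝔐 (psm ε ι F0 (u0 ε W x.1) x) * red 𝔐 (ζ0 x)) := by
    intro S0 F0 ζ0 T0 θ0 hF0 oF0 hζ0 hi0 hθ0 hint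
    have hr0 : IsIntegral ℤ ((∑ l, ((u l : ℤ) : ℂ) * θ0 l) / θ0 1) := by
      refine RIU.lam_int h.πs le_rfl (N := M) (M := M) (S := T0) ⟨hi0, hi0.1, le_sup_left⟩
        huc (t := 1) (by rw [map_one]; exact M.one_mem) ?_
      intro y hy
      apply hus
      intro hcon
      apply hy
      change π (1⁻¹ * y) ∈ M
      rw [inv_one, one_mul]
      exact hcon
    have hF1 : F0 1 ≠ 0 := hF0.irr.1.one_ne_zero
    have hF2 : F0 1 ^ Fintype.card Ω ≠ 0 := pow_ne_zero _ hF1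
    have hz := zeta_one hζ0
    have hz1 := zeta_int hζ0 (Subgroup.one_mem _)
    have hzx := zeta_int hζ0 hx
    have heq : (∑ l, ((u l : ℤ) : ℂ) * θ0 l) / θ0 1 * ζ0 1 =
        (k : ℂ) * (psm ε ι F0 (u0 ε W x.1) x * ζ0 x) := by
      rw [psm_u0 h h1 oF0, theta_one hθ0]
      change (∑ l, ((RIU.av ((NN' π ε).comap π) (M.comap π) (u0 ε W x.1) l : ℤ) : ℂ) * θ0 l) /
        (F0 1 ^ Fintype.card Ω * ζ0 1) * ζ0 1 = _
      rw [lam h h1 hm hF0 hζ0 hθ0 hx hciv]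
      exact alg hF2 hz
    unfold sc
    rw [← red_mul _ hr0 hz1, heq, red_mul _ (Lib_helper13.isIntegral_natCast k) (hint.mul hzx),
      red_mul _ hint hzx]
  have g1 := gen hF oF hζ hi hθ hi1
  have g2 := gen hF' oF' hζ' hi' hθ' hi2
  have hfin : red 𝔐 (k : ℂ) * (red 𝔐 P * (red 𝔐 (ζ x) * red 𝔐 (ζ' 1))) =
      red 𝔐 (k : ℂ) * (red 𝔐 P * (red 𝔐 (ζ' x) * red 𝔐 (ζ 1))) := by
    have e1 : red 𝔐 (k : ℂ) * (red 𝔐 P * (red 𝔐 (ζ x) * red 𝔐 (ζ' 1))) =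
        sc 𝔐 θ u * red 𝔐 (ζ 1) * red 𝔐 (ζ' 1) := by
      rw [g1]
      ring
    have e2 : red 𝔐 (k : ℂ) * (red 𝔐 P * (red 𝔐 (ζ' x) * red 𝔐 (ζ 1))) =
        sc 𝔐 θ' u * red 𝔐 (ζ' 1) * red 𝔐 (ζ 1) := by
      rw [g2, hr]
      ring
    rw [e1, e2, hsc u huc hus]
    ring
  exact mul_left_cancel₀ hne (mul_left_cancel₀ hk0 hfin)

end Key

end Pool.Agent.DPG.CMB

namespace Pool.Agent.DPG

open Pool.Agent.DP Pool.Agent.DPC Pool.Agent.DPM Pool.Agent.DPN Pool.Agent.DPF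
  Pool.Agent.Lib_helper13 Representation WDB CMB

theorem CMB_thm (h1 : Stmt_PRF) : Stmt_CMB := by
  intro L K K1 Q L1 Ω _ _ _ _ _ _ _ _ _ _ _ _ 𝔐 ℓ _ hmax hℓ π μ φ q α ε μQ π1 μ1 ι M M1 hwd
    hld hm S S' F F' hF hF' oF oF' hS hu ζ ζ' hζ hζ' T T' θ θ' hi hi' hθ hθ' hsc
  classical
  by_contra hne
  have hprime : 𝔐.IsPrime := hmax.isPrime
  have hNn := normal_NN hwd
  have hkey := fun x (hx : x ∈ MY π φ π1 M) => key h1 hmax hℓ hwd hld hm hF hF' oF oF' hS hu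
    hζ hζ' hi hi' hθ hθ' hsc hx
  have hne' : (fun s : ↥(MY π φ π1 M) => ζ s) ≠ (fun s : ↥(MY π φ π1 M) => ζ' s) := by
    intro hcon
    apply hne
    funext x
    by_cases hx : x ∈ MY π φ π1 M
    · exact congrFun hcon ⟨x, hx⟩
    · rw [hζ.irr.2 x hx, hζ'.irr.2 x hx]
  have h0 := hζ.irr.1.sum_ne hζ'.irr.1 hne'
  have h2 := hζ'.irr.1.sum_self
  let E : Subgroup ↥(MY π φ π1 M) := (NN' π ε).comap (fE π φ π1 M)
  have hidx : ¬ ℓ ∣ E.index := by
    rw [index_E hwd hld]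
    exact hm.cop
  have hfq : Fintype (↥(MY π φ π1 M) ⧸ E) := Fintype.ofFinite _
  have hE0 : (Nat.card E : ℂ) ≠ 0 := natCard_ne_zero
  rw [sum_cosets E _ (fun t s hs => pair_coset hwd hld hm hζ hζ' s.2 hs t.2)] at h0
  rw [sum_cosets E _ (fun t s hs => pair_coset hwd hld hm hζ' hζ' s.2 hs t.2)] at h2
  have h3 : ∑ c : ↥(MY π φ π1 M) ⧸ E, ζ c.out * ζ' (c.out)⁻¹ = 0 :=
    (mul_eq_zero.mp h0).resolve_left hE0
  have h4 : ∑ c : ↥(MY π φ π1 M) ⧸ E, ζ' c.out * ζ' (c.out)⁻¹ = (E.index : ℂ) := by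
    rw [← Subgroup.card_mul_index E, Nat.cast_mul] at h2
    exact mul_left_cancel₀ hE0 h2
  have hI : ∀ c : ↥(MY π φ π1 M) ⧸ E, IsIntegral ℤ (ζ (c.out : L × Gam (Equiv.Perm Ω) Ω L1)) :=
    fun c => zeta_int hζ c.out.2
  have hI' : ∀ c : ↥(MY π φ π1 M) ⧸ E,
      IsIntegral ℤ (ζ' (c.out : L × Gam (Equiv.Perm Ω) Ω L1)) :=
    fun c => zeta_int hζ' c.out.2
  have hI2 : ∀ c : ↥(MY π φ π1 M) ⧸ E,
      IsIntegral ℤ (ζ' (c.out : L × Gam (Equiv.Perm Ω) Ω L1)⁻¹) :=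
    fun c => zeta_int hζ' (Subgroup.inv_mem _ c.out.2)
  obtain ⟨d, hd, hd'⟩ := deg_prime hwd hld hm hζ
  have e3 := congrArg (red 𝔐) h3
  have e4 := congrArg (red 𝔐) h4
  rw [red_sum _ _ _ fun c _ => (hI c).mul (hI2 c), red_zero] at e3
  rw [red_sum _ _ _ fun c _ => (hI' c).mul (hI2 c)] at e4
  have e5 : red 𝔐 (ζ 1) * red 𝔐 (E.index : ℂ) = 0 := by
    rw [← e4, Finset.mul_sum]
    have e6 : (∑ c : ↥(MY π φ π1 M) ⧸ E, red 𝔐 (ζ c.out * ζ' (c.out)⁻¹)) *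
        red 𝔐 (ζ' 1) = 0 := by
      rw [e3, zero_mul]
    rw [← e6, Finset.sum_mul]
    refine Finset.sum_congr rfl fun c _ => ?_
    rw [red_mul _ (hI c) (hI2 c), red_mul _ (hI' c) (hI2 c)]
    linear_combination (-red 𝔐 (ζ' (c.out : L × Gam (Equiv.Perm Ω) Ω L1)⁻¹)) *
      hkey c.out c.out.2
  rcases mul_eq_zero.mp e5 with e7 | e7
  · rw [hd] at e7
    exact RIU.red_nat_ne hℓ hd' e7
  · exact RIU.red_nat_ne hℓ hidx e7

end Pool.Agent.DPG


end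

section

/-!
# TOG: the chains which are not closed cancel
-/

namespace Pool.Agent.DPG

open Pool.Agent.DP Pool.Agent.DPC Pool.Agent.DPM Pool.Agent.DPN Pool.Agent.DPF
  Pool.Agent.DPK Pool.Agent.Lib_helper13 Representation
open Pool.Agent.Lib_helper13.Dade (pCore DadeHolds dadeSum)

namespace TOG

theorem sum_toggle' {α : Type*} [DecidableEq α] (C : Finset (Finset α))
    (E : Finset α → α) (F : Finset α → ℂ)
    (h1 : ∀ σ ∈ C, E σ ∉ σ →
      insert (E σ) σ ∈ C ∧ E (insert (E σ) σ) = E σ ∧ F (insert (E σ) σ) = F σ)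
    (h2 : ∀ σ ∈ C, E σ ∈ σ → σ.erase (E σ) ∈ C ∧ E (σ.erase (E σ)) = E σ) :
    ∑ σ ∈ C, (-1 : ℂ) ^ σ.card * F σ = 0 := by
  have h3 : ∀ σ ∈ C, E σ ∈ σ → F (σ.erase (E σ)) = F σ := by
    intro σ hσ h
    obtain ⟨h4, h5⟩ := h2 σ hσ h
    have h6 := (h1 _ h4 (by rw [h5]; exact Finset.notMem_erase _ _)).2.2
    rw [h5, Finset.insert_erase h] at h6
    exact h6.symm
  apply Finset.sum_involution (fun σ _ => if E σ ∈ σ then σ.erase (E σ) else insert (E σ) σ)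
  · intro σ hσ
    split_ifs with h
    · rw [h3 σ hσ h, Finset.card_erase_of_mem h]
      have h4 : 0 < σ.card := Finset.card_pos.mpr ⟨_, h⟩
      obtain ⟨n, hn⟩ : ∃ n, σ.card = n + 1 := ⟨σ.card - 1, by omega⟩
      rw [hn, Nat.add_sub_cancel, pow_succ]
      ring
    · rw [(h1 σ hσ h).2.2, Finset.card_insert_of_notMem h, pow_succ]
      ring
  · intro σ hσ _
    split_ifs with h
    · intro h4
      have h5 := Finset.notMem_erase (E σ) σ
      rw [h4] at h5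
      exact h5 h
    · intro h4
      apply h
      have h5 := Finset.mem_insert_self (E σ) σ
      rw [h4] at h5
      exact h5
  · intro σ hσ
    split_ifs with h
    · exact (h2 σ hσ h).1
    · exact (h1 σ hσ h).1
  · intro σ hσ
    by_cases h : E σ ∈ σ
    · simp only [h, if_true]
      rw [(h2 σ hσ h).2, if_neg (Finset.notMem_erase _ _), Finset.insert_erase h]
    · simp only [h, if_false]
      rw [(h1 σ hσ h).2.1, if_pos (Finset.mem_insert_self _ _), Finset.erase_insert h]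

/-- Cancellation for a closure operator on the subgroups of `N`. -/
theorem sum_cl {G : Type} [Group G] [Fintype G] [DecidableEq (Subgroup G)] (ℓ : ℕ)
    (N : Subgroup G) (c : Subgroup G → Subgroup G)
    (c1 : ∀ D ≤ N, D ≤ c D) (c2 : ∀ D, c D ≤ N) (c3 : ∀ D, c (c D) = c D)
    (c4 : ∀ D E, D ≤ E → c D ≤ c E) (c5 : ∀ D ≤ N, IsPGroup ℓ D → IsPGroup ℓ (c D))
    (F : Finset (Subgroup G) → ℂ)
    (hF : ∀ σ, ChN ℓ N σ → ∀ D ∈ σ, F (insert (c D) σ) = F σ)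
    (C0 C1 : Finset (Finset (Subgroup G))) (hC0 : ∀ σ, σ ∈ C0 ↔ ChN ℓ N σ)
    (hC1 : ∀ σ, σ ∈ C1 ↔ ChN ℓ N σ ∧ ∀ D ∈ σ, c D = D) :
    ∑ σ ∈ C0, (-1 : ℂ) ^ σ.card * F σ = ∑ σ ∈ C1, (-1 : ℂ) ^ σ.card * F σ := by
  classical
  have hCl : C1 = C0.filter (fun σ => ∀ D ∈ σ, c D = D) := by
    ext σ
    rw [hC1, Finset.mem_filter, hC0]
  rw [hCl, ← Finset.sum_filter_add_sum_filter_not C0 (fun σ => ∀ D ∈ σ, c D = D)]
  rw [add_eq_left]
  obtain ⟨C, hC⟩ : ∃ C : Finset (Finset (Subgroup G)),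
      C = C0.filter (fun σ => ¬ ∀ D ∈ σ, c D = D) := ⟨_, rfl⟩
  obtain ⟨T, hT⟩ : ∃ T : Finset (Subgroup G) → Subgroup G,
      ∀ σ, T σ = (σ.filter (fun D => c D ≠ D)).sup id := ⟨_, fun _ => rfl⟩
  rw [← hC]
  have hmem : ∀ σ ∈ C, T σ ∈ σ ∧ c (T σ) ≠ T σ := by
    intro σ hσ
    rw [hC, Finset.mem_filter, hC0] at hσ
    obtain ⟨h1, h2⟩ := hσ
    push Not at h2
    obtain ⟨D, hD, hD'⟩ := h2
    have h3 : T σ ∈ σ.filter (fun D => c D ≠ D) := by
      rw [hT]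
      apply sup_mem_of_chain
      · intro A hA B hB
        exact h1.1.total (Finset.mem_filter.mp hA).1 (Finset.mem_filter.mp hB).1
      · exact ⟨D, Finset.mem_filter.mpr ⟨hD, hD'⟩⟩
    rw [Finset.mem_filter] at h3
    exact h3
  have hins : ∀ σ, T (insert (c (T σ)) σ) = T σ := by
    intro σ
    rw [hT (insert (c (T σ)) σ), Finset.filter_insert, if_neg, ← hT]
    rw [not_not]
    exact c3 _
  have hers : ∀ σ, T (σ.erase (c (T σ))) = T σ := by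
    intro σ
    rw [hT (σ.erase (c (T σ))), Finset.filter_erase, Finset.erase_eq_of_notMem, ← hT]
    intro h
    exact (Finset.mem_filter.mp h).2 (c3 _)
  apply sum_toggle' C (fun σ => c (T σ)) F
  · intro σ hσ hn
    obtain ⟨h1, h2⟩ := hmem σ hσ
    have hσ' := hσ
    rw [hC, Finset.mem_filter, hC0] at hσ'
    have hTN : T σ ≤ N := hσ'.1.2 _ h1
    refine ⟨?_, by rw [hins], hF σ hσ'.1 _ h1⟩
    rw [hC, Finset.mem_filter, hC0]
    refine ⟨⟨hσ'.1.1.insert ?_ ?_ ?_, ?_⟩, ?_⟩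
    · exact c5 _ hTN (hσ'.1.1.1 _ h1).1
    · exact lt_of_lt_of_le (hσ'.1.1.1 _ h1).2 (c1 _ hTN)
    · intro D hD
      by_cases hDT : D ≤ T σ
      · left
        exact hDT.trans (c1 _ hTN)
      · right
        have h3 : T σ ≤ D := (hσ'.1.1.total hD h1).resolve_left hDT
        have h4 : c D = D := by
          by_contra h5
          apply hDT
          rw [hT]
          exact Finset.le_sup (f := id) (Finset.mem_filter.mpr ⟨hD, h5⟩)
        rw [← h4]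
        exact c4 _ _ h3
    · intro D hD
      rcases Finset.mem_insert.mp hD with rfl | hD
      · exact c2 _
      · exact hσ'.1.2 _ hD
    · intro h3
      exact h2 (h3 _ (Finset.mem_insert_of_mem h1))
  · intro σ hσ hm
    obtain ⟨h1, h2⟩ := hmem σ hσ
    have hσ' := hσ
    rw [hC, Finset.mem_filter, hC0] at hσ'
    refine ⟨?_, by rw [hers]⟩
    rw [hC, Finset.mem_filter, hC0]
    refine ⟨⟨hσ'.1.1.subset (Finset.erase_subset _ _), fun D hD =>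
      hσ'.1.2 _ (Finset.mem_of_mem_erase hD)⟩, ?_⟩
    intro h3
    exact h2 (h3 _ (Finset.mem_erase.mpr ⟨fun h4 => h2 h4.symm, h1⟩))

section Dat

variable {L K K1 Q Ω : Type} [Group L] [Group K] [Group K1] [Group Q] [Fintype Ω]
  {π : L →* K} {μ : π.ker →* ℂˣ} {φ : K →* Gam (Equiv.Perm Ω) Ω K1} {q : Q →* K1}
  {α : K1 →* MulAut Q} {ε : (Ω → Q) →* L} {μQ : q.ker →* ℂˣ}

theorem left_mul {a : K} (ha : (φ a).right = 1) (b : K) (o : Ω) :
    (φ (a * b)).left o = (φ a).left o * (φ b).left o := by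
  rw [map_mul, WDB.mul_left, ha]
  rfl

theorem left_inv {a : K} (ha : (φ a).right = 1) (o : Ω) :
    (φ a⁻¹).left o = ((φ a).left o)⁻¹ := by
  rw [map_inv, WDB.inv_left, ha]
  rfl

theorem right_mul {a b : K} (ha : (φ a).right = 1) (hb : (φ b).right = 1) :
    (φ (a * b)).right = 1 := by
  rw [map_mul, WDB.mul_right, ha, hb, one_mul]

theorem right_inv {a : K} (ha : (φ a).right = 1) : (φ a⁻¹).right = 1 := by
  rw [map_inv, WDB.inv_right, ha, inv_one]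

/-- The closure of a subgroup of `N`. -/
def cs (φ : K →* Gam (Equiv.Perm Ω) Ω K1) (N D : Subgroup K) : Subgroup K where
  carrier := {k | k ∈ N ∧ (φ k).right = 1 ∧
    ∀ o, ∃ d ∈ D, (φ d).right = 1 ∧ (φ d).left o = (φ k).left o}
  one_mem' := by
    refine ⟨N.one_mem, by rw [map_one]; rfl, fun o => ⟨1, D.one_mem, by rw [map_one]; rfl, rfl⟩⟩
  mul_mem' := by
    rintro a b ⟨ha1, ha2, ha3⟩ ⟨hb1, hb2, hb3⟩
    refine ⟨N.mul_mem ha1 hb1, right_mul ha2 hb2, fun o => ?_⟩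
    obtain ⟨d, hd, hd1, hd2⟩ := ha3 o
    obtain ⟨e, he, he1, he2⟩ := hb3 o
    exact ⟨d * e, D.mul_mem hd he, right_mul hd1 he1, by
      rw [left_mul hd1, left_mul ha2, hd2, he2]⟩
  inv_mem' := by
    rintro a ⟨ha1, ha2, ha3⟩
    refine ⟨N.inv_mem ha1, right_inv ha2, fun o => ?_⟩
    obtain ⟨d, hd, hd1, hd2⟩ := ha3 o
    exact ⟨d⁻¹, D.inv_mem hd, right_inv hd1, by rw [left_inv hd1, left_inv ha2, hd2]⟩

theorem mem_cs {N D : Subgroup K} {k : K} : k ∈ cs φ N D ↔ k ∈ N ∧ (φ k).right = 1 ∧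
    ∀ o, ∃ d ∈ D, (φ d).right = 1 ∧ (φ d).left o = (φ k).left o := Iff.rfl

theorem right_one (h : WD π μ φ q α ε μQ) {k : K} (hk : k ∈ NN' π ε) : (φ k).right = 1 :=
  ((WDB.mem_NN h).mp hk).1

theorem cs_le {N D : Subgroup K} : cs φ N D ≤ N := fun _ hk => hk.1

theorem le_cs (h : WD π μ φ q α ε μQ) {D : Subgroup K} (hD : D ≤ NN' π ε) :
    D ≤ cs φ (NN' π ε) D := fun d hd =>
  mem_cs.mpr ⟨hD hd, right_one h (hD hd), fun o => ⟨d, hd, right_one h (hD hd), rfl⟩⟩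

theorem cs_mono {N D E : Subgroup K} (hD : D ≤ E) : cs φ N D ≤ cs φ N E := by
  rintro k ⟨hk1, hk2, hk3⟩
  refine ⟨hk1, hk2, fun o => ?_⟩
  obtain ⟨d, hd, hd1, hd2⟩ := hk3 o
  exact ⟨d, hD hd, hd1, hd2⟩

theorem cs_cs {N D : Subgroup K} : cs φ N (cs φ N D) = cs φ N D := by
  apply le_antisymm
  · rintro k ⟨hk1, hk2, hk3⟩
    refine ⟨hk1, hk2, fun o => ?_⟩
    obtain ⟨d, hd, hd1, hd2⟩ := hk3 o
    obtain ⟨e, he, he1, he2⟩ := hd.2.2 o
    exact ⟨e, he, he1, he2.trans hd2⟩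
  · intro d hd
    exact ⟨hd.1, hd.2.1, fun o => ⟨d, hd, hd.2.1, rfl⟩⟩

theorem cs_conj {N D : Subgroup K} [hN : N.Normal] {k : K}
    (hk : ∀ x ∈ D, k * x * k⁻¹ ∈ D) {m : K} (hm : m ∈ cs φ N D) : k * m * k⁻¹ ∈ cs φ N D := by
  obtain ⟨hm1, hm2, hm3⟩ := hm
  have e1 : ∀ x : K, (φ x).right = 1 → (φ (k * x * k⁻¹)).right = 1 := by
    intro x hx
    rw [map_mul, map_mul, map_inv]
    exact WDB.conj_right _ _ hx
  have e2 : ∀ x : K, (φ x).right = 1 → ∀ o, (φ (k * x * k⁻¹)).left o =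
      (φ k).left o * (φ x).left ((φ k).right⁻¹ o) * ((φ k).left o)⁻¹ := by
    intro x hx o
    rw [map_mul, map_mul, map_inv]
    exact WDB.conj_left _ _ hx o
  refine ⟨hN.conj_mem _ hm1 _, e1 m hm2, fun o => ?_⟩
  obtain ⟨d, hd, hd1, hd2⟩ := hm3 ((φ k).right⁻¹ o)
  exact ⟨k * d * k⁻¹, hk d hd, e1 d hd1, by rw [e2 d hd1, e2 m hm2, hd2]⟩

theorem stb_insert {N : Subgroup K} [N.Normal] [DecidableEq (Subgroup K)]
    {σ : Finset (Subgroup K)} {D : Subgroup K} (hD : D ∈ σ) :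
    stb (insert (cs φ N D) σ) = stb σ := by
  ext k
  rw [mem_stb', mem_stb']
  constructor
  · intro h E hE
    exact h E (Finset.mem_insert_of_mem hE)
  · intro h E hE
    rcases Finset.mem_insert.mp hE with rfl | hE
    · intro x
      have h1 := h D hD
      constructor
      · intro hx
        exact cs_conj (fun y hy => (h1 y).mp hy) hx
      · intro hx
        have h2 : ∀ y ∈ D, k⁻¹ * y * k⁻¹⁻¹ ∈ D := by
          intro y hy
          rw [h1]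
          have : k * (k⁻¹ * y * k⁻¹⁻¹) * k⁻¹ = y := by group
          rw [this]
          exact hy
        have h3 := cs_conj (φ := φ) (N := N) (k := k⁻¹) h2 hx
        have h4 : k⁻¹ * (k * x * k⁻¹) * k⁻¹⁻¹ = x := by group
        rw [h4] at h3
        exact h3
    · exact h E hE

theorem right_pow {k : K} (hk : (φ k).right = 1) (n : ℕ) : (φ (k ^ n)).right = 1 := by
  induction n with
  | zero => rw [pow_zero, map_one]; rfl
  | succ n ih => rw [pow_succ]; exact right_mul ih hk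

theorem left_pow {k : K} (hk : (φ k).right = 1) (n : ℕ) (o : Ω) :
    (φ (k ^ n)).left o = ((φ k).left o) ^ n := by
  induction n with
  | zero => rw [pow_zero, pow_zero, map_one]; rfl
  | succ n ih => rw [pow_succ, pow_succ, left_mul (right_pow hk n), ih]

theorem isPGroup_cs (h : WD π μ φ q α ε μQ) {ℓ : ℕ} {N D : Subgroup K} (hD : IsPGroup ℓ D) :
    IsPGroup ℓ (cs φ N D) := by
  rintro ⟨k, hk1, hk2, hk3⟩
  have h1 : ∀ o, ∃ n : ℕ, ((φ k).left o) ^ ℓ ^ n = 1 := by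
    intro o
    obtain ⟨d, hd, hd1, hd2⟩ := hk3 o
    obtain ⟨n, hn⟩ := hD ⟨d, hd⟩
    have h2 : d ^ ℓ ^ n = 1 := congrArg Subtype.val hn
    refine ⟨n, ?_⟩
    rw [← hd2, ← left_pow hd1, h2, map_one]
    rfl
  choose n hn using h1
  refine ⟨∑ o, n o, Subtype.ext ?_⟩
  change k ^ ℓ ^ (∑ o, n o) = 1
  refine h.φi ?_
  rw [map_one]
  refine WDB.ext' (right_pow hk2 _) fun o => ?_
  rw [left_pow hk2]
  obtain ⟨m, hm⟩ := pow_dvd_pow ℓ (Finset.single_le_sum (f := n) (fun _ _ => Nat.zero_le _)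
    (Finset.mem_univ o))
  rw [hm, pow_mul, hn o, one_pow]
  rfl

theorem clo_iff (h : WD π μ φ q α ε μQ) {D : Subgroup K} (hD : D ≤ NN' π ε) :
    clN φ (NN' π ε) D ⊆ (D : Set K) ↔ cs φ (NN' π ε) D = D := by
  constructor
  · intro h1
    refine le_antisymm ?_ (le_cs h hD)
    intro k hk
    refine h1 ⟨hk.1, fun o => ?_⟩
    obtain ⟨d, hd, -, hd2⟩ := hk.2.2 o
    exact ⟨d, hd, hd2⟩
  · rintro h1 k ⟨hk1, hk2⟩
    have : k ∈ cs φ (NN' π ε) D := by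
      refine ⟨hk1, right_one h hk1, fun o => ?_⟩
      obtain ⟨d, hd, hd2⟩ := hk2 o
      exact ⟨d, hd, right_one h (hD hd), hd2⟩
    rw [h1] at this
    exact this

end Dat

end TOG

open _root_.Pool.Agent.DPG.TOG in
/-- TOG: the chains which are not closed cancel. -/
theorem TOG_thm : Stmt_TOG := by
  classical
  intro L K K1 Q Ω _ _ _ _ _ _ _ _ _ ℓ _ π μ φ q α ε μQ h G
  have hN := WDB.normal_NN h
  refine sum_cl ℓ (NN' π ε) (cs φ (NN' π ε)) (fun D hD => le_cs h hD) (fun D => cs_le)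
    (fun D => cs_cs) (fun D E hDE => cs_mono hDE) (fun D _ hD => isPGroup_cs h hD)
    (fun σ => G (stb σ)) (fun σ _ D hD => by rw [stb_insert hD]) _ _ ?_ ?_
  · intro σ
    rw [Finset.mem_filter, mem_Ch]
    exact ⟨fun h1 => h1.2, fun h1 => ⟨h1.1, h1⟩⟩
  · intro σ
    rw [Finset.mem_filter, mem_Ch]
    constructor
    · rintro ⟨-, h1, h2⟩
      exact ⟨h1, fun D hD => (clo_iff h (h1.2 D hD)).mp (h2 D hD)⟩
    · rintro ⟨h1, h2⟩
      exact ⟨h1.1, h1, fun D hD => (clo_iff h (h1.2 D hD)).mpr (h2 D hD)⟩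

end Pool.Agent.DPG


end
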