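import Mathlib
import Pool.Agent.DAM.C01
import Pool.Agent.DAM.C05
import Pool.Agent.DAM.C13

/-! Parts: DPM.PAIRS -/

section

/-!
# PAIRS: the Moebius sum of the numbers of characters over a linear character
-/

namespace Pool.Agent.DPM

open Pool.Agent.DP Pool.Agent.DPC Pool.Agent.Lib_helper13 Representation

namespace PAIRS

section central

variable {H : Type} [Group H] [Fintype H]

/-- Central elements act by scalars. -/
theorem central {χ : H → ℂ} (hχ : IsIrr χ) {q : H} (hq : ∀ y, q * y = y * q) :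
    ∃ c : ℂ, c ≠ 0 ∧ ∀ z, χ (q * z) = c * χ z := by
  have hχ' := hχ
  obtain ⟨n, ρ, hρ, rfl⟩ := hχ
  obtain ⟨c, hc⟩ := exists_scalar ρ hρ (ρ q) (by
    intro g x
    rw [← Module.End.mul_apply, ← map_mul, hq, map_mul, Module.End.mul_apply])
  have h1 : ∀ z, ρ.character (q * z) = c * ρ.character z := by
    intro z
    change LinearMap.trace ℂ _ (ρ (q * z)) = c * LinearMap.trace ℂ _ (ρ z)
    rw [map_mul, hc]
    have : (c • LinearMap.id : (Fin n → ℂ) →ₗ[ℂ] (Fin n → ℂ)) * ρ z = c • ρ z := by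
      apply LinearMap.ext
      intro v
      rfl
    rw [this, map_smul, smul_eq_mul]
  refine ⟨c, ?_, h1⟩
  rintro rfl
  have h2 := h1 q⁻¹
  rw [mul_inv_cancel, zero_mul] at h2
  exact hχ'.one_ne_zero h2

variable {W : Type} [Group W] [Fintype W]

open Classical in
/-- The projection to the characters over `μ`. -/
theorem proj (i : W →* H) (hi : ∀ u y, i u * y = y * i u) (μ : W →* ℂˣ) {χ : H → ℂ}
    (hχ : IsIrr χ) (x : H) : ∑ u : W, ((μ u)⁻¹ : ℂˣ) * χ (x * i u) =
      if ∀ u z, χ (i u * z) = ((μ u : ℂˣ) : ℂ) * χ z then (Fintype.card W : ℂ) * χ x else 0 := by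
  choose ν hν0 hν using fun u => central hχ (hi u)
  have h1 : ∀ u, χ (x * i u) = ν u * χ x := fun u => by rw [← hi, hν]
  split_ifs with h
  · have h2 : ∀ u : W, (((μ u)⁻¹ : ℂˣ) : ℂ) * χ (x * i u) = χ x := by
      intro u
      rw [← hi, h, ← mul_assoc, ← Units.val_mul, inv_mul_cancel, Units.val_one, one_mul]
    rw [Finset.sum_congr rfl fun u _ => h2 u, Finset.sum_const, Finset.card_univ, nsmul_eq_mul]
  · have hν1 : ∀ u v, ν (u * v) = ν u * ν v := by
      intro u v
      have h3 := hν (u * v) 1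
      rw [map_mul, mul_assoc, hν u, hν v, ← mul_assoc] at h3
      exact (mul_right_cancel₀ hχ.one_ne_zero h3).symm
    have h4 : ∃ u0, ν u0 ≠ (μ u0 : ℂˣ) := by
      by_contra hno
      push Not at hno
      exact h fun u z => by rw [hν, hno]
    obtain ⟨u0, hu0⟩ := h4
    have h5 : ∑ u : W, (((μ u)⁻¹ : ℂˣ) : ℂ) * χ (x * i u) =
        (∑ u : W, (((μ u)⁻¹ : ℂˣ) : ℂ) * ν u) * χ x := by
      rw [Finset.sum_mul]
      exact Finset.sum_congr rfl fun u _ => by rw [h1, mul_assoc]
    have h6 : (∑ u : W, (((μ u)⁻¹ : ℂˣ) : ℂ) * ν u) =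
        ((((μ u0)⁻¹ : ℂˣ) : ℂ) * ν u0) * ∑ u : W, (((μ u)⁻¹ : ℂˣ) : ℂ) * ν u := by
      refine (Equiv.sum_comp (Equiv.mulLeft u0)
        (fun u => (((μ u)⁻¹ : ℂˣ) : ℂ) * ν u)).symm.trans ?_
      rw [Finset.mul_sum]
      refine Finset.sum_congr rfl fun u _ => ?_
      show (((μ (u0 * u))⁻¹ : ℂˣ) : ℂ) * ν (u0 * u) = _
      rw [hν1, map_mul, mul_inv, Units.val_mul]
      ring
    have h7 : ((((μ u0)⁻¹ : ℂˣ) : ℂ) * ν u0) ≠ 1 := by
      intro h8
      apply hu0
      have h9 : ((μ u0 : ℂˣ) : ℂ) * ((((μ u0)⁻¹ : ℂˣ) : ℂ) * ν u0) = (μ u0 : ℂˣ) := by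
        rw [h8, mul_one]
      rw [← mul_assoc, ← Units.val_mul, mul_inv_cancel, Units.val_one, one_mul] at h9
      exact h9
    have h8 : (∑ u : W, (((μ u)⁻¹ : ℂˣ) : ℂ) * ν u) = 0 := by
      by_contra hne
      apply h7
      have h9 := h6
      nth_rewrite 1 [← one_mul (∑ u : W, (((μ u)⁻¹ : ℂˣ) : ℂ) * ν u)] at h9
      exact (mul_right_cancel₀ hne h9).symm
    rw [h5, h8, zero_mul]

open Classical in
/-- The number of the characters over `μ`. -/
theorem count (i : W →* H) (hi : ∀ u y, i u * y = y * i u) (μ : W →* ℂˣ) :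
    (Fintype.card W : ℂ) * ((Fintype.card H : ℂ) *
      ((irrF H).filter fun χ => ∀ u z, χ (i u * z) = ((μ u : ℂˣ) : ℂ) * χ z).card) =
    ∑ x : H, ∑ z : H, ∑ u : W, if z * x * z⁻¹ = x * i u then (((μ u)⁻¹ : ℂˣ) : ℂ) else 0 := by
  have h1 : ∑ χ ∈ irrF H, ∑ x : H, (∑ u : W, (((μ u)⁻¹ : ℂˣ) : ℂ) * χ (x * i u)) * χ x⁻¹ =
      (Fintype.card W : ℂ) * ((Fintype.card H : ℂ) *
      ((irrF H).filter fun χ => ∀ u z, χ (i u * z) = ((μ u : ℂˣ) : ℂ) * χ z).card) := by
    have h2 : ∀ χ ∈ irrF H, ∑ x : H, (∑ u : W, (((μ u)⁻¹ : ℂˣ) : ℂ) * χ (x * i u)) * χ x⁻¹ =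
        if ∀ u z, χ (i u * z) = ((μ u : ℂˣ) : ℂ) * χ z then
          (Fintype.card W : ℂ) * (Fintype.card H : ℂ) else 0 := by
      intro χ hχ
      have hχ' := mem_irrF.1 hχ
      have h3 := hχ'.sum_self
      split_ifs with h
      · have h4 : ∀ x : H, (∑ u : W, (((μ u)⁻¹ : ℂˣ) : ℂ) * χ (x * i u)) * χ x⁻¹ =
            (Fintype.card W : ℂ) * (χ x * χ x⁻¹) := by
          intro x
          rw [proj i hi μ hχ' x, if_pos h, mul_assoc]
        rw [Finset.sum_congr rfl fun x _ => h4 x, ← Finset.mul_sum, h3, Nat.card_eq_fintype_card]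
      · refine Finset.sum_eq_zero fun x _ => ?_
        rw [proj i hi μ hχ' x, if_neg h, zero_mul]
    rw [Finset.sum_congr rfl h2, ← Finset.sum_filter, Finset.sum_const, nsmul_eq_mul]
    ring
  rw [← h1, Finset.sum_comm]
  refine Finset.sum_congr rfl fun x _ => ?_
  have h2 : ∀ u : W, ∑ χ ∈ irrF H, χ (x * i u) * χ x⁻¹ =
      ∑ z : H, if z * x * z⁻¹ = x * i u then (1 : ℂ) else 0 := by
    intro u
    rw [column_orth (x * i u) x, Finset.card_filter]
    push_cast
    rfl
  calc ∑ χ ∈ irrF H, (∑ u : W, (((μ u)⁻¹ : ℂˣ) : ℂ) * χ (x * i u)) * χ x⁻¹ =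
      ∑ u : W, (((μ u)⁻¹ : ℂˣ) : ℂ) * ∑ χ ∈ irrF H, χ (x * i u) * χ x⁻¹ := by
        simp_rw [Finset.sum_mul, Finset.mul_sum]
        rw [Finset.sum_comm]
        refine Finset.sum_congr rfl fun u _ => Finset.sum_congr rfl fun χ _ => ?_
        ring
    _ = ∑ u : W, ∑ z : H, if z * x * z⁻¹ = x * i u then (((μ u)⁻¹ : ℂˣ) : ℂ) else 0 := by
        refine Finset.sum_congr rfl fun u _ => ?_
        rw [h2, Finset.mul_sum]
        refine Finset.sum_congr rfl fun z _ => ?_
        split_ifs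
        · rw [mul_one]
        · rw [mul_zero]
    _ = _ := Finset.sum_comm

end central

section main

variable {L K : Type} [Group L] [Fintype L] [Group K] [Fintype K] {π : L →* K} {U : Subgroup L}
  (μ : U →* ℂˣ)

open Classical in
/-- `μ⁻¹`, extended by zero. -/
noncomputable def G0 (l : L) : ℂ := if h : l ∈ U then (((μ ⟨l, h⟩)⁻¹ : ℂˣ) : ℂ) else 0

/-- The value of `μ⁻¹` at the commutator. -/
noncomputable def gam (z x : L) : ℂ := G0 μ (x⁻¹ * (z * x * z⁻¹))

theorem gam_mul (hU : U ≤ Subgroup.center L) {u v : L} (hu : u ∈ U) (hv : v ∈ U) (z x : L) :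
    gam μ (z * u) (x * v) = gam μ z x := by
  have hu' := Subgroup.mem_center_iff.1 (hU hu)
  have hv' := Subgroup.mem_center_iff.1 (hU hv)
  unfold gam
  congr 1
  have h1 : z * u * (x * v) * (z * u)⁻¹ = z * x * z⁻¹ * v := by
    calc z * u * (x * v) * (z * u)⁻¹ = z * (u * (x * v)) * u⁻¹ * z⁻¹ := by group
      _ = z * ((x * v) * u) * u⁻¹ * z⁻¹ := by rw [hu' (x * v)]
      _ = z * x * (v * z⁻¹) := by group
      _ = z * x * (z⁻¹ * v) := by rw [hv' z⁻¹]
      _ = z * x * z⁻¹ * v := by group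
  rw [h1]
  calc (x * v)⁻¹ * (z * x * z⁻¹ * v) = v⁻¹ * (x⁻¹ * (z * x * z⁻¹) * v) := by group
    _ = v⁻¹ * (v * (x⁻¹ * (z * x * z⁻¹))) := by rw [hv']
    _ = x⁻¹ * (z * x * z⁻¹) := by group

variable (hπ : Function.Surjective π) (hU : U ≤ Subgroup.center L) (hk : ∀ l, π l = 1 ↔ l ∈ U)

/-- The inverse image of `V` is `V × U`. -/
noncomputable def eqv (hπ : Function.Surjective π) (hk : ∀ l, π l = 1 ↔ l ∈ U) (V : Subgroup K) :
    ↥(V.comap π) ≃ V × U where
  toFun x := (⟨π x, x.2⟩, ⟨(Function.surjInv hπ (π x))⁻¹ * x, by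
    rw [← hk, map_mul, map_inv, Function.surjInv_eq hπ, inv_mul_cancel]⟩)
  invFun p := ⟨Function.surjInv hπ p.1 * p.2, by
    rw [Subgroup.mem_comap, map_mul, (hk _).2 p.2.2, mul_one, Function.surjInv_eq hπ]
    exact p.1.2⟩
  left_inv x := by
    apply Subtype.ext
    show Function.surjInv hπ (π x) * ((Function.surjInv hπ (π x))⁻¹ * x) = x
    rw [mul_inv_cancel_left]
  right_inv p := by
    have h1 : π (Function.surjInv hπ p.1 * p.2) = p.1 := by
      rw [map_mul, (hk _).2 p.2.2, mul_one, Function.surjInv_eq hπ]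
    refine Prod.ext (Subtype.ext h1) (Subtype.ext ?_)
    show (Function.surjInv hπ (π (Function.surjInv hπ p.1 * p.2)))⁻¹ *
      (Function.surjInv hπ p.1 * p.2) = p.2
    rw [h1, inv_mul_cancel_left]

include hπ hU hk

open Classical in
theorem count_V (V : Subgroup K) : (Nat.card V : ℂ) *
      Nat.card {η : ↥(V.comap π) → ℂ // IsIrr η ∧ OvL U μ _ η} =
    ∑ a : K, ∑ b : K, if a ∈ V ∧ b ∈ V then
      gam μ (Function.surjInv hπ b) (Function.surjInv hπ a) else 0 := by
  have hUS : U ≤ V.comap π := fun u hu => by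
    rw [Subgroup.mem_comap, (hk u).2 hu]
    exact V.one_mem
  let i : U →* ↥(V.comap π) := Subgroup.inclusion hUS
  have hi : ∀ u y, i u * y = y * i u := fun u y =>
    Subtype.ext (Subgroup.mem_center_iff.1 (hU u.2) y).symm
  have h1 := count i hi μ
  have h2 : Nat.card {η : ↥(V.comap π) → ℂ // IsIrr η ∧ OvL U μ _ η} =
      ((irrF ↥(V.comap π)).filter fun χ => ∀ u z, χ (i u * z) = ((μ u : ℂˣ) : ℂ) * χ z).card := by
    rw [← Fintype.card_coe, ← Nat.card_eq_fintype_card]
    refine Nat.card_congr (Equiv.subtypeEquivRight fun η => ?_)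
    rw [Finset.mem_filter, mem_irrF]
    refine and_congr_right fun _ => ?_
    constructor
    · intro h u z
      exact h (i u) z u.2
    · intro h s t hs
      exact h ⟨s, hs⟩ t
  rw [h2]
  have hcard : (Fintype.card ↥(V.comap π) : ℂ) = Nat.card V * Fintype.card U := by
    rw [Fintype.card_congr (eqv hπ hk V), Fintype.card_prod, Nat.card_eq_fintype_card]
    push_cast
    rfl
  have hUne : (Fintype.card U : ℂ) ≠ 0 := by
    have : 0 < Fintype.card U := Fintype.card_pos
    exact_mod_cast this.ne'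
  -- the inner sum
  have h3 : ∀ x z : ↥(V.comap π), (∑ u : U, @ite ℂ (z * x * z⁻¹ = x * i u)
      (Classical.propDecidable _) (((μ u)⁻¹ : ℂˣ) : ℂ) 0) = gam μ z x := by
    intro x z
    unfold gam G0
    split_ifs with h
    · rw [Finset.sum_eq_single ⟨_, h⟩]
      · rw [if_pos]
        apply Subtype.ext
        show (z : L) * x * (z : L)⁻¹ = x * ((x : L)⁻¹ * (z * x * (z : L)⁻¹))
        rw [mul_inv_cancel_left]
      · intro u _ hu
        rw [if_neg]
        intro he
        apply hu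
        apply Subtype.ext
        have h4 : (z : L) * x * (z : L)⁻¹ = x * u := congrArg Subtype.val he
        show (u : L) = (x : L)⁻¹ * ((z : L) * x * (z : L)⁻¹)
        rw [h4, inv_mul_cancel_left]
      · intro h5
        exact absurd (Finset.mem_univ _) h5
    · refine Finset.sum_eq_zero fun u _ => ?_
      rw [if_neg]
      intro he
      apply h
      have h4 : (z : L) * x * (z : L)⁻¹ = x * u := congrArg Subtype.val he
      rw [h4, inv_mul_cancel_left]
      exact u.2
  have h4 : ∀ x z : ↥(V.comap π), gam μ z x =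
      gam μ (Function.surjInv hπ (π z)) (Function.surjInv hπ (π x)) := by
    intro x z
    have e : ∀ y : L, (Function.surjInv hπ (π y))⁻¹ * y ∈ U := fun y => by
      rw [← hk, map_mul, map_inv, Function.surjInv_eq hπ, inv_mul_cancel]
    have h5 := gam_mul μ hU (e z) (e x) (Function.surjInv hπ (π z)) (Function.surjInv hπ (π x))
    rw [mul_inv_cancel_left, mul_inv_cancel_left] at h5
    exact h5
  have h5 : ∀ f : K → ℂ, ∑ x : ↥(V.comap π), f (π x) =
      (Fintype.card U : ℂ) * ∑ a : K, if a ∈ V then f a else 0 := by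
    intro f
    rw [← Equiv.sum_comp (eqv hπ hk V).symm (fun x => f (π x)), Fintype.sum_prod_type]
    have h6 : ∀ (a : V) (u : U), f (π ((eqv hπ hk V).symm (a, u))) = f a := by
      intro a u
      have : π ((eqv hπ hk V).symm (a, u) : ↥(V.comap π)) = a := by
        show π (Function.surjInv hπ a * u) = a
        rw [map_mul, (hk _).2 u.2, mul_one, Function.surjInv_eq hπ]
      rw [this]
    simp_rw [h6]
    rw [Finset.mul_sum]
    simp only [Finset.sum_const, Finset.card_univ, nsmul_eq_mul]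
    rw [← Finset.mul_sum, ← Finset.mul_sum]
    congr 1
    rw [← Finset.sum_filter]
    exact (Finset.sum_subtype _ (fun x => by simp) f).symm
  rw [hcard] at h1
  have h1' : ∑ x : ↥(V.comap π), ∑ z : ↥(V.comap π), ∑ u : U,
      (@ite ℂ (z * x * z⁻¹ = x * i u) (Classical.propDecidable _) (((μ u)⁻¹ : ℂˣ) : ℂ) 0) =
      ∑ x : ↥(V.comap π), ∑ z : ↥(V.comap π),
        gam μ (Function.surjInv hπ (π z)) (Function.surjInv hπ (π x)) := by
    refine Finset.sum_congr rfl fun x _ => Finset.sum_congr rfl fun z _ => ?_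
    rw [← h4, ← h3]
  replace h1 := h1.trans h1'
  have h6 : ∑ x : ↥(V.comap π), ∑ z : ↥(V.comap π),
      gam μ (Function.surjInv hπ (π z)) (Function.surjInv hπ (π x)) =
      (Fintype.card U : ℂ) * ((Fintype.card U : ℂ) * ∑ a : K, ∑ b : K, if a ∈ V ∧ b ∈ V then
        gam μ (Function.surjInv hπ b) (Function.surjInv hπ a) else 0) := by
    have h7 : ∀ x : ↥(V.comap π), ∑ z : ↥(V.comap π),
        gam μ (Function.surjInv hπ (π z)) (Function.surjInv hπ (π x)) =
        (fun a : K => (Fintype.card U : ℂ) * ∑ b : K, if b ∈ V then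
          gam μ (Function.surjInv hπ b) (Function.surjInv hπ a) else 0) (π x) := fun x =>
      h5 fun b => gam μ (Function.surjInv hπ b) (Function.surjInv hπ (π x))
    refine (Finset.sum_congr rfl fun x _ => h7 x).trans ((h5 (fun a : K =>
      (Fintype.card U : ℂ) * ∑ b : K, if b ∈ V then
          gam μ (Function.surjInv hπ b) (Function.surjInv hπ a) else 0)).trans ?_)
    congr 1
    rw [Finset.mul_sum]
    refine Finset.sum_congr rfl fun a _ => ?_
    by_cases ha : a ∈ V
    · rw [if_pos ha]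
      congr 1
      refine Finset.sum_congr rfl fun b _ => ?_
      by_cases hb : b ∈ V
      · rw [if_pos hb, if_pos ⟨ha, hb⟩]
      · rw [if_neg hb, if_neg fun h => hb h.2]
    · rw [if_neg ha, Finset.sum_eq_zero fun b _ => if_neg fun h => ha h.1, mul_zero]
  rw [h6] at h1
  have h8 := mul_left_cancel₀ hUne h1
  apply mul_left_cancel₀ hUne
  rw [← h8]
  ring

end main

end PAIRS

open Classical in
theorem PAIRS_thm : Stmt_PAIRS := by
  intro L K _ _ _ _ π hπ U μ hU hk m hm hne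
  have h1 : ((∑ V : Subgroup K, m V * ((Nat.card V : ℚ) *
      Nat.card {η : ↥(V.comap π) → ℂ // IsIrr η ∧ OvL U μ _ η}) : ℚ) : ℂ) ≠ 0 := by
    exact_mod_cast hne
  have h2 : ((∑ V : Subgroup K, m V * ((Nat.card V : ℚ) *
      Nat.card {η : ↥(V.comap π) → ℂ // IsIrr η ∧ OvL U μ _ η}) : ℚ) : ℂ) =
      ∑ a : K, ∑ b : K, (if Subgroup.closure {a, b} = ⊤ then (1 : ℂ) else 0) *
        PAIRS.gam μ (Function.surjInv hπ b) (Function.surjInv hπ a) := by
    push_cast
    have h3 : ∀ V : Subgroup K, (m V : ℂ) * ((Nat.card V : ℂ) *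
        (Nat.card {η : ↥(V.comap π) → ℂ // IsIrr η ∧ OvL U μ _ η} : ℂ)) =
        ∑ a : K, ∑ b : K, (if a ∈ V ∧ b ∈ V then (m V : ℂ) else 0) *
          PAIRS.gam μ (Function.surjInv hπ b) (Function.surjInv hπ a) := by
      intro V
      rw [PAIRS.count_V μ hπ hU hk V, Finset.mul_sum]
      refine Finset.sum_congr rfl fun a _ => ?_
      rw [Finset.mul_sum]
      refine Finset.sum_congr rfl fun b _ => ?_
      split_ifs
      · rfl
      · rw [mul_zero, zero_mul]
    rw [Finset.sum_congr rfl fun V _ => h3 V, Finset.sum_comm]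
    refine Finset.sum_congr rfl fun a _ => ?_
    rw [Finset.sum_comm]
    refine Finset.sum_congr rfl fun b _ => ?_
    rw [← Finset.sum_mul]
    congr 1
    have h4 := hm (Subgroup.closure {a, b})
    have h5 : ∀ V : Subgroup K, Subgroup.closure {a, b} ≤ V ↔ a ∈ V ∧ b ∈ V := by
      intro V
      rw [Subgroup.closure_le]
      constructor
      · intro h
        exact ⟨h (Set.mem_insert _ _), h (Set.mem_insert_of_mem _ rfl)⟩
      · rintro ⟨h, h'⟩ x (rfl | rfl)
        · exact h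
        · exact h'
    rw [Finset.sum_filter] at h4
    have h6 := congrArg (fun q : ℚ => (q : ℂ)) h4
    simp only [Rat.cast_sum] at h6
    rw [← Finset.sum_congr rfl fun V _ => ?_, h6]
    · split_ifs
      · exact Rat.cast_one
      · exact Rat.cast_zero
    · simp only [h5 V]
      split_ifs
      · rfl
      · exact Rat.cast_zero
  rw [h2] at h1
  obtain ⟨a, -, ha⟩ := Finset.exists_ne_zero_of_sum_ne_zero h1
  obtain ⟨b, -, hb⟩ := Finset.exists_ne_zero_of_sum_ne_zero ha
  refine ⟨a, b, ?_, ?_⟩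
  · have h3 := right_ne_zero_of_mul hb
    unfold PAIRS.gam PAIRS.G0 at h3
    split_ifs at h3 with h
    · have h4 := (hk _).2 h
      rw [map_mul, map_mul, map_mul, map_inv, map_inv, Function.surjInv_eq hπ,
        Function.surjInv_eq hπ] at h4
      have h5 : a⁻¹ * (b * a * b⁻¹) = 1 := h4
      have h6 : b * a * b⁻¹ = a := (inv_mul_eq_one.1 h5).symm
      exact (mul_inv_eq_iff_eq_mul.1 h6).symm
    · exact absurd rfl h3
  · by_contra hno
    rw [if_neg hno, zero_mul] at hb
    exact hb rfl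

end Pool.Agent.DPM


end
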