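import Mathlib
import Pool.Agent.DAM.C12
import Pool.Agent.DAM.C13
import Pool.Agent.DAM.C14
import Pool.Agent.DAM.C22
import Pool.Agent.DAM.C23
import Pool.Agent.DAM.C42
import Pool.Agent.DAM.C44

/-! Parts: DPC.MOBBC, DPM.ISOL, DPV.LIFTV -/

section

/-!
# MOBBC: inversion, with defects
-/

namespace Pool.Agent.DPC

open Pool.Agent.DP

namespace MOBBC

variable {C : Type} [Group C]

theorem le_of_card_dvd [Finite C] (hC : IsCyclic C) (H K : Subgroup C)
    (h : Nat.card H ∣ Nat.card K) : H ≤ K := by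
  classical
  have := hC
  let _ : Fintype C := Fintype.ofFinite C
  have h0 : 0 < Nat.card K := Nat.card_pos
  have h1 := IsCyclic.card_pow_eq_one_le (α := C) h0
  set F : Finset C := Finset.univ.filter (fun a => a ^ Nat.card K = 1) with hF
  set KF : Finset C := Finset.univ.filter (fun a => a ∈ K) with hKF
  have h2 : KF ⊆ F := by
    intro x hx
    rw [hKF, Finset.mem_filter] at hx
    rw [hF, Finset.mem_filter]
    refine ⟨Finset.mem_univ _, ?_⟩
    have h3 : (⟨x, hx.2⟩ : K) ^ Nat.card K = 1 := pow_card_eq_one'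
    exact congrArg (Subtype.val) h3
  have h5 : KF.card = Nat.card K := by
    rw [hKF, Nat.card_eq_fintype_card, Fintype.card_subtype]
  have h6 : KF = F := Finset.eq_of_subset_of_card_le h2 (by rw [h5]; exact h1)
  intro x hx
  have h7 : x ∈ F := by
    rw [hF, Finset.mem_filter]
    refine ⟨Finset.mem_univ _, ?_⟩
    obtain ⟨c, hc⟩ := h
    have h3 : (⟨x, hx⟩ : H) ^ Nat.card H = 1 := pow_card_eq_one'
    have h4 : x ^ Nat.card H = 1 := congrArg (Subtype.val) h3
    rw [hc, pow_mul, h4, one_pow]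
  rw [← h6, hKF, Finset.mem_filter] at h7
  exact h7.2

/-- a subgroup of `L` which is contained in exactly the subgroups of full `ℓ`-part -/
theorem exists_syl [Finite C] (hC : IsCyclic C) (ℓ : ℕ) [Fact ℓ.Prime] (L : Subgroup C) :
    ∃ P : Subgroup C, P ≤ L ∧ ∀ M ≤ L,
      (padicValNat ℓ (Nat.card M) = padicValNat ℓ (Nat.card L) ↔ P ≤ M) := by
  obtain ⟨P0, hP0⟩ := Sylow.exists_subgroup_card_pow_prime (G := L) ℓ
    (n := padicValNat ℓ (Nat.card L)) pow_padicValNat_dvd
  have hcard : Nat.card (P0.map L.subtype) = ℓ ^ padicValNat ℓ (Nat.card L) := by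
    rw [← hP0]
    exact Subgroup.card_map_of_injective L.subtype_injective
  have hPL : P0.map L.subtype ≤ L := by
    intro x hx
    obtain ⟨y, _, rfl⟩ := hx
    exact y.2
  refine ⟨P0.map L.subtype, hPL, fun M hM => ⟨fun h => ?_, fun h => ?_⟩⟩
  · apply le_of_card_dvd hC
    rw [hcard, ← h]
    exact pow_padicValNat_dvd
  · have hMne : Nat.card M ≠ 0 := Nat.card_pos.ne'
    have hLne : Nat.card L ≠ 0 := Nat.card_pos.ne'
    apply le_antisymm
    · have h1 : Nat.card M ∣ Nat.card L := Subgroup.card_dvd_of_le hM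
      rw [← padicValNat_dvd_iff_le hLne]
      exact pow_padicValNat_dvd.trans h1
    · have h1 : Nat.card (P0.map L.subtype) ∣ Nat.card M := Subgroup.card_dvd_of_le h
      rw [hcard] at h1
      exact (padicValNat_dvd_iff_le hMne).1 h1

theorem val_le [Finite C] (ℓ : ℕ) [Fact ℓ.Prime] {M L : Subgroup C} (hM : M ≤ L) :
    padicValNat ℓ (Nat.card M) ≤ padicValNat ℓ (Nat.card L) := by
  have hLne : Nat.card L ≠ 0 := Nat.card_pos.ne'
  have h1 : Nat.card M ∣ Nat.card L := Subgroup.card_dvd_of_le hM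
  rw [← padicValNat_dvd_iff_le hLne]
  exact pow_padicValNat_dvd.trans h1

end MOBBC

open Classical in
/-- MOBBC. -/
theorem MOBBC_thm : Stmt_MOBBC := by
  intro C I V _ _ _ ℓ _ hC L w k v e r good hk hkv hr hg H
  let _ : Fintype (Subgroup C) := Fintype.ofFinite _
  obtain ⟨a, ha1, ha2⟩ := MOBA_thm C hC L
  -- the valuation
  set vl : Subgroup C → ℕ := fun M => padicValNat ℓ (Nat.card M) with hvl
  -- the function `S`
  set S : V → ℕ → V → ℕ → ℚ := fun x e' u d => ∑ L', (if L' ≤ L then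
    a L' * ((Nat.card L' : ℚ) ^ 2 * (if r L' x = u ∧ e' + vl L' = d then 1 else 0)) else 0) with hS
  set N : V → ℕ → ℚ := fun u e' =>
    ∑ i, w i * (if k i = L ∧ v i = u ∧ e i = e' then 1 else 0) with hN
  have hcard : (Nat.card L : ℚ) ≠ 0 := by
    exact_mod_cast Nat.card_pos.ne'
  -- the identity
  have key : ∀ u, good u → ∀ d : ℕ, ∑ i, (if k i = L then w i * S (v i) (e i) u d else 0) = 0 := by
    intro u hu d
    have e1 : ∑ L', (if L' ≤ L then a L' * ∑ i, w i * (((Nat.card (L' ⊓ k i : Subgroup C) : ℚ) ^ 2 /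
        Nat.card (k i)) * (if r L' (v i) = u ∧ e i + vl (L' ⊓ k i) = d then 1 else 0)) else 0) =
        0 := by
      refine Finset.sum_eq_zero fun L' _ => ?_
      by_cases hL' : L' ≤ L
      · rw [if_pos hL', H L' hL' u hu d, mul_zero]
      · rw [if_neg hL']
    have e2 : ∑ L', (if L' ≤ L then a L' * ∑ i, w i * (((Nat.card (L' ⊓ k i : Subgroup C) : ℚ) ^ 2 /
        Nat.card (k i)) * (if r L' (v i) = u ∧ e i + vl (L' ⊓ k i) = d then 1 else 0)) else 0) =
        ∑ i, w i * ∑ L', (if L' ≤ L then a L' * (((Nat.card (L' ⊓ k i : Subgroup C) : ℚ) ^ 2 /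
        Nat.card (k i)) * (if r L' (v i) = u ∧ e i + vl (L' ⊓ k i) = d then 1 else 0)) else 0) := by
      simp only [Finset.mul_sum]
      rw [Finset.sum_comm]
      refine Finset.sum_congr rfl fun L' _ => ?_
      by_cases hL' : L' ≤ L
      · simp only [if_pos hL']
        refine Finset.sum_congr rfl fun i _ => ?_
        ring
      · simp only [if_neg hL', mul_zero, Finset.sum_const_zero]
    have e3 : ∀ i, (Nat.card L : ℚ) * (w i * ∑ L', (if L' ≤ L then
        a L' * (((Nat.card (L' ⊓ k i : Subgroup C) : ℚ) ^ 2 /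
        Nat.card (k i)) * (if r L' (v i) = u ∧ e i + vl (L' ⊓ k i) = d then 1 else 0)) else 0)) =
        if k i = L then w i * S (v i) (e i) u d else 0 := by
      intro i
      by_cases hi : k i = L
      · rw [if_pos hi]
        have e4 : (Nat.card L : ℚ) * ∑ L', (if L' ≤ L then
            a L' * (((Nat.card (L' ⊓ k i : Subgroup C) : ℚ) ^ 2 /
            Nat.card (k i)) * (if r L' (v i) = u ∧ e i + vl (L' ⊓ k i) = d then 1 else 0)) else 0) =
            S (v i) (e i) u d := by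
          rw [Finset.mul_sum]
          refine Finset.sum_congr rfl fun L' _ => ?_
          by_cases hL' : L' ≤ L
          · rw [if_pos hL', if_pos hL', hi, inf_eq_left.2 hL']
            field_simp
          · rw [if_neg hL', if_neg hL', mul_zero]
        rw [← e4]
        ring
      · rw [if_neg hi]
        have hlt : k i < L := lt_of_le_of_ne (hk i) hi
        have e5 := ha1 (k i) hlt (fun M => (Nat.card M : ℚ) ^ 2 /
          Nat.card (k i) * (if r M (v i) = u ∧ e i + vl M = d then 1 else 0))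
        have e6 : ∑ L', (if L' ≤ L then a L' * (((Nat.card (L' ⊓ k i : Subgroup C) : ℚ) ^ 2 /
            Nat.card (k i)) * (if r L' (v i) = u ∧ e i + vl (L' ⊓ k i) = d then 1 else 0))
            else 0) = 0 := by
          refine Eq.trans ?_ e5
          refine Finset.sum_congr rfl fun L' _ => ?_
          by_cases hL' : L' ≤ L
          · rw [if_pos hL', if_pos hL']
            have e7 : r (L' ⊓ k i) (v i) = r L' (v i) := by
              rw [← hr, hkv]
            rw [e7]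
          · rw [if_neg hL', if_neg hL']
        rw [e6, mul_zero, mul_zero]
    have e9 := e2.symm.trans e1
    have e8 : ∑ i, (if k i = L then w i * S (v i) (e i) u d else 0) = (Nat.card L : ℚ) *
        ∑ i, w i * ∑ L', (if L' ≤ L then a L' * (((Nat.card (L' ⊓ k i : Subgroup C) : ℚ) ^ 2 /
        Nat.card (k i)) * (if r L' (v i) = u ∧ e i + vl (L' ⊓ k i) = d then 1 else 0)) else 0) := by
      rw [Finset.mul_sum]
      exact Finset.sum_congr rfl fun i _ => (e3 i).symm
    rw [e8, e9, mul_zero]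
  -- grouping by the value
  have grp : ∀ u, good u → ∀ d : ℕ,
      ∑ z ∈ Finset.univ.image (fun i => (v i, e i)), N z.1 z.2 * S z.1 z.2 u d = 0 := by
    intro u hu d
    rw [← key u hu d]
    rw [← Finset.sum_fiberwise_of_maps_to (s := Finset.univ)
      (t := Finset.univ.image (fun i => (v i, e i))) (g := fun i => (v i, e i))
      (fun i _ => Finset.mem_image_of_mem (fun i => (v i, e i)) (Finset.mem_univ i))]
    refine Finset.sum_congr rfl fun z _ => ?_
    rw [hN]
    simp only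
    rw [Finset.sum_mul, Finset.sum_filter]
    refine Finset.sum_congr rfl fun i _ => ?_
    by_cases hx : (v i, e i) = z
    · have hx1 : v i = z.1 := congrArg Prod.fst hx
      have hx2 : e i = z.2 := congrArg Prod.snd hx
      by_cases hi : k i = L
      · rw [if_pos ⟨hi, hx1, hx2⟩, if_pos hx, if_pos hi, hx1, hx2, mul_one]
      · rw [if_neg (fun hh => hi hh.1), if_pos hx, if_neg hi]
        ring
    · rw [if_neg (fun hh => hx (Prod.ext hh.2.1 hh.2.2)), if_neg hx]
      ring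
  -- the Sylow subgroup
  obtain ⟨P, hPL, hP⟩ := MOBBC.exists_syl hC ℓ L
  -- induction
  have main : ∀ (n : ℕ) (u : V), (Finset.univ.filter (fun M => r M u = u)).card = n →
      good u → ∀ e0, N u e0 = 0 := by
    intro n
    induction n using Nat.strong_induction_on with
    | _ n ih =>
      intro u hn hu
      by_contra hcon0
      push Not at hcon0
      obtain ⟨e1, he1⟩ := hcon0
      -- the largest exponent
      set E : Finset ℕ := (Finset.univ.image e).filter (fun e' => N u e' ≠ 0) with hE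
      have hmemE : ∀ e', N u e' ≠ 0 → e' ∈ E := by
        intro e' he'
        rw [hE, Finset.mem_filter]
        refine ⟨?_, he'⟩
        by_contra hcon
        apply he'
        rw [hN]
        simp only
        refine Finset.sum_eq_zero fun i _ => ?_
        rw [if_neg, mul_zero]
        rintro ⟨-, -, h3⟩
        exact hcon (Finset.mem_image.2 ⟨i, Finset.mem_univ _, h3⟩)
      have hEne : E.Nonempty := ⟨e1, hmemE e1 he1⟩
      obtain ⟨e0, he0, hmax⟩ : ∃ e0 ∈ E, ∀ e' ∈ E, e' ≤ e0 :=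
        ⟨E.max' hEne, E.max'_mem hEne, fun e' he' => E.le_max' e' he'⟩
      have hN0 : N u e0 ≠ 0 := (Finset.mem_filter.1 he0).2
      have hex : ∃ i, k i = L ∧ v i = u ∧ e i = e0 := by
        by_contra hcon
        apply hN0
        rw [hN]
        simp only
        refine Finset.sum_eq_zero fun i _ => ?_
        rw [if_neg (fun hh => hcon ⟨i, hh⟩), mul_zero]
      obtain ⟨i0, hi0, hv0, hei0⟩ := hex
      have hLu : r L u = u := by
        rw [← hv0, ← hi0]
        exact hkv i0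
      obtain ⟨K0, hK0, hK⟩ := MOBB.exists_least hr hLu
      have h2 := grp u hu (e0 + vl L)
      rw [Finset.sum_eq_single (u, e0)] at h2
      · -- `S u u` is not zero
        have h3 := ha2 (K0 ⊔ P) (sup_le hK0 hPL)
        have h4 : S u e0 u (e0 + vl L) = ∑ L', (if K0 ⊔ P ≤ L' ∧ L' ≤ L then
            a L' * (Nat.card L' : ℚ) ^ 2 else 0) := by
          refine Finset.sum_congr rfl fun L' _ => ?_
          by_cases hL' : L' ≤ L
          · rw [if_pos hL']
            by_cases hL'' : r L' u = u ∧ e0 + vl L' = e0 + vl L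
            · have h5 : vl L' = vl L := Nat.add_left_cancel hL''.2
              rw [if_pos hL'', if_pos ⟨sup_le ((hK L').1 hL''.1) ((hP L' hL').1 h5), hL'⟩,
                mul_one]
            · rw [if_neg hL'', if_neg, mul_zero, mul_zero]
              rintro ⟨h5, -⟩
              apply hL''
              refine ⟨(hK L').2 (le_sup_left.trans h5), ?_⟩
              have h6 : vl L' = vl L := (hP L' hL').2 (le_sup_right.trans h5)
              rw [h6]
          · rw [if_neg hL', if_neg (fun hh => hL' hh.2)]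
        simp only at h2
        rw [h4] at h2
        exact h3 ((mul_eq_zero.1 h2).resolve_left hN0)
      · intro z _ hz
        by_cases hSx : S z.1 z.2 u (e0 + vl L) = 0
        · rw [hSx, mul_zero]
        · -- some `L'` maps `z.1` to `u`
          have hL' : ∃ L' : Subgroup C, L' ≤ L ∧ r L' z.1 = u ∧ z.2 + vl L' = e0 + vl L := by
            by_contra hcon
            apply hSx
            refine Finset.sum_eq_zero fun L' _ => ?_
            by_cases hL' : L' ≤ L
            · rw [if_pos hL', if_neg (fun hh => hcon ⟨L', hL', hh⟩), mul_zero, mul_zero]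
            · rw [if_neg hL']
          obtain ⟨L', hL'L, hL', hval⟩ := hL'
          by_cases hxu : z.1 = u
          · have hge : e0 ≤ z.2 := by
              have h6 : vl L' ≤ vl L := MOBBC.val_le ℓ hL'L
              omega
            have hgt : e0 < z.2 := by
              refine lt_of_le_of_ne hge ?_
              intro h7
              exact hz (Prod.ext hxu h7.symm)
            have h8 : N u z.2 = 0 := by
              by_contra h9
              exact absurd (hmax _ (hmemE _ h9)) (by omega)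
            rw [hxu, h8, zero_mul]
          · have hgx : good z.1 := by
              rw [← hg L' z.1, hL']
              exact hu
            have hlt : (Finset.univ.filter (fun M => r M z.1 = z.1)).card < n := by
              rw [← hn]
              apply Finset.card_lt_card
              rw [Finset.ssubset_iff_of_subset]
              · refine ⟨L', ?_, ?_⟩
                · rw [Finset.mem_filter]
                  refine ⟨Finset.mem_univ _, ?_⟩
                  have h5 := hr L' L' z.1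
                  rw [inf_idem, hL'] at h5
                  exact h5
                · rw [Finset.mem_filter]
                  rintro ⟨-, h6⟩
                  exact hxu (h6.symm.trans hL')
              · intro M hM
                rw [Finset.mem_filter] at hM ⊢
                exact ⟨Finset.mem_univ _, MOBB.fix_sub hr hL' hM.2⟩
            rw [ih _ hlt z.1 rfl hgx z.2, zero_mul]
      · intro hnu
        exact (hnu (Finset.mem_image.2 ⟨i0, Finset.mem_univ _, by rw [hv0, hei0]⟩)).elim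
  intro u hu e0
  exact main _ u rfl hu e0

end Pool.Agent.DPC


end

section

/-!
# ISOL: isolation of the characters over a faithful character of a central subgroup
-/

set_option autoImplicit false
set_option linter.unusedSectionVars false

namespace Pool.Agent.DPM

open Pool.Agent.DP Pool.Agent.DPC Pool.Agent.Lib_helper13 Representation
open Pool.Agent.Lib_helper13.Dade (pCore DadeHolds dadeSum)

namespace ISOL

/-! ### Counting -/

theorem card_rel {X β : Type*} (P : X → Prop) (hfin : {x | P x}.Finite) (Rl : β → X → Prop)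
    (t : Finset β) (h1 : ∀ x, P x → ∃ b ∈ t, Rl b x)
    (h2 : ∀ x, P x → ∀ b b', Rl b x → Rl b' x → b = b') :
    Nat.card {x // P x} = ∑ b ∈ t, Nat.card {x // P x ∧ Rl b x} := by
  classical
  have hf : ∀ b, Finite {x // P x ∧ Rl b x} := by
    intro b
    exact Set.Finite.to_subtype (s := {x | P x ∧ Rl b x}) (hfin.subset fun x hx => hx.1)
  rw [← Finset.sum_coe_sort t, ← Nat.card_sigma]
  symm
  refine Nat.card_congr (Equiv.ofBijective
    (fun y : (Σ b : t, {x // P x ∧ Rl (b : β) x}) => (⟨y.2.1, y.2.2.1⟩ : {x // P x})) ⟨?_, ?_⟩)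
  · rintro ⟨⟨b, hb⟩, ⟨x, hx⟩⟩ ⟨⟨b', hb'⟩, ⟨x', hx'⟩⟩ h
    have h3 : x = x' := congrArg Subtype.val h
    subst h3
    have h4 : b = b' := h2 x hx.1 b b' hx.2 hx'.2
    subst h4
    rfl
  · rintro ⟨x, hx⟩
    obtain ⟨b, hb, hb'⟩ := h1 x hx
    exact ⟨⟨⟨b, hb⟩, ⟨x, hx, hb'⟩⟩, rfl⟩

/-! ### Roots of unity -/

section Root

variable {𝔐 : Ideal (integralClosure ℤ ℂ)}

theorem eq_one_of_red (h𝔐 : 𝔐.IsMaximal) {ℓ : ℕ} [Fact ℓ.Prime]
    (hℓ : (ℓ : integralClosure ℤ ℂ) ∈ 𝔐) {ζ : ℂ} {m : ℕ} (hm : ζ ^ m = 1) (hlm : ¬ ℓ ∣ m)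
    (hr : red 𝔐 ζ = 1) : ζ = 1 := by
  by_contra h
  have hm0 : 0 < m := by
    rcases Nat.eq_zero_or_pos m with rfl | h0
    · exact absurd (dvd_zero ℓ) hlm
    · exact h0
  have hi : IsIntegral ℤ ζ := by
    apply IsIntegral.of_pow hm0
    rw [hm]
    exact isIntegral_one
  have h1 : ∑ i ∈ Finset.range m, ζ ^ i = 0 := by
    have h2 := geom_sum_mul ζ m
    rw [hm, sub_self] at h2
    rcases mul_eq_zero.mp h2 with h3 | h3
    · exact h3
    · exact absurd (sub_eq_zero.mp h3) h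
  have h2 : ∀ i : ℕ, red 𝔐 (ζ ^ i) = 1 := by
    intro i
    induction i with
    | zero => rw [pow_zero, red_one]
    | succ i ih => rw [pow_succ, red_mul 𝔐 (hi.pow i) hi, ih, hr, one_mul]
  have h3 : ((m : ℕ) : (integralClosure ℤ ℂ) ⧸ 𝔐) = 0 := by
    have h4 := congrArg (red 𝔐) h1
    rw [red_sum 𝔐 _ _ fun i _ => hi.pow i, red_zero] at h4
    rw [Finset.sum_congr rfl fun i _ => h2 i, Finset.sum_const, Finset.card_range,
      nsmul_eq_mul, mul_one] at h4
    exact h4
  have hp : 𝔐.IsPrime := h𝔐.isPrime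
  have hchar := quot_char 𝔐 hℓ
  have h5 := (CharP.cast_eq_zero_iff ((integralClosure ℤ ℂ) ⧸ 𝔐) ℓ m).mp h3
  exact hlm h5

theorem pow_of_red (h𝔐 : 𝔐.IsMaximal) {ℓ : ℕ} [Fact ℓ.Prime]
    (hℓ : (ℓ : integralClosure ℤ ℂ) ∈ 𝔐) {ζ : ℂ} {n : ℕ} (hn0 : n ≠ 0) (hn : ζ ^ n = 1)
    (hr : red 𝔐 ζ = 1) : ∃ k : ℕ, ζ ^ ℓ ^ k = 1 := by
  obtain ⟨k, m, hm, rfl⟩ := Nat.exists_eq_pow_mul_and_not_dvd hn0 ℓ
    (Fact.out : ℓ.Prime).ne_one
  have hi : IsIntegral ℤ ζ := by
    apply IsIntegral.of_pow (Nat.pos_of_ne_zero hn0)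
    rw [hn]
    exact isIntegral_one
  have h2 : ∀ i : ℕ, red 𝔐 (ζ ^ i) = 1 := by
    intro i
    induction i with
    | zero => rw [pow_zero, red_one]
    | succ i ih => rw [pow_succ, red_mul 𝔐 (hi.pow i) hi, ih, hr, one_mul]
  refine ⟨k, eq_one_of_red h𝔐 hℓ (m := m) ?_ hm (h2 _)⟩
  rw [← pow_mul]
  exact hn

end Root

/-! ### The linear character under an irreducible character -/

section Lin

variable {L : Type} [Group L] [Fintype L] {U : Subgroup L}

theorem exists_lin (hU : U ≤ Subgroup.center L) {S : Subgroup L} (hS : U ≤ S) {η : S → ℂ}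
    (hη : IsIrr η) : ∃ ν : U →* ℂˣ, OvL U ν S η := by
  have hc : ∀ (z : U) (y : S), Subgroup.inclusion hS z * y = y * Subgroup.inclusion hS z := by
    intro z y
    apply Subtype.ext
    exact (Subgroup.mem_center_iff.mp (hU z.2) y).symm
  obtain ⟨ν, hν⟩ := DPC.TWE.exists_nu (Subgroup.inclusion hS) hc hη
  refine ⟨ν, fun s t h => ?_⟩
  have h1 : s = Subgroup.inclusion hS ⟨s, h⟩ := rfl
  have h2 := hν ⟨s, h⟩ t
  rw [← hc ⟨s, h⟩ t, ← h1] at h2
  rw [h2, mul_comm]

theorem lin_apply {S : Subgroup L} (hS : U ≤ S) {η : S → ℂ} {ν : U →* ℂˣ}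
    (h : OvL U ν S η) (u : U) (t : S) :
    η (⟨u, hS u.2⟩ * t) = ((ν u : ℂˣ) : ℂ) * η t :=
  h ⟨u, hS u.2⟩ t u.2

theorem lin_unique {S : Subgroup L} (hS : U ≤ S) {η : S → ℂ} (hη : IsIrr η)
    {ν ν' : U →* ℂˣ} (h : OvL U ν S η) (h' : OvL U ν' S η) : ν = ν' := by
  ext u
  have h1 := lin_apply hS h u 1
  have h2 := lin_apply hS h' u 1
  rw [h1] at h2
  exact mul_right_cancel₀ hη.one_ne_zero h2

theorem cen_apply (𝔐 : Ideal (integralClosure ℤ ℂ)) (hU : U ≤ Subgroup.center L)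
    {S : Subgroup L} (hS : U ≤ S) {η : S → ℂ} (hη : IsIrr η) {ν : U →* ℂˣ}
    (h : OvL U ν S η) (u : U) : cen 𝔐 S.subtype η u = red 𝔐 ((ν u : ℂˣ) : ℂ) := by
  classical
  rw [cen]
  congr 1
  rw [wt, div_eq_iff hη.one_ne_zero]
  have h1 : ∀ y : S, conjInd (S.subtype y) (u : L) =
      if y = (⟨u, hS u.2⟩ : S) then 1 else 0 := by
    intro y
    unfold conjInd
    by_cases h3 : y = (⟨u, hS u.2⟩ : S)
    · rw [if_pos h3, if_pos]
      rw [h3]
      exact IsConj.refl _
    · rw [if_neg h3, if_neg]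
      intro h2
      obtain ⟨g, hg⟩ := isConj_iff.mp h2.symm
      have h4 := Subgroup.mem_center_iff.mp (hU u.2) g
      rw [h4, mul_inv_cancel_right] at hg
      exact h3 (Subtype.ext hg.symm)
  simp only [h1, ite_mul, one_mul, zero_mul, Finset.sum_ite_eq', Finset.mem_univ, if_true]
  have h2 := lin_apply hS h u 1
  rw [mul_one] at h2
  exact h2

end Lin

/-! ### The numbers of characters -/

section Num

variable {L : Type} [Group L] [Fintype L] (𝔐 : Ideal (integralClosure ℤ ℂ)) (ℓ : ℕ)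

/-- The number of characters over `ν`. -/
noncomputable def NN (U : Subgroup L) (d : ℕ) (c : L → (integralClosure ℤ ℂ) ⧸ 𝔐)
    (S : Subgroup L) (ν : U →* ℂˣ) : ℕ :=
  Nat.card {η : S → ℂ // IsIrr η ∧ OvL U ν _ η ∧ HasDefect ℓ η d ∧ cen 𝔐 S.subtype η = c}

theorem finiteLin (U : Subgroup L) (hU : U ≤ Subgroup.center L) : Finite (U →* ℂˣ) := by
  let _ : CommGroup U := { (inferInstance : Group U) with
    mul_comm := fun a b => Subtype.ext (Subgroup.mem_center_iff.mp (hU b.2) a) }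
  exact finiteLinChar

theorem sum_NN {U : Subgroup L} (hU : U ≤ Subgroup.center L) (d : ℕ)
    (c : L → (integralClosure ℤ ℂ) ⧸ 𝔐) {S : Subgroup L} (hS : U ≤ S) (R : (U →* ℂˣ) → Prop)
    [DecidablePred R] [Fintype (U →* ℂˣ)] :
    Nat.card {η : S → ℂ // IsIrr η ∧ ((∀ ν, OvL U ν S η → R ν) ∧ HasDefect ℓ η d ∧
      cen 𝔐 S.subtype η = c)} = ∑ ν with R ν, NN 𝔐 ℓ U d c S ν := by
  classical
  rw [card_rel (fun η : S → ℂ => IsIrr η ∧ ((∀ ν, OvL U ν S η → R ν) ∧ HasDefect ℓ η d ∧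
      cen 𝔐 S.subtype η = c)) (finite_isIrr.subset fun η h => h.1)
    (fun ν η => OvL U ν S η) (Finset.univ.filter R)]
  · refine Finset.sum_congr rfl fun ν hν => ?_
    refine Nat.card_congr (Equiv.subtypeEquivRight fun η => ?_)
    constructor
    · rintro ⟨⟨h1, h2, h3, h4⟩, h5⟩
      exact ⟨h1, h5, h3, h4⟩
    · rintro ⟨h1, h5, h3, h4⟩
      refine ⟨⟨h1, fun ν' h6 => ?_, h3, h4⟩, h5⟩
      rw [lin_unique hS h1 h6 h5]
      exact (Finset.mem_filter.mp hν).2
  · rintro η ⟨h1, h2, -⟩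
    obtain ⟨ν, hν⟩ := exists_lin hU hS h1
    exact ⟨ν, Finset.mem_filter.mpr ⟨Finset.mem_univ _, h2 ν hν⟩, hν⟩
  · rintro η ⟨h1, -⟩ ν ν' h2 h3
    exact lin_unique hS h1 h2 h3

theorem cnt_eq {U : Subgroup L} (hU : U ≤ Subgroup.center L) (d : ℕ)
    (c : L → (integralClosure ℤ ℂ) ⧸ 𝔐) {S : Subgroup L} (hS : U ≤ S) [Fintype (U →* ℂˣ)] :
    cnt 𝔐 ℓ d S.subtype c = ∑ ν, NN 𝔐 ℓ U d c S ν := by
  classical
  have h1 := sum_NN 𝔐 ℓ hU d c hS (fun _ => True)
  rw [Finset.filter_true] at h1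
  rw [← h1, cnt]
  refine Nat.card_congr (Equiv.subtypeEquivRight fun η => ?_)
  constructor
  · rintro ⟨h1, h2, h3⟩
    exact ⟨h1, fun _ _ => trivial, h2, funext h3⟩
  · rintro ⟨h1, -, h2, h3⟩
    exact ⟨h1, h2, fun g => congrFun h3 g⟩

end Num

/-! ### The quotient -/

section Quo

variable {L L' : Type} [Group L] [Fintype L] [Group L'] [Fintype L']
  (𝔐 : Ideal (integralClosure ℤ ℂ)) (ℓ : ℕ)

/-- The inflation. -/
def infl (q : L →* L') (S : Subgroup L) (η' : S.map q → ℂ) : S → ℂ :=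
  fun x : S => η' ⟨q x, Subgroup.mem_map_of_mem q x.2⟩

theorem infl_injective (q : L →* L') (S : Subgroup L) : Function.Injective (infl q S) := by
  intro η η' h
  funext ⟨y, x, hx, hy⟩
  subst hy
  exact congrFun h ⟨x, hx⟩

theorem card_triv {q : L →* L'} {S : Subgroup L}
    {Θ : (L' → (integralClosure ℤ ℂ) ⧸ 𝔐) → L → (integralClosure ℤ ℂ) ⧸ 𝔐}
    (h1 : ∀ η' : S.map q → ℂ, IsIrr η' → IsIrr (infl q S η') ∧
      cen 𝔐 S.subtype (infl q S η') = Θ (cen 𝔐 (S.map q).subtype η') ∧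
      ∀ d, HasDefect ℓ (infl q S η') (d + padicValNat ℓ (Nat.card q.ker)) ↔
        HasDefect ℓ η' d)
    (h2 : ∀ η : S → ℂ, IsIrr η → (∀ x y : S, q (x : L) = 1 → η (x * y) = η y) →
      ∃ η' : S.map q → ℂ, IsIrr η' ∧ η = infl q S η')
    (d' : ℕ) (c : L → (integralClosure ℤ ℂ) ⧸ 𝔐)
    (C : Finset (L' → (integralClosure ℤ ℂ) ⧸ 𝔐))
    (hC : ∀ η' : S.map q → ℂ, IsIrr η' → cen 𝔐 (S.map q).subtype η' ∈ C)
    [DecidablePred fun c' => Θ c' = c] :
    Nat.card {η : S → ℂ // IsIrr η ∧ ((∀ x y : S, q (x : L) = 1 → η (x * y) = η y) ∧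
      HasDefect ℓ η (d' + padicValNat ℓ (Nat.card q.ker)) ∧ cen 𝔐 S.subtype η = c)} =
      ∑ c' ∈ C with Θ c' = c, cnt 𝔐 ℓ d' (S.map q).subtype c' := by
  classical
  have h3 : Nat.card {η : S → ℂ // IsIrr η ∧
      ((∀ x y : S, q (x : L) = 1 → η (x * y) = η y) ∧
      HasDefect ℓ η (d' + padicValNat ℓ (Nat.card q.ker)) ∧ cen 𝔐 S.subtype η = c)} =
      Nat.card {η' : S.map q → ℂ // IsIrr η' ∧ HasDefect ℓ η' d' ∧
        Θ (cen 𝔐 (S.map q).subtype η') = c} := by
    symm
    refine Nat.card_congr (Equiv.ofBijective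
      (fun η' => ⟨infl q S η'.1, (h1 η'.1 η'.2.1).1, ?_, ((h1 η'.1 η'.2.1).2.2 d').mpr η'.2.2.1,
        (h1 η'.1 η'.2.1).2.1.trans η'.2.2.2⟩) ⟨?_, ?_⟩)
    · intro x y hx
      refine congrArg η'.1 (Subtype.ext ?_)
      change q ((x : L) * (y : L)) = q y
      rw [map_mul, hx, one_mul]
    · rintro ⟨η, _⟩ ⟨η', _⟩ h
      exact Subtype.ext (infl_injective q S (congrArg Subtype.val h))
    · rintro ⟨η, h4, h5, h6, h7⟩
      obtain ⟨η', h8, rfl⟩ := h2 η h4 h5
      refine ⟨⟨η', h8, ((h1 η' h8).2.2 d').mp h6, ?_⟩, rfl⟩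
      rw [← (h1 η' h8).2.1]
      exact h7
  rw [h3, card_rel (fun η' : S.map q → ℂ => IsIrr η' ∧ HasDefect ℓ η' d' ∧
      Θ (cen 𝔐 (S.map q).subtype η') = c) (finite_isIrr.subset fun η h => h.1)
    (fun c' η' => cen 𝔐 (S.map q).subtype η' = c') (C.filter (fun c' => Θ c' = c))]
  · refine Finset.sum_congr rfl fun c' hc' => ?_
    rw [cnt]
    refine Nat.card_congr (Equiv.subtypeEquivRight fun η => ?_)
    constructor
    · rintro ⟨⟨h4, h5, h6⟩, h7⟩
      exact ⟨h4, h5, fun g => congrFun h7 g⟩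
    · rintro ⟨h4, h5, h6⟩
      have h7 : cen 𝔐 (S.map q).subtype η = c' := funext h6
      refine ⟨⟨h4, h5, ?_⟩, h7⟩
      rw [h7]
      exact (Finset.mem_filter.mp hc').2
  · rintro η ⟨h4, h5, h6⟩
    exact ⟨_, Finset.mem_filter.mpr ⟨hC η h4, h6⟩, rfl⟩
  · rintro η _ b b' rfl rfl
    rfl

end Quo

section Ker

variable {L : Type} [Group L] [Fintype L] {𝔐 : Ideal (integralClosure ℤ ℂ)}

theorem exists_ker (h𝔐 : 𝔐.IsMaximal) {ℓ : ℕ} [Fact ℓ.Prime]
    (hℓ : (ℓ : integralClosure ℤ ℂ) ∈ 𝔐) {U : Subgroup L} {μ ν : U →* ℂˣ}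
    (hinj : Function.Injective μ)
    (hc : ∀ u, red 𝔐 ((μ u : ℂˣ) : ℂ) = red 𝔐 ((ν u : ℂˣ) : ℂ))
    (hν : ¬ Function.Injective ν) : ∃ u : U, orderOf u = ℓ ∧ ν u = 1 := by
  have hP : IsPGroup ℓ ν.ker := by
    rintro ⟨u, hu⟩
    have h1 : red 𝔐 ((μ u : ℂˣ) : ℂ) = 1 := by
      rw [hc, MonoidHom.mem_ker.mp hu, Units.val_one, red_one]
    have h2 : ((μ u : ℂˣ) : ℂ) ^ Nat.card U = 1 := by
      rw [← Units.val_pow_eq_pow_val, ← map_pow, pow_card_eq_one', map_one, Units.val_one]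
    obtain ⟨k, hk⟩ := pow_of_red h𝔐 hℓ Nat.card_pos.ne' h2 h1
    refine ⟨k, ?_⟩
    apply Subtype.ext
    change u ^ ℓ ^ k = 1
    apply hinj
    rw [map_one, map_pow]
    apply Units.ext
    rw [Units.val_pow_eq_pow_val, hk, Units.val_one]
  have h1 : ν.ker ≠ ⊥ := fun h => hν ((MonoidHom.ker_eq_bot_iff ν).mp h)
  obtain ⟨n, hn⟩ := IsPGroup.iff_card.mp hP
  have h2 : ℓ ∣ Nat.card ν.ker := by
    rcases Nat.eq_zero_or_pos n with rfl | h0
    · rw [pow_zero] at hn
      exact absurd (Subgroup.card_eq_one.mp hn) h1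
    · rw [hn]
      exact dvd_pow_self ℓ h0.ne'
  obtain ⟨x, hx⟩ := exists_prime_orderOf_dvd_card' ℓ h2
  exact ⟨x, by rw [Subgroup.orderOf_coe, hx], x.2⟩

theorem mem_zpowers {U : Subgroup L} (hcyc : IsCyclic U) {u u' : U}
    (h : orderOf u = orderOf u') : u' ∈ Subgroup.zpowers u := by
  have h1 := DPC.MOBBC.le_of_card_dvd hcyc (Subgroup.zpowers u') (Subgroup.zpowers u)
    (by rw [Nat.card_zpowers, Nat.card_zpowers, h])
  exact h1 (Subgroup.mem_zpowers u')

end Ker

end ISOL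

theorem ISOL_thm (h1 : Stmt_GALX) (h2 : Stmt_QINF) : Stmt_ISOL := by
  classical
  intro L ι _ _ 𝔐 ℓ _ h𝔐 hℓ U μ hU hcyc hinj s w S hS d c hsum
  have hfl := ISOL.finiteLin U hU
  let _ : Fintype (U →* ℂˣ) := Fintype.ofFinite _
  have hp : ℓ.Prime := Fact.out
  -- the sums
  set Φ : (U →* ℂˣ) → ℚ := fun ν => ∑ k ∈ s, w k * (ISOL.NN 𝔐 ℓ U d c (S k) ν : ℚ) with hΦ
  have hΦμ : Φ μ ≠ 0 := hsum
  have hex : ∀ ν, Φ ν ≠ 0 → ∀ u : U, c u = red 𝔐 ((ν u : ℂˣ) : ℂ) := by
    intro ν hν u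
    obtain ⟨k, hk, hk'⟩ := Finset.exists_ne_zero_of_sum_ne_zero hν
    have h3 : ISOL.NN 𝔐 ℓ U d c (S k) ν ≠ 0 := by
      intro h4
      rw [h4] at hk'
      simp at hk'
    obtain ⟨η, h5, h6, h7, h8⟩ := (Nat.card_ne_zero.mp h3).1
    rw [← h8]
    exact ISOL.cen_apply 𝔐 hU (hS k hk) h5 h6 u
  have hcong : ∀ ν, Φ ν ≠ 0 → ∀ u, red 𝔐 ((μ u : ℂˣ) : ℂ) = red 𝔐 ((ν u : ℂˣ) : ℂ) :=
    fun ν hν u => (hex μ hΦμ u).symm.trans (hex ν hν u)
  have hinjΦ : ∀ ν : U →* ℂˣ, Function.Injective ν →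
      (∀ u, red 𝔐 ((μ u : ℂˣ) : ℂ) = red 𝔐 ((ν u : ℂˣ) : ℂ)) → Φ ν = Φ μ := by
    intro ν hν hc
    refine Finset.sum_congr rfl fun k hk => ?_
    have h3 : ISOL.NN 𝔐 ℓ U d c (S k) μ = ISOL.NN 𝔐 ℓ U d c (S k) ν :=
      h1 L 𝔐 ℓ h𝔐 hℓ U μ ν hU hcyc hinj hν hc (S k) (hS k hk) d c
    rw [h3]
  have hcnt : ∑ k ∈ s, w k * (cnt 𝔐 ℓ d (S k).subtype c : ℚ) = ∑ ν, Φ ν := by
    rw [hΦ, Finset.sum_comm]
    refine Finset.sum_congr rfl fun k hk => ?_
    rw [ISOL.cnt_eq 𝔐 ℓ hU d c (hS k hk), Nat.cast_sum, Finset.mul_sum]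
  by_cases hT : ∑ ν, Φ ν ≠ 0
  · -- the identity
    have hk1 : (MonoidHom.id L).ker = ⊥ := (MonoidHom.ker_eq_bot_iff _).mpr fun _ _ h => h
    refine ⟨L, inferInstance, inferInstance, MonoidHom.id L, d, c, Function.surjective_id,
      ?_, ?_, ?_, ?_, ?_⟩
    · rw [hk1]
      exact bot_le
    · rw [hk1]
      exact IsPGroup.of_bot
    · rw [hk1, Subgroup.card_bot, padicValNat_one_right, add_zero]
    · rw [← hcnt] at hT
      have h3 : ∀ k, cnt 𝔐 ℓ d ((S k).map (MonoidHom.id L)).subtype c =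
          cnt 𝔐 ℓ d (S k).subtype c := fun k => by rw [Subgroup.map_id]
      simp only [h3]
      exact hT
    · intro S' _ η' hη' hcen
      let e : S' ≃* S'.map (MonoidHom.id L) :=
        MulEquiv.subgroupCongr (Subgroup.map_id S').symm
      have h3 : (fun x : S' => η' ⟨MonoidHom.id L x,
          Subgroup.mem_map_of_mem (MonoidHom.id L) x.2⟩) = fun x => η' (e x) := rfl
      rw [h3]
      refine ⟨hη'.comp_mulEquiv e, ?_⟩
      have h4 := cen_comp_equiv 𝔐 e (S'.map (MonoidHom.id L)).subtype η'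
      rw [hcen] at h4
      exact h4
  · rw [not_not] at hT
    have hsplit := Finset.sum_filter_add_sum_filter_not Finset.univ
      (fun ν : U →* ℂˣ => Function.Injective ν) Φ
    rw [hT] at hsplit
    have hI : ∑ ν ∈ Finset.univ.filter (fun ν : U →* ℂˣ => Function.Injective ν), Φ ν ≠ 0 := by
      have h3 : ∑ ν ∈ Finset.univ.filter (fun ν : U →* ℂˣ => Function.Injective ν), Φ ν =
          ∑ ν ∈ Finset.univ.filter (fun ν : U →* ℂˣ => Function.Injective ν),
            if ∀ u, red 𝔐 ((μ u : ℂˣ) : ℂ) = red 𝔐 ((ν u : ℂˣ) : ℂ) then Φ μ else 0 := by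
        refine Finset.sum_congr rfl fun ν hν => ?_
        split_ifs with h4
        · exact hinjΦ ν (Finset.mem_filter.mp hν).2 h4
        · by_contra h5
          exact h4 (hcong ν h5)
      rw [h3, ← Finset.sum_filter, Finset.sum_const, nsmul_eq_mul]
      apply mul_ne_zero _ hΦμ
      rw [Nat.cast_ne_zero, ← Nat.pos_iff_ne_zero, Finset.card_pos]
      exact ⟨μ, Finset.mem_filter.mpr ⟨Finset.mem_filter.mpr ⟨Finset.mem_univ _, hinj⟩,
        fun _ => rfl⟩⟩
    have hNI : ∑ ν ∈ Finset.univ.filter (fun ν : U →* ℂˣ => ¬ Function.Injective ν), Φ ν ≠ 0 := by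
      intro h3
      rw [h3, add_zero] at hsplit
      exact hI hsplit
    obtain ⟨ν0, hν0, hν0'⟩ := Finset.exists_ne_zero_of_sum_ne_zero hNI
    obtain ⟨u0, hu0, hu0'⟩ := ISOL.exists_ker h𝔐 hℓ hinj (hcong ν0 hν0')
      (Finset.mem_filter.mp hν0).2
    have hu1 : u0 ≠ 1 := by
      rintro rfl
      rw [orderOf_one] at hu0
      exact hp.ne_one hu0.symm
    have hNI2 : ∑ ν ∈ Finset.univ.filter (fun ν : U →* ℂˣ => ¬ Function.Injective ν), Φ ν =
        ∑ ν : U →* ℂˣ with ν u0 = 1, Φ ν := by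
      rw [Finset.sum_filter, Finset.sum_filter]
      refine Finset.sum_congr rfl fun ν _ => ?_
      by_cases h3 : Φ ν = 0
      · rw [h3]
        simp
      · refine if_congr ?_ rfl rfl
        constructor
        · intro h4
          obtain ⟨u1, h5, h6⟩ := ISOL.exists_ker h𝔐 hℓ hinj (hcong ν h3) h4
          have h7 := ISOL.mem_zpowers hcyc (u := u1) (u' := u0) (h5.trans hu0.symm)
          obtain ⟨n, hn⟩ := Subgroup.mem_zpowers_iff.mp h7
          rw [← hn, map_zpow, h6, one_zpow]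
        · intro h4 h5
          exact hu1 (h5 (h4.trans (map_one ν).symm))
    -- the quotient
    let Ω : Subgroup L := (Subgroup.zpowers u0).map U.subtype
    have hΩU : Ω ≤ U := by
      rintro _ ⟨u, _, rfl⟩
      exact u.2
    have hΩn : Ω.Normal := by
      constructor
      intro x hx g
      have h3 := Subgroup.mem_center_iff.mp (hU (hΩU hx)) g
      rw [h3, mul_inv_cancel_right]
      exact hx
    have hΩc : Nat.card Ω = ℓ := by
      rw [Subgroup.card_map_of_injective U.subtype_injective, Nat.card_zpowers, hu0]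
    let q : L →* L ⧸ Ω := QuotientGroup.mk' Ω
    have hq : Function.Surjective q := QuotientGroup.mk'_surjective Ω
    have hker : q.ker = Ω := QuotientGroup.ker_mk' Ω
    have hq1 : ∀ x : L, q x = 1 ↔ x ∈ Ω := fun x =>
      MonoidHom.mem_ker.symm.trans (by rw [hker])
    let _ : Fintype (L ⧸ Ω) := Fintype.ofFinite _
    obtain ⟨Θ, hΘ⟩ := h2 L (L ⧸ Ω) 𝔐 ℓ h𝔐 hℓ q hq (by rw [hker]; exact hΩU.trans hU)
    have hval : padicValNat ℓ (Nat.card q.ker) = 1 := by
      rw [hker, hΩc, padicValNat_self]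
    have hkS : ∀ k ∈ s, q.ker ≤ S k := fun k hk => by
      rw [hker]
      exact hΩU.trans (hS k hk)
    -- the numbers of the characters which are trivial on `Ω`
    have hT1 : ∑ ν : U →* ℂˣ with ν u0 = 1, Φ ν = ∑ k ∈ s, w k *
        (Nat.card {η : S k → ℂ // IsIrr η ∧
          ((∀ x y : S k, q (x : L) = 1 → η (x * y) = η y) ∧ HasDefect ℓ η d ∧
            cen 𝔐 (S k).subtype η = c)} : ℚ) := by
      rw [hΦ, Finset.sum_comm]
      refine Finset.sum_congr rfl fun k hk => ?_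
      rw [← Finset.mul_sum, ← Nat.cast_sum,
        ← ISOL.sum_NN 𝔐 ℓ hU d c (hS k hk) (fun ν => ν u0 = 1)]
      congr 2
      refine Nat.card_congr (Equiv.subtypeEquivRight fun η => ?_)
      refine and_congr_right fun hη => and_congr_left fun _ => ?_
      constructor
      · intro h3 x y hx
        obtain ⟨ν, hν⟩ := ISOL.exists_lin hU (hS k hk) hη
        have h4 := h3 ν hν
        obtain ⟨u, hu, hux⟩ := (hq1 x).mp hx
        obtain ⟨n, hn⟩ := Subgroup.mem_zpowers_iff.mp hu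
        have h5 : (x : L) ∈ U := hΩU ((hq1 x).mp hx)
        have h6 : (⟨(x : L), h5⟩ : U) = u := Subtype.ext hux.symm
        rw [hν x y h5, h6, ← hn, map_zpow, h4, one_zpow, Units.val_one, one_mul]
      · intro h3 ν hν
        have h4 := ISOL.lin_apply (hS k hk) hν u0 1
        rw [h3 ⟨u0, hS k hk u0.2⟩ 1 ((hq1 _).mpr ⟨u0, Subgroup.mem_zpowers u0, rfl⟩)] at h4
        have h5 : ((ν u0 : ℂˣ) : ℂ) = 1 := by
          have h6 : (1 : ℂ) * η 1 = ((ν u0 : ℂˣ) : ℂ) * η 1 := by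
            rw [one_mul]
            exact h4
          exact (mul_right_cancel₀ hη.one_ne_zero h6).symm
        exact Units.ext h5
    rw [hNI2, hT1] at hNI
    -- the defect
    obtain ⟨d', hd'⟩ : ∃ d', d = d' + padicValNat ℓ (Nat.card q.ker) := by
      obtain ⟨k, hk, hk'⟩ := Finset.exists_ne_zero_of_sum_ne_zero hNI
      have h3 := right_ne_zero_of_mul hk'
      rw [Nat.cast_ne_zero] at h3
      obtain ⟨η, h4, h5, h6, h7⟩ := (Nat.card_ne_zero.mp h3).1
      obtain ⟨η', h8, rfl⟩ := (hΘ (S k) (hkS k hk)).2 η h4 h5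
      obtain ⟨e, he⟩ := h8.exists_defect (ℓ := ℓ)
      exact ⟨e, h6.unique ((((hΘ (S k) (hkS k hk)).1 η' h8).2.2 e).mpr he)⟩
    -- the central functions of the quotient
    have hfin : (⋃ k ∈ s, {c' : L ⧸ Ω → (integralClosure ℤ ℂ) ⧸ 𝔐 |
        ∃ ψ : (S k).map q → ℂ, IsIrr ψ ∧ cen 𝔐 ((S k).map q).subtype ψ = c'}).Finite := by
      apply Set.Finite.biUnion (Finset.finite_toSet _)
      intro k _
      exact finite_cen 𝔐 _
    have hT2 : ∀ k ∈ s, Nat.card {η : S k → ℂ // IsIrr η ∧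
        ((∀ x y : S k, q (x : L) = 1 → η (x * y) = η y) ∧ HasDefect ℓ η d ∧
          cen 𝔐 (S k).subtype η = c)} = ∑ c' ∈ hfin.toFinset with Θ c' = c,
            cnt 𝔐 ℓ d' ((S k).map q).subtype c' := by
      intro k hk
      rw [hd']
      refine ISOL.card_triv 𝔐 ℓ (hΘ (S k) (hkS k hk)).1 (hΘ (S k) (hkS k hk)).2 d' c _ ?_
      intro η' hη'
      rw [Set.Finite.mem_toFinset, Set.mem_iUnion₂]
      exact ⟨k, hk, η', hη', rfl⟩
    have hT3 : ∑ c' ∈ hfin.toFinset with Θ c' = c,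
        ∑ k ∈ s, w k * (cnt 𝔐 ℓ d' ((S k).map q).subtype c' : ℚ) ≠ 0 := by
      intro h3
      apply hNI
      rw [← h3, Finset.sum_comm]
      refine Finset.sum_congr rfl fun k hk => ?_
      rw [hT2 k hk, Nat.cast_sum, Finset.mul_sum]
    obtain ⟨c', hc', hc''⟩ := Finset.exists_ne_zero_of_sum_ne_zero hT3
    refine ⟨L ⧸ Ω, inferInstance, inferInstance, q, d', c', hq, ?_, ?_, hd', hc'', ?_⟩
    · rw [hker]
      exact hΩU
    · rw [hker]
      exact IsPGroup.of_card (n := 1) (by rw [hΩc, pow_one])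
    · intro S' hS' η' hη' hcen
      obtain ⟨h3, h4, -⟩ := (hΘ S' hS').1 η' hη'
      refine ⟨h3, ?_⟩
      rw [h4, hcen]
      exact (Finset.mem_filter.mp hc').2

end Pool.Agent.DPM


end

section

/-!
# LIFTV: transports and the group of the data
-/

namespace Pool.Agent.DPV

open Pool.Agent.DP

open Pool.Agent.Lib_helper13 Representation
open Pool.Agent.Lib_helper13.Dade (pCore DadeHolds dadeSum)

namespace LIFTV

variable {O G B C Y K : Type*} [Group G] [Group B] [Group C] [Group Y] [Group K]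

theorem vg_mono (ρ : B →* C) (p : Y →* K) (φ : Y →* Gam (Equiv.Perm O) O B) {J J' : Subgroup K}
    (h : J ≤ J') (o : O) : vg ρ p φ J o ≤ vg ρ p φ J' o := by
  rintro c ⟨y, hy1, hy2, hy3⟩
  exact ⟨y, h hy1, hy2, hy3⟩

theorem exists_iota {ι : G →* B} {κ : B →* MulAut G} {ρ : B →* C} (h : ClG ι κ ρ) {a b : B}
    (hab : ρ a = ρ b) : ∃ x, a = ι x * b := by
  have h1 : ρ (a * b⁻¹) = 1 := by rw [map_mul, map_inv, hab, mul_inv_cancel]
  obtain ⟨x, hx⟩ := (h.ker _).mp h1
  exact ⟨x, by rw [hx, inv_mul_cancel_right]⟩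

end LIFTV

open _root_.Pool.Agent.DPV.LIFTV in
theorem LIFTV_thm (h1 : Stmt_TRV) (h2 : Stmt_REPV) (h3 : Stmt_PERAV) : Stmt_LIFTV := by
  intro O G B C Y K _ _ _ _ _ _ _ _ _ _ _ 𝔐 ℓ _ ι κ ρ hL j p φ hE J r t hr τ hτ θ hθ g hg htr
  obtain ⟨-, -, hrep⟩ := h2 O G B C Y K ι κ ρ hL j p φ hE J
  obtain ⟨hrr, hvg, hzz⟩ := hrep r t hr
  obtain ⟨hst, htrb⟩ := h1 O G B C 𝔐 ℓ ι κ ρ hL τ θ hθ
  constructor
  · constructor
    · intro hJ o
      obtain ⟨-, -, -, -, h5⟩ := h3 O G B C Y K ℓ ι κ ρ hL j p φ hE τ hτ θ hθ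
      exact (vg_mono ρ p φ hJ (r o)).trans (h5 (r o))
    · intro hJ k hk
      obtain ⟨y0, rfl⟩ := hE.surj k
      have hr' : ∀ o, r ((φ y0).right⁻¹ • o) = r o := by
        intro o
        have := hr.con y0⁻¹ (by rw [map_inv]; exact J.inv_mem hk) o
        rw [map_inv, SemidirectProduct.inv_right] at this
        exact this
      have hx : ∀ o, ∃ x, ι x * zz φ g y0 o ∈ Stx κ (comp τ (r o)) (θ (r o)) := by
        intro o
        obtain ⟨s, hs, hs'⟩ := hJ o (hzz y0 hk g hg o)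
        obtain ⟨x, hx⟩ := exists_iota hL.cl hs'
        exact ⟨x, by rw [← hx]; exact hs⟩
      choose x hx using hx
      refine ⟨j (fun o => κ (g o) (x o)) * y0, ?_, ?_⟩
      · intro o
        have e1 : (φ (j (fun o => κ (g o) (x o)) * y0)).right = (φ y0).right := by
          rw [map_mul, hE.jn, SemidirectProduct.mul_right, SemidirectProduct.right_inl, one_mul]
        have e2 : (φ (j (fun o => κ (g o) (x o)) * y0)).left o =
            g o * (ι (x o) * zz φ g y0 o) * (g ((φ y0).right⁻¹ • o))⁻¹ := by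
          rw [map_mul, hE.jn, SemidirectProduct.mul_left, SemidirectProduct.left_inl,
            SemidirectProduct.right_inl, map_one, MulAut.one_apply, Pi.mul_apply, hL.cl.act, zz]
          group
        rw [e1, e2]
        have t1 : trB κ τ θ ((φ y0).right⁻¹ • o) (r o) (g ((φ y0).right⁻¹ • o))⁻¹ := by
          have := (htr ((φ y0).right⁻¹ • o)).inv
          rw [hr' o] at this
          exact this
        have t2 : trB κ τ θ (r o) (r o) (ι (x o) * zz φ g y0 o) := (hst _ _).mpr (hx o)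
        rw [mul_assoc]
        exact (htr o).mul (t2.mul t1)
      · rw [map_mul]
        have : p (j (fun o => κ (g o) (x o))) = 1 := (hE.cl.ker _).mpr ⟨_, rfl⟩
        rw [this, one_mul]
  · intro o
    unfold bts
    rw [hvg o, ← hg o, (htrb (r o) o (g o) (htr o)).2.2.2.2.2]
    refine Set.image_congr ?_
    rintro _ ⟨f, -, rfl⟩
    obtain ⟨n, hn⟩ := exists_iota hL.cl (hg o)
    obtain ⟨-, -, -, -, h5⟩ := CGT_thm G B C 𝔐 ι κ ρ hL.cl
    funext x
    have e : (g o)⁻¹ * x * g o = ι (κ ((φ (t o)).left o)⁻¹ n⁻¹) *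
        (((φ (t o)).left o)⁻¹ * x * (φ (t o)).left o) *
        (ι (κ ((φ (t o)).left o)⁻¹ n⁻¹))⁻¹ := by
      rw [hn, hL.cl.act, map_inv]
      group
    rw [e, h5]

end Pool.Agent.DPV


end
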