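import Mathlib
import Pool.Agent.DAM.C11
import Pool.Agent.DAM.C13
import Pool.Agent.DAM.C18
import Pool.Agent.DAM.C19
import Pool.Agent.DAM.C26
import Pool.Agent.DAM.C27
import Pool.Agent.DAM.C29

/-! Parts: DPM.CHC, DPT.EXTL, DPT.CAX, DPF.NUG, DPG.CHT -/

section

/-!
# CHC: the chains of a central extension
-/

set_option linter.unusedSectionVars false
set_option linter.unusedVariables false

namespace Pool.Agent.DPM

open Pool.Agent.DP Pool.Agent.DPC Pool.Agent.Lib_helper13 Representation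
open Pool.Agent.Lib_helper13.Dade (pCore DadeHolds dadeSum)

namespace CHC

section
variable {L K : Type} [Group L] [Fintype L] [Group K] [Fintype K] {ℓ : ℕ} [Fact ℓ.Prime]
  {π : L →* K}

/-- a central `ℓ`-subgroup lies in the core -/
theorem le_core_of_central {D : Subgroup L} (h : IsPGroup ℓ D) (hc : D ≤ Subgroup.center L) :
    D ≤ pCore ℓ L :=
  le_sSup ⟨⟨fun n hn g => by
    rw [← (Subgroup.mem_center_iff.mp (hc hn) g).symm, mul_assoc, mul_inv_cancel, mul_one]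
    exact hn⟩, h⟩

/-- membership in an `ℓ`-subgroup which contains the core -/
theorem mem_iff (hk : π.ker ≤ Subgroup.center L) {D : Subgroup L} (hD : IsPGroup ℓ D)
    (hZ : pCore ℓ L ≤ D) (x : L) : x ∈ D ↔ π x ∈ D.map π ∧ ∃ n : ℕ, x ^ ℓ ^ n = 1 := by
  constructor
  · intro hx
    refine ⟨Subgroup.mem_map_of_mem π hx, ?_⟩
    obtain ⟨n, hn⟩ := hD ⟨x, hx⟩
    exact ⟨n, by simpa using congrArg Subtype.val hn⟩
  · rintro ⟨⟨d, hd, hdx⟩, n, hn⟩
    obtain ⟨m, hm⟩ := hD ⟨d, hd⟩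
    have hm' : d ^ ℓ ^ m = 1 := by simpa using congrArg Subtype.val hm
    have hk1 : d⁻¹ * x ∈ π.ker := by
      rw [MonoidHom.mem_ker, map_mul, map_inv, hdx, inv_mul_cancel]
    have hkc := hk hk1
    have hx : x = d * (d⁻¹ * x) := by group
    set z := d⁻¹ * x with hz
    have hcomm : Commute d z := (Subgroup.mem_center_iff.mp hkc d)
    have hzn : z ^ ℓ ^ (n + m) = 1 := by
      have h1 : x ^ ℓ ^ (n + m) = 1 := by rw [pow_add, pow_mul, hn, one_pow]
      have h2 : d ^ ℓ ^ (n + m) = 1 := by rw [add_comm, pow_add, pow_mul, hm', one_pow]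
      rw [hx, hcomm.mul_pow, h2, one_mul] at h1
      exact h1
    have h3 : Subgroup.zpowers z ≤ pCore ℓ L := by
      refine le_core_of_central ?_ (by rw [Subgroup.zpowers_le]; exact hkc)
      rintro ⟨y, hy⟩
      obtain ⟨k, rfl⟩ := Subgroup.mem_zpowers_iff.mp hy
      refine ⟨n + m, Subtype.ext ?_⟩
      change (z ^ k) ^ ℓ ^ (n + m) = 1
      rw [← zpow_natCast, ← zpow_mul, mul_comm, zpow_mul, zpow_natCast, hzn, one_zpow]
    rw [hx]
    exact mul_mem hd (hZ (h3 (Subgroup.mem_zpowers z)))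

theorem map_le_iff (hk : π.ker ≤ Subgroup.center L) {D E : Subgroup L} (hD : IsPGroup ℓ D)
    (hE : IsPGroup ℓ E) (hZ : pCore ℓ L ≤ E) : D.map π ≤ E.map π ↔ D ≤ E := by
  refine ⟨fun h x hx => ?_, fun h => Subgroup.map_mono h⟩
  rw [mem_iff hk hE hZ]
  refine ⟨h (Subgroup.mem_map_of_mem π hx), ?_⟩
  obtain ⟨n, hn⟩ := hD ⟨x, hx⟩
  exact ⟨n, by simpa using congrArg Subtype.val hn⟩

theorem map_inj (hk : π.ker ≤ Subgroup.center L) {D E : Subgroup L} (hD : IsPGroup ℓ D)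
    (hE : IsPGroup ℓ E) (hZD : pCore ℓ L ≤ D) (hZ : pCore ℓ L ≤ E) (h : D.map π = E.map π) :
    D = E :=
  le_antisymm ((map_le_iff hk hD hE hZ).1 h.le) ((map_le_iff hk hE hD hZD).1 h.ge)

/-- every `ℓ`-subgroup of the quotient is an image -/
theorem exists_lift (hs : Function.Surjective π) (E : Subgroup K) (hE : IsPGroup ℓ E) :
    ∃ D : Subgroup L, IsPGroup ℓ D ∧ D.map π = E := by
  let H : Subgroup L := E.comap π
  let f : H →* E := (π.comp H.subtype).codRestrict E fun x => x.2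
  have hf : Function.Surjective f := by
    rintro ⟨y, hy⟩
    obtain ⟨x, rfl⟩ := hs y
    exact ⟨⟨x, hy⟩, rfl⟩
  obtain ⟨P⟩ : Nonempty (Sylow ℓ H) := inferInstance
  have htop : (P.mapSurjective hf : Subgroup E) = ⊤ := by
    have h1 := (P.mapSurjective hf).is_maximal' (Q := ⊤) (hE.of_equiv Subgroup.topEquiv.symm)
      le_top
    exact h1.symm
  refine ⟨(P : Subgroup H).map H.subtype, P.isPGroup'.map _, ?_⟩
  rw [Subgroup.map_map]
  have h2 : π.comp H.subtype = E.subtype.comp f := rfl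
  rw [h2, ← Subgroup.map_map]
  have h3 : (P : Subgroup H).map f = ⊤ := htop
  rw [h3, ← MonoidHom.range_eq_map, Subgroup.range_subtype]

theorem core_le_ker (hs : Function.Surjective π) (hK : pCore ℓ K = ⊥) : pCore ℓ L ≤ π.ker := by
  have h1 : (pCore ℓ L).map π ≤ pCore ℓ K :=
    le_sSup ⟨(pCore_normal ℓ).map _ hs, (isPGroup_pCore ℓ).map _⟩
  rw [hK, le_bot_iff, Subgroup.map_eq_bot_iff] at h1
  exact h1

theorem card_core (hs : Function.Surjective π) (hk : π.ker ≤ Subgroup.center L)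
    (hK : pCore ℓ K = ⊥) :
    Nat.card (pCore ℓ L) = ℓ ^ padicValNat ℓ (Nat.card π.ker) := by
  have hp : ℓ.Prime := Fact.out
  obtain ⟨P⟩ : Nonempty (Sylow ℓ π.ker) := inferInstance
  have h1 : Nat.card P = ℓ ^ padicValNat ℓ (Nat.card π.ker) := by
    rw [P.card_eq_multiplicity, Nat.factorization_def _ hp]
  have h2 : (P : Subgroup π.ker).map π.ker.subtype ≤ pCore ℓ L :=
    le_core_of_central (P.isPGroup'.map _) ((Subgroup.map_subtype_le _).trans hk)
  have h3 : Nat.card ((P : Subgroup π.ker).map π.ker.subtype) = Nat.card P :=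
    Subgroup.card_map_of_injective (Subgroup.subtype_injective _)
  refine Nat.dvd_antisymm ?_ ?_
  · obtain ⟨n, hn⟩ := IsPGroup.iff_card.mp (isPGroup_pCore (G := L) ℓ)
    have h4 : Nat.card (pCore ℓ L) ∣ Nat.card π.ker :=
      Subgroup.card_dvd_of_le (core_le_ker hs hK)
    rw [hn] at h4 ⊢
    exact (Nat.pow_dvd_pow_iff_le_right hp.one_lt).2
      ((padicValNat_dvd_iff_le Nat.card_pos.ne').1 h4)
  · rw [← h1, ← h3]
    exact Subgroup.card_dvd_of_le h2

/-- the lift of an `ℓ`-subgroup -/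
theorem exists_lift' (hs : Function.Surjective π) (hk : π.ker ≤ Subgroup.center L)
    (hK : pCore ℓ K = ⊥) (E : Subgroup K) (hE : IsPGroup ℓ E) :
    ∃ D : Subgroup L, (IsPGroup ℓ D ∧ pCore ℓ L ≤ D) ∧ D.map π = E := by
  obtain ⟨D, hD, rfl⟩ := exists_lift hs E hE
  have := pCore_normal (G := L) ℓ
  refine ⟨D ⊔ pCore ℓ L, ⟨hD.to_sup_of_normal_right (isPGroup_pCore ℓ), le_sup_right⟩, ?_⟩
  rw [Subgroup.map_sup, (Subgroup.map_eq_bot_iff _).2 (core_le_ker hs hK), sup_bot_eq]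

/-- the stabilizers correspond -/
theorem stb_eq (hk : π.ker ≤ Subgroup.center L) (hs : Function.Surjective π)
    {σ : Finset (Subgroup L)} (hσ : ∀ D ∈ σ, IsPGroup ℓ D ∧ pCore ℓ L ≤ D) :
    stb σ = (stb (mapCh π σ)).comap π := by
  ext x
  rw [Subgroup.mem_comap, mem_stb', mem_stb']
  constructor
  · rintro h E hE y
    obtain ⟨D, hD, rfl⟩ := mem_mapCh.1 hE
    constructor
    · rintro ⟨d, hd, rfl⟩
      exact ⟨x * d * x⁻¹, (h D hD d).1 hd, by simp⟩
    · rintro ⟨d, hd, hdy⟩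
      refine ⟨x⁻¹ * d * x, ?_, ?_⟩
      · have : x * (x⁻¹ * d * x) * x⁻¹ = d := by group
        refine (h D hD _).2 ?_
        rw [this]; exact hd
      · rw [map_mul, map_mul, map_inv, hdy]; group
  · intro h D hD y
    obtain ⟨h1, h2⟩ := hσ D hD
    rw [mem_iff hk h1 h2, mem_iff hk h1 h2, h _ (mem_mapCh.2 ⟨D, hD, rfl⟩)]
    have h3 : ∀ n : ℕ, (x * y * x⁻¹) ^ ℓ ^ n = 1 ↔ y ^ ℓ ^ n = 1 := fun n => by
      rw [conj_pow, mul_inv_eq_one, mul_eq_left]
    simp only [h3, map_mul, map_inv]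

end

end CHC

theorem CHC_thm : Stmt_CHC := by
  classical
  intro L K _ _ _ _ ℓ _ π hs hk hK
  refine ⟨(CHC.core_le_ker hs hK).trans hk, CHC.card_core hs hk hK, fun W => ?_⟩
  choose! G hG1 hG2 using fun (E : Subgroup K) (hE : IsPGroup ℓ E) =>
    CHC.exists_lift' hs hk hK E hE
  have hGD : ∀ D : Subgroup L, IsPGroup ℓ D → pCore ℓ L ≤ D → G (D.map π) = D := by
    intro D h1 h2
    have h3 := hG1 (D.map π) (h1.map π)
    exact CHC.map_inj hk h3.1 h1 h3.2 h2 (hG2 _ (h1.map π))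
  refine Finset.sum_nbij' (fun σ => mapCh π σ) (fun τ => τ.image G) ?_ ?_ ?_ ?_ ?_
  · intro σ hσ
    rw [mem_Ch] at hσ ⊢
    constructor
    · intro E hE
      obtain ⟨D, hD, rfl⟩ := mem_mapCh.1 hE
      obtain ⟨h1, h2⟩ := hσ.1 D hD
      refine ⟨h1.map π, bot_lt_iff_ne_bot.2 fun h3 => ?_⟩
      have h4 : D.map π ≤ (pCore ℓ L).map π := h3 ▸ bot_le
      exact absurd ((CHC.map_le_iff hk h1 (isPGroup_pCore ℓ) le_rfl).1 h4) (not_le_of_gt h2)
    · intro E hE E' hE' _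
      obtain ⟨D, hD, rfl⟩ := mem_mapCh.1 (Finset.mem_coe.1 hE)
      obtain ⟨D', hD', rfl⟩ := mem_mapCh.1 (Finset.mem_coe.1 hE')
      exact (hσ.total hD hD').imp Subgroup.map_mono Subgroup.map_mono
  · intro τ hτ
    rw [mem_Ch] at hτ ⊢
    constructor
    · intro D hD
      obtain ⟨E, hE, rfl⟩ := Finset.mem_image.1 hD
      obtain ⟨h1, h2⟩ := hτ.1 E hE
      refine ⟨(hG1 E h1).1, lt_of_le_of_ne (hG1 E h1).2 fun h3 => ?_⟩
      have h4 := hG2 E h1
      rw [← h3, (Subgroup.map_eq_bot_iff _).2 (CHC.core_le_ker hs hK)] at h4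
      exact absurd h4 h2.ne
    · intro D hD D' hD' _
      obtain ⟨E, hE, rfl⟩ := Finset.mem_image.1 (Finset.mem_coe.1 hD)
      obtain ⟨E', hE', rfl⟩ := Finset.mem_image.1 (Finset.mem_coe.1 hD')
      have h1 := (hτ.1 E hE).1
      have h1' := (hτ.1 E' hE').1
      rcases hτ.total hE hE' with h | h
      · left
        change G E ≤ G E'
        rw [← CHC.map_le_iff hk (hG1 E h1).1 (hG1 E' h1').1 (hG1 E' h1').2, hG2 E h1, hG2 E' h1']
        exact h
      · right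
        change G E' ≤ G E
        rw [← CHC.map_le_iff hk (hG1 E' h1').1 (hG1 E h1).1 (hG1 E h1).2, hG2 E h1, hG2 E' h1']
        exact h
  · intro σ hσ
    rw [mem_Ch] at hσ
    ext D
    rw [Finset.mem_image]
    constructor
    · rintro ⟨E, hE, rfl⟩
      obtain ⟨D, hD, rfl⟩ := mem_mapCh.1 hE
      rw [hGD D (hσ.1 D hD).1 (hσ.1 D hD).2.le]
      exact hD
    · intro hD
      exact ⟨D.map π, mem_mapCh.2 ⟨D, hD, rfl⟩, hGD D (hσ.1 D hD).1 (hσ.1 D hD).2.le⟩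
  · intro τ hτ
    rw [mem_Ch] at hτ
    ext E
    rw [mem_mapCh]
    constructor
    · rintro ⟨D, hD, rfl⟩
      obtain ⟨E, hE, rfl⟩ := Finset.mem_image.1 hD
      rw [hG2 E (hτ.1 E hE).1]
      exact hE
    · intro hE
      exact ⟨G E, Finset.mem_image_of_mem G hE, hG2 E (hτ.1 E hE).1⟩
  · intro σ hσ
    rw [mem_Ch] at hσ
    have h1 : (mapCh π σ).card = σ.card := by
      rw [mapCh]
      apply Finset.card_image_of_injOn
      intro D hD D' hD' h
      exact CHC.map_inj hk (hσ.1 D hD).1 (hσ.1 D' hD').1 (hσ.1 D hD).2.le (hσ.1 D' hD').2.le h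
    rw [h1, CHC.stb_eq hk hs fun D hD => ⟨(hσ.1 D hD).1, (hσ.1 D hD).2.le⟩]

end Pool.Agent.DPM


end

section

/-!
# EXTL: extension of a linear character of a central subgroup
-/

namespace Pool.Agent.DPT

open Pool.Agent.DP Pool.Agent.DPC Pool.Agent.DPM Pool.Agent.DPN Pool.Agent.Lib_helper13
open Representation

namespace EXTL

/-- Extension of a linear character which is trivial on all commutators. -/
theorem ext_lin {V : Type} [Group V] [Finite V] (B : Subgroup V)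
    (hB : ∀ x y : V, x * y * x⁻¹ * y⁻¹ ∈ B) (φ : B →* ℂˣ)
    (hφ : ∀ x y : V, φ ⟨_, hB x y⟩ = 1) : ∃ ψ : V →* ℂˣ, ∀ b : B, ψ b = φ b := by
  classical
  let f : B →* Abelianization V := Abelianization.of.comp B.subtype
  let q : B →* f.range := f.rangeRestrict
  have hq : Function.Surjective q := f.rangeRestrict_surjective
  have hcomm : commutator V ≤ φ.ker.map B.subtype := by
    rw [commutator_eq_closure, Subgroup.closure_le]
    rintro g ⟨x, y, rfl⟩
    exact ⟨⟨_, hB x y⟩, hφ x y, rfl⟩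
  have hker : q.ker ≤ φ.ker := by
    intro b hb
    have h1 : f b = 1 := congrArg Subtype.val (MonoidHom.mem_ker.1 hb)
    have h2 : (b : V) ∈ (Abelianization.of : V →* Abelianization V).ker := h1
    rw [Abelianization.ker_of] at h2
    obtain ⟨b', hb', e⟩ := hcomm h2
    have e' : b' = b := Subtype.ext e
    rw [← e']
    exact hb'
  obtain ⟨μ, hμ⟩ := MonoidHom.domRestrict_surjective ℂ f.range
    (MonoidHom.liftOfSurjective q hq ⟨φ, hker⟩)
  refine ⟨μ.comp Abelianization.of, fun b => ?_⟩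
  have h1 := DFunLike.congr_fun hμ (q b)
  have h2 : MonoidHom.liftOfSurjective q hq ⟨φ, hker⟩ (q b) = φ b :=
    MonoidHom.liftOfRightInverse_comp_apply q _ (Function.rightInverse_surjInv hq) ⟨φ, hker⟩ b
  rw [h2] at h1
  exact h1

/-- A group with a central subgroup `A` and a normal subgroup `N` of index prime to `ℓ` such that
`N / A` is an `ℓ`-group has a normal Sylow subgroup. -/
theorem exists_nh {W : Type} [Group W] [Finite W] {ℓ : ℕ} [Fact ℓ.Prime] (A : Subgroup W)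
    (hA : A ≤ Subgroup.center W) (N : Subgroup W) [N.Normal] {P : Type} [Group P] [Finite P]
    (hP : IsPGroup ℓ P) (g : N →* P) (hg : ∀ w : N, g w = 1 → (w : W) ∈ A)
    (hi : ¬ ℓ ∣ N.index) :
    ∃ Q : Subgroup W, Q.Normal ∧ IsPGroup ℓ Q ∧ Q ≤ N ∧ ¬ ℓ ∣ Q.index := by
  have hPn : Group.IsNilpotent P := hP.isNilpotent
  have hN : Group.IsNilpotent N := by
    apply Subgroup.isNilpotent_of_ker_le_center g
    intro w hw
    rw [Subgroup.mem_center_iff]
    intro v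
    have h1 := hA (hg w hw)
    rw [Subgroup.mem_center_iff] at h1
    exact Subtype.ext (h1 v)
  obtain ⟨S⟩ : Nonempty (Sylow ℓ N) := inferInstance
  have hS : (S : Subgroup N).Normal :=
    ((Group.isNilpotent_of_finite_tfae (G := N)).out 0 3 rfl rfl).1 hN ℓ inferInstance S
  have hSc : (S : Subgroup N).Characteristic := S.characteristic_of_normal hS
  refine ⟨(S : Subgroup N).map N.subtype, inferInstance, S.2.map _,
    Subgroup.map_subtype_le _, ?_⟩
  rw [Subgroup.index_map_subtype]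
  intro h
  rcases (Fact.out : ℓ.Prime).dvd_mul.1 h with h | h
  · exact S.not_dvd_index h
  · exact hi h

/-- The projection onto a complement of a normal subgroup. -/
theorem exists_proj {W : Type} [Group W] [Finite W] (Q V : Subgroup W) [Q.Normal]
    (h : V.IsComplement' Q) : ∃ π : W →* V, (∀ w, (π w : W)⁻¹ * w ∈ Q) ∧ ∀ v : V, π v = v := by
  let e0 : V →* W ⧸ Q := (QuotientGroup.mk' Q).comp V.subtype
  have hinj : Function.Injective e0 := by
    rw [injective_iff_map_eq_one]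
    intro v hv
    have h1 : (v : W) ∈ Q := (QuotientGroup.eq_one_iff (v : W)).1 hv
    have h2 : (v : W) ∈ V ⊓ Q := ⟨v.2, h1⟩
    rw [h.disjoint.eq_bot] at h2
    exact Subtype.ext (Subgroup.mem_bot.1 h2)
  have hsurj : Function.Surjective e0 := by
    intro x
    obtain ⟨w, rfl⟩ := QuotientGroup.mk'_surjective Q x
    obtain ⟨⟨v, q⟩, hw⟩ := h.2 w
    refine ⟨v, ?_⟩
    have hw' : (v : W) * q = w := hw
    rw [← hw', map_mul]
    have hq : QuotientGroup.mk' Q (q : W) = 1 := (QuotientGroup.eq_one_iff (q : W)).2 q.2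
    rw [hq, mul_one]
    rfl
  let e : V ≃* W ⧸ Q := MulEquiv.ofBijective e0 ⟨hinj, hsurj⟩
  refine ⟨e.symm.toMonoidHom.comp (QuotientGroup.mk' Q), fun w => ?_, fun v => ?_⟩
  · have h1 : e (e.symm (QuotientGroup.mk' Q w)) = QuotientGroup.mk' Q w := e.apply_symm_apply _
    have h2 : QuotientGroup.mk' Q ((e.symm (QuotientGroup.mk' Q w) : V) : W) =
      QuotientGroup.mk' Q w := h1
    exact QuotientGroup.eq.1 h2
  · exact e.symm_apply_apply v

theorem eq_one_of_pow {G : Type} [Group G] {x : G} {c L : ℕ} (h : Nat.Coprime c L)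
    (h1 : x ^ c = 1) (h2 : x ^ L = 1) : x = 1 := by
  have h3 : orderOf x ∣ c := orderOf_dvd_of_pow_eq_one h1
  have h4 : orderOf x ∣ L := orderOf_dvd_of_pow_eq_one h2
  exact orderOf_eq_one_iff.1 (Nat.Coprime.eq_one_of_dvd
    (Nat.Coprime.coprime_dvd_left h3 h) h4)

end EXTL

open _root_.Pool.Agent.DPT.EXTL in
/-- EXTL -/
theorem EXTL_thm : Stmt_EXTL := by
  intro W H _ _ _ _ ℓ _ A hA f hf hH χ m hm hδ hχ
  obtain ⟨δ, hδ⟩ := hδ
  obtain ⟨P, hPn, hPp, hPi, hPc⟩ := hH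
  have hℓ : ℓ.Prime := Fact.out
  let N : Subgroup W := P.comap f
  have hNn : N.Normal := inferInstance
  have hNi : ¬ ℓ ∣ N.index := by
    intro h
    apply hPi
    refine h.trans ?_
    rw [Subgroup.index_comap]
    exact P.relIndex_dvd_index_of_normal f.range
  have hAN : A ≤ N := by
    intro a ha
    change f a ∈ P
    rw [(hf a).2 ha]
    exact P.one_mem
  let g : N →* P := (f.comp N.subtype).codRestrict P fun w => w.2
  obtain ⟨Q, hQn, hQp, hQN, hQi⟩ := exists_nh (ℓ := ℓ) A hA N hPp g (fun w hw =>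
    (hf w).1 (congrArg Subtype.val hw)) hNi
  obtain ⟨r, hr⟩ := IsPGroup.iff_card.1 hQp
  have hcop : Nat.Coprime (Nat.card Q) Q.index := by
    rw [hr]
    exact Nat.Coprime.pow_left _ ((Nat.Prime.coprime_iff_not_dvd hℓ).2 hQi)
  obtain ⟨V, hV⟩ := Subgroup.exists_left_complement'_of_coprime hcop
  obtain ⟨π, hπ, hπV⟩ := exists_proj Q V hV
  have hVc : Nat.card V = Q.index := hV.index_eq_card.symm
  have hVℓ : ¬ ℓ ∣ Nat.card V := by rwa [hVc]
  have hVp : ∀ v : V, (v : W) ^ Nat.card V = 1 := fun v => by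
    have := pow_card_eq_one' (x := v)
    exact congrArg Subtype.val this
  -- elements of `V` in `N` are in `A`
  have hVA : ∀ v : V, (v : W) ∈ N → (v : W) ∈ A := by
    intro v hv
    rw [← hf]
    obtain ⟨k, hk⟩ := hPp ⟨f v, hv⟩
    have hk' : (f v) ^ ℓ ^ k = 1 := congrArg Subtype.val hk
    have hc : (f v) ^ Nat.card V = 1 := by rw [← map_pow, hVp, map_one]
    exact eq_one_of_pow (Nat.Coprime.pow_right _
      ((Nat.Prime.coprime_iff_not_dvd hℓ).2 hVℓ).symm) hc hk'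
  have hcomN : ∀ x y : W, x * y * x⁻¹ * y⁻¹ ∈ N := by
    intro x y
    change f (x * y * x⁻¹ * y⁻¹) ∈ P
    have := hPc (f x) (f y)
    rwa [← map_inv, ← map_inv, ← map_mul, ← map_mul, ← map_mul] at this
  -- the linear character of `A ∩ V`
  let B : Subgroup V := A.subgroupOf V
  let i : B →* A := ((V.subtype).comp B.subtype).codRestrict A fun b => b.2
  have hB : ∀ x y : V, x * y * x⁻¹ * y⁻¹ ∈ B := fun x y =>
    hVA (x * y * x⁻¹ * y⁻¹) (hcomN x y)
  obtain ⟨ψ, hψ⟩ := ext_lin B hB (χ.comp i) (fun x y => by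
    exact hχ (x : W) (y : W) (hB x y) (Nat.card V) hVℓ (by rw [hVp]; exact A.one_mem)
      (by rw [hVp]; exact A.one_mem))
  -- the numbers
  have hco : IsCoprime ((m * Nat.card V : ℕ) : ℤ) ((Nat.card Q : ℕ) : ℤ) := by
    rw [Nat.isCoprime_iff_coprime, hr]
    apply Nat.Coprime.pow_right
    exact (Nat.Coprime.mul_right ((Nat.Prime.coprime_iff_not_dvd hℓ).2 hm)
      ((Nat.Prime.coprime_iff_not_dvd hℓ).2 hVℓ)).symm
  obtain ⟨u, t, hut⟩ := hco
  refine ⟨(zpowGroupHom (u * Nat.card V)).comp δ * ψ.comp π, fun a => ?_⟩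
  have hq := hπ (a : W)
  have haN : (a : W) ∈ N := hAN a.2
  have hvN : ((π (a : W) : V) : W) ∈ N := by
    have h1 := N.mul_mem haN (N.inv_mem (hQN hq))
    have e : (a : W) * (((π (a : W) : V) : W)⁻¹ * (a : W))⁻¹ = ((π (a : W) : V) : W) := by group
    rwa [e] at h1
  have hvA : ((π (a : W) : V) : W) ∈ A := hVA _ hvN
  let v : A := ⟨_, hvA⟩
  let q : A := v⁻¹ * a
  have hqL : q ^ Nat.card Q = 1 := by
    have h1 : (⟨_, hq⟩ : Q) ^ Nat.card Q = 1 := pow_card_eq_one'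
    have h1' : (((π (a : W) : V) : W)⁻¹ * (a : W)) ^ Nat.card Q = 1 := congrArg Subtype.val h1
    exact Subtype.ext h1'
  have hvc : v ^ Nat.card V = 1 := Subtype.ext (hVp (π (a : W)))
  have hav : a = v * q := by
    change a = v * (v⁻¹ * a)
    rw [mul_inv_cancel_left]
  have h1 : ψ (π (a : W)) = χ v := hψ ⟨π (a : W), hvA⟩
  have h2 : χ v ^ Nat.card V = 1 := by rw [← map_pow, hvc, map_one]
  have h3 : χ q ^ Nat.card Q = 1 := by rw [← map_pow, hqL, map_one]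
  have h4 : χ a = χ v * χ q := by rw [← map_mul, ← hav]
  have h5 : χ a ^ (t * (Nat.card Q : ℤ)) = χ v := by
    rw [h4, mul_zpow, mul_comm t, zpow_mul (χ q), zpow_natCast, h3, one_zpow, mul_one]
    have e : (Nat.card Q : ℤ) * t = 1 - (Nat.card V : ℤ) * (u * m) := by
      rw [mul_comm (Nat.card Q : ℤ) t, ← hut]
      push_cast
      ring
    rw [e, zpow_sub, zpow_one, zpow_mul, zpow_natCast, h2, one_zpow, inv_one, mul_one]
  change (δ (a : W)) ^ (u * (Nat.card V : ℤ)) * ψ (π (a : W)) = χ a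
  rw [hδ a, h1, ← h5, ← zpow_natCast (χ a) m, ← zpow_mul, ← zpow_add]
  have e : (m : ℤ) * (u * (Nat.card V : ℤ)) + t * (Nat.card Q : ℤ) = 1 := by
    rw [← hut]
    push_cast
    ring
  rw [e, zpow_one]

end Pool.Agent.DPT


end

section

/-!
# CAX: existence of the quotients
-/

namespace Pool.Agent.DPT

open Pool.Agent.DP Pool.Agent.DPC Pool.Agent.DPM Pool.Agent.DPN Pool.Agent.Lib_helper13
open Representation

namespace CAX

section

variable {L K : Type} [Group L] [Group K] {ℓ : ℕ} {π : L →* K} {μ : π.ker →* ℂˣ}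
  {Q M M₀ : Subgroup K} {ν : L → ℂ}

/-- The elements of `ℓ`-power order of the inverse image of `Q`. -/
def Q1 (ℓ : ℕ) (π : L →* K) (Q : Subgroup K)
    (ab : ∀ x y, π x ∈ Q → π y ∈ Q → x * y = y * x) : Subgroup L where
  carrier := {x | π x ∈ Q ∧ ∃ n : ℕ, x ^ ℓ ^ n = 1}
  one_mem' := ⟨by rw [map_one]; exact Q.one_mem, 0, one_pow _⟩
  mul_mem' := by
    rintro x y ⟨hx, n, hn⟩ ⟨hy, m, hm⟩
    refine ⟨by rw [map_mul]; exact Q.mul_mem hx hy, n + m, ?_⟩
    have hc : Commute x y := ab x y hx hy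
    rw [hc.mul_pow, pow_add]
    have h1 : x ^ (ℓ ^ n * ℓ ^ m) = 1 := by rw [pow_mul, hn, one_pow]
    have h2 : y ^ (ℓ ^ n * ℓ ^ m) = 1 := by rw [mul_comm, pow_mul, hm, one_pow]
    rw [h1, h2, one_mul]
  inv_mem' := by
    rintro x ⟨hx, n, hn⟩
    refine ⟨by rw [map_inv]; exact Q.inv_mem hx, n, ?_⟩
    rw [inv_pow, hn, inv_one]

theorem mem_Q1 {ab : ∀ x y, π x ∈ Q → π y ∈ Q → x * y = y * x} {x : L} :
    x ∈ Q1 ℓ π Q ab ↔ π x ∈ Q ∧ ∃ n : ℕ, x ^ ℓ ^ n = 1 := Iff.rfl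

theorem Q1_normal (hQ : Q.Normal) (ab : ∀ x y, π x ∈ Q → π y ∈ Q → x * y = y * x) :
    (Q1 ℓ π Q ab).Normal := by
  constructor
  rintro x ⟨hx, n, hn⟩ g
  refine ⟨?_, n, ?_⟩
  · rw [map_mul, map_mul, map_inv]
    exact hQ.conj_mem _ hx _
  · rw [conj_pow, hn, mul_one, mul_inv_cancel]

/-- `ν` is multiplicative on the inverse image of `Q`. -/
theorem mul_nu [Finite L] (h : LN ℓ π μ Q M M₀ ν) {x y : L} (hx : π x ∈ Q) (hy : π y ∈ Q) :
    ν (x * y) = ν x * ν y ∧ ν x ≠ 0 := by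
  haveI : Fintype ↥(Q.comap π) := Fintype.ofFinite _
  have hZ : (⊤ : Subgroup ↥(Q.comap π)) ≤ Subgroup.center ↥(Q.comap π) := by
    intro a _
    rw [Subgroup.mem_center_iff]
    intro b
    apply Subtype.ext
    exact h.ab _ _ b.2 a.2
  obtain ⟨m, hm⟩ := BTC.exists_cc hZ h.irr.1
  have h1 : ν x = ((m ⟨⟨x, hx⟩, trivial⟩ : ℂˣ) : ℂ) := by
    have := hm ⟨⟨x, hx⟩, trivial⟩ 1
    change ν (x * 1) = _ * ν 1 at this
    rw [mul_one, h.lin, mul_one] at this
    exact this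
  have h2 := hm ⟨⟨x, hx⟩, trivial⟩ ⟨y, hy⟩
  change ν (x * y) = _ * ν y at h2
  rw [h2, h1]
  exact ⟨rfl, Units.ne_zero _⟩

theorem le_sx (h : LN ℓ π μ Q M M₀ ν) {x : L} (hx : π x ∈ Q) : x ∈ sx ν := by
  rw [mem_sx]
  intro y
  by_cases hy : π y ∈ Q
  · rw [h.ab x y hx hy]
    congr 1
    group
  · have h1 : x * y * x⁻¹ ∉ Q.comap π := by
      intro hm
      apply hy
      rw [Subgroup.mem_comap, map_mul, map_mul, map_inv] at hm
      have h2 := Q.mul_mem (Q.mul_mem (Q.inv_mem hx) hm) hx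
      have h3 : (π x)⁻¹ * (π x * π y * (π x)⁻¹) * π x = π y := by group
      rwa [h3] at h2
    rw [h.irr.2 _ h1, h.irr.2 _ hy]

/-- The kernel of `ν` in the group of the elements of `ℓ`-power order. -/
def Q2 [Finite L] (h : LN ℓ π μ Q M M₀ ν) : Subgroup ↥(sx ν) where
  carrier := {t | (t : L) ∈ Q1 ℓ π Q h.ab ∧ ν t = 1}
  one_mem' := ⟨(Q1 ℓ π Q h.ab).one_mem, h.lin⟩
  mul_mem' := by
    rintro x y ⟨hx, hx'⟩ ⟨hy, hy'⟩
    refine ⟨(Q1 ℓ π Q h.ab).mul_mem hx hy, ?_⟩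
    change ν ((x : L) * y) = 1
    rw [(mul_nu h hx.1 hy.1).1, hx', hy', mul_one]
  inv_mem' := by
    rintro x ⟨hx, hx'⟩
    refine ⟨(Q1 ℓ π Q h.ab).inv_mem hx, ?_⟩
    have hi := (Q1 ℓ π Q h.ab).inv_mem hx
    have h1 := (mul_nu h hx.1 hi.1).1
    rw [mul_inv_cancel, h.lin, hx', one_mul] at h1
    exact h1.symm

theorem Q2_normal [Finite L] (h : LN ℓ π μ Q M M₀ ν) : (Q2 h).Normal := by
  constructor
  rintro x ⟨hx, hx'⟩ g
  refine ⟨(Q1_normal h.Qn h.ab).conj_mem _ hx _, ?_⟩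
  change ν ((g : L) * x * (g : L)⁻¹) = 1
  rw [mem_sx.1 g.2, hx']

end

end CAX

open _root_.Pool.Agent.DPT.CAX in
theorem CAX_thm : Stmt_CAX := by
  intro L K _ _ _ _ ℓ _ π hπ hc μ Q M M₀ ν h
  haveI hn1 : (Q1 ℓ π Q h.ab).Normal := Q1_normal h.Qn h.ab
  haveI hn2 : (Q2 h).Normal := Q2_normal h
  let k' : L →* L ⧸ Q1 ℓ π Q h.ab := QuotientGroup.mk' _
  let q : ↥(sx ν) →* ↥(sx ν) ⧸ Q2 h := QuotientGroup.mk' _
  have hk'1 : ∀ x, k' x = 1 ↔ x ∈ Q1 ℓ π Q h.ab := fun x => QuotientGroup.eq_one_iff x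
  have hq1 : ∀ t, q t = 1 ↔ t ∈ Q2 h := fun t => QuotientGroup.eq_one_iff t
  let k : ↥(sx ν) ⧸ Q2 h →* L ⧸ Q1 ℓ π Q h.ab :=
    QuotientGroup.lift (Q2 h) (k'.comp (sx ν).subtype) (by
      intro t ht
      exact (hk'1 _).2 ht.1)
  have hqs : Function.Surjective q := QuotientGroup.mk'_surjective _
  have hkq : ∀ t : sx ν, k (q t) = k' (t : L) := fun t => rfl
  have hwd : ∀ t t' : sx ν, (t : L) ∈ Q1 ℓ π Q h.ab → (t' : L) ∈ Q1 ℓ π Q h.ab → q t = q t' →
      ν t = ν t' := by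
    intro t t' ht ht' he
    have h1 : q (t⁻¹ * t') = 1 := by rw [map_mul, map_inv, he, inv_mul_cancel]
    have h2 := ((hq1 _).1 h1)
    have h3 : ν ((t : L) * ((t⁻¹ * t' : sx ν) : L)) = ν t * ν ((t⁻¹ * t' : sx ν) : L) :=
      (mul_nu h ht.1 h2.1.1).1
    have h4 : (t : L) * ((t⁻¹ * t' : sx ν) : L) = t' := by
      rw [Subgroup.coe_mul, Subgroup.coe_inv]; group
    rw [h4, h2.2, mul_one] at h3
    exact h3.symm
  have hmemQ : ∀ t : sx ν, q t ∈ k.ker → (t : L) ∈ Q1 ℓ π Q h.ab := by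
    intro t ht
    rw [MonoidHom.mem_ker, hkq] at ht
    exact (hk'1 _).1 ht
  have hex : ∀ z : k.ker, ∃ t : sx ν, q t = (z : ↥(sx ν) ⧸ Q2 h) := fun z => hqs z
  choose s hs using hex
  have hsQ : ∀ z : k.ker, ((s z : sx ν) : L) ∈ Q1 ℓ π Q h.ab := by
    intro z
    apply hmemQ
    rw [hs]
    exact z.2
  let f : k.ker →* ℂ :=
    { toFun := fun z => ν (s z)
      map_one' := by
        have h1 : ν ((s 1 : sx ν) : L) = ν ((1 : sx ν) : L) :=
          hwd _ _ (hsQ 1) (Q1 ℓ π Q h.ab).one_mem (by rw [hs, map_one]; rfl)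
        rw [h1]
        exact h.lin
      map_mul' := by
        intro a b
        have h1 : ν ((s (a * b) : sx ν) : L) = ν ((s a * s b : sx ν) : L) :=
          hwd _ _ (hsQ _) ((Q1 ℓ π Q h.ab).mul_mem (hsQ a) (hsQ b))
            (by rw [hs, map_mul, hs, hs]; rfl)
        rw [h1, Subgroup.coe_mul, (mul_nu h (hsQ a).1 (hsQ b).1).1] }
  refine ⟨↥(sx ν) ⧸ Q2 h, L ⧸ Q1 ℓ π Q h.ab, inferInstance, Fintype.ofFinite _, inferInstance,
    Fintype.ofFinite _, k', q, k, f.toHomUnits, ?_⟩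
  refine ⟨QuotientGroup.mk'_surjective _, hqs, hkq, hk'1, ?_, ⟨?_, ?_⟩, ?_⟩
  · intro t
    rw [hq1, hk'1]
    exact Iff.rfl
  · intro z hz
    rw [Subgroup.mem_center_iff]
    intro y
    obtain ⟨x, rfl⟩ := hqs z
    obtain ⟨t, rfl⟩ := hqs y
    have hx := hmemQ x hz
    rw [← map_mul, ← map_mul]
    have h1 : q ((x * t)⁻¹ * (t * x)) = 1 := by
      rw [hq1]
      have hy : ((t : L)⁻¹ * (x : L)⁻¹ * (t : L)⁻¹⁻¹) ∈ Q1 ℓ π Q h.ab :=
        hn1.conj_mem _ ((Q1 ℓ π Q h.ab).inv_mem hx) _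
      have he : (((x * t)⁻¹ * (t * x) : sx ν) : L) =
          ((t : L)⁻¹ * (x : L)⁻¹ * (t : L)⁻¹⁻¹) * x := by
        simp only [Subgroup.coe_mul, Subgroup.coe_inv]; group
      constructor
      · rw [he]
        exact (Q1 ℓ π Q h.ab).mul_mem hy hx
      · rw [he, (mul_nu h hy.1 hx.1).1, mem_sx.1 ((sx ν).inv_mem t.2)]
        rw [← (mul_nu h ((Q1 ℓ π Q h.ab).inv_mem hx).1 hx.1).1, inv_mul_cancel, h.lin]
    rw [map_mul, map_inv, inv_mul_eq_one] at h1
    exact h1.symm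
  · rintro ⟨z, hz⟩
    obtain ⟨x, rfl⟩ := hqs z
    obtain ⟨_, n, hn⟩ := hmemQ x hz
    refine ⟨n, Subtype.ext ?_⟩
    change (q x) ^ ℓ ^ n = 1
    rw [← map_pow]
    have : x ^ ℓ ^ n = 1 := Subtype.ext hn
    rw [this, map_one]
  · intro t ht
    rw [MonoidHom.coe_toHomUnits]
    change ν ((s ⟨q t, ht⟩ : sx ν) : L) = ν t
    exact hwd _ _ (hsQ _) (hmemQ t ht) (hs _)

end Pool.Agent.DPT


end

section

/-!
# NUG: the characters of the fibre product over `θ` and over a linear character of the kernel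
-/

namespace Pool.Agent.DPF

open Pool.Agent.DP Pool.Agent.DPC Pool.Agent.DPM Pool.Agent.DPN Pool.Agent.Lib_helper13
  Representation
open Pool.Agent.Lib_helper13.Dade (pCore DadeHolds dadeSum)

namespace NUG

section Frame

variable {A T K : Type} [Group A] [Group T] [Group K] {j : A →* T} {c : T →* MulAut A}
  {p : T →* K}

/-- The conjugation action on a normal subgroup. -/
theorem exists_clG (hj : Function.Injective j) (hp : ∀ y, p y = 1 ↔ y ∈ j.range) :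
    ∃ c : T →* MulAut A, ClG j c p := by
  have hn : j.range.Normal := by
    have h1 : j.range = p.ker := by
      ext y
      rw [MonoidHom.mem_ker, hp]
    rw [h1]
    infer_instance
  refine ⟨(MulAut.congr (MonoidHom.ofInjective hj).symm).toMonoidHom.comp
    (MulAut.conjNormal (H := j.range)), hj, ?_, hp⟩
  intro y a
  have h2 : ∀ b : j.range, j ((MonoidHom.ofInjective hj).symm b) = (b : T) := by
    intro b
    have h3 : MonoidHom.ofInjective hj ((MonoidHom.ofInjective hj).symm b) = b :=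
      MulEquiv.apply_symm_apply _ _
    exact congrArg Subtype.val h3
  have h4 : (((MulAut.congr (MonoidHom.ofInjective hj).symm).toMonoidHom.comp
    (MulAut.conjNormal (H := j.range))) y) a = (MonoidHom.ofInjective hj).symm
      (MulAut.conjNormal y (MonoidHom.ofInjective hj a)) := rfl
  rw [h4, h2, MulAut.conjNormal_apply]
  rfl

/-- The embedding of the normal subgroup in the inverse image of `V`. -/
def jV (h : ClG j c p) (V : Subgroup K) : A →* ↥(V.comap p) :=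
  j.codRestrict _ (fun a => by
    change p (j a) ∈ V
    rw [(h.ker _).mpr ⟨a, rfl⟩]
    exact V.one_mem)

theorem clG_V (h : ClG j c p) (V : Subgroup K) :
    ClG (jV h V) (c.comp (V.comap p).subtype) (p.subgroupComap V) where
  inj := by
    intro a b hab
    exact h.inj (congrArg Subtype.val hab)
  act := fun y a => Subtype.ext (h.act (y : T) a)
  ker := by
    intro y
    constructor
    · intro h1
      have h2 : p (y : T) = 1 := congrArg Subtype.val h1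
      obtain ⟨a, ha⟩ := (h.ker (y : T)).mp h2
      exact ⟨a, Subtype.ext ha⟩
    · rintro ⟨a, rfl⟩
      exact Subtype.ext ((h.ker _).mpr ⟨a, rfl⟩)

theorem surj_V (V : Subgroup K) (hp : Function.Surjective p) :
    Function.Surjective (p.subgroupComap V) := by
  intro v
  obtain ⟨t, ht⟩ := hp (v : K)
  refine ⟨⟨t, ?_⟩, Subtype.ext ht⟩
  change p t ∈ V
  rw [ht]
  exact v.2

variable [Fintype A] [Fintype T] [Fintype K]

/-- The characters of an inverse image over an extendible character. -/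
theorem count (h : ClG j c p) (hp : Function.Surjective p) {θ : A → ℂ} {E : T → ℂ}
    (hθ : IsIrr θ) (hE : IsChr E) (hEθ : ∀ a, E (j a) = θ a) (V : Subgroup K)
    (P : (↥(V.comap p) → ℂ) → Prop) (Q : (V → ℂ) → Prop)
    (hPQ : ∀ ζ : V → ℂ, IsIrr ζ → (P (fun y => E y * ζ (p.subgroupComap V y)) ↔ Q ζ)) :
    Nat.card {ψ : ↥(V.comap p) → ℂ // IsIrr ψ ∧ ip (fun a : A => ext0 ψ (j a)) θ ≠ 0 ∧ P ψ} =
      Nat.card {ζ : V → ℂ // IsIrr ζ ∧ Q ζ} := by
  classical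
  have hf : Fintype ↥(V.comap p) := Fintype.ofFinite _
  have hf' : Fintype V := Fintype.ofFinite _
  obtain ⟨g1, g2, g3⟩ := GALL_thm COSET_thm SUMM_thm A ↥(V.comap p) V (jV h V)
    (c.comp (V.comap p).subtype) (p.subgroupComap V) (clG_V h V) (surj_V V hp) θ
    (fun y => E (y : T)) hθ (hE.comp (V.comap p).subtype) hEθ
  have hres : ∀ ψ : ↥(V.comap p) → ℂ, (fun a : A => ext0 ψ (j a)) = resj (jV h V) ψ := by
    intro ψ
    funext a
    have h1 : j a ∈ V.comap p := (jV h V a).2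
    rw [ext0_of_mem ψ h1]
    rfl
  symm
  refine Nat.card_congr (Equiv.ofBijective (fun ζ => ⟨fun y => E (y : T) *
    ζ.1 (p.subgroupComap V y), (g1 ζ.1 ζ.2.1).1, ?_, ?_⟩) ⟨?_, ?_⟩)
  · rw [hres]
    exact (g1 ζ.1 ζ.2.1).2
  · exact (hPQ ζ.1 ζ.2.1).mpr ζ.2.2
  · intro ζ ζ' hζ
    exact Subtype.ext (g2 ζ.1 ζ'.1 ζ.2.1 ζ'.2.1 (congrArg Subtype.val hζ))
  · rintro ⟨ψ, hψ, hψ1, hψ2⟩
    rw [hres] at hψ1
    obtain ⟨η, hη, rfl⟩ := g3 ψ hψ hψ1
    exact ⟨⟨η, hη, (hPQ η hη).mp hψ2⟩, rfl⟩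

/-- The defects add. -/
theorem defect {ℓ : ℕ} [Fact ℓ.Prime] (h : ClG j c p) (hp : Function.Surjective p) {θ : A → ℂ}
    {E : T → ℂ} (hθ : IsIrr θ) (hEθ : ∀ a, E (j a) = θ a) (V : Subgroup K) (ζ : V → ℂ)
    (hζ : IsIrr ζ) (n : ℕ) :
    HasDefect ℓ (fun y : ↥(V.comap p) => E y * ζ (p.subgroupComap V y)) n ↔
      ∃ e a, HasDefect ℓ ζ e ∧ HasDefect ℓ θ a ∧ e + a = n := by
  classical
  have hf : Fintype ↥(V.comap p) := Fintype.ofFinite _
  have hf' : Fintype V := Fintype.ofFinite _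
  obtain ⟨m, hm, hm'⟩ := hθ.exists_degree
  obtain ⟨k, hk, hk'⟩ := hζ.exists_degree
  have h1 : E ((1 : ↥(V.comap p)) : T) = m := by
    rw [← hm', ← hEθ 1, map_one]
    rfl
  have h2 : E ((1 : ↥(V.comap p)) : T) * ζ (p.subgroupComap V 1) = ((m * k : ℕ) : ℂ) := by
    rw [h1, map_one, hk']
    push_cast
    ring
  have hc : Nat.card ↥(V.comap p) = Nat.card A * Nat.card V := by
    have h3 : (Nat.card ↥(V.comap p) : ℂ) = Nat.card A * Nat.card V :=
      GALL.card_eq (clG_V h V) (surj_V V hp)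
    exact_mod_cast h3
  have hv : padicValNat ℓ (Nat.card ↥(V.comap p)) =
      padicValNat ℓ (Nat.card A) + padicValNat ℓ (Nat.card V) := by
    rw [hc, padicValNat.mul Nat.card_pos.ne' Nat.card_pos.ne']
  have hmk : padicValNat ℓ (m * k) = padicValNat ℓ m + padicValNat ℓ k :=
    padicValNat.mul hm.ne' hk.ne'
  constructor
  · rintro ⟨N, hN, hN'⟩
    have hNe : N = m * k := by
      have h3 : ((m * k : ℕ) : ℂ) = (N : ℂ) := h2.symm.trans hN
      exact_mod_cast h3.symm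
    obtain ⟨e, he⟩ := hζ.exists_defect (ℓ := ℓ)
    obtain ⟨a, ha⟩ := hθ.exists_defect (ℓ := ℓ)
    refine ⟨e, a, he, ha, ?_⟩
    obtain ⟨k', hk1, hk2⟩ := he
    obtain ⟨m', hm1, hm2⟩ := ha
    have hkk : k' = k := by
      have h3 : (k' : ℂ) = k := hk1.symm.trans hk'
      exact_mod_cast h3
    have hmm : m' = m := by
      have h3 : (m' : ℂ) = m := hm1.symm.trans hm'
      exact_mod_cast h3
    rw [hkk] at hk2
    rw [hmm] at hm2
    rw [hNe] at hN'
    omega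
  · rintro ⟨e, a, ⟨k', hk1, hk2⟩, ⟨m', hm1, hm2⟩, hn⟩
    have hkk : k' = k := by
      have h3 : (k' : ℂ) = k := hk1.symm.trans hk'
      exact_mod_cast h3
    have hmm : m' = m := by
      have h3 : (m' : ℂ) = m := hm1.symm.trans hm'
      exact_mod_cast h3
    rw [hkk] at hk2
    rw [hmm] at hm2
    refine ⟨m * k, h2, ?_⟩
    omega

end Frame

end NUG

theorem NUG_thm : Stmt_NUG := by
  classical
  intro A T H W G _ _ _ _ _ _ _ _ _ _ ℓ _ i p hi hp hk θ hθ π hπ α β hF ν E hE ε hε ν' V n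
  have hεinj : Function.Injective ε := by
    intro a b hab
    apply hi
    rw [← (hε a).1, ← (hε b).1, hab]
  have hker : ∀ g, β g = 1 ↔ g ∈ ε.range := by
    intro g
    constructor
    · intro hg
      have h1 : p (α g) = 1 := by rw [hF.cm, hg, map_one]
      obtain ⟨a, ha⟩ := (hk _).mp h1
      refine ⟨a, ?_⟩
      have h2 : p (i a) = π 1 := by
        rw [map_one, (hk _).mpr ⟨a, rfl⟩]
      obtain ⟨g₀, -, hg₀⟩ := hF.ex (i a) 1 h2
      rw [hg₀ (ε a) (hε a), hg₀ g ⟨ha.symm, hg⟩]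
    · rintro ⟨a, rfl⟩
      exact (hε a).2
  obtain ⟨c, hc⟩ := NUG.exists_clG hεinj hker
  have hβ : Function.Surjective β := by
    intro w
    obtain ⟨t, ht⟩ := hp (π w)
    obtain ⟨g, hg, -⟩ := hF.ex t w ht
    exact ⟨g, hg.2⟩
  have hEθ : ∀ a, E (ε a) = θ a := fun a => hE.Ee a _ (hε a).1 (hε a).2
  have hne : ∀ g : G, ∃ g₁ : G, β g₁ = β g ∧ E g₁ ≠ 0 := by
    intro g
    by_contra hcon
    push Not at hcon
    have h1 := COSET_thm A G W ε c β hc θ E hθ hE.Ec hEθ g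
    rw [Finset.sum_eq_zero] at h1
    · exact natCard_ne_zero (H := A) h1.symm
    · intro a _
      rw [hcon (g * ε a) (by rw [map_mul, (hε a).2, mul_one]), zero_mul]
  have key := NUG.count hc hβ hθ hE.Ec hEθ (V.comap π)
    (fun ψ => (∀ (z : π.ker) (g g' : ↥(V.comap (π.comp β))), α (g' : G) = α (g : G) →
      β (g' : G) = z * β (g : G) → ψ g' = ((ν' z : ℂˣ) : ℂ) * ψ g) ∧ HasDefect ℓ ψ n)
    (fun η => OvL π.ker (ν * ν') _ η ∧ ∃ e a, HasDefect ℓ η e ∧ HasDefect ℓ θ a ∧ e + a = n) ?_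
  · exact key
  intro ζ hζ
  refine and_congr ?_ (NUG.defect hc hβ hθ hEθ (V.comap π) ζ hζ n)
  constructor
  · intro h s t hs
    obtain ⟨g₀, hg₀⟩ := hβ (t : W)
    obtain ⟨g, hg, hEg⟩ := hne g₀
    rw [hg₀] at hg
    have hs1 : π (s : W) = 1 := hs
    have h1 : p (α g) = π ((s : W) * t) := by
      rw [hF.cm, hg, map_mul, hs1, one_mul]
    obtain ⟨g', ⟨hg'1, hg'2⟩, -⟩ := hF.ex _ _ h1
    have hgV : g ∈ (V.comap π).comap β := by
      change π (β g) ∈ V
      rw [hg]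
      exact t.2
    have hgV' : g' ∈ (V.comap π).comap β := by
      change π (β g') ∈ V
      rw [hg'2, map_mul, hs1, one_mul]
      exact t.2
    have hb : β g' = ((⟨(s : W), hs⟩ : π.ker) : W) * β g := by
      rw [hg'2, hg]
    have h2 := h ⟨(s : W), hs⟩ ⟨g, hgV⟩ ⟨g', hgV'⟩ hg'1 hb
    have h3 := hE.El ⟨(s : W), hs⟩ g g' hg'1 hb
    have h4 : β.subgroupComap (V.comap π) ⟨g, hgV⟩ = t := Subtype.ext hg
    have h5 : β.subgroupComap (V.comap π) ⟨g', hgV'⟩ = s * t := Subtype.ext hg'2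
    have h6 : E g' * ζ (s * t) = ((ν' ⟨(s : W), hs⟩ : ℂˣ) : ℂ) * (E g * ζ t) := by
      rw [← h5]
      conv_rhs => rw [← h4]
      exact h2
    have h7 : (((ν * ν') ⟨(s : W), hs⟩ : ℂˣ) : ℂ) =
        ((ν ⟨(s : W), hs⟩ : ℂˣ) : ℂ) * ((ν' ⟨(s : W), hs⟩ : ℂˣ) : ℂ) := rfl
    rw [h7]
    apply mul_left_cancel₀ hEg
    calc E g * ζ (s * t) = ((ν ⟨(s : W), hs⟩ : ℂˣ) : ℂ) * (E g' * ζ (s * t)) := by
          rw [← h3]; ring
      _ = _ := by rw [h6]; ring
  · intro h z g g' h1 h2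
    have hz : π (z : W) = 1 := z.2
    have hzV : (z : W) ∈ V.comap π := by
      change π (z : W) ∈ V
      rw [hz]
      exact V.one_mem
    have h3 := hE.El z g g' h1 h2
    have h4 : β.subgroupComap (V.comap π) g' = ⟨(z : W), hzV⟩ *
      β.subgroupComap (V.comap π) g := Subtype.ext h2
    have h5 := h ⟨(z : W), hzV⟩ (β.subgroupComap (V.comap π) g) z.2
    change E g' * ζ (β.subgroupComap (V.comap π) g') = ((ν' z : ℂˣ) : ℂ) *
      (E g * ζ (β.subgroupComap (V.comap π) g))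
    have h7 : (((ν * ν') z : ℂˣ) : ℂ) = ((ν z : ℂˣ) : ℂ) * ((ν' z : ℂˣ) : ℂ) := rfl
    rw [h4, h5]
    have h8 : (((ν * ν') ⟨((⟨(z : W), hzV⟩ : ↥(V.comap π)) : W), z.2⟩ : ℂˣ) : ℂ) =
        ((ν z : ℂˣ) : ℂ) * ((ν' z : ℂˣ) : ℂ) := rfl
    rw [h8, ← h3]
    ring

end Pool.Agent.DPF


end

section

/-!
# CHT: the chains of a central extension
-/

set_option linter.unusedSectionVars false
set_option linter.unusedVariables false

namespace Pool.Agent.DPG

open Pool.Agent.DP Pool.Agent.DPC Pool.Agent.DPM Pool.Agent.DPN Pool.Agent.DPF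
  Pool.Agent.Lib_helper13 Representation
open Pool.Agent.Lib_helper13.Dade (pCore DadeHolds dadeSum)

namespace CHT

section
variable {L K : Type} [Group L] [Fintype L] [Group K] [Fintype K] {π : L →* K}

/-- the elements of `ℓ`-power order of the kernel -/
def Z0 (ℓ : ℕ) (hk : π.ker ≤ Subgroup.center L) : Subgroup L where
  carrier := {z | z ∈ π.ker ∧ ∃ n : ℕ, z ^ ℓ ^ n = 1}
  one_mem' := ⟨one_mem _, 0, by simp⟩
  mul_mem' := by
    rintro a b ⟨ha, n, hn⟩ ⟨hb, m, hm⟩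
    refine ⟨mul_mem ha hb, n + m, ?_⟩
    have hc : Commute a b := Subgroup.mem_center_iff.mp (hk hb) a
    have h1 : a ^ ℓ ^ (n + m) = 1 := by rw [pow_add, pow_mul, hn, one_pow]
    have h2 : b ^ ℓ ^ (n + m) = 1 := by rw [add_comm, pow_add, pow_mul, hm, one_pow]
    rw [hc.mul_pow, h1, h2, one_mul]
  inv_mem' := by
    rintro a ⟨ha, n, hn⟩
    exact ⟨inv_mem ha, n, by rw [inv_pow, hn, inv_one]⟩

theorem Z0_le (ℓ : ℕ) (hk : π.ker ≤ Subgroup.center L) : Z0 ℓ hk ≤ π.ker := fun _ h => h.1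

theorem Z0_p (ℓ : ℕ) (hk : π.ker ≤ Subgroup.center L) : IsPGroup ℓ (Z0 ℓ hk) := by
  rintro ⟨z, hz, n, hn⟩
  exact ⟨n, Subtype.ext hn⟩

theorem Z0_normal (ℓ : ℕ) (hk : π.ker ≤ Subgroup.center L) : (Z0 ℓ hk).Normal := by
  constructor
  intro n hn g
  have h1 := Subgroup.mem_center_iff.mp (hk (Z0_le ℓ hk hn)) g
  rw [h1, mul_assoc, mul_inv_cancel, mul_one]
  exact hn

variable {ℓ : ℕ} [Fact ℓ.Prime]

/-- membership in an `ℓ`-subgroup which contains the `ℓ`-part of the kernel -/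
theorem mem_iff (hk : π.ker ≤ Subgroup.center L) {D : Subgroup L} (hD : IsPGroup ℓ D)
    (hZ : Z0 ℓ hk ≤ D) (x : L) : x ∈ D ↔ π x ∈ D.map π ∧ ∃ n : ℕ, x ^ ℓ ^ n = 1 := by
  constructor
  · intro hx
    refine ⟨Subgroup.mem_map_of_mem π hx, ?_⟩
    obtain ⟨n, hn⟩ := hD ⟨x, hx⟩
    exact ⟨n, by simpa using congrArg Subtype.val hn⟩
  · rintro ⟨⟨d, hd, hdx⟩, n, hn⟩
    obtain ⟨m, hm⟩ := hD ⟨d, hd⟩
    have hm' : d ^ ℓ ^ m = 1 := by simpa using congrArg Subtype.val hm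
    have hk1 : d⁻¹ * x ∈ π.ker := by
      rw [MonoidHom.mem_ker, map_mul, map_inv, hdx, inv_mul_cancel]
    have hkc := hk hk1
    have hx : x = d * (d⁻¹ * x) := by group
    set z := d⁻¹ * x with hz
    have hcomm : Commute d z := (Subgroup.mem_center_iff.mp hkc d)
    have hzn : z ^ ℓ ^ (n + m) = 1 := by
      have h1 : x ^ ℓ ^ (n + m) = 1 := by rw [pow_add, pow_mul, hn, one_pow]
      have h2 : d ^ ℓ ^ (n + m) = 1 := by rw [add_comm, pow_add, pow_mul, hm', one_pow]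
      rw [hx, hcomm.mul_pow, h2, one_mul] at h1
      exact h1
    rw [hx]
    exact mul_mem hd (hZ ⟨hk1, n + m, hzn⟩)

theorem map_le_iff (hk : π.ker ≤ Subgroup.center L) {D E : Subgroup L} (hD : IsPGroup ℓ D)
    (hE : IsPGroup ℓ E) (hZ : Z0 ℓ hk ≤ E) : D.map π ≤ E.map π ↔ D ≤ E := by
  refine ⟨fun h x hx => ?_, fun h => Subgroup.map_mono h⟩
  rw [mem_iff hk hE hZ]
  refine ⟨h (Subgroup.mem_map_of_mem π hx), ?_⟩
  obtain ⟨n, hn⟩ := hD ⟨x, hx⟩
  exact ⟨n, by simpa using congrArg Subtype.val hn⟩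

/-- the lift of an `ℓ`-subgroup -/
theorem exists_lift' (hs : Function.Surjective π) (hk : π.ker ≤ Subgroup.center L)
    (E : Subgroup K) (hE : IsPGroup ℓ E) :
    ∃ D : Subgroup L, (IsPGroup ℓ D ∧ Z0 ℓ hk ≤ D) ∧ D.map π = E := by
  obtain ⟨D, hD, rfl⟩ := CHC.exists_lift hs E hE
  have := Z0_normal ℓ hk
  refine ⟨D ⊔ Z0 ℓ hk, ⟨hD.to_sup_of_normal_right (Z0_p ℓ hk), le_sup_right⟩, ?_⟩
  rw [Subgroup.map_sup, (Subgroup.map_eq_bot_iff _).2 (Z0_le ℓ hk), sup_bot_eq]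

/-- the stabilizers correspond -/
theorem stb_eq (hk : π.ker ≤ Subgroup.center L) (hs : Function.Surjective π)
    {σ : Finset (Subgroup L)} (hσ : ∀ D ∈ σ, IsPGroup ℓ D ∧ Z0 ℓ hk ≤ D) :
    stb σ = (stb (mapCh π σ)).comap π := by
  ext x
  rw [Subgroup.mem_comap, mem_stb', mem_stb']
  constructor
  · rintro h E hE y
    obtain ⟨D, hD, rfl⟩ := mem_mapCh.1 hE
    constructor
    · rintro ⟨d, hd, rfl⟩
      exact ⟨x * d * x⁻¹, (h D hD d).1 hd, by simp⟩
    · rintro ⟨d, hd, hdy⟩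
      refine ⟨x⁻¹ * d * x, ?_, ?_⟩
      · have : x * (x⁻¹ * d * x) * x⁻¹ = d := by group
        refine (h D hD _).2 ?_
        rw [this]; exact hd
      · rw [map_mul, map_mul, map_inv, hdy]; group
  · intro h D hD y
    obtain ⟨h1, h2⟩ := hσ D hD
    rw [mem_iff hk h1 h2, mem_iff hk h1 h2, h _ (mem_mapCh.2 ⟨D, hD, rfl⟩)]
    have h3 : ∀ n : ℕ, (x * y * x⁻¹) ^ ℓ ^ n = 1 ↔ y ^ ℓ ^ n = 1 := fun n => by
      rw [conj_pow, mul_inv_eq_one, mul_eq_left]
    simp only [h3, map_mul, map_inv]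

end

end CHT

theorem CHT_thm : Stmt_CHT := by
  classical
  intro L K _ _ _ _ ℓ _ π hs hk N σ hσ
  choose! G hG1 hG2 using fun (E : Subgroup K) (hE : IsPGroup ℓ E) =>
    CHT.exists_lift' (ℓ := ℓ) hs hk E hE
  obtain ⟨⟨hσ1, hσ2⟩, hσN⟩ := hσ
  have hIs : IsCh ℓ (CHT.Z0 ℓ hk) (σ.image G) := by
    constructor
    · intro D hD
      obtain ⟨E, hE, rfl⟩ := Finset.mem_image.1 hD
      obtain ⟨h1, h2⟩ := hσ1 E hE
      refine ⟨(hG1 E h1).1, lt_of_le_of_ne (hG1 E h1).2 fun h3 => ?_⟩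
      have h4 := hG2 E h1
      rw [← h3, (Subgroup.map_eq_bot_iff _).2 (CHT.Z0_le ℓ hk)] at h4
      exact absurd h4 h2.ne
    · intro D hD D' hD' _
      obtain ⟨E, hE, rfl⟩ := Finset.mem_image.1 (Finset.mem_coe.1 hD)
      obtain ⟨E', hE', rfl⟩ := Finset.mem_image.1 (Finset.mem_coe.1 hD')
      have h1 := (hσ1 E hE).1
      have h1' := (hσ1 E' hE').1
      have htot : E ≤ E' ∨ E' ≤ E := hσ2.total (Finset.mem_coe.2 hE) (Finset.mem_coe.2 hE')
      rcases htot with h | h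
      · left
        change G E ≤ G E'
        rw [← CHT.map_le_iff hk (hG1 E h1).1 (hG1 E' h1').1 (hG1 E' h1').2, hG2 E h1, hG2 E' h1']
        exact h
      · right
        change G E' ≤ G E
        rw [← CHT.map_le_iff hk (hG1 E' h1').1 (hG1 E h1).1 (hG1 E h1).2, hG2 E h1, hG2 E' h1']
        exact h
  have hmap : mapCh π (σ.image G) = σ := by
    ext E
    rw [mem_mapCh]
    constructor
    · rintro ⟨D, hD, rfl⟩
      obtain ⟨E, hE, rfl⟩ := Finset.mem_image.1 hD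
      rw [hG2 E (hσ1 E hE).1]
      exact hE
    · intro hE
      exact ⟨G E, Finset.mem_image_of_mem G hE, hG2 E (hσ1 E hE).1⟩
  have hstb : stb (σ.image G) = (stb σ).comap π := by
    rw [CHT.stb_eq (ℓ := ℓ) hk hs, hmap]
    intro D hD
    obtain ⟨h1, h2⟩ := hIs.1 D hD
    exact ⟨h1, h2.le⟩
  have hi : Function.Injective (N.comap π).subtype := Subgroup.subtype_injective _
  obtain ⟨τ, hτ⟩ : ∃ τ, mapCh (N.comap π).subtype τ = σ.image G := by
    apply exists_mapCh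
    intro D hD
    obtain ⟨E, hE, rfl⟩ := Finset.mem_image.1 hD
    rw [Subgroup.range_subtype]
    intro x hx
    rw [Subgroup.mem_comap]
    apply hσN E hE
    rw [← hG2 E (hσ1 E hE).1]
    exact Subgroup.mem_map_of_mem π hx
  have hZr : CHT.Z0 ℓ hk ≤ (N.comap π).subtype.range := by
    rw [Subgroup.range_subtype]
    intro x hx
    rw [Subgroup.mem_comap]
    have h1 : π x = 1 := CHT.Z0_le ℓ hk hx
    rw [h1]
    exact one_mem N
  have hZm : ((CHT.Z0 ℓ hk).comap (N.comap π).subtype).map (N.comap π).subtype = CHT.Z0 ℓ hk :=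
    Subgroup.map_comap_eq_self hZr
  refine ⟨(CHT.Z0 ℓ hk).comap (N.comap π).subtype, τ, ?_, ?_, ?_, ?_, ?_⟩
  · rw [hZm]
    exact (CHT.Z0_le ℓ hk).trans hk
  · exact (CHT.Z0_p ℓ hk).comap_of_injective _ hi
  · rw [mem_Ch, ← isCh_mapCh_iff hi, hτ, hZm]
    exact hIs
  · rw [hτ, hstb]
  · intro s
    rw [← comap_stb_mapCh hi τ, hτ, hstb]
    exact Iff.rfl

end Pool.Agent.DPG


end
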