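import Mathlib
import Pool.Agent.DAM.C07
import Pool.Agent.DAM.C08
import Pool.Agent.DAM.C12
import Pool.Agent.DAM.C13
import Pool.Agent.DAM.C19
import Pool.Agent.DAM.C23
import Pool.Agent.DAM.C28
import Pool.Agent.DAM.C31
import Pool.Agent.DAM.C43
import Pool.Agent.DAM.C47

/-! Parts: DPC.INY, DPC.SYL, DPM.PSG, DPC.DGE, DPC.DGU -/

section

/-!
# Theorem C: the inner sum as a sum in the stabilizer of the outer chain (module INY)
-/

namespace Pool.Agent.DPC

open Pool.Agent.DP Pool.Agent.Lib_helper13 Representation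
open Pool.Agent.Lib_helper13.Dade (pCore DadeHolds dadeSum)

namespace INY

theorem mem_cN_of {X : Type} [Group X] (Z N : Subgroup X) [Z.Normal] [N.Normal]
    (c : Finset (Subgroup X)) (h : tp Z c ⊓ N = ⊥) {y : X} (hy : y ∈ stb c) (hN : y ∈ N) :
    y ∈ cN N (tp Z c) := by
  refine Subgroup.mem_inf.mpr ⟨hN, ?_⟩
  rw [Subgroup.mem_centralizer_iff]
  intro q hq
  have h1 : y * q * y⁻¹ ∈ tp Z c := DP.RINNER.tp_conj_le Z c hy q hq
  have h2 : y * q * y⁻¹ * q⁻¹ ∈ tp Z c := mul_mem h1 (inv_mem hq)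
  have h3 : y * (q * y⁻¹ * q⁻¹) ∈ N :=
    mul_mem hN (Subgroup.Normal.conj_mem inferInstance _ (inv_mem hN) q)
  have h4 : y * (q * y⁻¹ * q⁻¹) = y * q * y⁻¹ * q⁻¹ := by group
  rw [h4] at h3
  have h5 : y * q * y⁻¹ * q⁻¹ ∈ tp Z c ⊓ N := Subgroup.mem_inf.mpr ⟨h2, h3⟩
  rw [h, Subgroup.mem_bot] at h5
  have h6 : y * q * y⁻¹ = q := mul_inv_eq_one.mp h5
  have h7 : y * q = q * y := mul_inv_eq_iff_eq_mul.mp h6
  exact h7.symm

end INY

open _root_.Pool.Agent.DPC.INY in
/-- INY: the inner sum as a sum in the stabilizer of the outer chain. -/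
theorem INY_thm : Stmt_INY := by
  classical
  intro X _ _ ℓ _ Z N _ _ c hc hcN hZN hZp
  have hinf : tp Z c ⊓ N = ⊥ := DP.RINNER.tp_inf Z N hZN c hc hcN
  refine ⟨DP.RINNER.tp_pgroup Z hZp c hc, hinf, fun y hy => DP.RINNER.tp_map_conj Z c hy,
    DP.RINNER.cN_le_stb Z N c, fun y hy hyN => mem_cN_of Z N c hinf hy hyN, ?_⟩
  intro M hM W
  have hmem : ∀ n : M, (((n : stb c) : X)) ∈ cN N (tp Z c) := fun n =>
    mem_cN_of Z N c hinf (n : stb c).2 ((hM (n : stb c)).mp n.2)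
  let f : M →* cN N (tp Z c) :=
    ((stb c).subtype.comp M.subtype).codRestrict (cN N (tp Z c)) hmem
  have hf : ∀ n, (f n : X) = ((n : stb c) : X) := fun n => rfl
  have hbij : Function.Bijective f := by
    constructor
    · intro x y hxy
      have h3 : (f x : X) = f y := congrArg Subtype.val hxy
      rw [hf, hf] at h3
      exact Subtype.ext (Subtype.ext h3)
    · rintro ⟨y, hy⟩
      have h4 : y ∈ stb c := DP.RINNER.cN_le_stb Z N c hy
      exact ⟨⟨⟨y, h4⟩, (hM ⟨y, h4⟩).mpr (Subgroup.mem_inf.mp hy).1⟩, Subtype.ext rfl⟩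
  obtain ⟨E, hEf⟩ : ∃ E : M ≃* cN N (tp Z c), ∀ n, E n = f n :=
    ⟨MulEquiv.ofBijective f hbij, fun n => rfl⟩
  have hcomp : (cN N (tp Z c)).subtype.comp E.toMonoidHom = (stb c).subtype.comp M.subtype := by
    apply MonoidHom.ext
    intro n
    change ((E n : cN N (tp Z c)) : X) = ((n : stb c) : X)
    rw [hEf, hf]
  unfold innerS
  have hbot : (⊥ : Subgroup (cN N (tp Z c))) = (⊥ : Subgroup M).map E.toMonoidHom := by
    rw [Subgroup.map_bot]
  rw [hbot, sum_Ch_equiv E ℓ ⊥]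
  refine Finset.sum_congr rfl fun τ _ => ?_
  have h4 : stb c ⊓ stb (mapCh (cN N (tp Z c)).subtype (mapCh E.toMonoidHom τ)) =
      (stb (mapCh M.subtype τ)).map (stb c).subtype := by
    rw [mapCh_comp, hcomp, ← mapCh_comp]
    have h5 := comap_stb_mapCh (i := (stb c).subtype) Subtype.val_injective (mapCh M.subtype τ)
    rw [← h5, Subgroup.map_comap_eq, Subgroup.range_subtype]
  rw [card_mapCh E.injective, h4]

end Pool.Agent.DPC


end

section

/-!
# SYL: a class of defect zero of the fixed points of an `ℓ`-group of automorphisms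
-/

namespace Pool.Agent.DPC

open Pool.Agent.DP Pool.Agent.Lib_helper13 Representation
open Pool.Agent.Lib_helper13.Dade (pCore DadeHolds dadeSum)
open scoped Pointwise

namespace SYL

/-- An `ℓ`-group `P` of automorphisms of a finite group `S` with an `ℓ`-element different from `1`
fixes an `ℓ`-element different from `1`. -/
theorem exists_fixed {S P : Type*} [Group S] [Finite S] [Group P] (ℓ : ℕ) [Fact ℓ.Prime]
    (hP : IsPGroup ℓ P) [MulDistribMulAction P S] (hS : ℓ ∣ Nat.card S) :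
    ∃ s : S, s ≠ 1 ∧ (∃ k : ℕ, s ^ ℓ ^ k = 1) ∧ ∀ b : P, b • s = s := by
  classical
  have h1 : ¬ ℓ ∣ Nat.card (Sylow ℓ S) := by
    intro hd
    have h2 := card_sylow_modEq_one ℓ S
    have h3 : Nat.card (Sylow ℓ S) % ℓ = 1 % ℓ := h2
    rw [Nat.mod_eq_zero_of_dvd hd, Nat.mod_eq_of_lt (Fact.out : ℓ.Prime).one_lt] at h3
    exact absurd h3 (by norm_num)
  obtain ⟨R, hR⟩ := hP.nonempty_fixed_point_of_prime_not_dvd_card (Sylow ℓ S) h1
  have hRm : ∀ (b : P) (r : S), r ∈ R → b • r ∈ R := by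
    intro b r hr
    have h4 : b • R = R := hR b
    have h5 : b • r ∈ (b • R : Sylow ℓ S) := by
      change b • r ∈ b • (R : Subgroup S)
      exact Subgroup.smul_mem_pointwise_smul r b _ hr
    rwa [h4] at h5
  let act : MulAction P R :=
    { smul := fun b r => ⟨b • (r : S), hRm b r r.2⟩
      one_smul := fun r => Subtype.ext (one_smul P (r : S))
      mul_smul := fun b c r => Subtype.ext (mul_smul b c (r : S)) }
  have h6 : ℓ ∣ Nat.card R := R.dvd_card_of_dvd_card hS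
  have h7 : (1 : R) ∈ MulAction.fixedPoints P R := by
    intro b
    exact Subtype.ext (smul_one b)
  obtain ⟨r, hr, hr1⟩ := hP.exists_fixed_point_of_prime_dvd_card_of_fixed_point R h6 h7
  refine ⟨(r : S), fun h => hr1 (Subtype.ext h.symm), ?_, fun b => congrArg Subtype.val (hr b)⟩
  obtain ⟨k, hk⟩ := R.isPGroup' r
  exact ⟨k, by simpa using congrArg Subtype.val hk⟩

end SYL

open _root_.Pool.Agent.DPC.SYL in
theorem SYL_thm : Stmt_SYL := by
  intro G B _ _ _ _ ℓ _ κ P hP y hy hyp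
  set S : Subgroup G := Subgroup.centralizer {y} with hS
  have hmem : ∀ s : G, s ∈ S ↔ s * y = y * s := by
    intro s
    rw [hS, Subgroup.mem_centralizer_singleton_iff]
  have hκS : ∀ (b : P) (s : G), s ∈ S → κ b s ∈ S := by
    intro b s hs
    rw [hmem] at hs ⊢
    have h1 : κ (b : B) y = y := hy b b.2
    have h2 := congrArg (κ (b : B)) hs
    rwa [map_mul, map_mul, h1] at h2
  let act : MulDistribMulAction P S :=
    { smul := fun b s => ⟨κ b s, hκS b s s.2⟩
      one_smul := fun s => Subtype.ext (by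
        change κ ((1 : P) : B) (s : G) = s
        rw [Subgroup.coe_one, map_one]
        rfl)
      mul_smul := fun b c s => Subtype.ext (by
        change κ ((b * c : P) : B) (s : G) = κ (b : B) (κ (c : B) (s : G))
        rw [Subgroup.coe_mul, map_mul]
        rfl)
      smul_one := fun b => Subtype.ext (map_one (κ (b : B)))
      smul_mul := fun b s t => Subtype.ext (map_mul (κ (b : B)) (s : G) (t : G)) }
  have hnd : ¬ ℓ ∣ Nat.card S := by
    intro hd
    obtain ⟨s, hs1, ⟨k, hk⟩, hs⟩ := exists_fixed (S := S) (P := P) ℓ hP hd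
    apply hs1
    apply Subtype.ext
    refine hyp (s : G) (fun b hb => congrArg Subtype.val (hs ⟨b, hb⟩)) ((hmem s).1 s.2) k ?_
    have := congrArg Subtype.val hk
    simpa using this
  refine ⟨?_, ?_⟩
  · intro g hg k hk
    by_contra hne
    apply hnd
    have h1 : orderOf g ∣ ℓ ^ k := orderOf_dvd_of_pow_eq_one hk
    obtain ⟨m, _, hm⟩ := (Nat.dvd_prime_pow (Fact.out : ℓ.Prime)).1 h1
    have hm0 : m ≠ 0 := by
      rintro rfl
      rw [pow_zero, orderOf_eq_one_iff] at hm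
      exact hne hm
    have h2 : ℓ ∣ orderOf g := by
      rw [hm]
      exact dvd_pow_self ℓ hm0
    have h3 : orderOf (⟨g, (hmem g).2 hg⟩ : S) = orderOf g := Subgroup.orderOf_mk g _
    rw [← h3] at h2
    exact h2.trans (orderOf_dvd_natCard _)
  · intro g hg
    obtain ⟨z, hz⟩ : ∃ z, z = g * y * g⁻¹ := ⟨_, rfl⟩
    rw [← hz] at hg ⊢
    let T : Type _ := {x : G // x * y * x⁻¹ = z}
    let actT : MulAction P T :=
      { smul := fun b x => ⟨κ b x.1, by
          have h1 : κ (b : B) y = y := hy b b.2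
          have h2 : κ (b : B) z = z := hg b b.2
          have h3 := congrArg (κ (b : B)) x.2
          rwa [map_mul, map_mul, map_inv, h1, h2] at h3⟩
        one_smul := fun x => Subtype.ext (by
          change κ ((1 : P) : B) x.1 = x.1
          rw [Subgroup.coe_one, map_one]
          rfl)
        mul_smul := fun b c x => Subtype.ext (by
          change κ ((b * c : P) : B) x.1 = κ (b : B) (κ (c : B) x.1)
          rw [Subgroup.coe_mul, map_mul]
          rfl) }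
    have hT : Nat.card T = Nat.card S := by
      apply Nat.card_congr
      refine
        { toFun := fun x => ⟨g⁻¹ * x.1, ?_⟩
          invFun := fun s => ⟨g * s.1, ?_⟩
          left_inv := fun x => Subtype.ext (by simp)
          right_inv := fun s => Subtype.ext (by simp) }
      · rw [hmem]
        have h1 := x.2
        have h2 : x.1 * y = z * x.1 := by
          calc x.1 * y = (x.1 * y * x.1⁻¹) * x.1 := by group
            _ = z * x.1 := by rw [h1]
        have h3 : g⁻¹ * z = y * g⁻¹ := by rw [hz]; group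
        rw [mul_assoc, h2, ← mul_assoc, h3, mul_assoc]
      · have h1 := (hmem s.1).1 s.2
        calc g * s.1 * y * (g * s.1)⁻¹ = g * (s.1 * y) * s.1⁻¹ * g⁻¹ := by group
          _ = g * (y * s.1) * s.1⁻¹ * g⁻¹ := by rw [h1]
          _ = z := by rw [hz]; group
    have hndT : ¬ ℓ ∣ Nat.card T := by rwa [hT]
    have : Finite T := Subtype.finite
    obtain ⟨x, hx⟩ := hP.nonempty_fixed_point_of_prime_not_dvd_card T hndT
    refine ⟨x.1, ?_, x.2.symm⟩
    intro b hb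
    exact congrArg Subtype.val (hx ⟨b, hb⟩)

end Pool.Agent.DPC


end

section

/-!
# Module PSG: characters of the stabilizer of an outer chain over characters of defect zero
-/

namespace Pool.Agent.DPM

open Pool.Agent.DP Pool.Agent.DPC Pool.Agent.Lib_helper13 Representation
open Pool.Agent.Lib_helper13.Dade (pCore DadeHolds dadeSum)

namespace PSG

theorem clG_normal {Y : Type*} [Group Y] (N : Subgroup Y) [N.Normal] :
    ClG N.subtype (MulAut.conjNormal (H := N)) (QuotientGroup.mk' N) where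
  inj := N.subtype_injective
  act := fun y a => MulAut.conjNormal_apply y a
  ker := by
    intro y
    rw [Subgroup.range_subtype, QuotientGroup.mk'_apply, QuotientGroup.eq_one_iff]

/-- The isomorphism of `M` with the fixed points. -/
def eqv {Y : Type*} [Group Y] (N S Q : Subgroup Y) [N.Normal] (M : Subgroup S)
    (hM : ∀ y : S, y ∈ M ↔ (y : Y) ∈ N) (h1 : cN N Q ≤ S)
    (h2 : ∀ y ∈ S, y ∈ N → y ∈ cN N Q) : M ≃* ↥(FX (MulAut.conjNormal (H := N)) Q) where
  toFun m := ⟨⟨((m : S) : Y), (hM m).mp m.2⟩, by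
    intro b hb
    apply Subtype.ext
    rw [MulAut.conjNormal_apply]
    have h3 := (h2 _ (m : S).2 ((hM m).mp m.2)).2
    have h4 := Subgroup.mem_centralizer_iff.mp h3 b hb
    change b * ((m : S) : Y) * b⁻¹ = ((m : S) : Y)
    rw [h4, mul_inv_cancel_right]⟩
  invFun x := ⟨⟨((x : N) : Y), by
    apply h1
    refine ⟨(x : N).2, ?_⟩
    refine Subgroup.mem_centralizer_iff.mpr ?_
    intro b hb
    have h3 := congrArg (Subtype.val) (x.2 b hb)
    rw [MulAut.conjNormal_apply] at h3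
    exact mul_inv_eq_iff_eq_mul.mp h3⟩, (hM _).mpr (x : N).2⟩
  left_inv := by
    intro m
    rfl
  right_inv := by
    intro x
    rfl
  map_mul' := by
    intro x y
    rfl

end PSG

open _root_.Pool.Agent.DPM.PSG

/-- PSG. -/
theorem PSG_thm (h1 : Stmt_CVX) : Stmt_PSG := by
  classical
  intro Y _ _ 𝔐 ℓ _ h𝔐 hℓ Z N _ _ hZp hZN c hc hcN M hM ψ θ hψ hθ hθ0 hip
  have hprime : 𝔐.IsPrime := h𝔐.isPrime
  obtain ⟨hQp, hQN, hQn, hCN, hCN', -⟩ := INY_thm Y ℓ Z N c hc hcN hZN hZp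
  obtain ⟨χ, hχ, hcen⟩ := exists_irr_of_mult 𝔐 hψ (exists_irr_of_chain 𝔐 hℓ hc hψ)
  obtain ⟨ξ, hξ, hipξ⟩ := CLG.exists_under N.subtype hχ
  refine ⟨χ, ξ, hχ, hξ, ?_, hipξ, hcen⟩
  have hcl := clG_normal N
  have hMn : M.Normal := by
    constructor
    intro n hn g
    rw [hM] at hn ⊢
    have h2 : N.Normal := inferInstance
    exact h2.conj_mem _ hn _
  have hcl' := clG_normal M
  obtain ⟨e, he⟩ : ∃ e : M ≃* ↥(FX (MulAut.conjNormal (H := N)) (tp Z c)),
      ∀ x, (((e.symm x : M) : stb c) : Y) = ((x : N) : Y) :=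
    ⟨eqv N (stb c) (tp Z c) M hM hCN hCN', fun x => rfl⟩
  have hθ' : IsIrr (fun x => θ (e.symm x)) := hθ.comp_mulEquiv e.symm
  have hθ0' : HasDefect ℓ (fun x => θ (e.symm x)) 0 := (hasDefect_comp_equiv e.symm).mpr hθ0
  obtain ⟨ξ0, hξ0, hξ00, hD⟩ := DGN_thm SYL_thm N Y 𝔐 ℓ h𝔐 hℓ (MulAut.conjNormal (H := N)) (tp Z c)
    hQp _ hθ' hθ0'
  have key : ∀ F : Y → ℂ, (∀ g x, F (g * x * g⁻¹) = F x) → (∀ y, y ∉ N → F y = 0) →
      (∀ x, IsIntegral ℤ (F x)) →
      red 𝔐 (wt ξ (fun a : N => F a)) = red 𝔐 (wt ξ0 (fun a : N => F a)) := by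
    intro F hF hF0 hFi
    have hA : wt χ F = wt ξ (fun a : N => F a) :=
      (SUMM_thm N Y (Y ⧸ N) N.subtype _ _ hcl).2.2.2 ξ χ F hξ hχ hipξ hF
        (fun y hy => hF0 y (by rwa [Subgroup.range_subtype] at hy))
    have hB : wt ψ (fun y => F (y : Y)) = wt θ (fun a : M => F ((a : stb c) : Y)) :=
      (SUMM_thm M (stb c) (stb c ⧸ M) M.subtype _ _ hcl').2.2.2 θ ψ (fun y => F (y : Y)) hθ hψ hip
        (fun g x => hF _ _) (fun y hy => hF0 y (by
          rw [Subgroup.range_subtype] at hy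
          exact fun h => hy ((hM y).mpr h)))
    have hC : red 𝔐 (wt χ F) = red 𝔐 (wt ψ (fun y => F (y : Y))) := by
      have ha := red_wt_eq_pair 𝔐 (MonoidHom.id Y) hχ F hF hFi
      have hb := red_wt_eq_pair 𝔐 (stb c).subtype hψ F hF hFi
      rw [← hcen] at hb
      exact ha.trans hb.symm
    have hE : wt (fun x => θ (e.symm x)) (fun x => F ((x : N) : Y)) =
        wt θ (fun a : M => F ((a : stb c) : Y)) := by
      rw [← wt_comp_equiv e.symm θ (fun a : M => F ((a : stb c) : Y))]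
      congr 1
      funext x
      rw [he]
    have hG := hD (fun a : N => F a) (fun g x => hF _ _)
      (fun b _ x => by rw [MulAut.conjNormal_apply]; exact hF _ _) (fun x => hFi _)
    rw [← hG, ← hA, hC, hB, hE]
  obtain ⟨x, hx1, hx2, hx3⟩ := h1 Y 𝔐 ℓ h𝔐 hℓ N ξ ξ0 hξ hξ0 (by
    intro g hg
    refine key (fun y => conjInd y g) (fun h x => conjInd_conj h x g) ?_
      (fun x => isIntegral_conjInd _ _)
    intro y hy
    rw [conjInd, if_neg]
    intro h
    apply hy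
    have h2 : N.Normal := inferInstance
    obtain ⟨u, hu⟩ := isConj_iff.mp h.symm
    rw [← hu]
    exact h2.conj_mem _ hg _)
  exact defect_zero_of_cen 𝔐 hℓ hx1 ((hx3 0).mpr hξ00) (MonoidHom.id N) hξ
    (fun g => (congrFun hx2 g).symm)

end Pool.Agent.DPM


end

section

/-!
# Module DGE: existence of the corresponding character of the fixed points
-/

set_option autoImplicit false
set_option linter.unusedSectionVars false
set_option linter.unusedVariables false

namespace Pool.Agent.DPC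

open Pool.Agent.DP Pool.Agent.Lib_helper13 Representation
open Pool.Agent.Lib_helper13.Dade (pCore DadeHolds dadeSum)

namespace DGE

open LTIC (Icf)

section Lam

variable {H : Type} [Group H] [Fintype H]

theorem wt_top [Fintype (⊤ : Subgroup H)] (χ f : H → ℂ) :
    wt (fun s : (⊤ : Subgroup H) => χ (Subgroup.topEquiv s)) (fun s => f (s : H)) = wt χ f :=
  wt_comp_equiv (Subgroup.topEquiv (G := H)) χ f

/-- The reduced weights of integral class functions as a homomorphism. -/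
noncomputable def lam (𝔐 : Ideal (integralClosure ℤ ℂ)) {χ : H → ℂ} (hχ : IsIrr χ) :
    Icf H →* (integralClosure ℤ ℂ) ⧸ 𝔐 where
  toFun a := red 𝔐 (wt χ a.fn)
  map_one' := by
    classical
    have hψ : IsIrr (fun s : (⊤ : Subgroup H) => χ (Subgroup.topEquiv s)) :=
      hχ.comp_mulEquiv Subgroup.topEquiv
    have h := wt_dl hψ
    rw [wt_top χ dl] at h
    rw [LTIC.fn_one, h, red_one]
  map_mul' a b := by
    classical
    have hψ : IsIrr (fun s : (⊤ : Subgroup H) => χ (Subgroup.topEquiv s)) :=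
      hχ.comp_mulEquiv Subgroup.topEquiv
    have h := red_wt_cv 𝔐 hψ (multOn_self 𝔐 hψ) a.cl b.cl a.int b.int
    rw [wt_top χ (cv a.fn b.fn), wt_top χ a.fn, wt_top χ b.fn] at h
    rw [LTIC.fn_mul, h]

theorem lam_apply (𝔐 : Ideal (integralClosure ℤ ℂ)) {χ : H → ℂ} (hχ : IsIrr χ) (a : Icf H) :
    lam 𝔐 hχ a = red 𝔐 (wt χ a.fn) := rfl

theorem red_cv (𝔐 : Ideal (integralClosure ℤ ℂ)) {f f' : H → ℂ} (hf : ∀ x, IsIntegral ℤ (f x))
    (hf' : ∀ x, IsIntegral ℤ (f' x)) (x : H) :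
    red 𝔐 (cv f f' x) = ∑ y, red 𝔐 (f y) * red 𝔐 (f' (y⁻¹ * x)) := by
  rw [cv, red_sum 𝔐 _ _ fun y _ => (hf y).mul (hf' _)]
  exact Finset.sum_congr rfl fun y _ => red_mul 𝔐 (hf y) (hf' _)

/-- An integral class function all of whose weights vanish is zero. -/
theorem eq_zero_of_wt {R : Icf H} (h : ∀ χ : H → ℂ, IsIrr χ → wt χ R.fn = 0) (x : H) :
    R.fn x = 0 := by
  have h2 : (fun x => R.fn x⁻¹) = 0 := by
    apply class_fn_eq_zero
    · intro g x
      have : (g * x * g⁻¹)⁻¹ = g * x⁻¹ * g⁻¹ := by group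
      rw [this, R.cl]
    · intro χ hχ
      have h3 := h χ hχ
      rw [wt, div_eq_zero_iff] at h3
      rcases h3 with h3 | h3
      · rw [← h3]
        refine Fintype.sum_equiv (Equiv.inv H) _ _ fun x => ?_
        rfl
      · exact absurd h3 hχ.one_ne_zero
  have := congrFun h2 x⁻¹
  simpa using this

theorem wt_eq_zero_of_red {χ : H → ℂ} (hχ : IsIrr χ) (R : Icf H)
    (h : lam ⊥ hχ R = 0) : wt χ R.fn = 0 := by
  rw [lam_apply, ← red_zero (⊥ : Ideal (integralClosure ℤ ℂ)),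
    red_eq_iff ⊥ (isIntegral_wt hχ R.fn R.cl R.int) isIntegral_zero] at h
  obtain ⟨m, hm', hm''⟩ := h
  rw [Ideal.mem_bot] at hm'
  rw [hm', sub_zero, ZeroMemClass.coe_zero] at hm''
  exact hm''.symm

end Lam

section Res

variable {A X : Type} [Group A] [Fintype A] [Group X] [Fintype X]

/-- Restriction to a subgroup. -/
def resI (S : Subgroup A) (a : Icf A) : Icf S :=
  ⟨fun s => a.fn s, fun g x => a.cl g x, fun x => a.int x⟩

theorem resI_fn (S : Subgroup A) (a : Icf A) (s : S) : (resI S a).fn s = a.fn s := rfl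

/-- Invariance under `Q`. -/
def Inv (c : X →* MulAut A) (Q : Subgroup X) (a : Icf A) : Prop :=
  ∀ b ∈ Q, ∀ x, a.fn (c b x) = a.fn x

theorem Inv.mul {c : X →* MulAut A} {Q : Subgroup X} {a b : Icf A} (ha : Inv c Q a)
    (hb : Inv c Q b) : Inv c Q (a * b) := by
  intro q hq x
  rw [LTIC.fn_mul, ← LTIC.cv_equiv (c q) a.fn b.fn x]
  rw [cv, cv]
  refine Finset.sum_congr rfl fun y _ => ?_
  rw [ha q hq, hb q hq]

theorem inv_one (c : X →* MulAut A) (Q : Subgroup X) : Inv c Q 1 := by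
  intro q _ x
  rw [LTIC.fn_one, LTIC.dl_equiv]

/-- Convolution localizes on the fixed points. -/
theorem red_mul_res (𝔐 : Ideal (integralClosure ℤ ℂ)) {ℓ : ℕ} [Fact ℓ.Prime]
    (hℓ : (ℓ : integralClosure ℤ ℂ) ∈ 𝔐) {c : X →* MulAut A} {Q : Subgroup X}
    [Fintype (FX c Q)]
    (hQ : IsPGroup ℓ Q) {a b : Icf A} (ha : Inv c Q a) (hb : Inv c Q b) (x : FX c Q) :
    red 𝔐 ((a * b).fn x) = red 𝔐 ((resI (FX c Q) a * resI (FX c Q) b).fn x) := by
  classical
  rw [LTIC.fn_mul, LTIC.fn_mul, red_cv 𝔐 a.int b.int, red_cv 𝔐 (resI _ a).int (resI _ b).int]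
  let act : MulAction Q A :=
    { smul := fun q y => c q y
      one_smul := fun y => by
        change c ((1 : Q) : X) y = y
        rw [Subgroup.coe_one, map_one]
        rfl
      mul_smul := fun q r y => by
        change c ((q * r : Q) : X) y = c (q : X) (c (r : X) y)
        rw [Subgroup.coe_mul, map_mul]
        rfl }
  have h1 := sum_eq_sum_fixed (Q := Q) (X := A) hQ (nsmul_quot_eq_zero 𝔐 hℓ)
    (fun y : A => red 𝔐 (a.fn y) * red 𝔐 (b.fn (y⁻¹ * x))) (by
      intro q y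
      change red 𝔐 (a.fn (c q y)) * red 𝔐 (b.fn ((c q y)⁻¹ * x)) = _
      have hx : c (q : X) (x : A) = x := x.2 q q.2
      have h2 : (c (q : X) y)⁻¹ * (x : A) = c (q : X) (y⁻¹ * x) := by
        rw [map_mul, map_inv, hx]
      rw [h2, ha q q.2, hb q q.2])
  rw [h1]
  refine Finset.sum_subtype _ (fun y => ?_) _
  rw [Finset.mem_filter]
  constructor
  · rintro ⟨-, h⟩ b hb
    exact h ⟨b, hb⟩
  · intro h
    exact ⟨Finset.mem_univ _, fun q => h q q.2⟩

theorem red_prod_res (𝔐 : Ideal (integralClosure ℤ ℂ)) {ℓ : ℕ} [Fact ℓ.Prime]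
    (hℓ : (ℓ : integralClosure ℤ ℂ) ∈ 𝔐) {c : X →* MulAut A} {Q : Subgroup X}
    [Fintype (FX c Q)]
    (hQ : IsPGroup ℓ Q) {ι : Type} (T : Finset ι) (a : ι → Icf A) (ha : ∀ i, Inv c Q (a i)) :
    Inv c Q (∏ i ∈ T, a i) ∧ ∀ x : FX c Q,
      red 𝔐 ((∏ i ∈ T, a i).fn x) = red 𝔐 ((∏ i ∈ T, resI (FX c Q) (a i)).fn x) := by
  classical
  induction T using Finset.induction_on with
  | empty =>
    refine ⟨?_, fun x => ?_⟩
    · rw [Finset.prod_empty]
      exact inv_one c Q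
    · rw [Finset.prod_empty, Finset.prod_empty, LTIC.fn_one, LTIC.fn_one]
      congr 1
      rw [dl, dl]
      congr 1
      apply propext
      exact ⟨fun h => Subtype.ext h, fun h => congrArg Subtype.val h⟩
  | insert i T hi ih =>
    obtain ⟨ih1, ih2⟩ := ih
    rw [Finset.prod_insert hi, Finset.prod_insert hi]
    refine ⟨(ha i).mul ih1, fun x => ?_⟩
    rw [red_mul_res 𝔐 hℓ hQ (ha i) ih1, LTIC.fn_mul, LTIC.fn_mul,
      red_cv 𝔐 (resI _ (a i)).int (resI _ _).int, red_cv 𝔐 (resI _ (a i)).int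
      (∏ i ∈ T, resI (FX c Q) (a i)).int]
    refine Finset.sum_congr rfl fun y _ => ?_
    rw [resI_fn (FX c Q) (∏ i ∈ T, a i), ih2]

end Res

end DGE

open _root_.Pool.Agent.DPC.DGE in
theorem DGE_thm (h1 : Stmt_BRK) (h2 : Stmt_DGX) : Stmt_DGE := by
  intro A X K _ _ _ _ _ 𝔐 ℓ _ h𝔐 hℓ j c p hc Qb hQb hQbr θ hθ hθ0 hinv
  classical
  have hprime : 𝔐.IsPrime := h𝔐.isPrime
  obtain ⟨Q, y, hQ, hQj, hQp, hy, hyc, hyθ⟩ :=
    h2 A X K 𝔐 ℓ h𝔐 hℓ j c p hc Qb hQb hQbr θ hθ hθ0 hinv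
  refine ⟨Q, hQ, hQj, hQp, ?_⟩
  have hθQ : ∀ b ∈ Q, ∀ x, θ (c b x) = θ x := by
    intro b hb x
    apply hinv
    rw [← hQp]
    exact ⟨b, hb, rfl⟩
  -- existence
  obtain ⟨θ', hθ', hD⟩ : ∃ θ' : ↥(FX c Q) → ℂ, IsIrr θ' ∧ DGr 𝔐 c Q θ' θ := by
    by_contra hcon
    push Not at hcon
    have hex : ∀ θ' : ↥(FX c Q) → ℂ, ∃ a : LTIC.Icf A, Inv c Q a ∧
        (IsIrr θ' → wt θ' (fun x => a.fn x) = 0 ∧ red 𝔐 (wt θ a.fn) ≠ 0) := by
      intro θ'
      by_cases hθ' : IsIrr θ'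
      · have h3 := hcon θ' hθ'
        unfold DGr at h3
        push Not at h3
        obtain ⟨F, hF1, hF2, hF3, hF4⟩ := h3
        have ha : IsIntegral ℤ (wt θ' (fun x : FX c Q => F x)) :=
          isIntegral_wt hθ' _ (fun g x => hF1 g x) (fun x => hF3 x)
        obtain ⟨a, hadef⟩ : ∃ a, a = wt θ' (fun x : FX c Q => F x) := ⟨_, rfl⟩
        rw [← hadef] at ha hF4
        refine ⟨⟨fun x => F x - a * dl x, fun g x => by rw [hF1, dl_conj],
          fun x => (hF3 x).sub (ha.mul (isIntegral_dl x))⟩, ?_, fun _ => ⟨?_, ?_⟩⟩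
        · intro b hb x
          change F (c b x) - a * dl (c b x) = F x - a * dl x
          rw [hF2 b hb, LTIC.dl_equiv]
        · have e : (fun x : FX c Q => F x - a * dl (x : A)) =
              (fun x : FX c Q => F x) + fun x : FX c Q => -a * dl (x : A) := by
            funext x
            simp [sub_eq_add_neg]
          change wt θ' (fun x : FX c Q => F x - a * dl (x : A)) = 0
          rw [e, wt_add, wt_smul, wt_dl hθ', ← hadef]
          ring
        · have e : (fun x : A => F x - a * dl x) = F + fun x : A => -a * dl x := by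
            funext x
            simp [sub_eq_add_neg]
          have hdl : wt θ dl = 1 := by
            have hψ : IsIrr (fun s : (⊤ : Subgroup A) => θ (Subgroup.topEquiv s)) :=
              hθ.comp_mulEquiv Subgroup.topEquiv
            have h := wt_dl hψ
            rwa [wt_top θ dl] at h
          have hF5 : IsIntegral ℤ (wt θ F) := isIntegral_wt hθ F hF1 hF3
          change red 𝔐 (wt θ (fun x : A => F x - a * dl x)) ≠ 0
          rw [e, wt_add, wt_smul, hdl, mul_one, red_add 𝔐 hF5 ha.neg]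
          intro h4
          apply hF4
          have h5 : red 𝔐 (-a) = -red 𝔐 a := by
            rw [red_of_integral 𝔐 ha.neg, red_of_integral 𝔐 ha, ← map_neg]
            rfl
          rw [h5, ← sub_eq_add_neg, sub_eq_zero] at h4
          exact h4.symm
      · exact ⟨1, inv_one c Q, fun h => absurd h hθ'⟩
    choose a ha1 ha2 using hex
    obtain ⟨hP1, hP2⟩ := red_prod_res 𝔐 hℓ hQ (irrF (FX c Q)) a ha1
    have hR : ∀ x : FX c Q, (∏ i ∈ irrF (FX c Q), resI (FX c Q) (a i)).fn x = 0 := by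
      apply eq_zero_of_wt
      intro χ hχ
      apply wt_eq_zero_of_red hχ
      rw [map_prod]
      apply Finset.prod_eq_zero (mem_irrF.mpr hχ)
      rw [lam_apply]
      have h3 : wt χ (resI (FX c Q) (a χ)).fn = 0 := (ha2 χ hχ).1
      rw [h3, red_zero]
    have h3 := h1 A X 𝔐 ℓ h𝔐 hℓ c Q hQ θ hθ hθ0 hθQ y hy hyc hyθ
      (∏ i ∈ irrF (FX c Q), a i).fn (∏ i ∈ irrF (FX c Q), a i).cl hP1
      (∏ i ∈ irrF (FX c Q), a i).int (by
        intro x hx
        have h4 := hP2 ⟨x, hx⟩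
        rw [hR, red_zero] at h4
        exact h4)
    rw [← lam_apply 𝔐 hθ, map_prod, Finset.prod_eq_zero_iff] at h3
    obtain ⟨χ, hχ, h5⟩ := h3
    exact (ha2 χ (mem_irrF.mp hχ)).2 h5
  refine ⟨θ', hθ', ?_, hD⟩
  -- the defect
  obtain ⟨e, he⟩ := hθ'.exists_defect (ℓ := ℓ)
  rcases Nat.eq_zero_or_pos e with rfl | hepos
  · exact he
  exfalso
  obtain ⟨hs1, hs2⟩ := SYL_thm A X ℓ c Q hQ y hy (fun g _ hg k hk => hyc g hg k hk)
  have hc2 : ¬ ℓ ∣ Nat.card (Subgroup.centralizer ({y} : Set A)) := by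
    intro hdvd
    obtain ⟨g, hg1, hg2, hg3⟩ := DGN.exists_elt y hdvd
    exact hg3 (hyc g hg1 1 hg2)
  have hc3 : ¬ ℓ ∣ Nat.card (Subgroup.centralizer ({(⟨y, hy⟩ : FX c Q)} : Set (FX c Q))) := by
    intro hdvd
    obtain ⟨g, hg1, hg2, hg3⟩ := DGN.exists_elt (⟨y, hy⟩ : FX c Q) hdvd
    apply hg3
    apply Subtype.ext
    exact hyc g (congrArg Subtype.val hg1) 1 (congrArg Subtype.val hg2)
  have hconj : ∀ x : A, BLKA.cls y x = if IsConj y x then 1 else 0 := by
    intro x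
    rw [BLKA.cls]
    congr 1
    rw [ConjClasses.mk_eq_mk_iff_isConj]
    exact propext ⟨fun h => h.symm, fun h => h.symm⟩
  have hk := hD (fun x => ((BLKA.cls y x : ℤ) : ℂ)) ?_ ?_ ?_
  rotate_left
  · intro g x
    rw [BLKA.cls_conj]
  · intro b hb x
    congr 1
    rw [hconj, hconj]
    congr 1
    apply propext
    constructor
    · intro h
      obtain ⟨z, hz⟩ := isConj_iff.mp h
      refine isConj_iff.mpr ⟨c b⁻¹ z, ?_⟩
      have e1 : c b⁻¹ (c b x) = x := by
        rw [← MulAut.mul_apply, ← map_mul, inv_mul_cancel, map_one, MulAut.one_apply]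
      have e2 : c b⁻¹ y = y := hy _ (inv_mem hb)
      have e3 := congrArg (c b⁻¹) hz
      rw [e1, map_mul (c b⁻¹), map_mul (c b⁻¹), map_inv (c b⁻¹) z, e2] at e3
      exact e3
    · intro h
      obtain ⟨z, hz⟩ := isConj_iff.mp h
      refine isConj_iff.mpr ⟨c b z, ?_⟩
      have e2 : c b y = y := hy _ hb
      have e3 := congrArg (c b) hz
      rw [map_mul (c b), map_mul (c b), map_inv (c b) z, e2] at e3
      exact e3
  · intro x
    exact isIntegral_algebraMap (R := ℤ) (A := ℂ) (x := BLKA.cls y x)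
  have e1 : wt θ' (fun x => ((BLKA.cls y (x : A) : ℤ) : ℂ)) =
      om θ' (elt (BLKA.cls (⟨y, hy⟩ : FX c Q))) := by
    rw [om_elt, wt]
    congr 1
    refine Finset.sum_congr rfl fun x _ => ?_
    congr 2
    rw [hconj]
    by_cases hx : IsConj (⟨y, hy⟩ : FX c Q) x
    · have h2 : IsConj y (x : A) := by
        obtain ⟨z, hz⟩ := isConj_iff.mp hx
        exact isConj_iff.mpr ⟨z, by rw [← hz]; rfl⟩
      rw [if_pos h2, BLKA.cls, if_pos (ConjClasses.mk_eq_mk_iff_isConj.mpr hx.symm)]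
    · have h2 : ¬ IsConj y (x : A) := by
        intro h
        apply hx
        obtain ⟨z, hz⟩ := isConj_iff.mp h
        obtain ⟨h, hh, hh2⟩ := hs2 z (by rw [hz]; exact x.2)
        refine isConj_iff.mpr ⟨⟨h, hh⟩, Subtype.ext ?_⟩
        change h * y * h⁻¹ = x
        rw [← hh2, hz]
      rw [if_neg h2, BLKA.cls, if_neg (fun h => hx (ConjClasses.mk_eq_mk_iff_isConj.mp h).symm)]
  have e2 : wt θ (fun x => ((BLKA.cls y x : ℤ) : ℂ)) = om θ (elt (BLKA.cls y)) := by
    rw [om_elt, wt]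
  rw [e1, e2] at hk
  -- the weight for `θ` is not zero
  have hne : red 𝔐 (om θ (elt (BLKA.cls y))) ≠ 0 := by
    intro h0
    obtain ⟨n, M, hn0, hn, hM, hv⟩ := exists_codeg hθ hθ0
    have h3 := BLKA.mul_om_cls hθ y hn0 hn (DGN.card_centralizer y) hM
    have hint := isIntegral_om hθ (elt_mem_center (BLKA.cls y) (BLKA.cls_conj y))
    have h4 := congrArg (red 𝔐) h3
    rw [red_mul 𝔐 (Lib_helper13.isIntegral_natCast _) hint, h0, mul_zero,
      red_mul 𝔐 (Lib_helper13.isIntegral_natCast _) (isIntegral_char hθ y)] at h4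
    rcases mul_eq_zero.mp h4.symm with h5 | h5
    · have h6 := red_codeg_ne_zero 𝔐 hℓ hθ hθ0
      have h7 : (Nat.card A : ℂ) / θ 1 = M := by
        have hn' : (n : ℂ) ≠ 0 := by exact_mod_cast hn0.ne'
        rw [hn, hM]
        push_cast
        field_simp
      rw [h7] at h6
      exact h6 h5
    · exact hyθ h5
  rw [← hk] at hne
  obtain ⟨n, M, hn0, hn, hM, hv⟩ := exists_codeg hθ' he
  have h3 := BLKA.mul_om_cls hθ' (⟨y, hy⟩ : FX c Q) hn0 hn
    (DGN.card_centralizer (⟨y, hy⟩ : FX c Q)) hM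
  have hint := isIntegral_om hθ' (elt_mem_center (BLKA.cls (⟨y, hy⟩ : FX c Q))
    (BLKA.cls_conj (⟨y, hy⟩ : FX c Q)))
  have hMℓ : ℓ ∣ M := dvd_of_one_le_padicValNat (by omega)
  have h4 := BLKA.red_mul_of_dvd 𝔐 hℓ hMℓ (isIntegral_char hθ' (⟨y, hy⟩ : FX c Q))
  rw [← h3, red_mul 𝔐 (Lib_helper13.isIntegral_natCast _) hint] at h4
  rcases mul_eq_zero.mp h4 with h5 | h5
  · exact absurd h5 (red_card_ne_zero 𝔐 hℓ hc3)
  · exact hne h5

end Pool.Agent.DPC


end

section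

/-!
# Module DGU: subgroups with the same image which belong to the same character of defect zero
are conjugate
-/

set_option autoImplicit false
set_option linter.unusedSectionVars false
set_option linter.unusedVariables false

namespace Pool.Agent.DPC

open Pool.Agent.DP Pool.Agent.Lib_helper13 Representation
open Pool.Agent.Lib_helper13.Dade (pCore DadeHolds dadeSum)

namespace DGU

section Class

variable {G : Type} [Group G] [Fintype G]

open Classical in
/-- The indicator function of the conjugacy class. -/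
theorem cls_eq (y x : G) : BLKA.cls y x = if IsConj y x then 1 else 0 := by
  rw [BLKA.cls]
  congr 1
  rw [ConjClasses.mk_eq_mk_iff_isConj]
  exact propext ⟨fun h => h.symm, fun h => h.symm⟩

/-- A character of defect zero has a class of defect zero at which it does not vanish. -/
theorem exists_dz (𝔐 : Ideal (integralClosure ℤ ℂ)) [h𝔐 : 𝔐.IsPrime] {ℓ : ℕ} [Fact ℓ.Prime]
    (hℓ : (ℓ : integralClosure ℤ ℂ) ∈ 𝔐) {θ : G → ℂ} (hθ : IsIrr θ) (hθ0 : HasDefect ℓ θ 0) :
    ∃ y : G, red 𝔐 (om θ (elt (BLKA.cls y))) ≠ 0 ∧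
      ¬ ℓ ∣ Nat.card (Subgroup.centralizer ({y} : Set G)) := by
  obtain ⟨y, hy1, hy2⟩ := BLKA.exists_class 𝔐 hℓ hθ hθ0
  refine ⟨y, hy1, fun hdvd => ?_⟩
  obtain ⟨n, M, hn0, hn, hM, hv⟩ := exists_codeg hθ hθ0
  have hcs : BLKA.csize y⁻¹ = BLKA.csize y := BLKA.csize_inv y
  have hc' : Nat.card G = BLKA.csize y⁻¹ *
      Nat.card (Subgroup.centralizer ({y} : Set G)) := by
    rw [hcs]
    exact DGN.card_centralizer y
  have h3 := BLKA.mul_om_cls hθ y⁻¹ hn0 hn hc' hM
  have hint := isIntegral_om hθ (elt_mem_center (BLKA.cls y⁻¹) (BLKA.cls_conj y⁻¹))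
  have h4 := BLKA.red_mul_of_dvd 𝔐 hℓ hdvd hint
  rw [h3, red_mul 𝔐 (Lib_helper13.isIntegral_natCast M) (isIntegral_char hθ _)] at h4
  have h5 := red_codeg_ne_zero 𝔐 hℓ hθ hθ0
  have h6 : (Nat.card G : ℂ) / θ 1 = M := by
    have hn' : (n : ℂ) ≠ 0 := by exact_mod_cast hn0.ne'
    rw [hn, hM]
    push_cast
    field_simp
  rw [h6] at h5
  rcases mul_eq_zero.mp h4 with h7 | h7
  · exact h5 h7
  · exact hy2 h7

end Class

section Sylow

variable {A X K : Type} [Group A] [Group X] [Group K] [Finite X] {j : A →* X} {c : X →* MulAut A}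
  {p : X →* K}

/-- The index of `Q` in the centralizer of `j y` in `p⁻¹ (p Q)`. -/
theorem index_eq (hcl : ClG j c p) (y : A) (Q C : Subgroup X)
    (hC : ∀ x, x ∈ C ↔ x * j y = j y * x ∧ p x ∈ Q.map p) (hQ : Q ≤ C) (hQ0 : Q ⊓ j.range = ⊥) :
    (Q.subgroupOf C).index = Nat.card (Subgroup.centralizer ({y} : Set A)) := by
  classical
  let f : Subgroup.centralizer ({y} : Set A) × Q → C := fun z => ⟨j z.1 * z.2, by
    rw [hC]
    have h1 := Subgroup.mem_centralizer_singleton_iff.mp z.1.2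
    have h2 := (hC z.2).1 (hQ z.2.2)
    refine ⟨?_, ?_⟩
    · rw [mul_assoc, h2.1, ← mul_assoc, ← map_mul, h1, map_mul, mul_assoc]
    · rw [map_mul, (hcl.ker (j z.1)).2 ⟨_, rfl⟩, one_mul]
      exact h2.2⟩
  have hf : Function.Bijective f := by
    constructor
    · rintro ⟨a, q⟩ ⟨a', q'⟩ h
      have h1 : j a * q = j a' * q' := congrArg Subtype.val h
      have h2 : (q' : X) * (q : X)⁻¹ = j ((a' : A)⁻¹ * a) := by
        rw [map_mul, map_inv, eq_comm, inv_mul_eq_iff_eq_mul, ← mul_assoc, ← h1, mul_assoc,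
          mul_inv_cancel, mul_one]
      have h3 : (q' : X) * (q : X)⁻¹ ∈ Q ⊓ j.range :=
        ⟨Q.mul_mem q'.2 (Q.inv_mem q.2), by rw [h2]; exact ⟨_, rfl⟩⟩
      rw [hQ0, Subgroup.mem_bot] at h3
      have h4 : q = q' := Subtype.ext (mul_inv_eq_one.1 h3).symm
      have h5 : a = a' := by
        apply Subtype.ext
        apply hcl.inj
        rw [h4] at h1
        exact mul_right_cancel h1
      rw [h4, h5]
    · rintro ⟨x, hx⟩
      obtain ⟨h1, q, hq, h2⟩ := (hC x).1 hx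
      have h3 : x * q⁻¹ ∈ j.range := by
        rw [← hcl.ker, map_mul, map_inv, h2, mul_inv_cancel]
      obtain ⟨a, ha⟩ := h3
      have h4 := ((hC q).1 (hQ hq)).1
      have h5 : a * y = y * a := by
        apply hcl.inj
        rw [map_mul, map_mul, ha]
        calc x * q⁻¹ * j y = x * (q⁻¹ * (j y * q) * q⁻¹) := by group
          _ = x * (q⁻¹ * (q * j y) * q⁻¹) := by rw [h4]
          _ = (x * j y) * q⁻¹ := by group
          _ = (j y * x) * q⁻¹ := by rw [h1]
          _ = j y * (x * q⁻¹) := by group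
      refine ⟨⟨⟨a, Subgroup.mem_centralizer_singleton_iff.mpr h5⟩, ⟨q, hq⟩⟩, ?_⟩
      apply Subtype.ext
      change j a * q = x
      rw [ha]
      group
  have h1 : Nat.card C = Nat.card (Subgroup.centralizer ({y} : Set A)) * Nat.card Q := by
    rw [← Nat.card_prod]
    exact (Nat.card_eq_of_bijective f hf).symm
  have h2 := (Q.subgroupOf C).index_mul_card
  rw [Nat.card_congr (Subgroup.subgroupOfEquivOfLe hQ).toEquiv, h1] at h2
  exact Nat.eq_of_mul_eq_mul_right Nat.card_pos h2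

end Sylow

end DGU

open _root_.Pool.Agent.DPC.DGU in
theorem DGU_thm (h1 : Stmt_DGT) : Stmt_DGU := by
  intro A X K _ _ _ _ _ 𝔐 ℓ _ h𝔐 hℓ j c p hcl θ hθ hθ0 Q₁ Q₂ hQ₁ hQ₂ hi₁ hi₂ hmap hG₁ hG₂
  classical
  have hprime : 𝔐.IsPrime := h𝔐.isPrime
  obtain ⟨θ₁, hθ₁, hθ₁0, hD₁⟩ := hG₁
  obtain ⟨θ₂, hθ₂, hθ₂0, hD₂⟩ := hG₂
  obtain ⟨y, hy1, hy2⟩ := exists_dz 𝔐 hℓ hθ₂ hθ₂0
  obtain ⟨hs1, hs2⟩ := SYL_thm A X ℓ c Q₂ hQ₂ y.1 y.2 (by
    intro g hg hgy k hk
    have h2 := DGN.elt_eq_one y hy2 ⟨g, hg⟩ (Subtype.ext hgy) k (Subtype.ext hk)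
    exact congrArg Subtype.val h2)
  -- the class function
  set F : A → ℂ := fun x => ((BLKA.cls (y : A) x : ℤ) : ℂ) with hF
  have hF1 : ∀ g x, F (g * x * g⁻¹) = F x := by
    intro g x
    simp only [hF]
    rw [BLKA.cls_conj]
  have hF2 : ∀ b ∈ Q₂, ∀ x, F (c b x) = F x := by
    intro b hb x
    simp only [hF]
    congr 1
    rw [cls_eq, cls_eq]
    congr 1
    apply propext
    constructor
    · intro h
      obtain ⟨d, hd⟩ := isConj_iff.mp h
      refine isConj_iff.mpr ⟨c b⁻¹ d, ?_⟩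
      have e1 : c b⁻¹ (c b x) = x := by
        rw [← MulAut.mul_apply, ← map_mul, inv_mul_cancel, map_one, MulAut.one_apply]
      have e2 : c b⁻¹ (y : A) = y := y.2 _ (inv_mem hb)
      have e3 := congrArg (c b⁻¹) hd
      rw [e1, map_mul (c b⁻¹), map_mul (c b⁻¹), map_inv (c b⁻¹) d, e2] at e3
      exact e3
    · intro h
      obtain ⟨d, hd⟩ := isConj_iff.mp h
      refine isConj_iff.mpr ⟨c b d, ?_⟩
      have e2 : c b (y : A) = y := y.2 _ hb
      have e3 := congrArg (c b) hd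
      rw [map_mul (c b), map_mul (c b), map_inv (c b) d, e2] at e3
      exact e3
  have hF3 : ∀ x, IsIntegral ℤ (F x) := fun x =>
    isIntegral_algebraMap (R := ℤ) (A := ℂ) (x := BLKA.cls (y : A) x)
  have hcj : ∀ a x : A, c (j a) x = a * x * a⁻¹ := by
    intro a x
    apply hcl.inj
    rw [hcl.act, map_mul, map_mul, map_inv]
  have hF4 : ∀ b ∈ Q₁, ∀ x, F (c b x) = F x := by
    intro b hb x
    have h2 : p b ∈ Q₂.map p := hmap ▸ Subgroup.mem_map_of_mem p hb
    obtain ⟨q, hq, hqb⟩ := h2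
    have h3 : q⁻¹ * b ∈ j.range := by
      rw [← hcl.ker, map_mul, map_inv, hqb, inv_mul_cancel]
    obtain ⟨a, ha⟩ := h3
    have h4 : b = q * j a := by rw [ha]; group
    rw [h4, map_mul, MulAut.mul_apply, hF2 q hq, hcj, hF1]
  have e1 : wt θ₂ (fun x => F x) = om θ₂ (elt (BLKA.cls y)) := by
    rw [om_elt, wt]
    congr 1
    refine Finset.sum_congr rfl fun x _ => ?_
    simp only [hF]
    congr 2
    rw [cls_eq]
    by_cases hx : IsConj y x
    · have h2 : IsConj (y : A) (x : A) := by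
        obtain ⟨d, hd⟩ := isConj_iff.mp hx
        exact isConj_iff.mpr ⟨d, by rw [← hd]; rfl⟩
      rw [if_pos h2, BLKA.cls, if_pos (ConjClasses.mk_eq_mk_iff_isConj.mpr hx.symm)]
    · have h2 : ¬ IsConj (y : A) (x : A) := by
        intro h
        apply hx
        obtain ⟨d, hd⟩ := isConj_iff.mp h
        obtain ⟨h, hh, hh2⟩ := hs2 d (by rw [hd]; exact x.2)
        refine isConj_iff.mpr ⟨⟨h, hh⟩, Subtype.ext ?_⟩
        change h * y * h⁻¹ = x
        rw [← hh2, hd]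
      rw [if_neg h2, BLKA.cls, if_neg (fun h => hx (ConjClasses.mk_eq_mk_iff_isConj.mp h).symm)]
  have hne : red 𝔐 (wt θ₁ (fun x => F x)) ≠ 0 := by
    rw [hD₁ F hF1 hF4 hF3, ← hD₂ F hF1 hF2 hF3, e1]
    exact hy1
  -- a conjugate of `y` is fixed by `Q₁`
  obtain ⟨a, ha⟩ : ∃ a : A, a * (y : A) * a⁻¹ ∈ FX c Q₁ := by
    by_contra hcon
    push Not at hcon
    apply hne
    have h2 : wt θ₁ (fun x => F x) = 0 := by
      rw [wt, Finset.sum_eq_zero, zero_div]
      intro x _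
      simp only [hF]
      rw [cls_eq, if_neg]
      · simp
      · intro h
        obtain ⟨d, hd⟩ := isConj_iff.mp h
        apply hcon d
        rw [hd]
        exact x.2
    rw [h2, red_zero]
  obtain ⟨y₁, hy₁⟩ : ∃ y₁, y₁ = a * (y : A) * a⁻¹ := ⟨_, rfl⟩
  rw [← hy₁] at ha
  -- the centralizer
  let C : Subgroup X := Subgroup.centralizer ({j y₁} : Set X) ⊓ (Q₁.map p).comap p
  have hC : ∀ x, x ∈ C ↔ x * j y₁ = j y₁ * x ∧ p x ∈ Q₁.map p := by
    intro x
    rw [Subgroup.mem_inf, Subgroup.mem_centralizer_singleton_iff, Subgroup.mem_comap]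
  set Q₃ : Subgroup X := Q₂.map (MulAut.conj (j a)).toMonoidHom with hQ₃
  have hmem₃ : ∀ x, x ∈ Q₃ ↔ (j a)⁻¹ * x * j a ∈ Q₂ := by
    intro x
    rw [hQ₃, Subgroup.mem_map]
    constructor
    · rintro ⟨w, hw, rfl⟩
      have : (j a)⁻¹ * ((MulAut.conj (j a)).toMonoidHom w) * j a = w := by
        change (j a)⁻¹ * (j a * w * (j a)⁻¹) * j a = w
        group
      rw [this]
      exact hw
    · intro h
      refine ⟨_, h, ?_⟩
      change j a * ((j a)⁻¹ * x * j a) * (j a)⁻¹ = x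
      group
  have hpj : ∀ a : A, p (j a) = 1 := fun a => (hcl.ker (j a)).2 ⟨a, rfl⟩
  have hfix : ∀ (q : X) (z : A), c q z = z → q * j z = j z * q := by
    intro q z h
    have h2 := hcl.act q z
    rw [h] at h2
    calc q * j z = (q * j z * q⁻¹) * q := by group
      _ = j z * q := by rw [← h2]
  have hQ₁C : Q₁ ≤ C := by
    intro q hq
    rw [hC]
    exact ⟨hfix q y₁ (ha q hq), Subgroup.mem_map_of_mem p hq⟩
  have hmap₃ : Q₃.map p = Q₁.map p := by
    rw [hmap]
    ext k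
    constructor
    · rintro ⟨x, hx, rfl⟩
      refine ⟨_, (hmem₃ x).1 hx, ?_⟩
      rw [map_mul, map_mul, map_inv, hpj, inv_one, one_mul, mul_one]
    · rintro ⟨x, hx, rfl⟩
      refine ⟨j a * x * (j a)⁻¹, (hmem₃ _).2 (by
        have : (j a)⁻¹ * (j a * x * (j a)⁻¹) * j a = x := by group
        rw [this]
        exact hx), ?_⟩
      rw [map_mul, map_mul, map_inv, hpj, inv_one, one_mul, mul_one]
  have hQ₃C : Q₃ ≤ C := by
    intro x hx
    rw [hC]
    refine ⟨?_, hmap₃ ▸ Subgroup.mem_map_of_mem p hx⟩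
    have h2 := hfix _ _ (y.2 _ ((hmem₃ x).1 hx))
    rw [hy₁, map_mul, map_mul, map_inv]
    calc x * (j a * j y * (j a)⁻¹) = j a * (((j a)⁻¹ * x * j a) * j y) * (j a)⁻¹ := by group
      _ = j a * (j y * ((j a)⁻¹ * x * j a)) * (j a)⁻¹ := by rw [h2]
      _ = j a * j y * (j a)⁻¹ * x := by group
  have hi₃ : Q₃ ⊓ j.range = ⊥ := by
    rw [eq_bot_iff]
    rintro x ⟨hx1, b, rfl⟩
    have h2 : (j a)⁻¹ * j b * j a ∈ Q₂ ⊓ j.range :=
      ⟨(hmem₃ _).1 hx1, ⟨a⁻¹ * b * a, by rw [map_mul, map_mul, map_inv]⟩⟩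
    rw [hi₂, Subgroup.mem_bot] at h2
    rw [Subgroup.mem_bot]
    calc j b = j a * ((j a)⁻¹ * j b * j a) * (j a)⁻¹ := by group
      _ = 1 := by rw [h2]; group
  -- the order of the centralizer
  have hcy : ¬ ℓ ∣ Nat.card (Subgroup.centralizer ({y₁} : Set A)) := by
    intro hdvd
    obtain ⟨g, hg1, hg2, hg3⟩ := DGN.exists_elt y₁ hdvd
    have h2 : a⁻¹ * g * a = 1 := by
      apply hs1 (a⁻¹ * g * a) ?_ 1 ?_
      · rw [hy₁] at hg1
        calc a⁻¹ * g * a * (y : A) = a⁻¹ * (g * (a * (y : A) * a⁻¹)) * a := by group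
          _ = a⁻¹ * ((a * (y : A) * a⁻¹) * g) * a := by rw [hg1]
          _ = (y : A) * (a⁻¹ * g * a) := by group
      · have h3 : a⁻¹ * g * a = MulAut.conj a⁻¹ g := by simp
        rw [h3, ← map_pow, hg2, map_one]
    apply hg3
    calc g = a * (a⁻¹ * g * a) * a⁻¹ := by group
      _ = 1 := by rw [h2]; group
  have hx₁ := index_eq hcl y₁ Q₁ C hC hQ₁C hi₁
  have hx₃ := index_eq hcl y₁ Q₃ C (by rw [hmap₃]; exact hC) hQ₃C hi₃
  have hp₁ : IsPGroup ℓ (Q₁.subgroupOf C) := hQ₁.comap_subtype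
  have hp₃ : IsPGroup ℓ (Q₃.subgroupOf C) := (hQ₂.map _).comap_subtype
  have hn₁ : ¬ ℓ ∣ (Q₁.subgroupOf C).index := by rw [hx₁]; exact hcy
  have hn₃ : ¬ ℓ ∣ (Q₃.subgroupOf C).index := by rw [hx₃]; exact hcy
  obtain ⟨g, hg⟩ := MulAction.exists_smul_eq C (hp₃.toSylow hn₃) (hp₁.toSylow hn₁)
  have hg' : ∀ x : C, x ∈ Q₁.subgroupOf C ↔ g⁻¹ * x * g ∈ Q₃.subgroupOf C := by
    intro x
    rw [← IsPGroup.mem_toSylow hp₁ hn₁, ← hg, ← IsPGroup.mem_toSylow hp₃ hn₃]
    change x ∈ ((g • (hp₃.toSylow hn₃) : Sylow ℓ C) : Subgroup C) ↔ _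
    rw [Sylow.coe_subgroup_smul, Subgroup.mem_pointwise_smul_iff_inv_smul_mem]
    have h2 : (MulAut.conj g)⁻¹ • x = g⁻¹ * x * g := by
      rw [← map_inv]
      change MulAut.conj g⁻¹ x = _
      simp
    rw [h2]
    rfl
  -- the conjugating element
  obtain ⟨hgc, hgp⟩ := (hC g).1 g.2
  rw [← hmap₃] at hgp
  obtain ⟨q₀, hq₀, hq₀g⟩ := hgp
  obtain ⟨a', ha'⟩ : (g : X) * q₀⁻¹ ∈ j.range := by
    rw [← hcl.ker, map_mul, map_inv, hq₀g, mul_inv_cancel]
  have hgj : (g : X) = j a' * q₀ := by rw [ha']; group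
  refine ⟨(a' * a)⁻¹, ?_⟩
  ext w
  rw [Subgroup.mem_map]
  constructor
  · rintro ⟨z, hz, rfl⟩
    have h2 := (hg' ⟨z, hQ₁C hz⟩).1 hz
    have h3 : (g : X)⁻¹ * z * g ∈ Q₃ := h2
    rw [hgj] at h3
    have h4 : q₀ * ((j a' * q₀)⁻¹ * z * (j a' * q₀)) * q₀⁻¹ ∈ Q₃ :=
      Q₃.mul_mem (Q₃.mul_mem hq₀ h3) (Q₃.inv_mem hq₀)
    have h5 := (hmem₃ _).1 h4
    have h6 : (MulAut.conj (j (a' * a)⁻¹)).toMonoidHom z =
        (j a)⁻¹ * (q₀ * ((j a' * q₀)⁻¹ * z * (j a' * q₀)) * q₀⁻¹) * j a := by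
      change j (a' * a)⁻¹ * z * (j (a' * a)⁻¹)⁻¹ = _
      rw [map_inv, map_mul]
      group
    rw [h6]
    exact h5
  · intro hw
    refine ⟨j (a' * a) * w * (j (a' * a))⁻¹, ?_, ?_⟩
    · have h2 : j a * w * (j a)⁻¹ ∈ Q₃ := by
        rw [hmem₃]
        have : (j a)⁻¹ * (j a * w * (j a)⁻¹) * j a = w := by group
        rw [this]
        exact hw
      have h3 : q₀⁻¹ * (j a * w * (j a)⁻¹) * q₀ ∈ Q₃ :=
        Q₃.mul_mem (Q₃.mul_mem (Q₃.inv_mem hq₀) h2) hq₀
      have h4 := (hg' (g * ⟨_, hQ₃C h3⟩ * g⁻¹)).2 (by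
        have h5 : g⁻¹ * (g * (⟨_, hQ₃C h3⟩ : C) * g⁻¹) * g = ⟨_, hQ₃C h3⟩ := by group
        rw [h5]
        exact h3)
      have h6 : (g : X) * (q₀⁻¹ * (j a * w * (j a)⁻¹) * q₀) * (g : X)⁻¹ ∈ Q₁ := h4
      have h7 : j (a' * a) * w * (j (a' * a))⁻¹ =
          (g : X) * (q₀⁻¹ * (j a * w * (j a)⁻¹) * q₀) * (g : X)⁻¹ := by
        rw [hgj, map_mul]
        group
      rw [h7]
      exact h6
    · change j (a' * a)⁻¹ * (j (a' * a) * w * (j (a' * a))⁻¹) * (j (a' * a)⁻¹)⁻¹ = w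
      rw [map_inv]
      group

end Pool.Agent.DPC


end
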