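import Mathlib
import Pool.Agent.DAM.C12
import Pool.Agent.DAM.C13
import Pool.Agent.DAM.C23

/-! Parts: DPM.PSDAA, DPM.PSDA, DPC.DHR, DPC.OUTA -/

section

/-!
# Passage to the twisted group: lifts of the elements which centralize `A`
-/

namespace Pool.Agent.DPM

open Pool.Agent.DP Pool.Agent.DPC Pool.Agent.Lib_helper13 Representation
open Pool.Agent.Lib_helper13.Dade (pCore DadeHolds dadeSum)

namespace PSDA

/-- An embedding with normal image. -/
theorem exists_clG {A T : Type} [Group A] [Group T] (j : A →* T) (hj : Function.Injective j)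
    (hn : j.range.Normal) :
    ∃ c : T →* MulAut A, ClG j c (QuotientGroup.mk' j.range) := by
  let E : A ≃* j.range := MonoidHom.ofInjective hj
  refine ⟨(MulAut.congr E.symm).toMonoidHom.comp (MulAut.conjNormal : T →* MulAut j.range),
    hj, ?_, ?_⟩
  · intro y a
    change j (E.symm (MulAut.conjNormal y (E a))) = _
    have h1 : ∀ b : j.range, j (E.symm b) = b := by
      intro b
      have h2 : ((E (E.symm b) : j.range) : T) = b := by rw [MulEquiv.apply_symm_apply]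
      exact h2
    rw [h1, MulAut.conjNormal_apply]
    rfl
  · intro y
    rw [QuotientGroup.mk'_apply, QuotientGroup.eq_one_iff]

section Lift

variable {A T K Γ L : Type} [Group A] [Group T] [Group K] [Group Γ] [Group L]
  {j : A →* T} {p : T →* K} {θ : A → ℂ} {e : A →* Γ} {q : Γ →* L} {r : Γ →* T} {E : Γ → ℂ}
  {U : Subgroup L} {μ : U →* ℂˣ} {π : L →* K}

/-- The lifts are unique. -/
theorem lift_unique (H : TWD j p θ e q r E U μ π) (hj : Function.Injective j) (hp : p 1 = 1)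
    (h1 : θ 1 ≠ 0) {γ γ' : Γ} (hr : r γ = r γ') (hγ : ∀ x, E (γ * x) = E x)
    (hγ' : ∀ x, E (γ' * x) = E x) : γ = γ' := by
  obtain ⟨z, hz⟩ : ∃ z, z = γ * γ'⁻¹ := ⟨_, rfl⟩
  have hrz : r z = 1 := by rw [hz, map_mul, map_inv, hr, mul_inv_cancel]
  have hqz : q z ∈ U := by
    rw [← H.πk, H.πq, hrz, hp]
  have hE1 : E 1 = θ 1 := by rw [← H.Ee 1, map_one]
  have hEz : E (z * 1) = E 1 := by
    rw [hz, mul_assoc, hγ, ← hγ' (γ'⁻¹ * 1), mul_inv_cancel_left]
  have h2 := H.El z 1 hqz hrz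
  rw [hEz] at h2
  have h3 : ((μ ⟨q z, hqz⟩ : ℂˣ) : ℂ) = 1 := by
    have h4 : E 1 ≠ 0 := by rw [hE1]; exact h1
    exact mul_right_cancel₀ h4 (by rw [one_mul]; exact h2)
  have h4 : μ ⟨q z, hqz⟩ = 1 := Units.ext h3
  have h5 : (⟨q z, hqz⟩ : U) = 1 := H.inj (by rw [h4, map_one])
  have h6 : q z = 1 := congrArg Subtype.val h5
  obtain ⟨a, ha⟩ := (H.qk z).1 h6
  have h7 : j a = 1 := by rw [← H.re, ha, hrz]
  have h8 : a = 1 := hj (by rw [h7, map_one])
  rw [h8, map_one] at ha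
  rw [← ha] at hz
  exact (mul_inv_eq_one.mp hz.symm)

/-- The homomorphism of the lifts. -/
theorem exists_lift (H : TWD j p θ e q r E U μ π) (hj : Function.Injective j)
    (h1 : θ 1 ≠ 0) :
    ∃ s : ↥(Subgroup.centralizer (j.range : Set T)) →* Γ,
      (∀ t, r (s t) = t) ∧ (∀ t x, E (s t * x) = E x) ∧
      ∀ (γ : Γ) (t t' : ↥(Subgroup.centralizer (j.range : Set T))),
        (t' : T) = r γ * t * (r γ)⁻¹ → γ * s t * γ⁻¹ = s t' := by
  have hex : ∀ t : ↥(Subgroup.centralizer (j.range : Set T)), ∃ γ, r γ = t ∧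
      ∀ γ', E (γ * γ') = E γ' := by
    intro t
    apply H.ce
    intro a
    exact (Subgroup.mem_centralizer_iff.1 t.2 (j a) ⟨a, rfl⟩).symm
  choose s hs1 hs2 using hex
  refine ⟨⟨⟨s, ?_⟩, ?_⟩, hs1, hs2, ?_⟩
  · refine lift_unique H hj (map_one p) h1 ?_ (hs2 1) (fun x => by rw [one_mul])
    rw [hs1, map_one]
    rfl
  · intro t t'
    refine lift_unique H hj (map_one p) h1 ?_ (hs2 _) (fun x => ?_)
    · rw [hs1, map_mul, hs1, hs1]
      rfl
    · rw [mul_assoc, hs2, hs2]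
  · intro γ t t' h
    refine lift_unique H hj (map_one p) h1 ?_ (fun x => ?_) (hs2 t')
    · rw [map_mul, map_mul, map_inv]
      change r γ * r (s t) * (r γ)⁻¹ = r (s t')
      rw [hs1, hs1, h]
    · change E (γ * s t * γ⁻¹ * x) = E x
      have e1 : γ * s t * γ⁻¹ * x = γ * (s t * (γ⁻¹ * x * γ)) * γ⁻¹ := by group
      have e2 : x = γ * (γ⁻¹ * x * γ) * γ⁻¹ := by group
      rw [e1, H.Ec.conj_eq, hs2]
      conv_rhs => rw [e2]
      rw [H.Ec.conj_eq]

end Lift

end PSDA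

end Pool.Agent.DPM


end

section

/-!
# Passage to the twisted group (PSDA)
-/

namespace Pool.Agent.DPM

open Pool.Agent.DP Pool.Agent.DPC Pool.Agent.Lib_helper13 Representation
open Pool.Agent.Lib_helper13.Dade (pCore DadeHolds dadeSum)

namespace PSDA

/-- The stabilizer of the image of a chain in terms of the conjugation action. -/
theorem mem_stb_conj {T L : Type} [Group T] [Group L] {N : Subgroup T} [N.Normal] {κ : N →* L}
    (hκ : Function.Injective κ) {t : T} {l : L}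
    (h : ∀ n : N, l * κ n * l⁻¹ = κ (MulAut.conjNormal t n)) (τ : Finset (Subgroup N)) :
    l ∈ stb (mapCh κ τ) ↔
      ∀ D ∈ τ, D.map (MulAut.conjNormal t : N ≃* N).toMonoidHom = D := by
  have hmap : ∀ D : Subgroup N, (D.map κ).map (MulAut.conj l).toMonoidHom =
      (D.map (MulAut.conjNormal t : N ≃* N).toMonoidHom).map κ := by
    intro D
    rw [Subgroup.map_map, Subgroup.map_map]
    congr 1
    ext n
    exact h n
  rw [mem_stb]
  constructor
  · intro h1 D hD
    have h2 := h1 (D.map κ) (mem_mapCh.mpr ⟨D, hD, rfl⟩)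
    rw [hmap] at h2
    exact Subgroup.map_injective hκ h2
  · intro h1 D' hD'
    obtain ⟨D, hD, rfl⟩ := mem_mapCh.mp hD'
    rw [hmap, h1 D hD]

theorem mem_stb_sub {T : Type} [Group T] {N : Subgroup T} [N.Normal] {t : T}
    (τ : Finset (Subgroup N)) : t ∈ stb (mapCh N.subtype τ) ↔
      ∀ D ∈ τ, D.map (MulAut.conjNormal t : N ≃* N).toMonoidHom = D := by
  apply mem_stb_conj N.subtype_injective
  intro n
  rw [Subgroup.subtype_apply, Subgroup.subtype_apply, MulAut.conjNormal_apply]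

/-- Counting according to the values of a function. -/
theorem card_eq_sum {S : Type} [Group S] [Fintype S] {M : Type} (f : (S → ℂ) → M)
    (P : (S → ℂ) → Prop) (R : M → Prop) [DecidablePred R] (C : Finset M)
    (hC : ∀ η, IsIrr η → f η ∈ C) :
    Nat.card {η : S → ℂ // IsIrr η ∧ P η ∧ R (f η)} =
      ∑ c ∈ C with R c, Nat.card {η : S → ℂ // IsIrr η ∧ P η ∧ f η = c} := by
  classical
  have hfin : ∀ Q : (S → ℂ) → Prop, (Set.Finite {ψ : S → ℂ | IsIrr ψ ∧ Q ψ}) :=
    fun Q => finite_isIrr.subset fun θ h => h.1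
  have hcard : ∀ Q : (S → ℂ) → Prop, Nat.card {ψ : S → ℂ // IsIrr ψ ∧ Q ψ} =
      (hfin Q).toFinset.card := by
    intro Q
    have : Nat.card {ψ : S → ℂ // IsIrr ψ ∧ Q ψ} = Nat.card (hfin Q).toFinset :=
      Nat.card_congr (Equiv.subtypeEquivRight fun θ => by simp)
    rw [this, Nat.card_eq_fintype_card, Fintype.card_coe]
  rw [hcard, Finset.sum_congr rfl fun c _ => hcard (fun η => P η ∧ f η = c)]
  rw [Finset.card_eq_sum_card_fiberwise (f := f) (t := C.filter R)]
  · refine Finset.sum_congr rfl fun c hc => ?_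
    congr 1
    ext η
    simp only [Finset.mem_filter, Set.Finite.mem_toFinset, Set.mem_ofPred_eq]
    constructor
    · rintro ⟨⟨h1, h2, h3⟩, h4⟩
      exact ⟨h1, h2, h4⟩
    · rintro ⟨h1, h2, h4⟩
      exact ⟨⟨h1, h2, by rw [h4]; exact (Finset.mem_filter.mp hc).2⟩, h4⟩
  · intro η hη
    simp only [Set.Finite.coe_toFinset, Set.mem_ofPred_eq] at hη
    rw [Finset.mem_coe, Finset.mem_filter]
    exact ⟨hC η hη.1, hη.2.2⟩

end PSDA

open _root_.Pool.Agent.DPM.PSDA in
/-- PSDA: passage to the twisted group. -/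
theorem PSDA_thm (h1 : Stmt_TWC) (h2 : Stmt_TWN) (h3 : Stmt_TWF) : Stmt_PSDA := by
  classical
  intro A T X _ _ _ _ _ _ 𝔐 ℓ _ h𝔐 hℓ j hj hjn ν hν hinv N _ hNC hNj i d ω hIJ Z1 hZ1
  have hprime : 𝔐.IsPrime := h𝔐.isPrime
  obtain ⟨c, hc⟩ := exists_clG j hj hjn
  obtain ⟨p, hp⟩ : ∃ p : T →* (T ⧸ j.range), p = QuotientGroup.mk' j.range := ⟨_, rfl⟩
  rw [← hp] at hc
  have hps : Function.Surjective p := by
    rw [hp]
    exact QuotientGroup.mk'_surjective _
  have hpk : p.ker = j.range := by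
    rw [hp]
    exact QuotientGroup.ker_mk' _
  have hinv' : ∀ t a, ν (c t a) = ν a := fun t a => hinv t a (c t a) (hc.act t a)
  obtain ⟨Γ, L, _, _, _, _, e, q, r, E, U, μ, π, H⟩ := h1 A T _ j c p hc hps ν hν hinv'
  obtain ⟨s, hs1, hs2, hs3⟩ := exists_lift H hj hν.one_ne_zero
  -- the homomorphism `κ`
  obtain ⟨κ, hκ⟩ : ∃ κ : N →* L, ∀ n : N, κ n = q (s ⟨n, hNC n.2⟩) :=
    ⟨(q.comp s).comp (Subgroup.inclusion hNC), fun n => rfl⟩
  have hπκ : ∀ n : N, π (κ n) = p n := by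
    intro n
    rw [hκ, H.πq, hs1]
  have hn1 : ∀ n : N, p n = 1 → n = 1 := by
    intro n hn
    have h5 : (n : T) ∈ N ⊓ j.range := ⟨n.2, by rw [← hpk]; exact hn⟩
    rw [hNj, Subgroup.mem_bot] at h5
    exact Subtype.ext h5
  have hκi : Function.Injective κ := by
    rw [injective_iff_map_eq_one]
    intro n hn
    apply hn1
    rw [← hπκ, hn, map_one]
  have hκc : ∀ (γ : Γ) (n : N), q γ * κ n * (q γ)⁻¹ = κ (MulAut.conjNormal (r γ) n) := by
    intro γ n
    have h5 := hs3 γ ⟨n, hNC n.2⟩ ⟨(MulAut.conjNormal (r γ) n : N), hNC (Subtype.mem _)⟩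
      (MulAut.conjNormal_apply _ _)
    rw [hκ, hκ, ← h5]
    simp only [map_mul, map_inv]
  have hN1n : κ.range.Normal := by
    constructor
    rintro _ ⟨n, rfl⟩ l
    obtain ⟨γ, rfl⟩ := H.qs l
    exact ⟨_, (hκc γ n).symm⟩
  have hN1U : κ.range ⊓ U = ⊥ := by
    rw [eq_bot_iff]
    rintro _ ⟨⟨n, rfl⟩, hU⟩
    have h5 : π (κ n) = 1 := (H.πk _).2 hU
    rw [hn1 n (by rw [← hπκ, h5]), map_one]
    exact Subgroup.one_mem _
  -- the index of the centre
  have hπker : π.ker = U := by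
    ext l
    exact H.πk l
  have hidx : (Subgroup.center L).index ≤ (Z1 ⊔ j.range).index := by
    have h5 : (Z1 ⊔ j.range).map p ≤ (Subgroup.center L).map π := by
      rw [Subgroup.map_sup, sup_le_iff]
      constructor
      · rintro _ ⟨z, hz, rfl⟩
        have hzc : z ∈ Subgroup.centralizer (j.range : Set T) := by
          rw [Subgroup.mem_centralizer_iff]
          intro a _
          exact Subgroup.mem_center_iff.1 (hZ1 hz) a
        refine ⟨q (s ⟨z, hzc⟩), ?_, ?_⟩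
        · show q (s ⟨z, hzc⟩) ∈ Subgroup.center L
          rw [Subgroup.mem_center_iff]
          intro l
          obtain ⟨γ, rfl⟩ := H.qs l
          have h6 := hs3 γ ⟨z, hzc⟩ ⟨z, hzc⟩ (by
            show z = r γ * z * (r γ)⁻¹
            rw [Subgroup.mem_center_iff.1 (hZ1 hz) (r γ), mul_inv_cancel_right])
          rw [← map_mul, ← map_mul]
          congr 1
          exact mul_inv_eq_iff_eq_mul.mp h6
        · rw [H.πq, hs1]
      · rintro _ ⟨a, ha, rfl⟩
        have h6 : p a = 1 := by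
          rw [← MonoidHom.mem_ker, hpk]
          exact ha
        rw [h6]
        exact Subgroup.one_mem _
    have h6 : ((Subgroup.center L).map π).index = (Subgroup.center L).index :=
      Subgroup.index_map_eq _ H.πs (by rw [hπker]; exact H.Uc)
    have h7 : ((Z1 ⊔ j.range).map p).index = (Z1 ⊔ j.range).index :=
      Subgroup.index_map_eq _ hps (by rw [hpk]; exact le_sup_right)
    rw [← h6, ← h7]
    exact Nat.le_of_dvd (Nat.pos_of_ne_zero Subgroup.index_ne_zero_of_finite)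
      (Subgroup.index_dvd_of_le h5)
  -- the stabilizers
  have hjS : ∀ τ : Finset (Subgroup N), j.range ≤ stb (mapCh N.subtype τ) := by
    rintro τ _ ⟨a, rfl⟩
    rw [mem_stb_sub]
    intro D _
    have h5 : (MulAut.conjNormal (j a) : N ≃* N).toMonoidHom = MonoidHom.id N := by
      ext n
      show ((MulAut.conjNormal (j a) n : N) : T) = n
      rw [MulAut.conjNormal_apply]
      have h6 := Subgroup.mem_centralizer_iff.1 (hNC n.2) (j a) ⟨a, rfl⟩
      rw [h6, mul_inv_cancel_right]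
    rw [h5, Subgroup.map_id]
  have hV1 : ∀ τ : Finset (Subgroup N),
      ((stb (mapCh N.subtype τ)).map p).comap p = stb (mapCh N.subtype τ) := by
    intro τ
    rw [Subgroup.comap_map_eq, hpk]
    exact sup_eq_left.2 (hjS τ)
  have hV2 : ∀ τ : Finset (Subgroup N),
      ((stb (mapCh N.subtype τ)).map p).comap π = stb (mapCh κ τ) := by
    intro τ
    ext l
    obtain ⟨γ, rfl⟩ := H.qs l
    rw [Subgroup.mem_comap, H.πq, ← Subgroup.mem_comap, hV1, mem_stb_sub,
      mem_stb_conj hκi (hκc γ)]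
  -- the defects
  obtain ⟨a, ha⟩ := hν.exists_defect (ℓ := ℓ)
  have htwn := h2 A T _ Γ L ℓ j c p hc hps ν hν hinv' e q r E U μ π H
  obtain ⟨F, hF1, hF2, hF3⟩ := h3 A T _ Γ L X j c p hc hps ν hν hinv' e q r E U μ π H i
  -- the counts
  obtain ⟨cT, hcT⟩ : ∃ cT : Subgroup T → ℕ, ∀ S, cT S = Nat.card {ψ : S → ℂ // IsIrr ψ ∧
      ip (fun x : A => ext0 ψ (j x)) ν ≠ 0 ∧ HasDefect ℓ ψ d ∧
        cen 𝔐 (i.comp S.subtype) ψ = ω} := ⟨_, fun _ => rfl⟩
  have hIJ' : IJ 𝔐 ℓ d j ν N i ω = ∑ τ ∈ Ch ℓ (⊥ : Subgroup N), (-1 : ℚ) ^ τ.card *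
      ((Nat.card ↥(stb (mapCh N.subtype τ)) : ℚ) * cT (stb (mapCh N.subtype τ))) := by
    rw [IJ]
    refine Finset.sum_congr rfl fun τ _ => ?_
    rw [hcT]
  -- the defect `d1`
  have hd1 : ∃ d1, d + padicValNat ℓ (Nat.card U) = d1 + a := by
    by_contra hcon
    apply hIJ
    rw [hIJ']
    refine Finset.sum_eq_zero fun τ _ => ?_
    have h5 : cT (stb (mapCh N.subtype τ)) = 0 := by
      rw [← hV1 τ, hcT]
      rw [Nat.card_eq_zero]
      left
      constructor
      rintro ⟨ψ, hψ, hip, hdef, -⟩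
      obtain ⟨-, -, -, h7, -, -, h10, -⟩ := htwn ((stb (mapCh N.subtype τ)).map p)
      obtain ⟨η, hη, -, hcor⟩ := h7 ψ hψ hip
      obtain ⟨d1, hd1⟩ := hη.exists_defect (ℓ := ℓ)
      exact hcon ⟨d1, h10 ψ η a d d1 hη hcor ha hdef hd1⟩
    rw [h5, Nat.cast_zero, mul_zero, mul_zero]
  obtain ⟨d1, hd1⟩ := hd1
  obtain ⟨cL, hcL⟩ : ∃ cL : Subgroup L → (L → (integralClosure ℤ ℂ) ⧸ 𝔐) → ℕ, ∀ S c,
      cL S c = Nat.card {η : S → ℂ // IsIrr η ∧ OvL U μ _ η ∧ HasDefect ℓ η d1 ∧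
        cen 𝔐 S.subtype η = c} := ⟨_, fun _ _ => rfl⟩
  have hIU : ∀ c', IU 𝔐 ℓ d1 U μ κ.range c' = ∑ τ ∈ Ch ℓ (⊥ : Subgroup N),
      (-1 : ℚ) ^ τ.card * ((Nat.card ↥(stb (mapCh κ τ)) : ℚ) * cL (stb (mapCh κ τ)) c') := by
    intro c'
    have h5 := sum_Ch_equiv (MonoidHom.ofInjective hκi) ℓ (⊥ : Subgroup N)
      (fun τ : Finset (Subgroup κ.range) => (-1 : ℚ) ^ τ.card *
        ((Nat.card ↥(stb (mapCh κ.range.subtype τ)) : ℚ) * cL (stb (mapCh κ.range.subtype τ)) c'))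
    rw [Subgroup.map_bot] at h5
    have h6 : IU 𝔐 ℓ d1 U μ κ.range c' = ∑ τ ∈ Ch ℓ (⊥ : Subgroup κ.range), (-1 : ℚ) ^ τ.card *
        ((Nat.card ↥(stb (mapCh κ.range.subtype τ)) : ℚ) *
          cL (stb (mapCh κ.range.subtype τ)) c') := by
      rw [IU]
      refine Finset.sum_congr rfl fun τ _ => ?_
      rw [hcL]
    rw [h6, h5]
    refine Finset.sum_congr rfl fun τ _ => ?_
    rw [mapCh_comp, card_mapCh (MulEquiv.injective _)]
    rfl
  -- all central functions
  obtain ⟨C, hC⟩ := exists_cen_set 𝔐 (L := L) ℓ ⊥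
  have hCh : ∀ τ ∈ Ch ℓ (⊥ : Subgroup N), mapCh κ τ ∈ Ch ℓ (⊥ : Subgroup L) := by
    intro τ hτ
    rw [mem_Ch, ← Subgroup.map_bot κ, isCh_mapCh_iff hκi]
    exact mem_Ch.1 hτ
  -- corresponding characters
  have hcen : ∀ (V : Subgroup (T ⧸ j.range)) (ψ : ↥(V.comap p) → ℂ) (η : ↥(V.comap π) → ℂ),
      IsIrr ψ → IsIrr η → OvL U μ _ η → Cor p q r E π V ψ η → ∀ g,
      cen 𝔐 (i.comp (V.comap p).subtype) ψ g = pair 𝔐 (F g) (cen 𝔐 (V.comap π).subtype η) := by
    intro V ψ η hψ hη hO hcor g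
    rw [← red_wt_eq_pair 𝔐 (V.comap π).subtype hη (F g) (hF1 g) (hF2 g)]
    have h5 := hF3 V ψ η hψ hη hO hcor g
    rw [cen]
    exact congrArg (red 𝔐) h5
  -- the count for a stabilizer
  have key : ∀ τ ∈ Ch ℓ (⊥ : Subgroup N), (Nat.card U : ℚ) *
      ((Nat.card ↥(stb (mapCh N.subtype τ)) : ℚ) * cT (stb (mapCh N.subtype τ))) =
      (Nat.card A : ℚ) * ∑ c' ∈ C with ∀ g, pair 𝔐 (F g) c' = ω g,
        ((Nat.card ↥(stb (mapCh κ τ)) : ℚ) * cL (stb (mapCh κ τ)) c') := by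
    intro τ hτ
    obtain ⟨h4, h5, -, h7, -, -, h10, h11⟩ := htwn ((stb (mapCh N.subtype τ)).map p)
    have h12 := h11 (fun ψ => HasDefect ℓ ψ d ∧
        cen 𝔐 (i.comp (((stb (mapCh N.subtype τ)).map p).comap p).subtype) ψ = ω)
      (fun η => HasDefect ℓ η d1 ∧ ∀ g, pair 𝔐 (F g)
        (cen 𝔐 (((stb (mapCh N.subtype τ)).map p).comap π).subtype η) = ω g) (by
        intro ψ η hψ hip hη hO hcor
        have h13 : HasDefect ℓ ψ d ↔ HasDefect ℓ η d1 := by
          constructor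
          · intro h
            obtain ⟨d2, hd2⟩ := hη.exists_defect (ℓ := ℓ)
            have h14 := h10 ψ η a d d2 hη hcor ha h hd2
            have h15 : d2 = d1 := by omega
            rwa [h15] at hd2
          · intro h
            obtain ⟨d2, hd2⟩ := hψ.exists_defect (ℓ := ℓ)
            have h14 := h10 ψ η a d2 d1 hη hcor ha hd2 h
            have h15 : d2 = d := by omega
            rwa [h15] at hd2
        rw [h13]
        have h16 := hcen _ ψ η hψ hη hO hcor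
        constructor
        · rintro ⟨h17, h18⟩
          exact ⟨h17, fun g => by rw [← h16 g, h18]⟩
        · rintro ⟨h17, h18⟩
          exact ⟨h17, funext fun g => by rw [h16 g, h18 g]⟩)
    rw [← hcT, hV1] at h12
    rw [h12]
    rw [hV1] at h4
    rw [hV2] at h5 ⊢
    have h13 : Nat.card {η : ↥(stb (mapCh κ τ)) → ℂ // IsIrr η ∧ OvL U μ _ η ∧
        HasDefect ℓ η d1 ∧ ∀ g, pair 𝔐 (F g) (cen 𝔐 (stb (mapCh κ τ)).subtype η) = ω g} =
        ∑ c' ∈ C with ∀ g, pair 𝔐 (F g) c' = ω g, cL (stb (mapCh κ τ)) c' := by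
      have h14 := card_eq_sum (S := ↥(stb (mapCh κ τ)))
        (fun η => cen 𝔐 (stb (mapCh κ τ)).subtype η)
        (fun η => OvL U μ _ η ∧ HasDefect ℓ η d1) (fun c' => ∀ g, pair 𝔐 (F g) c' = ω g) C
        (hC _ (hCh τ hτ))
      simp only [and_assoc] at h14
      rw [h14]
      exact Finset.sum_congr rfl fun c' _ => (hcL _ _).symm
    rw [h13, h4, h5]
    push_cast
    rw [Finset.mul_sum, Finset.mul_sum, Finset.mul_sum]
    refine Finset.sum_congr rfl fun c' _ => ?_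
    ring
  -- the sum
  have hsum : (Nat.card U : ℚ) * IJ 𝔐 ℓ d j ν N i ω =
      (Nat.card A : ℚ) * ∑ c' ∈ C with ∀ g, pair 𝔐 (F g) c' = ω g,
        IU 𝔐 ℓ d1 U μ κ.range c' := by
    rw [hIJ', Finset.sum_congr rfl fun c' _ => hIU c', Finset.sum_comm, Finset.mul_sum,
      Finset.mul_sum]
    refine Finset.sum_congr rfl fun τ hτ => ?_
    have h5 := key τ hτ
    rw [← Finset.mul_sum]
    linear_combination (-1 : ℚ) ^ τ.card * h5
  have hex : ∃ c' : L → (integralClosure ℤ ℂ) ⧸ 𝔐, (∀ g, pair 𝔐 (F g) c' = ω g) ∧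
      IU 𝔐 ℓ d1 U μ κ.range c' ≠ 0 := by
    by_contra hcon
    push Not at hcon
    rw [Finset.sum_eq_zero (fun c' hc' => hcon c' (Finset.mem_filter.mp hc').2), mul_zero] at hsum
    rcases mul_eq_zero.mp hsum with h5 | h5
    · have h6 : Nat.card U ≠ 0 := Nat.card_pos.ne'
      exact h6 (by exact_mod_cast h5)
    · exact hIJ h5
  obtain ⟨c', hc', hne⟩ := hex
  refine ⟨L, inferInstance, inferInstance, U, μ, κ.range, d1, c', H.Uc, H.cyc, H.inj, hN1n, hN1U,
    hidx, ?_, ?_⟩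
  · convert hne
  · intro χ θ1 hχ hχU hχc hθ1 hθ1d hip
    -- the whole group
    obtain ⟨e1, he1⟩ : ∃ e1 : ↥((⊤ : Subgroup (T ⧸ j.range)).comap π) ≃* L,
        ∀ x, e1 x = x := ⟨(MulEquiv.subgroupCongr (Subgroup.comap_top π)).trans
          Subgroup.topEquiv, fun _ => rfl⟩
    obtain ⟨e2, he2⟩ : ∃ e2 : ↥((⊤ : Subgroup (T ⧸ j.range)).comap p) ≃* T,
        ∀ x, e2 x = x := ⟨(MulEquiv.subgroupCongr (Subgroup.comap_top p)).trans
          Subgroup.topEquiv, fun _ => rfl⟩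
    have he2' : ∀ (t : T) (h : t ∈ (⊤ : Subgroup (T ⧸ j.range)).comap p),
        e2.symm t = ⟨t, h⟩ := by
      intro t h
      apply e2.injective
      rw [MulEquiv.apply_symm_apply, he2]
    have hmem : ∀ t : T, t ∈ (⊤ : Subgroup (T ⧸ j.range)).comap p := fun t => Subgroup.mem_top _
    obtain ⟨η, hη⟩ : ∃ η : ↥((⊤ : Subgroup (T ⧸ j.range)).comap π) → ℂ,
        η = fun x => χ (e1 x) := ⟨_, rfl⟩
    have hηi : IsIrr η := by
      rw [hη]
      exact hχ.comp_mulEquiv e1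
    have hηO : OvL U μ _ η := by
      intro x y h
      rw [hη]
      simp only [map_mul]
      rw [he1 x]
      exact hχU _ _ h
    have hηc : cen 𝔐 ((⊤ : Subgroup (T ⧸ j.range)).comap π).subtype η = c' := by
      rw [← hχc, hη, ← cen_comp_equiv 𝔐 e1 (MonoidHom.id L) χ]
      congr 1
      ext x
      exact (he1 x).symm
    obtain ⟨ψ', hψ', hψip, hcor⟩ := (htwn ⊤).2.2.1 η hηi hηO
    have hψN : ∀ n : N, ψ' (e2.symm n) = ν 1 * χ (κ n) := by
      intro n
      have h5 := hcor (s ⟨n, hNC n.2⟩) (hmem _) (Subgroup.mem_top _)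
      have h6 : E (s ⟨n, hNC n.2⟩) = ν 1 := by
        rw [← mul_one (s ⟨n, hNC n.2⟩), hs2, ← H.Ee 1, map_one]
      have h7 : e2.symm n = ⟨r (s ⟨n, hNC n.2⟩), hmem _⟩ := by
        rw [he2' _ (hmem _)]
        exact Subtype.ext (hs1 ⟨n, hNC n.2⟩).symm
      rw [h7, h5, h6, hη]
      simp only [he1]
      rw [hκ]
    refine ⟨fun t => ψ' (e2.symm t), fun n => θ1 (MonoidHom.ofInjective hκi n),
      hψ'.comp_mulEquiv e2.symm, ?_, hθ1.comp_mulEquiv _, ?_, ?_, ?_⟩
    · have h5 : resj j (fun t => ψ' (e2.symm t)) = fun a => ext0 ψ' (j a) := by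
        ext a
        rw [resj, ext0_of_mem _ (hmem _), he2' _ (hmem _)]
      rw [h5]
      exact hψip
    · exact (hasDefect_comp_equiv (MonoidHom.ofInjective hκi)).2 hθ1d
    · have h5 : ip (resj N.subtype (fun t => ψ' (e2.symm t)))
          (fun n => θ1 (MonoidHom.ofInjective hκi n)) = ν 1 * ip (resj κ.range.subtype χ) θ1 := by
        rw [ip, ip, ← Equiv.sum_comp (MonoidHom.ofInjective hκi).toEquiv, ← mul_div_assoc,
          Finset.mul_sum, Nat.card_congr (MonoidHom.ofInjective hκi).toEquiv]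
        congr 1
        refine Finset.sum_congr rfl fun n _ => ?_
        have h6 : resj N.subtype (fun t => ψ' (e2.symm t)) n = ν 1 * χ (κ n) := hψN n
        rw [h6, mul_assoc, map_inv]
        rfl
      rw [h5]
      exact mul_ne_zero hν.one_ne_zero hip
    · rw [← cen_comp_equiv 𝔐 e2 i (fun t => ψ' (e2.symm t))]
      have h5 : (fun y => ψ' (e2.symm (e2 y))) = ψ' := by
        ext y
        rw [MulEquiv.symm_apply_apply]
      have h6 : i.comp e2.toMonoidHom =
          i.comp ((⊤ : Subgroup (T ⧸ j.range)).comap p).subtype := by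
        ext y
        show i (e2 y) = i y
        rw [he2]
      rw [h5, h6]
      ext g
      rw [hcen ⊤ ψ' η hψ' hηi hηO hcor g, hηc]
      exact hc' g

end Pool.Agent.DPM


end

section

/-!
# The hypothesis on the quotients of the centralizers for a subgroup
-/

namespace Pool.Agent.DPC

open Pool.Agent.DP Pool.Agent.Lib_helper13 Representation
open Pool.Agent.Lib_helper13.Dade (pCore DadeHolds dadeSum)

namespace DHR

theorem map_inf_centralizer {B : Type} [Group B] (T : Subgroup B) (S E : Subgroup T) :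
    (S ⊓ Subgroup.centralizer (E : Set T)).map T.subtype =
      S.map T.subtype ⊓ Subgroup.centralizer ((E.map T.subtype : Subgroup B) : Set B) := by
  ext b
  simp only [Subgroup.mem_map, Subgroup.mem_inf, Subgroup.mem_centralizer_iff]
  constructor
  · rintro ⟨t, ⟨htS, htE⟩, rfl⟩
    refine ⟨⟨t, htS, rfl⟩, ?_⟩
    rintro _ ⟨u, hu, rfl⟩
    have h := htE u hu
    exact congrArg (fun x : T => (x : B)) h
  · rintro ⟨⟨t, htS, rfl⟩, htE⟩
    refine ⟨t, ⟨htS, ?_⟩, rfl⟩
    intro u hu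
    have h := htE (T.subtype u) ⟨u, hu, rfl⟩
    exact Subtype.ext h

end DHR

theorem DHR_thm : Stmt_DHR := by
  intro G B _ _ _ _ ℓ _ ι h T ι' hι S hS E hE hEp hEι H _ _ q hq hqE hH
  have hEM : (E.map T.subtype) ≤ S.map T.subtype := Subgroup.map_mono hE
  have hrange : ι'.range.map T.subtype = ι.range := by
    ext b
    constructor
    · rintro ⟨_, ⟨g, rfl⟩, rfl⟩
      exact ⟨g, (hι g).symm⟩
    · rintro ⟨g, rfl⟩
      exact ⟨ι' g, ⟨g, rfl⟩, hι g⟩
  have hp : IsPGroup ℓ (E.map T.subtype) := hEp.map T.subtype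
  have hdis : E.map T.subtype ⊓ ι.range = ⊥ := by
    rw [← hrange, ← Subgroup.map_inf_eq _ _ T.subtype T.subtype_injective, hEι,
      Subgroup.map_bot]
  have hr : ι.range ≤ S.map T.subtype := by
    rw [← hrange]
    exact Subgroup.map_mono hS
  let e1 : ↥(S ⊓ Subgroup.centralizer (E : Set T)) ≃*
      ↥((S ⊓ Subgroup.centralizer (E : Set T)).map T.subtype) :=
    (S ⊓ Subgroup.centralizer (E : Set T)).equivMapOfInjective T.subtype T.subtype_injective
  let e2 := MulEquiv.subgroupCongr (DHR.map_inf_centralizer T S E)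
  let q' : ↥(S.map T.subtype ⊓
      Subgroup.centralizer ((E.map T.subtype : Subgroup B) : Set B)) →* H :=
    q.comp ((e1.trans e2).symm : _ ≃* _).toMonoidHom
  have key : ∀ x, ((x : ↥(S ⊓ Subgroup.centralizer (E : Set T))) : T) =
      (((e1.trans e2) x : ↥(S.map T.subtype ⊓
        Subgroup.centralizer ((E.map T.subtype : Subgroup B) : Set B))) : B) := fun x => rfl
  refine h (S.map T.subtype) hr (E.map T.subtype) hEM hp hdis H q' ?_ ?_ hH
  · intro y
    obtain ⟨x, rfl⟩ := hq y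
    refine ⟨(e1.trans e2) x, ?_⟩
    change q ((e1.trans e2).symm ((e1.trans e2) x)) = q x
    rw [MulEquiv.symm_apply_apply]
  · intro y
    obtain ⟨x, rfl⟩ := (e1.trans e2).surjective y
    have h1 : q' ((e1.trans e2) x) = q x := by
      change q ((e1.trans e2).symm ((e1.trans e2) x)) = q x
      rw [MulEquiv.symm_apply_apply]
    rw [h1, hqE x, ← key x]
    constructor
    · intro hx
      exact ⟨x, hx, rfl⟩
    · rintro ⟨u, hu, hux⟩
      have : u = (x : T) := Subtype.ext hux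
      rwa [← this]

end Pool.Agent.DPC


end

section

/-!
# The coordinate groups of an `ℓ`-subgroup are outer

Module OUTA: `Stmt_OUTA`.
-/

namespace Pool.Agent.DPC

open Pool.Agent.DP Pool.Agent.Lib_helper13 Representation
open Pool.Agent.Lib_helper13.Dade (pCore DadeHolds dadeSum)

namespace OUTA

/-- A nontrivial normal subgroup of a finite `ℓ`-group contains a nontrivial central element. -/
theorem normal_center {ℓ : ℕ} [Fact ℓ.Prime] {P : Type*} [Group P] [Finite P]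
    (hP : IsPGroup ℓ P) (N : Subgroup P) [N.Normal] (hN : N ≠ ⊥) :
    ∃ z ∈ N, z ≠ 1 ∧ ∀ g : P, g * z * g⁻¹ = z := by
  have h1 : IsPGroup ℓ (ConjAct P) := hP.of_equiv ConjAct.toConjAct
  have hnt : Nontrivial N := (Subgroup.nontrivial_iff_ne_bot N).mpr hN
  have hdvd : ℓ ∣ Nat.card N := by
    obtain ⟨n, hn0, hn⟩ := (hP.to_subgroup N).nontrivial_iff_card.mp hnt
    exact hn.symm ▸ dvd_pow_self _ (ne_of_gt hn0)
  have ha : (1 : N) ∈ MulAction.fixedPoints (ConjAct P) N := by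
    intro g
    exact smul_one g
  obtain ⟨b, hb, hb1⟩ :=
    h1.exists_fixed_point_of_prime_dvd_card_of_fixed_point N hdvd ha
  refine ⟨b, b.2, fun h => hb1 (Subtype.ext h.symm), fun g => ?_⟩
  have h2 := hb (ConjAct.toConjAct g)
  have h3 := congrArg Subtype.val h2
  rw [ConjAct.Subgroup.val_conj_smul, ConjAct.toConjAct_smul] at h3
  exact h3

section

variable {G B C Ω X K : Type} [Group G] [Group B] [Group C] [Group X] [Group K]
  {ι : G →* B} {κ : B →* MulAut G} {ρ : B →* C}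

theorem pow_left (φ : X →* Gam (Equiv.Perm Ω) Ω B) (w : Ω) (q : X) (hq : (φ q).right • w = w)
    (k : ℕ) : (φ (q ^ k)).right • w = w ∧ (φ (q ^ k)).left w = (φ q).left w ^ k := by
  induction k with
  | zero => rw [pow_zero, pow_zero]; exact ⟨RINA.rone φ w, RINA.lone φ w⟩
  | succ k ih =>
    have h1 := RINA.lmul φ (q ^ k) q w
    have h2 := RINA.rmul φ (q ^ k) q w
    rw [hq, ih.1] at h2
    rw [h2, hq, ih.1, ih.2] at h1
    rw [pow_succ, pow_succ]
    exact ⟨h2, h1⟩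

/-- The coordinate groups are `ℓ`-groups. -/
theorem Pw_isPGroup {ℓ : ℕ} (φ : X →* Gam (Equiv.Perm Ω) Ω B) (Q : Subgroup X)
    (hQ : IsPGroup ℓ Q) (w : Ω) : IsPGroup ℓ (Pw φ Q w) := by
  rintro ⟨b, q, hq, hqw, rfl⟩
  obtain ⟨k, hk⟩ := hQ ⟨q, hq⟩
  refine ⟨k, ?_⟩
  apply Subtype.ext
  have h1 : q ^ ℓ ^ k = 1 := congrArg Subtype.val hk
  change (φ q).left w ^ ℓ ^ k = 1
  rw [← (pow_left φ w q hqw (ℓ ^ k)).2, h1, RINA.lone]

end

end OUTA

open _root_.Pool.Agent.DPC.OUTA in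
theorem OUTA_thm : Stmt_OUTA := by
  classical
  intro Ω G B C X K _ _ _ _ _ _ _ _ _ _ ℓ _ ι κ ρ hS e p φ hE Q hQ hQe hcore w
  have hcl := hS.cl
  have hE1 := hE.cl
  have hPp : IsPGroup ℓ (Pw φ Q w) := Pw_isPGroup φ Q hQ w
  refine ⟨hPp, ?_⟩
  by_contra hne
  -- the normal subgroup of the coordinate group
  set P : Subgroup B := Pw φ Q w with hP
  have hPdef : ∀ b, b ∈ P ↔ ∃ q ∈ Q, (φ q).right • w = w ∧ (φ q).left w = b := fun b => Iff.rfl
  set N : Subgroup P := ι.range.subgroupOf P with hN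
  have hιn : ι.range.Normal := by
    refine ⟨fun x hx g => ?_⟩
    obtain ⟨a, rfl⟩ := hx
    exact ⟨κ g a, hcl.act g a⟩
  have hNn : N.Normal := hιn.subgroupOf P
  have hNb : N ≠ ⊥ := by
    intro h
    apply hne
    rw [hN, Subgroup.subgroupOf_eq_bot] at h
    exact (disjoint_iff.mp h.symm)
  obtain ⟨⟨z1, hz1P⟩, hz1N, hz1ne, hz1c⟩ := normal_center hPp N hNb
  obtain ⟨z, hz⟩ : z1 ∈ ι.range := Subgroup.mem_subgroupOf.mp hz1N
  have hzne : z ≠ 1 := by
    intro h
    apply hz1ne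
    apply Subtype.ext
    change z1 = 1
    rw [← hz, h, map_one]
  have hfix : ∀ b ∈ P, κ b z = z := by
    intro b hb
    apply hcl.inj
    have h1 := congrArg Subtype.val (hz1c ⟨b, hb⟩)
    change b * z1 * b⁻¹ = z1 at h1
    rw [hcl.act, hz, h1]
  -- the element of the base group
  set n : Ω → G := fun o => if h : ∃ q ∈ Q, (φ q).right • w = o then
    κ ((φ h.choose).left o) z else 1 with hn
  have hn1 : ∀ q ∈ Q, n ((φ q).right • w) = κ ((φ q).left ((φ q).right • w)) z := by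
    intro q hq
    have hex : ∃ q' ∈ Q, (φ q').right • w = (φ q).right • w := ⟨q, hq, rfl⟩
    have h0 : n ((φ q).right • w) = κ ((φ hex.choose).left ((φ q).right • w)) z := by
      rw [hn]
      exact dif_pos hex
    obtain ⟨h1, h2⟩ := hex.choose_spec
    set q' := hex.choose with hq'
    have h3 : (φ (q⁻¹ * q')).right • w = w := by
      rw [RINA.rmul, h2, ← RINA.rmul, inv_mul_cancel, RINA.rone]
    have h4 := RINA.lmul φ q (q⁻¹ * q') w
    rw [mul_inv_cancel_left, h3, h2] at h4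
    have h5 : (φ (q⁻¹ * q')).left w ∈ P := ⟨q⁻¹ * q', mul_mem (inv_mem hq) h1, h3, rfl⟩
    rw [h0, h4, map_mul, MulAut.mul_apply, hfix _ h5]
  have hn2 : ∀ o, (¬ ∃ q ∈ Q, (φ q).right • w = o) → n o = 1 := by
    intro o ho
    rw [hn]
    exact dif_neg ho
  have hnc : e n ∈ Subgroup.centralizer (Q : Set X) := by
    rw [RINA.cent e p φ hE1 Q n]
    intro q hq o
    by_cases ho : ∃ q' ∈ Q, (φ q').right • w = o
    · obtain ⟨q', hq', rfl⟩ := ho
      have e1 := hn1 _ (mul_mem hq hq')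
      rw [RINA.lmul, RINA.rmul, map_mul, MulAut.mul_apply] at e1
      rw [hn1 q' hq', e1]
    · rw [hn2 o ho, map_one, hn2]
      rintro ⟨q', hq', h1⟩
      apply ho
      refine ⟨q⁻¹ * q', mul_mem (inv_mem hq) hq', ?_⟩
      rw [RINA.rmul, h1, ← RINA.rmul, inv_mul_cancel, RINA.rone]
  have hzmem : e n ∈ cN e.range Q := Subgroup.mem_inf.mpr ⟨⟨n, rfl⟩, hnc⟩
  have hcomm : ∀ m : Ω → G, e m ∈ Subgroup.centralizer (Q : Set X) → n * m = m * n := by
    intro m hm
    rw [RINA.cent e p φ hE1 Q m] at hm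
    funext o
    rw [Pi.mul_apply, Pi.mul_apply]
    by_cases ho : ∃ q' ∈ Q, (φ q').right • w = o
    · obtain ⟨q', hq', rfl⟩ := ho
      rw [hn1 q' hq', ← hm q' hq' w, ← map_mul, ← map_mul]
      congr 1
      obtain ⟨q1, hq1, hq1w, hb⟩ := (hPdef z1).mp hz1P
      have h1 := hm q1 hq1 w
      rw [hq1w, hb, ← hz, RINA.kap hcl] at h1
      rw [mul_inv_eq_iff_eq_mul] at h1
      exact h1
    · rw [hn2 o ho, one_mul, mul_one]
  have hfin : e n = 1 := by
    have h1 : (⟨e n, hzmem⟩ : cN e.range Q) = 1 := by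
      obtain ⟨k, hk⟩ := hPp ⟨z1, hz1P⟩
      have hzk : z ^ ℓ ^ k = 1 := by
        apply hcl.inj
        rw [map_pow, hz, map_one]
        exact congrArg Subtype.val hk
      refine ZR.central_one (ℓ := ℓ) hcore _ ?_ k ?_
      · rintro ⟨x, hx⟩
        obtain ⟨⟨m, rfl⟩, hm⟩ := Subgroup.mem_inf.mp hx
        apply Subtype.ext
        change e n * e m = e m * e n
        rw [← map_mul, hcomm m hm, map_mul]
      · apply Subtype.ext
        change (e n) ^ ℓ ^ k = 1
        rw [← map_pow]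
        have : n ^ ℓ ^ k = 1 := by
          funext o
          rw [Pi.pow_apply, Pi.one_apply]
          by_cases ho : ∃ q' ∈ Q, (φ q').right • w = o
          · obtain ⟨q', hq', rfl⟩ := ho
            rw [hn1 q' hq', ← map_pow, hzk, map_one]
          · rw [hn2 o ho, one_pow]
        rw [this, map_one]
    exact congrArg Subtype.val h1
  have hn0 : n = 1 := hE1.inj (by rw [hfin, map_one])
  have h1 := hn1 1 (one_mem _)
  rw [RINA.rone, RINA.lone, hn0, Pi.one_apply, map_one, MulAut.one_apply] at h1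
  exact hzne h1.symm

end Pool.Agent.DPC


end
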