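import Mathlib
import Pool.Agent.DAM.C01
import Pool.Agent.DAM.C08
import Pool.Agent.DAM.C12

/-! Parts: DPC.MIX, DP.AACL, DP.REPJ, DP.TJ -/

section

/-!
# MIX: refinement of the central functions
-/

namespace Pool.Agent.DPC

open Pool.Agent.DP Pool.Agent.Lib_helper13 Representation

namespace MIX

/-- The central function along `i` is a function of the central function on `Y`. -/
theorem cen_comp (X Y : Type) [Group X] [Fintype X] [Group Y] [Fintype Y]
    (𝔐 : Ideal (integralClosure ℤ ℂ)) (i : Y →* X) :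
    ∃ Φ : (Y → (integralClosure ℤ ℂ) ⧸ 𝔐) → X → (integralClosure ℤ ℂ) ⧸ 𝔐,
      ∀ (S : Subgroup Y) (ψ : S → ℂ), IsIrr ψ →
        cen 𝔐 (i.comp S.subtype) ψ = Φ (cen 𝔐 S.subtype ψ) := by
  classical
  have : Fintype (ConjClasses Y) := Fintype.ofFinite _
  choose rep hrep using (fun L : ConjClasses Y => ConjClasses.exists_rep L)
  refine ⟨fun ω x => ∑ L : ConjClasses Y, red 𝔐 (conjInd (i (rep L)) x) * ω (rep L), ?_⟩
  intro S ψ hψ
  funext x
  -- the class function
  have hcl : ∀ y : Y, conjInd (i (rep (ConjClasses.mk y))) x = conjInd (i y) x := by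
    intro y
    refine conjInd_left ?_ x
    have h1 : IsConj (rep (ConjClasses.mk y)) y := by
      rw [← ConjClasses.mk_eq_mk_iff_isConj]
      exact hrep (ConjClasses.mk y)
    exact i.map_isConj h1
  have hin : ∀ (L : ConjClasses Y) (y : Y),
      (if ConjClasses.mk y = L then (1 : ℂ) else 0) = conjInd y (rep L) := by
    intro L y
    unfold conjInd
    by_cases h : ConjClasses.mk y = L
    · rw [if_pos h, if_pos]
      rw [← ConjClasses.mk_eq_mk_iff_isConj, hrep, h]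
    · rw [if_neg h, if_neg]
      rw [← ConjClasses.mk_eq_mk_iff_isConj, hrep]
      exact h
  set F : ConjClasses Y → ℂ := fun L => conjInd (i (rep L)) x with hF
  have h1 : (fun y : S => conjInd ((i.comp S.subtype) y) x) =
      fun y : S => F (ConjClasses.mk (S.subtype y)) := by
    funext y
    exact (hcl (y : Y)).symm
  have hint : ∀ L : ConjClasses Y, IsIntegral ℤ
      (wt ψ (fun y : S => if ConjClasses.mk (S.subtype y) = L then 1 else 0)) := by
    intro L
    refine isIntegral_wt hψ _ ?_ ?_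
    · intro g y
      have : ConjClasses.mk (S.subtype (g * y * g⁻¹)) = ConjClasses.mk (S.subtype y) := by
        rw [ConjClasses.mk_eq_mk_iff_isConj]
        exact isConj_iff.mpr ⟨(S.subtype g)⁻¹, by simp [mul_assoc]⟩
      rw [this]
    · intro y
      split_ifs
      · exact isIntegral_one
      · exact isIntegral_zero
  rw [cen, h1, wt_comp_classes, red_sum]
  · refine Finset.sum_congr rfl fun L _ => ?_
    rw [red_mul 𝔐 (isIntegral_conjInd _ _) (hint L)]
    congr 1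
    rw [cen]
    congr 2
    funext y
    exact hin L _
  · intro L _
    exact (isIntegral_conjInd _ _).mul (hint L)

end MIX

theorem MIX_thm : Stmt_MIX := by
  intro X Y _ _ _ _ 𝔐 ℓ i ω
  classical
  obtain ⟨Φ, hΦ⟩ := MIX.cen_comp X Y 𝔐 i
  have hfin : {ω' : Y → (integralClosure ℤ ℂ) ⧸ 𝔐 | ∃ (S : Subgroup Y) (ψ : S → ℂ), IsIrr ψ ∧
      cen 𝔐 S.subtype ψ = ω' ∧ cen 𝔐 (i.comp S.subtype) ψ = ω}.Finite := by
    refine (Set.finite_iUnion (fun S : Subgroup Y =>
      (finite_isIrr (H := S)).image (fun ψ => cen 𝔐 S.subtype ψ))).subset ?_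
    rintro ω' ⟨S, ψ, hψ, h1, -⟩
    exact Set.mem_iUnion.2 ⟨S, ψ, hψ, h1⟩
  have hmem : ∀ ω', ω' ∈ hfin.toFinset ↔ ∃ (S : Subgroup Y) (ψ : S → ℂ), IsIrr ψ ∧
      cen 𝔐 S.subtype ψ = ω' ∧ cen 𝔐 (i.comp S.subtype) ψ = ω := by
    intro ω'
    rw [Set.Finite.mem_toFinset]
    rfl
  have hΦω : ∀ ω' ∈ hfin.toFinset, Φ ω' = ω := by
    intro ω' hω'
    obtain ⟨S, ψ, hψ, h1, h2⟩ := (hmem ω').1 hω'
    rw [← h1, ← hΦ S ψ hψ, h2]
  refine ⟨hfin.toFinset, ?_, ?_⟩
  · intro S d
    have hI : ∀ (P : (S → ℂ) → Prop) [DecidablePred P], Nat.card {θ : S → ℂ // IsIrr θ ∧ P θ} =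
        ((finite_isIrr (H := S)).toFinset.filter P).card := by
      intro P _
      refine Nat.subtype_card _ ?_
      intro θ
      rw [Finset.mem_filter, Set.Finite.mem_toFinset]
      rfl
    unfold cnt
    rw [hI (fun θ => HasDefect ℓ θ d ∧ ∀ g, cen 𝔐 (i.comp S.subtype) θ g = ω g)]
    rw [Finset.card_eq_sum_card_fiberwise (f := fun θ => cen 𝔐 S.subtype θ)
      (t := hfin.toFinset)]
    · push_cast
      refine Finset.sum_congr rfl fun ω' hω' => ?_
      rw [hI (fun θ => HasDefect ℓ θ d ∧ ∀ g, cen 𝔐 S.subtype θ g = ω' g), Finset.filter_filter]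
      congr 2
      refine Finset.filter_congr fun θ hθ => ?_
      have hθ' : IsIrr θ := by
        rw [Set.Finite.mem_toFinset] at hθ
        exact hθ
      constructor
      · rintro ⟨⟨h1, -⟩, h2⟩
        exact ⟨h1, fun g => congrFun h2 g⟩
      · rintro ⟨h1, h2⟩
        have h3 : cen 𝔐 S.subtype θ = ω' := funext h2
        refine ⟨⟨h1, fun g => ?_⟩, h3⟩
        rw [hΦ S θ hθ', h3, hΦω ω' hω']
    · intro θ hθ
      have h1 := (@Finset.mem_filter _ _ _ _ _).1 hθ
      have hθ' : IsIrr θ := by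
        have := h1.1
        rw [Set.Finite.mem_toFinset] at this
        exact this
      exact (hmem _).2 ⟨S, θ, hθ', rfl, funext h1.2.2⟩
  · intro ω' hω' S ψ hψ h1
    rw [hΦ S ψ hψ, h1, hΦω ω' hω']

end Pool.Agent.DPC


end

section

/-!
# The weighted sums of a class function form a class function
-/

namespace Pool.Agent.DP

open Pool.Agent.Lib_helper13 Representation

namespace AACL

theorem TH_conj {O G : Type*} [Group G] [Fintype O] [DecidableEq O] (m : O → ℕ)
    (M : O → G → ℕ → ℕ → ℂ) (e k : Equiv.Perm O) (hm : ∀ o, m (e o) = m o)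
    (hM : ∀ o, M (e o) = M o) (n : O → G) :
    TH m M (e * k * e⁻¹) (fun o => n (e⁻¹ o)) = TH m M k n := by
  unfold TH
  refine Finset.sum_bij' (fun f _ => fun o => f (e o)) (fun f _ => fun o => f (e⁻¹ o))
    ?_ ?_ ?_ ?_ ?_
  · intro f hf
    rw [Fintype.mem_piFinset] at hf ⊢
    intro o
    have h := hf (e o)
    rwa [hm] at h
  · intro f hf
    rw [Fintype.mem_piFinset] at hf ⊢
    intro o
    have h := hf (e⁻¹ o)
    have h2 : e (e⁻¹ o) = o := by simp
    rwa [← hm (e⁻¹ o), h2] at h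
  · intro f _
    funext o
    simp
  · intro f _
    funext o
    simp
  · intro f _
    rw [← Equiv.prod_comp e]
    refine Finset.prod_congr rfl (fun o _ => ?_)
    rw [hM]
    simp [mul_inv_rev]

theorem conj_mk {K O G : Type*} [Group K] [MulAction K O] [Group G] (l k : K) (n : O → G) :
    (⟨fun o => n (l⁻¹ • o), l * k * l⁻¹⟩ : Gam K O G) =
      iR K O G l * ⟨n, k⟩ * (iR K O G l)⁻¹ := by
  apply SemidirectProduct.ext
  · simp only [SemidirectProduct.mul_left, SemidirectProduct.mul_right,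
      SemidirectProduct.inv_left, SemidirectProduct.left_inr, SemidirectProduct.right_inr,
      inv_one, map_one, mul_one, one_mul]
    rfl
  · simp

end AACL

theorem AACL_thm : Stmt_AACL := by
  intro K O G _ _ _ _ _ _ _ S θ m M l k hS hm hM F hF
  unfold aS
  congr 1
  have hS' : ∀ o, S (l⁻¹ • o) = S o := fun o => by
    rw [← hS (l⁻¹ • o), smul_inv_smul]
  let φ : (∀ o, S o) ≃ (∀ o, S o) :=
    { toFun := fun n o => ⟨n (l⁻¹ • o), by rw [← hS' o]; exact (n (l⁻¹ • o)).2⟩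
      invFun := fun n o => ⟨n (l • o), by rw [← hS o]; exact (n (l • o)).2⟩
      left_inv := by
        intro n
        funext o
        apply Subtype.ext
        change ((n (l⁻¹ • l • o) : S (l⁻¹ • l • o)) : G) = n o
        rw [inv_smul_smul]
      right_inv := by
        intro n
        funext o
        apply Subtype.ext
        change ((n (l • l⁻¹ • o) : S (l • l⁻¹ • o)) : G) = n o
        rw [smul_inv_smul] }
  rw [← Equiv.sum_comp φ]
  refine Finset.sum_congr rfl (fun n _ => ?_)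
  have h1 : (fun o => ((φ n o : S o) : G)) = fun o => ((n (l⁻¹ • o) : S (l⁻¹ • o)) : G) := rfl
  have h2 : MulAction.toPerm (l * k * l⁻¹) =
      (MulAction.toPerm l : Equiv.Perm O) * MulAction.toPerm k * (MulAction.toPerm l)⁻¹ := by
    ext o
    simp [mul_smul]
  have h3 := AACL.TH_conj m M (MulAction.toPerm l) (MulAction.toPerm k) hm hM
    (fun o => ((n o : S o) : G))
  rw [h1, h2]
  have h4 : F ⟨fun o => ((n (l⁻¹ • o) : S (l⁻¹ • o)) : G), l * k * l⁻¹⟩ =
      F ⟨fun o => ((n o : S o) : G), k⟩ := by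
    rw [AACL.conj_mk l k (fun o => ((n o : S o) : G)), hF]
  exact congrArg₂ (· * ·) h4 h3

end Pool.Agent.DP


end

section

/-!
# REPJ: representatives of the orbits, vertex groups along orbits
-/

namespace Pool.Agent.DP

open Pool.Agent.Lib_helper13

namespace REPJ

variable {O B C Y K : Type} [Group B] [Group C] [Group Y] [Group K]
  {ρ : B →* C} {p : Y →* K} {φ : Y →* Gam (Equiv.Perm O) O B} {J : Subgroup K}

theorem right_mul (x y : Y) (o : O) :
    (φ (x * y)).right • o = (φ x).right • (φ y).right • o := by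
  rw [map_mul, SemidirectProduct.mul_right, mul_smul]

theorem right_inv (x : Y) (o : O) : (φ x⁻¹).right • o = (φ x).right⁻¹ • o := by
  rw [map_inv, SemidirectProduct.inv_right]

theorem left_mul (x y : Y) (o : O) :
    (φ (x * y)).left o = (φ x).left o * (φ y).left ((φ x).right⁻¹ • o) := by
  rw [map_mul]
  rfl

theorem left_inv (x : Y) (o : O) :
    (φ x⁻¹).left o = ((φ x).left ((φ x).right • o))⁻¹ := by
  rw [map_inv]
  change ((φ x).left ((φ x).right⁻¹⁻¹ • o))⁻¹ = _
  rw [inv_inv]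

/-- The orbit relation. -/
def orel (p : Y →* K) (φ : Y →* Gam (Equiv.Perm O) O B) (J : Subgroup K) : Setoid O where
  r a b := ∃ y, p y ∈ J ∧ (φ y).right • a = b
  iseqv := by
    refine ⟨?_, ?_, ?_⟩
    · intro a
      refine ⟨1, by rw [map_one]; exact J.one_mem, ?_⟩
      rw [map_one, SemidirectProduct.one_right, one_smul]
    · rintro a b ⟨y, hy, rfl⟩
      refine ⟨y⁻¹, by rw [map_inv]; exact J.inv_mem hy, ?_⟩
      rw [right_inv, inv_smul_smul]
    · rintro a b c ⟨x, hx, rfl⟩ ⟨y, hy, rfl⟩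
      refine ⟨y * x, by rw [map_mul]; exact J.mul_mem hy hx, ?_⟩
      rw [right_mul]

theorem exists_rep : ∃ (r : O → O) (t : O → Y), RepJ p φ J r t := by
  classical
  let S := orel p φ J
  let r : O → O := fun o => Quotient.out (Quotient.mk S o)
  have hr : ∀ o, ∃ y, p y ∈ J ∧ (φ y).right • r o = o := fun o => Quotient.mk_out o
  refine ⟨r, fun o => if r o = o then 1 else (hr o).choose, ?_, ?_, ?_, ?_⟩
  · intro o
    by_cases h : r o = o
    · simp only [h, if_true, map_one]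
      exact J.one_mem
    · simp only [h, if_false]
      exact (hr o).choose_spec.1
  · intro o
    by_cases h : r o = o
    · simp only [if_pos h, map_one, SemidirectProduct.one_right, one_smul]
      exact h
    · simp only [if_neg h]
      exact (hr o).choose_spec.2
  · intro y hy o
    have h1 : Quotient.mk S ((φ y).right • o) = Quotient.mk S o := by
      symm
      exact Quotient.sound ⟨y, hy, rfl⟩
    show Quotient.out (Quotient.mk S ((φ y).right • o)) = Quotient.out (Quotient.mk S o)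
    rw [h1]
  · intro o h
    simp only [if_pos h]

theorem vg_le (hc : ∀ a b : C, a * b = b * a) {y : Y} (hy : p y ∈ J) (o : O) :
    vg ρ p φ J ((φ y).right • o) ≤ vg ρ p φ J o := by
  rintro _ ⟨z, hz, hzo, rfl⟩
  refine ⟨y⁻¹ * z * y, ?_, ?_, ?_⟩
  · rw [map_mul, map_mul, map_inv]
    exact J.mul_mem (J.mul_mem (J.inv_mem hy) hz) hy
  · rw [right_mul, right_mul, hzo, right_inv, inv_smul_smul]
  · rw [left_mul, left_mul, left_inv]
    have h1 : (φ y⁻¹).right⁻¹ • o = (φ y).right • o := by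
      rw [map_inv, SemidirectProduct.inv_right, inv_inv]
    have h2 : (φ (y⁻¹ * z)).right⁻¹ • o = (φ y).right • o := by
      rw [inv_smul_eq_iff, right_mul, hzo, right_inv, inv_smul_smul]
    rw [h1, h2, map_mul, map_mul, map_inv, hc _ (ρ ((φ z).left _)), mul_assoc, inv_mul_cancel,
      mul_one]

theorem vg_eq (hc : ∀ a b : C, a * b = b * a) {y : Y} (hy : p y ∈ J) (o : O) :
    vg ρ p φ J ((φ y).right • o) = vg ρ p φ J o := by
  apply le_antisymm (vg_le hc hy o)
  have h1 := vg_le (ρ := ρ) (φ := φ) (J := J) hc (y := y⁻¹)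
    (by rw [map_inv]; exact J.inv_mem hy) ((φ y).right • o)
  rw [right_inv, inv_smul_smul] at h1
  exact h1

end REPJ

open _root_.Pool.Agent.DP.REPJ in
theorem REPJ_thm : Stmt_REPJ := by
  intro O G B C Y K _ _ _ _ _ _ _ _ _ _ ℓ ι κ ρ hL j p φ hE J
  have hc : ∀ a b : C, a * b = b * a := by
    have := hL.cyc
    obtain ⟨g, hg⟩ := IsCyclic.exists_generator (α := C)
    intro a b
    obtain ⟨m, rfl⟩ := Subgroup.mem_zpowers_iff.mp (hg a)
    obtain ⟨n, rfl⟩ := Subgroup.mem_zpowers_iff.mp (hg b)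
    rw [← zpow_add, ← zpow_add, add_comm]
  refine ⟨exists_rep, fun y hy o => vg_eq hc hy o, ?_⟩
  intro r t hrt
  refine ⟨?_, ?_, ?_⟩
  · intro o
    have h := hrt.con (t o) (hrt.mem o) (r o)
    rw [hrt.map o] at h
    exact h.symm
  · intro o
    have h := vg_eq (ρ := ρ) (φ := φ) hc (hrt.mem o) (r o)
    rw [hrt.map o] at h
    exact h.symm
  · intro y hy g hg o
    set o' : O := (φ y).right⁻¹ • o with ho'
    have hyo : (φ y).right • o' = o := by rw [ho', smul_inv_smul]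
    have hro : r o' = r o := by
      have h := hrt.con y hy o'
      rw [hyo] at h
      exact h.symm
    refine ⟨(t o)⁻¹ * y * t o', ?_, ?_, ?_⟩
    · rw [map_mul, map_mul, map_inv]
      exact J.mul_mem (J.mul_mem (J.inv_mem (hrt.mem o)) hy) (hrt.mem o')
    · rw [right_mul, right_mul, ← hro, hrt.map o', hyo, right_inv, inv_smul_eq_iff, hro,
        hrt.map o]
    · rw [left_mul, left_mul, left_inv, hrt.map o]
      have h1 : (φ (t o)⁻¹).right⁻¹ • r o = o := by
        rw [map_inv, SemidirectProduct.inv_right, inv_inv, hrt.map o]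
      have h2 : (φ ((t o)⁻¹ * y)).right⁻¹ • r o = o' := by
        rw [inv_smul_eq_iff, right_mul, hyo, right_inv, eq_inv_smul_iff, hrt.map o]
      rw [h1, h2]
      show _ = ρ ((g o)⁻¹ * (φ y).left o * g ((φ y).right⁻¹ • o))
      rw [map_mul, map_mul, map_inv, map_mul, map_mul, map_inv, hg o, ← ho', hg o']

end Pool.Agent.DP


end

section

/-!
# The sum over the data whose group contains `J` vanishes
-/

namespace Pool.Agent.DP

open Pool.Agent.Lib_helper13 Representation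
open Pool.Agent.Lib_helper13.Dade (pCore DadeHolds)

namespace TJ

theorem irrOn_of_mem {G : Type*} [Group G] [Fintype G] {S : Subgroup G} {f : G → ℂ}
    (hf : f ∈ irrOn S) : IrrOn S f := by
  classical
  rw [irrOn, Finset.mem_image] at hf
  obtain ⟨ψ, hψ, rfl⟩ := hf
  refine ⟨?_, fun x hx => ext0_of_not_mem ψ hx⟩
  have h : (fun s : S => ext0 ψ (s : G)) = ψ := by
    funext s
    simp [ext0]
  rw [h]
  exact mem_irrF.mp hψ

theorem cg_comp {G : Type*} [Group G] [Fintype G] (𝔐 : Ideal (integralClosure ℤ ℂ))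
    (α : MulAut G) (θ : G → ℂ) (g : G) : cg 𝔐 (fun x => θ (α x)) g = cg 𝔐 θ (α g) := by
  change red 𝔐 ((∑ x, conjInd x g * θ (α x)) / θ (α 1)) =
    red 𝔐 ((∑ x, conjInd x (α g) * θ x) / θ 1)
  rw [map_one]
  congr 2
  refine Fintype.sum_equiv α.toEquiv _ _ fun x => ?_
  change conjInd x g * θ (α x) = conjInd (α x) (α g) * θ (α x)
  congr 1
  refine conjInd_congr ?_
  constructor
  · intro h
    exact MonoidHom.map_isConj α.toMonoidHom h
  · intro h
    have h' := MonoidHom.map_isConj α.symm.toMonoidHom h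
    simpa using h'

theorem dzT_transport {G B C : Type*} [Group G] [Group B] [Group C] [Fintype G]
    (𝔐 : Ideal (integralClosure ℤ ℂ)) (ℓ : ℕ) {ι : G →* B} {κ : B →* MulAut G} {ρ : B →* C}
    (cl : ClG ι κ ρ) (a : B) {β : Set (B → (integralClosure ℤ ℂ) ⧸ 𝔐)} (h : dzT 𝔐 ℓ ι β) :
    dzT 𝔐 ℓ ι ((fun b0 x => b0 (a⁻¹ * x * a)) '' β) := by
  obtain ⟨b, hb, θ, h1, h2, h3⟩ := h
  refine ⟨_, ⟨b, hb, rfl⟩, fun x => θ (κ a⁻¹ x), ?_, ?_, ?_⟩
  · exact h1.comp_mulEquiv (κ a⁻¹)
  · exact (hasDefect_comp_equiv (κ a⁻¹)).mpr h2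
  · intro g
    have h4 : a⁻¹ * ι g * a = ι (κ a⁻¹ g) := by rw [cl.act, inv_inv]
    change b (a⁻¹ * ι g * a) = _
    rw [h4, h3, cg_comp]

theorem expand {Q : Type*} [Fintype Q] [DecidableEq Q] (n d : Q → ℕ) (hn : ∀ w, 1 ≤ n w)
    (e : ℕ) :
    (if ∑ w, n w * d w = e then (1 : ℚ) else 0) =
      ∑ E ∈ (Fintype.piFinset (fun _ : Q => Finset.range (e + 1))).filter
        (fun E => ∑ w, n w * E w = e), ∏ w, (if d w = E w then (1 : ℚ) else 0) := by
  have h1 : ∀ E : Q → ℕ, ∏ w, (if d w = E w then (1 : ℚ) else 0) = if d = E then 1 else 0 := by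
    intro E
    by_cases h : d = E
    · subst h
      simp
    · rw [if_neg h]
      obtain ⟨w, hw⟩ := Function.ne_iff.mp h
      exact Finset.prod_eq_zero (Finset.mem_univ w) (if_neg hw)
  simp_rw [h1]
  rw [Finset.sum_ite_eq]
  refine if_congr ?_ rfl rfl
  rw [Finset.mem_filter, Fintype.mem_piFinset]
  constructor
  · intro h
    refine ⟨fun w => ?_, h⟩
    rw [Finset.mem_range]
    have h2 : n w * d w ≤ ∑ w, n w * d w :=
      Finset.single_le_sum (f := fun w => n w * d w) (fun _ _ => Nat.zero_le _)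
        (Finset.mem_univ w)
    have h3 : d w ≤ n w * d w := Nat.le_mul_of_pos_left _ (hn w)
    omega
  · exact fun h => h.2

theorem ite_help (a b c : Prop) [Decidable (a ∧ b ∧ c)] [Decidable (a ∧ c)] [Decidable b] :
    (if a ∧ b ∧ c then (1 : ℚ) else 0) = (if a ∧ c then 1 else 0) * (if b then 1 else 0) := by
  by_cases ha : a <;> by_cases hb : b <;> by_cases hc : c <;> simp [ha, hb, hc]

end TJ

open Classical in
theorem TJ_thm (h1 : Stmt_LIFT) (h2 : Stmt_CNTG) (h3 : Stmt_REPJ) (h4 : Stmt_TRBR)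
    (h5 : Stmt_FIXR) (h6 : Stmt_EVALR) : Stmt_TJ := by
  intro O G B C Y K _ _ _ _ _ _ _ _ _ _ _ 𝔐 ℓ _ h𝔐 hℓ ι κ ρ hL hVS j p φ hE J e β hβ
  obtain ⟨o₀, ho₀⟩ := hβ
  obtain ⟨⟨r, t, hr⟩, -, hrep⟩ := h3 O G B C Y K ℓ ι κ ρ hL j p φ hE J
  obtain ⟨hrr, hvg, -⟩ := hrep r t hr
  -- existence of transports
  have hex : ∀ τ ∈ ClCh O G ℓ, ∀ θ : O → G → ℂ, (∀ o, IrrOn (stb (comp τ o)) (θ o)) →
      J ≤ KB κ p φ τ θ → ∃ g : O → B, (∀ o, r o = o → g o = 1) ∧
        (∀ o, ρ (g o) = ρ ((φ (t o)).left o)) ∧ ∀ o, trB κ τ θ (r o) o (g o) := by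
    intro τ hτ θ hθ hJ
    have h := h2 O G B C Y K ℓ ι κ ρ hL j p φ hE J r t hr τ hτ θ hθ hJ
    have h' : 0 < ∏ o ∈ Finset.univ.filter (fun o => r o ≠ o), Nat.card (stb (comp τ o)) :=
      Finset.prod_pos fun o _ => Nat.card_pos
    rw [← h] at h'
    obtain ⟨⟨g, hg⟩⟩ := (Nat.card_pos_iff.mp h').1
    exact ⟨g, hg⟩
  by_cases hcomp : ∀ o, (fun (b0 : B → (integralClosure ℤ ℂ) ⧸ 𝔐) x =>
      b0 (((φ (t o)).left o)⁻¹ * x * (φ (t o)).left o)) '' β (r o) = β o
  swap
  · refine Finset.sum_eq_zero fun τ hτ => ?_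
    rw [Finset.sum_eq_zero, mul_zero, mul_zero]
    intro θ hθ
    rw [if_neg]
    rintro ⟨hJ, -, hb⟩
    have hθ' : ∀ o, IrrOn (stb (comp τ o)) (θ o) := fun o =>
      TJ.irrOn_of_mem (Fintype.mem_piFinset.mp hθ o)
    obtain ⟨g, -, hg2, hg3⟩ := hex τ hτ θ hθ' hJ
    apply hcomp
    intro o
    have h := (h1 O G B C Y K 𝔐 ℓ ι κ ρ hL j p φ hE J r t hr τ hτ θ hθ' g hg2 hg3).2 o
    rw [hb] at h
    exact h.symm
  -- the representatives
  let Q := {o : O // r o = o}
  let q : O → Q := fun o => ⟨r o, hrr o⟩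
  let s : Q → O := Subtype.val
  have hqs : ∀ w, q (s w) = w := fun w => Subtype.ext w.2
  have hsq : ∀ o, s (q o) = r o := fun o => rfl
  let n : Q → ℕ := fun w => (Finset.univ.filter (fun o => q o = w)).card
  have hn : ∀ w, 1 ≤ n w := by
    intro w
    refine Finset.card_pos.mpr ⟨s w, ?_⟩
    rw [Finset.mem_filter]
    exact ⟨Finset.mem_univ _, hqs w⟩
  let 𝒢 : Finset (O → B) := Finset.univ.filter (fun g => (∀ o, r o = o → g o = 1) ∧
    ∀ o, ρ (g o) = ρ ((φ (t o)).left o))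
  let cond : Finset (Subgroup (O → G)) → (O → G → ℂ) → Prop := fun τ θ =>
    J ≤ KB κ p φ τ θ ∧ ∑ o, df ℓ (stb (comp τ o)) (θ o) = e ∧ bts 𝔐 ι κ ρ p φ τ θ J = β
  let P0 : Finset (Subgroup (O → G)) → ℚ := fun τ =>
    ∏ o ∈ Finset.univ.filter (fun o => r o = o), (Nat.card (stb (comp τ o)) : ℚ)
  -- step A
  have hA : ∀ τ ∈ ClCh O G ℓ, ∀ θ ∈ Fintype.piFinset (fun o => irrOn (stb (comp τ o))),
      (∏ o, (Nat.card (stb (comp τ o)) : ℚ)) * (if cond τ θ then 1 else 0) =
        ∑ g ∈ 𝒢, if ∀ o, trB κ τ θ (s (q o)) o (g o) then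
          P0 τ * (if cond τ θ then (1 : ℚ) else 0) else 0 := by
    intro τ hτ θ hθ
    have hθ' : ∀ o, IrrOn (stb (comp τ o)) (θ o) := fun o =>
      TJ.irrOn_of_mem (Fintype.mem_piFinset.mp hθ o)
    by_cases hc : cond τ θ
    · rw [if_pos hc, mul_one, mul_one, ← Finset.sum_filter, Finset.sum_const, nsmul_eq_mul,
        Finset.filter_filter]
      have h := h2 O G B C Y K ℓ ι κ ρ hL j p φ hE J r t hr τ hτ θ hθ' hc.1
      rw [Nat.card_eq_fintype_card, Fintype.card_subtype] at h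
      have h' : (Finset.univ.filter (fun g : O → B => ((∀ o, r o = o → g o = 1) ∧
          ∀ o, ρ (g o) = ρ ((φ (t o)).left o)) ∧ ∀ o, trB κ τ θ (s (q o)) o (g o))).card =
          ∏ o ∈ Finset.univ.filter (fun o => r o ≠ o), Nat.card (stb (comp τ o)) := by
        rw [← h]
        congr 1
        ext g
        simp only [Finset.mem_filter, Finset.mem_univ, true_and, and_assoc, hsq]
      rw [h', Nat.cast_prod, mul_comm]
      exact (Finset.prod_filter_mul_prod_filter_not _ _ _).symm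
    · rw [if_neg hc, mul_zero, mul_zero]
      simp
  -- step B
  have hB : ∑ τ ∈ ClCh O G ℓ, (-1 : ℚ) ^ τ.card * ((∏ o, (Nat.card (stb (comp τ o)) : ℚ)) *
        ∑ θ ∈ Fintype.piFinset (fun o => irrOn (stb (comp τ o))),
          (if cond τ θ then 1 else 0)) =
      ∑ g ∈ 𝒢, ∑ τ ∈ ClCh O G ℓ, (-1 : ℚ) ^ τ.card *
        ∑ θ ∈ (Fintype.piFinset (fun o => irrOn (stb (comp τ o)))).filter
          (fun θ => ∀ o, trB κ τ θ (s (q o)) o (g o)),
          P0 τ * (if cond τ θ then (1 : ℚ) else 0) := by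
    rw [Finset.sum_comm]
    refine Finset.sum_congr rfl fun τ hτ => ?_
    rw [← Finset.mul_sum, Finset.mul_sum]
    congr 1
    rw [Finset.sum_congr rfl (hA τ hτ), Finset.sum_comm]
    refine Finset.sum_congr rfl fun g _ => ?_
    rw [Finset.sum_filter]
  refine hB.trans ?_
  refine Finset.sum_eq_zero fun g hg => ?_
  obtain ⟨hg1, hg2⟩ : (∀ o, r o = o → g o = 1) ∧ ∀ o, ρ (g o) = ρ ((φ (t o)).left o) := by
    have := (Finset.mem_filter.mp hg).2
    exact this
  let H : (Q → Finset (Subgroup G)) → (Q → G → ℂ) → ℚ := fun c th =>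
    (∏ w, (Nat.card (stb (c w)) : ℚ)) *
      (if (∀ w, vg ρ p φ J w.1 ≤ (Stx κ (c w) (th w)).map ρ) ∧
        ∑ w, n w * df ℓ (stb (c w)) (th w) = e ∧
        ∀ w, bet 𝔐 ι κ ρ (c w) (th w) (vg ρ p φ J w.1) = β w.1 then 1 else 0)
  -- step C
  have hC : ∀ τ ∈ ClCh O G ℓ, ∀ θ ∈ (Fintype.piFinset (fun o => irrOn (stb (comp τ o)))).filter
      (fun θ => ∀ o, trB κ τ θ (s (q o)) o (g o)),
      P0 τ * (if cond τ θ then (1 : ℚ) else 0) =
        H (fun w => comp τ (s w)) (fun w => θ (s w)) := by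
    intro τ hτ θ hθ
    rw [Finset.mem_filter, Fintype.mem_piFinset] at hθ
    obtain ⟨hθ1, hθ2⟩ := hθ
    have hθ' : ∀ o, IrrOn (stb (comp τ o)) (θ o) := fun o => TJ.irrOn_of_mem (hθ1 o)
    have htr : ∀ o, trB κ τ θ (r o) o (g o) := hθ2
    obtain ⟨hl1, hl2⟩ := h1 O G B C Y K 𝔐 ℓ ι κ ρ hL j p φ hE J r t hr τ hτ θ hθ' g hg2 htr
    have hdf : ∀ o, df ℓ (stb (comp τ o)) (θ o) = df ℓ (stb (comp τ (s (q o)))) (θ (s (q o))) :=
      fun o => (((h4 O G B C 𝔐 ℓ ι κ ρ hL τ θ hθ').2 (r o) o (g o) (htr o)).2.1).symm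
    have hsum : ∑ o, df ℓ (stb (comp τ o)) (θ o) =
        ∑ w, n w * df ℓ (stb (comp τ (s w))) (θ (s w)) := by
      rw [← Finset.sum_fiberwise Finset.univ q]
      refine Finset.sum_congr rfl fun w _ => ?_
      rw [Finset.sum_congr rfl (g := fun _ => df ℓ (stb (comp τ (s w))) (θ (s w)))]
      · rw [Finset.sum_const, smul_eq_mul]
      · intro o ho
        rw [hdf o, (Finset.mem_filter.mp ho).2]
    change _ = (∏ w : Q, (Nat.card (stb (comp τ (s w))) : ℚ)) * _
    congr 1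
    · change ∏ o ∈ Finset.univ.filter (fun o => r o = o), (Nat.card (stb (comp τ o)) : ℚ) = _
      exact Finset.prod_subtype (p := fun o => r o = o) _
        (fun o => by rw [Finset.mem_filter]; exact and_iff_right (Finset.mem_univ _)) _
    · refine if_congr ?_ rfl rfl
      refine and_congr ?_ (and_congr ?_ ?_)
      · rw [hl1]
        constructor
        · intro h w
          have h' := h w.1
          rw [w.2] at h'
          exact h'
        · intro h o
          exact h (q o)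
      · rw [hsum]
      · constructor
        · intro h w
          have h' := congrFun h w.1
          rw [← h']
          rfl
        · intro h
          funext o
          rw [hl2 o, ← hcomp o]
          congr 1
          have h' := h (q o)
          exact h'
  have hC' : ∑ τ ∈ ClCh O G ℓ, (-1 : ℚ) ^ τ.card *
        ∑ θ ∈ (Fintype.piFinset (fun o => irrOn (stb (comp τ o)))).filter
          (fun θ => ∀ o, trB κ τ θ (s (q o)) o (g o)),
          P0 τ * (if cond τ θ then (1 : ℚ) else 0) =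
      ∑ τ ∈ ClCh O G ℓ, (-1 : ℚ) ^ τ.card *
        ∑ θ ∈ (Fintype.piFinset (fun o => irrOn (stb (comp τ o)))).filter
          (fun θ => ∀ o, trB κ τ θ (s (q o)) o (g o)),
          H (fun w => comp τ (s w)) (fun w => θ (s w)) := by
    refine Finset.sum_congr rfl fun τ hτ => ?_
    rw [Finset.sum_congr rfl (hC τ hτ)]
  rw [hC', h5 O Q G B ℓ κ q s g hqs (fun w => hg1 _ w.2) H]
  -- step D
  have hD : ∀ c th, H c th = ∑ E ∈ (Fintype.piFinset (fun _ : Q => Finset.range (e + 1))).filter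
        (fun E => ∑ w, n w * E w = e), ∏ w, ((Nat.card (stb (c w)) : ℚ) *
        (if vg ρ p φ J w.1 ≤ (Stx κ (c w) (th w)).map ρ ∧ df ℓ (stb (c w)) (th w) = E w ∧
          bet 𝔐 ι κ ρ (c w) (th w) (vg ρ p φ J w.1) = β w.1 then 1 else 0)) := by
    intro c th
    have hite : ∀ E : Q → ℕ, ∏ w, ((Nat.card (stb (c w)) : ℚ) *
        (if vg ρ p φ J w.1 ≤ (Stx κ (c w) (th w)).map ρ ∧ df ℓ (stb (c w)) (th w) = E w ∧
          bet 𝔐 ι κ ρ (c w) (th w) (vg ρ p φ J w.1) = β w.1 then 1 else 0)) =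
        ((∏ w, (Nat.card (stb (c w)) : ℚ)) *
          (if (∀ w, vg ρ p φ J w.1 ≤ (Stx κ (c w) (th w)).map ρ) ∧
            ∀ w, bet 𝔐 ι κ ρ (c w) (th w) (vg ρ p φ J w.1) = β w.1 then 1 else 0)) *
          ∏ w, (if df ℓ (stb (c w)) (th w) = E w then (1 : ℚ) else 0) := by
      intro E
      rw [Finset.prod_mul_distrib, mul_assoc]
      congr 1
      by_cases hx : (∀ w, vg ρ p φ J w.1 ≤ (Stx κ (c w) (th w)).map ρ) ∧
            ∀ w, bet 𝔐 ι κ ρ (c w) (th w) (vg ρ p φ J w.1) = β w.1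
      · rw [if_pos hx, one_mul]
        refine Finset.prod_congr rfl fun w _ => ?_
        refine if_congr ?_ rfl rfl
        exact ⟨fun h => h.2.1, fun h => ⟨hx.1 w, h, hx.2 w⟩⟩
      · rw [if_neg hx, zero_mul]
        rw [not_and_or, not_forall, not_forall] at hx
        rcases hx with ⟨w, hw⟩ | ⟨w, hw⟩
        · exact Finset.prod_eq_zero (Finset.mem_univ w) (if_neg fun h => hw h.1)
        · exact Finset.prod_eq_zero (Finset.mem_univ w) (if_neg fun h => hw h.2.2)
    simp_rw [hite]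
    rw [← Finset.mul_sum, ← TJ.expand n _ hn e, mul_assoc]
    change (∏ w, (Nat.card (stb (c w)) : ℚ)) * _ = _
    congr 1
    exact TJ.ite_help _ _ _
  have hD' : ∑ τ ∈ ClCh Q G ℓ, (-1 : ℚ) ^ τ.card *
      ∑ θ ∈ Fintype.piFinset (fun w => irrOn (stb (comp τ w))), H (fun w => comp τ w) θ =
      ∑ E ∈ (Fintype.piFinset (fun _ : Q => Finset.range (e + 1))).filter
        (fun E => ∑ w, n w * E w = e), ∏ w : Q, VS 𝔐 ℓ ι κ ρ (vg ρ p φ J w.1) (β w.1) (E w) := by
    have hE' : ∀ E : Q → ℕ, ∏ w : Q, VS 𝔐 ℓ ι κ ρ (vg ρ p φ J w.1) (β w.1) (E w) =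
        ∑ τ ∈ ClCh Q G ℓ, (-1 : ℚ) ^ τ.card *
          ∑ θ ∈ Fintype.piFinset (fun w => irrOn (stb (comp τ w))),
            ∏ w, ((Nat.card (stb (comp τ w)) : ℚ) *
        (if vg ρ p φ J w.1 ≤ (Stx κ (comp τ w) (θ w)).map ρ ∧
          df ℓ (stb (comp τ w)) (θ w) = E w ∧
          bet 𝔐 ι κ ρ (comp τ w) (θ w) (vg ρ p φ J w.1) = β w.1 then 1 else 0)) := by
      intro E
      exact (h6 Q G ℓ (fun w σ ψ => (Nat.card (stb σ) : ℚ) *
        (if vg ρ p φ J w.1 ≤ (Stx κ σ ψ).map ρ ∧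
          df ℓ (stb σ) ψ = E w ∧
          bet 𝔐 ι κ ρ σ ψ (vg ρ p φ J w.1) = β w.1 then 1 else 0))).symm
    simp_rw [hE']
    rw [Finset.sum_comm]
    refine Finset.sum_congr rfl fun τ _ => ?_
    rw [Finset.sum_congr rfl (fun θ _ => hD _ _), Finset.sum_comm, Finset.mul_sum]
  rw [hD']
  refine Finset.sum_eq_zero fun E _ => ?_
  refine Finset.prod_eq_zero (Finset.mem_univ (q o₀)) ?_
  apply hVS
  intro hdz
  apply ho₀
  rw [← hcomp o₀]
  exact TJ.dzT_transport 𝔐 ℓ hL.cl _ hdz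

end Pool.Agent.DP


end
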