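import Mathlib
import Pool.Agent.DAM.C02
import Pool.Agent.DAM.C11
import Pool.Agent.DAM.C13
import Pool.Agent.DAM.C14
import Pool.Agent.DAM.C22
import Pool.Agent.DAM.C43

/-! Parts: DPM.FINA, DPX.KBX, DPX.COMX -/

section

/-!
# The structure of a minimal counterexample
-/

namespace Pool.Agent.DPM

open Pool.Agent.DP Pool.Agent.DPC Pool.Agent.Lib_helper13 Representation
open Pool.Agent.Lib_helper13.Dade (pCore DadeHolds dadeSum)

namespace FINA

theorem HQ.mono {ℓ m n : ℕ} (h : HQ ℓ n) (hmn : m ≤ n) : HQ ℓ m :=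
  fun Y _ _ h1 h2 => h Y h1 (h2.trans hmn)

theorem le_pCore {H : Type*} [Group H] (ℓ : ℕ) (N : Subgroup H) (hn : N.Normal)
    (hN : IsPGroup ℓ N) : N ≤ pCore ℓ H :=
  le_sSup ⟨hn, hN⟩

/-- A subgroup of the centre has order prime to `ℓ`. -/
theorem not_dvd_center {G : Type*} [Group G] [Finite G] {ℓ : ℕ} [Fact ℓ.Prime]
    (h : pCore ℓ G = ⊥) (Z : Subgroup G) (hZ : Z ≤ Subgroup.center G) : ¬ ℓ ∣ Nat.card Z := by
  intro hd
  obtain ⟨z, hz⟩ := exists_prime_orderOf_dvd_card' (G := Z) ℓ hd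
  have hn : (Subgroup.zpowers (z : G)).Normal := by
    refine ⟨fun x hx g => ?_⟩
    have hx' : x ∈ Subgroup.center G := by
      have h1 : Subgroup.zpowers (z : G) ≤ Subgroup.center G := by
        rw [Subgroup.zpowers_le]
        exact hZ z.2
      exact h1 hx
    have h2 : g * x * g⁻¹ = x := by
      rw [Subgroup.mem_center_iff.mp hx' g, mul_inv_cancel_right]
    rw [h2]
    exact hx
  have ho : orderOf (z : G) = ℓ := by
    rw [Subgroup.orderOf_coe, hz]
  have hp : IsPGroup ℓ (Subgroup.zpowers (z : G)) := by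
    apply IsPGroup.of_card (n := 1)
    rw [Nat.card_zpowers, ho, pow_one]
  have h3 : Subgroup.zpowers (z : G) ≤ ⊥ := h ▸ le_pCore ℓ _ hn hp
  have h4 : (z : G) = 1 := Subgroup.mem_bot.mp (h3 (Subgroup.mem_zpowers _))
  rw [h4, orderOf_one] at ho
  exact (Fact.out : ℓ.Prime).ne_one ho.symm

/-- Characters of a group of order prime to `ℓ` have defect zero. -/
theorem defect_zero {Y : Type*} [Group Y] [Fintype Y] {ℓ : ℕ} (h : ¬ ℓ ∣ Nat.card Y)
    {ξ : Y → ℂ} (hξ : IsIrr ξ) : HasDefect ℓ ξ 0 := by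
  obtain ⟨n, hn, hn'⟩ := hξ.exists_degree
  refine ⟨n, hn', ?_⟩
  have h1 := hξ.degree_dvd hn'
  rw [padicValNat.eq_zero_of_not_dvd h, padicValNat.eq_zero_of_not_dvd fun h2 => h (h2.trans h1)]

variable (𝔐 : Ideal (integralClosure ℤ ℂ))

theorem cen_aut {Y : Type*} [Group Y] [Fintype Y] (e : Y ≃* Y) (ψ : Y → ℂ) (g : Y) :
    cen 𝔐 (MonoidHom.id Y) (fun y => ψ (e y)) g = cen 𝔐 (MonoidHom.id Y) ψ (e g) := by
  rw [cen, cen, ← wt_comp_equiv e ψ (fun y => conjInd (MonoidHom.id Y y) (e g))]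
  congr 2
  funext y
  apply conjInd_congr
  rw [MonoidHom.id_apply, MonoidHom.id_apply, isConj_iff, isConj_iff]
  constructor
  · rintro ⟨c, hc⟩
    exact ⟨e c, by rw [← map_inv, ← map_mul, ← map_mul, hc]⟩
  · rintro ⟨c, hc⟩
    refine ⟨e.symm c, e.injective ?_⟩
    rw [map_mul, map_mul, map_inv, e.apply_symm_apply, hc]

/-- The core of the quotient by the preimage of the core is trivial. -/
theorem core_quot {G H K : Type*} [Group G] [Group H] [Finite H] [Group K] {ℓ : ℕ}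
    [Fact ℓ.Prime] (p : G →* H) (hp : Function.Surjective p) (q : G →* K)
    (hq : Function.Surjective q) (hqk : ∀ x, q x = 1 ↔ p x ∈ pCore ℓ H) : pCore ℓ K = ⊥ := by
  rw [eq_bot_iff]
  apply sSup_le
  rintro N ⟨hN1, hN2⟩ y hy
  rw [Subgroup.mem_bot]
  obtain ⟨x, rfl⟩ := hq y
  rw [hqk]
  have h1 : ((N.comap q).map p).Normal := (hN1.comap q).map p hp
  have h2 : IsPGroup ℓ ((N.comap q).map p) := by
    rintro ⟨z, hz⟩
    obtain ⟨w, hw, hwz⟩ := hz
    obtain ⟨k, hk⟩ := hN2 ⟨q w, hw⟩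
    have h3 : q (w ^ ℓ ^ k) = 1 := by
      rw [map_pow]
      exact congrArg Subtype.val hk
    rw [hqk] at h3
    obtain ⟨l, hl⟩ := isPGroup_pCore (G := H) ℓ ⟨_, h3⟩
    refine ⟨k + l, Subtype.ext ?_⟩
    have h4 : (p (w ^ ℓ ^ k)) ^ ℓ ^ l = 1 := congrArg Subtype.val hl
    change z ^ ℓ ^ (k + l) = 1
    rw [← hwz, pow_add, pow_mul, ← map_pow, h4]
  exact le_pCore ℓ _ h1 h2 ⟨x, hy, rfl⟩

section

variable {X H : Type} [Group X] [Fintype X] [Group H] [Fintype H]

open Classical in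
/-- An invariant pair with a nonvanishing Moebius sum. -/
theorem pair (h1 : Stmt_PHV) (h2 : Stmt_PHT) (h3 : Stmt_ZCM) (h5 : Stmt_EXPA) {ℓ : ℕ}
    [Fact ℓ.Prime] (hM : 𝔐.IsMaximal) (hℓ : (ℓ : integralClosure ℤ ℂ) ∈ 𝔐)
    (hcore : pCore ℓ X = ⊥) (hHQ : HQ ℓ ((Subgroup.center X).index - 1)) (M : Subgroup X)
    [M.Normal] (p : X →* H) (hp : Function.Surjective p) (hpk : ∀ x, p x = 1 ↔ x ∈ M)
    {χ : X → ℂ} {ξ : M → ℂ} {d : ℕ} (hχ : IsIrr χ) (hsum : dadeSum 𝔐 ℓ χ d ≠ 0)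
    (hξ : IsIrr ξ) (hip : ip (resj M.subtype χ) ξ ≠ 0) (hdef : ¬ HasDefect ℓ ξ 0)
    (hunq : Unq 𝔐 M ξ χ) (m : Subgroup H → ℚ) (hm : Mob m) :
    ∃ (A T : Type) (_ : Group A) (_ : Fintype A) (_ : Group T) (_ : Fintype T) (j : A →* T)
      (c : T →* MulAut A) (pT : T →* H) (θ : A → ℂ) (ξ1 : M → ℂ),
      ClG j c pT ∧ Function.Surjective pT ∧ IsIrr θ ∧ (∀ t a, θ (c t a) = θ a) ∧
      ∑ V, m V * ((Nat.card V : ℚ) * Nat.card {ψ : ↥(V.comap pT) → ℂ // IsIrr ψ ∧
        ip (fun a : A => ext0 ψ (j a)) θ ≠ 0 ∧ HasDefect ℓ ψ d}) ≠ 0 ∧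
      IsIrr ξ1 ∧ (∀ g ∈ M, cen 𝔐 M.subtype ξ1 g = cen 𝔐 (MonoidHom.id X) χ g) ∧
      ∀ x : X, cen 𝔐 (MonoidHom.id M) (fun m : M => ξ1 (MulAut.conjNormal x m)) =
        cen 𝔐 (MonoidHom.id M) ξ1 := by
  have hZ := h3 X 𝔐 ℓ hM hℓ hcore M χ ξ hχ hξ hip hunq
  have hKK : KK 𝔐 ℓ d (⊥ : Subgroup X) (cen 𝔐 (MonoidHom.id X) χ) ≠ 0 := by
    have hpr : 𝔐.IsPrime := hM.isPrime
    have h6 := dadeSum_eq 𝔐 ℓ d hχ
    rw [hcore] at h6
    rw [← h6]
    refine mul_ne_zero (Nat.cast_ne_zero.mpr Nat.card_pos.ne') ?_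
    exact_mod_cast hsum
  exact h5 X H 𝔐 ℓ hM hℓ M p hp hpk d (cen 𝔐 (MonoidHom.id X) χ)
    (fun V hV => h1 X H 𝔐 ℓ hM hℓ hHQ M p hp hpk hZ χ ξ hχ hξ hip hdef V hV d)
    (h2 X 𝔐 ℓ hM hℓ hcore hHQ M χ ξ hχ hξ hip hdef hunq d hKK) m hm

end

end FINA

open _root_.Pool.Agent.DPM.FINA in
theorem FINA_thm (h1 : Stmt_PHV) (h2 : Stmt_PHT) (h3 : Stmt_ZCM) (h4 : Stmt_MPR)
    (h5 : Stmt_EXPA) (h6 : Stmt_TOP) (h7 : Stmt_CVX) (h8 : Stmt_RCE) (h9 : Stmt_MOBX) :
    Stmt_FINA := by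
  classical
  intro X _ _ 𝔐 ℓ _ hM hℓ hcore hHQ M _ χ ξ d hχ hsum hξ hip hdef hunq
  constructor
  · -- stability
    let fH : Fintype (X ⧸ M) := Fintype.ofFinite _
    obtain ⟨m, hm⟩ := (h9 (X ⧸ M)).1
    have hpk : ∀ x : X, QuotientGroup.mk' M x = 1 ↔ x ∈ M := fun x => by
      rw [← MonoidHom.mem_ker, QuotientGroup.ker_mk']
    obtain ⟨A, T, _, _, _, _, j, c, pT, θ, ξ1, -, -, -, -, -, k1, k2, k3⟩ :=
      FINA.pair 𝔐 h1 h2 h3 h5 hM hℓ hcore hHQ M (QuotientGroup.mk' M)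
        (QuotientGroup.mk'_surjective M) hpk hχ hsum hξ hip hdef hunq m hm
    have hcl : ClG M.subtype (MulAut.conjNormal (H := M)) (QuotientGroup.mk' M) := by
      refine ⟨M.subtype_injective, ?_, ?_⟩
      · intro y a
        rfl
      · intro y
        rw [hpk, Subgroup.range_subtype]
    have hr := h8 M X (X ⧸ M) X 𝔐 M.subtype (MulAut.conjNormal (H := M)) (QuotientGroup.mk' M)
      hcl (MonoidHom.id X) M inferInstance (fun t ht => by
        rw [Subgroup.range_subtype]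
        exact ht) χ ξ hχ hξ hip
    obtain ⟨x, -, k4, -⟩ := h7 X 𝔐 ℓ hM hℓ M ξ ξ1 hξ k1 (by
      intro g hg
      rw [k2 g hg, hr g hg, MonoidHom.id_comp])
    have h10 : cen 𝔐 (MonoidHom.id M) ξ = cen 𝔐 (MonoidHom.id M) ξ1 := by
      rw [← k4, k3 x]
    intro y
    funext g
    have h11 := cen_aut 𝔐 (MulAut.conjNormal y : M ≃* M) ξ g
    have h12 := cen_aut 𝔐 (MulAut.conjNormal y : M ≃* M) ξ1 g
    rw [h11, h10, ← h12, k3 y]
  · -- the quotient
    let P : Subgroup X := (pCore ℓ (X ⧸ M)).comap (QuotientGroup.mk' M)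
    have hPn : P.Normal := (pCore_normal ℓ).comap _
    have hpM : ∀ x : X, QuotientGroup.mk' M x = 1 ↔ x ∈ M := fun x => by
      rw [← MonoidHom.mem_ker, QuotientGroup.ker_mk']
    have hMP : M ≤ P := by
      intro x hx
      rw [Subgroup.mem_comap, (hpM x).mpr hx]
      exact one_mem _
    have hpP : ∀ x : X, QuotientGroup.mk' P x = 1 ↔ x ∈ P := fun x => by
      rw [← MonoidHom.mem_ker, QuotientGroup.ker_mk']
    obtain ⟨ξ', k1, k2, k3, k4⟩ := h4 X 𝔐 ℓ hM hℓ M P hMP χ ξ hχ hξ hip hdef hunq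
    let fH : Fintype (X ⧸ P) := Fintype.ofFinite _
    have hcP : pCore ℓ (X ⧸ P) = ⊥ :=
      core_quot (QuotientGroup.mk' M) (QuotientGroup.mk'_surjective M) (QuotientGroup.mk' P)
        (QuotientGroup.mk'_surjective P) hpP
    obtain ⟨m, hm⟩ := (h9 (X ⧸ P)).1
    obtain ⟨A, T, _, _, _, _, j, c, pT, θ, ξ1, l1, l2, l3, l4, l5, -, -, -⟩ :=
      FINA.pair 𝔐 h1 h2 h3 h5 hM hℓ hcore hHQ P (QuotientGroup.mk' P)
        (QuotientGroup.mk'_surjective P) hpP hχ hsum k1 k2 k3 k4 m hm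
    have hZ : Subgroup.center X ≤ M := h3 X 𝔐 ℓ hM hℓ hcore M χ ξ hχ hξ hip hunq
    have hZM : Subgroup.center X < M := by
      refine lt_of_le_of_ne hZ ?_
      rintro rfl
      exact hdef (defect_zero (not_dvd_center hcore _ le_rfl) hξ)
    have hZP : Subgroup.center X < P := lt_of_lt_of_le hZM hMP
    have hidx : P.index < (Subgroup.center X).index := Subgroup.index_strictAnti hZP
    have hcard : Nat.card (X ⧸ P) = P.index := rfl
    obtain ⟨x, y, hxy, hcl⟩ := h6 A T (X ⧸ P) 𝔐 ℓ hM hℓ j c pT l1 l2 hcP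
      (HQ.mono hHQ (by rw [hcard]; omega)) θ l3 l4 d m hm l5
    -- the quotient is abelian
    have hcomm : ∀ a b : X ⧸ P, a * b = b * a := by
      have h10 : ∀ a ∈ Subgroup.closure ({x, y} : Set (X ⧸ P)),
          ∀ b ∈ Subgroup.closure ({x, y} : Set (X ⧸ P)), a * b = b * a := by
        have h11 : ∀ a ∈ ({x, y} : Set (X ⧸ P)), ∀ b ∈ ({x, y} : Set (X ⧸ P)),
            a * b = b * a := by
          intro a ha b hb
          rcases ha with rfl | ha
          · rcases hb with rfl | hb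
            · rfl
            · rw [Set.mem_singleton_iff.mp hb]
              exact hxy
          · rw [Set.mem_singleton_iff] at ha
            subst ha
            rcases hb with rfl | hb
            · exact hxy.symm
            · rw [Set.mem_singleton_iff.mp hb]
        have h12 : Subgroup.closure ({x, y} : Set (X ⧸ P)) ≤
            Subgroup.centralizer ({x, y} : Set (X ⧸ P)) := by
          rw [Subgroup.closure_le]
          intro a ha
          rw [SetLike.mem_coe, Subgroup.mem_centralizer_iff]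
          intro b hb
          exact h11 b hb a ha
        have h13 : Subgroup.closure ({x, y} : Set (X ⧸ P)) ≤
            Subgroup.centralizer (Subgroup.closure ({x, y} : Set (X ⧸ P)) : Set (X ⧸ P)) := by
          rw [Subgroup.closure_le]
          intro a ha
          rw [SetLike.mem_coe, Subgroup.mem_centralizer_iff]
          intro b hb
          exact ((Subgroup.mem_centralizer_iff.mp (h12 hb)) a ha).symm
        intro a ha b hb
        exact (Subgroup.mem_centralizer_iff.mp (h13 hb)) a ha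
      intro a b
      exact h10 a (by rw [hcl]; exact Subgroup.mem_top _) b (by rw [hcl]; exact Subgroup.mem_top _)
    refine ⟨P, hPn, hMP, ?_, ?_, ?_, ?_⟩
    · intro z hz
      obtain ⟨k, hk⟩ := isPGroup_pCore (G := X ⧸ M) ℓ ⟨_, hz⟩
      refine ⟨k, ?_⟩
      rw [← hpM, map_pow]
      exact congrArg Subtype.val hk
    · intro hd
      have htop : (⊤ : Subgroup (X ⧸ P)) ≤ Subgroup.center (X ⧸ P) := by
        intro a _
        rw [Subgroup.mem_center_iff]
        intro b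
        exact hcomm b a
      apply not_dvd_center hcP ⊤ htop
      rw [Subgroup.card_top, hcard]
      exact hd
    · intro a b
      rw [← hpP, map_mul, map_mul, map_mul, map_inv, map_inv, hcomm (QuotientGroup.mk' P a),
        mul_inv_cancel_right, mul_inv_cancel]
    · obtain ⟨a, rfl⟩ := QuotientGroup.mk'_surjective P x
      obtain ⟨b, rfl⟩ := QuotientGroup.mk'_surjective P y
      refine ⟨a, b, ?_⟩
      rw [eq_top_iff]
      intro z _
      have h10 : QuotientGroup.mk' P z ∈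
          (Subgroup.closure ({a, b} : Set X)).map (QuotientGroup.mk' P) := by
        rw [MonoidHom.map_closure, Set.image_pair, hcl]
        exact Subgroup.mem_top _
      obtain ⟨w, hw, hwz⟩ := h10
      have h11 : w⁻¹ * z ∈ P := by
        rw [← hpP, map_mul, map_inv, hwz, inv_mul_cancel]
      have h12 : z = w * (w⁻¹ * z) := by group
      rw [h12]
      exact Subgroup.mul_mem_sup hw h11

end Pool.Agent.DPM


end

section

/-!
# KBX: at most one irreducible representation of the local block occurs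
-/

namespace Pool.Agent.DPX

open Pool.Agent.DPB Pool.Agent.DPW Pool.Agent.Lib_helper13 Representation

namespace KBX

section Lin

variable {F H V W V' : Type} [Field F] [Group H] [Fintype H] [AddCommGroup V] [Module F V]
  [AddCommGroup W] [Module F W] [AddCommGroup V'] [Module F V']

theorem zop_apply (ρ : Representation F H V) (z : H → F) (v : V) :
    Zop ρ z v = ∑ h, z h • ρ h v := by
  unfold Zop
  rw [LinearMap.sum_apply]
  rfl

theorem zop_eqv (σ : Representation F H W) (ρ : Representation F H V) (z : H → F)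
    (j : W →ₗ[F] V) (hj : Eqv σ ρ j) (w : W) : Zop ρ z (j w) = j (Zop σ z w) := by
  rw [zop_apply, zop_apply, map_sum]
  refine Finset.sum_congr rfl fun h _ => ?_
  rw [map_smul, hj h w]

theorem tr1_apply (σ : Representation F H W) (ρ : Representation F H V) (f : W →ₗ[F] V) (w : W) :
    tr1 σ ρ f w = ∑ h, ρ h (f (σ h⁻¹ w)) := by
  unfold tr1
  rw [LinearMap.sum_apply]
  rfl

/-- The composition of a trace with a homomorphism is a trace. -/
theorem tr1_comp (σ : Representation F H W) (ρ : Representation F H V)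
    (ρ' : Representation F H V') (g : V →ₗ[F] V') (j : W →ₗ[F] V) (hj : Eqv σ ρ j) (w : W) :
    tr1 ρ ρ' g (j w) = tr1 σ ρ' (g ∘ₗ j) w := by
  rw [tr1_apply, tr1_apply]
  refine Finset.sum_congr rfl fun h _ => ?_
  rw [LinearMap.comp_apply, hj]

theorem tr1_smul (σ : Representation F H W) (ρ : Representation F H V) (a : F)
    (f : W →ₗ[F] V) : tr1 σ ρ (a • f) = a • tr1 σ ρ f := by
  ext w
  rw [LinearMap.smul_apply, tr1_apply, tr1_apply, Finset.smul_sum]
  refine Finset.sum_congr rfl fun h _ => ?_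
  rw [LinearMap.smul_apply, map_smul]

theorem tr1_zero (σ : Representation F H W) (ρ : Representation F H V) :
    tr1 σ ρ (0 : W →ₗ[F] V) = 0 := by
  ext w
  rw [tr1_apply]
  simp

end Lin

/-- The centralizing element is in the normalizer. -/
theorem mem_norm {ℓ n : ℕ} {T : Type} [Group T] {P₁ P : Subgroup T} {x₀ : T}
    (h : CycD ℓ n P₁ P x₀) : x₀ ∈ Subgroup.normalizer (P₁ : Set T) := by
  rw [Subgroup.mem_normalizer_iff]
  intro u
  have key : ∀ v ∈ P₁, x₀ * v * x₀⁻¹ = v := by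
    intro v hv
    rw [← h.cen v (h.le hv), mul_assoc, mul_inv_cancel, mul_one]
  constructor
  · intro hu
    rw [key u hu]
    exact hu
  · intro hu
    have h1 := key _ hu
    have e1 : x₀ * u * x₀⁻¹ = u := by
      have e2 : x₀ * (x₀ * u * x₀⁻¹) * x₀⁻¹ = x₀ * u * x₀⁻¹ := h1
      exact mul_left_cancel (a := x₀) (mul_right_cancel (b := x₀⁻¹) e2)
    rw [e1] at hu
    exact hu

/-- The support of the image under the Brauer homomorphism. -/
theorem brz_supp {F T : Type} [Field F] [Group T] (P₁ : Subgroup T) (e : T → F) :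
    ∀ h : NP P₁, brz P₁ e h ≠ 0 → h ∈ Subgroup.centralizer
      ((P₁.subgroupOf (Subgroup.normalizer (P₁ : Set T)) : Subgroup (NP P₁)) : Set (NP P₁)) := by
  classical
  intro h hh
  have h1 : (h : T) ∈ Subgroup.centralizer (P₁ : Set T) := by
    by_contra h2
    apply hh
    unfold brz
    rw [if_neg h2]
  rw [Subgroup.mem_centralizer_iff] at h1 ⊢
  intro u hu
  exact Subtype.ext (h1 (u : T) (Subgroup.mem_subgroupOf.mp hu))

end KBX

open _root_.Pool.Agent.DPX.KBX in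
open Pool.Agent.DPB.KB in
/-- KBX: at most one irreducible representation of the local block occurs. -/
theorem KBX_thm (h1 : Stmt_BKNX) (h2 : Stmt_PRMX) (h3 : Stmt_UNX) (h4 : Stmt_TRFX) :
    Stmt_KBX := by
  intro ℓ n _ F T V W W' _ _ _ _ _ _ _ _ _ _ _ _ _ _ P₁ P _ x₀ e hB hPrm hN ρ σ σ'
    hρ hσ hσ' hz hz' hE hE'
  by_contra hne
  have hnorm : (P₁.subgroupOf (Subgroup.normalizer (P₁ : Set T))).Normal :=
    Subgroup.normal_in_normalizer
  have hx := mem_norm hB.cd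
  have hBN := ((h1.2 ℓ n F T P₁ P x₀ e hB).2 hx).2
  have hPN : Prm (brz P₁ e) := h2 ℓ n F T P₁ P x₀ e hB hPrm
  obtain ⟨j, hj, hjP⟩ := hE
  obtain ⟨j', hj', hjP'⟩ := hE'
  have hj0 : j ≠ 0 := by
    intro h
    exact hjP ⟨0, by rw [h, tr1_zero]⟩
  have key : ∃ f : V →ₗ[F] V, Eqv (rN P₁ ρ) (rN P₁ ρ) f ∧
      Zop (rN P₁ ρ) (brz P₁ e) ∘ₗ f = f ∧ f ∘ₗ j = j ∧
        ∀ (W2 : Type) [AddCommGroup W2] [Module F W2] [Module.Finite F W2]
          (τ : Representation F (NP P₁) W2) (k : W2 →ₗ[F] V), τ.IsIrreducible →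
          Eqv τ (rN P₁ ρ) k → (∀ g : W2 →ₗ[F] W, Eqv τ σ g → g = 0) → f ∘ₗ k = 0 := by
    rcases h3 ℓ n F (NP P₁) V V W _ _ ⟨x₀, hx⟩ (brz P₁ e) hBN hPN (brz_supp P₁ e) hN
      (rN P₁ ρ) (rN P₁ ρ) σ hσ hz j j hj0 hj0 hj hj with h | h
    · exact h
    · exact h
  obtain ⟨f, hf, hfe, hfj, hfk⟩ := key
  have hfj' : f ∘ₗ j' = 0 := by
    refine hfk W' σ' j' hσ' hj' ?_
    intro g hg
    exact eqv_zero σ' σ hσ' hσ (fun e => hne e.symm) g hg
  obtain ⟨Ψ, hΨ, g, hg⟩ := h4 ℓ n F T V V P₁ P x₀ e hB ρ ρ f hf hfe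
  obtain ⟨c, hc⟩ := exists_scalar ρ hρ Ψ hΨ
  have e1 : ∀ w, c • j w = j w + tr1 σ (rN P₁ ρ) (g ∘ₗ j) w := by
    intro w
    have h5 := congrArg (fun φ : V →ₗ[F] V => φ (j w)) hg
    change Zop (rN P₁ ρ) (brz P₁ e) (Ψ (j w)) = f (j w) + tr1 (rN P₁ ρ) (rN P₁ ρ) g (j w) at h5
    rw [hc, map_smul, zop_eqv σ (rN P₁ ρ) (brz P₁ e) j hj w, hz, Module.End.one_apply,
      tr1_comp σ (rN P₁ ρ) (rN P₁ ρ) g j hj w] at h5
    have h6 : f (j w) = j w := congrArg (fun φ : W →ₗ[F] V => φ w) hfj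
    rw [h6] at h5
    exact h5
  have e2 : ∀ w, c • j' w = tr1 σ' (rN P₁ ρ) (g ∘ₗ j') w := by
    intro w
    have h5 := congrArg (fun φ : V →ₗ[F] V => φ (j' w)) hg
    change Zop (rN P₁ ρ) (brz P₁ e) (Ψ (j' w)) = f (j' w) + tr1 (rN P₁ ρ) (rN P₁ ρ) g (j' w) at h5
    rw [hc, map_smul, zop_eqv σ' (rN P₁ ρ) (brz P₁ e) j' hj' w, hz', Module.End.one_apply,
      tr1_comp σ' (rN P₁ ρ) (rN P₁ ρ) g j' hj' w] at h5
    have h6 : f (j' w) = 0 := congrArg (fun φ : W' →ₗ[F] V => φ w) hfj'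
    rw [h6, zero_add] at h5
    exact h5
  have hc1 : c = 1 := by
    by_contra hc1
    apply hjP
    refine ⟨(c - 1)⁻¹ • (g ∘ₗ j), ?_⟩
    ext w
    rw [tr1_smul, LinearMap.smul_apply]
    have h5 : tr1 σ (rN P₁ ρ) (g ∘ₗ j) w = (c - 1) • j w := by
      rw [sub_smul, one_smul, e1 w, add_sub_cancel_left]
    rw [h5, smul_smul, inv_mul_cancel₀ (sub_ne_zero.2 hc1), one_smul]
  apply hjP'
  refine ⟨g ∘ₗ j', ?_⟩
  ext w
  rw [← e2 w, hc1, one_smul]

end Pool.Agent.DPX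


end

section

/-!
# COMX: a combinatorial lemma
-/

namespace Pool.Agent.DPX

namespace COMX

/-- the possible multiplicities -/
theorem cases {s u t r : ℤ} (hs : 1 ≤ s) (hu : 1 ≤ u) (ht : t ≤ u)
    (hsu : s + u = r) (hr : 3 ≤ r) (h : s * (4 * u - 3 * t) < r + 1) :
    t = u ∧ (s = 1 ∨ u = 1 ∨ (s = 2 ∧ u = 2)) := by
  have h1 : s * u ≤ s + u := by nlinarith
  have h2 : s = 1 ∨ u = 1 ∨ (s = 2 ∧ u = 2) := by
    rcases eq_or_lt_of_le hs with h3 | h3
    · exact Or.inl h3.symm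
    rcases eq_or_lt_of_le hu with h4 | h4
    · exact Or.inr (Or.inl h4.symm)
    have h5 : (s - 1) * (u - 1) ≤ 1 := by nlinarith
    have h6 : s ≤ 2 := by nlinarith
    have h7 : u ≤ 2 := by nlinarith
    exact Or.inr (Or.inr ⟨by omega, by omega⟩)
  refine ⟨?_, h2⟩
  rcases h2 with rfl | rfl | ⟨rfl, rfl⟩
  · omega
  · by_contra h3
    have h4 : t ≤ 0 := by omega
    nlinarith
  · omega

/-- the arithmetic part -/
theorem arith {ℓ e r s u t v A L S1 S2 N Q : ℤ} (hℓ : 2 ≤ ℓ) (he : 0 < e) (hel : e < ℓ)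
    (hr : ℓ + 1 ≤ r) (hL : L = e * r + 1) (hN : N = e * r) (hs : 1 ≤ s) (hu : 0 ≤ u) (ht : t ≤ u)
    (hsu : s + u = r)
    (hQ : Q = (N * S2 - S1 ^ 2) + (S2 + 2 * v * S1 + N * v ^ 2))
    (hpos : 0 ≤ S2 + 2 * v * S1 + N * v ^ 2)
    (hCS : S1 ^ 2 ≤ e * u * S2) (hS2 : e * (4 * u - 3 * t) ≤ S2)
    (h0 : u = 0 → S1 = 0 ∧ S2 = 0) (h1 : t = u → S1 = e * t ∧ S2 = e * t)
    (hQ0 : 0 < Q) (hQ1 : Q < e * L) (hdl : ℓ ∣ L)
    (hpr : ∀ x y : ℤ, ℓ ∣ x * y → ℓ ∣ x ∨ ℓ ∣ y) : ¬ ℓ ∣ S1 + N * v + L * A := by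
  intro hd
  have hd' : ℓ ∣ S1 + N * v := (dvd_add_left (hdl.mul_right A)).mp hd
  have hne : ¬ ℓ ∣ e := by
    intro h
    have := Int.le_of_dvd he h
    omega
  rcases eq_or_lt_of_le hu with hu0 | hu0
  · obtain ⟨e1, e2⟩ := h0 hu0.symm
    rw [e1, e2] at hQ
    have hQ' : Q = e * (r * v ^ 2) := by rw [hQ, hN]; ring
    rw [e1, zero_add, hN] at hd'
    have hnr : ¬ ℓ ∣ r := by
      intro h
      have h2 : ℓ ∣ 1 := by
        have h3 : ℓ ∣ L - e * r := dvd_sub hdl (h.mul_left e)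
        rw [hL] at h3
        simpa using h3
      have := Int.le_of_dvd one_pos h2
      omega
    have hv : ℓ ∣ v := by
      rcases hpr _ _ hd' with h | h
      · rcases hpr _ _ h with h | h
        · exact absurd h hne
        · exact absurd h hnr
      · exact h
    have h2 : r * v ^ 2 < L := by
      rw [hQ'] at hQ1
      exact lt_of_mul_lt_mul_left hQ1 he.le
    have h3 : v ^ 2 ≤ e := by
      by_contra h4
      push Not at h4
      have h5 : e + 1 ≤ v ^ 2 := h4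
      have : r * (e + 1) ≤ r * v ^ 2 := mul_le_mul_of_nonneg_left h5 (by omega)
      rw [hL] at h2
      nlinarith
    obtain ⟨k, hk⟩ := hv
    have hv0 : v = 0 := by
      by_contra hv0
      have hk0 : k ≠ 0 := by
        rintro rfl
        exact hv0 (by rw [hk, mul_zero])
      have hk1 : 1 ≤ k ^ 2 := by
        have := sq_pos_of_ne_zero hk0
        omega
      have h5 : ℓ ^ 2 ≤ v ^ 2 := by
        rw [hk, mul_pow]
        nlinarith [sq_nonneg ℓ]
      nlinarith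
    rw [hQ', hv0] at hQ0
    simp at hQ0
  · have hu1 : 1 ≤ u := hu0
    have hX : s * (4 * u - 3 * t) < r + 1 := by
      have g1 : e * s * (e * (4 * u - 3 * t)) ≤ e * s * S2 :=
        mul_le_mul_of_nonneg_left hS2 (by positivity)
      have g2 : e * s * S2 ≤ N * S2 - S1 ^ 2 := by
        have : N * S2 = e * s * S2 + e * u * S2 := by rw [hN, ← hsu]; ring
        linarith
      have g3 : e ^ 2 * (s * (4 * u - 3 * t)) < e ^ 2 * r + e := by
        have e3 : e * L = e ^ 2 * r + e := by rw [hL]; ring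
        nlinarith
      by_contra h4
      push Not at h4
      have h5 : e ^ 2 * (r + 1) ≤ e ^ 2 * (s * (4 * u - 3 * t)) :=
        mul_le_mul_of_nonneg_left h4 (by positivity)
      nlinarith
    obtain ⟨htu, hc⟩ := cases hs hu1 ht hsu (by omega) hX
    obtain ⟨e1, e2⟩ := h1 htu
    rw [htu] at e1 e2
    have hQ' : Q = e * (e * (s * u) + s * v ^ 2 + u * (v + 1) ^ 2) := by
      rw [hQ, hN, e1, e2, ← hsu]; ring
    have h2 : e * (s * u) + s * v ^ 2 + u * (v + 1) ^ 2 < L := by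
      rw [hQ'] at hQ1
      exact lt_of_mul_lt_mul_left hQ1 he.le
    rw [hL, ← hsu] at h2
    have hd2 : ℓ ∣ e * (u + r * v) := by
      have : S1 + N * v = e * (u + r * v) := by rw [e1, hN]; ring
      rwa [this] at hd'
    have hd3 : ℓ ∣ u + r * v := (hpr _ _ hd2).resolve_left hne
    rcases hc with rfl | rfl | ⟨rfl, rfl⟩
    · -- `s = 1`
      have h3 : v ^ 2 + u * (v + 1) ^ 2 ≤ e := by nlinarith
      have h4 : (v + 1) ^ 2 = 0 := by
        by_contra h5
        have h6 : 1 ≤ (v + 1) ^ 2 := by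
          have := sq_nonneg (v + 1)
          omega
        nlinarith [sq_nonneg v]
      have h5 : v = -1 := by
        have := pow_eq_zero_iff (two_ne_zero) |>.mp h4
        omega
      rw [h5, ← hsu] at hd3
      have h6 : ℓ ∣ 1 := by
        have : u + (1 + u) * -1 = -1 := by ring
        rw [this] at hd3
        exact (dvd_neg.mp hd3)
      have := Int.le_of_dvd one_pos h6
      omega
    · have h3 : s * v ^ 2 + (v + 1) ^ 2 ≤ e := by nlinarith
      have h4 : v ^ 2 = 0 := by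
        by_contra h5
        have h6 : 1 ≤ v ^ 2 := by
          have := sq_nonneg v
          omega
        nlinarith [sq_nonneg (v + 1)]
      have h5 : v = 0 := pow_eq_zero_iff (two_ne_zero) |>.mp h4
      rw [h5, mul_zero, add_zero] at hd3
      have := Int.le_of_dvd one_pos hd3
      omega
    · have h3 : v ^ 2 + (v + 1) ^ 2 ≤ 0 := by nlinarith
      have h4 : v ^ 2 = 0 := by nlinarith [sq_nonneg v, sq_nonneg (v + 1)]
      have h5 : v = 0 := pow_eq_zero_iff (two_ne_zero) |>.mp h4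
      rw [h5] at h3
      norm_num at h3

end COMX

/-- COMX: a combinatorial lemma. -/
theorem COMX_thm : Stmt_COMX := by
  classical
  intro ℓ n e hℓf hn he hel I _ hI i₀ a hfib hQ0 hQ1 hdvd
  have hℓ : ℓ.Prime := hℓf.out
  have hℓ2 := hℓ.two_le
  have hel1 : e ≤ ℓ - 1 := Nat.le_of_dvd (by omega) hel
  -- `r`
  obtain ⟨r, hr⟩ : e ∣ ℓ ^ n - 1 := by
    have h1 : ℓ - 1 ∣ ℓ ^ n - 1 := by
      have := Nat.sub_dvd_pow_sub_pow ℓ 1 n
      rwa [one_pow] at this
    exact hel.trans h1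
  have hpow : ℓ ^ n = e * r + 1 := by
    have : 0 < ℓ ^ n := pow_pos hℓ.pos n
    omega
  have hr1 : ℓ + 1 ≤ r := by
    by_contra h
    push Not at h
    have h1 : r ≤ ℓ := by omega
    have h2 : ℓ ^ 2 ≤ ℓ ^ n := Nat.pow_le_pow_right hℓ.pos hn
    have h3 : e * r ≤ (ℓ - 1) * ℓ := Nat.mul_le_mul hel1 h1
    have h4 : (ℓ - 1) * ℓ + ℓ = ℓ ^ 2 := by
      obtain ⟨k, rfl⟩ : ∃ k, ℓ = k + 1 := ⟨ℓ - 1, by omega⟩
      rw [Nat.add_sub_cancel]; ring
    omega
  obtain ⟨J, hJ⟩ : ∃ J : Finset I, J = Finset.univ.erase i₀ := ⟨_, rfl⟩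
  have hmem : ∀ i, i ∈ J ↔ i ≠ i₀ := by
    intro i; rw [hJ, Finset.mem_erase]; simp
  have hJc : J.card = e * r := by
    rw [hJ, Finset.card_erase_of_mem (Finset.mem_univ _), Finset.card_univ, hI, hpow]
    omega
  have hJf : ∀ v : ℤ, e ∣ (J.filter fun i => a i = v).card := by
    intro v
    have h := hfib v
    have h2 : Nat.card {i : I // i ≠ i₀ ∧ a i = v} = (J.filter fun i => a i = v).card := by
      rw [Nat.card_eq_fintype_card, Fintype.card_subtype]
      congr 1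
      ext i
      simp only [Finset.mem_filter, Finset.mem_univ, true_and, hmem]
    rwa [h2] at h
  have hne : J.Nonempty := by
    rw [← Finset.card_pos, hJc]
    exact Nat.mul_pos he (by omega)
  obtain ⟨i₁, hi₁, hmin⟩ := Finset.exists_min_image J a hne
  obtain ⟨m, hm⟩ : ∃ m, m = a i₁ := ⟨_, rfl⟩
  obtain ⟨s, hs⟩ := hJf m
  obtain ⟨t, ht⟩ := hJf (m + 1)
  obtain ⟨K, hK⟩ : ∃ K, K = J.filter fun i => a i ≠ m := ⟨_, rfl⟩
  have hcard : (J.filter fun i => a i = m).card + K.card = J.card := by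
    rw [hK]
    exact Finset.card_filter_add_card_filter_not _
  have hs1 : 1 ≤ s := by
    rcases Nat.eq_zero_or_pos s with h | h
    · exfalso
      rw [h, mul_zero, Finset.card_eq_zero] at hs
      have : i₁ ∈ J.filter fun i => a i = m := Finset.mem_filter.mpr ⟨hi₁, hm.symm⟩
      rw [hs] at this
      simp at this
    · exact h
  rw [hs, hJc] at hcard
  have hsr : s ≤ r := by
    have : e * s ≤ e * r := by omega
    exact Nat.le_of_mul_le_mul_left this he
  obtain ⟨u, hu⟩ : ∃ u, r = s + u := ⟨r - s, by omega⟩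
  have hKc : K.card = e * u := by
    rw [hu, mul_add] at hcard
    omega
  have hsub : (J.filter fun i => a i = m + 1) ⊆ K := by
    intro i hi
    rw [hK, Finset.mem_filter]
    rw [Finset.mem_filter] at hi
    exact ⟨hi.1, by omega⟩
  have htu : t ≤ u := by
    have := Finset.card_le_card hsub
    rw [ht, hKc] at this
    exact Nat.le_of_mul_le_mul_left this he
  -- the sums
  obtain ⟨S1, hS1⟩ : ∃ S1, S1 = ∑ i ∈ J, (a i - m) := ⟨_, rfl⟩
  obtain ⟨S2, hS2⟩ : ∃ S2, S2 = ∑ i ∈ J, (a i - m) ^ 2 := ⟨_, rfl⟩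
  have hS1K : S1 = ∑ i ∈ K, (a i - m) := by
    rw [hS1, hK]
    symm
    apply Finset.sum_filter_of_ne
    intro i _ h h'
    exact h (by rw [h', sub_self])
  have hS2K : S2 = ∑ i ∈ K, (a i - m) ^ 2 := by
    rw [hS2, hK]
    symm
    apply Finset.sum_filter_of_ne
    intro i _ h h'
    exact h (by rw [h', sub_self]; ring)
  have hNz : ((J.card : ℕ) : ℤ) = e * r := by rw [hJc]; push_cast; ring
  have hsa : ∑ i ∈ J, a i = S1 + e * r * m := by
    rw [hS1, Finset.sum_sub_distrib, Finset.sum_const, nsmul_eq_mul, hNz]; ring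
  have hsa2 : ∑ i ∈ J, a i ^ 2 = S2 + 2 * m * S1 + e * r * m ^ 2 := by
    have h1 : ∀ i ∈ J, a i ^ 2 = (a i - m) ^ 2 + 2 * m * (a i - m) + m ^ 2 := by
      intro i _; ring
    rw [Finset.sum_congr rfl h1, Finset.sum_add_distrib, Finset.sum_add_distrib, ← Finset.mul_sum,
      Finset.sum_const, nsmul_eq_mul, hNz, hS1, hS2]
  have hta : ∑ i, a i = a i₀ + (S1 + e * r * m) := by
    rw [← hsa, hJ]; exact (Finset.add_sum_erase _ _ (Finset.mem_univ i₀)).symm
  have hta2 : ∑ i, a i ^ 2 = a i₀ ^ 2 + (S2 + 2 * m * S1 + e * r * m ^ 2) := by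
    rw [← hsa2, hJ]; exact (Finset.add_sum_erase _ (fun i => a i ^ 2) (Finset.mem_univ i₀)).symm
  have hLz : ((ℓ : ℤ)) ^ n = e * r + 1 := by exact_mod_cast hpow
  obtain ⟨v, hv⟩ : ∃ v, v = m - a i₀ := ⟨_, rfl⟩
  have hposs : (0 : ℤ) ≤ S2 + 2 * v * S1 + e * r * v ^ 2 := by
    have h1 : S2 + 2 * v * S1 + e * r * v ^ 2 = ∑ i ∈ J, ((a i - m) + v) ^ 2 := by
      have h2 : ∀ i ∈ J, ((a i - m) + v) ^ 2 = (a i - m) ^ 2 + 2 * v * (a i - m) + v ^ 2 := by
        intro i _; ring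
      rw [Finset.sum_congr rfl h2, Finset.sum_add_distrib, Finset.sum_add_distrib,
        ← Finset.mul_sum, Finset.sum_const, nsmul_eq_mul, hNz, hS1, hS2]
    rw [h1]
    exact Finset.sum_nonneg fun i _ => sq_nonneg _
  have hCS : S1 ^ 2 ≤ e * u * S2 := by
    have h1 := sq_sum_le_card_mul_sum_sq (s := K) (f := fun i => a i - m)
    rw [← hS1K, ← hS2K, hKc] at h1
    push_cast at h1
    exact h1
  have hlow : (e : ℤ) * (4 * u - 3 * t) ≤ S2 := by
    have h1 : ∑ i ∈ J, (4 * (if a i ≠ m then (1 : ℤ) else 0) - 3 * (if a i = m + 1 then 1 else 0))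
        ≤ S2 := by
      rw [hS2]
      apply Finset.sum_le_sum
      intro i hi
      have hge : m ≤ a i := by rw [hm]; exact hmin i hi
      rcases eq_or_lt_of_le hge with h | h
      · rw [if_neg (by intro h'; exact h' h.symm), if_neg (by omega)]
        nlinarith [sq_nonneg (a i - m)]
      · by_cases h2 : a i = m + 1
        · rw [if_pos (by omega), if_pos h2, h2]
          ring_nf
          exact le_refl _
        · rw [if_pos (by omega), if_neg h2]
          have h3 : 2 ≤ a i - m := by omega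
          nlinarith
    rw [Finset.sum_sub_distrib, ← Finset.mul_sum, ← Finset.mul_sum, Finset.sum_boole,
      Finset.sum_boole, ht, ← hK, hKc] at h1
    push_cast at h1
    linarith
  refine COMX.arith (ℓ := ℓ) (e := e) (r := r) (s := s) (u := u) (t := t) (v := v) (A := a i₀)
    (L := (ℓ : ℤ) ^ n) (S1 := S1) (S2 := S2) (N := e * r)
    (Q := (ℓ : ℤ) ^ n * (∑ i, a i ^ 2) - (∑ i, a i) ^ 2)
    (by exact_mod_cast hℓ2) (by exact_mod_cast he) (by omega) (by exact_mod_cast hr1) hLz rfl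
    (by exact_mod_cast hs1) (by positivity) (by exact_mod_cast htu) (by rw [hu]; push_cast; ring)
    ?_ hposs hCS hlow ?_ ?_ hQ0 hQ1 (dvd_pow_self _ (by omega)) ?_ ?_
  · rw [hta, hta2, hLz, hv]; ring
  · intro h
    have h0 : K = ∅ := by
      rw [← Finset.card_eq_zero, hKc]
      have : u = 0 := by exact_mod_cast h
      rw [this, mul_zero]
    rw [hS1K, hS2K, h0]
    simp
  · intro h
    have h' : t = u := by exact_mod_cast h
    have hKe : (J.filter fun i => a i = m + 1) = K := by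
      apply Finset.eq_of_subset_of_card_le hsub
      rw [hKc, ht, h']
    have h1 : ∀ i ∈ K, a i - m = 1 := by
      intro i hi
      rw [← hKe, Finset.mem_filter] at hi
      omega
    constructor
    · rw [hS1K, Finset.sum_congr rfl h1, Finset.sum_const, hKc, h', nsmul_eq_mul]
      push_cast; ring
    · have h2 : ∀ i ∈ K, (a i - m) ^ 2 = 1 := by
        intro i hi; rw [h1 i hi]; ring
      rw [hS2K, Finset.sum_congr rfl h2, Finset.sum_const, hKc, h', nsmul_eq_mul]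
      push_cast; ring
  · intro x y hxy
    exact (Nat.prime_iff_prime_int.mp hℓ).dvd_or_dvd hxy
  · have : S1 + (e : ℤ) * r * v + (ℓ : ℤ) ^ n * a i₀ = ∑ i, a i := by
      rw [hta, hv, hLz]; ring
    rw [this]
    exact hdvd

end Pool.Agent.DPX


end
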