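import Mathlib
import Pool.Agent.DAM.C02
import Pool.Agent.DAM.C07
import Pool.Agent.DAM.C08
import Pool.Agent.DAM.C11
import Pool.Agent.DAM.C12
import Pool.Agent.DAM.C14
import Pool.Agent.DAM.C15
import Pool.Agent.DAM.C19
import Pool.Agent.DAM.C22
import Pool.Agent.DAM.C23
import Pool.Agent.DAM.C31
import Pool.Agent.DAM.C43
import Pool.Agent.DAM.C49

/-! Parts: DP.BLKBR, DPV.TRV, DPC.DGNA, DPC.OUTC, DPX.SPX, DPX.CHAX, DPX.RLZX -/

section

/-!
# Module BLKBR: blocks over a character of positive defect do not contain induced blocks over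
characters of defect zero
-/

namespace Pool.Agent.DP

open Pool.Agent.Lib_helper13 Representation

namespace BLKBR

section Fn

variable {Ω G B X K : Type*} [Fintype Ω] [Group G] [Group B] [Group X] [Group K]
  {ι : G →* B} {κ : B →* MulAut G} {e : (Ω → G) →* X} {p : X →* K}
  {φ : X →* Gam (Equiv.Perm Ω) Ω B}

open Classical in
/-- The product of the values of a function on the base group, extended by zero. -/
noncomputable def yF (e : (Ω → G) →* X) (f : G → ℤ) (x : X) : ℂ :=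
  if h : ∃ n, e n = x then ∏ a, (f (h.choose a) : ℂ) else 0

theorem yF_e (hinj : Function.Injective e) (f : G → ℤ) (n : Ω → G) :
    yF e f (e n) = ∏ a, (f (n a) : ℂ) := by
  have h : ∃ m, e m = e n := ⟨n, rfl⟩
  rw [yF, dif_pos h, hinj h.choose_spec]

theorem yF_zero (f : G → ℤ) {x : X} (hx : x ∉ e.range) : yF e f x = 0 := by
  rw [yF, dif_neg]
  rintro ⟨n, hn⟩
  exact hx ⟨n, hn⟩

theorem yF_class (h : ClG e ((wB κ Ω).comp φ) p) {f : G → ℤ}
    (hk : ∀ b x, f (κ b x) = f x) (g x : X) :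
    yF e f (g * x * g⁻¹) = yF e f x := by
  by_cases hx : x ∈ e.range
  · obtain ⟨n, rfl⟩ := hx
    rw [← h.act, yF_e h.inj, yF_e h.inj]
    have h1 : ∀ a : Ω, ((f (((wB κ Ω).comp φ) g n a) : ℤ) : ℂ) =
        (f (n (MulAction.toPerm (φ g).right⁻¹ a)) : ℂ) := by
      intro a
      rw [MonoidHom.comp_apply, wB_apply, hk]
      rfl
    rw [Finset.prod_congr rfl fun a _ => h1 a]
    exact Equiv.prod_comp (MulAction.toPerm (φ g).right⁻¹) fun a => (f (n a) : ℂ)
  · rw [yF_zero f hx, yF_zero f]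
    rintro ⟨n, hn⟩
    apply hx
    refine ⟨((wB κ Ω).comp φ) g⁻¹ n, ?_⟩
    rw [h.act, hn]
    group

theorem yF_integral (f : G → ℤ) (x : X) : IsIntegral ℤ (yF e f x) := by
  rw [yF]
  split_ifs
  · apply IsIntegral.prod
    intro a _
    exact BLKB.intCast_integral _
  · exact isIntegral_zero

end Fn

end BLKBR

open _root_.Pool.Agent.DP.BLKBR

/-- BLKBR. -/
theorem BLKBR_thm (h1 : Stmt_BLKAR) : Stmt_BLKBR := by
  intro Ω O G B X Y K K' _ _ _ _ _ _ _ _ _ _ _ _ _ _ 𝔐 ℓ _ h𝔐 hℓ ι κ e p φ j p' φ' hX hY i π u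
    hπ hi1 hi2 χ ξ w d hχ hξ hipχ hdd hd ψ θ hψ hθ hdθ hipψ hcen
  have hprime : 𝔐.IsPrime := h𝔐.isPrime
  obtain ⟨f, hfc, hfk, hf0, hf1⟩ := h1 G B 𝔐 ℓ h𝔐 hℓ κ
  choose q hq using hπ
  have hS : Stmt_SUMM := SUMM_thm
  -- the two weights agree modulo the ideal
  have hA : red 𝔐 (wt χ (fun x => yF e f x)) = red 𝔐 (wt ψ (fun y => yF e f (i y))) := by
    have ha := red_wt_eq_pair 𝔐 (MonoidHom.id X) hχ (fun x => yF e f x)
      (fun g x => yF_class hX.cl hfk g x) (fun x => yF_integral f x)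
    have hb := red_wt_eq_pair 𝔐 i hψ (fun x => yF e f x)
      (fun g x => yF_class hX.cl hfk g x) (fun x => yF_integral f x)
    have hc : cen 𝔐 i ψ = cen 𝔐 (MonoidHom.id X) χ := funext hcen
    rw [hc] at hb
    exact ha.trans hb.symm
  -- the weight of `χ`
  have hB : wt χ (fun x => yF e f x) = ∏ a, wt (ξ a) (fun x => (f x : ℂ)) := by
    rw [(hS (Ω → G) X K e ((wB κ Ω).comp φ) p hX.cl).2.2.2 (prodFn ξ) χ (fun x => yF e f x)
      (isIrr_prodFn hξ) hχ hipχ (fun g x => yF_class hX.cl hfk g x) (fun y hy => yF_zero f hy)]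
    rw [← wt_prodFn]
    congr 1
    ext n
    exact yF_e hX.cl.inj f n
  -- the weight of `ψ`
  have hC : wt ψ (fun y => yF e f (i y)) =
      ∏ o, wt (θ o) (fun x => (f x : ℂ) ^ ℓ ^ q o) := by
    rw [(hS (O → G) Y K' j ((wB κ O).comp φ') p' hY.cl).2.2.2 (prodFn θ) ψ
      (fun y => yF e f (i y)) (isIrr_prodFn hθ) hψ hipψ ?_ ?_]
    · rw [← wt_prodFn]
      congr 1
      ext n
      rw [hi1, yF_e hX.cl.inj]
      have h2 : ∀ a : Ω, ((f (κ (u a) (n (π a))) : ℤ) : ℂ) = (f (n (π a)) : ℂ) := by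
        intro a
        rw [hfk]
      rw [Finset.prod_congr rfl fun a _ => h2 a, BLKB.prod_pow π (fun o => (f (n o) : ℂ))]
      simp only [prodFn, hq]
    · intro g x
      rw [map_mul, map_mul, map_inv, yF_class hX.cl hfk]
    · intro y hy
      apply yF_zero
      intro h
      exact hy (hi2 y h)
  have hint : ∀ (φ : G → ℂ), IsIrr φ → IsIntegral ℤ (wt φ (fun x => (f x : ℂ))) := by
    intro φ hφ
    apply isIntegral_wt hφ
    · intro g x
      rw [hfc]
    · intro x
      exact BLKB.intCast_integral _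
  have hintp : ∀ (φ : G → ℂ) (k : ℕ), IsIrr φ →
      IsIntegral ℤ (wt φ (fun x => (f x : ℂ) ^ ℓ ^ k)) := by
    intro φ k hφ
    apply isIntegral_wt hφ
    · intro g x
      rw [hfc]
    · intro x
      exact (BLKB.intCast_integral _).pow _
  rw [hB, hC, red_prod 𝔐 _ _ fun a _ => hint _ (hξ a),
    red_prod 𝔐 _ _ fun o _ => hintp _ _ (hθ o),
    Finset.prod_eq_zero (Finset.mem_univ w) (hf0 (ξ w) d (hξ w) hdd hd)] at hA
  refine (Finset.prod_ne_zero_iff.mpr fun o _ => ?_) hA.symm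
  have hD : red 𝔐 (wt (θ o) (fun x => (f x : ℂ) ^ ℓ ^ q o)) =
      red 𝔐 (wt (θ o) (fun x => (f x : ℂ))) := by
    apply red_wt_eq 𝔐 hℓ (hθ o) (⊥ : Subgroup G) IsPGroup.of_bot
    · intro g x
      rw [hfc]
    · intro x
      exact (BLKB.intCast_integral _).pow _
    · intro g x
      rw [hfc]
    · intro x
      exact BLKB.intCast_integral _
    · intro x _
      exact BLKB.red_pow_int 𝔐 hℓ (q o) (f x)
  rw [hD]
  exact hf1 (θ o) (hθ o) (hdθ o)

end Pool.Agent.DP


end

section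

/-!
# TRV: transports of the data (arbitrary quotient)
-/

namespace Pool.Agent.DPV

open Pool.Agent.DP Pool.Agent.Lib_helper13 Representation
open Pool.Agent.Lib_helper13.Dade (pCore DadeHolds dadeSum)

namespace TRV

variable {O G B C : Type*} [Group G] [Group B] [Group C] [Fintype O] [DecidableEq O] [Fintype G]
  [Fintype B]

variable {κ : B →* MulAut G} {τ : Finset (Subgroup (O → G))} {θ : O → G → ℂ} {a b : O} {g : B}

theorem mem_mapConj (L : Subgroup C) (c x : C) :
    x ∈ L.map (MulAut.conj c).toMonoidHom ↔ c⁻¹ * x * c ∈ L := by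
  rw [Subgroup.mem_map]
  constructor
  · rintro ⟨y, hy, rfl⟩
    change c⁻¹ * (c * y * c⁻¹) * c ∈ L
    have : c⁻¹ * (c * y * c⁻¹) * c = y := by group
    rw [this]
    exact hy
  · intro hx
    refine ⟨c⁻¹ * x * c, hx, ?_⟩
    change c * (c⁻¹ * x * c) * c⁻¹ = x
    group

theorem mapConj_inv (L : Subgroup C) (c : C) :
    (L.map (MulAut.conj c).toMonoidHom).map (MulAut.conj c⁻¹).toMonoidHom = L := by
  ext x
  rw [mem_mapConj, mem_mapConj]
  have : c⁻¹ * (c⁻¹⁻¹ * x * c⁻¹) * c = x := by group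
  rw [this]

theorem ext_transport {ι : G →* B} {ρ : B →* C} (hcl : ClG ι κ ρ)
    (h : trB κ τ θ a b g) (L : Subgroup C) (f : B → ℂ)
    (hf : ExtL ι κ ρ (comp τ a) (θ a) L f) :
    ExtL ι κ ρ (comp τ b) (θ b) (L.map (MulAut.conj (ρ g)).toMonoidHom)
      (fun x => f (g⁻¹ * x * g)) := by
  have hmem : ∀ x, x ∈ Stx κ (comp τ b) (θ b) ⊓
      (L.map (MulAut.conj (ρ g)).toMonoidHom).comap ρ ↔
      g⁻¹ * x * g ∈ Stx κ (comp τ a) (θ a) ⊓ L.comap ρ := by
    intro x
    rw [Subgroup.mem_inf, Subgroup.mem_inf, DPC.TRBR.mem_conj' h, Subgroup.mem_comap,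
      Subgroup.mem_comap, mem_mapConj, map_mul, map_mul, map_inv]
  refine ⟨⟨?_, ?_⟩, ?_⟩
  · let e : (Stx κ (comp τ b) (θ b) ⊓
          (L.map (MulAut.conj (ρ g)).toMonoidHom).comap ρ : Subgroup B) ≃*
        (Stx κ (comp τ a) (θ a) ⊓ L.comap ρ : Subgroup B) :=
      { toFun := fun x => ⟨g⁻¹ * x * g, (hmem x).mp x.2⟩
        invFun := fun x => ⟨g * x * g⁻¹, (hmem _).mpr (by
          have : g⁻¹ * (g * (x : B) * g⁻¹) * g = x := by group
          rw [this]
          exact x.2)⟩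
        left_inv := fun x => Subtype.ext (by
          change g * (g⁻¹ * (x : B) * g) * g⁻¹ = x
          group)
        right_inv := fun x => Subtype.ext (by
          change g⁻¹ * (g * (x : B) * g⁻¹) * g = x
          group)
        map_mul' := fun x y => Subtype.ext (by
          change g⁻¹ * ((x : B) * y) * g = (g⁻¹ * x * g) * (g⁻¹ * y * g)
          group) }
    classical
    have : Fintype (Stx κ (comp τ a) (θ a) ⊓ L.comap ρ : Subgroup B) := Fintype.ofFinite _
    exact hf.1.1.comp_mulEquiv e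
  · intro x hx
    exact hf.1.2 _ fun h' => hx ((hmem x).mpr h')
  · intro y
    have h1 : g⁻¹ * ι y * g = ι (κ g⁻¹ y) := by
      rw [hcl.act, inv_inv]
    change f (g⁻¹ * ι y * g) = θ b y
    rw [h1, hf.2, ← h.2, ← MulAut.mul_apply, ← map_mul, mul_inv_cancel, map_one,
      MulAut.one_apply]

end TRV

open _root_.Pool.Agent.DPV.TRV DPC.TRBR in
theorem TRV_thm (_h1 : Stmt_EXTV) : Stmt_TRV := by
  intro O G B C _ _ _ _ _ _ _ 𝔐 ℓ _ ι κ ρ hL τ θ hθ
  obtain ⟨-, -, hcg, -, -⟩ := CGT_thm G B C 𝔐 ι κ ρ hL.cl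
  refine ⟨trB_iff κ τ θ, fun a b g h => ?_⟩
  have hstb : (stb (comp τ a)).map (κ g).toMonoidHom = stb (comp τ b) := by
    ext x
    rw [Subgroup.mem_map]
    constructor
    · rintro ⟨y, hy, rfl⟩
      rw [← iota_mem hL.cl (hθ b)]
      change ι (κ g y) ∈ _
      rw [hL.cl.act, ← mem_conj h, iota_mem hL.cl (hθ a)]
      exact hy
    · intro hx
      refine ⟨κ g⁻¹ x, ?_, ?_⟩
      · rw [← iota_mem hL.cl (hθ a), hL.cl.act, inv_inv, ← mem_conj' h, iota_mem hL.cl (hθ b)]
        exact hx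
      · change κ g (κ g⁻¹ x) = x
        rw [← MulAut.mul_apply, ← map_mul, mul_inv_cancel, map_one, MulAut.one_apply]
  refine ⟨hstb, ?_, ?_, ?_, fun L f hf => TRV.ext_transport hL.cl h L f hf, fun L => ?_⟩
  · have h1 : Nat.card (stb (comp τ b)) = Nat.card (stb (comp τ a)) := by
      rw [← hstb]
      exact Subgroup.card_map_of_injective (κ g).injective
    have h2 : θ b 1 = θ a 1 := by
      rw [← h.2 1, map_one]
    rw [df, df, h1, h2]
  · ext x
    rw [Subgroup.mem_map]
    constructor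
    · rintro ⟨y, hy, rfl⟩
      exact (mem_conj h y).mp hy
    · intro hx
      refine ⟨g⁻¹ * x * g, (mem_conj' h x).mp hx, ?_⟩
      change g * (g⁻¹ * x * g) * g⁻¹ = x
      group
  · symm
    refine Nat.card_eq_of_bijective (fun x : stb (comp τ b) => (⟨ι x * g, ?_, ?_⟩ :
      {h : B // trB κ τ θ a b h ∧ ρ h = ρ g})) ⟨?_, ?_⟩
    · exact ((trB_iff κ τ θ b _).mpr ((iota_mem hL.cl (hθ b) _).mpr x.2)).mul h
    · rw [map_mul]
      have : ρ (ι x) = 1 := (hL.cl.ker _).mpr ⟨_, rfl⟩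
      rw [this, one_mul]
    · intro x y hxy
      have h1 : ι (x : G) * g = ι (y : G) * g := congrArg Subtype.val hxy
      exact Subtype.ext (hL.cl.inj (mul_right_cancel h1))
    · rintro ⟨y, hy1, hy2⟩
      obtain ⟨x, hx⟩ := exists_iota hL.cl hy2
      have h1 : trB κ τ θ b b (ι x) := by
        have h2 : ι x = y * g⁻¹ := by rw [hx, mul_inv_cancel_right]
        rw [h2]
        exact hy1.mul h.inv
      refine ⟨⟨x, (iota_mem hL.cl (hθ b) x).mp ((trB_iff κ τ θ b _).mp h1)⟩, ?_⟩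
      exact Subtype.ext hx.symm
  · ext b0
    constructor
    · rintro ⟨f, hf, rfl⟩
      have h1 := TRV.ext_transport hL.cl h.inv _ f hf
      rw [map_inv, mapConj_inv] at h1
      refine ⟨_, ⟨_, h1, rfl⟩, ?_⟩
      funext x
      change cgT 𝔐 ι.range (fun x => f (g⁻¹⁻¹ * x * g⁻¹)) (g⁻¹ * x * g) = cgT 𝔐 ι.range f x
      rw [hcg f g⁻¹]
      congr 1
      group
    · rintro ⟨_, ⟨f, hf, rfl⟩, rfl⟩
      refine ⟨_, TRV.ext_transport hL.cl h L f hf, ?_⟩
      funext x
      exact (hcg f g x).symm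

end Pool.Agent.DPV


end

section

/-!
# Module DGNA: characters of the centralizer of an outer `ℓ`-subgroup over characters of defect
zero
-/

namespace Pool.Agent.DPC

open Pool.Agent.DP Pool.Agent.Lib_helper13 Representation
open Pool.Agent.Lib_helper13.Dade (pCore DadeHolds dadeSum)

namespace DGNA

section Stab

variable {B : Type*} [Group B]

theorem isCh_single {ℓ : ℕ} {E : Subgroup B} (hE : E ≠ ⊥) (hp : IsPGroup ℓ E) :
    IsCh ℓ (⊥ : Subgroup B) {E} := by
  constructor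
  · intro D hD
    rw [Finset.mem_singleton] at hD
    subst hD
    exact ⟨hp, bot_lt_iff_ne_bot.mpr hE⟩
  · rw [Finset.coe_singleton]
    exact IsChain.singleton

theorem stb_single {G C : Type*} [Group G] [Group C] {ι : G →* B} {κ : B →* MulAut G}
    {ρ : B →* C} {ℓ : ℕ} (h : LocW ℓ ι κ ρ) {E : Subgroup B} (hE : E ⊓ ι.range = ⊥) :
    stb {E} = Subgroup.centralizer (E : Set B) := by
  ext y
  rw [mem_stb', Subgroup.mem_centralizer_iff]
  have hcyc := h.cyc
  have hcomm : ∀ a b : C, a * b = b * a := by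
    intro a b
    let _ := IsCyclic.commGroup (α := C)
    exact mul_comm a b
  constructor
  · intro hy x hx
    have h1 : y * x * y⁻¹ ∈ E := (hy E (Finset.mem_singleton_self E) x).mp hx
    have h2 : y * x * y⁻¹ * x⁻¹ ∈ E := E.mul_mem h1 (E.inv_mem hx)
    have h3 : y * x * y⁻¹ * x⁻¹ ∈ ι.range := by
      rw [← h.cl.ker, map_mul, map_mul, map_mul, map_inv, map_inv, hcomm (ρ y) (ρ x)]
      group
    have h4 : y * x * y⁻¹ * x⁻¹ ∈ E ⊓ ι.range := ⟨h2, h3⟩
    rw [hE, Subgroup.mem_bot] at h4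
    have h5 : y * x * y⁻¹ = x := by
      rw [mul_inv_eq_one] at h4
      exact h4
    rw [mul_inv_eq_iff_eq_mul] at h5
    exact h5.symm
  · intro hy D hD x
    rw [Finset.mem_singleton] at hD
    subst hD
    constructor
    · intro hx
      have := hy x hx
      rw [← this, mul_inv_cancel_right]
      exact hx
    · intro hx
      have h1 := hy _ hx
      have h2 : y * x * y⁻¹ = x := by
        have h3 : y * x * y⁻¹ * y = y * (y * x * y⁻¹) := h1
        rw [inv_mul_cancel_right] at h3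
        exact (mul_left_cancel h3).symm
      rwa [h2] at hx

end Stab

section Act

variable {G B : Type*} [Group G] [Group B] (κ : B →* MulAut G) (E : Subgroup B)

theorem act_mem (y : Subgroup.centralizer (E : Set B)) (a : FX κ E) : κ y a ∈ FX κ E := by
  intro b hb
  have h1 : b * (y : B) = y * b := Subgroup.mem_centralizer_iff.mp y.2 b hb
  rw [← MulAut.mul_apply, ← map_mul, h1, map_mul, MulAut.mul_apply, a.2 b hb]

/-- The action of the centralizer on the fixed points. -/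
def act : Subgroup.centralizer (E : Set B) →* MulAut (FX κ E) where
  toFun y :=
    { toFun := fun a => ⟨κ y a, act_mem κ E y a⟩
      invFun := fun a => ⟨κ ((y⁻¹ : Subgroup.centralizer (E : Set B)) : B) a,
        act_mem κ E y⁻¹ a⟩
      left_inv := by
        intro a
        apply Subtype.ext
        change κ ((y⁻¹ : Subgroup.centralizer (E : Set B)) : B) (κ (y : B) (a : G)) = a
        rw [← MulAut.mul_apply, ← map_mul]
        simp
      right_inv := by
        intro a
        apply Subtype.ext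
        change κ (y : B) (κ ((y⁻¹ : Subgroup.centralizer (E : Set B)) : B) (a : G)) = a
        rw [← MulAut.mul_apply, ← map_mul]
        simp
      map_mul' := by
        intro a b
        apply Subtype.ext
        change κ (y : B) ((a * b : FX κ E) : G) = κ (y : B) (a : G) * κ (y : B) (b : G)
        simp }
  map_one' := by
    ext a
    simp
  map_mul' := by
    intro x y
    ext a
    simp

theorem act_apply (y : Subgroup.centralizer (E : Set B)) (a : FX κ E) :
    (act κ E y a : G) = κ y a := rfl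

theorem clG_act {C : Type*} [Group C] {ι : G →* B} {ρ : B →* C} (h : ClG ι κ ρ)
    (i : ↥(FX κ E) →* ↥(Subgroup.centralizer (E : Set B))) (hi : ∀ g, (i g : B) = ι g) :
    ClG i (act κ E) (ρ.comp (Subgroup.centralizer (E : Set B)).subtype) where
  inj := by
    intro a b hab
    apply Subtype.ext
    apply h.inj
    rw [← hi, ← hi, hab]
  act := by
    intro y a
    apply Subtype.ext
    rw [hi, act_apply, h.act]
    push_cast
    rw [hi]
  ker := by
    intro y
    constructor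
    · intro hy
      obtain ⟨g, hg⟩ := (h.ker (y : B)).mp hy
      have hg' : g ∈ FX κ E := by
        intro b hb
        apply h.inj
        rw [h.act, hg, Subgroup.mem_centralizer_iff.mp y.2 b hb, mul_inv_cancel_right]
      refine ⟨⟨g, hg'⟩, ?_⟩
      apply Subtype.ext
      rw [hi]
      exact hg
    · rintro ⟨a, rfl⟩
      change ρ (i a : B) = 1
      rw [hi]
      exact (h.ker _).mpr ⟨a, rfl⟩

end Act

section Ext

variable {G B : Type*} [Group G] [Group B]

open Classical in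
/-- A function on the normal subgroup, extended by zero. -/
noncomputable def exF (ι : G →* B) (f : G → ℤ) (x : B) : ℂ :=
  if h : x ∈ ι.range then (f h.choose : ℂ) else 0

theorem exF_ι {ι : G →* B} (hι : Function.Injective ι) (f : G → ℤ) (g : G) :
    exF ι f (ι g) = (f g : ℂ) := by
  have h : ι g ∈ ι.range := ⟨g, rfl⟩
  rw [exF, dif_pos h]
  have h1 : h.choose = g := hι h.choose_spec
  rw [h1]

theorem exF_out {ι : G →* B} (f : G → ℤ) {x : B} (h : x ∉ ι.range) : exF ι f x = 0 := by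
  rw [exF, dif_neg h]

theorem exF_class {C : Type*} [Group C] {ι : G →* B} {κ : B →* MulAut G} {ρ : B →* C}
    (h : ClG ι κ ρ) {f : G → ℤ} (hf : ∀ b x, f (κ b x) = f x) (b x : B) :
    exF ι f (b * x * b⁻¹) = exF ι f x := by
  by_cases hx : x ∈ ι.range
  · obtain ⟨g, rfl⟩ := hx
    rw [← h.act, exF_ι h.inj, exF_ι h.inj, hf]
  · have hx' : b * x * b⁻¹ ∉ ι.range := by
      intro h1
      apply hx
      rw [← h.ker] at h1 ⊢
      rw [map_mul, map_mul, map_inv, mul_inv_eq_one] at h1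
      exact mul_eq_left.mp h1
    rw [exF_out f hx, exF_out f hx']

theorem exF_int (ι : G →* B) (f : G → ℤ) (x : B) : IsIntegral ℤ (exF ι f x) := by
  rw [exF]
  split_ifs
  · exact isIntegral_algebraMap (R := ℤ) (A := ℂ) (x := f _)
  · exact isIntegral_zero

end Ext

end DGNA

open _root_.Pool.Agent.DPC.DGNA

/-- DGNA. -/
theorem DGNA_thm (h1 : Stmt_DGN) : Stmt_DGNA := by
  classical
  intro G B C _ _ _ _ _ 𝔐 ℓ _ h𝔐 hℓ ι κ ρ hL E hE hEp hEι i hi ψ θ hψ hθ hθ0 hip
  have hprime : 𝔐.IsPrime := h𝔐.isPrime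
  have hS := stb_single hL hEι
  have key : ∀ (S : Subgroup B), stb {E} = S → ∀ ψ : S → ℂ, IsIrr ψ →
      MultOn 𝔐 ψ (⊤ : Subgroup B) := by
    rintro S rfl ψ hψ
    exact exists_irr_of_chain 𝔐 hℓ (isCh_single hE hEp) hψ
  obtain ⟨χ, hχ, hcen⟩ := exists_irr_of_mult 𝔐 hψ (key _ hS ψ hψ)
  obtain ⟨ξ, hξ, hipξ⟩ := CLG.exists_under ι hχ
  refine ⟨χ, ξ, hχ, hξ, ?_, hipξ, hcen⟩
  obtain ⟨e, he⟩ := hξ.exists_defect (ℓ := ℓ)
  rcases Nat.eq_zero_or_pos e with rfl | he0
  · exact he
  exfalso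
  obtain ⟨f, hfc, hfκ, hf0, hf1⟩ := BLKAR_thm G B 𝔐 ℓ h𝔐 hℓ κ
  have hcl := hL.cl
  -- the weight of `χ`
  have hA : wt χ (exF ι f) = wt ξ (fun x => (f x : ℂ)) := by
    rw [(SUMM_thm G B C ι κ ρ hcl).2.2.2 ξ χ (exF ι f) hξ hχ hipξ (exF_class hcl hfκ)
      (fun y hy => exF_out f hy)]
    congr 1
    funext a
    exact exF_ι hcl.inj f a
  -- the weight of `ψ`
  have hcl' := clG_act κ E hcl i hi
  have hB : wt ψ (fun y => exF ι f (y : B)) = wt θ (fun x => (f x : ℂ)) := by
    rw [(SUMM_thm _ _ C i (act κ E) _ hcl').2.2.2 θ ψ (fun y => exF ι f (y : B)) hθ hψ hip]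
    · congr 1
      funext a
      rw [hi, exF_ι hcl.inj]
    · intro g x
      exact exF_class hcl hfκ _ _
    · intro y hy
      apply exF_out
      intro h2
      apply hy
      rw [← hcl'.ker]
      exact (hcl.ker _).mpr h2
  have hC : red 𝔐 (wt χ (exF ι f)) = red 𝔐 (wt ψ (fun y => exF ι f (y : B))) := by
    have ha := red_wt_eq_pair 𝔐 (MonoidHom.id B) hχ (exF ι f) (exF_class hcl hfκ)
      (exF_int ι f)
    have hb := red_wt_eq_pair 𝔐 (Subgroup.centralizer (E : Set B)).subtype hψ (exF ι f)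
      (exF_class hcl hfκ) (exF_int ι f)
    rw [← hcen] at hb
    exact ha.trans hb.symm
  obtain ⟨ξ', hξ', hξ'0, hD⟩ := h1 G B 𝔐 ℓ h𝔐 hℓ κ E hEp θ hθ hθ0
  have hD' := hD (fun x => (f x : ℂ)) (fun g x => by rw [hfc]) (fun b _ x => by rw [hfκ])
    (fun x => isIntegral_algebraMap (R := ℤ) (A := ℂ) (x := f x))
  rw [hA, hf0 ξ e hξ he he0, hB, hD'] at hC
  exact hf1 ξ' hξ' hξ'0 hC.symm

end Pool.Agent.DPC


end

section

/-!
# Module OUTC: a coordinate of positive defect
-/

namespace Pool.Agent.DPC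

open Pool.Agent.DP Pool.Agent.Lib_helper13 Representation
open Pool.Agent.Lib_helper13.Dade (pCore DadeHolds dadeSum)

namespace OUTC

/-- Constituents of restrictions are constituents of restrictions. -/
theorem ip_trans {A K : Type*} [Group A] [Fintype A] [Group K] [Fintype K] (m : K →* A)
    {ψ : A → ℂ} (hψ : IsChr ψ) {χ : A → ℂ} (hχ : IsIrr χ) {θ : K → ℂ} (hθ : IsIrr θ)
    (h1 : ip ψ χ ≠ 0) (h2 : ip (fun k => χ (m k)) θ ≠ 0) : ip (fun k => ψ (m k)) θ ≠ 0 := by
  classical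
  have ha : ∀ φ : A → ℂ, ∃ n : ℕ, IsIrr φ → ip ψ φ = n := by
    intro φ
    by_cases hφ : IsIrr φ
    · obtain ⟨n, hn⟩ := hψ.exists_ip hφ.isChr
      exact ⟨n, fun _ => hn⟩
    · exact ⟨0, fun h => absurd h hφ⟩
  have hb : ∀ φ : A → ℂ, ∃ n : ℕ, IsIrr φ → ip (fun k => φ (m k)) θ = n := by
    intro φ
    by_cases hφ : IsIrr φ
    · obtain ⟨n, hn⟩ := (hφ.isChr.comp m).exists_ip hθ.isChr
      exact ⟨n, fun _ => hn⟩
    · exact ⟨0, fun h => absurd h hφ⟩
  choose a ha using ha
  choose b hb using hb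
  have h3 : ip (fun k => ψ (m k)) θ = ((∑ φ ∈ irrF A, a φ * b φ : ℕ) : ℂ) := by
    have h4 : (fun k => ψ (m k)) = fun k => ∑ φ ∈ irrF A, ip ψ φ * (fun k => φ (m k)) k := by
      funext k
      exact congrFun (class_fn_expand ψ hψ.conj_eq) (m k)
    rw [h4, ip_sum (irrF A) (fun φ => ip ψ φ) (fun φ k => φ (m k)) θ]
    push_cast
    refine Finset.sum_congr rfl fun φ hφ => ?_
    rw [ha φ (mem_irrF.mp hφ), hb φ (mem_irrF.mp hφ)]
  rw [h3]
  intro h5
  have h6 : ∑ φ ∈ irrF A, a φ * b φ = 0 := by exact_mod_cast h5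
  rw [Finset.sum_eq_zero_iff] at h6
  have h7 := h6 χ (mem_irrF.mpr hχ)
  rcases Nat.mul_eq_zero.mp h7 with h8 | h8
  · apply h1
    rw [ha χ hχ, h8, Nat.cast_zero]
  · apply h2
    rw [hb χ hχ, h8, Nat.cast_zero]

/-- The restriction of a product to a coordinate. -/
theorem ip_single {O : Type*} [Fintype O] [DecidableEq O] {S : O → Type*} [∀ o, Group (S o)]
    [∀ o, Fintype (S o)] {θ : ∀ o, S o → ℂ} (h : ∀ o, IsIrr (θ o)) (o : O) :
    ip (fun g => prodFn θ (MonoidHom.mulSingle S o g)) (θ o) ≠ 0 := by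
  have h1 : (fun g => prodFn θ (MonoidHom.mulSingle S o g)) =
      fun g => (∏ o' ∈ Finset.univ.erase o, θ o' 1) * θ o g := by
    funext g
    rw [prodFn, ← Finset.mul_prod_erase _ _ (Finset.mem_univ o), MonoidHom.mulSingle_apply,
      Pi.mulSingle_eq_same, mul_comm]
    congr 1
    refine Finset.prod_congr rfl fun o' ho' => ?_
    rw [Pi.mulSingle_eq_of_ne (Finset.ne_of_mem_erase ho')]
  have h2 : ip (fun g => (∏ o' ∈ Finset.univ.erase o, θ o' 1) * θ o g) (θ o) =
      ∏ o' ∈ Finset.univ.erase o, θ o' 1 := by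
    have h3 := ip_self (h o)
    rw [ip] at h3 ⊢
    have h4 : ∀ g, (∏ o' ∈ Finset.univ.erase o, θ o' 1) * θ o g * θ o g⁻¹ =
        (∏ o' ∈ Finset.univ.erase o, θ o' 1) * (θ o g * θ o g⁻¹) := fun g => mul_assoc _ _ _
    rw [Finset.sum_congr rfl fun g _ => h4 g, ← Finset.mul_sum, mul_div_assoc, h3, mul_one]
  rw [h1, h2]
  exact Finset.prod_ne_zero_iff.mpr fun o' _ => (h o').one_ne_zero

/-- An embedding with normal image. -/
theorem exists_clG {A Y : Type} [Group A] [Group Y] (j : A →* Y) (hj : Function.Injective j)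
    (hn : j.range.Normal) : ∃ (K : Type) (_ : Group K) (c : Y →* MulAut A) (p : Y →* K),
      ClG j c p := by
  let E : A ≃* j.range := MonoidHom.ofInjective hj
  refine ⟨Y ⧸ j.range, inferInstance,
    (MulAut.congr E.symm).toMonoidHom.comp (MulAut.conjNormal : Y →* MulAut j.range),
    QuotientGroup.mk' j.range, hj, ?_, ?_⟩
  · intro y a
    change j (E.symm (MulAut.conjNormal y (E a))) = _
    have h1 : ∀ b : j.range, j (E.symm b) = b := by
      intro b
      have h2 : ((E (E.symm b) : j.range) : Y) = b := by rw [MulEquiv.apply_symm_apply]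
      exact h2
    rw [h1, MulAut.conjNormal_apply]
    rfl
  · intro y
    rw [QuotientGroup.mk'_apply, QuotientGroup.eq_one_iff]

end OUTC

open _root_.Pool.Agent.DPC.OUTC in
/-- OUTC. -/
theorem OUTC_thm (h1 : Stmt_OUTB) (h2 : Stmt_DGN) : Stmt_OUTC := by
  classical
  intro Ω G B C X K _ _ _ _ _ _ _ _ _ _ 𝔐 ℓ _ h𝔐 hℓ ι κ ρ hL e p φ hE Q hQ hQe hPw Y hY hcN
    χ ξ w d hχ hξ hipχ hdd hd ψ hψ hcen
  have hprime : 𝔐.IsPrime := h𝔐.isPrime
  have hE1 := hE.cl
  obtain ⟨f, hfc, hfk, hf0, hf1⟩ := BLKAR_thm G B 𝔐 ℓ h𝔐 hℓ κ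
  obtain ⟨O, hO1, hO2, π, s, v, hs, hπ, hcard, hv, hvs, hcent⟩ :=
    h1 Ω G B C X K ℓ ι κ ρ hL e p φ hE Q hQ
  choose k hk using hcard
  have hS : Stmt_SUMM := SUMM_thm
  -- the centralizer
  let A : Type := ∀ o : O, ↥(FX κ (Pw φ Q (s o)))
  let ex : A → (Ω → G) := fun a w => κ (v w) (a (π w) : G)
  have hmem : ∀ a : A, e (ex a) ∈ Y := by
    intro a
    apply hcN
    exact Subgroup.mem_inf.mpr ⟨⟨_, rfl⟩, (hcent _).mpr ⟨fun o => (a o : G), fun o => (a o).2, rfl⟩⟩
  let j : A →* Y :=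
    { toFun := fun a => ⟨e (ex a), hmem a⟩
      map_one' := by
        apply Subtype.ext
        change e (ex 1) = 1
        have : ex 1 = 1 := by
          funext w
          change κ (v w) ((1 : ↥(FX κ (Pw φ Q (s (π w))))) : G) = 1
          rw [Subgroup.coe_one, map_one]
        rw [this, map_one]
      map_mul' := by
        intro a b
        apply Subtype.ext
        change e (ex (a * b)) = e (ex a) * e (ex b)
        have : ex (a * b) = ex a * ex b := by
          funext w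
          change κ (v w) ((a (π w) * b (π w) : ↥(FX κ (Pw φ Q (s (π w))))) : G) =
            κ (v w) (a (π w) : G) * κ (v w) (b (π w) : G)
          rw [Subgroup.coe_mul, map_mul]
        rw [this, map_mul] }
  have hjc : ∀ a : A, ((j a : Y) : X) = e (ex a) := fun a => rfl
  have hexs : ∀ (a : A) (o : O), ex a (s o) = a o := by
    intro a o
    change κ (v (s o)) (a (π (s o)) : G) = a o
    rw [hvs, map_one, MulAut.one_apply]
    have hgen : ∀ o' : O, o' = o → ((a o' : ↥(FX κ (Pw φ Q (s o')))) : G) = a o := by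
      rintro _ rfl
      rfl
    exact hgen _ (hs o)
  have hj : Function.Injective j := by
    intro a b hab
    have h3 : ex a = ex b := hE1.inj (congrArg Subtype.val hab)
    funext o
    apply Subtype.ext
    rw [← hexs, ← hexs, h3]
  have hran : ∀ y : Y, y ∈ j.range ↔ (y : X) ∈ e.range := by
    intro y
    constructor
    · rintro ⟨a, rfl⟩
      exact ⟨ex a, rfl⟩
    · intro hy
      have hnorm : e.range.Normal := by
        refine ⟨?_⟩
        rintro _ ⟨n, rfl⟩ g
        exact ⟨_, hE1.act g n⟩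
      obtain ⟨n, hn⟩ := hy
      have h4 : e n ∈ Subgroup.centralizer (Q : Set X) := by
        rw [Subgroup.mem_centralizer_iff]
        intro q hq
        have h5 : (y : X) * q * (y : X)⁻¹ ∈ Q := by
          have h6 : (MulAut.conj (y : X)).toMonoidHom q ∈
              Q.map (MulAut.conj (y : X)).toMonoidHom := ⟨q, hq, rfl⟩
          rw [hY y y.2] at h6
          exact h6
        have h7 : (y : X) * q * (y : X)⁻¹ * q⁻¹ ∈ Q ⊓ e.range := by
          refine Subgroup.mem_inf.mpr ⟨mul_mem h5 (inv_mem hq), ?_⟩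
          have h8 : (y : X) * q * (y : X)⁻¹ * q⁻¹ = (y : X) * (q * (y : X)⁻¹ * q⁻¹) := by group
          rw [h8]
          refine mul_mem ⟨n, hn⟩ (hnorm.conj_mem _ (inv_mem ⟨n, hn⟩) q)
        rw [hQe, Subgroup.mem_bot] at h7
        rw [hn]
        have h9 : (y : X) * q = q * (y : X) := by
          have h10 : (y : X) * q * (y : X)⁻¹ = q := by rwa [mul_inv_eq_one] at h7
          rwa [mul_inv_eq_iff_eq_mul] at h10
        exact h9.symm
      obtain ⟨n', hn', hn2⟩ := (hcent n).mp h4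
      refine ⟨fun o => ⟨n' o, hn' o⟩, ?_⟩
      apply Subtype.ext
      rw [hjc, ← hn]
      congr 1
      exact hn2.symm
  have hjn : j.range.Normal := by
    refine ⟨?_⟩
    intro y hy g
    rw [hran] at hy ⊢
    obtain ⟨n, hn⟩ := hy
    refine ⟨_, (hE1.act (g : X) n).trans ?_⟩
    rw [hn]
    rfl
  obtain ⟨K', _, c, p', hcl⟩ := exists_clG j hj hjn
  -- a constituent
  obtain ⟨θ', hθ', hip'⟩ := Cliff.exists_under hψ j
  obtain ⟨θ, hθ, rfl⟩ := exists_prodFn hθ'
  -- the two weights agree modulo the ideal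
  have hA : red 𝔐 (wt χ (fun x => BLKBR.yF e f x)) =
      red 𝔐 (wt ψ (fun y => BLKBR.yF e f (Y.subtype y))) := by
    have ha := red_wt_eq_pair 𝔐 (MonoidHom.id X) hχ (fun x => BLKBR.yF e f x)
      (fun g x => BLKBR.yF_class hE1 hfk g x) (fun x => BLKBR.yF_integral f x)
    have hb := red_wt_eq_pair 𝔐 Y.subtype hψ (fun x => BLKBR.yF e f x)
      (fun g x => BLKBR.yF_class hE1 hfk g x) (fun x => BLKBR.yF_integral f x)
    rw [hcen] at hb
    exact ha.trans hb.symm
  have hB : wt χ (fun x => BLKBR.yF e f x) = ∏ a, wt (ξ a) (fun x => (f x : ℂ)) := by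
    rw [(hS (Ω → G) X K e ((wB κ Ω).comp φ) p hE1).2.2.2 (prodFn ξ) χ (fun x => BLKBR.yF e f x)
      (isIrr_prodFn hξ) hχ hipχ (fun g x => BLKBR.yF_class hE1 hfk g x)
      (fun y hy => BLKBR.yF_zero f hy)]
    rw [← wt_prodFn]
    congr 1
    ext n
    exact BLKBR.yF_e hE1.inj f n
  have hC : wt ψ (fun y => BLKBR.yF e f (Y.subtype y)) =
      ∏ o, wt (θ o) (fun x => (f (x : G) : ℂ) ^ ℓ ^ k o) := by
    rw [(hS A Y K' j c p' hcl).2.2.2 (prodFn θ) ψ
      (fun y => BLKBR.yF e f (Y.subtype y)) (isIrr_prodFn hθ) hψ hip' ?_ ?_]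
    · rw [← wt_prodFn]
      congr 1
      ext n
      change BLKBR.yF e f (e (ex n)) = _
      rw [BLKBR.yF_e hE1.inj]
      have h2 : ∀ a : Ω, ((f (ex n a) : ℤ) : ℂ) = (f (n (π a) : G) : ℂ) := by
        intro a
        change ((f (κ (v a) (n (π a) : G)) : ℤ) : ℂ) = _
        rw [hfk]
      rw [Finset.prod_congr rfl fun a _ => h2 a, BLKB.prod_pow π (fun o => (f (n o : G) : ℂ))]
      simp only [prodFn, hk]
    · intro g x
      rw [map_mul, map_mul, map_inv, BLKBR.yF_class hE1 hfk]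
    · intro y hy
      apply BLKBR.yF_zero
      intro h
      exact hy ((hran y).mpr h)
  have hint : ∀ (φ : G → ℂ), IsIrr φ → IsIntegral ℤ (wt φ (fun x => (f x : ℂ))) := by
    intro φ hφ
    apply isIntegral_wt hφ
    · intro g x
      rw [hfc]
    · intro x
      exact BLKB.intCast_integral _
  have hintp : ∀ (o : O), IsIntegral ℤ (wt (θ o) (fun x => (f (x : G) : ℂ) ^ ℓ ^ k o)) := by
    intro o
    apply isIntegral_wt (hθ o)
    · intro g x
      rw [Subgroup.coe_mul, Subgroup.coe_mul, Subgroup.coe_inv, hfc]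
    · intro x
      exact (BLKB.intCast_integral _).pow _
  rw [hB, hC, red_prod 𝔐 _ _ fun a _ => hint _ (hξ a),
    red_prod 𝔐 _ _ fun o _ => hintp o,
    Finset.prod_eq_zero (Finset.mem_univ w) (hf0 (ξ w) d (hξ w) hdd hd)] at hA
  -- the bad coordinate
  obtain ⟨o, ho⟩ : ∃ o, ¬ HasDefect ℓ (θ o) 0 := by
    by_contra hcon
    push Not at hcon
    refine (Finset.prod_ne_zero_iff.mpr fun o _ => ?_) hA.symm
    have hD : red 𝔐 (wt (θ o) (fun x => (f (x : G) : ℂ) ^ ℓ ^ k o)) =
        red 𝔐 (wt (θ o) (fun x => (f (x : G) : ℂ))) := by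
      apply red_wt_eq 𝔐 hℓ (hθ o) (⊥ : Subgroup ↥(FX κ (Pw φ Q (s o)))) IsPGroup.of_bot
      · intro g x
        rw [Subgroup.coe_mul, Subgroup.coe_mul, Subgroup.coe_inv, hfc]
      · intro x
        exact (BLKB.intCast_integral _).pow _
      · intro g x
        rw [Subgroup.coe_mul, Subgroup.coe_mul, Subgroup.coe_inv, hfc]
      · intro x
        exact BLKB.intCast_integral _
      · intro x _
        exact BLKB.red_pow_int 𝔐 hℓ (k o) (f x)
    rw [hD]
    obtain ⟨ξ', hξ', hdξ', hF⟩ := h2 G B 𝔐 ℓ h𝔐 hℓ κ (Pw φ Q (s o)) (hPw (s o)).1 (θ o) (hθ o)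
      (hcon o)
    rw [hF (fun x => (f x : ℂ)) (fun g x => by rw [hfc]) (fun b _ x => by rw [hfk])
      (fun x => BLKB.intCast_integral _)]
    exact hf1 ξ' hξ' hdξ'
  obtain ⟨d', hd'⟩ := (hθ o).exists_defect (ℓ := ℓ)
  refine ⟨s o, j.comp (MonoidHom.mulSingle (fun o => ↥(FX κ (Pw φ Q (s o)))) o), θ o, d', ?_,
    hθ o, hd', ?_, ?_⟩
  · intro g
    have hin : ∀ w' : Ω, π w' = o → ex (Pi.mulSingle o g) w' = κ (v w') g := by
      intro w' hw'
      subst hw'
      change κ (v w') ((Pi.mulSingle (π w') g : A) (π w') : G) = _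
      rw [Pi.mulSingle_eq_same]
    have hout : ∀ w' : Ω, π w' ≠ o → ex (Pi.mulSingle o g) w' = 1 := by
      intro w' hw'
      change κ (v w') ((Pi.mulSingle o g : A) (π w') : G) = _
      rw [Pi.mulSingle_eq_of_ne hw', Subgroup.coe_one, map_one]
    refine ⟨ex (Pi.mulSingle o g), rfl, ?_, ?_⟩
    · intro q hq
      have h3 : e (ex (Pi.mulSingle o g)) ∈ Subgroup.centralizer (Q : Set X) :=
        (hcent _).mpr ⟨fun o' => ((Pi.mulSingle o g : A) o' : G), fun o' => (_ : ↥(FX κ _)).2, rfl⟩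
      rw [RINA.cent e p φ hE1 Q] at h3
      have h4 := h3 q hq (s o)
      rw [← h4, hin (s o) (hs o), hvs, map_one, MulAut.one_apply]
    · intro w' hw'
      apply hout
      intro h3
      obtain ⟨q, hq, h4⟩ := (hπ (s o) w').mp (by rw [hs, h3])
      exact hw' q hq h4
  · rcases Nat.eq_zero_or_pos d' with h3 | h3
    · rw [h3] at hd'
      exact absurd hd' ho
    · exact h3
  · have h3 := ip_trans (MonoidHom.mulSingle (fun o => ↥(FX κ (Pw φ Q (s o)))) o)
      (hψ.resj j) (isIrr_prodFn hθ) (hθ o) hip' (ip_single hθ o)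
    exact h3

end Pool.Agent.DPC


end

section

/-!
# Theorem X: the radical of the algebra of a block of a group with a normal subgroup of
order `ℓ`
-/

namespace Pool.Agent.DPX

open Pool.Agent.DPB Pool.Agent.DPW Representation

namespace SPX

/-! ### The group algebra -/

section tr

variable {F T : Type} [Field F] [Group T] [Fintype T]

/-- The element of the group algebra. -/
noncomputable def al (a : T → F) : MonoidAlgebra F T :=
  MonoidAlgebra.ofCoeff (Finsupp.equivFunOnFinite.symm a)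

/-- The function of an element of the group algebra. -/
def fn (r : MonoidAlgebra F T) : T → F := fun t => r.coeff t

theorem al_coeff (a : T → F) (t : T) : (al a).coeff t = a t := rfl

theorem fn_al (a : T → F) : fn (al a) = a := rfl

theorem al_fn (r : MonoidAlgebra F T) : al (fn r) = r := by
  apply MonoidAlgebra.ext
  ext t
  rfl

theorem al_inj {a b : T → F} (h : al a = al b) : a = b := by
  rw [← fn_al a, h, fn_al]

theorem al_add (a b : T → F) : al (a + b) = al a + al b := by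
  apply MonoidAlgebra.ext
  ext t
  rfl

theorem al_smul (c : F) (a : T → F) : al (c • a) = c • al a := by
  apply MonoidAlgebra.ext
  ext t
  rfl

theorem al_zero : al (0 : T → F) = 0 := by
  apply MonoidAlgebra.ext
  ext t
  rfl

theorem al_sum {ι : Type*} (s : Finset ι) (f : ι → T → F) :
    al (∑ i ∈ s, f i) = ∑ i ∈ s, al (f i) := by
  classical
  induction s using Finset.induction_on with
  | empty => rw [Finset.sum_empty, Finset.sum_empty, al_zero]
  | insert i s hi ih => rw [Finset.sum_insert hi, Finset.sum_insert hi, al_add, ih]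

theorem al_cvF (a b : T → F) : al (cvF a b) = al a * al b := by
  apply MonoidAlgebra.ext
  ext t
  show cvF a b t = _
  rw [MonoidAlgebra.coeff_mul_apply_left, Finsupp.sum_fintype]
  · rfl
  · intro i
    rw [zero_mul]

open Classical in
theorem al_one : al (Pi.single (1 : T) (1 : F)) = 1 := by
  apply MonoidAlgebra.ext
  ext t
  show (Pi.single (1 : T) (1 : F) : T → F) t = _
  rw [MonoidAlgebra.one_def, MonoidAlgebra.coeff_single]
  by_cases h : t = 1
  · subst h
    rw [Pi.single_eq_same, Finsupp.single_eq_same]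
  · rw [Pi.single_eq_of_ne h, Finsupp.single_eq_of_ne h]

theorem al_cvp (z : T → F) (k : ℕ) : al (cvp z k) = al z ^ k := by
  induction k with
  | zero =>
    rw [pow_zero]
    exact al_one
  | succ k ih =>
    rw [pow_succ, ← ih, ← al_cvF]
    rfl

theorem zop_al {V : Type} [AddCommGroup V] [Module F V] (ρ : Representation F T V)
    (a : T → F) : Zop ρ a = ρ.asAlgebraHom (al a) := by
  rw [Representation.asAlgebraHom_def, MonoidAlgebra.lift_apply, Finsupp.sum_fintype]
  · rfl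
  · intro h
    rw [zero_smul]

theorem al_center {a : T → F} : a ∈ CF F T ↔ al a ∈ Subalgebra.center F (MonoidAlgebra F T) := by
  rw [Subalgebra.mem_center_iff]
  constructor
  · intro ha b
    induction b using MonoidAlgebra.induction_linear with
    | zero => rw [zero_mul, mul_zero]
    | add x y hx hy => rw [add_mul, mul_add, hx, hy]
    | single g r =>
      apply MonoidAlgebra.ext
      ext t
      rw [MonoidAlgebra.coeff_single_mul_apply, MonoidAlgebra.coeff_mul_single_apply, al_coeff,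
        al_coeff, mul_comm]
      congr 1
      have h1 := ha g (g⁻¹ * t)
      rw [← h1]
      congr 1
      group
  · intro ha g x
    have h1 := ha (MonoidAlgebra.single g 1)
    have h2 := congrArg (fun r : MonoidAlgebra F T => r.coeff (g * x)) h1
    rw [MonoidAlgebra.coeff_single_mul_apply, MonoidAlgebra.coeff_mul_single_apply, al_coeff,
      al_coeff, mul_one, one_mul, inv_mul_cancel_left] at h2
    exact h2.symm

end tr

/-! ### Central elements and idempotents of an algebra -/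

section alg

variable {A : Type} [Ring A]

/-- The element is central. -/
def Cen (w : A) : Prop := ∀ a, a * w = w * a

theorem Cen.mul {v w : A} (hv : Cen v) (hw : Cen w) : Cen (v * w) := by
  intro a
  rw [← mul_assoc, hv a, mul_assoc, hw a, mul_assoc]

theorem Cen.add {v w : A} (hv : Cen v) (hw : Cen w) : Cen (v + w) := by
  intro a
  rw [mul_add, add_mul, hv a, hw a]

theorem Cen.sub {v w : A} (hv : Cen v) (hw : Cen w) : Cen (v - w) := by
  intro a
  rw [mul_sub, sub_mul, hv a, hw a]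

theorem Cen.zero : Cen (0 : A) := by
  intro a
  rw [mul_zero, zero_mul]

theorem Cen.one : Cen (1 : A) := by
  intro a
  rw [mul_one, one_mul]

theorem Cen.pow {v : A} (hv : Cen v) (k : ℕ) : Cen (v ^ k) := by
  induction k with
  | zero =>
    rw [pow_zero]
    exact Cen.one
  | succ k ih =>
    rw [pow_succ]
    exact ih.mul hv

theorem Cen.sum {ι : Type*} {s : Finset ι} {f : ι → A} (h : ∀ i ∈ s, Cen (f i)) :
    Cen (∑ i ∈ s, f i) := by
  classical
  induction s using Finset.induction_on with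
  | empty =>
    rw [Finset.sum_empty]
    exact Cen.zero
  | insert i s hi ih =>
    rw [Finset.sum_insert hi]
    exact (h i (Finset.mem_insert_self i s)).add
      (ih fun j hj => h j (Finset.mem_insert_of_mem hj))

theorem Cen.commute {v : A} (hv : Cen v) (w : A) : Commute v w := (hv w).symm

theorem Cen.smul {F : Type} [Field F] [Algebra F A] {v : A} (hv : Cen v) (c : F) :
    Cen (c • v) := by
  intro a
  rw [mul_smul_comm, smul_mul_assoc, hv a]

theorem nil_mul {v : A} (hv : Cen v) (hn : IsNilpotent v) (w : A) : IsNilpotent (v * w) :=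
  (hv.commute w).isNilpotent_mul_right hn

theorem nil_sum {ι : Type*} {s : Finset ι} {f : ι → A} (h : ∀ i ∈ s, Cen (f i))
    (hn : ∀ i ∈ s, IsNilpotent (f i)) : IsNilpotent (∑ i ∈ s, f i) :=
  Commute.isNilpotent_sum hn fun i _ hi _ => (h i hi).commute _

/-- The element is a primitive idempotent of the centre. -/
def PrmA (w : A) : Prop :=
  Cen w ∧ w * w = w ∧ w ≠ 0 ∧ ∀ f : A, Cen f → f * f = f → w * f = f → f = 0 ∨ f = w

theorem prm_orth {w w' : A} (h : PrmA w) (h' : PrmA w') : w = w' ∨ w * w' = 0 := by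
  obtain ⟨hc, hi, -, hp⟩ := h
  obtain ⟨hc', hi', -, hp'⟩ := h'
  have h0 : w * w' = w' * w := (hc w').symm
  have h1 : w * w' * (w * w') = w * w' := by
    calc w * w' * (w * w') = w * (w' * w) * w' := by noncomm_ring
      _ = w * (w * w') * w' := by rw [← h0]
      _ = (w * w) * (w' * w') := by noncomm_ring
      _ = w * w' := by rw [hi, hi']
  have h2 : w * (w * w') = w * w' := by rw [← mul_assoc, hi]
  have h3 : w' * (w * w') = w * w' := by rw [h0, ← mul_assoc, hi']
  rcases hp _ (hc.mul hc') h1 h2 with h4 | h4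
  · exact Or.inr h4
  · rcases hp' _ (hc.mul hc') h1 h3 with h5 | h5
    · exact Or.inr h5
    · exact Or.inl (h4.symm.trans h5)

theorem exists_prm (F : Type) [Field F] [Algebra F A] [Module.Finite F A] {ε : A} (hc : Cen ε)
    (hi : ε * ε = ε) (h0 : ε ≠ 0) : ∃ w : A, PrmA w ∧ ε * w = w := by
  classical
  have hex : ∃ d : ℕ, ∃ f : A, Cen f ∧ f * f = f ∧ f ≠ 0 ∧ ε * f = f ∧
      Module.finrank F (LinearMap.range (LinearMap.mulLeft F f)) = d :=
    ⟨_, ε, hc, hi, h0, hi, rfl⟩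
  obtain ⟨w, hw1, hw2, hw3, hw4, hw5⟩ := Nat.find_spec hex
  refine ⟨w, ⟨hw1, hw2, hw3, fun f hf1 hf2 hf3 => ?_⟩, hw4⟩
  by_cases hf0 : f = 0
  · exact Or.inl hf0
  right
  have hf4 : ε * f = f := by rw [← hf3, ← mul_assoc, hw4]
  have h1 := Nat.find_min' hex ⟨f, hf1, hf2, hf0, hf4, rfl⟩
  rw [← hw5] at h1
  have h2 : LinearMap.range (LinearMap.mulLeft F f) ≤ LinearMap.range (LinearMap.mulLeft F w) := by
    rintro _ ⟨x, rfl⟩
    refine ⟨f * x, ?_⟩
    rw [LinearMap.mulLeft_apply, LinearMap.mulLeft_apply, ← mul_assoc, hf3]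
  have h3 := Submodule.eq_of_le_of_finrank_le h2 h1
  have h4 : w ∈ LinearMap.range (LinearMap.mulLeft F w) := by
    refine ⟨w, ?_⟩
    rw [LinearMap.mulLeft_apply, hw2]
  rw [← h3] at h4
  obtain ⟨x, hx⟩ := h4
  rw [LinearMap.mulLeft_apply] at hx
  have h5 : f * w = w := by rw [← hx, ← mul_assoc, hf2]
  have h6 : f * w = w * f := (hf1 w).symm
  rw [← hf3, ← h6, h5]

end alg

/-! ### The conjugates of a primitive idempotent -/

section conj

variable {F A N : Type} [Field F] [Ring A] [Algebra F A] [Group N]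

/-- An action by automorphisms. -/
structure Act (γ : N → A →ₐ[F] A) : Prop where
  one : ∀ a, γ 1 a = a
  mul : ∀ g h a, γ (g * h) a = γ g (γ h a)

variable {γ : N → A →ₐ[F] A} (hγ : Act γ)

include hγ

theorem Act.inv_l (g : N) (a : A) : γ g⁻¹ (γ g a) = a := by
  rw [← hγ.mul, inv_mul_cancel, hγ.one]

theorem Act.inv_r (g : N) (a : A) : γ g (γ g⁻¹ a) = a := by
  rw [← hγ.mul, mul_inv_cancel, hγ.one]

theorem Act.inj (g : N) : Function.Injective (γ g) := fun a b h => by
  rw [← hγ.inv_l g a, h, hγ.inv_l]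

theorem Act.cen (g : N) {w : A} (hw : Cen w) : Cen (γ g w) := by
  intro b
  have h1 := congrArg (γ g) (hw (γ g⁻¹ b))
  rw [map_mul, map_mul, hγ.inv_r] at h1
  exact h1

theorem Act.prm (g : N) {w : A} (hw : PrmA w) : PrmA (γ g w) := by
  obtain ⟨h1, h2, h3, h4⟩ := hw
  refine ⟨hγ.cen g h1, by rw [← map_mul, h2], fun h => h3 ?_, fun f hf1 hf2 hf3 => ?_⟩
  · rw [← hγ.inv_l g w, h, map_zero]
  · have h5 := h4 (γ g⁻¹ f) (hγ.cen g⁻¹ hf1) (by rw [← map_mul, hf2]) (by
      have := congrArg (γ g⁻¹) hf3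
      rw [map_mul, hγ.inv_l] at this
      exact this)
    rcases h5 with h5 | h5
    · left
      rw [← hγ.inv_r g f, h5, map_zero]
    · right
      rw [← hγ.inv_r g f, h5]

open Classical in
omit hγ in
variable (γ) in
/-- The set of the conjugates. -/
noncomputable def Orb [Fintype N] (w : A) : Finset A := Finset.univ.image fun g => γ g w

variable [Fintype N]

omit hγ in
theorem mem_orb {w v : A} : v ∈ Orb γ w ↔ ∃ g, γ g w = v := by
  classical
  unfold Orb
  rw [Finset.mem_image]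
  constructor
  · rintro ⟨g, -, h⟩
    exact ⟨g, h⟩
  · rintro ⟨g, h⟩
    exact ⟨g, Finset.mem_univ _, h⟩

theorem Act.orb_prm {w v : A} (hw : PrmA w) (hv : v ∈ Orb γ w) : PrmA v := by
  obtain ⟨g, rfl⟩ := mem_orb.1 hv
  exact hγ.prm g hw

theorem Act.orb_mul {w v v' : A} (hw : PrmA w) (hv : v ∈ Orb γ w) (hv' : v' ∈ Orb γ w)
    (hne : v ≠ v') : v * v' = 0 :=
  (prm_orth (hγ.orb_prm hw hv) (hγ.orb_prm hw hv')).resolve_left hne

theorem Act.orb_sum_mul {w v : A} (hw : PrmA w) (hv : v ∈ Orb γ w) :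
    (∑ u ∈ Orb γ w, u) * v = v := by
  classical
  rw [Finset.sum_mul, Finset.sum_eq_single v]
  · exact (hγ.orb_prm hw hv).2.1
  · intro u hu hne
    exact hγ.orb_mul hw hu hv hne
  · intro h
    exact absurd hv h

theorem Act.orb_map (g : N) (w : A) {v : A} (hv : v ∈ Orb γ w) : γ g v ∈ Orb γ w := by
  obtain ⟨h, rfl⟩ := mem_orb.1 hv
  exact mem_orb.2 ⟨g * h, hγ.mul g h w⟩

theorem Act.orb_sum (g : N) (w : A) : γ g (∑ u ∈ Orb γ w, u) = ∑ u ∈ Orb γ w, u := by
  classical
  rw [map_sum]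
  refine Finset.sum_nbij' (fun u => γ g u) (fun u => γ g⁻¹ u) ?_ ?_ ?_ ?_ ?_
  · intro u hu
    exact hγ.orb_map g w hu
  · intro u hu
    exact hγ.orb_map g⁻¹ w hu
  · intro u _
    exact hγ.inv_l g u
  · intro u _
    exact hγ.inv_r g u
  · intro u _
    rfl

/-- The sum of the conjugates. -/
theorem Act.orb_eq {w ε : A} (hw : PrmA w) (he : ε * w = w) (heg : ∀ g, γ g ε = ε)
    (hmin : ∀ f : A, Cen f → (∀ g, γ g f = f) → f * f = f → ε * f = f → f = 0 ∨ f = ε) :
    ∑ u ∈ Orb γ w, u = ε := by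
  classical
  have hww : w ∈ Orb γ w := mem_orb.2 ⟨1, hγ.one w⟩
  have h1 : (∑ u ∈ Orb γ w, u) * (∑ u ∈ Orb γ w, u) = ∑ u ∈ Orb γ w, u := by
    rw [Finset.mul_sum]
    exact Finset.sum_congr rfl fun v hv => hγ.orb_sum_mul hw hv
  have h2 : ε * (∑ u ∈ Orb γ w, u) = ∑ u ∈ Orb γ w, u := by
    rw [Finset.mul_sum]
    refine Finset.sum_congr rfl fun v hv => ?_
    obtain ⟨g, rfl⟩ := mem_orb.1 hv
    rw [← heg g, ← map_mul, he]
  rcases hmin _ (Cen.sum fun v hv => (hγ.orb_prm hw hv).1) (fun g => hγ.orb_sum g w) h1 h2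
    with h3 | h3
  · exfalso
    have h4 := hγ.orb_sum_mul hw hww
    rw [h3, zero_mul] at h4
    exact hw.2.2.1 h4.symm
  · exact h3

end conj

/-! ### Matrix units -/

section mat

variable {F A : Type} [Field F] [Ring A] [Algebra F A]

variable (F) in
/-- The algebra `e A` is the algebra of the `m × m`-matrices over `F[z] / (z ^ c)`. -/
structure MU (e : A) (m c : ℕ) (E : Fin m → Fin m → A) (z : A) : Prop where
  mu : ∀ i j k l, E i j * E k l = if j = k then E i l else 0
  on : ∑ i, E i i = e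
  zc : Cen z
  ze : e * z = z
  sp : ∀ a : A, ∃ t : ℕ → Fin m → Fin m → F,
    e * a = ∑ k ∈ Finset.range c, ∑ i, ∑ j, t k i j • (z ^ k * E i j)
  nl : e * z ^ c = 0

variable {e : A} {m c : ℕ} {E : Fin m → Fin m → A} {z : A}

theorem MU.eE (h : MU F e m c E z) (i j : Fin m) : e * E i j = E i j := by
  rw [← h.on, Finset.sum_mul, Finset.sum_eq_single i]
  · rw [h.mu, if_pos rfl]
  · intro k _ hk
    rw [h.mu, if_neg hk]
  · intro h'
    exact absurd (Finset.mem_univ i) h'

theorem MU.Ee (h : MU F e m c E z) (i j : Fin m) : E i j * e = E i j := by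
  rw [← h.on, Finset.mul_sum, Finset.sum_eq_single j]
  · rw [h.mu, if_pos rfl]
  · intro k _ hk
    rw [h.mu, if_neg (Ne.symm hk)]
  · intro h'
    exact absurd (Finset.mem_univ j) h'

theorem MU.nil (h : MU F e m c E z) : IsNilpotent z := by
  refine ⟨c + 1, ?_⟩
  have h1 : z ^ (c + 1) = e * z ^ c * z := by
    rw [pow_succ', ← h.ze, mul_assoc]
    rw [h.ze]
    rw [mul_assoc, ← pow_succ, ← pow_succ']
  rw [h1, h.nl, zero_mul]

theorem MU.poly (h : MU F e m c E z) (i0 : Fin m) {y : A} (hy : Cen y) (hey : e * y = y) :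
    ∃ t : ℕ → F, y = ∑ k ∈ Finset.range c, t k • (z ^ k * e) := by
  obtain ⟨t, ht⟩ := h.sp y
  rw [hey] at ht
  refine ⟨fun k => t k i0 i0, ?_⟩
  have h1 : ∀ i, E i i * y = ∑ k ∈ Finset.range c, t k i0 i0 • (z ^ k * E i i) := by
    intro i
    have h2 : E i i * y = E i i0 * y * E i0 i := by
      have h3 : E i i = E i i0 * E i0 i := by rw [h.mu, if_pos rfl]
      rw [h3, mul_assoc, hy, ← mul_assoc]
    rw [h2]
    conv_lhs => rw [ht]
    rw [Finset.mul_sum, Finset.sum_mul]
    refine Finset.sum_congr rfl fun k _ => ?_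
    rw [Finset.mul_sum, Finset.sum_mul, Finset.sum_eq_single i0]
    · rw [Finset.mul_sum, Finset.sum_mul, Finset.sum_eq_single i0]
      · rw [mul_smul_comm, smul_mul_assoc, ← mul_assoc, (h.zc.pow k) (E i i0), mul_assoc, mul_assoc,
          h.mu, if_pos rfl, h.mu, if_pos rfl]
      · intro j _ hj
        rw [mul_smul_comm, smul_mul_assoc, mul_assoc, mul_assoc, h.mu, if_neg hj, mul_zero,
          mul_zero, smul_zero]
      · intro h'
        exact absurd (Finset.mem_univ i0) h'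
    · intro k' _ hk
      rw [Finset.mul_sum, Finset.sum_mul]
      refine Finset.sum_eq_zero fun j _ => ?_
      rw [mul_smul_comm, smul_mul_assoc, ← mul_assoc, (h.zc.pow k) (E i i0), mul_assoc (z ^ k),
        h.mu, if_neg (Ne.symm hk), mul_zero, zero_mul, smul_zero]
    · intro h'
      exact absurd (Finset.mem_univ i0) h'
  have h2 : y = ∑ i, E i i * y := by rw [← Finset.sum_mul, h.on, hey]
  rw [h2, Finset.sum_congr rfl fun i _ => h1 i, Finset.sum_comm]
  refine Finset.sum_congr rfl fun k _ => ?_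
  rw [← Finset.smul_sum, ← Finset.mul_sum, h.on]

theorem MU.div (h : MU F e m c E z) (i0 : Fin m) (he : Cen e) (hi : e * e = e) (h0 : e ≠ 0)
    {y : A} (hy : Cen y) (hey : e * y = y) (hn : IsNilpotent y) : ∃ x, Cen x ∧ y = z * x := by
  obtain ⟨t, ht⟩ := h.poly i0 hy hey
  cases c with
  | zero =>
    rw [Finset.range_zero, Finset.sum_empty] at ht
    exact ⟨0, Cen.zero, by rw [ht, mul_zero]⟩
  | succ c =>
    rw [Finset.sum_range_succ', pow_zero, one_mul] at ht
    have hx : Cen (∑ k ∈ Finset.range c, t (k + 1) • (z ^ k * e)) :=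
      Cen.sum fun k _ => ((h.zc.pow k).mul he).smul _
    have h1 : z * (∑ k ∈ Finset.range c, t (k + 1) • (z ^ k * e)) =
        ∑ k ∈ Finset.range c, t (k + 1) • (z ^ (k + 1) * e) := by
      rw [Finset.mul_sum]
      refine Finset.sum_congr rfl fun k _ => ?_
      rw [mul_smul_comm, ← mul_assoc, ← pow_succ']
    refine ⟨_, hx, ?_⟩
    rw [← h1] at ht
    have h2 : t 0 • e = y - z * (∑ k ∈ Finset.range c, t (k + 1) • (z ^ k * e)) := by
      rw [ht]
      abel
    have h3 : IsNilpotent (t 0 • e) := by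
      rw [h2]
      exact (hy.commute _).isNilpotent_sub hn (nil_mul h.zc h.nil _)
    have h4 : t 0 = 0 := by
      by_contra h5
      apply h0
      have h6 : e = (t 0)⁻¹ • (t 0 • e) := by
        rw [smul_smul, inv_mul_cancel₀ h5, one_smul]
      have h7 : IsNilpotent e := by
        obtain ⟨k, hk⟩ := h3
        refine ⟨k, ?_⟩
        rw [h6, smul_pow, hk, smul_zero]
      exact IsIdempotentElem.eq_zero_of_isNilpotent hi h7
    rw [h4, zero_smul, add_zero] at ht
    exact ht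

end mat

/-! ### The radical -/

theorem comp_sm {F U V W ι : Type} [Field F] [AddCommGroup U] [Module F U] [AddCommGroup V]
    [Module F V] [AddCommGroup W] [Module F W] (g : V →ₗ[F] W) (s : Finset ι)
    (f : ι → U →ₗ[F] V) : g ∘ₗ (∑ i ∈ s, f i) = ∑ i ∈ s, g ∘ₗ f i := by
  apply LinearMap.ext
  intro x
  rw [LinearMap.comp_apply, LinearMap.sum_apply, LinearMap.sum_apply, map_sum]
  rfl

theorem sm_comp {F U V W ι : Type} [Field F] [AddCommGroup U] [Module F U] [AddCommGroup V]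
    [Module F V] [AddCommGroup W] [Module F W] (g : U →ₗ[F] V) (s : Finset ι)
    (f : ι → V →ₗ[F] W) : (∑ i ∈ s, f i) ∘ₗ g = ∑ i ∈ s, f i ∘ₗ g := by
  apply LinearMap.ext
  intro x
  rw [LinearMap.comp_apply, LinearMap.sum_apply, LinearMap.sum_apply]
  rfl

section rad

variable {F A N : Type} [Field F] [Ring A] [Algebra F A] [Group N] [Fintype N]
  {γ : N → A →ₐ[F] A}

theorem Act.main (hγ : Act γ) {e1 ε : A} (hp : PrmA e1) (hs : ∑ u ∈ Orb γ e1, u = ε) {m c : ℕ}
    {E : Fin m → Fin m → A} {z1 : A} (h : MU F e1 m c E z1) :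
    ∃ (z : A) (s : ℕ) (a b : Fin s → A), Cen z ∧ ε * z = z ∧ IsNilpotent z ∧
      (∀ i, ε * a i = a i) ∧ (∀ i, b i * ε = b i) ∧ (∑ i, a i * b i = ε) ∧
      (∀ y, Cen y → IsNilpotent y → ε * y = y → ∃ x, Cen x ∧ y = z * x) ∧
      ∀ (V V' : Type) [AddCommGroup V] [Module F V] [AddCommGroup V'] [Module F V']
        (R : A →ₐ[F] Module.End F V) (L : A →ₐ[F] Module.End F V') (f : V →ₗ[F] V'),
        f ∘ₗ R z = L z ∘ₗ f → ∀ r, L r ∘ₗ (∑ i, L (a i) ∘ₗ f ∘ₗ R (b i)) =
          (∑ i, L (a i) ∘ₗ f ∘ₗ R (b i)) ∘ₗ R r := by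
  classical
  -- an index
  have hm : 0 < m := by
    rcases Nat.eq_zero_or_pos m with h1 | h1
    · exfalso
      subst h1
      exact hp.2.2.1 (by rw [← h.on, Finset.univ_eq_empty, Finset.sum_empty])
    · exact h1
  let i0 : Fin m := ⟨0, hm⟩
  -- representatives
  have hrep : ∀ w : A, ∃ g : N, w ∈ Orb γ e1 → γ g e1 = w := by
    intro w
    by_cases hw : w ∈ Orb γ e1
    · obtain ⟨g, hg⟩ := mem_orb.1 hw
      exact ⟨g, fun _ => hg⟩
    · exact ⟨1, fun h' => absurd h' hw⟩
  choose nn hnn using hrep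
  set O := Orb γ e1 with hO
  have hOp : ∀ w ∈ O, PrmA w := fun w hw => hγ.orb_prm hp hw
  have hOm : ∀ w ∈ O, ∀ w' ∈ O, w ≠ w' → w * w' = 0 := fun w hw w' hw' hne =>
    hγ.orb_mul hp hw hw' hne
  have hεw : ∀ w ∈ O, ε * w = w := fun w hw => by
    rw [← hs]
    exact hγ.orb_sum_mul hp hw
  have hwε : ∀ w ∈ O, w * ε = w := fun w hw => by
    rw [← (hOp w hw).1 ε, hεw w hw]
  have hγw : ∀ w ∈ O, ∀ a, e1 * a = a → w * γ (nn w) a = γ (nn w) a := by
    intro w hw a ha
    calc w * γ (nn w) a = γ (nn w) e1 * γ (nn w) a := by rw [hnn w hw]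
      _ = γ (nn w) a := by rw [← map_mul, ha]
  have hγw' : ∀ w ∈ O, ∀ a, a * e1 = a → γ (nn w) a * w = γ (nn w) a := by
    intro w hw a ha
    calc γ (nn w) a * w = γ (nn w) a * γ (nn w) e1 := by rw [hnn w hw]
      _ = γ (nn w) a := by rw [← map_mul, ha]
  have hεγ : ∀ w ∈ O, ∀ a, e1 * a = a → ε * γ (nn w) a = γ (nn w) a := by
    intro w hw a ha
    rw [← hγw w hw a ha, ← mul_assoc, hεw w hw]
  have hγε : ∀ w ∈ O, ∀ a, a * e1 = a → γ (nn w) a * ε = γ (nn w) a := by
    intro w hw a ha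
    rw [← hγw' w hw a ha, mul_assoc, hwε w hw]
  let z : A := ∑ w ∈ O, γ (nn w) z1
  have hzc1 : ∀ w, Cen (γ (nn w) z1) := fun w => hγ.cen _ h.zc
  have hwz : ∀ w ∈ O, w * z = γ (nn w) z1 := by
    intro w hw
    show w * (∑ w ∈ O, γ (nn w) z1) = _
    rw [Finset.mul_sum, Finset.sum_eq_single w]
    · exact hγw w hw z1 h.ze
    · intro w' hw' hne
      rw [← hγw w' hw' z1 h.ze, ← mul_assoc, hOm w hw w' hw' (Ne.symm hne), zero_mul]
    · intro h'
      exact absurd hw h'
  have hz : Cen z := Cen.sum fun w _ => hzc1 w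
  let J := {w // w ∈ O} × Fin m
  let φ : Fin (Fintype.card J) ≃ J := (Fintype.equivFin J).symm
  refine ⟨z, Fintype.card J, fun i => γ (nn (φ i).1) (E (φ i).2 i0),
    fun i => γ (nn (φ i).1) (E i0 (φ i).2), hz, ?_, ?_, ?_, ?_, ?_, ?_, ?_⟩
  · show ε * (∑ w ∈ O, γ (nn w) z1) = ∑ w ∈ O, γ (nn w) z1
    rw [Finset.mul_sum]
    exact Finset.sum_congr rfl fun w hw => hεγ w hw z1 h.ze
  · refine nil_sum (fun w _ => hzc1 w) fun w _ => ?_
    obtain ⟨k, hk⟩ := h.nil
    exact ⟨k, by rw [← map_pow, hk, map_zero]⟩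
  · exact fun i => hεγ _ (φ i).1.2 _ (h.eE _ _)
  · exact fun i => hγε _ (φ i).1.2 _ (h.Ee _ _)
  · rw [Equiv.sum_comp φ fun j : J => γ (nn j.1) (E j.2 i0) * γ (nn j.1) (E i0 j.2),
      Fintype.sum_prod_type, ← hs, ← Finset.sum_coe_sort O]
    refine Finset.sum_congr rfl fun w _ => ?_
    have h1 : ∀ i : Fin m, γ (nn w) (E i i0) * γ (nn w) (E i0 i) = γ (nn w) (E i i) := by
      intro i
      rw [← map_mul, h.mu, if_pos rfl]
    rw [Finset.sum_congr rfl fun i _ => h1 i, ← map_sum, h.on, hnn w w.2]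
  · intro y hy hyn hey
    have h1 : ∀ w : A, ∃ x, w ∈ O → Cen x ∧ w * y = γ (nn w) z1 * x := by
      intro w
      by_cases hw : w ∈ O
      · have h2 : Cen (γ (nn w)⁻¹ (w * y)) := hγ.cen _ ((hOp w hw).1.mul hy)
        have h3 : e1 * γ (nn w)⁻¹ (w * y) = γ (nn w)⁻¹ (w * y) := by
          apply hγ.inj (nn w)
          rw [map_mul, hγ.inv_r, hnn w hw, ← mul_assoc, (hOp w hw).2.1]
        have h4 : IsNilpotent (γ (nn w)⁻¹ (w * y)) := by
          obtain ⟨k, hk⟩ := nil_mul hy hyn w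
          rw [← hy w] at hk
          exact ⟨k, by rw [← map_pow, hk, map_zero]⟩
        obtain ⟨x, hx, hx'⟩ := h.div i0 hp.1 hp.2.1 hp.2.2.1 h2 h3 h4
        refine ⟨γ (nn w) x, fun _ => ⟨hγ.cen _ hx, ?_⟩⟩
        rw [← map_mul, ← hx', hγ.inv_r]
      · exact ⟨0, fun h' => absurd h' hw⟩
    choose x hx using h1
    refine ⟨∑ w ∈ O, w * x w, Cen.sum fun w hw => (hOp w hw).1.mul (hx w hw).1, ?_⟩
    rw [Finset.mul_sum]
    conv_lhs => rw [← hey, ← hs, Finset.sum_mul]
    refine Finset.sum_congr rfl fun w hw => ?_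
    rw [(hx w hw).2, ← mul_assoc, ← hz w, hwz w hw]
  · intro V V' _ _ _ _ R L f hf r
    let X : A → Fin m → Fin m → V →ₗ[F] V' := fun w i j =>
      L (γ (nn w) (E i i0)) ∘ₗ f ∘ₗ R (γ (nn w) (E i0 j))
    have hΦ : (∑ i : Fin (Fintype.card J), L (γ (nn (φ i).1) (E (φ i).2 i0)) ∘ₗ f ∘ₗ
        R (γ (nn (φ i).1) (E i0 (φ i).2))) = ∑ w ∈ O, ∑ i, X w i i := by
      rw [Equiv.sum_comp φ fun j : J => L (γ (nn j.1) (E j.2 i0)) ∘ₗ f ∘ₗ
        R (γ (nn j.1) (E i0 j.2)), Fintype.sum_prod_type, ← Finset.sum_coe_sort O]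
    show L r ∘ₗ (∑ i : Fin (Fintype.card J), L (γ (nn (φ i).1) (E (φ i).2 i0)) ∘ₗ f ∘ₗ
        R (γ (nn (φ i).1) (E i0 (φ i).2))) = (∑ i : Fin (Fintype.card J),
        L (γ (nn (φ i).1) (E (φ i).2 i0)) ∘ₗ f ∘ₗ R (γ (nn (φ i).1) (E i0 (φ i).2))) ∘ₗ R r
    rw [hΦ]
    have hL : ∀ (a b : A) (g : V →ₗ[F] V'), L a ∘ₗ L b ∘ₗ g = L (a * b) ∘ₗ g := by
      intro a b g
      rw [map_mul, Module.End.mul_eq_comp, LinearMap.comp_assoc]
    have hR : ∀ (a b : A) (g : V →ₗ[F] V'), (g ∘ₗ R a) ∘ₗ R b = g ∘ₗ R (a * b) := by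
      intro a b g
      rw [map_mul, Module.End.mul_eq_comp, LinearMap.comp_assoc]
    have hmu : ∀ w ∈ O, ∀ w' ∈ O, ∀ i j k l, γ (nn w) (E i j) * γ (nn w') (E k l) =
        if w = w' ∧ j = k then γ (nn w) (E i l) else 0 := by
      intro w hw w' hw' i j k l
      by_cases hww : w = w'
      · subst hww
        rw [← map_mul, h.mu]
        by_cases hjk : j = k
        · rw [if_pos hjk, if_pos ⟨rfl, hjk⟩]
        · rw [if_neg hjk, if_neg (fun h' => hjk h'.2), map_zero]
      · rw [if_neg (fun h' => hww h'.1), ← hγw' w hw _ (h.Ee i j), ← hγw w' hw' _ (h.eE k l),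
          mul_assoc, ← mul_assoc w, hOm w hw w' hw' hww, zero_mul, mul_zero]
    have hX1 : ∀ w ∈ O, ∀ k l, L (γ (nn w) (E k l)) ∘ₗ (∑ w' ∈ O, ∑ i, X w' i i) = X w k l := by
      intro w hw k l
      rw [comp_sm, Finset.sum_eq_single w]
      · rw [comp_sm, Finset.sum_eq_single l]
        · show L (γ (nn w) (E k l)) ∘ₗ L (γ (nn w) (E l i0)) ∘ₗ f ∘ₗ R (γ (nn w) (E i0 l)) = _
          rw [hL, hmu w hw w hw, if_pos ⟨rfl, rfl⟩]
        · intro i _ hi
          show L (γ (nn w) (E k l)) ∘ₗ L (γ (nn w) (E i i0)) ∘ₗ f ∘ₗ R (γ (nn w) (E i0 i)) = 0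
          rw [hL, hmu w hw w hw, if_neg (fun h' => hi h'.2.symm), map_zero, LinearMap.zero_comp]
        · intro h'
          exact absurd (Finset.mem_univ l) h'
      · intro w' hw' hne
        rw [comp_sm]
        refine Finset.sum_eq_zero fun i _ => ?_
        show L (γ (nn w) (E k l)) ∘ₗ L (γ (nn w') (E i i0)) ∘ₗ f ∘ₗ R (γ (nn w') (E i0 i)) = 0
        rw [hL, hmu w hw w' hw', if_neg (fun h' => hne h'.1.symm), map_zero, LinearMap.zero_comp]
      · intro h'
        exact absurd hw h'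
    have hX2 : ∀ w ∈ O, ∀ k l, (∑ w' ∈ O, ∑ i, X w' i i) ∘ₗ R (γ (nn w) (E k l)) = X w k l := by
      intro w hw k l
      rw [sm_comp, Finset.sum_eq_single w]
      · rw [sm_comp, Finset.sum_eq_single k]
        · show (L (γ (nn w) (E k i0)) ∘ₗ f ∘ₗ R (γ (nn w) (E i0 k))) ∘ₗ R (γ (nn w) (E k l)) = _
          rw [← LinearMap.comp_assoc, hR, hmu w hw w hw, if_pos ⟨rfl, rfl⟩, LinearMap.comp_assoc]
        · intro i _ hi
          show (L (γ (nn w) (E i i0)) ∘ₗ f ∘ₗ R (γ (nn w) (E i0 i))) ∘ₗ R (γ (nn w) (E k l)) = 0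
          rw [← LinearMap.comp_assoc, hR, hmu w hw w hw, if_neg (fun h' => hi h'.2), map_zero,
            LinearMap.comp_zero]
        · intro h'
          exact absurd (Finset.mem_univ k) h'
      · intro w' hw' hne
        rw [sm_comp]
        refine Finset.sum_eq_zero fun i _ => ?_
        show (L (γ (nn w') (E i i0)) ∘ₗ f ∘ₗ R (γ (nn w') (E i0 i))) ∘ₗ R (γ (nn w) (E k l)) = 0
        rw [← LinearMap.comp_assoc, hR, hmu w' hw' w hw, if_neg (fun h' => hne h'.1), map_zero,
          LinearMap.comp_zero]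
      · intro h'
        exact absurd hw h'
    set Φ : V →ₗ[F] V' := ∑ w' ∈ O, ∑ i, X w' i i with hΦdef
    have hzΦ : L z ∘ₗ Φ = Φ ∘ₗ R z := by
      rw [hΦdef, comp_sm, sm_comp]
      refine Finset.sum_congr rfl fun w _ => ?_
      rw [comp_sm, sm_comp]
      refine Finset.sum_congr rfl fun i _ => ?_
      show L z ∘ₗ L (γ (nn w) (E i i0)) ∘ₗ f ∘ₗ R (γ (nn w) (E i0 i)) =
        (L (γ (nn w) (E i i0)) ∘ₗ f ∘ₗ R (γ (nn w) (E i0 i))) ∘ₗ R z
      calc L z ∘ₗ L (γ (nn w) (E i i0)) ∘ₗ f ∘ₗ R (γ (nn w) (E i0 i))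
          = L (γ (nn w) (E i i0) * z) ∘ₗ f ∘ₗ R (γ (nn w) (E i0 i)) := by rw [hL, hz]
        _ = L (γ (nn w) (E i i0)) ∘ₗ (L z ∘ₗ f) ∘ₗ R (γ (nn w) (E i0 i)) := by
            rw [← hL]
            rfl
        _ = L (γ (nn w) (E i i0)) ∘ₗ f ∘ₗ R (γ (nn w) (E i0 i) * z) := by rw [← hf, hR, hz]
        _ = (L (γ (nn w) (E i i0)) ∘ₗ f ∘ₗ R (γ (nn w) (E i0 i))) ∘ₗ R z := by
            rw [← hR]
            rfl
    have hadd : ∀ a b : A, L a ∘ₗ Φ = Φ ∘ₗ R a → L b ∘ₗ Φ = Φ ∘ₗ R b →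
        L (a + b) ∘ₗ Φ = Φ ∘ₗ R (a + b) := by
      intro a b ha hb
      rw [map_add, map_add, LinearMap.add_comp, LinearMap.comp_add, ha, hb]
    have hmul : ∀ a b : A, L a ∘ₗ Φ = Φ ∘ₗ R a → L b ∘ₗ Φ = Φ ∘ₗ R b →
        L (a * b) ∘ₗ Φ = Φ ∘ₗ R (a * b) := by
      intro a b ha hb
      rw [← hL, hb, ← LinearMap.comp_assoc, ha, hR]
    have hsmul : ∀ (t : F) (a : A), L a ∘ₗ Φ = Φ ∘ₗ R a → L (t • a) ∘ₗ Φ = Φ ∘ₗ R (t • a) := by
      intro t a ha
      rw [map_smul, map_smul, LinearMap.smul_comp, LinearMap.comp_smul, ha]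
    have hsum : ∀ {ι : Type} (s : Finset ι) (a : ι → A), (∀ i ∈ s, L (a i) ∘ₗ Φ = Φ ∘ₗ R (a i)) →
        L (∑ i ∈ s, a i) ∘ₗ Φ = Φ ∘ₗ R (∑ i ∈ s, a i) := by
      intro ι s a ha
      rw [map_sum, map_sum, sm_comp, comp_sm]
      exact Finset.sum_congr rfl ha
    have hpow : ∀ k : ℕ, L (z ^ k) ∘ₗ Φ = Φ ∘ₗ R (z ^ k) := by
      intro k
      induction k with
      | zero => rw [pow_zero, map_one, map_one]; rfl
      | succ k ih =>
        rw [pow_succ]
        exact hmul _ _ ih hzΦ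
    have hzk : ∀ w ∈ O, ∀ (k : ℕ) (i j : Fin m), γ (nn w) (z1 ^ k * E i j) =
        z ^ k * γ (nn w) (E i j) := by
      intro w hw k i j
      induction k with
      | zero => rw [pow_zero, pow_zero, one_mul, one_mul]
      | succ k ih =>
        calc γ (nn w) (z1 ^ (k + 1) * E i j) = γ (nn w) z1 * γ (nn w) (z1 ^ k * E i j) := by
              rw [← map_mul, pow_succ', mul_assoc]
          _ = (w * z) * (z ^ k * γ (nn w) (E i j)) := by rw [hwz w hw, ih]
          _ = (z * w) * (z ^ k * γ (nn w) (E i j)) := by rw [hz w]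
          _ = z * ((w * z ^ k) * γ (nn w) (E i j)) := by rw [mul_assoc, mul_assoc]
          _ = z * ((z ^ k * w) * γ (nn w) (E i j)) := by rw [(hz.pow k) w]
          _ = z * (z ^ k * (w * γ (nn w) (E i j))) := by rw [mul_assoc (z ^ k)]
          _ = z ^ (k + 1) * γ (nn w) (E i j) := by
              rw [hγw w hw _ (h.eE i j), ← mul_assoc, ← pow_succ']
    have hwr : ∀ w ∈ O, L (w * r) ∘ₗ Φ = Φ ∘ₗ R (w * r) := by
      intro w hw
      obtain ⟨t, ht⟩ := h.sp (γ (nn w)⁻¹ r)
      have h1 : w * r = γ (nn w) (e1 * γ (nn w)⁻¹ r) := by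
        rw [map_mul, hnn w hw, hγ.inv_r]
      rw [h1, ht, map_sum]
      refine hsum _ _ fun k _ => ?_
      rw [map_sum]
      refine hsum _ _ fun i _ => ?_
      rw [map_sum]
      refine hsum _ _ fun j _ => ?_
      rw [map_smul]
      refine hsmul _ _ ?_
      rw [hzk w hw]
      refine hmul _ _ (hpow k) ?_
      rw [hX1 w hw, hX2 w hw]
    have hεr : L (ε * r) ∘ₗ Φ = Φ ∘ₗ R (ε * r) := by
      rw [← hs, Finset.sum_mul]
      exact hsum _ _ hwr
    have hεc : Cen ε := by
      rw [← hs]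
      exact Cen.sum fun w hw => (hOp w hw).1
    have hεΦ : L ε ∘ₗ Φ = Φ := by
      rw [hΦdef, comp_sm]
      refine Finset.sum_congr rfl fun w hw => ?_
      rw [comp_sm]
      refine Finset.sum_congr rfl fun i _ => ?_
      show L ε ∘ₗ L (γ (nn w) (E i i0)) ∘ₗ f ∘ₗ R (γ (nn w) (E i0 i)) = _
      rw [hL, hεγ w hw _ (h.eE _ _)]
    have hΦε : Φ ∘ₗ R ε = Φ := by
      rw [hΦdef, sm_comp]
      refine Finset.sum_congr rfl fun w hw => ?_
      rw [sm_comp]
      refine Finset.sum_congr rfl fun i _ => ?_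
      show (L (γ (nn w) (E i i0)) ∘ₗ f ∘ₗ R (γ (nn w) (E i0 i))) ∘ₗ R ε = _
      rw [← LinearMap.comp_assoc, hR, hγε w hw _ (h.Ee _ _), LinearMap.comp_assoc]
    calc L r ∘ₗ Φ = L r ∘ₗ L ε ∘ₗ Φ := by rw [hεΦ]
      _ = L (ε * r) ∘ₗ Φ := by rw [hL, hεc r]
      _ = Φ ∘ₗ R (ε * r) := hεr
      _ = (Φ ∘ₗ R ε) ∘ₗ R r := by rw [hR]
      _ = Φ ∘ₗ R r := by rw [hΦε]

end rad

/-! ### A normal subgroup -/

section sub

variable {F N : Type} [Field F] [Group N] (C : Subgroup N) [C.Normal]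

variable (F) in
/-- The conjugation with an element. -/
noncomputable def gm (g : N) : MonoidAlgebra F C →ₐ[F] MonoidAlgebra F C :=
  MonoidAlgebra.mapDomainAlgHom F F (MulAut.conjNormal g : MulAut C).toMonoidHom

theorem gm_single (g : N) (c : C) (r : F) :
    gm F C g (MonoidAlgebra.single c r) = MonoidAlgebra.single (MulAut.conjNormal g c) r :=
  MonoidAlgebra.mapDomain_single

theorem gm_act : Act (gm F C) := by
  constructor
  · intro a
    induction a using MonoidAlgebra.induction_linear with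
    | zero => rw [map_zero]
    | add x y hx hy => rw [map_add, hx, hy]
    | single c r =>
      rw [gm_single, map_one]
      rfl
  · intro g h a
    induction a using MonoidAlgebra.induction_linear with
    | zero => rw [map_zero, map_zero, map_zero]
    | add x y hx hy => rw [map_add, map_add, map_add, hx, hy]
    | single c r =>
      rw [gm_single, gm_single, gm_single, map_mul]
      rfl

theorem gm_coeff (g : N) (a : MonoidAlgebra F C) (x : C) :
    (gm F C g a).coeff x = a.coeff (MulAut.conjNormal g⁻¹ x) := by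
  have h1 : x = MulAut.conjNormal g (MulAut.conjNormal g⁻¹ x) := by
    rw [← MulAut.mul_apply, ← map_mul, mul_inv_cancel, map_one]
    rfl
  conv_lhs => rw [h1]
  exact Finsupp.mapDomain_apply (MulAut.conjNormal g : MulAut C).injective a.coeff _

omit [C.Normal] in
variable (F) in
/-- The inclusion. -/
noncomputable def ii : MonoidAlgebra F C →ₐ[F] MonoidAlgebra F N :=
  MonoidAlgebra.mapDomainAlgHom F F C.subtype

omit [C.Normal] in
theorem ii_single (c : C) (r : F) :
    ii F C (MonoidAlgebra.single c r) = MonoidAlgebra.single (c : N) r :=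
  MonoidAlgebra.mapDomain_single

omit [C.Normal] in
theorem ii_coeff (a : MonoidAlgebra F C) (x : C) : (ii F C a).coeff (x : N) = a.coeff x :=
  Finsupp.mapDomain_apply C.subtype_injective a.coeff x

omit [C.Normal] in
theorem ii_coeff' (a : MonoidAlgebra F C) (h : N) (hh : h ∉ C) : (ii F C a).coeff h = 0 := by
  refine Finsupp.mapDomain_of_notMem_range a.coeff h ?_
  rintro ⟨x, rfl⟩
  exact hh x.2

omit [C.Normal] in
theorem ii_inj : Function.Injective (ii F C) := by
  intro a b h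
  apply MonoidAlgebra.ext
  ext x
  rw [← ii_coeff, ← ii_coeff, h]

theorem ii_comm (g : N) (r : F) (a : MonoidAlgebra F C) :
    MonoidAlgebra.single g r * ii F C a = ii F C (gm F C g a) * MonoidAlgebra.single g r := by
  induction a using MonoidAlgebra.induction_linear with
  | zero => rw [map_zero, map_zero, map_zero, mul_zero, zero_mul]
  | add x y hx hy => rw [map_add, map_add, map_add, mul_add, add_mul, hx, hy]
  | single c s =>
    rw [gm_single, ii_single, ii_single, MonoidAlgebra.single_mul_single,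
      MonoidAlgebra.single_mul_single, MulAut.conjNormal_apply, inv_mul_cancel_right, mul_comm r]

omit [C.Normal] in
/-- The restriction of a function. -/
def rs (a : N → F) : C → F := fun c => a c

variable [Fintype N] [Fintype C]

omit [C.Normal] in
theorem ii_rs {a : N → F} (ha : ∀ h, a h ≠ 0 → h ∈ C) : ii F C (al (rs C a)) = al a := by
  apply MonoidAlgebra.ext
  ext h
  by_cases hh : h ∈ C
  · have h1 := ii_coeff C (al (rs C a)) ⟨h, hh⟩
    exact h1
  · rw [ii_coeff' C _ h hh]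
    by_contra h1
    exact hh (ha h (Ne.symm h1))

omit [C.Normal] [Fintype N] [Fintype C] in
theorem rs_mem {a : N → F} (ha : a ∈ CF F N) : rs C a ∈ CF F C := by
  intro g x
  exact ha g x

omit [Fintype N] in
theorem gm_rs {a : N → F} (ha : a ∈ CF F N) (g : N) :
    gm F C g (al (rs C a)) = al (rs C a) := by
  apply MonoidAlgebra.ext
  ext x
  rw [gm_coeff]
  show a ((MulAut.conjNormal g⁻¹ x : C) : N) = a x
  rw [MulAut.conjNormal_apply]
  exact ha g⁻¹ x

/-- Restriction of products. -/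
theorem rs_cvF {a b : N → F} (ha : ∀ h, a h ≠ 0 → h ∈ C) :
    rs C (cvF a b) = cvF (rs C a) (rs C b) := by
  classical
  funext h
  show ∑ y : N, a y * b (y⁻¹ * h) = ∑ y : C, a y * b ((y⁻¹ * h : C) : N)
  rw [← Finset.sum_filter_of_ne (s := Finset.univ) (p := fun y => y ∈ C)
    (f := fun y : N => a y * b (y⁻¹ * (h : N)))
    (fun y _ hy => ha y (left_ne_zero_of_mul hy))]
  exact Finset.sum_subtype _ (fun y => by simp) fun y : N => a y * b (y⁻¹ * (h : N))

omit [Fintype C] in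
theorem al_cen {T : Type} [Group T] [Fintype T] {a : T → F} : a ∈ CF F T ↔ Cen (al a) := by
  rw [al_center, Subalgebra.mem_center_iff]
  rfl

omit [Fintype N] [Fintype C] in
theorem cen_ii {f : MonoidAlgebra F C} (hf : ∀ g, gm F C g f = f) : Cen (ii F C f) := by
  intro a
  induction a using MonoidAlgebra.induction_linear with
  | zero => rw [zero_mul, mul_zero]
  | add x y hx hy => rw [add_mul, mul_add, hx, hy]
  | single g r => rw [ii_comm, hf]

theorem hmin {e : N → F} (hprm : Prm e) (hs : ∀ h, e h ≠ 0 → h ∈ C) (f : MonoidAlgebra F C)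
    (hfg : ∀ g, gm F C g f = f) (hff : f * f = f) (hef : al (rs C e) * f = f) :
    f = 0 ∨ f = al (rs C e) := by
  obtain ⟨-, -, -, h4⟩ := hprm
  have h5 := h4 (fn (ii F C f)) (al_cen.2 (by rw [al_fn]; exact cen_ii C hfg))
    (al_inj (by rw [al_cvF, al_fn, ← map_mul, hff]))
    (al_inj (by rw [al_cvF, al_fn, ← ii_rs C hs, ← map_mul, hef]))
  rcases h5 with h5 | h5
  · left
    apply ii_inj C
    rw [← al_fn (ii F C f), h5, al_zero, map_zero]
  · right
    apply ii_inj C
    rw [← al_fn (ii F C f), h5, ii_rs C hs]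

omit [Fintype N] [Fintype C] in
theorem prm_fn {T : Type} [Group T] [Fintype T] {w : MonoidAlgebra F T} (hw : PrmA w) :
    Prm (fn w) := by
  obtain ⟨h1, h2, h3, h4⟩ := hw
  refine ⟨al_cen.2 (by rw [al_fn]; exact h1), al_inj (by rw [al_cvF, al_fn, h2]), fun h => h3 ?_,
    fun f hf1 hf2 hf3 => ?_⟩
  · rw [← al_fn w, h, al_zero]
  · have h5 := h4 (al f) (al_cen.1 hf1) (by rw [← al_cvF, hf2]) (by
      rw [← hf3, al_cvF, al_fn, ← mul_assoc, h2])
    rcases h5 with h5 | h5
    · exact Or.inl (al_inj (by rw [h5, al_zero]))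
    · exact Or.inr (al_inj (by rw [h5, al_fn]))

end sub

/-! ### Class functions -/

section cls

variable {F T : Type} [Field F] [Group T]

theorem clsF_mem (x₀ : T) : clsF F x₀ ∈ CF F T := by
  intro g y
  unfold clsF
  congr 1
  apply propext
  constructor
  · rintro ⟨a, ha⟩
    refine ⟨g⁻¹ * a, ?_⟩
    calc y = g⁻¹ * (g * y * g⁻¹) * g := by group
      _ = g⁻¹ * (a * x₀ * a⁻¹) * g := by rw [ha]
      _ = g⁻¹ * a * x₀ * (g⁻¹ * a)⁻¹ := by group
  · rintro ⟨a, ha⟩
    refine ⟨g * a, ?_⟩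
    rw [ha]
    group

theorem clsF_ne {x₀ y : T} (h : clsF F x₀ y ≠ 0) : ∃ g, y = g * x₀ * g⁻¹ := by
  by_contra h1
  exact h (by rw [clsF, if_neg h1])

open Classical in
theorem cf_decomp [Fintype T] {φ : T → F} (hφ : φ ∈ CF F T) :
    φ = ∑ K : ConjClasses T, φ K.out • clsF F K.out := by
  funext t
  rw [Finset.sum_apply, Finset.sum_eq_single (ConjClasses.mk t)]
  · have h1 : IsConj (Quotient.out (ConjClasses.mk t)) t := by
      rw [← ConjClasses.mk_eq_mk_iff_isConj]
      exact Quotient.out_eq _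
    obtain ⟨c, hc⟩ := isConj_iff.1 h1
    have h2 : clsF F (Quotient.out (ConjClasses.mk t)) t = 1 := by
      rw [clsF, if_pos ⟨c, hc.symm⟩]
    rw [Pi.smul_apply, h2, smul_eq_mul, mul_one]
    conv_lhs => rw [← hc]
    exact hφ c _
  · intro K _ hK
    rw [Pi.smul_apply, smul_eq_mul]
    have h2 : clsF F K.out t = 0 := by
      by_contra h3
      obtain ⟨g, hg⟩ := clsF_ne h3
      apply hK
      have h4 : IsConj K.out t := isConj_iff.2 ⟨g, hg.symm⟩
      rw [← ConjClasses.mk_eq_mk_iff_isConj] at h4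
      rw [← h4]
      exact (Quotient.out_eq K).symm
    rw [h2, mul_zero]
  · intro h
    exact absurd (Finset.mem_univ _) h

end cls

/-! ### The defect groups -/

section grp

variable {N : Type} [Group N]

theorem mem_mapc {g u : N} {P : Subgroup N} :
    u ∈ P.map (MulAut.conj g).toMonoidHom ↔ ∃ p ∈ P, u = g * p * g⁻¹ := by
  constructor
  · rintro ⟨p, hp, rfl⟩
    exact ⟨p, hp, rfl⟩
  · rintro ⟨p, hp, rfl⟩
    exact ⟨p, hp, rfl⟩

theorem cyc_conj {ℓ n : ℕ} [Finite N] {P₁ P : Subgroup N} [P₁.Normal] {x₀ : N}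
    (hD : CycD ℓ n P₁ P x₀) (C : Subgroup N) (g : N)
    (hPC : P.map (MulAut.conj g).toMonoidHom ≤ C) (x' : C) (hx : (x' : N) = g * x₀ * g⁻¹) :
    CycD ℓ n (P₁.subgroupOf C) ((P.map (MulAut.conj g).toMonoidHom).subgroupOf C) x' := by
  have hinj : Function.Injective (MulAut.conj g).toMonoidHom := (MulAut.conj g).injective
  have hle : P₁ ≤ P.map (MulAut.conj g).toMonoidHom := by
    intro v hv
    refine mem_mapc.2 ⟨g⁻¹ * v * g⁻¹⁻¹, hD.le (Subgroup.Normal.conj_mem inferInstance v hv g⁻¹),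
      by group⟩
  have e1 : P ≃* (P.map (MulAut.conj g).toMonoidHom).subgroupOf C :=
    (P.equivMapOfInjective _ hinj).trans (Subgroup.subgroupOfEquivOfLe hPC).symm
  refine ⟨?_, ?_, ?_, ?_, ?_, ?_⟩
  · intro v hv
    exact hle hv
  · rw [Nat.card_congr (Subgroup.subgroupOfEquivOfLe (hle.trans hPC)).toEquiv, hD.c1]
  · have := hD.cyc
    exact e1.isCyclic.1 this
  · rw [← Nat.card_congr e1.toEquiv, hD.card]
  · intro u hu
    obtain ⟨p, hp, hup⟩ := mem_mapc.1 hu
    apply Subtype.ext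
    show (u : N) * (x' : N) = (x' : N) * (u : N)
    rw [hx]
    have hup' : (u : N) = g * p * g⁻¹ := hup
    rw [hup']
    have h1 := hD.cen p hp
    calc g * p * g⁻¹ * (g * x₀ * g⁻¹) = g * (p * x₀) * g⁻¹ := by group
      _ = g * (x₀ * p) * g⁻¹ := by rw [h1]
      _ = g * x₀ * g⁻¹ * (g * p * g⁻¹) := by group
  · intro hdvd
    apply hD.sq
    refine hdvd.trans ?_
    let f : C →* N := (MulAut.conj g⁻¹).toMonoidHom.comp C.subtype
    have hf : Function.Injective f := by
      intro a b h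
      exact Subtype.ext ((MulAut.conj g⁻¹).injective h)
    rw [← Subgroup.card_map_of_injective (K := Subgroup.centralizer ({x'} : Set C)) hf]
    refine Subgroup.card_dvd_of_le ?_
    rintro _ ⟨c, hc, rfl⟩
    rw [Subgroup.mem_centralizer_iff]
    intro x hx0
    rw [Set.mem_singleton_iff] at hx0
    subst hx0
    have h1 : c ∈ Subgroup.centralizer ({x'} : Set C) := hc
    rw [Subgroup.mem_centralizer_iff] at h1
    have h2 := congrArg (fun t : C => (t : N)) (h1 x' rfl)
    have h3 : (x' : N) * (c : N) = (c : N) * (x' : N) := h2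
    rw [hx] at h3
    show x * (g⁻¹ * (c : N) * g⁻¹⁻¹) = g⁻¹ * (c : N) * g⁻¹⁻¹ * x
    calc x * (g⁻¹ * (c : N) * g⁻¹⁻¹) = g⁻¹ * (g * x * g⁻¹ * (c : N)) * g := by group
      _ = g⁻¹ * ((c : N) * (g * x * g⁻¹)) * g := by rw [h3]
      _ = g⁻¹ * (c : N) * g⁻¹⁻¹ * x := by group

end grp

/-! ### The block of the centralizer -/

section blk

variable {ℓ n : ℕ} [Fact ℓ.Prime] {F N : Type} [Field F] [CharP F ℓ] [Group N] [Fintype N]
  {P₁ P : Subgroup N} [P₁.Normal] {x₀ : N} {e : N → F}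

theorem blk (h1 : Stmt_SUPX) (h2 : Stmt_LOCX) (hB : BKX ℓ n P₁ P x₀ e)
    (C : Subgroup N) [C.Normal] [Fintype C] (hPC : P ≤ C) (hx : x₀ ∈ C)
    (hs : ∀ h, e h ≠ 0 → h ∈ C) {w : MonoidAlgebra F C} (hw : PrmA w)
    (hew : al (rs C e) * w = w) (hsum : ∑ u ∈ Orb (gm F C) w, u = al (rs C e)) :
    ∃ (P' : Subgroup C) (x' : C), BKX ℓ n (P₁.subgroupOf C) P' x' (fn w) := by
  classical
  obtain ⟨y, hy, hey⟩ := hB.fac
  have hcn : ∀ (g : N) (c : N), c ∈ C → g * c * g⁻¹ ∈ C := fun g c hc =>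
    Subgroup.Normal.conj_mem inferInstance c hc g
  -- the class sum
  have hκs : ∀ h, clsF F x₀ h ≠ 0 → h ∈ C := by
    intro h hh
    obtain ⟨g, rfl⟩ := clsF_ne hh
    exact hcn g x₀ hx
  have hκ : rs C (clsF F x₀) ∈ CF F C := rs_mem C (clsF_mem x₀)
  have h3 : w = w * al (rs C (clsF F x₀)) * al (rs C y) := by
    have h4 : al (rs C e) = al (rs C (clsF F x₀)) * al (rs C y) := by
      rw [← al_cvF, ← rs_cvF C hκs, ← hey]
    calc w = al (rs C e) * w := hew.symm
      _ = w * al (rs C e) := hw.1 _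
      _ = w * al (rs C (clsF F x₀)) * al (rs C y) := by rw [h4, mul_assoc]
  have h5 : ∃ K : ConjClasses C, rs C (clsF F x₀) K.out ≠ 0 ∧
      ¬ IsNilpotent (w * al (clsF F (K.out : C))) := by
    by_contra hcon
    push Not at hcon
    have h6 : IsNilpotent (w * al (rs C (clsF F x₀))) := by
      rw [cf_decomp hκ, al_sum, Finset.mul_sum]
      refine nil_sum (fun K _ => ?_) (fun K _ => ?_)
      · rw [al_smul, mul_smul_comm]
        exact (hw.1.mul (al_cen.1 (clsF_mem _))).smul _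
      · rw [al_smul, mul_smul_comm]
        by_cases hK : rs C (clsF F x₀) K.out = 0
        · rw [hK, zero_smul]
          exact IsNilpotent.zero
        · obtain ⟨k, hk⟩ := hcon K hK
          exact ⟨k, by rw [smul_pow, hk, smul_zero]⟩
    have h7 : IsNilpotent w := by
      rw [h3]
      exact nil_mul (hw.1.mul (al_cen.1 hκ)) h6 _
    exact hw.2.2.1 (IsIdempotentElem.eq_zero_of_isNilpotent hw.2.1 h7)
  obtain ⟨K, hK, hKn⟩ := h5
  obtain ⟨g, hg⟩ := clsF_ne hK
  set x' : C := K.out with hx'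
  have hcm : clsF F x' ∈ CF F C := clsF_mem x'
  have hfw : fn w ∈ CF F C := al_cen.2 (by rw [al_fn]; exact hw.1)
  have h8 := h2 F C (fn w) (prm_fn hw) (cvF (fn w) (clsF F x'))
    (al_cen.2 (by rw [al_cvF, al_fn]; exact hw.1.mul (al_cen.1 hcm)))
    (al_inj (by rw [al_cvF, al_cvF, al_fn, ← mul_assoc, hw.2.1]))
  have h9 : ∃ v ∈ CF F C, fn w = cvF (clsF F x') v := by
    rcases h8 with ⟨k, hk⟩ | ⟨v, hv, hwv, hv'⟩
    · exfalso
      apply hKn
      refine ⟨k, ?_⟩
      have h10 := congrArg al hk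
      rw [al_cvp, al_cvF, al_fn, al_zero] at h10
      exact h10
    · refine ⟨v, hv, al_inj ?_⟩
      have e1 := congrArg al hv'
      have e2 := congrArg al hwv
      rw [al_cvF, al_cvF, al_fn] at e1
      rw [al_cvF, al_fn] at e2
      rw [al_fn, al_cvF]
      calc w = w * al (clsF F x') * al v := e1.symm
        _ = al (clsF F x') * (w * al v) := by rw [← hw.1 (al (clsF F x')), mul_assoc]
        _ = al (clsF F x') * al v := by rw [e2]
  have hPg : ∀ g : N, P.map (MulAut.conj g).toMonoidHom ≤ C := by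
    intro g u hu
    obtain ⟨p, hp, rfl⟩ := mem_mapc.1 hu
    exact hcn g p (hPC hp)
  have hcard : ∀ g : N, Nat.card ((P.map (MulAut.conj g).toMonoidHom).subgroupOf C) = ℓ ^ n := by
    intro g
    rw [Nat.card_congr (Subgroup.subgroupOfEquivOfLe (hPg g)).toEquiv,
      Subgroup.card_map_of_injective (MulAut.conj g).injective, hB.cd.card]
  have hD := cyc_conj hB.cd C g (hPg g) x' hg
  refine ⟨(P.map (MulAut.conj g).toMonoidHom).subgroupOf C, x', ⟨hD, hfw,
    al_inj (by rw [al_cvF, al_fn, hw.2.1]), h9, ?_⟩⟩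
  obtain ⟨v, hv, hv'⟩ := h9
  obtain ⟨h, hh, hcen⟩ := hB.nz
  have hhC := hs h hh
  have h10 : (∑ u ∈ Orb (gm F C) w, u).coeff (⟨h, hhC⟩ : C) ≠ 0 := by
    rw [hsum]
    exact hh
  rw [MonoidAlgebra.coeff_sum, Finsupp.finsetSum_apply] at h10
  obtain ⟨u, hu, hu0⟩ := Finset.exists_ne_zero_of_sum_ne_zero h10
  obtain ⟨g', rfl⟩ := mem_orb.1 hu
  rw [gm_coeff] at hu0
  set k : C := MulAut.conjNormal g'⁻¹ ⟨h, hhC⟩ with hk
  have hkv : (k : N) = g'⁻¹ * h * g'⁻¹⁻¹ := MulAut.conjNormal_apply _ _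
  set Q : Subgroup C := (P.map (MulAut.conj g'⁻¹).toMonoidHom).subgroupOf C with hQ
  have hQp : IsPGroup ℓ Q := IsPGroup.of_card (n := n) (hcard g'⁻¹)
  have hQc : ∀ u ∈ Q, u * k = k * u := by
    intro u hu
    obtain ⟨p, hp, hup⟩ := mem_mapc.1 hu
    have hup' : (u : N) = g'⁻¹ * p * g'⁻¹⁻¹ := hup
    apply Subtype.ext
    show (u : N) * (k : N) = (k : N) * (u : N)
    rw [hup', hkv]
    have h11 := hcen p hp
    calc g'⁻¹ * p * g'⁻¹⁻¹ * (g'⁻¹ * h * g'⁻¹⁻¹) = g'⁻¹ * (p * h) * g'⁻¹⁻¹ := by group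
      _ = g'⁻¹ * (h * p) * g'⁻¹⁻¹ := by rw [h11]
      _ = g'⁻¹ * h * g'⁻¹⁻¹ * (g'⁻¹ * p * g'⁻¹⁻¹) := by group
  obtain ⟨t, ht⟩ := h1.1 ℓ F C x' v hv k (by rw [← hv']; exact hu0) Q hQp hQc
  obtain ⟨t', -, ht'⟩ := h1.2.1 ℓ n C _ _ x' hD (Q.map (MulAut.conj t).toMonoidHom)
    (hQp.map _) (by
      intro u hu
      obtain ⟨q, hq, rfl⟩ := mem_mapc.1 hu
      exact ht q hq)
  have hle : Q.map (MulAut.conj (t' * t)).toMonoidHom ≤
      (P.map (MulAut.conj g).toMonoidHom).subgroupOf C := by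
    intro u hu
    obtain ⟨q, hq, rfl⟩ := mem_mapc.1 hu
    have h12 := ht' (t * q * t⁻¹) (mem_mapc.2 ⟨q, hq, rfl⟩)
    have h13 : t' * t * q * (t' * t)⁻¹ = t' * (t * q * t⁻¹) * t'⁻¹ := by group
    rw [h13]
    exact h12
  have heq : Q.map (MulAut.conj (t' * t)).toMonoidHom =
      (P.map (MulAut.conj g).toMonoidHom).subgroupOf C := by
    apply Subgroup.eq_of_le_of_card_ge hle
    rw [hcard g, Subgroup.card_map_of_injective (MulAut.conj (t' * t)).injective, hQ,
      hcard g'⁻¹]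
  refine ⟨t' * t * k * (t' * t)⁻¹, ?_, ?_⟩
  · rw [hfw (t' * t) k]
    exact hu0
  · intro u hu
    rw [← heq] at hu
    obtain ⟨q, hq, rfl⟩ := mem_mapc.1 hu
    have h14 := hQc q hq
    calc t' * t * q * (t' * t)⁻¹ * (t' * t * k * (t' * t)⁻¹)
        = t' * t * (q * k) * (t' * t)⁻¹ := by group
      _ = t' * t * (k * q) * (t' * t)⁻¹ := by rw [h14]
      _ = t' * t * k * (t' * t)⁻¹ * (t' * t * q * (t' * t)⁻¹) := by group

end blk

end SPX

open _root_.Pool.Agent.DPX.SPX in
/-- SPX: the radical of the algebra of a block of a group with a normal subgroup of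
order `ℓ`. -/
theorem SPX_thm (h1 : Stmt_SUPX) (h2 : Stmt_LOCX) : Stmt_SPX := by
  intro ℓ n _ F N _ _ _ _ _ P₁ P _ x₀ e hB hprm hs hN
  classical
  let _ : Fintype (Subgroup.centralizer (P₁ : Set N)) := Fintype.ofFinite _
  set C : Subgroup N := Subgroup.centralizer (P₁ : Set N) with hC
  have hcomm : ∀ u ∈ P, ∀ v ∈ P, u * v = v * u := by
    intro u hu v hv
    have hcyc := hB.cd.cyc
    obtain ⟨g, hg⟩ := hcyc.exists_generator
    obtain ⟨i, hi⟩ := Subgroup.mem_zpowers_iff.1 (hg ⟨u, hu⟩)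
    obtain ⟨j, hj⟩ := Subgroup.mem_zpowers_iff.1 (hg ⟨v, hv⟩)
    have h3 : (⟨u, hu⟩ : P) * ⟨v, hv⟩ = ⟨v, hv⟩ * ⟨u, hu⟩ := by
      rw [← hi, ← hj, ← zpow_add, ← zpow_add, add_comm]
    exact congrArg (fun t : P => (t : N)) h3
  have hPC : P ≤ C := by
    intro u hu
    rw [hC, Subgroup.mem_centralizer_iff]
    intro v hv
    exact hcomm v (hB.cd.le hv) u hu
  have hx : x₀ ∈ C := by
    rw [hC, Subgroup.mem_centralizer_iff]
    intro v hv
    exact hB.cd.cen v (hB.cd.le hv)
  have hε : Cen (al (rs C e)) := al_cen.1 (rs_mem C hB.cf)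
  have hεε : al (rs C e) * al (rs C e) = al (rs C e) := by
    rw [← al_cvF, ← rs_cvF C hs, hB.idem]
  have hε0 : al (rs C e) ≠ 0 := by
    obtain ⟨h, hh, -⟩ := hB.nz
    intro h3
    apply hh
    have h4 : (al (rs C e)).coeff (⟨h, hs h hh⟩ : C) = 0 := by
      rw [h3]
      rfl
    exact h4
  obtain ⟨w, hw, hew⟩ := exists_prm F hε hεε hε0
  have hsum := (gm_act C).orb_eq hw hew (fun g => gm_rs C hB.cf g)
    fun f _ hg hff hef => hmin C hprm hs f hg hff hef
  obtain ⟨P', x', hBC⟩ := blk h1 h2 hB C hPC hx hs hw hew hsum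
  obtain ⟨m, E, z1, hNil⟩ := hN C (P₁.subgroupOf C) P' x' (fn w) hBC (prm_fn hw) (by
    intro u hu
    rw [Subgroup.mem_center_iff]
    intro c
    apply Subtype.ext
    have h3 : (c : N) ∈ Subgroup.centralizer (P₁ : Set N) := c.2
    rw [Subgroup.mem_centralizer_iff] at h3
    exact (h3 (u : N) hu).symm)
  have hMU : MU F w m (ℓ ^ n) (fun i j => al (E i j)) (al z1) := by
    refine ⟨?_, ?_, ?_, ?_, ?_, ?_⟩
    · intro i j k l
      rw [← al_cvF, hNil.mu]
      by_cases hjk : j = k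
      · rw [if_pos hjk, if_pos hjk]
      · rw [if_neg hjk, if_neg hjk, al_zero]
    · rw [← al_sum, hNil.on, al_fn]
    · exact al_cen.1 hNil.zc
    · have h3 := congrArg al hNil.ze
      rw [al_cvF, al_fn] at h3
      exact h3
    · intro a
      obtain ⟨t, ht⟩ := hNil.sp (fn a)
      refine ⟨t, ?_⟩
      have h3 := congrArg al ht
      rw [al_cvF, al_fn, al_fn, al_sum] at h3
      rw [h3]
      refine Finset.sum_congr rfl fun k _ => ?_
      rw [al_sum]
      refine Finset.sum_congr rfl fun i _ => ?_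
      rw [al_sum]
      refine Finset.sum_congr rfl fun j _ => ?_
      rw [al_smul, al_cvF, al_cvp]
    · have h3 := congrArg al hNil.nl
      rw [al_cvF, al_fn, al_cvp, al_zero] at h3
      exact h3
  obtain ⟨z, s, a, b, hz, hεz, ⟨K, hK⟩, hεa, hbε, hab, hdiv, hcom⟩ :=
    (gm_act C).main hw hsum hMU
  have hie : al e = ii F C (al (rs C e)) := (ii_rs C hs).symm
  refine ⟨fn (ii F C z), s, K, fun i => fn (ii F C (a i)), fun i => fn (ii F C (b i)),
    al_inj ?_, al_inj ?_, fun i => al_inj ?_, fun i => al_inj ?_, ?_⟩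
  · rw [al_cvF, al_fn, hie, ← map_mul, hεz]
  · rw [al_cvp, al_fn, ← map_pow, hK, map_zero, al_zero]
  · rw [al_cvF, al_fn, hie, ← map_mul, hεa]
  · rw [al_cvF, al_fn, hie, ← map_mul, hbε]
  · intro V _ _ ρ
    have hZ : ∀ r : MonoidAlgebra F C, Zop ρ (fn (ii F C r)) = ρ.asAlgebraHom (ii F C r) :=
      fun r => by rw [zop_al, al_fn]
    have hρ : ∀ c : C, ρ c = ρ.asAlgebraHom (ii F C (MonoidAlgebra.single c 1)) := fun c => by
      rw [ii_single, asAlgebraHom_single_one]
    refine ⟨?_, ?_, ?_, ?_⟩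
    · intro c hc
      rw [hZ, hρ ⟨c, hc⟩, ← Module.End.mul_eq_comp, ← Module.End.mul_eq_comp, ← map_mul,
        ← map_mul, ← map_mul, ← map_mul, hz]
    · intro t g v
      have hgz : ∃ x, Cen x ∧ gm F C g z = z * x := by
        refine hdiv _ ((gm_act C).cen g hz) ⟨K, by rw [← map_pow, hK, map_zero]⟩ ?_
        rw [← gm_rs C hB.cf g, ← map_mul, hεz]
      obtain ⟨x, hxc, hxz⟩ := hgz
      rw [hZ, ← map_pow, ← map_pow]
      have h3 : MonoidAlgebra.single g 1 * ii F C (z ^ t) =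
          ii F C (z ^ t) * (ii F C (x ^ t) * MonoidAlgebra.single g 1) := by
        rw [ii_comm, map_pow (gm F C g), hxz, (hz.commute x).mul_pow, map_mul, mul_assoc]
      have h4 := congrArg (fun r => ρ.asAlgebraHom r v) h3
      simp only [map_mul, Module.End.mul_apply, asAlgebraHom_single_one] at h4
      rw [h4]
      exact ⟨_, rfl⟩
    · have h3 : ∀ i, Zop ρ (fn (ii F C (a i))) ∘ₗ Zop ρ (fn (ii F C (b i))) =
          ρ.asAlgebraHom (ii F C (a i * b i)) := by
        intro i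
        rw [hZ, hZ, ← Module.End.mul_eq_comp, ← map_mul, ← map_mul]
      rw [Finset.sum_congr rfl fun i _ => h3 i, ← map_sum, ← map_sum, hab, ← hie, ← zop_al]
    · intro V' _ _ ρ' f hf c hc
      have hZ' : ∀ r : MonoidAlgebra F C,
          Zop ρ' (fn (ii F C r)) = ρ'.asAlgebraHom (ii F C r) :=
        fun r => by rw [zop_al, al_fn]
      have hρ' : ∀ c : C, ρ' c = ρ'.asAlgebraHom (ii F C (MonoidAlgebra.single c 1)) :=
        fun c => by rw [ii_single, asAlgebraHom_single_one]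
      rw [hZ, hZ'] at hf
      have h3 := hcom V V' (ρ.asAlgebraHom.comp (ii F C)) (ρ'.asAlgebraHom.comp (ii F C)) f hf
        (MonoidAlgebra.single ⟨c, hc⟩ 1)
      have h4 : ∀ i, Zop ρ' (fn (ii F C (a i))) ∘ₗ f ∘ₗ Zop ρ (fn (ii F C (b i))) =
          (ρ'.asAlgebraHom.comp (ii F C)) (a i) ∘ₗ f ∘ₗ
            (ρ.asAlgebraHom.comp (ii F C)) (b i) := by
        intro i
        rw [hZ, hZ']
        rfl
      rw [Finset.sum_congr rfl fun i _ => h4 i, hρ ⟨c, hc⟩, hρ' ⟨c, hc⟩]
      exact h3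

end Pool.Agent.DPX


end

section

/-!
# CHAX: the eigenvalues of an automorphism on the class functions of a block
-/

set_option autoImplicit false
set_option linter.unusedSectionVars false

namespace Pool.Agent.DPX

open Pool.Agent.DPB Pool.Agent.DPW Pool.Agent.Lib_helper13 Representation

namespace CHAX

open MulAction

section count
variable {ι : Type} [Fintype ι] (σ : Equiv.Perm ι)

/-- The period. -/
noncomputable def per (χ : ι) : ℕ := Function.minimalPeriod σ χ

theorem per_dvd (χ : ι) (n : ℤ) : (per σ χ : ℤ) ∣ n ↔ (σ ^ n) χ = χ :=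
  (zpow_smul_eq_iff_minimalPeriod_dvd (a := σ) (b := χ) (n := n)).symm

theorem per_pow (χ : ι) (k : ℤ) : per σ ((σ ^ k) χ) = per σ χ := by
  have h : ∀ n : ℤ, (per σ ((σ ^ k) χ) : ℤ) ∣ n ↔ (per σ χ : ℤ) ∣ n := by
    intro n
    rw [per_dvd, per_dvd, ← Equiv.Perm.mul_apply, ← zpow_add, add_comm, zpow_add,
      Equiv.Perm.mul_apply]
    exact (σ ^ k).injective.eq_iff
  apply Nat.dvd_antisymm
  · exact_mod_cast (h _).2 dvd_rfl
  · exact_mod_cast (h _).1 dvd_rfl

theorem per_pos (χ : ι) : 0 < per σ χ := by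
  refine Function.minimalPeriod_pos_of_mem_periodicPts ?_
  refine ⟨orderOf σ, orderOf_pos σ, ?_⟩
  change σ^[orderOf σ] χ = χ
  rw [← Equiv.Perm.coe_pow, pow_orderOf_eq_one]
  rfl

/-- The orbit. -/
abbrev Q : Type := orbitRel.Quotient (Subgroup.zpowers σ) ι

/-- The orbit of an element. -/
def q (χ : ι) : Q σ := Quotient.mk'' χ

/-- A representative. -/
noncomputable def o (A : Q σ) : ι := Quotient.out A

theorem q_o (A : Q σ) : q σ (o σ A) = A := Quotient.out_eq' A

theorem q_eq (χ ψ : ι) : q σ χ = q σ ψ ↔ ∃ n : ℤ, (σ ^ n) ψ = χ := by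
  rw [q, q, Quotient.eq'']
  constructor
  · rintro ⟨⟨g, n, rfl⟩, h⟩
    exact ⟨n, h⟩
  · rintro ⟨n, h⟩
    exact ⟨⟨σ ^ n, n, rfl⟩, h⟩

theorem exists_n (χ : ι) : ∃ n : ℤ, (σ ^ n) (o σ (q σ χ)) = χ :=
  (q_eq σ _ _).1 (q_o σ _).symm

theorem card_fib [DecidableEq (Q σ)] (A : Q σ) :
    (Finset.univ.filter fun χ => q σ χ = A).card = per σ (o σ A) := by
  classical
  have h1 : per σ (o σ A) = Fintype.card (orbit (Subgroup.zpowers σ) (o σ A)) :=
    minimalPeriod_eq_card (a := σ) (b := o σ A)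
  rw [h1, Fintype.card_of_subtype]
  intro χ
  rw [Finset.mem_filter]
  constructor
  · rintro ⟨-, h⟩
    rw [← q_o σ A, q_eq] at h
    obtain ⟨n, hn⟩ := h
    exact ⟨⟨σ ^ n, n, rfl⟩, hn⟩
  · rintro ⟨⟨g, n, rfl⟩, h⟩
    refine ⟨Finset.mem_univ _, ?_⟩
    rw [← q_o σ A, q_eq]
    exact ⟨n, h⟩

variable {F : Type} [Field F]

theorem count [DecidableEq ι] (I : ι → Prop) (hI : ∀ χ, I (σ χ) ↔ I χ) [DecidablePred I] [DecidableEq F] (μ : F) (hμ : μ ≠ 0)
    (E : Submodule F (ι → F))
    (hE : ∀ c, c ∈ E ↔ (∀ χ, I χ → c (σ χ) = μ * c χ) ∧ ∀ χ, ¬ I χ → c χ = 0) :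
    (Module.finrank F E : ℚ) =
      ∑ χ with (I χ ∧ μ ^ per σ χ = 1), (1 : ℚ) / per σ χ := by
  classical
  have hIn : ∀ (n : ℤ) χ, I ((σ ^ n) χ) ↔ I χ := by
    intro n
    induction n using Int.induction_on with
    | zero => intro χ; rfl
    | succ n ih =>
      intro χ
      rw [zpow_add_one, Equiv.Perm.mul_apply, ih, hI]
    | pred n ih =>
      intro χ
      rw [zpow_sub_one, Equiv.Perm.mul_apply, ih, ← hI, ← Equiv.Perm.mul_apply, mul_inv_cancel]
      rfl
  let good : ι → Prop := fun χ => I χ ∧ μ ^ per σ χ = 1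
  have hgood : ∀ (n : ℤ) χ, good ((σ ^ n) χ) ↔ good χ := by
    intro n χ
    change I _ ∧ _ ↔ I _ ∧ _
    rw [hIn, per_pow]
  choose n hn using exists_n σ
  have hgq : ∀ χ, good (o σ (q σ χ)) ↔ good χ := by
    intro χ
    conv_rhs => rw [← hn χ]
    exact (hgood _ _).symm
  -- the powers
  have hpow : ∀ c ∈ E, ∀ (m : ℕ) χ, I χ → c ((σ ^ m) χ) = μ ^ m * c χ := by
    intro c hc m
    induction m with
    | zero =>
      intro χ _
      rw [pow_zero, pow_zero, one_mul]
      rfl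
    | succ m ih =>
      intro χ hχ
      rw [pow_succ, Equiv.Perm.mul_apply, ih _ ((hI χ).2 hχ), ((hE c).1 hc).1 χ hχ, pow_succ,
        mul_assoc]
  have hzpow : ∀ c ∈ E, ∀ (m : ℤ) χ, I χ → c ((σ ^ m) χ) = μ ^ m * c χ := by
    intro c hc m χ hχ
    obtain ⟨m, rfl | rfl⟩ := m.eq_nat_or_neg
    · rw [zpow_natCast, zpow_natCast]
      exact hpow c hc m χ hχ
    · have h1 := hpow c hc m ((σ ^ (-(m : ℤ))) χ) ((hIn _ _).2 hχ)
      have h2 : (σ ^ m) ((σ ^ (-(m : ℤ))) χ) = χ := by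
        rw [← zpow_natCast, ← Equiv.Perm.mul_apply, ← zpow_add, add_neg_cancel]
        rfl
      rw [h2] at h1
      rw [h1, ← mul_assoc, ← zpow_natCast μ m, ← zpow_add₀ hμ, neg_add_cancel, zpow_zero, one_mul]
  have hper : ∀ χ, good χ → ∀ m : ℤ, (per σ χ : ℤ) ∣ m → μ ^ m = 1 := by
    rintro χ ⟨-, h⟩ m ⟨k, rfl⟩
    rw [zpow_mul, zpow_natCast, h, one_zpow]
  let G : Type := {A : Q σ // good (o σ A)}
  let R : E →ₗ[F] (G → F) :=
    { toFun := fun c A => c.1 (o σ A.1)
      map_add' := fun _ _ => rfl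
      map_smul' := fun _ _ => rfl }
  have hinj : Function.Injective R := by
    rw [injective_iff_map_eq_zero]
    rintro ⟨c, hc⟩ h0
    apply Subtype.ext
    funext χ
    change c χ = 0
    by_cases hχ : I χ
    · by_cases hg : μ ^ per σ χ = 1
      · have hg' : good (o σ (q σ χ)) := (hgq χ).2 ⟨hχ, hg⟩
        have h1 : c (o σ (q σ χ)) = 0 := congrFun h0 ⟨q σ χ, hg'⟩
        rw [← hn χ, hzpow c hc _ _ hg'.1, h1, mul_zero]
      · have h1 := hpow c hc (per σ χ) χ hχ
        have h2 : (σ ^ per σ χ) χ = χ := by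
          have := (per_dvd σ χ (per σ χ)).1 dvd_rfl
          rwa [zpow_natCast] at this
        rw [h2] at h1
        have h3 : (1 - μ ^ per σ χ) * c χ = 0 := by
          rw [sub_mul, one_mul, ← h1, sub_self]
        exact (mul_eq_zero.1 h3).resolve_left fun h => hg (sub_eq_zero.1 h).symm
    · exact ((hE c).1 hc).2 χ hχ
  have hsurj : Function.Surjective R := by
    intro d
    let c : ι → F := fun χ => if h : good (o σ (q σ χ)) then μ ^ n χ * d ⟨q σ χ, h⟩ else 0
    have hc : c ∈ E := by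
      rw [hE]
      refine ⟨fun χ hχ => ?_, fun χ hχ => ?_⟩
      · have hq : q σ (σ χ) = q σ χ := (q_eq σ _ _).2 ⟨1, by rw [zpow_one]⟩
        by_cases hg : good (o σ (q σ χ))
        · have hg' : good (o σ (q σ (σ χ))) := by rw [hq]; exact hg
          have e1 : c (σ χ) = μ ^ n (σ χ) * d ⟨q σ (σ χ), hg'⟩ := dif_pos hg'
          have e2 : c χ = μ ^ n χ * d ⟨q σ χ, hg⟩ := dif_pos hg
          have e3 : (⟨q σ (σ χ), hg'⟩ : G) = ⟨q σ χ, hg⟩ := Subtype.ext hq
          have e4 : μ ^ (n (σ χ) - (n χ + 1)) = 1 := by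
            refine hper _ hg _ ((per_dvd σ _ _).2 ?_)
            have e5 := hn (σ χ)
            rw [hq] at e5
            have e6 : (σ ^ (n χ + 1)) (o σ (q σ χ)) = σ χ := by
              rw [add_comm, zpow_add, zpow_one, Equiv.Perm.mul_apply, hn]
            have e7 : (σ ^ (n (σ χ))) (o σ (q σ χ)) = (σ ^ (n χ + 1)) (o σ (q σ χ)) := by
              rw [e5, e6]
            rw [sub_eq_neg_add, zpow_add, Equiv.Perm.mul_apply, e7, ← Equiv.Perm.mul_apply,
              ← zpow_add, neg_add_cancel]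
            rfl
          have e8 : μ ^ n (σ χ) = μ * μ ^ n χ := by
            rw [zpow_sub₀ hμ, div_eq_one_iff_eq (zpow_ne_zero _ hμ), zpow_add₀ hμ, zpow_one] at e4
            rw [e4, mul_comm]
          rw [e1, e2, e3, e8, mul_assoc]
        · have hg' : ¬ good (o σ (q σ (σ χ))) := by rw [hq]; exact hg
          have e1 : c (σ χ) = 0 := dif_neg hg'
          have e2 : c χ = 0 := dif_neg hg
          rw [e1, e2, mul_zero]
      · exact dif_neg fun h => hχ ((hgq χ).1 h).1
    refine ⟨⟨c, hc⟩, ?_⟩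
    funext A
    change c (o σ A.1) = d A
    have hq : q σ (o σ A.1) = A.1 := q_o σ _
    have hg : good (o σ (q σ (o σ A.1))) := by rw [hq]; exact A.2
    have e1 : c (o σ A.1) = μ ^ n (o σ A.1) * d ⟨q σ (o σ A.1), hg⟩ := dif_pos hg
    have e2 : (⟨q σ (o σ A.1), hg⟩ : G) = A := Subtype.ext hq
    have e3 : μ ^ n (o σ A.1) = 1 := by
      refine hper _ A.2 _ ((per_dvd σ _ _).2 ?_)
      have e4 := hn (o σ A.1)
      rwa [hq] at e4
    rw [e1, e2, e3, one_mul]
  have hfr : Module.finrank F E = Fintype.card G := by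
    rw [(LinearEquiv.ofBijective R ⟨hinj, hsurj⟩).finrank_eq, Module.finrank_fintype_fun_eq_card]
  rw [hfr]
  have h1 : ∑ χ with (I χ ∧ μ ^ per σ χ = 1), (1 : ℚ) / per σ χ =
      ∑ A ∈ (Finset.univ.filter fun A : Q σ => good (o σ A)),
        ∑ χ ∈ (Finset.univ.filter fun χ => I χ ∧ μ ^ per σ χ = 1) with q σ χ = A,
          (1 : ℚ) / per σ χ := by
    rw [Finset.sum_fiberwise_of_maps_to]
    intro χ hχ
    rw [Finset.mem_filter]
    exact ⟨Finset.mem_univ _, (hgq χ).2 (Finset.mem_filter.1 hχ).2⟩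
  have h2 : ∀ A ∈ (Finset.univ.filter fun A : Q σ => good (o σ A)),
      ∑ χ ∈ (Finset.univ.filter fun χ => I χ ∧ μ ^ per σ χ = 1) with q σ χ = A,
          (1 : ℚ) / per σ χ = 1 := by
    intro A hA
    have hA' : good (o σ A) := (Finset.mem_filter.1 hA).2
    have e1 : (Finset.univ.filter fun χ => I χ ∧ μ ^ per σ χ = 1).filter (fun χ => q σ χ = A) =
        Finset.univ.filter fun χ => q σ χ = A := by
      ext χ
      simp only [Finset.mem_filter, Finset.mem_univ, true_and]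
      refine ⟨fun h => h.2, fun h => ⟨?_, h⟩⟩
      have h3 := hgq χ
      rw [h] at h3
      exact h3.1 hA'
    rw [e1, Finset.sum_congr rfl (g := fun _ => (1 : ℚ) / per σ (o σ A)), Finset.sum_const,
      card_fib, nsmul_eq_mul, mul_one_div, div_self]
    · exact_mod_cast (per_pos σ _).ne'
    · intro χ hχ
      have h4 : q σ χ = A := (Finset.mem_filter.1 hχ).2
      have h5 : per σ χ = per σ (o σ A) := by
        conv_lhs => rw [← hn χ]
        rw [per_pow, h4]
      rw [h5]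
  rw [h1, Finset.sum_congr rfl h2, Finset.sum_const, nsmul_eq_mul, mul_one]
  congr 1
  exact Fintype.card_subtype _

end count

/-! ### the monomial matrix -/

section mono

variable {ι : Type} [Fintype ι] [DecidableEq ι]

/-- The monomial matrix. -/
def mon {R : Type} [CommRing R] (w : ι → R) (K : Equiv.Perm ι) : Matrix ι ι R :=
  fun χ ψ => if K.symm χ = ψ then w χ else 0

theorem mon_map {R R' : Type} [CommRing R] [CommRing R'] (f : R →+* R') (w : ι → R)
    (K : Equiv.Perm ι) : (mon w K).map f = mon (fun χ => f (w χ)) K := by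
  ext χ ψ
  simp only [mon, Matrix.map_apply]
  split_ifs
  · rfl
  · exact map_zero f

variable {F : Type} [Field F]

theorem mon_apply (w : ι → F) (K : Equiv.Perm ι) (c : ι → F) (χ : ι) :
    Matrix.toLin' (mon w K) c χ = w χ * c (K.symm χ) := by
  rw [Matrix.toLin'_apply]
  change ∑ ψ, mon w K χ ψ * c ψ = _
  simp only [mon, ite_mul, zero_mul]
  rw [Finset.sum_ite_eq]
  simp

open Classical in
theorem mon_mult (K : Equiv.Perm ι) (I : ι → Prop) (hI : ∀ χ, I (K.symm χ) ↔ I χ) (N : ℕ)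
    (hN : (N : F) ≠ 0) (hK : ∀ χ, (K.symm ^ N) χ = χ) (μ : F) (hμ : μ ≠ 0) :
    (((mon (fun χ => if I χ then (1 : F) else 0) K).charpoly.rootMultiplicity μ : ℕ) : ℚ) =
      ∑ χ with (I χ ∧ μ ^ per K.symm χ = 1), (1 : ℚ) / per K.symm χ := by
  set w : ι → F := fun χ => if I χ then (1 : F) else 0 with hw
  set T : Module.End F (ι → F) := Matrix.toLin' (mon w K) with hT
  have hTa : ∀ c χ, T c χ = w χ * c (K.symm χ) := mon_apply w K
  have hww : ∀ χ, w χ * w χ = w χ := by
    intro χ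
    simp only [hw]
    split_ifs <;> simp
  have hwK : ∀ χ, w (K.symm χ) = w χ := by
    intro χ
    simp only [hw, hI]
  have hpow : ∀ (n : ℕ) c χ, (T ^ (n + 1)) c χ = w χ * c ((K.symm ^ (n + 1)) χ) := by
    intro n
    induction n with
    | zero =>
      intro c χ
      rw [zero_add, pow_one, pow_one, hTa]
    | succ n ih =>
      intro c χ
      rw [pow_succ, Module.End.mul_apply, ih, hTa]
      have e1 : w ((K.symm ^ (n + 1)) χ) = w χ := by
        generalize n + 1 = m
        induction m generalizing χ with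
        | zero => rfl
        | succ m ihm => rw [pow_succ, Equiv.Perm.mul_apply, ihm, hwK]
      rw [e1, ← mul_assoc, hww, ← Equiv.Perm.mul_apply, ← pow_succ']
  have hN1 : 1 ≤ N := by
    rcases Nat.eq_zero_or_pos N with h | h
    · rw [h, Nat.cast_zero] at hN
      exact absurd rfl hN
    · exact h
  have hTN : T ^ (N + 1) = T := by
    apply LinearMap.ext
    intro c
    funext χ
    rw [hpow, hTa]
    congr 2
    rw [pow_succ', Equiv.Perm.mul_apply, hK]
  have hsep : (Polynomial.X * (Polynomial.X ^ N - 1) : Polynomial F).Separable := by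
    refine Polynomial.separable_X.mul (Polynomial.X_pow_sub_one_separable_iff.2 hN) ?_
    refine ⟨Polynomial.X ^ (N - 1), -1, ?_⟩
    rw [← pow_succ, Nat.sub_add_cancel hN1]
    ring
  have hss : T.IsSemisimple := by
    refine Module.End.isSemisimple_of_squarefree_aeval_eq_zero hsep.squarefree ?_
    rw [map_mul, map_sub, map_pow, Polynomial.aeval_X, map_one, mul_sub, mul_one, ← pow_succ',
      hTN, sub_self]
  rw [← Matrix.charpoly_toLin', ← LinearMap.finrank_maxGenEigenspace_eq,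
    hss.isFinitelySemisimple.maxGenEigenspace_eq_eigenspace]
  refine count K.symm I hI μ hμ _ fun c => ?_
  rw [Module.End.mem_eigenspace_iff]
  constructor
  · intro h
    refine ⟨fun χ hχ => ?_, fun χ hχ => ?_⟩
    · have h1 := congrFun h χ
      change T c χ = μ * c χ at h1
      rw [hTa] at h1
      simp only [hw, if_pos hχ, one_mul] at h1
      exact h1
    · have h1 := congrFun h χ
      change T c χ = μ * c χ at h1
      rw [hTa] at h1
      simp only [hw, if_neg hχ, zero_mul] at h1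
      exact (mul_eq_zero.1 h1.symm).resolve_left hμ
  · rintro ⟨h1, h2⟩
    funext χ
    change T c χ = μ * c χ
    rw [hTa]
    by_cases hχ : I χ
    · simp only [hw, if_pos hχ, one_mul]
      exact h1 χ hχ
    · simp only [hw, if_neg hχ, zero_mul]
      rw [h2 χ hχ, mul_zero]

end mono

/-! ### the matrix on the conjugacy classes -/

section gen

open CHP

variable {F H : Type} [Field F] [Group H] [Fintype H]

/-- The matrix of the operator on the functions of the conjugacy classes. -/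
noncomputable def matK [DecidableEq (ConjClasses H)] {R : Type} [CommRing R] (z : H → R)
    (κ : MulAut H) : Matrix (ConjClasses H) (ConjClasses H) R :=
  fun C D => ∑ h, if ConjClasses.mk (κ (h * rp C)) = D then z h else 0

theorem matK_map [DecidableEq (ConjClasses H)] {R S : Type} [CommRing R] [CommRing S]
    (f : R →+* S) (z : H → R) (κ : MulAut H) :
    (matK z κ).map f = matK (fun h => f (z h)) κ := by
  ext C D
  simp only [matK, Matrix.map_apply, map_sum]
  refine Finset.sum_congr rfl fun h _ => ?_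
  split_ifs
  · rfl
  · exact map_zero f

theorem comp_mem {φ : H → F} (hφ : φ ∈ CF F H) (κ : MulAut H) :
    LinearMap.funLeft F F κ φ ∈ CF F H := by
  intro g x
  change φ (κ (g * x * g⁻¹)) = φ (κ x)
  rw [map_mul, map_mul, map_inv, hφ]

/-- The operator on the class functions. -/
noncomputable def LK {z : H → F} (hz : z ∈ CF F H) (κ : MulAut H) : Module.End F (CF F H) :=
  (Lz z ∘ₗ LinearMap.funLeft F F κ).restrict fun _ hφ => Lz_mem hz (comp_mem hφ κ)

theorem conj_eqK [Fintype (ConjClasses H)] [DecidableEq (ConjClasses H)] {z : H → F}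
    (hz : z ∈ CF F H) (κ : MulAut H) :
    (eqv F H).symm.conj (LK hz κ) = Matrix.toLin' (matK z κ) := by
  apply LinearMap.ext
  intro ψ
  funext C
  rw [Matrix.toLin'_apply, LinearEquiv.conj_apply_apply]
  change Lz z (fun h => ψ (ConjClasses.mk (κ h))) (rp C) = ∑ D, matK z κ C D * ψ D
  rw [Lz_apply]
  simp only [matK, Finset.sum_mul]
  rw [Finset.sum_comm]
  refine Finset.sum_congr rfl fun h _ => ?_
  simp only [ite_mul, zero_mul]
  rw [Finset.sum_ite_eq]
  simp

theorem charpoly_LK [Fintype (ConjClasses H)] [DecidableEq (ConjClasses H)] {z : H → F}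
    (hz : z ∈ CF F H) (κ : MulAut H) : (LK hz κ).charpoly = (matK z κ).charpoly := by
  rw [← LinearEquiv.charpoly_conj (eqv F H).symm, conj_eqK, Matrix.charpoly_toLin']

theorem mlt_eqK [Fintype (ConjClasses H)] [DecidableEq (ConjClasses H)] {z : H → F}
    (hz : z ∈ CF F H) (κ : MulAut H) (μ : F) :
    mlt (CF F H) (Lz z ∘ₗ LinearMap.funLeft F F κ) μ =
      (matK z κ).charpoly.rootMultiplicity μ := by
  have h1 : Module.End.maxGenEigenspace (Lz z ∘ₗ LinearMap.funLeft F F κ) μ ⊓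
      CF F H = Submodule.map (CF F H).subtype ((LK hz κ).maxGenEigenspace μ) := by
    rw [Module.End.maxGenEigenspace, Module.End.maxGenEigenspace, LK,
      Module.End.genEigenspace_restrict, Submodule.map_comap_subtype, inf_comm]
  rw [mlt, h1, Submodule.finrank_map_subtype_eq, LinearMap.finrank_maxGenEigenspace_eq,
    charpoly_LK]

end gen

section cpx

open CHP

variable {H : Type} [Group H] [Fintype H]

/-- The permutation of the irreducible characters. -/
noncomputable def Kp (κ : MulAut H) : Equiv.Perm (irrF H) where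
  toFun χ := ⟨χ.1 ∘ κ, mem_irrF.2 ((mem_irrF.1 χ.2).comp_mulEquiv κ)⟩
  invFun χ := ⟨χ.1 ∘ κ.symm, mem_irrF.2 ((mem_irrF.1 χ.2).comp_mulEquiv κ.symm)⟩
  left_inv χ := by
    apply Subtype.ext
    funext x
    change χ.1 (κ (κ.symm x)) = χ.1 x
    rw [MulEquiv.apply_symm_apply]
  right_inv χ := by
    apply Subtype.ext
    funext x
    change χ.1 (κ.symm (κ x)) = χ.1 x
    rw [MulEquiv.symm_apply_apply]

theorem Kp_apply (κ : MulAut H) (χ : irrF H) (x : H) : (Kp κ χ).1 x = χ.1 (κ x) := rfl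

theorem conj_psiK [DecidableEq (irrF H)] {a : H → ℂ} (ha : a ∈ CF ℂ H) (κ : MulAut H) :
    (psi H).conj (LK ha κ) = Matrix.toLin' (mon (fun χ : irrF H => wt χ.1 a) (Kp κ)) := by
  apply LinearMap.ext
  intro c
  funext χ
  rw [mon_apply, LinearEquiv.conj_apply_apply]
  change ip (Lz a (fun x => ∑ ψ : irrF H, c ψ * ψ.1 (κ x))) χ.1 = _
  have h0 : (fun x => ∑ ψ : irrF H, c ψ * ψ.1 (κ x)) =
      fun x => ∑ ψ : irrF H, c ((Kp κ).symm ψ) * ψ.1 x := by
    funext x
    rw [← Equiv.sum_comp (Kp κ) (fun ψ : irrF H => c ((Kp κ).symm ψ) * ψ.1 x)]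
    refine Finset.sum_congr rfl fun ψ _ => ?_
    rw [Equiv.symm_apply_apply, Kp_apply]
  rw [h0]
  have h1 : Lz a (fun x => ∑ ψ : irrF H, c ((Kp κ).symm ψ) * ψ.1 x) =
      fun x => ∑ ψ : irrF H, (c ((Kp κ).symm ψ) * wt ψ.1 a) * ψ.1 x := by
    have h2 : (fun x => ∑ ψ : irrF H, c ((Kp κ).symm ψ) * ψ.1 x) =
        ∑ ψ : irrF H, c ((Kp κ).symm ψ) • ψ.1 := by
      funext x
      simp [Finset.sum_apply]
    rw [h2, map_sum]
    funext x
    rw [Finset.sum_apply]
    refine Finset.sum_congr rfl fun ψ _ => ?_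
    rw [map_smul, eigen (mem_irrF.mp ψ.2) ha, Pi.smul_apply, Pi.smul_apply, smul_eq_mul,
      smul_eq_mul, mul_assoc]
  rw [h1, ip_sum, Finset.sum_eq_single χ]
  · rw [ip_self (mem_irrF.mp χ.2), mul_one, mul_comm]
  · intro b _ hb
    rw [ip_ne (mem_irrF.mp b.2) (mem_irrF.mp χ.2) (fun h => hb (Subtype.ext h)), mul_zero]
  · intro h
    exact absurd (Finset.mem_univ _) h

theorem charpoly_cpxK [Fintype (ConjClasses H)] [DecidableEq (ConjClasses H)]
    [DecidableEq (irrF H)] {a : H → ℂ} (ha : a ∈ CF ℂ H) (κ : MulAut H) :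
    (matK a κ).charpoly = (mon (fun χ : irrF H => wt χ.1 a) (Kp κ)).charpoly := by
  rw [← charpoly_LK ha, ← LinearEquiv.charpoly_conj (psi H), conj_psiK ha,
    Matrix.charpoly_toLin']

theorem cen_comp (𝔐 : Ideal (integralClosure ℤ ℂ)) (κ : MulAut H) (χ : H → ℂ) (x : H) :
    cen 𝔐 (MonoidHom.id H) (χ ∘ κ) x = cen 𝔐 (MonoidHom.id H) χ (κ x) := by
  have h1 := cen_comp_equiv 𝔐 κ (κ.symm.toMonoidHom) χ
  have h2 : (κ.symm.toMonoidHom).comp κ.toMonoidHom = MonoidHom.id H := by
    ext y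
    exact κ.symm_apply_apply y
  rw [h2] at h1
  have h3 := congrFun h1 x
  refine h3.trans ?_
  unfold cen
  congr 2
  funext y
  refine conjInd_congr ?_
  change IsConj (κ.symm y) x ↔ IsConj y (κ x)
  constructor
  · intro h
    have := (MonoidHom.map_isConj κ.toMonoidHom h)
    change IsConj (κ (κ.symm y)) (κ x) at this
    rwa [MulEquiv.apply_symm_apply] at this
  · intro h
    have := (MonoidHom.map_isConj κ.symm.toMonoidHom h)
    change IsConj (κ.symm y) (κ.symm (κ x)) at this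
    rwa [MulEquiv.symm_apply_apply] at this

end cpx

end CHAX

open _root_.Pool.Agent.DPX.CHAX CHP in
theorem CHAX_thm : Stmt_CHAX := by
  classical
  intro F H _ _ _ 𝔐 ℓ _ hM hℓ r hr hker χ₀ hχ₀ a ha hab κ hκ ⟨N, hN, hNχ⟩ μ hμ
  have : Fintype (ConjClasses H) := Fintype.ofFinite _
  have hra : (fun h => r (a h)) ∈ CF F H := fun g x => congrArg r (ha g x)
  have haC : (fun h => (a h : ℂ)) ∈ CF ℂ H := fun g x =>
    congrArg (fun t : integralClosure ℤ ℂ => (t : ℂ)) (ha g x)
  rw [mlt_eqK hra]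
  -- integral values
  have hex : ∀ χ : irrF H, ∃ b : integralClosure ℤ ℂ,
      (b : ℂ) = wt χ.1 (fun h => (a h : ℂ)) := by
    intro χ
    exact ⟨⟨_, isIntegral_wt (mem_irrF.mp χ.2) (fun h => (a h : ℂ)) (fun g x => haC g x)
      fun y => (a y).2⟩, rfl⟩
  choose b hb using hex
  have h1 : (matK a κ).charpoly = (mon b (Kp κ)).charpoly := by
    apply Polynomial.map_injective (algebraMap (integralClosure ℤ ℂ) ℂ)
      Subtype.val_injective
    rw [← Matrix.charpoly_map, ← Matrix.charpoly_map, matK_map, mon_map]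
    refine (charpoly_cpxK haC κ).trans ?_
    congr 2
    funext χ
    exact (hb χ).symm
  have h2 : (matK (fun h => r (a h)) κ).charpoly =
      (mon (fun χ => r (b χ)) (Kp κ)).charpoly := by
    rw [← matK_map r a, Matrix.charpoly_map, h1, ← Matrix.charpoly_map, mon_map]
  -- the block
  let I : irrF H → Prop := fun χ =>
    cen 𝔐 (MonoidHom.id H) χ.1 = cen 𝔐 (MonoidHom.id H) χ₀
  have h3 : (fun χ => r (b χ)) = fun χ => if I χ then (1 : F) else 0 := by
    funext χ
    have e1 := hab χ.1 (mem_irrF.mp χ.2)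
    have e2 : red 𝔐 (wt χ.1 (fun h => (a h : ℂ))) = Ideal.Quotient.mk 𝔐 (b χ) := by
      rw [← hb χ, red_of_integral 𝔐 (b χ).2]
    rw [e2] at e1
    by_cases h : I χ
    · rw [if_pos h] at e1 ⊢
      have e3 : b χ - 1 ∈ 𝔐 := by
        rw [← Ideal.Quotient.eq_zero_iff_mem, map_sub, e1, map_one, sub_self]
      rw [← hker, RingHom.mem_ker, map_sub, map_one, sub_eq_zero] at e3
      exact e3
    · rw [if_neg h] at e1 ⊢
      rw [Ideal.Quotient.eq_zero_iff_mem, ← hker, RingHom.mem_ker] at e1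
      exact e1
  rw [h2, h3]
  have hIK : ∀ χ, I (Kp κ χ) ↔ I χ := by
    intro χ
    have e1 : ∀ x, cen 𝔐 (MonoidHom.id H) (Kp κ χ).1 x =
        cen 𝔐 (MonoidHom.id H) χ.1 (κ x) := fun x => cen_comp 𝔐 κ χ.1 x
    constructor
    · intro h
      funext x
      obtain ⟨y, rfl⟩ := κ.surjective x
      rw [← e1, hκ]
      exact congrFun h y
    · intro h
      funext x
      rw [e1, ← hκ x]
      exact congrFun h (κ x)
  have hIK' : ∀ χ, I ((Kp κ).symm χ) ↔ I χ := by
    intro χ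
    rw [← hIK, Equiv.apply_symm_apply]
  have hKn : ∀ (n : ℕ) (χ : irrF H) (x : H), ((Kp κ ^ n) χ).1 x = χ.1 ((κ ^ n) x) := by
    intro n
    induction n with
    | zero => intro χ x; rfl
    | succ n ih =>
      intro χ x
      rw [pow_succ', Equiv.Perm.mul_apply, Kp_apply, ih, pow_succ]
      rfl
  have hKN : ∀ χ, (Kp κ ^ N) χ = χ := by
    intro χ
    apply Subtype.ext
    funext x
    rw [hKn]
    exact hNχ _ x (mem_irrF.mp χ.2)
  have hKN' : ∀ χ, ((Kp κ).symm ^ N) χ = χ := by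
    intro χ
    have e1 : (Kp κ).symm ^ N = (Kp κ ^ N)⁻¹ := inv_pow (Kp κ) N
    rw [e1, Equiv.Perm.inv_eq_iff_eq]
    exact (hKN χ).symm
  have hNF : (N : F) ≠ 0 := by
    intro h
    have e1 : (ℓ : F) = 0 := by
      have e2 : r (ℓ : integralClosure ℤ ℂ) = 0 := by
        rw [← RingHom.mem_ker, hker]
        exact hℓ
      rwa [map_natCast] at e2
    have e2 : IsCoprime (ℓ : ℤ) (N : ℤ) := by
      rw [Nat.isCoprime_iff_coprime]
      exact (Nat.Prime.coprime_iff_not_dvd Fact.out).2 hN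
    obtain ⟨u, v, huv⟩ := e2
    have e3 := congrArg (Int.cast : ℤ → F) huv
    push_cast at e3
    rw [e1, h, mul_zero, mul_zero, add_zero] at e3
    exact zero_ne_one e3
  have hfin := mon_mult (F := F) (Kp κ) I hIK' N hNF hKN' μ hμ
  refine Eq.trans ?_ (hfin.trans ?_)
  · refine congrArg (fun w : irrF H → F =>
      (((mon w (Kp κ)).charpoly.rootMultiplicity μ : ℕ) : ℚ)) (funext fun χ => ?_)
    by_cases hP : I χ
    · exact (if_pos hP).trans (if_pos hP).symm
    · exact (if_neg hP).trans (if_neg hP).symm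
  · have hper : ∀ χ : irrF H, per (Kp κ).symm χ =
        Function.minimalPeriod (fun (f : H → ℂ) (x : H) => f (κ x)) χ.1 := by
      intro χ
      refine Function.minimalPeriod_eq_minimalPeriod_iff.2 fun n => ?_
      have e1 : ((Kp κ).symm ^ n) χ = χ ↔ (Kp κ ^ n) χ = χ := by
        have e2 : (Kp κ).symm ^ n = (Kp κ ^ n)⁻¹ := inv_pow (Kp κ) n
        rw [e2, Equiv.Perm.inv_eq_iff_eq, eq_comm]
      have e2 : ∀ (n : ℕ) (f : irrF H),
          (fun (f : H → ℂ) (x : H) => f (κ x))^[n] f.1 = ((Kp κ ^ n) f).1 := by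
        intro n
        induction n with
        | zero => intro f; rfl
        | succ n ih =>
          intro f
          rw [Function.iterate_succ_apply, pow_succ, Equiv.Perm.mul_apply]
          exact ih (Kp κ f)
      unfold Function.IsPeriodicPt Function.IsFixedPt
      rw [← Equiv.Perm.coe_pow, e1, e2]
      exact ⟨fun h => congrArg Subtype.val h, fun h => Subtype.ext h⟩
    rw [Finset.sum_filter, Finset.sum_filter]
    rw [← Finset.sum_coe_sort (irrF H)]
    refine Finset.sum_congr rfl fun χ _ => ?_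
    rw [hper]
    by_cases hP : I χ ∧
        μ ^ Function.minimalPeriod (fun (f : H → ℂ) (x : H) => f (κ x)) χ.1 = 1
    · exact (if_pos hP).trans (if_pos hP).symm
    · exact (if_neg hP).trans (if_neg hP).symm

end Pool.Agent.DPX


end

section

/-!
# RLZX: integral matrix representations over a valuation ring
-/

set_option autoImplicit false

namespace Pool.Agent.DPX

open Pool.Agent.DP Pool.Agent.DPV Pool.Agent.DPB Pool.Agent.DPW Pool.Agent.Lib_helper13
open Representation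

namespace RLZX

variable (O : ValuationSubring ℂ) {T : Type} [Group T] {n : ℕ}
  (R : Representation ℂ T (Fin n → ℂ))

/-- the lattice spanned by the images of the standard basis -/
noncomputable def lat : Submodule O (Fin n → ℂ) :=
  Submodule.span O (Set.range fun p : T × Fin n => R p.1 (Pi.single p.2 1))

theorem lat_stable (g : T) (x : Fin n → ℂ) (hx : x ∈ lat O R) : R g x ∈ lat O R := by
  have h1 : lat O R ≤ (lat O R).comap ((R g).restrictScalars O) := by
    refine Submodule.span_le.2 ?_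
    rintro _ ⟨⟨h, i⟩, rfl⟩
    change R g (R h (Pi.single i 1)) ∈ lat O R
    have h2 : R g (R h (Pi.single i 1)) = R (g * h) (Pi.single i 1) := by
      rw [map_mul]
      rfl
    rw [h2]
    exact Submodule.subset_span ⟨(g * h, i), rfl⟩
  exact h1 hx

theorem lat_single (i : Fin n) : (Pi.single i 1 : Fin n → ℂ) ∈ lat O R := by
  have h1 : R 1 (Pi.single i 1) = (Pi.single i 1 : Fin n → ℂ) := by
    rw [map_one]
    rfl
  rw [← h1]
  exact Submodule.subset_span ⟨(1, i), rfl⟩

/-- the action on the lattice -/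
noncomputable def act (g : T) : lat O R →ₗ[O] lat O R :=
  ((R g).restrictScalars O).restrict (lat_stable O R g)

theorem act_coe (g : T) (x : lat O R) : (act O R g x : Fin n → ℂ) = R g x := rfl

/-- the action on the lattice as a homomorphism -/
noncomputable def actHom : T →* Module.End O (lat O R) where
  toFun := act O R
  map_one' := by
    ext x : 1
    apply Subtype.ext
    rw [act_coe, map_one]
    rfl
  map_mul' g h := by
    ext x : 1
    apply Subtype.ext
    rw [act_coe, map_mul]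
    rfl

theorem lat_isLattice [Fintype T] : Submodule.IsLattice ℂ (lat O R) := by
  refine ⟨Submodule.fg_span (Set.finite_range _), ?_⟩
  rw [eq_top_iff, ← (Pi.basisFun ℂ (Fin n)).span_eq]
  refine Submodule.span_mono ?_
  rintro _ ⟨i, rfl⟩
  rw [Pi.basisFun_apply]
  exact lat_single O R i

theorem lat_free [Fintype T] : Module.Free O (lat O R) := by
  have hfin : Module.Finite O (lat O R) :=
    Module.Finite.iff_fg.2 (Submodule.fg_span (Set.finite_range _))
  have htf : Module.IsTorsionFree O (lat O R) := by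
    have h1 : Module.IsTorsionFree O (Fin n → ℂ) := Module.IsTorsionFree.trans_faithfulSMul O ℂ _
    infer_instance
  have hflat : Module.Flat O (lat O R) := by
    rw [Module.Flat.flat_iff_torsion_eq_bot_of_isBezout,
      ← Submodule.isTorsionFree_iff_torsion_eq_bot]
    exact htf
  exact Module.free_of_flat_of_isLocalRing

end RLZX

open _root_.Pool.Agent.DPX.RLZX in
/-- RLZX: the characters are afforded by matrix representations over the valuation ring. -/
theorem RLZX_thm : Stmt_RLZX := by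
  classical
  intro O T _ _ χ hχ
  have hχ1 := hχ.one_ne_zero
  obtain ⟨n, R, hR, rfl⟩ := hχ
  have i1 : Submodule.IsLattice ℂ (lat O R) := lat_isLattice O R
  have i2 : Module.Free O (lat O R) := lat_free O R
  have i3 : Module.Finite O (lat O R) := Submodule.IsLattice.finite ℂ _
  let d := Module.finrank O (lat O R)
  let b : Module.Basis (Fin d) O (lat O R) := Module.finBasis O (lat O R)
  let Bc : Module.Basis (Fin d) ℂ (Fin n → ℂ) := b.extendOfIsLattice ℂ
  have hBc : ∀ i, Bc i = (b i : Fin n → ℂ) := fun i => Module.Basis.extendOfIsLattice_apply ℂ b i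
  let M : T →* Matrix (Fin d) (Fin d) O :=
    ((LinearMap.toMatrixAlgEquiv b : (lat O R →ₗ[O] lat O R) ≃ₐ[O] Matrix (Fin d) (Fin d) O) :
      (lat O R →ₗ[O] lat O R) →* Matrix (Fin d) (Fin d) O).comp (actHom O R)
  have hM : ∀ g i j, M g i j = b.repr (act O R g (b j)) i := by
    intro g i j
    exact LinearMap.toMatrixAlgEquiv_apply b (act O R g) i j
  -- the matrices over the complex numbers
  have hMc : ∀ g i j, ((M g i j : O) : ℂ) = LinearMap.toMatrix Bc Bc (R g) i j := by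
    intro g i j
    rw [LinearMap.toMatrix_apply, hBc]
    have h1 : R g (b j : Fin n → ℂ) = ∑ k, ((M g k j : O) : ℂ) • Bc k := by
      rw [← act_coe, ← b.sum_repr (act O R g (b j)), Submodule.coe_sum]
      refine Finset.sum_congr rfl fun k _ => ?_
      rw [hBc, hM]
      rfl
    rw [h1, Module.Basis.repr_sum_self]
  have htr : ∀ g, (((M g).trace : O) : ℂ) = R.character g := by
    intro g
    have h1 : (((M g).trace : O) : ℂ) = ∑ i, ((M g i i : O) : ℂ) := by
      rw [Matrix.trace]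
      exact map_sum O.subtype _ _
    rw [h1]
    change _ = LinearMap.trace ℂ (Fin n → ℂ) (R g)
    rw [LinearMap.trace_eq_matrix_trace ℂ Bc, Matrix.trace]
    exact Finset.sum_congr rfl fun i _ => hMc g i i
  have hd : (d : ℂ) = R.character 1 := by
    rw [← htr 1, map_one, Matrix.trace_one, Fintype.card_fin]
    exact (map_natCast O.subtype d).symm
  refine ⟨d, M, hd, htr, ?_⟩
  intro a ha
  -- the operator is a scalar
  obtain ⟨c, hc⟩ := exists_scalar R hR (∑ h, ((a h : O) : ℂ) • R h) (by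
    intro g x
    rw [LinearMap.sum_apply, LinearMap.sum_apply, map_sum]
    refine Fintype.sum_equiv ((MulAut.conj g⁻¹).toEquiv) _ _ fun h => ?_
    change ((a h : O) : ℂ) • R h (R g x) = R g (((a (g⁻¹ * h * g⁻¹⁻¹) : O) : ℂ) •
      R (g⁻¹ * h * g⁻¹⁻¹) x)
    rw [ha, map_smul, inv_inv]
    congr 1
    have h1 : R g (R (g⁻¹ * h * g) x) = R (g * (g⁻¹ * h * g)) x := by
      rw [map_mul R g]
      rfl
    have h2 : R h (R g x) = R (h * g) x := by
      rw [map_mul R h]
      rfl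
    rw [h1, h2]
    congr 2
    group)
  have hcw : c = wt R.character (fun h => (a h : ℂ)) := by
    rw [wt, eq_div_iff hχ1]
    have h2 := congrArg (LinearMap.trace ℂ (Fin n → ℂ)) hc
    rw [map_sum] at h2
    have h3 : ∀ y : T, LinearMap.trace ℂ (Fin n → ℂ) (((a y : O) : ℂ) • R y) =
        ((a y : O) : ℂ) * R.character y := by
      intro y
      rw [map_smul]
      rfl
    simp_rw [h3] at h2
    rw [h2, map_smul, char_one]
    simp
  -- the matrix entries
  have hent : ∀ i j, ((∑ h, a h * M h i j : O) : ℂ) = if i = j then c else 0 := by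
    intro i j
    have h1 : ((∑ h, a h * M h i j : O) : ℂ) = ∑ h, ((a h : O) : ℂ) * ((M h i j : O) : ℂ) :=
      map_sum O.subtype _ _
    rw [h1]
    have h2 := congrArg (fun f => LinearMap.toMatrix Bc Bc f i j) hc
    simp only [map_sum, map_smul, LinearMap.toMatrix_id, Matrix.sum_apply, Matrix.smul_apply,
      smul_eq_mul, Matrix.one_apply, mul_ite, mul_one, mul_zero] at h2
    rw [← h2]
    exact Finset.sum_congr rfl fun h _ => by rw [hMc]
  have hd0 : 0 < d := by
    rcases Nat.eq_zero_or_pos d with h | h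
    · rw [h, Nat.cast_zero] at hd
      exact absurd hd.symm hχ1
    · exact h
  let i0 : Fin d := ⟨0, hd0⟩
  refine ⟨∑ h, a h * M h i0 i0, ?_, ?_⟩
  · rw [← hcw]
    have := hent i0 i0
    rwa [if_pos rfl] at this
  · ext i j
    rw [Matrix.sum_apply, Matrix.smul_apply, Matrix.one_apply, smul_eq_mul]
    have h1 : (((∑ h, (a h • M h) i j : O)) : ℂ) = if i = j then c else 0 := hent i j
    have h2 := hent i0 i0
    rw [if_pos rfl] at h2
    rw [h1]
    by_cases hij : i = j
    · rw [if_pos hij, if_pos hij, mul_one, h2]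
    · rw [if_neg hij, if_neg hij, mul_zero]
      rfl

end Pool.Agent.DPX


end
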