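import Mathlib
import Pool.Agent.DAM.C02
import Pool.Agent.DAM.C05
import Pool.Agent.DAM.C08
import Pool.Agent.DAM.C11
import Pool.Agent.DAM.C12
import Pool.Agent.DAM.C13
import Pool.Agent.DAM.C15
import Pool.Agent.DAM.C18
import Pool.Agent.DAM.C19
import Pool.Agent.DAM.C20
import Pool.Agent.DAM.C22
import Pool.Agent.DAM.C23
import Pool.Agent.DAM.C24
import Pool.Agent.DAM.C26
import Pool.Agent.DAM.C28
import Pool.Agent.DAM.C29
import Pool.Agent.DAM.C31
import Pool.Agent.DAM.C32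
import Pool.Agent.DAM.C35
import Pool.Agent.DAM.C37
import Pool.Agent.DAM.C40
import Pool.Agent.DAM.C41
import Pool.Agent.DAM.C43
import Pool.Agent.DAM.C44
import Pool.Agent.DAM.C45
import Pool.Agent.DAM.C50
import Pool.Agent.DAM.C51
import Pool.Agent.DAM.C52
import Pool.Agent.DAM.C53
import Pool.Agent.DAM.C54
import Pool.Agent.DAM.C55
import Pool.Agent.DAM.C56
import Pool.Agent.DAM.C57
import Pool.Agent.DAM.C58
import Pool.Agent.DAM.C59
import Pool.Agent.DAM.C60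
import Pool.Agent.DAM.C61
import Pool.Agent.DAM.C62
import Pool.Agent.DAM.C64
import Pool.Agent.DAM.C65
import Pool.Agent.DAM.C66

/-! Parts: DPM.TOP, DPM.PSI, DPM.PSB, DPM.PSE, DPM.PSDD, DPM.AllM, DPN.Base, DPN.FINN, DPN.YFF, DPN.CONS, DPN.RDX, DPN.BEQ, DPN.DKV, DPT.TYI, DPF.DGI, DPK.DKVr, DPK.YFFr, DPK.FINNr, DP.CLOSEDR, DPC.RIN, DPG.AMA -/

section

set_option linter.unusedSectionVars false

/-!
# TOP: the Moebius sums of the numbers of characters over an invariant character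
-/

namespace Pool.Agent.DPM

open Pool.Agent.DP Pool.Agent.DPC Pool.Agent.Lib_helper13 Representation
open Pool.Agent.Lib_helper13.Dade (pCore DadeHolds dadeSum)

namespace TOP

variable {A T K : Type} [Group A] [Fintype A] [Group T] [Fintype T] [Group K] [Fintype K]
  {j : A →* T} {c : T →* MulAut A} {p : T →* K}

theorem p_j (h : ClG j c p) (a : A) : p (j a) = 1 := (h.ker (j a)).2 ⟨a, rfl⟩

/-- the embedding of `A` into the inverse image of `V` -/
def jV (h : ClG j c p) (V : Subgroup K) : A →* ↥(V.comap p) :=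
  j.codRestrict (V.comap p) (fun a => by
    rw [Subgroup.mem_comap, p_j h a]
    exact V.one_mem)

theorem coe_jV (h : ClG j c p) (V : Subgroup K) (a : A) : ((jV h V a : ↥(V.comap p)) : T) = j a :=
  rfl

variable (p) in
/-- the projection of the inverse image of `V` -/
def pV (V : Subgroup K) : ↥(V.comap p) →* V :=
  (p.comp (V.comap p).subtype).codRestrict V (fun x => x.2)

theorem coe_pV (V : Subgroup K) (x : ↥(V.comap p)) : ((pV p V x : V) : K) = p x := rfl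

theorem clg (h : ClG j c p) (V : Subgroup K) :
    ClG (jV h V) (c.comp (V.comap p).subtype) (pV p V) := by
  refine ⟨?_, ?_, ?_⟩
  · intro a b hab
    exact h.inj (congrArg Subtype.val hab)
  · intro y a
    apply Subtype.ext
    exact h.act y a
  · intro y
    constructor
    · intro hy
      have h1 : p (y : T) = 1 := congrArg Subtype.val hy
      obtain ⟨a, ha⟩ := (h.ker (y : T)).1 h1
      exact ⟨a, Subtype.ext ha⟩
    · rintro ⟨a, rfl⟩
      apply Subtype.ext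
      exact p_j h a

theorem pV_surj (hp : Function.Surjective p) (V : Subgroup K) :
    Function.Surjective (pV p V) := by
  intro v
  obtain ⟨t, ht⟩ := hp v
  refine ⟨⟨t, ?_⟩, Subtype.ext ht⟩
  rw [Subgroup.mem_comap, ht]
  exact v.2

/-- the inverse images in stages -/
def eqv (V : Subgroup K) (S : Subgroup V) :
    ↥(S.comap (pV p V)) ≃* ↥((S.map V.subtype).comap p) where
  toFun x := ⟨x.1.1, ⟨pV p V x.1, x.2, rfl⟩⟩
  invFun y := ⟨⟨y.1, by
      obtain ⟨s, _, hs⟩ := y.2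
      rw [Subgroup.mem_comap, ← hs]
      exact s.2⟩, by
      obtain ⟨s, hs, hs'⟩ := y.2
      rw [Subgroup.mem_comap]
      have h : pV p V ⟨y.1, by
          rw [Subgroup.mem_comap, ← hs']
          exact s.2⟩ = s := Subtype.ext hs'.symm
      rw [h]
      exact hs⟩
  left_inv x := rfl
  right_inv y := rfl
  map_mul' x y := rfl

theorem count_eq (h : ClG j c p) (θ : A → ℂ) (ℓ d : ℕ) (V : Subgroup K) (S : Subgroup V) :
    Nat.card {ψ : ↥(S.comap (pV p V)) → ℂ // IsIrr ψ ∧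
        ip (fun a : A => ext0 ψ (jV h V a)) θ ≠ 0 ∧ HasDefect ℓ ψ d} =
      Nat.card {ψ : ↥((S.map V.subtype).comap p) → ℂ // IsIrr ψ ∧
        ip (fun a : A => ext0 ψ (j a)) θ ≠ 0 ∧ HasDefect ℓ ψ d} := by
  classical
  refine card_irr_equiv (eqv V S) _ _ ?_
  intro ψ _
  rw [hasDefect_comp_equiv]
  have h1 : (fun a : A => ext0 (fun y => ψ (eqv V S y)) (jV h V a)) =
      fun a : A => ext0 ψ (j a) := by
    funext a
    have h2 : jV h V a ∈ S.comap (pV p V) := by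
      rw [Subgroup.mem_comap]
      have h3 : pV p V (jV h V a) = 1 := Subtype.ext (p_j h a)
      rw [h3]
      exact S.one_mem
    have h4 : j a ∈ (S.map V.subtype).comap p := by
      rw [Subgroup.mem_comap, p_j h a]
      exact Subgroup.one_mem _
    rw [ext0_of_mem _ h2, ext0_of_mem _ h4]
    rfl
  rw [h1]

/-- The number of characters, multiplied by the order. -/
noncomputable def gg (j : A →* T) (p : T →* K) (θ : A → ℂ) (ℓ d : ℕ) (V : Subgroup K) : ℚ :=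
  (Nat.card V : ℚ) * Nat.card {ψ : ↥(V.comap p) → ℂ // IsIrr ψ ∧
    ip (fun a : A => ext0 ψ (j a)) θ ≠ 0 ∧ HasDefect ℓ ψ d}

theorem HQ_mono {ℓ m n : ℕ} (hmn : m ≤ n) (h : HQ ℓ n) : HQ ℓ m :=
  fun Y _ _ h1 h2 => h Y h1 (h2.trans hmn)

/-- The sum over the defects. -/
theorem sum_defect {Y : Type} [Group Y] [Fintype Y] (ℓ : ℕ) [Fact ℓ.Prime] (P : (Y → ℂ) → Prop)
    {B : ℕ} (hB : Nat.card Y ≤ B) :
    Nat.card {ψ : Y → ℂ // IsIrr ψ ∧ P ψ} =
      ∑ d ∈ Finset.range (B + 1), Nat.card {ψ : Y → ℂ // IsIrr ψ ∧ P ψ ∧ HasDefect ℓ ψ d} := by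
  classical
  set dd : (Y → ℂ) → ℕ := fun ψ => if h : ∃ d, HasDefect ℓ ψ d then h.choose else 0 with hdd
  have hd : ∀ ψ : Y → ℂ, IsIrr ψ → ∀ d, HasDefect ℓ ψ d ↔ dd ψ = d := by
    intro ψ hψ d
    have h : ∃ d, HasDefect ℓ ψ d := hψ.exists_defect (ℓ := ℓ)
    have h1 : dd ψ = h.choose := by
      rw [hdd]
      exact dif_pos h
    rw [h1]
    constructor
    · intro h2
      exact h.choose_spec.unique h2
    · intro h2
      rw [← h2]
      exact h.choose_spec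
  have hle : ∀ ψ : Y → ℂ, IsIrr ψ → dd ψ ∈ Finset.range (B + 1) := by
    intro ψ hψ
    obtain ⟨n, _, hn'⟩ := (hd ψ hψ (dd ψ)).2 rfl
    rw [Finset.mem_range]
    have h1 : padicValNat ℓ (Nat.card Y) ≤ Nat.card Y :=
      (padicValNat_le_nat_log _).trans (Nat.log_le_self _ _)
    omega
  have h1 : Nat.card {ψ : Y → ℂ // IsIrr ψ ∧ P ψ} = ((irrF Y).filter P).card := by
    apply Nat.subtype_card
    intro ψ
    rw [Finset.mem_filter, mem_irrF]
  have h2 : ∀ d, Nat.card {ψ : Y → ℂ // IsIrr ψ ∧ P ψ ∧ HasDefect ℓ ψ d} =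
      (((irrF Y).filter P).filter fun ψ => dd ψ = d).card := by
    intro d
    apply Nat.subtype_card
    intro ψ
    rw [Finset.mem_filter, Finset.mem_filter, mem_irrF]
    constructor
    · rintro ⟨⟨h3, h4⟩, h5⟩
      exact ⟨h3, h4, (hd ψ h3 d).2 h5⟩
    · rintro ⟨h3, h4, h5⟩
      exact ⟨⟨h3, h4⟩, (hd ψ h3 d).1 h5⟩
  rw [h1, Finset.sum_congr rfl fun d _ => h2 d]
  exact Finset.card_eq_sum_card_fiberwise fun ψ hψ =>
    hle ψ (mem_irrF.1 (Finset.mem_filter.1 hψ).1)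

end TOP

open _root_.Pool.Agent.DPM.TOP in
/-- TOP: the Moebius sums of the numbers of characters over an invariant character. -/
theorem TOP_thm (h1 : Stmt_TD) (h2 : Stmt_INVU) (h3 : Stmt_PAIRS) (h4 : Stmt_TWC)
    (h5 : Stmt_TWN) (h6 : Stmt_DEFA) : Stmt_TOP := by
  classical
  intro A T K _ _ _ _ _ _ 𝔐 ℓ _ hmax hℓ j c p hcl hp hcore hHQ θ hθ hinv d m hm hne
  obtain ⟨a, ha⟩ := hθ.exists_defect (ℓ := ℓ)
  have hg : ∀ d, ∑ V, m V * ((Nat.card V : ℚ) * Nat.card {ψ : ↥(V.comap p) → ℂ // IsIrr ψ ∧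
      ip (fun a : A => ext0 ψ (j a)) θ ≠ 0 ∧ HasDefect ℓ ψ d}) =
      ∑ V, m V * gg j p θ ℓ d V := fun d => rfl
  -- small defects
  have hsmall : ∀ d, d < a → ∑ V, m V * gg j p θ ℓ d V = 0 := by
    intro d hd
    refine Finset.sum_eq_zero fun V _ => ?_
    have hemp : IsEmpty {ψ : ↥(V.comap p) → ℂ // IsIrr ψ ∧
        ip (fun a : A => ext0 ψ (j a)) θ ≠ 0 ∧ HasDefect ℓ ψ d} := by
      constructor
      rintro ⟨ψ, hψ, hip, hdef⟩
      have hip' : ip (resj (jV hcl V) ψ) θ ≠ 0 := by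
        have e : (fun a : A => ext0 ψ (j a)) = resj (jV hcl V) ψ := by
          funext a
          rw [ext0_of_mem ψ (show j a ∈ V.comap p from (jV hcl V a).2)]
          rfl
        rwa [e] at hip
      have := h6 A ↥(V.comap p) V ℓ (jV hcl V) (c.comp (V.comap p).subtype) (pV p V)
        (clg hcl V) ψ θ hψ hθ hip' d a hdef ha
      omega
    have h0 := @Nat.card_of_isEmpty _ hemp
    unfold gg
    rw [h0, Nat.cast_zero, mul_zero, mul_zero]
  -- large defects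
  have hlarge : ∀ d, a < d → ∑ V, m V * gg j p θ ℓ d V = 0 := by
    intro d hd
    refine h2 K ℓ hcore (gg j p θ ℓ d) ?_ m hm
    intro V hV
    have hHV : HQ ℓ (Nat.card V) := HQ_mono (Subgroup.card_le_card_group V) hHQ
    have h7 := h1 A ↥(V.comap p) V 𝔐 ℓ hmax hℓ (jV hcl V) (c.comp (V.comap p).subtype) (pV p V)
      (clg hcl V) (pV_surj hp V) hV hHV θ hθ (fun t a => hinv t a) a (d - a) ha (by omega)
    have had : a + (d - a) = d := by omega
    rw [had] at h7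
    rw [← h7]
    refine Finset.sum_congr rfl fun σ _ => ?_
    congr 1
    unfold gg
    rw [count_eq hcl θ ℓ d V (stb σ)]
    have h8 : Nat.card ((stb σ).map V.subtype) = Nat.card (stb σ) :=
      Nat.card_congr ((stb σ).equivMapOfInjective _ V.subtype_injective).symm.toEquiv
    rw [h8]
  -- so the defect is `a`
  have hda : d = a := by
    rcases lt_trichotomy d a with h | h | h
    · exact absurd (hsmall d h) hne
    · exact h
    · exact absurd (hlarge d h) hne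
  subst hda
  -- the sum over all defects
  have htot : ∀ V : Subgroup K, (Nat.card V : ℚ) * Nat.card {ψ : ↥(V.comap p) → ℂ // IsIrr ψ ∧
      ip (fun a : A => ext0 ψ (j a)) θ ≠ 0} =
      ∑ e ∈ Finset.range (Nat.card T + 1), gg j p θ ℓ e V := by
    intro V
    unfold gg
    rw [← Finset.mul_sum]
    congr 1
    rw [← Nat.cast_sum]
    congr 1
    exact sum_defect ℓ _ (Subgroup.card_le_card_group _)
  have hsum : ∑ V, m V * ((Nat.card V : ℚ) * Nat.card {ψ : ↥(V.comap p) → ℂ // IsIrr ψ ∧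
      ip (fun a : A => ext0 ψ (j a)) θ ≠ 0}) ≠ 0 := by
    have h7 : ∑ V, m V * ((Nat.card V : ℚ) * Nat.card {ψ : ↥(V.comap p) → ℂ // IsIrr ψ ∧
        ip (fun a : A => ext0 ψ (j a)) θ ≠ 0}) =
        ∑ e ∈ Finset.range (Nat.card T + 1), ∑ V, m V * gg j p θ ℓ e V := by
      rw [Finset.sum_comm]
      refine Finset.sum_congr rfl fun V _ => ?_
      rw [htot V, Finset.mul_sum]
    have h8 : ∀ e ∈ Finset.range (Nat.card T + 1), e ≠ d →
        ∑ V, m V * gg j p θ ℓ e V = 0 := by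
      intro e _ hed
      rcases lt_or_gt_of_ne hed with h | h
      · exact hsmall e h
      · exact hlarge e h
    rw [h7]
    by_cases hdr : d ∈ Finset.range (Nat.card T + 1)
    · rw [Finset.sum_eq_single_of_mem d hdr h8]
      exact hne
    · exfalso
      apply hne
      refine Finset.sum_eq_zero fun V _ => ?_
      have h9 := sum_defect (Y := ↥(V.comap p)) ℓ
        (fun ψ => ip (fun a : A => ext0 ψ (j a)) θ ≠ 0) (B := Nat.card T + d)
        ((Subgroup.card_le_card_group _).trans (Nat.le_add_right _ _))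
      have h10 := sum_defect (Y := ↥(V.comap p)) ℓ
        (fun ψ => ip (fun a : A => ext0 ψ (j a)) θ ≠ 0) (B := Nat.card T)
        (Subgroup.card_le_card_group _)
      rw [h10] at h9
      have h11 : Finset.range (Nat.card T + 1) ⊆ Finset.range (Nat.card T + d + 1) :=
        Finset.range_subset_range.2 (by omega)
      have h12 := Finset.sum_sdiff (f := fun e => Nat.card {ψ : ↥(V.comap p) → ℂ // IsIrr ψ ∧
        ip (fun a : A => ext0 ψ (j a)) θ ≠ 0 ∧ HasDefect ℓ ψ e}) h11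
      have h13 : ∑ e ∈ Finset.range (Nat.card T + d + 1) \ Finset.range (Nat.card T + 1),
          Nat.card {ψ : ↥(V.comap p) → ℂ // IsIrr ψ ∧
            ip (fun a : A => ext0 ψ (j a)) θ ≠ 0 ∧ HasDefect ℓ ψ e} = 0 := by
        omega
      have h14 := (Finset.sum_eq_zero_iff.1 h13) d (by
        rw [Finset.mem_sdiff]
        exact ⟨Finset.mem_range.2 (by omega), hdr⟩)
      rw [h14, Nat.cast_zero, mul_zero, mul_zero]
  -- passage to the twisted group
  obtain ⟨Γ, L, _, _, _, _, e, q, r, E, U, μ, π, htw⟩ := h4 A T K j c p hcl hp θ hθ hinv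
  refine h3 L K π htw.πs U μ htw.Uc htw.πk m hm ?_
  have h7 : ∀ V : Subgroup K, Nat.card {η : ↥(V.comap π) → ℂ // IsIrr η ∧ OvL U μ _ η} =
      Nat.card {ψ : ↥(V.comap p) → ℂ // IsIrr ψ ∧ ip (fun a : A => ext0 ψ (j a)) θ ≠ 0} := by
    intro V
    have h8 := (h5 A T K Γ L ℓ j c p hcl hp θ hθ hinv e q r E U μ π htw V).2.2.2.2.2.2.2
      (fun _ => True) (fun _ => True) (fun _ _ _ _ _ _ _ => Iff.rfl)
    have h9 : Nat.card {ψ : ↥(V.comap p) → ℂ // IsIrr ψ ∧
        ip (fun a : A => ext0 ψ (j a)) θ ≠ 0 ∧ True} =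
        Nat.card {ψ : ↥(V.comap p) → ℂ // IsIrr ψ ∧ ip (fun a : A => ext0 ψ (j a)) θ ≠ 0} :=
      Nat.card_congr (Equiv.subtypeEquivRight fun ψ => by rw [and_true])
    have h10 : Nat.card {η : ↥(V.comap π) → ℂ // IsIrr η ∧ OvL U μ _ η ∧ True} =
        Nat.card {η : ↥(V.comap π) → ℂ // IsIrr η ∧ OvL U μ _ η} :=
      Nat.card_congr (Equiv.subtypeEquivRight fun ψ => by rw [and_true])
    rw [← h10, ← h9]
    exact h8.symm
  rw [Finset.sum_congr rfl fun V _ => by rw [h7 V]]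
  exact hsum

end Pool.Agent.DPM


end

section

/-!
# PSI: the inner sums
-/

namespace Pool.Agent.DPM

open Pool.Agent.DP Pool.Agent.DPC Pool.Agent.Lib_helper13 Representation
open Pool.Agent.Lib_helper13.Dade (pCore DadeHolds dadeSum)

namespace PSI

theorem HQ_mono {ℓ m n : ℕ} (h : HQ ℓ n) (hmn : m ≤ n) : HQ ℓ m := by
  intro Y _ _ h1 h2
  exact h Y h1 (h2.trans hmn)

theorem main (h1 : Stmt_PSA) (h2 : Stmt_PSB) (h3 : Stmt_PSE) (ℓ : ℕ) [Fact ℓ.Prime] (n : ℕ) :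
    HQ ℓ n → ∀ (Y : Type) [Group Y] [Fintype Y], (Subgroup.center Y).index = n → PSt ℓ Y := by
  induction n using Nat.strong_induction_on with
  | _ n ih =>
    intro hQ Y _ _ hn 𝔐 hmax hℓ N _ d ω hII
    have hN : pCore ℓ N = ⊥ := (h1 Y 𝔐 ℓ N d ω).1 hII
    have hOp : IsPGroup ℓ (pCore ℓ Y) := isPGroup_pCore ℓ
    have hOn : (pCore ℓ Y).Normal := pCore_normal ℓ
    obtain ⟨Z, hZ⟩ : ∃ Z : Subgroup Y, Z = pCore ℓ Y ⊓ Subgroup.center Y := ⟨_, rfl⟩
    have hZO : Z ≤ pCore ℓ Y := by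
      rw [hZ]
      exact inf_le_left
    have hZc : Z ≤ Subgroup.center Y := by
      rw [hZ]
      exact inf_le_right
    have hZp : IsPGroup ℓ Z := hOp.to_le hZO
    have hZn : Z.Normal := by
      rw [hZ]
      exact Subgroup.normal_inf_normal _ _
    have hZN : Z ⊓ N = ⊥ := by
      have h4 : (Z.subgroupOf N).Normal := inferInstance
      have h5 : IsPGroup ℓ (Z.subgroupOf N) := hZp.comap_of_injective N.subtype N.subtype_injective
      have h6 : Z.subgroupOf N ≤ pCore ℓ N := le_sSup ⟨h4, h5⟩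
      rw [hN, le_bot_iff] at h6
      exact (Subgroup.subgroupOf_eq_bot.1 h6).eq_bot
    by_cases hKK : KK 𝔐 ℓ d Z ω = II 𝔐 ℓ d N (MonoidHom.id Y) ω
    · have hK0 : KK 𝔐 ℓ d Z ω ≠ 0 := by
        rw [hKK]
        exact hII
      have hOc : pCore ℓ Y ≤ Subgroup.center Y := by
        by_contra h4
        have h5 : Z < pCore ℓ Y := by
          refine lt_of_le_of_ne hZO fun h6 => h4 ?_
          rw [← h6]
          exact hZc
        exact hK0 (KK_eq_zero 𝔐 d hOp h5 ω)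
      have hZeq : Z = pCore ℓ Y := by
        rw [hZ]
        exact inf_eq_left.mpr hOc
      rw [hZeq] at hK0
      exact h2 Y 𝔐 ℓ hmax hℓ hOc (hQ Y hOc hn.le) N hN d ω hK0
    · obtain ⟨c, hc, hc0, hc1⟩ := (h1 Y 𝔐 ℓ N d ω).2 Z hZc hZp hZN hKK
      refine h3 Y 𝔐 ℓ hmax hℓ Z N hZ hZN ?_ c hc hc0 d ω hc1
      intro L _ _ hL
      rw [hn] at hL
      exact ih _ hL (HQ_mono hQ hL.le) L rfl

end PSI

/-- PSI. -/
theorem PSI_thm (h1 : Stmt_PSA) (h2 : Stmt_PSB) (h3 : Stmt_PSE) : Stmt_PSI :=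
  fun ℓ _ Y _ _ hQ => PSI.main h1 h2 h3 ℓ _ hQ Y rfl

end Pool.Agent.DPM


end

section

/-!
# Module PSB: the chain sum of a group for which Dade's conjecture holds
-/

set_option autoImplicit false

namespace Pool.Agent.DPM

open Pool.Agent.DP Pool.Agent.DPC Pool.Agent.Lib_helper13 Representation
open Pool.Agent.Lib_helper13.Dade (pCore DadeHolds dadeSum)

namespace PSB

section

variable {N W : Type} [Group N] [Group W]

/-- The conjugation action on an embedded normal subgroup. -/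
noncomputable def act (j : N →* W) (hj : Function.Injective j) [j.range.Normal] :
    W →* MulAut N :=
  (MulAut.congr (MonoidHom.ofInjective hj).symm).toMonoidHom.comp
    (MulAut.conjNormal : W →* MulAut j.range)

theorem j_act (j : N →* W) (hj : Function.Injective j) [j.range.Normal] (y : W) (a : N) :
    j (act j hj y a) = y * j a * y⁻¹ := by
  have h1 : act j hj y a = (MonoidHom.ofInjective hj).symm
      (MulAut.conjNormal y (MonoidHom.ofInjective hj a)) := rfl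
  have h2 : ∀ b : N, j b = ((MonoidHom.ofInjective hj b : j.range) : W) := fun b => rfl
  rw [h2, h1, MulEquiv.apply_symm_apply, MulAut.conjNormal_apply, h2 a]

theorem clg (j : N →* W) (hj : Function.Injective j) [j.range.Normal] :
    ClG j (act j hj) (QuotientGroup.mk' j.range) where
  inj := hj
  act := j_act j hj
  ker := fun y => by
    rw [QuotientGroup.mk'_apply, QuotientGroup.eq_one_iff]

end

end PSB

theorem PSB_thm (h1 : Stmt_DZC) (h2 : Stmt_DEFA) : Stmt_PSB := by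
  intro Y _ _ 𝔐 ℓ hp h𝔐 hℓ hcent hD N hN hcore d ω hKK
  classical
  obtain ⟨_, χ, hχ, htriv, hcen, hdef⟩ := h1 Y 𝔐 ℓ h𝔐 hℓ hcent hD d ω hKK
  obtain ⟨θ, hθ, hover⟩ := CLG.exists_under N.subtype hχ
  refine ⟨χ, θ, hχ, hθ, ?_, hover, hcen⟩
  obtain ⟨hZn, hZp⟩ := ZR.pCore_spec ℓ Y
  set Z : Subgroup Y := pCore ℓ Y with hZdef
  have hZN : ∀ x ∈ N, x ∈ Z → x = 1 := by
    intro x hx hxZ
    have hle : Z.subgroupOf N ≤ pCore ℓ N :=
      ZR.le_pCore ℓ (Z.subgroupOf N) inferInstance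
        (hZp.comap_of_injective N.subtype N.subtype_injective)
    have hmem : (⟨x, hx⟩ : N) ∈ pCore ℓ N := hle (Subgroup.mem_subgroupOf.mpr hxZ)
    rw [hcore, Subgroup.mem_bot] at hmem
    exact congrArg Subtype.val hmem
  obtain ⟨χb, hb, hbx⟩ := DZC.deflate Z hcent hχ htriv
  have hb0 : HasDefect ℓ χb 0 := DZC.defect_deflate Z hZp hχ hdef hb (hbx 1)
  let j : N →* Y ⧸ Z := (QuotientGroup.mk' Z).comp N.subtype
  have hj : Function.Injective j := by
    rw [injective_iff_map_eq_one]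
    intro a ha
    have h3 : ((a : Y) : Y ⧸ Z) = 1 := ha
    rw [QuotientGroup.eq_one_iff] at h3
    exact Subtype.ext (hZN a a.2 h3)
  have hrange : j.range.Normal := by
    have h3 : j.range = N.map (QuotientGroup.mk' Z) := by
      ext w
      constructor
      · rintro ⟨a, rfl⟩
        exact ⟨a, a.2, rfl⟩
      · rintro ⟨a, ha, rfl⟩
        exact ⟨⟨a, ha⟩, rfl⟩
    rw [h3]
    exact hN.map _ (QuotientGroup.mk'_surjective Z)
  have hres : resj j χb = resj N.subtype χ := by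
    funext a
    exact hbx a
  have hover' : ip (resj j χb) θ ≠ 0 := by
    rw [hres]
    exact hover
  obtain ⟨a, ha⟩ := hθ.exists_defect (ℓ := ℓ)
  have hle := h2 N (Y ⧸ Z) _ ℓ j (PSB.act j hj) (QuotientGroup.mk' j.range) (PSB.clg j hj)
    χb θ hb hθ hover' 0 a hb0 ha
  have ha0 : a = 0 := by omega
  rw [← ha0]
  exact ha

end Pool.Agent.DPM


end

section

/-!
# Theorem A: the contribution of a nonempty outer chain (module PSE)
-/

namespace Pool.Agent.DPM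

open Pool.Agent.DP Pool.Agent.DPC Pool.Agent.Lib_helper13 Representation
open Pool.Agent.Lib_helper13.Dade (pCore DadeHolds dadeSum)

namespace PSE

/-- Comparison of the indices. -/
theorem idx {Y : Type} [Group Y] [Finite Y] (S : Subgroup Y) (T : Subgroup S) (C Q : Subgroup Y)
    (hC : C ≤ S) (hCT : C.subgroupOf S ≤ T) (hQ : Q.subgroupOf S ≤ T)
    (h : ¬ ((C.subgroupOf S).subgroupOf T ⊔ (Subgroup.inclusion hQ).range).index < C.index) :
    Q ≤ C := by
  set Z1 : Subgroup T := (C.subgroupOf S).subgroupOf T with hZ1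
  set R : Subgroup T := (Subgroup.inclusion hQ).range with hR
  have c1 : Nat.card Z1 = Nat.card C := by
    rw [hZ1, Nat.card_congr (Subgroup.subgroupOfEquivOfLe hCT).toEquiv,
      Nat.card_congr (Subgroup.subgroupOfEquivOfLe hC).toEquiv]
  have c2 := C.card_mul_index
  have c3 := Z1.card_mul_index
  have c4 := (Z1 ⊔ R).card_mul_index
  have c5 : Nat.card T ≤ Nat.card S := Subgroup.card_le_card_group T
  have c6 : Nat.card S ≤ Nat.card Y := Subgroup.card_le_card_group S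
  have c7 : (Z1 ⊔ R).index ≤ Z1.index :=
    Nat.le_of_dvd (Nat.pos_of_ne_zero Subgroup.index_ne_zero_of_finite)
      (Subgroup.index_dvd_of_le le_sup_left)
  have c8 : 0 < Nat.card C := Nat.card_pos
  rw [c1] at c3
  have c9 : Nat.card Y ≤ Nat.card T := by
    rw [← c2, ← c3]
    exact Nat.mul_le_mul_left _ (by omega)
  have hS : S = ⊤ := Subgroup.eq_top_of_card_eq S (by omega)
  have hT : T = ⊤ := Subgroup.eq_top_of_card_eq T (by omega)
  have c10 : Z1.index = C.index := by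
    have : Nat.card C * Z1.index = Nat.card C * C.index := by omega
    exact Nat.eq_of_mul_eq_mul_left c8 this
  have c11 : (Z1 ⊔ R).index = Z1.index := by omega
  have c12 : Nat.card ↥(Z1 ⊔ R) = Nat.card Z1 := by
    have h1 : 0 < Z1.index := Nat.pos_of_ne_zero Subgroup.index_ne_zero_of_finite
    have h2 := Z1.card_mul_index
    rw [c11, ← h2] at c4
    exact Nat.eq_of_mul_eq_mul_right h1 c4
  have c13 : Z1 = Z1 ⊔ R := Subgroup.eq_of_le_of_card_ge le_sup_left (by omega)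
  intro q hq
  have hqS : q ∈ S := by rw [hS]; exact Subgroup.mem_top _
  have hqT : (⟨q, hqS⟩ : S) ∈ T := by rw [hT]; exact Subgroup.mem_top _
  have h1 : (⟨⟨q, hqS⟩, hqT⟩ : T) ∈ R := ⟨⟨⟨q, hqS⟩, hq⟩, rfl⟩
  have h2 : (⟨⟨q, hqS⟩, hqT⟩ : T) ∈ Z1 := by
    rw [c13]
    exact (le_sup_right : R ≤ Z1 ⊔ R) h1
  exact h2

end PSE

theorem PSE_thm (h1 : Stmt_PSC) (h2 : Stmt_PSDD) (h3 : Stmt_PSG) : Stmt_PSE := by
  intro Y _ _ 𝔐 ℓ _ h𝔐 hℓ Z N _ hZ hZN hIH c hc hne d ω hsum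
  have hpn : (pCore ℓ Y).Normal := pCore_normal ℓ
  have hZn : Z.Normal := by
    rw [hZ]
    infer_instance
  have hZp : IsPGroup ℓ Z := by
    rw [hZ]
    exact (isPGroup_pCore ℓ).to_le inf_le_left
  obtain ⟨hc1, hcN⟩ : c ∈ Ch ℓ Z ∧ ∀ D ∈ c, D ⊓ N = ⊥ := by
    classical
    unfold OutC at hc
    exact Finset.mem_filter.1 hc
  have hch : IsCh ℓ Z c := mem_Ch.1 hc1
  obtain ⟨q1, q2, q3, q4, q5, q6⟩ := INY_thm Y ℓ Z N c hch hcN hZN hZp
  -- the group `N` in the stabilizer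
  set M : Subgroup (stb c) := N.subgroupOf (stb c) with hM
  have hMm : ∀ y : stb c, y ∈ M ↔ (y : Y) ∈ N := fun y => Subgroup.mem_subgroupOf
  have hI : innerS ℓ Z N (WW 𝔐 ℓ d ω) c = II 𝔐 ℓ d M (stb c).subtype ω := by
    rw [q6 M hMm]
    unfold II
    refine Finset.sum_congr rfl fun τ _ => ?_
    rw [WW_map 𝔐 ℓ d ω (stb c).subtype (Subgroup.subtype_injective _)]
  rw [hI] at hsum
  obtain ⟨F, hF1, hF2⟩ := MIX_thm Y (stb c) 𝔐 ℓ (stb c).subtype ω
  have hII : II 𝔐 ℓ d M (stb c).subtype ω =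
      ∑ ω' ∈ F, II 𝔐 ℓ d M (MonoidHom.id (stb c)) ω' := by
    unfold II
    rw [Finset.sum_comm]
    refine Finset.sum_congr rfl fun τ _ => ?_
    rw [hF1, ← Finset.mul_sum, ← Finset.mul_sum]
    rfl
  rw [hII] at hsum
  obtain ⟨ω', hω', hne'⟩ := Finset.exists_ne_zero_of_sum_ne_zero hsum
  -- the group `Q`
  set Q : Subgroup Y := tp Z c with hQ
  have hQn : (Q.subgroupOf (stb c)).Normal := by
    constructor
    intro n hn g
    rw [Subgroup.mem_subgroupOf] at hn ⊢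
    have e1 := q3 g.1 g.2
    have e2 : (g : Y) * n * (g : Y)⁻¹ ∈ Q.map (MulAut.conj (g : Y)).toMonoidHom := ⟨_, hn, rfl⟩
    rw [e1] at e2
    exact e2
  have hMc : M ≤ Subgroup.centralizer (Q.subgroupOf (stb c) : Set (stb c)) := by
    intro m hm
    rw [Subgroup.mem_centralizer_iff]
    intro x hx
    have e1 := q5 m.1 m.2 ((hMm m).1 hm)
    have e2 := (Subgroup.mem_inf.1 e1).2
    rw [Subgroup.mem_centralizer_iff] at e2
    exact Subtype.ext (e2 x.1 hx)
  obtain ⟨T, hQT, ν, k1, k2, k3, k4, k5, k6⟩ := h1 (stb c) 𝔐 ℓ h𝔐 hℓ (Q.subgroupOf (stb c)) M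
    hMc d ω' hne'
  -- the centre
  have hCS : Subgroup.center Y ≤ stb c := by
    intro z hz
    rw [mem_stb']
    intro D _ x
    have e1 : z * x * z⁻¹ = x := by
      rw [mul_inv_eq_iff_eq_mul]
      exact (Subgroup.mem_center_iff.1 hz x).symm
    rw [e1]
  have hCc : (Subgroup.center Y).subgroupOf (stb c) ≤ Subgroup.center (stb c) := by
    intro z hz
    rw [Subgroup.mem_center_iff]
    intro g
    exact Subtype.ext (Subgroup.mem_center_iff.1 (Subgroup.mem_subgroupOf.1 hz) g.1)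
  have hCT := hCc.trans k2
  have hlt : (((Subgroup.center Y).subgroupOf (stb c)).subgroupOf T ⊔
      (Subgroup.inclusion hQT).range).index < (Subgroup.center Y).index := by
    by_contra hcon
    have hQC := PSE.idx (stb c) T (Subgroup.center Y) Q hCS hCT hQT hcon
    have hQnY : Q.Normal := by
      constructor
      intro n hn g
      have e1 : g * n * g⁻¹ = n := by
        rw [mul_inv_eq_iff_eq_mul]
        exact Subgroup.mem_center_iff.1 (hQC hn) g
      rw [e1]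
      exact hn
    have hQp : Q ≤ pCore ℓ Y := le_sSup ⟨hQnY, q1⟩
    have hQZ : Q ≤ Z := by
      rw [hZ]
      exact le_inf hQp hQC
    obtain ⟨D, hD⟩ := Finset.nonempty_iff_ne_empty.2 hne
    have e1 : D ≤ Q := le_trans (Finset.le_sup (f := id) hD) le_sup_left
    exact absurd (e1.trans hQZ) (not_le_of_gt (hch.1 D hD).2)
  have hrn : (Subgroup.inclusion hQT).range.Normal := by
    constructor
    rintro _ ⟨n, rfl⟩ g
    refine ⟨⟨(g : stb c) * n * (g : stb c)⁻¹, hQn.conj_mem n.1 n.2 _⟩, ?_⟩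
    exact Subtype.ext rfl
  have hMn : (M.subgroupOf T).Normal := inferInstance
  obtain ⟨ψ, θ, p1, p2, p3, p4, p5, p6⟩ := h2 (Q.subgroupOf (stb c)) T (stb c) 𝔐 ℓ h𝔐 hℓ
    (Subgroup.inclusion hQT) (Subgroup.inclusion_injective hQT) hrn ν k3
    (fun t a b hab => k4 t a b (by
      have := congrArg (Subtype.val) hab
      exact this)) (M.subgroupOf T) (by
      intro m hm
      rw [Subgroup.mem_centralizer_iff]
      rintro _ ⟨x, rfl⟩
      have e1 := hMc (Subgroup.mem_subgroupOf.1 hm)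
      rw [Subgroup.mem_centralizer_iff] at e1
      exact Subtype.ext (e1 x.1 x.2)) (by
      rw [eq_bot_iff]
      rintro m ⟨hm, ⟨x, rfl⟩⟩
      have e1 : (x : stb c) ∈ M := Subgroup.mem_subgroupOf.1 hm
      have e2 : ((x : stb c) : Y) ∈ Q ⊓ N :=
        Subgroup.mem_inf.2 ⟨Subgroup.mem_subgroupOf.1 x.2, (hMm _).1 e1⟩
      rw [q2, Subgroup.mem_bot] at e2
      rw [Subgroup.mem_bot]
      exact Subtype.ext (Subtype.ext e2)) T.subtype d ω' k5
    (((Subgroup.center Y).subgroupOf (stb c)).subgroupOf T) (by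
      intro z hz
      rw [Subgroup.mem_center_iff]
      intro g
      have e1 := hCc (Subgroup.mem_subgroupOf.1 hz)
      exact Subtype.ext (Subgroup.mem_center_iff.1 e1 g.1)) (by
      intro L' _ _ hL'
      exact hIH L' (lt_of_le_of_lt hL' hlt))
  obtain ⟨ψ1, θ1, r1, r2, r3, r4, r5⟩ := k6 ψ θ p1 p2 p3 p4 p5
  obtain ⟨χ, ξ, s1, s2, s3, s4, s5⟩ := h3 Y 𝔐 ℓ h𝔐 hℓ Z N hZp hZN c hch hcN M hMm ψ1 θ1 r1 r2 r3 r4
  refine ⟨χ, ξ, s1, s2, s3, s4, ?_⟩
  rw [s5]
  have e1 := hF2 ω' hω' ⊤ (fun y => ψ1 (Subgroup.topEquiv y))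
    (r1.comp_mulEquiv Subgroup.topEquiv) (by
      have e2 := cen_comp_equiv 𝔐 (Subgroup.topEquiv : (⊤ : Subgroup (stb c)) ≃* stb c)
        (MonoidHom.id (stb c)) ψ1
      rw [r5, p6] at e2
      exact e2)
  have e3 := cen_comp_equiv 𝔐 (Subgroup.topEquiv : (⊤ : Subgroup (stb c)) ≃* stb c)
    (stb c).subtype ψ1
  rw [← e3]
  exact e1

end Pool.Agent.DPM


end

section

/-!
# PSDD: the sum over an invariant character
-/

namespace Pool.Agent.DPM

open Pool.Agent.DP Pool.Agent.DPC Pool.Agent.Lib_helper13 Representation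
open Pool.Agent.Lib_helper13.Dade (pCore DadeHolds dadeSum)

theorem PSDD_thm (h1 : Stmt_PSDA) (h2 : Stmt_PSDB) : Stmt_PSDD := by
  intro A T X _ _ _ _ _ _ 𝔐 ℓ _ hM hl j hj hjn ν hν hinv N _ hNc hNj i d ω hIJ Z1 hZ1 hP
  obtain ⟨L, instG, instF, U, μ, N1, d1, c, hUc, hUcyc, hμ, hN1, hN1U, hidx, hIU, hback⟩ :=
    h1 A T X 𝔐 ℓ hM hl j hj hjn ν hν hinv N hNc hNj i d ω hIJ Z1 hZ1
  haveI := hN1
  obtain ⟨χ, θ, hχ, hθ, hθd, hip, hcen, hover⟩ :=
    h2 L 𝔐 ℓ hM hl U μ hUc hUcyc hμ N1 hN1U d1 c hIU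
      (fun L' _ _ hL' => hP L' (hL'.trans hidx))
  exact hback χ θ hχ hover hcen hθ hθd hip

end Pool.Agent.DPM


end

section

/-!
# The structure of a minimal counterexample to Dade's conjecture: all modules together
-/

namespace Pool.Agent.DPM

open Pool.Agent.DP Pool.Agent.DPC Pool.Agent.Lib_helper13 Representation

theorem all_INVU : Stmt_INVU := INVU_thm EU_thm

theorem all_DEFA : Stmt_DEFA := DEFA_thm TWC_thm TWN_thm

theorem all_GALX : Stmt_GALX := GALX_thm GAU_thm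

theorem all_ISOL : Stmt_ISOL := ISOL_thm all_GALX QINF_thm

theorem all_DZC : Stmt_DZC := DZC_thm BTC_thm

theorem all_TD : Stmt_TD := TD_thm TWC_thm TWN_thm all_ISOL CHC_thm all_DZC

theorem all_TOP : Stmt_TOP := TOP_thm all_TD all_INVU PAIRS_thm TWC_thm TWN_thm all_DEFA

theorem all_PSB : Stmt_PSB := PSB_thm all_DZC all_DEFA

theorem all_PSC : Stmt_PSC := PSC_thm CLC_thm

theorem all_PSDD : Stmt_PSDD :=
  PSDD_thm (PSDA_thm TWC_thm TWN_thm TWF_thm) (PSDB_thm all_ISOL BTC_thm)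

theorem all_PSG : Stmt_PSG := PSG_thm CVX_thm

theorem all_PSE : Stmt_PSE := PSE_thm all_PSC all_PSDD all_PSG

theorem all_PSI : Stmt_PSI := PSI_thm PSA_thm all_PSB all_PSE

theorem all_EXPB : Stmt_EXPB := EXPB_thm CLC_thm RCE_thm

theorem all_EXPA : Stmt_EXPA := EXPA_thm all_EXPB MOBX_thm

theorem all_PHV : Stmt_PHV := PHV_thm all_PSI MXM_thm RCE_thm CVX_thm

theorem all_PHT : Stmt_PHT := PHT_thm all_PSI PSA_thm all_PSE MXM_thm RCE_thm CVX_thm

theorem all_MPR : Stmt_MPR := MPR_thm all_DEFA RCE_thm CVX_thm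

theorem all_FINA : Stmt_FINA :=
  FINA_thm all_PHV all_PHT ZCM_thm all_MPR all_EXPA all_TOP CVX_thm RCE_thm MOBX_thm

end Pool.Agent.DPM


end

section

/-!
# The quotients of a minimal counterexample to Dade's conjecture: reusable results
-/

namespace Pool.Agent.DPN

open Pool.Agent.DP

theorem b_GALL : Pool.Agent.DP.Stmt_GALL := GALL_thm COSET_thm SUMM_thm

theorem b_CCOR : Pool.Agent.DP.Stmt_CCOR := CCOR_thm IND_thm SUMM_thm

end Pool.Agent.DPN


end

section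

/-!
# FINN: the quotients without normal `ℓ`-subgroups
-/

namespace Pool.Agent.DPN

open Pool.Agent.DP Pool.Agent.DPC Pool.Agent.DPM Pool.Agent.Lib_helper13 Representation
open Pool.Agent.Lib_helper13.Dade (pCore DadeHolds dadeSum)

namespace FINN

theorem DK_equiv {Y Y' X : Type} [Group Y] [Fintype Y] [Group Y'] [Fintype Y'] [Group X]
    (𝔐 : Ideal (integralClosure ℤ ℂ)) (ℓ d : ℕ) (e : Y ≃* Y') (Z : Subgroup Y) (i : Y' →* X)
    (P : Set (X → (integralClosure ℤ ℂ) ⧸ 𝔐)) :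
    DK 𝔐 ℓ d (Z.map e.toMonoidHom) i P = DK 𝔐 ℓ d Z (i.comp e.toMonoidHom) P := by
  rw [DK, DK, sum_Ch_equiv]
  refine Finset.sum_congr rfl fun τ _ => ?_
  rw [card_mapCh (i := e.toMonoidHom) e.injective, stb_mapCh_equiv]
  congr 2
  · congr 1
    exact (Nat.card_congr ((stb τ).equivMapOfInjective _ e.injective).toEquiv).symm
  · congr 1
    symm
    apply card_irr_equiv ((stb τ).equivMapOfInjective e.toMonoidHom e.injective)
    intro ψ _
    rw [hasDefect_comp_equiv]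
    have h1 : (i.comp e.toMonoidHom).comp (stb τ).subtype =
        (i.comp ((stb τ).map e.toMonoidHom).subtype).comp
          ((stb τ).equivMapOfInjective e.toMonoidHom e.injective).toMonoidHom := rfl
    rw [h1, cen_comp_equiv]

/-- The isomorphism of the whole group. -/
noncomputable def eT {X : Type} [Group X] (S : Subgroup X) (hS : S = ⊤) : S ≃* X :=
  MulEquiv.ofBijective S.subtype ⟨S.subtype_injective, by
    rw [← MonoidHom.range_eq_top, Subgroup.range_subtype, hS]⟩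

theorem DK_top {X : Type} [Group X] [Fintype X] (𝔐 : Ideal (integralClosure ℤ ℂ)) (ℓ d : ℕ)
    (S : Subgroup X) (hS : S = ⊤) (Z : Subgroup X) (P : Set (X → (integralClosure ℤ ℂ) ⧸ 𝔐)) :
    DK 𝔐 ℓ d (Z.subgroupOf S) S.subtype P = DK 𝔐 ℓ d Z (MonoidHom.id X) P := by
  have h1 : (eT S hS).toMonoidHom = S.subtype := rfl
  have h2 : (Z.subgroupOf S).map (eT S hS).toMonoidHom = Z := by
    rw [h1, Subgroup.map_subgroupOf_eq_of_le (by rw [hS]; exact le_top)]
  have h3 := DK_equiv 𝔐 ℓ d (eT S hS) (Z.subgroupOf S) (MonoidHom.id X) P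
  rw [h2] at h3
  rw [h3]
  rfl

/-- The restriction of the linear characters. -/
def rV {W : Type} [Group W] (V R : Subgroup W) : R.subgroupOf V →* R :=
  (V.subtype.comp (R.subgroupOf V).subtype).codRestrict R
    (fun s => Subgroup.mem_subgroupOf.mp s.2)

theorem sub_zero {O X H : Type} [Group O] [Fintype O] [Group X] [Fintype X] [Group H] [Fintype H]
    (h2 : Stmt_DKV)
    (𝔐 : Ideal (integralClosure ℤ ℂ)) (ℓ : ℕ) [Fact ℓ.Prime] (hM : 𝔐.IsMaximal)
    (hl : (ℓ : integralClosure ℤ ℂ) ∈ 𝔐) (j : O →* X) (c : X →* MulAut O) (p : X →* H)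
    (h : ClG j c p) (hp : Function.Surjective p) (n : ℕ) (hn : HQ ℓ n)
    (hC : Subgroup.center X ≤ j.range) (hi : (Subgroup.center X).index ≤ n + 1)
    (Z : Subgroup O) (hZ : IsPGroup ℓ Z) (hZj : Z.map j ≤ Subgroup.center X) (d : ℕ)
    (P : Set (X → (integralClosure ℤ ℂ) ⧸ 𝔐)) (hd : padicValNat ℓ (Nat.card Z) < d)
    (V : Subgroup H) (hV : V ≠ ⊤) :
    DK 𝔐 ℓ d ((Z.map j).subgroupOf (V.comap p)) (V.comap p).subtype P = 0 := by
  have hCY : Subgroup.center X ≤ V.comap p := by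
    intro x hx
    rw [Subgroup.mem_comap, (h.ker x).mpr (hC hx)]
    exact V.one_mem
  have hCc : (Subgroup.center X).subgroupOf (V.comap p) ≤ Subgroup.center (V.comap p) := by
    intro x hx
    rw [Subgroup.mem_center_iff]
    intro y
    apply Subtype.ext
    exact Subgroup.mem_center_iff.mp (Subgroup.mem_subgroupOf.mp hx) y
  have hidx : (Subgroup.center (V.comap p)).index ≤ n := by
    have e1 : (Subgroup.center (V.comap p)).index ∣
        ((Subgroup.center X).subgroupOf (V.comap p)).index := Subgroup.index_dvd_of_le hCc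
    have e2 : (Subgroup.center X).relIndex (V.comap p) * (V.comap p).index =
        (Subgroup.center X).index := Subgroup.relIndex_mul_index hCY
    have e3 : (V.comap p).index = V.index := Subgroup.index_comap_of_surjective V hp
    have e4 : V.index ≠ 0 := Subgroup.index_ne_zero_of_finite
    have e5 : V.index ≠ 1 := fun h5 => hV (Subgroup.index_eq_one.mp h5)
    have e6 : (Subgroup.center X).relIndex (V.comap p) ≠ 0 := by
      change ((Subgroup.center X).subgroupOf (V.comap p)).index ≠ 0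
      exact Subgroup.index_ne_zero_of_finite
    have e7 : (Subgroup.center (V.comap p)).index ≤ (Subgroup.center X).relIndex (V.comap p) :=
      Nat.le_of_dvd (Nat.pos_of_ne_zero e6) e1
    rw [e3] at e2
    have e8 : 2 ≤ V.index := by omega
    have e9 : (Subgroup.center X).relIndex (V.comap p) * 2 ≤ (Subgroup.center X).index := by
      rw [← e2]
      exact Nat.mul_le_mul_left _ e8
    omega
  have hZY : Z.map j ≤ V.comap p := hZj.trans hCY
  refine h2 (V.comap p) X 𝔐 ℓ hM hl n hn hidx ((Z.map j).subgroupOf (V.comap p)) ?_ ?_ d ?_ _ P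
  · intro x hx
    apply hCc
    exact Subgroup.mem_subgroupOf.mpr (hZj (Subgroup.mem_subgroupOf.mp hx))
  · exact (hZ.map j).comap_subtype
  · have e1 : Nat.card ((Z.map j).subgroupOf (V.comap p)) = Nat.card Z := by
      rw [Nat.card_congr (Subgroup.subgroupOfEquivOfLe hZY).toEquiv]
      exact (Nat.card_congr (Z.equivMapOfInjective j h.inj).toEquiv).symm
    rw [e1]
    exact hd

end FINN

open _root_.Pool.Agent.DPN.FINN in
open Classical in
/-- FINN -/
theorem FINN_thm (h1 : Stmt_FF) (h2 : Stmt_DKV) (h3 : Stmt_FAM) (h4 : Stmt_ABQ) (h5 : Stmt_SUPG)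
    (h6 : Stmt_NUX) (h7 : Stmt_YFF) (h8 : Stmt_FOU) (h9 : Stmt_PHN) (h10 : Stmt_FNA)
    (h11 : Stmt_FNB) : Stmt_FINN := by
  intro O X H _ _ _ _ _ _ 𝔐 ℓ _ hM hl j c p h hp hH n hn hC hi hHn Z hZ hZj d ω hd hne
  obtain ⟨m, hm⟩ := (MOBX_thm H).1
  have hm1 : m ⊤ = 1 := ((MOBX_thm H).2 m hm).1
  have hHQ : HQ ℓ (Nat.card H) := fun Y _ _ a b => hn Y a (b.trans hHn)
  -- the sum is not zero
  have hFF := h1 O X H 𝔐 ℓ j c p h hp hH Z m hm d {ω}
  have hL : ∑ V, m V * DK 𝔐 ℓ d ((Z.map j).subgroupOf (V.comap p)) (V.comap p).subtype {ω} =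
      DK 𝔐 ℓ d (Z.map j) (MonoidHom.id X) {ω} := by
    rw [Finset.sum_eq_single (⊤ : Subgroup H)]
    · rw [hm1, one_mul]
      exact DK_top 𝔐 ℓ d ((⊤ : Subgroup H).comap p) (Subgroup.comap_top p) (Z.map j) {ω}
    · intro V _ hV
      rw [sub_zero h2 𝔐 ℓ hM hl j c p h hp n hn hC hi Z hZ hZj d {ω} hd V hV, mul_zero]
    · intro h'
      exact absurd (Finset.mem_univ _) h'
  rw [hL] at hFF
  have hne' := hne
  rw [hFF] at hne'
  obtain ⟨τ₀, hτ₀, k1⟩ := Finset.exists_ne_zero_of_sum_ne_zero hne'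
  obtain ⟨θ₀, hθ₀, k2⟩ := Finset.exists_ne_zero_of_sum_ne_zero (right_ne_zero_of_mul k1)
  have k3 := right_ne_zero_of_mul k2
  rw [Finset.mem_filter, mem_irrF] at hθ₀
  obtain ⟨hirr₀, hFP₀⟩ := hθ₀
  have hPr := h10 O X H 𝔐 ℓ hM hl j c p h hH hHQ Z d ω m hm τ₀ hτ₀ θ₀ hirr₀ hFP₀ k3
  have hPr₀ := hPr τ₀ hτ₀ θ₀ hirr₀ hFP₀ k3
  obtain ⟨W, _, _, π, R, μ, Lm, hF⟩ := h3 O X H 𝔐 ℓ hM hl j c p h hH hHQ d Z
    (cen 𝔐 (stb τ₀).subtype θ₀)
  obtain ⟨hR, hRi, hRg⟩ := h4 O X H W 𝔐 ℓ hM hl j c p h d Z _ π R μ Lm hF τ₀ θ₀ hPr₀ m hm ω k3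
  haveI : R.Normal := hF.Rn
  obtain ⟨V, hVR, hVc, hVn, hV2, hVx, hVm⟩ := h5 W ℓ R hR hRi hRg
  by_cases hs : Function.Surjective (π.comp V.subtype)
  · refine ⟨?_, ?_, ?_⟩
    · haveI := hVn
      exact Group.nilpotent_of_surjective (π.comp V.subtype) hs
    · intro h'
      exact hVc (h'.trans (Subgroup.card_dvd_of_surjective (π.comp V.subtype) hs))
    · obtain ⟨x, y, hxy⟩ := hV2
      refine ⟨(π.comp V.subtype) x, (π.comp V.subtype) y, ?_⟩
      have e1 := congrArg (Subgroup.map (π.comp V.subtype)) hxy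
      rw [MonoidHom.map_closure, Set.image_pair, ← MonoidHom.range_eq_map,
        MonoidHom.range_eq_top.mpr hs] at e1
      exact e1
  · exfalso
    obtain ⟨ν, hν⟩ := h6 O X H W 𝔐 ℓ hM hl j c p h d Z _ π R μ Lm hF τ₀ θ₀ hPr₀
    -- the index set of the pairs
    let I : Finset ((τ : Finset (Subgroup O)) × (stb τ → ℂ)) :=
      (Ch ℓ Z).sigma (fun τ => (irrF (stb τ)).filter
        (fun θ => Pr h 𝔐 ℓ d Z (cen 𝔐 (stb τ₀).subtype θ₀) τ θ))
    let s : ((τ : Finset (Subgroup O)) × (stb τ → ℂ)) → ℂ :=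
      fun i => (-1 : ℂ) ^ i.1.card * (Nat.card (stb i.1) : ℂ)
    have hI : ∀ i ∈ I, Pr h 𝔐 ℓ d Z (cen 𝔐 (stb τ₀).subtype θ₀) i.1 i.2 := by
      intro i hi'
      exact (Finset.mem_filter.mp (Finset.mem_sigma.mp hi').2).2
    have hsig : ∀ g : (τ : Finset (Subgroup O)) → (stb τ → ℂ) → ℂ,
        ∑ τ ∈ Ch ℓ Z, (-1 : ℂ) ^ τ.card * ∑ θ ∈ irrF (stb τ) with
          Pr h 𝔐 ℓ d Z (cen 𝔐 (stb τ₀).subtype θ₀) τ θ, (Nat.card (stb τ) : ℂ) * g τ θ =
        ∑ i ∈ I, s i * g i.1 i.2 := by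
      intro g
      rw [Finset.sum_sigma]
      refine Finset.sum_congr rfl fun τ _ => ?_
      rw [Finset.mul_sum]
      refine Finset.sum_congr rfl fun θ _ => ?_
      change _ = ((-1 : ℂ) ^ τ.card * (Nat.card (stb τ) : ℂ)) * g τ θ
      rw [mul_assoc]
    have hRV : ∀ x y : V, x * y * x⁻¹ * y⁻¹ ∈ R.subgroupOf V :=
      fun x y => Subgroup.mem_subgroupOf.mpr (hR x y)
    -- the relations
    have r1 : ∀ x y : V, Subgroup.closure {x, y} = ⊤ → ∑ i ∈ I, s i *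
        ((ν i.1 i.2 ⟨(x : W) * y * (x : W)⁻¹ * (y : W)⁻¹, hR x y⟩ : ℂˣ) : ℂ)⁻¹ = 0 := by
      refine h8 V _ I (R.subgroupOf V) hRV s (fun i => (ν i.1 i.2).comp (rV V R)) ?_
        (fun x y => Subgroup.closure {x, y} = ⊤) ?_
      · intro i hi' v r r' hr
        refine hν.inv i.1 i.2 (hI i hi') (v : W) _ _ ?_
        exact congrArg Subtype.val hr
      · intro χ hχ
        have e1 := h7 O X H W 𝔐 ℓ hM hl j c p h hp n hn hC hi d Z hZ hZj hd _ π R μ Lm hF τ₀ θ₀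
          hPr₀ ν hν hR V hVR hVc hVm hs χ hχ
        rw [hsig (fun τ θ => ∑ x : V, ∑ y : V, (if Subgroup.closure {x, y} = ⊤ then
          ((χ ⟨x * y * x⁻¹ * y⁻¹, Subgroup.mem_subgroupOf.mpr (hR x y)⟩ : ℂˣ) : ℂ)⁻¹ *
          ((ν τ θ ⟨(x : W) * y * (x : W)⁻¹ * (y : W)⁻¹, hR x y⟩ : ℂˣ) : ℂ)⁻¹ else 0))] at e1
        exact e1
    have r2 : ∀ x y : W, Subgroup.closure {x, y} ⊔ R = ⊤ →
        ∑ i ∈ I, s i * ((ν i.1 i.2 ⟨x * y * x⁻¹ * y⁻¹, hR x y⟩ : ℂˣ) : ℂ)⁻¹ = 0 :=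
      h11 W _ I R hR V hVR hVx s (fun i => ν i.1 i.2)
        (fun i hi' => hν.inv i.1 i.2 (hI i hi')) r1
    obtain ⟨b, hb⟩ := h9 O X H W 𝔐 ℓ hM hl j c p h d Z _ π R μ Lm hF τ₀ θ₀ hPr₀ ν hν m hm ω
    have hk0 : (Nat.card π.ker : ℂ) ≠ 0 := by
      have : Nat.card π.ker ≠ 0 := Nat.card_pos.ne'
      exact_mod_cast this
    apply hne
    have key : (Nat.card π.ker : ℂ) *
        ((DK 𝔐 ℓ d (Z.map j) (MonoidHom.id X) {ω} : ℚ) : ℂ) = 0 := by
      rw [hFF, Rat.cast_sum, Finset.mul_sum]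
      have e1 : ∀ τ ∈ Ch ℓ Z, (Nat.card π.ker : ℂ) * (((-1 : ℚ) ^ τ.card *
          ∑ θ ∈ irrF (stb τ) with FP h τ θ, (Nat.card (stb τ) : ℚ) * ∑ V, m V *
            ((Nat.card V : ℚ) * NT 𝔐 ℓ d (jS h τ) (pS p j τ) θ (YS j τ).subtype {ω} V) : ℚ) : ℂ) =
          (-1 : ℂ) ^ τ.card * ∑ θ ∈ irrF (stb τ) with
            Pr h 𝔐 ℓ d Z (cen 𝔐 (stb τ₀).subtype θ₀) τ θ, (Nat.card (stb τ) : ℂ) *
              ((Nat.card π.ker : ℂ) * ((∑ V, m V * ((Nat.card V : ℚ) *
                NT 𝔐 ℓ d (jS h τ) (pS p j τ) θ (YS j τ).subtype {ω} V) : ℚ) : ℂ)) := by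
        intro τ hτ
        have e2 : ∑ θ ∈ irrF (stb τ) with
            Pr h 𝔐 ℓ d Z (cen 𝔐 (stb τ₀).subtype θ₀) τ θ, (Nat.card (stb τ) : ℂ) *
              ((Nat.card π.ker : ℂ) * ((∑ V, m V * ((Nat.card V : ℚ) *
                NT 𝔐 ℓ d (jS h τ) (pS p j τ) θ (YS j τ).subtype {ω} V) : ℚ) : ℂ)) =
            ∑ θ ∈ irrF (stb τ) with FP h τ θ, (Nat.card (stb τ) : ℂ) *
              ((Nat.card π.ker : ℂ) * ((∑ V, m V * ((Nat.card V : ℚ) *
                NT 𝔐 ℓ d (jS h τ) (pS p j τ) θ (YS j τ).subtype {ω} V) : ℚ) : ℂ)) := by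
          apply Finset.sum_subset
          · intro θ hθ
            rw [Finset.mem_filter] at hθ ⊢
            exact ⟨hθ.1, hθ.2.fp⟩
          · intro θ hθ hθ'
            rw [Finset.mem_filter] at hθ hθ'
            by_cases hz : ∑ V, m V * ((Nat.card V : ℚ) *
                NT 𝔐 ℓ d (jS h τ) (pS p j τ) θ (YS j τ).subtype {ω} V) = 0
            · rw [hz, Rat.cast_zero, mul_zero, mul_zero]
            · exact absurd ⟨hθ.1, hPr τ hτ θ (mem_irrF.mp hθ.1) hθ.2 hz⟩ hθ'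
        rw [e2, Rat.cast_mul, Rat.cast_sum, Rat.cast_pow, Rat.cast_neg, Rat.cast_one,
          mul_left_comm, Finset.mul_sum]
        refine congrArg _ (Finset.sum_congr rfl fun θ _ => ?_)
        rw [Rat.cast_mul, Rat.cast_natCast, mul_left_comm]
      rw [Finset.sum_congr rfl e1, hsig]
      have e3 : ∀ i ∈ I, s i * ((Nat.card π.ker : ℂ) * ((∑ V, m V * ((Nat.card V : ℚ) *
          NT 𝔐 ℓ d (jS h i.1) (pS p j i.1) i.2 (YS j i.1).subtype {ω} V) : ℚ) : ℂ)) =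
          ∑ x : W, ∑ y : W, (if Subgroup.closure {x, y} ⊔ R = ⊤ then b x y * (s i *
            ((ν i.1 i.2 ⟨x * y * x⁻¹ * y⁻¹, hR x y⟩ : ℂˣ) : ℂ)⁻¹) else 0) := by
        intro i hi'
        rw [hb i.1 i.2 (hI i hi'), Finset.mul_sum]
        refine Finset.sum_congr rfl fun x _ => ?_
        rw [Finset.mul_sum]
        refine Finset.sum_congr rfl fun y _ => ?_
        rw [dif_pos (hR x y)]
        by_cases hc : Subgroup.closure {x, y} ⊔ R = ⊤
        · rw [if_pos hc, if_pos hc, mul_left_comm]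
        · rw [if_neg hc, if_neg hc, mul_zero]
      rw [Finset.sum_congr rfl e3, Finset.sum_comm]
      refine Finset.sum_eq_zero fun x _ => ?_
      rw [Finset.sum_comm]
      refine Finset.sum_eq_zero fun y _ => ?_
      by_cases hc : Subgroup.closure {x, y} ⊔ R = ⊤
      · simp only [if_pos hc]
        rw [← Finset.mul_sum, r2 x y hc, mul_zero]
      · simp only [if_neg hc]
        exact Finset.sum_const_zero
    have k4 := (mul_eq_zero.mp key).resolve_left hk0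
    exact_mod_cast k4

end Pool.Agent.DPN


end

section

/-!
# YFF: the relations for the linear characters of the pairs
-/

namespace Pool.Agent.DPN

open Pool.Agent.DP Pool.Agent.DPC Pool.Agent.DPM Pool.Agent.Lib_helper13 Representation
open Pool.Agent.Lib_helper13.Dade (pCore DadeHolds dadeSum)

namespace YFF

theorem pCore_bot {V : Type*} [Group V] [Finite V] {ℓ : ℕ} [Fact ℓ.Prime]
    (h : ¬ ℓ ∣ Nat.card V) : pCore ℓ V = ⊥ := by
  have h1 : IsPGroup ℓ (pCore ℓ V) := isPGroup_pCore ℓ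
  obtain ⟨n, hn⟩ := h1.exists_card_eq
  have h2 : Nat.card (pCore ℓ V) ∣ Nat.card V := Subgroup.card_subgroup_dvd_card _
  have h3 : n = 0 := by
    by_contra h4
    exact h ((dvd_pow_self ℓ h4).trans (hn ▸ h2))
  rw [h3, pow_zero] at hn
  exact Subgroup.card_eq_one.mp hn

/-- The inclusion. -/
def rho {W : Type*} [Group W] (R V : Subgroup W) : R.subgroupOf V →* R :=
  (V.subtype.comp (R.subgroupOf V).subtype).codRestrict R
    (fun s => Subgroup.mem_subgroupOf.mp s.2)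

theorem rho_apply {W : Type*} [Group W] (R V : Subgroup W) (s : V) (hs : s ∈ R.subgroupOf V) :
    rho R V ⟨s, hs⟩ = ⟨(s : W), Subgroup.mem_subgroupOf.mp hs⟩ := rfl

end YFF

open _root_.Pool.Agent.DPN.YFF in
theorem YFF_thm (h1 : Stmt_FF) (h2 : Stmt_YFR) (h3 : Stmt_YCA) (h4 : Stmt_YCB) (h5 : Stmt_YCC)
    (h6 : Stmt_YPR) : Stmt_YFF := by
  classical
  intro O X H W _ _ _ _ _ _ _ _ 𝔐 ℓ _ h𝔐 hℓ j c p h hp n hn hcj hci a Z hZ hZc hZa Λ π R μ Lm hF
    τ₀ θ₀ hP₀ ν hν hR V hVR hV hm hg χ hχ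
  have := hF.Rn
  -- the Moebius function of `V`
  obtain ⟨⟨m, hmm⟩, -⟩ := MOBX_thm V
  have hmS := hm m hmm
  -- the choices
  have hpick : ∀ s : V, ∃ x : X, p x = π s := fun s => hp _
  choose t ht using hpick
  have hu : ∀ s : V, ∃ u : X → ℤ, s ∈ R.subgroupOf V →
      (AIv j u ∧ (∀ x, p x ≠ π s → u x = 0) ∧ Lm τ₀ θ₀ (fun x => u x) s ≠ 0) := by
    intro s
    by_cases hs : s ∈ R.subgroupOf V
    · obtain ⟨u, hu⟩ := (hF.mem τ₀ θ₀ hP₀ (s : W)).mp (Subgroup.mem_subgroupOf.mp hs)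
      exact ⟨u, fun _ => hu⟩
    · exact ⟨fun _ => 0, fun h => absurd h hs⟩
  choose u hu using hu
  let y : V → (integralClosure ℤ ℂ) ⧸ 𝔐 := fun s =>
    if hs : s ∈ R.subgroupOf V then
      Lm τ₀ θ₀ (fun x => u s x) s * red 𝔐 ((χ ⟨s, hs⟩ : ℂˣ) : ℂ) else 0
  have hy : ∀ (s : V) (hs : s ∈ R.subgroupOf V),
      y s = Lm τ₀ θ₀ (fun x => u s x) s * red 𝔐 ((χ ⟨s, hs⟩ : ℂˣ) : ℂ) := fun s hs => by
    simp only [y, dif_pos hs]
  let g : V →* H := π.comp V.subtype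
  let P : Set (fpr p g → (integralClosure ℤ ℂ) ⧸ 𝔐) :=
    PY h g 𝔐 τ₀ θ₀ t (R.subgroupOf V) u y
  have hsurj : Function.Surjective (fsnd p g) := by
    intro v
    exact ⟨⟨(t v, v), ht v⟩, rfl⟩
  have hgk : g.ker ≤ Subgroup.center V := by
    intro v hv
    rw [Subgroup.mem_center_iff]
    intro w
    have h7 : (v : W) ∈ π.ker := hv
    have h8 := Subgroup.mem_center_iff.mp (hF.πc h7) (w : W)
    exact Subtype.ext h8
  -- the left side vanishes
  have hFF := h1 O (fpr p g) V 𝔐 ℓ (finj h g) (c.comp (ffst p g)) (fsnd p g) (clG_f h g) hsurj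
    (pCore_bot hV) Z m hmm a P
  rw [Finset.sum_eq_zero (fun V' _ => by
    rw [h2 O X H V 𝔐 ℓ h𝔐 hℓ j c p h hp n hn hcj hci Z hZ hZc g hgk hg a hZa P V', mul_zero])]
    at hFF
  -- the pairs
  have key : ∀ τ ∈ Ch ℓ Z, ∀ θ, Pr h 𝔐 ℓ a Z Λ τ θ →
      ((∑ V', m V' * ((Nat.card V' : ℚ) * NT 𝔐 ℓ a (jS (clG_f h g) τ)
        (pS (fsnd p g) (finj h g) τ) θ (YS (finj h g) τ).subtype P V') : ℚ) : ℂ) =
      (∑ x : V, ∑ y : V, if Subgroup.closure {x, y} = ⊤ then
        ((χ ⟨x * y * x⁻¹ * y⁻¹, Subgroup.mem_subgroupOf.mpr (hR x y)⟩ : ℂˣ) : ℂ)⁻¹ *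
          ((ν τ θ ⟨(x : W) * y * (x : W)⁻¹ * (y : W)⁻¹, hR x y⟩ : ℂˣ) : ℂ)⁻¹ else 0) /
        Nat.card (R.subgroupOf V) := by
    intro τ hτ θ hPr
    let lam : R.subgroupOf V →* ℂˣ := χ * (ν τ θ).comp (rho R V)
    have hlam : ∀ (v : V) (r r' : R.subgroupOf V), (r' : V) = v * r * v⁻¹ → lam r' = lam r := by
      intro v r r' hr
      change χ r' * ν τ θ (rho R V r') = χ r * ν τ θ (rho R V r)
      rw [hχ v r r' hr, hν.inv τ θ hPr (v : W) (rho R V r) (rho R V r')]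
      exact congrArg Subtype.val hr
    have hS : ∀ x y : V, x * y * x⁻¹ * y⁻¹ ∈ R.subgroupOf V := fun x y =>
      Subgroup.mem_subgroupOf.mpr (hR x y)
    have h7 := h5 V (R.subgroupOf V) hS lam hlam m hmm hmS
    have h8 : ∀ V' : Subgroup V, m V' * ((Nat.card V' : ℚ) * NT 𝔐 ℓ a (jS (clG_f h g) τ)
        (pS (fsnd p g) (finj h g) τ) θ (YS (finj h g) τ).subtype P V') =
        m V' * ((Nat.card V' : ℚ) * Nat.card {ζ : V' → ℂ // IsIrr ζ ∧
        ∀ (s : V) (hs : s ∈ R.subgroupOf V) (hs' : s ∈ V'),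
          ζ ⟨s, hs'⟩ = ζ 1 * ((lam ⟨s, hs⟩ : ℂˣ) : ℂ)}) := by
      intro V'
      by_cases h9 : m V' = 0
      · rw [h9, zero_mul, zero_mul]
      · have h10 := h4 O X H W 𝔐 ℓ h𝔐 hℓ j c p h hp a Z Λ π R μ Lm hF τ₀ θ₀ hP₀ ν hν V hV t ht u
          hu χ hχ y hy τ θ hPr V' (hmS V' h9)
        have h11 : NT 𝔐 ℓ a (jS (clG_f h g) τ)
          (pS (fsnd p g) (finj h g) τ) θ (YS (finj h g) τ).subtype P V' =
            Nat.card {ζ : V' → ℂ // IsIrr ζ ∧
              ∀ (s : V) (hs : s ∈ R.subgroupOf V) (hs' : s ∈ V'),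
              ζ ⟨s, hs'⟩ = ζ 1 * ((lam ⟨s, hs⟩ : ℂˣ) : ℂ)} := h10
        rw [h11]
    rw [Finset.sum_congr rfl (fun V' _ => h8 V')]
    push_cast
    rw [h7]
    congr 1
    refine Finset.sum_congr rfl fun x _ => Finset.sum_congr rfl fun y _ => ?_
    split_ifs
    · change (((χ _ * ν τ θ (rho R V _) : ℂˣ) : ℂ))⁻¹ = _
      rw [rho_apply, Units.val_mul, mul_inv]
      rfl
    · rfl
  -- only the fixed pairs contribute
  have hSn : (Nat.card (R.subgroupOf V) : ℂ) ≠ 0 := Nat.cast_ne_zero.mpr Nat.card_pos.ne'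
  have hFC := congrArg (fun q : ℚ => (q : ℂ) * Nat.card (R.subgroupOf V)) hFF
  simp only [Rat.cast_zero, zero_mul] at hFC
  refine Eq.trans ?_ hFC.symm
  rw [Rat.cast_sum, Finset.sum_mul]
  refine Finset.sum_congr rfl fun τ hτ => ?_
  rw [Rat.cast_mul, Rat.cast_sum, mul_assoc, Finset.sum_mul]
  push_cast
  congr 1
  symm
  rw [← Finset.sum_subset (s₁ := (irrF (stb τ)).filter fun θ => Pr h 𝔐 ℓ a Z Λ τ θ)]
  · refine Finset.sum_congr rfl fun θ hθ => ?_
    have hPr := (Finset.mem_filter.mp hθ).2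
    have h7 := key τ hτ θ hPr
    push_cast at h7
    rw [h7, mul_assoc, div_mul_cancel₀ _ hSn]
  · intro θ hθ
    have hθ' := Finset.mem_filter.mp hθ
    refine Finset.mem_filter.mpr ⟨hθ'.1, ?_⟩
    exact (h6 O X H W 𝔐 ℓ h𝔐 hℓ j c p h hp a Z Λ π R μ Lm hF τ₀ θ₀ hP₀ V hVR τ hτ θ hθ'.2.irr
      hθ'.2.df hθ'.2.cn).mpr hθ'.2
  · intro θ hθ hθn
    have hθ' := Finset.mem_filter.mp hθ
    have hirr : IsIrr θ := mem_irrF.mp hθ'.1
    have h7 : ∀ V' : Subgroup V, NT 𝔐 ℓ a (jS (clG_f h g) τ)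
        (pS (fsnd p g) (finj h g) τ) θ (YS (finj h g) τ).subtype P V' = 0 := by
      intro V'
      by_contra h8
      exact hθn (Finset.mem_filter.mpr ⟨hθ'.1, h3 O X H W 𝔐 ℓ h𝔐 hℓ j c p h hp a Z Λ π R μ Lm hF
        τ₀ θ₀ hP₀ V hVR hV t (R.subgroupOf V) u y τ hτ θ hirr hθ'.2 V' h8⟩)
    rw [Finset.sum_eq_zero (fun V' _ => by
      rw [h7 V']
      simp), mul_zero, zero_mul]

end Pool.Agent.DPN


end

section

/-!
# CONS: only the characters with the same defect as `θ` contribute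
-/

namespace Pool.Agent.DPN

open Pool.Agent.DP Pool.Agent.DPC Pool.Agent.DPM Pool.Agent.Lib_helper13 Representation
open Pool.Agent.Lib_helper13.Dade (pCore DadeHolds dadeSum)

open Pool.Agent.DPM.TOP in
/-- Characters of small defect do not lie over `θ`. -/
theorem CONS.small {A T H X : Type} [Group A] [Fintype A] [Group T] [Fintype T] [Group H]
    [Fintype H] [Group X] [Fintype X] (𝔐 : Ideal (integralClosure ℤ ℂ)) (ℓ : ℕ) [Fact ℓ.Prime]
    {j : A →* T} {c : T →* MulAut A} {p : T →* H} (hcl : ClG j c p) {θ : A → ℂ} (hθ : IsIrr θ)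
    {a d : ℕ} (ha : HasDefect ℓ θ a) (hd : d < a) (i : T →* X)
    (P : Set (X → (integralClosure ℤ ℂ) ⧸ 𝔐)) (V : Subgroup H) : NT 𝔐 ℓ d j p θ i P V = 0 := by
  have hemp : IsEmpty {ψ : ↥(V.comap p) → ℂ // IsIrr ψ ∧
      ip (fun a : A => ext0 ψ (j a)) θ ≠ 0 ∧ HasDefect ℓ ψ d ∧
      cen 𝔐 (i.comp (V.comap p).subtype) ψ ∈ P} := by
    constructor
    rintro ⟨ψ, hψ, hip, hdef, _⟩
    have hip' : ip (resj (jV hcl V) ψ) θ ≠ 0 := by
      have e : (fun a : A => ext0 ψ (j a)) = resj (jV hcl V) ψ := by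
        funext a
        rw [ext0_of_mem ψ (show j a ∈ V.comap p from (jV hcl V a).2)]
        rfl
      rwa [e] at hip
    have := DEFA_thm TWC_thm TWN_thm A ↥(V.comap p) V ℓ (jV hcl V)
      (c.comp (V.comap p).subtype) (pV p V) (clg hcl V) ψ θ hψ hθ hip' d a hdef ha
    omega
  unfold NT
  rw [@Nat.card_of_isEmpty _ hemp, Nat.cast_zero]

/-- CONS: only the characters with the same defect as `θ` contribute. -/
theorem CONS_thm (h1 : Stmt_TDM) : Stmt_CONS := by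
  classical
  intro A T H X _ _ _ _ _ _ _ _ 𝔐 ℓ _ hmax hℓ j c p hcl hp hcore hHQ θ hθ hinv a d ha hda i ω m hm
  rcases lt_or_gt_of_ne hda with hd | hd
  · refine Finset.sum_eq_zero fun V _ => ?_
    rw [CONS.small 𝔐 ℓ hcl hθ ha hd i {ω} V, mul_zero, mul_zero]
  · obtain ⟨Γ, L, _, _, _, _, e, q, r, E, U, μ, π, htw⟩ := TWC_thm A T H j c p hcl hp θ hθ hinv
    obtain ⟨F, hF1, hF2, hF3⟩ :=
      TWF_thm A T H Γ L X j c p hcl hp θ hθ hinv e q r E U μ π htw i
    have htdm := h1 L H 𝔐 ℓ hmax hℓ π htw.πs hcore hHQ U μ htw.Uc htw.πk htw.cyc htw.inj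
      (d - a + padicValNat ℓ (Nat.card U)) (by omega) m hm {c | ∀ g, pair 𝔐 (F g) c = ω g}
    rw [← htdm]
    refine Finset.sum_congr rfl fun V _ => ?_
    obtain ⟨_, _, _, _, _, _, hdef, hcnt⟩ :=
      TWN_thm A T H Γ L ℓ j c p hcl hp θ hθ hinv e q r E U μ π htw V
    have key : Nat.card {ψ : ↥(V.comap p) → ℂ // IsIrr ψ ∧
          ip (fun a : A => ext0 ψ (j a)) θ ≠ 0 ∧ (HasDefect ℓ ψ d ∧
          cen 𝔐 (i.comp (V.comap p).subtype) ψ ∈ ({ω} : Set _))} =
        Nat.card {η : ↥(V.comap π) → ℂ // IsIrr η ∧ OvL U μ _ η ∧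
          (HasDefect ℓ η (d - a + padicValNat ℓ (Nat.card U)) ∧
          cen 𝔐 (V.comap π).subtype η ∈ {c | ∀ g, pair 𝔐 (F g) c = ω g})} := by
      apply hcnt (fun ψ => HasDefect ℓ ψ d ∧
          cen 𝔐 (i.comp (V.comap p).subtype) ψ ∈ ({ω} : Set _))
        (fun η => HasDefect ℓ η (d - a + padicValNat ℓ (Nat.card U)) ∧
          cen 𝔐 (V.comap π).subtype η ∈ {c | ∀ g, pair 𝔐 (F g) c = ω g})
      intro ψ η hψ hip hη hov hcor
      obtain ⟨d1, hd1⟩ := hψ.exists_defect (ℓ := ℓ)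
      obtain ⟨d2, hd2⟩ := hη.exists_defect (ℓ := ℓ)
      have h2 := hdef ψ η a d1 d2 hη hcor ha hd1 hd2
      have h3 : ∀ g, cen 𝔐 (i.comp (V.comap p).subtype) ψ g =
          pair 𝔐 (F g) (cen 𝔐 (V.comap π).subtype η) := by
        intro g
        have h4 := hF3 V ψ η hψ hη hov hcor g
        have h5 := red_wt_eq_pair 𝔐 (V.comap π).subtype hη (F g) (hF1 g) (hF2 g)
        rw [← h5]
        unfold cen
        exact congrArg (red 𝔐) h4
      refine and_congr ?_ ?_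
      · constructor
        · intro h6
          have h7 : d1 = d := hd1.unique h6
          have h8 : d - a + padicValNat ℓ (Nat.card U) = d2 := by omega
          rw [h8]
          exact hd2
        · intro h6
          have h7 : d2 = d - a + padicValNat ℓ (Nat.card U) := hd2.unique h6
          have h8 : d = d1 := by omega
          rw [h8]
          exact hd1
      · rw [Set.mem_singleton_iff, Set.mem_ofPred_eq]
        constructor
        · intro h6 g
          rw [← h3 g, h6]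
        · intro h6
          funext g
          rw [h3 g, h6 g]
    congr 2
    exact congrArg (Nat.cast (R := ℚ)) key

end Pool.Agent.DPN


end

section

/-!
# RDX: existence of reduced data
-/

namespace Pool.Agent.DPN

open Pool.Agent.DP Pool.Agent.DPC Pool.Agent.DPM Pool.Agent.Lib_helper13 Representation
open Pool.Agent.Lib_helper13.Dade (pCore DadeHolds dadeSum)

namespace RDX

theorem AIv_conv {A T : Type} [Group A] [Group T] [Fintype T] {j : A →* T} {u v : T → ℤ}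
    (hu : AIv j u) (hv : AIv j v) : AIv j (conv u v) := by
  intro a x
  unfold conv
  rw [← Equiv.sum_comp (MulAut.conj (j a)).toEquiv
    (fun y => u y * v (y⁻¹ * (j a * x * (j a)⁻¹)))]
  refine Finset.sum_congr rfl fun y _ => ?_
  have h1 : (MulAut.conj (j a)).toEquiv y = j a * y * (j a)⁻¹ := rfl
  rw [h1, hu a y]
  have h2 : (j a * y * (j a)⁻¹)⁻¹ * (j a * x * (j a)⁻¹) = j a * (y⁻¹ * x) * (j a)⁻¹ := by
    group
  rw [h2, hv a]

theorem AIv_conj {A T H : Type} [Group A] [Group T] [Group H] {j : A →* T} {c : T →* MulAut A}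
    {p : T →* H} (h : ClG j c p) {u : T → ℤ} (hu : AIv j u) (t : T) :
    AIv j (fun x => u (t⁻¹ * x * t)) := by
  intro a x
  change u (t⁻¹ * (j a * x * (j a)⁻¹) * t) = u (t⁻¹ * x * t)
  have h1 : t⁻¹ * (j a * x * (j a)⁻¹) * t =
      j (c t⁻¹ a) * (t⁻¹ * x * t) * (j (c t⁻¹ a))⁻¹ := by
    rw [h.act]
    group
  rw [h1, hu]

end RDX

open _root_.Pool.Agent.DPN.RDX in
theorem RDX_thm (h1 : Stmt_RDA) (h2 : Stmt_RDQ) (h3 : Stmt_RDB) (h4 : Stmt_RDE)
    (h5 : Stmt_TDM) : Stmt_RDX := by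
  intro A T H _ _ _ _ _ _ 𝔐 ℓ _ hM hℓ j c p hc hp hO hH θ hθ hinv a ha
  obtain ⟨Γ, L, _, _, _, _, e, q, r, E, U, μ, π, tw⟩ := TWC_thm A T H j c p hc hp θ hθ hinv
  obtain ⟨L', _, _, κ, π', μ', qd⟩ := h2 L H 𝔐 ℓ hM hℓ U μ π tw.Uc tw.πk tw.cyc tw.inj
  obtain ⟨Aadd, Acgr, Amul, Aeqv, Aone, Actr⟩ :=
    h1 A T H Γ L 𝔐 ℓ hM hℓ j c p hc hp θ hθ hinv e q r E U μ π tw
  have hπ's : Function.Surjective π' := by
    intro x
    obtain ⟨l, hl⟩ := tw.πs x
    exact ⟨κ l, by rw [qd.ππ, hl]⟩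
  let s : L' → L := Function.surjInv qd.κs
  have hs : ∀ l', κ (s l') = l' := Function.surjInv_eq qd.κs
  let Lm : (T → ℤ) → L' → (integralClosure ℤ ℂ) ⧸ 𝔐 := fun u l' => LmL 𝔐 θ q r E u (s l')
  have hred1 : red 𝔐 (1 : ℂ) = 1 := by
    rw [red_of_integral 𝔐 isIntegral_one]
    exact map_one _
  have hLm : ∀ u, AIv j u → ∀ l, Lm u (κ l) = LmL 𝔐 θ q r E u l := by
    intro u hu l
    have hz : s (κ l) * l⁻¹ ∈ κ.ker := by
      rw [MonoidHom.mem_ker, map_mul, map_inv, hs, mul_inv_cancel]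
    have hzU := qd.κU hz
    have h6 := Actr u hu ⟨s (κ l) * l⁻¹, hzU⟩ l
    have h7 : κ (s (κ l) * l⁻¹) = 1 := hz
    have h8 : κ (s (κ l) * l⁻¹) ∈ π'.ker := by
      rw [h7]
      exact Subgroup.one_mem _
    have h9 := qd.μμ (s (κ l) * l⁻¹) hzU h8
    have h10 : μ' ⟨κ (s (κ l) * l⁻¹), h8⟩ = 1 := by
      have h11 : (⟨κ (s (κ l) * l⁻¹), h8⟩ : π'.ker) = 1 := Subtype.ext h7
      rw [h11, map_one]
    rw [h10, Units.val_one, hred1] at h9
    rw [← h9, one_mul] at h6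
    have h12 : ((⟨s (κ l) * l⁻¹, hzU⟩ : U) : L) * l = s (κ l) := inv_mul_cancel_right _ _
    rw [h12] at h6
    exact h6
  have hp' : ∀ l', π' l' = π (s l') := by
    intro l'
    rw [← qd.ππ, hs]
  refine ⟨L', inferInstance, inferInstance, π', μ', Lm, hπ's, qd.cc, qd.nl, ?_⟩
  refine
    { add := ?_, cgr := ?_, mul := ?_, eqv := ?_, one := ?_, ctr := ?_, num := ?_, van := ?_,
      ext := ?_ }
  · intro u v hu hv w
    exact Aadd u v hu hv (s w)
  · intro u v hu hv w h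
    refine Acgr u v hu hv (s w) fun t ht => h t ?_
    rw [hp', ht]
  · intro u v hu hv w w' h h'
    have h6 : w * w' = κ (s w * s w') := by rw [map_mul, hs, hs]
    rw [h6, hLm _ (AIv_conv hu hv)]
    exact Amul u v hu hv (s w) (s w') (fun t ht => h t (by rw [hp']; exact ht))
      (fun t ht => h' t (by rw [hp']; exact ht))
  · intro u hu t w' ht w
    have h6 : w' * w * w'⁻¹ = κ (s w' * s w * (s w')⁻¹) := by
      rw [map_mul, map_mul, map_inv, hs, hs]
    rw [h6, hLm _ (AIv_conj hc hu t)]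
    exact Aeqv u hu t (s w') (by rw [ht, hp']) (s w)
  · intro u hu
    have h6 : (1 : L') = κ 1 := (map_one κ).symm
    rw [h6, hLm u hu, Aone u hu]
  · intro u hu z w
    obtain ⟨l, hl⟩ := qd.κs (z : L')
    have hlU : l ∈ U := by
      rw [← tw.πk, ← qd.ππ, hl]
      exact z.2
    have h8 : κ l ∈ π'.ker := by
      rw [hl]
      exact z.2
    have h9 := qd.μμ l hlU h8
    have h10 : (⟨κ l, h8⟩ : π'.ker) = z := Subtype.ext hl
    rw [h10] at h9
    rw [h9]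
    have h11 : (z : L') * w = κ (l * s w) := by rw [map_mul, hl, hs]
    rw [h11, hLm u hu]
    exact Actr u hu ⟨l, hlU⟩ (s w)
  · intro X _ _ i ω V
    exact h3 A T H Γ L L' X 𝔐 ℓ hM hℓ j c p hc hp θ hθ hinv a ha e q r E U μ π tw κ π' μ' qd Lm
      hLm i ω V
  · intro m hm e' he' Q
    refine h5 L' H 𝔐 ℓ hM hℓ π' hπ's hO hH π'.ker μ' qd.cc (fun l => Iff.rfl) qd.cyc qd.inj e' ?_
      m hm Q
    rw [padicValNat.eq_zero_of_not_dvd qd.nl]
    exact he'
  · intro B V _ _ _ _ hV f α β hfβ hex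
    exact h4 A T H Γ L L' B V 𝔐 ℓ hM hℓ j c p hc hp θ hθ hinv e q r E U μ π tw κ π' μ' qd Lm
      hLm hV f α β hfβ hex

end Pool.Agent.DPN


end

section

/-!
# BEQ: the fixed pairs belong to a stable block of the normal subgroup
-/

namespace Pool.Agent.DPN

open Pool.Agent.DP Pool.Agent.DPC Pool.Agent.DPM Pool.Agent.Lib_helper13 Representation
open Pool.Agent.Lib_helper13.Dade (pCore DadeHolds dadeSum)

namespace BEQ

open Pool.Agent.DPW.FXF (exF exF_j exF_zero exF_class exF_int cen_twist)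

variable {O X H : Type} [Group O] [Fintype O] [Group X] [Fintype X] [Group H]
  {j : O →* X} {c : X →* MulAut O} {p : X →* H}

theorem act_j (h : ClG j c p) (b o : O) : c (j b) o = b * o * b⁻¹ := by
  apply h.inj
  rw [h.act, map_mul, map_mul, map_inv]

theorem cen_act (𝔐 : Ideal (integralClosure ℤ ℂ)) (h : ClG j c p) {τ : Finset (Subgroup O)}
    {θ : stb τ → ℂ} (t : YS j τ) (ht : ∀ a, θ (cS h τ t a) = θ a) (o : O) :
    cen 𝔐 (stb τ).subtype θ (c (t : X) o) = cen 𝔐 (stb τ).subtype θ o := by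
  rw [cen, cen, ← wt_comp_equiv (cS h τ t) θ (fun y => conjInd ((stb τ).subtype y) (c (t : X) o))]
  congr 2
  · funext a
    exact ht a
  · funext a
    apply conjInd_congr
    change IsConj (c (t : X) (a : O)) (c (t : X) o) ↔ IsConj (a : O) o
    rw [isConj_iff, isConj_iff]
    constructor
    · rintro ⟨u, hu⟩
      refine ⟨(c (t : X)).symm u, (c (t : X)).injective ?_⟩
      rw [map_mul, map_mul, map_inv, MulEquiv.apply_symm_apply, hu]
    · rintro ⟨u, hu⟩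
      exact ⟨c (t : X) u, by rw [← hu, map_mul, map_mul, map_inv]⟩

theorem cen_stable (𝔐 : Ideal (integralClosure ℤ ℂ)) (h : ClG j c p) {τ : Finset (Subgroup O)}
    {θ : stb τ → ℂ} (hfp : FP h τ θ) (x : X) (o : O) :
    cen 𝔐 (stb τ).subtype θ (c x o) = cen 𝔐 (stb τ).subtype θ o := by
  obtain ⟨t, ht⟩ := hfp.1 (p x)
  have ht' : p (t : X) = p x := ht
  have h1 : p ((t : X)⁻¹ * x) = 1 := by
    rw [map_mul, map_inv, ht', inv_mul_cancel]
  obtain ⟨b, hb⟩ := (h.ker _).mp h1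
  have hx : x = (t : X) * j b := by rw [hb, mul_inv_cancel_left]
  rw [hx, map_mul, MulAut.mul_apply, cen_act 𝔐 h t (hfp.2 t), act_j h]
  exact cen_isConj 𝔐 _ θ (isConj_iff.mpr ⟨b⁻¹, by group⟩)

theorem inv_class (h : ClG j c p) {a : O → ℂ} (ha : ∀ y x, a (c y x) = a x) (g x : O) :
    a (g * x * g⁻¹) = a x := by
  rw [← act_j h, ha]

theorem red_wt (𝔐 : Ideal (integralClosure ℤ ℂ)) (h : ClG j c p) {τ : Finset (Subgroup O)}
    {θ : stb τ → ℂ} (hθ : IsIrr θ) {ξ : O → ℂ} (hξ : IsIrr ξ)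
    (hc : cen 𝔐 (MonoidHom.id O) ξ = cen 𝔐 (stb τ).subtype θ) {a : O → ℂ}
    (ha : ∀ y x, a (c y x) = a x) (hai : ∀ x, IsIntegral ℤ (a x)) :
    red 𝔐 (wt ξ a) = pair 𝔐 (exF j a) (cen 𝔐 (j.comp (stb τ).subtype) θ) := by
  have e1 := red_wt_eq_pair 𝔐 (MonoidHom.id O) hξ a (inv_class h ha) hai
  have e2 := red_wt_eq_pair 𝔐 (stb τ).subtype hθ a (inv_class h ha) hai
  have e3 := red_wt_eq_pair 𝔐 (j.comp (stb τ).subtype) hθ (exF j a) (exF_class h ha)
    (exF_int hai)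
  have e4 : (fun y : stb τ => exF j a ((j.comp (stb τ).subtype) y)) =
      fun y : stb τ => a ((stb τ).subtype y) := by
    funext y
    exact exF_j h.inj a (y : O)
  rw [e4] at e3
  rw [hc] at e1
  exact (e1.trans e2.symm).trans e3

end BEQ

open Pool.Agent.DPW.FXF (exF exF_zero cen_twist) in
/-- BEQ. -/
theorem BEQ_thm : Stmt_BEQ := by
  intro O X H _ _ _ _ _ 𝔐 ℓ _ hmax hℓ j c p h Z τ hτ θ hθ
  have hprime : 𝔐.IsPrime := hmax.isPrime
  refine ⟨fun hfp x o => BEQ.cen_stable 𝔐 h hfp x o, ?_⟩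
  intro τ' hτ' θ' hθ' hst heq
  obtain ⟨ξ, hξ, hξc⟩ := exists_irr_of_mult 𝔐 hθ (exists_irr_of_chain 𝔐 hℓ (mem_Ch.mp hτ) hθ)
  obtain ⟨ξ', hξ', hξc'⟩ :=
    exists_irr_of_mult 𝔐 hθ' (exists_irr_of_chain 𝔐 hℓ (mem_Ch.mp hτ') hθ')
  obtain ⟨y, hy⟩ := Pool.Agent.DPW.COVW_thm O X H 𝔐 ℓ hmax hℓ j c p h ξ ξ' hξ hξ' (by
    intro a ha hai
    rw [BEQ.red_wt 𝔐 h hθ hξ hξc ha hai, BEQ.red_wt 𝔐 h hθ' hξ' hξc' ha hai, pair, pair]
    apply finsum_congr
    intro C
    by_cases hC : C.out ∈ j.range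
    · obtain ⟨o, ho⟩ := hC
      rw [← ho, heq]
    · rw [exF_zero a hC, red_zero, zero_mul, zero_mul])
  funext o
  have h1 := congrFun hy o
  rw [cen_twist, hξc, hξc', hst] at h1
  exact h1.symm

end Pool.Agent.DPN


end

section

/-!
# DKV: the chain sums vanish for the groups for which Dade's conjecture is known
-/

set_option autoImplicit false

namespace Pool.Agent.DPN

open Pool.Agent.DP Pool.Agent.DPC Pool.Agent.DPM Pool.Agent.Lib_helper13 Representation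
open Pool.Agent.Lib_helper13.Dade (pCore DadeHolds dadeSum)

theorem DKV_thm (h1 : Stmt_MIXP) : Stmt_DKV := by
  intro Y X _ _ _ _ 𝔐 ℓ hp hmax hℓ n hHQ hn Z hZc hZp d hd i P
  obtain ⟨F, hF⟩ := h1 Y X 𝔐 ℓ d Z i P
  rw [hF]
  refine Finset.sum_eq_zero fun ω _ => ?_
  by_contra hK
  have hZn : Z.Normal := by
    refine ⟨fun x hx g => ?_⟩
    have h2 := Subgroup.mem_center_iff.1 (hZc hx) g
    rw [h2, mul_inv_cancel_right]
    exact hx
  have hle : Z ≤ pCore ℓ Y := Pool.Agent.DPM.FINA.le_pCore ℓ Z hZn hZp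
  have hnorm : (pCore ℓ Y).Normal := pCore_normal ℓ
  have hpp : IsPGroup ℓ (pCore ℓ Y) := isPGroup_pCore ℓ
  by_cases hne : Z = pCore ℓ Y
  · have hc : pCore ℓ Y ≤ Subgroup.center Y := by
      rw [← hne]
      exact hZc
    rw [hne] at hK hd
    obtain ⟨h2, -⟩ := all_DZC Y 𝔐 ℓ hmax hℓ hc (hHQ Y hc hn) d ω hK
    obtain ⟨k, hk⟩ := hpp.exists_card_eq
    rw [hk, padicValNat.prime_pow] at hd
    rw [hk] at h2
    exact absurd h2 (not_le.2 ((Nat.pow_lt_pow_iff_right hp.out.one_lt).2 hd))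
  · exact hK (KK_eq_zero 𝔐 d hpp (lt_of_le_of_ne hle hne) ω)

end Pool.Agent.DPN


end

section

/-!
# TYI: groups with a normal `ℓ`-subgroup
-/

namespace Pool.Agent.DPT

open Pool.Agent.DP Pool.Agent.DPC Pool.Agent.DPM Pool.Agent.DPN Pool.Agent.Lib_helper13
open Representation

namespace TYI

/-- A constituent of the restriction. -/
theorem exists_under {Y : Type} [Group Y] [Fintype Y] {S T : Subgroup Y} (h : T ≤ S) {ψ : Y → ℂ}
    (hψ : IrrOn S ψ) : ∃ χ' : Y → ℂ, IrrOn T χ' ∧ iS T ψ χ' ≠ 0 := by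
  classical
  have hcl : ∀ g x : T, resj (Subgroup.inclusion h) (fun s : S => ψ s) (g * x * g⁻¹) =
      resj (Subgroup.inclusion h) (fun s : S => ψ s) x := fun g x => resj_class hψ.1 g x
  have hexp := congrFun (class_fn_expand _ hcl) 1
  have h1 : resj (Subgroup.inclusion h) (fun s : S => ψ s) 1 ≠ 0 := by
    have h2 : resj (Subgroup.inclusion h) (fun s : S => ψ s) 1 = (fun s : S => ψ s) 1 := by
      rw [resj, map_one]
    rw [h2]
    exact hψ.1.one_ne_zero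
  have h3 : ∃ χ ∈ irrF T, ip (resj (Subgroup.inclusion h) (fun s : S => ψ s)) χ ≠ 0 := by
    by_contra hno
    push Not at hno
    apply h1
    rw [hexp]
    refine Finset.sum_eq_zero fun χ hχ => ?_
    rw [hno χ hχ, zero_mul]
  obtain ⟨χ, hχ, hne⟩ := h3
  have hr : (fun n : T => ext0 χ (n : Y)) = χ := by
    funext n
    exact ext0_of_mem χ n.2
  refine ⟨ext0 χ, ⟨?_, ?_⟩, ?_⟩
  · rw [hr]
    exact mem_irrF.mp hχ
  · intro x hx
    exact ext0_of_not_mem χ hx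
  · rw [iS, hr]
    exact hne

/-- A natural number prime to `ℓ` does not vanish modulo `𝔐`. -/
theorem red_nat_ne {𝔐 : Ideal (integralClosure ℤ ℂ)} [h𝔐 : 𝔐.IsPrime] {ℓ : ℕ} [Fact ℓ.Prime]
    (hℓ : (ℓ : integralClosure ℤ ℂ) ∈ 𝔐) {m : ℕ} (hm : ¬ ℓ ∣ m) : red 𝔐 (m : ℂ) ≠ 0 := by
  have hchar := quot_char 𝔐 hℓ
  have h1 := red_natCast_mul 𝔐 m isIntegral_one
  rw [mul_one, red_one, nsmul_one] at h1
  rw [h1]
  intro h2
  exact hm ((CharP.cast_eq_zero_iff _ ℓ m).mp h2)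

end TYI

open _root_.Pool.Agent.DPT.TYI in
theorem TYI_thm (h1 : Stmt_TY0) : Stmt_TYI := by
  intro Y G _ _ _ _ 𝔐 ℓ _ hmax hℓ k hk lam M₀ hM₀ hM₀k θ₀ hθ₀ S D hD hDne hDle hDn ψ hψ hov hty
  have hprime : 𝔐.IsPrime := hmax.isPrime
  obtain ⟨χ', hχ', hne⟩ := exists_under (Subgroup.comap_mono (f := k) (inf_le_left : S ⊓ M₀ ≤ S)) hψ
  obtain ⟨θ', hθ', -, -⟩ := h1 Y G 𝔐 ℓ hmax hℓ k hk lam M₀ hM₀ hM₀k θ₀ hθ₀ S ψ hψ hov hty χ' hχ' hne
  obtain ⟨⟨hirr, -⟩, n, hn, hv⟩ := hθ'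
  have hQn : (D.subgroupOf (S ⊓ M₀)).Normal := by
    refine ⟨fun x hx g => ?_⟩
    rw [Subgroup.mem_subgroupOf] at hx ⊢
    exact hDn g g.2.1 x hx
  have hQ : IsPGroup ℓ (D.subgroupOf (S ⊓ M₀)) :=
    hD.comap_of_injective (S ⊓ M₀).subtype (Subgroup.subtype_injective _)
  have hQne : D.subgroupOf (S ⊓ M₀) ≠ ⊥ := by
    intro h2
    rw [Subgroup.subgroupOf_eq_bot] at h2
    exact hDne (le_bot_iff.mp (h2 le_rfl hDle))
  have h3 := no_defect_zero 𝔐 hℓ (D.subgroupOf (S ⊓ M₀)) hQ hQne hirr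
  obtain ⟨m, hm⟩ := hirr.degree_dvd hn
  have hn' : θ' ((1 : ↥(S ⊓ M₀)) : G) = n := hn
  have hn0 : n ≠ 0 := by
    rintro rfl
    apply hirr.one_ne_zero
    change θ' ((1 : ↥(S ⊓ M₀)) : G) = 0
    rw [hn', Nat.cast_zero]
  have hm0 : m ≠ 0 := by
    rintro rfl
    rw [mul_zero] at hm
    exact Nat.card_pos.ne' hm
  rw [hn', hm, Nat.cast_mul, mul_comm, mul_div_assoc, div_self (Nat.cast_ne_zero.mpr hn0),
    mul_one] at h3
  refine red_nat_ne hℓ ?_ h3
  intro hdvd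
  rw [hm, padicValNat.mul hn0 hm0, zero_add] at hv
  have h4 : padicValNat ℓ m = 0 := by omega
  rw [padicValNat.eq_zero_iff] at h4
  rcases h4 with h4 | h4 | h4
  · exact (Fact.out : ℓ.Prime).one_lt.ne' h4
  · exact hm0 h4
  · exact h4 hdvd

end Pool.Agent.DPT


end

section

/-!
# Module DGI: the defects of characters of a normal subgroup of index prime to `ℓ`
-/

namespace Pool.Agent.DPF.DGI

open Pool.Agent.DP Pool.Agent.DPM Pool.Agent.Lib_helper13 Representation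

section

variable {A Y K : Type} [Group A] [Fintype A] [Group Y] [Fintype Y] [Group K]
  {j : A →* Y} {c : Y →* MulAut A} {p : Y →* K}

/-- The degree of a character is a multiple of the degree of a constituent of the restriction. -/
theorem degree_mul (hc : ClG j c p) {η : Y → ℂ} {κ : A → ℂ} (hη : IsIrr η) (hκ : IsIrr κ)
    (h0 : ip (resj j η) κ ≠ 0) : ∃ m : ℕ, η 1 = m * κ 1 := by
  classical
  have h1 := congrFun (class_fn_expand (resj j η) (resj_class hη)) 1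
  have h2 : resj j η 1 = η 1 := by
    rw [resj, map_one]
  rw [h2] at h1
  have h3 : ∀ θ ∈ irrF A, ip (resj j η) θ * θ 1 = ip (resj j η) θ * κ 1 := by
    intro θ hθ
    by_cases h : ip (resj j η) θ = 0
    · rw [h, zero_mul, zero_mul]
    · obtain ⟨y, hy⟩ := (SUMM_thm A Y K j c p hc).2.1 κ θ η hκ (mem_irrF.mp hθ) hη h0 h
      have h4 := hy 1
      rw [map_one] at h4
      rw [h4]
  rw [Finset.sum_congr rfl h3, ← Finset.sum_mul] at h1
  have h4 : ∀ θ ∈ irrF A, ∃ m : ℕ, ip (resj j η) θ = m := fun θ hθ =>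
    (hη.resj j).exists_ip (mem_irrF.mp hθ).isChr
  choose! m hm using h4
  refine ⟨∑ θ ∈ irrF A, m θ, ?_⟩
  rw [h1, Finset.sum_congr rfl hm, Nat.cast_sum]

end

theorem clG_normal {G : Type} [Group G] (N : Subgroup G) [N.Normal] :
    ClG N.subtype (MulAut.conjNormal : G →* MulAut N) (QuotientGroup.mk' N) where
  inj := N.subtype_injective
  act := fun y a => MulAut.conjNormal_apply y a
  ker := fun y => by
    rw [Subgroup.range_subtype, QuotientGroup.mk'_apply, QuotientGroup.eq_one_iff]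

end Pool.Agent.DPF.DGI

namespace Pool.Agent.DPF

open Pool.Agent.DP Pool.Agent.DPM Pool.Agent.Lib_helper13 Representation

theorem DGI_thm : Stmt_DGI := by
  intro G _ _ ℓ _ N _ hN η κ hη hκ h0
  have hc := DGI.clG_normal N
  have hidx : N.index ≠ 0 := Subgroup.index_ne_zero_of_finite
  have hcard : padicValNat ℓ (Nat.card G) = padicValNat ℓ (Nat.card N) := by
    rw [← Subgroup.card_mul_index N, padicValNat.mul Nat.card_pos.ne' hidx,
      padicValNat.eq_zero_of_not_dvd hN, add_zero]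
  have key : ∀ d a : ℕ, HasDefect ℓ η d → HasDefect ℓ κ a → d = a := by
    intro d a hd ha
    have h1 : a ≤ d := all_DEFA N G (G ⧸ N) ℓ N.subtype _ _ hc η κ hη hκ h0 d a hd ha
    obtain ⟨m, hm⟩ := DGI.degree_mul hc hη hκ h0
    obtain ⟨n, hn, hn'⟩ := hd
    obtain ⟨k, hk, hk'⟩ := ha
    have hn0 : n ≠ 0 := by
      rintro rfl
      exact hη.one_ne_zero (by rw [hn]; simp)
    have h2 : n = m * k := by
      have : (n : ℂ) = m * k := by rw [← hn, hm, hk]
      exact_mod_cast this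
    have hm0 : m ≠ 0 := by
      rintro rfl
      exact hn0 (by rw [h2, zero_mul])
    have hk0 : k ≠ 0 := by
      rintro rfl
      exact hn0 (by rw [h2, mul_zero])
    have h3 : padicValNat ℓ n = padicValNat ℓ m + padicValNat ℓ k := by
      rw [h2, padicValNat.mul hm0 hk0]
    omega
  obtain ⟨d, hd⟩ := hη.exists_defect (ℓ := ℓ)
  obtain ⟨a, ha⟩ := hκ.exists_defect (ℓ := ℓ)
  have hda := key d a hd ha
  intro e
  constructor
  · intro h
    have : e = a := key e a h ha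
    rw [this]
    exact ha
  · intro h
    have : d = e := key d e hd h
    rw [← this]
    exact hd

end Pool.Agent.DPF


end

section

/-!
# DKVr: the chain sums vanish for the groups of a class for which Dade's conjecture is known
-/

set_option autoImplicit false
set_option linter.unusedVariables false

namespace Pool.Agent.DPK

open Pool.Agent.DP Pool.Agent.DPC Pool.Agent.DPM Pool.Agent.DPN Pool.Agent.DPT Pool.Agent.DPF
open Pool.Agent.Lib_helper13
open Representation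
open Pool.Agent.Lib_helper13.Dade (pCore DadeHolds dadeSum)

theorem DKVr_thm (Cl : ∀ (Y : Type) [Group Y], Prop) (hC : GC Cl) (h1 : Stmt_MIXP) :
    Stmt_DKVr Cl := by
  intro Y X _ _ _ _ 𝔐 ℓ hp hmax hℓ n hCl hHR hn Z hZc hZp d hd i P
  obtain ⟨F, hF⟩ := h1 Y X 𝔐 ℓ d Z i P
  rw [hF]
  refine Finset.sum_eq_zero fun ω _ => ?_
  by_contra hK
  have hZn : Z.Normal := by
    refine ⟨fun x hx g => ?_⟩
    have h2 := Subgroup.mem_center_iff.1 (hZc hx) g
    rw [h2, mul_inv_cancel_right]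
    exact hx
  have hle : Z ≤ pCore ℓ Y := Pool.Agent.DPM.FINA.le_pCore ℓ Z hZn hZp
  have hnorm : (pCore ℓ Y).Normal := pCore_normal ℓ
  have hpp : IsPGroup ℓ (pCore ℓ Y) := isPGroup_pCore ℓ
  by_cases hne : Z = pCore ℓ Y
  · have hc : pCore ℓ Y ≤ Subgroup.center Y := by
      rw [← hne]
      exact hZc
    rw [hne] at hK hd
    obtain ⟨h2, -⟩ := all_DZC Y 𝔐 ℓ hmax hℓ hc (hHR Y hCl hc hn) d ω hK
    obtain ⟨k, hk⟩ := hpp.exists_card_eq
    rw [hk, padicValNat.prime_pow] at hd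
    rw [hk] at h2
    exact absurd h2 (not_le.2 ((Nat.pow_lt_pow_iff_right hp.out.one_lt).2 hd))
  · exact hK (KK_eq_zero 𝔐 d hpp (lt_of_le_of_ne hle hne) ω)

end Pool.Agent.DPK


end

section

/-!
# YFF for the groups of a class: the relations for the linear characters of the pairs
-/

namespace Pool.Agent.DPK

open Pool.Agent.DP Pool.Agent.DPC Pool.Agent.DPM Pool.Agent.DPN Pool.Agent.Lib_helper13
open Representation
open Pool.Agent.Lib_helper13.Dade (pCore DadeHolds dadeSum)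

open YFF in
theorem YFFr_thm (Cl : ∀ (Y : Type) [Group Y], Prop) (_hC : GC Cl) (h1 : Stmt_FF)
    (h2 : Stmt_YFRr Cl)
    (h3 : Stmt_YCA) (h4 : Stmt_YCB) (h5 : Stmt_YCC) (h6 : Stmt_YPR) : Stmt_YFFr Cl := by
  classical
  intro O X H W _ _ _ _ _ _ _ _ 𝔐 ℓ _ h𝔐 hℓ j c p h hp n hCl hn hcj hci a Z hZ hZc hZa Λ π R μ Lm hF
    τ₀ θ₀ hP₀ ν hν hR V hVR hV hm hg χ hχ
  have := hF.Rn
  -- the Moebius function of `V`
  obtain ⟨⟨m, hmm⟩, -⟩ := MOBX_thm V
  have hmS := hm m hmm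
  -- the choices
  have hpick : ∀ s : V, ∃ x : X, p x = π s := fun s => hp _
  choose t ht using hpick
  have hu : ∀ s : V, ∃ u : X → ℤ, s ∈ R.subgroupOf V →
      (AIv j u ∧ (∀ x, p x ≠ π s → u x = 0) ∧ Lm τ₀ θ₀ (fun x => u x) s ≠ 0) := by
    intro s
    by_cases hs : s ∈ R.subgroupOf V
    · obtain ⟨u, hu⟩ := (hF.mem τ₀ θ₀ hP₀ (s : W)).mp (Subgroup.mem_subgroupOf.mp hs)
      exact ⟨u, fun _ => hu⟩
    · exact ⟨fun _ => 0, fun h => absurd h hs⟩
  choose u hu using hu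
  let y : V → (integralClosure ℤ ℂ) ⧸ 𝔐 := fun s =>
    if hs : s ∈ R.subgroupOf V then
      Lm τ₀ θ₀ (fun x => u s x) s * red 𝔐 ((χ ⟨s, hs⟩ : ℂˣ) : ℂ) else 0
  have hy : ∀ (s : V) (hs : s ∈ R.subgroupOf V),
      y s = Lm τ₀ θ₀ (fun x => u s x) s * red 𝔐 ((χ ⟨s, hs⟩ : ℂˣ) : ℂ) := fun s hs => by
    simp only [y, dif_pos hs]
  let g : V →* H := π.comp V.subtype
  let P : Set (fpr p g → (integralClosure ℤ ℂ) ⧸ 𝔐) :=
    PY h g 𝔐 τ₀ θ₀ t (R.subgroupOf V) u y
  have hsurj : Function.Surjective (fsnd p g) := by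
    intro v
    exact ⟨⟨(t v, v), ht v⟩, rfl⟩
  have hgk : g.ker ≤ Subgroup.center V := by
    intro v hv
    rw [Subgroup.mem_center_iff]
    intro w
    have h7 : (v : W) ∈ π.ker := hv
    have h8 := Subgroup.mem_center_iff.mp (hF.πc h7) (w : W)
    exact Subtype.ext h8
  -- the left side vanishes
  have hFF := h1 O (fpr p g) V 𝔐 ℓ (finj h g) (c.comp (ffst p g)) (fsnd p g) (clG_f h g) hsurj
    (pCore_bot hV) Z m hmm a P
  rw [Finset.sum_eq_zero (fun V' _ => by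
    rw [h2 O X H V 𝔐 ℓ h𝔐 hℓ j c p h hp n hCl hn hcj hci Z hZ hZc g hgk hg a hZa P V', mul_zero])]
    at hFF
  -- the pairs
  have key : ∀ τ ∈ Ch ℓ Z, ∀ θ, Pr h 𝔐 ℓ a Z Λ τ θ →
      ((∑ V', m V' * ((Nat.card V' : ℚ) * NT 𝔐 ℓ a (jS (clG_f h g) τ)
        (pS (fsnd p g) (finj h g) τ) θ (YS (finj h g) τ).subtype P V') : ℚ) : ℂ) =
      (∑ x : V, ∑ y : V, if Subgroup.closure {x, y} = ⊤ then
        ((χ ⟨x * y * x⁻¹ * y⁻¹, Subgroup.mem_subgroupOf.mpr (hR x y)⟩ : ℂˣ) : ℂ)⁻¹ *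
          ((ν τ θ ⟨(x : W) * y * (x : W)⁻¹ * (y : W)⁻¹, hR x y⟩ : ℂˣ) : ℂ)⁻¹ else 0) /
        Nat.card (R.subgroupOf V) := by
    intro τ hτ θ hPr
    let lam : R.subgroupOf V →* ℂˣ := χ * (ν τ θ).comp (rho R V)
    have hlam : ∀ (v : V) (r r' : R.subgroupOf V), (r' : V) = v * r * v⁻¹ → lam r' = lam r := by
      intro v r r' hr
      change χ r' * ν τ θ (rho R V r') = χ r * ν τ θ (rho R V r)
      rw [hχ v r r' hr, hν.inv τ θ hPr (v : W) (rho R V r) (rho R V r')]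
      exact congrArg Subtype.val hr
    have hS : ∀ x y : V, x * y * x⁻¹ * y⁻¹ ∈ R.subgroupOf V := fun x y =>
      Subgroup.mem_subgroupOf.mpr (hR x y)
    have h7 := h5 V (R.subgroupOf V) hS lam hlam m hmm hmS
    have h8 : ∀ V' : Subgroup V, m V' * ((Nat.card V' : ℚ) * NT 𝔐 ℓ a (jS (clG_f h g) τ)
        (pS (fsnd p g) (finj h g) τ) θ (YS (finj h g) τ).subtype P V') =
        m V' * ((Nat.card V' : ℚ) * Nat.card {ζ : V' → ℂ // IsIrr ζ ∧
        ∀ (s : V) (hs : s ∈ R.subgroupOf V) (hs' : s ∈ V'),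
          ζ ⟨s, hs'⟩ = ζ 1 * ((lam ⟨s, hs⟩ : ℂˣ) : ℂ)}) := by
      intro V'
      by_cases h9 : m V' = 0
      · rw [h9, zero_mul, zero_mul]
      · have h10 := h4 O X H W 𝔐 ℓ h𝔐 hℓ j c p h hp a Z Λ π R μ Lm hF τ₀ θ₀ hP₀ ν hν V hV t ht u
          hu χ hχ y hy τ θ hPr V' (hmS V' h9)
        have h11 : NT 𝔐 ℓ a (jS (clG_f h g) τ)
          (pS (fsnd p g) (finj h g) τ) θ (YS (finj h g) τ).subtype P V' =
            Nat.card {ζ : V' → ℂ // IsIrr ζ ∧
              ∀ (s : V) (hs : s ∈ R.subgroupOf V) (hs' : s ∈ V'),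
              ζ ⟨s, hs'⟩ = ζ 1 * ((lam ⟨s, hs⟩ : ℂˣ) : ℂ)} := h10
        rw [h11]
    rw [Finset.sum_congr rfl (fun V' _ => h8 V')]
    push_cast
    rw [h7]
    congr 1
    refine Finset.sum_congr rfl fun x _ => Finset.sum_congr rfl fun y _ => ?_
    split_ifs
    · change (((χ _ * ν τ θ (rho R V _) : ℂˣ) : ℂ))⁻¹ = _
      rw [rho_apply, Units.val_mul, mul_inv]
      rfl
    · rfl
  -- only the fixed pairs contribute
  have hSn : (Nat.card (R.subgroupOf V) : ℂ) ≠ 0 := Nat.cast_ne_zero.mpr Nat.card_pos.ne'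
  have hFC := congrArg (fun q : ℚ => (q : ℂ) * Nat.card (R.subgroupOf V)) hFF
  simp only [Rat.cast_zero, zero_mul] at hFC
  refine Eq.trans ?_ hFC.symm
  rw [Rat.cast_sum, Finset.sum_mul]
  refine Finset.sum_congr rfl fun τ hτ => ?_
  rw [Rat.cast_mul, Rat.cast_sum, mul_assoc, Finset.sum_mul]
  push_cast
  congr 1
  symm
  rw [← Finset.sum_subset (s₁ := (irrF (stb τ)).filter fun θ => Pr h 𝔐 ℓ a Z Λ τ θ)]
  · refine Finset.sum_congr rfl fun θ hθ => ?_
    have hPr := (Finset.mem_filter.mp hθ).2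
    have h7 := key τ hτ θ hPr
    push_cast at h7
    rw [h7, mul_assoc, div_mul_cancel₀ _ hSn]
  · intro θ hθ
    have hθ' := Finset.mem_filter.mp hθ
    refine Finset.mem_filter.mpr ⟨hθ'.1, ?_⟩
    exact (h6 O X H W 𝔐 ℓ h𝔐 hℓ j c p h hp a Z Λ π R μ Lm hF τ₀ θ₀ hP₀ V hVR τ hτ θ hθ'.2.irr
      hθ'.2.df hθ'.2.cn).mpr hθ'.2
  · intro θ hθ hθn
    have hθ' := Finset.mem_filter.mp hθ
    have hirr : IsIrr θ := mem_irrF.mp hθ'.1
    have h7 : ∀ V' : Subgroup V, NT 𝔐 ℓ a (jS (clG_f h g) τ)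
        (pS (fsnd p g) (finj h g) τ) θ (YS (finj h g) τ).subtype P V' = 0 := by
      intro V'
      by_contra h8
      exact hθn (Finset.mem_filter.mpr ⟨hθ'.1, h3 O X H W 𝔐 ℓ h𝔐 hℓ j c p h hp a Z Λ π R μ Lm hF
        τ₀ θ₀ hP₀ V hVR hV t (R.subgroupOf V) u y τ hτ θ hirr hθ'.2 V' h8⟩)
    rw [Finset.sum_eq_zero (fun V' _ => by
      rw [h7 V']
      simp), mul_zero, zero_mul]

end Pool.Agent.DPK


end

section

/-!
# FINNr: the quotients without normal `ℓ`-subgroups, for the groups of a class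
-/

namespace Pool.Agent.DPK

open Pool.Agent.DP Pool.Agent.DPC Pool.Agent.DPM Pool.Agent.DPN Pool.Agent.DPT Pool.Agent.DPF
open Pool.Agent.Lib_helper13
open Representation
open Pool.Agent.Lib_helper13.Dade (pCore DadeHolds dadeSum)

namespace FINNr

theorem sub_zero {O X H : Type} [Group O] [Fintype O] [Group X] [Fintype X] [Group H] [Fintype H]
    (Cl : ∀ (Y : Type) [Group Y], Prop) (hGC : GC Cl) (h2 : Stmt_DKVr Cl)
    (𝔐 : Ideal (integralClosure ℤ ℂ)) (ℓ : ℕ) [Fact ℓ.Prime] (hM : 𝔐.IsMaximal)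
    (hl : (ℓ : integralClosure ℤ ℂ) ∈ 𝔐) (j : O →* X) (c : X →* MulAut O) (p : X →* H)
    (h : ClG j c p) (hp : Function.Surjective p) (n : ℕ) (hCX : Cl X) (hn : HR Cl ℓ n)
    (hC : Subgroup.center X ≤ j.range) (hi : (Subgroup.center X).index ≤ n + 1)
    (Z : Subgroup O) (hZ : IsPGroup ℓ Z) (hZj : Z.map j ≤ Subgroup.center X) (d : ℕ)
    (P : Set (X → (integralClosure ℤ ℂ) ⧸ 𝔐)) (hd : padicValNat ℓ (Nat.card Z) < d)
    (V : Subgroup H) (hV : V ≠ ⊤) :
    DK 𝔐 ℓ d ((Z.map j).subgroupOf (V.comap p)) (V.comap p).subtype P = 0 := by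
  have hCY : Subgroup.center X ≤ V.comap p := by
    intro x hx
    rw [Subgroup.mem_comap, (h.ker x).mpr (hC hx)]
    exact V.one_mem
  have hCc : (Subgroup.center X).subgroupOf (V.comap p) ≤ Subgroup.center (V.comap p) := by
    intro x hx
    rw [Subgroup.mem_center_iff]
    intro y
    apply Subtype.ext
    exact Subgroup.mem_center_iff.mp (Subgroup.mem_subgroupOf.mp hx) y
  have hidx : (Subgroup.center (V.comap p)).index ≤ n := by
    have e1 : (Subgroup.center (V.comap p)).index ∣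
        ((Subgroup.center X).subgroupOf (V.comap p)).index := Subgroup.index_dvd_of_le hCc
    have e2 : (Subgroup.center X).relIndex (V.comap p) * (V.comap p).index =
        (Subgroup.center X).index := Subgroup.relIndex_mul_index hCY
    have e3 : (V.comap p).index = V.index := Subgroup.index_comap_of_surjective V hp
    have e4 : V.index ≠ 0 := Subgroup.index_ne_zero_of_finite
    have e5 : V.index ≠ 1 := fun h5 => hV (Subgroup.index_eq_one.mp h5)
    have e6 : (Subgroup.center X).relIndex (V.comap p) ≠ 0 := by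
      change ((Subgroup.center X).subgroupOf (V.comap p)).index ≠ 0
      exact Subgroup.index_ne_zero_of_finite
    have e7 : (Subgroup.center (V.comap p)).index ≤ (Subgroup.center X).relIndex (V.comap p) :=
      Nat.le_of_dvd (Nat.pos_of_ne_zero e6) e1
    rw [e3] at e2
    have e8 : 2 ≤ V.index := by omega
    have e9 : (Subgroup.center X).relIndex (V.comap p) * 2 ≤ (Subgroup.center X).index := by
      rw [← e2]
      exact Nat.mul_le_mul_left _ e8
    omega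
  have hZY : Z.map j ≤ V.comap p := hZj.trans hCY
  refine h2 (V.comap p) X 𝔐 ℓ hM hl n (hGC.sub hCX _) hn hidx ((Z.map j).subgroupOf (V.comap p)) ?_ ?_ d ?_ _ P
  · intro x hx
    apply hCc
    exact Subgroup.mem_subgroupOf.mpr (hZj (Subgroup.mem_subgroupOf.mp hx))
  · exact (hZ.map j).comap_subtype
  · have e1 : Nat.card ((Z.map j).subgroupOf (V.comap p)) = Nat.card Z := by
      rw [Nat.card_congr (Subgroup.subgroupOfEquivOfLe hZY).toEquiv]
      exact (Nat.card_congr (Z.equivMapOfInjective j h.inj).toEquiv).symm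
    rw [e1]
    exact hd

end FINNr

open Pool.Agent.DPN.FINN _root_.Pool.Agent.DPK.FINNr in
open Classical in
/-- FINNr -/
theorem FINNr_thm (Cl : ∀ (Y : Type) [Group Y], Prop) (hGC : GC Cl) (h1 : Stmt_FF)
    (h2 : Stmt_DKVr Cl) (h3 : Stmt_FAMr Cl) (h4 : Stmt_ABQ) (h5 : Stmt_SUPG) (h6 : Stmt_NUX)
    (h7 : Stmt_YFFr Cl) (h8 : Stmt_FOU) (h9 : Stmt_PHN) (h10 : Stmt_FNAr Cl) (h11 : Stmt_FNB) :
    Stmt_FINNr Cl := by
  intro O X H _ _ _ _ _ _ 𝔐 ℓ _ hM hl j c p h hp hH n hCX hn hC hi hHn Z hZ hZj d ω hd hne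
  obtain ⟨m, hm⟩ := (MOBX_thm H).1
  have hm1 : m ⊤ = 1 := ((MOBX_thm H).2 m hm).1
  have hHQ : HR Cl ℓ (Nat.card H) := hn.mono hHn
  have hCH : Cl H := hGC.im X H p hp hCX
  -- the sum is not zero
  have hFF := h1 O X H 𝔐 ℓ j c p h hp hH Z m hm d {ω}
  have hL : ∑ V, m V * DK 𝔐 ℓ d ((Z.map j).subgroupOf (V.comap p)) (V.comap p).subtype {ω} =
      DK 𝔐 ℓ d (Z.map j) (MonoidHom.id X) {ω} := by
    rw [Finset.sum_eq_single (⊤ : Subgroup H)]
    · rw [hm1, one_mul]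
      exact DK_top 𝔐 ℓ d ((⊤ : Subgroup H).comap p) (Subgroup.comap_top p) (Z.map j) {ω}
    · intro V _ hV
      rw [FINNr.sub_zero Cl hGC h2 𝔐 ℓ hM hl j c p h hp n hCX hn hC hi Z hZ hZj d {ω} hd V hV, mul_zero]
    · intro h'
      exact absurd (Finset.mem_univ _) h'
  rw [hL] at hFF
  have hne' := hne
  rw [hFF] at hne'
  obtain ⟨τ₀, hτ₀, k1⟩ := Finset.exists_ne_zero_of_sum_ne_zero hne'
  obtain ⟨θ₀, hθ₀, k2⟩ := Finset.exists_ne_zero_of_sum_ne_zero (right_ne_zero_of_mul k1)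
  have k3 := right_ne_zero_of_mul k2
  rw [Finset.mem_filter, mem_irrF] at hθ₀
  obtain ⟨hirr₀, hFP₀⟩ := hθ₀
  have hPr := h10 O X H 𝔐 ℓ hM hl j c p h hH hCH hHQ Z d ω m hm τ₀ hτ₀ θ₀ hirr₀ hFP₀ k3
  have hPr₀ := hPr τ₀ hτ₀ θ₀ hirr₀ hFP₀ k3
  obtain ⟨W, _, _, π, R, μ, Lm, hF⟩ := h3 O X H 𝔐 ℓ hM hl j c p h hH hCH hHQ d Z
    (cen 𝔐 (stb τ₀).subtype θ₀)
  obtain ⟨hR, hRi, hRg⟩ := h4 O X H W 𝔐 ℓ hM hl j c p h d Z _ π R μ Lm hF τ₀ θ₀ hPr₀ m hm ω k3
  haveI : R.Normal := hF.Rn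
  obtain ⟨V, hVR, hVc, hVn, hV2, hVx, hVm⟩ := h5 W ℓ R hR hRi hRg
  by_cases hs : Function.Surjective (π.comp V.subtype)
  · refine ⟨?_, ?_, ?_⟩
    · haveI := hVn
      exact Group.nilpotent_of_surjective (π.comp V.subtype) hs
    · intro h'
      exact hVc (h'.trans (Subgroup.card_dvd_of_surjective (π.comp V.subtype) hs))
    · obtain ⟨x, y, hxy⟩ := hV2
      refine ⟨(π.comp V.subtype) x, (π.comp V.subtype) y, ?_⟩
      have e1 := congrArg (Subgroup.map (π.comp V.subtype)) hxy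
      rw [MonoidHom.map_closure, Set.image_pair, ← MonoidHom.range_eq_map,
        MonoidHom.range_eq_top.mpr hs] at e1
      exact e1
  · exfalso
    obtain ⟨ν, hν⟩ := h6 O X H W 𝔐 ℓ hM hl j c p h d Z _ π R μ Lm hF τ₀ θ₀ hPr₀
    -- the index set of the pairs
    let I : Finset ((τ : Finset (Subgroup O)) × (stb τ → ℂ)) :=
      (Ch ℓ Z).sigma (fun τ => (irrF (stb τ)).filter
        (fun θ => Pr h 𝔐 ℓ d Z (cen 𝔐 (stb τ₀).subtype θ₀) τ θ))
    let s : ((τ : Finset (Subgroup O)) × (stb τ → ℂ)) → ℂ :=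
      fun i => (-1 : ℂ) ^ i.1.card * (Nat.card (stb i.1) : ℂ)
    have hI : ∀ i ∈ I, Pr h 𝔐 ℓ d Z (cen 𝔐 (stb τ₀).subtype θ₀) i.1 i.2 := by
      intro i hi'
      exact (Finset.mem_filter.mp (Finset.mem_sigma.mp hi').2).2
    have hsig : ∀ g : (τ : Finset (Subgroup O)) → (stb τ → ℂ) → ℂ,
        ∑ τ ∈ Ch ℓ Z, (-1 : ℂ) ^ τ.card * ∑ θ ∈ irrF (stb τ) with
          Pr h 𝔐 ℓ d Z (cen 𝔐 (stb τ₀).subtype θ₀) τ θ, (Nat.card (stb τ) : ℂ) * g τ θ =
        ∑ i ∈ I, s i * g i.1 i.2 := by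
      intro g
      rw [Finset.sum_sigma]
      refine Finset.sum_congr rfl fun τ _ => ?_
      rw [Finset.mul_sum]
      refine Finset.sum_congr rfl fun θ _ => ?_
      change _ = ((-1 : ℂ) ^ τ.card * (Nat.card (stb τ) : ℂ)) * g τ θ
      rw [mul_assoc]
    have hRV : ∀ x y : V, x * y * x⁻¹ * y⁻¹ ∈ R.subgroupOf V :=
      fun x y => Subgroup.mem_subgroupOf.mpr (hR x y)
    -- the relations
    have r1 : ∀ x y : V, Subgroup.closure {x, y} = ⊤ → ∑ i ∈ I, s i *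
        ((ν i.1 i.2 ⟨(x : W) * y * (x : W)⁻¹ * (y : W)⁻¹, hR x y⟩ : ℂˣ) : ℂ)⁻¹ = 0 := by
      refine h8 V _ I (R.subgroupOf V) hRV s (fun i => (ν i.1 i.2).comp (rV V R)) ?_
        (fun x y => Subgroup.closure {x, y} = ⊤) ?_
      · intro i hi' v r r' hr
        refine hν.inv i.1 i.2 (hI i hi') (v : W) _ _ ?_
        exact congrArg Subtype.val hr
      · intro χ hχ
        have e1 := h7 O X H W 𝔐 ℓ hM hl j c p h hp n hCX hn hC hi d Z hZ hZj hd _ π R μ Lm hF τ₀ θ₀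
          hPr₀ ν hν hR V hVR hVc hVm hs χ hχ
        rw [hsig (fun τ θ => ∑ x : V, ∑ y : V, (if Subgroup.closure {x, y} = ⊤ then
          ((χ ⟨x * y * x⁻¹ * y⁻¹, Subgroup.mem_subgroupOf.mpr (hR x y)⟩ : ℂˣ) : ℂ)⁻¹ *
          ((ν τ θ ⟨(x : W) * y * (x : W)⁻¹ * (y : W)⁻¹, hR x y⟩ : ℂˣ) : ℂ)⁻¹ else 0))] at e1
        exact e1
    have r2 : ∀ x y : W, Subgroup.closure {x, y} ⊔ R = ⊤ →
        ∑ i ∈ I, s i * ((ν i.1 i.2 ⟨x * y * x⁻¹ * y⁻¹, hR x y⟩ : ℂˣ) : ℂ)⁻¹ = 0 :=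
      h11 W _ I R hR V hVR hVx s (fun i => ν i.1 i.2)
        (fun i hi' => hν.inv i.1 i.2 (hI i hi')) r1
    obtain ⟨b, hb⟩ := h9 O X H W 𝔐 ℓ hM hl j c p h d Z _ π R μ Lm hF τ₀ θ₀ hPr₀ ν hν m hm ω
    have hk0 : (Nat.card π.ker : ℂ) ≠ 0 := by
      have : Nat.card π.ker ≠ 0 := Nat.card_pos.ne'
      exact_mod_cast this
    apply hne
    have key : (Nat.card π.ker : ℂ) *
        ((DK 𝔐 ℓ d (Z.map j) (MonoidHom.id X) {ω} : ℚ) : ℂ) = 0 := by
      rw [hFF, Rat.cast_sum, Finset.mul_sum]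
      have e1 : ∀ τ ∈ Ch ℓ Z, (Nat.card π.ker : ℂ) * (((-1 : ℚ) ^ τ.card *
          ∑ θ ∈ irrF (stb τ) with FP h τ θ, (Nat.card (stb τ) : ℚ) * ∑ V, m V *
            ((Nat.card V : ℚ) * NT 𝔐 ℓ d (jS h τ) (pS p j τ) θ (YS j τ).subtype {ω} V) : ℚ) : ℂ) =
          (-1 : ℂ) ^ τ.card * ∑ θ ∈ irrF (stb τ) with
            Pr h 𝔐 ℓ d Z (cen 𝔐 (stb τ₀).subtype θ₀) τ θ, (Nat.card (stb τ) : ℂ) *
              ((Nat.card π.ker : ℂ) * ((∑ V, m V * ((Nat.card V : ℚ) *
                NT 𝔐 ℓ d (jS h τ) (pS p j τ) θ (YS j τ).subtype {ω} V) : ℚ) : ℂ)) := by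
        intro τ hτ
        have e2 : ∑ θ ∈ irrF (stb τ) with
            Pr h 𝔐 ℓ d Z (cen 𝔐 (stb τ₀).subtype θ₀) τ θ, (Nat.card (stb τ) : ℂ) *
              ((Nat.card π.ker : ℂ) * ((∑ V, m V * ((Nat.card V : ℚ) *
                NT 𝔐 ℓ d (jS h τ) (pS p j τ) θ (YS j τ).subtype {ω} V) : ℚ) : ℂ)) =
            ∑ θ ∈ irrF (stb τ) with FP h τ θ, (Nat.card (stb τ) : ℂ) *
              ((Nat.card π.ker : ℂ) * ((∑ V, m V * ((Nat.card V : ℚ) *
                NT 𝔐 ℓ d (jS h τ) (pS p j τ) θ (YS j τ).subtype {ω} V) : ℚ) : ℂ)) := by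
          apply Finset.sum_subset
          · intro θ hθ
            rw [Finset.mem_filter] at hθ ⊢
            exact ⟨hθ.1, hθ.2.fp⟩
          · intro θ hθ hθ'
            rw [Finset.mem_filter] at hθ hθ'
            by_cases hz : ∑ V, m V * ((Nat.card V : ℚ) *
                NT 𝔐 ℓ d (jS h τ) (pS p j τ) θ (YS j τ).subtype {ω} V) = 0
            · rw [hz, Rat.cast_zero, mul_zero, mul_zero]
            · exact absurd ⟨hθ.1, hPr τ hτ θ (mem_irrF.mp hθ.1) hθ.2 hz⟩ hθ'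
        rw [e2, Rat.cast_mul, Rat.cast_sum, Rat.cast_pow, Rat.cast_neg, Rat.cast_one,
          mul_left_comm, Finset.mul_sum]
        refine congrArg _ (Finset.sum_congr rfl fun θ _ => ?_)
        rw [Rat.cast_mul, Rat.cast_natCast, mul_left_comm]
      rw [Finset.sum_congr rfl e1, hsig]
      have e3 : ∀ i ∈ I, s i * ((Nat.card π.ker : ℂ) * ((∑ V, m V * ((Nat.card V : ℚ) *
          NT 𝔐 ℓ d (jS h i.1) (pS p j i.1) i.2 (YS j i.1).subtype {ω} V) : ℚ) : ℂ)) =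
          ∑ x : W, ∑ y : W, (if Subgroup.closure {x, y} ⊔ R = ⊤ then b x y * (s i *
            ((ν i.1 i.2 ⟨x * y * x⁻¹ * y⁻¹, hR x y⟩ : ℂˣ) : ℂ)⁻¹) else 0) := by
        intro i hi'
        rw [hb i.1 i.2 (hI i hi'), Finset.mul_sum]
        refine Finset.sum_congr rfl fun x _ => ?_
        rw [Finset.mul_sum]
        refine Finset.sum_congr rfl fun y _ => ?_
        rw [dif_pos (hR x y)]
        by_cases hc : Subgroup.closure {x, y} ⊔ R = ⊤
        · rw [if_pos hc, if_pos hc, mul_left_comm]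
        · rw [if_neg hc, if_neg hc, mul_zero]
      rw [Finset.sum_congr rfl e3, Finset.sum_comm]
      refine Finset.sum_eq_zero fun x _ => ?_
      rw [Finset.sum_comm]
      refine Finset.sum_eq_zero fun y _ => ?_
      by_cases hc : Subgroup.closure {x, y} ⊔ R = ⊤
      · simp only [if_pos hc]
        rw [← Finset.mul_sum, r2 x y hc, mul_zero]
      · simp only [if_neg hc]
        exact Finset.sum_const_zero
    have k4 := (mul_eq_zero.mp key).resolve_left hk0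
    exact_mod_cast k4

end Pool.Agent.DPK


end

section

/-!
# Theorem R: restriction to chains of product subgroups (module CLOSEDR)
-/

namespace Pool.Agent.DP

open Pool.Agent.Lib_helper13 Representation

namespace CLOSEDR

section Wb

variable {O G B : Type*} [Group G] [Group B] (κ : B →* MulAut G)

theorem prj_wB (g : Gam (Equiv.Perm O) O B) (D : Subgroup (O → G)) (o : O) :
    prj o (D.map (wB κ O g).toMonoidHom) =
      (prj (g.right⁻¹ • o) D).map (κ (g.left o)).toMonoidHom := by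
  rw [prj, prj, Subgroup.map_map, Subgroup.map_map]
  rfl

theorem pK_wB (g : Gam (Equiv.Perm O) O B) (K : O → Subgroup G) :
    (pK K).map (wB κ O g).toMonoidHom =
      pK (fun o => (K (g.right⁻¹ • o)).map (κ (g.left o)).toMonoidHom) := by
  ext x
  rw [Subgroup.mem_map, mem_pK]
  constructor
  · rintro ⟨y, hy, rfl⟩ o
    rw [mem_pK] at hy
    exact ⟨y (g.right⁻¹ • o), hy _, rfl⟩
  · intro h
    choose y hy hy' using h
    refine ⟨fun k => y (g.right • k), ?_, ?_⟩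
    · rw [mem_pK]
      intro k
      have h1 := hy (g.right • k)
      rwa [inv_smul_smul] at h1
    · ext o
      change κ (g.left o) (y (g.right • g.right⁻¹ • o)) = x o
      rw [smul_inv_smul]
      exact hy' o

theorem cl_wB (g : Gam (Equiv.Perm O) O B) (D : Subgroup (O → G)) :
    cl (D.map (wB κ O g).toMonoidHom) = (cl D).map (wB κ O g).toMonoidHom := by
  rw [cl, cl, pK_wB]
  congr 1
  ext1 o
  exact prj_wB κ g D o

end Wb

section Ys

variable {O G B Y K : Type} [Group G] [Group B] [Group Y] [Group K] {ι : G →* B}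
  {κ : B →* MulAut G} {j : (O → G) →* Y} {p : Y →* K} {φ : Y →* Gam (Equiv.Perm O) O B}

theorem mem_YS_iff (h : ExtS ι κ j p φ) {τ : Finset (Subgroup (O → G))} {y : Y} :
    y ∈ YS j τ ↔ ∀ D ∈ τ, D.map (wB κ O (φ y)).toMonoidHom = D := by
  have hc : (MulAut.conj y).toMonoidHom.comp j = j.comp (wB κ O (φ y)).toMonoidHom := by
    apply MonoidHom.ext
    intro a
    exact (h.cl.act y a).symm
  rw [mem_stb]
  constructor
  · intro h3 D hD
    have h1 := h3 (D.map j) (mem_mapCh.mpr ⟨D, hD, rfl⟩)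
    rw [Subgroup.map_map, hc, ← Subgroup.map_map] at h1
    exact Subgroup.map_injective h.cl.inj h1
  · intro h3 E hE
    obtain ⟨D, hD, rfl⟩ := mem_mapCh.mp hE
    rw [Subgroup.map_map, hc, ← Subgroup.map_map, h3 D hD]

theorem YS_insert (h : ExtS ι κ j p φ) [DecidableEq (Subgroup (O → G))]
    {τ : Finset (Subgroup (O → G))} {D : Subgroup (O → G)} (hD : D ∈ τ) :
    YS j (insert (cl D) τ) = YS j τ := by
  ext y
  rw [mem_YS_iff h, mem_YS_iff h]
  constructor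
  · intro h1 E hE
    exact h1 E (Finset.mem_insert_of_mem hE)
  · intro h1 E hE
    rcases Finset.mem_insert.1 hE with rfl | hE
    · rw [← cl_wB, h1 D hD]
    · exact h1 E hE

end Ys

end CLOSEDR

/-- CLOSEDR. -/
theorem CLOSEDR_thm : Stmt_CLOSEDR := by
  intro O G B Y K _ _ _ _ _ _ _ ℓ ι κ j p φ h W
  classical
  refine sum_closed ℓ (fun τ => W (YS j τ)) fun τ _ D hD => ?_
  rw [CLOSEDR.YS_insert h hD]

end Pool.Agent.DP


end

section

/-!
# RIN: the inner theorem (theorem C)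
-/

namespace Pool.Agent.DPC

open Pool.Agent.DP Pool.Agent.Lib_helper13 Representation
open Pool.Agent.Lib_helper13.Dade (pCore DadeHolds dadeSum)

theorem RIN_thm (h1 : Stmt_CLIFFR) (h2 : Stmt_TJ) (h3 : Stmt_COMBR) (h4 : Stmt_BLKCR) :
    Stmt_RIN := by
  intro O G B C Y K Y0 K0 _ _ _ _ _ _ _ _ _ _ _ _ _ _ 𝔐 ℓ _ h𝔐 hℓ ι κ ρ hL hVS e0 p0 φ0 j p φ hE0 hE
    i hi hi2 χ ξ o e hχ hξ hover he he0 d
  classical
  obtain ⟨Φ, hΦ, hsupp⟩ := h1 O G B C Y K Y0 𝔐 ℓ h𝔐 hℓ ι κ ρ hL j p φ hE d i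
    (cen 𝔐 (MonoidHom.id Y0) χ)
  have h5 := CLOSEDR_thm O G B Y K ℓ ι κ j p φ hE
    (fun S => (Nat.card S : ℚ) * cnt 𝔐 ℓ d (i.comp S.subtype) (cen 𝔐 (MonoidHom.id Y0) χ))
  rw [h5]
  have h6 := h3 O G B C Y K 𝔐 ℓ ι κ ρ hL j p φ hE
    (h2 O G B C Y K 𝔐 ℓ h𝔐 hℓ ι κ ρ hL hVS j p φ hE) Φ (by
      intro J d' β hne
      by_contra hcon
      push Not at hcon
      obtain ⟨τ, hτ, θ, hθ, hb, ψ, hψ, hcen, hψθ⟩ := hsupp J d' β hne
      obtain ⟨h7, h8, ψ', hψ', h9, h10⟩ := h4 O G B C Y K Y0 𝔐 ℓ h𝔐 hℓ ι κ ρ hL j p φ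
        hE i τ hτ θ hθ ψ hψ hψθ J (fun o => by rw [hb]; exact hcon o)
      exact BLKBR_thm BLKAR_thm O O G B Y0 Y K0 K 𝔐 ℓ h𝔐 hℓ ι κ e0 p0 φ0 j p φ hE0 hE i
        (fun w => w) (fun _ => 1) (fun a => ⟨0, by simp⟩) (fun n => by
          rw [hi]
          congr 1
          funext w
          rw [map_one, MulAut.one_apply]) hi2 χ ξ o e hχ hξ hover he he0 ψ' θ hψ' h7 h8 h9
        (fun g => by rw [h10 g, hcen g]))
  rw [← h6]
  refine Finset.sum_congr rfl fun τ hτ => ?_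
  rw [hΦ τ hτ]

end Pool.Agent.DPC


end

section

/-!
# Module AMA: the twisted group of an invariant character
-/

set_option autoImplicit false

namespace Pool.Agent.DPG

open Pool.Agent.DP Pool.Agent.DPC Pool.Agent.DPM Pool.Agent.DPN Pool.Agent.DPF
  Pool.Agent.Lib_helper13 Representation
open Pool.Agent.Lib_helper13.Dade (pCore DadeHolds dadeSum)

namespace AMA

variable {Q K1 : Type} [Group Q] [Group K1]

theorem mem_al {q : Q →* K1} {α : K1 →* MulAut Q} {S : Subgroup K1}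
    (hq : ∀ k x, q (α k x) = k * q x * k⁻¹) (k : S) (a : ↥(S.comap q)) :
    α (k : K1) (a : Q) ∈ S.comap q := by
  rw [Subgroup.mem_comap, hq]
  exact S.mul_mem (S.mul_mem k.2 a.2) (S.inv_mem k.2)

/-- The action of `S` on the inverse image of `S`. -/
def aS (q : Q →* K1) (α : K1 →* MulAut Q) (S : Subgroup K1)
    (hq : ∀ k x, q (α k x) = k * q x * k⁻¹) : S →* MulAut ↥(S.comap q) where
  toFun k :=
    { toFun := fun a => ⟨α (k : K1) (a : Q), mem_al hq k a⟩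
      invFun := fun a => ⟨α ((k⁻¹ : S) : K1) (a : Q), mem_al hq k⁻¹ a⟩
      left_inv := by
        intro a
        apply Subtype.ext
        change α ((k⁻¹ : S) : K1) (α (k : K1) (a : Q)) = a
        rw [← MulAut.mul_apply, ← map_mul, ← Subgroup.coe_mul, inv_mul_cancel, Subgroup.coe_one,
          map_one, MulAut.one_apply]
      right_inv := by
        intro a
        apply Subtype.ext
        change α (k : K1) (α ((k⁻¹ : S) : K1) (a : Q)) = a
        rw [← MulAut.mul_apply, ← map_mul, ← Subgroup.coe_mul, mul_inv_cancel, Subgroup.coe_one,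
          map_one, MulAut.one_apply]
      map_mul' := by
        intro a b
        apply Subtype.ext
        exact map_mul (α (k : K1)) (a : Q) (b : Q) }
  map_one' := by
    ext a
    change α ((1 : S) : K1) (a : Q) = a
    rw [Subgroup.coe_one, map_one, MulAut.one_apply]
  map_mul' := by
    intro k k'
    ext a
    change α ((k * k' : S) : K1) (a : Q) = α (k : K1) (α (k' : K1) (a : Q))
    rw [Subgroup.coe_mul, map_mul, MulAut.mul_apply]

theorem aS_coe {q : Q →* K1} {α : K1 →* MulAut Q} {S : Subgroup K1}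
    {hq : ∀ k x, q (α k x) = k * q x * k⁻¹} (k : S) (a : ↥(S.comap q)) :
    ((aS q α S hq k a : ↥(S.comap q)) : Q) = α (k : K1) (a : Q) := rfl

/-- The image in `S`. -/
def qS (q : Q →* K1) (S : Subgroup K1) : ↥(S.comap q) →* S where
  toFun a := ⟨q a, a.2⟩
  map_one' := by
    apply Subtype.ext
    exact map_one q
  map_mul' := by
    intro a b
    apply Subtype.ext
    exact map_mul q _ _

theorem aS_q {q : Q →* K1} {α : K1 →* MulAut Q} {S : Subgroup K1}
    {hq : ∀ k x, q (α k x) = k * q x * k⁻¹} (hα : ∀ x a, α (q x) a = x * a * x⁻¹)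
    (a b : ↥(S.comap q)) : aS q α S hq (qS q S a) b = a * b * a⁻¹ := by
  apply Subtype.ext
  exact hα _ _

theorem qS_a {q : Q →* K1} {α : K1 →* MulAut Q} {S : Subgroup K1}
    {hq : ∀ k x, q (α k x) = k * q x * k⁻¹} (k : S) (b : ↥(S.comap q)) :
    qS q S (aS q α S hq k b) = k * qS q S b * k⁻¹ := by
  apply Subtype.ext
  exact hq _ _

section abs

variable {A S : Type} [Group A] [Group S] (φ : S →* MulAut A) (q : A →* S)

/-- The conjugation action of the semidirect product. -/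
def cT : A ⋊[φ] S →* MulAut A :=
  SemidirectProduct.lift MulAut.conj φ (by
    intro g
    ext a b
    simp [MulAut.conj_apply])

theorem cT_apply (t : A ⋊[φ] S) (a : A) : cT φ t a = t.left * φ t.right a * t.left⁻¹ := rfl

theorem clg : ClG (SemidirectProduct.inl : A →* A ⋊[φ] S) (cT φ)
    (SemidirectProduct.rightHom : A ⋊[φ] S →* S) where
  inj := SemidirectProduct.inl_injective
  act := by
    intro y a
    rw [cT_apply]
    apply SemidirectProduct.ext
    · simp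
    · simp
  ker := by
    intro y
    constructor
    · intro h
      refine ⟨y.left, ?_⟩
      apply SemidirectProduct.ext
      · simp
      · rw [SemidirectProduct.right_inl]
        exact h.symm
    · rintro ⟨a, rfl⟩
      simp

/-- The element `(a⁻¹, q a)`. -/
def tt (a : A) : A ⋊[φ] S := ⟨a⁻¹, q a⟩

variable {φ q}

theorem tt_mul (hq : ∀ a b, φ (q a) b = a * b * a⁻¹) (a b : A) :
    tt φ q a * tt φ q b = tt φ q (a * b) := by
  apply SemidirectProduct.ext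
  · change a⁻¹ * φ (q a) b⁻¹ = (a * b)⁻¹
    rw [hq]
    group
  · change q a * q b = q (a * b)
    rw [map_mul]

theorem tt_comm (hq : ∀ a b, φ (q a) b = a * b * a⁻¹) (a b : A) :
    tt φ q a * SemidirectProduct.inl b = SemidirectProduct.inl b * tt φ q a := by
  apply SemidirectProduct.ext
  · change a⁻¹ * φ (q a) b = b * φ 1 a⁻¹
    rw [hq, map_one, MulAut.one_apply]
    group
  · change q a * 1 = 1 * q a
    rw [mul_one, one_mul]

theorem tt_conj (hq' : ∀ s a, q (φ s a) = s * q a * s⁻¹) (s : S) (a : A) :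
    SemidirectProduct.inr s * tt φ q a = tt φ q (φ s a) * SemidirectProduct.inr s := by
  apply SemidirectProduct.ext
  · change 1 * φ s a⁻¹ = (φ s a)⁻¹ * φ (q (φ s a)) 1
    rw [map_one, map_inv, one_mul, mul_one]
  · change s * q a = q (φ s a) * s
    rw [hq', inv_mul_cancel_right]

theorem tt_inl (hq : ∀ a b, φ (q a) b = a * b * a⁻¹) (a : A) :
    tt φ q a * SemidirectProduct.inl a = SemidirectProduct.inr (q a) := by
  apply SemidirectProduct.ext
  · change a⁻¹ * φ (q a) a = 1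
    rw [hq]
    group
  · change q a * 1 = q a
    rw [mul_one]

/-- The abstract form. -/
theorem main [Fintype A] [Finite S] (hq : ∀ a b, φ (q a) b = a * b * a⁻¹)
    (hq' : ∀ s a, q (φ s a) = s * q a * s⁻¹) (θ : A → ℂ) (hθ : IsIrr θ)
    (hinv : ∀ s a, θ (φ s a) = θ a) :
    ∃ (Λ : Type) (_ : Group Λ) (_ : Fintype Λ) (π2 : Λ →* S) (μ2 : π2.ker →* ℂˣ)
      (j : A →* Λ) (E : Λ → ℂ), Function.Surjective π2 ∧
      π2.ker ≤ Subgroup.center Λ ∧ Function.Injective μ2 ∧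
      (∀ a, π2 (j a) = q a) ∧
      (∀ (y : Λ) (a b : A), b = φ (π2 y) a → j b = y * j a * y⁻¹) ∧
      IsChr E ∧ (∀ a, E (j a) = θ a) ∧
      ∀ (z : π2.ker) (x : Λ), E (z * x) = ((μ2 z : ℂˣ) : ℂ) * E x := by
  classical
  have hfT : Finite (A ⋊[φ] S) :=
    Finite.of_equiv _ (SemidirectProduct.equivProd (φ := φ)).symm
  let _ : Fintype (A ⋊[φ] S) := Fintype.ofFinite _
  have hcl := clg φ
  have hinvT : ∀ (t : A ⋊[φ] S) a, θ (cT φ t a) = θ a := by
    intro t a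
    rw [cT_apply, hθ.conj_eq, hinv]
  obtain ⟨Γ, Λ, _, _, _, _, e, q', r, E, U, μ, π, hD⟩ :=
    TWC_thm A (A ⋊[φ] S) S SemidirectProduct.inl (cT φ) SemidirectProduct.rightHom hcl
      SemidirectProduct.rightHom_surjective θ hθ hinvT
  have hE1 : E 1 ≠ 0 := by
    rw [← map_one e, hD.Ee]
    exact hθ.one_ne_zero
  -- the intersection of the kernels of `q'` and `r`
  have hker : ∀ w, q' w = 1 → r w = 1 → w = 1 := by
    intro w h1 h2
    obtain ⟨a, rfl⟩ := (hD.qk w).1 h1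
    rw [hD.re] at h2
    have h3 : a = 1 := SemidirectProduct.inl_injective (h2.trans (map_one _).symm)
    rw [h3, map_one]
  have hqU : ∀ w, r w = 1 → q' w ∈ U := by
    intro w h
    rw [← hD.πk, hD.πq, h, map_one]
  -- the elements above `t_a`
  have hex : ∀ a : A, ∃ γ, r γ = tt φ q a ∧ ∀ γ', E (γ * γ') = E γ' :=
    fun a => hD.ce _ (fun b => tt_comm hq a b)
  have hun : ∀ γ γ₁ : Γ, r γ = r γ₁ → (∀ γ', E (γ * γ') = E γ') → (∀ γ', E (γ₁ * γ') = E γ') →
      γ = γ₁ := by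
    intro γ γ₁ h h1 h2
    have hr : r (γ * γ₁⁻¹) = 1 := by rw [map_mul, map_inv, h, mul_inv_cancel]
    have hz : ∀ x, E (γ * γ₁⁻¹ * x) = E x := by
      intro x
      rw [mul_assoc, h1]
      have h3 := h2 (γ₁⁻¹ * x)
      rw [mul_inv_cancel_left] at h3
      exact h3.symm
    have h4 := hD.El (γ * γ₁⁻¹) 1 (hqU _ hr) hr
    rw [hz 1] at h4
    have h5 : ((μ ⟨q' (γ * γ₁⁻¹), hqU _ hr⟩ : ℂˣ) : ℂ) = 1 :=
      mul_right_cancel₀ hE1 (h4.trans (one_mul _).symm)
    have h6 : μ ⟨q' (γ * γ₁⁻¹), hqU _ hr⟩ = 1 := Units.ext h5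
    have h7 := hD.inj (h6.trans (map_one μ).symm)
    have h8 : q' (γ * γ₁⁻¹) = 1 := congrArg Subtype.val h7
    exact mul_inv_eq_one.1 (hker _ h8 hr)
  choose g₀ hg1 hg2 using hex
  let g : A →* Γ := MonoidHom.mk' g₀ (by
    intro a b
    apply hun
    · rw [hg1, map_mul, hg1, hg1, tt_mul hq]
    · exact hg2 _
    · intro γ'
      rw [mul_assoc, hg2, hg2])
  have hgr : ∀ a, r (g a) = tt φ q a := hg1
  have hgE : ∀ a γ', E (g a * γ') = E γ' := hg2
  -- the section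
  have hsx : ∀ l : Λ, ∃ γ, q' γ = l ∧ r γ = SemidirectProduct.inr (π l) := by
    intro l
    obtain ⟨γ, rfl⟩ := hD.qs l
    refine ⟨(e (r γ).left)⁻¹ * γ, ?_, ?_⟩
    · rw [map_mul, map_inv, (hD.qk _).2 ⟨_, rfl⟩, inv_one, one_mul]
    · rw [map_mul, map_inv, hD.re, hD.πq]
      rw [inv_mul_eq_iff_eq_mul]
      exact (SemidirectProduct.inl_left_mul_inr_right (r γ)).symm
  choose s₀ hs1 hs2 using hsx
  let s : Λ →* Γ := MonoidHom.mk' s₀ (by
    intro l l'
    have h := hker ((s₀ (l * l'))⁻¹ * (s₀ l * s₀ l')) (by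
      rw [map_mul, map_inv, map_mul, hs1, hs1, hs1, inv_mul_cancel]) (by
      rw [map_mul, map_inv, map_mul, hs2, hs2, hs2, map_mul, map_mul, inv_mul_cancel])
    exact inv_mul_eq_one.1 h)
  have hsq : ∀ l, q' (s l) = l := hs1
  have hsr : ∀ l, r (s l) = SemidirectProduct.inr (π l) := hs2
  have hUk : ∀ z : π.ker, (z : Λ) ∈ U := fun z => (hD.πk _).1 z.2
  let μ2 : π.ker →* ℂˣ := (μ.comp (Subgroup.inclusion (fun z hz => (hD.πk z).1 hz)))⁻¹
  have hμ2 : ∀ z : π.ker, μ2 z = (μ ⟨z, hUk z⟩)⁻¹ := fun z => rfl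
  have hπj : ∀ a, π (q' (g a)) = q a := by
    intro a
    rw [hD.πq, hgr]
    rfl
  refine ⟨Λ, inferInstance, inferInstance, π, μ2, q'.comp g, fun l => E (s l), hD.πs, ?_, ?_,
    hπj, ?_, hD.Ec.comp s, ?_, ?_⟩
  · intro z hz
    exact hD.Uc ((hD.πk z).1 hz)
  · intro z z' h
    rw [hμ2, hμ2, inv_inj] at h
    have h1 := hD.inj h
    have h2 : (z : Λ) = z' := congrArg (fun w : U => (w : Λ)) h1
    exact Subtype.ext h2
  · rintro y a b rfl
    change q' (g (φ (π y) a)) = y * q' (g a) * y⁻¹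
    have h : g (φ (π y) a) = s y * g a * (s y)⁻¹ := by
      apply hun
      · rw [hgr, map_mul, map_inv, map_mul, hsr, hgr, tt_conj hq', mul_inv_cancel_right]
      · exact hgE _
      · intro γ'
        have h1 : s y * g a * (s y)⁻¹ * γ' = s y * (g a * ((s y)⁻¹ * γ' * s y)) * (s y)⁻¹ := by
          group
        rw [h1, hD.Ec.conj_eq, hgE]
        have h2 := hD.Ec.conj_eq (s y)⁻¹ γ'
        rw [inv_inv] at h2
        exact h2
    rw [h, map_mul, map_mul, map_inv, hsq]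
  · intro a
    change E (s (q' (g a))) = θ a
    have h : s (q' (g a)) = g a * e a := by
      have h1 := hker ((s (q' (g a)))⁻¹ * (g a * e a)) (by
        rw [map_mul, map_inv, hsq, map_mul, (hD.qk (e a)).2 ⟨_, rfl⟩, mul_one, inv_mul_cancel])
        (by
        rw [map_mul, map_inv, hsr, map_mul, hgr, hD.re, tt_inl hq, hπj, inv_mul_cancel])
      exact inv_mul_eq_one.1 h1
    rw [h, hgE, hD.Ee]
  · intro z x
    change E (s (z * x)) = ((μ2 z : ℂˣ) : ℂ) * E (s x)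
    rw [map_mul]
    have hr : r (s z) = 1 := by
      rw [hsr]
      have h1 : π z = 1 := z.2
      rw [h1, map_one]
    have hU : q' (s z) ∈ U := by
      rw [hsq]
      exact hUk z
    have h2 := hD.El (s z) (s x) hU hr
    have h3 : μ ⟨q' (s z), hU⟩ = μ ⟨z, hUk z⟩ := by
      congr 1
      exact Subtype.ext (hsq _)
    rw [h3] at h2
    rw [hμ2, ← h2, ← mul_assoc, ← Units.val_mul, inv_mul_cancel, Units.val_one, one_mul]

end abs

end AMA

open _root_.Pool.Agent.DPG.AMA in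
/-- AMA. -/
theorem AMA_thm : Stmt_AMA := by
  classical
  intro Q K1 _ _ _ _ q α μQ hα hq hz hμQ S f hf hov hinv
  have hθ : IsIrr (fun a : ↥(S.comap q) => f a) := hf.1
  obtain ⟨Λ, iΛ, fΛ, π2, μ2, j, E, h1, h2, h3, h4, h5, h6, h7, h8⟩ :=
    main (φ := aS q α S hq) (q := qS q S) (fun a b => aS_q hα a b) (fun s a => qS_a s a)
      (fun a : ↥(S.comap q) => f a) hθ (fun s a => hinv s s.2 a)
  have hj : ∀ (z : q.ker) (a : ↥(S.comap q)) (h : j a ∈ π2.ker), (a : Q) = z →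
      μ2 ⟨j a, h⟩ = μQ z := by
    intro z a h haz
    have e1 := h8 ⟨j a, h⟩ (j 1)
    have e2 : (⟨j a, h⟩ : π2.ker) * (j 1) = j a := by
      rw [map_one, mul_one]
    rw [e2, h7, h7] at e1
    have e3 := hov z 1
    rw [mul_one, ← haz] at e3
    have e4 : f 1 ≠ 0 := hθ.one_ne_zero
    have e5 : ((μ2 ⟨j a, h⟩ : ℂˣ) : ℂ) * f 1 = ((μQ z : ℂˣ) : ℂ) * f 1 := by
      rw [← e3]
      exact e1.symm
    exact Units.ext (mul_right_cancel₀ e4 e5)
  refine ⟨Λ, iΛ, fΛ, π2, μ2, j, E, h1, h2, h3, ?_, ?_, ?_, hj, h6, h7, h8⟩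
  · rw [injective_iff_map_eq_one]
    intro a ha
    have hqa : q a = 1 := by
      have e1 := h4 a
      rw [ha, map_one] at e1
      exact (congrArg Subtype.val e1).symm
    have hm : j a ∈ π2.ker := by
      rw [ha]
      exact Subgroup.one_mem _
    have e2 := hj ⟨a, hqa⟩ a hm rfl
    have e3 : (⟨j a, hm⟩ : π2.ker) = 1 := Subtype.ext ha
    rw [e3, map_one] at e2
    have e4 := hμQ ((map_one μQ).trans e2)
    exact Subtype.ext (congrArg Subtype.val e4).symm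
  · intro a
    exact congrArg Subtype.val (h4 a)
  · intro y a b hb
    exact h5 y a b (Subtype.ext hb)

end Pool.Agent.DPG


end
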