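import Mathlib
import Pool.Agent.DAM.C14
import Pool.Agent.DAM.C22
import Pool.Agent.DAM.C43
import Pool.Agent.DAM.C62

/-! Parts: DPW.DF1, DPX.REDX, DPX.HGTX -/

section

/-!
# Module DF1: the defect of the characters of a block of defect one
-/

namespace Pool.Agent.DPW

open Pool.Agent.DP Pool.Agent.DPV Pool.Agent.Lib_helper13 Representation
open Pool.Agent.Lib_helper13.Dade (pCore DadeHolds dadeSum)

namespace DF1

variable {T : Type} [Group T] [Fintype T]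

/-- The weight of the class of `x`. -/
noncomputable def w (χ : T → ℂ) (x : T) : ℂ := wt χ (fun y => conjInd (MonoidHom.id T y) x)

omit [Fintype T] in
theorem csize_eq [Finite T] (x : T) :
    (ConjClasses.mk x).carrier.ncard * Nat.card (Subgroup.centralizer ({x} : Set T)) =
      Nat.card T := by
  rw [← ConjAct.orbit_eq_carrier_conjClasses, ← MulAction.index_stabilizer,
    Subgroup.nat_card_centralizer_nat_card_stabilizer, Subgroup.index_mul_card]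
  exact Nat.card_congr ConjAct.ofConjAct.toEquiv

theorem w_eq {χ : T → ℂ} (hχ : IsIrr χ) (x : T) :
    w χ x = ((ConjClasses.mk x).carrier.ncard : ℂ) * χ x / χ 1 := by
  classical
  rw [w, wt]
  congr 1
  have h1 : ∀ y : T, conjInd (MonoidHom.id T y) x * χ y =
      if y ∈ (ConjClasses.mk x).carrier then χ x else 0 := by
    intro y
    rw [conjInd, MonoidHom.id_apply]
    by_cases hy : IsConj y x
    · rw [if_pos hy, if_pos (ConjClasses.mem_carrier_iff_mk_eq.mpr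
        (ConjClasses.mk_eq_mk_iff_isConj.mpr hy)), hχ.isConj hy, one_mul]
    · rw [if_neg hy, if_neg (fun h => hy (ConjClasses.mk_eq_mk_iff_isConj.mp
        (ConjClasses.mem_carrier_iff_mk_eq.mp h))), zero_mul]
  simp only [h1]
  rw [← Finset.sum_filter, Finset.sum_const, nsmul_eq_mul]
  congr 2
  rw [← Set.ncard_coe_finset]
  congr 1
  ext y
  simp

/-- With `q = |T| / χ(1)`: `|C(x)| w(x) = q χ(x)`. -/
theorem mul_w {χ : T → ℂ} (hχ : IsIrr χ) (x : T) {q : ℂ} (hq : (Nat.card T : ℂ) = q * χ 1) :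
    (Nat.card (Subgroup.centralizer ({x} : Set T)) : ℂ) * w χ x = q * χ x := by
  have h1 := hχ.one_ne_zero
  rw [w_eq hχ]
  have h2 : ((ConjClasses.mk x).carrier.ncard : ℂ) *
      (Nat.card (Subgroup.centralizer ({x} : Set T)) : ℂ) = q * χ 1 := by
    rw [← hq]
    exact_mod_cast csize_eq x
  calc (Nat.card (Subgroup.centralizer ({x} : Set T)) : ℂ) *
        (((ConjClasses.mk x).carrier.ncard : ℂ) * χ x / χ 1)
      = (((ConjClasses.mk x).carrier.ncard : ℂ) *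
        (Nat.card (Subgroup.centralizer ({x} : Set T)) : ℂ)) * χ x / χ 1 := by ring
    _ = q * χ x := by
        rw [h2]
        field_simp

theorem isIntegral_w {χ : T → ℂ} (hχ : IsIrr χ) (x : T) : IsIntegral ℤ (w χ x) :=
  isIntegral_wt_conj (MonoidHom.id T) hχ x

variable (𝔐 : Ideal (integralClosure ℤ ℂ)) {ℓ : ℕ} [Fact ℓ.Prime]

theorem cen_eq (χ : T → ℂ) (x : T) : cen 𝔐 (MonoidHom.id T) χ x = red 𝔐 (w χ x) := rfl

omit [Fact ℓ.Prime] in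
theorem red_mul_of_dvd (hℓ : (ℓ : integralClosure ℤ ℂ) ∈ 𝔐) {c : ℕ} (hc : ℓ ∣ c) {a : ℂ}
    (ha : IsIntegral ℤ a) : red 𝔐 ((c : ℂ) * a) = 0 := by
  obtain ⟨d, rfl⟩ := hc
  have h1 : ((ℓ * d : ℕ) : ℂ) * a = (ℓ : ℂ) * ((d : ℂ) * a) := by
    push_cast
    ring
  rw [h1, red_natCast_mul 𝔐 ℓ ((Lib_helper13.isIntegral_natCast d).mul ha), nsmul_quot_eq_zero 𝔐 hℓ]

/-- A natural number prime to `ℓ` may be cancelled. -/
theorem red_cancel [h𝔐 : 𝔐.IsPrime] (hℓ : (ℓ : integralClosure ℤ ℂ) ∈ 𝔐) {c : ℕ}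
    (hc : ¬ ℓ ∣ c) {a : ℂ} (ha : IsIntegral ℤ a) (h : red 𝔐 ((c : ℂ) * a) = 0) :
    red 𝔐 a = 0 := by
  rw [red_mul 𝔐 (Lib_helper13.isIntegral_natCast c) ha] at h
  exact (mul_eq_zero.mp h).resolve_left (red_card_ne_zero 𝔐 hℓ hc)

omit [Fintype T] in
theorem centralizer_inv (x : T) :
    Subgroup.centralizer ({x⁻¹} : Set T) = Subgroup.centralizer ({x} : Set T) := by
  ext g
  rw [Subgroup.mem_centralizer_singleton_iff, Subgroup.mem_centralizer_singleton_iff]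
  constructor
  · intro h
    exact (Commute.inv_right_iff.mp h)
  · intro h
    exact (Commute.inv_right_iff.mpr h)

/-- If `q = |T| / χ(1)` is not divisible by `ℓ`, there is a class on which the central character
does not vanish. -/
theorem exists_class {χ : T → ℂ} (hχ : IsIrr χ) {q : ℕ}
    (hq : (Nat.card T : ℂ) = q * χ 1) (h0 : red 𝔐 (q : ℂ) ≠ 0) :
    ∃ x : T, red 𝔐 (w χ x) ≠ 0 ∧ red 𝔐 (χ x⁻¹) ≠ 0 := by
  classical
  have hcl : ∀ g x : T, χ (g * x * g⁻¹)⁻¹ = χ x⁻¹ := by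
    intro g x
    have : (g * x * g⁻¹)⁻¹ = g * x⁻¹ * g⁻¹ := by group
    rw [this, hχ.conj_eq]
  obtain ⟨F, hF⟩ := exists_lift_class (fun x : T => χ x⁻¹) hcl
  have h1 : wt χ (fun y => F (ConjClasses.mk (id y))) = q := by
    have h2 : wt χ (fun y => F (ConjClasses.mk (id y))) = Nat.card T / χ 1 := by
      rw [wt, ← hχ.sum_self]
      congr 1
      refine Finset.sum_congr rfl fun y _ => ?_
      rw [id, hF, mul_comm]
    rw [h2, hq]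
    have := hχ.one_ne_zero
    field_simp
  have hw : ∀ x : T, wt χ (fun y => if ConjClasses.mk (id y) = ConjClasses.mk x then
      (1 : ℂ) else 0) = w χ x := by
    intro x
    rw [w]
    congr 1
    funext y
    rw [conjInd, id, MonoidHom.id_apply]
    by_cases hc : IsConj y x
    · rw [if_pos hc, if_pos (ConjClasses.mk_eq_mk_iff_isConj.mpr hc)]
    · rw [if_neg hc, if_neg (fun h => hc (ConjClasses.mk_eq_mk_iff_isConj.mp h))]
  rw [← h1, wt_comp_classes, red_sum] at h0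
  · obtain ⟨L, _, hL⟩ := Finset.exists_ne_zero_of_sum_ne_zero h0
    obtain ⟨x, rfl⟩ := L.exists_rep
    change red 𝔐 (F (ConjClasses.mk x) * wt χ (fun y => if ConjClasses.mk (id y) =
      ConjClasses.mk x then (1 : ℂ) else 0)) ≠ 0 at hL
    rw [hF, hw, red_mul 𝔐 (isIntegral_char hχ _) (isIntegral_w hχ x)] at hL
    exact ⟨x, fun h => hL (by rw [h, mul_zero]), fun h => hL (by rw [h, zero_mul])⟩
  · intro L _
    obtain ⟨x, rfl⟩ := ConjClasses.mk_surjective L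
    rw [hF, hw]
    exact (isIntegral_char hχ _).mul (isIntegral_w hχ x)

/-- (1) -/
theorem part1 [h𝔐 : 𝔐.IsPrime] (hℓ : (ℓ : integralClosure ℤ ℂ) ∈ 𝔐) {χ : T → ℂ}
    (hχ : IsIrr χ) (hD : D1 ℓ (cen 𝔐 (MonoidHom.id T) χ)) :
    ∃ m : ℕ, ¬ ℓ ∣ m ∧ (Nat.card T : ℂ) = ℓ * m * χ 1 := by
  have hp : ℓ.Prime := Fact.out
  obtain ⟨n, hn0, hn⟩ := hχ.exists_degree
  obtain ⟨q, hq⟩ := hχ.degree_dvd hn
  have hqc : (Nat.card T : ℂ) = (q : ℂ) * χ 1 := by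
    rw [hn, hq]
    push_cast
    ring
  have hdvd : ℓ ∣ q := by
    by_contra hnd
    obtain ⟨x, hx1, hx2⟩ := exists_class 𝔐 hχ hqc (red_card_ne_zero 𝔐 hℓ hnd)
    apply hx2
    apply red_cancel 𝔐 hℓ hnd (isIntegral_char hχ _)
    rw [← mul_w hχ x⁻¹ hqc, centralizer_inv]
    exact red_mul_of_dvd 𝔐 hℓ (hD.2 x hx1) (isIntegral_w hχ _)
  obtain ⟨m, rfl⟩ := hdvd
  refine ⟨m, ?_, ?_⟩
  · rintro ⟨m', rfl⟩
    obtain ⟨x₀, hx0, hsq⟩ := hD.1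
    obtain ⟨c, hc⟩ := hD.2 x₀ hx0
    apply hx0
    rw [cen_eq]
    have hcn : ¬ ℓ ∣ c := by
      rintro ⟨d, rfl⟩
      apply hsq
      rw [hc]
      exact ⟨d, by ring⟩
    apply red_cancel 𝔐 hℓ hcn (isIntegral_w hχ _)
    have h1 := mul_w hχ x₀ hqc
    rw [hc] at h1
    have hl0 : (ℓ : ℂ) ≠ 0 := by exact_mod_cast hp.ne_zero
    have h2 : (c : ℂ) * w χ x₀ = ((ℓ * m' : ℕ) : ℂ) * χ x₀ := by
      apply mul_left_cancel₀ hl0
      push_cast at h1 ⊢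
      linear_combination h1
    rw [h2]
    exact red_mul_of_dvd 𝔐 hℓ (Dvd.intro _ rfl) (isIntegral_char hχ _)
  · rw [hqc]
    push_cast
    ring

/-- (2) -/
theorem part2 [h𝔐 : 𝔐.IsPrime] (hℓ : (ℓ : integralClosure ℤ ℂ) ∈ 𝔐) {χ : T → ℂ}
    (hχ : IsIrr χ) (h : ∃ m : ℕ, ¬ ℓ ∣ m ∧ (Nat.card T : ℂ) = ℓ * m * χ 1) (x : T)
    (hx : cen 𝔐 (MonoidHom.id T) χ x ≠ 0) :
    ℓ ∣ Nat.card (Subgroup.centralizer ({x} : Set T)) := by
  obtain ⟨m, -, hm⟩ := h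
  by_contra hnd
  apply hx
  rw [cen_eq]
  apply red_cancel 𝔐 hℓ hnd (isIntegral_w hχ _)
  have hm' : (Nat.card T : ℂ) = ((ℓ * m : ℕ) : ℂ) * χ 1 := by
    rw [hm]
    push_cast
    ring
  rw [mul_w hχ x hm']
  exact red_mul_of_dvd 𝔐 hℓ (Dvd.intro _ rfl) (isIntegral_char hχ _)

/-- (3) -/
theorem part3 [h𝔐 : 𝔐.IsPrime] (hℓ : (ℓ : integralClosure ℤ ℂ) ∈ 𝔐) {χ : T → ℂ}
    (hχ : IsIrr χ) (P : Subgroup T) (hP : P.Normal) (hPc : Nat.card P = ℓ) (x₀ : T)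
    (hsq : ¬ ℓ ^ 2 ∣ Nat.card (Subgroup.centralizer ({x₀} : Set T)))
    (hx₀ : cen 𝔐 (MonoidHom.id T) χ x₀ ≠ 0) : D1 ℓ (cen 𝔐 (MonoidHom.id T) χ) := by
  refine ⟨⟨x₀, hx₀, hsq⟩, ?_⟩
  intro x hx
  have hPG : IsPGroup ℓ P := IsPGroup.of_card (n := 1) (by rw [hPc, pow_one])
  have hex : ∃ y : T, IsConj y x ∧ ∀ u ∈ P, u * y = y * u := by
    by_contra hno
    push Not at hno
    apply hx
    rw [cen_eq, w]
    have h1 := red_wt_eq 𝔐 hℓ hχ P hPG (fun y => conjInd (MonoidHom.id T y) x) (fun _ => 0)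
      (fun g y => by
        rw [map_mul, map_mul, map_inv, conjInd_conj])
      (fun y => isIntegral_conjInd _ _) (fun _ _ => rfl) (fun _ => isIntegral_zero) ?_
    · rw [h1]
      have h2 : wt χ (fun _ => (0 : ℂ)) = 0 := by simp [wt]
      rw [h2, red_zero]
    · intro y hy
      have h3 : conjInd (MonoidHom.id T y) x = 0 := by
        rw [conjInd, MonoidHom.id_apply, if_neg]
        intro hc
        obtain ⟨u, hu, hne⟩ := hno y hc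
        exact hne (hy u hu)
      rw [h3]
  obtain ⟨y, hyx, hy⟩ := hex
  obtain ⟨c, rfl⟩ := isConj_iff.mp hyx
  have hle : P ≤ Subgroup.centralizer ({c * y * c⁻¹} : Set T) := by
    intro u hu
    rw [Subgroup.mem_centralizer_singleton_iff]
    have h1 : c⁻¹ * u * c ∈ P := by
      have := hP.conj_mem u hu c⁻¹
      rwa [inv_inv] at this
    have h2 := hy _ h1
    calc u * (c * y * c⁻¹) = c * ((c⁻¹ * u * c) * y) * c⁻¹ := by group
      _ = c * (y * (c⁻¹ * u * c)) * c⁻¹ := by rw [h2]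
      _ = c * y * c⁻¹ * u := by group
  rw [← hPc]
  exact Subgroup.card_dvd_of_le hle

end DF1

theorem DF1_thm : Stmt_DF1 := by
  intro T _ _ 𝔐 ℓ _ h𝔐 hℓ χ hχ
  have : 𝔐.IsPrime := h𝔐.isPrime
  refine ⟨fun h => DF1.part1 𝔐 hℓ hχ h, fun h x hx => DF1.part2 𝔐 hℓ hχ h x hx, ?_⟩
  intro P hP hPc x₀ _ hsq hx₀
  exact DF1.part3 𝔐 hℓ hχ P hP hPc x₀ hsq hx₀

end Pool.Agent.DPW


end

section

/-!
# Module REDX: the value modulo `𝔐` at an element centralized by the defect group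
-/

namespace Pool.Agent.DPX

open Pool.Agent.DP Pool.Agent.DPV Pool.Agent.DPB Pool.Agent.DPW Pool.Agent.Lib_helper13
open Representation

namespace REDX

variable {N : Type} [Group N] [Fintype N] (C : Subgroup N) [C.Normal]

/-- The conjugate of a function on a normal subgroup. -/
def cj (g : N) (φ : C → ℂ) : C → ℂ := fun c => φ (MulAut.conjNormal g c)

omit [Fintype N] in
theorem cj_mul (g h : N) (φ : C → ℂ) : cj C (g * h) φ = cj C h (cj C g φ) := by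
  funext c
  simp only [cj, map_mul, MulAut.mul_apply]

omit [Fintype N] in
theorem cj_one (φ : C → ℂ) : cj C 1 φ = φ := by
  funext c
  simp only [cj, map_one, MulAut.one_apply]

open Classical in
/-- Averaging over the conjugates of a block. -/
theorem avg (𝔐 : Ideal (integralClosure ℤ ℂ))
    (hI : ∀ (φ : C → ℂ) (g : N), IsIrr φ → IsIrr (cj C g φ) ∧
      ∀ x, cen 𝔐 (MonoidHom.id C) (cj C g φ) x =
        cen 𝔐 (MonoidHom.id C) φ (MulAut.conjNormal g x)) (φ₀ : C → ℂ)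
    (F : (C → ℂ) → ℂ) :
    ∑ g : N, ∑ φ ∈ irrF C with cen 𝔐 (MonoidHom.id C) φ = cen 𝔐 (MonoidHom.id C) φ₀,
        F (cj C g φ) =
      (Nat.card (bS 𝔐 C φ₀) : ℂ) * ∑ φ ∈ irrF C with
        (∃ g : N, cen 𝔐 (MonoidHom.id C) (cj C g φ) = cen 𝔐 (MonoidHom.id C) φ₀), F φ := by
  have h1 : ∀ g : N, ∑ φ ∈ irrF C with cen 𝔐 (MonoidHom.id C) φ =
      cen 𝔐 (MonoidHom.id C) φ₀, F (cj C g φ) =
      ∑ φ ∈ irrF C, if cen 𝔐 (MonoidHom.id C) (cj C g⁻¹ φ) = cen 𝔐 (MonoidHom.id C) φ₀ then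
        F φ else 0 := by
    intro g
    rw [Finset.sum_filter]
    refine Finset.sum_bij' (fun φ _ => cj C g φ) (fun φ _ => cj C g⁻¹ φ) ?_ ?_ ?_ ?_ ?_
    · intro φ hφ
      exact mem_irrF.mpr (hI φ g (mem_irrF.mp hφ)).1
    · intro φ hφ
      exact mem_irrF.mpr (hI φ g⁻¹ (mem_irrF.mp hφ)).1
    · intro φ _
      rw [← cj_mul, mul_inv_cancel, cj_one]
    · intro φ _
      rw [← cj_mul, inv_mul_cancel, cj_one]
    · intro φ _
      have h2 : cj C g⁻¹ (cj C g φ) = φ := by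
        rw [← cj_mul, mul_inv_cancel, cj_one]
      rw [h2]
  have h3 : ∑ g : N, ∑ φ ∈ irrF C with cen 𝔐 (MonoidHom.id C) φ =
      cen 𝔐 (MonoidHom.id C) φ₀, F (cj C g φ) =
      ∑ φ ∈ irrF C, ∑ g : N, if cen 𝔐 (MonoidHom.id C) (cj C g⁻¹ φ) =
        cen 𝔐 (MonoidHom.id C) φ₀ then F φ else 0 := by
    rw [Finset.sum_congr rfl fun g _ => h1 g]
    exact Finset.sum_comm
  rw [h3, Finset.sum_filter, Finset.mul_sum]
  refine Finset.sum_congr rfl fun φ hφ => ?_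
  by_cases h4 : ∃ g : N, cen 𝔐 (MonoidHom.id C) (cj C g φ) = cen 𝔐 (MonoidHom.id C) φ₀
  · rw [if_pos h4]
    obtain ⟨g₁, hg₁⟩ := h4
    have h5 : ∀ h : N, cen 𝔐 (MonoidHom.id C) (cj C (g₁ * h) φ) =
        cen 𝔐 (MonoidHom.id C) φ₀ ↔ h ∈ bS 𝔐 C φ₀ := by
      intro h
      have h6 : ∀ x, cen 𝔐 (MonoidHom.id C) (cj C (g₁ * h) φ) x =
          cen 𝔐 (MonoidHom.id C) φ₀ (MulAut.conjNormal h x) := by
        intro x
        rw [cj_mul, (hI (cj C g₁ φ) h (hI φ g₁ (mem_irrF.mp hφ)).1).2 x, hg₁]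
      constructor
      · intro h7 x
        rw [← h6 x, h7]
      · intro h7
        funext x
        rw [h6 x]
        exact h7 x
    calc ∑ g : N, (if cen 𝔐 (MonoidHom.id C) (cj C g⁻¹ φ) =
          cen 𝔐 (MonoidHom.id C) φ₀ then F φ else 0)
        = ∑ g : N, (if cen 𝔐 (MonoidHom.id C) (cj C g φ) =
          cen 𝔐 (MonoidHom.id C) φ₀ then F φ else 0) :=
          Fintype.sum_equiv (Equiv.inv N) _ _ fun g => rfl
      _ = ∑ h : N, (if cen 𝔐 (MonoidHom.id C) (cj C (g₁ * h) φ) =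
          cen 𝔐 (MonoidHom.id C) φ₀ then F φ else 0) :=
          (Fintype.sum_equiv (Equiv.mulLeft g₁) _ _ fun g => rfl).symm
      _ = ∑ h : N, (if h ∈ bS 𝔐 C φ₀ then F φ else 0) := by
          refine Finset.sum_congr rfl fun h _ => ?_
          exact if_congr (h5 h) rfl rfl
      _ = (Nat.card (bS 𝔐 C φ₀) : ℂ) * F φ := by
          rw [← Finset.sum_filter, Finset.sum_const, nsmul_eq_mul, Nat.card_eq_fintype_card,
            Fintype.card_subtype]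
  · rw [if_neg h4, mul_zero]
    refine Finset.sum_eq_zero fun g _ => ?_
    rw [if_neg]
    intro h5
    exact h4 ⟨_, h5⟩

omit [C.Normal] [Fintype N] in
/-- Expansion of the restriction of a character. -/
theorem expC [Fintype C] {f : N → ℂ} (hf : ∀ g x, f (g * x * g⁻¹) = f x) (c : C) :
    f c = ∑ φ ∈ irrF C, ip (fun c : C => f c) φ * φ c := by
  have h1 := class_fn_expand (fun c : C => f c) (by
    intro g x
    exact hf g x)
  exact congrFun h1 c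

omit [C.Normal] in
/-- The part of a class function which belongs to a block, restricted to `C`. -/
theorem part [Fintype C] (f : N → ℂ) (hf : ∀ g x, f (g * x * g⁻¹) = f x) (p : (N → ℂ) → Prop)
    (q : (C → ℂ) → Prop) [DecidablePred p] [DecidablePred q]
    (hpq : ∀ (ψ : N → ℂ) (φ : C → ℂ), IsIrr ψ → IsIrr φ → ip (fun c : C => ψ c) φ ≠ 0 →
      (p ψ ↔ q φ)) (c : C) :
    ∑ ψ ∈ irrF N with p ψ, ip f ψ * ψ c =
      ∑ φ ∈ irrF C with q φ, ip (fun c : C => f c) φ * φ c := by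
  have h1 : ∑ ψ ∈ irrF N with p ψ, ip f ψ * ψ c =
      ∑ φ ∈ irrF C, (∑ ψ ∈ irrF N with p ψ, ip f ψ * ip (fun c : C => ψ c) φ) * φ c := by
    calc ∑ ψ ∈ irrF N with p ψ, ip f ψ * ψ c
        = ∑ ψ ∈ irrF N with p ψ, ∑ φ ∈ irrF C, ip f ψ * ip (fun c : C => ψ c) φ * φ c := by
          refine Finset.sum_congr rfl fun ψ hψ => ?_
          have h2 := expC C (f := ψ) (fun g x =>
            (mem_irrF.mp (Finset.mem_filter.mp hψ).1).conj_eq g x) c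
          rw [h2, Finset.mul_sum]
          exact Finset.sum_congr rfl fun φ _ => by ring
      _ = ∑ φ ∈ irrF C, (∑ ψ ∈ irrF N with p ψ, ip f ψ * ip (fun c : C => ψ c) φ) * φ c := by
          rw [Finset.sum_comm]
          refine Finset.sum_congr rfl fun φ _ => ?_
          rw [Finset.sum_mul]
  rw [h1, Finset.sum_filter (s := irrF C)]
  refine Finset.sum_congr rfl fun φ hφ => ?_
  by_cases hq : q φ
  · rw [if_pos hq]
    congr 1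
    have h3 : ip (fun c : C => f c) φ = ∑ ψ ∈ irrF N, ip f ψ * ip (fun c : C => ψ c) φ := by
      have h4 : (fun c : C => f c) = fun c : C => ∑ ψ ∈ irrF N, ip f ψ * ψ c := by
        funext c
        exact congrFun (class_fn_expand f hf) (c : N)
      rw [h4]
      exact ip_sum (irrF N) (fun ψ => ip f ψ) (fun ψ (c : C) => ψ c) φ
    rw [h3, Finset.sum_filter]
    refine Finset.sum_congr rfl fun ψ hψ => ?_
    by_cases hp : p ψ
    · rw [if_pos hp]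
    · rw [if_neg hp]
      by_cases h5 : ip (fun c : C => ψ c) φ = 0
      · rw [h5, mul_zero]
      · exact absurd ((hpq ψ φ (mem_irrF.mp hψ) (mem_irrF.mp hφ) h5).mpr hq) hp
  · rw [if_neg hq]
    have h3 : ∑ ψ ∈ irrF N with p ψ, ip f ψ * ip (fun c : C => ψ c) φ = 0 := by
      refine Finset.sum_eq_zero fun ψ hψ => ?_
      obtain ⟨hψ1, hψ2⟩ := Finset.mem_filter.mp hψ
      by_cases h5 : ip (fun c : C => ψ c) φ = 0
      · rw [h5, mul_zero]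
      · exact absurd ((hpq ψ φ (mem_irrF.mp hψ1) (mem_irrF.mp hφ) h5).mp hψ2) hq
    rw [h3, zero_mul]

/-- The part of an irreducible character. -/
theorem part_irr {ψ₀ : N → ℂ} (hψ₀ : IsIrr ψ₀) (p : (N → ℂ) → Prop) [DecidablePred p]
    (hp : p ψ₀) (x : N) :
    ∑ ψ ∈ irrF N with p ψ, ip ψ₀ ψ * ψ x = ψ₀ x := by
  rw [Finset.sum_eq_single ψ₀]
  · rw [ip_self hψ₀, one_mul]
  · intro ψ hψ hne
    rw [ip_ne hψ₀ (mem_irrF.mp (Finset.mem_filter.mp hψ).1) (Ne.symm hne), zero_mul]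
  · intro h
    exact absurd (Finset.mem_filter.mpr ⟨mem_irrF.mpr hψ₀, hp⟩) h

/-- Multiplicities are invariant under conjugation. -/
theorem ip_cj (f : N → ℂ) (hf : ∀ g x, f (g * x * g⁻¹) = f x) (g : N) (φ : C → ℂ) :
    ip (fun c : C => f c) (cj C g φ) = ip (fun c : C => f c) φ := by
  rw [ip, ip]
  congr 1
  refine Fintype.sum_equiv (MulAut.conjNormal g : MulAut C).toEquiv _ _ fun c => ?_
  have h1 : (MulAut.conjNormal g : MulAut C).toEquiv c = MulAut.conjNormal g c := rfl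
  have h2 : f ((MulAut.conjNormal g c : C) : N) = f (c : N) := by
    rw [MulAut.conjNormal_apply]
    exact hf g c
  simp only [h1, h2, cj, map_inv]

open Classical in
/-- The main computation. -/
theorem avg_val (𝔐 : Ideal (integralClosure ℤ ℂ))
    (hI : ∀ (φ : C → ℂ) (g : N), IsIrr φ → IsIrr (cj C g φ) ∧
      ∀ x, cen 𝔐 (MonoidHom.id C) (cj C g φ) x =
        cen 𝔐 (MonoidHom.id C) φ (MulAut.conjNormal g x)) (φ₀ : C → ℂ)
    (b : (C → ℂ) → ℂ) (hb : ∀ (g : N) (φ : C → ℂ), b (cj C g φ) = b φ) (x : C)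
    (hx : ∀ φ : C → ℂ, IsIrr φ → cen 𝔐 (MonoidHom.id C) φ = cen 𝔐 (MonoidHom.id C) φ₀ →
      ∀ g : N, φ (MulAut.conjNormal g x) = φ₀ (MulAut.conjNormal g x)) :
    (Nat.card (bS 𝔐 C φ₀) : ℂ) * ∑ φ ∈ irrF C with
        (∃ g : N, cen 𝔐 (MonoidHom.id C) (cj C g φ) = cen 𝔐 (MonoidHom.id C) φ₀), b φ * φ x =
      (∑ φ ∈ irrF C with cen 𝔐 (MonoidHom.id C) φ = cen 𝔐 (MonoidHom.id C) φ₀, b φ) *
        ∑ g : N, φ₀ (MulAut.conjNormal g x) := by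
  rw [← avg C 𝔐 hI φ₀ (fun φ => b φ * φ x), Finset.mul_sum]
  refine Finset.sum_congr rfl fun g _ => ?_
  rw [Finset.sum_mul]
  refine Finset.sum_congr rfl fun φ hφ => ?_
  obtain ⟨h1, h2⟩ := Finset.mem_filter.mp hφ
  rw [hb g φ, ← hx φ (mem_irrF.mp h1) h2 g]
  rfl

/-- The algebra at the end. -/
theorem fin_alg {e m L A c'' w Th f0 p0 px S0 S1 c0 B Cc Nn q Cx : ℂ}
    (hB : B = Cc * e) (hB0 : B ≠ 0) (hC0 : Cc ≠ 0) (hp0 : p0 ≠ 0)
    (hC : Cc = L * m * f0) (hCx : Cx = L * c'') (hN : Nn = q * p0)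
    (hw : Cx * w = q * px) (hS1 : S1 = Nn * f0)
    (h1 : B * Th = A * S0) (h2 : B * px = c0 * S0) (h3 : B * p0 = c0 * S1) :
    e * m * Th = A * c'' * w := by
  have h4 : S0 * p0 = Nn * f0 * px := by
    apply mul_left_cancel₀ hB0
    calc B * (S0 * p0) = S0 * (B * p0) := by ring
      _ = (c0 * S0) * S1 := by rw [h3]; ring
      _ = B * px * (Nn * f0) := by rw [← h2, hS1]
      _ = B * (Nn * f0 * px) := by ring
  have h5 : S0 = f0 * (Cx * w) := by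
    apply mul_right_cancel₀ hp0
    rw [h4, hN, hw]
    ring
  apply mul_left_cancel₀ hC0
  calc Cc * (e * m * Th) = m * (B * Th) := by rw [hB]; ring
    _ = m * (A * (f0 * (Cx * w))) := by rw [h1, h5]
    _ = A * (L * m * f0) * c'' * w := by rw [hCx]; ring
    _ = Cc * (A * c'' * w) := by rw [← hC]; ring

open Classical in
/-- The relation between the value of the part of the block and the weight. -/
theorem relation (𝔐 : Ideal (integralClosure ℤ ℂ)) {ℓ n : ℕ}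
    (hI : ∀ (φ : C → ℂ) (g : N), IsIrr φ → IsIrr (cj C g φ) ∧
      ∀ x, cen 𝔐 (MonoidHom.id C) (cj C g φ) x =
        cen 𝔐 (MonoidHom.id C) φ (MulAut.conjNormal g x)) {φ₀ : C → ℂ}
    {ψ₀ : N → ℂ} (hψ₀ : IsIrr ψ₀)
    (hJ : ∀ (ψ : N → ℂ) (φ : C → ℂ), IsIrr ψ → IsIrr φ → ip (fun c : C => ψ c) φ ≠ 0 →
      (cen 𝔐 (MonoidHom.id N) ψ = cen 𝔐 (MonoidHom.id N) ψ₀ ↔
        ∃ g : N, cen 𝔐 (MonoidHom.id C) (cj C g φ) = cen 𝔐 (MonoidHom.id C) φ₀))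
    (hle : C ≤ bS 𝔐 C φ₀)
    (hreg : ∀ φ : C → ℂ, IsIrr φ → cen 𝔐 (MonoidHom.id C) φ = cen 𝔐 (MonoidHom.id C) φ₀ →
      φ 1 = φ₀ 1 ∧ ∀ g, ¬ ℓ ∣ orderOf g → φ g = φ₀ g)
    {m : ℕ} (hcC : (Nat.card C : ℂ) = ℓ ^ n * m * φ₀ 1) (x : C) (hx : ¬ ℓ ∣ orderOf x)
    {c'' : ℕ} (hcx : (Nat.card (Subgroup.centralizer ({(x : N)} : Set N)) : ℂ) = ℓ ^ n * c'')
    (f : N → ℂ) (hf : ∀ g x, f (g * x * g⁻¹) = f x) (a : (C → ℂ) → ℤ)
    (ha : ∀ (g : N) (φ : C → ℂ), a (cj C g φ) = a φ)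
    (haf : ∀ φ : C → ℂ, IsIrr φ → (a φ : ℂ) = ip (fun c : C => f c) φ) :
    ∃ e : ℕ, (e : ℂ) * m * (∑ ψ ∈ irrF N with cen 𝔐 (MonoidHom.id N) ψ =
        cen 𝔐 (MonoidHom.id N) ψ₀, ip f ψ * ψ x) =
      ((∑ φ ∈ irrF C with cen 𝔐 (MonoidHom.id C) φ = cen 𝔐 (MonoidHom.id C) φ₀, a φ : ℤ) : ℂ) *
        c'' * DF1.w ψ₀ (x : N) := by
  obtain ⟨e, he⟩ := Subgroup.card_dvd_of_le hle
  have hp0 : ψ₀ 1 ≠ 0 := hψ₀.one_ne_zero
  have hordx : ∀ g : N, ¬ ℓ ∣ orderOf (MulAut.conjNormal g x : C) := by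
    intro g
    rw [MulEquiv.orderOf_eq]
    exact hx
  have hval : ∀ φ : C → ℂ, IsIrr φ →
      cen 𝔐 (MonoidHom.id C) φ = cen 𝔐 (MonoidHom.id C) φ₀ →
      ∀ g : N, φ (MulAut.conjNormal g x) = φ₀ (MulAut.conjNormal g x) :=
    fun φ h1 h2 g => (hreg φ h1 h2).2 _ (hordx g)
  have hval1 : ∀ φ : C → ℂ, IsIrr φ →
      cen 𝔐 (MonoidHom.id C) φ = cen 𝔐 (MonoidHom.id C) φ₀ →
      ∀ g : N, φ (MulAut.conjNormal g 1) = φ₀ (MulAut.conjNormal g 1) := by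
    intro φ h1 h2 g
    rw [map_one]
    exact (hreg φ h1 h2).1
  have hTh : ∑ ψ ∈ irrF N with cen 𝔐 (MonoidHom.id N) ψ =
      cen 𝔐 (MonoidHom.id N) ψ₀, ip f ψ * ψ x =
      ∑ φ ∈ irrF C with (∃ g : N, cen 𝔐 (MonoidHom.id C) (cj C g φ) =
        cen 𝔐 (MonoidHom.id C) φ₀), (a φ : ℂ) * φ x := by
    refine (part C f hf (fun ψ => cen 𝔐 (MonoidHom.id N) ψ = cen 𝔐 (MonoidHom.id N) ψ₀)
      (fun φ => ∃ g : N, cen 𝔐 (MonoidHom.id C) (cj C g φ) = cen 𝔐 (MonoidHom.id C) φ₀)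
      hJ x).trans ?_
    refine Finset.sum_congr rfl fun φ hφ => ?_
    rw [haf φ (mem_irrF.mp (Finset.mem_filter.mp hφ).1)]
  have hpx : ∀ y : C, ψ₀ y = ∑ φ ∈ irrF C with (∃ g : N, cen 𝔐 (MonoidHom.id C) (cj C g φ) =
      cen 𝔐 (MonoidHom.id C) φ₀), ip (fun c : C => ψ₀ c) φ * φ y := by
    intro y
    refine Eq.trans ?_ (part C ψ₀ (fun g x => hψ₀.conj_eq g x)
      (fun ψ => cen 𝔐 (MonoidHom.id N) ψ = cen 𝔐 (MonoidHom.id N) ψ₀)
      (fun φ => ∃ g : N, cen 𝔐 (MonoidHom.id C) (cj C g φ) = cen 𝔐 (MonoidHom.id C) φ₀)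
      hJ y)
    exact (part_irr hψ₀ (fun ψ => cen 𝔐 (MonoidHom.id N) ψ = cen 𝔐 (MonoidHom.id N) ψ₀) rfl
      (y : N)).symm
  have e1 := avg_val C 𝔐 hI φ₀ (fun φ => (a φ : ℂ)) (fun g φ => by
    simp only [ha g φ]) x hval
  have e2 := avg_val C 𝔐 hI φ₀ (fun φ => ip (fun c : C => ψ₀ c) φ)
    (fun g φ => ip_cj C ψ₀ (fun g x => hψ₀.conj_eq g x) g φ) x hval
  have e3 := avg_val C 𝔐 hI φ₀ (fun φ => ip (fun c : C => ψ₀ c) φ)
    (fun g φ => ip_cj C ψ₀ (fun g x => hψ₀.conj_eq g x) g φ) 1 hval1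
  rw [← hTh] at e1
  rw [← hpx x] at e2
  rw [← hpx 1] at e3
  have hS1 : ∑ g : N, φ₀ (MulAut.conjNormal g 1) = (Nat.card N : ℂ) * φ₀ 1 := by
    simp only [map_one]
    rw [Finset.sum_const, Finset.card_univ, nsmul_eq_mul, Nat.card_eq_fintype_card]
  have hB : (Nat.card (bS 𝔐 C φ₀) : ℂ) = (Nat.card C : ℂ) * e := by
    exact_mod_cast he
  have hN : (Nat.card N : ℂ) = ((Nat.card N : ℂ) / ψ₀ 1) * ψ₀ 1 := by
    field_simp
  have hw := DF1.mul_w hψ₀ (x : N) hN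
  refine ⟨e, ?_⟩
  have hfin := fin_alg (e := (e : ℂ)) (m := (m : ℂ)) (L := (ℓ : ℂ) ^ n)
    (A := ∑ φ ∈ irrF C with cen 𝔐 (MonoidHom.id C) φ = cen 𝔐 (MonoidHom.id C) φ₀, (a φ : ℂ))
    (c'' := (c'' : ℂ)) (w := DF1.w ψ₀ (x : N)) (f0 := φ₀ 1) (p0 := ψ₀ 1) (px := ψ₀ (x : N))
    (c0 := ∑ φ ∈ irrF C with cen 𝔐 (MonoidHom.id C) φ = cen 𝔐 (MonoidHom.id C) φ₀,
      ip (fun c : C => ψ₀ c) φ)
    hB natCard_ne_zero natCard_ne_zero hp0 hcC hcx hN hw hS1 e1 e2 (by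
      have h4 : ψ₀ ((1 : C) : N) = ψ₀ 1 := by rw [Subgroup.coe_one]
      rw [← h4]
      exact e3)
  rw [hfin]
  congr 2
  push_cast
  rfl

/-- An integer prime to `ℓ` may be cancelled. -/
theorem red_cancelZ (𝔐 : Ideal (integralClosure ℤ ℂ)) [h𝔐 : 𝔐.IsPrime] {ℓ : ℕ}
    [Fact ℓ.Prime] (hℓ : (ℓ : integralClosure ℤ ℂ) ∈ 𝔐) {A : ℤ} (hA : ¬ (ℓ : ℤ) ∣ A) {y : ℂ}
    (hy : IsIntegral ℤ y) (h : red 𝔐 ((A : ℂ) * y) = 0) : red 𝔐 y = 0 := by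
  have hA' : ¬ ℓ ∣ A.natAbs := fun h1 => hA (Int.natCast_dvd.mpr h1)
  have hi : IsIntegral ℤ (A : ℂ) := by
    have := isIntegral_algebraMap (R := ℤ) (A := ℂ) (x := A)
    simpa using this
  apply DF1.red_cancel 𝔐 hℓ hA' hy
  rcases Int.natAbs_eq A with h1 | h1
  · have h2 : (A.natAbs : ℂ) = (A : ℂ) := by
      have h3 : (((A.natAbs : ℤ)) : ℂ) = (A : ℂ) := by rw [← h1]
      rw [← h3, Int.cast_natCast]
    rw [h2]
    exact h
  · have h2 : (A.natAbs : ℂ) * y = ((-1 : ℤ) : ℂ) * ((A : ℂ) * y) := by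
      have h3 : (A : ℂ) = -(A.natAbs : ℂ) := by
        have h4 : (A : ℂ) = ((-(A.natAbs : ℤ) : ℤ) : ℂ) := by rw [← h1]
        rw [h4, Int.cast_neg, Int.cast_natCast]
      rw [h3]
      push_cast
      ring
    have hi1 : IsIntegral ℤ ((-1 : ℤ) : ℂ) := by
      have := isIntegral_algebraMap (R := ℤ) (A := ℂ) (x := -1)
      simpa using this
    rw [h2, red_mul 𝔐 hi1 (hi.mul hy), h, mul_zero]

end REDX

open Classical in
theorem REDX_thm (h1 : Stmt_MT2X) (h2 : Stmt_ATNX) (h3 : Stmt_ATCX) (h4 : Stmt_ORBX)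
    (h5 : Stmt_REGX) (h6 : Stmt_FRXX) : Stmt_REDX := by
  intro T _ _ 𝔐 ℓ n _ hM hℓ χ hχ P₁ P _ x₁ hat hx1 C _ hC ψ₀ φ₀ hψ₀ hφ₀ hcen hip a ha1 ha2 hA
  have hprime : 𝔐.IsPrime := hM.isPrime
  have hcomm : ∀ u ∈ P₁, u * x₁ = x₁ * u := fun u hu => hat.cd.cen u (hat.cd.le hu)
  have hxN : x₁ ∈ Subgroup.normalizer (P₁ : Set T) := by
    rw [Subgroup.mem_normalizer_iff]
    intro h
    constructor
    · intro hh
      rw [← hcomm h hh, mul_inv_cancel_right]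
      exact hh
    · intro hh
      have h7 := hcomm _ hh
      have h8 : x₁ * h * x₁⁻¹ = h := by
        have h9 : x₁ * h * x₁⁻¹ * x₁ = x₁ * h := by group
        rw [h9] at h7
        exact (mul_left_cancel h7).symm
      rw [h8] at hh
      exact hh
  have hcard : Nat.card (P₁.subgroupOf (Subgroup.normalizer (P₁ : Set T))) = ℓ := by
    rw [Nat.card_congr (Subgroup.subgroupOfEquivOfLe Subgroup.le_normalizer).toEquiv]
    exact hat.cd.c1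
  have hxC : (⟨x₁, hxN⟩ : NP P₁) ∈ C := by
    rw [hC, Subgroup.mem_centralizer_iff]
    intro h hh
    apply Subtype.ext
    exact hcomm _ (Subgroup.mem_subgroupOf.mp hh)
  obtain ⟨hatN, hiffN⟩ := h2 T 𝔐 ℓ n hM hℓ χ hχ P₁ P x₁ hat hxN ψ₀ hψ₀ hcen
  obtain ⟨P', x', g', -, -, hatC⟩ := h3 (NP P₁) 𝔐 ℓ n hM hℓ _ _ _ ψ₀ hψ₀ hatN C hC φ₀ hφ₀ hip
  obtain ⟨hle, -⟩ := h6 (NP P₁) 𝔐 ℓ n hM hℓ _ C hcard hC φ₀ P' x' hφ₀ hatC
  have hcenter : (P₁.subgroupOf (Subgroup.normalizer (P₁ : Set T))).subgroupOf C ≤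
      Subgroup.center C := by
    intro y hy
    rw [Subgroup.mem_center_iff]
    intro g
    apply Subtype.ext
    have h7 : (g : NP P₁) ∈ Subgroup.centralizer
        ((P₁.subgroupOf (Subgroup.normalizer (P₁ : Set T)) : Subgroup (NP P₁)) :
          Set (NP P₁)) := by
      rw [← hC]
      exact g.2
    exact (Subgroup.mem_centralizer_iff.mp h7 _ (Subgroup.mem_subgroupOf.mp hy)).symm
  obtain ⟨hreg, -, m, -, hcC⟩ := h5 C 𝔐 ℓ n hM hℓ _ P' x' hcenter φ₀ hφ₀ hatC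
  obtain ⟨hJ, hI⟩ := h4 (NP P₁) 𝔐 ℓ hM hℓ _ hcard C hC ψ₀ hψ₀ φ₀ hφ₀ hip
  obtain ⟨c'', hc''⟩ := hatN.mn _ hatN.ne
  have hc3 : ¬ ℓ ∣ c'' := by
    rintro ⟨d, hd⟩
    apply hatN.cd.sq
    rw [hc'', hd]
    exact ⟨d, by ring⟩
  have hordx : ¬ ℓ ∣ orderOf (⟨⟨x₁, hxN⟩, hxC⟩ : C) := by
    rw [← Subgroup.orderOf_coe, ← Subgroup.orderOf_coe]
    exact hx1
  obtain ⟨e, he⟩ := REDX.relation C 𝔐 (fun φ g hφ => hI φ g hφ) hψ₀ hJ hle hreg hcC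
    ⟨⟨x₁, hxN⟩, hxC⟩ hordx (c'' := c'') (by
      rw [hc'']
      push_cast
      ring) (fun g : NP P₁ => χ g) (fun g x => by
      exact hχ.conj_eq (g : T) (x : T)) a ha1 ha2
  have hfil : ∑ ψ ∈ irrF (NP P₁) with cen 𝔐 (MonoidHom.id (NP P₁)) ψ =
        cen 𝔐 (MonoidHom.id (NP P₁)) ψ₀, ip (fun g : NP P₁ => χ g) ψ * ψ ⟨x₁, hxN⟩ =
      ∑ ψ ∈ irrF (NP P₁) with cen 𝔐 (Subgroup.normalizer (P₁ : Set T)).subtype ψ =
        cen 𝔐 (MonoidHom.id T) χ, ip (fun g : NP P₁ => χ g) ψ * ψ ⟨x₁, hxN⟩ := by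
    refine Finset.sum_congr (Finset.filter_congr fun ψ hψ => ?_) fun _ _ => rfl
    exact hiffN ψ (mem_irrF.mp hψ)
  have hmt := (h1 T 𝔐 ℓ n hM hℓ χ hχ P₁ P x₁ hat).2 ⟨x₁, hxN⟩ hat.cd.cen
  intro h0
  have hint : ∀ ψ ∈ irrF (NP P₁), IsIntegral ℤ
      (ip (fun g : NP P₁ => χ g) ψ * ψ ⟨x₁, hxN⟩) := by
    intro ψ hψ
    obtain ⟨k, hk⟩ := (hχ.isChr.comp (Subgroup.normalizer (P₁ : Set T)).subtype).exists_ip
      (mem_irrF.mp hψ).isChr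
    have hk' : ip (fun g : NP P₁ => χ g) ψ = k := hk
    rw [hk']
    exact (Lib_helper13.isIntegral_natCast k).mul (isIntegral_char (mem_irrF.mp hψ) _)
  have hThint : IsIntegral ℤ (∑ ψ ∈ irrF (NP P₁) with cen 𝔐 (MonoidHom.id (NP P₁)) ψ =
        cen 𝔐 (MonoidHom.id (NP P₁)) ψ₀, ip (fun g : NP P₁ => χ g) ψ * ψ ⟨x₁, hxN⟩) :=
    isIntegral_sum _ _ fun ψ hψ => hint ψ (Finset.mem_filter.mp hψ).1
  have hTh0 : red 𝔐 (∑ ψ ∈ irrF (NP P₁) with cen 𝔐 (MonoidHom.id (NP P₁)) ψ =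
        cen 𝔐 (MonoidHom.id (NP P₁)) ψ₀, ip (fun g : NP P₁ => χ g) ψ * ψ ⟨x₁, hxN⟩) = 0 := by
    rw [hfil, ← hmt]
    exact h0
  have hw := DF1.isIntegral_w hψ₀ (⟨x₁, hxN⟩ : NP P₁)
  have h10 : red 𝔐 (((∑ φ ∈ irrF C with cen 𝔐 (MonoidHom.id C) φ =
      cen 𝔐 (MonoidHom.id C) φ₀, a φ : ℤ) : ℂ) * ((c'' : ℂ) * DF1.w ψ₀ ⟨x₁, hxN⟩)) = 0 := by
    rw [← mul_assoc, ← he, red_mul 𝔐 ?_ hThint, hTh0, mul_zero]
    exact (Lib_helper13.isIntegral_natCast e).mul (Lib_helper13.isIntegral_natCast m)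
  have h11 := REDX.red_cancelZ 𝔐 hℓ hA ((Lib_helper13.isIntegral_natCast c'').mul hw) h10
  have h12 := DF1.red_cancel 𝔐 hℓ hc3 hw h11
  exact hatN.ne h12

end Pool.Agent.DPX


end

section

/-!
# Module HGTX: the degrees of the characters of a block with cyclic defect groups
-/

namespace Pool.Agent.DPX

open Pool.Agent.DP Pool.Agent.DPV Pool.Agent.DPB Pool.Agent.DPW Pool.Agent.Lib_helper13
open Representation

namespace HGTX

section Res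

variable {ℓ : ℕ} {𝔐 : Ideal (integralClosure ℤ ℂ)} {O : ValuationSubring ℂ}

/-- the kernel of the reduction -/
theorem res_zero (h : VR ℓ 𝔐 O) (x : integralClosure ℤ ℂ) (hx : x ∈ 𝔐) : h.res x = 0 := by
  have h1 : h.inc x ∈ IsLocalRing.maximalIdeal O := by
    rw [ValuationSubring.valuation_lt_one_iff]
    exact (h.max x).1 hx
  exact (IsLocalRing.residue_eq_zero_iff _).2 h1

theorem res_cv (h : VR ℓ 𝔐 O) {F T : Type} [Field F] [Group T] [Fintype T]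
    (r : integralClosure ℤ ℂ →+* F) (f : F →+* IsLocalRing.ResidueField O)
    (hf : ∀ x, f (r x) = h.res x) (a : T → integralClosure ℤ ℂ)
    (ha : cvF (fun x => r (a x)) (fun x => r (a x)) = fun x => r (a x)) :
    cvF (fun x => h.res (a x)) (fun x => h.res (a x)) = fun x => h.res (a x) := by
  funext x
  have h1 := congrArg f (congrFun ha x)
  rw [hf] at h1
  rw [← h1]
  unfold cvF
  rw [map_sum]
  refine Finset.sum_congr rfl fun y _ => ?_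
  rw [map_mul, hf, hf]

end Res

section Grp

variable {T : Type} [Group T] [Fintype T]

/-- the subgroup of order `ℓ` is contained in the subgroup generated by any element which is
not trivial -/
theorem le_zpowers {ℓ n : ℕ} [hp : Fact ℓ.Prime] {P₁ P : Subgroup T} (hle : P₁ ≤ P)
    (hc : IsCyclic P) (h1 : Nat.card P₁ = ℓ) (hn : Nat.card P = ℓ ^ n) {p : T} (hpP : p ∈ P)
    (hne : p ≠ 1) : P₁ ≤ Subgroup.zpowers p := by
  have h2 : orderOf p ∣ ℓ ^ n := by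
    rw [← hn]
    exact Subgroup.orderOf_dvd_natCard P hpP
  obtain ⟨k, -, hk⟩ := (Nat.dvd_prime_pow hp.out).1 h2
  have hk0 : k ≠ 0 := by
    rintro rfl
    rw [pow_zero, orderOf_eq_one_iff] at hk
    exact hne hk
  obtain ⟨j, rfl⟩ := Nat.exists_eq_succ_of_ne_zero hk0
  have h3 : orderOf (p ^ ℓ ^ j) = ℓ := by
    rw [orderOf_pow, hk, Nat.succ_eq_add_one, pow_succ, Nat.gcd_eq_right (Dvd.intro _ rfl),
      Nat.mul_div_cancel_left _ (pow_pos hp.out.pos _)]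
  have h4 : P₁ = Subgroup.zpowers (p ^ ℓ ^ j) := by
    apply GCX.uniq' hc hle
    · rw [Subgroup.zpowers_le]
      exact P.pow_mem hpP _
    · rw [Nat.card_zpowers, h3, h1]
  rw [h4, Subgroup.zpowers_le]
  exact Subgroup.pow_mem _ (Subgroup.mem_zpowers p) _

omit [Fintype T] in
/-- the powers of the product of commuting elements of coprime orders -/
theorem mem_zpowers_mul {ℓ n : ℕ} [hp : Fact ℓ.Prime] {P : Subgroup T} (hn : Nat.card P = ℓ ^ n)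
    {p x : T} (hpP : p ∈ P) (hx : ¬ ℓ ∣ orderOf x) (hcom : p * x = x * p) :
    p ∈ Subgroup.zpowers (p * x) := by
  have h2 : orderOf p ∣ ℓ ^ n := by
    rw [← hn]
    exact Subgroup.orderOf_dvd_natCard P hpP
  have h3 : Nat.Coprime (orderOf p) (orderOf x) :=
    Nat.Coprime.coprime_dvd_left h2 (Nat.Coprime.pow_left n ((hp.out.coprime_iff_not_dvd).2 hx))
  obtain ⟨k, hk1, hk2⟩ := Nat.chineseRemainder h3 1 0
  have hc : Commute p x := hcom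
  have h4 : (p * x) ^ k = p := by
    rw [hc.mul_pow]
    have e1 : p ^ k = p ^ 1 := pow_eq_pow_iff_modEq.2 hk1
    have e2 : x ^ k = x ^ 0 := pow_eq_pow_iff_modEq.2 hk2
    rw [e1, e2, pow_one, pow_zero, mul_one]
  exact ⟨k, by
    change (p * x) ^ (k : ℤ) = p
    rw [zpow_natCast, h4]⟩

open Classical in
/-- The sum of the values at the elements of the coset of a subgroup by an element of the
centralizer. -/
theorem sum_coset {χ : T → ℂ} (hχ : IsIrr χ) (P : Subgroup T) (x : T)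
    (hx : ∀ u ∈ P, u * x = x * u) :
    ∃ τ : ℂ, IsIntegral ℤ τ ∧ ∑ p ∈ Finset.univ.filter (fun p : T => p ∈ P), χ (p * x) =
      (Nat.card P : ℂ) * τ := by
  obtain ⟨d, ρ, _, rfl⟩ := hχ
  have hP0 : (Nat.card P : ℂ) ≠ 0 := Nat.cast_ne_zero.2 Nat.card_pos.ne'
  have hcard : (Finset.univ.filter (fun p : T => p ∈ P)).card = Nat.card P := by
    rw [Nat.card_eq_fintype_card, Fintype.card_subtype]
  let S : Module.End ℂ (Fin d → ℂ) := ∑ p ∈ Finset.univ.filter (fun p : T => p ∈ P), ρ p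
  let E : Module.End ℂ (Fin d → ℂ) := (Nat.card P : ℂ)⁻¹ • S
  have hpS : ∀ p ∈ P, ρ p * S = S := by
    intro p hp
    change ρ p * (∑ q ∈ Finset.univ.filter (fun p : T => p ∈ P), ρ q) = _
    rw [Finset.mul_sum]
    refine Finset.sum_bij (fun q _ => p * q) ?_ ?_ ?_ ?_
    · intro q hq
      rw [Finset.mem_filter] at hq ⊢
      exact ⟨Finset.mem_univ _, P.mul_mem hp hq.2⟩
    · intro q _ q' _ h
      exact mul_left_cancel h
    · intro q hq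
      rw [Finset.mem_filter] at hq
      refine ⟨p⁻¹ * q, ?_, mul_inv_cancel_left p q⟩
      rw [Finset.mem_filter]
      exact ⟨Finset.mem_univ _, P.mul_mem (P.inv_mem hp) hq.2⟩
    · intro q _
      rw [map_mul]
  have hSS : S * S = (Nat.card P : ℂ) • S := by
    change (∑ q ∈ Finset.univ.filter (fun p : T => p ∈ P), ρ q) * S = _
    rw [Finset.sum_mul, Finset.sum_congr rfl (fun p hp => hpS p (Finset.mem_filter.1 hp).2),
      Finset.sum_const, hcard, ← Nat.cast_smul_eq_nsmul ℂ]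
  have hEE : E * E = E := by
    change ((Nat.card P : ℂ)⁻¹ • S) * ((Nat.card P : ℂ)⁻¹ • S) = (Nat.card P : ℂ)⁻¹ • S
    rw [smul_mul_smul_comm, hSS, smul_smul, mul_assoc, inv_mul_cancel₀ hP0, mul_one]
  have hSx : S * ρ x = ρ x * S := by
    change (∑ q ∈ Finset.univ.filter (fun p : T => p ∈ P), ρ q) * ρ x =
      ρ x * ∑ q ∈ Finset.univ.filter (fun p : T => p ∈ P), ρ q
    rw [Finset.sum_mul, Finset.mul_sum]
    refine Finset.sum_congr rfl fun p hp => ?_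
    rw [← map_mul, ← map_mul, hx p (Finset.mem_filter.1 hp).2]
  have hEx : Commute E (ρ x) := by
    change ((Nat.card P : ℂ)⁻¹ • S) * ρ x = ρ x * ((Nat.card P : ℂ)⁻¹ • S)
    rw [smul_mul_assoc, mul_smul_comm, hSx]
  let A : Module.End ℂ (Fin d → ℂ) := E * ρ x
  have hpow : A ^ (Nat.card T + 1) = A := by
    change (E * ρ x) ^ (Nat.card T + 1) = E * ρ x
    have hid : IsIdempotentElem E := hEE
    rw [hEx.mul_pow, hid.pow_succ_eq, pow_succ, ← map_pow, pow_card_eq_one', map_one, one_mul]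
  refine ⟨LinearMap.trace ℂ _ A, ?_, ?_⟩
  · rw [Module.End.trace_eq_sum_roots_charpoly_of_splits (IsAlgClosed.splits _)]
    apply Multiset.sum_induction (p := fun z : ℂ => IsIntegral ℤ z)
    · intro a b ha hb
      exact ha.add hb
    · exact isIntegral_zero
    · intro μ hμ
      have h2 : A.charpoly.IsRoot μ := (Polynomial.mem_roots'.mp hμ).2
      rw [← Module.End.hasEigenvalue_iff_isRoot_charpoly] at h2
      obtain ⟨v, hv⟩ := h2.exists_hasEigenvector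
      have h3 : (A ^ (Nat.card T + 1)) v = μ ^ (Nat.card T + 1) • v := by
        rw [hv.pow_apply]
      rw [hpow, hv.apply_eq_smul] at h3
      have h4 : μ ^ (Nat.card T + 1) = μ := by
        have h5 : (μ ^ (Nat.card T + 1) - μ) • v = 0 := by
          rw [sub_smul, ← h3, sub_self]
        rcases smul_eq_zero.mp h5 with h6 | h6
        · exact sub_eq_zero.mp h6
        · exact absurd h6 hv.2
      by_cases hμ0 : μ = 0
      · rw [hμ0]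
        exact isIntegral_zero
      · have h5 : μ ^ Nat.card T = 1 := by
          rw [pow_succ] at h4
          exact mul_right_cancel₀ hμ0 (h4.trans (one_mul μ).symm)
        apply IsIntegral.of_pow (n := Nat.card T) Nat.card_pos
        rw [h5]
        exact isIntegral_one
  · have h1 : (Nat.card P : ℂ) • A = ∑ p ∈ Finset.univ.filter (fun p : T => p ∈ P),
        ρ (p * x) := by
      change (Nat.card P : ℂ) • (((Nat.card P : ℂ)⁻¹ • S) * ρ x) = _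
      rw [smul_mul_assoc, smul_smul, mul_inv_cancel₀ hP0, one_smul]
      change (∑ q ∈ Finset.univ.filter (fun p : T => p ∈ P), ρ q) * ρ x = _
      rw [Finset.sum_mul]
      exact Finset.sum_congr rfl fun p _ => (map_mul ρ p x).symm
    rw [← smul_eq_mul, ← map_smul, h1, map_sum]
    rfl

end Grp

section Parts

variable {T : Type} [Group T] [Fintype T] (𝔐 : Ideal (integralClosure ℤ ℂ)) (ℓ n : ℕ)
  [hp : Fact ℓ.Prime]

/-- (a) an element of order prime to `ℓ` -/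
theorem exists_reg (h1 : Stmt_IDX) (h2 : Stmt_OSIX) (h3 : Stmt_IDOX) (h4 : Stmt_VALX)
    (h𝔐 : 𝔐.IsMaximal) (hℓ : (ℓ : integralClosure ℤ ℂ) ∈ 𝔐) (χ : T → ℂ) (hχ : IsIrr χ)
    (P₁ P : Subgroup T) (x₀ : T) (hat : AtX ℓ n (cen 𝔐 (MonoidHom.id T) χ) P₁ P x₀) :
    ∃ x₁, AtX ℓ n (cen 𝔐 (MonoidHom.id T) χ) P₁ P x₁ ∧ ¬ ℓ ∣ orderOf x₁ := by
  letI : Field ((integralClosure ℤ ℂ) ⧸ 𝔐) := Ideal.Quotient.field 𝔐
  obtain ⟨O, hO⟩ := h4 𝔐 ℓ h𝔐 hℓ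
  obtain ⟨a, ha1, ha2, ha3, -, -, ha6, -⟩ := h1 ((integralClosure ℤ ℂ) ⧸ 𝔐) T 𝔐 ℓ h𝔐 hℓ
    (Ideal.Quotient.mk 𝔐) Ideal.Quotient.mk_surjective (Ideal.mk_ker) χ hχ
  obtain ⟨-, x₁, hx1, hx1'⟩ := ha6 n P₁ P x₀ hat
  refine ⟨x₁, hx1', fun hd => hx1 ?_⟩
  obtain ⟨eh, -, he2, -, -, he5⟩ := h3 𝔐 ℓ h𝔐 hℓ O hO T χ hχ
  let f : (integralClosure ℤ ℂ) ⧸ 𝔐 →+* IsLocalRing.ResidueField O :=
    Ideal.Quotient.lift 𝔐 hO.res (res_zero hO)
  have hf : ∀ x, f (Ideal.Quotient.mk 𝔐 x) = hO.res x := fun x => rfl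
  have h5 := he5 a ha1 (res_cv hO (Ideal.Quotient.mk 𝔐) f hf a ha2.2.1) ha3 x₁
  have h6 : (eh x₁ : ℂ) = 0 := by
    rw [he2, h2 T 𝔐 ℓ h𝔐 hℓ χ hχ x₁⁻¹ (by rwa [orderOf_inv]), zero_div]
  have h7 : eh x₁ = 0 := Subtype.ext h6
  rw [h7, map_zero, ← hf] at h5
  exact (map_eq_zero f).1 h5.symm

omit [Fintype T] hp in
theorem n_pos [Finite T] {F : Type} [Zero F] {ω : T → F} {P₁ P : Subgroup T} {x₀ : T}
    (hp' : ℓ.Prime) (hat : AtX ℓ n ω P₁ P x₀) : 0 < n := by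
  rcases Nat.eq_zero_or_pos n with h | h
  · exfalso
    have h1 := Subgroup.card_dvd_of_le hat.cd.le
    rw [hat.cd.c1, hat.cd.card, h, pow_zero] at h1
    exact hp'.one_lt.ne' (Nat.dvd_one.1 h1)
  · exact h

omit hp in
/-- the codegree -/
theorem codeg {χ : T → ℂ} (hχ : IsIrr χ) : ∃ q : ℕ, (Nat.card T : ℂ) = (q : ℂ) * χ 1 := by
  obtain ⟨n, hn0, hn⟩ := hχ.exists_degree
  obtain ⟨q, hq⟩ := hχ.degree_dvd hn
  refine ⟨q, ?_⟩
  rw [hn, hq]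
  push_cast
  ring

omit [Fintype T] hp in
/-- the order of the centralizer -/
theorem cent {F : Type} [Zero F] {ω : T → F} {P₁ P : Subgroup T} {x₁ : T}
    (hat : AtX ℓ n ω P₁ P x₁) :
    ∃ c : ℕ, ¬ ℓ ∣ c ∧ Nat.card (Subgroup.centralizer ({x₁} : Set T)) = ℓ ^ n * c := by
  obtain ⟨c, hc⟩ := hat.mn x₁ hat.ne
  refine ⟨c, ?_, hc⟩
  rintro ⟨d, rfl⟩
  apply hat.cd.sq
  rw [hc]
  exact ⟨d, by ring⟩

/-- (c) the character does not vanish on all elements whose powers contain `P₁` -/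
theorem not_vanish (h𝔐 : 𝔐.IsMaximal) (hℓ : (ℓ : integralClosure ℤ ℂ) ∈ 𝔐) {χ : T → ℂ}
    (hχ : IsIrr χ) {P₁ P : Subgroup T} {x₁ : T}
    (hat : AtX ℓ n (cen 𝔐 (MonoidHom.id T) χ) P₁ P x₁) (hx : ¬ ℓ ∣ orderOf x₁)
    (h0 : ∀ g : T, P₁ ≤ Subgroup.zpowers g → χ g = 0) : False := by
  classical
  haveI := h𝔐.isPrime
  have hn := n_pos ℓ n hp.out hat
  obtain ⟨τ, hτ, hs⟩ := sum_coset hχ P x₁ hat.cd.cen
  rw [Finset.sum_eq_single (1 : T)] at hs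
  · rw [one_mul] at hs
    obtain ⟨q, hq⟩ := codeg hχ
    obtain ⟨c, hc, hcc⟩ := cent ℓ n hat
    have h1 := DF1.mul_w hχ x₁ hq
    have hl0 : (ℓ : ℂ) ^ n ≠ 0 := pow_ne_zero _ (Nat.cast_ne_zero.mpr hp.out.ne_zero)
    have h2 : (c : ℂ) * DF1.w χ x₁ = (q : ℂ) * τ := by
      apply mul_left_cancel₀ hl0
      rw [hcc, hs, hat.cd.card] at h1
      push_cast at h1
      linear_combination h1
    have hq' : ¬ ℓ ∣ q := by
      intro hd
      apply hat.ne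
      rw [DF1.cen_eq]
      refine DF1.red_cancel 𝔐 hℓ hc (DF1.isIntegral_w hχ x₁) ?_
      rw [h2]
      exact DF1.red_mul_of_dvd 𝔐 hℓ hd hτ
    obtain ⟨x, hx1, hx2⟩ := DF1.exists_class 𝔐 hχ hq (red_card_ne_zero 𝔐 hℓ hq')
    apply hx2
    apply DF1.red_cancel 𝔐 hℓ hq' (isIntegral_char hχ _)
    rw [← DF1.mul_w hχ x⁻¹ hq, DF1.centralizer_inv]
    exact DF1.red_mul_of_dvd 𝔐 hℓ ((dvd_pow_self ℓ hn.ne').trans (hat.mn x hx1))
      (DF1.isIntegral_w hχ _)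
  · intro p hp1 hpne
    have hpP := (Finset.mem_filter.1 hp1).2
    apply h0
    refine (le_zpowers hat.cd.le hat.cd.cyc hat.cd.c1 hat.cd.card hpP hpne).trans ?_
    rw [Subgroup.zpowers_le]
    exact mem_zpowers_mul hat.cd.card hpP hx (hat.cd.cen p hpP)
  · intro h
    exact absurd (Finset.mem_filter.2 ⟨Finset.mem_univ _, P.one_mem⟩) h

/-- (e) the degree -/
theorem degree (h𝔐 : 𝔐.IsMaximal) (hℓ : (ℓ : integralClosure ℤ ℂ) ∈ 𝔐) {χ : T → ℂ}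
    (hχ : IsIrr χ) {P₁ P : Subgroup T} {x₁ : T}
    (hat : AtX ℓ n (cen 𝔐 (MonoidHom.id T) χ) P₁ P x₁) (hx : red 𝔐 (χ x₁) ≠ 0) :
    ∃ m : ℕ, ¬ ℓ ∣ m ∧ (Nat.card T : ℂ) = (ℓ : ℂ) ^ n * m * χ 1 := by
  haveI := h𝔐.isPrime
  obtain ⟨q, hq⟩ := codeg hχ
  obtain ⟨c, hc, hcc⟩ := cent ℓ n hat
  have h1 := DF1.mul_w hχ x₁ hq
  rw [hcc] at h1
  have hq0 : q ≠ 0 := by
    rintro rfl
    rw [Nat.cast_zero, zero_mul, Nat.cast_eq_zero] at hq
    exact Nat.card_pos.ne' hq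
  obtain ⟨t, q', hq', rfl⟩ := Nat.exists_eq_pow_mul_and_not_dvd hq0 ℓ hp.out.ne_one
  have hl0 : (ℓ : ℂ) ≠ 0 := Nat.cast_ne_zero.mpr hp.out.ne_zero
  push_cast at h1
  rcases lt_trichotomy t n with htn | htn | htn
  · exfalso
    obtain ⟨j, rfl⟩ : ∃ j, n = t + (j + 1) := ⟨n - t - 1, by omega⟩
    apply hx
    refine DF1.red_cancel 𝔐 hℓ hq' (isIntegral_char hχ x₁) ?_
    have h2 : (q' : ℂ) * χ x₁ = ((ℓ * (ℓ ^ j * c) : ℕ) : ℂ) * DF1.w χ x₁ := by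
      apply mul_left_cancel₀ (pow_ne_zero t hl0)
      push_cast
      linear_combination -h1
    rw [h2]
    exact DF1.red_mul_of_dvd 𝔐 hℓ (Dvd.intro _ rfl) (DF1.isIntegral_w hχ x₁)
  · subst htn
    refine ⟨q', hq', ?_⟩
    rw [hq]
    push_cast
    ring
  · exfalso
    obtain ⟨j, rfl⟩ : ∃ j, t = n + (j + 1) := ⟨t - n - 1, by omega⟩
    apply hat.ne
    rw [DF1.cen_eq]
    refine DF1.red_cancel 𝔐 hℓ hc (DF1.isIntegral_w hχ x₁) ?_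
    have h2 : (c : ℂ) * DF1.w χ x₁ = ((ℓ * (ℓ ^ j * q') : ℕ) : ℂ) * χ x₁ := by
      apply mul_left_cancel₀ (pow_ne_zero n hl0)
      push_cast
      linear_combination h1
    rw [h2]
    exact DF1.red_mul_of_dvd 𝔐 hℓ (Dvd.intro _ rfl) (isIntegral_char hχ x₁)

end Parts

section Glue

variable {T : Type} [Group T]

theorem mem_norm {P₁ P : Subgroup T} (hle : P₁ ≤ P) {x : T} (h : ∀ u ∈ P, u * x = x * u) :
    x ∈ Subgroup.normalizer (P₁ : Set T) := by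
  rw [Subgroup.mem_normalizer_iff]
  intro u
  constructor
  · intro hu
    have h1 := h u (hle hu)
    rw [← h1, mul_inv_cancel_right]
    exact hu
  · intro hu
    have h1 := h _ (hle hu)
    have h2 : x * u * x⁻¹ * x = x * (x * u * x⁻¹) := h1
    rw [inv_mul_cancel_right] at h2
    have h3 : u = x * u * x⁻¹ := mul_left_cancel h2
    rw [h3]
    exact hu

theorem le_center {N : Type} [Group N] (Q C : Subgroup N)
    (hC : C = Subgroup.centralizer (Q : Set N)) : Q.subgroupOf C ≤ Subgroup.center C := by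
  intro z hz
  rw [Subgroup.mem_center_iff]
  intro g
  have h1 : (g : N) ∈ Subgroup.centralizer (Q : Set N) := hC ▸ g.2
  rw [Subgroup.mem_centralizer_iff] at h1
  exact Subtype.ext (h1 (z : N) hz).symm

open Classical in
/-- the numbers of characters -/
theorem card_eq {C : Type} [Group C] [Fintype C] (𝔐 : Ideal (integralClosure ℤ ℂ))
    (φ₀ φ₁ : C → ℂ) (h1 : IsIrr φ₁ ∧ cen 𝔐 (MonoidHom.id C) φ₁ = cen 𝔐 (MonoidHom.id C) φ₀)
    (a : (C → ℂ) → ℤ) (v : ℤ) :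
    Nat.card {i : {φ : C → ℂ // IsIrr φ ∧
      cen 𝔐 (MonoidHom.id C) φ = cen 𝔐 (MonoidHom.id C) φ₀} // i ≠ ⟨φ₁, h1⟩ ∧ a i.1 = v} =
    Nat.card {φ : C → ℂ // IsIrr φ ∧
      cen 𝔐 (MonoidHom.id C) φ = cen 𝔐 (MonoidHom.id C) φ₀ ∧ φ ≠ φ₁ ∧ a φ = v} := by
  refine Nat.card_congr ⟨fun i => ⟨i.1.1, i.1.2.1, i.1.2.2, fun h => i.2.1 (Subtype.ext h),
    i.2.2⟩, fun φ => ⟨⟨φ.1, φ.2.1, φ.2.2.1⟩, fun h => φ.2.2.2.1 (congrArg Subtype.val h),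
    φ.2.2.2.2⟩, fun i => rfl, fun φ => rfl⟩

open Classical in
/-- (d) the sum of the multiplicities is prime to `ℓ` -/
theorem sum_prime (h12 : Stmt_COMX) {C : Type} [Group C] [Fintype C]
    (𝔐 : Ideal (integralClosure ℤ ℂ)) (ℓ n e : ℕ) [Fact ℓ.Prime] (hn2 : 2 ≤ n) (he0 : 0 < e)
    (he : e ∣ ℓ - 1) (φ₀ φ₁ : C → ℂ)
    (hnil : Nat.card {φ : C → ℂ // IsIrr φ ∧
      cen 𝔐 (MonoidHom.id C) φ = cen 𝔐 (MonoidHom.id C) φ₀} = ℓ ^ n)
    (h1 : IsIrr φ₁ ∧ cen 𝔐 (MonoidHom.id C) φ₁ = cen 𝔐 (MonoidHom.id C) φ₀)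
    (a : (C → ℂ) → ℤ)
    (hfr : ∀ v : ℤ, e ∣ Nat.card {φ : C → ℂ // IsIrr φ ∧
      cen 𝔐 (MonoidHom.id C) φ = cen 𝔐 (MonoidHom.id C) φ₀ ∧ φ ≠ φ₁ ∧ a φ = v})
    (hQ0 : 0 < (ℓ : ℤ) ^ n * (∑ φ ∈ irrF C with cen 𝔐 (MonoidHom.id C) φ =
            cen 𝔐 (MonoidHom.id C) φ₀, a φ ^ 2) -
          (∑ φ ∈ irrF C with cen 𝔐 (MonoidHom.id C) φ =
            cen 𝔐 (MonoidHom.id C) φ₀, a φ) ^ 2)
    (hQ1 : (ℓ : ℤ) ^ n * (∑ φ ∈ irrF C with cen 𝔐 (MonoidHom.id C) φ =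
            cen 𝔐 (MonoidHom.id C) φ₀, a φ ^ 2) -
          (∑ φ ∈ irrF C with cen 𝔐 (MonoidHom.id C) φ =
            cen 𝔐 (MonoidHom.id C) φ₀, a φ) ^ 2 < e * (ℓ : ℤ) ^ n) :
    ¬ (ℓ : ℤ) ∣ ∑ φ ∈ irrF C with cen 𝔐 (MonoidHom.id C) φ =
            cen 𝔐 (MonoidHom.id C) φ₀, a φ := by
  have hfin : Finite {φ : C → ℂ // IsIrr φ ∧
      cen 𝔐 (MonoidHom.id C) φ = cen 𝔐 (MonoidHom.id C) φ₀} :=
    ((finite_isIrr (H := C)).subset fun _ h => h.1 : Set.Finite {φ : C → ℂ | IsIrr φ ∧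
      cen 𝔐 (MonoidHom.id C) φ = cen 𝔐 (MonoidHom.id C) φ₀})
  letI : Fintype {φ : C → ℂ // IsIrr φ ∧
      cen 𝔐 (MonoidHom.id C) φ = cen 𝔐 (MonoidHom.id C) φ₀} := Fintype.ofFinite _
  have hsum : ∀ f : (C → ℂ) → ℤ, (∑ φ ∈ irrF C with cen 𝔐 (MonoidHom.id C) φ =
      cen 𝔐 (MonoidHom.id C) φ₀, f φ) = ∑ i : {φ : C → ℂ // IsIrr φ ∧
      cen 𝔐 (MonoidHom.id C) φ = cen 𝔐 (MonoidHom.id C) φ₀}, f i.1 := by
    intro f
    refine Finset.sum_subtype _ (fun φ => ?_) f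
    rw [Finset.mem_filter, mem_irrF]
  have hsum2 := hsum (fun φ => a φ ^ 2)
  have hsum1 := hsum a
  have hk := h12 ℓ n e hn2 he0 he {φ : C → ℂ // IsIrr φ ∧
      cen 𝔐 (MonoidHom.id C) φ = cen 𝔐 (MonoidHom.id C) φ₀}
    (by rw [← Nat.card_eq_fintype_card, hnil]) ⟨φ₁, h1⟩ (fun i => a i.1)
  have hk1 : ∀ v : ℤ, e ∣ Nat.card {i : {φ : C → ℂ // IsIrr φ ∧
      cen 𝔐 (MonoidHom.id C) φ = cen 𝔐 (MonoidHom.id C) φ₀} // i ≠ ⟨φ₁, h1⟩ ∧ a i.1 = v} := by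
    intro v
    rw [card_eq]
    exact hfr v
  have hk2 := hk hk1
  clear hk hk1 hfr h12
  generalize (∑ φ ∈ irrF C with cen 𝔐 (MonoidHom.id C) φ =
            cen 𝔐 (MonoidHom.id C) φ₀, a φ) = S1 at *
  generalize (∑ φ ∈ irrF C with cen 𝔐 (MonoidHom.id C) φ =
            cen 𝔐 (MonoidHom.id C) φ₀, a φ ^ 2) = S2 at *
  subst hsum1 hsum2
  exact hk2 hQ0 hQ1

end Glue

end HGTX

open Classical in
theorem HGTX_thm (h1 : Stmt_IDX) (h2 : Stmt_OSIX) (h3 : Stmt_IDOX) (h4 : Stmt_VALX)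
    (h5 : Stmt_CNTX) (h6 : Stmt_ATNX) (h7 : Stmt_ATCX) (h8 : Stmt_NILO) (h9 : Stmt_FRXX)
    (h10 : Stmt_NRMX) (h11 : Stmt_REDX) (h12 : Stmt_COMX) : Stmt_HGTX := by
  intro T _ _ 𝔐 ℓ n hp h𝔐 hℓ χ hχ P₁ P x₀ hat
  haveI := h𝔐.isPrime
  have hn := HGTX.n_pos ℓ n hp.out hat
  rcases Nat.lt_or_ge n 2 with hn2 | hn2
  · obtain rfl : n = 1 := by omega
    have hD : D1 ℓ (cen 𝔐 (MonoidHom.id T) χ) := ⟨⟨x₀, hat.ne, hat.cd.sq⟩, fun x hx => by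
      have h := hat.mn x hx
      rwa [pow_one] at h⟩
    obtain ⟨m, hm, hm'⟩ := (DF1_thm T 𝔐 ℓ h𝔐 hℓ χ hχ).1 hD
    exact ⟨m, hm, by rw [pow_one]; exact hm'⟩
  obtain ⟨x₁, hat1, hx1⟩ := HGTX.exists_reg 𝔐 ℓ n h1 h2 h3 h4 h𝔐 hℓ χ hχ P₁ P x₀ hat
  apply HGTX.degree 𝔐 ℓ n h𝔐 hℓ hχ hat1
  letI : Fintype (NP P₁) := Fintype.ofFinite _
  -- the block of the normalizer
  have hc := h5 T 𝔐 ℓ n h𝔐 hℓ χ hχ P₁ P x₁ hat1
  obtain ⟨ψ₀, hψ₀, hψc⟩ : ∃ ψ₀ : NP P₁ → ℂ, IsIrr ψ₀ ∧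
      cen 𝔐 (Subgroup.normalizer (P₁ : Set T)).subtype ψ₀ = cen 𝔐 (MonoidHom.id T) χ := by
    haveI : Finite {χ' : T → ℂ // IsIrr χ' ∧
        cen 𝔐 (MonoidHom.id T) χ' = cen 𝔐 (MonoidHom.id T) χ} :=
      ((finite_isIrr (H := T)).subset fun _ h => h.1 : Set.Finite {χ' : T → ℂ | IsIrr χ' ∧
        cen 𝔐 (MonoidHom.id T) χ' = cen 𝔐 (MonoidHom.id T) χ})
    haveI : Nonempty {χ' : T → ℂ // IsIrr χ' ∧
        cen 𝔐 (MonoidHom.id T) χ' = cen 𝔐 (MonoidHom.id T) χ} := ⟨⟨χ, hχ, rfl⟩⟩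
    have hpos : 0 < Nat.card {χ' : T → ℂ // IsIrr χ' ∧
        cen 𝔐 (MonoidHom.id T) χ' = cen 𝔐 (MonoidHom.id T) χ} := Nat.card_pos
    rw [hc] at hpos
    obtain ⟨⟨ψ₀, hh⟩⟩ := (Nat.card_pos_iff.1 hpos).1
    exact ⟨ψ₀, hh⟩
  have hxn : x₁ ∈ Subgroup.normalizer (P₁ : Set T) := HGTX.mem_norm hat1.cd.le hat1.cd.cen
  have hatN := (h6 T 𝔐 ℓ n h𝔐 hℓ χ hχ P₁ P x₁ hat1 hxn ψ₀ hψ₀ hψc).1
  haveI hQn : (P₁.subgroupOf (Subgroup.normalizer (P₁ : Set T)) : Subgroup (NP P₁)).Normal :=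
    Subgroup.normal_in_normalizer
  -- the centralizer
  obtain ⟨C, hC⟩ : ∃ C : Subgroup (NP P₁), C =
      Subgroup.centralizer ((P₁.subgroupOf (Subgroup.normalizer (P₁ : Set T)) :
        Subgroup (NP P₁)) : Set (NP P₁)) := ⟨_, rfl⟩
  haveI hCn : C.Normal := by
    rw [hC]
    exact Subgroup.normal_centralizer
  obtain ⟨φ₀, hφ₀, hip⟩ := CLG.exists_under C.subtype hψ₀
  obtain ⟨P', x', g, -, -, hatC⟩ := h7 (NP P₁) 𝔐 ℓ n h𝔐 hℓ _ _ _ ψ₀ hψ₀ hatN C hC φ₀ hφ₀ hip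
  have hnil := h8 C 𝔐 ℓ n h𝔐 hℓ _ P' x' (HGTX.le_center _ C hC) φ₀ hφ₀ hatC
  have hcQ : Nat.card (P₁.subgroupOf (Subgroup.normalizer (P₁ : Set T)) :
      Subgroup (NP P₁)) = ℓ := by
    rw [GCX.card_subgroupOf Subgroup.le_normalizer, hat1.cd.c1]
  obtain ⟨-, he, -, φ₁, hφ₁, hφ₁c, hfr⟩ := h9 (NP P₁) 𝔐 ℓ n h𝔐 hℓ _ C hcQ hC φ₀ P' x' hφ₀ hatC
  obtain ⟨a, ha1, ha2, hQ0, hQ1, hQ2⟩ := h10 T 𝔐 ℓ n h𝔐 hℓ χ hχ P₁ P x₁ hat1 C hC ψ₀ φ₀ hψ₀
    hφ₀ hψc hip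
  refine h11 T 𝔐 ℓ n h𝔐 hℓ χ hχ P₁ P x₁ hat1 hx1 C hC ψ₀ φ₀ hψ₀ hφ₀ hψc hip a ha1 ha2 ?_
  -- the positivity
  have hQpos := lt_of_le_of_ne hQ0 fun h => HGTX.not_vanish 𝔐 ℓ n h𝔐 hℓ hχ hat1 hx1
    (hQ2 h.symm)
  have he0 : 0 < C.relIndex (bS 𝔐 C φ₀) := Nat.pos_of_ne_zero
    Subgroup.index_ne_zero_of_finite
  exact HGTX.sum_prime h12 𝔐 ℓ n (C.relIndex (bS 𝔐 C φ₀)) hn2 he0 he φ₀ φ₁ hnil ⟨hφ₁, hφ₁c⟩ a
    (hfr a ha1) hQpos hQ1

end Pool.Agent.DPX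


end
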