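import Mathlib
import Pool.Agent.DAM.C02
import Pool.Agent.DAM.C11
import Pool.Agent.DAM.C12
import Pool.Agent.DAM.C14
import Pool.Agent.DAM.C15
import Pool.Agent.DAM.C22
import Pool.Agent.DAM.C25
import Pool.Agent.DAM.C28
import Pool.Agent.DAM.C32
import Pool.Agent.DAM.C33
import Pool.Agent.DAM.C35
import Pool.Agent.DAM.C45
import Pool.Agent.DAM.C67
import Pool.Agent.DAM.C69
import Pool.Agent.DAM.C74

/-! Parts: DPN.YSL, DPC.DGX, DPK.FAMr, DPK.PS1r, DPK.T2Rr, DPV.FinalV, DPW.FinalW, DPW.MainW, DPX.FinalX, DPG.LMT, DPG.CMA -/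

section

/-!
# YSL: the characters over an invariant linear character, in terms of congruences
-/

namespace Pool.Agent.DPN

open Pool.Agent.DP Pool.Agent.DPC Pool.Agent.DPM Pool.Agent.Lib_helper13 Representation
open Pool.Agent.Lib_helper13.Dade (pCore DadeHolds dadeSum)

namespace YSL

theorem isIrr_lin {K : Type} [Group K] [Fintype K] (lam : K →* ℂˣ) :
    IsIrr (fun k => ((lam k : ℂˣ) : ℂ)) := by
  apply (isChr_lin lam).isIrr
  have h : ∀ g : K, ((lam g : ℂˣ) : ℂ) * ((lam g⁻¹ : ℂˣ) : ℂ) = 1 := by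
    intro g
    rw [← Units.val_mul, ← map_mul, mul_inv_cancel, map_one, Units.val_one]
  simp [h]

theorem int_lin {K : Type} [Group K] [Finite K] (lam : K →* ℂˣ) (v : K) :
    IsIntegral ℤ ((lam v : ℂˣ) : ℂ) := by
  apply IsIntegral.of_pow (n := Nat.card K) Nat.card_pos
  rw [← Units.val_pow_eq_pow_val, ← map_pow, pow_card_eq_one', map_one, Units.val_one]
  exact isIntegral_one

variable {V : Type} [Group V] [Fintype V]

open Classical in
/-- The number of the elements which conjugate `s` to `x`. -/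
noncomputable def NN (V' : Subgroup V) (s : V) (x : V') : ℂ :=
  ∑ v : V, if v * s * v⁻¹ = x then 1 else 0

theorem NN_class (V' : Subgroup V) (s : V) (g x : V') :
    NN V' s (g * x * g⁻¹) = NN V' s x := by
  classical
  unfold NN
  refine Fintype.sum_equiv (Equiv.mulLeft (g⁻¹ : V)) _ _ fun v => ?_
  have h : (v * s * v⁻¹ = ((g * x * g⁻¹ : V') : V)) ↔
      ((Equiv.mulLeft (g⁻¹ : V)) v * s * ((Equiv.mulLeft (g⁻¹ : V)) v)⁻¹ = (x : V)) := by
    rw [Equiv.coe_mulLeft]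
    constructor
    · intro h
      have : (g : V)⁻¹ * v * s * ((g : V)⁻¹ * v)⁻¹ = (g : V)⁻¹ * (v * s * v⁻¹) * g := by group
      rw [this, h]
      push_cast
      group
    · intro h
      have : v * s * v⁻¹ = (g : V) * ((g : V)⁻¹ * v * s * ((g : V)⁻¹ * v)⁻¹) * (g : V)⁻¹ := by
        group
      rw [this, h]
      push_cast
      rfl
  simp only [h]

theorem NN_int (V' : Subgroup V) (s : V) (x : V') : IsIntegral ℤ (NN V' s x) := by
  classical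
  unfold NN
  refine isIntegral_sum _ _ fun v _ => ?_
  split_ifs
  · exact isIntegral_one
  · exact isIntegral_zero

theorem wt_NN (V' : Subgroup V) (s : V) (ζ : V' → ℂ) :
    wt ζ (NN V' s) = (∑ v : V, ext0 ζ (v * s * v⁻¹)) / ζ 1 := by
  classical
  unfold wt NN
  congr 1
  simp only [Finset.sum_mul]
  rw [Finset.sum_comm]
  refine Finset.sum_congr rfl fun v _ => ?_
  by_cases hv : v * s * v⁻¹ ∈ V'
  · rw [ext0_of_mem ζ hv, Finset.sum_eq_single (⟨v * s * v⁻¹, hv⟩ : V')]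
    · simp
    · intro b _ hb
      rw [if_neg, zero_mul]
      intro h
      exact hb (Subtype.ext h.symm)
    · intro h
      exact absurd (Finset.mem_univ _) h
  · rw [ext0_of_not_mem ζ hv]
    refine Finset.sum_eq_zero fun x _ => ?_
    rw [if_neg, zero_mul]
    intro h
    exact hv (h ▸ x.2)

section Own

variable {K : Type} [Group K] [Fintype K]

open Classical in
/-- The number of the elements which conjugate `s` to `x`. -/
noncomputable def MC (s x : K) : ℂ := ∑ v : K, if v * s * v⁻¹ = x then 1 else 0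

theorem MC_class (s g x : K) : MC s (g * x * g⁻¹) = MC s x := by
  classical
  unfold MC
  refine Fintype.sum_equiv (Equiv.mulLeft g⁻¹) _ _ fun v => ?_
  have h : (v * s * v⁻¹ = g * x * g⁻¹) ↔
      ((Equiv.mulLeft g⁻¹) v * s * ((Equiv.mulLeft g⁻¹) v)⁻¹ = x) := by
    rw [Equiv.coe_mulLeft]
    constructor
    · intro h
      have : g⁻¹ * v * s * (g⁻¹ * v)⁻¹ = g⁻¹ * (v * s * v⁻¹) * g := by group
      rw [this, h]
      group
    · intro h
      have : v * s * v⁻¹ = g * (g⁻¹ * v * s * (g⁻¹ * v)⁻¹) * g⁻¹ := by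
        group
      rw [this, h]
  simp only [h]

theorem wt_MC {ζ : K → ℂ} (hζ : ∀ g x, ζ (g * x * g⁻¹) = ζ x) (s : K) :
    wt ζ (MC s) = (Fintype.card K : ℂ) * ζ s / ζ 1 := by
  classical
  unfold wt MC
  congr 1
  simp only [Finset.sum_mul]
  rw [Finset.sum_comm]
  have : ∀ v : K, ∑ x : K, (if v * s * v⁻¹ = x then (1 : ℂ) else 0) * ζ x = ζ s := by
    intro v
    rw [Finset.sum_eq_single (v * s * v⁻¹)]
    · rw [if_pos rfl, one_mul, hζ]
    · intro b _ hb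
      rw [if_neg (Ne.symm hb), zero_mul]
    · intro h
      exact absurd (Finset.mem_univ _) h
  rw [Finset.sum_congr rfl (fun v _ => this v), Finset.sum_const, Finset.card_univ, nsmul_eq_mul]

theorem wt_MC_sub {A : Type} [Group A] [Fintype A] (j : A →* K) (hj : Function.Injective j)
    (θ : A → ℂ) (s : A) (hs : ∀ v : K, ∃ a, j a = v * j s * v⁻¹ ∧ θ a = θ s) :
    wt θ (fun a => MC (j s) (j a)) = (Fintype.card K : ℂ) * θ s / θ 1 := by
  classical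
  unfold wt MC
  congr 1
  simp only [Finset.sum_mul]
  rw [Finset.sum_comm]
  have : ∀ v : K, ∑ x : A, (if v * j s * v⁻¹ = j x then (1 : ℂ) else 0) * θ x = θ s := by
    intro v
    obtain ⟨a, ha, hθ⟩ := hs v
    rw [Finset.sum_eq_single a]
    · rw [if_pos ha.symm, one_mul, hθ]
    · intro b _ hb
      rw [if_neg, zero_mul]
      intro h
      exact hb (hj (h.symm.trans ha.symm))
    · intro h
      exact absurd (Finset.mem_univ _) h
  rw [Finset.sum_congr rfl (fun v _ => this v), Finset.sum_const, Finset.card_univ, nsmul_eq_mul]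

end Own

theorem clG_in {S V' : Subgroup V} [S.Normal] (h : S ≤ V') :
    ClG (Subgroup.inclusion h) ((MulAut.conjNormal : V →* MulAut S).comp V'.subtype)
      (QuotientGroup.mk' (S.subgroupOf V')) where
  inj := Subgroup.inclusion_injective h
  act := by
    intro y a
    apply Subtype.ext
    rfl
  ker := by
    intro y
    rw [QuotientGroup.mk'_apply, QuotientGroup.eq_one_iff, Subgroup.mem_subgroupOf]
    constructor
    · intro hy
      exact ⟨⟨y, hy⟩, rfl⟩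
    · rintro ⟨a, rfl⟩
      exact a.2

end YSL

open _root_.Pool.Agent.DPN.YSL in
/-- YSL -/
theorem YSL_thm : Stmt_YSL := by
  classical
  intro V _ _ 𝔐 ℓ _ hM hl hV S _ lam hlam V' hS ζ hζ
  have hζ1 : ζ 1 ≠ 0 := hζ.one_ne_zero
  have hlam' : ∀ (v : V) (s : S), lam ⟨v * s * v⁻¹, Subgroup.Normal.conj_mem inferInstance _ s.2 v⟩ =
      lam s := fun v s => hlam v s _ rfl
  have hA : ∀ s : V, IsIntegral ℤ ((∑ v : V, ext0 ζ (v * s * v⁻¹)) / ζ 1) := by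
    intro s
    rw [← wt_NN]
    exact isIntegral_wt hζ _ (NN_class V' s) (NN_int V' s)
  constructor
  · intro hc
    -- the multiplicity of lam
    have e1 : ∑ s : S, ((∑ v : V, ext0 ζ (v * s * v⁻¹)) / ζ 1) * ((lam s⁻¹ : ℂˣ) : ℂ) =
        (Nat.card V : ℂ) * (Nat.card S : ℂ) / ζ 1 *
          ip (resj (Subgroup.inclusion hS) ζ) (fun s => ((lam s : ℂˣ) : ℂ)) := by
      have e2 : ∀ v : V, ∑ s : S, ext0 ζ (v * s * v⁻¹) * ((lam s⁻¹ : ℂˣ) : ℂ) =
          ∑ s : S, ζ (Subgroup.inclusion hS s) * ((lam s⁻¹ : ℂˣ) : ℂ) := by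
        intro v
        refine Fintype.sum_equiv ((MulAut.conjNormal v : MulAut S).toEquiv) _ _ fun s => ?_
        have h1 : v * s * v⁻¹ ∈ V' := hS (Subgroup.Normal.conj_mem inferInstance _ s.2 v)
        rw [ext0_of_mem ζ h1]
        have h2 : lam ((MulAut.conjNormal v : MulAut S).toEquiv s)⁻¹ = lam s⁻¹ := by
          rw [map_inv, map_inv]
          exact congrArg _ (hlam v s _ rfl)
        rw [h2]
        rfl
      have hc0 : (Nat.card S : ℂ) ≠ 0 := by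
        have : Nat.card S ≠ 0 := Nat.card_pos.ne'
        exact_mod_cast this
      have e3 : ∑ s : S, ((∑ v : V, ext0 ζ (v * s * v⁻¹)) / ζ 1) * ((lam s⁻¹ : ℂˣ) : ℂ) =
          (∑ v : V, ∑ s : S, ext0 ζ (v * s * v⁻¹) * ((lam s⁻¹ : ℂˣ) : ℂ)) / ζ 1 := by
        rw [Finset.sum_comm, Finset.sum_div]
        refine Finset.sum_congr rfl fun s _ => ?_
        rw [← Finset.sum_mul]
        ring
      rw [e3, Finset.sum_congr rfl (fun v _ => e2 v), Finset.sum_const, Finset.card_univ,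
        nsmul_eq_mul, ip]
      have e4 : ((Fintype.card V : ℕ) : ℂ) = (Nat.card V : ℂ) := by rw [Nat.card_eq_fintype_card]
      rw [e4]
      change (Nat.card V : ℂ) * (∑ s : S, ζ (Subgroup.inclusion hS s) * ((lam s⁻¹ : ℂˣ) : ℂ)) / ζ 1 =
        (Nat.card V : ℂ) * (Nat.card S : ℂ) / ζ 1 *
          ((∑ s : S, ζ (Subgroup.inclusion hS s) * ((lam s⁻¹ : ℂˣ) : ℂ)) / Nat.card S)
      field_simp
    have e5 : red 𝔐 (∑ s : S, ((∑ v : V, ext0 ζ (v * s * v⁻¹)) / ζ 1) * ((lam s⁻¹ : ℂˣ) : ℂ)) =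
        ((Nat.card S * Nat.card V : ℕ) : (integralClosure ℤ ℂ) ⧸ 𝔐) := by
      refine (red_sum 𝔐 _ _ (fun (s : S) _ => (hA (s : V)).mul (int_lin lam s⁻¹))).trans ?_
      have e6 : ∀ s : S, red 𝔐 (((∑ v : V, ext0 ζ (v * s * v⁻¹)) / ζ 1) *
          ((lam s⁻¹ : ℂˣ) : ℂ)) = (Nat.card V : (integralClosure ℤ ℂ) ⧸ 𝔐) := by
        intro s
        rw [red_mul 𝔐 (hA s) (int_lin lam _), hc s s.2, mul_assoc,
          ← red_mul 𝔐 (int_lin lam _) (int_lin lam _), ← Units.val_mul]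
        have : lam ⟨(s : V), s.2⟩ * lam s⁻¹ = 1 := by
          rw [← map_mul]
          change lam (s * s⁻¹) = 1
          rw [mul_inv_cancel, map_one]
        rw [this, Units.val_one]
        have h1 : red 𝔐 (1 : ℂ) = 1 := by
          rw [red_of_integral 𝔐 isIntegral_one]
          exact map_one _
        rw [h1, mul_one]
      rw [Finset.sum_congr rfl (fun s _ => e6 s), Finset.sum_const, Finset.card_univ,
        nsmul_eq_mul, Nat.cast_mul, Nat.card_eq_fintype_card (α := S)]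
    have e7 : ((Nat.card S * Nat.card V : ℕ) : (integralClosure ℤ ℂ) ⧸ 𝔐) ≠ 0 := by
      intro h0
      have hp : (ℓ : ℕ).Prime := Fact.out
      have h1 : ¬ ℓ ∣ Nat.card S * Nat.card V := by
        intro h2
        rcases hp.dvd_mul.mp h2 with h3 | h3
        · exact hV (h3.trans (Subgroup.card_subgroup_dvd_card S))
        · exact hV h3
      have h2 : Nat.Coprime (Nat.card S * Nat.card V) ℓ :=
        ((Nat.Prime.coprime_iff_not_dvd hp).mpr h1).symm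
      have h3 : ((ℓ : ℕ) : (integralClosure ℤ ℂ) ⧸ 𝔐) = 0 := by
        rw [← map_natCast (Ideal.Quotient.mk 𝔐)]
        exact Ideal.Quotient.eq_zero_iff_mem.mpr hl
      have h4 : (1 : (integralClosure ℤ ℂ) ⧸ 𝔐) = 0 := by
        have h5 := Nat.gcd_eq_gcd_ab (Nat.card S * Nat.card V) ℓ
        rw [h2.gcd_eq_one] at h5
        have h6 := congrArg (fun z : ℤ => (z : (integralClosure ℤ ℂ) ⧸ 𝔐)) h5
        simp only [Nat.cast_one, Int.cast_one, Int.cast_add, Int.cast_mul, Int.cast_natCast] at h6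
        rw [h6, h0, h3, zero_mul, zero_mul, add_zero]
      haveI : Nontrivial ((integralClosure ℤ ℂ) ⧸ 𝔐) := Ideal.Quotient.nontrivial_iff.mpr hM.ne_top
      exact one_ne_zero h4
    have e8 : ip (resj (Subgroup.inclusion hS) ζ) (fun s => ((lam s : ℂˣ) : ℂ)) ≠ 0 := by
      intro h0
      rw [e1, h0, mul_zero, red_zero] at e5
      exact e7 e5.symm
    -- the value at s
    have hSU := (SUMM_thm S V' (V' ⧸ S.subgroupOf V') (Subgroup.inclusion hS)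
      ((MulAut.conjNormal : V →* MulAut S).comp V'.subtype) (QuotientGroup.mk' (S.subgroupOf V'))
      (clG_in hS)).2.2.2
    intro s hs hs'
    have hconj : ∀ v : V', ∃ a : S, Subgroup.inclusion hS a =
        v * Subgroup.inclusion hS ⟨s, hs⟩ * v⁻¹ ∧
        ((lam a : ℂˣ) : ℂ) = ((lam ⟨s, hs⟩ : ℂˣ) : ℂ) := by
      intro v
      refine ⟨⟨(v : V) * s * (v : V)⁻¹, Subgroup.Normal.conj_mem inferInstance _ hs _⟩, ?_, ?_⟩
      · apply Subtype.ext
        rfl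
      · rw [hlam (v : V) ⟨s, hs⟩ ⟨(v : V) * s * (v : V)⁻¹, _⟩ rfl]
    have k1 := hSU (fun s => ((lam s : ℂˣ) : ℂ)) ζ (MC (Subgroup.inclusion hS ⟨s, hs⟩))
      (isIrr_lin lam) hζ e8 (MC_class _) (by
        intro y hy
        unfold MC
        refine Finset.sum_eq_zero fun v _ => ?_
        rw [if_neg]
        intro h
        obtain ⟨a, ha, _⟩ := hconj v
        exact hy ⟨a, ha.trans h⟩)
    rw [wt_MC (fun g x => hζ.conj_eq g x), wt_MC_sub _ (Subgroup.inclusion_injective hS) _ _ hconj,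
      map_one, Units.val_one, div_one] at k1
    have hcV : (Fintype.card V' : ℂ) ≠ 0 := by
      have : Fintype.card V' ≠ 0 := Fintype.card_ne_zero
      exact_mod_cast this
    have k2 : ζ (Subgroup.inclusion hS ⟨s, hs⟩) / ζ 1 = ((lam ⟨s, hs⟩ : ℂˣ) : ℂ) := by
      rw [mul_div_assoc] at k1
      exact mul_left_cancel₀ hcV k1
    rw [← k2, mul_div_cancel₀ _ hζ1]
    rfl
  · intro hc s hs
    have e1 : ∀ v : V, ext0 ζ (v * s * v⁻¹) = ζ 1 * ((lam ⟨s, hs⟩ : ℂˣ) : ℂ) := by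
      intro v
      have h1 : v * s * v⁻¹ ∈ S := Subgroup.Normal.conj_mem inferInstance _ hs v
      rw [ext0_of_mem ζ (hS h1), hc _ h1 (hS h1), hlam v ⟨s, hs⟩ ⟨_, h1⟩ rfl]
    rw [Finset.sum_congr rfl (fun v _ => e1 v), Finset.sum_const, Finset.card_univ, nsmul_eq_mul]
    have e2 : (Fintype.card V : ℂ) * (ζ 1 * ((lam ⟨s, hs⟩ : ℂˣ) : ℂ)) / ζ 1 =
        ((Nat.card V : ℕ) : ℂ) * ((lam ⟨s, hs⟩ : ℂˣ) : ℂ) := by
      rw [Nat.card_eq_fintype_card]
      field_simp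
    rw [e2, red_natCast_mul 𝔐 _ (int_lin lam _), nsmul_eq_mul]

end Pool.Agent.DPN


end

section

/-!
# DGX: a complement which centralizes an element at which the character does not vanish
-/

namespace Pool.Agent.DPC

open Pool.Agent.DP Pool.Agent.Lib_helper13 Representation
open Pool.Agent.Lib_helper13.Dade (pCore DadeHolds dadeSum)

namespace DGX

/-- `ℓ`-subgroups lift along surjections. -/
theorem onto {X K : Type} [Group X] [Finite X] [Group K] {ℓ : ℕ} [Fact ℓ.Prime] (p : X →* K)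
    (N : Subgroup X) (Qb : Subgroup K) (hQb : IsPGroup ℓ Qb) (h : N.map p = Qb) :
    ∃ Q : Subgroup X, Q ≤ N ∧ IsPGroup ℓ Q ∧ Q.map p = Qb := by
  have hm : ∀ n : N, p n ∈ Qb := fun n => by
    rw [← h]
    exact Subgroup.mem_map_of_mem p n.2
  let f : N →* Qb := (p.comp N.subtype).codRestrict Qb hm
  have hf : Function.Surjective f := by
    rintro ⟨k, hk⟩
    have hk' := hk
    rw [← h] at hk'
    obtain ⟨n, hn, rfl⟩ := hk'
    exact ⟨⟨n, hn⟩, rfl⟩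
  obtain ⟨P0⟩ : Nonempty (Sylow ℓ N) := inferInstance
  have h1 : ((P0.mapSurjective hf : Sylow ℓ Qb) : Subgroup Qb) = ⊤ := by
    have h2 : IsPGroup ℓ (⊤ : Subgroup Qb) := hQb.to_subgroup ⊤
    exact ((P0.mapSurjective hf).3 h2 le_top).symm
  refine ⟨P0.1.map N.subtype, ?_, ?_, ?_⟩
  · rintro _ ⟨n, _, rfl⟩
    exact n.2
  · exact P0.2.map _
  · apply le_antisymm
    · rintro _ ⟨_, ⟨n, _, rfl⟩, rfl⟩
      exact hm n
    · intro k hk
      have h3 : (⟨k, hk⟩ : Qb) ∈ ((P0.mapSurjective hf : Sylow ℓ Qb) : Subgroup Qb) := by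
        rw [h1]
        trivial
      rw [Sylow.coe_mapSurjective] at h3
      obtain ⟨n, hn, he⟩ := h3
      exact ⟨n, ⟨n, hn, rfl⟩, congrArg Subtype.val he⟩

open Classical in
/-- The value of the weight on a class. -/
theorem class_sum {A : Type} [Group A] [Fintype A] {θ : A → ℂ} (hθ : IsIrr θ) (x : A) :
    (Nat.card (Subgroup.centralizer ({x} : Set A)) : ℂ) *
      wt θ (fun y => if ConjClasses.mk (id y) = ConjClasses.mk x then 1 else 0) =
      (Nat.card A : ℂ) / θ 1 * θ x := by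
  have h1 : ∑ g : A, θ (g * x * g⁻¹) = (Nat.card A : ℂ) * θ x := by
    simp only [hθ.conj_eq, Finset.sum_const, Finset.card_univ, nsmul_eq_mul,
      Nat.card_eq_fintype_card]
  have h3 : ∀ y : A, ((Finset.univ.filter (fun g : A => g * x * g⁻¹ = y)).card : ℂ) =
      if ConjClasses.mk (id y) = ConjClasses.mk x then
        (Nat.card (Subgroup.centralizer ({x} : Set A)) : ℂ) else 0 := by
    intro y
    split_ifs with h
    · rw [id, ConjClasses.mk_eq_mk_iff_isConj] at h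
      obtain ⟨g0, hg0⟩ := isConj_iff.1 h.symm
      rw [← hg0, ← Fintype.card_subtype, ← Nat.card_eq_fintype_card]
      congr 1
      refine Nat.card_congr ⟨fun g => ⟨g0⁻¹ * g.1, ?_⟩, fun z => ⟨g0 * z.1, ?_⟩, fun g => ?_,
        fun z => ?_⟩
      · rw [Subgroup.mem_centralizer_singleton_iff]
        have h4 := g.2
        have h5 : g.1 * x = g0 * x * g0⁻¹ * g.1 := by
          calc g.1 * x = g.1 * x * g.1⁻¹ * g.1 := by group
            _ = g0 * x * g0⁻¹ * g.1 := by rw [h4]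
        calc g0⁻¹ * g.1 * x = g0⁻¹ * (g.1 * x) := by group
          _ = x * (g0⁻¹ * g.1) := by
            rw [h5]
            group
      · have h4 := z.2
        rw [Subgroup.mem_centralizer_singleton_iff] at h4
        calc g0 * z.1 * x * (g0 * z.1)⁻¹ = g0 * (z.1 * x) * z.1⁻¹ * g0⁻¹ := by group
          _ = g0 * x * g0⁻¹ := by
            rw [h4]
            group
      · apply Subtype.ext
        show g0 * (g0⁻¹ * g.1) = g.1
        group
      · apply Subtype.ext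
        show g0⁻¹ * (g0 * z.1) = z.1
        group
    · rw [Finset.filter_eq_empty_iff.2, Finset.card_empty, Nat.cast_zero]
      intro g _ hg
      apply h
      rw [id, ConjClasses.mk_eq_mk_iff_isConj]
      exact (isConj_iff.2 ⟨g, hg⟩).symm
  have h2 : ∑ g : A, θ (g * x * g⁻¹) =
      ∑ y : A, (if ConjClasses.mk (id y) = ConjClasses.mk x then
        (Nat.card (Subgroup.centralizer ({x} : Set A)) : ℂ) else 0) * θ y := by
    have h4 : ∀ g : A, θ (g * x * g⁻¹) = ∑ y : A, if g * x * g⁻¹ = y then θ y else 0 := by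
      intro g
      simp
    simp only [h4]
    rw [Finset.sum_comm]
    refine Finset.sum_congr rfl fun y _ => ?_
    rw [← h3 y, Finset.sum_ite, Finset.sum_const_zero, add_zero, Finset.sum_const, nsmul_eq_mul]
  have h5 : (Nat.card A : ℂ) / θ 1 * θ x = (Nat.card A : ℂ) * θ x / θ 1 := by ring
  rw [h5, ← h1, h2, wt, ← mul_div_assoc, Finset.mul_sum]
  congr 1
  refine Finset.sum_congr rfl fun y _ => ?_
  split_ifs
  · ring
  · ring

/-- Elements of `ℓ`-power order of a group of order prime to `ℓ`. -/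
theorem elt_one {A : Type} [Group A] [Fintype A] {ℓ : ℕ} [Fact ℓ.Prime] {y : A}
    (h : ¬ ℓ ∣ Nat.card (Subgroup.centralizer ({y} : Set A))) :
    ∀ g : A, g * y = y * g → ∀ k : ℕ, g ^ ℓ ^ k = 1 → g = 1 := by
  intro g hg k hk
  have h1 : g ∈ Subgroup.centralizer ({y} : Set A) := by
    rw [Subgroup.mem_centralizer_singleton_iff]
    exact hg
  have h2 : orderOf (⟨g, h1⟩ : Subgroup.centralizer ({y} : Set A)) ∣
      Nat.card (Subgroup.centralizer ({y} : Set A)) := orderOf_dvd_natCard _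
  rw [Subgroup.orderOf_mk] at h2
  have h3 : orderOf g ∣ ℓ ^ k := orderOf_dvd_of_pow_eq_one hk
  obtain ⟨i, _, hi⟩ := (Nat.dvd_prime_pow (Fact.out : ℓ.Prime)).1 h3
  rw [← orderOf_eq_one_iff, hi]
  rcases Nat.eq_zero_or_pos i with rfl | hi0
  · exact pow_zero _
  · exfalso
    apply h
    rw [hi] at h2
    exact (dvd_pow_self ℓ hi0.ne').trans h2

end DGX

open _root_.Pool.Agent.DPC.DGX

theorem DGX_thm : Stmt_DGX := by
  intro A X K _ _ _ _ _ 𝔐 ℓ _ hmax hℓ j c p hc Qb hQb hle θ hθ h0 hinv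
  classical
  haveI h𝔐 : 𝔐.IsPrime := hmax.isPrime
  have hM : (Qb.comap p).map p = Qb := Subgroup.map_comap_eq_self hle
  obtain ⟨P, hPM, hP, hPQ⟩ := onto p (Qb.comap p) Qb hQb hM
  -- the action on the classes
  let act : MulAction P (ConjClasses A) :=
    { smul := fun q L => ConjClasses.map (c q).toMonoidHom L
      one_smul := by
        rintro ⟨a⟩
        show ConjClasses.mk (c ((1 : P) : X) a) = ConjClasses.mk a
        rw [OneMemClass.coe_one, map_one]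
        rfl
      mul_smul := by
        rintro q q' ⟨a⟩
        show ConjClasses.mk (c ((q * q' : P) : X) a) = ConjClasses.mk (c q (c q' a))
        rw [Subgroup.coe_mul, map_mul]
        rfl }
  have hsmul : ∀ (q : P) (a : A), q • ConjClasses.mk a = ConjClasses.mk (c q a) := fun _ _ => rfl
  obtain ⟨w, hw⟩ : ∃ w : ConjClasses A → ℂ, w = fun L =>
    wt θ (fun y => if ConjClasses.mk (id y) = L then 1 else 0) := ⟨_, rfl⟩
  obtain ⟨F, hF⟩ := exists_lift_class (fun x => θ x⁻¹) (by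
    intro g x
    have : (g * x * g⁻¹)⁻¹ = g * x⁻¹ * g⁻¹ := by group
    rw [this, hθ.conj_eq])
  have hsum : wt θ (fun y => F (ConjClasses.mk (id y))) = ∑ L, F L * w L := by
    rw [hw]
    exact wt_comp_classes id θ F
  have hL : wt θ (fun y => F (ConjClasses.mk (id y))) = (Nat.card A : ℂ) / θ 1 := by
    unfold wt
    congr 1
    rw [← hθ.sum_self]
    refine Finset.sum_congr rfl fun y _ => ?_
    show F (ConjClasses.mk y) * θ y = θ y * θ y⁻¹
    rw [hF, mul_comm]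
  have hFi : ∀ L, IsIntegral ℤ (F L) := by
    rintro ⟨x⟩
    have := isIntegral_char hθ x⁻¹
    rwa [← hF x] at this
  have hwi : ∀ L, IsIntegral ℤ (w L) := by
    intro L
    rw [hw]
    apply isIntegral_wt hθ
    · intro g x
      have : ConjClasses.mk (id (g * x * g⁻¹)) = ConjClasses.mk (id x) := by
        rw [ConjClasses.mk_eq_mk_iff_isConj]
        exact isConj_iff.mpr ⟨g⁻¹, by simp only [id]; group⟩
      rw [this]
    · intro y
      split_ifs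
      · exact isIntegral_one
      · exact isIntegral_zero
  have hFinv : ∀ (q : P) (L : ConjClasses A), F (q • L) = F L := by
    rintro q ⟨x⟩
    show F (q • ConjClasses.mk x) = F (ConjClasses.mk x)
    rw [hsmul, hF, hF, ← map_inv]
    exact hinv q (hPM q.2) _
  have hwinv : ∀ (q : P) (L : ConjClasses A), w (q • L) = w L := by
    rintro q ⟨x⟩
    show w (q • ConjClasses.mk x) = w (ConjClasses.mk x)
    rw [hsmul, hw]
    simp only [wt, id]
    congr 1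
    rw [← Equiv.sum_comp (c q).toEquiv]
    refine Finset.sum_congr rfl fun z _ => ?_
    have h1 : θ ((c q).toEquiv z) = θ z := hinv q (hPM q.2) z
    rw [h1]
    congr 1
    have h2 : ConjClasses.mk ((c q).toEquiv z) = ConjClasses.mk (c q x) ↔
        ConjClasses.mk z = ConjClasses.mk x := by
      rw [ConjClasses.mk_eq_mk_iff_isConj, ConjClasses.mk_eq_mk_iff_isConj]
      constructor
      · intro h
        have h3 := (c (q : X)).symm.toMonoidHom.map_isConj h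
        have h4 : ∀ a : A, (c (q : X)).symm.toMonoidHom (c q a) = a :=
          fun a => (c (q : X)).symm_apply_apply a
        rw [h4] at h3
        have h5 : (c (q : X)).symm.toMonoidHom ((c (q : X)).toEquiv z) = z := h4 z
        rwa [h5] at h3
      · intro h
        exact (c (q : X)).toMonoidHom.map_isConj h
    simp only [h2]
  -- a class fixed by `P`
  have hne : red 𝔐 ((Nat.card A : ℂ) / θ 1) ≠ 0 := red_codeg_ne_zero 𝔐 hℓ hθ h0
  have hcod : IsIntegral ℤ ((Nat.card A : ℂ) / θ 1) := by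
    rw [← hL, hsum]
    exact isIntegral_sum _ _ fun L _ => (hFi L).mul (hwi L)
  obtain ⟨L, hLfix, hFL, hwL⟩ : ∃ L : ConjClasses A, (∀ q : P, q • L = L) ∧
      red 𝔐 (F L) ≠ 0 ∧ red 𝔐 (w L) ≠ 0 := by
    by_contra hcon
    push Not at hcon
    apply hne
    rw [← hL, hsum, red_sum 𝔐 _ _ fun L _ => (hFi L).mul (hwi L)]
    rw [sum_eq_sum_fixed hP (fun m => nsmul_quot_eq_zero 𝔐 hℓ m)
      (fun L => red 𝔐 (F L * w L)) (fun q L => by rw [hFinv, hwinv])]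
    refine Finset.sum_eq_zero fun L hL' => ?_
    rw [Finset.mem_filter] at hL'
    rw [red_mul 𝔐 (hFi L) (hwi L)]
    by_cases h1 : red 𝔐 (F L) = 0
    · rw [h1, zero_mul]
    · rw [hcon L hL'.2 h1, mul_zero]
  obtain ⟨y, rfl⟩ := L.exists_rep
  change ∀ q : P, q • ConjClasses.mk y = ConjClasses.mk y at hLfix
  change red 𝔐 (F (ConjClasses.mk y)) ≠ 0 at hFL
  change red 𝔐 (w (ConjClasses.mk y)) ≠ 0 at hwL
  rw [hF] at hFL
  -- the centralizer
  have hred : ∀ x : A, (Nat.card (Subgroup.centralizer ({x} : Set A))) •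
      red 𝔐 (w (ConjClasses.mk x)) = red 𝔐 ((Nat.card A : ℂ) / θ 1) * red 𝔐 (θ x) := by
    intro x
    rw [← red_natCast_mul 𝔐 _ (hwi _), ← red_mul 𝔐 hcod (isIntegral_char hθ x)]
    congr 1
    rw [hw]
    exact class_sum hθ x
  have hcard : ¬ ℓ ∣ Nat.card (Subgroup.centralizer ({y} : Set A)) := by
    intro hdvd
    have h1 := hred y⁻¹
    have h2 : Subgroup.centralizer ({y⁻¹} : Set A) = Subgroup.centralizer ({y} : Set A) := by
      ext g
      rw [Subgroup.mem_centralizer_singleton_iff, Subgroup.mem_centralizer_singleton_iff]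
      constructor
      · intro h
        calc g * y = y * (y⁻¹ * g) * y := by group
          _ = y * g := by
            rw [← h]
            group
      · intro h
        calc g * y⁻¹ = y⁻¹ * (y * g) * y⁻¹ := by group
          _ = y⁻¹ * g := by
            rw [← h]
            group
    rw [h2] at h1
    obtain ⟨m, hm⟩ := hdvd
    rw [hm, mul_comm, mul_smul, nsmul_quot_eq_zero 𝔐 hℓ, smul_zero] at h1
    exact mul_ne_zero hne hFL h1.symm
  have hθy : red 𝔐 (θ y) ≠ 0 := by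
    intro h1
    have h2 := hred y
    rw [h1, mul_zero, nsmul_eq_mul] at h2
    have h3 : ((Nat.card (Subgroup.centralizer ({y} : Set A)) : ℕ) :
        (integralClosure ℤ ℂ) ⧸ 𝔐) ≠ 0 := by
      have h4 := red_card_ne_zero 𝔐 hℓ hcard
      rwa [red_natCast] at h4
    exact mul_ne_zero h3 hwL h2
  -- the complement
  have hN : ((Qb.comap p) ⊓ Subgroup.centralizer ({j y} : Set X)).map p = Qb := by
    apply le_antisymm
    · rintro _ ⟨x, hx, rfl⟩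
      exact hx.1
    · intro k hk
      rw [← hPQ] at hk
      obtain ⟨q, hq, rfl⟩ := hk
      have h1 := hLfix ⟨q, hq⟩
      rw [hsmul, ConjClasses.mk_eq_mk_iff_isConj] at h1
      obtain ⟨a, ha⟩ := isConj_iff.1 h1
      change a * c q y * a⁻¹ = y at ha
      refine ⟨j a * q, ⟨?_, ?_⟩, ?_⟩
      · show p (j a * q) ∈ Qb
        rw [map_mul, (hc.ker (j a)).2 ⟨a, rfl⟩, one_mul]
        exact hPM hq
      · show j a * q ∈ Subgroup.centralizer ({j y} : Set X)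
        rw [Subgroup.mem_centralizer_singleton_iff]
        have h2 := congrArg j ha
        rw [map_mul, map_mul, map_inv, hc.act] at h2
        calc j a * q * j y = (j a * (q * j y * q⁻¹) * (j a)⁻¹) * (j a * q) := by group
          _ = j y * (j a * q) := by rw [h2]
      · rw [map_mul, (hc.ker (j a)).2 ⟨a, rfl⟩, one_mul]
  obtain ⟨Q, hQN, hQ, hQp⟩ := onto p _ Qb hQb hN
  refine ⟨Q, y, hQ, ?_, hQp, ?_, elt_one hcard, hθy⟩
  · rw [eq_bot_iff]
    rintro x ⟨hxQ, a, rfl⟩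
    have h1 : j a ∈ Subgroup.centralizer ({j y} : Set X) := (hQN hxQ).2
    rw [Subgroup.mem_centralizer_singleton_iff, ← map_mul, ← map_mul] at h1
    obtain ⟨k, hk⟩ := hQ ⟨j a, hxQ⟩
    have h2 : j (a ^ ℓ ^ k) = j 1 := by
      rw [map_pow, map_one]
      exact congrArg Subtype.val hk
    have h3 := elt_one hcard a (hc.inj h1) k (hc.inj h2)
    rw [h3, map_one]
    exact Subgroup.one_mem _
  · intro b hb
    have h1 : b ∈ Subgroup.centralizer ({j y} : Set X) := (hQN hb).2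
    rw [Subgroup.mem_centralizer_singleton_iff] at h1
    apply hc.inj
    rw [hc.act, h1]
    group

end Pool.Agent.DPC


end

section

/-!
# FAMr: existence of families of reduced data, for the groups of a class
-/

set_option autoImplicit false
set_option linter.unusedVariables false

namespace Pool.Agent.DPK

open Pool.Agent.DP Pool.Agent.DPC Pool.Agent.DPM Pool.Agent.DPN Pool.Agent.DPT Pool.Agent.DPF
open Pool.Agent.Lib_helper13
open Representation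
open Pool.Agent.Lib_helper13.Dade (pCore DadeHolds dadeSum)

theorem FAMr_thm (Cl : ∀ (Y : Type) [Group Y], Prop) (hC : GC Cl) (h1 : Stmt_RDXr Cl)
    (h2 : Stmt_WFP) (h3 : Stmt_RRN) : Stmt_FAMr Cl := by
  intro O X H _ _ _ _ _ _ 𝔐 ℓ _ hM hℓ j c p h hcore hCl hQ a Z Λ
  classical
  have := Pool.Agent.DPN.FAM.finite_idx h 𝔐 ℓ a Z Λ
  obtain ⟨W, iW, fW, π, hπ, hc, hl, hx⟩ := h2 (Pool.Agent.DPN.FAM.Idx h 𝔐 ℓ a Z Λ) H
    (fun x => ↥(stb x.1.1)) (fun x => ↥(YS j x.1.1)) 𝔐 ℓ hM hℓ (fun _ => a)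
    (fun x => jS h x.1.1) (fun x => pS p j x.1.1) (fun x => x.1.2)
    (fun x => x.2.fp.1)
    (fun x => h1 (stb x.1.1) (YS j x.1.1) H 𝔐 ℓ hM hℓ (jS h x.1.1) (cS h x.1.1)
      (pS p j x.1.1) (clG_S h x.1.1) x.2.fp.1 hcore hCl hQ x.1.2 x.2.irr x.2.fp.2 a x.2.df)
  choose μ' Lm' hR using hx
  let μ : ∀ τ : Finset (Subgroup O), (stb τ → ℂ) → (π.ker →* ℂˣ) := fun τ θ =>
    if hp : Pr h 𝔐 ℓ a Z Λ τ θ then μ' ⟨⟨τ, θ⟩, hp⟩ else 1
  let Lm : ∀ τ : Finset (Subgroup O), (stb τ → ℂ) → (YS j τ → ℤ) → W →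
      (integralClosure ℤ ℂ) ⧸ 𝔐 := fun τ θ =>
    if hp : Pr h 𝔐 ℓ a Z Λ τ θ then Lm' ⟨⟨τ, θ⟩, hp⟩ else 0
  obtain ⟨R, hRR⟩ := h3 O X H W 𝔐 ℓ hM hℓ j c p h a Z Λ π hπ hc hl μ Lm (by
    intro τ θ hp
    have e1 : μ τ θ = μ' ⟨⟨τ, θ⟩, hp⟩ := dif_pos hp
    have e2 : Lm τ θ = Lm' ⟨⟨τ, θ⟩, hp⟩ := dif_pos hp
    rw [e1, e2]
    exact hR ⟨⟨τ, θ⟩, hp⟩)
  exact ⟨W, iW, fW, π, R, μ, Lm, hRR⟩

end Pool.Agent.DPK


end

section

/-!
# PS1r: the sum over the chains of a normal subgroup vanishes if there are no characters of minimal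
defect (for the groups of a class)
-/

namespace Pool.Agent.DPK

open Pool.Agent.DP Pool.Agent.DPC Pool.Agent.DPM Pool.Agent.DPN Pool.Agent.DPT
open Pool.Agent.Lib_helper13
open Representation
open Pool.Agent.Lib_helper13.Dade (pCore DadeHolds dadeSum)

theorem PS1r_thm (Cl : ∀ (Y : Type) [Group Y], Prop) (hC : GC Cl) (h1 : Stmt_PSNr Cl)
    (h2 : Stmt_CHI) : Stmt_PS1r Cl := by
  intro L K H _ _ _ _ _ _ 𝔐 ℓ _ hM hℓ π hπ hc hcyc μ hμ hCl hQ M hMn p hp hpk P hP ω hPos d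
  rw [PSO.PHU_eq h2]
  by_contra hne
  exact PSO.not_GdF hPos
    (h1 ℓ K hCl hQ L H 𝔐 hM hℓ π hπ hc hcyc μ hμ M hMn p hpk (PSO.hh hP) ω d hne)

end Pool.Agent.DPK


end

section

/-!
# T2R: the twisted relations (for the groups of a class)
-/

namespace Pool.Agent.DPK

open Pool.Agent.DP Pool.Agent.DPC Pool.Agent.DPM Pool.Agent.DPN Pool.Agent.DPT Pool.Agent.DPF
open Pool.Agent.Lib_helper13
open Representation
open Pool.Agent.Lib_helper13.Dade (pCore DadeHolds dadeSum)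

open Classical in
theorem T2Rr_thm (Cl : ∀ (Y : Type) [Group Y], Prop) (hC : GC Cl) (h1 : Stmt_PS3r Cl)
    (h2 : Stmt_EXPU) (h3 : Stmt_FBA) (h4 : Stmt_FBB) (h5 : Stmt_FBC) : Stmt_T2Rr Cl := by
  have _hC := hC
  intro L K H W _ _ _ _ _ _ _ _ 𝔐 ℓ _ hmax hl π hπ hc μ M _ p hp hpM P hP hClK hQ ω hpos πW hW
    hWc ν hE m hm ν' n
  obtain ⟨s1, s2, s3⟩ := h3 L K H W 𝔐 ℓ hmax hl π hπ hc μ M p hp hpM ω πW hW hWc ν'
  have s4 := s3 hpos
  have e0 : ∀ V : Subgroup H,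
      PHU 𝔐 ℓ n (piY π p πW) (muY π p πW μ ν') M (V.comap p) (omY 𝔐 π p πW ν' ω) = 0 := by
    intro V
    exact h1 _ K H 𝔐 ℓ hmax hl (piY π p πW) s1 s2 (muY π p πW μ ν') M p hp hpM P hP _ s4 V hClK
      (hQ.mono (Nat.card_le_card_of_injective _ (Subgroup.subtype_injective _))) n
  have e1 := h2 _ K H 𝔐 ℓ (piY π p πW) s1 s2 (muY π p πW μ ν') M p hp hpM
    (omY 𝔐 π p πW ν' ω) n m hm
  have e2 : ∑ V, m V * PHU 𝔐 ℓ n (piY π p πW) (muY π p πW μ ν') M (V.comap p)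
      (omY 𝔐 π p πW ν' ω) = 0 := by
    apply Finset.sum_eq_zero
    intro V _
    rw [e0 V, mul_zero]
  rw [e2] at e1
  rw [e1]
  apply Finset.sum_congr rfl
  intro τ _
  congr 1
  rw [h4 L K H W 𝔐 ℓ hmax hl π hπ hc μ M p hp hpM ω πW hW hWc ν' τ
    (fun θ => (Nat.card ↥(M ⊓ stb (mapCh M.subtype τ)) : ℚ) *
            ∑ V : Subgroup H, m V * ((Nat.card V : ℚ) *
              Nat.card {ψ : ↥(SL (piY π p πW) M τ (V.comap p)) → ℂ // IsIrr ψ ∧
                ip (fun a : ↥(SL (piY π p πW) M τ M) => ext0 ψ (a : fpr (p.comp π) πW)) θ ≠ 0 ∧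
                HasDefect ℓ ψ n}))]
  apply Finset.sum_congr rfl
  intro θ hθ
  rw [Finset.mem_filter] at hθ
  congr 1
  apply Finset.sum_congr rfl
  intro V _
  rw [h5 L K H W 𝔐 ℓ hmax hl π hπ hc μ M p hp hpM ω πW hW hWc (ν τ θ) ν' τ θ hθ.2
    (hE τ θ hθ.2) V n]

end Pool.Agent.DPK


end

section

/-!
# Theorem V: assembly
-/

namespace Pool.Agent.DPV

open Pool.Agent.DP Pool.Agent.Lib_helper13 Representation
open Pool.Agent.Lib_helper13.Dade (pCore DadeHolds dadeSum IsIrrChar)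

/-- The contribution of an outer chain. -/
theorem inner_zeroV (hRINNV : Stmt_RINNV) (hCORE : Pool.Agent.DP.Stmt_CORE) (hHATI : Stmt_HATI)
    (hBLKBR : Pool.Agent.DP.Stmt_BLKBR)
    (Ω G B C X K : Type) [Fintype Ω] [DecidableEq Ω] [Group G] [Fintype G] [Group B]
    [Fintype B] [Group C] [Group X] [Fintype X] [Group K] (𝔐 : Ideal (integralClosure ℤ ℂ))
    (ℓ : ℕ) [Fact ℓ.Prime] (h𝔐 : 𝔐.IsMaximal) (hℓ : (ℓ : integralClosure ℤ ℂ) ∈ 𝔐)
    (ι : G →* B) (κ : B →* MulAut G) (ρ : B →* C) (hL : LocA ℓ ι κ ρ)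
    (B' C' : Type) [Group B'] [Fintype B'] [Group C'] (ι' : G →* B') (κ' : B' →* MulAut G)
    (ρ' : B' →* C') (π : B' →* B) (hV : LocV ι' κ' ρ') (hπ : Function.Surjective π)
    (hπι : ∀ g, π (ι' g) = ι g) (hκ : κ' = κ.comp π) (hker : ¬ ℓ ∣ Nat.card π.ker)
    (hLV : ∀ (L : Subgroup C') (β : Set (B' → (integralClosure ℤ ℂ) ⧸ 𝔐)) (e : ℕ),
      ¬ dzT 𝔐 ℓ ι' β → VS 𝔐 ℓ ι' κ' ρ' L β e = 0)
    (e : (Ω → G) →* X) (p : X →* K) (φ : X →* Gam (Equiv.Perm Ω) Ω B) (hE : ExtS ι κ e p φ)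
    (χ : X → ℂ) (ξ : Ω → G → ℂ) (w : Ω) (e' : ℕ) (hχ : IsIrr χ) (hξ : ∀ a, IsIrr (ξ a))
    (hover : ip (resj e χ) (fun n => ∏ a, ξ a (n a)) ≠ 0)
    (he : HasDefect ℓ (ξ w) e') (he0 : 0 < e') (Z : Subgroup X) (hZn : Z.Normal)
    (heN : e.range.Normal) (hZ : IsPGroup ℓ Z) (hZN : Z ⊓ e.range = ⊥) (d : ℕ)
    (c : Finset (Subgroup X)) (hc : IsCh ℓ Z c) (hcN : ∀ D ∈ c, D ⊓ e.range = ⊥) :
    innerS ℓ Z e.range (WW 𝔐 ℓ d (cen 𝔐 (MonoidHom.id X) χ)) c = 0 := by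
  classical
  rcases hRINNV Ω G B C X K ℓ ι κ ρ hL e p φ hE Z hZn hZ hZN c hc hcN with h | h
  · exact hCORE X ℓ Z e.range _ c hc h
  · obtain ⟨O, K', _, _, _, _, π₀, u, j, p', φ', hE', hπ₀, hcard, hj, hrange, hsum⟩ := h
    rw [hsum]
    have h1 := hHATI O G B C B' C' (stb c) K' X 𝔐 ℓ h𝔐 hℓ ι κ ρ hL.locN ι' κ' ρ' π hV hπ hπι hκ
      hker hLV j p' φ' hE' (stb c).subtype (Subgroup.subtype_injective _)
      (cen 𝔐 (MonoidHom.id X) χ) (by
        intro ψ θ hψ hθ hθd hψθ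
        exact hBLKBR Ω O G B X (stb c) K K' 𝔐 ℓ h𝔐 hℓ ι κ e p φ j p' φ' hE hE' (stb c).subtype π₀
          u hcard hj hrange χ ξ w e' hχ hξ hover he he0 ψ θ hψ hθ hθd hψθ) d
    rw [← h1]
    refine Finset.sum_congr rfl fun τ hτ => ?_
    rw [WW_map 𝔐 ℓ d _ (stb c).subtype (Subgroup.subtype_injective _)]

/-- The vanishing of the sums of Dade. -/
theorem finalV (hSPLIT : Pool.Agent.DP.Stmt_SPLIT) (hCORE : Pool.Agent.DP.Stmt_CORE)
    (hRINNV : Stmt_RINNV) (hZRR : Pool.Agent.DP.Stmt_ZRR) (hHATI : Stmt_HATI)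
    (hBLKBR : Pool.Agent.DP.Stmt_BLKBR)
    (Ω G B C X K : Type) [Fintype Ω] [DecidableEq Ω] [Group G] [Fintype G] [Group B]
    [Fintype B] [Group C] [Group X] [Fintype X] [Group K] (𝔐 : Ideal (integralClosure ℤ ℂ))
    (ℓ : ℕ) [Fact ℓ.Prime] (h𝔐 : 𝔐.IsMaximal) (hℓ : (ℓ : integralClosure ℤ ℂ) ∈ 𝔐)
    (ι : G →* B) (κ : B →* MulAut G) (ρ : B →* C) (hL : LocA ℓ ι κ ρ)
    (B' C' : Type) [Group B'] [Fintype B'] [Group C'] (ι' : G →* B') (κ' : B' →* MulAut G)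
    (ρ' : B' →* C') (π : B' →* B) (hV : LocV ι' κ' ρ') (hπ : Function.Surjective π)
    (hπι : ∀ g, π (ι' g) = ι g) (hκ : κ' = κ.comp π) (hker : ¬ ℓ ∣ Nat.card π.ker)
    (hLV : ∀ (L : Subgroup C') (β : Set (B' → (integralClosure ℤ ℂ) ⧸ 𝔐)) (e : ℕ),
      ¬ dzT 𝔐 ℓ ι' β → VS 𝔐 ℓ ι' κ' ρ' L β e = 0)
    (e : (Ω → G) →* X) (p : X →* K) (φ : X →* Gam (Equiv.Perm Ω) Ω B) (hE : ExtS ι κ e p φ)
    (χ : X → ℂ) (ξ : Ω → G → ℂ) (w : Ω) (e' : ℕ) (hχ : IsIrr χ) (hξ : ∀ a, IsIrr (ξ a))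
    (hover : ip (resj e χ) (fun n => ∏ a, ξ a (n a)) ≠ 0)
    (he : HasDefect ℓ (ξ w) e') (he0 : 0 < e') (d : ℕ) : dadeSum 𝔐 ℓ χ d = 0 := by
  classical
  obtain ⟨hZn, hZ, heN, hZN⟩ := hZRR Ω G B X K ℓ ι κ hL.core e p φ hE
  have h1 := dadeSum_eq 𝔐 ℓ d hχ
  have h2 : KK 𝔐 ℓ d (pCore ℓ X) (cen 𝔐 (MonoidHom.id X) χ) = 0 := by
    rw [KK]
    have h3 := hSPLIT X ℓ (pCore ℓ X) e.range hZ hZN
      (WW 𝔐 ℓ d (cen 𝔐 (MonoidHom.id X) χ))
    refine Eq.trans h3 ?_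
    refine Finset.sum_eq_zero fun c hc => ?_
    have hc' : IsCh ℓ (pCore ℓ X) c ∧ ∀ D ∈ c, D ⊓ e.range = ⊥ := by
      rw [OutC, Finset.mem_filter, mem_Ch] at hc
      exact hc
    rw [inner_zeroV hRINNV hCORE hHATI hBLKBR Ω G B C X K 𝔐 ℓ h𝔐 hℓ ι κ ρ hL B' C' ι' κ' ρ' π hV
      hπ hπι hκ hker hLV e p φ hE χ ξ w e' hχ hξ hover he he0 (pCore ℓ X) hZn heN hZ hZN d c
      hc'.1 hc'.2, mul_zero]
  rw [h2] at h1
  have h3 : (Nat.card X : ℚ) ≠ 0 := by exact_mod_cast Nat.card_pos.ne'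
  have h4 := (mul_eq_zero.mp h1).resolve_left h3
  exact_mod_cast h4

/-- The local sums of `G` vanish, for all groups `B` with quotient of order prime to `ℓ` and
extendible characters. -/
def LVHolds (𝔐 : Ideal (integralClosure ℤ ℂ)) (ℓ : ℕ) (G : Type) [Group G] [Fintype G] : Prop :=
  ∀ (B C : Type) [Group B] [Fintype B] [Group C] (ι : G →* B) (κ : B →* MulAut G) (ρ : B →* C),
    LocV ι κ ρ → ¬ ℓ ∣ Nat.card C →
    ∀ (L : Subgroup C) (β : Set (B → (integralClosure ℤ ℂ) ⧸ 𝔐)) (e : ℕ),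
      ¬ dzT 𝔐 ℓ ι β → VS 𝔐 ℓ ι κ ρ L β e = 0

theorem mainW (hSPLIT : Pool.Agent.DP.Stmt_SPLIT) (hCORE : Pool.Agent.DP.Stmt_CORE)
    (hRINNV : Stmt_RINNV) (hZRR : Pool.Agent.DP.Stmt_ZRR) (hRX0V : Stmt_RX0V)
    (hHATG : Stmt_HATG) (hHATI : Stmt_HATI) (hBLKBR : Pool.Agent.DP.Stmt_BLKBR)
    (ℓ : ℕ) (hℓ : ℓ.Prime) (G : Type) [Group G] [Finite G] (hcen : Subgroup.center G = ⊥)
    (hcore : pCore ℓ G = ⊥) (A : Subgroup (MulAut G))
    (hA : (MulAut.conj : G →* MulAut G).range ≤ A)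
    (hcop : ¬ ℓ ∣ (MulAut.conj : G →* MulAut G).range.relIndex A)
    (X Ω : Type) [Group X] [Finite X] [Fintype Ω] (e : (Ω → G) →* X)
    (he : Function.Injective e)
    (hact : ∀ y : X, ∃ (s : Equiv.Perm Ω) (α : Ω → MulAut G), (∀ i, α i ∈ A) ∧
      ∀ x : Ω → G, y * e x * y⁻¹ = e (fun i => α i (x (s i))))
    (𝔐 : Ideal (integralClosure ℤ ℂ)) (h𝔐 : 𝔐.IsMaximal)
    (hℓ𝔐 : (ℓ : integralClosure ℤ ℂ) ∈ 𝔐)
    (hLV : ∀ hf : Fintype G, @LVHolds 𝔐 ℓ G _ hf) (ξ : Ω → G → ℂ) (hξ : ∀ a, IsIrrChar (ξ a))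
    (w : Ω) (hw : ¬ Dade.HasDefect ℓ (ξ w) 0) (χ : X → ℂ) (hχ : IsIrrChar χ)
    (hover : ∑ᶠ x : Ω → G, χ (e x) * ∏ i, ξ i (x i)⁻¹ ≠ 0) (d : ℕ) : dadeSum 𝔐 ℓ χ d = 0 := by
  classical
  have hf : Fact ℓ.Prime := ⟨hℓ⟩
  have hG' : Fintype G := Fintype.ofFinite G
  have hX' : Fintype X := Fintype.ofFinite X
  have hnt : Nontrivial G := by
    by_contra hcon
    rw [not_nontrivial_iff_subsingleton] at hcon
    obtain ⟨n, hn, hn'⟩ := IsIrr.exists_degree (χ := ξ w) (hξ w)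
    apply hw
    refine ⟨n, hn', ?_⟩
    have h1 : Nat.card G = 1 := Nat.card_of_subsingleton 1
    have h2 : n ∣ Nat.card G := IsIrr.degree_dvd (χ := ξ w) (hξ w) hn'
    rw [h1] at h2 ⊢
    rw [Nat.dvd_one.mp h2, zero_add]
  obtain ⟨e', he'⟩ := IsIrr.exists_defect (ℓ := ℓ) (χ := ξ w) (hξ w)
  have he0 : 0 < e' := by
    rcases Nat.eq_zero_or_pos e' with rfl | h
    · exact absurd he' hw
    · exact h
  obtain ⟨B, C, K, _, _, _, _, ι, κ, ρ, p, φ, hL, hE⟩ :=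
    hRX0V G X Ω ℓ hcore hcen hnt A hA hcop e he hact
  obtain ⟨B', C', _, _, _, ι', κ', ρ', π, hV, hπ, hπι, hκ, hker, hC'⟩ :=
    hHATG G B C ℓ ι κ ρ hL.locN hL.cop
  refine finalV hSPLIT hCORE hRINNV hZRR hHATI hBLKBR Ω G B C X K 𝔐 ℓ h𝔐 hℓ𝔐 ι κ ρ hL B' C' ι' κ'
    ρ' π hV hπ hπι hκ hker (hLV hG' B' C' ι' κ' ρ' hV hC') e p φ hE χ ξ w e' hχ hξ ?_ he' he0 d
  rw [finsum_eq_sum_of_fintype] at hover
  rw [ip]
  refine div_ne_zero ?_ natCard_ne_zero
  exact hover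

theorem mainV' (hSPLIT : Pool.Agent.DP.Stmt_SPLIT) (hCORE : Pool.Agent.DP.Stmt_CORE)
    (hRINNV : Stmt_RINNV) (hZRR : Pool.Agent.DP.Stmt_ZRR) (hRX0V : Stmt_RX0V)
    (hHATG : Stmt_HATG) (hHATI : Stmt_HATI) (hBLKBR : Pool.Agent.DP.Stmt_BLKBR)
    (hLVB : Stmt_LVB)
    (ℓ : ℕ) (hℓ : ℓ.Prime) (G : Type) [Group G] [Finite G] (hcen : Subgroup.center G = ⊥)
    (hcore : pCore ℓ G = ⊥) (hG : ¬ ℓ ^ 2 ∣ Nat.card G) (A : Subgroup (MulAut G))
    (hA : (MulAut.conj : G →* MulAut G).range ≤ A)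
    (hcop : ¬ ℓ ∣ (MulAut.conj : G →* MulAut G).range.relIndex A)
    (X Ω : Type) [Group X] [Finite X] [Fintype Ω] (e : (Ω → G) →* X)
    (he : Function.Injective e)
    (hact : ∀ y : X, ∃ (s : Equiv.Perm Ω) (α : Ω → MulAut G), (∀ i, α i ∈ A) ∧
      ∀ x : Ω → G, y * e x * y⁻¹ = e (fun i => α i (x (s i))))
    (𝔐 : Ideal (integralClosure ℤ ℂ)) (h𝔐 : 𝔐.IsMaximal)
    (hℓ𝔐 : (ℓ : integralClosure ℤ ℂ) ∈ 𝔐) (ξ : Ω → G → ℂ) (hξ : ∀ a, IsIrrChar (ξ a))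
    (w : Ω) (hw : ¬ Dade.HasDefect ℓ (ξ w) 0) (χ : X → ℂ) (hχ : IsIrrChar χ)
    (hover : ∑ᶠ x : Ω → G, χ (e x) * ∏ i, ξ i (x i)⁻¹ ≠ 0) (d : ℕ) : dadeSum 𝔐 ℓ χ d = 0 := by
  have hf : Fact ℓ.Prime := ⟨hℓ⟩
  exact mainW hSPLIT hCORE hRINNV hZRR hRX0V hHATG hHATI hBLKBR ℓ hℓ G hcen hcore A hA hcop X Ω e
    he hact 𝔐 h𝔐 hℓ𝔐 (fun _ B C _ _ _ ι κ ρ hV hC => hLVB G B C 𝔐 ℓ h𝔐 hℓ𝔐 ι κ ρ hV hC hG) ξ hξ w
    hw χ hχ hover d

end Pool.Agent.DPV


end

section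

/-!
# Theorem W: assembly of the global part
-/

namespace Pool.Agent.DPW

open Pool.Agent.DP Pool.Agent.DPV Pool.Agent.Lib_helper13 Representation
open Pool.Agent.Lib_helper13.Dade (pCore DadeHolds dadeSum IsIrrChar)

/-- The contribution of an outer chain. -/
theorem inner_zeroW (hRINNP : Stmt_RINNP) (hCORE : Pool.Agent.DP.Stmt_CORE)
    (hHATIP : Stmt_HATIP) (hBLKP : Stmt_BLKP)
    (Ω G B C X K : Type) [Fintype Ω] [DecidableEq Ω] [Group G] [Fintype G] [Group B]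
    [Fintype B] [Group C] [Group X] [Fintype X] [Group K] (𝔐 : Ideal (integralClosure ℤ ℂ))
    (ℓ : ℕ) [Fact ℓ.Prime] (h𝔐 : 𝔐.IsMaximal) (hℓ : (ℓ : integralClosure ℤ ℂ) ∈ 𝔐)
    (ι : G →* B) (κ : B →* MulAut G) (ρ : B →* C) (hL : LocN ι κ ρ) (hC : ¬ ℓ ∣ Nat.card C)
    (B' C' : Type) [Group B'] [Fintype B'] [Group C'] (ι' : G →* B') (κ' : B' →* MulAut G)
    (ρ' : B' →* C') (π : B' →* B) (hV : LocV ι' κ' ρ') (hπ : Function.Surjective π)
    (hπι : ∀ g, π (ι' g) = ι g) (hκ : κ' = κ.comp π) (hker : ¬ ℓ ∣ Nat.card π.ker)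
    (Pr : (G → (integralClosure ℤ ℂ) ⧸ 𝔐) → Prop) (hPr : AdmP ℓ κ Pr)
    (hLV : ∀ (L : Subgroup C') (β : Set (B' → (integralClosure ℤ ℂ) ⧸ 𝔐)) (e : ℕ),
      gT ι' Pr β → VS 𝔐 ℓ ι' κ' ρ' L β e = 0)
    (e : (Ω → G) →* X) (p : X →* K) (φ : X →* Gam (Equiv.Perm Ω) Ω B) (hE : ExtS ι κ e p φ)
    (χ : X → ℂ) (ξ : Ω → G → ℂ) (w : Ω) (hχ : IsIrr χ) (hξ : ∀ a, IsIrr (ξ a))
    (hover : ip (resj e χ) (fun n => ∏ a, ξ a (n a)) ≠ 0)
    (hw : Pr (fun g => cg 𝔐 (ξ w) g)) (Z : Subgroup X) (hZn : Z.Normal)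
    (hZ : IsPGroup ℓ Z) (hZN : Z ⊓ e.range = ⊥) (d : ℕ)
    (c : Finset (Subgroup X)) (hc : IsCh ℓ Z c) (hcN : ∀ D ∈ c, D ⊓ e.range = ⊥)
    (heN : e.range.Normal) :
    innerS ℓ Z e.range (WW 𝔐 ℓ d (cen 𝔐 (MonoidHom.id X) χ)) c = 0 := by
  classical
  rcases hRINNP Ω G B C X K ℓ ι κ ρ hL hC e p φ hE Z hZn hZ hZN c hc hcN with h | h
  · exact hCORE X ℓ Z e.range _ c hc h
  · obtain ⟨O, K', _, _, _, _, π₀, u, j, p', φ', hE', hπ₀, hcard, hj, hrange, hsum⟩ := h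
    rw [hsum]
    have h1 := hHATIP O G B C B' C' (stb c) K' X 𝔐 ℓ h𝔐 hℓ ι κ ρ hL ι' κ' ρ' π hV hπ hπι hκ
      hker Pr hPr.inv hLV j p' φ' hE' (stb c).subtype (Subgroup.subtype_injective _)
      (cen 𝔐 (MonoidHom.id X) χ) (by
        intro τ hτ θ hθ ψ hψ hψθ hcen
        exact hBLKP Ω O G B X (stb c) K K' 𝔐 ℓ h𝔐 hℓ ι κ e p φ j p' φ' hE hE' Pr hPr
          (stb c).subtype π₀ u hcard hj hrange χ ξ w hχ hξ hover hw τ hτ θ hθ ψ hψ hψθ hcen) d
    rw [← h1]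
    refine Finset.sum_congr rfl fun τ hτ => ?_
    rw [WW_map 𝔐 ℓ d _ (stb c).subtype (Subgroup.subtype_injective _)]

/-- The vanishing of the chain sums. -/
theorem finalW (hSPLIT : Pool.Agent.DP.Stmt_SPLIT) (hCORE : Pool.Agent.DP.Stmt_CORE)
    (hRINNP : Stmt_RINNP) (hHATIP : Stmt_HATIP) (hBLKP : Stmt_BLKP)
    (Ω G B C X K : Type) [Fintype Ω] [DecidableEq Ω] [Group G] [Fintype G] [Group B]
    [Fintype B] [Group C] [Group X] [Fintype X] [Group K] (𝔐 : Ideal (integralClosure ℤ ℂ))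
    (ℓ : ℕ) [Fact ℓ.Prime] (h𝔐 : 𝔐.IsMaximal) (hℓ : (ℓ : integralClosure ℤ ℂ) ∈ 𝔐)
    (ι : G →* B) (κ : B →* MulAut G) (ρ : B →* C) (hL : LocN ι κ ρ) (hC : ¬ ℓ ∣ Nat.card C)
    (B' C' : Type) [Group B'] [Fintype B'] [Group C'] (ι' : G →* B') (κ' : B' →* MulAut G)
    (ρ' : B' →* C') (π : B' →* B) (hV : LocV ι' κ' ρ') (hπ : Function.Surjective π)
    (hπι : ∀ g, π (ι' g) = ι g) (hκ : κ' = κ.comp π) (hker : ¬ ℓ ∣ Nat.card π.ker)
    (Pr : (G → (integralClosure ℤ ℂ) ⧸ 𝔐) → Prop) (hPr : AdmP ℓ κ Pr)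
    (hLV : ∀ (L : Subgroup C') (β : Set (B' → (integralClosure ℤ ℂ) ⧸ 𝔐)) (e : ℕ),
      gT ι' Pr β → VS 𝔐 ℓ ι' κ' ρ' L β e = 0)
    (e : (Ω → G) →* X) (p : X →* K) (φ : X →* Gam (Equiv.Perm Ω) Ω B) (hE : ExtS ι κ e p φ)
    (χ : X → ℂ) (ξ : Ω → G → ℂ) (w : Ω) (hχ : IsIrr χ) (hξ : ∀ a, IsIrr (ξ a))
    (hover : ip (resj e χ) (fun n => ∏ a, ξ a (n a)) ≠ 0)
    (hw : Pr (fun g => cg 𝔐 (ξ w) g)) (Z : Subgroup X) (hZn : Z.Normal)
    (hZ : IsPGroup ℓ Z) (hZN : Z ⊓ e.range = ⊥) (d : ℕ) :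
    KK 𝔐 ℓ d Z (cen 𝔐 (MonoidHom.id X) χ) = 0 := by
  classical
  have heN : e.range.Normal := by
    constructor
    rintro _ ⟨n, rfl⟩ y
    exact ⟨_, hE.cl.act y n⟩
  rw [KK]
  have h3 := hSPLIT X ℓ Z e.range hZ hZN (WW 𝔐 ℓ d (cen 𝔐 (MonoidHom.id X) χ))
  refine Eq.trans h3 ?_
  refine Finset.sum_eq_zero fun c hc => ?_
  have hc' : IsCh ℓ Z c ∧ ∀ D ∈ c, D ⊓ e.range = ⊥ := by
    rw [OutC, Finset.mem_filter, mem_Ch] at hc
    exact hc
  rw [inner_zeroW hRINNP hCORE hHATIP hBLKP Ω G B C X K 𝔐 ℓ h𝔐 hℓ ι κ ρ hL hC B' C' ι' κ' ρ' π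
    hV hπ hπι hκ hker Pr hPr hLV e p φ hE χ ξ w hχ hξ hover hw Z hZn hZ hZN d c
    hc'.1 hc'.2 heN, mul_zero]

/-- The property of belonging to a block of defect one is admissible. -/
theorem admP_D1 (𝔐 : Ideal (integralClosure ℤ ℂ)) (ℓ : ℕ) [Fact ℓ.Prime] (h𝔐 : 𝔐.IsMaximal)
    {G B : Type} [Group G] [Group B] (κ : B →* MulAut G) :
    AdmP ℓ κ (D1 ℓ : (G → (integralClosure ℤ ℂ) ⧸ 𝔐) → Prop) := by
  have hcard : ∀ (b : B) (x : G),
      Nat.card (Subgroup.centralizer ({κ b x} : Set G)) =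
        Nat.card (Subgroup.centralizer ({x} : Set G)) := by
    intro b x
    refine (Nat.card_congr ?_).symm
    refine Equiv.subtypeEquiv (κ b).toEquiv ?_
    intro a
    change a ∈ Subgroup.centralizer ({x} : Set G) ↔ κ b a ∈ Subgroup.centralizer ({κ b x} : Set G)
    rw [Subgroup.mem_centralizer_singleton_iff, Subgroup.mem_centralizer_singleton_iff,
      ← map_mul, ← map_mul]
    exact (κ b).injective.eq_iff.symm
  constructor
  · rintro b ω ⟨⟨x, hx, hx2⟩, h⟩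
    refine ⟨⟨κ b x, hx, by rwa [hcard]⟩, ?_⟩
    intro y hy
    have h1 : κ b (κ b⁻¹ y) = y := by
      rw [← MulAut.mul_apply, ← map_mul, mul_inv_cancel, map_one, MulAut.one_apply]
    have h2 := h (κ b⁻¹ y) (by
      change ω (κ b (κ b⁻¹ y)) ≠ 0
      rwa [h1])
    rwa [hcard] at h2
  · intro ω
    have hf : IsDomain ((integralClosure ℤ ℂ) ⧸ 𝔐) := Ideal.Quotient.isDomain 𝔐
    have h0 : ∀ x, (ω x ^ ℓ ≠ 0 ↔ ω x ≠ 0) := fun x =>
      not_congr (pow_eq_zero_iff (Fact.out : ℓ.Prime).ne_zero)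
    simp only [D1, h0]

end Pool.Agent.DPW


end

section

/-!
# Theorem W: the main theorem
-/

namespace Pool.Agent.DPW

open Pool.Agent.DP Pool.Agent.DPV Pool.Agent.Lib_helper13 Representation
open Pool.Agent.Lib_helper13.Dade (pCore DadeHolds dadeSum IsIrrChar)

/-- The local sums of the blocks of `G` with the property `Pr` vanish, for all groups `B` with
quotient of order prime to `ℓ` and extendible characters. -/
def LVPr (𝔐 : Ideal (integralClosure ℤ ℂ)) (ℓ : ℕ) (G : Type) [Group G] [Fintype G]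
    (Pr : (G → (integralClosure ℤ ℂ) ⧸ 𝔐) → Prop) : Prop :=
  ∀ (B C : Type) [Group B] [Fintype B] [Group C] (ι : G →* B) (κ : B →* MulAut G) (ρ : B →* C),
    LocV ι κ ρ → ¬ ℓ ∣ Nat.card C →
    ∀ (L : Subgroup C) (β : Set (B → (integralClosure ℤ ℂ) ⧸ 𝔐)) (e : ℕ),
      gT ι Pr β → VS 𝔐 ℓ ι κ ρ L β e = 0

/-- The reduction to the local sums. -/
theorem mainPr (hSPLIT : Pool.Agent.DP.Stmt_SPLIT) (hCORE : Pool.Agent.DP.Stmt_CORE)
    (hRINNP : Stmt_RINNP) (hHATIP : Stmt_HATIP) (hBLKP : Stmt_BLKP)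
    (hCPA : Stmt_CPA) (hCPZ : Stmt_CPZ) (hCPB : Stmt_CPB) (hCPO : Stmt_CPO)
    (hHATG : Stmt_HATG) (hHATQ : Stmt_HATQ)
    (ℓ : ℕ) [Fact ℓ.Prime] (X : Type) [Group X] [Fintype X] (K : Subgroup X)
    [Nontrivial K]
    (hcomm : ∀ x : X, (∀ k ∈ K, x * k * x⁻¹ ∈ K) ∨
      ∀ k ∈ K, ∀ k' ∈ K, (x * k * x⁻¹) * k' = k' * (x * k * x⁻¹))
    (hcore : pCore ℓ K = ⊥)
    (hout : ¬ ℓ ∣ (K ⊔ Subgroup.centralizer (K : Set X)).relIndex
      (Subgroup.normalizer (K : Set X)))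
    (𝔐 : Ideal (integralClosure ℤ ℂ)) (h𝔐 : 𝔐.IsMaximal)
    (hℓ𝔐 : (ℓ : integralClosure ℤ ℂ) ∈ 𝔐)
    (Pr : (K → (integralClosure ℤ ℂ) ⧸ 𝔐) → Prop)
    (hPr : ∀ (B : Type) [Group B] (κ : B →* MulAut K), AdmP ℓ κ Pr)
    (hLV : LVPr 𝔐 ℓ K Pr)
    (ξ : K → ℂ) (hξ : IsIrr ξ) (hw : Pr (fun g => cg 𝔐 ξ g))
    (χ : X → ℂ) (hχ : IsIrr χ) (hover : ip (fun k : K => χ k) ξ ≠ 0) (d : ℕ) :
    dadeSum 𝔐 ℓ χ d = 0 := by
  classical
  obtain ⟨Ω, hΩ1, hΩ2, w₀, e, c, s, α, h1, h2, h3, h4, h5, h6⟩ := hCPA X K hcomm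
  have hInn : (MulAut.conj : K →* MulAut K).range ≤ K.normalizerMonoidHom.range := by
    rintro _ ⟨k, rfl⟩
    refine ⟨⟨k, Subgroup.le_normalizer k.2⟩, ?_⟩
    ext x
    rfl
  have hidx : (MulAut.conj : K →* MulAut K).range.relIndex K.normalizerMonoidHom.range =
      (K ⊔ Subgroup.centralizer (K : Set X)).relIndex (Subgroup.normalizer (K : Set X)) := by
    rw [← Subgroup.index_comap, Subgroup.relIndex]
    congr 1
    ext z
    rw [Subgroup.mem_comap, Subgroup.mem_subgroupOf]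
    constructor
    · rintro ⟨k, hk⟩
      have h : ((k : X)⁻¹ * (z : X)) ∈ Subgroup.centralizer (K : Set X) := by
        rw [Subgroup.mem_centralizer_iff]
        intro x hx
        have h7 := congrArg (fun a : MulAut K => ((a ⟨x, hx⟩ : K) : X)) hk
        have h8 : (k : X) * x * (k : X)⁻¹ = (z : X) * x * (z : X)⁻¹ := h7
        calc x * ((k : X)⁻¹ * (z : X)) = (k : X)⁻¹ * ((k : X) * x * (k : X)⁻¹) * (z : X) := by
              group
          _ = (k : X)⁻¹ * ((z : X) * x * (z : X)⁻¹) * (z : X) := by rw [h8]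
          _ = (k : X)⁻¹ * (z : X) * x := by group
      have h9 : (z : X) = (k : X) * ((k : X)⁻¹ * (z : X)) := by group
      rw [h9]
      exact Subgroup.mul_mem_sup k.2 h
    · intro hz
      have h7 : K ⊔ Subgroup.centralizer (K : Set X) ≤
          (((MulAut.conj : K →* MulAut K).range.comap K.normalizerMonoidHom).map
            (Subgroup.normalizer (K : Set X)).subtype) := by
        apply sup_le
        · intro k hk
          refine ⟨⟨k, Subgroup.le_normalizer hk⟩, ⟨⟨k, hk⟩, ?_⟩, rfl⟩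
          ext x
          rfl
        · intro y hy
          refine ⟨⟨y, Subgroup.centralizer_le_normalizer (K : Set X) hy⟩, ⟨1, ?_⟩, rfl⟩
          ext x
          change (1 : X) * (x : X) * (1 : X)⁻¹ = y * (x : X) * y⁻¹
          rw [Subgroup.mem_centralizer_iff] at hy
          rw [← hy x x.2]
          group
      obtain ⟨z', hz', hzz⟩ := h7 hz
      have h8 : z' = z := Subtype.ext hzz
      rw [← h8]
      exact hz'
  obtain ⟨X', B, C, K', _, _, _, _, _, _, q, ι, κ, ρ, e', p', φ', hq, hqk, hL, hC, hE, hqe, hZ⟩ :=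
    hCPB X K Ω ℓ e c hcore h2 h5 K.normalizerMonoidHom.range hInn (by rwa [hidx]) (by
      intro y
      refine ⟨s y, α y, ?_, fun n w => h3 y n w⟩
      intro w
      obtain ⟨z, hz, hz'⟩ := h4 y w
      refine ⟨⟨z, hz⟩, ?_⟩
      ext k
      exact (hz' k).symm)
  obtain ⟨Z', hZn, hZp, hZe, hZq⟩ := hZ (pCore ℓ X) (pCore_normal ℓ) (isPGroup_pCore ℓ)
    (hCPZ X K Ω ℓ e c hcore h2 h5 h6 (pCore ℓ X) (pCore_normal ℓ) (isPGroup_pCore ℓ))
  obtain ⟨B', C', _, _, _, ι', κ', ρ', π, hV, hπ, hπι, hκ, hker, hC'⟩ :=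
    hHATG K B C ℓ ι κ ρ hL hC
  obtain ⟨ξ', hξ', hξw, hover'⟩ := hCPO X Ω K w₀ e h1 χ ξ hχ hξ hover
  have hχ' : IsIrr (fun x => χ (q x)) := Pool.Agent.DP.QB.infl hq hχ
  have hres : resj e' (fun x => χ (q x)) = resj e χ := by
    ext n
    change χ (q (e' n)) = χ (e n)
    rw [hqe]
  have hK := finalW hSPLIT hCORE hRINNP hHATIP hBLKP Ω K B C X' K' 𝔐 ℓ h𝔐 hℓ𝔐 ι κ ρ hL hC B' C'
    ι' κ' ρ' π hV hπ hπι hκ hker Pr (hPr B κ) (hLV B' C' ι' κ' ρ' hV hC') e' p' φ' hE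
    (fun x => χ (q x)) ξ' w₀ hχ' hξ' (by rwa [hres]) (by rwa [hξw]) Z' hZn hZp hZe d
  rw [hHATQ X' X 𝔐 ℓ h𝔐 hℓ𝔐 q hq hqk Z' hZn hZp χ hχ d, hZq] at hK
  have hq0 : (Nat.card q.ker : ℚ) ≠ 0 := by exact_mod_cast Nat.card_pos.ne'
  have hK' := (mul_eq_zero.mp hK).resolve_left hq0
  have h7 := dadeSum_eq 𝔐 ℓ d hχ
  rw [hK'] at h7
  have h8 : (Nat.card X : ℚ) ≠ 0 := by exact_mod_cast Nat.card_pos.ne'
  have h9 := (mul_eq_zero.mp h7).resolve_left h8
  exact_mod_cast h9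

/-- A character of positive defect with a class of central character different from zero whose
centralizer order is not divisible by `ℓ ^ 2` belongs to a block of defect one. -/
theorem d1_of (𝔐 : Ideal (integralClosure ℤ ℂ)) (ℓ : ℕ) [Fact ℓ.Prime] (h𝔐 : 𝔐.IsMaximal)
    (hℓ : (ℓ : integralClosure ℤ ℂ) ∈ 𝔐) {T : Type} [Group T] [Fintype T] {ξ : T → ℂ}
    (hξ : IsIrr ξ) (x : T) (hx : cen 𝔐 (MonoidHom.id T) ξ x ≠ 0)
    (hx2 : ¬ ℓ ^ 2 ∣ Nat.card (Subgroup.centralizer ({x} : Set T)))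
    (hd : ¬ HasDefect ℓ ξ 0) : D1 ℓ (cen 𝔐 (MonoidHom.id T) ξ) := by
  have hpr : 𝔐.IsPrime := h𝔐.isPrime
  have hp : ℓ.Prime := Fact.out
  obtain ⟨n, hn0, hn⟩ := hξ.exists_degree
  obtain ⟨q, hq⟩ := hξ.degree_dvd hn
  have hqc : (Nat.card T : ℂ) = (q : ℂ) * ξ 1 := by
    rw [hn, hq]
    push_cast
    ring
  have hq0 : q ≠ 0 := by
    rintro rfl
    rw [mul_zero] at hq
    exact Nat.card_pos.ne' hq
  have hℓq : ℓ ∣ q := by
    by_contra hcon
    apply hd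
    refine ⟨n, hn, ?_⟩
    rw [hq, padicValNat.mul hn0.ne' hq0, padicValNat.eq_zero_of_not_dvd hcon, add_zero, zero_add]
  obtain ⟨m, hm⟩ := hℓq
  refine ⟨⟨x, hx, hx2⟩, fun y hy => DF1.part2 𝔐 hℓ hξ ⟨m, ?_, by rw [hqc, hm]; push_cast; ring⟩ y
    hy⟩
  rintro ⟨m', hm'⟩
  apply hx
  rw [DF1.cen_eq]
  have hc := DF1.mul_w hξ x hqc
  by_cases h1 : ℓ ∣ Nat.card (Subgroup.centralizer ({x} : Set T))
  · obtain ⟨c', hc'⟩ := h1
    have hc'' : ¬ ℓ ∣ c' := by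
      rintro ⟨c2, hc2⟩
      exact hx2 ⟨c2, by rw [hc', hc2]; ring⟩
    apply DF1.red_cancel 𝔐 hℓ hc'' (DF1.isIntegral_w hξ _)
    have h2 : ((c' : ℕ) : ℂ) * DF1.w ξ x = ((ℓ * m' : ℕ) : ℂ) * ξ x := by
      have hl0 : (ℓ : ℂ) ≠ 0 := by exact_mod_cast hp.ne_zero
      apply mul_left_cancel₀ hl0
      rw [hc', hm, hm'] at hc
      push_cast at hc ⊢
      linear_combination hc
    rw [h2]
    exact DF1.red_mul_of_dvd 𝔐 hℓ ⟨m', rfl⟩ (isIntegral_char hξ x)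
  · apply DF1.red_cancel 𝔐 hℓ h1 (DF1.isIntegral_w hξ _)
    rw [hc]
    exact DF1.red_mul_of_dvd 𝔐 hℓ ⟨m, hm⟩ (isIntegral_char hξ x)

/-- Theorem W, from the statements of the modules. -/
theorem mainW1 (hSPLIT : Pool.Agent.DP.Stmt_SPLIT) (hCORE : Pool.Agent.DP.Stmt_CORE)
    (hRINNP : Stmt_RINNP) (hHATIP : Stmt_HATIP) (hBLKP : Stmt_BLKP)
    (hCPA : Stmt_CPA) (hCPZ : Stmt_CPZ) (hCPB : Stmt_CPB) (hCPO : Stmt_CPO)
    (hHATG : Stmt_HATG) (hHATQ : Stmt_HATQ) (hLVW : Stmt_LVW)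
    (ℓ : ℕ) (hℓ : ℓ.Prime) (X : Type) [Group X] [Finite X] (K : Subgroup X)
    (hcomm : ∀ x : X, (∀ k ∈ K, x * k * x⁻¹ ∈ K) ∨
      ∀ k ∈ K, ∀ k' ∈ K, (x * k * x⁻¹) * k' = k' * (x * k * x⁻¹))
    (hcore : pCore ℓ K = ⊥)
    (hout : ¬ ℓ ∣ (K ⊔ Subgroup.centralizer (K : Set X)).relIndex
      (Subgroup.normalizer (K : Set X)))
    (𝔐 : Ideal (integralClosure ℤ ℂ)) (h𝔐 : 𝔐.IsMaximal)
    (hℓ𝔐 : (ℓ : integralClosure ℤ ℂ) ∈ 𝔐)
    (ξ : K → ℂ) (hξ : IsIrrChar ξ) (hd : ¬ Dade.HasDefect ℓ ξ 0)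
    (x : K) (hx : ¬ Dade.CongrMod 𝔐 (Dade.central ξ x) 0)
    (hx2 : ¬ ℓ ^ 2 ∣ Nat.card (Subgroup.centralizer ({x} : Set K)))
    (χ : X → ℂ) (hχ : IsIrrChar χ) (hover : ∑ᶠ k : K, χ k * ξ k⁻¹ ≠ 0) (d : ℕ) :
    dadeSum 𝔐 ℓ χ d = 0 := by
  classical
  have hf : Fact ℓ.Prime := ⟨hℓ⟩
  have hX' : Fintype X := Fintype.ofFinite X
  have hnt : Nontrivial K := by
    by_contra hcon
    rw [not_nontrivial_iff_subsingleton] at hcon
    obtain ⟨n, hn, hn'⟩ := IsIrr.exists_degree (χ := ξ) hξ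
    apply hd
    refine ⟨n, hn', ?_⟩
    have h1 : Nat.card K = 1 := Nat.card_of_subsingleton 1
    have h2 : n ∣ Nat.card K := IsIrr.degree_dvd (χ := ξ) hξ hn'
    rw [h1] at h2 ⊢
    rw [Nat.dvd_one.mp h2, zero_add]
  have hcen : cen 𝔐 (MonoidHom.id K) ξ x ≠ 0 := by
    intro h0
    apply hx
    rw [central_eq]
    have h1 : red 𝔐 (wt ξ (fun y => conjInd (MonoidHom.id K y) x)) = red 𝔐 0 := by
      rw [red_zero]
      exact h0
    exact (red_eq_iff 𝔐 (isIntegral_wt_conj _ hξ x) isIntegral_zero).mp h1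
  have hD1 := d1_of 𝔐 ℓ h𝔐 hℓ𝔐 hξ x hcen hx2 hd
  refine mainPr hSPLIT hCORE hRINNP hHATIP hBLKP hCPA hCPZ hCPB hCPO hHATG hHATQ ℓ X K hcomm
    hcore hout 𝔐 h𝔐 hℓ𝔐 (D1 ℓ) (fun B _ κ => admP_D1 𝔐 ℓ h𝔐 κ) ?_ ξ hξ hD1 χ hχ ?_ d
  · intro B C _ _ _ ι κ ρ hV hC L β e hβ
    exact hLVW K B C 𝔐 ℓ h𝔐 hℓ𝔐 ι κ ρ hV hC L β e hβ
  · rw [finsum_eq_sum_of_fintype] at hover
    rw [ip]
    refine div_ne_zero ?_ natCard_ne_zero
    exact hover

end Pool.Agent.DPW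


end

section

/-!
# Theorem X: the main theorem, from the statements of the modules
-/

namespace Pool.Agent.DPX

open Pool.Agent.DP Pool.Agent.DPV Pool.Agent.DPW Pool.Agent.Lib_helper13 Representation
open Pool.Agent.Lib_helper13.Dade (pCore DadeHolds dadeSum IsIrrChar)

/-- The block of a character of positive defect with a central function which does not vanish at
an element whose centralizer has cyclic Sylow `ℓ`-subgroups. -/
theorem dx_of (𝔐 : Ideal (integralClosure ℤ ℂ)) (ℓ : ℕ) [hp : Fact ℓ.Prime]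
    (h𝔐 : 𝔐.IsMaximal) (hℓ : (ℓ : integralClosure ℤ ℂ) ∈ 𝔐) {T : Type} [Group T] [Fintype T]
    {ξ : T → ℂ} (hξ : IsIrr ξ) (x : T) (hx : cen 𝔐 (MonoidHom.id T) ξ x ≠ 0)
    (hx2 : ∀ Q : Subgroup T, IsPGroup ℓ Q → (∀ u ∈ Q, u * x = x * u) → IsCyclic Q)
    (hd : ¬ Lib_helper13.HasDefect ℓ ξ 0) : DX ℓ (cen 𝔐 (MonoidHom.id T) ξ) := by
  classical
  obtain ⟨n, hn0, hn⟩ := hξ.exists_degree
  obtain ⟨q, hq⟩ := hξ.degree_dvd hn
  have hqc : (Nat.card T : ℂ) = q * ξ 1 := by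
    rw [hq, hn]
    push_cast
    ring
  have hq0 : q ≠ 0 := by
    rintro rfl
    rw [mul_zero] at hq
    exact Nat.card_pos.ne' hq
  have hℓq : ℓ ∣ q := by
    by_contra hcon
    apply hd
    refine ⟨n, hn, ?_⟩
    rw [hq, padicValNat.mul hn0.ne' hq0, padicValNat.eq_zero_of_not_dvd hcon, add_zero, zero_add]
  refine ⟨⟨x, hx, fun Q hQ hQx => hx2 Q hQ fun u hu => ?_⟩, fun y hy => ?_⟩
  · have h := hQx hu
    rwa [Subgroup.mem_centralizer_singleton_iff] at h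
  · by_contra hcon
    apply hy
    rw [DF1.cen_eq]
    have hc := DF1.mul_w hξ y hqc
    apply DF1.red_cancel 𝔐 hℓ hcon (DF1.isIntegral_w hξ _)
    rw [hc]
    exact DF1.red_mul_of_dvd 𝔐 hℓ hℓq (isIntegral_char hξ y)

/-- Theorem X, from the statements of the modules. -/
theorem mainX1 (hSPLIT : Pool.Agent.DP.Stmt_SPLIT) (hCORE : Pool.Agent.DP.Stmt_CORE)
    (hRINNP : Stmt_RINNP) (hHATIP : Stmt_HATIP) (hBLKP : Stmt_BLKP)
    (hCPA : Stmt_CPA) (hCPZ : Stmt_CPZ) (hCPB : Stmt_CPB) (hCPO : Stmt_CPO)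
    (hHATG : Stmt_HATG) (hHATQ : Stmt_HATQ) (hADMX : Stmt_ADMX) (hLVX : Stmt_LVX)
    (ℓ : ℕ) (hℓ : ℓ.Prime) (X : Type) [Group X] [Finite X] (K : Subgroup X)
    (hcomm : ∀ x : X, (∀ k ∈ K, x * k * x⁻¹ ∈ K) ∨
      ∀ k ∈ K, ∀ k' ∈ K, (x * k * x⁻¹) * k' = k' * (x * k * x⁻¹))
    (hcore : pCore ℓ K = ⊥)
    (hout : ¬ ℓ ∣ (K ⊔ Subgroup.centralizer (K : Set X)).relIndex
      (Subgroup.normalizer (K : Set X)))
    (𝔐 : Ideal (integralClosure ℤ ℂ)) (h𝔐 : 𝔐.IsMaximal)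
    (hℓ𝔐 : (ℓ : integralClosure ℤ ℂ) ∈ 𝔐)
    (ξ : K → ℂ) (hξ : IsIrrChar ξ) (hd : ¬ Dade.HasDefect ℓ ξ 0)
    (x : K) (hx : ¬ Dade.CongrMod 𝔐 (Dade.central ξ x) 0)
    (hx2 : ∀ Q : Subgroup K, IsPGroup ℓ Q → (∀ u ∈ Q, u * x = x * u) → IsCyclic Q)
    (χ : X → ℂ) (hχ : IsIrrChar χ) (hover : ∑ᶠ k : K, χ k * ξ k⁻¹ ≠ 0) (d : ℕ) :
    dadeSum 𝔐 ℓ χ d = 0 := by
  classical
  have hf : Fact ℓ.Prime := ⟨hℓ⟩
  have hX' : Fintype X := Fintype.ofFinite X
  have hnt : Nontrivial K := by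
    by_contra hcon
    rw [not_nontrivial_iff_subsingleton] at hcon
    obtain ⟨n, hn, hn'⟩ := IsIrr.exists_degree (χ := ξ) hξ
    apply hd
    refine ⟨n, hn', ?_⟩
    have h1 : Nat.card K = 1 := Nat.card_of_subsingleton 1
    have h2 : n ∣ Nat.card K := IsIrr.degree_dvd (χ := ξ) hξ hn'
    rw [h1] at h2 ⊢
    rw [Nat.dvd_one.mp h2, zero_add]
  have hcen : cen 𝔐 (MonoidHom.id K) ξ x ≠ 0 := by
    intro h0
    apply hx
    rw [central_eq]
    have h1 : red 𝔐 (wt ξ (fun y => conjInd (MonoidHom.id K y) x)) = red 𝔐 0 := by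
      rw [red_zero]
      exact h0
    exact (red_eq_iff 𝔐 (isIntegral_wt_conj _ hξ x) isIntegral_zero).mp h1
  have hDX := dx_of 𝔐 ℓ h𝔐 hℓ𝔐 hξ x hcen hx2 hd
  refine mainPr hSPLIT hCORE hRINNP hHATIP hBLKP hCPA hCPZ hCPB hCPO hHATG hHATQ ℓ X K hcomm
    hcore hout 𝔐 h𝔐 hℓ𝔐 (fun ω => DX ℓ ω) (fun B _ κ => hADMX K B 𝔐 ℓ h𝔐 κ) ?_ ξ hξ hDX χ hχ ?_ d
  · intro B C _ _ _ ι κ ρ hV hC L β e hβ
    exact hLVX K B C 𝔐 ℓ h𝔐 hℓ𝔐 ι κ ρ hV hC L β e hβ
  · rw [finsum_eq_sum_of_fintype] at hover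
    rw [ip]
    refine div_ne_zero ?_ natCard_ne_zero
    exact hover

end Pool.Agent.DPX


end

section

/-!
# LMT: the blocks of products of characters
-/

set_option autoImplicit false

namespace Pool.Agent.DPG

open Pool.Agent.DP Pool.Agent.DPC Pool.Agent.DPM Pool.Agent.DPN Pool.Agent.DPF
  Pool.Agent.DPK Pool.Agent.Lib_helper13 Representation
open Pool.Agent.Lib_helper13.Dade (pCore DadeHolds dadeSum)

namespace LMT

section

/-- Sums over the fibres of a homomorphism. -/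
theorem sum_ker {G L : Type} [Group G] [Fintype G] [Group L] [Fintype L] (ε : G →* L)
    (g : L → ℂ) (hg : ∀ x, x ∉ ε.range → g x = 0) :
    ∑ n, g (ε n) = (Nat.card ε.ker : ℂ) * ∑ x, g x := by
  classical
  rw [← Finset.sum_fiberwise (s := Finset.univ) (g := fun n => ε n), Finset.mul_sum]
  refine Finset.sum_congr rfl fun x _ => ?_
  have h1 : ∑ n ∈ Finset.univ.filter (fun n => ε n = x), g (ε n) =
      ∑ _n ∈ Finset.univ.filter (fun n => ε n = x), g x := by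
    refine Finset.sum_congr rfl fun n hn => ?_
    rw [(Finset.mem_filter.mp hn).2]
  rw [h1, Finset.sum_const, nsmul_eq_mul]
  by_cases hx : x ∈ ε.range
  · congr 1
    obtain ⟨y, hy⟩ := hx
    have h2 : (Finset.univ.filter (fun n => ε n = x)).card =
        (Finset.univ.filter (fun n => ε n = 1)).card :=
      MonoidHom.card_fiber_eq_of_mem_range ε ⟨y, hy⟩ ⟨1, map_one ε⟩
    rw [h2]
    have h3 : Nat.card ε.ker = (Finset.univ.filter (fun n => ε n = 1)).card := by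
      rw [Nat.card_eq_fintype_card]
      exact Fintype.card_of_subtype _ (fun n => by simp [MonoidHom.mem_ker])
    rw [h3]
  · rw [hg x hx, mul_zero, mul_zero]

variable {L K K1 Q Ω : Type} [Group L] [Group K] [Group K1] [Group Q] [Fintype Ω]
  {π : L →* K} {μ : π.ker →* ℂˣ} {φ : K →* Gam (Equiv.Perm Ω) Ω K1} {q : Q →* K1}
  {α : K1 →* MulAut Q} {ε : (Ω → Q) →* L} {μQ : q.ker →* ℂˣ}

theorem ker_center (h : WD π μ φ q α ε μQ) : q.ker ≤ Subgroup.center Q := by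
  intro x hx
  rw [Subgroup.mem_center_iff]
  intro a
  have h1 := h.qα x a
  rw [MonoidHom.mem_ker.mp hx, map_one] at h1
  have h2 : a = x * a * x⁻¹ := h1
  calc a * x = x * a * x⁻¹ * x := by rw [← h2]
    _ = x * a := by group

theorem mem_ker_pi (h : WD π μ φ q α ε μQ) (z : Ω → Q) (hz : ∀ o, z o ∈ q.ker) :
    ε z ∈ π.ker := by
  rw [MonoidHom.mem_ker]
  apply h.φi
  rw [h.φε, map_one]
  have : (fun o => q (z o)) = 1 := by
    funext o
    exact MonoidHom.mem_ker.mp (hz o)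
  rw [this]
  exact map_one SemidirectProduct.inl

theorem eps_one (h : WD π μ φ q α ε μQ) (z : Ω → q.ker) (hz : ∏ o, μQ (z o) = 1) :
    ε (fun o => (z o : Q)) = 1 := by
  have h1 := mem_ker_pi h (fun o => (z o : Q)) (fun o => (z o).2)
  have h2 := h.με (fun o => (z o : Q)) (fun o => (z o).2) h1
  rw [hz] at h2
  have h3 : (⟨ε (fun o => (z o : Q)), h1⟩ : π.ker) = 1 := h.μi (by rw [h2, map_one])
  exact congrArg Subtype.val h3

theorem ker_iff (h : WD π μ φ q α ε μQ) (n : Ω → Q) (hn : ε n = 1) :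
    ∃ z : Ω → q.ker, ∏ o, μQ (z o) = 1 ∧ n = fun o => (z o : Q) := by
  have h1 := h.φε n
  rw [hn, map_one, map_one] at h1
  have h2 : ∀ o, n o ∈ q.ker := by
    intro o
    have h3 : (1 : Gam (Equiv.Perm Ω) Ω K1).left o = q (n o) := by
      rw [h1]
      rfl
    rw [MonoidHom.mem_ker, ← h3]
    rfl
  have h4 : ε n ∈ π.ker := by
    rw [hn]
    exact π.ker.one_mem
  refine ⟨fun o => ⟨n o, h2 o⟩, ?_, rfl⟩
  rw [← h.με n h2 h4]
  have h5 : (⟨ε n, h4⟩ : π.ker) = 1 := Subtype.ext hn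
  rw [h5, map_one]

theorem card_ker (h : WD π μ φ q α ε μQ) :
    Nat.card ε.ker = Nat.card {z : Ω → q.ker // ∏ o, μQ (z o) = 1} := by
  symm
  refine Nat.card_congr (Equiv.ofBijective
    (fun z => (⟨fun o => (z.1 o : Q), MonoidHom.mem_ker.mpr (eps_one h z.1 z.2)⟩ : ε.ker))
    ⟨?_, ?_⟩)
  · intro z z' hzz
    apply Subtype.ext
    funext o
    apply Subtype.ext
    exact congrFun (congrArg Subtype.val hzz) o
  · rintro ⟨n, hn⟩
    obtain ⟨z, hz, hnz⟩ := ker_iff h n (MonoidHom.mem_ker.mp hn)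
    exact ⟨⟨z, hz⟩, Subtype.ext hnz.symm⟩

theorem comap_eq (h : WD π μ φ q α ε μQ) : (NN' π ε).comap π = ε.range := by
  ext x
  rw [Subgroup.mem_comap]
  constructor
  · rintro ⟨y, hy, hyx⟩
    have h1 : x * y⁻¹ ∈ π.ker := by
      rw [MonoidHom.mem_ker, map_mul, map_inv, hyx, mul_inv_cancel]
    have h2 := ε.range.mul_mem (h.kr h1) hy
    rwa [inv_mul_cancel_right] at h2
  · intro hx
    exact Subgroup.mem_map_of_mem π hx

theorem tf_one {f : Ω → Q → ℂ} {F : L → ℂ} (hF : TF ε f F) : F 1 = ∏ o, f o 1 := by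
  have h1 := hF.1 1
  rw [map_one] at h1
  exact h1

open Classical in
/-- The scalars of the product in terms of the coordinates. -/
theorem scal_eq [Fintype L] [Fintype Q] (h : WD π μ φ q α ε μQ) {f : Ω → Q → ℂ} {F : L → ℂ}
    (hF : TF ε f F) (u : L → ℤ) :
    (∑ x, ((u x : ℤ) : ℂ) * F x) / F 1 =
      (∑ n : Ω → Q, ((u (ε n) : ℤ) : ℂ) * ∏ o, (f o (n o) / f o 1)) /
        Nat.card {z : Ω → q.ker // ∏ o, μQ (z o) = 1} := by
  have h1 := sum_ker ε (fun x => ((u x : ℤ) : ℂ) * F x) (fun x hx => by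
    rw [hF.2 x hx, mul_zero])
  have h2 : ∑ n : Ω → Q, ((u (ε n) : ℤ) : ℂ) * ∏ o, (f o (n o) / f o 1) =
      (∑ n : Ω → Q, ((u (ε n) : ℤ) : ℂ) * F (ε n)) / F 1 := by
    rw [Finset.sum_div]
    refine Finset.sum_congr rfl fun n _ => ?_
    rw [hF.1 n, tf_one hF, Finset.prod_div_distrib, mul_div_assoc]
  have h3 : (Nat.card ε.ker : ℂ) ≠ 0 := by
    exact_mod_cast Nat.card_pos.ne'
  rw [h2, h1, ← card_ker h, mul_div_assoc, mul_div_cancel_left₀ _ h3]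

theorem scal_w [Fintype Q] {T : Subgroup Q} {g : Q → ℂ} (hg : IrrOn T g) {w : Q → ℤ}
    (hw : ∀ a n, w (a * n * a⁻¹) = w n) :
    (∑ n, ((w n : ℤ) : ℂ) * (g n / g 1) = (∑ n, ((w n : ℤ) : ℂ) * g n) / g 1) ∧
      IsIntegral ℤ ((∑ n, ((w n : ℤ) : ℂ) * g n) / g 1) := by
  classical
  refine ⟨?_, ?_⟩
  · rw [Finset.sum_div]
    exact Finset.sum_congr rfl fun n _ => (mul_div_assoc _ _ _).symm
  · have h1 : ∑ x, ((w x : ℤ) : ℂ) * g x = ∑ s : T, ((w s : ℤ) : ℂ) * g s := by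
      rw [← Finset.sum_filter_of_ne (p := fun x => x ∈ T)]
      · exact Finset.sum_subtype _ (by simp) _
      · intro x _ hx
        by_contra h
        exact hx (by rw [hg.2 x h, mul_zero])
    rw [h1]
    exact isIntegral_wt_int hg.1 w fun s _ x => hw s x

theorem one_ne [Fintype Q] {T : Subgroup Q} {g : Q → ℂ} (hg : IrrOn T g) : g 1 ≠ 0 :=
  hg.1.one_ne_zero

open Classical in
/-- The function on `L` which belongs to a function of one coordinate. -/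
noncomputable def UU [Fintype Q] (ε : (Ω → Q) →* L) (o : Ω) (u : Q → ℤ) (l : L) : ℤ :=
  ∑ y : Q, if ε (Pi.mulSingle o y) = l then u y else 0

open Classical in
theorem UU_sum [Fintype L] [Fintype Q] {f : Ω → Q → ℂ} {F : L → ℂ}
    (hF : TF ε f F) (o : Ω) (u : Q → ℤ) :
    ∑ x, ((UU ε o u x : ℤ) : ℂ) * F x =
      (∑ y, ((u y : ℤ) : ℂ) * f o y) * ∏ w ∈ Finset.univ.erase o, f w 1 := by
  have h1 : ∀ x, ((UU ε o u x : ℤ) : ℂ) * F x =
      ∑ y : Q, if ε (Pi.mulSingle o y) = x then ((u y : ℤ) : ℂ) * F x else 0 := by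
    intro x
    rw [UU, Int.cast_sum, Finset.sum_mul]
    refine Finset.sum_congr rfl fun y _ => ?_
    split_ifs
    · rfl
    · rw [Int.cast_zero, zero_mul]
  rw [Finset.sum_congr rfl fun x _ => h1 x, Finset.sum_comm, Finset.sum_mul]
  refine Finset.sum_congr rfl fun y _ => ?_
  rw [Finset.sum_ite_eq, if_pos (Finset.mem_univ _), hF.1,
    ← Finset.mul_prod_erase Finset.univ _ (Finset.mem_univ o), Pi.mulSingle_eq_same, mul_assoc]
  congr 2
  refine Finset.prod_congr rfl fun w hw => ?_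
  rw [Pi.mulSingle_eq_of_ne (Finset.ne_of_mem_erase hw)]

open Classical in
theorem sc_UU [Fintype L] [Fintype Q] {𝔐 : Ideal (integralClosure ℤ ℂ)} {f : Ω → Q → ℂ}
    {F : L → ℂ} (hF : TF ε f F) (h0 : ∀ o, f o 1 ≠ 0) (o : Ω) (u : Q → ℤ) :
    sc 𝔐 F (UU ε o u) = sc 𝔐 (f o) u := by
  have h1 : ∏ w ∈ Finset.univ.erase o, f w 1 ≠ 0 :=
    Finset.prod_ne_zero_iff.mpr fun w _ => h0 w
  have h2 : F 1 = f o 1 * ∏ w ∈ Finset.univ.erase o, f w 1 := by
    rw [tf_one hF, Finset.mul_prod_erase Finset.univ (fun w => f w 1) (Finset.mem_univ o)]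
  rw [sc, sc, UU_sum hF, h2, mul_div_mul_right _ _ h1]

open Classical in
theorem UU_conj [Fintype Q] (o : Ω) {u : Q → ℤ} (hu : ∀ s x, u (s * x * s⁻¹) = u x)
    (a : Ω → Q) (x : L) : UU ε o u (ε a * x * (ε a)⁻¹) = UU ε o u x := by
  rw [UU, UU]
  symm
  refine Fintype.sum_equiv (MulAut.conj (a o)).toEquiv _ _ fun y => ?_
  have h1 : (MulAut.conj (a o)).toEquiv y = a o * y * (a o)⁻¹ := rfl
  have h2 : Pi.mulSingle o (a o * y * (a o)⁻¹) = a * Pi.mulSingle o y * a⁻¹ := by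
    funext w
    by_cases hw : w = o
    · subst hw
      simp
    · simp [Pi.mulSingle_eq_of_ne hw]
  have h3 : ε (Pi.mulSingle o (a o * y * (a o)⁻¹)) = ε a * x * (ε a)⁻¹ ↔
      ε (Pi.mulSingle o y) = x := by
    rw [h2, map_mul, map_mul, map_inv]
    constructor
    · intro h
      exact mul_left_cancel (mul_right_cancel h)
    · intro h
      rw [h]
  rw [h1, hu]
  by_cases hx : ε (Pi.mulSingle o y) = x
  · rw [if_pos hx, if_pos (h3.mpr hx)]
  · rw [if_neg hx, if_neg fun h => hx (h3.mp h)]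

open Classical in
theorem UU_out [Fintype Q] (o : Ω) (u : Q → ℤ) (x : L) (hx : x ∉ ε.range) :
    UU ε o u x = 0 := by
  rw [UU]
  refine Finset.sum_eq_zero fun y _ => ?_
  rw [if_neg]
  intro h
  exact hx ⟨_, h⟩

end

end LMT

open _root_.Pool.Agent.DPG.LMT in
theorem LMT_thm (h1 : Stmt_PRC) : Stmt_LMT := by
  classical
  intro L K K1 Q Ω _ _ _ _ _ _ _ _ _ 𝔐 ℓ _ hM hl π μ φ q α ε μQ h S S' f f' F F' hf hf' hF hF'
  constructor
  · intro hsc u hu _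
    have hmem : ∀ n, ε n ∈ (NN' π ε).comap π := by
      intro n
      rw [comap_eq h]
      exact ⟨n, rfl⟩
    have key := h1 Q Ω 𝔐 ℓ hM hl q.ker μQ (ker_center h) h.μQi (fun _ => 1) (fun _ _ _ => rfl)
      (fun o n => f o n / f o 1) (fun o n => f' o n / f' o 1)
      (fun o z n => by
        rw [(hf o).2 z n, mul_div_assoc])
      (fun o z n => by
        rw [(hf' o).2 z n, mul_div_assoc])
      (fun o w hw => by
        have hw' : ∀ a n, w (a * n * a⁻¹) = w n := fun a n => hw a n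
        have e1 := scal_w (hf o).1 hw'
        have e2 := scal_w (hf' o).1 hw'
        refine ⟨?_, ?_, ?_⟩
        · rw [e1.1]
          exact e1.2
        · rw [e2.1]
          exact e2.2
        · rw [e1.1, e2.1]
          exact hsc o w (fun s _ x => hw' s x))
      (fun n => u (ε n))
      (fun a n => by
        have e : (fun o => (1 : MulAut Q) (a o) * n o * (a o)⁻¹) = a * n * a⁻¹ := rfl
        show u (ε (fun o => (1 : MulAut Q) (a o) * n o * (a o)⁻¹)) = u (ε n)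
        rw [e, map_mul, map_mul, map_inv]
        exact hu (ε a) (hmem a) (ε n))
      (fun z n hz => by
        have e : (fun o => (z o : Q) * n o) = (fun o => (z o : Q)) * n := rfl
        show u (ε (fun o => (z o : Q) * n o)) = u (ε n)
        rw [e, map_mul, eps_one h z hz, one_mul])
    rw [sc, sc, scal_eq h hF u, scal_eq h hF' u]
    exact key.2
  · intro hsc o u hu
    have hu' : ∀ s x, u (s * x * s⁻¹) = u x := fun s x => hu s trivial x
    have e := hsc (UU ε o u) (fun s hs x => by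
      rw [comap_eq h] at hs
      obtain ⟨a, rfl⟩ := hs
      exact UU_conj o hu' a x) (fun x hx => by
      have hx' : x ∉ ε.range := by
        intro hxr
        apply hx
        rw [← comap_eq h] at hxr
        exact hxr
      exact UU_out o u x hx')
    rw [sc_UU hF (fun o => one_ne (hf o).1), sc_UU hF' (fun o => one_ne (hf' o).1)] at e
    exact e

end Pool.Agent.DPG


end

section

/-!
# CMA: the central functions of products
-/

set_option autoImplicit false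

namespace Pool.Agent.DPG

open Pool.Agent.DP Pool.Agent.DPC Pool.Agent.DPM Pool.Agent.DPN Pool.Agent.DPF
  Pool.Agent.DPK Pool.Agent.Lib_helper13 Representation
open Pool.Agent.Lib_helper13.Dade (pCore DadeHolds dadeSum)

namespace CMA

open Classical in
/-- A sum over a group as a sum over the cosets of the image of a homomorphism. -/
theorem sum_cosets {G L : Type} [Group G] [Fintype G] [Group L] [Fintype L] (ε : G →* L)
    (f : L → ℂ) :
    ∑ l, f l = ∑ c : L ⧸ ε.range, (∑ n, f (c.out * ε n)) / Nat.card ε.ker := by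
  rw [← Finset.sum_fiberwise (s := Finset.univ) (g := fun l : L => (l : L ⧸ ε.range))]
  refine Finset.sum_congr rfl fun c _ => ?_
  have h3 : (Nat.card ε.ker : ℂ) ≠ 0 := by
    exact_mod_cast Nat.card_pos.ne'
  rw [eq_div_iff h3, mul_comm]
  have h4 := LMT.sum_ker ε (fun x => if x ∈ ε.range then f (c.out * x) else 0)
    (fun x hx => if_neg hx)
  have h5 : ∑ n, f (c.out * ε n) =
      ∑ n, (fun x => if x ∈ ε.range then f (c.out * x) else 0) (ε n) :=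
    Finset.sum_congr rfl fun n _ => (if_pos ⟨n, rfl⟩).symm
  rw [h5, h4, ← Finset.sum_filter]
  congr 1
  symm
  refine Finset.sum_bij (fun x _ => c.out * x) ?_ ?_ ?_ ?_
  · intro x hx
    rw [Finset.mem_filter] at hx ⊢
    refine ⟨Finset.mem_univ _, ?_⟩
    rw [QuotientGroup.mk_mul_of_mem _ hx.2]
    exact QuotientGroup.out_eq' c
  · intro x _ y _ hxy
    exact mul_left_cancel hxy
  · intro l hl
    rw [Finset.mem_filter] at hl
    refine ⟨c.out⁻¹ * l, ?_, mul_inv_cancel_left _ _⟩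
    rw [Finset.mem_filter]
    refine ⟨Finset.mem_univ _, ?_⟩
    rw [← QuotientGroup.eq, hl.2]
    exact QuotientGroup.out_eq' c
  · intro x _
    rfl

section

variable {L K K1 Q L1 Ω : Type} [Group L] [Fintype L] [Group K] [Fintype K] [Group K1]
  [Fintype K1] [Group Q] [Fintype Q] [Group L1] [Fintype L1] [Fintype Ω]
  {π : L →* K} {μ : π.ker →* ℂˣ} {φ : K →* Gam (Equiv.Perm Ω) Ω K1} {q : Q →* K1}
  {α : K1 →* MulAut Q} {ε : (Ω → Q) →* L} {μQ : q.ker →* ℂˣ} {π1 : L1 →* K1}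
  {μ1 : π1.ker →* ℂˣ} {ι : Q →* L1} {M : Subgroup K} {M1 : Subgroup K1} {ℓ : ℕ}

theorem tp_one {F : L1 → ℂ} {ζ : L × Gam (Equiv.Perm Ω) Ω L1 → ℂ} {θ : L → ℂ}
    (hTP : TP π φ π1 M F ζ θ) : θ 1 = F 1 ^ Fintype.card Ω * ζ 1 := by
  have h1 := hTP.2 1 (MY π φ π1 M).one_mem
  have h2 : ∏ o : Ω, F ((1 : L × Gam (Equiv.Perm Ω) Ω L1).2.left o) =
      F 1 ^ Fintype.card Ω := by
    have h3 : ∀ o : Ω, F ((1 : L × Gam (Equiv.Perm Ω) Ω L1).2.left o) = F 1 := fun _ => rfl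
    rw [Finset.prod_congr rfl fun o _ => h3 o, Finset.prod_const, Finset.card_univ]
  rw [h2] at h1
  exact h1

open Classical in
/-- The sum over a coset. -/
theorem coset_sum (h : WD π μ φ q α ε μQ) (h1 : LD q α μQ π1 μ1 ι)
    (hm : MM ℓ π φ q ε M M1) {F : L1 → ℂ} {ζ : L × Gam (Equiv.Perm Ω) Ω L1 → ℂ}
    (hζ : ZT π φ π1 μ1 ε ι M ζ) {θ : L → ℂ} (hTP : TP π φ π1 M F ζ θ) (u : L → ℤ)
    {x : L × Gam (Equiv.Perm Ω) Ω L1} (hx : x ∈ MY π φ π1 M) :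
    ∑ n : Ω → Q, ((u (x.1 * ε n) : ℤ) : ℂ) * θ (x.1 * ε n) =
      (∑ n : Ω → Q, ((u (x.1 * ε n) : ℤ) : ℂ) * ∏ o, F (x.2.left o * ι (n o))) * ζ x := by
  rw [Finset.sum_mul]
  refine Finset.sum_congr rfl fun n _ => ?_
  have h2 := hTP.2 (x * dY ε ι n)
    (Subgroup.mul_mem _ hx (WDB.dY_mem_MY h h1 hm.le n))
  rw [hζ.d n x] at h2
  have h3 : (x * dY ε ι n).1 = x.1 * ε n := rfl
  rw [h3] at h2
  rw [h2, mul_assoc]
  congr 2
  exact Finset.prod_congr rfl fun o _ => by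
    rw [WDB.mul_dY_left x (WDB.MY_right hm hx) n o]

open Classical in
/-- The scalar of a product. -/
theorem scal_psm (h : WD π μ φ q α ε μQ) (h1 : LD q α μQ π1 μ1 ι)
    (hm : MM ℓ π φ q ε M M1) {F : L1 → ℂ} (hF : F 1 ≠ 0)
    {ζ : L × Gam (Equiv.Perm Ω) Ω L1 → ℂ}
    (hζ : ZT π φ π1 μ1 ε ι M ζ) (hζ1 : ζ 1 ≠ 0) {θ : L → ℂ} (hTP : TP π φ π1 M F ζ θ)
    (u : L → ℤ) (g : L → Gam (Equiv.Perm Ω) Ω L1) (hg : ∀ l, (l, g l) ∈ YY π φ π1) :
    (∑ x, ((u x : ℤ) : ℂ) * θ x) / θ 1 * ζ 1 =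
      ∑ c : L ⧸ ε.range, if π c.out ∈ M then
        psm ε ι F u (c.out, g c.out) * ζ (c.out, g c.out) else 0 := by
  have h3 : (Nat.card ε.ker : ℂ) ≠ 0 := by
    exact_mod_cast Nat.card_pos.ne'
  have h4 : F 1 ^ Fintype.card Ω ≠ 0 := pow_ne_zero _ hF
  rw [sum_cosets ε (fun l => ((u l : ℤ) : ℂ) * θ l), tp_one hTP, div_mul_eq_mul_div,
    mul_div_mul_right _ _ hζ1, Finset.sum_div]
  refine Finset.sum_congr rfl fun c _ => ?_
  split_ifs with hc
  · have hx : ((c.out, g c.out) : L × Gam (Equiv.Perm Ω) Ω L1) ∈ MY π φ π1 M :=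
      ⟨hg _, hc⟩
    have h5 := coset_sum h h1 hm hζ hTP u hx
    rw [psm, div_mul_eq_mul_div, ← h5, div_div]
  · have h5 : ∑ n : Ω → Q, ((u (c.out * ε n) : ℤ) : ℂ) * θ (c.out * ε n) = 0 := by
      refine Finset.sum_eq_zero fun n _ => ?_
      rw [hTP.1, mul_zero]
      intro h6
      apply hc
      rw [map_mul] at h6
      exact (Subgroup.mul_mem_cancel_right M (hm.le (WDB.πε_mem h n))).mp h6
    rw [h5, zero_div, zero_div]

/-- Scalars of invariant functions are integral. -/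
theorem int_scal {T : Subgroup L} {g : L → ℂ} (hg : IrrOn T g) {w : L → ℤ}
    (hw : ∀ a ∈ T, ∀ n, w (a * n * a⁻¹) = w n) :
    IsIntegral ℤ ((∑ n, ((w n : ℤ) : ℂ) * g n) / g 1) := by
  classical
  have h1 : ∑ x, ((w x : ℤ) : ℂ) * g x = ∑ s : T, ((w s : ℤ) : ℂ) * g s := by
    rw [← Finset.sum_filter_of_ne (p := fun x => x ∈ T)]
    · exact Finset.sum_subtype _ (by simp) _
    · intro x _ hx
      by_contra h
      exact hx (by rw [hg.2 x h, mul_zero])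
  rw [h1]
  exact isIntegral_wt_int hg.1 w hw

theorem int_zeta {ζ : L × Gam (Equiv.Perm Ω) Ω L1 → ℂ} (hζ : ZT π φ π1 μ1 ε ι M ζ)
    (x : L × Gam (Equiv.Perm Ω) Ω L1) : IsIntegral ℤ (ζ x) := by
  classical
  have : Finite (Gam (Equiv.Perm Ω) Ω L1) :=
    Finite.of_injective (fun g => (g.left, g.right)) (fun g g' hgg =>
      SemidirectProduct.ext (Prod.mk.inj hgg).1 (Prod.mk.inj hgg).2)
  have : Fintype (MY π φ π1 M) := Fintype.ofFinite _
  by_cases hx : x ∈ MY π φ π1 M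
  · exact isIntegral_char hζ.irr.1 ⟨x, hx⟩
  · rw [hζ.irr.2 x hx]
    exact isIntegral_zero

/-- The degree of `ζ` is prime to `ℓ`. -/
theorem deg_zeta [Fact ℓ.Prime] (h : WD π μ φ q α ε μQ) (h1 : LD q α μQ π1 μ1 ι)
    (hm : MM ℓ π φ q ε M M1) {ζ : L × Gam (Equiv.Perm Ω) Ω L1 → ℂ}
    (hζ : ZT π φ π1 μ1 ε ι M ζ) : ∃ d : ℕ, ¬ ℓ ∣ d ∧ ζ 1 = d := by
  classical
  have hfin : Finite (Gam (Equiv.Perm Ω) Ω L1) :=
    Finite.of_injective (fun g => (g.left, g.right)) (fun g g' hgg =>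
      SemidirectProduct.ext (Prod.mk.inj hgg).1 (Prod.mk.inj hgg).2)
  letI : Fintype (MY π φ π1 M) := Fintype.ofFinite _
  have hζ1 : ζ 1 ≠ 0 := hζ.irr.1.one_ne_zero
  obtain ⟨η, hη⟩ : ∃ η : MY π φ π1 M → ℂ, η = (fun s : MY π φ π1 M => ζ s) :=
    ⟨_, rfl⟩
  have hηi : IsIrr η := by
    rw [hη]
    exact hζ.irr.1
  have hη1 : η 1 = ζ 1 := by
    rw [hη]
    rfl
  -- the projection to `M`
  obtain ⟨p, hp⟩ : ∃ p : MY π φ π1 M →* M, ∀ x, (p x : K) = π x.1.1 :=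
    ⟨{ toFun := fun x => ⟨π x.1.1, (WDB.mem_MY.mp x.2).2⟩
       map_one' := Subtype.ext (map_one π)
       map_mul' := fun x y => Subtype.ext (map_mul π x.1.1 y.1.1) }, fun x => rfl⟩
  have hps : Function.Surjective p := by
    intro m
    obtain ⟨l, hl⟩ := h.πs m
    obtain ⟨g, hg⟩ := WDB.exists_YY (π := π) (φ := φ) h1 l
    refine ⟨⟨(l, g), hg, ?_⟩, Subtype.ext ?_⟩
    · change π l ∈ M
      rw [hl]
      exact m.2
    · rw [hp]
      exact hl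
  have hNn : (NN' π ε).Normal := WDB.normal_NN h
  obtain ⟨N0, hN0⟩ : ∃ N0 : Subgroup (MY π φ π1 M), N0 = ((NN' π ε).subgroupOf M).comap p :=
    ⟨_, rfl⟩
  have hN0n : N0.Normal := by
    rw [hN0]
    infer_instance
  have hidx : N0.index = (NN' π ε).relIndex M := by
    rw [hN0, Subgroup.index_comap_of_surjective _ hps]
    rfl
  have hcop : ¬ ℓ ∣ N0.index := by
    rw [hidx]
    exact hm.cop
  have hmem0 : ∀ x : MY π φ π1 M, x ∈ N0 → π x.1.1 ∈ NN' π ε := by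
    intro x h2
    rw [hN0] at h2
    have h3 : ((p x : M) : K) ∈ NN' π ε := h2
    rw [hp] at h3
    exact h3
  have hmem : ∀ x : N0, π ((x : MY π φ π1 M) : L × Gam (Equiv.Perm Ω) Ω L1).1 ∈ NN' π ε :=
    fun x => hmem0 x x.2
  -- the linear character
  have hkey : ∀ (y : MY π φ π1 M) (x : N0), η (y * x) * η 1 = η y * η x := by
    intro y x
    obtain ⟨n, z, hnz⟩ := WDB.MY_N h h1 (WDB.MY_le (x : MY π φ π1 M).2) (hmem x)
    have h2 : ∀ w : MY π φ π1 M, (∏ o, ((μ1 (z o) : ℂˣ) : ℂ)) * η (w * x) = η w := by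
      intro w
      have h3 : (((w * x : MY π φ π1 M) : L × Gam (Equiv.Perm Ω) Ω L1)) =
          (1, gin (fun o => (z o : L1))) *
            ((w : L × Gam (Equiv.Perm Ω) Ω L1) * dY ε ι n) := by
        rw [WDB.z_comm h1 hm (Subgroup.mul_mem _ w.2 (WDB.dY_mem_MY h h1 hm.le n)) z,
          Subgroup.coe_mul, hnz, mul_assoc]
      rw [hη]
      change _ * ζ ((w * x : MY π φ π1 M) : L × Gam (Equiv.Perm Ω) Ω L1) = ζ w
      rw [h3, hζ.z, hζ.d]
    have h4 := h2 y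
    have h5 := h2 1
    rw [one_mul] at h5
    have h6 : (∏ o, ((μ1 (z o) : ℂˣ) : ℂ)) ≠ 0 :=
      Finset.prod_ne_zero_iff.mpr fun o _ => Units.ne_zero _
    have h7 : (∏ o, ((μ1 (z o) : ℂˣ) : ℂ)) * (η (y * x) * η 1) =
        (∏ o, ((μ1 (z o) : ℂˣ) : ℂ)) * (η y * η x) := by
      rw [← mul_assoc, h4, ← mul_assoc, mul_comm _ (η y), mul_assoc, h5]
    exact mul_left_cancel₀ h6 h7
  have hη10 : η 1 ≠ 0 := by
    rw [hη1]
    exact hζ1
  obtain ⟨κ0, hκ0⟩ : ∃ κ0 : N0 →* ℂ, ∀ x, κ0 x = η x / η 1 :=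
    ⟨{ toFun := fun x => η x / η 1
       map_one' := div_self hη10
       map_mul' := fun x y => by
        have h2 := hkey x y
        have h3 : η ((x * y : N0) : MY π φ π1 M) = η x * η y / η 1 := by
          rw [eq_div_iff hη10]
          exact h2
        rw [h3]
        field_simp }, fun x => rfl⟩
  obtain ⟨κ, hκ⟩ : ∃ κ : N0 →* ℂˣ, ∀ x, ((κ x : ℂˣ) : ℂ) = κ0 x :=
    ⟨MonoidHom.toHomUnits κ0, fun x => MonoidHom.coe_toHomUnits κ0 x⟩
  have hκi : IsIrr (fun k : N0 => ((κ k : ℂˣ) : ℂ)) := YSL.isIrr_lin κ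
  have hip : ip (resj N0.subtype η) (fun k : N0 => ((κ k : ℂˣ) : ℂ)) ≠ 0 := by
    have h2 : resj N0.subtype η = fun k : N0 => η 1 * ((κ k : ℂˣ) : ℂ) := by
      funext k
      rw [hκ, hκ0, mul_div_cancel₀ _ hη10]
      rfl
    have h3 : ip (resj N0.subtype η) (fun k : N0 => ((κ k : ℂˣ) : ℂ)) =
        η 1 * ip (fun k : N0 => ((κ k : ℂˣ) : ℂ)) (fun k : N0 => ((κ k : ℂˣ) : ℂ)) := by
      rw [h2, ip, ip, ← mul_div_assoc, Finset.mul_sum]
      congr 1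
      exact Finset.sum_congr rfl fun k _ => mul_assoc _ _ _
    rw [h3, ip_self hκi, mul_one]
    exact hη10
  have hdef := (DGI_thm (MY π φ π1 M) ℓ N0 hcop η (fun k : N0 => ((κ k : ℂˣ) : ℂ)) hηi hκi hip
    (padicValNat ℓ (Nat.card N0))).mpr ⟨1, by simp, by simp⟩
  obtain ⟨d, hd, hd'⟩ := hdef
  have hi0 : N0.index ≠ 0 := Subgroup.index_ne_zero_of_finite
  have hcard : padicValNat ℓ (Nat.card (MY π φ π1 M)) = padicValNat ℓ (Nat.card N0) := by
    rw [← Subgroup.card_mul_index N0, padicValNat.mul Nat.card_pos.ne' hi0,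
      padicValNat.eq_zero_of_not_dvd hcop, add_zero]
  refine ⟨d, ?_, ?_⟩
  · intro hdvd
    have hd0 : d ≠ 0 := by
      rintro rfl
      exact hη10 (by rw [hd, Nat.cast_zero])
    have h2 : padicValNat ℓ d = 0 := by omega
    have h3 := one_le_padicValNat_of_dvd hd0 hdvd
    omega
  · rw [← hη1, hd]

end

end CMA

open _root_.Pool.Agent.DPG.CMA in
theorem CMA_thm (h1 : Stmt_PRF) : Stmt_CMA := by
  classical
  intro L K K1 Q L1 Ω _ _ _ _ _ _ _ _ _ _ _ _ 𝔐 ℓ _ hM hl π μ φ q α ε μQ π1 μ1 ι M M1 h hld hm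
    S S' F F' hF hF' hov hov' hsc ζ hζ T T' θ θ' hθ hθ' hTP hTP' u hu
  have hMp : 𝔐.IsPrime := hM.isPrime
  have hF1 : F 1 ≠ 0 := hF.irr.1.one_ne_zero
  have hF1' : F' 1 ≠ 0 := hF'.irr.1.one_ne_zero
  obtain ⟨d, hd, hζd⟩ := deg_zeta h hld hm hζ
  have hd0 : d ≠ 0 := by
    rintro rfl
    exact hd (dvd_zero ℓ)
  have hζ1 : ζ 1 ≠ 0 := by
    rw [hζd]
    exact_mod_cast hd0
  have hg : ∀ l : L, ∃ g : Gam (Equiv.Perm Ω) Ω L1, (l, g) ∈ YY π φ π1 := fun l =>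
    WDB.exists_YY hld l
  choose g hg using hg
  have huN : CIv ((NN' π ε).comap π) u := fun s hs x => hu s (hm.le hs) x
  have hprf := h1 L K K1 Q L1 Ω 𝔐 ℓ hM hl π μ φ q α ε μQ π1 μ1 ι M M1 h hld hm S S' F F' hF hF'
    hov hov' hsc
  have e1 := scal_psm h hld hm hF1 hζ hζ1 hTP u g hg
  have e2 := scal_psm h hld hm hF1' hζ hζ1 hTP' u g hg
  have i1 : IsIntegral ℤ ((∑ x, ((u x : ℤ) : ℂ) * θ x) / θ 1) :=
    int_scal hθ fun a ha n => hu a (Subgroup.mem_inf.mp (Subgroup.mem_comap.mp ha)).1 n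
  have i2 : IsIntegral ℤ ((∑ x, ((u x : ℤ) : ℂ) * θ' x) / θ' 1) :=
    int_scal hθ' fun a ha n => hu a (Subgroup.mem_inf.mp (Subgroup.mem_comap.mp ha)).1 n
  have r0 : red 𝔐 (∑ c : L ⧸ ε.range, if π c.out ∈ M then
        psm ε ι F u (c.out, g c.out) * ζ (c.out, g c.out) else 0) =
      red 𝔐 (∑ c : L ⧸ ε.range, if π c.out ∈ M then
        psm ε ι F' u (c.out, g c.out) * ζ (c.out, g c.out) else 0) := by
    have hcase : ∀ c : L ⧸ ε.range,
        IsIntegral ℤ (if π c.out ∈ M then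
          psm ε ι F u (c.out, g c.out) * ζ (c.out, g c.out) else 0) ∧
        IsIntegral ℤ (if π c.out ∈ M then
          psm ε ι F' u (c.out, g c.out) * ζ (c.out, g c.out) else 0) ∧
        red 𝔐 (if π c.out ∈ M then
          psm ε ι F u (c.out, g c.out) * ζ (c.out, g c.out) else 0) =
        red 𝔐 (if π c.out ∈ M then
          psm ε ι F' u (c.out, g c.out) * ζ (c.out, g c.out) else 0) := by
      intro c
      split_ifs with hc
      · obtain ⟨p1, p2, p3⟩ := hprf (c.out, g c.out) ⟨hg _, hc⟩ u huN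
        refine ⟨p1.mul (int_zeta hζ _), p2.mul (int_zeta hζ _), ?_⟩
        rw [red_mul 𝔐 p1 (int_zeta hζ _), red_mul 𝔐 p2 (int_zeta hζ _), p3]
      · exact ⟨isIntegral_zero, isIntegral_zero, rfl⟩
    rw [red_sum 𝔐 _ _ fun c _ => (hcase c).1, red_sum 𝔐 _ _ fun c _ => (hcase c).2.1]
    exact Finset.sum_congr rfl fun c _ => (hcase c).2.2
  rw [← e1, ← e2, hζd, red_mul 𝔐 i1 (_root_.isIntegral_natCast d),
    red_mul 𝔐 i2 (_root_.isIntegral_natCast d)]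
    at r0
  exact mul_right_cancel₀ (red_card_ne_zero 𝔐 hl hd) r0

end Pool.Agent.DPG


end
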