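import Mathlib
import Pool.Agent.DAM.C01
import Pool.Agent.DAM.C05
import Pool.Agent.DAM.C19
import Pool.Agent.DAM.C33
import Pool.Agent.DAM.C69

/-! Parts: DPG.TNA -/

section

/-!
# Products of characters are irreducible
-/

set_option linter.unusedSectionVars false

namespace Pool.Agent.DPG

open Pool.Agent.DP Pool.Agent.DPC Pool.Agent.DPM Pool.Agent.DPN Pool.Agent.DPF
  Pool.Agent.DPK Pool.Agent.Lib_helper13 Representation

namespace TNA

theorem sum_comp_surj {X Y : Type*} [Group X] [Fintype X] [Group Y] [Fintype Y] (p : X →* Y)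
    (hp : Function.Surjective p) (f : Y → ℂ) :
    ∑ x, f (p x) = (Nat.card p.ker : ℂ) * ∑ y, f y := by
  classical
  rw [← Finset.sum_fiberwise_of_maps_to (s := Finset.univ) (t := Finset.univ) (g := p)
    (fun _ _ => Finset.mem_univ _), Finset.mul_sum]
  refine Finset.sum_congr rfl fun y _ => ?_
  have h1 : ∀ x ∈ Finset.univ.filter (fun x => p x = y), f (p x) = f y := by
    intro x hx
    rw [(Finset.mem_filter.mp hx).2]
  rw [Finset.sum_congr rfl h1, Finset.sum_const, nsmul_eq_mul]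
  congr 2
  obtain ⟨x0, hx0⟩ := hp y
  rw [← Fintype.card_subtype, ← Nat.card_eq_fintype_card]
  refine Nat.card_congr ⟨fun x => ⟨x0⁻¹ * x.1, ?_⟩, fun x => ⟨x0 * x.1, ?_⟩, ?_, ?_⟩
  · rw [MonoidHom.mem_ker, map_mul, map_inv, x.2, hx0, inv_mul_cancel]
  · rw [map_mul, MonoidHom.mem_ker.mp x.2, hx0, mul_one]
  · intro x
    apply Subtype.ext
    simp
  · intro x
    apply Subtype.ext
    simp

/-- Inflation of irreducible characters. -/
theorem isIrr_comp_surj {X Y : Type*} [Group X] [Fintype X] [Group Y] [Fintype Y] (p : X →* Y)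
    (hp : Function.Surjective p) {χ : Y → ℂ} (hχ : IsIrr χ) : IsIrr (fun x => χ (p x)) := by
  refine (hχ.isChr.comp p).isIrr ?_
  have h1 := sum_comp_surj p hp (fun y => χ y * χ y⁻¹)
  have h2 : ∀ x, χ (p x) * χ (p x⁻¹) = (fun y => χ y * χ y⁻¹) (p x) := by
    intro x
    simp
  rw [Finset.sum_congr rfl fun x _ => h2 x, h1, hχ.sum_self]
  have h3 : Nat.card X = Nat.card p.ker * Nat.card Y := by
    have h4 := Subgroup.card_mul_index p.ker
    rw [← h4, Subgroup.index_ker, MonoidHom.range_eq_top.mpr hp]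
    congr 1
    exact Nat.card_congr Subgroup.topEquiv.toEquiv
  rw [h3]
  push_cast
  rfl

/-- A function whose inflation is irreducible is irreducible. -/
theorem isIrr_of_comp_surj {X Y : Type*} [Group X] [Fintype X] [Group Y] [Fintype Y]
    (p : X →* Y) (hp : Function.Surjective p) {F : Y → ℂ} (hF : IsIrr (fun x => F (p x))) :
    IsIrr F := by
  classical
  have hcl : ∀ g x, F (g * x * g⁻¹) = F x := by
    intro g x
    obtain ⟨g', rfl⟩ := hp g
    obtain ⟨x', rfl⟩ := hp x
    have h := hF.conj_eq g' x'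
    rw [← map_inv, ← map_mul, ← map_mul]
    exact h
  have h0 : F ≠ 0 := by
    intro h
    apply hF.one_ne_zero
    rw [h]
    rfl
  obtain ⟨χ, hχ, h1⟩ := exists_irr_of_ne_zero F hcl h0
  have h2 : (fun x => F (p x)) = fun x => χ (p x) := by
    by_contra hne
    have h3 := hF.sum_ne (isIrr_comp_surj p hp hχ) hne
    have h4 := sum_comp_surj p hp (fun y => F y * χ y⁻¹)
    have h5 : ∑ x, F (p x) * χ (p x)⁻¹ = 0 := by
      rw [← h3]
      refine Finset.sum_congr rfl fun x _ => ?_
      rw [map_inv]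
    rw [h5] at h4
    rcases mul_eq_zero.mp h4.symm with h6 | h6
    · have h7 : 0 < Nat.card p.ker := Nat.card_pos
      exact h7.ne' (by exact_mod_cast h6)
    · exact h1 h6
  have h8 : F = χ := by
    funext y
    obtain ⟨x, rfl⟩ := hp y
    exact congrFun h2 x
  rw [h8]
  exact hχ

section

variable {L K K1 Q Ω : Type} [Group L] [Fintype L] [Group K] [Fintype K] [Group K1]
  [Fintype K1] [Group Q] [Fintype Q] [Fintype Ω]
  {π : L →* K} {μ : π.ker →* ℂˣ} {φ : K →* Gam (Equiv.Perm Ω) Ω K1} {q : Q →* K1}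
  {α : K1 →* MulAut Q} {ε : (Ω → Q) →* L} {μQ : q.ker →* ℂˣ}

/-- The projection from the product of the inverse images. -/
def pr (h : WD π μ φ q α ε μQ) (S : Ω → Subgroup K1) :
    pK (fun o => (S o).comap q) →* AL π (NN' π ε) (PS φ S) where
  toFun a := ⟨ε (a : Ω → Q), (WDB.ε_mem_AL h S).mpr fun o => mem_pK.mp a.2 o⟩
  map_one' := Subtype.ext (map_one ε)
  map_mul' a b := Subtype.ext (map_mul ε (a : Ω → Q) (b : Ω → Q))

theorem pr_val (h : WD π μ φ q α ε μQ) (S : Ω → Subgroup K1)
    (a : pK (fun o => (S o).comap q)) : ((pr h S a : AL π (NN' π ε) (PS φ S)) : L) = ε a := rfl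

theorem pr_surj (h : WD π μ φ q α ε μQ) (S : Ω → Subgroup K1) :
    Function.Surjective (pr h S) := by
  rintro ⟨x, hx⟩
  obtain ⟨n, rfl⟩ := (WDB.mem_comap_NN h).mp (Subgroup.mem_comap.mp hx).1
  exact ⟨⟨n, mem_pK.mpr fun o => (WDB.ε_mem_AL h S).mp hx o⟩, rfl⟩

/-- Multiplication by a family of elements of `ker q`. -/
theorem prod_mul (f : Ω → Q → ℂ) (hf : ∀ o, Ov q μQ (f o)) {z : Ω → Q}
    (hz : ∀ o, z o ∈ q.ker) (n : Ω → Q) :
    ∏ o, f o (z o * n o) = (((∏ o, μQ ⟨z o, hz o⟩ : ℂˣ)) : ℂ) * ∏ o, f o (n o) := by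
  rw [Units.coe_prod, ← Finset.prod_mul_distrib]
  exact Finset.prod_congr rfl fun o _ => hf o ⟨z o, hz o⟩ (n o)

theorem well (h : WD π μ φ q α ε μQ) (f : Ω → Q → ℂ) (hf : ∀ o, Ov q μQ (f o))
    {n n' : Ω → Q} (hn : ε n = ε n') : ∏ o, f o (n o) = ∏ o, f o (n' o) := by
  have h1 : ε (n * n'⁻¹) = 1 := by rw [map_mul, map_inv, hn, mul_inv_cancel]
  obtain ⟨hz, h2⟩ := (WDB.ε_eq_one h).mp h1
  have h3 := prod_mul f hf hz n'
  rw [h2, Units.val_one, one_mul] at h3
  rw [← h3]
  refine Finset.prod_congr rfl fun o _ => ?_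
  rw [Pi.mul_apply, Pi.inv_apply, inv_mul_cancel_right]

theorem part1 (h : WD π μ φ q α ε μQ) (S : Ω → Subgroup K1) (f : Ω → Q → ℂ)
    (hf : ∀ o, IrrOn ((S o).comap q) (f o) ∧ Ov q μQ (f o)) :
    ∃ F : L → ℂ, IrrOn (AL π (NN' π ε) (PS φ S)) F ∧ Ov π μ F ∧ TF ε f F := by
  classical
  let F : L → ℂ := fun l => if hl : ∃ n, ε n = l then ∏ o, f o (hl.choose o) else 0
  have hF1 : ∀ n, F (ε n) = ∏ o, f o (n o) := by
    intro n
    have hl : ∃ n', ε n' = ε n := ⟨n, rfl⟩
    change (if hl : ∃ n', ε n' = ε n then ∏ o, f o (hl.choose o) else 0) = _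
    rw [dif_pos hl]
    exact well h f (fun o => (hf o).2) hl.choose_spec
  have hF2 : ∀ l, l ∉ ε.range → F l = 0 := by
    intro l hl
    change (if hl : ∃ n', ε n' = l then ∏ o, f o (hl.choose o) else 0) = _
    rw [dif_neg]
    rintro ⟨n, hn⟩
    exact hl ⟨n, hn⟩
  refine ⟨F, ⟨?_, ?_⟩, ?_, hF1, hF2⟩
  · refine isIrr_of_comp_surj (pr h S) (pr_surj h S) ?_
    have h1 := IRRPI.one_part (fun o => (S o).comap q) f fun o => (hf o).1
    have h2 : (fun a : pK (fun o => (S o).comap q) =>
        F ((pr h S a : AL π (NN' π ε) (PS φ S)) : L)) =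
        fun a : pK (fun o => (S o).comap q) => ∏ o, f o ((a : Ω → Q) o) := by
      funext a
      rw [pr_val, hF1]
    exact h2 ▸ h1
  · intro x hx
    by_cases hx' : x ∈ ε.range
    · obtain ⟨n, rfl⟩ := hx'
      rw [hF1]
      rw [WDB.ε_mem_AL h S] at hx
      push Not at hx
      obtain ⟨o, ho⟩ := hx
      exact Finset.prod_eq_zero (Finset.mem_univ o) ((hf o).1.2 _ ho)
    · exact hF2 x hx'
  · intro z x
    obtain ⟨m, hm⟩ := h.kr z.2
    have hm' : ∀ o, m o ∈ q.ker := (WDB.πε_eq_one h).mp (by rw [hm]; exact z.2)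
    have hμ : μ z = ∏ o, μQ ⟨m o, hm' o⟩ := by
      rw [← h.με m hm' (by rw [hm]; exact z.2)]
      congr 1
      exact Subtype.ext hm.symm
    by_cases hx : x ∈ ε.range
    · obtain ⟨n, rfl⟩ := hx
      rw [← hm, ← map_mul, hF1, hF1, hμ]
      exact prod_mul f (fun o => (hf o).2) hm' n
    · rw [hF2 x hx, mul_zero]
      refine hF2 _ fun hx' => hx ?_
      have h3 : (z : L) ∈ ε.range := h.kr z.2
      exact (Subgroup.mul_mem_cancel_left _ h3).mp hx'

theorem part2 (h : WD π μ φ q α ε μQ) (S : Ω → Subgroup K1) (F : L → ℂ)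
    (hF : IrrOn (AL π (NN' π ε) (PS φ S)) F) (hov : Ov π μ F) :
    ∃ f : Ω → Q → ℂ, (∀ o, IrrOn ((S o).comap q) (f o) ∧ Ov q μQ (f o)) ∧ TF ε f F := by
  classical
  have h0 : IsIrr (fun a : pK (fun o => (S o).comap q) =>
      F ((pr h S a : AL π (NN' π ε) (PS φ S)) : L)) :=
    isIrr_comp_surj (pr h S) (pr_surj h S) hF.1
  have h1 := h0.comp_mulEquiv (pKEquiv (fun o => (S o).comap q))
  obtain ⟨θ, hθ, h2⟩ := exists_prodFn h1
  have hI : ∀ o, IrrOn ((S o).comap q) (ext0 (θ o)) := fun o => IRRPI.irrOn_ext0 (hθ o)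
  have hT : ∀ n : Ω → Q, F (ε n) = ∏ o, ext0 (θ o) (n o) := by
    intro n
    by_cases hn : ∀ o, n o ∈ (S o).comap q
    · have h3 := congrFun h2 (fun o => ⟨n o, hn o⟩)
      have h4 : F (ε n) = prodFn θ (fun o => ⟨n o, hn o⟩) := h3.symm ▸ rfl
      rw [h4, prodFn]
      refine Finset.prod_congr rfl fun o _ => ?_
      rw [ext0_of_mem _ (hn o)]
    · have h3 : ε n ∉ AL π (NN' π ε) (PS φ S) := fun h4 => hn ((WDB.ε_mem_AL h S).mp h4)
      rw [hF.2 _ h3]
      push Not at hn
      obtain ⟨o, ho⟩ := hn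
      have h4 : ext0 (θ o) (n o) = 0 := ext0_of_not_mem _ ho
      exact (Finset.prod_eq_zero (Finset.mem_univ o) h4).symm
  refine ⟨fun o => ext0 (θ o), fun o => ⟨hI o, ?_⟩, hT, ?_⟩
  · intro z x
    by_cases hx : x ∈ (S o).comap q
    · let n : Ω → Q := Function.update 1 o x
      let m : Ω → Q := Function.update 1 o (z : Q)
      have hm : ∀ w, m w ∈ q.ker := by
        intro w
        by_cases hw : w = o
        · subst hw
          change Function.update (1 : Ω → Q) w (z : Q) w ∈ q.ker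
          rw [Function.update_self]
          exact z.2
        · change Function.update (1 : Ω → Q) o (z : Q) w ∈ q.ker
          rw [Function.update_of_ne hw]
          exact q.ker.one_mem
      have hm' : ε m ∈ π.ker := MonoidHom.mem_ker.mpr ((WDB.πε_eq_one h).mpr hm)
      have hμ : μ ⟨ε m, hm'⟩ = μQ z := by
        rw [h.με m hm hm', Finset.prod_eq_single o]
        · congr 1
          apply Subtype.ext
          change Function.update (1 : Ω → Q) o (z : Q) o = z
          rw [Function.update_self]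
        · intro w _ hw
          have h5 : (⟨m w, hm w⟩ : q.ker) = 1 := by
            apply Subtype.ext
            change Function.update (1 : Ω → Q) o (z : Q) w = 1
            rw [Function.update_of_ne hw]
            rfl
          rw [h5, map_one]
        · intro h5
          exact absurd (Finset.mem_univ o) h5
      have h6 := hov ⟨ε m, hm'⟩ (ε n)
      rw [hμ] at h6
      change F (ε m * ε n) = _ at h6
      rw [← map_mul, hT, hT, ← Finset.mul_prod_erase _ _ (Finset.mem_univ o),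
        ← Finset.mul_prod_erase Finset.univ (fun w => ext0 (θ w) (n w)) (Finset.mem_univ o),
        ← mul_assoc] at h6
      have h7 : ∏ w ∈ Finset.univ.erase o, ext0 (θ w) ((m * n) w) =
          ∏ w ∈ Finset.univ.erase o, ext0 (θ w) (n w) := by
        refine Finset.prod_congr rfl fun w hw => ?_
        rw [Pi.mul_apply]
        have h8 : m w = 1 := by
          change Function.update (1 : Ω → Q) o (z : Q) w = 1
          rw [Function.update_of_ne (Finset.ne_of_mem_erase hw)]
          rfl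
        rw [h8, one_mul]
      rw [h7] at h6
      have h9 : ∏ w ∈ Finset.univ.erase o, ext0 (θ w) (n w) ≠ 0 := by
        rw [Finset.prod_ne_zero_iff]
        intro w hw
        have h8 : n w = 1 := by
          change Function.update (1 : Ω → Q) o x w = 1
          rw [Function.update_of_ne (Finset.ne_of_mem_erase hw)]
          rfl
        rw [h8, ext0_of_mem _ (Subgroup.one_mem _)]
        exact (hθ w).one_ne_zero
      have h10 := mul_right_cancel₀ h9 h6
      have h11 : n o = x := by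
        change Function.update (1 : Ω → Q) o x o = x
        rw [Function.update_self]
      have h12 : m o = z := by
        change Function.update (1 : Ω → Q) o (z : Q) o = z
        rw [Function.update_self]
      rw [Pi.mul_apply, h11, h12] at h10
      exact h10
    · have hx' : (z : Q) * x ∉ (S o).comap q := by
        intro h5
        apply hx
        rw [Subgroup.mem_comap] at h5 ⊢
        rw [map_mul, MonoidHom.mem_ker.mp z.2, one_mul] at h5
        exact h5
      change ext0 (θ o) ((z : Q) * x) = _ * ext0 (θ o) x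
      rw [ext0_of_not_mem _ hx, ext0_of_not_mem _ hx', mul_zero]
  · intro l hl
    refine hF.2 l fun hl' => hl ?_
    obtain ⟨n, hn⟩ := (WDB.mem_comap_NN h).mp (Subgroup.mem_comap.mp hl').1
    exact ⟨n, hn⟩

theorem part3 (S : Ω → Subgroup K1) (f f' : Ω → Q → ℂ) (F : L → ℂ)
    (hf : ∀ o, IrrOn ((S o).comap q) (f o)) (hf' : ∀ o, IrrOn ((S o).comap q) (f' o))
    (hT : TF ε f F) (hT' : TF ε f' F) : f = f' := by
  classical
  refine IRRPI.two_part (fun o => (S o).comap q) f f' hf hf' fun a => ?_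
  rw [← hT.1, ← hT'.1]

end

end TNA

theorem TNA_thm : Stmt_TNA := by
  intro L K K1 Q Ω _ _ _ _ _ _ _ _ _ π μ φ q α ε μQ h S
  exact ⟨TNA.part1 h S, TNA.part2 h S, TNA.part3 S⟩

end Pool.Agent.DPG


end
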