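import Mathlib
import Pool.Agent.DAM.C26

/-! Parts: DPT.BLM -/

section

/-!
# BLM: blocks which agree on a normal subgroup
-/

set_option autoImplicit false
set_option linter.unusedSectionVars false

namespace Pool.Agent.DPT

open Pool.Agent.DP Pool.Agent.DPC Pool.Agent.DPM Pool.Agent.DPN Pool.Agent.Lib_helper13
open Representation

namespace BLM

section Tw

variable {X : Type} [Group X] [Fintype X]

/-- The twist of a function by a linear character. -/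
noncomputable def twl (lam : X →* ℂˣ) (ψ : X → ℂ) (x : X) : ℂ := ((lam x : ℂˣ) : ℂ) * ψ x

theorem twl_twl (lam mu : X →* ℂˣ) (ψ : X → ℂ) : twl lam (twl mu ψ) = twl (lam * mu) ψ := by
  funext x
  simp only [twl, MonoidHom.mul_apply, Units.val_mul, mul_assoc]

theorem twl_one (ψ : X → ℂ) : twl (1 : X →* ℂˣ) ψ = ψ := by
  funext x
  simp only [twl, MonoidHom.one_apply, Units.val_one, one_mul]

theorem twl_at_one (lam : X →* ℂˣ) (ψ : X → ℂ) : twl lam ψ 1 = ψ 1 := by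
  simp only [twl, map_one, Units.val_one, one_mul]

theorem twl_isIrr (lam : X →* ℂˣ) {ψ : X → ℂ} (h : IsIrr ψ) : IsIrr (twl lam ψ) := by
  refine (IsChr.mul (isChr_lin lam) h.isChr).isIrr ?_
  rw [← h.sum_self]
  refine Finset.sum_congr rfl fun g _ => ?_
  have h1 : ((lam g : ℂˣ) : ℂ) * ((lam g⁻¹ : ℂˣ) : ℂ) = 1 := by
    rw [← Units.val_mul, ← map_mul, mul_inv_cancel, map_one, Units.val_one]
  calc ((lam g : ℂˣ) : ℂ) * ψ g * (((lam g⁻¹ : ℂˣ) : ℂ) * ψ g⁻¹)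
      = (((lam g : ℂˣ) : ℂ) * ((lam g⁻¹ : ℂˣ) : ℂ)) * (ψ g * ψ g⁻¹) := by ring
    _ = ψ g * ψ g⁻¹ := by rw [h1, one_mul]

theorem lam_conj (lam : X →* ℂˣ) {x y : X} (h : IsConj x y) : lam x = lam y := by
  obtain ⟨c, rfl⟩ := isConj_iff.1 h
  rw [map_mul, map_mul, mul_comm (lam c), mul_assoc, ← map_mul lam c c⁻¹, mul_inv_cancel, map_one,
    mul_one]

theorem isIntegral_lam (lam : X →* ℂˣ) (x : X) : IsIntegral ℤ ((lam x : ℂˣ) : ℂ) := by
  have h : ((lam x : ℂˣ) : ℂ) ^ Nat.card X = 1 := by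
    rw [← Units.val_pow_eq_pow_val, ← map_pow, pow_card_eq_one', map_one, Units.val_one]
  refine IsIntegral.of_pow (Nat.card_pos (α := X)) ?_
  rw [h]
  exact isIntegral_one

theorem wt_twl (lam : X →* ℂˣ) (ψ : X → ℂ) (g : X) :
    wt (twl lam ψ) (fun y => conjInd y g) =
      ((lam g : ℂˣ) : ℂ) * wt ψ (fun y => conjInd y g) := by
  classical
  rw [wt, wt, twl_at_one, ← mul_div_assoc, Finset.mul_sum]
  congr 1
  refine Finset.sum_congr rfl fun y _ => ?_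
  rw [twl, conjInd]
  split_ifs with h
  · rw [lam_conj lam h]
    ring
  · ring

theorem isIntegral_wt_ind {ψ : X → ℂ} (h : IsIrr ψ) (g : X) :
    IsIntegral ℤ (wt ψ (fun y => conjInd y g)) :=
  isIntegral_wt h _ (fun a y => conjInd_conj a y g) (fun y => isIntegral_conjInd y g)

theorem cen_twl (𝔐 : Ideal (integralClosure ℤ ℂ)) (lam : X →* ℂˣ) {ψ : X → ℂ} (h : IsIrr ψ)
    (g : X) : cen 𝔐 (MonoidHom.id X) (twl lam ψ) g =
      red 𝔐 ((lam g : ℂˣ) : ℂ) * cen 𝔐 (MonoidHom.id X) ψ g := by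
  have e := wt_twl lam ψ g
  rw [cen, cen]
  change red 𝔐 (wt (twl lam ψ) (fun y => conjInd y g)) =
    red 𝔐 ((lam g : ℂˣ) : ℂ) * red 𝔐 (wt ψ (fun y => conjInd y g))
  rw [e, red_mul 𝔐 (isIntegral_lam lam g) (isIntegral_wt_ind h g)]

end Tw

/-- Linear characters separate the elements outside `P`. -/
theorem exists_lin {H : Type} [Group H] [Finite H] (P : Subgroup H) [P.Normal]
    (hc : ∀ x y : H, x * y * x⁻¹ * y⁻¹ ∈ P) {h : H} (hh : h ∉ P) :
    ∃ lam : H →* ℂˣ, (∀ p ∈ P, lam p = 1) ∧ lam h ≠ 1 := by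
  let _ : CommGroup (H ⧸ P) :=
    { (inferInstance : Group (H ⧸ P)) with
      mul_comm := by
        intro a b
        obtain ⟨x, rfl⟩ := QuotientGroup.mk_surjective a
        obtain ⟨y, rfl⟩ := QuotientGroup.mk_surjective b
        rw [← QuotientGroup.mk_mul, ← QuotientGroup.mk_mul, QuotientGroup.eq]
        have h1 := hc y⁻¹ x⁻¹
        have h2 : (x * y)⁻¹ * (y * x) = y⁻¹ * x⁻¹ * y⁻¹⁻¹ * x⁻¹⁻¹ := by group
        rw [h2]
        exact h1 }
  have hne : (QuotientGroup.mk' P h) ≠ 1 := by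
    intro h1
    exact hh ((QuotientGroup.eq_one_iff h).1 h1)
  obtain ⟨μ, hμ⟩ := exists_linChar_ne_one hne
  refine ⟨μ.comp (QuotientGroup.mk' P), ?_, hμ⟩
  intro p hp
  have h1 : QuotientGroup.mk' P p = 1 := (QuotientGroup.eq_one_iff p).2 hp
  rw [MonoidHom.comp_apply, h1, map_one]

/-- An element of `P` which is the image of an element of order prime to `ℓ` is trivial. -/
theorem eq_one_of_order {X H : Type} [Group X] [Fintype X] [Group H] [Finite H] {ℓ : ℕ}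
    [Fact ℓ.Prime] (f : X →* H) {P : Subgroup H} (hP : IsPGroup ℓ P) {g : X}
    (hg : f g ∈ P) (ho : ¬ ℓ ∣ orderOf g) : f g = 1 := by
  obtain ⟨k, hk⟩ := hP ⟨f g, hg⟩
  have h1 : f g ^ ℓ ^ k = 1 := congrArg Subtype.val hk
  have h2 : orderOf (f g) ∣ ℓ ^ k := orderOf_dvd_of_pow_eq_one h1
  have h3 : orderOf (f g) ∣ orderOf g := orderOf_map_dvd f g
  have h4 : Nat.Coprime (ℓ ^ k) (orderOf g) :=
    Nat.Coprime.pow_left k (((Fact.out : ℓ.Prime).coprime_iff_not_dvd).2 ho)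
  exact orderOf_eq_one_iff.1 (Nat.eq_one_of_dvd_coprimes h4 h2 h3)

end BLM

open _root_.Pool.Agent.DPT.BLM in
/-- BLM: blocks which agree on a normal subgroup. -/
theorem BLM_thm (h1 : Pool.Agent.DPX.Stmt_VALX) (h2 : Pool.Agent.DPX.Stmt_IDOX)
    (h3 : Pool.Agent.DPX.Stmt_OSIX) : Stmt_BLM := by
  classical
  intro X H _ _ _ _ 𝔐 ℓ _ hmax hℓ M f hf hM P hPn hP hPi hc χ χ' hχ hχ' hag
  by_contra hcon
  obtain ⟨O, hO⟩ := h1 𝔐 ℓ hmax hℓ
  -- the union of the blocks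
  let InB : (X → ℂ) → Prop := fun ψ => ∃ lam : H →* ℂˣ, (∀ h ∈ P, lam h = 1) ∧
    ∀ g, cen 𝔐 (MonoidHom.id X) ψ g =
      red 𝔐 ((lam (f g) : ℂˣ) : ℂ) * cen 𝔐 (MonoidHom.id X) χ g
  have hInB : ∀ ψ ψ' : X → ℂ, cen 𝔐 (MonoidHom.id X) ψ = cen 𝔐 (MonoidHom.id X) ψ' →
      InB ψ → InB ψ' := by
    rintro ψ ψ' he ⟨lam, hl, h⟩
    exact ⟨lam, hl, fun g => by rw [← he]; exact h g⟩
  have hχB : InB χ := ⟨1, fun _ _ => rfl, fun g => by
    rw [MonoidHom.one_apply, Units.val_one, red_one, one_mul]⟩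
  have hχ'B : ¬ InB χ' := hcon
  let B : Finset (X → ℂ) := (irrF X).filter InB
  have hB : ∀ ψ, ψ ∈ B ↔ IsIrr ψ ∧ InB ψ := fun ψ => by
    rw [Finset.mem_filter, mem_irrF]
  let Om : Finset (X → (integralClosure ℤ ℂ) ⧸ 𝔐) := B.image (cen 𝔐 (MonoidHom.id X))
  let blk : (X → (integralClosure ℤ ℂ) ⧸ 𝔐) → Finset (X → ℂ) := fun ω =>
    (irrF X).filter (fun ψ => cen 𝔐 (MonoidHom.id X) ψ = ω)
  have hfib : ∀ ω ∈ Om, B.filter (fun ψ => cen 𝔐 (MonoidHom.id X) ψ = ω) = blk ω := by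
    intro ω hω
    obtain ⟨ψ₀, hψ₀, rfl⟩ := Finset.mem_image.1 hω
    ext ψ
    change ψ ∈ B.filter _ ↔ ψ ∈ (irrF X).filter _
    rw [Finset.mem_filter, Finset.mem_filter, mem_irrF, Finset.mem_filter, mem_irrF]
    constructor
    · rintro ⟨⟨h, -⟩, h'⟩
      exact ⟨h, h'⟩
    · rintro ⟨h, h'⟩
      exact ⟨⟨h, hInB ψ₀ ψ h'.symm ((hB ψ₀).1 hψ₀).2⟩, h'⟩
  have hsum : ∀ F : (X → ℂ) → ℂ, ∑ ψ ∈ B, F ψ = ∑ ω ∈ Om, ∑ ψ ∈ blk ω, F ψ := by
    intro F
    rw [← Finset.sum_fiberwise_of_maps_to (g := cen 𝔐 (MonoidHom.id X)) (t := Om)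
      (fun ψ hψ => Finset.mem_image_of_mem _ hψ)]
    refine Finset.sum_congr rfl fun ω hω => ?_
    rw [hfib ω hω]
  let ε : X → ℂ := fun g => (∑ ψ ∈ B, ψ 1 * ψ g⁻¹) / Nat.card X
  -- (b) values in the valuation ring, and (a)
  have hblk : ∀ ω ∈ Om, ∃ eh : X → ℂ, (∀ x, eh x ∈ O) ∧ (∀ g x, eh (g * x * g⁻¹) = eh x) ∧
      (∀ x, eh x = (∑ ψ ∈ blk ω, ψ 1 * ψ x⁻¹) / Nat.card X) ∧
      ∀ ψ : X → ℂ, IsIrr ψ → wt ψ eh = if cen 𝔐 (MonoidHom.id X) ψ = ω then 1 else 0 := by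
    intro ω hω
    obtain ⟨ψ₀, hψ₀, rfl⟩ := Finset.mem_image.1 hω
    obtain ⟨eh, he1, he2, he3, -⟩ := h2 𝔐 ℓ hmax hℓ O hO X ψ₀ ((hB ψ₀).1 hψ₀).1
    refine ⟨fun x => (eh x : ℂ), fun x => (eh x).2, ?_, ?_, ?_⟩
    · intro g x
      exact congrArg (fun t : O => (t : ℂ)) (he1 g x)
    · intro x
      exact he2 x
    · intro ψ hψ
      exact he3 ψ hψ
  choose! eh he0 he1 he2 he3 using hblk
  have hε : ∀ g, ε g = ∑ ω ∈ Om, eh ω g := by
    intro g
    change (∑ ψ ∈ B, ψ 1 * ψ g⁻¹) / (Nat.card X : ℂ) = _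
    rw [hsum, Finset.sum_div]
    exact Finset.sum_congr rfl fun ω hω => (he2 ω hω g).symm
  have hεO : ∀ g, ε g ∈ O := by
    intro g
    rw [hε]
    exact sum_mem fun ω hω => he0 ω hω g
  have hεc : ∀ g x, ε (g * x * g⁻¹) = ε x := by
    intro g x
    rw [hε, hε]
    exact Finset.sum_congr rfl fun ω hω => he1 ω hω g x
  have hwt : ∀ ψ : X → ℂ, IsIrr ψ → wt ψ ε =
      if cen 𝔐 (MonoidHom.id X) ψ ∈ Om then 1 else 0 := by
    intro ψ hψ
    have e1 : ε = fun g => ∑ ω ∈ Om, eh ω g := funext hε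
    rw [e1, wt_sum]
    rw [Finset.sum_congr rfl fun ω hω => he3 ω hω ψ hψ]
    rw [Finset.sum_ite_eq]
  have hw1 : wt χ ε = 1 := by
    rw [hwt χ hχ, if_pos]
    exact Finset.mem_image_of_mem _ ((hB χ).2 ⟨hχ, hχB⟩)
  have hw0 : wt χ' ε = 0 := by
    rw [hwt χ' hχ', if_neg]
    intro h
    obtain ⟨ψ, hψ, he⟩ := Finset.mem_image.1 h
    exact hχ'B (hInB ψ χ' he ((hB ψ).1 hψ).2)
  -- (c)
  have hcc : ∀ lam : H →* ℂˣ, (∀ h ∈ P, lam h = 1) → ∀ g, lam (f g) ≠ 1 → ε g = 0 := by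
    intro lam hl g hg
    have hmem : ∀ mu : H →* ℂˣ, (∀ h ∈ P, mu h = 1) → ∀ ψ ∈ B, twl (mu.comp f) ψ ∈ B := by
      intro mu hm ψ hψ
      obtain ⟨hi, nu, hn, hcn⟩ := (hB ψ).1 hψ
      refine (hB _).2 ⟨twl_isIrr _ hi, mu * nu, ?_, ?_⟩
      · intro h hh
        rw [MonoidHom.mul_apply, hm h hh, hn h hh, mul_one]
      · intro x
        rw [cen_twl 𝔐 _ hi, hcn x, ← mul_assoc]
        congr 1
        rw [MonoidHom.mul_apply, Units.val_mul, red_mul 𝔐]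
        · rfl
        · exact isIntegral_lam (mu.comp f) x
        · exact isIntegral_lam (nu.comp f) x
    have hS : ∑ ψ ∈ B, ψ 1 * ψ g⁻¹ = ((lam (f g⁻¹) : ℂˣ) : ℂ) * ∑ ψ ∈ B, ψ 1 * ψ g⁻¹ := by
      rw [Finset.mul_sum]
      symm
      refine Finset.sum_bij' (fun ψ _ => twl (lam.comp f) ψ) (fun ψ _ => twl (lam⁻¹.comp f) ψ)
        (fun ψ hψ => hmem lam hl ψ hψ) (fun ψ hψ => hmem lam⁻¹ ?_ ψ hψ) ?_ ?_ ?_
      · intro h hh
        rw [MonoidHom.inv_apply, hl h hh, inv_one]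
      · intro ψ _
        rw [twl_twl, ← MonoidHom.mul_comp, inv_mul_cancel, MonoidHom.one_comp, twl_one]
      · intro ψ _
        rw [twl_twl, ← MonoidHom.mul_comp, mul_inv_cancel, MonoidHom.one_comp, twl_one]
      · intro ψ _
        rw [twl_at_one, twl, MonoidHom.comp_apply]
        ring
    have h5 : (((lam (f g⁻¹) : ℂˣ) : ℂ) - 1) * ∑ ψ ∈ B, ψ 1 * ψ g⁻¹ = 0 := by
      rw [sub_mul, one_mul, ← hS, sub_self]
    rcases mul_eq_zero.1 h5 with h6 | h6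
    · exfalso
      apply hg
      have h7 : lam (f g⁻¹) = 1 := Units.ext (sub_eq_zero.1 h6)
      rw [map_inv, map_inv, inv_eq_one] at h7
      exact h7
    · change (∑ ψ ∈ B, ψ 1 * ψ g⁻¹) / (Nat.card X : ℂ) = 0
      rw [h6, zero_div]
  -- (d)
  have hd : ∀ g, ℓ ∣ orderOf g → ε g = 0 := by
    intro g hg
    change (∑ ψ ∈ B, ψ 1 * ψ g⁻¹) / (Nat.card X : ℂ) = 0
    rw [hsum, Finset.sum_eq_zero, zero_div]
    intro ω hω
    obtain ⟨ψ₀, hψ₀, rfl⟩ := Finset.mem_image.1 hω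
    have := h3 X 𝔐 ℓ hmax hℓ ψ₀ ((hB ψ₀).1 hψ₀).1 g⁻¹ (by rw [orderOf_inv]; exact hg)
    rw [← this]
  -- (e)
  have he : ∀ g, g ∉ M → ε g = 0 := by
    intro g hg
    by_cases hgP : f g ∈ P
    · by_cases ho : ℓ ∣ orderOf g
      · exact hd g ho
      · exact absurd ((hM g).1 (eq_one_of_order f hP hgP ho)) hg
    · have := hPn
      obtain ⟨lam, hl, hn⟩ := exists_lin P hc hgP
      exact hcc lam hl g hn
  obtain ⟨F, hF⟩ := exists_lift_class ε hεc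
  have hexp : ∀ ψ : X → ℂ, wt ψ ε = ∑ K : ConjClasses X, F K *
      wt ψ (fun y => if ConjClasses.mk (id y) = K then 1 else 0) := by
    intro ψ
    have e1 : ε = fun y => F (ConjClasses.mk (id y)) := by
      funext y
      exact (hF y).symm
    rw [e1]
    exact wt_comp_classes id ψ F
  have hdiff : (1 : ℂ) = ∑ K : ConjClasses X, F K *
      (wt χ (fun y => if ConjClasses.mk (id y) = K then 1 else 0) -
        wt χ' (fun y => if ConjClasses.mk (id y) = K then 1 else 0)) := by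
    have e1 : wt χ ε - wt χ' ε = 1 := by rw [hw1, hw0, sub_zero]
    refine e1.symm.trans ?_
    rw [hexp, hexp, ← Finset.sum_sub_distrib]
    exact Finset.sum_congr rfl fun K _ => (mul_sub _ _ _).symm
  have hlt : O.valuation (∑ K : ConjClasses X, F K *
      (wt χ (fun y => if ConjClasses.mk (id y) = K then 1 else 0) -
        wt χ' (fun y => if ConjClasses.mk (id y) = K then 1 else 0))) < 1 := by
    refine Valuation.map_sum_lt O.valuation one_ne_zero fun K _ => ?_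
    obtain ⟨x, rfl⟩ := ConjClasses.mk_surjective K
    rw [hF]
    by_cases hx : x ∈ M
    · have hind : (fun y : X => if ConjClasses.mk (id y) = ConjClasses.mk x then (1 : ℂ) else 0) =
          fun y => conjInd y x := by
        funext y
        exact conjInd_eq ConjClasses.mk_eq_mk_iff_isConj
      rw [hind]
      have h6 : red 𝔐 (wt χ (fun y => conjInd y x)) = red 𝔐 (wt χ' (fun y => conjInd y x)) :=
        hag x hx
      rw [red_eq_iff 𝔐 (isIntegral_wt_ind hχ x) (isIntegral_wt_ind hχ' x)] at h6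
      obtain ⟨m, hm, hm'⟩ := h6
      rw [← hm', map_mul]
      have h7 : O.valuation (m : ℂ) < 1 := (hO.max m).1 hm
      have h8 : O.valuation (ε x) ≤ 1 := (O.valuation_le_one_iff _).2 (hεO x)
      calc O.valuation (ε x) * O.valuation (m : ℂ) ≤ 1 * O.valuation (m : ℂ) :=
            mul_le_mul_left h8 _
        _ < 1 := by rw [one_mul]; exact h7
    · rw [he x hx, zero_mul, map_zero]
      exact zero_lt_one
  rw [← hdiff, map_one] at hlt
  exact lt_irrefl _ hlt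

end Pool.Agent.DPT


end
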