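import Mathlib
import Pool.Agent.DAM.C02
import Pool.Agent.DAM.C03
import Pool.Agent.DAM.C07
import Pool.Agent.DAM.C08
import Pool.Agent.DAM.C11
import Pool.Agent.DAM.C13
import Pool.Agent.DAM.C15
import Pool.Agent.DAM.C16
import Pool.Agent.DAM.C18
import Pool.Agent.DAM.C26
import Pool.Agent.DAM.C27
import Pool.Agent.DAM.C28
import Pool.Agent.DAM.C29
import Pool.Agent.DAM.C31
import Pool.Agent.DAM.C32
import Pool.Agent.DAM.C33
import Pool.Agent.DAM.C38

/-! Parts: DPN.MINX, DPN.KEYN, DPT.DGST, DPT.OUT1, DPF.TOPC, DPK.OUT1r, DPK.DefsD, DPK.StmtsD, DPK.QMI, DPK.QMF, DPK.QMC, DPK.QMD, DPK.BSA, DPK.BSB, DPK.GRA, DPK.OUI, DPK.BAG, DP.DHE, DPK.StmtsE, DPK.UDC, DPK.CYS, DPK.CYQ, DPK.FINR, DPK.UNC, DPK.MINR, DPH.Stmts, DPK.FINS, DPK.MINS, DPH.ZQC, DPH.STE -/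

section

/-!
# Module MINX: characters of minimal defect over a central `ℓ`-subgroup
-/

set_option autoImplicit false

namespace Pool.Agent.DPN

open Pool.Agent.DP Pool.Agent.DPC Pool.Agent.DPM Pool.Agent.Lib_helper13 Representation

namespace MINX

section Gen

/-- A surjection which is injective on a class preserves its size. -/
theorem csize_map {X Y : Type} [Group X] [Group Y] (p : X →* Y)
    (hp : Function.Surjective p) (x : X)
    (hinj : ∀ a b, IsConj a x → IsConj b x → p a = p b → a = b) :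
    BLKA.csize x = BLKA.csize (p x) := by
  have himg : (ConjClasses.mk (p x)).carrier = p '' (ConjClasses.mk x).carrier := by
    ext w
    simp only [ConjClasses.mem_carrier_iff_mk_eq, ConjClasses.mk_eq_mk_iff_isConj, Set.mem_image]
    constructor
    · intro h
      obtain ⟨c, hc⟩ := isConj_iff.mp h.symm
      obtain ⟨c0, rfl⟩ := hp c
      refine ⟨c0 * x * c0⁻¹, (isConj_iff.mpr ⟨c0, rfl⟩).symm, ?_⟩
      rw [← hc, map_mul, map_mul, map_inv]
    · rintro ⟨g, hg, rfl⟩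
      exact p.map_isConj hg
  rw [BLKA.csize, BLKA.csize, himg, Set.InjOn.ncard_image]
  intro a ha b hb hab
  rw [ConjClasses.mem_carrier_iff_mk_eq, ConjClasses.mk_eq_mk_iff_isConj] at ha hb
  exact hinj a b ha hb hab

/-- The sum of a class function over the classes. -/
theorem sum_classes {Y : Type} [Group Y] [Fintype Y] [Fintype (ConjClasses Y)] (f : Y → ℂ)
    (hf : ∀ g x, f (g * x * g⁻¹) = f x) (r : ConjClasses Y → Y)
    (hr : ∀ C, ConjClasses.mk (r C) = C) :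
    ∑ y, f y = ∑ C : ConjClasses Y, (BLKA.csize (r C) : ℂ) * f (r C) := by
  classical
  rw [← Finset.sum_fiberwise Finset.univ (fun y => ConjClasses.mk y) f]
  refine Finset.sum_congr rfl fun C _ => ?_
  have h1 : ∀ y ∈ Finset.univ.filter (fun y => ConjClasses.mk y = C), f y = f (r C) := by
    intro y hy
    have h2 : IsConj (r C) y := ConjClasses.mk_eq_mk_iff_isConj.mp
      ((hr C).trans (Finset.mem_filter.mp hy).2.symm)
    obtain ⟨c, hc⟩ := isConj_iff.mp h2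
    rw [← hc, hf]
  rw [Finset.sum_congr rfl h1, Finset.sum_const, nsmul_eq_mul]
  congr 2
  rw [BLKA.csize, hr, ← Set.ncard_coe_finset]
  congr 1
  ext y
  simp [ConjClasses.mem_carrier_iff_mk_eq]

end Gen

section Av

variable {L : Type} [Group L] [Fintype L]

/-- The central character over the quotient by a central subgroup. -/
noncomputable def av (Z : Subgroup L) [Z.Normal] (χ : L → ℂ) (x : L) : ℂ :=
  (BLKA.csize (x : L ⧸ Z) : ℂ) * χ x / χ 1

theorem int_av (Z : Subgroup L) [Z.Normal] (hZ : Z ≤ Subgroup.center L)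
    {lam : Z →* ℂˣ} {χ : L → ℂ} (hχ : IsIrr χ)
    (h : ∀ (z : Z) (x : L), χ (z * x) = ((lam z : ℂˣ) : ℂ) * χ x) (x : L) :
    IsIntegral ℤ (av Z χ x) := by
  classical
  rw [av]
  by_cases hc : ∀ z : Z, IsConj ((z : L) * x) x → lam z = 1
  · let Z0 : Subgroup L := lam.ker.map Z.subtype
    have hZ0 : ∀ w : L, w ∈ Z0 ↔ ∃ hw : w ∈ Z, lam ⟨w, hw⟩ = 1 := by
      intro w
      constructor
      · rintro ⟨z, hz, rfl⟩
        exact ⟨z.2, hz⟩
      · rintro ⟨hw, hw'⟩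
        exact ⟨⟨w, hw⟩, hw', rfl⟩
    have hZ0Z : Z0 ≤ Z := fun w hw => ((hZ0 w).mp hw).1
    have hZ0c : Z0 ≤ Subgroup.center L := hZ0Z.trans hZ
    have hZ0n : Z0.Normal := ⟨fun w hw g => by
      have h1 := Subgroup.mem_center_iff.mp (hZ0c hw) g
      rw [h1, mul_inv_cancel_right]
      exact hw⟩
    have : Fintype (L ⧸ Z0) := Fintype.ofFinite _
    obtain ⟨χb, hb, hbx⟩ := DZC.deflate Z0 hZ0c hχ (by
      intro z hz y
      obtain ⟨hz1, hz2⟩ := (hZ0 z).mp hz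
      have := h ⟨z, hz1⟩ y
      rw [hz2, Units.val_one, one_mul] at this
      exact this)
    have hint := isIntegral_om hb (elt_mem_center (BLKA.cls (x : L ⧸ Z0)) (BLKA.cls_conj _))
    rw [BLKA.om_cls hb, hbx] at hint
    have h1 : χb 1 = χ 1 := hbx 1
    rw [h1] at hint
    let p : L ⧸ Z0 →* L ⧸ Z := QuotientGroup.lift Z0 (QuotientGroup.mk' Z)
      (fun w hw => (QuotientGroup.eq_one_iff w).mpr (hZ0Z hw))
    have hp : Function.Surjective p := by
      intro q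
      obtain ⟨y, rfl⟩ := QuotientGroup.mk_surjective q
      exact ⟨(y : L ⧸ Z0), rfl⟩
    have h2 : BLKA.csize (x : L ⧸ Z0) = BLKA.csize (x : L ⧸ Z) := by
      refine csize_map p hp (x : L ⧸ Z0) ?_
      intro a b ha hb' hab
      obtain ⟨c, hc1⟩ := isConj_iff.mp ha.symm
      obtain ⟨d, hd1⟩ := isConj_iff.mp hb'.symm
      obtain ⟨c0, rfl⟩ := QuotientGroup.mk_surjective c
      obtain ⟨d0, rfl⟩ := QuotientGroup.mk_surjective d
      have ha2 : a = ((c0 * x * c0⁻¹ : L) : L ⧸ Z0) := hc1.symm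
      have hb2 : b = ((d0 * x * d0⁻¹ : L) : L ⧸ Z0) := hd1.symm
      have hab2 : ((c0 * x * c0⁻¹ : L) : L ⧸ Z) = ((d0 * x * d0⁻¹ : L) : L ⧸ Z) := by
        have h3 : p a = ((c0 * x * c0⁻¹ : L) : L ⧸ Z) := by rw [ha2]; rfl
        have h4 : p b = ((d0 * x * d0⁻¹ : L) : L ⧸ Z) := by rw [hb2]; rfl
        rw [← h3, ← h4]
        exact hab
      have hz : (c0 * x * c0⁻¹) * (d0 * x * d0⁻¹)⁻¹ ∈ Z := by
        rw [← QuotientGroup.eq_one_iff, QuotientGroup.mk_mul, QuotientGroup.mk_inv, hab2,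
          mul_inv_cancel]
      have hcen := fun g : L => Subgroup.mem_center_iff.mp (hZ hz) g
      have hconj : IsConj (((c0 * x * c0⁻¹) * (d0 * x * d0⁻¹)⁻¹) * x) x := by
        refine (isConj_iff.mpr ⟨d0⁻¹ * c0, ?_⟩ : IsConj x _).symm
        have h5 := hcen d0
        have h6 : ((c0 * x * c0⁻¹) * (d0 * x * d0⁻¹)⁻¹) * x =
            d0⁻¹ * (d0 * ((c0 * x * c0⁻¹) * (d0 * x * d0⁻¹)⁻¹)) * x := by group
        rw [h6, h5]
        group
      have h7 := hc ⟨_, hz⟩ hconj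
      have h8 : (c0 * x * c0⁻¹) * (d0 * x * d0⁻¹)⁻¹ ∈ Z0 := (hZ0 _).mpr ⟨hz, h7⟩
      rw [ha2, hb2, ← mul_inv_eq_one, ← QuotientGroup.mk_inv, ← QuotientGroup.mk_mul]
      exact (QuotientGroup.eq_one_iff _).mpr h8
    rw [← h2]
    exact hint
  · push Not at hc
    obtain ⟨z, hz, hz'⟩ := hc
    have h1 : χ (z * x) = χ x := hχ.isConj hz
    rw [h] at h1
    have h2 : χ x = 0 := by
      have h3 : (((lam z : ℂˣ) : ℂ) - 1) * χ x = 0 := by rw [sub_mul, h1, one_mul, sub_self]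
      rcases mul_eq_zero.mp h3 with h4 | h4
      · exact absurd (Units.ext (sub_eq_zero.mp h4)) hz'
      · exact h4
    rw [h2, mul_zero, zero_div]
    exact isIntegral_zero

/-- Representatives of the classes of the quotient, of order prime to `ℓ` when possible. -/
theorem exists_reps {ℓ : ℕ} [Fact ℓ.Prime] (Z : Subgroup L) [Z.Normal] (hZp : IsPGroup ℓ Z) :
    ∃ r : ConjClasses (L ⧸ Z) → L, ∀ C, ConjClasses.mk ((r C : L) : L ⧸ Z) = C ∧
      (¬ ℓ ∣ orderOf ((r C : L) : L ⧸ Z) → r C ^ orderOf ((r C : L) : L ⧸ Z) = 1) := by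
  have h : ∀ C : ConjClasses (L ⧸ Z), ∃ y : L, ConjClasses.mk (y : L ⧸ Z) = C ∧
      (¬ ℓ ∣ orderOf (y : L ⧸ Z) → y ^ orderOf (y : L ⧸ Z) = 1) := by
    intro C
    obtain ⟨q, rfl⟩ := ConjClasses.mk_surjective C
    by_cases hq : ℓ ∣ orderOf q
    · obtain ⟨y, rfl⟩ := QuotientGroup.mk_surjective q
      exact ⟨y, rfl, fun h => absurd hq h⟩
    · obtain ⟨y, hy, hy'⟩ := DZC.exists_lift Z hZp q hq
      exact ⟨y, by rw [hy], fun _ => by rw [hy]; exact hy'⟩
  choose r hr using h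
  exact ⟨r, hr⟩

theorem sum_av (Z : Subgroup L) [Z.Normal] (hZ : Z ≤ Subgroup.center L)
    [Fintype (L ⧸ Z)] [Fintype (ConjClasses (L ⧸ Z))] {lam : Z →* ℂˣ} {χ χ' : L → ℂ}
    (hχ : IsIrr χ) (hχ' : IsIrr χ')
    (h : ∀ (z : Z) (x : L), χ (z * x) = ((lam z : ℂˣ) : ℂ) * χ x)
    (h' : ∀ (z : Z) (x : L), χ' (z * x) = ((lam z : ℂˣ) : ℂ) * χ' x)
    (r : ConjClasses (L ⧸ Z) → L) (hr : ∀ C, ConjClasses.mk ((r C : L) : L ⧸ Z) = C) :
    ∑ C, av Z χ (r C) * χ' (r C)⁻¹ = (∑ x, χ x * χ' x⁻¹) / (Nat.card Z * χ 1) := by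
  classical
  let P : L ⧸ Z → ℂ := fun q => χ q.out * χ' (q.out)⁻¹
  have hP : ∀ x : L, P (x : L ⧸ Z) = χ x * χ' x⁻¹ := by
    intro x
    have h1 : ((((x : L ⧸ Z).out : L)) : L ⧸ Z) = (x : L ⧸ Z) := QuotientGroup.out_eq' _
    have hz : x * ((x : L ⧸ Z).out)⁻¹ ∈ Z := by
      rw [← QuotientGroup.eq_one_iff, QuotientGroup.mk_mul, QuotientGroup.mk_inv, h1,
        mul_inv_cancel]
    set y : L := (x : L ⧸ Z).out with hy
    obtain ⟨z, hzx⟩ : ∃ z : Z, x = z * y := ⟨⟨_, hz⟩, by simp⟩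
    have h2 : x⁻¹ = ((z⁻¹ : Z) : L) * y⁻¹ := by
      rw [hzx, mul_inv_rev, Subgroup.coe_inv]
      exact Subgroup.mem_center_iff.mp ((Subgroup.center L).inv_mem (hZ z.2)) y⁻¹
    change χ y * χ' y⁻¹ = χ x * χ' x⁻¹
    rw [h2, h', hzx, h, map_inv]
    have h3 : ((lam z : ℂˣ) : ℂ) * (((lam z)⁻¹ : ℂˣ) : ℂ) = 1 := by
      rw [← Units.val_mul, mul_inv_cancel, Units.val_one]
    calc χ y * χ' y⁻¹ = (((lam z : ℂˣ) : ℂ) * (((lam z)⁻¹ : ℂˣ) : ℂ)) * (χ y * χ' y⁻¹) := by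
          rw [h3, one_mul]
      _ = _ := by ring
  have hPc : ∀ g x, P (g * x * g⁻¹) = P x := by
    intro g x
    obtain ⟨g0, rfl⟩ := QuotientGroup.mk_surjective g
    obtain ⟨x0, rfl⟩ := QuotientGroup.mk_surjective x
    have h1 : ((g0 : L ⧸ Z)) * (x0 : L ⧸ Z) * (g0 : L ⧸ Z)⁻¹ =
        ((g0 * x0 * g0⁻¹ : L) : L ⧸ Z) := rfl
    rw [h1, hP, hP, hχ.conj_eq]
    have h2 : (g0 * x0 * g0⁻¹)⁻¹ = g0 * x0⁻¹ * g0⁻¹ := by group
    rw [h2, hχ'.conj_eq]
  have h1 := DZC.sum_surj (QuotientGroup.mk' Z) (QuotientGroup.mk'_surjective Z) P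
  rw [QuotientGroup.ker_mk'] at h1
  have h2 : ∑ x : L, P (QuotientGroup.mk' Z x) = ∑ x, χ x * χ' x⁻¹ :=
    Finset.sum_congr rfl fun x _ => hP x
  rw [h2, sum_classes P hPc (fun C => ((r C : L) : L ⧸ Z)) hr] at h1
  rw [h1]
  have hZ0 : (Nat.card Z : ℂ) ≠ 0 := natCard_ne_zero
  have hχ0 : χ 1 ≠ 0 := hχ.one_ne_zero
  rw [eq_div_iff (mul_ne_zero hZ0 hχ0), mul_comm _ ((Nat.card Z : ℂ) * χ 1), mul_assoc,
    Finset.mul_sum]
  congr 1
  refine Finset.sum_congr rfl fun C _ => ?_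
  rw [hP, av]
  field_simp

theorem exists_codegZ {ℓ : ℕ} [Fact ℓ.Prime] (Z : Subgroup L) [Z.Normal]
    (hZ : Z ≤ Subgroup.center L)
    [Fintype (L ⧸ Z)] [Fintype (ConjClasses (L ⧸ Z))] {lam : Z →* ℂˣ} {χ : L → ℂ}
    (hχ : IsIrr χ) (h : ∀ (z : Z) (x : L), χ (z * x) = ((lam z : ℂˣ) : ℂ) * χ x)
    (r : ConjClasses (L ⧸ Z) → L) (hr : ∀ C, ConjClasses.mk ((r C : L) : L ⧸ Z) = C) :
    ∃ n M : ℕ, 0 < n ∧ χ 1 = n ∧ Nat.card (L ⧸ Z) = n * M ∧ 0 < M ∧
      HasDefect ℓ χ (padicValNat ℓ (Nat.card Z) + padicValNat ℓ M) ∧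
      ∑ C, av Z χ (r C) * χ (r C)⁻¹ = M := by
  obtain ⟨n, hn, hn'⟩ := hχ.exists_degree
  have hn0 : (n : ℂ) ≠ 0 := by exact_mod_cast hn.ne'
  have hZ0 : (Nat.card Z : ℂ) ≠ 0 := natCard_ne_zero
  have h1 := sum_av Z hZ hχ hχ h h r hr
  have hcard := DZC.card_quot Z
  have hcard' : (Nat.card L : ℂ) = Nat.card Z * Nat.card (L ⧸ Z) := by exact_mod_cast hcard
  rw [hχ.sum_self, hcard', hn', mul_div_mul_left _ _ hZ0] at h1
  have h2 : IsIntegral ℤ ((Nat.card (L ⧸ Z) : ℂ) / n) := by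
    rw [← h1]
    exact IsIntegral.sum _ fun C _ => (int_av Z hZ hχ h _).mul (isIntegral_char hχ _)
  have h3 : ((Nat.card (L ⧸ Z) : ℂ) / n) = algebraMap ℚ ℂ ((Nat.card (L ⧸ Z) : ℚ) / n) := by
    rw [map_div₀, map_natCast, map_natCast]
  rw [h3, isIntegral_algebraMap_iff (algebraMap ℚ ℂ).injective] at h2
  obtain ⟨z, hz⟩ := IsIntegrallyClosed.isIntegral_iff.mp h2
  have hnq : (n : ℚ) ≠ 0 := by exact_mod_cast hn.ne'
  have h4 : (Nat.card (L ⧸ Z) : ℚ) = z * n := by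
    have h5 : (z : ℚ) = (Nat.card (L ⧸ Z) : ℚ) / n := hz
    rw [h5]
    field_simp
  have h5 : (Nat.card (L ⧸ Z) : ℤ) = z * n := by exact_mod_cast h4
  have h6 : (n : ℤ) ∣ Nat.card (L ⧸ Z) := ⟨z, by rw [h5, mul_comm]⟩
  obtain ⟨M, hM⟩ : n ∣ Nat.card (L ⧸ Z) := by exact_mod_cast h6
  have hQ0 : Nat.card (L ⧸ Z) ≠ 0 := Nat.card_pos.ne'
  have hM0 : M ≠ 0 := by
    rintro rfl
    exact hQ0 (by rw [hM, mul_zero])
  refine ⟨n, M, hn, hn', hM, Nat.pos_of_ne_zero hM0, ⟨n, hn', ?_⟩, ?_⟩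
  · rw [hcard, hM, padicValNat.mul Nat.card_pos.ne' (Nat.mul_ne_zero hn.ne' hM0),
      padicValNat.mul hn.ne' hM0]
    ring
  · rw [h1, hM]
    push_cast
    field_simp

omit [Fintype L] in
theorem mul_av (Z : Subgroup L) [Z.Normal] {χ : L → ℂ} {n M c : ℕ} (hn : 0 < n)
    (hn' : χ 1 = n) (hM : Nat.card (L ⧸ Z) = n * M) (x : L)
    (hc : Nat.card (L ⧸ Z) = BLKA.csize (x : L ⧸ Z) * c) :
    (c : ℂ) * av Z χ x = M * χ x := by
  have hn0 : (n : ℂ) ≠ 0 := by exact_mod_cast hn.ne'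
  have h1 : (BLKA.csize (x : L ⧸ Z) : ℂ) * c = n * M := by
    have : BLKA.csize (x : L ⧸ Z) * c = n * M := by rw [← hc, hM]
    exact_mod_cast this
  rw [av, hn']
  have h2 : (c : ℂ) * ((BLKA.csize (x : L ⧸ Z) : ℂ) * χ x / n) =
      ((BLKA.csize (x : L ⧸ Z) : ℂ) * c) * χ x / n := by ring
  rw [h2, h1]
  field_simp

end Av

end MINX

theorem MINX_thm : Stmt_MINX := by
  intro L _ _ 𝔐 ℓ hp h𝔐 hℓ Z hZ hZp ψ hψ hψd
  classical
  have hP : 𝔐.IsPrime := h𝔐.isPrime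
  have hZn : Z.Normal := ⟨fun w hw g => by
    have h1 := Subgroup.mem_center_iff.mp (hZ hw) g
    rw [h1, mul_inv_cancel_right]
    exact hw⟩
  have : Fintype (L ⧸ Z) := Fintype.ofFinite _
  have : Fintype (ConjClasses (L ⧸ Z)) := Fintype.ofFinite _
  obtain ⟨r, hr⟩ := MINX.exists_reps (ℓ := ℓ) Z hZp
  have hr1 := fun C => (hr C).1
  -- the value at a representative of a class with centralizer of order prime to `ℓ`
  have hreg : ∀ C : ConjClasses (L ⧸ Z), ¬ ℓ ∣ Nat.card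
      (Subgroup.centralizer ({((r C : L) : L ⧸ Z)} : Set (L ⧸ Z))) →
      ∀ χ : L → ℂ, IsIrr χ → red 𝔐 (MINX.av Z χ (r C)) = cen 𝔐 (MonoidHom.id L) χ (r C) := by
    intro C hC χ hχ
    have hord : ¬ ℓ ∣ orderOf ((r C : L) : L ⧸ Z) := by
      intro h
      apply hC
      refine h.trans ?_
      have hmem : ((r C : L) : L ⧸ Z) ∈
          Subgroup.centralizer ({((r C : L) : L ⧸ Z)} : Set (L ⧸ Z)) :=
        Subgroup.mem_centralizer_singleton_iff.mpr rfl
      have h2 := orderOf_dvd_natCard (⟨((r C : L) : L ⧸ Z), hmem⟩ :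
        Subgroup.centralizer ({((r C : L) : L ⧸ Z)} : Set (L ⧸ Z)))
      rwa [Subgroup.orderOf_mk] at h2
    rw [DZC.cen_id, BLKA.om_cls hχ, DZC.csize_lift Z hZ hZp hord ((hr C).2 hord), MINX.av]
  have hcc : ∀ x : L ⧸ Z, Nat.card (L ⧸ Z) = BLKA.csize x *
      Nat.card (Subgroup.centralizer ({x} : Set (L ⧸ Z))) := fun x => DGN.card_centralizer x
  -- a minimal character has a value in the maximal ideal at the other classes
  have hsing : ∀ (χ : L → ℂ) (lam : Z →* ℂˣ), IsIrr χ →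
      (∀ (z : Z) (x : L), χ (z * x) = ((lam z : ℂˣ) : ℂ) * χ x) →
      ∀ n M : ℕ, 0 < n → χ 1 = n → Nat.card (L ⧸ Z) = n * M → ¬ ℓ ∣ M →
      ∀ x : L, ℓ ∣ Nat.card (Subgroup.centralizer ({(x : L ⧸ Z)} : Set (L ⧸ Z))) →
      red 𝔐 (χ x⁻¹) = 0 := by
    intro χ lam hχ hlam n M hn hn' hM hMℓ x hx
    have h1 := MINX.mul_av Z hn hn' hM x⁻¹ (c := Nat.card
      (Subgroup.centralizer ({(x : L ⧸ Z)} : Set (L ⧸ Z)))) (by
        rw [QuotientGroup.mk_inv, BLKA.csize_inv]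
        exact hcc _)
    have h2 := BLKA.red_mul_of_dvd 𝔐 hℓ hx (MINX.int_av Z hZ hχ hlam x⁻¹)
    rw [h1, red_mul 𝔐 (Lib_helper13.isIntegral_natCast M) (isIntegral_char hχ _)] at h2
    rcases mul_eq_zero.mp h2 with h3 | h3
    · exact absurd h3 (red_card_ne_zero 𝔐 hℓ hMℓ)
    · exact h3
  have hval : ∀ M : ℕ, 0 < M → padicValNat ℓ M = 0 → ¬ ℓ ∣ M := by
    intro M hM h0 hd
    rw [padicValNat.eq_zero_iff] at h0
    rcases h0 with h2 | h2 | h2
    · exact hp.out.one_lt.ne' h2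
    · exact hM.ne' h2
    · exact h2 hd
  -- the class of the minimal character
  obtain ⟨C0, hC0, hC0'⟩ : ∃ C : ConjClasses (L ⧸ Z), ¬ ℓ ∣ Nat.card
      (Subgroup.centralizer ({((r C : L) : L ⧸ Z)} : Set (L ⧸ Z))) ∧
      cen 𝔐 (MonoidHom.id L) ψ (r C) ≠ 0 := by
    obtain ⟨lam, hlam⟩ := BTC.exists_cc hZ hψ
    obtain ⟨n, M, hn, hn', hM, hM0, hdef, hsum⟩ := MINX.exists_codegZ (ℓ := ℓ) Z hZ hψ hlam r hr1
    have h1 := HasDefect.unique hdef hψd
    have hMℓ : ¬ ℓ ∣ M := hval M hM0 (by omega)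
    have h2 := red_card_ne_zero 𝔐 hℓ hMℓ
    rw [← hsum, red_sum] at h2
    · obtain ⟨C, _, hC⟩ := Finset.exists_ne_zero_of_sum_ne_zero h2
      rw [red_mul 𝔐 (MINX.int_av Z hZ hψ hlam _) (isIntegral_char hψ _)] at hC
      have h3 : ¬ ℓ ∣ Nat.card
          (Subgroup.centralizer ({((r C : L) : L ⧸ Z)} : Set (L ⧸ Z))) := by
        intro hd
        exact right_ne_zero_of_mul hC (hsing ψ lam hψ hlam n M hn hn' hM hMℓ _ hd)
      refine ⟨C, h3, ?_⟩
      rw [← hreg C h3 ψ hψ]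
      exact left_ne_zero_of_mul hC
    · intro C _
      exact (MINX.int_av Z hZ hψ hlam _).mul (isIntegral_char hψ _)
  -- all the characters of the block are minimal
  have hmin : ∀ (χ : L → ℂ) (lam : Z →* ℂˣ), IsIrr χ →
      (∀ (z : Z) (x : L), χ (z * x) = ((lam z : ℂˣ) : ℂ) * χ x) →
      cen 𝔐 (MonoidHom.id L) χ = cen 𝔐 (MonoidHom.id L) ψ →
      ∃ n M : ℕ, 0 < n ∧ χ 1 = n ∧ Nat.card (L ⧸ Z) = n * M ∧ ¬ ℓ ∣ M ∧
        HasDefect ℓ χ (padicValNat ℓ (Nat.card Z)) ∧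
        ∑ C, MINX.av Z χ (r C) * χ (r C)⁻¹ = M := by
    intro χ lam hχ hlam hcen
    obtain ⟨n, M, hn, hn', hM, hM0, hdef, hsum⟩ := MINX.exists_codegZ (ℓ := ℓ) Z hZ hχ hlam r hr1
    have hMℓ : ¬ ℓ ∣ M := by
      intro hd
      have h1 := MINX.mul_av Z hn hn' hM (r C0) (hcc _)
      have h2 := BLKA.red_mul_of_dvd 𝔐 hℓ hd (isIntegral_char hχ (r C0))
      rw [← h1, red_mul 𝔐 (Lib_helper13.isIntegral_natCast _) (MINX.int_av Z hZ hχ hlam _)] at h2
      rcases mul_eq_zero.mp h2 with h3 | h3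
      · exact red_card_ne_zero 𝔐 hℓ hC0 h3
      · rw [hreg C0 hC0 χ hχ, hcen] at h3
        exact hC0' h3
    have h0 : padicValNat ℓ M = 0 := padicValNat.eq_zero_of_not_dvd hMℓ
    rw [h0, add_zero] at hdef
    exact ⟨n, M, hn, hn', hM, hMℓ, hdef, hsum⟩
  refine ⟨?_, ?_⟩
  · intro χ hχ hcen
    obtain ⟨lam, hlam⟩ := BTC.exists_cc hZ hχ
    obtain ⟨n, M, _, _, _, _, hd, _⟩ := hmin χ lam hχ hlam hcen
    exact hd
  · intro lam χ χ' hχ hχ' hcen hcen' hlam hlam'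
    by_contra hne
    obtain ⟨n', M', hn, hn', hM, hMℓ, _, hsum'⟩ := hmin χ' lam hχ' hlam' hcen'
    have h1 := MINX.sum_av Z hZ hχ hχ' hlam hlam' r hr1
    rw [hχ.sum_ne hχ' hne, zero_div] at h1
    have h2 : red 𝔐 (∑ C, MINX.av Z χ (r C) * χ' (r C)⁻¹) =
        red 𝔐 (∑ C, MINX.av Z χ' (r C) * χ' (r C)⁻¹) := by
      rw [red_sum, red_sum]
      · refine Finset.sum_congr rfl fun C _ => ?_
        rw [red_mul 𝔐 (MINX.int_av Z hZ hχ hlam _) (isIntegral_char hχ' _),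
          red_mul 𝔐 (MINX.int_av Z hZ hχ' hlam' _) (isIntegral_char hχ' _)]
        by_cases hC : ℓ ∣ Nat.card
          (Subgroup.centralizer ({((r C : L) : L ⧸ Z)} : Set (L ⧸ Z)))
        · rw [hsing χ' lam hχ' hlam' n' M' hn hn' hM hMℓ _ hC, mul_zero, mul_zero]
        · rw [hreg C hC χ hχ, hreg C hC χ' hχ', hcen, hcen']
      · intro C _
        exact (MINX.int_av Z hZ hχ' hlam' _).mul (isIntegral_char hχ' _)
      · intro C _
        exact (MINX.int_av Z hZ hχ hlam _).mul (isIntegral_char hχ' _)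
    rw [h1, hsum', red_zero] at h2
    exact red_card_ne_zero 𝔐 hℓ hMℓ h2.symm

end Pool.Agent.DPN


end

section

/-!
# Products of the scalars of invariant functions
-/

namespace Pool.Agent.DPN

open Pool.Agent.DP Pool.Agent.DPC Pool.Agent.DPM Pool.Agent.Lib_helper13 Representation
open Pool.Agent.Lib_helper13.Dade (pCore DadeHolds dadeSum)

namespace KEYN

section Basic

variable {T : Type} [Group T] [Fintype T]

theorem elt_pl (l : List (T → ℤ)) : elt (pl l) = (l.map elt).prod := by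
  apply MonoidAlgebra.ext
  ext x
  rw [elt_coeff, pl]

theorem pl_cons (u : T → ℤ) (l : List (T → ℤ)) : pl (u :: l) = conv u (pl l) := by
  apply elt_injective
  rw [elt_pl, elt_conv, elt_pl, List.map_cons, List.prod_cons]

theorem pl_nil [DecidableEq T] (x : T) : pl ([] : List (T → ℤ)) x = if x = 1 then 1 else 0 := by
  rw [pl, List.map_nil, List.prod_nil, MonoidAlgebra.one_def, MonoidAlgebra.coeff_single,
    Finsupp.single_apply]
  by_cases h : x = 1
  · rw [if_pos h, if_pos h.symm]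
  · rw [if_neg h, if_neg fun h' => h h'.symm]

theorem aiv_conv {A : Type} [Group A] (j : A →* T) {u v : T → ℤ} (hu : AIv j u)
    (hv : AIv j v) : AIv j (conv u v) := by
  intro a x
  unfold conv
  refine Fintype.sum_equiv (MulAut.conj (j a)⁻¹).toEquiv _ _ fun y => ?_
  have h1 := hu a⁻¹ y
  have h2 := hv a⁻¹ (y⁻¹ * (j a * x * (j a)⁻¹))
  rw [map_inv, inv_inv] at h1 h2
  simp only [MulEquiv.toEquiv_eq_coe, MulEquiv.coe_toEquiv, MulAut.conj_apply, inv_inv]
  rw [← h1, ← h2]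
  congr 2
  group

theorem aiv_nil {A : Type} [Group A] (j : A →* T) : AIv j (pl ([] : List (T → ℤ))) := by
  classical
  intro a x
  rw [pl_nil, pl_nil]
  have : j a * x * (j a)⁻¹ = 1 ↔ x = 1 := by
    constructor
    · intro h
      have h2 : x = (j a)⁻¹ * (j a * x * (j a)⁻¹) * j a := by group
      rw [h2, h]
      group
    · rintro rfl
      group
  simp only [this]

theorem aiv_pl {A : Type} [Group A] (j : A →* T) (l : List (T → ℤ)) (h : ∀ u ∈ l, AIv j u) :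
    AIv j (pl l) := by
  induction l with
  | nil => exact aiv_nil j
  | cons u l ih =>
    rw [pl_cons]
    exact aiv_conv j (h u List.mem_cons_self) (ih fun v hv => h v (List.mem_cons_of_mem _ hv))

theorem supp_conv {H : Type} [Group H] (p : T →* H) {g g' : H} {u v : T → ℤ}
    (hu : ∀ t, p t ≠ g → u t = 0) (hv : ∀ t, p t ≠ g' → v t = 0) :
    ∀ t, p t ≠ g * g' → conv u v t = 0 := by
  intro t ht
  unfold conv
  refine Finset.sum_eq_zero fun y _ => ?_
  by_cases h : p y = g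
  · rw [hv (y⁻¹ * t), mul_zero]
    intro h'
    apply ht
    rw [map_mul, map_inv, h] at h'
    rw [← h']
    group
  · rw [hu y h, zero_mul]

end Basic

theorem ind {A T H W : Type} [Group A] [Fintype A] [Group T] [Fintype T] [Group H] [Fintype H]
    [Group W] [Fintype W] {𝔐 : Ideal (integralClosure ℤ ℂ)} {ℓ a : ℕ} {j : A →* T} {p : T →* H}
    (hj : Function.Injective j)
    {θ : A → ℂ} (hθ : IsIrr θ) {π : W →* H} {μ : π.ker →* ℂˣ}
    {Lm : (T → ℤ) → W → (integralClosure ℤ ℂ) ⧸ 𝔐} (hR : RDS 𝔐 ℓ a j p θ π μ Lm)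
    (l : List ((T → ℤ) × W)) (hl : ∀ x ∈ l, AIv j x.1 ∧ ∀ y, p y ≠ π x.2 → x.1 y = 0) :
    (∀ t, p t ≠ π (l.map Prod.snd).prod → pl (l.map Prod.fst) t = 0) ∧
      Lm (pl (l.map Prod.fst)) (l.map Prod.snd).prod = (l.map (fun x => Lm x.1 x.2)).prod := by
  classical
  induction l with
  | nil =>
    constructor
    · intro t ht
      rw [List.map_nil, pl_nil, if_neg]
      rintro rfl
      simp at ht
    · simp only [List.map_nil, List.prod_nil]
      rw [hR.one _ (aiv_nil j)]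
      have h1 : (fun b : A => ((pl ([] : List (T → ℤ)) (j b) : ℤ) : ℂ)) =
          fun b => if b = 1 then (1 : ℂ) else 0 := by
        ext b
        rw [pl_nil]
        by_cases hb : b = 1
        · rw [hb, map_one, if_pos rfl, if_pos rfl]
          norm_num
        · rw [if_neg hb, if_neg]
          · norm_num
          · intro h
            exact hb (hj (by rw [h, map_one]))
      rw [h1]
      have h2 : wt θ (fun b => if b = 1 then (1 : ℂ) else 0) = 1 := by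
        rw [wt]
        simp only [ite_mul, one_mul, zero_mul, Finset.sum_ite_eq', Finset.mem_univ, if_true]
        exact div_self hθ.one_ne_zero
      rw [h2, red_one]
  | cons x l ih =>
    obtain ⟨hs, hm⟩ := ih fun y hy => hl y (List.mem_cons_of_mem _ hy)
    obtain ⟨hx1, hx2⟩ := hl x List.mem_cons_self
    have ha : AIv j (pl (l.map Prod.fst)) := by
      refine aiv_pl j _ fun u hu => ?_
      obtain ⟨y, hy, rfl⟩ := List.mem_map.mp hu
      exact (hl y (List.mem_cons_of_mem _ hy)).1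
    simp only [List.map_cons, List.prod_cons, pl_cons]
    constructor
    · rw [map_mul]
      exact supp_conv p hx2 hs
    · rw [hR.mul _ _ hx1 ha _ _ hx2 hs, hm]

end KEYN

theorem KEYN_thm (h1 : Stmt_CHM) : Stmt_KEYN := by
  intro O X H W _ _ _ _ _ _ _ _ 𝔐 ℓ _ hmax hmem j c p h a Z Λ τ θ hP π μ Lm hR l hl hprod
  have hjS : Function.Injective (jS h τ) := by
    intro x y hxy
    apply Subtype.ext
    apply h.inj
    exact congrArg (fun z : YS j τ => (z : X)) hxy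
  have hA : ∀ u : X → ℤ, AIv j u → AIv (jS h τ) (fun t : YS j τ => u t) := by
    intro u hu b t
    exact hu (b : O) (t : X)
  have hres := KEYN.ind hjS hP.irr hR
    (l.map fun x => ((fun t : YS j τ => x.1 (t : X)), x.2)) (by
      intro x hx
      obtain ⟨y, hy, rfl⟩ := List.mem_map.mp hx
      refine ⟨hA _ (hl y hy).1, ?_⟩
      intro t ht
      exact (hl y hy).2 (t : X) ht)
  have e1 : ((l.map fun x => ((fun t : YS j τ => x.1 (t : X)), x.2)).map Prod.snd) =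
      l.map Prod.snd := by
    rw [List.map_map]
    rfl
  have e2 : ((l.map fun x => ((fun t : YS j τ => x.1 (t : X)), x.2)).map Prod.fst) =
      (l.map Prod.fst).map (fun (u : X → ℤ) (t : YS j τ) => u t) := by
    rw [List.map_map, List.map_map]
    rfl
  have e3 : ((l.map fun x => ((fun t : YS j τ => x.1 (t : X)), x.2)).map
      (fun x => Lm x.1 x.2)) = l.map (fun x => Lm (fun t => x.1 t) x.2) := by
    rw [List.map_map]
    rfl
  rw [e1, e2, e3, hprod] at hres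
  have hl' : ∀ u ∈ l.map Prod.fst, AIv j u := by
    intro u hu
    obtain ⟨y, hy, rfl⟩ := List.mem_map.mp hu
    exact (hl y hy).1
  have hpa : AIv (jS h τ) (pl ((l.map Prod.fst).map (fun (u : X → ℤ) (t : YS j τ) => u t))) := by
    refine KEYN.aiv_pl _ _ fun u hu => ?_
    obtain ⟨v, hv, rfl⟩ := List.mem_map.mp hu
    exact hA v (hl' v hv)
  rw [← hres.2, hR.one _ hpa, h1 O X H 𝔐 ℓ hmax hmem j c p h Z τ hP.ch θ hP.irr _ hl',
    ← hP.cn]
  exact red_wt_eq_pair 𝔐 (stb τ).subtype hP.irr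
    (fun o : O => ((pl (l.map Prod.fst) (j o) : ℤ) : ℂ))
    (fun g x => by
      have := KEYN.aiv_pl j _ hl' g (j x)
      rw [map_mul, map_mul, map_inv]
      rw [this])
    (fun x => isIntegral_algebraMap (R := ℤ) (x := pl (l.map Prod.fst) (j x)))

end Pool.Agent.DPN


end

section

/-!
# DGST: transitivity of the correspondence
-/

namespace Pool.Agent.DPT

open Pool.Agent.DP Pool.Agent.DPC Pool.Agent.DPM Pool.Agent.DPN Pool.Agent.Lib_helper13
open Representation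

namespace DGST

variable {G : Type} [Group G]

theorem mem_cN {N Q : Subgroup G} {x : G} : x ∈ cN N Q ↔ x ∈ N ∧ ∀ q ∈ Q, q * x = x * q := by
  unfold Pool.Agent.DP.cN
  rw [Subgroup.mem_inf, Subgroup.mem_centralizer_iff]
  rfl

theorem cN_cN {N R R₁ : Subgroup G} (h : R₁ ≤ R) : cN (cN N R₁) R = cN N R := by
  ext x
  rw [mem_cN, mem_cN, mem_cN]
  exact ⟨fun hx => ⟨hx.1.1, hx.2⟩, fun hx => ⟨⟨hx.1, fun q hq => hx.2 q (h hq)⟩, hx.2⟩⟩

theorem conj_mem {N R R₁ : Subgroup G} (hN : ∀ r ∈ R, ∀ n ∈ N, r * n * r⁻¹ ∈ N)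
    (hR : ∀ r ∈ R, ∀ x ∈ R₁, r * x * r⁻¹ ∈ R₁) {r n : G} (hr : r ∈ R) (hn : n ∈ cN N R₁) :
    r * n * r⁻¹ ∈ cN N R₁ := by
  rw [mem_cN] at hn ⊢
  refine ⟨hN r hr n hn.1, fun q hq => ?_⟩
  have h1 := hR r⁻¹ (R.inv_mem hr) q hq
  rw [inv_inv] at h1
  have h2 := hn.2 _ h1
  have h3 : q * (r * n * r⁻¹) = r * (r⁻¹ * q * r * n) * r⁻¹ := by group
  rw [h3, h2]
  group

/-- Composition. -/
theorem comp (𝔐 : Ideal (integralClosure ℤ ℂ)) [Fintype G] {N R R₁ : Subgroup G} (h : R₁ ≤ R)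
    {θ' θ₁ θ₂ : G → ℂ} (h1 : DGs 𝔐 (cN N R₁) R θ' θ₁) (h2 : DGs 𝔐 N R₁ θ₁ θ₂) :
    DGs 𝔐 N R θ' θ₂ := by
  intro F hF1 hF2 hF3
  have hle : ∀ x, x ∈ cN N R₁ → x ∈ N := fun x hx => (mem_cN.1 hx).1
  have e1 := h1 F (fun n hn x hx => hF1 n (hle n hn) x (hle x hx))
    (fun r hr x hx => hF2 r hr x (hle x hx)) hF3
  have e2 := h2 F hF1 (fun r hr x hx => hF2 r (h hr) x hx) hF3
  rw [cN_cN h] at e1
  rw [e1, e2]

end DGST

open _root_.Pool.Agent.DPT.DGST in
theorem DGST_thm (h1 : Stmt_DGSB) : Stmt_DGST := by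
  intro G _ _ 𝔐 ℓ _ h𝔐 hℓ N R R₁ hR hle hN hR₁
  refine ⟨cN_cN hle, fun r hr n hn => conj_mem hN hR₁ hr hn, fun θ' θ hθ' hθ hc => ?_⟩
  have a1 := (h1 G 𝔐 ℓ h𝔐 hℓ (cN N R₁) R hR (fun r hr n hn => conj_mem hN hR₁ hr hn)).1 θ'
  rw [cN_cN hle] at a1
  obtain ⟨θ₁, b1, b2⟩ := a1 hθ'
  have hR1 : IsPGroup ℓ R₁ := hR.to_le hle
  obtain ⟨θ₂, c1, c2⟩ := (h1 G 𝔐 ℓ h𝔐 hℓ N R₁ hR1 (fun r hr n hn => hN r (hle hr) n hn)).1 θ₁ b1
  have c3 := comp 𝔐 hle b2 c2
  have c4 := (h1 G 𝔐 ℓ h𝔐 hℓ N R hR hN).2.2.1 θ' θ₂ θ hθ' c1 hθ c3 hc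
  rw [c4] at c2
  exact ⟨θ₁, b1, c2, b2⟩

end Pool.Agent.DPT


end

section

/-!
# A normal subgroup with quotient in the class (OUT1)
-/

namespace Pool.Agent.DPT

open Pool.Agent.DP Pool.Agent.DPC Pool.Agent.DPM Pool.Agent.DPN Pool.Agent.Lib_helper13
open Representation
open Pool.Agent.Lib_helper13.Dade (pCore DadeHolds dadeSum)

namespace OUT1

theorem le_core {G : Type} [Group G] (ℓ : ℕ) (N : Subgroup G) (h1 : N.Normal)
    (h2 : IsPGroup ℓ N) : N ≤ pCore ℓ G := le_sSup ⟨h1, h2⟩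

/-- The inverse image of the largest normal `ℓ`-subgroup of the quotient. -/
def PP (ℓ : ℕ) {X : Type} [Group X] (N : Subgroup X) [N.Normal] : Subgroup X :=
  (pCore ℓ (X ⧸ N)).comap (QuotientGroup.mk' N)

theorem PP_normal (ℓ : ℕ) {X : Type} [Group X] (N : Subgroup X) [N.Normal] :
    (PP ℓ N).Normal :=
  (pCore_normal ℓ).comap _

theorem le_PP (ℓ : ℕ) {X : Type} [Group X] (N : Subgroup X) [N.Normal] : N ≤ PP ℓ N := by
  intro x hx
  have h : QuotientGroup.mk' N x = 1 := (QuotientGroup.eq_one_iff x).2 hx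
  show QuotientGroup.mk' N x ∈ pCore ℓ (X ⧸ N)
  rw [h]
  exact one_mem _

theorem pow_mem (ℓ : ℕ) [Fact ℓ.Prime] {X : Type} [Group X] [Finite X] (N : Subgroup X)
    [N.Normal] (x : X) (hx : x ∈ PP ℓ N) : ∃ k : ℕ, x ^ ℓ ^ k ∈ N := by
  obtain ⟨k, hk⟩ := isPGroup_pCore (G := X ⧸ N) ℓ ⟨QuotientGroup.mk' N x, hx⟩
  refine ⟨k, ?_⟩
  have h : (QuotientGroup.mk' N x) ^ ℓ ^ k = 1 := congrArg Subtype.val hk
  rw [← map_pow] at h
  exact (QuotientGroup.eq_one_iff _).1 h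

theorem core_quot (ℓ : ℕ) [Fact ℓ.Prime] {X : Type} [Group X] [Finite X] (N P : Subgroup X)
    [N.Normal] [P.Normal] (hP : P = PP ℓ N) : pCore ℓ (X ⧸ P) = ⊥ := by
  rw [eq_bot_iff]
  refine sSup_le ?_
  rintro M ⟨hM1, hM2⟩
  intro y hy
  obtain ⟨x, rfl⟩ := QuotientGroup.mk'_surjective P y
  -- the image in `X ⧸ N`
  have hn : ((M.comap (QuotientGroup.mk' P)).map (QuotientGroup.mk' N)).Normal :=
    (hM1.comap _).map _ (QuotientGroup.mk'_surjective N)
  have hp : IsPGroup ℓ ((M.comap (QuotientGroup.mk' P)).map (QuotientGroup.mk' N)) := by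
    rintro ⟨z, hz⟩
    obtain ⟨g, hg, rfl⟩ := Subgroup.mem_map.1 hz
    obtain ⟨k, hk⟩ := hM2 ⟨QuotientGroup.mk' P g, hg⟩
    have h1 : (QuotientGroup.mk' P g) ^ ℓ ^ k = 1 := congrArg Subtype.val hk
    rw [← map_pow] at h1
    have h2 : g ^ ℓ ^ k ∈ P := (QuotientGroup.eq_one_iff _).1 h1
    rw [hP] at h2
    obtain ⟨k', hk'⟩ := pow_mem ℓ N _ h2
    refine ⟨k + k', ?_⟩
    apply Subtype.ext
    show (QuotientGroup.mk' N g) ^ ℓ ^ (k + k') = 1
    rw [← map_pow, pow_add, pow_mul]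
    exact (QuotientGroup.eq_one_iff _).2 hk'
  have h3 := le_core ℓ _ hn hp
  have h4 : x ∈ P := by
    rw [hP]
    exact h3 (Subgroup.mem_map.2 ⟨x, hy, rfl⟩)
  exact Subgroup.mem_bot.2 ((QuotientGroup.eq_one_iff _).2 h4)

theorem clG (X : Type) [Group X] (P : Subgroup X) [P.Normal] :
    ClG P.subtype (MulAut.conjNormal (H := P)) (QuotientGroup.mk' P) where
  inj := P.subtype_injective
  act := fun y a => MulAut.conjNormal_apply y a
  ker := fun y => by
    rw [Subgroup.range_subtype]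
    exact QuotientGroup.eq_one_iff y

theorem DK_eq {X : Type} [Group X] [Fintype X] (𝔐 : Ideal (integralClosure ℤ ℂ)) (ℓ d : ℕ)
    (Z : Subgroup X) (ω : X → (integralClosure ℤ ℂ) ⧸ 𝔐) :
    DK 𝔐 ℓ d Z (MonoidHom.id X) {ω} = KK 𝔐 ℓ d Z ω := by
  unfold DK KK cnt
  refine Finset.sum_congr rfl fun σ _ => ?_
  have h : Nat.card {ψ : stb σ → ℂ // IsIrr ψ ∧ HasDefect ℓ ψ d ∧
      cen 𝔐 ((MonoidHom.id X).comp (stb σ).subtype) ψ ∈ ({ω} : Set _)} =
      Nat.card {θ : stb σ → ℂ // IsIrr θ ∧ (HasDefect ℓ θ d ∧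
        ∀ g, cen 𝔐 (stb σ).subtype θ g = ω g)} := by
    refine Nat.card_congr (Equiv.subtypeEquivRight fun ψ => ?_)
    rw [MonoidHom.id_comp, Set.mem_singleton_iff, funext_iff]
  rw [h]

/-- The product of two functions. -/
theorem pl_two {T : Type} [Group T] [Fintype T] (u v : T → ℤ) : pl [u, v] = conv u v := by
  have h1 : pl [v] = v := by
    apply elt_injective
    rw [KEYN.elt_pl, List.map_cons, List.map_nil, List.prod_cons, List.prod_nil, mul_one]
  rw [KEYN.pl_cons, h1]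

section Under

variable {X : Type} [Group X] [Fintype X]

/-- A character of `N` as a function on `X`. -/
theorem exists_xi (h7 : Stmt_SUMM) (𝔐 : Ideal (integralClosure ℤ ℂ)) {N O : Subgroup X}
    (hN : N.Normal) (hNO : N ≤ O) {χ : O → ℂ} (hχ : IsIrr χ) :
    ∃ ξ : X → ℂ, IrrOn N ξ ∧
      ip (fun n : N.subgroupOf O => χ n) (fun n : N.subgroupOf O => ξ (n : O)) ≠ 0 ∧
      ∀ x ∈ N, cgT 𝔐 ⊤ ξ x = red 𝔐 (wt χ (fun o : O => conjInd (o : X) x)) := by
  classical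
  obtain ⟨ξ₁, hξ₁, hip⟩ := MPR.exists_under (N.subgroupOf O).subtype hχ
  obtain ⟨ξ, hξ⟩ : ∃ ξ : X → ℂ, ξ = fun x => if h : x ∈ N then
      ξ₁ ⟨⟨x, hNO h⟩, Subgroup.mem_subgroupOf.2 h⟩ else 0 := ⟨_, rfl⟩
  have hin : ∀ n : N.subgroupOf O, ξ ((n : O) : X) = ξ₁ n := by
    intro n
    have hn : ((n : O) : X) ∈ N := Subgroup.mem_subgroupOf.1 n.2
    rw [hξ]
    simp only
    rw [dif_pos hn]
  have hout : ∀ x, x ∉ N → ξ x = 0 := by
    intro x hx
    rw [hξ]
    simp only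
    rw [dif_neg hx]
  have hNn : (N.subgroupOf O).Normal := hN.subgroupOf O
  refine ⟨ξ, ⟨?_, hout⟩, ?_, ?_⟩
  · have h1 := hξ₁.comp_mulEquiv (Subgroup.subgroupOfEquivOfLe hNO).symm
    have h2 : (fun s : N => ξ s) =
        fun s : N => ξ₁ ((Subgroup.subgroupOfEquivOfLe hNO).symm s) := by
      funext s
      rw [← hin]
      rfl
    rw [h2]
    exact h1
  · have h2 : (fun n : N.subgroupOf O => ξ (n : O)) = ξ₁ := funext hin
    rw [h2]
    exact hip
  · intro x hx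
    -- the function on `O`
    have h1 := (h7 (N.subgroupOf O) O (O ⧸ N.subgroupOf O) (N.subgroupOf O).subtype
      MulAut.conjNormal (QuotientGroup.mk' _) (clG O (N.subgroupOf O))).2.2.2 ξ₁ χ
      (fun o : O => conjInd (o : X) x) hξ₁ hχ hip
      (by
        intro g y
        rw [Subgroup.coe_mul, Subgroup.coe_mul, Subgroup.coe_inv, conjInd_conj])
      (by
        intro y hy
        rw [conjInd, if_neg]
        intro hc
        apply hy
        rw [Subgroup.range_subtype, Subgroup.mem_subgroupOf]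
        obtain ⟨g, hg⟩ := isConj_iff.1 hc.symm
        rw [← hg]
        exact hN.conj_mem _ hx g)
    rw [h1]
    unfold cgT wt
    congr 2
    · -- the sums
      refine (Fintype.sum_of_injective (fun n : N.subgroupOf O => ((n : O) : X)) ?_ _ _ ?_ ?_).symm
      · intro a b hab
        exact Subtype.ext (Subtype.ext hab)
      · intro y hy
        rw [hout y, mul_zero]
        intro hyN
        exact hy ⟨⟨⟨y, hNO hyN⟩, Subgroup.mem_subgroupOf.2 hyN⟩, rfl⟩
      · intro n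
        rw [hin n]
        refine congrArg (· * ξ₁ n) ?_
        change conjInd ((n : O) : X) x = cjT ⊤ ((n : O) : X) x
        rw [conjInd, cjT]
        by_cases hc : IsConj ((n : O) : X) x
        · obtain ⟨g, hg⟩ := isConj_iff.1 hc.symm
          rw [if_pos hc, if_pos ⟨g, Subgroup.mem_top g, hg.symm⟩]
        · rw [if_neg hc, if_neg]
          rintro ⟨g, _, hg⟩
          exact hc (isConj_iff.2 ⟨g, hg.symm⟩).symm
    · rw [← hin 1]
      rfl

end Under

theorem ne_zero_of_core {X : Type} [Group X] [Fintype X] {H : Type} [Group H] [Fintype H]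
    {ℓ : ℕ} [Fact ℓ.Prime] (hH : ¬ ℓ ∣ Nat.card H) (p : X →* H) (x : X) (hx : p x ^ ℓ = 1) :
    p x = 1 := by
  by_contra hne
  exact hH ((orderOf_eq_prime hx hne) ▸ orderOf_dvd_natCard (p x))

/-- The last step. -/
theorem core (h3 : Stmt_OUTN) (h6 : Stmt_KEYN) (X : Type) [Group X] [Fintype X]
    (𝔐 : Ideal (integralClosure ℤ ℂ)) (ℓ : ℕ) [Fact ℓ.Prime] (hM : 𝔐.IsMaximal)
    (hℓ : (ℓ : integralClosure ℤ ℂ) ∈ 𝔐) (N O : Subgroup X) (hN : N.Normal) (hO : O.Normal)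
    (hNO : N ≤ O) (hpow : ∀ x ∈ O, ∃ n : ℕ, x ^ ℓ ^ n ∈ N) (H W : Type) [Group H] [Fintype H]
    [Group W] [Fintype W] (p : X →* H) (c : X →* MulAut O) (h : ClG O.subtype c p) (d : ℕ)
    (Z : Subgroup O) (π : W →* H) (R : Subgroup W)
    (μ : ∀ τ : Finset (Subgroup O), (stb τ → ℂ) → (π.ker →* ℂˣ))
    (Lm : ∀ τ : Finset (Subgroup O), (stb τ → ℂ) → (YS O.subtype τ → ℤ) → W →
        (integralClosure ℤ ℂ) ⧸ 𝔐) (τ : Finset (Subgroup O)) (θ : stb τ → ℂ)
    (hF : Fam h 𝔐 ℓ d Z (cen 𝔐 (stb τ).subtype θ) π R μ Lm)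
    (hP : Pr h 𝔐 ℓ d Z (cen 𝔐 (stb τ).subtype θ) τ θ) (χ : O → ℂ) (hχ : IsIrr χ)
    (hχθ : cen 𝔐 (MonoidHom.id O) χ = cen 𝔐 (stb τ).subtype θ) (ξ : X → ℂ) (hξ : IrrOn N ξ)
    (hip : ip (fun n : N.subgroupOf O => χ n) (fun n : N.subgroupOf O => ξ (n : O)) ≠ 0)
    (hst : O ≤ sx (cgT 𝔐 N ξ)) (x : X) (r : W) (hr : r ∈ R) (hx : p x = π r) :
    ∃ y, x⁻¹ * y ∈ O ∧ ∀ o ∈ O, y * o * y⁻¹ * o⁻¹ ∈ N := by
  have hprime : 𝔐.IsPrime := hM.isPrime
  have hker : ∀ y, p y = 1 → y ∈ O := by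
    intro y hy
    have := (h.ker y).1 hy
    rwa [Subgroup.range_subtype] at this
  obtain ⟨u, hu1, hu2, hu3⟩ := (hF.mem τ θ hP r).1 hr
  obtain ⟨v, hv1, hv2, hv3⟩ := (hF.mem τ θ hP r⁻¹).1 (inv_mem hr)
  have hk := h6 O X H W 𝔐 ℓ hM hℓ O.subtype c p h d Z (cen 𝔐 (stb τ).subtype θ) τ θ hP π
    (μ τ θ) (Lm τ θ) (hF.rds τ θ hP) [(u, r), (v, r⁻¹)]
    (by
      intro z hz
      rcases List.mem_cons.1 hz with rfl | hz
      · exact ⟨hu1, hu2⟩
      · rw [List.mem_singleton.1 hz]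
        exact ⟨hv1, hv2⟩)
    (by
      simp)
  simp only [List.map_cons, List.map_nil, List.prod_cons, List.prod_nil, mul_one] at hk
  rw [pl_two] at hk
  have hcl : ∀ g y : O, ((conv u v (O.subtype (g * y * g⁻¹)) : ℤ) : ℂ) =
      ((conv u v (O.subtype y) : ℤ) : ℂ) := by
    intro g y
    have := KEYN.aiv_conv O.subtype hu1 hv1 g (O.subtype y)
    rw [map_mul, map_mul, map_inv, this]
  have hw := red_wt_eq_pair 𝔐 (MonoidHom.id O) hχ
    (fun o : O => ((conv u v (O.subtype o) : ℤ) : ℂ)) hcl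
    (fun y => isIntegral_algebraMap (R := ℤ) (x := conv u v (O.subtype y)))
  rw [hχθ, ← hk] at hw
  refine h3 X 𝔐 ℓ hM hℓ N O hN hO hNO hpow χ hχ ξ hξ hip hst x u v ?_ ?_ ?_ ?_ ?_
  · intro a ha y
    exact hu1 ⟨a, ha⟩ y
  · intro a ha y
    exact hv1 ⟨a, ha⟩ y
  · intro y hy
    apply hker
    by_contra hne
    apply hy
    apply hu2
    intro h'
    apply hne
    rw [map_mul, map_inv, h', hx, inv_mul_cancel]
  · intro y hy
    apply hker
    by_contra hne
    apply hy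
    apply hv2
    intro h'
    apply hne
    rw [map_mul, h', hx, map_inv, mul_inv_cancel]
  · change red 𝔐 (wt χ (fun o : O => ((conv u v (O.subtype (MonoidHom.id O o)) : ℤ) : ℂ))) ≠ 0
    rw [hw]
    have hdom : IsDomain ((integralClosure ℤ ℂ) ⧸ 𝔐) := Ideal.Quotient.isDomain 𝔐
    exact mul_ne_zero hu3 hv3

end OUT1

open _root_.Pool.Agent.DPT.OUT1 in
theorem OUT1_thm (h1 : Stmt_OUTF) (h2 : Stmt_FINN) (h3 : Stmt_OUTN) (h4 : Stmt_OUTG)
    (h5 : Stmt_STB) (h6 : Stmt_KEYN) (h7 : Stmt_SUMM) : Stmt_OUT1 := by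
  intro X _ _ 𝔐 ℓ _ hM hℓ hc hQ d ω hd hK N hN hlt
  have hprime : 𝔐.IsPrime := hM.isPrime
  have hPn := PP_normal ℓ N
  have hNP := le_PP ℓ N
  have hfin : Fintype (X ⧸ PP ℓ N) := Fintype.ofFinite _
  have hcP : pCore ℓ X ≤ PP ℓ N := hc.trans (hlt.le.trans hNP)
  have hmap : ((pCore ℓ X).subgroupOf (PP ℓ N)).map (PP ℓ N).subtype = pCore ℓ X :=
    Subgroup.map_subgroupOf_eq_of_le hcP
  have hi : (Subgroup.center X).index ≠ 0 := Subgroup.index_ne_zero_of_finite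
  have hlt' : N.index < (Subgroup.center X).index := Subgroup.index_strictAnti hlt
  have hle : (PP ℓ N).index ≤ N.index :=
    Nat.le_of_dvd (Nat.pos_of_ne_zero Subgroup.index_ne_zero_of_finite)
      (Subgroup.index_dvd_of_le hNP)
  have hd' : padicValNat ℓ (Nat.card ((pCore ℓ X).subgroupOf (PP ℓ N))) < d := by
    rw [Nat.card_congr (Subgroup.subgroupOfEquivOfLe hcP).toEquiv]
    exact hd
  have hK' : DK 𝔐 ℓ d (((pCore ℓ X).subgroupOf (PP ℓ N)).map (PP ℓ N).subtype)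
      (MonoidHom.id X) {ω} ≠ 0 := by
    rw [hmap, DK_eq]
    exact hK
  have hr : Subgroup.center X ≤ (PP ℓ N).subtype.range := by
    rw [Subgroup.range_subtype]
    exact hlt.le.trans hNP
  have hcard : Nat.card (X ⧸ PP ℓ N) ≤ (Subgroup.center X).index - 1 := by
    rw [← Subgroup.index_eq_card]
    omega
  have hZp : IsPGroup ℓ ((pCore ℓ X).subgroupOf (PP ℓ N)) :=
    (isPGroup_pCore (G := X) ℓ).comap_subtype
  have hcore := core_quot ℓ N (PP ℓ N) rfl
  have hF := h2 (PP ℓ N) X (X ⧸ PP ℓ N) 𝔐 ℓ hM hℓ (PP ℓ N).subtype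
    (MulAut.conjNormal (H := PP ℓ N)) (QuotientGroup.mk' (PP ℓ N)) (clG X (PP ℓ N))
    (QuotientGroup.mk'_surjective _) hcore ((Subgroup.center X).index - 1) hQ hr
    (by omega) hcard ((pCore ℓ X).subgroupOf (PP ℓ N)) hZp (by rw [hmap]; exact hc) d ω hd' hK'
  obtain ⟨W, _, _, π, R, μ, Lm, τ, θ, hFam, hPr, hω, hcom, -⟩ := h1 (PP ℓ N) X (X ⧸ PP ℓ N)
    𝔐 ℓ hM hℓ (PP ℓ N).subtype
    (MulAut.conjNormal (H := PP ℓ N)) (QuotientGroup.mk' (PP ℓ N)) (clG X (PP ℓ N))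
    (QuotientGroup.mk'_surjective _) hcore ((Subgroup.center X).index - 1) hQ hr
    (by omega) hcard ((pCore ℓ X).subgroupOf (PP ℓ N)) hZp (by rw [hmap]; exact hc) d ω hd' hK'
  obtain ⟨χ, hχ, hχθ⟩ := exists_irr_of_mult 𝔐 hPr.irr
    (exists_irr_of_chain 𝔐 hℓ (mem_Ch.1 hPr.ch) hPr.irr)
  obtain ⟨ξ, hξ, hip, hcg⟩ := exists_xi h7 𝔐 hN hNP hχ
  have hag : ∀ x ∈ N, cgT 𝔐 ⊤ ξ x = ω x := by
    intro x hx
    rw [hcg x hx]
    have e1 := hω ⟨x, hNP hx⟩
    have hf : ∀ g y : PP ℓ N, conjInd ((PP ℓ N).subtype (g * y * g⁻¹)) x =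
        conjInd ((PP ℓ N).subtype y) x := by
      intro g y
      rw [map_mul, map_mul, map_inv, conjInd_conj]
    have e2 := red_wt_eq_pair 𝔐 (MonoidHom.id (PP ℓ N)) hχ
      (fun o => conjInd ((PP ℓ N).subtype o) x) hf (fun o => isIntegral_conjInd _ _)
    have e3 := red_wt_eq_pair 𝔐 (stb τ).subtype hPr.irr
      (fun o => conjInd ((PP ℓ N).subtype o) x) hf (fun o => isIntegral_conjInd _ _)
    rw [hχθ] at e2
    refine Eq.trans e2 (Eq.trans e3.symm ?_)
    exact e1.symm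
  have hst := h5 X 𝔐 ℓ hM hℓ ((Subgroup.center X).index - 1) hQ (by omega) (pCore ℓ X) N hc
    (isPGroup_pCore (G := X) ℓ) hN d hd ω hK ξ hξ hag
  have hRn := hFam.Rn
  refine h4 X ℓ N (PP ℓ N) ((R.map π).comap (QuotientGroup.mk' (PP ℓ N))) hN hPn
    ((hRn.map π hFam.πs).comap _) hNP ?_ (pow_mem ℓ N) ?_ ?_ ?_
  · intro x hx
    have h : QuotientGroup.mk' (PP ℓ N) x = 1 := (QuotientGroup.eq_one_iff x).2 hx
    rw [Subgroup.mem_comap, h]
    exact one_mem _
  · intro x y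
    obtain ⟨w, hw⟩ := hFam.πs (QuotientGroup.mk' (PP ℓ N) x)
    obtain ⟨w', hw'⟩ := hFam.πs (QuotientGroup.mk' (PP ℓ N) y)
    rw [Subgroup.mem_comap, map_mul, map_mul, map_mul, map_inv, map_inv, ← hw, ← hw']
    refine Subgroup.mem_map.2 ⟨_, hcom w w', ?_⟩
    rw [map_mul, map_mul, map_mul, map_inv, map_inv]
  · intro x hx
    have h := ne_zero_of_core hF.2.1 (QuotientGroup.mk' (PP ℓ N)) x (by
      rw [← map_pow]
      exact (QuotientGroup.eq_one_iff _).2 hx)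
    exact (QuotientGroup.eq_one_iff x).1 h
  · intro x hx
    obtain ⟨r, hr1, hr2⟩ := Subgroup.mem_map.1 (Subgroup.mem_comap.1 hx)
    exact core h3 h6 X 𝔐 ℓ hM hℓ N (PP ℓ N) hN hPn hNP (pow_mem ℓ N) (X ⧸ PP ℓ N) W
      (QuotientGroup.mk' (PP ℓ N)) (MulAut.conjNormal (H := PP ℓ N)) (clG X (PP ℓ N)) d
      ((pCore ℓ X).subgroupOf (PP ℓ N)) π R μ Lm τ θ hFam hPr χ hχ hχθ ξ hξ hip
      (by rw [hst]; exact le_top) x r hr1 hr2.symm

end Pool.Agent.DPT


end

section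

/-!
# The leading coefficient

For a central extension `π : W → H` with a normal Sylow `ℓ`-subgroup `P` of `H`, the Moebius sum
of the values of the central characters of the characters of the largest possible defect is, up to
a positive factor, the number of pairs which generate `W` modulo the inverse image of `P` and
whose commutator is in a given coset.
-/

namespace Pool.Agent.DPF

open Pool.Agent.DP Pool.Agent.DPC Pool.Agent.DPM Pool.Agent.DPN Pool.Agent.Lib_helper13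
  Representation
open Pool.Agent.Lib_helper13.Dade (pCore DadeHolds dadeSum)

namespace TOPC

variable {W H : Type} [Group W] [Fintype W] [Group H] [Fintype H] {ℓ : ℕ} [hℓ : Fact ℓ.Prime]

theorem defect_le {Y : Type} [Group Y] {η : Y → ℂ} {e : ℕ} (h : HasDefect ℓ η e) :
    e ≤ padicValNat ℓ (Nat.card Y) := by
  obtain ⟨n, _, h2⟩ := h
  omega

theorem card_rel {A B : Subgroup H} (h : A ≤ B) : Nat.card A * A.relIndex B = Nat.card B := by
  have := Subgroup.relIndex_mul_relIndex ⊥ A B bot_le h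
  rwa [Subgroup.relIndex_bot_left, Subgroup.relIndex_bot_left] at this

theorem card_comap {π : W →* H} (hπ : Function.Surjective π) (V : Subgroup H) :
    Nat.card ↥(V.comap π) = Nat.card V * Nat.card π.ker := by
  have h1 : (V.comap π).index * Nat.card ↥(V.comap π) = Nat.card W :=
    Subgroup.index_mul_card _
  have h2 : V.index * Nat.card V = Nat.card H := Subgroup.index_mul_card _
  have h3 : π.ker.index * Nat.card π.ker = Nat.card W := Subgroup.index_mul_card _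
  have h4 : (V.comap π).index = V.index := Subgroup.index_comap_of_surjective V hπ
  have h5 : π.ker.index = Nat.card H := by
    rw [Subgroup.index_ker, MonoidHom.range_eq_top.mpr hπ]
    exact Nat.card_congr Subgroup.topEquiv.toEquiv
  have h6 : 0 < V.index := Nat.pos_of_ne_zero Subgroup.FiniteIndex.index_ne_zero
  rw [h4, ← h3, h5, ← h2] at h1
  have h7 : V.index * Nat.card ↥(V.comap π) = V.index * (Nat.card V * Nat.card π.ker) := by
    rw [h1]; ring
  exact Nat.eq_of_mul_eq_mul_left h6 h7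

/-- The valuation of the order of the inverse image of the Sylow subgroup. -/
theorem val_syl {π : W →* H} (hπ : Function.Surjective π) {P : Subgroup H} (hP : SylAb ℓ P) :
    padicValNat ℓ (Nat.card ↥(P.comap π)) = padicValNat ℓ (Nat.card W) := by
  have h1 : (P.comap π).index * Nat.card ↥(P.comap π) = Nat.card W := Subgroup.index_mul_card _
  have h4 : (P.comap π).index = P.index := Subgroup.index_comap_of_surjective P hπ
  rw [h4] at h1
  rw [← h1, padicValNat.mul (Nat.pos_of_ne_zero Subgroup.FiniteIndex.index_ne_zero).ne'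
    Nat.card_pos.ne', padicValNat.eq_zero_of_not_dvd hP.idx, zero_add]

/-- A subgroup whose inverse image has full valuation contains the Sylow subgroup. -/
theorem le_of_val {π : W →* H} (hπ : Function.Surjective π) {P V : Subgroup H}
    (hP : SylAb ℓ P) (h : padicValNat ℓ (Nat.card W) ≤ padicValNat ℓ (Nat.card ↥(V.comap π))) :
    P ≤ V := by
  haveI := hP.nrm
  have h1 : (V.comap π).index * Nat.card ↥(V.comap π) = Nat.card W := Subgroup.index_mul_card _
  rw [Subgroup.index_comap_of_surjective V hπ] at h1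
  have hi0 : V.index ≠ 0 := Subgroup.FiniteIndex.index_ne_zero
  have h2 : padicValNat ℓ V.index = 0 := by
    rw [← h1, padicValNat.mul hi0 Nat.card_pos.ne'] at h
    omega
  have h3 : padicValNat ℓ (Nat.card V) = padicValNat ℓ (Nat.card H) := by
    rw [← Subgroup.index_mul_card V, padicValNat.mul hi0 Nat.card_pos.ne', h2, zero_add]
  have h4 : padicValNat ℓ (Nat.card P) = padicValNat ℓ (Nat.card H) := by
    rw [← Subgroup.index_mul_card P, padicValNat.mul Subgroup.FiniteIndex.index_ne_zero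
      Nat.card_pos.ne', padicValNat.eq_zero_of_not_dvd hP.idx, zero_add]
  have h5 : padicValNat ℓ (Nat.card ↥(P ⊓ V)) = padicValNat ℓ (Nat.card V) := by
    have h6 : padicValNat ℓ (P.relIndex V) = 0 := padicValNat.eq_zero_of_not_dvd
      fun hd => hP.idx (hd.trans (Subgroup.relIndex_dvd_index_of_normal P V))
    have h7 : P.relIndex V ≠ 0 := by
      intro h0
      have := Subgroup.relIndex_dvd_index_of_normal P V
      rw [h0, Nat.zero_dvd] at this
      exact (Subgroup.FiniteIndex.index_ne_zero (H := P)) this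
    rw [← card_rel (inf_le_right : P ⊓ V ≤ V), Subgroup.inf_relIndex_right,
      padicValNat.mul Nat.card_pos.ne' h7, h6, add_zero]
  obtain ⟨j, hj⟩ := IsPGroup.iff_card.mp hP.pgr
  obtain ⟨k, hk⟩ := IsPGroup.iff_card.mp (hP.pgr.to_le (inf_le_left : P ⊓ V ≤ P))
  rw [hk, padicValNat.prime_pow, h3, ← h4, hj, padicValNat.prime_pow] at h5
  have h6 : P ⊓ V = P := by
    apply Subgroup.eq_of_le_of_card_ge inf_le_left
    rw [hj, hk, h5]
  exact inf_eq_left.mp h6

open Classical in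
/-- No characters of a defect which is too large. -/
theorem filt_empty {Y : Type} [Group Y] [Fintype Y] {e : ℕ}
    (he : padicValNat ℓ (Nat.card Y) < e) (f : (Y → ℂ) → ℂ) :
    ∑ η ∈ irrF Y with HasDefect ℓ η e, f η = 0 := by
  apply Finset.sum_eq_zero
  intro η hη
  have := defect_le (Finset.mem_filter.mp hη).2
  omega

theorem val_comap_le {π : W →* H} (V : Subgroup H) :
    padicValNat ℓ (Nat.card ↥(V.comap π)) ≤ padicValNat ℓ (Nat.card W) := by
  rw [← Subgroup.index_mul_card (V.comap π), padicValNat.mul Subgroup.FiniteIndex.index_ne_zero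
      Nat.card_pos.ne']
  omega

theorem pht_zero {π : W →* H} {m : Subgroup H → ℚ} {e : ℕ}
    (he : padicValNat ℓ (Nat.card W) < e) (a : W) : PHT ℓ π m e a = 0 := by
  unfold PHT
  apply Finset.sum_eq_zero
  intro V _
  rw [filt_empty (lt_of_le_of_lt (val_comap_le V) he), mul_zero, mul_zero]

open Classical in
/-- The sum over the characters of one inverse image. -/
theorem one_V (h1 : Stmt_EDV) (h2 : Stmt_EDT) {π : W →* H} (hπ : Function.Surjective π)
    (hc : π.ker ≤ Subgroup.center W) {P : Subgroup H} (hP : SylAb ℓ P) (V : Subgroup H)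
    {a : W} (ha : a ∈ π.ker) :
    ((Nat.card π.ker : ℂ) * (Nat.card ↥⁅P.comap π, P.comap π⁆ : ℂ)) * ((Nat.card V : ℂ) *
      ∑ η ∈ irrF (V.comap π) with HasDefect ℓ η (padicValNat ℓ (Nat.card W)),
        ext0 η a⁻¹ / η 1) =
      ∑ x : W, ∑ y : W, if x * y * x⁻¹ * y⁻¹ * a ∈ ⁅P.comap π, P.comap π⁆ then
        (if P ≤ V ∧ π x ∈ V ∧ π y ∈ V then (1 : ℂ) else 0) else 0 := by
  by_cases hPV : P ≤ V
  · have h3 := (h1 W H ℓ π hπ P hP V (padicValNat ℓ (Nat.card W))).2 hc a ha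
    have h4 : V ⊓ P = P := inf_eq_right.mpr hPV
    rw [h4] at h3
    have h5 : ∀ r : W, ed (P.comap π)
        (fun κ => HasDefect ℓ κ (padicValNat ℓ (Nat.card W))) r =
        if r ∈ ⁅P.comap π, P.comap π⁆ then
          1 / (Nat.card ↥⁅P.comap π, P.comap π⁆ : ℂ) else 0 := by
      intro r
      have h6 := h2 W ℓ (P.comap π) π.ker (by
        intro x hx
        rw [Subgroup.mem_comap, (MonoidHom.mem_ker).mp hx]
        exact one_mem P) (fun a ha s _ => (Subgroup.mem_center_iff.mp (hc ha) s).symm) (by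
        intro s hs
        obtain ⟨k, hk⟩ := hP.pgr ⟨π s, hs⟩
        refine ⟨k, ?_⟩
        rw [MonoidHom.mem_ker, map_pow]
        have := congrArg Subtype.val hk
        simpa using this) r
      rw [val_syl hπ hP] at h6
      exact h6
    have h7 : (Nat.card ↥⁅P.comap π, P.comap π⁆ : ℂ) ≠ 0 :=
      Nat.cast_ne_zero.mpr Nat.card_pos.ne'
    have h8 : ((Nat.card π.ker : ℂ) * (Nat.card ↥⁅P.comap π, P.comap π⁆ : ℂ)) *
        ((Nat.card V : ℂ) *
        ∑ η ∈ irrF (V.comap π) with HasDefect ℓ η (padicValNat ℓ (Nat.card W)),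
          ext0 η a⁻¹ / η 1) =
        (Nat.card ↥⁅P.comap π, P.comap π⁆ : ℂ) * ((Nat.card ↥(V.comap π) : ℂ) *
        ∑ η ∈ irrF (V.comap π) with HasDefect ℓ η (padicValNat ℓ (Nat.card W)),
          ext0 η a⁻¹ / η 1) := by
      rw [card_comap hπ V, Nat.cast_mul]
      ring
    rw [h8, h3, Finset.mul_sum]
    refine Finset.sum_congr rfl fun x _ => ?_
    rw [Finset.mul_sum]
    refine Finset.sum_congr rfl fun y _ => ?_
    rw [h5]
    by_cases hxy : π x ∈ V ∧ π y ∈ V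
    · have h9 : P ≤ V ∧ π x ∈ V ∧ π y ∈ V := ⟨hPV, hxy⟩
      simp only [if_pos hxy, if_pos h9]
      split_ifs
      · field_simp
      · rw [mul_zero]
    · have h9 : ¬ (P ≤ V ∧ π x ∈ V ∧ π y ∈ V) := fun h => hxy h.2
      simp only [if_neg hxy, if_neg h9, ite_self, mul_zero]
  · have h3 : padicValNat ℓ (Nat.card ↥(V.comap π)) < padicValNat ℓ (Nat.card W) := by
      by_contra h
      exact hPV (le_of_val hπ hP (not_lt.mp h))
    rw [filt_empty h3, mul_zero, mul_zero]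
    symm
    refine Finset.sum_eq_zero fun x _ => Finset.sum_eq_zero fun y _ => ?_
    have h9 : ¬ (P ≤ V ∧ π x ∈ V ∧ π y ∈ V) := fun h => hPV h.1
    simp only [if_neg h9, ite_self]

open Classical in
/-- The Moebius sum is a number of pairs. -/
theorem count (h1 : Stmt_EDV) (h2 : Stmt_EDT) (h3 : Stmt_MBX) {π : W →* H}
    (hπ : Function.Surjective π) (hc : π.ker ≤ Subgroup.center W) {P : Subgroup H}
    (hP : SylAb ℓ P) {m : Subgroup H → ℚ} (hm : Mob m) {a : W} (ha : a ∈ π.ker) :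
    ((Nat.card π.ker : ℂ) * (Nat.card ↥⁅P.comap π, P.comap π⁆ : ℂ)) *
      PHT ℓ π m (padicValNat ℓ (Nat.card W)) a =
      ((∑ x : W, ∑ y : W, if x * y * x⁻¹ * y⁻¹ * a ∈ ⁅P.comap π, P.comap π⁆ then
        (if Subgroup.closure {x, y} ⊔ P.comap π = ⊤ then 1 else 0) else 0 : ℕ) : ℂ) := by
  unfold PHT
  rw [Finset.mul_sum]
  have h4 : ∀ V : Subgroup H, ((Nat.card π.ker : ℂ) *
      (Nat.card ↥⁅P.comap π, P.comap π⁆ : ℂ)) * ((m V : ℂ) * ((Nat.card V : ℂ) *
      ∑ η ∈ irrF (V.comap π) with HasDefect ℓ η (padicValNat ℓ (Nat.card W)),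
        ext0 η a⁻¹ / η 1)) =
      ∑ x : W, ∑ y : W, if x * y * x⁻¹ * y⁻¹ * a ∈ ⁅P.comap π, P.comap π⁆ then
        (if P ≤ V ∧ π x ∈ V ∧ π y ∈ V then (m V : ℂ) else 0) else 0 := by
    intro V
    rw [mul_left_comm, one_V h1 h2 hπ hc hP V ha, Finset.mul_sum]
    refine Finset.sum_congr rfl fun x _ => ?_
    rw [Finset.mul_sum]
    refine Finset.sum_congr rfl fun y _ => ?_
    split_ifs <;> simp
  rw [Finset.sum_congr rfl fun V _ => h4 V, Finset.sum_comm]
  push_cast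
  refine Finset.sum_congr rfl fun x _ => ?_
  rw [Finset.sum_comm]
  refine Finset.sum_congr rfl fun y _ => ?_
  by_cases hxy : x * y * x⁻¹ * y⁻¹ * a ∈ ⁅P.comap π, P.comap π⁆
  · simp only [if_pos hxy]
    rw [(h3 W H π hπ P m hm x y).2]
  · simp only [if_neg hxy, Finset.sum_const_zero]

end TOPC

open _root_.Pool.Agent.DPF.TOPC in
theorem TOPC_thm (h1 : Stmt_EDV) (h2 : Stmt_EDT) (h3 : Stmt_MBX) : Stmt_TOPC := by
  intro W H _ _ _ _ ℓ _ π hπ hc P hP m hm
  refine ⟨fun e he a => pht_zero he (a : W), ?_⟩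
  rintro a ⟨x₀, y₀, e, hcl, he, hae⟩ h0
  classical
  have h4 := count h1 h2 h3 hπ hc hP hm a.2
  rw [h0, mul_zero, eq_comm, Nat.cast_eq_zero, Finset.sum_eq_zero_iff] at h4
  have h5 := h4 y₀ (Finset.mem_univ _)
  rw [Finset.sum_eq_zero_iff] at h5
  have h6 := h5 x₀ (Finset.mem_univ _)
  have h7 : y₀ * x₀ * y₀⁻¹ * x₀⁻¹ * (a : W) = e := by
    rw [hae]; group
  rw [h7, if_pos he, Set.pair_comm, if_pos hcl] at h6
  exact one_ne_zero h6

end Pool.Agent.DPF


end

section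

/-!
# A normal subgroup with quotient in the class (OUT1), for the groups of a class
-/

namespace Pool.Agent.DPK

open Pool.Agent.DP Pool.Agent.DPC Pool.Agent.DPM Pool.Agent.DPN Pool.Agent.DPT Pool.Agent.Lib_helper13
open Representation
open Pool.Agent.Lib_helper13.Dade (pCore DadeHolds dadeSum)

open Pool.Agent.DPT.OUT1 in
theorem OUT1r_thm (Cl : ∀ (Y : Type) [Group Y], Prop) (_ : GC Cl) (h1 : Stmt_OUTFr Cl)
    (h2 : Stmt_FINNr Cl) (h3 : Stmt_OUTN) (h4 : Stmt_OUTG) (h5 : Stmt_STBr Cl) (h6 : Stmt_KEYN)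
    (h7 : Stmt_SUMM) : Stmt_OUT1r Cl := by
  intro X _ _ 𝔐 ℓ _ hM hℓ hc hCX hQ d ω hd hK N hN hlt
  have hprime : 𝔐.IsPrime := hM.isPrime
  have hPn := PP_normal ℓ N
  have hNP := le_PP ℓ N
  have hfin : Fintype (X ⧸ PP ℓ N) := Fintype.ofFinite _
  have hcP : pCore ℓ X ≤ PP ℓ N := hc.trans (hlt.le.trans hNP)
  have hmap : ((pCore ℓ X).subgroupOf (PP ℓ N)).map (PP ℓ N).subtype = pCore ℓ X :=
    Subgroup.map_subgroupOf_eq_of_le hcP
  have hi : (Subgroup.center X).index ≠ 0 := Subgroup.index_ne_zero_of_finite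
  have hlt' : N.index < (Subgroup.center X).index := Subgroup.index_strictAnti hlt
  have hle : (PP ℓ N).index ≤ N.index :=
    Nat.le_of_dvd (Nat.pos_of_ne_zero Subgroup.index_ne_zero_of_finite)
      (Subgroup.index_dvd_of_le hNP)
  have hd' : padicValNat ℓ (Nat.card ((pCore ℓ X).subgroupOf (PP ℓ N))) < d := by
    rw [Nat.card_congr (Subgroup.subgroupOfEquivOfLe hcP).toEquiv]
    exact hd
  have hK' : DK 𝔐 ℓ d (((pCore ℓ X).subgroupOf (PP ℓ N)).map (PP ℓ N).subtype)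
      (MonoidHom.id X) {ω} ≠ 0 := by
    rw [hmap, DK_eq]
    exact hK
  have hr : Subgroup.center X ≤ (PP ℓ N).subtype.range := by
    rw [Subgroup.range_subtype]
    exact hlt.le.trans hNP
  have hcard : Nat.card (X ⧸ PP ℓ N) ≤ (Subgroup.center X).index - 1 := by
    rw [← Subgroup.index_eq_card]
    omega
  have hZp : IsPGroup ℓ ((pCore ℓ X).subgroupOf (PP ℓ N)) :=
    (isPGroup_pCore (G := X) ℓ).comap_subtype
  have hcore := core_quot ℓ N (PP ℓ N) rfl
  have hF := h2 (PP ℓ N) X (X ⧸ PP ℓ N) 𝔐 ℓ hM hℓ (PP ℓ N).subtype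
    (MulAut.conjNormal (H := PP ℓ N)) (QuotientGroup.mk' (PP ℓ N)) (clG X (PP ℓ N))
    (QuotientGroup.mk'_surjective _) hcore ((Subgroup.center X).index - 1) hCX hQ hr
    (by omega) hcard ((pCore ℓ X).subgroupOf (PP ℓ N)) hZp (by rw [hmap]; exact hc) d ω hd' hK'
  obtain ⟨W, _, _, π, R, μ, Lm, τ, θ, hFam, hPr, hω, hcom, -⟩ := h1 (PP ℓ N) X (X ⧸ PP ℓ N)
    𝔐 ℓ hM hℓ (PP ℓ N).subtype
    (MulAut.conjNormal (H := PP ℓ N)) (QuotientGroup.mk' (PP ℓ N)) (clG X (PP ℓ N))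
    (QuotientGroup.mk'_surjective _) hcore ((Subgroup.center X).index - 1) hCX hQ hr
    (by omega) hcard ((pCore ℓ X).subgroupOf (PP ℓ N)) hZp (by rw [hmap]; exact hc) d ω hd' hK'
  obtain ⟨χ, hχ, hχθ⟩ := exists_irr_of_mult 𝔐 hPr.irr
    (exists_irr_of_chain 𝔐 hℓ (mem_Ch.1 hPr.ch) hPr.irr)
  obtain ⟨ξ, hξ, hip, hcg⟩ := exists_xi h7 𝔐 hN hNP hχ
  have hag : ∀ x ∈ N, cgT 𝔐 ⊤ ξ x = ω x := by
    intro x hx
    rw [hcg x hx]
    have e1 := hω ⟨x, hNP hx⟩
    have hf : ∀ g y : PP ℓ N, conjInd ((PP ℓ N).subtype (g * y * g⁻¹)) x =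
        conjInd ((PP ℓ N).subtype y) x := by
      intro g y
      rw [map_mul, map_mul, map_inv, conjInd_conj]
    have e2 := red_wt_eq_pair 𝔐 (MonoidHom.id (PP ℓ N)) hχ
      (fun o => conjInd ((PP ℓ N).subtype o) x) hf (fun o => isIntegral_conjInd _ _)
    have e3 := red_wt_eq_pair 𝔐 (stb τ).subtype hPr.irr
      (fun o => conjInd ((PP ℓ N).subtype o) x) hf (fun o => isIntegral_conjInd _ _)
    rw [hχθ] at e2
    refine Eq.trans e2 (Eq.trans e3.symm ?_)
    exact e1.symm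
  have hst := h5 X 𝔐 ℓ hM hℓ ((Subgroup.center X).index - 1) hCX hQ (by omega) (pCore ℓ X) N hc
    (isPGroup_pCore (G := X) ℓ) hN d hd ω hK ξ hξ hag
  have hRn := hFam.Rn
  refine h4 X ℓ N (PP ℓ N) ((R.map π).comap (QuotientGroup.mk' (PP ℓ N))) hN hPn
    ((hRn.map π hFam.πs).comap _) hNP ?_ (pow_mem ℓ N) ?_ ?_ ?_
  · intro x hx
    have h : QuotientGroup.mk' (PP ℓ N) x = 1 := (QuotientGroup.eq_one_iff x).2 hx
    rw [Subgroup.mem_comap, h]
    exact one_mem _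
  · intro x y
    obtain ⟨w, hw⟩ := hFam.πs (QuotientGroup.mk' (PP ℓ N) x)
    obtain ⟨w', hw'⟩ := hFam.πs (QuotientGroup.mk' (PP ℓ N) y)
    rw [Subgroup.mem_comap, map_mul, map_mul, map_mul, map_inv, map_inv, ← hw, ← hw']
    refine Subgroup.mem_map.2 ⟨_, hcom w w', ?_⟩
    rw [map_mul, map_mul, map_mul, map_inv, map_inv]
  · intro x hx
    have h := ne_zero_of_core hF.2.1 (QuotientGroup.mk' (PP ℓ N)) x (by
      rw [← map_pow]
      exact (QuotientGroup.eq_one_iff _).2 hx)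
    exact (QuotientGroup.eq_one_iff x).1 h
  · intro x hx
    obtain ⟨r, hr1, hr2⟩ := Subgroup.mem_map.1 (Subgroup.mem_comap.1 hx)
    exact core h3 h6 X 𝔐 ℓ hM hℓ N (PP ℓ N) hN hPn hNP (pow_mem ℓ N) (X ⧸ PP ℓ N) W
      (QuotientGroup.mk' (PP ℓ N)) (MulAut.conjNormal (H := PP ℓ N)) (clG X (PP ℓ N)) d
      ((pCore ℓ X).subgroupOf (PP ℓ N)) π R μ Lm τ θ hFam hPr χ hχ hχθ ξ hξ hip
      (by rw [hst]; exact le_top) x r hr1 hr2.symm

end Pool.Agent.DPK


end

section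

/-!
# Dade's conjecture for the groups of a class: definitions for the final steps
-/

namespace Pool.Agent.DPK

open Pool.Agent.DP Pool.Agent.DPC Pool.Agent.DPM Pool.Agent.DPN Pool.Agent.DPT Pool.Agent.DPF
open Pool.Agent.Lib_helper13
open Representation
open Pool.Agent.Lib_helper13.Dade (pCore DadeHolds dadeSum)

/-- The function `ω` on `L` is determined by the function `ω'` on the image `L'` in the way in
which the central functions of the characters of `L'` determine those of their inflations. -/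
def RelC {L L' K : Type} [Group L] [Group L'] [Group K] (𝔐 : Ideal (integralClosure ℤ ℂ))
    (q : L →* L') (π' : L' →* K) (M : Subgroup K) (ω : L → (integralClosure ℤ ℂ) ⧸ 𝔐)
    (ω' : L' → (integralClosure ℤ ℂ) ⧸ 𝔐) : Prop :=
  ∀ g, π' (q g) ∈ M →
    ω g = ((Nat.card {y : L // IsConj y g ∧ q y = q g} : ℕ) : (integralClosure ℤ ℂ) ⧸ 𝔐) *
      ω' (q g)

/-- The conclusions of OUT2 on the blocks of `N` which are covered by `ω`: they are stable and
their support contains `M`. -/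
def OutN {X : Type} [Group X] [Fintype X] (𝔐 : Ideal (integralClosure ℤ ℂ)) (N M : Subgroup X)
    (ω : X → (integralClosure ℤ ℂ) ⧸ 𝔐) : Prop :=
  ∀ ξ : X → ℂ, IrrOn N ξ → (∀ x ∈ N, cgT 𝔐 ⊤ ξ x = ω x) →
    sx (cgT 𝔐 N ξ) = ⊤ ∧
    ∀ x ∈ M, ∃ u v : X → ℤ, (∀ a ∈ N, ∀ z, u (a * z * a⁻¹) = u z) ∧
      (∀ a ∈ N, ∀ z, v (a * z * a⁻¹) = v z) ∧ (∀ z, u z ≠ 0 → x⁻¹ * z ∈ N) ∧
      (∀ z, v z ≠ 0 → x * z ∈ N) ∧
      red 𝔐 (wS N ξ (fun z => ((conv u v z : ℤ) : ℂ))) ≠ 0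

/-- The class of the groups `Y` such that every nonabelian simple group `S` of order divisible by
`ℓ` which is an image of a subgroup of `Y` has cyclic Sylow `ℓ`-subgroups and an outer automorphism
group of order prime to `ℓ`. -/
def UC (ℓ : ℕ) (Y : Type) [Group Y] : Prop :=
  ∀ (H : Subgroup Y) (S : Type) [Group S] (f : H →* S), Function.Surjective f →
    IsSimpleGroup S → (∃ a b : S, a * b ≠ b * a) → ℓ ∣ Nat.card S →
    (∀ Q : Subgroup S, IsPGroup ℓ Q → IsCyclic Q) ∧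
      ¬ ℓ ∣ (MulAut.conj : S →* MulAut S).range.index

end Pool.Agent.DPK


end

section

/-!
# Dade's conjecture for the groups of a class: statements of the final steps
-/

namespace Pool.Agent.DPK

open Pool.Agent.DP Pool.Agent.DPC Pool.Agent.DPM Pool.Agent.DPN Pool.Agent.DPT Pool.Agent.DPF
open Pool.Agent.Lib_helper13
open Representation
open Pool.Agent.Lib_helper13.Dade (pCore DadeHolds dadeSum)

/-! ### The quotient by the kernel of the linear character -/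

/-- OSR: characters whose central functions agree on the elements of order prime to `ℓ`. -/
def Stmt_OSR : Prop :=
  ∀ (T : Type) [Group T] [Fintype T] (𝔐 : Ideal (integralClosure ℤ ℂ)) (ℓ : ℕ) [Fact ℓ.Prime],
    𝔐.IsMaximal → (ℓ : integralClosure ℤ ℂ) ∈ 𝔐 → ∀ χ χ' : T → ℂ, IsIrr χ → IsIrr χ' →
    (∀ g : T, ¬ ℓ ∣ orderOf g →
      cen 𝔐 (MonoidHom.id T) χ g = cen 𝔐 (MonoidHom.id T) χ' g) →
    cen 𝔐 (MonoidHom.id T) χ = cen 𝔐 (MonoidHom.id T) χ'

/-- QMI: characters of a quotient by a central subgroup whose inflations are in one block. -/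
def Stmt_QMI : Prop :=
  ∀ (T T' : Type) [Group T] [Fintype T] [Group T'] [Fintype T']
    (𝔐 : Ideal (integralClosure ℤ ℂ)) (ℓ : ℕ) [Fact ℓ.Prime], 𝔐.IsMaximal →
    (ℓ : integralClosure ℤ ℂ) ∈ 𝔐 → ∀ q : T →* T', Function.Surjective q →
    q.ker ≤ Subgroup.center T → ∀ χ₁ χ₂ : T' → ℂ, IsIrr χ₁ → IsIrr χ₂ →
    cen 𝔐 (MonoidHom.id T) (fun x => χ₁ (q x)) = cen 𝔐 (MonoidHom.id T) (fun x => χ₂ (q x)) →
    cen 𝔐 (MonoidHom.id T') χ₁ = cen 𝔐 (MonoidHom.id T') χ₂

/-- QMF: the central function of an inflation. -/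
def Stmt_QMF : Prop :=
  ∀ (L L' : Type) [Group L] [Fintype L] [Group L'] [Fintype L']
    (𝔐 : Ideal (integralClosure ℤ ℂ)), 𝔐.IsMaximal → ∀ q : L →* L', Function.Surjective q →
    ∀ (S : Subgroup L') (ψ : L' → ℂ), IrrOn S ψ → ∀ g : L,
    cgT 𝔐 ⊤ (fun x => ψ (q x)) g =
      ((Nat.card {y : L // IsConj y g ∧ q y = q g} : ℕ) : (integralClosure ℤ ℂ) ⧸ 𝔐) *
        cgT 𝔐 ⊤ ψ (q g)

/-- QMA: a central function on the quotient with a nonvanishing chain sum. -/
def Stmt_QMA : Prop :=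
  ∀ (L L' K : Type) [Group L] [Fintype L] [Group L'] [Fintype L'] [Group K] [Fintype K]
    (𝔐 : Ideal (integralClosure ℤ ℂ)) (ℓ : ℕ) [Fact ℓ.Prime], 𝔐.IsMaximal →
    (ℓ : integralClosure ℤ ℂ) ∈ 𝔐 → ∀ (q : L →* L') (π' : L' →* K), Function.Surjective q →
    Function.Surjective π' → (π'.comp q).ker ≤ Subgroup.center L →
    ∀ (μ : (π'.comp q).ker →* ℂˣ) (μ' : π'.ker →* ℂˣ),
    (∀ (u : (π'.comp q).ker) (h : q u ∈ π'.ker), μ' ⟨q u, h⟩ = μ u) →
    ∀ M : Subgroup K, M.Normal → ∀ (ω : L → (integralClosure ℤ ℂ) ⧸ 𝔐) (d : ℕ),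
    Pos 𝔐 ℓ (π'.comp q) μ M ω → DKU 𝔐 ℓ d (π'.comp q) μ M ω ≠ 0 →
    ∃ (d' : ℕ) (ω' : L' → (integralClosure ℤ ℂ) ⧸ 𝔐), RelC 𝔐 q π' M ω ω' ∧
      Pos 𝔐 ℓ π' μ' M ω' ∧ DKU 𝔐 ℓ d' π' μ' M ω' ≠ 0

/-- QMB: inflation of the covered characters. -/
def Stmt_QMB : Prop :=
  ∀ (L L' K : Type) [Group L] [Fintype L] [Group L'] [Fintype L'] [Group K] [Fintype K]
    (𝔐 : Ideal (integralClosure ℤ ℂ)), 𝔐.IsMaximal → ∀ (q : L →* L') (π' : L' →* K),
    Function.Surjective q → ∀ (μ : (π'.comp q).ker →* ℂˣ) (μ' : π'.ker →* ℂˣ),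
    (∀ (u : (π'.comp q).ker) (h : q u ∈ π'.ker), μ' ⟨q u, h⟩ = μ u) →
    ∀ N M : Subgroup K, N ≤ M → ∀ (ω : L → (integralClosure ℤ ℂ) ⧸ 𝔐)
    (ω' : L' → (integralClosure ℤ ℂ) ⧸ 𝔐), RelC 𝔐 q π' M ω ω' → ∀ f' : L' → ℂ,
    Pool.Agent.DPG.Cvd 𝔐 π' μ' N ω' f' →
      Pool.Agent.DPG.Cvd 𝔐 (π'.comp q) μ N ω (fun x => f' (q x))

/-- QMC: stability for the quotient. -/
def Stmt_QMC : Prop :=
  ∀ (L L' K : Type) [Group L] [Fintype L] [Group L'] [Fintype L'] [Group K] [Fintype K]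
    (𝔐 : Ideal (integralClosure ℤ ℂ)) (ℓ : ℕ) [Fact ℓ.Prime], 𝔐.IsMaximal →
    (ℓ : integralClosure ℤ ℂ) ∈ 𝔐 → ∀ (q : L →* L') (π' : L' →* K), Function.Surjective q →
    Function.Surjective π' → (π'.comp q).ker ≤ Subgroup.center L →
    ∀ (μ : (π'.comp q).ker →* ℂˣ) (μ' : π'.ker →* ℂˣ),
    (∀ (u : (π'.comp q).ker) (h : q u ∈ π'.ker), μ' ⟨q u, h⟩ = μ u) →
    ∀ N M : Subgroup K, N.Normal → N ≤ M → ∀ (ω : L → (integralClosure ℤ ℂ) ⧸ 𝔐)
    (ω' : L' → (integralClosure ℤ ℂ) ⧸ 𝔐), RelC 𝔐 q π' M ω ω' →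
    Pool.Agent.DPG.STB 𝔐 (π'.comp q) μ N ω → Pool.Agent.DPG.STB 𝔐 π' μ' N ω'

/-- QMD: the support for the quotient. -/
def Stmt_QMD : Prop :=
  ∀ (L L' K : Type) [Group L] [Fintype L] [Group L'] [Fintype L'] [Group K] [Fintype K]
    (𝔐 : Ideal (integralClosure ℤ ℂ)), 𝔐.IsMaximal → ∀ (q : L →* L') (π' : L' →* K),
    Function.Surjective q → ∀ (μ : (π'.comp q).ker →* ℂˣ) (μ' : π'.ker →* ℂˣ),
    (∀ (u : (π'.comp q).ker) (h : q u ∈ π'.ker), μ' ⟨q u, h⟩ = μ u) →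
    ∀ N M : Subgroup K, N.Normal → N ≤ M → ∀ (ω : L → (integralClosure ℤ ℂ) ⧸ 𝔐)
    (ω' : L' → (integralClosure ℤ ℂ) ⧸ 𝔐), RelC 𝔐 q π' M ω ω' →
    Pool.Agent.DPG.SPP 𝔐 (π'.comp q) μ N M ω → Pool.Agent.DPG.SPP 𝔐 π' μ' N M ω'

/-- QMU: passage to a faithful linear character. -/
def Stmt_QMU : Prop :=
  ∀ (L K : Type) [Group L] [Fintype L] [Group K] [Fintype K]
    (𝔐 : Ideal (integralClosure ℤ ℂ)) (ℓ : ℕ) [Fact ℓ.Prime], 𝔐.IsMaximal →
    (ℓ : integralClosure ℤ ℂ) ∈ 𝔐 → ∀ π : L →* K, Function.Surjective π →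
    π.ker ≤ Subgroup.center L → ∀ (μ : π.ker →* ℂˣ) (N M : Subgroup K), N.Normal → M.Normal →
    N ≤ M → ∀ (ω : L → (integralClosure ℤ ℂ) ⧸ 𝔐) (d : ℕ), Pos 𝔐 ℓ π μ M ω →
    DKU 𝔐 ℓ d π μ M ω ≠ 0 → Pool.Agent.DPG.STB 𝔐 π μ N ω → Pool.Agent.DPG.SPP 𝔐 π μ N M ω →
    ∃ (L' : Type) (_ : Group L') (_ : Fintype L') (π' : L' →* K) (μ' : π'.ker →* ℂˣ)
      (d' : ℕ) (ω' : L' → (integralClosure ℤ ℂ) ⧸ 𝔐), Function.Surjective π' ∧
      π'.ker ≤ Subgroup.center L' ∧ Function.Injective μ' ∧ Pos 𝔐 ℓ π' μ' M ω' ∧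
      DKU 𝔐 ℓ d' π' μ' M ω' ≠ 0 ∧ Pool.Agent.DPG.STB 𝔐 π' μ' N ω' ∧
      Pool.Agent.DPG.SPP 𝔐 π' μ' N M ω'

/-! ### The quotient by the centre -/

/-- BSA: stability of the blocks of the image of `N`. -/
def Stmt_BSA : Prop :=
  ∀ (X K : Type) [Group X] [Fintype X] [Group K] [Fintype K]
    (𝔐 : Ideal (integralClosure ℤ ℂ)), 𝔐.IsMaximal → ∀ π : X →* K, ∀ (μ : π.ker →* ℂˣ)
    (N M : Subgroup X), N.Normal → π.ker ≤ N → N ≤ M →
    ∀ ω : X → (integralClosure ℤ ℂ) ⧸ 𝔐, OutN 𝔐 N M ω →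
    Pool.Agent.DPG.STB 𝔐 π μ (N.map π) ω

/-- BSB: the support of the blocks of the image of `N`. -/
def Stmt_BSB : Prop :=
  ∀ (X K : Type) [Group X] [Fintype X] [Group K] [Fintype K]
    (𝔐 : Ideal (integralClosure ℤ ℂ)), 𝔐.IsMaximal → ∀ π : X →* K, ∀ (μ : π.ker →* ℂˣ)
    (N M : Subgroup X), N.Normal → π.ker ≤ N → N ≤ M →
    ∀ ω : X → (integralClosure ℤ ℂ) ⧸ 𝔐, OutN 𝔐 N M ω →
    Pool.Agent.DPG.SPP 𝔐 π μ (N.map π) (M.map π) ω

/-- GRA: the largest normal `ℓ`-subgroup of the quotient by the centre. -/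
def Stmt_GRA : Prop :=
  ∀ (X K : Type) [Group X] [Finite X] [Group K] [Finite K] (ℓ : ℕ) [Fact ℓ.Prime] (π : X →* K),
    Function.Surjective π → π.ker = Subgroup.center X → pCore ℓ X ≤ Subgroup.center X →
    pCore ℓ K = ⊥

/-- GRB: the images of `N` and `M`. -/
def Stmt_GRB : Prop :=
  ∀ (X K : Type) [Group X] [Finite X] [Group K] [Finite K] (ℓ : ℕ) [Fact ℓ.Prime] (π : X →* K),
    Function.Surjective π → π.ker = Subgroup.center X → ∀ N : Subgroup X, N.Normal →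
    Subgroup.center X < N →
    (∀ N' : Subgroup X, N'.Normal → Subgroup.center X < N' → N ≤ N') →
    (∃ x ∈ N, ∃ y ∈ N, x * y * x⁻¹ * y⁻¹ ∉ Subgroup.center X) →
    (N.map π).Normal ∧ N.map π ≠ ⊥ ∧
    (∀ N' : Subgroup K, N'.Normal → N' ≠ ⊥ → N.map π ≤ N') ∧
    (∃ a ∈ N.map π, ∃ b ∈ N.map π, a * b ≠ b * a) ∧
    Subgroup.centralizer (N.map π : Set K) = ⊥ ∧
    (IsSimpleGroup (N.map π) → IsSimpleGroup (N ⧸ (Subgroup.center X).subgroupOf N)) ∧
    ∀ M : Subgroup X, N ≤ M → (∀ x ∈ M, x ^ ℓ ∈ N → x ∈ N) → N.map π ≤ M.map π ∧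
      ¬ ℓ ∣ (N.map π).relIndex (M.map π)

/-! ### The unconditional theorem -/

/-- UCC: the class is closed. -/
def Stmt_UCC : Prop := ∀ (ℓ : ℕ) [Fact ℓ.Prime], GC (UC ℓ)

/-- OUI: the index of a normal subgroup and the outer automorphism group. -/
def Stmt_OUI : Prop :=
  ∀ (X : Type) [Group X] [Finite X] (N : Subgroup X), N.Normal → Subgroup.center X ≤ N →
    (∀ x, (∀ y ∈ N, x * y * x⁻¹ * y⁻¹ ∈ Subgroup.center X) → x ∈ Subgroup.center X) →
    N.index ∣ (MulAut.conj : (N ⧸ (Subgroup.center X).subgroupOf N) →*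
      MulAut (N ⧸ (Subgroup.center X).subgroupOf N)).range.index

/-- BAG: the commutator subgroup of `N`. -/
def Stmt_BAG : Prop :=
  ∀ (X : Type) [Group X] [Finite X] (ℓ : ℕ) [Fact ℓ.Prime], pCore ℓ X ≤ Subgroup.center X →
    ∀ N : Subgroup X, N.Normal → Subgroup.center X ≤ N → N ≤ ⁅N, N⁆ ⊔ Subgroup.center X →
    (∀ Q : Subgroup (N ⧸ (Subgroup.center X).subgroupOf N), IsPGroup ℓ Q → IsCyclic Q) →
    ⁅N, N⁆.Normal ∧ N = ⁅N, N⁆ ⊔ Subgroup.center X ∧ pCore ℓ ↥⁅N, N⁆ = ⊥ ∧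
    (∀ Q : Subgroup ↥⁅N, N⁆, IsPGroup ℓ Q → IsCyclic Q) ∧
    padicValNat ℓ (Nat.card N) ≤
      padicValNat ℓ (Nat.card ↥⁅N, N⁆) + padicValNat ℓ (Nat.card (pCore ℓ X))

/-- BAS: Dade's conjecture in the case of cyclic Sylow `ℓ`-subgroups of `N / Z(X)`. -/
def Stmt_BAS : Prop :=
  ∀ (X : Type) [Group X] [Finite X] (ℓ : ℕ) [Fact ℓ.Prime], pCore ℓ X ≤ Subgroup.center X →
    ∀ N : Subgroup X, N.Normal → Subgroup.center X ≤ N → N ≤ ⁅N, N⁆ ⊔ Subgroup.center X →
    (∀ Q : Subgroup (N ⧸ (Subgroup.center X).subgroupOf N), IsPGroup ℓ Q → IsCyclic Q) →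
    ¬ ℓ ∣ N.index → DadeHolds ℓ X

end Pool.Agent.DPK


end

section

/-!
# QMI: characters of a quotient by a central subgroup whose inflations are in one block
-/

set_option autoImplicit false

namespace Pool.Agent.DPK

open Pool.Agent.DP Pool.Agent.DPC Pool.Agent.DPM Pool.Agent.DPN Pool.Agent.DPT Pool.Agent.DPF
open Pool.Agent.Lib_helper13
open Representation

namespace QMI

/-- The central function in terms of conjugacy under the whole group. -/
theorem cgT_top {T : Type} [Group T] [Fintype T] (𝔐 : Ideal (integralClosure ℤ ℂ)) (f : T → ℂ)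
    (g : T) : cgT 𝔐 ⊤ f g = cen 𝔐 (MonoidHom.id T) f g := by
  rw [cgT, cen, wt]
  congr 2
  refine Finset.sum_congr rfl fun x _ => ?_
  congr 1
  rw [cjT, conjInd]
  congr 1
  apply propext
  rw [MonoidHom.id_apply, isConj_iff]
  constructor
  · rintro ⟨t, _, h⟩
    refine ⟨t⁻¹, ?_⟩
    rw [h]
    group
  · rintro ⟨c, h⟩
    refine ⟨c⁻¹, Subgroup.mem_top _, ?_⟩
    rw [← h]
    group

/-- An irreducible character of the group is an irreducible character of the whole subgroup. -/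
theorem irrOn_top {T : Type} [Group T] [Fintype T] {χ : T → ℂ} (h : IsIrr χ) : IrrOn (⊤ : Subgroup T) χ :=
  ⟨h.comp_mulEquiv Subgroup.topEquiv, fun x hx => absurd (Subgroup.mem_top x) hx⟩

/-- Elements of order prime to `ℓ` lift to elements of order prime to `ℓ`. -/
theorem exists_lift {T T' : Type} [Group T] [Finite T] [Group T'] [Finite T'] (q : T →* T')
    (hq : Function.Surjective q) (ℓ : ℕ) [hp : Fact ℓ.Prime] (g' : T') (hg' : ¬ ℓ ∣ orderOf g') :
    ∃ g : T, q g = g' ∧ ¬ ℓ ∣ orderOf g := by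
  obtain ⟨g₀, rfl⟩ := hq g'
  obtain ⟨a, m, hm, hn⟩ := Nat.exists_eq_pow_mul_and_not_dvd (orderOf_pos g₀).ne' ℓ
    hp.out.one_lt.ne'
  have hcop : Nat.Coprime (orderOf (q g₀)) (ℓ ^ a) :=
    (Nat.Coprime.pow_left a ((Nat.Prime.coprime_iff_not_dvd hp.out).mpr hg')).symm
  obtain ⟨k, hk1, hk2⟩ := Nat.chineseRemainder hcop 1 0
  refine ⟨g₀ ^ k, ?_, ?_⟩
  · rw [map_pow]
    calc q g₀ ^ k = q g₀ ^ 1 := pow_eq_pow_iff_modEq.mpr hk1
      _ = q g₀ := pow_one _
  · intro h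
    apply hm
    have h1 : ℓ ^ a ∣ k := (Nat.modEq_zero_iff_dvd).mp hk2
    obtain ⟨c, rfl⟩ := h1
    have h2 : (g₀ ^ (ℓ ^ a * c)) ^ m = 1 := by
      rw [← pow_mul]
      have h3 : ℓ ^ a * c * m = orderOf g₀ * c := by
        rw [hn]
        ring
      rw [h3, pow_mul, pow_orderOf_eq_one, one_pow]
    exact h.trans (orderOf_dvd_of_pow_eq_one h2)

/-- The number of the conjugates of `g` in a coset of a central subgroup is prime to `ℓ`. -/
theorem card_fib {T T' : Type} [Group T] [Finite T] [Group T'] (q : T →* T')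
    (hz : q.ker ≤ Subgroup.center T) (ℓ : ℕ) [hp : Fact ℓ.Prime] (g : T)
    (hg : ¬ ℓ ∣ orderOf g) : ¬ ℓ ∣ Nat.card {y : T // IsConj y g ∧ q y = q g} := by
  have hc : ∀ u ∈ q.ker, ∀ x : T, x * u = u * x := fun u hu x =>
    (Subgroup.mem_center_iff.mp (hz hu)) x
  let V : Subgroup T :=
    { carrier := {u | u ∈ q.ker ∧ IsConj g (g * u)}
      one_mem' := by
        refine ⟨q.ker.one_mem, ?_⟩
        rw [mul_one]
      mul_mem' := by
        rintro u v ⟨hu, hu'⟩ ⟨hv, hv'⟩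
        refine ⟨q.ker.mul_mem hu hv, ?_⟩
        obtain ⟨x, hx⟩ := isConj_iff.mp hu'
        obtain ⟨y, hy⟩ := isConj_iff.mp hv'
        rw [isConj_iff]
        refine ⟨x * y, ?_⟩
        calc x * y * g * (x * y)⁻¹ = x * (y * g * y⁻¹) * x⁻¹ := by group
          _ = x * (g * v) * x⁻¹ := by rw [hy]
          _ = x * g * (v * x⁻¹) := by group
          _ = x * g * (x⁻¹ * v) := by rw [hc v hv x⁻¹]
          _ = x * g * x⁻¹ * v := by group
          _ = g * (u * v) := by rw [hx, mul_assoc]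
      inv_mem' := by
        rintro u ⟨hu, hu'⟩
        refine ⟨q.ker.inv_mem hu, ?_⟩
        obtain ⟨x, hx⟩ := isConj_iff.mp hu'
        rw [isConj_iff]
        refine ⟨x⁻¹, ?_⟩
        have h1 : g = x⁻¹ * (g * u) * x := by
          rw [← hx]
          group
        have h2 : x⁻¹ * g * x * u = g := by
          calc x⁻¹ * g * x * u = x⁻¹ * g * (x * u) := by group
            _ = x⁻¹ * g * (u * x) := by rw [hc u hu x]
            _ = x⁻¹ * (g * u) * x := by group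
            _ = g := h1.symm
        rw [inv_inv]
        exact eq_mul_inv_of_mul_eq h2 }
  have hcard : Nat.card {y : T // IsConj y g ∧ q y = q g} = Nat.card V := by
    refine Nat.card_congr ⟨fun y => ⟨g⁻¹ * y.1, ?_, ?_⟩, fun u => ⟨g * u.1, ?_, ?_⟩, ?_, ?_⟩
    · rw [MonoidHom.mem_ker, map_mul, map_inv, y.2.2, inv_mul_cancel]
    · rw [mul_inv_cancel_left]
      exact y.2.1.symm
    · exact u.2.2.symm
    · rw [map_mul, MonoidHom.mem_ker.mp u.2.1, mul_one]
    · intro y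
      apply Subtype.ext
      exact mul_inv_cancel_left g y.1
    · intro u
      apply Subtype.ext
      exact inv_mul_cancel_left g u.1
  rw [hcard]
  intro h
  obtain ⟨u, hu⟩ := exists_prime_orderOf_dvd_card' ℓ h
  have hu1 : orderOf (u : T) = ℓ := by
    rw [← hu]
    exact Subgroup.orderOf_coe u
  apply hg
  have h1 : Commute g (u : T) := hc _ u.2.1 g
  obtain ⟨x, hx⟩ := isConj_iff.mp u.2.2
  have h2 : (g * (u : T)) ^ orderOf g = 1 := by
    rw [← hx, conj_pow, pow_orderOf_eq_one]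
    group
  rw [h1.mul_pow, pow_orderOf_eq_one, one_mul] at h2
  rw [← hu1]
  exact orderOf_dvd_of_pow_eq_one h2

/-- A number prime to `ℓ` is not zero in the residue field. -/
theorem natCast_ne_zero (𝔐 : Ideal (integralClosure ℤ ℂ)) (hmax : 𝔐.IsMaximal) {ℓ : ℕ}
    [hp : Fact ℓ.Prime] (hℓ : (ℓ : integralClosure ℤ ℂ) ∈ 𝔐) (n : ℕ) (hn : ¬ ℓ ∣ n) :
    ((n : ℕ) : (integralClosure ℤ ℂ) ⧸ 𝔐) ≠ 0 := by
  intro h
  have h1 : ((ℓ : ℕ) : (integralClosure ℤ ℂ) ⧸ 𝔐) = 0 := by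
    rw [← map_natCast (Ideal.Quotient.mk 𝔐)]
    exact Ideal.Quotient.eq_zero_iff_mem.mpr hℓ
  have hcop : IsCoprime (ℓ : ℤ) (n : ℤ) :=
    Nat.isCoprime_iff_coprime.mpr ((Nat.Prime.coprime_iff_not_dvd hp.out).mpr hn)
  obtain ⟨a, b, hab⟩ := hcop
  have h2 : (((a * ℓ + b * n : ℤ)) : (integralClosure ℤ ℂ) ⧸ 𝔐) = 1 := by
    rw [hab, Int.cast_one]
  rw [Int.cast_add, Int.cast_mul, Int.cast_mul, Int.cast_natCast, Int.cast_natCast, h1, h,
    mul_zero, mul_zero, add_zero] at h2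
  have h3 : Nontrivial ((integralClosure ℤ ℂ) ⧸ 𝔐) := Ideal.Quotient.nontrivial_iff.mpr hmax.ne_top
  exact zero_ne_one h2

end QMI

open _root_.Pool.Agent.DPK.QMI in
/-- QMI. -/
theorem QMI_thm (h1 : Stmt_OSR) (h2 : Stmt_QMF) : Stmt_QMI := by
  intro T T' _ _ _ _ 𝔐 ℓ _ hmax hℓ q hq hz χ₁ χ₂ hχ₁ hχ₂ heq
  have hprime : 𝔐.IsPrime := hmax.isPrime
  apply h1 T' 𝔐 ℓ hmax hℓ χ₁ χ₂ hχ₁ hχ₂
  intro g' hg'
  obtain ⟨g, rfl, hg⟩ := exists_lift q hq ℓ g' hg'
  have e1 := h2 T T' 𝔐 hmax q hq ⊤ χ₁ (irrOn_top hχ₁) g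
  have e2 := h2 T T' 𝔐 hmax q hq ⊤ χ₂ (irrOn_top hχ₂) g
  rw [cgT_top, cgT_top] at e1 e2
  have e3 := congrFun heq g
  rw [e1, e2] at e3
  exact mul_left_cancel₀ (natCast_ne_zero 𝔐 hmax hℓ _ (card_fib q hz ℓ g hg)) e3

end Pool.Agent.DPK


end

section

/-!
# QMF: the central function of an inflation
-/

namespace Pool.Agent.DPK

open Pool.Agent.DP Pool.Agent.DPC Pool.Agent.DPM Pool.Agent.DPN Pool.Agent.DPT Pool.Agent.DPF
open Pool.Agent.Lib_helper13
open Representation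

namespace QMF

variable {L L' : Type} [Group L] [Fintype L] [Group L'] [Fintype L'] {q : L →* L'}

open Classical in
theorem sum_fib (g : L) :
    ∑ y : L, (if q y = q g then conjInd y g else 0) =
      ((Nat.card {y : L // IsConj y g ∧ q y = q g} : ℕ) : ℂ) := by
  rw [Nat.card_eq_fintype_card, Fintype.card_subtype, Finset.card_filter, Nat.cast_sum]
  refine Finset.sum_congr rfl fun y _ => ?_
  rw [conjInd]
  by_cases h1 : q y = q g
  · by_cases h2 : IsConj y g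
    · rw [if_pos h1, if_pos h2, if_pos ⟨h2, h1⟩, Nat.cast_one]
    · rw [if_pos h1, if_neg h2, if_neg (fun h => h2 h.1), Nat.cast_zero]
  · rw [if_neg h1, if_neg (fun h => h1 h.2), Nat.cast_zero]

open Classical in
theorem sum_fib' (hq : Function.Surjective q) (g : L) (x' : L') :
    ∑ x : L, (if q x = x' then conjInd x g else 0) =
      ((Nat.card {y : L // IsConj y g ∧ q y = q g} : ℕ) : ℂ) * conjInd x' (q g) := by
  by_cases h : IsConj x' (q g)
  · obtain ⟨c, hc⟩ := isConj_iff.mp h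
    obtain ⟨h0, rfl⟩ := hq c
    have h1 : conjInd x' (q g) = 1 := by
      rw [conjInd, if_pos h]
    rw [h1, mul_one, ← sum_fib]
    refine Fintype.sum_equiv (MulAut.conj h0).toEquiv _ _ fun x => ?_
    have h2 : (MulAut.conj h0).toEquiv x = h0 * x * h0⁻¹ := rfl
    rw [h2, conjInd_conj]
    by_cases h3 : q x = x'
    · rw [if_pos h3, if_pos]
      rw [map_mul, map_mul, map_inv, h3, hc]
    · rw [if_neg h3, if_neg]
      intro h4
      apply h3
      rw [← hc, map_mul, map_mul, map_inv] at h4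
      exact mul_left_cancel (mul_right_cancel h4)
  · have h1 : conjInd x' (q g) = 0 := by
      rw [conjInd, if_neg h]
    rw [h1, mul_zero]
    refine Finset.sum_eq_zero fun x _ => ?_
    by_cases h3 : q x = x'
    · rw [if_pos h3, conjInd, if_neg]
      intro h4
      apply h
      rw [← h3]
      obtain ⟨c, hc⟩ := isConj_iff.mp h4
      exact isConj_iff.mpr ⟨q c, by rw [← map_inv, ← map_mul, ← map_mul, hc]⟩
    · rw [if_neg h3]

theorem sum_eq (hq : Function.Surjective q) (ψ : L' → ℂ) (g : L) :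
    ∑ x, conjInd x g * ψ (q x) =
      ((Nat.card {y : L // IsConj y g ∧ q y = q g} : ℕ) : ℂ) *
        ∑ x', conjInd x' (q g) * ψ x' := by
  classical
  have h1 : ∀ x : L, conjInd x g * ψ (q x) =
      ∑ x' : L', (if q x = x' then conjInd x g else 0) * ψ x' := by
    intro x
    rw [Finset.sum_eq_single (q x)]
    · rw [if_pos rfl]
    · intro y _ hy
      rw [if_neg (Ne.symm hy), zero_mul]
    · intro hn
      exact absurd (Finset.mem_univ _) hn
  rw [Finset.sum_congr rfl fun x _ => h1 x, Finset.sum_comm, Finset.mul_sum]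
  refine Finset.sum_congr rfl fun x' _ => ?_
  rw [← Finset.sum_mul, sum_fib' hq, mul_assoc]

end QMF

/-- QMF: the central function of an inflation. -/
theorem QMF_thm : Stmt_QMF := by
  classical
  intro L L' _ _ _ _ 𝔐 hmax q hq S ψ hψ g
  haveI : 𝔐.IsPrime := hmax.isPrime
  haveI : Fintype S := Fintype.ofFinite _
  rw [cgT, cgT]
  have e1 : ∀ x g : L, cjT (⊤ : Subgroup L) x g = conjInd x g := fun x g => STB.cjT_top x g
  have e2 : ∀ x g : L', cjT (⊤ : Subgroup L') x g = conjInd x g := fun x g => STB.cjT_top x g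
  simp only [e1, e2, map_one]
  rw [QMF.sum_eq hq, mul_div_assoc]
  have h1 : (∑ x, conjInd x (q g) * ψ x) / ψ 1 =
      wt (fun s : S => ψ s) (fun s : S => conjInd (s : L') (q g)) := by
    rw [wt]
    congr 1
    symm
    rw [← Finset.sum_filter_of_ne (p := fun x => x ∈ S)]
    · exact (Finset.sum_subtype (Finset.univ.filter fun x => x ∈ S) (by simp)
        (fun x => conjInd x (q g) * ψ x)).symm
    · intro x _ hx
      by_contra h
      exact hx (by rw [hψ.2 x h, mul_zero])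
  rw [h1, red_natCast_mul, nsmul_eq_mul]
  refine isIntegral_wt hψ.1 (fun s : S => conjInd (s : L') (q g)) (fun a x => ?_)
    (fun x => isIntegral_conjInd (x : L') (q g))
  rw [Subgroup.coe_mul, Subgroup.coe_mul, Subgroup.coe_inv, conjInd_conj]

end Pool.Agent.DPK


end

section

/-!
# QMC: stability for the quotient
-/

set_option autoImplicit false

namespace Pool.Agent.DPK

open Pool.Agent.DP Pool.Agent.DPC Pool.Agent.DPM Pool.Agent.DPN Pool.Agent.DPT Pool.Agent.DPF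
open Pool.Agent.Lib_helper13
open Representation

namespace QMC

variable {G : Type} [Group G]

/-- Sums of functions which vanish outside a subgroup. -/
theorem sum_sub [Fintype G] (S : Subgroup G) [Fintype S] (F : G → ℂ)
    (h : ∀ x, x ∉ S → F x = 0) : ∑ y : S, F y = ∑ x, F x := by
  classical
  rw [← Finset.sum_subtype (Finset.univ.filter (· ∈ S)) (p := (· ∈ S)) (by simp) F]
  refine Finset.sum_subset (Finset.subset_univ _) fun x _ hx => h x fun hx' => hx ?_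
  exact Finset.mem_filter.mpr ⟨Finset.mem_univ x, hx'⟩

theorem sc_eq [Fintype G] (𝔐 : Ideal (integralClosure ℤ ℂ)) (S : Subgroup G) [Fintype S]
    (f : G → ℂ) (u : G → ℤ) (h : ∀ x, x ∉ S → f x = 0) :
    DPG.sc 𝔐 f u = red 𝔐 (wt (fun y : S => f y) (fun y : S => ((u y : ℤ) : ℂ))) := by
  rw [DPG.sc, wt]
  congr 2
  exact (sum_sub S (fun x => ((u x : ℤ) : ℂ) * f x) fun x hx => by rw [h x hx, mul_zero]).symm

theorem sc_conj [Fintype G] (𝔐 : Ideal (integralClosure ℤ ℂ)) (f : G → ℂ) (u : G → ℤ) (l : G) :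
    DPG.sc 𝔐 f (fun x => u (l * x * l⁻¹)) = DPG.sc 𝔐 (fun x => f (l⁻¹ * x * l)) u := by
  rw [DPG.sc, DPG.sc]
  have h1 : l⁻¹ * 1 * l = 1 := by group
  rw [h1]
  congr 2
  refine Fintype.sum_equiv (MulAut.conj l).toEquiv _ _ fun x => ?_
  have h2 : (MulAut.conj l).toEquiv x = l * x * l⁻¹ := rfl
  have h3 : l⁻¹ * (l * x * l⁻¹) * l = x := by group
  rw [h2, h3]

/-- The central function on a subgroup. -/
theorem cen_eq [Fintype G] (𝔐 : Ideal (integralClosure ℤ ℂ)) (S : Subgroup G) [Fintype S]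
    (f : G → ℂ) (h : ∀ x, x ∉ S → f x = 0) (g : S) :
    cen 𝔐 (MonoidHom.id S) (fun y : S => f y) g = DPG.sc 𝔐 f (clO S (g : G)) := by
  rw [sc_eq 𝔐 S f _ h, cen]
  congr 2
  funext y
  have h1 : (∃ o ∈ S, (y : G) = o * (g : G) * o⁻¹) ↔ IsConj (MonoidHom.id S y) g := by
    rw [MonoidHom.id_apply, isConj_comm, isConj_iff]
    constructor
    · rintro ⟨o, ho, h⟩
      exact ⟨⟨o, ho⟩, Subtype.ext h.symm⟩
    · rintro ⟨o, ho⟩
      refine ⟨o, o.2, ?_⟩
      rw [← ho]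
      rfl
  rw [conjInd, clO]
  by_cases hc : ∃ o ∈ S, (y : G) = o * (g : G) * o⁻¹
  · rw [if_pos hc, if_pos (h1.mp hc), Int.cast_one]
  · rw [if_neg hc, if_neg fun h2 => hc (h1.mpr h2), Int.cast_zero]

theorem clO_inv (S : Subgroup G) (g : G) : DPG.CIv S (clO S g) := by
  intro s hs x
  rw [clO, clO]
  have h1 : (∃ o ∈ S, s * x * s⁻¹ = o * g * o⁻¹) ↔ ∃ o ∈ S, x = o * g * o⁻¹ := by
    constructor
    · rintro ⟨o, ho, h⟩
      refine ⟨s⁻¹ * o, S.mul_mem (S.inv_mem hs) ho, ?_⟩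
      calc x = s⁻¹ * (s * x * s⁻¹) * s := by group
        _ = s⁻¹ * o * g * (s⁻¹ * o)⁻¹ := by
          rw [h]
          group
    · rintro ⟨o, ho, rfl⟩
      refine ⟨s * o, S.mul_mem hs ho, ?_⟩
      group
  by_cases hc : ∃ o ∈ S, x = o * g * o⁻¹
  · rw [if_pos hc, if_pos (h1.mpr hc)]
  · rw [if_neg hc, if_neg fun h2 => hc (h1.mp h2)]

theorem clO_on (S : Subgroup G) {g : G} (hg : g ∈ S) : DPG.SOn (S : Set G) (clO S g) := by
  intro x hx
  rw [clO, if_neg]
  rintro ⟨o, ho, rfl⟩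
  exact hx (S.mul_mem (S.mul_mem ho hg) (S.inv_mem ho))

/-- Conjugation by an element of the whole group on a normal subgroup. -/
theorem irr_conj (S : Subgroup G) [Finite G] (hS : S.Normal) {f : G → ℂ} (hf : IrrOn S f) (l : G) :
    IrrOn S (fun x => f (l⁻¹ * x * l)) := by
  refine ⟨?_, ?_⟩
  · have h1 := hf.1.comp_mulEquiv (MulAut.conjNormal (H := S) l⁻¹)
    have h2 : (fun s : S => f s) ∘ (MulAut.conjNormal (H := S) l⁻¹) =
        fun s : S => f (l⁻¹ * s * l) := by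
      funext s
      rw [Function.comp_apply, MulAut.conjNormal_apply, inv_inv]
    rw [h2] at h1
    exact h1
  · intro x hx
    apply hf.2
    intro h
    apply hx
    have h1 := hS.conj_mem _ h l
    have h2 : l * (l⁻¹ * x * l) * l⁻¹ = x := by group
    rwa [h2] at h1

end QMC

open _root_.Pool.Agent.DPK.QMC in
/-- QMC. -/
theorem QMC_thm (h1 : Stmt_QMB) (h2 : Stmt_QMI) : Stmt_QMC := by
  intro L L' K _ _ _ _ _ _ 𝔐 ℓ _ hmax hℓ q π' hq _ hz μ μ' hμ N M hN hNM ω ω' hrel hstb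
    f' hf' u' hu' hsu' l'
  classical
  obtain ⟨l, rfl⟩ := hq l'
  have hf := h1 L L' K 𝔐 hmax q π' hq μ μ' hμ N M hNM ω ω' hrel f' hf'
  have hS : (N.comap π').Normal := hN.comap π'
  have hirr1 : IrrOn (N.comap π') f' := hf'.1
  have hirr2 : IrrOn (N.comap π') (fun x => f' ((q l)⁻¹ * x * q l)) :=
    irr_conj (N.comap π') hS hirr1 (q l)
  have hcen : cen 𝔐 (MonoidHom.id ↥((N.comap π').comap q))
      (fun y => (fun s : N.comap π' => f' ((q l)⁻¹ * s * q l)) (MLE.kT q (N.comap π') y)) =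
      cen 𝔐 (MonoidHom.id ↥((N.comap π').comap q))
      (fun y => (fun s : N.comap π' => f' s) (MLE.kT q (N.comap π') y)) := by
    funext g
    have e1 := cen_eq 𝔐 ((N.comap π').comap q) (fun x => f' ((q l)⁻¹ * q x * q l))
      (fun x hx => hirr2.2 (q x) hx) g
    have e2 := cen_eq 𝔐 ((N.comap π').comap q) (fun x => f' (q x))
      (fun x hx => hirr1.2 (q x) hx) g
    have e3 := hstb _ hf (clO ((N.comap π').comap q) (g : L)) (clO_inv _ _) (clO_on _ g.2) l
    rw [sc_conj] at e3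
    have e4 : (fun x => f' (q (l⁻¹ * x * l))) = fun x => f' ((q l)⁻¹ * q x * q l) := by
      funext x
      rw [map_mul, map_mul, map_inv]
    have e5 : DPG.sc 𝔐 (fun x => f' ((q l)⁻¹ * q x * q l)) (clO ((N.comap π').comap q) (g : L)) =
        DPG.sc 𝔐 (fun x => f' (q x)) (clO ((N.comap π').comap q) (g : L)) := by
      rw [← e4]
      exact e3
    exact (e1.trans e5).trans e2.symm
  have hker : (MLE.kT q (N.comap π')).ker ≤ Subgroup.center ↥((N.comap π').comap q) := by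
    intro y hy
    have hy' : q (y : L) = 1 := MLE.mem_ker_kT.mp hy
    have hy2 : (y : L) ∈ Subgroup.center L := hz (by
      rw [MonoidHom.mem_ker, MonoidHom.comp_apply, hy', map_one])
    rw [Subgroup.mem_center_iff]
    intro x
    exact Subtype.ext (Subgroup.mem_center_iff.mp hy2 x)
  have hcen' := h2 ↥((N.comap π').comap q) ↥(N.comap π') 𝔐 ℓ hmax hℓ (MLE.kT q (N.comap π'))
    (MLE.kT_surj (fun x _ => hq x)) hker _ _ hirr2.1 hirr1.1 hcen
  rw [sc_conj, sc_eq 𝔐 (N.comap π') _ _ hirr2.2, sc_eq 𝔐 (N.comap π') _ _ hirr1.2]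
  have hcl : ∀ g x : N.comap π', ((u' (g * x * g⁻¹ : N.comap π') : ℤ) : ℂ) =
      ((u' x : ℤ) : ℂ) := by
    intro g x
    have h3 := hu' g g.2 x
    exact congrArg (fun t : ℤ => (t : ℂ)) h3
  have hint : ∀ x : N.comap π', IsIntegral ℤ ((u' x : ℤ) : ℂ) := fun x =>
    isIntegral_algebraMap (R := ℤ) (A := ℂ) (x := u' x)
  have p1 := red_wt_eq_pair 𝔐 (MonoidHom.id ↥(N.comap π')) hirr2.1
    (fun y : N.comap π' => ((u' y : ℤ) : ℂ)) hcl hint
  have p2 := red_wt_eq_pair 𝔐 (MonoidHom.id ↥(N.comap π')) hirr1.1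
    (fun y : N.comap π' => ((u' y : ℤ) : ℂ)) hcl hint
  refine (Eq.trans ?_ p1).trans ((congrArg (pair 𝔐 _) hcen').trans (Eq.trans p2.symm ?_))
  · rfl
  · rfl

end Pool.Agent.DPK


end

section

/-!
# Dade's conjecture for the groups of a class: the support for the quotient
-/

namespace Pool.Agent.DPK.QMD

open Pool.Agent.DP Pool.Agent.DPC Pool.Agent.DPM Pool.Agent.DPN Pool.Agent.DPT Pool.Agent.DPF
open Pool.Agent.Lib_helper13
open Representation

variable {L L' : Type} [Group L] [Fintype L] [Group L'] [Fintype L']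

open Classical in
/-- The sums over the fibres. -/
noncomputable def pz (q : L →* L') (u : L → ℤ) (x : L') : ℤ := ∑ y : L, if q y = x then u y else 0

theorem pz_conv (q : L →* L') (u v : L → ℤ) : conv (pz q u) (pz q v) = pz q (conv u v) := by
  classical
  funext x
  have h1 : conv (pz q u) (pz q v) x =
      ∑ y : L, ∑ z : L, if q y * q z = x then u y * v z else 0 := by
    unfold conv pz
    have : ∀ y' : L', (∑ y : L, if q y = y' then u y else 0) *
        (∑ z : L, if q z = y'⁻¹ * x then v z else 0) =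
        ∑ y : L, if q y = y' then (∑ z : L, if q y * q z = x then u y * v z else 0) else 0 := by
      intro y'
      rw [Finset.sum_mul]
      refine Finset.sum_congr rfl fun y _ => ?_
      by_cases h : q y = y'
      · rw [if_pos h, if_pos h, Finset.mul_sum]
        refine Finset.sum_congr rfl fun z _ => ?_
        have : (q z = y'⁻¹ * x) ↔ (q y * q z = x) := by
          rw [h]
          constructor
          · intro h2
            rw [h2]
            group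
          · intro h2
            rw [← h2]
            group
        by_cases h3 : q y * q z = x
        · rw [if_pos h3, if_pos (this.mpr h3)]
        · rw [if_neg h3, if_neg (fun h4 => h3 (this.mp h4)), mul_zero]
      · rw [if_neg h, if_neg h, zero_mul]
    rw [Finset.sum_congr rfl fun y' _ => this y', Finset.sum_comm]
    refine Finset.sum_congr rfl fun y _ => ?_
    rw [Finset.sum_ite_eq]
    simp
  have h2 : pz q (conv u v) x = ∑ y : L, ∑ z : L, if q y * q z = x then u y * v z else 0 := by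
    unfold conv pz
    have : ∀ w : L, (if q w = x then ∑ y : L, u y * v (y⁻¹ * w) else 0) =
        ∑ y : L, if q w = x then u y * v (y⁻¹ * w) else 0 := by
      intro w
      by_cases h : q w = x
      · simp [h]
      · simp [h]
    rw [Finset.sum_congr rfl fun w _ => this w, Finset.sum_comm]
    refine Finset.sum_congr rfl fun y _ => ?_
    rw [← Equiv.sum_comp (Equiv.mulLeft y)]
    refine Finset.sum_congr rfl fun z _ => ?_
    simp
  rw [h1, h2]

theorem sc_pz (𝔐 : Ideal (integralClosure ℤ ℂ)) (q : L →* L') (u : L → ℤ) (f : L' → ℂ) :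
    DPG.sc 𝔐 f (pz q u) = DPG.sc 𝔐 (fun x => f (q x)) u := by
  classical
  unfold DPG.sc
  have : (∑ x : L', ((pz q u x : ℤ) : ℂ) * f x) = ∑ x : L, ((u x : ℤ) : ℂ) * f (q x) := by
    unfold pz
    have h : ∀ x : L', (((∑ y : L, if q y = x then u y else 0 : ℤ)) : ℂ) * f x =
        ∑ y : L, if q y = x then ((u y : ℤ) : ℂ) * f (q y) else 0 := by
      intro x
      rw [Int.cast_sum, Finset.sum_mul]
      refine Finset.sum_congr rfl fun y _ => ?_
      by_cases h : q y = x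
      · rw [if_pos h, if_pos h, h]
      · rw [if_neg h, if_neg h]
        simp
    rw [Finset.sum_congr rfl fun x _ => h x, Finset.sum_comm]
    refine Finset.sum_congr rfl fun y _ => ?_
    rw [Finset.sum_ite_eq]
    simp
  rw [this]
  simp

theorem pz_inv (q : L →* L') (hq : Function.Surjective q) (S : Subgroup L') (u : L → ℤ)
    (hu : DPG.CIv (S.comap q) u) : DPG.CIv S (pz q u) := by
  classical
  intro s hs x
  obtain ⟨n, rfl⟩ := hq s
  unfold pz
  rw [← Equiv.sum_comp (MulAut.conj n).toEquiv]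
  refine Finset.sum_congr rfl fun y _ => ?_
  have h1 : (MulAut.conj n).toEquiv y = n * y * n⁻¹ := rfl
  rw [h1, hu n hs y]
  have h2 : (q (n * y * n⁻¹) = q n * x * (q n)⁻¹) ↔ q y = x := by
    rw [map_mul, map_mul, map_inv]
    constructor
    · intro h
      exact mul_left_cancel (mul_right_cancel h)
    · intro h
      rw [h]
  by_cases h3 : q y = x
  · rw [if_pos h3, if_pos (h2.mpr h3)]
  · rw [if_neg h3, if_neg (fun h => h3 (h2.mp h))]

theorem pz_supp (q : L →* L') (u : L → ℤ) (S : Set L) (S' : Set L')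
    (hS : ∀ x ∈ S, q x ∈ S') (hu : DPG.SOn S u) : DPG.SOn S' (pz q u) := by
  classical
  intro x hx
  unfold pz
  refine Finset.sum_eq_zero fun y _ => ?_
  by_cases h : q y = x
  · rw [if_pos h]
    refine hu y fun hy => hx ?_
    rw [← h]
    exact hS y hy
  · rw [if_neg h]

end Pool.Agent.DPK.QMD

namespace Pool.Agent.DPK

open Pool.Agent.DP Pool.Agent.DPC Pool.Agent.DPM Pool.Agent.DPN Pool.Agent.DPT Pool.Agent.DPF
open Pool.Agent.Lib_helper13
open Representation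

theorem QMD_thm (h1 : Stmt_QMB) : Stmt_QMD := by
  intro L L' K _ _ _ _ _ _ 𝔐 hM q π' hq μ μ' hμ N M hN hNM ω ω' hrel hspp f' hf' x' hx'
  obtain ⟨x, rfl⟩ := hq x'
  have hf := h1 L L' K 𝔐 hM q π' hq μ μ' hμ N M hNM ω ω' hrel f' hf'
  obtain ⟨u, v, hu, hv, hu', hv', hne⟩ := hspp _ hf x hx'
  refine ⟨QMD.pz q u, QMD.pz q v, QMD.pz_inv q hq _ u hu, QMD.pz_inv q hq _ v hv,
    QMD.pz_supp q u _ _ ?_ hu', QMD.pz_supp q v _ _ ?_ hv', ?_⟩
  · intro y hy
    change π' ((q x)⁻¹ * q y) ∈ N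
    rw [← map_inv, ← map_mul]
    exact hy
  · intro y hy
    change π' (q x * q y) ∈ N
    rw [← map_mul]
    exact hy
  · rw [QMD.pz_conv, QMD.sc_pz]
    exact hne

end Pool.Agent.DPK


end

section

/-!
# BSA: stability of the blocks of the image of a normal subgroup
-/

namespace Pool.Agent.DPK

open Pool.Agent.DP Pool.Agent.DPC Pool.Agent.DPM Pool.Agent.DPN Pool.Agent.DPT Pool.Agent.DPF
open Pool.Agent.Lib_helper13
open Representation

namespace BSA

variable {X : Type} [Group X] [Fintype X]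

/-- The sum over the group is the weight of the restriction to `N`. -/
theorem sc_eq (𝔐 : Ideal (integralClosure ℤ ℂ)) (N : Subgroup X) {f : X → ℂ}
    (h : ∀ x, x ∉ N → f x = 0) (u : X → ℤ) :
    Pool.Agent.DPG.sc 𝔐 f u =
      red 𝔐 (wt (fun s : N => f s) (fun s : N => ((u (s : X) : ℤ) : ℂ))) := by
  classical
  have h1 : ∑ x : X, ((u x : ℤ) : ℂ) * f x = ∑ s : N, ((u (s : X) : ℤ) : ℂ) * f s := by
    symm
    refine Fintype.sum_of_injective (fun s : N => (s : X)) Subtype.val_injective _ _ ?_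
      (fun s => rfl)
    intro x hx
    rw [h x (fun h2 => hx ⟨⟨x, h2⟩, rfl⟩), mul_zero]
  rw [Pool.Agent.DPG.sc, wt, h1]
  rfl

omit [Fintype X] in
/-- Conjugacy in `N`. -/
theorem conjInd_eq (N : Subgroup X) (s g : N) :
    conjInd s g = cjT N (s : X) (g : X) := by
  classical
  rw [cjT, conjInd]
  refine STB.ite_eq ?_
  constructor
  · intro h
    obtain ⟨t, ht⟩ := isConj_iff.mp h.symm
    exact ⟨t, t.2, by rw [← ht]; rfl⟩
  · rintro ⟨t, ht, h⟩
    refine (isConj_iff.mpr ⟨⟨t, ht⟩, ?_⟩ : IsConj g s).symm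
    apply Subtype.ext
    exact h.symm

/-- The central function on the group `N`. -/
theorem cen_eq (𝔐 : Ideal (integralClosure ℤ ℂ)) (N : Subgroup X) {f : X → ℂ}
    (h : ∀ x, x ∉ N → f x = 0) (g : N) :
    cen 𝔐 (MonoidHom.id N) (fun s : N => f s) g = cgT 𝔐 N f (g : X) := by
  rw [STB.cgT_eq 𝔐 N N h, cen]
  congr 2
  funext s
  exact conjInd_eq N s g

/-- The scalar of an invariant function is determined by the central function. -/
theorem sc_pair (𝔐 : Ideal (integralClosure ℤ ℂ)) (N : Subgroup X) {f : X → ℂ}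
    (h : IrrOn N f) {u : X → ℤ} (hu : ∀ s ∈ N, ∀ x, u (s * x * s⁻¹) = u x) :
    Pool.Agent.DPG.sc 𝔐 f u = pair 𝔐 (fun s : N => ((u (s : X) : ℤ) : ℂ))
      (cen 𝔐 (MonoidHom.id N) (fun s : N => f s)) := by
  rw [sc_eq 𝔐 N h.2]
  refine red_wt_eq_pair 𝔐 (MonoidHom.id N) h.1 (fun s : N => ((u (s : X) : ℤ) : ℂ)) ?_ ?_
  · intro g x
    have h1 := hu (g : X) g.2 (x : X)
    change ((u ((g : X) * (x : X) * (g : X)⁻¹) : ℤ) : ℂ) = _
    rw [h1]
  · intro x
    exact isIntegral_algebraMap (R := ℤ) (A := ℂ) (x := u (x : X))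

/-- A conjugate of a character of a normal subgroup. -/
theorem irrOn_conj {N : Subgroup X} [N.Normal] {f : X → ℂ} (h : IrrOn N f) (g : X) :
    IrrOn N (fun x => f (g * x * g⁻¹)) := by
  refine ⟨?_, ?_⟩
  · have h1 := h.1.comp_mulEquiv (MulAut.conjNormal g : MulAut N)
    have h2 : (fun s : N => f s) ∘ (MulAut.conjNormal g : MulAut N) =
        fun s : N => f (g * (s : X) * g⁻¹) := by
      funext s
      change f (((MulAut.conjNormal g : MulAut N) s : N) : X) = _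
      rw [MulAut.conjNormal_apply]
    rw [h2] at h1
    exact h1
  · intro x hx
    refine h.2 _ fun h3 => hx ?_
    have h4 := Subgroup.Normal.conj_mem ‹N.Normal› _ h3 g⁻¹
    have h5 : g⁻¹ * (g * x * g⁻¹) * g⁻¹⁻¹ = x := by group
    rwa [h5] at h4

/-- The scalar of a conjugate of an invariant function. -/
theorem sc_conj (𝔐 : Ideal (integralClosure ℤ ℂ)) {f : X → ℂ} (u : X → ℤ) (l : X) :
    Pool.Agent.DPG.sc 𝔐 f (fun x => u (l * x * l⁻¹)) =
      Pool.Agent.DPG.sc 𝔐 (fun x => f (l⁻¹ * x * l⁻¹⁻¹)) u := by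
  rw [Pool.Agent.DPG.sc, Pool.Agent.DPG.sc]
  have h1 : ∑ x, ((u (l * x * l⁻¹) : ℤ) : ℂ) * f x =
      ∑ x, ((u x : ℤ) : ℂ) * f (l⁻¹ * x * l⁻¹⁻¹) := by
    refine Fintype.sum_equiv (MulAut.conj l).toEquiv _ _ fun x => ?_
    change _ = ((u (l * x * l⁻¹) : ℤ) : ℂ) * f (l⁻¹ * (l * x * l⁻¹) * l⁻¹⁻¹)
    have h2 : l⁻¹ * (l * x * l⁻¹) * l⁻¹⁻¹ = x := by group
    rw [h2]
  rw [h1]
  simp

end BSA

theorem BSA_thm : Stmt_BSA := by
  intro X K _ _ _ _ 𝔐 _ π μ N M hN hk _ ω hO f hf u hu1 _ l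
  have hcm : (N.map π).comap π = N := Subgroup.comap_map_eq_self hk
  rw [Pool.Agent.DPG.Cvd, hcm] at hf
  obtain ⟨hf1, -, hf3⟩ := hf
  have := hN
  have hsx : sx (cgT 𝔐 N f) = ⊤ := by
    refine (hO f hf1 fun x hx => ?_).1
    rw [← hf3 x (Subgroup.mem_map_of_mem π hx), cgT, cg]
    congr 2
    exact Finset.sum_congr rfl fun y _ => by rw [STB.cjT_top]
  have hu : ∀ s ∈ N, ∀ x, u (s * x * s⁻¹) = u x := by
    intro s hs x
    refine hu1 s ?_ x
    rw [hcm]
    exact hs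
  rw [BSA.sc_conj, BSA.sc_pair 𝔐 N (BSA.irrOn_conj hf1 l⁻¹) hu, BSA.sc_pair 𝔐 N hf1 hu]
  congr 1
  funext g
  have h1 : cgT 𝔐 N (fun x => f (l⁻¹ * x * l⁻¹⁻¹)) (g : X) = cgT 𝔐 N f (g : X) := by
    rw [STB.cgT_move]
    have h2 : l⁻¹ ∈ sx (cgT 𝔐 N f) := by
      rw [hsx]
      trivial
    exact mem_sx.mp h2 g
  rw [BSA.cen_eq 𝔐 N hf1.2 g, ← h1]
  exact BSA.cen_eq 𝔐 N (BSA.irrOn_conj hf1 l⁻¹).2 g

end Pool.Agent.DPK


end

section

/-!
# BSB: the support of the blocks of the image of a normal subgroup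
-/

namespace Pool.Agent.DPK

open Pool.Agent.DP Pool.Agent.DPC Pool.Agent.DPM Pool.Agent.DPN Pool.Agent.DPT Pool.Agent.DPF
open Pool.Agent.Lib_helper13
open Representation

namespace BSB

variable {X : Type} [Group X] [Fintype X]

/-- The sum over the group is the sum over `N`. -/
theorem sc_eq (𝔐 : Ideal (integralClosure ℤ ℂ)) (N : Subgroup X) {f : X → ℂ}
    (h : ∀ x, x ∉ N → f x = 0) (u : X → ℤ) :
    Pool.Agent.DPG.sc 𝔐 f u = red 𝔐 (wS N f (fun z => ((u z : ℤ) : ℂ))) := by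
  classical
  have h1 : ∑ x : X, ((u x : ℤ) : ℂ) * f x = ∑ s : N, ((u (s : X) : ℤ) : ℂ) * f s := by
    symm
    refine Fintype.sum_of_injective (fun s : N => (s : X)) Subtype.val_injective _ _ ?_
      (fun s => rfl)
    intro x hx
    rw [h x (fun h2 => hx ⟨⟨x, h2⟩, rfl⟩), mul_zero]
  rw [Pool.Agent.DPG.sc, wS, wt, h1]
  rfl

end BSB

theorem BSB_thm : Stmt_BSB := by
  intro X K _ _ _ _ 𝔐 _ π μ N M _ hk hNM ω hO f hf x hx
  have hcm : (N.map π).comap π = N := Subgroup.comap_map_eq_self hk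
  have hcM : (M.map π).comap π = M := Subgroup.comap_map_eq_self (hk.trans hNM)
  have hxM : x ∈ M := by
    rw [← hcM]
    exact hx
  have hmem : ∀ y, π y ∈ N.map π ↔ y ∈ N := by
    intro y
    have h : y ∈ (N.map π).comap π ↔ y ∈ N := by rw [hcm]
    exact h
  rw [Pool.Agent.DPG.Cvd, hcm] at hf
  obtain ⟨hf1, -, hf3⟩ := hf
  have h4 : ∀ x ∈ N, cgT 𝔐 ⊤ f x = ω x := by
    intro x hx
    rw [← hf3 x (Subgroup.mem_map_of_mem π hx), cgT, cg]
    congr 2
    exact Finset.sum_congr rfl fun y _ => by rw [STB.cjT_top]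
  obtain ⟨u, v, hu, hv, hsu, hsv, hne⟩ := (hO f hf1 h4).2 x hxM
  refine ⟨u, v, ?_, ?_, ?_, ?_, ?_⟩
  · rw [hcm]
    exact hu
  · rw [hcm]
    exact hv
  · intro z hz
    by_contra h
    exact hz ((hmem _).mpr (hsu z h))
  · intro z hz
    by_contra h
    exact hz ((hmem _).mpr (hsv z h))
  · rw [BSB.sc_eq 𝔐 N hf1.2]
    exact hne

end Pool.Agent.DPK


end

section

/-!
# GRA: the largest normal `ℓ`-subgroup of the quotient by the centre
-/

set_option autoImplicit false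

namespace Pool.Agent.DPK

open Pool.Agent.DP Pool.Agent.DPC Pool.Agent.DPM Pool.Agent.DPN Pool.Agent.DPT Pool.Agent.DPF
open Pool.Agent.Lib_helper13
open Representation
open Pool.Agent.Lib_helper13.Dade (pCore DadeHolds dadeSum)

namespace GRA

theorem val_le {ℓ : ℕ} [Fact ℓ.Prime] {a b : ℕ} (h : a ∣ b) (hb : b ≠ 0) :
    padicValNat ℓ a ≤ padicValNat ℓ b :=
  (padicValNat_dvd_iff_le hb).mp (dvd_trans pow_padicValNat_dvd h)

/-- The `ℓ`-part of the order of a nilpotent normal subgroup. -/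
theorem val_nil {X : Type} [Group X] [Finite X] (ℓ : ℕ) [Fact ℓ.Prime] (M : Subgroup X)
    (hM : M.Normal) (hn : Group.IsNilpotent M) :
    padicValNat ℓ (Nat.card M) ≤ padicValNat ℓ (Nat.card (pCore ℓ X)) := by
  have hprime : ℓ.Prime := Fact.out
  obtain ⟨S⟩ : Nonempty (Sylow ℓ M) := inferInstance
  have hS : (S : Subgroup M).Normal :=
    ((Group.isNilpotent_of_finite_tfae (G := M)).out 0 3 rfl rfl).mp hn ℓ ‹_› S
  have hc : (S : Subgroup M).Characteristic := Sylow.characteristic_of_normal S hS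
  have h1 : ((S : Subgroup M).map M.subtype).Normal := ConjAct.normal_of_characteristic_of_normal
  have h2 : IsPGroup ℓ ((S : Subgroup M).map M.subtype) := S.isPGroup'.map _
  have h3 : (S : Subgroup M).map M.subtype ≤ pCore ℓ X := le_sSup ⟨h1, h2⟩
  have h4 : Nat.card ((S : Subgroup M).map M.subtype) = Nat.card S :=
    (Nat.card_congr ((S : Subgroup M).equivMapOfInjective _ M.subtype_injective).toEquiv).symm
  have h5 := val_le (ℓ := ℓ) (Subgroup.card_dvd_of_le h3) Nat.card_pos.ne'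
  have h6 : padicValNat ℓ (Nat.card S) = padicValNat ℓ (Nat.card M) := by
    rw [S.card_eq_multiplicity, padicValNat.prime_pow, Nat.factorization_def _ hprime]
  rw [h4, h6] at h5
  exact h5

theorem card_eq {X : Type} [Group X] (C M : Subgroup X) (hCM : C ≤ M) :
    Nat.card M = Nat.card C * C.relIndex M := by
  have h1 := Subgroup.card_mul_index (C.subgroupOf M)
  rw [Nat.card_congr (Subgroup.subgroupOfEquivOfLe hCM).toEquiv] at h1
  exact h1.symm

end GRA

theorem GRA_thm : Stmt_GRA := by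
  classical
  intro X K _ _ _ _ ℓ _ π hπ hker hcore
  have hprime : ℓ.Prime := Fact.out
  have hOn : (pCore ℓ K).Normal := pCore_normal ℓ
  have hO : IsPGroup ℓ (pCore ℓ K) := isPGroup_pCore ℓ
  have hYn : ((pCore ℓ K).comap π).Normal := hOn.comap π
  have hk : (π.subgroupComap (pCore ℓ K)).ker ≤ Subgroup.center ↥((pCore ℓ K).comap π) := by
    intro x hx
    have h1 : π (x : X) = 1 := congrArg Subtype.val (MonoidHom.mem_ker.mp hx)
    have h2 : (x : X) ∈ Subgroup.center X := by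
      rw [← hker]
      exact h1
    rw [Subgroup.mem_center_iff] at h2 ⊢
    intro y
    exact Subtype.ext (h2 y)
  have hOnil : Group.IsNilpotent (pCore ℓ K) := hO.isNilpotent
  have hYnil : Group.IsNilpotent ↥((pCore ℓ K).comap π) :=
    Subgroup.isNilpotent_of_ker_le_center _ hk
  have h1 := GRA.val_nil ℓ _ hYn hYnil
  have hZY : π.ker ≤ (pCore ℓ K).comap π := by
    intro x hx
    rw [Subgroup.mem_comap, MonoidHom.mem_ker.mp hx]
    exact one_mem _
  have h2 := GRA.card_eq π.ker ((pCore ℓ K).comap π) hZY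
  have h3 : π.ker.relIndex ((pCore ℓ K).comap π) = Nat.card (pCore ℓ K) := by
    rw [← MonoidHom.comap_bot, Subgroup.relIndex_comap, Subgroup.map_comap_eq_self_of_surjective hπ,
      Subgroup.relIndex_bot_left]
  rw [h3] at h2
  have h4 : pCore ℓ X ≤ π.ker := by
    rw [hker]
    exact hcore
  have h5 := GRA.val_le (ℓ := ℓ) (Subgroup.card_dvd_of_le h4) Nat.card_pos.ne'
  have h6 : padicValNat ℓ (Nat.card ((pCore ℓ K).comap π)) =
      padicValNat ℓ (Nat.card π.ker) + padicValNat ℓ (Nat.card (pCore ℓ K)) := by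
    rw [h2, padicValNat.mul Nat.card_pos.ne' Nat.card_pos.ne']
  obtain ⟨n, hn⟩ := IsPGroup.iff_card.mp hO
  have h7 : padicValNat ℓ (Nat.card (pCore ℓ K)) = n := by
    rw [hn, padicValNat.prime_pow]
  have h8 : n = 0 := by omega
  rw [h8, pow_zero] at hn
  exact Subgroup.card_eq_one.mp hn

end Pool.Agent.DPK


end

section

/-!
# OUI: the index of a normal subgroup and the outer automorphism group
-/

set_option autoImplicit false

namespace Pool.Agent.DPK

open Pool.Agent.DP Pool.Agent.DPC Pool.Agent.DPM Pool.Agent.DPN Pool.Agent.DPT Pool.Agent.DPF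
open Pool.Agent.Lib_helper13
open Representation
open Pool.Agent.Lib_helper13.Dade (pCore DadeHolds dadeSum)

namespace OUI

variable {X : Type} [Group X] (N : Subgroup X)

theorem map_eq (hN : N.Normal) (x : X) :
    ((Subgroup.center X).subgroupOf N).map (MulAut.conjNormal (H := N) x : N ≃* N) =
      (Subgroup.center X).subgroupOf N := by
  ext y
  rw [Subgroup.mem_map]
  constructor
  · rintro ⟨z, hz, rfl⟩
    rw [Subgroup.mem_subgroupOf] at hz ⊢
    have h1 : ((MulAut.conjNormal x z : N) : X) = x * z * x⁻¹ := MulAut.conjNormal_apply x z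
    show ((MulAut.conjNormal x z : N) : X) ∈ Subgroup.center X
    rw [h1]
    exact (inferInstance : (Subgroup.center X).Normal).conj_mem _ hz x
  · intro hy
    rw [Subgroup.mem_subgroupOf] at hy
    refine ⟨y, Subgroup.mem_subgroupOf.mpr hy, ?_⟩
    apply Subtype.ext
    show ((MulAut.conjNormal x y : N) : X) = y
    rw [MulAut.conjNormal_apply, Subgroup.mem_center_iff.mp hy x, mul_inv_cancel_right]

/-- The action of `X` on `N / Z(X)`. -/
noncomputable def act (hN : N.Normal) : X →* MulAut (N ⧸ (Subgroup.center X).subgroupOf N) where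
  toFun x := QuotientGroup.congr _ _ (MulAut.conjNormal (H := N) x : N ≃* N) (map_eq N hN x)
  map_one' := by
    apply MulEquiv.ext
    intro q
    obtain ⟨y, rfl⟩ := QuotientGroup.mk'_surjective _ q
    show QuotientGroup.mk' _ (MulAut.conjNormal (1 : X) y) = QuotientGroup.mk' _ y
    rw [map_one]
    rfl
  map_mul' := by
    intro a b
    apply MulEquiv.ext
    intro q
    obtain ⟨y, rfl⟩ := QuotientGroup.mk'_surjective _ q
    show QuotientGroup.mk' _ (MulAut.conjNormal (a * b) y) =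
      QuotientGroup.mk' _ (MulAut.conjNormal a (MulAut.conjNormal b y))
    rw [map_mul]
    rfl

theorem act_mk (hN : N.Normal) (x : X) (y : N) :
    act N hN x (QuotientGroup.mk y) = QuotientGroup.mk (MulAut.conjNormal (H := N) x y) := rfl

theorem ker_le (hN : N.Normal) (hZ : Subgroup.center X ≤ N)
    (h : ∀ x, (∀ y ∈ N, x * y * x⁻¹ * y⁻¹ ∈ Subgroup.center X) → x ∈ Subgroup.center X) :
    (act N hN).ker ≤ N := by
  intro x hx
  apply hZ
  apply h
  intro y hy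
  have h1 : act N hN x = 1 := hx
  have h2 := act_mk N hN x ⟨y, hy⟩
  rw [h1, MulAut.one_apply, QuotientGroup.eq, Subgroup.mem_subgroupOf] at h2
  have h3 : (((⟨y, hy⟩ : N)⁻¹ * MulAut.conjNormal (H := N) x ⟨y, hy⟩ : N) : X) =
      y⁻¹ * (x * y * x⁻¹) := by
    rw [Subgroup.coe_mul, MulAut.conjNormal_apply]
    rfl
  rw [h3] at h2
  have h4 := (inferInstance : (Subgroup.center X).Normal).conj_mem _ h2 y
  have h5 : y * (y⁻¹ * (x * y * x⁻¹)) * y⁻¹ = x * y * x⁻¹ * y⁻¹ := by group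
  rwa [h5] at h4

theorem map_act (hN : N.Normal) : N.map (act N hN) =
    (MulAut.conj : (N ⧸ (Subgroup.center X).subgroupOf N) →*
      MulAut (N ⧸ (Subgroup.center X).subgroupOf N)).range := by
  have h1 : ∀ n : N, act N hN n = MulAut.conj (n : N ⧸ (Subgroup.center X).subgroupOf N) := by
    intro n
    apply MulEquiv.ext
    intro q
    obtain ⟨y, rfl⟩ := QuotientGroup.mk'_surjective _ q
    have h2 : MulAut.conjNormal (H := N) (n : X) y = n * y * n⁻¹ := by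
      apply Subtype.ext
      rw [MulAut.conjNormal_apply]
      rfl
    show QuotientGroup.mk' _ (MulAut.conjNormal (n : X) y) =
      (n : N ⧸ (Subgroup.center X).subgroupOf N) * QuotientGroup.mk' _ y *
        (n : N ⧸ (Subgroup.center X).subgroupOf N)⁻¹
    rw [h2]
    rfl
  ext f
  rw [Subgroup.mem_map, MonoidHom.mem_range]
  constructor
  · rintro ⟨n, hn, rfl⟩
    exact ⟨((⟨n, hn⟩ : N) : N ⧸ (Subgroup.center X).subgroupOf N), (h1 ⟨n, hn⟩).symm⟩
  · rintro ⟨q, rfl⟩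
    obtain ⟨n, rfl⟩ := QuotientGroup.mk'_surjective _ q
    exact ⟨n, n.2, h1 n⟩

end OUI

open _root_.Pool.Agent.DPK.OUI in
theorem OUI_thm : Stmt_OUI := by
  intro X _ _ N hN hZ h
  rw [← map_act N hN, Subgroup.index_map, sup_eq_left.mpr (ker_le N hN hZ h)]
  exact Dvd.intro _ rfl

end Pool.Agent.DPK


end

section

/-!
# BAG: the commutator subgroup of `N`
-/

namespace Pool.Agent.DPK

open Pool.Agent.DP Pool.Agent.DPC Pool.Agent.DPM Pool.Agent.DPN Pool.Agent.DPT Pool.Agent.DPF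
open Pool.Agent.Lib_helper13
open Representation
open Pool.Agent.Lib_helper13.Dade (pCore DadeHolds dadeSum)

namespace BAG

theorem val_le {ℓ a b : ℕ} [Fact ℓ.Prime] (h : a ∣ b) (hb : b ≠ 0) :
    padicValNat ℓ a ≤ padicValNat ℓ b :=
  (padicValNat_dvd_iff_le hb).mp (pow_padicValNat_dvd.trans h)

/-- The `ℓ`-part of the order of an abelian normal subgroup. -/
theorem val_center {X : Type} [Group X] [Finite X] (ℓ : ℕ) [Fact ℓ.Prime] :
    padicValNat ℓ (Nat.card (Subgroup.center X)) ≤ padicValNat ℓ (Nat.card (pCore ℓ X)) := by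
  have hprime : ℓ.Prime := Fact.out
  obtain ⟨S⟩ : Nonempty (Sylow ℓ (Subgroup.center X)) := inferInstance
  have hS : (S : Subgroup (Subgroup.center X)).Normal := by
    constructor
    intro n hn g
    have h1 : g * n * g⁻¹ = n := by
      have h2 : g * n = n * g := Subtype.ext (Subgroup.mem_center_iff.mp n.2 g)
      rw [h2, mul_inv_cancel_right]
    rw [h1]
    exact hn
  have hc : (S : Subgroup (Subgroup.center X)).Characteristic :=
    Sylow.characteristic_of_normal S hS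
  have h1 : ((S : Subgroup (Subgroup.center X)).map (Subgroup.center X).subtype).Normal :=
    ConjAct.normal_of_characteristic_of_normal
  have h2 : IsPGroup ℓ ((S : Subgroup (Subgroup.center X)).map (Subgroup.center X).subtype) :=
    S.isPGroup'.map _
  have h3 : (S : Subgroup (Subgroup.center X)).map (Subgroup.center X).subtype ≤ pCore ℓ X :=
    le_sSup ⟨h1, h2⟩
  have h4 : Nat.card ((S : Subgroup (Subgroup.center X)).map (Subgroup.center X).subtype) =
      Nat.card S :=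
    (Nat.card_congr ((S : Subgroup (Subgroup.center X)).equivMapOfInjective _
      (Subgroup.center X).subtype_injective).toEquiv).symm
  have h5 := val_le (ℓ := ℓ) (Subgroup.card_dvd_of_le h3) Nat.card_pos.ne'
  have h6 : padicValNat ℓ (Nat.card S) = padicValNat ℓ (Nat.card (Subgroup.center X)) := by
    rw [S.card_eq_multiplicity, padicValNat.prime_pow, Nat.factorization_def _ hprime]
  rw [h4, h6] at h5
  exact h5

open scoped commutatorElement in
/-- The commutator subgroup of `N` is perfect. -/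
theorem perfect {X : Type} [Group X] (N : Subgroup X)
    (hN : N ≤ ⁅N, N⁆ ⊔ Subgroup.center X) : ⁅N, N⁆ ≤ ⁅⁅N, N⁆, ⁅N, N⁆⁆ := by
  rw [Subgroup.commutator_le]
  intro a ha b hb
  obtain ⟨k, hk, z, hz, rfl⟩ := Subgroup.mem_sup_of_normal_right.mp (hN ha)
  obtain ⟨k', hk', z', hz', rfl⟩ := Subgroup.mem_sup_of_normal_right.mp (hN hb)
  have h1 : ⁅k * z, k' * z'⁆ = ⁅k, k'⁆ := by
    rw [Subgroup.mem_center_iff] at hz hz'
    have hz1 : ∀ g, g * z⁻¹ = z⁻¹ * g := fun g => by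
      rw [mul_inv_eq_iff_eq_mul, mul_assoc, hz g, inv_mul_cancel_left]
    rw [commutatorElement_def, commutatorElement_def, mul_inv_rev, mul_inv_rev]
    have h2 : k * z * (k' * z') * (z⁻¹ * k⁻¹) * (z'⁻¹ * k'⁻¹) =
        k * (z * (k' * z')) * (z⁻¹ * k⁻¹) * (z'⁻¹ * k'⁻¹) := by
      group
    rw [h2, ← hz (k' * z')]
    have h3 : k * (k' * z' * z) * (z⁻¹ * k⁻¹) * (z'⁻¹ * k'⁻¹) =
        k * k' * (z' * k⁻¹) * (z'⁻¹ * k'⁻¹) := by
      group
    rw [h3, ← hz' k⁻¹]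
    group
  rw [h1]
  exact Subgroup.commutator_mem_commutator hk hk'

/-- A homomorphism from the commutator subgroup to an abelian group is trivial. -/
theorem hom_trivial {X : Type} [Group X] (K : Subgroup X) (hK : K ≤ ⁅K, K⁆) {A : Type}
    [CommGroup A] (V : K →* A) (x : K) : V x = 1 := by
  have h1 : (x : X) ∈ (commutator K).map K.subtype := by
    rw [K.map_subtype_commutator]
    exact hK x.2
  obtain ⟨y, hy, hyx⟩ := h1
  have h2 : y = x := Subtype.ext hyx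
  rw [← h2]
  exact Abelianization.commutator_subset_ker V hy

/-- The map from a subgroup of `K ≤ N` to `N / Z(X)`. -/
def toQuot {X : Type} [Group X] (N K : Subgroup X) (hKN : K ≤ N) (Q : Subgroup K) :
    Q →* N ⧸ (Subgroup.center X).subgroupOf N :=
  ((QuotientGroup.mk' ((Subgroup.center X).subgroupOf N)).comp (Subgroup.inclusion hKN)).comp
    Q.subtype

theorem toQuot_ker {X : Type} [Group X] (N K : Subgroup X) (hKN : K ≤ N) (Q : Subgroup K)
    (x : Q) : x ∈ (toQuot N K hKN Q).ker ↔ ((x : K) : X) ∈ Subgroup.center X := by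
  rw [MonoidHom.mem_ker]
  change ((Subgroup.inclusion hKN (x : K) : N) : N ⧸ (Subgroup.center X).subgroupOf N) = 1 ↔ _
  rw [QuotientGroup.eq_one_iff, Subgroup.mem_subgroupOf]
  rfl

theorem key {X : Type} [Group X] [Finite X] (ℓ : ℕ) [Fact ℓ.Prime] (N K : Subgroup X)
    (hKN : K ≤ N) (hK : K ≤ ⁅K, K⁆)
    (hQ : ∀ Q : Subgroup (N ⧸ (Subgroup.center X).subgroupOf N), IsPGroup ℓ Q → IsCyclic Q)
    (P : Sylow ℓ K) :
    IsCyclic P ∧ ∀ x : K, x ∈ P → (x : X) ∈ Subgroup.center X → x = 1 := by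
  have hprime : ℓ.Prime := Fact.out
  set f := toQuot N K hKN (P : Subgroup K) with hf
  have h1 : IsPGroup ℓ f.range := by
    have h2 : IsPGroup ℓ (⊤ : Subgroup P) := P.isPGroup'.to_subgroup _
    have h3 := h2.map f
    rwa [← MonoidHom.range_eq_map] at h3
  have h2 : IsCyclic f.range := hQ _ h1
  have h3 : f.rangeRestrict.ker ≤ Subgroup.center P := by
    intro x hx
    have h4 : x ∈ f.ker := by
      rw [MonoidHom.mem_ker] at hx ⊢
      have h5 := congrArg Subtype.val hx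
      exact h5
    rw [toQuot_ker] at h4
    rw [Subgroup.mem_center_iff]
    intro g
    apply Subtype.ext
    apply Subtype.ext
    exact Subgroup.mem_center_iff.mp h4 _
  have h4 : IsMulCommutative P := f.rangeRestrict.isMulCommutative_of_isCyclic_of_ker_le_center h3
  let _ : CommGroup P :=
    { (inferInstance : Group P) with mul_comm := h4.is_comm.comm }
  have h5 : ∀ x : K, x ∈ P → (x : X) ∈ Subgroup.center X → x = 1 := by
    intro x hx hxc
    have hkey : ∀ (k : ℕ) (g₀ : K), g₀⁻¹ * x ^ k * g₀ ∈ (P : Subgroup K) →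
        g₀⁻¹ * x ^ k * g₀ = x ^ k := by
      intro k g₀ _
      have h6 : x ^ k * g₀ = g₀ * x ^ k := by
        apply Subtype.ext
        have h7 : (x : X) ^ k ∈ Subgroup.center X := Subgroup.pow_mem _ hxc k
        have h8 := Subgroup.mem_center_iff.mp h7 (g₀ : X)
        exact h8.symm
      rw [mul_assoc, h6, inv_mul_cancel_left]
    have h6 := MonoidHom.transfer_eq_pow (MonoidHom.id P) x hkey
    rw [hom_trivial K hK] at h6
    have h7 : x ^ (P : Subgroup K).index = 1 := by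
      have h8 := congrArg (fun y : P => (y : K)) h6
      exact h8.symm
    obtain ⟨n, hn⟩ := P.isPGroup' ⟨x, hx⟩
    have hn' : x ^ ℓ ^ n = 1 := by
      have h8 := congrArg (fun y : P => (y : K)) hn
      exact h8
    have h9 : ¬ ℓ ∣ (P : Subgroup K).index := P.not_dvd_index
    have h10 : Nat.Coprime (ℓ ^ n) (P : Subgroup K).index :=
      Nat.Coprime.pow_left n ((Nat.Prime.coprime_iff_not_dvd hprime).mpr h9)
    have h11 : orderOf x ∣ 1 := by
      rw [← h10.gcd_eq_one]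
      exact Nat.dvd_gcd (orderOf_dvd_of_pow_eq_one hn') (orderOf_dvd_of_pow_eq_one h7)
    exact orderOf_eq_one_iff.mp (Nat.dvd_one.mp h11)
  refine ⟨?_, h5⟩
  have h6 : Function.Injective f.rangeRestrict := by
    rw [injective_iff_map_eq_one]
    intro x hx
    have h7 : x ∈ f.ker := by
      rw [MonoidHom.mem_ker]
      have h8 := congrArg Subtype.val hx
      exact h8
    rw [toQuot_ker] at h7
    exact Subtype.ext (h5 x x.2 h7)
  exact isCyclic_of_injective f.rangeRestrict h6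

end BAG

theorem BAG_thm : Stmt_BAG := by
  intro X _ _ ℓ _ hcore N hN hZN hNK hQ
  have hKn : (⁅N, N⁆ : Subgroup X).Normal := Subgroup.commutator_normal N N
  have hKN : ⁅N, N⁆ ≤ N := Subgroup.commutator_le_right N N
  have hK := BAG.perfect N hNK
  have hkey := BAG.key ℓ N ⁅N, N⁆ hKN hK hQ
  have hNeq : N = ⁅N, N⁆ ⊔ Subgroup.center X := le_antisymm hNK (sup_le hKN hZN)
  refine ⟨hKn, hNeq, ?_, ?_, ?_⟩
  · have hch : (pCore ℓ ↥⁅N, N⁆).Characteristic :=
      Subgroup.characteristic_iff_map_eq.mpr fun φ => pCore_equiv ℓ φ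
    have h1 : ((pCore ℓ ↥⁅N, N⁆).map (⁅N, N⁆ : Subgroup X).subtype).Normal :=
      ConjAct.normal_of_characteristic_of_normal
    have h0 : IsPGroup ℓ (pCore ℓ ↥⁅N, N⁆) := isPGroup_pCore ℓ
    have h2 : IsPGroup ℓ ((pCore ℓ ↥⁅N, N⁆).map (⁅N, N⁆ : Subgroup X).subtype) := h0.map _
    have h3 : (pCore ℓ ↥⁅N, N⁆).map (⁅N, N⁆ : Subgroup X).subtype ≤ pCore ℓ X :=
      le_sSup ⟨h1, h2⟩
    obtain ⟨P, hP⟩ := h0.exists_le_sylow
    rw [eq_bot_iff]
    intro x hx
    rw [Subgroup.mem_bot]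
    exact (hkey P).2 x (hP hx) (hcore (h3 ⟨x, hx, rfl⟩))
  · intro Q hQp
    obtain ⟨P, hP⟩ := hQp.exists_le_sylow
    have h1 := (hkey P).1
    exact isCyclic_of_injective (Subgroup.inclusion hP) (Subgroup.inclusion_injective hP)
  · have h1 : Nat.card N ∣ Nat.card ↥⁅N, N⁆ * Nat.card (Subgroup.center X) := by
      have h2 : Nat.card N = Nat.card ↥⁅N, N⁆ * (⁅N, N⁆ : Subgroup X).relIndex N := by
        have h3 := Subgroup.card_mul_index ((⁅N, N⁆ : Subgroup X).subgroupOf N)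
        rw [Nat.card_congr (Subgroup.subgroupOfEquivOfLe hKN).toEquiv] at h3
        exact h3.symm
      have h4 : (⁅N, N⁆ : Subgroup X).relIndex N =
          (⁅N, N⁆ : Subgroup X).relIndex (Subgroup.center X) := by
        have h5 := Subgroup.relIndex_sup_left (K := ⁅N, N⁆) (H := Subgroup.center X)
        rw [← hNeq] at h5
        exact h5
      rw [h2, h4]
      exact mul_dvd_mul_left _ (Subgroup.relIndex_dvd_card _ _)
    have h2 := BAG.val_le (ℓ := ℓ) h1 (mul_ne_zero Nat.card_pos.ne' Nat.card_pos.ne')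
    rw [padicValNat.mul Nat.card_pos.ne' Nat.card_pos.ne'] at h2
    exact h2.trans (Nat.add_le_add_left (BAG.val_center ℓ) _)

end Pool.Agent.DPK


end

section

/-!
# Dade's conjecture is invariant under isomorphisms
-/

namespace Pool.Agent.DP

open Pool.Agent.Lib_helper13

theorem DHE_thm : Stmt_DHE := by
  intro G G' _ _ _ _ ℓ _ e h
  exact dadeHolds_equiv e h

end Pool.Agent.DP


end

section

/-!
# Dade's conjecture for the groups of a class: almost simple sections with cyclic Sylow subgroups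
-/

namespace Pool.Agent.DPK

open Pool.Agent.DP Pool.Agent.DPC Pool.Agent.DPM Pool.Agent.DPN Pool.Agent.DPT Pool.Agent.DPF
open Pool.Agent.Lib_helper13
open Representation
open Pool.Agent.Lib_helper13.Dade (pCore DadeHolds dadeSum)

/-- The class of the groups `Y` such that every almost simple group `A` (with socle `S`) which is
an image of a subgroup of `Y` has cyclic Sylow `ℓ`-subgroups if `ℓ` divides the order of `S`. -/
def UD (ℓ : ℕ) (Y : Type) [Group Y] : Prop :=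
  ∀ (H : Subgroup Y) (A : Type) [Group A] (f : H →* A), Function.Surjective f →
    ∀ S : Subgroup A, S.Normal → IsSimpleGroup S → (∃ a ∈ S, ∃ b ∈ S, a * b ≠ b * a) →
    Subgroup.centralizer (S : Set A) = ⊥ → ℓ ∣ Nat.card S →
    ∀ Q : Subgroup A, IsPGroup ℓ Q → IsCyclic Q

/-- UDC: the class is closed. -/
def Stmt_UDC : Prop := ∀ (ℓ : ℕ) [Fact ℓ.Prime], GC (UD ℓ)

/-- CYS: cyclic Sylow `ℓ`-subgroups and normal simple subgroups. -/
def Stmt_CYS : Prop :=
  ∀ (A : Type) [Group A] [Finite A] (ℓ : ℕ) [Fact ℓ.Prime] (S P : Subgroup A), S.Normal →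
    IsSimpleGroup S → (∃ a ∈ S, ∃ b ∈ S, a * b ≠ b * a) → ℓ ∣ Nat.card S →
    (∀ Q : Subgroup A, IsPGroup ℓ Q → IsCyclic Q) → S ≤ P →
    (∀ x ∈ P, ∃ k : ℕ, x ^ ℓ ^ k ∈ S) → ¬ ℓ ∣ P.index → ¬ ℓ ∣ S.index

/-- CYQ: the quotients by the centre. -/
def Stmt_CYQ : Prop :=
  ∀ (X : Type) [Group X] [Finite X] (ℓ : ℕ) [Fact ℓ.Prime] (N : Subgroup X), N.Normal →
    Subgroup.center X ≤ N →
    (∀ Q : Subgroup (X ⧸ Subgroup.center X), IsPGroup ℓ Q → IsCyclic Q) →
    ∀ Q : Subgroup (N ⧸ (Subgroup.center X).subgroupOf N), IsPGroup ℓ Q → IsCyclic Q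

end Pool.Agent.DPK


end

section

/-!
# The class of the theorem on almost simple sections is closed
-/

namespace Pool.Agent.DPK

open Pool.Agent.DP Pool.Agent.DPC Pool.Agent.DPM Pool.Agent.DPN Pool.Agent.DPT Pool.Agent.DPF
open Pool.Agent.Lib_helper13
open Representation

namespace UDC

theorem center_bot {A : Type} [Group A] {S : Subgroup A}
    (hc : Subgroup.centralizer (S : Set A) = ⊥) : Subgroup.center A = ⊥ := by
  rw [eq_bot_iff, ← hc]
  exact Subgroup.center_le_centralizer _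

end UDC

open _root_.Pool.Agent.DPK.UDC

theorem UDC_thm : Stmt_UDC := by
  intro ℓ _
  refine ⟨?_, ?_⟩
  · intro Y Y' _ _ _ f hf h H' A _ g hg S hS hs hn hc hd
    refine h (H'.comap f) A (g.comp (f.subgroupComap H')) ?_ S hS hs hn hc hd
    rw [MonoidHom.coe_comp]
    exact hg.comp (MonoidHom.subgroupComap_surjective_of_surjective f H' hf)
  · intro Y Y' _ _ _ f hk h H A _ g hg S hS hs hn hc hd
    have hp : Function.Surjective (f.subgroupMap H) := MonoidHom.subgroupMap_surjective f H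
    have hker : (f.subgroupMap H).ker ≤ g.ker := by
      intro x hx
      rw [MonoidHom.mem_ker] at hx ⊢
      have hfx : f (x : Y) = 1 := by
        have h1 := congrArg (Subtype.val) hx
        exact h1
      have hxc : (x : Y) ∈ Subgroup.center Y := hk (MonoidHom.mem_ker.mpr hfx)
      have hgx : g x ∈ Subgroup.center A := by
        rw [Subgroup.mem_center_iff]
        intro s
        obtain ⟨y, rfl⟩ := hg s
        rw [← map_mul, ← map_mul]
        congr 1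
        apply Subtype.ext
        exact Subgroup.mem_center_iff.mp hxc y
      rw [center_bot hc, Subgroup.mem_bot] at hgx
      exact hgx
    let g' : H.map f →* A := (f.subgroupMap H).liftOfSurjective hp ⟨g, hker⟩
    have hg' : ∀ x, g' (f.subgroupMap H x) = g x := fun x =>
      (f.subgroupMap H).liftOfRightInverse_comp_apply _ (Function.rightInverse_surjInv hp)
        ⟨g, hker⟩ x
    refine h (H.map f) A g' ?_ S hS hs hn hc hd
    intro s
    obtain ⟨x, rfl⟩ := hg s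
    exact ⟨f.subgroupMap H x, hg' x⟩

end Pool.Agent.DPK


end

section

/-!
# CYS: cyclic Sylow `ℓ`-subgroups and normal simple subgroups
-/

set_option autoImplicit false

namespace Pool.Agent.DPK

open Pool.Agent.DP Pool.Agent.DPC Pool.Agent.DPM Pool.Agent.DPN Pool.Agent.DPT Pool.Agent.DPF
open Pool.Agent.Lib_helper13
open Representation

open scoped commutatorElement in
/-- CYS: cyclic Sylow `ℓ`-subgroups and normal simple subgroups. -/
theorem CYS_thm : Stmt_CYS := by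
  classical
  intro A _ _ ℓ _ S P hS hsim hna hℓS hcyc hSP hP hPi
  -- the Sylow subgroups of `P` are cyclic
  obtain ⟨Q⟩ : Nonempty (Sylow ℓ P) := inferInstance
  have hQ : IsCyclic Q := by
    have h1 : IsCyclic (Subgroup.map P.subtype (Q : Subgroup P)) :=
      hcyc _ (Q.isPGroup'.map P.subtype)
    have e := Subgroup.equivMapOfInjective (Q : Subgroup P) P.subtype P.subtype_injective
    exact isCyclic_of_surjective e.symm e.symm.surjective
  -- `S` is perfect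
  have hperf : commutator S = ⊤ := by
    rcases (inferInstance : (commutator S).Normal).eq_bot_or_eq_top with h | h
    · exfalso
      obtain ⟨a, ha, b, hb, hab⟩ := hna
      apply hab
      have h1 : ⁅(⟨a, ha⟩ : S), (⟨b, hb⟩ : S)⁆ ∈ commutator S := by
        rw [commutator_def]
        exact Subgroup.commutator_mem_commutator (Subgroup.mem_top _) (Subgroup.mem_top _)
      rw [h, Subgroup.mem_bot, commutatorElement_eq_one_iff_mul_comm] at h1
      exact congrArg Subtype.val h1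
    · exact h
  have hle : S.subgroupOf P ≤ commutator P := by
    have h1 : S.subgroupOf P = (⊤ : Subgroup S).map (Subgroup.inclusion hSP) := by
      ext x
      constructor
      · intro hx
        exact ⟨⟨x, Subgroup.mem_subgroupOf.mp hx⟩, Subgroup.mem_top _, rfl⟩
      · rintro ⟨y, -, rfl⟩
        exact Subgroup.mem_subgroupOf.mpr y.2
    rw [h1, ← hperf, commutator_def, Subgroup.map_commutator]
    exact Subgroup.commutator_mono le_top le_top
  have hdvd : ℓ ∣ Nat.card (commutator P) := by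
    have h1 : Nat.card (S.subgroupOf P) = Nat.card S :=
      Nat.card_congr (Subgroup.subgroupOfEquivOfLe hSP).toEquiv
    exact (h1 ▸ hℓS).trans (Subgroup.card_dvd_of_le hle)
  have hidx : ¬ ℓ ∣ (commutator P).index :=
    (Sylow.not_dvd_card_commutator_or_not_dvd_index_commutator Q).resolve_left
      fun h => h hdvd
  -- `P` is perfect
  have hpow : ∀ (N : Subgroup P) [N.Normal], S.subgroupOf P ≤ N → IsPGroup ℓ (P ⧸ N) := by
    intro N _ hSN x
    obtain ⟨y, rfl⟩ := QuotientGroup.mk'_surjective N x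
    obtain ⟨k, hk⟩ := hP y y.2
    refine ⟨k, ?_⟩
    rw [← map_pow, QuotientGroup.mk'_apply, QuotientGroup.eq_one_iff]
    exact hSN (Subgroup.mem_subgroupOf.mpr hk)
  have htop : commutator P = ⊤ := by
    obtain ⟨n, hn⟩ := (hpow (commutator P) hle).exists_card_eq
    rw [← Subgroup.index_eq_one]
    rw [Subgroup.index, hn] at hidx ⊢
    rcases Nat.eq_zero_or_pos n with h | h
    · rw [h, pow_zero]
    · exact absurd (dvd_pow_self ℓ h.ne') hidx
  -- the quotient is trivial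
  haveI hSn : (S.subgroupOf P).Normal := hS.subgroupOf P
  haveI : Group.IsPerfect P := ⟨htop⟩
  have hnil : Group.IsNilpotent (P ⧸ S.subgroupOf P) :=
    (hpow (S.subgroupOf P) le_rfl).isNilpotent
  have hsub : Subsingleton (P ⧸ S.subgroupOf P) := by
    by_contra h
    rw [not_subsingleton_iff_nontrivial] at h
    exact Group.IsPerfect.not_isNilpotent (P ⧸ S.subgroupOf P) hnil
  have hPS : P ≤ S := by
    rw [← Subgroup.subgroupOf_eq_top]
    rw [← Subgroup.index_eq_one, Subgroup.index]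
    exact Nat.card_unique
  rw [le_antisymm hSP hPS]
  exact hPi

end Pool.Agent.DPK


end

section

/-!
# CYQ: the quotients by the centre
-/

namespace Pool.Agent.DPK

theorem CYQ_thm : Stmt_CYQ := by
  intro X _ _ ℓ _ N hN hZN h Q hQ
  have hle : (Subgroup.center X).subgroupOf N ≤ (Subgroup.center X).comap N.subtype := le_rfl
  let f : (N ⧸ (Subgroup.center X).subgroupOf N) →* (X ⧸ Subgroup.center X) :=
    QuotientGroup.map _ _ N.subtype hle
  have hf : Function.Injective f := by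
    rw [injective_iff_map_eq_one]
    intro a ha
    obtain ⟨n, rfl⟩ := QuotientGroup.mk_surjective a
    rw [QuotientGroup.eq_one_iff, Subgroup.mem_subgroupOf]
    have h1 : f (QuotientGroup.mk n) = QuotientGroup.mk (n : X) := rfl
    rw [h1, QuotientGroup.eq_one_iff] at ha
    exact ha
  have h2 : IsCyclic (Q.map f) := h (Q.map f) (hQ.map f)
  let e : Q ≃* Q.map f := Q.equivMapOfInjective f hf
  exact isCyclic_of_injective e.toMonoidHom e.injective

end Pool.Agent.DPK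


end

section

/-!
# FINR: the minimal normal subgroup of a minimal counterexample is simple modulo the centre
-/

namespace Pool.Agent.DPK

open Pool.Agent.DP Pool.Agent.DPC Pool.Agent.DPM Pool.Agent.DPN Pool.Agent.DPT Pool.Agent.DPF
open Pool.Agent.Lib_helper13
open Representation
open Pool.Agent.Lib_helper13.Dade (pCore DadeHolds dadeSum)

/-- FINR: the minimal normal subgroup of a minimal counterexample is simple modulo the centre. -/
def Stmt_FINR (Cl : ∀ (Y : Type) [Group Y], Prop) : Prop :=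
  ∀ (X : Type) [Group X] [Fintype X] (ℓ : ℕ) [Fact ℓ.Prime],
    pCore ℓ X ≤ Subgroup.center X → Cl X → HR Cl ℓ ((Subgroup.center X).index - 1) →
    ¬ DadeHolds ℓ X → ∀ N : Subgroup X, N.Normal → Subgroup.center X < N →
    (∀ N' : Subgroup X, N'.Normal → Subgroup.center X < N' → N ≤ N') →
    (∃ x ∈ N, ∃ y ∈ N, x * y * x⁻¹ * y⁻¹ ∉ Subgroup.center X) →
    IsSimpleGroup (N.map (QuotientGroup.mk' (Subgroup.center X))) ∧
      IsSimpleGroup (N ⧸ (Subgroup.center X).subgroupOf N)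

theorem FINR_thm (Cl : ∀ (Y : Type) [Group Y], Prop) (hC : GC Cl)
    (h1 : Pool.Agent.DPG.Stmt_TEN Cl) (h2 : Stmt_QMU) (h3 : Stmt_BSA) (h4 : Stmt_BSB)
    (h5 : Stmt_GRA) (h6 : Stmt_GRB) (h7 : Stmt_OUT2r Cl) (h8 : Pool.Agent.DPT.Stmt_GLU)
    (h9 : Pool.Agent.DPN.Stmt_DLO) : Stmt_FINR Cl := by
  classical
  intro X _ _ ℓ _ hcore hCl hHR hD N hN hNc hmin hna
  obtain ⟨𝔐, h𝔐, hℓ, d, ω, hd, hK⟩ := h9 X ℓ hcore hD
  obtain ⟨M, hM, hNM, hMr, ⟨H, iH, fH, f, hfs, hfk, hHH⟩, hOut⟩ :=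
    h7 X 𝔐 ℓ h𝔐 hℓ hcore hCl hHR d ω hd hK N hN hNc
  have hZM : Subgroup.center X ≤ M := hNc.le.trans hNM
  let π : X →* X ⧸ Subgroup.center X := QuotientGroup.mk' (Subgroup.center X)
  have hπs : Function.Surjective π := QuotientGroup.mk'_surjective _
  have hπk : π.ker = Subgroup.center X := QuotientGroup.ker_mk' _
  let _ : Fintype (X ⧸ Subgroup.center X) := Fintype.ofFinite _
  obtain ⟨μ, hPos, hDKU⟩ := h8 X H 𝔐 ℓ h𝔐 hℓ hcore d ω hd hK M hZM f hfs hfk hHH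
    (X ⧸ Subgroup.center X) π hπs hπk
  obtain ⟨g1, g2, g3, g4, g5, g6, g7⟩ := h6 X (X ⧸ Subgroup.center X) ℓ π hπs hπk N hN hNc hmin hna
  obtain ⟨g8, g9⟩ := g7 M hNM hMr
  have hkN : π.ker ≤ N := hπk.le.trans hNc.le
  have hO : OutN 𝔐 N M ω := hOut
  have hSTB := h3 X (X ⧸ Subgroup.center X) 𝔐 h𝔐 π μ N M hN hkN hNM ω hO
  have hSPP := h4 X (X ⧸ Subgroup.center X) 𝔐 h𝔐 π μ N M hN hkN hNM ω hO
  have hMn : (M.map π).Normal := hM.map π hπs
  obtain ⟨L', iL, fL, π', μ', d', ω', q1, q2, q3, q4, q5, q6, q7⟩ :=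
    h2 X (X ⧸ Subgroup.center X) 𝔐 ℓ h𝔐 hℓ π hπs hπk.le μ (N.map π) (M.map π) g1 hMn g8 ω d
      hPos hDKU hSTB hSPP
  -- the quotient by `M`
  let p : X ⧸ Subgroup.center X →* H := QuotientGroup.lift (Subgroup.center X) f
    (fun x hx => (hfk x).mpr (hZM hx))
  have hpπ : ∀ x, p (π x) = f x := fun x => rfl
  have hps : Function.Surjective p := by
    intro h
    obtain ⟨x, rfl⟩ := hfs h
    exact ⟨π x, rfl⟩
  have hpk : ∀ k, p k = 1 ↔ k ∈ M.map π := by
    intro k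
    obtain ⟨x, rfl⟩ := hπs k
    rw [hpπ, hfk]
    constructor
    · intro hx
      exact ⟨x, hx, rfl⟩
    · rintro ⟨y, hy, hyx⟩
      have h10 : y⁻¹ * x ∈ π.ker := by
        rw [MonoidHom.mem_ker, map_mul, map_inv, hyx, inv_mul_cancel]
      rw [hπk] at h10
      have h11 := M.mul_mem hy (hZM h10)
      rwa [mul_inv_cancel_left] at h11
  obtain ⟨P, hP1, hP2, hP3, hP4⟩ := hHH
  let _ : Fintype H := Fintype.ofFinite H
  have hindex : Nat.card (X ⧸ Subgroup.center X) = (Subgroup.center X).index := rfl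
  have hlt : ∀ n < Nat.card (X ⧸ Subgroup.center X), HR Cl ℓ n := by
    intro n hn
    rw [hindex] at hn
    exact hHR.mono (by omega)
  suffices hsim : IsSimpleGroup (N.map π) from ⟨hsim, g6 hsim⟩
  by_contra hns
  refine q5 (h1 L' (X ⧸ Subgroup.center X) H 𝔐 ℓ h𝔐 hℓ π' q1 q2 μ' q3
    (h5 X (X ⧸ Subgroup.center X) ℓ π hπs hπk hcore) hC (hC.quot hCl _) hlt (M.map π) p hps hpk P
    ⟨hP1, hP2, hP3, hP4⟩ ω' q4 (N.map π) g8 g9 g2 ?_ g4 ?_ hns q6 q7 d')
  · intro N' hN' hle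
    by_cases h10 : N' = ⊥
    · exact Or.inl h10
    · exact Or.inr (le_antisymm hle (g3 N' hN' h10))
  · intro k hk
    have h10 : k ∈ Subgroup.centralizer (N.map π : Set (X ⧸ Subgroup.center X)) := by
      rw [Subgroup.mem_centralizer_iff]
      intro x hx
      exact (hk x hx).symm
    rw [g5] at h10
    exact h10

end Pool.Agent.DPK


end

section

/-!
# UNC: Dade's conjecture for the groups all of whose simple sections of order divisible by `ℓ` have
cyclic Sylow `ℓ`-subgroups and outer automorphism groups of order prime to `ℓ`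
-/

namespace Pool.Agent.DPK

open Pool.Agent.DP Pool.Agent.DPC Pool.Agent.DPM Pool.Agent.DPN Pool.Agent.DPT Pool.Agent.DPF
open Pool.Agent.Lib_helper13
open Representation
open Pool.Agent.Lib_helper13.Dade (pCore DadeHolds dadeSum)

namespace UNC

/-- The minimal normal subgroup above the centre is perfect modulo the centre. -/
theorem perf {X : Type} [Group X] (N : Subgroup X) (hN : N.Normal)
    (hNc : Subgroup.center X < N)
    (hmin : ∀ N' : Subgroup X, N'.Normal → Subgroup.center X < N' → N ≤ N')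
    (hna : ∃ x ∈ N, ∃ y ∈ N, x * y * x⁻¹ * y⁻¹ ∉ Subgroup.center X) :
    N ≤ ⁅N, N⁆ ⊔ Subgroup.center X := by
  have h1 : ⁅N, N⁆.Normal := Subgroup.commutator_normal N N
  have h2 : (⁅N, N⁆ ⊔ Subgroup.center X).Normal := inferInstance
  refine hmin _ h2 (lt_of_le_of_ne le_sup_right ?_)
  intro h3
  obtain ⟨x, hx, y, hy, hxy⟩ := hna
  apply hxy
  rw [h3]
  exact (le_sup_left : ⁅N, N⁆ ≤ ⁅N, N⁆ ⊔ Subgroup.center X)
    (Subgroup.commutator_mem_commutator hx hy)

/-- The quotient of `N` by the centre is not abelian. -/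
theorem nonab {X : Type} [Group X] (N : Subgroup X)
    (hna : ∃ x ∈ N, ∃ y ∈ N, x * y * x⁻¹ * y⁻¹ ∉ Subgroup.center X) :
    ∃ a b : N ⧸ (Subgroup.center X).subgroupOf N, a * b ≠ b * a := by
  obtain ⟨x, hx, y, hy, hxy⟩ := hna
  refine ⟨((⟨x, hx⟩ : N) : N ⧸ (Subgroup.center X).subgroupOf N),
    ((⟨y, hy⟩ : N) : N ⧸ (Subgroup.center X).subgroupOf N), fun h => hxy ?_⟩
  have h1 : (((⟨x, hx⟩ : N) * ⟨y, hy⟩ * (⟨x, hx⟩ : N)⁻¹ * (⟨y, hy⟩ : N)⁻¹ : N) :
      N ⧸ (Subgroup.center X).subgroupOf N) = 1 := by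
    rw [QuotientGroup.mk_mul, QuotientGroup.mk_mul, QuotientGroup.mk_mul, QuotientGroup.mk_inv,
      QuotientGroup.mk_inv, mul_inv_eq_one, mul_inv_eq_iff_eq_mul]
    exact h
  rw [QuotientGroup.eq_one_iff, Subgroup.mem_subgroupOf] at h1
  exact h1

/-- The order of the quotient of `N` by the centre is divisible by `ℓ`. -/
theorem dvd {X : Type} [Group X] [Finite X] {ℓ : ℕ} (hℓ : ℓ.Prime) (N : Subgroup X)
    (h : ∃ x ∈ N, x ^ ℓ ∈ Subgroup.center X ∧ x ∉ Subgroup.center X) :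
    ℓ ∣ Nat.card (N ⧸ (Subgroup.center X).subgroupOf N) := by
  obtain ⟨x, hx, h1, h2⟩ := h
  have h3 : (((⟨x, hx⟩ : N) : N ⧸ (Subgroup.center X).subgroupOf N)) ^ ℓ = 1 := by
    rw [← QuotientGroup.mk_pow, QuotientGroup.eq_one_iff, Subgroup.mem_subgroupOf]
    exact h1
  have h4 : orderOf ((⟨x, hx⟩ : N) : N ⧸ (Subgroup.center X).subgroupOf N) ∣ ℓ :=
    orderOf_dvd_of_pow_eq_one h3
  rcases (Nat.dvd_prime hℓ).mp h4 with h5 | h5
  · rw [orderOf_eq_one_iff, QuotientGroup.eq_one_iff, Subgroup.mem_subgroupOf] at h5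
    exact absurd h5 h2
  · rw [← h5]
    exact orderOf_dvd_natCard _

end UNC

theorem UNC_thm (ℓ : ℕ) [hf : Fact ℓ.Prime] (h1 : Stmt_FINR (UC ℓ)) (h2 : Stmt_B0Fr (UC ℓ))
    (h3 : Stmt_OUI) (h4 : Stmt_BAS) (h5 : ∀ (X : Type) [Group X] (N : Subgroup X), N.Normal →
      (∀ N' : Subgroup X, N'.Normal → Subgroup.center X < N' → N ≤ N') →
      (∃ x ∈ N, ∃ y ∈ N, x * y * x⁻¹ * y⁻¹ ∉ Subgroup.center X) → ∀ x,
      (∀ y ∈ N, x * y * x⁻¹ * y⁻¹ ∈ Subgroup.center X) → x ∈ Subgroup.center X) :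
    ∀ (X : Type) [Group X] [Finite X], UC ℓ X → pCore ℓ X ≤ Subgroup.center X →
      DadeHolds ℓ X := by
  classical
  have hmain : ∀ n : ℕ, HR (UC ℓ) ℓ n := by
    intro n
    induction n with
    | zero =>
      intro Y _ _ _ _ hi
      exact absurd (Nat.le_zero.mp hi) Subgroup.index_ne_zero_of_finite
    | succ n ih =>
      intro Y _ _ hCl hcore hi
      by_contra hD
      let _ : Fintype Y := Fintype.ofFinite Y
      have hHR : HR (UC ℓ) ℓ ((Subgroup.center Y).index - 1) := ih.mono (by omega)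
      obtain ⟨hA, N, hN, hNc, hmin⟩ := h2 Y ℓ hcore hCl hHR hD
      obtain ⟨hdv, hna⟩ := hA N hN hNc
      obtain ⟨-, hsim⟩ := h1 Y ℓ hcore hCl hHR hD N hN hNc hmin hna
      have hcent := h5 Y N hN hmin hna
      obtain ⟨h6, h7⟩ := hCl N (N ⧸ (Subgroup.center Y).subgroupOf N) (QuotientGroup.mk' _)
        (QuotientGroup.mk'_surjective _) hsim (UNC.nonab N hna) (UNC.dvd hf.out N hdv)
      exact hD (h4 Y ℓ hcore N hN hNc.le (UNC.perf N hN hNc hmin hna) h6
        (fun h => h7 (h.trans (h3 Y N hN hNc.le hcent))))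
  intro X _ _ hCl hcore
  exact hmain _ X hCl hcore le_rfl

end Pool.Agent.DPK


end

section

/-!
# MINR: the structure of a minimal counterexample to Dade's conjecture in a class of groups
-/

namespace Pool.Agent.DPK

open Pool.Agent.DP Pool.Agent.DPC Pool.Agent.DPM Pool.Agent.DPN Pool.Agent.DPT Pool.Agent.DPF
open Pool.Agent.Lib_helper13
open Representation
open Pool.Agent.Lib_helper13.Dade (pCore DadeHolds dadeSum)

namespace MINR

/-- An element with an `ℓ`-power in a normal subgroup of index prime to `ℓ`. -/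
theorem mem_of_pow {X : Type} [Group X] [Finite X] {ℓ : ℕ} (hℓ : ℓ.Prime) (R : Subgroup X)
    [R.Normal] (hR : ¬ ℓ ∣ R.index) {u : X} {k : ℕ} (hu : u ^ ℓ ^ k ∈ R) : u ∈ R := by
  have h1 : ((u : X) : X ⧸ R) ^ ℓ ^ k = 1 := by
    rw [← QuotientGroup.mk_pow, QuotientGroup.eq_one_iff]
    exact hu
  have h2 : orderOf ((u : X) : X ⧸ R) ∣ ℓ ^ k := orderOf_dvd_of_pow_eq_one h1
  have h3 : orderOf ((u : X) : X ⧸ R) ∣ R.index := orderOf_dvd_natCard _
  have h4 : Nat.Coprime (ℓ ^ k) R.index :=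
    Nat.Coprime.pow_left k ((Nat.Prime.coprime_iff_not_dvd hℓ).mpr hR)
  have h5 : orderOf ((u : X) : X ⧸ R) = 1 := Nat.eq_one_of_dvd_coprimes h4 h2 h3
  rw [orderOf_eq_one_iff, QuotientGroup.eq_one_iff] at h5
  exact h5

/-- The centralizer of a nonabelian least normal subgroup above the centre. -/
theorem cent {X : Type} [Group X] (N : Subgroup X) (hN : N.Normal)
    (hmin : ∀ N' : Subgroup X, N'.Normal → Subgroup.center X < N' → N ≤ N')
    (hna : ∃ x ∈ N, ∃ y ∈ N, x * y * x⁻¹ * y⁻¹ ∉ Subgroup.center X) (x : X)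
    (hx : ∀ y ∈ N, x * y * x⁻¹ * y⁻¹ ∈ Subgroup.center X) : x ∈ Subgroup.center X := by
  classical
  let q : X →* X ⧸ Subgroup.center X := QuotientGroup.mk' (Subgroup.center X)
  have hNq : (N.map q).Normal := hN.map q (QuotientGroup.mk'_surjective _)
  let C : Subgroup X :=
    (Subgroup.centralizer (N.map q : Set (X ⧸ Subgroup.center X))).comap q
  have hCn : C.Normal := by
    have h1 : (Subgroup.centralizer (N.map q : Set (X ⧸ Subgroup.center X))).Normal :=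
      inferInstance
    exact h1.comap q
  have hmem : ∀ a : X, a ∈ C ↔ ∀ y ∈ N, a * y * a⁻¹ * y⁻¹ ∈ Subgroup.center X := by
    intro a
    have h2 : ∀ b : X, q a * q b = q b * q a ↔ a * b * a⁻¹ * b⁻¹ ∈ Subgroup.center X := by
      intro b
      rw [← QuotientGroup.eq_one_iff]
      change q a * q b = q b * q a ↔ q a * q b * (q a)⁻¹ * (q b)⁻¹ = 1
      rw [mul_inv_eq_one, mul_inv_eq_iff_eq_mul]
    rw [Subgroup.mem_comap, Subgroup.mem_centralizer_iff]
    constructor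
    · intro h y hy
      exact (h2 y).mp (h (q y) ⟨y, hy, rfl⟩).symm
    · rintro h _ ⟨y, hy, rfl⟩
      exact ((h2 y).mpr (h y hy)).symm
  by_contra hxn
  have hle : Subgroup.center X ≤ C := by
    intro z hz
    rw [hmem]
    intro y hy
    have h3 : z * y * z⁻¹ * y⁻¹ = 1 := by
      rw [← (Subgroup.mem_center_iff.mp hz y)]
      group
    rw [h3]
    exact one_mem _
  have hlt : Subgroup.center X < C :=
    lt_of_le_of_ne hle (fun h => hxn (by rw [h, hmem]; exact hx))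
  have h4 := hmin C hCn hlt
  obtain ⟨a, ha, b, hb, hab⟩ := hna
  exact hab ((hmem a).mp (h4 ha) b hb)

/-- The index of the image in the quotient by the centre. -/
theorem index_map {X : Type} [Group X] (N : Subgroup X) (hN : Subgroup.center X ≤ N) :
    (N.map (QuotientGroup.mk' (Subgroup.center X))).index = N.index := by
  rw [Subgroup.index_map, QuotientGroup.ker_mk', sup_eq_left.mpr hN,
    MonoidHom.range_eq_top.mpr (QuotientGroup.mk'_surjective _), Subgroup.index_top, mul_one]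

end MINR

/-- MINR: the structure of a minimal counterexample. -/
def Stmt_MINR (Cl : ∀ (Y : Type) [Group Y], Prop) : Prop :=
  ∀ (X : Type) [Group X] [Fintype X] (ℓ : ℕ) [Fact ℓ.Prime],
    pCore ℓ X ≤ Subgroup.center X → Cl X → HR Cl ℓ ((Subgroup.center X).index - 1) →
    ¬ DadeHolds ℓ X →
    ∃ N : Subgroup X, N.Normal ∧ Subgroup.center X < N ∧
      (∀ N' : Subgroup X, N'.Normal → Subgroup.center X < N' → N ≤ N') ∧
      IsSimpleGroup (N.map (QuotientGroup.mk' (Subgroup.center X))) ∧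
      IsSimpleGroup (N ⧸ (Subgroup.center X).subgroupOf N) ∧
      (∃ x ∈ N, ∃ y ∈ N, x * y * x⁻¹ * y⁻¹ ∉ Subgroup.center X) ∧
      (∃ x ∈ N, x ^ ℓ ∈ Subgroup.center X ∧ x ∉ Subgroup.center X) ∧
      (∀ x, (∀ y ∈ N, x * y * x⁻¹ * y⁻¹ ∈ Subgroup.center X) → x ∈ Subgroup.center X) ∧
      (∃ Q : Subgroup (X ⧸ Subgroup.center X), IsPGroup ℓ Q ∧ ¬ IsCyclic Q) ∧
      ∃ P M : Subgroup X, ∃ _ : P.Normal, M.Normal ∧ N ≤ P ∧ N ≤ M ∧
        (∀ x ∈ P, ∃ k : ℕ, x ^ ℓ ^ k ∈ N) ∧ ¬ ℓ ∣ P.index ∧ Group.IsNilpotent (X ⧸ P) ∧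
        (∃ x y : X, Subgroup.closure {x, y} ⊔ P = ⊤) ∧ (∀ x ∈ M, x ^ ℓ ∈ N → x ∈ N) ∧
        ∀ x y : X, x * y * x⁻¹ * y⁻¹ ∈ P ⊔ M

theorem MINR_thm (Cl : ∀ (Y : Type) [Group Y], Prop) (h1 : Stmt_FINR Cl) (h2 : Stmt_B0Fr Cl)
    (h3 : Stmt_STRNr Cl) (h4 : Stmt_OUT1r Cl) (h5 : Pool.Agent.DPN.Stmt_DLO) (h6 : Stmt_BAS)
    (h7 : Stmt_GRB) (h8 : Stmt_CYS) (h9 : Stmt_CYQ) : Stmt_MINR Cl := by
  classical
  intro X _ _ ℓ hf hcore hCl hHR hD
  have hℓ : ℓ.Prime := hf.out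
  obtain ⟨hA, N, hN, hNc, hmin⟩ := h2 X ℓ hcore hCl hHR hD
  obtain ⟨hdv, hna⟩ := hA N hN hNc
  obtain ⟨hs1, hs2⟩ := h1 X ℓ hcore hCl hHR hD N hN hNc hmin hna
  obtain ⟨P, hP, hNP, hPp, hPi, hPn, hPg⟩ := h3 X ℓ hcore hCl hHR hD N hN hNc
  obtain ⟨𝔐, h𝔐, hℓM, d, ω, hd, hK⟩ := h5 X ℓ hcore hD
  obtain ⟨M, hM, hNM, hMr, H, iH, fH, f, hfs, hfk, P₀, hP₀, hP₀p, hP₀i, hP₀c⟩ :=
    h4 X 𝔐 ℓ h𝔐 hℓM hcore hCl hHR d ω hd hK N hN hNc
  have hcent := MINR.cent N hN hmin hna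
  refine ⟨N, hN, hNc, hmin, hs1, hs2, hna, hdv, hcent, ?_, P, M, hP, hM, hNP, hNM, hPp, hPi, hPn,
    hPg, hMr, ?_⟩
  · by_contra hcyc
    push Not at hcyc
    let π : X →* X ⧸ Subgroup.center X := QuotientGroup.mk' (Subgroup.center X)
    have hπs : Function.Surjective π := QuotientGroup.mk'_surjective _
    have hπk : π.ker = Subgroup.center X := QuotientGroup.ker_mk' _
    obtain ⟨g1, g2, g3, g4, g5, g6, g7⟩ :=
      h7 X (X ⧸ Subgroup.center X) ℓ π hπs hπk N hN hNc hmin hna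
    have hdS : ℓ ∣ Nat.card (N.map π) := by
      obtain ⟨x, hx, hx1, hx2⟩ := hdv
      have h10 : (⟨π x, ⟨x, hx, rfl⟩⟩ : N.map π) ^ ℓ = 1 := by
        apply Subtype.ext
        change (π x) ^ ℓ = 1
        rw [← map_pow, ← MonoidHom.mem_ker, hπk]
        exact hx1
      rcases (Nat.dvd_prime hℓ).mp (orderOf_dvd_of_pow_eq_one h10) with h11 | h11
      · rw [orderOf_eq_one_iff] at h11
        have h12 : π x = 1 := congrArg Subtype.val h11
        rw [← MonoidHom.mem_ker, hπk] at h12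
        exact absurd h12 hx2
      · rw [← h11]
        exact orderOf_dvd_natCard _
    have hidx : ¬ ℓ ∣ (N.map π).index := by
      refine h8 (X ⧸ Subgroup.center X) ℓ (N.map π) (P.map π) g1 hs1 g4 hdS hcyc
        (Subgroup.map_mono hNP) ?_ ?_
      · rintro _ ⟨x, hx, rfl⟩
        obtain ⟨k, hk⟩ := hPp x hx
        exact ⟨k, x ^ ℓ ^ k, hk, map_pow π x _⟩
      · rw [MINR.index_map P (hNc.le.trans hNP)]
        exact hPi
    rw [MINR.index_map N hNc.le] at hidx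
    exact hD (h6 X ℓ hcore N hN hNc.le (UNC.perf N hN hNc hmin hna)
      (h9 X ℓ N hN hNc.le hcyc) hidx)
  · intro x y
    have hR : (P ⊔ M).Normal := inferInstance
    have hRi : ¬ ℓ ∣ (P ⊔ M).index := fun h =>
      hPi (h.trans (Subgroup.index_dvd_of_le le_sup_left))
    obtain ⟨k, hk⟩ := hP₀p ⟨f x * f y * (f x)⁻¹ * (f y)⁻¹, hP₀c (f x) (f y)⟩
    have h5 : (f x * f y * (f x)⁻¹ * (f y)⁻¹) ^ ℓ ^ k = 1 := congrArg Subtype.val hk
    have h6 : (x * y * x⁻¹ * y⁻¹) ^ ℓ ^ k ∈ M := by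
      rw [← hfk, map_pow, map_mul, map_mul, map_mul, map_inv, map_inv]
      exact h5
    exact MINR.mem_of_pow hℓ (P ⊔ M) hRi (le_sup_right (a := P) h6)

/-- The groups of the class `UD ℓ` satisfy Dade's conjecture. -/
theorem UNE_thm (ℓ : ℕ) [hf : Fact ℓ.Prime] (h1 : Stmt_MINR (UD ℓ)) (h7 : Stmt_GRB) :
    ∀ (X : Type) [Group X] [Finite X], UD ℓ X → pCore ℓ X ≤ Subgroup.center X →
      DadeHolds ℓ X := by
  classical
  have hmain : ∀ n : ℕ, HR (UD ℓ) ℓ n := by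
    intro n
    induction n with
    | zero =>
      intro Y _ _ _ _ hi
      exact absurd (Nat.le_zero.mp hi) Subgroup.index_ne_zero_of_finite
    | succ n ih =>
      intro Y _ _ hCl hcore hi
      by_contra hD
      let _ : Fintype Y := Fintype.ofFinite Y
      have hHR : HR (UD ℓ) ℓ ((Subgroup.center Y).index - 1) := ih.mono (by omega)
      obtain ⟨N, hN, hNc, hmin, hs1, hs2, hna, hdv, hcent, ⟨Q, hQ, hQc⟩, -⟩ :=
        h1 Y ℓ hcore hCl hHR hD
      apply hQc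
      let π : Y →* Y ⧸ Subgroup.center Y := QuotientGroup.mk' (Subgroup.center Y)
      have hπs : Function.Surjective π := QuotientGroup.mk'_surjective _
      have hπk : π.ker = Subgroup.center Y := QuotientGroup.ker_mk' _
      obtain ⟨g1, g2, g3, g4, g5, g6, g7⟩ :=
        h7 Y (Y ⧸ Subgroup.center Y) ℓ π hπs hπk N hN hNc hmin hna
      have hdS : ℓ ∣ Nat.card (N.map π) := by
        obtain ⟨x, hx, hx1, hx2⟩ := hdv
        have h10 : (⟨π x, ⟨x, hx, rfl⟩⟩ : N.map π) ^ ℓ = 1 := by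
          apply Subtype.ext
          change (π x) ^ ℓ = 1
          rw [← map_pow, ← MonoidHom.mem_ker, hπk]
          exact hx1
        rcases (Nat.dvd_prime hf.out).mp (orderOf_dvd_of_pow_eq_one h10) with h11 | h11
        · rw [orderOf_eq_one_iff] at h11
          have h12 : π x = 1 := congrArg Subtype.val h11
          rw [← MonoidHom.mem_ker, hπk] at h12
          exact absurd h12 hx2
        · rw [← h11]
          exact orderOf_dvd_natCard _
      exact hCl ⊤ (Y ⧸ Subgroup.center Y) (π.comp (⊤ : Subgroup Y).subtype)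
        (fun k => by obtain ⟨x, rfl⟩ := hπs k; exact ⟨⟨x, Subgroup.mem_top x⟩, rfl⟩)
        (N.map π) g1 hs1 g4 g5 hdS Q hQ
  intro X _ _ hCl hcore
  exact hmain _ X hCl hcore le_rfl

end Pool.Agent.DPK


end

section

/-!
# Dade's conjecture: reduction to central extensions with kernel in the commutator subgroup:
statements of the modules
-/

namespace Pool.Agent.DPH

open Pool.Agent.DP Pool.Agent.DPC Pool.Agent.DPM Pool.Agent.DPN Pool.Agent.DPF
  Pool.Agent.Lib_helper13 Representation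
open Pool.Agent.Lib_helper13.Dade (pCore DadeHolds dadeSum)

/-- STM: a central extension which belongs to the same class and whose kernel lies in the commutator
subgroup. -/
def Stmt_STM : Prop :=
  ∀ (L K : Type) [Group L] [Fintype L] [Group K] [Fintype K] (π : L →* K),
    Function.Surjective π → π.ker ≤ Subgroup.center L → ∀ μ : π.ker →* ℂˣ,
    Function.Injective μ →
    ∃ (L1 : Type) (_ : Group L1) (_ : Fintype L1) (π1 : L1 →* K) (μ1 : π1.ker →* ℂˣ)
      (i : L →* L1) (B : Subgroup L1), Function.Surjective π1 ∧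
      π1.ker ≤ Subgroup.center L1 ∧ Function.Injective μ1 ∧ Function.Injective i ∧
      (∀ l, π1 (i l) = π l) ∧ (∀ (u : π.ker) (h : i u ∈ π1.ker), μ1 ⟨i u, h⟩ = μ u) ∧
      (∀ x, ∃ b ∈ B, ∃ z ∈ π1.ker, x = b * z) ∧ ∀ x ∈ B, π1 x = 1 → x ∈ ⁅B, B⁆

/-- CPR: the chain sums of a central product. -/
def Stmt_CPR : Prop :=
  ∀ (B L K : Type) [Group B] [Fintype B] [Group L] [Fintype L] [Group K] [Fintype K]
    (𝔐 : Ideal (integralClosure ℤ ℂ)) (ℓ : ℕ) [Fact ℓ.Prime], 𝔐.IsMaximal →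
    (ℓ : integralClosure ℤ ℂ) ∈ 𝔐 → ∀ (j : B →* L) (π : L →* K), Function.Injective j →
    Function.Surjective (π.comp j) → π.ker ≤ Subgroup.center L →
    ∀ (μ : π.ker →* ℂˣ) (μB : (π.comp j).ker →* ℂˣ),
    (∀ (u : (π.comp j).ker) (h : j u ∈ π.ker), μ ⟨j u, h⟩ = μB u) →
    (∀ (d : ℕ) (c : L → (integralClosure ℤ ℂ) ⧸ 𝔐), padicValNat ℓ (Nat.card π.ker) < d →
      DKU 𝔐 ℓ d π μ ⊤ c ≠ 0 →
      ∃ (d' : ℕ) (c' : B → (integralClosure ℤ ℂ) ⧸ 𝔐),
        padicValNat ℓ (Nat.card (π.comp j).ker) < d' ∧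
        DKU 𝔐 ℓ d' (π.comp j) μB ⊤ c' ≠ 0) ∧
    ∀ (d' : ℕ) (c' : B → (integralClosure ℤ ℂ) ⧸ 𝔐),
      padicValNat ℓ (Nat.card (π.comp j).ker) < d' → DKU 𝔐 ℓ d' (π.comp j) μB ⊤ c' ≠ 0 →
      ∃ (d : ℕ) (c : L → (integralClosure ℤ ℂ) ⧸ 𝔐), padicValNat ℓ (Nat.card π.ker) < d ∧
        DKU 𝔐 ℓ d π μ ⊤ c ≠ 0

/-- TDQ: a nonvanishing twisted chain sum gives a counterexample. -/
def Stmt_TDQ : Prop :=
  ∀ (L K : Type) [Group L] [Fintype L] [Group K] [Fintype K]
    (𝔐 : Ideal (integralClosure ℤ ℂ)) (ℓ : ℕ) [Fact ℓ.Prime], 𝔐.IsMaximal →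
    (ℓ : integralClosure ℤ ℂ) ∈ 𝔐 → ∀ π : L →* K, Function.Surjective π → pCore ℓ K = ⊥ →
    π.ker ≤ Subgroup.center L → ∀ μ : π.ker →* ℂˣ, Function.Injective μ → ∀ (d : ℕ)
    (c : L → (integralClosure ℤ ℂ) ⧸ 𝔐), padicValNat ℓ (Nat.card π.ker) < d →
    DKU 𝔐 ℓ d π μ ⊤ c ≠ 0 →
    ∃ (L' : Type) (_ : Group L') (_ : Finite L') (q : L →* L'), Function.Surjective q ∧
      q.ker ≤ π.ker ∧ IsPGroup ℓ q.ker ∧ pCore ℓ L' ≤ Subgroup.center L' ∧ ¬ DadeHolds ℓ L'

/-- DTP: passage from the blocks of a normal subgroup to the blocks of the group. -/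
def Stmt_DTP : Prop :=
  ∀ (L K : Type) [Group L] [Fintype L] [Group K] [Fintype K]
    (𝔐 : Ideal (integralClosure ℤ ℂ)) (ℓ : ℕ) [Fact ℓ.Prime], 𝔐.IsMaximal →
    (ℓ : integralClosure ℤ ℂ) ∈ 𝔐 → ∀ π : L →* K, Function.Surjective π → pCore ℓ K = ⊥ →
    π.ker ≤ Subgroup.center L → ∀ (μ : π.ker →* ℂˣ) (M : Subgroup K), M.Normal →
    ∀ (d : ℕ) (ω : L → (integralClosure ℤ ℂ) ⧸ 𝔐), Pos 𝔐 ℓ π μ M ω →
    DKU 𝔐 ℓ d π μ M ω ≠ 0 →
    padicValNat ℓ (Nat.card π.ker) < d ∧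
      ∃ c : L → (integralClosure ℤ ℂ) ⧸ 𝔐, DKU 𝔐 ℓ d π μ ⊤ c ≠ 0

/-- ZQC: the quotients of a central extension of a group with trivial centre. -/
def Stmt_ZQC : Prop :=
  ∀ (L K L' : Type) [Group L] [Finite L] [Group K] [Finite K] [Group L'] [Finite L']
    (π : L →* K), Function.Surjective π → π.ker ≤ Subgroup.center L →
    Subgroup.center K = ⊥ → IsCyclic π.ker → π.ker ≤ ⁅(⊤ : Subgroup L), ⊤⁆ →
    ∀ q : L →* L', Function.Surjective q → q.ker ≤ π.ker →
    ∃ π' : L' →* K, (∀ l, π' (q l) = π l) ∧ Function.Surjective π' ∧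
      π'.ker = Subgroup.center L' ∧ IsCyclic (Subgroup.center L') ∧
      Subgroup.center L' ≤ ⁅(⊤ : Subgroup L'), ⊤⁆

/-- STE: a counterexample whose centre is cyclic and lies in the commutator subgroup. -/
def Stmt_STE : Prop :=
  ∀ (L K : Type) [Group L] [Fintype L] [Group K] [Fintype K]
    (𝔐 : Ideal (integralClosure ℤ ℂ)) (ℓ : ℕ) [Fact ℓ.Prime], 𝔐.IsMaximal →
    (ℓ : integralClosure ℤ ℂ) ∈ 𝔐 → ∀ π : L →* K, Function.Surjective π → pCore ℓ K = ⊥ →
    Subgroup.center K = ⊥ → π.ker ≤ Subgroup.center L → ∀ μ : π.ker →* ℂˣ,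
    Function.Injective μ → ∀ (M : Subgroup K), M.Normal →
    ∀ (d : ℕ) (ω : L → (integralClosure ℤ ℂ) ⧸ 𝔐), Pos 𝔐 ℓ π μ M ω →
    DKU 𝔐 ℓ d π μ M ω ≠ 0 →
    ∃ (Y : Type) (_ : Group Y) (_ : Finite Y) (πY : Y →* K), Function.Surjective πY ∧
      πY.ker = Subgroup.center Y ∧ IsCyclic (Subgroup.center Y) ∧
      Subgroup.center Y ≤ ⁅(⊤ : Subgroup Y), ⊤⁆ ∧ pCore ℓ Y ≤ Subgroup.center Y ∧
      ¬ DadeHolds ℓ Y

end Pool.Agent.DPH


end

section

/-!
# FINS: the minimal normal subgroup of a minimal counterexample is simple modulo the centre, and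
the centre may be assumed to be cyclic and contained in the commutator subgroup
-/

namespace Pool.Agent.DPK

open Pool.Agent.DP Pool.Agent.DPC Pool.Agent.DPM Pool.Agent.DPN Pool.Agent.DPT Pool.Agent.DPF
open Pool.Agent.Lib_helper13
open Representation
open Pool.Agent.Lib_helper13.Dade (pCore DadeHolds dadeSum)

/-- FINS: the minimal normal subgroup of a minimal counterexample is simple modulo the centre, and
there is a counterexample with the same quotient by the centre whose centre is cyclic and contained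
in the commutator subgroup. -/
def Stmt_FINS (Cl : ∀ (Y : Type) [Group Y], Prop) : Prop :=
  ∀ (X : Type) [Group X] [Fintype X] (ℓ : ℕ) [Fact ℓ.Prime],
    pCore ℓ X ≤ Subgroup.center X → Cl X → HR Cl ℓ ((Subgroup.center X).index - 1) →
    ¬ DadeHolds ℓ X → ∀ N : Subgroup X, N.Normal → Subgroup.center X < N →
    (∀ N' : Subgroup X, N'.Normal → Subgroup.center X < N' → N ≤ N') →
    (∃ x ∈ N, ∃ y ∈ N, x * y * x⁻¹ * y⁻¹ ∉ Subgroup.center X) →
    IsSimpleGroup (N.map (QuotientGroup.mk' (Subgroup.center X))) ∧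
      IsSimpleGroup (N ⧸ (Subgroup.center X).subgroupOf N) ∧
      ∃ (Y : Type) (_ : Group Y) (_ : Finite Y) (πY : Y →* X ⧸ Subgroup.center X),
        Function.Surjective πY ∧ πY.ker = Subgroup.center Y ∧ IsCyclic (Subgroup.center Y) ∧
        Subgroup.center Y ≤ ⁅(⊤ : Subgroup Y), ⊤⁆ ∧ pCore ℓ Y ≤ Subgroup.center Y ∧
        ¬ DadeHolds ℓ Y

theorem FINS_thm (Cl : ∀ (Y : Type) [Group Y], Prop) (hC : GC Cl)
    (h1 : Pool.Agent.DPG.Stmt_TEN Cl) (h2 : Stmt_QMU) (h3 : Stmt_BSA) (h4 : Stmt_BSB)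
    (h5 : Stmt_GRA) (h6 : Stmt_GRB) (h7 : Stmt_OUT2r Cl) (h8 : Pool.Agent.DPT.Stmt_GLU)
    (h9 : Pool.Agent.DPN.Stmt_DLO)
    (h10 : Pool.Agent.DPH.Stmt_STE) : Stmt_FINS Cl := by
  classical
  intro X _ _ ℓ _ hcore hCl hHR hD N hN hNc hmin hna
  obtain ⟨𝔐, h𝔐, hℓ, d, ω, hd, hK⟩ := h9 X ℓ hcore hD
  obtain ⟨M, hM, hNM, hMr, ⟨H, iH, fH, f, hfs, hfk, hHH⟩, hOut⟩ :=
    h7 X 𝔐 ℓ h𝔐 hℓ hcore hCl hHR d ω hd hK N hN hNc
  have hZM : Subgroup.center X ≤ M := hNc.le.trans hNM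
  let π : X →* X ⧸ Subgroup.center X := QuotientGroup.mk' (Subgroup.center X)
  have hπs : Function.Surjective π := QuotientGroup.mk'_surjective _
  have hπk : π.ker = Subgroup.center X := QuotientGroup.ker_mk' _
  let _ : Fintype (X ⧸ Subgroup.center X) := Fintype.ofFinite _
  obtain ⟨μ, hPos, hDKU⟩ := h8 X H 𝔐 ℓ h𝔐 hℓ hcore d ω hd hK M hZM f hfs hfk hHH
    (X ⧸ Subgroup.center X) π hπs hπk
  obtain ⟨g1, g2, g3, g4, g5, g6, g7⟩ := h6 X (X ⧸ Subgroup.center X) ℓ π hπs hπk N hN hNc hmin hna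
  obtain ⟨g8, g9⟩ := g7 M hNM hMr
  have hkN : π.ker ≤ N := hπk.le.trans hNc.le
  have hO : OutN 𝔐 N M ω := hOut
  have hSTB := h3 X (X ⧸ Subgroup.center X) 𝔐 h𝔐 π μ N M hN hkN hNM ω hO
  have hSPP := h4 X (X ⧸ Subgroup.center X) 𝔐 h𝔐 π μ N M hN hkN hNM ω hO
  have hMn : (M.map π).Normal := hM.map π hπs
  obtain ⟨L', iL, fL, π', μ', d', ω', q1, q2, q3, q4, q5, q6, q7⟩ :=
    h2 X (X ⧸ Subgroup.center X) 𝔐 ℓ h𝔐 hℓ π hπs hπk.le μ (N.map π) (M.map π) g1 hMn g8 ω d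
      hPos hDKU hSTB hSPP
  -- the quotient by `M`
  let p : X ⧸ Subgroup.center X →* H := QuotientGroup.lift (Subgroup.center X) f
    (fun x hx => (hfk x).mpr (hZM hx))
  have hpπ : ∀ x, p (π x) = f x := fun x => rfl
  have hps : Function.Surjective p := by
    intro h
    obtain ⟨x, rfl⟩ := hfs h
    exact ⟨π x, rfl⟩
  have hpk : ∀ k, p k = 1 ↔ k ∈ M.map π := by
    intro k
    obtain ⟨x, rfl⟩ := hπs k
    rw [hpπ, hfk]
    constructor
    · intro hx
      exact ⟨x, hx, rfl⟩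
    · rintro ⟨y, hy, hyx⟩
      have h10 : y⁻¹ * x ∈ π.ker := by
        rw [MonoidHom.mem_ker, map_mul, map_inv, hyx, inv_mul_cancel]
      rw [hπk] at h10
      have h11 := M.mul_mem hy (hZM h10)
      rwa [mul_inv_cancel_left] at h11
  obtain ⟨P, hP1, hP2, hP3, hP4⟩ := hHH
  let _ : Fintype H := Fintype.ofFinite H
  have hindex : Nat.card (X ⧸ Subgroup.center X) = (Subgroup.center X).index := rfl
  have hlt : ∀ n < Nat.card (X ⧸ Subgroup.center X), HR Cl ℓ n := by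
    intro n hn
    rw [hindex] at hn
    exact hHR.mono (by omega)
  have hcenK : Subgroup.center (X ⧸ Subgroup.center X) = ⊥ := by
    rw [eq_bot_iff]
    intro k hk
    rw [← g5, Subgroup.mem_centralizer_iff]
    intro x _
    exact Subgroup.mem_center_iff.mp hk x
  suffices hsim : IsSimpleGroup (N.map π) from
    ⟨hsim, g6 hsim, h10 L' (X ⧸ Subgroup.center X) 𝔐 ℓ h𝔐 hℓ π' q1
      (h5 X (X ⧸ Subgroup.center X) ℓ π hπs hπk hcore) hcenK q2 μ' q3 (M.map π) hMn d' ω' q4 q5⟩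
  by_contra hns
  refine q5 (h1 L' (X ⧸ Subgroup.center X) H 𝔐 ℓ h𝔐 hℓ π' q1 q2 μ' q3
    (h5 X (X ⧸ Subgroup.center X) ℓ π hπs hπk hcore) hC (hC.quot hCl _) hlt (M.map π) p hps hpk P
    ⟨hP1, hP2, hP3, hP4⟩ ω' q4 (N.map π) g8 g9 g2 ?_ g4 ?_ hns q6 q7 d')
  · intro N' hN' hle
    by_cases h10 : N' = ⊥
    · exact Or.inl h10
    · exact Or.inr (le_antisymm hle (g3 N' hN' h10))
  · intro k hk
    have h10 : k ∈ Subgroup.centralizer (N.map π : Set (X ⧸ Subgroup.center X)) := by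
      rw [Subgroup.mem_centralizer_iff]
      intro x hx
      exact (hk x hx).symm
    rw [g5] at h10
    exact h10

end Pool.Agent.DPK


end

section

/-!
# MINS: the structure of a minimal counterexample to Dade's conjecture in a class of groups, and a
counterexample with the same quotient by the centre whose centre is cyclic and contained in the
commutator subgroup
-/

namespace Pool.Agent.DPK

open Pool.Agent.DP Pool.Agent.DPC Pool.Agent.DPM Pool.Agent.DPN Pool.Agent.DPT Pool.Agent.DPF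
open Pool.Agent.Lib_helper13
open Representation
open Pool.Agent.Lib_helper13.Dade (pCore DadeHolds dadeSum)

/-- `A` has a nonabelian simple normal subgroup `S` of order divisible by `ℓ` with trivial
centralizer, the Sylow `ℓ`-subgroups of `A` are not cyclic, and `A / S` has a normal Sylow
`ℓ`-subgroup `P / S` and a normal subgroup `M / S` of order prime to `ℓ` such that `A / P` is
nilpotent and generated by two elements and `A / PM` is abelian. -/
def CritA (ℓ : ℕ) (A : Type) [Group A] : Prop :=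
  (∃ Q : Subgroup A, IsPGroup ℓ Q ∧ ¬ IsCyclic Q) ∧
  ∃ S P M : Subgroup A, S.Normal ∧ IsSimpleGroup S ∧ (∃ a ∈ S, ∃ b ∈ S, a * b ≠ b * a) ∧
    ℓ ∣ Nat.card S ∧ Subgroup.centralizer (S : Set A) = ⊥ ∧
    ∃ _ : P.Normal, M.Normal ∧ S ≤ P ∧ S ≤ M ∧ (∀ x ∈ P, ∃ k : ℕ, x ^ ℓ ^ k ∈ S) ∧
      ¬ ℓ ∣ P.index ∧ Group.IsNilpotent (A ⧸ P) ∧
      (∃ x y : A, Subgroup.closure {x, y} ⊔ P = ⊤) ∧ (∀ x ∈ M, x ^ ℓ ∈ S → x ∈ S) ∧
      ∀ x y : A, x * y * x⁻¹ * y⁻¹ ∈ P ⊔ M

/-- MINS: the structure of a minimal counterexample. -/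
def Stmt_MINS (Cl : ∀ (Y : Type) [Group Y], Prop) : Prop :=
  ∀ (X : Type) [Group X] [Fintype X] (ℓ : ℕ) [Fact ℓ.Prime],
    pCore ℓ X ≤ Subgroup.center X → Cl X → HR Cl ℓ ((Subgroup.center X).index - 1) →
    ¬ DadeHolds ℓ X →
    CritA ℓ (X ⧸ Subgroup.center X) ∧
      ∃ (Y : Type) (_ : Group Y) (_ : Finite Y) (πY : Y →* X ⧸ Subgroup.center X),
        Function.Surjective πY ∧ πY.ker = Subgroup.center Y ∧ IsCyclic (Subgroup.center Y) ∧
        Subgroup.center Y ≤ ⁅(⊤ : Subgroup Y), ⊤⁆ ∧ pCore ℓ Y ≤ Subgroup.center Y ∧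
        ¬ DadeHolds ℓ Y

theorem MINS_thm (Cl : ∀ (Y : Type) [Group Y], Prop) (h1 : Stmt_FINS Cl) (h2 : Stmt_B0Fr Cl)
    (h3 : Stmt_STRNr Cl) (h4 : Stmt_OUT1r Cl) (h5 : Pool.Agent.DPN.Stmt_DLO) (h6 : Stmt_BAS)
    (h7 : Stmt_GRB) (h8 : Stmt_CYS) (h9 : Stmt_CYQ) : Stmt_MINS Cl := by
  classical
  intro X _ _ ℓ hf hcore hCl hHR hD
  have hℓ : ℓ.Prime := hf.out
  obtain ⟨hA, N, hN, hNc, hmin⟩ := h2 X ℓ hcore hCl hHR hD
  obtain ⟨hdv, hna⟩ := hA N hN hNc
  obtain ⟨hs1, hs2, hY⟩ := h1 X ℓ hcore hCl hHR hD N hN hNc hmin hna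
  obtain ⟨P, hP, hNP, hPp, hPi, hPn, hPg⟩ := h3 X ℓ hcore hCl hHR hD N hN hNc
  obtain ⟨𝔐, h𝔐, hℓM, d, ω, hd, hK⟩ := h5 X ℓ hcore hD
  obtain ⟨M, hM, hNM, hMr, H, iH, fH, f, hfs, hfk, P₀, hP₀, hP₀p, hP₀i, hP₀c⟩ :=
    h4 X 𝔐 ℓ h𝔐 hℓM hcore hCl hHR d ω hd hK N hN hNc
  let π : X →* X ⧸ Subgroup.center X := QuotientGroup.mk' (Subgroup.center X)
  have hπs : Function.Surjective π := QuotientGroup.mk'_surjective _
  have hπk : π.ker = Subgroup.center X := QuotientGroup.ker_mk' _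
  obtain ⟨g1, g2, g3, g4, g5, g6, g7⟩ :=
    h7 X (X ⧸ Subgroup.center X) ℓ π hπs hπk N hN hNc hmin hna
  have hdS : ℓ ∣ Nat.card (N.map π) := by
    obtain ⟨x, hx, hx1, hx2⟩ := hdv
    have h10 : (⟨π x, ⟨x, hx, rfl⟩⟩ : N.map π) ^ ℓ = 1 := by
      apply Subtype.ext
      change (π x) ^ ℓ = 1
      rw [← map_pow, ← MonoidHom.mem_ker, hπk]
      exact hx1
    rcases (Nat.dvd_prime hℓ).mp (orderOf_dvd_of_pow_eq_one h10) with h11 | h11
    · rw [orderOf_eq_one_iff] at h11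
      have h12 : π x = 1 := congrArg Subtype.val h11
      rw [← MonoidHom.mem_ker, hπk] at h12
      exact absurd h12 hx2
    · rw [← h11]
      exact orderOf_dvd_natCard _
  have hPmap : (P.map π).index = P.index := MINR.index_map P (hNc.le.trans hNP)
  have hPm : ∀ x ∈ P.map π, ∃ k : ℕ, x ^ ℓ ^ k ∈ N.map π := by
    rintro _ ⟨x, hx, rfl⟩
    obtain ⟨k, hk⟩ := hPp x hx
    exact ⟨k, x ^ ℓ ^ k, hk, map_pow π x _⟩
  have hmemN : ∀ x : X, π x ∈ N.map π → x ∈ N := by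
    rintro x ⟨y, hy, hyx⟩
    have h10 : y⁻¹ * x ∈ π.ker := by
      rw [MonoidHom.mem_ker, map_mul, map_inv, hyx, inv_mul_cancel]
    rw [hπk] at h10
    have h11 := N.mul_mem hy (hNc.le h10)
    rwa [mul_inv_cancel_left] at h11
  refine ⟨⟨?_, N.map π, P.map π, M.map π, g1, hs1, g4, hdS, g5, hP.map π hπs, hM.map π hπs,
    Subgroup.map_mono hNP, Subgroup.map_mono hNM, hPm, ?_, ?_, ?_, ?_, ?_⟩, hY⟩
  · by_contra hcyc
    push Not at hcyc
    have hidx : ¬ ℓ ∣ (N.map π).index := by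
      refine h8 (X ⧸ Subgroup.center X) ℓ (N.map π) (P.map π) g1 hs1 g4 hdS hcyc
        (Subgroup.map_mono hNP) hPm ?_
      rw [hPmap]
      exact hPi
    rw [MINR.index_map N hNc.le] at hidx
    exact hD (h6 X ℓ hcore N hN hNc.le (UNC.perf N hN hNc hmin hna)
      (h9 X ℓ N hN hNc.le hcyc) hidx)
  · rw [hPmap]
    exact hPi
  · have : (P.map π).Normal := hP.map π hπs
    exact Group.nilpotent_of_surjective
      (QuotientGroup.map P (P.map π) π (Subgroup.le_comap_map π P))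
      (fun q => by
        obtain ⟨a, rfl⟩ := QuotientGroup.mk'_surjective _ q
        obtain ⟨x, rfl⟩ := hπs a
        exact ⟨QuotientGroup.mk' P x, rfl⟩)
  · obtain ⟨x, y, hxy⟩ := hPg
    refine ⟨π x, π y, ?_⟩
    have h10 : (Subgroup.closure {x, y} ⊔ P).map π = ⊤ := by
      rw [hxy, Subgroup.map_top_of_surjective π hπs]
    rw [Subgroup.map_sup, MonoidHom.map_closure, Set.image_pair] at h10
    exact h10
  · rintro _ ⟨x, hx, rfl⟩ hxl
    rw [← map_pow] at hxl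
    exact ⟨x, hMr x hx (hmemN _ hxl), rfl⟩
  · intro a b
    obtain ⟨x, rfl⟩ := hπs a
    obtain ⟨y, rfl⟩ := hπs b
    have hR : (P ⊔ M).Normal := inferInstance
    have hRi : ¬ ℓ ∣ (P ⊔ M).index := fun h =>
      hPi (h.trans (Subgroup.index_dvd_of_le le_sup_left))
    obtain ⟨k, hk⟩ := hP₀p ⟨f x * f y * (f x)⁻¹ * (f y)⁻¹, hP₀c (f x) (f y)⟩
    have h5 : (f x * f y * (f x)⁻¹ * (f y)⁻¹) ^ ℓ ^ k = 1 := congrArg Subtype.val hk
    have h6 : (x * y * x⁻¹ * y⁻¹) ^ ℓ ^ k ∈ M := by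
      rw [← hfk, map_pow, map_mul, map_mul, map_mul, map_inv, map_inv]
      exact h5
    have h7 : x * y * x⁻¹ * y⁻¹ ∈ P ⊔ M :=
      MINR.mem_of_pow hℓ (P ⊔ M) hRi (le_sup_right (a := P) h6)
    rw [← Subgroup.map_sup]
    exact ⟨_, h7, by rw [map_mul, map_mul, map_mul, map_inv, map_inv]⟩

end Pool.Agent.DPK


end

section

namespace Pool.Agent.DPH

open Pool.Agent.DP Pool.Agent.DPC Pool.Agent.DPM Pool.Agent.DPN Pool.Agent.DPF
  Pool.Agent.Lib_helper13 Representation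

theorem ZQC_thm : Stmt_ZQC := by
  intro L K L' _ _ _ _ _ _ π hπ hc hK hcyc hcomm q hq hker
  let π' : L' →* K := q.liftOfSurjective hq ⟨π, hker⟩
  have hπ' : ∀ l, π' (q l) = π l := fun l => MonoidHom.liftOfRightInverse_comp_apply _ _ _ _ l
  have hπ's : Function.Surjective π' := by
    intro k
    obtain ⟨l, hl⟩ := hπ k
    exact ⟨q l, by rw [hπ', hl]⟩
  have hk : π'.ker = π.ker.map q := by
    ext l'
    obtain ⟨l, rfl⟩ := hq l'
    rw [MonoidHom.mem_ker, hπ', Subgroup.mem_map]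
    constructor
    · intro h
      exact ⟨l, h, rfl⟩
    · rintro ⟨u, hu, hul⟩
      have h6 : u⁻¹ * l ∈ q.ker := by
        rw [MonoidHom.mem_ker, map_mul, map_inv, hul, inv_mul_cancel]
      have h7 := π.ker.mul_mem hu (hker h6)
      rwa [mul_inv_cancel_left, MonoidHom.mem_ker] at h7
  have hle : π.ker.map q ≤ Subgroup.center L' := by
    rintro _ ⟨u, hu, rfl⟩
    rw [Subgroup.mem_center_iff]
    intro g
    obtain ⟨l, rfl⟩ := hq g
    rw [← map_mul, ← map_mul, Subgroup.mem_center_iff.mp (hc hu) l]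
  have heq : π'.ker = Subgroup.center L' := by
    apply le_antisymm
    · rw [hk]
      exact hle
    · intro z hz
      have h1 : π' z ∈ Subgroup.center K := by
        rw [Subgroup.mem_center_iff]
        intro k
        obtain ⟨l, rfl⟩ := hπ's k
        rw [← map_mul, ← map_mul, Subgroup.mem_center_iff.mp hz l]
      rw [hK, Subgroup.mem_bot] at h1
      exact MonoidHom.mem_ker.mpr h1
  refine ⟨π', hπ', hπ's, heq, ?_, ?_⟩
  · rw [← heq, hk]
    exact isCyclic_of_surjective (q.subgroupMap π.ker) (q.subgroupMap_surjective π.ker)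
  · rw [← heq, hk]
    have h1 : Subgroup.map q ⁅(⊤ : Subgroup L), ⊤⁆ = ⁅(⊤ : Subgroup L'), ⊤⁆ := by
      rw [Subgroup.map_commutator, Subgroup.map_top_of_surjective q hq]
    rw [← h1]
    exact Subgroup.map_mono hcomm

end Pool.Agent.DPH


end

section

/-!
# A counterexample whose centre is cyclic and lies in the commutator subgroup
-/

namespace Pool.Agent.DPH

open Pool.Agent.DP Pool.Agent.DPC Pool.Agent.DPM Pool.Agent.DPN Pool.Agent.DPF
  Pool.Agent.Lib_helper13 Representation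
open Pool.Agent.Lib_helper13.Dade (pCore DadeHolds dadeSum)

namespace STE

/-- The kernel of the restriction, as a subgroup of the kernel. -/
def kmap {L1 K : Type} [Group L1] [Group K] (π1 : L1 →* K) (B : Subgroup L1) :
    (π1.comp B.subtype).ker →* π1.ker :=
  (B.subtype.comp (π1.comp B.subtype).ker.subtype).codRestrict π1.ker (fun u => u.2)

theorem kmap_inj {L1 K : Type} [Group L1] [Group K] (π1 : L1 →* K) (B : Subgroup L1) :
    Function.Injective (kmap π1 B) := by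
  intro u v h
  have h1 := congrArg (fun w : π1.ker => (w : L1)) h
  apply Subtype.ext
  apply Subtype.ext
  exact h1

theorem ker_central {L1 K : Type} [Group L1] [Group K] (π1 : L1 →* K) (B : Subgroup L1)
    (h : π1.ker ≤ Subgroup.center L1) : (π1.comp B.subtype).ker ≤ Subgroup.center B := by
  intro b hb
  have h1 : (b : L1) ∈ Subgroup.center L1 := h hb
  rw [Subgroup.mem_center_iff] at h1 ⊢
  intro g
  apply Subtype.ext
  exact h1 g

theorem ker_comm {L1 K : Type} [Group L1] [Group K] (π1 : L1 →* K) (B : Subgroup L1)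
    (h : ∀ x ∈ B, π1 x = 1 → x ∈ ⁅B, B⁆) : (π1.comp B.subtype).ker ≤ ⁅(⊤ : Subgroup B), ⊤⁆ := by
  intro b hb
  have h1 : (b : L1) ∈ ⁅B, B⁆ := h b b.2 hb
  have h2 : Subgroup.map B.subtype ⁅(⊤ : Subgroup B), ⊤⁆ = ⁅B, B⁆ := by
    rw [Subgroup.map_commutator, ← MonoidHom.range_eq_map, Subgroup.range_subtype]
  rw [← h2] at h1
  obtain ⟨b', hb', e⟩ := h1
  have e' : b' = b := Subtype.ext e
  rw [← e']
  exact hb'

theorem comp_surj {L1 K : Type} [Group L1] [Group K] (π1 : L1 →* K) (B : Subgroup L1)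
    (hs : Function.Surjective π1) (h : ∀ x, ∃ b ∈ B, ∃ z ∈ π1.ker, x = b * z) :
    Function.Surjective (π1.comp B.subtype) := by
  intro k
  obtain ⟨x, hx⟩ := hs k
  obtain ⟨b, hb, z, hz, e⟩ := h x
  refine ⟨⟨b, hb⟩, ?_⟩
  show π1 b = k
  rw [← hx, e, map_mul, (MonoidHom.mem_ker).1 hz, mul_one]

theorem cyc {G : Type} [Group G] [Finite G] (μ : G →* ℂˣ) (h : Function.Injective μ) :
    IsCyclic G := by
  apply isCyclic_of_subgroup_isDomain ((Units.coeHom ℂ).comp μ)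
  intro a b hab
  apply h
  apply Units.ext
  exact hab

end STE

theorem STE_thm (h1 : Stmt_STM) (h2 : Stmt_CPR) (h3 : Stmt_TDQ) (h4 : Stmt_DTP)
    (h5 : Stmt_ZQC) : Stmt_STE := by
  intro L K _ _ _ _ 𝔐 ℓ _ hM hℓ π hπ hK hZ hker μ hμ M hN d ω hpos hne
  obtain ⟨hd, c, hc⟩ := h4 L K 𝔐 ℓ hM hℓ π hπ hK hker μ M hN d ω hpos hne
  obtain ⟨L1, _, _, π1, μ1, i, B, hs1, hk1, hm1, hi, hpi, hmu, hB, hBc⟩ := h1 L K π hπ hker μ hμ
  have he : π1.comp i = π := MonoidHom.ext hpi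
  subst he
  obtain ⟨d1, c1, hd1, hc1⟩ := (h2 L L1 K 𝔐 ℓ hM hℓ i π1 hi hπ hk1 μ1 μ
    (fun u h => hmu u h)).2 d c hd hc
  letI : Fintype B := Fintype.ofFinite B
  have hsB := STE.comp_surj π1 B hs1 hB
  obtain ⟨d2, c2, hd2, hc2⟩ := (h2 B L1 K 𝔐 ℓ hM hℓ B.subtype π1 B.subtype_injective hsB hk1 μ1
    (μ1.comp (STE.kmap π1 B)) (fun u h => rfl)).1 d1 c1 hd1 hc1
  have hmB : Function.Injective (μ1.comp (STE.kmap π1 B)) := hm1.comp (STE.kmap_inj π1 B)
  obtain ⟨L', _, _, q, hq, hqk, _, hp, hD⟩ := h3 B K 𝔐 ℓ hM hℓ (π1.comp B.subtype) hsB hK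
    (STE.ker_central π1 B hk1) (μ1.comp (STE.kmap π1 B)) hmB d2 c2 hd2 hc2
  obtain ⟨πY, -, hY1, hY2, hY3, hY4⟩ := h5 B K L' (π1.comp B.subtype) hsB
    (STE.ker_central π1 B hk1) hZ (STE.cyc _ hmB) (STE.ker_comm π1 B hBc) q hq hqk
  exact ⟨L', inferInstance, inferInstance, πY, hY1, hY2, hY3, hY4, hp, hD⟩

end Pool.Agent.DPH


end
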