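import Mathlib
import Pool.Agent.DAM.C05
import Pool.Agent.DAM.C104
import Pool.Agent.DAM.C14
import Pool.Agent.DAM.C26
import Pool.Agent.DAM.C27
import Pool.Agent.DAM.C32
import Pool.Agent.DAM.C33
import Pool.Agent.DAM.C35
import Pool.Agent.DAM.C38
import Pool.Agent.DAM.C39
import Pool.Agent.DAM.C44
import Pool.Agent.DAM.C45
import Pool.Agent.DAM.C50
import Pool.Agent.DAM.C56
import Pool.Agent.DAM.C57
import Pool.Agent.DAM.C64
import Pool.Agent.DAM.C67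

/-! Parts: DPT.TWL, DPT.CRS, DPT.DDS, DPT.GLU, DPK.RDXr, DPK.DDSr, DPK.OSR, DPK.QMA, DPK.QMB, DPK.QMU, DPV.HATI, DPW.HATIP, DPG.DFT -/

section

/-!
# TWL: twisting the chain sum by a linear character
-/

set_option autoImplicit false
set_option linter.unusedSectionVars false

namespace Pool.Agent.DPT

open Pool.Agent.DP Pool.Agent.DPC Pool.Agent.DPM Pool.Agent.DPN Pool.Agent.Lib_helper13
open Representation

namespace TWL

theorem isIrr_tw {Y : Type} [Group Y] [Fintype Y] {η : Y → ℂ} (h : IsIrr η) (c : Y →* ℂˣ) :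
    IsIrr (fun y => ((c y : ℂˣ) : ℂ) * η y) := by
  have hc : IsChr (fun y => ((c y : ℂˣ) : ℂ) * η y) := (isChr_lin c).mul h.isChr
  apply hc.isIrr
  rw [← h.sum_self]
  refine Finset.sum_congr rfl fun y _ => ?_
  have h1 : ((c y : ℂˣ) : ℂ) * ((c y⁻¹ : ℂˣ) : ℂ) = 1 := by
    rw [← Units.val_mul, ← map_mul, mul_inv_cancel, map_one, Units.val_one]
  calc ((c y : ℂˣ) : ℂ) * η y * (((c y⁻¹ : ℂˣ) : ℂ) * η y⁻¹) =
      (((c y : ℂˣ) : ℂ) * ((c y⁻¹ : ℂˣ) : ℂ)) * (η y * η y⁻¹) := by ring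
    _ = η y * η y⁻¹ := by rw [h1, one_mul]

theorem isIntegral_lin {X : Type} [Group X] [Finite X] (lam : X →* ℂˣ) (x : X) :
    IsIntegral ℤ ((lam x : ℂˣ) : ℂ) := by
  have h1 : ((lam x : ℂˣ) : ℂ) ^ orderOf x = 1 := by
    rw [← Units.val_pow_eq_pow_val, ← map_pow, pow_orderOf_eq_one, map_one, Units.val_one]
  refine IsIntegral.of_pow (orderOf_pos x) ?_
  rw [h1]
  exact isIntegral_one

variable {X : Type} [Group X] [Fintype X] (𝔐 : Ideal (integralClosure ℤ ℂ))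

theorem cen_tw (lam : X →* ℂˣ) (S : Subgroup X) {ψ : S → ℂ} (hψ : IsIrr ψ) (g : X) :
    cen 𝔐 S.subtype (fun y => ((lam.comp S.subtype y : ℂˣ) : ℂ) * ψ y) g =
      red 𝔐 ((lam g : ℂˣ) : ℂ) * cen 𝔐 S.subtype ψ g := by
  rw [cen, cen]
  have h1 : wt (fun y : S => ((lam.comp S.subtype y : ℂˣ) : ℂ) * ψ y)
      (fun y => conjInd (S.subtype y) g) =
      ((lam g : ℂˣ) : ℂ) * wt ψ (fun y => conjInd (S.subtype y) g) := by
    rw [wt, wt, map_one, Units.val_one, one_mul, ← mul_div_assoc, Finset.mul_sum]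
    congr 1
    refine Finset.sum_congr rfl fun y _ => ?_
    by_cases hc : IsConj (S.subtype y) g
    · obtain ⟨c, hc'⟩ := isConj_iff.mp hc
      have h2 : lam (S.subtype y) = lam g := by
        rw [← hc', map_mul, map_mul, map_inv, mul_comm (lam c), mul_assoc, mul_inv_cancel, mul_one]
      rw [MonoidHom.comp_apply, h2]
      ring
    · have h2 : conjInd (S.subtype y) g = 0 := by
        rw [conjInd, if_neg hc]
      rw [h2]
      ring
  rw [h1, red_mul 𝔐 (isIntegral_lin lam g)]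
  apply isIntegral_wt hψ
  · intro h x
    rw [map_mul, map_mul, map_inv, conjInd_conj]
  · intro y
    exact isIntegral_conjInd _ _

theorem hasDefect_tw (ℓ d : ℕ) (S : Subgroup X) (c : S →* ℂˣ) (ψ : S → ℂ) :
    HasDefect ℓ (fun y => ((c y : ℂˣ) : ℂ) * ψ y) d ↔ HasDefect ℓ ψ d := by
  unfold HasDefect
  simp only [map_one, Units.val_one, one_mul]

theorem red_unit (lam : X →* ℂˣ) (g : X) :
    red 𝔐 ((lam⁻¹ g : ℂˣ) : ℂ) * red 𝔐 ((lam g : ℂˣ) : ℂ) = 1 := by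
  rw [← red_mul 𝔐 (isIntegral_lin _ g) (isIntegral_lin _ g), ← Units.val_mul, ← MonoidHom.mul_apply,
    inv_mul_cancel, MonoidHom.one_apply, Units.val_one, red_one]

theorem cnt_tw (ℓ d : ℕ) (lam : X →* ℂˣ) (S : Subgroup X)
    (ω : X → (integralClosure ℤ ℂ) ⧸ 𝔐) :
    cnt 𝔐 ℓ d S.subtype (fun x => red 𝔐 ((lam x : ℂˣ) : ℂ) * ω x) = cnt 𝔐 ℓ d S.subtype ω := by
  rw [cnt, cnt]
  refine Nat.card_congr ⟨fun ψ => ⟨fun y => ((lam⁻¹.comp S.subtype y : ℂˣ) : ℂ) * ψ.1 y, ?_, ?_, ?_⟩,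
    fun ψ => ⟨fun y => ((lam.comp S.subtype y : ℂˣ) : ℂ) * ψ.1 y, ?_, ?_, ?_⟩, ?_, ?_⟩
  · exact isIrr_tw ψ.2.1 _
  · exact (hasDefect_tw ℓ d S _ _).mpr ψ.2.2.1
  · intro g
    rw [cen_tw 𝔐 _ S ψ.2.1, ψ.2.2.2 g, ← mul_assoc, red_unit, one_mul]
  · exact isIrr_tw ψ.2.1 _
  · exact (hasDefect_tw ℓ d S _ _).mpr ψ.2.2.1
  · intro g
    rw [cen_tw 𝔐 _ S ψ.2.1, ψ.2.2.2 g]
  · intro ψ
    apply Subtype.ext
    funext y
    change ((lam.comp S.subtype y : ℂˣ) : ℂ) * (((lam⁻¹.comp S.subtype y : ℂˣ) : ℂ) * ψ.1 y) = ψ.1 y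
    rw [← mul_assoc, ← Units.val_mul, MonoidHom.comp_apply, MonoidHom.comp_apply,
      MonoidHom.inv_apply, mul_inv_cancel, Units.val_one, one_mul]
  · intro ψ
    apply Subtype.ext
    funext y
    change ((lam⁻¹.comp S.subtype y : ℂˣ) : ℂ) * (((lam.comp S.subtype y : ℂˣ) : ℂ) * ψ.1 y) = ψ.1 y
    rw [← mul_assoc, ← Units.val_mul, MonoidHom.comp_apply, MonoidHom.comp_apply,
      MonoidHom.inv_apply, inv_mul_cancel, Units.val_one, one_mul]

end TWL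

theorem TWL_thm : Stmt_TWL := by
  intro X _ _ 𝔐 ℓ _ _ _ lam Z d ω
  rw [KK, KK]
  refine Finset.sum_congr rfl fun σ _ => ?_
  rw [TWL.cnt_tw]

end Pool.Agent.DPT


end

section

/-!
# CRS: arbitrary linear characters and coarse conditions
-/

namespace Pool.Agent.DPT

open Pool.Agent.DP Pool.Agent.DPC Pool.Agent.DPM Pool.Agent.DPN Pool.Agent.Lib_helper13
  Representation

namespace CRS

/-! ### The quotient by the kernel of the linear character -/

theorem exists_q {L K : Type} [Group L] [Fintype L] [Group K] (π : L →* K)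
    (hc : π.ker ≤ Subgroup.center L) (μ : π.ker →* ℂˣ) :
    ∃ (L' : Type) (_ : Group L') (_ : Fintype L') (q : L →* L') (π' : L' →* K)
      (μ' : π'.ker →* ℂˣ), Function.Surjective q ∧ (∀ x, π' (q x) = π x) ∧
      (∀ (u : π.ker) (h : q u ∈ π'.ker), μ' ⟨q u, h⟩ = μ u) ∧ Function.Injective μ' := by
  classical
  set N : Subgroup L := μ.ker.map π.ker.subtype with hN
  have hNm : ∀ x, x ∈ N ↔ ∃ h : x ∈ π.ker, μ ⟨x, h⟩ = 1 := by
    intro x
    constructor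
    · rintro ⟨u, hu, rfl⟩
      exact ⟨u.2, hu⟩
    · rintro ⟨h, hx⟩
      exact ⟨⟨x, h⟩, hx, rfl⟩
  have hNn : N.Normal := by
    refine ⟨fun n hn g => ?_⟩
    obtain ⟨h, -⟩ := (hNm n).mp hn
    have h1 : g * n = n * g := Subgroup.mem_center_iff.mp (hc h) g
    rw [h1, mul_inv_cancel_right]
    exact hn
  have hle : ∀ x ∈ N, π x = 1 := fun x hx => ((hNm x).mp hx).1
  let π' : L ⧸ N →* K := QuotientGroup.lift N π hle
  have hπ' : ∀ x, π' (QuotientGroup.mk' N x) = π x := fun x => rfl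
  have hq : Function.Surjective (QuotientGroup.mk' N) := QuotientGroup.mk'_surjective N
  let qU : π.ker →* π'.ker :=
    { toFun := fun u => ⟨QuotientGroup.mk' N (u : L), by
        rw [MonoidHom.mem_ker, hπ']
        exact u.2⟩
      map_one' := Subtype.ext (map_one (QuotientGroup.mk' N))
      map_mul' := fun u v => Subtype.ext (map_mul (QuotientGroup.mk' N) (u : L) (v : L)) }
  have hqU : Function.Surjective qU := by
    rintro ⟨z', hz'⟩
    obtain ⟨z, rfl⟩ := hq z'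
    rw [MonoidHom.mem_ker, hπ'] at hz'
    exact ⟨⟨z, hz'⟩, rfl⟩
  have h1 : ∀ u : π.ker, qU u = 1 ↔ μ u = 1 := by
    intro u
    have h2 : qU u = 1 ↔ QuotientGroup.mk' N (u : L) = 1 :=
      ⟨fun h => congrArg Subtype.val h, fun h => Subtype.ext h⟩
    rw [h2, QuotientGroup.mk'_apply, QuotientGroup.eq_one_iff, hNm]
    exact ⟨fun ⟨_, h⟩ => h, fun h => ⟨u.2, h⟩⟩
  let μ' : π'.ker →* ℂˣ := qU.liftOfSurjective hqU ⟨μ, fun u hu => (h1 u).mp hu⟩
  have hμ' : ∀ u : π.ker, μ' (qU u) = μ u := fun u =>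
    MonoidHom.liftOfRightInverse_comp_apply qU _ _ ⟨μ, fun u hu => (h1 u).mp hu⟩ u
  refine ⟨L ⧸ N, inferInstance, Fintype.ofFinite _, QuotientGroup.mk' N, π', μ', hq, hπ',
    fun u h => hμ' u, ?_⟩
  rw [injective_iff_map_eq_one]
  intro z hz
  obtain ⟨u, rfl⟩ := hqU z
  rw [hμ'] at hz
  exact (h1 u).mpr hz

/-! ### Inflation -/

section Inf

variable {L L' K : Type} [Group L] [Fintype L] [Group L'] [Fintype L'] [Group K]
  {q : L →* L'} {π' : L' →* K} {μ : (π'.comp q).ker →* ℂˣ} {μ' : π'.ker →* ℂˣ}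

omit [Fintype L] [Fintype L'] in
theorem surjT (hq : Function.Surjective q) (C : Subgroup L') :
    Function.Surjective (MLE.kT q C) := MLE.kT_surj (fun x _ => hq x)

theorem id_inf (hq : Function.Surjective q) (ℓ : ℕ) [Fact ℓ.Prime] (S : Subgroup K) (d' : ℕ)
    {ψ' : L' → ℂ} (h : ID ℓ (S.comap π') d' ψ') :
    ID ℓ (S.comap (π'.comp q)) (d' + padicValNat ℓ (Nat.card q.ker)) (fun x => ψ' (q x)) := by
  have hs := surjT hq (S.comap π')
  refine ⟨⟨QINF.irr_inf (MLE.kT q (S.comap π')) hs h.1.1, fun x hx => h.1.2 _ hx⟩, ?_⟩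
  have h3 := (QINF.defect_inf (MLE.kT q (S.comap π')) ℓ hs
    (fun s : S.comap π' => ψ' s) d').2 h.2
  rw [MLE.card_ker] at h3
  exact h3

omit [Fintype L] [Fintype L'] in
theorem ov_inf (hμ : ∀ (u : (π'.comp q).ker) (h : q u ∈ π'.ker), μ' ⟨q u, h⟩ = μ u)
    {ψ' : L' → ℂ} (h : OvK π' μ' ψ') : OvK (π'.comp q) μ (fun x => ψ' (q x)) := by
  intro z y
  have hz : q z ∈ π'.ker := z.2
  have h1 := h ⟨q z, hz⟩ (q y)
  rw [hμ z hz] at h1
  change ψ' (q (z * y)) = _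
  rw [map_mul]
  exact h1

theorem id_exists (hq : Function.Surjective q) (ℓ : ℕ) [Fact ℓ.Prime]
    (hμ : ∀ (u : (π'.comp q).ker) (h : q u ∈ π'.ker), μ' ⟨q u, h⟩ = μ u) (S : Subgroup K)
    (d : ℕ) {ψ : L → ℂ} (h : ID ℓ (S.comap (π'.comp q)) d ψ) (ho : OvK (π'.comp q) μ ψ) :
    ∃ (ψ' : L' → ℂ) (d' : ℕ), ψ = (fun x => ψ' (q x)) ∧
      d = d' + padicValNat ℓ (Nat.card q.ker) ∧ ID ℓ (S.comap π') d' ψ' ∧ OvK π' μ' ψ' := by
  have hs := surjT hq (S.comap π')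
  have htriv : ∀ z x, q z = 1 → ψ (z * x) = ψ x := by
    intro z x hz
    have hz' : z ∈ (π'.comp q).ker := by
      rw [MonoidHom.mem_ker, MonoidHom.comp_apply, hz, map_one]
    have h2 : q ((⟨z, hz'⟩ : (π'.comp q).ker) : L) ∈ π'.ker := hz'
    have h3 : (⟨q ((⟨z, hz'⟩ : (π'.comp q).ker) : L), h2⟩ : π'.ker) = 1 := Subtype.ext hz
    have h4 : μ ⟨z, hz'⟩ = 1 := by
      rw [← hμ ⟨z, hz'⟩ h2, h3, map_one]
    have h1 := ho ⟨z, hz'⟩ x
    rw [h4, Units.val_one, one_mul] at h1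
    exact h1
  obtain ⟨η', hη', he⟩ := QINF.exists_inf (MLE.kT q (S.comap π')) hs
    (η := fun s : ↥((S.comap π').comap q) => ψ s) h.1.1 (by
      intro x y hx
      exact htriv x y (congrArg Subtype.val hx))
  have hψ : ψ = fun x => ext0 η' (q x) := by
    funext x
    by_cases hx : q x ∈ S.comap π'
    · rw [ext0_of_mem η' hx]
      exact congrFun he ⟨x, hx⟩
    · rw [ext0_of_not_mem η' hx]
      exact h.1.2 x hx
  obtain ⟨d', hd'⟩ := hη'.exists_defect (ℓ := ℓ)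
  have h3 := (QINF.defect_inf (MLE.kT q (S.comap π')) ℓ hs η' d').2 hd'
  rw [MLE.card_ker, ← he] at h3
  refine ⟨ext0 η', d', hψ, HasDefect.unique h.2 h3, ⟨MLE.irrOn_ext0 hη', ?_⟩, ?_⟩
  · rw [MLE.ext0_coe]
    exact hd'
  · rintro ⟨z', hz'⟩ y'
    obtain ⟨z, rfl⟩ := hq z'
    obtain ⟨y, rfl⟩ := hq y'
    have h4 := ho ⟨z, hz'⟩ y
    rw [← hμ ⟨z, hz'⟩ hz'] at h4
    rw [hψ] at h4
    beta_reduce at h4
    rw [map_mul] at h4
    exact h4

theorem card_eq (hq : Function.Surjective q) (ℓ : ℕ) [Fact ℓ.Prime]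
    (hμ : ∀ (u : (π'.comp q).ker) (h : q u ∈ π'.ker), μ' ⟨q u, h⟩ = μ u) (S : Subgroup K)
    (d' : ℕ) (P : (L → ℂ) → Prop) :
    Nat.card {ψ : L → ℂ // ID ℓ (S.comap (π'.comp q))
      (d' + padicValNat ℓ (Nat.card q.ker)) ψ ∧ OvK (π'.comp q) μ ψ ∧ P ψ} =
    Nat.card {ψ' : L' → ℂ // ID ℓ (S.comap π') d' ψ' ∧ OvK π' μ' ψ' ∧
      P (fun x => ψ' (q x))} := by
  symm
  refine Nat.card_congr (Equiv.ofBijective (fun ψ' => ⟨fun x => ψ'.1 (q x),
    id_inf hq ℓ S d' ψ'.2.1, ov_inf hμ ψ'.2.2.1, ψ'.2.2.2⟩) ⟨?_, ?_⟩)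
  · intro a b hab
    apply Subtype.ext
    funext x'
    obtain ⟨x, rfl⟩ := hq x'
    exact congrFun (congrArg Subtype.val hab) x
  · rintro ⟨ψ, h1, h2, h3⟩
    obtain ⟨ψ', d'', rfl, hd, h4, h5⟩ := id_exists hq ℓ hμ S _ h1 h2
    obtain rfl : d' = d'' := Nat.add_right_cancel hd
    exact ⟨⟨ψ', h4, h5, h3⟩, rfl⟩

theorem card_zero (hq : Function.Surjective q) (ℓ : ℕ) [Fact ℓ.Prime]
    (hμ : ∀ (u : (π'.comp q).ker) (h : q u ∈ π'.ker), μ' ⟨q u, h⟩ = μ u) (S : Subgroup K)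
    (d : ℕ) (hd : d < padicValNat ℓ (Nat.card q.ker)) (P : (L → ℂ) → Prop) :
    Nat.card {ψ : L → ℂ // ID ℓ (S.comap (π'.comp q)) d ψ ∧ OvK (π'.comp q) μ ψ ∧ P ψ} = 0 := by
  rw [Nat.card_eq_zero]
  left
  refine ⟨?_⟩
  rintro ⟨ψ, h1, h2, -⟩
  obtain ⟨ψ', d'', -, hd', -⟩ := id_exists hq ℓ hμ S _ h1 h2
  omega

end Inf

/-! ### The functions on the quotient -/

section Pu

variable {L L' : Type} [Group L] [Fintype L] [Group L'] {q : L →* L'}

theorem pu_conj (hq : Function.Surjective q) {F : L → ℂ} (hF : ∀ h x, F (h * x * h⁻¹) = F x)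
    (h' x' : L') : pu q F (h' * x' * h'⁻¹) = pu q F x' := by
  classical
  obtain ⟨h, rfl⟩ := hq h'
  unfold pu
  symm
  refine Fintype.sum_equiv (MulAut.conj h).toEquiv _ _ fun y => ?_
  have h1 : (MulAut.conj h).toEquiv y = h * y * h⁻¹ := rfl
  rw [h1, map_mul, map_mul, map_inv, hF]
  by_cases h2 : q y = x'
  · rw [if_pos h2, if_pos (by rw [h2])]
  · rw [if_neg h2, if_neg (fun h3 => h2 (mul_left_cancel (mul_right_cancel h3)))]

theorem pu_int {F : L → ℂ} (hF : ∀ x, IsIntegral ℤ (F x)) (x' : L') :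
    IsIntegral ℤ (pu q F x') := by
  classical
  unfold pu
  refine IsIntegral.sum _ fun y _ => ?_
  split_ifs
  · exact hF y
  · exact isIntegral_zero

theorem pu_zero {F : L → ℂ} {x' : L'} (h : ∀ y, q y = x' → F y = 0) : pu q F x' = 0 := by
  classical
  unfold pu
  refine Finset.sum_eq_zero fun y _ => ?_
  by_cases h2 : q y = x'
  · rw [if_pos h2, h y h2]
  · rw [if_neg h2]

end Pu

/-! ### The central functions -/

section Om

variable {L' K : Type} [Group L'] [Fintype L'] [Group K]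

open Classical in
/-- The central function, restricted to the inverse image of `M`. -/
noncomputable def om (𝔐 : Ideal (integralClosure ℤ ℂ)) (π' : L' →* K) (M : Subgroup K)
    (ψ : L' → ℂ) (g : L') : (integralClosure ℤ ℂ) ⧸ 𝔐 :=
  if π' g ∈ M then cgT 𝔐 ⊤ ψ g else 0

theorem om_in {𝔐 : Ideal (integralClosure ℤ ℂ)} {π' : L' →* K} {M : Subgroup K} {ψ : L' → ℂ}
    {g : L'} (h : π' g ∈ M) : om 𝔐 π' M ψ g = cgT 𝔐 ⊤ ψ g := if_pos h

theorem om_out {𝔐 : Ideal (integralClosure ℤ ℂ)} {π' : L' →* K} {M : Subgroup K} {ψ : L' → ℂ}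
    {g : L'} (h : π' g ∉ M) : om 𝔐 π' M ψ g = 0 := if_neg h

theorem cen_cgT (𝔐 : Ideal (integralClosure ℤ ℂ)) (S' : Subgroup L') {ψ : L' → ℂ}
    (h : ∀ x, x ∉ S' → ψ x = 0) (g : L') :
    cen 𝔐 S'.subtype (fun s : S' => ψ s) g = cgT 𝔐 ⊤ ψ g := by
  rw [STB.cgT_eq 𝔐 ⊤ S' h, cen]
  congr 2
  funext s
  rw [STB.cjT_top]
  rfl

theorem pair_om (𝔐 : Ideal (integralClosure ℤ ℂ)) [𝔐.IsPrime] (π' : L' →* K) (M : Subgroup K)
    {S' : Subgroup L'} {ψ : L' → ℂ} (h : IrrOn S' ψ) {f : L' → ℂ}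
    (hf : ∀ g x, f (g * x * g⁻¹) = f x) (hi : ∀ x, IsIntegral ℤ (f x))
    (h0 : ∀ x, π' x ∉ M → f x = 0) :
    red 𝔐 (wS S' ψ f) = pair 𝔐 f (om 𝔐 π' M ψ) := by
  have h1 := red_wt_eq_pair 𝔐 S'.subtype h.1 f hf hi
  have h2 : red 𝔐 (wS S' ψ f) = pair 𝔐 f (cen 𝔐 S'.subtype (fun s : S' => ψ s)) := h1
  rw [h2, pair, pair]
  refine finsum_congr fun C => ?_
  by_cases hC : π' C.out ∈ M
  · rw [om_in hC, cen_cgT 𝔐 S' h.2]
  · rw [h0 _ hC, red_zero, zero_mul, zero_mul]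

end Om

/-! ### Splitting the sum -/

theorem card_split {α β : Type} (A B Q : α → Prop) (o : α → β) (R : β → α → Prop)
    (Ω : Finset β) (h1 : ∀ a, A a → Q a → o a ∈ Ω)
    (h2 : ∀ a, ∀ ω ∈ Ω, (R ω a ↔ o a = ω)) (h3 : ∀ a, A a → o a ∈ Ω → Q a)
    (hfin : Finite {a // A a}) :
    Nat.card {a // A a ∧ B a ∧ Q a} = ∑ ω ∈ Ω, Nat.card {a // A a ∧ B a ∧ R ω a} := by
  classical
  have e : {a // A a ∧ B a ∧ Q a} ≃ Σ ω : Ω, {a // A a ∧ B a ∧ R ω a} :=
    { toFun := fun a => ⟨⟨o a.1, h1 _ a.2.1 a.2.2.2⟩, ⟨a.1, a.2.1, a.2.2.1,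
        (h2 _ _ (h1 _ a.2.1 a.2.2.2)).2 rfl⟩⟩
      invFun := fun s => ⟨s.2.1, s.2.2.1, s.2.2.2.1, h3 _ s.2.2.1 (by
        rw [(h2 _ _ s.1.2).1 s.2.2.2.2]
        exact s.1.2)⟩
      left_inv := fun a => rfl
      right_inv := by
        rintro ⟨⟨ω, hω⟩, ⟨a, ha, hb, hr⟩⟩
        obtain rfl := (h2 a ω hω).1 hr
        rfl }
  have hf : ∀ ω : Ω, Finite {a // A a ∧ B a ∧ R ω a} := fun ω =>
    Finite.of_injective (fun a : {a // A a ∧ B a ∧ R ω a} => (⟨a.1, a.2.1⟩ : {a // A a}))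
      (fun a b h => Subtype.ext (congrArg (fun t : {a // A a} => t.1) h))
  rw [Nat.card_congr e, Nat.card_sigma, ← Finset.sum_coe_sort Ω
    (fun ω => Nat.card {a // A a ∧ B a ∧ R ω a})]

theorem CS_sum {K β : Type} [Group K] [Fintype K] (ℓ : ℕ) (M : Subgroup K) (Ω : Finset β)
    (W : β → Subgroup K → ℚ) :
    CS ℓ M (fun S => ∑ ω ∈ Ω, W ω S) = ∑ ω ∈ Ω, CS ℓ M (W ω) := by
  classical
  unfold CS
  rw [Finset.sum_comm]
  refine Finset.sum_congr rfl fun σ _ => ?_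
  rw [Finset.mul_sum]

theorem CS_zero {K : Type} [Group K] [Fintype K] (ℓ : ℕ) (M : Subgroup K)
    (W : Subgroup K → ℚ) (h : ∀ S, W S = 0) : CS ℓ M W = 0 := by
  classical
  unfold CS
  refine Finset.sum_eq_zero fun σ _ => ?_
  rw [h, mul_zero]

/-! ### The main step -/

theorem main {ℓ : ℕ} [hp : Fact ℓ.Prime] {K : Type} [Group K] [Fintype K] (hPF : PF ℓ K)
    {L L' H ι : Type} [Group L] [Fintype L] [Group L'] [Fintype L'] [Group H] [Finite H]
    (𝔐 : Ideal (integralClosure ℤ ℂ)) (hmax : 𝔐.IsMaximal) (hℓ : (ℓ : integralClosure ℤ ℂ) ∈ 𝔐)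
    (π : L →* K) (hs : Function.Surjective π) (hc : π.ker ≤ Subgroup.center L)
    (μ : π.ker →* ℂˣ) (M : Subgroup K) (hM : M.Normal) (f : K →* H)
    (hf : ∀ x, f x = 1 ↔ x ∈ M) (hH : HH ℓ H) (F : ι → L → ℂ)
    (hF : ∀ g h x, F g (h * x * h⁻¹) = F g x) (hFi : ∀ g x, IsIntegral ℤ (F g x))
    (hF0 : ∀ g x, π x ∉ M → F g x = 0) (w : ι → (integralClosure ℤ ℂ) ⧸ 𝔐) (d : ℕ)
    (q : L →* L') (hq : Function.Surjective q) (π' : L' →* K) (hπ' : ∀ x, π' (q x) = π x)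
    (μ' : π'.ker →* ℂˣ) (hμ : ∀ (u : π.ker) (h : q u ∈ π'.ker), μ' ⟨q u, h⟩ = μ u)
    (hinj : Function.Injective μ') (hCS : CS ℓ M (WC 𝔐 ℓ d π μ F w) ≠ 0) :
    GdC 𝔐 ℓ π μ M F w := by
  classical
  obtain rfl : π = π'.comp q := MonoidHom.ext fun x => (hπ' x).symm
  have hpr : 𝔐.IsPrime := hmax.isPrime
  have hs' : Function.Surjective π' := by
    intro k
    obtain ⟨x, rfl⟩ := hs k
    exact ⟨q x, rfl⟩
  have hc' : π'.ker ≤ Subgroup.center L' := by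
    intro z' hz'
    obtain ⟨z, rfl⟩ := hq z'
    rw [Subgroup.mem_center_iff]
    intro y'
    obtain ⟨y, rfl⟩ := hq y'
    rw [← map_mul, ← map_mul, Subgroup.mem_center_iff.mp (hc hz') y]
  have hcyc : IsCyclic π'.ker :=
    isCyclic_of_injective_ringHom ((Units.coeHom ℂ).comp μ')
      (fun a b h => hinj (Units.ext h))
  -- the functions on the quotient
  set F' : ι → L' → ℂ := fun g => pu q (F g) with hF'
  have hF'c : ∀ g h x, F' g (h * x * h⁻¹) = F' g x := fun g => pu_conj hq (hF g)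
  have hF'i : ∀ g x, IsIntegral ℤ (F' g x) := fun g => pu_int (hFi g)
  have hF'0 : ∀ g x, π' x ∉ M → F' g x = 0 := by
    intro g x hx
    refine pu_zero fun y hy => hF0 g y ?_
    rw [MonoidHom.comp_apply, hy]
    exact hx
  have hwS : ∀ (S : Subgroup K) (ψ' : L' → ℂ) (g : ι),
      wS (S.comap (π'.comp q)) (fun x => ψ' (q x)) (F g) = wS (S.comap π') ψ' (F' g) :=
    fun S ψ' g => MLV.wS_pu q (S.comap π') ψ' (F g)
  -- the defect
  obtain ⟨d', rfl⟩ : ∃ d', d = d' + padicValNat ℓ (Nat.card q.ker) := by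
    by_contra hcon
    apply hCS
    refine CS_zero ℓ M _ fun S => ?_
    have hd : d < padicValNat ℓ (Nat.card q.ker) := by
      by_contra h
      exact hcon ⟨d - padicValNat ℓ (Nat.card q.ker), by omega⟩
    rw [WC, card_zero hq ℓ hμ S d hd (fun ψ => ∀ g, red 𝔐 (wS (S.comap (π'.comp q)) ψ (F g)) =
      w g)]
    rw [Nat.cast_zero, mul_zero]
  -- the central functions
  let _ : Fintype (Subgroup K) := Fintype.ofFinite _
  set Ω : Finset (L' → (integralClosure ℤ ℂ) ⧸ 𝔐) :=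
    (((Finset.univ : Finset (Subgroup K)).biUnion fun S => irrOn (S.comap π')).image
      (om 𝔐 π' M)).filter (fun ω => ∀ g, pair 𝔐 (F' g) ω = w g) with hΩ
  have hΩ1 : ∀ ω ∈ Ω, (∀ g, pair 𝔐 (F' g) ω = w g) ∧ ∀ g, π' g ∉ M → ω g = 0 := by
    intro ω hω
    rw [hΩ, Finset.mem_filter, Finset.mem_image] at hω
    obtain ⟨⟨ψ, -, rfl⟩, h2⟩ := hω
    exact ⟨h2, fun g hg => om_out hg⟩
  have hΩ2 : ∀ (S : Subgroup K) (ψ : L' → ℂ), IrrOn (S.comap π') ψ →
      (∀ g, pair 𝔐 (F' g) (om 𝔐 π' M ψ) = w g) → om 𝔐 π' M ψ ∈ Ω := by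
    intro S ψ h1 h2
    rw [hΩ, Finset.mem_filter, Finset.mem_image]
    exact ⟨⟨ψ, Finset.mem_biUnion.mpr ⟨S, Finset.mem_univ _, CLIFF.mem_irrOn.mpr h1⟩, rfl⟩, h2⟩
  have hpair : ∀ (S : Subgroup K) (ψ : L' → ℂ), IrrOn (S.comap π') ψ → ∀ g,
      red 𝔐 (wS (S.comap π') ψ (F' g)) = pair 𝔐 (F' g) (om 𝔐 π' M ψ) :=
    fun S ψ h g => pair_om 𝔐 π' M h (hF'c g) (hF'i g) (hF'0 g)
  have hom : ∀ ω ∈ Ω, ∀ ψ : L' → ℂ, (∀ g, π' g ∈ M → cgT 𝔐 ⊤ ψ g = ω g) ↔
      om 𝔐 π' M ψ = ω := by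
    intro ω hω ψ
    constructor
    · intro h
      funext g
      by_cases hg : π' g ∈ M
      · rw [om_in hg, h g hg]
      · rw [om_out hg, (hΩ1 ω hω).2 g hg]
    · rintro rfl g hg
      exact (om_in hg).symm
  have hWC : WC 𝔐 ℓ (d' + padicValNat ℓ (Nat.card q.ker)) (π'.comp q) μ F w =
      fun S => ∑ ω ∈ Ω, WF 𝔐 ℓ d' π' μ' M ω S := by
    funext S
    rw [WC, card_eq hq ℓ hμ S d' (fun ψ => ∀ g, red 𝔐 (wS (S.comap (π'.comp q)) ψ (F g)) =
      w g)]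
    rw [card_split (fun ψ' : L' → ℂ => ID ℓ (S.comap π') d' ψ') (fun ψ' => OvK π' μ' ψ')
      (fun ψ' => ∀ g, red 𝔐 (wS (S.comap (π'.comp q)) (fun x => ψ' (q x)) (F g)) = w g)
      (om 𝔐 π' M) (fun ω ψ' => ∀ g, π' g ∈ M → cgT 𝔐 ⊤ ψ' g = ω g) Ω ?_ ?_ ?_ ?_]
    · rw [Nat.cast_sum, Finset.mul_sum]
      rfl
    · intro ψ hψ h
      refine hΩ2 S ψ hψ.1 fun g => ?_
      rw [← hpair S ψ hψ.1 g, ← hwS]
      exact h g
    · intro ψ ω hω
      exact hom ω hω ψ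
    · intro ψ hψ h g
      rw [hwS, hpair S ψ hψ.1 g]
      exact (hΩ1 _ h).1 g
    · exact Finite.of_injective
        (fun ψ : {ψ' : L' → ℂ // ID ℓ (S.comap π') d' ψ'} =>
          (⟨ψ.1, CLIFF.mem_irrOn.mpr ψ.2.1⟩ : {x // x ∈ irrOn (S.comap π')}))
        (fun a b h => Subtype.ext (congrArg (fun t : {x // x ∈ irrOn (S.comap π')} => t.1) h))
  rw [hWC, CS_sum] at hCS
  obtain ⟨ω, hω, hne⟩ := Finset.exists_ne_zero_of_sum_ne_zero hCS
  obtain ⟨θ', h1, h2, h3⟩ := hPF L' H 𝔐 hmax hℓ π' hs' hc' hcyc μ' hinj M hM f hf hH ω d' hne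
  have hcard : padicValNat ℓ (Nat.card (π'.comp q).ker) =
      padicValNat ℓ (Nat.card π'.ker) + padicValNat ℓ (Nat.card q.ker) := by
    have h4 := QINF.card_eq (π'.comp q) hs
    have h5 := QINF.card_eq π' hs'
    have h6 := QINF.card_eq q hq
    rw [h6, h5, ← mul_assoc] at h4
    have h7 := Nat.eq_of_mul_eq_mul_right Nat.card_pos h4
    rw [← h7, padicValNat.mul Nat.card_pos.ne' Nat.card_pos.ne', add_comm]
  refine ⟨fun x => θ' (q x), ?_, ov_inf hμ h2, ?_⟩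
  · rw [hcard]
    exact id_inf hq ℓ M _ h1
  · intro g
    rw [hwS, hpair M θ' h1.1 g, (hom ω hω θ').mp h3]
    exact (hΩ1 ω hω).1 g

end CRS

open _root_.Pool.Agent.DPT.CRS in
theorem CRS_thm : Stmt_CRS := by
  intro ℓ _ K _ _ hPF L H ι _ _ _ _ 𝔐 hmax hℓ π hs hc μ M hM f hf hH F hF hFi hF0 w d hCS
  obtain ⟨L', iG, iF, q, π', μ', hq, hπ', hμ, hinj⟩ := exists_q π hc μ
  exact main hPF 𝔐 hmax hℓ π hs hc μ M hM f hf hH F hF hFi hF0 w d q hq π' hπ' μ' hμ hinj hCS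

end Pool.Agent.DPT


end

section

/-!
# DDS: the sum over all chains of `K`
-/

set_option linter.unusedSectionVars false

namespace Pool.Agent.DPT

open Pool.Agent.DP Pool.Agent.DPC Pool.Agent.DPM Pool.Agent.DPN Pool.Agent.Lib_helper13
open Representation
open Pool.Agent.Lib_helper13.Dade (pCore DadeHolds dadeSum)

namespace DDS

/-! ### The sums -/

/-- The sum over the chains of the whole group. -/
theorem CS_top {K : Type} [Group K] [Fintype K] (ℓ : ℕ) (W : Subgroup K → ℚ) :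
    CS ℓ ⊤ W = ∑ σ ∈ Ch ℓ (⊥ : Subgroup K), (-1 : ℚ) ^ σ.card * W (stb σ) := by
  classical
  unfold CS
  refine Finset.sum_congr ?_ fun _ _ => rfl
  exact Finset.filter_true_of_mem fun σ _ D _ => le_top

/-- The sum vanishes if there is a normal `ℓ`-subgroup. -/
theorem CS_core {K : Type} [Group K] [Fintype K] (ℓ : ℕ) [Fact ℓ.Prime] (W : Subgroup K → ℚ)
    (h : CS ℓ ⊤ W ≠ 0) : pCore ℓ K = ⊥ := by
  by_contra hne
  apply h
  have := pCore_normal (G := K) ℓ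
  have h1 := sum_chains_eq_zero (ℓ := ℓ) (⊥ : Subgroup K) (pCore ℓ K) (isPGroup_pCore ℓ)
    (bot_lt_iff_ne_bot.mpr hne) W
  rw [CS_top, ← h1]
  refine Finset.sum_congr rfl fun σ _ => ?_
  rw [zsmul_eq_mul]
  push_cast
  rfl

section Numbers

variable {L K : Type} [Group L] [Fintype L] [Group K]

/-- Lying over `μ`, for functions extended by zero. -/
theorem ovK_iff (π : L →* K) (μ : π.ker →* ℂˣ) (S : Subgroup K) (θ : ↥(S.comap π) → ℂ) :
    OvK π μ (ext0 θ) ↔ OvL π.ker μ (S.comap π) θ := by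
  constructor
  · intro h s t hs
    have h1 := h ⟨s, hs⟩ t
    have h2 : ((s : L) * t) ∈ S.comap π := (S.comap π).mul_mem s.2 t.2
    change ext0 θ ((s : L) * t) = _ at h1
    rw [ext0_of_mem θ h2, ext0_of_mem θ t.2] at h1
    exact h1
  · intro h z y
    have hz : (z : L) ∈ S.comap π := by
      rw [Subgroup.mem_comap, MonoidHom.mem_ker.mp z.2]
      exact S.one_mem
    by_cases hy : y ∈ S.comap π
    · have h2 : ((z : L) * y) ∈ S.comap π := (S.comap π).mul_mem hz hy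
      rw [ext0_of_mem θ h2, ext0_of_mem θ hy]
      exact h ⟨z, hz⟩ ⟨y, hy⟩ z.2
    · have h2 : ((z : L) * y) ∉ S.comap π := by
        intro h3
        apply hy
        have h4 := (S.comap π).mul_mem ((S.comap π).inv_mem hz) h3
        rwa [inv_mul_cancel_left] at h4
      rw [ext0_of_not_mem θ h2, ext0_of_not_mem θ hy, mul_zero]

/-- The weighted number of characters in terms of functions on the inverse image. -/
theorem WF_eq (𝔐 : Ideal (integralClosure ℤ ℂ)) (ℓ d : ℕ) (π : L →* K)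
    (μ : π.ker →* ℂˣ) (M : Subgroup K) (ω : L → (integralClosure ℤ ℂ) ⧸ 𝔐) (S : Subgroup K) :
    WF 𝔐 ℓ d π μ M ω S = (Nat.card S : ℚ) *
      Nat.card {η : ↥(S.comap π) → ℂ // IsIrr η ∧ (OvL π.ker μ _ η ∧ HasDefect ℓ η d ∧
        ∀ g, π g ∈ M → cen 𝔐 (S.comap π).subtype η g = ω g)} := by
  unfold WF
  rw [STB.card_ID ℓ d (S.comap π) (fun ψ => OvK π μ ψ ∧ ∀ g, π g ∈ M → cgT 𝔐 ⊤ ψ g = ω g)]
  congr 2
  refine Nat.card_congr (Equiv.subtypeEquivRight fun θ => ?_)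
  refine and_congr_right fun _ => ?_
  simp only [STB.cen_eq]
  rw [ovK_iff]
  tauto

end Numbers

/-! ### Characters -/

/-- A character of the smallest possible defect over a given linear character. -/
theorem exists_over (h4 : Stmt_BTC) (h5 : Stmt_MINX) {L : Type} [Group L] [Fintype L]
    {𝔐 : Ideal (integralClosure ℤ ℂ)} {ℓ : ℕ} [hℓp : Fact ℓ.Prime] (h𝔐 : 𝔐.IsMaximal)
    (hℓ : (ℓ : integralClosure ℤ ℂ) ∈ 𝔐) {U Z : Subgroup L} (hU : U ≤ Subgroup.center L)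
    (hZU : Z ≤ U) (hZp : IsPGroup ℓ Z)
    (hZc : padicValNat ℓ (Nat.card Z) = padicValNat ℓ (Nat.card U))
    (hZm : ∀ u ∈ U, ∀ k : ℕ, u ^ ℓ ^ k = 1 → u ∈ Z)
    (μ : U →* ℂˣ) {χ₀ : L → ℂ} (hχ₀ : IsIrr χ₀)
    (hd : HasDefect ℓ χ₀ (padicValNat ℓ (Nat.card U)))
    (hcu : ∀ (u : L) (h : u ∈ U),
      cen 𝔐 (MonoidHom.id L) χ₀ u = red 𝔐 ((μ ⟨u, h⟩ : ℂˣ) : ℂ)) :
    ∃ χ : L → ℂ, IsIrr χ ∧ HasDefect ℓ χ (padicValNat ℓ (Nat.card U)) ∧
      cen 𝔐 (MonoidHom.id L) χ = cen 𝔐 (MonoidHom.id L) χ₀ ∧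
      ∀ (u : L) (h : u ∈ U) (x : L), χ (u * x) = ((μ ⟨u, h⟩ : ℂˣ) : ℂ) * χ x := by
  classical
  have hprime : 𝔐.IsPrime := h𝔐.isPrime
  have hcU : ∀ u ∈ U, ∀ y : L, u * y = y * u := fun u hu y =>
    (Subgroup.mem_center_iff.1 (hU hu) y).symm
  obtain ⟨χ, hχ, hχZ, hχc⟩ := h4 L 𝔐 ℓ h𝔐 hℓ Z (hZU.trans hU) hZp
    (μ.comp (Subgroup.inclusion hZU)) _ hχ₀
  have hdχ : HasDefect ℓ χ (padicValNat ℓ (Nat.card U)) := by
    rw [← hZc] at hd ⊢
    exact (h5 L 𝔐 ℓ h𝔐 hℓ Z (hZU.trans hU) hZp χ₀ hχ₀ hd).1 χ hχ hχc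
  have hn : χ 1 ≠ 0 := hχ.one_ne_zero
  have hZv : ∀ (z : L) (hz : z ∈ Z), χ z / χ 1 = ((μ ⟨z, hZU hz⟩ : ℂˣ) : ℂ) := by
    intro z hz
    have h3 := hχZ ⟨z, hz⟩ 1
    rw [mul_one] at h3
    have h4 : χ z = ((μ ⟨z, hZU hz⟩ : ℂˣ) : ℂ) * χ 1 := h3
    rw [h4, mul_div_assoc, div_self hn, mul_one]
  have hUv : ∀ (u : L) (hu : u ∈ U), χ u / χ 1 = ((μ ⟨u, hu⟩ : ℂˣ) : ℂ) := by
    intro u hu
    let a : ℂ := χ u / χ 1
    let m : ℂ := ((μ ⟨u, hu⟩ : ℂˣ) : ℂ)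
    let m' : ℂ := ((μ ⟨u, hu⟩ : ℂˣ)⁻¹ : ℂˣ)
    have hmm' : m * m' = 1 := Units.mul_inv _
    have hO : 0 < orderOf u := orderOf_pos u
    obtain ⟨k, n', hn', hkn⟩ := Nat.exists_eq_pow_mul_and_not_dvd hO.ne' ℓ hℓp.out.ne_one
    have hapow : ∀ j : ℕ, a ^ j = χ (u ^ j) / χ 1 := fun j =>
      (PSDB.cscal_pow hχ (hcU u hu) j).symm
    have hmpow : ∀ j : ℕ, m ^ j = ((μ ⟨u ^ j, U.pow_mem hu j⟩ : ℂˣ) : ℂ) := by
      intro j
      have h3 : (⟨u ^ j, U.pow_mem hu j⟩ : U) = ⟨u, hu⟩ ^ j := rfl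
      rw [h3, map_pow, Units.val_pow_eq_pow_val]
    have haO : a ^ orderOf u = 1 := by
      rw [hapow, pow_orderOf_eq_one, div_self hn]
    have hmO : m ^ orderOf u = 1 := by
      have h3 : (⟨u, hu⟩ : U) ^ orderOf u = 1 := Subtype.ext (pow_orderOf_eq_one u)
      show ((μ ⟨u, hu⟩ : ℂˣ) : ℂ) ^ orderOf u = 1
      rw [← Units.val_pow_eq_pow_val, ← map_pow, h3, map_one, Units.val_one]
    have hm'O : m' ^ orderOf u = 1 := by
      have h3 : m ^ orderOf u * m' ^ orderOf u = 1 := by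
        rw [← mul_pow, hmm', one_pow]
      rwa [hmO, one_mul] at h3
    have hai : IsIntegral ℤ a := PSDB.isIntegral_of_pow_eq hO haO
    have hmi : IsIntegral ℤ m := PSDB.isIntegral_of_pow_eq hO hmO
    have hm'i : IsIntegral ℤ m' := PSDB.isIntegral_of_pow_eq hO hm'O
    have hra : red 𝔐 a = red 𝔐 m := by
      have h5 := PSDB.cen_central 𝔐 (MonoidHom.id L) (fun x y h => h) χ (y₀ := u) (by
        intro g
        show g * u * g⁻¹ = u
        rw [← hcU u hu g, mul_inv_cancel_right])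
      rw [hχc] at h5
      rw [← hcu u hu]
      exact h5.symm
    have hζ : a * m' = 1 := by
      refine PSDB.eq_one_of_red 𝔐 hℓ (m := n') hn' ?_ ?_
      · have h3 : u ^ n' ∈ Z := by
          refine hZm _ (U.pow_mem hu n') k ?_
          rw [← pow_mul, mul_comm, ← hkn, pow_orderOf_eq_one]
        have h4 : a ^ n' = m ^ n' := by
          rw [hapow, hZv _ h3, hmpow]
        rw [mul_pow, h4, ← mul_pow, hmm', one_pow]
      · rw [red_mul 𝔐 hai hm'i, hra, ← red_mul 𝔐 hmi hm'i, hmm', red_one]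
    show a = m
    have h3 : a * m' * m = m := by rw [hζ, one_mul]
    rw [mul_assoc, mul_comm m' m, hmm', mul_one] at h3
    exact h3
  refine ⟨χ, hχ, hdχ, hχc, fun u h x => ?_⟩
  rw [PSDB.cscal hχ (hcU u h), hUv u h]

/-- A constituent of the restriction to a normal subgroup. -/
theorem exists_restr (h6 : Stmt_DEFA) (h7 : Stmt_SUMM) {L : Type} [Group L] [Fintype L]
    (𝔐 : Ideal (integralClosure ℤ ℂ)) {ℓ : ℕ} [Fact ℓ.Prime] {U N : Subgroup L} (hN : N.Normal)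
    (hUN : U ≤ N) (hU : U ≤ Subgroup.center L) (μ : U →* ℂˣ) {χ : L → ℂ} (hχ : IsIrr χ)
    (hd : HasDefect ℓ χ (padicValNat ℓ (Nat.card U)))
    (hov : ∀ (u : L) (h : u ∈ U) (x : L), χ (u * x) = ((μ ⟨u, h⟩ : ℂˣ) : ℂ) * χ x) :
    ∃ θ : N → ℂ, IsIrr θ ∧ HasDefect ℓ θ (padicValNat ℓ (Nat.card U)) ∧ OvL U μ N θ ∧
      ∀ g ∈ N, cen 𝔐 N.subtype θ g = cen 𝔐 (MonoidHom.id L) χ g := by
  classical
  obtain ⟨θ, hθ, hip⟩ := Cliff.exists_under hχ N.subtype
  have hClG : ClG N.subtype (MulAut.conjNormal : L →* MulAut N) (QuotientGroup.mk' N) :=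
    { inj := Subgroup.subtype_injective N
      act := fun y a => MulAut.conjNormal_apply y a
      ker := fun y => by
        rw [Subgroup.range_subtype]
        exact QuotientGroup.eq_one_iff y }
  obtain ⟨a, ha⟩ := hθ.exists_defect (ℓ := ℓ)
  have hle : a ≤ padicValNat ℓ (Nat.card U) :=
    h6 N L (L ⧸ N) ℓ N.subtype MulAut.conjNormal (QuotientGroup.mk' N) hClG χ θ hχ hθ hip _ _
      hd ha
  have hge : padicValNat ℓ (Nat.card U) ≤ a := by
    have h8 : Nat.card (U.subgroupOf N) = Nat.card U :=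
      Nat.card_congr (Subgroup.subgroupOfEquivOfLe hUN).toEquiv
    rw [← h8]
    refine DLO.defect_ge h6 ℓ (U.subgroupOf N) ?_ hθ ha
    intro z hz
    rw [Subgroup.mem_center_iff]
    intro g
    apply Subtype.ext
    exact Subgroup.mem_center_iff.mp (hU (Subgroup.mem_subgroupOf.mp hz)) g
  have hae : a = padicValNat ℓ (Nat.card U) := le_antisymm hle hge
  have hW := (h7 N L (L ⧸ N) N.subtype MulAut.conjNormal (QuotientGroup.mk' N) hClG).2.2.2
  refine ⟨θ, hθ, hae ▸ ha, ?_, ?_⟩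
  · intro s t hs
    have hcs : ∀ y : L, (s : L) * y = y * (s : L) := fun y =>
      (Subgroup.mem_center_iff.1 (hU hs) y).symm
    have hcs' : ∀ y : N, s * y = y * s := fun y => Subtype.ext (hcs y)
    have h8 := hW θ χ (fun y => if y = (s : L) then 1 else 0) hθ hχ hip
      (by
        intro g x
        have h9 : g * x * g⁻¹ = (s : L) ↔ x = (s : L) := by
          constructor
          · intro h
            have h10 : x = g⁻¹ * (g * x * g⁻¹) * g := by group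
            rw [h10, h, mul_assoc, hcs g, inv_mul_cancel_left]
          · intro h
            rw [h, ← hcs g, mul_inv_cancel_right]
        simp only [h9])
      (by
        intro y hy
        rw [if_neg]
        rintro rfl
        exact hy ⟨s, rfl⟩)
    have h9 : wt χ (fun y => if y = (s : L) then 1 else 0) = χ s / χ 1 := by
      unfold wt
      simp only [ite_mul, one_mul, zero_mul, Finset.sum_ite_eq', Finset.mem_univ, if_true]
    have h10 : wt θ (fun a : N => if N.subtype a = (s : L) then (1 : ℂ) else 0) =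
        θ s / θ 1 := by
      have h11 : (fun a : N => if N.subtype a = (s : L) then (1 : ℂ) else 0) =
          fun a : N => if a = s then (1 : ℂ) else 0 := by
        funext a
        by_cases h12 : a = s
        · rw [if_pos h12, if_pos (by rw [h12]; rfl)]
        · rw [if_neg h12]
          exact if_neg (fun h => h12 (Subtype.ext h))
      rw [h11]
      unfold wt
      simp only [ite_mul, one_mul, zero_mul, Finset.sum_ite_eq', Finset.mem_univ, if_true]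
    rw [h9, h10] at h8
    rw [PSDB.cscal hθ hcs' t, ← h8]
    have h12 := hov s hs 1
    rw [mul_one] at h12
    rw [h12, mul_div_assoc, div_self hχ.one_ne_zero, mul_one]
  · intro g hg
    have h8 := hW θ χ (fun y => conjInd y g) hθ hχ hip (fun a x => conjInd_conj a x g)
      (by
        intro y hy
        unfold conjInd
        rw [if_neg]
        intro h
        obtain ⟨c, hc⟩ := isConj_iff.mp h.symm
        apply hy
        rw [Subgroup.range_subtype, ← hc]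
        exact hN.conj_mem g hg c)
    unfold cen
    rw [← h8]
    rfl

/-- Inflation from a quotient. -/
theorem infl {L L' : Type} [Group L] [Fintype L] [Group L'] [Fintype L']
    (𝔐 : Ideal (integralClosure ℤ ℂ)) {q : L →* L'} (hqs : Function.Surjective q)
    {c : L → (integralClosure ℤ ℂ) ⧸ 𝔐} {c' : L' → (integralClosure ℤ ℂ) ⧸ 𝔐}
    (hlast : ∀ (S' : Subgroup L), q.ker ≤ S' → ∀ η' : S'.map q → ℂ, IsIrr η' →
      cen 𝔐 (S'.map q).subtype η' = c' →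
      IsIrr (fun x : S' => η' ⟨q x, Subgroup.mem_map_of_mem q x.2⟩) ∧
      cen 𝔐 S'.subtype (fun x : S' => η' ⟨q x, Subgroup.mem_map_of_mem q x.2⟩) = c)
    {χ' : L' → ℂ} (hχ' : IsIrr χ') (hcen : cen 𝔐 (MonoidHom.id L') χ' = c') :
    IsIrr (fun x : L => χ' (q x)) ∧
      cen 𝔐 (MonoidHom.id L) (fun x : L => χ' (q x)) = c := by
  have htop : (⊤ : Subgroup L).map q = ⊤ := by
    rw [← MonoidHom.range_eq_map]
    exact MonoidHom.range_eq_top.2 hqs
  have hE : ∀ S : Subgroup L', S = ⊤ → IsIrr (fun x : S => χ' x) ∧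
      cen 𝔐 S.subtype (fun x : S => χ' x) = c' := by
    intro S hS
    subst hS
    constructor
    · exact hχ'.comp_mulEquiv Subgroup.topEquiv
    · rw [← hcen]
      exact cen_comp_equiv 𝔐 (Subgroup.topEquiv (G := L')) (MonoidHom.id L') χ'
  obtain ⟨hE1, hE2⟩ := hE _ htop
  obtain ⟨h3, h4⟩ := hlast ⊤ le_top (fun x => χ' x) hE1 hE2
  constructor
  · have h5 := h3.comp_mulEquiv (Subgroup.topEquiv (G := L)).symm
    exact h5
  · rw [← h4]
    exact (cen_comp_equiv 𝔐 (Subgroup.topEquiv (G := L)) (MonoidHom.id L)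
      (fun x : L => χ' (q x))).symm

end DDS

open Classical in
theorem DDS_thm (h1 : Stmt_ISOL) (h2 : Stmt_CHC) (h3 : Stmt_DZC) (h4 : Stmt_BTC)
    (h5 : Stmt_MINX) (h6 : Stmt_DEFA) (h7 : Stmt_SUMM) : Stmt_DDS := by
  intro L K _ _ _ _ 𝔐 ℓ _ hmax hℓ π hπs hUc hcyc μ hinj hHQ M hMn ω d hne0
  have hcore : pCore ℓ K = ⊥ := DDS.CS_core ℓ _ hne0
  have hne := hne0
  rw [DDS.CS_top] at hne
  simp only [DDS.WF_eq] at hne
  -- split according to the central function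
  have hfin : (⋃ σ ∈ Ch ℓ (⊥ : Subgroup K), {x : L → (integralClosure ℤ ℂ) ⧸ 𝔐 |
      ∃ ψ : ↥((stb σ).comap π) → ℂ, IsIrr ψ ∧
      cen 𝔐 ((stb σ).comap π).subtype ψ = x}).Finite := by
    apply Set.Finite.biUnion (Finset.finite_toSet _)
    intro τ _
    exact finite_cen 𝔐 _
  have hC : ∀ σ ∈ Ch ℓ (⊥ : Subgroup K), ∀ ψ : ↥((stb σ).comap π) → ℂ, IsIrr ψ →
      cen 𝔐 ((stb σ).comap π).subtype ψ ∈ hfin.toFinset := by
    intro σ hσ ψ hψ
    rw [Set.Finite.mem_toFinset, Set.mem_iUnion₂]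
    exact ⟨σ, hσ, ψ, hψ, rfl⟩
  have hsplit : ∑ σ ∈ Ch ℓ (⊥ : Subgroup K), (-1 : ℚ) ^ σ.card * ((Nat.card (stb σ) : ℚ) *
      Nat.card {η : ↥((stb σ).comap π) → ℂ // IsIrr η ∧ (OvL π.ker μ _ η ∧
        HasDefect ℓ η d ∧ ∀ g, π g ∈ M → cen 𝔐 ((stb σ).comap π).subtype η g = ω g)}) =
      ∑ x ∈ hfin.toFinset, ∑ σ ∈ Ch ℓ (⊥ : Subgroup K),
        ((-1 : ℚ) ^ σ.card * (Nat.card (stb σ) : ℚ)) *
        Nat.card {η : ↥((stb σ).comap π) → ℂ // IsIrr η ∧ (OvL π.ker μ _ η ∧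
          HasDefect ℓ η d ∧ ∀ g, π g ∈ M → cen 𝔐 ((stb σ).comap π).subtype η g = ω g) ∧
          cen 𝔐 ((stb σ).comap π).subtype η = x} := by
    rw [Finset.sum_comm]
    refine Finset.sum_congr rfl fun σ hσ => ?_
    rw [TD.card_split (fun η : ↥((stb σ).comap π) → ℂ => OvL π.ker μ _ η ∧
        HasDefect ℓ η d ∧ ∀ g, π g ∈ M → cen 𝔐 ((stb σ).comap π).subtype η g = ω g)
      (fun η => cen 𝔐 ((stb σ).comap π).subtype η) hfin.toFinset (hC σ hσ)]
    rw [Nat.cast_sum, Finset.mul_sum, Finset.mul_sum]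
    refine Finset.sum_congr rfl fun x _ => ?_
    rw [mul_assoc]
  rw [hsplit] at hne
  obtain ⟨x, -, hx'⟩ := Finset.exists_ne_zero_of_sum_ne_zero hne
  have hxM : ∀ g, π g ∈ M → x g = ω g := by
    by_contra hxn
    apply hx'
    refine Finset.sum_eq_zero fun σ hσ => ?_
    have hempty : IsEmpty {η : ↥((stb σ).comap π) → ℂ // IsIrr η ∧ (OvL π.ker μ _ η ∧
          HasDefect ℓ η d ∧ ∀ g, π g ∈ M → cen 𝔐 ((stb σ).comap π).subtype η g = ω g) ∧
          cen 𝔐 ((stb σ).comap π).subtype η = x} := by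
      constructor
      rintro ⟨η, -, ⟨-, -, h2⟩, h3⟩
      apply hxn
      rw [← h3]
      exact h2
    rw [@Nat.card_of_isEmpty _ hempty, Nat.cast_zero, mul_zero]
  have hx : ∑ σ ∈ Ch ℓ (⊥ : Subgroup K),
        ((-1 : ℚ) ^ σ.card * (Nat.card (stb σ) : ℚ)) *
        Nat.card {η : ↥((stb σ).comap π) → ℂ // IsIrr η ∧ OvL π.ker μ _ η ∧
          HasDefect ℓ η d ∧ cen 𝔐 ((stb σ).comap π).subtype η = x} ≠ 0 := by
    intro h0
    apply hx'
    rw [← h0]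
    refine Finset.sum_congr rfl fun σ _ => ?_
    congr 2
    refine Nat.card_congr (Equiv.subtypeEquivRight fun η => ?_)
    constructor
    · rintro ⟨h1, ⟨h2, h3, -⟩, h4⟩
      exact ⟨h1, h2, h3, h4⟩
    · rintro ⟨h1, h2, h3, h4⟩
      refine ⟨h1, ⟨h2, h3, ?_⟩, h4⟩
      rw [h4]
      exact hxM
  -- the values of the central function on the kernel
  have hUS : ∀ σ ∈ Ch ℓ (⊥ : Subgroup K), π.ker ≤ (stb σ).comap π := by
    intro σ _ u hu
    rw [Subgroup.mem_comap, MonoidHom.mem_ker.mp hu]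
    exact one_mem _
  have hcU : ∀ u ∈ π.ker, ∀ y : L, u * y = y * u := fun u hu y =>
    (Subgroup.mem_center_iff.1 (hUc hu) y).symm
  have hcu : ∀ (u : L) (h : u ∈ π.ker), x u = red 𝔐 ((μ ⟨u, h⟩ : ℂˣ) : ℂ) := by
    intro u hu
    obtain ⟨τ, hτC, hτ⟩ := Finset.exists_ne_zero_of_sum_ne_zero hx
    have h3 := right_ne_zero_of_mul hτ
    have h4 : Nonempty {η : ↥((stb τ).comap π) → ℂ // IsIrr η ∧ OvL π.ker μ _ η ∧
          HasDefect ℓ η d ∧ cen 𝔐 ((stb τ).comap π).subtype η = x} := by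
      by_contra hne
      apply h3
      rw [not_nonempty_iff] at hne
      rw [Nat.card_of_isEmpty, Nat.cast_zero]
    obtain ⟨η, hη, hov, _, hce⟩ := h4
    have huS : u ∈ (stb τ).comap π := hUS τ hτC hu
    have h5 := PSDB.cen_central 𝔐 ((stb τ).comap π).subtype
      (Subgroup.subtype_injective _) η (y₀ := ⟨u, huS⟩) (by
        intro g
        show g * u * g⁻¹ = u
        rw [← hcU u hu g, mul_inv_cancel_right])
    have h6 : (((stb τ).comap π).subtype ⟨u, huS⟩ : L) = u := rfl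
    rw [h6, hce] at h5
    rw [h5]
    congr 1
    have h7 := hov ⟨u, huS⟩ 1 hu
    rw [mul_one] at h7
    rw [h7, mul_div_assoc, div_self hη.one_ne_zero, mul_one]
  -- isolation
  obtain ⟨L', iL', fL', q', d', c', hq's, hq'U, hq'p, hd', hsum, hlast⟩ :=
    h1 L (Finset (Subgroup K)) 𝔐 ℓ hmax hℓ π.ker μ hUc hcyc hinj (Ch ℓ (⊥ : Subgroup K))
      (fun σ => (-1 : ℚ) ^ σ.card * (Nat.card (stb σ) : ℚ)) (fun σ => (stb σ).comap π) hUS
      d x hx
  -- the projection of the quotient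
  let π' : L' →* K := q'.liftOfSurjective hq's ⟨π, hq'U⟩
  have hπ' : ∀ l, π' (q' l) = π l := fun l => MonoidHom.liftOfRightInverse_comp_apply _ _ _ _ l
  have hπ's : Function.Surjective π' := by
    intro k
    obtain ⟨l, hl⟩ := hπs k
    exact ⟨q' l, by rw [hπ', hl]⟩
  have hπ'k : π'.ker = π.ker.map q' := by
    ext l'
    obtain ⟨l, rfl⟩ := hq's l'
    rw [MonoidHom.mem_ker, hπ', ← MonoidHom.mem_ker, Subgroup.mem_map]
    constructor
    · intro h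
      exact ⟨l, h, rfl⟩
    · rintro ⟨u, hu, hul⟩
      have h6 : u⁻¹ * l ∈ q'.ker := by
        rw [MonoidHom.mem_ker, map_mul, map_inv, hul, inv_mul_cancel]
      have h7 := π.ker.mul_mem hu (hq'U h6)
      rwa [mul_inv_cancel_left] at h7
  have hcent : π'.ker ≤ Subgroup.center L' := by
    rw [hπ'k]
    rintro _ ⟨u, hu, rfl⟩
    rw [Subgroup.mem_center_iff]
    intro g
    obtain ⟨l, rfl⟩ := hq's g
    rw [← map_mul, ← map_mul, Subgroup.mem_center_iff.mp (hUc hu) l]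
  have hmap : ∀ V : Subgroup K, (V.comap π).map q' = V.comap π' := by
    intro V
    ext l'
    obtain ⟨l, rfl⟩ := hq's l'
    rw [Subgroup.mem_comap, hπ', Subgroup.mem_map]
    constructor
    · rintro ⟨u, hu, hul⟩
      rw [Subgroup.mem_comap] at hu
      rwa [← hπ', ← hul, hπ']
    · intro h
      exact ⟨l, h, rfl⟩
  obtain ⟨h8, h9, h10⟩ := h2 L' K ℓ π' hπ's hcent hcore
  have h11 : KK 𝔐 ℓ d' (pCore ℓ L') c' ≠ 0 := by
    have h12 := h10 (fun S => Nat.card S * cnt 𝔐 ℓ d' S.subtype c')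
    rw [KK, h12]
    have h13 : ∑ σ ∈ Ch ℓ (⊥ : Subgroup K), (-1 : ℚ) ^ σ.card *
        ((Nat.card ↥((stb σ).comap π') : ℚ) * cnt 𝔐 ℓ d' ((stb σ).comap π').subtype c') =
        (Nat.card π'.ker : ℚ) * ∑ σ ∈ Ch ℓ (⊥ : Subgroup K),
          (-1 : ℚ) ^ σ.card * (Nat.card (stb σ) : ℚ) *
            cnt 𝔐 ℓ d' (((stb σ).comap π).map q').subtype c' := by
      rw [Finset.mul_sum]
      refine Finset.sum_congr rfl fun σ _ => ?_
      rw [TD.card_comap π' hπ's, hmap, Nat.cast_mul]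
      ring
    rw [h13]
    refine mul_ne_zero ?_ hsum
    exact Nat.cast_ne_zero.mpr Nat.card_pos.ne'
  have h14 : (Subgroup.center L').index ≤ Nat.card K := by
    have h13 : π'.ker.index = Nat.card K := by
      rw [Subgroup.index_ker, MonoidHom.range_eq_top.mpr hπ's]
      exact Nat.card_congr Subgroup.topEquiv.toEquiv
    rw [← h13]
    exact Nat.le_of_dvd (Nat.pos_of_ne_zero Subgroup.index_ne_zero_of_finite)
      (Subgroup.index_dvd_of_le hcent)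
  have h15 : DadeHolds ℓ L' := hHQ L' h8 h14
  obtain ⟨-, χ', hχ', -, hχ'c, hχ'd⟩ := h3 L' 𝔐 ℓ hmax hℓ h8 h15 d' c' h11
  -- inflation
  obtain ⟨hχ₀, hc₀⟩ := DDS.infl 𝔐 hq's hlast hχ' hχ'c
  obtain ⟨e, n, hn, hen⟩ := hχ'.exists_defect (ℓ := ℓ)
  have h16 : e ≤ padicValNat ℓ (Nat.card π'.ker) := by
    have h17 := hχ'd e ⟨n, hn, hen⟩
    rw [h9] at h17
    exact (Nat.pow_le_pow_iff_right (Fact.out : ℓ.Prime).one_lt).mp h17
  have h17 : padicValNat ℓ (Nat.card π.ker) = padicValNat ℓ (Nat.card π'.ker) +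
      padicValNat ℓ (Nat.card q'.ker) := by
    have h18 := TD.card_comap q' hq's (π.ker.map q')
    rw [Subgroup.comap_map_eq_self hq'U] at h18
    rw [h18, hπ'k, mul_comm, padicValNat.mul Nat.card_pos.ne' Nat.card_pos.ne']
  have h18 : padicValNat ℓ (Nat.card L) = padicValNat ℓ (Nat.card L') +
      padicValNat ℓ (Nat.card q'.ker) := by
    have h19 := TD.card_comap q' hq's (⊤ : Subgroup L')
    rw [Subgroup.comap_top, Subgroup.card_top, Subgroup.card_top] at h19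
    rw [h19, mul_comm, padicValNat.mul Nat.card_pos.ne' Nat.card_pos.ne']
  have h19 : HasDefect ℓ (fun l : L => χ' (q' l)) (e + padicValNat ℓ (Nat.card q'.ker)) := by
    refine ⟨n, ?_, ?_⟩
    · show χ' (q' 1) = n
      rw [map_one, hn]
    · omega
  have h20 : padicValNat ℓ (Nat.card π.ker) ≤ e + padicValNat ℓ (Nat.card q'.ker) :=
    DLO.defect_ge h6 ℓ π.ker hUc hχ₀ h19
  have h21 : e + padicValNat ℓ (Nat.card q'.ker) = padicValNat ℓ (Nat.card π.ker) := by omega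
  rw [h21] at h19
  -- the Sylow subgroup of the kernel
  obtain ⟨h22, h23, -⟩ := h2 L K ℓ π hπs hUc hcore
  have h24 : pCore ℓ L ≤ π.ker := CHC.core_le_ker hπs hcore
  have h25 : padicValNat ℓ (Nat.card (pCore ℓ L)) = padicValNat ℓ (Nat.card π.ker) := by
    rw [h23, padicValNat.prime_pow]
  have h26 : ∀ u ∈ π.ker, ∀ k : ℕ, u ^ ℓ ^ k = 1 → u ∈ pCore ℓ L := by
    intro u hu k hk
    refine CHC.le_core_of_central (D := Subgroup.zpowers u) ?_
      (by rw [Subgroup.zpowers_le]; exact hUc hu) (Subgroup.mem_zpowers u)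
    rintro ⟨y, hy⟩
    obtain ⟨j, rfl⟩ := Subgroup.mem_zpowers_iff.mp hy
    refine ⟨k, Subtype.ext ?_⟩
    change (u ^ j) ^ ℓ ^ k = 1
    rw [← zpow_natCast, ← zpow_mul, mul_comm, zpow_mul, zpow_natCast, hk, one_zpow]
  obtain ⟨χ₁, hχ₁, hd₁, hc₁, hov₁⟩ := DDS.exists_over h4 h5 hmax hℓ hUc h24
    (isPGroup_pCore ℓ) h25 h26 μ hχ₀ h19 (by rw [hc₀]; exact hcu)
  -- the restriction
  have hNn : (M.comap π).Normal := hMn.comap π
  have hUM : π.ker ≤ M.comap π := by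
    intro u hu
    rw [Subgroup.mem_comap, MonoidHom.mem_ker.mp hu]
    exact M.one_mem
  obtain ⟨θ, hθ, hθd, hθo, hθc⟩ := DDS.exists_restr h6 h7 𝔐 hNn hUM hUc μ hχ₁ hd₁ hov₁
  refine ⟨ext0 θ, ⟨STB.irrOn_ext0 hθ, ?_⟩, (DDS.ovK_iff π μ M θ).mpr hθo, ?_⟩
  · rw [STB.ext0_coe]
    exact hθd
  · intro g hg
    rw [← STB.cen_eq, hθc g hg, hc₁, hc₀, hxM g hg]

end Pool.Agent.DPT


end

section

/-!
# GLU: the sum for the quotient by the centre
-/

set_option autoImplicit false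
set_option linter.unusedSectionVars false

namespace Pool.Agent.DPT

open Pool.Agent.DP Pool.Agent.DPC Pool.Agent.DPM Pool.Agent.DPN Pool.Agent.Lib_helper13
open Representation
open Pool.Agent.Lib_helper13.Dade (pCore DadeHolds dadeSum)

namespace GLU

/-! ### The core of the quotient and the chains -/

section Core

variable {X K : Type} [Group X] [Fintype X] [Group K] [Fintype K] {ℓ : ℕ} [Fact ℓ.Prime]
  {π : X →* K}

/-- The quotient by the centre has trivial core. -/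
theorem core_eq_bot (hs : Function.Surjective π) (hk : π.ker = Subgroup.center X)
    (hc : pCore ℓ X ≤ Subgroup.center X) : pCore ℓ K = ⊥ := by
  have := pCore_normal (G := X) ℓ
  obtain ⟨D, hD, hDE⟩ := CHC.exists_lift hs (pCore ℓ K) (isPGroup_pCore ℓ)
  have hZk : pCore ℓ X ≤ π.ker := by
    rw [hk]
    exact hc
  have hD' : IsPGroup ℓ ↥(D ⊔ pCore ℓ X) := hD.to_sup_of_normal_right (isPGroup_pCore ℓ)
  have hmap : (D ⊔ pCore ℓ X).map π = pCore ℓ K := by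
    rw [Subgroup.map_sup, (Subgroup.map_eq_bot_iff _).2 hZk, sup_bot_eq, hDE]
  have hn : (D ⊔ pCore ℓ X).Normal := by
    constructor
    intro x hx g
    rw [CHC.mem_iff hk.le hD' le_sup_right, hmap] at hx ⊢
    obtain ⟨h1, n, h2⟩ := hx
    refine ⟨?_, n, ?_⟩
    · rw [map_mul, map_mul, map_inv]
      exact (pCore_normal (G := K) ℓ).conj_mem _ h1 _
    · rw [conj_pow, h2, mul_one, mul_inv_cancel]
  have hle : D ⊔ pCore ℓ X ≤ pCore ℓ X := le_sSup ⟨hn, hD'⟩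
  rw [← hmap, Subgroup.map_eq_bot_iff]
  exact hle.trans hZk

/-- The inverse image of the stabilizer of a chain is the stabilizer of a chain. -/
theorem exists_chain (hs : Function.Surjective π) (hk : π.ker ≤ Subgroup.center X)
    (hK : pCore ℓ K = ⊥) {σ : Finset (Subgroup K)} (hσ : IsCh ℓ (⊥ : Subgroup K) σ) :
    ∃ τ : Finset (Subgroup X), IsCh ℓ (pCore ℓ X) τ ∧ stb τ = (stb σ).comap π := by
  classical
  choose! G hG1 hG2 using fun (E : Subgroup K) (hE : IsPGroup ℓ E) =>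
    CHC.exists_lift' hs hk hK E hE
  have hmap : mapCh π (σ.image G) = σ := by
    ext E
    rw [mem_mapCh]
    constructor
    · rintro ⟨D, hD, rfl⟩
      obtain ⟨E, hE, rfl⟩ := Finset.mem_image.1 hD
      rw [hG2 E (hσ.1 E hE).1]
      exact hE
    · intro hE
      exact ⟨G E, Finset.mem_image_of_mem G hE, hG2 E (hσ.1 E hE).1⟩
  have hch : IsCh ℓ (pCore ℓ X) (σ.image G) := by
    constructor
    · intro D hD
      obtain ⟨E, hE, rfl⟩ := Finset.mem_image.1 hD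
      obtain ⟨h1, h2⟩ := hσ.1 E hE
      refine ⟨(hG1 E h1).1, lt_of_le_of_ne (hG1 E h1).2 fun h3 => ?_⟩
      have h4 := hG2 E h1
      rw [← h3, (Subgroup.map_eq_bot_iff _).2 (CHC.core_le_ker hs hK)] at h4
      exact absurd h4 h2.ne
    · intro D hD D' hD' _
      obtain ⟨E, hE, rfl⟩ := Finset.mem_image.1 (Finset.mem_coe.1 hD)
      obtain ⟨E', hE', rfl⟩ := Finset.mem_image.1 (Finset.mem_coe.1 hD')
      have h1 := (hσ.1 E hE).1
      have h1' := (hσ.1 E' hE').1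
      rcases hσ.total hE hE' with h | h
      · left
        change G E ≤ G E'
        rw [← CHC.map_le_iff hk (hG1 E h1).1 (hG1 E' h1').1 (hG1 E' h1').2, hG2 E h1, hG2 E' h1']
        exact h
      · right
        change G E' ≤ G E
        rw [← CHC.map_le_iff hk (hG1 E' h1').1 (hG1 E h1).1 (hG1 E h1).2, hG2 E h1, hG2 E' h1']
        exact h
  refine ⟨σ.image G, hch, ?_⟩
  rw [CHC.stb_eq hk hs fun D hD => ⟨(hch.1 D hD).1, (hch.1 D hD).2.le⟩, hmap]

end Core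

/-! ### The numbers of characters -/

section Count

variable {X : Type} [Group X] [Fintype X] (𝔐 : Ideal (integralClosure ℤ ℂ)) (ℓ d : ℕ)
  {U : Subgroup X}

/-- The linear characters of a finite group form a finite set. -/
theorem finite_lin (U : Subgroup X) : Finite (U →* ℂˣ) := by
  have h0 : ∀ (μ : U →* ℂˣ) (u : U), μ u ∈ rootsOfUnity (Nat.card U) ℂ := by
    intro μ u
    rw [mem_rootsOfUnity, ← map_pow, pow_card_eq_one', map_one]
  have : NeZero (Nat.card U) := ⟨Nat.card_pos.ne'⟩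
  refine Finite.of_injective
    (fun (μ : U →* ℂˣ) (u : U) => (⟨μ u, h0 μ u⟩ : rootsOfUnity (Nat.card U) ℂ)) ?_
  intro μ ν h
  apply MonoidHom.ext
  intro u
  exact congrArg Subtype.val (congrFun h u)

/-- The number of the characters of `S` over `μ` of defect `d` with a given central function. -/
noncomputable def NN (μ : U →* ℂˣ) (S : Subgroup X) (c : X → (integralClosure ℤ ℂ) ⧸ 𝔐) : ℕ :=
  Nat.card {ψ : S → ℂ // IsIrr ψ ∧ OvL U μ S ψ ∧ HasDefect ℓ ψ d ∧ cen 𝔐 S.subtype ψ = c}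

open Classical in
/-- The linear character under an irreducible character. -/
noncomputable def mu (U S : Subgroup X) (ψ : S → ℂ) : U →* ℂˣ :=
  if h : ∃ μ : U →* ℂˣ, OvL U μ S ψ then h.choose else 1

theorem mu_iff (hU : U ≤ Subgroup.center X) {S : Subgroup X} (hS : U ≤ S) {ψ : S → ℂ}
    (hψ : IsIrr ψ) (μ : U →* ℂˣ) : mu U S ψ = μ ↔ OvL U μ S ψ := by
  have h := ISOL.exists_lin hU hS hψ
  have h1 : OvL U (mu U S ψ) S ψ := by
    rw [mu, dif_pos h]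
    exact h.choose_spec
  constructor
  · rintro rfl
    exact h1
  · intro h2
    exact ISOL.lin_unique hS hψ h1 h2

/-- Every character lies over one linear character. -/
theorem cnt_eq_sum [Fintype (U →* ℂˣ)] (hU : U ≤ Subgroup.center X) {S : Subgroup X}
    (hS : U ≤ S) (c : X → (integralClosure ℤ ℂ) ⧸ 𝔐) :
    cnt 𝔐 ℓ d S.subtype c = ∑ μ : U →* ℂˣ, NN 𝔐 ℓ d μ S c := by
  rw [cnt, TD.card_split (Y := S)
    (fun ψ => HasDefect ℓ ψ d ∧ ∀ g, cen 𝔐 S.subtype ψ g = c g) (mu U S) Finset.univ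
    (fun _ _ => Finset.mem_univ _)]
  refine Finset.sum_congr rfl fun μ _ => ?_
  rw [NN]
  refine Nat.card_congr (Equiv.subtypeEquivRight fun ψ => ?_)
  refine and_congr_right fun hψ => ?_
  rw [mu_iff hU hS hψ, funext_iff]
  constructor
  · rintro ⟨⟨h1, h2⟩, h3⟩
    exact ⟨h3, h1, h2⟩
  · rintro ⟨h3, h1, h2⟩
    exact ⟨⟨h1, h2⟩, h3⟩

open Classical in
/-- The characters whose central function agrees with `ω` on `N`, in terms of the central
functions of the irreducible characters of the group. -/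
theorem card_eq_sum (μ : U →* ℂˣ) (S N : Subgroup X)
    (hS : ∀ ψ : S → ℂ, IsIrr ψ → ∃ χ : X → ℂ, IsIrr χ ∧
      cen 𝔐 (MonoidHom.id X) χ = cen 𝔐 S.subtype ψ)
    (ω : X → (integralClosure ℤ ℂ) ⧸ 𝔐) :
    Nat.card {ψ : S → ℂ // IsIrr ψ ∧ OvL U μ S ψ ∧ HasDefect ℓ ψ d ∧
        ∀ g ∈ N, cen 𝔐 S.subtype ψ g = ω g} =
      ∑ c ∈ ((irrF X).image (cen 𝔐 (MonoidHom.id X))).filter (fun c => ∀ g ∈ N, c g = ω g),
        NN 𝔐 ℓ d μ S c := by
  rw [TD.card_split (Y := S)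
    (fun ψ => OvL U μ S ψ ∧ HasDefect ℓ ψ d ∧ ∀ g ∈ N, cen 𝔐 S.subtype ψ g = ω g)
    (cen 𝔐 S.subtype) ((irrF X).image (cen 𝔐 (MonoidHom.id X))) ?_]
  · rw [Finset.sum_filter]
    refine Finset.sum_congr rfl fun c _ => ?_
    split_ifs with h
    · rw [NN]
      refine Nat.card_congr (Equiv.subtypeEquivRight fun ψ => ?_)
      refine and_congr_right fun hψ => ?_
      constructor
      · rintro ⟨⟨h1, h2, h3⟩, h4⟩
        exact ⟨h1, h2, h4⟩
      · rintro ⟨h1, h2, h4⟩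
        refine ⟨⟨h1, h2, ?_⟩, h4⟩
        rw [h4]
        exact h
    · have : IsEmpty {ψ : S → ℂ // IsIrr ψ ∧ (OvL U μ S ψ ∧ HasDefect ℓ ψ d ∧
          ∀ g ∈ N, cen 𝔐 S.subtype ψ g = ω g) ∧ cen 𝔐 S.subtype ψ = c} := by
        constructor
        rintro ⟨ψ, h1, ⟨h2, h3, h4⟩, rfl⟩
        exact h h4
      exact Nat.card_of_isEmpty
  · intro ψ hψ
    obtain ⟨χ, hχ, hcen⟩ := hS ψ hψ
    exact Finset.mem_image.2 ⟨χ, mem_irrF.2 hχ, hcen⟩

theorem ovL_tw (κ : X →* ℂˣ) (hκ : ∀ u ∈ U, κ u = 1) {μ : U →* ℂˣ} {S : Subgroup X}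
    {ψ : S → ℂ} (h : OvL U μ S ψ) :
    OvL U μ S (fun y => ((κ.comp S.subtype y : ℂˣ) : ℂ) * ψ y) := by
  intro s t hs
  have h1 : κ.comp S.subtype (s * t) = κ.comp S.subtype t := by
    have h2 : κ.comp S.subtype s = 1 := hκ _ hs
    rw [map_mul, h2, one_mul]
  change ((κ.comp S.subtype (s * t) : ℂˣ) : ℂ) * ψ (s * t) =
    ((μ ⟨s, hs⟩ : ℂˣ) : ℂ) * (((κ.comp S.subtype t : ℂˣ) : ℂ) * ψ t)
  rw [h1, h s t hs]
  ring

/-- Twisting by a linear character. -/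
theorem NN_tw (κ : X →* ℂˣ) (hκ : ∀ u ∈ U, κ u = 1) (μ : U →* ℂˣ) (S : Subgroup X)
    (c : X → (integralClosure ℤ ℂ) ⧸ 𝔐) :
    NN 𝔐 ℓ d μ S (fun x => red 𝔐 ((κ x : ℂˣ) : ℂ) * c x) = NN 𝔐 ℓ d μ S c := by
  have hκ' : ∀ u ∈ U, κ⁻¹ u = 1 := by
    intro u hu
    rw [MonoidHom.inv_apply, hκ u hu, inv_one]
  rw [NN, NN]
  refine Nat.card_congr
    ⟨fun ψ => ⟨fun y => ((κ⁻¹.comp S.subtype y : ℂˣ) : ℂ) * ψ.1 y, ?_, ?_, ?_, ?_⟩,
    fun ψ => ⟨fun y => ((κ.comp S.subtype y : ℂˣ) : ℂ) * ψ.1 y, ?_, ?_, ?_, ?_⟩, ?_, ?_⟩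
  · exact TWL.isIrr_tw ψ.2.1 _
  · exact ovL_tw κ⁻¹ hκ' ψ.2.2.1
  · exact (TWL.hasDefect_tw ℓ d S _ _).mpr ψ.2.2.2.1
  · funext g
    rw [TWL.cen_tw 𝔐 _ S ψ.2.1, congrFun ψ.2.2.2.2 g, ← mul_assoc, TWL.red_unit, one_mul]
  · exact TWL.isIrr_tw ψ.2.1 _
  · exact ovL_tw κ hκ ψ.2.2.1
  · exact (TWL.hasDefect_tw ℓ d S _ _).mpr ψ.2.2.2.1
  · funext g
    rw [TWL.cen_tw 𝔐 _ S ψ.2.1, congrFun ψ.2.2.2.2 g]
  · intro ψ
    apply Subtype.ext
    funext y
    change ((κ.comp S.subtype y : ℂˣ) : ℂ) * (((κ⁻¹.comp S.subtype y : ℂˣ) : ℂ) * ψ.1 y) = ψ.1 y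
    rw [← mul_assoc, ← Units.val_mul, MonoidHom.comp_apply, MonoidHom.comp_apply,
      MonoidHom.inv_apply, mul_inv_cancel, Units.val_one, one_mul]
  · intro ψ
    apply Subtype.ext
    funext y
    change ((κ⁻¹.comp S.subtype y : ℂˣ) : ℂ) * (((κ.comp S.subtype y : ℂˣ) : ℂ) * ψ.1 y) = ψ.1 y
    rw [← mul_assoc, ← Units.val_mul, MonoidHom.comp_apply, MonoidHom.comp_apply,
      MonoidHom.inv_apply, inv_mul_cancel, Units.val_one, one_mul]

end Count

/-! ### The chain sums -/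

section Sums

variable {X K : Type} [Group X] [Fintype X] [Group K] [Fintype K]
  (𝔐 : Ideal (integralClosure ℤ ℂ)) (ℓ d : ℕ)

/-- The sum over the chains of `K` of the numbers of the characters over `μ` with a given central
function. -/
noncomputable def TT (π : X →* K) (μ : π.ker →* ℂˣ) (c : X → (integralClosure ℤ ℂ) ⧸ 𝔐) : ℚ :=
  ∑ σ ∈ Ch ℓ (⊥ : Subgroup K), (-1 : ℚ) ^ σ.card * ((Nat.card (stb σ) : ℚ) *
    NN 𝔐 ℓ d μ ((stb σ).comap π) c)

theorem TT_tw (π : X →* K) (κ : X →* ℂˣ) (hκ : ∀ u ∈ π.ker, κ u = 1) (μ : π.ker →* ℂˣ)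
    (c : X → (integralClosure ℤ ℂ) ⧸ 𝔐) :
    TT 𝔐 ℓ d π μ (fun x => red 𝔐 ((κ x : ℂˣ) : ℂ) * c x) = TT 𝔐 ℓ d π μ c := by
  rw [TT, TT]
  refine Finset.sum_congr rfl fun σ _ => ?_
  rw [NN_tw 𝔐 ℓ d κ hκ]

theorem ker_le (π : X →* K) (S : Subgroup K) : π.ker ≤ S.comap π := by
  intro x hx
  rw [Subgroup.mem_comap, MonoidHom.mem_ker.1 hx]
  exact S.one_mem

/-- The chain sum of the extension. -/
theorem KK_eq [Fact ℓ.Prime] (π : X →* K) [Fintype (π.ker →* ℂˣ)] (hs : Function.Surjective π)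
    (hk : π.ker ≤ Subgroup.center X)
    (hsum : ∀ W : Subgroup X → ℚ, ∑ σ ∈ Ch ℓ (pCore ℓ X), (-1 : ℚ) ^ σ.card * W (stb σ) =
      ∑ σ ∈ Ch ℓ (⊥ : Subgroup K), (-1 : ℚ) ^ σ.card * W ((stb σ).comap π))
    (c : X → (integralClosure ℤ ℂ) ⧸ 𝔐) :
    KK 𝔐 ℓ d (pCore ℓ X) c = (Nat.card π.ker : ℚ) * ∑ μ : π.ker →* ℂˣ, TT 𝔐 ℓ d π μ c := by
  rw [KK, hsum (fun S => (Nat.card S : ℚ) * (cnt 𝔐 ℓ d S.subtype c : ℚ))]
  simp only [TT]
  rw [Finset.sum_comm, Finset.mul_sum]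
  refine Finset.sum_congr rfl fun σ _ => ?_
  rw [cnt_eq_sum 𝔐 ℓ d hk (ker_le π (stb σ)), TD.card_comap π hs, ← Finset.mul_sum,
    ← Finset.mul_sum]
  push_cast
  ring

open Classical in
/-- The sum `DKU` in terms of the central functions of the irreducible characters. -/
theorem DKU_eq [𝔐.IsPrime] [Fact ℓ.Prime] (hℓ : (ℓ : integralClosure ℤ ℂ) ∈ 𝔐) (π : X →* K)
    (hs : Function.Surjective π) (hk : π.ker ≤ Subgroup.center X) (hK : pCore ℓ K = ⊥)
    (μ : π.ker →* ℂˣ) (M : Subgroup K) (ω : X → (integralClosure ℤ ℂ) ⧸ 𝔐) :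
    Pool.Agent.DPF.DKU 𝔐 ℓ d π μ M ω =
      ∑ c ∈ ((irrF X).image (cen 𝔐 (MonoidHom.id X))).filter
        (fun c => ∀ g ∈ M.comap π, c g = ω g), TT 𝔐 ℓ d π μ c := by
  simp only [TT]
  rw [Pool.Agent.DPF.DKU, Finset.sum_comm]
  refine Finset.sum_congr rfl fun σ hσ => ?_
  rw [card_eq_sum 𝔐 ℓ d μ ((stb σ).comap π) (M.comap π) ?_ ω, ← Finset.mul_sum,
    ← Finset.mul_sum]
  · push_cast
    rfl
  · obtain ⟨τ, hτ, hτσ⟩ := exists_chain hs hk hK (mem_Ch.1 hσ)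
    rw [← hτσ]
    intro ψ hψ
    exact exists_irr_of_mult 𝔐 hψ (exists_irr_of_chain 𝔐 hℓ hτ hψ)

end Sums

/-! ### Characters over a character of a normal subgroup -/

section Over

variable {X H : Type} [Group X] [Fintype X] [Group H]

theorem clg {N : Subgroup X} [N.Normal] (f : X →* H) (hf : ∀ x, f x = 1 ↔ x ∈ N) :
    ClG N.subtype (MulAut.conjNormal (H := N)) f where
  inj := N.subtype_injective
  act := by
    intro y a
    rfl
  ker := by
    intro y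
    rw [hf, Subgroup.range_subtype]

/-- A character over a character of a normal subgroup, with the same central function on it. -/
theorem exists_over (h5 : Stmt_SUMM) (𝔐 : Ideal (integralClosure ℤ ℂ)) {N : Subgroup X}
    (f : X →* H) (hf : ∀ x, f x = 1 ↔ x ∈ N) {θ : N → ℂ} (hθ : IsIrr θ) :
    ∃ χ : X → ℂ, IsIrr χ ∧ ip (resj N.subtype χ) θ ≠ 0 ∧
      ∀ g ∈ N, cen 𝔐 (MonoidHom.id X) χ g = cen 𝔐 N.subtype θ g := by
  have hN : N.Normal := by
    constructor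
    intro x hx g
    rw [← hf] at hx ⊢
    rw [map_mul, map_mul, map_inv, hx, mul_one, mul_inv_cancel]
  obtain ⟨s1, -, -, s4⟩ := h5 N X H N.subtype (MulAut.conjNormal (H := N)) f (clg f hf)
  have h0 : (Nat.card {y : X // ∀ a, θ (MulAut.conjNormal (H := N) y a) = θ a} : ℂ) ≠ 0 := by
    have : Nonempty {y : X // ∀ a, θ (MulAut.conjNormal (H := N) y a) = θ a} :=
      ⟨⟨1, fun a => by rw [map_one, MulAut.one_apply]⟩⟩
    exact_mod_cast Nat.card_pos.ne'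
  rw [← s1 θ θ hθ hθ] at h0
  obtain ⟨χ, hχ, hne⟩ := Finset.exists_ne_zero_of_sum_ne_zero (right_ne_zero_of_mul h0)
  have hχ' := mem_irrF.1 hχ
  have hip := left_ne_zero_of_mul hne
  refine ⟨χ, hχ', hip, ?_⟩
  intro g hg
  rw [cen, cen]
  congr 1
  refine s4 θ χ (fun y => conjInd y g) hθ hχ' hip (fun a x => conjInd_conj a x g) ?_
  intro y hy
  rw [conjInd, if_neg]
  intro hc
  apply hy
  rw [Subgroup.range_subtype]
  obtain ⟨c, hc'⟩ := isConj_iff.1 hc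
  have h1 : y = c⁻¹ * g * c⁻¹⁻¹ := by
    rw [← hc']
    group
  rw [h1]
  exact hN.conj_mem g hg c⁻¹

end Over

end GLU

open Classical in
theorem GLU_thm (h1 : Stmt_BLM) (h2 : Stmt_TWL) (h3 : Stmt_DZ6) (h4 : Stmt_CHC)
    (h5 : Stmt_SUMM) : Stmt_GLU := by
  intro X H _ _ _ _ 𝔐 ℓ _ hM hℓ hcore d ω hd hKK M hcM f hf hfM hH K _ _ π hπ hker
  have hprime : 𝔐.IsPrime := hM.isPrime
  have hkc : π.ker ≤ Subgroup.center X := hker.le
  have hK : pCore ℓ K = ⊥ := GLU.core_eq_bot hπ hker hcore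
  obtain ⟨-, hcard, hsum⟩ := h4 X K ℓ π hπ hkc hK
  have hkM : π.ker ≤ M := hkc.trans hcM
  have hMM : (M.map π).comap π = M := Subgroup.comap_map_eq_self hkM
  -- a character with the central function `ω`
  obtain ⟨τ0, hτ0, ψ0, hψ0, -, hcen0⟩ := KK_ne_zero 𝔐 hKK
  obtain ⟨χ0, hχ0, hχcen⟩ := exists_irr_of_mult 𝔐 hψ0 (exists_irr_of_chain 𝔐 hℓ hτ0 hψ0)
  have hω : cen 𝔐 (MonoidHom.id X) χ0 = ω := by
    rw [hχcen]
    exact funext hcen0
  have hH' := hH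
  obtain ⟨P, hPn, hPp, hPi, hPc⟩ := hH'
  -- the central functions which agree with `ω` on `M`
  have tw : ∀ χ : X → ℂ, IsIrr χ → (∀ g ∈ M, cen 𝔐 (MonoidHom.id X) χ g = ω g) →
      ∃ κ : X →* ℂˣ, (∀ u ∈ π.ker, κ u = 1) ∧
        ω = fun g => red 𝔐 ((κ g : ℂˣ) : ℂ) * cen 𝔐 (MonoidHom.id X) χ g := by
    intro χ hχ hag
    obtain ⟨lam, -, hlam⟩ := h1 X H 𝔐 ℓ hM hℓ M f hf hfM P hPn hPp hPi hPc χ χ0 hχ hχ0
      (by
        intro g hg
        rw [hag g hg, hω])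
    refine ⟨lam.comp f, ?_, ?_⟩
    · intro u hu
      rw [MonoidHom.comp_apply, (hfM u).2 (hkM hu), map_one]
    · rw [← hω]
      funext g
      exact hlam g
  have hfin := GLU.finite_lin π.ker
  have hft : Fintype (π.ker →* ℂˣ) := Fintype.ofFinite _
  obtain ⟨μ, hμ⟩ : ∃ μ : π.ker →* ℂˣ, GLU.TT 𝔐 ℓ d π μ ω ≠ 0 := by
    by_contra hcon
    push Not at hcon
    apply hKK
    rw [GLU.KK_eq 𝔐 ℓ d π hπ hkc hsum, Finset.sum_eq_zero (fun μ _ => hcon μ), mul_zero]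
  refine ⟨μ, ?_, ?_⟩
  · intro θ hθ _ hdef hag
    have hfN : ∀ x, f x = 1 ↔ x ∈ (M.map π).comap π := by
      intro x
      rw [hMM]
      exact hfM x
    obtain ⟨χ, hχ, hip, hcen⟩ := GLU.exists_over h5 𝔐 f hfN hθ
    have hv : padicValNat ℓ (Nat.card (pCore ℓ X)) = padicValNat ℓ (Nat.card π.ker) := by
      rw [hcard, padicValNat.prime_pow]
    have h6 : KK 𝔐 ℓ d (pCore ℓ X) (cen 𝔐 (MonoidHom.id X) χ) = 0 := by
      refine h3 X H 𝔐 ℓ hM hℓ hH (pCore ℓ X) ((M.map π).comap π) hcore (isPGroup_pCore ℓ) ?_ f hf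
        hfN χ θ hχ hθ ?_ hip d hd
      · rw [hMM]
        exact hcore.trans hcM
      · rw [hv]
        exact hdef
    obtain ⟨κ, -, hκ⟩ := tw χ hχ (by
      intro g hg
      rw [← hMM] at hg
      rw [hcen g hg]
      exact hag g hg)
    apply hKK
    rw [hκ, h2 X 𝔐 ℓ hM hℓ κ (pCore ℓ X) d (cen 𝔐 (MonoidHom.id X) χ)]
    exact h6
  · rw [GLU.DKU_eq 𝔐 ℓ d hℓ π hπ hkc hK μ (M.map π) ω]
    have h7 : ∀ c ∈ ((irrF X).image (cen 𝔐 (MonoidHom.id X))).filter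
        (fun c => ∀ g ∈ (M.map π).comap π, c g = ω g),
        GLU.TT 𝔐 ℓ d π μ c = GLU.TT 𝔐 ℓ d π μ ω := by
      intro c hc
      rw [Finset.mem_filter] at hc
      obtain ⟨hc1, hc2⟩ := hc
      obtain ⟨χ, hχ, rfl⟩ := Finset.mem_image.1 hc1
      obtain ⟨κ, hκ1, hκ2⟩ := tw χ (mem_irrF.1 hχ) (by
        intro g hg
        rw [← hMM] at hg
        exact hc2 g hg)
      conv_rhs => rw [hκ2]
      exact (GLU.TT_tw 𝔐 ℓ d π κ hκ1 μ _).symm
    rw [Finset.sum_congr rfl h7, Finset.sum_const, nsmul_eq_mul]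
    refine mul_ne_zero ?_ hμ
    have h8 : ω ∈ ((irrF X).image (cen 𝔐 (MonoidHom.id X))).filter
        (fun c => ∀ g ∈ (M.map π).comap π, c g = ω g) :=
      Finset.mem_filter.2 ⟨Finset.mem_image.2 ⟨χ0, mem_irrF.2 hχ0, hω⟩, fun _ _ => rfl⟩
    exact_mod_cast (Finset.card_pos.2 ⟨ω, h8⟩).ne'

end Pool.Agent.DPT


end

section

/-!
# RDXr: existence of reduced data, for a class of groups
-/

namespace Pool.Agent.DPK

open Pool.Agent.DP Pool.Agent.DPC Pool.Agent.DPM Pool.Agent.DPN Pool.Agent.DPT Pool.Agent.DPF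
open Pool.Agent.Lib_helper13
open Representation
open Pool.Agent.Lib_helper13.Dade (pCore DadeHolds dadeSum)

open Pool.Agent.DPN.RDX in
/-- Existence of reduced data, for a class of groups. -/
theorem RDXr_thm (Cl : ∀ (Y : Type) [Group Y], Prop) (_hC : GC Cl) (h1 : Stmt_RDA)
    (h2 : Stmt_RDQ) (h3 : Stmt_RDB) (h4 : Stmt_RDE) (h5 : Stmt_TDMr Cl) : Stmt_RDXr Cl := by
  intro A T H _ _ _ _ _ _ 𝔐 ℓ _ hM hℓ j c p hc hp hO hCl hH θ hθ hinv a ha
  obtain ⟨Γ, L, _, _, _, _, e, q, r, E, U, μ, π, tw⟩ := TWC_thm A T H j c p hc hp θ hθ hinv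
  obtain ⟨L', _, _, κ, π', μ', qd⟩ := h2 L H 𝔐 ℓ hM hℓ U μ π tw.Uc tw.πk tw.cyc tw.inj
  obtain ⟨Aadd, Acgr, Amul, Aeqv, Aone, Actr⟩ :=
    h1 A T H Γ L 𝔐 ℓ hM hℓ j c p hc hp θ hθ hinv e q r E U μ π tw
  have hπ's : Function.Surjective π' := by
    intro x
    obtain ⟨l, hl⟩ := tw.πs x
    exact ⟨κ l, by rw [qd.ππ, hl]⟩
  let s : L' → L := Function.surjInv qd.κs
  have hs : ∀ l', κ (s l') = l' := Function.surjInv_eq qd.κs
  let Lm : (T → ℤ) → L' → (integralClosure ℤ ℂ) ⧸ 𝔐 := fun u l' => LmL 𝔐 θ q r E u (s l')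
  have hred1 : red 𝔐 (1 : ℂ) = 1 := by
    rw [red_of_integral 𝔐 isIntegral_one]
    exact map_one _
  have hLm : ∀ u, AIv j u → ∀ l, Lm u (κ l) = LmL 𝔐 θ q r E u l := by
    intro u hu l
    have hz : s (κ l) * l⁻¹ ∈ κ.ker := by
      rw [MonoidHom.mem_ker, map_mul, map_inv, hs, mul_inv_cancel]
    have hzU := qd.κU hz
    have h6 := Actr u hu ⟨s (κ l) * l⁻¹, hzU⟩ l
    have h7 : κ (s (κ l) * l⁻¹) = 1 := hz
    have h8 : κ (s (κ l) * l⁻¹) ∈ π'.ker := by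
      rw [h7]
      exact Subgroup.one_mem _
    have h9 := qd.μμ (s (κ l) * l⁻¹) hzU h8
    have h10 : μ' ⟨κ (s (κ l) * l⁻¹), h8⟩ = 1 := by
      have h11 : (⟨κ (s (κ l) * l⁻¹), h8⟩ : π'.ker) = 1 := Subtype.ext h7
      rw [h11, map_one]
    rw [h10, Units.val_one, hred1] at h9
    rw [← h9, one_mul] at h6
    have h12 : ((⟨s (κ l) * l⁻¹, hzU⟩ : U) : L) * l = s (κ l) := inv_mul_cancel_right _ _
    rw [h12] at h6
    exact h6
  have hp' : ∀ l', π' l' = π (s l') := by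
    intro l'
    rw [← qd.ππ, hs]
  refine ⟨L', inferInstance, inferInstance, π', μ', Lm, hπ's, qd.cc, qd.nl, ?_⟩
  refine
    { add := ?_, cgr := ?_, mul := ?_, eqv := ?_, one := ?_, ctr := ?_, num := ?_, van := ?_,
      ext := ?_ }
  · intro u v hu hv w
    exact Aadd u v hu hv (s w)
  · intro u v hu hv w h
    refine Acgr u v hu hv (s w) fun t ht => h t ?_
    rw [hp', ht]
  · intro u v hu hv w w' h h'
    have h6 : w * w' = κ (s w * s w') := by rw [map_mul, hs, hs]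
    rw [h6, hLm _ (AIv_conv hu hv)]
    exact Amul u v hu hv (s w) (s w') (fun t ht => h t (by rw [hp']; exact ht))
      (fun t ht => h' t (by rw [hp']; exact ht))
  · intro u hu t w' ht w
    have h6 : w' * w * w'⁻¹ = κ (s w' * s w * (s w')⁻¹) := by
      rw [map_mul, map_mul, map_inv, hs, hs]
    rw [h6, hLm _ (AIv_conj hc hu t)]
    exact Aeqv u hu t (s w') (by rw [ht, hp']) (s w)
  · intro u hu
    have h6 : (1 : L') = κ 1 := (map_one κ).symm
    rw [h6, hLm u hu, Aone u hu]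
  · intro u hu z w
    obtain ⟨l, hl⟩ := qd.κs (z : L')
    have hlU : l ∈ U := by
      rw [← tw.πk, ← qd.ππ, hl]
      exact z.2
    have h8 : κ l ∈ π'.ker := by
      rw [hl]
      exact z.2
    have h9 := qd.μμ l hlU h8
    have h10 : (⟨κ l, h8⟩ : π'.ker) = z := Subtype.ext hl
    rw [h10] at h9
    rw [h9]
    have h11 : (z : L') * w = κ (l * s w) := by rw [map_mul, hl, hs]
    rw [h11, hLm u hu]
    exact Actr u hu ⟨l, hlU⟩ (s w)
  · intro X _ _ i ω V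
    exact h3 A T H Γ L L' X 𝔐 ℓ hM hℓ j c p hc hp θ hθ hinv a ha e q r E U μ π tw κ π' μ' qd Lm
      hLm i ω V
  · intro m hm e' he' Q
    refine h5 L' H 𝔐 ℓ hM hℓ π' hπ's hO hCl hH π'.ker μ' qd.cc (fun l => Iff.rfl) qd.cyc qd.inj e' ?_
      m hm Q
    rw [padicValNat.eq_zero_of_not_dvd qd.nl]
    exact he'
  · intro B V _ _ _ _ hV f α β hfβ hex
    exact h4 A T H Γ L L' B V 𝔐 ℓ hM hℓ j c p hc hp θ hθ hinv e q r E U μ π tw κ π' μ' qd Lm
      hLm hV f α β hfβ hex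

end Pool.Agent.DPK


end

section

/-!
# DDSr: the sum over all chains of `K` (groups of a class)
-/

set_option linter.unusedSectionVars false

namespace Pool.Agent.DPK

open Pool.Agent.DP Pool.Agent.DPC Pool.Agent.DPM Pool.Agent.DPN Pool.Agent.DPT
  Pool.Agent.Lib_helper13
open Representation
open Pool.Agent.Lib_helper13.Dade (pCore DadeHolds dadeSum)

open Classical in
theorem DDSr_thm (Cl : ∀ (Y : Type) [Group Y], Prop) (hCl : GC Cl) (h1 : Stmt_ISOL)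
    (h2 : Stmt_CHC) (h3 : Stmt_DZC) (h4 : Stmt_BTC) (h5 : Stmt_MINX) (h6 : Stmt_DEFA)
    (h7 : Stmt_SUMM) : Stmt_DDSr Cl := by
  intro L K _ _ _ _ 𝔐 ℓ _ hmax hℓ π hπs hUc hcyc μ hinj hClK hHQ M hMn ω d hne0
  have hcore : pCore ℓ K = ⊥ := DDS.CS_core ℓ _ hne0
  have hne := hne0
  rw [DDS.CS_top] at hne
  simp only [DDS.WF_eq] at hne
  -- split according to the central function
  have hfin : (⋃ σ ∈ Ch ℓ (⊥ : Subgroup K), {x : L → (integralClosure ℤ ℂ) ⧸ 𝔐 |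
      ∃ ψ : ↥((stb σ).comap π) → ℂ, IsIrr ψ ∧
      cen 𝔐 ((stb σ).comap π).subtype ψ = x}).Finite := by
    apply Set.Finite.biUnion (Finset.finite_toSet _)
    intro τ _
    exact finite_cen 𝔐 _
  have hC : ∀ σ ∈ Ch ℓ (⊥ : Subgroup K), ∀ ψ : ↥((stb σ).comap π) → ℂ, IsIrr ψ →
      cen 𝔐 ((stb σ).comap π).subtype ψ ∈ hfin.toFinset := by
    intro σ hσ ψ hψ
    rw [Set.Finite.mem_toFinset, Set.mem_iUnion₂]
    exact ⟨σ, hσ, ψ, hψ, rfl⟩
  have hsplit : ∑ σ ∈ Ch ℓ (⊥ : Subgroup K), (-1 : ℚ) ^ σ.card * ((Nat.card (stb σ) : ℚ) *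
      Nat.card {η : ↥((stb σ).comap π) → ℂ // IsIrr η ∧ (OvL π.ker μ _ η ∧
        HasDefect ℓ η d ∧ ∀ g, π g ∈ M → cen 𝔐 ((stb σ).comap π).subtype η g = ω g)}) =
      ∑ x ∈ hfin.toFinset, ∑ σ ∈ Ch ℓ (⊥ : Subgroup K),
        ((-1 : ℚ) ^ σ.card * (Nat.card (stb σ) : ℚ)) *
        Nat.card {η : ↥((stb σ).comap π) → ℂ // IsIrr η ∧ (OvL π.ker μ _ η ∧
          HasDefect ℓ η d ∧ ∀ g, π g ∈ M → cen 𝔐 ((stb σ).comap π).subtype η g = ω g) ∧
          cen 𝔐 ((stb σ).comap π).subtype η = x} := by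
    rw [Finset.sum_comm]
    refine Finset.sum_congr rfl fun σ hσ => ?_
    rw [TD.card_split (fun η : ↥((stb σ).comap π) → ℂ => OvL π.ker μ _ η ∧
        HasDefect ℓ η d ∧ ∀ g, π g ∈ M → cen 𝔐 ((stb σ).comap π).subtype η g = ω g)
      (fun η => cen 𝔐 ((stb σ).comap π).subtype η) hfin.toFinset (hC σ hσ)]
    rw [Nat.cast_sum, Finset.mul_sum, Finset.mul_sum]
    refine Finset.sum_congr rfl fun x _ => ?_
    rw [mul_assoc]
  rw [hsplit] at hne
  obtain ⟨x, -, hx'⟩ := Finset.exists_ne_zero_of_sum_ne_zero hne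
  have hxM : ∀ g, π g ∈ M → x g = ω g := by
    by_contra hxn
    apply hx'
    refine Finset.sum_eq_zero fun σ hσ => ?_
    have hempty : IsEmpty {η : ↥((stb σ).comap π) → ℂ // IsIrr η ∧ (OvL π.ker μ _ η ∧
          HasDefect ℓ η d ∧ ∀ g, π g ∈ M → cen 𝔐 ((stb σ).comap π).subtype η g = ω g) ∧
          cen 𝔐 ((stb σ).comap π).subtype η = x} := by
      constructor
      rintro ⟨η, -, ⟨-, -, h2⟩, h3⟩
      apply hxn
      rw [← h3]
      exact h2
    rw [@Nat.card_of_isEmpty _ hempty, Nat.cast_zero, mul_zero]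
  have hx : ∑ σ ∈ Ch ℓ (⊥ : Subgroup K),
        ((-1 : ℚ) ^ σ.card * (Nat.card (stb σ) : ℚ)) *
        Nat.card {η : ↥((stb σ).comap π) → ℂ // IsIrr η ∧ OvL π.ker μ _ η ∧
          HasDefect ℓ η d ∧ cen 𝔐 ((stb σ).comap π).subtype η = x} ≠ 0 := by
    intro h0
    apply hx'
    rw [← h0]
    refine Finset.sum_congr rfl fun σ _ => ?_
    congr 2
    refine Nat.card_congr (Equiv.subtypeEquivRight fun η => ?_)
    constructor
    · rintro ⟨h1, ⟨h2, h3, -⟩, h4⟩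
      exact ⟨h1, h2, h3, h4⟩
    · rintro ⟨h1, h2, h3, h4⟩
      refine ⟨h1, ⟨h2, h3, ?_⟩, h4⟩
      rw [h4]
      exact hxM
  -- the values of the central function on the kernel
  have hUS : ∀ σ ∈ Ch ℓ (⊥ : Subgroup K), π.ker ≤ (stb σ).comap π := by
    intro σ _ u hu
    rw [Subgroup.mem_comap, MonoidHom.mem_ker.mp hu]
    exact one_mem _
  have hcU : ∀ u ∈ π.ker, ∀ y : L, u * y = y * u := fun u hu y =>
    (Subgroup.mem_center_iff.1 (hUc hu) y).symm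
  have hcu : ∀ (u : L) (h : u ∈ π.ker), x u = red 𝔐 ((μ ⟨u, h⟩ : ℂˣ) : ℂ) := by
    intro u hu
    obtain ⟨τ, hτC, hτ⟩ := Finset.exists_ne_zero_of_sum_ne_zero hx
    have h3 := right_ne_zero_of_mul hτ
    have h4 : Nonempty {η : ↥((stb τ).comap π) → ℂ // IsIrr η ∧ OvL π.ker μ _ η ∧
          HasDefect ℓ η d ∧ cen 𝔐 ((stb τ).comap π).subtype η = x} := by
      by_contra hne
      apply h3
      rw [not_nonempty_iff] at hne
      rw [Nat.card_of_isEmpty, Nat.cast_zero]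
    obtain ⟨η, hη, hov, _, hce⟩ := h4
    have huS : u ∈ (stb τ).comap π := hUS τ hτC hu
    have h5 := PSDB.cen_central 𝔐 ((stb τ).comap π).subtype
      (Subgroup.subtype_injective _) η (y₀ := ⟨u, huS⟩) (by
        intro g
        show g * u * g⁻¹ = u
        rw [← hcU u hu g, mul_inv_cancel_right])
    have h6 : (((stb τ).comap π).subtype ⟨u, huS⟩ : L) = u := rfl
    rw [h6, hce] at h5
    rw [h5]
    congr 1
    have h7 := hov ⟨u, huS⟩ 1 hu
    rw [mul_one] at h7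
    rw [h7, mul_div_assoc, div_self hη.one_ne_zero, mul_one]
  -- isolation
  obtain ⟨L', iL', fL', q', d', c', hq's, hq'U, hq'p, hd', hsum, hlast⟩ :=
    h1 L (Finset (Subgroup K)) 𝔐 ℓ hmax hℓ π.ker μ hUc hcyc hinj (Ch ℓ (⊥ : Subgroup K))
      (fun σ => (-1 : ℚ) ^ σ.card * (Nat.card (stb σ) : ℚ)) (fun σ => (stb σ).comap π) hUS
      d x hx
  -- the projection of the quotient
  let π' : L' →* K := q'.liftOfSurjective hq's ⟨π, hq'U⟩
  have hπ' : ∀ l, π' (q' l) = π l := fun l => MonoidHom.liftOfRightInverse_comp_apply _ _ _ _ l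
  have hπ's : Function.Surjective π' := by
    intro k
    obtain ⟨l, hl⟩ := hπs k
    exact ⟨q' l, by rw [hπ', hl]⟩
  have hπ'k : π'.ker = π.ker.map q' := by
    ext l'
    obtain ⟨l, rfl⟩ := hq's l'
    rw [MonoidHom.mem_ker, hπ', ← MonoidHom.mem_ker, Subgroup.mem_map]
    constructor
    · intro h
      exact ⟨l, h, rfl⟩
    · rintro ⟨u, hu, hul⟩
      have h6 : u⁻¹ * l ∈ q'.ker := by
        rw [MonoidHom.mem_ker, map_mul, map_inv, hul, inv_mul_cancel]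
      have h7 := π.ker.mul_mem hu (hq'U h6)
      rwa [mul_inv_cancel_left] at h7
  have hcent : π'.ker ≤ Subgroup.center L' := by
    rw [hπ'k]
    rintro _ ⟨u, hu, rfl⟩
    rw [Subgroup.mem_center_iff]
    intro g
    obtain ⟨l, rfl⟩ := hq's g
    rw [← map_mul, ← map_mul, Subgroup.mem_center_iff.mp (hUc hu) l]
  have hmap : ∀ V : Subgroup K, (V.comap π).map q' = V.comap π' := by
    intro V
    ext l'
    obtain ⟨l, rfl⟩ := hq's l'
    rw [Subgroup.mem_comap, hπ', Subgroup.mem_map]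
    constructor
    · rintro ⟨u, hu, hul⟩
      rw [Subgroup.mem_comap] at hu
      rwa [← hπ', ← hul, hπ']
    · intro h
      exact ⟨l, h, rfl⟩
  obtain ⟨h8, h9, h10⟩ := h2 L' K ℓ π' hπ's hcent hcore
  have h11 : KK 𝔐 ℓ d' (pCore ℓ L') c' ≠ 0 := by
    have h12 := h10 (fun S => Nat.card S * cnt 𝔐 ℓ d' S.subtype c')
    rw [KK, h12]
    have h13 : ∑ σ ∈ Ch ℓ (⊥ : Subgroup K), (-1 : ℚ) ^ σ.card *
        ((Nat.card ↥((stb σ).comap π') : ℚ) * cnt 𝔐 ℓ d' ((stb σ).comap π').subtype c') =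
        (Nat.card π'.ker : ℚ) * ∑ σ ∈ Ch ℓ (⊥ : Subgroup K),
          (-1 : ℚ) ^ σ.card * (Nat.card (stb σ) : ℚ) *
            cnt 𝔐 ℓ d' (((stb σ).comap π).map q').subtype c' := by
      rw [Finset.mul_sum]
      refine Finset.sum_congr rfl fun σ _ => ?_
      rw [TD.card_comap π' hπ's, hmap, Nat.cast_mul]
      ring
    rw [h13]
    refine mul_ne_zero ?_ hsum
    exact Nat.cast_ne_zero.mpr Nat.card_pos.ne'
  have h14 : (Subgroup.center L').index ≤ Nat.card K := by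
    have h13 : π'.ker.index = Nat.card K := by
      rw [Subgroup.index_ker, MonoidHom.range_eq_top.mpr hπ's]
      exact Nat.card_congr Subgroup.topEquiv.toEquiv
    rw [← h13]
    exact Nat.le_of_dvd (Nat.pos_of_ne_zero Subgroup.index_ne_zero_of_finite)
      (Subgroup.index_dvd_of_le hcent)
  have h15 : DadeHolds ℓ L' := hHQ L' (hCl.up L' K π' hcent hClK) h8 h14
  obtain ⟨-, χ', hχ', -, hχ'c, hχ'd⟩ := h3 L' 𝔐 ℓ hmax hℓ h8 h15 d' c' h11
  -- inflation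
  obtain ⟨hχ₀, hc₀⟩ := DDS.infl 𝔐 hq's hlast hχ' hχ'c
  obtain ⟨e, n, hn, hen⟩ := hχ'.exists_defect (ℓ := ℓ)
  have h16 : e ≤ padicValNat ℓ (Nat.card π'.ker) := by
    have h17 := hχ'd e ⟨n, hn, hen⟩
    rw [h9] at h17
    exact (Nat.pow_le_pow_iff_right (Fact.out : ℓ.Prime).one_lt).mp h17
  have h17 : padicValNat ℓ (Nat.card π.ker) = padicValNat ℓ (Nat.card π'.ker) +
      padicValNat ℓ (Nat.card q'.ker) := by
    have h18 := TD.card_comap q' hq's (π.ker.map q')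
    rw [Subgroup.comap_map_eq_self hq'U] at h18
    rw [h18, hπ'k, mul_comm, padicValNat.mul Nat.card_pos.ne' Nat.card_pos.ne']
  have h18 : padicValNat ℓ (Nat.card L) = padicValNat ℓ (Nat.card L') +
      padicValNat ℓ (Nat.card q'.ker) := by
    have h19 := TD.card_comap q' hq's (⊤ : Subgroup L')
    rw [Subgroup.comap_top, Subgroup.card_top, Subgroup.card_top] at h19
    rw [h19, mul_comm, padicValNat.mul Nat.card_pos.ne' Nat.card_pos.ne']
  have h19 : HasDefect ℓ (fun l : L => χ' (q' l)) (e + padicValNat ℓ (Nat.card q'.ker)) := by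
    refine ⟨n, ?_, ?_⟩
    · show χ' (q' 1) = n
      rw [map_one, hn]
    · omega
  have h20 : padicValNat ℓ (Nat.card π.ker) ≤ e + padicValNat ℓ (Nat.card q'.ker) :=
    DLO.defect_ge h6 ℓ π.ker hUc hχ₀ h19
  have h21 : e + padicValNat ℓ (Nat.card q'.ker) = padicValNat ℓ (Nat.card π.ker) := by omega
  rw [h21] at h19
  -- the Sylow subgroup of the kernel
  obtain ⟨h22, h23, -⟩ := h2 L K ℓ π hπs hUc hcore
  have h24 : pCore ℓ L ≤ π.ker := CHC.core_le_ker hπs hcore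
  have h25 : padicValNat ℓ (Nat.card (pCore ℓ L)) = padicValNat ℓ (Nat.card π.ker) := by
    rw [h23, padicValNat.prime_pow]
  have h26 : ∀ u ∈ π.ker, ∀ k : ℕ, u ^ ℓ ^ k = 1 → u ∈ pCore ℓ L := by
    intro u hu k hk
    refine CHC.le_core_of_central (D := Subgroup.zpowers u) ?_
      (by rw [Subgroup.zpowers_le]; exact hUc hu) (Subgroup.mem_zpowers u)
    rintro ⟨y, hy⟩
    obtain ⟨j, rfl⟩ := Subgroup.mem_zpowers_iff.mp hy
    refine ⟨k, Subtype.ext ?_⟩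
    change (u ^ j) ^ ℓ ^ k = 1
    rw [← zpow_natCast, ← zpow_mul, mul_comm, zpow_mul, zpow_natCast, hk, one_zpow]
  obtain ⟨χ₁, hχ₁, hd₁, hc₁, hov₁⟩ := DDS.exists_over h4 h5 hmax hℓ hUc h24
    (isPGroup_pCore ℓ) h25 h26 μ hχ₀ h19 (by rw [hc₀]; exact hcu)
  -- the restriction
  have hNn : (M.comap π).Normal := hMn.comap π
  have hUM : π.ker ≤ M.comap π := by
    intro u hu
    rw [Subgroup.mem_comap, MonoidHom.mem_ker.mp hu]
    exact M.one_mem
  obtain ⟨θ, hθ, hθd, hθo, hθc⟩ := DDS.exists_restr h6 h7 𝔐 hNn hUM hUc μ hχ₁ hd₁ hov₁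
  refine ⟨ext0 θ, ⟨STB.irrOn_ext0 hθ, ?_⟩, (DDS.ovK_iff π μ M θ).mpr hθo, ?_⟩
  · rw [STB.ext0_coe]
    exact hθd
  · intro g hg
    rw [← STB.cen_eq, hθc g hg, hc₁, hc₀, hxM g hg]

end Pool.Agent.DPK


end

section

/-!
# OSR: characters whose central functions agree on the elements of order prime to `ℓ`
-/

set_option autoImplicit false
set_option linter.unusedSectionVars false

namespace Pool.Agent.DPK

open Pool.Agent.DP Pool.Agent.DPC Pool.Agent.DPM Pool.Agent.DPN Pool.Agent.DPT Pool.Agent.DPF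
open Pool.Agent.Lib_helper13
open Representation

/-- OSR: characters whose central functions agree on the elements of order prime to `ℓ`. -/
theorem OSR_thm (h1 : Pool.Agent.DPX.Stmt_VALX) (h2 : Pool.Agent.DPX.Stmt_IDOX)
    (h3 : Pool.Agent.DPX.Stmt_OSIX) : Stmt_OSR := by
  classical
  intro T _ _ 𝔐 ℓ _ hmax hℓ χ χ' hχ hχ' hag
  by_contra hcon
  obtain ⟨O, hO⟩ := h1 𝔐 ℓ hmax hℓ
  obtain ⟨eh, he1, he2, he3, -⟩ := h2 𝔐 ℓ hmax hℓ O hO T χ hχ
  let ε : T → ℂ := fun x => (eh x : ℂ)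
  have hεO : ∀ g, ε g ∈ O := fun g => (eh g).2
  have hεc : ∀ g x, ε (g * x * g⁻¹) = ε x := by
    intro g x
    exact congrArg (fun t : O => (t : ℂ)) (he1 g x)
  have hw1 : wt χ ε = 1 := by
    have h : wt χ ε =
        if cen 𝔐 (MonoidHom.id T) χ = cen 𝔐 (MonoidHom.id T) χ then 1 else 0 := he3 χ hχ
    rw [h, if_pos rfl]
  have hw0 : wt χ' ε = 0 := by
    have h : wt χ' ε =
        if cen 𝔐 (MonoidHom.id T) χ' = cen 𝔐 (MonoidHom.id T) χ then 1 else 0 := he3 χ' hχ'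
    rw [h, if_neg (fun h => hcon h.symm)]
  have hd : ∀ g, ℓ ∣ orderOf g → ε g = 0 := by
    intro g hg
    have h4 := h3 T 𝔐 ℓ hmax hℓ χ hχ g⁻¹ (by rw [orderOf_inv]; exact hg)
    have h5 : ε g = _ := he2 g
    rw [h5, div_eq_zero_iff]
    left
    rw [← h4]
  obtain ⟨F, hF⟩ := exists_lift_class ε hεc
  have hexp : ∀ ψ : T → ℂ, wt ψ ε = ∑ K : ConjClasses T, F K *
      wt ψ (fun y => if ConjClasses.mk (id y) = K then 1 else 0) := by
    intro ψ
    have e1 : ε = fun y => F (ConjClasses.mk (id y)) := by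
      funext y
      exact (hF y).symm
    rw [e1]
    exact wt_comp_classes id ψ F
  have hdiff : (1 : ℂ) = ∑ K : ConjClasses T, F K *
      (wt χ (fun y => if ConjClasses.mk (id y) = K then 1 else 0) -
        wt χ' (fun y => if ConjClasses.mk (id y) = K then 1 else 0)) := by
    have e1 : wt χ ε - wt χ' ε = 1 := by rw [hw1, hw0, sub_zero]
    refine e1.symm.trans ?_
    rw [hexp, hexp, ← Finset.sum_sub_distrib]
    exact Finset.sum_congr rfl fun K _ => (mul_sub _ _ _).symm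
  have hlt : O.valuation (∑ K : ConjClasses T, F K *
      (wt χ (fun y => if ConjClasses.mk (id y) = K then 1 else 0) -
        wt χ' (fun y => if ConjClasses.mk (id y) = K then 1 else 0))) < 1 := by
    refine Valuation.map_sum_lt O.valuation one_ne_zero fun K _ => ?_
    obtain ⟨x, rfl⟩ := ConjClasses.mk_surjective K
    rw [hF]
    by_cases hx : ℓ ∣ orderOf x
    · rw [hd x hx, zero_mul, map_zero]
      exact zero_lt_one
    · have hind : (fun y : T => if ConjClasses.mk (id y) = ConjClasses.mk x then (1 : ℂ) else 0) =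
          fun y => conjInd y x := by
        funext y
        exact conjInd_eq ConjClasses.mk_eq_mk_iff_isConj
      rw [hind]
      have h6 : red 𝔐 (wt χ (fun y => conjInd y x)) = red 𝔐 (wt χ' (fun y => conjInd y x)) :=
        hag x hx
      rw [red_eq_iff 𝔐 (BLM.isIntegral_wt_ind hχ x) (BLM.isIntegral_wt_ind hχ' x)] at h6
      obtain ⟨m, hm, hm'⟩ := h6
      rw [← hm', map_mul]
      have h7 : O.valuation (m : ℂ) < 1 := (hO.max m).1 hm
      have h8 : O.valuation (ε x) ≤ 1 := (O.valuation_le_one_iff _).2 (hεO x)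
      calc O.valuation (ε x) * O.valuation (m : ℂ) ≤ 1 * O.valuation (m : ℂ) :=
            mul_le_mul_left h8 _
        _ < 1 := by rw [one_mul]; exact h7
  rw [← hdiff, map_one] at hlt
  exact lt_irrefl _ hlt

end Pool.Agent.DPK


end

section

/-!
# QMA: a central function on the quotient with a nonvanishing chain sum
-/

namespace Pool.Agent.DPK

open Pool.Agent.DP Pool.Agent.DPC Pool.Agent.DPM Pool.Agent.DPN Pool.Agent.DPT Pool.Agent.DPF
open Pool.Agent.Lib_helper13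
open Representation

namespace QMA

variable {L L' K : Type} [Group L] [Fintype L] [Group L'] [Fintype L'] [Group K]

/-- The condition on the central function of an inflation. -/
theorem cond_iff (h1 : Stmt_QMF) (𝔐 : Ideal (integralClosure ℤ ℂ)) (hmax : 𝔐.IsMaximal)
    {q : L →* L'} (hq : Function.Surjective q) (π' : L' →* K) (M : Subgroup K)
    (ω : L → (integralClosure ℤ ℂ) ⧸ 𝔐) {S : Subgroup L'} {ψ' : L' → ℂ} (h : IrrOn S ψ') :
    (∀ g, (π'.comp q) g ∈ M → cgT 𝔐 ⊤ (fun x => ψ' (q x)) g = ω g) ↔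
      RelC 𝔐 q π' M ω (CRS.om 𝔐 π' M ψ') := by
  constructor
  · intro h2 g hg
    rw [← h2 g hg, h1 L L' 𝔐 hmax q hq S ψ' h g, CRS.om_in hg]
  · intro h2 g hg
    have hg' : π' (q g) ∈ M := hg
    rw [h2 g hg', h1 L L' 𝔐 hmax q hq S ψ' h g, CRS.om_in hg']

end QMA

open _root_.Pool.Agent.DPK.QMA in
theorem QMA_thm (h1 : Stmt_QMF) : Stmt_QMA := by
  classical
  intro L L' K _ _ _ _ _ _ 𝔐 ℓ _ hmax hℓ q π' hq hs' hc μ μ' hμ M hM ω d hPos hne
  rw [PSO.DKU_eq] at hne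
  -- the defect
  obtain ⟨d', rfl⟩ : ∃ d', d = d' + padicValNat ℓ (Nat.card q.ker) := by
    by_contra hcon
    apply hne
    refine CRS.CS_zero ℓ ⊤ _ fun S => ?_
    have hd : d < padicValNat ℓ (Nat.card q.ker) := by
      by_contra h
      exact hcon ⟨d - padicValNat ℓ (Nat.card q.ker), by omega⟩
    rw [WF, CRS.card_zero hq ℓ hμ S d hd
      (fun ψ => ∀ g, (π'.comp q) g ∈ M → cgT 𝔐 ⊤ ψ g = ω g)]
    rw [Nat.cast_zero, mul_zero]
  -- the central functions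
  let _ : Fintype (Subgroup K) := Fintype.ofFinite _
  set Ω : Finset (L' → (integralClosure ℤ ℂ) ⧸ 𝔐) :=
    (((Finset.univ : Finset (Subgroup K)).biUnion fun S => irrOn (S.comap π')).image
      (CRS.om 𝔐 π' M)).filter (fun ω' => RelC 𝔐 q π' M ω ω') with hΩ
  have hΩ1 : ∀ ω' ∈ Ω, RelC 𝔐 q π' M ω ω' ∧ ∀ g, π' g ∉ M → ω' g = 0 := by
    intro ω' hω'
    rw [hΩ, Finset.mem_filter, Finset.mem_image] at hω'
    obtain ⟨⟨ψ, -, rfl⟩, h2⟩ := hω'
    exact ⟨h2, fun g hg => CRS.om_out hg⟩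
  have hΩ2 : ∀ (S : Subgroup K) (ψ : L' → ℂ), IrrOn (S.comap π') ψ →
      RelC 𝔐 q π' M ω (CRS.om 𝔐 π' M ψ) → CRS.om 𝔐 π' M ψ ∈ Ω := by
    intro S ψ h3 h4
    rw [hΩ, Finset.mem_filter, Finset.mem_image]
    exact ⟨⟨ψ, Finset.mem_biUnion.mpr ⟨S, Finset.mem_univ _, CLIFF.mem_irrOn.mpr h3⟩, rfl⟩, h4⟩
  have hom : ∀ ω' ∈ Ω, ∀ ψ : L' → ℂ, (∀ g, π' g ∈ M → cgT 𝔐 ⊤ ψ g = ω' g) ↔
      CRS.om 𝔐 π' M ψ = ω' := by
    intro ω' hω' ψ
    constructor
    · intro h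
      funext g
      by_cases hg : π' g ∈ M
      · rw [CRS.om_in hg, h g hg]
      · rw [CRS.om_out hg, (hΩ1 ω' hω').2 g hg]
    · rintro rfl g hg
      exact (CRS.om_in hg).symm
  have hWC : WF 𝔐 ℓ (d' + padicValNat ℓ (Nat.card q.ker)) (π'.comp q) μ M ω =
      fun S => ∑ ω' ∈ Ω, WF 𝔐 ℓ d' π' μ' M ω' S := by
    funext S
    rw [WF, CRS.card_eq hq ℓ hμ S d'
      (fun ψ => ∀ g, (π'.comp q) g ∈ M → cgT 𝔐 ⊤ ψ g = ω g)]
    rw [CRS.card_split (fun ψ' : L' → ℂ => ID ℓ (S.comap π') d' ψ') (fun ψ' => OvK π' μ' ψ')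
      (fun ψ' => ∀ g, (π'.comp q) g ∈ M → cgT 𝔐 ⊤ (fun x => ψ' (q x)) g = ω g)
      (CRS.om 𝔐 π' M) (fun ω' ψ' => ∀ g, π' g ∈ M → cgT 𝔐 ⊤ ψ' g = ω' g) Ω ?_ ?_ ?_ ?_]
    · rw [Nat.cast_sum, Finset.mul_sum]
      rfl
    · intro ψ hψ h
      exact hΩ2 S ψ hψ.1 ((cond_iff h1 𝔐 hmax hq π' M ω hψ.1).1 h)
    · intro ψ ω' hω'
      exact hom ω' hω' ψ
    · intro ψ hψ h
      exact (cond_iff h1 𝔐 hmax hq π' M ω hψ.1).2 (hΩ1 _ h).1
    · exact Finite.of_injective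
        (fun ψ : {ψ' : L' → ℂ // ID ℓ (S.comap π') d' ψ'} =>
          (⟨ψ.1, CLIFF.mem_irrOn.mpr ψ.2.1⟩ : {x // x ∈ irrOn (S.comap π')}))
        (fun a b h => Subtype.ext (congrArg (fun t : {x // x ∈ irrOn (S.comap π')} => t.1) h))
  rw [hWC, CRS.CS_sum] at hne
  obtain ⟨ω', hω', hne'⟩ := Finset.exists_ne_zero_of_sum_ne_zero hne
  refine ⟨d', ω', (hΩ1 ω' hω').1, ?_, ?_⟩
  · intro θ hθ hov hdef hcen
    have hcard : padicValNat ℓ (Nat.card (π'.comp q).ker) =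
        padicValNat ℓ (Nat.card π'.ker) + padicValNat ℓ (Nat.card q.ker) := by
      have hs : Function.Surjective (π'.comp q) := hs'.comp hq
      have h4 := QINF.card_eq (π'.comp q) hs
      have h5 := QINF.card_eq π' hs'
      have h6 := QINF.card_eq q hq
      rw [h6, h5, ← mul_assoc] at h4
      have h7 := Nat.eq_of_mul_eq_mul_right Nat.card_pos h4
      rw [← h7, padicValNat.mul Nat.card_pos.ne' Nat.card_pos.ne', add_comm]
    have hID : ID ℓ (M.comap π') (padicValNat ℓ (Nat.card π'.ker)) (ext0 θ) := by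
      refine ⟨STB.irrOn_ext0 hθ, ?_⟩
      have h3 : (fun s : ↥(M.comap π') => ext0 θ (s : L')) = θ := MLE.ext0_coe θ
      rw [h3]
      exact hdef
    have hcg : ∀ g, π' g ∈ M → cgT 𝔐 ⊤ (ext0 θ) g = ω' g := by
      intro g hg
      rw [← STB.cen_eq]
      exact hcen g hg
    refine PSO.not_GdF hPos ⟨fun x => ext0 θ (q x), ?_, ?_, ?_⟩
    · rw [hcard]
      exact CRS.id_inf hq ℓ M _ hID
    · exact CRS.ov_inf hμ ((PSO.ovK_iff π' μ' M θ).2 hov)
    · refine (cond_iff h1 𝔐 hmax hq π' M ω hID.1).2 ?_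
      rw [(hom ω' hω' (ext0 θ)).1 hcg]
      exact (hΩ1 ω' hω').1
  · rw [PSO.DKU_eq]
    exact hne'

end Pool.Agent.DPK


end

section

/-!
# QMB: inflation of the covered characters
-/

namespace Pool.Agent.DPK

open Pool.Agent.DP Pool.Agent.DPC Pool.Agent.DPM Pool.Agent.DPN Pool.Agent.DPT Pool.Agent.DPF
open Pool.Agent.Lib_helper13
open Representation

namespace QMB

variable {L L' K : Type} [Group L] [Fintype L] [Group L'] [Fintype L'] [Group K]

/-- Conjugacy in the whole group. -/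
theorem cg_eq (𝔐 : Ideal (integralClosure ℤ ℂ)) (f : L → ℂ) (g : L) :
    cg 𝔐 f g = cgT 𝔐 ⊤ f g := by
  have h : ∀ x : L, conjInd x g = cjT ⊤ x g := by
    intro x
    unfold conjInd cjT
    by_cases hx : IsConj x g
    · rw [if_pos hx]
      obtain ⟨t, ht⟩ := isConj_iff.1 hx.symm
      rw [if_pos ⟨t, Subgroup.mem_top t, ht.symm⟩]
    · rw [if_neg hx, if_neg]
      rintro ⟨t, -, ht⟩
      exact hx (isConj_iff.2 ⟨t, ht.symm⟩).symm
  unfold cg cgT
  simp only [h]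

end QMB

open _root_.Pool.Agent.DPK.QMB in
theorem QMB_thm (h1 : Stmt_QMF) : Stmt_QMB := by
  intro L L' K _ _ _ _ _ _ 𝔐 hmax q π' hq μ μ' hμ N M hNM ω ω' hrel f' hf'
  obtain ⟨hirr, hov, hcg⟩ := hf'
  have hs := CRS.surjT hq (N.comap π')
  refine ⟨⟨QINF.irr_inf (MLE.kT q (N.comap π')) hs hirr.1, fun x hx => hirr.2 _ hx⟩, ?_, ?_⟩
  · exact CRS.ov_inf hμ hov
  · intro g hg
    have hg' : π' (q g) ∈ N := hg
    rw [cg_eq, h1 L L' 𝔐 hmax q hq (N.comap π') f' hirr g, ← cg_eq, hcg (q g) hg',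
      hrel g (hNM hg')]

end Pool.Agent.DPK


end

section

/-!
# QMU: passage to a faithful linear character
-/

set_option autoImplicit false

namespace Pool.Agent.DPK

open Pool.Agent.DP Pool.Agent.DPC Pool.Agent.DPM Pool.Agent.DPN Pool.Agent.DPT Pool.Agent.DPF
open Pool.Agent.Lib_helper13
open Representation

theorem QMU_thm (h1 : Stmt_QMA) (h2 : Stmt_QMC) (h3 : Stmt_QMD) : Stmt_QMU := by
  intro L K _ _ _ _ 𝔐 ℓ _ hmax hℓ π hs hc μ N M hN hM hNM ω d hpos hDK hSTB hSPP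
  obtain ⟨L', iG, iF, q, π', μ', hq, hπ', hμ, hinj⟩ := CRS.exists_q π hc μ
  obtain rfl : π = π'.comp q := MonoidHom.ext fun x => (hπ' x).symm
  have hs' : Function.Surjective π' := by
    intro k
    obtain ⟨x, rfl⟩ := hs k
    exact ⟨q x, rfl⟩
  have hc' : π'.ker ≤ Subgroup.center L' := by
    intro z' hz'
    obtain ⟨z, rfl⟩ := hq z'
    rw [Subgroup.mem_center_iff]
    intro y'
    obtain ⟨y, rfl⟩ := hq y'
    rw [← map_mul, ← map_mul, Subgroup.mem_center_iff.mp (hc hz') y]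
  obtain ⟨d', ω', hR, hP', hD'⟩ :=
    h1 L L' K 𝔐 ℓ hmax hℓ q π' hq hs' hc μ μ' hμ M hM ω d hpos hDK
  exact ⟨L', iG, iF, π', μ', d', ω', hs', hc', hinj, hP', hD',
    h2 L L' K 𝔐 ℓ hmax hℓ q π' hq hs' hc μ μ' hμ N M hN hNM ω ω' hR hSTB,
    h3 L L' K 𝔐 hmax q π' hq μ μ' hμ N M hN hNM ω ω' hR hSPP⟩

end Pool.Agent.DPK


end

section

/-!
# The inner theorem for a group whose covering group has extendible characters (module HATI)
-/

set_option linter.unusedSectionVars false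

namespace Pool.Agent.DPV.HATI

open Pool.Agent.DP Pool.Agent.Lib_helper13 Representation
open Pool.Agent.Lib_helper13.Dade (pCore DadeHolds dadeSum)

/-- The restriction of a homomorphism to the inverse image of a subgroup. -/
def rst {Y' Y : Type*} [Group Y'] [Group Y] (q : Y' →* Y) (S' : Subgroup Y') (S : Subgroup Y)
    (h : S' = S.comap q) : S' →* S :=
  (q.comp S'.subtype).codRestrict S (fun y => by
    have h1 : (y : Y') ∈ S.comap q := h ▸ y.2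
    exact h1)

theorem rst_apply {Y' Y : Type*} [Group Y'] [Group Y] (q : Y' →* Y) (S' : Subgroup Y')
    (S : Subgroup Y) (h : S' = S.comap q) (y : S') : ((rst q S' S h y : S) : Y) = q y := rfl

theorem rst_surj {Y' Y : Type*} [Group Y'] [Group Y] (q : Y' →* Y) (S' : Subgroup Y')
    (S : Subgroup Y) (h : S' = S.comap q) (hq : Function.Surjective q) :
    Function.Surjective (rst q S' S h) := by
  intro s
  obtain ⟨y, hy⟩ := hq (s : Y)
  have hy' : y ∈ S' := by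
    rw [h, Subgroup.mem_comap, hy]
    exact s.2
  exact ⟨⟨y, hy'⟩, Subtype.ext hy⟩

theorem card_ker_rst {Y' Y : Type*} [Group Y'] [Group Y] (q : Y' →* Y) (S' : Subgroup Y')
    (S : Subgroup Y) (h : S' = S.comap q) :
    Nat.card (rst q S' S h).ker = Nat.card q.ker := by
  refine Nat.card_congr ⟨fun y => ⟨((y : S') : Y'), ?_⟩, fun y => ⟨⟨(y : Y'), ?_⟩, ?_⟩, ?_, ?_⟩
  · have := y.2
    rw [MonoidHom.mem_ker] at this ⊢
    rw [← rst_apply q S' S h, this]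
    rfl
  · rw [h, Subgroup.mem_comap, (MonoidHom.mem_ker.mp y.2)]
    exact one_mem _
  · rw [MonoidHom.mem_ker]
    apply Subtype.ext
    rw [rst_apply]
    exact MonoidHom.mem_ker.mp y.2
  · intro y
    rfl
  · intro y
    rfl

theorem card_rst {Y' Y : Type*} [Group Y'] [Group Y] (q : Y' →* Y) (S' : Subgroup Y')
    (S : Subgroup Y) (h : S' = S.comap q) (hq : Function.Surjective q) :
    Nat.card S' = Nat.card q.ker * Nat.card S := by
  rw [← card_ker_rst q S' S h, ← Subgroup.card_mul_index (rst q S' S h).ker,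
    Subgroup.index_ker, MonoidHom.range_eq_top.mpr (rst_surj q S' S h hq), Subgroup.card_top]

end Pool.Agent.DPV.HATI

namespace Pool.Agent.DPV

open Pool.Agent.DP Pool.Agent.Lib_helper13 Representation
open Pool.Agent.Lib_helper13.Dade (pCore DadeHolds dadeSum)

theorem HATI_thm (h1 : Stmt_INNV) (h2 : Stmt_HATY) (h3 : Stmt_HATC) : Stmt_HATI := by
  intro O G B C B' C' Y K X _ _ _ _ _ _ _ _ _ _ _ _ _ _ 𝔐 ℓ _ hM hℓ ι κ ρ hN ι' κ' ρ' π hV hπ
    hπι hκ hker hVS j p φ hE i hi ω hω d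
  have hmax := hM
  have : Nontrivial ((integralClosure ℤ ℂ) ⧸ 𝔐) := Ideal.Quotient.nontrivial_iff.mpr hmax.ne_top
  by_cases hne : ∃ x, ω x ≠ 0
  · obtain ⟨Y', K', _, _, _, _, j', p', φ', q, hE', hq, hqj, hqk, hYS⟩ :=
      h2 O G B C B' C' Y K ℓ ι κ ρ hN ι' κ' ρ' π hV.locN hπ hπι hκ hker j p φ hE
    have key := h1 O G B' C' Y' K' X 𝔐 ℓ hM hℓ ι' κ' ρ' hV hVS j' p' φ' hE' (i.comp q)
      (fun x => (Nat.card q.ker : (integralClosure ℤ ℂ) ⧸ 𝔐) * ω x)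
      (by
        intro ψ' θ hψ' hθ hdef hip hcen
        obtain ⟨ψ, hψ, hψ1, hψ2⟩ :=
          (h3 Y' Y X 𝔐 ℓ hM hℓ q i hq hqk ω hne).1 ψ' hψ' hcen
        apply hω ψ θ hψ hθ hdef _ hψ2
        have hres : resj j ψ = resj j' ψ' := by
          ext n
          rw [resj, resj, hψ1, hqj]
        rw [hres]
        exact hip) d
    have hc : (Nat.card q.ker : ℚ) ≠ 0 := by
      have : Finite Y' := Fintype.finite ‹_›
      exact_mod_cast Nat.card_pos.ne'
    apply (mul_right_injective₀ hc)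
    dsimp only
    rw [mul_zero, Finset.mul_sum, ← key]
    refine Finset.sum_congr rfl fun τ _ => ?_
    have e1 : (Nat.card (YS j' τ) : ℚ) = Nat.card q.ker * Nat.card (YS j τ) := by
      rw [HATI.card_rst q (YS j' τ) (YS j τ) (hYS τ) hq]
      push_cast
      rfl
    have e2 : cnt 𝔐 ℓ d ((i.comp q).comp (YS j' τ).subtype)
        (fun x => (Nat.card q.ker : (integralClosure ℤ ℂ) ⧸ 𝔐) * ω x) =
        cnt 𝔐 ℓ d (i.comp (YS j τ).subtype) ω := by
      have hk : Nat.card (HATI.rst q (YS j' τ) (YS j τ) (hYS τ)).ker = Nat.card q.ker :=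
        HATI.card_ker_rst q (YS j' τ) (YS j τ) (hYS τ)
      have := (h3 (YS j' τ) (YS j τ) X 𝔐 ℓ hM hℓ (HATI.rst q (YS j' τ) (YS j τ) (hYS τ))
        (i.comp (YS j τ).subtype) (HATI.rst_surj q (YS j' τ) (YS j τ) (hYS τ) hq)
        (by rw [hk]; exact hqk) ω hne).2 d
      rw [hk] at this
      exact this
    rw [e1, e2]
    ring
  · have hz : ∀ x, ω x = 0 := by
      intro x
      by_contra hx
      exact hne ⟨x, hx⟩
    apply Finset.sum_eq_zero
    intro τ _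
    have h0 : cnt 𝔐 ℓ d (i.comp (YS j τ).subtype) ω = 0 := by
      rw [cnt]
      have : IsEmpty {θ : YS j τ → ℂ // IsIrr θ ∧ (HasDefect ℓ θ d ∧
          ∀ g, cen 𝔐 (i.comp (YS j τ).subtype) θ g = ω g)} := by
        constructor
        rintro ⟨θ, hθ, _, hc⟩
        have h4 := hc 1
        rw [cen_at_one 𝔐 (i := i.comp (YS j τ).subtype)
          (fun a b hab => Subtype.ext (hi hab)) hθ, hz] at h4
        exact one_ne_zero h4
      exact Nat.card_of_isEmpty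
    rw [h0]
    simp

end Pool.Agent.DPV


end

section

/-!
# HATIP: the inner theorem for a group whose covering group has extendible characters (theorem W)
-/

namespace Pool.Agent.DPW

open Pool.Agent.DP Pool.Agent.DPV Pool.Agent.Lib_helper13 Representation
open Pool.Agent.Lib_helper13.Dade (pCore DadeHolds dadeSum)

theorem HATIP_thm (h1 : Stmt_INNP) (h2 : Stmt_HATY) (h3 : Stmt_HATC) : Stmt_HATIP := by
  intro O G B C B' C' Y K X _ _ _ _ _ _ _ _ _ _ _ _ _ _ 𝔐 ℓ _ hM hℓ ι κ ρ hN ι' κ' ρ' π hV hπ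
    hπι hκ hker Pr hPr hVS j p φ hE i hi ω hω d
  have hmax := hM
  have : Nontrivial ((integralClosure ℤ ℂ) ⧸ 𝔐) := Ideal.Quotient.nontrivial_iff.mpr hmax.ne_top
  by_cases hne : ∃ x, ω x ≠ 0
  · obtain ⟨Y', K', _, _, _, _, j', p', φ', q, hE', hq, hqj, hqk, hYS⟩ :=
      h2 O G B C B' C' Y K ℓ ι κ ρ hN ι' κ' ρ' π hV.locN hπ hπι hκ hker j p φ hE
    have hk : ∀ τ, Nat.card (HATI.rst q (YS j' τ) (YS j τ) (hYS τ)).ker = Nat.card q.ker :=
      fun τ => HATI.card_ker_rst q (YS j' τ) (YS j τ) (hYS τ)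
    have hPr' : ∀ b ω, Pr (fun g => ω (κ' b g)) → Pr ω := by
      intro b ω h
      rw [hκ] at h
      exact hPr (π b) ω h
    have key := h1 O G B' C' Y' K' X 𝔐 ℓ hM hℓ ι' κ' ρ' hV Pr hPr' hVS j' p' φ' hE' (i.comp q)
      (fun x => (Nat.card q.ker : (integralClosure ℤ ℂ) ⧸ 𝔐) * ω x)
      (by
        intro τ hτ θ hθ ψ' hψ' hip hcen
        have h4 := (h3 (YS j' τ) (YS j τ) X 𝔐 ℓ hM hℓ (HATI.rst q (YS j' τ) (YS j τ) (hYS τ))
          (i.comp (YS j τ).subtype) (HATI.rst_surj q (YS j' τ) (YS j τ) (hYS τ) hq)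
          (by rw [hk]; exact hqk) ω hne).1 ψ' hψ' (by
            rw [hk]
            exact hcen)
        obtain ⟨ψ, hψ, hψ1, hψ2⟩ := h4
        refine hω τ hτ θ hθ ψ hψ ?_ hψ2
        have hres : resj (jS hE.cl τ) ψ = resj (jS hE'.cl τ) ψ' := by
          ext a
          rw [resj, resj, hψ1]
          congr 1
          apply Subtype.ext
          rw [HATI.rst_apply]
          exact (hqj (a : O → G)).symm
        rw [hres]
        exact hip) d
    have hc : (Nat.card q.ker : ℚ) ≠ 0 := by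
      have : Finite Y' := Fintype.finite ‹_›
      exact_mod_cast Nat.card_pos.ne'
    apply (mul_right_injective₀ hc)
    dsimp only
    rw [mul_zero, Finset.mul_sum, ← key]
    refine Finset.sum_congr rfl fun τ _ => ?_
    have e1 : (Nat.card (YS j' τ) : ℚ) = Nat.card q.ker * Nat.card (YS j τ) := by
      rw [HATI.card_rst q (YS j' τ) (YS j τ) (hYS τ) hq]
      push_cast
      rfl
    have e2 : cnt 𝔐 ℓ d ((i.comp q).comp (YS j' τ).subtype)
        (fun x => (Nat.card q.ker : (integralClosure ℤ ℂ) ⧸ 𝔐) * ω x) =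
        cnt 𝔐 ℓ d (i.comp (YS j τ).subtype) ω := by
      have hk : Nat.card (HATI.rst q (YS j' τ) (YS j τ) (hYS τ)).ker = Nat.card q.ker :=
        HATI.card_ker_rst q (YS j' τ) (YS j τ) (hYS τ)
      have := (h3 (YS j' τ) (YS j τ) X 𝔐 ℓ hM hℓ (HATI.rst q (YS j' τ) (YS j τ) (hYS τ))
        (i.comp (YS j τ).subtype) (HATI.rst_surj q (YS j' τ) (YS j τ) (hYS τ) hq)
        (by rw [hk]; exact hqk) ω hne).2 d
      rw [hk] at this
      exact this
    rw [e1, e2]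
    ring
  · have hz : ∀ x, ω x = 0 := by
      intro x
      by_contra hx
      exact hne ⟨x, hx⟩
    apply Finset.sum_eq_zero
    intro τ _
    have h0 : cnt 𝔐 ℓ d (i.comp (YS j τ).subtype) ω = 0 := by
      rw [cnt]
      have : IsEmpty {θ : YS j τ → ℂ // IsIrr θ ∧ (HasDefect ℓ θ d ∧
          ∀ g, cen 𝔐 (i.comp (YS j τ).subtype) θ g = ω g)} := by
        constructor
        rintro ⟨θ, hθ, _, hc⟩
        have h4 := hc 1
        rw [cen_at_one 𝔐 (i := i.comp (YS j τ).subtype)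
          (fun a b hab => Subtype.ext (hi hab)) hθ, hz] at h4
        exact one_ne_zero h4
      exact Nat.card_of_isEmpty
    rw [h0]
    simp

end Pool.Agent.DPW


end

section

/-!
# Module DFT: the orders of the stabilizers and the defects of the product characters
-/

set_option autoImplicit false
set_option linter.unusedSectionVars false

namespace Pool.Agent.DPG.DFT

open Pool.Agent.DP Pool.Agent.DPC Pool.Agent.DPM Pool.Agent.DPN Pool.Agent.DPF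
  Pool.Agent.Lib_helper13 Representation

section Grp

/-- The order of an inverse image. -/
theorem card_comap {L K : Type} [Group L] [Finite L] [Group K] [Finite K] (π : L →* K)
    (hs : Function.Surjective π) (V : Subgroup K) :
    Nat.card ↥(V.comap π) = Nat.card π.ker * Nat.card V := by
  have h1 : (V.comap π).index = V.index := V.index_comap_of_surjective hs
  have h2 : (V.comap π).index * Nat.card ↥(V.comap π) = Nat.card L :=
    (V.comap π).index_mul_card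
  have h3 : V.index * Nat.card V = Nat.card K := V.index_mul_card
  have h4 : π.ker.index * Nat.card π.ker = Nat.card L := π.ker.index_mul_card
  have h5 : π.ker.index = Nat.card K := by
    rw [Subgroup.index_ker, MonoidHom.range_eq_top.mpr hs]
    exact Nat.card_congr Subgroup.topEquiv.toEquiv
  have h6 : 0 < V.index := Nat.pos_of_ne_zero Subgroup.index_ne_zero_of_finite
  have h7 : V.index * Nat.card ↥(V.comap π) = V.index * (Nat.card π.ker * Nat.card V) := by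
    rw [h1] at h2
    rw [h2, ← h4, h5, ← h3]
    ring
  exact Nat.eq_of_mul_eq_mul_left h6 h7

theorem isIrr_lin {K : Type} [Group K] [Fintype K] (lam : K →* ℂˣ) :
    IsIrr (fun k => ((lam k : ℂˣ) : ℂ)) := by
  apply (isChr_lin lam).isIrr
  have h : ∀ g : K, ((lam g : ℂˣ) : ℂ) * ((lam g⁻¹ : ℂˣ) : ℂ) = 1 := by
    intro g
    rw [← Units.val_mul, ← map_mul, mul_inv_cancel, map_one, Units.val_one]
  simp [h]

variable {G : Type} [Group G] [Finite G]

theorem relIndex_mul {N M : Subgroup G} (hNM : N ≤ M) :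
    N.relIndex M * Nat.card N = Nat.card M := by
  have h := (N.subgroupOf M).index_mul_card
  rw [Nat.card_congr (Subgroup.subgroupOfEquivOfLe hNM).toEquiv] at h
  exact h

/-- `|M ⊓ T| |N| = |M| |N ⊓ T|` if `N` is normal, `N ≤ M ≤ N ⊔ T`. -/
theorem card_mul {N M T : Subgroup G} (hN : N.Normal) (hNM : N ≤ M) (hMT : M ≤ N ⊔ T) :
    Nat.card ↥(M ⊓ T) * Nat.card N = Nat.card M * Nat.card ↥(N ⊓ T) ∧
      N.relIndex M * Nat.card ↥(N ⊓ T) = Nat.card ↥(M ⊓ T) := by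
  have h1 : (M ⊓ T) ⊔ N = M := by
    apply le_antisymm
    · exact sup_le inf_le_left hNM
    · intro m hm
      have h := hMT hm
      rw [← SetLike.mem_coe, Subgroup.normal_mul] at h
      obtain ⟨n, hn, t, ht, rfl⟩ := Set.mem_mul.mp h
      have ht' : t ∈ M := by
        have := M.mul_mem (M.inv_mem (hNM hn)) hm
        rwa [inv_mul_cancel_left] at this
      exact Subgroup.mul_mem _ (Subgroup.mem_sup_right hn) (Subgroup.mem_sup_left ⟨ht', ht⟩)
  have h2 : N.relIndex M = N.relIndex (M ⊓ T) := by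
    conv_lhs => rw [← h1]
    exact Subgroup.relIndex_sup_right (M ⊓ T) N
  have h3 : N ⊓ (M ⊓ T) = N ⊓ T := by
    rw [← inf_assoc, inf_eq_left.mpr hNM]
  have h4 : N.relIndex (M ⊓ T) * Nat.card ↥(N ⊓ T) = Nat.card ↥(M ⊓ T) := by
    rw [← Subgroup.inf_relIndex_right N (M ⊓ T), h3]
    exact relIndex_mul (inf_le_inf_right T hNM)
  have h5 := relIndex_mul hNM
  constructor
  · rw [← h4, ← h5, h2]
    ring
  · rw [h2, h4]

theorem val_mul {ℓ : ℕ} [Fact ℓ.Prime] {a b : ℕ} (ha : ¬ ℓ ∣ a) (ha0 : a ≠ 0) (hb : b ≠ 0) :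
    padicValNat ℓ (a * b) = padicValNat ℓ b := by
  rw [padicValNat.mul ha0 hb, padicValNat.eq_zero_of_not_dvd ha, zero_add]

end Grp

section Deg

variable {G : Type} [Group G] [Finite G]

/-- The degree of an irreducible character on which a normal subgroup of index prime to `ℓ` acts by
scalars is prime to `ℓ`. -/
theorem deg_val {ℓ : ℕ} [Fact ℓ.Prime] (C : Subgroup G) [C.Normal] (hC : ¬ ℓ ∣ C.index)
    {χ : G → ℂ} (hχ : IsIrr χ) (hs : ∀ c ∈ C, ∃ a : ℂ, ∀ x, χ (c * x) = a * χ x) :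
    ∃ n : ℕ, 0 < n ∧ χ 1 = n ∧ padicValNat ℓ n = 0 := by
  classical
  haveI : Fintype G := Fintype.ofFinite G
  obtain ⟨n, hn, hn'⟩ := hχ.exists_degree
  refine ⟨n, hn, hn', ?_⟩
  have h1 : χ 1 ≠ 0 := hχ.one_ne_zero
  choose! a ha using hs
  have hval : ∀ c ∈ C, χ c = a c * χ 1 := by
    intro c hc
    have := ha c hc 1
    rwa [mul_one] at this
  have hmul : ∀ c ∈ C, ∀ c' ∈ C, a (c * c') = a c * a c' := by
    intro c hc c' hc'
    have e1 := hval (c * c') (C.mul_mem hc hc')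
    rw [ha c hc c', hval c' hc', ← mul_assoc] at e1
    exact (mul_right_cancel₀ h1 e1).symm
  have hone : a 1 = 1 := by
    have e1 := hval 1 C.one_mem
    have e2 : (1 : ℂ) * χ 1 = a 1 * χ 1 := by rw [one_mul]; exact e1
    exact (mul_right_cancel₀ h1 e2).symm
  let lam : C →* ℂˣ :=
    { toFun := fun c => ⟨a c, a (c : G)⁻¹, by
          rw [← hmul _ c.2 _ (C.inv_mem c.2), mul_inv_cancel, hone], by
          rw [← hmul _ (C.inv_mem c.2) _ c.2, inv_mul_cancel, hone]⟩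
      map_one' := by
        apply Units.ext
        exact hone
      map_mul' := by
        intro c c'
        apply Units.ext
        exact hmul _ c.2 _ c'.2 }
  have hlam : ∀ c : C, ((lam c : ℂˣ) : ℂ) = a c := fun c => rfl
  have hκ : IsIrr (fun c : C => ((lam c : ℂˣ) : ℂ)) := isIrr_lin lam
  have hip : ip (resj C.subtype χ) (fun c : C => ((lam c : ℂˣ) : ℂ)) ≠ 0 := by
    have e1 : ip (resj C.subtype χ) (fun c : C => ((lam c : ℂˣ) : ℂ)) =
        χ 1 * ip (fun c : C => ((lam c : ℂˣ) : ℂ)) (fun c : C => ((lam c : ℂˣ) : ℂ)) := by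
      rw [ip, ip, ← mul_div_assoc, Finset.mul_sum]
      congr 1
      refine Finset.sum_congr rfl fun c _ => ?_
      have e2 : resj C.subtype χ c = ((lam c : ℂˣ) : ℂ) * χ 1 := hval c c.2
      rw [e2]
      ring
    rw [e1, ip_self hκ, mul_one]
    exact h1
  have hd : HasDefect ℓ (fun c : C => ((lam c : ℂˣ) : ℂ)) (padicValNat ℓ (Nat.card C)) := by
    refine ⟨1, ?_, ?_⟩
    · change ((lam 1 : ℂˣ) : ℂ) = _
      rw [map_one]
      simp
    · rw [padicValNat.one, add_zero]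
  obtain ⟨m, hm, hm'⟩ := (DGI_thm G ℓ C hC χ _ hχ hκ hip _).mpr hd
  have hnm : n = m := by
    rw [hn'] at hm
    exact_mod_cast hm
  have hcard : padicValNat ℓ (Nat.card G) = padicValNat ℓ (Nat.card C) := by
    rw [← Subgroup.index_mul_card C]
    exact val_mul hC Subgroup.index_ne_zero_of_finite Nat.card_pos.ne'
  rw [hcard] at hm'
  rw [hnm]
  omega

end Deg

section Fib

variable {L K K1 Q L1 Ω : Type} [Group L] [Group K] [Group K1] [Group Q] [Group L1]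
  [Fintype Ω] {π : L →* K} {μ : π.ker →* ℂˣ} {φ : K →* Gam (Equiv.Perm Ω) Ω K1} {q : Q →* K1}
  {α : K1 →* MulAut Q} {ε : (Ω → Q) →* L} {μQ : q.ker →* ℂˣ} {π1 : L1 →* K1}
  {μ1 : π1.ker →* ℂˣ} {ι : Q →* L1}

theorem mem_MY {M : Subgroup K} {x : L × Gam (Equiv.Perm Ω) Ω L1} :
    x ∈ MY π φ π1 M ↔ φ (π x.1) = gmap Ω π1 x.2 ∧ π x.1 ∈ M := Iff.rfl

theorem gmap_gin (f : L1 →* K1) (n : Ω → L1) : gmap Ω f (gin n) = gin (fun o => f (n o)) := by
  apply SemidirectProduct.ext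
  · rfl
  · rfl

theorem dY_mem (hwd : WD π μ φ q α ε μQ) (hld : LD q α μQ π1 μ1 ι) {M : Subgroup K}
    (hM : NN' π ε ≤ M) (n : Ω → Q) : dY ε ι n ∈ MY π φ π1 M := by
  refine ⟨?_, hM ⟨ε n, ⟨n, rfl⟩, rfl⟩⟩
  change φ (π (ε n)) = gmap Ω π1 (gin (fun o => ι (n o)))
  rw [hwd.φε, gmap_gin]
  congr 1
  ext o
  exact (hld.πι _).symm

theorem gz_mem {M : Subgroup K} (z : Ω → π1.ker) :
    ((1, gin (fun o => (z o : L1))) : L × Gam (Equiv.Perm Ω) Ω L1) ∈ MY π φ π1 M := by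
  refine ⟨?_, ?_⟩
  · change φ (π 1) = gmap Ω π1 (gin (fun o => (z o : L1)))
    rw [map_one, map_one, gmap_gin]
    have : (fun o => π1 (z o : L1)) = fun _ => 1 := by
      ext o
      exact (z o).2
    rw [this]
    rfl
  · change π 1 ∈ M
    rw [map_one]
    exact M.one_mem

theorem gin_mul (a b : Ω → L1) : (gin (fun o => a o * b o) : Gam (Equiv.Perm Ω) Ω L1) =
    gin a * gin b := by
  apply SemidirectProduct.ext
  · ext o
    change a o * b o = a o * b ((1 : Equiv.Perm Ω)⁻¹ • o)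
    rw [inv_one, one_smul]
  · change (1 : Equiv.Perm Ω) = 1 * 1
    rw [mul_one]

theorem decomp (hwd : WD π μ φ q α ε μQ) (hld : LD q α μQ π1 μ1 ι) {M : Subgroup K}
    {x : L × Gam (Equiv.Perm Ω) Ω L1} (hx : x ∈ MY π φ π1 M) (hN : π x.1 ∈ NN' π ε) :
    ∃ (n : Ω → Q) (z : Ω → π1.ker), x = dY ε ι n * (1, gin (fun o => (z o : L1))) := by
  obtain ⟨y, ⟨n0, rfl⟩, hy⟩ := hN
  have h1 : (ε n0)⁻¹ * x.1 ∈ ε.range := by
    apply hwd.kr
    rw [MonoidHom.mem_ker, map_mul, map_inv, ← hy, inv_mul_cancel]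
  obtain ⟨n1, hn1⟩ := h1
  have h2 : ε (n0 * n1) = x.1 := by
    rw [map_mul, hn1, mul_inv_cancel_left]
  have h3 : gmap Ω π1 x.2 = gin (fun o => q ((n0 * n1) o)) := by
    rw [← hx.1, ← hwd.φε, h2]
    rfl
  have hr : x.2.right = 1 := congrArg SemidirectProduct.right h3
  have hl : ∀ o, π1 (x.2.left o) = q ((n0 * n1) o) := by
    intro o
    exact congrFun (congrArg SemidirectProduct.left h3) o
  have hz : ∀ o, (ι ((n0 * n1) o))⁻¹ * x.2.left o ∈ π1.ker := by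
    intro o
    rw [MonoidHom.mem_ker, map_mul, map_inv, hl, hld.πι, inv_mul_cancel]
  refine ⟨n0 * n1, fun o => ⟨_, hz o⟩, ?_⟩
  apply Prod.ext
  · change x.1 = ε (n0 * n1) * 1
    rw [mul_one, h2]
  · change x.2 = gin (fun o => ι ((n0 * n1) o)) *
      gin (fun o => (ι ((n0 * n1) o))⁻¹ * x.2.left o)
    rw [← gin_mul]
    apply SemidirectProduct.ext
    · ext o
      change x.2.left o = ι ((n0 * n1) o) * ((ι ((n0 * n1) o))⁻¹ * x.2.left o)
      rw [mul_inv_cancel_left]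
    · exact hr

theorem MY_surj (hwd : WD π μ φ q α ε μQ) (hld : LD q α μQ π1 μ1 ι) {M : Subgroup K} {m : K}
    (hm : m ∈ M) : ∃ x ∈ MY π φ π1 M, π x.1 = m := by
  obtain ⟨l, rfl⟩ := hwd.πs m
  choose f hf using hld.s
  refine ⟨(l, ⟨fun o => f ((φ (π l)).left o), (φ (π l)).right⟩), ⟨?_, hm⟩, rfl⟩
  change φ (π l) = gmap Ω π1 _
  apply SemidirectProduct.ext
  · ext o
    exact (hf _).symm
  · rfl

/-- The degree of `ζ` is prime to `ℓ`. -/
theorem zeta_deg {ℓ : ℕ} [Fact ℓ.Prime] [Finite L] [Finite L1]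
    (hwd : WD π μ φ q α ε μQ)
    (hld : LD q α μQ π1 μ1 ι) {M : Subgroup K} {M1 : Subgroup K1} (hmm : MM ℓ π φ q ε M M1)
    (hNn : (NN' π ε).Normal) {ζ : L × Gam (Equiv.Perm Ω) Ω L1 → ℂ}
    (hζ : ZT π φ π1 μ1 ε ι M ζ) :
    ∃ n : ℕ, 0 < n ∧ ζ 1 = n ∧ padicValNat ℓ n = 0 := by
  classical
  haveI : Finite (Gam (Equiv.Perm Ω) Ω L1) :=
    Finite.of_equiv _ (SemidirectProduct.equivProd (φ := pAct (Equiv.Perm Ω) Ω L1)).symm
  let f : ↥(MY π φ π1 M) →* M :=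
    ((π.comp (MonoidHom.fst L (Gam (Equiv.Perm Ω) Ω L1))).comp
      (MY π φ π1 M).subtype).codRestrict M (fun x => x.2.2)
  have hf : ∀ x, ((f x : M) : K) = π x.1.1 := fun x => rfl
  have hfs : Function.Surjective f := by
    rintro ⟨m, hm⟩
    obtain ⟨x, hx, hx'⟩ := MY_surj hwd hld hm
    exact ⟨⟨x, hx⟩, Subtype.ext hx'⟩
  let C : Subgroup ↥(MY π φ π1 M) := ((NN' π ε).subgroupOf M).comap f
  haveI : (NN' π ε).Normal := hNn
  haveI : C.Normal := inferInstance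
  have hC : ¬ ℓ ∣ C.index := by
    have : C.index = (NN' π ε).relIndex M :=
      Subgroup.index_comap_of_surjective _ hfs
    rw [this]
    exact hmm.cop
  have hirr : IsIrr (fun s : ↥(MY π φ π1 M) => ζ s) := hζ.irr.1
  obtain ⟨n, hn, hn', hn''⟩ := deg_val C hC hirr (by
    intro c hc
    have hcN : π (c : L × Gam (Equiv.Perm Ω) Ω L1).1 ∈ NN' π ε := hc
    obtain ⟨n, z, hnz⟩ := decomp hwd hld c.2 hcN
    refine ⟨(∏ o, ((μ1 (z o) : ℂˣ) : ℂ))⁻¹, ?_⟩
    intro x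
    have hp : (∏ o, ((μ1 (z o) : ℂˣ) : ℂ)) ≠ 0 :=
      Finset.prod_ne_zero_iff.mpr fun o _ => Units.ne_zero _
    have h1 : ζ ((c : L × Gam (Equiv.Perm Ω) Ω L1) * x) =
        ζ ((1, gin (fun o => (z o : L1))) * (x : L × Gam (Equiv.Perm Ω) Ω L1)) := by
      have h2 := hirr.conj_eq ⟨dY ε ι n, dY_mem hwd hld hmm.le n⟩
        ((⟨(1, gin (fun o => (z o : L1))), gz_mem z⟩ : ↥(MY π φ π1 M)) * x *
          ⟨dY ε ι n, dY_mem hwd hld hmm.le n⟩)
      have h3 := hζ.d n ((1, gin (fun o => (z o : L1))) * (x : L × Gam (Equiv.Perm Ω) Ω L1))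
      rw [← h3]
      change ζ (dY ε ι n * ((1, gin (fun o => (z o : L1))) *
        (x : L × Gam (Equiv.Perm Ω) Ω L1) * dY ε ι n) * (dY ε ι n)⁻¹) =
        ζ ((1, gin (fun o => (z o : L1))) *
        (x : L × Gam (Equiv.Perm Ω) Ω L1) * dY ε ι n) at h2
      rw [← h2, hnz]
      congr 1
      group
    have h4 := hζ.z z (x : L × Gam (Equiv.Perm Ω) Ω L1)
    change ζ ((c : L × Gam (Equiv.Perm Ω) Ω L1) * x) = _ * ζ x
    rw [h1, ← h4, inv_mul_cancel_left₀ hp])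
  exact ⟨n, hn, hn', hn''⟩

end Fib

end Pool.Agent.DPG.DFT

namespace Pool.Agent.DPG

open Pool.Agent.DP Pool.Agent.DPC Pool.Agent.DPM Pool.Agent.DPN Pool.Agent.DPF
  Pool.Agent.Lib_helper13 Representation

theorem DFT_thm (h1 : Stmt_CST) : Stmt_DFT := by
  intro L K K1 Q L1 Ω _ _ _ _ _ _ _ _ _ _ _ _ ℓ _ π μ φ q α ε μQ π1 μ1 ι M M1 hwd hld hmm
    σ F hσ hEF hov ζ hζ θ hθ
  obtain ⟨hNn, hRn, hcst⟩ := h1 L K K1 Q Ω ℓ π μ φ q α ε μQ hwd
  obtain ⟨-, -, -, hstb, hcard, -, -⟩ := hcst σ hσ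
  have hempty : ChN ℓ q.range (∅ : Finset (Subgroup K1)) :=
    ⟨isCh_empty ℓ ⊥, fun D hD => absurd hD (Finset.notMem_empty D)⟩
  obtain ⟨-, -, -, -, hcard0, -, -⟩ := hcst ∅ hempty
  have hc0 : cstC φ (NN' π ε) (∅ : Finset (Subgroup K1)) = ∅ := by
    classical
    rw [cstC]
    exact Finset.image_empty _
  rw [hc0, stb_empty, stb_empty, inf_top_eq, inf_top_eq] at hcard0
  set N := NN' π ε with hN
  set T := stb (cstC φ N σ) with hT
  set R := q.range with hR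
  set S := stb σ with hS
  -- `M` is covered by `N` and `T`
  have hMT : M ≤ N ⊔ T := by
    intro m hm
    have h2 : ∀ o, ∃ s : Q, (q s)⁻¹ * (φ m).left o ∈ S := by
      intro o
      have h3 := hEF.cov (hmm.l m hm o)
      rw [← SetLike.mem_coe, Subgroup.normal_mul] at h3
      obtain ⟨a, ⟨s, rfl⟩, t, ht, hat⟩ := Set.mem_mul.mp h3
      refine ⟨s, ?_⟩
      have h4 : q s * t = (φ m).left o := hat
      rw [← h4, inv_mul_cancel_left]
      exact ht
    choose s hs using h2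
    have h5 : (π (ε s))⁻¹ * m ∈ T := by
      rw [hT, hstb]
      intro o
      have h6 : φ ((π (ε s))⁻¹ * m) = (gin (fun o => q (s o)))⁻¹ * φ m := by
        rw [map_mul, map_inv, hwd.φε]
      rw [h6]
      change ((q (s ((1 : Equiv.Perm Ω)⁻¹⁻¹ • o)))⁻¹) * (φ m).left (((1 : Equiv.Perm Ω)⁻¹)⁻¹ • o) ∈ S
      rw [inv_one, inv_one, one_smul]
      exact hs o
    have h7 : m = π (ε s) * ((π (ε s))⁻¹ * m) := by rw [mul_inv_cancel_left]
    rw [h7]
    exact Subgroup.mul_mem _ (Subgroup.mem_sup_left ⟨ε s, ⟨s, rfl⟩, rfl⟩)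
      (Subgroup.mem_sup_right h5)
  have hM := DFT.card_mul hNn hmm.le hMT
  have hM1 := DFT.card_mul hRn hmm.le1 hEF.cov
  have hfirst : Nat.card ↥(M ⊓ T) * Nat.card R ^ Fintype.card Ω =
      Nat.card M * Nat.card ↥(R ⊓ S) ^ Fintype.card Ω := by
    rw [← hcard0, ← hcard]
    exact hM.1
  refine ⟨hfirst, ?_⟩
  -- valuations
  have hvM : padicValNat ℓ (Nat.card ↥(M ⊓ T)) =
      Fintype.card Ω * padicValNat ℓ (Nat.card ↥(R ⊓ S)) := by
    have h2 : N.relIndex M ≠ 0 := Subgroup.index_ne_zero_of_finite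
    rw [← hM.2, DFT.val_mul hmm.cop h2 Nat.card_pos.ne', hcard,
      padicValNat.pow _ _]
  have hvM1 : padicValNat ℓ (Nat.card ↥(M1 ⊓ S)) = padicValNat ℓ (Nat.card ↥(R ⊓ S)) := by
    have h2 : R.relIndex M1 ≠ 0 := Subgroup.index_ne_zero_of_finite
    rw [← hM1.2, DFT.val_mul hmm.cop1 h2 Nat.card_pos.ne']
  have hA : padicValNat ℓ (Nat.card ↥(AL π M T)) = padicValNat ℓ (Nat.card π.ker) +
      Fintype.card Ω * padicValNat ℓ (Nat.card ↥(R ⊓ S)) := by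
    rw [AL, DFT.card_comap π hwd.πs, padicValNat.mul Nat.card_pos.ne' Nat.card_pos.ne', hvM]
  have hA1 : padicValNat ℓ (Nat.card ↥(AL π1 M1 S)) = padicValNat ℓ (Nat.card π1.ker) +
      padicValNat ℓ (Nat.card ↥(R ⊓ S)) := by
    rw [AL, DFT.card_comap π1 hld.s, padicValNat.mul Nat.card_pos.ne' Nat.card_pos.ne', hvM1]
  -- degrees
  obtain ⟨z, hz, hz', hz''⟩ := DFT.zeta_deg hwd hld hmm hNn hζ
  have hF : IsIrr (fun s : AL π1 M1 S => F s) := hEF.irr.1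
  obtain ⟨k, hk, hk'⟩ := hF.exists_degree
  have hk1 : F 1 = k := hk'
  have hθ1 : θ 1 = ((k ^ Fintype.card Ω * z : ℕ) : ℂ) := by
    have h2 := hθ.2 1 (Subgroup.one_mem _)
    change θ 1 = (∏ o : Ω, F 1) * ζ 1 at h2
    rw [h2, hz', hk1, Finset.prod_const, Finset.card_univ]
    push_cast
    ring
  have hvθ : padicValNat ℓ (k ^ Fintype.card Ω * z) = Fintype.card Ω * padicValNat ℓ k := by
    rw [padicValNat.mul (pow_ne_zero _ hk.ne') hz.ne', padicValNat.pow _ _, hz'', add_zero]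
  obtain ⟨d, hd⟩ := hF.exists_defect (ℓ := ℓ)
  have hd' : padicValNat ℓ (Nat.card π1.ker) + padicValNat ℓ (Nat.card ↥(R ⊓ S)) =
      d + padicValNat ℓ k := by
    obtain ⟨k', hk2, hk3⟩ := hd
    have h3 : k = k' := by
      have h4 : F 1 = k' := hk2
      rw [hk1] at h4
      exact_mod_cast h4
    rw [← hA1, h3]
    exact hk3
  intro n
  constructor
  · rintro ⟨m, hm, hm'⟩
    have h3 : k ^ Fintype.card Ω * z = m := by
      have h4 : θ 1 = m := hm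
      rw [hθ1] at h4
      exact_mod_cast h4
    rw [← h3, hvθ, hA] at hm'
    refine ⟨d, hd, ?_⟩
    have h5 : Fintype.card Ω * (padicValNat ℓ (Nat.card π1.ker) +
        padicValNat ℓ (Nat.card ↥(R ⊓ S))) = Fintype.card Ω * (d + padicValNat ℓ k) := by
      rw [hd']
    rw [mul_add, mul_add] at h5
    omega
  · rintro ⟨n1, hn1, hn⟩
    have hdn : d = n1 := hd.unique hn1
    subst hdn
    refine ⟨k ^ Fintype.card Ω * z, hθ1, ?_⟩
    rw [hvθ, hA]
    have h5 : Fintype.card Ω * (padicValNat ℓ (Nat.card π1.ker) +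
        padicValNat ℓ (Nat.card ↥(R ⊓ S))) = Fintype.card Ω * (d + padicValNat ℓ k) := by
      rw [hd']
    rw [mul_add, mul_add] at h5
    omega

end Pool.Agent.DPG


end
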