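import Mathlib
import Pool.Agent.DAM.C18
import Pool.Agent.DAM.C19
import Pool.Agent.DAM.C24
import Pool.Agent.DAM.C26
import Pool.Agent.DAM.C33
import Pool.Agent.DAM.C53

/-! Parts: DPT.BTW, DPF.FBC, DPG.ZIN -/

section

/-!
# BTW: the commutator form and commutators in the twisted group
-/

set_option autoImplicit false

namespace Pool.Agent.DPT

open Pool.Agent.DP Pool.Agent.DPC Pool.Agent.DPM Pool.Agent.DPN Pool.Agent.Lib_helper13
open Representation

namespace BTW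

/-- Extension of linear characters of subgroups of finite abelian groups. -/
theorem ext_comm {V : Type} [CommGroup V] [Finite V] (U : Subgroup V) (μ : U →* ℂˣ) :
    ∃ ν : V →* ℂˣ, ∀ u : U, ν u = μ u := by
  have : NeZero (Monoid.exponent V) := ⟨Monoid.exponent_ne_zero_of_finite⟩
  obtain ⟨ν, hν⟩ := MonoidHom.domRestrict_surjective ℂ U μ
  refine ⟨ν, fun u => ?_⟩
  rw [← hν]
  rfl

theorem comm_sup {L : Type} [Group L] (U : Subgroup L) (hU : U ≤ Subgroup.center L) (l : L)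
    (x y : L) (hx : x ∈ U ⊔ Subgroup.zpowers l) (hy : y ∈ U ⊔ Subgroup.zpowers l) :
    x * y = y * x := by
  have hn : U.Normal := by
    refine ⟨fun u hu g => ?_⟩
    have h1 : g * u = u * g := Subgroup.mem_center_iff.1 (hU hu) g
    rw [h1, mul_inv_cancel_right]
    exact hu
  obtain ⟨u, hu, a, ha, rfl⟩ := Subgroup.mem_sup_of_normal_left.1 hx
  obtain ⟨v, hv, b, hb, rfl⟩ := Subgroup.mem_sup_of_normal_left.1 hy
  obtain ⟨m, rfl⟩ := Subgroup.mem_zpowers_iff.1 ha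
  obtain ⟨n, rfl⟩ := Subgroup.mem_zpowers_iff.1 hb
  have h1 : ∀ g, g * u = u * g := Subgroup.mem_center_iff.1 (hU hu)
  have h2 : ∀ g, g * v = v * g := Subgroup.mem_center_iff.1 (hU hv)
  calc u * l ^ m * (v * l ^ n) = u * (l ^ m * v) * l ^ n := by group
    _ = u * (v * l ^ m) * l ^ n := by rw [h2]
    _ = (u * v) * (l ^ m * l ^ n) := by group
    _ = (v * u) * (l ^ n * l ^ m) := by rw [h1 v, ← zpow_add, ← zpow_add, add_comm]
    _ = v * (u * l ^ n) * l ^ m := by group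
    _ = v * (l ^ n * u) * l ^ m := by rw [h1]
    _ = v * l ^ n * (u * l ^ m) := by group

/-- Extension of a linear character of a central subgroup to the subgroup generated by it and one
element. -/
theorem ext_lin {L : Type} [Group L] [Finite L] (U : Subgroup L) (hU : U ≤ Subgroup.center L)
    (μ : U →* ℂˣ) (l : L) : ∃ (V : Subgroup L) (ν : V →* ℂˣ) (hUV : U ≤ V), l ∈ V ∧
      (∀ x ∈ V, ∃ u ∈ U, ∃ k : ℤ, x = u * l ^ k) ∧
      ∀ (u : L) (hu : u ∈ U), ν ⟨u, hUV hu⟩ = μ ⟨u, hu⟩ := by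
  let V : Subgroup L := U ⊔ Subgroup.zpowers l
  let _ : CommGroup V := { (inferInstance : Group V) with
    mul_comm := fun x y => Subtype.ext (comm_sup U hU l x y x.2 y.2) }
  let μ' : (U.subgroupOf V) →* ℂˣ := μ.comp
    { toFun := fun w => ⟨(w : V), Subgroup.mem_subgroupOf.1 w.2⟩
      map_one' := rfl
      map_mul' := fun _ _ => rfl }
  obtain ⟨ν, hν⟩ := ext_comm (U.subgroupOf V) μ'
  refine ⟨V, ν, le_sup_left, Subgroup.mem_sup_right (Subgroup.mem_zpowers l), ?_, fun u hu => ?_⟩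
  · intro x hx
    have hn : U.Normal := by
      refine ⟨fun u hu g => ?_⟩
      have h1 : g * u = u * g := Subgroup.mem_center_iff.1 (hU hu) g
      rw [h1, mul_inv_cancel_right]
      exact hu
    obtain ⟨u, hu, a, ha, rfl⟩ := Subgroup.mem_sup_of_normal_left.1 hx
    obtain ⟨k, rfl⟩ := Subgroup.mem_zpowers_iff.1 ha
    exact ⟨u, hu, k, rfl⟩
  · exact hν ⟨⟨u, Subgroup.mem_sup_left hu⟩, Subgroup.mem_subgroupOf.2 hu⟩

end BTW

open _root_.Pool.Agent.DPT.BTW in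
/-- BTW. -/
theorem BTW_thm : Stmt_BTW := by
  classical
  intro A T K Γ L G _ _ _ _ _ _ _ _ _ _ _ j c p hC hp θ hθ hinv e q r E U μ π hT i hi θG hθG
    hθG0 γ γ' h
  obtain ⟨V, ν, hUV, hlV, hVd, hν⟩ := ext_lin U hT.Uc μ (q γ')
  let f : Γ →* G := i.comp r
  have hqe : ∀ a, q (e a) = 1 := fun a => (hT.qk _).2 ⟨a, rfl⟩
  have hfe : ∀ a, f (e a) = i (j a) := by
    intro a
    show i (r (e a)) = i (j a)
    rw [hT.re]
  let W : Subgroup Γ := V.comap q
  have hWm : ∀ g, g ∈ W ↔ q g ∈ V := fun g => Iff.rfl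
  have heW : ∀ a, e a ∈ W := fun a => by
    rw [hWm, hqe]
    exact V.one_mem
  let κ : W →* ℂˣ := ν.comp (q.subgroupComap V)
  have hκ : ∀ (g : Γ) (hg : g ∈ W), κ ⟨g, hg⟩ = ν ⟨q g, hg⟩ := fun g hg => rfl
  let η : W → ℂ := fun g => E g * ((κ g : ℂˣ) : ℂ)
  have hηc : IsChr η := (hT.Ec.comp W.subtype).mul (isChr_lin κ)
  have hκe : ∀ a, κ ⟨e a, heW a⟩ = 1 := by
    intro a
    rw [hκ]
    have h1 : (⟨q (e a), heW a⟩ : V) = 1 := Subtype.ext (hqe a)
    rw [h1, map_one]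
  have hηe : ∀ a, η ⟨e a, heW a⟩ = θ a := by
    intro a
    show E (e a) * ((κ ⟨e a, heW a⟩ : ℂˣ) : ℂ) = θ a
    rw [hκe, hT.Ee, Units.val_one, mul_one]
  have hηi : IsIrr η := by
    obtain ⟨n, ρ, hc⟩ := hηc
    let eW : A →* W := e.codRestrict W heW
    refine ⟨n, ρ, EXTBR.irr_of_comp eW ρ ?_, hc⟩
    have h1 : (fun k => ρ.character (eW k)) = θ := by
      funext k
      rw [hc]
      exact hηe k
    rw [h1]
    exact hθ
  -- the image of `W`
  have hS : W.map f = (i.comp j).range ⊔ Subgroup.zpowers (f γ') := by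
    apply le_antisymm
    · rintro _ ⟨g, hg, rfl⟩
      obtain ⟨u, hu, k, hk⟩ := hVd _ hg
      have h1 : π u = 1 := (hT.πk u).2 hu
      have h2 : p (r g) = p (r γ') ^ k := by
        rw [← hT.πq, hk, map_mul, h1, one_mul, map_zpow, hT.πq]
      have h3 : p (r g * (r γ' ^ k)⁻¹) = 1 := by
        rw [map_mul, map_inv, map_zpow, h2, mul_inv_cancel]
      obtain ⟨a, ha⟩ := (hC.ker _).1 h3
      have h4 : f g = (i.comp j) a * (f γ') ^ k := by
        show i (r g) = i (j a) * (i (r γ')) ^ k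
        rw [ha, map_mul i, map_inv i, map_zpow i, inv_mul_cancel_right]
      rw [h4]
      exact Subgroup.mul_mem_sup ⟨a, rfl⟩ ⟨k, rfl⟩
    · rw [sup_le_iff]
      constructor
      · rintro _ ⟨a, rfl⟩
        exact ⟨e a, heW a, hfe a⟩
      · rw [Subgroup.zpowers_le]
        exact ⟨γ', hlV, rfl⟩
  let φ : W →* W.map f := f.subgroupMap W
  have hφs : Function.Surjective φ := f.subgroupMap_surjective W
  have hker : ∀ x y : W, φ x = 1 → η (x * y) = η y := by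
    intro x y hx
    have h1 : f x = 1 := congrArg Subtype.val hx
    have h2 : r x = 1 := by
      apply hi
      rw [map_one]
      exact h1
    have h3 : q x ∈ U := by
      rw [← hT.πk, hT.πq, h2, map_one]
    have h4 := hT.El x y h3 h2
    show E ((x : Γ) * y) * ((κ (x * y) : ℂˣ) : ℂ) = E y * ((κ y : ℂˣ) : ℂ)
    have h5 : κ x = μ ⟨q x, h3⟩ := hν (q x) h3
    rw [map_mul, h5, Units.val_mul, ← h4]
    ring
  obtain ⟨η', hη', hηη⟩ := Pool.Agent.DPM.QINF.exists_inf φ hφs hηi hker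
  let F : G → ℂ := ext0 η'
  have hF : ∀ (g : Γ) (hg : g ∈ W), F (f g) = E g * ((ν ⟨q g, hg⟩ : ℂˣ) : ℂ) := by
    intro g hg
    have h1 : f g ∈ W.map f := ⟨g, hg, rfl⟩
    have h2 := congrFun hηη ⟨g, hg⟩
    show ext0 η' (f g) = _
    rw [ext0_of_mem η' h1]
    exact h2.symm
  refine ⟨F, ?_, ?_, ?_⟩
  · show IrrOn ((i.comp j).range ⊔ Subgroup.zpowers (f γ')) F
    rw [← hS]
    refine ⟨?_, fun x hx => ext0_of_not_mem η' hx⟩
    have h1 : (fun s : W.map f => F s) = η' := by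
      funext s
      exact ext0_of_mem η' s.2
    rw [h1]
    exact hη'
  · rintro _ ⟨a, rfl⟩
    show F (i (j a)) = θG (i (j a))
    rw [← hfe, hF _ (heW a), hfe, hθG, hT.Ee]
    have h1 : (⟨q (e a), heW a⟩ : V) = 1 := Subtype.ext (hqe a)
    rw [h1, map_one, Units.val_one, mul_one]
  · rintro k _ ⟨a, rfl⟩
    have hc0 : ∀ g, g * (q γ * q γ' * (q γ)⁻¹ * (q γ')⁻¹) =
        (q γ * q γ' * (q γ)⁻¹ * (q γ')⁻¹) * g := Subgroup.mem_center_iff.1 (hT.Uc h)
    obtain ⟨c0, hc0e⟩ : ∃ c0, c0 = q γ * q γ' * (q γ)⁻¹ * (q γ')⁻¹ := ⟨_, rfl⟩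
    have h1 : q γ * q γ' * (q γ)⁻¹ = c0 * q γ' := by rw [hc0e]; group
    have h2 : q γ * (q γ') ^ k * (q γ)⁻¹ = c0 ^ k * (q γ') ^ k := by
      have h3 : q γ * (q γ') ^ k * (q γ)⁻¹ = (q γ * q γ' * (q γ)⁻¹) ^ k := (conj_zpow).symm
      rw [h3, h1]
      refine Commute.mul_zpow ?_ k
      rw [commute_iff_eq, hc0e, hc0]
    have hc0U : c0 ∈ U := by rw [hc0e]; exact h
    have hb1 : γ' ^ k * e a ∈ W := by
      rw [hWm, map_mul, hqe, mul_one, map_zpow]
      exact V.zpow_mem hlV k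
    have hq2 : q (γ * (γ' ^ k * e a) * γ⁻¹) = c0 ^ k * q (γ' ^ k * e a) := by
      rw [map_mul, map_mul, map_mul, hqe, mul_one, map_zpow, map_inv, h2]
    have hb2 : γ * (γ' ^ k * e a) * γ⁻¹ ∈ W := by
      rw [hWm, hq2]
      exact V.mul_mem (V.zpow_mem (hUV hc0U) k) hb1
    have e1 : i (r γ) * (i (r γ') ^ k * (i.comp j) a) * (i (r γ))⁻¹ =
        f (γ * (γ' ^ k * e a) * γ⁻¹) := by
      rw [map_mul, map_mul, map_mul, map_inv, map_zpow, hfe]
      rfl
    have e2 : i (r γ') ^ k * (i.comp j) a = f (γ' ^ k * e a) := by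
      rw [map_mul, map_zpow, hfe]
      rfl
    rw [e1, e2, hF _ hb2, hF _ hb1, hT.Ec.conj_eq]
    have h5 : (⟨q (γ * (γ' ^ k * e a) * γ⁻¹), hb2⟩ : V) =
        (⟨c0, hUV hc0U⟩ : V) ^ k * ⟨q (γ' ^ k * e a), hb1⟩ := Subtype.ext hq2
    rw [h5, map_mul, map_zpow, hν c0 hc0U, Units.val_mul, Units.val_zpow_eq_zpow_val]
    have h6 : (⟨c0, hc0U⟩ : U) = ⟨q γ * q γ' * (q γ)⁻¹ * (q γ')⁻¹, h⟩ := Subtype.ext hc0e
    rw [h6]
    ring

end Pool.Agent.DPT


end

section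

/-!
# FBC: the numbers of the characters of the fibre product
-/

namespace Pool.Agent.DPF

open Pool.Agent.DP Pool.Agent.DPC Pool.Agent.DPM Pool.Agent.DPN Pool.Agent.Lib_helper13
  Representation
open Pool.Agent.Lib_helper13.Dade (pCore DadeHolds dadeSum)

namespace FBC

section Key

variable {A B Z Y : Type} [Group A] [Fintype A] [Group B] [Fintype B] [Group Z] [Fintype Z]
  [Group Y] [Fintype Y]

theorem sum_lin (lam : Z → ℂ) (hl : ∀ c c', lam (c * c') = lam c * lam c') (ν : Z →* ℂˣ)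
    {c₀ : Z} (h : lam c₀ ≠ ((ν c₀ : ℂˣ) : ℂ)) :
    ∑ c : Z, lam c * ((ν c⁻¹ : ℂˣ) : ℂ) = 0 := by
  have h1 : ∑ c : Z, lam c * ((ν c⁻¹ : ℂˣ) : ℂ) =
      (lam c₀ * ((ν c₀⁻¹ : ℂˣ) : ℂ)) * ∑ c : Z, lam c * ((ν c⁻¹ : ℂˣ) : ℂ) := by
    rw [Finset.mul_sum]
    refine (Equiv.sum_comp (Equiv.mulLeft c₀) _).symm.trans ?_
    refine Finset.sum_congr rfl fun c _ => ?_
    change lam (c₀ * c) * ((ν (c₀ * c)⁻¹ : ℂˣ) : ℂ) = _
    rw [hl, mul_inv_rev, map_mul, Units.val_mul]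
    ring
  have h2 : lam c₀ * ((ν c₀⁻¹ : ℂˣ) : ℂ) ≠ 1 := by
    intro h3
    apply h
    have h4 : ((ν c₀⁻¹ : ℂˣ) : ℂ) * ((ν c₀ : ℂˣ) : ℂ) = 1 := by
      rw [← Units.val_mul, ← map_mul, inv_mul_cancel, map_one, Units.val_one]
    calc lam c₀ = lam c₀ * (((ν c₀⁻¹ : ℂˣ) : ℂ) * ((ν c₀ : ℂˣ) : ℂ)) := by rw [h4, mul_one]
      _ = (lam c₀ * ((ν c₀⁻¹ : ℂˣ) : ℂ)) * ((ν c₀ : ℂˣ) : ℂ) := by ring
      _ = ((ν c₀ : ℂˣ) : ℂ) := by rw [h3, one_mul]
  by_contra h5
  exact h2 (mul_right_cancel₀ h5 (by rw [one_mul]; exact h1.symm))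

theorem ip_ne_zero_iff (f χ : B → ℂ) : ip f χ ≠ 0 ↔ ∑ b, f b * χ b⁻¹ ≠ 0 := by
  unfold ip
  constructor
  · intro h h1
    exact h (by rw [h1, zero_div])
  · intro h
    exact div_ne_zero h natCard_ne_zero

/-- The characters over a product of `θ` and a linear character. -/
theorem key (s : A →* B) (z : Z →* B)
    (hbij : Function.Bijective (fun x : A × Z => s x.1 * z x.2))
    (hcomm : ∀ a c, s a * z c = z c * s a) (jB : B →* Y)
    (hcen : ∀ c y, jB (z c) * y = y * jB (z c)) (θ : A → ℂ) (ν : Z →* ℂˣ) (Θ : B → ℂ)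
    (hΘ : ∀ a c, Θ (s a * z c) = θ a * ((ν c : ℂˣ) : ℂ)) {ψ : Y → ℂ} (hψ : IsIrr ψ) :
    ip (fun b => ψ (jB b)) Θ ≠ 0 ↔ ip (fun a => ψ (jB (s a))) θ ≠ 0 ∧
      ∀ c y, ψ (jB (z c) * y) = ((ν c : ℂˣ) : ℂ) * ψ y := by
  choose lam hlam0 hlam using fun c => PAIRS.central hψ (hcen c)
  have hmul : ∀ c c', lam (c * c') = lam c * lam c' := by
    intro c c'
    have h1 := hlam (c * c') 1
    rw [map_mul, map_mul, mul_assoc, hlam c, hlam c', ← mul_assoc] at h1
    exact (mul_right_cancel₀ hψ.one_ne_zero h1).symm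
  have hsum : ∑ b, ψ (jB b) * Θ b⁻¹ =
      (∑ c : Z, lam c * ((ν c⁻¹ : ℂˣ) : ℂ)) * ∑ a : A, ψ (jB (s a)) * θ a⁻¹ := by
    rw [← (Equiv.ofBijective _ hbij).sum_comp, Fintype.sum_prod_type, Finset.sum_comm,
      Finset.sum_mul]
    refine Finset.sum_congr rfl fun c _ => ?_
    rw [Finset.mul_sum]
    refine Finset.sum_congr rfl fun a _ => ?_
    change ψ (jB (s a * z c)) * Θ (s a * z c)⁻¹ = _
    have h1 : (s a * z c)⁻¹ = s a⁻¹ * z c⁻¹ := by
      rw [mul_inv_rev, ← map_inv, ← map_inv, hcomm]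
    rw [h1, hΘ, hcomm, map_mul, hlam]
    ring
  have hlin : (∑ c : Z, lam c * ((ν c⁻¹ : ℂˣ) : ℂ)) ≠ 0 ↔ ∀ c, lam c = ((ν c : ℂˣ) : ℂ) := by
    constructor
    · intro h c
      by_contra h1
      exact h (sum_lin lam hmul ν h1)
    · intro h
      have h1 : ∀ c : Z, lam c * ((ν c⁻¹ : ℂˣ) : ℂ) = 1 := by
        intro c
        rw [h, ← Units.val_mul, ← map_mul, mul_inv_cancel, map_one, Units.val_one]
      rw [Finset.sum_congr rfl fun c _ => h1 c, Finset.sum_const, Finset.card_univ,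
        nsmul_eq_mul, mul_one]
      exact_mod_cast Fintype.card_ne_zero
  have hiff : (∀ c, lam c = ((ν c : ℂˣ) : ℂ)) ↔
      ∀ c y, ψ (jB (z c) * y) = ((ν c : ℂˣ) : ℂ) * ψ y := by
    constructor
    · intro h c y
      rw [hlam, h]
    · intro h c
      have h1 := h c 1
      rw [hlam] at h1
      exact mul_right_cancel₀ hψ.one_ne_zero h1
  rw [ip_ne_zero_iff, ip_ne_zero_iff, hsum, mul_ne_zero_iff, hlin, hiff, and_comm]

end Key

end FBC

theorem FBC_thm (h1 : Stmt_NUG) : Stmt_FBC := by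
  classical
  intro L K H W _ _ _ _ _ _ _ _ 𝔐 ℓ _ hmax hℓ π hπ hπc μ M _ p hp hpM ω πW hπW hπWc ν ν' τ θ hθ
    hE V n
  obtain ⟨G, _, _, α, β, E, hfb, hex⟩ := hE
  haveI : Fintype G := Fintype.ofFinite G
  -- the embedding of `A`
  have hεe : ∀ a : ↥(SL π M τ M), ∃! g, α g = iSL π M τ a ∧ β g = 1 := by
    intro a
    apply hfb.ex
    rw [map_one]
    exact (hpM _).mpr a.2.1
  choose ε0 hε0 hεu using hεe
  let ε : ↥(SL π M τ M) →* G := MonoidHom.mk' ε0 (by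
    intro a b
    symm
    apply hεu (a * b)
    constructor
    · rw [map_mul, map_mul, (hε0 a).1, (hε0 b).1]
    · rw [map_mul, (hε0 a).2, (hε0 b).2, mul_one])
  have hker : ∀ t, pSL π p M τ t = 1 ↔ t ∈ (iSL π M τ).range := by
    intro t
    constructor
    · intro h
      have h2 : π (t : L) ∈ M := (hpM _).mp h
      exact ⟨⟨t, ⟨h2, t.2.2⟩⟩, rfl⟩
    · rintro ⟨a, rfl⟩
      exact (hpM _).mpr a.2.1
  have hsj : Function.Surjective (pSL π p M τ) := by
    intro h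
    obtain ⟨k, hk, hk'⟩ := hθ.sj h
    obtain ⟨l, rfl⟩ := hπ k
    exact ⟨⟨l, ⟨Subgroup.mem_top _, hk⟩⟩, hk'⟩
  have hN := h1 ↥(SL π M τ M) ↥(SL π M τ ⊤) H W G ℓ (iSL π M τ) (pSL π p M τ)
    (Subgroup.inclusion_injective _) hsj hker θ hθ.irr πW hπW α β hfb ν E hex ε
    (fun a => hε0 a) ν' V n
  rw [← hN]
  have hMV : M ≤ V.comap p := by
    intro k hk
    change p k ∈ V
    rw [(hpM k).mpr hk]
    exact V.one_mem
  -- the isomorphism
  let e0 : ↥(V.comap (πW.comp β)) →* ↥(SL (piY π p πW) M τ (V.comap p)) :=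
    MonoidHom.mk' (fun g => ⟨⟨(((α (g : G) : ↥(SL π M τ ⊤)) : L), β (g : G)), hfb.cm g⟩, by
      refine ⟨?_, (α (g : G)).2.2⟩
      change p (π ((α (g : G) : ↥(SL π M τ ⊤)) : L)) ∈ V
      have h2 : p (π ((α (g : G) : ↥(SL π M τ ⊤)) : L)) = πW (β (g : G)) := hfb.cm g
      rw [h2]
      exact g.2⟩) (by
      intro a b
      apply Subtype.ext
      apply Subtype.ext
      apply Prod.ext
      · change ((α ((a : G) * b) : ↥(SL π M τ ⊤)) : L) = _
        rw [map_mul]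
        rfl
      · change β ((a : G) * b) = _
        rw [map_mul]
        rfl)
  have he0 : Function.Bijective e0 := by
    constructor
    · intro a b hab
      have h2 : ((α (a : G) : ↥(SL π M τ ⊤)) : L) = ((α (b : G) : ↥(SL π M τ ⊤)) : L) :=
        congrArg (fun x : ↥(SL (piY π p πW) M τ (V.comap p)) =>
          ((x : fpr (p.comp π) πW) : L × W).1) hab
      have h3 : β (a : G) = β (b : G) :=
        congrArg (fun x : ↥(SL (piY π p πW) M τ (V.comap p)) =>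
          ((x : fpr (p.comp π) πW) : L × W).2) hab
      obtain ⟨g, _, hg⟩ := hfb.ex (α (b : G)) (β (b : G)) (hfb.cm b)
      have h4 := hg (a : G) ⟨Subtype.ext h2, h3⟩
      have h5 := hg (b : G) ⟨rfl, rfl⟩
      exact Subtype.ext (h4.trans h5.symm)
    · rintro ⟨⟨⟨l, w⟩, hy1⟩, hy2⟩
      have h2 : p (π l) = πW w := hy1
      have h3 : l ∈ SL π M τ ⊤ := ⟨Subgroup.mem_top _, hy2.2⟩
      obtain ⟨g, hg, _⟩ := hfb.ex ⟨l, h3⟩ w h2
      have h4 : g ∈ V.comap (πW.comp β) := by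
        change πW (β g) ∈ V
        rw [hg.2, ← h2]
        exact hy2.1
      refine ⟨⟨g, h4⟩, ?_⟩
      apply Subtype.ext
      apply Subtype.ext
      apply Prod.ext
      · exact congrArg Subtype.val hg.1
      · exact hg.2
  let e : ↥(V.comap (πW.comp β)) ≃* ↥(SL (piY π p πW) M τ (V.comap p)) :=
    MulEquiv.ofBijective e0 he0
  haveI : Fintype πW.ker := Fintype.ofFinite _
  -- the two factors
  have hsm : ∀ a : ↥(SL π M τ M), ((a : L), (1 : W)) ∈ fpr (p.comp π) πW := by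
    intro a
    change p (π (a : L)) = πW 1
    rw [map_one]
    exact (hpM _).mpr a.2.1
  let s : ↥(SL π M τ M) →* ↥(SL (piY π p πW) M τ M) :=
    MonoidHom.mk' (fun a => ⟨⟨((a : L), (1 : W)), hsm a⟩, a.2⟩) (by
      intro a b
      apply Subtype.ext
      apply Subtype.ext
      exact Prod.ext rfl (mul_one (1 : W)).symm)
  have hzm : ∀ c : πW.ker, ((1 : L), (c : W)) ∈ fpr (p.comp π) πW := by
    intro c
    change p (π 1) = πW c
    rw [map_one, map_one]
    exact (MonoidHom.mem_ker.mp c.2).symm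
  let z : πW.ker →* ↥(SL (piY π p πW) M τ M) :=
    MonoidHom.mk' (fun c => ⟨⟨((1 : L), (c : W)), hzm c⟩, by
      change π 1 ∈ M ⊓ stb (mapCh M.subtype τ)
      rw [map_one]
      exact Subgroup.one_mem _⟩) (by
      intro a b
      apply Subtype.ext
      apply Subtype.ext
      exact Prod.ext (mul_one (1 : L)).symm rfl)
  have hbij : Function.Bijective (fun x : ↥(SL π M τ M) × πW.ker => s x.1 * z x.2) := by
    constructor
    · rintro ⟨a, c⟩ ⟨a', c'⟩ hab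
      have h2 : (a : L) * 1 = (a' : L) * 1 :=
        congrArg (fun x : ↥(SL (piY π p πW) M τ M) =>
          ((x : fpr (p.comp π) πW) : L × W).1) hab
      have h3 : (1 : W) * c = 1 * c' :=
        congrArg (fun x : ↥(SL (piY π p πW) M τ M) =>
          ((x : fpr (p.comp π) πW) : L × W).2) hab
      rw [mul_one, mul_one] at h2
      rw [one_mul, one_mul] at h3
      exact Prod.ext (Subtype.ext h2) (Subtype.ext h3)
    · rintro ⟨⟨⟨l, w⟩, hy1⟩, hy2⟩
      have h2 : p (π l) = πW w := hy1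
      have h3 : l ∈ SL π M τ M := hy2
      have h4 : w ∈ πW.ker := by
        rw [MonoidHom.mem_ker, ← h2]
        exact (hpM _).mpr h3.1
      refine ⟨(⟨l, h3⟩, ⟨w, h4⟩), ?_⟩
      apply Subtype.ext
      apply Subtype.ext
      exact Prod.ext (mul_one l) (one_mul w)
  have hcomm : ∀ a c, s a * z c = z c * s a := by
    intro a c
    apply Subtype.ext
    apply Subtype.ext
    apply Prod.ext
    · change (a : L) * 1 = 1 * a
      rw [mul_one, one_mul]
    · change (1 : W) * c = c * 1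
      rw [mul_one, one_mul]
  let jB : ↥(SL (piY π p πW) M τ M) →* ↥(SL (piY π p πW) M τ (V.comap p)) :=
    Subgroup.inclusion (SL_mono (piY π p πW) M τ hMV)
  have hcen : ∀ c y, jB (z c) * y = y * jB (z c) := by
    intro c y
    apply Subtype.ext
    apply Subtype.ext
    apply Prod.ext
    · change 1 * ((y : fpr (p.comp π) πW) : L × W).1 = ((y : fpr (p.comp π) πW) : L × W).1 * 1
      rw [mul_one, one_mul]
    · change (c : W) * ((y : fpr (p.comp π) πW) : L × W).2 =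
        ((y : fpr (p.comp π) πW) : L × W).2 * c
      exact (Subgroup.mem_center_iff.mp (hπWc c.2) _).symm
  have hΘ : ∀ a c, thY π p M πW τ θ ν' (s a * z c) = θ a * ((ν' c : ℂˣ) : ℂ) := by
    intro a c
    have h2 : (((s a * z c : ↥(SL (piY π p πW) M τ M)) : fpr (p.comp π) πW) : L × W).2 =
        (c : W) := one_mul (c : W)
    have h3 : (((s a * z c : ↥(SL (piY π p πW) M τ M)) : fpr (p.comp π) πW) : L × W).1 =
        (a : L) := mul_one (a : L)
    have h4 : (((s a * z c : ↥(SL (piY π p πW) M τ M)) : fpr (p.comp π) πW) : L × W).2 ∈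
        πW.ker := by
      rw [h2]
      exact c.2
    unfold thY
    rw [dif_pos h4, h3, ext0_of_mem θ a.2]
    have h5 : (⟨_, h4⟩ : πW.ker) = c := Subtype.ext h2
    rw [h5]
  symm
  refine card_irr_equiv e _ _ ?_
  intro ψ hψ
  have hk := FBC.key s z hbij hcomm jB hcen θ ν' (thY π p M πW τ θ ν') hΘ hψ
  have hi1 : (fun a : ↥(SL (piY π p πW) M τ M) => ext0 ψ (a : fpr (p.comp π) πW)) =
      fun b => ψ (jB b) := by
    funext b
    have h2 : (b : fpr (p.comp π) πW) ∈ SL (piY π p πW) M τ (V.comap p) := (jB b).2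
    rw [ext0_of_mem ψ h2]
    rfl
  have hi2 : (fun a : ↥(SL π M τ M) =>
      ext0 (fun y : ↥(V.comap (πW.comp β)) => ψ (e y)) (ε a)) = fun a => ψ (jB (s a)) := by
    funext a
    have h2 : ε a ∈ V.comap (πW.comp β) := by
      change πW (β (ε0 a)) ∈ V
      rw [(hε0 a).2, map_one]
      exact V.one_mem
    rw [ext0_of_mem _ h2]
    congr 1
    apply Subtype.ext
    apply Subtype.ext
    apply Prod.ext
    · exact congrArg Subtype.val (hε0 a).1
    · exact (hε0 a).2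
  have hi3 : (∀ (z' : πW.ker) (g g' : ↥(V.comap (πW.comp β))), α (g' : G) = α (g : G) →
      β (g' : G) = z' * β (g : G) → ψ (e g') = ((ν' z' : ℂˣ) : ℂ) * ψ (e g)) ↔
      ∀ c y, ψ (jB (z c) * y) = ((ν' c : ℂˣ) : ℂ) * ψ y := by
    constructor
    · intro h c y
      obtain ⟨g, rfl⟩ := e.surjective y
      obtain ⟨g', hg'⟩ := e.surjective (jB (z c) * e g)
      rw [← hg']
      apply h c g g'
      · apply Subtype.ext
        have h2 := congrArg (fun x : ↥(SL (piY π p πW) M τ (V.comap p)) =>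
          ((x : fpr (p.comp π) πW) : L × W).1) hg'
        exact h2.trans (one_mul _)
      · exact congrArg (fun x : ↥(SL (piY π p πW) M τ (V.comap p)) =>
          ((x : fpr (p.comp π) πW) : L × W).2) hg'
    · intro h c g g' h2 h3
      rw [← h]
      congr 1
      apply Subtype.ext
      apply Subtype.ext
      apply Prod.ext
      · change ((α (g' : G) : ↥(SL π M τ ⊤)) : L) = 1 * ((α (g : G) : ↥(SL π M τ ⊤)) : L)
        rw [one_mul, h2]
      · exact h3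
  rw [hi1, hi2, hi3, hk, hasDefect_comp_equiv e, and_assoc]

end Pool.Agent.DPF


end

section

/-!
# ZIN: invariance of the product character and of `ζ`
-/

namespace Pool.Agent.DPG

open Pool.Agent.DP Pool.Agent.DPC Pool.Agent.DPM Pool.Agent.DPN Pool.Agent.DPF
  Pool.Agent.Lib_helper13 Representation

namespace ZIN

section Gen

variable {B Ω : Type} [Group B]

theorem mul_l (a b : Gam (Equiv.Perm Ω) Ω B) (o : Ω) :
    (a * b).left o = a.left o * b.left (a.right⁻¹ • o) := rfl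

theorem inv_l (a : Gam (Equiv.Perm Ω) Ω B) (o : Ω) :
    (a⁻¹).left o = (a.left (a.right • o))⁻¹ := by
  change (a.left (a.right⁻¹⁻¹ • o))⁻¹ = _
  rw [inv_inv]

theorem conj_l (g m : Gam (Equiv.Perm Ω) Ω B) (hm : m.right = 1) (o : Ω) :
    (g * m * g⁻¹).left o = g.left o * m.left (g.right⁻¹ • o) * (g.left o)⁻¹ := by
  rw [mul_l, mul_l, inv_l]
  have h : (g * m).right = g.right := by
    rw [SemidirectProduct.mul_right, hm, mul_one]
  rw [h, smul_inv_smul]

theorem conj_r (g m : Gam (Equiv.Perm Ω) Ω B) (hm : m.right = 1) :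
    (g * m * g⁻¹).right = 1 := by
  rw [SemidirectProduct.mul_right, SemidirectProduct.mul_right, hm, mul_one,
    SemidirectProduct.inv_right, mul_inv_cancel]

end Gen

section Main

variable {L K K1 Q L1 Ω : Type} [Group L] [Group K] [Group K1] [Group Q] [Group L1]
  [Fintype Ω]
variable {ℓ : ℕ} {π : L →* K} {μ : π.ker →* ℂˣ} {φ : K →* Gam (Equiv.Perm Ω) Ω K1}
  {q : Q →* K1} {α : K1 →* MulAut Q} {ε : (Ω → Q) →* L} {μQ : q.ker →* ℂˣ} {π1 : L1 →* K1}
  {μ1 : π1.ker →* ℂˣ} {ι : Q →* L1} {M : Subgroup K} {M1 : Subgroup K1}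

theorem YY_iff (x : L × Gam (Equiv.Perm Ω) Ω L1) :
    x ∈ YY π φ π1 ↔ φ (π x.1) = gmap Ω π1 x.2 := Iff.rfl

theorem YY_l {x : L × Gam (Equiv.Perm Ω) Ω L1} (hx : x ∈ YY π φ π1) (o : Ω) :
    (φ (π x.1)).left o = π1 (x.2.left o) := by
  rw [(YY_iff x).mp hx]
  rfl

theorem YY_r {x : L × Gam (Equiv.Perm Ω) Ω L1} (hx : x ∈ YY π φ π1) :
    (φ (π x.1)).right = x.2.right := by
  rw [(YY_iff x).mp hx]
  rfl

theorem MY_iff (x : L × Gam (Equiv.Perm Ω) Ω L1) :
    x ∈ MY π φ π1 M ↔ x ∈ YY π φ π1 ∧ π x.1 ∈ M := Iff.rfl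

theorem MY_r (hM : MM ℓ π φ q ε M M1) {x : L × Gam (Equiv.Perm Ω) Ω L1}
    (hx : x ∈ MY π φ π1 M) : x.2.right = 1 := by
  rw [← YY_r hx.1]
  exact hM.r _ hx.2

theorem dY_mem (hW : WD π μ φ q α ε μQ) (hL : LD q α μQ π1 μ1 ι)
    (hM : MM ℓ π φ q ε M M1) (n : Ω → Q) : dY ε ι n ∈ MY π φ π1 M := by
  constructor
  · change φ (π (ε n)) = gmap Ω π1 (gin fun o => ι (n o))
    rw [hW.φε]
    apply SemidirectProduct.ext
    · funext o
      exact (hL.πι (n o)).symm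
    · rfl
  · exact hM.le ⟨ε n, ⟨n, rfl⟩, rfl⟩

theorem dY_inv (n : Ω → Q) : (dY ε ι n)⁻¹ = dY (L := L) (L1 := L1) ε ι n⁻¹ := by
  apply Prod.ext
  · exact (map_inv ε n).symm
  · change (gin fun o => ι (n o))⁻¹ = gin fun o => ι (n⁻¹ o)
    apply SemidirectProduct.ext
    · funext o
      rw [inv_l]
      change (ι (n ((1 : Equiv.Perm Ω) • o)))⁻¹ = ι (n⁻¹ o)
      rw [one_smul, Pi.inv_apply, map_inv]
    · change (1 : Equiv.Perm Ω)⁻¹ = 1
      exact inv_one

theorem dY_conj (hW : WD π μ φ q α ε μQ) (hL : LD q α μQ π1 μ1 ι)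
    {y : L × Gam (Equiv.Perm Ω) Ω L1} (hy : y ∈ YY π φ π1) (n : Ω → Q) :
    y * dY ε ι n * y⁻¹ = dY ε ι (wB α Ω (φ (π y.1)) n) := by
  apply Prod.ext
  · exact (hW.cj y.1 n).symm
  · change y.2 * (gin fun o => ι (n o)) * y.2⁻¹ = gin fun o => ι (wB α Ω (φ (π y.1)) n o)
    apply SemidirectProduct.ext
    · funext o
      rw [conj_l _ _ rfl]
      change y.2.left o * ι (n (y.2.right⁻¹ • o)) * (y.2.left o)⁻¹ =
        ι (α ((φ (π y.1)).left o) (n ((φ (π y.1)).right⁻¹ • o)))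
      rw [YY_l hy, YY_r hy, hL.ια]
    · exact conj_r _ _ rfl

theorem conj_YY {y x : L × Gam (Equiv.Perm Ω) Ω L1} (hy : y ∈ YY π φ π1)
    (hx : x ∈ YY π φ π1) : y * x * y⁻¹ ∈ YY π φ π1 :=
  (YY π φ π1).mul_mem ((YY π φ π1).mul_mem hy hx) ((YY π φ π1).inv_mem hy)

theorem conj_MY (hM : MM ℓ π φ q ε M M1) {y x : L × Gam (Equiv.Perm Ω) Ω L1}
    (hy : y ∈ YY π φ π1) (hx : x ∈ MY π φ π1 M) : y * x * y⁻¹ ∈ MY π φ π1 M := by
  refine ⟨conj_YY hy hx.1, ?_⟩
  change π (y.1 * x.1 * y.1⁻¹) ∈ M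
  rw [map_mul, map_mul, map_inv]
  exact hM.nm.conj_mem _ hx.2 _

theorem conj_MY_iff (hM : MM ℓ π φ q ε M M1) {y x : L × Gam (Equiv.Perm Ω) Ω L1}
    (hy : y ∈ YY π φ π1) : y * x * y⁻¹ ∈ MY π φ π1 M ↔ x ∈ MY π φ π1 M := by
  constructor
  · intro h
    have h1 := conj_MY hM ((YY π φ π1).inv_mem hy) h
    have h2 : y⁻¹ * (y * x * y⁻¹) * y⁻¹⁻¹ = x := by group
    rw [h2] at h1
    exact h1
  · exact conj_MY hM hy

theorem mul_dY_l (hM : MM ℓ π φ q ε M M1) {x : L × Gam (Equiv.Perm Ω) Ω L1}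
    (hx : x ∈ MY π φ π1 M) (n : Ω → Q) (o : Ω) :
    (x * dY ε ι n).2.left o = x.2.left o * ι (n o) := by
  change (x.2 * gin fun o => ι (n o)).left o = _
  rw [mul_l, MY_r hM hx, inv_one, one_smul]
  rfl

/-- Some element of the coset of `b` has a nonzero value. -/
theorem nz1 [Fintype L1] {S : Subgroup K1} {F : L1 → ℂ} (hF : EF π1 q.range M1 S F)
    (h1 : q.range ≤ M1) (b : L1) (hb : π1 b ∈ M1) (hbs : π1 b ∈ S) :
    ∃ a, π1 a ∈ q.range ∧ F (b * a) ≠ 0 := by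
  classical
  have hle : AL π1 q.range S ≤ AL π1 M1 S := by
    intro x hx
    exact ⟨h1 hx.1, hx.2⟩
  obtain ⟨n, ρ, hρ, hχ⟩ := hF.irr.1
  set j : AL π1 q.range S →* AL π1 M1 S := Subgroup.inclusion hle with hj
  have hc : Representation.character (ρ.comp j : Representation ℂ _ (Fin n → ℂ)) =
      fun a : AL π1 q.range S => F a := by
    funext a
    have := congrFun hχ (j a)
    exact this
  have hirr : Representation.IsIrreducible (ρ.comp j : Representation ℂ _ (Fin n → ℂ)) := by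
    apply irreducible_of_sum
    rw [hc]
    exact hF.res.sum_self
  have hs := COSET.main ρ j hirr ⟨b, hb, hbs⟩
  by_contra hcon
  push Not at hcon
  have h0 : ∀ a : AL π1 q.range S, ρ.character ((⟨b, hb, hbs⟩ : AL π1 M1 S) * j a) = 0 := by
    intro a
    rw [hχ]
    exact hcon a a.2.1
  have hz : ∑ a : AL π1 q.range S, ρ.character ((⟨b, hb, hbs⟩ : AL π1 M1 S) * j a) *
      ρ.character ((⟨b, hb, hbs⟩ : AL π1 M1 S) * j a)⁻¹ = 0 := by
    apply Finset.sum_eq_zero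
    intro a _
    rw [h0 a, zero_mul]
  rw [hz] at hs
  have hcard : ∑ a : AL π1 q.range S, ρ.character (j a) * ρ.character (j a)⁻¹ =
      (Nat.card (AL π1 q.range S) : ℂ) := by
    rw [← hF.res.sum_self]
    refine Finset.sum_congr rfl fun a _ => ?_
    rw [← map_inv, hχ]
    rfl
  rw [hcard] at hs
  exact natCard_ne_zero hs.symm

theorem nz2 [Fintype L1] (hL : LD q α μQ π1 μ1 ι) (hq : q.range.Normal) {S : Subgroup K1}
    {F : L1 → ℂ} (hF : EF π1 q.range M1 S F) (hO : Ov π1 μ1 F)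
    (h1 : q.range ≤ M1) (b : L1) (hb : π1 b ∈ M1) : ∃ m : Q, F (b * ι m) ≠ 0 := by
  have h2 := M1.inv_mem hb
  have h3 := hF.cov h2
  haveI := hq
  rw [Subgroup.mem_sup_of_normal_left] at h3
  obtain ⟨_, ⟨m0, rfl⟩, t, ht, h4⟩ := h3
  have h5 : π1 (b * ι m0) = t⁻¹ := by
    rw [map_mul, hL.πι]
    have : q m0 = (π1 b)⁻¹ * t⁻¹ := by rw [← h4]; group
    rw [this]
    group
  have h6 : π1 (b * ι m0) ∈ M1 := by
    rw [map_mul, hL.πι]
    exact M1.mul_mem hb (h1 ⟨m0, rfl⟩)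
  obtain ⟨a, ⟨m1, hm1⟩, ha⟩ := nz1 hF h1 (b * ι m0) h6 (by rw [h5]; exact S.inv_mem ht)
  have hz : a * (ι m1)⁻¹ ∈ π1.ker := by
    rw [MonoidHom.mem_ker, map_mul, map_inv, hL.πι, hm1, mul_inv_cancel]
  have hzc := Subgroup.mem_center_iff.mp (hL.c hz) (b * ι m0)
  refine ⟨m0 * m1, ?_⟩
  intro h0
  apply ha
  have h7 : b * ι m0 * a = (a * (ι m1)⁻¹) * (b * ι (m0 * m1)) := by
    calc b * ι m0 * a = (b * ι m0 * (a * (ι m1)⁻¹)) * ι m1 := by group
      _ = (a * (ι m1)⁻¹ * (b * ι m0)) * ι m1 := by rw [hzc]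
      _ = _ := by rw [map_mul]; group
  rw [h7]
  have h8 := hO ⟨_, hz⟩ (b * ι (m0 * m1))
  rw [h0, mul_zero] at h8
  exact h8

/-- The product over the coordinates is invariant. -/
theorem prod_conj (hM : MM ℓ π φ q ε M M1) {S : Subgroup K1} {F : L1 → ℂ}
    (hF : ∀ t, π1 t ∈ S → ∀ x, F (t * x * t⁻¹) = F x)
    {y x : L × Gam (Equiv.Perm Ω) Ω L1} (hy : ∀ o, π1 (y.2.left o) ∈ S)
    (hx : x ∈ MY π φ π1 M) :
    ∏ o, F ((y * x * y⁻¹).2.left o) = ∏ o, F (x.2.left o) := by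
  have h : ∀ o, F ((y * x * y⁻¹).2.left o) = F (x.2.left (y.2.right⁻¹ o)) := by
    intro o
    change F ((y.2 * x.2 * y.2⁻¹).left o) = _
    rw [conj_l _ _ (MY_r hM hx), hF _ (hy o)]
    rfl
  rw [Finset.prod_congr rfl fun o _ => h o]
  exact Equiv.prod_comp (y.2.right⁻¹ : Equiv.Perm Ω) fun o => F (x.2.left o)

theorem exY (hL : LD q α μQ π1 μ1 ι) (t : L) :
    ∃ g : Gam (Equiv.Perm Ω) Ω L1, (t, g) ∈ YY π φ π1 := by
  choose f hf using hL.s
  refine ⟨⟨fun o => f ((φ (π t)).left o), (φ (π t)).right⟩, ?_⟩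
  change φ (π t) = gmap Ω π1 _
  apply SemidirectProduct.ext
  · funext o
    exact (hf _).symm
  · rfl

end Main

end ZIN

open _root_.Pool.Agent.DPG.ZIN in
theorem ZIN_thm (h1 : Stmt_CST) : Stmt_ZIN := by
  intro L K K1 Q L1 Ω _ _ _ _ _ _ _ _ _ _ _ _ ℓ _ π μ φ q α ε μQ π1 μ1 ι M M1 hW hL hM σ F
    hσ hF hO hsj hFi ζ hζ θ hθ
  obtain ⟨-, hqn, hch⟩ := h1 L K K1 Q Ω ℓ π μ φ q α ε μQ hW
  obtain ⟨-, -, -, hstb, -, -, -⟩ := hch σ hσ
  constructor
  · intro hinv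
    -- elements with coordinates in the stabilizer
    have key : ∀ y ∈ YY π φ π1, (∀ o, π1 (y.2.left o) ∈ stb σ) → ∀ x ∈ MY π φ π1 M,
        ζ (y * x * y⁻¹) = ζ x := by
      intro y hy hys x hx
      have hm : ∀ o, ∃ m : Q, F (x.2.left o * ι m) ≠ 0 := by
        intro o
        apply nz2 hL hqn hF hO hM.le1
        rw [← YY_l hx.1 o]
        exact hM.l _ hx.2 o
      choose m hm using hm
      set x' := x * dY ε ι m with hx'
      have hx'm : x' ∈ MY π φ π1 M := (MY π φ π1 M).mul_mem hx (dY_mem hW hL hM m)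
      have hyt : π y.1 ∈ stb (cstC φ (NN' π ε) σ) := by
        rw [hstb]
        intro o
        rw [YY_l hy]
        exact hys o
      have e1 := hinv y.1 hyt x'.1
      have e2 := hθ.2 (y * x' * y⁻¹) (conj_MY hM hy hx'm)
      have e3 := hθ.2 x' hx'm
      rw [prod_conj hM hFi hys hx'm] at e2
      change θ (y.1 * x'.1 * y.1⁻¹) = _ at e2
      rw [e1, e3] at e2
      have hne : ∏ o, F (x'.2.left o) ≠ 0 := by
        rw [Finset.prod_ne_zero_iff]
        intro o _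
        rw [hx', mul_dY_l hM hx]
        exact hm o
      have e4 := mul_left_cancel₀ hne e2
      have e5 : ζ x' = ζ x := hζ.d m x
      have e6 : y * x' * y⁻¹ = (y * x * y⁻¹) * dY ε ι (wB α Ω (φ (π y.1)) m) := by
        rw [← dY_conj hW hL hy, hx']
        group
      rw [e6, e5, hζ.d] at e4
      exact e4.symm
    intro y hy x
    by_cases hx : x ∈ MY π φ π1 M
    · have hn : ∀ o, ∃ n : Q, π1 ((ι n)⁻¹ * y.2.left o) ∈ stb σ := by
        intro o
        have h3 : π1 (y.2.left o) ∈ q.range ⊔ stb σ := by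
          rw [hsj]
          trivial
        haveI := hqn
        rw [Subgroup.mem_sup_of_normal_left] at h3
        obtain ⟨_, ⟨n, rfl⟩, t, ht, h4⟩ := h3
        refine ⟨n, ?_⟩
        rw [map_mul, map_inv, hL.πι, ← h4, inv_mul_cancel_left]
        exact ht
      choose n hn using hn
      have hdm := dY_mem hW hL hM n
      set y1 := (dY ε ι n)⁻¹ * y with hy1
      have hy1m : y1 ∈ YY π φ π1 := (YY π φ π1).mul_mem ((YY π φ π1).inv_mem hdm.1) hy
      have hy1s : ∀ o, π1 (y1.2.left o) ∈ stb σ := by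
        intro o
        have h4 : y1.2.left o = (ι (n o))⁻¹ * y.2.left o := by
          rw [hy1, dY_inv]
          change ((gin fun o => ι (n⁻¹ o)) * y.2).left o = _
          rw [mul_l]
          change ι (n⁻¹ o) * y.2.left ((1 : Equiv.Perm Ω)⁻¹ • o) = _
          rw [inv_one, one_smul, Pi.inv_apply, map_inv]
        rw [h4]
        exact hn o
      have hz := conj_MY hM hy1m hx
      set z := y1 * x * y1⁻¹ with hzd
      have e1 : y * x * y⁻¹ = z * dY ε ι (wB α Ω (φ (π (z⁻¹).1)) n) * dY ε ι n⁻¹ := by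
        rw [← dY_conj hW hL ((YY π φ π1).inv_mem hz.1), ← dY_inv, hzd, hy1]
        group
      rw [e1, hζ.d, hζ.d]
      exact key y1 hy1m hy1s x hx
    · rw [hζ.irr.2 _ hx]
      apply hζ.irr.2
      rw [conj_MY_iff hM hy]
      exact hx
  · intro hinv t ht x
    obtain ⟨g, hg⟩ := exY (π := π) (φ := φ) hL t
    have hgs : ∀ o, π1 (g.left o) ∈ stb σ := by
      intro o
      rw [← YY_l hg o]
      exact (hstb _).mp ht o
    by_cases hx : π x ∈ M
    · obtain ⟨h, hh⟩ := exY (π := π) (φ := φ) hL x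
      have hxm : (x, h) ∈ MY π φ π1 M := ⟨hh, hx⟩
      have e2 := hθ.2 _ (conj_MY hM hg hxm)
      have e3 := hθ.2 (x, h) hxm
      rw [prod_conj hM hFi hgs hxm, hinv _ hg, ← e3] at e2
      exact e2
    · rw [hθ.1 x hx]
      apply hθ.1
      rw [map_mul, map_mul, map_inv]
      intro h
      apply hx
      have h2 := hM.nm.conj_mem _ h (π t)⁻¹
      have h3 : (π t)⁻¹ * (π t * π x * (π t)⁻¹) * (π t)⁻¹⁻¹ = π x := by group
      rw [h3] at h2
      exact h2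

end Pool.Agent.DPG


end
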