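import Mathlib
import Pool.Agent.DAM.C11
import Pool.Agent.DAM.C14
import Pool.Agent.DAM.C18
import Pool.Agent.DAM.C25
import Pool.Agent.DAM.C26
import Pool.Agent.DAM.C28
import Pool.Agent.DAM.C32

/-! Parts: DPT.DZB, DPT.OUTF, DPF.T2D, DPK.OUTFr, DPW.KDB -/

section

set_option linter.unusedSectionVars false

/-!
# DZB: the contribution of one character
-/

namespace Pool.Agent.DPT

open Pool.Agent.DP Pool.Agent.DPC Pool.Agent.DPM Pool.Agent.DPN Pool.Agent.Lib_helper13
open Representation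
open Pool.Agent.Lib_helper13.Dade (pCore DadeHolds dadeSum)

namespace DZB

open Pool.Agent.DP.QC (mem_conj_iff conj_injective map_conj_mul map_conj_one map_map_conj)

/-! ### The toggle -/

/-- An alternating sum over chains which vanishes. -/
theorem toggle {K : Type*} [Group K] [Fintype K] {ℓ : ℕ} [Fact ℓ.Prime] (O : Subgroup K)
    [O.Normal] (hO : IsPGroup ℓ O) (hO1 : ⊥ < O) {T : Type*} (R : T → Subgroup K → Prop)
    (hbot : ∀ t, R t ⊥) (hsup : ∀ t D E, R t D → R t E → R t (D ⊔ E)) (hRO : ∀ t, R t O)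
    (V : Set T → ℚ) :
    ∑ τ ∈ Ch ℓ (⊥ : Subgroup K), (-1 : ℚ) ^ τ.card * V {t | ∀ D ∈ τ, R t D} = 0 := by
  classical
  let E : Finset (Subgroup K) → Subgroup K := fun σ =>
    ((σ.filter (fun D => ¬ O ≤ D)).sup id) ⊔ O
  have hOE : ∀ σ, O ≤ E σ := fun σ => le_sup_right
  have hE1 : ∀ σ, E (insert (E σ) σ) = E σ := by
    intro σ
    have : (insert (E σ) σ).filter (fun D => ¬ O ≤ D) = σ.filter (fun D => ¬ O ≤ D) := by
      rw [Finset.filter_insert, if_neg (not_not.mpr (hOE σ))]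
    change ((((insert (E σ) σ).filter (fun D => ¬ O ≤ D))).sup id) ⊔ O = _
    rw [this]
  have hE2 : ∀ σ, E (σ.erase (E σ)) = E σ := by
    intro σ
    have : (σ.erase (E σ)).filter (fun D => ¬ O ≤ D) = σ.filter (fun D => ¬ O ≤ D) := by
      rw [Finset.filter_erase, Finset.erase_eq_of_notMem]
      intro h
      exact (Finset.mem_filter.mp h).2 (hOE σ)
    change ((((σ.erase (E σ)).filter (fun D => ¬ O ≤ D))).sup id) ⊔ O = _
    rw [this]
  have hcomp : ∀ σ, IsCh ℓ (⊥ : Subgroup K) σ → ∀ D ∈ σ, D ≤ E σ ∨ E σ ≤ D := by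
    intro σ hσ D hD
    by_cases h : O ≤ D
    · right
      apply sup_le _ h
      rw [Finset.sup_le_iff]
      intro D' hD'
      rw [Finset.mem_filter] at hD'
      rcases hσ.total hD'.1 hD with h1 | h1
      · exact h1
      · exact absurd (h.trans h1) hD'.2
    · left
      refine le_trans ?_ le_sup_left
      exact Finset.le_sup (f := id) (Finset.mem_filter.mpr ⟨hD, h⟩)
  have hEp : ∀ σ, IsCh ℓ (⊥ : Subgroup K) σ → IsPGroup ℓ (E σ) := by
    intro σ hσ
    apply IsPGroup.to_sup_of_normal_right _ hO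
    rcases (σ.filter (fun D => ¬ O ≤ D)).eq_empty_or_nonempty with h | h
    · rw [h, Finset.sup_empty]
      exact IsPGroup.of_bot
    · obtain ⟨T, hT, hT'⟩ := (hσ.subset (Finset.filter_subset _ _)).exists_top h
      have : (σ.filter (fun D => ¬ O ≤ D)).sup id = T := by
        apply le_antisymm
        · rw [Finset.sup_le_iff]
          exact hT'
        · exact Finset.le_sup (f := id) hT
      rw [this]
      exact (hσ.1 T (Finset.mem_filter.mp hT).1).1
  have hmap : ∀ (t : T) (σ : Finset (Subgroup K)), (∀ D ∈ σ, ¬ O ≤ D → R t D) → R t (E σ) := by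
    intro t σ h
    change R t (((σ.filter (fun D => ¬ O ≤ D)).sup id) ⊔ O)
    apply hsup t _ _ _ (hRO t)
    apply Finset.sup_induction (p := R t) (hbot t)
    · intro a ha b hb
      exact hsup t a b ha hb
    · intro D hD
      rw [Finset.mem_filter] at hD
      exact h D hD.1 hD.2
  have hs1 : ∀ σ : Finset (Subgroup K), {t | ∀ D ∈ insert (E σ) σ, R t D} = {t | ∀ D ∈ σ, R t D} := by
    intro σ
    ext t
    simp only [Set.mem_ofPred_eq]
    constructor
    · intro h D hD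
      exact h D (Finset.mem_insert_of_mem hD)
    · intro h D hD
      rcases Finset.mem_insert.mp hD with rfl | hD
      · exact hmap t σ fun D hD _ => h D hD
      · exact h D hD
  have hs2 : ∀ σ : Finset (Subgroup K), {t | ∀ D ∈ σ.erase (E σ), R t D} = {t | ∀ D ∈ σ, R t D} := by
    intro σ
    ext t
    simp only [Set.mem_ofPred_eq]
    constructor
    · intro h D hD
      by_cases hDE : D = E σ
      · rw [hDE]
        apply hmap
        intro D' hD' hO'
        apply h D'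
        rw [Finset.mem_erase]
        refine ⟨?_, hD'⟩
        rintro rfl
        exact hO' (hOE σ)
      · exact h D (Finset.mem_erase.mpr ⟨hDE, hD⟩)
    · intro h D hD
      exact h D (Finset.mem_of_mem_erase hD)
  apply Finset.sum_involution (fun σ _ => if E σ ∈ σ then σ.erase (E σ) else insert (E σ) σ)
  · intro σ hσ
    split_ifs with h
    · rw [hs2, Finset.card_erase_of_mem h]
      have h1 : 0 < σ.card := Finset.card_pos.mpr ⟨_, h⟩
      obtain ⟨n, hn⟩ : ∃ n, σ.card = n + 1 := ⟨σ.card - 1, by omega⟩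
      rw [hn, Nat.add_sub_cancel, pow_succ]
      ring
    · rw [hs1, Finset.card_insert_of_notMem h, pow_succ]
      ring
  · intro σ hσ _
    split_ifs with h
    · intro h1
      have h2 := Finset.notMem_erase (E σ) σ
      rw [h1] at h2
      exact h2 h
    · intro h1
      apply h
      have h2 := Finset.mem_insert_self (E σ) σ
      rw [h1] at h2
      exact h2
  · intro σ hσ
    rw [mem_Ch] at hσ ⊢
    split_ifs with h
    · exact hσ.subset (Finset.erase_subset _ _)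
    · exact hσ.insert (hEp σ hσ) (lt_of_lt_of_le hO1 (hOE σ)) (hcomp σ hσ)
  · intro σ hσ
    by_cases h : E σ ∈ σ
    · simp only [h, if_true]
      rw [hE2, if_neg (Finset.notMem_erase _ _), Finset.insert_erase h]
    · simp only [h, if_false]
      rw [hE1, if_pos (Finset.mem_insert_self _ _), Finset.erase_insert h]

/-! ### Normalization -/

section Nz

variable {G : Type} [Group G]

/-- `t` normalizes `E`. -/
def Nz (t : G) (E : Subgroup G) : Prop := E.map (MulAut.conj t).toMonoidHom = E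

theorem Nz.sup {t : G} {E F : Subgroup G} (h : Nz t E) (h' : Nz t F) : Nz t (E ⊔ F) := by
  unfold Nz at *
  rw [Subgroup.map_sup, h, h']

theorem Nz.inf {t : G} {E F : Subgroup G} (h : Nz t E) (h' : Nz t F) : Nz t (E ⊓ F) := by
  unfold Nz at *
  rw [Subgroup.map_inf _ _ _ (conj_injective t), h, h']

theorem Nz.mul {s t : G} {E : Subgroup G} (h : Nz s E) (h' : Nz t E) : Nz (s * t) E := by
  unfold Nz at *
  rw [← map_conj_mul, h', h]

theorem nz_of_mem {t : G} {E : Subgroup G} (h : t ∈ E) : Nz t E := by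
  unfold Nz
  ext x
  rw [mem_conj_iff]
  constructor
  · intro h1
    have e : x = t * (t⁻¹ * x * t) * t⁻¹ := by group
    rw [e]
    exact E.mul_mem (E.mul_mem h h1) (E.inv_mem h)
  · intro h1
    exact E.mul_mem (E.mul_mem (E.inv_mem h) h1) h

theorem nz_normal (t : G) (E : Subgroup G) [hE : E.Normal] : Nz t E := by
  unfold Nz
  ext x
  rw [mem_conj_iff]
  constructor
  · intro h1
    have e : x = t * (t⁻¹ * x * t) * t⁻¹ := by group
    rw [e]
    exact hE.conj_mem _ h1 t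
  · intro h1
    have h2 := hE.conj_mem _ h1 t⁻¹
    rwa [inv_inv] at h2

/-- A subgroup whose elements are mapped into `E` by `t` and by its inverse. -/
theorem nz_of_conj {T E : Subgroup G} (h : ∀ g ∈ T, ∀ x ∈ E, g * x * g⁻¹ ∈ E) {t : G}
    (ht : t ∈ T) : Nz t E := by
  unfold Nz
  ext x
  rw [mem_conj_iff]
  constructor
  · intro h1
    have e : x = t * (t⁻¹ * x * t) * t⁻¹ := by group
    rw [e]
    exact h t ht _ h1
  · intro h1
    have h2 := h t⁻¹ (T.inv_mem ht) x h1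
    rwa [inv_inv] at h2

/-- Subgroups of a complement. -/
theorem dedekind {D Q M : Subgroup G} [hM : M.Normal] (hDQ : D ≤ Q) (h : Q ⊓ M = ⊥) :
    Q ⊓ (D ⊔ M) = D := by
  apply le_antisymm
  · rintro x ⟨hx1, hx2⟩
    obtain ⟨d, hd, m, hm, rfl⟩ := Subgroup.mem_sup_of_normal_right.mp hx2
    have h1 : m ∈ Q ⊓ M := by
      refine ⟨?_, hm⟩
      have h2 := Q.mul_mem (Q.inv_mem (hDQ hd)) hx1
      rwa [inv_mul_cancel_left] at h2
    rw [h, Subgroup.mem_bot] at h1
    rw [h1, mul_one]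
    exact hd
  · exact le_inf hDQ le_sup_left

theorem card_rel (H K : Subgroup G) : Nat.card ↥(H ⊓ K) * H.relIndex K = Nat.card K := by
  have h1 := (H.subgroupOf K).card_mul_index
  have h2 : Nat.card ↥(H.subgroupOf K) = Nat.card ↥(H ⊓ K) := by
    rw [← Subgroup.subgroupOf_map_subtype H K]
    exact Nat.card_congr
      ((H.subgroupOf K).equivMapOfInjective K.subtype K.subtype_injective).toEquiv
  rw [h2] at h1
  exact h1

theorem card_sup (M S : Subgroup G) [M.Normal] :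
    Nat.card S * Nat.card M = Nat.card ↥(M ⊓ S) * Nat.card ↥(S ⊔ M) := by
  have h1 := card_rel M S
  have h2 := card_rel M (S ⊔ M)
  rw [Subgroup.relIndex_sup_right, inf_eq_left.mpr le_sup_right] at h2
  rw [← h1, ← h2]
  ring

end Nz

/-! ### The frame -/

section Frame

variable {G : Type} [Group G] (M₀ M' : Subgroup G) [hM₀ : M₀.Normal]

/-- The action of `M'` on `M₀`. -/
noncomputable def cc : M' →* MulAut M₀ := (MulAut.conjNormal (H := M₀)).comp M'.subtype

theorem cc_apply (x : M') (a : M₀) : ((cc M₀ M' x a : M₀) : G) = x * a * (x : G)⁻¹ :=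
  MulAut.conjNormal_apply _ _

/-- The projection. -/
def pp : M' →* (M' ⧸ M₀.subgroupOf M') := QuotientGroup.mk' _

theorem pp_surj : Function.Surjective (pp M₀ M') := QuotientGroup.mk'_surjective _

theorem pp_ker : (pp M₀ M').ker = M₀.subgroupOf M' := QuotientGroup.ker_mk' _

theorem clg (hle : M₀ ≤ M') : ClG (Subgroup.inclusion hle) (cc M₀ M') (pp M₀ M') where
  inj := Subgroup.inclusion_injective hle
  act y a := by
    apply Subtype.ext
    change ((cc M₀ M' y a : M₀) : G) = y * a * (y : G)⁻¹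
    exact cc_apply M₀ M' y a
  ker y := by
    have h : y ∈ (Subgroup.inclusion hle).range ↔ y ∈ (pp M₀ M').ker := by
      rw [pp_ker, Subgroup.inclusion_range hle]
    rw [h, MonoidHom.mem_ker]

/-! ### Preimages -/

/-- The preimage of `D` in `M'`, as a subgroup of `G`. -/
def pre (D : Subgroup (M' ⧸ M₀.subgroupOf M')) : Subgroup G :=
  (D.comap (pp M₀ M')).map M'.subtype

theorem pre_map (hle : M₀ ≤ M') (D : Subgroup M') :
    pre M₀ M' (D.map (pp M₀ M')) = D.map M'.subtype ⊔ M₀ := by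
  unfold pre
  rw [Subgroup.comap_map_eq, Subgroup.map_sup, pp_ker, Subgroup.map_subgroupOf_eq_of_le hle]

theorem pre_sup (D E : Subgroup (M' ⧸ M₀.subgroupOf M')) :
    pre M₀ M' (D ⊔ E) = pre M₀ M' D ⊔ pre M₀ M' E := by
  unfold pre
  rw [← Subgroup.map_sup, Subgroup.comap_sup_eq _ _ _ (pp_surj M₀ M')]

theorem pre_bot (hle : M₀ ≤ M') : pre M₀ M' ⊥ = M₀ := by
  have h := pre_map M₀ M' hle ⊥
  rw [Subgroup.map_bot, Subgroup.map_bot, bot_sup_eq] at h
  exact h

theorem pre_inj {D E : Subgroup (M' ⧸ M₀.subgroupOf M')} (h : pre M₀ M' D = pre M₀ M' E) :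
    D = E :=
  Subgroup.comap_injective (pp_surj M₀ M') (Subgroup.map_injective M'.subtype_injective h)

theorem le_pre (hle : M₀ ≤ M') (D : Subgroup (M' ⧸ M₀.subgroupOf M')) : M₀ ≤ pre M₀ M' D := by
  have h := pre_sup M₀ M' ⊥ D
  rw [bot_sup_eq, pre_bot M₀ M' hle] at h
  rw [h]
  exact le_sup_left

/-- The stabilizer of a chain of the quotient. -/
def Sq (T' : Subgroup G) (τ : Finset (Subgroup (M' ⧸ M₀.subgroupOf M'))) : Subgroup G :=
  T' ⊓ ⨅ D ∈ τ, Subgroup.normalizer (pre M₀ M' D : Set G)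

theorem mem_Sq {T' : Subgroup G} {τ : Finset (Subgroup (M' ⧸ M₀.subgroupOf M'))} {t : G} :
    t ∈ Sq M₀ M' T' τ ↔ t ∈ T' ∧ ∀ D ∈ τ, Nz t (pre M₀ M' D) := by
  rw [Sq, Subgroup.mem_inf]
  simp only [Subgroup.mem_iInf]
  refine and_congr_right fun _ => forall₂_congr fun D _ => ?_
  rw [Subgroup.mem_normalizer_iff_map_conj_eq]
  rfl

/-! ### The correspondence -/

section Corr

variable [Fintype G] (𝔐 : Ideal (integralClosure ℤ ℂ)) (ℓ : ℕ)

/-- A character of defect zero of the centralizer of `R` corresponds to `ξ`. -/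
def Gd (ξ : G → ℂ) (R : Subgroup G) : Prop :=
  ∃ θ', ID ℓ (cN M₀ R) 0 θ' ∧ DGs 𝔐 M₀ R θ' ξ

theorem mem_fx (Q : Subgroup M') (a : M₀) :
    a ∈ FX (cc M₀ M') Q ↔ (a : G) ∈ cN M₀ (Q.map M'.subtype) := by
  rw [mem_FX, DP.cN, Subgroup.mem_inf, Subgroup.mem_centralizer_iff]
  constructor
  · intro h
    refine ⟨a.2, ?_⟩
    rintro _ ⟨q, hq, rfl⟩
    have h1 := congrArg Subtype.val (h q hq)
    rw [cc_apply] at h1
    exact mul_inv_eq_iff_eq_mul.1 h1
  · rintro ⟨-, h⟩ q hq
    apply Subtype.ext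
    rw [cc_apply]
    have h1 : (q : G) * a = a * q := h q ⟨q, hq, rfl⟩
    rw [h1]
    group

/-- The fixed points and the centralizer. -/
def eF (Q : Subgroup M') : ↥(FX (cc M₀ M') Q) ≃* ↥(cN M₀ (Q.map M'.subtype)) where
  toFun x := ⟨x.1.1, (mem_fx M₀ M' Q x.1).1 x.2⟩
  invFun y := ⟨⟨y.1, y.2.1⟩, (mem_fx M₀ M' Q _).2 y.2⟩
  left_inv _ := rfl
  right_inv _ := rfl
  map_mul' _ _ := rfl

theorem wt_sub {A : Type} [Group A] [Fintype A] {S S' : Subgroup A} (h : S = S') (f g : A → ℂ) :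
    wt (fun s : S => f s) (fun s : S => g s) = wt (fun s : S' => f s) (fun s : S' => g s) := by
  subst h
  rfl

theorem dgr_iff (h1 : Stmt_DGSA) (Q : Subgroup M') (θ' ξ : G → ℂ) :
    DGr 𝔐 (cc M₀ M') Q (fun n => θ' ((n : M₀) : G)) (fun n => ξ (n : G)) ↔
      DGs 𝔐 M₀ (Q.map M'.subtype) θ' ξ := by
  obtain ⟨κ, hκ, hF, hD⟩ := h1 G 𝔐 M₀ (Q.map M'.subtype)
    (fun r _ n hn => hM₀.conj_mem n hn r)
  rw [← hD θ' ξ]
  have hE : FX (cc M₀ M') Q = FX κ ⊤ := by
    ext a
    rw [mem_fx, hF]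
  have hc : ∀ (q : M') (hq : (q : G) ∈ Q.map M'.subtype) (a : M₀),
      κ ⟨q, hq⟩ a = cc M₀ M' q a := by
    intro q hq a
    apply Subtype.ext
    rw [hκ, cc_apply]
  have hw : ∀ F : M₀ → ℂ, wt (fun n : ↥(FX (cc M₀ M') Q) => θ' ((n : M₀) : G)) (fun x => F x) =
      wt (fun n : ↥(FX κ ⊤) => θ' ((n : M₀) : G)) (fun x => F x) := fun F =>
    wt_sub hE (fun a : M₀ => θ' a) F
  constructor
  · intro h F hF1 hF2 hF3
    rw [← hw F]
    apply h F hF1 _ hF3
    intro b hb x
    have h2 := hF2 ⟨(b : G), ⟨b, hb, rfl⟩⟩ trivial x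
    rw [hc] at h2
    exact h2
  · intro h F hF1 hF2 hF3
    rw [hw F]
    apply h F hF1 _ hF3
    rintro ⟨_, ⟨b, hb, rfl⟩⟩ - x
    have h2 := hF2 b hb x
    rw [← hc b ⟨b, hb, rfl⟩] at h2
    exact h2

theorem gd_iff (h1 : Stmt_DGSA) (Q : Subgroup M') (ξ : G → ℂ) :
    Gd M₀ 𝔐 ℓ ξ (Q.map M'.subtype) ↔ GQ 𝔐 ℓ (cc M₀ M') (fun a : M₀ => ξ a) Q := by
  constructor
  · rintro ⟨θ', ⟨⟨h2, h3⟩, h4⟩, h5⟩
    refine ⟨fun n => θ' ((n : M₀) : G), ?_, ?_, (dgr_iff M₀ M' 𝔐 h1 Q θ' ξ).2 h5⟩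
    · exact h2.comp_mulEquiv (eF M₀ M' Q)
    · exact (hasDefect_comp_equiv (eF M₀ M' Q)).2 h4
  · rintro ⟨θ₁, h2, h3, h4⟩
    have e1 : (fun s : ↥(cN M₀ (Q.map M'.subtype)) =>
        ext0 (fun s : ↥(cN M₀ (Q.map M'.subtype)) => θ₁ ((eF M₀ M' Q).symm s)) (s : G)) =
        fun s => θ₁ ((eF M₀ M' Q).symm s) := by
      funext s
      rw [ext0_of_mem _ s.2]
    have e2 : (fun n : ↥(FX (cc M₀ M') Q) =>
        ext0 (fun s : ↥(cN M₀ (Q.map M'.subtype)) => θ₁ ((eF M₀ M' Q).symm s)) ((n : M₀) : G)) =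
        θ₁ := by
      funext n
      rw [ext0_of_mem _ ((mem_fx M₀ M' Q n).1 n.2)]
      rfl
    refine ⟨ext0 (fun s : ↥(cN M₀ (Q.map M'.subtype)) => θ₁ ((eF M₀ M' Q).symm s)),
      ⟨⟨?_, fun x hx => ext0_of_not_mem _ hx⟩, ?_⟩, (dgr_iff M₀ M' 𝔐 h1 Q _ ξ).1 ?_⟩
    · rw [e1]
      exact h2.comp_mulEquiv (eF M₀ M' Q).symm
    · rw [e1]
      exact (hasDefect_comp_equiv (eF M₀ M' Q).symm).2 h3
    · rw [e2]
      exact h4

theorem gd_conj (h2 : Stmt_DGSC) {ξ : G → ℂ} {t : G} (ht : t ∈ sx ξ) {R : Subgroup G}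
    (h : Gd M₀ 𝔐 ℓ ξ R) : Gd M₀ 𝔐 ℓ ξ (R.map (MulAut.conj t).toMonoidHom) := by
  obtain ⟨θ', h3, h4⟩ := h
  obtain ⟨h5, h6⟩ := h2 G 𝔐 ℓ 0 t⁻¹
  have h7 := h6 M₀ M₀ R (R.map (MulAut.conj t).toMonoidHom) θ' ξ (fun x => ?_) (fun x => ?_) h4
  · refine ⟨_, h5 _ _ _ h7.1 h3, ?_⟩
    have e : (fun x => ξ (t⁻¹ * x * t⁻¹⁻¹)) = ξ := by
      funext x
      exact (sx ξ).inv_mem ht x
    rw [e] at h7
    exact h7.2
  · constructor
    · intro hx
      exact hM₀.conj_mem x hx t⁻¹
    · intro hx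
      have h8 := hM₀.conj_mem _ hx t
      have e : t * (t⁻¹ * x * t⁻¹⁻¹) * t⁻¹ = x := by group
      rwa [e] at h8
  · rw [mem_conj_iff, inv_inv]

theorem cN_bot : cN M₀ (⊥ : Subgroup G) = M₀ := by
  ext x
  rw [DP.cN, Subgroup.mem_inf, Subgroup.mem_centralizer_iff]
  constructor
  · exact fun h => h.1
  · intro h
    refine ⟨h, fun y hy => ?_⟩
    have hy' : y = 1 := hy
    rw [hy', one_mul, mul_one]

theorem gd_bot {ξ : G → ℂ} (h : ID ℓ M₀ 0 ξ) : Gd M₀ 𝔐 ℓ ξ ⊥ := by
  refine ⟨ξ, ?_, ?_⟩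
  · rw [cN_bot]
    exact h
  · intro F _ _ _
    rw [cN_bot]

end Corr

/-! ### Chains -/

theorem tp_map {A B : Type*} [Group A] [Group B] (i : A →* B) (σ : Finset (Subgroup A)) :
    tp ⊥ (mapCh i σ) = (tp ⊥ σ).map i := by
  classical
  unfold tp mapCh
  rw [sup_bot_eq, sup_bot_eq, Finset.sup_image]
  induction σ using Finset.induction_on with
  | empty => rw [Finset.sup_empty, Finset.sup_empty, Subgroup.map_bot]
  | insert a s _ ih =>
    rw [Finset.sup_insert, Finset.sup_insert, Subgroup.map_sup, ih]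
    rfl

/-- A member of a chain in terms of its image in the quotient. -/
theorem nz_tp {t : G} {σ : Finset (Subgroup M')}
    (h : ∀ D ∈ σ, Nz t (D.map M'.subtype ⊔ M₀)) : Nz t ((tp ⊥ σ).map M'.subtype ⊔ M₀) := by
  unfold tp
  rw [sup_bot_eq]
  apply Finset.sup_induction (p := fun D => Nz t (Subgroup.map M'.subtype D ⊔ M₀))
  · rw [Subgroup.map_bot, bot_sup_eq]
    exact nz_normal t M₀
  · intro a ha b hb
    have e : (a ⊔ b).map M'.subtype ⊔ M₀ =
        (a.map M'.subtype ⊔ M₀) ⊔ (b.map M'.subtype ⊔ M₀) := by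
      rw [Subgroup.map_sup, sup_sup_sup_comm, sup_idem]
    rw [e]
    exact ha.sup hb
  · exact h

theorem disj_iff (hle : M₀ ≤ M') (D : Subgroup M') :
    D ⊓ (Subgroup.inclusion hle).range = ⊥ ↔ D.map M'.subtype ⊓ M₀ = ⊥ := by
  rw [Subgroup.inclusion_range hle]
  constructor
  · intro h
    rw [eq_bot_iff]
    rintro _ ⟨⟨x, hx, rfl⟩, hx2⟩
    have h1 : x ∈ D ⊓ M₀.subgroupOf M' := ⟨hx, hx2⟩
    rw [h, Subgroup.mem_bot] at h1
    rw [h1, map_one]
    exact Subgroup.one_mem _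
  · intro h
    rw [eq_bot_iff]
    rintro x ⟨hx1, hx2⟩
    have h1 : (x : G) ∈ D.map M'.subtype ⊓ M₀ := ⟨⟨x, hx1, rfl⟩, hx2⟩
    rw [h, Subgroup.mem_bot] at h1
    rw [Subgroup.mem_bot]
    exact Subtype.ext h1

theorem st_eq (hle : M₀ ≤ M') [Fintype G] (𝔐 : Ideal (integralClosure ℤ ℂ)) (ℓ : ℕ)
    [Fact ℓ.Prime] (hM : 𝔐.IsMaximal) (hℓ : (ℓ : integralClosure ℤ ℂ) ∈ 𝔐)
    (h1 : Stmt_DGSA) (h2 : Stmt_DGSC) (h4 : Stmt_DGU) {ξ : G → ℂ} (hξ : ID ℓ M₀ 0 ξ)
    {T' : Subgroup G} (hT0 : M₀ ≤ T') (hT : T' ≤ sx ξ)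
    (hTM : ∀ g ∈ T', ∀ x ∈ M', g * x * g⁻¹ ∈ M') {σ : Finset (Subgroup M')}
    (hp : IsPGroup ℓ ↥(tp ⊥ σ)) (ho : (tp ⊥ σ) ⊓ (Subgroup.inclusion hle).range = ⊥)
    (hG : Gd M₀ 𝔐 ℓ ξ ((tp ⊥ σ).map M'.subtype)) :
    stb (mapCh M'.subtype σ) ⊓ T' ⊔ M₀ = Sq M₀ M' T' (mapCh (pp M₀ M') σ) := by
  apply le_antisymm
  · apply sup_le
    · rintro t ⟨ht1, ht2⟩
      rw [mem_Sq]
      refine ⟨ht2, fun D hD => ?_⟩
      obtain ⟨E, hE, rfl⟩ := mem_mapCh.mp hD
      rw [pre_map M₀ M' hle]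
      exact Nz.sup (mem_stb.mp ht1 _ (mem_mapCh.mpr ⟨E, hE, rfl⟩)) (nz_normal t M₀)
    · intro a ha
      rw [mem_Sq]
      exact ⟨hT0 ha, fun D _ => nz_of_mem (le_pre M₀ M' hle D ha)⟩
  · intro t ht
    rw [mem_Sq] at ht
    obtain ⟨ht1, ht2⟩ := ht
    have ht3 : ∀ D ∈ σ, Nz t (D.map M'.subtype ⊔ M₀) := by
      intro D hD
      rw [← pre_map M₀ M' hle]
      exact ht2 _ (mem_mapCh.mpr ⟨D, hD, rfl⟩)
    have ht4 := nz_tp M₀ M' ht3
    -- the conjugate
    have hQM : ((tp ⊥ σ).map M'.subtype).map (MulAut.conj t).toMonoidHom ≤ M' := by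
      intro x hx
      rw [mem_conj_iff] at hx
      obtain ⟨y, _, hy⟩ := hx
      have h5 := hTM t ht1 y y.2
      have e : t * (y : G) * t⁻¹ = x := by
        have h6 : (y : G) = t⁻¹ * x * t := hy
        rw [h6]
        group
      rwa [e] at h5
    have hQ2 : ((((tp ⊥ σ).map M'.subtype).map (MulAut.conj t).toMonoidHom).subgroupOf M').map
        M'.subtype = ((tp ⊥ σ).map M'.subtype).map (MulAut.conj t).toMonoidHom :=
      Subgroup.map_subgroupOf_eq_of_le hQM
    have hd := (disj_iff M₀ M' hle _).mp ho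
    have hirr : IsIrr (fun a : M₀ => ξ a) := hξ.1.1
    have hex := h4 M₀ M' (M' ⧸ M₀.subgroupOf M') 𝔐 ℓ hM hℓ (Subgroup.inclusion hle)
      (cc M₀ M') (pp M₀ M') (clg M₀ M' hle) (fun a : M₀ => ξ a) hirr hξ.2
      ((((tp ⊥ σ).map M'.subtype).map (MulAut.conj t).toMonoidHom).subgroupOf M') (tp ⊥ σ)
      (((hp.map M'.subtype).map (MulAut.conj t).toMonoidHom).comap_of_injective _
        M'.subtype_injective) hp ?_ ho ?_ ?_ ((gd_iff M₀ M' 𝔐 ℓ h1 _ ξ).1 hG)
    · obtain ⟨a, ha⟩ := hex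
      have hs : Nz ((a : G) * t) ((tp ⊥ σ).map M'.subtype) := by
        have h5 := congrArg (Subgroup.map M'.subtype) ha
        rw [map_map_conj, hQ2, map_conj_mul] at h5
        exact h5
      have hst : (a : G) * t ∈ stb (mapCh M'.subtype σ) := by
        rw [mem_stb]
        intro D' hD'
        obtain ⟨D, hD, rfl⟩ := mem_mapCh.mp hD'
        have h5 : D.map M'.subtype ≤ (tp ⊥ σ).map M'.subtype :=
          Subgroup.map_mono (le_sup_of_le_left (Finset.le_sup (f := id) hD))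
        have h6 : Nz ((a : G) * t)
            ((tp ⊥ σ).map M'.subtype ⊓ (D.map M'.subtype ⊔ M₀)) :=
          hs.inf ((nz_of_mem (Subgroup.mem_sup_right a.2)).mul (ht3 D hD))
        rw [dedekind h5 hd] at h6
        exact h6
      have h7 : t = (a : G)⁻¹ * ((a : G) * t) := by group
      rw [h7]
      exact Subgroup.mul_mem _ (Subgroup.mem_sup_right (M₀.inv_mem a.2))
        (Subgroup.mem_sup_left ⟨hst, T'.mul_mem (hT0 a.2) ht1⟩)
    · rw [disj_iff M₀ M' hle, hQ2]
      have h5 : Nz t M₀ := nz_normal t M₀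
      have h6 : ((tp ⊥ σ).map M'.subtype).map (MulAut.conj t).toMonoidHom ⊓ M₀ =
          ((tp ⊥ σ).map M'.subtype ⊓ M₀).map (MulAut.conj t).toMonoidHom := by
        rw [Subgroup.map_inf _ _ _ (conj_injective t), h5]
      rw [h6, hd, Subgroup.map_bot]
    · apply pre_inj M₀ M'
      rw [pre_map M₀ M' hle, pre_map M₀ M' hle, hQ2]
      have h5 : Nz t M₀ := nz_normal t M₀
      have h6 := ht4
      unfold Nz at h5 h6
      rw [Subgroup.map_sup, h5] at h6
      exact h6
    · apply (gd_iff M₀ M' 𝔐 ℓ h1 _ ξ).1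
      rw [hQ2]
      exact gd_conj M₀ 𝔐 ℓ h2 (hT ht1) hG

theorem card_eq (hle : M₀ ≤ M') [Fintype G] {T' : Subgroup G} (hT0 : M₀ ≤ T')
    {σ : Finset (Subgroup M')}
    (hj : ∀ a, Subgroup.inclusion hle a ∈ stb σ ↔ a ∈ FX (cc M₀ M') (tp ⊥ σ)) :
    Nat.card ↥(stb (mapCh M'.subtype σ) ⊓ T') * Nat.card M₀ =
      Nat.card (FX (cc M₀ M') (tp ⊥ σ)) * Nat.card ↥(stb (mapCh M'.subtype σ) ⊓ T' ⊔ M₀) := by
  rw [card_sup]
  congr 1
  have h : ∀ a : M₀, a ∈ FX (cc M₀ M') (tp ⊥ σ) ↔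
      (a : G) ∈ M₀ ⊓ (stb (mapCh M'.subtype σ) ⊓ T') := by
    intro a
    rw [← hj, ← comap_stb_mapCh M'.subtype_injective σ, Subgroup.mem_comap]
    constructor
    · intro h1
      exact ⟨a.2, h1, hT0 a.2⟩
    · intro h1
      exact h1.2.1
  apply Nat.card_congr
  exact
    { toFun := fun x => ⟨⟨x.1, x.2.1⟩, (h _).2 x.2⟩
      invFun := fun y => ⟨y.1.1, (h y.1).1 y.2⟩
      left_inv := fun _ => rfl
      right_inv := fun _ => rfl }

end Frame

end DZB

open _root_.Pool.Agent.DPT.DZB in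
open Classical in
/-- DZB: the contribution of one character. -/
theorem DZB_thm (h1 : Stmt_DGSA) (h2 : Stmt_DGSC) (h3 : Stmt_DGE) (h4 : Stmt_DGU)
    (h5 : Stmt_ZF) (h6 : Stmt_ZST) : Stmt_DZB := by
  intro G _ _ 𝔐 ℓ _ hM hℓ M₀ hM₀ ξ hξ M' T' O hT0 hM' hT hO1 hO2 hOp hMO hTO hTM W
  have : M₀.Normal := hM₀
  have hle : M₀ ≤ M' := hO1.le.trans hO2
  have : Fintype (M' ⧸ M₀.subgroupOf M') := Fintype.ofFinite _
  have hC := clg M₀ M' hle
  have hirr : IsIrr (fun a : M₀ => ξ a) := hξ.1.1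
  have hinv : ∀ (x : M') (a : M₀), ξ ((cc M₀ M' x a : M₀) : G) = ξ (a : G) := by
    intro x a
    rw [cc_apply]
    exact hM' x.2 a
  -- the function on the chains of the quotient
  let Φ : Finset (Subgroup (M' ⧸ M₀.subgroupOf M')) → ℚ := fun τ =>
    (Nat.card (Sq M₀ M' T' τ) : ℚ) / Nat.card M₀ * W (Sq M₀ M' T' τ)
  have hZ0 : (⊥ : Subgroup M') ⊓ (Subgroup.inclusion hle).range = ⊥ := bot_inf_eq _
  have hZP : IsPGroup ℓ ↥(⊥ : Subgroup M') := IsPGroup.of_bot
  have hM0c : (Nat.card M₀ : ℚ) ≠ 0 := by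
    have : Nat.card M₀ ≠ 0 := Nat.card_pos.ne'
    exact_mod_cast this
  have key : ∀ σ : Finset (Subgroup M'), σ ∈ OutC ℓ ⊥ (Subgroup.inclusion hle).range →
      Gd M₀ 𝔐 ℓ ξ ((tp ⊥ σ).map M'.subtype) →
      (Nat.card ↥(stb (mapCh M'.subtype σ) ⊓ T') : ℚ) *
          W (stb (mapCh M'.subtype σ) ⊓ T' ⊔ M₀) =
        (Nat.card (FX (cc M₀ M') (tp ⊥ σ)) : ℚ) * Φ (mapCh (pp M₀ M') σ) := by
    intro σ hσ hG
    rw [OutC, Finset.mem_filter, mem_Ch] at hσ
    obtain ⟨g1, g2, -, -, -, -, -, g3, -⟩ := h6 M₀ M' (M' ⧸ M₀.subgroupOf M') ℓ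
      (Subgroup.inclusion hle) (cc M₀ M') (pp M₀ M') hC (pp_surj M₀ M') ⊥ hZP hZ0 σ hσ.1 hσ.2
    have e1 := st_eq M₀ M' hle 𝔐 ℓ hM hℓ h1 h2 h4 hξ hT0 hT hTM g1 g2 hG
    have e2 := card_eq M₀ M' hle hT0 g3
    rw [e1] at e2 ⊢
    have e3 : (Nat.card ↥(stb (mapCh M'.subtype σ) ⊓ T') : ℚ) * Nat.card M₀ =
        Nat.card (FX (cc M₀ M') (tp ⊥ σ)) *
          Nat.card ↥(Sq M₀ M' T' (mapCh (pp M₀ M') σ)) := by
      exact_mod_cast e2
    change _ = (Nat.card (FX (cc M₀ M') (tp ⊥ σ)) : ℚ) *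
      ((Nat.card (Sq M₀ M' T' (mapCh (pp M₀ M') σ)) : ℚ) / Nat.card M₀ *
        W (Sq M₀ M' T' (mapCh (pp M₀ M') σ)))
    have e4 : (Nat.card ↥(stb (mapCh M'.subtype σ) ⊓ T') : ℚ) =
        Nat.card (FX (cc M₀ M') (tp ⊥ σ)) *
          Nat.card ↥(Sq M₀ M' T' (mapCh (pp M₀ M') σ)) / Nat.card M₀ := by
      rw [eq_div_iff hM0c]
      exact e3
    rw [e4]
    ring
  -- the chains of `M'`
  have hsum : ∑ c ∈ (OutC ℓ (⊥ : Subgroup G) M₀).filter (fun c => (∀ D ∈ c, D ≤ M') ∧
        ∃ θ', ID ℓ (cN M₀ (tp ⊥ c)) 0 θ' ∧ DGs 𝔐 M₀ (tp ⊥ c) θ' ξ),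
      (-1 : ℚ) ^ c.card * ((Nat.card ↥(stb c ⊓ T') : ℚ) * W (stb c ⊓ T' ⊔ M₀)) =
      ∑ σ ∈ OutC ℓ ⊥ (Subgroup.inclusion hle).range, (-1 : ℚ) ^ σ.card *
        (if Gd M₀ 𝔐 ℓ ξ ((tp ⊥ σ).map M'.subtype) then
          (Nat.card (FX (cc M₀ M') (tp ⊥ σ)) : ℚ) * Φ (mapCh (pp M₀ M') σ) else 0) := by
    have e1 : ∀ σ ∈ OutC ℓ ⊥ (Subgroup.inclusion hle).range, (-1 : ℚ) ^ σ.card *
        (if Gd M₀ 𝔐 ℓ ξ ((tp ⊥ σ).map M'.subtype) then
          (Nat.card (FX (cc M₀ M') (tp ⊥ σ)) : ℚ) * Φ (mapCh (pp M₀ M') σ) else 0) =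
        if Gd M₀ 𝔐 ℓ ξ ((tp ⊥ σ).map M'.subtype) then (-1 : ℚ) ^ σ.card *
          ((Nat.card ↥(stb (mapCh M'.subtype σ) ⊓ T') : ℚ) *
            W (stb (mapCh M'.subtype σ) ⊓ T' ⊔ M₀)) else 0 := by
      intro σ hσ
      split_ifs with hG
      · rw [key σ hσ hG]
      · rw [mul_zero]
    rw [Finset.sum_congr rfl e1, ← Finset.sum_filter]
    symm
    apply Finset.sum_bij (fun σ _ => mapCh M'.subtype σ)
    · intro σ hσ
      rw [Finset.mem_filter, OutC, Finset.mem_filter, mem_Ch] at hσ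
      rw [Finset.mem_filter, OutC, Finset.mem_filter, mem_Ch]
      obtain ⟨⟨g1, g2⟩, g3⟩ := hσ
      refine ⟨⟨?_, ?_⟩, ?_, ?_⟩
      · have g4 := (isCh_mapCh_iff M'.subtype_injective (ℓ := ℓ) (Z := ⊥) (τ := σ)).mpr g1
        rw [Subgroup.map_bot] at g4
        exact g4
      · intro D' hD'
        obtain ⟨D, hD, rfl⟩ := mem_mapCh.mp hD'
        exact (disj_iff M₀ M' hle D).mp (g2 D hD)
      · intro D' hD'
        obtain ⟨D, hD, rfl⟩ := mem_mapCh.mp hD'
        exact Subgroup.map_subtype_le D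
      · rw [tp_map]
        exact g3
    · intro a _ b _ h
      exact mapCh_injective M'.subtype_injective h
    · intro c hc
      rw [Finset.mem_filter, OutC, Finset.mem_filter, mem_Ch] at hc
      obtain ⟨⟨g1, g2⟩, g3, g4⟩ := hc
      obtain ⟨σ, rfl⟩ := exists_mapCh (i := M'.subtype) (σ := c) (by
        intro D hD
        rw [Subgroup.range_subtype]
        exact g3 D hD)
      refine ⟨σ, ?_, rfl⟩
      rw [Finset.mem_filter, OutC, Finset.mem_filter, mem_Ch]
      refine ⟨⟨?_, ?_⟩, ?_⟩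
      · rw [← isCh_mapCh_iff M'.subtype_injective, Subgroup.map_bot]
        exact g1
      · intro D hD
        exact (disj_iff M₀ M' hle D).mpr (g2 _ (mem_mapCh.mpr ⟨D, hD, rfl⟩))
      · rw [tp_map] at g4
        exact g4
    · intro σ _
      rw [card_mapCh M'.subtype_injective]
  rw [hsum]
  have hZF := h5 M₀ M' (M' ⧸ M₀.subgroupOf M') ℓ (Subgroup.inclusion hle) (cc M₀ M')
    (pp M₀ M') hC (pp_surj M₀ M') ⊥ hZP hZ0
    (fun Q => Gd M₀ 𝔐 ℓ ξ (Q.map M'.subtype)) ?_ ?_ ?_ ?_ ?_ ?_ Φ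
  · refine Eq.trans hZF ?_
    rw [Subgroup.map_bot]
    -- the normal subgroup of the quotient
    have hON : (O.subgroupOf M').Normal := by
      constructor
      intro x hx g
      exact hMO g g.2 x hx
    have : ((O.subgroupOf M').map (pp M₀ M')).Normal := hON.map _ (pp_surj M₀ M')
    have hOpre : pre M₀ M' ((O.subgroupOf M').map (pp M₀ M')) = O := by
      rw [pre_map M₀ M' hle, Subgroup.map_subgroupOf_eq_of_le hO2]
      exact sup_eq_left.mpr hO1.le
    have hOP : IsPGroup ℓ ↥((O.subgroupOf M').map (pp M₀ M')) := by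
      rintro ⟨_, ⟨x, hx, rfl⟩⟩
      obtain ⟨n, hn⟩ := hOp x hx
      refine ⟨n, ?_⟩
      apply Subtype.ext
      change (pp M₀ M' x) ^ ℓ ^ n = 1
      rw [← map_pow]
      exact (hC.ker _).mpr ⟨⟨_, hn⟩, rfl⟩
    have hO0 : ⊥ < (O.subgroupOf M').map (pp M₀ M') := by
      rw [bot_lt_iff_ne_bot]
      intro h
      rw [h, pre_bot M₀ M' hle] at hOpre
      exact hO1.ne hOpre
    have ht := toggle (ℓ := ℓ) ((O.subgroupOf M').map (pp M₀ M')) hOP hO0
      (fun (t : G) D => t ∈ T' → Nz t (pre M₀ M' D)) ?_ ?_ ?_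
      (fun S => (Nat.card (Subgroup.closure ((T' : Set G) ∩ S)) : ℚ) / Nat.card M₀ *
        W (Subgroup.closure ((T' : Set G) ∩ S)))
    · have hSt : ∀ τ : Finset (Subgroup (M' ⧸ M₀.subgroupOf M')),
          Subgroup.closure ((T' : Set G) ∩ {t | ∀ D ∈ τ, t ∈ T' → Nz t (pre M₀ M' D)}) =
            Sq M₀ M' T' τ := by
        intro τ
        rw [← Subgroup.closure_eq (Sq M₀ M' T' τ)]
        congr 1
        ext t
        rw [SetLike.mem_coe, mem_Sq]
        constructor
        · rintro ⟨g1, g2⟩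
          exact ⟨g1, fun D hD => g2 D hD g1⟩
        · rintro ⟨g1, g2⟩
          exact ⟨g1, fun D hD _ => g2 D hD⟩
      simp only [hSt] at ht
      rw [ht, mul_zero]
    · intro t _
      rw [pre_bot M₀ M' hle]
      exact nz_normal t M₀
    · intro t D E g1 g2 g3
      rw [pre_sup]
      exact (g1 g3).sup (g2 g3)
    · intro t ht
      rw [hOpre]
      exact nz_of_conj hTO ht
  · intro Q a hQ
    rw [Pool.Agent.DP.QC.map_map_conj]
    exact gd_conj M₀ 𝔐 ℓ h2 (hM' (hle a.2)) hQ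
  · rw [Subgroup.map_bot]
    exact gd_bot M₀ 𝔐 ℓ hξ
  · intro a
    rw [mem_FX]
    intro b hb
    rw [Subgroup.mem_bot] at hb
    rw [hb, map_one, MulAut.one_apply]
  · intro Qb hQb
    obtain ⟨Q, g1, g2, g3, g4⟩ := h3 M₀ M' (M' ⧸ M₀.subgroupOf M') 𝔐 ℓ hM hℓ
      (Subgroup.inclusion hle) (cc M₀ M') (pp M₀ M') hC Qb hQb
      (by
        rw [MonoidHom.range_eq_top.mpr (pp_surj M₀ M')]
        exact le_top)
      (fun a : M₀ => ξ a) hirr hξ.2 (fun x _ a => hinv x a)
    exact ⟨Q, g1, g2, g3, (gd_iff M₀ M' 𝔐 ℓ h1 Q ξ).2 g4⟩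
  · intro Q₁ Q₂ g1 g2 g3 g4 g5 g6 g7
    exact h4 M₀ M' (M' ⧸ M₀.subgroupOf M') 𝔐 ℓ hM hℓ
      (Subgroup.inclusion hle) (cc M₀ M') (pp M₀ M') hC (fun a : M₀ => ξ a) hirr hξ.2 Q₁ Q₂
      g1 g2 g3 g4 g5 ((gd_iff M₀ M' 𝔐 ℓ h1 Q₁ ξ).1 g6) ((gd_iff M₀ M' 𝔐 ℓ h1 Q₂ ξ).1 g7)
  · intro Q _ _ _ _
    exact bot_le

end Pool.Agent.DPT


end

section

/-!
# OUTF: a family for a nonvanishing chain sum
-/

namespace Pool.Agent.DPT

open Pool.Agent.DP Pool.Agent.DPC Pool.Agent.DPM Pool.Agent.DPN Pool.Agent.Lib_helper13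
open Representation
open Pool.Agent.Lib_helper13.Dade (pCore DadeHolds dadeSum)

namespace OUTF

theorem DK_equiv {Y Y' X : Type} [Group Y] [Fintype Y] [Group Y'] [Fintype Y'] [Group X]
    (𝔐 : Ideal (integralClosure ℤ ℂ)) (ℓ d : ℕ) (e : Y ≃* Y') (Z : Subgroup Y) (i : Y' →* X)
    (P : Set (X → (integralClosure ℤ ℂ) ⧸ 𝔐)) :
    DK 𝔐 ℓ d (Z.map e.toMonoidHom) i P = DK 𝔐 ℓ d Z (i.comp e.toMonoidHom) P := by
  rw [DK, DK, sum_Ch_equiv]
  refine Finset.sum_congr rfl fun τ _ => ?_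
  rw [card_mapCh (i := e.toMonoidHom) e.injective, stb_mapCh_equiv]
  congr 2
  · congr 1
    exact (Nat.card_congr ((stb τ).equivMapOfInjective _ e.injective).toEquiv).symm
  · congr 1
    symm
    apply card_irr_equiv ((stb τ).equivMapOfInjective e.toMonoidHom e.injective)
    intro ψ _
    rw [hasDefect_comp_equiv]
    have h1 : (i.comp e.toMonoidHom).comp (stb τ).subtype =
        (i.comp ((stb τ).map e.toMonoidHom).subtype).comp
          ((stb τ).equivMapOfInjective e.toMonoidHom e.injective).toMonoidHom := rfl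
    rw [h1, cen_comp_equiv]

/-- The isomorphism of the whole group. -/
noncomputable def eT {X : Type} [Group X] (S : Subgroup X) (hS : S = ⊤) : S ≃* X :=
  MulEquiv.ofBijective S.subtype ⟨S.subtype_injective, by
    rw [← MonoidHom.range_eq_top, Subgroup.range_subtype, hS]⟩

theorem DK_top {X : Type} [Group X] [Fintype X] (𝔐 : Ideal (integralClosure ℤ ℂ)) (ℓ d : ℕ)
    (S : Subgroup X) (hS : S = ⊤) (Z : Subgroup X) (P : Set (X → (integralClosure ℤ ℂ) ⧸ 𝔐)) :
    DK 𝔐 ℓ d (Z.subgroupOf S) S.subtype P = DK 𝔐 ℓ d Z (MonoidHom.id X) P := by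
  have h1 : (eT S hS).toMonoidHom = S.subtype := rfl
  have h2 : (Z.subgroupOf S).map (eT S hS).toMonoidHom = Z := by
    rw [h1, Subgroup.map_subgroupOf_eq_of_le (by rw [hS]; exact le_top)]
  have h3 := DK_equiv 𝔐 ℓ d (eT S hS) (Z.subgroupOf S) (MonoidHom.id X) P
  rw [h2] at h3
  rw [h3]
  rfl

theorem sub_zero {O X H : Type} [Group O] [Fintype O] [Group X] [Fintype X] [Group H] [Fintype H]
    (h2 : Stmt_DKV)
    (𝔐 : Ideal (integralClosure ℤ ℂ)) (ℓ : ℕ) [Fact ℓ.Prime] (hM : 𝔐.IsMaximal)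
    (hl : (ℓ : integralClosure ℤ ℂ) ∈ 𝔐) (j : O →* X) (c : X →* MulAut O) (p : X →* H)
    (h : ClG j c p) (hp : Function.Surjective p) (n : ℕ) (hn : HQ ℓ n)
    (hC : Subgroup.center X ≤ j.range) (hi : (Subgroup.center X).index ≤ n + 1)
    (Z : Subgroup O) (hZ : IsPGroup ℓ Z) (hZj : Z.map j ≤ Subgroup.center X) (d : ℕ)
    (P : Set (X → (integralClosure ℤ ℂ) ⧸ 𝔐)) (hd : padicValNat ℓ (Nat.card Z) < d)
    (V : Subgroup H) (hV : V ≠ ⊤) :
    DK 𝔐 ℓ d ((Z.map j).subgroupOf (V.comap p)) (V.comap p).subtype P = 0 := by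
  have hCY : Subgroup.center X ≤ V.comap p := by
    intro x hx
    rw [Subgroup.mem_comap, (h.ker x).mpr (hC hx)]
    exact V.one_mem
  have hCc : (Subgroup.center X).subgroupOf (V.comap p) ≤ Subgroup.center (V.comap p) := by
    intro x hx
    rw [Subgroup.mem_center_iff]
    intro y
    apply Subtype.ext
    exact Subgroup.mem_center_iff.mp (Subgroup.mem_subgroupOf.mp hx) y
  have hidx : (Subgroup.center (V.comap p)).index ≤ n := by
    have e1 : (Subgroup.center (V.comap p)).index ∣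
        ((Subgroup.center X).subgroupOf (V.comap p)).index := Subgroup.index_dvd_of_le hCc
    have e2 : (Subgroup.center X).relIndex (V.comap p) * (V.comap p).index =
        (Subgroup.center X).index := Subgroup.relIndex_mul_index hCY
    have e3 : (V.comap p).index = V.index := Subgroup.index_comap_of_surjective V hp
    have e4 : V.index ≠ 0 := Subgroup.index_ne_zero_of_finite
    have e5 : V.index ≠ 1 := fun h5 => hV (Subgroup.index_eq_one.mp h5)
    have e6 : (Subgroup.center X).relIndex (V.comap p) ≠ 0 := by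
      change ((Subgroup.center X).subgroupOf (V.comap p)).index ≠ 0
      exact Subgroup.index_ne_zero_of_finite
    have e7 : (Subgroup.center (V.comap p)).index ≤ (Subgroup.center X).relIndex (V.comap p) :=
      Nat.le_of_dvd (Nat.pos_of_ne_zero e6) e1
    rw [e3] at e2
    have e8 : 2 ≤ V.index := by omega
    have e9 : (Subgroup.center X).relIndex (V.comap p) * 2 ≤ (Subgroup.center X).index := by
      rw [← e2]
      exact Nat.mul_le_mul_left _ e8
    omega
  have hZY : Z.map j ≤ V.comap p := hZj.trans hCY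
  refine h2 (V.comap p) X 𝔐 ℓ hM hl n hn hidx ((Z.map j).subgroupOf (V.comap p)) ?_ ?_ d ?_ _ P
  · intro x hx
    apply hCc
    exact Subgroup.mem_subgroupOf.mpr (hZj (Subgroup.mem_subgroupOf.mp hx))
  · exact (hZ.map j).comap_subtype
  · have e1 : Nat.card ((Z.map j).subgroupOf (V.comap p)) = Nat.card Z := by
      rw [Nat.card_congr (Subgroup.subgroupOfEquivOfLe hZY).toEquiv]
      exact (Nat.card_congr (Z.equivMapOfInjective j h.inj).toEquiv).symm
    rw [e1]
    exact hd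

end OUTF

open _root_.Pool.Agent.DPT.OUTF in
open Classical in
/-- OUTF -/
theorem OUTF_thm (h1 : Stmt_FF) (h2 : Stmt_DKV) (h3 : Stmt_FNA) (h4 : Stmt_FAM) (h5 : Stmt_ABQ)
    (_h6 : Stmt_RCE) : Stmt_OUTF := by
  intro O X H _ _ _ _ _ _ 𝔐 ℓ _ hM hl j c p h hp hH n hn hC hi hHn Z hZ hZj d ω hd hne
  obtain ⟨m, hm⟩ := (MOBX_thm H).1
  have hm1 : m ⊤ = 1 := ((MOBX_thm H).2 m hm).1
  have hHQ : HQ ℓ (Nat.card H) := fun Y _ _ a b => hn Y a (b.trans hHn)
  -- the sum is not zero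
  have hFF := h1 O X H 𝔐 ℓ j c p h hp hH Z m hm d {ω}
  have hL : ∑ V, m V * DK 𝔐 ℓ d ((Z.map j).subgroupOf (V.comap p)) (V.comap p).subtype {ω} =
      DK 𝔐 ℓ d (Z.map j) (MonoidHom.id X) {ω} := by
    rw [Finset.sum_eq_single (⊤ : Subgroup H)]
    · rw [hm1, one_mul]
      exact DK_top 𝔐 ℓ d ((⊤ : Subgroup H).comap p) (Subgroup.comap_top p) (Z.map j) {ω}
    · intro V _ hV
      rw [sub_zero h2 𝔐 ℓ hM hl j c p h hp n hn hC hi Z hZ hZj d {ω} hd V hV, mul_zero]
    · intro h'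
      exact absurd (Finset.mem_univ _) h'
  rw [hL] at hFF
  rw [hFF] at hne
  obtain ⟨τ, hτ, k1⟩ := Finset.exists_ne_zero_of_sum_ne_zero hne
  obtain ⟨θ, hθ, k2⟩ := Finset.exists_ne_zero_of_sum_ne_zero (right_ne_zero_of_mul k1)
  have k3 := right_ne_zero_of_mul k2
  rw [Finset.mem_filter, mem_irrF] at hθ
  obtain ⟨hirr, hFP⟩ := hθ
  have hPr := h3 O X H 𝔐 ℓ hM hl j c p h hH hHQ Z d ω m hm τ hτ θ hirr hFP k3 τ hτ θ hirr hFP k3
  obtain ⟨W, _, _, π, R, μ, Lm, hF⟩ := h4 O X H 𝔐 ℓ hM hl j c p h hH hHQ d Z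
    (cen 𝔐 (stb τ).subtype θ)
  obtain ⟨hR, hRi, _⟩ := h5 O X H W 𝔐 ℓ hM hl j c p h d Z _ π R μ Lm hF τ θ hPr m hm ω k3
  exact ⟨W, inferInstance, inferInstance, π, R, μ, Lm, τ, θ, hF, hPr,
    FNA.key 𝔐 ℓ h d ω m τ θ hirr k3, hR, hRi⟩

end Pool.Agent.DPT


end

section

/-!
# T2D: the relations imply that the Moebius sums of the numbers of characters cancel
-/

namespace Pool.Agent.DPF

open Pool.Agent.DP Pool.Agent.DPC Pool.Agent.DPM Pool.Agent.DPN Pool.Agent.Lib_helper13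
  Representation
open Pool.Agent.Lib_helper13.Dade (pCore DadeHolds dadeSum)

namespace T2D

/-- The order of an inverse image. -/
theorem card_comap {L K : Type} [Group L] [Finite L] [Group K] [Finite K] (π : L →* K)
    (hs : Function.Surjective π) (V : Subgroup K) :
    Nat.card ↥(V.comap π) = Nat.card π.ker * Nat.card V := by
  have h1 : (V.comap π).index = V.index := V.index_comap_of_surjective hs
  have h2 : (V.comap π).index * Nat.card ↥(V.comap π) = Nat.card L :=
    (V.comap π).index_mul_card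
  have h3 : V.index * Nat.card V = Nat.card K := V.index_mul_card
  have h4 : π.ker.index * Nat.card π.ker = Nat.card L := π.ker.index_mul_card
  have h5 : π.ker.index = Nat.card K := by
    rw [Subgroup.index_ker, MonoidHom.range_eq_top.mpr hs]
    exact Nat.card_congr Subgroup.topEquiv.toEquiv
  have h6 : 0 < V.index := Nat.pos_of_ne_zero Subgroup.index_ne_zero_of_finite
  have h7 : V.index * Nat.card ↥(V.comap π) = V.index * (Nat.card π.ker * Nat.card V) := by
    rw [h1] at h2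
    rw [h2, ← h4, h5, ← h3]
    ring
  exact Nat.eq_of_mul_eq_mul_left h6 h7

/-- The number of the characters of a defect `e` with `e + d = n`. -/
theorem cnt_split {X : Type} (A B : X → Prop) (D : X → ℕ → Prop) (d n : ℕ) :
    Nat.card {η : X // A η ∧ B η ∧ ∃ e, D η e ∧ e + d = n} =
      ∑ e ∈ Finset.range (n + 1),
        if e + d = n then Nat.card {η : X // A η ∧ B η ∧ D η e} else 0 := by
  by_cases h : d ≤ n
  · rw [Finset.sum_eq_single (n - d)]
    · rw [if_pos (by omega)]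
      refine Nat.card_congr (Equiv.subtypeEquivRight (fun η => ⟨?_, ?_⟩))
      · rintro ⟨h1, h2, e, h3, h4⟩
        have h5 : e = n - d := by omega
        subst h5
        exact ⟨h1, h2, h3⟩
      · rintro ⟨h1, h2, h3⟩
        exact ⟨h1, h2, n - d, h3, by omega⟩
    · intro b _ hb
      exact if_neg (by omega)
    · intro hb
      exact absurd (Finset.mem_range.mpr (by omega)) hb
  · rw [Finset.sum_eq_zero (fun e _ => if_neg (by omega))]
    refine Nat.card_eq_zero.mpr (Or.inl ⟨?_⟩)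
    rintro ⟨η, _, _, e, _, h4⟩
    omega

/-- The element is a commutator of generators. -/
theorem ins {W H : Type} [Group W] [Group H] (π : W →* H) (P : Subgroup H) (hP : P.Normal)
    {x y : W} (hxy : Subgroup.closure {x, y} ⊔ P.comap π = ⊤) (S : Subgroup W)
    (hS : S ≤ P.comap π) (a : W) (ha : a⁻¹ * (x * y * x⁻¹ * y⁻¹) ∈ ⁅S, S⁆) :
    InS π P a⁻¹ := by
  have hN : (P.comap π).Normal := hP.comap π
  have hC : (⁅P.comap π, P.comap π⁆ : Subgroup W).Normal := Subgroup.commutator_normal _ _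
  refine ⟨y, x, (x * y * x⁻¹ * y⁻¹) * (a⁻¹ * (x * y * x⁻¹ * y⁻¹)) * (x * y * x⁻¹ * y⁻¹)⁻¹,
    ?_, ?_, ?_⟩
  · rw [Set.pair_comm]
    exact hxy
  · exact hC.conj_mem _ (Subgroup.commutator_mono hS hS ha) _
  · group

end T2D

open Classical in
/-- T2D. -/
theorem T2D_thm (h1 : Stmt_EDV) (h2 : Stmt_EDL) (h3 : Stmt_EDC) (h4 : Stmt_MBX) : Stmt_T2D := by
  intro W H ι _ _ _ _ _ ℓ _ π hπ P hP s d ν hν hrel m hm n
  have hA : (Nat.card π.ker : ℂ) ≠ 0 := by
    exact_mod_cast Nat.card_pos.ne'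
  -- the values at the commutators
  have key : ∀ x y : W, ∑ i, (s i : ℂ) * ∑ e ∈ Finset.range (n + 1),
      (if e + d i = n then ∑ V : Subgroup H, (m V : ℂ) * (if π x ∈ V ∧ π y ∈ V then
        ed ((V ⊓ P).comap π) (fun κ => OvL π.ker (ν i) _ κ ∧ HasDefect ℓ κ e)
          (x * y * x⁻¹ * y⁻¹) else 0) else 0) = 0 := by
    intro x y
    obtain ⟨hM, -⟩ := h4 W H π hπ P m hm x y
    by_cases hg : Subgroup.closure {x, y} ⊔ P.comap π = ⊤
    · apply mul_left_cancel₀ hA
      rw [mul_zero]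
      calc (Nat.card π.ker : ℂ) * ∑ i, (s i : ℂ) * ∑ e ∈ Finset.range (n + 1),
          (if e + d i = n then ∑ V : Subgroup H, (m V : ℂ) * (if π x ∈ V ∧ π y ∈ V then
            ed ((V ⊓ P).comap π) (fun κ => OvL π.ker (ν i) _ κ ∧ HasDefect ℓ κ e)
              (x * y * x⁻¹ * y⁻¹) else 0) else 0)
          = ∑ i, ∑ e ∈ Finset.range (n + 1), ∑ V : Subgroup H, ∑ a : π.ker,
            (if e + d i = n then (if π x ∈ V ∧ π y ∈ V then
              (m V : ℂ) * ((s i : ℂ) * (((ν i a)⁻¹ : ℂˣ) : ℂ) *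
                ed ((V ⊓ P).comap π) (fun κ => HasDefect ℓ κ e)
                  ((a : W)⁻¹ * (x * y * x⁻¹ * y⁻¹))) else 0) else 0) := by
            rw [Finset.mul_sum]
            refine Finset.sum_congr rfl (fun i _ => ?_)
            rw [Finset.mul_sum, Finset.mul_sum]
            refine Finset.sum_congr rfl (fun e _ => ?_)
            by_cases hi : e + d i = n
            · simp only [if_pos hi]
              rw [Finset.mul_sum, Finset.mul_sum]
              refine Finset.sum_congr rfl (fun V _ => ?_)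
              by_cases hV : π x ∈ V ∧ π y ∈ V
              · simp only [if_pos hV]
                have hL := h2 W ℓ ((V ⊓ P).comap π) π.ker
                  (fun z hz => by
                    change π z ∈ V ⊓ P
                    rw [MonoidHom.mem_ker.mp hz]
                    exact one_mem _)
                  (fun w _ a ha => (MonoidHom.normal_ker π).conj_mem a ha w) (ν i)
                  (fun w _ a a' haa => hν i w a a' haa) e (x * y * x⁻¹ * y⁻¹)
                calc (Nat.card π.ker : ℂ) * ((s i : ℂ) * ((m V : ℂ) *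
                      ed ((V ⊓ P).comap π) (fun κ => OvL π.ker (ν i) _ κ ∧ HasDefect ℓ κ e)
                        (x * y * x⁻¹ * y⁻¹)))
                    = (s i : ℂ) * (m V : ℂ) * ((Nat.card π.ker : ℂ) *
                      ed ((V ⊓ P).comap π) (fun κ => OvL π.ker (ν i) _ κ ∧ HasDefect ℓ κ e)
                        (x * y * x⁻¹ * y⁻¹)) := by ring
                  _ = _ := by
                    rw [hL, Finset.mul_sum]
                    refine Finset.sum_congr rfl (fun a _ => ?_)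
                    ring
              · simp only [if_neg hV, mul_zero, Finset.sum_const_zero]
            · simp only [if_neg hi, mul_zero, Finset.sum_const_zero]
        _ = ∑ e ∈ Finset.range (n + 1), ∑ V : Subgroup H, ∑ a : π.ker,
            (if π x ∈ V ∧ π y ∈ V then (m V : ℂ) * ed ((V ⊓ P).comap π)
              (fun κ => HasDefect ℓ κ e) ((a : W)⁻¹ * (x * y * x⁻¹ * y⁻¹)) *
                ∑ i, (if e + d i = n then (s i : ℂ) * (((ν i a)⁻¹ : ℂˣ) : ℂ) else 0)
              else 0) := by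
            rw [Finset.sum_comm]
            refine Finset.sum_congr rfl (fun e _ => ?_)
            rw [Finset.sum_comm]
            refine Finset.sum_congr rfl (fun V _ => ?_)
            rw [Finset.sum_comm]
            refine Finset.sum_congr rfl (fun a _ => ?_)
            by_cases hV : π x ∈ V ∧ π y ∈ V
            · simp only [if_pos hV]
              rw [Finset.mul_sum]
              refine Finset.sum_congr rfl (fun i _ => ?_)
              by_cases hi : e + d i = n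
              · simp only [if_pos hi]
                ring
              · simp only [if_neg hi, mul_zero]
            · simp only [if_neg hV, ite_self, Finset.sum_const_zero]
        _ = 0 := by
            refine Finset.sum_eq_zero (fun e he => Finset.sum_eq_zero (fun V _ =>
              Finset.sum_eq_zero (fun a _ => ?_)))
            by_cases hV : π x ∈ V ∧ π y ∈ V
            · rw [if_pos hV]
              by_cases hE : ed ((V ⊓ P).comap π) (fun κ => HasDefect ℓ κ e)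
                  ((a : W)⁻¹ * (x * y * x⁻¹ * y⁻¹)) = 0
              · rw [hE, mul_zero, zero_mul]
              · have hc := h3 W ℓ ((V ⊓ P).comap π) e _ hE
                have hI : InS π P ((a⁻¹ : π.ker) : W) :=
                  T2D.ins π P hP.nrm hg _ (Subgroup.comap_mono inf_le_right) (a : W) hc
                have hr := hrel a⁻¹ hI (n - e)
                have he' : e ≤ n := Nat.lt_succ_iff.mp (Finset.mem_range.mp he)
                have hz : ∑ i, (if e + d i = n then (s i : ℂ) * (((ν i a)⁻¹ : ℂˣ) : ℂ)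
                    else 0) = 0 := by
                  refine Eq.trans ?_ hr
                  rw [Finset.sum_filter]
                  refine Finset.sum_congr rfl (fun i _ => ?_)
                  by_cases hi : e + d i = n
                  · rw [if_pos hi, if_pos (by omega), map_inv]
                  · rw [if_neg hi, if_neg (by omega)]
                rw [hz, mul_zero]
            · rw [if_neg hV]
    · refine Finset.sum_eq_zero (fun i _ => ?_)
      rw [Finset.sum_eq_zero (fun e _ => ?_), mul_zero]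
      by_cases hi : e + d i = n
      · rw [if_pos hi]
        exact hM hg (fun U => ed (U.comap π)
          (fun κ => OvL π.ker (ν i) _ κ ∧ HasDefect ℓ κ e) (x * y * x⁻¹ * y⁻¹))
      · rw [if_neg hi]
  -- the Moebius sums
  have hcast : ∀ i, (Nat.card π.ker : ℂ) * ((PSM ℓ π m (ν i) (d i) n : ℚ) : ℂ) =
      ∑ x : W, ∑ y : W, ∑ e ∈ Finset.range (n + 1),
      (if e + d i = n then ∑ V : Subgroup H, (m V : ℂ) * (if π x ∈ V ∧ π y ∈ V then
        ed ((V ⊓ P).comap π) (fun κ => OvL π.ker (ν i) _ κ ∧ HasDefect ℓ κ e)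
          (x * y * x⁻¹ * y⁻¹) else 0) else 0) := by
    intro i
    have hV : ∀ V : Subgroup H, (Nat.card π.ker : ℂ) * ((m V : ℂ) * ((Nat.card V : ℂ) *
        ((Nat.card {η : ↥(V.comap π) → ℂ // IsIrr η ∧
          OvL π.ker (ν i) _ η ∧ ∃ e, HasDefect ℓ η e ∧ e + d i = n} : ℕ) : ℂ))) =
        ∑ x : W, ∑ y : W, ∑ e ∈ Finset.range (n + 1),
          (if e + d i = n then (m V : ℂ) * (if π x ∈ V ∧ π y ∈ V then
            ed ((V ⊓ P).comap π) (fun κ => OvL π.ker (ν i) _ κ ∧ HasDefect ℓ κ e)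
              (x * y * x⁻¹ * y⁻¹) else 0) else 0) := by
      intro V
      rw [T2D.cnt_split (fun η : ↥(V.comap π) → ℂ => IsIrr η)
        (fun η => OvL π.ker (ν i) _ η) (fun η e => HasDefect ℓ η e) (d i) n]
      have hWV : ((Nat.card ↥(V.comap π) : ℕ) : ℂ) = (Nat.card π.ker : ℂ) * (Nat.card V : ℂ) := by
        rw [T2D.card_comap π hπ V, Nat.cast_mul]
      calc (Nat.card π.ker : ℂ) * ((m V : ℂ) * ((Nat.card V : ℂ) *
          ((∑ e ∈ Finset.range (n + 1), (if e + d i = n then Nat.card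
            {η : ↥(V.comap π) → ℂ // IsIrr η ∧ OvL π.ker (ν i) _ η ∧ HasDefect ℓ η e}
              else 0) : ℕ) : ℂ)))
          = ∑ e ∈ Finset.range (n + 1), (if e + d i = n then (m V : ℂ) *
            ((Nat.card ↥(V.comap π) : ℂ) * ((Nat.card {η : ↥(V.comap π) → ℂ // IsIrr η ∧
              OvL π.ker (ν i) _ η ∧ HasDefect ℓ η e} : ℕ) : ℂ)) else 0) := by
            rw [Nat.cast_sum, Finset.mul_sum, Finset.mul_sum, Finset.mul_sum]
            refine Finset.sum_congr rfl (fun e _ => ?_)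
            by_cases hi : e + d i = n
            · rw [if_pos hi, if_pos hi, hWV]
              ring
            · rw [if_neg hi, if_neg hi, Nat.cast_zero]
              ring
        _ = ∑ e ∈ Finset.range (n + 1), ∑ x : W, ∑ y : W,
            (if e + d i = n then (m V : ℂ) * (if π x ∈ V ∧ π y ∈ V then
              ed ((V ⊓ P).comap π) (fun κ => OvL π.ker (ν i) _ κ ∧ HasDefect ℓ κ e)
                (x * y * x⁻¹ * y⁻¹) else 0) else 0) := by
            refine Finset.sum_congr rfl (fun e _ => ?_)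
            by_cases hi : e + d i = n
            · simp only [if_pos hi]
              rw [(h1 W H ℓ π hπ P hP V e).1 (ν i) (hν i), Finset.mul_sum]
              refine Finset.sum_congr rfl (fun x _ => ?_)
              rw [Finset.mul_sum]
            · simp only [if_neg hi, Finset.sum_const_zero]
        _ = _ := by
            rw [Finset.sum_comm]
            refine Finset.sum_congr rfl (fun x _ => ?_)
            rw [Finset.sum_comm]
    unfold PSM
    push_cast
    rw [Finset.mul_sum]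
    calc ∑ V : Subgroup H, (Nat.card π.ker : ℂ) * ((m V : ℂ) * ((Nat.card V : ℂ) *
        ((Nat.card {η : ↥(V.comap π) → ℂ // IsIrr η ∧
          OvL π.ker (ν i) _ η ∧ ∃ e, HasDefect ℓ η e ∧ e + d i = n} : ℕ) : ℂ)))
        = ∑ V : Subgroup H, ∑ x : W, ∑ y : W, ∑ e ∈ Finset.range (n + 1),
          (if e + d i = n then (m V : ℂ) * (if π x ∈ V ∧ π y ∈ V then
            ed ((V ⊓ P).comap π) (fun κ => OvL π.ker (ν i) _ κ ∧ HasDefect ℓ κ e)
              (x * y * x⁻¹ * y⁻¹) else 0) else 0) :=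
          Finset.sum_congr rfl (fun V _ => hV V)
      _ = _ := by
          rw [Finset.sum_comm]
          refine Finset.sum_congr rfl (fun x _ => ?_)
          rw [Finset.sum_comm]
          refine Finset.sum_congr rfl (fun y _ => ?_)
          rw [Finset.sum_comm]
          refine Finset.sum_congr rfl (fun e _ => ?_)
          by_cases hi : e + d i = n
          · simp only [if_pos hi]
          · simp only [if_neg hi, Finset.sum_const_zero]
  have hfin : (Nat.card π.ker : ℂ) * ((∑ i, s i * PSM ℓ π m (ν i) (d i) n : ℚ) : ℂ) = 0 := by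
    push_cast
    rw [Finset.mul_sum]
    calc ∑ i, (Nat.card π.ker : ℂ) * ((s i : ℂ) * ((PSM ℓ π m (ν i) (d i) n : ℚ) : ℂ))
        = ∑ i, ∑ x : W, ∑ y : W, (s i : ℂ) * ∑ e ∈ Finset.range (n + 1),
          (if e + d i = n then ∑ V : Subgroup H, (m V : ℂ) * (if π x ∈ V ∧ π y ∈ V then
            ed ((V ⊓ P).comap π) (fun κ => OvL π.ker (ν i) _ κ ∧ HasDefect ℓ κ e)
              (x * y * x⁻¹ * y⁻¹) else 0) else 0) := by
          refine Finset.sum_congr rfl (fun i _ => ?_)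
          rw [mul_left_comm, hcast i, Finset.mul_sum]
          refine Finset.sum_congr rfl (fun x _ => ?_)
          rw [Finset.mul_sum]
      _ = ∑ x : W, ∑ y : W, (0 : ℂ) := by
          rw [Finset.sum_comm]
          refine Finset.sum_congr rfl (fun x _ => ?_)
          rw [Finset.sum_comm]
          exact Finset.sum_congr rfl (fun y _ => key x y)
      _ = 0 := by simp only [Finset.sum_const_zero]
  have h0 := (mul_eq_zero.mp hfin).resolve_left hA
  exact_mod_cast h0

end Pool.Agent.DPF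


end

section

/-!
# OUTFr: a family for a nonvanishing chain sum, for the groups of a class
-/

namespace Pool.Agent.DPK

open Pool.Agent.DP Pool.Agent.DPC Pool.Agent.DPM Pool.Agent.DPN Pool.Agent.DPT
open Pool.Agent.Lib_helper13 Representation
open Pool.Agent.Lib_helper13.Dade (pCore DadeHolds dadeSum)

namespace OUTFr

theorem sub_zero {Cl : ∀ (Y : Type) [Group Y], Prop} (hCl : GC Cl)
    {O X H : Type} [Group O] [Fintype O] [Group X] [Fintype X] [Group H] [Fintype H]
    (h2 : Stmt_DKVr Cl)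
    (𝔐 : Ideal (integralClosure ℤ ℂ)) (ℓ : ℕ) [Fact ℓ.Prime] (hM : 𝔐.IsMaximal)
    (hl : (ℓ : integralClosure ℤ ℂ) ∈ 𝔐) (j : O →* X) (c : X →* MulAut O) (p : X →* H)
    (h : ClG j c p) (hp : Function.Surjective p) (n : ℕ) (hX : Cl X) (hn : HR Cl ℓ n)
    (hC : Subgroup.center X ≤ j.range) (hi : (Subgroup.center X).index ≤ n + 1)
    (Z : Subgroup O) (hZ : IsPGroup ℓ Z) (hZj : Z.map j ≤ Subgroup.center X) (d : ℕ)
    (P : Set (X → (integralClosure ℤ ℂ) ⧸ 𝔐)) (hd : padicValNat ℓ (Nat.card Z) < d)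
    (V : Subgroup H) (hV : V ≠ ⊤) :
    DK 𝔐 ℓ d ((Z.map j).subgroupOf (V.comap p)) (V.comap p).subtype P = 0 := by
  have hCY : Subgroup.center X ≤ V.comap p := by
    intro x hx
    rw [Subgroup.mem_comap, (h.ker x).mpr (hC hx)]
    exact V.one_mem
  have hCc : (Subgroup.center X).subgroupOf (V.comap p) ≤ Subgroup.center (V.comap p) := by
    intro x hx
    rw [Subgroup.mem_center_iff]
    intro y
    apply Subtype.ext
    exact Subgroup.mem_center_iff.mp (Subgroup.mem_subgroupOf.mp hx) y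
  have hidx : (Subgroup.center (V.comap p)).index ≤ n := by
    have e1 : (Subgroup.center (V.comap p)).index ∣
        ((Subgroup.center X).subgroupOf (V.comap p)).index := Subgroup.index_dvd_of_le hCc
    have e2 : (Subgroup.center X).relIndex (V.comap p) * (V.comap p).index =
        (Subgroup.center X).index := Subgroup.relIndex_mul_index hCY
    have e3 : (V.comap p).index = V.index := Subgroup.index_comap_of_surjective V hp
    have e4 : V.index ≠ 0 := Subgroup.index_ne_zero_of_finite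
    have e5 : V.index ≠ 1 := fun h5 => hV (Subgroup.index_eq_one.mp h5)
    have e6 : (Subgroup.center X).relIndex (V.comap p) ≠ 0 := by
      change ((Subgroup.center X).subgroupOf (V.comap p)).index ≠ 0
      exact Subgroup.index_ne_zero_of_finite
    have e7 : (Subgroup.center (V.comap p)).index ≤ (Subgroup.center X).relIndex (V.comap p) :=
      Nat.le_of_dvd (Nat.pos_of_ne_zero e6) e1
    rw [e3] at e2
    have e8 : 2 ≤ V.index := by omega
    have e9 : (Subgroup.center X).relIndex (V.comap p) * 2 ≤ (Subgroup.center X).index := by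
      rw [← e2]
      exact Nat.mul_le_mul_left _ e8
    omega
  have hZY : Z.map j ≤ V.comap p := hZj.trans hCY
  refine h2 (V.comap p) X 𝔐 ℓ hM hl n (hCl.sub hX _) hn hidx
    ((Z.map j).subgroupOf (V.comap p)) ?_ ?_ d ?_ _ P
  · intro x hx
    apply hCc
    exact Subgroup.mem_subgroupOf.mpr (hZj (Subgroup.mem_subgroupOf.mp hx))
  · exact (hZ.map j).comap_subtype
  · have e1 : Nat.card ((Z.map j).subgroupOf (V.comap p)) = Nat.card Z := by
      rw [Nat.card_congr (Subgroup.subgroupOfEquivOfLe hZY).toEquiv]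
      exact (Nat.card_congr (Z.equivMapOfInjective j h.inj).toEquiv).symm
    rw [e1]
    exact hd

end OUTFr

open _root_.Pool.Agent.DPK.OUTFr in
open Classical in
/-- OUTFr -/
theorem OUTFr_thm (Cl : ∀ (Y : Type) [Group Y], Prop) (hCl : GC Cl) (h1 : Stmt_FF)
    (h2 : Stmt_DKVr Cl) (h3 : Stmt_FNAr Cl) (h4 : Stmt_FAMr Cl) (h5 : Stmt_ABQ)
    (_h6 : Stmt_RCE) : Stmt_OUTFr Cl := by
  intro O X H _ _ _ _ _ _ 𝔐 ℓ _ hM hl j c p h hp hH n hX hn hC hi hHn Z hZ hZj d ω hd hne
  obtain ⟨m, hm⟩ := (MOBX_thm H).1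
  have hm1 : m ⊤ = 1 := ((MOBX_thm H).2 m hm).1
  have hHR : HR Cl ℓ (Nat.card H) := hn.mono hHn
  have hCH : Cl H := hCl.im X H p hp hX
  -- the sum is not zero
  have hFF := h1 O X H 𝔐 ℓ j c p h hp hH Z m hm d {ω}
  have hL : ∑ V, m V * DK 𝔐 ℓ d ((Z.map j).subgroupOf (V.comap p)) (V.comap p).subtype {ω} =
      DK 𝔐 ℓ d (Z.map j) (MonoidHom.id X) {ω} := by
    rw [Finset.sum_eq_single (⊤ : Subgroup H)]
    · rw [hm1, one_mul]
      exact OUTF.DK_top 𝔐 ℓ d ((⊤ : Subgroup H).comap p) (Subgroup.comap_top p) (Z.map j) {ω}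
    · intro V _ hV
      rw [OUTFr.sub_zero hCl h2 𝔐 ℓ hM hl j c p h hp n hX hn hC hi Z hZ hZj d {ω} hd V hV,
        mul_zero]
    · intro h'
      exact absurd (Finset.mem_univ _) h'
  rw [hL] at hFF
  rw [hFF] at hne
  obtain ⟨τ, hτ, k1⟩ := Finset.exists_ne_zero_of_sum_ne_zero hne
  obtain ⟨θ, hθ, k2⟩ := Finset.exists_ne_zero_of_sum_ne_zero (right_ne_zero_of_mul k1)
  have k3 := right_ne_zero_of_mul k2
  rw [Finset.mem_filter, mem_irrF] at hθ
  obtain ⟨hirr, hFP⟩ := hθ
  have hPr := h3 O X H 𝔐 ℓ hM hl j c p h hH hCH hHR Z d ω m hm τ hτ θ hirr hFP k3 τ hτ θ hirr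
    hFP k3
  obtain ⟨W, _, _, π, R, μ, Lm, hF⟩ := h4 O X H 𝔐 ℓ hM hl j c p h hH hCH hHR d Z
    (cen 𝔐 (stb τ).subtype θ)
  obtain ⟨hR, hRi, _⟩ := h5 O X H W 𝔐 ℓ hM hl j c p h d Z _ π R μ Lm hF τ θ hPr m hm ω k3
  exact ⟨W, inferInstance, inferInstance, π, R, μ, Lm, τ, θ, hF, hPr,
    FNA.key 𝔐 ℓ h d ω m τ θ hirr k3, hR, hRi⟩

end Pool.Agent.DPK


end

section

/-!
# KDB: irreducible representations of the local block in the fixed vectors modulo traces
-/

namespace Pool.Agent.DPW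

open Pool.Agent.DPB Pool.Agent.Lib_helper13 Representation

namespace KDB

section Tr

variable {F T V V' : Type} [Field F] [Group T] [AddCommGroup V] [Module F V]
  [AddCommGroup V'] [Module F V']

/-- The terms of `trC` depend only on the cosets. -/
theorem term_eq (P : Subgroup T) (ρ : Representation F T V) (ρ' : Representation F T V')
    (f : V →ₗ[F] V') (hf : ∀ p ∈ P, ∀ v, f (ρ p v) = ρ' p (f v)) (a b : T)
    (hab : (a : T ⧸ P) = (b : T ⧸ P)) (v : V) :
    ρ' a (f (ρ a⁻¹ v)) = ρ' b (f (ρ b⁻¹ v)) := by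
  have h1 : a⁻¹ * b ∈ P := QuotientGroup.eq.1 hab
  have h2 : ρ a⁻¹ v = ρ (a⁻¹ * b) (ρ b⁻¹ v) := by
    rw [← Module.End.mul_apply, ← map_mul]
    congr 2
    group
  have h3 : ρ' a (ρ' (a⁻¹ * b) (f (ρ b⁻¹ v))) = ρ' b (f (ρ b⁻¹ v)) := by
    rw [← Module.End.mul_apply, ← map_mul]
    congr 2
    group
  rw [h2, hf _ h1, h3]

open Classical in
theorem trC_apply [Fintype T] (P : Subgroup T) (ρ : Representation F T V) (ρ' : Representation F T V')
    (f : V →ₗ[F] V') (v : V) :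
    trC P ρ ρ' f v = ∑ q : T ⧸ P, ρ' q.out (f (ρ q.out⁻¹ v)) := by
  unfold trC
  rw [LinearMap.sum_apply]
  rfl

/-- `trC f` commutes with the representations if `f` commutes with `P`. -/
theorem trC_eqv [Fintype T] (P : Subgroup T) (ρ : Representation F T V) (ρ' : Representation F T V')
    (f : V →ₗ[F] V') (hf : ∀ p ∈ P, ∀ v, f (ρ p v) = ρ' p (f v)) :
    Eqv ρ ρ' (trC P ρ ρ' f) := by
  classical
  intro g v
  rw [trC_apply, trC_apply, map_sum]
  refine (Function.Bijective.sum_comp (MulAction.bijective g)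
    (fun q : T ⧸ P => ρ' q.out (f (ρ q.out⁻¹ (ρ g v))))).symm.trans ?_
  refine Finset.sum_congr rfl fun q _ => ?_
  have h1 : (((g • q).out : T) : T ⧸ P) = ((g * q.out : T) : T ⧸ P) := by
    have e1 : ∀ r : T ⧸ P, ((r.out : T) : T ⧸ P) = r := fun r => Quotient.out_eq r
    rw [e1]
    show g • q = g • ((q.out : T) : T ⧸ P)
    rw [e1]
  have h2 := term_eq P ρ ρ' f hf _ _ h1 (ρ g v)
  rw [h2]
  have h3 : ρ (g * q.out)⁻¹ (ρ g v) = ρ q.out⁻¹ v := by
    rw [← Module.End.mul_apply, ← map_mul]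
    congr 2
    group
  rw [h3, map_mul]
  rfl

end Tr

variable {F T V : Type} [Field F] [Group T] [AddCommGroup V] [Module F V]

open KE in
/-- On the fixed vectors of `P`, modulo traces, a central element acts as its image under the
Brauer homomorphism. -/
theorem brz_mod {ℓ : ℕ} [Fact ℓ.Prime] [Fintype T] (P : Subgroup T) [Fintype (NP P)]
    (hP : Nat.card P = ℓ) (ρ : Representation F T V) (z : T → F)
    (hz : ∀ g x, z (g * x * g⁻¹) = z x) (v : V) (hfix : ∀ p ∈ P, ρ p v = v) :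
    Zop ρ z v - Zop (rN P ρ) (brz P z) v ∈ LinearMap.range (tN P ρ) := by
  classical
  have hμ : Zop ρ z v = ∑ h, z h • ρ h v := Zop_apply ρ z v
  have hμ' : Zop (rN P ρ) (brz P z) v =
      ∑ h, (if h ∈ Subgroup.centralizer (P : Set T) then z h • ρ h v else 0) := by
    rw [Zop_apply]
    refine Fintype.sum_of_injective (fun n : NP P => (n : T)) Subtype.val_injective _ _ ?_ ?_
    · intro h hh
      rw [if_neg]
      intro hC
      apply hh
      have hN : h ∈ Subgroup.normalizer (P : Set T) :=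
        Subgroup.centralizer_le_normalizer (P : Set T) hC
      exact ⟨⟨h, hN⟩, rfl⟩
    · intro n
      show brz P z n • ρ (n : T) v = _
      unfold brz
      split_ifs
      · rfl
      · rw [zero_smul]
  have key : Zop ρ z v - Zop (rN P ρ) (brz P z) v ∈ (LinearMap.range (tN P ρ)).toAddSubgroup := by
    rw [hμ, hμ', ← Finset.sum_sub_distrib]
    let _ := conjAct P
    have hsm : ∀ (p : P) (h : T), p • h = (p : T) * h * (p : T)⁻¹ := fun _ _ => rfl
    refine orbit_sum (Q := P) _ _ fun h => ?_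
    by_cases hC : h ∈ Subgroup.centralizer (P : Set T)
    · left
      intro p
      have h3 : p • h = h := by
        rw [hsm, Subgroup.mem_centralizer_iff.mp hC p p.2, mul_inv_cancel_right]
      rw [h3, if_pos hC, sub_self]
    · right
      refine ⟨?_, ?_⟩
      · intro p hp
        by_contra hp1
        apply hC
        rw [Subgroup.mem_centralizer_iff]
        intro q hq
        have h3 : (⟨q, hq⟩ : P) ∈ Subgroup.zpowers p := mem_zpowers_of_prime_card hP hp1
        obtain ⟨k, hk⟩ := Subgroup.mem_zpowers_iff.mp h3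
        have h4 : Commute (p : T) h := by
          rw [hsm] at hp
          exact mul_inv_eq_iff_eq_mul.mp hp
        have h5 : ((p : T) ^ k) = q := by
          have := congrArg Subtype.val hk
          simpa using this
        rw [← h5]
        exact (h4.zpow_left k).eq
      · have hn : ∀ p : P, p • h ∉ Subgroup.centralizer (P : Set T) := by
          intro p hp
          apply hC
          have h3 : (p : T)⁻¹ * (p • h) * (p : T) = h := by
            rw [hsm]
            group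
          rw [Subgroup.mem_centralizer_iff]
          intro q hq
          have h6 := Subgroup.mem_centralizer_iff.mp hp ((p : T) * q * (p : T)⁻¹)
            (P.mul_mem (P.mul_mem p.2 hq) (P.inv_mem p.2))
          rw [← h3]
          calc q * ((p : T)⁻¹ * (p • h) * (p : T))
              = (p : T)⁻¹ * (((p : T) * q * (p : T)⁻¹) * (p • h)) * (p : T) := by group
            _ = (p : T)⁻¹ * ((p • h) * ((p : T) * q * (p : T)⁻¹)) * (p : T) := by rw [h6]
            _ = (p : T)⁻¹ * (p • h) * (p : T) * q := by group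
        have hs : ∑ p : P, (z (p • h) • ρ (p • h) v -
            if p • h ∈ Subgroup.centralizer (P : Set T) then z (p • h) • ρ (p • h) v else 0) =
            tN P ρ (z h • ρ h v) := by
          rw [tN_apply]
          refine Finset.sum_congr rfl fun p _ => ?_
          rw [if_neg (hn p), sub_zero]
          have e1 : z (p • h) = z h := hz (p : T) h
          have e2 : ρ (p • h) v = ρ (p : T) (ρ h v) := by
            rw [hsm, map_mul, map_mul]
            show ρ (p : T) (ρ h (ρ (p : T)⁻¹ v)) = _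
            rw [hfix _ (P.inv_mem p.2)]
          rw [e1, e2, map_smul]
        rw [hs]
        exact ⟨_, rfl⟩
  exact key

/-- The fixed vectors. -/
def fixV (P : Subgroup T) (ρ : Representation F T V) : Submodule F V where
  carrier := {v | ∀ p ∈ P, ρ p v = v}
  zero_mem' := fun p _ => map_zero _
  add_mem' := by
    intro a b ha hb p hp
    rw [map_add, ha p hp, hb p hp]
  smul_mem' := by
    intro c a ha p hp
    rw [map_smul, ha p hp]

theorem mem_fixV (P : Subgroup T) (ρ : Representation F T V) (v : V) :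
    v ∈ fixV P ρ ↔ ∀ p ∈ P, ρ p v = v := Iff.rfl

theorem fixV_stable (P : Subgroup T) (ρ : Representation F T V) (n : NP P) (v : V)
    (hv : v ∈ fixV P ρ) : ρ (n : T) v ∈ fixV P ρ := by
  rw [mem_fixV] at hv ⊢
  intro p hp
  have h1 : (n : T)⁻¹ * p * (n : T) ∈ P := by
    have := (Subgroup.mem_normalizer_iff.1 (inv_mem n.2) p).1 hp
    simpa using this
  have h2 := hv _ h1
  calc ρ p (ρ (n : T) v) = ρ (n : T) (ρ ((n : T)⁻¹ * p * (n : T)) v) := by
        rw [← Module.End.mul_apply, ← Module.End.mul_apply, ← map_mul, ← map_mul]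
        congr 2
        group
    _ = ρ (n : T) v := by rw [h2]

theorem range_stable [Fintype T] (P : Subgroup T) (ρ : Representation F T V) (n : NP P) (v : V)
    (hv : v ∈ LinearMap.range (tN P ρ)) : ρ (n : T) v ∈ LinearMap.range (tN P ρ) := by
  classical
  have htN : ∀ v, tN P ρ v = ∑ h : T, if h ∈ P then ρ h v else 0 := by
    intro v
    rw [tN, LinearMap.sum_apply]
    refine Finset.sum_congr rfl fun h _ => ?_
    split_ifs <;> simp
  obtain ⟨v, rfl⟩ := hv
  refine ⟨ρ (n : T) v, ?_⟩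
  rw [htN, htN, map_sum]
  refine (Fintype.sum_equiv (MulAut.conj (n : T)).toEquiv _ _ fun h => ?_).symm
  have hiff : (n : T) * h * (n : T)⁻¹ ∈ P ↔ h ∈ P :=
    (Subgroup.mem_normalizer_iff.1 n.2 h).symm
  simp only [MulEquiv.toEquiv_eq_coe, EquivLike.coe_coe, MulAut.conj_apply, hiff]
  split_ifs
  · rw [← Module.End.mul_apply, ← Module.End.mul_apply, ← map_mul, ← map_mul]
    congr 2
    group
  · simp

/-- The representation of the normalizer on the fixed vectors. -/
def tauX (P : Subgroup T) (ρ : Representation F T V) : Representation F (NP P) ↥(fixV P ρ) where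
  toFun := fun n => (ρ (n : T)).restrict (fixV_stable P ρ n)
  map_one' := by
    ext v
    simp
  map_mul' := by
    intro a b
    ext v
    simp

theorem tauX_coe (P : Subgroup T) (ρ : Representation F T V) (n : NP P) (v : ↥(fixV P ρ)) :
    ((tauX P ρ n v : ↥(fixV P ρ)) : V) = ρ (n : T) (v : V) := rfl

/-- The traces, as a subspace of the fixed vectors. -/
noncomputable def trX [Fintype T] (P : Subgroup T) (ρ : Representation F T V) : Submodule F ↥(fixV P ρ) :=
  (LinearMap.range (tN P ρ)).comap (fixV P ρ).subtype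

theorem trX_stable [Fintype T] (P : Subgroup T) (ρ : Representation F T V) (n : NP P) :
    trX P ρ ≤ (trX P ρ).comap (tauX P ρ n) := by
  intro v hv
  exact range_stable P ρ n _ hv

/-- The representation of the normalizer on the fixed vectors modulo traces. -/
noncomputable def tauU [Fintype T] (P : Subgroup T) (ρ : Representation F T V) :
    Representation F (NP P) (↥(fixV P ρ) ⧸ trX P ρ) where
  toFun := fun n => (trX P ρ).mapQ (trX P ρ) (tauX P ρ n) (trX_stable P ρ n)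
  map_one' := by
    ext v
    simp
  map_mul' := by
    intro a b
    ext v
    simp

theorem tauU_mk [Fintype T] (P : Subgroup T) (ρ : Representation F T V) (n : NP P) (v : ↥(fixV P ρ)) :
    tauU P ρ n ((trX P ρ).mkQ v) = (trX P ρ).mkQ (tauX P ρ n v) := rfl

end KDB

open _root_.Pool.Agent.DPW.KDB in
theorem KDB_thm (h1 : Stmt_BKN) (h2 : Stmt_RPRB) : Stmt_KDB := by
  intro ℓ _ F T V _ _ _ _ _ _ _ P _ x₀ e hB ρ hρ hnp
  have hcl : ∀ g x, e (g * x * g⁻¹) = e x := hB.cf
  have hx : x₀ ∈ Subgroup.normalizer (P : Set T) := by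
    apply Subgroup.centralizer_le_normalizer (P : Set T)
    rw [Subgroup.mem_centralizer_iff]
    exact fun u hu => hB.cen u hu
  have hBN := h1 ℓ F T P x₀ e hB hx
  -- `brz P e` acts as the identity on the fixed vectors modulo traces
  have hZU : ∀ u, Zop (tauU P ρ) (brz P e) u = u := by
    intro u
    obtain ⟨v, rfl⟩ := Submodule.mkQ_surjective _ u
    have h3 := brz_mod (ℓ := ℓ) P hB.card ρ e hcl (v : V) ((mem_fixV P ρ _).1 v.2)
    rw [hρ] at h3
    have h4 : ((Zop (tauX P ρ) (brz P e) v : ↥(fixV P ρ)) : V) =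
        Zop (rN P ρ) (brz P e) (v : V) := by
      rw [KE.Zop_apply, KE.Zop_apply]
      push_cast
      rfl
    have h5 : Zop (tauU P ρ) (brz P e) ((trX P ρ).mkQ v) =
        (trX P ρ).mkQ (Zop (tauX P ρ) (brz P e) v) := by
      rw [KE.Zop_apply, KE.Zop_apply, map_sum]
      refine Finset.sum_congr rfl fun n _ => ?_
      rw [map_smul, tauU_mk]
    rw [h5]
    have h6 : v - Zop (tauX P ρ) (brz P e) v ∈ trX P ρ := by
      show ((v - Zop (tauX P ρ) (brz P e) v : ↥(fixV P ρ)) : V) ∈ LinearMap.range (tN P ρ)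
      rw [Submodule.coe_sub, h4]
      exact h3
    have h7 : (trX P ρ).mkQ (v - Zop (tauX P ρ) (brz P e) v) = 0 :=
      (Submodule.Quotient.mk_eq_zero _).2 h6
    rw [map_sub, sub_eq_zero] at h7
    exact h7.symm
  -- an irreducible submodule
  obtain ⟨v₀, hv₀, hv₀'⟩ := hnp
  have htop : (⊤ : Submodule F (↥(fixV P ρ) ⧸ trX P ρ)) ≠ ⊥ := by
    intro h
    apply hv₀'
    have h3 : (trX P ρ).mkQ ⟨v₀, hv₀⟩ ∈ (⊤ : Submodule F (↥(fixV P ρ) ⧸ trX P ρ)) :=
      Submodule.mem_top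
    rw [h, Submodule.mem_bot] at h3
    exact (Submodule.Quotient.mk_eq_zero (trX P ρ)).1 h3
  obtain ⟨m, σ, j₀, hirr, hj₀, -, hinj⟩ :=
    KD.exists_irr (tauU P ρ) _ ⊤ le_rfl htop fun _ _ _ => Submodule.mem_top
  have hZσ : Zop σ (brz P e) = 1 := by
    apply LinearMap.ext
    intro w
    apply hinj
    have h3 : j₀ (Zop σ (brz P e) w) = Zop (tauU P ρ) (brz P e) (j₀ w) := by
      rw [KE.Zop_apply, KE.Zop_apply, map_sum]
      refine Finset.sum_congr rfl fun n _ => ?_
      rw [map_smul, hj₀]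
    rw [h3, hZU]
    rfl
  -- `P` acts trivially
  have htriv : ∀ p ∈ P.subgroupOf (Subgroup.normalizer (P : Set T)), ∀ w, σ p w = w := by
    intro p hp w
    apply hinj
    rw [hj₀]
    obtain ⟨v, hv⟩ := Submodule.mkQ_surjective _ (j₀ w)
    rw [← hv, tauU_mk]
    congr 1
    apply Subtype.ext
    rw [tauX_coe]
    exact (mem_fixV P ρ _).1 v.2 _ (Subgroup.mem_subgroupOf.1 hp)
  obtain ⟨α, hα, hαt⟩ := h2 ℓ F (NP P) (Fin m → F) _ _ _ hBN σ hZσ
  obtain ⟨s₀, hs₀⟩ := LinearMap.exists_rightInverse_of_surjective (trX P ρ).mkQ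
    (LinearMap.range_eq_top.2 (Submodule.mkQ_surjective _))
  have hs₀' : ∀ u, (trX P ρ).mkQ (s₀ u) = u := fun u => by
    rw [← LinearMap.comp_apply, hs₀]
    rfl
  let f : (Fin m → F) →ₗ[F] ↥(fixV P ρ) := s₀ ∘ₗ j₀ ∘ₗ α
  have hf : ∀ w, (trX P ρ).mkQ (f w) = j₀ (α w) := fun w => hs₀' _
  have hfP : ∀ p ∈ P.subgroupOf (Subgroup.normalizer (P : Set T)), ∀ w,
      f (σ p w) = tauX P ρ p (f w) := by
    intro p hp w
    rw [htriv p hp w]
    apply Subtype.ext
    rw [tauX_coe]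
    exact ((mem_fixV P ρ _).1 (f w).2 _ (Subgroup.mem_subgroupOf.1 hp)).symm
  let jX : (Fin m → F) →ₗ[F] ↥(fixV P ρ) :=
    trC (P.subgroupOf (Subgroup.normalizer (P : Set T))) σ (tauX P ρ) f
  have hjX : Eqv σ (tauX P ρ) jX := trC_eqv _ _ _ _ hfP
  have hq : ∀ w, (trX P ρ).mkQ (jX w) = j₀ w := by
    intro w
    have h3 : (trX P ρ).mkQ (jX w) =
        j₀ (trC (P.subgroupOf (Subgroup.normalizer (P : Set T))) σ σ α w) := by
      show (trX P ρ).mkQ (trC (P.subgroupOf (Subgroup.normalizer (P : Set T))) σ (tauX P ρ) f w)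
        = _
      rw [trC_apply, trC_apply, map_sum, map_sum]
      refine Finset.sum_congr rfl fun q _ => ?_
      rw [← tauU_mk, hf, hj₀]
    rw [h3, hαt]
    rfl
  refine ⟨m, σ, hirr, hZσ, (fixV P ρ).subtype ∘ₗ jX, ?_, ?_⟩
  · intro n w
    rw [LinearMap.comp_apply, hjX n w]
    rfl
  · have hnt : ∃ w : Fin m → F, w ≠ 0 := by
      by_contra hcon
      push Not at hcon
      obtain ⟨a, b, hab⟩ := hirr.exists_pair_ne
      apply hab
      apply Subrepresentation.toSubmodule_injective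
      ext w
      rw [hcon w]
      simp
    obtain ⟨w, hw⟩ := hnt
    refine ⟨w, fun h => hw ?_⟩
    apply hinj
    rw [map_zero, ← hq w]
    exact (Submodule.Quotient.mk_eq_zero _).2 h

end Pool.Agent.DPW


end
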