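import Mathlib
import Pool.Agent.DAM.C14
import Pool.Agent.DAM.C19
import Pool.Agent.DAM.C20
import Pool.Agent.DAM.C46

/-! Parts: DPV.CYE -/

section

/-!
# CYE: the case of a character which is not trivial on the Sylow subgroup
-/

set_option linter.unusedSectionVars false

namespace Pool.Agent.DPV

open Pool.Agent.DP Pool.Agent.Lib_helper13 Representation
open Pool.Agent.Lib_helper13.Dade (pCore DadeHolds dadeSum)

namespace CYE

/-! ### Generalities -/

/-- Central elements act by scalars. -/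
theorem scal {Z : Type} [Group Z] {θ : Z → ℂ} (h : IsIrr θ) (u : Z)
    (hu : ∀ x, u * x = x * u) (x : Z) : θ (u * x) * θ 1 = θ u * θ x := by
  obtain ⟨n, ρ, hρ, rfl⟩ := h
  obtain ⟨a, ha⟩ := exists_scalar ρ hρ (ρ u) (by
    intro g v
    have h1 : ρ (u * g) v = ρ (g * u) v := by rw [hu g]
    rw [map_mul, map_mul] at h1
    exact h1)
  have h1 : ∀ y, ρ.character (u * y) = a * ρ.character y := by
    intro y
    have h2 : ρ (u * y) = a • ρ y := by
      rw [map_mul, ha]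
      rfl
    change LinearMap.trace ℂ _ (ρ (u * y)) = a * LinearMap.trace ℂ _ (ρ y)
    rw [h2, map_smul, smul_eq_mul]
  have h2 := h1 1
  rw [mul_one] at h2
  rw [h1 x, h2]
  ring

/-- A normal subgroup and its centralizer: the conjugation action. -/
theorem clG_sub {H : Type} [Group H] (Z : Subgroup H) [Z.Normal] :
    ClG Z.subtype (MulAut.conjNormal (H := Z)) (QuotientGroup.mk' Z) where
  inj := Subtype.val_injective
  act := fun _ _ => rfl
  ker := by
    intro y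
    rw [← MonoidHom.mem_ker, QuotientGroup.ker_mk', Subgroup.range_subtype]

/-- An irreducible constituent of small degree is the whole character. -/
theorem eq_of_deg {Y : Type} [Group Y] [Fintype Y] {E φ : Y → ℂ} (hE : IsChr E) (hφ : IsIrr φ)
    (h : ip E φ ≠ 0) {a b : ℕ} (ha : E 1 = a) (hb : φ 1 = b) : b ≤ a ∧ (a ≤ b → E = φ) := by
  classical
  have hexp := class_fn_expand E hE.conj_eq
  have hm : ∀ ψ : Y → ℂ, ∃ m d : ℕ, IsIrr ψ → (ip E ψ = m ∧ 0 < d ∧ ψ 1 = d) := by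
    intro ψ
    by_cases hψ : IsIrr ψ
    · obtain ⟨m, hm⟩ := hE.exists_ip hψ.isChr
      obtain ⟨d, hd, hd'⟩ := hψ.exists_degree
      exact ⟨m, d, fun _ => ⟨hm, hd, hd'⟩⟩
    · exact ⟨0, 0, fun h => absurd h hψ⟩
  choose m d hmd using hm
  have h1 : a = ∑ ψ ∈ irrF Y, m ψ * d ψ := by
    have h2 := congrFun hexp 1
    rw [ha] at h2
    have h3 : ∑ χ ∈ irrF Y, ip E χ * χ 1 = ((∑ ψ ∈ irrF Y, m ψ * d ψ : ℕ) : ℂ) := by
      push_cast
      refine Finset.sum_congr rfl fun χ hχ => ?_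
      obtain ⟨h4, -, h5⟩ := hmd χ (mem_irrF.mp hχ)
      rw [h4, h5]
    rw [h3] at h2
    exact_mod_cast h2
  obtain ⟨h4, h5, h6⟩ := hmd φ hφ
  have h7 : d φ = b := by
    rw [hb] at h6
    exact_mod_cast h6.symm
  have h8 : 0 < m φ := by
    rcases Nat.eq_zero_or_pos (m φ) with h0 | h0
    · rw [h0] at h4
      exact absurd (h4.trans Nat.cast_zero) h
    · exact h0
  rw [← Finset.add_sum_erase _ _ (mem_irrF.mpr hφ)] at h1
  have h9 : b ≤ m φ * d φ := by
    rw [h7]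
    exact Nat.le_mul_of_pos_left _ h8
  refine ⟨by omega, fun hab => ?_⟩
  have h10 : m φ * d φ = b := by omega
  have h11 : ∑ ψ ∈ (irrF Y).erase φ, m ψ * d ψ = 0 := by omega
  have h12 : m φ = 1 := by
    rw [h7] at h10
    have : 0 < b := by omega
    exact Nat.eq_of_mul_eq_mul_right this (by rw [h10, one_mul])
  rw [Finset.sum_eq_zero_iff] at h11
  rw [hexp]
  ext x
  rw [Finset.sum_eq_single φ]
  · rw [h4, h12, Nat.cast_one, one_mul]
  · intro ψ hψ hne
    obtain ⟨h13, h14, -⟩ := hmd ψ (mem_irrF.mp hψ)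
    have h15 := h11 ψ (Finset.mem_erase.mpr ⟨hne, hψ⟩)
    have h16 : m ψ = 0 := by
      rcases Nat.mul_eq_zero.mp h15 with h | h
      · exact h
      · omega
    rw [h13, h16, Nat.cast_zero, zero_mul]
  · intro hn
    exact absurd (mem_irrF.mpr hφ) hn

/-- A character is irreducible if its restriction is. -/
theorem isIrr_of_res {Y A : Type} [Group Y] [Group A] [Fintype A] (i : A →* Y) {f : Y → ℂ}
    (hf : IsChr f) (h : IsIrr (fun k => f (i k))) : IsIrr f := by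
  obtain ⟨n, r, rfl⟩ := hf
  exact ⟨n, r, EXTBR.irr_of_comp i r h, rfl⟩

/-- Orthogonality on cosets. -/
theorem orth {A Y : Type} [Group A] [Fintype A] [Group Y] (j : A →* Y) {E E' : Y → ℂ}
    (hE : IsChr E) (hE' : IsChr E') (h : IsIrr (fun a => E (j a)))
    (h' : IsIrr (fun a => E' (j a))) (hne : ∃ a, E (j a) ≠ E' (j a)) (y : Y) :
    ∑ a, E (y * j a) * E' (y * j a)⁻¹ = 0 := by
  obtain ⟨n, ρ, rfl⟩ := hE
  obtain ⟨m, σ, rfl⟩ := hE'
  let ρ' : Representation ℂ A (Fin n → ℂ) := ρ.comp j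
  let σ' : Representation ℂ A (Fin m → ℂ) := σ.comp j
  have h1 : ρ'.IsIrreducible := irreducible_of_sum _ h.sum_self
  have h2 : σ'.IsIrreducible := irreducible_of_sum _ h'.sum_self
  have hE : IsEmpty (Representation.Equiv σ' ρ') := by
    constructor
    intro e
    obtain ⟨a, ha⟩ := hne
    apply ha
    have h3 := char_iso e
    exact (congrFun h3 a).symm
  have hsub : Subsingleton (IntertwiningMap σ' ρ') := inferInstance
  have e : ∀ g : Y, ρ.character g * σ.character g⁻¹ = LinearMap.trace ℂ _ (linHom σ ρ g) := by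
    intro g
    have := char_linHom σ ρ g
    rw [Representation.character] at this
    rw [this, mul_comm]
  simp only [e]
  rw [← map_sum (LinearMap.trace ℂ ((Fin m → ℂ) →ₗ[ℂ] Fin n → ℂ))]
  have hz : ∑ a, linHom σ ρ (y * j a) = 0 := by
    apply LinearMap.ext
    intro f
    rw [LinearMap.sum_apply]
    simp only [map_mul, Module.End.mul_apply]
    rw [← map_sum]
    set F := ∑ a, (linHom σ ρ (j a)) f with hF
    have hF1 : ∀ g : A, linHom σ ρ (j g) F = F := by
      intro g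
      rw [hF, map_sum]
      have h2 : ∀ a, linHom σ ρ (j g) (linHom σ ρ (j a) f) = linHom σ ρ (j (g * a)) f := by
        intro a
        rw [map_mul, map_mul]
        rfl
      simp only [h2]
      exact Fintype.sum_equiv (Equiv.mulLeft g) _ _ fun a => rfl
    have hF2 : ∀ (g : A) v, F (σ' g v) = ρ' g (F v) := by
      intro g v
      change F (σ (j g) v) = ρ (j g) (F v)
      conv_lhs => rw [← hF1 g]
      rw [linHom_apply]
      simp
    have hF0 : F = 0 := by
      have h3 : (⟨F, fun g => LinearMap.ext fun v => hF2 g v⟩ : IntertwiningMap σ' ρ') = 0 :=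
        Subsingleton.elim _ _
      exact congrArg (fun T : IntertwiningMap σ' ρ' => T.toLinearMap) h3
    rw [hF0, map_zero]
    rfl
  rw [hz, map_zero]

section Prime

variable {H : Type} [Group H] [Fintype H] {ℓ : ℕ} [Fact ℓ.Prime] (P : Subgroup H) [P.Normal]

/-- The centralizer. -/
abbrev Zc : Subgroup H := Subgroup.centralizer (P : Set H)

theorem le_Zc (hP : Nat.card P = ℓ) : P ≤ Zc P := by
  intro x hx
  rw [Subgroup.mem_centralizer_iff]
  intro y hy
  have hc : IsCyclic P := isCyclic_of_prime_card hP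
  have h := hc.commutative.is_comm.comm (⟨x, hx⟩ : P) (⟨y, hy⟩ : P)
  exact (congrArg Subtype.val h).symm

theorem comm_Zc {u x : H} (hu : u ∈ P) (hx : x ∈ Zc P) : u * x = x * u :=
  Subgroup.mem_centralizer_iff.mp hx u hu

/-- A character of the centralizer whose inertia group is larger is trivial on `P`. -/
theorem triv_of (hP : Nat.card P = ℓ) {θ : Zc P → ℂ} (hθ : IsIrr θ) {y : H} (hy : y ∉ Zc P)
    (h : ∀ a : Zc P, θ (MulAut.conjNormal y a) = θ a) (u : Zc P) (hu : (u : H) ∈ P) :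
    θ u = θ 1 := by
  have hne := hθ.one_ne_zero
  have hcen : ∀ u : Zc P, (u : H) ∈ P → ∀ x, θ (u * x) * θ 1 = θ u * θ x := fun u hu x =>
    scal hθ u (fun x => Subtype.ext (comm_Zc P hu x.2)) x
  -- a nontrivial commutator
  rw [Subgroup.mem_centralizer_iff] at hy
  push Not at hy
  obtain ⟨v, hv, hvy⟩ := hy
  have hvZ : v ∈ Zc P := le_Zc P hP hv
  set v' : Zc P := ⟨v, hvZ⟩ with hv'
  set w : Zc P := MulAut.conjNormal y v' * v'⁻¹ with hw
  have hw1 : ((MulAut.conjNormal y v' : Zc P) : H) ∈ P := by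
    change y * v * y⁻¹ ∈ P
    exact Subgroup.Normal.conj_mem inferInstance v hv y
  have hwP : (w : H) ∈ P := P.mul_mem hw1 (P.inv_mem hv)
  have hwne : (w : H) ≠ 1 := by
    intro h0
    have h1 : y * v * y⁻¹ * v⁻¹ = 1 := h0
    apply hvy
    have h2 : y * v * y⁻¹ = v := by rwa [mul_inv_eq_one] at h1
    have h3 : y * v = v * y := by rwa [mul_inv_eq_iff_eq_mul] at h2
    exact h3.symm
  have hθw : θ w = θ 1 := by
    have h1 := hcen _ hw1 v'⁻¹
    have h2 := hcen v' hv v'⁻¹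
    rw [h v'] at h1
    rw [mul_inv_cancel] at h2
    have h3 : θ w * θ 1 = θ 1 * θ 1 := by rw [hw, h1, h2]
    exact mul_right_cancel₀ hne h3
  -- `w` generates `P`
  obtain ⟨k, hk⟩ : ∃ k : ℕ, w ^ k = u := by
    have h1 : (⟨(w : H), hwP⟩ : P) ≠ 1 := fun h0 => hwne (congrArg Subtype.val h0)
    have h2 : (⟨(u : H), hu⟩ : P) ∈ Submonoid.powers (⟨(w : H), hwP⟩ : P) :=
      mem_powers_of_prime_card hP h1
    obtain ⟨k, hk⟩ := h2
    refine ⟨k, Subtype.ext ?_⟩
    have h3 := congrArg Subtype.val hk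
    simpa using h3
  rw [← hk]
  clear hk
  induction k with
  | zero => rw [pow_zero]
  | succ k ih =>
    have h1 := hcen w hwP (w ^ k)
    rw [ih, hθw] at h1
    rw [pow_succ']
    exact mul_right_cancel₀ hne h1

/-- If one constituent is trivial on `P`, the character is trivial on `P`. -/
theorem triv_up {f : H → ℂ} (hf : IsIrr f) (hPZ : P ≤ Zc P) {θ : Zc P → ℂ} (hθ : IsIrr θ)
    (hip : ip (resj (Zc P).subtype f) θ ≠ 0)
    (h : ∀ u : Zc P, (u : H) ∈ P → θ u = θ 1) : ∀ u ∈ P, f u = f 1 := by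
  intro u hu
  have hexp := class_fn_expand (resj (Zc P).subtype f) (resj_class hf)
  have h1 : f u = resj (Zc P).subtype f ⟨u, hPZ hu⟩ := rfl
  have h2 : f 1 = resj (Zc P).subtype f 1 := rfl
  rw [h1, h2, hexp]
  refine Finset.sum_congr rfl fun χ hχ => ?_
  by_cases h0 : ip (resj (Zc P).subtype f) χ = 0
  · rw [h0, zero_mul, zero_mul]
  · obtain ⟨y, hy⟩ := (SUMM_thm (Zc P) H (H ⧸ Zc P) _ _ _ (clG_sub (Zc P))).2.1 θ χ f hθ
      (mem_irrF.mp hχ) hf hip h0
    congr 1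
    rw [← hy, ← hy, map_one]
    apply h
    change y * u * y⁻¹ ∈ P
    exact Subgroup.Normal.conj_mem inferInstance u hu y

/-- A character which is not trivial on `P` is induced from the centralizer. -/
theorem ind_eq (hP : Nat.card P = ℓ) {f : H → ℂ} (hf : IsIrr f) (hnt : ∃ u ∈ P, f u ≠ f 1)
    {θ : Zc P → ℂ} (hθ : IsIrr θ) (hip : ip (resj (Zc P).subtype f) θ ≠ 0) (y : H) :
    f y = (∑ z : H, ext0 θ (z⁻¹ * y * z)) / Nat.card (Zc P) := by
  have hin : inert (MulAut.conjNormal (H := Zc P)) θ = Zc P := by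
    apply le_antisymm
    · intro y hy
      by_contra hyZ
      obtain ⟨u, hu, hne⟩ := hnt
      exact hne (triv_up P hf (le_Zc P hP) hθ hip (triv_of P hP hθ hyZ hy) u hu)
    · intro y hy a
      have h1 : MulAut.conjNormal y a = ⟨y, hy⟩ * a * ⟨y, hy⟩⁻¹ := Subtype.ext rfl
      rw [h1, hθ.conj_eq]
  obtain ⟨ψ, hψ, hipψ, hind⟩ := (CCOR_thm IND_thm SUMM_thm (Zc P) H (H ⧸ Zc P) _ _ _
    (clG_sub (Zc P)) θ hθ).2.2 f hf hip
  have hψ' : IsIrr (fun a : Zc P => ext0 ψ (a : H)) := by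
    let e : Zc P ≃* inert (MulAut.conjNormal (H := Zc P)) θ := MulEquiv.subgroupCongr hin.symm
    have h1 := hψ.comp_mulEquiv e
    have h2 : (ψ ∘ e) = fun a : Zc P => ext0 ψ (a : H) := by
      ext a
      have ha : (a : H) ∈ inert (MulAut.conjNormal (H := Zc P)) θ := by rw [hin]; exact a.2
      rw [ext0_of_mem ψ ha]
      rfl
    rwa [h2] at h1
  have heq : (fun a : Zc P => ext0 ψ (a : H)) = θ := by
    by_contra hne
    exact hipψ (ip_ne hψ' hθ hne)
  have hext : ∀ x : H, ext0 ψ x = ext0 θ x := by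
    intro x
    by_cases hx : x ∈ Zc P
    · rw [ext0_of_mem θ hx]
      exact congrFun heq ⟨x, hx⟩
    · rw [ext0_of_not_mem θ hx, ext0_of_not_mem ψ]
      rwa [hin]
  have hcard : Nat.card (inert (MulAut.conjNormal (H := Zc P)) θ) = Nat.card (Zc P) := by
    rw [hin]
  rw [← hind, indc, hcard]
  simp only [hext]

/-- The normal complement of `P` in its centralizer. -/
theorem exists_compl (hP : Nat.card P = ℓ) (hi : ¬ ℓ ∣ P.index) :
    ∃ Q : Subgroup H, Q.Normal ∧ Q ≤ Zc P ∧ ¬ ℓ ∣ Nat.card Q ∧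
      ∀ x ∈ Zc P, ∃ u ∈ P, ∃ q ∈ Q, u * q = x := by
  have hℓ : ℓ.Prime := Fact.out
  have hle := le_Zc P hP
  set PZ : Subgroup (Zc P) := P.subgroupOf (Zc P) with hPZ
  have hcard : Nat.card PZ = ℓ := by
    rw [← hP]
    exact Nat.card_congr (Subgroup.subgroupOfEquivOfLe hle).toEquiv
  have hidx : ¬ ℓ ∣ PZ.index := by
    intro h
    apply hi
    have h1 : P.relIndex (Zc P) * (Zc P).index = P.index := Subgroup.relIndex_mul_index hle
    rw [← h1]
    exact Dvd.dvd.mul_right h _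
  have hcop : Nat.Coprime (Nat.card PZ) PZ.index := by
    rw [hcard]
    exact hℓ.coprime_iff_not_dvd.mpr hidx
  obtain ⟨K, hK⟩ := Subgroup.exists_right_complement'_of_coprime hcop
  have hcK : Nat.card K = PZ.index := by
    have h1 := hK.card_mul
    have h2 := Subgroup.card_mul_index PZ
    have h3 : 0 < Nat.card PZ := Nat.card_pos
    exact Nat.eq_of_mul_eq_mul_left h3 (h1.trans h2.symm)
  set Q : Subgroup H := K.map (Zc P).subtype with hQ
  have hcQ : Nat.card Q = Nat.card K :=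
    Subgroup.card_map_of_injective Subtype.val_injective
  have hdec : ∀ x ∈ Zc P, ∃ u ∈ P, ∃ q ∈ Q, u * q = x := by
    intro x hx
    obtain ⟨⟨u, k⟩, huk⟩ := hK.2 ⟨x, hx⟩
    refine ⟨((u : Zc P) : H), u.2, ((k : Zc P) : H), ⟨(k : Zc P), k.2, rfl⟩, ?_⟩
    exact congrArg Subtype.val huk
  have hQZ : Q ≤ Zc P := by
    rintro _ ⟨k, _, rfl⟩
    exact k.2
  have hQc : ¬ ℓ ∣ Nat.card Q := by
    rw [hcQ, hcK]
    exact hidx
  have hchar : ∀ x ∈ Zc P, x ^ Nat.card Q = 1 → x ∈ Q := by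
    intro x hx hx1
    obtain ⟨u, hu, q, hq, rfl⟩ := hdec x hx
    have hcomm : Commute u q := comm_Zc P hu (hQZ hq)
    rw [hcomm.mul_pow] at hx1
    have h1 : q ^ Nat.card Q = 1 := by
      have := pow_card_eq_one' (x := (⟨q, hq⟩ : Q))
      exact congrArg Subtype.val this
    rw [h1, mul_one] at hx1
    have h2 : u ^ ℓ = 1 := by
      have := pow_card_eq_one' (x := (⟨u, hu⟩ : P))
      rw [hP] at this
      exact congrArg Subtype.val this
    have h3 : orderOf u ∣ Nat.gcd ℓ (Nat.card Q) :=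
      Nat.dvd_gcd (orderOf_dvd_of_pow_eq_one h2) (orderOf_dvd_of_pow_eq_one hx1)
    rw [(hℓ.coprime_iff_not_dvd.mpr hQc : Nat.gcd ℓ (Nat.card Q) = 1)] at h3
    have h4 : u = 1 := orderOf_eq_one_iff.mp (Nat.dvd_one.mp h3)
    rw [h4, one_mul]
    exact hq
  refine ⟨Q, ⟨?_⟩, hQZ, hQc, hdec⟩
  intro q hq h
  apply hchar
  · exact Subgroup.Normal.conj_mem inferInstance q (hQZ hq) h
  · rw [conj_pow]
    have h1 : q ^ Nat.card Q = 1 := by
      have := pow_card_eq_one' (x := (⟨q, hq⟩ : Q))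
      exact congrArg Subtype.val this
    rw [h1, mul_one, mul_inv_cancel]

/-- The irreducible characters of `P × C0` are irreducible on `C0`. -/
theorem res_compl (hP : Nat.card P = ℓ) {N Q : Subgroup H} (hPN : P ≤ N) (hQZ : Q ≤ Zc P)
    (hQc : ¬ ℓ ∣ Nat.card Q) (hdec : ∀ x ∈ Zc P, ∃ u ∈ P, ∃ q ∈ Q, u * q = x)
    {θ : Zc P → ℂ} (hθ : IsIrr θ)
    (hirr : IsIrr (fun x : (Zc P ⊓ N : Subgroup H) => ext0 θ (x : H))) :
    IsIrr (fun c : (Q ⊓ N : Subgroup H) => ext0 θ (c : H)) := by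
  classical
  have hℓ : ℓ.Prime := Fact.out
  have hle := le_Zc P hP
  have hne := hθ.one_ne_zero
  have hsc : ∀ u ∈ P, ∀ x ∈ Zc P, ext0 θ (u * x) * θ 1 = ext0 θ u * ext0 θ x := by
    intro u hu x hx
    rw [ext0_of_mem θ (Subgroup.mul_mem _ (hle hu) hx), ext0_of_mem θ (hle hu),
      ext0_of_mem θ hx]
    exact scal hθ ⟨u, hle hu⟩ (fun y => Subtype.ext (comm_Zc P hu y.2)) ⟨x, hx⟩
  have hnorm : ∀ u ∈ P, ∀ c ∈ Zc P, ext0 θ (u * c) * ext0 θ (u * c)⁻¹ =
      ext0 θ c * ext0 θ c⁻¹ := by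
    intro u hu c hc
    have h1 : (u * c)⁻¹ = u⁻¹ * c⁻¹ := by
      rw [comm_Zc P hu hc, mul_inv_rev]
    have h2 := hsc u hu c hc
    have h3 := hsc u⁻¹ (P.inv_mem hu) c⁻¹ ((Zc P).inv_mem hc)
    have h4 := hsc u hu u⁻¹ ((Zc P).inv_mem (hle hu))
    rw [mul_inv_cancel, ext0_of_mem θ (Subgroup.one_mem _)] at h4
    have h5 : θ 1 * θ 1 ≠ 0 := mul_ne_zero hne hne
    have h4' : θ 1 * θ 1 = ext0 θ u * ext0 θ u⁻¹ := h4
    apply mul_right_cancel₀ h5
    rw [h1]
    calc ext0 θ (u * c) * ext0 θ (u⁻¹ * c⁻¹) * (θ 1 * θ 1)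
        = (ext0 θ (u * c) * θ 1) * (ext0 θ (u⁻¹ * c⁻¹) * θ 1) := by ring
      _ = (ext0 θ u * ext0 θ u⁻¹) * (ext0 θ c * ext0 θ c⁻¹) := by rw [h2, h3]; ring
      _ = ext0 θ c * ext0 θ c⁻¹ * (θ 1 * θ 1) := by rw [← h4']; ring
  let F : P × (Q ⊓ N : Subgroup H) → (Zc P ⊓ N : Subgroup H) := fun x =>
    ⟨(x.1 : H) * (x.2 : H), (Zc P).mul_mem (hle x.1.2) (hQZ x.2.2.1),
      N.mul_mem (hPN x.1.2) x.2.2.2⟩
  have hF : Function.Bijective F := by
    constructor
    · rintro ⟨⟨u, hu⟩, ⟨c, hc⟩⟩ ⟨⟨u', hu'⟩, ⟨c', hc'⟩⟩ h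
      have h1 : u * c = u' * c' := congrArg Subtype.val h
      have h2 : u'⁻¹ * u = c' * c⁻¹ := by
        rw [inv_mul_eq_iff_eq_mul, ← mul_assoc, eq_mul_inv_iff_mul_eq, h1]
      have h3 : u'⁻¹ * u ∈ P := P.mul_mem (P.inv_mem hu') hu
      have h4 : u'⁻¹ * u ∈ Q := by
        rw [h2]
        exact Q.mul_mem hc'.1 (Q.inv_mem hc.1)
      have h5 : (u'⁻¹ * u) ^ ℓ = 1 := by
        have := pow_card_eq_one' (x := (⟨_, h3⟩ : P))
        rw [hP] at this
        exact congrArg Subtype.val this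
      have h6 : (u'⁻¹ * u) ^ Nat.card Q = 1 := by
        have := pow_card_eq_one' (x := (⟨_, h4⟩ : Q))
        exact congrArg Subtype.val this
      have h7 : orderOf (u'⁻¹ * u) ∣ Nat.gcd ℓ (Nat.card Q) :=
        Nat.dvd_gcd (orderOf_dvd_of_pow_eq_one h5) (orderOf_dvd_of_pow_eq_one h6)
      rw [(hℓ.coprime_iff_not_dvd.mpr hQc : Nat.gcd ℓ (Nat.card Q) = 1)] at h7
      have h8 : u'⁻¹ * u = 1 := orderOf_eq_one_iff.mp (Nat.dvd_one.mp h7)
      have h9 : u = u' := by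
        rw [inv_mul_eq_one] at h8
        exact h8.symm
      subst h9
      have h10 : c = c' := mul_left_cancel h1
      subst h10
      rfl
    · rintro ⟨x, hx⟩
      obtain ⟨u, hu, q, hq, huq⟩ := hdec x hx.1
      have hqN : q ∈ N := by
        have h1 : q = u⁻¹ * x := by rw [← huq, inv_mul_cancel_left]
        rw [h1]
        exact N.mul_mem (N.inv_mem (hPN hu)) hx.2
      exact ⟨⟨⟨u, hu⟩, ⟨q, hq, hqN⟩⟩, Subtype.ext huq⟩
  have hsum := hirr.sum_self
  have h1 : ∑ x : (Zc P ⊓ N : Subgroup H), ext0 θ (x : H) * ext0 θ ((x⁻¹ : _) : H) =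
      ∑ y : P × (Q ⊓ N : Subgroup H), ext0 θ ((y.2 : H)) * ext0 θ ((y.2 : H))⁻¹ := by
    symm
    refine Fintype.sum_bijective F hF _ _ ?_
    intro y
    exact (hnorm _ y.1.2 _ (hQZ y.2.2.1)).symm
  have h2 : Nat.card (Zc P ⊓ N : Subgroup H) = ℓ * Nat.card (Q ⊓ N : Subgroup H) := by
    rw [← Nat.card_eq_of_bijective F hF, Nat.card_prod, hP]
  have h3 : ∑ y : P × (Q ⊓ N : Subgroup H), ext0 θ ((y.2 : H)) * ext0 θ ((y.2 : H))⁻¹ =
      (ℓ : ℂ) * ∑ c : (Q ⊓ N : Subgroup H), ext0 θ (c : H) * ext0 θ (c : H)⁻¹ := by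
    rw [Fintype.sum_prod_type]
    change (∑ _x : P, ∑ y : (Q ⊓ N : Subgroup H), ext0 θ (y : H) * ext0 θ (y : H)⁻¹) = _
    rw [Finset.sum_const, Finset.card_univ, nsmul_eq_mul, ← Nat.card_eq_fintype_card, hP]
  have h4 : (fun c : (Q ⊓ N : Subgroup H) => ext0 θ (c : H)) = fun c =>
      θ (Subgroup.inclusion (inf_le_left.trans hQZ : Q ⊓ N ≤ Zc P) c) := by
    ext c
    exact ext0_of_mem θ (hQZ c.2.1)
  have h5 : IsChr (fun c : (Q ⊓ N : Subgroup H) => ext0 θ (c : H)) := by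
    rw [h4]
    exact hθ.isChr.comp _
  apply h5.isIrr
  have h6 : (ℓ : ℂ) ≠ 0 := by exact_mod_cast hℓ.ne_zero
  apply mul_left_cancel₀ h6
  rw [h2] at hsum
  push_cast at hsum
  rw [← hsum]
  exact (h1.trans h3).symm

/-! ### Restriction to `N` -/

variable (N : Subgroup H) [N.Normal]

/-- The product formula. -/
theorem card_prod (Z : Subgroup H) :
    Nat.card H * Nat.card (Z ⊓ N : Subgroup H) =
      Nat.card N * Nat.card Z * (Z ⊔ N).index := by
  have h1 : N.relIndex Z * (Z ⊔ N).index = N.index := by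
    rw [← Subgroup.relIndex_sup_right Z N, Subgroup.relIndex_mul_index le_sup_right]
  have h2 : Nat.card (Z ⊓ N : Subgroup H) * N.relIndex Z = Nat.card Z := by
    have h3 := Subgroup.card_mul_index (N.subgroupOf Z)
    have h4 : Nat.card (N.subgroupOf Z) = Nat.card (Z ⊓ N : Subgroup H) := by
      rw [← Subgroup.inf_subgroupOf_right N Z, inf_comm N Z]
      exact Nat.card_congr (Subgroup.subgroupOfEquivOfLe inf_le_left).toEquiv
    rw [h4] at h3
    exact h3
  have h3 := Subgroup.card_mul_index N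
  rw [← h3, ← h1, ← h2]
  ring

/-- The restriction to `N`: the constituents of the centralizer are irreducible on
`C_N(P)`, and `H = C_H(P) N`. -/
theorem res_irr (hP : Nat.card P = ℓ) (hPN : P ≤ N) {f : H → ℂ} (hf : IsIrr f)
    (hfN : IsIrr (fun n : N => f n)) (hnt : ∃ u ∈ P, f u ≠ f 1) :
    Zc P ⊔ N = ⊤ ∧ ∃ θ : Zc P → ℂ, IsIrr θ ∧ ip (resj (Zc P).subtype f) θ ≠ 0 ∧
      IsIrr (fun x : (Zc P ⊓ N : Subgroup H) => ext0 θ (x : H)) := by
  classical
  set PN : Subgroup N := P.subgroupOf N with hPNdef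
  have hPNn : PN.Normal := inferInstance
  have hcardPN : Nat.card PN = ℓ := by
    rw [← hP]
    exact Nat.card_congr (Subgroup.subgroupOfEquivOfLe hPN).toEquiv
  have hmem : ∀ x : N, x ∈ Zc PN ↔ (x : H) ∈ Zc P := by
    intro x
    rw [Subgroup.mem_centralizer_iff, Subgroup.mem_centralizer_iff]
    constructor
    · intro h u hu
      exact congrArg Subtype.val (h ⟨u, hPN hu⟩ hu)
    · intro h u hu
      exact Subtype.ext (h u hu)
  have hntN : ∃ u ∈ PN, (fun n : N => f n) u ≠ (fun n : N => f n) 1 := by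
    obtain ⟨u, hu, hne⟩ := hnt
    exact ⟨⟨u, hPN hu⟩, hu, hne⟩
  let i : Zc PN →* Zc P :=
    { toFun := fun x => ⟨((x : N) : H), (hmem x).mp x.2⟩
      map_one' := rfl
      map_mul' := fun _ _ => rfl }
  obtain ⟨φ, hφ, hφip⟩ := Cliff.exists_under hfN (Zc PN).subtype
  -- a constituent over `φ`
  obtain ⟨θ, hθ, hθip, hθφ⟩ : ∃ θ : Zc P → ℂ, IsIrr θ ∧ ip (resj (Zc P).subtype f) θ ≠ 0 ∧
      ip (fun x => θ (i x)) φ ≠ 0 := by
    by_contra hcon
    push Not at hcon
    apply hφip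
    have hexp := class_fn_expand (resj (Zc P).subtype f) (resj_class hf)
    have h1 : resj (Zc PN).subtype (fun n : N => f n) = fun x : Zc PN =>
        ∑ χ ∈ irrF (Zc P), ip (resj (Zc P).subtype f) χ * χ (i x) := by
      ext x
      exact congrFun hexp (i x)
    rw [h1, ip_sum]
    refine Finset.sum_eq_zero fun χ hχ => ?_
    by_cases h0 : ip (resj (Zc P).subtype f) χ = 0
    · rw [h0, zero_mul]
    · rw [hcon χ (mem_irrF.mp hχ) h0, mul_zero]
  obtain ⟨b, hb, hb'⟩ := hφ.exists_degree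
  obtain ⟨a, ha, ha'⟩ := hθ.exists_degree
  have hdeg := eq_of_deg (E := fun x => θ (i x)) (hθ.isChr.comp i) hφ hθφ (a := a) (b := b)
    (by rw [map_one]; exact ha') hb'
  -- the equation of degrees
  have hext1 : ∀ {Z : Subgroup H} (χ : Z → ℂ), ext0 χ 1 = χ 1 := fun χ =>
    ext0_of_mem χ (Subgroup.one_mem _)
  have e1 : f 1 * Nat.card (Zc P) = Nat.card H * a := by
    have h1 := ind_eq P hP hf hnt hθ hθip 1
    have h2 : ∀ z : H, ext0 θ (z⁻¹ * 1 * z) = a := by
      intro z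
      rw [mul_one, inv_mul_cancel, hext1, ha']
    simp only [h2] at h1
    rw [Finset.sum_const, Finset.card_univ, nsmul_eq_mul, ← Nat.card_eq_fintype_card] at h1
    rw [h1, div_mul_cancel₀ _ natCard_ne_zero]
  have e2 : f 1 * Nat.card (Zc PN) = Nat.card N * b := by
    have h1 := ind_eq PN hcardPN hfN hntN hφ hφip 1
    have h2 : ∀ z : N, ext0 φ (z⁻¹ * 1 * z) = b := by
      intro z
      rw [mul_one, inv_mul_cancel, ext0_of_mem φ (Subgroup.one_mem _)]
      exact hb'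
    simp only [h2] at h1
    rw [Finset.sum_const, Finset.card_univ, nsmul_eq_mul, ← Nat.card_eq_fintype_card] at h1
    have h3 : f 1 = (Nat.card N : ℂ) * b / Nat.card (Zc PN) := h1
    rw [h3, div_mul_cancel₀ _ natCard_ne_zero]
  let e : (Zc P ⊓ N : Subgroup H) ≃* Zc PN :=
    { toFun := fun x => ⟨⟨(x : H), x.2.2⟩, (hmem _).mpr x.2.1⟩
      invFun := fun x => ⟨((x : N) : H), (hmem x).mp x.2, (x : N).2⟩
      left_inv := fun _ => rfl
      right_inv := fun _ => rfl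
      map_mul' := fun _ _ => rfl }
  have hcardZN : Nat.card (Zc PN) = Nat.card (Zc P ⊓ N : Subgroup H) :=
    (Nat.card_congr e.toEquiv).symm
  have hprod := card_prod N (Zc P)
  have hkey : Nat.card H * a * Nat.card (Zc P ⊓ N : Subgroup H) =
      Nat.card N * b * Nat.card (Zc P) := by
    have h1 : ((Nat.card H * a * Nat.card (Zc P ⊓ N : Subgroup H) : ℕ) : ℂ) =
        ((Nat.card N * b * Nat.card (Zc P) : ℕ) : ℂ) := by
      push_cast
      rw [← e1, ← e2, hcardZN]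
      ring
    exact_mod_cast h1
  have hN0 : 0 < Nat.card N * Nat.card (Zc P) := Nat.mul_pos Nat.card_pos Nat.card_pos
  have hkey2 : (Zc P ⊔ N).index * a = b := by
    apply Nat.eq_of_mul_eq_mul_left hN0
    calc Nat.card N * Nat.card (Zc P) * ((Zc P ⊔ N).index * a)
        = Nat.card N * Nat.card (Zc P) * (Zc P ⊔ N).index * a := by ring
      _ = Nat.card H * Nat.card (Zc P ⊓ N : Subgroup H) * a := by rw [hprod]
      _ = Nat.card H * a * Nat.card (Zc P ⊓ N : Subgroup H) := by ring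
      _ = Nat.card N * b * Nat.card (Zc P) := hkey
      _ = Nat.card N * Nat.card (Zc P) * b := by ring
  have hι : (Zc P ⊔ N).index = 1 := by
    have h1 : (Zc P ⊔ N).index ≠ 0 := Subgroup.index_ne_zero_of_finite
    by_contra h2
    have h3 : 2 ≤ (Zc P ⊔ N).index := by omega
    have h4 : 2 * a ≤ b := by
      rw [← hkey2]
      exact Nat.mul_le_mul_right a h3
    have h5 := hdeg.1
    omega
  have hab : a ≤ b := by
    rw [← hkey2, hι, one_mul]
  refine ⟨Subgroup.index_eq_one.mp hι, θ, hθ, hθip, ?_⟩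
  have h1 := hdeg.2 hab
  have h2 : (φ ∘ e) = fun x : (Zc P ⊓ N : Subgroup H) => ext0 θ (x : H) := by
    ext x
    rw [ext0_of_mem θ x.2.1]
    exact (congrFun h1 (e x)).symm
  rw [← h2]
  exact hφ.comp_mulEquiv e

end Prime

/-- The automorphism group of a group of prime order is cyclic; version with natural powers. -/
theorem exists_gen {H : Type} [Group H] [Fintype H] {ℓ : ℕ} [Fact ℓ.Prime] (P : Subgroup H)
    [P.Normal] (hP : Nat.card P = ℓ) (K : Subgroup H) :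
    ∃ n0 ∈ K, ∀ n ∈ K, ∃ k : ℕ, n * (n0 ^ k)⁻¹ ∈ Zc P := by
  have hc : IsCyclic P := isCyclic_of_prime_card hP
  have hprime : (Nat.card P).Prime := by
    rw [hP]
    exact Fact.out
  have hfact : Fact (Nat.card P).Prime := ⟨hprime⟩
  have h1 : IsCyclic (MulAut P) := (IsCyclic.mulAutMulEquiv P).isCyclic.mpr inferInstance
  let α : H →* MulAut P := MulAut.conjNormal
  have hα : ∀ h, α h = 1 → h ∈ Zc P := by
    intro h hh
    rw [Subgroup.mem_centralizer_iff]
    intro u hu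
    have h2 : ((α h ⟨u, hu⟩ : P) : H) = u := by rw [hh]; rfl
    have h3 : h * u * h⁻¹ = u := h2
    rw [mul_inv_eq_iff_eq_mul] at h3
    exact h3.symm
  have h2 : IsCyclic (K.map α) := inferInstance
  obtain ⟨g, hg⟩ := h2.exists_generator
  obtain ⟨n0, hn0, hgn0⟩ := g.2
  refine ⟨n0, hn0, fun n hn => ?_⟩
  have h3 : (⟨α n, ⟨n, hn, rfl⟩⟩ : K.map α) ∈ Subgroup.zpowers g := hg _
  have hfin : Finite (K.map α) := Subtype.finite
  rw [← mem_powers_iff_mem_zpowers] at h3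
  obtain ⟨k, hk⟩ := h3
  refine ⟨k, hα _ ?_⟩
  have h4 : α n0 ^ k = α n := by
    have h5 := congrArg Subtype.val hk
    rw [hgn0]
    exact h5
  rw [map_mul, map_inv, map_pow, h4, mul_inv_cancel]

end CYE

open _root_.Pool.Agent.DPV.CYE in
theorem CYE_thm : Stmt_CYE := by
  intro H _ _ 𝔐 ℓ _ hmax hℓ𝔐 P N _ _ hP hi hPN f hf hfN hnt
  classical
  have h𝔐 : 𝔐.IsPrime := hmax.isPrime
  obtain ⟨htop, θ, hθ, hθip, hirr⟩ := res_irr P N hP hPN hf hfN hnt
  obtain ⟨Q, hQn, hQZ, hQc, hdec⟩ := exists_compl P hP hi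
  have hφ := res_compl P hP hPN hQZ hQc hdec hθ hirr
  have hne := hθ.one_ne_zero
  have hZn : (Zc P).Normal := inferInstance
  have hNn : N.Normal := inferInstance
  set Θ : H → ℂ := ext0 θ with hΘ
  have hΘ1 : Θ 1 ≠ 0 := by
    rw [hΘ, ext0_of_mem θ (Subgroup.one_mem _)]
    exact hne
  have hΘint : ∀ y, IsIntegral ℤ (Θ y) := by
    intro y
    by_cases hy : y ∈ Zc P
    · rw [hΘ, ext0_of_mem θ hy]
      exact isIntegral_char hθ _
    · rw [hΘ, ext0_of_not_mem θ hy]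
      exact isIntegral_zero
  have hΘcl : ∀ z ∈ Zc P, ∀ y ∈ Zc P, Θ (z * y * z⁻¹) = Θ y := by
    intro z hz y hy
    rw [hΘ, ext0_of_mem θ hy, ext0_of_mem θ (hZn.conj_mem y hy z)]
    exact hθ.conj_eq ⟨z, hz⟩ ⟨y, hy⟩
  have hform : ∀ y, f y * Nat.card (Zc P) = ∑ z : H, Θ (z * y * z⁻¹) := by
    intro y
    rw [ind_eq P hP hf hnt hθ hθip y, div_mul_cancel₀ _ natCard_ne_zero]
    refine Fintype.sum_equiv (Equiv.inv H) _ _ fun z => ?_
    simp [hΘ]
  -- the group `C0`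
  set C0 : Subgroup H := Q ⊓ N with hC0
  have hC0n : C0.Normal := Subgroup.normal_inf_normal Q N
  let φ : C0 → ℂ := fun c => Θ (c : H)
  let Hφ : Subgroup H := inert (MulAut.conjNormal (H := C0)) φ
  have hZle : Zc P ≤ Hφ := by
    intro z hz c
    exact hΘcl z hz c (hQZ c.2.1)
  obtain ⟨n0, ⟨hn0φ, hn0N⟩, hn0gen⟩ := exists_gen P hP (Hφ ⊓ N)
  -- Gallagher
  let j : C0 →* Q := Subgroup.inclusion inf_le_left
  have hjinj : Function.Injective j := Subgroup.inclusion_injective inf_le_left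
  have hjn : j.range.Normal := by
    constructor
    rintro _ ⟨c, rfl⟩ g
    exact ⟨⟨(g : H) * c * (g : H)⁻¹, hC0n.conj_mem c c.2 g⟩, rfl⟩
  obtain ⟨cj, hcj⟩ := exists_conjAct j hjinj hjn
  have hcl : ClG j cj (QuotientGroup.mk' j.range) :=
    ⟨hjinj, hcj, fun y => by rw [← MonoidHom.mem_ker, QuotientGroup.ker_mk']⟩
  have : Fintype (Q ⧸ j.range) := Fintype.ofFinite _
  have hEchr : ∀ h : H, IsChr (fun y : Q => Θ (h * y * h⁻¹)) := by
    intro h
    have h1 := hθ.isChr.comp ((MulAut.conjNormal (H := Zc P) h).toMonoidHom.comp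
      (Subgroup.inclusion hQZ))
    have h2 : (fun y : Q => Θ (h * y * h⁻¹)) = fun y : Q =>
        θ ((MulAut.conjNormal (H := Zc P) h).toMonoidHom.comp (Subgroup.inclusion hQZ) y) := by
      ext y
      exact ext0_of_mem θ (hZn.conj_mem y (hQZ y.2) h)
    rw [h2]
    exact h1
  have hE1chr : IsChr (fun y : Q => Θ (y : H)) := by
    have h1 := hEchr 1
    simpa using h1
  have hEirr : ∀ h : H, IsIrr (fun c : C0 => Θ (h * (j c : H) * h⁻¹)) := by
    intro h
    exact hφ.comp_mulEquiv (MulAut.conjNormal (H := C0) h)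
  have hEn0 : IsIrr (fun y : Q => Θ (n0 * y * n0⁻¹)) :=
    isIrr_of_res j (hEchr n0) (hEirr n0)
  obtain ⟨η, hη, hηeq⟩ := (GALL_thm COSET_thm SUMM_thm C0 Q (Q ⧸ j.range) j cj _ hcl
    (QuotientGroup.mk'_surjective _) φ (fun y : Q => Θ (y : H)) hφ hE1chr
    (fun a => rfl)).2.2 _ hEn0 (by
      have h1 : resj j (fun y : Q => Θ (n0 * y * n0⁻¹)) = φ := by
        ext c
        exact hn0φ c
      rw [h1, ip_self hφ]
      exact one_ne_zero)
  have hη1 : η 1 = 1 := by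
    have h1 := congrFun hηeq 1
    simp only [OneMemClass.coe_one, mul_one, mul_inv_cancel, map_one] at h1
    exact mul_left_cancel₀ hΘ1 (h1.symm.trans (mul_one _).symm)
  obtain ⟨lam, hlam⟩ := EXTAR.exists_lin hη hη1
  let μ : Q →* ℂˣ := lam.comp (QuotientGroup.mk' j.range)
  have hμ : ∀ y : Q, Θ (n0 * y * n0⁻¹) = Θ (y : H) * ((μ y : ℂˣ) : ℂ) := by
    intro y
    have h1 := congrFun hηeq y
    rw [← hlam] at h1
    exact h1
  have hμC : ∀ c : C0, μ (j c) = 1 := by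
    intro c
    have h1 : QuotientGroup.mk' j.range (j c) = 1 := (hcl.ker _).mpr ⟨c, rfl⟩
    change lam (QuotientGroup.mk' j.range (j c)) = 1
    rw [h1, map_one]
  -- the element `z0`
  obtain ⟨z0, hz0⟩ : ∃ z0 : Q, ∀ y : Q, ∃ k : ℤ, μ z0 ^ k = μ y := by
    have hfin : Finite μ.range := inferInstance
    have hcyc : IsCyclic μ.range := inferInstance
    obtain ⟨g, hg⟩ := hcyc.exists_generator
    obtain ⟨z0, hz0⟩ := g.2
    refine ⟨z0, fun y => ?_⟩
    obtain ⟨k, hk⟩ := hg ⟨μ y, ⟨y, rfl⟩⟩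
    refine ⟨k, ?_⟩
    have h1 := congrArg Subtype.val hk
    rw [hz0]
    exact h1
  -- elements of `N ∩ Hφ` fix `Θ` on the cosets in the kernel of `μ`
  have hfix : ∀ z1 : Q, μ z1 = 1 → ∀ h ∈ Hφ, ∀ c : C0,
      Θ (h * ((z1 * j c : Q) : H) * h⁻¹) = Θ ((z1 * j c : Q) : H) := by
    intro z1 hz1 h hh c
    have hstep : ∀ k : ℕ, ∀ y : Q, (z1⁻¹ * y : H) ∈ N →
        Θ (n0 ^ k * y * (n0 ^ k)⁻¹) = Θ (y : H) := by
      intro k
      induction k with
      | zero =>
        intro y _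
        simp
      | succ k ih =>
        intro y hy
        have hy2 : n0 * (y : H) * n0⁻¹ ∈ Q := hQn.conj_mem y y.2 n0
        have h1 := ih ⟨n0 * (y : H) * n0⁻¹, hy2⟩ (by
          have h2 : (z1 : H)⁻¹ * (n0 * (y : H) * n0⁻¹) =
              ((z1 : H)⁻¹ * n0 * (z1 : H)) * ((z1 : H)⁻¹ * y) * n0⁻¹ := by group
          change (z1 : H)⁻¹ * (n0 * (y : H) * n0⁻¹) ∈ N
          rw [h2]
          refine N.mul_mem (N.mul_mem ?_ hy) (N.inv_mem hn0N)
          have h3 := hNn.conj_mem n0 hn0N (z1 : H)⁻¹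
          rwa [inv_inv] at h3)
        have h2 : n0 ^ (k + 1) * (y : H) * (n0 ^ (k + 1))⁻¹ =
            n0 ^ k * (n0 * (y : H) * n0⁻¹) * (n0 ^ k)⁻¹ := by
          rw [pow_succ]
          group
        rw [h2]
        refine h1.trans ?_
        change Θ (n0 * (y : H) * n0⁻¹) = _
        rw [hμ y]
        have h3 : μ y = 1 := by
          have h4 : (z1⁻¹ * y : H) ∈ C0 := ⟨Q.mul_mem (Q.inv_mem z1.2) y.2, hy⟩
          have h5 : y = z1 * j ⟨_, h4⟩ := Subtype.ext (by
            change (y : H) = (z1 : H) * ((z1 : H)⁻¹ * y)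
            group)
          rw [h5, map_mul, hz1, hμC, one_mul]
        rw [h3, Units.val_one, mul_one]
    obtain ⟨z, hz, n, hn, hzn⟩ := Subgroup.mem_sup_of_normal_right.mp
      (show h ∈ Zc P ⊔ N by rw [htop]; trivial)
    have hnφ : n ∈ Hφ := by
      have h1 : n = z⁻¹ * h := by rw [← hzn, inv_mul_cancel_left]
      rw [h1]
      exact Hφ.mul_mem (Hφ.inv_mem (hZle hz)) hh
    obtain ⟨k, hk⟩ := hn0gen n ⟨hnφ, hn⟩
    set y : Q := z1 * j c with hy
    have hyN : (z1⁻¹ * y : H) ∈ N := by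
      have h1 : (z1 : H)⁻¹ * (y : H) = c := by
        rw [hy]
        change (z1 : H)⁻¹ * ((z1 : H) * (c : H)) = c
        group
      change (z1 : H)⁻¹ * (y : H) ∈ N
      rw [h1]
      exact c.2.2
    have hyZ : (y : H) ∈ Zc P := hQZ y.2
    have h1 : h * (y : H) * h⁻¹ =
        (z * (n * (n0 ^ k)⁻¹)) * (n0 ^ k * y * (n0 ^ k)⁻¹) * (z * (n * (n0 ^ k)⁻¹))⁻¹ := by
      rw [← hzn]
      group
    rw [h1, hΘcl _ (Subgroup.mul_mem _ hz hk) _ (hZn.conj_mem _ hyZ _)]
    exact hstep k y hyN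
  refine ⟨z0, fun h => ?_⟩
  obtain ⟨z, hz, n, hn, hzn⟩ := Subgroup.mem_sup_of_normal_right.mp
    (show h ∈ Zc P ⊔ N by rw [htop]; trivial)
  obtain ⟨u, hu, q, hq, huq⟩ := hdec z hz
  obtain ⟨k, hk⟩ := hz0 ⟨q, hq⟩
  set z1 : Q := ⟨q, hq⟩ * z0 ^ (-k) with hz1
  have hμz1 : μ z1 = 1 := by
    rw [hz1, map_mul, map_zpow, ← hk, zpow_neg, mul_inv_cancel]
  -- the main computation
  obtain ⟨c, hc⟩ : ∃ c : C0, red 𝔐 (f ((z1 * j c : Q) : H)) ≠ 0 := by
    by_contra hcon
    push Not at hcon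
    set T : ℂ := ∑ c : C0, f ((z1 * j c : Q) : H) * Θ (((z1 * j c)⁻¹ : Q) : H) with hT
    have hT0 : red 𝔐 T = 0 := by
      rw [hT, red_sum 𝔐 _ _ (fun c _ => (isIntegral_char hf _).mul (hΘint _))]
      refine Finset.sum_eq_zero fun c _ => ?_
      rw [red_mul 𝔐 (isIntegral_char hf _) (hΘint _), hcon c, zero_mul]
    have hS : ∀ h : H, ∑ c : C0, Θ (h * ((z1 * j c : Q) : H) * h⁻¹) *
        Θ (((z1 * j c)⁻¹ : Q) : H) = if h ∈ Hφ then (Nat.card C0 : ℂ) else 0 := by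
      intro h
      split_ifs with hh
      · have h1 := COSET_thm C0 Q (Q ⧸ j.range) j cj _ hcl φ (fun y : Q => Θ (y : H)) hφ hE1chr
          (fun a => rfl) z1
        rw [← h1]
        refine Finset.sum_congr rfl fun c _ => ?_
        rw [hfix z1 hμz1 h hh c]
      · apply orth j (hEchr h) hE1chr (hEirr h) hφ _ z1
        by_contra hc
        push Not at hc
        exact hh hc
    have hTZ : T * Nat.card (Zc P) = Nat.card Hφ * Nat.card C0 := by
      have h1 : T * Nat.card (Zc P) = ∑ h : H, ∑ c : C0,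
          Θ (h * ((z1 * j c : Q) : H) * h⁻¹) * Θ (((z1 * j c)⁻¹ : Q) : H) := by
        rw [hT, Finset.sum_mul, Finset.sum_comm]
        refine Finset.sum_congr rfl fun c _ => ?_
        rw [mul_right_comm, hform, Finset.sum_mul]
      rw [h1]
      simp only [hS]
      rw [← Finset.sum_filter, Finset.sum_const, nsmul_eq_mul]
      congr 2
      rw [Nat.card_eq_fintype_card, Fintype.card_subtype]
    have hr1 : Nat.card (Zc P) * (Zc P).relIndex Hφ = Nat.card Hφ := by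
      have h1 := Subgroup.card_mul_index ((Zc P).subgroupOf Hφ)
      rw [Nat.card_congr (Subgroup.subgroupOfEquivOfLe hZle).toEquiv] at h1
      exact h1
    have hr2 : ¬ ℓ ∣ (Zc P).relIndex Hφ * Nat.card C0 := by
      intro h1
      rcases (Fact.out : ℓ.Prime).dvd_mul.mp h1 with h2 | h2
      · apply hi
        have h3 : (Zc P).relIndex Hφ * Hφ.index = (Zc P).index :=
          Subgroup.relIndex_mul_index hZle
        have h4 : P.relIndex (Zc P) * (Zc P).index = P.index :=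
          Subgroup.relIndex_mul_index (le_Zc P hP)
        rw [← h4, ← h3]
        exact Dvd.dvd.mul_left (Dvd.dvd.mul_right h2 _) _
      · exact hQc (h2.trans (Subgroup.card_dvd_of_le inf_le_left))
    have hTeq : T = (((Zc P).relIndex Hφ * Nat.card C0 : ℕ) : ℂ) := by
      have h1 : (Nat.card (Zc P) : ℂ) ≠ 0 := natCard_ne_zero
      apply mul_right_cancel₀ h1
      rw [hTZ, ← hr1]
      push_cast
      ring
    apply red_card_ne_zero 𝔐 hℓ𝔐 hr2
    rw [← hTeq]
    exact hT0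
  refine ⟨-k, ((z1 * j c : Q) : H), ?_, ?_, ?_, hc⟩
  · intro v hv
    exact (comm_Zc P hv (hQZ (z1 * j c : Q).2)).symm
  · intro h1
    apply hQc
    refine h1.trans ?_
    rw [Subgroup.orderOf_coe]
    exact orderOf_dvd_natCard _
  · have h1 : ((z1 * j c : Q) : H) = q * (z0 : H) ^ (-k) * c := by
      rw [hz1]
      push_cast
      rfl
    have h2 : q * (z0 : H) ^ (-k) * c * (h * (z0 : H) ^ (-k))⁻¹ =
        q * (((z0 : H) ^ (-k) * c * ((z0 : H) ^ (-k))⁻¹) * n⁻¹) * q⁻¹ * u⁻¹ := by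
      rw [← hzn, ← huq]
      group
    rw [h1, h2]
    refine N.mul_mem (hNn.conj_mem _ (N.mul_mem (hNn.conj_mem _ c.2.2 _) (N.inv_mem hn)) _)
      (N.inv_mem (hPN hu))

end Pool.Agent.DPV


end
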