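import Mathlib
import Pool.Agent.DAM.C01
import Pool.Agent.DAM.C08
import Pool.Agent.DAM.C11
import Pool.Agent.DAM.C12
import Pool.Agent.DAM.C14
import Pool.Agent.DAM.C15
import Pool.Agent.DAM.C19
import Pool.Agent.DAM.C22
import Pool.Agent.DAM.C25
import Pool.Agent.DAM.C43
import Pool.Agent.DAM.C47
import Pool.Agent.DAM.C48
import Pool.Agent.DAM.C77
import Pool.Agent.DAM.C82

/-! Parts: DP.NODZ, DP.LDZ, DPC.PART, DPW.BKN, DPW.EXTB, DPW.DFW, DPW.CYBW, DPX.BKNX, DPX.CYCX -/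

section

/-!
# NODZ: if Dade's conjecture holds, only characters of defect zero contribute
-/

namespace Pool.Agent.DP

open Pool.Agent.Lib_helper13 Representation
open Pool.Agent.Lib_helper13.Dade (pCore DadeHolds)

theorem NODZ_thm : Stmt_NODZ := by
  intro G _ _ 𝔐 ℓ _ h𝔐 hℓ hcore hD d b hne
  have := h𝔐.isPrime
  rcases Nat.eq_zero_or_pos d with rfl | hd
  · obtain ⟨χ, h1, h2, h3⟩ := KK_zero 𝔐 hℓ hne
    exact ⟨χ, h1, h2, funext h3⟩
  · exfalso
    have haa : aa 𝔐 ℓ d b ≠ 0 := by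
      rw [aa]
      exact div_ne_zero hne (by exact_mod_cast Nat.card_pos.ne')
    obtain ⟨χ, h1, h2, h3, h4⟩ := exists_dadeSum 𝔐 hℓ hcore hd haa
    have h5 := hD 𝔐 h𝔐 hℓ χ h1 h2 d
    apply haa
    rw [← h4, h5, Int.cast_zero]

end Pool.Agent.DP


end

section

/-!
# LDZ: the values of the chain sum of the inverse image of `L` which do not vanish
-/

namespace Pool.Agent.DP

open Pool.Agent.Lib_helper13 Representation
open Pool.Agent.Lib_helper13.Dade (pCore DadeHolds)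

namespace LDZ

theorem stx_empty {G B : Type} [Group G] [Group B] (κ : B →* MulAut G) :
    Stx κ (∅ : Finset (Subgroup G)) (fun _ => 0) = ⊤ := by
  rw [eq_top_iff]
  intro b _
  exact ⟨fun D hD => absurd hD (Finset.notMem_empty D), fun _ => rfl⟩

end LDZ

theorem LDZ_thm (h1 : Stmt_LKA) (h2 : Stmt_LKB) : Stmt_LDZ := by
  intro G B C _ _ _ _ _ 𝔐 ℓ _ ι κ ρ hS h𝔐 hℓ hD L _ e ω hne
  classical
  have hprime := h𝔐.isPrime
  have hle : ι.range ≤ L.comap ρ := by
    rintro _ ⟨g, rfl⟩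
    rw [Subgroup.mem_comap]
    have : ρ (ι g) = 1 := (hS.cl.ker _).mpr ⟨g, rfl⟩
    rw [this]
    exact L.one_mem
  have hDT : DadeHolds ℓ (L.comap ρ) := hD _ hle
  have hcore : pCore ℓ (L.comap ρ) = ⊥ := (h1 G B C ℓ ι κ ρ hS L).1
  obtain ⟨χ, hχ1, hχ2, hχ3⟩ := NODZ_thm (L.comap ρ) 𝔐 ℓ h𝔐 hℓ hcore hDT e ω hne
  -- the stabilizer of the empty chain
  obtain ⟨Y, hY⟩ : ∃ Y : Subgroup (L.comap ρ),
      Y = (Stx κ (∅ : Finset (Subgroup G)) (fun _ => 0)).comap (L.comap ρ).subtype := ⟨_, rfl⟩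
  have hYtop : Y = ⊤ := by
    rw [hY, LDZ.stx_empty, Subgroup.comap_top]
  have hc := h2 G B C 𝔐 ℓ ι κ ρ hS h𝔐 hℓ L ∅ Y hY 0 ω
  have hcnt : cnt 𝔐 ℓ 0 Y.subtype ω ≠ 0 := by
    let eY : Y ≃* (L.comap ρ) := (MulEquiv.subgroupCongr hYtop).trans Subgroup.topEquiv
    have hcomp : Y.subtype = (MonoidHom.id (L.comap ρ)).comp eY.toMonoidHom := by
      ext y
      rfl
    rw [hcomp, cnt_comp_equiv, cnt]
    have hfin : Finite {θ : L.comap ρ → ℂ // IsIrr θ ∧ (HasDefect ℓ θ 0 ∧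
        ∀ g, cen 𝔐 (MonoidHom.id (L.comap ρ)) θ g = ω g)} := by
      have hf : Set.Finite {θ : L.comap ρ → ℂ | IsIrr θ} := finite_isIrr (H := L.comap ρ)
      exact (hf.subset (fun θ hθ => hθ.1) :
        Set.Finite {θ : L.comap ρ → ℂ | IsIrr θ ∧ (HasDefect ℓ θ 0 ∧
          ∀ g, cen 𝔐 (MonoidHom.id (L.comap ρ)) θ g = ω g)}).to_subtype
    have : Nonempty {θ : L.comap ρ → ℂ // IsIrr θ ∧ (HasDefect ℓ θ 0 ∧
        ∀ g, cen 𝔐 (MonoidHom.id (L.comap ρ)) θ g = ω g)} :=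
      ⟨⟨χ, hχ1, hχ2, fun g => congrFun hχ3 g⟩⟩
    exact Nat.card_pos.ne'
  have hl : (Nat.card Y : ℚ) * cnt 𝔐 ℓ 0 Y.subtype ω ≠ 0 :=
    mul_ne_zero (by exact_mod_cast Nat.card_pos.ne') (by exact_mod_cast hcnt)
  rw [hc] at hl
  obtain ⟨ψ, hψ, hψ0⟩ := Finset.exists_ne_zero_of_sum_ne_zero hl
  have hcard : Nat.card {f : B → ℂ // ExtL ι κ ρ ∅ ψ L f ∧ df ℓ (stb (∅ : Finset (Subgroup G))) ψ = 0 ∧
      ∀ g : L.comap ρ, cgT 𝔐 (L.comap ρ) f g = ω g} ≠ 0 := by
    intro h0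
    apply hψ0
    rw [h0, Nat.cast_zero, mul_zero]
  obtain ⟨⟨f, hf1, hf2, hf3⟩⟩ : Nonempty {f : B → ℂ // ExtL ι κ ρ ∅ ψ L f ∧
      df ℓ (stb (∅ : Finset (Subgroup G))) ψ = 0 ∧
      ∀ g : L.comap ρ, cgT 𝔐 (L.comap ρ) f g = ω g} := by
    by_contra hemp
    rw [not_nonempty_iff] at hemp
    exact hcard Nat.card_of_isEmpty
  have hψI : IrrOn (stb (∅ : Finset (Subgroup G))) ψ := IRRPI.mem_irrOn.mp hψ
  have hψirr : IsIrr ψ := AA.irr_top stb_empty hψI
  refine ⟨ψ, hψirr, ?_, f, hf1, hf3⟩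
  have hd := AA.hasDefect_df ℓ (stb (∅ : Finset (Subgroup G))) hψI
  rw [hf2] at hd
  obtain ⟨n, hn1, hn2⟩ := hd
  refine ⟨n, hn1, ?_⟩
  rw [← hn2, stb_empty]
  congr 1
  exact (Nat.card_congr (Subgroup.topEquiv (G := G)).toEquiv).symm

end Pool.Agent.DP


end

section

/-!
# PART: the sums over the chains of the normal subgroup vanish outside the type of defect zero
-/

namespace Pool.Agent.DPC

open Pool.Agent.DP Pool.Agent.Lib_helper13 Representation
open Pool.Agent.Lib_helper13.Dade (pCore DadeHolds dadeSum)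

namespace PART

/-- If the sum over all chains does not vanish then there is no normal `ℓ`-subgroup. -/
theorem pCore_eq_bot {B : Type} [Group B] [Fintype B] (𝔐 : Ideal (integralClosure ℤ ℂ)) {ℓ : ℕ}
    [Fact ℓ.Prime] {e : ℕ} {ω : B → (integralClosure ℤ ℂ) ⧸ 𝔐}
    (h : KK 𝔐 ℓ e (⊥ : Subgroup B) ω ≠ 0) : pCore ℓ B = ⊥ := by
  by_contra hne
  apply h
  have : (pCore ℓ B).Normal := pCore_normal ℓ
  have h1 := sum_chains_eq_zero (ℓ := ℓ) (⊥ : Subgroup B) (pCore ℓ B) (isPGroup_pCore ℓ)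
    (bot_lt_iff_ne_bot.mpr hne)
    (fun S => (Nat.card S : ℚ) * cnt 𝔐 ℓ e S.subtype ω)
  rw [KK, ← h1]
  refine Finset.sum_congr rfl fun σ _ => ?_
  rw [zsmul_eq_mul]
  push_cast
  ring

/-- The plain conjecture for `B` itself. -/
theorem dade_top {G B : Type} [Group G] [Group B] [Finite B] {ℓ : ℕ} [Fact ℓ.Prime] (ι : G →* B)
    (hD : DH ℓ ι) (hcore : pCore ℓ B = ⊥) : DadeHolds ℓ B := by
  refine hD ⊤ le_top ⊥ bot_le IsPGroup.of_bot (bot_inf_eq _) B
    (⊤ ⊓ Subgroup.centralizer ((⊥ : Subgroup B) : Set B)).subtype ?_ ?_ hcore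
  · intro b
    refine ⟨⟨b, Subgroup.mem_inf.mpr ⟨Subgroup.mem_top b, ?_⟩⟩, rfl⟩
    rw [Subgroup.mem_centralizer_iff]
    intro x hx
    have hx1 : x = 1 := Subgroup.mem_bot.mp hx
    rw [hx1, one_mul, mul_one]
  · intro x
    rw [Subgroup.mem_bot]
    exact Iff.rfl

section Case2

variable {G B C : Type} [Group G] [Group B] [Group C] {ℓ : ℕ} {ι : G →* B} {κ : B →* MulAut G}
  {ρ : B →* C}

theorem iota_mem (hL : ClG ι κ ρ) (E : Subgroup B) (g : G) :
    g ∈ FX κ E ↔ ι g ∈ Subgroup.centralizer (E : Set B) := by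
  rw [mem_FX, Subgroup.mem_centralizer_iff]
  constructor
  · intro h b hb
    have h1 := hL.act b g
    rw [h b hb] at h1
    calc b * ι g = (b * ι g * b⁻¹) * b := by group
      _ = ι g * b := by rw [← h1]
  · intro h b hb
    apply hL.inj
    rw [hL.act, h b hb]
    group

/-- The embedding of the fixed points in the centralizer. -/
def emb (hL : ClG ι κ ρ) (E : Subgroup B) :
    ↥(FX κ E) →* ↥(Subgroup.centralizer (E : Set B)) :=
  (ι.comp (FX κ E).subtype).codRestrict _ (fun g => (iota_mem hL E g).mp g.2)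

theorem emb_coe (hL : ClG ι κ ρ) (E : Subgroup B) (g : FX κ E) :
    ((emb hL E g : Subgroup.centralizer (E : Set B)) : B) = ι g := rfl

theorem clG_emb (hL : ClG ι κ ρ) (E : Subgroup B) {B1 : Type} [Group B1]
    (π : ↥(Subgroup.centralizer (E : Set B)) →* B1) (κ1 : B1 →* MulAut ↥(FX κ E))
    (hκ : ∀ (x : Subgroup.centralizer (E : Set B)) (g : FX κ E),
      ((κ1 (π x) g : FX κ E) : G) = κ x g) :
    ClG (emb hL E) (κ1.comp π) (ρ.comp (Subgroup.centralizer (E : Set B)).subtype) where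
  inj := by
    intro a b hab
    apply Subtype.ext
    apply hL.inj
    exact congrArg Subtype.val hab
  act := by
    intro y a
    apply Subtype.ext
    change ι ((κ1 (π y) a : FX κ E) : G) = (y : B) * ι a * (y : B)⁻¹
    rw [hκ, hL.act]
  ker := by
    intro y
    constructor
    · intro hy
      obtain ⟨g, hg⟩ := (hL.ker (y : B)).mp hy
      have hgF : g ∈ FX κ E := by
        rw [iota_mem hL E g, hg]
        exact y.2
      exact ⟨⟨g, hgF⟩, Subtype.ext hg⟩
    · rintro ⟨g, rfl⟩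
      exact (hL.ker _).mpr ⟨g, rfl⟩

end Case2

end PART

open _root_.Pool.Agent.DPC.PART in
theorem PART_thm (h1 : Stmt_DER) (h2 : Stmt_TWE) (h3 : Stmt_SPA) (h4 : Stmt_SDZ)
    (h5 : Stmt_DGNA) : Stmt_PART := by
  have main : ∀ (n : ℕ) (G B C : Type) [Group G] [Fintype G] [Group B] [Fintype B] [Group C]
      (𝔐 : Ideal (integralClosure ℤ ℂ)) (ℓ : ℕ) [Fact ℓ.Prime], 𝔐.IsMaximal →
      (ℓ : integralClosure ℤ ℂ) ∈ 𝔐 →
      ∀ (ι : G →* B) (κ : B →* MulAut G) (ρ : B →* C), LocW ℓ ι κ ρ → DH ℓ ι →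
        Nat.card B = n → PZ 𝔐 ℓ ι κ := by
    intro n
    induction n using Nat.strong_induction_on with
    | _ n ih =>
      intro G B C _ _ _ _ _ 𝔐 ℓ _ h𝔐 hℓ ι κ ρ hL hD hn e ω hne
      rcases h3 G B C 𝔐 ℓ ι κ ρ hL e ω hne with hK | ⟨E, hE1, hE2, hE3, hE4⟩
      · have hcore := pCore_eq_bot 𝔐 hK
        obtain ⟨χ, hχ, hχ0, hχω⟩ := NODZ_thm B 𝔐 ℓ h𝔐 hℓ hcore (dade_top ι hD hcore) e ω hK
        obtain ⟨θ, hθ, hθχ⟩ := CLG.exists_under ι hχ
        exact ⟨χ, θ, hχ, hθ, h4 G B C ℓ ι κ ρ hL χ θ hχ hθ hχ0 hθχ, hθχ, hχω⟩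
      · obtain ⟨hnc, B1, C1, _, _, _, π, ι1, κ1, ρ1, hL1, hπ, hker, hι1, hκ1, hDH⟩ :=
          h1 G B C ℓ ι κ ρ hL E hE2 hE3
        obtain ⟨ω', hω', hψ⟩ := hE4 (κ1.comp π) (fun x g => hκ1 x g)
        -- the order of `B1`
        have hEc : E ≤ Subgroup.centralizer (E : Set B) := by
          intro b hb
          apply hnc
          apply le_antisymm
          · rintro _ ⟨x, hx, rfl⟩
            exact E.mul_mem (E.mul_mem hb hx) (E.inv_mem hb)
          · intro x hx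
            refine ⟨b⁻¹ * x * b, E.mul_mem (E.mul_mem (E.inv_mem hb) hx) hb, ?_⟩
            change b * (b⁻¹ * x * b) * b⁻¹ = x
            group
        have hcard : Nat.card B1 < n := by
          have hc1 : Nat.card ↥(Subgroup.centralizer (E : Set B)) ≤ n := by
            rw [← hn]
            exact Subgroup.card_le_card_group _
          refine lt_of_lt_of_le ?_ hc1
          have hc2 : Nat.card B1 ≤ Nat.card ↥(Subgroup.centralizer (E : Set B)) :=
            Nat.card_le_card_of_surjective π hπ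
          refine lt_of_le_of_ne hc2 fun heq => ?_
          have hbij : Function.Bijective π := by
            rw [Nat.bijective_iff_surjective_and_card]
            exact ⟨hπ, heq.symm⟩
          apply hE1
          rw [Subgroup.eq_bot_iff_forall]
          intro b hb
          have hb1 : π ⟨b, hEc hb⟩ = 1 := (hker _).mpr hb
          have hb2 := hbij.1 (hb1.trans (map_one π).symm)
          exact congrArg Subtype.val hb2
        have hcl := clG_emb hL.cl E π κ1 hκ1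
        have hkerP : IsPGroup ℓ π.ker := by
          rintro ⟨x, hx⟩
          have hxE : (x : B) ∈ E := (hker x).mp (MonoidHom.mem_ker.mp hx)
          obtain ⟨k, hk⟩ := hE2 ⟨(x : B), hxE⟩
          refine ⟨k, ?_⟩
          apply Subtype.ext
          apply Subtype.ext
          have hk1 := congrArg Subtype.val hk
          exact hk1
        have hkerZ : π.ker ≤ Subgroup.center ↥(Subgroup.centralizer (E : Set B)) := by
          intro x hx
          have hxE : (x : B) ∈ E := (hker x).mp (MonoidHom.mem_ker.mp hx)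
          rw [Subgroup.mem_center_iff]
          intro y
          apply Subtype.ext
          exact ((Subgroup.mem_centralizer_iff.mp y.2) (x : B) hxE).symm
        have hkerI : π.ker ⊓ (emb hL.cl E).range = ⊥ := by
          rw [Subgroup.eq_bot_iff_forall]
          rintro x ⟨hx, g, hg⟩
          have hxE : (x : B) ∈ E := (hker x).mp (MonoidHom.mem_ker.mp hx)
          have hxi : (x : B) ∈ ι.range := ⟨(g : G), congrArg Subtype.val hg⟩
          have hx1 : (x : B) ∈ E ⊓ ι.range := ⟨hxE, hxi⟩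
          rw [hE3, Subgroup.mem_bot] at hx1
          exact Subtype.ext hx1
        obtain ⟨ht1, ht2⟩ := h2 ↥(FX κ E) ↥(Subgroup.centralizer (E : Set B)) B1 C 𝔐 ℓ h𝔐 hℓ
          (emb hL.cl E) κ1 π (ρ.comp (Subgroup.centralizer (E : Set B)).subtype) hcl hL.cyc hπ
          hkerP hkerZ hkerI
        obtain ⟨e', ω'', hω'', hωω⟩ := ht1 e ω' hω'
        obtain ⟨χ1, θ1, hχ1, hθ1, hθ10, hip, hcen⟩ :=
          ih (Nat.card B1) hcard ↥(FX κ E) B1 C1 𝔐 ℓ h𝔐 hℓ ι1 κ1 ρ1 hL1 (hDH hD) rfl e' ω'' hω''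
        obtain ⟨hi1, hi2⟩ := ht2 χ1 hχ1
        have hcψ : cen 𝔐 (MonoidHom.id _) (fun x => χ1 (π x)) = ω' := by
          rw [hi2, hcen, hωω]
        have hcω := hψ _ hi1 hcψ
        have hres : resj (emb hL.cl E) (fun x => χ1 (π x)) = resj ι1 χ1 := by
          funext g
          change χ1 (π (emb hL.cl E g)) = χ1 (ι1 g)
          rw [hι1 g (emb hL.cl E g) rfl]
        obtain ⟨χ, ξ, hχ, hξ, hξ0, hip', hc⟩ := h5 G B C 𝔐 ℓ h𝔐 hℓ ι κ ρ hL E hE1 hE2 hE3
          (emb hL.cl E) (fun g => rfl) (fun x => χ1 (π x)) θ1 hi1 hθ1 hθ10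
          (by rw [hres]; exact hip)
        exact ⟨χ, ξ, hχ, hξ, hξ0, hip', by rw [hc, hcω]⟩
  intro G B C _ _ _ _ _ 𝔐 ℓ _ h𝔐 hℓ ι κ ρ hL hD
  exact main (Nat.card B) G B C 𝔐 ℓ h𝔐 hℓ ι κ ρ hL hD rfl

end Pool.Agent.DPC


end

section

/-!
# The Brauer homomorphism and the block idempotent (module DPW_BKN)
-/

namespace Pool.Agent.DPW.BKN

open Pool.Agent.DPB Pool.Agent.Lib_helper13 Representation

/-- Sums of functions invariant under conjugation by an `ℓ`-subgroup. -/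
theorem sum_fix {ℓ : ℕ} [Fact ℓ.Prime] {F T : Type} [Field F] [CharP F ℓ] [Group T] [Fintype T]
    (P : Subgroup T) [DecidablePred fun y => y ∈ Subgroup.centralizer (P : Set T)]
    (hP : IsPGroup ℓ P) (f : T → F) (hf : ∀ u ∈ P, ∀ y, f (u * y * u⁻¹) = f y) :
    ∑ y, f y = ∑ y, if y ∈ Subgroup.centralizer (P : Set T) then f y else 0 := by
  classical
  let act : MulAction P T := {
    smul := fun u y => u.1 * y * u.1⁻¹
    one_smul := fun y => by
      change ((1 : P) : T) * y * ((1 : P) : T)⁻¹ = y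
      simp
    mul_smul := fun a b y => by
      change ((a * b : P) : T) * y * ((a * b : P) : T)⁻¹ = a.1 * (b.1 * y * b.1⁻¹) * a.1⁻¹
      simp [mul_assoc] }
  have hsmul : ∀ (q : P) (y : T), q • y = q.1 * y * q.1⁻¹ := fun _ _ => rfl
  have hkill : ∀ m : F, ℓ • m = 0 := by
    intro m
    rw [nsmul_eq_mul, CharP.cast_eq_zero, zero_mul]
  have h1 := sum_eq_sum_fixed (Q := P) (X := T) hP hkill f (fun q y => by
    rw [hsmul]; exact hf q.1 q.2 y)
  rw [h1, Finset.sum_filter]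
  refine Finset.sum_congr rfl fun y _ => ?_
  have h2 : (∀ q : P, q • y = y) ↔ y ∈ Subgroup.centralizer (P : Set T) := by
    rw [Subgroup.mem_centralizer_iff]
    constructor
    · intro h u hu
      have h3 := h ⟨u, hu⟩
      rw [hsmul] at h3
      exact mul_inv_eq_iff_eq_mul.mp h3
    · intro h q
      rw [hsmul]
      exact mul_inv_eq_iff_eq_mul.mpr (h q.1 q.2)
  by_cases h : y ∈ Subgroup.centralizer (P : Set T)
  · rw [if_pos h, if_pos (h2.2 h)]
  · rw [if_neg h, if_neg (fun h3 => h (h2.1 h3))]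

/-- The centralizer is contained in the normalizer. -/
theorem cen_le {T : Type} [Group T] (P : Subgroup T) {y : T}
    (hy : y ∈ Subgroup.centralizer (P : Set T)) : y ∈ Subgroup.normalizer (P : Set T) :=
  Subgroup.centralizer_le_normalizer (P : Set T) hy

/-- Sums over the centralizer as sums over the normalizer. -/
theorem sum_nrm {F T : Type} [Field F] [Group T] [Fintype T]
    (P : Subgroup T) [Fintype (NP P)]
    [DecidablePred fun y => y ∈ Subgroup.centralizer (P : Set T)] (f : T → F) :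
    (∑ y, if y ∈ Subgroup.centralizer (P : Set T) then f y else 0) =
      ∑ y : NP P, if (y : T) ∈ Subgroup.centralizer (P : Set T) then f y else 0 := by
  classical
  rw [← Finset.sum_filter, ← Finset.sum_filter]
  symm
  refine Finset.sum_bij (fun (y : NP P) _ => (y : T)) ?_ ?_ ?_ ?_
  · intro y hy
    have h := (Finset.mem_filter.1 hy).2
    exact Finset.mem_filter.2 ⟨Finset.mem_univ _, h⟩
  · intro a _ b _ h
    exact Subtype.ext h
  · intro y hy
    have h := (Finset.mem_filter.1 hy).2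
    exact ⟨⟨y, cen_le P h⟩, Finset.mem_filter.2 ⟨Finset.mem_univ _, h⟩, rfl⟩
  · intro y _
    rfl

/-- The Brauer homomorphism is multiplicative. -/
theorem brz_cv {ℓ : ℕ} [Fact ℓ.Prime] {F T : Type} [Field F] [CharP F ℓ] [Group T] [Fintype T]
    (P : Subgroup T) [Fintype (NP P)] (hP : IsPGroup ℓ P) {z z' : T → F} (hz : z ∈ CF F T)
    (hz' : z' ∈ CF F T) : brz P (cvF z z') = cvF (brz P z) (brz P z') := by
  classical
  funext n
  have hR : cvF (brz P z) (brz P z') n = ∑ y : NP P,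
      (if (y : T) ∈ Subgroup.centralizer (P : Set T) then z y else 0) *
      (if (y : T)⁻¹ * (n : T) ∈ Subgroup.centralizer (P : Set T) then
        z' ((y : T)⁻¹ * n) else 0) := by
    unfold cvF brz
    refine Finset.sum_congr rfl fun y _ => ?_
    rfl
  rw [hR]
  by_cases hn : (n : T) ∈ Subgroup.centralizer (P : Set T)
  · have h1 : brz P (cvF z z') n = ∑ y, z y * z' (y⁻¹ * n) := by
      unfold brz
      rw [if_pos hn]
      rfl
    rw [h1, sum_fix P hP, sum_nrm]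
    · refine Finset.sum_congr rfl fun y _ => ?_
      by_cases hy : (y : T) ∈ Subgroup.centralizer (P : Set T)
      · rw [if_pos hy, if_pos hy, if_pos]
        exact Subgroup.mul_mem _ (Subgroup.inv_mem _ hy) hn
      · simp only [if_neg hy, zero_mul]
    · intro u hu y
      have h2 : u * (n : T) = (n : T) * u := Subgroup.mem_centralizer_iff.1 hn u hu
      have h3 : (u * y * u⁻¹)⁻¹ * (n : T) = u * (y⁻¹ * n) * u⁻¹ := by
        have h4 : u⁻¹ * (n : T) = (n : T) * u⁻¹ := by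
          rw [inv_mul_eq_iff_eq_mul, ← mul_assoc, h2, mul_assoc, mul_inv_cancel, mul_one]
        calc (u * y * u⁻¹)⁻¹ * (n : T) = u * y⁻¹ * (u⁻¹ * n) := by group
          _ = u * y⁻¹ * (n * u⁻¹) := by rw [h4]
          _ = u * (y⁻¹ * n) * u⁻¹ := by group
      rw [h3, hz u y, hz' u (y⁻¹ * n)]
  · have h1 : brz P (cvF z z') n = 0 := by
      unfold brz
      rw [if_neg hn]
    rw [h1]
    symm
    refine Finset.sum_eq_zero fun y _ => ?_
    by_cases hy : (y : T) ∈ Subgroup.centralizer (P : Set T)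
    · have h3 : ¬ (y : T)⁻¹ * (n : T) ∈ Subgroup.centralizer (P : Set T) := by
        intro h
        apply hn
        have h2 := Subgroup.mul_mem _ hy h
        rwa [mul_inv_cancel_left] at h2
      rw [if_neg h3, mul_zero]
    · rw [if_neg hy, zero_mul]

/-- The normalizer acts on the centralizer. -/
theorem conj_cen {T : Type} [Group T] (P : Subgroup T) (g : NP P) {x : T}
    (hx : x ∈ Subgroup.centralizer (P : Set T)) :
    (g : T) * x * (g : T)⁻¹ ∈ Subgroup.centralizer (P : Set T) := by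
  rw [Subgroup.mem_centralizer_iff] at hx ⊢
  intro u hu
  have h2 : (g : T)⁻¹ * u * g ∈ P := by
    have h3 := (Subgroup.mem_normalizer_iff.1 (g⁻¹ : NP P).2 u).1 hu
    have h4 : ((g⁻¹ : NP P) : T) = (g : T)⁻¹ := rfl
    rw [h4, inv_inv] at h3
    exact h3
  have h5 := hx _ h2
  calc u * ((g : T) * x * (g : T)⁻¹) = g * ((g : T)⁻¹ * u * g * x) * (g : T)⁻¹ := by group
    _ = g * (x * ((g : T)⁻¹ * u * g)) * (g : T)⁻¹ := by rw [h5]
    _ = (g : T) * x * (g : T)⁻¹ * u := by group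

/-- The Brauer homomorphism maps class functions to class functions. -/
theorem brz_mem {F T : Type} [Field F] [Group T] (P : Subgroup T) {z : T → F}
    (hz : z ∈ CF F T) : brz P z ∈ CF F (NP P) := by
  classical
  intro g x
  have h1 : ((g * x * g⁻¹ : NP P) : T) = (g : T) * x * (g : T)⁻¹ := rfl
  unfold brz
  rw [h1]
  by_cases hx : (x : T) ∈ Subgroup.centralizer (P : Set T)
  · rw [if_pos hx, if_pos (conj_cen P g hx)]
    exact hz _ _
  · rw [if_neg hx, if_neg]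
    intro h
    apply hx
    have h2 := conj_cen P g⁻¹ h
    have h3 : ((g⁻¹ : NP P) : T) * ((g : T) * x * (g : T)⁻¹) * ((g⁻¹ : NP P) : T)⁻¹ = x := by
      have h4 : ((g⁻¹ : NP P) : T) = (g : T)⁻¹ := rfl
      rw [h4]
      group
    rwa [h3] at h2

/-- The class sum is a class function. -/
theorem clsF_mem (F : Type) {T : Type} [Field F] [Group T] (x₀ : T) : clsF F x₀ ∈ CF F T := by
  classical
  intro g x
  have h : (∃ t, g * x * g⁻¹ = t * x₀ * t⁻¹) ↔ ∃ t, x = t * x₀ * t⁻¹ := by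
    constructor
    · rintro ⟨t, ht⟩
      refine ⟨g⁻¹ * t, ?_⟩
      calc x = g⁻¹ * (g * x * g⁻¹) * g := by group
        _ = g⁻¹ * (t * x₀ * t⁻¹) * g := by rw [ht]
        _ = g⁻¹ * t * x₀ * (g⁻¹ * t)⁻¹ := by group
    · rintro ⟨t, ht⟩
      refine ⟨g * t, ?_⟩
      rw [ht]
      group
  unfold clsF
  by_cases h1 : ∃ t, x = t * x₀ * t⁻¹
  · rw [if_pos h1, if_pos (h.2 h1)]
  · rw [if_neg h1, if_neg (fun h2 => h1 (h.1 h2))]

/-- Two subgroups of order `ℓ` of a group whose order is not divisible by `ℓ ^ 2` are conjugate. -/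
theorem conj_of_card {ℓ : ℕ} [hl : Fact ℓ.Prime] {G : Type} [Group G] [Finite G]
    (h2 : ¬ ℓ ^ 2 ∣ Nat.card G) (P Q : Subgroup G) (hP : Nat.card P = ℓ) (hQ : Nat.card Q = ℓ) :
    ∃ c : G, ∀ x, x ∈ P ↔ c * x * c⁻¹ ∈ Q := by
  have hdvd : ℓ ∣ Nat.card G := by
    rw [← hP]
    exact Subgroup.card_subgroup_dvd_card P
  have hfac : (Nat.card G).factorization ℓ = 1 := by
    have h0 : Nat.card G ≠ 0 := Nat.card_pos.ne'
    have h3 : 1 ≤ (Nat.card G).factorization ℓ :=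
      (hl.out.dvd_iff_one_le_factorization h0).1 hdvd
    have h4 : ¬ 2 ≤ (Nat.card G).factorization ℓ := by
      intro h5
      exact h2 ((hl.out.pow_dvd_iff_le_factorization h0).2 h5)
    omega
  let P' : Sylow ℓ G := Sylow.ofCard P (by rw [hfac, pow_one, hP])
  let Q' : Sylow ℓ G := Sylow.ofCard Q (by rw [hfac, pow_one, hQ])
  obtain ⟨c, hc⟩ := MulAction.exists_smul_eq G P' Q'
  refine ⟨c, fun x => ?_⟩
  have h5 : ∀ y, y ∈ (Q' : Subgroup G) ↔ c⁻¹ * y * c ∈ (P' : Subgroup G) := by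
    intro y
    rw [← hc, Sylow.coe_subgroup_smul, Subgroup.mem_pointwise_smul_iff_inv_smul_mem]
    simp [MulAut.smul_def, MulAut.conj_apply, ← map_inv]
  have h6 := h5 (c * x * c⁻¹)
  have h7 : c⁻¹ * (c * x * c⁻¹) * c = x := by group
  rw [h7] at h6
  exact h6.symm

/-- The Brauer homomorphism maps the class sum to the class sum. -/
theorem brz_cls {ℓ : ℕ} [Fact ℓ.Prime] {F T : Type} [Field F] [Group T] [Fintype T]
    (P : Subgroup T) (x₀ : T) (hcard : Nat.card P = ℓ) (hcen : ∀ u ∈ P, u * x₀ = x₀ * u)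
    (hsq : ¬ ℓ ^ 2 ∣ Nat.card (Subgroup.centralizer ({x₀} : Set T)))
    (hx : x₀ ∈ Subgroup.normalizer (P : Set T)) :
    brz P (clsF F x₀) = clsF F (⟨x₀, hx⟩ : NP P) := by
  classical
  funext g
  have hx₀ : x₀ ∈ Subgroup.centralizer (P : Set T) := Subgroup.mem_centralizer_iff.2 hcen
  have hiff : ((g : T) ∈ Subgroup.centralizer (P : Set T) ∧ ∃ t, (g : T) = t * x₀ * t⁻¹) ↔
      ∃ n : NP P, g = n * ⟨x₀, hx⟩ * n⁻¹ := by
    constructor
    · rintro ⟨hg, t, ht⟩
      set C := Subgroup.centralizer ({x₀} : Set T) with hC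
      have hPC : P ≤ C := by
        intro u hu
        rw [hC, Subgroup.mem_centralizer_singleton_iff]
        exact hcen u hu
      set Q : Subgroup T := P.map (MulAut.conj t⁻¹).toMonoidHom with hQdef
      have hQmem : ∀ x, x ∈ Q ↔ t * x * t⁻¹ ∈ P := by
        intro x
        rw [hQdef, Subgroup.mem_map]
        constructor
        · rintro ⟨u, hu, rfl⟩
          have : t * ((MulAut.conj t⁻¹).toMonoidHom u) * t⁻¹ = u := by
            simp [mul_assoc]
          rwa [this]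
        · intro h
          refine ⟨_, h, ?_⟩
          simp [mul_assoc]
      have hQC : Q ≤ C := by
        intro x hxQ
        rw [hC, Subgroup.mem_centralizer_singleton_iff]
        have h1 := Subgroup.mem_centralizer_iff.1 hg _ ((hQmem x).1 hxQ)
        rw [ht] at h1
        calc x * x₀ = t⁻¹ * ((t * x * t⁻¹) * (t * x₀ * t⁻¹)) * t := by group
          _ = t⁻¹ * ((t * x₀ * t⁻¹) * (t * x * t⁻¹)) * t := by rw [h1]
          _ = x₀ * x := by group
      have hQcard : Nat.card Q = ℓ := by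
        rw [← hcard]
        exact Nat.card_congr
          (P.equivMapOfInjective _ (MulAut.conj t⁻¹).injective).symm.toEquiv
      have c1 : Nat.card (P.subgroupOf C) = ℓ := by
        rw [← hcard]
        exact Nat.card_congr (Subgroup.subgroupOfEquivOfLe hPC).toEquiv
      have c2 : Nat.card (Q.subgroupOf C) = ℓ := by
        rw [← hQcard]
        exact Nat.card_congr (Subgroup.subgroupOfEquivOfLe hQC).toEquiv
      obtain ⟨c, hc⟩ := conj_of_card (ℓ := ℓ) hsq (P.subgroupOf C) (Q.subgroupOf C) c1 c2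
      have hc' : ∀ x : T, x ∈ C → (x ∈ P ↔ (c : T) * x * (c : T)⁻¹ ∈ Q) := by
        intro x hxC
        exact hc ⟨x, hxC⟩
      have hn : t * (c : T) ∈ Subgroup.normalizer (P : Set T) := by
        rw [Subgroup.mem_normalizer_iff]
        intro u
        have h3 : (t * (c : T)) * u * (t * (c : T))⁻¹ = t * ((c : T) * u * (c : T)⁻¹) * t⁻¹ := by
          group
        rw [h3, ← hQmem]
        constructor
        · intro hu
          exact (hc' u (hPC hu)).1 hu
        · intro h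
          have h4 : (c : T)⁻¹ * ((c : T) * u * (c : T)⁻¹) * c ∈ C :=
            C.mul_mem (C.mul_mem (C.inv_mem c.2) (hQC h)) c.2
          have h5 : (c : T)⁻¹ * ((c : T) * u * (c : T)⁻¹) * c = u := by group
          rw [h5] at h4
          exact (hc' u h4).2 h
      refine ⟨⟨t * (c : T), hn⟩, ?_⟩
      apply Subtype.ext
      show (g : T) = (t * (c : T)) * x₀ * (t * (c : T))⁻¹
      have h5 : (c : T) * x₀ = x₀ * c := Subgroup.mem_centralizer_singleton_iff.1 c.2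
      rw [ht]
      calc t * x₀ * t⁻¹ = t * (x₀ * c) * (c : T)⁻¹ * t⁻¹ := by group
        _ = t * ((c : T) * x₀) * (c : T)⁻¹ * t⁻¹ := by rw [h5]
        _ = (t * (c : T)) * x₀ * (t * (c : T))⁻¹ := by group
    · rintro ⟨n, rfl⟩
      exact ⟨conj_cen P n hx₀, ⟨n, rfl⟩⟩
  unfold brz clsF
  by_cases h : ∃ n : NP P, g = n * ⟨x₀, hx⟩ * n⁻¹
  · obtain ⟨h1, h2⟩ := hiff.2 h
    rw [if_pos h1, if_pos h2, if_pos h]
  · rw [if_neg h]
    by_cases h1 : (g : T) ∈ Subgroup.centralizer (P : Set T)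
    · rw [if_pos h1, if_neg (fun h2 => h (hiff.1 ⟨h1, h2⟩))]
    · rw [if_neg h1]

end Pool.Agent.DPW.BKN

namespace Pool.Agent.DPW

open Pool.Agent.DPB Pool.Agent.Lib_helper13 Representation

theorem BKN_thm : Stmt_BKN := by
  intro ℓ _ F T _ _ _ _ P _ x₀ e hBK hx
  have hP : IsPGroup ℓ P := IsPGroup.of_card (n := 1) (by rw [hBK.card, pow_one])
  have hle : P ≤ Subgroup.normalizer (P : Set T) := Subgroup.le_normalizer
  obtain ⟨y, hy, hey⟩ := hBK.fac
  refine ⟨BKN.brz_mem P hBK.cf, ?_, ?_, ?_, ?_, ⟨brz P y, BKN.brz_mem P hy, ?_⟩⟩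
  · rw [← BKN.brz_cv P hP hBK.cf hBK.cf, hBK.idem]
  · rw [← hBK.card]
    exact Nat.card_congr (Subgroup.subgroupOfEquivOfLe hle).toEquiv
  · intro u hu
    apply Subtype.ext
    exact hBK.cen u.1 hu
  · intro h
    apply hBK.sq
    refine h.trans ?_
    set C := Subgroup.centralizer ({(⟨x₀, hx⟩ : NP P)} : Set (NP P)) with hC
    have h1 : C.map (Subgroup.normalizer (P : Set T)).subtype ≤
        Subgroup.centralizer ({x₀} : Set T) := by
      rintro _ ⟨n, hn, rfl⟩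
      rw [Subgroup.mem_centralizer_singleton_iff]
      have h2 := Subgroup.mem_centralizer_singleton_iff.1 hn
      exact congrArg Subtype.val h2
    have h3 : Nat.card (C.map (Subgroup.normalizer (P : Set T)).subtype) = Nat.card C :=
      Nat.card_congr (C.equivMapOfInjective _ (Subgroup.subtype_injective _)).symm.toEquiv
    rw [← h3]
    exact Subgroup.card_dvd_of_le h1
  · rw [← BKN.brz_cls P x₀ hBK.card hBK.cen hBK.sq hx,
      ← BKN.brz_cv P hP (BKN.clsF_mem F x₀) hy, ← hey]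

end Pool.Agent.DPW


end

section

/-!
# EXTB: extension of homomorphisms

The sum over `N / P` of the conjugates of an explicit `P`-equivariant map.
-/

namespace Pool.Agent.DPW

open Pool.Agent.DPB Pool.Agent.Lib_helper13 Representation

namespace EXTB

open Pool.Agent.DPB.EXT

variable {F N V V' W : Type} [Field F] [Group N] [Fintype N]
  [AddCommGroup V] [Module F V] [AddCommGroup V'] [Module F V'] [AddCommGroup W] [Module F W]

open Classical in
lemma trC_apply (P : Subgroup N) (ρ : Representation F N V) (ρ' : Representation F N V')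
    (f : V →ₗ[F] V') (v : V) :
    trC P ρ ρ' f v = ∑ q : N ⧸ P, ρ' q.out (f (ρ q.out⁻¹ v)) := by
  unfold trC
  rw [LinearMap.sum_apply]
  rfl

lemma trC_eqv (P : Subgroup N) (ρ : Representation F N V) (ρ' : Representation F N V')
    (f : V →ₗ[F] V') (hf : ∀ p ∈ P, ∀ v, f (ρ p v) = ρ' p (f v)) :
    Eqv ρ ρ' (trC P ρ ρ' f) := by
  classical
  intro g v
  have key : ∀ q : N ⧸ P, cj ρ ρ' f (g • q).out (ρ g v) = ρ' g (cj ρ ρ' f q.out v) := by
    intro q
    have h1 : g • q = ((g * q.out : N) : N ⧸ P) := by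
      conv_lhs => rw [← QuotientGroup.out_eq' q]
      rfl
    rw [h1, cj_out P ρ ρ' f hf, cj_apply, cj_apply, mul_inv_rev, mul_app, mul_app,
      ← mul_app ρ g⁻¹ g, inv_mul_cancel, one_app]
  rw [trC_apply, trC_apply, map_sum,
    ← Equiv.sum_comp (MulAction.toPerm g : Equiv.Perm (N ⧸ P))]
  exact Finset.sum_congr rfl fun q _ => key q

/-- The explicit extension. -/
lemma core (ℓ : ℕ) [Fact ℓ.Prime] [CharP F ℓ] (ρ : Representation F N V)
    (ρ' : Representation F N V') (σ : Representation F N W) (P : Subgroup N)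
    (s : N) (hs : Gn ℓ P s) (hσP : ∀ p ∈ P, σ p = 1) (α : W →ₗ[F] W) (hα : trC P σ σ α = 1)
    (j : W →ₗ[F] V) (j' : W →ₗ[F] V') (hj : Eqv σ ρ j) (hj' : Eqv σ ρ' j') (m : ℕ)
    (h1 : ∀ w, j w ∈ LinearMap.range ((ρ s - 1) ^ (m + 1)) → w = 0)
    (h2 : ∀ w, j' w ∈ LinearMap.range ((ρ' s - 1) ^ m)) :
    ∃ f : V →ₗ[F] V', (∀ p ∈ P, ∀ v, f (ρ p v) = ρ' p (f v)) ∧
      (∀ w, trC P ρ ρ' f (j w) = j' w) ∧
      ∀ (W2 : Type) [AddCommGroup W2] [Module F W2] (τ : Representation F N W2)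
        (k : W2 →ₗ[F] V), Eqv τ ρ k → (∀ p ∈ P, τ p = 1) →
        (∀ g : W2 →ₗ[F] W, Eqv τ σ g → g = 0) → ∀ w, trC P ρ ρ' f (k w) = 0 := by
  set X : Module.End F V := ρ s - 1 with hX
  set X' : Module.End F V' := ρ' s - 1 with hX'
  -- the projection `θ`
  obtain ⟨θ, hθ1, hθ2⟩ : ∃ θ : V →ₗ[F] W, (∀ w, θ (j w) = w) ∧ ∀ v, θ ((X ^ (m + 1)) v) = 0 := by
    let S := LinearMap.range (X ^ (m + 1))
    have hinj : LinearMap.ker (S.mkQ ∘ₗ j) = ⊥ := by
      rw [eq_bot_iff]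
      intro w hw
      rw [LinearMap.mem_ker, LinearMap.comp_apply, Submodule.mkQ_apply,
        Submodule.Quotient.mk_eq_zero] at hw
      exact (Submodule.mem_bot F).2 (h1 w hw)
    obtain ⟨g, hg⟩ := (S.mkQ ∘ₗ j).exists_leftInverse_of_injective hinj
    refine ⟨g ∘ₗ S.mkQ, fun w => ?_, fun v => ?_⟩
    · exact congrArg (fun φ : W →ₗ[F] W => φ w) hg
    · have h3 : S.mkQ ((X ^ (m + 1)) v) = 0 := by
        rw [Submodule.mkQ_apply, Submodule.Quotient.mk_eq_zero]
        exact ⟨v, rfl⟩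
      rw [LinearMap.comp_apply, h3, map_zero]
  -- the lift `u`
  obtain ⟨u, hu⟩ : ∃ u : W →ₗ[F] V', ∀ w, (X' ^ m) (u w) = j' (α w) := by
    obtain ⟨g, hg⟩ := (X' ^ m).rangeRestrict.exists_rightInverse_of_surjective
      (LinearMap.range_rangeRestrict _)
    refine ⟨g ∘ₗ j'.codRestrict _ h2 ∘ₗ α, fun w => ?_⟩
    have h3 := congrArg (fun φ => ((φ (j'.codRestrict _ h2 (α w)) :
      LinearMap.range (X' ^ m)) : V')) hg
    exact h3
  have hXj : ∀ w, X' (j' w) = 0 := by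
    intro w
    rw [hX', LinearMap.sub_apply, ← hj' s w, hσP s hs.mem]
    simp
  have hX0 : ∀ v, ρ s v = v → X v = 0 := by
    intro v hv
    rw [hX, LinearMap.sub_apply, hv]
    simp
  -- the map `f0`
  let f0 : V →ₗ[F] V' := ∑ i ∈ Finset.range (m + 1), (X' ^ i) ∘ₗ u ∘ₗ θ ∘ₗ (X ^ (m - i))
  have hf0 : ∀ v, f0 v = ∑ i ∈ Finset.range (m + 1), (X' ^ i) (u (θ ((X ^ (m - i)) v))) := by
    intro v
    simp only [f0, LinearMap.sum_apply, LinearMap.comp_apply]
  have hf0X : ∀ v, f0 (X v) = X' (f0 v) := by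
    intro v
    rw [hf0, hf0, map_sum]
    have ha : ∀ i ∈ Finset.range (m + 1), (X' ^ i) (u (θ ((X ^ (m - i)) (X v)))) =
        (X' ^ i) (u (θ ((X ^ (m + 1 - i)) v))) := by
      intro i hi
      rw [Finset.mem_range] at hi
      have : m + 1 - i = (m - i) + 1 := by omega
      rw [this, pow_succ]
      rfl
    have hb : ∀ i ∈ Finset.range (m + 1), X' ((X' ^ i) (u (θ ((X ^ (m - i)) v)))) =
        (X' ^ (i + 1)) (u (θ ((X ^ (m + 1 - (i + 1))) v))) := by
      intro i hi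
      have : m + 1 - (i + 1) = m - i := by omega
      rw [this, pow_succ']
      rfl
    rw [Finset.sum_congr rfl ha, Finset.sum_congr rfl hb]
    have hc := Finset.sum_range_succ (fun i => (X' ^ i) (u (θ ((X ^ (m + 1 - i)) v)))) (m + 1)
    have hd := Finset.sum_range_succ' (fun i => (X' ^ i) (u (θ ((X ^ (m + 1 - i)) v)))) (m + 1)
    rw [hc] at hd
    have he : (X' ^ (m + 1)) (u (θ ((X ^ (m + 1 - (m + 1))) v))) = 0 := by
      rw [pow_succ']
      change X' ((X' ^ m) (u _)) = 0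
      rw [hu, hXj]
    have hg : (X' ^ 0) (u (θ ((X ^ (m + 1 - 0)) v))) = 0 := by
      rw [Nat.sub_zero, hθ2, map_zero, map_zero]
    rw [he, hg, add_zero, add_zero] at hd
    exact hd
  have hf0s : ∀ v, f0 (ρ s v) = ρ' s (f0 v) := by
    intro v
    have h3 : ρ s v = X v + v := by rw [hX, LinearMap.sub_apply]; simp
    have h4 : ρ' s (f0 v) = X' (f0 v) + f0 v := by rw [hX', LinearMap.sub_apply]; simp
    rw [h3, h4, map_add, hf0X]
  have hf0P : ∀ p ∈ P, ∀ v, f0 (ρ p v) = ρ' p (f0 v) := by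
    intro p hp
    obtain ⟨k, rfl⟩ := hs.gen p hp
    clear hp
    induction k with
    | zero => intro v; rw [pow_zero, one_app, one_app]
    | succ k ih => intro v; rw [pow_succ, mul_app, mul_app, ih, hf0s]
  have hf0j : ∀ v, ρ s v = v → f0 v = j' (α (θ v)) := by
    intro v hv
    have h3 := hX0 v hv
    rw [hf0, Finset.sum_range_succ, Finset.sum_eq_zero, zero_add, Nat.sub_self, pow_zero,
      Module.End.one_apply, hu]
    intro i hi
    rw [Finset.mem_range] at hi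
    have : m - i = (m - i - 1) + 1 := by omega
    rw [this, pow_succ]
    change (X' ^ i) (u (θ ((X ^ (m - i - 1)) (X v)))) = 0
    rw [h3, map_zero, map_zero, map_zero, map_zero]
  refine ⟨f0, hf0P, ?_, ?_⟩
  · intro w
    have h3 : trC P ρ ρ' f0 (j w) = j' (trC P σ σ α w) := by
      rw [trC_apply, trC_apply, map_sum]
      refine Finset.sum_congr rfl fun q _ => ?_
      rw [← hj, hf0j, hθ1, ← hj']
      rw [← hj, hσP s hs.mem, Module.End.one_apply]
    rw [h3, hα, Module.End.one_apply]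
  · intro W2 _ _ τ k hk hτ hW2 w
    have hk0 : ∀ w, f0 (k w) = j' (α (θ (k w))) := by
      intro w
      apply hf0j
      rw [← hk, hτ s hs.mem, Module.End.one_apply]
    have hg := hW2 (trC P τ σ (α ∘ₗ θ ∘ₗ k)) (trC_eqv P τ σ (α ∘ₗ θ ∘ₗ k) fun p hp v => by
      rw [hτ p hp, hσP p hp]; rfl)
    have h3 : trC P ρ ρ' f0 (k w) = j' (trC P τ σ (α ∘ₗ θ ∘ₗ k) w) := by
      rw [trC_apply, trC_apply, map_sum]
      refine Finset.sum_congr rfl fun q _ => ?_
      rw [← hk, hk0, ← hj']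
      rfl
    rw [h3, hg]
    simp

end EXTB

open Pool.Agent.DPB.EXT in
/-- EXTB: extension of homomorphisms. -/
theorem EXTB_thm : Stmt_EXTB := by
  intro ℓ _ F N V V' W _ _ _ _ _ _ _ _ _ _ _ _ _ ρ ρ' σ P _ hP hσ α hα j j' hj hj' hw hw'
  obtain ⟨s, hs⟩ := exists_gn ℓ P hP
  have hσP : ∀ p ∈ P, σ p = 1 := PTR_thm ℓ F N W σ P hP hσ
  rw [tN_eq ℓ P s hs ρ] at hw
  rw [tN_eq ℓ P s hs ρ'] at hw'
  obtain ⟨m, hm1, hm2⟩ := depth ℓ ρ σ P s hs hσ j hj _ hw
  obtain ⟨m', hm1', hm2'⟩ := depth ℓ ρ' σ P s hs hσ j' hj' _ hw'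
  rcases le_total m m' with h | h
  · left
    exact EXTB.core ℓ ρ ρ' σ P s hs hσP α hα j j' hj hj' m hm2
      fun w => range_anti _ h (hm1' w)
  · right
    exact EXTB.core ℓ ρ' ρ σ P s hs hσP α hα j' j hj' hj m' hm2'
      fun w => range_anti _ h (hm1 w)

end Pool.Agent.DPW


end

section

/-!
# DFW: the defects of the characters which contribute
-/

set_option autoImplicit false
set_option linter.unusedSectionVars false

namespace Pool.Agent.DPW

open Pool.Agent.DP Pool.Agent.DPV Pool.Agent.Lib_helper13 Representation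
open Pool.Agent.Lib_helper13.Dade (pCore DadeHolds dadeSum)

namespace DFW

theorem df_eq_one {G : Type} [Group G] [Fintype G] {ℓ : ℕ} [hl : Fact ℓ.Prime] (S : Subgroup G)
    {f : G → ℂ} (hf : IrrOn S f) (m : ℕ) (hm : ¬ ℓ ∣ m)
    (h : (Nat.card S : ℂ) = ℓ * m * f 1) : df ℓ S f = 1 := by
  classical
  obtain ⟨n, hn, hv⟩ := Pool.Agent.DP.AA.hasDefect_df ℓ S hf
  have hn' : f 1 = n := hn
  rw [hn'] at h
  have h1 : Nat.card S = ℓ * m * n := by exact_mod_cast h
  have h2 : Nat.card S ≠ 0 := Nat.card_pos.ne'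
  have hn0 : n ≠ 0 := by
    rintro rfl
    exact h2 (by rw [h1, mul_zero])
  have hm0 : m ≠ 0 := by
    rintro rfl
    exact hm (dvd_zero _)
  rw [h1, padicValNat.mul (mul_ne_zero hl.out.ne_zero hm0) hn0,
    padicValNat.mul hl.out.ne_zero hm0, padicValNat_self,
    padicValNat.eq_zero_of_not_dvd hm] at hv
  omega

theorem le_stb {G : Type} [Group G] (P : Subgroup G) : P ≤ stb ({P} : Finset (Subgroup G)) := by
  intro u hu
  rw [mem_stb']
  intro D hD x
  rw [Finset.mem_singleton] at hD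
  subst hD
  constructor
  · intro hx
    exact D.mul_mem (D.mul_mem hu hx) (D.inv_mem hu)
  · intro hx
    have h1 := D.mul_mem (D.mul_mem (D.inv_mem hu) hx) hu
    have h2 : u⁻¹ * (u * x * u⁻¹) * u = x := by group
    rwa [h2] at h1

theorem cen_mem_stb {G : Type} [Group G] (P : Subgroup G) {x : G} (hx : ∀ u ∈ P, u * x = x * u) :
    x ∈ stb ({P} : Finset (Subgroup G)) := by
  rw [mem_stb']
  intro D hD u
  rw [Finset.mem_singleton] at hD
  subst hD
  constructor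
  · intro hu
    have h1 : x * u * x⁻¹ = u := by
      rw [← hx u hu]
      group
    rwa [h1]
  · intro hu
    have h1 := hx _ hu
    have h2 : u = x * u * x⁻¹ := by
      calc u = x⁻¹ * (x * u * x⁻¹ * x) := by group
        _ = x⁻¹ * (x * (x * u * x⁻¹)) := by rw [h1]
        _ = x * u * x⁻¹ := by group
    rw [h2]
    exact hu

/-- Elements of the normalizer which centralize `P` and are conjugate to `x₀` in the group are
conjugate in the normalizer. -/
theorem conj_iff {ℓ : ℕ} [Fact ℓ.Prime] {T : Type} [Group T] [Finite T]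
    (P : Subgroup T) (x₀ : T) (hcard : Nat.card P = ℓ) (hcen : ∀ u ∈ P, u * x₀ = x₀ * u)
    (hsq : ¬ ℓ ^ 2 ∣ Nat.card (Subgroup.centralizer ({x₀} : Set T)))
    (hx : x₀ ∈ stb ({P} : Finset (Subgroup T))) (g : stb ({P} : Finset (Subgroup T)))
    (hg : ∀ u ∈ P, u * (g : T) = g * u) :
    IsConj g ⟨x₀, hx⟩ ↔ IsConj (g : T) x₀ := by
  constructor
  · intro h
    obtain ⟨c, hc⟩ := isConj_iff.1 h
    refine isConj_iff.2 ⟨c, ?_⟩
    have := congrArg Subtype.val hc
    simpa using this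
  · intro h
    obtain ⟨t, ht⟩ := isConj_iff.1 h.symm
    have ht := ht.symm
    set C := Subgroup.centralizer ({x₀} : Set T) with hC
    have hPC : P ≤ C := by
      intro u hu
      rw [hC, Subgroup.mem_centralizer_singleton_iff]
      exact hcen u hu
    set Q : Subgroup T := P.map (MulAut.conj t⁻¹).toMonoidHom with hQdef
    have hQmem : ∀ x, x ∈ Q ↔ t * x * t⁻¹ ∈ P := by
      intro x
      rw [hQdef, Subgroup.mem_map]
      constructor
      · rintro ⟨u, hu, rfl⟩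
        have : t * ((MulAut.conj t⁻¹).toMonoidHom u) * t⁻¹ = u := by
          simp [mul_assoc]
        rwa [this]
      · intro h
        refine ⟨_, h, ?_⟩
        simp [mul_assoc]
    have hQC : Q ≤ C := by
      intro x hxQ
      rw [hC, Subgroup.mem_centralizer_singleton_iff]
      have h1 := hg _ ((hQmem x).1 hxQ)
      rw [ht] at h1
      calc x * x₀ = t⁻¹ * ((t * x * t⁻¹) * (t * x₀ * t⁻¹)) * t := by group
        _ = t⁻¹ * ((t * x₀ * t⁻¹) * (t * x * t⁻¹)) * t := by rw [h1]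
        _ = x₀ * x := by group
    have hQcard : Nat.card Q = ℓ := by
      rw [← hcard]
      exact Nat.card_congr
        (P.equivMapOfInjective _ (MulAut.conj t⁻¹).injective).symm.toEquiv
    have c1 : Nat.card (P.subgroupOf C) = ℓ := by
      rw [← hcard]
      exact Nat.card_congr (Subgroup.subgroupOfEquivOfLe hPC).toEquiv
    have c2 : Nat.card (Q.subgroupOf C) = ℓ := by
      rw [← hQcard]
      exact Nat.card_congr (Subgroup.subgroupOfEquivOfLe hQC).toEquiv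
    obtain ⟨c, hc⟩ := Pool.Agent.DPW.BKN.conj_of_card (ℓ := ℓ) hsq (P.subgroupOf C)
      (Q.subgroupOf C) c1 c2
    have hc' : ∀ x : T, x ∈ C → (x ∈ P ↔ (c : T) * x * (c : T)⁻¹ ∈ Q) := by
      intro x hxC
      exact hc ⟨x, hxC⟩
    have hn : t * (c : T) ∈ stb ({P} : Finset (Subgroup T)) := by
      rw [mem_stb']
      intro D hD u
      rw [Finset.mem_singleton] at hD
      subst hD
      have h3 : (t * (c : T)) * u * (t * (c : T))⁻¹ = t * ((c : T) * u * (c : T)⁻¹) * t⁻¹ := by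
        group
      rw [h3, ← hQmem]
      constructor
      · intro hu
        exact (hc' u (hPC hu)).1 hu
      · intro h
        have h4 : (c : T)⁻¹ * ((c : T) * u * (c : T)⁻¹) * c ∈ C :=
          C.mul_mem (C.mul_mem (C.inv_mem c.2) (hQC h)) c.2
        have h5 : (c : T)⁻¹ * ((c : T) * u * (c : T)⁻¹) * c = u := by group
        rw [h5] at h4
        exact (hc' u h4).2 h
    refine IsConj.symm (isConj_iff.2 ⟨⟨t * (c : T), hn⟩, ?_⟩)
    apply Subtype.ext
    show (t * (c : T)) * x₀ * (t * (c : T))⁻¹ = (g : T)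
    have h5 : (c : T) * x₀ = x₀ * c := Subgroup.mem_centralizer_singleton_iff.1 c.2
    rw [ht]
    calc (t * (c : T)) * x₀ * (t * (c : T))⁻¹ = t * ((c : T) * x₀) * (c : T)⁻¹ * t⁻¹ := by group
      _ = t * (x₀ * c) * (c : T)⁻¹ * t⁻¹ := by rw [h5]
      _ = t * x₀ * t⁻¹ := by group

end DFW

open _root_.Pool.Agent.DPW.DFW in
/-- DFW. -/
theorem DFW_thm (h1 : Stmt_DF1) : Stmt_DFW := by
  intro G _ _ 𝔐 ℓ hl h𝔐 hℓ ψ
  classical
  haveI hpr : 𝔐.IsPrime := h𝔐.isPrime
  constructor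
  · intro hD hψ
    have hirr : IsIrr ψ := Pool.Agent.DP.AA.irr_top stb_empty hψ
    have hcen : cen 𝔐 (MonoidHom.id G) ψ = fun g => cg 𝔐 ψ g := by
      funext g
      rw [cen, cg, wt]
      rfl
    obtain ⟨m, hm, hc⟩ := (h1 G 𝔐 ℓ h𝔐 hℓ ψ hirr).1 (by rw [hcen]; exact hD)
    refine df_eq_one _ hψ m hm ?_
    rw [← hc, stb_empty]
    exact congrArg Nat.cast (Nat.card_congr (Subgroup.topEquiv (G := G)).toEquiv)
  · intro P x₀ hat hψ
    let N : Subgroup G := stb ({P} : Finset (Subgroup G))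
    let _ : Fintype N := Fintype.ofFinite _
    have hPN : P ≤ N := le_stb P
    have hxN : x₀ ∈ N := cen_mem_stb P hat.cen
    let P' : Subgroup N := P.subgroupOf N
    have hcP' : Nat.card P' = ℓ := by
      rw [← hat.card]
      exact Nat.card_congr (Subgroup.subgroupOfEquivOfLe hPN).toEquiv
    have hnorm : P'.Normal := by
      constructor
      intro u hu g
      have h2 := (mem_stb'.1 g.2 P (Finset.mem_singleton_self P) (u : G)).1
        (Subgroup.mem_subgroupOf.1 hu)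
      exact Subgroup.mem_subgroupOf.2 h2
    have hPg : IsPGroup ℓ P' := IsPGroup.of_card (n := 1) (by rw [hcP', pow_one])
    have hcomm : ∀ u ∈ P', u * (⟨x₀, hxN⟩ : N) = ⟨x₀, hxN⟩ * u := by
      intro u hu
      apply Subtype.ext
      exact hat.cen _ (Subgroup.mem_subgroupOf.1 hu)
    have hdvd : Nat.card (Subgroup.centralizer ({(⟨x₀, hxN⟩ : N)} : Set N)) ∣
        Nat.card (Subgroup.centralizer ({x₀} : Set G)) := by
      rw [← Subgroup.card_map_of_injective (K := Subgroup.centralizer ({(⟨x₀, hxN⟩ : N)} : Set N))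
        N.subtype_injective]
      apply Subgroup.card_dvd_of_le
      rintro _ ⟨y, hy, rfl⟩
      rw [Subgroup.mem_centralizer_singleton_iff]
      have h2 := Subgroup.mem_centralizer_singleton_iff.1 hy
      exact congrArg Subtype.val h2
    have hsq : ¬ ℓ ^ 2 ∣ Nat.card (Subgroup.centralizer ({(⟨x₀, hxN⟩ : N)} : Set N)) :=
      fun h => hat.sq (h.trans hdvd)
    have hne : cen 𝔐 (MonoidHom.id N) (fun s : N => ψ s) ⟨x₀, hxN⟩ ≠ 0 := by
      have h2 : cen 𝔐 (MonoidHom.id N) (fun s : N => ψ s) ⟨x₀, hxN⟩ =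
          cen 𝔐 N.subtype (fun s : N => ψ s) x₀ := by
        rw [cen, cen]
        refine red_wt_eq 𝔐 hℓ hψ.1 P' hPg _ _ ?_ ?_ ?_ ?_ ?_
        · intro g x
          exact conjInd_conj g x _
        · intro y
          exact isIntegral_conjInd _ _
        · intro g x
          show conjInd ((g * x * g⁻¹ : N) : G) x₀ = conjInd (x : G) x₀
          exact conjInd_conj (g : G) (x : G) _
        · intro y
          exact isIntegral_conjInd _ _
        · intro y hy
          congr 1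
          refine conjInd_congr ?_
          refine conj_iff P x₀ hat.card hat.cen hat.sq hxN y ?_
          intro u hu
          have h3 := hy ⟨u, hPN hu⟩ (Subgroup.mem_subgroupOf.2 hu)
          exact congrArg Subtype.val h3
      rw [h2, Pool.Agent.DP.AA.cg_eq 𝔐 N hψ x₀]
      exact hat.ne
    have h3 := h1 N 𝔐 ℓ h𝔐 hℓ (fun s : N => ψ s) hψ.1
    have hD := h3.2.2 P' hnorm hcP' ⟨x₀, hxN⟩ hcomm hsq hne
    obtain ⟨m, hm, hc⟩ := h3.1 hD
    have hc' : (Nat.card N : ℂ) = ℓ * m * ψ 1 := hc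
    exact ⟨df_eq_one N hψ m hm hc', m, hm, hc'⟩

end Pool.Agent.DPW


end

section

/-!
# CYBW (theorem W): the case of a character which is not trivial on `P`
-/

set_option linter.unusedSectionVars false

namespace Pool.Agent.DPW

open Pool.Agent.DP Pool.Agent.DPV Pool.Agent.Lib_helper13 Representation
open Pool.Agent.Lib_helper13.Dade (pCore DadeHolds dadeSum)

namespace CYBW

open Pool.Agent.DPV.CYE

/-! ### Generalities -/

/-- Central functions computed in a subgroup which contains the support. -/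
theorem cgT_sub {B : Type} [Group B] [Fintype B] (𝔐 : Ideal (integralClosure ℤ ℂ))
    (H T : Subgroup B) [Fintype H] (hT : T ≤ H) (f : B → ℂ) (hf : ∀ x, x ∉ H → f x = 0)
    (h : H) : cgT 𝔐 (T.subgroupOf H) (fun x : H => f x) h = cgT 𝔐 T f (h : B) := by
  classical
  have h1 : ∑ x : H, cjT (T.subgroupOf H) x h * f x = ∑ x, cjT T x (h : B) * f x := by
    refine Fintype.sum_of_injective (fun x : H => (x : B)) Subtype.coe_injective _ _ ?_ ?_
    · intro b hb
      rw [hf b, mul_zero]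
      intro hb'
      exact hb ⟨⟨b, hb'⟩, rfl⟩
    · intro x
      have h2 : (∃ t ∈ T.subgroupOf H, x = t * h * t⁻¹) ↔
          ∃ t ∈ T, (x : B) = t * (h : B) * t⁻¹ := by
        constructor
        · rintro ⟨t, ht, hx⟩
          exact ⟨t, Subgroup.mem_subgroupOf.mp ht, by rw [hx]; rfl⟩
        · rintro ⟨t, ht, hx⟩
          exact ⟨⟨t, hT ht⟩, Subgroup.mem_subgroupOf.mpr ht, Subtype.ext hx⟩
      have h3 : cjT (T.subgroupOf H) x h = cjT T (x : B) (h : B) := by
        rw [cjT, cjT]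
        by_cases hc : ∃ t ∈ T, (x : B) = t * (h : B) * t⁻¹
        · rw [if_pos hc, if_pos (h2.mpr hc)]
        · rw [if_neg hc, if_neg (fun h4 => hc (h2.mp h4))]
      rw [h3]
  rw [cgT, cgT, h1]
  rfl

/-- A nonzero weight gives an element with nonzero central function. -/
theorem exists_ne {B : Type} [Group B] [Fintype B] (𝔐 : Ideal (integralClosure ℤ ℂ))
    (T : Subgroup B) (f a : B → ℂ)
    (hf : ∀ t, IsIntegral ℤ ((∑ x, cjT T x t * f x) / f 1))
    (ha : ∀ t ∈ T, ∀ x, a (t * x * t⁻¹) = a x) (hai : ∀ x, IsIntegral ℤ (a x))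
    (h : red 𝔐 (wt f a) ≠ 0) : ∃ t, a t ≠ 0 ∧ cgT 𝔐 T f t ≠ 0 := by
  by_contra hcon
  push Not at hcon
  apply h
  rw [EXPV.wt_classes T a f ha, red_sum 𝔐 _ _ fun q _ => (hai _).mul (hf _)]
  refine Finset.sum_eq_zero fun q _ => ?_
  rw [red_mul 𝔐 (hai _) (hf _)]
  by_cases h0 : a q.out = 0
  · rw [h0, red_zero, zero_mul]
  · have h1 := hcon _ h0
    unfold cgT at h1
    rw [h1, mul_zero]

/-- Equal central functions give equal weights. -/
theorem wt_congr {B : Type} [Group B] [Fintype B] (𝔐 : Ideal (integralClosure ℤ ℂ))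
    (T : Subgroup B) (f f' a : B → ℂ)
    (hf : ∀ t, IsIntegral ℤ ((∑ x, cjT T x t * f x) / f 1))
    (hf' : ∀ t, IsIntegral ℤ ((∑ x, cjT T x t * f' x) / f' 1))
    (ha : ∀ t ∈ T, ∀ x, a (t * x * t⁻¹) = a x) (hai : ∀ x, IsIntegral ℤ (a x))
    (h : ∀ t, a t ≠ 0 → cgT 𝔐 T f' t = cgT 𝔐 T f t) : red 𝔐 (wt f' a) = red 𝔐 (wt f a) := by
  rw [EXPV.wt_classes T a f ha, EXPV.wt_classes T a f' ha,
    red_sum 𝔐 _ _ fun q _ => (hai _).mul (hf _), red_sum 𝔐 _ _ fun q _ => (hai _).mul (hf' _)]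
  refine Finset.sum_congr rfl fun q _ => ?_
  rw [red_mul 𝔐 (hai _) (hf _), red_mul 𝔐 (hai _) (hf' _)]
  by_cases h0 : a q.out = 0
  · rw [h0, red_zero, zero_mul, zero_mul]
  · have h1 := h _ h0
    unfold cgT at h1
    rw [h1]

theorem isIntegral_cjT {B : Type} [Group B] (T : Subgroup B) (x g : B) :
    IsIntegral ℤ (cjT T x g) := by
  rw [cjT]
  split_ifs
  · exact isIntegral_one
  · exact isIntegral_zero

theorem cjT_congr {B B' : Type} [Group B] [Group B'] {T : Subgroup B} {T' : Subgroup B'}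
    {x g : B} {x' g' : B'}
    (h : (∃ t ∈ T, x = t * g * t⁻¹) ↔ ∃ t ∈ T', x' = t * g' * t⁻¹) :
    cjT T x g = cjT T' x' g' := by
  rw [cjT, cjT]
  by_cases hc : ∃ t ∈ T, x = t * g * t⁻¹
  · rw [if_pos hc, if_pos (h.mp hc)]
  · rw [if_neg hc, if_neg (fun h4 => hc (h.mpr h4))]

theorem cjT_inv {B : Type} [Group B] (T : Subgroup B) {s : B} (hs : s ∈ T) (x g : B) :
    cjT T (s * x * s⁻¹) g = cjT T x g := by
  refine cjT_congr ⟨?_, ?_⟩
  · rintro ⟨t, ht, h⟩
    refine ⟨s⁻¹ * t, T.mul_mem (T.inv_mem hs) ht, ?_⟩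
    have h1 : x = s⁻¹ * (s * x * s⁻¹) * s := by group
    rw [h1, h]
    group
  · rintro ⟨t, ht, rfl⟩
    exact ⟨s * t, T.mul_mem hs ht, by group⟩

/-- Integrality. -/
theorem int_of {B : Type} [Group B] [Fintype B] (T : Subgroup B) [T.Normal] (f : B → ℂ)
    (hf : IsIrr f) (hfT : IsIrr (fun t : T => f t)) (F : B → ℂ) (hF : ∀ x, IsIntegral ℤ (F x))
    (hinv : ∀ t ∈ T, ∀ x, F (t * x * t⁻¹) = F x) :
    IsIntegral ℤ ((∑ x, F x * f x) / f 1) := by
  refine INTH_thm T B (B ⧸ T) T.subtype (MulAut.conjNormal (H := T)) (QuotientGroup.mk' T)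
    (clG_sub T) ⊤ f ⟨?_, fun x hx => absurd trivial hx⟩ ⟨?_, fun x hx => absurd trivial hx⟩
    F hF (fun h x => hinv h h.2 x)
  · exact hf.comp_mulEquiv (Subgroup.topEquiv (G := B))
  · exact hfT.comp_mulEquiv (Subgroup.topEquiv (G := T))

theorem int_cjT {B : Type} [Group B] [Fintype B] (T : Subgroup B) [T.Normal] (f : B → ℂ)
    (hf : IsIrr f) (hfT : IsIrr (fun t : T => f t)) (t : B) :
    IsIntegral ℤ ((∑ x, cjT T x t * f x) / f 1) :=
  int_of T f hf hfT _ (fun x => isIntegral_cjT T x t) (fun s hs x => cjT_inv T hs x t)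

/-- Central functions and isomorphisms. -/
theorem cen_comp {Y Y' : Type} [Group Y] [Fintype Y] [Group Y'] [Fintype Y']
    (𝔐 : Ideal (integralClosure ℤ ℂ)) (e : Y ≃* Y') (ψ : Y' → ℂ) (x : Y) :
    cen 𝔐 (MonoidHom.id Y) (fun y => ψ (e y)) x = cen 𝔐 (MonoidHom.id Y') ψ (e x) := by
  rw [cen, cen, ← wt_comp_equiv e]
  congr 2
  ext y
  refine conjInd_congr ?_
  simp only [MonoidHom.id_apply]
  rw [isConj_iff, isConj_iff]
  constructor
  · rintro ⟨c, hc⟩
    exact ⟨e c, by rw [← map_mul, ← map_inv, ← map_mul, hc]⟩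
  · rintro ⟨c, hc⟩
    refine ⟨e.symm c, e.injective ?_⟩
    rw [map_mul, map_mul, map_inv, e.apply_symm_apply, hc]

/-- The index of the centralizer of a normal subgroup of prime order. -/
theorem index_lt {H : Type} [Group H] [Fintype H] {ℓ : ℕ} [Fact ℓ.Prime] (P : Subgroup H)
    [P.Normal] (hP : Nat.card P = ℓ) : (Zc P).index < ℓ := by
  have hc : IsCyclic P := isCyclic_of_prime_card hP
  let α : H →* MulAut P := MulAut.conjNormal
  have hα : α.ker ≤ Zc P := by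
    intro h hh
    rw [MonoidHom.mem_ker] at hh
    rw [Subgroup.mem_centralizer_iff]
    intro u hu
    have h2 : ((α h ⟨u, hu⟩ : P) : H) = u := by rw [hh]; rfl
    have h3 : h * u * h⁻¹ = u := h2
    rw [mul_inv_eq_iff_eq_mul] at h3
    exact h3.symm
  have h1 : (Zc P).index ∣ α.ker.index := Subgroup.index_dvd_of_le hα
  have h2 : α.ker.index = Nat.card α.range := Subgroup.index_ker α
  have h3 : Nat.card α.range ≤ Nat.card (MulAut P) := Subgroup.card_le_card_group _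
  have h4 : Nat.card (MulAut P) = Nat.totient ℓ := by
    rw [IsCyclic.card_mulAut, hP]
  have h5 : Nat.totient ℓ < ℓ := Nat.totient_lt ℓ (Fact.out : ℓ.Prime).one_lt
  have h6 : 0 < α.ker.index := Nat.pos_of_ne_zero Subgroup.index_ne_zero_of_finite
  have h7 := Nat.le_of_dvd h6 h1
  omega

end CYBW

open _root_.Pool.Agent.DPW.CYBW CYE in
theorem CYBW_thm (h1 : Stmt_SCT) (h2 : Stmt_CYS) (h3 : Stmt_NUN) : Stmt_CYBW := by
  intro H _ _ 𝔐 ℓ _ hmax hℓ𝔐 P N _ _ hP hPN f hf hfN hmex hnt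
  classical
  have h𝔐 : 𝔐.IsPrime := hmax.isPrime
  have hdom : IsDomain ((integralClosure ℤ ℂ) ⧸ 𝔐) := Ideal.Quotient.isDomain 𝔐
  obtain ⟨m, hm, hmN⟩ := hmex
  obtain ⟨htop, θ, hθ, hθip, hirr⟩ := res_irr P N hP hPN hf hfN hnt
  have hZn : (Zc P).Normal := inferInstance
  have hNn : N.Normal := inferInstance
  have hne := hθ.one_ne_zero
  set Θ : H → ℂ := ext0 θ with hΘ
  have hΘ1 : Θ 1 = θ 1 := ext0_of_mem θ (Subgroup.one_mem _)
  have hΘ1ne : Θ 1 ≠ 0 := by
    rw [hΘ1]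
    exact hne
  have hΘint : ∀ y, IsIntegral ℤ (Θ y) := by
    intro y
    by_cases hy : y ∈ Zc P
    · rw [hΘ, ext0_of_mem θ hy]
      exact isIntegral_char hθ _
    · rw [hΘ, ext0_of_not_mem θ hy]
      exact isIntegral_zero
  have hΘcl : ∀ z ∈ Zc P, ∀ y, Θ (z * y * z⁻¹) = Θ y := by
    intro z hz y
    by_cases hy : y ∈ Zc P
    · rw [hΘ, ext0_of_mem θ hy, ext0_of_mem θ (hZn.conj_mem y hy z)]
      exact hθ.conj_eq ⟨z, hz⟩ ⟨y, hy⟩
    · rw [hΘ, ext0_of_not_mem θ hy, ext0_of_not_mem θ]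
      intro hy'
      apply hy
      have h4 := hZn.conj_mem _ hy' z⁻¹
      have h5 : z⁻¹ * (z * y * z⁻¹) * z⁻¹⁻¹ = y := by group
      rwa [h5] at h4
  have hform : ∀ y, f y * Nat.card (Zc P) = ∑ z : H, Θ (z⁻¹ * y * z) := by
    intro y
    rw [ind_eq P hP hf hnt hθ hθip y, div_mul_cancel₀ _ natCard_ne_zero]
  -- the inertia group
  have hfix : ∀ g : H, (∀ a ∈ Zc P, Θ (g * a * g⁻¹) = Θ a) → g ∈ Zc P := by
    intro g hg
    by_contra hgZ
    obtain ⟨u, hu, hne'⟩ := hnt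
    refine hne' (triv_up P hf (le_Zc P hP) hθ hθip (triv_of P hP hθ hgZ ?_) u hu)
    intro a
    have h4 := hg a a.2
    rw [hΘ, ext0_of_mem θ (hZn.conj_mem _ a.2 g), ext0_of_mem θ a.2] at h4
    exact h4
  -- the conjugates
  set E : H → H → ℂ := fun g x => Θ (g⁻¹ * x * g) with hE
  have hEsupp : ∀ g x, x ∉ Zc P → E g x = 0 := by
    intro g x hx
    apply ext0_of_not_mem
    intro hx'
    apply hx
    have h4 := hZn.conj_mem _ hx' g
    have h5 : g * (g⁻¹ * x * g) * g⁻¹ = x := by group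
    rwa [h5] at h4
  have hE1 : ∀ g, E g 1 = Θ 1 := by
    intro g
    change Θ (g⁻¹ * 1 * g) = Θ 1
    rw [mul_one, inv_mul_cancel]
  have hEone : E 1 = Θ := by
    ext x
    change Θ (1⁻¹ * x * 1) = Θ x
    simp
  have hEmul : ∀ g g' x, E (g * g') x = E g' (g⁻¹ * x * g) := by
    intro g g' x
    change Θ ((g * g')⁻¹ * x * (g * g')) = Θ (g'⁻¹ * (g⁻¹ * x * g) * g')
    congr 1
    group
  have hEeq : ∀ g g', E g = E g' ↔ g⁻¹ * g' ∈ Zc P := by
    intro g g'
    constructor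
    · intro h
      apply hfix
      intro a _
      have h4 := congrFun h (g' * a * g'⁻¹)
      change Θ (g⁻¹ * (g' * a * g'⁻¹) * g) = Θ (g'⁻¹ * (g' * a * g'⁻¹) * g') at h4
      have h5 : g⁻¹ * g' * a * (g⁻¹ * g')⁻¹ = g⁻¹ * (g' * a * g'⁻¹) * g := by group
      have h6 : g'⁻¹ * (g' * a * g'⁻¹) * g' = a := by group
      rw [h5, h4, h6]
    · intro h
      ext x
      change Θ (g⁻¹ * x * g) = Θ (g'⁻¹ * x * g')
      have h4 := hΘcl _ ((Zc P).inv_mem h) (g⁻¹ * x * g)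
      rw [← h4]
      congr 1
      group
  -- the group `C`
  set C : Subgroup H := Zc P ⊓ N with hC
  have hCn : C.Normal := Subgroup.normal_inf_normal (Zc P) N
  have hCZ : C ≤ Zc P := inf_le_left
  have hCN : C ≤ N := inf_le_right
  have hcomm : ∀ n ∈ N, ∀ z ∈ Zc P, n * z * n⁻¹ * z⁻¹ ∈ C := by
    intro n hn z hz
    refine ⟨(Zc P).mul_mem (hZn.conj_mem z hz n) ((Zc P).inv_mem hz), ?_⟩
    have h4 : n * z * n⁻¹ * z⁻¹ = n * (z * n⁻¹ * z⁻¹) := by group
    rw [h4]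
    exact N.mul_mem hn (hNn.conj_mem _ (N.inv_mem hn) z)
  have hEZ : ∀ g, IsIrr (fun s : Zc P => E g s) := by
    intro g
    have h4 := hθ.comp_mulEquiv (MulAut.conjNormal (H := Zc P) g⁻¹)
    have h5 : (θ ∘ (MulAut.conjNormal (H := Zc P) g⁻¹)) = fun s : Zc P => E g s := by
      ext s
      change θ (MulAut.conjNormal (H := Zc P) g⁻¹ s) = Θ (g⁻¹ * s * g)
      have h6 : (g⁻¹ * (s : H) * g) ∈ Zc P := by
        have h7 := hZn.conj_mem s s.2 g⁻¹
        rwa [inv_inv] at h7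
      rw [hΘ, ext0_of_mem θ h6]
      congr 1
      apply Subtype.ext
      change g⁻¹ * (s : H) * g⁻¹⁻¹ = g⁻¹ * (s : H) * g
      rw [inv_inv]
    rwa [h5] at h4
  have hEC : ∀ g, IsIrr (fun c : C => E g c) := by
    intro g
    have h4 := hirr.comp_mulEquiv (MulAut.conjNormal (H := C) g⁻¹)
    have h5 : ((fun x : C => Θ (x : H)) ∘ (MulAut.conjNormal (H := C) g⁻¹)) =
        fun s : C => E g s := by
      ext s
      change Θ (g⁻¹ * (s : H) * g⁻¹⁻¹) = Θ (g⁻¹ * (s : H) * g)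
      rw [inv_inv]
    rwa [h5] at h4
  -- the sum
  set S : Finset (H → ℂ) := Finset.univ.image E with hS
  have hcardfib : ∀ g : H, (Finset.univ.filter (fun z : H => E z = E g)).card =
      Nat.card (Zc P) := by
    intro g
    rw [← Fintype.card_subtype, ← Nat.card_eq_fintype_card]
    refine Nat.card_congr ⟨fun z => ⟨z.1⁻¹ * g, (hEeq _ _).mp z.2⟩,
      fun w => ⟨g * w.1⁻¹, (hEeq _ _).mpr ?_⟩, ?_, ?_⟩
    · have h4 : (g * (w : H)⁻¹)⁻¹ * g = w := by group
      rw [h4]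
      exact w.2
    · intro z
      apply Subtype.ext
      change g * (z.1⁻¹ * g)⁻¹ = z.1
      group
    · intro w
      apply Subtype.ext
      change (g * (w : H)⁻¹)⁻¹ * g = w
      group
  have hfS : ∀ x, f x = ∑ F ∈ S, F x := by
    intro x
    have h4 : (Nat.card (Zc P) : ℂ) ≠ 0 := natCard_ne_zero
    apply mul_right_cancel₀ h4
    rw [hform, Finset.sum_mul]
    have h5 : ∑ z : H, Θ (z⁻¹ * x * z) = ∑ z : H, (fun F : H → ℂ => F x) (E z) := rfl
    rw [h5, Finset.sum_comp (fun F : H → ℂ => F x) E]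
    refine Finset.sum_congr rfl fun F hF => ?_
    obtain ⟨g, -, rfl⟩ := Finset.mem_image.mp hF
    rw [hcardfib g, nsmul_eq_mul, mul_comm]
  have hScard : S.card = (Zc P).index := by
    have h4 := hfS 1
    have h5 : ∑ F ∈ S, F 1 = S.card * Θ 1 := by
      rw [Finset.sum_congr rfl (g := fun _ => Θ 1), Finset.sum_const, nsmul_eq_mul]
      intro F hF
      obtain ⟨g, -, rfl⟩ := Finset.mem_image.mp hF
      exact hE1 g
    have h6 := hform 1
    have h7 : ∑ z : H, Θ (z⁻¹ * 1 * z) = Nat.card H * Θ 1 := by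
      rw [Finset.sum_congr rfl (g := fun _ => Θ 1), Finset.sum_const, nsmul_eq_mul,
        Finset.card_univ, ← Nat.card_eq_fintype_card]
      intro z _
      exact hE1 z
    rw [h4, h5, h7, ← Subgroup.card_mul_index (Zc P)] at h6
    have h8 : ((S.card * Nat.card (Zc P) : ℕ) : ℂ) =
        ((Nat.card (Zc P) * (Zc P).index : ℕ) : ℂ) := by
      apply mul_right_cancel₀ hΘ1ne
      rw [← h6]
      push_cast
      ring
    have h9 : S.card * Nat.card (Zc P) = Nat.card (Zc P) * (Zc P).index := by exact_mod_cast h8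
    have h10 : 0 < Nat.card (Zc P) := Nat.card_pos
    rw [mul_comm] at h9
    exact Nat.eq_of_mul_eq_mul_left h10 h9
  have hidx := index_lt P hP
  have hidx0 : 0 < (Zc P).index := Nat.pos_of_ne_zero Subgroup.index_ne_zero_of_finite
  -- the order of `C`
  have hCcard : (Nat.card C : ℂ) = ℓ * m * Θ 1 := by
    have h4 := card_prod N (Zc P)
    rw [htop, Subgroup.index_top, mul_one] at h4
    have h5 : (Nat.card H : ℂ) * Nat.card C = Nat.card N * Nat.card (Zc P) := by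
      exact_mod_cast h4
    have h6 := hform 1
    have h7 : ∑ z : H, Θ (z⁻¹ * 1 * z) = Nat.card H * Θ 1 := by
      rw [Finset.sum_congr rfl (g := fun _ => Θ 1), Finset.sum_const, nsmul_eq_mul,
        Finset.card_univ, ← Nat.card_eq_fintype_card]
      intro z _
      exact hE1 z
    rw [h7] at h6
    have h8 : (Nat.card H : ℂ) ≠ 0 := natCard_ne_zero
    apply mul_left_cancel₀ h8
    rw [h5, hmN]
    linear_combination (ℓ * m : ℂ) * h6
  -- transfer to the group `Z`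
  have : Fintype (Zc P) := Fintype.ofFinite _
  set P' : Subgroup (Zc P) := P.subgroupOf (Zc P) with hP'
  set C' : Subgroup (Zc P) := C.subgroupOf (Zc P) with hC'
  have hC'n : C'.Normal := inferInstance
  have hP'card : Nat.card P' = ℓ := by
    rw [← hP]
    exact Nat.card_congr (Subgroup.subgroupOfEquivOfLe (le_Zc P hP)).toEquiv
  have hP'C' : P' ≤ C' := by
    intro u hu
    exact ⟨u.2, hPN hu⟩
  have hP'c : ∀ u ∈ P', ∀ x, u * x = x * u := by
    intro u hu x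
    exact Subtype.ext (comm_Zc P hu x.2)
  let e : C' ≃* C := Subgroup.subgroupOfEquivOfLe hCZ
  have he : ∀ c : C', ((e c : C) : H) = ((c : Zc P) : H) := fun c => rfl
  have hEC' : ∀ g, IsIrr (fun c : C' => E g ((c : Zc P) : H)) := fun g =>
    (hEC g).comp_mulEquiv e
  have hθE : (fun s : Zc P => E 1 s) = θ := by
    ext s
    rw [hEone]
    exact ext0_of_mem θ s.2
  have hθC' : IsIrr (fun c : C' => θ c) := by
    have h4 := hEC' 1
    rw [← hθE]
    exact h4
  have hC'card : ∃ m : ℕ, ¬ ℓ ∣ m ∧ (Nat.card C' : ℂ) = ℓ * m * θ 1 := by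
    refine ⟨m, hm, ?_⟩
    rw [Nat.card_congr e.toEquiv, hCcard, hΘ1]
  have hSCT := h1 (Zc P) 𝔐 ℓ hmax hℓ𝔐 P' C' hP'card hP'C' hP'c θ hθ hθC' hC'card
  have hint : ∀ g t, IsIntegral ℤ ((∑ x, cjT C' x t * E g (x : H)) / E g ((1 : Zc P) : H)) :=
    fun g t => int_cjT C' (fun s : Zc P => E g s) (hEZ g) (hEC' g) t
  have hNUNh : ∀ w : Zc P, ∃ t, t * w⁻¹ ∈ C' ∧ cgT 𝔐 C' θ t ≠ 0 := by
    intro w
    obtain ⟨a, ha1, ha2, ha3, ha4, -⟩ := hSCT w
    have h4 := hint 1
    have h5 : ∀ t, IsIntegral ℤ ((∑ x, cjT C' x t * θ x) / θ 1) := by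
      intro t
      have h6 := int_cjT C' θ hθ hθC' t
      exact h6
    obtain ⟨t, ht1, ht2⟩ := exists_ne 𝔐 C' θ a h5 ha1 ha2 ha4
    refine ⟨t, ?_, ht2⟩
    by_contra hcon
    exact ht1 (ha3 t hcon)
  -- the central functions on `C` of the conjugates
  set cf : H → C → (integralClosure ℤ ℂ) ⧸ 𝔐 := fun g =>
    cen 𝔐 (MonoidHom.id C) (fun c : C => E g c) with hcf
  have hcfmul : ∀ g g' x, cf (g * g') x = cf g' (MulAut.conjNormal (H := C) g⁻¹ x) := by
    intro g g' x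
    have h4 := cen_comp 𝔐 (MulAut.conjNormal (H := C) g⁻¹) (fun c : C => E g' c) x
    refine Eq.trans ?_ h4
    have h5 : (fun c : C => E (g * g') c) =
        fun y : C => E g' ((MulAut.conjNormal (H := C) g⁻¹ y : C) : H) := by
      ext c
      rw [hEmul]
      change E g' (g⁻¹ * (c : H) * g) = E g' (g⁻¹ * (c : H) * g⁻¹⁻¹)
      rw [inv_inv]
    change cen 𝔐 (MonoidHom.id C) (fun c : C => E (g * g') c) x = _
    rw [h5]
  let Nb : Subgroup H :=
    { carrier := {n | n ∈ N ∧ cf n = cf 1}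
      one_mem' := ⟨N.one_mem, rfl⟩
      mul_mem' := by
        rintro a b ⟨ha, ha'⟩ ⟨hb, hb'⟩
        refine ⟨N.mul_mem ha hb, ?_⟩
        ext x
        rw [hcfmul, hb', ← hcfmul, mul_one, ha']
      inv_mem' := by
        rintro a ⟨ha, ha'⟩
        refine ⟨N.inv_mem ha, ?_⟩
        ext x
        have h4 := hcfmul a⁻¹ a x
        rw [inv_mul_cancel, ha', ← hcfmul, mul_one] at h4
        exact h4.symm }
  have hNb : ∀ n, n ∈ Nb ↔ n ∈ N ∧ cf n = cf 1 := fun n => Iff.rfl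
  obtain ⟨n0, hn0, hn0gen⟩ := exists_gen P hP Nb
  have hn0N : n0 ∈ N := ((hNb _).mp hn0).1
  have hcenC' : ∀ g, cf g = cf 1 →
      cen 𝔐 (MonoidHom.id C') (fun c : C' => θ c) =
      cen 𝔐 (MonoidHom.id C') (fun c : C' => E g ((c : Zc P) : H)) := by
    intro g hg
    ext x
    have h4 := cen_comp 𝔐 e (fun c : C => E g c) x
    have h5 := cen_comp 𝔐 e (fun c : C => E 1 c) x
    have h6 : (fun c : C' => θ c) = fun y : C' => (fun c : C => E 1 c) (e y) := by
      ext c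
      rw [← hθE]
      rfl
    rw [h6, h5]
    refine Eq.trans ?_ h4.symm
    exact (congrFun hg (e x)).symm
  obtain ⟨ν, hν1, hνm, hνC, hνeq⟩ := h3 (Zc P) 𝔐 ℓ hmax hℓ𝔐 C' θ (fun s : Zc P => E n0 s) hθ
    (hEZ n0) hθC' (hEC' n0) (hcenC' n0 ((hNb _).mp hn0).2) hNUNh
  let νh : Zc P →* (integralClosure ℤ ℂ) ⧸ 𝔐 :=
    { toFun := ν
      map_one' := hν1
      map_mul' := hνm }
  let νu : Zc P →* ((integralClosure ℤ ℂ) ⧸ 𝔐)ˣ := νh.toHomUnits
  have hνu : ∀ y, ((νu y : ((integralClosure ℤ ℂ) ⧸ 𝔐)ˣ) : (integralClosure ℤ ℂ) ⧸ 𝔐) = ν y :=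
    fun y => rfl
  obtain ⟨h0, hh0⟩ : ∃ h0 : Zc P, ∀ y : Zc P, ∃ k : ℤ, νu h0 ^ k = νu y := by
    have hfin : Finite νu.range := inferInstance
    have hcyc : IsCyclic νu.range := inferInstance
    obtain ⟨g, hg⟩ := hcyc.exists_generator
    obtain ⟨z0, hz0⟩ := g.2
    refine ⟨z0, fun y => ?_⟩
    obtain ⟨k, hk⟩ := hg ⟨νu y, ⟨y, rfl⟩⟩
    refine ⟨k, ?_⟩
    have h4 := congrArg Subtype.val hk
    rw [hz0]
    exact h4
  -- the central functions on `Z` of the conjugates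
  set u : H → H → (integralClosure ℤ ℂ) ⧸ 𝔐 := fun g t => cgT 𝔐 C (E g) t with hu
  have humul : ∀ g g' t, u (g * g') t = u g' (g⁻¹ * t * g) := by
    intro g g' t
    change cgT 𝔐 C (E (g * g')) t = cgT 𝔐 C (E g') (g⁻¹ * t * g)
    rw [cgT, cgT, hE1, hE1]
    congr 2
    rw [← Equiv.sum_comp (MulAut.conj g).toEquiv]
    refine Finset.sum_congr rfl fun x _ => ?_
    have h4 : ((MulAut.conj g).toEquiv x : H) = g * x * g⁻¹ := rfl
    rw [h4, hEmul]
    have h5 : g⁻¹ * (g * x * g⁻¹) * g = x := by group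
    rw [h5]
    congr 1
    refine cjT_congr ⟨?_, ?_⟩
    · rintro ⟨c, hc, h6⟩
      refine ⟨g⁻¹ * c * g, ?_, ?_⟩
      · have h7 := hCn.conj_mem c hc g⁻¹
        rwa [inv_inv] at h7
      · have h7 : x = g⁻¹ * (g * x * g⁻¹) * g := by group
        rw [h7, h6]
        group
    · rintro ⟨c, hc, rfl⟩
      refine ⟨g * c * g⁻¹, hCn.conj_mem c hc g, ?_⟩
      group
  have huZ : ∀ g (t : Zc P), cgT 𝔐 C' (fun s : Zc P => E g s) t = u g t := fun g t =>
    cgT_sub 𝔐 (Zc P) C hCZ (E g) (hEsupp g) t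
  refine ⟨h0, fun h => ?_⟩
  obtain ⟨z', hz', n', hn', hzn'⟩ := Subgroup.mem_sup_of_normal_right.mp
    (show h⁻¹ ∈ Zc P ⊔ N by rw [htop]; trivial)
  set n : H := n'⁻¹ with hn
  set z1 : Zc P := ⟨z'⁻¹, (Zc P).inv_mem hz'⟩ with hz1
  have hnN : n ∈ N := N.inv_mem hn'
  have hhnz : h = n * (z1 : H) := by
    have h4 : h = (z' * n')⁻¹ := by rw [hzn', inv_inv]
    rw [h4, mul_inv_rev]
  obtain ⟨k, hk⟩ := hh0 z1
  set z : Zc P := z1 * h0 ^ (-k) with hz
  have hνz : ν z = 1 := by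
    rw [← hνu, hz, map_mul, map_zpow, ← hk, zpow_neg, mul_inv_cancel, Units.val_one]
  -- the coset of `z`
  have hcos : ∀ n ∈ N, ∀ t : H, t * (z : H)⁻¹ ∈ C → (n⁻¹ * t * n) * (z : H)⁻¹ ∈ C := by
    intro n hn t ht
    have htZ : t ∈ Zc P := by
      have h4 : t = t * (z : H)⁻¹ * z := by group
      rw [h4]
      exact (Zc P).mul_mem (hCZ ht) z.2
    have h4 := hcomm n⁻¹ (N.inv_mem hn) t htZ
    have h5 : (n⁻¹ * t * n) * (z : H)⁻¹ = (n⁻¹ * t * n⁻¹⁻¹ * t⁻¹) * (t * (z : H)⁻¹) := by group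
    rw [h5]
    exact C.mul_mem h4 ht
  have hbase : ∀ t : H, t * (z : H)⁻¹ ∈ C → u n0 t = u 1 t := by
    intro t ht
    have htZ : t ∈ Zc P := by
      have h4 : t = t * (z : H)⁻¹ * z := by group
      rw [h4]
      exact (Zc P).mul_mem (hCZ ht) z.2
    have h4 := hνeq ⟨t, htZ⟩
    have h5 : ν ⟨t, htZ⟩ = 1 := by
      have h6 : (⟨t, htZ⟩ : Zc P) = (⟨t, htZ⟩ * z⁻¹) * z := by group
      rw [h6, hνm, hνz, mul_one]
      exact hνC _ ht
    rw [h5, one_mul] at h4
    have h6 := huZ n0 ⟨t, htZ⟩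
    have h7 := huZ 1 ⟨t, htZ⟩
    rw [hθE] at h7
    exact h6.symm.trans (h4.trans h7)
  have hpow : ∀ k : ℕ, ∀ t : H, t * (z : H)⁻¹ ∈ C → u (n0 ^ k) t = u 1 t := by
    intro k
    induction k with
    | zero =>
      intro t _
      rw [pow_zero]
    | succ k ih =>
      intro t ht
      have h4 := ih _ (hcos n0 hn0N t ht)
      have h5 := humul n0 1 t
      rw [mul_one] at h5
      rw [pow_succ', humul, h4, ← h5]
      exact hbase t ht
  have hall : ∀ b ∈ Nb, ∀ t : H, t * (z : H)⁻¹ ∈ C → u b t = u 1 t := by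
    intro b hb t ht
    obtain ⟨k, hk⟩ := hn0gen b hb
    set w : H := b * (n0 ^ k)⁻¹ with hw
    have hwN : w ∈ N := N.mul_mem ((hNb _).mp hb).1 (N.inv_mem (N.pow_mem hn0N k))
    have h4 : b = w * n0 ^ k := by rw [hw, inv_mul_cancel_right]
    have h5 := hpow k _ (hcos w hwN t ht)
    have h6 := humul w 1 t
    rw [mul_one] at h6
    have h7 : E w = E 1 := (hEeq w 1).mpr (by
      rw [mul_one]
      exact (Zc P).inv_mem hk)
    rw [h4, humul, h5, ← h6]
    change cgT 𝔐 C (E w) t = cgT 𝔐 C (E 1) t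
    rw [h7]
  -- the function from SCT
  obtain ⟨a0, ha1, ha2, ha3, ha4, -⟩ := hSCT z
  set a' : H → ℂ := ext0 a0 with ha'
  have ha'inv : ∀ c ∈ C, ∀ x, a' (c * x * c⁻¹) = a' x := by
    intro c hc x
    by_cases hx : x ∈ Zc P
    · rw [ha', ext0_of_mem a0 hx, ext0_of_mem a0 (hZn.conj_mem x hx c)]
      exact ha1 ⟨c, hCZ hc⟩ hc ⟨x, hx⟩
    · rw [ha', ext0_of_not_mem a0 hx, ext0_of_not_mem a0]
      intro hx'
      apply hx
      have h4 := hZn.conj_mem _ hx' c⁻¹
      have h5 : c⁻¹ * (c * x * c⁻¹) * c⁻¹⁻¹ = x := by group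
      rwa [h5] at h4
  have ha'int : ∀ x, IsIntegral ℤ (a' x) := by
    intro x
    by_cases hx : x ∈ Zc P
    · rw [ha', ext0_of_mem a0 hx]
      exact ha2 _
    · rw [ha', ext0_of_not_mem a0 hx]
      exact isIntegral_zero
  have ha'sup : ∀ x, x * (z : H)⁻¹ ∉ C → a' x = 0 := by
    intro x hx
    by_cases hxZ : x ∈ Zc P
    · rw [ha', ext0_of_mem a0 hxZ]
      exact ha3 ⟨x, hxZ⟩ hx
    · rw [ha', ext0_of_not_mem a0 hxZ]
  have hwt : ∀ g, wt (E g) a' = wt (fun s : Zc P => E g s) a0 := by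
    intro g
    rw [wt, wt]
    congr 1
    have h4 := INTH.sum_restrict (Zc P) a' (E g) (hEsupp g)
    rw [h4]
    refine Finset.sum_congr rfl fun s _ => ?_
    rw [ha', ext0_of_mem a0 s.2]
  have hwt1 : red 𝔐 (wt (E 1) a') ≠ 0 := by
    rw [hwt, hθE]
    exact ha4
  have hwteq : ∀ b ∈ Nb, red 𝔐 (wt (E b) a') = red 𝔐 (wt (E 1) a') := by
    intro b hb
    rw [hwt, hwt]
    refine wt_congr 𝔐 C' _ _ a0 (hint 1) (hint b) ha1 ha2 ?_
    intro t ht
    rw [huZ, huZ]
    refine hall b hb t ?_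
    by_contra hcon
    exact ht (ha3 t hcon)
  -- CYS
  obtain ⟨a, hainv, haint, hasup, hacard⟩ := h2 H 𝔐 ℓ hmax hℓ𝔐 C N (Zc P) hCN hCZ hcomm f hf
    hfN S (by
      intro F hF
      obtain ⟨g, -, rfl⟩ := Finset.mem_image.mp hF
      exact ⟨⟨hEZ g, hEsupp g⟩, hEC g⟩) (fun x _ => hfS x) (fun c : C => E 1 c) (hEC 1) (by
      intro F hF
      obtain ⟨g, -, rfl⟩ := Finset.mem_image.mp hF
      rw [hE1]
      exact (hE1 1).symm) z z.2 a' ha'inv ha'int ha'sup
  have hred : red 𝔐 (wt f a) ≠ 0 := by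
    intro h4
    rw [h4, mul_zero] at hacard
    have h5 : ∀ F ∈ S.filter (fun F => cen 𝔐 (MonoidHom.id C) (fun c : C => F c) =
        cen 𝔐 (MonoidHom.id C) (fun c : C => E 1 c)), red 𝔐 (wt F a') =
          red 𝔐 (wt (E 1) a') := by
      intro F hF
      obtain ⟨hFS, hFc⟩ := Finset.mem_filter.mp hF
      obtain ⟨g, -, rfl⟩ := Finset.mem_image.mp hFS
      obtain ⟨w, hw, b, hb, hwb⟩ := Subgroup.mem_sup_of_normal_right.mp
        (show g⁻¹ ∈ Zc P ⊔ N by rw [htop]; trivial)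
      have h6 : E g = E b⁻¹ := (hEeq g b⁻¹).mpr (by
        rw [← hwb, mul_inv_cancel_right]
        exact hw)
      rw [h6] at hFc ⊢
      exact hwteq b⁻¹ ((hNb _).mpr ⟨N.inv_mem hb, hFc⟩)
    rw [Finset.sum_congr rfl h5, Finset.sum_const, nsmul_eq_mul] at hacard
    have h7 : ∀ n : ℕ, 0 < n → n < ℓ → ((n : ℕ) : (integralClosure ℤ ℂ) ⧸ 𝔐) ≠ 0 := by
      intro n hn hnℓ
      have h8 : red 𝔐 (n : ℂ) = (n : (integralClosure ℤ ℂ) ⧸ 𝔐) := by
        rw [red_of_integral 𝔐 (Lib_helper13.isIntegral_natCast n),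
          ← map_natCast (Ideal.Quotient.mk 𝔐) n]
        congr 1
      rw [← h8]
      refine red_card_ne_zero 𝔐 hℓ𝔐 ?_
      intro h9
      exact absurd (Nat.le_of_dvd hn h9) (by omega)
    have h6 : (C.relIndex N : (integralClosure ℤ ℂ) ⧸ 𝔐) ≠ 0 := by
      have h8 : C.relIndex N = (Zc P).relIndex N := Subgroup.inf_relIndex_right (Zc P) N
      have h9 : (Zc P).relIndex N ∣ (Zc P).index := Subgroup.relIndex_dvd_index_of_normal _ _
      have h10 := Nat.le_of_dvd hidx0 h9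
      rw [h8]
      exact h7 _ (Nat.pos_of_dvd_of_pos h9 hidx0) (by omega)
    rcases mul_eq_zero.mp hacard.symm with h8 | h8
    · exact h6 h8
    · rcases mul_eq_zero.mp h8 with h9 | h9
      · refine h7 _ ?_ ?_ h9
        · exact Finset.card_pos.mpr ⟨E 1, Finset.mem_filter.mpr
            ⟨Finset.mem_image_of_mem _ (Finset.mem_univ _), rfl⟩⟩
        · exact lt_of_le_of_lt ((Finset.card_filter_le _ _).trans_eq hScard) hidx
      · exact hwt1 h9
  obtain ⟨t, ht1, ht2⟩ := exists_ne 𝔐 N f a (int_cjT N f hf hfN) hainv haint hred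
  have htz : t * (z : H)⁻¹ ∈ C := by
    by_contra hcon
    exact ht1 (hasup t hcon)
  refine ⟨-k, t, ?_, ht2⟩
  have h4 : t * (h * (h0 : H) ^ (-k))⁻¹ = (t * (z : H)⁻¹) * n⁻¹ := by
    have h5 : (z : H) = (z1 : H) * (h0 : H) ^ (-k) := by
      rw [hz]
      push_cast
      rfl
    rw [h5, hhnz]
    group
  rw [h4]
  exact N.mul_mem (hCN htz) (N.inv_mem hnN)

end Pool.Agent.DPW


end

section

/-!
# The Brauer homomorphism of the subgroup of order `ℓ` (module DPX_BKNX)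
-/

namespace Pool.Agent.DPX.BKNX

open Pool.Agent.DPB Pool.Agent.DPW Pool.Agent.Lib_helper13 Representation

/-- A cyclic group centralizes its subgroups. -/
theorem le_cen {T : Type} [Group T] {P₁ P : Subgroup T} (hle : P₁ ≤ P) (hc : IsCyclic P) :
    P ≤ Subgroup.centralizer (P₁ : Set T) := by
  intro p hp
  rw [Subgroup.mem_centralizer_iff]
  intro u hu
  have hm : IsMulCommutative P := IsCyclic.isMulCommutative
  have h := hm.is_comm.comm (⟨u, hle hu⟩ : P) ⟨p, hp⟩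
  exact congrArg Subtype.val h

/-- The `ℓ`-subgroups of the centralizer are cyclic. -/
theorem cyc_of (h1 : Stmt_SUPX) {ℓ n : ℕ} [Fact ℓ.Prime] {T : Type} [Group T] [Fintype T]
    {P₁ P : Subgroup T} {x₀ : T} (hcd : CycD ℓ n P₁ P x₀) (Q : Subgroup T) (hQ : IsPGroup ℓ Q)
    (hcen : ∀ u ∈ Q, u * x₀ = x₀ * u) : IsCyclic Q := by
  obtain ⟨t, -, ht⟩ := h1.2.1 ℓ n T P₁ P x₀ hcd Q hQ hcen
  have hcy : IsCyclic P := hcd.cyc
  let f : Q →* P := {
    toFun := fun u => ⟨t * u.1 * t⁻¹, ht u.1 u.2⟩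
    map_one' := by
      apply Subtype.ext
      simp
    map_mul' := fun a b => by
      apply Subtype.ext
      simp [mul_assoc] }
  refine isCyclic_of_injective f ?_
  intro a b hab
  have h := congrArg Subtype.val hab
  have h' : t * a.1 * t⁻¹ = t * b.1 * t⁻¹ := h
  apply Subtype.ext
  exact mul_left_cancel (mul_right_cancel h')

/-- The Brauer homomorphism maps the class sum to the class sum. -/
theorem brz_cls (h1 : Stmt_SUPX) (h2 : Stmt_GCX) {ℓ n : ℕ} [Fact ℓ.Prime] {F T : Type} [Field F]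
    [Group T] [Fintype T] {P₁ P : Subgroup T} {x₀ : T} (hcd : CycD ℓ n P₁ P x₀)
    (hx : x₀ ∈ Subgroup.normalizer (P₁ : Set T)) :
    brz P₁ (clsF F x₀) = clsF F (⟨x₀, hx⟩ : NP P₁) := by
  classical
  funext g
  have hx₀' : ∀ u ∈ P₁, u * x₀ = x₀ * u := fun u hu => hcd.cen u (hcd.le hu)
  have hx₀ : x₀ ∈ Subgroup.centralizer (P₁ : Set T) := Subgroup.mem_centralizer_iff.2 hx₀'
  have hiff : ((g : T) ∈ Subgroup.centralizer (P₁ : Set T) ∧ ∃ t, (g : T) = t * x₀ * t⁻¹) ↔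
      ∃ n : NP P₁, g = n * ⟨x₀, hx⟩ * n⁻¹ := by
    constructor
    · rintro ⟨hg, t, ht⟩
      have hg' : ∀ u ∈ P₁, u * (t * x₀ * t⁻¹) = t * x₀ * t⁻¹ * u := by
        intro u hu
        have h := Subgroup.mem_centralizer_iff.1 hg u hu
        rwa [ht] at h
      obtain ⟨m, hm, hm'⟩ := (h2 ℓ T P₁ hcd.c1).2.2.1 x₀ hx₀' (fun Q hQ hc =>
        cyc_of h1 hcd Q hQ hc) t hg'
      refine ⟨⟨m, hm⟩, ?_⟩
      apply Subtype.ext
      show (g : T) = m * x₀ * m⁻¹
      rw [ht, hm']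
    · rintro ⟨n, rfl⟩
      exact ⟨DPW.BKN.conj_cen P₁ n hx₀, ⟨n, rfl⟩⟩
  unfold brz clsF
  by_cases h : ∃ n : NP P₁, g = n * ⟨x₀, hx⟩ * n⁻¹
  · obtain ⟨h1, h2⟩ := hiff.2 h
    rw [if_pos h1, if_pos h2, if_pos h]
  · rw [if_neg h]
    by_cases h1 : (g : T) ∈ Subgroup.centralizer (P₁ : Set T)
    · rw [if_pos h1, if_neg (fun h2 => h (hiff.1 ⟨h1, h2⟩))]
    · rw [if_neg h1]

end Pool.Agent.DPX.BKNX

namespace Pool.Agent.DPX

open Pool.Agent.DPB Pool.Agent.DPW Pool.Agent.Lib_helper13 Representation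

theorem BKNX_thm (h1 : Stmt_SUPX) (h2 : Stmt_GCX) : Stmt_BKNX := by
  refine ⟨?_, ?_⟩
  · intro ℓ _ F T _ _ _ _ P₁ _ hcard a ha b hb
    have hP : IsPGroup ℓ P₁ := IsPGroup.of_card (n := 1) (by rw [hcard, pow_one])
    exact ⟨DPW.BKN.brz_mem P₁ ha, DPW.BKN.brz_cv P₁ hP ha hb⟩
  · intro ℓ n _ F T _ _ _ _ P₁ P _ x₀ e hBK
    have hcd := hBK.cd
    have hPC : P ≤ Subgroup.centralizer (P₁ : Set T) := BKNX.le_cen hcd.le hcd.cyc
    have hPN : P ≤ Subgroup.normalizer (P₁ : Set T) := fun p hp =>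
      DPW.BKN.cen_le P₁ (hPC hp)
    have hP₁N : P₁ ≤ Subgroup.normalizer (P₁ : Set T) := Subgroup.le_normalizer
    have hP : IsPGroup ℓ P₁ := IsPGroup.of_card (n := 1) (by rw [hcd.c1, pow_one])
    refine ⟨hPN, fun hx => ⟨BKNX.brz_cls h1 h2 hcd hx, ?_⟩⟩
    obtain ⟨y, hy, hey⟩ := hBK.fac
    refine ⟨⟨?_, ?_, ?_, ?_, ?_, ?_⟩, DPW.BKN.brz_mem P₁ hBK.cf, ?_,
      ⟨brz P₁ y, DPW.BKN.brz_mem P₁ hy, ?_⟩, ?_⟩
    · intro u hu
      rw [Subgroup.mem_subgroupOf] at hu ⊢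
      exact hcd.le hu
    · rw [← hcd.c1]
      exact Nat.card_congr (Subgroup.subgroupOfEquivOfLe hP₁N).toEquiv
    · have hcy : IsCyclic P := hcd.cyc
      exact isCyclic_of_injective (Subgroup.subgroupOfEquivOfLe hPN).toMonoidHom
        (Subgroup.subgroupOfEquivOfLe hPN).injective
    · rw [← hcd.card]
      exact Nat.card_congr (Subgroup.subgroupOfEquivOfLe hPN).toEquiv
    · intro u hu
      apply Subtype.ext
      exact hcd.cen u.1 hu
    · intro h
      apply hcd.sq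
      refine h.trans ?_
      set C := Subgroup.centralizer ({(⟨x₀, hx⟩ : NP P₁)} : Set (NP P₁)) with hC
      have h1 : C.map (Subgroup.normalizer (P₁ : Set T)).subtype ≤
          Subgroup.centralizer ({x₀} : Set T) := by
        rintro _ ⟨n, hn, rfl⟩
        rw [Subgroup.mem_centralizer_singleton_iff]
        have h2 := Subgroup.mem_centralizer_singleton_iff.1 hn
        exact congrArg Subtype.val h2
      have h3 : Nat.card (C.map (Subgroup.normalizer (P₁ : Set T)).subtype) = Nat.card C :=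
        Nat.card_congr (C.equivMapOfInjective _ (Subgroup.subtype_injective _)).symm.toEquiv
      rw [← h3]
      exact Subgroup.card_dvd_of_le h1
    · rw [← DPW.BKN.brz_cv P₁ hP hBK.cf hBK.cf, hBK.idem]
    · rw [← BKNX.brz_cls h1 h2 hcd hx,
        ← DPW.BKN.brz_cv P₁ hP (DPW.BKN.clsF_mem F x₀) hy, ← hey]
    · obtain ⟨h, hne, hh⟩ := hBK.nz
      have hhC : h ∈ Subgroup.centralizer (P₁ : Set T) :=
        Subgroup.mem_centralizer_iff.2 fun u hu => hh u (hcd.le hu)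
      refine ⟨⟨h, DPW.BKN.cen_le P₁ hhC⟩, ?_, ?_⟩
      · unfold brz
        rw [if_pos hhC]
        exact hne
      · intro u hu
        apply Subtype.ext
        exact hh u.1 hu

end Pool.Agent.DPX


end

section

set_option linter.unusedSectionVars false

/-!
# CYCX (theorem X): the quotient by the elements which act on the block as inner automorphisms
is cyclic
-/

namespace Pool.Agent.DPX

open Pool.Agent.DP Pool.Agent.DPV Pool.Agent.DPB Pool.Agent.DPW Pool.Agent.Lib_helper13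
open Representation

namespace CYCX

open Pool.Agent.DPC.EXTAR (mem_YY rho_iota)

/-! ### The action on a normal subgroup of prime order -/

section Act

variable {H : Type} [Group H] [Fintype H] {ℓ : ℕ} [hℓ : Fact ℓ.Prime] (P : Subgroup H) [P.Normal]

theorem mem_cen_of_ker {h : H} (hh : (MulAut.conjNormal (H := P)) h = 1) :
    h ∈ Subgroup.centralizer (P : Set H) := by
  rw [Subgroup.mem_centralizer_iff]
  intro u hu
  have h2 : ((MulAut.conjNormal (H := P) h ⟨u, hu⟩ : P) : H) = u := by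
    rw [hh]
    rfl
  have h3 : h * u * h⁻¹ = u := h2
  rw [mul_inv_eq_iff_eq_mul] at h3
  exact h3.symm

theorem pow_cen (hP : Nat.card P = ℓ) (h : H) :
    h ^ (ℓ - 1) ∈ Subgroup.centralizer (P : Set H) := by
  have hc : IsCyclic P := isCyclic_of_prime_card hP
  apply mem_cen_of_ker
  rw [map_pow]
  have h4 : Nat.card (MulAut P) = ℓ - 1 := by
    rw [IsCyclic.card_mulAut, hP, Nat.totient_prime hℓ.out]
  rw [← h4]
  exact pow_card_eq_one'

theorem comm_cen (hP : Nat.card P = ℓ) (g h : H) :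
    g * h * g⁻¹ * h⁻¹ ∈ Subgroup.centralizer (P : Set H) := by
  have hc : IsCyclic P := isCyclic_of_prime_card hP
  apply mem_cen_of_ker
  have h1 : ∀ a b : MulAut P, a * b = b * a := by
    intro a b
    apply (IsCyclic.mulAutMulEquiv P).injective
    rw [map_mul, map_mul, mul_comm]
  rw [map_mul, map_mul, map_mul, map_inv, map_inv, h1 (MulAut.conjNormal g)]
  group

theorem pow_mem_C (hP : Nat.card P = ℓ) (N : Subgroup H) [N.Normal] (h : H) :
    h ^ (N.index * (ℓ - 1)) ∈ N ⊓ Subgroup.centralizer (P : Set H) := by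
  rw [pow_mul]
  exact ⟨N.pow_mem (N.pow_index_mem h) _, pow_cen P hP _⟩

theorem not_dvd_mul (N : Subgroup H) (hN : ¬ ℓ ∣ N.index) : ¬ ℓ ∣ N.index * (ℓ - 1) := by
  intro h
  rcases hℓ.out.dvd_mul.mp h with h1 | h1
  · exact hN h1
  · have h2 := hℓ.out.two_le
    have h3 := Nat.le_of_dvd (by omega) h1
    omega

end Act

/-! ### The two cases -/

theorem core (h3 : Stmt_ACTX) (h5 : Stmt_CYAX) (h6 : Stmt_CYBX) {H : Type} [Group H] [Fintype H]
    (𝔐 : Ideal (integralClosure ℤ ℂ)) (ℓ n : ℕ) [hℓ : Fact ℓ.Prime] (hM : 𝔐.IsMaximal)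
    (hl : (ℓ : integralClosure ℤ ℂ) ∈ 𝔐) (P₁ N C : Subgroup H) [P₁.Normal] [N.Normal]
    [C.Normal] (hP : Nat.card P₁ = ℓ) (hN : ¬ ℓ ∣ N.index)
    (hC : C = N ⊓ Subgroup.centralizer (P₁ : Set H)) (f : H → ℂ) (hf : IsIrr f)
    (hfN : IsIrr (fun n : N => f n)) (φ : C → ℂ) (hφ : IsIrr φ)
    (hip : ip (fun c : C => f c) φ ≠ 0) (Q : Subgroup C) (x₀ : C)
    (hAt : AtX ℓ n (cen 𝔐 (MonoidHom.id C) φ) (P₁.subgroupOf C) Q x₀) :
    ∃ h0 : H, ∀ h : H, ∃ (k : ℤ) (t : H), t * (h * h0 ^ k)⁻¹ ∈ N ∧ cgT 𝔐 N f t ≠ 0 := by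
  classical
  by_cases hA : ∀ m ∈ N, m ∈ bS 𝔐 C φ → ∀ c, φ (MulAut.conjNormal m c) = φ c
  · exact h5 H 𝔐 ℓ n hM hl P₁ N C hP hN hC f hf hfN φ hφ hip Q x₀ hAt hA
  · push Not at hA
    obtain ⟨m, hm, hmb, c1, hc1⟩ := hA
    refine h6 H 𝔐 ℓ n hM hl P₁ N C hP hN hC f hf hfN φ hφ hip Q x₀ hAt ?_
    intro h hh
    by_contra hcen
    have hP₁n : P₁.Normal := inferInstance
    have hNn : N.Normal := inferInstance
    have hcenter : P₁.subgroupOf C ≤ Subgroup.center C := by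
      intro u hu
      rw [Subgroup.mem_center_iff]
      intro x
      apply Subtype.ext
      have hx := hC.le x.2
      exact (Subgroup.mem_centralizer_iff.mp hx.2 _ (Subgroup.mem_subgroupOf.mp hu)).symm
    have hpres : ∀ g : H, ∀ u ∈ P₁.subgroupOf C,
        (MulAut.conjNormal g : MulAut C) u ∈ P₁.subgroupOf C := by
      intro g u hu
      rw [Subgroup.mem_subgroupOf] at hu ⊢
      exact hP₁n.conj_mem _ hu g
    have hpow : ∀ g : H, ∃ M : ℕ, ¬ ℓ ∣ M ∧ ∃ y : C, ∀ x : C,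
        ((MulAut.conjNormal g : MulAut C) ^ M) x = y * x * y⁻¹ := by
      intro g
      refine ⟨N.index * (ℓ - 1), not_dvd_mul N hN,
        ⟨g ^ (N.index * (ℓ - 1)), by rw [hC]; exact pow_mem_C P₁ hP N g⟩, ?_⟩
      intro x
      apply Subtype.ext
      rw [← map_pow]
      rfl
    have hACT : ∀ g : H, (∀ x, cen 𝔐 (MonoidHom.id C) φ (MulAut.conjNormal g x) =
        cen 𝔐 (MonoidHom.id C) φ x) → g ∉ Subgroup.centralizer (P₁ : Set H) →
        ∃ φ₁ : C → ℂ, IsIrr φ₁ ∧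
          cen 𝔐 (MonoidHom.id C) φ₁ = cen 𝔐 (MonoidHom.id C) φ ∧
          (∀ x, φ₁ (MulAut.conjNormal g x) = φ₁ x) ∧
          ∀ φ' : C → ℂ, IsIrr φ' → cen 𝔐 (MonoidHom.id C) φ' = cen 𝔐 (MonoidHom.id C) φ →
            (∀ x, φ' (MulAut.conjNormal g x) = φ' x) → φ' = φ₁ := by
      intro g hg hgc
      refine (h3 C 𝔐 ℓ n hM hl (P₁.subgroupOf C) Q x₀ hcenter φ hφ hAt
        (MulAut.conjNormal g) hg (hpres g) (hpow g)).2 ?_
      by_contra hcon
      push Not at hcon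
      apply hgc
      rw [Subgroup.mem_centralizer_iff]
      intro u hu
      -- `P₁` is contained in `C`
      have hle : P₁ ≤ C := by
        have e1 : Nat.card (P₁.subgroupOf C) = ℓ := hAt.cd.c1
        have e2 : Nat.card (P₁ ⊓ C : Subgroup H) = ℓ := by
          rw [← e1, ← Subgroup.inf_subgroupOf_right P₁ C]
          exact (Nat.card_congr (Subgroup.subgroupOfEquivOfLe inf_le_right).toEquiv).symm
        have e3 : (P₁ ⊓ C : Subgroup H) = P₁ := by
          apply Subgroup.eq_of_le_of_card_ge inf_le_left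
          rw [e2, hP]
        rw [← e3]
        exact inf_le_right
      have h7 := hcon ⟨u, hle hu⟩ (Subgroup.mem_subgroupOf.mpr hu)
      have h8 : g * u * g⁻¹ = u := congrArg Subtype.val h7
      rw [mul_inv_eq_iff_eq_mul] at h8
      exact h8.symm
    -- `m` moves `P₁`
    have hmc : m ∉ Subgroup.centralizer (P₁ : Set H) := by
      intro hm1
      apply hc1
      have hmC : m ∈ C := by
        rw [hC]
        exact ⟨hm, hm1⟩
      have h7 : (MulAut.conjNormal m : MulAut C) c1 = ⟨m, hmC⟩ * c1 * ⟨m, hmC⟩⁻¹ := by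
        apply Subtype.ext
        rfl
      rw [h7, hφ.conj_eq]
    obtain ⟨φ₁, hφ₁, hφ₁c, hφ₁m, hφ₁u⟩ := hACT m hmb hmc
    have hhb : ∀ x, cen 𝔐 (MonoidHom.id C) φ (MulAut.conjNormal h x) =
        cen 𝔐 (MonoidHom.id C) φ x := by
      intro x
      rw [← CYBW.cen_comp 𝔐 (MulAut.conjNormal h : MulAut C) φ x]
      congr 1
      ext c
      exact hh c
    obtain ⟨φ₂, hφ₂, hφ₂c, hφ₂m, hφ₂u⟩ := hACT h hhb hcen
    have hφφ₂ : φ = φ₂ := hφ₂u φ hφ rfl hh
    -- the commutator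
    have hcomm : h * m * h⁻¹ * m⁻¹ ∈ C := by
      rw [hC]
      refine ⟨N.mul_mem (hNn.conj_mem m hm h) (N.inv_mem hm), comm_cen P₁ hP h m⟩
    have hφ₁h : (fun x : C => φ₁ (MulAut.conjNormal h x)) = φ₁ := by
      refine hφ₁u _ (hφ₁.comp_mulEquiv (MulAut.conjNormal h : MulAut C)) ?_ ?_
      · ext x
        rw [CYBW.cen_comp 𝔐 (MulAut.conjNormal h : MulAut C) φ₁ x, hφ₁c]
        exact hhb x
      · intro x
        have h7 : (MulAut.conjNormal h : MulAut C) (MulAut.conjNormal m x) =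
            ⟨h * m * h⁻¹ * m⁻¹, hcomm⟩ *
              (MulAut.conjNormal m : MulAut C) (MulAut.conjNormal h x) *
              ⟨h * m * h⁻¹ * m⁻¹, hcomm⟩⁻¹ := by
          apply Subtype.ext
          change h * (m * (x : H) * m⁻¹) * h⁻¹ = (h * m * h⁻¹ * m⁻¹) *
            (m * (h * (x : H) * h⁻¹) * m⁻¹) * (h * m * h⁻¹ * m⁻¹)⁻¹
          group
        change φ₁ ((MulAut.conjNormal h : MulAut C) (MulAut.conjNormal m x)) =
          φ₁ (MulAut.conjNormal h x)
        rw [h7, hφ₁.conj_eq, hφ₁m]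
    have hφ₁₂ : φ₁ = φ₂ := hφ₂u φ₁ hφ₁ hφ₁c (fun x => congrFun hφ₁h x)
    apply hc1
    rw [hφφ₂, ← hφ₁₂, hφ₁m]

/-! ### Transport -/

theorem atX_equiv {Y Y' F : Type} [Group Y] [Group Y'] [Zero F] (e : Y ≃* Y') {ℓ n : ℕ}
    {ω : Y → F} {ω' : Y' → F} (hω : ∀ y, ω' (e y) = ω y) {P₁ P : Subgroup Y} {x₀ : Y}
    (h : AtX ℓ n ω P₁ P x₀) :
    AtX ℓ n ω' (P₁.map e.toMonoidHom) (P.map e.toMonoidHom) (e x₀) := by
  have hcent : ∀ x : Y, Nat.card (Subgroup.centralizer ({e x} : Set Y')) =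
      Nat.card (Subgroup.centralizer ({x} : Set Y)) := by
    intro x
    have h1 : Subgroup.centralizer ({e x} : Set Y') =
        (Subgroup.centralizer ({x} : Set Y)).map e.toMonoidHom := by
      ext y
      rw [Subgroup.mem_centralizer_singleton_iff, Subgroup.mem_map]
      constructor
      · intro hy
        refine ⟨e.symm y, ?_, e.apply_symm_apply y⟩
        rw [Subgroup.mem_centralizer_singleton_iff]
        apply e.injective
        rw [map_mul, map_mul, e.apply_symm_apply, hy]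
      · rintro ⟨z, hz, rfl⟩
        rw [Subgroup.mem_centralizer_singleton_iff] at hz
        change e z * e x = e x * e z
        rw [← map_mul, hz, map_mul]
    rw [h1]
    exact (Nat.card_congr ((Subgroup.centralizer ({x} : Set Y)).equivMapOfInjective
      e.toMonoidHom e.injective).toEquiv).symm
  have hcard : ∀ S : Subgroup Y, Nat.card (S.map e.toMonoidHom) = Nat.card S := fun S =>
    (Nat.card_congr (S.equivMapOfInjective e.toMonoidHom e.injective).toEquiv).symm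
  refine ⟨⟨Subgroup.map_mono h.cd.le, ?_, ?_, ?_, ?_, ?_⟩, ?_, ?_⟩
  · rw [hcard, h.cd.c1]
  · have h1 : IsCyclic P := h.cd.cyc
    exact isCyclic_of_surjective (P.equivMapOfInjective e.toMonoidHom e.injective)
      (P.equivMapOfInjective e.toMonoidHom e.injective).surjective
  · rw [hcard, h.cd.card]
  · rintro _ ⟨u, hu, rfl⟩
    change e u * e x₀ = e x₀ * e u
    rw [← map_mul, h.cd.cen u hu, map_mul]
  · rw [hcent]
    exact h.cd.sq
  · rw [hω]
    exact h.ne
  · intro x hx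
    obtain ⟨y, rfl⟩ := e.surjective x
    rw [hcent]
    rw [hω] at hx
    exact h.mn y hx

/-- A nonzero class function has a constituent. -/
theorem exists_constituent {Y : Type} [Group Y] [Fintype Y] (F : Y → ℂ)
    (hF : ∀ g x, F (g * x * g⁻¹) = F x) (h1 : F 1 ≠ 0) : ∃ χ : Y → ℂ, IsIrr χ ∧ ip F χ ≠ 0 := by
  by_contra hcon
  push Not at hcon
  apply h1
  rw [class_fn_expand F hF]
  apply Finset.sum_eq_zero
  intro χ hχ
  rw [hcon χ (mem_irrF.mp hχ), zero_mul]

end CYCX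

open _root_.Pool.Agent.DPX.CYCX Pool.Agent.DPC.EXTAR in
theorem CYCX_thm (h1 : Stmt_ATNX) (h2 : Stmt_ATCX) (h3 : Stmt_ACTX) (h4 : Stmt_LFX)
    (h5 : Stmt_CYAX) (h6 : Stmt_CYBX) : Stmt_CYCX := by
  classical
  intro G B C _ _ _ _ _ 𝔐 ℓ n _ hM hl ι κ ρ hloc hCc P₁ P x₀ ω hAt hθ ψ hψ hcg L hL f hf
  obtain ⟨θ, hθ, hθω⟩ := hθ
  have hcl := hloc.cl
  have hP : Nat.card P₁ = ℓ := hAt.cd.c1
  obtain ⟨H, hH⟩ : ∃ H : Subgroup B, H = Stx κ {P₁} ψ ⊓ L.comap ρ := ⟨_, rfl⟩
  have hmem : ∀ g : G, ι g ∈ H ↔ g ∈ stb ({P₁} : Finset (Subgroup G)) := by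
    intro g
    rw [hH]
    exact mem_YY hcl hψ L
  have hH1 : ∀ h ∈ H, ∀ u ∈ P₁, κ h u ∈ P₁ := by
    intro h hh u hu
    rw [hH] at hh
    have h3 := hh.1.1 P₁ (Finset.mem_singleton_self P₁)
    rw [← h3]
    exact ⟨u, hu, rfl⟩
  have hH2 : ∀ h ∈ H, ρ h ∈ L := by
    intro h hh
    rw [hH] at hh
    exact hh.2
  have hPn : P₁ ≤ stb ({P₁} : Finset (Subgroup G)) := DFW.le_stb P₁
  obtain ⟨T, hT⟩ : ∃ T : Subgroup B, T = (stb ({P₁} : Finset (Subgroup G))).map ι := ⟨_, rfl⟩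
  have hTH : T ≤ H := by
    rw [hT]
    rintro _ ⟨g, hg, rfl⟩
    exact (hmem g).mpr hg
  have hPT : P₁.map ι ≤ T := by
    rw [hT]
    exact Subgroup.map_mono hPn
  have hPH : P₁.map ι ≤ H := hPT.trans hTH
  have hTmem : ∀ b : B, b ∈ T ↔ ∃ g ∈ stb ({P₁} : Finset (Subgroup G)), ι g = b := by
    intro b
    rw [hT]
    exact Subgroup.mem_map
  -- normality
  have hPnorm : ((P₁.map ι).subgroupOf H).Normal := by
    constructor
    intro x hx h
    rw [Subgroup.mem_subgroupOf] at hx ⊢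
    obtain ⟨u, hu, hux⟩ := hx
    refine ⟨κ (h : B) u, hH1 _ h.2 u hu, ?_⟩
    rw [hcl.act, hux]
    rfl
  have hTnorm : (T.subgroupOf H).Normal := by
    constructor
    intro x hx h
    rw [Subgroup.mem_subgroupOf] at hx ⊢
    obtain ⟨g, hg, hgx⟩ := (hTmem _).mp hx
    rw [hTmem]
    have h3 : ι (κ (h : B) g) = ((h * x * h⁻¹ : H) : B) := by
      rw [hcl.act, hgx]
      rfl
    refine ⟨κ (h : B) g, ?_, h3⟩
    rw [← hmem, h3]
    exact (h * x * h⁻¹).2
  -- cardinalities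
  have hcP : Nat.card ((P₁.map ι).subgroupOf H) = ℓ := by
    rw [Nat.card_congr (Subgroup.subgroupOfEquivOfLe hPH).toEquiv,
      ← Nat.card_congr (P₁.equivMapOfInjective ι hcl.inj).toEquiv, hP]
  have hCfin : Finite C := by
    by_contra hcon
    apply hCc
    have : Infinite C := not_finite_iff_infinite.mp hcon
    rw [Nat.card_eq_zero_of_infinite]
    exact dvd_zero _
  have hindex : ¬ ℓ ∣ (T.subgroupOf H).index := by
    intro hd
    apply hCc
    refine hd.trans ?_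
    have e1 : T.subgroupOf H = (ρ.comp H.subtype).ker := by
      ext x
      rw [Subgroup.mem_subgroupOf, MonoidHom.mem_ker]
      constructor
      · intro hx
        obtain ⟨g, -, hg⟩ := (hTmem _).mp hx
        change ρ (x : B) = 1
        rw [← hg]
        exact rho_iota hcl g
      · intro hx
        have hx' : ρ (x : B) = 1 := hx
        obtain ⟨g, hg⟩ := (hcl.ker (x : B)).mp hx'
        rw [hTmem]
        refine ⟨g, ?_, hg⟩
        rw [← hmem, hg]
        exact x.2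
    rw [e1, Subgroup.index_ker]
    exact Subgroup.card_subgroup_dvd_card _
  -- characters
  have hf1 : IsIrr (fun x : H => f x) := by
    subst hH
    exact hf.1.1
  have hf0 : ∀ x, x ∉ H → f x = 0 := by
    subst hH
    exact hf.1.2
  have hfN : IsIrr (fun n : T.subgroupOf H => f ((n : H) : B)) := by
    have h3 : ∀ n : T.subgroupOf H, ∃ g : stb ({P₁} : Finset (Subgroup G)),
        ι (g : G) = ((n : H) : B) := by
      intro n
      obtain ⟨g, hg, hgn⟩ := (hTmem _).mp (Subgroup.mem_subgroupOf.mp n.2)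
      exact ⟨⟨g, hg⟩, hgn⟩
    choose e he using h3
    let E : T.subgroupOf H ≃* stb ({P₁} : Finset (Subgroup G)) :=
      { toFun := e
        invFun := fun g => ⟨⟨ι (g : G), (hmem _).mpr g.2⟩, Subgroup.mem_subgroupOf.mpr
          ((hTmem _).mpr ⟨g, g.2, rfl⟩)⟩
        left_inv := by
          intro n
          apply Subtype.ext
          apply Subtype.ext
          exact he n
        right_inv := by
          intro g
          apply Subtype.ext
          apply hcl.inj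
          exact he _
        map_mul' := by
          intro a b
          apply Subtype.ext
          apply hcl.inj
          have h6 : ι ((e a * e b : stb ({P₁} : Finset (Subgroup G))) : G) =
              ι (e a : G) * ι (e b : G) := map_mul ι _ _
          rw [h6, he, he, he]
          rfl }
    have h4 := hψ.1.comp_mulEquiv E
    have h5 : (fun n : T.subgroupOf H => f ((n : H) : B)) =
        (fun s : stb ({P₁} : Finset (Subgroup G)) => ψ s) ∘ E := by
      funext n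
      change f ((n : H) : B) = ψ (e n : G)
      rw [← hf.2, he]
    rw [h5]
    exact h4
  -- the normalizer
  obtain ⟨N0, hN0⟩ : ∃ N0 : Subgroup G, N0 = Subgroup.normalizer (P₁ : Set G) := ⟨_, rfl⟩
  have hst : stb ({P₁} : Finset (Subgroup G)) = Subgroup.normalizer (P₁ : Set G) :=
    DPB.LOC.stb_singleton P₁
  have hx₀ : ∀ u ∈ P₁, u * x₀ = x₀ * u := fun u hu => hAt.cd.cen u (hAt.cd.le hu)
  have hxs : x₀ ∈ Subgroup.normalizer (P₁ : Set G) := by
    rw [← hst]
    exact DFW.cen_mem_stb P₁ hx₀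
  have hfin : Fintype (NP P₁) := Fintype.ofFinite _
  have hψN : IsIrr (fun s : NP P₁ => ψ s) := by
    have key : ∀ S : Subgroup G, stb ({P₁} : Finset (Subgroup G)) = S →
        IsIrr (fun s : S => ψ s) := by
      rintro _ rfl
      exact hψ.1
    exact key _ hst
  have hψoff : ∀ x, x ∉ Subgroup.normalizer (P₁ : Set G) → ψ x = 0 := by
    rw [← hst]
    exact hψ.2
  have hψc : cen 𝔐 (Subgroup.normalizer (P₁ : Set G)).subtype (fun s : NP P₁ => ψ s) =
      cen 𝔐 (MonoidHom.id G) θ := by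
    funext g
    rw [hθω, ← hcg g]
    exact BLKC.cg_eq_cen 𝔐 (Subgroup.normalizer (P₁ : Set G)) ψ hψoff g
  have hAtθ : AtX ℓ n (cen 𝔐 (MonoidHom.id G) θ) P₁ P x₀ := by
    rw [hθω]
    exact hAt
  have hAtN := (h1 G 𝔐 ℓ n hM hl θ hθ P₁ P x₀ hAtθ hxs (fun s : NP P₁ => ψ s) hψN hψc).1
  -- the centralizer
  let C' : Subgroup H := T.subgroupOf H ⊓
    Subgroup.centralizer (((P₁.map ι).subgroupOf H : Subgroup H) : Set H)
  have hC'n : C'.Normal := Subgroup.normal_inf_normal _ _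
  let C0 : Subgroup (NP P₁) := Subgroup.centralizer
    ((P₁.subgroupOf (Subgroup.normalizer (P₁ : Set G)) : Subgroup (NP P₁)) : Set (NP P₁))
  have hc0 : ∀ c : C0, ∀ u ∈ P₁, u * ((c : NP P₁) : G) = ((c : NP P₁) : G) * u := by
    intro c u hu
    have hu' : u ∈ Subgroup.normalizer (P₁ : Set G) := by
      rw [← hst]
      exact hPn hu
    have h7 := Subgroup.mem_centralizer_iff.mp c.2 (⟨u, hu'⟩ : NP P₁)
      (Subgroup.mem_subgroupOf.mpr hu)
    exact congrArg Subtype.val h7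
  have hcs : ∀ c : C0, ((c : NP P₁) : G) ∈ stb ({P₁} : Finset (Subgroup G)) := by
    intro c
    rw [hst]
    exact (c : NP P₁).2
  have hcH : ∀ c : C0, ι ((c : NP P₁) : G) ∈ H := fun c => (hmem _).mpr (hcs c)
  have hcC : ∀ c : C0, (⟨ι ((c : NP P₁) : G), hcH c⟩ : H) ∈ C' := by
    intro c
    refine ⟨Subgroup.mem_subgroupOf.mpr ((hTmem _).mpr ⟨_, hcs c, rfl⟩), ?_⟩
    refine Subgroup.mem_centralizer_iff.mpr ?_
    intro v hv
    obtain ⟨u, hu, huv⟩ := Subgroup.mem_subgroupOf.mp hv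
    apply Subtype.ext
    change (v : B) * ι ((c : NP P₁) : G) = ι ((c : NP P₁) : G) * (v : B)
    rw [← huv, ← map_mul, hc0 c u hu, map_mul]
  let Φ : C0 →* C' :=
    { toFun := fun c => ⟨⟨ι ((c : NP P₁) : G), hcH c⟩, hcC c⟩
      map_one' := by
        apply Subtype.ext
        apply Subtype.ext
        exact map_one ι
      map_mul' := by
        intro a b
        apply Subtype.ext
        apply Subtype.ext
        exact map_mul ι _ _ }
  have hΦi : Function.Injective Φ := by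
    intro a b hab
    have h7 : ι ((a : NP P₁) : G) = ι ((b : NP P₁) : G) :=
      congrArg (fun x : C' => ((x : H) : B)) hab
    exact Subtype.ext (Subtype.ext (hcl.inj h7))
  have hΦs : Function.Surjective Φ := by
    intro c
    obtain ⟨hcT, hcc⟩ := c.2
    obtain ⟨g, hg, hgc⟩ := (hTmem _).mp (Subgroup.mem_subgroupOf.mp hcT)
    have hg' : g ∈ Subgroup.normalizer (P₁ : Set G) := by
      rw [← hst]
      exact hg
    have hgC : (⟨g, hg'⟩ : NP P₁) ∈ C0 := by
      rw [Subgroup.mem_centralizer_iff]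
      intro v hv
      have hv' : (v : G) ∈ P₁ := Subgroup.mem_subgroupOf.mp hv
      apply Subtype.ext
      apply hcl.inj
      change ι ((v : G) * g) = ι (g * (v : G))
      rw [map_mul, map_mul, hgc]
      have hvH : ι (v : G) ∈ H := hPH ⟨_, hv', rfl⟩
      have h8 := Subgroup.mem_centralizer_iff.mp hcc (⟨ι (v : G), hvH⟩ : H)
        (Subgroup.mem_subgroupOf.mpr ⟨_, hv', rfl⟩)
      exact congrArg Subtype.val h8
    refine ⟨⟨⟨g, hg'⟩, hgC⟩, ?_⟩
    apply Subtype.ext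
    apply Subtype.ext
    exact hgc
  let E : C0 ≃* C' := MulEquiv.ofBijective Φ ⟨hΦi, hΦs⟩
  have hE : ∀ c : C0, (((E c : C') : H) : B) = ι ((c : NP P₁) : G) := fun c => rfl
  -- a constituent
  obtain ⟨φ, hφ, hφip⟩ := exists_constituent (fun c : C' => (fun x : H => f x) c)
    (fun g x => hf1.conj_eq (g : H) (x : H)) hf1.one_ne_zero
  have hφ0 : IsIrr (fun c : C0 => φ (E c)) := hφ.comp_mulEquiv E
  have hip0 : ip (fun c : C0 => (fun s : NP P₁ => ψ s) c) (fun c : C0 => φ (E c)) ≠ 0 := by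
    have h7 := BLKC.ip_comp_equiv E (fun c : C' => (fun x : H => f x) c) φ
    have h8 : (fun c : C0 => (fun c : C' => (fun x : H => f x) c) (E c)) =
        (fun c : C0 => (fun s : NP P₁ => ψ s) c) := by
      funext c
      change f ((E c : H) : B) = ψ ((c : NP P₁) : G)
      rw [hE, hf.2]
    rw [h8] at h7
    rw [h7]
    exact hφip
  have hPnn : (P₁.subgroupOf (Subgroup.normalizer (P₁ : Set G))).Normal := inferInstance
  obtain ⟨P', x', g, -, -, hAtC⟩ := h2 (NP P₁) 𝔐 ℓ n hM hl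
    (P₁.subgroupOf (Subgroup.normalizer (P₁ : Set G)))
    (P.subgroupOf (Subgroup.normalizer (P₁ : Set G))) (⟨x₀, hxs⟩ : NP P₁)
    (fun s : NP P₁ => ψ s) hψN hAtN C0 rfl (fun c : C0 => φ (E c)) hφ0 hip0
  have hAtC' := atX_equiv E (ω' := cen 𝔐 (MonoidHom.id C') φ)
    (fun y => (CYBW.cen_comp 𝔐 E φ y).symm) hAtC
  have hmap : ((P₁.subgroupOf (Subgroup.normalizer (P₁ : Set G))).subgroupOf C0).map
      E.toMonoidHom = ((P₁.map ι).subgroupOf H).subgroupOf C' := by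
    ext x
    rw [Subgroup.mem_map, Subgroup.mem_subgroupOf, Subgroup.mem_subgroupOf]
    constructor
    · rintro ⟨c, hc, rfl⟩
      rw [Subgroup.mem_subgroupOf, Subgroup.mem_subgroupOf] at hc
      exact ⟨_, hc, rfl⟩
    · rintro ⟨u, hu, hux⟩
      obtain ⟨c, rfl⟩ := E.surjective x
      refine ⟨c, ?_, rfl⟩
      rw [Subgroup.mem_subgroupOf, Subgroup.mem_subgroupOf]
      have h7 : u = ((c : NP P₁) : G) := by
        apply hcl.inj
        rw [hux]
        rfl
      rw [← h7]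
      exact hu
  rw [hmap] at hAtC'
  have hcyc : ∃ h0 : H, ∀ h : H, ∃ (k : ℤ) (t : H), t * (h * h0 ^ k)⁻¹ ∈ T.subgroupOf H ∧
      cgT 𝔐 (T.subgroupOf H) (fun x : H => f x) t ≠ 0 :=
    core h3 h5 h6 𝔐 ℓ n hM hl ((P₁.map ι).subgroupOf H) (T.subgroupOf H) C' hcP hindex rfl
      (fun x : H => f x) hf1 hfN φ hφ hφip _ _ hAtC'
  obtain ⟨h0, hh0⟩ := hcyc
  refine ⟨ρ (h0 : B), hH2 _ h0.2, ?_⟩
  intro c hc
  obtain ⟨b, hb, hbc⟩ := hL hc
  have hbH : b ∈ H := by
    rw [hH]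
    refine ⟨hb, ?_⟩
    change ρ b ∈ L
    rw [hbc]
    exact hc
  obtain ⟨k, h', hN, hne⟩ := hh0 ⟨b, hbH⟩
  have hρh' : ρ (h' : B) = c * ρ (h0 : B) ^ k := by
    obtain ⟨g, -, hg⟩ := (hTmem _).mp (Subgroup.mem_subgroupOf.mp hN)
    have h3 : ρ ((h' * ((⟨b, hbH⟩ : H) * h0 ^ k)⁻¹ : H) : B) = 1 := by
      rw [← hg]
      exact rho_iota hcl g
    have h4 : ((h' * ((⟨b, hbH⟩ : H) * h0 ^ k)⁻¹ : H) : B) =
        (h' : B) * (b * (h0 : B) ^ k)⁻¹ := by
      simp
    rw [h4, map_mul, map_inv, mul_inv_eq_one, map_mul, map_zpow, hbc] at h3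
    exact h3
  rw [CYCW.cgT_sub 𝔐 H T hTH f hf0 h'] at hne
  have hinv : ∀ n ∈ stb ({P₁} : Finset (Subgroup G)), ∀ x,
      (fun x => cjT T x (h' : B)) (ι n * x * (ι n)⁻¹) = (fun x => cjT T x (h' : B)) x := by
    intro n hn x
    have hnT : ι n ∈ T := (hTmem _).mpr ⟨n, hn, rfl⟩
    change cjT T (ι n * x * (ι n)⁻¹) (h' : B) = cjT T x (h' : B)
    rw [cjT, cjT]
    have hiff : (∃ s ∈ T, ι n * x * (ι n)⁻¹ = s * (h' : B) * s⁻¹) ↔
        ∃ s ∈ T, x = s * (h' : B) * s⁻¹ := by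
      constructor
      · rintro ⟨s, hs, hx⟩
        refine ⟨(ι n)⁻¹ * s, T.mul_mem (T.inv_mem hnT) hs, ?_⟩
        have h5 : x = (ι n)⁻¹ * (ι n * x * (ι n)⁻¹) * ι n := by group
        rw [h5, hx]
        group
      · rintro ⟨s, hs, hx⟩
        refine ⟨ι n * s, T.mul_mem hnT hs, ?_⟩
        rw [hx]
        group
    by_cases hc1 : ∃ s ∈ T, x = s * (h' : B) * s⁻¹
    · rw [if_pos hc1, if_pos (hiff.mpr hc1)]
    · rw [if_neg hc1, if_neg (fun h => hc1 (hiff.mp h))]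
  have hint : ∀ x, IsIntegral ℤ ((fun x => cjT T x (h' : B)) x) := by
    intro x
    change IsIntegral ℤ (cjT T x (h' : B))
    rw [cjT]
    split
    · exact isIntegral_one
    · exact isIntegral_zero
  have hsup : ∀ x, ρ x ≠ ρ (h' : B) → (fun x => cjT T x (h' : B)) x = 0 := by
    intro x hx
    change cjT T x (h' : B) = 0
    rw [cjT, if_neg]
    rintro ⟨s, hs, rfl⟩
    apply hx
    obtain ⟨g, -, rfl⟩ := (hTmem _).mp hs
    rw [map_mul, map_mul, map_inv, rho_iota hcl g, one_mul, inv_one, mul_one]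
  have hAtψ : AtX ℓ n (fun g => cg 𝔐 ψ g) P₁ P x₀ := by
    have h7 : (fun g => cg 𝔐 ψ g) = ω := funext hcg
    rw [h7]
    exact hAt
  have hex : ∃ t, ρ t = ρ (h' : B) ∧ cgT 𝔐 ι.range f t ≠ 0 := by
    refine h4 G B C 𝔐 ℓ n hM hl ι κ ρ hloc P₁ P x₀ ψ hψ hAtψ L f hf (ρ (h' : B))
      (hH2 _ h'.2) (fun x => cjT T x (h' : B)) hinv hint hsup hne
  obtain ⟨t, ht1, ht2⟩ := hex
  exact ⟨k, t, ht1.trans hρh', ht2⟩

end Pool.Agent.DPX


end
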