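import Mathlib
import Pool.Agent.DAM.C14
import Pool.Agent.DAM.C15
import Pool.Agent.DAM.C18
import Pool.Agent.DAM.C22
import Pool.Agent.DAM.C32
import Pool.Agent.DAM.C45
import Pool.Agent.DAM.C50
import Pool.Agent.DAM.C83

/-! Parts: DPN.MUN, DPF.EXPU, DPF.T2A, DPK.T2Ar, DPV.FRG, DPX.CYBX -/

section

/-!
# Multiplicativity of the scalars of invariant functions
-/

namespace Pool.Agent.DPN

open Pool.Agent.DP Pool.Agent.DPC Pool.Agent.DPM Pool.Agent.Lib_helper13 Representation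
open Pool.Agent.Lib_helper13.Dade (pCore DadeHolds dadeSum)

namespace MUN

theorem aiv_conv {O X : Type} [Group O] [Group X] [Fintype X] {j : O →* X} {u v : X → ℤ}
    (hu : AIv j u) (hv : AIv j v) : AIv j (conv u v) := by
  intro a x
  unfold conv
  refine (Fintype.sum_equiv (MulAut.conj (j a)).toEquiv _ _ fun s => ?_).symm
  have e1 : (MulAut.conj (j a)).toEquiv s = j a * s * (j a)⁻¹ := rfl
  rw [e1, hu a s]
  have e2 : (j a * s * (j a)⁻¹)⁻¹ * (j a * x * (j a)⁻¹) = j a * (s⁻¹ * x) * (j a)⁻¹ := by group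
  rw [e2, hv a (s⁻¹ * x)]

theorem supp_conv {X H W : Type} [Group X] [Fintype X] [Group H] [Group W] {p : X →* H}
    {π : W →* H} {u v : X → ℤ} {w w' : W} (hu : ∀ y, p y ≠ π w → u y = 0)
    (hv : ∀ y, p y ≠ π w' → v y = 0) (y : X) (hy : p y ≠ π (w * w')) : conv u v y = 0 := by
  unfold conv
  refine Finset.sum_eq_zero fun t _ => ?_
  by_cases h1 : p t = π w
  · have h2 : p (t⁻¹ * y) ≠ π w' := by
      intro h
      apply hy
      rw [map_mul, map_inv, h1] at h
      rw [map_mul, ← h]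
      group
    rw [hv _ h2, mul_zero]
  · rw [hu _ h1, zero_mul]

theorem pl_congr {X : Type} [Group X] [Fintype X] {l l' : List (X → ℤ)}
    (h : (l.map elt).prod = (l'.map elt).prod) : pl l = pl l' := by
  funext x
  unfold pl
  rw [h]

end MUN

open _root_.Pool.Agent.DPN.MUN in
theorem MUN_thm (h1 : Stmt_KEYN) : Stmt_MUN := by
  intro O X H W _ _ _ _ _ _ _ _ 𝔐 ℓ _ hM hℓ j c p h a Z Λ τ θ hP π μ Lm hR u v w w' hu hv
    su sv
  have hk := h1 O X H W 𝔐 ℓ hM hℓ j c p h a Z Λ τ θ hP π μ Lm hR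
  have hprime : 𝔐.IsPrime := hM.isPrime
  have hdom : IsDomain ((integralClosure ℤ ℂ) ⧸ 𝔐) := Ideal.Quotient.isDomain 𝔐
  have huv := aiv_conv hu hv
  have suv := supp_conv (p := p) (π := π) su sv
  set n := orderOf (w * w') with hn
  have hn0 : n ≠ 0 := (orderOf_pos (w * w')).ne'
  obtain ⟨m, hm⟩ : ∃ m, n = m + 1 := Nat.exists_eq_succ_of_ne_zero hn0
  have hpow : (w * w') ^ n = 1 := pow_orderOf_eq_one _
  set α := Lm (fun t => conv u v t) (w * w') with hα
  set β := Lm (fun t => u t) w * Lm (fun t => v t) w' with hβ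
  -- the first list
  have k1 := hk (List.replicate n (conv u v, w * w'))
    (by
      intro x hx
      rw [(List.mem_replicate.1 hx).2]
      exact ⟨huv, suv⟩)
    (by rw [List.map_replicate, List.prod_replicate]; exact hpow)
  rw [List.map_replicate, List.prod_replicate, List.map_replicate] at k1
  -- the second list
  have k2 := hk ((u, w) :: (v, w') :: List.replicate m (conv u v, w * w'))
    (by
      intro x hx
      rcases List.mem_cons.1 hx with rfl | hx
      · exact ⟨hu, su⟩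
      rcases List.mem_cons.1 hx with rfl | hx
      · exact ⟨hv, sv⟩
      rw [(List.mem_replicate.1 hx).2]
      exact ⟨huv, suv⟩)
    (by
      rw [List.map_cons, List.map_cons, List.prod_cons, List.prod_cons, List.map_replicate,
        List.prod_replicate, ← mul_assoc, ← pow_succ', ← hm]
      exact hpow)
  rw [List.map_cons, List.map_cons, List.prod_cons, List.prod_cons, List.map_replicate,
    List.prod_replicate, ← mul_assoc, List.map_cons, List.map_cons, List.map_replicate] at k2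
  have e2 : pl (u :: v :: List.replicate m (conv u v)) = pl (List.replicate n (conv u v)) := by
    apply pl_congr
    rw [List.map_cons, List.map_cons, List.prod_cons, List.prod_cons, List.map_replicate,
      List.prod_replicate, List.map_replicate, List.prod_replicate, hm, pow_succ', elt_conv,
      ← mul_assoc]
  -- the third list
  have k3 := hk (List.replicate n [(u, w), (v, w')]).flatten
    (by
      intro x hx
      obtain ⟨l, hl, hx⟩ := List.mem_flatten.1 hx
      rw [(List.mem_replicate.1 hl).2] at hx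
      rcases List.mem_cons.1 hx with rfl | hx
      · exact ⟨hu, su⟩
      rcases List.mem_cons.1 hx with rfl | hx
      · exact ⟨hv, sv⟩
      exact absurd hx List.not_mem_nil)
    (by
      rw [List.map_flatten, List.prod_flatten, List.map_replicate, List.map_replicate,
        List.prod_replicate]
      simp only [List.map_cons, List.map_nil, List.prod_cons, List.prod_nil, mul_one]
      exact hpow)
  rw [List.map_flatten, List.prod_flatten, List.map_replicate, List.map_replicate,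
    List.prod_replicate, List.map_flatten, List.map_replicate] at k3
  simp only [List.map_cons, List.map_nil, List.prod_cons, List.prod_nil, mul_one] at k3
  have e3 : pl (List.replicate n [u, v]).flatten = pl (List.replicate n (conv u v)) := by
    apply pl_congr
    rw [List.map_flatten, List.prod_flatten, List.map_replicate, List.map_replicate,
      List.prod_replicate, List.map_replicate, List.prod_replicate]
    simp only [List.map_cons, List.map_nil, List.prod_cons, List.prod_nil, mul_one]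
    rw [elt_conv]
  rw [e2, ← k1] at k2
  rw [e3, ← k1] at k3
  change β * α ^ m = α ^ n at k2
  change β ^ n = α ^ n at k3
  by_cases h0 : α = 0
  · rw [h0, zero_pow hn0] at k3
    rw [h0]
    exact (pow_eq_zero_iff hn0).1 k3 |>.symm
  · rw [hm, pow_succ'] at k2
    exact (mul_right_cancel₀ (pow_ne_zero m h0) k2).symm

end Pool.Agent.DPN


end

section

/-!
# EXPU: only the fixed pairs contribute to the Moebius sum
-/

namespace Pool.Agent.DPF

open Pool.Agent.DP Pool.Agent.DPC Pool.Agent.DPM Pool.Agent.DPN Pool.Agent.Lib_helper13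
  Representation
open Pool.Agent.Lib_helper13.Dade (pCore DadeHolds dadeSum)

theorem EXPU_thm (h1 : Stmt_EXU) : Stmt_EXPU := by
  classical
  intro L K H _ _ _ _ _ _ 𝔐 ℓ _ π hπ hc μ M _ p hp hM ω d m hm
  have hmob := (MOBX_thm H).2 m hm
  -- exchange the sums over the subgroups and over the chains
  have hex : ∑ V, m V * PHU 𝔐 ℓ d π μ M (V.comap p) ω =
      ∑ τ ∈ Ch ℓ (⊥ : Subgroup M), (-1 : ℚ) ^ τ.card *
        ∑ V : Subgroup H, m V * ((Nat.card ↥(V.comap p ⊓ stb (mapCh M.subtype τ)) : ℚ) *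
          Nat.card {ψ : ↥(SL π M τ (V.comap p)) → ℂ // IsIrr ψ ∧ OvL π.ker μ _ ψ ∧
            HasDefect ℓ ψ d ∧
            ∀ g ∈ M.comap π, cen 𝔐 (SL π M τ (V.comap p)).subtype ψ g = ω g}) := by
    unfold PHU
    simp only [Finset.mul_sum]
    rw [Finset.sum_comm]
    refine Finset.sum_congr rfl fun τ _ => Finset.sum_congr rfl fun V _ => ?_
    ring
  rw [hex]
  refine Finset.sum_congr rfl fun τ hτ => ?_
  congr 1
  obtain ⟨I, f, hI, hf, hs⟩ := h1 L K H 𝔐 ℓ π hπ hc μ M p hp hM ω d τ hτ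
  -- exchange the sums over the subgroups and over the characters
  have hex2 : ∑ V : Subgroup H, m V * ((Nat.card ↥(V.comap p ⊓ stb (mapCh M.subtype τ)) : ℚ) *
        Nat.card {ψ : ↥(SL π M τ (V.comap p)) → ℂ // IsIrr ψ ∧ OvL π.ker μ _ ψ ∧
          HasDefect ℓ ψ d ∧
          ∀ g ∈ M.comap π, cen 𝔐 (SL π M τ (V.comap p)).subtype ψ g = ω g}) =
      ∑ θ ∈ irrF (SL π M τ M) with OvL π.ker μ _ θ ∧
          ∀ g ∈ M.comap π, cen 𝔐 (SL π M τ M).subtype θ g = ω g,
        (Nat.card ↥(M ⊓ stb (mapCh M.subtype τ)) : ℚ) * ∑ V, m V * f θ (V ⊓ I θ) := by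
    have h2 : ∀ V : Subgroup H, m V * ((Nat.card ↥(V.comap p ⊓ stb (mapCh M.subtype τ)) : ℚ) *
        Nat.card {ψ : ↥(SL π M τ (V.comap p)) → ℂ // IsIrr ψ ∧ OvL π.ker μ _ ψ ∧
          HasDefect ℓ ψ d ∧
          ∀ g ∈ M.comap π, cen 𝔐 (SL π M τ (V.comap p)).subtype ψ g = ω g}) =
        ∑ θ ∈ irrF (SL π M τ M) with OvL π.ker μ _ θ ∧
          ∀ g ∈ M.comap π, cen 𝔐 (SL π M τ M).subtype θ g = ω g,
        (Nat.card ↥(M ⊓ stb (mapCh M.subtype τ)) : ℚ) * (m V * f θ (V ⊓ I θ)) := by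
      intro V
      rw [hs V, Finset.mul_sum]
      refine Finset.sum_congr rfl fun θ _ => ?_
      ring
    rw [Finset.sum_congr rfl fun V _ => h2 V, Finset.sum_comm]
    refine Finset.sum_congr rfl fun θ _ => ?_
    rw [Finset.mul_sum]
  rw [hex2]
  symm
  -- compare the two index sets
  have hsub : (Finset.filter (fun θ => PrU 𝔐 π μ p M ω τ θ) (irrF (SL π M τ M))) ⊆
      Finset.filter (fun θ => OvL π.ker μ _ θ ∧
        ∀ g ∈ M.comap π, cen 𝔐 (SL π M τ M).subtype θ g = ω g) (irrF (SL π M τ M)) := by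
    intro θ hθ
    rw [Finset.mem_filter] at hθ ⊢
    exact ⟨hθ.1, hθ.2.ovl, hθ.2.cn⟩
  have h3 : ∀ θ ∈ Finset.filter (fun θ => PrU 𝔐 π μ p M ω τ θ) (irrF (SL π M τ M)),
      (Nat.card ↥(M ⊓ stb (mapCh M.subtype τ)) : ℚ) *
        ∑ V, m V * ((Nat.card V : ℚ) *
          Nat.card {ψ : ↥(SL π M τ (V.comap p)) → ℂ // IsIrr ψ ∧
            ip (fun a : ↥(SL π M τ M) => ext0 ψ (a : L)) θ ≠ 0 ∧ HasDefect ℓ ψ d}) =
      (Nat.card ↥(M ⊓ stb (mapCh M.subtype τ)) : ℚ) * ∑ V, m V * f θ (V ⊓ I θ) := by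
    intro θ hθ
    have hP : PrU 𝔐 π μ p M ω τ θ := (Finset.mem_filter.1 hθ).2
    have hIt : I θ = ⊤ := (hI θ hP.irr hP.ovl hP.cn).2 hP
    congr 1
    refine Finset.sum_congr rfl fun V _ => ?_
    rw [hIt, inf_top_eq, hf θ hP V]
  rw [Finset.sum_congr rfl h3]
  refine Finset.sum_subset hsub fun θ hθ hθ' => ?_
  rw [Finset.mem_filter] at hθ hθ'
  have hirr : IsIrr θ := mem_irrF.1 hθ.1
  have hIt : I θ ≠ ⊤ := fun h => hθ' ⟨hθ.1, (hI θ hirr hθ.2.1 hθ.2.2).1 h⟩
  rw [hmob.2 (I θ) hIt (f θ), mul_zero]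

end Pool.Agent.DPF


end

section

/-!
# T2A: the relations between the linear characters, from Dade's conjecture
-/

namespace Pool.Agent.DPF

open Pool.Agent.DP Pool.Agent.DPC Pool.Agent.DPM Pool.Agent.DPN Pool.Agent.Lib_helper13
  Representation
open Pool.Agent.Lib_helper13.Dade (pCore DadeHolds dadeSum)

namespace T2A

theorem sum_coe {α M : Type*} [AddCommMonoid M] (J : Finset α) (f : α → M) :
    ∑ i : ↥J, f i = ∑ i ∈ J, f i := Finset.sum_coe_sort J f

end T2A

open Classical in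
theorem T2A_thm (h1 : Stmt_T2R) (h2 : Stmt_T2F) : Stmt_T2A := by
  intro L K H W _ _ _ _ _ _ _ _ 𝔐 ℓ _ hmax hmem π hπ hc μ M _ p hp hk P hP hQ ω hpos πW hπW hcW
    ν hν
  obtain ⟨⟨m, hm⟩, -⟩ := MOBX_thm H
  have hR := h1 L K H W 𝔐 ℓ hmax hmem π hπ hc μ M p hp hk P hP hQ ω hpos πW hπW hcW ν hν m hm
  intro a ha n
  set J : Finset (Σ τ : Finset (Subgroup M), (↥(SL π M τ M) → ℂ)) :=
    (Ch ℓ (⊥ : Subgroup M)).sigma
      (fun τ => (irrF (SL π M τ M)).filter (fun θ => PrU 𝔐 π μ p M ω τ θ)) with hJ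
  have hJm : ∀ x : ↥J, PrU 𝔐 π μ p M ω x.1.1 x.1.2 := by
    intro x
    exact (Finset.mem_filter.1 (Finset.mem_sigma.1 x.2).2).2
  have hdef : ∀ x : ↥J, ∃ d, HasDefect ℓ x.1.2 d := fun x => (hJm x).irr.exists_defect
  choose d hd using hdef
  have hF := h2 W H ↥J ℓ πW hπW hcW P hP
    (fun x => (-1 : ℚ) ^ x.1.1.card * (Nat.card ↥(M ⊓ stb (mapCh M.subtype x.1.1)) : ℚ)) d
    (fun x => ν x.1.1 x.1.2) m hm ?_ a ha n
  · rw [Finset.sum_filter] at hF
    have h3 : ∀ x : ↥J, (if d x = n then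
        (((-1 : ℚ) ^ x.1.1.card * (Nat.card ↥(M ⊓ stb (mapCh M.subtype x.1.1)) : ℚ) : ℚ) : ℂ) *
          ((ν x.1.1 x.1.2 a : ℂˣ) : ℂ) else 0) =
        (if HasDefect ℓ x.1.2 n then (-1 : ℂ) ^ x.1.1.card *
          ((Nat.card ↥(M ⊓ stb (mapCh M.subtype x.1.1)) : ℂ) *
            ((ν x.1.1 x.1.2 a : ℂˣ) : ℂ)) else 0) := by
      intro x
      have h4 : d x = n ↔ HasDefect ℓ x.1.2 n := by
        constructor
        · intro h
          rw [← h]
          exact hd x
        · intro h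
          exact (hd x).unique h
      by_cases h5 : d x = n
      · rw [if_pos h5, if_pos (h4.1 h5)]
        push_cast
        ring
      · rw [if_neg h5, if_neg (fun h => h5 (h4.2 h))]
    rw [Finset.sum_congr rfl (fun x _ => h3 x)] at hF
    rw [T2A.sum_coe J (fun x => if HasDefect ℓ x.2 n then (-1 : ℂ) ^ x.1.card *
          ((Nat.card ↥(M ⊓ stb (mapCh M.subtype x.1)) : ℂ) *
            ((ν x.1 x.2 a : ℂˣ) : ℂ)) else 0), hJ, Finset.sum_sigma] at hF
    rw [← hF]
    refine Finset.sum_congr rfl fun τ _ => ?_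
    rw [Finset.mul_sum, Finset.sum_filter, Finset.sum_filter]
    refine Finset.sum_congr rfl fun θ _ => ?_
    by_cases h5 : PrU 𝔐 π μ p M ω τ θ
    · by_cases h6 : HasDefect ℓ θ n
      · rw [if_pos ⟨h5, h6⟩, if_pos h5, if_pos h6]
      · rw [if_neg (fun h => h6 h.2), if_pos h5, if_neg h6]
    · rw [if_neg (fun h => h5 h.1), if_neg h5]
  · intro ν' n'
    have hRn := hR ν' n'
    have h3 : ∀ x : ↥J, ((-1 : ℚ) ^ x.1.1.card *
        (Nat.card ↥(M ⊓ stb (mapCh M.subtype x.1.1)) : ℚ)) *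
          PSM ℓ πW m (ν x.1.1 x.1.2 * ν') (d x) n' =
        (-1 : ℚ) ^ x.1.1.card * ((Nat.card ↥(M ⊓ stb (mapCh M.subtype x.1.1)) : ℚ) *
          ∑ V, m V * ((Nat.card V : ℚ) * Nat.card {η : ↥(V.comap πW) → ℂ // IsIrr η ∧
            OvL πW.ker (ν x.1.1 x.1.2 * ν') _ η ∧
            ∃ e a, HasDefect ℓ η e ∧ HasDefect ℓ x.1.2 a ∧ e + a = n'})) := by
      intro x
      rw [mul_assoc, PSM]
      have h4 : ∀ V : Subgroup H, ∀ η : ↥(V.comap πW) → ℂ,
          (∃ e, HasDefect ℓ η e ∧ e + d x = n') ↔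
            ∃ e a, HasDefect ℓ η e ∧ HasDefect ℓ x.1.2 a ∧ e + a = n' := by
        intro V η
        constructor
        · rintro ⟨e, he, h⟩
          exact ⟨e, d x, he, hd x, h⟩
        · rintro ⟨e, b, he, hb, h⟩
          have := (hd x).unique hb
          subst this
          exact ⟨e, he, h⟩
      simp only [h4]
    rw [Finset.sum_congr rfl (fun x _ => h3 x)]
    rw [T2A.sum_coe J (fun x => (-1 : ℚ) ^ x.1.card *
        ((Nat.card ↥(M ⊓ stb (mapCh M.subtype x.1)) : ℚ) *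
          ∑ V, m V * ((Nat.card V : ℚ) * Nat.card {η : ↥(V.comap πW) → ℂ // IsIrr η ∧
            OvL πW.ker (ν x.1 x.2 * ν') _ η ∧
            ∃ e a, HasDefect ℓ η e ∧ HasDefect ℓ x.2 a ∧ e + a = n'}))), hJ, Finset.sum_sigma]
    rw [← hRn]
    refine Finset.sum_congr rfl fun τ _ => ?_
    rw [Finset.mul_sum]

end Pool.Agent.DPF


end

section

/-!
# T2A for the groups of a class: the relations between the linear characters, from Dade's
conjecture
-/

set_option autoImplicit false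
set_option linter.unusedVariables false

namespace Pool.Agent.DPK

open Pool.Agent.DP Pool.Agent.DPC Pool.Agent.DPM Pool.Agent.DPN Pool.Agent.DPT Pool.Agent.DPF
open Pool.Agent.Lib_helper13
open Representation
open Pool.Agent.Lib_helper13.Dade (pCore DadeHolds dadeSum)

open Classical in
theorem T2Ar_thm (Cl : ∀ (Y : Type) [Group Y], Prop) (hC : GC Cl) (h1 : Stmt_T2Rr Cl)
    (h2 : Stmt_T2F) : Stmt_T2Ar Cl := by
  intro L K H W _ _ _ _ _ _ _ _ 𝔐 ℓ _ hmax hmem π hπ hc μ M _ p hp hk P hP hCl hQ ω hpos πW hπW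
    hcW ν hν
  obtain ⟨⟨m, hm⟩, -⟩ := MOBX_thm H
  have hR := h1 L K H W 𝔐 ℓ hmax hmem π hπ hc μ M p hp hk P hP hCl hQ ω hpos πW hπW hcW
    ν hν m hm
  intro a ha n
  set J : Finset (Σ τ : Finset (Subgroup M), (↥(SL π M τ M) → ℂ)) :=
    (Ch ℓ (⊥ : Subgroup M)).sigma
      (fun τ => (irrF (SL π M τ M)).filter (fun θ => PrU 𝔐 π μ p M ω τ θ)) with hJ
  have hJm : ∀ x : ↥J, PrU 𝔐 π μ p M ω x.1.1 x.1.2 := by
    intro x
    exact (Finset.mem_filter.1 (Finset.mem_sigma.1 x.2).2).2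
  have hdef : ∀ x : ↥J, ∃ d, HasDefect ℓ x.1.2 d := fun x => (hJm x).irr.exists_defect
  choose d hd using hdef
  have hF := h2 W H ↥J ℓ πW hπW hcW P hP
    (fun x => (-1 : ℚ) ^ x.1.1.card * (Nat.card ↥(M ⊓ stb (mapCh M.subtype x.1.1)) : ℚ)) d
    (fun x => ν x.1.1 x.1.2) m hm ?_ a ha n
  · rw [Finset.sum_filter] at hF
    have h3 : ∀ x : ↥J, (if d x = n then
        (((-1 : ℚ) ^ x.1.1.card * (Nat.card ↥(M ⊓ stb (mapCh M.subtype x.1.1)) : ℚ) : ℚ) : ℂ) *
          ((ν x.1.1 x.1.2 a : ℂˣ) : ℂ) else 0) =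
        (if HasDefect ℓ x.1.2 n then (-1 : ℂ) ^ x.1.1.card *
          ((Nat.card ↥(M ⊓ stb (mapCh M.subtype x.1.1)) : ℂ) *
            ((ν x.1.1 x.1.2 a : ℂˣ) : ℂ)) else 0) := by
      intro x
      have h4 : d x = n ↔ HasDefect ℓ x.1.2 n := by
        constructor
        · intro h
          rw [← h]
          exact hd x
        · intro h
          exact (hd x).unique h
      by_cases h5 : d x = n
      · rw [if_pos h5, if_pos (h4.1 h5)]
        push_cast
        ring
      · rw [if_neg h5, if_neg (fun h => h5 (h4.2 h))]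
    rw [Finset.sum_congr rfl (fun x _ => h3 x)] at hF
    rw [T2A.sum_coe J (fun x => if HasDefect ℓ x.2 n then (-1 : ℂ) ^ x.1.card *
          ((Nat.card ↥(M ⊓ stb (mapCh M.subtype x.1)) : ℂ) *
            ((ν x.1 x.2 a : ℂˣ) : ℂ)) else 0), hJ, Finset.sum_sigma] at hF
    rw [← hF]
    refine Finset.sum_congr rfl fun τ _ => ?_
    rw [Finset.mul_sum, Finset.sum_filter, Finset.sum_filter]
    refine Finset.sum_congr rfl fun θ _ => ?_
    by_cases h5 : PrU 𝔐 π μ p M ω τ θ
    · by_cases h6 : HasDefect ℓ θ n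
      · rw [if_pos ⟨h5, h6⟩, if_pos h5, if_pos h6]
      · rw [if_neg (fun h => h6 h.2), if_pos h5, if_neg h6]
    · rw [if_neg (fun h => h5 h.1), if_neg h5]
  · intro ν' n'
    have hRn := hR ν' n'
    have h3 : ∀ x : ↥J, ((-1 : ℚ) ^ x.1.1.card *
        (Nat.card ↥(M ⊓ stb (mapCh M.subtype x.1.1)) : ℚ)) *
          PSM ℓ πW m (ν x.1.1 x.1.2 * ν') (d x) n' =
        (-1 : ℚ) ^ x.1.1.card * ((Nat.card ↥(M ⊓ stb (mapCh M.subtype x.1.1)) : ℚ) *
          ∑ V, m V * ((Nat.card V : ℚ) * Nat.card {η : ↥(V.comap πW) → ℂ // IsIrr η ∧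
            OvL πW.ker (ν x.1.1 x.1.2 * ν') _ η ∧
            ∃ e a, HasDefect ℓ η e ∧ HasDefect ℓ x.1.2 a ∧ e + a = n'})) := by
      intro x
      rw [mul_assoc, PSM]
      have h4 : ∀ V : Subgroup H, ∀ η : ↥(V.comap πW) → ℂ,
          (∃ e, HasDefect ℓ η e ∧ e + d x = n') ↔
            ∃ e a, HasDefect ℓ η e ∧ HasDefect ℓ x.1.2 a ∧ e + a = n' := by
        intro V η
        constructor
        · rintro ⟨e, he, h⟩
          exact ⟨e, d x, he, hd x, h⟩
        · rintro ⟨e, b, he, hb, h⟩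
          have := (hd x).unique hb
          subst this
          exact ⟨e, he, h⟩
      simp only [h4]
    rw [Finset.sum_congr rfl (fun x _ => h3 x)]
    rw [T2A.sum_coe J (fun x => (-1 : ℚ) ^ x.1.card *
        ((Nat.card ↥(M ⊓ stb (mapCh M.subtype x.1)) : ℚ) *
          ∑ V, m V * ((Nat.card V : ℚ) * Nat.card {η : ↥(V.comap πW) → ℂ // IsIrr η ∧
            OvL πW.ker (ν x.1 x.2 * ν') _ η ∧
            ∃ e a, HasDefect ℓ η e ∧ HasDefect ℓ x.2 a ∧ e + a = n'}))), hJ, Finset.sum_sigma]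
    rw [← hRn]
    refine Finset.sum_congr rfl fun τ _ => ?_
    rw [Finset.mul_sum]

end Pool.Agent.DPK


end

section

/-!
FRG: a finite covering group which factors through given groups.
-/

namespace Pool.Agent.DPV

namespace FRG

variable {F A C : Type} [Group F] [Group A] [Group C]

/-- A homomorphism from a subgroup of a free group to `C` with values in the range of `q` lifts. -/
theorem exists_lift [IsFreeGroup F] (q : A →* C) (g : F →* C) (h : ∀ x, g x ∈ q.range) :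
    ∃ s : F →* A, ∀ x, q (s x) = g x := by
  have h1 : ∀ a : IsFreeGroup.Generators F, ∃ b : A, q b = g (IsFreeGroup.of a) :=
    fun a => h (IsFreeGroup.of a)
  choose b hb using h1
  refine ⟨IsFreeGroup.lift b, fun x => ?_⟩
  have h2 : q.comp (IsFreeGroup.lift b) = g := by
    refine IsFreeGroup.ext_hom fun a => ?_
    rw [MonoidHom.comp_apply, IsFreeGroup.lift_of]
    exact hb a
  exact DFunLike.congr_fun h2 x

/-- The image of the kernel of a homomorphism from a subgroup of finite index to a finite group has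
finite index. -/
theorem finite_index [Finite A] (H : Subgroup F) (hH : H.FiniteIndex) (s : H →* A) :
    (s.ker.map H.subtype).FiniteIndex := by
  have h1 : s.ker.index ≠ 0 := by
    have : Finite (H ⧸ s.ker) := Finite.of_injective _ (QuotientGroup.kerLift_injective s)
    exact Subgroup.index_ne_zero_of_finite
  refine ⟨?_⟩
  have h2 : (s.ker.map H.subtype).index = s.ker.index * H.index := by
    rw [Subgroup.index_map, Subgroup.ker_subtype, sup_bot_eq, Subgroup.range_subtype]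
  rw [h2]
  exact Nat.mul_ne_zero h1 hH.index_ne_zero

theorem finite_index_comap [Finite C] (g : F →* C) (K : Subgroup C) :
    (K.comap g).FiniteIndex := by
  have h1 : g.ker.FiniteIndex := by
    have : Finite (F ⧸ g.ker) := Finite.of_injective _ (QuotientGroup.kerLift_injective g)
    exact ⟨Subgroup.index_ne_zero_of_finite⟩
  have h2 : g.ker ≤ K.comap g := by
    intro x hx
    rw [Subgroup.mem_comap, MonoidHom.mem_ker.1 hx]
    exact K.one_mem
  exact Subgroup.finiteIndex_of_le h2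

end FRG

open _root_.Pool.Agent.DPV.FRG in
theorem FRG_thm : Stmt_FRG := by
  intro C I _ _ _ ℓ hℓ Γ _ _ q hq
  classical
  let P : FreeGroup C →* C := FreeGroup.lift id
  have hP : Function.Surjective P := fun c => ⟨FreeGroup.of c, FreeGroup.lift_apply_of⟩
  have hs : ∀ i, ∃ s : ↥((q i).range.comap P) →* Γ i, ∀ x, q i (s x) = P x := by
    intro i
    obtain ⟨s, hs⟩ := exists_lift (q i) (P.comp ((q i).range.comap P).subtype)
      (fun x => Subgroup.mem_comap.1 x.2)
    exact ⟨s, hs⟩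
  choose s hs using hs
  let R0 : Subgroup (FreeGroup C) :=
    P.ker ⊓ ⨅ i, (s i).ker.map ((q i).range.comap P).subtype
  have hkfi : P.ker.FiniteIndex := by
    have h := finite_index_comap P (⊥ : Subgroup C)
    exact h
  have hR0 : R0.FiniteIndex := by
    have h1 : ∀ i, ((s i).ker.map ((q i).range.comap P).subtype).FiniteIndex := fun i =>
      finite_index _ (finite_index_comap P _) (s i)
    have h2 : (⨅ i, (s i).ker.map ((q i).range.comap P).subtype).FiniteIndex :=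
      Subgroup.finiteIndex_iInf h1
    exact inferInstanceAs (P.ker ⊓ _).FiniteIndex
  let R : Subgroup (FreeGroup C) := R0.normalCore
  have hRfi : R.FiniteIndex := inferInstanceAs R0.normalCore.FiniteIndex
  have hRn : R.Normal := inferInstanceAs R0.normalCore.Normal
  have hRP : R ≤ P.ker := (Subgroup.normalCore_le R0).trans inf_le_left
  have hRi : ∀ i, R ≤ (s i).ker.map ((q i).range.comap P).subtype := fun i =>
    ((Subgroup.normalCore_le R0).trans inf_le_right).trans (iInf_le _ i)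
  have hfin : Finite (FreeGroup C ⧸ R) := inferInstance
  let π : FreeGroup C ⧸ R →* C := QuotientGroup.lift R P (fun x hx => hRP hx)
  have hπ : ∀ u : FreeGroup C, π (QuotientGroup.mk' R u) = P u := fun u => rfl
  refine ⟨FreeGroup C ⧸ R, inferInstance, hfin, π, ?_, ?_, ?_⟩
  · intro c
    obtain ⟨u, hu⟩ := hP c
    exact ⟨QuotientGroup.mk' R u, hu⟩
  · intro hdvd
    obtain ⟨⟨x, hx⟩, hord⟩ := exists_prime_orderOf_dvd_card' ℓ hdvd
    obtain ⟨u, rfl⟩ := QuotientGroup.mk'_surjective R x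
    have hne : (⟨QuotientGroup.mk' R u, hx⟩ : π.ker) ≠ 1 := by
      intro h
      rw [h, orderOf_one] at hord
      exact hℓ.out.one_lt.ne hord
    have hpow : u ^ ℓ ∈ R := by
      have h1 : (⟨QuotientGroup.mk' R u, hx⟩ : π.ker) ^ ℓ = 1 := by
        rw [← hord]
        exact pow_orderOf_eq_one _
      have h2 : QuotientGroup.mk' R (u ^ ℓ) = 1 := by
        rw [map_pow]
        exact congrArg Subtype.val h1
      exact (QuotientGroup.eq_one_iff (u ^ ℓ)).1 h2
    have hPu : P u = 1 := hx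
    apply hne
    apply Subtype.ext
    show QuotientGroup.mk' R u = 1
    refine (QuotientGroup.eq_one_iff u).2 ?_
    show u ∈ R0.normalCore
    intro w
    refine Subgroup.mem_inf.2 ⟨?_, ?_⟩
    · rw [MonoidHom.mem_ker, map_mul, map_mul, hPu, mul_one, ← map_mul, mul_inv_cancel, map_one]
    · refine Subgroup.mem_iInf.2 fun i => ?_
      have hm : ∀ v : FreeGroup C, P v = 1 → v ∈ (q i).range.comap P := by
        intro v hv
        rw [Subgroup.mem_comap, hv]
        exact Subgroup.one_mem _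
      have hPw : P (w * u * w⁻¹) = 1 := by
        rw [map_mul, map_mul, hPu, mul_one, ← map_mul, mul_inv_cancel, map_one]
      refine Subgroup.mem_map.2 ⟨⟨w * u * w⁻¹, hm _ hPw⟩, ?_, rfl⟩
      rw [MonoidHom.mem_ker]
      have hk : s i ⟨w * u * w⁻¹, hm _ hPw⟩ ∈ (q i).ker := by
        rw [MonoidHom.mem_ker, hs]
        exact hPw
      have hpw : (s i ⟨w * u * w⁻¹, hm _ hPw⟩) ^ ℓ = 1 := by
        rw [← map_pow]
        have h3 : w * u ^ ℓ * w⁻¹ ∈ R := hRn.conj_mem _ hpow w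
        obtain ⟨⟨y, hy⟩, hyk, hye⟩ := Subgroup.mem_map.1 (hRi i h3)
        have h4 : (⟨w * u * w⁻¹, hm _ hPw⟩ : ↥((q i).range.comap P)) ^ ℓ = ⟨y, hy⟩ := by
          apply Subtype.ext
          show (w * u * w⁻¹) ^ ℓ = y
          rw [conj_pow]
          exact hye.symm
        rw [h4]
        exact hyk
      have hcard : orderOf (⟨s i ⟨w * u * w⁻¹, hm _ hPw⟩, hk⟩ : (q i).ker) ∣ ℓ := by
        refine orderOf_dvd_of_pow_eq_one ?_
        apply Subtype.ext
        exact hpw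
      rcases (Nat.dvd_prime hℓ.out).1 hcard with h5 | h5
      · have h6 := orderOf_eq_one_iff.1 h5
        exact congrArg Subtype.val h6
      · exact absurd (h5 ▸ orderOf_dvd_natCard _) (hq i)
  · intro i
    have hmem : ∀ u : FreeGroup C, u ∈ (q i).range.comap P →
        QuotientGroup.mk' R u ∈ (q i).range.comap π := fun u hu => hu
    let f : ↥((q i).range.comap P) →* ↥((q i).range.comap π) :=
      ((QuotientGroup.mk' R).comp ((q i).range.comap P).subtype).codRestrict _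
        (fun u => hmem u.1 u.2)
    have hf : Function.Surjective f := by
      rintro ⟨x, hx⟩
      obtain ⟨u, rfl⟩ := QuotientGroup.mk'_surjective R x
      exact ⟨⟨u, hx⟩, rfl⟩
    have hker : f.ker ≤ (s i).ker := by
      rintro ⟨u, hu⟩ hk
      have h1 : QuotientGroup.mk' R u = 1 := congrArg Subtype.val (MonoidHom.mem_ker.1 hk)
      have h2 : u ∈ R := (QuotientGroup.eq_one_iff u).1 h1
      obtain ⟨⟨y, hy⟩, hyk, hye⟩ := Subgroup.mem_map.1 (hRi i h2)
      have h3 : (⟨u, hu⟩ : ↥((q i).range.comap P)) = ⟨y, hy⟩ := Subtype.ext hye.symm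
      rw [h3]
      exact hyk
    refine ⟨f.liftOfSurjective hf ⟨s i, hker⟩, ?_⟩
    intro x
    obtain ⟨u, rfl⟩ := hf x
    have h4 : (f.liftOfSurjective hf ⟨s i, hker⟩) (f u) = s i u :=
      MonoidHom.liftOfRightInverse_comp_apply f _ _ ⟨s i, hker⟩ u
    rw [h4, hs]
    rfl

end Pool.Agent.DPV


end

section

/-!
# CYBX (theorem X): the case of a character whose stabilizer centralizes the subgroup of
order `ℓ`
-/

set_option linter.unusedSectionVars false

namespace Pool.Agent.DPX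

open Pool.Agent.DP Pool.Agent.DPV Pool.Agent.DPB Pool.Agent.DPW Pool.Agent.Lib_helper13
open Representation

namespace CYBX

open Pool.Agent.DPV.CYE Pool.Agent.DPW.CYBW

/-! ### Transport -/

section equiv

variable {A B : Type} [Group A] [Group B] (e : A ≃* B)

theorem cent_card (x : A) : Nat.card (Subgroup.centralizer ({x} : Set A)) =
    Nat.card (Subgroup.centralizer ({e x} : Set B)) := by
  have h : ∀ c : A, c ∈ Subgroup.centralizer ({x} : Set A) ↔
      e c ∈ Subgroup.centralizer ({e x} : Set B) := by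
    intro c
    rw [Subgroup.mem_centralizer_iff, Subgroup.mem_centralizer_iff]
    constructor
    · intro h1 y hy
      rw [Set.mem_singleton_iff] at hy
      subst hy
      rw [← map_mul, ← map_mul, h1 x rfl]
    · intro h1 y hy
      rw [Set.mem_singleton_iff] at hy
      subst hy
      have h2 := h1 (e y) rfl
      rw [← map_mul, ← map_mul] at h2
      exact e.injective h2
  exact Nat.card_congr (e.toEquiv.subtypeEquiv h)

/-- The preimage of a subgroup under an isomorphism. -/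
def cmE (P : Subgroup B) : P.comap e.toMonoidHom ≃* P where
  toFun x := ⟨e x, x.2⟩
  invFun y := ⟨e.symm y, by
    show e (e.symm (y : B)) ∈ P
    rw [e.apply_symm_apply]
    exact y.2⟩
  left_inv x := Subtype.ext (e.symm_apply_apply x)
  right_inv y := Subtype.ext (e.apply_symm_apply y)
  map_mul' x y := Subtype.ext (map_mul e _ _)

theorem atX_equiv {ℓ n : ℕ} {F : Type} [Zero F] {ω : B → F} {P₁ P : Subgroup B} {x₀ : B}
    (h : AtX ℓ n ω P₁ P x₀) : AtX ℓ n (fun a => ω (e a)) (P₁.comap e.toMonoidHom)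
      (P.comap e.toMonoidHom) (e.symm x₀) := by
  refine ⟨⟨?_, ?_, ?_, ?_, ?_, ?_⟩, ?_, ?_⟩
  · exact Subgroup.comap_mono h.cd.le
  · rw [Nat.card_congr (cmE e P₁).toEquiv, h.cd.c1]
  · have := h.cd.cyc
    exact (cmE e P).isCyclic.2 this
  · rw [Nat.card_congr (cmE e P).toEquiv, h.cd.card]
  · intro u hu
    have h1 := h.cd.cen (e u) hu
    apply e.injective
    rw [map_mul, map_mul, e.apply_symm_apply]
    exact h1
  · rw [cent_card e, e.apply_symm_apply]
    exact h.cd.sq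
  · show ω (e (e.symm x₀)) ≠ 0
    rw [e.apply_symm_apply]
    exact h.ne
  · intro x hx
    rw [cent_card e]
    exact h.mn (e x) hx

end equiv

/-! ### Clifford theory -/

theorem ip_comp {Y Y' : Type} [Group Y] [Fintype Y] [Group Y'] [Fintype Y'] (e : Y ≃* Y')
    (f f' : Y' → ℂ) : ip (fun y => f (e y)) (fun y => f' (e y)) = ip f f' := by
  rw [ip, ip, Nat.card_congr e.toEquiv]
  congr 1
  refine Fintype.sum_equiv e.toEquiv _ _ (fun y => ?_)
  change f (e y) * f' (e y⁻¹) = f (e y) * f' (e y)⁻¹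
  rw [map_inv]

/-- A character over a character with the least inertia group. -/
theorem ind_eq' {Y : Type} [Group Y] [Fintype Y] (Z : Subgroup Y) [Z.Normal] {f : Y → ℂ}
    (hf : IsIrr f) {θ : Z → ℂ} (hθ : IsIrr θ) (hip : ip (resj Z.subtype f) θ ≠ 0)
    (hin : inert (MulAut.conjNormal (H := Z)) θ = Z) (y : Y) :
    f y = (∑ z : Y, ext0 θ (z⁻¹ * y * z)) / Nat.card Z := by
  obtain ⟨ψ, hψ, hipψ, hind⟩ := (CCOR_thm IND_thm SUMM_thm Z Y (Y ⧸ Z) _ _ _
    (clG_sub Z) θ hθ).2.2 f hf hip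
  have hψ' : IsIrr (fun a : Z => ext0 ψ (a : Y)) := by
    let e : Z ≃* inert (MulAut.conjNormal (H := Z)) θ := MulEquiv.subgroupCongr hin.symm
    have h1 := hψ.comp_mulEquiv e
    have h2 : (ψ ∘ e) = fun a : Z => ext0 ψ (a : Y) := by
      ext a
      have ha : (a : Y) ∈ inert (MulAut.conjNormal (H := Z)) θ := by rw [hin]; exact a.2
      rw [ext0_of_mem ψ ha]
      rfl
    rwa [h2] at h1
  have heq : (fun a : Z => ext0 ψ (a : Y)) = θ := by
    by_contra hne
    exact hipψ (ip_ne hψ' hθ hne)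
  have hext : ∀ x : Y, ext0 ψ x = ext0 θ x := by
    intro x
    by_cases hx : x ∈ Z
    · rw [ext0_of_mem θ hx]
      exact congrFun heq ⟨x, hx⟩
    · rw [ext0_of_not_mem θ hx, ext0_of_not_mem ψ]
      rwa [hin]
  have hcard : Nat.card (inert (MulAut.conjNormal (H := Z)) θ) = Nat.card Z := by
    rw [hin]
  rw [← hind, indc, hcard]
  simp only [hext]

theorem res_irrX {H : Type} [Group H] [Fintype H] (N C : Subgroup H) [N.Normal] [C.Normal]
    (hCN : C ≤ N) {f : H → ℂ} (hf : IsIrr f) (hfN : IsIrr (fun n : N => f n)) {φ : C → ℂ}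
    (hφ : IsIrr φ) (hip : ip (fun c : C => f c) φ ≠ 0)
    (hst : ∀ n ∈ N, (∀ c, φ (MulAut.conjNormal n c) = φ c) → n ∈ C) :
    ∃ M : Subgroup H, (∀ h, h ∈ M ↔ ∀ c, φ (MulAut.conjNormal h c) = φ c) ∧ M ⊔ N = ⊤ ∧
      C ≤ M ∧ ∃ θ : M → ℂ, IsIrr θ ∧ (∀ c : C, ext0 θ (c : H) = φ c) ∧
        ∀ y, f y = (∑ z : H, ext0 θ (z⁻¹ * y * z)) / Nat.card M := by
  classical
  refine ⟨inert (MulAut.conjNormal (H := C)) φ, fun h => Iff.rfl, ?_⟩
  set M : Subgroup H := inert (MulAut.conjNormal (H := C)) φ with hM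
  have hCM : C ≤ M := by
    intro y hy a
    have h1 : MulAut.conjNormal y a = ⟨y, hy⟩ * a * ⟨y, hy⟩⁻¹ := Subtype.ext rfl
    rw [h1, hφ.conj_eq]
  have hMN : M ⊓ N = C := by
    apply le_antisymm
    · intro x hx
      exact hst x hx.2 hx.1
    · exact le_inf hCM hCN
  obtain ⟨θ, hθ, hθip, hθind⟩ := (CCOR_thm IND_thm SUMM_thm C H (H ⧸ C) _ _ _
    (clG_sub C) φ hφ).2.2 f hf hip
  -- the restriction to `N`
  set CN : Subgroup N := C.subgroupOf N with hCNdef
  have hCNn : CN.Normal := inferInstance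
  let e : CN ≃* C := Subgroup.subgroupOfEquivOfLe hCN
  have hφe : IsIrr (φ ∘ e) := hφ.comp_mulEquiv e
  have hipN : ip (resj CN.subtype (fun n : N => f n)) (φ ∘ e) ≠ 0 := by
    have h1 := ip_comp e (fun c : C => f c) φ
    intro h2
    apply hip
    rw [← h1]
    exact h2
  have hinN : inert (MulAut.conjNormal (H := CN)) (φ ∘ e) = CN := by
    apply le_antisymm
    · intro n hn
      refine hst n n.2 fun c => ?_
      have h1 := hn (e.symm c)
      have h2 : (φ ∘ e) (MulAut.conjNormal n (e.symm c)) = φ (MulAut.conjNormal (n : H) c) := by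
        show φ (e (MulAut.conjNormal n (e.symm c))) = φ (MulAut.conjNormal (n : H) c)
        congr 1
      have h3 : (φ ∘ e) (e.symm c) = φ c := by
        show φ (e (e.symm c)) = φ c
        rw [e.apply_symm_apply]
      rw [← h2, h1, h3]
    · intro y hy a
      have h1 : MulAut.conjNormal y a = ⟨y, hy⟩ * a * ⟨y, hy⟩⁻¹ := Subtype.ext rfl
      rw [h1, hφe.conj_eq]
  obtain ⟨b, hb, hb'⟩ := hφ.exists_degree
  obtain ⟨a, ha, ha'⟩ := hθ.exists_degree
  have hθchr : IsChr (fun c : C => ext0 θ (c : H)) := by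
    let i : C →* M := Subgroup.inclusion hCM
    have h1 := hθ.isChr.comp i
    have h2 : (fun c : C => ext0 θ (c : H)) = fun c => θ (i c) := by
      ext c
      rw [ext0_of_mem θ (hCM c.2)]
      rfl
    rw [h2]
    exact h1
  have hdeg := eq_of_deg (E := fun c : C => ext0 θ (c : H)) hθchr hφ hθip (a := a) (b := b)
    (by
      show ext0 θ ((1 : C) : H) = a
      rw [OneMemClass.coe_one, ext0_of_mem θ (Subgroup.one_mem _)]
      exact ha') hb'
  have e1 : f 1 * Nat.card M = Nat.card H * a := by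
    have h1 : f 1 = (∑ z : H, ext0 θ (z⁻¹ * 1 * z)) / Nat.card M := by
      rw [← hθind]
      rfl
    have h2 : ∀ z : H, ext0 θ (z⁻¹ * 1 * z) = a := by
      intro z
      rw [mul_one, inv_mul_cancel, ext0_of_mem θ (Subgroup.one_mem _)]
      exact ha'
    simp only [h2] at h1
    rw [Finset.sum_const, Finset.card_univ, nsmul_eq_mul, ← Nat.card_eq_fintype_card] at h1
    rw [h1, div_mul_cancel₀ _ natCard_ne_zero]
  have e2 : f 1 * Nat.card CN = Nat.card N * b := by
    have h1 := ind_eq' CN hfN hφe hipN hinN 1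
    have h2 : ∀ z : N, ext0 (φ ∘ e) (z⁻¹ * 1 * z) = b := by
      intro z
      rw [mul_one, inv_mul_cancel, ext0_of_mem _ (Subgroup.one_mem _)]
      show φ (e 1) = b
      rw [map_one]
      exact hb'
    simp only [h2] at h1
    rw [Finset.sum_const, Finset.card_univ, nsmul_eq_mul, ← Nat.card_eq_fintype_card] at h1
    have h3 : f 1 = (Nat.card N : ℂ) * b / Nat.card CN := h1
    rw [h3, div_mul_cancel₀ _ natCard_ne_zero]
  have hcardCN : Nat.card CN = Nat.card (M ⊓ N : Subgroup H) := by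
    rw [hMN]
    exact Nat.card_congr e.toEquiv
  have hprod := card_prod N M
  have hkey : Nat.card H * a * Nat.card (M ⊓ N : Subgroup H) =
      Nat.card N * b * Nat.card M := by
    have h1 : ((Nat.card H * a * Nat.card (M ⊓ N : Subgroup H) : ℕ) : ℂ) =
        ((Nat.card N * b * Nat.card M : ℕ) : ℂ) := by
      push_cast
      rw [← e1, ← e2, hcardCN]
      ring
    exact_mod_cast h1
  have hN0 : 0 < Nat.card N * Nat.card M := Nat.mul_pos Nat.card_pos Nat.card_pos
  have hkey2 : (M ⊔ N).index * a = b := by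
    apply Nat.eq_of_mul_eq_mul_left hN0
    calc Nat.card N * Nat.card M * ((M ⊔ N).index * a)
        = Nat.card N * Nat.card M * (M ⊔ N).index * a := by ring
      _ = Nat.card H * Nat.card (M ⊓ N : Subgroup H) * a := by rw [hprod]
      _ = Nat.card H * a * Nat.card (M ⊓ N : Subgroup H) := by ring
      _ = Nat.card N * b * Nat.card M := hkey
      _ = Nat.card N * Nat.card M * b := by ring
  have hι : (M ⊔ N).index = 1 := by
    have h1 : (M ⊔ N).index ≠ 0 := Subgroup.index_ne_zero_of_finite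
    by_contra h2
    have h3 : 2 ≤ (M ⊔ N).index := by omega
    have h4 : 2 * a ≤ b := by
      rw [← hkey2]
      exact Nat.mul_le_mul_right a h3
    have h5 := hdeg.1
    omega
  have hab : a ≤ b := by
    rw [← hkey2, hι, one_mul]
  refine ⟨Subgroup.index_eq_one.mp hι, hCM, θ, hθ, fun c => congrFun (hdeg.2 hab) c, ?_⟩
  intro y
  rw [← hθind]
  rfl

end CYBX

open _root_.Pool.Agent.DPX.CYBX Pool.Agent.DPW.CYBW Pool.Agent.DPV.CYE in
/-- CYBX. -/
theorem CYBX_thm (h1 : Stmt_SCXX) : Stmt_CYBX := by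
  intro H _ _ 𝔐 ℓ nn _ hmax hℓ𝔐 P N C _ _ hCn hP hNi hCdef f hf hfN φ hφ hφip Q x₀ hAt hst
  classical
  have h2 := CYS_thm
  have h3 := NUN_thm
  have h𝔐 : 𝔐.IsPrime := hmax.isPrime
  have hdom : IsDomain ((integralClosure ℤ ℂ) ⧸ 𝔐) := Ideal.Quotient.isDomain 𝔐
  have hCZ0 : C ≤ Zc P := by
    rw [hCdef]
    exact inf_le_right
  have hCN : C ≤ N := by
    rw [hCdef]
    exact inf_le_left
  have hstN : ∀ n ∈ N, (∀ c, φ (MulAut.conjNormal n c) = φ c) → n ∈ C := by
    intro n hn h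
    rw [hCdef]
    exact ⟨hn, hst n h⟩
  obtain ⟨M, hMmem, htop, hCM, θ, hθ, hθC, hind⟩ := res_irrX N C hCN hf hfN hφ hφip hstN
  have hMZ : M ≤ Zc P := fun h hh => hst h ((hMmem h).1 hh)
  have hNn : N.Normal := inferInstance
  have hMN : M ⊓ N = C := by
    apply le_antisymm
    · intro x hx
      exact hstN x hx.2 ((hMmem x).1 hx.1)
    · exact le_inf hCM hCN
  have hcomm : ∀ n ∈ N, ∀ z ∈ M, n * z * n⁻¹ * z⁻¹ ∈ C := by
    intro n hn z hz
    rw [hCdef]
    refine ⟨?_, (Zc P).mul_mem (Subgroup.Normal.conj_mem inferInstance z (hMZ hz) n)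
      ((Zc P).inv_mem (hMZ hz))⟩
    have h4 : n * z * n⁻¹ * z⁻¹ = n * (z * n⁻¹ * z⁻¹) := by group
    rw [h4]
    exact N.mul_mem hn (hNn.conj_mem _ (N.inv_mem hn) z)
  have hZn : M.Normal := by
    constructor
    intro x hx h
    obtain ⟨m, hm, n, hn, rfl⟩ := Subgroup.mem_sup_of_normal_right.mp
      (show h ∈ M ⊔ N by rw [htop]; trivial)
    have h4 : m * n * x * (m * n)⁻¹ = m * ((n * x * n⁻¹ * x⁻¹) * x) * m⁻¹ := by group
    rw [h4]
    exact M.mul_mem (M.mul_mem hm (M.mul_mem (hCM (hcomm n hn x hx)) hx)) (M.inv_mem hm)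
  have hne := hθ.one_ne_zero
  set Θ : H → ℂ := ext0 θ with hΘ
  have hΘ1 : Θ 1 = θ 1 := ext0_of_mem θ (Subgroup.one_mem _)
  have hΘ1ne : Θ 1 ≠ 0 := by
    rw [hΘ1]
    exact hne
  have hΘint : ∀ y, IsIntegral ℤ (Θ y) := by
    intro y
    by_cases hy : y ∈ M
    · rw [hΘ, ext0_of_mem θ hy]
      exact isIntegral_char hθ _
    · rw [hΘ, ext0_of_not_mem θ hy]
      exact isIntegral_zero
  have hΘcl : ∀ z ∈ M, ∀ y, Θ (z * y * z⁻¹) = Θ y := by
    intro z hz y
    by_cases hy : y ∈ M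
    · rw [hΘ, ext0_of_mem θ hy, ext0_of_mem θ (hZn.conj_mem y hy z)]
      exact hθ.conj_eq ⟨z, hz⟩ ⟨y, hy⟩
    · rw [hΘ, ext0_of_not_mem θ hy, ext0_of_not_mem θ]
      intro hy'
      apply hy
      have h4 := hZn.conj_mem _ hy' z⁻¹
      have h5 : z⁻¹ * (z * y * z⁻¹) * z⁻¹⁻¹ = y := by group
      rwa [h5] at h4
  have hform : ∀ y, f y * Nat.card M = ∑ z : H, Θ (z⁻¹ * y * z) := by
    intro y
    rw [hind y, div_mul_cancel₀ _ natCard_ne_zero]
  -- the inertia group
  have hfix : ∀ g : H, (∀ a ∈ M, Θ (g * a * g⁻¹) = Θ a) → g ∈ M := by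
    intro g hg
    rw [hMmem]
    intro c
    have h4 := hg c (hCM c.2)
    have h5 := hθC (MulAut.conjNormal g c)
    have h6 := hθC c
    rw [← h5, ← h6]
    exact h4
  -- the conjugates
  set E : H → H → ℂ := fun g x => Θ (g⁻¹ * x * g) with hE
  have hEsupp : ∀ g x, x ∉ M → E g x = 0 := by
    intro g x hx
    apply ext0_of_not_mem
    intro hx'
    apply hx
    have h4 := hZn.conj_mem _ hx' g
    have h5 : g * (g⁻¹ * x * g) * g⁻¹ = x := by group
    rwa [h5] at h4
  have hE1 : ∀ g, E g 1 = Θ 1 := by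
    intro g
    change Θ (g⁻¹ * 1 * g) = Θ 1
    rw [mul_one, inv_mul_cancel]
  have hEone : E 1 = Θ := by
    ext x
    change Θ (1⁻¹ * x * 1) = Θ x
    simp
  have hEmul : ∀ g g' x, E (g * g') x = E g' (g⁻¹ * x * g) := by
    intro g g' x
    change Θ ((g * g')⁻¹ * x * (g * g')) = Θ (g'⁻¹ * (g⁻¹ * x * g) * g')
    congr 1
    group
  have hEeq : ∀ g g', E g = E g' ↔ g⁻¹ * g' ∈ M := by
    intro g g'
    constructor
    · intro h
      apply hfix
      intro a _
      have h4 := congrFun h (g' * a * g'⁻¹)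
      change Θ (g⁻¹ * (g' * a * g'⁻¹) * g) = Θ (g'⁻¹ * (g' * a * g'⁻¹) * g') at h4
      have h5 : g⁻¹ * g' * a * (g⁻¹ * g')⁻¹ = g⁻¹ * (g' * a * g'⁻¹) * g := by group
      have h6 : g'⁻¹ * (g' * a * g'⁻¹) * g' = a := by group
      rw [h5, h4, h6]
    · intro h
      ext x
      change Θ (g⁻¹ * x * g) = Θ (g'⁻¹ * x * g')
      have h4 := hΘcl _ (M.inv_mem h) (g⁻¹ * x * g)
      rw [← h4]
      congr 1
      group
  have hirr : IsIrr (fun x : C => Θ (x : H)) := by
    have h4 : (fun x : C => Θ (x : H)) = φ := funext hθC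
    rw [h4]
    exact hφ
  have hEZ : ∀ g, IsIrr (fun s : M => E g s) := by
    intro g
    have h4 := hθ.comp_mulEquiv (MulAut.conjNormal (H := M) g⁻¹)
    have h5 : (θ ∘ (MulAut.conjNormal (H := M) g⁻¹)) = fun s : M => E g s := by
      ext s
      change θ (MulAut.conjNormal (H := M) g⁻¹ s) = Θ (g⁻¹ * s * g)
      have h6 : (g⁻¹ * (s : H) * g) ∈ M := by
        have h7 := hZn.conj_mem s s.2 g⁻¹
        rwa [inv_inv] at h7
      rw [hΘ, ext0_of_mem θ h6]
      congr 1
      apply Subtype.ext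
      change g⁻¹ * (s : H) * g⁻¹⁻¹ = g⁻¹ * (s : H) * g
      rw [inv_inv]
    rwa [h5] at h4
  have hEC : ∀ g, IsIrr (fun c : C => E g c) := by
    intro g
    have h4 := hirr.comp_mulEquiv (MulAut.conjNormal (H := C) g⁻¹)
    have h5 : ((fun x : C => Θ (x : H)) ∘ (MulAut.conjNormal (H := C) g⁻¹)) =
        fun s : C => E g s := by
      ext s
      change Θ (g⁻¹ * (s : H) * g⁻¹⁻¹) = Θ (g⁻¹ * (s : H) * g)
      rw [inv_inv]
    rwa [h5] at h4
  -- the sum
  set S : Finset (H → ℂ) := Finset.univ.image E with hS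
  have hcardfib : ∀ g : H, (Finset.univ.filter (fun z : H => E z = E g)).card =
      Nat.card M := by
    intro g
    rw [← Fintype.card_subtype, ← Nat.card_eq_fintype_card]
    refine Nat.card_congr ⟨fun z => ⟨z.1⁻¹ * g, (hEeq _ _).mp z.2⟩,
      fun w => ⟨g * w.1⁻¹, (hEeq _ _).mpr ?_⟩, ?_, ?_⟩
    · have h4 : (g * (w : H)⁻¹)⁻¹ * g = w := by group
      rw [h4]
      exact w.2
    · intro z
      apply Subtype.ext
      change g * (z.1⁻¹ * g)⁻¹ = z.1
      group
    · intro w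
      apply Subtype.ext
      change (g * (w : H)⁻¹)⁻¹ * g = w
      group
  have hfS : ∀ x, f x = ∑ F ∈ S, F x := by
    intro x
    have h4 : (Nat.card M : ℂ) ≠ 0 := natCard_ne_zero
    apply mul_right_cancel₀ h4
    rw [hform, Finset.sum_mul]
    have h5 : ∑ z : H, Θ (z⁻¹ * x * z) = ∑ z : H, (fun F : H → ℂ => F x) (E z) := rfl
    rw [h5, Finset.sum_comp (fun F : H → ℂ => F x) E]
    refine Finset.sum_congr rfl fun F hF => ?_
    obtain ⟨g, -, rfl⟩ := Finset.mem_image.mp hF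
    rw [hcardfib g, nsmul_eq_mul, mul_comm]
  have hScard : S.card = M.index := by
    have h4 := hfS 1
    have h5 : ∑ F ∈ S, F 1 = S.card * Θ 1 := by
      rw [Finset.sum_congr rfl (g := fun _ => Θ 1), Finset.sum_const, nsmul_eq_mul]
      intro F hF
      obtain ⟨g, -, rfl⟩ := Finset.mem_image.mp hF
      exact hE1 g
    have h6 := hform 1
    have h7 : ∑ z : H, Θ (z⁻¹ * 1 * z) = Nat.card H * Θ 1 := by
      rw [Finset.sum_congr rfl (g := fun _ => Θ 1), Finset.sum_const, nsmul_eq_mul,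
        Finset.card_univ, ← Nat.card_eq_fintype_card]
      intro z _
      exact hE1 z
    rw [h4, h5, h7, ← Subgroup.card_mul_index M] at h6
    have h8 : ((S.card * Nat.card M : ℕ) : ℂ) =
        ((Nat.card M * M.index : ℕ) : ℂ) := by
      apply mul_right_cancel₀ hΘ1ne
      rw [← h6]
      push_cast
      ring
    have h9 : S.card * Nat.card M = Nat.card M * M.index := by exact_mod_cast h8
    have h10 : 0 < Nat.card M := Nat.card_pos
    rw [mul_comm] at h9
    exact Nat.eq_of_mul_eq_mul_left h10 h9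
  have hidx0 : 0 < M.index := Nat.pos_of_ne_zero Subgroup.index_ne_zero_of_finite
  have hidxeq : M.index = C.relIndex N := by
    have h4 : M.relIndex (N ⊔ M) = M.relIndex N := Subgroup.relIndex_sup_right N M
    rw [sup_comm, htop, Subgroup.relIndex_top_right] at h4
    rw [h4, ← Subgroup.inf_relIndex_right M N, hMN]
  have hidx : M.index < ℓ := by
    have h4 := index_lt P hP
    have h5 : C.relIndex N = (Zc P).relIndex N := by
      rw [hCdef]
      exact Subgroup.inf_relIndex_left N (Zc P)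
    have h6 : (Zc P).relIndex N ∣ (Zc P).index := Subgroup.relIndex_dvd_index_of_normal _ _
    have h7 : 0 < (Zc P).index := Nat.pos_of_ne_zero Subgroup.index_ne_zero_of_finite
    have h8 := Nat.le_of_dvd h7 h6
    omega
  -- transfer to the group `Z`
  have : Fintype M := Fintype.ofFinite _
  set P' : Subgroup M := P.subgroupOf M with hP'
  set C' : Subgroup M := C.subgroupOf M with hC'
  have hC'n : C'.Normal := inferInstance
  have hPC : P ≤ C := by
    have h4 : Nat.card (P.subgroupOf C) = ℓ := hAt.cd.c1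
    have h5 : P ⊓ C = P := by
      apply Subgroup.eq_of_le_of_card_ge inf_le_left
      rw [hP, ← h4, ← Subgroup.inf_subgroupOf_right P C]
      exact (Nat.card_congr (Subgroup.subgroupOfEquivOfLe inf_le_right).toEquiv).le
    exact inf_eq_left.mp h5
  have hP'C' : P' ≤ C' := by
    intro u hu
    exact hPC hu
  have hP'c : ∀ u ∈ P', ∀ x, u * x = x * u := by
    intro u hu x
    exact Subtype.ext (comm_Zc P hu (hMZ x.2))
  let e : C' ≃* C := Subgroup.subgroupOfEquivOfLe hCM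
  have he : ∀ c : C', ((e c : C) : H) = ((c : M) : H) := fun c => rfl
  have hEC' : ∀ g, IsIrr (fun c : C' => E g ((c : M) : H)) := fun g =>
    (hEC g).comp_mulEquiv e
  have hθE : (fun s : M => E 1 s) = θ := by
    ext s
    rw [hEone]
    exact ext0_of_mem θ s.2
  have hθC' : IsIrr (fun c : C' => θ c) := by
    have h4 := hEC' 1
    rw [← hθE]
    exact h4
  have hC'i : ¬ ℓ ∣ C'.index := by
    intro h4
    apply hNi
    have h5 : C'.index = N.relIndex M := by
      have h6 : C.relIndex M = N.relIndex M := by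
        rw [← hMN]
        exact Subgroup.inf_relIndex_left M N
      exact h6
    rw [h5] at h4
    exact h4.trans (Subgroup.relIndex_dvd_index_of_normal _ _)
  have hAt' : AtX ℓ nn (cen 𝔐 (MonoidHom.id C') (fun c : C' => θ c)) (P'.subgroupOf C')
      (Q.comap e.toMonoidHom) (e.symm x₀) := by
    have h4 := atX_equiv e hAt
    have h5 : (fun a : C' => cen 𝔐 (MonoidHom.id C) φ (e a)) =
        cen 𝔐 (MonoidHom.id C') (fun c : C' => θ c) := by
      ext a
      rw [← cen_comp 𝔐 e φ a]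
      congr 1
      ext c
      rw [← hθC (e c)]
      exact ext0_of_mem θ (c : M).2
    rw [h5] at h4
    exact h4
  have hSCT := h1 M 𝔐 ℓ nn hmax hℓ𝔐 P' C' hP'C' hP'c hC'i θ hθ hθC' (Q.comap e.toMonoidHom)
    (e.symm x₀) hAt'
  have hint : ∀ g t, IsIntegral ℤ ((∑ x, cjT C' x t * E g (x : H)) / E g ((1 : M) : H)) :=
    fun g t => int_cjT C' (fun s : M => E g s) (hEZ g) (hEC' g) t
  have hNUNh : ∀ w : M, ∃ t, t * w⁻¹ ∈ C' ∧ cgT 𝔐 C' θ t ≠ 0 := hSCT
  -- the central functions on `C` of the conjugates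
  set cf : H → C → (integralClosure ℤ ℂ) ⧸ 𝔐 := fun g =>
    cen 𝔐 (MonoidHom.id C) (fun c : C => E g c) with hcf
  have hcfmul : ∀ g g' x, cf (g * g') x = cf g' (MulAut.conjNormal (H := C) g⁻¹ x) := by
    intro g g' x
    have h4 := cen_comp 𝔐 (MulAut.conjNormal (H := C) g⁻¹) (fun c : C => E g' c) x
    refine Eq.trans ?_ h4
    have h5 : (fun c : C => E (g * g') c) =
        fun y : C => E g' ((MulAut.conjNormal (H := C) g⁻¹ y : C) : H) := by
      ext c
      rw [hEmul]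
      change E g' (g⁻¹ * (c : H) * g) = E g' (g⁻¹ * (c : H) * g⁻¹⁻¹)
      rw [inv_inv]
    change cen 𝔐 (MonoidHom.id C) (fun c : C => E (g * g') c) x = _
    rw [h5]
  let Nb : Subgroup H :=
    { carrier := {n | n ∈ N ∧ cf n = cf 1}
      one_mem' := ⟨N.one_mem, rfl⟩
      mul_mem' := by
        rintro a b ⟨ha, ha'⟩ ⟨hb, hb'⟩
        refine ⟨N.mul_mem ha hb, ?_⟩
        ext x
        rw [hcfmul, hb', ← hcfmul, mul_one, ha']
      inv_mem' := by
        rintro a ⟨ha, ha'⟩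
        refine ⟨N.inv_mem ha, ?_⟩
        ext x
        have h4 := hcfmul a⁻¹ a x
        rw [inv_mul_cancel, ha', ← hcfmul, mul_one] at h4
        exact h4.symm }
  have hNb : ∀ n, n ∈ Nb ↔ n ∈ N ∧ cf n = cf 1 := fun n => Iff.rfl
  obtain ⟨n0, hn0, hn0gen⟩ := exists_gen P hP Nb
  have hn0N : n0 ∈ N := ((hNb _).mp hn0).1
  have hcenC' : ∀ g, cf g = cf 1 →
      cen 𝔐 (MonoidHom.id C') (fun c : C' => θ c) =
      cen 𝔐 (MonoidHom.id C') (fun c : C' => E g ((c : M) : H)) := by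
    intro g hg
    ext x
    have h4 := cen_comp 𝔐 e (fun c : C => E g c) x
    have h5 := cen_comp 𝔐 e (fun c : C => E 1 c) x
    have h6 : (fun c : C' => θ c) = fun y : C' => (fun c : C => E 1 c) (e y) := by
      ext c
      rw [← hθE]
      rfl
    rw [h6, h5]
    refine Eq.trans ?_ h4.symm
    exact (congrFun hg (e x)).symm
  obtain ⟨ν, hν1, hνm, hνC, hνeq⟩ := h3 M 𝔐 ℓ hmax hℓ𝔐 C' θ (fun s : M => E n0 s) hθ
    (hEZ n0) hθC' (hEC' n0) (hcenC' n0 ((hNb _).mp hn0).2) hNUNh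
  let νh : M →* (integralClosure ℤ ℂ) ⧸ 𝔐 :=
    { toFun := ν
      map_one' := hν1
      map_mul' := hνm }
  let νu : M →* ((integralClosure ℤ ℂ) ⧸ 𝔐)ˣ := νh.toHomUnits
  have hνu : ∀ y, ((νu y : ((integralClosure ℤ ℂ) ⧸ 𝔐)ˣ) : (integralClosure ℤ ℂ) ⧸ 𝔐) = ν y :=
    fun y => rfl
  obtain ⟨h0, hh0⟩ : ∃ h0 : M, ∀ y : M, ∃ k : ℤ, νu h0 ^ k = νu y := by
    have hfin : Finite νu.range := inferInstance
    have hcyc : IsCyclic νu.range := inferInstance
    obtain ⟨g, hg⟩ := hcyc.exists_generator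
    obtain ⟨z0, hz0⟩ := g.2
    refine ⟨z0, fun y => ?_⟩
    obtain ⟨k, hk⟩ := hg ⟨νu y, ⟨y, rfl⟩⟩
    refine ⟨k, ?_⟩
    have h4 := congrArg Subtype.val hk
    rw [hz0]
    exact h4
  -- the central functions on `Z` of the conjugates
  set u : H → H → (integralClosure ℤ ℂ) ⧸ 𝔐 := fun g t => cgT 𝔐 C (E g) t with hu
  have humul : ∀ g g' t, u (g * g') t = u g' (g⁻¹ * t * g) := by
    intro g g' t
    change cgT 𝔐 C (E (g * g')) t = cgT 𝔐 C (E g') (g⁻¹ * t * g)
    rw [cgT, cgT, hE1, hE1]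
    congr 2
    rw [← Equiv.sum_comp (MulAut.conj g).toEquiv]
    refine Finset.sum_congr rfl fun x _ => ?_
    have h4 : ((MulAut.conj g).toEquiv x : H) = g * x * g⁻¹ := rfl
    rw [h4, hEmul]
    have h5 : g⁻¹ * (g * x * g⁻¹) * g = x := by group
    rw [h5]
    congr 1
    refine cjT_congr ⟨?_, ?_⟩
    · rintro ⟨c, hc, h6⟩
      refine ⟨g⁻¹ * c * g, ?_, ?_⟩
      · have h7 := hCn.conj_mem c hc g⁻¹
        rwa [inv_inv] at h7
      · have h7 : x = g⁻¹ * (g * x * g⁻¹) * g := by group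
        rw [h7, h6]
        group
    · rintro ⟨c, hc, rfl⟩
      refine ⟨g * c * g⁻¹, hCn.conj_mem c hc g, ?_⟩
      group
  have huZ : ∀ g (t : M), cgT 𝔐 C' (fun s : M => E g s) t = u g t := fun g t =>
    cgT_sub 𝔐 M C hCM (E g) (hEsupp g) t
  refine ⟨h0, fun h => ?_⟩
  obtain ⟨z', hz', n', hn', hzn'⟩ := Subgroup.mem_sup_of_normal_right.mp
    (show h⁻¹ ∈ M ⊔ N by rw [htop]; trivial)
  set n : H := n'⁻¹ with hn
  set z1 : M := ⟨z'⁻¹, M.inv_mem hz'⟩ with hz1
  have hnN : n ∈ N := N.inv_mem hn'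
  have hhnz : h = n * (z1 : H) := by
    have h4 : h = (z' * n')⁻¹ := by rw [hzn', inv_inv]
    rw [h4, mul_inv_rev]
  obtain ⟨k, hk⟩ := hh0 z1
  set z : M := z1 * h0 ^ (-k) with hz
  have hνz : ν z = 1 := by
    rw [← hνu, hz, map_mul, map_zpow, ← hk, zpow_neg, mul_inv_cancel, Units.val_one]
  -- the coset of `z`
  have hcos : ∀ n ∈ N, ∀ t : H, t * (z : H)⁻¹ ∈ C → (n⁻¹ * t * n) * (z : H)⁻¹ ∈ C := by
    intro n hn t ht
    have htZ : t ∈ M := by
      have h4 : t = t * (z : H)⁻¹ * z := by group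
      rw [h4]
      exact M.mul_mem (hCM ht) z.2
    have h4 := hcomm n⁻¹ (N.inv_mem hn) t htZ
    have h5 : (n⁻¹ * t * n) * (z : H)⁻¹ = (n⁻¹ * t * n⁻¹⁻¹ * t⁻¹) * (t * (z : H)⁻¹) := by group
    rw [h5]
    exact C.mul_mem h4 ht
  have hbase : ∀ t : H, t * (z : H)⁻¹ ∈ C → u n0 t = u 1 t := by
    intro t ht
    have htZ : t ∈ M := by
      have h4 : t = t * (z : H)⁻¹ * z := by group
      rw [h4]
      exact M.mul_mem (hCM ht) z.2
    have h4 := hνeq ⟨t, htZ⟩
    have h5 : ν ⟨t, htZ⟩ = 1 := by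
      have h6 : (⟨t, htZ⟩ : M) = (⟨t, htZ⟩ * z⁻¹) * z := by group
      rw [h6, hνm, hνz, mul_one]
      exact hνC _ ht
    rw [h5, one_mul] at h4
    have h6 := huZ n0 ⟨t, htZ⟩
    have h7 := huZ 1 ⟨t, htZ⟩
    rw [hθE] at h7
    exact h6.symm.trans (h4.trans h7)
  have hpow : ∀ k : ℕ, ∀ t : H, t * (z : H)⁻¹ ∈ C → u (n0 ^ k) t = u 1 t := by
    intro k
    induction k with
    | zero =>
      intro t _
      rw [pow_zero]
    | succ k ih =>
      intro t ht
      have h4 := ih _ (hcos n0 hn0N t ht)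
      have h5 := humul n0 1 t
      rw [mul_one] at h5
      rw [pow_succ', humul, h4, ← h5]
      exact hbase t ht
  have hall : ∀ b ∈ Nb, ∀ t : H, t * (z : H)⁻¹ ∈ C → u b t = u 1 t := by
    intro b hb t ht
    obtain ⟨k, hk⟩ := hn0gen b hb
    set w : H := b * (n0 ^ k)⁻¹ with hw
    have hwN : w ∈ N := N.mul_mem ((hNb _).mp hb).1 (N.inv_mem (N.pow_mem hn0N k))
    have h4 : b = w * n0 ^ k := by rw [hw, inv_mul_cancel_right]
    have h5 := hpow k _ (hcos w hwN t ht)
    have h6 := humul w 1 t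
    rw [mul_one] at h6
    have h7 : E w = E 1 := (hEeq w 1).mpr (by
      rw [mul_one]
      refine M.inv_mem (hCM ?_)
      rw [hCdef]
      exact ⟨hwN, hk⟩)
    rw [h4, humul, h5, ← h6]
    change cgT 𝔐 C (E w) t = cgT 𝔐 C (E 1) t
    rw [h7]
  -- the function from SCT
  obtain ⟨t0, ht0, ht0'⟩ := hSCT z
  set a0 : M → ℂ := fun x => cjT C' x t0 with ha0
  have ha1 : ∀ c ∈ C', ∀ x, a0 (c * x * c⁻¹) = a0 x := fun c hc x => cjT_inv C' hc x t0
  have ha2 : ∀ x, IsIntegral ℤ (a0 x) := fun x => isIntegral_cjT C' x t0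
  have ha3 : ∀ x, x * z⁻¹ ∉ C' → a0 x = 0 := by
    intro x hx
    by_contra h4
    apply hx
    have h5 : ∃ c ∈ C', x = c * t0 * c⁻¹ := by
      by_contra h6
      exact h4 (if_neg h6)
    obtain ⟨c, hc, rfl⟩ := h5
    have h6 : c * t0 * c⁻¹ * z⁻¹ = c * (t0 * c⁻¹ * t0⁻¹) * (t0 * z⁻¹) := by group
    rw [h6]
    exact C'.mul_mem (C'.mul_mem hc (hC'n.conj_mem _ (C'.inv_mem hc) t0)) ht0
  have ha4 : red 𝔐 (wt θ a0) ≠ 0 := ht0'
  set a' : H → ℂ := ext0 a0 with ha'
  have ha'inv : ∀ c ∈ C, ∀ x, a' (c * x * c⁻¹) = a' x := by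
    intro c hc x
    by_cases hx : x ∈ M
    · rw [ha', ext0_of_mem a0 hx, ext0_of_mem a0 (hZn.conj_mem x hx c)]
      exact ha1 ⟨c, hCM hc⟩ hc ⟨x, hx⟩
    · rw [ha', ext0_of_not_mem a0 hx, ext0_of_not_mem a0]
      intro hx'
      apply hx
      have h4 := hZn.conj_mem _ hx' c⁻¹
      have h5 : c⁻¹ * (c * x * c⁻¹) * c⁻¹⁻¹ = x := by group
      rwa [h5] at h4
  have ha'int : ∀ x, IsIntegral ℤ (a' x) := by
    intro x
    by_cases hx : x ∈ M
    · rw [ha', ext0_of_mem a0 hx]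
      exact ha2 _
    · rw [ha', ext0_of_not_mem a0 hx]
      exact isIntegral_zero
  have ha'sup : ∀ x, x * (z : H)⁻¹ ∉ C → a' x = 0 := by
    intro x hx
    by_cases hxZ : x ∈ M
    · rw [ha', ext0_of_mem a0 hxZ]
      exact ha3 ⟨x, hxZ⟩ hx
    · rw [ha', ext0_of_not_mem a0 hxZ]
  have hwt : ∀ g, wt (E g) a' = wt (fun s : M => E g s) a0 := by
    intro g
    rw [wt, wt]
    congr 1
    have h4 := INTH.sum_restrict M a' (E g) (hEsupp g)
    rw [h4]
    refine Finset.sum_congr rfl fun s _ => ?_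
    rw [ha', ext0_of_mem a0 s.2]
  have hwt1 : red 𝔐 (wt (E 1) a') ≠ 0 := by
    rw [hwt, hθE]
    exact ha4
  have hwteq : ∀ b ∈ Nb, red 𝔐 (wt (E b) a') = red 𝔐 (wt (E 1) a') := by
    intro b hb
    rw [hwt, hwt]
    refine wt_congr 𝔐 C' _ _ a0 (hint 1) (hint b) ha1 ha2 ?_
    intro t ht
    rw [huZ, huZ]
    refine hall b hb t ?_
    by_contra hcon
    exact ht (ha3 t hcon)
  -- CYS
  obtain ⟨a, hainv, haint, hasup, hacard⟩ := h2 H 𝔐 ℓ hmax hℓ𝔐 C N M hCN hCM hcomm f hf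
    hfN S (by
      intro F hF
      obtain ⟨g, -, rfl⟩ := Finset.mem_image.mp hF
      exact ⟨⟨hEZ g, hEsupp g⟩, hEC g⟩) (fun x _ => hfS x) (fun c : C => E 1 c) (hEC 1) (by
      intro F hF
      obtain ⟨g, -, rfl⟩ := Finset.mem_image.mp hF
      rw [hE1]
      exact (hE1 1).symm) z z.2 a' ha'inv ha'int ha'sup
  have hred : red 𝔐 (wt f a) ≠ 0 := by
    intro h4
    rw [h4, mul_zero] at hacard
    have h5 : ∀ F ∈ S.filter (fun F => cen 𝔐 (MonoidHom.id C) (fun c : C => F c) =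
        cen 𝔐 (MonoidHom.id C) (fun c : C => E 1 c)), red 𝔐 (wt F a') =
          red 𝔐 (wt (E 1) a') := by
      intro F hF
      obtain ⟨hFS, hFc⟩ := Finset.mem_filter.mp hF
      obtain ⟨g, -, rfl⟩ := Finset.mem_image.mp hFS
      obtain ⟨w, hw, b, hb, hwb⟩ := Subgroup.mem_sup_of_normal_right.mp
        (show g⁻¹ ∈ M ⊔ N by rw [htop]; trivial)
      have h6 : E g = E b⁻¹ := (hEeq g b⁻¹).mpr (by
        rw [← hwb, mul_inv_cancel_right]
        exact hw)
      rw [h6] at hFc ⊢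
      exact hwteq b⁻¹ ((hNb _).mpr ⟨N.inv_mem hb, hFc⟩)
    rw [Finset.sum_congr rfl h5, Finset.sum_const, nsmul_eq_mul] at hacard
    have h7 : ∀ n : ℕ, 0 < n → n < ℓ → ((n : ℕ) : (integralClosure ℤ ℂ) ⧸ 𝔐) ≠ 0 := by
      intro n hn hnℓ
      have h8 : red 𝔐 (n : ℂ) = (n : (integralClosure ℤ ℂ) ⧸ 𝔐) := by
        rw [red_of_integral 𝔐 (Lib_helper13.isIntegral_natCast n),
          ← map_natCast (Ideal.Quotient.mk 𝔐) n]
        congr 1
      rw [← h8]
      refine red_card_ne_zero 𝔐 hℓ𝔐 ?_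
      intro h9
      exact absurd (Nat.le_of_dvd hn h9) (by omega)
    have h6 : (C.relIndex N : (integralClosure ℤ ℂ) ⧸ 𝔐) ≠ 0 := by
      rw [← hidxeq]
      exact h7 _ hidx0 hidx
    rcases mul_eq_zero.mp hacard.symm with h8 | h8
    · exact h6 h8
    · rcases mul_eq_zero.mp h8 with h9 | h9
      · refine h7 _ ?_ ?_ h9
        · exact Finset.card_pos.mpr ⟨E 1, Finset.mem_filter.mpr
            ⟨Finset.mem_image_of_mem _ (Finset.mem_univ _), rfl⟩⟩
        · exact lt_of_le_of_lt ((Finset.card_filter_le _ _).trans_eq hScard) hidx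
      · exact hwt1 h9
  obtain ⟨t, ht1, ht2⟩ := exists_ne 𝔐 N f a (int_cjT N f hf hfN) hainv haint hred
  have htz : t * (z : H)⁻¹ ∈ C := by
    by_contra hcon
    exact ht1 (hasup t hcon)
  refine ⟨-k, t, ?_, ht2⟩
  have h4 : t * (h * (h0 : H) ^ (-k))⁻¹ = (t * (z : H)⁻¹) * n⁻¹ := by
    have h5 : (z : H) = (z1 : H) * (h0 : H) ^ (-k) := by
      rw [hz]
      push_cast
      rfl
    rw [h5, hhnz]
    group
  rw [h4]
  exact N.mul_mem (hCN htz) (N.inv_mem hnN)

end Pool.Agent.DPX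


end
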