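import Mathlib
import Pool.Agent.DAM.C18
import Pool.Agent.DAM.C67
import Pool.Agent.DAM.C77

/-! Parts: DPF.PS2 -/

section

/-!
# PS2: the sums over the chains of a normal subgroup vanish (arbitrary linear characters)
-/

set_option autoImplicit false

namespace Pool.Agent.DPF

open Pool.Agent.DP Pool.Agent.DPC Pool.Agent.DPM Pool.Agent.DPN Pool.Agent.Lib_helper13
  Representation
open Pool.Agent.Lib_helper13.Dade (pCore DadeHolds dadeSum)

namespace PS2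

open Classical in
theorem card_split {S C : Type} [Group S] [Fintype S] (A A' B : (S → ℂ) → Prop)
    (f : (S → ℂ) → C) (F : Finset C) (Q : C → (S → ℂ) → Prop)
    (h : ∀ ψ, IsIrr ψ → A ψ → A' ψ → (B ψ ↔ f ψ ∈ F)) (hQ : ∀ w ∈ F, ∀ ψ, Q w ψ ↔ f ψ = w) :
    Nat.card {ψ : S → ℂ // IsIrr ψ ∧ A ψ ∧ A' ψ ∧ B ψ} =
      ∑ w ∈ F, Nat.card {ψ : S → ℂ // IsIrr ψ ∧ A ψ ∧ A' ψ ∧ Q w ψ} := by
  rw [MXM.card_irr (fun ψ => A ψ ∧ A' ψ ∧ B ψ)]
  rw [Finset.card_eq_sum_card_fiberwise (f := f) (t := F)]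
  · refine Finset.sum_congr rfl fun w hw => ?_
    rw [MXM.card_irr (fun ψ => A ψ ∧ A' ψ ∧ Q w ψ)]
    congr 1
    ext ψ
    simp only [Finset.mem_filter, mem_irrF]
    constructor
    · rintro ⟨⟨h1, h2, h3, _⟩, h5⟩
      exact ⟨h1, h2, h3, (hQ w hw ψ).2 h5⟩
    · rintro ⟨h1, h2, h3, h4⟩
      have h5 := (hQ w hw ψ).1 h4
      exact ⟨⟨h1, h2, h3, (h ψ h1 h2 h3).2 (by rw [h5]; exact hw)⟩, h5⟩
  · intro ψ hψ
    simp only [Finset.coe_filter, Set.mem_setOf_eq, mem_irrF] at hψ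
    exact (h ψ hψ.1 hψ.2.1 hψ.2.2.1).1 hψ.2.2.2

/-- The linear character of the kernel of the quotient by the kernel of `μ`. -/
theorem exists_quot (L K : Type) [Group L] [Fintype L] [Group K] (π : L →* K)
    (hπ : Function.Surjective π) (hc : π.ker ≤ Subgroup.center L) (μ : π.ker →* ℂˣ) :
    ∃ (L' : Type) (_ : Group L') (_ : Fintype L') (q : L →* L') (π' : L' →* K)
      (μ' : π'.ker →* ℂˣ), Function.Surjective q ∧ Function.Surjective π' ∧ π = π'.comp q ∧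
      Function.Injective μ' ∧ ∀ (z : π.ker) (h : q z ∈ π'.ker), μ' ⟨q z, h⟩ = μ z := by
  classical
  let N : Subgroup L := μ.ker.map π.ker.subtype
  have hNπ : N ≤ π.ker := by
    rintro x ⟨z, _, rfl⟩
    exact z.2
  have hNn : N.Normal := by
    refine ⟨fun n hn g => ?_⟩
    have h1 : g * n * g⁻¹ = n := by
      rw [Subgroup.mem_center_iff.1 (hc (hNπ hn)) g, mul_assoc, mul_inv_cancel, mul_one]
    rw [h1]
    exact hn
  have hfin : Finite (L ⧸ N) := inferInstance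
  let q : L →* L ⧸ N := QuotientGroup.mk' N
  have hq : Function.Surjective q := QuotientGroup.mk'_surjective N
  let π' : L ⧸ N →* K := QuotientGroup.lift N π (fun x hx => hNπ hx)
  have hcomp : ∀ x, π' (q x) = π x := fun x => rfl
  have hπ' : Function.Surjective π' := by
    intro k
    obtain ⟨x, rfl⟩ := hπ k
    exact ⟨q x, rfl⟩
  let φ : π.ker →* π'.ker :=
    (q.comp π.ker.subtype).codRestrict π'.ker (fun z => by
      rw [MonoidHom.mem_ker]
      exact z.2)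
  have hφ : Function.Surjective φ := by
    rintro ⟨y, hy⟩
    obtain ⟨x, rfl⟩ := hq y
    exact ⟨⟨x, hy⟩, rfl⟩
  have hker : φ.ker = μ.ker := by
    ext z
    rw [MonoidHom.mem_ker, MonoidHom.mem_ker]
    constructor
    · intro h1
      have h2 : q (z : L) = 1 := congrArg Subtype.val h1
      have h3 : (z : L) ∈ N := (QuotientGroup.eq_one_iff (N := N) (z : L)).1 h2
      obtain ⟨z0, hz0, hz1⟩ := h3
      have h4 : z0 = z := Subtype.ext hz1
      rw [← h4]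
      exact hz0
    · intro h1
      apply Subtype.ext
      exact (QuotientGroup.eq_one_iff (N := N) (z : L)).2 ⟨z, h1, rfl⟩
  let μ' : π'.ker →* ℂˣ := φ.liftOfSurjective hφ ⟨μ, hker.le⟩
  have hμ' : ∀ z, μ' (φ z) = μ z := fun z =>
    MonoidHom.liftOfRightInverse_comp_apply φ _ (Function.rightInverse_surjInv hφ) ⟨μ, hker.le⟩ z
  refine ⟨L ⧸ N, inferInstance, Fintype.ofFinite _, q, π', μ', hq, hπ', rfl, ?_, ?_⟩
  · rw [injective_iff_map_eq_one]
    intro y hy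
    obtain ⟨z, rfl⟩ := hφ y
    rw [hμ'] at hy
    have h1 : z ∈ φ.ker := by
      rw [hker]
      exact hy
    exact h1
  · intro z h
    exact hμ' z

section Main

variable {L K H L' : Type} [Group L] [Fintype L] [Group K] [Fintype K] [Group H] [Fintype H]
  [Group L'] [Fintype L']

theorem defect_iff (ℓ : ℕ) [Fact ℓ.Prime] {q : L →* L'} {S : Subgroup L} {S' : Subgroup L'}
    (h : S.map q = S') (hS : q.ker ≤ S) {η' : S' → ℂ} (hη' : IsIrr η') (d : ℕ) :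
    HasDefect ℓ (fun x => η' (PUL.rst q S S' h x)) d ↔
      padicValNat ℓ (Nat.card q.ker) ≤ d ∧
        HasDefect ℓ η' (d - padicValNat ℓ (Nat.card q.ker)) := by
  have h0 := QINF.defect_inf (PUL.rst q S S' h) ℓ (PUL.rst_surj q S S' h) η'
  rw [PUL.rst_ker q S S' h hS] at h0
  constructor
  · intro h1
    obtain ⟨e, he⟩ := hη'.exists_defect (ℓ := ℓ)
    have h2 := h1.unique ((h0 e).2 he)
    subst h2
    refine ⟨Nat.le_add_left _ _, ?_⟩
    rw [Nat.add_sub_cancel]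
    exact he
  · rintro ⟨h1, h2⟩
    have h3 := (h0 _).2 h2
    rwa [Nat.sub_add_cancel h1] at h3

/-- The central function on the inverse image of `M`. -/
noncomputable def cf (𝔐 : Ideal (integralClosure ℤ ℂ)) (M' : Subgroup L') (S' : Subgroup L')
    (η' : S' → ℂ) (x : L') : (integralClosure ℤ ℂ) ⧸ 𝔐 :=
  open Classical in if x ∈ M' then cen 𝔐 S'.subtype η' x else 0

theorem main (h1 : Stmt_PS1) (𝔐 : Ideal (integralClosure ℤ ℂ)) (ℓ : ℕ) [Fact ℓ.Prime]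
    (hmax : 𝔐.IsMaximal) (hℓ : (ℓ : integralClosure ℤ ℂ) ∈ 𝔐) (q : L →* L')
    (hq : Function.Surjective q) (π' : L' →* K) (hπ' : Function.Surjective π')
    (hc : (π'.comp q).ker ≤ Subgroup.center L) (μ' : π'.ker →* ℂˣ)
    (hμ' : Function.Injective μ') (hHQ : HQ ℓ (Nat.card K)) (M : Subgroup K) [M.Normal]
    (p : K →* H) (hp : Function.Surjective p) (hpM : ∀ k, p k = 1 ↔ k ∈ M) (P : Subgroup H)
    (hP : SylAb ℓ P) (ω : L → (integralClosure ℤ ℂ) ⧸ 𝔐)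
    (hPos : Pos 𝔐 ℓ (π'.comp q) (PUL.pm q π' μ') M ω) (d : ℕ) :
    PHU 𝔐 ℓ d (π'.comp q) (PUL.pm q π' μ') M ⊤ ω = 0 := by
  classical
  have hk : q.ker ≤ (π'.comp q).ker := by
    intro w hw
    rw [MonoidHom.mem_ker, MonoidHom.comp_apply, (MonoidHom.mem_ker).1 hw, map_one]
  have hfc : q.ker ≤ Subgroup.center L := hk.trans hc
  have hc' : π'.ker ≤ Subgroup.center L' := by
    intro x hx
    obtain ⟨l, rfl⟩ := hq x
    have h2 : l ∈ Subgroup.center L := hc hx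
    rw [Subgroup.mem_center_iff]
    intro y
    obtain ⟨m, rfl⟩ := hq y
    rw [← map_mul, ← map_mul, Subgroup.mem_center_iff.1 h2 m]
  have hcyc : IsCyclic π'.ker :=
    isCyclic_of_subgroup_isDomain ((Units.coeHom ℂ).comp μ') (Units.val_injective.comp hμ')
  have hcard : Nat.card (π'.comp q).ker = Nat.card q.ker * Nat.card π'.ker := by
    have hs : Function.Surjective (PUL.km q π') := by
      rintro ⟨y, hy⟩
      obtain ⟨x, rfl⟩ := hq y
      exact ⟨⟨x, hy⟩, rfl⟩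
    rw [QINF.card_eq (PUL.km q π') hs]
    congr 1
    refine Nat.card_congr ⟨fun z => ⟨((z : (π'.comp q).ker) : L), ?_⟩,
      fun z => ⟨⟨(z : L), hk z.2⟩, ?_⟩, fun z => rfl, fun z => rfl⟩
    · have h1 := (MonoidHom.mem_ker).1 z.2
      rw [MonoidHom.mem_ker]
      exact congrArg Subtype.val h1
    · rw [MonoidHom.mem_ker]
      apply Subtype.ext
      exact (MonoidHom.mem_ker).1 z.2
  have hval : padicValNat ℓ (Nat.card (π'.comp q).ker) =
      padicValNat ℓ (Nat.card π'.ker) + padicValNat ℓ (Nat.card q.ker) := by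
    rw [hcard, padicValNat.mul Nat.card_pos.ne' Nat.card_pos.ne', add_comm]
  -- the counts
  by_cases hd : padicValNat ℓ (Nat.card q.ker) ≤ d
  swap
  · unfold PHU
    refine Finset.sum_eq_zero fun τ _ => ?_
    have h2 : Nat.card {ψ : ↥(SL (π'.comp q) M τ ⊤) → ℂ // IsIrr ψ ∧
        OvL (π'.comp q).ker (PUL.pm q π' μ') _ ψ ∧ HasDefect ℓ ψ d ∧
        ∀ g ∈ M.comap (π'.comp q), cen 𝔐 (SL (π'.comp q) M τ ⊤).subtype ψ g = ω g} =
        Nat.card {η' : ↥(SL π' M τ ⊤) → ℂ // IsIrr η' ∧ OvL π'.ker μ' _ η' ∧ False} := by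
      refine PUL.card_eq q π' μ' hq (⊤ ⊓ stb (mapCh M.subtype τ)) _ _ ?_
      intro η' hη'
      rw [defect_iff ℓ (PUL.map_eq q π' hq (⊤ ⊓ stb (mapCh M.subtype τ)))
        (PUL.ker_le q π' _) hη' d]
      exact ⟨fun h3 => hd h3.1.1, fun h3 => h3.elim⟩
    have h3 : Nat.card {η' : ↥(SL π' M τ ⊤) → ℂ // IsIrr η' ∧ OvL π'.ker μ' _ η' ∧ False} = 0 := by
      have : IsEmpty {η' : ↥(SL π' M τ ⊤) → ℂ // IsIrr η' ∧ OvL π'.ker μ' _ η' ∧ False} :=
        ⟨fun x => x.2.2.2⟩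
      exact Nat.card_of_isEmpty
    rw [h2, h3]
    simp
  -- the functions
  let Call : Finset (L' → (integralClosure ℤ ℂ) ⧸ 𝔐) :=
    (Ch ℓ (⊥ : Subgroup M)).biUnion fun τ =>
      (irrF (SL π' M τ ⊤)).image fun η' => cf 𝔐 (M.comap π') (SL π' M τ ⊤) η'
  let F : Finset (L' → (integralClosure ℤ ℂ) ⧸ 𝔐) :=
    Call.filter fun ω' => ∀ g ∈ M.comap (π'.comp q),
      (QINF.nst q g : (integralClosure ℤ ℂ) ⧸ 𝔐) * ω' (q g) = ω g
  have hF0 : ∀ ω' ∈ F, ∀ x, x ∉ M.comap π' → ω' x = 0 := by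
    intro ω' hω' x hx
    rw [Finset.mem_filter, Finset.mem_biUnion] at hω'
    obtain ⟨⟨τ, _, h2⟩, _⟩ := hω'
    rw [Finset.mem_image] at h2
    obtain ⟨η', _, rfl⟩ := h2
    exact if_neg hx
  have hFn : ∀ ω' ∈ F, ∀ g ∈ M.comap (π'.comp q),
      (QINF.nst q g : (integralClosure ℤ ℂ) ⧸ 𝔐) * ω' (q g) = ω g := by
    intro ω' hω'
    rw [Finset.mem_filter] at hω'
    exact hω'.2
  have hsum : PHU 𝔐 ℓ d (π'.comp q) (PUL.pm q π' μ') M ⊤ ω =
      ∑ ω' ∈ F, PHU 𝔐 ℓ (d - padicValNat ℓ (Nat.card q.ker)) π' μ' M ⊤ ω' := by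
    unfold PHU
    rw [Finset.sum_comm]
    refine Finset.sum_congr rfl fun τ hτ => ?_
    rw [← Finset.mul_sum, ← Finset.mul_sum, ← Nat.cast_sum]
    congr 3
    have h2 : Nat.card {ψ : ↥(SL (π'.comp q) M τ ⊤) → ℂ // IsIrr ψ ∧
        OvL (π'.comp q).ker (PUL.pm q π' μ') _ ψ ∧ HasDefect ℓ ψ d ∧
        ∀ g ∈ M.comap (π'.comp q), cen 𝔐 (SL (π'.comp q) M τ ⊤).subtype ψ g = ω g} =
        Nat.card {η' : ↥(SL π' M τ ⊤) → ℂ // IsIrr η' ∧ OvL π'.ker μ' _ η' ∧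
          HasDefect ℓ η' (d - padicValNat ℓ (Nat.card q.ker)) ∧
          ∀ g ∈ M.comap (π'.comp q), (QINF.nst q g : (integralClosure ℤ ℂ) ⧸ 𝔐) *
            cen 𝔐 (SL π' M τ ⊤).subtype η' (q g) = ω g} := by
      refine PUL.card_eq q π' μ' hq (⊤ ⊓ stb (mapCh M.subtype τ)) _ _ ?_
      intro η' hη'
      rw [defect_iff ℓ (PUL.map_eq q π' hq (⊤ ⊓ stb (mapCh M.subtype τ)))
        (PUL.ker_le q π' _) hη' d]
      have h3 := PUL.cen_eq q 𝔐 hq hfc _ _
        (PUL.map_eq q π' hq (⊤ ⊓ stb (mapCh M.subtype τ))) (PUL.ker_le q π' _) hη'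
      rw [h3]
      exact ⟨fun h4 => ⟨h4.1.2, h4.2⟩, fun h4 => ⟨⟨hd, h4.1⟩, h4.2⟩⟩
    rw [h2]
    refine card_split _ _ _ (cf 𝔐 (M.comap π') (SL π' M τ ⊤)) F _ ?_ ?_
    · intro η' hη' _ _
      rw [Finset.mem_filter]
      have h4 : ∀ g ∈ M.comap (π'.comp q),
          cf 𝔐 (M.comap π') (SL π' M τ ⊤) η' (q g) = cen 𝔐 (SL π' M τ ⊤).subtype η' (q g) :=
        fun g hg => if_pos hg
      constructor
      · intro h5
        refine ⟨?_, fun g hg => ?_⟩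
        · rw [Finset.mem_biUnion]
          exact ⟨τ, hτ, Finset.mem_image_of_mem _ (mem_irrF.2 hη')⟩
        · rw [h4 g hg]
          exact h5 g hg
      · intro h5 g hg
        rw [← h4 g hg]
        exact h5.2 g hg
    · intro ω' hω' η'
      constructor
      · intro h4
        funext x
        by_cases hx : x ∈ M.comap π'
        · rw [← h4 x hx]
          exact if_pos hx
        · rw [hF0 ω' hω' x hx]
          exact if_neg hx
      · intro h4 x hx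
        rw [← h4]
        exact (if_pos hx).symm
  rw [hsum]
  refine Finset.sum_eq_zero fun ω' hω' => ?_
  refine h1 L' K H 𝔐 ℓ hmax hℓ π' hπ' hc' hcyc μ' hμ' hHQ M p hp hpM P hP ω' ?_ _
  -- positivity
  intro θ' hθ' hov hdef hcen
  have hmap := PUL.map_eq q π' hq M
  have hle := PUL.ker_le q π' M
  refine hPos (fun x => θ' (PUL.rst q _ _ hmap x)) ?_ ?_ ?_ ?_
  · exact QINF.irr_inf _ (PUL.rst_surj q _ _ hmap) hθ'
  · intro s t hs
    have h2 := hov (PUL.rst q _ _ hmap s) (PUL.rst q _ _ hmap t) hs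
    rw [← map_mul] at h2
    exact h2
  · rw [defect_iff ℓ hmap hle hθ', hval]
    refine ⟨Nat.le_add_left _ _, ?_⟩
    rw [Nat.add_sub_cancel]
    exact hdef
  · intro g hg
    have h3 := PUL.cen_eq q 𝔐 hq hfc _ _ hmap hle hθ'
    have h4 := congrFun h3 g
    rw [hcen (q g) hg] at h4
    rw [← hFn ω' hω' g hg]
    exact h4

end Main

end PS2

/-- **PS2** -/
theorem PS2_thm (h1 : Stmt_PS1) (h2 : Stmt_CQI) : Stmt_PS2 := by
  intro L K H _ _ _ _ _ _ 𝔐 ℓ _ hmax hℓ π hπ hc μ hHQ M _ p hp hpM P hP ω hPos d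
  obtain ⟨L', _, _, q, π', μ', hq, hπ', hcomp, hμ', hz⟩ := PS2.exists_quot L K π hπ hc μ
  subst hcomp
  have hμ : μ = PUL.pm q π' μ' := by
    ext z
    rw [← hz z z.2]
    rfl
  subst hμ
  exact PS2.main h1 𝔐 ℓ hmax hℓ q hq π' hπ' hc μ' hμ' hHQ M p hp hpM P hP ω hPos d

end Pool.Agent.DPF


end
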