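import Mathlib
import Pool.Agent.DAM.C03
import Pool.Agent.DAM.C05
import Pool.Agent.DAM.C08
import Pool.Agent.DAM.C10
import Pool.Agent.DAM.C12
import Pool.Agent.DAM.C14
import Pool.Agent.DAM.C18
import Pool.Agent.DAM.C19
import Pool.Agent.DAM.C22
import Pool.Agent.DAM.C23
import Pool.Agent.DAM.C26
import Pool.Agent.DAM.C43
import Pool.Agent.DAM.C51
import Pool.Agent.DAM.C74

/-! Parts: DPT.BTL, DPF.FBB, DP.MIND, DP.PERAR, DPC.DER, DPC.RXC, DP.EXTA, DPW.FXE, DPX.FXEX -/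

section

/-!
# BTL: the commutator forms of corresponding characters
-/

namespace Pool.Agent.DPT

open Pool.Agent.DP Pool.Agent.DPC Pool.Agent.DPM Pool.Agent.DPN Pool.Agent.Lib_helper13
open Representation
open Pool.Agent.Lib_helper13.Dade (pCore DadeHolds dadeSum)

namespace BTL

variable {G : Type} [Group G]

theorem mem_cN {N Q : Subgroup G} {x : G} : x ∈ cN N Q ↔ x ∈ N ∧ ∀ q ∈ Q, q * x = x * q := by
  unfold Pool.Agent.DP.cN
  rw [Subgroup.mem_inf, Subgroup.mem_centralizer_iff]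
  exact Iff.rfl

/-- The product of a subgroup and a subgroup which it normalizes. -/
def prodS (S N : Subgroup G) (h : ∀ s ∈ S, ∀ n ∈ N, s * n * s⁻¹ ∈ N) : Subgroup G where
  carrier := {x | ∃ s ∈ S, ∃ n ∈ N, x = s * n}
  one_mem' := ⟨1, S.one_mem, 1, N.one_mem, by simp⟩
  mul_mem' := by
    rintro a b ⟨s, hs, n, hn, rfl⟩ ⟨t, ht, m, hm, rfl⟩
    refine ⟨s * t, S.mul_mem hs ht, t⁻¹ * n * t * m, N.mul_mem ?_ hm, by group⟩
    have := h t⁻¹ (S.inv_mem ht) n hn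
    rwa [inv_inv] at this
  inv_mem' := by
    rintro a ⟨s, hs, n, hn, rfl⟩
    exact ⟨s⁻¹, S.inv_mem hs, s * n⁻¹ * s⁻¹, h s hs _ (N.inv_mem hn), by group⟩

theorem mem_prodS {S N : Subgroup G} {h : ∀ s ∈ S, ∀ n ∈ N, s * n * s⁻¹ ∈ N} {x : G} :
    x ∈ prodS S N h ↔ ∃ s ∈ S, ∃ n ∈ N, x = s * n := Iff.rfl

theorem le_sx {N : Subgroup G} {θ : G → ℂ} (hθ : IrrOn N θ) : N ≤ sx θ := by
  intro n hn x
  by_cases hx : x ∈ N
  · exact hθ.1.conj_eq (⟨n, hn⟩ : N) ⟨x, hx⟩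
  · rw [hθ.2 x hx, hθ.2]
    intro h'
    apply hx
    have := N.mul_mem (N.mul_mem (N.inv_mem hn) h') hn
    rwa [show n⁻¹ * (n * x * n⁻¹) * n = x by group] at this

/-- The form on `S` (which need not contain `N`). -/
theorem form [Fintype G] (hX : Stmt_BTX) (N S : Subgroup G)
    (hSN : ∀ s ∈ S, ∀ n ∈ N, s * n * s⁻¹ ∈ N) (hab : ∀ s ∈ S, ∀ t ∈ S, s * t * s⁻¹ * t⁻¹ ∈ N)
    (θ : G → ℂ) (hθ : IrrOn N θ) (hS : S ≤ sx θ) :
    ∃ β : G → G → ℂˣ, (∀ s ∈ S, ∀ t ∈ S, ∀ ζ : ℂ, BT N θ s t ζ ↔ ζ = β s t) ∧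
      (∀ s ∈ S, ∀ t ∈ S, ∀ u ∈ S, β (s * t) u = β s u * β t u ∧
        β s (t * u) = β s t * β s u) ∧ ∀ s ∈ S, β s s = 1 := by
  have hle : S ≤ prodS S N hSN := fun s hs => ⟨s, hs, 1, N.one_mem, by simp⟩
  obtain ⟨β, b1, b2, b3⟩ := hX G N (prodS S N hSN) (fun n hn => ⟨1, S.one_mem, n, hn, by simp⟩)
    (by
      rintro _ ⟨s, hs, n, hn, rfl⟩ m hm
      have := hSN s hs (n * m * n⁻¹) (N.mul_mem (N.mul_mem hn hm) (N.inv_mem hn))
      rwa [show s * (n * m * n⁻¹) * s⁻¹ = s * n * m * (s * n)⁻¹ by group] at this)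
    (by
      rintro _ ⟨s, hs, n, hn, rfl⟩ _ ⟨t, ht, m, hm, rfl⟩
      have k1 : t⁻¹ * n * t ∈ N := by
        have := hSN t⁻¹ (S.inv_mem ht) n hn
        rwa [inv_inv] at this
      have k2 := hSN (s * t) (S.mul_mem hs ht) _ (N.mul_mem (N.mul_mem k1 hm) (N.inv_mem hn))
      have k3 := hSN t ht _ (N.inv_mem hm)
      have k4 := N.mul_mem (N.mul_mem k2 (hab s hs t ht)) k3
      have e : s * t * (t⁻¹ * n * t * m * n⁻¹) * (s * t)⁻¹ * (s * t * s⁻¹ * t⁻¹) *
          (t * m⁻¹ * t⁻¹) = s * n * (t * m) * (s * n)⁻¹ * (t * m)⁻¹ := by group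
      rwa [e] at k4)
    θ hθ
    (by
      rintro _ ⟨s, hs, n, hn, rfl⟩
      exact (sx θ).mul_mem (hS hs) (le_sx hθ hn))
  exact ⟨β, fun s hs t ht ζ => b1 s (hle hs) t (hle ht) ζ,
    fun s hs t ht u hu => b2 s (hle hs) t (hle ht) u (hle hu), fun s hs => b3 s (hle hs)⟩

/-- A form which is trivial on a subset with cyclic quotient is trivial. -/
theorem form_eq (S : Subgroup G) (β β₁ : G → G → ℂˣ)
    (b : ∀ s ∈ S, ∀ t ∈ S, ∀ u ∈ S, β (s * t) u = β s u * β t u ∧ β s (t * u) = β s t * β s u)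
    (b₁ : ∀ s ∈ S, ∀ t ∈ S, ∀ u ∈ S, β₁ (s * t) u = β₁ s u * β₁ t u ∧
      β₁ s (t * u) = β₁ s t * β₁ s u)
    (a : ∀ s ∈ S, β s s = 1) (a₁ : ∀ s ∈ S, β₁ s s = 1) (K : G → Prop)
    (hK : ∀ x ∈ S, ∀ y ∈ S, K y → β x y = β₁ x y) (s₀ : G) (h₀ : s₀ ∈ S)
    (hs : ∀ s ∈ S, ∃ i : ℤ, K (s * s₀ ^ i)) : ∀ x ∈ S, ∀ y ∈ S, β x y = β₁ x y := by
  set δ : G → G → ℂˣ := fun s t => β s t * (β₁ s t)⁻¹ with hδ
  have dl : ∀ s ∈ S, ∀ t ∈ S, ∀ u ∈ S, δ (s * t) u = δ s u * δ t u := by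
    intro s hs t ht u hu
    simp only [hδ]
    rw [(b s hs t ht u hu).1, (b₁ s hs t ht u hu).1, mul_inv]
    exact mul_mul_mul_comm _ _ _ _
  have dr : ∀ s ∈ S, ∀ t ∈ S, ∀ u ∈ S, δ s (t * u) = δ s t * δ s u := by
    intro s hs t ht u hu
    simp only [hδ]
    rw [(b s hs t ht u hu).2, (b₁ s hs t ht u hu).2, mul_inv]
    exact mul_mul_mul_comm _ _ _ _
  have da : ∀ s ∈ S, δ s s = 1 := by
    intro s hs
    simp only [hδ]
    rw [a s hs, a₁ s hs, inv_one, mul_one]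
  have dK : ∀ x ∈ S, ∀ y ∈ S, K y → δ x y = 1 := by
    intro x hx y hy hk
    simp only [hδ]
    rw [hK x hx y hy hk, mul_inv_cancel]
  have anti : ∀ s ∈ S, ∀ t ∈ S, δ s t * δ t s = 1 := by
    intro s hs t ht
    have h := da (s * t) (S.mul_mem hs ht)
    rw [dl s hs t ht _ (S.mul_mem hs ht), dr s hs s hs t ht, dr t ht s hs t ht, da s hs, da t ht,
      one_mul, mul_one] at h
    exact h
  have dK' : ∀ x ∈ S, ∀ y ∈ S, K y → δ y x = 1 := by
    intro x hx y hy hk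
    have h := anti x hx y hy
    rwa [dK x hx y hy hk, one_mul] at h
  have pr : ∀ s ∈ S, ∀ j : ℤ, δ s (s₀ ^ j) = δ s s₀ ^ j := by
    intro s hs j
    let φ : S →* ℂˣ := MonoidHom.mk' (fun t => δ s t) (fun t u => dr s hs t t.2 u u.2)
    have h := map_zpow φ (⟨s₀, h₀⟩ : S) j
    exact h
  have pl : ∀ s ∈ S, ∀ j : ℤ, δ (s₀ ^ j) s = δ s₀ s ^ j := by
    intro s hs j
    let φ : S →* ℂˣ := MonoidHom.mk' (fun t => δ t s) (fun t u => dl t t.2 u u.2 s hs)
    have h := map_zpow φ (⟨s₀, h₀⟩ : S) j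
    exact h
  have d0 : ∀ s ∈ S, δ s s₀ = 1 := by
    intro s hs'
    obtain ⟨i, hi⟩ := hs s hs'
    have hm := S.zpow_mem h₀ i
    have h := dK' s₀ h₀ (s * s₀ ^ i) (S.mul_mem hs' hm) hi
    rw [dl s hs' _ hm s₀ h₀, pl s₀ h₀, da s₀ h₀, one_zpow, mul_one] at h
    exact h
  intro x hx y hy
  obtain ⟨j, hj⟩ := hs y hy
  have hm := S.zpow_mem h₀ j
  have h := dK x hx (y * s₀ ^ j) (S.mul_mem hy hm) hj
  rw [dr x hx y hy _ hm, pr x hx, d0 x hx, one_zpow, mul_one] at h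
  exact mul_inv_eq_one.mp h

theorem iff_conj {N S : Subgroup G} (h : ∀ s ∈ S, ∀ n ∈ N, s * n * s⁻¹ ∈ N) {s : G} (hs : s ∈ S)
    (x : G) : x ∈ N ↔ s * x * s⁻¹ ∈ N := by
  refine ⟨fun hx => h s hs x hx, fun hx => ?_⟩
  have := h s⁻¹ (S.inv_mem hs) _ hx
  rwa [show s⁻¹ * (s * x * s⁻¹) * s⁻¹⁻¹ = x by group] at this

/-- Conjugation preserves the elements which commute with an invariant subgroup. -/
theorem conj_comm {N S : Subgroup G} (h : ∀ s ∈ S, ∀ n ∈ N, s * n * s⁻¹ ∈ N) {s : G} (hs : s ∈ S)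
    {x : G} (hx : ∀ n ∈ N, n * x = x * n) : ∀ n ∈ N, n * (s * x * s⁻¹) = s * x * s⁻¹ * n := by
  intro n hn
  have h1 := hx (s⁻¹ * n * s) (by
    have := h s⁻¹ (S.inv_mem hs) n hn
    rwa [inv_inv] at this)
  calc n * (s * x * s⁻¹) = s * ((s⁻¹ * n * s) * x) * s⁻¹ := by group
    _ = s * (x * (s⁻¹ * n * s)) * s⁻¹ := by rw [h1]
    _ = s * x * s⁻¹ * n := by group

/-- One layer. -/
theorem layer [Fintype G] (𝔐 : Ideal (integralClosure ℤ ℂ)) (ℓ : ℕ)
    [Fact ℓ.Prime] (hM : 𝔐.IsMaximal) (hl : (ℓ : integralClosure ℤ ℂ) ∈ 𝔐) (h2 : Stmt_COPR)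
    (h4 : Stmt_DGSR) (h9 : Stmt_BTR) (N R S R₁ : Subgroup G)
    (hR : IsPGroup ℓ R) (hRN : ∀ r ∈ R, ∀ n ∈ N, r * n * r⁻¹ ∈ N)
    (hSN : ∀ s ∈ S, ∀ n ∈ N, s * n * s⁻¹ ∈ N)
    (hab : ∀ s ∈ S, ∀ t ∈ S, s * t * s⁻¹ * t⁻¹ ∈ cN N R)
    (hn : ∀ s ∈ S, ∃ n : ℕ, ¬ ℓ ∣ n ∧ s ^ n ∈ cN N R)
    (hle : R₁ ≤ R)
    (hs₁ : ∀ s ∈ S, ∀ x ∈ R₁, s * x * s⁻¹ ∈ R₁) (θ θ₁ : G → ℂ) (hθ : ID ℓ N 0 θ)
    (hθ₁ : ID ℓ (cN N R₁) 0 θ₁) (hD : DGs 𝔐 N R₁ θ₁ θ) (hS : S ≤ sx θ)
    (hlt : R ⊓ Subgroup.centralizer (N : Set G) ≤ R₁)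
    (x : G) (hx : x ∈ S) (y : G) (hy : y ∈ S)
    (hyK : ∀ r ∈ R₁, y * r * y⁻¹ * r⁻¹ ∈ R ⊓ Subgroup.centralizer (N : Set G)) (ζ : ℂ)
    (hB : BT N θ x y ζ) : BT (cN N R₁) θ₁ x y ζ := by
  classical
  obtain ⟨n, hnl, hyn⟩ := hn y hy
  have hcR : ∀ c ∈ cN N R, ∀ r ∈ R, r * c = c * r := fun c hc => (mem_cN.mp hc).2
  have hR₁ : IsPGroup ℓ R₁ := hR.to_le hle
  set R₀ : Subgroup G := R ⊓ Subgroup.centralizer (N : Set G) with hR₀
  have m0 : ∀ r, r ∈ R₀ ↔ r ∈ R ∧ ∀ n ∈ N, n * r = r * n := by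
    intro r
    rw [hR₀, Subgroup.mem_inf, Subgroup.mem_centralizer_iff]
    exact Iff.rfl
  set R₂ : Subgroup G := R₁ ⊓ Subgroup.centralizer ({y} : Set G) with hR₂
  have m2 : ∀ r, r ∈ R₂ ↔ r ∈ R₁ ∧ y * r = r * y := by
    intro r
    rw [hR₂, Subgroup.mem_inf, Subgroup.mem_centralizer_iff]
    simp
  have hcop := h2 G ℓ R₁ R₀ y hR₁ hlt
    (fun r hr x hx => (m0 _).mpr ⟨R.mul_mem (R.mul_mem (hle hr) ((m0 x).mp hx).1)
      (R.inv_mem (hle hr)), conj_comm hRN (hle hr) ((m0 x).mp hx).2⟩)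
    hyK (fun r hr => hs₁ y hy r hr)
    (fun r hr => by
      have h1 : y * r * y⁻¹ * r⁻¹ ∈ R₀ := hyK r (hlt hr)
      have h2 := R₀.mul_mem h1 hr
      rwa [inv_mul_cancel_right] at h2)
    n hnl (fun r hr => (hcR _ hyn r (hle hr)).symm)
  have hact : ∀ r ∈ R₁, ∃ r' ∈ R₂, ∀ n ∈ N, r * n * r⁻¹ = r' * n * r'⁻¹ := by
    intro r hr
    obtain ⟨x', hx', c, hc, hcy, rfl⟩ := hcop r hr
    refine ⟨c, (m2 c).mpr ⟨hc, hcy.symm⟩, fun n hn => ?_⟩
    have h1 : c * n * c⁻¹ ∈ N := hRN c (hle hc) n hn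
    have h2 := ((m0 x').mp hx').2 _ h1
    calc x' * c * n * (x' * c)⁻¹ = x' * (c * n * c⁻¹) * x'⁻¹ := by group
      _ = (c * n * c⁻¹) * x' * x'⁻¹ := by rw [h2]
      _ = c * n * c⁻¹ := by group
  have hR₂le : R₂ ≤ R₁ := inf_le_left
  obtain ⟨e1, e2⟩ := h4 G 𝔐 N R₁ R₂ hR₂le hact
  have hxR : ∀ x ∈ S, ∀ r ∈ R₂, x * r * x⁻¹ ∈ R₂ := by
    intro x hx r hr
    obtain ⟨q1, q2⟩ := (m2 r).mp hr
    have q3 := hs₁ x hx r q1
    refine (m2 _).mpr ⟨q3, ?_⟩
    have q4 := hcR _ (hab x hx y hy) _ (hle q3)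
    -- `c := x y x⁻¹ y⁻¹` commutes with `x r x⁻¹`
    have q5 : (x * y * x⁻¹) * (x * r * x⁻¹) = (x * r * x⁻¹) * (x * y * x⁻¹) := by
      calc (x * y * x⁻¹) * (x * r * x⁻¹) = x * (y * r) * x⁻¹ := by group
        _ = x * (r * y) * x⁻¹ := by rw [q2]
        _ = (x * r * x⁻¹) * (x * y * x⁻¹) := by group
    have e : x * y * x⁻¹ = (x * y * x⁻¹ * y⁻¹) * y := by group
    rw [e] at q5
    have q6 : (x * y * x⁻¹ * y⁻¹) * (y * (x * r * x⁻¹)) =
        (x * y * x⁻¹ * y⁻¹) * ((x * r * x⁻¹) * y) := by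
      rw [← mul_assoc, q5, ← mul_assoc, q4, mul_assoc, mul_assoc]
    exact mul_left_cancel q6
  have hfin := h9 G 𝔐 ℓ hM hl N R₂ (hR₁.to_le hR₂le)
    (fun r hr n hn => hRN r (hle (hR₂le hr)) n hn) θ θ₁ hθ (by rw [← e1]; exact hθ₁)
    ((e2 θ₁ θ).mp hD) x y (iff_conj hSN hx) (fun n hn => hSN y hy n hn) (hS hx) (hS hy)
    (iff_conj hxR hx) (fun r hr => ((m2 r).mp hr).2.symm) (mem_cN.mp (hab x hx y hy)).1 n hnl
    (mem_cN.mp hyn).1 ζ hB
  rwa [← e1] at hfin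

end BTL

open _root_.Pool.Agent.DPT.BTL in
/-- BTL: the commutator forms of corresponding characters. -/
theorem BTL_thm (h1 : Stmt_LAYG) (h2 : Stmt_COPR) (h3 : Stmt_DGST) (h4 : Stmt_DGSR)
    (h5 : Stmt_DGSD) (h6 : Stmt_DGSB) (h7 : Stmt_DGSC) (h8 : Stmt_BTX) (h9 : Stmt_BTR) :
    Stmt_BTL := by
  classical
  intro G _ _ 𝔐 ℓ _ hM hl N R S hR hRN hSN hSR hCS hab hn θ θ' hθ hθ' hD hS x hx y hy ζ hB
  obtain ⟨k, hk⟩ : ∃ k, k = Nat.card R - Nat.card ↥(R ⊓ Subgroup.centralizer (N : Set G)) :=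
    ⟨_, rfl⟩
  induction k using Nat.strong_induction_on generalizing N θ with
  | _ k ih =>
  set R₀ : Subgroup G := R ⊓ Subgroup.centralizer (N : Set G) with hR₀
  have m0 : ∀ r, r ∈ R₀ ↔ r ∈ R ∧ ∀ n ∈ N, n * r = r * n := by
    intro r
    rw [hR₀, Subgroup.mem_inf, Subgroup.mem_centralizer_iff]
    exact Iff.rfl
  by_cases hE : R₀ = R
  · obtain ⟨f1, f2⟩ := h5 G 𝔐 ℓ hM hl N R
      (fun r hr n hn => (((m0 r).mp (hE ▸ hr)).2 n hn).symm)
    have f3 := f2 θ' θ (by rw [f1] at hθ'; exact hθ') hθ hD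
    rw [f1, f3]
    exact hB
  · have hlt : R₀ < R := lt_of_le_of_ne inf_le_left hE
    obtain ⟨R₁, g1, g2, g3, g4, s₀, hs₀, g5⟩ := h1 G ℓ R R₀ S (cN N R) hR hlt
      (fun r hr x hx => (m0 _).mpr ⟨R.mul_mem (R.mul_mem hr ((m0 x).mp hx).1) (R.inv_mem hr),
        conj_comm hRN hr ((m0 x).mp hx).2⟩)
      hSR
      (fun s hs r hr => (m0 _).mpr ⟨hSR s hs r ((m0 r).mp hr).1, conj_comm hSN hs ((m0 r).mp hr).2⟩)
      hab (fun c hc r hr => ((mem_cN.mp hc).2 r hr).symm)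
    obtain ⟨t1, t2, t3⟩ := h3 G 𝔐 ℓ hM hl N R R₁ hR g2 hRN g3
    obtain ⟨θ₁, hθ₁, hD₁, hD₂⟩ := t3 θ' θ hθ' hθ hD
    have hR₁ : IsPGroup ℓ R₁ := hR.to_le g2
    -- `S` stabilizes `θ₁`
    have hS₁ : S ≤ sx θ₁ := by
      intro s hs
      obtain ⟨c1, c2⟩ := h7 G 𝔐 ℓ 0 s
      obtain ⟨c3, c4⟩ := c2 N N R₁ R₁ θ₁ θ (iff_conj hSN hs) (iff_conj g4 hs) hD₁
      have c5 := c1 (cN N R₁) (cN N R₁) θ₁ c3 hθ₁
      have c6 : (fun x => θ (s * x * s⁻¹)) = θ := funext (hS hs)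
      rw [c6] at c4
      have c7 := (h6 G 𝔐 ℓ hM hl N R₁ hR₁ (fun r hr n hn => hRN r (g2 hr) n hn)).2.2.2
        _ _ θ c5 hθ₁ hθ c4 hD₁
      exact fun x => congrFun c7 x
    have hN₁S : ∀ s ∈ S, ∀ n ∈ cN N R₁, s * n * s⁻¹ ∈ cN N R₁ := by
      intro s hs n hn
      obtain ⟨n1, n2⟩ := mem_cN.mp hn
      exact mem_cN.mpr ⟨hSN s hs n n1, conj_comm g4 hs n2⟩
    have hN₁ab : ∀ s ∈ S, ∀ t ∈ S, s * t * s⁻¹ * t⁻¹ ∈ cN N R₁ := by
      intro s hs t ht
      obtain ⟨n1, n2⟩ := mem_cN.mp (hab s hs t ht)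
      exact mem_cN.mpr ⟨n1, fun q hq => n2 q (g2 hq)⟩
    -- Step A
    obtain ⟨β, b1, b2, b3⟩ := form h8 N S hSN (fun s hs t ht => (mem_cN.mp (hab s hs t ht)).1) θ
      hθ.1 hS
    obtain ⟨β₁, b1', b2', b3'⟩ := form h8 (cN N R₁) S hN₁S hN₁ab θ₁ hθ₁.1 hS₁
    have hA : β x y = β₁ x y := by
      refine form_eq S β β₁ b2 b2' b3 b3' (fun y => ∀ r ∈ R₁, y * r * y⁻¹ * r⁻¹ ∈ R₀) ?_ s₀ hs₀ ?_
        x hx y hy
      · intro x hx y hy hK
        have q1 := (b1 x hx y hy (β x y)).mpr rfl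
        have q2 := layer 𝔐 ℓ hM hl h2 h4 h9 N R S R₁ hR hRN hSN hab hn g2 g4 θ θ₁ hθ hθ₁ hD₁ hS
          g1.le x hx y hy hK _ q1
        have q3 := (b1' x hx y hy _).mp q2
        exact Units.ext q3
      · intro s hs
        obtain ⟨i, hi⟩ := g5 s hs
        exact ⟨i, hi⟩
    have hB₁ : BT (cN N R₁) θ₁ x y ζ := by
      rw [b1' x hx y hy ζ, ← hA]
      exact (b1 x hx y hy ζ).mp hB
    -- Step B
    have hcard : Nat.card R - Nat.card ↥(R ⊓ Subgroup.centralizer ((cN N R₁ : Subgroup G) : Set G))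
        < k := by
      have i1 : R₁ ≤ R ⊓ Subgroup.centralizer ((cN N R₁ : Subgroup G) : Set G) := by
        intro r hr
        rw [Subgroup.mem_inf, Subgroup.mem_centralizer_iff]
        exact ⟨g2 hr, fun n hn => ((mem_cN.mp hn).2 r hr).symm⟩
      have i2 : Nat.card R₁ ≤ Nat.card ↥(R ⊓ Subgroup.centralizer ((cN N R₁ : Subgroup G) : Set G)) :=
        Subgroup.card_le_of_le i1
      have i3 : Nat.card R₀ < Nat.card R₁ := by
        refine lt_of_le_of_ne (Subgroup.card_le_of_le g1.le) fun h => g1.ne ?_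
        exact Subgroup.eq_of_le_of_card_ge g1.le h.ge
      have i4 : Nat.card R₁ ≤ Nat.card R := Subgroup.card_le_of_le g2
      omega
    have := ih _ hcard (cN N R₁) t2 hN₁S (by rw [t1]; exact hCS) (by rw [t1]; exact hab)
      (by rw [t1]; exact hn) θ₁ hθ₁ (by rw [t1]; exact hθ') hD₂ hS₁ hB₁ rfl
    rwa [t1] at this

end Pool.Agent.DPT


end

section

/-!
# FBB: the fixed pairs of the fibre product
-/

namespace Pool.Agent.DPF

open Pool.Agent.DP Pool.Agent.DPC Pool.Agent.DPM Pool.Agent.DPN Pool.Agent.Lib_helper13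
  Representation
open Pool.Agent.Lib_helper13.Dade (pCore DadeHolds dadeSum)

namespace FBB

variable {L K H W : Type} [Group L] [Group K] [Group H] [Group W]

theorem mem2 {π : L →* K} {M : Subgroup K} {p : K →* H} {πW : W →* H}
    (hM : ∀ k, p k = 1 ↔ k ∈ M) {x : fpr (p.comp π) πW} (hx : π (x : L × W).1 ∈ M) :
    (x : L × W).2 ∈ πW.ker := by
  have h1 : p (π (x : L × W).1) = πW (x : L × W).2 := x.2
  rw [(hM _).mpr hx] at h1
  exact h1.symm

/-- The element `(l, w)` of the fibre product. -/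
def mk {π : L →* K} {M : Subgroup K} {p : K →* H} {πW : W →* H}
    (hM : ∀ k, p k = 1 ↔ k ∈ M) (τ : Finset (Subgroup M)) (a : ↥(SL π M τ M)) (z : πW.ker) :
    ↥(SL (piY π p πW) M τ M) :=
  ⟨⟨((a : L), (z : W)), by
    change p (π (a : L)) = πW (z : W)
    rw [(hM _).mpr a.2.1]
    exact z.2.symm⟩, a.2⟩

/-- The inverse image in the fibre product is a direct product. -/
def eY {π : L →* K} {M : Subgroup K} {p : K →* H} {πW : W →* H}
    (hM : ∀ k, p k = 1 ↔ k ∈ M) (τ : Finset (Subgroup M)) :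
    ↥(SL (piY π p πW) M τ M) ≃* ↥(SL π M τ M) × πW.ker where
  toFun x := (⟨((x : fpr (p.comp π) πW) : L × W).1, x.2⟩,
    ⟨((x : fpr (p.comp π) πW) : L × W).2, mem2 hM x.2.1⟩)
  invFun y := mk hM τ y.1 y.2
  left_inv x := rfl
  right_inv y := rfl
  map_mul' x y := rfl

theorem thY_eq {π : L →* K} {M : Subgroup K} {p : K →* H} {πW : W →* H}
    (hM : ∀ k, p k = 1 ↔ k ∈ M) (τ : Finset (Subgroup M)) (θ : ↥(SL π M τ M) → ℂ)
    (ν : πW.ker →* ℂˣ) (x : ↥(SL (piY π p πW) M τ M)) :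
    thY π p M πW τ θ ν x = θ (eY hM τ x).1 * ((ν (eY hM τ x).2 : ℂˣ) : ℂ) := by
  rw [thY, dif_pos (mem2 hM x.2.1)]
  rw [ext0_of_mem θ (k := ((x : fpr (p.comp π) πW) : L × W).1) x.2]
  rfl

theorem thY_mk {π : L →* K} {M : Subgroup K} {p : K →* H} {πW : W →* H}
    (hM : ∀ k, p k = 1 ↔ k ∈ M) (τ : Finset (Subgroup M)) (θ : ↥(SL π M τ M) → ℂ)
    (ν : πW.ker →* ℂˣ) (a : ↥(SL π M τ M)) (z : πW.ker) :
    thY π p M πW τ θ ν (mk hM τ a z) = θ a * ((ν z : ℂˣ) : ℂ) :=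
  thY_eq hM τ θ ν (mk hM τ a z)

/-- The restriction to the first factor. -/
def rs {π : L →* K} {M : Subgroup K} {p : K →* H} {πW : W →* H}
    (hM : ∀ k, p k = 1 ↔ k ∈ M) (τ : Finset (Subgroup M)) :
    ↥(SL π M τ M) →* ↥(SL (piY π p πW) M τ M) where
  toFun a := mk hM τ a 1
  map_one' := rfl
  map_mul' a b := by
    apply Subtype.ext
    apply Subtype.ext
    apply Prod.ext
    · rfl
    · change (1 : W) = 1 * 1
      rw [one_mul]

theorem isIntegral_unit {G : Type} [Group G] [Finite G] (lam : G →* ℂˣ) (v : G) :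
    IsIntegral ℤ ((lam v : ℂˣ) : ℂ) := by
  have h1 : ((lam v : ℂˣ) : ℂ) ^ Nat.card G = 1 := by
    rw [← Units.val_pow_eq_pow_val, ← map_pow, pow_card_eq_one', map_one, Units.val_one]
  have h2 : IsIntegral ℤ (((lam v : ℂˣ) : ℂ) ^ Nat.card G) := by
    rw [h1]
    exact isIntegral_one
  exact IsIntegral.of_pow Nat.card_pos h2

section Irr

variable [Fintype L] [Fintype K] [Fintype H] [Fintype W]
  {π : L →* K} {M : Subgroup K} {p : K →* H} {πW : W →* H}

theorem sum_thY (hM : ∀ k, p k = 1 ↔ k ∈ M) (τ : Finset (Subgroup M))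
    (θ : ↥(SL π M τ M) → ℂ) (ν : πW.ker →* ℂˣ) :
    ∑ x : ↥(SL (piY π p πW) M τ M), thY π p M πW τ θ ν x * thY π p M πW τ θ ν x⁻¹ =
      (Nat.card πW.ker : ℂ) * ∑ a : ↥(SL π M τ M), θ a * θ a⁻¹ := by
  classical
  have h1 : ∑ x : ↥(SL (piY π p πW) M τ M), thY π p M πW τ θ ν x * thY π p M πW τ θ ν x⁻¹ =
      ∑ y : ↥(SL π M τ M) × πW.ker, θ y.1 * θ (y.1)⁻¹ := by
    refine Fintype.sum_equiv (eY hM τ).toEquiv _ _ ?_
    intro x
    rw [thY_eq hM τ θ ν x, thY_eq hM τ θ ν x⁻¹]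
    have h2 : eY hM τ x⁻¹ = (eY hM τ x)⁻¹ := map_inv _ _
    rw [h2]
    change θ (eY hM τ x).1 * ((ν (eY hM τ x).2 : ℂˣ) : ℂ) *
      (θ ((eY hM τ x).1)⁻¹ * ((ν ((eY hM τ x).2)⁻¹ : ℂˣ) : ℂ)) =
      θ (eY hM τ x).1 * θ ((eY hM τ x).1)⁻¹
    have h3 : ((ν (eY hM τ x).2 : ℂˣ) : ℂ) * ((ν ((eY hM τ x).2)⁻¹ : ℂˣ) : ℂ) = 1 := by
      rw [map_inv, ← Units.val_mul, mul_inv_cancel, Units.val_one]
    calc θ (eY hM τ x).1 * ((ν (eY hM τ x).2 : ℂˣ) : ℂ) *
          (θ ((eY hM τ x).1)⁻¹ * ((ν ((eY hM τ x).2)⁻¹ : ℂˣ) : ℂ))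
        = θ (eY hM τ x).1 * θ ((eY hM τ x).1)⁻¹ *
          (((ν (eY hM τ x).2 : ℂˣ) : ℂ) * ((ν ((eY hM τ x).2)⁻¹ : ℂˣ) : ℂ)) := by ring
      _ = _ := by rw [h3, mul_one]
  rw [h1, Fintype.sum_prod_type]
  simp only [Finset.sum_const, Finset.card_univ, nsmul_eq_mul]
  rw [← Finset.mul_sum, Nat.card_eq_fintype_card]

theorem card_eq (hM : ∀ k, p k = 1 ↔ k ∈ M) (τ : Finset (Subgroup M)) :
    (Nat.card ↥(SL (piY π p πW) M τ M) : ℂ) =
      (Nat.card πW.ker : ℂ) * (Nat.card ↥(SL π M τ M) : ℂ) := by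
  rw [Nat.card_congr (eY (πW := πW) hM τ).toEquiv, Nat.card_prod]
  push_cast
  ring

theorem irr_thY (hM : ∀ k, p k = 1 ↔ k ∈ M) (τ : Finset (Subgroup M))
    {θ : ↥(SL π M τ M) → ℂ} (ν : πW.ker →* ℂˣ) (hθ : IsIrr θ) :
    IsIrr (thY π p M πW τ θ ν) := by
  have h1 : thY π p M πW τ θ ν = fun x =>
      θ (((MonoidHom.fst _ _).comp (eY (πW := πW) hM τ).toMonoidHom) x) *
        ((ν (((MonoidHom.snd _ _).comp (eY (πW := πW) hM τ).toMonoidHom) x) : ℂˣ) : ℂ) := by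
    funext x
    exact thY_eq hM τ θ ν x
  have h2 : IsChr (thY π p M πW τ θ ν) := by
    rw [h1]
    exact (hθ.isChr.comp _).mul ((isChr_lin ν).comp _)
  apply h2.isIrr
  rw [sum_thY hM τ θ ν, hθ.sum_self, card_eq hM τ]

/-- A function over the linear character is a product. -/
theorem eq_thY (hM : ∀ k, p k = 1 ↔ k ∈ M) (τ : Finset (Subgroup M)) (μ : π.ker →* ℂˣ)
    (ν : πW.ker →* ℂˣ) {η : ↥(SL (piY π p πW) M τ M) → ℂ}
    (h : OvL (piY π p πW).ker (muY π p πW μ ν) _ η) :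
    η = thY π p M πW τ (fun a => η (rs hM τ a)) ν := by
  funext x
  obtain ⟨y, rfl⟩ := (eY (πW := πW) hM τ).symm.surjective x
  obtain ⟨a, z⟩ := y
  change η (mk hM τ a z) = thY π p M πW τ (fun a => η (rs hM τ a)) ν (mk hM τ a z)
  rw [thY_mk]
  have h1 : ((mk hM τ 1 z : ↥(SL (piY π p πW) M τ M)) : fpr (p.comp π) πW) ∈
      (piY π p πW).ker := by
    change π (1 : L) = 1
    exact map_one π
  have h2 := h (mk hM τ 1 z) (rs hM τ a) h1
  have h3 : mk hM τ 1 z * rs hM τ a = mk hM τ a z := by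
    apply Subtype.ext
    apply Subtype.ext
    apply Prod.ext
    · change (1 : L) * (a : L) = a
      rw [one_mul]
    · change (z : W) * 1 = z
      rw [mul_one]
  have h4 : ((muY π p πW μ ν ⟨(mk hM τ 1 z : ↥(SL (piY π p πW) M τ M)), h1⟩ : ℂˣ) : ℂ) =
      ((ν z : ℂˣ) : ℂ) := by
    have h5 : muY π p πW μ ν ⟨(mk hM τ 1 z : ↥(SL (piY π p πW) M τ M)), h1⟩ = μ 1 * ν z := rfl
    rw [h5, map_one, one_mul]
  rw [h3, h4] at h2
  rw [h2, mul_comm]

theorem irr_rs (hM : ∀ k, p k = 1 ↔ k ∈ M) (τ : Finset (Subgroup M)) (μ : π.ker →* ℂˣ)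
    (ν : πW.ker →* ℂˣ) {η : ↥(SL (piY π p πW) M τ M) → ℂ} (hη : IsIrr η)
    (h : OvL (piY π p πW).ker (muY π p πW μ ν) _ η) :
    IsIrr (fun a => η (rs hM τ a)) := by
  have h1 : IsChr (fun a => η (rs hM τ a)) := hη.isChr.comp (rs hM τ)
  apply h1.isIrr
  have h2 := hη.sum_self
  have h3 := sum_thY hM τ (fun a => η (rs (πW := πW) hM τ a)) ν
  rw [← eq_thY hM τ μ ν h, h2, card_eq hM τ] at h3
  have h4 : (Nat.card πW.ker : ℂ) ≠ 0 := natCard_ne_zero
  exact (mul_left_cancel₀ h4 h3).symm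

/-- Conjugacy in the fibre product. -/
theorem isConj_mk (hπW : Function.Surjective πW) (hc : πW.ker ≤ Subgroup.center W)
    (hM : ∀ k, p k = 1 ↔ k ∈ M) (τ : Finset (Subgroup M)) (a : ↥(SL π M τ M)) (z : πW.ker)
    (g : fpr (p.comp π) πW) :
    IsConj ((mk hM τ a z : ↥(SL (piY π p πW) M τ M)) : fpr (p.comp π) πW) g ↔
      IsConj (a : L) (g : L × W).1 ∧ (z : W) = (g : L × W).2 := by
  constructor
  · intro h
    obtain ⟨t, ht⟩ := isConj_iff.mp h
    have h1 : (t : L × W).1 * (a : L) * (t : L × W).1⁻¹ = (g : L × W).1 :=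
      congrArg (fun x : fpr (p.comp π) πW => (x : L × W).1) ht
    have h2 : (t : L × W).2 * (z : W) * (t : L × W).2⁻¹ = (g : L × W).2 :=
      congrArg (fun x : fpr (p.comp π) πW => (x : L × W).2) ht
    refine ⟨isConj_iff.mpr ⟨_, h1⟩, ?_⟩
    rw [← h2, (Subgroup.mem_center_iff.mp (hc z.2) (t : L × W).2), mul_assoc, mul_inv_cancel,
      mul_one]
  · rintro ⟨h1, h2⟩
    obtain ⟨t, ht⟩ := isConj_iff.mp h1
    obtain ⟨u, hu⟩ := hπW (p (π t))
    refine isConj_iff.mpr ⟨⟨(t, u), hu.symm⟩, ?_⟩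
    apply Subtype.ext
    apply Prod.ext
    · exact ht
    · change u * (z : W) * u⁻¹ = (g : L × W).2
      rw [(Subgroup.mem_center_iff.mp (hc z.2) u), mul_assoc, mul_inv_cancel, mul_one, h2]

variable (𝔐 : Ideal (integralClosure ℤ ℂ))

theorem cen_thY (hπW : Function.Surjective πW) (hc : πW.ker ≤ Subgroup.center W)
    (hM : ∀ k, p k = 1 ↔ k ∈ M) (τ : Finset (Subgroup M)) {θ : ↥(SL π M τ M) → ℂ}
    (ν : πW.ker →* ℂˣ) (hθ : IsIrr θ) (g : fpr (p.comp π) πW) (w : πW.ker)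
    (hw : (w : W) = (g : L × W).2) :
    cen 𝔐 (SL (piY π p πW) M τ M).subtype (thY π p M πW τ θ ν) g =
      red 𝔐 ((ν w : ℂˣ) : ℂ) * cen 𝔐 (SL π M τ M).subtype θ (g : L × W).1 := by
  classical
  have hint : IsIntegral ℤ (wt θ (fun y => conjInd ((SL π M τ M).subtype y) (g : L × W).1)) := by
    apply isIntegral_wt hθ
    · intro x y
      rw [map_mul, map_mul, map_inv, conjInd_conj]
    · intro y
      exact isIntegral_conjInd _ _
  rw [cen, cen, ← red_mul 𝔐 (isIntegral_unit ν w) hint]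
  congr 1
  rw [wt, wt]
  have h1 : thY π p M πW τ θ ν 1 = θ 1 := by
    rw [thY_eq hM τ θ ν 1, map_one]
    change θ 1 * ((ν 1 : ℂˣ) : ℂ) = θ 1
    rw [map_one, Units.val_one, mul_one]
  rw [h1, mul_div_assoc']
  congr 1
  have h2 : ∑ y : ↥(SL (piY π p πW) M τ M),
      conjInd ((SL (piY π p πW) M τ M).subtype y) g * thY π p M πW τ θ ν y =
      ∑ y : ↥(SL π M τ M) × πW.ker, (if y.2 = w then
        conjInd (y.1 : L) (g : L × W).1 * (θ y.1 * ((ν y.2 : ℂˣ) : ℂ)) else 0) := by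
    refine Fintype.sum_equiv (eY hM τ).toEquiv _ _ ?_
    intro x
    obtain ⟨y, rfl⟩ := (eY (πW := πW) hM τ).symm.surjective x
    obtain ⟨a, z⟩ := y
    change conjInd ((mk hM τ a z : ↥(SL (piY π p πW) M τ M)) : fpr (p.comp π) πW) g *
      thY π p M πW τ θ ν (mk hM τ a z) =
      if z = w then conjInd (a : L) (g : L × W).1 * (θ a * ((ν z : ℂˣ) : ℂ)) else 0
    rw [thY_mk]
    by_cases hz : z = w
    · rw [if_pos hz]
      congr 1
      apply conjInd_congr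
      rw [isConj_mk hπW hc hM τ a z g]
      constructor
      · exact fun h => h.1
      · exact fun h => ⟨h, by rw [hz]; exact hw⟩
    · rw [if_neg hz, conjInd, if_neg, zero_mul]
      intro h
      rw [isConj_mk hπW hc hM τ a z g] at h
      apply hz
      apply Subtype.ext
      rw [h.2, hw]
  rw [h2, Fintype.sum_prod_type, Finset.mul_sum]
  refine Finset.sum_congr rfl fun a _ => ?_
  rw [Finset.sum_ite_eq' Finset.univ w]
  rw [if_pos (Finset.mem_univ _)]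
  change conjInd (a : L) (g : L × W).1 * (θ a * ((ν w : ℂˣ) : ℂ)) =
    ((ν w : ℂˣ) : ℂ) * (conjInd (a : L) (g : L × W).1 * θ a)
  ring

theorem ovl_thY (hM : ∀ k, p k = 1 ↔ k ∈ M) (τ : Finset (Subgroup M)) (μ : π.ker →* ℂˣ)
    (ν : πW.ker →* ℂˣ) (θ : ↥(SL π M τ M) → ℂ) :
    OvL (piY π p πW).ker (muY π p πW μ ν) _ (thY π p M πW τ θ ν) ↔ OvL π.ker μ _ θ := by
  constructor
  · intro h s t hs
    have hs' : ((rs hM τ s : ↥(SL (piY π p πW) M τ M)) : fpr (p.comp π) πW) ∈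
        (piY π p πW).ker := hs
    have h1 := h (rs hM τ s) (rs hM τ t) hs'
    rw [← map_mul] at h1
    change thY π p M πW τ θ ν (mk hM τ (s * t) 1) =
      ((muY π p πW μ ν ⟨(rs hM τ s : ↥(SL (piY π p πW) M τ M)), hs'⟩ : ℂˣ) : ℂ) *
        thY π p M πW τ θ ν (mk hM τ t 1) at h1
    have h5 : muY π p πW μ ν ⟨(rs hM τ s : ↥(SL (piY π p πW) M τ M)), hs'⟩ =
      μ ⟨(s : L), hs⟩ * ν 1 := rfl
    rw [thY_mk, thY_mk, h5, map_one, Units.val_one, mul_one, mul_one, mul_one] at h1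
    exact h1
  · intro h s t hs
    have h1 : muY π p πW μ ν ⟨(s : fpr (p.comp π) πW), hs⟩ =
      μ ⟨((eY hM τ s).1 : L), hs⟩ * ν (eY hM τ s).2 := rfl
    rw [h1, thY_eq hM τ θ ν (s * t), thY_eq hM τ θ ν t, map_mul]
    change θ ((eY hM τ s).1 * (eY hM τ t).1) *
      ((ν ((eY hM τ s).2 * (eY hM τ t).2) : ℂˣ) : ℂ) = _
    rw [h (eY hM τ s).1 (eY hM τ t).1 hs, map_mul, Units.val_mul, Units.val_mul]
    ring

/-- The conditions on the pairs correspond to each other. -/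
theorem pr_thY (hπW : Function.Surjective πW) (hc : πW.ker ≤ Subgroup.center W)
    (hM : ∀ k, p k = 1 ↔ k ∈ M) (τ : Finset (Subgroup M)) (μ : π.ker →* ℂˣ)
    (ν : πW.ker →* ℂˣ) (ω : L → (integralClosure ℤ ℂ) ⧸ 𝔐) {θ : ↥(SL π M τ M) → ℂ}
    (hθ : IsIrr θ) :
    PrU 𝔐 (piY π p πW) (muY π p πW μ ν) p M (omY 𝔐 π p πW ν ω) τ (thY π p M πW τ θ ν) ↔
      PrU 𝔐 π μ p M ω τ θ := by
  constructor
  · intro h
    refine ⟨hθ, (ovl_thY hM τ μ ν θ).mp h.ovl, ?_, h.sj, ?_⟩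
    · intro g hg
      have hg0 : π g ∈ M := hg
      have hg1 : p (π g) = πW 1 := by
        rw [(hM _).mpr hg0, map_one]
      have h1 := h.cn ⟨(g, 1), hg1⟩ hg0
      rw [cen_thY 𝔐 hπW hc hM τ ν hθ ⟨(g, 1), hg1⟩ 1 rfl] at h1
      have h2 : omY 𝔐 π p πW ν ω ⟨(g, 1), hg1⟩ = red 𝔐 ((ν 1 : ℂˣ) : ℂ) * ω g := by
        have h3 : ((⟨(g, 1), hg1⟩ : fpr (p.comp π) πW) : L × W).2 ∈ πW.ker := πW.ker.one_mem
        rw [omY, dif_pos h3]
        rfl
      rw [h2, map_one, Units.val_one, red_one, one_mul, one_mul] at h1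
      exact h1
    · intro t ht a b hab
      obtain ⟨u, hu⟩ := hπW (p (π t))
      have h1 := h.iv ⟨(t, u), hu.symm⟩ ht (rs hM τ a) (rs hM τ b) (by
        apply Subtype.ext
        apply Prod.ext
        · exact hab
        · change (1 : W) = u * 1 * u⁻¹
          rw [mul_one, mul_inv_cancel])
      change thY π p M πW τ θ ν (mk hM τ b 1) = thY π p M πW τ θ ν (mk hM τ a 1) at h1
      rw [thY_mk, thY_mk, map_one, Units.val_one, mul_one, mul_one] at h1
      exact h1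
  · intro h
    refine ⟨irr_thY hM τ ν hθ, (ovl_thY hM τ μ ν θ).mpr h.ovl, ?_, h.sj, ?_⟩
    · intro g hg
      have hg2 : (g : L × W).2 ∈ πW.ker := mem2 hM hg
      rw [cen_thY 𝔐 hπW hc hM τ ν hθ g ⟨_, hg2⟩ rfl, omY, dif_pos hg2,
        h.cn (g : L × W).1 hg]
    · intro t ht a b hab
      have h1 : ((eY hM τ b).1 : L) = (t : L × W).1 * ((eY hM τ a).1 : L) * (t : L × W).1⁻¹ :=
        congrArg (fun x : fpr (p.comp π) πW => (x : L × W).1) hab
      have h2 : ((eY hM τ b).2 : W) = (t : L × W).2 * ((eY hM τ a).2 : W) * (t : L × W).2⁻¹ :=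
        congrArg (fun x : fpr (p.comp π) πW => (x : L × W).2) hab
      have h3 : (eY hM τ b).2 = (eY hM τ a).2 := by
        apply Subtype.ext
        rw [h2, (Subgroup.mem_center_iff.mp (hc (eY hM τ a).2.2) (t : L × W).2), mul_assoc,
          mul_inv_cancel, mul_one]
      rw [thY_eq hM τ θ ν a, thY_eq hM τ θ ν b, h3,
        h.iv (t : L × W).1 ht (eY hM τ a).1 (eY hM τ b).1 h1]

end Irr

end FBB

/-- FBB: the fixed pairs of the fibre product. -/
theorem FBB_thm : Stmt_FBB := by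
  classical
  intro L K H W _ _ _ _ _ _ _ _ 𝔐 ℓ _ _ _ π _ _ μ M _ p _ hM ω πW hπW hc ν τ f
  symm
  refine Finset.sum_nbij (fun θ => thY π p M πW τ θ ν) ?_ ?_ ?_ ?_
  · intro θ hθ
    rw [Finset.mem_filter, mem_irrF] at hθ ⊢
    exact ⟨FBB.irr_thY hM τ ν hθ.1, (FBB.pr_thY 𝔐 hπW hc hM τ μ ν ω hθ.1).mpr hθ.2⟩
  · intro θ _ θ' _ h
    funext a
    have h1 := congrFun h (FBB.mk hM τ a 1)
    simp only at h1
    rw [FBB.thY_mk, FBB.thY_mk, map_one, Units.val_one, mul_one, mul_one] at h1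
    exact h1
  · intro η hη
    rw [Finset.mem_coe, Finset.mem_filter, mem_irrF] at hη
    have h1 := FBB.eq_thY hM τ μ ν hη.2.ovl
    have h2 := FBB.irr_rs hM τ μ ν hη.1 hη.2.ovl
    refine ⟨fun a => η (FBB.rs hM τ a), ?_, h1.symm⟩
    rw [Finset.mem_coe, Finset.mem_filter, mem_irrF]
    refine ⟨h2, (FBB.pr_thY 𝔐 hπW hc hM τ μ ν ω h2).mp ?_⟩
    rw [← h1]
    exact hη.2
  · intro θ _
    rfl

end Pool.Agent.DPF


end

section

set_option linter.unusedSectionVars false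

/-!
# Dade's conjecture for `G ^ Ω ⋊ R`: module MIND
-/

namespace Pool.Agent.DP

open Pool.Agent.Lib_helper13 Representation

namespace MIND

variable {K O G : Type} [Group K] [Finite K] [MulAction K O] [Fintype O] [DecidableEq O]
  [Group G] [Fintype G]

theorem rel_smul {π : Setoid O} {k : K} (hk : k ∈ Kp K π) (o : O) : π (k • o) o := by
  have h : k⁻¹ ∈ Kp K π := (Kp K π).inv_mem hk
  have h2 := h o
  rwa [inv_inv] at h2

theorem conj_iN_mk (k : K) (x n : O → G) :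
    (⟨fun o => x o * n o * (x (k⁻¹ • o))⁻¹, k⟩ : Gam K O G) =
      iN K O G x * ⟨n, k⟩ * (iN K O G x)⁻¹ := by
  rw [eq_mul_inv_iff_mul_eq]
  apply SemidirectProduct.ext
  · funext o
    change x o * n o * (x (k⁻¹ • o))⁻¹ * x (k⁻¹ • o) = x o * n ((1 : K)⁻¹ • o)
    rw [inv_mul_cancel_right, inv_one, one_smul]
  · change k * 1 = 1 * k
    rw [mul_one, one_mul]

theorem conjInd_inv {X : Type} [Group X] (i : Gam K O G →* X) (g : X) (k : K) (x n : O → G) :
    conjInd (i ⟨fun o => x o * n o * (x (k⁻¹ • o))⁻¹, k⟩) g = conjInd (i ⟨n, k⟩) g := by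
  rw [conj_iN_mk, map_mul, map_mul, map_inv, conjInd_conj]

theorem conjInd_class {X : Type} [Group X] (i : Gam K O G →* X) (g : X) (a x : Gam K O G) :
    conjInd (i (a * x * a⁻¹)) g = conjInd (i x) g := by
  rw [map_mul, map_mul, map_inv, conjInd_conj]

end MIND

theorem MIND_thm (h1 : Stmt_AA) (h2 : Stmt_AACL) : Stmt_MIND := by
  intro K O G X _ _ _ _ _ _ _ _ 𝔐 ℓ _ hM hℓ d e i ω π b S S' θ θ' m m' M M' hS hS'
  have hAA : ∀ (k : Kp K π) (g : X),
      IsIntegral ℤ (aS S θ m M (MulAction.toPerm (k : K))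
        (fun n => conjInd (i ⟨n, (k : K)⟩) g)) ∧
      IsIntegral ℤ (aS S' θ' m' M' (MulAction.toPerm (k : K))
        (fun n => conjInd (i ⟨n, (k : K)⟩) g)) ∧
      red 𝔐 (aS S θ m M (MulAction.toPerm (k : K))
        (fun n => conjInd (i ⟨n, (k : K)⟩) g)) =
      red 𝔐 (aS S' θ' m' M' (MulAction.toPerm (k : K))
        (fun n => conjInd (i ⟨n, (k : K)⟩) g)) := by
    intro k g
    have hk : ∀ o : O, π ((MulAction.toPerm (k : K) : Equiv.Perm O) o) o :=
      fun o => MIND.rel_smul k.2 o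
    refine h1 O G 𝔐 ℓ hM hℓ (MulAction.toPerm (k : K)) S S' θ θ' m m' M M'
      (fun o => hS.cS _ _ (hk o)) (fun o => hS.cθ _ _ (hk o)) (fun o => hS.cm _ _ (hk o))
      (fun o => hS.cM _ _ (hk o)) (fun o => hS'.cS _ _ (hk o)) (fun o => hS'.cθ _ _ (hk o))
      (fun o => hS'.cm _ _ (hk o)) (fun o => hS'.cM _ _ (hk o)) hS.irr hS'.irr hS.md hS'.md
      hS.dz hS'.dz (fun o => (hS.cg o).trans (hS'.cg o).symm) _ ?_ ?_
    · intro x n
      exact MIND.conjInd_inv i g (k : K) x n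
    · intro n
      exact isIntegral_conjInd _ _
  have hcl : ∀ (g : X) (l k : Kp K π),
      aS S θ m M (MulAction.toPerm ((l * k * l⁻¹ : Kp K π) : K))
        (fun n => conjInd (i ⟨n, ((l * k * l⁻¹ : Kp K π) : K)⟩) g) =
      aS S θ m M (MulAction.toPerm (k : K)) (fun n => conjInd (i ⟨n, (k : K)⟩) g) := by
    intro g l k
    have hl : ∀ o : O, π ((l : K) • o) o := fun o => MIND.rel_smul l.2 o
    exact h2 K O G S θ m M (l : K) (k : K) (fun o => hS.cS _ _ (hl o))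
      (fun o => hS.cm _ _ (hl o)) (fun o => hS.cM _ _ (hl o)) (fun y => conjInd (i y) g)
      (fun a x => MIND.conjInd_class i g a x)
  have hcl' : ∀ (g : X) (l k : Kp K π),
      aS S' θ' m' M' (MulAction.toPerm ((l * k * l⁻¹ : Kp K π) : K))
        (fun n => conjInd (i ⟨n, ((l * k * l⁻¹ : Kp K π) : K)⟩) g) =
      aS S' θ' m' M' (MulAction.toPerm (k : K)) (fun n => conjInd (i ⟨n, (k : K)⟩) g) := by
    intro g l k
    have hl : ∀ o : O, π ((l : K) • o) o := fun o => MIND.rel_smul l.2 o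
    exact h2 K O G S' θ' m' M' (l : K) (k : K) (fun o => hS'.cS _ _ (hl o))
      (fun o => hS'.cm _ _ (hl o)) (fun o => hS'.cM _ _ (hl o)) (fun y => conjInd (i y) g)
      (fun a x => MIND.conjInd_class i g a x)
  have hprime : 𝔐.IsPrime := hM.isPrime
  have key : ∀ (η : Kp K π → ℂ), IsIrr η → ∀ g : X,
      red 𝔐 (wt η (fun k => aS S θ m M (MulAction.toPerm (k : K))
        (fun n => conjInd (i ⟨n, (k : K)⟩) g))) =
      red 𝔐 (wt η (fun k => aS S' θ' m' M' (MulAction.toPerm (k : K))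
        (fun n => conjInd (i ⟨n, (k : K)⟩) g))) := by
    intro η hη g
    exact red_wt_eq 𝔐 hℓ hη (⊥ : Subgroup (Kp K π)) IsPGroup.of_bot _ _
      (fun l k => hcl g l k) (fun k => (hAA k g).1) (fun l k => hcl' g l k)
      (fun k => (hAA k g).2.1) (fun k _ => (hAA k g).2.2)
  have hset : ∀ η : Kp K π → ℂ,
      (IsIrr η ∧ (∃ d', HasDefect ℓ η d' ∧ e + d' = d) ∧
        ∀ g, red 𝔐 (wt η (fun k => aS S θ m M (MulAction.toPerm (k : K))
          (fun n => conjInd (i ⟨n, (k : K)⟩) g))) = ω g) ↔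
      (IsIrr η ∧ (∃ d', HasDefect ℓ η d' ∧ e + d' = d) ∧
        ∀ g, red 𝔐 (wt η (fun k => aS S' θ' m' M' (MulAction.toPerm (k : K))
          (fun n => conjInd (i ⟨n, (k : K)⟩) g))) = ω g) := by
    intro η
    constructor
    · rintro ⟨ha, hb, hc⟩
      exact ⟨ha, hb, fun g => (key η ha g).symm.trans (hc g)⟩
    · rintro ⟨ha, hb, hc⟩
      exact ⟨ha, hb, fun g => (key η ha g).trans (hc g)⟩
  unfold NN
  rw [Nat.card_congr (Equiv.subtypeEquivRight hset)]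

end Pool.Agent.DP


end

section

/-!
# Theorem R: the inertia group (module PERAR)
-/

set_option linter.unusedSectionVars false

namespace Pool.Agent.DP

open Pool.Agent.Lib_helper13 Representation

namespace PERAR

section Wb

variable {O G B : Type*} [Group G] [Group B] (κ : B →* MulAut G)

theorem prj_wB (g : Gam (Equiv.Perm O) O B) (D : Subgroup (O → G)) (o : O) :
    prj o (D.map (wB κ O g).toMonoidHom) =
      (prj (g.right⁻¹ • o) D).map (κ (g.left o)).toMonoidHom := by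
  rw [prj, prj, Subgroup.map_map, Subgroup.map_map]
  rfl

theorem pK_wB (g : Gam (Equiv.Perm O) O B) (K : O → Subgroup G) :
    (pK K).map (wB κ O g).toMonoidHom =
      pK (fun o => (K (g.right⁻¹ • o)).map (κ (g.left o)).toMonoidHom) := by
  ext x
  rw [Subgroup.mem_map, mem_pK]
  constructor
  · rintro ⟨y, hy, rfl⟩ o
    rw [mem_pK] at hy
    exact ⟨y (g.right⁻¹ • o), hy _, rfl⟩
  · intro h
    choose y hy hy' using h
    refine ⟨fun k => y (g.right • k), ?_, ?_⟩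
    · rw [mem_pK]
      intro k
      have h1 := hy (g.right • k)
      rwa [inv_smul_smul] at h1
    · ext o
      change κ (g.left o) (y (g.right • g.right⁻¹ • o)) = x o
      rw [smul_inv_smul]
      exact hy' o

theorem cl_wB (g : Gam (Equiv.Perm O) O B) (D : Subgroup (O → G)) :
    cl (D.map (wB κ O g).toMonoidHom) = (cl D).map (wB κ O g).toMonoidHom := by
  rw [cl, cl, pK_wB]
  congr 1
  ext1 o
  exact prj_wB κ g D o

theorem prj_wB_fixed {g : Gam (Equiv.Perm O) O B} {D : Subgroup (O → G)} (hD : cl D = D) :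
    D.map (wB κ O g).toMonoidHom = D ↔
      ∀ o, (prj (g.right⁻¹ • o) D).map (κ (g.left o)).toMonoidHom = prj o D := by
  constructor
  · intro h o
    rw [← prj_wB, h]
  · intro h
    rw [← hD, ← cl_wB, cl, cl]
    congr 1
    ext1 o
    rw [prj_wB, h]

end Wb

section Tr

variable {O G : Type*} [Group G] [Fintype O] [DecidableEq O] [Fintype G]
  {τ : Finset (Subgroup (O → G))} {a b : O}

theorem comp_tr {e : MulAut G} (h : ∀ D ∈ τ, (prj a D).map e.toMonoidHom = prj b D) :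
    mapCh e.toMonoidHom (comp τ a) = comp τ b := by
  ext E
  rw [mem_mapCh, mem_comp]
  constructor
  · rintro ⟨D', hD', rfl⟩
    obtain ⟨h1, D, hD, rfl⟩ := mem_comp.mp hD'
    refine ⟨?_, D, hD, (h D hD).symm⟩
    intro h2
    exact h1 ((Subgroup.map_eq_bot_iff_of_injective _ e.injective).mp h2)
  · rintro ⟨h1, D, hD, rfl⟩
    refine ⟨prj a D, mem_comp.mpr ⟨?_, D, hD, rfl⟩, h D hD⟩
    intro h2
    rw [← h D hD, h2, Subgroup.map_bot] at h1
    exact h1 rfl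

theorem stb_tr {e : MulAut G} (h : ∀ D ∈ τ, (prj a D).map e.toMonoidHom = prj b D) :
    (stb (comp τ a)).map e.toMonoidHom = stb (comp τ b) := by
  rw [← comp_tr h]
  exact (stb_mapCh_equiv e (comp τ a)).symm

theorem irrOn_tr {S S' : Subgroup G} {f : G → ℂ} {e : MulAut G}
    (hS : S'.map e.toMonoidHom = S) (hf : IrrOn S f) : IrrOn S' (fun x => f (e x)) := by
  subst hS
  refine ⟨?_, ?_⟩
  · have hF : Fintype (Subgroup.map e.toMonoidHom S') := Fintype.ofFinite _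
    have hF' : Fintype S' := Fintype.ofFinite _
    exact hf.1.comp_mulEquiv (e.subgroupMap S')
  · intro x hx
    apply hf.2
    rintro ⟨y, hy, hy'⟩
    apply hx
    have h2 : y = x := e.injective hy'
    rwa [← h2]

end Tr

section Ys

variable {O G B Y K : Type} [Group G] [Group B] [Group Y] [Group K] {ι : G →* B}
  {κ : B →* MulAut G} {j : (O → G) →* Y} {p : Y →* K} {φ : Y →* Gam (Equiv.Perm O) O B}
  {τ : Finset (Subgroup (O → G))} {θ : O → G → ℂ}

theorem mem_YS_iff (h : ExtS ι κ j p φ) {y : Y} :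
    y ∈ YS j τ ↔ ∀ D ∈ τ, D.map (wB κ O (φ y)).toMonoidHom = D := by
  have hc : (MulAut.conj y).toMonoidHom.comp j = j.comp (wB κ O (φ y)).toMonoidHom := by
    apply MonoidHom.ext
    intro a
    exact (h.cl.act y a).symm
  rw [mem_stb]
  constructor
  · intro h3 D hD
    have h1 := h3 (D.map j) (mem_mapCh.mpr ⟨D, hD, rfl⟩)
    rw [Subgroup.map_map, hc, ← Subgroup.map_map] at h1
    exact Subgroup.map_injective h.cl.inj h1
  · intro h3 E hE
    obtain ⟨D, hD, rfl⟩ := mem_mapCh.mp hE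
    rw [Subgroup.map_map, hc, ← Subgroup.map_map, h3 D hD]

variable [Fintype O] [DecidableEq O] [Fintype G]

theorem mem_YS_prj (h : ExtS ι κ j p φ) (hτ : ∀ D ∈ τ, cl D = D) {y : Y} :
    y ∈ YS j τ ↔ ∀ o, ∀ D ∈ τ,
      (prj ((φ y).right⁻¹ • o) D).map (κ ((φ y).left o)).toMonoidHom = prj o D := by
  rw [mem_YS_iff h]
  constructor
  · intro h3 o D hD
    exact (prj_wB_fixed κ (hτ D hD)).mp (h3 D hD) o
  · intro h3 D hD
    exact (prj_wB_fixed κ (hτ D hD)).mpr fun o => h3 o D hD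

theorem inY_le (h : ExtS ι κ j p φ) (hτ : ∀ D ∈ τ, cl D = D) : InY κ φ τ θ ≤ YS j τ := by
  intro y hy
  rw [mem_YS_prj h hτ]
  intro o D hD
  exact (hy o).1 D hD

theorem mem_inert (h2 : Stmt_IRRPI) (h : ExtS ι κ j p φ) (hτ : ∀ D ∈ τ, cl D = D)
    (hθ : ∀ o, IrrOn (stb (comp τ o)) (θ o)) (y : YS j τ) :
    y ∈ inert (cS h.cl τ) (fun a => ∏ o, θ o ((a : O → G) o)) ↔ (y : Y) ∈ InY κ φ τ θ := by
  obtain ⟨y, hy⟩ := y
  have hy' := (mem_YS_prj h hτ).mp hy
  set g := φ y with hg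
  constructor
  · intro h0 o
    change trB κ τ θ (g.right⁻¹ • o) o (g.left o)
    refine ⟨hy' o, ?_⟩
    have h3 : ∀ a : stb τ, ∏ o, θ o (κ (g.left o) ((a : O → G) (g.right⁻¹ • o))) =
        ∏ o, θ o ((a : O → G) o) := h0
    have hk : ∀ o : O, g.right⁻¹ • g.right • o = o := fun o => inv_smul_smul _ _
    have h4 : θ = fun o x => θ (g.right • o) (κ (g.left (g.right • o)) x) := by
      apply (h2 O G (fun o => stb (comp τ o)) (stb τ) (stb_closed hτ)).2.1 _ _ hθ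
      · intro o
        apply irrOn_tr (S := stb (comp τ (g.right • o))) _ (hθ _)
        apply stb_tr
        intro D hD
        have h5 := hy' (g.right • o) D hD
        rw [hk] at h5
        exact h5
      · intro a
        rw [← h3 a]
        rw [← Equiv.prod_comp (MulAction.toPerm g.right) (fun o => θ o (κ (g.left o)
          ((a : O → G) (g.right⁻¹ • o))))]
        refine Finset.prod_congr rfl fun o _ => ?_
        change _ = θ (g.right • o) (κ (g.left (g.right • o)) ((a : O → G) o))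
        rw [MulAction.toPerm_apply, hk]
    intro x
    have h5 := congrFun (congrFun h4 (g.right⁻¹ • o)) x
    simp only [smul_inv_smul] at h5
    exact h5.symm
  · intro h0 a
    have h0' : ∀ o, trB κ τ θ (g.right⁻¹ • o) o (g.left o) := h0
    change ∏ o, θ o (κ (g.left o) ((a : O → G) (g.right⁻¹ • o))) = ∏ o, θ o ((a : O → G) o)
    rw [← Equiv.prod_comp (MulAction.toPerm g.right⁻¹) (fun o => θ o ((a : O → G) o))]
    refine Finset.prod_congr rfl fun o _ => ?_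
    exact (h0' o).2 _

end Ys

end PERAR

open _root_.Pool.Agent.DP.PERAR in
theorem PERAR_thm (h1 : Stmt_TRBR) : Stmt_PERAR := by
  intro O G B C Y K _ _ _ _ _ _ _ _ _ _ _ ℓ _ ι κ ρ hL j p φ h τ hτ' θ hθ
  have h2 : Stmt_IRRPI := IRRPI_thm
  have hτ : ∀ D ∈ τ, cl D = D := (mem_ClCh.mp hτ').2
  have hρ : ∀ g, ρ (ι g) = 1 := fun g => (hL.cl.ker _).mpr ⟨g, rfl⟩
  obtain ⟨ht1, ht2⟩ := h1 O G B C ⊥ ℓ ι κ ρ hL τ θ hθ
  refine ⟨inY_le h hτ, mem_inert h2 h hτ hθ, ?_, ?_, ?_⟩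
  · ext k
    constructor
    · rintro ⟨y, hy, rfl⟩
      exact ⟨(y : Y), (mem_inert h2 h hτ hθ y).mp hy, rfl⟩
    · rintro ⟨y, hy, rfl⟩
      exact ⟨⟨y, inY_le h hτ hy⟩, (mem_inert h2 h hτ hθ _).mpr hy, rfl⟩
  · -- the order
    have e1 : Nat.card (inert (cS h.cl τ) (fun a => ∏ o, θ o ((a : O → G) o))) =
        Nat.card (InY κ φ τ θ) :=
      Nat.card_congr
        { toFun := fun y => ⟨((y : YS j τ) : Y), (mem_inert h2 h hτ hθ _).mp y.2⟩
          invFun := fun y => ⟨⟨y, inY_le h hτ y.2⟩, (mem_inert h2 h hτ hθ _).mpr y.2⟩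
          left_inv := fun _ => rfl
          right_inv := fun _ => rfl }
    rw [e1]
    set f : InY κ φ τ θ →* K := p.comp (InY κ φ τ θ).subtype with hf
    have e2 : Nat.card (InY κ φ τ θ) = Nat.card f.range * Nat.card f.ker := by
      rw [Subgroup.card_eq_card_quotient_mul_card_subgroup f.ker,
        Nat.card_congr (QuotientGroup.quotientKerEquivRange f).toEquiv]
    have e3 : f.range = KB κ p φ τ θ := by
      rw [hf, MonoidHom.range_comp, Subgroup.range_subtype]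
      rfl
    rw [e2, e3]
    congr 1
    -- the kernel
    have e4 : Nat.card f.ker = Nat.card (∀ o, {g : G // trB κ τ θ o o (ι g)}) := by
      have hin : ∀ n : O → G, j n ∈ InY κ φ τ θ ↔ ∀ o, trB κ τ θ o o (ι (n o)) := by
        intro n
        change (∀ o, trB κ τ θ ((φ (j n)).right⁻¹ • o) o ((φ (j n)).left o)) ↔ _
        rw [h.jn]
        simp
      symm
      refine Nat.card_congr (Equiv.ofBijective (fun n => (⟨⟨j (fun o => (n o).1),
        (hin _).mpr fun o => (n o).2⟩, ?_⟩ : f.ker)) ⟨?_, ?_⟩)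
      · rw [MonoidHom.mem_ker]
        exact (h.cl.ker _).mpr ⟨_, rfl⟩
      · intro n n' hn
        have hn1 : j (fun o => (n o).1) = j (fun o => (n' o).1) :=
          congrArg (fun z : f.ker => ((z : InY κ φ τ θ) : Y)) hn
        have hn2 := h.cl.inj hn1
        funext o
        exact Subtype.ext (congrFun hn2 o)
      · rintro ⟨⟨y, hy⟩, hy'⟩
        rw [MonoidHom.mem_ker] at hy'
        obtain ⟨n, rfl⟩ := (h.cl.ker y).mp hy'
        exact ⟨fun o => ⟨n o, (hin n).mp hy o⟩, rfl⟩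
    rw [e4, Nat.card_pi]
    refine Finset.prod_congr rfl fun o _ => ?_
    have e5 := (ht2 o o 1 (trB.one κ τ θ o)).2.2.2.1
    rw [← e5]
    refine Nat.card_congr (Equiv.ofBijective (fun g => ⟨ι g.1, g.2, by rw [hρ, map_one]⟩)
      ⟨?_, ?_⟩)
    · intro g g' hg
      exact Subtype.ext (hL.cl.inj (congrArg Subtype.val hg))
    · rintro ⟨b, hb, hb'⟩
      rw [map_one] at hb'
      obtain ⟨g, rfl⟩ := (hL.cl.ker b).mp hb'
      exact ⟨⟨g, hb⟩, rfl⟩
  · rintro o _ ⟨y, hy, hyo, rfl⟩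
    obtain ⟨y', hy', hyy⟩ := hy
    have h3 : p (y * y'⁻¹) = 1 := by
      rw [map_mul, map_inv, hyy, mul_inv_cancel]
    obtain ⟨n, hn⟩ := (h.cl.ker _).mp h3
    have h4 : y = j n * y' := by rw [hn, inv_mul_cancel_right]
    have h5 : (φ y).right = (φ y').right := by
      rw [h4, map_mul, h.jn]
      simp
    have h6 : (φ y).left o = ι (n o) * (φ y').left o := by
      rw [h4, map_mul, h.jn]
      simp
    have h7 : (φ y').right⁻¹ • o = o := by
      rw [inv_smul_eq_iff, ← h5, hyo]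
    have h8 := hy' o
    rw [h7] at h8
    exact ⟨(φ y').left o, (ht1 o _).mp h8, by rw [h6, map_mul, hρ, one_mul]⟩

end Pool.Agent.DP


end

section

/-!
# DER: the local group of an outer `ℓ`-subgroup
-/

namespace Pool.Agent.DPC

open Pool.Agent.DP Pool.Agent.Lib_helper13 Representation
open Pool.Agent.Lib_helper13.Dade (pCore DadeHolds dadeSum)

namespace DER

section

variable {G B C : Type} [Group G] [Group B] [Group C] {ℓ : ℕ}
  {ι : G →* B} {κ : B →* MulAut G} {ρ : B →* C}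

theorem comm_of (h : LocW ℓ ι κ ρ) (x y : C) : x * y = y * x := by
  obtain ⟨g, hg⟩ := h.cyc.exists_generator
  obtain ⟨m, rfl⟩ := Subgroup.mem_zpowers_iff.mp (hg x)
  obtain ⟨n, rfl⟩ := Subgroup.mem_zpowers_iff.mp (hg y)
  rw [← zpow_add, ← zpow_add, add_comm]

/-- An element of `P` with trivial image is trivial. -/
theorem eq_one_of (h : LocW ℓ ι κ ρ) {P : Subgroup B} (hP : P ⊓ ι.range = ⊥) {x : B}
    (hx : x ∈ P) (hr : ρ x = 1) : x = 1 := by
  have h1 : x ∈ P ⊓ ι.range := ⟨hx, (h.cl.ker x).mp hr⟩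
  rw [hP] at h1
  exact h1

theorem rho_comm (h : LocW ℓ ι κ ρ) (x y : B) : ρ (x * y * x⁻¹ * y⁻¹) = 1 := by
  rw [map_mul, map_mul, map_mul, map_inv, map_inv, comm_of h (ρ x) (ρ y), mul_inv_cancel_right,
    mul_inv_cancel]

theorem comm_of_mem (h : LocW ℓ ι κ ρ) {P : Subgroup B} (hP : P ⊓ ι.range = ⊥) {x y : B}
    (hx : x * y * x⁻¹ * y⁻¹ ∈ P) : x * y = y * x := by
  have h1 := eq_one_of h hP hx (rho_comm h x y)
  have h2 : x * y = (x * y * x⁻¹ * y⁻¹) * (y * x) := by group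
  rw [h2, h1, one_mul]

theorem P_le (h : LocW ℓ ι κ ρ) {P : Subgroup B} (hP : P ⊓ ι.range = ⊥) :
    P ≤ Subgroup.centralizer (P : Set B) := by
  intro x hx
  rw [Subgroup.mem_centralizer_iff]
  intro y hy
  exact comm_of_mem h hP (P.mul_mem (P.mul_mem (P.mul_mem hy hx) (P.inv_mem hy)) (P.inv_mem hx))

theorem io_mem (h : LocW ℓ ι κ ρ) {P : Subgroup B} {g : G} :
    ι g ∈ Subgroup.centralizer (P : Set B) ↔ g ∈ FX κ P := by
  rw [Subgroup.mem_centralizer_iff, mem_FX]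
  constructor
  · intro h1 b hb
    apply h.cl.inj
    rw [h.cl.act, h1 b hb, mul_inv_cancel_right]
  · intro h1 b hb
    have h2 := h.cl.act b g
    rw [h1 b hb, eq_mul_inv_iff_mul_eq] at h2
    exact h2.symm

theorem fx_act {P : Subgroup B} {b : B} (hb : b ∈ Subgroup.centralizer (P : Set B)) {g : G}
    (hg : g ∈ FX κ P) : κ b g ∈ FX κ P := by
  rw [mem_FX] at hg ⊢
  intro p hp
  have h1 : p * b = b * p := (Subgroup.mem_centralizer_iff.mp hb) p hp
  calc κ p (κ b g) = κ (p * b) g := by rw [map_mul]; rfl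
    _ = κ b (κ p g) := by rw [h1, map_mul]; rfl
    _ = κ b g := by rw [hg p hp]

variable (κ) in
/-- The action of the centralizer of `P` on the fixed points. -/
def kS (P : Subgroup B) : ↥(Subgroup.centralizer (P : Set B)) →* MulAut ↥(FX κ P) where
  toFun b :=
    { toFun := fun g => ⟨κ b (g : G), fx_act b.2 g.2⟩
      invFun := fun g => ⟨κ ((b : B)⁻¹) (g : G), fx_act (inv_mem b.2) g.2⟩
      left_inv := by
        intro g
        apply Subtype.ext
        change κ ((b : B)⁻¹) (κ b g) = g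
        rw [map_inv, MulAut.inv_apply_self]
      right_inv := by
        intro g
        apply Subtype.ext
        change κ b (κ ((b : B)⁻¹) g) = g
        rw [map_inv, MulAut.apply_inv_self]
      map_mul' := by
        intro x y
        apply Subtype.ext
        exact map_mul (κ b) (x : G) (y : G) }
  map_one' := by
    ext g
    change κ 1 (g : G) = g
    rw [map_one]
    rfl
  map_mul' := by
    intro x y
    ext g
    change κ ((x : B) * y) (g : G) = κ x (κ y g)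
    rw [map_mul]
    rfl

theorem kS_apply (P : Subgroup B) (b : Subgroup.centralizer (P : Set B)) (g : FX κ P) :
    ((kS κ P b g : FX κ P) : G) = κ b g := rfl

/-- The subgroup `P` of its centralizer. -/
abbrev PS (P : Subgroup B) : Subgroup ↥(Subgroup.centralizer (P : Set B)) :=
  P.subgroupOf (Subgroup.centralizer (P : Set B))

instance (P : Subgroup B) : (PS P).Normal := by
  constructor
  intro n hn g
  have h1 : (n : B) * g = g * n := (Subgroup.mem_centralizer_iff.mp g.2) n hn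
  have h2 : g * n * g⁻¹ = n := by
    apply Subtype.ext
    change (g : B) * n * (g : B)⁻¹ = n
    rw [← h1, mul_inv_cancel_right]
  rw [h2]
  exact hn

/-- The projection. -/
abbrev pi (P : Subgroup B) : ↥(Subgroup.centralizer (P : Set B)) →*
    ↥(Subgroup.centralizer (P : Set B)) ⧸ PS P := QuotientGroup.mk' (PS P)

theorem pi_eq_one (P : Subgroup B) (x : Subgroup.centralizer (P : Set B)) :
    pi P x = 1 ↔ (x : B) ∈ P := by
  change ((x : ↥(Subgroup.centralizer (P : Set B)) ⧸ PS P) = 1) ↔ _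
  rw [QuotientGroup.eq_one_iff]
  exact Subgroup.mem_subgroupOf

variable (κ) in
/-- The action of the quotient. -/
def k1 (P : Subgroup B) : (↥(Subgroup.centralizer (P : Set B)) ⧸ PS P) →* MulAut ↥(FX κ P) :=
  QuotientGroup.lift (PS P) (kS κ P) (by
    intro x hx
    ext g
    rw [kS_apply]
    exact g.2 x (Subgroup.mem_subgroupOf.mp hx))

/-- The embedding. -/
def i1 (h : LocW ℓ ι κ ρ) (P : Subgroup B) :
    ↥(FX κ P) →* (↥(Subgroup.centralizer (P : Set B)) ⧸ PS P) :=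
  (pi P).comp ((ι.comp (FX κ P).subtype).codRestrict _ fun g => (io_mem h).mpr g.2)

theorem i1_apply (h : LocW ℓ ι κ ρ) (P : Subgroup B) (g : FX κ P)
    (x : Subgroup.centralizer (P : Set B)) (hx : (x : B) = ι g) : pi P x = i1 h P g := by
  unfold i1
  rw [MonoidHom.comp_apply]
  congr 1
  exact Subtype.ext hx

theorem i1_norm (h : LocW ℓ ι κ ρ) (P : Subgroup B) (x : Subgroup.centralizer (P : Set B))
    (a : FX κ P) : i1 h P (k1 κ P (pi P x) a) = pi P x * i1 h P a * (pi P x)⁻¹ := by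
  have h1 : i1 h P a = pi P ⟨ι a, (io_mem h).mpr a.2⟩ := (i1_apply h P a _ rfl).symm
  rw [h1, ← map_mul, ← map_inv, ← map_mul]
  symm
  apply i1_apply
  change (x : B) * ι a * (x : B)⁻¹ = ι (κ x a)
  rw [h.cl.act]

theorem i1_normal (h : LocW ℓ ι κ ρ) (P : Subgroup B) : (i1 h P).range.Normal := by
  constructor
  rintro _ ⟨a, rfl⟩ y
  obtain ⟨x, rfl⟩ := QuotientGroup.mk'_surjective (PS P) y
  exact ⟨k1 κ P (pi P x) a, i1_norm h P x a⟩

/-- An element of the centralizer with trivial image in `C`. -/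
theorem mem_range_of (h : LocW ℓ ι κ ρ) (P : Subgroup B) (x : Subgroup.centralizer (P : Set B))
    (hx : ρ x = 1) : pi P x ∈ (i1 h P).range := by
  obtain ⟨g, hg⟩ := (h.cl.ker x).mp hx
  have h1 : g ∈ FX κ P := (io_mem h).mp (by rw [hg]; exact x.2)
  exact ⟨⟨g, h1⟩, (i1_apply h P ⟨g, h1⟩ x hg.symm).symm⟩

theorem cyc1 (h : LocW ℓ ι κ ρ) (P : Subgroup B) [(i1 h P).range.Normal] :
    IsCyclic ((↥(Subgroup.centralizer (P : Set B)) ⧸ PS P) ⧸ (i1 h P).range) := by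
  have := h.cyc
  have h1 : IsCyclic ((Subgroup.centralizer (P : Set B)).map ρ) := Subgroup.isCyclic _
  obtain ⟨⟨c, hc⟩, hgen⟩ := h1.exists_generator
  obtain ⟨x0, hx0, hxc⟩ := hc
  refine ⟨⟨((pi P ⟨x0, hx0⟩ : ↥(Subgroup.centralizer (P : Set B)) ⧸ PS P) :
    (↥(Subgroup.centralizer (P : Set B)) ⧸ PS P) ⧸ (i1 h P).range), fun z => ?_⟩⟩
  obtain ⟨y, rfl⟩ := QuotientGroup.mk'_surjective _ z
  obtain ⟨x, rfl⟩ := QuotientGroup.mk'_surjective (PS P) y
  obtain ⟨k, hk⟩ := Subgroup.mem_zpowers_iff.mp (hgen ⟨ρ x, ⟨x, x.2, rfl⟩⟩)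
  refine ⟨k, ?_⟩
  have h2 : ρ x0 ^ k = ρ x := by
    have := congrArg Subtype.val hk
    simp only [SubgroupClass.coe_zpow] at this
    rw [hxc]
    exact this
  have h3 : pi P ((⟨x0, hx0⟩ ^ k)⁻¹ * x) ∈ (i1 h P).range := by
    apply mem_range_of
    change ρ ((x0 ^ k)⁻¹ * (x : B)) = 1
    rw [map_mul, map_inv, map_zpow, h2, inv_mul_cancel]
  change QuotientGroup.mk' (i1 h P).range (pi P ⟨x0, hx0⟩) ^ k =
    QuotientGroup.mk' (i1 h P).range (pi P x)
  rw [← map_zpow, ← map_zpow]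
  rw [QuotientGroup.mk'_eq_mk']
  refine ⟨_, h3, ?_⟩
  rw [← map_mul, mul_inv_cancel_left]

end

end DER

open _root_.Pool.Agent.DPC.DER in
theorem DER_thm : Stmt_DER := by
  intro G B C _ _ _ _ _ ℓ _ ι κ ρ h P hPl hP
  refine ⟨?_, ?_⟩
  · intro b hb
    rw [Subgroup.mem_centralizer_iff]
    intro p hp
    symm
    apply comm_of_mem h hP
    refine P.mul_mem ?_ (P.inv_mem hp)
    rw [← hb]
    exact ⟨p, hp, rfl⟩
  have hn := i1_normal h P
  refine ⟨↥(Subgroup.centralizer (P : Set B)) ⧸ PS P,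
    (↥(Subgroup.centralizer (P : Set B)) ⧸ PS P) ⧸ (i1 h P).range, inferInstance,
    Fintype.ofFinite _, inferInstance, pi P, i1 h P, k1 κ P, QuotientGroup.mk' _, ?_, ?_, ?_, ?_,
    ?_, ?_⟩
  · refine ⟨⟨?_, ?_, ?_⟩, QuotientGroup.mk'_surjective _, cyc1 h P⟩
    · rw [injective_iff_map_eq_one]
      intro g hg
      have h1 : pi P ⟨ι g, (io_mem h).mpr g.2⟩ = 1 := by
        rw [i1_apply h P g _ rfl, hg]
      rw [pi_eq_one] at h1
      have h2 : ι g ∈ P ⊓ ι.range := ⟨h1, ⟨g, rfl⟩⟩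
      rw [hP, Subgroup.mem_bot] at h2
      apply Subtype.ext
      exact h.cl.inj (h2.trans (map_one ι).symm)
    · intro y a
      obtain ⟨x, rfl⟩ := QuotientGroup.mk'_surjective (PS P) y
      exact i1_norm h P x a
    · intro y
      exact QuotientGroup.eq_one_iff y
  · exact QuotientGroup.mk'_surjective _
  · exact pi_eq_one P
  · intro g x hx
    exact i1_apply h P g x hx
  · intro x g
    rfl
  · intro hDH T1 hT1 E1 hE1 hEl hE1r H _ _ q1 hq1 hqk hcore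
    have hS : ∀ x : Subgroup.centralizer (P : Set B), (x : B) ∈ ι.range →
        pi P x ∈ (i1 h P).range := fun x hx => mem_range_of h P x ((h.cl.ker _).mpr hx)
    set S := Subgroup.centralizer (P : Set B) with hSdef
    set E : Subgroup B := (E1.comap (pi P)).map S.subtype with hE
    set T : Subgroup B := (T1.comap (pi P)).map S.subtype ⊔ ι.range with hT
    have hrn : (ι.range).Normal := by
      constructor
      rintro _ ⟨a, rfl⟩ y
      exact ⟨κ y a, h.cl.act y a⟩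
    have hEmem : ∀ x : S, (x : B) ∈ E ↔ pi P x ∈ E1 := by
      intro x
      constructor
      · rintro ⟨y, hy, hyx⟩
        have : y = x := Subtype.ext hyx
        rw [← this]
        exact hy
      · intro hx
        exact ⟨x, hx, rfl⟩
    have hPE : P ≤ E := fun p hp => by
      have h1 : pi P ⟨p, P_le h hP hp⟩ ∈ E1 := by
        rw [(pi_eq_one P _).mpr hp]
        exact E1.one_mem
      exact (hEmem ⟨p, P_le h hP hp⟩).mpr h1
    have hcen : ∀ x : B, x ∈ Subgroup.centralizer (E : Set B) → x ∈ S := fun x hx => by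
      rw [Subgroup.mem_centralizer_iff] at hx
      rw [hSdef, Subgroup.mem_centralizer_iff]
      exact fun p hp => hx p (hPE hp)
    have hTC : ∀ x : ↥(T ⊓ Subgroup.centralizer (E : Set B)),
        pi P ⟨x, hcen x x.2.2⟩ ∈ T1 ⊓ Subgroup.centralizer (E1 : Set _) := by
      rintro ⟨x, hxT, hxC⟩
      constructor
      · obtain ⟨t, ht, r, hr, htr⟩ := Subgroup.mem_sup_of_normal_right.mp hxT
        obtain ⟨t', ht', rfl⟩ := ht
        have hxS := hcen x hxC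
        have h1 : (⟨x, hxS⟩ : S) = t' * (t'⁻¹ * ⟨x, hxS⟩) := by group
        have h2 : ((t'⁻¹ * ⟨x, hxS⟩ : S) : B) = r := by
          change (t' : B)⁻¹ * x = r
          rw [← htr]
          change (t' : B)⁻¹ * (t' * r) = r
          group
        change pi P ⟨x, hxS⟩ ∈ T1
        rw [h1, map_mul]
        refine T1.mul_mem ht' (hT1 (hS _ ?_))
        rw [h2]
        exact hr
      · refine Subgroup.mem_centralizer_iff.mpr ?_
        intro e he
        obtain ⟨e', rfl⟩ := QuotientGroup.mk'_surjective (PS P) e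
        have h1 : (e' : B) * x = x * e' :=
          (Subgroup.mem_centralizer_iff.mp hxC) e' ((hEmem e').mpr he)
        change pi P e' * pi P ⟨x, hcen x hxC⟩ = pi P ⟨x, hcen x hxC⟩ * pi P e'
        rw [← map_mul, ← map_mul]
        congr 1
        exact Subtype.ext h1
    let r : ↥(T ⊓ Subgroup.centralizer (E : Set B)) →*
        ↥(T1 ⊓ Subgroup.centralizer (E1 : Set (↥S ⧸ PS P))) :=
      { toFun := fun x => ⟨pi P ⟨x, hcen x x.2.2⟩, hTC x⟩
        map_one' := rfl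
        map_mul' := fun x y => rfl }
    have hr : ∀ x, (r x : ↥S ⧸ PS P) = pi P ⟨x, hcen x x.2.2⟩ := fun x => rfl
    refine hDH T le_sup_right E ?_ ?_ ?_ H (q1.comp r) ?_ ?_ hcore
    · refine le_trans ?_ le_sup_left
      exact Subgroup.map_mono (Subgroup.comap_mono hE1)
    · rintro ⟨x, y, hy, rfl⟩
      obtain ⟨k, hk⟩ := hEl ⟨pi P y, hy⟩
      have h1 : pi P (y ^ ℓ ^ k) = 1 := by
        rw [map_pow]
        exact congrArg Subtype.val hk
      rw [pi_eq_one] at h1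
      obtain ⟨m, hm⟩ := hPl ⟨_, h1⟩
      refine ⟨k + m, ?_⟩
      apply Subtype.ext
      have h2 := congrArg Subtype.val hm
      change ((y ^ ℓ ^ k : S) : B) ^ ℓ ^ m = 1 at h2
      change (y : B) ^ ℓ ^ (k + m) = 1
      rw [pow_add, pow_mul]
      exact h2
    · rw [eq_bot_iff]
      rintro x ⟨⟨y, hy, rfl⟩, hxr⟩
      have h1 : pi P y ∈ E1 ⊓ (i1 h P).range := ⟨hy, hS y hxr⟩
      rw [hE1r, Subgroup.mem_bot, pi_eq_one] at h1
      have h2 : (y : B) ∈ P ⊓ ι.range := ⟨h1, hxr⟩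
      rw [hP] at h2
      exact h2
    · refine hq1.comp ?_
      rintro ⟨y, hyT, hyC⟩
      obtain ⟨x, rfl⟩ := QuotientGroup.mk'_surjective (PS P) y
      have hx1 : (x : B) ∈ T := Subgroup.mem_sup_left ⟨x, hyT, rfl⟩
      have hx2 : (x : B) ∈ Subgroup.centralizer (E : Set B) := by
        rw [Subgroup.mem_centralizer_iff]
        rintro _ ⟨e, he, rfl⟩
        apply comm_of_mem h hP
        have h1 : pi P (e * x * e⁻¹ * x⁻¹) = 1 := by
          have h2 : pi P e * pi P x = pi P x * pi P e :=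
            (Subgroup.mem_centralizer_iff.mp hyC) _ he
          rw [map_mul, map_mul, map_mul, map_inv, map_inv, h2, mul_inv_cancel_right,
            mul_inv_cancel]
        rw [pi_eq_one] at h1
        exact h1
      exact ⟨⟨x, hx1, hx2⟩, rfl⟩
    · intro x
      rw [MonoidHom.comp_apply, hqk, hr]
      exact (hEmem ⟨x, hcen x x.2.2⟩).symm

end Pool.Agent.DPC


end

section

/-!
# RXC: the structure of a group with a normal subgroup `G ^ Ω`
-/

namespace Pool.Agent.DPC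

open Pool.Agent.DP Pool.Agent.Lib_helper13 Representation
open Pool.Agent.Lib_helper13.Dade (pCore DadeHolds dadeSum)

namespace RXC

/-- The local groups of subgroups of `A` are those of subgroups of the whole group. -/
theorem exists_hom {M : Type*} [Group M] (A : Subgroup M) (T E : Subgroup A) :
    ∃ f : ↥(T.map A.subtype ⊓ Subgroup.centralizer ((E.map A.subtype : Subgroup M) : Set M)) →*
        ↥(T ⊓ Subgroup.centralizer (E : Set A)),
      (∀ x, ((f x : A) : M) = x) ∧ Function.Surjective f := by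
  have hA : ∀ x : ↥(T.map A.subtype ⊓
      Subgroup.centralizer ((E.map A.subtype : Subgroup M) : Set M)), (x : M) ∈ A := by
    rintro ⟨x, hx1, hx2⟩
    obtain ⟨y, hy, rfl⟩ := hx1
    exact y.2
  have hT : ∀ x : ↥(T.map A.subtype ⊓
      Subgroup.centralizer ((E.map A.subtype : Subgroup M) : Set M)),
      (⟨(x : M), hA x⟩ : A) ∈ T ⊓ Subgroup.centralizer (E : Set A) := by
    intro x
    constructor
    · obtain ⟨y, hy, hyx⟩ := (Subgroup.mem_inf.mp x.2).1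
      have : (⟨(x : M), hA x⟩ : A) = y := Subtype.ext hyx.symm
      rw [this]
      exact hy
    · have h2 := (Subgroup.mem_inf.mp x.2).2
      rw [Subgroup.mem_centralizer_iff] at h2
      change _ ∈ Subgroup.centralizer _
      rw [Subgroup.mem_centralizer_iff]
      intro z hz
      apply Subtype.ext
      exact h2 (z : M) ⟨z, hz, rfl⟩
  refine ⟨MonoidHom.mk' (fun x => ⟨⟨(x : M), hA x⟩, hT x⟩) fun x y => rfl, fun x => rfl, ?_⟩
  rintro ⟨y, hy⟩
  rw [Subgroup.mem_inf] at hy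
  refine ⟨⟨(y : M), ?_⟩, rfl⟩
  rw [Subgroup.mem_inf]
  refine ⟨⟨y, hy.1, rfl⟩, ?_⟩
  rw [Subgroup.mem_centralizer_iff]
  rintro _ ⟨z, hz, rfl⟩
  exact congrArg Subtype.val (Subgroup.mem_centralizer_iff.mp hy.2 z hz)

end RXC

theorem RXC_thm : Stmt_RXC := by
  classical
  intro G X Ω _ _ _ _ _ ℓ _ hcen hnt a A hA hDade e he hX
  have hIn : ((MulAut.conj : G →* MulAut G).range).Normal := RX0.conj_range_normal G
  have hIA : (MulAut.conj : G →* MulAut G).range ≤ A := by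
    rw [hA]
    exact le_sup_left
  have hfin : Finite (MulAut G) := RX0.finite_mulAut G
  let ι : G →* A := (MulAut.conj : G →* MulAut G).codRestrict A (fun g => hIA ⟨g, rfl⟩)
  let κ : A →* MulAut G := A.subtype
  let ρ : A →* A ⧸ (MulAut.conj : G →* MulAut G).range.subgroupOf A := QuotientGroup.mk' _
  have hκ : Function.Injective κ := A.subtype_injective
  have hex : ∀ y : X, ∃ z : Gam (Equiv.Perm Ω) Ω A, ∀ n, e (wB κ Ω z n) = y * e n * y⁻¹ := by
    intro y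
    obtain ⟨s, α, hα, h⟩ := hX y
    refine ⟨⟨fun i => ⟨α i, hα i⟩, s⁻¹⟩, fun n => ?_⟩
    rw [h n]
    congr 1
  choose φ0 hφ0 using hex
  have huniq : ∀ z z' : Gam (Equiv.Perm Ω) Ω A, (∀ n, e (wB κ Ω z n) = e (wB κ Ω z' n)) →
      z = z' := by
    intro z z' h
    apply RX0.wB_inj κ hκ
    apply MulEquiv.ext
    intro n
    exact he (h n)
  let φ : X →* Gam (Equiv.Perm Ω) Ω A := MonoidHom.mk' φ0 (by
    intro x y
    apply huniq
    intro n
    rw [hφ0, map_mul, MulAut.mul_apply, hφ0, hφ0]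
    group)
  have hen : e.range.Normal := by
    constructor
    rintro _ ⟨n, rfl⟩ y
    exact ⟨wB κ Ω (φ0 y) n, hφ0 y n⟩
  refine ⟨A, A ⧸ (MulAut.conj : G →* MulAut G).range.subgroupOf A, X ⧸ e.range, inferInstance,
    Fintype.ofFinite _, inferInstance, inferInstance, inferInstance, ι, κ, ρ,
    QuotientGroup.mk' _, φ, ?_, ?_, ?_⟩
  · refine ⟨⟨?_, ?_, ?_⟩, QuotientGroup.mk'_surjective _, RX0.cyclic_quot _ A a hA⟩
    · intro x y hxy
      exact RX0.conj_inj hcen (congrArg Subtype.val hxy)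
    · intro y x
      apply Subtype.ext
      change MulAut.conj ((y : MulAut G) x) = (y : MulAut G) * MulAut.conj x * (y : MulAut G)⁻¹
      ext z
      simp [MulAut.mul_apply]
    · intro y
      change QuotientGroup.mk' _ y = 1 ↔ _
      rw [QuotientGroup.mk'_apply, QuotientGroup.eq_one_iff, Subgroup.mem_subgroupOf]
      constructor
      · rintro ⟨g, hg⟩
        exact ⟨g, Subtype.ext hg⟩
      · rintro ⟨g, hg⟩
        exact ⟨g, congrArg Subtype.val hg⟩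
  · intro T hT E hET hE hEi H _ _ q hq hqE hcore
    obtain ⟨f, hf1, hf2⟩ := RXC.exists_hom A T E
    have h2 : (MulAut.conj : G →* MulAut G).range ≤ T.map A.subtype := by
      rintro _ ⟨g, rfl⟩
      exact ⟨ι g, hT ⟨g, rfl⟩, rfl⟩
    refine hDade (T.map A.subtype) h2 (Subgroup.map_subtype_le T) (E.map A.subtype)
      (Subgroup.map_mono hET) (hE.map _) ?_ H (q.comp f) (hq.comp hf2) ?_ hcore
    · rw [eq_bot_iff]
      rintro _ ⟨⟨x, hx, rfl⟩, g, hg⟩
      have h3 : x ∈ E ⊓ ι.range := ⟨hx, g, Subtype.ext hg⟩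
      rw [hEi, Subgroup.mem_bot] at h3
      rw [h3, map_one]
      exact Subgroup.mem_bot.mpr rfl
    · intro x
      rw [MonoidHom.comp_apply, hqE]
      constructor
      · intro hx
        exact ⟨(f x : A), hx, hf1 x⟩
      · rintro ⟨y, hy, hyx⟩
        have h3 : (f x : A) = y := Subtype.ext ((hf1 x).trans hyx.symm)
        rw [h3]
        exact hy
  · refine ⟨⟨he, ?_, ?_⟩, QuotientGroup.mk'_surjective _, ?_⟩
    · intro y n
      exact hφ0 y n
    · intro y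
      rw [QuotientGroup.mk'_apply, QuotientGroup.eq_one_iff]
    · intro n
      apply huniq
      intro x
      change e (wB κ Ω (φ0 (e n)) x) = _
      rw [hφ0, ← map_inv, ← map_mul, ← map_mul]
      congr 1

end Pool.Agent.DPC


end

section

/-!
# EXTA: properties of the canonical extension
-/

namespace Pool.Agent.DP

open Pool.Agent.Lib_helper13 Representation

namespace EXTA

variable {K O G : Type} [Group K] [MulAction K O] [Group G]

theorem irrOn_top [Fintype G] {θ : G → ℂ} (h : IsIrr θ) : IrrOn (⊤ : Subgroup G) θ := by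
  refine ⟨?_, fun x hx => absurd (Subgroup.mem_top x) hx⟩
  exact h.comp_mulEquiv (Subgroup.topEquiv (G := G))

theorem exists_MD [Fintype G] (h1 : Stmt_TENS) {θ : G → ℂ} (h : IsIrr θ) :
    ∃ m M, MD (⊤ : Subgroup G) θ m M :=
  h1.1 G ⊤ θ (irrOn_top h)

theorem toPerm_one : (MulAction.toPerm (1 : K) : Equiv.Perm O) = 1 := by
  ext o
  simp

theorem act_apply (x : Gam K O G) (n : O → G) :
    x * iN K O G n = ⟨fun o => x.left o * n (x.right⁻¹ • o), x.right⟩ := by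
  apply SemidirectProduct.ext
  · funext o
    rfl
  · change x.right * 1 = x.right
    rw [mul_one]

/-- reindexing of a sum over a coset -/
theorem sum_coset [Fintype O] [DecidableEq O] [Fintype G] (x : Gam K O G)
    (f : Gam K O G → ℂ) :
    ∑ n : O → G, f (x * iN K O G n) = ∑ n : O → G, f ⟨n, x.right⟩ := by
  have hb : Function.Bijective
      (fun n : O → G => fun o => x.left o * n (x.right⁻¹ • o)) := by
    constructor
    · intro n n' h
      funext o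
      have h1 := congrFun h (x.right • o)
      simp only [inv_smul_smul, mul_right_inj] at h1
      exact h1
    · intro n
      refine ⟨fun o => (x.left (x.right • o))⁻¹ * n (x.right • o), ?_⟩
      funext o
      simp only [smul_inv_smul, mul_inv_cancel_left]
  refine Fintype.sum_bijective _ hb _ _ ?_
  intro n
  rw [act_apply]

end EXTA

open _root_.Pool.Agent.DP.EXTA in
theorem EXTA_thm (h1 : Stmt_TENS) (h2 : Stmt_COSET) (h3 : Stmt_SCAL) (h4 : Stmt_AACL)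
    (h5 : Stmt_KB) (_ : Stmt_IRRPI) : Stmt_EXTA := by
  intro K O G _ _ _ _ _ _ _ θ hθ hinv
  have hMD : ∀ o, MD (⊤ : Subgroup G) (θ o) (mm (θ o)) (MM (θ o)) :=
    fun o => mm_spec (exists_MD h1 (hθ o))
  have hprod : IsIrr (fun n : O → G => ∏ o, θ o (n o)) :=
    isIrr_prodFn (S := fun _ : O => G) (θ := θ) hθ
  -- the extension is a character
  obtain ⟨hchr0, hone⟩ := h1.2 K O G (fun _ => ⊤) (fun _ _ => rfl) θ (fun o => mm (θ o))
    (fun o => MM (θ o)) (fun l o => by rw [hinv]) (fun l o => by rw [hinv]) hMD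
  have hchr : IsChr (EE θ : Gam K O G → ℂ) := by
    have h6 := hchr0.comp ((MonoidHom.id (Gam K O G)).codRestrict
      (stdS (L := K) (O := O) (G := G) (fun _ => ⊤) (fun _ _ => rfl))
      (fun y o => Subgroup.mem_top _))
    exact h6
  have hEN : ∀ n : O → G, EE θ (iN K O G n) = ∏ o, θ o (n o) := by
    intro n
    change TH (fun w => mm (θ w)) (fun w => MM (θ w)) (MulAction.toPerm (1 : K)) n = _
    rw [toPerm_one]
    exact hone n (fun o => Subgroup.mem_top _)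
  have hfin : Finite (Gam K O G) :=
    Finite.of_equiv _ (SemidirectProduct.equivProd (φ := pAct K O G)).symm
  letI : Fintype (Gam K O G) := Fintype.ofFinite _
  have hcl := clG_G K O G
  refine ⟨hprod, hchr, hEN, ?_, ?_⟩
  · intro k
    have h6 := h2 (O → G) (Gam K O G) K (iN K O G) (cG K O G) SemidirectProduct.rightHom hcl
      (fun n : O → G => ∏ o, θ o (n o)) (EE θ) hprod hchr hEN (iR K O G k)
    rw [sum_coset (iR K O G k) (fun y => EE θ y * EE θ y⁻¹)] at h6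
    rw [aC]
    congr 1
    rw [← h6]
    refine Finset.sum_congr rfl fun n _ => ?_
    change EE θ (⟨n, k⟩ : Gam K O G)⁻¹ * EE θ (⟨n, k⟩ : Gam K O G) = _
    rw [mul_comm]
    rfl
  · intro F hF
    refine ⟨?_, ?_, ?_⟩
    · intro l k
      have h6 := h4 K O G (fun _ => ⊤) θ (fun o => mm (θ o)) (fun o => MM (θ o)) l k
        (fun _ => rfl) (fun o => by rw [hinv]) (fun o => by rw [hinv]) F hF
      rw [aS_top, aS_top] at h6
      exact h6
    · intro x
      have h6 := h3 (O → G) (Gam K O G) K (iN K O G) (cG K O G) SemidirectProduct.rightHom hcl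
        (fun n : O → G => ∏ o, θ o (n o)) (EE θ) hprod hchr hEN F hF x
      rw [h6, sum_coset x (fun y => F y * EE θ y)]
      rfl
    · intro hint k
      haveI : Fact (Nat.Prime 2) := ⟨Nat.prime_two⟩
      obtain ⟨𝔐, h𝔐, hℓ⟩ := DZT.exists_maximal 2
      refine (h5 O G 𝔐 2 h𝔐 hℓ (MulAction.toPerm k) θ hθ (fun o => hinv k o)
        (fun n => F ⟨n, k⟩) ?_ (fun n => hint _)).1
      intro x n
      have h7 := MIND.conj_iN_mk k x n
      have h8 := hF (iN K O G x) ⟨n, k⟩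
      rw [← h7] at h8
      exact h8

end Pool.Agent.DP


end

section

/-!
# FXE: the blocks over an invariant block of defect one have defect one
-/

namespace Pool.Agent.DPW

open Pool.Agent.DP Pool.Agent.DPV Pool.Agent.Lib_helper13 Representation
open Pool.Agent.Lib_helper13.Dade (pCore DadeHolds dadeSum)

namespace FXE

theorem conjInd_ite {G : Type} [Group G] {x g : G} {p : Prop} [Decidable p]
    (h : IsConj x g ↔ p) : conjInd x g = if p then (1 : ℂ) else 0 := by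
  rw [conjInd]
  by_cases hp : p
  · rw [if_pos (h.mpr hp), if_pos hp]
  · rw [if_neg (fun hc => hp (h.mp hc)), if_neg hp]

section Card

variable {G B C : Type} [Group G] [Group B] [Group C]

theorem card_eq {ι : G →* B} {κ : B →* MulAut G} {ρ : B →* C} (h : ClG ι κ ρ)
    (hs : Function.Surjective ρ) : Nat.card B = Nat.card G * Nat.card C := by
  have h1 : Nat.card ρ.ker * ρ.ker.index = Nat.card B := Subgroup.card_mul_index _
  have h2 : ρ.ker.index = Nat.card C := by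
    rw [Subgroup.index_ker, MonoidHom.range_eq_top.mpr hs]
    exact Nat.card_congr Subgroup.topEquiv.toEquiv
  have h3 : ρ.ker = ι.range := by
    ext y
    exact h.ker y
  have h4 : Nat.card ρ.ker = Nat.card G := by
    rw [h3]
    exact Nat.card_congr (MonoidHom.ofInjective h.inj).symm.toEquiv
  rw [← h1, h2, h4]

/-- The centralizers. -/
theorem sq_B {ι : G →* B} {κ : B →* MulAut G} {ρ : B →* C} (h : ClG ι κ ρ)
    (ℓ : ℕ) [hℓ : Fact ℓ.Prime] (hC : ¬ ℓ ∣ Nat.card C) (x₀ : G)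
    (hx : ¬ ℓ ^ 2 ∣ Nat.card (Subgroup.centralizer ({x₀} : Set G))) :
    ¬ ℓ ^ 2 ∣ Nat.card (Subgroup.centralizer ({ι x₀} : Set B)) := by
  intro hd
  apply hx
  set D := Subgroup.centralizer ({ι x₀} : Set B) with hD
  -- the kernel of the restriction of `ρ`
  let r : D →* C := ρ.comp D.subtype
  have h1 : Nat.card r.ker * r.ker.index = Nat.card D := Subgroup.card_mul_index _
  have h2 : r.ker.index ∣ Nat.card C := by
    rw [Subgroup.index_ker]
    exact Subgroup.card_subgroup_dvd_card _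
  have h3 : ¬ ℓ ∣ r.ker.index := fun h4 => hC (h4.trans h2)
  have h4 : Nat.Coprime (ℓ ^ 2) r.ker.index :=
    Nat.Coprime.pow_left 2 ((hℓ.out.coprime_iff_not_dvd).mpr h3)
  rw [← h1] at hd
  have h5 : ℓ ^ 2 ∣ Nat.card r.ker := h4.dvd_of_dvd_mul_right hd
  have h6 : Nat.card r.ker = Nat.card (Subgroup.centralizer ({x₀} : Set G)) := by
    symm
    have hmem : ∀ g : Subgroup.centralizer ({x₀} : Set G), ι g ∈ D := by
      intro g
      rw [hD, Subgroup.mem_centralizer_singleton_iff, ← map_mul, ← map_mul]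
      rw [Subgroup.mem_centralizer_singleton_iff.mp g.2]
    refine Nat.card_congr (Equiv.ofBijective (fun g =>
      (⟨⟨ι g, hmem g⟩, (h.ker _).mpr ⟨_, rfl⟩⟩ : r.ker)) ⟨?_, ?_⟩)
    · intro a b hab
      have h7 : ι a = ι b := congrArg (fun z : r.ker => ((z : D) : B)) hab
      exact Subtype.ext (h.inj h7)
    · rintro ⟨⟨b, hb⟩, hb'⟩
      obtain ⟨g, hg⟩ := (h.ker b).mp hb'
      have h7 : g ∈ Subgroup.centralizer ({x₀} : Set G) := by
        rw [Subgroup.mem_centralizer_singleton_iff]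
        apply h.inj
        rw [map_mul, map_mul, hg]
        exact Subgroup.mem_centralizer_singleton_iff.mp hb
      exact ⟨⟨g, h7⟩, Subtype.ext (Subtype.ext hg)⟩
  rw [← h6]
  exact h5

end Card

section Orbit

variable {G B C : Type} [Group G] [Group B] [Group C]

/-- The action on the classes. -/
abbrev act (κ : B →* MulAut G) : MulAction B (ConjClasses G) where
  smul b L := ConjClasses.map (κ b).toMonoidHom L
  one_smul := by
    intro L
    obtain ⟨x, rfl⟩ := L.exists_rep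
    change ConjClasses.mk (κ 1 x) = _
    rw [map_one]
    rfl
  mul_smul := by
    intro b b' L
    obtain ⟨x, rfl⟩ := L.exists_rep
    change ConjClasses.mk (κ (b * b') x) = ConjClasses.mk (κ b (κ b' x))
    rw [map_mul]
    rfl

/-- The number of classes in an orbit is prime to `ℓ`. -/
theorem orbit_card [Finite B] {ι : G →* B} {κ : B →* MulAut G} {ρ : B →* C} (h : ClG ι κ ρ)
    (hs : Function.Surjective ρ) (x₀ : G) :
    Nat.card {L : ConjClasses G // ∃ b, ConjClasses.mk (κ b x₀) = L} ∣ Nat.card C := by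
  letI := act κ
  have h1 : Nat.card (MulAction.orbit B (ConjClasses.mk x₀)) *
      Nat.card (MulAction.stabilizer B (ConjClasses.mk x₀)) = Nat.card B := by
    rw [← Nat.card_prod]
    exact Nat.card_congr (MulAction.orbitProdStabilizerEquivGroup B (ConjClasses.mk x₀))
  have h2 : Nat.card {L : ConjClasses G // ∃ b, ConjClasses.mk (κ b x₀) = L} =
      Nat.card (MulAction.orbit B (ConjClasses.mk x₀)) := rfl
  have h3 : ι.range ≤ MulAction.stabilizer B (ConjClasses.mk x₀) := by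
    rintro _ ⟨g, rfl⟩
    rw [MulAction.mem_stabilizer_iff]
    change ConjClasses.mk (κ (ι g) x₀) = ConjClasses.mk x₀
    rw [ConjClasses.mk_eq_mk_iff_isConj]
    refine (isConj_iff.mpr ⟨g, ?_⟩).symm
    apply h.inj
    rw [h.act, map_mul, map_mul, map_inv]
  have h4 : Nat.card G ∣ Nat.card (MulAction.stabilizer B (ConjClasses.mk x₀)) := by
    have h5 : Nat.card ι.range = Nat.card G :=
      Nat.card_congr (MonoidHom.ofInjective h.inj).symm.toEquiv
    rw [← h5]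
    exact Subgroup.card_dvd_of_le h3
  obtain ⟨k, hk⟩ := h4
  haveI : Finite G := Finite.of_injective ι h.inj
  have h6 : Nat.card G ≠ 0 := Nat.card_pos.ne'
  rw [hk, card_eq h hs, mul_left_comm] at h1
  rw [h2]
  exact ⟨k, (Nat.eq_of_mul_eq_mul_left (Nat.pos_of_ne_zero h6) h1).symm⟩

end Orbit

section Main

variable {G B C : Type} [Group G] [Fintype G] [Group B] [Fintype B] [Group C]

/-- The central function on the elements of the normal subgroup. -/
theorem cen_ne (𝔐 : Ideal (integralClosure ℤ ℂ)) (ℓ : ℕ) [hℓ : Fact ℓ.Prime]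
    (h𝔐 : 𝔐.IsMaximal) (hℓ𝔐 : (ℓ : integralClosure ℤ ℂ) ∈ 𝔐)
    {ι : G →* B} {κ : B →* MulAut G} {ρ : B →* C} (h : ClG ι κ ρ)
    (hs : Function.Surjective ρ) (hC : ¬ ℓ ∣ Nat.card C)
    {θ : G → ℂ} (hθ : IsIrr θ)
    (hinv : ∀ b g, cen 𝔐 (MonoidHom.id G) θ (κ b g) = cen 𝔐 (MonoidHom.id G) θ g)
    {χ : B → ℂ} (hχ : IsIrr χ) (hip : ip (resj ι χ) θ ≠ 0) (x₀ : G)
    (hx : cen 𝔐 (MonoidHom.id G) θ x₀ ≠ 0) : cen 𝔐 (MonoidHom.id B) χ (ι x₀) ≠ 0 := by
  classical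
  haveI := h𝔐.isPrime
  letI : Fintype (ConjClasses G) := Fintype.ofFinite _
  obtain ⟨-, -, -, h4⟩ := SUMM_thm G B C ι κ ρ h
  have h1 : cen 𝔐 (MonoidHom.id B) χ (ι x₀) =
      red 𝔐 (wt θ (fun a => conjInd (ι a) (ι x₀))) := by
    rw [cen]
    congr 1
    refine h4 θ χ (fun y => conjInd (MonoidHom.id B y) (ι x₀)) hθ hχ hip ?_ ?_
    · intro g x
      exact conjInd_conj g x _
    · intro y hy
      change conjInd y (ι x₀) = 0
      rw [conjInd, if_neg]
      intro hc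
      obtain ⟨b, hb⟩ := isConj_iff.mp hc.symm
      apply hy
      refine ⟨κ b x₀, ?_⟩
      rw [h.act, hb]
  -- the orbit
  have h2 : (fun a => conjInd (ι a) (ι x₀)) = fun a =>
      (fun L : ConjClasses G => if ∃ b, ConjClasses.mk (κ b x₀) = L then (1 : ℂ) else 0)
        (ConjClasses.mk (id a)) := by
    funext a
    change conjInd (ι a) (ι x₀) = if ∃ b, ConjClasses.mk (κ b x₀) = ConjClasses.mk a then
      (1 : ℂ) else 0
    apply conjInd_ite
    constructor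
    · intro hc
      obtain ⟨b, hb⟩ := isConj_iff.mp hc.symm
      refine ⟨b, ?_⟩
      congr 1
      apply h.inj
      rw [h.act, hb]
    · rintro ⟨b, hb⟩
      rw [ConjClasses.mk_eq_mk_iff_isConj] at hb
      have h5 : IsConj (ι (κ b x₀)) (ι a) := ι.map_isConj hb
      refine (IsConj.trans ?_ h5).symm
      rw [h.act]
      exact isConj_iff.mpr ⟨b, rfl⟩
  have hint : ∀ L : ConjClasses G, IsIntegral ℤ (wt θ (fun y => if ConjClasses.mk (id y) = L then
      (1 : ℂ) else 0)) := by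
    intro L
    apply isIntegral_wt hθ
    · intro g x
      have h6 : ConjClasses.mk (id (g * x * g⁻¹)) = ConjClasses.mk (id x) := by
        rw [ConjClasses.mk_eq_mk_iff_isConj]
        exact (isConj_iff.mpr ⟨g, rfl⟩).symm
      rw [h6]
    · intro y
      split_ifs
      · exact isIntegral_one
      · exact isIntegral_zero
  have hval : ∀ L : ConjClasses G, (∃ b, ConjClasses.mk (κ b x₀) = L) →
      red 𝔐 (wt θ (fun y => if ConjClasses.mk (id y) = L then (1 : ℂ) else 0)) =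
        cen 𝔐 (MonoidHom.id G) θ x₀ := by
    rintro L ⟨b, rfl⟩
    rw [← hinv b x₀, cen]
    congr 2
    funext y
    exact (conjInd_ite ConjClasses.mk_eq_mk_iff_isConj.symm).symm
  have h3 : cen 𝔐 (MonoidHom.id B) χ (ι x₀) =
      (Nat.card {L : ConjClasses G // ∃ b, ConjClasses.mk (κ b x₀) = L} :
        (integralClosure ℤ ℂ) ⧸ 𝔐) * cen 𝔐 (MonoidHom.id G) θ x₀ := by
    rw [h1, h2, wt_comp_classes id θ
      (fun L : ConjClasses G => if ∃ b, ConjClasses.mk (κ b x₀) = L then (1 : ℂ) else 0), red_sum]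
    · have h7 : ∀ L ∈ (Finset.univ : Finset (ConjClasses G)),
          red 𝔐 ((if ∃ b, ConjClasses.mk (κ b x₀) = L then (1 : ℂ) else 0) *
            wt θ (fun y => if ConjClasses.mk (id y) = L then (1 : ℂ) else 0)) =
          if ∃ b, ConjClasses.mk (κ b x₀) = L then cen 𝔐 (MonoidHom.id G) θ x₀ else 0 := by
        intro L _
        by_cases hL : ∃ b, ConjClasses.mk (κ b x₀) = L
        · rw [if_pos hL, if_pos hL, one_mul]
          exact hval L hL
        · rw [if_neg hL, if_neg hL, zero_mul]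
          exact red_zero 𝔐
      rw [Finset.sum_congr rfl h7, ← Finset.sum_filter, Finset.sum_const, nsmul_eq_mul,
        Nat.card_eq_fintype_card, Fintype.card_subtype]
    · intro L _
      refine IsIntegral.mul ?_ (hint L)
      split_ifs
      · exact isIntegral_one
      · exact isIntegral_zero
  have h8 : ¬ ℓ ∣ Nat.card {L : ConjClasses G // ∃ b, ConjClasses.mk (κ b x₀) = L} :=
    fun hd => hC (hd.trans (orbit_card h hs x₀))
  rw [h3]
  refine mul_ne_zero ?_ hx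
  rw [← red_natCast]
  exact red_card_ne_zero 𝔐 hℓ𝔐 h8

/-- The degree. -/
theorem degree (ℓ : ℕ) [hℓ : Fact ℓ.Prime] {ι : G →* B} {κ : B →* MulAut G} {ρ : B →* C}
    (h : LocV ι κ ρ) (hC : ¬ ℓ ∣ Nat.card C) {θ : G → ℂ} (hθ : IsIrr θ)
    (hm : ∃ m : ℕ, ¬ ℓ ∣ m ∧ (Nat.card G : ℂ) = ℓ * m * θ 1)
    {χ : B → ℂ} (hχ : IsIrr χ) (hip : ip (resj ι χ) θ ≠ 0) :
    ∃ m : ℕ, ¬ ℓ ∣ m ∧ (Nat.card B : ℂ) = ℓ * m * χ 1 := by
  classical
  haveI : Finite C := Finite.of_surjective ρ h.surj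
  obtain ⟨m, hm, hm'⟩ := hm
  -- the extension
  have h0 : IrrOn (stb (∅ : Finset (Subgroup G))) θ := by
    rw [stb_empty]
    exact EXTA.irrOn_top hθ
  obtain ⟨f, hf, hfθ⟩ := h.ext ∅ θ h0
  have hSt : Stx κ ∅ θ = inert κ θ := by
    ext b
    constructor
    · intro hb
      exact hb.2
    · intro hb
      exact ⟨fun D hD => absurd hD (Finset.notMem_empty D), hb⟩
  rw [hSt] at hf
  letI : Fintype (inert κ θ) := Fintype.ofFinite _
  letI : Fintype ((inert κ θ).map ρ) := Fintype.ofFinite _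
  -- the Clifford correspondent
  obtain ⟨-, -, hcc⟩ := CCOR_thm IND_thm SUMM_thm G B C ι κ ρ h.cl θ hθ
  obtain ⟨ψ, hψ, hψθ, hψχ⟩ := hcc χ hχ hip
  obtain ⟨-, -, hga⟩ := GALL_thm COSET_thm SUMM_thm G (inert κ θ) ((inert κ θ).map ρ)
    (CLG.jS h.cl hθ) (κ.comp (inert κ θ).subtype) (CLG.qS rfl) (CLG.clG_S h.cl hθ rfl)
    (CLG.qS_surj rfl) θ (fun s => f s) hθ hf.1.isChr (fun a => hfθ a)
  have hres : resj (CLG.jS h.cl hθ) ψ = fun a => ext0 ψ (ι a) := by
    funext a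
    rw [ext0_of_mem ψ (CLG.j_mem h.cl hθ a)]
    rfl
  obtain ⟨η, hη, hηψ⟩ := hga ψ hψ (by rw [hres]; exact hψθ)
  -- degrees
  have hd1 : ψ 1 = θ 1 * η 1 := by
    rw [hηψ]
    have h1 : f ((1 : inert κ θ) : B) = θ 1 := by
      rw [← hfθ 1, map_one]
      rfl
    change f ((1 : inert κ θ) : B) * η _ = _
    rw [h1, map_one]
  have hd2 := (IND_thm B (inert κ θ) ψ).1
  rw [hψχ, hd1] at hd2
  have hcI : Nat.card (inert κ θ) = Nat.card G * Nat.card ((inert κ θ).map ρ) :=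
    card_eq (CLG.clG_S h.cl hθ rfl) (CLG.qS_surj rfl)
  obtain ⟨n, hn0, hn⟩ := hη.exists_degree
  obtain ⟨k, hk⟩ := hη.degree_dvd hn
  have hMC : Nat.card ((inert κ θ).map ρ) ∣ Nat.card C := Subgroup.card_subgroup_dvd_card _
  refine ⟨m * k, ?_, ?_⟩
  · intro hd
    rcases hℓ.out.dvd_mul.mp hd with h1 | h1
    · exact hm h1
    · exact hC ((h1.trans ⟨n, by rw [hk, mul_comm]⟩).trans hMC)
  · have hn' : (n : ℂ) ≠ 0 := by
      rw [← hn]
      exact hη.one_ne_zero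
    have hθ1 := hθ.one_ne_zero
    rw [hcI, hk, hn] at hd2
    push_cast at hd2 ⊢
    rw [hm'] at hd2
    have h2 : (θ 1 * n) * ((Nat.card B : ℂ)) = (θ 1 * n) * (ℓ * (m * k) * χ 1) := by
      rw [mul_comm (θ 1 * (n : ℂ)) (Nat.card B : ℂ), ← hd2]
      ring
    exact mul_left_cancel₀ (mul_ne_zero hθ1 hn') h2

end Main

end FXE

open _root_.Pool.Agent.DPW.FXE in
theorem FXE_thm (h1 : Stmt_DF1) : Stmt_FXE := by
  intro G B C _ _ _ _ _ 𝔐 ℓ _ h𝔐 hℓ𝔐 ι κ ρ hL hC ω hω P x₀ hx₀ hinv θ hθ hcen χ hχ hip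
  subst hcen
  have hdeg := degree ℓ hL hC hθ ((h1 G 𝔐 ℓ h𝔐 hℓ𝔐 θ hθ).1 hω) hχ hip
  have hne := cen_ne 𝔐 ℓ h𝔐 hℓ𝔐 hL.cl hL.surj hC hθ hinv hχ hip x₀ hx₀.ne
  have hsq := sq_B hL.cl ℓ hC x₀ hx₀.sq
  refine ⟨⟨⟨ι x₀, hne, hsq⟩, (h1 B 𝔐 ℓ h𝔐 hℓ𝔐 χ hχ).2.1 hdeg⟩, hne, ?_, ?_, hsq⟩
  · rw [Subgroup.card_map_of_injective hL.cl.inj]
    exact hx₀.card
  · rintro _ ⟨u, hu, rfl⟩
    rw [← map_mul, ← map_mul, hx₀.cen u hu]

end Pool.Agent.DPW


end

section

/-!
# Module FXEX: the blocks over an invariant block with cyclic defect groups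
-/

namespace Pool.Agent.DPX

open Pool.Agent.DP Pool.Agent.DPV Pool.Agent.DPB Pool.Agent.DPW Pool.Agent.Lib_helper13
open Representation

namespace FXEX

section Card

variable {G B C : Type} [Group G] [Group B] [Group C]

/-- The centralizers. -/
theorem sq_B {ι : G →* B} {κ : B →* MulAut G} {ρ : B →* C} (h : ClG ι κ ρ)
    (ℓ k : ℕ) [hℓ : Fact ℓ.Prime] (hC : ¬ ℓ ∣ Nat.card C) (x₀ : G)
    (hx : ¬ ℓ ^ k ∣ Nat.card (Subgroup.centralizer ({x₀} : Set G))) :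
    ¬ ℓ ^ k ∣ Nat.card (Subgroup.centralizer ({ι x₀} : Set B)) := by
  intro hd
  apply hx
  set D := Subgroup.centralizer ({ι x₀} : Set B) with hD
  -- the kernel of the restriction of `ρ`
  let r : D →* C := ρ.comp D.subtype
  have h1 : Nat.card r.ker * r.ker.index = Nat.card D := Subgroup.card_mul_index _
  have h2 : r.ker.index ∣ Nat.card C := by
    rw [Subgroup.index_ker]
    exact Subgroup.card_subgroup_dvd_card _
  have h3 : ¬ ℓ ∣ r.ker.index := fun h4 => hC (h4.trans h2)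
  have h4 : Nat.Coprime (ℓ ^ k) r.ker.index :=
    Nat.Coprime.pow_left k ((hℓ.out.coprime_iff_not_dvd).mpr h3)
  rw [← h1] at hd
  have h5 : ℓ ^ k ∣ Nat.card r.ker := h4.dvd_of_dvd_mul_right hd
  have h6 : Nat.card r.ker = Nat.card (Subgroup.centralizer ({x₀} : Set G)) := by
    symm
    have hmem : ∀ g : Subgroup.centralizer ({x₀} : Set G), ι g ∈ D := by
      intro g
      rw [hD, Subgroup.mem_centralizer_singleton_iff, ← map_mul, ← map_mul]
      rw [Subgroup.mem_centralizer_singleton_iff.mp g.2]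
    refine Nat.card_congr (Equiv.ofBijective (fun g =>
      (⟨⟨ι g, hmem g⟩, (h.ker _).mpr ⟨_, rfl⟩⟩ : r.ker)) ⟨?_, ?_⟩)
    · intro a b hab
      have h7 : ι a = ι b := congrArg (fun z : r.ker => ((z : D) : B)) hab
      exact Subtype.ext (h.inj h7)
    · rintro ⟨⟨b, hb⟩, hb'⟩
      obtain ⟨g, hg⟩ := (h.ker b).mp hb'
      have h7 : g ∈ Subgroup.centralizer ({x₀} : Set G) := by
        rw [Subgroup.mem_centralizer_singleton_iff]
        apply h.inj
        rw [map_mul, map_mul, hg]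
        exact Subgroup.mem_centralizer_singleton_iff.mp hb
      exact ⟨⟨g, h7⟩, Subtype.ext (Subtype.ext hg)⟩
  rw [← h6]
  exact h5

end Card

section Main

variable {G B C : Type} [Group G] [Fintype G] [Group B] [Fintype B] [Group C]

/-- The degree. -/
theorem degree (ℓ : ℕ) [hℓ : Fact ℓ.Prime] (q : ℂ) {ι : G →* B} {κ : B →* MulAut G}
    {ρ : B →* C} (h : LocV ι κ ρ) (hC : ¬ ℓ ∣ Nat.card C) {θ : G → ℂ} (hθ : IsIrr θ)
    (hm : ∃ m : ℕ, ¬ ℓ ∣ m ∧ (Nat.card G : ℂ) = q * m * θ 1)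
    {χ : B → ℂ} (hχ : IsIrr χ) (hip : ip (resj ι χ) θ ≠ 0) :
    ∃ m : ℕ, ¬ ℓ ∣ m ∧ (Nat.card B : ℂ) = q * m * χ 1 := by
  classical
  haveI : Finite C := Finite.of_surjective ρ h.surj
  obtain ⟨m, hm, hm'⟩ := hm
  -- the extension
  have h0 : IrrOn (stb (∅ : Finset (Subgroup G))) θ := by
    rw [stb_empty]
    exact EXTA.irrOn_top hθ
  obtain ⟨f, hf, hfθ⟩ := h.ext ∅ θ h0
  have hSt : Stx κ ∅ θ = inert κ θ := by
    ext b
    constructor
    · intro hb
      exact hb.2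
    · intro hb
      exact ⟨fun D hD => absurd hD (Finset.notMem_empty D), hb⟩
  rw [hSt] at hf
  letI : Fintype (inert κ θ) := Fintype.ofFinite _
  letI : Fintype ((inert κ θ).map ρ) := Fintype.ofFinite _
  -- the Clifford correspondent
  obtain ⟨-, -, hcc⟩ := CCOR_thm IND_thm SUMM_thm G B C ι κ ρ h.cl θ hθ
  obtain ⟨ψ, hψ, hψθ, hψχ⟩ := hcc χ hχ hip
  obtain ⟨-, -, hga⟩ := GALL_thm COSET_thm SUMM_thm G (inert κ θ) ((inert κ θ).map ρ)
    (CLG.jS h.cl hθ) (κ.comp (inert κ θ).subtype) (CLG.qS rfl) (CLG.clG_S h.cl hθ rfl)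
    (CLG.qS_surj rfl) θ (fun s => f s) hθ hf.1.isChr (fun a => hfθ a)
  have hres : resj (CLG.jS h.cl hθ) ψ = fun a => ext0 ψ (ι a) := by
    funext a
    rw [ext0_of_mem ψ (CLG.j_mem h.cl hθ a)]
    rfl
  obtain ⟨η, hη, hηψ⟩ := hga ψ hψ (by rw [hres]; exact hψθ)
  -- degrees
  have hd1 : ψ 1 = θ 1 * η 1 := by
    rw [hηψ]
    have h1 : f ((1 : inert κ θ) : B) = θ 1 := by
      rw [← hfθ 1, map_one]
      rfl
    change f ((1 : inert κ θ) : B) * η _ = _
    rw [h1, map_one]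
  have hd2 := (IND_thm B (inert κ θ) ψ).1
  rw [hψχ, hd1] at hd2
  have hcI : Nat.card (inert κ θ) = Nat.card G * Nat.card ((inert κ θ).map ρ) :=
    FXE.card_eq (CLG.clG_S h.cl hθ rfl) (CLG.qS_surj rfl)
  obtain ⟨n, hn0, hn⟩ := hη.exists_degree
  obtain ⟨k, hk⟩ := hη.degree_dvd hn
  have hMC : Nat.card ((inert κ θ).map ρ) ∣ Nat.card C := Subgroup.card_subgroup_dvd_card _
  refine ⟨m * k, ?_, ?_⟩
  · intro hd
    rcases hℓ.out.dvd_mul.mp hd with h1 | h1
    · exact hm h1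
    · exact hC ((h1.trans ⟨n, by rw [hk, mul_comm]⟩).trans hMC)
  · have hn' : (n : ℂ) ≠ 0 := by
      rw [← hn]
      exact hη.one_ne_zero
    have hθ1 := hθ.one_ne_zero
    rw [hcI, hk, hn] at hd2
    push_cast at hd2 ⊢
    rw [hm'] at hd2
    have h2 : (θ 1 * n) * ((Nat.card B : ℂ)) = (θ 1 * n) * (q * (m * k) * χ 1) := by
      rw [mul_comm (θ 1 * (n : ℂ)) (Nat.card B : ℂ), ← hd2]
      ring
    exact mul_left_cancel₀ (mul_ne_zero hθ1 hn') h2

/-- The orders of the centralizers. -/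
theorem min_card (𝔐 : Ideal (integralClosure ℤ ℂ)) (ℓ n : ℕ) [hℓ : Fact ℓ.Prime]
    (h𝔐 : 𝔐.IsMaximal) (hℓ𝔐 : (ℓ : integralClosure ℤ ℂ) ∈ 𝔐) {χ : B → ℂ} (hχ : IsIrr χ)
    (hm : ∃ m : ℕ, ¬ ℓ ∣ m ∧ (Nat.card B : ℂ) = (ℓ : ℂ) ^ n * m * χ 1) (x : B)
    (hx : cen 𝔐 (MonoidHom.id B) χ x ≠ 0) :
    ℓ ^ n ∣ Nat.card (Subgroup.centralizer ({x} : Set B)) := by
  haveI := h𝔐.isPrime
  obtain ⟨m, -, hm⟩ := hm
  by_contra hnd
  apply hx
  rw [DF1.cen_eq]
  have h1 := DF1.mul_w hχ x hm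
  have hc0 : Nat.card (Subgroup.centralizer ({x} : Set B)) ≠ 0 := Nat.card_pos.ne'
  obtain ⟨k, c, hc, hkc⟩ := Nat.exists_eq_pow_mul_and_not_dvd hc0 ℓ hℓ.out.ne_one
  have hkn : k < n := by
    by_contra hge
    apply hnd
    rw [hkc]
    exact (pow_dvd_pow ℓ (not_lt.mp hge)).mul_right c
  obtain ⟨j, rfl⟩ : ∃ j, n = k + (j + 1) := ⟨n - k - 1, by omega⟩
  have hl0 : (ℓ : ℂ) ^ k ≠ 0 := pow_ne_zero _ (Nat.cast_ne_zero.mpr hℓ.out.ne_zero)
  have h2 : (c : ℂ) * DF1.w χ x = ((ℓ * (ℓ ^ j * m) : ℕ) : ℂ) * χ x := by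
    apply mul_left_cancel₀ hl0
    rw [hkc] at h1
    push_cast at h1 ⊢
    rw [← mul_assoc, h1]
    ring
  refine DF1.red_cancel 𝔐 hℓ𝔐 hc (DF1.isIntegral_w hχ x) ?_
  rw [h2]
  exact DF1.red_mul_of_dvd 𝔐 hℓ𝔐 (Dvd.intro _ rfl) (isIntegral_char hχ x)

end Main

end FXEX

theorem FXEX_thm (h1 : Stmt_HGTX) : Stmt_FXEX := by
  intro G B C _ _ _ _ _ 𝔐 ℓ n _ h𝔐 hℓ𝔐 ι κ ρ hL hC ω P₁ P x₀ hat hinv θ hθ hcen χ hχ hip
  subst hcen
  have hdeg := FXEX.degree ℓ ((ℓ : ℂ) ^ n) hL hC hθ (h1 G 𝔐 ℓ n h𝔐 hℓ𝔐 θ hθ P₁ P x₀ hat) hχ hip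
  have hne := FXE.cen_ne 𝔐 ℓ h𝔐 hℓ𝔐 hL.cl hL.surj hC hθ hinv hχ hip x₀ hat.ne
  have hsq := FXEX.sq_B hL.cl ℓ (n + 1) hC x₀ hat.cd.sq
  refine ⟨⟨Subgroup.map_mono hat.cd.le, ?_, ?_, ?_, ?_, hsq⟩, hne, fun x hx =>
    FXEX.min_card 𝔐 ℓ n h𝔐 hℓ𝔐 hχ hdeg x hx⟩
  · rw [Subgroup.card_map_of_injective hL.cl.inj]
    exact hat.cd.c1
  · haveI := hat.cd.cyc
    exact isCyclic_of_surjective (ι.subgroupMap P) (ι.subgroupMap_surjective P)
  · rw [Subgroup.card_map_of_injective hL.cl.inj]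
    exact hat.cd.card
  · rintro _ ⟨u, hu, rfl⟩
    rw [← map_mul, ← map_mul, hat.cd.cen u hu]

end Pool.Agent.DPX


end
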