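import Mathlib
import Pool.Agent.DAM.C14
import Pool.Agent.DAM.C15
import Pool.Agent.DAM.C18
import Pool.Agent.DAM.C26
import Pool.Agent.DAM.C27
import Pool.Agent.DAM.C28
import Pool.Agent.DAM.C31
import Pool.Agent.DAM.C32
import Pool.Agent.DAM.C41
import Pool.Agent.DAM.C50
import Pool.Agent.DAM.C53
import Pool.Agent.DAM.C54
import Pool.Agent.DAM.C56
import Pool.Agent.DAM.C95

/-! Parts: DPN.ABF, DPN.FOU, DPT.GCL, DPT.DZ6, DPT.LNQ, DPF.MBX, DPF.FOX, DPX.DERX -/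

section

/-!
# ABF: the Moebius sum of the numbers of characters as a sum over pairs of elements
-/

set_option linter.unusedSectionVars false

namespace Pool.Agent.DPN

open Pool.Agent.DP Pool.Agent.DPC Pool.Agent.DPM Pool.Agent.Lib_helper13 Representation
open Pool.Agent.Lib_helper13.Dade (pCore DadeHolds dadeSum)

namespace ABF

/-! ### Weisner's theorem for complex valued functions -/

open Classical in
theorem mobC {K : Type} [Group K] [Fintype K] {m : Subgroup K → ℚ} (hm : Mob m)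
    {K0 : Subgroup K} (h0 : K0 ≠ ⊤) (g : Subgroup K → ℂ) :
    ∑ V, ((m V : ℚ) : ℂ) * g (V ⊓ K0) = 0 := by
  have h1 : ∀ U : Subgroup K, ∑ V, m V * (if V ⊓ K0 = U then (1 : ℚ) else 0) = 0 := fun U =>
    ((MOBX_thm K).2 m hm).2 K0 h0 (fun V => if V = U then 1 else 0)
  have h2 : ∀ V : Subgroup K, ((m V : ℚ) : ℂ) * g (V ⊓ K0) =
      ∑ U : Subgroup K, g U * (((m V * (if V ⊓ K0 = U then (1 : ℚ) else 0) : ℚ)) : ℂ) := by
    intro V
    rw [Finset.sum_eq_single (V ⊓ K0)]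
    · rw [if_pos rfl, mul_one, mul_comm]
    · intro U _ hU
      rw [if_neg (Ne.symm hU), mul_zero, Rat.cast_zero, mul_zero]
    · intro h
      exact absurd (Finset.mem_univ _) h
  rw [Finset.sum_congr rfl fun V _ => h2 V, Finset.sum_comm]
  refine Finset.sum_eq_zero fun U _ => ?_
  rw [← Finset.mul_sum, ← Rat.cast_sum, h1 U, Rat.cast_zero, mul_zero]

/-! ### The linear characters of central subgroups -/

section

variable {W : Type} [Group W] [Fintype W]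

theorem ovl_iff {U : Subgroup W} (hU : U ≤ Subgroup.center W) {G S : Subgroup W} (hUS : U ≤ S)
    (hSG : S ≤ G) {η : G → ℂ} (hη : IsIrr η) {κ : S → ℂ} (hκ : IsIrr κ)
    (hip : ip (fun s : S => η ⟨s, hSG s.2⟩) κ ≠ 0) (μ : U →* ℂˣ) :
    OvL U μ G η ↔ OvL U μ S κ := by
  obtain ⟨ν, hν⟩ := ISOL.exists_lin hU (hUS.trans hSG) hη
  obtain ⟨ν', hν'⟩ := ISOL.exists_lin hU hUS hκ
  have h1 : ν = ν' := by
    ext u
    have hs : ∑ s : S, η ⟨s, hSG s.2⟩ * κ s⁻¹ ≠ 0 := by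
      intro h
      apply hip
      rw [ip, h, zero_div]
    have h2 : ∑ s : S, η ⟨s, hSG s.2⟩ * κ s⁻¹ =
        ∑ s : S, ((ν u : ℂˣ) : ℂ) * (((ν' u⁻¹ : ℂˣ) : ℂ) * (η ⟨s, hSG s.2⟩ * κ s⁻¹)) := by
      have h3 := Fintype.sum_equiv (Equiv.mulLeft (⟨u, hUS u.2⟩ : S))
        (fun s : S => η ⟨(((⟨u, hUS u.2⟩ : S) * s : S) : W), hSG (((⟨u, hUS u.2⟩ : S) * s : S)).2⟩ *
          κ ((⟨u, hUS u.2⟩ : S) * s)⁻¹)
        (fun s : S => η ⟨s, hSG s.2⟩ * κ s⁻¹) (fun s => rfl)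
      rw [← h3]
      refine Finset.sum_congr rfl fun s _ => ?_
      have h4 : η ⟨(((⟨u, hUS u.2⟩ : S) * s : S) : W), hSG (((⟨u, hUS u.2⟩ : S) * s : S)).2⟩ =
          ((ν u : ℂˣ) : ℂ) * η ⟨s, hSG s.2⟩ :=
        hν ⟨u, (hUS.trans hSG) u.2⟩ ⟨s, hSG s.2⟩ u.2
      have h5 : ((⟨u, hUS u.2⟩ : S) * s)⁻¹ = (⟨(u⁻¹ : U), hUS (u⁻¹ : U).2⟩ : S) * s⁻¹ := by
        apply Subtype.ext
        have h6 := (Subgroup.mem_center_iff.mp (hU u.2)) (s : W)
        change ((u : W) * (s : W))⁻¹ = (u : W)⁻¹ * (s : W)⁻¹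
        rw [← h6, mul_inv_rev]
      have h6 : κ ((⟨u, hUS u.2⟩ : S) * s)⁻¹ = ((ν' u⁻¹ : ℂˣ) : ℂ) * κ s⁻¹ := by
        rw [h5]
        exact hν' ⟨(u⁻¹ : U), hUS (u⁻¹ : U).2⟩ s⁻¹ (u⁻¹ : U).2
      rw [h4, h6]
      ring
    rw [← Finset.mul_sum, ← Finset.mul_sum] at h2
    have h3 : ((ν u : ℂˣ) : ℂ) * ((ν' u⁻¹ : ℂˣ) : ℂ) = 1 := by
      have h4 : (((ν u : ℂˣ) : ℂ) * ((ν' u⁻¹ : ℂˣ) : ℂ)) *
          (∑ s : S, η ⟨s, hSG s.2⟩ * κ s⁻¹) = 1 * ∑ s : S, η ⟨s, hSG s.2⟩ * κ s⁻¹ := by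
        rw [mul_assoc, ← h2, one_mul]
      exact mul_right_cancel₀ hs h4
    rw [map_inv] at h3
    have h4 : ν u * (ν' u)⁻¹ = 1 := Units.ext h3
    rw [mul_inv_eq_one.mp h4]
  constructor
  · intro h
    have h2 := ISOL.lin_unique (hUS.trans hSG) hη h hν
    rw [h2, h1]
    exact hν'
  · intro h
    have h2 := ISOL.lin_unique hUS hκ h hν'
    rw [h2, ← h1]
    exact hν

/-! ### Transport -/

variable {G S : Subgroup W} (hSG : S ≤ G)

/-- The subgroup `S` of `G`. -/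
noncomputable abbrev eS : S.subgroupOf G ≃* S := Subgroup.subgroupOfEquivOfLe hSG

theorem eS_coe (n : S.subgroupOf G) : ((eS hSG n : S) : W) = ((n : G) : W) := rfl

theorem eS_symm_coe (s : S) : ((((eS hSG).symm s : S.subgroupOf G) : G) : W) = s := by
  rw [← eS_coe hSG, MulEquiv.apply_symm_apply]

theorem ip_transport (η : G → ℂ) (κ : S.subgroupOf G → ℂ) :
    ip (resj (S.subgroupOf G).subtype η) κ =
      ip (fun s : S => η ⟨s, hSG s.2⟩) (fun s => κ ((eS hSG).symm s)) := by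
  rw [ip, ip, Nat.card_congr (eS hSG).toEquiv]
  refine congrArg (fun z : ℂ => z / (Nat.card S : ℂ)) ?_
  refine Fintype.sum_equiv (eS hSG).toEquiv _ _ fun n => ?_
  have h1 : (eS hSG).symm ((eS hSG).toEquiv n)⁻¹ = n⁻¹ := by
    rw [map_inv]
    exact congrArg _ ((eS hSG).symm_apply_apply n)
  rw [h1]
  rfl

theorem cen_transport (𝔐 : Ideal (integralClosure ℤ ℂ)) (κ : S.subgroupOf G → ℂ) :
    cen 𝔐 S.subtype (fun s => κ ((eS hSG).symm s)) =
      cen 𝔐 (G.subtype.comp (S.subgroupOf G).subtype) κ := by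
  rw [← cen_comp_equiv 𝔐 (eS hSG) S.subtype (fun s => κ ((eS hSG).symm s))]
  have h1 : (fun y => (fun s => κ ((eS hSG).symm s)) ((eS hSG) y)) = κ := by
    funext y
    exact congrArg κ ((eS hSG).symm_apply_apply y)
  rw [h1]
  rfl

open Classical in
theorem ed_transport (Q : (S → ℂ) → Prop) (g : G) :
    ed (S.subgroupOf G) (fun κ => Q (fun s => κ ((eS hSG).symm s))) g = ed S Q (g : W) := by
  rw [ed, ed, Nat.card_congr (eS hSG).toEquiv]
  refine congrArg (fun z : ℂ => z / (Nat.card S : ℂ)) ?_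
  refine Finset.sum_bij' (fun κ _ => fun s => κ ((eS hSG).symm s))
    (fun κ _ => fun n => κ (eS hSG n)) ?_ ?_ ?_ ?_ ?_
  · intro κ hκ
    rw [Finset.mem_filter, mem_irrF] at hκ ⊢
    exact ⟨hκ.1.comp_mulEquiv (eS hSG).symm, hκ.2⟩
  · intro κ hκ
    rw [Finset.mem_filter, mem_irrF] at hκ ⊢
    refine ⟨hκ.1.comp_mulEquiv (eS hSG), ?_⟩
    have h1 : (fun s => (fun n => κ (eS hSG n)) ((eS hSG).symm s)) = κ := by
      funext s
      exact congrArg κ ((eS hSG).apply_symm_apply s)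
    rw [h1]
    exact hκ.2
  · intro κ _
    funext n
    exact congrArg κ ((eS hSG).symm_apply_apply n)
  · intro κ _
    funext s
    exact congrArg κ ((eS hSG).apply_symm_apply s)
  · intro κ _
    have h1 : κ ((eS hSG).symm 1) = κ 1 := by rw [map_one]
    change κ 1 * ext0 κ g⁻¹ =
      κ ((eS hSG).symm 1) * ext0 (fun s => κ ((eS hSG).symm s)) ((g : W))⁻¹
    rw [h1]
    refine congrArg (fun z : ℂ => κ 1 * z) ?_
    by_cases h : (g : W)⁻¹ ∈ S
    · have h' : g⁻¹ ∈ S.subgroupOf G := h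
      rw [ext0_of_mem _ h, ext0_of_mem _ h']
      refine congrArg κ ?_
      rw [MulEquiv.eq_symm_apply]
      rfl
    · have h' : g⁻¹ ∉ S.subgroupOf G := h
      rw [ext0_of_not_mem _ h, ext0_of_not_mem _ h']

end

/-! ### One subgroup -/

section One

variable {H W : Type} [Group H] [Fintype H] [Group W] [Fintype W]

/-- The condition on the characters of a subgroup. -/
def QQ (𝔐 : Ideal (integralClosure ℤ ℂ)) (π : W →* H) (μ : π.ker →* ℂˣ)
    (D : (W → (integralClosure ℤ ℂ) ⧸ 𝔐) → Prop) (S : Subgroup W) (κ : S → ℂ) : Prop :=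
  OvL π.ker μ S κ ∧ D (cen 𝔐 S.subtype κ)

variable (𝔐 : Ideal (integralClosure ℤ ℂ)) (π : W →* H) (μ : π.ker →* ℂˣ)
  (D : (W → (integralClosure ℤ ℂ) ⧸ 𝔐) → Prop)

/-- Conjugation as an automorphism of `S`. -/
noncomputable def phi {G S : Subgroup W} (hSG : S ≤ G) [(S.subgroupOf G).Normal] (g : G) :
    S ≃* S :=
  (eS hSG).symm.trans ((MulAut.conjNormal g : MulAut (S.subgroupOf G)).trans (eS hSG))

theorem phi_coe {G S : Subgroup W} (hSG : S ≤ G) [(S.subgroupOf G).Normal] (g : G) (s : S) :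
    ((phi hSG g s : S) : W) = (g : W) * s * (g : W)⁻¹ := by
  change (((MulAut.conjNormal g ((eS hSG).symm s) : S.subgroupOf G) : G) : W) = _
  rw [MulAut.conjNormal_apply]
  change (g : W) * ((((eS hSG).symm s : S.subgroupOf G) : G) : W) * (g : W)⁻¹ = _
  rw [eS_symm_coe]

theorem QQ_conj (hπ : π.ker ≤ Subgroup.center W) {G S : Subgroup W} (hSG : S ≤ G)
    [(S.subgroupOf G).Normal] (g : G) (κ : S → ℂ) (h : QQ 𝔐 π μ D S κ) :
    QQ 𝔐 π μ D S (fun s => κ (phi hSG g s)) := by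
  constructor
  · intro s t hs
    have h1 : phi hSG g s = s := by
      apply Subtype.ext
      rw [phi_coe]
      have h2 := (Subgroup.mem_center_iff.mp (hπ hs)) (g : W)
      rw [h2, mul_inv_cancel_right]
    change κ (phi hSG g (s * t)) = _
    rw [map_mul, h1]
    exact h.1 s (phi hSG g t) hs
  · have h1 : cen 𝔐 S.subtype (fun s => κ (phi hSG g s)) = cen 𝔐 S.subtype κ := by
      rw [← cen_comp_equiv 𝔐 (phi hSG g) S.subtype κ]
      refine cen_conj 𝔐 (fun y => ?_) _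
      rw [isConj_iff]
      exact ⟨(g : W), (phi_coe hSG g y).symm⟩
    rw [h1]
    exact h.2

open Classical in
theorem one (hF : Stmt_FRO) (hs : Function.Surjective π) (R : Subgroup W) (hR : R.Normal)
    (hk : π.ker ≤ R) (hπ : π.ker ≤ Subgroup.center W)
    (hD : ∀ c c', (∀ w ∈ R, c w = c' w) → (D c ↔ D c')) (V : Subgroup H) :
    (Nat.card π.ker : ℂ) * ((Nat.card V : ℂ) *
      Nat.card {η : ↥(V.comap π) → ℂ // IsIrr η ∧ OvL π.ker μ _ η ∧
        D (cen 𝔐 (V.comap π).subtype η)}) =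
    ∑ x : W, ∑ y : W, if π x ∈ V ∧ π y ∈ V then
      (if x * y * x⁻¹ * y⁻¹ ∈ R then ed (R ⊓ V.comap π) (QQ 𝔐 π μ D (R ⊓ V.comap π))
        (x * y * x⁻¹ * y⁻¹) else 0) else 0 := by
  set G : Subgroup W := V.comap π with hG
  set S : Subgroup W := R ⊓ G with hS
  have hSG : S ≤ G := inf_le_right
  have hkG : π.ker ≤ G := by
    intro x hx
    rw [hG, Subgroup.mem_comap, MonoidHom.mem_ker.mp hx]
    exact V.one_mem
  have hkS : π.ker ≤ S := le_inf hk hkG
  have hN : (S.subgroupOf G).Normal := by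
    have h1 : S.subgroupOf G = R.subgroupOf G := by
      rw [hS, Subgroup.inf_subgroupOf_right]
    rw [h1]
    infer_instance
  have hF1 := hF G (S.subgroupOf G) (fun κ => QQ 𝔐 π μ D S (fun s => κ ((eS hSG).symm s)))
    (by
      intro g κ h
      have h1 := QQ_conj 𝔐 π μ D hπ hSG g (fun s => κ ((eS hSG).symm s)) h
      have h2 : (fun s => (fun n => κ (MulAut.conjNormal g n)) ((eS hSG).symm s)) =
          fun s => (fun s => κ ((eS hSG).symm s)) (phi hSG g s) := by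
        funext s
        refine congrArg κ ?_
        exact ((eS hSG).symm_apply_apply _).symm
      rw [h2]
      exact h1)
  -- the number of characters
  have hcnt : Nat.card {η : G → ℂ // IsIrr η ∧ ∃ κ : S.subgroupOf G → ℂ, IsIrr κ ∧
      QQ 𝔐 π μ D S (fun s => κ ((eS hSG).symm s)) ∧
      ip (resj (S.subgroupOf G).subtype η) κ ≠ 0} =
      Nat.card {η : G → ℂ // IsIrr η ∧ OvL π.ker μ _ η ∧ D (cen 𝔐 G.subtype η)} := by
    have hkey : ∀ (η : G → ℂ) (κ : S.subgroupOf G → ℂ), IsIrr η → IsIrr κ →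
        ip (resj (S.subgroupOf G).subtype η) κ ≠ 0 →
        (QQ 𝔐 π μ D S (fun s => κ ((eS hSG).symm s)) ↔
          OvL π.ker μ G η ∧ D (cen 𝔐 G.subtype η)) := by
      intro η κ hη hκ hip
      have h1 : IsIrr (fun s => κ ((eS hSG).symm s)) := hκ.comp_mulEquiv (eS hSG).symm
      have h2 : ip (fun s : S => η ⟨s, hSG s.2⟩) (fun s => κ ((eS hSG).symm s)) ≠ 0 := by
        rw [← ip_transport hSG]
        exact hip
      have h3 := ovl_iff hπ hkS hSG hη h1 h2 μ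
      have h4 : ∀ w ∈ R, cen 𝔐 G.subtype η w =
          cen 𝔐 S.subtype (fun s => κ ((eS hSG).symm s)) w := by
        intro w hw
        rw [cen_transport hSG]
        exact RCE_thm _ _ _ _ 𝔐 (S.subgroupOf G).subtype MulAut.conjNormal
          (QuotientGroup.mk' (S.subgroupOf G)) (PHT.clG _) G.subtype R hR (fun t ht => by
            rw [Subgroup.range_subtype, Subgroup.mem_subgroupOf, hS]
            exact ⟨ht, t.2⟩) η κ hη hκ hip w hw
      have h5 := hD _ _ h4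
      rw [QQ, h3, h5]
    refine Nat.card_congr (Equiv.subtypeEquivRight fun η => ?_)
    constructor
    · rintro ⟨hη, κ, hκ, hQ, hip⟩
      exact ⟨hη, (hkey η κ hη hκ hip).mp hQ⟩
    · rintro ⟨hη, hQ⟩
      obtain ⟨κ, hκ, hip⟩ := MPR.exists_under (S.subgroupOf G).subtype hη
      exact ⟨hη, κ, hκ, (hkey η κ hη hκ hip).mpr hQ, hip⟩
  have hcard : (Nat.card π.ker : ℂ) * (Nat.card V : ℂ) = (Nat.card G : ℂ) := by
    have h1 : Nat.card π.ker * Nat.card V = Nat.card G := by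
      rw [Nat.card_congr (PAIRS.eqv (U := π.ker) hs (fun l => MonoidHom.mem_ker.symm) V),
        Nat.card_prod, mul_comm]
    exact_mod_cast h1
  rw [← mul_assoc, hcard, ← hcnt, hF1]
  have h6 : ∀ f : G → ℂ, ∀ F : W → ℂ, (∀ x : G, f x = F x) →
      ∑ x : G, f x = ∑ x : W, if π x ∈ V then F x else 0 := by
    intro f F hf
    rw [← Finset.sum_filter, Finset.sum_subtype (Finset.univ.filter fun x : W => π x ∈ V)
      (p := fun x => x ∈ G) (fun x => by simp [hG])]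
    exact Finset.sum_congr rfl fun x _ => hf x
  have h7 : ∀ x y : G, (if x * y * x⁻¹ * y⁻¹ ∈ S.subgroupOf G then
      ed (S.subgroupOf G) (fun κ => QQ 𝔐 π μ D S (fun s => κ ((eS hSG).symm s)))
        (x * y * x⁻¹ * y⁻¹) else 0) =
      if (x : W) * y * (x : W)⁻¹ * (y : W)⁻¹ ∈ R then
        ed S (QQ 𝔐 π μ D S) ((x : W) * y * (x : W)⁻¹ * (y : W)⁻¹) else 0 := by
    intro x y
    by_cases h : (x : W) * y * (x : W)⁻¹ * (y : W)⁻¹ ∈ R
    · have h' : x * y * x⁻¹ * y⁻¹ ∈ S.subgroupOf G := by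
        rw [Subgroup.mem_subgroupOf]
        exact ⟨h, (x * y * x⁻¹ * y⁻¹).2⟩
      rw [if_pos h, if_pos h']
      exact ed_transport hSG (QQ 𝔐 π μ D S) (x * y * x⁻¹ * y⁻¹)
    · have h' : x * y * x⁻¹ * y⁻¹ ∉ S.subgroupOf G := by
        intro h1
        rw [Subgroup.mem_subgroupOf] at h1
        exact h h1.1
      rw [if_neg h, if_neg h']
  have h8 : ∀ x : G, (∑ y : G, if x * y * x⁻¹ * y⁻¹ ∈ S.subgroupOf G then
      ed (S.subgroupOf G) (fun κ => QQ 𝔐 π μ D S (fun s => κ ((eS hSG).symm s)))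
        (x * y * x⁻¹ * y⁻¹) else 0) =
      ∑ y : W, if π y ∈ V then (if (x : W) * y * (x : W)⁻¹ * (y : W)⁻¹ ∈ R then
        ed S (QQ 𝔐 π μ D S) ((x : W) * y * (x : W)⁻¹ * (y : W)⁻¹) else 0) else 0 := fun x =>
    h6 _ (fun y : W => if (x : W) * y * (x : W)⁻¹ * (y : W)⁻¹ ∈ R then
        ed S (QQ 𝔐 π μ D S) ((x : W) * y * (x : W)⁻¹ * (y : W)⁻¹) else 0) (fun y => h7 x y)
  rw [h6 _ (fun x : W => ∑ y : W, if π y ∈ V then (if (x : W) * y * (x : W)⁻¹ * (y : W)⁻¹ ∈ R then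
        ed S (QQ 𝔐 π μ D S) ((x : W) * y * (x : W)⁻¹ * (y : W)⁻¹) else 0) else 0) h8]
  refine Finset.sum_congr rfl fun x _ => ?_
  by_cases hx : π x ∈ V
  · rw [if_pos hx]
    refine Finset.sum_congr rfl fun y _ => ?_
    by_cases hy : π y ∈ V
    · rw [if_pos hy, if_pos (show π x ∈ V ∧ π y ∈ V from ⟨hx, hy⟩)]
    · rw [if_neg hy, if_neg (show ¬ (π x ∈ V ∧ π y ∈ V) from fun h => hy h.2)]
  · rw [if_neg hx]
    refine (Finset.sum_eq_zero fun y _ => ?_).symm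
    rw [if_neg (show ¬ (π x ∈ V ∧ π y ∈ V) from fun h => hx h.1)]

end One

end ABF

open Classical in
/-- ABF: the Moebius sum of the numbers of characters as a sum over pairs of elements. -/
theorem ABF_thm (h1 : Stmt_FRO) : Stmt_ABF := by
  intro H W _ _ _ _ 𝔐 π hs R hR hk μ hπ D hD m hm
  have hV : ∀ V : Subgroup H, (Nat.card π.ker : ℂ) * (((m V : ℚ) : ℂ) * ((Nat.card V : ℂ) *
      Nat.card {η : ↥(V.comap π) → ℂ // IsIrr η ∧ OvL π.ker μ _ η ∧
        D (cen 𝔐 (V.comap π).subtype η)})) =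
      ∑ x : W, ∑ y : W, ((m V : ℚ) : ℂ) * (if π x ∈ V ∧ π y ∈ V then
        (if x * y * x⁻¹ * y⁻¹ ∈ R then ed (R ⊓ V.comap π) (ABF.QQ 𝔐 π μ D (R ⊓ V.comap π))
          (x * y * x⁻¹ * y⁻¹) else 0) else 0) := by
    intro V
    rw [mul_left_comm, ABF.one 𝔐 π μ D h1 hs R hR hk hπ hD V, Finset.mul_sum]
    exact Finset.sum_congr rfl fun x _ => Finset.mul_sum _ _ _
  rw [Finset.mul_sum, Finset.sum_congr rfl fun V _ => hV V, Finset.sum_comm]
  refine Finset.sum_congr rfl fun x _ => ?_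
  rw [Finset.sum_comm]
  refine Finset.sum_congr rfl fun y _ => ?_
  by_cases hB : x * y * x⁻¹ * y⁻¹ ∈ R
  · have h2 : ∑ V : Subgroup H, ((m V : ℚ) : ℂ) * (if π x ∈ V ∧ π y ∈ V then
        (if x * y * x⁻¹ * y⁻¹ ∈ R then ed (R ⊓ V.comap π) (ABF.QQ 𝔐 π μ D (R ⊓ V.comap π))
          (x * y * x⁻¹ * y⁻¹) else 0) else 0) =
        ∑ V : Subgroup H, ((m V : ℚ) : ℂ) * (if π x ∈ V ∧ π y ∈ V then
          ed (R ⊓ V.comap π) (ABF.QQ 𝔐 π μ D (R ⊓ V.comap π)) (x * y * x⁻¹ * y⁻¹) else 0) := by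
      refine Finset.sum_congr rfl fun V _ => ?_
      rw [if_pos hB]
    rw [h2]
    by_cases hC : Subgroup.closure {x, y} ⊔ R = ⊤
    · rw [if_pos ⟨hB, hC⟩]
      refine Finset.sum_congr rfl fun V _ => ?_
      by_cases hA : π x ∈ V ∧ π y ∈ V
      · rw [if_pos hA, if_pos hA]
        rfl
      · rw [if_neg hA, if_neg hA, mul_zero]
    · rw [if_neg (fun h => hC h.2)]
      set J : Subgroup W := Subgroup.closure {x, y} ⊔ R with hJ
      have hK0 : J.map π ≠ ⊤ := by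
        intro h
        apply hC
        have h3 : (J.map π).comap π = J := by
          rw [Subgroup.comap_map_eq, sup_eq_left]
          exact hk.trans le_sup_right
        rw [← h3, h, Subgroup.comap_top]
      have hRK : R ≤ (J.map π).comap π := (le_sup_right : R ≤ J).trans (Subgroup.le_comap_map π J)
      have hxK : π x ∈ J.map π := Subgroup.mem_map_of_mem π
        ((le_sup_left : _ ≤ J) (Subgroup.subset_closure (by simp)))
      have hyK : π y ∈ J.map π := Subgroup.mem_map_of_mem π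
        ((le_sup_left : _ ≤ J) (Subgroup.subset_closure (by simp)))
      have hed : ∀ S S' : Subgroup W, S = S' →
          ed S (ABF.QQ 𝔐 π μ D S) (x * y * x⁻¹ * y⁻¹) =
          ed S' (ABF.QQ 𝔐 π μ D S') (x * y * x⁻¹ * y⁻¹) := by
        rintro S S' rfl
        rfl
      have h3 := ABF.mobC hm hK0 (fun V => if π x ∈ V ∧ π y ∈ V then
          ed (R ⊓ V.comap π) (ABF.QQ 𝔐 π μ D (R ⊓ V.comap π)) (x * y * x⁻¹ * y⁻¹) else 0)
      refine Eq.trans ?_ h3
      refine Finset.sum_congr rfl fun V _ => ?_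
      refine congrArg (fun z : ℂ => ((m V : ℚ) : ℂ) * z) ?_
      by_cases hA : π x ∈ V ∧ π y ∈ V
      · have hA' : π x ∈ V ⊓ J.map π ∧ π y ∈ V ⊓ J.map π := ⟨⟨hA.1, hxK⟩, ⟨hA.2, hyK⟩⟩
        rw [if_pos hA]
        refine Eq.trans ?_ (if_pos hA').symm
        refine hed _ _ ?_
        rw [Subgroup.comap_inf, inf_comm (V.comap π), ← inf_assoc, inf_eq_left.mpr hRK]
      · have hA' : ¬ (π x ∈ V ⊓ J.map π ∧ π y ∈ V ⊓ J.map π) := fun h => hA ⟨h.1.1, h.2.1⟩
        rw [if_neg hA]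
        exact (if_neg hA').symm
  · rw [if_neg (fun h => hB h.1)]
    refine Finset.sum_eq_zero fun V _ => ?_
    rw [if_neg hB, ite_self, mul_zero]

end Pool.Agent.DPN


end

section

/-!
# FOU: separation by linear characters
-/

namespace Pool.Agent.DPN

namespace FOU

theorem finite_hom (S : Type) [Group S] [Finite S] : Finite (S →* ℂˣ) := by
  have : NeZero (Nat.card S) := ⟨Nat.card_pos.ne'⟩
  have h : ∀ (χ : S →* ℂˣ) (s : S), χ s ∈ rootsOfUnity (Nat.card S) ℂ := by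
    intro χ s
    rw [mem_rootsOfUnity, ← map_pow, pow_card_eq_one', map_one]
  refine Finite.of_injective
    (fun (χ : S →* ℂˣ) (s : S) => (⟨χ s, h χ s⟩ : rootsOfUnity (Nat.card S) ℂ)) ?_
  intro χ χ' hh
  ext1 s
  exact congrArg Subtype.val (congrFun hh s)

open Classical in
theorem sum_K {S : Type} [Group S] (K : Finset (S →* ℂˣ)) (h1 : ∀ χ ∈ K, ∀ χ' ∈ K, χ * χ' ∈ K)
    (h2 : ∀ χ ∈ K, χ⁻¹ ∈ K) (r : S) :
    (∑ χ ∈ K, ((χ r : ℂˣ) : ℂ)) = if ∀ χ ∈ K, χ r = 1 then (K.card : ℂ) else 0 := by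
  split_ifs with h
  · rw [Finset.sum_congr rfl fun χ hχ => by rw [h χ hχ]]
    simp
  · push Not at h
    obtain ⟨χ₀, h0, h0r⟩ := h
    have e : (∑ χ ∈ K, ((χ r : ℂˣ) : ℂ)) = ((χ₀ r : ℂˣ) : ℂ) * ∑ χ ∈ K, ((χ r : ℂˣ) : ℂ) := by
      rw [Finset.mul_sum]
      refine Finset.sum_bij' (fun χ _ => χ₀⁻¹ * χ) (fun χ _ => χ₀ * χ) ?_ ?_ ?_ ?_ ?_
      · intro χ hχ
        exact h1 _ (h2 _ h0) _ hχ
      · intro χ hχ
        exact h1 _ h0 _ hχ
      · intro χ _
        exact mul_inv_cancel_left χ₀ χ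
      · intro χ _
        exact inv_mul_cancel_left χ₀ χ
      · intro χ _
        rw [← Units.val_mul]
        congr 1
        rw [MonoidHom.mul_apply, MonoidHom.inv_apply, mul_inv_cancel_left]
    have h3 : (1 - ((χ₀ r : ℂˣ) : ℂ)) * ∑ χ ∈ K, ((χ r : ℂˣ) : ℂ) = 0 := by
      rw [sub_mul, one_mul, ← e, sub_self]
    rcases mul_eq_zero.1 h3 with h4 | h4
    · exfalso
      apply h0r
      apply Units.ext
      rw [Units.val_one]
      exact (sub_eq_zero.1 h4).symm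
    · exact h4

end FOU

open Classical in
theorem FOU_thm : Stmt_FOU := by
  intro V ι _ _ I S hS s ν hν G hrel x₀ y₀ h0
  have : Finite (S →* ℂˣ) := FOU.finite_hom S
  let _ : Fintype (S →* ℂˣ) := Fintype.ofFinite _
  set K : Finset (S →* ℂˣ) := Finset.univ.filter
    (fun χ => ∀ (v : V) (r r' : S), (r' : V) = v * r * v⁻¹ → χ r' = χ r) with hK
  have mK : ∀ χ, χ ∈ K ↔ ∀ (v : V) (r r' : S), (r' : V) = v * r * v⁻¹ → χ r' = χ r := by
    intro χ
    rw [hK, Finset.mem_filter]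
    exact ⟨fun h => h.2, fun h => ⟨Finset.mem_univ _, h⟩⟩
  have K1 : ∀ χ ∈ K, ∀ χ' ∈ K, χ * χ' ∈ K := by
    intro χ h1 χ' h2
    rw [mK] at h1 h2 ⊢
    intro v r r' h
    rw [MonoidHom.mul_apply, MonoidHom.mul_apply, h1 v r r' h, h2 v r r' h]
  have K2 : ∀ χ ∈ K, χ⁻¹ ∈ K := by
    intro χ h1
    rw [mK] at h1 ⊢
    intro v r r' h
    rw [MonoidHom.inv_apply, MonoidHom.inv_apply, h1 v r r' h]
  have K3 : (1 : S →* ℂˣ) ∈ K := by
    rw [mK]
    intro v r r' _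
    rfl
  have K4 : (K.card : ℂ) ≠ 0 := by
    have : 0 < K.card := Finset.card_pos.2 ⟨1, K3⟩
    exact_mod_cast this.ne'
  set c : V → V → S := fun x y => ⟨x * y * x⁻¹ * y⁻¹, hS x y⟩ with hc
  set T : S → ℂ := fun r => ∑ i ∈ I, s i * ((ν i r : ℂˣ) : ℂ)⁻¹ with hT
  -- the relations
  have r1 : ∀ χ ∈ K, ∑ x : V, ∑ y : V,
      (if G x y then ((χ (c x y) : ℂˣ) : ℂ)⁻¹ * T (c x y) else 0) = 0 := by
    intro χ hχ
    refine Eq.trans ?_ (hrel χ ((mK χ).1 hχ))
    simp only [Finset.mul_sum]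
    symm
    rw [Finset.sum_comm]
    refine Finset.sum_congr rfl fun x _ => ?_
    rw [Finset.sum_comm]
    refine Finset.sum_congr rfl fun y _ => ?_
    by_cases h : G x y
    · simp only [if_pos h, hT, Finset.mul_sum]
      refine Finset.sum_congr rfl fun i _ => ?_
      ring
    · simp only [if_neg h, mul_zero, Finset.sum_const_zero]
  have r2 : ∑ x : V, ∑ y : V, (if G x y then
      T (c x y) * ∑ χ ∈ K, ((χ (c x₀ y₀ * (c x y)⁻¹) : ℂˣ) : ℂ) else 0) = 0 := by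
    have e : ∑ χ ∈ K, ((χ (c x₀ y₀) : ℂˣ) : ℂ) * ∑ x : V, ∑ y : V,
        (if G x y then ((χ (c x y) : ℂˣ) : ℂ)⁻¹ * T (c x y) else 0) = 0 :=
      Finset.sum_eq_zero fun χ hχ => by rw [r1 χ hχ, mul_zero]
    refine Eq.trans ?_ e
    simp only [Finset.mul_sum]
    symm
    rw [Finset.sum_comm]
    refine Finset.sum_congr rfl fun x _ => ?_
    rw [Finset.sum_comm]
    refine Finset.sum_congr rfl fun y _ => ?_
    by_cases h : G x y
    · simp only [if_pos h]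
      refine Finset.sum_congr rfl fun χ _ => ?_
      rw [map_mul, map_inv, Units.val_mul, Units.val_inv_eq_inv_val]
      ring
    · simp only [if_neg h, mul_zero, Finset.sum_const_zero]
  -- the sum is a multiple of the value
  have r3 : ∀ x y, (if G x y then
      T (c x y) * ∑ χ ∈ K, ((χ (c x₀ y₀ * (c x y)⁻¹) : ℂˣ) : ℂ) else 0) =
      (if G x y ∧ ∀ χ ∈ K, χ (c x₀ y₀ * (c x y)⁻¹) = 1 then (1 : ℂ) else 0) *
        (K.card * T (c x₀ y₀)) := by
    intro x y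
    by_cases h : G x y
    · rw [if_pos h, FOU.sum_K K K1 K2]
      by_cases h2 : ∀ χ ∈ K, χ (c x₀ y₀ * (c x y)⁻¹) = 1
      · rw [if_pos h2, if_pos ⟨h, h2⟩, one_mul]
        have : T (c x y) = T (c x₀ y₀) := by
          rw [hT]
          refine Finset.sum_congr rfl fun i hi => ?_
          have h3 := h2 (ν i) ((mK _).2 (hν i hi))
          rw [map_mul, map_inv, mul_inv_eq_one] at h3
          rw [h3]
        rw [this]
        ring
      · rw [if_neg h2, if_neg (fun h3 => h2 h3.2), mul_zero, zero_mul]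
    · rw [if_neg h, if_neg (fun h3 => h h3.1), zero_mul]
  have r4 : (∑ x : V, ∑ y : V,
      (if G x y ∧ ∀ χ ∈ K, χ (c x₀ y₀ * (c x y)⁻¹) = 1 then (1 : ℂ) else 0)) *
        (K.card * T (c x₀ y₀)) = 0 := by
    refine Eq.trans ?_ r2
    rw [Finset.sum_mul]
    refine Finset.sum_congr rfl fun x _ => ?_
    rw [Finset.sum_mul]
    exact Finset.sum_congr rfl fun y _ => (r3 x y).symm
  have r5 : (∑ x : V, ∑ y : V,
      (if G x y ∧ ∀ χ ∈ K, χ (c x₀ y₀ * (c x y)⁻¹) = 1 then (1 : ℂ) else 0)) ≠ 0 := by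
    have e : (∑ x : V, ∑ y : V,
        (if G x y ∧ ∀ χ ∈ K, χ (c x₀ y₀ * (c x y)⁻¹) = 1 then (1 : ℂ) else 0)) =
        ((∑ x : V, ∑ y : V,
          (if G x y ∧ ∀ χ ∈ K, χ (c x₀ y₀ * (c x y)⁻¹) = 1 then 1 else 0) : ℕ) : ℂ) := by
      push_cast
      rfl
    rw [e, Nat.cast_ne_zero]
    intro h
    have h1 := (Finset.sum_eq_zero_iff.1 h) x₀ (Finset.mem_univ _)
    have h2 := (Finset.sum_eq_zero_iff.1 h1) y₀ (Finset.mem_univ _)
    rw [if_pos ⟨h0, fun χ _ => by rw [mul_inv_cancel, map_one]⟩] at h2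
    exact one_ne_zero h2
  rcases mul_eq_zero.1 r4 with h | h
  · exact absurd h r5
  · exact (mul_eq_zero.1 h).resolve_left K4

end Pool.Agent.DPN


end

section

/-!
# GCL: a class at which the weight of a character of defect zero does not vanish
-/

namespace Pool.Agent.DPT

open Pool.Agent.DP Pool.Agent.DPC Pool.Agent.DPM Pool.Agent.DPN Pool.Agent.Lib_helper13
  Representation

namespace GCL

theorem clG {Y : Type} [Group Y] (N : Subgroup Y) [N.Normal] :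
    ClG N.subtype (MulAut.conjNormal : Y →* MulAut N) (QuotientGroup.mk' N) where
  inj := N.subtype_injective
  act := fun y a => MulAut.conjNormal_apply y a
  ker := by
    intro y
    rw [QuotientGroup.mk'_apply, QuotientGroup.eq_one_iff, Subgroup.range_subtype]

/-- A character of defect zero vanishes modulo `𝔐` at the elements whose centralizers have an
order divisible by `ℓ`. -/
theorem red_char (𝔐 : Ideal (integralClosure ℤ ℂ)) [h𝔐 : 𝔐.IsPrime] {ℓ : ℕ} [Fact ℓ.Prime]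
    (hℓ : (ℓ : integralClosure ℤ ℂ) ∈ 𝔐) {A : Type} [Group A] [Fintype A] {χ : A → ℂ}
    (hχ : IsIrr χ) (h0 : HasDefect ℓ χ 0) (x : A)
    (hx : ℓ ∣ Nat.card (Subgroup.centralizer ({x} : Set A))) : red 𝔐 (χ x) = 0 := by
  obtain ⟨n, N, hn, hn', hN, -⟩ := exists_codeg hχ h0
  have hn0 : (n : ℂ) ≠ 0 := by exact_mod_cast hn.ne'
  have h1 := BLKA.mul_om_cls hχ x hn hn' (DGN.card_centralizer x) hN
  have h2 : IsIntegral ℤ (om χ (elt (BLKA.cls x))) :=
    isIntegral_om hχ (elt_mem_center _ (fun g y => BLKA.cls_conj x g y))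
  have h3 := BLKA.red_mul_of_dvd 𝔐 hℓ hx h2
  have h4 := red_codeg_ne_zero 𝔐 hℓ hχ h0
  have h5 : (Nat.card A : ℂ) / χ 1 = (N : ℂ) := by
    rw [hn', hN]
    push_cast
    field_simp
  rw [h5] at h4
  rw [h1, red_mul 𝔐 (Pool.Agent.Lib_helper13.isIntegral_natCast N) (isIntegral_char hχ x)] at h3
  have h6 : IsDomain ((integralClosure ℤ ℂ) ⧸ 𝔐) := inferInstance
  exact (mul_eq_zero.mp h3).resolve_left h4

theorem dvd_card {A : Type} [Group A] [Fintype A] {ℓ : ℕ} [hl : Fact ℓ.Prime] {g x : A}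
    (hc : g * x = x * g) {n : ℕ} (hn : g ^ ℓ ^ n = 1) (hg : g ≠ 1) :
    ℓ ∣ Nat.card (Subgroup.centralizer ({x⁻¹} : Set A)) := by
  have h1 : g ∈ Subgroup.centralizer ({x⁻¹} : Set A) := by
    rw [Subgroup.mem_centralizer_singleton_iff]
    have h2 : Commute g x := hc
    exact h2.inv_right
  have h3 : orderOf g ∣ ℓ ^ n := orderOf_dvd_of_pow_eq_one hn
  have h4 : ℓ ∣ orderOf g := by
    obtain ⟨k, -, hk⟩ := (Nat.dvd_prime_pow hl.out).mp h3
    rcases Nat.eq_zero_or_pos k with rfl | hk0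
    · rw [pow_zero, orderOf_eq_one_iff] at hk
      exact absurd hk hg
    · rw [hk]
      exact dvd_pow_self ℓ hk0.ne'
  have h5 : orderOf (⟨g, h1⟩ : Subgroup.centralizer ({x⁻¹} : Set A)) = orderOf g :=
    Subgroup.orderOf_mk g h1
  rw [← h5] at h4
  exact h4.trans (orderOf_dvd_natCard _)

end GCL

open _root_.Pool.Agent.DPT.GCL in
theorem GCL_thm : Stmt_GCL := by
  classical
  intro G _ _ 𝔐 ℓ _ hmax hℓ M₀ hM θ₀ hθ₀
  have hpr : 𝔐.IsPrime := hmax.isPrime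
  have hcl := clG M₀
  have hθ : IsIrr (fun s : M₀ => θ₀ s) := hθ₀.1.1
  have hd : HasDefect ℓ (fun s : M₀ => θ₀ s) 0 := hθ₀.2
  set θ : M₀ → ℂ := fun s => θ₀ s with hθdef
  set c : G →* MulAut M₀ := MulAut.conjNormal with hcdef
  set E : G → ℂ := RDZ.ex M₀.subtype (RDZ.F0 c θ) with hEdef
  have hE : ∀ g x, E (g * x * g⁻¹) = E x := RDZ.ex_conj hcl _ (RDZ.F0_inv θ)
  have hEi : ∀ x, IsIntegral ℤ (E x) := RDZ.ex_int _ (RDZ.F0_int hθ)
  have hEj : ∀ a : M₀, E (M₀.subtype a) = RDZ.F0 c θ a := RDZ.ex_j hcl _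
  obtain ⟨F, hF⟩ := exists_lift_class E hE
  have hne : red 𝔐 (wt θ (RDZ.F0 c θ)) ≠ 0 := by
    rw [RDZ.wt_F0 hθ]
    exact red_codeg_ne_zero 𝔐 hℓ hθ hd
  have h1 : RDZ.F0 c θ = fun y : M₀ => F (ConjClasses.mk (M₀.subtype y)) := by
    funext y
    rw [hF, hEj]
  have hci : ∀ x : G, (fun y : M₀ => if ConjClasses.mk (M₀.subtype y) = ConjClasses.mk x then
      (1 : ℂ) else 0) = fun y : M₀ => conjInd (y : G) x := by
    intro x
    funext y
    rw [conjInd]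
    by_cases h : IsConj (y : G) x
    · rw [if_pos h]
      exact if_pos (ConjClasses.mk_eq_mk_iff_isConj.mpr h)
    · rw [if_neg h]
      exact if_neg (fun h' => h (ConjClasses.mk_eq_mk_iff_isConj.mp h'))
  have hint : ∀ x : G, IsIntegral ℤ (wt θ (fun y : M₀ => conjInd (y : G) x)) := by
    intro x
    refine isIntegral_wt hθ _ ?_ (fun y => isIntegral_conjInd _ _)
    intro g y
    exact conjInd_conj (g : G) (y : G) x
  rw [h1, wt_comp_classes, red_sum] at hne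
  · obtain ⟨L, -, hL⟩ := Finset.exists_ne_zero_of_sum_ne_zero hne
    obtain ⟨x, rfl⟩ := L.exists_rep
    change red 𝔐 (F (ConjClasses.mk x) * wt θ (fun y : M₀ =>
      if ConjClasses.mk (M₀.subtype y) = ConjClasses.mk x then (1 : ℂ) else 0)) ≠ 0 at hL
    rw [hF, hci, red_mul 𝔐 (hEi x) (hint x)] at hL
    have hL1 := left_ne_zero_of_mul hL
    have hL2 := right_ne_zero_of_mul hL
    have hx : x ∈ M₀ := by
      by_contra hx
      apply hL1
      rw [hEdef, RDZ.ex_not, red_zero]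
      rwa [Subgroup.range_subtype]
    refine ⟨x, hx, ?_, hL2⟩
    intro g hg hgx n hn
    by_contra hg1
    apply hL1
    have hEx : E x = RDZ.F0 c θ ⟨x, hx⟩ := hEj ⟨x, hx⟩
    rw [hEx, RDZ.F0, red_sum]
    · refine Finset.sum_eq_zero fun θ₁ hθ₁ => ?_
      have hdv : ℓ ∣ Nat.card (Subgroup.centralizer ({(⟨x, hx⟩ : M₀)⁻¹} : Set M₀)) := by
        refine dvd_card (g := (⟨g, hg⟩ : M₀)) (n := n) ?_ ?_ ?_
        · exact Subtype.ext hgx
        · exact Subtype.ext hn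
        · intro h
          exact hg1 (congrArg Subtype.val h)
      refine red_char 𝔐 hℓ (RDZ.orb_irr hθ hθ₁) ?_ _ hdv
      obtain ⟨y, rfl⟩ := RDZ.mem_orb.mp hθ₁
      exact (hasDefect_comp_equiv (c y)).mpr hd
    · intro θ₁ hθ₁
      exact isIntegral_char (RDZ.orb_irr hθ hθ₁) _
  · intro L _
    obtain ⟨x, rfl⟩ := L.exists_rep
    change IsIntegral ℤ (F (ConjClasses.mk x) * wt θ (fun y : M₀ =>
      if ConjClasses.mk (M₀.subtype y) = ConjClasses.mk x then (1 : ℂ) else 0))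
    rw [hF, hci]
    exact (hEi x).mul (hint x)

end Pool.Agent.DPT


end

section

/-!
# DZ6: the chain sums of the blocks over characters of the smallest possible defect
-/

set_option linter.unusedSectionVars false

namespace Pool.Agent.DPT

open Pool.Agent.DP Pool.Agent.DPC Pool.Agent.DPM Pool.Agent.DPN Pool.Agent.Lib_helper13
open Representation
open Pool.Agent.Lib_helper13.Dade (pCore DadeHolds dadeSum)

namespace DZ6

/-! ### Counting characters of subgroups -/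

section Count

variable {Y : Type} [Group Y] [Fintype Y]

/-- Characters of subgroups as functions on the group. -/
theorem card_on (ℓ d : ℕ) (S : Subgroup Y) (Q : (S → ℂ) → Prop) :
    Nat.card {θ : S → ℂ // IsIrr θ ∧ (HasDefect ℓ θ d ∧ Q θ)} =
      Nat.card {ψ : Y → ℂ // ID ℓ S d ψ ∧ Q (fun s => ψ s)} := by
  refine Nat.card_congr ⟨fun θ => ⟨ext0 θ.1, ⟨MLE.irrOn_ext0 θ.2.1, ?_⟩, ?_⟩,
    fun ψ => ⟨fun s => ψ.1 s, ψ.2.1.1.1, ψ.2.1.2, ψ.2.2⟩, ?_, ?_⟩
  · rw [MLE.ext0_coe]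
    exact θ.2.2.1
  · rw [MLE.ext0_coe]
    exact θ.2.2.2
  · intro θ
    exact Subtype.ext (MLE.ext0_coe θ.1)
  · intro ψ
    refine Subtype.ext (funext fun x => ?_)
    by_cases hx : x ∈ S
    · exact ext0_of_mem _ hx
    · show ext0 (fun s : S => ψ.1 s) x = ψ.1 x
      rw [ext0_of_not_mem _ hx, ψ.2.1.1.2 x hx]

/-- The sum of the counts over a finite set of central functions. -/
theorem sum_cnt (𝔐 : Ideal (integralClosure ℤ ℂ)) (ℓ d : ℕ) (S : Subgroup Y)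
    (Ω : Finset (Y → (integralClosure ℤ ℂ) ⧸ 𝔐)) :
    ∑ ω ∈ Ω, cnt 𝔐 ℓ d S.subtype ω =
      Nat.card {ψ : Y → ℂ // ID ℓ S d ψ ∧ cen 𝔐 S.subtype (fun s => ψ s) ∈ Ω} := by
  rw [← card_on ℓ d S (fun θ => cen 𝔐 S.subtype θ ∈ Ω)]
  rw [ISOL.card_rel (fun θ : S → ℂ => IsIrr θ ∧ (HasDefect ℓ θ d ∧ cen 𝔐 S.subtype θ ∈ Ω))
    (finite_isIrr.subset fun η h => h.1) (fun ω θ => cen 𝔐 S.subtype θ = ω) Ω]
  · refine Finset.sum_congr rfl fun ω hω => ?_
    refine Nat.card_congr (Equiv.subtypeEquivRight fun θ => ?_)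
    constructor
    · rintro ⟨h1, h2, h3⟩
      exact ⟨⟨h1, h2, by rw [funext h3]; exact hω⟩, funext h3⟩
    · rintro ⟨⟨h1, h2, -⟩, h4⟩
      exact ⟨h1, h2, fun g => congrFun h4 g⟩
  · rintro θ ⟨_, _, h⟩
    exact ⟨_, h, rfl⟩
  · rintro θ _ b b' rfl rfl
    rfl

variable {G : Type} [Group G] {ℓ : ℕ} {k : Y →* G}

theorem exists_lam (hk : FC ℓ k) {S : Subgroup Y} (hS : k.ker ≤ S) {ψ : Y → ℂ}
    (hψ : IrrOn S ψ) : ∃ lam : k.ker →* ℂˣ, OvK k lam ψ := by
  obtain ⟨ν, hν⟩ := ISOL.exists_lin hk.cen hS hψ.1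
  refine ⟨ν, fun z y => ?_⟩
  by_cases hy : y ∈ S
  · exact ISOL.lin_apply hS hν z ⟨y, hy⟩
  · rw [hψ.2 y hy, mul_zero]
    apply hψ.2
    intro h
    exact hy ((S.mul_mem_cancel_left (hS z.2)).1 h)

theorem lam_unique {ψ : Y → ℂ} (h1 : ψ 1 ≠ 0) {lam lam' : k.ker →* ℂˣ} (h : OvK k lam ψ)
    (h' : OvK k lam' ψ) : lam = lam' := by
  ext z
  have h2 := h z 1
  have h3 := h' z 1
  rw [h2] at h3
  exact mul_right_cancel₀ h1 h3

theorem irrOn_one {S : Subgroup Y} {ψ : Y → ℂ} (hψ : IrrOn S ψ) : ψ 1 ≠ 0 :=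
  hψ.1.one_ne_zero

/-- The characters, sorted by the linear character under them. -/
theorem sum_lam (hk : FC ℓ k) {S : Subgroup Y} (hS : k.ker ≤ S) (d : ℕ)
    [Fintype (k.ker →* ℂˣ)] (Q : (Y → ℂ) → Prop) :
    Nat.card {ψ : Y → ℂ // ID ℓ S d ψ ∧ Q ψ} =
      ∑ lam : k.ker →* ℂˣ, Nat.card {ψ : Y → ℂ // ID ℓ S d ψ ∧ OvK k lam ψ ∧ Q ψ} := by
  have hfin : {ψ : Y → ℂ | ID ℓ S d ψ ∧ Q ψ}.Finite := by
    refine ((finite_isIrr (H := S)).image (fun θ => ext0 θ)).subset ?_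
    rintro ψ ⟨h1, -⟩
    refine ⟨fun s => ψ s, h1.1.1, ?_⟩
    funext x
    by_cases hx : x ∈ S
    · exact ext0_of_mem _ hx
    · show ext0 (fun s : S => ψ s) x = ψ x
      rw [ext0_of_not_mem _ hx, h1.1.2 x hx]
  rw [ISOL.card_rel (fun ψ : Y → ℂ => ID ℓ S d ψ ∧ Q ψ) hfin (fun lam ψ => OvK k lam ψ)
    Finset.univ]
  · refine Finset.sum_congr rfl fun lam _ => ?_
    refine Nat.card_congr (Equiv.subtypeEquivRight fun ψ => ?_)
    constructor
    · rintro ⟨⟨h1, h2⟩, h3⟩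
      exact ⟨h1, h3, h2⟩
    · rintro ⟨h1, h3, h2⟩
      exact ⟨⟨h1, h2⟩, h3⟩
  · rintro ψ ⟨h1, -⟩
    obtain ⟨lam, h⟩ := exists_lam hk hS h1.1
    exact ⟨lam, Finset.mem_univ _, h⟩
  · rintro ψ ⟨h1, -⟩ lam lam' h h'
    exact lam_unique (irrOn_one h1.1) h h'

end Count

/-! ### Weights -/

section Wt

variable {Y : Type} [Group Y] [Fintype Y] (𝔐 : Ideal (integralClosure ℤ ℂ))

theorem wS_top (χ F : Y → ℂ) : wS ⊤ χ F = wt χ F :=
  wt_comp_equiv Subgroup.topEquiv χ F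

theorem irrOn_top {χ : Y → ℂ} (h : IsIrr χ) : IrrOn ⊤ χ :=
  ⟨h.comp_mulEquiv Subgroup.topEquiv, fun x hx => absurd (Subgroup.mem_top x) hx⟩

theorem pair_congr {F : Y → ℂ} {c c' : Y → (integralClosure ℤ ℂ) ⧸ 𝔐}
    (h : ∀ x, F x ≠ 0 → c x = c' x) : pair 𝔐 F c = pair 𝔐 F c' := by
  unfold pair
  refine finsum_congr fun C => ?_
  by_cases hC : F C.out = 0
  · rw [hC, red_zero, zero_mul, zero_mul]
  · rw [h _ hC]

/-- The weight of a character of a subgroup in terms of its central function. -/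
theorem wS_pair {S : Subgroup Y} {ψ F : Y → ℂ} (hψ : IrrOn S ψ)
    (hF : ∀ g x, F (g * x * g⁻¹) = F x) (hi : ∀ x, IsIntegral ℤ (F x)) :
    red 𝔐 (wS S ψ F) = pair 𝔐 F (cen 𝔐 S.subtype (fun s => ψ s)) :=
  red_wt_eq_pair 𝔐 S.subtype hψ.1 F hF hi

theorem wt_pair {χ F : Y → ℂ} (hχ : IsIrr χ)
    (hF : ∀ g x, F (g * x * g⁻¹) = F x) (hi : ∀ x, IsIntegral ℤ (F x)) :
    red 𝔐 (wt χ F) = pair 𝔐 F (cen 𝔐 (MonoidHom.id Y) χ) :=
  red_wt_eq_pair 𝔐 (MonoidHom.id Y) hχ F hF hi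

theorem exists_irr {ℓ : ℕ} [Fact ℓ.Prime] (hM : 𝔐.IsMaximal)
    (hℓ : (ℓ : integralClosure ℤ ℂ) ∈ 𝔐) {Z : Subgroup Y} {σ : Finset (Subgroup Y)}
    (hσ : IsCh ℓ Z σ) {S : Subgroup Y} (hS : stb σ = S) {ψ : Y → ℂ} (hψ : IrrOn S ψ) :
    ∃ χ : Y → ℂ, IsIrr χ ∧ cen 𝔐 (MonoidHom.id Y) χ = cen 𝔐 S.subtype (fun s => ψ s) := by
  have hp : 𝔐.IsPrime := hM.isPrime
  subst hS
  exact exists_irr_of_mult 𝔐 hψ.1 (exists_irr_of_chain 𝔐 hℓ hσ hψ.1)

end Wt

/-! ### The functions `rg` and `pu` -/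

section Fun

variable {Y G : Type} [Group Y] [Fintype Y] [Group G] [Fintype G] (ℓ : ℕ) (k : Y →* G)

theorem rg_class {F : G → ℂ} (hF : ∀ g x, F (g * x * g⁻¹) = F x) (n x : Y) :
    rg ℓ k F (n * x * n⁻¹) = rg ℓ k F x := by
  unfold rg
  have h4 : orderOf (n * x * n⁻¹) = orderOf x := by
    have h5 := (MulAut.conj n).orderOf_eq x
    rw [MulAut.conj_apply] at h5
    exact h5
  rw [h4]
  by_cases h5 : ℓ ∣ orderOf x
  · rw [if_pos h5, if_pos h5]
  · rw [if_neg h5, if_neg h5, map_mul, map_mul, map_inv]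
    exact hF (k n) (k x)

theorem rg_int {F : G → ℂ} (hi : ∀ x, IsIntegral ℤ (F x)) (x : Y) :
    IsIntegral ℤ (rg ℓ k F x) := by
  unfold rg
  by_cases h5 : ℓ ∣ orderOf x
  · rw [if_pos h5]
    exact isIntegral_zero
  · rw [if_neg h5]
    exact hi _

theorem rg_supp {F : G → ℂ} {x : Y} (h : F (k x) = 0) : rg ℓ k F x = 0 := by
  unfold rg
  by_cases h5 : ℓ ∣ orderOf x
  · rw [if_pos h5]
  · rw [if_neg h5, h]

theorem pu_class (hk : Function.Surjective k) {F : Y → ℂ}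
    (hF : ∀ g x, F (g * x * g⁻¹) = F x) (n x : G) :
    pu k F (n * x * n⁻¹) = pu k F x := by
  classical
  obtain ⟨m, rfl⟩ := hk n
  unfold pu
  symm
  refine Fintype.sum_equiv (MulAut.conj m).toEquiv _ _ fun y => ?_
  change (if k y = x then F y else 0) =
    if k (m * y * m⁻¹) = k m * x * (k m)⁻¹ then F (m * y * m⁻¹) else 0
  rw [hF, map_mul, map_mul, map_inv]
  by_cases h : k y = x
  · rw [if_pos h, if_pos (by rw [h])]
  · rw [if_neg h, if_neg]
    intro h'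
    exact h (mul_left_cancel (mul_right_cancel h'))

theorem pu_int {F : Y → ℂ} (hi : ∀ x, IsIntegral ℤ (F x)) (x : G) :
    IsIntegral ℤ (pu k F x) := by
  classical
  unfold pu
  refine IsIntegral.sum _ fun y _ => ?_
  by_cases h : k y = x
  · rw [if_pos h]
    exact hi y
  · rw [if_neg h]
    exact isIntegral_zero

theorem pu_supp {F : Y → ℂ} {M₀ : Subgroup G} (h : ∀ y, k y ∉ M₀ → F y = 0) (x : G)
    (hx : x ∉ M₀) : pu k F x = 0 := by
  classical
  unfold pu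
  refine Finset.sum_eq_zero fun y _ => ?_
  by_cases h1 : k y = x
  · rw [if_pos h1]
    apply h
    rw [h1]
    exact hx
  · rw [if_neg h1]

end Fun

/-! ### The characters of the type of `θ₀` -/

section Ty

variable {Y G : Type} [Group Y] [Fintype Y] [Group G] [Fintype G]
  {𝔐 : Ideal (integralClosure ℤ ℂ)} {ℓ : ℕ} [hℓp : Fact ℓ.Prime] {k : Y →* G}

/-- The weights of functions on `M` with respect to `χ` and a character of `M` under `χ`. -/
theorem wt_under (h8 : Stmt_SUMM) {M : Subgroup Y} (hM : M.Normal) {χ ξ F : Y → ℂ}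
    (hχ : IsIrr χ) (hξ : IrrOn M ξ) (hip : iS M χ ξ ≠ 0)
    (hF : ∀ g x, F (g * x * g⁻¹) = F x) (h0 : ∀ x, x ∉ M → F x = 0) :
    wt χ F = wS M ξ F := by
  rw [← wS_top]
  exact BTR.wS_under h8 le_top (fun s _ m hm => hM.conj_mem m hm s) (irrOn_top hχ) hξ hip
    (fun g _ x _ => hF g x) (fun x _ hx => h0 x hx)

theorem conjInd_supp {M : Subgroup Y} (hM : M.Normal) {g : Y} (hg : g ∈ M) (y : Y)
    (hy : y ∉ M) : conjInd y g = 0 := by
  classical
  unfold conjInd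
  rw [if_neg]
  intro h
  obtain ⟨c, hc⟩ := isConj_iff.mp h.symm
  apply hy
  rw [← hc]
  exact hM.conj_mem g hg c

/-- The type of a character is determined by the restriction to `M` of its central function. -/
theorem ty_iff (h6 : Stmt_MLV) (h7 : Stmt_TY0) (h8 : Stmt_SUMM)
    (hM : 𝔐.IsMaximal) (hℓ : (ℓ : integralClosure ℤ ℂ) ∈ 𝔐) (hk : FC ℓ k)
    (hks : Function.Surjective k) {M₀ : Subgroup G} (hn : M₀.Normal) {θ₀ : G → ℂ}
    (hθ : ID ℓ M₀ 0 θ₀) {lam₀ : k.ker →* ℂˣ} {ξ : Y → ℂ} (hξ : ML 𝔐 k lam₀ M₀ θ₀ ξ)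
    {χ : Y → ℂ} (hχ : IsIrr χ) (hip : iS (M₀.comap k) χ ξ ≠ 0) {S : Subgroup G}
    {σ : Finset (Subgroup Y)} (hσ : IsCh ℓ k.ker σ) (hS : stb σ = S.comap k) {ψ : Y → ℂ}
    (hψ : IrrOn (S.comap k) ψ) {lam : k.ker →* ℂˣ} (hlam : OvK k lam ψ) :
    (∃ χ₁, IsIrr χ₁ ∧ cen 𝔐 (MonoidHom.id Y) χ₁ = cen 𝔐 (S.comap k).subtype (fun s => ψ s) ∧
      ∀ g ∈ M₀.comap k, cen 𝔐 (MonoidHom.id Y) χ₁ g = cen 𝔐 (MonoidHom.id Y) χ g) ↔
      TyR 𝔐 ℓ k M₀ S ψ θ₀ := by
  have hnY : (M₀.comap k).Normal := hn.comap k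
  have htop : M₀ ≤ k.range := fun x _ => hks x
  have hSM : (S ⊓ M₀).comap k ≤ S.comap k := Subgroup.comap_mono inf_le_left
  constructor
  · rintro ⟨χ₁, -, hc, hM1⟩ F hF hi h0
    have hF1 := rg_class ℓ k hF
    have hi1 := rg_int ℓ k hi
    have h01 : ∀ x, x ∉ M₀.comap k → rg ℓ k F x = 0 := fun x hx =>
      rg_supp ℓ k (h0 (k x) hx)
    have e1 := wS_pair 𝔐 hψ hF1 hi1
    have e2 : pair 𝔐 (rg ℓ k F) (cen 𝔐 (S.comap k).subtype (fun s => ψ s)) =
        pair 𝔐 (rg ℓ k F) (cen 𝔐 (MonoidHom.id Y) χ) := by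
      apply pair_congr
      intro x hx
      rw [← hc]
      apply hM1
      by_contra hx'
      exact hx (h01 x hx')
    have e3 := wt_pair 𝔐 hχ hF1 hi1
    have e4 := wt_under h8 hnY hχ hξ.1 hip hF1 h01
    have e5 := (h6 Y G 𝔐 ℓ hM hℓ k hk lam₀ M₀ htop θ₀ ξ hθ hξ).2 F
      (fun n _ x _ => hF n x) hi
    rw [e1, e2, ← e3, e4, e5]
  · intro hty
    obtain ⟨χ', hχ', hip'⟩ := BTR.exists_under hSM hψ
    obtain ⟨θ', hθ', hML', hw⟩ := h7 Y G 𝔐 ℓ hM hℓ k hk lam M₀ hn htop θ₀ hθ S ψ hψ hlam hty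
      χ' hχ' hip'
    obtain ⟨χ₁, hχ₁, hc⟩ := exists_irr 𝔐 hM hℓ hσ hS hψ
    refine ⟨χ₁, hχ₁, hc, fun g hg => ?_⟩
    have hF : ∀ a x : Y, (fun y => conjInd y g) (a * x * a⁻¹) = (fun y => conjInd y g) x :=
      fun a x => conjInd_conj a x g
    have hi : ∀ x : Y, IsIntegral ℤ ((fun y => conjInd y g) x) := fun x =>
      isIntegral_conjInd x g
    have h0 : ∀ x : Y, x ∉ M₀.comap k → (fun y => conjInd y g) x = 0 := fun x hx =>
      conjInd_supp hnY hg x hx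
    have e1 : cen 𝔐 (MonoidHom.id Y) χ₁ g =
        red 𝔐 (wS (S.comap k) ψ (fun y => conjInd y g)) := by
      rw [hc]
      rfl
    have e2 : wS (S.comap k) ψ (fun y => conjInd y g) =
        wS ((S ⊓ M₀).comap k) χ' (fun y => conjInd y g) := by
      refine BTR.wS_under h8 hSM ?_ hψ hχ' hip' (fun a _ x _ => hF a x) ?_
      · intro s hs m hm
        refine ⟨?_, ?_⟩
        · exact (S.comap k).mul_mem ((S.comap k).mul_mem hs hm.1) ((S.comap k).inv_mem hs)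
        · exact hnY.conj_mem m hm.2 s
      · intro x hx hx'
        apply h0
        intro hx2
        exact hx' ⟨hx, hx2⟩
    have e3 := (h6 Y G 𝔐 ℓ hM hℓ k hk lam (S ⊓ M₀) (inf_le_right.trans htop) θ' χ' hθ'
      hML').1 (fun y => conjInd y g) (fun a _ x _ => hF a x) hi
    have e4 := hw (pu k (fun y => conjInd y g)) (pu_class k hks hF) (pu_int k hi)
      (pu_supp k (fun y hy => h0 y hy))
    have e5 := (h6 Y G 𝔐 ℓ hM hℓ k hk lam₀ M₀ htop θ₀ ξ hθ hξ).1 (fun y => conjInd y g)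
      (fun a _ x _ => hF a x) hi
    have e6 := wt_under h8 hnY hχ hξ.1 hip hF h0
    rw [e1, e2, e3, e4, ← e5, ← e6]
    rfl

end Ty

/-! ### The alternatives -/

section Alt

theorem alt {G H : Type} [Group G] [Group H] [Finite H] {ℓ : ℕ} [hp : Fact ℓ.Prime]
    (h9 : Stmt_HHS) (hH : HH ℓ H) (fb : G →* H) (M₀ : Subgroup G)
    (hf : ∀ x, fb x = 1 ↔ x ∈ M₀) (T : Subgroup G) (hT : M₀ ≤ T) :
    (∃ O : Subgroup G, M₀ < O ∧ O ≤ T ∧ (∀ x ∈ O, ∃ n : ℕ, x ^ ℓ ^ n ∈ M₀) ∧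
      ∀ g ∈ T, ∀ x ∈ O, g * x * g⁻¹ ∈ O) ∨ (∀ x ∈ T, x ^ ℓ ∈ M₀ → x ∈ M₀) := by
  obtain ⟨P, hPn, hPp, hPi, -⟩ := (h9 H ℓ hH).1 ↥(T.map fb) (T.map fb).subtype
    (Subgroup.subtype_injective _)
  by_cases hP : P = ⊥
  · right
    intro x hx hxl
    rw [← hf]
    rw [hP, Subgroup.index_bot] at hPi
    have hmem : fb x ∈ T.map fb := Subgroup.mem_map_of_mem fb hx
    have h1 : (⟨fb x, hmem⟩ : ↥(T.map fb)) ^ ℓ = 1 := by
      apply Subtype.ext
      change fb x ^ ℓ = 1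
      rw [← map_pow, hf]
      exact hxl
    have h2 : orderOf (⟨fb x, hmem⟩ : ↥(T.map fb)) ∣ ℓ := orderOf_dvd_of_pow_eq_one h1
    have h3 : orderOf (⟨fb x, hmem⟩ : ↥(T.map fb)) ∣ Nat.card ↥(T.map fb) :=
      orderOf_dvd_natCard _
    have h4 : orderOf (⟨fb x, hmem⟩ : ↥(T.map fb)) = 1 := by
      rcases (Nat.dvd_prime hp.out).mp h2 with h5 | h5
      · exact h5
      · rw [h5] at h3
        exact absurd h3 hPi
    exact congrArg Subtype.val (orderOf_eq_one_iff.mp h4)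
  · left
    have hO : ∀ x, x ∈ T ⊓ (P.map (T.map fb).subtype).comap fb ↔
        ∃ hx : x ∈ T, (⟨fb x, Subgroup.mem_map_of_mem fb hx⟩ : ↥(T.map fb)) ∈ P := by
      intro x
      constructor
      · rintro ⟨h1, h2⟩
        refine ⟨h1, ?_⟩
        obtain ⟨p, hp1, hp2⟩ := h2
        have h3 : (⟨fb x, Subgroup.mem_map_of_mem fb h1⟩ : ↥(T.map fb)) = p :=
          Subtype.ext hp2.symm
        rw [h3]
        exact hp1
      · rintro ⟨h1, h2⟩
        exact ⟨h1, ⟨_, h2, rfl⟩⟩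
    refine ⟨T ⊓ (P.map (T.map fb).subtype).comap fb, ?_, inf_le_left, ?_, ?_⟩
    · refine lt_of_le_of_ne ?_ ?_
      · intro x hx
        rw [hO]
        refine ⟨hT hx, ?_⟩
        have h1 : (⟨fb x, Subgroup.mem_map_of_mem fb (hT hx)⟩ : ↥(T.map fb)) = 1 :=
          Subtype.ext ((hf x).2 hx)
        rw [h1]
        exact P.one_mem
      · intro heq
        apply hP
        rw [Subgroup.eq_bot_iff_forall]
        rintro ⟨p, hpT⟩ hpP
        obtain ⟨t, ht, rfl⟩ := hpT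
        have h1 : t ∈ M₀ := by
          rw [heq, hO]
          exact ⟨ht, hpP⟩
        exact Subtype.ext ((hf t).2 h1)
    · intro x hx
      obtain ⟨h1, h2⟩ := (hO x).1 hx
      obtain ⟨n, hn⟩ := hPp ⟨_, h2⟩
      refine ⟨n, ?_⟩
      rw [← hf, map_pow]
      have h3 := congrArg (fun z : P => ((z : ↥(T.map fb)) : H)) hn
      exact h3
    · intro g hg x hx
      obtain ⟨h1, h2⟩ := (hO x).1 hx
      rw [hO]
      refine ⟨T.mul_mem (T.mul_mem hg h1) (T.inv_mem hg), ?_⟩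
      have h3 := hPn.conj_mem _ h2 ⟨fb g, Subgroup.mem_map_of_mem fb hg⟩
      have h4 : (⟨fb (g * x * g⁻¹), Subgroup.mem_map_of_mem fb
          (T.mul_mem (T.mul_mem hg h1) (T.inv_mem hg))⟩ : ↥(T.map fb)) =
          ⟨fb g, Subgroup.mem_map_of_mem fb hg⟩ * ⟨fb x, Subgroup.mem_map_of_mem fb h1⟩ *
            (⟨fb g, Subgroup.mem_map_of_mem fb hg⟩)⁻¹ := by
        apply Subtype.ext
        change fb (g * x * g⁻¹) = fb g * fb x * (fb g)⁻¹
        rw [map_mul, map_mul, map_inv]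
      rw [h4]
      exact h3

theorem le_sx {G : Type} [Group G] [Fintype G] {M₀ : Subgroup G} (hn : M₀.Normal)
    {θ₀ ξ : G → ℂ} (hθ : IrrOn M₀ θ₀) (hξ : ∃ g, ∀ x, ξ x = θ₀ (g * x * g⁻¹)) :
    M₀ ≤ sx ξ := by
  obtain ⟨g, hg⟩ := hξ
  intro m hm x
  rw [hg, hg]
  have h1 := BTR.IrrOn_class hθ (hn.conj_mem m hm g) (g * x * g⁻¹)
  rw [← h1]
  congr 1
  group

end Alt

/-! ### The main step -/

theorem core (h1 : Stmt_DZS) (h2 : Stmt_BLM) (h3 : Stmt_TWL) (h4 : Stmt_CHZ) (h5 : Stmt_MLE)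
    (h6 : Stmt_MLV) (h7 : Stmt_TY0) (h8 : Stmt_SUMM) (h9 : Stmt_HHS)
    (Y G H : Type) [Group Y] [Fintype Y] [Group G] [Fintype G] [Group H] [Finite H]
    (𝔐 : Ideal (integralClosure ℤ ℂ)) (ℓ : ℕ) [Fact ℓ.Prime] (hM : 𝔐.IsMaximal)
    (hℓ : (ℓ : integralClosure ℤ ℂ) ∈ 𝔐) (hH : HH ℓ H) (k : Y →* G) (hk : FC ℓ k)
    (hks : Function.Surjective k) (M : Subgroup Y) (hkM : k.ker ≤ M) (f : Y →* H)
    (hf : Function.Surjective f) (hfM : ∀ x, f x = 1 ↔ x ∈ M) (χ : Y → ℂ) (ξ : M → ℂ)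
    (hχ : IsIrr χ) (hξ : IsIrr ξ) (hdef : HasDefect ℓ ξ (padicValNat ℓ (Nat.card k.ker)))
    (hip : ip (resj M.subtype χ) ξ ≠ 0) (d : ℕ) (hd : padicValNat ℓ (Nat.card k.ker) < d) :
    KK 𝔐 ℓ d k.ker (cen 𝔐 (MonoidHom.id Y) χ) = 0 := by
  classical
  -- the groups
  have hMn : M.Normal := by
    have e : M = f.ker := by
      ext x
      rw [MonoidHom.mem_ker, hfM]
    rw [e]
    infer_instance
  obtain ⟨M₀, hM₀⟩ : ∃ M₀ : Subgroup G, M₀ = M.map k := ⟨_, rfl⟩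
  have hcM : M₀.comap k = M := by
    rw [hM₀]
    exact Subgroup.comap_map_eq_self hkM
  have hn : M₀.Normal := by
    rw [hM₀]
    exact hMn.map k hks
  have hrange : k.range = ⊤ := MonoidHom.range_eq_top.mpr hks
  have htop : M₀ ≤ k.range := fun x _ => hks x
  obtain ⟨fb, hfb⟩ : ∃ fb : G →* H, ∀ y, fb (k y) = f y := by
    refine ⟨k.liftOfSurjective hks ⟨f, ?_⟩, fun y => ?_⟩
    · intro x hx
      rw [MonoidHom.mem_ker, hfM]
      exact hkM hx
    · exact MonoidHom.liftOfRightInverse_comp_apply _ _ _ _ _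
  have hfbM : ∀ x, fb x = 1 ↔ x ∈ M₀ := by
    intro x
    obtain ⟨y, rfl⟩ := hks x
    rw [hfb, hfM, ← hcM]
    exact Iff.rfl
  -- the characters
  have hξe : IrrOn (M₀.comap k) (ext0 ξ) := by
    rw [hcM]
    exact MLE.irrOn_ext0 hξ
  have hξID : ID ℓ (M₀.comap k) (padicValNat ℓ (Nat.card k.ker)) (ext0 ξ) := by
    rw [hcM]
    refine ⟨MLE.irrOn_ext0 hξ, ?_⟩
    rw [MLE.ext0_coe]
    exact hdef
  have hker : ∀ S : Subgroup G, k.ker ≤ S.comap k := by
    intro S z hz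
    rw [Subgroup.mem_comap, MonoidHom.mem_ker.mp hz]
    exact S.one_mem
  have hipe : iS (M₀.comap k) χ (ext0 ξ) ≠ 0 := by
    rw [hcM]
    unfold iS
    rw [MLE.ext0_coe]
    exact hip
  obtain ⟨lam₀, hlam₀⟩ := exists_lam hk (hker M₀) hξe
  obtain ⟨θ₀, hθ₀, hML⟩ := (h5 Y G 𝔐 ℓ hM hℓ k hk lam₀ M₀ htop).2 (ext0 ξ) hξID hlam₀
  -- the set of central functions
  have hΩfin : {ω : Y → (integralClosure ℤ ℂ) ⧸ 𝔐 | ∃ χ₁, IsIrr χ₁ ∧
      cen 𝔐 (MonoidHom.id Y) χ₁ = ω ∧ ∀ g ∈ M₀.comap k,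
        cen 𝔐 (MonoidHom.id Y) χ₁ g = cen 𝔐 (MonoidHom.id Y) χ g}.Finite := by
    refine (finite_cen 𝔐 (MonoidHom.id Y)).subset ?_
    rintro ω ⟨χ₁, h, h', -⟩
    exact ⟨χ₁, h, h'⟩
  obtain ⟨Ω, hΩ⟩ : ∃ Ω : Finset (Y → (integralClosure ℤ ℂ) ⧸ 𝔐), ∀ ω, ω ∈ Ω ↔
      ∃ χ₁, IsIrr χ₁ ∧ cen 𝔐 (MonoidHom.id Y) χ₁ = ω ∧ ∀ g ∈ M₀.comap k,
        cen 𝔐 (MonoidHom.id Y) χ₁ g = cen 𝔐 (MonoidHom.id Y) χ g :=
    ⟨hΩfin.toFinset, fun ω => by rw [Set.Finite.mem_toFinset]; exact Iff.rfl⟩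
  have hχΩ : cen 𝔐 (MonoidHom.id Y) χ ∈ Ω := (hΩ _).2 ⟨χ, hχ, rfl, fun _ _ => rfl⟩
  -- all the chain sums are equal
  have hC : ∀ ω ∈ Ω, KK 𝔐 ℓ d k.ker ω = KK 𝔐 ℓ d k.ker (cen 𝔐 (MonoidHom.id Y) χ) := by
    intro ω hω
    obtain ⟨χ₁, hχ₁, rfl, hag⟩ := (hΩ ω).1 hω
    obtain ⟨P, hPn, hPp, hPi, hPc⟩ := hH
    obtain ⟨lam, -, hlam⟩ := h2 Y H 𝔐 ℓ hM hℓ M f hf hfM P hPn hPp hPi hPc χ χ₁ hχ hχ₁
      (fun g hg => (hag g (by rw [hcM]; exact hg)).symm)
    have e1 : cen 𝔐 (MonoidHom.id Y) χ₁ = fun g =>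
        red 𝔐 (((lam.comp f) g : ℂˣ) : ℂ) * cen 𝔐 (MonoidHom.id Y) χ g := funext hlam
    rw [e1]
    exact h3 Y 𝔐 ℓ hM hℓ (lam.comp f) k.ker d (cen 𝔐 (MonoidHom.id Y) χ)
  -- the sum over the linear characters
  have hfl : Finite (k.ker →* ℂˣ) := ISOL.finiteLin k.ker hk.cen
  have hfl' : Fintype (k.ker →* ℂˣ) := Fintype.ofFinite _
  obtain ⟨hch, hsum⟩ := h4 Y G ℓ k hk hks
  have hB1 : ∑ ω ∈ Ω, KK 𝔐 ℓ d k.ker ω = ∑ σ ∈ Ch ℓ k.ker, (-1 : ℚ) ^ σ.card *
      ((fun S : Subgroup Y => (Nat.card S : ℚ) * Nat.card {ψ : Y → ℂ // ID ℓ S d ψ ∧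
        cen 𝔐 S.subtype (fun s => ψ s) ∈ Ω}) (stb σ)) := by
    unfold KK
    rw [Finset.sum_comm]
    refine Finset.sum_congr rfl fun σ _ => ?_
    rw [← Finset.mul_sum, ← Finset.mul_sum]
    congr 2
    rw [← sum_cnt 𝔐 ℓ d (stb σ) Ω]
    push_cast
    rfl
  have hB2 : ∀ τ ∈ Ch ℓ (⊥ : Subgroup G), ((fun S : Subgroup Y => (Nat.card S : ℚ) *
      Nat.card {ψ : Y → ℂ // ID ℓ S d ψ ∧ cen 𝔐 S.subtype (fun s => ψ s) ∈ Ω})
        ((stb τ).comap k)) =
      (Nat.card k.ker : ℚ) * ∑ lam : k.ker →* ℂˣ, WR 𝔐 ℓ d k lam M₀ θ₀ (stb τ) := by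
    intro τ hτ
    obtain ⟨σ, hσ, -, hst⟩ := hch τ (mem_Ch.mp hτ)
    have e1 := sum_lam hk (hker (stb τ)) d
      (fun ψ => cen 𝔐 ((stb τ).comap k).subtype (fun s => ψ s) ∈ Ω)
    have e2 : ∀ lam : k.ker →* ℂˣ, Nat.card {ψ : Y → ℂ // ID ℓ ((stb τ).comap k) d ψ ∧
        OvK k lam ψ ∧ cen 𝔐 ((stb τ).comap k).subtype (fun s => ψ s) ∈ Ω} =
        Nat.card {ψ : Y → ℂ // ID ℓ ((stb τ).comap k) d ψ ∧ OvK k lam ψ ∧
          TyR 𝔐 ℓ k M₀ (stb τ) ψ θ₀} := by
      intro lam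
      refine Nat.card_congr (Equiv.subtypeEquivRight fun ψ => ?_)
      refine and_congr_right fun hψ => and_congr_right fun hov => ?_
      rw [hΩ]
      exact ty_iff h6 h7 h8 hM hℓ hk hks hn hθ₀ hML hχ hipe hσ hst hψ.1 hov
    have e3 : Nat.card ↥((stb τ).comap k) = Nat.card k.ker * Nat.card ↥(stb τ ⊓ k.range) := by
      rw [hrange, inf_top_eq, ← MLE.card_ker k (stb τ)]
      exact QINF.card_eq (MLE.kT k (stb τ)) (MLE.kT_surj (by rw [hrange]; exact le_top))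
    change (Nat.card ↥((stb τ).comap k) : ℚ) * Nat.card {ψ : Y → ℂ //
      ID ℓ ((stb τ).comap k) d ψ ∧ cen 𝔐 ((stb τ).comap k).subtype (fun s => ψ s) ∈ Ω} = _
    rw [e1, Finset.sum_congr rfl fun lam _ => e2 lam, e3]
    unfold WR
    rw [← Finset.mul_sum]
    push_cast
    ring
  have hB3 : ∀ lam : k.ker →* ℂˣ, ∑ τ ∈ Ch ℓ (⊥ : Subgroup G),
      (-1 : ℚ) ^ τ.card * WR 𝔐 ℓ d k lam M₀ θ₀ (stb τ) = 0 := by
    intro lam
    have e1 := h1 Y G H 𝔐 ℓ hM hℓ hH k hk lam M₀ ⊤ hn inferInstance le_top htop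
      (fb.comp k.range.subtype) (fun x => hfbM x) θ₀ hθ₀ d (by
        intro ξ' hξ'
        have hT := le_sx hn hθ₀.1 hξ'
        rcases alt h9 hH fb M₀ hfbM (sx ξ') hT with ⟨O, hO1, hO2, hO3, hO4⟩ | h
        · exact Or.inl ⟨O, hO1, le_inf le_top hO2, hO3, hO4⟩
        · exact Or.inr ⟨fun x hx => h x hx.2, fun x hx => h x hx.2, hd.ne'⟩)
    rw [← e1]
    refine Finset.sum_congr ?_ fun _ _ => rfl
    rw [Finset.filter_true_of_mem]
    intro τ _ D _
    exact le_top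
  have hB : ∑ ω ∈ Ω, KK 𝔐 ℓ d k.ker ω = 0 := by
    rw [hB1]
    refine (hsum (fun S : Subgroup Y => (Nat.card S : ℚ) * Nat.card {ψ : Y → ℂ // ID ℓ S d ψ ∧
      cen 𝔐 S.subtype (fun s => ψ s) ∈ Ω})).trans ?_
    have e1 : ∀ τ ∈ Ch ℓ (⊥ : Subgroup G), (-1 : ℚ) ^ τ.card *
        ((fun S : Subgroup Y => (Nat.card S : ℚ) * Nat.card {ψ : Y → ℂ // ID ℓ S d ψ ∧
          cen 𝔐 S.subtype (fun s => ψ s) ∈ Ω}) ((stb τ).comap k)) =
        ∑ lam : k.ker →* ℂˣ, (Nat.card k.ker : ℚ) *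
          ((-1 : ℚ) ^ τ.card * WR 𝔐 ℓ d k lam M₀ θ₀ (stb τ)) := by
      intro τ hτ
      rw [hB2 τ hτ, ← Finset.mul_sum, ← Finset.mul_sum]
      ring
    rw [Finset.sum_congr rfl e1, Finset.sum_comm]
    refine Finset.sum_eq_zero fun lam _ => ?_
    rw [← Finset.mul_sum, hB3 lam, mul_zero]
  rw [Finset.sum_congr rfl hC, Finset.sum_const, nsmul_eq_mul] at hB
  rcases mul_eq_zero.mp hB with h | h
  · exact absurd h (by
      rw [Nat.cast_eq_zero, Finset.card_eq_zero]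
      exact Finset.ne_empty_of_mem hχΩ)
  · exact h

end DZ6

/-- DZ6: the chain sums of the blocks over characters of the smallest possible defect. -/
theorem DZ6_thm (h1 : Stmt_DZS) (h2 : Stmt_BLM) (h3 : Stmt_TWL) (h4 : Stmt_CHZ)
    (h5 : Stmt_MLE) (h6 : Stmt_MLV) (h7 : Stmt_TY0) (h8 : Stmt_SUMM) (h9 : Stmt_HHS) :
    Stmt_DZ6 := by
  intro X H _ _ _ _ 𝔐 ℓ _ hM hℓ hH Z M hZ hZp hZM f hf hfM χ ξ hχ hξ hdef hip d hd
  have hZn : Z.Normal := by
    refine ⟨fun z hz g => ?_⟩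
    have h := Subgroup.mem_center_iff.mp (hZ hz) g
    rw [h, mul_inv_cancel_right]
    exact hz
  have hfin : Fintype (X ⧸ Z) := Fintype.ofFinite _
  have hker : (QuotientGroup.mk' Z).ker = Z := QuotientGroup.ker_mk' Z
  have hFC : FC ℓ (QuotientGroup.mk' Z) := by
    refine ⟨?_, ?_⟩
    · rw [hker]
      exact hZ
    · rw [hker]
      exact hZp
  have h := DZ6.core h1 h2 h3 h4 h5 h6 h7 h8 h9 X (X ⧸ Z) H 𝔐 ℓ hM hℓ hH
    (QuotientGroup.mk' Z) hFC (QuotientGroup.mk'_surjective Z) M (by rw [hker]; exact hZM) f hf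
    hfM χ ξ hχ hξ (by rw [hker]; exact hdef) hip d (by rw [hker]; exact hd)
  rw [hker] at h
  exact h

end Pool.Agent.DPT


end

section

/-!
# LNQ: the characters which are not fixed by `M`
-/

namespace Pool.Agent.DPT

open Pool.Agent.DP Pool.Agent.DPC Pool.Agent.DPM Pool.Agent.DPN Pool.Agent.Lib_helper13
open Representation
open Pool.Agent.Lib_helper13.Dade (pCore DadeHolds dadeSum)

namespace LNQ

/-- Irreducible characters of commutative groups. -/
theorem irr_ab {H : Type*} [Group H] {χ : H → ℂ} (h : IsIrr χ)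
    (hc : ∀ x y : H, x * y = y * x) : χ 1 = 1 ∧ ∀ x, χ x ≠ 0 := by
  obtain ⟨n, ρ, hρ, rfl⟩ := h
  have hM : IsMulCommutative H := ⟨⟨hc⟩⟩
  have h1 : Module.finrank ℂ (Fin n → ℂ) = 1 :=
    Representation.IsIrreducible.finrank_eq_one_of_isMulCommutative ρ
  rw [Module.finrank_fin_fun] at h1
  subst h1
  refine ⟨by simp, fun x hx => ?_⟩
  obtain ⟨c, hcx⟩ := exists_scalar ρ hρ (ρ x) (fun g y => by
    rw [← Module.End.mul_apply, ← map_mul, hc, map_mul, Module.End.mul_apply])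
  have h2 : ρ.character x = c := by
    rw [Representation.character, hcx, map_smul, LinearMap.trace_id]
    simp
  rw [hx] at h2
  rw [← h2, zero_smul] at hcx
  have h3 : ρ x * ρ x⁻¹ = 1 := by
    rw [← map_mul, mul_inv_cancel, map_one]
  rw [hcx, zero_mul] at h3
  have h4 := congrArg (fun f : Module.End ℂ (Fin 1 → ℂ) => f (fun _ => 1) 0) h3
  simp at h4

section

variable {L K : Type} [Group L] [Group K]

/-- The image of the centralizer in the inverse image of `M` of the inverse image of `Q`. -/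
def Mz (π : L →* K) (Q M : Subgroup K) : Subgroup K where
  carrier := {k | k ∈ M ∧ ∃ m, π m = k ∧ ∀ x, π x ∈ Q → m * x = x * m}
  one_mem' := ⟨M.one_mem, 1, map_one π, fun x _ => by rw [one_mul, mul_one]⟩
  mul_mem' := by
    rintro a b ⟨ha, m, rfl, hm⟩ ⟨hb, m', rfl, hm'⟩
    refine ⟨M.mul_mem ha hb, m * m', map_mul π _ _, fun x hx => ?_⟩
    rw [mul_assoc, hm' x hx, ← mul_assoc, hm x hx, mul_assoc]
  inv_mem' := by
    rintro a ⟨ha, m, rfl, hm⟩
    refine ⟨M.inv_mem ha, m⁻¹, map_inv π _, fun x hx => ?_⟩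
    have h := hm x hx
    calc m⁻¹ * x = m⁻¹ * (x * m) * m⁻¹ := by group
      _ = m⁻¹ * (m * x) * m⁻¹ := by rw [h]
      _ = x * m⁻¹ := by group

theorem mem_Mz {π : L →* K} {Q M : Subgroup K} {k : K} :
    k ∈ Mz π Q M ↔ k ∈ M ∧ ∃ m, π m = k ∧ ∀ x, π x ∈ Q → m * x = x * m := Iff.rfl

theorem Mz_le {π : L →* K} {Q M : Subgroup K} : Mz π Q M ≤ M := fun _ h => h.1

theorem Mz_normal {π : L →* K} (hs : Function.Surjective π) {Q M : Subgroup K} (hM : M.Normal)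
    (hQ : Q.Normal) : (Mz π Q M).Normal := by
  constructor
  rintro k ⟨hk, m, rfl, hm⟩ g
  obtain ⟨l, rfl⟩ := hs g
  refine ⟨hM.conj_mem _ hk _, l * m * l⁻¹, by simp, fun x hx => ?_⟩
  have h1 : π (l⁻¹ * x * l) ∈ Q := by
    have := hQ.conj_mem _ hx (π l)⁻¹
    simpa using this
  have h2 := hm _ h1
  calc l * m * l⁻¹ * x = l * (m * (l⁻¹ * x * l)) * l⁻¹ := by group
    _ = l * (l⁻¹ * x * l * m) * l⁻¹ := by rw [h2]
    _ = x * (l * m * l⁻¹) := by group

/-- All elements of the inverse image of `Mz` commute with the inverse image of `Q`. -/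
theorem comm_of_mem {π : L →* K} (hc : π.ker ≤ Subgroup.center L) {Q M : Subgroup K} {m x : L}
    (hm : π m ∈ Mz π Q M) (hx : π x ∈ Q) : m * x = x * m := by
  obtain ⟨_, m', h1, h2⟩ := hm
  have h3 : m'⁻¹ * m ∈ π.ker := by
    rw [MonoidHom.mem_ker, map_mul, map_inv, h1, inv_mul_cancel]
  have h4 := Subgroup.mem_center_iff.mp (hc h3) x
  have h5 := h2 x hx
  calc m * x = m' * (m'⁻¹ * m * x) := by group
    _ = m' * (x * (m'⁻¹ * m)) := by rw [h4]
    _ = m' * x * (m'⁻¹ * m) := by group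
    _ = x * m' * (m'⁻¹ * m) := by rw [h5]
    _ = x * m := by group

/-- A minimal normal subgroup which is an `ℓ`-group is commutative. -/
theorem min_ab [Finite K] {ℓ : ℕ} [Fact ℓ.Prime] {Q : Subgroup K} (hQ : Q.Normal)
    (hp : IsPGroup ℓ Q) (hmin : ∀ Q' : Subgroup K, Q'.Normal → Q' ≤ Q → Q' = ⊥ ∨ Q' = Q) :
    ∀ x ∈ Q, ∀ y ∈ Q, x * y = y * x := by
  have h1 : (⁅Q, Q⁆ : Subgroup K).Normal := Subgroup.commutator_normal Q Q
  have h2 : ⁅Q, Q⁆ ≤ Q := Subgroup.commutator_le_left Q Q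
  rcases hmin _ h1 h2 with h | h
  · intro x hx y hy
    have h3 := Subgroup.commutator_mem_commutator hx hy
    rw [h, Subgroup.mem_bot, commutatorElement_eq_one_iff_mul_comm] at h3
    exact h3
  · intro x hx y hy
    rcases subsingleton_or_nontrivial Q with hn | hn
    · have h3 : (⟨x, hx⟩ : Q) = ⟨y, hy⟩ := Subsingleton.elim _ _
      have h4 : x = y := congrArg Subtype.val h3
      rw [h4]
    · exfalso
      have hnil : Group.IsNilpotent Q := hp.isNilpotent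
      have hsol : Group.IsSolvable Q := inferInstance
      have h3 := Group.IsSolvable.commutator_lt_top_of_nontrivial Q
      have h4 : (commutator Q).map Q.subtype = Q := by
        rw [commutator_def, Subgroup.map_commutator, ← MonoidHom.range_eq_map, Subgroup.range_subtype]
        exact h
      apply h3.ne
      rw [eq_top_iff]
      rintro ⟨z, hz⟩ _
      rw [← h4] at hz
      obtain ⟨w, hw, hwz⟩ := hz
      have h5 : w = ⟨z, by rw [← hwz]; exact w.2⟩ := Subtype.ext hwz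
      rwa [h5] at hw

end

end LNQ

open _root_.Pool.Agent.DPT.LNQ in
theorem LNQ_thm : Stmt_LNQ := by
  intro L K _ _ _ _ ℓ _ π hs hc μ hμ M Q hM hQ hp hmin hQM ν hν hov hnot
  have hab := min_ab hQ hp hmin
  have hcen : ∀ z, π z = 1 → ∀ x, z * x = x * z := fun z hz x =>
    (Subgroup.mem_center_iff.mp (hc (MonoidHom.mem_ker.mpr hz)) x).symm
  -- the commutators
  have hcom : ∀ x y, π x * π y = π y * π x → π (x * y * x⁻¹ * y⁻¹) = 1 := by
    intro x y h
    simp only [map_mul, map_inv]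
    rw [h]
    group
  have hμ1 : ∀ z (hz : π z = 1), ((μ ⟨z, MonoidHom.mem_ker.mpr hz⟩ : ℂˣ) : ℂ) = 1 → z = 1 := by
    intro z hz h
    have h1 : μ ⟨z, MonoidHom.mem_ker.mpr hz⟩ = 1 := Units.ext h
    have h2 := hμ (h1.trans (map_one μ).symm)
    exact congrArg Subtype.val h2
  -- invariance forces trivial commutators at nonzero values
  have hinv : ∀ x y, π x * π y = π y * π x → ν (x * y * x⁻¹) = ν y → ν y ≠ 0 →
      x * y = y * x := by
    intro x y hxy h h0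
    have h1 := hcom x y hxy
    have h2 := hov ⟨_, MonoidHom.mem_ker.mpr h1⟩ y
    have h3 : x * y * x⁻¹ * y⁻¹ * y = x * y * x⁻¹ := by group
    change ν (x * y * x⁻¹ * y⁻¹ * y) = _ at h2
    rw [h3, h] at h2
    have h4 : ((μ ⟨_, MonoidHom.mem_ker.mpr h1⟩ : ℂˣ) : ℂ) = 1 := by
      have h5 : ((μ ⟨_, MonoidHom.mem_ker.mpr h1⟩ : ℂˣ) : ℂ) * ν y = 1 * ν y := by
        rw [one_mul]
        exact h2.symm
      exact mul_right_cancel₀ h0 h5
    have h5 := hμ1 _ h1 h4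
    have h6 : x * y * x⁻¹ * y⁻¹ * (y * x) = x * y := by group
    rw [h5, one_mul] at h6
    exact h6.symm
  have hQhat : ∀ x y, π x ∈ Q → π y ∈ Q → x * y = y * x := by
    rcases hmin _ (Mz_normal (π := π) hs hQ hQ) Mz_le with h | h
    · exfalso
      apply hnot
      -- `ν` vanishes outside the kernel
      have h1 : ∀ x, π x ≠ 1 → ν x = 0 := by
        intro x hx
        by_cases hxQ : π x ∈ Q
        · by_contra h0
          apply hx
          have h2 : π x ∈ Mz π Q Q := by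
            refine ⟨hxQ, x, rfl, fun y hy => ?_⟩
            have h3 : ν (y * x * y⁻¹) = ν x := hν.1.conj_eq (⟨y, hy⟩ : Q.comap π) ⟨x, hxQ⟩
            exact (hinv y x (hab _ hy _ hxQ) h3 h0).symm
          rw [h, Subgroup.mem_bot] at h2
          exact h2
        · exact hν.2 x hxQ
      intro g _ x
      by_cases hx : π x = 1
      · rw [mul_assoc, hcen x hx g⁻¹, ← mul_assoc, mul_inv_cancel, one_mul]
      · rw [h1 x hx, h1]
        intro h2
        apply hx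
        rw [map_mul, map_mul, map_inv, mul_inv_eq_one] at h2
        exact mul_left_cancel (h2.trans (mul_one _).symm)
    · intro x y hx hy
      rw [← h] at hx
      exact comm_of_mem hc hx hy
  have hlin := irr_ab hν.1 (fun x y => Subtype.ext (hQhat x y x.2 y.2))
  have h0 : ∀ x, π x ∈ Q → ν x ≠ 0 := fun x hx => hlin.2 ⟨x, hx⟩
  have hMQ : ∀ x y, π x ∈ M → π y ∈ Q → π x * π y = π y * π x := by
    intro x y hx hy
    have h1 : π x * π y * (π x)⁻¹ * (π y)⁻¹ ∈ Q ⊓ M := by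
      refine ⟨Q.mul_mem (hQ.conj_mem _ hy _) (Q.inv_mem hy), ?_⟩
      have h2 := M.mul_mem hx (hM.conj_mem _ (M.inv_mem hx) (π y))
      rwa [← mul_assoc, ← mul_assoc] at h2
    rw [hQM, Subgroup.mem_bot] at h1
    have h2 : π x * π y * (π x)⁻¹ * (π y)⁻¹ * (π y * π x) = π x * π y := by group
    rw [h1, one_mul] at h2
    exact h2.symm
  refine ⟨Mz π Q M, ⟨hQ, hp, hQM, hM, Mz_normal hs hM hQ, Mz_le, hν, hov, hlin.1, hQhat, ?_, ?_,
    ?_⟩⟩
  · intro m hm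
    constructor
    · intro h x
      by_cases hx : π x ∈ Q
      · rw [comm_of_mem hc h hx, mul_assoc, mul_inv_cancel, mul_one]
      · rw [hν.2 x hx, hν.2]
        intro h2
        apply hx
        have h3 := hQ.conj_mem _ h2 (π m)⁻¹
        have h4 : (π m)⁻¹ * π (m * x * m⁻¹) * (π m)⁻¹⁻¹ = π x := by
          simp only [map_mul, map_inv]
          group
        rwa [h4] at h3
    · intro h
      exact ⟨hm, m, rfl, fun x hx => hinv m x (hMQ m x hm hx) (h x) (h0 x hx)⟩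
  · intro m x hm hx
    exact comm_of_mem hc hm hx
  · intro x hx
    obtain ⟨m, rfl⟩ := hs x
    obtain ⟨n, hn⟩ := IsPGroup.iff_card.mp hp
    refine ⟨n, ?_⟩
    rw [← map_pow]
    refine ⟨by rw [map_pow]; exact M.pow_mem hx _, m ^ ℓ ^ n, rfl, fun y hy => ?_⟩
    -- the commutator of `m` and `y`
    obtain ⟨z, hz⟩ : ∃ z, z = m * y * m⁻¹ * y⁻¹ := ⟨_, rfl⟩
    have hz1 : π z = 1 := by
      rw [hz]
      exact hcom m y (hMQ m y hx hy)
    have hzc := hcen z hz1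
    have h1 : ∀ k : ℕ, m ^ k * y = z ^ k * (y * m ^ k) := by
      intro k
      induction k with
      | zero => simp
      | succ k ih =>
        have h2 : m * y = z * (y * m) := by
          rw [hz]
          group
        have h3 : m * z ^ k = z ^ k * m := by
          have := (Commute.pow_left (show Commute z m from hzc m) k)
          exact this.symm
        calc m ^ (k + 1) * y = m * (m ^ k * y) := by rw [pow_succ']; group
          _ = m * (z ^ k * (y * m ^ k)) := by rw [ih]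
          _ = (m * z ^ k) * (y * m ^ k) := by group
          _ = (z ^ k * m) * (y * m ^ k) := by rw [h3]
          _ = z ^ k * (m * y) * m ^ k := by group
          _ = z ^ k * (z * (y * m)) * m ^ k := by rw [h2]
          _ = z ^ (k + 1) * (y * m ^ (k + 1)) := by rw [pow_succ, pow_succ']; group
    have h2 : ∀ k : ℕ, m * y ^ k = z ^ k * (y ^ k * m) := by
      intro k
      induction k with
      | zero => simp
      | succ k ih =>
        have h2 : m * y = z * (y * m) := by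
          rw [hz]
          group
        have h3 : y ^ k * z = z * y ^ k := by
          have := (Commute.pow_right (show Commute z y from hzc y) k)
          exact this.symm
        calc m * y ^ (k + 1) = (m * y ^ k) * y := by rw [pow_succ]; group
          _ = z ^ k * (y ^ k * m) * y := by rw [ih]
          _ = z ^ k * y ^ k * (m * y) := by group
          _ = z ^ k * y ^ k * (z * (y * m)) := by rw [h2]
          _ = z ^ k * (y ^ k * z) * (y * m) := by group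
          _ = z ^ k * (z * y ^ k) * (y * m) := by rw [h3]
          _ = z ^ (k + 1) * (y ^ (k + 1) * m) := by rw [pow_succ, pow_succ]; group
    have h3 : π (y ^ ℓ ^ n) = 1 := by
      rw [map_pow, ← hn]
      have h4 : (⟨π y, hy⟩ : Q) ^ Nat.card Q = 1 := pow_card_eq_one'
      exact congrArg Subtype.val h4
    have h4 := h2 (ℓ ^ n)
    rw [← hcen _ h3 m] at h4
    have h5 : z ^ ℓ ^ n = 1 := by
      have h6 : 1 * (y ^ ℓ ^ n * m) = z ^ ℓ ^ n * (y ^ ℓ ^ n * m) := by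
        rw [one_mul]
        exact h4
      exact (mul_right_cancel h6).symm
    rw [h1, h5, one_mul]

end Pool.Agent.DPT


end

section

/-!
# Dade's conjecture: the Moebius sum for elements which do not generate
-/

namespace Pool.Agent.DPF

open Pool.Agent.DP Pool.Agent.DPC Pool.Agent.DPM Pool.Agent.DPN Pool.Agent.Lib_helper13
  Representation

namespace MBX

/-- The subgroup generated by two elements and `P` is everything iff its preimage is. -/
theorem top_iff {W H : Type} [Group W] [Group H] {π : W →* H} (hπ : Function.Surjective π)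
    (P : Subgroup H) (x y : W) :
    Subgroup.closure {x, y} ⊔ P.comap π = ⊤ ↔ Subgroup.closure {π x, π y} ⊔ P = ⊤ := by
  have h1 : (Subgroup.closure {x, y} ⊔ P.comap π).map π = Subgroup.closure {π x, π y} ⊔ P := by
    rw [Subgroup.map_sup, MonoidHom.map_closure, Set.image_pair,
      Subgroup.map_comap_eq_self_of_surjective hπ]
  constructor
  · intro h
    rw [← h1, h, ← MonoidHom.range_eq_map, MonoidHom.range_eq_top.mpr hπ]
  · intro h
    have h2 : π.ker ≤ Subgroup.closure {x, y} ⊔ P.comap π :=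
      le_trans (Subgroup.comap_mono bot_le) le_sup_right
    rw [← Subgroup.comap_map_eq_self h2, h1, h, Subgroup.comap_top]

theorem le_iff {H : Type} [Group H] (P V : Subgroup H) (x y : H) :
    Subgroup.closure {x, y} ⊔ P ≤ V ↔ P ≤ V ∧ x ∈ V ∧ y ∈ V := by
  rw [sup_le_iff, Subgroup.closure_le, Set.insert_subset_iff, Set.singleton_subset_iff, and_comm]
  rfl

end MBX

theorem MBX_thm : Stmt_MBX := by
  classical
  intro W H _ _ _ _ π hπ P m hm x y
  refine ⟨fun hne g => ?_, ?_⟩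
  · have h0 : Subgroup.closure {π x, π y} ⊔ P ≠ ⊤ := fun h => hne ((MBX.top_iff hπ P x y).mpr h)
    have h1 := ABF.mobC hm h0 (fun V => if π x ∈ V ∧ π y ∈ V then g (V ⊓ P) else 0)
    refine Eq.trans (Finset.sum_congr rfl fun V _ => ?_) h1
    have hx : π x ∈ Subgroup.closure {π x, π y} ⊔ P :=
      (le_sup_left : _ ≤ _ ⊔ P) (Subgroup.subset_closure (Set.mem_insert _ _))
    have hy : π y ∈ Subgroup.closure {π x, π y} ⊔ P :=
      (le_sup_left : _ ≤ _ ⊔ P) (Subgroup.subset_closure (Set.mem_insert_of_mem _ rfl))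
    have h2 : (V ⊓ (Subgroup.closure {π x, π y} ⊔ P)) ⊓ P = V ⊓ P := by
      rw [inf_assoc, inf_eq_right.mpr (le_sup_right : P ≤ Subgroup.closure {π x, π y} ⊔ P)]
    simp only [Subgroup.mem_inf, hx, hy, and_true, h2]
  · have h1 := hm (Subgroup.closure {π x, π y} ⊔ P)
    have h2 : ((∑ V with Subgroup.closure {π x, π y} ⊔ P ≤ V, m V : ℚ) : ℂ) =
        if Subgroup.closure {π x, π y} ⊔ P = ⊤ then 1 else 0 := by
      rw [h1]
      split_ifs
      · exact Rat.cast_one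
      · exact Rat.cast_zero
    rw [Rat.cast_sum, Finset.sum_filter] at h2
    refine Eq.trans (Finset.sum_congr rfl fun V _ => ?_) (h2.trans ?_)
    · by_cases h : P ≤ V ∧ π x ∈ V ∧ π y ∈ V
      · rw [if_pos h, if_pos ((MBX.le_iff P V (π x) (π y)).mpr h)]
      · rw [if_neg h, if_neg (fun h' => h ((MBX.le_iff P V (π x) (π y)).mp h'))]
    · by_cases h : Subgroup.closure {x, y} ⊔ P.comap π = ⊤
      · rw [if_pos h, if_pos ((MBX.top_iff hπ P x y).mp h)]
      · rw [if_neg h, if_neg (fun h' => h ((MBX.top_iff hπ P x y).mpr h'))]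

end Pool.Agent.DPF


end

section

/-!
# FOX: Fourier transform of the twisted relations
-/

namespace Pool.Agent.DPF

open Pool.Agent.DP Pool.Agent.DPC Pool.Agent.DPM Pool.Agent.DPN Pool.Agent.Lib_helper13
  Representation

namespace FOX

variable {W : Type} [Group W] [Fintype W]

open Classical in
/-- The sum over the linear characters of the central subgroup. -/
theorem sum_lin {A : Subgroup W} (hA : A ≤ Subgroup.center W) {S : Subgroup W} (hS : A ≤ S)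
    [Fintype (A →* ℂˣ)] {η : S → ℂ} (hη : IsIrr η) (ν : A →* ℂˣ) (a : A) :
    ∑ ν' : A →* ℂˣ, (((ν' a)⁻¹ : ℂˣ) : ℂ) * (if OvL A (ν * ν') S η then 1 else 0) =
      ((ν a : ℂˣ) : ℂ) * (ext0 η (a : W)⁻¹ / η 1) := by
  obtain ⟨κ, hκ⟩ := ISOL.exists_lin hA hS hη
  have h1 : ∀ ν' : A →* ℂˣ, OvL A (ν * ν') S η ↔ ν' = ν⁻¹ * κ := by
    intro ν'
    constructor
    · intro h
      have h0 := ISOL.lin_unique hS hη h hκ
      rw [← h0]
      exact (inv_mul_cancel_left ν ν').symm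
    · intro h
      have h0 : ν * (ν⁻¹ * κ) = κ := mul_inv_cancel_left ν κ
      rw [h, h0]
      exact hκ
  rw [Finset.sum_eq_single (ν⁻¹ * κ)]
  · rw [if_pos ((h1 _).mpr rfl), mul_one]
    have h2 : ext0 η (a : W)⁻¹ = ((κ a⁻¹ : ℂˣ) : ℂ) * η 1 := by
      have h3 : (a : W)⁻¹ ∈ S := S.inv_mem (hS a.2)
      rw [ext0_of_mem η h3]
      have h4 := hκ ⟨(a : W)⁻¹, h3⟩ 1 (A.inv_mem a.2)
      rw [mul_one] at h4
      exact h4
    rw [h2, mul_div_assoc, div_self hη.one_ne_zero, mul_one, ← Units.val_mul]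
    congr 1
    rw [MonoidHom.mul_apply, MonoidHom.inv_apply, map_inv, mul_inv, inv_inv]
  · intro ν' _ hne
    rw [if_neg (fun h => hne ((h1 ν').mp h)), mul_zero]
  · intro h
    exact absurd (Finset.mem_univ _) h

end FOX

open Classical in
theorem FOX_thm : Stmt_FOX := by
  intro W H ι _ _ _ _ _ ℓ _ π hker s d ν m hrel a n
  have : Finite (π.ker →* ℂˣ) := FOU.finite_hom _
  let _ : Fintype (π.ker →* ℂˣ) := Fintype.ofFinite _
  have hA : ∀ V : Subgroup H, π.ker ≤ V.comap π := by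
    intro V x hx
    rw [Subgroup.mem_comap, MonoidHom.mem_ker.mp hx]
    exact V.one_mem
  -- the relation with complex values
  have h1 : ∑ ν' : π.ker →* ℂˣ, (((ν' a)⁻¹ : ℂˣ) : ℂ) *
      ∑ i, (s i : ℂ) * ((PSM ℓ π m (ν i * ν') (d i) n : ℚ) : ℂ) = 0 := by
    refine Finset.sum_eq_zero fun ν' _ => ?_
    have h2 := congrArg (fun x : ℚ => (x : ℂ)) (hrel ν' n)
    simp only [Rat.cast_sum, Rat.cast_mul, Rat.cast_zero] at h2
    rw [h2, mul_zero]
  -- the count as a sum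
  have h2 : ∀ i (ν' : π.ker →* ℂˣ), ((PSM ℓ π m (ν i * ν') (d i) n : ℚ) : ℂ) =
      ∑ V, (m V : ℂ) * ((Nat.card V : ℂ) *
        ∑ η ∈ irrF (V.comap π) with (∃ e, HasDefect ℓ η e ∧ e + d i = n),
          (if OvL π.ker (ν i * ν') (V.comap π) η then (1 : ℂ) else 0)) := by
    intro i ν'
    unfold PSM
    rw [Rat.cast_sum]
    refine Finset.sum_congr rfl fun V _ => ?_
    rw [Rat.cast_mul, Rat.cast_mul, Rat.cast_natCast, Rat.cast_natCast]
    congr 2
    rw [MXM.card_irr (fun η => OvL π.ker (ν i * ν') _ η ∧ ∃ e, HasDefect ℓ η e ∧ e + d i = n),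
      Finset.sum_ite, Finset.sum_const_zero, add_zero, Finset.sum_const, nsmul_eq_mul, mul_one,
      Finset.filter_filter]
    congr 2
    ext η
    simp only [Finset.mem_filter]
    tauto
  -- exchange the sums
  have h3 : ∑ i, (s i : ℂ) * ∑ V, (m V : ℂ) * ((Nat.card V : ℂ) *
      ∑ η ∈ irrF (V.comap π) with (∃ e, HasDefect ℓ η e ∧ e + d i = n),
        ((ν i a : ℂˣ) : ℂ) * (ext0 η (a : W)⁻¹ / η 1)) = 0 := by
    refine Eq.trans ?_ h1
    symm
    simp only [h2, Finset.mul_sum]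
    rw [Finset.sum_comm]
    refine Finset.sum_congr rfl fun i _ => ?_
    rw [Finset.sum_comm]
    refine Finset.sum_congr rfl fun V _ => ?_
    rw [Finset.sum_comm]
    refine Finset.sum_congr rfl fun η hη => ?_
    rw [← FOX.sum_lin hker (hA V) (mem_irrF.mp (Finset.mem_filter.mp hη).1) (ν i) a]
    simp only [Finset.mul_sum]
    refine Finset.sum_congr rfl fun ν' _ => ?_
    ring
  -- the terms with `d i > n` vanish
  rw [Finset.sum_filter]
  refine Eq.trans (Finset.sum_congr rfl fun i _ => ?_) h3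
  split_ifs with hi
  · unfold PHT
    rw [mul_assoc, Finset.mul_sum]
    congr 1
    refine Finset.sum_congr rfl fun V _ => ?_
    have h4 : (irrF (V.comap π)).filter (fun η => ∃ e, HasDefect ℓ η e ∧ e + d i = n) =
        (irrF (V.comap π)).filter (fun η => HasDefect ℓ η (n - d i)) := by
      ext η
      simp only [Finset.mem_filter]
      constructor
      · rintro ⟨k1, e, k2, k3⟩
        have : e = n - d i := by omega
        exact ⟨k1, this ▸ k2⟩
      · rintro ⟨k1, k2⟩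
        exact ⟨k1, n - d i, k2, by omega⟩
    rw [h4, ← Finset.mul_sum]
    ring
  · symm
    rw [Finset.sum_eq_zero, mul_zero]
    intro V _
    rw [Finset.sum_eq_zero, mul_zero, mul_zero]
    intro η hη
    obtain ⟨-, e, -, he⟩ := Finset.mem_filter.mp hη
    omega

end Pool.Agent.DPF


end

section

/-!
# Module DERX: outer derivations of a central extension
-/

set_option autoImplicit false

namespace Pool.Agent.DPX

open Pool.Agent.DPB Pool.Agent.DPW Representation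

namespace DERX

section Basic

variable {F T V : Type} [Field F] [Group T] [AddCommGroup V] [Module F V]

theorem der_one {ρ : Representation F T V} {δ : T → V →ₗ[F] V} (h : IsDer ρ δ) : δ 1 = 0 := by
  have h1 := h 1 1
  rw [mul_one, map_one, Module.End.one_eq_id, LinearMap.id_comp, LinearMap.comp_id] at h1
  have h2 : δ 1 + 0 = δ 1 + δ 1 := by rw [add_zero]; exact h1
  exact (add_left_cancel h2).symm

/-- Right multiplication by an element which acts trivially. -/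
theorem der_mul_right {ρ : Representation F T V} {δ : T → V →ₗ[F] V} (h : IsDer ρ δ) {u : T}
    (hu : ρ u = 1) (t : T) : δ (t * u) = ρ t ∘ₗ δ u + δ t := by
  rw [h, hu, Module.End.one_eq_id, LinearMap.comp_id]

theorem der_mul_left {ρ : Representation F T V} {δ : T → V →ₗ[F] V} (h : IsDer ρ δ) {u : T}
    (hu : ρ u = 1) (t : T) : δ (u * t) = δ t + δ u ∘ₗ ρ t := by
  rw [h, hu, Module.End.one_eq_id, LinearMap.id_comp]

/-- powers of an element which acts trivially -/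
theorem der_pow {ρ : Representation F T V} {δ : T → V →ₗ[F] V} (h : IsDer ρ δ) {u : T}
    (hu : ρ u = 1) (hδ : δ u = 0) (k : ℕ) : δ (u ^ k) = 0 := by
  induction k with
  | zero => rw [pow_zero, der_one h]
  | succ k ih => rw [pow_succ, der_mul_right h hu, hδ, ih, LinearMap.comp_zero, add_zero]

/-- The derivation of a power. -/
theorem der_pow_sum {ρ : Representation F T V} {δ : T → V →ₗ[F] V} (h : IsDer ρ δ) (y : T)
    (k : ℕ) : δ (y ^ k) = (∑ i ∈ Finset.range k, ρ (y ^ i) ∘ₗ (δ y ∘ₗ ρ y⁻¹) ∘ₗ ρ (y ^ i)⁻¹) ∘ₗ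
      ρ (y ^ k) := by
  induction k with
  | zero => rw [pow_zero, der_one h, Finset.sum_range_zero, LinearMap.zero_comp]
  | succ k ih =>
    rw [Finset.sum_range_succ, pow_succ, h, ih, LinearMap.add_comp, add_comm, map_mul]
    congr 1
    ext v
    simp only [LinearMap.comp_apply, Module.End.mul_apply]
    rw [← Module.End.mul_apply (ρ (y ^ k)⁻¹), ← map_mul, inv_mul_cancel, map_one,
      Module.End.one_apply, ← Module.End.mul_apply (ρ y⁻¹), ← map_mul, inv_mul_cancel, map_one,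
      Module.End.one_apply]

theorem schur [IsAlgClosed F] [Module.Finite F V] {ρ : Representation F T V}
    (hρ : ρ.IsIrreducible) {z : V →ₗ[F] V} (hz : ∀ g, z ∘ₗ ρ g = ρ g ∘ₗ z) :
    ∃ c : F, z = c • (1 : Module.End F V) := by
  have hb := (IsIrreducible.algebraMap_intertwiningMap_bijective_of_isAlgClosed (ρ := ρ)).2
  obtain ⟨c, hc⟩ := hb ⟨z, fun g => hz g⟩
  refine ⟨c, ?_⟩
  ext x
  exact (DFunLike.congr_fun hc x).symm

/-- The linear combinations of derivations. -/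
theorem der_comb {ρ : Representation F T V} {δ₁ δ₂ : T → V →ₗ[F] V} (h1 : IsDer ρ δ₁)
    (h2 : IsDer ρ δ₂) (c₁ c₂ : F) : IsDer ρ (fun g => c₁ • δ₁ g + c₂ • δ₂ g) := by
  intro g h
  simp only [h1 g h, h2 g h]
  ext v
  simp only [LinearMap.add_apply, LinearMap.smul_apply, LinearMap.comp_apply, map_add, map_smul,
    smul_add]
  abel

end Basic

section Quot

variable {F T S V : Type} [Field F] [Group T] [Group S] [AddCommGroup V] [Module F V]

/-- A derivation which vanishes on the kernel comes from the quotient. -/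
theorem descend {π : T →* S} (hπ : Function.Surjective π) {σ : Representation F S V}
    {δ : T → V →ₗ[F] V} (h : IsDer (σ.comp π) δ) (hk : ∀ u, π u = 1 → δ u = 0) :
    ∃ δ' : S → V →ₗ[F] V, IsDer σ δ' ∧ ∀ t, δ t = δ' (π t) := by
  have h1 : ∀ t t', π t = π t' → δ t = δ t' := by
    intro t t' ht
    have h2 : π (t⁻¹ * t') = 1 := by rw [map_mul, map_inv, ht, inv_mul_cancel]
    have h3 := der_mul_right h (u := t⁻¹ * t') (by
      show σ (π (t⁻¹ * t')) = 1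
      rw [h2, map_one]) t
    rw [mul_inv_cancel_left, hk _ h2, LinearMap.comp_zero, zero_add] at h3
    exact h3.symm
  obtain ⟨f, hf⟩ := hπ.hasRightInverse
  refine ⟨fun s => δ (f s), ?_, fun t => h1 _ _ (hf (π t)).symm⟩
  intro s s'
  have h3 : δ (f (s * s')) = δ (f s * f s') := by
    apply h1
    rw [map_mul, hf, hf, hf]
  have h4 : (σ.comp π) (f s) = σ s := congrArg σ (hf s)
  have h5 : (σ.comp π) (f s') = σ s' := congrArg σ (hf s')
  show δ (f (s * s')) = σ s ∘ₗ δ (f s') + δ (f s) ∘ₗ σ s'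
  rw [h3, h, h4, h5]

/-- The values of a derivation on the kernel are scalars. -/
theorem scalar [IsAlgClosed F] [Module.Finite F V] {π : T →* S} (hπ : Function.Surjective π)
    {σ : Representation F S V} (hσ : σ.IsIrreducible)
    {δ : T → V →ₗ[F] V} (h : IsDer (σ.comp π) δ) {u : T} (hu : π u = 1)
    (hc : ∀ t, t * u = u * t) : ∃ c : F, δ u = c • (1 : Module.End F V) := by
  refine schur hσ fun s => ?_
  obtain ⟨t, rfl⟩ := hπ s
  have hu' : (σ.comp π) u = 1 := by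
    show σ (π u) = 1
    rw [hu, map_one]
  have h1 := der_mul_right h hu' t
  rw [hc t, der_mul_left h hu', add_comm] at h1
  exact add_right_cancel h1

end Quot

end DERX

open _root_.Pool.Agent.DPX.DERX in
/-- DERX. -/
theorem DERX_thm (h1 : Stmt_DERP) : Stmt_DERX := by
  classical
  intro ℓ n _ F T S V _ _ _ _ _ _ _ _ _ _ π P₁ P hπ hker hcen hc1 hle hcyc hcard σ hσ
  have hmem : ∀ u, u ∈ P₁ ↔ π u = 1 := by
    intro u
    rw [← hker, MonoidHom.mem_ker]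
  have hcomm : ∀ u, π u = 1 → ∀ t : T, t * u = u * t := fun u hu t =>
    Subgroup.mem_center_iff.1 (hcen ((hmem u).2 hu)) t
  have htriv : ∀ u, π u = 1 → (σ.comp π) u = 1 := by
    intro u hu
    show σ (π u) = 1
    rw [hu, map_one]
  constructor
  · intro hno hDR δ₁ δ₂ hδ₁ hδ₂
    obtain ⟨⟨y, hyP⟩, hy⟩ := hcyc.exists_generator
    have hgen : ∀ x ∈ P, ∃ k : ℕ, y ^ k = x := by
      intro x hx
      have h2 := hy ⟨x, hx⟩
      rw [← mem_powers_iff_mem_zpowers] at h2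
      obtain ⟨k, hk⟩ := h2
      exact ⟨k, congrArg Subtype.val hk⟩
    have hmap : P.map π = Subgroup.zpowers (π y) := by
      apply le_antisymm
      · rintro _ ⟨x, hx, rfl⟩
        obtain ⟨k, rfl⟩ := hgen x hx
        rw [map_pow]
        exact Subgroup.npow_mem_zpowers _ _
      · rw [Subgroup.zpowers_le]
        exact ⟨y, hyP, rfl⟩
    have key : ∀ δ : T → V →ₗ[F] V, IsDer (σ.comp π) δ → ∀ u, π u = 1 → δ u = 0 := by
      intro δ hδ
      have hq : π (y ^ orderOf (π y)) = 1 := by rw [map_pow, pow_orderOf_eq_one]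
      have h0 : δ (y ^ orderOf (π y)) = 0 := by
        obtain ⟨c, hc⟩ := scalar hπ hσ hδ hq (hcomm _ hq)
        by_contra hne
        have hc0 : c ≠ 0 := by
          rintro rfl
          apply hne
          rw [hc, zero_smul]
        apply hno
        refine ⟨c⁻¹ • (δ y ∘ₗ (σ.comp π) y⁻¹), ?_⟩
        have h2 := der_pow_sum hδ y (orderOf (π y))
        rw [htriv _ hq, Module.End.one_eq_id, LinearMap.comp_id, hc] at h2
        have h3 : trS (P.map π) σ σ (c⁻¹ • (δ y ∘ₗ (σ.comp π) y⁻¹)) =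
            c⁻¹ • ∑ i ∈ Finset.range (orderOf (π y)), (σ.comp π) (y ^ i) ∘ₗ
              (δ y ∘ₗ (σ.comp π) y⁻¹) ∘ₗ (σ.comp π) (y ^ i)⁻¹ := by
          unfold trS
          rw [← Finset.sum_filter]
          have h4 : (Finset.univ.filter fun h => h ∈ P.map π) =
              (Finset.range (orderOf (π y))).image fun i => π y ^ i := by
            ext h
            rw [Finset.mem_filter, hmap, mem_zpowers_iff_mem_range_orderOf]
            simp only [Finset.mem_univ, true_and]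
          have h5 : ∑ h ∈ Finset.univ.filter (fun h => h ∈ P.map π),
              σ h ∘ₗ (c⁻¹ • (δ y ∘ₗ (σ.comp π) y⁻¹)) ∘ₗ σ h⁻¹ =
            ∑ i ∈ Finset.range (orderOf (π y)), σ (π y ^ i) ∘ₗ
              (c⁻¹ • (δ y ∘ₗ (σ.comp π) y⁻¹)) ∘ₗ σ (π y ^ i)⁻¹ := by
            rw [h4, Finset.sum_image]
            intro i hi j hj hij
            have hi' := Finset.mem_range.1 (Finset.mem_coe.1 hi)
            have hj' := Finset.mem_range.1 (Finset.mem_coe.1 hj)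
            exact pow_injOn_Iio_orderOf hi' hj' hij
          have h6 : (∑ h ∈ Finset.univ.filter (fun h => h ∈ P.map π),
              σ h ∘ₗ (c⁻¹ • (δ y ∘ₗ (σ.comp π) y⁻¹)) ∘ₗ σ h⁻¹) =
              c⁻¹ • ∑ i ∈ Finset.range (orderOf (π y)), (σ.comp π) (y ^ i) ∘ₗ
              (δ y ∘ₗ (σ.comp π) y⁻¹) ∘ₗ (σ.comp π) (y ^ i)⁻¹ := by
            rw [h5, Finset.smul_sum]
            refine Finset.sum_congr rfl fun i _ => ?_
            rw [LinearMap.smul_comp, LinearMap.comp_smul]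
            congr 1
            show _ = σ (π (y ^ i)) ∘ₗ _ ∘ₗ σ (π (y ^ i)⁻¹)
            rw [map_inv π, map_pow π]
          exact h6
        rw [h3, ← h2, smul_smul, inv_mul_cancel₀ hc0, one_smul]
      intro u hu
      obtain ⟨k, rfl⟩ := hgen u (hle ((hmem u).2 hu))
      have h2 : orderOf (π y) ∣ k := by
        rw [map_pow] at hu
        exact orderOf_dvd_of_pow_eq_one hu
      obtain ⟨m, rfl⟩ := h2
      rw [pow_mul]
      exact der_pow hδ (htriv _ hq) h0 m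
    obtain ⟨d₁, hd₁, he₁⟩ := descend hπ hδ₁ (key δ₁ hδ₁)
    obtain ⟨d₂, hd₂, he₂⟩ := descend hπ hδ₂ (key δ₂ hδ₂)
    obtain ⟨c₁, c₂, X, hc, hX⟩ := hDR d₁ d₂ hd₁ hd₂
    refine ⟨c₁, c₂, X, hc, fun g => ?_⟩
    rw [he₁, he₂]
    exact hX (π g)
  · rintro ⟨g, hg⟩ δ₁ δ₂ hδ₁ hδ₂
    have hcycP₁ : IsCyclic P₁ := isCyclic_of_prime_card hc1
    obtain ⟨⟨u, huP⟩, hu⟩ := hcycP₁.exists_generator
    have hu1 : π u = 1 := (hmem u).1 huP
    obtain ⟨l₁, hl₁⟩ := scalar hπ hσ hδ₁ hu1 (hcomm u hu1)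
    obtain ⟨l₂, hl₂⟩ := scalar hπ hσ hδ₂ hu1 (hcomm u hu1)
    obtain ⟨c₁, c₂, hc, hcl⟩ : ∃ c₁ c₂ : F, (c₁ ≠ 0 ∨ c₂ ≠ 0) ∧ c₁ * l₁ + c₂ * l₂ = 0 := by
      by_cases h2 : l₂ = 0
      · exact ⟨0, 1, Or.inr one_ne_zero, by rw [h2]; ring⟩
      · exact ⟨l₂, -l₁, Or.inl h2, by ring⟩
    obtain ⟨d, hd, he⟩ := descend hπ (der_comb hδ₁ hδ₂ c₁ c₂) (by
      intro x hx
      have h2 := hu ⟨x, (hmem x).2 hx⟩
      rw [← mem_powers_iff_mem_zpowers] at h2
      obtain ⟨k, hk⟩ := h2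
      have hk' : u ^ k = x := congrArg Subtype.val hk
      rw [← hk']
      refine der_pow (der_comb hδ₁ hδ₂ c₁ c₂) (htriv u hu1) ?_ k
      show c₁ • δ₁ u + c₂ • δ₂ u = 0
      rw [hl₁, hl₂, smul_smul, smul_smul, ← add_smul, hcl, zero_smul])
    obtain ⟨Y, hY⟩ := (h1 F S V σ ⊤ d hd).1 g
    refine ⟨c₁, c₂, Y, hc, fun t => ?_⟩
    rw [he t]
    have h2 := hY (π t) (Subgroup.mem_top _)
    have h3 : trS ⊤ σ σ g = 1 := by
      rw [hg]
      unfold trS tr1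
      refine Finset.sum_congr rfl fun h _ => ?_
      rw [if_pos (Subgroup.mem_top h)]
    rw [h3, Module.End.one_eq_id, LinearMap.comp_id] at h2
    exact h2

end Pool.Agent.DPX


end
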