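import Mathlib
import Pool.Agent.DAM.C106
import Pool.Agent.DAM.C107
import Pool.Agent.DAM.C108
import Pool.Agent.DAM.C109
import Pool.Agent.DAM.C14
import Pool.Agent.DAM.C15
import Pool.Agent.DAM.C18
import Pool.Agent.DAM.C22
import Pool.Agent.DAM.C23
import Pool.Agent.DAM.C24
import Pool.Agent.DAM.C27
import Pool.Agent.DAM.C28
import Pool.Agent.DAM.C32
import Pool.Agent.DAM.C33
import Pool.Agent.DAM.C39
import Pool.Agent.DAM.C44
import Pool.Agent.DAM.C47
import Pool.Agent.DAM.C52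
import Pool.Agent.DAM.C57
import Pool.Agent.DAM.C67
import Pool.Agent.DAM.C73
import Pool.Agent.DAM.C75
import Pool.Agent.DAM.C76
import Pool.Agent.DAM.C79
import Pool.Agent.DAM.C96

/-! Parts: DPN.WFP, DPX.RKOX, DPT.OCN, DPF.EXU, DPF.NUM, DPF.NUW, DPF.EDV, DPF.EDT, DPF.T2B, DPF.T2F, DPF.T2R, DPF.COV, DPF.COVG, DPF.CQI, DPF.AllF, DPK.T2Br, DPV.RINNV, DPG.CNO, DPG.TQA, DPG.TEN, DPG.LVT -/

section

/-!
# WFP: a common central extension for a finite family
-/

namespace Pool.Agent.DPN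

open Pool.Agent.DP Pool.Agent.DPC Pool.Agent.DPM Pool.Agent.Lib_helper13 Representation
open Pool.Agent.Lib_helper13.Dade (pCore DadeHolds dadeSum)

namespace WFP

variable {ι H : Type} [Group H] {L : ι → Type} [∀ x, Group (L x)]

/-- The fibre product of the groups `L x` over `H`. -/
def S (π : ∀ x, L x →* H) : Subgroup (H × ∀ x, L x) where
  carrier := {w | ∀ x, π x (w.2 x) = w.1}
  mul_mem' := by
    intro a b ha hb x
    simp [ha x, hb x]
  one_mem' := by
    intro x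
    simp
  inv_mem' := by
    intro a ha x
    simp [ha x]

/-- The map to `H`. -/
def P (π : ∀ x, L x →* H) : S π →* H := (MonoidHom.fst _ _).comp (S π).subtype

/-- The map to `L x`. -/
def F (π : ∀ x, L x →* H) (x : ι) : S π →* L x :=
  (Pi.evalMonoidHom L x).comp ((MonoidHom.snd _ _).comp (S π).subtype)

theorem P_F (π : ∀ x, L x →* H) (x : ι) (w : S π) : P π w = π x (F π x w) := (w.2 x).symm

theorem P_surj (π : ∀ x, L x →* H) (hs : ∀ x, Function.Surjective (π x)) :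
    Function.Surjective (P π) := by
  intro h
  choose l hl using fun x => hs x h
  exact ⟨⟨(h, l), fun x => hl x⟩, rfl⟩

theorem F_surj (π : ∀ x, L x →* H) (hs : ∀ x, Function.Surjective (π x)) (x : ι) :
    Function.Surjective (F π x) := by
  classical
  intro m
  choose l hl using fun y => hs y (π x m)
  refine ⟨⟨(π x m, Function.update l x m), fun y => ?_⟩, ?_⟩
  · by_cases hy : y = x
    · subst hy
      simp
    · simp [Function.update_of_ne hy, hl y]
  · show Function.update l x m x = m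
    simp

theorem ext' (π : ∀ x, L x →* H) (v w : S π) (h1 : P π v = P π w)
    (h2 : ∀ x, F π x v = F π x w) : v = w := by
  apply Subtype.ext
  apply Prod.ext
  · exact h1
  · funext x
    exact h2 x

end WFP

open _root_.Pool.Agent.DPN.WFP

theorem WFP_thm (h1 : Stmt_PUL) : Stmt_WFP := by
  intro ι H _ _ _ A T _ _ _ _ 𝔐 ℓ _ hM hl a j p θ hp hyp
  choose L gL fL π μ Lm hs hc hn hr using hyp
  haveI : Finite (S π) := Subtype.finite
  have hker : ∀ w : S π, w ∈ (P π).ker → ∀ x, F π x w ∈ (π x).ker := by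
    intro w hw x
    rw [MonoidHom.mem_ker] at hw ⊢
    rw [← P_F, hw]
  have hcc : (P π).ker ≤ Subgroup.center (S π) := by
    intro w hw
    rw [Subgroup.mem_center_iff]
    intro v
    apply ext'
    · rw [map_mul, map_mul, MonoidHom.mem_ker.1 hw, mul_one, one_mul]
    · intro x
      rw [map_mul, map_mul]
      exact Subgroup.mem_center_iff.1 (hc x (hker w hw x)) _
  have hnn : ¬ ℓ ∣ Nat.card (P π).ker := by
    intro hd
    obtain ⟨w, hw⟩ := exists_prime_orderOf_dvd_card' ℓ hd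
    have hw1 : (w : S π) ≠ 1 := by
      intro h
      have : w = 1 := Subtype.ext h
      rw [this, orderOf_one] at hw
      exact (Fact.out : ℓ.Prime).one_lt.ne hw
    have hw2 : (w : S π) ^ ℓ = 1 := by
      have := pow_orderOf_eq_one w
      rw [hw] at this
      have h2 := congrArg Subtype.val this
      simpa using h2
    obtain ⟨x, hx⟩ : ∃ x, F π x (w : S π) ≠ 1 := by
      by_contra hcon
      push Not at hcon
      apply hw1
      apply ext'
      · rw [MonoidHom.mem_ker.1 w.2, map_one]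
      · intro x
        rw [hcon x, map_one]
    have hk : F π x (w : S π) ∈ (π x).ker := hker _ w.2 x
    have ho : orderOf (⟨F π x (w : S π), hk⟩ : (π x).ker) = ℓ := by
      apply orderOf_eq_prime
      · apply Subtype.ext
        show (F π x (w : S π)) ^ ℓ = 1
        rw [← map_pow, hw2, map_one]
      · intro h
        exact hx (congrArg Subtype.val h)
    apply hn x
    rw [← ho]
    exact orderOf_dvd_natCard _
  refine ⟨S π, inferInstance, Fintype.ofFinite _, P π, P_surj π hs, hcc, hnn, ?_⟩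
  intro x
  letI : Fintype (S π) := Fintype.ofFinite _
  obtain ⟨μ', h'⟩ := h1 (A x) (T x) H (L x) (S π) 𝔐 ℓ hM hl (a x) (j x) (p x) (θ x) (π x) (μ x)
    (Lm x) (hp x) (hr x) (F π x) (F_surj π hs x) (P π) (P_F π x) hcc hnn
  exact ⟨μ', _, h'⟩

end Pool.Agent.DPN


end

section

/-!
# Theorem X, module RKOX: the rank of a matrix over a valuation ring and of its reduction
-/

namespace Pool.Agent.DPX

namespace RKOX

theorem rank_le (O : ValuationSubring ℂ) (d : ℕ) (A : Matrix (Fin d) (Fin d) O) :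
    (A.map (IsLocalRing.residue O)).rank ≤ (A.map (fun x : O => (x : ℂ))).rank := by
  classical
  obtain ⟨κ, a, ha, hspan, hli⟩ := exists_linearIndependent' (IsLocalRing.ResidueField O)
    (A.map (IsLocalRing.residue O)).col
  have hfin : Fintype κ := Fintype.ofInjective a ha
  have h1 : (A.map (IsLocalRing.residue O)).rank = Fintype.card κ := by
    rw [Matrix.rank_eq_finrank_span_cols, ← hspan, finrank_span_eq_card hli]
  have h2 : LinearIndependent ℂ ((A.map (fun x : O => (x : ℂ))).col ∘ a) := by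
    rw [Fintype.linearIndependent_iff]
    intro c hc
    by_contra hne
    push Not at hne
    obtain ⟨i₁, hi₁⟩ := hne
    obtain ⟨i₀, -, hmax⟩ := Finset.exists_max_image Finset.univ (fun i => O.valuation (c i))
      ⟨i₁, Finset.mem_univ _⟩
    have hc0 : c i₀ ≠ 0 := by
      intro h
      have h3 := hmax i₁ (Finset.mem_univ _)
      rw [h, map_zero] at h3
      exact hi₁ ((Valuation.zero_iff _).1 (le_antisymm h3 zero_le))
    have hO : ∀ i, c i / c i₀ ∈ O := by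
      intro i
      rw [← ValuationSubring.valuation_le_one_iff, map_div₀]
      have h3 : O.valuation (c i₀) ≠ 0 := (Valuation.ne_zero_iff _).2 hc0
      rw [div_le_one₀ (zero_lt_iff.2 h3)]
      exact hmax i (Finset.mem_univ _)
    obtain ⟨e, he⟩ : ∃ e : κ → O, ∀ i, (e i : ℂ) = c i / c i₀ := ⟨fun i => ⟨_, hO i⟩, fun i => rfl⟩
    have h3 : ∀ j, ∑ i, e i * A j (a i) = 0 := by
      intro j
      apply Subtype.ext
      have h4 := congrFun hc j
      rw [Finset.sum_apply] at h4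
      have h5 : ((∑ i, e i * A j (a i) : O) : ℂ) = ∑ i, (e i : ℂ) * (A j (a i) : ℂ) := by
        push_cast
        rfl
      rw [h5]
      have h6 : ∑ i, (e i : ℂ) * (A j (a i) : ℂ) =
          (c i₀)⁻¹ * ∑ i, (c i • ((A.map (fun x : O => (x : ℂ))).col ∘ a) i) j := by
        rw [Finset.mul_sum]
        refine Finset.sum_congr rfl fun i _ => ?_
        rw [he i, Pi.smul_apply, smul_eq_mul, Function.comp_apply, Matrix.col_apply,
          Matrix.map_apply]
        rw [div_eq_inv_mul]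
        ring
      rw [h6, h4, Pi.zero_apply, mul_zero]
      rfl
    have h4 : ∑ i, IsLocalRing.residue O (e i) •
        ((A.map (IsLocalRing.residue O)).col ∘ a) i = 0 := by
      funext j
      rw [Finset.sum_apply]
      have h5 := congrArg (IsLocalRing.residue O) (h3 j)
      rw [map_sum, map_zero] at h5
      rw [Pi.zero_apply, ← h5]
      refine Finset.sum_congr rfl fun i _ => ?_
      rw [map_mul, Pi.smul_apply, smul_eq_mul, Function.comp_apply, Matrix.col_apply,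
        Matrix.map_apply]
    have h5 := (Fintype.linearIndependent_iff.1 hli) _ h4 i₀
    have h6 : e i₀ = 1 := by
      apply Subtype.ext
      rw [he i₀, div_self hc0]
      rfl
    rw [h6, map_one] at h5
    exact one_ne_zero h5
  rw [h1, ← finrank_span_eq_card h2, Matrix.rank_eq_finrank_span_cols]
  refine Submodule.finrank_mono (Submodule.span_mono ?_)
  rintro _ ⟨i, rfl⟩
  exact ⟨a i, rfl⟩

theorem rank_idem {K : Type*} [Field K] {d : ℕ} (M : Matrix (Fin d) (Fin d) K)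
    (h : M * M = M) : M.rank + (1 - M).rank = d := by
  have h1 : LinearMap.ker M.mulVecLin = LinearMap.range (1 - M).mulVecLin := by
    ext v
    constructor
    · intro hv
      rw [LinearMap.mem_ker, Matrix.mulVecLin_apply] at hv
      refine ⟨v, ?_⟩
      rw [Matrix.mulVecLin_apply, Matrix.sub_mulVec, Matrix.one_mulVec, hv, sub_zero]
    · rintro ⟨u, rfl⟩
      rw [LinearMap.mem_ker, Matrix.mulVecLin_apply, Matrix.mulVecLin_apply,
        Matrix.mulVec_mulVec, mul_sub, mul_one, h, sub_self, Matrix.zero_mulVec]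
  have h2 := LinearMap.finrank_range_add_finrank_ker M.mulVecLin
  rw [h1, Module.finrank_fin_fun] at h2
  exact h2

end RKOX

theorem RKOX_thm : Stmt_RKOX := by
  intro O d A
  refine ⟨RKOX.rank_le O d A, fun hA => ?_⟩
  have h1 := RKOX.rank_le O d A
  have h2 := RKOX.rank_le O d (1 - A)
  have e1 : (1 - A).map (IsLocalRing.residue O) = 1 - A.map (IsLocalRing.residue O) := by
    rw [Matrix.map_sub _ (fun a b => map_sub _ a b), Matrix.map_one _ (map_zero _) (map_one _)]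
  have e2 : (1 - A).map (fun x : O => (x : ℂ)) = 1 - A.map (fun x : O => (x : ℂ)) := by
    rw [Matrix.map_sub _ (fun a b => rfl), Matrix.map_one _ rfl rfl]
  rw [e1, e2] at h2
  have h3 : A.map (IsLocalRing.residue O) * A.map (IsLocalRing.residue O) =
      A.map (IsLocalRing.residue O) := by
    rw [← Matrix.map_mul, hA]
  have h4 : A.map (fun x : O => (x : ℂ)) * A.map (fun x : O => (x : ℂ)) =
      A.map (fun x : O => (x : ℂ)) := by
    have h5 := Matrix.map_mul (L := A) (M := A) (f := O.subtype)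
    rw [hA] at h5
    exact h5.symm
  have h5 := RKOX.rank_idem _ h3
  have h6 := RKOX.rank_idem _ h4
  omega

end Pool.Agent.DPX


end

section

/-!
# The minimal normal subgroups of a minimal counterexample to Dade's conjecture: module OCN
(the contribution of an outer chain)
-/

namespace Pool.Agent.DPT

open Pool.Agent.DP Pool.Agent.DPC Pool.Agent.DPM Pool.Agent.DPN Pool.Agent.Lib_helper13
open Representation
open Pool.Agent.Lib_helper13.Dade (pCore DadeHolds dadeSum)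

namespace OCN

theorem ite_eq {p q : Prop} {hp : Decidable p} {hq : Decidable q} (h : p ↔ q) :
    @ite ℂ p hp 1 0 = @ite ℂ q hq 1 0 := by
  by_cases h1 : p
  · rw [if_pos h1, if_pos (h.mp h1)]
  · rw [if_neg h1, if_neg fun h2 => h1 (h.mpr h2)]

set_option linter.unusedSectionVars false

section Sub

variable {L : Type} [Group L] [Fintype L]

/-- A subgroup of a subgroup and its image. -/
noncomputable def eq (T : Subgroup L) (R : Subgroup T) : R ≃* ↥(R.map T.subtype) :=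
  R.equivMapOfInjective T.subtype T.subtype_injective

theorem eq_coe (T : Subgroup L) (R : Subgroup T) (r : R) :
    ((eq T R r : ↥(R.map T.subtype)) : L) = ((r : T) : L) := rfl

theorem irr_map (T : Subgroup L) (R : Subgroup T) (ψ : L → ℂ) :
    IsIrr (fun s : ↥(R.map T.subtype) => ψ s) ↔ IsIrr (fun r : R => ψ ((r : T) : L)) := by
  constructor
  · intro h
    exact h.comp_mulEquiv (eq T R)
  · intro h
    have h1 := h.comp_mulEquiv (eq T R).symm
    have h2 : (fun s : ↥(R.map T.subtype) => ψ ((((eq T R).symm s : R) : T) : L)) =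
        fun s : ↥(R.map T.subtype) => ψ s := by
      funext s
      rw [← eq_coe T R ((eq T R).symm s), MulEquiv.apply_symm_apply]
    rw [← h2]
    exact h1

theorem def_map (ℓ d : ℕ) (T : Subgroup L) (R : Subgroup T) (ψ : L → ℂ) :
    HasDefect ℓ (fun s : ↥(R.map T.subtype) => ψ s) d ↔
      HasDefect ℓ (fun r : R => ψ ((r : T) : L)) d := by
  rw [← hasDefect_comp_equiv (eq T R)]
  rfl

theorem mem_map_iff (T : Subgroup L) (R : Subgroup T) (t : T) :
    (t : L) ∈ R.map T.subtype ↔ t ∈ R := by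
  constructor
  · rintro ⟨r, hr, h⟩
    have h1 : r = t := Subtype.ext h
    rw [← h1]
    exact hr
  · intro h
    exact ⟨t, h, rfl⟩

theorem ID_map (ℓ d : ℕ) (T : Subgroup L) (R : Subgroup T) (ψ : L → ℂ) :
    ID ℓ (R.map T.subtype) d ψ ↔ ID ℓ R d (fun t : T => ψ t) ∧ ∀ x, x ∉ T → ψ x = 0 := by
  constructor
  · rintro ⟨⟨h1, h2⟩, h3⟩
    refine ⟨⟨⟨(irr_map T R ψ).mp h1, ?_⟩, (def_map ℓ d T R ψ).mp h3⟩, ?_⟩
    · intro t ht
      exact h2 _ (fun h => ht ((mem_map_iff T R t).mp h))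
    · intro x hx
      refine h2 x ?_
      rintro ⟨r, _, h⟩
      exact hx (h ▸ r.2)
  · rintro ⟨⟨⟨h1, h2⟩, h3⟩, h4⟩
    refine ⟨⟨(irr_map T R ψ).mpr h1, ?_⟩, (def_map ℓ d T R ψ).mpr h3⟩
    intro x hx
    by_cases hT : x ∈ T
    · exact h2 ⟨x, hT⟩ (fun h => hx ((mem_map_iff T R ⟨x, hT⟩).mpr h))
    · exact h4 x hT

theorem wS_map (T : Subgroup L) (R : Subgroup T) (ψ F : L → ℂ) :
    wS (R.map T.subtype) ψ F = wS R (fun t : T => ψ t) (fun t : T => F t) := by
  have h := wt_comp_equiv (eq T R) (fun s : ↥(R.map T.subtype) => ψ s) (fun s => F s)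
  rw [wS, wS, ← h]
  rfl

theorem cgT_eq (𝔐 : Ideal (integralClosure ℤ ℂ)) (T S : Subgroup L) {ψ : L → ℂ}
    (h : ∀ x, x ∉ S → ψ x = 0) (g : L) :
    cgT 𝔐 T ψ g = red 𝔐 (wS S ψ (fun s => cjT T s g)) := by
  classical
  have h1 : ∑ x : L, cjT T x g * ψ x = ∑ s : S, cjT T (s : L) g * ψ s := by
    symm
    refine Fintype.sum_of_injective (fun s : S => (s : L)) Subtype.val_injective _ _ ?_
      (fun s => rfl)
    intro x hx
    rw [h x (fun h2 => hx ⟨⟨x, h2⟩, rfl⟩), mul_zero]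
  rw [cgT, wS, wt, h1]
  rfl

theorem cgT_map (𝔐 : Ideal (integralClosure ℤ ℂ)) (T : Subgroup L) (R : Subgroup T) {ψ : L → ℂ}
    (h : ∀ x, x ∉ R.map T.subtype → ψ x = 0) (g : L) :
    cgT 𝔐 ⊤ ψ g = red 𝔐 (wS R (fun t : T => ψ t) (fun t : T => cjT ⊤ (t : L) g)) := by
  rw [cgT_eq 𝔐 ⊤ (R.map T.subtype) h, wS_map]

theorem isIntegral_cjT (T : Subgroup L) (x g : L) : IsIntegral ℤ (cjT T x g) := by
  classical
  rw [cjT]
  split_ifs
  · exact isIntegral_one
  · exact isIntegral_zero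

theorem cjT_conj (t x g : L) :
    cjT (⊤ : Subgroup L) (t * x * t⁻¹) g = cjT ⊤ x g := by
  classical
  rw [cjT, cjT]
  refine ite_eq ?_
  constructor
  · rintro ⟨s, _, h⟩
    refine ⟨t⁻¹ * s, trivial, ?_⟩
    have h3 : x = t⁻¹ * (t * x * t⁻¹) * t := by group
    rw [h3, h]
    group
  · rintro ⟨s, _, h⟩
    refine ⟨t * s, trivial, ?_⟩
    rw [h]
    group

end Sub

section Pi

variable {L K : Type} [Group L] [Fintype L] [Group K] [Fintype K] (π : L →* K)

theorem card_comap (hπ : Function.Surjective π) (S : Subgroup K) :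
    Nat.card (S.comap π) = Nat.card S * Nat.card π.ker := by
  have h1 : Nat.card (S.comap π) = Nat.card ((π.subgroupComap S).ker) *
      Nat.card (π.subgroupComap S).range := by
    rw [← Subgroup.card_mul_index (π.subgroupComap S).ker, Subgroup.index_ker]
  have h2 : (π.subgroupComap S).range = ⊤ :=
    MonoidHom.range_eq_top.mpr (fun s => by
      obtain ⟨x, hx⟩ := hπ s
      refine ⟨⟨x, ?_⟩, ?_⟩
      · rw [Subgroup.mem_comap, hx]
        exact s.2
      · exact Subtype.ext hx)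
  have h3 : Nat.card ((π.subgroupComap S).ker) = Nat.card π.ker := by
    refine Nat.card_congr ⟨fun z => ⟨((z : ↥(S.comap π)) : L), ?_⟩,
      fun z => ⟨⟨(z : L), ?_⟩, ?_⟩, ?_, ?_⟩
    · rw [MonoidHom.mem_ker]
      exact congrArg Subtype.val (MonoidHom.mem_ker.mp z.2)
    · rw [Subgroup.mem_comap, MonoidHom.mem_ker.mp z.2]
      exact S.one_mem
    · rw [MonoidHom.mem_ker]
      exact Subtype.ext (MonoidHom.mem_ker.mp z.2)
    · intro z
      rfl
    · intro z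
      rfl
  rw [h1, h2, h3, Subgroup.card_top, mul_comm]

end Pi

end OCN

open _root_.Pool.Agent.DPT.OCN in
theorem OCN_thm (h1 : Stmt_CHG) (h2 : Stmt_CHI) (h3 : Stmt_DGM) (h4 : Stmt_ZST) : Stmt_OCN := by
  intro L K H _ _ _ _ _ _ 𝔐 ℓ _ hmax hℓ π hπ hc μ M hM f hf hHH c hch hcM hPL ω d hne
  classical
  -- the outer chain
  obtain ⟨hRp, hRM, hRN, hRF⟩ : IsPGroup ℓ (tp ⊥ c) ∧ tp ⊥ c ⊓ M = ⊥ ∧
      stb c ≤ Subgroup.normalizer (tp ⊥ c : Set K) ∧
      (∀ a ∈ M, a ∈ stb c ↔ ∀ b ∈ tp ⊥ c, b * a * b⁻¹ = a) := by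
    have hcl : ClG M.subtype (MulAut.conjNormal : K →* MulAut M) (QuotientGroup.mk' M) := by
      refine ⟨M.subtype_injective, fun y a => MulAut.conjNormal_apply y a, fun y => ?_⟩
      rw [Subgroup.range_subtype]
      exact QuotientGroup.eq_one_iff y
    have hb : (⊥ : Subgroup K) ⊓ M.subtype.range = ⊥ := bot_inf_eq _
    have hz := h4 M K (K ⧸ M) ℓ M.subtype MulAut.conjNormal (QuotientGroup.mk' M) hcl
      (QuotientGroup.mk'_surjective M) ⊥ IsPGroup.of_bot hb c hch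
      (fun D hD => by rw [Subgroup.range_subtype]; exact hcM D hD)
    obtain ⟨z1, z2, _, _, _, _, z3, z4, _⟩ := hz
    rw [Subgroup.range_subtype] at z2
    refine ⟨z1, z2, z3, ?_⟩
    intro a ha
    have h5 := z4 ⟨a, ha⟩
    refine h5.trans ?_
    rw [mem_FX]
    refine forall₂_congr fun b _ => ?_
    rw [Subtype.ext_iff, MulAut.conjNormal_apply]
  -- the centralizer
  have hC : ∀ x, x ∈ DP.cN M (tp ⊥ c) ↔ x ∈ M ∧ x ∈ stb c := by
    intro x
    rw [DP.cN, Subgroup.mem_inf]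
    refine and_congr_right fun hx => ?_
    rw [hRF x hx, Subgroup.mem_centralizer_iff]
    refine forall₂_congr fun b _ => ?_
    constructor
    · intro h
      rw [h]
      group
    · intro h
      calc b * x = (b * x * b⁻¹) * b := by group
        _ = x * b := by rw [h]
  -- the groups
  let T : Subgroup L := (stb c).comap π
  let ρ : T →* K := π.comp T.subtype
  let κ : T →* ↥(stb c) := π.subgroupComap (stb c)
  have hκρ : ∀ t : T, ((κ t : ↥(stb c)) : K) = ρ t := fun t => rfl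
  have hκs : Function.Surjective κ := by
    intro s
    obtain ⟨x, hx⟩ := hπ s
    refine ⟨⟨x, ?_⟩, ?_⟩
    · change π x ∈ stb c
      rw [hx]
      exact s.2
    · exact Subtype.ext hx
  have hρc : ρ.ker ≤ Subgroup.center T := by
    intro t ht
    rw [Subgroup.mem_center_iff]
    intro s
    apply Subtype.ext
    exact (Subgroup.mem_center_iff.mp (hc ht)) s
  have hκc : κ.ker ≤ Subgroup.center T := by
    intro t ht
    refine hρc ?_
    rw [MonoidHom.mem_ker, ← hκρ, MonoidHom.mem_ker.mp ht]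
    rfl
  have hCr : DP.cN M (tp ⊥ c) ≤ ρ.range := by
    intro x hx
    obtain ⟨y, hy⟩ := hπ x
    refine ⟨⟨y, ?_⟩, hy⟩
    change π y ∈ stb c
    rw [hy]
    exact ((hC x).mp hx).2
  have hCn : ∀ t : T, ∀ y ∈ DP.cN M (tp ⊥ c), ρ t * y * (ρ t)⁻¹ ∈ DP.cN M (tp ⊥ c) := by
    intro t y hy
    rw [hC] at hy ⊢
    exact ⟨hM.conj_mem y hy.1 _, (stb c).mul_mem ((stb c).mul_mem t.2 hy.2)
      ((stb c).inv_mem t.2)⟩
  have hMC : ((DP.cN M (tp ⊥ c)).comap ρ).map κ = M.subgroupOf (stb c) := by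
    ext s
    rw [Subgroup.mem_subgroupOf]
    constructor
    · rintro ⟨t, ht, rfl⟩
      exact ((hC _).mp ht).1
    · intro hs
      obtain ⟨t, rfl⟩ := hκs s
      exact ⟨t, (hC _).mpr ⟨hs, (κ t).2⟩, rfl⟩
  have hker : ∀ z : κ.ker, π ((z : T) : L) = 1 := fun z => congrArg Subtype.val z.2
  let μ' : κ.ker →* ℂˣ := μ.comp
    { toFun := fun z => (⟨((z : T) : L), hker z⟩ : π.ker)
      map_one' := rfl
      map_mul' := fun _ _ => rfl }
  have hμ' : ∀ (z : κ.ker), μ' z = μ ⟨((z : T) : L), hker z⟩ := fun z => rfl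
  have hkcard : Nat.card κ.ker = Nat.card π.ker := by
    refine Nat.card_congr ⟨fun z => ⟨((z : T) : L), hker z⟩, fun z => ⟨⟨(z : L), ?_⟩, ?_⟩,
      fun z => rfl, fun z => rfl⟩
    · change π (z : L) ∈ stb c
      rw [MonoidHom.mem_ker.mp z.2]
      exact (stb c).one_mem
    · rw [MonoidHom.mem_ker]
      exact Subtype.ext (MonoidHom.mem_ker.mp z.2)
  -- OvK
  have hov : ∀ ψ : L → ℂ, (∀ x, x ∉ T → ψ x = 0) →
      (OvK π μ ψ ↔ OvK κ μ' (fun t : T => ψ t)) := by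
    intro ψ hψ
    constructor
    · intro h z y
      exact h ⟨((z : T) : L), hker z⟩ y
    · intro h z y
      have hzT : (z : L) ∈ T := by
        change π (z : L) ∈ stb c
        rw [MonoidHom.mem_ker.mp z.2]
        exact (stb c).one_mem
      by_cases hy : y ∈ T
      · have hz : (⟨(z : L), hzT⟩ : T) ∈ κ.ker := by
          rw [MonoidHom.mem_ker]
          exact Subtype.ext (MonoidHom.mem_ker.mp z.2)
        exact h ⟨⟨(z : L), hzT⟩, hz⟩ ⟨y, hy⟩
      · have hzy : (z : L) * y ∉ T := fun h' => hy ((Subgroup.mul_mem_cancel_left T hzT).mp h')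
        rw [hψ _ hzy, hψ _ hy, mul_zero]
  -- the functions
  let F : L → T → ℂ := fun g t => if π g ∈ M then cjT ⊤ (t : L) g else 0
  let w : L → (integralClosure ℤ ℂ) ⧸ 𝔐 := fun g => if π g ∈ M then ω g else 0
  have hF1 : ∀ g (h x : T), F g (h * x * h⁻¹) = F g x := by
    intro g h x
    change (if π g ∈ M then cjT ⊤ ((h : L) * x * (h : L)⁻¹) g else 0) =
      if π g ∈ M then cjT ⊤ (x : L) g else 0
    rw [cjT_conj]
  have hF2 : ∀ g x, IsIntegral ℤ (F g x) := by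
    intro g x
    change IsIntegral ℤ (if π g ∈ M then cjT ⊤ (x : L) g else 0)
    split_ifs
    · exact isIntegral_cjT _ _ _
    · exact isIntegral_zero
  have hF3 : ∀ g (x : T), κ x ∉ M.subgroupOf (stb c) → F g x = 0 := by
    intro g x hx
    change (if π g ∈ M then cjT ⊤ (x : L) g else 0) = 0
    split_ifs with hg
    · rw [cjT, if_neg]
      rintro ⟨t, _, ht⟩
      apply hx
      rw [Subgroup.mem_subgroupOf, hκρ]
      change π (x : L) ∈ M
      rw [ht, map_mul, map_mul, map_inv]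
      exact hM.conj_mem _ hg _
    · rfl
  -- the conditions
  have hcond : ∀ (R : Subgroup T) (ψ : L → ℂ), (∀ x, x ∉ R.map T.subtype → ψ x = 0) →
      ((∀ g, π g ∈ M → cgT 𝔐 ⊤ ψ g = ω g) ↔
        ∀ g, red 𝔐 (wS R (fun t : T => ψ t) (F g)) = w g) := by
    intro R ψ hψ
    refine forall_congr' fun g => ?_
    by_cases hg : π g ∈ M
    · have e1 : F g = fun t : T => cjT ⊤ (t : L) g := by
        funext t
        exact if_pos hg
      have e2 : w g = ω g := if_pos hg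
      rw [e1, e2, cgT_map 𝔐 T R hψ]
      exact ⟨fun h => h hg, fun h _ => h⟩
    · have e1 : F g = fun _ : T => 0 := by
        funext t
        exact if_neg hg
      have e2 : w g = 0 := if_neg hg
      rw [e1, e2]
      refine ⟨fun _ => ?_, fun _ h => absurd h hg⟩
      have e3 : wS R (fun t : T => ψ t) (fun _ => 0) = 0 := by
        rw [wS, wt]
        simp
      rw [e3]
      exact red_zero 𝔐
  -- the weights
  have hsup : ∀ (R : Subgroup T) (ψ : L → ℂ), ID ℓ (R.map T.subtype) d ψ →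
      ∀ x, x ∉ R.map T.subtype → ψ x = 0 := fun R ψ h => h.1.2
  have hcount : ∀ R : Subgroup T,
      Nat.card {ψ : L → ℂ // ID ℓ (R.map T.subtype) d ψ ∧ OvK π μ ψ ∧
        ∀ g, π g ∈ M → cgT 𝔐 ⊤ ψ g = ω g} =
      Nat.card {ψ : T → ℂ // ID ℓ R d ψ ∧ OvK κ μ' ψ ∧ ∀ g, red 𝔐 (wS R ψ (F g)) = w g} := by
    intro R
    refine Nat.card_congr ⟨fun ψ => ⟨fun t : T => ψ.1 t, ?_⟩, fun ψ => ⟨ext0 ψ.1, ?_⟩, ?_, ?_⟩
    · have h5 := (ID_map ℓ d T R ψ.1).mp ψ.2.1
      exact ⟨h5.1, (hov ψ.1 h5.2).mp ψ.2.2.1, (hcond R ψ.1 (hsup R _ ψ.2.1)).mp ψ.2.2.2⟩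
    · have h5 : (fun t : T => ext0 ψ.1 (t : L)) = ψ.1 := by
        funext t
        exact ext0_of_mem ψ.1 t.2
      have h6 : ∀ x, x ∉ T → ext0 ψ.1 x = 0 := fun x hx => ext0_of_not_mem ψ.1 hx
      have h7 : ID ℓ (R.map T.subtype) d (ext0 ψ.1) := by
        rw [ID_map, h5]
        exact ⟨ψ.2.1, h6⟩
      refine ⟨h7, ?_, ?_⟩
      · rw [hov _ h6, h5]
        exact ψ.2.2.1
      · rw [hcond R _ (hsup R _ h7), h5]
        exact ψ.2.2.2
    · intro ψ
      apply Subtype.ext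
      funext x
      have h5 := ((ID_map ℓ d T R ψ.1).mp ψ.2.1).2
      by_cases hx : x ∈ T
      · exact ext0_of_mem _ hx
      · change ext0 _ x = _
        rw [ext0_of_not_mem _ hx, h5 x hx]
    · intro ψ
      apply Subtype.ext
      funext t
      exact ext0_of_mem ψ.1 t.2
  have hk0 : (Nat.card π.ker : ℚ) ≠ 0 := Nat.cast_ne_zero.mpr Nat.card_pos.ne'
  let W : Subgroup T → ℚ := fun R => (Nat.card R : ℚ) / (Nat.card π.ker : ℚ) *
    Nat.card {ψ : L → ℂ // ID ℓ (R.map T.subtype) d ψ ∧ OvK π μ ψ ∧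
      ∀ g, π g ∈ M → cgT 𝔐 ⊤ ψ g = ω g}
  have hW1 : ∀ S' : Subgroup K, W (S'.comap ρ) = WF 𝔐 ℓ d π μ M ω (stb c ⊓ S') := by
    intro S'
    have e1 : (S'.comap ρ).map T.subtype = (stb c ⊓ S').comap π := by
      ext x
      constructor
      · rintro ⟨t, ht, rfl⟩
        exact ⟨t.2, ht⟩
      · intro hx
        exact ⟨⟨x, hx.1⟩, hx.2, rfl⟩
    have e2 : Nat.card ↥(S'.comap ρ) = Nat.card ↥(stb c ⊓ S') * Nat.card π.ker := by
      rw [← card_comap π hπ, ← e1]
      exact Nat.card_congr (eq T (S'.comap ρ)).toEquiv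
    change (Nat.card ↥(S'.comap ρ) : ℚ) / (Nat.card π.ker : ℚ) *
      (Nat.card {ψ : L → ℂ // ID ℓ ((S'.comap ρ).map T.subtype) d ψ ∧ OvK π μ ψ ∧
        ∀ g, π g ∈ M → cgT 𝔐 ⊤ ψ g = ω g} : ℚ) = _
    rw [WF, e1, e2]
    push_cast
    field_simp
  have hW2 : ∀ S' : Subgroup ↥(stb c), W (S'.comap κ) = WC 𝔐 ℓ d κ μ' F w S' := by
    intro S'
    have e2 : Nat.card ↥(S'.comap κ) = Nat.card ↥S' * Nat.card π.ker := by
      rw [card_comap κ hκs, hkcard]
    change (Nat.card ↥(S'.comap κ) : ℚ) / (Nat.card π.ker : ℚ) *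
      (Nat.card {ψ : L → ℂ // ID ℓ ((S'.comap κ).map T.subtype) d ψ ∧ OvK π μ ψ ∧
        ∀ g, π g ∈ M → cgT 𝔐 ⊤ ψ g = ω g} : ℚ) = _
    rw [WC, hcount, e2]
    push_cast
    field_simp
  -- the sum
  have hsum : innerS ℓ ⊥ M (WF 𝔐 ℓ d π μ M ω) c =
      CS ℓ (M.subgroupOf (stb c)) (WC 𝔐 ℓ d κ μ' F w) := by
    have e1 : innerS ℓ ⊥ M (WF 𝔐 ℓ d π μ M ω) c =
        ∑ τ ∈ Ch ℓ (⊥ : Subgroup (DP.cN M (tp ⊥ c))), (-1 : ℚ) ^ τ.card *
          (fun S' => W (S'.comap ρ)) (stb (mapCh (DP.cN M (tp ⊥ c)).subtype τ)) := by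
      rw [innerS]
      refine Finset.sum_congr rfl fun τ _ => ?_
      simp only [hW1]
    have e2 := h2 K ℓ (DP.cN M (tp ⊥ c)) (fun S' => W (S'.comap ρ))
    have e3 := h1 T K ↥(stb c) ℓ ρ hρc (DP.cN M (tp ⊥ c)) hCr hCn κ hκs
      (fun t _ ht => by rw [← hκρ, ht]; rfl) (fun t ht _ => Subtype.ext ht) W
    rw [e1, e2, e3, hMC]
    congr 1
    funext S'
    exact hW2 S'
  rw [hsum] at hne
  -- the hypothesis for the stabilizer
  have hMn : (M.subgroupOf (stb c)).Normal := hM.subgroupOf (stb c)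
  obtain ⟨θ', hθ1, hθ2, hθ3⟩ := hPL T H L 𝔐 hmax hℓ κ hκs hκc μ' (M.subgroupOf (stb c)) hMn
    (f.comp (stb c).subtype) (fun x => by
      rw [Subgroup.mem_subgroupOf]
      exact hf x) hHH F hF1 hF2 hF3 w d hne
  -- extension by zero
  have hB : ((M.subgroupOf (stb c)).comap κ).map T.subtype = (DP.cN M (tp ⊥ c)).comap π := by
    ext x
    rw [Subgroup.mem_comap, hC]
    constructor
    · rintro ⟨t, ht, rfl⟩
      exact ⟨ht, t.2⟩
    · rintro ⟨hx1, hx2⟩
      exact ⟨⟨x, hx2⟩, hx1, rfl⟩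
  have h5 : (fun t : T => ext0 θ' (t : L)) = θ' := by
    funext t
    exact ext0_of_mem θ' t.2
  have h6 : ∀ x, x ∉ T → ext0 θ' x = 0 := fun x hx => ext0_of_not_mem θ' hx
  have h7 : ID ℓ (((M.subgroupOf (stb c)).comap κ).map T.subtype)
      (padicValNat ℓ (Nat.card π.ker)) (ext0 θ') := by
    rw [ID_map, h5, ← hkcard]
    exact ⟨hθ1, h6⟩
  have h8 : OvK π μ (ext0 θ') := by
    rw [hov _ h6, h5]
    exact hθ2
  have h9 : ∀ g, π g ∈ M → cgT 𝔐 ⊤ (ext0 θ') g = ω g := by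
    rw [hcond _ _ h7.1.2, h5]
    exact hθ3
  rw [hB] at h7
  obtain ⟨θ, t1, t2, t3⟩ := h3 L K 𝔐 ℓ hmax hℓ π hπ hc μ M (tp ⊥ c) hM hRp (ext0 θ') h7 h8
  exact ⟨θ, t1, t2, fun g hg => by rw [t3, h9 g hg]⟩

end Pool.Agent.DPT


end

section

/-!
# EXU: the sum over the characters of the stabilizer of a chain of the normal subgroup
-/

namespace Pool.Agent.DPF

open Pool.Agent.DP Pool.Agent.DPC Pool.Agent.DPM Pool.Agent.DPN Pool.Agent.Lib_helper13
  Representation
open Pool.Agent.Lib_helper13.Dade (pCore DadeHolds dadeSum)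

namespace EXU

section

variable {L K H : Type} [Group L] [Group K] [Group H] (π : L →* K) (M : Subgroup K) [M.Normal]
  (τ : Finset (Subgroup M)) (p : K →* H)

theorem conj_mem (S : Subgroup K) {y a : L} (hy : y ∈ SL π M τ S) (ha : a ∈ SL π M τ M) :
    y * a * y⁻¹ ∈ SL π M τ M := by
  refine ⟨?_, ?_⟩
  · change π (y * a * y⁻¹) ∈ M
    rw [map_mul, map_mul, map_inv]
    exact (inferInstance : M.Normal).conj_mem _ ha.1 _
  · have h1 : y ∈ (stb (mapCh M.subtype τ)).comap π := hy.2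
    have h2 : a ∈ (stb (mapCh M.subtype τ)).comap π := ha.2
    exact mul_mem (mul_mem h1 h2) (inv_mem h1)

/-- The conjugation action. -/
noncomputable def cA (S : Subgroup K) : ↥(SL π M τ S) →* MulAut ↥(SL π M τ M) where
  toFun y :=
    { toFun := fun a => ⟨y * a * (y : L)⁻¹, conj_mem π M τ S y.2 a.2⟩
      invFun := fun a => ⟨(y : L)⁻¹ * a * y, by
        have h := conj_mem π M τ S (inv_mem y.2) a.2
        rwa [inv_inv] at h⟩
      left_inv := fun a => Subtype.ext (by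
        change (y : L)⁻¹ * (y * a * (y : L)⁻¹) * y = a
        group)
      right_inv := fun a => Subtype.ext (by
        change (y : L) * ((y : L)⁻¹ * a * y) * (y : L)⁻¹ = a
        group)
      map_mul' := fun a b => Subtype.ext (by
        change (y : L) * (a * b) * (y : L)⁻¹ = (y * a * (y : L)⁻¹) * (y * b * (y : L)⁻¹)
        group) }
  map_one' := MulEquiv.ext fun a => Subtype.ext (by
    change (1 : L) * a * (1 : L)⁻¹ = a
    group)
  map_mul' := fun x y => MulEquiv.ext fun a => Subtype.ext (by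
    change ((x : L) * y) * a * ((x : L) * y)⁻¹ = x * (y * a * (y : L)⁻¹) * (x : L)⁻¹
    group)

/-- The embedding. -/
noncomputable def jA {S : Subgroup K} (hS : M ≤ S) : ↥(SL π M τ M) →* ↥(SL π M τ S) :=
  Subgroup.inclusion (SL_mono π M τ hS)

/-- The projection. -/
noncomputable def pA (S : Subgroup K) : ↥(SL π M τ S) →* H := (p.comp π).comp (SL π M τ S).subtype

variable {p}

theorem clG (hp : ∀ k, p k = 1 ↔ k ∈ M) {S : Subgroup K} (hS : M ≤ S) :
    ClG (jA π M τ hS) (cA π M τ S) (pA π M τ p S) where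
  inj := Subgroup.inclusion_injective _
  act := fun y a => Subtype.ext rfl
  ker := by
    intro y
    constructor
    · intro h1
      have h2 : π (y : L) ∈ M := (hp _).mp h1
      exact ⟨⟨y, h2, y.2.2⟩, rfl⟩
    · rintro ⟨a, rfl⟩
      exact (hp _).mpr a.2.1

omit [M.Normal] in
theorem le_V (hp : ∀ k, p k = 1 ↔ k ∈ M) (V : Subgroup H) : M ≤ V.comap p := by
  intro k hk
  change p k ∈ V
  rw [(hp k).mpr hk]
  exact V.one_mem

/-- The projection of the inertia group. -/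
noncomputable def qA (p : K →* H) (θ : ↥(SL π M τ M) → ℂ) : ↥(inert (cA π M τ ⊤) θ) →* H :=
  (pA π M τ p ⊤).comp (inert (cA π M τ ⊤) θ).subtype

/-- The image of the inertia group. -/
noncomputable def IA (p : K →* H) (θ : ↥(SL π M τ M) → ℂ) : Subgroup H :=
  (inert (cA π M τ ⊤) θ).map (pA π M τ p ⊤)

/-- The inertia groups. -/
noncomputable def eI (p : K →* H) (V : Subgroup H) (θ : ↥(SL π M τ M) → ℂ) :
    ↥(inert (cA π M τ (V.comap p)) θ) ≃* ↥(V.comap (qA π M τ p θ)) where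
  toFun x := ⟨⟨⟨x.1.1, ⟨Subgroup.mem_top _, x.1.2.2⟩⟩, x.2⟩, x.1.2.1⟩
  invFun x := ⟨⟨x.1.1.1, ⟨x.2, x.1.1.2.2⟩⟩, x.1.2⟩
  left_inv := fun _ => rfl
  right_inv := fun _ => rfl
  map_mul' := fun _ _ => rfl

theorem range_qA (p : K →* H) (θ : ↥(SL π M τ M) → ℂ) :
    (qA π M τ p θ).range = IA π M τ p θ := by
  ext x
  constructor
  · rintro ⟨y, rfl⟩
    exact ⟨y.1, y.2, rfl⟩
  · rintro ⟨y, hy, rfl⟩
    exact ⟨⟨y, hy⟩, rfl⟩

theorem comap_qA (p : K →* H) (V : Subgroup H) (θ : ↥(SL π M τ M) → ℂ) :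
    (V ⊓ IA π M τ p θ).comap (qA π M τ p θ) = V.comap (qA π M τ p θ) := by
  rw [← range_qA]
  ext x
  constructor
  · intro hx
    exact hx.1
  · intro hx
    exact ⟨hx, ⟨x, rfl⟩⟩

theorem card_I [Finite L] (hp : ∀ k, p k = 1 ↔ k ∈ M) (V : Subgroup H)
    (θ : ↥(SL π M τ M) → ℂ) (hθ : IsIrr θ) :
    Nat.card ↥(inert (cA π M τ (V.comap p)) θ) =
      Nat.card ↥(SL π M τ M) * Nat.card ↥(V ⊓ IA π M τ p θ) := by
  have h0 : Finite ↥(inert (cA π M τ ⊤) θ) := inferInstance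
  rw [Nat.card_congr (eI π M τ p V θ).toEquiv, FFC.card_comap, range_qA]
  congr 1
  symm
  have hT := clG π M τ hp (le_top : M ≤ ⊤)
  have hmem : ∀ a : ↥(SL π M τ M), jA π M τ le_top a ∈ inert (cA π M τ ⊤) θ :=
    FFC.jmem hT hθ
  refine Nat.card_congr (Equiv.ofBijective
    (fun a => ⟨⟨jA π M τ le_top a, hmem a⟩, ?_⟩) ⟨?_, ?_⟩)
  · exact (hT.ker (jA π M τ le_top a)).mpr ⟨a, rfl⟩
  · intro a b hab
    apply hT.inj
    exact congrArg (fun z => z.1.1) hab
  · rintro ⟨⟨y, hy⟩, hy'⟩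
    obtain ⟨a, ha⟩ := (hT.ker y).mp hy'
    exact ⟨a, Subtype.ext (Subtype.ext ha)⟩

theorem ext0_eq (hp : ∀ k, p k = 1 ↔ k ∈ M) (V : Subgroup H)
    (θ : ↥(SL π M τ M) → ℂ) (hθ : IsIrr θ) (ψ : ↥(V.comap (qA π M τ p θ)) → ℂ) :
    (fun a : ↥(SL π M τ M) => ext0 (fun y => ψ (eI π M τ p V θ y))
        (jA π M τ (le_V M hp V) a)) =
      fun a : ↥(SL π M τ M) => ext0 (ext0 ψ) (jA π M τ le_top a) := by
  funext a
  have h1 : jA π M τ (le_V M hp V) a ∈ inert (cA π M τ (V.comap p)) θ :=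
    FFC.jmem (clG π M τ hp (le_V M hp V)) hθ a
  have h2 : jA π M τ le_top a ∈ inert (cA π M τ ⊤) θ :=
    FFC.jmem (clG π M τ hp (le_top : M ≤ ⊤)) hθ a
  have h3 : (⟨jA π M τ le_top a, h2⟩ : inert (cA π M τ ⊤) θ) ∈ V.comap (qA π M τ p θ) := by
    change p (π (a : L)) ∈ V
    rw [(hp _).mpr a.2.1]
    exact V.one_mem
  rw [ext0_of_mem _ h1, ext0_of_mem _ h2, ext0_of_mem _ h3]
  rfl

omit [M.Normal] in
theorem card_SL [Finite L] (hs : Function.Surjective π) (S : Subgroup K) :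
    Nat.card ↥(SL π M τ S) = Nat.card π.ker * Nat.card ↥(S ⊓ stb (mapCh M.subtype τ)) := by
  rw [FFC.card_comap, MonoidHom.range_eq_top.mpr hs, inf_top_eq]

open Classical in
theorem term [Fintype L] (hc : π.ker ≤ Subgroup.center L) (μ : π.ker →* ℂˣ)
    (hp : ∀ k, p k = 1 ↔ k ∈ M) (𝔐 : Ideal (integralClosure ℤ ℂ)) (ℓ : ℕ) [Fact ℓ.Prime] (d : ℕ)
    (ω : L → (integralClosure ℤ ℂ) ⧸ 𝔐) (V : Subgroup H) :
    (Nat.card ↥(SL π M τ (V.comap p)) : ℚ) *
        Nat.card {ψ : ↥(SL π M τ (V.comap p)) → ℂ // IsIrr ψ ∧ OvL π.ker μ _ ψ ∧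
          HasDefect ℓ ψ d ∧
          ∀ g ∈ M.comap π, cen 𝔐 (SL π M τ (V.comap p)).subtype ψ g = ω g} =
      ∑ θ ∈ irrF (SL π M τ M) with OvL π.ker μ _ θ ∧
          ∀ g ∈ M.comap π, cen 𝔐 (SL π M τ M).subtype θ g = ω g,
        (Nat.card ↥(SL π M τ M) : ℚ) *
          ((Nat.card ↥(V ⊓ IA π M τ p θ) : ℚ) *
            Nat.card {ψ : ↥(V.comap (qA π M τ p θ)) → ℂ // IsIrr ψ ∧
              ip (fun a : ↥(SL π M τ M) => ext0 (ext0 ψ) (jA π M τ le_top a)) θ ≠ 0 ∧
              HasDefect ℓ ψ d}) := by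
  have hMV := le_V M hp V
  have hS := clG π M τ hp hMV
  have h1 := CLC_thm ↥(SL π M τ M) ↥(SL π M τ (V.comap p)) H ℓ (jA π M τ hMV)
    (cA π M τ (V.comap p)) (pA π M τ p (V.comap p)) hS
    (fun ψ => OvL π.ker μ _ ψ ∧
      ∀ g ∈ M.comap π, cen 𝔐 (SL π M τ (V.comap p)).subtype ψ g = ω g) d
  have h0 : Nat.card {ψ : ↥(SL π M τ (V.comap p)) → ℂ // IsIrr ψ ∧ OvL π.ker μ _ ψ ∧
          HasDefect ℓ ψ d ∧
          ∀ g ∈ M.comap π, cen 𝔐 (SL π M τ (V.comap p)).subtype ψ g = ω g} =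
      Nat.card {ψ : ↥(SL π M τ (V.comap p)) → ℂ // IsIrr ψ ∧ HasDefect ℓ ψ d ∧
        (OvL π.ker μ _ ψ ∧
          ∀ g ∈ M.comap π, cen 𝔐 (SL π M τ (V.comap p)).subtype ψ g = ω g)} :=
    Nat.card_congr (Equiv.subtypeEquivRight fun ψ => by tauto)
  rw [h0, h1, Finset.sum_filter]
  refine Finset.sum_congr rfl fun θ hθ' => ?_
  have hθ : IsIrr θ := mem_irrF.mp hθ'
  have hcc := CCOR_thm IND_thm SUMM_thm ↥(SL π M τ M) ↥(SL π M τ (V.comap p)) H
    (jA π M τ hMV) (cA π M τ (V.comap p)) (pA π M τ p (V.comap p)) hS θ hθ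
  have hker : π.ker ≤ SL π M τ M := by
    intro z hz
    have hz' : π z = 1 := hz
    refine ⟨?_, ?_⟩
    · change π z ∈ M
      rw [hz']
      exact M.one_mem
    · change π z ∈ stb (mapCh M.subtype τ)
      rw [hz']
      exact Subgroup.one_mem _
  have key : ∀ ψ : ↥(inert (cA π M τ (V.comap p)) θ) → ℂ, IsIrr ψ →
      ip (fun a => ext0 ψ (jA π M τ hMV a)) θ ≠ 0 →
      ((OvL π.ker μ _ (indc (inert (cA π M τ (V.comap p)) θ) ψ) ∧
          ∀ g ∈ M.comap π, cen 𝔐 (SL π M τ (V.comap p)).subtype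
            (indc (inert (cA π M τ (V.comap p)) θ) ψ) g = ω g) ↔
        (OvL π.ker μ _ θ ∧ ∀ g ∈ M.comap π, cen 𝔐 (SL π M τ M).subtype θ g = ω g)) := by
    intro ψ hψ hψθ
    obtain ⟨h2, h3⟩ := hcc.1 ψ hψ hψθ
    have h4 := RCE_thm ↥(SL π M τ M) ↥(SL π M τ (V.comap p)) H L 𝔐 (jA π M τ hMV)
      (cA π M τ (V.comap p)) (pA π M τ p (V.comap p)) hS
      (SL π M τ (V.comap p)).subtype (M.comap π) inferInstance
      (fun t ht => ⟨⟨t, ht, t.2.2⟩, rfl⟩) _ θ h2 hθ h3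
    have h5 : ((SL π M τ (V.comap p)).subtype).comp (jA π M τ hMV) =
          (SL π M τ M).subtype := rfl
    rw [h5] at h4
    have h6 : OvL π.ker μ _ (indc (inert (cA π M τ (V.comap p)) θ) ψ) ↔ OvL π.ker μ _ θ :=
      ABF.ovl_iff hc hker (SL_mono π M τ hMV) h2 hθ h3 μ
    rw [h6]
    exact and_congr_right fun _ => forall₂_congr fun g hg => by rw [h4 g hg]
  split_ifs with hcn
  · rw [card_I π M τ hp V θ hθ]
    push_cast
    rw [mul_assoc]
    congr 2
    rw [card_irr_equiv (eI π M τ p V θ)]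
    intro ψ hψ
    have hψ' : IsIrr (fun y => ψ (eI π M τ p V θ y)) := hψ.comp_mulEquiv (eI π M τ p V θ)
    rw [ext0_eq π M τ hp V θ hθ ψ, hasDefect_comp_equiv]
    constructor
    · rintro ⟨h7, h8, -⟩
      exact ⟨h7, h8⟩
    · rintro ⟨h7, h8⟩
      refine ⟨h7, h8, (key _ hψ' ?_).mpr hcn⟩
      rw [ext0_eq π M τ hp V θ hθ ψ]
      exact h7
  · have h9 : IsEmpty {ψ : ↥(inert (cA π M τ (V.comap p)) θ) → ℂ // IsIrr ψ ∧
          ip (fun a => ext0 ψ (jA π M τ hMV a)) θ ≠ 0 ∧ HasDefect ℓ ψ d ∧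
          (OvL π.ker μ _ (indc (inert (cA π M τ (V.comap p)) θ) ψ) ∧
          ∀ g ∈ M.comap π, cen 𝔐 (SL π M τ (V.comap p)).subtype
            (indc (inert (cA π M τ (V.comap p)) θ) ψ) g = ω g)} := by
      constructor
      rintro ⟨ψ, h10, h11, -, h12⟩
      exact hcn ((key ψ h10 h11).mp h12)
    rw [@Nat.card_of_isEmpty _ h9]
    simp

end

end EXU

theorem EXU_thm : Stmt_EXU := by
  classical
  intro L K H _ _ _ _ _ _ 𝔐 ℓ _ π hs hc μ M _ p hps hp ω d τ hτ
  refine ⟨EXU.IA π M τ p, fun θ V => (Nat.card V : ℚ) *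
    Nat.card {ψ : ↥(V.comap (EXU.qA π M τ p θ)) → ℂ // IsIrr ψ ∧
      ip (fun a : ↥(SL π M τ M) => ext0 (ext0 ψ) (EXU.jA π M τ le_top a)) θ ≠ 0 ∧
      HasDefect ℓ ψ d}, ?_, ?_, ?_⟩
  · intro θ hθ hO hcn
    have hT := EXU.clG π M τ hp (le_top : M ≤ ⊤)
    have hmem : ∀ a : ↥(SL π M τ M), EXU.jA π M τ le_top a ∈ inert (EXU.cA π M τ ⊤) θ :=
      FFC.jmem hT hθ
    constructor
    · intro hI
      have hsur : ∀ h : H, ∃ t ∈ inert (EXU.cA π M τ ⊤) θ, EXU.pA π M τ p ⊤ t = h := by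
        intro h
        have h1 : h ∈ EXU.IA π M τ p θ := by
          rw [hI]
          exact Subgroup.mem_top _
        exact h1
      refine ⟨hθ, hO, hcn, ?_, ?_⟩
      · intro h
        obtain ⟨t, -, ht⟩ := hsur h
        exact ⟨π t, t.2.2, ht⟩
      · intro t ht a b hab
        obtain ⟨t', ht', he⟩ := hsur (EXU.pA π M τ p ⊤ ⟨t, ht⟩)
        have h1 : EXU.pA π M τ p ⊤ (⟨t, ht⟩ * t'⁻¹) = 1 := by
          rw [map_mul, map_inv, he, mul_inv_cancel]
        obtain ⟨a', ha'⟩ := (hT.ker _).mp h1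
        have h2 : (⟨t, ht⟩ : ↥(SL π M τ ⊤)) ∈ inert (EXU.cA π M τ ⊤) θ := by
          have h3 : (⟨t, ht⟩ : ↥(SL π M τ ⊤)) = EXU.jA π M τ le_top a' * t' := by
            rw [ha', inv_mul_cancel_right]
          rw [h3]
          exact mul_mem (hmem a') ht'
        have h4 : b = EXU.cA π M τ ⊤ ⟨t, ht⟩ a := Subtype.ext hab
        rw [h4]
        exact h2 a
    · intro hP
      rw [eq_top_iff]
      intro h _
      obtain ⟨k, hk, hkh⟩ := hP.sj h
      obtain ⟨t, rfl⟩ := hs k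
      have ht : t ∈ SL π M τ ⊤ := ⟨Subgroup.mem_top _, hk⟩
      exact ⟨⟨t, ht⟩, fun a => hP.iv t ht a _ rfl, hkh⟩
  · intro θ hP V
    have hall : ∀ t : ↥(SL π M τ ⊤), t ∈ inert (EXU.cA π M τ ⊤) θ :=
      fun t a => hP.iv t t.2 a _ rfl
    beta_reduce
    congr 2
    let e : ↥(V.comap (EXU.qA π M τ p θ)) ≃* ↥(SL π M τ (V.comap p)) :=
      { toFun := fun x => ⟨x.1.1.1, x.2, x.1.1.2.2⟩
        invFun := fun x => ⟨⟨⟨x.1, ⟨Subgroup.mem_top _, x.2.2⟩⟩, hall _⟩, x.2.1⟩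
        left_inv := fun _ => rfl
        right_inv := fun _ => rfl
        map_mul' := fun _ _ => rfl }
    rw [card_irr_equiv e]
    intro ψ hψ
    rw [hasDefect_comp_equiv]
    have h1 : (fun a : ↥(SL π M τ M) => ext0 (ext0 (fun y => ψ (e y)))
        (EXU.jA π M τ le_top a)) = fun a : ↥(SL π M τ M) => ext0 ψ (a : L) := by
      funext a
      have h2 : EXU.jA π M τ le_top a ∈ inert (EXU.cA π M τ ⊤) θ := hall _
      have h3 : (⟨EXU.jA π M τ le_top a, h2⟩ : inert (EXU.cA π M τ ⊤) θ) ∈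
          V.comap (EXU.qA π M τ p θ) := by
        change p (π (a : L)) ∈ V
        rw [(hp _).mpr a.2.1]
        exact V.one_mem
      have h4 : (a : L) ∈ SL π M τ (V.comap p) := ⟨h3, a.2.2⟩
      rw [ext0_of_mem _ h2, ext0_of_mem _ h3, ext0_of_mem _ h4]
      rfl
    rw [h1]
  · intro V
    have h1 := EXU.term π M τ hc μ hp 𝔐 ℓ d ω V
    rw [EXU.card_SL π M τ hs, EXU.card_SL π M τ hs] at h1
    have hk : (Nat.card π.ker : ℚ) ≠ 0 := by
      exact_mod_cast Nat.card_pos.ne'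
    have h2 := mul_left_cancel₀ hk (a := (Nat.card π.ker : ℚ))
      (b := (Nat.card ↥(V.comap p ⊓ stb (mapCh M.subtype τ)) : ℚ) *
          Nat.card {ψ : ↥(SL π M τ (V.comap p)) → ℂ // IsIrr ψ ∧ OvL π.ker μ _ ψ ∧
            HasDefect ℓ ψ d ∧
            ∀ g ∈ M.comap π, cen 𝔐 (SL π M τ (V.comap p)).subtype ψ g = ω g})
      (c := ∑ θ ∈ irrF (SL π M τ M) with OvL π.ker μ _ θ ∧
            ∀ g ∈ M.comap π, cen 𝔐 (SL π M τ M).subtype θ g = ω g,
        (Nat.card ↥(M ⊓ stb (mapCh M.subtype τ)) : ℚ) *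
          ((Nat.card ↥(V ⊓ EXU.IA π M τ p θ) : ℚ) *
            Nat.card {ψ : ↥(V.comap (EXU.qA π M τ p θ)) → ℂ // IsIrr ψ ∧
              ip (fun a : ↥(SL π M τ M) => ext0 (ext0 ψ) (EXU.jA π M τ le_top a)) θ ≠ 0 ∧
              HasDefect ℓ ψ d})) (by
        rw [Finset.mul_sum, ← mul_assoc]
        push_cast at h1
        rw [h1]
        exact Finset.sum_congr rfl fun θ _ => by ring)
    rw [h2]
    refine Finset.sum_congr rfl fun θ _ => ?_
    dsimp only
    rw [EXU.comap_qA]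

end Pool.Agent.DPF


end

section

/-!
# NUM: the characters of `T` over `θ`
-/

set_option autoImplicit false

namespace Pool.Agent.DPF

open Pool.Agent.DP Pool.Agent.DPC Pool.Agent.DPM Pool.Agent.DPN Pool.Agent.Lib_helper13
  Representation
open Pool.Agent.Lib_helper13.Dade (pCore DadeHolds dadeSum)

namespace NUM

variable {A T H W G : Type} [Group A] [Fintype A] [Group T] [Fintype T] [Group H] [Fintype H]
  [Group W] [Fintype W] [Group G] [Fintype G] {α : G →* T} {β : G →* W} {p : T →* H} {π : W →* H}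

omit [Fintype A] [Fintype T] [Fintype H] [Fintype W] [Fintype G] in
theorem exists_eps (h : FbP α β p π) (i : A →* T) (hp : ∀ a, p (i a) = 1) :
    ∃ ε : A →* G, ∀ a, α (ε a) = i a ∧ β (ε a) = 1 := by
  have h1 : ∀ a, p (i a) = π 1 := fun a => by rw [hp, map_one]
  choose e he he' using fun a => h.ex (i a) 1 (h1 a)
  refine ⟨MonoidHom.mk' e ?_, fun a => he a⟩
  intro a b
  symm
  refine he' (a * b) (e a * e b) ⟨?_, ?_⟩
  · rw [map_mul, map_mul, (he a).1, (he b).1]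
  · rw [map_mul, (he a).2, (he b).2, one_mul]

omit [Fintype A] [Fintype T] [Fintype H] [Fintype W] [Fintype G] in
theorem mem_iff (h : FbP α β p π) (V : Subgroup H) (g : G) :
    α g ∈ V.comap p ↔ g ∈ V.comap (π.comp β) := by
  rw [Subgroup.mem_comap, Subgroup.mem_comap, MonoidHom.comp_apply, h.cm]

/-- The restriction of `α`. -/
def aV (h : FbP α β p π) (V : Subgroup H) : ↥(V.comap (π.comp β)) →* ↥(V.comap p) :=
  (α.comp (V.comap (π.comp β)).subtype).codRestrict (V.comap p)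
    (fun g => (mem_iff h V g).2 g.2)

omit [Fintype A] [Fintype T] [Fintype H] [Fintype W] [Fintype G] in
theorem aV_val (h : FbP α β p π) (V : Subgroup H) (g : ↥(V.comap (π.comp β))) :
    ((aV h V g : ↥(V.comap p)) : T) = α g := rfl

omit [Fintype A] [Fintype T] [Fintype H] [Fintype W] [Fintype G] in
theorem aV_surj (h : FbP α β p π) (hπ : Function.Surjective π) (V : Subgroup H) :
    Function.Surjective (aV h V) := by
  rintro ⟨t, ht⟩
  obtain ⟨w, hw⟩ := hπ (p t)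
  obtain ⟨g, ⟨h1, h2⟩, _⟩ := h.ex t w hw.symm
  refine ⟨⟨g, (mem_iff h V g).1 (by rw [h1]; exact ht)⟩, ?_⟩
  exact Subtype.ext h1

omit [Fintype A] [Fintype T] [Fintype H] [Fintype W] [Fintype G] in
theorem aV_ker (h : FbP α β p π) (V : Subgroup H) :
    Nat.card (aV h V).ker = Nat.card π.ker := by
  have h0 : ∀ g : G, α g = 1 → π (β g) = 1 := fun g hg => by rw [← h.cm, hg, map_one]
  refine Nat.card_congr (Equiv.ofBijective (fun z => ⟨β ((z : ↥(V.comap (π.comp β))) : G),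
    h0 _ (congrArg Subtype.val ((MonoidHom.mem_ker).1 z.2))⟩) ⟨?_, ?_⟩)
  · intro x y hxy
    have h1 : β ((x : ↥(V.comap (π.comp β))) : G) = β ((y : ↥(V.comap (π.comp β))) : G) :=
      congrArg Subtype.val hxy
    have hx : α ((x : ↥(V.comap (π.comp β))) : G) = 1 :=
      congrArg Subtype.val ((MonoidHom.mem_ker).1 x.2)
    have hy : α ((y : ↥(V.comap (π.comp β))) : G) = 1 :=
      congrArg Subtype.val ((MonoidHom.mem_ker).1 y.2)
    obtain ⟨g, _, hg⟩ := h.ex 1 (β ((x : ↥(V.comap (π.comp β))) : G)) (by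
      rw [map_one, h0 _ hx])
    have h2 := hg _ ⟨hx, rfl⟩
    have h3 := hg _ ⟨hy, h1.symm⟩
    apply Subtype.ext
    apply Subtype.ext
    rw [h2, h3]
  · rintro ⟨w, hw⟩
    obtain ⟨g, ⟨h1, h2⟩, _⟩ := h.ex 1 w (by rw [map_one, (MonoidHom.mem_ker).1 hw])
    have h3 : g ∈ V.comap (π.comp β) := by
      rw [Subgroup.mem_comap, MonoidHom.comp_apply, h2, (MonoidHom.mem_ker).1 hw]
      exact V.one_mem
    refine ⟨⟨⟨g, h3⟩, ?_⟩, Subtype.ext h2⟩
    rw [MonoidHom.mem_ker]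
    exact Subtype.ext h1

omit [Fintype A] [Fintype T] [Fintype H] [Fintype W] in
theorem inv_nu {i : A →* T} {θ : A → ℂ} (hθ : IsIrr θ) (hp : Function.Surjective p)
    (h : FbP α β p π) {ν : π.ker →* ℂˣ} {E : G → ℂ} (hE : EXW i θ α β π ν E) (w : W)
    (z z' : π.ker) (hz : (z' : W) = w * z * w⁻¹) : ν z' = ν z := by
  obtain ⟨t, ht⟩ := hp (π w)
  obtain ⟨g₀, ⟨_, h1⟩, _⟩ := h.ex t w ht
  obtain ⟨g₁, ⟨h2, h3⟩, _⟩ := h.ex 1 (z : W) (by rw [map_one, (MonoidHom.mem_ker).1 z.2])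
  have h4 := hE.El z 1 g₁ (by rw [h2, map_one]) (by rw [h3, map_one, mul_one])
  have h5 := hE.El z' 1 (g₀ * g₁ * g₀⁻¹)
    (by rw [map_mul, map_mul, map_inv, h2, map_one, mul_one, mul_inv_cancel])
    (by rw [map_mul, map_mul, map_inv, h1, h3, map_one, mul_one, hz])
  rw [hE.Ec.conj_eq g₀ g₁] at h5
  have h6 : E 1 = θ 1 := hE.Ee 1 1 (by rw [map_one, map_one]) (map_one β)
  have h7 : E 1 ≠ 0 := by
    rw [h6]
    obtain ⟨n, hn, hn'⟩ := hθ.exists_degree
    rw [hn']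
    exact_mod_cast hn.ne'
  have h8 : E g₁ ≠ 0 := by
    intro h9
    rw [h9, mul_zero] at h4
    exact h7 h4.symm
  have h9 : ((ν z' : ℂˣ) : ℂ) = ((ν z : ℂˣ) : ℂ) :=
    mul_right_cancel₀ h8 (h5.trans h4.symm)
  exact Units.ext h9

end NUM

/-- **NUM** -/
theorem NUM_thm (h1 : Stmt_NUG) : Stmt_NUM := by
  classical
  intro A T H W G _ _ _ _ _ _ _ _ _ _ ℓ _ i p hi hp hpi θ hθ π hπ α β hF ν E hE
  refine ⟨fun w z z' hz => NUM.inv_nu hθ hp hF hE w z z' hz, fun V d => ?_⟩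
  have hpa : ∀ a, p (i a) = 1 := fun a => (hpi _).2 ⟨a, rfl⟩
  obtain ⟨ε, hε⟩ := NUM.exists_eps hF i hpa
  have h2 := h1 A T H W G ℓ i p hi hp hpi θ hθ π hπ α β hF ν E hE ε hε 1 V
    (d + padicValNat ℓ (Nat.card π.ker))
  have hν : ν * (1 : π.ker →* ℂˣ) = ν := by
    ext z
    simp
  rw [hν] at h2
  rw [← h2]
  have hsurj := NUM.aV_surj hF hπ V
  have hip : ∀ ψ : ↥(V.comap p) → ℂ,
      (fun a : A => ext0 (fun g => ψ (NUM.aV hF V g)) (ε a)) = fun a : A => ext0 ψ (i a) := by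
    intro ψ
    funext a
    have h3 : i a ∈ V.comap p := by
      rw [Subgroup.mem_comap, hpa]
      exact V.one_mem
    have h4 : ε a ∈ V.comap (π.comp β) := (NUM.mem_iff hF V _).1 (by rw [(hε a).1]; exact h3)
    rw [ext0_of_mem _ h4, ext0_of_mem _ h3]
    exact congrArg ψ (Subtype.ext (hε a).1)
  have hdef : ∀ ψ : ↥(V.comap p) → ℂ,
      HasDefect ℓ (fun g => ψ (NUM.aV hF V g)) (d + padicValNat ℓ (Nat.card π.ker)) ↔
        HasDefect ℓ ψ d := by
    intro ψ
    rw [← NUM.aV_ker hF V]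
    exact QINF.defect_inf (NUM.aV hF V) ℓ hsurj ψ d
  refine Nat.card_congr (Equiv.ofBijective (fun ψ => ⟨fun g => ψ.1 (NUM.aV hF V g),
    QINF.irr_inf _ hsurj ψ.2.1, ?_, ?_, (hdef ψ.1).2 ψ.2.2.2⟩) ⟨?_, ?_⟩)
  · rw [hip]
    exact ψ.2.2.1
  · intro z g g' h3 h4
    rw [MonoidHom.one_apply, Units.val_one, one_mul]
    exact congrArg ψ.1 (Subtype.ext h3)
  · intro ψ₁ ψ₂ h3
    apply Subtype.ext
    funext y
    obtain ⟨x, rfl⟩ := hsurj y
    exact congrFun (congrArg Subtype.val h3) x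
  · rintro ⟨ψ', h3, h4, h5, h6⟩
    obtain ⟨ψ, h7, h8⟩ := QINF.exists_inf (NUM.aV hF V) hsurj h3 (by
      intro x y hxy
      have h9 : α (x : G) = 1 := congrArg Subtype.val hxy
      have h10 : β (x : G) ∈ π.ker := by
        rw [MonoidHom.mem_ker, ← hF.cm, h9, map_one]
      have h11 := h5 ⟨β (x : G), h10⟩ y (x * y)
        (by
          show α ((x : G) * (y : G)) = _
          rw [map_mul, h9, one_mul])
        (by
          show β ((x : G) * (y : G)) = _
          rw [map_mul])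
      rw [MonoidHom.one_apply, Units.val_one, one_mul] at h11
      exact h11)
    subst h8
    refine ⟨⟨ψ, h7, ?_, (hdef ψ).1 h6⟩, rfl⟩
    rw [← hip ψ]
    exact h4

end Pool.Agent.DPF


end

section

set_option autoImplicit false

/-!
# NUW: the numbers of characters from the extension
-/

namespace Pool.Agent.DPF

open Pool.Agent.DP Pool.Agent.DPC Pool.Agent.DPM Pool.Agent.DPN Pool.Agent.Lib_helper13
  Representation

namespace NUW

variable {L K H : Type} [Group L] [Group K] [Group H]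

theorem mem_iff (π : L →* K) (M : Subgroup K) (p : K →* H) (τ : Finset (Subgroup M))
    (V : Subgroup H) (x : L) :
    x ∈ SL π M τ (V.comap p) ↔ ∃ h : x ∈ SL π M τ ⊤, (⟨x, h⟩ : ↥(SL π M τ ⊤)) ∈
      V.comap (pSL π p M τ) := by
  constructor
  · intro hx
    exact ⟨SL_mono π M τ le_top hx, hx.1⟩
  · rintro ⟨h, hV⟩
    exact ⟨hV, h.2⟩

/-- The two models of the inverse image. -/
noncomputable def eqv (π : L →* K) (M : Subgroup K) (p : K →* H) (τ : Finset (Subgroup M))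
    (V : Subgroup H) : ↥(SL π M τ (V.comap p)) ≃* ↥(V.comap (pSL π p M τ)) where
  toFun x := ⟨⟨x.1, SL_mono π M τ le_top x.2⟩, ((mem_iff π M p τ V x.1).mp x.2).2⟩
  invFun y := ⟨y.1.1, (mem_iff π M p τ V y.1.1).mpr ⟨y.1.2, y.2⟩⟩
  left_inv _ := rfl
  right_inv _ := rfl
  map_mul' _ _ := rfl

theorem ext0_eqv (π : L →* K) (M : Subgroup K) (p : K →* H) (τ : Finset (Subgroup M))
    (V : Subgroup H) (ψ : ↥(V.comap (pSL π p M τ)) → ℂ) (a : ↥(SL π M τ M)) :
    ext0 (fun y => ψ (eqv π M p τ V y)) (a : L) = ext0 ψ (iSL π M τ a) := by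
  by_cases h : (a : L) ∈ SL π M τ (V.comap p)
  · have h2 : iSL π M τ a ∈ V.comap (pSL π p M τ) := ((mem_iff π M p τ V (a : L)).mp h).2
    rw [ext0_of_mem _ h, ext0_of_mem _ h2]
    rfl
  · have h2 : iSL π M τ a ∉ V.comap (pSL π p M τ) := fun hc =>
      h ((mem_iff π M p τ V (a : L)).mpr ⟨SL_mono π M τ le_top a.2, hc⟩)
    rw [ext0_of_not_mem _ h, ext0_of_not_mem _ h2]

end NUW

open _root_.Pool.Agent.DPF.NUW in
theorem NUW_thm (h1 : Stmt_NUM) : Stmt_NUW := by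
  intro L K H W _ _ _ _ _ _ _ _ 𝔐 ℓ _ π hπ μ M _ p hp ω πW hπW τ θ ν hPr hED
  obtain ⟨G, gG, fG, α, β, E, hFb, hEX⟩ := hED
  letI := gG
  haveI := fG
  letI : Fintype G := Fintype.ofFinite G
  have hinj : Function.Injective (iSL π M τ) := Subgroup.inclusion_injective _
  have hsurj : Function.Surjective (pSL π p M τ) := by
    intro h
    obtain ⟨k, hk, rfl⟩ := hPr.sj h
    obtain ⟨l, rfl⟩ := hπ k
    exact ⟨⟨l, Subgroup.mem_top _, hk⟩, rfl⟩
  have hker : ∀ t, pSL π p M τ t = 1 ↔ t ∈ (iSL π M τ).range := by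
    intro t
    constructor
    · intro h
      have h2 : π (t : L) ∈ M := (hp _).mp h
      exact ⟨⟨(t : L), h2, t.2.2⟩, Subtype.ext rfl⟩
    · rintro ⟨a, rfl⟩
      exact (hp _).mpr a.2.1
  have key := h1 ↥(SL π M τ M) ↥(SL π M τ ⊤) H W G ℓ (iSL π M τ) (pSL π p M τ) hinj hsurj hker
    θ hPr.irr πW hπW α β hFb ν E hEX
  refine ⟨key.1, fun V d => ?_⟩
  rw [← key.2 V d]
  refine card_irr_equiv (eqv π M p τ V) _ _ fun ψ _ => ?_
  have h3 : (fun a : ↥(SL π M τ M) => ext0 (fun y => ψ (eqv π M p τ V y)) (a : L)) =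
      fun a => ext0 ψ (iSL π M τ a) := funext (ext0_eqv π M p τ V ψ)
  rw [h3, hasDefect_comp_equiv]

end Pool.Agent.DPF


end

section

/-!
# EDV: the characters of a given defect of the inverse image of a subgroup
-/

set_option linter.unusedSectionVars false

namespace Pool.Agent.DPF

open Pool.Agent.DP Pool.Agent.DPC Pool.Agent.DPM Pool.Agent.DPN Pool.Agent.Lib_helper13
  Representation
open Pool.Agent.Lib_helper13.Dade (pCore DadeHolds dadeSum)

namespace EDV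

variable {W : Type} [Group W] [Fintype W]

open Classical in
/-- The function on `S` which belongs to the linear character `ν` of `U`. -/
noncomputable def lf (U : Subgroup W) (ν : U →* ℂˣ) (S : Subgroup W) (s : S) : ℂ :=
  if h : (s : W) ∈ U then (((ν ⟨s, h⟩)⁻¹ : ℂˣ) : ℂ) else 0

theorem lf_mem {U : Subgroup W} (ν : U →* ℂˣ) {S : Subgroup W} {s : S} (h : (s : W) ∈ U) :
    lf U ν S s = (((ν ⟨s, h⟩)⁻¹ : ℂˣ) : ℂ) := by
  unfold lf
  rw [dif_pos h]

theorem lf_not {U : Subgroup W} (ν : U →* ℂˣ) {S : Subgroup W} {s : S} (h : (s : W) ∉ U) :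
    lf U ν S s = 0 := by
  unfold lf
  rw [dif_neg h]

theorem lf_conj {U : Subgroup W} (hU : ∀ w z : W, z ∈ U → w * z * w⁻¹ ∈ U) (ν : U →* ℂˣ)
    (hν : ∀ (w : W) (z z' : U), (z' : W) = w * z * w⁻¹ → ν z' = ν z) (S : Subgroup W)
    (g s : S) : lf U ν S (g * s * g⁻¹) = lf U ν S s := by
  by_cases h : (s : W) ∈ U
  · have h' : ((g * s * g⁻¹ : S) : W) ∈ U := hU g s h
    rw [lf_mem ν h, lf_mem ν h', hν (g : W) ⟨s, h⟩ ⟨((g * s * g⁻¹ : S) : W), h'⟩ rfl]
  · have h' : ((g * s * g⁻¹ : S) : W) ∉ U := by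
      intro h'
      apply h
      have h3 := hU ((g : W)⁻¹) _ h'
      have h4 : (g : W)⁻¹ * ((g * s * g⁻¹ : S) : W) * (g : W)⁻¹⁻¹ = s := by
        push_cast
        group
      rwa [h4] at h3
    rw [lf_not ν h, lf_not ν h']

theorem lf_shift {U : Subgroup W} (ν : U →* ℂˣ) {S : Subgroup W} {s : S} (h : (s : W) ∈ U)
    (r : S) : lf U ν S (r * s⁻¹) = ((ν ⟨s, h⟩ : ℂˣ) : ℂ) * lf U ν S r := by
  by_cases hr : (r : W) ∈ U
  · have h' : ((r * s⁻¹ : S) : W) ∈ U := U.mul_mem hr (U.inv_mem h)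
    rw [lf_mem ν hr, lf_mem ν h', ← Units.val_mul]
    congr 1
    have h1 : (⟨((r * s⁻¹ : S) : W), h'⟩ : U) = ⟨r, hr⟩ * (⟨s, h⟩)⁻¹ := rfl
    rw [h1, map_mul, map_inv, mul_inv_rev, inv_inv]
  · have h' : ((r * s⁻¹ : S) : W) ∉ U := by
      intro h'
      apply hr
      have h3 := U.mul_mem h' h
      have h4 : ((r * s⁻¹ : S) : W) * (s : W) = r := by
        push_cast
        group
      rwa [h4] at h3
    rw [lf_not ν hr, lf_not ν h', mul_zero]

open Classical in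
theorem card_fil {U S : Subgroup W} (hUS : U ≤ S) :
    (Finset.univ.filter fun s : S => (s : W) ∈ U).card = Nat.card U := by
  have h1 : Nat.card (U.subgroupOf S) = Nat.card U :=
    Nat.card_congr (Subgroup.subgroupOfEquivOfLe hUS).toEquiv
  rw [← h1, Nat.card_eq_fintype_card, Fintype.card_subtype]
  congr 1

open Classical in
theorem ovl_iff_wt {U S : Subgroup W} (hUS : U ≤ S)
    (hU : ∀ w z : W, z ∈ U → w * z * w⁻¹ ∈ U) (ν : U →* ℂˣ)
    (hν : ∀ (w : W) (z z' : U), (z' : W) = w * z * w⁻¹ → ν z' = ν z) {χ : S → ℂ}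
    (hχ : IsIrr χ) : OvL U ν S χ ↔ wt χ (lf U ν S) = (Nat.card U : ℂ) := by
  have h0 : (Nat.card U : ℂ) ≠ 0 := natCard_ne_zero
  constructor
  · intro h
    have h1 : ∀ s : S, lf U ν S s * χ s = if (s : W) ∈ U then χ 1 else 0 := by
      intro s
      by_cases hs : (s : W) ∈ U
      · rw [if_pos hs, lf_mem ν hs]
        have h2 := h s 1 hs
        rw [mul_one] at h2
        rw [h2, ← mul_assoc, ← Units.val_mul, inv_mul_cancel, Units.val_one, one_mul]
      · rw [if_neg hs, lf_not ν hs, zero_mul]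
    rw [wt, Finset.sum_congr rfl fun s _ => h1 s, ← Finset.sum_filter, Finset.sum_const,
      card_fil hUS, nsmul_eq_mul, mul_div_assoc, div_self hχ.one_ne_zero, mul_one]
  · intro h s t hs
    have h1 := FRO.scal hχ (lf_conj hU ν hν S)
    rw [h] at h1
    have h2 : (Nat.card U : ℂ) * χ (s * t) =
        (Nat.card U : ℂ) * (((ν ⟨s, hs⟩ : ℂˣ) : ℂ) * χ t) := by
      rw [← h1 (s * t)]
      have h3 : ∑ r : S, lf U ν S r * χ (r * (s * t)) =
          ∑ r : S, lf U ν S (r * s⁻¹) * χ (r * t) := by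
        refine Fintype.sum_equiv (Equiv.mulRight s) _ _ fun r => ?_
        change _ = lf U ν S (r * s * s⁻¹) * χ (r * s * t)
        rw [mul_inv_cancel_right, mul_assoc]
      rw [h3, mul_left_comm, ← h1 t, Finset.mul_sum]
      refine Finset.sum_congr rfl fun r _ => ?_
      rw [lf_shift ν hs, mul_assoc]
    exact mul_left_cancel₀ h0 h2

theorem ovl_iff' {U G S : Subgroup W} (hUS : U ≤ S) (hSG : S ≤ G) [(S.subgroupOf G).Normal]
    (hU : ∀ w z : W, z ∈ U → w * z * w⁻¹ ∈ U) (ν : U →* ℂˣ)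
    (hν : ∀ (w : W) (z z' : U), (z' : W) = w * z * w⁻¹ → ν z' = ν z) {η : G → ℂ}
    (hη : IsIrr η) {κ : S.subgroupOf G → ℂ} (hκ : IsIrr κ)
    (hip : ip (resj (S.subgroupOf G).subtype η) κ ≠ 0) :
    OvL U ν S (fun s => κ ((ABF.eS hSG).symm s)) ↔ OvL U ν G η := by
  have hκ' : IsIrr (fun s => κ ((ABF.eS hSG).symm s)) := hκ.comp_mulEquiv (ABF.eS hSG).symm
  rw [ovl_iff_wt hUS hU ν hν hκ', ovl_iff_wt (hUS.trans hSG) hU ν hν hη]
  have h1 := (SUMM_thm _ _ _ (S.subgroupOf G).subtype MulAut.conjNormal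
    (QuotientGroup.mk' (S.subgroupOf G)) (FRO.clG (S.subgroupOf G))).2.2.2 κ η (lf U ν G) hκ hη
    hip (lf_conj hU ν hν G) (by
      intro y hy
      apply lf_not
      intro h
      apply hy
      rw [Subgroup.range_subtype, Subgroup.mem_subgroupOf]
      exact hUS h)
  have h2 : wt κ (fun a => lf U ν G ((S.subgroupOf G).subtype a)) =
      wt (fun s => κ ((ABF.eS hSG).symm s)) (lf U ν S) := by
    rw [← wt_comp_equiv (ABF.eS hSG) (fun s => κ ((ABF.eS hSG).symm s)) (lf U ν S)]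
    have h3 : (fun y => (fun s => κ ((ABF.eS hSG).symm s)) ((ABF.eS hSG) y)) = κ := by
      funext y
      exact congrArg κ ((ABF.eS hSG).symm_apply_apply y)
    rw [h3]
    rfl
  rw [h1, h2]

theorem ovl_conj {U G S : Subgroup W} (hSG : S ≤ G) [(S.subgroupOf G).Normal]
    (hU : ∀ w z : W, z ∈ U → w * z * w⁻¹ ∈ U) (ν : U →* ℂˣ)
    (hν : ∀ (w : W) (z z' : U), (z' : W) = w * z * w⁻¹ → ν z' = ν z) (g : G) (κ : S → ℂ)
    (h : OvL U ν S κ) : OvL U ν S (fun s => κ (ABF.phi hSG g s)) := by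
  intro s t hs
  have h1 : ((ABF.phi hSG g s : S) : W) ∈ U := by
    rw [ABF.phi_coe]
    exact hU g s hs
  change κ (ABF.phi hSG g (s * t)) = _
  rw [map_mul, h (ABF.phi hSG g s) (ABF.phi hSG g t) h1,
    hν (g : W) ⟨s, hs⟩ ⟨((ABF.phi hSG g s : S) : W), h1⟩ (ABF.phi_coe hSG g s)]

theorem conj_eq {G S : Subgroup W} (hSG : S ≤ G) [(S.subgroupOf G).Normal] (g : G)
    (κ : S.subgroupOf G → ℂ) :
    (fun s => (fun n => κ (MulAut.conjNormal g n)) ((ABF.eS hSG).symm s)) =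
      fun s => (fun s => κ ((ABF.eS hSG).symm s)) (ABF.phi hSG g s) := by
  funext s
  refine congrArg κ ?_
  exact ((ABF.eS hSG).symm_apply_apply _).symm

open Classical in
theorem sum1 {H : Type} [Group H] (π : W →* H) (V : Subgroup H) (f : ↥(V.comap π) → ℂ)
    (F : W → ℂ) (hf : ∀ x : ↥(V.comap π), f x = F x) :
    ∑ x : ↥(V.comap π), f x = ∑ x : W, if π x ∈ V then F x else 0 := by
  rw [← Finset.sum_filter, Finset.sum_subtype (Finset.univ.filter fun x : W => π x ∈ V)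
    (p := fun x => x ∈ V.comap π) (fun x => by simp)]
  exact Finset.sum_congr rfl fun x _ => hf x

open Classical in
theorem sum2 {H : Type} [Group H] (π : W →* H) (V : Subgroup H)
    (f : ↥(V.comap π) → ↥(V.comap π) → ℂ) (F : W → W → ℂ)
    (hf : ∀ x y : ↥(V.comap π), f x y = F x y) :
    ∑ x : ↥(V.comap π), ∑ y : ↥(V.comap π), f x y =
      ∑ x : W, ∑ y : W, if π x ∈ V ∧ π y ∈ V then F x y else 0 := by
  rw [sum1 π V _ (fun x => ∑ y : W, if π y ∈ V then F x y else 0)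
    (fun x => sum1 π V _ (fun y => F x y) (hf x))]
  refine Finset.sum_congr rfl fun x _ => ?_
  by_cases hx : π x ∈ V
  · rw [if_pos hx]
    refine Finset.sum_congr rfl fun y _ => ?_
    by_cases hy : π y ∈ V
    · rw [if_pos hy, if_pos (show π x ∈ V ∧ π y ∈ V from ⟨hx, hy⟩)]
    · rw [if_neg hy, if_neg (show ¬ (π x ∈ V ∧ π y ∈ V) from fun h => hy h.2)]
  · rw [if_neg hx]
    refine (Finset.sum_eq_zero fun y _ => ?_).symm
    rw [if_neg (show ¬ (π x ∈ V ∧ π y ∈ V) from fun h => hx h.1)]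

end EDV

open _root_.Pool.Agent.DPF.EDV

open Classical in
/-- EDV: the characters of a given defect of the inverse image of a subgroup. -/
theorem EDV_thm (h1 : Stmt_FRZ) (h2 : Stmt_DGI) : Stmt_EDV := by
  intro W H _ _ _ _ ℓ _ π hs P hP V e
  have hPn := hP.nrm
  have hSG : (V ⊓ P).comap π ≤ V.comap π := Subgroup.comap_mono inf_le_left
  have hkS : π.ker ≤ (V ⊓ P).comap π := by
    intro x hx
    rw [Subgroup.mem_comap, MonoidHom.mem_ker.mp hx]
    exact (V ⊓ P).one_mem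
  have hRn : (P.comap π).Normal := hPn.comap π
  have hSR : ((V ⊓ P).comap π).subgroupOf (V.comap π) =
      (P.comap π).subgroupOf (V.comap π) := by
    rw [Subgroup.comap_inf, Subgroup.inf_subgroupOf_left]
  have hN : (((V ⊓ P).comap π).subgroupOf (V.comap π)).Normal := by
    rw [hSR]
    infer_instance
  have hidx : ¬ ℓ ∣ (((V ⊓ P).comap π).subgroupOf (V.comap π)).index := by
    intro h
    apply hP.idx
    rw [hSR] at h
    have h3 : ((P.comap π).subgroupOf (V.comap π)).index ∣ (P.comap π).index :=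
      Subgroup.relIndex_dvd_index_of_normal _ _
    rw [Subgroup.index_comap_of_surjective P hs] at h3
    exact h.trans h3
  have hcomm : ∀ x y : ↥(V.comap π), x * y * x⁻¹ * y⁻¹ ∈
      ((V ⊓ P).comap π).subgroupOf (V.comap π) := by
    intro x y
    rw [hSR, Subgroup.mem_subgroupOf, Subgroup.mem_comap]
    have h3 := hP.abl (π x) (π y)
    have h4 : π ((x * y * x⁻¹ * y⁻¹ : ↥(V.comap π)) : W) = π x * π y * (π x)⁻¹ * (π y)⁻¹ := by
      push_cast
      rw [map_mul, map_mul, map_mul, map_inv, map_inv]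
    rw [h4]
    exact h3
  have hdg := h2 ↥(V.comap π) ℓ (((V ⊓ P).comap π).subgroupOf (V.comap π)) hidx
  have hdt : ∀ κ : ((V ⊓ P).comap π).subgroupOf (V.comap π) → ℂ,
      HasDefect ℓ (fun s => κ ((ABF.eS hSG).symm s)) e ↔ HasDefect ℓ κ e := fun κ =>
    hasDefect_comp_equiv (ABF.eS hSG).symm
  constructor
  · intro ν hν
    have hU : ∀ w z : W, z ∈ π.ker → w * z * w⁻¹ ∈ π.ker := fun w z hz =>
      (MonoidHom.normal_ker π).conj_mem z hz w
    have hF := FRO_thm ↥(V.comap π) (((V ⊓ P).comap π).subgroupOf (V.comap π))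
      (fun κ => (fun κ : ↥((V ⊓ P).comap π) → ℂ => OvL π.ker ν _ κ ∧ HasDefect ℓ κ e)
        (fun s => κ ((ABF.eS hSG).symm s)))
      (by
        intro g κ h
        have h3 := conj_eq hSG g κ
        refine ⟨?_, ?_⟩
        · rw [h3]
          exact ovl_conj hSG hU ν hν g _ h.1
        · rw [h3]
          exact (hasDefect_comp_equiv (ABF.phi hSG g)).mpr h.2)
    have hcnt : Nat.card {η : ↥(V.comap π) → ℂ // IsIrr η ∧
        ∃ κ : ((V ⊓ P).comap π).subgroupOf (V.comap π) → ℂ, IsIrr κ ∧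
        ((fun κ : ↥((V ⊓ P).comap π) → ℂ => OvL π.ker ν _ κ ∧ HasDefect ℓ κ e)
          (fun s => κ ((ABF.eS hSG).symm s))) ∧
        ip (resj (((V ⊓ P).comap π).subgroupOf (V.comap π)).subtype η) κ ≠ 0} =
        Nat.card {η : ↥(V.comap π) → ℂ // IsIrr η ∧ OvL π.ker ν _ η ∧ HasDefect ℓ η e} := by
      refine Nat.card_congr (Equiv.subtypeEquivRight fun η => ?_)
      constructor
      · rintro ⟨hη, κ, hκ, hQ, hip⟩
        exact ⟨hη, (ovl_iff' hkS hSG hU ν hν hη hκ hip).mp hQ.1,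
          (hdg η κ hη hκ hip e).mpr ((hdt κ).mp hQ.2)⟩
      · rintro ⟨hη, hQ1, hQ2⟩
        obtain ⟨κ, hκ, hip⟩ := FRO.exists_under (((V ⊓ P).comap π).subgroupOf (V.comap π)) hη
        exact ⟨hη, κ, hκ, ⟨(ovl_iff' hkS hSG hU ν hν hη hκ hip).mpr hQ1,
          (hdt κ).mpr ((hdg η κ hη hκ hip e).mp hQ2)⟩, hip⟩
    rw [← hcnt, hF]
    refine sum2 π V _ (fun x y => ed ((V ⊓ P).comap π)
      (fun κ => OvL π.ker ν _ κ ∧ HasDefect ℓ κ e) (x * y * x⁻¹ * y⁻¹)) fun x y => ?_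
    rw [if_pos (hcomm x y)]
    exact ABF.ed_transport hSG (fun κ => OvL π.ker ν _ κ ∧ HasDefect ℓ κ e) (x * y * x⁻¹ * y⁻¹)
  · intro hc a ha
    have haG : a ∈ V.comap π := hSG (hkS ha)
    have hF := h1 ↥(V.comap π) (((V ⊓ P).comap π).subgroupOf (V.comap π))
      (fun κ => (fun κ : ↥((V ⊓ P).comap π) → ℂ => HasDefect ℓ κ e)
        (fun s => κ ((ABF.eS hSG).symm s)))
      (by
        intro g κ h
        rw [conj_eq hSG g κ]
        exact (hasDefect_comp_equiv (ABF.phi hSG g)).mpr h)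
      ⟨a, haG⟩ (by
        rw [Subgroup.mem_subgroupOf]
        exact hkS ha)
      (by
        rw [Subgroup.mem_center_iff]
        intro g
        apply Subtype.ext
        exact Subgroup.mem_center_iff.mp (hc ha) g)
    have hset : (irrF ↥(V.comap π)).filter (fun η => HasDefect ℓ η e) =
        (irrF ↥(V.comap π)).filter (fun η =>
          ∃ κ : ((V ⊓ P).comap π).subgroupOf (V.comap π) → ℂ, IsIrr κ ∧
            ((fun κ : ↥((V ⊓ P).comap π) → ℂ => HasDefect ℓ κ e)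
              (fun s => κ ((ABF.eS hSG).symm s))) ∧
            ip (resj (((V ⊓ P).comap π).subgroupOf (V.comap π)).subtype η) κ ≠ 0) := by
      refine Finset.filter_congr fun η hη => ?_
      have hη' := mem_irrF.mp hη
      constructor
      · intro hQ
        obtain ⟨κ, hκ, hip⟩ := FRO.exists_under (((V ⊓ P).comap π).subgroupOf (V.comap π)) hη'
        exact ⟨κ, hκ, (hdt κ).mpr ((hdg η κ hη' hκ hip e).mp hQ), hip⟩
      · rintro ⟨κ, hκ, hQ, hip⟩
        exact (hdg η κ hη' hκ hip e).mpr ((hdt κ).mp hQ)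
    have hsum : ∑ η ∈ irrF (V.comap π) with HasDefect ℓ η e, ext0 η a⁻¹ / η 1 =
        ∑ η ∈ irrF ↥(V.comap π) with
          (∃ κ : ((V ⊓ P).comap π).subgroupOf (V.comap π) → ℂ, IsIrr κ ∧
            ((fun κ : ↥((V ⊓ P).comap π) → ℂ => HasDefect ℓ κ e)
              (fun s => κ ((ABF.eS hSG).symm s))) ∧
            ip (resj (((V ⊓ P).comap π).subgroupOf (V.comap π)).subtype η) κ ≠ 0),
          η (⟨a, haG⟩ : ↥(V.comap π))⁻¹ / η 1 := by
      rw [hset]
      refine Finset.sum_congr rfl fun η _ => ?_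
      rw [ext0_of_mem η ((V.comap π).inv_mem haG)]
      rfl
    rw [hsum, hF]
    refine sum2 π V _ (fun x y => ed ((V ⊓ P).comap π)
      (fun κ => HasDefect ℓ κ e) (x * y * x⁻¹ * y⁻¹ * a)) fun x y => ?_
    rw [if_pos (hcomm x y)]
    have h9 := ABF.ed_transport hSG (fun κ : ↥((V ⊓ P).comap π) → ℂ => HasDefect ℓ κ e)
      (x * y * x⁻¹ * y⁻¹ * (⟨a, haG⟩ : ↥(V.comap π)))
    exact h9

end Pool.Agent.DPF


end

section

/-!
# Module EDT: the idempotent of the characters of degree prime to `ℓ` of a central extension of an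
`ℓ`-group
-/

set_option autoImplicit false

namespace Pool.Agent.DPF

open Pool.Agent.DP Pool.Agent.DPC Pool.Agent.DPM Pool.Agent.DPN Pool.Agent.Lib_helper13
  Representation

namespace EDT

theorem normal_of_central {L : Type} [Group L] (Z : Subgroup L) (hZ : Z ≤ Subgroup.center L) :
    Z.Normal := by
  constructor
  intro n hn g
  rw [Subgroup.mem_center_iff.mp (hZ hn) g, mul_inv_cancel_right]
  exact hn

/-- The degree of an irreducible character divides the index of a central subgroup. -/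
theorem degree_dvd_index {L : Type} [Group L] [Fintype L] {ℓ : ℕ} [Fact ℓ.Prime] (Z : Subgroup L)
    (hZ : Z ≤ Subgroup.center L) {χ : L → ℂ} (hχ : IsIrr χ) :
    ∃ n : ℕ, 0 < n ∧ χ 1 = n ∧ n ∣ Z.index := by
  classical
  have hn : Z.Normal := normal_of_central Z hZ
  let _ : Fintype (L ⧸ Z) := Fintype.ofFinite _
  let _ : Fintype (ConjClasses (L ⧸ Z)) := Fintype.ofFinite _
  obtain ⟨lam, hlam⟩ := BTC.exists_cc hZ hχ
  have hr : ∀ C : ConjClasses (L ⧸ Z), ∃ x : L, ConjClasses.mk ((x : L) : L ⧸ Z) = C := by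
    intro C
    obtain ⟨y, rfl⟩ := ConjClasses.mk_surjective C
    obtain ⟨x, rfl⟩ := QuotientGroup.mk_surjective y
    exact ⟨x, rfl⟩
  choose r hr using hr
  obtain ⟨n, M, hn, hn', hM, -, -, -⟩ := MINX.exists_codegZ (ℓ := ℓ) Z hZ hχ hlam r hr
  exact ⟨n, hn, hn', M, by rw [← hM]; rfl⟩

/-- The characters of maximal defect are the linear characters. -/
theorem defect_iff {L : Type} [Group L] [Fintype L] {ℓ : ℕ} [hℓ : Fact ℓ.Prime] (Z : Subgroup L)
    (hZ : Z ≤ Subgroup.center L) (hp : ∀ x : L, ∃ k : ℕ, x ^ ℓ ^ k ∈ Z) {χ : L → ℂ}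
    (hχ : IsIrr χ) : HasDefect ℓ χ (padicValNat ℓ (Nat.card L)) ↔ χ 1 = 1 := by
  constructor
  · rintro ⟨n, hn, hv⟩
    obtain ⟨m, hm, hm', hd⟩ := degree_dvd_index (ℓ := ℓ) Z hZ hχ
    have hnm : n = m := by
      have h : (n : ℂ) = m := hn.symm.trans hm'
      exact_mod_cast h
    subst hnm
    have hN : Z.Normal := normal_of_central Z hZ
    have hP : IsPGroup ℓ (L ⧸ Z) := by
      intro y
      obtain ⟨x, rfl⟩ := QuotientGroup.mk_surjective y
      obtain ⟨k, hk⟩ := hp x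
      refine ⟨k, ?_⟩
      rw [← QuotientGroup.mk_pow]
      exact (QuotientGroup.eq_one_iff _).mpr hk
    obtain ⟨k, hk⟩ := IsPGroup.iff_card.mp hP
    have hk' : Z.index = ℓ ^ k := hk
    rw [hk'] at hd
    obtain ⟨j, -, hj⟩ := (Nat.dvd_prime_pow hℓ.out).mp hd
    have h0 : padicValNat ℓ n = 0 := by omega
    rw [hj, padicValNat.prime_pow] at h0
    rw [hn, hj, h0, pow_zero, Nat.cast_one]
  · intro h
    refine ⟨1, by rw [h, Nat.cast_one], ?_⟩
    rw [padicValNat_one_right, add_zero]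

/-- The number of linear characters. -/
theorem card_lin (L : Type) [Group L] [Finite L] :
    Nat.card (L →* ℂˣ) * Nat.card (commutator L) = Nat.card L := by
  have h1 : Nat.card (L →* ℂˣ) = Nat.card (Abelianization L) := by
    rw [← CommGroup.card_monoidHom_of_hasEnoughRootsOfUnity (Abelianization L) ℂ]
    exact Nat.card_congr Abelianization.lift
  rw [h1]
  exact (Subgroup.card_eq_card_quotient_mul_card_subgroup (commutator L)).symm

open Classical in
theorem card_lin_irr (L : Type) [Group L] [Fintype L] :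
    (((irrF L).filter fun κ => κ 1 = 1).card : ℂ) * Nat.card (commutator L) = Nat.card L := by
  have h : ((irrF L).filter fun κ => κ 1 = 1).card = Nat.card (L →* ℂˣ) := by
    let f : (L →* ℂˣ) → (L → ℂ) := fun lam k => ((lam k : ℂˣ) : ℂ)
    have hf : Function.Injective f := by
      intro a b hab
      apply MonoidHom.ext
      intro k
      apply Units.ext
      exact congrFun hab k
    have h2 : (((irrF L).filter fun κ => κ 1 = 1 : Finset (L → ℂ)) : Set (L → ℂ)) =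
        Set.range f := by
      ext κ
      rw [Finset.mem_coe, Finset.mem_filter, mem_irrF, Set.mem_range]
      constructor
      · rintro ⟨hκ, h1⟩
        obtain ⟨lam, hlam⟩ := DPC.EXTAR.exists_lin hκ h1
        exact ⟨lam, funext hlam⟩
      · rintro ⟨lam, rfl⟩
        refine ⟨DPC.EXTAR.isIrr_lin lam, ?_⟩
        change ((lam 1 : ℂˣ) : ℂ) = 1
        rw [map_one, Units.val_one]
    rw [← Set.ncard_coe_finset, h2]
    exact Nat.card_range_of_injective hf
  rw [h]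
  exact_mod_cast card_lin L

end EDT

open Classical in
theorem EDT_thm (h1 : Stmt_EDC) : Stmt_EDT := by
  intro W _ _ ℓ _ S A hA hc hp r
  by_cases hr : r ∈ ⁅S, S⁆
  · rw [if_pos hr]
    have hrS : r ∈ S := Subgroup.commutator_le_self S hr
    have hrS' : r⁻¹ ∈ S := S.inv_mem hrS
    have hZ : A.subgroupOf S ≤ Subgroup.center S := by
      intro a ha
      rw [Subgroup.mem_center_iff]
      intro s
      exact Subtype.ext (hc a ha s s.2).symm
    have hp' : ∀ x : S, ∃ k : ℕ, x ^ ℓ ^ k ∈ A.subgroupOf S := by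
      intro x
      obtain ⟨k, hk⟩ := hp x x.2
      exact ⟨k, hk⟩
    have hmem : (⟨r⁻¹, hrS'⟩ : S) ∈ commutator S := by
      have h2 : r⁻¹ ∈ (commutator S).map S.subtype := by
        rw [Subgroup.map_subtype_commutator]
        exact Subgroup.inv_mem _ hr
      obtain ⟨y, hy, hy'⟩ := h2
      have h3 : (⟨r⁻¹, hrS'⟩ : S) = y := Subtype.ext hy'.symm
      rw [h3]
      exact hy
    have hcard : Nat.card ↥⁅S, S⁆ = Nat.card (commutator S) := by
      rw [← Subgroup.map_subtype_commutator S]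
      exact (Nat.card_congr ((commutator S).equivMapOfInjective S.subtype
        S.subtype_injective).toEquiv).symm
    have hsum : ∑ κ ∈ irrF S with HasDefect ℓ κ (padicValNat ℓ (Nat.card S)),
        κ 1 * ext0 κ r⁻¹ = ((irrF S).filter fun κ => κ 1 = 1).card := by
      rw [Finset.sum_congr (Finset.filter_congr (fun κ hκ =>
        EDT.defect_iff (A.subgroupOf S) hZ hp' (mem_irrF.mp hκ)))
        (g := fun _ => (1 : ℂ)), Finset.sum_const, nsmul_eq_mul, mul_one]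
      intro κ hκ
      rw [Finset.mem_filter, mem_irrF] at hκ
      obtain ⟨lam, hlam⟩ := DPC.EXTAR.exists_lin hκ.1 hκ.2
      rw [hκ.2, one_mul, ext0_of_mem _ hrS', ← hlam,
        MonoidHom.mem_ker.mp (Abelianization.commutator_subset_ker lam hmem), Units.val_one]
    have hc1 := EDT.card_lin_irr S
    have hS0 : (Nat.card S : ℂ) ≠ 0 := natCard_ne_zero
    have hC0 : (Nat.card (commutator S) : ℂ) ≠ 0 := by
      have h2 : Nat.card (commutator S) ≠ 0 := Nat.card_pos.ne'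
      exact_mod_cast h2
    rw [ed, hsum, hcard, div_eq_div_iff hS0 hC0, one_mul]
    exact hc1
  · rw [if_neg hr]
    by_contra h
    exact hr (h1 W ℓ S _ r h)

end Pool.Agent.DPF


end

section

/-!
# Dade's conjecture: the relations imply that the sum over the chains vanishes
-/

namespace Pool.Agent.DPF

open Pool.Agent.DP Pool.Agent.DPC Pool.Agent.DPM Pool.Agent.DPN Pool.Agent.Lib_helper13
  Representation
open Pool.Agent.Lib_helper13.Dade (pCore DadeHolds dadeSum)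

namespace T2B

/-- A sum over a finite set of pairs. -/
theorem sum_sig {R α : Type} [AddCommMonoid R] {β : α → Type} (A : Finset α)
    (B : ∀ a, Finset (β a)) (f : ∀ a, β a → R) :
    ∑ i : ↥(A.sigma B), f i.1.1 i.1.2 = ∑ a ∈ A, ∑ b ∈ B a, f a b := by
  rw [Finset.sum_coe_sort (A.sigma B) (fun x => f x.1 x.2), Finset.sum_sigma]

/-- A sum over the pairs with a property. -/
theorem sum_sig_filter {R α : Type} [AddCommMonoid R] {β : α → Type} (A : Finset α)
    (B : ∀ a, Finset (β a)) (q : ∀ a, β a → Prop) [∀ a b, Decidable (q a b)]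
    (f : ∀ a, β a → R) :
    ∑ i : ↥(A.sigma B) with q i.1.1 i.1.2, f i.1.1 i.1.2 =
      ∑ a ∈ A, ∑ b ∈ B a with q a b, f a b := by
  rw [Finset.sum_filter, sum_sig A B (fun a b => if q a b then f a b else 0)]
  exact Finset.sum_congr rfl fun a _ => (Finset.sum_filter _ _).symm

/-- The Moebius sum with the defect of a character. -/
theorem PSM_eq {W H A : Type} [Group W] [Fintype W] [Group H] [Fintype H] [Group A] [Fintype A]
    (ℓ : ℕ) (π : W →* H) (m : Subgroup H → ℚ) (μ : π.ker →* ℂˣ) (θ : A → ℂ) {a : ℕ}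
    (ha : HasDefect ℓ θ a) (n : ℕ) :
    PSM ℓ π m μ a n = ∑ V, m V * ((Nat.card V : ℚ) *
      Nat.card {η : ↥(V.comap π) → ℂ // IsIrr η ∧ OvL π.ker μ _ η ∧
        ∃ e a, HasDefect ℓ η e ∧ HasDefect ℓ θ a ∧ e + a = n}) := by
  unfold PSM
  refine Finset.sum_congr rfl fun V _ => ?_
  have h : Nat.card {η : ↥(V.comap π) → ℂ // IsIrr η ∧ OvL π.ker μ _ η ∧
      ∃ e, HasDefect ℓ η e ∧ e + a = n} =
      Nat.card {η : ↥(V.comap π) → ℂ // IsIrr η ∧ OvL π.ker μ _ η ∧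
        ∃ e a, HasDefect ℓ η e ∧ HasDefect ℓ θ a ∧ e + a = n} := by
    refine Nat.card_congr (Equiv.subtypeEquivRight fun η => ?_)
    refine and_congr_right fun _ => and_congr_right fun _ => ?_
    constructor
    · rintro ⟨e, he, hn⟩
      exact ⟨e, a, he, ha, hn⟩
    · rintro ⟨e, a', he, ha', hn⟩
      exact ⟨e, he, by rw [HasDefect.unique ha ha']; exact hn⟩
  rw [h]

end T2B

open Classical in
theorem T2B_thm (h1 : Stmt_PSZ) (h2 : Stmt_PS3) (h3 : Stmt_EXPU) (h4 : Stmt_T2D) : Stmt_T2B := by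
  intro L K H W _ _ _ _ _ _ _ _ 𝔐 ℓ _ hM hℓ π hπ hc μ M _ p hp hpM P hP hcore hQ ω hpos πW hπW
    ν hnum hT2 d
  rw [h1 L K H 𝔐 ℓ hM hℓ π hπ hc μ hcore hQ M p hp hpM P hP ω hpos d]
  obtain ⟨m, hm⟩ := (MOBX_thm H).1
  have hm1 : m ⊤ = 1 := ((MOBX_thm H).2 m hm).1
  have hL : ∑ V, m V * PHU 𝔐 ℓ d π μ M (V.comap p) ω = PHU 𝔐 ℓ d π μ M ⊤ ω := by
    rw [Finset.sum_eq_single (⊤ : Subgroup H)]
    · rw [hm1, one_mul, Subgroup.comap_top]
    · intro V _ hV
      have hV' : V.comap p ≠ ⊤ := by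
        intro h
        apply hV
        apply Subgroup.comap_injective hp
        rw [h, Subgroup.comap_top]
      have hlt : Nat.card ↥(V.comap p) < Nat.card K :=
        lt_of_le_of_ne (Subgroup.card_le_card_group _)
          (fun h => hV' (Subgroup.eq_top_of_card_eq _ h))
      rw [h2 L K H 𝔐 ℓ hM hℓ π hπ hc μ M p hp hpM P hP ω hpos V (hQ _ hlt) d, mul_zero]
    · intro h
      exact absurd (Finset.mem_univ _) h
  rw [← hL, h3 L K H 𝔐 ℓ π hπ hc μ M p hp hpM ω d m hm]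
  have hdd : ∀ (τ : Finset (Subgroup M)) (θ : ↥(SL π M τ M) → ℂ), ∃ a : ℕ,
      PrU 𝔐 π μ p M ω τ θ → HasDefect ℓ θ a := by
    intro τ θ
    by_cases h : PrU 𝔐 π μ p M ω τ θ
    · obtain ⟨a, ha⟩ := h.irr.exists_defect (ℓ := ℓ)
      exact ⟨a, fun _ => ha⟩
    · exact ⟨0, fun h' => absurd h' h⟩
  choose dd hdd using hdd
  let S : Finset (Σ τ : Finset (Subgroup M), (↥(SL π M τ M) → ℂ)) :=
    (Ch ℓ (⊥ : Subgroup M)).sigma
      (fun τ => (irrF (SL π M τ M)).filter (fun θ => PrU 𝔐 π μ p M ω τ θ))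
  have hS : ∀ i : ↥S, PrU 𝔐 π μ p M ω i.1.1 i.1.2 := by
    intro i
    have := i.2
    rw [Finset.mem_sigma] at this
    exact (Finset.mem_filter.mp this.2).2
  have key := h4 W H ↥S ℓ πW hπW P hP
    (fun i => (-1 : ℚ) ^ i.1.1.card * (Nat.card ↥(M ⊓ stb (mapCh M.subtype i.1.1)) : ℚ))
    (fun i => dd i.1.1 i.1.2) (fun i => ν i.1.1 i.1.2)
    (fun i => (hnum i.1.1 i.1.2 (hS i)).inv) ?_ m hm (d + padicValNat ℓ (Nat.card πW.ker))
  · rw [T2B.sum_sig (Ch ℓ (⊥ : Subgroup M))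
      (fun τ => (irrF (SL π M τ M)).filter (fun θ => PrU 𝔐 π μ p M ω τ θ))
      (fun τ θ => (-1 : ℚ) ^ τ.card * (Nat.card ↥(M ⊓ stb (mapCh M.subtype τ)) : ℚ) *
        PSM ℓ πW m (ν τ θ) (dd τ θ) (d + padicValNat ℓ (Nat.card πW.ker)))] at key
    rw [← key]
    refine Finset.sum_congr rfl fun τ _ => ?_
    rw [Finset.mul_sum]
    refine Finset.sum_congr rfl fun θ hθ => ?_
    have hPr : PrU 𝔐 π μ p M ω τ θ := (Finset.mem_filter.mp hθ).2
    rw [T2B.PSM_eq ℓ πW m (ν τ θ) θ (hdd τ θ hPr), mul_assoc]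
    refine congrArg _ (congrArg _ (Finset.sum_congr rfl fun V _ => ?_))
    rw [(hnum τ θ hPr).num V d]
  · intro a ha n
    have h5 := hT2 a ha n
    rw [T2B.sum_sig_filter (Ch ℓ (⊥ : Subgroup M))
      (fun τ => (irrF (SL π M τ M)).filter (fun θ => PrU 𝔐 π μ p M ω τ θ))
      (fun τ θ => dd τ θ = n)
      (fun τ θ => (((-1 : ℚ) ^ τ.card * (Nat.card ↥(M ⊓ stb (mapCh M.subtype τ)) : ℚ) : ℚ) : ℂ) *
        ((ν τ θ a : ℂˣ) : ℂ))]
    rw [← h5]
    refine Finset.sum_congr rfl fun τ _ => ?_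
    rw [Finset.mul_sum, Finset.filter_filter]
    have h6 : (irrF (SL π M τ M)).filter (fun θ => PrU 𝔐 π μ p M ω τ θ ∧ dd τ θ = n) =
        (irrF (SL π M τ M)).filter (fun θ => PrU 𝔐 π μ p M ω τ θ ∧ HasDefect ℓ θ n) := by
      refine Finset.filter_congr fun θ _ => and_congr_right fun hPr => ?_
      constructor
      · rintro rfl
        exact hdd τ θ hPr
      · exact fun h => HasDefect.unique (hdd τ θ hPr) h
    rw [h6]
    refine Finset.sum_congr rfl fun θ _ => ?_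
    push_cast
    ring

end Pool.Agent.DPF


end

section

/-!
# T2F: the twisted relations imply the relations between the linear characters
-/

namespace Pool.Agent.DPF

namespace T2F

/-- A product of two finite sequences which vanishes, where the second one has a last
nonzero term: the first one vanishes. -/
theorem seq_zero {ι : Type} [Fintype ι] (c : ι → ℂ) (d : ι → ℕ) (G : ℕ → ℂ) (e₀ : ℕ)
    (hG : ∀ e, e₀ < e → G e = 0) (hG0 : G e₀ ≠ 0)
    (h : ∀ n : ℕ, ∑ i with d i ≤ n, c i * G (n - d i) = 0) (n : ℕ) :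
    ∑ i with d i = n, c i = 0 := by
  classical
  by_contra hn
  have hne : ∀ j : ℕ, ∑ i with d i = j, c i ≠ 0 →
      j ∈ ((Finset.univ.image d).filter (fun j => ∑ i with d i = j, c i ≠ 0)) := by
    intro j hj
    rw [Finset.mem_filter]
    refine ⟨?_, hj⟩
    by_contra hjj
    apply hj
    apply Finset.sum_eq_zero
    intro i hi
    exact absurd (Finset.mem_image_of_mem d (Finset.mem_univ i))
      (by rw [(Finset.mem_filter.mp hi).2]; exact hjj)
  obtain ⟨M, hM, hmax⟩ := Finset.exists_max_image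
    ((Finset.univ.image d).filter (fun j => ∑ i with d i = j, c i ≠ 0)) (fun j => j)
    ⟨n, hne n hn⟩
  have hM0 : ∑ i with d i = M, c i ≠ 0 := (Finset.mem_filter.mp hM).2
  have hbig : ∀ j, M < j → ∑ i with d i = j, c i = 0 := by
    intro j hj
    by_contra hjj
    exact absurd (hmax j (hne j hjj)) (not_le.mpr hj)
  have key := h (M + e₀)
  have hmaps : ∀ i ∈ Finset.univ.filter (fun i => d i ≤ M + e₀),
      d i ∈ Finset.range (M + e₀ + 1) := by
    intro i hi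
    exact Finset.mem_range.mpr (Nat.lt_succ_of_le (Finset.mem_filter.mp hi).2)
  rw [← Finset.sum_fiberwise_of_maps_to hmaps] at key
  have hterm : ∀ j ∈ Finset.range (M + e₀ + 1),
      ∑ i ∈ Finset.univ.filter (fun i => d i ≤ M + e₀) with d i = j, c i * G (M + e₀ - d i) =
        (∑ i with d i = j, c i) * G (M + e₀ - j) := by
    intro j hj
    have hj' : j ≤ M + e₀ := Nat.le_of_lt_succ (Finset.mem_range.mp hj)
    rw [Finset.filter_filter, Finset.sum_mul]
    apply Finset.sum_congr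
    · ext i
      simp only [Finset.mem_filter, Finset.mem_univ, true_and]
      constructor
      · exact fun hi => hi.2
      · intro hi
        exact ⟨by rw [hi]; exact hj', hi⟩
    · intro i hi
      rw [(Finset.mem_filter.mp hi).2]
  rw [Finset.sum_congr rfl hterm, Finset.sum_eq_single M] at key
  · rw [Nat.add_sub_cancel_left] at key
    exact (mul_ne_zero hM0 hG0) key
  · intro j hj hjM
    rcases lt_or_gt_of_ne hjM with hlt | hgt
    · rw [hG (M + e₀ - j) (by omega), mul_zero]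
    · rw [hbig j hgt, zero_mul]
  · intro hM'
    exact absurd (Finset.mem_range.mpr (by omega)) hM'

end T2F

theorem T2F_thm (h1 : Stmt_FOX) (h2 : Stmt_TOPC) : Stmt_T2F := by
  intro W H ι _ _ _ _ _ ℓ _ π hπ hz P hP s d ν m hm h a ha n
  obtain ⟨hG, hG0⟩ := h2 W H ℓ π hπ hz P hP m hm
  exact T2F.seq_zero (fun i => (s i : ℂ) * ((ν i a : ℂˣ) : ℂ)) d
    (fun e => PHT ℓ π m e a) (padicValNat ℓ (Nat.card W)) (fun e he => hG e he a) (hG0 a ha)
    (fun k => h1 W H ι ℓ π hz s d ν m h a k) n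

end Pool.Agent.DPF


end

section

/-!
# T2R: the twisted relations
-/

namespace Pool.Agent.DPF

open Pool.Agent.DP Pool.Agent.DPC Pool.Agent.DPM Pool.Agent.DPN Pool.Agent.Lib_helper13
  Representation
open Pool.Agent.Lib_helper13.Dade (pCore DadeHolds dadeSum)

namespace T2R

theorem HQ_mono {ℓ n m : ℕ} (h : HQ ℓ n) (hm : m ≤ n) : HQ ℓ m := by
  intro Y _ _ h1 h2
  exact h Y h1 (h2.trans hm)

end T2R

open Classical in
theorem T2R_thm (h1 : Stmt_PS3) (h2 : Stmt_EXPU) (h3 : Stmt_FBA) (h4 : Stmt_FBB)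
    (h5 : Stmt_FBC) : Stmt_T2R := by
  intro L K H W _ _ _ _ _ _ _ _ 𝔐 ℓ _ hmax hl π hπ hc μ M _ p hp hpM P hP hQ ω hpos πW hW hWc ν
    hE m hm ν' n
  obtain ⟨s1, s2, s3⟩ := h3 L K H W 𝔐 ℓ hmax hl π hπ hc μ M p hp hpM ω πW hW hWc ν'
  have s4 := s3 hpos
  have e0 : ∀ V : Subgroup H,
      PHU 𝔐 ℓ n (piY π p πW) (muY π p πW μ ν') M (V.comap p) (omY 𝔐 π p πW ν' ω) = 0 := by
    intro V
    refine h1 _ K H 𝔐 ℓ hmax hl (piY π p πW) s1 s2 (muY π p πW μ ν') M p hp hpM P hP _ s4 V ?_ n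
    exact T2R.HQ_mono hQ (Nat.card_le_card_of_injective _ (Subgroup.subtype_injective _))
  have e1 := h2 _ K H 𝔐 ℓ (piY π p πW) s1 s2 (muY π p πW μ ν') M p hp hpM
    (omY 𝔐 π p πW ν' ω) n m hm
  have e2 : ∑ V, m V * PHU 𝔐 ℓ n (piY π p πW) (muY π p πW μ ν') M (V.comap p)
      (omY 𝔐 π p πW ν' ω) = 0 := by
    apply Finset.sum_eq_zero
    intro V _
    rw [e0 V, mul_zero]
  rw [e2] at e1
  rw [e1]
  apply Finset.sum_congr rfl
  intro τ _
  congr 1
  rw [h4 L K H W 𝔐 ℓ hmax hl π hπ hc μ M p hp hpM ω πW hW hWc ν' τ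
    (fun θ => (Nat.card ↥(M ⊓ stb (mapCh M.subtype τ)) : ℚ) *
            ∑ V : Subgroup H, m V * ((Nat.card V : ℚ) *
              Nat.card {ψ : ↥(SL (piY π p πW) M τ (V.comap p)) → ℂ // IsIrr ψ ∧
                ip (fun a : ↥(SL (piY π p πW) M τ M) => ext0 ψ (a : fpr (p.comp π) πW)) θ ≠ 0 ∧
                HasDefect ℓ ψ n}))]
  apply Finset.sum_congr rfl
  intro θ hθ
  rw [Finset.mem_filter] at hθ
  congr 1
  apply Finset.sum_congr rfl
  intro V _
  rw [h5 L K H W 𝔐 ℓ hmax hl π hπ hc μ M p hp hpM ω πW hW hWc (ν τ θ) ν' τ θ hθ.2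
    (hE τ θ hθ.2) V n]

end Pool.Agent.DPF


end

section

/-!
# Dade's conjecture: a common central extension for the fixed pairs (COV)
-/

namespace Pool.Agent.DPF

open Pool.Agent.DP Pool.Agent.DPC Pool.Agent.DPM Pool.Agent.DPN Pool.Agent.Lib_helper13
  Representation

namespace COV

variable {L K H : Type} [Group L] [Group K] [Group H]

theorem mem_SL {π : L →* K} {M : Subgroup K} {τ : Finset (Subgroup M)} {S : Subgroup K} {l : L} :
    l ∈ SL π M τ S ↔ π l ∈ S ∧ π l ∈ stb (mapCh M.subtype τ) := by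
  rw [SL, Subgroup.mem_comap, Subgroup.mem_inf]

theorem conj_mem (π : L →* K) (M : Subgroup K) [M.Normal] (τ : Finset (Subgroup M)) {t a : L}
    (ht : t ∈ SL π M τ ⊤) (ha : a ∈ SL π M τ M) : t * a * t⁻¹ ∈ SL π M τ M := by
  rw [mem_SL] at ht ha ⊢
  rw [map_mul, map_mul, map_inv]
  refine ⟨Subgroup.Normal.conj_mem inferInstance _ ha.1 _, ?_⟩
  exact mul_mem (mul_mem ht.2 ha.2) (inv_mem ht.2)

/-- The conjugation. -/
noncomputable def cj (π : L →* K) (M : Subgroup K) [M.Normal] (τ : Finset (Subgroup M)) :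
    ↥(SL π M τ ⊤) →* MulAut ↥(SL π M τ M) where
  toFun t :=
    { toFun := fun a => ⟨(t : L) * a * (t : L)⁻¹, conj_mem π M τ t.2 a.2⟩
      invFun := fun a => ⟨(t : L)⁻¹ * a * (t : L), by
        have h := conj_mem π M τ (inv_mem t.2) a.2
        rwa [inv_inv] at h⟩
      left_inv := fun a => by
        apply Subtype.ext
        change (t : L)⁻¹ * ((t : L) * a * (t : L)⁻¹) * (t : L) = a
        group
      right_inv := fun a => by
        apply Subtype.ext
        change (t : L) * ((t : L)⁻¹ * a * (t : L)) * (t : L)⁻¹ = a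
        group
      map_mul' := fun a b => by
        apply Subtype.ext
        change (t : L) * (a * b : L) * (t : L)⁻¹ =
          ((t : L) * a * (t : L)⁻¹) * ((t : L) * b * (t : L)⁻¹)
        group }
  map_one' := by
    ext a
    change ((1 : ↥(SL π M τ ⊤)) : L) * a * ((1 : ↥(SL π M τ ⊤)) : L)⁻¹ = a
    rw [Subgroup.coe_one]
    group
  map_mul' s t := by
    ext a
    change ((s * t : ↥(SL π M τ ⊤)) : L) * a * ((s * t : ↥(SL π M τ ⊤)) : L)⁻¹ =
      (s : L) * ((t : L) * a * (t : L)⁻¹) * (s : L)⁻¹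
    rw [Subgroup.coe_mul]
    group

theorem cj_coe (π : L →* K) (M : Subgroup K) [M.Normal] (τ : Finset (Subgroup M))
    (t : ↥(SL π M τ ⊤)) (a : ↥(SL π M τ M)) :
    ((cj π M τ t a : ↥(SL π M τ M)) : L) = (t : L) * a * (t : L)⁻¹ := rfl

theorem clg (π : L →* K) (M : Subgroup K) [M.Normal] (p : K →* H)
    (hpM : ∀ k, p k = 1 ↔ k ∈ M) (τ : Finset (Subgroup M)) :
    ClG (iSL π M τ) (cj π M τ) (pSL π p M τ) where
  inj := Subgroup.inclusion_injective _
  act y a := by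
    apply Subtype.ext
    rfl
  ker y := by
    constructor
    · intro h
      have h1 : π (y : L) ∈ M := (hpM _).mp h
      have h2 : (y : L) ∈ SL π M τ M := mem_SL.mpr ⟨h1, (mem_SL.mp y.2).2⟩
      exact ⟨⟨(y : L), h2⟩, Subtype.ext rfl⟩
    · rintro ⟨a, rfl⟩
      have h1 : π (a : L) ∈ M := (mem_SL.mp a.2).1
      exact (hpM _).mpr h1

end COV

theorem COV_thm (h1 : Stmt_COVG) : Stmt_COV := by
  classical
  intro L K H _ _ _ _ _ _ 𝔐 π hπ μ M _ p hp hpM ω
  let ι : Type := {x : (Σ τ : Finset (Subgroup M), {θ : ↥(SL π M τ M) → ℂ // IsIrr θ}) //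
    PrU 𝔐 π μ p M ω x.1 x.2.1}
  have hfin : Finite ι := by
    have : ∀ τ : Finset (Subgroup M), Finite {θ : ↥(SL π M τ M) → ℂ // IsIrr θ} :=
      fun τ => inferInstance
    have : Finite (Σ τ : Finset (Subgroup M), {θ : ↥(SL π M τ M) → ℂ // IsIrr θ}) :=
      inferInstance
    exact Subtype.finite
  obtain ⟨W, gW, fW, πW, hs, hc, hx⟩ := h1 ι H (fun x => ↥(SL π M x.1.1 M))
    (fun x => ↥(SL π M x.1.1 ⊤)) (fun x => iSL π M x.1.1) (fun x => COV.cj π M x.1.1)
    (fun x => pSL π p M x.1.1) (fun x => x.1.2.1) (fun x => COV.clg π M p hpM x.1.1)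
    (fun x h => by
      obtain ⟨k, hk, hkh⟩ := x.2.sj h
      obtain ⟨l, hl⟩ := hπ k
      refine ⟨⟨l, COV.mem_SL.mpr ⟨Subgroup.mem_top _, ?_⟩⟩, ?_⟩
      · rw [hl]
        exact hk
      · change p (π l) = h
        rw [hl, hkh])
    (fun x => x.1.2.2)
    (fun x t a => x.2.iv t t.2 a (COV.cj π M x.1.1 t a) (COV.cj_coe π M x.1.1 t a))
  choose ν hν using hx
  refine ⟨W, gW, fW, πW, fun τ θ => if h : PrU 𝔐 π μ p M ω τ θ then ν ⟨⟨τ, ⟨θ, h.irr⟩⟩, h⟩ else 1,
    hs, hc, ?_⟩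
  intro τ θ h
  have h2 := hν ⟨⟨τ, ⟨θ, h.irr⟩⟩, h⟩
  simp only [dif_pos h]
  exact h2

end Pool.Agent.DPF


end

section

/-!
# COVG: a common central extension for a finite family
-/

set_option autoImplicit false

namespace Pool.Agent.DPF

open Pool.Agent.DP Pool.Agent.DPC Pool.Agent.DPM Pool.Agent.DPN Pool.Agent.Lib_helper13

namespace COVG

variable {ι H : Type} [Group H] {L : ι → Type} [∀ x, Group (L x)]

/-- The values in the kernel. -/
theorem F_mem {U : ∀ x, Subgroup (L x)} {π : ∀ x, L x →* H} (hk : ∀ x l, π x l = 1 ↔ l ∈ U x)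
    (x : ι) (z : (WFP.P π).ker) : WFP.F π x (z : WFP.S π) ∈ U x := by
  rw [← hk, ← WFP.P_F]
  exact z.2

/-- The linear character of the kernel. -/
noncomputable def nu {U : ∀ x, Subgroup (L x)} {π : ∀ x, L x →* H}
    (hk : ∀ x l, π x l = 1 ↔ l ∈ U x) (μ : ∀ x, U x →* ℂˣ) (x : ι) : (WFP.P π).ker →* ℂˣ :=
  (μ x).comp (((WFP.F π x).comp (WFP.P π).ker.subtype).codRestrict (U x)
    (fun z => F_mem hk x z))

theorem nu_apply {U : ∀ x, Subgroup (L x)} {π : ∀ x, L x →* H}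
    (hk : ∀ x l, π x l = 1 ↔ l ∈ U x) (μ : ∀ x, U x →* ℂˣ) (x : ι) (z : (WFP.P π).ker) :
    nu hk μ x z = μ x ⟨WFP.F π x (z : WFP.S π), F_mem hk x z⟩ := rfl

end COVG

open _root_.Pool.Agent.DPF.COVG

theorem COVG_thm : Stmt_COVG := by
  intro ι H _ _ _ A T _ _ _ _ i c p θ hC hp hθ hinv
  choose Γ L gΓ fΓ gL fL e q r E U μ π h using fun x =>
    TWC_thm (A x) (T x) H (i x) (c x) (p x) (hC x) (hp x) (θ x) (hθ x) (hinv x)
  have : Finite (WFP.S π) := Subtype.finite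
  have hk : ∀ x l, π x l = 1 ↔ l ∈ U x := fun x => (h x).πk
  have hcc : (WFP.P π).ker ≤ Subgroup.center (WFP.S π) := by
    intro w hw
    rw [Subgroup.mem_center_iff]
    intro v
    apply WFP.ext'
    · rw [map_mul, map_mul, MonoidHom.mem_ker.1 hw, mul_one, one_mul]
    · intro x
      rw [map_mul, map_mul]
      exact Subgroup.mem_center_iff.1 ((h x).Uc (F_mem hk x ⟨w, hw⟩)) _
  refine ⟨WFP.S π, inferInstance, Fintype.ofFinite _, WFP.P π,
    WFP.P_surj π (fun x => (h x).πs), hcc, ?_⟩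
  intro x
  refine ⟨nu hk μ x, fpr (q x) (WFP.F π x), inferInstance, Subtype.finite,
    (r x).comp (ffst (q x) (WFP.F π x)), fsnd (q x) (WFP.F π x),
    fun g => E x (ffst (q x) (WFP.F π x) g), ?_, ?_⟩
  · refine ⟨?_, ?_⟩
    · intro g
      have h1 : q x (ffst (q x) (WFP.F π x) g) = WFP.F π x (fsnd (q x) (WFP.F π x) g) := g.2
      rw [WFP.P_F π x, ← h1, (h x).πq]
      rfl
    · intro t w htw
      rw [WFP.P_F π x] at htw
      obtain ⟨γ, hγ1, hγ2⟩ := RDA.exists_g (hC x) (h x) htw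
      refine ⟨⟨(γ, w), hγ2⟩, ⟨hγ1, rfl⟩, ?_⟩
      rintro ⟨⟨γ', w'⟩, hg'⟩ ⟨h1, h2⟩
      have h3 : w' = w := h2
      have h4 : r x γ' = r x γ := h1.trans hγ1.symm
      have h5 : q x γ' = q x γ := by
        have h6 : q x γ' = WFP.F π x w' := hg'
        rw [h6, h3, hγ2]
      apply Subtype.ext
      apply Prod.ext
      · exact RDA.inj_g (hC x) (h x) h4 h5
      · exact h3
  · refine ⟨(h x).Ec.comp _, ?_, ?_⟩
    · intro a g h1 h2
      have h3 : r x (ffst (q x) (WFP.F π x) g) = r x (e x a) := by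
        rw [(h x).re]
        exact h1
      have h4 : q x (ffst (q x) (WFP.F π x) g) = WFP.F π x (fsnd (q x) (WFP.F π x) g) := g.2
      have h5 : q x (ffst (q x) (WFP.F π x) g) = q x (e x a) := by
        rw [h4, h2, map_one, ((h x).qk _).2 ⟨a, rfl⟩]
      have h6 := RDA.inj_g (hC x) (h x) h3 h5
      change E x (ffst (q x) (WFP.F π x) g) = θ x a
      rw [h6, (h x).Ee]
    · intro z g g' h1 h2
      rw [nu_apply]
      have h1' : r x (ffst (q x) (WFP.F π x) g') = r x (ffst (q x) (WFP.F π x) g) := h1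
      have h3 : q x (ffst (q x) (WFP.F π x) g) = WFP.F π x (fsnd (q x) (WFP.F π x) g) := g.2
      have h4 : q x (ffst (q x) (WFP.F π x) g') = WFP.F π x (fsnd (q x) (WFP.F π x) g') := g'.2
      set γ := ffst (q x) (WFP.F π x) g with hγ
      set γ' := ffst (q x) (WFP.F π x) g' with hγ'
      have h5 : q x (γ' * γ⁻¹) = WFP.F π x (z : WFP.S π) := by
        rw [map_mul, map_inv, h4, h3, h2, map_mul, mul_inv_cancel_right]
      have h6 : r x (γ' * γ⁻¹) = 1 := by
        rw [map_mul, map_inv, h1', mul_inv_cancel]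
      have h7 : q x (γ' * γ⁻¹) ∈ U x := by
        rw [h5]
        exact F_mem hk x z
      have h8 := (h x).El (γ' * γ⁻¹) γ h7 h6
      rw [inv_mul_cancel_right] at h8
      have h9 : (⟨q x (γ' * γ⁻¹), h7⟩ : U x) = ⟨WFP.F π x (z : WFP.S π), F_mem hk x z⟩ :=
        Subtype.ext h5
      rw [h9] at h8
      exact h8

end Pool.Agent.DPF


end

section

/-!
# CQI: the central function of an inflated character
-/

set_option autoImplicit false
set_option linter.unusedSectionVars false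

namespace Pool.Agent.DPF

open Pool.Agent.DP Pool.Agent.DPC Pool.Agent.DPM Pool.Agent.DPN Pool.Agent.Lib_helper13
  Representation

namespace CQI

variable {L L' : Type} [Group L] [Fintype L] [Group L'] [Fintype L'] (q : L →* L')

/-- The restriction of `q` to the preimage of `S`. -/
def rq (S : Subgroup L') : ↥(S.comap q) →* S where
  toFun x := ⟨q x, x.2⟩
  map_one' := by
    apply Subtype.ext
    simp
  map_mul' := by
    intro a b
    apply Subtype.ext
    simp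

theorem rq_surj (hq : Function.Surjective q) (S : Subgroup L') :
    Function.Surjective (rq q S) := by
  rintro ⟨y, hy⟩
  obtain ⟨x, rfl⟩ := hq y
  exact ⟨⟨x, hy⟩, rfl⟩

theorem conj_map {x g : L} (h : IsConj x g) : IsConj (q x) (q g) := by
  obtain ⟨c, rfl⟩ := isConj_iff.mp h
  exact isConj_iff.mpr ⟨q c, by simp⟩

theorem conj_mul_iff {z g h : L} (hz : z ∈ Subgroup.center L) :
    IsConj (z * (h * g * h⁻¹)) g ↔ IsConj (z * g) g := by
  have h1 : z * (h * g * h⁻¹) = h * (z * g) * h⁻¹ := by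
    have h2 : z * h = h * z := (Subgroup.mem_center_iff.mp hz h).symm
    calc z * (h * g * h⁻¹) = (z * h) * g * h⁻¹ := by group
      _ = h * (z * g) * h⁻¹ := by rw [h2]; group
  have h3 : IsConj (z * g) (z * (h * g * h⁻¹)) := isConj_iff.mpr ⟨h, h1.symm⟩
  exact ⟨fun h4 => h3.trans h4, fun h4 => h3.symm.trans h4⟩

open Classical in
theorem sum_fib (hq : Function.Surjective q) (hc : q.ker ≤ Subgroup.center L) (S : Subgroup L')
    (g : L) (y : S) :
    ∑ x ∈ Finset.univ.filter (fun x : ↥(S.comap q) => rq q S x = y), conjInd (x : L) g =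
      (Nat.card {z : q.ker // IsConj ((z : L) * g) g} : ℂ) * conjInd (y : L') (q g) := by
  by_cases hy : IsConj (y : L') (q g)
  · obtain ⟨c, hc1⟩ := isConj_iff.mp hy.symm
    obtain ⟨h, rfl⟩ := hq c
    have h1 : conjInd (y : L') (q g) = 1 := by
      rw [conjInd, if_pos hy]
    rw [h1, mul_one]
    have h2 : q (h * g * h⁻¹) = y := by
      rw [← hc1]
      simp
    have h5 : ∑ x ∈ Finset.univ.filter (fun x : ↥(S.comap q) => rq q S x = y),
        conjInd (x : L) g = (((Finset.univ.filter (fun x : ↥(S.comap q) => rq q S x = y)).filter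
          (fun x : ↥(S.comap q) => IsConj (x : L) g)).card : ℂ) := by
      rw [← Finset.sum_boole]
      refine Finset.sum_congr rfl fun x _ => ?_
      by_cases hx : IsConj (x : L) g
      · rw [conjInd, if_pos hx, if_pos hx]
      · rw [conjInd, if_neg hx, if_neg hx]
    rw [h5, Finset.filter_filter]
    congr 1
    rw [← Fintype.card_subtype, ← Nat.card_eq_fintype_card]
    have hf : ∀ z : L, z ∈ q.ker → q (z * (h * g * h⁻¹)) = y := by
      intro z hz
      rw [map_mul, h2, MonoidHom.mem_ker.mp hz, one_mul]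
    have hb : ∀ x : L, q x = y → x * (h * g * h⁻¹)⁻¹ ∈ q.ker := by
      intro x hx
      rw [MonoidHom.mem_ker, map_mul, map_inv, h2, hx, mul_inv_cancel]
    have hb' : ∀ x : L, q x = y → IsConj x g → IsConj (x * (h * g * h⁻¹)⁻¹ * g) g := by
      intro x hx hxg
      refine (conj_mul_iff (h := h) (hc (hb x hx))).mp ?_
      rw [inv_mul_cancel_right]
      exact hxg
    symm
    apply Nat.card_congr
    exact
      { toFun := fun z => ⟨⟨(z.1 : L) * (h * g * h⁻¹), by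
            change q ((z.1 : L) * (h * g * h⁻¹)) ∈ S
            rw [hf _ z.1.2]
            exact y.2⟩, Subtype.ext (hf _ z.1.2), (conj_mul_iff (hc z.1.2)).mpr z.2⟩
        invFun := fun x => ⟨⟨(x.1 : L) * (h * g * h⁻¹)⁻¹, hb _ (congrArg Subtype.val x.2.1)⟩,
          hb' _ (congrArg Subtype.val x.2.1) x.2.2⟩
        left_inv := fun z => Subtype.ext (Subtype.ext (mul_inv_cancel_right _ _))
        right_inv := fun x => Subtype.ext (Subtype.ext (inv_mul_cancel_right _ _)) }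
  · have h1 : conjInd (y : L') (q g) = 0 := by
      rw [conjInd, if_neg hy]
    rw [h1, mul_zero]
    apply Finset.sum_eq_zero
    intro x hx
    rw [Finset.mem_filter] at hx
    have h3 : q (x : L) = y := congrArg Subtype.val hx.2
    rw [conjInd, if_neg]
    intro h4
    exact hy (h3 ▸ conj_map q h4)

theorem wt_eq (hq : Function.Surjective q) (hc : q.ker ≤ Subgroup.center L) (S : Subgroup L')
    (η : S → ℂ) (g : L) :
    wt (fun x : ↥(S.comap q) => η (rq q S x)) (fun x => conjInd ((S.comap q).subtype x) g) =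
      (Nat.card {z : q.ker // IsConj ((z : L) * g) g} : ℂ) *
        wt η (fun y => conjInd (S.subtype y) (q g)) := by
  classical
  rw [wt, wt, map_one, ← mul_div_assoc, Finset.mul_sum]
  congr 1
  rw [← Finset.sum_fiberwise Finset.univ (rq q S)]
  refine Finset.sum_congr rfl fun y _ => ?_
  rw [← mul_assoc]
  have h1 := sum_fib q hq hc S g y
  have h2 : (Nat.card {z : q.ker // IsConj ((z : L) * g) g} : ℂ) *
      conjInd (S.subtype y) (q g) =
      ∑ x ∈ Finset.univ.filter (fun x : ↥(S.comap q) => rq q S x = y), conjInd (x : L) g :=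
    h1.symm
  rw [h2, Finset.sum_mul]
  refine Finset.sum_congr rfl fun x hx => ?_
  rw [Finset.mem_filter] at hx
  rw [hx.2]
  rfl

end CQI

/-- CQI: the central function of an inflated character. -/
theorem CQI_thm : Stmt_CQI := by
  intro L L' _ _ _ _ 𝔐 q hq hc S η hη
  refine ⟨QINF.irr_inf (CQI.rq q S) (CQI.rq_surj q hq S) hη, fun g => ?_⟩
  have h1 := CQI.wt_eq q hq hc S η g
  refine (congrArg (red 𝔐) h1).trans ?_
  rw [red_natCast_mul 𝔐 _ (isIntegral_wt_conj S.subtype hη (q g)), nsmul_eq_mul]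
  rfl

end Pool.Agent.DPF


end

section

namespace Pool.Agent.DPF

theorem all_COV : Stmt_COV := COV_thm COVG_thm
theorem all_NUM : Stmt_NUM := NUM_thm NUG_thm
theorem all_NUW : Stmt_NUW := NUW_thm all_NUM
theorem all_EXPU : Stmt_EXPU := EXPU_thm EXU_thm
theorem all_EDV : Stmt_EDV := EDV_thm FRZ_thm DGI_thm
theorem all_EDT : Stmt_EDT := EDT_thm EDC_thm
theorem all_T2D : Stmt_T2D := T2D_thm all_EDV EDL_thm EDC_thm MBX_thm
theorem all_TOPC : Stmt_TOPC := TOPC_thm all_EDV all_EDT MBX_thm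
theorem all_T2F : Stmt_T2F := T2F_thm FOX_thm all_TOPC
theorem all_FBC : Stmt_FBC := FBC_thm NUG_thm

theorem all_PS2 (h1 : Stmt_PS1) : Stmt_PS2 := PS2_thm h1 CQI_thm
theorem all_PS3 (h1 : Stmt_PS1) : Stmt_PS3 := PS3_thm (all_PS2 h1)
theorem all_T2A (h1 : Stmt_PS1) : Stmt_T2A :=
  T2A_thm (T2R_thm (all_PS3 h1) all_EXPU FBA_thm FBB_thm all_FBC) all_T2F
theorem all_T2B (h1 : Stmt_PS1) (h2 : Stmt_PSZ) : Stmt_T2B :=
  T2B_thm h2 (all_PS3 h1) all_EXPU all_T2D

end Pool.Agent.DPF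


end

section

/-!
# Dade's conjecture for the groups of a class: the relations imply that the sum over the chains
vanishes
-/

set_option autoImplicit false
set_option linter.unusedVariables false

namespace Pool.Agent.DPK

open Pool.Agent.DP Pool.Agent.DPC Pool.Agent.DPM Pool.Agent.DPN Pool.Agent.DPT Pool.Agent.DPF
open Pool.Agent.Lib_helper13
open Representation
open Pool.Agent.Lib_helper13.Dade (pCore DadeHolds dadeSum)

open Classical in
theorem T2Br_thm (Cl : ∀ (Y : Type) [Group Y], Prop) (hC : GC Cl) (h1 : Stmt_PSZr Cl)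
    (h2 : Stmt_PS3r Cl) (h3 : Stmt_EXPU) (h4 : Stmt_T2D) : Stmt_T2Br Cl := by
  intro L K H W _ _ _ _ _ _ _ _ 𝔐 ℓ _ hM hℓ π hπ hc μ M _ p hp hpM P hP hcore hCl hQ ω hpos πW
    hπW ν hnum hT2 d
  rw [h1 L K H 𝔐 ℓ hM hℓ π hπ hc μ hcore hCl hQ M p hp hpM P hP ω hpos d]
  obtain ⟨m, hm⟩ := (MOBX_thm H).1
  have hm1 : m ⊤ = 1 := ((MOBX_thm H).2 m hm).1
  have hL : ∑ V, m V * PHU 𝔐 ℓ d π μ M (V.comap p) ω = PHU 𝔐 ℓ d π μ M ⊤ ω := by
    rw [Finset.sum_eq_single (⊤ : Subgroup H)]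
    · rw [hm1, one_mul, Subgroup.comap_top]
    · intro V _ hV
      have hV' : V.comap p ≠ ⊤ := by
        intro h
        apply hV
        apply Subgroup.comap_injective hp
        rw [h, Subgroup.comap_top]
      have hlt : Nat.card ↥(V.comap p) < Nat.card K :=
        lt_of_le_of_ne (Subgroup.card_le_card_group _)
          (fun h => hV' (Subgroup.eq_top_of_card_eq _ h))
      rw [h2 L K H 𝔐 ℓ hM hℓ π hπ hc μ M p hp hpM P hP ω hpos V hCl (hQ _ hlt) d,
        mul_zero]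
    · intro h
      exact absurd (Finset.mem_univ _) h
  rw [← hL, h3 L K H 𝔐 ℓ π hπ hc μ M p hp hpM ω d m hm]
  have hdd : ∀ (τ : Finset (Subgroup M)) (θ : ↥(SL π M τ M) → ℂ), ∃ a : ℕ,
      PrU 𝔐 π μ p M ω τ θ → HasDefect ℓ θ a := by
    intro τ θ
    by_cases h : PrU 𝔐 π μ p M ω τ θ
    · obtain ⟨a, ha⟩ := h.irr.exists_defect (ℓ := ℓ)
      exact ⟨a, fun _ => ha⟩
    · exact ⟨0, fun h' => absurd h' h⟩
  choose dd hdd using hdd
  let S : Finset (Σ τ : Finset (Subgroup M), (↥(SL π M τ M) → ℂ)) :=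
    (Ch ℓ (⊥ : Subgroup M)).sigma
      (fun τ => (irrF (SL π M τ M)).filter (fun θ => PrU 𝔐 π μ p M ω τ θ))
  have hS : ∀ i : ↥S, PrU 𝔐 π μ p M ω i.1.1 i.1.2 := by
    intro i
    have := i.2
    rw [Finset.mem_sigma] at this
    exact (Finset.mem_filter.mp this.2).2
  have key := h4 W H ↥S ℓ πW hπW P hP
    (fun i => (-1 : ℚ) ^ i.1.1.card * (Nat.card ↥(M ⊓ stb (mapCh M.subtype i.1.1)) : ℚ))
    (fun i => dd i.1.1 i.1.2) (fun i => ν i.1.1 i.1.2)
    (fun i => (hnum i.1.1 i.1.2 (hS i)).inv) ?_ m hm (d + padicValNat ℓ (Nat.card πW.ker))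
  · rw [T2B.sum_sig (Ch ℓ (⊥ : Subgroup M))
      (fun τ => (irrF (SL π M τ M)).filter (fun θ => PrU 𝔐 π μ p M ω τ θ))
      (fun τ θ => (-1 : ℚ) ^ τ.card * (Nat.card ↥(M ⊓ stb (mapCh M.subtype τ)) : ℚ) *
        PSM ℓ πW m (ν τ θ) (dd τ θ) (d + padicValNat ℓ (Nat.card πW.ker)))] at key
    rw [← key]
    refine Finset.sum_congr rfl fun τ _ => ?_
    rw [Finset.mul_sum]
    refine Finset.sum_congr rfl fun θ hθ => ?_
    have hPr : PrU 𝔐 π μ p M ω τ θ := (Finset.mem_filter.mp hθ).2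
    rw [T2B.PSM_eq ℓ πW m (ν τ θ) θ (hdd τ θ hPr), mul_assoc]
    refine congrArg _ (congrArg _ (Finset.sum_congr rfl fun V _ => ?_))
    rw [(hnum τ θ hPr).num V d]
  · intro a ha n
    have h5 := hT2 a ha n
    rw [T2B.sum_sig_filter (Ch ℓ (⊥ : Subgroup M))
      (fun τ => (irrF (SL π M τ M)).filter (fun θ => PrU 𝔐 π μ p M ω τ θ))
      (fun τ θ => dd τ θ = n)
      (fun τ θ => (((-1 : ℚ) ^ τ.card * (Nat.card ↥(M ⊓ stb (mapCh M.subtype τ)) : ℚ) : ℚ) : ℂ) *
        ((ν τ θ a : ℂˣ) : ℂ))]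
    rw [← h5]
    refine Finset.sum_congr rfl fun τ _ => ?_
    rw [Finset.mul_sum, Finset.filter_filter]
    have h6 : (irrF (SL π M τ M)).filter (fun θ => PrU 𝔐 π μ p M ω τ θ ∧ dd τ θ = n) =
        (irrF (SL π M τ M)).filter (fun θ => PrU 𝔐 π μ p M ω τ θ ∧ HasDefect ℓ θ n) := by
      refine Finset.filter_congr fun θ _ => and_congr_right fun hPr => ?_
      constructor
      · rintro rfl
        exact hdd τ θ hPr
      · exact fun h => HasDefect.unique (hdd τ θ hPr) h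
    rw [h6]
    refine Finset.sum_congr rfl fun θ _ => ?_
    push_cast
    ring

end Pool.Agent.DPK


end

section

/-!
# Theorem V: the inner sum of an outer chain (module RINNV, adapted from RINNER)
-/

namespace Pool.Agent.DPV.RINNV

open Pool.Agent.DP Pool.Agent.Lib_helper13 Representation
open Pool.Agent.Lib_helper13.Dade (pCore DadeHolds dadeSum)
open Pool.Agent.DP.RINNER (tp_pgroup tp_inf tp_map_conj cN_le_stb)

theorem main (h1 : Stmt_RINAV) (h2 : Stmt_RINBV) : Stmt_RINNV := by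
  classical
  intro Ω G B C X K _ _ _ _ _ _ _ _ _ _ ℓ _ ι κ ρ hL e p φ hE Z hZn hZp hZe c hc hce
  by_cases hcore : pCore ℓ (cN e.range (tp Z c)) = ⊥
  swap
  · exact Or.inl hcore
  right
  have hQe : tp Z c ⊓ e.range = ⊥ := tp_inf Z e.range hZe c hc hce
  have hQp : IsPGroup ℓ (tp Z c) := tp_pgroup Z hZp c hc
  obtain ⟨O, iO, dO, π, u, hπ, hfib, hcard, hu, hcent⟩ :=
    h1 Ω G B C X K ℓ ι κ ρ hL e p φ hE (tp Z c) hQp hQe hcore
  obtain ⟨K', iK, fK, j, p', φ', hext, hj, hjr, hcN⟩ :=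
    h2 Ω G B C X K O ℓ ι κ ρ hL e p φ hE (tp Z c) hQe π u hπ hfib hu hcent (stb c)
      (fun y hy => tp_map_conj Z c hy) (cN_le_stb Z e.range c)
  refine ⟨O, K', iO, dO, iK, fK, π, u, j, p', φ', hext, hπ, hcard, hj, hjr, ?_⟩
  intro W
  have hmem : ∀ n : O → G, ((j n : stb c) : X) ∈ cN e.range (tp Z c) :=
    fun n => (hcN (j n)).mpr ⟨n, rfl⟩
  let f : (O → G) →* cN e.range (tp Z c) :=
    ((stb c).subtype.comp j).codRestrict (cN e.range (tp Z c)) hmem
  have hf : ∀ n, (f n : X) = ((j n : stb c) : X) := fun n => rfl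
  have hbij : Function.Bijective f := by
    constructor
    · intro x y hxy
      have h3 : (f x : X) = f y := congrArg Subtype.val hxy
      rw [hf, hf] at h3
      exact hext.cl.inj (Subtype.ext h3)
    · rintro ⟨y, hy⟩
      obtain ⟨n, hn⟩ := (hcN ⟨y, cN_le_stb Z e.range c hy⟩).mp hy
      refine ⟨n, Subtype.ext ?_⟩
      rw [hf, hn]
  obtain ⟨E, hEf⟩ : ∃ E : (O → G) ≃* cN e.range (tp Z c), ∀ n, E n = f n :=
    ⟨MulEquiv.ofBijective f hbij, fun n => rfl⟩
  have hcomp : (cN e.range (tp Z c)).subtype.comp E.toMonoidHom = (stb c).subtype.comp j := by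
    apply MonoidHom.ext
    intro n
    change ((E n : cN e.range (tp Z c)) : X) = ((j n : stb c) : X)
    rw [hEf, hf]
  unfold innerS
  have hbot : (⊥ : Subgroup (cN e.range (tp Z c))) =
      (⊥ : Subgroup (O → G)).map E.toMonoidHom := by
    rw [Subgroup.map_bot]
  rw [hbot, sum_Ch_equiv E ℓ ⊥]
  refine Finset.sum_congr rfl fun τ _ => ?_
  have h4 : stb c ⊓ stb (mapCh (cN e.range (tp Z c)).subtype (mapCh E.toMonoidHom τ)) =
      (YS j τ).map (stb c).subtype := by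
    rw [mapCh_comp, hcomp, ← mapCh_comp]
    have h5 := comap_stb_mapCh (i := (stb c).subtype) Subtype.val_injective (mapCh j τ)
    rw [YS, ← h5, Subgroup.map_comap_eq, Subgroup.range_subtype]
  rw [card_mapCh E.injective, h4]

end Pool.Agent.DPV.RINNV

namespace Pool.Agent.DPV

/-- RINNV: the inner sum of an outer chain. -/
theorem RINNV_thm (h1 : Stmt_RINAV) (h2 : Stmt_RINBV) : Stmt_RINNV := RINNV.main h1 h2

end Pool.Agent.DPV


end

section

/-!
# Dade's conjecture: counting the elements of orbits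
-/

namespace Pool.Agent.DPG

namespace CNO

open Finset

variable {G ι Ω : Type} [Group G] [Fintype G]

open Classical in
/-- The number of elements which map `i` to `i0`. -/
noncomputable def cn (a : G → ι → ι) (i i0 : ι) : ℕ := (univ.filter (fun g => a g i = i0)).card

lemma cn_eq {a : G → ι → ι} (a1 : ∀ i, a 1 i = i) (am : ∀ g h i, a (g * h) i = a g (a h i))
    {i i0 : ι} (h : cn a i i0 ≠ 0) : cn a i i0 = Nat.card {g // a g i = i} := by
  classical
  obtain ⟨g0, hg0⟩ : (univ.filter (fun g => a g i = i0)).Nonempty := by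
    rw [← Finset.card_ne_zero]
    intro h'
    apply h
    unfold cn
    rw [← h']
  have hg0' : a g0 i = i0 := by
    have := (Finset.mem_filter.1 hg0).2
    exact this
  have hi : a g0⁻¹ i0 = i := by
    rw [← hg0', ← am, inv_mul_cancel, a1]
  rw [Nat.card_eq_fintype_card, Fintype.card_subtype]
  unfold cn
  apply Finset.card_bij (fun g _ => g0⁻¹ * g)
  · intro g hg
    have hg' : a g i = i0 := (Finset.mem_filter.1 hg).2
    rw [Finset.mem_filter]
    refine ⟨Finset.mem_univ _, ?_⟩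
    rw [am, hg', hi]
  · intro g _ g' _ h'
    exact mul_left_cancel h'
  · intro g hg
    have hg' : a g i = i := (Finset.mem_filter.1 hg).2
    refine ⟨g0 * g, ?_, by group⟩
    rw [Finset.mem_filter]
    refine ⟨Finset.mem_univ _, ?_⟩
    rw [am, hg', hg0']

lemma sum_cn {a : G → ι → ι} (a1 : ∀ i, a 1 i = i) (am : ∀ g h i, a (g * h) i = a g (a h i))
    {D : Finset ι} (hD : ∀ g, ∀ i ∈ D, a g i ∈ D) {i0 : ι} (hi0 : i0 ∈ D) :
    ∑ i ∈ D, cn a i i0 = Fintype.card G := by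
  classical
  have h1 : ∀ i ∈ D, cn a i i0 = ∑ g : G, if a g i = i0 then 1 else 0 := by
    intro i _
    unfold cn
    rw [Finset.card_filter]
  rw [Finset.sum_congr rfl h1, Finset.sum_comm]
  have h2 : ∀ g : G, ∑ i ∈ D, (if a g i = i0 then 1 else 0) = 1 := by
    intro g
    rw [Finset.sum_eq_single (a g⁻¹ i0)]
    · rw [if_pos]
      rw [← am, mul_inv_cancel, a1]
    · intro i _ hne
      rw [if_neg]
      intro h
      apply hne
      rw [← h, ← am, inv_mul_cancel, a1]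
    · intro h
      exact absurd (hD g⁻¹ i0 hi0) h
  rw [Finset.sum_congr rfl (fun g _ => h2 g)]
  simp

lemma cn_pow {a : G → ι → ι} (a1 : ∀ i, a 1 i = i) (am : ∀ g h i, a (g * h) i = a g (a h i))
    {i i0 : ι} {s k : ℕ} (hs : s = Nat.card {g // a g i = i}) (hk : 1 ≤ k) :
    ((cn a i i0 : ℕ) : ℂ) ^ k / ((s : ℂ) ^ (k - 1)) = cn a i i0 := by
  by_cases h : cn a i i0 = 0
  · rw [h]
    simp [Nat.one_le_iff_ne_zero.1 hk]
  · have h1 := cn_eq a1 am h
    rw [← hs] at h1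
    have h2 : (s : ℂ) ≠ 0 := by
      rw [← h1]
      exact_mod_cast h
    obtain ⟨m, rfl⟩ : ∃ m, k = m + 1 := ⟨k - 1, by omega⟩
    rw [h1, Nat.add_sub_cancel, pow_succ]
    field_simp

omit [Group G] in
lemma sum_n [Fintype Ω] [DecidableEq Ω] {a : G → ι → ι} {i i0 : ι} (w : ℂ)
    (P : (Ω → G) → Prop) [DecidablePred P] (hP : ∀ n, P n ↔ ∀ o, a (n o) i = i0) :
    ∑ n : Ω → G, (if P n then w else 0) = (cn a i i0 : ℂ) ^ Fintype.card Ω * w := by
  classical
  rw [← Finset.sum_filter, Finset.sum_const, nsmul_eq_mul]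
  congr 1
  have h1 : (univ.filter P) = Fintype.piFinset (fun _ : Ω => univ.filter (fun g => a g i = i0)) := by
    ext n
    rw [Finset.mem_filter, Fintype.mem_piFinset]
    simp only [Finset.mem_univ, true_and, Finset.mem_filter]
    exact hP n
  rw [h1, Fintype.card_piFinset, Finset.prod_const, Finset.card_univ]
  unfold cn
  push_cast
  congr

end CNO

open _root_.Pool.Agent.DPG.CNO in
theorem CNO_thm : Stmt_CNO := by
  intro G ι γ Ω _ _ _ _ a b a1 am b1 bm D C Ψ hD hC hcov hb F hF s hs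
  classical
  have hN1 : 1 ≤ Fintype.card Ω := Fintype.card_pos
  have hG : (Fintype.card G : ℂ) ≠ 0 := by
    exact_mod_cast Fintype.card_ne_zero
  -- the weights
  have hW : ∀ c ∈ C, ∑ i ∈ D, ∑ n : Ω → G,
      (if b n (Ψ i) = c then (1 / ((Fintype.card G : ℂ) * (s i : ℂ) ^ (Fintype.card Ω - 1)))
        else 0) = 1 := by
    intro c hc
    obtain ⟨i0, hi0, n0, rfl⟩ := hcov c hc
    have h1 : ∀ i ∈ D, ∑ n : Ω → G,
        (if b n (Ψ i) = b n0 (Ψ i0) then
          (1 / ((Fintype.card G : ℂ) * (s i : ℂ) ^ (Fintype.card Ω - 1))) else 0) =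
        (cn a i i0 : ℂ) / (Fintype.card G : ℂ) := by
      intro i hi
      rw [← Equiv.sum_comp (Equiv.mulLeft n0)]
      rw [sum_n (a := a) (i := i) (i0 := i0)
        (1 / ((Fintype.card G : ℂ) * (s i : ℂ) ^ (Fintype.card Ω - 1)))
        (fun n => b (Equiv.mulLeft n0 n) (Ψ i) = b n0 (Ψ i0))]
      · have h2 := cn_pow (i0 := i0) a1 am (hs i hi) hN1
        rw [← h2, mul_one_div]
        rw [h2]
        rw [div_mul_eq_div_div_swap, h2]
      · intro n
        rw [← hb i hi i0 hi0 n, Equiv.coe_mulLeft, bm]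
        constructor
        · intro h
          have h3 := congrArg (b n0⁻¹) h
          rw [← bm, ← bm, ← bm, inv_mul_cancel, one_mul, b1] at h3
          exact h3
        · intro h
          rw [h]
    rw [Finset.sum_congr rfl h1, ← Finset.sum_div]
    have h4 := sum_cn a1 am hD hi0
    have h5 : (∑ i ∈ D, (cn a i i0 : ℂ)) = (Fintype.card G : ℂ) := by
      rw [← h4]
      push_cast
      rfl
    rw [h5, div_self hG]
  have hΨ : ∀ i ∈ D, Ψ i ∈ C := by
    intro i hi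
    have h := hC i hi 1
    rwa [b1] at h
  calc ∑ c ∈ C, F c = ∑ c ∈ C, (∑ i ∈ D, ∑ n : Ω → G,
      (if b n (Ψ i) = c then (1 / ((Fintype.card G : ℂ) * (s i : ℂ) ^ (Fintype.card Ω - 1)))
        else 0)) * F c := by
        apply Finset.sum_congr rfl
        intro c hc
        rw [hW c hc, one_mul]
    _ = ∑ i ∈ D, ∑ n : Ω → G, ∑ c ∈ C,
      (if b n (Ψ i) = c then (1 / ((Fintype.card G : ℂ) * (s i : ℂ) ^ (Fintype.card Ω - 1)))
        else 0) * F c := by
        simp_rw [Finset.sum_mul]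
        rw [Finset.sum_comm]
        apply Finset.sum_congr rfl
        intro i _
        rw [Finset.sum_comm]
    _ = ∑ i ∈ D, ∑ n : Ω → G,
      (1 / ((Fintype.card G : ℂ) * (s i : ℂ) ^ (Fintype.card Ω - 1))) * F (Ψ i) := by
        apply Finset.sum_congr rfl
        intro i hi
        apply Finset.sum_congr rfl
        intro n _
        rw [Finset.sum_eq_single (b n (Ψ i))]
        · rw [if_pos rfl, hF (Ψ i) (hΨ i hi) n]
        · intro c _ hne
          rw [if_neg (Ne.symm hne), zero_mul]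
        · intro h
          exact absurd (hC i hi n) h
    _ = ∑ i ∈ D, ((Nat.card G : ℂ) / (s i : ℂ)) ^ (Fintype.card Ω - 1) * F (Ψ i) := by
        apply Finset.sum_congr rfl
        intro i _
        rw [Finset.sum_const, nsmul_eq_mul, ← mul_assoc]
        congr 1
        rw [Finset.card_univ, Fintype.card_fun, Nat.card_eq_fintype_card]
        push_cast
        obtain ⟨m, hm⟩ : ∃ m, Fintype.card Ω = m + 1 := ⟨Fintype.card Ω - 1, by omega⟩
        rw [hm, Nat.add_sub_cancel, pow_succ, div_pow]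
        field_simp

end Pool.Agent.DPG


end

section

/-!
# TQA: the relations for the larger group
-/

set_option autoImplicit false

namespace Pool.Agent.DPG

open Pool.Agent.DP Pool.Agent.DPC Pool.Agent.DPM Pool.Agent.DPN Pool.Agent.DPF
  Pool.Agent.DPK Pool.Agent.Lib_helper13 Representation
open Pool.Agent.Lib_helper13.Dade (pCore DadeHolds dadeSum)

namespace TQA

/-- A function which vanishes outside `S` is the extension by zero of its restriction. -/
theorem ext0_restrict {G : Type} [Group G] (S : Subgroup G) (f : G → ℂ)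
    (hf : ∀ x, x ∉ S → f x = 0) : ext0 (fun x : S => f x) = f := by
  funext x
  by_cases hx : x ∈ S
  · rw [ext0_of_mem _ hx]
  · rw [ext0_of_not_mem _ hx, hf x hx]

/-- The extension `W` for the pairs of the chains of `M`. -/
theorem exists_cov (hBGA : Stmt_BGA) {L K H : Type} [Group L] [Fintype L] [Group K] [Fintype K]
    [Group H] [Fintype H] (𝔐 : Ideal (integralClosure ℤ ℂ)) (ℓ : ℕ) (π : L →* K)
    (hπ : Function.Surjective π) (μ : π.ker →* ℂˣ) (M : Subgroup K) [M.Normal] (p : K →* H)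
    (hp : Function.Surjective p) (hpM : ∀ k, p k = 1 ↔ k ∈ M)
    (ω : L → (integralClosure ℤ ℂ) ⧸ 𝔐) :
    ∃ (W : Type) (_ : Group W) (_ : Fintype W) (πW : W →* H)
      (ν : Subgroup K → (L → ℂ) → (πW.ker →* ℂˣ)), Function.Surjective πW ∧
      πW.ker ≤ Subgroup.center W ∧
      ∀ σ f, ChN ℓ M σ → BPs 𝔐 π μ M ω (stb σ) f →
        EDb π p M πW (stb σ) f (ν (stb σ) f) := by
  classical
  obtain ⟨W, _, _, πW, ν, hs, hc, hE⟩ := (COV_thm COVG_thm) L K H 𝔐 π hπ μ M p hp hpM ω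
  have key : ∀ (S : Subgroup K) (f : L → ℂ), ∃ ν' : πW.ker →* ℂˣ, ∀ σ, ChN ℓ M σ → stb σ = S →
      BPs 𝔐 π μ M ω S f → EDb π p M πW S f ν' := by
    intro S f
    by_cases h : ∃ σ, ChN ℓ M σ ∧ stb σ = S ∧ BPs 𝔐 π μ M ω S f
    · obtain ⟨σ, hσ, rfl, hf⟩ := h
      obtain ⟨τ, rfl⟩ : ∃ τ, mapCh M.subtype τ = σ := by
        apply exists_mapCh
        intro D hD
        rw [Subgroup.range_subtype]
        exact hσ.2 D hD
      let θ : ↥(SL π M τ M) → ℂ := fun x => f x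
      have hθ : ext0 θ = f := ext0_restrict _ f (fun x hx => hf.irr.2 x hx)
      have h1 := hBGA L K H W 𝔐 π hπ μ M p hp hpM ω τ θ
      have h2 : PrU 𝔐 π μ p M ω τ θ := by
        rw [h1.1, hθ]
        exact hf
      refine ⟨ν τ θ, fun _ _ _ _ => ?_⟩
      have h3 := (h1.2 πW hs (ν τ θ) h2).mp (hE τ θ h2)
      rw [hθ] at h3
      exact h3
    · refine ⟨1, fun σ hσ hS hf => ?_⟩
      exact absurd ⟨σ, hσ, hS, hf⟩ h
  choose ν' hν' using key
  exact ⟨W, inferInstance, inferInstance, πW, ν', hs, hc,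
    fun σ f hσ hf => hν' (stb σ) f σ hσ rfl hf⟩

/-- Extensions over a larger extension. -/
theorem ple (hPLE : Stmt_PLE) {L K H W W' : Type} [Group L] [Finite L] [Group K] [Group H]
    [Group W] [Finite W] [Group W'] [Finite W'] (π : L →* K) (p : K →* H) (M : Subgroup K)
    (πW : W →* H) (h : W' →* W) (πW' : W' →* H) (hh : ∀ w, πW (h w) = πW' w) (S : Subgroup K)
    (f : L → ℂ) (ν : πW.ker →* ℂˣ) (hE : EDb π p M πW S f ν) (ν' : πW'.ker →* ℂˣ)
    (hν : ∀ (z : πW'.ker) (hz : h z ∈ πW.ker), ν' z = ν ⟨h z, hz⟩) :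
    EDb π p M πW' S f ν' := by
  obtain rfl : πW.comp h = πW' := MonoidHom.ext hh
  exact hPLE L K H W W' π p M πW h S f ν hE ν' hν

/-- The product of the values at the coordinates. -/
theorem exists_xi {V W1 H1 Ω : Type} [Group V] [Group W1] [Group H1] [Fintype Ω]
    (πW1 : W1 →* H1) (ψ : V →* Gam (Equiv.Perm Ω) Ω W1) (μ0 : V →* ℂˣ)
    (hr : ∀ v, (ψ v).right = 1) (hl : ∀ v o, (ψ v).left o ∈ πW1.ker) (ν1 : πW1.ker →* ℂˣ) :
    ∃ ξ : V →* ℂˣ, ∀ v, ξ v = μ0 v * ∏ o, ν1 ⟨(ψ v).left o, hl v o⟩ := by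
  have hmul : ∀ (v v' : V) (o : Ω), (⟨(ψ (v * v')).left o, hl (v * v') o⟩ : πW1.ker) =
      ⟨(ψ v).left o, hl v o⟩ * ⟨(ψ v').left o, hl v' o⟩ := by
    intro v v' o
    apply Subtype.ext
    change (ψ (v * v')).left o = (ψ v).left o * (ψ v').left o
    rw [map_mul]
    change (ψ v).left o * (ψ v').left ((ψ v).right⁻¹ • o) = _
    rw [hr v, inv_one, one_smul]
  refine ⟨μ0 * MonoidHom.mk' (fun v => ∏ o, ν1 ⟨(ψ v).left o, hl v o⟩) ?_, fun v => rfl⟩
  intro v v'
  rw [← Finset.prod_mul_distrib]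
  refine Finset.prod_congr rfl fun o _ => ?_
  rw [hmul, map_mul]

/-- The elements above `1`. -/
theorem psi_ker {K K1 H H1 W W1 Ω : Type} [Group K] [Group K1] [Group H] [Group H1] [Group W]
    [Group W1] (φ : K →* Gam (Equiv.Perm Ω) Ω K1) (p : K →* H) (p1 : K1 →* H1) (πW : W →* H)
    (πW1 : W1 →* H1) (ψ : W →* Gam (Equiv.Perm Ω) Ω W1)
    (h : ∀ w k, πW w = p k → gmap Ω πW1 (ψ w) = gmap Ω p1 (φ k)) (w : W) (hw : πW w = 1) :
    (ψ w).right = 1 ∧ ∀ o, (ψ w).left o ∈ πW1.ker := by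
  have h1 := h w 1 (by rw [hw, map_one])
  rw [map_one, map_one] at h1
  constructor
  · exact congrArg SemidirectProduct.right h1
  · intro o
    have h2 := congrArg SemidirectProduct.left h1
    exact congrFun h2 o

end TQA

open _root_.Pool.Agent.DPG.TQA in
/-- TQA: the relations for the larger group. -/
theorem TQA_thm (Cl : ∀ (Y : Type) [Group Y], Prop) (hRFE : Stmt_RFE) (hPOL : Stmt_POL)
    (hSYT : Stmt_SYT) (hLVT : Stmt_LVT Cl) (hEDK : Stmt_EDK) (hTQC : Stmt_TQC)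
    (hTQB : Stmt_TQB) (hPLE : Stmt_PLE) (hCJN : Stmt_CJN) (hRSC : Stmt_RSC)
    (hBGA : Stmt_BGA) : Stmt_TQA Cl := by
  classical
  intro L K H K1 Q Ω _ _ _ _ _ _ _ _ _ _ _ _ 𝔐 ℓ _ hmax hℓ π μ φ q α ε μQ wd M M1 mm hClK1
    hHR p hp hpM P hP ω hpos hstb hspp
  have := mm.nm
  have := mm.nm1
  obtain ⟨W0, _, _, πW0, ν0, hs0, hc0, hE0⟩ :=
    exists_cov hBGA 𝔐 ℓ π wd.πs μ M p hp hpM ω
  by_cases hex : ∃ (σ : Finset (Subgroup K)) (θ : L → ℂ), ChN ℓ (NN' π ε) σ ∧
      Clo φ (NN' π ε) σ ∧ BPs 𝔐 π μ M ω (stb σ) θ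
  swap
  · refine ⟨W0, inferInstance, inferInstance, πW0, ν0, hs0, hE0, ?_⟩
    intro a _ n
    refine Finset.sum_eq_zero fun σ hσ => ?_
    simp only [Finset.mem_filter] at hσ
    rw [Finset.sum_eq_zero, mul_zero]
    intro f hf
    simp only [Finset.mem_filter] at hf
    exact absurd ⟨σ, f, hσ.2.1, hσ.2.2, hf.2.1⟩ hex
  obtain ⟨σ0, θ0, hσ0, hσ0', hθ0⟩ := hex
  obtain ⟨L1, _, _, π1, μ1, ι, σr, Fr, ζ, θr, rf, hθr, hTP⟩ :=
    hRFE L K K1 Q Ω 𝔐 ℓ hmax hℓ π μ φ q α ε μQ wd M M1 mm ω hstb hspp σ0 θ0 hσ0 hσ0' hθ0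
  have : Fintype (K1 ⧸ M1) := Fintype.ofFinite _
  have hp1 : Function.Surjective (QuotientGroup.mk' M1) := QuotientGroup.mk'_surjective M1
  have hpM1 : ∀ k, QuotientGroup.mk' M1 k = 1 ↔ k ∈ M1 := fun k =>
    QuotientGroup.eq_one_iff k
  obtain ⟨P1, hP1⟩ := hSYT K K1 H Ω ℓ φ wd.sj M M1 mm.r mm.l p hp hpM P hP
  have hpos1 : Pos 𝔐 ℓ π1 μ1 M1 (cg 𝔐 Fr) :=
    hPOL L K K1 Q L1 Ω 𝔐 ℓ hmax hℓ π μ φ q α ε μQ π1 μ1 ι M M1 σr Fr ζ rf ω θr hTP hθr hstb
      hspp hpos
  obtain ⟨W1, _, _, πW1, ν1, hs1, hc1, hE1, hinv1, hT1⟩ :=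
    hLVT L1 K1 (K1 ⧸ M1) 𝔐 ℓ hmax hℓ π1 rf.ld.s rf.ld.c μ1 M1 (QuotientGroup.mk' M1) hp1 hpM1
      P1 hP1 hClK1 hHR (cg 𝔐 Fr) hpos1
  obtain ⟨W2, _, _, πW2, ψ2, μ02, hs2, ha2, hb2, hc2⟩ :=
    hEDK L K H K1 (K1 ⧸ M1) Q L1 W1 Ω 𝔐 ℓ hmax hℓ π μ φ q α ε μQ π1 μ1 ι M M1 σr Fr ζ rf p hp
      hpM (QuotientGroup.mk' M1) hp1 hpM1 πW1 hs1 hc1
  have hrsc := hRSC L K K1 Q L1 Ω 𝔐 ℓ hmax hℓ π μ φ q α ε μQ π1 μ1 ι M M1 σr Fr ζ rf
  -- the extension
  have : Fintype ↥(fpr πW0 πW2) := Fintype.ofFinite _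
  let h0 : ↥(fpr πW0 πW2) →* W0 := (MonoidHom.fst W0 W2).comp (fpr πW0 πW2).subtype
  let h2 : ↥(fpr πW0 πW2) →* W2 := (MonoidHom.snd W0 W2).comp (fpr πW0 πW2).subtype
  let πW : ↥(fpr πW0 πW2) →* H := πW0.comp h0
  have hh0 : ∀ w, πW0 (h0 w) = πW w := fun w => rfl
  have hh2 : ∀ w, πW2 (h2 w) = πW w := fun w => (mem_fpr.mp w.2).symm
  have hsW : Function.Surjective πW := by
    intro y
    obtain ⟨w0, hw0⟩ := hs0 y
    obtain ⟨w2, hw2⟩ := hs2 y
    exact ⟨⟨(w0, w2), mem_fpr.mpr (hw0.trans hw2.symm)⟩, hw0⟩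
  have hk0 : ∀ a : πW.ker, h0 (a : ↥(fpr πW0 πW2)) ∈ πW0.ker := by
    intro a
    rw [MonoidHom.mem_ker, hh0]
    exact MonoidHom.mem_ker.mp a.2
  have hk2 : ∀ a : πW.ker, h2 (a : ↥(fpr πW0 πW2)) ∈ πW2.ker := by
    intro a
    rw [MonoidHom.mem_ker, hh2]
    exact MonoidHom.mem_ker.mp a.2
  let j0 : πW.ker →* πW0.ker := (h0.comp πW.ker.subtype).codRestrict πW0.ker hk0
  let j2 : πW.ker →* πW2.ker := (h2.comp πW.ker.subtype).codRestrict πW2.ker hk2
  let ψk : πW.ker →* Gam (Equiv.Perm Ω) Ω W1 := (ψ2.comp h2).comp πW.ker.subtype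
  have hψk : ∀ a : πW.ker, (ψk a).right = 1 ∧ ∀ o, (ψk a).left o ∈ πW1.ker := by
    intro a
    exact psi_ker φ p (QuotientGroup.mk' M1) πW2 πW1 ψ2 ha2 (h2 a)
      (MonoidHom.mem_ker.mp (hk2 a))
  have hxi := exists_xi πW1 ψk (μ02.comp j2) (fun a => (hψk a).1) (fun a => (hψk a).2)
  choose ξh hξh using hxi
  obtain ⟨ν, hν1, hν2⟩ := hTQC L K K1 Q L1 Ω 𝔐 ℓ hmax hℓ π μ φ q α ε μQ π1 μ1 ι M M1 σr Fr ζ rf
    (πW.ker →* ℂˣ) (fun S f => ξh (ν1 S f)) (fun S f => (ν0 S f).comp j0)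
    (fun l hl S f => by rw [hinv1 l hl S f])
  refine ⟨↥(fpr πW0 πW2), inferInstance, inferInstance, πW, ν, hsW, ?_, ?_⟩
  · intro σ f hσ hf
    rcases hν2 (stb σ) f with ⟨σ', F, θ', n, hσ', hF, hTP', hS, hf'⟩ | h
    · rw [hS, hf', hν1 σ' F θ' n hσ' hF hTP']
      obtain ⟨hch, hef, -, -⟩ := hrsc.2 σ' F hσ' hF
      obtain ⟨ν', hν'1, hν'2⟩ := hc2 σ' F (ν1 (stb σ') F) θ' hch hef hF.ovl
        (hE1 σ' F hσ' hF) hTP'
      have h3 : EDb π p M πW (stb (cstC φ (NN' π ε) σ')) θ' (ξh (ν1 (stb σ') F)) := by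
        refine ple hPLE π p M πW2 h2 πW hh2 _ θ' ν' hν'2 _ ?_
        intro z hz
        rw [hξh, hν'1 ⟨h2 z, hz⟩ (hψk z).2]
        rfl
      refine (hCJN L K 𝔐 π wd.πs wd.πc μ M (ε n) _ θ').2.2 H _ p πW _ ?_ h3
      rw [hpM]
      exact mm.le ⟨ε n, ⟨n, rfl⟩, rfl⟩
    · rw [h]
      refine ple hPLE π p M πW0 h0 πW hh0 _ f (ν0 (stb σ) f) (hE0 σ f hσ hf) _ ?_
      intro z hz
      rfl
  · refine hTQB L K H K1 (K1 ⧸ M1) Q L1 ↥(fpr πW0 πW2) W1 Ω 𝔐 ℓ hmax hℓ π μ φ q α ε μQ π1 μ1 ι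
      M M1 σr Fr ζ rf ω θr hTP hθr hstb hspp p hp hpM P hP (QuotientGroup.mk' M1) hp1 hpM1 P1
      hP1 πW1 hs1 hc1 ν1 hT1 πW (ψ2.comp h2) (μ02.comp j2) hsW ?_ ?_ ν ?_
    · intro w k hw
      exact ha2 (h2 w) k ((hh2 w).trans hw)
    · intro g k hg
      obtain ⟨w2, hw2, hw2'⟩ := hb2 g k hg
      obtain ⟨w0, hw0⟩ := hs0 (p k)
      exact ⟨⟨(w0, w2), mem_fpr.mpr (hw0.trans hw2.symm)⟩, hw0, hw2'⟩
    · intro σ F θ n hσ hF hTP' a h
      rw [hν1 σ F θ n hσ hF hTP']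
      exact hξh (ν1 (stb σ) F) a

end Pool.Agent.DPG


end

section

/-!
# TEN: minimal normal subgroups which are not simple: the theorem
-/

set_option autoImplicit false

namespace Pool.Agent.DPG

open Pool.Agent.DP Pool.Agent.DPC Pool.Agent.DPM Pool.Agent.DPN Pool.Agent.DPF
  Pool.Agent.DPK Pool.Agent.Lib_helper13 Representation
open Pool.Agent.Lib_helper13.Dade (pCore DadeHolds dadeSum)

namespace TEN

section Ple

variable {L K H W W' : Type} [Group L] [Group K] [Group H] [Group W] [Group W']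

/-- The homomorphism between the fibre products. -/
def gsMap (π : L →* K) (p : K →* H) (πW : W →* H) (πW' : W' →* H) (h : W' →* W)
    (hh : ∀ w, πW (h w) = πW' w) (S : Subgroup K) :
    ↥(GS π p πW' S) →* ↥(GS π p πW S) where
  toFun x := ⟨((x : L × W').1, h (x : L × W').2), x.2.1, x.2.2.trans (hh _).symm⟩
  map_one' := by
    apply Subtype.ext
    simp
  map_mul' := by
    intro a b
    apply Subtype.ext
    simp

/-- Extensions over a larger extension. -/
theorem ple (π : L →* K) (p : K →* H) (M : Subgroup K) (πW : W →* H) (πW' : W' →* H)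
    (h : W' →* W) (hh : ∀ w, πW (h w) = πW' w) (S : Subgroup K) (f : L → ℂ)
    (ν : πW.ker →* ℂˣ) (ν' : πW'.ker →* ℂˣ)
    (hν : ∀ (z : πW'.ker) (hz : h z ∈ πW.ker), ν' z = ν ⟨h z, hz⟩)
    (hE : EDb π p M πW S f ν) : EDb π p M πW' S f ν' := by
  obtain ⟨E, h1, h2, h3, h4⟩ := hE
  refine ⟨fun x => E (x.1, h x.2), ?_, ?_, ?_, ?_⟩
  · exact h1.comp (gsMap π p πW πW' h hh S)
  · intro x hx
    apply h2
    intro h5
    apply hx
    exact ⟨h5.1, h5.2.trans (hh _)⟩
  · intro a ha ha'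
    change E (a, h 1) = f a
    rw [map_one]
    exact h3 a ha ha'
  · intro z t w
    have hz : h z ∈ πW.ker := by
      rw [MonoidHom.mem_ker, hh]
      exact z.2
    change ((ν' z : ℂˣ) : ℂ) * E (t, h (z * w)) = E (t, h w)
    rw [hν z hz, map_mul]
    exact h4 ⟨h z, hz⟩ t (h w)

/-- The map between the kernels. -/
def kmap (πW : W →* H) (πW' : W' →* H) (h : W' →* W) (hh : ∀ w, πW (h w) = πW' w) :
    πW'.ker →* πW.ker where
  toFun z := ⟨h z, by
    rw [MonoidHom.mem_ker, hh]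
    exact z.2⟩
  map_one' := by
    apply Subtype.ext
    simp
  map_mul' := by
    intro a b
    apply Subtype.ext
    simp

/-- The elements `InS` are mapped to such elements. -/
theorem inS_map (πW : W →* H) (πW' : W' →* H) (h : W' →* W) (hh : ∀ w, πW (h w) = πW' w)
    (hs : Function.Surjective h) (P : Subgroup H) {a : W'} (ha : InS πW' P a) :
    InS πW P (h a) := by
  obtain ⟨x, y, e, h1, h2, h3⟩ := ha
  have hle : (P.comap πW').map h ≤ P.comap πW := by
    rintro _ ⟨w, hw, rfl⟩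
    rw [Subgroup.mem_comap, hh]
    exact hw
  refine ⟨h x, h y, h e, ?_, ?_, ?_⟩
  · rw [eq_top_iff]
    have h4 : (Subgroup.closure {x, y} ⊔ P.comap πW').map h = ⊤ := by
      rw [h1]
      exact Subgroup.map_top_of_surjective h hs
    rw [← h4, Subgroup.map_sup]
    refine sup_le_sup ?_ hle
    rw [MonoidHom.map_closure]
    apply Subgroup.closure_mono
    rw [Set.image_pair]
  · have h5 : h e ∈ (⁅P.comap πW', P.comap πW'⁆).map h := ⟨e, h2, rfl⟩
    rw [Subgroup.map_commutator] at h5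
    exact Subgroup.commutator_mono hle hle h5
  · rw [h3]
    simp

end Ple

/-- The `ℓ`-subgroups of `M` are contained in `N`. -/
theorem le_of_pgr {K : Type} [Group K] [Finite K] {ℓ : ℕ} [Fact ℓ.Prime] {N M D : Subgroup K}
    [N.Normal] (hc : ¬ ℓ ∣ N.relIndex M) (hD : IsPGroup ℓ D) (hDM : D ≤ M) :
    D ≤ N := by
  intro x hx
  obtain ⟨k, hk⟩ := hD ⟨x, hx⟩
  have hk' : x ^ ℓ ^ k = 1 := congrArg Subtype.val hk
  have h1 : (⟨x, hDM hx⟩ : M) ^ (N.subgroupOf M).index ∈ N.subgroupOf M :=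
    Subgroup.pow_index_mem _ _
  have h2 : x ^ N.relIndex M ∈ N := by
    have h3 := Subgroup.mem_subgroupOf.1 h1
    rw [Subgroup.coe_pow] at h3
    exact h3
  have hcop : Nat.Coprime (ℓ ^ k) (N.relIndex M) :=
    Nat.Coprime.pow_left k ((Nat.Prime.coprime_iff_not_dvd Fact.out).2 hc)
  have h4 := Nat.gcd_eq_gcd_ab (ℓ ^ k) (N.relIndex M)
  rw [hcop] at h4
  have h5 : x = (x ^ (ℓ ^ k)) ^ (Nat.gcdA (ℓ ^ k) (N.relIndex M)) *
      (x ^ (N.relIndex M)) ^ (Nat.gcdB (ℓ ^ k) (N.relIndex M)) := by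
    rw [← zpow_natCast, ← zpow_natCast, ← zpow_mul, ← zpow_mul, ← zpow_add, ← h4]
    simp
  rw [h5, hk', one_zpow, one_mul]
  exact N.zpow_mem h2 _

theorem chN_iff {K : Type} [Group K] [Finite K] {ℓ : ℕ} [Fact ℓ.Prime] {N M : Subgroup K}
    [N.Normal] (hNM : N ≤ M) (hc : ¬ ℓ ∣ N.relIndex M) (σ : Finset (Subgroup K)) :
    ChN ℓ M σ ↔ ChN ℓ N σ := by
  constructor
  · rintro ⟨h1, h2⟩
    exact ⟨h1, fun D hD => le_of_pgr hc (h1.1 D hD).1 (h2 D hD)⟩
  · rintro ⟨h1, h2⟩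
    exact ⟨h1, fun D hD => (h2 D hD).trans hNM⟩

theorem chN_mapCh {K : Type} [Group K] {ℓ : ℕ} {M : Subgroup K} {τ : Finset (Subgroup M)}
    (h : IsCh ℓ ⊥ τ) : ChN ℓ M (mapCh M.subtype τ) := by
  constructor
  · have h1 := (isCh_mapCh_iff (i := M.subtype) M.subtype_injective).2 h
    rwa [Subgroup.map_bot] at h1
  · intro D hD
    obtain ⟨D', -, rfl⟩ := mem_mapCh.1 hD
    exact Subgroup.map_subtype_le D'

theorem exists_mapCh' {K : Type} [Group K] {ℓ : ℕ} {M : Subgroup K} {σ : Finset (Subgroup K)}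
    (h : ChN ℓ M σ) : ∃ τ : Finset (Subgroup M), mapCh M.subtype τ = σ := by
  apply exists_mapCh
  intro D hD
  rw [Subgroup.range_subtype]
  exact h.2 D hD

theorem mem_filter' {A : Type*} (s : Finset A) (P : A → Prop) (i : DecidablePred P) (a : A) :
    a ∈ @Finset.filter A P i s ↔ a ∈ s ∧ P a := Finset.mem_filter

theorem ext0_coe {G : Type} [Group G] {S : Subgroup G} (θ : S → ℂ) :
    (fun s : S => ext0 θ (s : G)) = θ := by
  funext s
  rw [ext0_of_mem θ s.2]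

theorem ext0_res {G : Type} [Group G] {S : Subgroup G} {f : G → ℂ} (hf : ∀ x, x ∉ S → f x = 0) :
    ext0 (fun s : S => f s) = f := by
  funext x
  by_cases hx : x ∈ S
  · rw [ext0_of_mem _ hx]
  · rw [ext0_of_not_mem _ hx, hf x hx]

end TEN

open _root_.Pool.Agent.DPG.TEN in
/-- TEN: the theorem. -/
theorem TEN_thm (Cl : ∀ (Y : Type) [Group Y], Prop) (h1 : Stmt_T2Br Cl) (h2 : Stmt_CNA)
    (h3 : Stmt_CNB) (h4 : Stmt_VCL Cl) (h5 : Stmt_TRO Cl) (h6 : Stmt_MMC) (h7 : Stmt_TQA Cl)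
    (h8 : Stmt_TOG) (h9 : Stmt_BGA) (h10 : Stmt_BGB) : Stmt_TEN Cl := by
  classical
  intro L K H _ _ _ _ _ _ 𝔐 ℓ _ hmax hℓ π hπ hc μ hμ hcore hGC hClK hHR M _ p hp hpM P hP ω hPos
    N _ hNM hcop hNne hmin hncomm hcent hns hSTB hSPP d
  -- the wreath product data
  obtain ⟨E, hE1, hE2, hE3, hE4, hE5, hE6, hE7⟩ := h2 K N hNne hmin hncomm hns
  obtain ⟨Ω, K1, Q, _, _, _, _, _, φ, q, α, ε, μQ, wd, hNN, hΩ, hcard⟩ :=
    h3 L K π hπ hc μ hμ N hcent E hE1 hE2 hE3 hE4 hE5 hE6 hE7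
  have hΩn : Nonempty Ω := Fintype.card_pos_iff.1 (by omega)
  obtain ⟨hClK1, hClq⟩ := h4 hGC K K1 Q Ω φ q wd.sj hClK
  have hcq : Nat.card q.range < Nat.card K :=
    lt_of_le_of_lt (Subgroup.card_le_card_group q.range) hcard
  subst hNN
  -- the extension for the group `M`
  have hA : ∃ (W : Type) (_ : Group W) (_ : Fintype W) (πW : W →* H)
      (ν : Subgroup K → (L → ℂ) → (πW.ker →* ℂˣ)), Function.Surjective πW ∧
      (∀ σ f, ChN ℓ M σ → BPs 𝔐 π μ M ω (stb σ) f →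
        EDb π p M πW (stb σ) f (ν (stb σ) f)) ∧
      T2X 𝔐 ℓ π μ M ω πW P (fun σ => ChN ℓ (NN' π ε) σ ∧ Clo φ (NN' π ε) σ) ν := by
    by_cases hex : ∃ (σ : Finset (Subgroup K)) (θ : L → ℂ), ChN ℓ (NN' π ε) σ ∧
        Clo φ (NN' π ε) σ ∧ BPs 𝔐 π μ M ω (stb σ) θ
    · obtain ⟨σ, θ, hσ, -, hθ⟩ := hex
      have hr := h5 L K K1 Q Ω 𝔐 ℓ hmax hℓ π μ φ q α ε μQ wd hClq (hHR _ hcq) M hNM hcop ω hPos
        hSTB hSPP σ θ hσ hθ
      obtain ⟨M1, hMM⟩ := h6 L K K1 Q Ω ℓ π μ φ q α ε μQ wd M hNM hcop hr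
      exact h7 L K H K1 Q Ω 𝔐 ℓ hmax hℓ π μ φ q α ε μQ wd M M1 hMM hClK1 (hHR _ hcard) p hp hpM P
        hP ω hPos hSTB hSPP
    · obtain ⟨W, _, _, πW, ν0, hW1, -, hW3⟩ := (COV_thm COVG_thm) L K H 𝔐 π hπ μ M p hp hpM ω
      refine ⟨W, inferInstance, inferInstance, πW, fun S f =>
        if h : ∃ ν' : πW.ker →* ℂˣ, EDb π p M πW S f ν' then h.choose else 1, hW1, ?_, ?_⟩
      · intro σ f hσ hf
        obtain ⟨τ, rfl⟩ := exists_mapCh' hσ
        have h11 := h9 L K H W 𝔐 π hπ μ M p hp hpM ω τ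
          (fun s : ↥(SL π M τ M) => f s)
        have h12 : ext0 (fun s : ↥(SL π M τ M) => f s) = f := ext0_res hf.irr.2
        rw [h12] at h11
        have h13 := h11.1.2 hf
        have h14 := (h11.2 πW hW1 _ h13).1 (hW3 τ _ h13)
        have h15 : ∃ ν' : πW.ker →* ℂˣ, EDb π p M πW (stb (mapCh M.subtype τ)) f ν' := ⟨_, h14⟩
        beta_reduce
        rw [dif_pos h15]
        exact h15.choose_spec
      · intro a _ n
        apply Finset.sum_eq_zero
        intro σ hσ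
        have h11 := ((mem_filter' _ _ _ _).1 hσ).2
        rw [Finset.sum_eq_zero, mul_zero]
        intro f hf
        exact absurd ⟨σ, f, h11.1, h11.2, ((mem_filter' _ _ _ _).1 hf).2.1⟩ hex
  obtain ⟨W1, _, _, π1, ν1, hs1, hB1, hT1⟩ := hA
  obtain ⟨W0, _, _, π0, ν0, hs0, -, hB0⟩ := (COV_thm COVG_thm) L K H 𝔐 π hπ μ M p hp hpM ω
  -- the fibre product
  let W : Subgroup (W0 × W1) := fpr π0 π1
  let f0 : ↥W →* W0 := (MonoidHom.fst W0 W1).comp W.subtype
  let f1 : ↥W →* W1 := (MonoidHom.snd W0 W1).comp W.subtype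
  let πW : ↥W →* H := π1.comp f1
  have hh1 : ∀ w, π1 (f1 w) = πW w := fun _ => rfl
  have hh0 : ∀ w, π0 (f0 w) = πW w := fun w => w.2
  have hf1 : Function.Surjective f1 := by
    intro w
    obtain ⟨w0, hw0⟩ := hs0 (π1 w)
    exact ⟨⟨(w0, w), hw0⟩, rfl⟩
  have hsW : Function.Surjective πW := hs1.comp hf1
  let ν : Subgroup K → (L → ℂ) → (πW.ker →* ℂˣ) := fun S f =>
    (ν1 S f).comp (kmap π1 πW f1 hh1)
  let ν' : ∀ τ : Finset (Subgroup M), (↥(SL π M τ M) → ℂ) → (πW.ker →* ℂˣ) := fun τ θ =>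
    if IsCh ℓ ⊥ τ then ν (stb (mapCh M.subtype τ)) (ext0 θ)
    else (ν0 τ θ).comp (kmap π0 πW f0 hh0)
  -- the relations for all chains
  have hT : T2 𝔐 ℓ π μ p M ω πW P
      (fun τ θ => ν (stb (mapCh M.subtype τ)) (ext0 θ)) := by
    rw [h10 L K H W 𝔐 ℓ π hπ μ M p hp hpM ω πW P ν]
    intro a ha n
    have hN : (Ch ℓ (⊥ : Subgroup K)).filter (fun σ => ChN ℓ M σ) =
        (Ch ℓ (⊥ : Subgroup K)).filter (fun σ => ChN ℓ (NN' π ε) σ) :=
      Finset.filter_congr fun σ _ => chN_iff hNM hcop σ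
    rw [hN]
    have h11 := h8 L K K1 Q Ω ℓ π μ φ q α ε μQ wd (fun S =>
      ∑ f ∈ irrOn (AL π M S) with BPs 𝔐 π μ M ω S f ∧
          HasDefect ℓ (fun s : AL π M S => f s) n,
        (Nat.card ↥(M ⊓ S) : ℂ) * ((ν1 S f (kmap π1 πW f1 hh1 a) : ℂˣ) : ℂ))
    have h12 := hT1 (kmap π1 πW f1 hh1 a) (inS_map π1 πW f1 hh1 hf1 P ha) n
    refine Eq.trans ?_ (h11.trans (Eq.trans ?_ h12))
    · rfl
    · refine Finset.sum_congr ?_ fun _ _ => rfl
      ext σ
      constructor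
      · intro hm
        have hm' := (mem_filter' _ _ _ _).1 hm
        exact (mem_filter' _ _ _ _).2 hm'
      · intro hm
        have hm' := (mem_filter' _ _ _ _).1 hm
        exact (mem_filter' _ _ _ _).2 hm'
  have hT' : T2 𝔐 ℓ π μ p M ω πW P ν' := by
    intro a ha n
    rw [← hT a ha n]
    refine Finset.sum_congr rfl fun τ hτ => ?_
    have h11 : ∀ θ, ν' τ θ = ν (stb (mapCh M.subtype τ)) (ext0 θ) := by
      intro θ
      change (if IsCh ℓ ⊥ τ then _ else _) = _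
      rw [if_pos (mem_Ch.1 hτ)]
    congr 1
    refine Finset.sum_congr rfl fun θ _ => ?_
    rw [h11]
  -- the numbers of characters
  have hNum : ∀ τ θ, PrU 𝔐 π μ p M ω τ θ → NumW ℓ π p M πW τ θ (ν' τ θ) := by
    intro τ θ hθ
    have h11 := h9 L K H W 𝔐 π hπ μ M p hp hpM ω τ θ
    apply (NUW_thm (NUM_thm NUG_thm)) L K H W 𝔐 ℓ π hπ μ M p hpM ω πW hsW τ θ _ hθ
    rw [h11.2 πW hsW _ hθ]
    by_cases hτ : IsCh ℓ ⊥ τ
    · have h12 : ν' τ θ = ν (stb (mapCh M.subtype τ)) (ext0 θ) := by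
        change (if IsCh ℓ ⊥ τ then _ else _) = _
        rw [if_pos hτ]
      rw [h12]
      exact ple π p M π1 πW f1 hh1 _ _ _ _ (fun _ _ => rfl)
        (hB1 _ _ (chN_mapCh hτ) (h11.1.1 hθ))
    · have h12 : ν' τ θ = (ν0 τ θ).comp (kmap π0 πW f0 hh0) := by
        change (if IsCh ℓ ⊥ τ then _ else _) = _
        rw [if_neg hτ]
      rw [h12]
      have h13 := h9 L K H W0 𝔐 π hπ μ M p hp hpM ω τ θ
      exact ple π p M π0 πW f0 hh0 _ _ _ _ (fun _ _ => rfl)
        ((h13.2 π0 hs0 _ hθ).1 (hB0 τ θ hθ))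
  exact h1 L K H W 𝔐 ℓ hmax hℓ π hπ hc μ M p hp hpM P hP hcore hClK hHR ω hPos πW hsW ν' hNum
    hT' d

end Pool.Agent.DPG


end

section

/-!
# LVT: the relations for the smaller group
-/

namespace Pool.Agent.DPG

open Pool.Agent.DP Pool.Agent.DPC Pool.Agent.DPM Pool.Agent.DPN Pool.Agent.DPF
  Pool.Agent.DPK Pool.Agent.Lib_helper13 Representation
open Pool.Agent.Lib_helper13.Dade (pCore DadeHolds dadeSum)

namespace LVT

open Classical in
/-- A choice of an element of a set of linear characters. -/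
noncomputable def pick {X : Type} [Inhabited X] (S : Set X) : X :=
  if h : S.Nonempty then h.choose else default

theorem pick_mem {X : Type} [Inhabited X] (S : Set X) (h : S.Nonempty) : pick S ∈ S := by
  unfold pick
  rw [dif_pos h]
  exact h.choose_spec

theorem map_conj_inv {K : Type} [Group K] (k : K) (S : Subgroup K) :
    (S.map (MulAut.conj k).toMonoidHom).map (MulAut.conj k⁻¹).toMonoidHom = S := by
  rw [Subgroup.map_map]
  have h : ((MulAut.conj k⁻¹).toMonoidHom).comp (MulAut.conj k).toMonoidHom =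
      MonoidHom.id K := by
    ext x
    simp [mul_assoc]
  rw [h, Subgroup.map_id]

theorem cjF_inv {L : Type} [Group L] (l : L) (f : L → ℂ) : cjF l⁻¹ (cjF l f) = f := by
  funext x
  unfold cjF
  congr 1
  group

theorem exists_chain {K : Type} [Group K] (M : Subgroup K) (σ : Finset (Subgroup K))
    (h : ∀ D ∈ σ, D ≤ M) : ∃ τ : Finset (Subgroup M), mapCh M.subtype τ = σ := by
  classical
  refine ⟨σ.image (fun D => D.subgroupOf M), ?_⟩
  ext E
  rw [mem_mapCh]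
  constructor
  · rintro ⟨D, hD, rfl⟩
    obtain ⟨D', hD', rfl⟩ := Finset.mem_image.mp hD
    rw [Subgroup.map_subgroupOf_eq_of_le (h D' hD')]
    exact hD'
  · intro hE
    exact ⟨E.subgroupOf M, Finset.mem_image_of_mem _ hE,
      Subgroup.map_subgroupOf_eq_of_le (h E hE)⟩

/-- The set of the linear characters over which a pair extends is invariant. -/
theorem set_inv (h4 : Stmt_CJN) {L K H W : Type} [Group L] [Fintype L] [Group K] [Fintype K]
    [Group H] [Group W] (𝔐 : Ideal (integralClosure ℤ ℂ)) (π : L →* K)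
    (hπ : Function.Surjective π) (hc : π.ker ≤ Subgroup.center L) (μ : π.ker →* ℂˣ)
    (M : Subgroup K) [M.Normal] (p : K →* H) (πW : W →* H) (l : L) (hl : p (π l) = 1)
    (S : Subgroup K) (f : L → ℂ) :
    {ν | EDb π p M πW (S.map (MulAut.conj (π l)).toMonoidHom) (cjF l f) ν} =
      {ν | EDb π p M πW S f ν} := by
  ext ν
  constructor
  · intro h
    have h1 := (h4 L K 𝔐 π hπ hc μ M l⁻¹ (S.map (MulAut.conj (π l)).toMonoidHom)
      (cjF l f)).2.2 H W p πW ν (by rw [map_inv, map_inv, hl, inv_one]) h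
    rw [map_inv, map_conj_inv, cjF_inv] at h1
    exact h1
  · intro h
    exact (h4 L K 𝔐 π hπ hc μ M l S f).2.2 H W p πW ν hl h

end LVT

theorem LVT_thm (Cl : ∀ (Y : Type) [Group Y], Prop) (h1 : Stmt_T2Ar Cl) (h2 : Stmt_BGA)
    (h3 : Stmt_BGB) (h4 : Stmt_CJN) : Stmt_LVT Cl := by
  classical
  intro L K H _ _ _ _ _ _ 𝔐 ℓ hℓ h𝔐 hℓ𝔐 π hπ hc μ M hM p hp hpM P hP hCl hHR ω hPos
  obtain ⟨W, gW, fW, πW, ν0, hs, hcW, hν0⟩ := all_COV L K H 𝔐 π hπ μ M p hp hpM ω
  have inh : Inhabited (πW.ker →* ℂˣ) := ⟨1⟩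
  let ν : Subgroup K → (L → ℂ) → (πW.ker →* ℂˣ) := fun S f =>
    LVT.pick {ν | EDb π p M πW S f ν}
  have hν : ∀ S f, (∃ ν', EDb π p M πW S f ν') → EDb π p M πW S f (ν S f) := by
    intro S f h
    exact LVT.pick_mem {ν | EDb π p M πW S f ν} h
  have hB := fun τ θ => h2 L K H W 𝔐 π hπ μ M p hp hpM ω τ θ
  have hPr : ∀ τ θ, PrU 𝔐 π μ p M ω τ θ →
      EDb π p M πW (stb (mapCh M.subtype τ)) (ext0 θ)
        (ν (stb (mapCh M.subtype τ)) (ext0 θ)) := by
    intro τ θ h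
    apply hν
    exact ⟨ν0 τ θ, ((hB τ θ).2 πW hs (ν0 τ θ) h).mp (hν0 τ θ h)⟩
  refine ⟨W, gW, fW, πW, ν, hs, hcW, ?_, ?_, ?_⟩
  · intro σ f hσ hf
    obtain ⟨τ, hτ⟩ := LVT.exists_chain M σ (fun D hD => hσ.2 D hD)
    subst hτ
    have h5 : (ext0 (fun s : ↥(SL π M τ M) => f s) : L → ℂ) = f := by
      funext x
      by_cases hx : x ∈ SL π M τ M
      · rw [ext0_of_mem _ hx]
      · rw [ext0_of_not_mem _ hx]
        exact (hf.irr.2 x hx).symm
    have h6 : PrU 𝔐 π μ p M ω τ (fun s : ↥(SL π M τ M) => f s) := by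
      apply (hB τ _).1.mpr
      rw [h5]
      exact hf
    have h7 := hPr τ _ h6
    rw [h5] at h7
    exact h7
  · intro l hl S f
    change LVT.pick _ = LVT.pick _
    rw [LVT.set_inv h4 𝔐 π hπ hc μ M p πW l ((hpM _).mpr hl) S f]
  · have h5 := (h3 L K H W 𝔐 ℓ π hπ μ M p hp hpM ω πW P ν).mp
      (h1 L K H W 𝔐 ℓ h𝔐 hℓ𝔐 π hπ hc μ M p hp hpM P hP hCl hHR ω hPos πW hs hcW _
        (fun τ θ h => ((hB τ θ).2 πW hs _ h).mpr (hPr τ θ h)))
    exact h5

end Pool.Agent.DPG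


end
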