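import Mathlib
import Pool.Agent.DAM.C11
import Pool.Agent.DAM.C14
import Pool.Agent.DAM.C18
import Pool.Agent.DAM.C19
import Pool.Agent.DAM.C22
import Pool.Agent.DAM.C23
import Pool.Agent.DAM.C24
import Pool.Agent.DAM.C25
import Pool.Agent.DAM.C27
import Pool.Agent.DAM.C31
import Pool.Agent.DAM.C32
import Pool.Agent.DAM.C33
import Pool.Agent.DAM.C35
import Pool.Agent.DAM.C39
import Pool.Agent.DAM.C67
import Pool.Agent.DAM.C69
import Pool.Agent.DAM.C73
import Pool.Agent.DAM.C78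

/-! Parts: DPX.FRYX, DPX.VANX, DPT.OUT2, DPK.OUT2r, DPW.INNP, DPX.KCX, DPX.VSXX, DPG.CJS, DPG.ZEX, DPG.PSI, DPG.ZCO -/

section

/-!
# FRYX: freeness over a cyclic `ℓ`-group from freeness over the subgroup of order `ℓ`
-/

namespace Pool.Agent.DPX

open Pool.Agent.DPB Pool.Agent.DPW Representation

namespace FRYX

variable {F H V : Type} [Field F] [Group H] [Fintype H] [AddCommGroup V] [Module F V]

theorem tN_eq (ρ : Representation F H V) (z : H) (P : Subgroup H) (hP : P = Subgroup.zpowers z) :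
    tN P ρ = ∑ i ∈ Finset.range (orderOf z), ρ z ^ i := by
  subst hP
  classical
  unfold tN
  rw [← Finset.sum_filter]
  symm
  refine Finset.sum_bij (fun i _ => z ^ i) ?_ ?_ ?_ ?_
  · intro i hi
    rw [Finset.mem_filter]
    exact ⟨Finset.mem_univ _, Subgroup.npow_mem_zpowers z i⟩
  · intro i hi j hj h
    exact pow_injOn_Iio_orderOf (Finset.mem_range.1 hi) (Finset.mem_range.1 hj) h
  · intro b hb
    rw [Finset.mem_filter] at hb
    have h := (mem_zpowers_iff_mem_range_orderOf).1 hb.2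
    rw [Finset.mem_image] at h
    obtain ⟨i, hi, rfl⟩ := h
    exact ⟨i, hi, rfl⟩
  · intro i hi
    exact (map_pow ρ z i).symm

open Polynomial in
/-- `(X - 1) ^ (ℓ ^ k) = X ^ (ℓ ^ k) - 1` -/
theorem pol_one (ℓ : ℕ) [Fact ℓ.Prime] (F : Type) [Field F] [CharP F ℓ] (k : ℕ) :
    (X - 1 : F[X]) ^ (ℓ ^ k) = X ^ (ℓ ^ k) - 1 := by
  have h := sub_pow_char_pow (R := F[X]) (p := ℓ) (n := k) (X : F[X]) 1
  rw [h, one_pow]

open Polynomial in
/-- the sum of the powers -/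
theorem pol_sum (ℓ : ℕ) [Fact ℓ.Prime] (F : Type) [Field F] [CharP F ℓ] (a k : ℕ) :
    ∑ i ∈ Finset.range (ℓ ^ k), ((X : F[X]) ^ (ℓ ^ a)) ^ i
      = (X - 1 : F[X]) ^ (ℓ ^ a * (ℓ ^ k - 1)) := by
  have hp : 0 < ℓ ^ k := pow_pos (Fact.out : ℓ.Prime).pos k
  have h1 := mul_geom_sum ((X : F[X]) ^ (ℓ ^ a)) (ℓ ^ k)
  have h2 : ((X : F[X]) ^ (ℓ ^ a)) ^ (ℓ ^ k) - 1 = (X - 1 : F[X]) ^ (ℓ ^ a * ℓ ^ k) := by
    rw [← pow_mul, ← pow_add, pol_one]
  rw [h2, ← pol_one] at h1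
  have h3 : (X - 1 : F[X]) ^ (ℓ ^ a * ℓ ^ k)
      = (X - 1 : F[X]) ^ (ℓ ^ a) * (X - 1 : F[X]) ^ (ℓ ^ a * (ℓ ^ k - 1)) := by
    obtain ⟨m, hm⟩ : ∃ m, ℓ ^ k = m + 1 := ⟨ℓ ^ k - 1, by omega⟩
    have e : ℓ ^ a * (m + 1) = ℓ ^ a + ℓ ^ a * m := by ring
    rw [hm, Nat.add_sub_cancel, e, pow_add]
  rw [h3] at h1
  have hne : (X - 1 : F[X]) ^ (ℓ ^ a) ≠ 0 := by
    apply pow_ne_zero
    have := Polynomial.X_sub_C_ne_zero (1 : F)
    rwa [map_one] at this
  exact mul_left_cancel₀ hne h1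

/-- the linear algebra -/
theorem key {V : Type} [AddCommGroup V] [Module F V] (N : Module.End F V) (q ℓ : ℕ) (hq : 0 < q)
    (hl : 2 ≤ ℓ) (h : ∀ u, (N ^ q) u = 0 → ∃ w, u = (N ^ (q * (ℓ - 1))) w) (v : V)
    (hv : N v = 0) : ∀ k, k ≤ q * ℓ - 1 → ∃ w, v = (N ^ k) w := by
  obtain ⟨m, rfl⟩ : ∃ m, ℓ = m + 2 := ⟨ℓ - 2, by omega⟩
  have e0 : m + 2 - 1 = m + 1 := by omega
  rw [e0] at h
  intro k
  induction k with
  | zero => intro _; exact ⟨v, by simp⟩
  | succ k ih =>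
    intro hk
    obtain ⟨w, hw⟩ := ih (by omega)
    have hadd : ∀ (a b : ℕ) (x : V), (N ^ (a + b)) x = (N ^ a) ((N ^ b) x) := by
      intro a b x
      rw [pow_add]; rfl
    have hN : (N ^ (k + 1)) w = 0 := by
      rw [add_comm, hadd, ← hw, pow_one, hv]
    have hq1 : q ≤ q * (m + 1) := Nat.le_mul_of_pos_right q (by omega)
    have hmul : q * (m + 2) = q + q * (m + 1) := by ring
    rcases Nat.lt_or_ge (k + 1) q with hc | hc
    · obtain ⟨w', hw'⟩ := h w (by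
        obtain ⟨j, hj⟩ : ∃ j, q = j + (k + 1) := ⟨q - (k + 1), by omega⟩
        rw [hj, hadd, hN, map_zero])
      obtain ⟨j, hj⟩ : ∃ j, k + q * (m + 1) = (k + 1) + j := ⟨k + q * (m + 1) - (k + 1), by omega⟩
      refine ⟨(N ^ j) w', ?_⟩
      rw [← hadd, ← hj, hadd, ← hw', ← hw]
    · obtain ⟨j, hj⟩ : ∃ j, k + 1 = q + j := ⟨k + 1 - q, by omega⟩
      obtain ⟨w', hw'⟩ := h ((N ^ j) w) (by rw [← hadd, ← hj, hN])
      obtain ⟨i, hi⟩ : ∃ i, k = i + j := ⟨q - 1, by omega⟩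
      obtain ⟨t, ht⟩ : ∃ t, i + q * (m + 1) = (k + 1) + t := ⟨i + q * (m + 1) - (k + 1), by omega⟩
      refine ⟨(N ^ t) w', ?_⟩
      rw [← hadd, ← ht, hadd, ← hw', ← hadd, ← hi, ← hw]

end FRYX

open _root_.Pool.Agent.DPX.FRYX Polynomial in
theorem FRYX_thm : Stmt_FRYX := by
  intro ℓ n _ F H V _ _ _ _ _ _ ρ P₁ P hle hc1 hcyc hcard hfree v hv
  classical
  have hlp : ℓ.Prime := Fact.out
  -- a generator
  obtain ⟨y', hy'⟩ := hcyc.exists_generator
  obtain ⟨y, hyP⟩ := y'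
  have hPy : P = Subgroup.zpowers y := by
    apply le_antisymm
    · intro p hp
      have := hy' ⟨p, hp⟩
      rw [Subgroup.mem_zpowers_iff] at this ⊢
      obtain ⟨k, hk⟩ := this
      refine ⟨k, ?_⟩
      have h2 := congrArg Subtype.val hk
      simpa using h2
    · rw [Subgroup.zpowers_le]; exact hyP
  have hord : orderOf y = ℓ ^ n := by
    rw [← hcard, hPy, Nat.card_zpowers]
  -- `n > 0`
  have hn : 0 < n := by
    rcases Nat.eq_zero_or_pos n with h | h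
    · have h1 := Subgroup.card_le_of_le hle
      rw [hc1, hcard, h, pow_zero] at h1
      exact absurd hlp.two_le (by omega)
    · exact h
  obtain ⟨m, rfl⟩ : ∃ m, n = m + 1 := ⟨n - 1, by omega⟩
  have hq : 0 < ℓ ^ m := pow_pos hlp.pos m
  have hP1 : P₁ = Subgroup.zpowers (y ^ (ℓ ^ m)) := by
    have hle1 : P₁ ≤ Subgroup.zpowers (y ^ (ℓ ^ m)) := by
      intro p hp
      have hpP := hle hp
      rw [hPy, mem_zpowers_iff_mem_range_orderOf, Finset.mem_image] at hpP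
      obtain ⟨i, hi, rfl⟩ := hpP
      have h1 : (y ^ i) ^ ℓ = 1 := by
        have h2 : (⟨y ^ i, hp⟩ : P₁) ^ (Nat.card P₁) = 1 := pow_card_eq_one'
        rw [hc1] at h2
        have h3 := congrArg Subtype.val h2
        simpa using h3
      rw [← pow_mul, ← orderOf_dvd_iff_pow_eq_one, hord, pow_succ] at h1
      have h2 : ℓ ^ m ∣ i := Nat.dvd_of_mul_dvd_mul_right hlp.pos h1
      obtain ⟨j, rfl⟩ := h2
      rw [pow_mul]
      exact Subgroup.npow_mem_zpowers _ j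
    apply Subgroup.eq_of_le_of_card_ge hle1
    rw [Nat.card_zpowers, hc1, orderOf_pow' y (by positivity), hord,
      Nat.gcd_eq_right (pow_dvd_pow ℓ (Nat.le_succ m)), pow_succ, Nat.mul_div_cancel_left _ hq]
  have hordq : orderOf (y ^ (ℓ ^ m)) = ℓ := by
    rw [← Nat.card_zpowers, ← hP1, hc1]
  -- the operator
  set N : Module.End F V := ρ y - 1 with hN
  have hev : ∀ k, aeval (ρ y) ((X - 1 : F[X]) ^ k) = N ^ k := by
    intro k
    rw [map_pow, map_sub, aeval_X, map_one]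
  have hNq : N ^ (ℓ ^ m) = ρ (y ^ (ℓ ^ m)) - 1 := by
    rw [← hev, pol_one, map_sub, map_pow, aeval_X, map_one, map_pow]
  have hT1 : tN P₁ ρ = N ^ (ℓ ^ m * (ℓ - 1)) := by
    rw [tN_eq ρ _ _ hP1, hordq, ← hev]
    have h1 := pol_sum ℓ F m 1
    rw [pow_one] at h1
    rw [← h1, map_sum]
    refine Finset.sum_congr rfl fun i _ => ?_
    rw [map_pow, map_pow, map_pow, aeval_X]
  have hT : tN P ρ = N ^ (ℓ ^ m * ℓ - 1) := by
    rw [tN_eq ρ _ _ hPy, hord, ← hev]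
    have h1 := pol_sum ℓ F 0 (m + 1)
    rw [pow_zero, pow_one, one_mul] at h1
    rw [← pow_succ, ← h1, map_sum]
    refine Finset.sum_congr rfl fun i _ => ?_
    rw [map_pow, aeval_X]
  have hkey := key N (ℓ ^ m) ℓ hq hlp.two_le (fun u hu => by
    have h1 : ∀ p ∈ P₁, ρ p u = u := by
      have h2 : ρ (y ^ (ℓ ^ m)) u = u := by
        rw [hNq, LinearMap.sub_apply, Module.End.one_apply, sub_eq_zero] at hu
        exact hu
      intro p hp
      rw [hP1, mem_zpowers_iff_mem_range_orderOf, Finset.mem_image] at hp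
      obtain ⟨i, -, rfl⟩ := hp
      induction i with
      | zero => rw [pow_zero, map_one]; rfl
      | succ i ih => rw [pow_succ, map_mul, Module.End.mul_apply, h2, ih]
    obtain ⟨w, hw⟩ := hfree u h1
    rw [hT1] at hw
    exact ⟨w, hw.symm⟩) v (by
      rw [hN, LinearMap.sub_apply, Module.End.one_apply, hv y hyP, sub_self]) (ℓ ^ m * ℓ - 1) le_rfl
  obtain ⟨w, hw⟩ := hkey
  exact ⟨w, by rw [hT]; exact hw.symm⟩

end Pool.Agent.DPX


end

section

/-!
# VANX: vanishing of a trace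
-/

namespace Pool.Agent.DPX

open Pool.Agent.DPB Pool.Agent.DPW Representation

namespace VANX

/-! ### the idempotents of a cyclic group -/

section Cyc

variable {R A : Type*} [CommRing R] [Ring A] [Algebra R A]

/-- the idempotents -/
def ee (c η : R) (r : ℕ) (S : A) (j : ℕ) : A :=
  c • ∑ i ∈ Finset.range r, (η ^ (j * i)) • S ^ i

theorem mul_ee {c η ξ : R} {r : ℕ} {S : A} (hξ : ξ * η = 1) (hη : η ^ r = 1) (hS : S ^ r = 1)
    (j : ℕ) : S * ee c η r S j = ξ ^ j • ee c η r S j := by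
  have h1 : η ^ j • (S * ee c η r S j) = ee c η r S j := by
    unfold ee
    rw [mul_smul_comm, smul_comm (η ^ j) c]
    congr 1
    rw [Finset.mul_sum, Finset.smul_sum]
    have h2 : ∀ i ∈ Finset.range r, η ^ j • (S * η ^ (j * i) • S ^ i) =
        η ^ (j * (i + 1)) • S ^ (i + 1) := by
      intro i _
      rw [mul_smul_comm, smul_smul, ← pow_add, pow_succ', mul_add, mul_one, add_comm]
    rw [Finset.sum_congr rfl h2]
    have h3 := Finset.sum_range_succ' (fun i => η ^ (j * i) • S ^ i) r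
    have h4 := Finset.sum_range_succ (fun i => η ^ (j * i) • S ^ i) r
    rw [h4] at h3
    have h5 : η ^ (j * r) • S ^ r = η ^ (j * 0) • S ^ 0 := by
      rw [mul_comm j r, pow_mul, hη, one_pow, hS, mul_zero, pow_zero, pow_zero]
    rw [h5] at h3
    exact (add_right_cancel h3).symm
  calc S * ee c η r S j = (ξ ^ j * η ^ j) • (S * ee c η r S j) := by
        rw [← mul_pow, hξ, one_pow, one_smul]
    _ = ξ ^ j • ee c η r S j := by rw [mul_smul, h1]

theorem pow_mul_ee {c η ξ : R} {r : ℕ} {S : A} (hξ : ξ * η = 1) (hη : η ^ r = 1)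
    (hS : S ^ r = 1) (j i : ℕ) : S ^ i * ee c η r S j = ξ ^ (j * i) • ee c η r S j := by
  induction i with
  | zero => simp
  | succ i ih =>
    rw [pow_succ', mul_assoc, ih, mul_smul_comm, mul_ee hξ hη hS, smul_smul, ← pow_add,
      mul_add, mul_one]

theorem ee_mul_ee {c η ξ : R} {r : ℕ} {S : A} (hξ : ξ * η = 1) (hη : η ^ r = 1)
    (hS : S ^ r = 1) (hc : c * r = 1) (j : ℕ) : ee c η r S j * ee c η r S j = ee c η r S j := by
  conv_lhs => lhs; unfold ee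
  rw [smul_mul_assoc, Finset.sum_mul]
  have h2 : ∀ i ∈ Finset.range r, (η ^ (j * i) • S ^ i) * ee c η r S j = ee c η r S j := by
    intro i _
    rw [smul_mul_assoc, pow_mul_ee hξ hη hS, smul_smul, ← mul_pow, mul_comm η, hξ, one_pow,
      one_smul]
  rw [Finset.sum_congr rfl h2, Finset.sum_const, Finset.card_range, ← Nat.cast_smul_eq_nsmul R,
    smul_smul, hc, one_smul]

theorem sum_ee [IsDomain R] {c η : R} {r : ℕ} {S : A} (hη : η ^ r = 1) (hr : 0 < r)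
    (hp : ∀ i, 0 < i → i < r → η ^ i ≠ 1) (hc : c * r = 1) :
    ∑ j ∈ Finset.range r, ee c η r S j = 1 := by
  unfold ee
  rw [← Finset.smul_sum, Finset.sum_comm]
  have h1 : ∀ i ∈ Finset.range r, ∑ j ∈ Finset.range r, η ^ (j * i) • S ^ i =
      if i = 0 then (r : R) • (1 : A) else 0 := by
    intro i hi
    rw [← Finset.sum_smul]
    by_cases h0 : i = 0
    · rw [if_pos h0, h0]
      simp
    · rw [if_neg h0]
      have h2 : (∑ j ∈ Finset.range r, η ^ (j * i)) = 0 := by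
        have h3 : ∀ j ∈ Finset.range r, η ^ (j * i) = (η ^ i) ^ j := fun j _ => by
          rw [mul_comm, pow_mul]
        rw [Finset.sum_congr rfl h3]
        have h4 := mul_geom_sum (η ^ i) r
        rw [← pow_mul, mul_comm i r, pow_mul, hη, one_pow, sub_self] at h4
        rcases mul_eq_zero.mp h4 with h5 | h5
        · exact absurd (sub_eq_zero.mp h5) (hp i (Nat.pos_of_ne_zero h0) (Finset.mem_range.mp hi))
        · exact h5
      rw [h2, zero_smul]
  rw [Finset.sum_congr rfl h1, Finset.sum_ite_eq' (Finset.range r) 0, if_pos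
    (Finset.mem_range.mpr hr), smul_smul, hc, one_smul]

theorem comm_ee {c η : R} {r : ℕ} {S B : A} (h : B * S = S * B) (j : ℕ) :
    B * ee c η r S j = ee c η r S j * B := by
  have h1 : Commute B S := h
  unfold ee
  exact (Commute.smul_right (Commute.sum_right _ _ _ fun i _ =>
    (h1.pow_right i).smul_right _) c).eq

end Cyc

/-! ### the residue field -/

section Ker

variable {F V : Type} [Field F] [AddCommGroup V] [Module F V] [FiniteDimensional F V]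

theorem dimker_step (N : Module.End F V) (i : ℕ)
    (h : ∀ v, N v = 0 → ∃ w, v = (N ^ i) w) :
    Module.finrank F (LinearMap.ker (N ^ (i + 1))) =
      Module.finrank F (LinearMap.ker (N ^ i)) + Module.finrank F (LinearMap.ker N) := by
  have hm : ∀ x ∈ LinearMap.ker (N ^ (i + 1)), (N ^ i) x ∈ LinearMap.ker N := by
    intro x hx
    rw [LinearMap.mem_ker] at hx ⊢
    rw [pow_succ'] at hx
    exact hx
  have h1 := LinearMap.finrank_range_add_finrank_ker ((N ^ i).restrict hm)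
  have hr : LinearMap.range ((N ^ i).restrict hm) = ⊤ := by
    rw [LinearMap.range_eq_top]
    rintro ⟨v, hv⟩
    obtain ⟨w, hw⟩ := h v hv
    refine ⟨⟨w, ?_⟩, ?_⟩
    · rw [LinearMap.mem_ker, pow_succ']
      show N ((N ^ i) w) = 0
      rw [← hw]
      exact hv
    · apply Subtype.ext
      rw [LinearMap.coe_restrict_apply]
      exact hw.symm
  have hk : LinearMap.ker ((N ^ i).restrict hm) =
      Submodule.comap (LinearMap.ker (N ^ (i + 1))).subtype (LinearMap.ker (N ^ i)) := by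
    ext x
    rw [LinearMap.mem_ker, Submodule.mem_comap, LinearMap.mem_ker, Subtype.ext_iff,
      LinearMap.coe_restrict_apply]
    rfl
  have hle : LinearMap.ker (N ^ i) ≤ LinearMap.ker (N ^ (i + 1)) := by
    intro x hx
    rw [LinearMap.mem_ker] at hx ⊢
    rw [pow_succ']
    show N ((N ^ i) x) = 0
    rw [hx, map_zero]
  rw [hr, hk, LinearEquiv.finrank_eq (Submodule.comapSubtypeEquivOfLe hle), finrank_top] at h1
  omega

theorem dimker (N : Module.End F V) (Q : ℕ) (hQ : 0 < Q) (hN : N ^ Q = 0)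
    (h : ∀ v, N v = 0 → ∃ w, v = (N ^ (Q - 1)) w) :
    Module.finrank F V = Q * Module.finrank F (LinearMap.ker N) := by
  have h1 : ∀ i, i ≤ Q → Module.finrank F (LinearMap.ker (N ^ i)) =
      i * Module.finrank F (LinearMap.ker N) := by
    intro i
    induction i with
    | zero =>
      intro _
      rw [pow_zero, zero_mul]
      have : LinearMap.ker (1 : Module.End F V) = ⊥ := by
        rw [LinearMap.ker_eq_bot]
        exact fun x y hxy => hxy
      rw [this, finrank_bot]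
    | succ i ih =>
      intro hi
      rw [dimker_step N i, ih (by omega), add_mul, one_mul]
      intro v hv
      obtain ⟨w, hw⟩ := h v hv
      obtain ⟨j, hj⟩ : ∃ j, Q - 1 = i + j := ⟨Q - 1 - i, by omega⟩
      refine ⟨(N ^ j) w, ?_⟩
      rw [hj, pow_add] at hw
      exact hw
  have h2 := h1 Q le_rfl
  rw [hN, LinearMap.ker_zero, finrank_top] at h2
  exact h2

end Ker

theorem kside (ℓ k d : ℕ) [Fact ℓ.Prime] (F : Type) [Field F] (hch : CharP F ℓ)
    (U E : Matrix (Fin d) (Fin d) F) (hU : U ^ ℓ ^ (k + 1) = 1) (hE : E * E = E)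
    (hUE : U * E = E * U)
    (hH : ∀ v : Fin d → F, E.mulVec v = v → (U ^ ℓ ^ k).mulVec v = v →
      ∃ w : Fin d → F, v = ∑ i ∈ Finset.range ℓ, ((U ^ ℓ ^ k) ^ i).mulVec w) :
    ∃ m, E.rank = ℓ ^ (k + 1) * m ∧ d ≤ ((U - 1) * E + (1 - E)).rank + m := by
  have hlp : ℓ.Prime := Fact.out
  have hC : (U - 1) * E = E * (U - 1) := by
    rw [sub_mul, mul_sub, hUE, one_mul, mul_one]
  obtain ⟨W, hWdef⟩ : ∃ W : Submodule F (Fin d → F), W = LinearMap.range (Matrix.toLin' E) :=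
    ⟨_, rfl⟩
  have hWmem : ∀ v, v ∈ W ↔ E.mulVec v = v := by
    intro v
    rw [hWdef, LinearMap.mem_range]
    constructor
    · rintro ⟨x, rfl⟩
      rw [Matrix.toLin'_apply, Matrix.mulVec_mulVec, hE]
    · intro h
      exact ⟨v, by rw [Matrix.toLin'_apply]; exact h⟩
  have hg : ∀ x ∈ W, Matrix.toLin' (U - 1) x ∈ W := by
    intro x hx
    rw [hWmem] at hx ⊢
    rw [Matrix.toLin'_apply, Matrix.mulVec_mulVec, ← hC, ← Matrix.mulVec_mulVec, hx]
  obtain ⟨N, hNdef⟩ : ∃ N : Module.End F W, N = (Matrix.toLin' (U - 1)).restrict hg := ⟨_, rfl⟩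
  have hN1 : ∀ x : W, ((N x : W) : Fin d → F) = (U - 1).mulVec x := by
    intro x
    rw [hNdef, LinearMap.coe_restrict_apply, Matrix.toLin'_apply]
  have hNpow : ∀ (i : ℕ) (x : W), (((N ^ i) x : W) : Fin d → F) = ((U - 1) ^ i).mulVec x := by
    intro i x
    induction i with
    | zero => simp
    | succ i ih =>
      rw [pow_succ', pow_succ', ← Matrix.mulVec_mulVec, ← ih]
      exact hN1 ((N ^ i) x)
  have hpol1 : ∀ a : ℕ, (U - 1) ^ (ℓ ^ a) = U ^ (ℓ ^ a) - 1 := by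
    intro a
    have h := congrArg (Polynomial.aeval U) (FRYX.pol_one ℓ F a)
    simpa using h
  have hpol2 : ∑ i ∈ Finset.range ℓ, (U ^ (ℓ ^ k)) ^ i = (U - 1) ^ (ℓ ^ k * (ℓ - 1)) := by
    have h := congrArg (Polynomial.aeval U) (FRYX.pol_sum ℓ F k 1)
    simpa using h
  have hNQ : N ^ (ℓ ^ (k + 1)) = 0 := by
    ext x : 2
    rw [hNpow, hpol1, hU, sub_self, Matrix.zero_mulVec]
    rfl
  have hkey : ∀ v : W, N v = 0 → ∀ j, j ≤ ℓ ^ k * ℓ - 1 → ∃ w, v = (N ^ j) w := by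
    intro v hv
    refine FRYX.key N (ℓ ^ k) ℓ (pow_pos hlp.pos k) hlp.two_le ?_ v hv
    intro u hu
    have h1 : (U ^ ℓ ^ k).mulVec (u : Fin d → F) = u := by
      have h2 := congrArg Subtype.val hu
      rw [hNpow, hpol1, Matrix.sub_mulVec, Matrix.one_mulVec] at h2
      exact sub_eq_zero.mp h2
    obtain ⟨w, hw⟩ := hH u ((hWmem _).mp u.2) h1
    have hw2 : (u : Fin d → F) = ((U - 1) ^ (ℓ ^ k * (ℓ - 1))).mulVec w := by
      rw [← hpol2, Matrix.sum_mulVec]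
      exact hw
    have hCp : ∀ a : ℕ, (U - 1) ^ a * E = E * (U - 1) ^ a := fun a =>
      (Commute.pow_left (show Commute (U - 1) E from hC) a).eq
    refine ⟨⟨E.mulVec w, ?_⟩, ?_⟩
    · rw [hWmem, Matrix.mulVec_mulVec, hE]
    · apply Subtype.ext
      rw [hNpow]
      show (u : Fin d → F) = ((U - 1) ^ (ℓ ^ k * (ℓ - 1))).mulVec (E.mulVec w)
      rw [Matrix.mulVec_mulVec, hCp, ← Matrix.mulVec_mulVec, ← hw2]
      exact ((hWmem _).mp u.2).symm
  have hQ : ℓ ^ k * ℓ = ℓ ^ (k + 1) := (pow_succ ℓ k).symm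
  have hdim := dimker N (ℓ ^ (k + 1)) (pow_pos hlp.pos _) hNQ (fun v hv => by
    have := hkey v hv (ℓ ^ k * ℓ - 1) le_rfl
    rwa [hQ] at this)
  refine ⟨Module.finrank F (LinearMap.ker N), ?_, ?_⟩
  · rw [← hdim, hWdef]
    rfl
  · obtain ⟨B, hB⟩ : ∃ B, B = (U - 1) * E + (1 - E) := ⟨_, rfl⟩
    rw [← hB]
    have h1 := LinearMap.finrank_range_add_finrank_ker (Matrix.toLin' B)
    rw [Module.finrank_fin_fun] at h1
    have h2 : B.rank = Module.finrank F (LinearMap.range (Matrix.toLin' B)) := rfl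
    rw [h2]
    have h3 : ∀ v, v ∈ LinearMap.ker (Matrix.toLin' B) → E.mulVec v = v ∧
        (U - 1).mulVec v = 0 := by
      intro v hv
      rw [LinearMap.mem_ker, Matrix.toLin'_apply, hB, Matrix.add_mulVec, Matrix.sub_mulVec,
        Matrix.one_mulVec] at hv
      have h4 := congrArg E.mulVec hv
      rw [Matrix.mulVec_add, Matrix.mulVec_sub, Matrix.mulVec_mulVec, Matrix.mulVec_mulVec,
        Matrix.mulVec_zero, hE, sub_self, add_zero, hC, ← mul_assoc, hE, ← hC] at h4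
      rw [h4, zero_add] at hv
      have h5 : E.mulVec v = v := (sub_eq_zero.mp hv).symm
      refine ⟨h5, ?_⟩
      rw [← Matrix.mulVec_mulVec, h5] at h4
      exact h4
    have h6 : Module.finrank F (LinearMap.ker (Matrix.toLin' B)) ≤
        Module.finrank F (LinearMap.ker N) := by
      have hA : ∀ v : LinearMap.ker (Matrix.toLin' B), (v : Fin d → F) ∈ W := fun v =>
        (hWmem _).mpr (h3 v v.2).1
      refine LinearMap.finrank_le_finrank_of_injective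
        (f := LinearMap.codRestrict (LinearMap.ker N)
          (LinearMap.codRestrict W (LinearMap.ker (Matrix.toLin' B)).subtype hA) ?_) ?_
      · intro v
        rw [LinearMap.mem_ker]
        apply Subtype.ext
        have h7 := hNpow 1 (LinearMap.codRestrict W (LinearMap.ker (Matrix.toLin' B)).subtype hA v)
        rw [pow_one, pow_one] at h7
        rw [h7]
        exact (h3 v v.2).2
      · intro v w hvw
        apply Subtype.ext
        exact congrArg (fun z : LinearMap.ker N => ((z : W) : Fin d → F)) hvw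
    omega

/-! ### the valuation ring -/

theorem root_mem (O : ValuationSubring ℂ) (z : ℂ) (n : ℕ) (hn : 0 < n) (hz : z ^ n = 1) :
    z ∈ O := by
  rcases O.mem_or_inv_mem z with h | h
  · exact h
  · have h0 : z ≠ 0 := by
      rintro rfl
      rw [zero_pow (by omega)] at hz
      exact one_ne_zero hz.symm
    obtain ⟨m, rfl⟩ : ∃ m, n = m + 1 := ⟨n - 1, by omega⟩
    have h2 : z = (z⁻¹) ^ m := by
      rw [inv_pow]
      apply eq_inv_of_mul_eq_one_left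
      rw [← pow_succ', hz]
    rw [h2]
    exact pow_mem h m

theorem trace_idem {d : ℕ} (A : Matrix (Fin d) (Fin d) ℂ) (hA : A * A = A) :
    A.trace = (A.rank : ℂ) := by
  have h1 : IsIdempotentElem (Matrix.toLin' A) := by
    show Matrix.toLin' A * Matrix.toLin' A = Matrix.toLin' A
    rw [Module.End.mul_eq_comp, ← Matrix.toLin'_mul, hA]
  have h2 := (LinearMap.isProj_range_iff_isIdempotentElem (Matrix.toLin' A)).mpr h1
  have h3 := h2.trace
  rw [Matrix.trace_toLin'_eq] at h3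
  exact h3

theorem core (h1 : Stmt_RKOX) (O : ValuationSubring ℂ) (ℓ k d : ℕ) [Fact ℓ.Prime]
    (hch : CharP (IsLocalRing.ResidueField O) ℓ) (U E : Matrix (Fin d) (Fin d) O)
    (hU : U ^ ℓ ^ (k + 1) = 1) (hE : E * E = E) (hUE : U * E = E * U)
    (hH : ∀ v : Fin d → IsLocalRing.ResidueField O,
      (E.map (IsLocalRing.residue O)).mulVec v = v →
      (((U ^ ℓ ^ k).map (IsLocalRing.residue O)).mulVec v = v) →
      ∃ w : Fin d → IsLocalRing.ResidueField O,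
        v = ∑ i ∈ Finset.range ℓ, (((U ^ ℓ ^ k) ^ i).map (IsLocalRing.residue O)).mulVec w) :
    (U * E).trace = 0 := by
  have hlp : ℓ.Prime := Fact.out
  obtain ⟨Q, hQ⟩ : ∃ Q, Q = ℓ ^ (k + 1) := ⟨_, rfl⟩
  have hQ1 : 1 < Q := by
    rw [hQ]
    exact Nat.one_lt_pow (by omega) hlp.one_lt
  have hQ0 : 0 < Q := by omega
  -- the residue field
  obtain ⟨ρ, hρ⟩ : ∃ ρ : Matrix (Fin d) (Fin d) O →+*
      Matrix (Fin d) (Fin d) (IsLocalRing.ResidueField O),
      ρ = (IsLocalRing.residue O).mapMatrix := ⟨_, rfl⟩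
  have hρa : ∀ M, ρ M = M.map (IsLocalRing.residue O) := fun M => by rw [hρ]; rfl
  obtain ⟨m, hm1, hm2⟩ := kside ℓ k d (IsLocalRing.ResidueField O) hch (ρ U) (ρ E)
    (by rw [← map_pow, hU, map_one]) (by rw [← map_mul, hE]) (by rw [← map_mul, hUE, map_mul])
    (by
      intro v hv hv'
      rw [hρa] at hv
      rw [← map_pow, hρa] at hv'
      obtain ⟨w, hw⟩ := hH v hv hv'
      refine ⟨w, hw.trans (Finset.sum_congr rfl fun i _ => ?_)⟩
      rw [← hρa, map_pow, map_pow])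
  rw [← hQ] at hm1
  -- the complex numbers
  obtain ⟨ι, hι⟩ : ∃ ι : Matrix (Fin d) (Fin d) O →+* Matrix (Fin d) (Fin d) ℂ,
      ι = O.subtype.mapMatrix := ⟨_, rfl⟩
  have hιa : ∀ M, ι M = M.map (fun x : O => (x : ℂ)) := fun M => by rw [hι]; rfl
  have hrk : ∀ A : Matrix (Fin d) (Fin d) O, (ρ A).rank ≤ (ι A).rank ∧
      (A * A = A → (ρ A).rank = (ι A).rank) := by
    intro A
    rw [hρa, hιa]
    exact h1 O d A
  -- the roots of unity
  obtain ⟨ζ, hζ⟩ : ∃ ζ : ℂ, IsPrimitiveRoot ζ Q :=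
    ⟨_, Complex.isPrimitiveRoot_exp Q (by omega)⟩
  have hζQ : ζ ^ Q = 1 := hζ.pow_eq_one
  have hζ0 : ζ ≠ 0 := hζ.ne_zero (by omega)
  obtain ⟨z, hz⟩ : ∃ z : O, (z : ℂ) = ζ := ⟨⟨ζ, root_mem O ζ Q hQ0 hζQ⟩, rfl⟩
  have hzQ : z ^ Q = 1 := by
    apply Subtype.ext
    show (z : ℂ) ^ Q = 1
    rw [hz, hζQ]
  have hzr : IsLocalRing.residue O z = 1 := by
    have h2 : (IsLocalRing.residue O z - 1) ^ Q = 0 := by
      rw [hQ, sub_pow_char_pow, one_pow, ← map_pow, ← hQ, hzQ, map_one, sub_self]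
    exact sub_eq_zero.mp (pow_eq_zero_iff (by omega) |>.mp h2)
  have hηQ : (ζ⁻¹) ^ Q = 1 := by rw [inv_pow, hζQ, inv_one]
  have hηp : ∀ i, 0 < i → i < Q → (ζ⁻¹) ^ i ≠ 1 := by
    intro i hi hi' h
    rw [inv_pow, inv_eq_one] at h
    exact hζ.pow_ne_one_of_pos_of_lt (by omega) hi' h
  have hc : ((Q : ℂ)⁻¹) * (Q : ℂ) = 1 := inv_mul_cancel₀ (by
    rw [Nat.cast_ne_zero]; omega)
  have hιU : (ι U) ^ Q = 1 := by rw [← map_pow, hQ, hU, map_one]
  have hζη : ζ * ζ⁻¹ = 1 := mul_inv_cancel₀ hζ0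
  obtain ⟨P, hP⟩ : ∃ P : ℕ → Matrix (Fin d) (Fin d) ℂ, P = ee ((Q : ℂ)⁻¹) ζ⁻¹ Q (ι U) :=
    ⟨_, rfl⟩
  have hUP : ∀ j, ι U * P j = ζ ^ j • P j := fun j => by
    rw [hP]; exact mul_ee hζη hηQ hιU j
  have hPP : ∀ j, P j * P j = P j := fun j => by
    rw [hP]; exact ee_mul_ee hζη hηQ hιU hc j
  have hPs : ∑ j ∈ Finset.range Q, P j = 1 := by
    rw [hP]; exact sum_ee hηQ hQ0 hηp hc
  have hEP : ∀ j, ι E * P j = P j * ι E := fun j => by
    rw [hP]
    exact comm_ee (by rw [← map_mul, ← hUE, map_mul]) j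
  have hEE : ι E * ι E = ι E := by rw [← map_mul, hE]
  have hidem : ∀ j, (ι E * P j) * (ι E * P j) = ι E * P j := by
    intro j
    calc (ι E * P j) * (ι E * P j) = ι E * (P j * ι E) * P j := by noncomm_ring
      _ = (ι E * ι E) * (P j * P j) := by rw [← hEP]; noncomm_ring
      _ = ι E * P j := by rw [hEE, hPP]
  have htr : ∀ j, (ι E * P j).trace = ((ι E * P j).rank : ℂ) := fun j => trace_idem _ (hidem j)
  -- the bound for the ranks
  have hbd : ∀ j, (ι E * P j).rank ≤ m := by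
    intro j
    have h2 : ι ((U - Matrix.scalar (Fin d) (z ^ j)) * E + (1 - E)) * (ι E * P j) = 0 := by
      have h3 : ι (Matrix.scalar (Fin d) (z ^ j)) = Matrix.scalar (Fin d) (ζ ^ j) := by
        rw [hιa]
        ext a b
        simp only [Matrix.map_apply, Matrix.scalar_apply, Matrix.diagonal_apply]
        split_ifs
        · rw [← hz]
          rfl
        · rfl
      rw [map_add, map_mul, map_sub, map_sub, map_one, h3]
      have h4 : Matrix.scalar (Fin d) (ζ ^ j) * (ι E * P j) = ζ ^ j • (ι E * P j) := by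
        rw [Matrix.scalar_apply, ← Matrix.smul_one_eq_diagonal, smul_mul_assoc, one_mul]
      calc ((ι U - Matrix.scalar (Fin d) (ζ ^ j)) * ι E + (1 - ι E)) * (ι E * P j)
          = (ι U - Matrix.scalar (Fin d) (ζ ^ j)) * ((ι E * ι E) * P j) +
            (ι E - ι E * ι E) * P j := by noncomm_ring
        _ = (ι U * ι E) * P j - Matrix.scalar (Fin d) (ζ ^ j) * (ι E * P j) := by
            rw [hEE]; noncomm_ring
        _ = (ι E * (ι U * P j)) - ζ ^ j • (ι E * P j) := by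
            rw [h4, ← map_mul, hUE, map_mul, mul_assoc]
        _ = 0 := by rw [hUP, mul_smul_comm, sub_self]
    have h5 := Matrix.rank_add_rank_le_card_of_mul_eq_zero h2
    rw [Fintype.card_fin] at h5
    have h6 := (hrk ((U - Matrix.scalar (Fin d) (z ^ j)) * E + (1 - E))).1
    have h7 : ρ ((U - Matrix.scalar (Fin d) (z ^ j)) * E + (1 - E)) =
        (ρ U - 1) * ρ E + (1 - ρ E) := by
      have h8 : ρ (Matrix.scalar (Fin d) (z ^ j)) = 1 := by
        rw [hρa]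
        ext a b
        simp only [Matrix.map_apply, Matrix.scalar_apply, Matrix.diagonal_apply, Matrix.one_apply]
        split_ifs
        · rw [map_pow, hzr, one_pow]
        · rw [map_zero]
      rw [map_add, map_mul, map_sub, map_sub, map_one, h8]
    rw [h7] at h6
    omega
  -- the sum of the ranks
  have hsum : ∑ j ∈ Finset.range Q, (ι E * P j).rank = Q * m := by
    have h2 : ((∑ j ∈ Finset.range Q, (ι E * P j).rank : ℕ) : ℂ) = ((ι E).rank : ℂ) := by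
      rw [Nat.cast_sum, ← trace_idem _ hEE]
      calc ∑ j ∈ Finset.range Q, ((ι E * P j).rank : ℂ)
          = ∑ j ∈ Finset.range Q, (ι E * P j).trace :=
            Finset.sum_congr rfl fun j _ => (htr j).symm
        _ = (ι E * ∑ j ∈ Finset.range Q, P j).trace := by
            rw [Finset.mul_sum, Matrix.trace_sum]
        _ = (ι E).trace := by rw [hPs, mul_one]
    have h3 := Nat.cast_injective h2
    rw [h3, ← (hrk E).2 hE, hm1]
  have heq : ∀ j ∈ Finset.range Q, (ι E * P j).rank = m := by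
    have h2 := (Finset.sum_eq_sum_iff_of_le (s := Finset.range Q)
      (f := fun j => (ι E * P j).rank) (g := fun _ => m) (fun j _ => hbd j)).mp (by
        rw [hsum, Finset.sum_const, Finset.card_range, smul_eq_mul])
    exact h2
  -- the trace
  have hfin : (ι (U * E)).trace = 0 := by
    rw [map_mul]
    calc (ι U * ι E).trace = (∑ j ∈ Finset.range Q, ζ ^ j • (ι E * P j)).trace := by
          congr 1
          calc ι U * ι E = (ι U * ι E) * ∑ j ∈ Finset.range Q, P j := by rw [hPs, mul_one]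
            _ = ∑ j ∈ Finset.range Q, (ι U * ι E) * P j := by rw [Finset.mul_sum]
            _ = ∑ j ∈ Finset.range Q, ζ ^ j • (ι E * P j) := by
                apply Finset.sum_congr rfl
                intro j _
                rw [← map_mul, hUE, map_mul, mul_assoc, hUP, mul_smul_comm]
      _ = ∑ j ∈ Finset.range Q, ζ ^ j * (m : ℂ) := by
          rw [Matrix.trace_sum]
          apply Finset.sum_congr rfl
          intro j hj
          rw [Matrix.trace_smul, htr, heq j hj, smul_eq_mul]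
      _ = 0 := by
          rw [← Finset.sum_mul, hζ.geom_sum_eq_zero hQ1, zero_mul]
  apply Subtype.ext
  have h2 : ((U * E).trace : ℂ) = (ι (U * E)).trace := by
    rw [hι]
    exact AddMonoidHom.map_trace O.subtype (U * E)
  rw [h2, hfin]
  rfl

end VANX

open _root_.Pool.Agent.DPX.VANX in
theorem VANX_thm (h1 : Stmt_RKOX) : Stmt_VANX := by
  intro O ℓ k r d _ hch hr U S J hU hS hJ hUS hUJ hSJ hH
  have hlp : ℓ.Prime := Fact.out
  have hr0 : 0 < r := Nat.pos_of_ne_zero (by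
    rintro rfl
    exact hr (dvd_zero ℓ))
  obtain ⟨ζ, hζ⟩ : ∃ ζ : ℂ, IsPrimitiveRoot ζ r :=
    ⟨_, Complex.isPrimitiveRoot_exp r (by omega)⟩
  have hζr : ζ ^ r = 1 := hζ.pow_eq_one
  have hζ0 : ζ ≠ 0 := hζ.ne_zero (by omega)
  have hηr : (ζ⁻¹) ^ r = 1 := by rw [inv_pow, hζr, inv_one]
  obtain ⟨z, hz⟩ : ∃ z : O, (z : ℂ) = ζ := ⟨⟨ζ, root_mem O ζ r hr0 hζr⟩, rfl⟩
  obtain ⟨y, hy⟩ : ∃ y : O, (y : ℂ) = ζ⁻¹ := ⟨⟨ζ⁻¹, root_mem O ζ⁻¹ r hr0 hηr⟩, rfl⟩
  have hzy : z * y = 1 := by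
    apply Subtype.ext
    show (z : ℂ) * y = 1
    rw [hz, hy, mul_inv_cancel₀ hζ0]
  have hyr : y ^ r = 1 := by
    apply Subtype.ext
    show (y : ℂ) ^ r = 1
    rw [hy, hηr]
  have hyp : ∀ i, 0 < i → i < r → y ^ i ≠ 1 := by
    intro i hi hi' h
    have h2 : (ζ⁻¹) ^ i = 1 := by
      rw [← hy]
      exact congrArg Subtype.val h
    rw [inv_pow, inv_eq_one] at h2
    exact hζ.pow_ne_one_of_pos_of_lt (by omega) hi' h2
  have hru : IsUnit (r : O) := by
    by_contra hcon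
    have h2 : (r : O) ∈ IsLocalRing.maximalIdeal O := (IsLocalRing.mem_maximalIdeal _).mpr hcon
    rw [← IsLocalRing.residue_eq_zero_iff, map_natCast] at h2
    exact hr ((CharP.cast_eq_zero_iff _ ℓ r).mp h2)
  obtain ⟨c, hc⟩ := hru.exists_left_inv
  obtain ⟨P, hP⟩ : ∃ P : ℕ → Matrix (Fin d) (Fin d) O, P = ee c y r S := ⟨_, rfl⟩
  have hSP : ∀ j, S * P j = z ^ j • P j := fun j => by rw [hP]; exact mul_ee hzy hyr hS j
  have hPP : ∀ j, P j * P j = P j := fun j => by rw [hP]; exact ee_mul_ee hzy hyr hS hc j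
  have hPs : ∑ j ∈ Finset.range r, P j = 1 := by rw [hP]; exact sum_ee hyr hr0 hyp hc
  have hJP : ∀ j, J * P j = P j * J := fun j => by rw [hP]; exact comm_ee hSJ.symm j
  have hUP : ∀ j, U * P j = P j * U := fun j => by rw [hP]; exact comm_ee hUS j
  have hz0 : ∀ j, (U * (P j * J)).trace = 0 := by
    intro j
    refine core h1 O ℓ k d hch U (P j * J) hU ?_ ?_ ?_
    · calc P j * J * (P j * J) = P j * (J * P j) * J := by noncomm_ring
        _ = (P j * P j) * (J * J) := by rw [hJP]; noncomm_ring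
        _ = P j * J := by rw [hPP, hJ]
    · calc U * (P j * J) = (U * P j) * J := by noncomm_ring
        _ = P j * (U * J) := by rw [hUP]; noncomm_ring
        _ = P j * J * U := by rw [hUJ]; noncomm_ring
    · intro v hv hv'
      refine hH v ?_ hv'
      have h2 : J * (P j * J) = P j * J := by
        rw [← mul_assoc, hJP, mul_assoc, hJ]
      have h3 := congrArg (fun M : Matrix (Fin d) (Fin d) O => M.map (IsLocalRing.residue O)) h2
      simp only [Matrix.map_mul] at h3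
      conv_lhs => rw [← hv]
      rw [Matrix.mulVec_mulVec, Matrix.map_mul, h3, ← Matrix.map_mul, hv]
  calc (U * S * J).trace = (∑ j ∈ Finset.range r, z ^ j • (U * (P j * J))).trace := by
        congr 1
        calc U * S * J = U * (S * ∑ j ∈ Finset.range r, P j) * J := by
              rw [hPs, mul_one]
          _ = ∑ j ∈ Finset.range r, U * (S * P j) * J := by
              rw [Finset.mul_sum, Finset.mul_sum, Finset.sum_mul]
          _ = _ := by
              apply Finset.sum_congr rfl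
              intro j _
              rw [hSP, mul_smul_comm, smul_mul_assoc, mul_assoc]
    _ = 0 := by
        rw [Matrix.trace_sum]
        apply Finset.sum_eq_zero
        intro j _
        rw [Matrix.trace_smul, hz0, smul_zero]

end Pool.Agent.DPX


end

section

/-!
# A normal subgroup with quotient in the class which lies in the support of the block (OUT2)
-/

namespace Pool.Agent.DPT

open Pool.Agent.DP Pool.Agent.DPC Pool.Agent.DPM Pool.Agent.DPN Pool.Agent.Lib_helper13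
open Representation
open Pool.Agent.Lib_helper13.Dade (pCore DadeHolds dadeSum)

namespace OUT2

section Cent

variable {X : Type} [Group X] [Fintype X]

theorem cjT_top (x g : X) : cjT (⊤ : Subgroup X) x g = conjInd x g := by
  classical
  rw [cjT, conjInd]
  by_cases hc : IsConj x g
  · obtain ⟨t, ht⟩ := isConj_iff.mp hc.symm
    rw [if_pos hc, if_pos ⟨t, Subgroup.mem_top t, ht.symm⟩]
  · rw [if_neg hc, if_neg]
    rintro ⟨t, _, ht⟩
    exact hc (isConj_iff.2 ⟨t, ht.symm⟩).symm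

theorem cgT_eq (𝔐 : Ideal (integralClosure ℤ ℂ)) (T S : Subgroup X) {ψ : X → ℂ}
    (h : ∀ x, x ∉ S → ψ x = 0) (g : X) :
    cgT 𝔐 T ψ g = red 𝔐 (wt (fun s : S => ψ s) (fun s => cjT T (s : X) g)) := by
  classical
  have h1 : ∑ x : X, cjT T x g * ψ x = ∑ s : S, cjT T (s : X) g * ψ s := by
    symm
    refine Fintype.sum_of_injective (fun s : S => (s : X)) Subtype.val_injective _ _ ?_
      (fun s => rfl)
    intro x hx
    rw [h x (fun h2 => hx ⟨⟨x, h2⟩, rfl⟩), mul_zero]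
  rw [cgT, wt, h1]
  rfl

theorem cen_top (𝔐 : Ideal (integralClosure ℤ ℂ)) (S : Subgroup X) {ψ : X → ℂ}
    (h : ∀ x, x ∉ S → ψ x = 0) (g : X) :
    cen 𝔐 S.subtype (fun s : S => ψ s) g = cgT 𝔐 ⊤ ψ g := by
  rw [cgT_eq 𝔐 ⊤ S h, cen]
  congr 2
  funext s
  rw [cjT_top]
  rfl

theorem cen_id (𝔐 : Ideal (integralClosure ℤ ℂ)) (S : Subgroup X) {ψ : X → ℂ}
    (h : ∀ x, x ∉ S → ψ x = 0) (g : S) :
    cen 𝔐 (MonoidHom.id S) (fun s : S => ψ s) g = cgT 𝔐 S ψ g := by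
  classical
  rw [cgT_eq 𝔐 S S h, cen]
  congr 2
  funext s
  rw [MonoidHom.id_apply, cjT, conjInd]
  by_cases hc : IsConj s g
  · obtain ⟨t, ht⟩ := isConj_iff.mp hc.symm
    rw [if_pos hc, if_pos ⟨(t : X), t.2, (congrArg Subtype.val ht).symm⟩]
  · rw [if_neg hc, if_neg]
    rintro ⟨t, ht, h'⟩
    exact hc (isConj_iff.2 ⟨⟨t, ht⟩, Subtype.ext h'.symm⟩).symm

theorem cjT_move {N : Subgroup X} [N.Normal] (g x y : X) :
    cjT N (g * x * g⁻¹) (g * y * g⁻¹) = cjT N x y := by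
  classical
  rw [cjT, cjT]
  by_cases hc : ∃ t ∈ N, x = t * y * t⁻¹
  · rw [if_pos hc, if_pos]
    obtain ⟨t, ht, rfl⟩ := hc
    exact ⟨g * t * g⁻¹, Subgroup.Normal.conj_mem ‹N.Normal› t ht g, by group⟩
  · rw [if_neg hc, if_neg]
    rintro ⟨t, ht, h⟩
    apply hc
    refine ⟨g⁻¹ * t * g, by
      simpa using Subgroup.Normal.conj_mem ‹N.Normal› t ht g⁻¹, ?_⟩
    have h1 : x = g⁻¹ * (g * x * g⁻¹) * g := by group
    rw [h1, h]
    group

theorem cgT_move (𝔐 : Ideal (integralClosure ℤ ℂ)) {N : Subgroup X} [N.Normal] (ξ : X → ℂ)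
    (g y : X) : cgT 𝔐 N (fun x => ξ (g * x * g⁻¹)) y = cgT 𝔐 N ξ (g * y * g⁻¹) := by
  rw [cgT, cgT]
  have h1 : ∑ x, cjT N x y * ξ (g * x * g⁻¹) = ∑ x, cjT N x (g * y * g⁻¹) * ξ x := by
    refine Fintype.sum_equiv (MulAut.conj g).toEquiv _ _ fun x => ?_
    change _ = cjT N (g * x * g⁻¹) (g * y * g⁻¹) * ξ (g * x * g⁻¹)
    rw [cjT_move]
  rw [h1]
  simp

/-- Two stable characters of a normal subgroup with the same central function on the group have
the same weights. -/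
theorem same (h8 : Stmt_CVX) (𝔐 : Ideal (integralClosure ℤ ℂ)) (ℓ : ℕ) [Fact ℓ.Prime]
    (hM : 𝔐.IsMaximal) (hℓ : (ℓ : integralClosure ℤ ℂ) ∈ 𝔐) (N : Subgroup X) (hN : N.Normal)
    {ξ ξ₁ : X → ℂ} (hξ : IrrOn N ξ) (hξ₁ : IrrOn N ξ₁)
    (hag : ∀ x ∈ N, cgT 𝔐 ⊤ ξ x = cgT 𝔐 ⊤ ξ₁ x) (hst : sx (cgT 𝔐 N ξ₁) = ⊤) (F : X → ℂ)
    (hF : ∀ a ∈ N, ∀ z, F (a * z * a⁻¹) = F z) (hi : ∀ z, IsIntegral ℤ (F z)) :
    red 𝔐 (wS N ξ F) = red 𝔐 (wS N ξ₁ F) := by
  have hprime : 𝔐.IsPrime := hM.isPrime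
  obtain ⟨x, -, hx2, -⟩ := h8 X 𝔐 ℓ hM hℓ N (fun n : N => ξ n) (fun n : N => ξ₁ n) hξ.1 hξ₁.1
    (by
      intro g hg
      rw [cen_top 𝔐 N hξ.2, cen_top 𝔐 N hξ₁.2]
      exact hag g hg)
  have hx3 : cen 𝔐 (MonoidHom.id N) (fun n : N => ξ n) =
      cen 𝔐 (MonoidHom.id N) (fun n : N => ξ₁ n) := by
    rw [← hx2]
    funext g
    have hout : ∀ z, z ∉ N → (fun y => ξ₁ (x * y * x⁻¹)) z = 0 := by
      intro z hz
      apply hξ₁.2
      intro hc
      apply hz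
      have := hN.conj_mem _ hc x⁻¹
      have h1 : x⁻¹ * (x * z * x⁻¹) * x⁻¹⁻¹ = z := by group
      rwa [h1] at this
    have e1 := cen_id 𝔐 N (ψ := fun y => ξ₁ (x * y * x⁻¹)) hout g
    have e2 := cen_id 𝔐 N (ψ := ξ₁) hξ₁.2 g
    have e3 := cgT_move 𝔐 (N := N) ξ₁ x (g : X)
    have hxs : x ∈ sx (cgT 𝔐 N ξ₁) := by
      rw [hst]
      exact Subgroup.mem_top x
    have e4 := mem_sx.1 hxs (g : X)
    rw [e2, ← e4, ← e3, ← e1]
    rfl
  have e1 := red_wt_eq_pair 𝔐 (MonoidHom.id N) hξ.1 (fun n : N => F n)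
    (fun g y => by
      have := hF g g.2 (y : X)
      rw [Subgroup.coe_mul, Subgroup.coe_mul, Subgroup.coe_inv]
      exact this) (fun n => hi _)
  have e2 := red_wt_eq_pair 𝔐 (MonoidHom.id N) hξ₁.1 (fun n : N => F n)
    (fun g y => by
      have := hF g g.2 (y : X)
      rw [Subgroup.coe_mul, Subgroup.coe_mul, Subgroup.coe_inv]
      exact this) (fun n => hi _)
  rw [hx3] at e1
  exact e1.trans e2.symm

/-- The product of invariant functions is invariant. -/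
theorem conv_inv (N : Subgroup X) {u v : X → ℤ} (hu : ∀ a ∈ N, ∀ z, u (a * z * a⁻¹) = u z)
    (hv : ∀ a ∈ N, ∀ z, v (a * z * a⁻¹) = v z) (a : X) (ha : a ∈ N) (z : X) :
    conv u v (a * z * a⁻¹) = conv u v z :=
  KEYN.aiv_conv N.subtype (u := u) (v := v) (fun a x => hu a a.2 x) (fun a x => hv a a.2 x)
    ⟨a, ha⟩ z

end Cent

/-- The elements for the next step. -/
theorem core (h3 : Stmt_OUTM) (h6 : Stmt_KEYN) (X : Type) [Group X] [Fintype X]
    (𝔐 : Ideal (integralClosure ℤ ℂ)) (ℓ : ℕ) [Fact ℓ.Prime] (hM : 𝔐.IsMaximal)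
    (hℓ : (ℓ : integralClosure ℤ ℂ) ∈ 𝔐) (N O : Subgroup X) (hN : N.Normal) (hO : O.Normal)
    (hNO : N ≤ O) (hpow : ∀ x ∈ O, ∃ n : ℕ, x ^ ℓ ^ n ∈ N) (H W : Type) [Group H] [Fintype H]
    [Group W] [Fintype W] (p : X →* H) (c : X →* MulAut O) (h : ClG O.subtype c p) (d : ℕ)
    (Z : Subgroup O) (π : W →* H) (R : Subgroup W)
    (μ : ∀ τ : Finset (Subgroup O), (stb τ → ℂ) → (π.ker →* ℂˣ))
    (Lm : ∀ τ : Finset (Subgroup O), (stb τ → ℂ) → (YS O.subtype τ → ℤ) → W →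
        (integralClosure ℤ ℂ) ⧸ 𝔐) (τ : Finset (Subgroup O)) (θ : stb τ → ℂ)
    (hF : Fam h 𝔐 ℓ d Z (cen 𝔐 (stb τ).subtype θ) π R μ Lm)
    (hP : Pr h 𝔐 ℓ d Z (cen 𝔐 (stb τ).subtype θ) τ θ) (χ : O → ℂ) (hχ : IsIrr χ)
    (hχθ : cen 𝔐 (MonoidHom.id O) χ = cen 𝔐 (stb τ).subtype θ) (ξ : X → ℂ) (hξ : IrrOn N ξ)
    (hip : ip (fun n : N.subgroupOf O => χ n) (fun n : N.subgroupOf O => ξ (n : O)) ≠ 0)
    (hst : O ≤ sx (cgT 𝔐 N ξ)) (x : X) (r : W) (hr : r ∈ R) (hx : p x = π r) :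
    ∃ y y', x⁻¹ * y ∈ O ∧ x * y' ∈ O ∧ (∀ o ∈ O, ∃ n ∈ N, o * y * o⁻¹ = n * y * n⁻¹) ∧
      (∀ o ∈ O, ∃ n ∈ N, o * y' * o⁻¹ = n * y' * n⁻¹) ∧
      red 𝔐 (wt χ (fun o => ((conv (clO O y) (clO O y') (o : X) : ℤ) : ℂ))) ≠ 0 := by
  have hprime : 𝔐.IsPrime := hM.isPrime
  have hker : ∀ y, p y = 1 → y ∈ O := by
    intro y hy
    have := (h.ker y).1 hy
    rwa [Subgroup.range_subtype] at this
  obtain ⟨u, hu1, hu2, hu3⟩ := (hF.mem τ θ hP r).1 hr
  obtain ⟨v, hv1, hv2, hv3⟩ := (hF.mem τ θ hP r⁻¹).1 (inv_mem hr)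
  have hk := h6 O X H W 𝔐 ℓ hM hℓ O.subtype c p h d Z (cen 𝔐 (stb τ).subtype θ) τ θ hP π
    (μ τ θ) (Lm τ θ) (hF.rds τ θ hP) [(u, r), (v, r⁻¹)]
    (by
      intro z hz
      rcases List.mem_cons.1 hz with rfl | hz
      · exact ⟨hu1, hu2⟩
      · rw [List.mem_singleton.1 hz]
        exact ⟨hv1, hv2⟩)
    (by
      simp)
  simp only [List.map_cons, List.map_nil, List.prod_cons, List.prod_nil, mul_one] at hk
  rw [OUT1.pl_two] at hk
  have hcl : ∀ g y : O, ((conv u v (O.subtype (g * y * g⁻¹)) : ℤ) : ℂ) =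
      ((conv u v (O.subtype y) : ℤ) : ℂ) := by
    intro g y
    have := KEYN.aiv_conv O.subtype hu1 hv1 g (O.subtype y)
    rw [map_mul, map_mul, map_inv, this]
  have hw := red_wt_eq_pair 𝔐 (MonoidHom.id O) hχ
    (fun o : O => ((conv u v (O.subtype o) : ℤ) : ℂ)) hcl
    (fun y => isIntegral_algebraMap (R := ℤ) (x := conv u v (O.subtype y)))
  rw [hχθ, ← hk] at hw
  refine h3 X 𝔐 ℓ hM hℓ N O hN hO hNO hpow χ hχ ξ hξ hip hst x u v ?_ ?_ ?_ ?_ ?_
  · intro a ha y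
    exact hu1 ⟨a, ha⟩ y
  · intro a ha y
    exact hv1 ⟨a, ha⟩ y
  · intro y hy
    apply hker
    by_contra hne
    apply hy
    apply hu2
    intro h'
    apply hne
    rw [map_mul, map_inv, h', hx, inv_mul_cancel]
  · intro y hy
    apply hker
    by_contra hne
    apply hy
    apply hv2
    intro h'
    apply hne
    rw [map_mul, h', hx, map_inv, mul_inv_cancel]
  · change red 𝔐 (wt χ (fun o : O => ((conv u v (O.subtype (MonoidHom.id O o)) : ℤ) : ℂ))) ≠ 0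
    rw [hw]
    have hdom : IsDomain ((integralClosure ℤ ℂ) ⧸ 𝔐) := Ideal.Quotient.isDomain 𝔐
    exact mul_ne_zero hu3 hv3

/-- Elements which commute with `O` modulo `N`. -/
theorem comm_of {X : Type} [Group X] {N O : Subgroup X} (hN : N.Normal) {y : X}
    (h : ∀ o ∈ O, ∃ n ∈ N, o * y * o⁻¹ = n * y * n⁻¹) : ∀ o ∈ O, y * o * y⁻¹ * o⁻¹ ∈ N := by
  intro o ho
  obtain ⟨n, hn, h1⟩ := h o ho
  -- `o y o⁻¹ = n y n⁻¹`, so `y (o y⁻¹ o⁻¹) = y n y⁻¹ n⁻¹`
  have h2 : y * o * y⁻¹ * o⁻¹ = y * (o * y * o⁻¹)⁻¹ := by group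
  rw [h2, h1]
  have h3 : y * (n * y * n⁻¹)⁻¹ = (y * n * y⁻¹) * n⁻¹ := by group
  rw [h3]
  exact N.mul_mem (hN.conj_mem n hn y) (N.inv_mem hn)

end OUT2

open OUT1 _root_.Pool.Agent.DPT.OUT2 in
theorem OUT2_thm (h1 : Stmt_OUTF) (h2 : Stmt_FINN) (h3 : Stmt_OUTM) (h4 : Stmt_OUTS)
    (h5 : Stmt_OUTH) (h6 : Stmt_STB) (h7 : Stmt_KEYN) (h8 : Stmt_CVX) (h9 : Stmt_SUMM) :
    Stmt_OUT2 := by
  intro X _ _ 𝔐 ℓ _ hM hℓ hc hQ d ω hd hK N hN hlt
  have hprime : 𝔐.IsPrime := hM.isPrime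
  have hPn := PP_normal ℓ N
  have hNP := le_PP ℓ N
  have hfin : Fintype (X ⧸ PP ℓ N) := Fintype.ofFinite _
  have hcP : pCore ℓ X ≤ PP ℓ N := hc.trans (hlt.le.trans hNP)
  have hmap : ((pCore ℓ X).subgroupOf (PP ℓ N)).map (PP ℓ N).subtype = pCore ℓ X :=
    Subgroup.map_subgroupOf_eq_of_le hcP
  have hi : (Subgroup.center X).index ≠ 0 := Subgroup.index_ne_zero_of_finite
  have hlt' : N.index < (Subgroup.center X).index := Subgroup.index_strictAnti hlt
  have hle : (PP ℓ N).index ≤ N.index :=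
    Nat.le_of_dvd (Nat.pos_of_ne_zero Subgroup.index_ne_zero_of_finite)
      (Subgroup.index_dvd_of_le hNP)
  have hd' : padicValNat ℓ (Nat.card ((pCore ℓ X).subgroupOf (PP ℓ N))) < d := by
    rw [Nat.card_congr (Subgroup.subgroupOfEquivOfLe hcP).toEquiv]
    exact hd
  have hK' : DK 𝔐 ℓ d (((pCore ℓ X).subgroupOf (PP ℓ N)).map (PP ℓ N).subtype)
      (MonoidHom.id X) {ω} ≠ 0 := by
    rw [hmap, DK_eq]
    exact hK
  have hr : Subgroup.center X ≤ (PP ℓ N).subtype.range := by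
    rw [Subgroup.range_subtype]
    exact hlt.le.trans hNP
  have hcard : Nat.card (X ⧸ PP ℓ N) ≤ (Subgroup.center X).index - 1 := by
    rw [← Subgroup.index_eq_card]
    omega
  have hZp : IsPGroup ℓ ((pCore ℓ X).subgroupOf (PP ℓ N)) :=
    (isPGroup_pCore (G := X) ℓ).comap_subtype
  have hcore := core_quot ℓ N (PP ℓ N) rfl
  have hF := h2 (PP ℓ N) X (X ⧸ PP ℓ N) 𝔐 ℓ hM hℓ (PP ℓ N).subtype
    (MulAut.conjNormal (H := PP ℓ N)) (QuotientGroup.mk' (PP ℓ N)) (clG X (PP ℓ N))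
    (QuotientGroup.mk'_surjective _) hcore ((Subgroup.center X).index - 1) hQ hr
    (by omega) hcard ((pCore ℓ X).subgroupOf (PP ℓ N)) hZp (by rw [hmap]; exact hc) d ω hd' hK'
  obtain ⟨W, _, _, π, R, μ, Lm, τ, θ, hFam, hPr, hω, hcom, -⟩ := h1 (PP ℓ N) X (X ⧸ PP ℓ N)
    𝔐 ℓ hM hℓ (PP ℓ N).subtype
    (MulAut.conjNormal (H := PP ℓ N)) (QuotientGroup.mk' (PP ℓ N)) (clG X (PP ℓ N))
    (QuotientGroup.mk'_surjective _) hcore ((Subgroup.center X).index - 1) hQ hr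
    (by omega) hcard ((pCore ℓ X).subgroupOf (PP ℓ N)) hZp (by rw [hmap]; exact hc) d ω hd' hK'
  obtain ⟨χ, hχ, hχθ⟩ := exists_irr_of_mult 𝔐 hPr.irr
    (exists_irr_of_chain 𝔐 hℓ (mem_Ch.1 hPr.ch) hPr.irr)
  obtain ⟨ξ₁, hξ₁, hip, hcg⟩ := exists_xi h9 𝔐 hN hNP hχ
  have hag : ∀ x ∈ N, cgT 𝔐 ⊤ ξ₁ x = ω x := by
    intro x hx
    rw [hcg x hx]
    have e1 := hω ⟨x, hNP hx⟩
    have hf : ∀ g y : PP ℓ N, conjInd ((PP ℓ N).subtype (g * y * g⁻¹)) x =
        conjInd ((PP ℓ N).subtype y) x := by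
      intro g y
      rw [map_mul, map_mul, map_inv, conjInd_conj]
    have e2 := red_wt_eq_pair 𝔐 (MonoidHom.id (PP ℓ N)) hχ
      (fun o => conjInd ((PP ℓ N).subtype o) x) hf (fun o => isIntegral_conjInd _ _)
    have e3 := red_wt_eq_pair 𝔐 (stb τ).subtype hPr.irr
      (fun o => conjInd ((PP ℓ N).subtype o) x) hf (fun o => isIntegral_conjInd _ _)
    rw [hχθ] at e2
    refine Eq.trans e2 (Eq.trans e3.symm ?_)
    exact e1.symm
  have hstab : ∀ ξ : X → ℂ, IrrOn N ξ → (∀ x ∈ N, cgT 𝔐 ⊤ ξ x = ω x) →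
      sx (cgT 𝔐 N ξ) = ⊤ := fun ξ hξ hag' =>
    h6 X 𝔐 ℓ hM hℓ ((Subgroup.center X).index - 1) hQ (by omega) (pCore ℓ X) N hc
      (isPGroup_pCore (G := X) ℓ) hN d hd ω hK ξ hξ hag'
  have hst := hstab ξ₁ hξ₁ hag
  have hRn := hFam.Rn
  -- the two elements for `x` in the inverse image of `R`
  have hel : ∀ x ∈ (R.map π).comap (QuotientGroup.mk' (PP ℓ N)), ∃ y y',
      x⁻¹ * y ∈ PP ℓ N ∧ x * y' ∈ PP ℓ N ∧
      (∀ o ∈ PP ℓ N, ∃ n ∈ N, o * y * o⁻¹ = n * y * n⁻¹) ∧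
      (∀ o ∈ PP ℓ N, ∃ n ∈ N, o * y' * o⁻¹ = n * y' * n⁻¹) ∧
      red 𝔐 (wt χ (fun o => ((conv (clO (PP ℓ N) y) (clO (PP ℓ N) y') (o : X) : ℤ) : ℂ))) ≠
        0 := by
    intro x hx
    obtain ⟨r, hr1, hr2⟩ := Subgroup.mem_map.1 (Subgroup.mem_comap.1 hx)
    exact OUT2.core h3 h7 X 𝔐 ℓ hM hℓ N (PP ℓ N) hN hPn hNP (pow_mem ℓ N) (X ⧸ PP ℓ N) W
      (QuotientGroup.mk' (PP ℓ N)) (MulAut.conjNormal (H := PP ℓ N)) (clG X (PP ℓ N)) d
      ((pCore ℓ X).subgroupOf (PP ℓ N)) π R μ Lm τ θ hFam hPr χ hχ hχθ ξ₁ hξ₁ hip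
      (by rw [hst]; exact le_top) x r hr1 hr2.symm
  obtain ⟨M, hMn, hNM, hMQ, hMℓ, hMm, hMO, hMH⟩ := h5 X ℓ N (PP ℓ N)
    ((R.map π).comap (QuotientGroup.mk' (PP ℓ N))) hN hPn ((hRn.map π hFam.πs).comap _) hNP
    (by
      intro x hx
      have h : QuotientGroup.mk' (PP ℓ N) x = 1 := (QuotientGroup.eq_one_iff x).2 hx
      rw [Subgroup.mem_comap, h]
      exact one_mem _)
    (pow_mem ℓ N)
    (by
      intro x y
      obtain ⟨w, hw⟩ := hFam.πs (QuotientGroup.mk' (PP ℓ N) x)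
      obtain ⟨w', hw'⟩ := hFam.πs (QuotientGroup.mk' (PP ℓ N) y)
      rw [Subgroup.mem_comap, map_mul, map_mul, map_mul, map_inv, map_inv, ← hw, ← hw']
      refine Subgroup.mem_map.2 ⟨_, hcom w w', ?_⟩
      rw [map_mul, map_mul, map_mul, map_inv, map_inv])
    (by
      intro x hx
      have h := ne_zero_of_core hF.2.1 (QuotientGroup.mk' (PP ℓ N)) x (by
        rw [← map_pow]
        exact (QuotientGroup.eq_one_iff _).2 hx)
      exact (QuotientGroup.eq_one_iff x).1 h)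
    (by
      intro x hx
      obtain ⟨y, -, hy1, -, hy2, -, -⟩ := hel x hx
      exact ⟨y, hy1, comm_of hN hy2⟩)
  refine ⟨M, hMn, hNM, hMℓ, hMH, ?_⟩
  intro ξ hξ hagξ
  refine ⟨hstab ξ hξ hagξ, ?_⟩
  intro x hx
  obtain ⟨y, y', hy1, hy2, hy3, hy4, hy5⟩ := hel x (hMQ hx)
  obtain ⟨u, v, hu1, hv1, hu2, hv2, huv⟩ := h4 X 𝔐 ℓ hM hℓ N (PP ℓ N) hN hPn hNP (pow_mem ℓ N)
    χ hχ ξ₁ hξ₁ hip x (hMO x hx) (hMm x hx) y y' hy1 hy2 hy3 hy4 hy5
  have hu1' : ∀ a ∈ N, ∀ z, u (a * z * a⁻¹) = u z := fun a ha z => hu1 a (hNP ha) z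
  have hv1' : ∀ a ∈ N, ∀ z, v (a * z * a⁻¹) = v z := fun a ha z => hv1 a (hNP ha) z
  refine ⟨u, v, hu1', hv1', hu2, hv2, ?_⟩
  have hsame := same h8 𝔐 ℓ hM hℓ N hN hξ hξ₁ (fun z hz => (hagξ z hz).trans (hag z hz).symm)
    hst (fun z => ((conv u v z : ℤ) : ℂ))
    (fun a ha z => by
      have := conv_inv N hu1' hv1' a ha z
      simp only [this])
    (fun z => isIntegral_algebraMap (R := ℤ) (x := conv u v z))
  rw [hsame]
  exact huv

end Pool.Agent.DPT


end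

section

/-!
# Dade's conjecture for the groups of a class: a normal subgroup with quotient in the class which
lies in the support of the block (OUT2r)
-/

namespace Pool.Agent.DPK

open Pool.Agent.DP Pool.Agent.DPC Pool.Agent.DPM Pool.Agent.DPN Pool.Agent.DPT Pool.Agent.DPF
open Pool.Agent.Lib_helper13
open Representation
open Pool.Agent.Lib_helper13.Dade (pCore DadeHolds dadeSum)

open Pool.Agent.DPT.OUT1 Pool.Agent.DPT.OUT2 in
theorem OUT2r_thm (Cl : ∀ (Y : Type) [Group Y], Prop) (hC : GC Cl) (h1 : Stmt_OUTFr Cl)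
    (h2 : Stmt_FINNr Cl) (h3 : Stmt_OUTM) (h4 : Stmt_OUTS) (h5 : Stmt_OUTH) (h6 : Stmt_STBr Cl)
    (h7 : Stmt_KEYN) (h8 : Stmt_CVX) (h9 : Stmt_SUMM) : Stmt_OUT2r Cl := by
  intro X _ _ 𝔐 ℓ _ hM hℓ hc hX hQ d ω hd hK N hN hlt
  have hprime : 𝔐.IsPrime := hM.isPrime
  have hPn := PP_normal ℓ N
  have hNP := le_PP ℓ N
  have hfin : Fintype (X ⧸ PP ℓ N) := Fintype.ofFinite _
  have hcP : pCore ℓ X ≤ PP ℓ N := hc.trans (hlt.le.trans hNP)
  have hmap : ((pCore ℓ X).subgroupOf (PP ℓ N)).map (PP ℓ N).subtype = pCore ℓ X :=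
    Subgroup.map_subgroupOf_eq_of_le hcP
  have hi : (Subgroup.center X).index ≠ 0 := Subgroup.index_ne_zero_of_finite
  have hlt' : N.index < (Subgroup.center X).index := Subgroup.index_strictAnti hlt
  have hle : (PP ℓ N).index ≤ N.index :=
    Nat.le_of_dvd (Nat.pos_of_ne_zero Subgroup.index_ne_zero_of_finite)
      (Subgroup.index_dvd_of_le hNP)
  have hd' : padicValNat ℓ (Nat.card ((pCore ℓ X).subgroupOf (PP ℓ N))) < d := by
    rw [Nat.card_congr (Subgroup.subgroupOfEquivOfLe hcP).toEquiv]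
    exact hd
  have hK' : DK 𝔐 ℓ d (((pCore ℓ X).subgroupOf (PP ℓ N)).map (PP ℓ N).subtype)
      (MonoidHom.id X) {ω} ≠ 0 := by
    rw [hmap, DK_eq]
    exact hK
  have hr : Subgroup.center X ≤ (PP ℓ N).subtype.range := by
    rw [Subgroup.range_subtype]
    exact hlt.le.trans hNP
  have hcard : Nat.card (X ⧸ PP ℓ N) ≤ (Subgroup.center X).index - 1 := by
    rw [← Subgroup.index_eq_card]
    omega
  have hZp : IsPGroup ℓ ((pCore ℓ X).subgroupOf (PP ℓ N)) :=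
    (isPGroup_pCore (G := X) ℓ).comap_subtype
  have hcore := core_quot ℓ N (PP ℓ N) rfl
  have hF := h2 (PP ℓ N) X (X ⧸ PP ℓ N) 𝔐 ℓ hM hℓ (PP ℓ N).subtype
    (MulAut.conjNormal (H := PP ℓ N)) (QuotientGroup.mk' (PP ℓ N)) (clG X (PP ℓ N))
    (QuotientGroup.mk'_surjective _) hcore ((Subgroup.center X).index - 1) hX hQ hr
    (by omega) hcard ((pCore ℓ X).subgroupOf (PP ℓ N)) hZp (by rw [hmap]; exact hc) d ω hd' hK'
  obtain ⟨W, _, _, π, R, μ, Lm, τ, θ, hFam, hPr, hω, hcom, -⟩ := h1 (PP ℓ N) X (X ⧸ PP ℓ N)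
    𝔐 ℓ hM hℓ (PP ℓ N).subtype
    (MulAut.conjNormal (H := PP ℓ N)) (QuotientGroup.mk' (PP ℓ N)) (clG X (PP ℓ N))
    (QuotientGroup.mk'_surjective _) hcore ((Subgroup.center X).index - 1) hX hQ hr
    (by omega) hcard ((pCore ℓ X).subgroupOf (PP ℓ N)) hZp (by rw [hmap]; exact hc) d ω hd' hK'
  obtain ⟨χ, hχ, hχθ⟩ := exists_irr_of_mult 𝔐 hPr.irr
    (exists_irr_of_chain 𝔐 hℓ (mem_Ch.1 hPr.ch) hPr.irr)
  obtain ⟨ξ₁, hξ₁, hip, hcg⟩ := exists_xi h9 𝔐 hN hNP hχ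
  have hag : ∀ x ∈ N, cgT 𝔐 ⊤ ξ₁ x = ω x := by
    intro x hx
    rw [hcg x hx]
    have e1 := hω ⟨x, hNP hx⟩
    have hf : ∀ g y : PP ℓ N, conjInd ((PP ℓ N).subtype (g * y * g⁻¹)) x =
        conjInd ((PP ℓ N).subtype y) x := by
      intro g y
      rw [map_mul, map_mul, map_inv, conjInd_conj]
    have e2 := red_wt_eq_pair 𝔐 (MonoidHom.id (PP ℓ N)) hχ
      (fun o => conjInd ((PP ℓ N).subtype o) x) hf (fun o => isIntegral_conjInd _ _)
    have e3 := red_wt_eq_pair 𝔐 (stb τ).subtype hPr.irr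
      (fun o => conjInd ((PP ℓ N).subtype o) x) hf (fun o => isIntegral_conjInd _ _)
    rw [hχθ] at e2
    refine Eq.trans e2 (Eq.trans e3.symm ?_)
    exact e1.symm
  have hstab : ∀ ξ : X → ℂ, IrrOn N ξ → (∀ x ∈ N, cgT 𝔐 ⊤ ξ x = ω x) →
      sx (cgT 𝔐 N ξ) = ⊤ := fun ξ hξ hag' =>
    h6 X 𝔐 ℓ hM hℓ ((Subgroup.center X).index - 1) hX hQ (by omega) (pCore ℓ X) N hc
      (isPGroup_pCore (G := X) ℓ) hN d hd ω hK ξ hξ hag'
  have hst := hstab ξ₁ hξ₁ hag
  have hRn := hFam.Rn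
  -- the two elements for `x` in the inverse image of `R`
  have hel : ∀ x ∈ (R.map π).comap (QuotientGroup.mk' (PP ℓ N)), ∃ y y',
      x⁻¹ * y ∈ PP ℓ N ∧ x * y' ∈ PP ℓ N ∧
      (∀ o ∈ PP ℓ N, ∃ n ∈ N, o * y * o⁻¹ = n * y * n⁻¹) ∧
      (∀ o ∈ PP ℓ N, ∃ n ∈ N, o * y' * o⁻¹ = n * y' * n⁻¹) ∧
      red 𝔐 (wt χ (fun o => ((conv (clO (PP ℓ N) y) (clO (PP ℓ N) y') (o : X) : ℤ) : ℂ))) ≠
        0 := by
    intro x hx
    obtain ⟨r, hr1, hr2⟩ := Subgroup.mem_map.1 (Subgroup.mem_comap.1 hx)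
    exact Pool.Agent.DPT.OUT2.core h3 h7 X 𝔐 ℓ hM hℓ N (PP ℓ N) hN hPn hNP (pow_mem ℓ N) (X ⧸ PP ℓ N) W
      (QuotientGroup.mk' (PP ℓ N)) (MulAut.conjNormal (H := PP ℓ N)) (clG X (PP ℓ N)) d
      ((pCore ℓ X).subgroupOf (PP ℓ N)) π R μ Lm τ θ hFam hPr χ hχ hχθ ξ₁ hξ₁ hip
      (by rw [hst]; exact le_top) x r hr1 hr2.symm
  obtain ⟨M, hMn, hNM, hMQ, hMℓ, hMm, hMO, hMH⟩ := h5 X ℓ N (PP ℓ N)
    ((R.map π).comap (QuotientGroup.mk' (PP ℓ N))) hN hPn ((hRn.map π hFam.πs).comap _) hNP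
    (by
      intro x hx
      have h : QuotientGroup.mk' (PP ℓ N) x = 1 := (QuotientGroup.eq_one_iff x).2 hx
      rw [Subgroup.mem_comap, h]
      exact one_mem _)
    (pow_mem ℓ N)
    (by
      intro x y
      obtain ⟨w, hw⟩ := hFam.πs (QuotientGroup.mk' (PP ℓ N) x)
      obtain ⟨w', hw'⟩ := hFam.πs (QuotientGroup.mk' (PP ℓ N) y)
      rw [Subgroup.mem_comap, map_mul, map_mul, map_mul, map_inv, map_inv, ← hw, ← hw']
      refine Subgroup.mem_map.2 ⟨_, hcom w w', ?_⟩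
      rw [map_mul, map_mul, map_mul, map_inv, map_inv])
    (by
      intro x hx
      have h := ne_zero_of_core hF.2.1 (QuotientGroup.mk' (PP ℓ N)) x (by
        rw [← map_pow]
        exact (QuotientGroup.eq_one_iff _).2 hx)
      exact (QuotientGroup.eq_one_iff x).1 h)
    (by
      intro x hx
      obtain ⟨y, -, hy1, -, hy2, -, -⟩ := hel x hx
      exact ⟨y, hy1, comm_of hN hy2⟩)
  refine ⟨M, hMn, hNM, hMℓ, hMH, ?_⟩
  intro ξ hξ hagξ
  refine ⟨hstab ξ hξ hagξ, ?_⟩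
  intro x hx
  obtain ⟨y, y', hy1, hy2, hy3, hy4, hy5⟩ := hel x (hMQ hx)
  obtain ⟨u, v, hu1, hv1, hu2, hv2, huv⟩ := h4 X 𝔐 ℓ hM hℓ N (PP ℓ N) hN hPn hNP (pow_mem ℓ N)
    χ hχ ξ₁ hξ₁ hip x (hMO x hx) (hMm x hx) y y' hy1 hy2 hy3 hy4 hy5
  have hu1' : ∀ a ∈ N, ∀ z, u (a * z * a⁻¹) = u z := fun a ha z => hu1 a (hNP ha) z
  have hv1' : ∀ a ∈ N, ∀ z, v (a * z * a⁻¹) = v z := fun a ha z => hv1 a (hNP ha) z
  refine ⟨u, v, hu1', hv1', hu2, hv2, ?_⟩
  have hsame := same h8 𝔐 ℓ hM hℓ N hN hξ hξ₁ (fun z hz => (hagξ z hz).trans (hag z hz).symm)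
    hst (fun z => ((conv u v z : ℤ) : ℂ))
    (fun a ha z => by
      have := conv_inv N hu1' hv1' a ha z
      simp only [this])
    (fun z => isIntegral_algebraMap (R := ℤ) (x := conv u v z))
  rw [hsame]
  exact huv

end Pool.Agent.DPK


end

section

/-!
# INNP: the inner theorem (theorem W)
-/

namespace Pool.Agent.DPW

open Pool.Agent.DP Pool.Agent.DPV Pool.Agent.Lib_helper13 Representation
open Pool.Agent.Lib_helper13.Dade (pCore DadeHolds dadeSum)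

theorem gT_bet {G B C : Type} [Group G] [Fintype G] [Group B] [Fintype B] [Group C]
    (𝔐 : Ideal (integralClosure ℤ ℂ)) {ι : G →* B} {κ : B →* MulAut G} {ρ : B →* C}
    (hL : LocV ι κ ρ) {Pr : (G → (integralClosure ℤ ℂ) ⧸ 𝔐) → Prop} {σ : Finset (Subgroup G)}
    {ψ : G → ℂ} (hψ : IrrOn (stb σ) ψ) (h : Pr (fun g => cg 𝔐 ψ g)) (L : Subgroup C) :
    gT ι Pr (bet 𝔐 ι κ ρ σ ψ L) := by
  obtain ⟨f, hf⟩ := (EXTV_thm G B C ι κ ρ hL σ ψ hψ L).2.2.1
  refine ⟨_, ⟨f, hf, rfl⟩, ?_⟩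
  have h1 : (fun g => cgT 𝔐 ι.range f (ι g)) = fun g => cg 𝔐 ψ g := by
    funext g
    have h2 := (CGT_thm G B C 𝔐 ι κ ρ hL.cl).2.1 f g
    have h3 : (fun h => f (ι h)) = ψ := funext hf.2
    rw [h3] at h2
    exact h2
  rw [h1]
  exact h

theorem INNP_thm (h1 : Stmt_CLIFFV) (h2 : Stmt_TJP) (h3 : Stmt_COMBP) : Stmt_INNP := by
  intro O G B C Y K X _ _ _ _ _ _ _ _ _ _ _ _ 𝔐 ℓ _ h𝔐 hℓ ι κ ρ hL Pr hPr hVS j p φ hE i ω hω d
  classical
  obtain ⟨Φ, hΦ, hsupp⟩ := h1 O G B C Y K X 𝔐 ℓ h𝔐 hℓ ι κ ρ hL j p φ hE d i ω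
  have h5 := CLOSEDR_thm O G B Y K ℓ ι κ j p φ hE
    (fun S => (Nat.card S : ℚ) * cnt 𝔐 ℓ d (i.comp S.subtype) ω)
  rw [h5]
  have h6 := h3 O G B C Y K 𝔐 ℓ ι κ ρ hL Pr j p φ hE
    (h2 O G B C Y K 𝔐 ℓ h𝔐 hℓ ι κ ρ hL Pr hPr hVS j p φ hE) Φ (by
      intro J d' β hne
      obtain ⟨τ, hτ, θ, hθ, hb, ψ, hψ, hcen, hψθ⟩ := hsupp J d' β hne
      obtain ⟨o, ho⟩ := hω τ hτ θ hθ ψ hψ hψθ hcen
      refine ⟨o, ?_⟩
      rw [← hb]
      exact gT_bet 𝔐 hL (hθ o) ho _)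
  rw [← h6]
  refine Finset.sum_congr rfl fun τ hτ => ?_
  rw [hΦ τ hτ]

end Pool.Agent.DPW


end

section

/-!
# An irreducible representation of the local block occurs in at most one irreducible
representation (module KCX)
-/

namespace Pool.Agent.DPX

open Pool.Agent.DPB Pool.Agent.DPW Representation

namespace KCX

variable {F H V V' W : Type} [Field F] [Group H] [Fintype H] [AddCommGroup V] [Module F V]
  [AddCommGroup V'] [Module F V'] [AddCommGroup W] [Module F W]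

/-- The trace of a product with an equivariant map. -/
theorem tr1_comp (σ : Representation F H W) (ρ : Representation F H V)
    (ρ' : Representation F H V') (g : V →ₗ[F] V') (j : W →ₗ[F] V) (hj : Eqv σ ρ j) :
    tr1 ρ ρ' g ∘ₗ j = tr1 σ ρ' (g ∘ₗ j) := by
  ext w
  simp only [tr1, LinearMap.comp_apply, LinearMap.sum_apply]
  refine Finset.sum_congr rfl fun h _ => ?_
  rw [hj]

/-- The trace of the negative. -/
theorem tr1_neg (ρ : Representation F H V) (ρ' : Representation F H V') (g : V →ₗ[F] V') :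
    tr1 ρ ρ' (-g) = - tr1 ρ ρ' g := by
  ext w
  simp only [tr1, LinearMap.comp_apply, LinearMap.sum_apply, LinearMap.neg_apply, map_neg,
    Finset.sum_neg_distrib]

end KCX

open _root_.Pool.Agent.DPX.KCX in
/-- From a map over the normalizer to equality of the trace functions. -/
theorem KCX.core {ℓ n : ℕ} [Fact ℓ.Prime] {F T V V' W : Type} [Field F] [CharP F ℓ] [Group T]
    [Fintype T] [AddCommGroup V] [Module F V] [AddCommGroup V'] [Module F V'] [AddCommGroup W]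
    [Module F W] [Module.Finite F V] [Module.Finite F V']
    (h4 : Stmt_TRFX) (P₁ P : Subgroup T) [Fintype (NP P₁)] (x₀ : T) (e : T → F)
    (he : BKX ℓ n P₁ P x₀ e) (ρ : Representation F T V) (ρ' : Representation F T V')
    (σ : Representation F (NP P₁) W) (hρ : ρ.IsIrreducible) (hρ' : ρ'.IsIrreducible)
    (j : W →ₗ[F] V) (j' : W →ₗ[F] V') (hj : Eqv σ (rN P₁ ρ) j)
    (hj' : ¬ Prj σ (rN P₁ ρ') j') (f : V →ₗ[F] V') (hf : Eqv (rN P₁ ρ) (rN P₁ ρ') f)
    (hZ : Zop (rN P₁ ρ') (brz P₁ e) ∘ₗ f = f) (hfj : f ∘ₗ j = j') :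
    ρ.character = ρ'.character := by
  obtain ⟨Ψ, hΨ, g, hg⟩ := h4 ℓ n F T V V' P₁ P x₀ e he ρ ρ' f hf hZ
  apply KC.char_eq ρ ρ' hρ hρ' Ψ hΨ
  intro h0
  apply hj'
  refine ⟨(-g) ∘ₗ j, ?_⟩
  rw [← tr1_comp σ (rN P₁ ρ) (rN P₁ ρ') (-g) j hj, tr1_neg]
  rw [h0, LinearMap.comp_zero] at hg
  rw [← eq_neg_of_add_eq_zero_left hg.symm, hfj]

/-- KCX -/
theorem KCX_thm (h1 : Stmt_BKNX) (h2 : Stmt_PRMX) (h3 : Stmt_UNX) (h4 : Stmt_TRFX) :
    Stmt_KCX := by
  intro ℓ n _ F T V V' W _ _ _ _ _ _ _ _ _ _ _ _ _ _ P₁ P _ x₀ e he hp hni ρ ρ' σ hρ hρ' hσ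
    hZ hE hE'
  obtain ⟨j, hj, hjr⟩ := hE
  obtain ⟨j', hj', hjr'⟩ := hE'
  have hx : x₀ ∈ Subgroup.normalizer (P₁ : Set T) := by
    have hcen : ∀ h ∈ P₁, h * x₀ = x₀ * h := fun h hh => he.cd.cen h (he.cd.le hh)
    rw [Subgroup.mem_normalizer_iff]
    intro h
    constructor
    · intro hh
      rw [← hcen h hh, mul_inv_cancel_right]
      exact hh
    · intro hh
      have h5 := hcen _ hh
      have h6 : x₀ * h * x₀⁻¹ = h := by
        have h7 : x₀ * h = x₀ * (x₀ * h * x₀⁻¹) := by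
          rw [← h5]
          group
        have h8 := mul_left_cancel h7
        exact h8.symm
      rwa [h6] at hh
  obtain ⟨-, hb⟩ := h1.2 ℓ n F T P₁ P x₀ e he
  obtain ⟨-, hbk⟩ := hb hx
  have hPr := h2 ℓ n F T P₁ P x₀ e he hp
  have hPNn : (P₁.subgroupOf (Subgroup.normalizer (P₁ : Set T))).Normal :=
    Subgroup.normal_in_normalizer
  have hcz : ∀ h : NP P₁, brz P₁ e h ≠ 0 →
      h ∈ Subgroup.centralizer
        ((P₁.subgroupOf (Subgroup.normalizer (P₁ : Set T)) : Subgroup (NP P₁)) : Set (NP P₁)) := by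
    intro h hh
    have hc : (h : T) ∈ Subgroup.centralizer (P₁ : Set T) := by
      by_contra hc
      exact hh (by rw [brz, if_neg hc])
    rw [Subgroup.mem_centralizer_iff] at hc ⊢
    intro u hu
    have hu' : (u : T) ∈ (P₁ : Set T) := hu
    exact Subtype.ext (hc u hu')
  have hj0 : j ≠ 0 := by
    intro h0
    apply hjr
    refine ⟨0, ?_⟩
    rw [h0]
    ext w
    simp [tr1]
  have hj0' : j' ≠ 0 := by
    intro h0
    apply hjr'
    refine ⟨0, ?_⟩
    rw [h0]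
    ext w
    simp [tr1]
  rcases h3 ℓ n F (NP P₁) V V' W (P₁.subgroupOf (Subgroup.normalizer (P₁ : Set T)))
    (P.subgroupOf (Subgroup.normalizer (P₁ : Set T))) ⟨x₀, hx⟩ (brz P₁ e) hbk hPr hcz hni
    (rN P₁ ρ) (rN P₁ ρ') σ hσ hZ j j' hj0 hj0' hj hj' with h | h
  · obtain ⟨f, hf, hZf, hfj, -⟩ := h
    exact KCX.core h4 P₁ P x₀ e he ρ ρ' σ hρ hρ' j j' hj hjr' f hf hZf hfj
  · obtain ⟨f, hf, hZf, hfj, -⟩ := h
    exact (KCX.core h4 P₁ P x₀ e he ρ' ρ σ hρ' hρ j' j hj' hjr f hf hZf hfj).symm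

end Pool.Agent.DPX


end

section

set_option linter.unusedSectionVars false

/-!
# VSXX (theorem X): the local sum for a block with a cyclic defect group
-/

namespace Pool.Agent.DPX

open Pool.Agent.DP Pool.Agent.DPV Pool.Agent.DPB Pool.Agent.DPW Pool.Agent.Lib_helper13
open Representation

namespace VSXX

open Pool.Agent.DPV.VSX Pool.Agent.DPW.VSXW

/-! ### Subgroups of cyclic groups -/

/-- a cyclic group has at most one subgroup of a given order -/
theorem uniq {C : Type} [Group C] [Finite C] [IsCyclic C] {A B : Subgroup C}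
    (h : Nat.card A = Nat.card B) : A = B := by
  classical
  have : Fintype C := Fintype.ofFinite C
  set n := Nat.card A with hn
  have hn0 : 0 < n := Nat.card_pos
  set S : Set C := {a : C | a ^ n = 1} with hS
  have hSn : S.ncard ≤ n := by
    have h1 := IsCyclic.card_pow_eq_one_le (α := C) hn0
    have h2 : S.ncard = (Finset.univ.filter fun a : C => a ^ n = 1).card := by
      rw [← Set.ncard_coe_finset]
      congr 1
      ext a
      simp [hS]
    rw [h2]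
    exact h1
  have key : ∀ D : Subgroup C, Nat.card D = n → (D : Set C) = S := by
    intro D hD
    apply Set.eq_of_subset_of_ncard_le _ _ (Set.toFinite S)
    · intro a ha
      have h1 : (⟨a, ha⟩ : D) ^ Nat.card D = 1 := pow_card_eq_one'
      rw [hD] at h1
      exact congrArg Subtype.val h1
    · have h1 : (D : Set C).ncard = n := by
        rw [← hD]
        rfl
      rw [h1]
      exact hSn
  exact SetLike.coe_injective ((key A hn.symm).trans (key B h.symm).symm)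

theorem uniq' {T : Type} [Group T] [Finite T] {P A B : Subgroup T} (hP : IsCyclic P)
    (hA : A ≤ P) (hB : B ≤ P) (h : Nat.card A = Nat.card B) : A = B := by
  have hc : ∀ {D : Subgroup T}, D ≤ P → Nat.card (D.subgroupOf P) = Nat.card D :=
    fun h => Nat.card_congr (Subgroup.subgroupOfEquivOfLe h).toEquiv
  have h1 : A.subgroupOf P = B.subgroupOf P := by
    apply uniq
    rw [hc hA, hc hB, h]
  have h2 := Subgroup.subgroupOf_inj.1 h1
  rwa [inf_eq_left.2 hA, inf_eq_left.2 hB] at h2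

section Om

variable {G : Type} [Group G] [Fintype G] {ℓ : ℕ} [hℓ : Fact ℓ.Prime] {P₁ P : Subgroup G}

/-- the conjugate of a subgroup -/
abbrev cj (g : G) (H : Subgroup G) : Subgroup G := H.map (MulAut.conj g).toMonoidHom

theorem cj_cyc (hP : IsCyclic P) (g : G) : IsCyclic (cj g P) :=
  isCyclic_of_surjective (P.equivMapOfInjective (MulAut.conj g).toMonoidHom
    (MulAut.conj g).injective) (P.equivMapOfInjective (MulAut.conj g).toMonoidHom
    (MulAut.conj g).injective).surjective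

theorem cj_mono {A B : Subgroup G} (h : A ≤ B) (g : G) : cj g A ≤ cj g B := Subgroup.map_mono h

/-- the order of the conjugate -/
theorem card_cj (H : Subgroup G) (g : G) : Nat.card (cj g H) = Nat.card H :=
  Nat.card_congr (H.equivMapOfInjective (MulAut.conj g).toMonoidHom
    (MulAut.conj g).injective).symm.toEquiv

/-- A nontrivial subgroup of a cyclic group of order a power of `ℓ` contains the subgroup of
order `ℓ`. -/
theorem om_le (hP : IsCyclic P) (hle : P₁ ≤ P) (hc : Nat.card P₁ = ℓ) {D : Subgroup G}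
    (hD : IsPGroup ℓ D) (hne : ⊥ < D) {g : G} (hDP : D ≤ cj g P) : cj g P₁ ≤ D := by
  have hdvd : ℓ ∣ Nat.card D := by
    obtain ⟨k, hk⟩ := (IsPGroup.iff_card (p := ℓ) (G := D)).1 hD
    rw [hk]
    apply dvd_pow_self
    rintro rfl
    rw [pow_zero] at hk
    exact hne.ne' (Subgroup.card_eq_one.1 hk)
  obtain ⟨x, hx⟩ := exists_prime_orderOf_dvd_card' ℓ hdvd
  have h1 : (Subgroup.zpowers (x : G)) ≤ D := by
    rw [Subgroup.zpowers_le]
    exact x.2
  have h2 : Nat.card (Subgroup.zpowers (x : G)) = ℓ := by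
    rw [Nat.card_zpowers, ← hx]
    exact Subgroup.orderOf_coe x
  have h3 : cj g P₁ = Subgroup.zpowers (x : G) :=
    uniq' (cj_cyc hP g) (cj_mono hle g) (h1.trans hDP) (by rw [card_cj, hc, h2])
  rw [h3]
  exact h1

variable (P₁ P) in
/-- The members of the chain are subgroups of one conjugate of `P`. -/
def Gd (σ : Finset (Subgroup G)) : Prop := ∃ g : G, ∀ D ∈ σ, D ≤ cj g P

open Classical in
variable (P₁ P) in
/-- The subgroup of order `ℓ` of the members. -/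
noncomputable def Om (σ : Finset (Subgroup G)) : Subgroup G :=
  if h : Gd P σ then cj h.choose P₁ else ⊥

theorem Om_eq (hP : IsCyclic P) (hle : P₁ ≤ P) (hc : Nat.card P₁ = ℓ)
    {σ : Finset (Subgroup G)} (hσ : IsCh ℓ (⊥ : Subgroup G) σ) (hne : σ.Nonempty) {g : G}
    (hg : ∀ D ∈ σ, D ≤ cj g P) : Om P₁ P σ = cj g P₁ := by
  have hG : Gd P σ := ⟨g, hg⟩
  have h1 : Om P₁ P σ = cj hG.choose P₁ := by
    unfold Om
    rw [dif_pos hG]
  rw [h1]
  obtain ⟨D, hD⟩ := hne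
  obtain ⟨hD1, hD2⟩ := hσ.1 D hD
  have h2 := om_le hP hle hc hD1 hD2 (hG.choose_spec D hD)
  exact uniq' (cj_cyc hP g) (h2.trans (hg D hD)) (cj_mono hle g) (by rw [card_cj, card_cj])

/-- A subgroup of order `ℓ` is determined by an automorphism which fixes a member. -/
theorem map_eq (hP : IsCyclic P) {O D : Subgroup G} {g : G} (hOD : O ≤ D)
    (hDP : D ≤ cj g P) (f : G →* G) (hf : Function.Injective f) (hD : D.map f = D) :
    O.map f = O := by
  have h1 : O.map f ≤ D := by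
    conv_rhs => rw [← hD]
    exact Subgroup.map_mono hOD
  refine uniq' (cj_cyc hP g) (h1.trans hDP) (hOD.trans hDP) ?_
  exact Nat.card_congr (O.equivMapOfInjective f hf).symm.toEquiv

open Classical in
/-- the involution -/
noncomputable def inv (P₁ P : Subgroup G) (σ : Finset (Subgroup G)) : Finset (Subgroup G) :=
  if Om P₁ P σ ∈ σ then σ.erase (Om P₁ P σ) else insert (Om P₁ P σ) σ

/-- The chain is good, not empty and not of the form `{O}`. -/
structure Bd (ℓ : ℕ) (P₁ P : Subgroup G) (σ : Finset (Subgroup G)) : Prop where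
  ch : IsCh ℓ (⊥ : Subgroup G) σ
  gd : Gd P σ
  ne : σ.Nonempty
  sg : ∀ g : G, σ ≠ {cj g P₁}

open Classical in
theorem stb_insert (hP : IsCyclic P) {σ : Finset (Subgroup G)} {O D : Subgroup G} {g : G}
    (hD : D ∈ σ) (hOD : O ≤ D) (hDP : D ≤ cj g P) : stb (insert O σ) = stb σ := by
  ext x
  rw [mem_stb, mem_stb]
  constructor
  · intro h E hE
    exact h E (Finset.mem_insert_of_mem hE)
  · intro h E hE
    rcases Finset.mem_insert.1 hE with rfl | hE
    · exact map_eq hP hOD hDP _ (MulAut.conj x).injective (h D hD)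
    · exact h E hE

open Classical in
theorem stx_insert {B : Type} [Group B] (κ : B →* MulAut G) (hP : IsCyclic P)
    {σ : Finset (Subgroup G)} {O D : Subgroup G} {g : G}
    (hD : D ∈ σ) (hOD : O ≤ D) (hDP : D ≤ cj g P) (ψ : G → ℂ) :
    Stx κ (insert O σ) ψ = Stx κ σ ψ := by
  ext b
  constructor
  · intro h
    exact ⟨fun E hE => h.1 E (Finset.mem_insert_of_mem hE), h.2⟩
  · intro h
    refine ⟨fun E hE => ?_, h.2⟩
    rcases Finset.mem_insert.1 hE with rfl | hE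
    · exact map_eq hP hOD hDP _ (κ b).injective (h.1 D hD)
    · exact h.1 E hE

/-- The number of characters depends only on the stabilizers. -/
theorem NN_congr {B C : Type} [Group B] [Fintype B] [Group C] (𝔐 : Ideal (integralClosure ℤ ℂ))
    (ι : G →* B) (κ : B →* MulAut G) (ρ : B →* C) (L : Subgroup C)
    (β : Set (B → (integralClosure ℤ ℂ) ⧸ 𝔐)) (e : ℕ) {σ τ : Finset (Subgroup G)}
    (h1 : stb σ = stb τ) (h2 : ∀ ψ : G → ℂ, Stx κ σ ψ = Stx κ τ ψ) :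
    NN 𝔐 ℓ ι κ ρ L β e σ = NN 𝔐 ℓ ι κ ρ L β e τ := by
  unfold Pool.Agent.DPV.VSX.NN
  have h3 : ∀ ψ : G → ℂ, (IrrOn (stb σ) ψ ∧ PP 𝔐 ℓ ι κ ρ L β e σ ψ) ↔
      (IrrOn (stb τ) ψ ∧ PP 𝔐 ℓ ι κ ρ L β e τ ψ) := by
    intro ψ
    have h4 : bet 𝔐 ι κ ρ σ ψ L = bet 𝔐 ι κ ρ τ ψ L := by
      unfold bet ExtL
      rw [h2 ψ]
    unfold PP
    rw [h1, h2 ψ, h4]
  exact Nat.card_congr (Equiv.subtypeEquivRight h3)

open Classical in
/-- insertion of the subgroup of order `ℓ` -/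
theorem ch_insert {σ : Finset (Subgroup G)} (hσ : IsCh ℓ (⊥ : Subgroup G) σ) {O : Subgroup G}
    (hO : IsPGroup ℓ O) (hO' : ⊥ < O) (hle : ∀ D ∈ σ, O ≤ D) :
    IsCh ℓ (⊥ : Subgroup G) (insert O σ) := by
  refine ⟨?_, ?_⟩
  · intro D hD
    rcases Finset.mem_insert.1 hD with rfl | hD
    · exact ⟨hO, hO'⟩
    · exact hσ.1 D hD
  · rw [Finset.coe_insert]
    exact hσ.2.insert fun D hD _ => Or.inl (hle D hD)

end Om

end VSXX

open _root_.Pool.Agent.DPX.VSXX Pool.Agent.DPV.VSX Pool.Agent.DPW.VSXW in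
/-- VSXX: the local sum for a block with a cyclic defect group. -/
theorem VSXX_thm (h1 : Stmt_CHNX) : Stmt_VSXX := by
  classical
  intro G B C _ _ _ _ _ 𝔐 ℓ n _ hmax hℓ ι κ ρ hL P₁ P x₀ L β e hβ
  obtain ⟨b, hb, hAt⟩ := hβ
  have hPc : IsCyclic P := hAt.cd.cyc
  have hle : P₁ ≤ P := hAt.cd.le
  have hc1 : Nat.card P₁ = ℓ := hAt.cd.c1
  set T : Finset (Subgroup G) → ℚ := fun σ => (-1 : ℚ) ^ σ.card *
      ((Nat.card (stb σ) : ℚ) * (NN 𝔐 ℓ ι κ ρ L β e σ : ℚ)) with hT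
  have h3 : VS 𝔐 ℓ ι κ ρ L β e = ∑ σ ∈ Ch ℓ (⊥ : Subgroup G), T σ := by
    rw [VS]
    refine Finset.sum_congr rfl fun σ _ => ?_
    show _ = (-1 : ℚ) ^ σ.card *
      ((Nat.card (stb σ) : ℚ) * (NN 𝔐 ℓ ι κ ρ L β e σ : ℚ))
    congr 1
    exact inner_sum (stb σ) _ (fun ψ => L ≤ (Stx κ σ ψ).map ρ ∧ df ℓ (stb σ) ψ = e ∧
      bet 𝔐 ι κ ρ σ ψ L = β)
  set S₁ : Finset (Finset (Subgroup G)) := (Finset.univ.filter (fun D : Subgroup G => ∃ g : G,
        P₁.map (MulAut.conj g).toMonoidHom = D)).image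
        (fun D => ({D} : Finset (Subgroup G))) with hS₁
  have hne : (∅ : Finset (Subgroup G)) ∉ S₁ := by
    rw [hS₁, Finset.mem_image]
    rintro ⟨D, -, hD⟩
    exact Finset.singleton_ne_empty D hD
  have h4 : ∀ D ∈ Finset.univ.filter (fun D : Subgroup G => ∃ g : G,
      P₁.map (MulAut.conj g).toMonoidHom = D), T {D} =
      - ((Nat.card (stb {P₁}) : ℚ) * (NN 𝔐 ℓ ι κ ρ L β e {P₁} : ℚ)) := by
    intro D hD
    show (-1 : ℚ) ^ ({D} : Finset (Subgroup G)).card *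
        ((Nat.card (stb {D}) : ℚ) * (NN 𝔐 ℓ ι κ ρ L β e {D} : ℚ)) = _
    obtain ⟨g, hg⟩ := (Finset.mem_filter.mp hD).2
    have h5 : ({D} : Finset (Subgroup G)) = cc g {P₁} := by
      ext E
      rw [Finset.mem_singleton, mem_mapCh]
      constructor
      · rintro rfl
        exact ⟨P₁, Finset.mem_singleton_self P₁, hg⟩
      · rintro ⟨Q, hQ, rfl⟩
        rw [Finset.mem_singleton.mp hQ]
        exact hg
    have h6 : Nat.card (stb ({D} : Finset (Subgroup G))) =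
        Nat.card (stb ({P₁} : Finset (Subgroup G))) := by
      rw [h5, cc, stb_mapCh_equiv, card_map_conj]
    have h7 : NN 𝔐 ℓ ι κ ρ L β e {D} = NN 𝔐 ℓ ι κ ρ L β e {P₁} := by
      rw [h5, NN_cc hL.cl]
    rw [h6, h7, Finset.card_singleton, pow_one, neg_one_mul]
  have h8 : ((Finset.univ.filter (fun D : Subgroup G => ∃ g : G,
      P₁.map (MulAut.conj g).toMonoidHom = D)).card : ℚ) *
      (Nat.card (stb ({P₁} : Finset (Subgroup G))) : ℚ) = Nat.card G := by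
    have h9 := card_conj P₁
    have h10 : Nat.card {D : Subgroup G // ∃ g : G, P₁.map (MulAut.conj g).toMonoidHom = D} =
        (Finset.univ.filter (fun D : Subgroup G => ∃ g : G,
          P₁.map (MulAut.conj g).toMonoidHom = D)).card :=
      Nat.subtype_card _ (fun D => by
        rw [Finset.mem_filter]
        exact ⟨fun h => h.2, fun h => ⟨Finset.mem_univ _, h⟩⟩)
    rw [h10] at h9
    exact_mod_cast h9
  have h11 : (Nat.card (stb (∅ : Finset (Subgroup G))) : ℚ) = Nat.card G := by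
    rw [stb_empty, Subgroup.card_top]
  have hOp : ∀ g : G, IsPGroup ℓ (cj g P₁) ∧ ⊥ < cj g P₁ := by
    intro g
    have h12 : Nat.card (cj g P₁) = ℓ := by
      rw [card_cj, hc1]
    exact ⟨Pool.Agent.DPB.BRD.isPGroup_of_card h12,
      bot_lt_iff_ne_bot.2 (Pool.Agent.DPB.BRD.ne_bot h12)⟩
  have hsub : insert ∅ S₁ ⊆ Ch ℓ (⊥ : Subgroup G) := by
    intro σ hσ
    rw [mem_Ch]
    rcases Finset.mem_insert.mp hσ with rfl | hσ
    · exact isCh_empty
    · obtain ⟨D, hD, rfl⟩ := Finset.mem_image.mp hσ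
      obtain ⟨g, hg⟩ := (Finset.mem_filter.mp hD).2
      have hD' : Nat.card D = ℓ := by
        rw [← hg, card_map_conj, hc1]
      exact Pool.Agent.DPB.LOC.isCh_singleton (Pool.Agent.DPB.BRD.isPGroup_of_card hD')
        (Pool.Agent.DPB.BRD.ne_bot hD')
  -- the chains which are not good do not contribute
  have hzero : ∀ σ ∈ Ch ℓ (⊥ : Subgroup G), ¬ Gd P σ → T σ = 0 := by
    intro σ hσ hnot
    have hN : NN 𝔐 ℓ ι κ ρ L β e σ = 0 := by
      rw [VSX.NN]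
      have hemp : IsEmpty {ψ : G → ℂ // IrrOn (stb σ) ψ ∧ PP 𝔐 ℓ ι κ ρ L β e σ ψ} := by
        constructor
        rintro ⟨ψ, hψ, hPP⟩
        apply hnot
        have hcg : ∀ g, cg 𝔐 ψ g = b (ι g) := cg_of_bet 𝔐 hL.cl hPP.2.2 hb
        exact h1 G 𝔐 ℓ n hmax hℓ (fun g => b (ι g)) P₁ P x₀ hAt σ (mem_Ch.mp hσ) ψ hψ hcg
      exact Nat.card_of_isEmpty
    show (-1 : ℚ) ^ σ.card * ((Nat.card (stb σ) : ℚ) * (NN 𝔐 ℓ ι κ ρ L β e σ : ℚ)) = 0
    rw [hN, Nat.cast_zero, mul_zero, mul_zero]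
  -- the good chains cancel
  set R : Finset (Finset (Subgroup G)) :=
    (Ch ℓ (⊥ : Subgroup G)).filter (fun σ => Bd ℓ P₁ P σ) with hR
  -- the basic facts on a good chain
  have hins : ∀ σ : Finset (Subgroup G), IsCh ℓ (⊥ : Subgroup G) σ → σ.Nonempty → ∀ g : G,
      (∀ D ∈ σ, D ≤ cj g P) → stb (insert (cj g P₁) σ) = stb σ ∧
      NN 𝔐 ℓ ι κ ρ L β e (insert (cj g P₁) σ) = NN 𝔐 ℓ ι κ ρ L β e σ ∧
      IsCh ℓ (⊥ : Subgroup G) (insert (cj g P₁) σ) := by
    intro σ hσ hσne g hg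
    obtain ⟨D, hD⟩ := hσne
    have h12 : ∀ E ∈ σ, cj g P₁ ≤ E := fun E hE =>
      om_le hPc hle hc1 (hσ.1 E hE).1 (hσ.1 E hE).2 (hg E hE)
    have h13 := stb_insert hPc hD (h12 D hD) (hg D hD)
    exact ⟨h13, NN_congr 𝔐 ι κ ρ L β e h13 fun ψ =>
      stx_insert κ hPc hD (h12 D hD) (hg D hD) ψ,
      ch_insert hσ (hOp g).1 (hOp g).2 h12⟩
  have hTins : ∀ σ : Finset (Subgroup G), IsCh ℓ (⊥ : Subgroup G) σ → σ.Nonempty → ∀ g : G,
      (∀ D ∈ σ, D ≤ cj g P) → cj g P₁ ∉ σ → T (insert (cj g P₁) σ) = - T σ := by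
    intro σ hσ hσne g hg hnot
    obtain ⟨h12, h13, -⟩ := hins σ hσ hσne g hg
    show (-1 : ℚ) ^ (insert (cj g P₁) σ).card * ((Nat.card (stb (insert (cj g P₁) σ)) : ℚ) *
      (NN 𝔐 ℓ ι κ ρ L β e (insert (cj g P₁) σ) : ℚ)) = - ((-1 : ℚ) ^ σ.card *
      ((Nat.card (stb σ) : ℚ) * (NN 𝔐 ℓ ι κ ρ L β e σ : ℚ)))
    rw [h12, h13, Finset.card_insert_of_notMem hnot, pow_succ]
    ring
  -- description of the involution
  have hinv : ∀ σ : Finset (Subgroup G), Bd ℓ P₁ P σ → ∃ g : G, (∀ D ∈ σ, D ≤ cj g P) ∧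
      Om P₁ P σ = cj g P₁ ∧ ((cj g P₁ ∈ σ ∧ inv P₁ P σ = σ.erase (cj g P₁) ∧
        (σ.erase (cj g P₁)).Nonempty) ∨
        (cj g P₁ ∉ σ ∧ inv P₁ P σ = insert (cj g P₁) σ)) := by
    intro σ hσ
    obtain ⟨g, hg⟩ := hσ.gd
    have h12 := Om_eq hPc hle hc1 hσ.ch hσ.ne hg
    refine ⟨g, hg, h12, ?_⟩
    by_cases hmem : cj g P₁ ∈ σ
    · left
      refine ⟨hmem, ?_, ?_⟩
      · unfold VSXX.inv
        rw [h12, if_pos hmem]
      · rw [Finset.nonempty_iff_ne_empty]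
        intro h13
        apply hσ.sg g
        rw [Finset.erase_eq_empty_iff] at h13
        rcases h13 with h13 | h13
        · exact absurd h13 hσ.ne.ne_empty
        · exact h13
    · right
      refine ⟨hmem, ?_⟩
      unfold VSXX.inv
      rw [h12, if_neg hmem]
  have hRsum : ∑ σ ∈ R, T σ = 0 := by
    refine Finset.sum_involution (fun σ _ => inv P₁ P σ) ?_ ?_ ?_ ?_
    · intro σ hσ
      have hB : Bd ℓ P₁ P σ := (Finset.mem_filter.1 hσ).2
      obtain ⟨g, hg, -, h | h⟩ := hinv σ hB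
      · obtain ⟨hmem, h12, h13⟩ := h
        rw [h12]
        have h14 := hTins (σ.erase (cj g P₁)) (hB.ch.subset (Finset.erase_subset _ _)) h13 g
          (fun D hD => hg D (Finset.mem_of_mem_erase hD)) (Finset.notMem_erase _ _)
        rw [Finset.insert_erase hmem] at h14
        rw [h14]
        ring
      · obtain ⟨hmem, h12⟩ := h
        rw [h12, hTins σ hB.ch hB.ne g hg hmem]
        ring
    · intro σ hσ _
      have hB : Bd ℓ P₁ P σ := (Finset.mem_filter.1 hσ).2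
      obtain ⟨g, hg, -, h | h⟩ := hinv σ hB
      · obtain ⟨hmem, h12, h13⟩ := h
        rw [h12]
        intro h14
        have h15 := Finset.notMem_erase (cj g P₁) σ
        rw [h14] at h15
        exact h15 hmem
      · obtain ⟨hmem, h12⟩ := h
        rw [h12]
        intro h14
        apply hmem
        have h15 := Finset.mem_insert_self (cj g P₁) σ
        rwa [h14] at h15
    · intro σ hσ
      have hB : Bd ℓ P₁ P σ := (Finset.mem_filter.1 hσ).2
      rw [hR, Finset.mem_filter, mem_Ch]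
      obtain ⟨g, hg, -, h | h⟩ := hinv σ hB
      · obtain ⟨hmem, h12, h13⟩ := h
        rw [h12]
        have h14 : IsCh ℓ (⊥ : Subgroup G) (σ.erase (cj g P₁)) :=
          hB.ch.subset (Finset.erase_subset _ _)
        have h15 : ∀ D ∈ σ.erase (cj g P₁), D ≤ cj g P :=
          fun D hD => hg D (Finset.mem_of_mem_erase hD)
        refine ⟨h14, h14, ⟨g, h15⟩, h13, ?_⟩
        intro g' hg'
        have h16 : cj g' P₁ ∈ σ.erase (cj g P₁) := by
          rw [hg']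
          exact Finset.mem_singleton_self _
        have h17 : cj g' P₁ = cj g P₁ :=
          uniq' (cj_cyc hPc g) (h15 _ h16) (cj_mono hle g) (by rw [card_cj, card_cj])
        rw [h17] at h16
        exact Finset.notMem_erase _ _ h16
      · obtain ⟨hmem, h12⟩ := h
        rw [h12]
        have h14 := (hins σ hB.ch hB.ne g hg).2.2
        have h15 : ∀ D ∈ insert (cj g P₁) σ, D ≤ cj g P := by
          intro D hD
          rcases Finset.mem_insert.1 hD with rfl | hD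
          · exact cj_mono hle g
          · exact hg D hD
        refine ⟨h14, h14, ⟨g, h15⟩, Finset.insert_nonempty _ _, ?_⟩
        intro g' hg'
        obtain ⟨D, hD⟩ := hB.ne
        have h16 : D ∈ ({cj g' P₁} : Finset (Subgroup G)) := by
          rw [← hg']
          exact Finset.mem_insert_of_mem hD
        have h17 : cj g P₁ ∈ ({cj g' P₁} : Finset (Subgroup G)) := by
          rw [← hg']
          exact Finset.mem_insert_self _ _
        rw [Finset.mem_singleton] at h16 h17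
        apply hmem
        rw [h17, ← h16]
        exact hD
    · intro σ hσ
      have hB : Bd ℓ P₁ P σ := (Finset.mem_filter.1 hσ).2
      obtain ⟨g, hg, hOm, h | h⟩ := hinv σ hB
      · obtain ⟨hmem, h12, h13⟩ := h
        show inv P₁ P (inv P₁ P σ) = σ
        rw [h12]
        have h14 : IsCh ℓ (⊥ : Subgroup G) (σ.erase (cj g P₁)) :=
          hB.ch.subset (Finset.erase_subset _ _)
        have h16 : Om P₁ P (σ.erase (cj g P₁)) = cj g P₁ := Om_eq hPc hle hc1 h14 h13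
          (fun D hD => hg D (Finset.mem_of_mem_erase hD))
        unfold VSXX.inv
        rw [h16, if_neg (Finset.notMem_erase _ _), Finset.insert_erase hmem]
      · obtain ⟨hmem, h12⟩ := h
        show inv P₁ P (inv P₁ P σ) = σ
        rw [h12]
        have h14 := (hins σ hB.ch hB.ne g hg).2.2
        have h15 : ∀ D ∈ insert (cj g P₁) σ, D ≤ cj g P := by
          intro D hD
          rcases Finset.mem_insert.1 hD with rfl | hD
          · exact cj_mono hle g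
          · exact hg D hD
        have h16 : Om P₁ P (insert (cj g P₁) σ) = cj g P₁ :=
          Om_eq hPc hle hc1 h14 (Finset.insert_nonempty _ _) h15
        unfold VSXX.inv
        rw [h16, if_pos (Finset.mem_insert_self _ _), Finset.erase_insert hmem]
  -- the sum
  have htot : ∑ σ ∈ Ch ℓ (⊥ : Subgroup G), T σ = ∑ σ ∈ insert ∅ S₁, T σ := by
    have hRs : R ⊆ (Ch ℓ (⊥ : Subgroup G)) \ insert ∅ S₁ := by
      intro σ hσ
      have hB : Bd ℓ P₁ P σ := (Finset.mem_filter.1 hσ).2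
      rw [Finset.mem_sdiff]
      refine ⟨(Finset.mem_filter.1 hσ).1, ?_⟩
      intro h12
      rcases Finset.mem_insert.1 h12 with h12 | h12
      · exact hB.ne.ne_empty h12
      · obtain ⟨D, hD, h13⟩ := Finset.mem_image.1 h12
        obtain ⟨g, hg⟩ := (Finset.mem_filter.1 hD).2
        exact hB.sg g (by rw [← h13, ← hg])
    have h12 : ∑ σ ∈ (Ch ℓ (⊥ : Subgroup G)) \ insert ∅ S₁, T σ = 0 := by
      rw [← Finset.sum_subset hRs, hRsum]
      intro σ hσ hnot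
      obtain ⟨h13, h14⟩ := Finset.mem_sdiff.1 hσ
      by_cases hgd : Gd P σ
      · exfalso
        apply hnot
        refine Finset.mem_filter.2 ⟨h13, mem_Ch.1 h13, hgd, ?_, ?_⟩
        · rw [Finset.nonempty_iff_ne_empty]
          intro h15
          apply h14
          rw [h15]
          exact Finset.mem_insert_self _ _
        · intro g h15
          apply h14
          apply Finset.mem_insert_of_mem
          rw [h15]
          exact Finset.mem_image.2 ⟨cj g P₁, Finset.mem_filter.2 ⟨Finset.mem_univ _, g, rfl⟩, rfl⟩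
      · exact hzero σ h13 hgd
    rw [← Finset.sum_sdiff hsub, h12, zero_add]
  have hT0 : T ∅ = (Nat.card G : ℚ) * (NN 𝔐 ℓ ι κ ρ L β e ∅ : ℚ) := by
    show (-1 : ℚ) ^ (∅ : Finset (Subgroup G)).card *
      ((Nat.card (stb (∅ : Finset (Subgroup G))) : ℚ) * (NN 𝔐 ℓ ι κ ρ L β e ∅ : ℚ)) = _
    rw [Finset.card_empty, pow_zero, one_mul, h11]
  rw [h3, htot, Finset.sum_insert hne, hT0, hS₁,
    Finset.sum_image (fun D _ E _ h => Finset.singleton_injective h),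
    Finset.sum_congr rfl h4, Finset.sum_const, nsmul_eq_mul, mul_sub, ← h8]
  change _ = (_ * (NN 𝔐 ℓ ι κ ρ L β e ∅ : ℚ)) - _ * (NN 𝔐 ℓ ι κ ρ L β e {P₁} : ℚ)
  ring

end Pool.Agent.DPX


end

section

/-!
# CJS: conjugation of chains
-/

namespace Pool.Agent.DPG

open Pool.Agent.DP Pool.Agent.DPC Pool.Agent.DPM Pool.Agent.DPN Pool.Agent.DPF
  Pool.Agent.Lib_helper13 Representation

namespace CJS

variable {G : Type} [Group G]

theorem mem_cj (g : G) (D : Subgroup G) (x : G) :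
    x ∈ D.map (MulAut.conj g).toMonoidHom ↔ g⁻¹ * x * g ∈ D := by
  rw [Subgroup.mem_map]
  constructor
  · rintro ⟨y, hy, rfl⟩
    have : g⁻¹ * (MulAut.conj g).toMonoidHom y * g = y := by
      change g⁻¹ * (g * y * g⁻¹) * g = y
      group
    rw [this]
    exact hy
  · intro h
    refine ⟨g⁻¹ * x * g, h, ?_⟩
    change g * (g⁻¹ * x * g) * g⁻¹ = x
    group

theorem cj_one (D : Subgroup G) : D.map (MulAut.conj (1 : G)).toMonoidHom = D := by
  ext x
  rw [mem_cj]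
  simp

theorem cj_mul (g h : G) (D : Subgroup G) : D.map (MulAut.conj (g * h)).toMonoidHom =
    (D.map (MulAut.conj h).toMonoidHom).map (MulAut.conj g).toMonoidHom := by
  ext x
  rw [mem_cj, mem_cj, mem_cj]
  have : (g * h)⁻¹ * x * (g * h) = h⁻¹ * (g⁻¹ * x * g) * h := by group
  rw [this]

theorem cj_inj (g : G) : Function.Injective
    (fun D : Subgroup G => D.map (MulAut.conj g).toMonoidHom) := by
  intro D E h
  have h1 : (D.map (MulAut.conj g).toMonoidHom).map (MulAut.conj g⁻¹).toMonoidHom =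
      (E.map (MulAut.conj g).toMonoidHom).map (MulAut.conj g⁻¹).toMonoidHom := by
    have h' : D.map (MulAut.conj g).toMonoidHom = E.map (MulAut.conj g).toMonoidHom := h
    rw [h']
  rw [← cj_mul, ← cj_mul, inv_mul_cancel, cj_one, cj_one] at h1
  exact h1

theorem mem_cjC (g : G) (σ : Finset (Subgroup G)) (E : Subgroup G) :
    E ∈ cjC g σ ↔ ∃ D ∈ σ, D.map (MulAut.conj g).toMonoidHom = E := by
  classical
  unfold cjC
  simp

theorem cjC_one (σ : Finset (Subgroup G)) : cjC (1 : G) σ = σ := by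
  ext E
  rw [mem_cjC]
  constructor
  · rintro ⟨D, hD, rfl⟩
    rw [cj_one]
    exact hD
  · intro h
    exact ⟨E, h, cj_one E⟩

theorem cjC_mul (g h : G) (σ : Finset (Subgroup G)) : cjC (g * h) σ = cjC g (cjC h σ) := by
  ext E
  rw [mem_cjC, mem_cjC]
  constructor
  · rintro ⟨D, hD, rfl⟩
    exact ⟨_, (mem_cjC _ _ _).2 ⟨D, hD, rfl⟩, (cj_mul g h D).symm⟩
  · rintro ⟨E', hE', rfl⟩
    obtain ⟨D, hD, rfl⟩ := (mem_cjC _ _ _).1 hE'
    exact ⟨D, hD, cj_mul g h D⟩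

theorem cjC_card (g : G) (σ : Finset (Subgroup G)) : (cjC g σ).card = σ.card := by
  classical
  unfold cjC
  exact Finset.card_image_of_injective _ (cj_inj g)

theorem stb_cjC (g : G) (σ : Finset (Subgroup G)) :
    stb (cjC g σ) = (stb σ).map (MulAut.conj g).toMonoidHom := by
  ext k
  rw [mem_cj, mem_stb', mem_stb']
  constructor
  · intro h D hD x
    have h1 := h _ ((mem_cjC _ _ _).2 ⟨D, hD, rfl⟩) (g * x * g⁻¹)
    rw [mem_cj, mem_cj] at h1
    have e1 : g⁻¹ * (g * x * g⁻¹) * g = x := by group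
    have e2 : g⁻¹ * (k * (g * x * g⁻¹) * k⁻¹) * g =
        g⁻¹ * k * g * x * (g⁻¹ * k * g)⁻¹ := by group
    rw [e1, e2] at h1
    exact h1
  · intro h E hE x
    obtain ⟨D, hD, rfl⟩ := (mem_cjC _ _ _).1 hE
    have h1 := h D hD (g⁻¹ * x * g)
    rw [mem_cj, mem_cj]
    have e2 : g⁻¹ * (k * x * k⁻¹) * g =
        g⁻¹ * k * g * (g⁻¹ * x * g) * (g⁻¹ * k * g)⁻¹ := by group
    rw [e2]
    exact h1

theorem chN_cjC (ℓ : ℕ) (M : Subgroup G) [M.Normal] (g : G) (σ : Finset (Subgroup G))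
    (h : ChN ℓ M σ) : ChN ℓ M (cjC g σ) := by
  have hinj : Function.Injective (MulAut.conj g).toMonoidHom := (MulAut.conj g).injective
  refine ⟨⟨?_, ?_⟩, ?_⟩
  · intro E hE
    obtain ⟨D, hD, rfl⟩ := (mem_cjC _ _ _).1 hE
    obtain ⟨h1, h2⟩ := h.1.1 D hD
    refine ⟨h1.map _, ?_⟩
    rw [bot_lt_iff_ne_bot]
    intro h3
    rw [Subgroup.map_eq_bot_iff_of_injective _ hinj] at h3
    rw [h3] at h2
    exact lt_irrefl _ h2
  · intro E hE E' hE' _
    obtain ⟨D, hD, rfl⟩ := (mem_cjC _ _ _).1 (Finset.mem_coe.1 hE)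
    obtain ⟨D', hD', rfl⟩ := (mem_cjC _ _ _).1 (Finset.mem_coe.1 hE')
    rcases h.1.total hD hD' with h1 | h1
    · exact Or.inl (Subgroup.map_mono h1)
    · exact Or.inr (Subgroup.map_mono h1)
  · intro E hE
    obtain ⟨D, hD, rfl⟩ := (mem_cjC _ _ _).1 hE
    rintro x hx
    rw [mem_cj] at hx
    have h1 := Subgroup.Normal.conj_mem ‹M.Normal› _ (h.2 D hD hx) g
    have e : g * (g⁻¹ * x * g) * g⁻¹ = x := by group
    rw [e] at h1
    exact h1

theorem cjC_of_mem {g : G} {σ : Finset (Subgroup G)} (h : g ∈ stb σ) : cjC g σ = σ := by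
  rw [mem_stb] at h
  ext E
  rw [mem_cjC]
  constructor
  · rintro ⟨D, hD, rfl⟩
    rw [h D hD]
    exact hD
  · intro hE
    exact ⟨E, hE, h E hE⟩

theorem mem_of_cjC [Finite G] {ℓ : ℕ} {g : G} {σ : Finset (Subgroup G)} (hσ : IsCh ℓ ⊥ σ)
    (h : cjC g σ = σ) : g ∈ stb σ := by
  rw [mem_stb]
  intro D hD
  have hinj : Function.Injective (MulAut.conj g).toMonoidHom := (MulAut.conj g).injective
  have h1 : D.map (MulAut.conj g).toMonoidHom ∈ σ := by
    have : D.map (MulAut.conj g).toMonoidHom ∈ cjC g σ := (mem_cjC _ _ _).2 ⟨D, hD, rfl⟩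
    rw [h] at this
    exact this
  have hc : Nat.card (D.map (MulAut.conj g).toMonoidHom) = Nat.card D :=
    (Nat.card_congr (D.equivMapOfInjective _ hinj).toEquiv).symm
  rcases hσ.total h1 hD with h2 | h2
  · exact Subgroup.eq_of_le_of_card_ge h2 (le_of_eq hc.symm)
  · exact (Subgroup.eq_of_le_of_card_ge h2 (le_of_eq hc)).symm

end CJS

/-- CJS -/
theorem CJS_thm : Stmt_CJS := by
  intro G _ _ ℓ M _ g h σ
  exact ⟨CJS.cjC_one σ, CJS.cjC_mul g h σ, CJS.cjC_card g σ, CJS.stb_cjC g σ,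
    CJS.chN_cjC ℓ M g σ, CJS.cjC_of_mem, CJS.mem_of_cjC⟩

end Pool.Agent.DPG


end

section

/-!
# ZEX: a character over a product of characters is a product
-/

namespace Pool.Agent.DPG

open Pool.Agent.DP Pool.Agent.DPC Pool.Agent.DPM Pool.Agent.DPN Pool.Agent.DPF
  Pool.Agent.DPK Pool.Agent.Lib_helper13 Representation
open Pool.Agent.Lib_helper13.Dade (pCore DadeHolds dadeSum)

namespace ZEX

/-- An injective homomorphism onto the kernel of a homomorphism. -/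
theorem exists_clG {A Y K : Type} [Group A] [Group Y] [Group K] (j : A →* Y)
    (hj : Function.Injective j) (p : Y →* K) (hp : ∀ y, p y = 1 ↔ y ∈ j.range) :
    ∃ c : Y →* MulAut A, ClG j c p := by
  have hn : j.range.Normal := by
    have h1 : j.range = p.ker := by
      ext y
      rw [MonoidHom.mem_ker, hp]
    rw [h1]
    infer_instance
  let e : A ≃* j.range := MonoidHom.ofInjective hj
  refine ⟨(MulAut.congr e.symm).toMonoidHom.comp (MulAut.conjNormal : Y →* MulAut j.range),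
    ⟨hj, ?_, hp⟩⟩
  intro y a
  have h1 : ∀ b : j.range, j (e.symm b) = b := by
    intro b
    have h2 := MonoidHom.apply_ofInjective_symm hj b
    exact h2
  change j (e.symm (MulAut.conjNormal y (e a))) = _
  rw [h1, MulAut.conjNormal_apply]
  rfl

section Cen

variable {K1 Q L1 : Type} [Group K1] [Group Q] [Group L1]

/-- The restriction of an irreducible character to a subgroup which generates the group together
with central elements. -/
theorem res_irr [Finite Q] [Finite L1] {q : Q →* K1} {π1 : L1 →* K1} {μ1 : π1.ker →* ℂˣ}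
    {ι : Q →* L1} (hc : π1.ker ≤ Subgroup.center L1) (hι : ∀ x, π1 (ι x) = q x)
    (S : Subgroup K1) {F : L1 → ℂ} (hF : IsIrr (fun a : AL π1 q.range S => F a))
    (hov : Ov π1 μ1 F) : IsIrr (fun a : ↥(S.comap q) => F (ι a)) := by
  classical
  have i1 : Fintype ↥(S.comap q) := Fintype.ofFinite _
  have i2 : Fintype π1.ker := Fintype.ofFinite _
  have i3 : Fintype (AL π1 q.range S) := Fintype.ofFinite _
  let p : ↥(S.comap q) × π1.ker →* AL π1 q.range S :=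
    { toFun := fun x => ⟨(x.2 : L1) * ι x.1, by
        change π1 _ ∈ q.range ⊓ S
        have h1 : π1 ((x.2 : L1) * ι x.1) = q x.1 := by
          rw [map_mul, MonoidHom.mem_ker.mp x.2.2, one_mul, hι]
        rw [h1]
        exact Subgroup.mem_inf.mpr ⟨⟨_, rfl⟩, x.1.2⟩⟩
      map_one' := by
        apply Subtype.ext
        simp
      map_mul' := by
        intro x y
        apply Subtype.ext
        change ((x.2 : L1) * (y.2 : L1)) * ι ((x.1 : Q) * (y.1 : Q)) =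
          ((x.2 : L1) * ι x.1) * ((y.2 : L1) * ι y.1)
        have h1 : (y.2 : L1) * ι x.1 = ι x.1 * (y.2 : L1) :=
          (Subgroup.mem_center_iff.mp (hc y.2.2) (ι x.1)).symm
        rw [map_mul]
        calc ((x.2 : L1) * (y.2 : L1)) * (ι x.1 * ι y.1)
            = (x.2 : L1) * ((y.2 : L1) * ι x.1) * ι y.1 := by group
          _ = ((x.2 : L1) * ι x.1) * ((y.2 : L1) * ι y.1) := by rw [h1]; group }
  have hp : Function.Surjective p := by
    rintro ⟨y, hy⟩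
    obtain ⟨⟨x, hx⟩, hy2⟩ := Subgroup.mem_inf.mp hy
    refine ⟨(⟨x, by
      change q x ∈ S
      rw [hx]
      exact hy2⟩, ⟨y * (ι x)⁻¹, by
      rw [MonoidHom.mem_ker, map_mul, map_inv, hι, hx, mul_inv_cancel]⟩), ?_⟩
    apply Subtype.ext
    change (y * (ι x)⁻¹) * ι x = y
    group
  have h1 := QL.irr_comp p hp hF
  have h2 := h1.sum_self
  have hch : IsChr (fun a : ↥(S.comap q) => F (ι a)) := by
    have h3 := h1.isChr.comp (MonoidHom.inl ↥(S.comap q) π1.ker)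
    have h4 : (fun a : ↥(S.comap q) => F (ι a)) =
        fun x => (fun x => F ((p x : AL π1 q.range S) : L1))
          ((MonoidHom.inl ↥(S.comap q) π1.ker) x) := by
      funext a
      change F (ι a) = F ((1 : L1) * ι a)
      rw [one_mul]
    rw [h4]
    exact h3
  refine hch.isIrr ?_
  have h5 : ∀ x : ↥(S.comap q) × π1.ker,
      F ((p x : AL π1 q.range S) : L1) * F ((p x⁻¹ : AL π1 q.range S) : L1) =
        F (ι x.1) * F (ι (x.1⁻¹ : ↥(S.comap q))) := by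
    intro x
    have h6 : F ((p x : AL π1 q.range S) : L1) = ((μ1 x.2 : ℂˣ) : ℂ) * F (ι x.1) := hov x.2 _
    have h7 : F ((p x⁻¹ : AL π1 q.range S) : L1) =
        ((μ1 x.2⁻¹ : ℂˣ) : ℂ) * F (ι (x.1⁻¹ : ↥(S.comap q))) := hov x.2⁻¹ _
    rw [h6, h7, map_inv, Units.val_inv_eq_inv_val]
    have h8 : ((μ1 x.2 : ℂˣ) : ℂ) ≠ 0 := Units.ne_zero _
    field_simp
  rw [Finset.sum_congr rfl fun x _ => h5 x, Fintype.sum_prod_type] at h2
  simp only [Finset.sum_const, Finset.card_univ, nsmul_eq_mul] at h2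
  rw [← Finset.mul_sum, Nat.card_prod, Nat.cast_mul, mul_comm (Nat.card ↥(S.comap q) : ℂ),
    ← Nat.card_eq_fintype_card] at h2
  exact mul_left_cancel₀ (Nat.cast_ne_zero.mpr Nat.card_pos.ne') h2

end Cen

section Wr

variable {L K K1 Q L1 Ω : Type} [Group L] [Group K] [Group K1] [Group Q] [Group L1]
  [Fintype Ω]

/-- The elements above `M` and `T`. -/
def MS (π : L →* K) (φ : K →* Gam (Equiv.Perm Ω) Ω K1) (π1 : L1 →* K1) (M T : Subgroup K) :
    Subgroup (L × Gam (Equiv.Perm Ω) Ω L1) :=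
  MY π φ π1 M ⊓ T.comap (π.comp (MonoidHom.fst L (Gam (Equiv.Perm Ω) Ω L1)))

variable {ℓ : ℕ} {π : L →* K} {μ : π.ker →* ℂˣ}
  {φ : K →* Gam (Equiv.Perm Ω) Ω K1} {q : Q →* K1} {α : K1 →* MulAut Q}
  {ε : (Ω → Q) →* L} {μQ : q.ker →* ℂˣ} {π1 : L1 →* K1} {μ1 : π1.ker →* ℂˣ}
  {ι : Q →* L1} {M : Subgroup K} {M1 : Subgroup K1}

omit [Fintype Ω] in
theorem mem_MY {x : L × Gam (Equiv.Perm Ω) Ω L1} :
    x ∈ MY π φ π1 M ↔ φ (π x.1) = gmap Ω π1 x.2 ∧ π x.1 ∈ M := Iff.rfl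

omit [Fintype Ω] in
theorem mem_MS {T : Subgroup K} {x : L × Gam (Equiv.Perm Ω) Ω L1} :
    x ∈ MS π φ π1 M T ↔ x ∈ MY π φ π1 M ∧ π x.1 ∈ T := Iff.rfl

theorem left_eq {x : L × Gam (Equiv.Perm Ω) Ω L1} (hx : x ∈ MY π φ π1 M) (o : Ω) :
    π1 (x.2.left o) = (φ (π x.1)).left o := by
  rw [(mem_MY.mp hx).1]
  rfl

theorem right_eq (hM : MM ℓ π φ q ε M M1) {x : L × Gam (Equiv.Perm Ω) Ω L1}
    (hx : x ∈ MY π φ π1 M) : x.2.right = 1 := by
  have h1 : x.2.right = (φ (π x.1)).right := by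
    rw [(mem_MY.mp hx).1]
    rfl
  rw [h1, hM.r _ (mem_MY.mp hx).2]

theorem left_mul (hM : MM ℓ π φ q ε M M1) {x : L × Gam (Equiv.Perm Ω) Ω L1}
    (hx : x ∈ MY π φ π1 M) (y : L × Gam (Equiv.Perm Ω) Ω L1) (o : Ω) :
    (x * y).2.left o = x.2.left o * y.2.left o := by
  change x.2.left o * y.2.left (x.2.right⁻¹ • o) = _
  rw [right_eq hM hx, inv_one, one_smul]

theorem dY_mem (hW : WD π μ φ q α ε μQ) (hL : LD q α μQ π1 μ1 ι) (hM : MM ℓ π φ q ε M M1)
    (n : Ω → Q) : dY ε ι n ∈ MY π φ π1 M := by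
  rw [mem_MY]
  refine ⟨?_, hM.le ⟨ε n, ⟨n, rfl⟩, rfl⟩⟩
  change φ (π (ε n)) = gmap Ω π1 (gin (fun o => ι (n o)))
  rw [hW.φε]
  apply SemidirectProduct.ext
  · funext o
    exact (hL.πι (n o)).symm
  · rfl

/-- The homomorphism `dY`. -/
def jY (hW : WD π μ φ q α ε μQ) (hL : LD q α μQ π1 μ1 ι) (hM : MM ℓ π φ q ε M M1) :
    (Ω → Q) →* MY π φ π1 M where
  toFun n := ⟨dY ε ι n, dY_mem hW hL hM n⟩
  map_one' := by
    apply Subtype.ext
    change (ε 1, gin (fun o => ι ((1 : Ω → Q) o))) = 1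
    rw [map_one]
    apply Prod.ext
    · rfl
    · apply SemidirectProduct.ext
      · funext o
        change ι 1 = 1
        exact map_one ι
      · rfl
  map_mul' := by
    intro a b
    apply Subtype.ext
    change (ε (a * b), gin (fun o => ι ((a * b) o))) =
      (ε a * ε b, gin (fun o => ι (a o)) * gin (fun o => ι (b o)))
    rw [map_mul]
    apply Prod.ext
    · rfl
    · change gin (fun o => ι ((a * b) o)) = gin (fun o => ι (a o)) * gin (fun o => ι (b o))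
      unfold gin
      rw [← map_mul]
      congr 1
      funext o
      exact map_mul ι _ _

theorem jY_inj (hW : WD π μ φ q α ε μQ) (hL : LD q α μQ π1 μ1 ι) (hM : MM ℓ π φ q ε M M1) :
    Function.Injective (jY (π1 := π1) hW hL hM) := by
  intro a b hab
  have h1 : dY ε ι a = dY ε ι b := congrArg Subtype.val hab
  have h2 : (gin (fun o => ι (a o)) : Gam (Equiv.Perm Ω) Ω L1) = gin (fun o => ι (b o)) :=
    congrArg Prod.snd h1
  funext o
  have h3 := congrFun (congrArg SemidirectProduct.left h2) o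
  exact hL.ιi h3

theorem jY_normal (hW : WD π μ φ q α ε μQ) (hL : LD q α μQ π1 μ1 ι)
    (hM : MM ℓ π φ q ε M M1) : (jY (π1 := π1) hW hL hM).range.Normal := by
  refine ⟨?_⟩
  rintro _ ⟨n, rfl⟩ x
  refine ⟨wB α Ω (φ (π (x : L × Gam (Equiv.Perm Ω) Ω L1).1)) n, ?_⟩
  apply Subtype.ext
  change dY ε ι (wB α Ω (φ (π (x : L × Gam (Equiv.Perm Ω) Ω L1).1)) n) =
    (x : L × Gam (Equiv.Perm Ω) Ω L1) * dY ε ι n * (x : L × Gam (Equiv.Perm Ω) Ω L1)⁻¹
  obtain ⟨⟨l, g⟩, hx⟩ := x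
  have hr : g.right = 1 := right_eq hM hx
  have hrk : (φ (π l)).right = 1 := hM.r _ (mem_MY.mp hx).2
  apply Prod.ext
  · exact hW.cj l n
  · change gin (fun o => ι (wB α Ω (φ (π l)) n o)) = g * gin (fun o => ι (n o)) * g⁻¹
    apply SemidirectProduct.ext
    · funext o
      have h2 : (φ (π l)).left o = π1 (g.left o) := (left_eq hx o).symm
      change ι (α ((φ (π l)).left o) (n ((φ (π l)).right⁻¹ • o))) =
        g.left o * ι (n (g.right⁻¹ • o)) *
          (g.left (g.right⁻¹⁻¹ • ((g.right * 1)⁻¹ • o)))⁻¹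
      rw [hrk, hr, h2]
      simp only [inv_one, one_smul, mul_one]
      exact hL.ια _ _
    · change (1 : Equiv.Perm Ω) = g.right * 1 * g.right⁻¹
      rw [mul_one, mul_inv_cancel]

theorem gz_mem (z : Ω → π1.ker) : ((1 : L), (gin (fun o => (z o : L1)) :
    Gam (Equiv.Perm Ω) Ω L1)) ∈ MY π φ π1 M := by
  rw [mem_MY]
  refine ⟨?_, ?_⟩
  · change φ (π 1) = gmap Ω π1 (gin (fun o => (z o : L1)))
    rw [map_one, map_one]
    apply SemidirectProduct.ext
    · funext o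
      exact (MonoidHom.mem_ker.mp (z o).2).symm
    · rfl
  · change π 1 ∈ M
    rw [map_one]
    exact M.one_mem

theorem exists_MS (hW : WD π μ φ q α ε μQ) (hL : LD q α μQ π1 μ1 ι)
    (hM : MM ℓ π φ q ε M M1) (hq : q.range.Normal) {S : Subgroup K1} {T : Subgroup K}
    (hT : ∀ k, k ∈ T ↔ ∀ o, (φ k).left o ∈ S) (hcov : M1 ≤ q.range ⊔ S)
    {x : L × Gam (Equiv.Perm Ω) Ω L1} (hx : x ∈ MY π φ π1 M) :
    ∃ n : Ω → Q, x * dY ε ι n ∈ MS π φ π1 M T := by
  have h1 : ∀ o, ∃ n : Q, π1 (x.2.left o) * q n ∈ S := by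
    intro o
    have h2 : π1 (x.2.left o) ∈ M1 := by
      rw [left_eq hx]
      exact hM.l _ (mem_MY.mp hx).2 o
    obtain ⟨s, hs, _, ⟨n, rfl⟩, h3⟩ := Subgroup.mem_sup_of_normal_right.mp (by
      have h4 := hcov h2
      rw [sup_comm] at h4
      exact h4)
    refine ⟨n⁻¹, ?_⟩
    rw [← h3, map_inv, mul_assoc, mul_inv_cancel, mul_one]
    exact hs
  choose n hn using h1
  refine ⟨n, ?_⟩
  have h5 : x * dY ε ι n ∈ MY π φ π1 M := (MY π φ π1 M).mul_mem hx (dY_mem hW hL hM n)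
  refine mem_MS.mpr ⟨h5, ?_⟩
  rw [hT]
  intro o
  rw [← left_eq h5, left_mul hM hx, map_mul]
  have h6 : π1 ((dY ε ι n).2.left o) = q (n o) := hL.πι (n o)
  rw [h6]
  exact hn o

theorem core [Fintype L] [Fintype K] [Fintype K1] [Fintype Q] [Fintype L1]
    (hW : WD π μ φ q α ε μQ) (hL : LD q α μQ π1 μ1 ι)
    (hM : MM ℓ π φ q ε M M1) (hq : q.range.Normal) (S : Subgroup K1) (T : Subgroup K)
    (hT : ∀ k, k ∈ T ↔ ∀ o, (φ k).left o ∈ S) {F : L1 → ℂ} (hF : EF π1 q.range M1 S F)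
    (hov : Ov π1 μ1 F) {θ : L → ℂ} {e : ℂ} (hθ : IrrOn (AL π M T) θ)
    (hθe : ∀ n : Ω → Q, θ (ε n) = e * ∏ o, F (ι (n o))) :
    ∃ ζ, ZT π φ π1 μ1 ε ι M ζ ∧ TP π φ π1 M F ζ θ := by
  classical
  have i0 : Fintype (Gam (Equiv.Perm Ω) Ω L1) := gamFintype _ _ _
  have hDn := jY_normal (π1 := π1) hW hL hM
  set DD : Subgroup ↥(MY π φ π1 M) := (jY (π1 := π1) hW hL hM).range with hDD
  have i1 : Fintype ↥(MS π φ π1 M T) := Fintype.ofFinite _
  have i2 : Fintype (↥(MY π φ π1 M) ⧸ DD) := Fintype.ofFinite _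
  have i3 : Fintype ↥(MY π φ π1 M) := Fintype.ofFinite _
  let P : Subgroup (Ω → Q) := pK (fun _ : Ω => S.comap q)
  have i4 : Fintype P := Fintype.ofFinite _
  have hφε : ∀ (n : Ω → Q) o, (φ (π (ε n))).left o = q (n o) := by
    intro n o
    rw [hW.φε]
    rfl
  have hjm : ∀ a : P, dY ε ι (a : Ω → Q) ∈ MS π φ π1 M T := by
    intro a
    refine mem_MS.mpr ⟨dY_mem hW hL hM a, ?_⟩
    rw [hT]
    intro o
    change (φ (π (ε a))).left o ∈ S
    rw [hφε]
    exact mem_pK.mp a.2 o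
  let j : P →* ↥(MS π φ π1 M T) :=
    (((MY π φ π1 M).subtype.comp (jY (π1 := π1) hW hL hM)).comp P.subtype).codRestrict
      (MS π φ π1 M T) hjm
  have hjv : ∀ a : P, ((j a : ↥(MS π φ π1 M T)) : L × Gam (Equiv.Perm Ω) Ω L1) =
    dY ε ι (a : Ω → Q) := fun a => rfl
  have hj : Function.Injective j := by
    intro a b hab
    have h1 : dY ε ι (a : Ω → Q) = dY ε ι (b : Ω → Q) := congrArg Subtype.val hab
    apply Subtype.ext
    exact jY_inj (π1 := π1) hW hL hM (Subtype.ext h1)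
  let p : ↥(MS π φ π1 M T) →* ↥(MY π φ π1 M) ⧸ DD :=
    (QuotientGroup.mk' DD).comp (Subgroup.inclusion (inf_le_left :
      MS π φ π1 M T ≤ MY π φ π1 M))
  have hp : ∀ y, p y = 1 ↔ y ∈ j.range := by
    intro y
    change QuotientGroup.mk' DD (Subgroup.inclusion _ y) = 1 ↔ _
    rw [QuotientGroup.mk'_apply, QuotientGroup.eq_one_iff]
    constructor
    · rintro ⟨n, hn⟩
      have hn' : dY ε ι n = (y : L × Gam (Equiv.Perm Ω) Ω L1) := congrArg Subtype.val hn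
      have h1 : n ∈ P := by
        refine mem_pK.mpr fun o => ?_
        have h2 := (hT _).mp (mem_MS.mp y.2).2 o
        rw [← hn'] at h2
        change (φ (π (ε n))).left o ∈ S at h2
        rw [hφε] at h2
        exact h2
      exact ⟨⟨n, h1⟩, Subtype.ext hn'⟩
    · rintro ⟨a, rfl⟩
      exact ⟨a, rfl⟩
  obtain ⟨c, hc⟩ := exists_clG j hj p hp
  have hps : Function.Surjective p := by
    intro x
    obtain ⟨⟨x, hx⟩, rfl⟩ := QuotientGroup.mk'_surjective DD x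
    obtain ⟨n, hn⟩ := exists_MS hW hL hM hq hT hF.cov hx
    refine ⟨⟨_, hn⟩, ?_⟩
    change QuotientGroup.mk' DD _ = QuotientGroup.mk' DD _
    rw [QuotientGroup.mk'_apply, QuotientGroup.mk'_apply, eq_comm, QuotientGroup.eq]
    refine ⟨n, ?_⟩
    apply Subtype.ext
    change dY ε ι n = x⁻¹ * (x * dY ε ι n)
    group
  -- the characters
  have hFq : IsIrr (fun a : ↥(S.comap q) => F (ι a)) :=
    res_irr hL.c hL.πι S hF.res hov
  have hFq0 : ∀ x, x ∉ S.comap q → F (ι x) = 0 := by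
    intro x hx
    refine hF.irr.2 _ fun h => hx ?_
    have h1 := (Subgroup.mem_inf.mp h).2
    rw [hL.πι] at h1
    exact h1
  have hθA : IsIrr (fun a : P => ∏ o, F (ι ((a : Ω → Q) o))) :=
    (IRRPI_thm Ω Q (fun _ => S.comap q) P rfl).1 (fun _ x => F (ι x))
      (fun _ => ⟨hFq, hFq0⟩)
  have hE : IsChr (fun x : ↥(MS π φ π1 M T) =>
      ∏ o, F ((x : L × Gam (Equiv.Perm Ω) Ω L1).2.left o)) := by
    refine IsChr.prod Finset.univ (fun o (x : ↥(MS π φ π1 M T)) =>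
      F ((x : L × Gam (Equiv.Perm Ω) Ω L1).2.left o)) fun o => ?_
    let r : ↥(MS π φ π1 M T) →* ↥(AL π1 M1 S) :=
      { toFun := fun x => ⟨(x : L × Gam (Equiv.Perm Ω) Ω L1).2.left o, by
          change π1 _ ∈ M1 ⊓ S
          rw [left_eq (mem_MS.mp x.2).1]
          exact Subgroup.mem_inf.mpr ⟨hM.l _ (mem_MY.mp (mem_MS.mp x.2).1).2 o,
            (hT _).mp (mem_MS.mp x.2).2 o⟩⟩
        map_one' := rfl
        map_mul' := by
          intro x y
          apply Subtype.ext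
          exact left_mul hM (mem_MS.mp x.2).1 _ o }
    exact hF.irr.1.isChr.comp r
  have hψ : IsIrr (fun x : ↥(MS π φ π1 M T) =>
      θ (x : L × Gam (Equiv.Perm Ω) Ω L1).1) := by
    let r : ↥(MS π φ π1 M T) →* ↥(AL π M T) :=
      ((MonoidHom.fst L (Gam (Equiv.Perm Ω) Ω L1)).comp (MS π φ π1 M T).subtype).codRestrict
        (AL π M T) (fun x => Subgroup.mem_inf.mpr
          ⟨(mem_MY.mp (mem_MS.mp x.2).1).2, (mem_MS.mp x.2).2⟩)
    have hr : Function.Surjective r := by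
      rintro ⟨l, hl⟩
      have hl' := Subgroup.mem_inf.mp hl
      have h1 : ∀ o, ∃ y, π1 y = (φ (π l)).left o := fun o => hL.s _
      choose y hy using h1
      refine ⟨⟨(l, (⟨y, (φ (π l)).right⟩ : Gam (Equiv.Perm Ω) Ω L1)), ?_⟩, rfl⟩
      refine mem_MS.mpr ⟨mem_MY.mpr ⟨?_, hl'.1⟩, hl'.2⟩
      apply SemidirectProduct.ext
      · funext o
        exact (hy o).symm
      · rfl
    have i5 : Fintype ↥(AL π M T) := Fintype.ofFinite _
    exact QL.irr_comp r hr hθ.1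
  have he : e ≠ 0 := by
    rintro rfl
    have h1 := hθe 1
    rw [map_one, zero_mul] at h1
    exact hθ.1.one_ne_zero h1
  obtain ⟨η, hη, hηe⟩ := (b_GALL P ↥(MS π φ π1 M T) (↥(MY π φ π1 M) ⧸ DD) j c p hc hps _
    _ hθA hE (fun a => rfl)).2.2 _ hψ (by
      have h1 : resj j (fun x : ↥(MS π φ π1 M T) =>
          θ (x : L × Gam (Equiv.Perm Ω) Ω L1).1) =
          fun a : P => e * ∏ o, F (ι ((a : Ω → Q) o)) := by
        funext a
        exact hθe a
      have h2 := ip_self hθA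
      rw [h1]
      unfold ip at h2 ⊢
      have h3 : ∀ a : P, (e * ∏ o, F (ι ((a : Ω → Q) o))) *
          ∏ o, F (ι (((a⁻¹ : P) : Ω → Q) o)) = e * ((∏ o, F (ι ((a : Ω → Q) o))) *
          ∏ o, F (ι (((a⁻¹ : P) : Ω → Q) o))) := fun a => by ring
      rw [Finset.sum_congr rfl fun a _ => h3 a, ← Finset.mul_sum, mul_div_assoc, h2, mul_one]
      exact he)
  have hval : ∀ (x : L × Gam (Equiv.Perm Ω) Ω L1) (hx : x ∈ MS π φ π1 M T),
      θ x.1 = (∏ o, F (x.2.left o)) * η (QuotientGroup.mk' DD ⟨x, (mem_MS.mp hx).1⟩) :=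
    fun x hx => congrFun hηe ⟨x, hx⟩
  -- the function
  let ζ : L × Gam (Equiv.Perm Ω) Ω L1 → ℂ := fun x =>
    if h : x ∈ MY π φ π1 M then η (QuotientGroup.mk' DD ⟨x, h⟩) else 0
  have hζ : ∀ x (h : x ∈ MY π φ π1 M), ζ x = η (QuotientGroup.mk' DD ⟨x, h⟩) :=
    fun x h => dif_pos h
  have hζ0 : ∀ x, x ∉ MY π φ π1 M → ζ x = 0 := fun x h => dif_neg h
  have hd : ∀ (n : Ω → Q) (x), ζ (x * dY ε ι n) = ζ x := by
    intro n x
    have h1 := dY_mem (π1 := π1) hW hL hM n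
    by_cases hx : x ∈ MY π φ π1 M
    · rw [hζ x hx, hζ _ ((MY π φ π1 M).mul_mem hx h1)]
      congr 1
      rw [QuotientGroup.mk'_apply, QuotientGroup.mk'_apply, eq_comm, QuotientGroup.eq]
      refine ⟨n, ?_⟩
      apply Subtype.ext
      change dY ε ι n = x⁻¹ * (x * dY ε ι n)
      group
    · rw [hζ0 x hx, hζ0]
      intro h
      exact hx (((MY π φ π1 M).mul_mem_cancel_right h1).mp h)
  refine ⟨ζ, ⟨⟨?_, hζ0⟩, hd, ?_⟩, ?_, ?_⟩
  · have h1 : (fun s : ↥(MY π φ π1 M) => ζ s) = fun s => η (QuotientGroup.mk' DD s) := by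
      funext s
      exact hζ s s.2
    rw [h1]
    exact QL.irr_comp (QuotientGroup.mk' DD) (QuotientGroup.mk'_surjective DD) hη
  · intro z x
    have hg := gz_mem (π := π) (φ := φ) (M := M) z
    by_cases hx : x ∈ MY π φ π1 M
    · obtain ⟨n1, hn1⟩ := exists_MS hW hL hM hq hT hF.cov hx
      have h1 := COSET_thm P ↥(MS π φ π1 M T) (↥(MY π φ π1 M) ⧸ DD) j c p hc _ _ hθA hE
        (fun a => rfl) ⟨_, hn1⟩
      have h2 : ∃ a : P, (∏ o, F ((((⟨_, hn1⟩ * j a : ↥(MS π φ π1 M T))) :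
          L × Gam (Equiv.Perm Ω) Ω L1).2.left o)) ≠ 0 := by
        by_contra hcon
        push Not at hcon
        rw [Finset.sum_congr rfl fun a _ => by rw [hcon a, zero_mul]] at h1
        rw [Finset.sum_const_zero] at h1
        exact (Nat.cast_ne_zero.mpr (Nat.card_pos (α := P)).ne') h1.symm
      obtain ⟨a, ha⟩ := h2
      set x' : L × Gam (Equiv.Perm Ω) Ω L1 := x * dY ε ι n1 * dY ε ι (a : Ω → Q) with hx'
      have hx'm : x' ∈ MS π φ π1 M T := (MS π φ π1 M T).mul_mem hn1 (hjm a)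
      have ha' : ∏ o, F (x'.2.left o) ≠ 0 := ha
      have hx'Y := (mem_MS.mp hx'm).1
      have h3 : ζ x' = ζ x := by
        rw [hx', hd, hd]
      have h4 : ζ ((1, gin (fun o => (z o : L1))) * x') =
          ζ ((1, gin (fun o => (z o : L1))) * x) := by
        rw [hx', ← mul_assoc, ← mul_assoc, hd, hd]
      have h5 : ((1, gin (fun o => (z o : L1))) : L × Gam (Equiv.Perm Ω) Ω L1) * x' ∈
          MS π φ π1 M T := by
        refine mem_MS.mpr ⟨(MY π φ π1 M).mul_mem hg hx'Y, ?_⟩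
        change π (1 * x'.1) ∈ T
        rw [one_mul]
        exact (mem_MS.mp hx'm).2
      have h6 := hval x' hx'm
      have h7 := hval _ h5
      rw [← hζ _ hx'Y, h3] at h6
      rw [← hζ _ (mem_MS.mp h5).1, h4] at h7
      have h8 : ∏ o, F ((((1, gin (fun o => (z o : L1))) :
          L × Gam (Equiv.Perm Ω) Ω L1) * x').2.left o) =
          (∏ o, ((μ1 (z o) : ℂˣ) : ℂ)) * ∏ o, F (x'.2.left o) := by
        rw [← Finset.prod_mul_distrib]
        refine Finset.prod_congr rfl fun o _ => ?_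
        rw [left_mul hM hg]
        exact hov (z o) _
      have h9 : (((1, gin (fun o => (z o : L1))) :
          L × Gam (Equiv.Perm Ω) Ω L1) * x').1 = x'.1 := one_mul _
      rw [h8, h9, h6] at h7
      refine mul_left_cancel₀ ha' ?_
      rw [h7]
      ring
    · rw [hζ0 x hx, hζ0, mul_zero]
      intro h
      exact hx (((MY π φ π1 M).mul_mem_cancel_left hg).mp h)
  · intro l hl
    exact hθ.2 l fun h => hl (Subgroup.mem_inf.mp h).1
  · intro x hx
    by_cases hxT : π x.1 ∈ T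
    · rw [hval x (mem_MS.mpr ⟨hx, hxT⟩), hζ x hx]
    · have h1 : θ x.1 = 0 := hθ.2 _ fun h => hxT (Subgroup.mem_inf.mp h).2
      rw [h1]
      have h2 : ∃ o, (φ (π x.1)).left o ∉ S := by
        by_contra hcon
        push Not at hcon
        exact hxT ((hT _).mpr hcon)
      obtain ⟨o, ho⟩ := h2
      have h3 : F (x.2.left o) = 0 := by
        refine hF.irr.2 _ fun h => ho ?_
        have h4 := (Subgroup.mem_inf.mp h).2
        rw [left_eq hx] at h4
        exact h4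
      rw [Finset.prod_eq_zero (Finset.mem_univ o) h3, zero_mul]

end Wr

end ZEX

theorem ZEX_thm (h1 : Stmt_CST) : Stmt_ZEX := by
  intro L K K1 Q L1 Ω _ _ _ _ _ _ _ _ _ _ _ _ ℓ _ π μ φ q α ε μQ π1 μ1 ι M M1 hW hL hM σ F
    hσ hF hov θ e hθ _ hθe
  obtain ⟨_, hqn, h2⟩ := h1 L K K1 Q Ω ℓ π μ φ q α ε μQ hW
  obtain ⟨_, _, _, hT, _⟩ := h2 σ hσ
  exact ZEX.core hW hL hM hqn (stb σ) _ hT hF hov hθ hθe

end Pool.Agent.DPG


end

section

/-!
# PSI: conjugacy of products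
-/

namespace Pool.Agent.DPG

open Pool.Agent.DP Pool.Agent.DPC Pool.Agent.DPM Pool.Agent.DPN Pool.Agent.DPF
  Pool.Agent.DPK Pool.Agent.Lib_helper13 Representation
open Pool.Agent.Lib_helper13.Dade (pCore DadeHolds dadeSum)

namespace PSI

section Gen

variable {L1 K1 : Type} [Group L1] [Group K1]

/-- The scalars of a conjugate. -/
theorem sc_cjF [Fintype L1] (𝔐 : Ideal (integralClosure ℤ ℂ)) {S : Subgroup L1} {u : L1 → ℤ}
    (hu : CIv S u) {l : L1} (hl : l ∈ S) (f : L1 → ℂ) : sc 𝔐 (cjF l f) u = sc 𝔐 f u := by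
  have h1 : ∑ x, ((u x : ℤ) : ℂ) * cjF l f x = ∑ x, ((u x : ℤ) : ℂ) * f x := by
    symm
    refine Fintype.sum_equiv (MulAut.conj l).toEquiv _ _ ?_
    intro x
    have h2 : (MulAut.conj l).toEquiv x = l * x * l⁻¹ := rfl
    rw [h2, hu l hl, cjF]
    congr 2
    group
  have h2 : cjF l f 1 = f 1 := by
    rw [cjF]
    congr 1
    group
  rw [sc, sc, h1, h2]

/-- The conjugate of an extension. -/
theorem EF_cj [Fintype L1] {π1 : L1 →* K1} {N M1 S : Subgroup K1} [N.Normal] [M1.Normal]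
    {F : L1 → ℂ} (h : EF π1 N M1 S F) (l : L1) :
    EF π1 N M1 (S.map (MulAut.conj (π1 l)).toMonoidHom) (cjF l F) := by
  refine ⟨⟨?_, ?_⟩, ?_, ?_⟩
  · exact h.irr.1.comp_mulEquiv (CJN.eAL π1 M1 l S)
  · intro x hx
    apply h.irr.2
    intro hx'
    exact hx ((CJN.mem_AL π1 M1 l S x).mpr hx')
  · exact h.res.comp_mulEquiv (CJN.eAL π1 N l S)
  · intro x hx
    have h1 : (π1 l)⁻¹ * x * π1 l ∈ M1 := (CJN.mem_nm M1 (π1 l) x).mpr hx
    have h2 := h.cov h1
    rw [Subgroup.mem_sup_of_normal_left] at h2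
    obtain ⟨m, hm, s, hs, hms⟩ := h2
    have h3 : x = (π1 l * m * (π1 l)⁻¹) * (π1 l * s * (π1 l)⁻¹) := by
      have h4 : x = π1 l * ((π1 l)⁻¹ * x * π1 l) * (π1 l)⁻¹ := by group
      rw [h4, ← hms]
      group
    rw [h3]
    refine Subgroup.mul_mem_sup ?_ ?_
    · exact Subgroup.Normal.conj_mem inferInstance _ hm _
    · rw [CJN.mem_mapc]
      have h4 : (π1 l)⁻¹ * (π1 l * s * (π1 l)⁻¹) * π1 l = s := by group
      rw [h4]
      exact hs

/-- The conjugate lies over the same linear character. -/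
theorem Ov_cj {π1 : L1 →* K1} {μ1 : π1.ker →* ℂˣ} (hc : π1.ker ≤ Subgroup.center L1)
    {F : L1 → ℂ} (h : Ov π1 μ1 F) (l : L1) : Ov π1 μ1 (cjF l F) := by
  intro z x
  change F (l⁻¹ * (z * x) * l) = _ * F (l⁻¹ * x * l)
  have hz := Subgroup.mem_center_iff.mp (hc z.2) l⁻¹
  have h1 : l⁻¹ * ((z : L1) * x) * l = (z : L1) * (l⁻¹ * x * l) := by
    rw [← mul_assoc, ← mul_assoc, hz, mul_assoc, mul_assoc, ← mul_assoc]
    group
  rw [h1]
  exact h z _

end Gen

section Dat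

variable {L K K1 Q L1 Ω : Type} [Group L] [Group K] [Group K1] [Group Q] [Group L1]
  [Fintype Ω] {ℓ : ℕ} {π : L →* K} {μ : π.ker →* ℂˣ}
  {φ : K →* Gam (Equiv.Perm Ω) Ω K1} {q : Q →* K1} {α : K1 →* MulAut Q}
  {ε : (Ω → Q) →* L} {μQ : q.ker →* ℂˣ} {π1 : L1 →* K1} {μ1 : π1.ker →* ℂˣ}
  {ι : Q →* L1} {M : Subgroup K} {M1 : Subgroup K1}

/-- A coordinate of a conjugate. -/
theorem coord_conj (h : WD π μ φ q α ε μQ) (n : Ω → Q) (k : K) (o : Ω)
    (hk : (φ k).right o = o) :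
    (φ (π (ε n) * k * (π (ε n))⁻¹)).left o = q (n o) * (φ k).left o * (q (n o))⁻¹ := by
  have h1 : (π (ε n))⁻¹ = π (ε n⁻¹) := by rw [map_inv, map_inv]
  have h2 : (φ k).right⁻¹ o = o := by
    rw [Equiv.Perm.inv_eq_iff_eq]
    exact hk.symm
  have h3 : (φ (π (ε n))).right = 1 := WDB.φε_right h n
  rw [h1, map_mul, map_mul, WDB.mul_left, WDB.mul_left, WDB.mul_right, h3, WDB.φε_left h,
    WDB.φε_left h, one_mul, h2, Pi.inv_apply, map_inv]
  rfl

/-- Elements with a given coordinate at a fixed point. -/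
theorem exists_lift (h : WD π μ φ q α ε μQ) {S : Subgroup K1} (hS : q.range ⊔ S = ⊤) (o : Ω)
    {b : K1} (hb : b ∈ S) :
    ∃ k, (∀ w, (φ k).left w ∈ S) ∧ (φ k).right o = o ∧ (φ k).left o = b := by
  classical
  have hn := WDB.normal_range h
  obtain ⟨k0, hk0, hk0'⟩ := h.sj o b
  have h1 : ∀ w, ∃ s ∈ q.range, ∃ t ∈ S, s * t = (φ k0).left w := by
    intro w
    have h2 : (φ k0).left w ∈ q.range ⊔ S := by
      rw [hS]
      exact Subgroup.mem_top _
    rw [Subgroup.mem_sup_of_normal_left] at h2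
    obtain ⟨s, hs, t, ht, hst⟩ := h2
    exact ⟨s, hs, t, ht, hst⟩
  choose s hs t ht hst using h1
  obtain ⟨m, -, hm1, hm2⟩ := WDB.exists_NN h (fun w => if w = o then 1 else s w) (by
    intro w
    by_cases hw : w = o
    · simp only [if_pos hw]
      exact Subgroup.one_mem _
    · simp only [if_neg hw]
      exact hs w)
  have h3 : ∀ w, (φ ((π (ε m))⁻¹ * k0)).left w =
      (if w = o then 1 else s w)⁻¹ * (φ k0).left w := by
    intro w
    rw [map_mul, map_inv, WDB.mul_left, WDB.inv_left, WDB.inv_right, hm1, inv_inv]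
    rw [Equiv.Perm.one_apply, hm2]
  refine ⟨(π (ε m))⁻¹ * k0, ?_, ?_, ?_⟩
  · intro w
    rw [h3]
    by_cases hw : w = o
    · rw [if_pos hw, inv_one, one_mul, hw, hk0']
      exact hb
    · rw [if_neg hw, ← hst w, inv_mul_cancel_left]
      exact ht w
  · rw [map_mul, map_inv, WDB.mul_right, WDB.inv_right, hm1, inv_one, one_mul]
    exact hk0
  · rw [h3, if_pos rfl, inv_one, one_mul, hk0']

/-- Conjugate products. -/
theorem conj_TP (h : WD π μ φ q α ε μQ) (h1 : LD q α μQ π1 μ1 ι) (hm : MM ℓ π φ q ε M M1)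
    {F : L1 → ℂ} {ζ : L × Gam (Equiv.Perm Ω) Ω L1 → ℂ} {θ : L → ℂ}
    (hz : ∀ y ∈ YY π φ π1, ∀ x, ζ (y * x * y⁻¹) = ζ x) (hT : TP π φ π1 M F ζ θ) (n : Ω → Q)
    {x : L × Gam (Equiv.Perm Ω) Ω L1} (hx : x ∈ MY π φ π1 M) :
    cjF (ε n) θ x.1 = (∏ o, cjF (ι (n o)) F (x.2.left o)) * ζ x := by
  have hw : dY ε ι n⁻¹ ∈ YY π φ π1 := WDB.dY_mem_YY h h1 n⁻¹
  have h2 := WDB.MY_normal M hm.nm hw hx
  have h3 := hT.2 _ h2
  rw [hz _ hw] at h3
  have h4 : (dY ε ι n⁻¹ * x * (dY ε ι n⁻¹)⁻¹).1 = (ε n)⁻¹ * x.1 * ε n := by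
    change ε n⁻¹ * x.1 * (ε n⁻¹)⁻¹ = _
    rw [map_inv, inv_inv]
  have h5 : ∀ o, (dY ε ι n⁻¹ * x * (dY ε ι n⁻¹)⁻¹).2.left o =
      (ι (n o))⁻¹ * x.2.left o * ι (n o) := by
    intro o
    change (((dY ε ι n⁻¹).2 * x.2 * (dY ε ι n⁻¹).2⁻¹ : Gam (Equiv.Perm Ω) Ω L1)).left o = _
    rw [WDB.conj_left _ _ (WDB.MY_right hm hx), WDB.dY_left, WDB.dY_right, Pi.inv_apply, map_inv,
      inv_inv]
    rfl
  rw [h4] at h3
  change θ ((ε n)⁻¹ * x.1 * ε n) = _
  rw [h3]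
  congr 1
  refine Finset.prod_congr rfl fun o _ => ?_
  rw [h5]
  rfl

end Dat

/-- The main step. -/
theorem main (h2 : Stmt_TNA) (h3 : Stmt_RIY)
    {L K K1 Q L1 Ω : Type} [Group L] [Fintype L] [Group K] [Fintype K] [Group K1]
    [Fintype K1] [Group Q] [Fintype Q] [Group L1] [Fintype L1] [Fintype Ω]
    {𝔐 : Ideal (integralClosure ℤ ℂ)} {ℓ : ℕ} [Fact ℓ.Prime] (hmax : 𝔐.IsMaximal)
    (hℓ : (ℓ : integralClosure ℤ ℂ) ∈ 𝔐) {π : L →* K} {μ : π.ker →* ℂˣ}
    {φ : K →* Gam (Equiv.Perm Ω) Ω K1} {q : Q →* K1} {α : K1 →* MulAut Q}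
    {ε : (Ω → Q) →* L} {μQ : q.ker →* ℂˣ} {π1 : L1 →* K1} {μ1 : π1.ker →* ℂˣ}
    {ι : Q →* L1} {M : Subgroup K} {M1 : Subgroup K1} {σr : Finset (Subgroup K1)}
    {Fr : L1 → ℂ} {ζ : L × Gam (Equiv.Perm Ω) Ω L1 → ℂ}
    (R : RF 𝔐 ℓ π μ φ q α ε μQ π1 μ1 ι M M1 σr Fr ζ) {S S' : Subgroup K1}
    {F F' : L1 → ℂ} {θ θ' : L → ℂ} (hF : EF π1 q.range M1 S F)
    (hF' : EF π1 q.range M1 S' F') (ov : Ov π1 μ1 F) (ov' : Ov π1 μ1 F')
    (hs : ∀ u : L1 → ℤ, CIv (q.range.comap π1) u → sc 𝔐 F u = sc 𝔐 Fr u)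
    (hs' : ∀ u : L1 → ℤ, CIv (q.range.comap π1) u → sc 𝔐 F' u = sc 𝔐 Fr u)
    (hT : TP π φ π1 M F ζ θ) (hT' : TP π φ π1 M F' ζ θ') (n : Ω → Q)
    (hst : ∀ o, S.map (MulAut.conj (q (n o))).toMonoidHom = S')
    (hθ : cjF (ε n) θ = θ') (o : Ω) : cjF (ι (n o)) F = F' := by
  classical
  have hqn := WDB.normal_range R.wd
  have hM1n := R.mm.nm1
  have A : ∀ o, EF π1 q.range M1 S' (cjF (ι (n o)) F) := by
    intro o
    have e1 := EF_cj hF (ι (n o))
    rw [R.ld.πι, hst o] at e1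
    exact e1
  have B : ∀ o, Ov π1 μ1 (cjF (ι (n o)) F) := fun o => Ov_cj R.ld.c ov (ι (n o))
  have hζ1 : ζ 1 ≠ 0 := by
    have i0 : Fintype (Gam (Equiv.Perm Ω) Ω L1) := gamFintype _ _ _
    have i1 : Fintype ↥(MY π φ π1 M) := Fintype.ofFinite _
    exact R.zt.irr.1.one_ne_zero
  have D : ∀ m : Ω → Q, ∏ o, cjF (ι (n o)) F (ι (m o)) = ∏ o, F' (ι (m o)) := by
    intro m
    have hm := WDB.dY_mem_MY R.wd R.ld R.mm.le m
    have e1 := conj_TP R.wd R.ld R.mm R.zi hT n hm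
    have e2 := hT'.2 _ hm
    rw [hθ, e2] at e1
    have e3 : ζ (dY ε ι m) = ζ 1 := by
      have := R.zt.d m 1
      rwa [one_mul] at this
    rw [e3] at e1
    exact (mul_right_cancel₀ hζ1 e1).symm
  have irr : ∀ G : L1 → ℂ, EF π1 q.range M1 S' G → Ov π1 μ1 G →
      IrrOn (S'.comap q) (fun x => G (ι x)) := by
    intro G hG hov
    refine ⟨ZEX.res_irr R.ld.c R.ld.πι S' hG.res hov, ?_⟩
    intro x hx
    refine hG.irr.2 _ ?_
    intro h4
    apply hx
    have h5 := (Subgroup.mem_inf.mp (Subgroup.mem_comap.mp h4)).2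
    rw [R.ld.πι] at h5
    exact h5
  have ovι : ∀ G : L1 → ℂ, Ov π1 μ1 G → Ov q μQ (fun x => G (ι x)) := by
    intro G hG z x
    have hz : ι z ∈ π1.ker := (WDB.ι_ker R.ld).mpr z.2
    have e1 := hG ⟨ι z, hz⟩ (ι x)
    change G (ι (z * x)) = _ * G (ι x)
    rw [map_mul, ← R.ld.μι z hz]
    exact e1
  obtain ⟨T1, -, T3⟩ := h2 L K K1 Q Ω π μ φ q α ε μQ R.wd (fun _ => S')
  obtain ⟨G0, -, -, hG0⟩ := T1 (fun _ x => F' (ι x)) fun _ => ⟨irr F' hF' ov', ovι F' ov'⟩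
  have E := T3 (fun o x => cjF (ι (n o)) F (ι x)) (fun _ x => F' (ι x)) G0
    (fun o => irr _ (A o) (B o)) (fun _ => irr F' hF' ov')
    ⟨fun m => by rw [hG0.1 m, D m], hG0.2⟩ hG0
  have E' : ∀ x, cjF (ι (n o)) F (ι x) = F' (ι x) := fun x => congrFun (congrFun E o) x
  refine h3 L1 K1 𝔐 ℓ hmax hℓ π1 R.ld.s R.ld.c q.range M1 R.mm.le1 R.mm.cop1 S' _ F' (A o) hF'
    ?_ ?_ ?_
  · intro y hy
    have h4 := (Subgroup.mem_inf.mp (Subgroup.mem_comap.mp hy)).1
    obtain ⟨z, hz, x, rfl⟩ := (WDB.mem_comap_range R.ld).mp h4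
    have e1 := B o ⟨z, hz⟩ (ι x)
    have e2 := ov' ⟨z, hz⟩ (ι x)
    change cjF (ι (n o)) F (z * ι x) = _ at e1
    change F' (z * ι x) = _ at e2
    rw [e1, e2, E' x]
  · intro x hx
    obtain ⟨u, hu1, hu2, hu3⟩ := R.sup x hx
    refine ⟨u, hu1, hu2, ?_⟩
    rw [sc_cjF 𝔐 hu1 (Subgroup.mem_comap.mpr ⟨n o, (R.ld.πι _).symm⟩), hs u hu1]
    exact hu3
  · intro u hu
    rw [sc_cjF 𝔐 hu (Subgroup.mem_comap.mpr ⟨n o, (R.ld.πι _).symm⟩), hs u hu, hs' u hu]

end PSI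

open _root_.Pool.Agent.DPG.PSI in
/-- PSI: conjugacy of products. -/
theorem PSI_thm (h1 : Stmt_CST) (h2 : Stmt_TNA) (h3 : Stmt_RIY) : Stmt_PSI := by
  classical
  intro L K K1 Q L1 Ω _ _ _ _ _ _ _ _ _ _ _ _ 𝔐 ℓ _ hmax hℓ π μ φ q α ε μQ π1 μ1 ι M M1 σr
    Fr ζ R σ σ' F F' θ θ' hσ hσ' hq hq' hF hF' ov ov' hs hs' hT hT' n
  obtain ⟨hNn, hqn, hcst⟩ := h1 L K K1 Q Ω ℓ π μ φ q α ε μQ R.wd
  have hMn := R.mm.nm
  constructor
  · constructor
    · rintro ⟨hc, hθ⟩ o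
      have hc' := ((hcst σ hσ).2.2.2.2.2.2 σ' hσ' n).mp hc
      refine ⟨hc' o, ?_⟩
      refine main h2 h3 hmax hℓ R hF hF' ov ov' hs hs' hT hT' n ?_ hθ o
      intro w
      rw [← CJS.stb_cjC, hc' w]
    · intro h
      refine ⟨((hcst σ hσ).2.2.2.2.2.2 σ' hσ' n).mpr fun o => (h o).1, ?_⟩
      funext l
      by_cases hl : π l ∈ M
      · obtain ⟨g, hg⟩ := WDB.exists_YY (π := π) (φ := φ) R.ld l
        have hx : (l, g) ∈ MY π φ π1 M := ⟨hg, hl⟩
        have e1 := conj_TP R.wd R.ld R.mm R.zi hT n hx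
        have e2 := hT'.2 _ hx
        change cjF (ε n) θ l = _ at e1
        change θ' l = _ at e2
        rw [e1, e2]
        congr 1
        refine Finset.prod_congr rfl fun o _ => ?_
        rw [(h o).2]
      · rw [hT'.1 l hl]
        refine hT.1 _ ?_
        rw [CJN.pi_conj]
        exact fun h4 => hl ((CJN.mem_nm M (π (ε n)) (π l)).mp h4)
  · intro hmap hθ
    have hst : ∀ o, (stb σ).map (MulAut.conj (q (n o))).toMonoidHom = stb σ' := by
      intro o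
      ext b
      rw [CJN.mem_mapc]
      constructor
      · intro hb
        obtain ⟨k, hk1, hk2, hk3⟩ := exists_lift R.wd hq o hb
        have hk : k ∈ stb (cstC φ (NN' π ε) σ) := ((hcst σ hσ).2.2.2.1 k).mpr hk1
        have hk' : π (ε n) * k * (π (ε n))⁻¹ ∈ stb (cstC φ (NN' π ε) σ') := by
          rw [← hmap, CJN.mem_mapc]
          have : (π (ε n))⁻¹ * (π (ε n) * k * (π (ε n))⁻¹) * π (ε n) = k := by group
          rw [this]
          exact hk
        have h4 := ((hcst σ' hσ').2.2.2.1 _).mp hk' o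
        rw [coord_conj R.wd n k o hk2, hk3] at h4
        have : q (n o) * ((q (n o))⁻¹ * b * q (n o)) * (q (n o))⁻¹ = b := by group
        rw [this] at h4
        exact h4
      · intro hb
        obtain ⟨k, hk1, hk2, hk3⟩ := exists_lift R.wd hq' o hb
        have hk : k ∈ stb (cstC φ (NN' π ε) σ') := ((hcst σ' hσ').2.2.2.1 k).mpr hk1
        rw [← hmap, CJN.mem_mapc] at hk
        have e1 : (π (ε n))⁻¹ * k * π (ε n) = π (ε n⁻¹) * k * (π (ε n⁻¹))⁻¹ := by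
          rw [map_inv, map_inv, inv_inv]
        rw [e1] at hk
        have h4 := ((hcst σ hσ).2.2.2.1 _).mp hk o
        rw [coord_conj R.wd n⁻¹ k o hk2, hk3, Pi.inv_apply, map_inv, inv_inv] at h4
        exact h4
    intro o
    exact ⟨hst o, main h2 h3 hmax hℓ R hF hF' ov ov' hs hs' hT hT' n hst hθ o⟩

end Pool.Agent.DPG


end

section

/-!
# ZCO: products are characters
-/

namespace Pool.Agent.DPG

open Pool.Agent.DP Pool.Agent.DPC Pool.Agent.DPM Pool.Agent.DPN Pool.Agent.DPF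
  Pool.Agent.DPK Pool.Agent.Lib_helper13 Representation
open Pool.Agent.Lib_helper13.Dade (pCore DadeHolds dadeSum)

namespace ZCO

variable {L K K1 Q L1 Ω : Type} [Group L] [Group K] [Group K1] [Group Q] [Group L1]
  [Fintype Ω] {ℓ : ℕ} {π : L →* K} {μ : π.ker →* ℂˣ}
  {φ : K →* Gam (Equiv.Perm Ω) Ω K1} {q : Q →* K1} {α : K1 →* MulAut Q}
  {ε : (Ω → Q) →* L} {μQ : q.ker →* ℂˣ} {π1 : L1 →* K1} {μ1 : π1.ker →* ℂˣ}
  {ι : Q →* L1} {M : Subgroup K} {M1 : Subgroup K1}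

open ZEX

/-- The product of the values of `F` on a product with an element with central coordinates. -/
theorem prod_z (hM : MM ℓ π φ q ε M M1) {F : L1 → ℂ} (hov : Ov π1 μ1 F) (z : Ω → π1.ker)
    {y : L × Gam (Equiv.Perm Ω) Ω L1} (hy : y ∈ MY π φ π1 M) (hyz : ∀ o, y.2.left o = z o)
    (x : L × Gam (Equiv.Perm Ω) Ω L1) :
    ∏ o, F ((y * x).2.left o) = (∏ o, ((μ1 (z o) : ℂˣ) : ℂ)) * ∏ o, F (x.2.left o) := by
  rw [← Finset.prod_mul_distrib]
  refine Finset.prod_congr rfl fun o _ => ?_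
  rw [left_mul hM hy, hyz]
  exact hov (z o) _

theorem core [Fintype L] [Fintype K] [Fintype K1] [Fintype Q] [Fintype L1]
    (hW : WD π μ φ q α ε μQ) (hL : LD q α μQ π1 μ1 ι)
    (hM : MM ℓ π φ q ε M M1) (hq : q.range.Normal) (S : Subgroup K1) (T : Subgroup K)
    (hT : ∀ k, k ∈ T ↔ ∀ o, (φ k).left o ∈ S) {F : L1 → ℂ} (hF : EF π1 q.range M1 S F)
    (hov : Ov π1 μ1 F) {ζ : L × Gam (Equiv.Perm Ω) Ω L1 → ℂ}
    (hZ : ZT π φ π1 μ1 ε ι M ζ) :
    ∃ θ : L → ℂ, IrrOn (AL π M T) θ ∧ Ov π μ θ ∧ TP π φ π1 M F ζ θ := by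
  classical
  have i0 : Fintype (Gam (Equiv.Perm Ω) Ω L1) := gamFintype _ _ _
  have hDn := jY_normal (π1 := π1) hW hL hM
  set DD : Subgroup ↥(MY π φ π1 M) := (jY (π1 := π1) hW hL hM).range with hDD
  have i1 : Fintype ↥(MS π φ π1 M T) := Fintype.ofFinite _
  have i2 : Fintype (↥(MY π φ π1 M) ⧸ DD) := Fintype.ofFinite _
  have i3 : Fintype ↥(MY π φ π1 M) := Fintype.ofFinite _
  let P : Subgroup (Ω → Q) := pK (fun _ : Ω => S.comap q)
  have i4 : Fintype P := Fintype.ofFinite _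
  have hφε : ∀ (n : Ω → Q) o, (φ (π (ε n))).left o = q (n o) := by
    intro n o
    rw [hW.φε]
    rfl
  have hjm : ∀ a : P, dY ε ι (a : Ω → Q) ∈ MS π φ π1 M T := by
    intro a
    refine mem_MS.mpr ⟨dY_mem hW hL hM a, ?_⟩
    rw [hT]
    intro o
    change (φ (π (ε a))).left o ∈ S
    rw [hφε]
    exact mem_pK.mp a.2 o
  let j : P →* ↥(MS π φ π1 M T) :=
    (((MY π φ π1 M).subtype.comp (jY (π1 := π1) hW hL hM)).comp P.subtype).codRestrict
      (MS π φ π1 M T) hjm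
  have hj : Function.Injective j := by
    intro a b hab
    have h1 : dY ε ι (a : Ω → Q) = dY ε ι (b : Ω → Q) := congrArg Subtype.val hab
    apply Subtype.ext
    exact jY_inj (π1 := π1) hW hL hM (Subtype.ext h1)
  let p : ↥(MS π φ π1 M T) →* ↥(MY π φ π1 M) ⧸ DD :=
    (QuotientGroup.mk' DD).comp (Subgroup.inclusion (inf_le_left :
      MS π φ π1 M T ≤ MY π φ π1 M))
  have hp : ∀ y, p y = 1 ↔ y ∈ j.range := by
    intro y
    change QuotientGroup.mk' DD (Subgroup.inclusion _ y) = 1 ↔ _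
    rw [QuotientGroup.mk'_apply, QuotientGroup.eq_one_iff]
    constructor
    · rintro ⟨n, hn⟩
      have hn' : dY ε ι n = (y : L × Gam (Equiv.Perm Ω) Ω L1) := congrArg Subtype.val hn
      have h1 : n ∈ P := by
        refine mem_pK.mpr fun o => ?_
        have h2 := (hT _).mp (mem_MS.mp y.2).2 o
        rw [← hn'] at h2
        change (φ (π (ε n))).left o ∈ S at h2
        rw [hφε] at h2
        exact h2
      exact ⟨⟨n, h1⟩, Subtype.ext hn'⟩
    · rintro ⟨a, rfl⟩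
      exact ⟨a, rfl⟩
  obtain ⟨c, hc⟩ := exists_clG j hj p hp
  have hps : Function.Surjective p := by
    intro x
    obtain ⟨⟨x, hx⟩, rfl⟩ := QuotientGroup.mk'_surjective DD x
    obtain ⟨n, hn⟩ := exists_MS hW hL hM hq hT hF.cov hx
    refine ⟨⟨_, hn⟩, ?_⟩
    change QuotientGroup.mk' DD _ = QuotientGroup.mk' DD _
    rw [QuotientGroup.mk'_apply, QuotientGroup.mk'_apply, eq_comm, QuotientGroup.eq]
    refine ⟨n, ?_⟩
    apply Subtype.ext
    change dY ε ι n = x⁻¹ * (x * dY ε ι n)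
    group
  -- the characters
  have hFq : IsIrr (fun a : ↥(S.comap q) => F (ι a)) :=
    res_irr hL.c hL.πι S hF.res hov
  have hFq0 : ∀ x, x ∉ S.comap q → F (ι x) = 0 := by
    intro x hx
    refine hF.irr.2 _ fun h => hx ?_
    have h1 := (Subgroup.mem_inf.mp h).2
    rw [hL.πι] at h1
    exact h1
  have hθA : IsIrr (fun a : P => ∏ o, F (ι ((a : Ω → Q) o))) :=
    (IRRPI_thm Ω Q (fun _ => S.comap q) P rfl).1 (fun _ x => F (ι x))
      (fun _ => ⟨hFq, hFq0⟩)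
  have hE : IsChr (fun x : ↥(MS π φ π1 M T) =>
      ∏ o, F ((x : L × Gam (Equiv.Perm Ω) Ω L1).2.left o)) := by
    refine IsChr.prod Finset.univ (fun o (x : ↥(MS π φ π1 M T)) =>
      F ((x : L × Gam (Equiv.Perm Ω) Ω L1).2.left o)) fun o => ?_
    let r : ↥(MS π φ π1 M T) →* ↥(AL π1 M1 S) :=
      { toFun := fun x => ⟨(x : L × Gam (Equiv.Perm Ω) Ω L1).2.left o, by
          change π1 _ ∈ M1 ⊓ S
          rw [left_eq (mem_MS.mp x.2).1]
          exact Subgroup.mem_inf.mpr ⟨hM.l _ (mem_MY.mp (mem_MS.mp x.2).1).2 o,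
            (hT _).mp (mem_MS.mp x.2).2 o⟩⟩
        map_one' := rfl
        map_mul' := by
          intro x y
          apply Subtype.ext
          exact left_mul hM (mem_MS.mp x.2).1 _ o }
    exact hF.irr.1.isChr.comp r
  -- the character of the quotient
  obtain ⟨η, hη, hηe⟩ := QINF.exists_inf (QuotientGroup.mk' DD)
    (QuotientGroup.mk'_surjective DD) hZ.irr.1 (by
      intro x y hx
      rw [QuotientGroup.mk'_apply, QuotientGroup.eq_one_iff] at hx
      obtain ⟨n, rfl⟩ := hx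
      have h1 := hZ.irr.1.conj_eq y (jY (π1 := π1) hW hL hM n * y)
      have h2 : y * (jY (π1 := π1) hW hL hM n * y) * y⁻¹ = y * jY (π1 := π1) hW hL hM n := by
        group
      rw [h2] at h1
      exact h1.symm.trans (hZ.d n y))
  have hζ : ∀ x (h : x ∈ MY π φ π1 M), ζ x = η (QuotientGroup.mk' DD ⟨x, h⟩) :=
    fun x h => congrFun hηe ⟨x, h⟩
  have hψ := ((b_GALL P ↥(MS π φ π1 M T) (↥(MY π φ π1 M) ⧸ DD) j c p hc hps _
    _ hθA hE (fun a => rfl)).1 η hη).1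
  have hψ' : IsIrr (fun x : ↥(MS π φ π1 M T) =>
      (∏ o, F ((x : L × Gam (Equiv.Perm Ω) Ω L1).2.left o)) * ζ x) := by
    have h1 : (fun x : ↥(MS π φ π1 M T) =>
        (∏ o, F ((x : L × Gam (Equiv.Perm Ω) Ω L1).2.left o)) * ζ x) =
        fun x : ↥(MS π φ π1 M T) =>
          (∏ o, F ((x : L × Gam (Equiv.Perm Ω) Ω L1).2.left o)) * η (p x) := by
      funext x
      rw [hζ _ (mem_MS.mp x.2).1]
      rfl
    rw [h1]
    exact hψ
  -- the projection
  let r : ↥(MS π φ π1 M T) →* ↥(AL π M T) :=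
    ((MonoidHom.fst L (Gam (Equiv.Perm Ω) Ω L1)).comp (MS π φ π1 M T).subtype).codRestrict
      (AL π M T) (fun x => Subgroup.mem_inf.mpr
        ⟨(mem_MY.mp (mem_MS.mp x.2).1).2, (mem_MS.mp x.2).2⟩)
  have hr : Function.Surjective r := by
    rintro ⟨l, hl⟩
    have hl' := Subgroup.mem_inf.mp hl
    have h1 : ∀ o, ∃ y, π1 y = (φ (π l)).left o := fun o => hL.s _
    choose y hy using h1
    refine ⟨⟨(l, (⟨y, (φ (π l)).right⟩ : Gam (Equiv.Perm Ω) Ω L1)), ?_⟩, rfl⟩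
    refine mem_MS.mpr ⟨mem_MY.mpr ⟨?_, hl'.1⟩, hl'.2⟩
    apply SemidirectProduct.ext
    · funext o
      exact (hy o).symm
    · rfl
  have i5 : Fintype ↥(AL π M T) := Fintype.ofFinite _
  obtain ⟨θ', hθ', hθe⟩ := QINF.exists_inf r hr hψ' (by
    rintro ⟨x, hx⟩ ⟨y, hy⟩ hxr
    have h1 : x.1 = 1 := congrArg Subtype.val hxr
    obtain ⟨z, hz⟩ := WDB.fst_eq_one (mem_MS.mp hx).1.1 h1
    change (∏ o, F ((x * y).2.left o)) * ζ (x * y) = (∏ o, F (y.2.left o)) * ζ y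
    rw [prod_z hM hov z (mem_MS.mp hx).1 (fun o => by rw [hz]; rfl) y, hz,
      ← hZ.z z y]
    ring)
  have hval : ∀ x (hx : x ∈ MS π φ π1 M T), (∏ o, F (x.2.left o)) * ζ x =
      θ' ⟨x.1, Subgroup.mem_inf.mpr ⟨(mem_MY.mp (mem_MS.mp hx).1).2, (mem_MS.mp hx).2⟩⟩ :=
    fun x hx => congrFun hθe ⟨x, hx⟩
  let θ : L → ℂ := fun l => if h : l ∈ AL π M T then θ' ⟨l, h⟩ else 0
  have hθ : ∀ l (h : l ∈ AL π M T), θ l = θ' ⟨l, h⟩ := fun l h => dif_pos h
  have hθ0 : ∀ l, l ∉ AL π M T → θ l = 0 := fun l h => dif_neg h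
  have hval' : ∀ x, x ∈ MS π φ π1 M T → θ x.1 = (∏ o, F (x.2.left o)) * ζ x := by
    intro x hx
    rw [hval x hx]
    exact hθ _ _
  refine ⟨θ, ⟨?_, hθ0⟩, ?_, ?_, ?_⟩
  · have h1 : (fun s : ↥(AL π M T) => θ s) = θ' := by
      funext s
      exact hθ s s.2
    rw [h1]
    exact hθ'
  · intro z l
    by_cases hl : l ∈ AL π M T
    · obtain ⟨⟨x, hx⟩, hxl⟩ := hr ⟨l, hl⟩
      have h1 : x.1 = l := congrArg Subtype.val hxl
      obtain ⟨n, hn⟩ := hW.kr z.2
      have h2 : π (ε n) = 1 := by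
        rw [hn]
        exact z.2
      have h3 : ∀ o, n o ∈ q.ker := (WDB.πε_eq_one hW).mp h2
      have h4 : ∀ o, ι (n o) ∈ π1.ker := fun o => (WDB.ι_ker hL).mpr (h3 o)
      have h5 : dY ε ι n ∈ MS π φ π1 M T := by
        refine mem_MS.mpr ⟨dY_mem hW hL hM n, ?_⟩
        change π (ε n) ∈ T
        rw [h2]
        exact T.one_mem
      have h6 := hval' _ ((MS π φ π1 M T).mul_mem h5 hx)
      rw [prod_z hM hov (fun o => ⟨ι (n o), h4 o⟩) (mem_MS.mp h5).1 (fun o => rfl) x] at h6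
      have h7 : (dY ε ι n * x).1 = z * l := by
        rw [← h1, ← hn]
        rfl
      have h8 : ζ (dY ε ι n * x) = ζ x := by
        have hxY := (mem_MS.mp hx).1
        have h9 := hZ.irr.1.conj_eq ⟨x, hxY⟩ (jY (π1 := π1) hW hL hM n * ⟨x, hxY⟩)
        have h10 : (⟨x, hxY⟩ : ↥(MY π φ π1 M)) * (jY (π1 := π1) hW hL hM n * ⟨x, hxY⟩) *
            (⟨x, hxY⟩)⁻¹ = ⟨x, hxY⟩ * jY (π1 := π1) hW hL hM n := by
          group
        rw [h10] at h9
        exact h9.symm.trans (hZ.d n x)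
      have h11 : (∏ o, ((μ1 ⟨ι (n o), h4 o⟩ : ℂˣ) : ℂ)) = ((μ z : ℂˣ) : ℂ) := by
        have h12 : z = ⟨ε n, MonoidHom.mem_ker.mpr h2⟩ := Subtype.ext hn.symm
        rw [h12, hW.με n h3 (MonoidHom.mem_ker.mpr h2), Units.coe_prod]
        refine Finset.prod_congr rfl fun o _ => ?_
        rw [hL.μι ⟨n o, h3 o⟩ (h4 o)]
      rw [h7, h8, h11, mul_assoc, ← hval' x hx, h1] at h6
      exact h6
    · have h1 : (z : L) * l ∉ AL π M T := by
        intro h
        apply hl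
        have h2 : π ((z : L) * l) ∈ M ⊓ T := h
        rw [map_mul, MonoidHom.mem_ker.mp z.2, one_mul] at h2
        exact h2
      rw [hθ0 _ h1, hθ0 _ hl, mul_zero]
  · intro l hl
    exact hθ0 l fun h => hl (Subgroup.mem_inf.mp h).1
  · intro x hx
    by_cases hxT : π x.1 ∈ T
    · exact hval' x (mem_MS.mpr ⟨hx, hxT⟩)
    · have h1 : θ x.1 = 0 := hθ0 _ fun h => hxT (Subgroup.mem_inf.mp h).2
      rw [h1]
      have h2 : ∃ o, (φ (π x.1)).left o ∉ S := by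
        by_contra hcon
        push Not at hcon
        exact hxT ((hT _).mpr hcon)
      obtain ⟨o, ho⟩ := h2
      have h3 : F (x.2.left o) = 0 := by
        refine hF.irr.2 _ fun h => ho ?_
        have h4 := (Subgroup.mem_inf.mp h).2
        rw [left_eq hx] at h4
        exact h4
      rw [Finset.prod_eq_zero (Finset.mem_univ o) h3, zero_mul]

end ZCO

theorem ZCO_thm (h1 : Stmt_CST) (_ : Stmt_TNA) : Stmt_ZCO := by
  intro L K K1 Q L1 Ω _ _ _ _ _ _ _ _ _ _ _ _ ℓ _ π μ φ q α ε μQ π1 μ1 ι M M1 hW hL hM σ F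
    hσ hF hov ζ hζ
  obtain ⟨_, hqn, h2⟩ := h1 L K K1 Q Ω ℓ π μ φ q α ε μQ hW
  obtain ⟨_, _, _, hT, _⟩ := h2 σ hσ
  exact ZCO.core hW hL hM hqn (stb σ) _ hT hF hov hζ

end Pool.Agent.DPG


end
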