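import Mathlib
import Pool.Agent.DAM.C12
import Pool.Agent.DAM.C19

/-! Parts: DPC.PERAR -/

section

/-!
# Theorem R: the inertia group (module PERAR)
-/

set_option linter.unusedSectionVars false

namespace Pool.Agent.DPC

open Pool.Agent.DP

open Pool.Agent.Lib_helper13 Representation

namespace PERAR

section Wb

variable {O G B : Type*} [Group G] [Group B] (κ : B →* MulAut G)

theorem prj_wB (g : Gam (Equiv.Perm O) O B) (D : Subgroup (O → G)) (o : O) :
    prj o (D.map (wB κ O g).toMonoidHom) =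
      (prj (g.right⁻¹ • o) D).map (κ (g.left o)).toMonoidHom := by
  rw [prj, prj, Subgroup.map_map, Subgroup.map_map]
  rfl

theorem pK_wB (g : Gam (Equiv.Perm O) O B) (K : O → Subgroup G) :
    (pK K).map (wB κ O g).toMonoidHom =
      pK (fun o => (K (g.right⁻¹ • o)).map (κ (g.left o)).toMonoidHom) := by
  ext x
  rw [Subgroup.mem_map, mem_pK]
  constructor
  · rintro ⟨y, hy, rfl⟩ o
    rw [mem_pK] at hy
    exact ⟨y (g.right⁻¹ • o), hy _, rfl⟩
  · intro h
    choose y hy hy' using h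
    refine ⟨fun k => y (g.right • k), ?_, ?_⟩
    · rw [mem_pK]
      intro k
      have h1 := hy (g.right • k)
      rwa [inv_smul_smul] at h1
    · ext o
      change κ (g.left o) (y (g.right • g.right⁻¹ • o)) = x o
      rw [smul_inv_smul]
      exact hy' o

theorem cl_wB (g : Gam (Equiv.Perm O) O B) (D : Subgroup (O → G)) :
    cl (D.map (wB κ O g).toMonoidHom) = (cl D).map (wB κ O g).toMonoidHom := by
  rw [cl, cl, pK_wB]
  congr 1
  ext1 o
  exact prj_wB κ g D o

theorem prj_wB_fixed {g : Gam (Equiv.Perm O) O B} {D : Subgroup (O → G)} (hD : cl D = D) :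
    D.map (wB κ O g).toMonoidHom = D ↔
      ∀ o, (prj (g.right⁻¹ • o) D).map (κ (g.left o)).toMonoidHom = prj o D := by
  constructor
  · intro h o
    rw [← prj_wB, h]
  · intro h
    rw [← hD, ← cl_wB, cl, cl]
    congr 1
    ext1 o
    rw [prj_wB, h]

end Wb

section Tr

variable {O G : Type*} [Group G] [Fintype O] [DecidableEq O] [Fintype G]
  {τ : Finset (Subgroup (O → G))} {a b : O}

theorem comp_tr {e : MulAut G} (h : ∀ D ∈ τ, (prj a D).map e.toMonoidHom = prj b D) :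
    mapCh e.toMonoidHom (comp τ a) = comp τ b := by
  ext E
  rw [mem_mapCh, mem_comp]
  constructor
  · rintro ⟨D', hD', rfl⟩
    obtain ⟨h1, D, hD, rfl⟩ := mem_comp.mp hD'
    refine ⟨?_, D, hD, (h D hD).symm⟩
    intro h2
    exact h1 ((Subgroup.map_eq_bot_iff_of_injective _ e.injective).mp h2)
  · rintro ⟨h1, D, hD, rfl⟩
    refine ⟨prj a D, mem_comp.mpr ⟨?_, D, hD, rfl⟩, h D hD⟩
    intro h2
    rw [← h D hD, h2, Subgroup.map_bot] at h1
    exact h1 rfl

theorem stb_tr {e : MulAut G} (h : ∀ D ∈ τ, (prj a D).map e.toMonoidHom = prj b D) :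
    (stb (comp τ a)).map e.toMonoidHom = stb (comp τ b) := by
  rw [← comp_tr h]
  exact (stb_mapCh_equiv e (comp τ a)).symm

theorem irrOn_tr {S S' : Subgroup G} {f : G → ℂ} {e : MulAut G}
    (hS : S'.map e.toMonoidHom = S) (hf : IrrOn S f) : IrrOn S' (fun x => f (e x)) := by
  subst hS
  refine ⟨?_, ?_⟩
  · have hF : Fintype (Subgroup.map e.toMonoidHom S') := Fintype.ofFinite _
    have hF' : Fintype S' := Fintype.ofFinite _
    exact hf.1.comp_mulEquiv (e.subgroupMap S')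
  · intro x hx
    apply hf.2
    rintro ⟨y, hy, hy'⟩
    apply hx
    have h2 : y = x := e.injective hy'
    rwa [← h2]

end Tr

section Ys

variable {O G B Y K : Type} [Group G] [Group B] [Group Y] [Group K] {ι : G →* B}
  {κ : B →* MulAut G} {j : (O → G) →* Y} {p : Y →* K} {φ : Y →* Gam (Equiv.Perm O) O B}
  {τ : Finset (Subgroup (O → G))} {θ : O → G → ℂ}

theorem mem_YS_iff (h : ExtS ι κ j p φ) {y : Y} :
    y ∈ YS j τ ↔ ∀ D ∈ τ, D.map (wB κ O (φ y)).toMonoidHom = D := by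
  have hc : (MulAut.conj y).toMonoidHom.comp j = j.comp (wB κ O (φ y)).toMonoidHom := by
    apply MonoidHom.ext
    intro a
    exact (h.cl.act y a).symm
  rw [mem_stb]
  constructor
  · intro h3 D hD
    have h1 := h3 (D.map j) (mem_mapCh.mpr ⟨D, hD, rfl⟩)
    rw [Subgroup.map_map, hc, ← Subgroup.map_map] at h1
    exact Subgroup.map_injective h.cl.inj h1
  · intro h3 E hE
    obtain ⟨D, hD, rfl⟩ := mem_mapCh.mp hE
    rw [Subgroup.map_map, hc, ← Subgroup.map_map, h3 D hD]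

variable [Fintype O] [DecidableEq O] [Fintype G]

theorem mem_YS_prj (h : ExtS ι κ j p φ) (hτ : ∀ D ∈ τ, cl D = D) {y : Y} :
    y ∈ YS j τ ↔ ∀ o, ∀ D ∈ τ,
      (prj ((φ y).right⁻¹ • o) D).map (κ ((φ y).left o)).toMonoidHom = prj o D := by
  rw [mem_YS_iff h]
  constructor
  · intro h3 o D hD
    exact (prj_wB_fixed κ (hτ D hD)).mp (h3 D hD) o
  · intro h3 D hD
    exact (prj_wB_fixed κ (hτ D hD)).mpr fun o => h3 o D hD

theorem inY_le (h : ExtS ι κ j p φ) (hτ : ∀ D ∈ τ, cl D = D) : InY κ φ τ θ ≤ YS j τ := by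
  intro y hy
  rw [mem_YS_prj h hτ]
  intro o D hD
  exact (hy o).1 D hD

theorem mem_inert (h2 : Stmt_IRRPI) (h : ExtS ι κ j p φ) (hτ : ∀ D ∈ τ, cl D = D)
    (hθ : ∀ o, IrrOn (stb (comp τ o)) (θ o)) (y : YS j τ) :
    y ∈ inert (cS h.cl τ) (fun a => ∏ o, θ o ((a : O → G) o)) ↔ (y : Y) ∈ InY κ φ τ θ := by
  obtain ⟨y, hy⟩ := y
  have hy' := (mem_YS_prj h hτ).mp hy
  set g := φ y with hg
  constructor
  · intro h0 o
    change trB κ τ θ (g.right⁻¹ • o) o (g.left o)
    refine ⟨hy' o, ?_⟩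
    have h3 : ∀ a : stb τ, ∏ o, θ o (κ (g.left o) ((a : O → G) (g.right⁻¹ • o))) =
        ∏ o, θ o ((a : O → G) o) := h0
    have hk : ∀ o : O, g.right⁻¹ • g.right • o = o := fun o => inv_smul_smul _ _
    have h4 : θ = fun o x => θ (g.right • o) (κ (g.left (g.right • o)) x) := by
      apply (h2 O G (fun o => stb (comp τ o)) (stb τ) (stb_closed hτ)).2.1 _ _ hθ
      · intro o
        apply irrOn_tr (S := stb (comp τ (g.right • o))) _ (hθ _)
        apply stb_tr
        intro D hD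
        have h5 := hy' (g.right • o) D hD
        rw [hk] at h5
        exact h5
      · intro a
        rw [← h3 a]
        rw [← Equiv.prod_comp (MulAction.toPerm g.right) (fun o => θ o (κ (g.left o)
          ((a : O → G) (g.right⁻¹ • o))))]
        refine Finset.prod_congr rfl fun o _ => ?_
        change _ = θ (g.right • o) (κ (g.left (g.right • o)) ((a : O → G) o))
        rw [MulAction.toPerm_apply, hk]
    intro x
    have h5 := congrFun (congrFun h4 (g.right⁻¹ • o)) x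
    simp only [smul_inv_smul] at h5
    exact h5.symm
  · intro h0 a
    have h0' : ∀ o, trB κ τ θ (g.right⁻¹ • o) o (g.left o) := h0
    change ∏ o, θ o (κ (g.left o) ((a : O → G) (g.right⁻¹ • o))) = ∏ o, θ o ((a : O → G) o)
    rw [← Equiv.prod_comp (MulAction.toPerm g.right⁻¹) (fun o => θ o ((a : O → G) o))]
    refine Finset.prod_congr rfl fun o _ => ?_
    exact (h0' o).2 _

end Ys

end PERAR

open _root_.Pool.Agent.DPC.PERAR in
theorem PERAR_thm (h1 : Stmt_TRBR) : Stmt_PERAR := by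
  intro O G B C Y K _ _ _ _ _ _ _ _ _ _ _ ℓ _ ι κ ρ hL j p φ h τ hτ' θ hθ
  have h2 : Stmt_IRRPI := IRRPI_thm
  have hτ : ∀ D ∈ τ, cl D = D := (mem_ClCh.mp hτ').2
  have hρ : ∀ g, ρ (ι g) = 1 := fun g => (hL.cl.ker _).mpr ⟨g, rfl⟩
  obtain ⟨ht1, ht2⟩ := h1 O G B C ⊥ ℓ ι κ ρ hL τ θ hθ
  refine ⟨inY_le h hτ, mem_inert h2 h hτ hθ, ?_, ?_, ?_⟩
  · ext k
    constructor
    · rintro ⟨y, hy, rfl⟩
      exact ⟨(y : Y), (mem_inert h2 h hτ hθ y).mp hy, rfl⟩
    · rintro ⟨y, hy, rfl⟩
      exact ⟨⟨y, inY_le h hτ hy⟩, (mem_inert h2 h hτ hθ _).mpr hy, rfl⟩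
  · -- the order
    have e1 : Nat.card (inert (cS h.cl τ) (fun a => ∏ o, θ o ((a : O → G) o))) =
        Nat.card (InY κ φ τ θ) :=
      Nat.card_congr
        { toFun := fun y => ⟨((y : YS j τ) : Y), (mem_inert h2 h hτ hθ _).mp y.2⟩
          invFun := fun y => ⟨⟨y, inY_le h hτ y.2⟩, (mem_inert h2 h hτ hθ _).mpr y.2⟩
          left_inv := fun _ => rfl
          right_inv := fun _ => rfl }
    rw [e1]
    set f : InY κ φ τ θ →* K := p.comp (InY κ φ τ θ).subtype with hf
    have e2 : Nat.card (InY κ φ τ θ) = Nat.card f.range * Nat.card f.ker := by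
      rw [Subgroup.card_eq_card_quotient_mul_card_subgroup f.ker,
        Nat.card_congr (QuotientGroup.quotientKerEquivRange f).toEquiv]
    have e3 : f.range = KB κ p φ τ θ := by
      rw [hf, MonoidHom.range_comp, Subgroup.range_subtype]
      rfl
    rw [e2, e3]
    congr 1
    -- the kernel
    have e4 : Nat.card f.ker = Nat.card (∀ o, {g : G // trB κ τ θ o o (ι g)}) := by
      have hin : ∀ n : O → G, j n ∈ InY κ φ τ θ ↔ ∀ o, trB κ τ θ o o (ι (n o)) := by
        intro n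
        change (∀ o, trB κ τ θ ((φ (j n)).right⁻¹ • o) o ((φ (j n)).left o)) ↔ _
        rw [h.jn]
        simp
      symm
      refine Nat.card_congr (Equiv.ofBijective (fun n => (⟨⟨j (fun o => (n o).1),
        (hin _).mpr fun o => (n o).2⟩, ?_⟩ : f.ker)) ⟨?_, ?_⟩)
      · rw [MonoidHom.mem_ker]
        exact (h.cl.ker _).mpr ⟨_, rfl⟩
      · intro n n' hn
        have hn1 : j (fun o => (n o).1) = j (fun o => (n' o).1) :=
          congrArg (fun z : f.ker => ((z : InY κ φ τ θ) : Y)) hn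
        have hn2 := h.cl.inj hn1
        funext o
        exact Subtype.ext (congrFun hn2 o)
      · rintro ⟨⟨y, hy⟩, hy'⟩
        rw [MonoidHom.mem_ker] at hy'
        obtain ⟨n, rfl⟩ := (h.cl.ker y).mp hy'
        exact ⟨fun o => ⟨n o, (hin n).mp hy o⟩, rfl⟩
    rw [e4, Nat.card_pi]
    refine Finset.prod_congr rfl fun o _ => ?_
    have e5 := (ht2 o o 1 (trB.one κ τ θ o)).2.2.2.1
    rw [← e5]
    refine Nat.card_congr (Equiv.ofBijective (fun g => ⟨ι g.1, g.2, by rw [hρ, map_one]⟩)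
      ⟨?_, ?_⟩)
    · intro g g' hg
      exact Subtype.ext (hL.cl.inj (congrArg Subtype.val hg))
    · rintro ⟨b, hb, hb'⟩
      rw [map_one] at hb'
      obtain ⟨g, rfl⟩ := (hL.cl.ker b).mp hb'
      exact ⟨⟨g, hb⟩, rfl⟩
  · rintro o _ ⟨y, hy, hyo, rfl⟩
    obtain ⟨y', hy', hyy⟩ := hy
    have h3 : p (y * y'⁻¹) = 1 := by
      rw [map_mul, map_inv, hyy, mul_inv_cancel]
    obtain ⟨n, hn⟩ := (h.cl.ker _).mp h3
    have h4 : y = j n * y' := by rw [hn, inv_mul_cancel_right]
    have h5 : (φ y).right = (φ y').right := by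
      rw [h4, map_mul, h.jn]
      simp
    have h6 : (φ y).left o = ι (n o) * (φ y').left o := by
      rw [h4, map_mul, h.jn]
      simp
    have h7 : (φ y').right⁻¹ • o = o := by
      rw [inv_smul_eq_iff, ← h5, hyo]
    have h8 := hy' o
    rw [h7] at h8
    exact ⟨(φ y').left o, (ht1 o _).mp h8, by rw [h6, map_mul, hρ, one_mul]⟩

end Pool.Agent.DPC


end
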