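import Mathlib
import Pool.Agent.DAM.C14
import Pool.Agent.DAM.C15
import Pool.Agent.DAM.C18
import Pool.Agent.DAM.C19
import Pool.Agent.DAM.C21
import Pool.Agent.DAM.C22
import Pool.Agent.DAM.C32
import Pool.Agent.DAM.C33
import Pool.Agent.DAM.C45
import Pool.Agent.DAM.C49
import Pool.Agent.DAM.C67
import Pool.Agent.DAM.C77
import Pool.Agent.DAM.C82
import Pool.Agent.DAM.C87
import Pool.Agent.DAM.C90
import Pool.Agent.DAM.C99

/-! Parts: DPN.RDF, DPN.RDB, DPN.TDC, DPN.STRN, DPK.TDCr, DPK.STRNr, DPV.PERAV, DPW.CYAW, DPX.GCSX, DPX.CYAX, DPG.PLE, DPG.SUL -/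

section

/-!
# RDF: the scalars of the characters over `θ` in terms of the reduced scalars
-/

set_option autoImplicit false

namespace Pool.Agent.DPN

open Pool.Agent.DP Pool.Agent.DPC Pool.Agent.DPM Pool.Agent.Lib_helper13 Representation

namespace RDF

theorem isIntegral_unit {G : Type} [Group G] [Finite G] (lam : G →* ℂˣ) (v : G) :
    IsIntegral ℤ ((lam v : ℂˣ) : ℂ) := by
  apply IsIntegral.of_pow (n := Nat.card G) Nat.card_pos
  rw [← Units.val_pow_eq_pow_val, ← map_pow, pow_card_eq_one', map_one, Units.val_one]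
  exact isIntegral_one

section Orb

open Classical in
/-- `l` belongs to the class which represents its orbit under `U`. -/
def Chs {L : Type} [Group L] (U : Subgroup L) (hU : U ≤ Subgroup.center L) (l : L) : Prop :=
  IsConj (Quotient.mk (TWF.st U hU) l).out l

variable {L : Type} [Group L] (U : Subgroup L) (hU : U ≤ Subgroup.center L)

theorem chs_conj {l l' : L} (h : IsConj l l') (hl : Chs U hU l) : Chs U hU l' := by
  have hq : Quotient.mk (TWF.st U hU) l' = Quotient.mk (TWF.st U hU) l := by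
    refine (Quotient.sound (?_ : (TWF.st U hU).r l l')).symm
    exact ⟨1, U.one_mem, by rw [one_mul]; exact h⟩
  unfold Chs at hl ⊢
  rw [hq]
  exact hl.trans h

theorem chs_exists (l : L) : ∃ v ∈ U, ∃ l0, Chs U hU l0 ∧ IsConj (v * l0) l := by
  obtain ⟨v, hv, hvl⟩ : ∃ v ∈ U, IsConj (v * (Quotient.mk (TWF.st U hU) l).out) l :=
    Quotient.mk_out (s := TWF.st U hU) l
  refine ⟨v, hv, _, ?_, hvl⟩
  unfold Chs
  rw [Quotient.out_eq]

theorem chs_unique {l l' v : L} (hl : Chs U hU l) (hl' : Chs U hU l') (hv : v ∈ U)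
    (h : IsConj (v * l) l') : IsConj l l' := by
  have hq : Quotient.mk (TWF.st U hU) l = Quotient.mk (TWF.st U hU) l' :=
    Quotient.sound (⟨v, hv, h⟩ : (TWF.st U hU).r l l')
  unfold Chs at hl hl'
  rw [hq] at hl
  exact hl.symm.trans hl'

end Orb

open Classical in
/-- The sum over the classes of the quotient. -/
theorem sum_key {L L' : Type} [Group L] [Fintype L] [Group L'] [Fintype L'] (κ : L →* L')
    (κs : Function.Surjective κ) (U : Subgroup L) (hU : U ≤ Subgroup.center L)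
    (hκ : κ.ker ≤ U) (W : Subgroup L') [Fintype W] (hW : ∀ z', z' ∈ W ↔ ∃ z ∈ U, κ z = z')
    {k : Type} [CommRing k] (g : L' → k) (hg : ∀ m x, g (m * x * m⁻¹) = g x)
    (hgW : ∀ z' ∈ W, ∀ x, g (z' * x) = g x)
    (hfree : ∀ l, g (κ l) ≠ 0 → ∀ z ∈ U, IsConj (z * l) l → z = 1) :
    ∑ C' : ConjClasses L', g C'.out = (Nat.card W : k) *
      ∑ C : ConjClasses L, if Chs U hU C.out then g (κ C.out) else 0 := by
  have gconj : ∀ x y, IsConj x y → g x = g y := by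
    intro x y h
    obtain ⟨c, hc⟩ := isConj_iff.1 h
    rw [← hc, hg]
  have hout : ∀ C : ConjClasses L, ConjClasses.mk C.out = C := fun C => Quotient.out_eq C
  have hout' : ∀ C : ConjClasses L', ConjClasses.mk C.out = C := fun C => Quotient.out_eq C
  have e1 : (Nat.card W : k) *
      ∑ C : ConjClasses L, (if Chs U hU C.out then g (κ C.out) else 0) =
      ∑ P : W × ConjClasses L, if Chs U hU P.2.out then g ((P.1 : L') * κ P.2.out) else 0 := by
    rw [Fintype.sum_prod_type]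
    have h1 : ∀ z : W, (∑ C : ConjClasses L,
        if Chs U hU C.out then g ((z : L') * κ C.out) else 0) =
        ∑ C : ConjClasses L, if Chs U hU C.out then g (κ C.out) else 0 := by
      intro z
      refine Finset.sum_congr rfl fun C _ => ?_
      rw [hgW z z.2]
    simp only [h1]
    rw [Finset.sum_const, Finset.card_univ, nsmul_eq_mul, Nat.card_eq_fintype_card]
  have e2 : ∀ P : W × ConjClasses L,
      (if Chs U hU P.2.out then g ((P.1 : L') * κ P.2.out) else 0) =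
      ∑ C' : ConjClasses L', g C'.out *
        (if Chs U hU P.2.out ∧ ConjClasses.mk ((P.1 : L') * κ P.2.out) = C' then 1 else 0) := by
    intro P
    rw [Finset.sum_eq_single (ConjClasses.mk ((P.1 : L') * κ P.2.out))]
    · by_cases h : Chs U hU P.2.out
      · rw [if_pos h, if_pos ⟨h, rfl⟩, mul_one]
        apply gconj
        rw [← ConjClasses.mk_eq_mk_iff_isConj, hout']
      · rw [if_neg h, if_neg (fun h' => h h'.1), mul_zero]
    · intro C' _ hC'
      rw [if_neg (fun h' => hC' h'.2.symm), mul_zero]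
    · intro h
      exact absurd (Finset.mem_univ _) h
  rw [e1, Finset.sum_congr rfl fun P _ => e2 P, Finset.sum_comm]
  refine Finset.sum_congr rfl fun C' _ => ?_
  rw [← Finset.mul_sum]
  by_cases h0 : g C'.out = 0
  · rw [h0, zero_mul]
  obtain ⟨l, hl⟩ := κs C'.out
  have hfl : ∀ z ∈ U, IsConj (z * l) l → z = 1 := by
    apply hfree
    rw [hl]
    exact h0
  obtain ⟨v, hv, l0, hl0, hvl⟩ := chs_exists U hU l
  have hfl0 : ∀ z ∈ U, IsConj (z * l0) l0 → z = 1 := by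
    intro z hz h
    apply hfl z hz
    have h1 : IsConj (z * (v * l0)) (z * l) := TWF.isConj_mul (hU hz) hvl
    have h2 : IsConj (v * (z * l0)) (v * l0) := TWF.isConj_mul (hU hv) h
    have h3 : z * (v * l0) = v * (z * l0) := by
      rw [← mul_assoc, ← mul_assoc, Subgroup.mem_center_iff.1 (hU hv) z]
    rw [h3] at h1
    exact (h1.symm.trans h2).trans hvl
  have hC0 : IsConj (ConjClasses.mk l0).out l0 := by
    rw [← ConjClasses.mk_eq_mk_iff_isConj, hout]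
  rw [Finset.sum_eq_single (((⟨κ v, (hW _).2 ⟨v, hv, rfl⟩⟩ : W), ConjClasses.mk l0) :
    W × ConjClasses L)]
  · rw [if_pos, mul_one]
    refine ⟨chs_conj U hU hC0.symm hl0, ?_⟩
    rw [← hout' C', ConjClasses.mk_eq_mk_iff_isConj, ← hl]
    have h1 : IsConj (v * (ConjClasses.mk l0).out) (v * l0) := TWF.isConj_mul (hU hv) hC0
    have h2 := MonoidHom.map_isConj κ (h1.trans hvl)
    rwa [map_mul] at h2
  · rintro ⟨⟨z', hz'⟩, C⟩ _ hne
    rw [if_neg]
    rintro ⟨h1, h2⟩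
    apply hne
    obtain ⟨z, hz, rfl⟩ := (hW z').1 hz'
    rw [← hout' C', ConjClasses.mk_eq_mk_iff_isConj, ← hl] at h2
    replace h2 : IsConj (κ z * κ C.out) (κ l) := h2
    replace h1 : Chs U hU C.out := h1
    rw [← map_mul] at h2
    obtain ⟨m', hm'⟩ := isConj_iff.1 h2
    obtain ⟨m, rfl⟩ := κs m'
    have h3 : κ (l * (m * (z * C.out) * m⁻¹)⁻¹) = 1 := by
      rw [map_mul, map_inv, map_mul, map_mul κ m, map_inv, hm', mul_inv_cancel]
    have hx : l * (m * (z * C.out) * m⁻¹)⁻¹ ∈ U := hκ h3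
    obtain ⟨x, hx'⟩ : ∃ x, x = l * (m * (z * C.out) * m⁻¹)⁻¹ := ⟨_, rfl⟩
    rw [← hx'] at hx h3
    have h4 : IsConj (x * (z * C.out)) l := by
      have h5 : IsConj (z * C.out) (m * (z * C.out) * m⁻¹) := isConj_iff.2 ⟨m, rfl⟩
      have h6 := TWF.isConj_mul (hU hx) h5
      have h7 : x * (m * (z * C.out) * m⁻¹) = l := by
        rw [hx', inv_mul_cancel_right]
      rwa [h7] at h6
    -- `C.out` and `l0` are in the same orbit
    have h8 : IsConj (v⁻¹ * (x * z) * C.out) l0 := by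
      have h9 := TWF.isConj_mul (hU (U.inv_mem hv)) (h4.trans hvl.symm)
      rw [inv_mul_cancel_left] at h9
      rwa [mul_assoc, mul_assoc]
    have hvxz : v⁻¹ * (x * z) ∈ U := U.mul_mem (U.inv_mem hv) (U.mul_mem hx hz)
    have h10 : IsConj C.out l0 := chs_unique U hU h1 hl0 hvxz h8
    have h11 : IsConj (v⁻¹ * (x * z) * l0) l0 :=
      (TWF.isConj_mul (hU hvxz) h10.symm).trans h8
    have h12 := hfl0 _ hvxz h11
    have h13 : κ v = κ z := by
      have h14 : v = x * z := by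
        rw [inv_mul_eq_one] at h12
        exact h12
      rw [h14, map_mul, h3, one_mul]
    apply Prod.ext
    · exact Subtype.ext h13.symm
    · show C = ConjClasses.mk l0
      rw [← hout C, ConjClasses.mk_eq_mk_iff_isConj]
      exact h10
  · intro h
    exact absurd (Finset.mem_univ _) h

/-- The central function of an inflation. -/
theorem cen_inf' {L L' : Type} [Group L] [Fintype L] [Group L'] [Fintype L'] (κ : L →* L')
    (𝔐 : Ideal (integralClosure ℤ ℂ)) (κs : Function.Surjective κ)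
    (hc : κ.ker ≤ Subgroup.center L) (S : Subgroup L) [Fintype S] (S' : Subgroup L')
    [Fintype S'] (hS : κ.ker ≤ S) (hS' : S' = S.map κ) (η' : S' → ℂ) (hη' : IsIrr η')
    (h : ∀ x : S, κ (x : L) ∈ S') (g : L) :
    cen 𝔐 S.subtype (fun x => η' ⟨κ (x : L), h x⟩) g =
      (QINF.nst κ g : (integralClosure ℤ ℂ) ⧸ 𝔐) * cen 𝔐 S'.subtype η' (κ g) := by
  subst hS'
  exact QINF.cen_inf κ S 𝔐 κs hc hS hη' g

/-- Multiplication of the class by an element of a central subgroup. -/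
theorem cen_mul {L' : Type} [Group L'] [Fintype L'] (𝔐 : Ideal (integralClosure ℤ ℂ)) (W : Subgroup L')
    [Finite W] (hW : W ≤ Subgroup.center L') (S : Subgroup L') [Fintype S] (hS : W ≤ S)
    (μ : W →* ℂˣ) (η : S → ℂ) (hη : IsIrr η) (hO : OvL W μ S η) (z : L') (hz : z ∈ W)
    (x : L') :
    cen 𝔐 S.subtype η (z * x) = red 𝔐 ((μ ⟨z, hz⟩ : ℂˣ) : ℂ) * cen 𝔐 S.subtype η x := by
  have h1 : wt η (fun y : S => conjInd (S.subtype y) (z * x)) =
      ((μ ⟨z, hz⟩ : ℂˣ) : ℂ) * wt η (fun y : S => conjInd (S.subtype y) x) := by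
    unfold wt
    rw [← mul_div_assoc, Finset.mul_sum]
    congr 1
    refine (Fintype.sum_equiv (Equiv.mulLeft (⟨z, hS hz⟩ : S)) _ _ fun y => ?_).symm
    have h3 : η (⟨z, hS hz⟩ * y) = ((μ ⟨z, hz⟩ : ℂˣ) : ℂ) * η y := hO ⟨z, hS hz⟩ y hz
    have h2 : conjInd (S.subtype (⟨z, hS hz⟩ * y)) (z * x) = conjInd (S.subtype y) x := by
      apply conjInd_congr
      show IsConj (z * (y : L')) (z * x) ↔ IsConj (y : L') x
      constructor
      · intro h
        have h3 := TWF.isConj_mul (hW (W.inv_mem hz)) h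
        rwa [inv_mul_cancel_left, inv_mul_cancel_left] at h3
      · exact TWF.isConj_mul (hW hz)
    show ((μ ⟨z, hz⟩ : ℂˣ) : ℂ) * (conjInd (S.subtype y) x * η y) =
      conjInd (S.subtype (⟨z, hS hz⟩ * y)) (z * x) * η (⟨z, hS hz⟩ * y)
    rw [h2, h3]
    ring
  rw [cen, cen, h1, red_mul 𝔐 (isIntegral_unit μ _) (isIntegral_wt_conj _ hη _)]

end RDF

open _root_.Pool.Agent.DPN.RDF in
theorem RDF_thm : Stmt_RDF := by
  classical
  intro A T H Γ L L' _ _ _ _ _ _ _ _ _ _ _ _ 𝔐 ℓ _ hmax hℓ j c p hC hp θ hθ hinv e q r E U μ π h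
    κ π' μ' hQ u hu B hB V ψ η η' hψ hη hO hcor hη' hO' hcen
  have hC' := TWF.clg hC h
  obtain ⟨f1, -, f3, f4⟩ := FIBI_thm A Γ L 𝔐 e (c.comp r) q hC' θ E hθ h.Ec h.Ee
  obtain ⟨f, hf⟩ : ∃ f : Γ → ℂ, ∀ γ, f γ = ((u (r γ) : ℤ) : ℂ) := ⟨_, fun _ => rfl⟩
  have hff : (fun γ => ((u (r γ) : ℤ) : ℂ)) = f := by
    funext γ
    rw [hf]
  have hfc : ∀ y x, f (y * x * y⁻¹) = f x := by
    intro y x
    rw [hf, hf, map_mul, map_mul, map_inv, hu]
  have hfi : ∀ x, IsIntegral ℤ (f x) := by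
    intro x
    rw [hf]
    exact isIntegral_algebraMap (R := ℤ) (A := ℂ)
  have hfz : ∀ z γ, r z = 1 → f (z * γ) = f γ := by
    intro z γ hz
    rw [hf, hf, map_mul, hz, one_mul]
  obtain ⟨b, hb⟩ : ∃ b : L → ℂ, b = fib q E (θ 1) f := ⟨_, rfl⟩
  have hBb : ∀ l, B (κ l) = red 𝔐 (b l) := by
    intro l
    rw [hB, LmL, hff, hb]
  have hbc : ∀ m l, b (m * l * m⁻¹) = b l := by
    intro m l
    obtain ⟨y, rfl⟩ := h.qs m
    rw [hb]
    exact f3 f hfc y l
  have hbi : ∀ l, IsIntegral ℤ (b l) := by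
    intro l
    rw [hb]
    exact f1 f (fun a x => hfc (e a) x) hfi l
  have hbm : ∀ (z : U) (l : L), ((μ z : ℂˣ) : ℂ) * b (z * l) = b l := by
    intro z l
    rw [hb]
    exact TWF.B_mul hC h f hfz z l
  -- the value of the character
  have hwt : wt ψ (fun t => ((u (t : T) : ℤ) : ℂ)) =
      wt η (fun l => TWF.rs U h.Uc b ((V.comap π).subtype l)) := by
    have h1 := TWF.rs_total U h.Uc μ h.inj b hbc hbm (ext0 η)
      (fun u l => TWF.ext_eta h V η hO u l)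
    have h2 := f4 (ext0 η) f
    have h3 : ∑ γ, f γ * (E γ * ext0 η (q γ)) =
        (Nat.card r.ker : ℂ) * ∑ t, ((u t : ℤ) : ℂ) * ext0 ψ t := by
      rw [← TWF.sum_comp_surj r h.rs (fun t => ((u t : ℤ) : ℂ) * ext0 ψ t)]
      refine Finset.sum_congr rfl fun γ _ => ?_
      rw [hf, TWF.ext_psi h V ψ η hcor γ]
    have hE1 : E 1 = θ 1 := by rw [← h.Ee 1, map_one]
    have hψ1 : ψ 1 = E 1 * η 1 := by
      have h5 := TWF.ext_psi h V ψ η hcor 1
      rw [map_one, map_one, EVAL.ext0_one, EVAL.ext0_one] at h5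
      exact h5
    have hθ0 : θ 1 ≠ 0 := hθ.one_ne_zero
    have hη0 : η 1 ≠ 0 := hη.one_ne_zero
    have hU0 : (Nat.card U : ℂ) ≠ 0 := natCard_ne_zero
    rw [wt, wt] at h2
    simp only [map_one] at h2
    rw [h3, ← hb, ← h1, TWF.card_ker hC h, EVAL.ext0_one, hE1] at h2
    rw [wt, wt, TWF.sum_ext0 (V.comap p) (fun t => ((u t : ℤ) : ℂ)) ψ]
    show _ = (∑ l : ↥(V.comap π), TWF.rs U h.Uc b (l : L) * η l) / η 1
    rw [TWF.sum_ext0 (V.comap π) (fun l => TWF.rs U h.Uc b l) η, hψ1, hE1]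
    rw [mul_div_assoc, mul_div_assoc] at h2
    exact mul_left_cancel₀ hU0 h2
  have hrs : ∀ m l, TWF.rs U h.Uc b (m * l * m⁻¹) = TWF.rs U h.Uc b l :=
    TWF.rs_conj U h.Uc b hbc
  have hrsi : ∀ l, IsIntegral ℤ (TWF.rs U h.Uc b l) := by
    intro l
    unfold TWF.rs
    split_ifs
    · exact hbi l
    · exact isIntegral_zero
  have hred : red 𝔐 (wt ψ (fun t => ((u (t : T) : ℤ) : ℂ))) =
      pair 𝔐 (TWF.rs U h.Uc b) (cen 𝔐 (V.comap π).subtype η) := by
    rw [hwt]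
    exact red_wt_eq_pair 𝔐 (V.comap π).subtype hη (TWF.rs U h.Uc b) hrs hrsi
  -- the inflation
  have hκ : ∀ x : ↥(V.comap π), κ (x : L) ∈ V.comap π' := by
    intro x
    rw [Subgroup.mem_comap, hQ.ππ]
    exact x.2
  have hkS : κ.ker ≤ V.comap π := by
    intro x hx
    rw [Subgroup.mem_comap, (h.πk x).2 (hQ.κU hx)]
    exact V.one_mem
  have hS' : V.comap π' = (V.comap π).map κ := by
    ext x
    rw [Subgroup.mem_comap, Subgroup.mem_map]
    constructor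
    · intro hx
      obtain ⟨l, rfl⟩ := hQ.κs x
      refine ⟨l, ?_, rfl⟩
      rw [Subgroup.mem_comap, ← hQ.ππ]
      exact hx
    · rintro ⟨l, hl, rfl⟩
      rw [hQ.ππ]
      exact hl
  have hcg : ∀ g, cen 𝔐 (V.comap π).subtype η g =
      (QINF.nst κ g : (integralClosure ℤ ℂ) ⧸ 𝔐) *
        cen 𝔐 (V.comap π').subtype η' (κ g) := by
    intro g
    rw [hcen hκ]
    exact cen_inf' κ 𝔐 hQ.κs (hQ.κU.trans h.Uc) (V.comap π) (V.comap π') hkS hS' η' hη' hκ g
  obtain ⟨c', hc'⟩ : ∃ c', c' = cen 𝔐 (V.comap π').subtype η' := ⟨_, rfl⟩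
  have hW : ∀ z', z' ∈ π'.ker ↔ ∃ z ∈ U, κ z = z' := by
    intro z'
    constructor
    · intro hz'
      obtain ⟨z, rfl⟩ := hQ.κs z'
      refine ⟨z, (h.πk z).1 ?_, rfl⟩
      rw [← hQ.ππ]
      exact hz'
    · rintro ⟨z, hz, rfl⟩
      rw [MonoidHom.mem_ker, hQ.ππ]
      exact (h.πk z).2 hz
  have hWS : π'.ker ≤ V.comap π' := by
    intro x hx
    rw [Subgroup.mem_comap, MonoidHom.mem_ker.1 hx]
    exact V.one_mem
  have hkey := sum_key κ hQ.κs U h.Uc hQ.κU π'.ker hW (fun l' => B l' * c' l') ?_ ?_ ?_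
  · rw [hred, pk, pair, finsum_eq_sum_of_fintype, finsum_eq_sum_of_fintype]
    rw [← hc']
    convert hkey using 2
    refine Finset.sum_congr rfl fun C _ => ?_
    rw [hcg, ← hc', hBb]
    by_cases hch : Chs U h.Uc C.out
    · rw [if_pos hch]
      have h1 : TWF.rs U h.Uc b C.out = b C.out := if_pos hch
      rw [h1]
      by_cases h0 : b C.out = 0
      · rw [h0, red_zero, zero_mul, zero_mul]
      · have hn : QINF.nst κ C.out = 1 := by
          unfold QINF.nst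
          rw [Nat.card_eq_one_iff_unique]
          refine ⟨⟨?_⟩, ⟨⟨1, by rw [OneMemClass.coe_one, one_mul]⟩⟩⟩
          have h2 : ∀ z : {z : κ.ker // IsConj ((z : L) * C.out) C.out}, z.1 = 1 := by
            rintro ⟨⟨z, hz⟩, hzc⟩
            obtain ⟨m, hm⟩ := isConj_iff.1 hzc
            have h3 := hbm ⟨z, hQ.κU hz⟩ C.out
            have h4 : b (z * C.out) = b C.out := by
              rw [← hbc m (z * C.out)]
              exact congrArg b hm
            rw [h4] at h3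
            have h5 : (((μ ⟨z, hQ.κU hz⟩ : ℂˣ) : ℂ) - 1) * b C.out = 0 := by
              rw [sub_mul, h3, one_mul, sub_self]
            rcases mul_eq_zero.1 h5 with h6 | h6
            · have h7 : μ ⟨z, hQ.κU hz⟩ = 1 := by
                apply Units.ext
                rw [Units.val_one]
                exact sub_eq_zero.1 h6
              have h8 : (⟨z, hQ.κU hz⟩ : U) = 1 := h.inj (by rw [h7, map_one])
              apply Subtype.ext
              exact congrArg (fun t : U => (t : L)) h8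
            · exact absurd h6 h0
          intro z z'
          apply Subtype.ext
          rw [h2 z, h2 z']
        rw [hn, Nat.cast_one, one_mul]
    · rw [if_neg hch]
      have h1 : TWF.rs U h.Uc b C.out = 0 := if_neg hch
      rw [h1, red_zero, zero_mul]
  · intro m' x'
    obtain ⟨m, rfl⟩ := hQ.κs m'
    obtain ⟨x, rfl⟩ := hQ.κs x'
    have h1 : c' (κ m * κ x * (κ m)⁻¹) = c' (κ x) := by
      rw [hc']
      exact (cen_isConj 𝔐 _ _ (isConj_iff.2 ⟨κ m, rfl⟩)).symm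
    show B (κ m * κ x * (κ m)⁻¹) * c' (κ m * κ x * (κ m)⁻¹) = B (κ x) * c' (κ x)
    rw [h1, ← map_inv, ← map_mul, ← map_mul, hBb, hBb, hbc]
  · intro z' hz' x'
    obtain ⟨z, hz, rfl⟩ := (hW z').1 hz'
    obtain ⟨x, rfl⟩ := hQ.κs x'
    show B (κ z * κ x) * c' (κ z * κ x) = B (κ x) * c' (κ x)
    have h1 : c' (κ z * κ x) = red 𝔐 ((μ ⟨z, hz⟩ : ℂˣ) : ℂ) * c' (κ x) := by
      rw [hc', cen_mul 𝔐 π'.ker hQ.cc (V.comap π') hWS μ' η' hη' hO' (κ z) hz' (κ x),
        hQ.μμ z hz hz']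
    rw [h1, ← map_mul, hBb, hBb, ← hbm ⟨z, hz⟩ x, red_mul 𝔐 (isIntegral_unit μ _) (hbi _)]
    ring
  · intro l hl z hz hzl
    have h0 : b l ≠ 0 := by
      intro h0
      apply hl
      show B (κ l) * c' (κ l) = 0
      rw [hBb, h0, red_zero, zero_mul]
    obtain ⟨m, hm⟩ := isConj_iff.1 hzl
    have h3 := hbm ⟨z, hz⟩ l
    have h4 : b (z * l) = b l := by
      rw [← hbc m (z * l)]
      exact congrArg b hm
    rw [show (((⟨z, hz⟩ : U) : L)) = z from rfl, h4] at h3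
    have h5 : (((μ ⟨z, hz⟩ : ℂˣ) : ℂ) - 1) * b l = 0 := by
      rw [sub_mul, h3, one_mul, sub_self]
    rcases mul_eq_zero.1 h5 with h6 | h6
    · have h7 : μ ⟨z, hz⟩ = 1 := by
        apply Units.ext
        rw [Units.val_one]
        exact sub_eq_zero.1 h6
      have h8 : (⟨z, hz⟩ : U) = 1 := h.inj (by rw [h7, map_one])
      exact congrArg Subtype.val h8
    · exact absurd h6 h0

end Pool.Agent.DPN


end

section

/-!
# RDB: the number of the characters of minimal defect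
-/

set_option autoImplicit false

namespace Pool.Agent.DPN

open Pool.Agent.DP Pool.Agent.DPC Pool.Agent.DPM Pool.Agent.Lib_helper13 Representation

namespace RDB

/-- Numbers of objects which correspond to each other. -/
theorem card_corr {α β : Type*} (P : α → Prop) (Q : β → Prop) (R : α → β → Prop)
    (h1 : ∀ a, P a → ∃ b, Q b ∧ R a b) (h2 : ∀ b, Q b → ∃ a, P a ∧ R a b)
    (h3 : ∀ a b b', P a → Q b → Q b' → R a b → R a b' → b = b')
    (h4 : ∀ a a' b, P a → P a' → Q b → R a b → R a' b → a = a') :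
    Nat.card {a // P a} = Nat.card {b // Q b} := by
  choose f hf1 hf2 using fun a : {a // P a} => h1 a.1 a.2
  refine Nat.card_congr (Equiv.ofBijective (fun a => ⟨f a, hf1 a⟩) ⟨?_, ?_⟩)
  · intro a a' heq
    have h5 : f a = f a' := congrArg Subtype.val heq
    apply Subtype.ext
    refine h4 a.1 a'.1 (f a) a.2 a'.2 (hf1 a) (hf2 a) ?_
    rw [h5]
    exact hf2 a'
  · rintro ⟨b, hb⟩
    obtain ⟨a, ha, hab⟩ := h2 b hb
    refine ⟨⟨a, ha⟩, Subtype.ext ?_⟩
    exact h3 a _ b ha (hf1 _) hb (hf2 ⟨a, ha⟩) hab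

/-- The central function on a larger group is determined by the central function. -/
theorem cen_of_id {S G : Type} [Group S] [Fintype S] [Group G]
    (𝔐 : Ideal (integralClosure ℤ ℂ)) (i : S →* G) {η η₂ : S → ℂ} (hη : IsIrr η)
    (hη₂ : IsIrr η₂) (h : cen 𝔐 (MonoidHom.id S) η = cen 𝔐 (MonoidHom.id S) η₂) :
    cen 𝔐 i η = cen 𝔐 i η₂ := by
  funext g
  have key : ∀ χ : S → ℂ, IsIrr χ →
      cen 𝔐 i χ g = pair 𝔐 (fun y => conjInd (i y) g) (cen 𝔐 (MonoidHom.id S) χ) := by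
    intro χ hχ
    exact red_wt_eq_pair 𝔐 (MonoidHom.id S) hχ (fun y => conjInd (i y) g)
      (fun a x => by rw [map_mul, map_mul, map_inv, conjInd_conj])
      (fun x => isIntegral_conjInd _ _)
  rw [key η hη, key η₂ hη₂, h]

/-- Linear characters which agree modulo `𝔐` and on an `ℓ'`-power. -/
theorem lin_eq {𝔐 : Ideal (integralClosure ℤ ℂ)} (hmax : 𝔐.IsMaximal) {ℓ : ℕ} [Fact ℓ.Prime]
    (hℓ : (ℓ : integralClosure ℤ ℂ) ∈ 𝔐) {G : Type} [Group G] [Finite G] (ε ε' : G →* ℂˣ)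
    (w : G) {m : ℕ} (hm : ¬ ℓ ∣ m) (h1 : ε (w ^ m) = ε' (w ^ m))
    (h : red 𝔐 ((ε w : ℂˣ) : ℂ) = red 𝔐 ((ε' w : ℂˣ) : ℂ)) : ε w = ε' w := by
  have h2 : ((ε w * ε' w⁻¹ : ℂˣ) : ℂ) = 1 := by
    refine ISOL.eq_one_of_red hmax hℓ (m := m) ?_ hm ?_
    · rw [← Units.val_pow_eq_pow_val, mul_pow, ← map_pow, ← map_pow, inv_pow, h1, ← map_mul,
        mul_inv_cancel, map_one, Units.val_one]
    · rw [Units.val_mul, red_mul 𝔐 (RDF.isIntegral_unit ε w) (RDF.isIntegral_unit ε' _), h,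
        ← red_mul 𝔐 (RDF.isIntegral_unit ε' w) (RDF.isIntegral_unit ε' _), ← Units.val_mul,
        ← map_mul, mul_inv_cancel, map_one, Units.val_one, red_one]
  have h3 : ε w * ε' w⁻¹ = 1 := Units.ext (by rw [h2, Units.val_one])
  rw [map_inv, mul_inv_eq_one] at h3
  exact h3

/-- The quotient by the `ℓ`-group `κ.ker`. -/
structure Dat {L L' : Type} [Group L] [Group L'] (𝔐 : Ideal (integralClosure ℤ ℂ)) (ℓ : ℕ)
    (U : Subgroup L) (μ : U →* ℂˣ) (κ : L →* L') (W : Subgroup L') (μ' : W →* ℂˣ)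
    (S : Subgroup L) (S' : Subgroup L') : Prop where
  Uc : U ≤ Subgroup.center L
  κs : Function.Surjective κ
  κU : κ.ker ≤ U
  κp : IsPGroup ℓ κ.ker
  Wc : W ≤ Subgroup.center L'
  nl : ¬ ℓ ∣ Nat.card W
  WU : ∀ l, κ l ∈ W ↔ l ∈ U
  μμ : ∀ (u : L) (hu : u ∈ U) (h : κ u ∈ W),
    red 𝔐 ((μ' ⟨κ u, h⟩ : ℂˣ) : ℂ) = red 𝔐 ((μ ⟨u, hu⟩ : ℂˣ) : ℂ)
  US : U ≤ S
  SS : ∀ l, κ l ∈ S' ↔ l ∈ S

section Main

variable {L L' : Type} [Group L] [Fintype L] [Group L'] [Fintype L']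
  {𝔐 : Ideal (integralClosure ℤ ℂ)} {ℓ : ℕ} {U : Subgroup L} {μ : U →* ℂˣ} {κ : L →* L'}
  {W : Subgroup L'} {μ' : W →* ℂˣ} {S : Subgroup L} {S' : Subgroup L'}

/-- The projection of `S` onto `S'`. -/
def kS (D : Dat 𝔐 ℓ U μ κ W μ' S S') : S →* S' :=
  (κ.comp S.subtype).codRestrict S' (fun x => (D.SS x).2 x.2)

omit [Fintype L] [Fintype L'] in
theorem kS_surj (D : Dat 𝔐 ℓ U μ κ W μ' S S') : Function.Surjective (kS D) := by
  rintro ⟨x, hx⟩
  obtain ⟨l, rfl⟩ := D.κs x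
  exact ⟨⟨l, (D.SS l).1 hx⟩, rfl⟩

omit [Fintype L] [Fintype L'] in
theorem mem_ker (D : Dat 𝔐 ℓ U μ κ W μ' S S') (x : S) : x ∈ (kS D).ker ↔ (x : L) ∈ κ.ker := by
  rw [MonoidHom.mem_ker, MonoidHom.mem_ker]
  exact ⟨fun h => congrArg Subtype.val h, fun h => Subtype.ext h⟩

omit [Fintype L] [Fintype L'] in
theorem ker_center (D : Dat 𝔐 ℓ U μ κ W μ' S S') : (kS D).ker ≤ Subgroup.center S := by
  intro x hx
  rw [Subgroup.mem_center_iff]
  intro y
  apply Subtype.ext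
  exact Subgroup.mem_center_iff.1 (D.Uc (D.κU ((mem_ker D x).1 hx))) y

omit [Fintype L] [Fintype L'] in
theorem ker_p (D : Dat 𝔐 ℓ U μ κ W μ' S S') : IsPGroup ℓ (kS D).ker := by
  rintro ⟨x, hx⟩
  obtain ⟨k, hk⟩ := D.κp ⟨x, (mem_ker D x).1 hx⟩
  refine ⟨k, ?_⟩
  apply Subtype.ext
  apply Subtype.ext
  exact congrArg (fun y : κ.ker => (y : L)) hk

omit [Fintype L] [Fintype L'] in
theorem card_ker (D : Dat 𝔐 ℓ U μ κ W μ' S S') : Nat.card (kS D).ker = Nat.card κ.ker :=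
  Nat.card_congr
    { toFun := fun x => ⟨x.1.1, (mem_ker D x.1).1 x.2⟩
      invFun := fun x => ⟨⟨x.1, D.US (D.κU x.2)⟩, (mem_ker D _).2 x.2⟩
      left_inv := fun x => rfl
      right_inv := fun x => rfl }

omit [Fintype L'] in
/-- The order of `U`. -/
theorem val_U [Fact ℓ.Prime] (D : Dat 𝔐 ℓ U μ κ W μ' S S') :
    padicValNat ℓ (Nat.card U) = padicValNat ℓ (Nat.card (kS D).ker) := by
  let f : U →* W := (κ.comp U.subtype).codRestrict W (fun x => (D.WU x).2 x.2)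
  have hf : Function.Surjective f := by
    rintro ⟨x, hx⟩
    obtain ⟨l, rfl⟩ := D.κs x
    exact ⟨⟨l, (D.WU l).1 hx⟩, rfl⟩
  have hk : Nat.card f.ker = Nat.card κ.ker :=
    Nat.card_congr
      { toFun := fun x => ⟨x.1.1, by
          have h1 := MonoidHom.mem_ker.1 x.2
          exact congrArg Subtype.val h1⟩
        invFun := fun x => ⟨⟨x.1, D.κU x.2⟩, by
          rw [MonoidHom.mem_ker]
          apply Subtype.ext
          exact MonoidHom.mem_ker.1 x.2⟩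
        left_inv := fun x => rfl
        right_inv := fun x => rfl }
  have hW : Finite W := Finite.of_surjective f hf
  rw [QINF.card_eq f hf, hk, card_ker D, padicValNat.mul Nat.card_pos.ne' Nat.card_pos.ne',
    padicValNat.eq_zero_of_not_dvd D.nl, add_zero]

/-- The linear character of the kernel. -/
def lam (D : Dat 𝔐 ℓ U μ κ W μ' S S') : (kS D).ker →* ℂˣ :=
  μ.comp ((S.subtype.comp (kS D).ker.subtype).codRestrict U
    (fun z => D.κU ((mem_ker D z.1).1 z.2)))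

omit [Fintype L] [Fintype L'] in
theorem lam_apply (D : Dat 𝔐 ℓ U μ κ W μ' S S') (z : (kS D).ker) (h : ((z : S) : L) ∈ U) :
    lam D z = μ ⟨((z : S) : L), h⟩ := rfl

omit [Fintype L] [Fintype L'] in
theorem over_lam (D : Dat 𝔐 ℓ U μ κ W μ' S S') {η : S → ℂ} (hO : OvL U μ S η) (z : (kS D).ker)
    (x : S) : η (z * x) = ((lam D z : ℂˣ) : ℂ) * η x :=
  hO z x (D.κU ((mem_ker D z.1).1 z.2))

omit [Fintype L] [Fintype L'] in
theorem over_one (D : Dat 𝔐 ℓ U μ κ W μ' S S') (η' : S' → ℂ) (z : (kS D).ker)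
    (x : S) : η' (kS D (z * x)) = (((1 : (kS D).ker →* ℂˣ) z : ℂˣ) : ℂ) * η' (kS D x) := by
  rw [map_mul, MonoidHom.mem_ker.1 z.2, one_mul, MonoidHom.one_apply, Units.val_one, one_mul]

omit [Fintype L] [Fintype L'] in
theorem WS (D : Dat 𝔐 ℓ U μ κ W μ' S S') : W ≤ S' := by
  intro x hx
  obtain ⟨l, rfl⟩ := D.κs x
  exact (D.SS l).2 (D.US ((D.WU l).1 hx))

omit [Fintype L] [Fintype L'] in
/-- The linear characters under an inflation. -/
theorem lin_inf (D : Dat 𝔐 ℓ U μ κ W μ' S S') {η' : S' → ℂ} (h0 : η' 1 ≠ 0) {ν : U →* ℂˣ}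
    (hν : OvL U ν S (fun x => η' (kS D x))) {ε : W →* ℂˣ} (hε : OvL W ε S' η') (u : L)
    (hu : u ∈ U) (h : κ u ∈ W) : ν ⟨u, hu⟩ = ε ⟨κ u, h⟩ := by
  have h1 := hν ⟨u, D.US hu⟩ 1 hu
  have h2 := hε (kS D ⟨u, D.US hu⟩) 1 h
  have h3 : η' (kS D (⟨u, D.US hu⟩ * 1)) = ((ν ⟨u, hu⟩ : ℂˣ) : ℂ) * η' (kS D 1) := h1
  rw [map_mul, map_one, h2] at h3
  exact Units.ext (mul_right_cancel₀ h0 h3).symm

/-- From `S` to `S'`. -/
theorem down (h2 : Stmt_MINX) (hmax : 𝔐.IsMaximal) [Fact ℓ.Prime]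
    (hℓ : (ℓ : integralClosure ℤ ℂ) ∈ 𝔐) (D : Dat 𝔐 ℓ U μ κ W μ' S S') (η : S → ℂ) (hη : IsIrr η) (hO : OvL U μ S η)
    (hd : HasDefect ℓ η (padicValNat ℓ (Nat.card (kS D).ker))) :
    ∃ η' : S' → ℂ, IsIrr η' ∧ OvL W μ' S' η' ∧ HasDefect ℓ η' 0 ∧
      cen 𝔐 (MonoidHom.id S) η = cen 𝔐 (MonoidHom.id S) (fun x => η' (kS D x)) := by
  obtain ⟨χ, hχ, hχz, hcen⟩ := BTC_thm S 𝔐 ℓ hmax hℓ (kS D).ker (ker_center D) (ker_p D) 1 η hη
  obtain ⟨m1, -⟩ := h2 S 𝔐 ℓ hmax hℓ (kS D).ker (ker_center D) (ker_p D) η hη hd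
  have hdχ := m1 χ hχ hcen
  obtain ⟨η', hη', rfl⟩ := QINF.exists_inf (kS D) (kS_surj D) hχ (fun x y hx => by
    have h3 := hχz ⟨x, MonoidHom.mem_ker.2 hx⟩ y
    rw [MonoidHom.one_apply, Units.val_one, one_mul] at h3
    exact h3)
  refine ⟨η', hη', ?_, ?_, hcen.symm⟩
  · obtain ⟨ν, hν⟩ := ISOL.exists_lin D.Uc D.US hχ
    obtain ⟨ε, hε⟩ := ISOL.exists_lin D.Wc (WS D) hη'
    have h3 : ε = μ' := by
      ext w
      obtain ⟨⟨w, hw⟩, rfl⟩ : ∃ w' : W, w' = w := ⟨w, rfl⟩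
      obtain ⟨u, rfl⟩ := D.κs w
      have hu : u ∈ U := (D.WU u).1 hw
      have h4 := lin_inf D hη'.one_ne_zero hν hε u hu hw
      have h5 := ISOL.cen_apply 𝔐 D.Uc D.US hχ hν ⟨u, hu⟩
      have h6 := ISOL.cen_apply 𝔐 D.Uc D.US hη hO ⟨u, hu⟩
      rw [cen_of_id 𝔐 S.subtype hχ hη hcen, h6, h4, ← D.μμ u hu hw] at h5
      rw [lin_eq hmax hℓ ε μ' ⟨κ u, hw⟩ D.nl (by rw [pow_card_eq_one', map_one, map_one]) h5.symm]
    rw [← h3]
    exact hε
  · have h3 := QINF.defect_inf (kS D) ℓ (kS_surj D) η' 0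
    rw [zero_add] at h3
    exact h3.1 hdχ

/-- From `S'` to `S`. -/
theorem up (h2 : Stmt_MINX) (hmax : 𝔐.IsMaximal) [Fact ℓ.Prime]
    (hℓ : (ℓ : integralClosure ℤ ℂ) ∈ 𝔐) (D : Dat 𝔐 ℓ U μ κ W μ' S S') (η' : S' → ℂ) (hη' : IsIrr η') (hO' : OvL W μ' S' η')
    (hd' : HasDefect ℓ η' 0) :
    ∃ η : S → ℂ, IsIrr η ∧ OvL U μ S η ∧
      HasDefect ℓ η (padicValNat ℓ (Nat.card (kS D).ker)) ∧
      cen 𝔐 (MonoidHom.id S) η = cen 𝔐 (MonoidHom.id S) (fun x => η' (kS D x)) := by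
  have hχ : IsIrr (fun x => η' (kS D x)) := QINF.irr_inf (kS D) (kS_surj D) hη'
  have hdχ : HasDefect ℓ (fun x => η' (kS D x)) (padicValNat ℓ (Nat.card (kS D).ker)) := by
    have h3 := QINF.defect_inf (kS D) ℓ (kS_surj D) η' 0
    rw [zero_add] at h3
    exact h3.2 hd'
  obtain ⟨η, hη, hηz, hcen⟩ :=
    BTC_thm S 𝔐 ℓ hmax hℓ (kS D).ker (ker_center D) (ker_p D) (lam D) _ hχ
  obtain ⟨m1, -⟩ := h2 S 𝔐 ℓ hmax hℓ (kS D).ker (ker_center D) (ker_p D) _ hχ hdχ
  refine ⟨η, hη, ?_, m1 η hη hcen, hcen⟩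
  obtain ⟨ν, hν⟩ := ISOL.exists_lin D.Uc D.US hη
  obtain ⟨ν', hν'⟩ := ISOL.exists_lin D.Uc D.US hχ
  have h3 : ν = μ := by
    ext u
    obtain ⟨⟨u, hu⟩, rfl⟩ : ∃ u' : U, u' = u := ⟨u, rfl⟩
    have hw : κ u ∈ W := (D.WU u).2 hu
    have h4 := lin_inf D hη'.one_ne_zero hν' hO' u hu hw
    have h5 := ISOL.cen_apply 𝔐 D.Uc D.US hχ hν' ⟨u, hu⟩
    have h6 := ISOL.cen_apply 𝔐 D.Uc D.US hη hν ⟨u, hu⟩
    rw [cen_of_id 𝔐 S.subtype hη hχ hcen, h5, h4, D.μμ u hu hw] at h6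
    have hpow : (⟨u, hu⟩ : U) ^ Nat.card W = ⟨u ^ Nat.card W, U.pow_mem hu _⟩ := rfl
    have hker : u ^ Nat.card W ∈ κ.ker := by
      rw [MonoidHom.mem_ker, map_pow]
      have h7 : (⟨κ u, hw⟩ : W) ^ Nat.card W = 1 := pow_card_eq_one'
      exact congrArg Subtype.val h7
    have h7 : ν ((⟨u, hu⟩ : U) ^ Nat.card W) = μ ((⟨u, hu⟩ : U) ^ Nat.card W) := by
      rw [hpow]
      have hS : u ^ Nat.card W ∈ S := D.US (U.pow_mem hu _)
      have h8 := hν ⟨u ^ Nat.card W, hS⟩ 1 (U.pow_mem hu _)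
      have h9 := hηz ⟨⟨u ^ Nat.card W, hS⟩, (mem_ker D _).2 hker⟩ 1
      rw [lam_apply D _ (U.pow_mem hu _)] at h9
      apply Units.ext
      exact mul_right_cancel₀ hη.one_ne_zero (h8.symm.trans h9)
    rw [lin_eq hmax hℓ ν μ ⟨u, hu⟩ D.nl h7 h6.symm]
  rw [← h3]
  exact hν

end Main

end RDB

open _root_.Pool.Agent.DPN.RDB in
/-- RDB: the number of the characters of minimal defect. -/
theorem RDB_thm (h1 : Stmt_RDF) (h2 : Stmt_MINX) : Stmt_RDB := by
  classical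
  intro A T H Γ L L' X _ _ _ _ _ _ _ _ _ _ _ _ _ _ 𝔐 ℓ _ hmax hℓ j c p hC hp θ hθ hinv a ha
    e q r E U μ π h κ π' μ' hQ Lm hLm i ω V
  have hprime : 𝔐.IsPrime := hmax.isPrime
  -- the data
  have D : Dat 𝔐 ℓ U μ κ π'.ker μ' (V.comap π) (V.comap π') :=
    { Uc := h.Uc
      κs := hQ.κs
      κU := hQ.κU
      κp := hQ.κp
      Wc := hQ.cc
      nl := hQ.nl
      WU := fun l => by rw [MonoidHom.mem_ker, hQ.ππ, h.πk]
      μμ := hQ.μμ
      US := fun x hx => by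
        rw [Subgroup.mem_comap, (h.πk x).2 hx]
        exact V.one_mem
      SS := fun l => by rw [Subgroup.mem_comap, Subgroup.mem_comap, hQ.ππ] }
  obtain ⟨t0, t0', t1, t2, t3, t4, t5, t6⟩ :=
    TWN_thm A T H Γ L ℓ j c p hC hp θ hθ hinv e q r E U μ π h V
  -- the defect
  have hdef : ∀ (ψ : ↥(V.comap p) → ℂ) (η : ↥(V.comap π) → ℂ), IsIrr ψ → IsIrr η →
      Cor p q r E π V ψ η →
      (HasDefect ℓ ψ a ↔ HasDefect ℓ η (padicValNat ℓ (Nat.card U))) := by
    intro ψ η hψ hη hcor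
    obtain ⟨d1, hd1⟩ := hψ.exists_defect (ℓ := ℓ)
    obtain ⟨d2, hd2⟩ := hη.exists_defect (ℓ := ℓ)
    have h3 := t5 ψ η a d1 d2 hη hcor ha hd1 hd2
    constructor
    · intro h4
      have h5 : d1 = a := hd1.unique h4
      have h6 : padicValNat ℓ (Nat.card U) = d2 := by omega
      rw [h6]
      exact hd2
    · intro h4
      have h5 : d2 = padicValNat ℓ (Nat.card U) := hd2.unique h4
      have h6 : a = d1 := by omega
      rw [h6]
      exact hd1
  have hvU : padicValNat ℓ (Nat.card U) = padicValNat ℓ (Nat.card (kS D).ker) := val_U D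
  -- the block
  have hpk : ∀ (ψ : ↥(V.comap p) → ℂ) (η : ↥(V.comap π) → ℂ) (η' : ↥(V.comap π') → ℂ),
      IsIrr ψ → IsIrr η → OvL U μ _ η → Cor p q r E π V ψ η → IsIrr η' →
      OvL π'.ker μ' _ η' →
      cen 𝔐 (MonoidHom.id _) η = cen 𝔐 (MonoidHom.id _) (fun x => η' (kS D x)) →
      (cen 𝔐 (i.comp (V.comap p).subtype) ψ = ω ↔
        ∀ g, pk 𝔐 (Lm (cI i g)) (cen 𝔐 (V.comap π').subtype η') =
          (Nat.card π'.ker : ℕ) * ω g) := by
    intro ψ η η' hψ hη hO hcor hη' hO' hcen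
    have hχ : IsIrr (fun x => η' (kS D x)) := QINF.irr_inf (kS D) (kS_surj D) hη'
    have hsub := cen_of_id 𝔐 (V.comap π).subtype hη hχ hcen
    have hcI : ∀ g t x, cI i g (t * x * t⁻¹) = cI i g x := by
      intro g t x
      unfold cI
      have h3 : IsConj (i (t * x * t⁻¹)) g ↔ IsConj (i x) g := by
        have h4 : IsConj (i x) (i (t * x * t⁻¹)) :=
          MonoidHom.map_isConj i (isConj_iff.2 ⟨t, rfl⟩)
        exact ⟨fun h5 => h4.trans h5, fun h5 => h4.symm.trans h5⟩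
      by_cases h4 : IsConj (i x) g
      · rw [if_pos h4, if_pos (h3.2 h4)]
      · rw [if_neg h4, if_neg (fun h5 => h4 (h3.1 h5))]
    have hcI' : ∀ g t, ((cI i g t : ℤ) : ℂ) = conjInd (i t) g := by
      intro g t
      unfold cI conjInd
      split_ifs
      · rw [Int.cast_one]
      · rw [Int.cast_zero]
    have hval : ∀ g, pk 𝔐 (Lm (cI i g)) (cen 𝔐 (V.comap π').subtype η') =
        (Nat.card π'.ker : ℕ) * cen 𝔐 (i.comp (V.comap p).subtype) ψ g := by
      intro g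
      have h3 := h1 A T H Γ L L' 𝔐 ℓ hmax hℓ j c p hC hp θ hθ hinv e q r E U μ π h κ π' μ' hQ
        (cI i g) (hcI g) (Lm (cI i g)) (fun l => hLm _ (fun b x => hcI g (j b) x) l) V ψ η η'
        hψ hη hO hcor hη' hO' (fun hκ => hsub)
      rw [h3]
      congr 1
      unfold cen
      congr 2
      funext t
      exact hcI' g t
    have hcan : ((Nat.card π'.ker : ℕ) : (integralClosure ℤ ℂ) ⧸ 𝔐) ≠ 0 := by
      rw [← red_natCast]
      exact red_card_ne_zero 𝔐 hℓ hQ.nl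
    constructor
    · intro h3 g
      rw [hval, h3]
    · intro h3
      funext g
      have h4 := h3 g
      rw [hval] at h4
      exact mul_left_cancel₀ hcan h4
  -- the two numbers
  have hNT : Nat.card {ψ : ↥(V.comap p) → ℂ // IsIrr ψ ∧
        ip (fun a : A => ext0 ψ (j a)) θ ≠ 0 ∧ (HasDefect ℓ ψ a ∧
        cen 𝔐 (i.comp (V.comap p).subtype) ψ ∈ ({ω} : Set _))} =
      Nat.card {η : ↥(V.comap π) → ℂ // IsIrr η ∧ OvL U μ _ η ∧
        (HasDefect ℓ η (padicValNat ℓ (Nat.card U)) ∧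
        ∀ ψ, IsIrr ψ → Cor p q r E π V ψ η → cen 𝔐 (i.comp (V.comap p).subtype) ψ = ω)} := by
    apply t6 (fun ψ => HasDefect ℓ ψ a ∧
        cen 𝔐 (i.comp (V.comap p).subtype) ψ ∈ ({ω} : Set _))
      (fun η => HasDefect ℓ η (padicValNat ℓ (Nat.card U)) ∧
        ∀ ψ, IsIrr ψ → Cor p q r E π V ψ η → cen 𝔐 (i.comp (V.comap p).subtype) ψ = ω)
    intro ψ η hψ hip hη hO hcor
    refine and_congr (hdef ψ η hψ hη hcor) ?_
    rw [Set.mem_singleton_iff]
    constructor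
    · intro h3 ψ' _ hcor'
      rw [t3 ψ' ψ η hcor' hcor]
      exact h3
    · intro h3
      exact h3 ψ hψ hcor
  have hcorr := card_corr
    (fun η : ↥(V.comap π) → ℂ => IsIrr η ∧ OvL U μ _ η ∧
      (HasDefect ℓ η (padicValNat ℓ (Nat.card U)) ∧
        ∀ ψ, IsIrr ψ → Cor p q r E π V ψ η → cen 𝔐 (i.comp (V.comap p).subtype) ψ = ω))
    (fun η' : ↥(V.comap π') → ℂ => IsIrr η' ∧ OvL π'.ker μ' _ η' ∧ HasDefect ℓ η' 0 ∧
      ∀ g, pk 𝔐 (Lm (cI i g)) (cen 𝔐 (V.comap π').subtype η') =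
        (Nat.card π'.ker : ℕ) * ω g)
    (fun η η' => cen 𝔐 (MonoidHom.id _) η = cen 𝔐 (MonoidHom.id _) (fun x => η' (kS D x)))
    ?_ ?_ ?_ ?_
  · unfold NT
    rw [← hcorr, ← hNT]
  · rintro η ⟨hη, hO, hd, hQ0⟩
    rw [hvU] at hd
    obtain ⟨η', hη', hO', hd', hcen⟩ := down h2 hmax hℓ D η hη hO hd
    obtain ⟨ψ, hψ, hip, hcor⟩ := t1 η hη hO
    refine ⟨η', ⟨hη', hO', hd', ?_⟩, hcen⟩
    exact (hpk ψ η η' hψ hη hO hcor hη' hO' hcen).1 (hQ0 ψ hψ hcor)
  · rintro η' ⟨hη', hO', hd', hg⟩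
    obtain ⟨η, hη, hO, hd, hcen⟩ := up h2 hmax hℓ D η' hη' hO' hd'
    rw [← hvU] at hd
    refine ⟨η, ⟨hη, hO, hd, ?_⟩, hcen⟩
    intro ψ hψ hcor
    exact (hpk ψ η η' hψ hη hO hcor hη' hO' hcen).2 hg
  · rintro η η₁ η₂ ⟨hη, hO, hd, -⟩ ⟨hη₁, -, -, -⟩ ⟨hη₂, -, -, -⟩ hR₁ hR₂
    rw [hvU] at hd
    obtain ⟨-, m2⟩ := h2 _ 𝔐 ℓ hmax hℓ (kS D).ker (ker_center D) (ker_p D) η hη hd
    have h3 := m2 1 (fun x => η₁ (kS D x)) (fun x => η₂ (kS D x))
      (QINF.irr_inf (kS D) (kS_surj D) hη₁) (QINF.irr_inf (kS D) (kS_surj D) hη₂) hR₁.symm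
      hR₂.symm (fun z x => over_one D η₁ z x) (fun z x => over_one D η₂ z x)
    funext x
    obtain ⟨y, rfl⟩ := kS_surj D x
    exact congrFun h3 y
  · rintro η₁ η₂ η' ⟨hη₁, hO₁, hd₁, -⟩ ⟨hη₂, hO₂, hd₂, -⟩ _ hR₁ hR₂
    rw [hvU] at hd₁
    obtain ⟨-, m2⟩ := h2 _ 𝔐 ℓ hmax hℓ (kS D).ker (ker_center D) (ker_p D) η₁ hη₁ hd₁
    exact m2 (lam D) η₁ η₂ hη₁ hη₂ rfl (hR₂.trans hR₁.symm) (fun z x => over_lam D hO₁ z x)
      (fun z x => over_lam D hO₂ z x)

end Pool.Agent.DPN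


end

section

/-!
# The twisted chain sums with a condition on the central functions (module TDC)
-/

set_option linter.unusedSectionVars false

namespace Pool.Agent.DPN

open Pool.Agent.DP Pool.Agent.DPC Pool.Agent.DPM Pool.Agent.Lib_helper13 Representation
open Pool.Agent.Lib_helper13.Dade (pCore DadeHolds dadeSum)

namespace TDC

/-- The condition on the central functions on `X`, expressed by the central functions on `L`. -/
def QL {L X : Type} [Group L] [Fintype L] [Group X] (𝔐 : Ideal (integralClosure ℤ ℂ))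
    (i : L →* X) (Q : Set (X → (integralClosure ℤ ℂ) ⧸ 𝔐)) :
    Set (L → (integralClosure ℤ ℂ) ⧸ 𝔐) :=
  {x | (fun g => pair 𝔐 (fun y => conjInd (i y) g) x) ∈ Q}

theorem mem_QL {S L X : Type} [Group S] [Fintype S] [Group L] [Fintype L] [Group X]
    (𝔐 : Ideal (integralClosure ℤ ℂ)) (i : L →* X) (s : S →* L)
    (Q : Set (X → (integralClosure ℤ ℂ) ⧸ 𝔐)) {ψ : S → ℂ} (hψ : IsIrr ψ) :
    cen 𝔐 (i.comp s) ψ ∈ Q ↔ cen 𝔐 s ψ ∈ QL 𝔐 i Q := by
  have h : cen 𝔐 (i.comp s) ψ = fun g => pair 𝔐 (fun y => conjInd (i y) g) (cen 𝔐 s ψ) := by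
    funext g
    exact MXM.cen_comp 𝔐 i s hψ g
  rw [h]
  rfl

end TDC

open Classical in
theorem TDC_thm : Stmt_TDC := by
  intro L K X _ _ _ _ _ _ 𝔐 ℓ _ hmax hℓ π hπs hcore hHQ U μ hUc hπk hcyc hinj d hd i Q
  by_contra hne
  -- split according to the central function
  have hfin : (⋃ σ ∈ Ch ℓ (⊥ : Subgroup K), {x : L → (integralClosure ℤ ℂ) ⧸ 𝔐 |
      ∃ ψ : ↥((stb σ).comap π) → ℂ, IsIrr ψ ∧
      cen 𝔐 ((stb σ).comap π).subtype ψ = x}).Finite := by
    apply Set.Finite.biUnion (Finset.finite_toSet _)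
    intro τ _
    exact finite_cen 𝔐 _
  have hC : ∀ σ ∈ Ch ℓ (⊥ : Subgroup K), ∀ ψ : ↥((stb σ).comap π) → ℂ, IsIrr ψ →
      cen 𝔐 ((stb σ).comap π).subtype ψ ∈ hfin.toFinset := by
    intro σ hσ ψ hψ
    rw [Set.Finite.mem_toFinset, Set.mem_iUnion₂]
    exact ⟨σ, hσ, ψ, hψ, rfl⟩
  have hsplit : ∑ σ ∈ Ch ℓ (⊥ : Subgroup K), (-1 : ℚ) ^ σ.card * ((Nat.card (stb σ) : ℚ) *
      Nat.card {η : ↥((stb σ).comap π) → ℂ // IsIrr η ∧ OvL U μ _ η ∧
        HasDefect ℓ η d ∧ cen 𝔐 (i.comp ((stb σ).comap π).subtype) η ∈ Q}) =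
      ∑ x ∈ hfin.toFinset, ∑ σ ∈ Ch ℓ (⊥ : Subgroup K),
        ((-1 : ℚ) ^ σ.card * (Nat.card (stb σ) : ℚ)) *
        Nat.card {η : ↥((stb σ).comap π) → ℂ // IsIrr η ∧ (OvL U μ _ η ∧
          HasDefect ℓ η d ∧ cen 𝔐 (i.comp ((stb σ).comap π).subtype) η ∈ Q) ∧
          cen 𝔐 ((stb σ).comap π).subtype η = x} := by
    rw [Finset.sum_comm]
    refine Finset.sum_congr rfl fun σ hσ => ?_
    rw [TD.card_split (fun η : ↥((stb σ).comap π) → ℂ => OvL U μ _ η ∧
        HasDefect ℓ η d ∧ cen 𝔐 (i.comp ((stb σ).comap π).subtype) η ∈ Q)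
      (fun η => cen 𝔐 ((stb σ).comap π).subtype η) hfin.toFinset (hC σ hσ)]
    rw [Nat.cast_sum, Finset.mul_sum, Finset.mul_sum]
    refine Finset.sum_congr rfl fun x _ => ?_
    rw [mul_assoc]
  rw [hsplit] at hne
  obtain ⟨x, -, hx'⟩ := Finset.exists_ne_zero_of_sum_ne_zero hne
  have hxQ : x ∈ TDC.QL 𝔐 i Q := by
    by_contra hxn
    apply hx'
    refine Finset.sum_eq_zero fun σ hσ => ?_
    have hempty : IsEmpty {η : ↥((stb σ).comap π) → ℂ // IsIrr η ∧ (OvL U μ _ η ∧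
          HasDefect ℓ η d ∧ cen 𝔐 (i.comp ((stb σ).comap π).subtype) η ∈ Q) ∧
          cen 𝔐 ((stb σ).comap π).subtype η = x} := by
      constructor
      rintro ⟨η, h1, ⟨-, -, h2⟩, h3⟩
      apply hxn
      rw [← h3]
      exact (TDC.mem_QL 𝔐 i _ Q h1).mp h2
    rw [@Nat.card_of_isEmpty _ hempty, Nat.cast_zero, mul_zero]
  have hx : ∑ σ ∈ Ch ℓ (⊥ : Subgroup K),
        ((-1 : ℚ) ^ σ.card * (Nat.card (stb σ) : ℚ)) *
        Nat.card {η : ↥((stb σ).comap π) → ℂ // IsIrr η ∧ OvL U μ _ η ∧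
          HasDefect ℓ η d ∧ cen 𝔐 ((stb σ).comap π).subtype η = x} ≠ 0 := by
    intro h0
    apply hx'
    rw [← h0]
    refine Finset.sum_congr rfl fun σ _ => ?_
    congr 2
    refine Nat.card_congr (Equiv.subtypeEquivRight fun η => ?_)
    constructor
    · rintro ⟨h1, ⟨h2, h3, -⟩, h4⟩
      exact ⟨h1, h2, h3, h4⟩
    · rintro ⟨h1, h2, h3, h4⟩
      refine ⟨h1, ⟨h2, h3, ?_⟩, h4⟩
      rw [TDC.mem_QL 𝔐 i _ Q h1, h4]
      exact hxQ
  -- isolation
  have hUS : ∀ σ ∈ Ch ℓ (⊥ : Subgroup K), U ≤ (stb σ).comap π := by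
    intro σ _ u hu
    rw [Subgroup.mem_comap, (hπk u).mpr hu]
    exact one_mem _
  obtain ⟨L', iL', fL', q', d', c', hq's, hq'U, hq'p, hd', hsum, -⟩ :=
    all_ISOL L (Finset (Subgroup K)) 𝔐 ℓ hmax hℓ U μ hUc hcyc hinj (Ch ℓ (⊥ : Subgroup K))
      (fun σ => (-1 : ℚ) ^ σ.card * (Nat.card (stb σ) : ℚ)) (fun σ => (stb σ).comap π) hUS
      d x hx
  -- the projection of the quotient
  have hker : q'.ker ≤ π.ker := by
    intro l hl
    exact (hπk l).mpr (hq'U hl)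
  let π' : L' →* K := q'.liftOfSurjective hq's ⟨π, hker⟩
  have hπ' : ∀ l, π' (q' l) = π l := fun l => MonoidHom.liftOfRightInverse_comp_apply _ _ _ _ l
  have hπ's : Function.Surjective π' := by
    intro k
    obtain ⟨l, hl⟩ := hπs k
    exact ⟨q' l, by rw [hπ', hl]⟩
  have hπ'k : π'.ker = U.map q' := by
    ext l'
    obtain ⟨l, rfl⟩ := hq's l'
    rw [MonoidHom.mem_ker, hπ', hπk, Subgroup.mem_map]
    constructor
    · intro h
      exact ⟨l, h, rfl⟩
    · rintro ⟨u, hu, hul⟩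
      have h6 : u⁻¹ * l ∈ q'.ker := by
        rw [MonoidHom.mem_ker, map_mul, map_inv, hul, inv_mul_cancel]
      have h7 := U.mul_mem hu (hq'U h6)
      rwa [mul_inv_cancel_left] at h7
  have hcent : π'.ker ≤ Subgroup.center L' := by
    rw [hπ'k]
    rintro _ ⟨u, hu, rfl⟩
    rw [Subgroup.mem_center_iff]
    intro g
    obtain ⟨l, rfl⟩ := hq's g
    rw [← map_mul, ← map_mul, Subgroup.mem_center_iff.mp (hUc hu) l]
  have hmap : ∀ V : Subgroup K, (V.comap π).map q' = V.comap π' := by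
    intro V
    ext l'
    obtain ⟨l, rfl⟩ := hq's l'
    rw [Subgroup.mem_comap, hπ', Subgroup.mem_map]
    constructor
    · rintro ⟨u, hu, hul⟩
      rw [Subgroup.mem_comap] at hu
      rwa [← hπ', ← hul, hπ']
    · intro h
      exact ⟨l, h, rfl⟩
  obtain ⟨h6, h7, h8⟩ := CHC_thm L' K ℓ π' hπ's hcent hcore
  have h9 : KK 𝔐 ℓ d' (pCore ℓ L') c' ≠ 0 := by
    have h10 := h8 (fun S => Nat.card S * cnt 𝔐 ℓ d' S.subtype c')
    rw [KK, h10]
    have h11 : ∑ σ ∈ Ch ℓ (⊥ : Subgroup K), (-1 : ℚ) ^ σ.card *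
        ((Nat.card ↥((stb σ).comap π') : ℚ) * cnt 𝔐 ℓ d' ((stb σ).comap π').subtype c') =
        (Nat.card π'.ker : ℚ) * ∑ σ ∈ Ch ℓ (⊥ : Subgroup K),
          (-1 : ℚ) ^ σ.card * (Nat.card (stb σ) : ℚ) *
            cnt 𝔐 ℓ d' (((stb σ).comap π).map q').subtype c' := by
      rw [Finset.mul_sum]
      refine Finset.sum_congr rfl fun σ _ => ?_
      rw [TD.card_comap π' hπ's, hmap, Nat.cast_mul]
      ring
    rw [h11]
    refine mul_ne_zero ?_ hsum
    exact Nat.cast_ne_zero.mpr Nat.card_pos.ne'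
  have h12 : (Subgroup.center L').index ≤ Nat.card K := by
    have h13 : π'.ker.index = Nat.card K := by
      rw [Subgroup.index_ker, MonoidHom.range_eq_top.mpr hπ's]
      exact Nat.card_congr Subgroup.topEquiv.toEquiv
    rw [← h13]
    exact Nat.le_of_dvd (Nat.pos_of_ne_zero Subgroup.index_ne_zero_of_finite)
      (Subgroup.index_dvd_of_le hcent)
  have h14 : DadeHolds ℓ L' := hHQ L' h6 h12
  obtain ⟨h15, -⟩ := all_DZC L' 𝔐 ℓ hmax hℓ h6 h14 d' c' h9
  rw [h7] at h15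
  have h16 : d' ≤ padicValNat ℓ (Nat.card π'.ker) :=
    (Nat.pow_le_pow_iff_right (Fact.out : ℓ.Prime).one_lt).mp h15
  have h17 : Nat.card U = Nat.card π'.ker * Nat.card q'.ker := by
    have h18 := TD.card_comap q' hq's (U.map q')
    rw [Subgroup.comap_map_eq_self hq'U] at h18
    rw [h18, hπ'k, mul_comm]
  have h19 : padicValNat ℓ (Nat.card U) = padicValNat ℓ (Nat.card π'.ker) +
      padicValNat ℓ (Nat.card q'.ker) := by
    rw [h17, padicValNat.mul Nat.card_pos.ne' Nat.card_pos.ne']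
  omega

end Pool.Agent.DPN


end

section

/-!
# The proper quotients of a minimal counterexample
-/

namespace Pool.Agent.DPN

open Pool.Agent.DP Pool.Agent.DPC Pool.Agent.DPM Pool.Agent.Lib_helper13 Representation
open Pool.Agent.Lib_helper13.Dade (pCore DadeHolds dadeSum)

namespace STRN

theorem le_core {G : Type} [Group G] (ℓ : ℕ) (N : Subgroup G) (h1 : N.Normal)
    (h2 : IsPGroup ℓ N) : N ≤ pCore ℓ G := le_sSup ⟨h1, h2⟩

/-- The inverse image of the largest normal `ℓ`-subgroup of the quotient. -/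
def PP (ℓ : ℕ) {X : Type} [Group X] (N : Subgroup X) [N.Normal] : Subgroup X :=
  (pCore ℓ (X ⧸ N)).comap (QuotientGroup.mk' N)

theorem PP_normal (ℓ : ℕ) {X : Type} [Group X] (N : Subgroup X) [N.Normal] :
    (PP ℓ N).Normal :=
  (pCore_normal ℓ).comap _

theorem le_PP (ℓ : ℕ) {X : Type} [Group X] (N : Subgroup X) [N.Normal] : N ≤ PP ℓ N := by
  intro x hx
  have h : QuotientGroup.mk' N x = 1 := (QuotientGroup.eq_one_iff x).2 hx
  show QuotientGroup.mk' N x ∈ pCore ℓ (X ⧸ N)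
  rw [h]
  exact one_mem _

theorem pow_mem (ℓ : ℕ) [Fact ℓ.Prime] {X : Type} [Group X] [Finite X] (N : Subgroup X)
    [N.Normal] (x : X) (hx : x ∈ PP ℓ N) : ∃ k : ℕ, x ^ ℓ ^ k ∈ N := by
  obtain ⟨k, hk⟩ := isPGroup_pCore (G := X ⧸ N) ℓ ⟨QuotientGroup.mk' N x, hx⟩
  refine ⟨k, ?_⟩
  have h : (QuotientGroup.mk' N x) ^ ℓ ^ k = 1 := congrArg Subtype.val hk
  rw [← map_pow] at h
  exact (QuotientGroup.eq_one_iff _).1 h

theorem core_quot (ℓ : ℕ) [Fact ℓ.Prime] {X : Type} [Group X] [Finite X] (N P : Subgroup X)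
    [N.Normal] [P.Normal] (hP : P = PP ℓ N) : pCore ℓ (X ⧸ P) = ⊥ := by
  rw [eq_bot_iff]
  refine sSup_le ?_
  rintro M ⟨hM1, hM2⟩
  intro y hy
  obtain ⟨x, rfl⟩ := QuotientGroup.mk'_surjective P y
  -- the image in `X ⧸ N`
  have hn : ((M.comap (QuotientGroup.mk' P)).map (QuotientGroup.mk' N)).Normal :=
    (hM1.comap _).map _ (QuotientGroup.mk'_surjective N)
  have hp : IsPGroup ℓ ((M.comap (QuotientGroup.mk' P)).map (QuotientGroup.mk' N)) := by
    rintro ⟨z, hz⟩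
    obtain ⟨g, hg, rfl⟩ := Subgroup.mem_map.1 hz
    obtain ⟨k, hk⟩ := hM2 ⟨QuotientGroup.mk' P g, hg⟩
    have h1 : (QuotientGroup.mk' P g) ^ ℓ ^ k = 1 := congrArg Subtype.val hk
    rw [← map_pow] at h1
    have h2 : g ^ ℓ ^ k ∈ P := (QuotientGroup.eq_one_iff _).1 h1
    rw [hP] at h2
    obtain ⟨k', hk'⟩ := pow_mem ℓ N _ h2
    refine ⟨k + k', ?_⟩
    apply Subtype.ext
    show (QuotientGroup.mk' N g) ^ ℓ ^ (k + k') = 1
    rw [← map_pow, pow_add, pow_mul]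
    exact (QuotientGroup.eq_one_iff _).2 hk'
  have h3 := le_core ℓ _ hn hp
  have h4 : x ∈ P := by
    rw [hP]
    exact h3 (Subgroup.mem_map.2 ⟨x, hy, rfl⟩)
  exact Subgroup.mem_bot.2 ((QuotientGroup.eq_one_iff _).2 h4)

theorem clG (X : Type) [Group X] (P : Subgroup X) [P.Normal] :
    ClG P.subtype (MulAut.conjNormal (H := P)) (QuotientGroup.mk' P) where
  inj := P.subtype_injective
  act := fun y a => MulAut.conjNormal_apply y a
  ker := fun y => by
    rw [Subgroup.range_subtype]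
    exact QuotientGroup.eq_one_iff y

theorem DK_eq {X : Type} [Group X] [Fintype X] (𝔐 : Ideal (integralClosure ℤ ℂ)) (ℓ d : ℕ)
    (Z : Subgroup X) (ω : X → (integralClosure ℤ ℂ) ⧸ 𝔐) :
    DK 𝔐 ℓ d Z (MonoidHom.id X) {ω} = KK 𝔐 ℓ d Z ω := by
  unfold DK KK cnt
  refine Finset.sum_congr rfl fun σ _ => ?_
  have h : Nat.card {ψ : stb σ → ℂ // IsIrr ψ ∧ HasDefect ℓ ψ d ∧
      cen 𝔐 ((MonoidHom.id X).comp (stb σ).subtype) ψ ∈ ({ω} : Set _)} =
      Nat.card {θ : stb σ → ℂ // IsIrr θ ∧ (HasDefect ℓ θ d ∧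
        ∀ g, cen 𝔐 (stb σ).subtype θ g = ω g)} := by
    refine Nat.card_congr (Equiv.subtypeEquivRight fun ψ => ?_)
    rw [MonoidHom.id_comp, Set.mem_singleton_iff, funext_iff]
  rw [h]

end STRN

open _root_.Pool.Agent.DPN.STRN in
theorem STRN_thm (h1 : Stmt_DLO) (h2 : Stmt_FINN) : Stmt_STRN := by
  intro X _ _ ℓ _ hc hQ hD N hN hlt
  obtain ⟨𝔐, hM, hℓ, d, ω, hd, hK⟩ := h1 X ℓ hc hD
  have hPn := PP_normal ℓ N
  have hNP := le_PP ℓ N
  have hfin : Fintype (X ⧸ PP ℓ N) := Fintype.ofFinite _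
  have hfin' : Fintype (PP ℓ N) := Fintype.ofFinite _
  have hcP : pCore ℓ X ≤ PP ℓ N := hc.trans (hlt.le.trans hNP)
  have hmap : ((pCore ℓ X).subgroupOf (PP ℓ N)).map (PP ℓ N).subtype = pCore ℓ X :=
    Subgroup.map_subgroupOf_eq_of_le hcP
  have hi : (Subgroup.center X).index ≠ 0 := Subgroup.index_ne_zero_of_finite
  have hlt' : N.index < (Subgroup.center X).index := Subgroup.index_strictAnti hlt
  have hle : (PP ℓ N).index ≤ N.index :=
    Nat.le_of_dvd (Nat.pos_of_ne_zero Subgroup.index_ne_zero_of_finite)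
      (Subgroup.index_dvd_of_le hNP)
  have hF := h2 (PP ℓ N) X (X ⧸ PP ℓ N) 𝔐 ℓ hM hℓ (PP ℓ N).subtype
    (MulAut.conjNormal (H := PP ℓ N)) (QuotientGroup.mk' (PP ℓ N)) (clG X (PP ℓ N))
    (QuotientGroup.mk'_surjective _) (core_quot ℓ N (PP ℓ N) rfl)
    ((Subgroup.center X).index - 1) hQ
    (by rw [Subgroup.range_subtype]; exact hlt.le.trans hNP)
    (by omega)
    (by
      rw [← Subgroup.index_eq_card]
      omega)
    ((pCore ℓ X).subgroupOf (PP ℓ N))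
    ((isPGroup_pCore (G := X) ℓ).comap_subtype)
    (by rw [hmap]; exact hc) d ω
    (by rw [Nat.card_congr (Subgroup.subgroupOfEquivOfLe hcP).toEquiv]; exact hd)
    (by rw [hmap, DK_eq]; exact hK)
  obtain ⟨f1, f2, x', y', f3⟩ := hF
  obtain ⟨x, rfl⟩ := QuotientGroup.mk'_surjective _ x'
  obtain ⟨y, rfl⟩ := QuotientGroup.mk'_surjective _ y'
  refine ⟨PP ℓ N, hPn, hNP, pow_mem ℓ N, ?_, f1, x, y, ?_⟩
  · rw [Subgroup.index_eq_card]
    exact f2
  · have h5 : (Subgroup.closure {x, y}).map (QuotientGroup.mk' (PP ℓ N)) = ⊤ := by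
      rw [MonoidHom.map_closure, Set.image_pair]
      exact f3
    have h6 := Subgroup.comap_map_eq (QuotientGroup.mk' (PP ℓ N)) (Subgroup.closure {x, y})
    rw [h5, QuotientGroup.ker_mk', Subgroup.comap_top] at h6
    exact h6.symm

end Pool.Agent.DPN


end

section

/-!
# The twisted chain sums with a condition on the central functions, for a class of groups
(module TDCr)
-/

set_option linter.unusedSectionVars false

namespace Pool.Agent.DPK

open Pool.Agent.DP Pool.Agent.DPC Pool.Agent.DPM Pool.Agent.DPN Pool.Agent.Lib_helper13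
open Representation
open Pool.Agent.Lib_helper13.Dade (pCore DadeHolds dadeSum)

open Classical in
theorem TDCr_thm (Cl : ∀ (Y : Type) [Group Y], Prop) (hC : GC Cl) : Stmt_TDCr Cl := by
  intro L K X _ _ _ _ _ _ 𝔐 ℓ _ hmax hℓ π hπs hcore hCK hHQ U μ hUc hπk hcyc hinj d hd i Q
  by_contra hne
  -- split according to the central function
  have hfin : (⋃ σ ∈ Ch ℓ (⊥ : Subgroup K), {x : L → (integralClosure ℤ ℂ) ⧸ 𝔐 |
      ∃ ψ : ↥((stb σ).comap π) → ℂ, IsIrr ψ ∧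
      cen 𝔐 ((stb σ).comap π).subtype ψ = x}).Finite := by
    apply Set.Finite.biUnion (Finset.finite_toSet _)
    intro τ _
    exact finite_cen 𝔐 _
  have hCh : ∀ σ ∈ Ch ℓ (⊥ : Subgroup K), ∀ ψ : ↥((stb σ).comap π) → ℂ, IsIrr ψ →
      cen 𝔐 ((stb σ).comap π).subtype ψ ∈ hfin.toFinset := by
    intro σ hσ ψ hψ
    rw [Set.Finite.mem_toFinset, Set.mem_iUnion₂]
    exact ⟨σ, hσ, ψ, hψ, rfl⟩
  have hsplit : ∑ σ ∈ Ch ℓ (⊥ : Subgroup K), (-1 : ℚ) ^ σ.card * ((Nat.card (stb σ) : ℚ) *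
      Nat.card {η : ↥((stb σ).comap π) → ℂ // IsIrr η ∧ OvL U μ _ η ∧
        HasDefect ℓ η d ∧ cen 𝔐 (i.comp ((stb σ).comap π).subtype) η ∈ Q}) =
      ∑ x ∈ hfin.toFinset, ∑ σ ∈ Ch ℓ (⊥ : Subgroup K),
        ((-1 : ℚ) ^ σ.card * (Nat.card (stb σ) : ℚ)) *
        Nat.card {η : ↥((stb σ).comap π) → ℂ // IsIrr η ∧ (OvL U μ _ η ∧
          HasDefect ℓ η d ∧ cen 𝔐 (i.comp ((stb σ).comap π).subtype) η ∈ Q) ∧
          cen 𝔐 ((stb σ).comap π).subtype η = x} := by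
    rw [Finset.sum_comm]
    refine Finset.sum_congr rfl fun σ hσ => ?_
    rw [TD.card_split (fun η : ↥((stb σ).comap π) → ℂ => OvL U μ _ η ∧
        HasDefect ℓ η d ∧ cen 𝔐 (i.comp ((stb σ).comap π).subtype) η ∈ Q)
      (fun η => cen 𝔐 ((stb σ).comap π).subtype η) hfin.toFinset (hCh σ hσ)]
    rw [Nat.cast_sum, Finset.mul_sum, Finset.mul_sum]
    refine Finset.sum_congr rfl fun x _ => ?_
    rw [mul_assoc]
  rw [hsplit] at hne
  obtain ⟨x, -, hx'⟩ := Finset.exists_ne_zero_of_sum_ne_zero hne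
  have hxQ : x ∈ TDC.QL 𝔐 i Q := by
    by_contra hxn
    apply hx'
    refine Finset.sum_eq_zero fun σ hσ => ?_
    have hempty : IsEmpty {η : ↥((stb σ).comap π) → ℂ // IsIrr η ∧ (OvL U μ _ η ∧
          HasDefect ℓ η d ∧ cen 𝔐 (i.comp ((stb σ).comap π).subtype) η ∈ Q) ∧
          cen 𝔐 ((stb σ).comap π).subtype η = x} := by
      constructor
      rintro ⟨η, h1, ⟨-, -, h2⟩, h3⟩
      apply hxn
      rw [← h3]
      exact (TDC.mem_QL 𝔐 i _ Q h1).mp h2
    rw [@Nat.card_of_isEmpty _ hempty, Nat.cast_zero, mul_zero]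
  have hx : ∑ σ ∈ Ch ℓ (⊥ : Subgroup K),
        ((-1 : ℚ) ^ σ.card * (Nat.card (stb σ) : ℚ)) *
        Nat.card {η : ↥((stb σ).comap π) → ℂ // IsIrr η ∧ OvL U μ _ η ∧
          HasDefect ℓ η d ∧ cen 𝔐 ((stb σ).comap π).subtype η = x} ≠ 0 := by
    intro h0
    apply hx'
    rw [← h0]
    refine Finset.sum_congr rfl fun σ _ => ?_
    congr 2
    refine Nat.card_congr (Equiv.subtypeEquivRight fun η => ?_)
    constructor
    · rintro ⟨h1, ⟨h2, h3, -⟩, h4⟩
      exact ⟨h1, h2, h3, h4⟩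
    · rintro ⟨h1, h2, h3, h4⟩
      refine ⟨h1, ⟨h2, h3, ?_⟩, h4⟩
      rw [TDC.mem_QL 𝔐 i _ Q h1, h4]
      exact hxQ
  -- isolation
  have hUS : ∀ σ ∈ Ch ℓ (⊥ : Subgroup K), U ≤ (stb σ).comap π := by
    intro σ _ u hu
    rw [Subgroup.mem_comap, (hπk u).mpr hu]
    exact one_mem _
  obtain ⟨L', iL', fL', q', d', c', hq's, hq'U, hq'p, hd', hsum, -⟩ :=
    all_ISOL L (Finset (Subgroup K)) 𝔐 ℓ hmax hℓ U μ hUc hcyc hinj (Ch ℓ (⊥ : Subgroup K))
      (fun σ => (-1 : ℚ) ^ σ.card * (Nat.card (stb σ) : ℚ)) (fun σ => (stb σ).comap π) hUS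
      d x hx
  -- the projection of the quotient
  have hker : q'.ker ≤ π.ker := by
    intro l hl
    exact (hπk l).mpr (hq'U hl)
  let π' : L' →* K := q'.liftOfSurjective hq's ⟨π, hker⟩
  have hπ' : ∀ l, π' (q' l) = π l := fun l => MonoidHom.liftOfRightInverse_comp_apply _ _ _ _ l
  have hπ's : Function.Surjective π' := by
    intro k
    obtain ⟨l, hl⟩ := hπs k
    exact ⟨q' l, by rw [hπ', hl]⟩
  have hπ'k : π'.ker = U.map q' := by
    ext l'
    obtain ⟨l, rfl⟩ := hq's l'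
    rw [MonoidHom.mem_ker, hπ', hπk, Subgroup.mem_map]
    constructor
    · intro h
      exact ⟨l, h, rfl⟩
    · rintro ⟨u, hu, hul⟩
      have h6 : u⁻¹ * l ∈ q'.ker := by
        rw [MonoidHom.mem_ker, map_mul, map_inv, hul, inv_mul_cancel]
      have h7 := U.mul_mem hu (hq'U h6)
      rwa [mul_inv_cancel_left] at h7
  have hcent : π'.ker ≤ Subgroup.center L' := by
    rw [hπ'k]
    rintro _ ⟨u, hu, rfl⟩
    rw [Subgroup.mem_center_iff]
    intro g
    obtain ⟨l, rfl⟩ := hq's g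
    rw [← map_mul, ← map_mul, Subgroup.mem_center_iff.mp (hUc hu) l]
  have hmap : ∀ V : Subgroup K, (V.comap π).map q' = V.comap π' := by
    intro V
    ext l'
    obtain ⟨l, rfl⟩ := hq's l'
    rw [Subgroup.mem_comap, hπ', Subgroup.mem_map]
    constructor
    · rintro ⟨u, hu, hul⟩
      rw [Subgroup.mem_comap] at hu
      rwa [← hπ', ← hul, hπ']
    · intro h
      exact ⟨l, h, rfl⟩
  obtain ⟨h6, h7, h8⟩ := CHC_thm L' K ℓ π' hπ's hcent hcore
  have h9 : KK 𝔐 ℓ d' (pCore ℓ L') c' ≠ 0 := by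
    have h10 := h8 (fun S => Nat.card S * cnt 𝔐 ℓ d' S.subtype c')
    rw [KK, h10]
    have h11 : ∑ σ ∈ Ch ℓ (⊥ : Subgroup K), (-1 : ℚ) ^ σ.card *
        ((Nat.card ↥((stb σ).comap π') : ℚ) * cnt 𝔐 ℓ d' ((stb σ).comap π').subtype c') =
        (Nat.card π'.ker : ℚ) * ∑ σ ∈ Ch ℓ (⊥ : Subgroup K),
          (-1 : ℚ) ^ σ.card * (Nat.card (stb σ) : ℚ) *
            cnt 𝔐 ℓ d' (((stb σ).comap π).map q').subtype c' := by
      rw [Finset.mul_sum]
      refine Finset.sum_congr rfl fun σ _ => ?_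
      rw [TD.card_comap π' hπ's, hmap, Nat.cast_mul]
      ring
    rw [h11]
    refine mul_ne_zero ?_ hsum
    exact Nat.cast_ne_zero.mpr Nat.card_pos.ne'
  have h12 : (Subgroup.center L').index ≤ Nat.card K := by
    have h13 : π'.ker.index = Nat.card K := by
      rw [Subgroup.index_ker, MonoidHom.range_eq_top.mpr hπ's]
      exact Nat.card_congr Subgroup.topEquiv.toEquiv
    rw [← h13]
    exact Nat.le_of_dvd (Nat.pos_of_ne_zero Subgroup.index_ne_zero_of_finite)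
      (Subgroup.index_dvd_of_le hcent)
  have h14 : DadeHolds ℓ L' := hHQ L' (hC.up L' K π' hcent hCK) h6 h12
  obtain ⟨h15, -⟩ := all_DZC L' 𝔐 ℓ hmax hℓ h6 h14 d' c' h9
  rw [h7] at h15
  have h16 : d' ≤ padicValNat ℓ (Nat.card π'.ker) :=
    (Nat.pow_le_pow_iff_right (Fact.out : ℓ.Prime).one_lt).mp h15
  have h17 : Nat.card U = Nat.card π'.ker * Nat.card q'.ker := by
    have h18 := TD.card_comap q' hq's (U.map q')
    rw [Subgroup.comap_map_eq_self hq'U] at h18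
    rw [h18, hπ'k, mul_comm]
  have h19 : padicValNat ℓ (Nat.card U) = padicValNat ℓ (Nat.card π'.ker) +
      padicValNat ℓ (Nat.card q'.ker) := by
    rw [h17, padicValNat.mul Nat.card_pos.ne' Nat.card_pos.ne']
  omega

end Pool.Agent.DPK


end

section

/-!
# The proper quotients of a minimal counterexample of a class of groups
-/

set_option linter.unusedVariables false

namespace Pool.Agent.DPK

open Pool.Agent.DP Pool.Agent.DPC Pool.Agent.DPM Pool.Agent.DPN Pool.Agent.Lib_helper13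
open Representation
open Pool.Agent.Lib_helper13.Dade (pCore DadeHolds dadeSum)

open Pool.Agent.DPN.STRN in
theorem STRNr_thm (Cl : ∀ (Y : Type) [Group Y], Prop) (hC : GC Cl) (h1 : Stmt_DLO)
    (h2 : Stmt_FINNr Cl) : Stmt_STRNr Cl := by
  intro X _ _ ℓ _ hc hX hQ hD N hN hlt
  obtain ⟨𝔐, hM, hℓ, d, ω, hd, hK⟩ := h1 X ℓ hc hD
  have hPn := PP_normal ℓ N
  have hNP := le_PP ℓ N
  have hfin : Fintype (X ⧸ PP ℓ N) := Fintype.ofFinite _
  have hfin' : Fintype (PP ℓ N) := Fintype.ofFinite _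
  have hcP : pCore ℓ X ≤ PP ℓ N := hc.trans (hlt.le.trans hNP)
  have hmap : ((pCore ℓ X).subgroupOf (PP ℓ N)).map (PP ℓ N).subtype = pCore ℓ X :=
    Subgroup.map_subgroupOf_eq_of_le hcP
  have hi : (Subgroup.center X).index ≠ 0 := Subgroup.index_ne_zero_of_finite
  have hlt' : N.index < (Subgroup.center X).index := Subgroup.index_strictAnti hlt
  have hle : (PP ℓ N).index ≤ N.index :=
    Nat.le_of_dvd (Nat.pos_of_ne_zero Subgroup.index_ne_zero_of_finite)
      (Subgroup.index_dvd_of_le hNP)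
  have hF := h2 (PP ℓ N) X (X ⧸ PP ℓ N) 𝔐 ℓ hM hℓ (PP ℓ N).subtype
    (MulAut.conjNormal (H := PP ℓ N)) (QuotientGroup.mk' (PP ℓ N)) (clG X (PP ℓ N))
    (QuotientGroup.mk'_surjective _) (core_quot ℓ N (PP ℓ N) rfl)
    ((Subgroup.center X).index - 1) hX hQ
    (by rw [Subgroup.range_subtype]; exact hlt.le.trans hNP)
    (by omega)
    (by
      rw [← Subgroup.index_eq_card]
      omega)
    ((pCore ℓ X).subgroupOf (PP ℓ N))
    ((isPGroup_pCore (G := X) ℓ).comap_subtype)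
    (by rw [hmap]; exact hc) d ω
    (by rw [Nat.card_congr (Subgroup.subgroupOfEquivOfLe hcP).toEquiv]; exact hd)
    (by rw [hmap, DK_eq]; exact hK)
  obtain ⟨f1, f2, x', y', f3⟩ := hF
  obtain ⟨x, rfl⟩ := QuotientGroup.mk'_surjective _ x'
  obtain ⟨y, rfl⟩ := QuotientGroup.mk'_surjective _ y'
  refine ⟨PP ℓ N, hPn, hNP, pow_mem ℓ N, ?_, f1, x, y, ?_⟩
  · rw [Subgroup.index_eq_card]
    exact f2
  · have h5 : (Subgroup.closure {x, y}).map (QuotientGroup.mk' (PP ℓ N)) = ⊤ := by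
      rw [MonoidHom.map_closure, Set.image_pair]
      exact f3
    have h6 := Subgroup.comap_map_eq (QuotientGroup.mk' (PP ℓ N)) (Subgroup.closure {x, y})
    rw [h5, QuotientGroup.ker_mk', Subgroup.comap_top] at h6
    exact h6.symm

end Pool.Agent.DPK


end

section

/-!
# Theorem V: the inertia group (module PERAV)
-/

set_option linter.unusedSectionVars false

namespace Pool.Agent.DPV

open Pool.Agent.DP Pool.Agent.Lib_helper13 Representation
open Pool.Agent.Lib_helper13.Dade (pCore DadeHolds dadeSum)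

open Pool.Agent.DPC.PERAR Pool.Agent.DPC.TRBR in
theorem PERAV_thm : Stmt_PERAV := by
  intro O G B C Y K _ _ _ _ _ _ _ _ _ _ _ ℓ _ ι κ ρ hL j p φ h τ hτ' θ hθ
  have h2 : Stmt_IRRPI := IRRPI_thm
  have hτ : ∀ D ∈ τ, cl D = D := (mem_ClCh.mp hτ').2
  have hρ : ∀ g, ρ (ι g) = 1 := fun g => (hL.cl.ker _).mpr ⟨g, rfl⟩
  refine ⟨inY_le h hτ, mem_inert h2 h hτ hθ, ?_, ?_, ?_⟩
  · ext k
    constructor
    · rintro ⟨y, hy, rfl⟩
      exact ⟨(y : Y), (mem_inert h2 h hτ hθ y).mp hy, rfl⟩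
    · rintro ⟨y, hy, rfl⟩
      exact ⟨⟨y, inY_le h hτ hy⟩, (mem_inert h2 h hτ hθ _).mpr hy, rfl⟩
  · -- the order
    have e1 : Nat.card (inert (cS h.cl τ) (fun a => ∏ o, θ o ((a : O → G) o))) =
        Nat.card (InY κ φ τ θ) :=
      Nat.card_congr
        { toFun := fun y => ⟨((y : YS j τ) : Y), (mem_inert h2 h hτ hθ _).mp y.2⟩
          invFun := fun y => ⟨⟨y, inY_le h hτ y.2⟩, (mem_inert h2 h hτ hθ _).mpr y.2⟩
          left_inv := fun _ => rfl
          right_inv := fun _ => rfl }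
    rw [e1]
    set f : InY κ φ τ θ →* K := p.comp (InY κ φ τ θ).subtype with hf
    have e2 : Nat.card (InY κ φ τ θ) = Nat.card f.range * Nat.card f.ker := by
      rw [Subgroup.card_eq_card_quotient_mul_card_subgroup f.ker,
        Nat.card_congr (QuotientGroup.quotientKerEquivRange f).toEquiv]
    have e3 : f.range = KB κ p φ τ θ := by
      rw [hf, MonoidHom.range_comp, Subgroup.range_subtype]
      rfl
    rw [e2, e3]
    congr 1
    -- the kernel
    have e4 : Nat.card f.ker = Nat.card (∀ o, {g : G // trB κ τ θ o o (ι g)}) := by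
      have hin : ∀ n : O → G, j n ∈ InY κ φ τ θ ↔ ∀ o, trB κ τ θ o o (ι (n o)) := by
        intro n
        change (∀ o, trB κ τ θ ((φ (j n)).right⁻¹ • o) o ((φ (j n)).left o)) ↔ _
        rw [h.jn]
        simp
      symm
      refine Nat.card_congr (Equiv.ofBijective (fun n => (⟨⟨j (fun o => (n o).1),
        (hin _).mpr fun o => (n o).2⟩, ?_⟩ : f.ker)) ⟨?_, ?_⟩)
      · rw [MonoidHom.mem_ker]
        exact (h.cl.ker _).mpr ⟨_, rfl⟩
      · intro n n' hn
        have hn1 : j (fun o => (n o).1) = j (fun o => (n' o).1) :=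
          congrArg (fun z : f.ker => ((z : InY κ φ τ θ) : Y)) hn
        have hn2 := h.cl.inj hn1
        funext o
        exact Subtype.ext (congrFun hn2 o)
      · rintro ⟨⟨y, hy⟩, hy'⟩
        rw [MonoidHom.mem_ker] at hy'
        obtain ⟨n, rfl⟩ := (h.cl.ker y).mp hy'
        exact ⟨fun o => ⟨n o, (hin n).mp hy o⟩, rfl⟩
    rw [e4, Nat.card_pi]
    refine Finset.prod_congr rfl fun o _ => ?_
    refine Nat.card_congr (Equiv.subtypeEquivRight fun g => ?_)
    rw [trB_iff, iota_mem hL.cl (hθ o)]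
  · rintro o _ ⟨y, hy, hyo, rfl⟩
    obtain ⟨y', hy', hyy⟩ := hy
    have h3 : p (y * y'⁻¹) = 1 := by
      rw [map_mul, map_inv, hyy, mul_inv_cancel]
    obtain ⟨n, hn⟩ := (h.cl.ker _).mp h3
    have h4 : y = j n * y' := by rw [hn, inv_mul_cancel_right]
    have h5 : (φ y).right = (φ y').right := by
      rw [h4, map_mul, h.jn]
      simp
    have h6 : (φ y).left o = ι (n o) * (φ y').left o := by
      rw [h4, map_mul, h.jn]
      simp
    have h7 : (φ y').right⁻¹ • o = o := by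
      rw [inv_smul_eq_iff, ← h5, hyo]
    have h8 := hy' o
    rw [h7] at h8
    exact ⟨(φ y').left o, (trB_iff κ τ θ o _).mp h8, by rw [h6, map_mul, hρ, one_mul]⟩

end Pool.Agent.DPV


end

section

/-!
# CYAW: the case of a character which is trivial on `P` (theorem W)
-/

set_option linter.unusedSectionVars false

namespace Pool.Agent.DPW.CYAW

open Pool.Agent.DP Pool.Agent.DPV Pool.Agent.Lib_helper13 Representation
open Pool.Agent.Lib_helper13.Dade (pCore DadeHolds dadeSum)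

/-! ### Clifford theory -/

section Cliff

variable {A Y K : Type} [Group A] [Fintype A] [Group Y] [Fintype Y] [Group K]
  {j : A →* Y} {c : Y →* MulAut A} {p : Y →* K}

/-- Multiplicity one and the degree for cyclic quotients. -/
theorem cyc_mult (hc : ClG j c p) (hK : IsCyclic K) [Finite K] {χ : Y → ℂ} (hχ : IsIrr χ)
    {θ : A → ℂ} (hθ : IsIrr θ) (h : ip (resj j χ) θ ≠ 0) :
    ip (resj j χ) θ = 1 ∧ χ 1 * Nat.card (inert c θ) = Nat.card Y * θ 1 := by
  classical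
  obtain ⟨ψ, hψ, hψip, hind⟩ := (CCOR_thm IND_thm SUMM_thm A Y K j c p hc θ hθ).2.2 χ hχ h
  have hS := CLG.clG_S hc hθ (M := (inert c θ).map p) rfl
  have hft : Fintype ((inert c θ).map p) := Fintype.ofFinite _
  have hcyc : IsCyclic ((inert c θ).map p) := inferInstance
  obtain ⟨E, hE, hEθ⟩ := EXTC_thm A (inert c θ) _ _ _ _ hS (CLG.qS_surj rfl) hcyc θ hθ
    (fun y a => y.2 a)
  obtain ⟨η, hη, hψη⟩ := (GALL_thm COSET_thm SUMM_thm A (inert c θ) _ _ _ _ hS
    (CLG.qS_surj rfl) θ E hθ hE.isChr hEθ).2.2 ψ hψ (by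
      have e : resj (CLG.jS hc hθ) ψ = fun a => ext0 ψ (j a) := by
        funext a
        exact (ext0_of_mem ψ (CLG.j_mem hc hθ a)).symm
      rw [e]
      exact hψip)
  have hη1 : η 1 = 1 := by
    have hcm : IsMulCommutative ((inert c θ).map p) := inferInstance
    exact LKB.one_of_comm hη
  have hψj : ∀ a, ψ (CLG.jS hc hθ a) = θ a := by
    intro a
    rw [hψη]
    change E (CLG.jS hc hθ a) * η (CLG.qS rfl (CLG.jS hc hθ a)) = θ a
    rw [(hS.ker _).mpr ⟨a, rfl⟩, hη1, mul_one, hEθ]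
  have hres : resj j χ = fun a => ∑ z : Y, (1 / (Nat.card (inert c θ) : ℂ)) * cfn c θ z⁻¹ a := by
    funext a
    rw [resj, ← hind, indc, Finset.sum_div]
    refine Finset.sum_congr rfl fun z _ => ?_
    have e1 : z⁻¹ * j a * z = j (c z⁻¹ a) := by
      rw [hc.act, inv_inv]
    rw [e1, ext0_of_mem ψ (CLG.j_mem hc hθ _)]
    have e2 := hψj (c z⁻¹ a)
    change ψ (CLG.jS hc hθ (c z⁻¹ a)) / _ = _
    rw [e2, cfn]
    ring
  have hcard0 : (Nat.card (inert c θ) : ℂ) ≠ 0 := natCard_ne_zero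
  refine ⟨?_, ?_⟩
  · rw [hres, ip_sum]
    have h1 : ∀ z : Y, (1 / (Nat.card (inert c θ) : ℂ)) * ip (cfn c θ z⁻¹) θ =
        (1 / (Nat.card (inert c θ) : ℂ)) * (if z⁻¹ ∈ inert c θ then 1 else 0) := by
      intro z
      congr 1
      by_cases hz : z⁻¹ ∈ inert c θ
      · have e : cfn c θ z⁻¹ = θ := funext fun a => hz a
        rw [if_pos hz, e, ip_self hθ]
      · rw [if_neg hz]
        apply ip_ne (hθ.cfn _) hθ
        intro e
        exact hz fun a => congrFun e a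
    rw [Finset.sum_congr rfl fun z _ => h1 z, ← Finset.mul_sum]
    have h2 : ∑ z : Y, (if z⁻¹ ∈ inert c θ then (1 : ℂ) else 0) = Nat.card (inert c θ) := by
      rw [Fintype.sum_equiv (Equiv.inv Y) (fun z : Y => if z⁻¹ ∈ inert c θ then (1 : ℂ) else 0)
        (fun z : Y => if z ∈ inert c θ then (1 : ℂ) else 0) (fun z => rfl), Finset.sum_boole,
        Nat.card_eq_fintype_card, Fintype.card_subtype]
    rw [h2, one_div, inv_mul_cancel₀ hcard0]
  · rw [← hind, (IND_thm Y (inert c θ) ψ).1]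
    congr 1
    have h1 := hψj 1
    rwa [map_one] at h1

/-- The multiplicities under a character. -/
theorem ip_res (_ : ClG j c p) {F : Y → ℂ} (hF : IsChr F) (θ : A → ℂ) :
    ip (resj j F) θ = ∑ E ∈ irrF Y, ip F E * ip (resj j E) θ := by
  have h1 := class_fn_expand F hF.conj_eq
  have h2 : resj j F = fun a => ∑ E ∈ irrF Y, ip F E * (resj j E) a := by
    funext a
    exact congrFun h1 (j a)
  rw [h2, ip_sum]

/-- A character over a constituent. -/
theorem exists_over (hc : ClG j c p) {F : Y → ℂ} (hF : IsChr F) {θ : A → ℂ}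
    (h : ip (resj j F) θ ≠ 0) : ∃ E, IsIrr E ∧ ip F E ≠ 0 ∧ ip (resj j E) θ ≠ 0 := by
  rw [ip_res hc hF] at h
  obtain ⟨E, hE, hne⟩ := Finset.exists_ne_zero_of_sum_ne_zero h
  exact ⟨E, mem_irrF.mp hE, left_ne_zero_of_mul hne, right_ne_zero_of_mul hne⟩

/-- Characters with multiplicity free restriction and invariant constituents. -/
theorem mulfree (hc : ClG j c p) {F : Y → ℂ} (hF : IsChr F)
    (h : ∀ θ : A → ℂ, IsIrr θ → ip (resj j F) θ ≠ 0 →
      ip (resj j F) θ = 1 ∧ ∀ y a, θ (c y a) = θ a) :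
    (∀ E, IsIrr E → ip F E ≠ 0 → ip F E = 1 ∧ IsIrr (resj j E) ∧
      ip (resj j F) (resj j E) ≠ 0) ∧
    ∀ E E', IsIrr E → IsIrr E' → ip F E ≠ 0 → ip F E' ≠ 0 → resj j E = resj j E' → E = E' := by
  classical
  have hm : ∀ E : Y → ℂ, ∃ m : ℕ, IsIrr E → ip F E = m := by
    intro E
    by_cases hE : IsIrr E
    · obtain ⟨m, hm⟩ := hF.exists_ip hE.isChr
      exact ⟨m, fun _ => hm⟩
    · exact ⟨0, fun h => absurd h hE⟩
  choose m hm using hm
  have hn : ∀ (E : Y → ℂ) (θ : A → ℂ), ∃ n : ℕ, IsIrr E → IsIrr θ → ip (resj j E) θ = n := by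
    intro E θ
    by_cases hE : IsIrr E ∧ IsIrr θ
    · obtain ⟨n, hn⟩ := (hE.1.resj j).exists_ip hE.2.isChr
      exact ⟨n, fun _ _ => hn⟩
    · exact ⟨0, fun h h' => absurd ⟨h, h'⟩ hE⟩
  choose n hn using hn
  have key : ∀ (E : Y → ℂ) (θ : A → ℂ), IsIrr E → IsIrr θ → m E ≠ 0 → n E θ ≠ 0 →
      m E = 1 ∧ n E θ = 1 ∧ ip (resj j F) θ ≠ 0 ∧ ∀ E', IsIrr E' → E' ≠ E →
        m E' * n E' θ = 0 := by
    intro E θ hE hθ hmE hnE
    have h1 : ip (resj j F) θ = ((∑ E ∈ irrF Y, m E * n E θ : ℕ) : ℂ) := by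
      rw [ip_res hc hF]
      push_cast
      refine Finset.sum_congr rfl fun E' hE' => ?_
      rw [hm E' (mem_irrF.mp hE'), hn E' θ (mem_irrF.mp hE') hθ]
    have h2 : m E * n E θ ≤ ∑ E ∈ irrF Y, m E * n E θ :=
      Finset.single_le_sum (f := fun E => m E * n E θ) (fun _ _ => Nat.zero_le _)
        (mem_irrF.mpr hE)
    have h3 : 0 < m E * n E θ := Nat.pos_of_ne_zero (Nat.mul_ne_zero hmE hnE)
    have h4 : ip (resj j F) θ ≠ 0 := by
      rw [h1]
      exact_mod_cast (by omega : (∑ E ∈ irrF Y, m E * n E θ) ≠ 0)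
    have h5 : ∑ E ∈ irrF Y, m E * n E θ = 1 := by
      have := (h θ hθ h4).1
      rw [h1] at this
      exact_mod_cast this
    have h6 : m E * n E θ = 1 := by omega
    have h7 : m E = 1 ∧ n E θ = 1 := by
      refine ⟨Nat.eq_one_of_mul_eq_one_right h6, Nat.eq_one_of_mul_eq_one_left h6⟩
    refine ⟨h7.1, h7.2, h4, fun E' hE' hne => ?_⟩
    rw [← Finset.add_sum_erase _ _ (mem_irrF.mpr hE), h6] at h5
    have h8 : ∑ E' ∈ (irrF Y).erase E, m E' * n E' θ = 0 := by omega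
    exact (Finset.sum_eq_zero_iff.mp h8) E' (Finset.mem_erase.mpr ⟨hne, mem_irrF.mpr hE'⟩)
  have hmne : ∀ E, IsIrr E → ip F E ≠ 0 → m E ≠ 0 := by
    intro E hE h0 h1
    apply h0
    rw [hm E hE, h1, Nat.cast_zero]
  have hnne : ∀ E θ, IsIrr E → IsIrr θ → ip (resj j E) θ ≠ 0 → n E θ ≠ 0 := by
    intro E θ hE hθ h0 h1
    apply h0
    rw [hn E θ hE hθ, h1, Nat.cast_zero]
  have hone : ∀ (E : Y → ℂ) (θ : A → ℂ), IsIrr E → IsIrr θ → ip F E ≠ 0 →
      ip (resj j E) θ ≠ 0 → resj j E = θ ∧ ip F E = 1 ∧ ip (resj j F) θ ≠ 0 := by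
    intro E θ hE hθ hFE hEθ
    obtain ⟨h1, h2, h3, -⟩ := key E θ hE hθ (hmne E hE hFE) (hnne E θ hE hθ hEθ)
    refine ⟨?_, by rw [hm E hE, h1, Nat.cast_one], h3⟩
    rw [class_fn_expand (resj j E) (resj_class hE)]
    funext a
    rw [Finset.sum_eq_single θ]
    · rw [hn E θ hE hθ, h2, Nat.cast_one, one_mul]
    · intro θ' hθ' hne
      by_cases h0 : ip (resj j E) θ' = 0
      · rw [h0, zero_mul]
      · exfalso
        obtain ⟨y, hy⟩ := (SUMM_thm A Y K j c p hc).2.1 θ θ' E hθ (mem_irrF.mp hθ') hE hEθ h0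
        apply hne
        funext b
        rw [← hy b]
        exact (h θ hθ h3).2 y b
    · intro hn'
      exact absurd (mem_irrF.mpr hθ) hn'
  refine ⟨fun E hE hFE => ?_, fun E E' hE hE' hFE hFE' he => ?_⟩
  · obtain ⟨θ, hθ, hEθ⟩ := CLG.exists_under j hE
    obtain ⟨h1, h2, h3⟩ := hone E θ hE hθ hFE hEθ
    rw [h1]
    exact ⟨h2, hθ, h3⟩
  · obtain ⟨θ, hθ, hEθ⟩ := CLG.exists_under j hE
    by_contra hne
    obtain ⟨-, -, -, h4⟩ := key E θ hE hθ (hmne E hE hFE) (hnne E θ hE hθ hEθ)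
    have h5 := h4 E' hE' (fun h => hne h.symm)
    rcases Nat.mul_eq_zero.mp h5 with h6 | h6
    · exact hmne E' hE' hFE' h6
    · refine hnne E' θ hE' hθ ?_ h6
      rw [← he]
      exact hEθ

end Cliff

/-! ### Subgroups -/

section Sub

variable {H : Type} [Group H]

/-- A normal subgroup inside a subgroup. -/
theorem clG_incl {C M : Subgroup H} [C.Normal] (hCM : C ≤ M) :
    ClG (Subgroup.inclusion hCM) ((MulAut.conjNormal (H := C)).comp M.subtype)
      (QuotientGroup.mk' (C.subgroupOf M)) := by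
  refine ⟨Subgroup.inclusion_injective hCM, fun y a => Subtype.ext rfl, fun y => ?_⟩
  change ((y : M) : M ⧸ C.subgroupOf M) = 1 ↔ _
  rw [QuotientGroup.eq_one_iff, Subgroup.mem_subgroupOf]
  constructor
  · intro h
    exact ⟨⟨y, h⟩, rfl⟩
  · rintro ⟨a, rfl⟩
    exact a.2

theorem ext0_inj {M : Subgroup H} {E E' : M → ℂ} (h : (ext0 E : H → ℂ) = ext0 E') : E = E' := by
  funext x
  have h1 := congrFun h x
  rwa [ext0_of_mem E x.2, ext0_of_mem E' x.2] at h1

theorem irrOn_ext0 {M : Subgroup H} {E : M → ℂ} (h : IsIrr E) : IrrOn M (ext0 E) := by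
  refine ⟨?_, fun x hx => ext0_of_not_mem E hx⟩
  have e : (fun s : M => ext0 E (s : H)) = E := by
    funext s
    exact ext0_of_mem E s.2
  rw [e]
  exact h

theorem wt_ext0 [Fintype H] {M : Subgroup H} [Fintype M] (E a : M → ℂ) :
    wt (ext0 E : H → ℂ) (ext0 a) = wt E a := by
  classical
  rw [wt, wt, INTH.sum_restrict M (ext0 a) (ext0 E) (fun x hx => ext0_of_not_mem E hx)]
  have e1 : (ext0 E : H → ℂ) 1 = E 1 := ext0_of_mem E M.one_mem
  rw [e1]
  congr 1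
  refine Finset.sum_congr rfl fun s _ => ?_
  rw [ext0_of_mem a s.2, ext0_of_mem E s.2]

end Sub

/-- Natural numbers prime to `ℓ` are units modulo `𝔐`. -/
theorem natCast_ne {𝔐 : Ideal (integralClosure ℤ ℂ)} {ℓ : ℕ} [Fact ℓ.Prime]
    (hM : 𝔐.IsMaximal) (hℓ : (ℓ : integralClosure ℤ ℂ) ∈ 𝔐) {m : ℕ} (hm : ¬ ℓ ∣ m) :
    (m : (integralClosure ℤ ℂ) ⧸ 𝔐) ≠ 0 := by
  intro h0
  have h1 : (m : (integralClosure ℤ ℂ) ⧸ 𝔐) =
      Ideal.Quotient.mk 𝔐 (m : integralClosure ℤ ℂ) := (map_natCast _ _).symm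
  rw [h1] at h0
  have h2 : (m : integralClosure ℤ ℂ) ∈ 𝔐 := Ideal.Quotient.eq_zero_iff_mem.mp h0
  have h3 : Nat.Coprime ℓ m := (Nat.Prime.coprime_iff_not_dvd Fact.out).mpr hm
  have h4 := Nat.isCoprime_iff_coprime.mpr h3
  obtain ⟨a, b, hab⟩ := h4
  have h5 : ((a : integralClosure ℤ ℂ)) * (ℓ : integralClosure ℤ ℂ) +
      (b : integralClosure ℤ ℂ) * (m : integralClosure ℤ ℂ) = 1 := by
    have := congrArg (fun z : ℤ => (z : integralClosure ℤ ℂ)) hab
    simpa using this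
  apply hM.ne_top
  rw [Ideal.eq_top_iff_one, ← h5]
  exact 𝔐.add_mem (𝔐.mul_mem_left _ hℓ) (𝔐.mul_mem_left _ h2)

/-- The index of the centralizer of a group of order `ℓ` is prime to `ℓ`. -/
theorem not_dvd_relIndex {H : Type} [Group H] [Fintype H] {ℓ : ℕ} [Fact ℓ.Prime]
    (P N : Subgroup H) [P.Normal] (hP : Nat.card P = ℓ) :
    ¬ ℓ ∣ (CYE.Zc P ⊓ N).relIndex N := by
  have hc : IsCyclic P := isCyclic_of_prime_card hP
  let α : N →* MulAut P := (MulAut.conjNormal (H := P)).comp N.subtype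
  have hk : α.ker = (CYE.Zc P ⊓ N).subgroupOf N := by
    ext x
    rw [MonoidHom.mem_ker, Subgroup.mem_subgroupOf, Subgroup.mem_inf,
      Subgroup.mem_centralizer_iff]
    constructor
    · intro h
      refine ⟨fun u hu => ?_, x.2⟩
      have h1 : ((α x ⟨u, hu⟩ : P) : H) = u := by rw [h]; rfl
      have h2 : (x : H) * u * (x : H)⁻¹ = u := h1
      rw [mul_inv_eq_iff_eq_mul] at h2
      exact h2.symm
    · rintro ⟨h, -⟩
      ext u
      change (x : H) * (u : H) * (x : H)⁻¹ = u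
      rw [← h u u.2, mul_inv_cancel_right]
  have h1 : (CYE.Zc P ⊓ N).relIndex N = Nat.card α.range := by
    rw [Subgroup.relIndex, ← hk, Subgroup.index_ker]
  have h2 : Nat.card α.range ∣ ℓ - 1 := by
    have h3 := Subgroup.card_subgroup_dvd_card α.range
    rwa [IsCyclic.card_mulAut, hP, Nat.totient_prime Fact.out] at h3
  rw [h1]
  intro h3
  have h4 := Nat.le_of_dvd (Nat.sub_pos_of_lt (Fact.out : ℓ.Prime).one_lt) (h3.trans h2)
  have h5 := (Fact.out : ℓ.Prime).pos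
  omega

end Pool.Agent.DPW.CYAW

namespace Pool.Agent.DPW

open Pool.Agent.DP Pool.Agent.DPV Pool.Agent.Lib_helper13 Representation
open Pool.Agent.Lib_helper13.Dade (pCore DadeHolds dadeSum)

open CYAW in
/-- CYAW: the case of a character which is trivial on `P`. -/
theorem CYAW_thm (h1 : Stmt_SCT) (h2 : Stmt_UNQ) (h3 : Stmt_CYS) : Stmt_CYAW := by
  classical
  intro H _ _ 𝔐 ℓ _ hM hℓ P N _ _ hP hPN f hf hfN hdef hker
  obtain ⟨m, hm, hcard⟩ := hdef
  have hl : ℓ.Prime := Fact.out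
  have hprime : 𝔐.IsPrime := hM.isPrime
  -- the groups
  obtain ⟨C, hCdef⟩ : ∃ C : Subgroup H, C = CYE.Zc P ⊓ N := ⟨_, rfl⟩
  have hZn : (CYE.Zc P).Normal := inferInstance
  have hNn : N.Normal := inferInstance
  have hCn : C.Normal := by
    rw [hCdef]
    exact Subgroup.normal_inf_normal _ _
  have hCN : C ≤ N := by
    rw [hCdef]
    exact inf_le_right
  have hCZ : C ≤ CYE.Zc P := by
    rw [hCdef]
    exact inf_le_left
  have hCmem : ∀ x, x ∈ CYE.Zc P → x ∈ N → x ∈ C := by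
    intro x hx hx'
    rw [hCdef]
    exact ⟨hx, hx'⟩
  have hPZ : P ≤ CYE.Zc P := CYE.le_Zc P hP
  have hPC : P ≤ C := fun u hu => hCmem u (hPZ hu) (hPN hu)
  have hrel : ¬ ℓ ∣ C.relIndex N := by
    rw [hCdef]
    exact not_dvd_relIndex P N hP
  have hz : ∀ u ∈ P.subgroupOf C, ∀ x : C, u * x = x * u := fun u hu x =>
    Subtype.ext (CYE.comm_Zc P (Subgroup.mem_subgroupOf.mp hu) (hCZ x.2))
  have hZc : Nat.card (P.subgroupOf C) = ℓ := by
    rw [Nat.card_congr (Subgroup.subgroupOfEquivOfLe hPC).toEquiv, hP]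
  -- the quotient of `N` by `C` is cyclic
  obtain ⟨n0, hn0, hgenN⟩ := CYE.exists_gen P hP N
  have hcyc : IsCyclic (N ⧸ C.subgroupOf N) := by
    refine ⟨⟨QuotientGroup.mk' (C.subgroupOf N) ⟨n0, hn0⟩, fun x => ?_⟩⟩
    obtain ⟨n, rfl⟩ := QuotientGroup.mk'_surjective _ x
    obtain ⟨k, hk⟩ := hgenN n n.2
    refine Subgroup.mem_zpowers_iff.mpr ⟨k, ?_⟩
    rw [zpow_natCast, ← map_pow]
    have e : QuotientGroup.mk' (C.subgroupOf N) (n * ((⟨n0, hn0⟩ : N) ^ k)⁻¹) = 1 := by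
      refine (QuotientGroup.eq_one_iff _).mpr (Subgroup.mem_subgroupOf.mpr ?_)
      refine hCmem _ ?_ (n * ((⟨n0, hn0⟩ : N) ^ k)⁻¹).2
      have e1 : ((n * ((⟨n0, hn0⟩ : N) ^ k)⁻¹ : N) : H) = n * (n0 ^ k)⁻¹ := by
        simp
      rw [e1]
      exact hk
    rw [map_mul, map_inv, mul_inv_eq_one] at e
    exact e.symm
  -- the constituent
  have hclN := clG_incl (C := C) (M := N) hCN
  obtain ⟨φ, hφ, hφip⟩ := CLG.exists_under (Subgroup.inclusion hCN) hfN
  have hφP : ∀ u ∈ P.subgroupOf C, φ u = φ 1 :=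
    (TWH.type_iff hPN hPC hCN hz ℓ hP hZc hfN hφ hφip).mp (fun u hu => hker u hu)
  have hall : ∀ θ : C → ℂ, IsIrr θ → ip (fun c : C => f c) θ ≠ 0 →
      ip (fun c : C => f c) θ = 1 ∧ ∃ n : N, ∀ a : C, φ (MulAut.conjNormal (n : H) a) = θ a := by
    intro θ hθ hθip
    refine ⟨(cyc_mult hclN hcyc hfN hθ hθip).1, ?_⟩
    obtain ⟨n, hn⟩ := SUMM.exists_conj hclN hφ hθ hfN hφip hθip
    exact ⟨n, fun a => congrFun hn a⟩
  -- the degree
  obtain ⟨b, hb, hb'⟩ := hφ.exists_degree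
  obtain ⟨m', hm', hcardC⟩ : ∃ m' : ℕ, ¬ ℓ ∣ m' ∧ Nat.card C = ℓ * m' * b := by
    obtain ⟨-, hdeg⟩ := cyc_mult hclN hcyc hfN hφ hφip
    obtain ⟨S, hSdef⟩ : ∃ S : Subgroup N,
      S = inert ((MulAut.conjNormal (H := C)).comp N.subtype) φ := ⟨_, rfl⟩
    rw [← hSdef] at hdeg
    have hf1 : f 1 ≠ 0 := hf.one_ne_zero
    have hS : Nat.card S = ℓ * m * b := by
      have e1 : f 1 * (Nat.card S : ℂ) = (Nat.card N : ℂ) * φ 1 := hdeg
      rw [hcard, hb'] at e1
      have e2 : f 1 * (Nat.card S : ℂ) = f 1 * ((ℓ * m * b : ℕ) : ℂ) := by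
        rw [e1]
        push_cast
        ring
      exact_mod_cast mul_left_cancel₀ hf1 e2
    obtain ⟨x, hx⟩ := hφ.degree_dvd hb'
    have hCS : Nat.card C ∣ Nat.card S := by
      have hinj : Function.Injective (CLG.jS hclN hφ) := fun u v huv =>
        hclN.inj (congrArg Subtype.val huv)
      rw [hSdef]
      exact Subgroup.card_dvd_of_injective _ hinj
    obtain ⟨s, hs⟩ := hCS
    obtain ⟨t, ht⟩ := Subgroup.card_subgroup_dvd_card S
    have hC0 : 0 < Nat.card C := Nat.card_pos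
    have hrel' : Nat.card C * C.relIndex N = Nat.card N := by
      have e1 := Subgroup.card_mul_index (C.subgroupOf N)
      rwa [Nat.card_congr (Subgroup.subgroupOfEquivOfLe hCN).toEquiv] at e1
    have hst : C.relIndex N = s * t := by
      apply Nat.eq_of_mul_eq_mul_left hC0
      rw [hrel', ht, hs, mul_assoc]
    have hs' : ¬ ℓ ∣ s := fun h => hrel (hst ▸ Dvd.dvd.mul_right h t)
    have hxs : x * s = ℓ * m := by
      apply Nat.eq_of_mul_eq_mul_left hb
      calc b * (x * s) = (b * x) * s := by ring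
        _ = ℓ * m * b := by rw [← hx, ← hs, hS]
        _ = b * (ℓ * m) := by ring
    have hlx : ℓ ∣ x := by
      have e1 : ℓ ∣ x * s := hxs ▸ Dvd.intro _ rfl
      exact (hl.dvd_mul.mp e1).resolve_right hs'
    obtain ⟨m', rfl⟩ := hlx
    refine ⟨m', fun h => hm ?_, by rw [hx]; ring⟩
    have e1 : m' * s = m := by
      apply Nat.eq_of_mul_eq_mul_left hl.pos
      rw [← hxs]
      ring
    rw [← e1]
    exact Dvd.dvd.mul_right h s
  -- the inertia group
  obtain ⟨Hφ, hHφ⟩ : ∃ Hφ : Subgroup H, Hφ = inert (MulAut.conjNormal (H := C)) φ := ⟨_, rfl⟩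
  have hHmem : ∀ y, y ∈ Hφ ↔ ∀ a : C, φ (MulAut.conjNormal y a) = φ a := by
    intro y
    rw [hHφ]
    exact Iff.rfl
  obtain ⟨h0, hh0, hgen⟩ := CYE.exists_gen P hP Hφ
  obtain ⟨M, hMdef⟩ : ∃ M : Subgroup H, M = CYE.Zc P ⊓ Hφ := ⟨_, rfl⟩
  have hMmem : ∀ x, x ∈ M ↔ x ∈ CYE.Zc P ∧ x ∈ Hφ := by
    intro x
    rw [hMdef]
    exact Subgroup.mem_inf
  have hconj : ∀ (y : C) (a : C), φ (MulAut.conjNormal (y : H) a) = φ a := by
    intro y a
    have e1 : MulAut.conjNormal (y : H) a = y * a * y⁻¹ := Subtype.ext rfl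
    rw [e1, hφ.conj_eq]
  have hCM : C ≤ M := fun x hx => (hMmem x).mpr ⟨hCZ hx, (hHmem x).mpr fun a => hconj ⟨x, hx⟩ a⟩
  have hNM : ∀ n ∈ N, ∀ y ∈ M, n * y * n⁻¹ * y⁻¹ ∈ C := by
    intro n hn y hy
    have hy' := (hMmem y).mp hy
    apply hCmem
    · exact mul_mem (hZn.conj_mem y hy'.1 n) (inv_mem hy'.1)
    · have e1 : n * y * n⁻¹ * y⁻¹ = n * (y * n⁻¹ * y⁻¹) := by group
      rw [e1]
      exact mul_mem hn (hNn.conj_mem _ (inv_mem hn) y)
  -- the characters of `M`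
  have hclM := clG_incl (C := C) (M := M) hCM
  obtain ⟨F, hF⟩ : ∃ F : M → ℂ, F = fun x : M => f x := ⟨_, rfl⟩
  have hFchr : IsChr F := by
    rw [hF]
    exact hf.isChr.comp M.subtype
  have hFres : resj (Subgroup.inclusion hCM) F = fun c : C => f c := by
    rw [hF]
    rfl
  obtain ⟨hmf1, hmf2⟩ := mulfree hclM hFchr (by
    intro θ hθ hθip
    rw [hFres] at hθip ⊢
    obtain ⟨e1, n, hn⟩ := hall θ hθ hθip
    refine ⟨e1, fun y a => ?_⟩
    change θ (MulAut.conjNormal (y : H) a) = θ a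
    have hy := (hMmem y).mp y.2
    have hk := hNM n n.2 y y.2
    rw [← hn, ← hn]
    have e2 : MulAut.conjNormal (n : H) (MulAut.conjNormal (y : H) a) =
        MulAut.conjNormal (((⟨_, hk⟩ : C) : H))
          (MulAut.conjNormal (y : H) (MulAut.conjNormal (n : H) a)) := by
      apply Subtype.ext
      change (n : H) * ((y : H) * (a : H) * (y : H)⁻¹) * (n : H)⁻¹ =
        ((n : H) * (y : H) * (n : H)⁻¹ * (y : H)⁻¹) *
          ((y : H) * ((n : H) * (a : H) * (n : H)⁻¹) * (y : H)⁻¹) *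
          ((n : H) * (y : H) * (n : H)⁻¹ * (y : H)⁻¹)⁻¹
      group
    rw [e2, hconj, (hHmem y).mp hy.2])
  obtain ⟨T, hT⟩ : ∃ T : Finset (M → ℂ), T = (irrF M).filter (fun E => ip F E ≠ 0) := ⟨_, rfl⟩
  have hTmem : ∀ E, E ∈ T ↔ IsIrr E ∧ ip F E ≠ 0 := by
    intro E
    rw [hT, Finset.mem_filter, mem_irrF]
  have hTres : ∀ E ∈ T, IsIrr (resj (Subgroup.inclusion hCM) E) ∧
      ∃ n : N, ∀ a : C, φ (MulAut.conjNormal (n : H) a) =
        resj (Subgroup.inclusion hCM) E a := by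
    intro E hE
    obtain ⟨e1, e2⟩ := (hTmem E).mp hE
    obtain ⟨-, e3, e4⟩ := hmf1 E e1 e2
    rw [hFres] at e4
    exact ⟨e3, (hall _ e3 e4).2⟩
  have hTone : ∀ E ∈ T, E 1 = φ 1 := by
    intro E hE
    obtain ⟨-, n, hn⟩ := hTres E hE
    have e1 := hn 1
    rw [map_one] at e1
    rw [e1, resj, map_one]
  obtain ⟨E0, hE0, hE0F, hE0ip⟩ := exists_over hclM hFchr (θ := φ) (by
    rw [hFres]
    exact hφip)
  have hE0T : E0 ∈ T := (hTmem E0).mpr ⟨hE0, hE0F⟩
  have hE0res : resj (Subgroup.inclusion hCM) E0 = φ := by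
    by_contra hne
    exact hE0ip (ip_ne (hTres E0 hE0T).1 hφ hne)
  -- the element
  refine ⟨h0, fun h => ?_⟩
  have hclH := CYE.clG_sub C
  obtain ⟨n, hn⟩ : ∃ n : N, ∀ a : C, φ (MulAut.conjNormal (n : H) a) =
      φ (MulAut.conjNormal h a) := by
    have e1 : IsIrr (cfn (MulAut.conjNormal (H := C)) φ h) := hφ.cfn h
    have e2 : ip (resj C.subtype f) (cfn (MulAut.conjNormal (H := C)) φ h) ≠ 0 := by
      rw [SUMM.ip_cfn hclH hf]
      exact hφip
    exact (hall _ e1 e2).2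
  have hh1 : h * (n : H)⁻¹ ∈ Hφ := by
    rw [hHmem]
    intro a
    rw [map_mul, MulAut.mul_apply, ← hn, ← MulAut.mul_apply, ← map_mul, mul_inv_cancel, map_one,
      MulAut.one_apply]
  obtain ⟨k, hk⟩ := hgen _ hh1
  obtain ⟨z, hzdef⟩ : ∃ z : H, z = h * (n : H)⁻¹ * (h0 ^ k)⁻¹ := ⟨_, rfl⟩
  have hzM : z ∈ M := by
    rw [hMmem, hzdef]
    exact ⟨hk, mul_mem hh1 (inv_mem (pow_mem hh0 k))⟩
  -- the section
  have hPM : P ≤ M := hPC.trans hCM
  have hnCM : (C.subgroupOf M).Normal := inferInstance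
  obtain ⟨a0, ha1, ha2, ha3, ha4, -⟩ := h1 M 𝔐 ℓ hM hℓ (P.subgroupOf M) (C.subgroupOf M)
    (by rw [Nat.card_congr (Subgroup.subgroupOfEquivOfLe hPM).toEquiv, hP])
    (fun u hu => Subgroup.mem_subgroupOf.mpr (hPC (Subgroup.mem_subgroupOf.mp hu)))
    (fun u hu x => Subtype.ext (CYE.comm_Zc P (Subgroup.mem_subgroupOf.mp hu)
      ((hMmem x).mp x.2).1)) E0 hE0
    (by
      have e1 := (hTres E0 hE0T).1.comp_mulEquiv (Subgroup.subgroupOfEquivOfLe hCM)
      exact e1)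
    ⟨m', hm', by
      rw [Nat.card_congr (Subgroup.subgroupOfEquivOfLe hCM).toEquiv, hcardC, hTone E0 hE0T, hb']
      push_cast
      ring⟩ ⟨z, hzM⟩
  obtain ⟨a, hainv, haint, hasupp, hared⟩ := h3 H 𝔐 ℓ hM hℓ C N M hCN hCM hNM f hf hfN
    (T.image (fun E => (ext0 E : H → ℂ)))
    (by
      intro E hE
      obtain ⟨E', hE', rfl⟩ := Finset.mem_image.mp hE
      refine ⟨irrOn_ext0 ((hTmem E').mp hE').1, ?_⟩
      have e1 : (fun c : C => (ext0 E' : H → ℂ) c) = resj (Subgroup.inclusion hCM) E' := by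
        funext c
        exact ext0_of_mem E' (hCM c.2)
      rw [e1]
      exact (hTres E' hE').1)
    (by
      intro x hx
      rw [Finset.sum_image (fun E _ E' _ hEE => ext0_inj hEE)]
      have e1 : f x = F ⟨x, hx⟩ := by rw [hF]
      have e2 := congrFun (class_fn_expand F hFchr.conj_eq) ⟨x, hx⟩
      rw [e1, e2, hT, Finset.sum_filter]
      refine Finset.sum_congr rfl fun E hE => ?_
      by_cases h0 : ip F E = 0
      · rw [if_neg (fun h' : ip F E ≠ 0 => h' h0), h0, zero_mul]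
      · rw [if_pos (show ip F E ≠ 0 from h0), (hmf1 E (mem_irrF.mp hE) h0).1, one_mul,
          ext0_of_mem E hx])
    φ hφ
    (by
      intro E hE
      obtain ⟨E', hE', rfl⟩ := Finset.mem_image.mp hE
      rw [ext0_of_mem E' M.one_mem]
      exact hTone E' hE')
    z hzM (ext0 a0)
    (by
      intro c hc x
      by_cases hx : x ∈ M
      · have hx' : c * x * c⁻¹ ∈ M := mul_mem (mul_mem (hCM hc) hx) (inv_mem (hCM hc))
        rw [ext0_of_mem a0 hx, ext0_of_mem a0 hx']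
        exact ha1 ⟨c, hCM hc⟩ (Subgroup.mem_subgroupOf.mpr hc) ⟨x, hx⟩
      · have hx' : c * x * c⁻¹ ∉ M := by
          intro hx'
          apply hx
          have e1 : x = c⁻¹ * (c * x * c⁻¹) * c := by group
          rw [e1]
          exact mul_mem (mul_mem (inv_mem (hCM hc)) hx') (hCM hc)
        rw [ext0_of_not_mem a0 hx, ext0_of_not_mem a0 hx'])
    (by
      intro x
      by_cases hx : x ∈ M
      · rw [ext0_of_mem a0 hx]
        exact ha2 _
      · rw [ext0_of_not_mem a0 hx]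
        exact isIntegral_zero)
    (by
      intro x hx
      by_cases hxM : x ∈ M
      · rw [ext0_of_mem a0 hxM]
        exact ha3 ⟨x, hxM⟩ (fun h => hx (Subgroup.mem_subgroupOf.mp h))
      · exact ext0_of_not_mem a0 hxM)
  -- the sum has one term
  have hne : red 𝔐 (wt f a) ≠ 0 := by
    intro h0
    rw [h0, mul_zero, Finset.sum_filter, Finset.sum_eq_single (ext0 E0 : H → ℂ)] at hared
    · have e1 : (fun c : C => (ext0 E0 : H → ℂ) c) = φ := by
        rw [← hE0res]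
        funext c
        exact ext0_of_mem E0 (hCM c.2)
      rw [e1, if_pos rfl, wt_ext0] at hared
      rcases mul_eq_zero.mp hared.symm with h4 | h4
      · exact natCast_ne hM hℓ hrel h4
      · exact ha4 h4
    · intro E hE hne'
      obtain ⟨E', hE', rfl⟩ := Finset.mem_image.mp hE
      rw [if_neg]
      intro hcen
      apply hne'
      have e1 : (fun c : C => (ext0 E' : H → ℂ) c) = resj (Subgroup.inclusion hCM) E' := by
        funext c
        exact ext0_of_mem E' (hCM c.2)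
      rw [e1] at hcen
      obtain ⟨e2, n', hn'⟩ := hTres E' hE'
      have e3 : φ = resj (Subgroup.inclusion hCM) E' := by
        refine h2 C 𝔐 ℓ hM hℓ (P.subgroupOf C) hZc hz φ _ hφ e2 ⟨m', hm', ?_⟩ ?_ hcen.symm
        · rw [hcardC, hb']
          push_cast
          ring
        · intro u hu
          have e4 : MulAut.conjNormal (n' : H) u ∈ P.subgroupOf C := by
            rw [Subgroup.mem_subgroupOf]
            exact (inferInstance : P.Normal).conj_mem _ (Subgroup.mem_subgroupOf.mp hu) _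
          rw [← hn' u, ← hn' 1, map_one, hφP _ e4, hφP u hu]
      have e5 : E' = E0 := by
        apply hmf2 E' E0 ((hTmem E').mp hE').1 hE0 ((hTmem E').mp hE').2 hE0F
        rw [← e3, hE0res]
      rw [e5]
    · intro hn'
      exact absurd (Finset.mem_image_of_mem _ hE0T) hn'
  -- the class
  have hint : ∀ t, IsIntegral ℤ ((∑ x, cjT N.subtype.range x t * f x) / f 1) := by
    intro t
    refine INTH_thm N H (H ⧸ N) N.subtype (MulAut.conjNormal (H := N)) (QuotientGroup.mk' N)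
      (CYE.clG_sub N) ⊤ f ⟨?_, fun x hx => absurd (Subgroup.mem_top x) hx⟩ ⟨?_, fun x hx =>
        absurd (Subgroup.mem_top _) hx⟩ (fun x => cjT N.subtype.range x t)
      (fun x => BETG.cjT_integral _ _ _) ?_
    · exact hf.comp_mulEquiv Subgroup.topEquiv
    · exact hfN.comp_mulEquiv (Subgroup.topEquiv (G := N))
    · intro g x
      rw [cjT, cjT]
      have e1 : (∃ s ∈ N.subtype.range, N.subtype g * x * (N.subtype g)⁻¹ = s * t * s⁻¹) ↔
          ∃ s ∈ N.subtype.range, x = s * t * s⁻¹ := by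
        constructor
        · rintro ⟨s, hs, e⟩
          refine ⟨(N.subtype g)⁻¹ * s, mul_mem (inv_mem ⟨g, rfl⟩) hs, ?_⟩
          have e' : x = (N.subtype g)⁻¹ * (N.subtype g * x * (N.subtype g)⁻¹) * N.subtype g := by
            group
          rw [e', e]
          group
        · rintro ⟨s, hs, rfl⟩
          exact ⟨N.subtype g * s, mul_mem ⟨g, rfl⟩ hs, by group⟩
      by_cases hx : ∃ s ∈ N.subtype.range, x = s * t * s⁻¹
      · rw [if_pos (e1.mpr hx), if_pos hx]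
      · rw [if_neg (fun h => hx (e1.mp h)), if_neg hx]
  obtain ⟨t, hat, ht⟩ : ∃ t, a t ≠ 0 ∧ cgT 𝔐 N.subtype.range f t ≠ 0 := by
    by_contra hcon
    push Not at hcon
    apply hne
    have e1 := (EXPV_thm N H 𝔐 N.subtype f f hint hint a (fun g x => hainv g g.2 x) haint).2.2 0
      (fun t ht => by rw [zero_mul]; exact hcon t ht)
    rw [e1, zero_mul]
  refine ⟨-(k : ℤ), t, ?_, ?_⟩
  · have htC : t * z⁻¹ ∈ C := by
      by_contra hcon
      exact hat (hasupp t hcon)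
    have e1 : t * (h * h0 ^ (-(k : ℤ)))⁻¹ = (t * z⁻¹) *
        ((h * (n : H)⁻¹) * (n : H)⁻¹ * (h * (n : H)⁻¹)⁻¹) := by
      rw [hzdef, zpow_neg, zpow_natCast]
      group
    rw [e1]
    exact mul_mem (hCN htC) (hNn.conj_mem _ (inv_mem n.2) _)
  · rwa [Subgroup.range_subtype] at ht

end Pool.Agent.DPW


end

section

set_option autoImplicit false

/-!
# Module GCSX: elements whose centralizers have cyclic Sylow subgroups
-/

namespace Pool.Agent.DPX.GCSX

variable {B : Type} [Group B] [Finite B]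

/-- A cyclic group has at most one subgroup of a given order. -/
theorem uniq_sub {ℓ : ℕ} (hℓ : 0 < ℓ) {R P Q : Subgroup B} (hR : IsCyclic R) (hP : P ≤ R)
    (hQ : Q ≤ R) (cP : Nat.card P = ℓ) (cQ : Nat.card Q = ℓ) : P = Q := by
  classical
  have key : ∀ {P : Subgroup B}, P ≤ R → Nat.card P = ℓ →
      ∀ x ∈ R, x ^ ℓ = 1 → x ∈ P := by
    intro P hP cP x hx hxl
    have := Fintype.ofFinite R
    have h1 := IsCyclic.card_pow_eq_one_le (α := R) hℓ
    have h2 : ((P.subgroupOf R : Subgroup R) : Set R) ⊆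
        ((Finset.univ.filter fun a : R => a ^ ℓ = 1 : Finset R) : Set R) := by
      intro y hy
      simp only [Finset.coe_filter, Finset.mem_univ, true_and, Set.mem_ofPred_eq]
      have hy' : (y : B) ∈ P := Subgroup.mem_subgroupOf.1 hy
      have h3 : (⟨(y : B), hy'⟩ : P) ^ ℓ = 1 := by
        rw [← cP]
        exact pow_card_eq_one'
      have h4 : (y : B) ^ ℓ = 1 := congrArg Subtype.val h3
      exact Subtype.ext h4
    have h5 : Nat.card (P.subgroupOf R) = ℓ := by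
      rw [← cP]
      exact Nat.card_congr (Subgroup.subgroupOfEquivOfLe hP).toEquiv
    have h6 : ((P.subgroupOf R : Subgroup R) : Set R) =
        ((Finset.univ.filter fun a : R => a ^ ℓ = 1 : Finset R) : Set R) := by
      apply Set.eq_of_subset_of_ncard_le h2
      rw [Set.ncard_coe_finset]
      refine h1.trans (le_of_eq ?_)
      rw [← h5]
      rfl
    have h7 : (⟨x, hx⟩ : R) ∈ ((P.subgroupOf R : Subgroup R) : Set R) := by
      rw [h6]
      simp only [Finset.coe_filter, Finset.mem_univ, true_and, Set.mem_ofPred_eq]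
      exact Subtype.ext hxl
    exact Subgroup.mem_subgroupOf.1 h7
  have pw : ∀ {P : Subgroup B}, Nat.card P = ℓ → ∀ x ∈ P, x ^ ℓ = 1 := by
    intro P cP x hx
    have h3 : (⟨x, hx⟩ : P) ^ ℓ = 1 := by
      rw [← cP]
      exact pow_card_eq_one'
    exact congrArg Subtype.val h3
  apply le_antisymm
  · intro x hx
    exact key hQ cQ x (hP hx) (pw cP x hx)
  · intro x hx
    exact key hP cP x (hQ hx) (pw cQ x hx)

/-- Sylow's theorem inside a subgroup: there is an `ℓ`-subgroup of `C` containing `P` into which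
every `ℓ`-subgroup of `C` can be conjugated. -/
theorem sylow_in (ℓ : ℕ) [Fact ℓ.Prime] (C P : Subgroup B) (hP : IsPGroup ℓ P) (hPC : P ≤ C) :
    ∃ R : Subgroup B, P ≤ R ∧ R ≤ C ∧ IsPGroup ℓ R ∧
      (∀ Q : Subgroup B, Q ≤ C → IsPGroup ℓ Q → ∃ c ∈ C, ∀ x ∈ Q, c * x * c⁻¹ ∈ R) ∧
      (∀ Q : Subgroup B, Q ≤ C → IsPGroup ℓ Q → R ≤ Q → Q = R) := by
  have h1 : IsPGroup ℓ (P.subgroupOf C) :=
    hP.of_injective (Subgroup.subgroupOfEquivOfLe hPC).toMonoidHom
      (Subgroup.subgroupOfEquivOfLe hPC).injective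
  obtain ⟨S, hS⟩ := h1.exists_le_sylow
  have hSm : ∀ x : C, x ∈ S.1 ↔ (x : B) ∈ S.1.map C.subtype := by
    intro x
    rw [Subgroup.mem_map]
    constructor
    · intro h
      exact ⟨x, h, rfl⟩
    · rintro ⟨y, hy, hyx⟩
      have : y = x := Subtype.ext hyx
      rwa [← this]
  refine ⟨S.1.map C.subtype, ?_, ?_, S.2.map _, ?_, ?_⟩
  · intro x hx
    exact ⟨⟨x, hPC hx⟩, hS (Subgroup.mem_subgroupOf.2 hx), rfl⟩
  · rintro _ ⟨y, _, rfl⟩
    exact y.2
  · intro Q hQC hQ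
    have h2 : IsPGroup ℓ (Q.subgroupOf C) :=
      hQ.of_injective (Subgroup.subgroupOfEquivOfLe hQC).toMonoidHom
        (Subgroup.subgroupOfEquivOfLe hQC).injective
    obtain ⟨S', hS'⟩ := h2.exists_le_sylow
    obtain ⟨c, hc⟩ := MulAction.exists_smul_eq C S' S
    refine ⟨c, c.2, fun x hx => ?_⟩
    have h3 : (⟨x, hQC hx⟩ : C) ∈ S'.1 := hS' (Subgroup.mem_subgroupOf.2 hx)
    have h4 : c * ⟨x, hQC hx⟩ * c⁻¹ ∈ S.1 := by
      rw [← hc]
      exact Subgroup.smul_mem_pointwise_smul _ (MulAut.conj c) _ h3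
    exact (hSm _).1 h4
  · intro Q hQC hQ hRQ
    have h2 : IsPGroup ℓ (Q.subgroupOf C) :=
      hQ.of_injective (Subgroup.subgroupOfEquivOfLe hQC).toMonoidHom
        (Subgroup.subgroupOfEquivOfLe hQC).injective
    have h3 : Q.subgroupOf C = S.1 := by
      apply S.3 h2
      intro x hx
      exact Subgroup.mem_subgroupOf.2 (hRQ ((hSm x).1 hx))
    rw [← h3]
    apply le_antisymm
    · intro x hx
      exact ⟨⟨x, hQC hx⟩, Subgroup.mem_subgroupOf.2 hx, rfl⟩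
    · rintro _ ⟨y, hy, rfl⟩
      exact Subgroup.mem_subgroupOf.1 hy

/-- a proper subgroup of an `ℓ`-group is properly contained in its normalizer -/
theorem grow (ℓ : ℕ) [Fact ℓ.Prime] (R R' : Subgroup B) (hR' : IsPGroup ℓ R') (h : R ≤ R')
    (hne : R ≠ R') : ∃ x ∈ R', x ∉ R ∧ ∀ y ∈ R, x * y * x⁻¹ ∈ R := by
  have hnil : Group.IsNilpotent R' := hR'.isNilpotent
  have h1 : R.subgroupOf R' < ⊤ := by
    rw [lt_top_iff_ne_top]
    intro h2
    apply hne
    apply le_antisymm h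
    rwa [Subgroup.subgroupOf_eq_top] at h2
  have h2 := Group.normalizerCondition_of_isNilpotent (G := R') _ h1
  obtain ⟨x, hx, hxn⟩ := SetLike.exists_of_lt h2
  refine ⟨x, x.2, fun h3 => hxn (Subgroup.mem_subgroupOf.2 h3), fun y hy => ?_⟩
  have h4 := (Subgroup.mem_normalizer_iff.1 hx ⟨y, h hy⟩).1 (Subgroup.mem_subgroupOf.2 hy)
  exact Subgroup.mem_subgroupOf.1 h4

theorem mem_cen {t x : B} : x ∈ Subgroup.centralizer ({t} : Set B) ↔ x * t = t * x := by
  rw [Subgroup.mem_centralizer_iff]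
  constructor
  · intro h
    exact (h t rfl).symm
  · rintro h _ rfl
    exact h.symm

theorem map_conj_card (P : Subgroup B) (c : B) :
    Nat.card (P.map (MulAut.conj c).toMonoidHom) = Nat.card P :=
  (Nat.card_congr (P.equivMapOfInjective _ (MulAut.conj c).injective).toEquiv).symm

end Pool.Agent.DPX.GCSX

namespace Pool.Agent.DPX

open GCSX

/-- GCSX: elements whose centralizers have cyclic Sylow subgroups. -/
theorem GCSX_thm : Stmt_GCSX := by
  intro ℓ _ B _ _ S P₁ hcard hPS t ht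
  have hℓ : 0 < ℓ := (Fact.out : ℓ.Prime).pos
  have hPp : IsPGroup ℓ P₁ := IsPGroup.of_card (n := 1) (by rw [hcard, pow_one])
  set C : Subgroup B := S ⊓ Subgroup.centralizer ({t} : Set B) with hC
  have hPC : P₁ ≤ C := fun u hu => ⟨hPS hu, mem_cen.2 (ht u hu)⟩
  constructor
  · intro hcyc g hg hgt
    obtain ⟨R, hPR, hRC, hRp, hconj, _⟩ := sylow_in ℓ C P₁ hPp hPC
    have hRcyc : IsCyclic R := hcyc R hRp (hRC.trans inf_le_left)
      fun u hu => mem_cen.1 (hRC hu).2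
    obtain ⟨c, hc, hcR⟩ := hconj (P₁.map (MulAut.conj g⁻¹).toMonoidHom) (by
      rintro _ ⟨u, hu, rfl⟩
      change g⁻¹ * u * g⁻¹⁻¹ ∈ C
      rw [inv_inv]
      refine ⟨S.mul_mem (S.mul_mem (S.inv_mem hg) (hPS hu)) hg, mem_cen.2 ?_⟩
      have h1 := hgt u hu
      calc g⁻¹ * u * g * t = g⁻¹ * (u * (g * t * g⁻¹)) * g := by group
        _ = g⁻¹ * (g * t * g⁻¹ * u) * g := by rw [h1]
        _ = t * (g⁻¹ * u * g) := by group) (hPp.map _)
    have hct : c * t = t * c := mem_cen.1 hc.2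
    have h2 : P₁.map (MulAut.conj (c * g⁻¹)).toMonoidHom = P₁ := by
      refine uniq_sub hℓ hRcyc ?_ hPR (by rw [map_conj_card, hcard]) hcard
      rintro _ ⟨u, hu, rfl⟩
      have h3 := hcR (g⁻¹ * u * g⁻¹⁻¹) ⟨u, hu, rfl⟩
      change c * g⁻¹ * u * (c * g⁻¹)⁻¹ ∈ R
      have e : c * g⁻¹ * u * (c * g⁻¹)⁻¹ = c * (g⁻¹ * u * g⁻¹⁻¹) * c⁻¹ := by group
      rw [e]
      exact h3
    refine ⟨g * c⁻¹, ⟨S.mul_mem hg (S.inv_mem hc.1), ?_⟩, ?_⟩
    · have h4 : c * g⁻¹ ∈ Subgroup.normalizer (P₁ : Set B) :=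
        Subgroup.mem_normalizer_iff_map_conj_eq.2 h2
      have h5 := Subgroup.inv_mem _ h4
      have e : (c * g⁻¹)⁻¹ = g * c⁻¹ := by group
      rwa [e] at h5
    · have h6 : c⁻¹ * t * c = t := by
        rw [mul_assoc, ← hct]
        group
      calc g * c⁻¹ * t * (g * c⁻¹)⁻¹ = g * (c⁻¹ * t * c) * g⁻¹ := by group
        _ = g * t * g⁻¹ := by rw [h6]
  · intro hcyc Q hQ hQS hQt
    set D : Subgroup B := C ⊓ Subgroup.normalizer (P₁ : Set B) with hD
    have hPD : P₁ ≤ D := le_inf hPC Subgroup.le_normalizer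
    obtain ⟨R, hPR, hRD, hRp, _, hRmax⟩ := sylow_in ℓ D P₁ hPp hPD
    have hRcyc : IsCyclic R := hcyc R hRp
      (fun u hu => ⟨(hRD hu).1.1, (hRD hu).2⟩) fun u hu => mem_cen.1 (hRD hu).1.2
    obtain ⟨R', hRR', hR'C, hR'p, hconj, _⟩ := sylow_in ℓ C R hRp (hRD.trans inf_le_left)
    have hRe : R = R' := by
      by_contra hne
      obtain ⟨x, hx, hxR, hxn⟩ := grow ℓ R R' hR'p hRR' hne
      have h1 : P₁.map (MulAut.conj x).toMonoidHom = P₁ := by
        refine uniq_sub hℓ hRcyc ?_ hPR (by rw [map_conj_card, hcard]) hcard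
        rintro _ ⟨u, hu, rfl⟩
        exact hxn u (hPR hu)
      have h2 : x ∈ D := ⟨hR'C hx, Subgroup.mem_normalizer_iff_map_conj_eq.2 h1⟩
      have h3 : R ⊔ Subgroup.zpowers x ≤ D := sup_le hRD ((Subgroup.zpowers_le).2 h2)
      have h4 : R ⊔ Subgroup.zpowers x ≤ R' := sup_le hRR' ((Subgroup.zpowers_le).2 hx)
      have h5 := hRmax _ h3 (hR'p.to_le h4) le_sup_left
      apply hxR
      rw [← h5]
      exact (le_sup_right : Subgroup.zpowers x ≤ R ⊔ Subgroup.zpowers x)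
        (Subgroup.mem_zpowers x)
    obtain ⟨c, _, hcR⟩ := hconj Q (fun u hu => ⟨hQS hu, mem_cen.2 (hQt u hu)⟩) hQ
    have h6 : ∀ y : Q, ((MulAut.conj c).toMonoidHom.comp Q.subtype) y ∈ R := by
      intro y
      rw [hRe]
      exact hcR y y.2
    refine isCyclic_of_injective
      (((MulAut.conj c).toMonoidHom.comp Q.subtype).codRestrict R h6) ?_
    intro a b hab
    have h7 : (MulAut.conj c) (a : B) = (MulAut.conj c) (b : B) := congrArg Subtype.val hab
    exact Subtype.ext ((MulAut.conj c).injective h7)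

end Pool.Agent.DPX


end

section

/-!
# CYAX: the case of a character which is fixed by the stabilizer of its block (theorem X)
-/

set_option linter.unusedSectionVars false

namespace Pool.Agent.DPX.CYAX

open Pool.Agent.DP Pool.Agent.DPV Pool.Agent.DPB Pool.Agent.DPW Pool.Agent.Lib_helper13
open Representation

/-- The orders of centralizers and isomorphisms. -/
theorem card_centralizer {A A' : Type} [Group A] [Group A'] (e : A ≃* A') (x : A) :
    Nat.card (Subgroup.centralizer ({e x} : Set A')) =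
      Nat.card (Subgroup.centralizer ({x} : Set A)) := by
  refine Nat.card_congr ⟨fun y => ⟨e.symm y, ?_⟩, fun y => ⟨e y, ?_⟩, fun y => ?_, fun y => ?_⟩
  · have h := Subgroup.mem_centralizer_singleton_iff.mp y.2
    rw [Subgroup.mem_centralizer_singleton_iff]
    apply e.injective
    rw [map_mul, map_mul, e.apply_symm_apply]
    exact h
  · have h := Subgroup.mem_centralizer_singleton_iff.mp y.2
    rw [Subgroup.mem_centralizer_singleton_iff, ← map_mul, ← map_mul, h]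
  · exact Subtype.ext (e.apply_symm_apply _)
  · exact Subtype.ext (e.symm_apply_apply _)

/-- Transport of the defect group. -/
theorem atX_map {A A' F : Type} [Group A] [Group A'] [Zero F] (e : A ≃* A') {ℓ n : ℕ}
    {ω : A → F} {ω' : A' → F} {P₁ Q : Subgroup A} {x₀ : A} (hω : ∀ x, ω' (e x) = ω x)
    (h : AtX ℓ n ω P₁ Q x₀) :
    AtX ℓ n ω' (P₁.map e.toMonoidHom) (Q.map e.toMonoidHom) (e x₀) := by
  refine ⟨⟨Subgroup.map_mono h.cd.le, ?_, ?_, ?_, ?_, ?_⟩, ?_, ?_⟩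
  · exact (Nat.card_congr (e.subgroupMap P₁).symm.toEquiv).trans h.cd.c1
  · have hc : IsCyclic Q := h.cd.cyc
    exact (e.subgroupMap Q).isCyclic.mp hc
  · exact (Nat.card_congr (e.subgroupMap Q).symm.toEquiv).trans h.cd.card
  · rintro _ ⟨u, hu, rfl⟩
    change e u * e x₀ = e x₀ * e u
    rw [← map_mul, ← map_mul, h.cd.cen u hu]
  · rw [card_centralizer e x₀]
    exact h.cd.sq
  · rw [hω]
    exact h.ne
  · intro x hx
    have e1 : x = e (e.symm x) := (e.apply_symm_apply x).symm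
    rw [e1, hω] at hx
    rw [e1, card_centralizer e]
    exact h.mn _ hx

/-- Central functions and isomorphisms. -/
theorem cen_comp {Y Y' : Type} [Group Y] [Fintype Y] [Group Y'] [Fintype Y']
    (𝔐 : Ideal (integralClosure ℤ ℂ)) (e : Y ≃* Y') (ψ : Y' → ℂ) (x : Y) :
    cen 𝔐 (MonoidHom.id Y) (fun y => ψ (e y)) x = cen 𝔐 (MonoidHom.id Y') ψ (e x) := by
  rw [cen, cen, ← wt_comp_equiv e]
  congr 2
  ext y
  refine conjInd_congr ?_
  simp only [MonoidHom.id_apply]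
  rw [isConj_iff, isConj_iff]
  constructor
  · rintro ⟨c, hc⟩
    exact ⟨e c, by rw [← map_mul, ← map_inv, ← map_mul, hc]⟩
  · rintro ⟨c, hc⟩
    refine ⟨e.symm c, e.injective ?_⟩
    rw [map_mul, map_mul, map_inv, e.apply_symm_apply, hc]

end Pool.Agent.DPX.CYAX

namespace Pool.Agent.DPX

open Pool.Agent.DP Pool.Agent.DPV Pool.Agent.DPB Pool.Agent.DPW Pool.Agent.Lib_helper13
open Representation

open Pool.Agent.DPW.CYAW CYAX in
/-- CYAX: the case of a character which is fixed by the stabilizer of its block. -/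
theorem CYAX_thm (h1 : Stmt_SCXX) : Stmt_CYAX := by
  classical
  intro H _ _ 𝔐 ℓ nn _ hM hℓ P N C _ hNn hCn hP hidx hCdef0 f hf hfN φ hφ hφip0 Q x₀ hat hfixb
  have h3 : Stmt_CYS := CYS_thm
  have hl : ℓ.Prime := Fact.out
  have hprime : 𝔐.IsPrime := hM.isPrime
  -- the groups
  have hCdef : C = CYE.Zc P ⊓ N := by
    rw [hCdef0]
    exact inf_comm _ _
  have hZn : (CYE.Zc P).Normal := inferInstance
  have hCN : C ≤ N := by
    rw [hCdef]
    exact inf_le_right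
  have hCZ : C ≤ CYE.Zc P := by
    rw [hCdef]
    exact inf_le_left
  have hCmem : ∀ x, x ∈ CYE.Zc P → x ∈ N → x ∈ C := by
    intro x hx hx'
    rw [hCdef]
    exact ⟨hx, hx'⟩
  have hPC : P ≤ C := by
    have e1 : Nat.card (P.subgroupOf C) = ℓ := hat.cd.c1
    have e2 : Nat.card (P ⊓ C : Subgroup H) = ℓ := by
      rw [← e1, ← Subgroup.subgroupOf_map_subtype P C]
      exact (Nat.card_congr (Subgroup.equivMapOfInjective (P.subgroupOf C) C.subtype
        (Subgroup.subtype_injective C)).toEquiv).symm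
    have e3 : (P ⊓ C : Subgroup H) = P := by
      apply Subgroup.eq_of_le_of_card_ge inf_le_left
      rw [e2, hP]
    rw [← e3]
    exact inf_le_right
  have hrel : ¬ ℓ ∣ C.relIndex N := by
    rw [hCdef]
    exact not_dvd_relIndex P N hP
  -- the quotient of `N` by `C` is cyclic
  obtain ⟨n0, hn0, hgenN⟩ := CYE.exists_gen P hP N
  have hcyc : IsCyclic (N ⧸ C.subgroupOf N) := by
    refine ⟨⟨QuotientGroup.mk' (C.subgroupOf N) ⟨n0, hn0⟩, fun x => ?_⟩⟩
    obtain ⟨n, rfl⟩ := QuotientGroup.mk'_surjective _ x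
    obtain ⟨k, hk⟩ := hgenN n n.2
    refine Subgroup.mem_zpowers_iff.mpr ⟨k, ?_⟩
    rw [zpow_natCast, ← map_pow]
    have e : QuotientGroup.mk' (C.subgroupOf N) (n * ((⟨n0, hn0⟩ : N) ^ k)⁻¹) = 1 := by
      refine (QuotientGroup.eq_one_iff _).mpr (Subgroup.mem_subgroupOf.mpr ?_)
      refine hCmem _ ?_ (n * ((⟨n0, hn0⟩ : N) ^ k)⁻¹).2
      have e1 : ((n * ((⟨n0, hn0⟩ : N) ^ k)⁻¹ : N) : H) = n * (n0 ^ k)⁻¹ := by
        simp
      rw [e1]
      exact hk
    rw [map_mul, map_inv, mul_inv_eq_one] at e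
    exact e.symm
  -- the constituent
  have hclN := clG_incl (C := C) (M := N) hCN
  have hφip : ip (resj (Subgroup.inclusion hCN) (fun n : N => f n)) φ ≠ 0 := hφip0
  have hall : ∀ θ : C → ℂ, IsIrr θ → ip (fun c : C => f c) θ ≠ 0 →
      ip (fun c : C => f c) θ = 1 ∧ ∃ n : N, ∀ a : C, φ (MulAut.conjNormal (n : H) a) = θ a := by
    intro θ hθ hθip
    refine ⟨(cyc_mult hclN hcyc hfN hθ hθip).1, ?_⟩
    obtain ⟨n, hn⟩ := SUMM.exists_conj hclN hφ hθ hfN hφip hθip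
    exact ⟨n, fun a => congrFun hn a⟩
  -- the inertia group
  obtain ⟨Hφ, hHφ⟩ : ∃ Hφ : Subgroup H, Hφ = inert (MulAut.conjNormal (H := C)) φ := ⟨_, rfl⟩
  have hHmem : ∀ y, y ∈ Hφ ↔ ∀ a : C, φ (MulAut.conjNormal y a) = φ a := by
    intro y
    rw [hHφ]
    exact Iff.rfl
  obtain ⟨h0, hh0, hgen⟩ := CYE.exists_gen P hP Hφ
  obtain ⟨M, hMdef⟩ : ∃ M : Subgroup H, M = CYE.Zc P ⊓ Hφ := ⟨_, rfl⟩
  have hMmem : ∀ x, x ∈ M ↔ x ∈ CYE.Zc P ∧ x ∈ Hφ := by
    intro x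
    rw [hMdef]
    exact Subgroup.mem_inf
  have hconj : ∀ (y : C) (a : C), φ (MulAut.conjNormal (y : H) a) = φ a := by
    intro y a
    have e1 : MulAut.conjNormal (y : H) a = y * a * y⁻¹ := Subtype.ext rfl
    rw [e1, hφ.conj_eq]
  have hCM : C ≤ M := fun x hx => (hMmem x).mpr ⟨hCZ hx, (hHmem x).mpr fun a => hconj ⟨x, hx⟩ a⟩
  have hNM : ∀ n ∈ N, ∀ y ∈ M, n * y * n⁻¹ * y⁻¹ ∈ C := by
    intro n hn y hy
    have hy' := (hMmem y).mp hy
    apply hCmem
    · exact mul_mem (hZn.conj_mem y hy'.1 n) (inv_mem hy'.1)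
    · have e1 : n * y * n⁻¹ * y⁻¹ = n * (y * n⁻¹ * y⁻¹) := by group
      rw [e1]
      exact mul_mem hn (hNn.conj_mem _ (inv_mem hn) y)
  -- the characters of `M`
  have hclM := clG_incl (C := C) (M := M) hCM
  obtain ⟨F, hF⟩ : ∃ F : M → ℂ, F = fun x : M => f x := ⟨_, rfl⟩
  have hFchr : IsChr F := by
    rw [hF]
    exact hf.isChr.comp M.subtype
  have hFres : resj (Subgroup.inclusion hCM) F = fun c : C => f c := by
    rw [hF]
    rfl
  obtain ⟨hmf1, hmf2⟩ := mulfree hclM hFchr (by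
    intro θ hθ hθip
    rw [hFres] at hθip ⊢
    obtain ⟨e1, n, hn⟩ := hall θ hθ hθip
    refine ⟨e1, fun y a => ?_⟩
    change θ (MulAut.conjNormal (y : H) a) = θ a
    have hy := (hMmem y).mp y.2
    have hk := hNM n n.2 y y.2
    rw [← hn, ← hn]
    have e2 : MulAut.conjNormal (n : H) (MulAut.conjNormal (y : H) a) =
        MulAut.conjNormal (((⟨_, hk⟩ : C) : H))
          (MulAut.conjNormal (y : H) (MulAut.conjNormal (n : H) a)) := by
      apply Subtype.ext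
      change (n : H) * ((y : H) * (a : H) * (y : H)⁻¹) * (n : H)⁻¹ =
        ((n : H) * (y : H) * (n : H)⁻¹ * (y : H)⁻¹) *
          ((y : H) * ((n : H) * (a : H) * (n : H)⁻¹) * (y : H)⁻¹) *
          ((n : H) * (y : H) * (n : H)⁻¹ * (y : H)⁻¹)⁻¹
      group
    rw [e2, hconj, (hHmem y).mp hy.2])
  obtain ⟨T, hT⟩ : ∃ T : Finset (M → ℂ), T = (irrF M).filter (fun E => ip F E ≠ 0) := ⟨_, rfl⟩
  have hTmem : ∀ E, E ∈ T ↔ IsIrr E ∧ ip F E ≠ 0 := by
    intro E
    rw [hT, Finset.mem_filter, mem_irrF]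
  have hTres : ∀ E ∈ T, IsIrr (resj (Subgroup.inclusion hCM) E) ∧
      ∃ n : N, ∀ a : C, φ (MulAut.conjNormal (n : H) a) =
        resj (Subgroup.inclusion hCM) E a := by
    intro E hE
    obtain ⟨e1, e2⟩ := (hTmem E).mp hE
    obtain ⟨-, e3, e4⟩ := hmf1 E e1 e2
    rw [hFres] at e4
    exact ⟨e3, (hall _ e3 e4).2⟩
  have hTone : ∀ E ∈ T, E 1 = φ 1 := by
    intro E hE
    obtain ⟨-, n, hn⟩ := hTres E hE
    have e1 := hn 1
    rw [map_one] at e1
    rw [e1, resj, map_one]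
  obtain ⟨E0, hE0, hE0F, hE0ip⟩ := exists_over hclM hFchr (θ := φ) (by
    rw [hFres]
    exact hφip)
  have hE0T : E0 ∈ T := (hTmem E0).mpr ⟨hE0, hE0F⟩
  have hE0res : resj (Subgroup.inclusion hCM) E0 = φ := by
    by_contra hne
    exact hE0ip (ip_ne (hTres E0 hE0T).1 hφ hne)
  -- the element
  refine ⟨h0, fun h => ?_⟩
  have hclH := CYE.clG_sub C
  obtain ⟨n, hn⟩ : ∃ n : N, ∀ a : C, φ (MulAut.conjNormal (n : H) a) =
      φ (MulAut.conjNormal h a) := by
    have e1 : IsIrr (cfn (MulAut.conjNormal (H := C)) φ h) := hφ.cfn h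
    have e2 : ip (resj C.subtype f) (cfn (MulAut.conjNormal (H := C)) φ h) ≠ 0 := by
      rw [SUMM.ip_cfn hclH hf]
      exact hφip
    exact (hall _ e1 e2).2
  have hh1 : h * (n : H)⁻¹ ∈ Hφ := by
    rw [hHmem]
    intro a
    rw [map_mul, MulAut.mul_apply, ← hn, ← MulAut.mul_apply, ← map_mul, mul_inv_cancel, map_one,
      MulAut.one_apply]
  obtain ⟨k, hk⟩ := hgen _ hh1
  obtain ⟨z, hzdef⟩ : ∃ z : H, z = h * (n : H)⁻¹ * (h0 ^ k)⁻¹ := ⟨_, rfl⟩
  have hzM : z ∈ M := by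
    rw [hMmem, hzdef]
    exact ⟨hk, mul_mem hh1 (inv_mem (pow_mem hh0 k))⟩
  -- the section
  have hPM : P ≤ M := hPC.trans hCM
  have hnCM : (C.subgroupOf M).Normal := inferInstance
  have hidxM : ¬ ℓ ∣ (C.subgroupOf M).index := by
    intro hd
    apply hidx
    have e1 : C.subgroupOf M = N.subgroupOf M := by
      ext x
      rw [Subgroup.mem_subgroupOf, Subgroup.mem_subgroupOf]
      exact ⟨fun hx => hCN hx, fun hx => hCmem _ ((hMmem _).mp x.2).1 hx⟩
    rw [e1] at hd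
    exact hd.trans (Subgroup.relIndex_dvd_index_of_normal N M)
  let e : C ≃* C.subgroupOf M := (Subgroup.subgroupOfEquivOfLe hCM).symm
  have he : ∀ c : C, (((e c : C.subgroupOf M) : M) : H) = (c : H) := fun c => rfl
  have hE0e : ∀ c : C, E0 ((e c : C.subgroupOf M) : M) = φ c := by
    intro c
    rw [← hE0res]
    rfl
  have hat' : AtX ℓ nn (cen 𝔐 (MonoidHom.id (C.subgroupOf M))
      (fun c : C.subgroupOf M => E0 c)) ((P.subgroupOf M).subgroupOf (C.subgroupOf M))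
      (Q.map e.toMonoidHom) (e x₀) := by
    have e1 : (P.subgroupOf M).subgroupOf (C.subgroupOf M) =
        (P.subgroupOf C).map e.toMonoidHom := by
      ext x
      rw [Subgroup.mem_subgroupOf, Subgroup.mem_subgroupOf, Subgroup.mem_map]
      constructor
      · intro hx
        refine ⟨e.symm x, ?_, e.apply_symm_apply x⟩
        rw [Subgroup.mem_subgroupOf, ← he (e.symm x), e.apply_symm_apply]
        exact hx
      · rintro ⟨c, hc, rfl⟩
        exact hc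
    rw [e1]
    refine atX_map e (fun x => ?_) hat
    have e2 : (fun y : C => (fun c : C.subgroupOf M => E0 c) (e y)) = φ := by
      funext c
      exact hE0e c
    rw [← cen_comp 𝔐 e, e2]
  obtain ⟨t₁, ht₁, ht₁'⟩ := h1 M 𝔐 ℓ nn hM hℓ (P.subgroupOf M) (C.subgroupOf M)
    (fun u hu => Subgroup.mem_subgroupOf.mpr (hPC (Subgroup.mem_subgroupOf.mp hu)))
    (fun u hu x => Subtype.ext (CYE.comm_Zc P (Subgroup.mem_subgroupOf.mp hu)
      ((hMmem x).mp x.2).1)) hidxM E0 hE0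
    (by
      have e1 := (hTres E0 hE0T).1.comp_mulEquiv (Subgroup.subgroupOfEquivOfLe hCM)
      exact e1) (Q.map e.toMonoidHom) (e x₀) hat' ⟨z, hzM⟩
  obtain ⟨a0, ha0⟩ : ∃ a0 : M → ℂ, a0 = fun x => cjT (C.subgroupOf M) x t₁ := ⟨_, rfl⟩
  have ha1 : ∀ c ∈ C.subgroupOf M, ∀ x, a0 (c * x * c⁻¹) = a0 x := by
    intro c hc x
    rw [ha0]
    change cjT (C.subgroupOf M) (c * x * c⁻¹) t₁ = cjT (C.subgroupOf M) x t₁
    rw [cjT, cjT]
    have e1 : (∃ s ∈ C.subgroupOf M, c * x * c⁻¹ = s * t₁ * s⁻¹) ↔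
        ∃ s ∈ C.subgroupOf M, x = s * t₁ * s⁻¹ := by
      constructor
      · rintro ⟨s, hs, e⟩
        refine ⟨c⁻¹ * s, mul_mem (inv_mem hc) hs, ?_⟩
        have e' : x = c⁻¹ * (c * x * c⁻¹) * c := by
          group
        rw [e', e]
        group
      · rintro ⟨s, hs, rfl⟩
        exact ⟨c * s, mul_mem hc hs, by group⟩
    by_cases hx : ∃ s ∈ C.subgroupOf M, x = s * t₁ * s⁻¹
    · rw [if_pos (e1.mpr hx), if_pos hx]
    · rw [if_neg (fun h => hx (e1.mp h)), if_neg hx]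
  have ha2 : ∀ x, IsIntegral ℤ (a0 x) := by
    intro x
    rw [ha0]
    exact BETG.cjT_integral _ _ _
  have ha3 : ∀ x : M, x * (⟨z, hzM⟩ : M)⁻¹ ∉ C.subgroupOf M → a0 x = 0 := by
    intro x hx
    rw [ha0]
    change cjT (C.subgroupOf M) x t₁ = 0
    rw [cjT, if_neg]
    rintro ⟨s, hs, rfl⟩
    apply hx
    have e1 : s * t₁ * s⁻¹ * (⟨z, hzM⟩ : M)⁻¹ =
        s * (t₁ * (⟨z, hzM⟩ : M)⁻¹) * ((⟨z, hzM⟩ : M) * s⁻¹ * (⟨z, hzM⟩ : M)⁻¹) := by group
    rw [e1]
    exact mul_mem (mul_mem hs ht₁) (hnCM.conj_mem _ (inv_mem hs) _)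
  have ha4 : red 𝔐 (wt E0 a0) ≠ 0 := by
    rw [ha0]
    exact ht₁'
  obtain ⟨a, hainv, haint, hasupp, hared⟩ := h3 H 𝔐 ℓ hM hℓ C N M hCN hCM hNM f hf hfN
    (T.image (fun E => (ext0 E : H → ℂ)))
    (by
      intro E hE
      obtain ⟨E', hE', rfl⟩ := Finset.mem_image.mp hE
      refine ⟨irrOn_ext0 ((hTmem E').mp hE').1, ?_⟩
      have e1 : (fun c : C => (ext0 E' : H → ℂ) c) = resj (Subgroup.inclusion hCM) E' := by
        funext c
        exact ext0_of_mem E' (hCM c.2)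
      rw [e1]
      exact (hTres E' hE').1)
    (by
      intro x hx
      rw [Finset.sum_image (fun E _ E' _ hEE => ext0_inj hEE)]
      have e1 : f x = F ⟨x, hx⟩ := by rw [hF]
      have e2 := congrFun (class_fn_expand F hFchr.conj_eq) ⟨x, hx⟩
      rw [e1, e2, hT, Finset.sum_filter]
      refine Finset.sum_congr rfl fun E hE => ?_
      by_cases h0 : ip F E = 0
      · rw [if_neg (fun h' : ip F E ≠ 0 => h' h0), h0, zero_mul]
      · rw [if_pos (show ip F E ≠ 0 from h0), (hmf1 E (mem_irrF.mp hE) h0).1, one_mul,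
          ext0_of_mem E hx])
    φ hφ
    (by
      intro E hE
      obtain ⟨E', hE', rfl⟩ := Finset.mem_image.mp hE
      rw [ext0_of_mem E' M.one_mem]
      exact hTone E' hE')
    z hzM (ext0 a0)
    (by
      intro c hc x
      by_cases hx : x ∈ M
      · have hx' : c * x * c⁻¹ ∈ M := mul_mem (mul_mem (hCM hc) hx) (inv_mem (hCM hc))
        rw [ext0_of_mem a0 hx, ext0_of_mem a0 hx']
        exact ha1 ⟨c, hCM hc⟩ (Subgroup.mem_subgroupOf.mpr hc) ⟨x, hx⟩
      · have hx' : c * x * c⁻¹ ∉ M := by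
          intro hx'
          apply hx
          have e1 : x = c⁻¹ * (c * x * c⁻¹) * c := by group
          rw [e1]
          exact mul_mem (mul_mem (inv_mem (hCM hc)) hx') (hCM hc)
        rw [ext0_of_not_mem a0 hx, ext0_of_not_mem a0 hx'])
    (by
      intro x
      by_cases hx : x ∈ M
      · rw [ext0_of_mem a0 hx]
        exact ha2 _
      · rw [ext0_of_not_mem a0 hx]
        exact isIntegral_zero)
    (by
      intro x hx
      by_cases hxM : x ∈ M
      · rw [ext0_of_mem a0 hxM]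
        exact ha3 ⟨x, hxM⟩ (fun h => hx (Subgroup.mem_subgroupOf.mp h))
      · exact ext0_of_not_mem a0 hxM)
  -- the sum has one term
  have hne : red 𝔐 (wt f a) ≠ 0 := by
    intro h0
    rw [h0, mul_zero, Finset.sum_filter, Finset.sum_eq_single (ext0 E0 : H → ℂ)] at hared
    · have e1 : (fun c : C => (ext0 E0 : H → ℂ) c) = φ := by
        rw [← hE0res]
        funext c
        exact ext0_of_mem E0 (hCM c.2)
      rw [e1, if_pos rfl, wt_ext0] at hared
      rcases mul_eq_zero.mp hared.symm with h4 | h4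
      · exact natCast_ne hM hℓ hrel h4
      · exact ha4 h4
    · intro E hE hne'
      obtain ⟨E', hE', rfl⟩ := Finset.mem_image.mp hE
      rw [if_neg]
      intro hcen
      apply hne'
      have e1 : (fun c : C => (ext0 E' : H → ℂ) c) = resj (Subgroup.inclusion hCM) E' := by
        funext c
        exact ext0_of_mem E' (hCM c.2)
      rw [e1] at hcen
      obtain ⟨e2, n', hn'⟩ := hTres E' hE'
      have e3 : φ = resj (Subgroup.inclusion hCM) E' := by
        have e4 : resj (Subgroup.inclusion hCM) E' =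
            fun c : C => φ (MulAut.conjNormal (n' : H) c) := by
          funext c
          exact (hn' c).symm
        have e5 : (n' : H) ∈ bS 𝔐 C φ := by
          intro x
          rw [← cen_comp 𝔐 (MulAut.conjNormal (H := C) (n' : H)) φ x, ← e4, hcen]
        funext c
        rw [← hn' c]
        exact (hfixb n' n'.2 e5 c).symm
      have e5 : E' = E0 := by
        apply hmf2 E' E0 ((hTmem E').mp hE').1 hE0 ((hTmem E').mp hE').2 hE0F
        rw [← e3, hE0res]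
      rw [e5]
    · intro hn'
      exact absurd (Finset.mem_image_of_mem _ hE0T) hn'
  -- the class
  have hint : ∀ t, IsIntegral ℤ ((∑ x, cjT N.subtype.range x t * f x) / f 1) := by
    intro t
    refine INTH_thm N H (H ⧸ N) N.subtype (MulAut.conjNormal (H := N)) (QuotientGroup.mk' N)
      (CYE.clG_sub N) ⊤ f ⟨?_, fun x hx => absurd (Subgroup.mem_top x) hx⟩ ⟨?_, fun x hx =>
        absurd (Subgroup.mem_top _) hx⟩ (fun x => cjT N.subtype.range x t)
      (fun x => BETG.cjT_integral _ _ _) ?_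
    · exact hf.comp_mulEquiv Subgroup.topEquiv
    · exact hfN.comp_mulEquiv (Subgroup.topEquiv (G := N))
    · intro g x
      rw [cjT, cjT]
      have e1 : (∃ s ∈ N.subtype.range, N.subtype g * x * (N.subtype g)⁻¹ = s * t * s⁻¹) ↔
          ∃ s ∈ N.subtype.range, x = s * t * s⁻¹ := by
        constructor
        · rintro ⟨s, hs, e⟩
          refine ⟨(N.subtype g)⁻¹ * s, mul_mem (inv_mem ⟨g, rfl⟩) hs, ?_⟩
          have e' : x = (N.subtype g)⁻¹ * (N.subtype g * x * (N.subtype g)⁻¹) * N.subtype g := by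
            group
          rw [e', e]
          group
        · rintro ⟨s, hs, rfl⟩
          exact ⟨N.subtype g * s, mul_mem ⟨g, rfl⟩ hs, by group⟩
      by_cases hx : ∃ s ∈ N.subtype.range, x = s * t * s⁻¹
      · rw [if_pos (e1.mpr hx), if_pos hx]
      · rw [if_neg (fun h => hx (e1.mp h)), if_neg hx]
  obtain ⟨t, hat2, ht⟩ : ∃ t, a t ≠ 0 ∧ cgT 𝔐 N.subtype.range f t ≠ 0 := by
    by_contra hcon
    push Not at hcon
    apply hne
    have e1 := (EXPV_thm N H 𝔐 N.subtype f f hint hint a (fun g x => hainv g g.2 x) haint).2.2 0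
      (fun t ht => by rw [zero_mul]; exact hcon t ht)
    rw [e1, zero_mul]
  refine ⟨-(k : ℤ), t, ?_, ?_⟩
  · have htC : t * z⁻¹ ∈ C := by
      by_contra hcon
      exact hat2 (hasupp t hcon)
    have e1 : t * (h * h0 ^ (-(k : ℤ)))⁻¹ = (t * z⁻¹) *
        ((h * (n : H)⁻¹) * (n : H)⁻¹ * (h * (n : H)⁻¹)⁻¹) := by
      rw [hzdef, zpow_neg, zpow_natCast]
      group
    rw [e1]
    exact mul_mem (hCN htC) (hNn.conj_mem _ (inv_mem n.2) _)
  · rwa [Subgroup.range_subtype] at ht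

end Pool.Agent.DPX


end

section

/-!
# Extensions over a larger extension
-/

namespace Pool.Agent.DPG

open Pool.Agent.DP Pool.Agent.DPC Pool.Agent.DPM Pool.Agent.DPN Pool.Agent.DPF
  Pool.Agent.Lib_helper13 Representation

namespace PLE

/-- The map between the fibre products induced by `h`. -/
def hGS {L K H W W' : Type} [Group L] [Group K] [Group H] [Group W] [Group W'] (π : L →* K)
    (p : K →* H) (πW : W →* H) (h : W' →* W) (S : Subgroup K) :
    GS π p (πW.comp h) S →* GS π p πW S where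
  toFun y := ⟨(y.1.1, h y.1.2), y.2.1, y.2.2⟩
  map_one' := by
    apply Subtype.ext
    apply Prod.ext
    · rfl
    · exact map_one h
  map_mul' y z := by
    apply Subtype.ext
    apply Prod.ext
    · rfl
    · exact map_mul h _ _

end PLE

open _root_.Pool.Agent.DPG.PLE

theorem PLE_thm : Stmt_PLE := by
  intro L K H W W' _ _ _ _ _ _ _ _ π p M πW h S f ν hE ν' hν
  obtain ⟨E, hE1, hE2, hE3, hE4⟩ := hE
  refine ⟨fun y => E (y.1, h y.2), ?_, ?_, ?_, ?_⟩
  · exact IsChr.comp hE1 (hGS π p πW h S)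
  · intro x hx
    apply hE2
    intro hx'
    exact hx ⟨hx'.1, hx'.2⟩
  · intro a ha ha'
    change E (a, h 1) = f a
    rw [map_one]
    exact hE3 a ha ha'
  · intro z t w
    have hz : h z ∈ πW.ker := z.2
    rw [hν z hz]
    change _ * E (t, h (z * w)) = E (t, h w)
    rw [map_mul]
    exact hE4 ⟨h z, hz⟩ t (h w)

end Pool.Agent.DPG


end

section

/-!
# SUL: the support of the characters of the coordinates
-/

set_option autoImplicit false

namespace Pool.Agent.DPG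

open Pool.Agent.DP Pool.Agent.DPC Pool.Agent.DPM Pool.Agent.DPN Pool.Agent.DPF
  Pool.Agent.DPK Pool.Agent.Lib_helper13 Representation

namespace SUL

/-! ### Scalars of sums which are invariant under a subgroup -/

theorem schurA {G : Type} [Group G] [Fintype G] (A T : Subgroup G) (hAT : A ≤ T) (f : G → ℂ)
    (hT : IsIrr (fun t : T => f t)) (hf : ∀ x, x ∉ T → f x = 0)
    (hA : IsIrr (fun a : A => f a)) (w : G → ℂ) (hw : ∀ a ∈ A, ∀ x, w (a * x * a⁻¹) = w x)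
    (g : G) (hg : g ∈ T) :
    ∑ t, w t * f (t * g) = ((∑ t, w t * f t) / f 1) * f g := by
  classical
  obtain ⟨n, R, hR, hRf⟩ := hT
  obtain ⟨n', R', hR', hRf'⟩ := hA
  let j : A →* T := Subgroup.inclusion hAT
  let σ : Representation ℂ A (Fin n → ℂ) := R.comp j
  have hσc : σ.character = R'.character := by
    rw [hRf']
    funext h
    have h1 : σ.character h = R.character (j h) := rfl
    rw [h1, hRf]
    rfl
  have hσ : σ.IsIrreducible := by
    apply irreducible_of_sum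
    rw [hσc]
    exact sum_char_self R'
  let Op : (Fin n → ℂ) →ₗ[ℂ] (Fin n → ℂ) :=
    ∑ s : T, w s • (R s : (Fin n → ℂ) →ₗ[ℂ] (Fin n → ℂ))
  have hOp : ∀ x, Op x = ∑ s : T, w s • R s x := by
    intro x
    simp [Op, LinearMap.sum_apply]
  have hcomm : ∀ g x, Op (σ g x) = σ g (Op x) := by
    intro g x
    rw [hOp, hOp, map_sum]
    have h1 : ∀ s : T, σ g (w s • R s x) = w s • R (j g * s) x := by
      intro s
      rw [map_smul, map_mul]
      rfl
    have h2 : ∀ s : T, w s • R s (σ g x) = w s • R (s * j g) x := by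
      intro s
      rw [map_mul]
      rfl
    simp only [h1, h2]
    rw [← Equiv.sum_comp (MulAut.conj (j g)).toEquiv]
    refine Finset.sum_congr rfl fun s _ => ?_
    have h3 : ((MulAut.conj (j g)).toEquiv s : T) = j g * s * (j g)⁻¹ := rfl
    rw [h3]
    have h4 : w ((j g * s * (j g)⁻¹ : T) : G) = w s := hw (g : G) g.2 (s : G)
    rw [h4, inv_mul_cancel_right]
  obtain ⟨c, hc⟩ := exists_scalar σ hσ Op hcomm
  have key : ∀ g : T, ∑ t, w t * f (t * g) = c * f g := by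
    intro g
    have h1 : ∑ t, w t * f (t * g) = ∑ s : T, w s * f (s * g) :=
      RIU.sum_sub T (f := fun t => w t * f (t * g)) (fun x hx => by
        rw [hf _ (fun h => hx (by
          have := T.mul_mem h (T.inv_mem g.2)
          rwa [mul_inv_cancel_right] at this)), mul_zero])
    rw [h1]
    have h2 : (Op * R g : (Fin n → ℂ) →ₗ[ℂ] (Fin n → ℂ)) = c • R g := by
      rw [hc]
      ext x
      simp
    have h3 : (Op * R g : (Fin n → ℂ) →ₗ[ℂ] (Fin n → ℂ)) = ∑ s : T, w s • R (s * g) := by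
      simp only [Op]
      rw [Finset.sum_mul]
      refine Finset.sum_congr rfl fun s _ => ?_
      rw [smul_mul_assoc, map_mul]
    rw [h3] at h2
    have h4 := congrArg (LinearMap.trace ℂ (Fin n → ℂ)) h2
    rw [map_sum, map_smul, smul_eq_mul] at h4
    have h5 : LinearMap.trace ℂ (Fin n → ℂ) (R g) = f g := congrFun hRf g
    have h6 : ∀ s : T, LinearMap.trace ℂ (Fin n → ℂ) (w s • R (s * g)) = w s * f (s * g) := by
      intro s
      rw [map_smul, smul_eq_mul]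
      congr 1
      exact congrFun hRf (s * g)
    rw [h5] at h4
    rw [← h4]
    exact Finset.sum_congr rfl fun s _ => (h6 s).symm
  have hf1 : f 1 ≠ 0 := by
    have h1 : IsIrr (fun t : T => f t) := ⟨n, R, hR, hRf⟩
    exact h1.one_ne_zero
  have h1 := key 1
  simp only [Subgroup.coe_one, mul_one] at h1
  rw [h1, mul_div_cancel_right₀ _ hf1]
  exact key ⟨g, hg⟩

/-! ### Functions on a coset -/

section Lf

variable {G H : Type} [Group G] [Group H] [Fintype H]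

open Classical in
/-- The function on the coset of `y` which belongs to `w`. -/
noncomputable def lf (ι : H →* G) (y : G) (w : H → ℤ) (x : G) : ℤ :=
  ∑ n, if x = y * ι n then w n else 0

theorem lf_conj (ι : H →* G) (y : G) (w : H → ℤ) (b c : H) (hb : ι b = y⁻¹ * ι c * y)
    (hw : ∀ n, w (b * n * c⁻¹) = w n) (x : G) :
    lf ι y w (ι c * x * (ι c)⁻¹) = lf ι y w x := by
  classical
  unfold lf
  rw [← Equiv.sum_comp ((Equiv.mulLeft b).trans (Equiv.mulRight c⁻¹))]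
  refine Finset.sum_congr rfl fun n _ => ?_
  have h1 : ((Equiv.mulLeft b).trans (Equiv.mulRight c⁻¹)) n = b * n * c⁻¹ := rfl
  rw [h1, hw, map_mul, map_mul, map_inv, hb]
  have h2 : y * (y⁻¹ * ι c * y * ι n * (ι c)⁻¹) = ι c * (y * ι n) * (ι c)⁻¹ := by group
  rw [h2]
  have h3 : (ι c * x * (ι c)⁻¹ = ι c * (y * ι n) * (ι c)⁻¹) ↔ x = y * ι n := by
    constructor
    · intro h
      exact mul_left_cancel (mul_right_cancel h)
    · intro h
      rw [h]
  simp only [h3]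

theorem lf_sum [Fintype G] (ι : H →* G) (y : G) (w : H → ℤ) (F : G → ℂ) :
    ∑ x, ((lf ι y w x : ℤ) : ℂ) * F x = ∑ n, ((w n : ℤ) : ℂ) * F (y * ι n) := by
  classical
  unfold lf
  simp only [Int.cast_sum, Finset.sum_mul]
  rw [Finset.sum_comm]
  refine Finset.sum_congr rfl fun n _ => ?_
  rw [Finset.sum_eq_single (y * ι n)]
  · rw [if_pos rfl]
  · intro x _ hx
    rw [if_neg hx, Int.cast_zero, zero_mul]
  · intro h
    exact absurd (Finset.mem_univ _) h

theorem lf_ne {ι : H →* G} {y : G} {w : H → ℤ} {x : G} (h : ∀ n, x ≠ y * ι n) :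
    lf ι y w x = 0 := by
  classical
  unfold lf
  exact Finset.sum_eq_zero fun n _ => if_neg (h n)

/-- The sum over a coset. -/
theorem cos_sum [Fintype G] (ε : H →* G) (l : G) (E : G → ℂ)
    (hE : ∀ y, l⁻¹ * y ∉ ε.range → E y = 0) :
    ∑ n, E (l * ε n) = (Nat.card ε.ker : ℂ) * ∑ y, E y := by
  classical
  rw [Finset.mul_sum, ← Finset.sum_fiberwise' Finset.univ (fun n => l * ε n) E]
  refine Finset.sum_congr rfl fun y _ => ?_
  by_cases hy : l⁻¹ * y ∈ ε.range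
  · obtain ⟨n0, hn0⟩ := hy
    rw [Finset.sum_const, nsmul_eq_mul]
    congr 2
    have h1 : (Finset.univ.filter (fun i => l * ε i = y)).card =
        Nat.card {i // l * ε i = y} := by
      rw [Nat.card_eq_fintype_card, Fintype.card_subtype]
    rw [h1]
    refine Nat.card_congr
      { toFun := fun i => ⟨n0⁻¹ * i.1, ?_⟩
        invFun := fun k => ⟨n0 * k.1, ?_⟩
        left_inv := fun i => Subtype.ext (mul_inv_cancel_left _ _)
        right_inv := fun k => Subtype.ext (inv_mul_cancel_left _ _) }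
    · have h2 : ε i.1 = l⁻¹ * y := eq_inv_mul_of_mul_eq i.2
      rw [MonoidHom.mem_ker, map_mul, map_inv, hn0, h2, inv_mul_cancel]
    · have h2 : ε k.1 = 1 := k.2
      rw [map_mul, h2, hn0, mul_one, mul_inv_cancel_left]
  · rw [hE y hy]
    simp

end Lf

/-! ### Twists -/

section Tw

variable {L K K1 Q L1 Ω : Type} [Group L] [Group K] [Group K1] [Group Q] [Group L1]
  [Fintype Ω] {π : L →* K} {μ : π.ker →* ℂˣ} {φ : K →* Gam (Equiv.Perm Ω) Ω K1} {q : Q →* K1}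
  {α : K1 →* MulAut Q} {ε : (Ω → Q) →* L} {μQ : q.ker →* ℂˣ} {π1 : L1 →* K1}
  {μ1 : π1.ker →* ℂˣ} {ι : Q →* L1}

/-- Elements with the same image act in the same way. -/
theorem cj_eq (hc : π1.ker ≤ Subgroup.center L1) {a b : L1} (h : π1 a = π1 b) (x : L1) :
    a * x * a⁻¹ = b * x * b⁻¹ := by
  have h1 : b⁻¹ * a ∈ π1.ker := by
    rw [MonoidHom.mem_ker, map_mul, map_inv, h, inv_mul_cancel]
  have h2 : b⁻¹ * a * x = x * (b⁻¹ * a) := (Subgroup.mem_center_iff.mp (hc h1) x).symm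
  calc a * x * a⁻¹ = b * (b⁻¹ * a * x) * a⁻¹ := by group
    _ = b * x * b⁻¹ := by
      rw [h2]
      group

theorem iota_tw (ld : LD q α μQ π1 μ1 ι) (y : L1) (c : Q) :
    ι (α (π1 y)⁻¹ c) = y⁻¹ * ι c * y := by
  have h := ld.ια y⁻¹ c
  rw [map_inv, inv_inv] at h
  exact h

theorem eps_tw (wd : WD π μ φ q α ε μQ) {l : L} (hr : (φ (π l)).right = 1) {y : Ω → L1}
    (hy : ∀ o, π1 (y o) = (φ (π l)).left o) (c : Ω → Q) :
    ε (fun o => α (π1 (y o))⁻¹ (c o)) = l⁻¹ * ε c * l := by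
  have h1 := wd.cj l (fun o => α (π1 (y o))⁻¹ (c o))
  have h2 : wB α Ω (φ (π l)) (fun o => α (π1 (y o))⁻¹ (c o)) = c := by
    funext o
    rw [wB_apply, hr, inv_one, one_smul, ← hy o, ← MulAut.mul_apply, ← map_mul,
      mul_inv_cancel, map_one, MulAut.one_apply]
  rw [h2] at h1
  rw [h1]
  group

theorem u_tw (wd : WD π μ φ q α ε μQ) {l : L} (hr : (φ (π l)).right = 1) {y : Ω → L1}
    (hy : ∀ o, π1 (y o) = (φ (π l)).left o) {u : L → ℤ} (hu : CIv ((NN' π ε).comap π) u)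
    (c n : Ω → Q) :
    u (l * ε (fun o => α (π1 (y o))⁻¹ (c o) * n o * (c o)⁻¹)) = u (l * ε n) := by
  have h1 : (fun o => α (π1 (y o))⁻¹ (c o) * n o * (c o)⁻¹) =
    (fun o => α (π1 (y o))⁻¹ (c o)) * n * c⁻¹ := rfl
  rw [h1, map_mul, map_mul, map_inv, eps_tw wd hr hy c]
  have h2 : l * (l⁻¹ * ε c * l * ε n * (ε c)⁻¹) = ε c * (l * ε n) * (ε c)⁻¹ := by group
  rw [h2]
  exact hu _ (Subgroup.mem_map_of_mem π ⟨c, rfl⟩) _

theorem eps_ker (wd : WD π μ φ q α ε μQ) (z : Ω → q.ker) :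
    ε (fun o => (z o : Q)) = 1 ↔ ∏ o, μQ (z o) = 1 := by
  have h1 : π (ε (fun o => (z o : Q))) = 1 := by
    apply wd.φi
    rw [wd.φε, map_one]
    have h2 : (fun o => q (z o : Q)) = 1 := by
      funext o
      exact (z o).2
    rw [h2]
    exact map_one _
  have h3 : μ ⟨ε (fun o => (z o : Q)), h1⟩ = ∏ o, μQ (z o) := wd.με _ (fun o => (z o).2) h1
  rw [← h3]
  constructor
  · intro h
    have h4 : (⟨ε (fun o => (z o : Q)), h1⟩ : π.ker) = 1 := Subtype.ext h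
    rw [h4, map_one]
  · intro h
    have h4 : (⟨ε (fun o => (z o : Q)), h1⟩ : π.ker) = 1 := wd.μi (by rw [h, map_one])
    exact congrArg Subtype.val h4

theorem ker_q (wd : WD π μ φ q α ε μQ) {n : Ω → Q} (hn : ε n = 1) (o : Ω) : n o ∈ q.ker := by
  have h1 := wd.φε n
  rw [hn, map_one, map_one] at h1
  have h2 := congrFun (congrArg SemidirectProduct.left h1) o
  exact h2.symm

theorem card_ker (wd : WD π μ φ q α ε μQ) :
    Nat.card {z : Ω → q.ker // ∏ o, μQ (z o) = 1} = Nat.card ε.ker := by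
  refine Nat.card_congr
    { toFun := fun z => ⟨fun o => (z.1 o : Q), (eps_ker wd z.1).mpr z.2⟩
      invFun := fun n => ⟨fun o => ⟨n.1 o, ker_q wd n.2 o⟩, (eps_ker wd _).mp n.2⟩
      left_inv := fun z => rfl
      right_inv := fun n => rfl }

/-- The function on the coset of `y` is invariant. -/
theorem lf_civ [Fintype Q] (ld : LD q α μQ π1 μ1 ι) (y : L1) (w : Q → ℤ)
    (hw : ∀ a n, w (α (π1 y)⁻¹ a * n * a⁻¹) = w n) : CIv (q.range.comap π1) (lf ι y w) := by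
  intro s hs x
  obtain ⟨c, hc⟩ := hs
  have h1 : π1 s = π1 (ι c) := by rw [ld.πι, hc]
  rw [cj_eq ld.c h1]
  exact lf_conj ι y w (α (π1 y)⁻¹ c) c (iota_tw ld y c) (fun n => hw c n) x

theorem lf_son [Fintype Q] (ld : LD q α μQ π1 μ1 ι) (y : L1) (w : Q → ℤ) :
    SOn {t | π1 (y⁻¹ * t) ∈ q.range} (lf ι y w) := by
  intro x hx
  apply lf_ne
  intro n hn
  apply hx
  refine ⟨n, ?_⟩
  rw [hn, inv_mul_cancel_left, ld.πι]

theorem lf_val [Fintype Q] [Fintype L1] (y : L1) (w : Q → ℤ) (F : L1 → ℂ) :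
    (∑ n, ((w n : ℤ) : ℂ) * (F (y * ι n) / F 1)) =
      (∑ x, ((lf ι y w x : ℤ) : ℂ) * F x) / F 1 := by
  rw [lf_sum, Finset.sum_div]
  refine Finset.sum_congr rfl fun n _ => ?_
  rw [mul_div_assoc]

theorem Phi_z (ld : LD q α μQ π1 μ1 ι) {F : L1 → ℂ} (hov : Ov π1 μ1 F) (y : L1) (z : q.ker)
    (n : Q) : F (y * ι (z * n)) = ((μQ z : ℂˣ) : ℂ) * F (y * ι n) := by
  have h1 : ι (z : Q) ∈ π1.ker := by
    rw [MonoidHom.mem_ker, ld.πι]
    exact z.2
  have h2 : y * ι (z : Q) = ι (z : Q) * y := Subgroup.mem_center_iff.mp (ld.c h1) y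
  rw [map_mul, ← mul_assoc, h2, mul_assoc, ← ld.μι z h1]
  exact hov ⟨ι (z : Q), h1⟩ _

theorem lam [Fintype Q] [Fintype L1] (h2 : Stmt_PRC) {𝔐 : Ideal (integralClosure ℤ ℂ)} {ℓ : ℕ}
    [Fact ℓ.Prime] (hmax : 𝔐.IsMaximal) (hℓ : (ℓ : integralClosure ℤ ℂ) ∈ 𝔐)
    (wd : WD π μ φ q α ε μQ) (ld : LD q α μQ π1 μ1 ι) {M1 S : Subgroup K1}
    (hqM : q.range ≤ M1) (hqn : q.range.Normal) {F : L1 → ℂ} (hF : EF π1 q.range M1 S F)
    (hov : Ov π1 μ1 F) {l : L} (hr : (φ (π l)).right = 1) {y : Ω → L1}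
    (hy : ∀ o, π1 (y o) = (φ (π l)).left o) (hyM : ∀ o, π1 (y o) ∈ M1) {u : L → ℤ}
    (hu : CIv ((NN' π ε).comap π) u) :
    IsIntegral ℤ (psm ε ι F u (l, gin y)) ∧ ∀ o0, (∀ U : L1 → ℤ, CIv (q.range.comap π1) U →
      SOn {t | π1 ((y o0)⁻¹ * t) ∈ q.range} U → sc 𝔐 F U = 0) →
      red 𝔐 (psm ε ι F u (l, gin y)) = 0 := by
  classical
  have hcard := card_ker wd
  -- the functions
  have hQ : q.ker ≤ Subgroup.center Q := by
    intro x hx
    rw [Subgroup.mem_center_iff]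
    intro a
    have h3 := wd.qα x a
    rw [MonoidHom.mem_ker.mp hx, map_one, MulAut.one_apply] at h3
    exact (eq_mul_inv_iff_mul_eq.mp h3)
  have hβ : ∀ o, ∀ z ∈ q.ker, (α (π1 (y o))⁻¹) z = z := fun o z hz => wd.αz _ z hz
  have hΦ : ∀ o (z : q.ker) n, F (y o * ι (z * n)) / F 1 =
      ((μQ z : ℂˣ) : ℂ) * (F (y o * ι n) / F 1) := by
    intro o z n
    rw [Phi_z ld hov, mul_div_assoc]
  have hint : ∀ o (w : Q → ℤ), (∀ a n, w (α (π1 (y o))⁻¹ a * n * a⁻¹) = w n) →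
      IsIntegral ℤ (∑ n, ((w n : ℤ) : ℂ) * (F (y o * ι n) / F 1)) := by
    intro o w hw
    rw [lf_val]
    exact RIU.lam_int ld.s hqM hF (lf_civ ld (y o) w hw) (hyM o) (lf_son ld (y o) w)
  have hval : ∀ (u : L → ℤ), (∑ n : Ω → Q, ((u (l * ε n) : ℤ) : ℂ) *
      ∏ o, (F (y o * ι (n o)) / F 1)) / Nat.card {z : Ω → q.ker // ∏ o, μQ (z o) = 1} =
      psm ε ι F u (l, gin y) := by
    intro u
    rw [hcard]
    unfold psm
    have h3 : ∀ n : Ω → Q, ∏ o, (F (y o * ι (n o)) / F 1) =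
        (∏ o, F (y o * ι (n o))) / F 1 ^ Fintype.card Ω := by
      intro n
      rw [Finset.prod_div_distrib, Finset.prod_const, Finset.card_univ]
    simp only [h3]
    have h4 : ∀ n : Ω → Q, ((u (l * ε n) : ℤ) : ℂ) *
        ((∏ o, F (y o * ι (n o))) / F 1 ^ Fintype.card Ω) =
        (((u (l * ε n) : ℤ) : ℂ) * ∏ o, F (y o * ι (n o))) / F 1 ^ Fintype.card Ω := by
      intro n
      rw [mul_div_assoc]
    simp only [h4]
    rw [← Finset.sum_div, div_div, mul_comm (F 1 ^ Fintype.card Ω)]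
    rfl
  constructor
  · rw [← hval]
    exact (h2 Q Ω 𝔐 ℓ hmax hℓ q.ker μQ hQ wd.μQi (fun o => α (π1 (y o))⁻¹) hβ
      (fun o n => F (y o * ι n) / F 1) (fun o n => F (y o * ι n) / F 1) hΦ hΦ
      (fun o w hw => ⟨hint o w hw, hint o w hw, rfl⟩) (fun n => u (l * ε n))
      (fun c n => u_tw wd hr hy hu c n) (fun z n hz => by
        have h3 : (fun o => (z o : Q) * n o) = (fun o => (z o : Q)) * n := rfl
        show u (l * ε (fun o => (z o : Q) * n o)) = u (l * ε n)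
        rw [h3, map_mul, (eps_ker wd z).mpr hz, one_mul])).1
  · intro o0 h0
    rw [← hval]
    have h5 := (h2 Q Ω 𝔐 ℓ hmax hℓ q.ker μQ hQ wd.μQi (fun o => α (π1 (y o))⁻¹) hβ
      (fun o n => F (y o * ι n) / F 1)
      (fun o n => if o = o0 then 0 else F (y o * ι n) / F 1) hΦ
      (fun o z n => by
        by_cases ho : o = o0
        · simp [ho]
        · simp only [ho, if_false]
          exact hΦ o z n)
      (fun o w hw => by
        by_cases ho : o = o0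
        · subst ho
          simp only [if_true, mul_zero, Finset.sum_const_zero]
          refine ⟨hint o w hw, isIntegral_zero, ?_⟩
          rw [red_zero, lf_val]
          exact h0 _ (lf_civ ld (y o) w hw) (lf_son ld (y o) w)
        · simp only [ho, if_false]
          exact ⟨hint o w hw, hint o w hw, trivial⟩) (fun n => u (l * ε n))
      (fun c n => u_tw wd hr hy hu c n) (fun z n hz => by
        have h3 : (fun o => (z o : Q) * n o) = (fun o => (z o : Q)) * n := rfl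
        show u (l * ε (fun o => (z o : Q) * n o)) = u (l * ε n)
        rw [h3, map_mul, (eps_ker wd z).mpr hz, one_mul])).2
    rw [h5]
    have h6 : ∀ n : Ω → Q, (∏ o, (fun o n => if o = o0 then (0 : ℂ) else
        F (y o * ι n) / F 1) o (n o)) = 0 := by
      intro n
      apply Finset.prod_eq_zero (Finset.mem_univ o0)
      simp
    simp only [h6, mul_zero, Finset.sum_const_zero, zero_div]
    exact red_zero 𝔐

theorem mem_eps (wd : WD π μ φ q α ε μQ) {x : L} : π x ∈ NN' π ε ↔ x ∈ ε.range := by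
  constructor
  · rintro ⟨t, ht, htx⟩
    have h1 : t⁻¹ * x ∈ π.ker := by
      rw [MonoidHom.mem_ker, map_mul, map_inv, htx, inv_mul_cancel]
    have h2 := ε.range.mul_mem ht (wd.kr h1)
    rwa [mul_inv_cancel_left] at h2
  · intro h
    exact Subgroup.mem_map_of_mem π h

theorem left_mul (wd : WD π μ φ q α ε μQ) {l : L} (hr : (φ (π l)).right = 1) (n : Ω → Q)
    (o : Ω) : (φ (π (l * ε n))).left o = (φ (π l)).left o * q (n o) := by
  rw [map_mul, map_mul, wd.φε]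
  change (φ (π l)).left o * q (n ((φ (π l)).right⁻¹ • o)) = _
  rw [hr, inv_one, one_smul]

omit [Fintype Ω] in
theorem left_inv' {k : K} (hr : (φ k).right = 1) (o : Ω) :
    (φ k⁻¹).left o = ((φ k).left o)⁻¹ := by
  rw [map_inv]
  change ((φ k).left ((φ k).right⁻¹⁻¹ • o))⁻¹ = _
  rw [hr, inv_one, inv_one, one_smul]

/-- The product over the coordinates. -/
noncomputable def Ft (Ω : Type) [Fintype Ω] (F : L1 → ℂ) (x : Ω → L1) : ℂ := ∏ o, F (x o)

theorem f_val (wd : WD π μ φ q α ε μQ) (ld : LD q α μQ π1 μ1 ι) {F : L1 → ℂ} {f : L → ℂ}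
    (hfε : ∀ n : Ω → Q, f (ε n) = ∏ o, F (ι (n o))) {l : L} (hr : (φ (π l)).right = 1)
    {y : Ω → L1} (hy : ∀ o, π1 (y o) = (φ (π l)).left o) (n n' : Ω → Q) :
    f (l * ε n * (l⁻¹ * ε n')) = Ft Ω F (y * ι.compLeft Ω n * (y⁻¹ * ι.compLeft Ω n')) := by
  have h1 : l * ε n * (l⁻¹ * ε n') = ε (wB α Ω (φ (π l)) n * n') := by
    rw [map_mul, wd.cj]
    group
  rw [h1, hfε]
  unfold Ft
  refine Finset.prod_congr rfl fun o _ => ?_
  congr 1
  have h2 : (wB α Ω (φ (π l)) n * n') o = α (π1 (y o)) (n o) * n' o := by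
    rw [Pi.mul_apply, wB_apply, hr, inv_one, one_smul, hy]
  rw [h2, map_mul, ld.ια]
  change y o * ι (n o) * (y o)⁻¹ * ι (n' o) = y o * ι (n o) * ((y o)⁻¹ * ι (n' o))
  group

theorem mem_iff (wd : WD π μ φ q α ε μQ) (ld : LD q α μQ π1 μ1 ι) {M1 S : Subgroup K1}
    (hqM : q.range ≤ M1) {T : Subgroup K} (hT : ∀ k, k ∈ T ↔ ∀ o, (φ k).left o ∈ S) {l : L}
    (hr : (φ (π l)).right = 1) {y : Ω → L1} (hy : ∀ o, π1 (y o) = (φ (π l)).left o)
    (hyM : ∀ o, π1 (y o) ∈ M1) (n : Ω → Q) :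
    π (l * ε n) ∈ T ↔ y * ι.compLeft Ω n ∈ pK (fun _ : Ω => AL π1 M1 S) := by
  rw [hT, mem_pK]
  refine forall_congr' fun o => ?_
  rw [left_mul wd hr]
  have h1 : π1 ((y * ι.compLeft Ω n) o) = (φ (π l)).left o * q (n o) := by
    change π1 (y o * ι (n o)) = _
    rw [map_mul, hy, ld.πι]
  rw [← h1]
  constructor
  · intro h
    refine ⟨?_, h⟩
    change π1 (y o * ι (n o)) ∈ M1
    rw [map_mul, ld.πι]
    exact M1.mul_mem (hyM o) (hqM ⟨_, rfl⟩)
  · intro h
    exact h.2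

theorem Ft_not {T : Ω → Subgroup L1} {F : L1 → ℂ} (hF : ∀ o x, x ∉ T o → F x = 0) {x : Ω → L1}
    (hx : x ∉ pK T) : Ft Ω F x = 0 := by
  rw [mem_pK, not_forall] at hx
  obtain ⟨o, ho⟩ := hx
  exact Finset.prod_eq_zero (Finset.mem_univ o) (hF o _ ho)

open Classical in
theorem schurF [Fintype Q] [Fintype L1] (wd : WD π μ φ q α ε μQ) (ld : LD q α μQ π1 μ1 ι)
    {M1 S : Subgroup K1} (hqM : q.range ≤ M1) {F : L1 → ℂ} (hF : EF π1 q.range M1 S F)
    {l : L} (hr : (φ (π l)).right = 1) {y : Ω → L1} (hy : ∀ o, π1 (y o) = (φ (π l)).left o)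
    {u : L → ℤ} (hu : CIv ((NN' π ε).comap π) u) {g : Ω → L1}
    (hg : g ∈ pK (fun _ : Ω => AL π1 M1 S)) :
    ∑ n : Ω → Q, ((u (l * ε n) : ℤ) : ℂ) * Ft Ω F (y * ι.compLeft Ω n * g) =
      ((∑ n : Ω → Q, ((u (l * ε n) : ℤ) : ℂ) * Ft Ω F (y * ι.compLeft Ω n)) / Ft Ω F 1) *
        Ft Ω F g := by
  classical
  have hle : AL π1 q.range S ≤ AL π1 M1 S := RIU.al_le hqM
  have h1 := schurA (pK (fun _ : Ω => AL π1 q.range S)) (pK (fun _ : Ω => AL π1 M1 S))
    (fun x hx => mem_pK.mpr fun o => hle (mem_pK.mp hx o)) (Ft Ω F)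
    (IRRPI.one_part (fun _ : Ω => AL π1 M1 S) (fun _ => F) (fun _ => hF.irr))
    (fun x hx => Ft_not (fun _ => hF.irr.2) hx)
    ((isIrr_prodFn (fun _ : Ω => hF.res)).comp_mulEquiv
      (pKEquiv (fun _ : Ω => AL π1 q.range S)).symm)
    (fun x => ((lf (ι.compLeft Ω) y (fun n => u (l * ε n)) x : ℤ) : ℂ)) ?_ g hg
  · rw [lf_sum (F := fun t => Ft Ω F (t * g)), lf_sum] at h1
    exact h1
  · intro a ha x
    rw [mem_pK] at ha
    have h2 : ∀ o, ∃ c, q c = π1 (a o) := fun o => (ha o).1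
    choose c hc using h2
    have h3 : a * x * a⁻¹ = ι.compLeft Ω c * x * (ι.compLeft Ω c)⁻¹ := by
      funext o
      apply cj_eq ld.c
      rw [← hc o]
      exact (ld.πι _).symm
    rw [h3, lf_conj (ι.compLeft Ω) y _ (fun o => α (π1 (y o))⁻¹ (c o)) c]
    · funext o
      exact iota_tw ld (y o) (c o)
    · intro n
      exact u_tw wd hr hy hu c n

open Classical in
theorem cut [Fintype Q] [Fintype L1] (wd : WD π μ φ q α ε μQ) (ld : LD q α μQ π1 μ1 ι)
    {M1 S : Subgroup K1} (hqM : q.range ≤ M1) {F : L1 → ℂ} (hF : EF π1 q.range M1 S F)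
    {T : Subgroup K} (hT : ∀ k, k ∈ T ↔ ∀ o, (φ k).left o ∈ S)
    {l : L} (hr : (φ (π l)).right = 1) {y : Ω → L1} (hy : ∀ o, π1 (y o) = (φ (π l)).left o)
    (hyM : ∀ o, π1 (y o) ∈ M1) {u : L → ℤ} (hu : CIv ((NN' π ε).comap π) u) (g : Ω → L1) :
    (∑ n : Ω → Q, (if π (l * ε n) ∈ T then ((u (l * ε n) : ℤ) : ℂ) else 0) *
      Ft Ω F (y * ι.compLeft Ω n * g)) =
      ((∑ n : Ω → Q, ((u (l * ε n) : ℤ) : ℂ) * Ft Ω F (y * ι.compLeft Ω n)) / Ft Ω F 1) *
        Ft Ω F g := by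
  classical
  have h0 : ∀ x : Ω → L1, x ∉ pK (fun _ : Ω => AL π1 M1 S) → Ft Ω F x = 0 :=
    fun x hx => Ft_not (fun _ => hF.irr.2) hx
  by_cases hg : g ∈ pK (fun _ : Ω => AL π1 M1 S)
  · rw [← schurF wd ld hqM hF hr hy hu hg]
    refine Finset.sum_congr rfl fun n _ => ?_
    split_ifs with h
    · rfl
    · rw [mem_iff wd ld hqM hT hr hy hyM] at h
      rw [h0 (y * ι.compLeft Ω n * g), mul_zero, mul_zero]
      intro h2
      apply h
      have h3 := (pK (fun _ : Ω => AL π1 M1 S)).mul_mem h2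
        ((pK (fun _ : Ω => AL π1 M1 S)).inv_mem hg)
      rwa [mul_inv_cancel_right] at h3
  · rw [h0 g hg, mul_zero]
    refine Finset.sum_eq_zero fun n _ => ?_
    split_ifs with h
    · rw [mem_iff wd ld hqM hT hr hy hyM] at h
      rw [h0 (y * ι.compLeft Ω n * g), mul_zero]
      intro h2
      apply hg
      have h3 := (pK (fun _ : Ω => AL π1 M1 S)).mul_mem
        ((pK (fun _ : Ω => AL π1 M1 S)).inv_mem h) h2
      rwa [inv_mul_cancel_left] at h3
    · rw [zero_mul]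

theorem num [Fintype Q] [Fintype L] [Fintype L1] (wd : WD π μ φ q α ε μQ)
    (ld : LD q α μQ π1 μ1 ι) {M1 S : Subgroup K1} (hqM : q.range ≤ M1) {F : L1 → ℂ}
    (hF : EF π1 q.range M1 S F) {T : Subgroup K} (hT : ∀ k, k ∈ T ↔ ∀ o, (φ k).left o ∈ S)
    {f : L → ℂ} (hfε : ∀ n : Ω → Q, f (ε n) = ∏ o, F (ι (n o))) {l : L}
    (hr : (φ (π l)).right = 1) {y : Ω → L1} (hy : ∀ o, π1 (y o) = (φ (π l)).left o)
    (hyM : ∀ o, π1 (y o) ∈ M1) {u v : L → ℤ} (hu : CIv ((NN' π ε).comap π) u)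
    (hu' : SOn {x | π (l⁻¹ * x) ∈ NN' π ε} u) (hv' : SOn {x | π (l * x) ∈ NN' π ε} v) :
    (∑ x, (((∑ z : L, open Classical in if π z ∈ T then u z * v (z⁻¹ * x) else 0) : ℤ) : ℂ) *
      f x) / f 1 = psm ε ι F u (l, gin y) * psm ε ι F v (l⁻¹, gin (fun o => (y o)⁻¹)) := by
  classical
  have hf1 : f 1 = Ft Ω F 1 := by
    have h1 := hfε 1
    rw [map_one] at h1
    rw [h1]
    unfold Ft
    refine Finset.prod_congr rfl fun o _ => ?_
    rw [Pi.one_apply, map_one]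
    rfl
  have hFt1 : Ft Ω F 1 = F 1 ^ Fintype.card Ω := by
    unfold Ft
    simp
  have hF1 : F 1 ≠ 0 := hF.irr.1.one_ne_zero
  have hκ : (Nat.card ε.ker : ℂ) ≠ 0 := by
    have := Nat.card_pos (α := ε.ker)
    exact_mod_cast this.ne'
  -- the double sum
  have h1 : ∑ x, (((∑ z : L, if π z ∈ T then u z * v (z⁻¹ * x) else 0) : ℤ) : ℂ) * f x =
      ∑ z, (if π z ∈ T then ((u z : ℤ) : ℂ) else 0) *
        ∑ x, ((v x : ℤ) : ℂ) * f (z * x) := by
    simp only [Int.cast_sum, Finset.sum_mul]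
    rw [Finset.sum_comm]
    refine Finset.sum_congr rfl fun z _ => ?_
    rw [Finset.mul_sum, ← Equiv.sum_comp (Equiv.mulLeft z)]
    refine Finset.sum_congr rfl fun x _ => ?_
    rw [Equiv.coe_mulLeft, inv_mul_cancel_left]
    split_ifs
    · push_cast
      ring
    · simp
  have h2 : (Nat.card ε.ker : ℂ) * ∑ z, (if π z ∈ T then ((u z : ℤ) : ℂ) else 0) *
        ∑ x, ((v x : ℤ) : ℂ) * f (z * x) =
      ∑ n : Ω → Q, (if π (l * ε n) ∈ T then ((u (l * ε n) : ℤ) : ℂ) else 0) *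
        ∑ x, ((v x : ℤ) : ℂ) * f (l * ε n * x) := by
    rw [← cos_sum ε l (fun z => (if π z ∈ T then ((u z : ℤ) : ℂ) else 0) *
        ∑ x, ((v x : ℤ) : ℂ) * f (z * x))]
    intro x hx
    have h3 : u x = 0 := hu' x (fun h => hx ((mem_eps wd).mp h))
    rw [h3]
    simp
  have h3 : ∀ n : Ω → Q, (Nat.card ε.ker : ℂ) * ∑ x, ((v x : ℤ) : ℂ) * f (l * ε n * x) =
      ∑ n' : Ω → Q, ((v (l⁻¹ * ε n') : ℤ) : ℂ) *
        Ft Ω F (y * ι.compLeft Ω n * (y⁻¹ * ι.compLeft Ω n')) := by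
    intro n
    rw [← cos_sum ε l⁻¹ (fun x => ((v x : ℤ) : ℂ) * f (l * ε n * x))]
    · refine Finset.sum_congr rfl fun n' _ => ?_
      rw [f_val wd ld hfε hr hy]
    · intro x hx
      rw [inv_inv] at hx
      have h4 : v x = 0 := hv' x (fun h => hx ((mem_eps wd).mp h))
      rw [h4]
      simp
  have h4 : (Nat.card ε.ker : ℂ) * ((Nat.card ε.ker : ℂ) *
      ∑ x, (((∑ z : L, if π z ∈ T then u z * v (z⁻¹ * x) else 0) : ℤ) : ℂ) * f x) =
      ((∑ n : Ω → Q, ((u (l * ε n) : ℤ) : ℂ) * Ft Ω F (y * ι.compLeft Ω n)) / Ft Ω F 1) *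
        ∑ n' : Ω → Q, ((v (l⁻¹ * ε n') : ℤ) : ℂ) * Ft Ω F (y⁻¹ * ι.compLeft Ω n') := by
    rw [h1, h2, Finset.mul_sum]
    have h5 : ∀ n : Ω → Q, (Nat.card ε.ker : ℂ) *
        ((if π (l * ε n) ∈ T then ((u (l * ε n) : ℤ) : ℂ) else 0) *
          ∑ x, ((v x : ℤ) : ℂ) * f (l * ε n * x)) =
        ∑ n' : Ω → Q, ((v (l⁻¹ * ε n') : ℤ) : ℂ) *
          ((if π (l * ε n) ∈ T then ((u (l * ε n) : ℤ) : ℂ) else 0) *
            Ft Ω F (y * ι.compLeft Ω n * (y⁻¹ * ι.compLeft Ω n'))) := by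
      intro n
      rw [mul_left_comm, h3, Finset.mul_sum]
      refine Finset.sum_congr rfl fun n' _ => ?_
      ring
    rw [Finset.sum_congr rfl fun n _ => h5 n, Finset.sum_comm, Finset.mul_sum]
    refine Finset.sum_congr rfl fun n' _ => ?_
    rw [← Finset.mul_sum, cut wd ld hqM hF hT hr hy hyM hu]
    ring
  have h5 : psm ε ι F u (l, gin y) = (∑ n : Ω → Q, ((u (l * ε n) : ℤ) : ℂ) *
      Ft Ω F (y * ι.compLeft Ω n)) / (Nat.card ε.ker * F 1 ^ Fintype.card Ω) := rfl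
  have h6 : psm ε ι F v (l⁻¹, gin (fun o => (y o)⁻¹)) = (∑ n' : Ω → Q,
      ((v (l⁻¹ * ε n') : ℤ) : ℂ) * Ft Ω F (y⁻¹ * ι.compLeft Ω n')) /
      (Nat.card ε.ker * F 1 ^ Fintype.card Ω) := rfl
  have hD : F 1 ^ Fintype.card Ω ≠ 0 := pow_ne_zero _ hF1
  rw [h5, h6, hf1]
  rw [hFt1] at h4 ⊢
  field_simp
  field_simp at h4
  linear_combination h4

end Tw

end SUL

theorem SUL_thm (h1 : Stmt_CHB) (h2 : Stmt_PRC) (h3 : Stmt_CST) : Stmt_SUL := by
  classical
  intro L K K1 Q L1 Ω _ _ _ _ _ _ _ _ _ _ _ _ 𝔐 ℓ _ hmax hℓ π μ φ q α ε μQ π1 μ1 ι M M1 wd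
    ld mm σr Fr hσ hF hov f hf hfε hsp x0 hx0
  by_contra hno
  obtain ⟨hN, hqn, hC⟩ := h3 L K K1 Q Ω ℓ π μ φ q α ε μQ wd
  obtain ⟨hch, -, -, hst, -⟩ := hC σr hσ
  -- the elements
  have o0 : Ω := Classical.arbitrary Ω
  obtain ⟨m, hm, hmo⟩ := mm.s o0 (π1 x0) hx0
  obtain ⟨l, rfl⟩ := wd.πs m
  have hr : (φ (π l)).right = 1 := mm.r _ hm
  have h4 : ∀ o, ∃ y : L1, π1 y = (φ (π l)).left o := fun o => ld.s _
  choose y' hy' using h4
  have hex : ∃ y : Ω → L1, (∀ o, π1 (y o) = (φ (π l)).left o) ∧ y o0 = x0 := by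
    refine ⟨Function.update y' o0 x0, ?_, Function.update_self _ _ _⟩
    intro o
    by_cases ho : o = o0
    · subst ho
      rw [Function.update_self, hmo]
    · rw [Function.update_of_ne ho]
      exact hy' o
  obtain ⟨y, hy, hy0⟩ := hex
  have hyM : ∀ o, π1 (y o) ∈ M1 := by
    intro o
    rw [hy]
    exact mm.l _ hm o
  obtain ⟨u, v, hu, hv, hus, hvs, hne⟩ := hsp l hm
  apply hne
  -- the inverse
  have hr' : (φ (π l⁻¹)).right = 1 := by
    rw [map_inv, map_inv, SemidirectProduct.inv_right, hr, inv_one]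
  have hy'' : ∀ o, π1 ((fun o => (y o)⁻¹) o) = (φ (π l⁻¹)).left o := by
    intro o
    rw [map_inv π, SUL.left_inv' hr, ← hy o]
    exact map_inv _ _
  have hyM' : ∀ o, π1 ((fun o => (y o)⁻¹) o) ∈ M1 := by
    intro o
    have h5 : π1 ((y o)⁻¹) = (π1 (y o))⁻¹ := map_inv _ _
    show π1 ((y o)⁻¹) ∈ M1
    rw [h5]
    exact M1.inv_mem (hyM o)
  have hL := SUL.lam h2 hmax hℓ wd ld mm.le1 hqn hF hov hr hy hyM hu
  have hL' := SUL.lam h2 hmax hℓ wd ld mm.le1 hqn hF hov hr' hy'' hyM' hv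
  have hL0 := hL.2 o0 (fun U hU hU' => by
    by_contra hU0
    apply hno
    rw [hy0] at hU'
    exact ⟨U, hU, hU', hU0⟩)
  rw [h1 L K 𝔐 ℓ hmax hℓ π wd.πs wd.πc (NN' π ε) (cstC φ (NN' π ε) σr) hch f hf u v hu hv]
  have hnum := SUL.num wd ld mm.le1 hF hst hfε hr hy hyM hu (by
    intro x hx
    exact hus x hx) (by
    intro x hx
    exact hvs x hx)
  unfold sc
  rw [hnum, red_mul 𝔐 hL.1 hL'.1, hL0, zero_mul]

end Pool.Agent.DPG


end
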