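import Mathlib
import Pool.Agent.DAM.C06
import Pool.Agent.DAM.C07
import Pool.Agent.DAM.C08
import Pool.Agent.DAM.C18
import Pool.Agent.DAM.C19
import Pool.Agent.DAM.C24
import Pool.Agent.DAM.C28
import Pool.Agent.DAM.C33

/-! Parts: DPC.BRK, DPC.W0, DPG.AMB, DPG.RFE -/

section

/-!
# Module BRK: the kernel of the restriction to the fixed points
-/

set_option autoImplicit false
set_option linter.unusedSectionVars false
set_option linter.unusedVariables false

namespace Pool.Agent.DPC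

open Pool.Agent.DP Pool.Agent.Lib_helper13 Representation
open Pool.Agent.Lib_helper13.Dade (pCore DadeHolds dadeSum)

namespace BRK

section Cls

variable {G : Type} [Group G] [Fintype G]

open Classical in
/-- The sum of the indicators of the conjugates of `y`. -/
noncomputable def cl (y x : G) : ℂ := ∑ g : G, if g * y * g⁻¹ = x then 1 else 0

theorem cl_conj (y a x : G) : cl y (a * x * a⁻¹) = cl y x := by
  classical
  rw [cl, cl]
  symm
  refine Fintype.sum_equiv (Equiv.mulLeft a) _ _ fun g => ?_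
  have h1 : (Equiv.mulLeft a) g = a * g := rfl
  rw [h1]
  have h2 : (a * g * y * (a * g)⁻¹ = a * x * a⁻¹) ↔ (g * y * g⁻¹ = x) := by
    constructor
    · intro h
      have h3 : g * y * g⁻¹ = a⁻¹ * (a * g * y * (a * g)⁻¹) * a := by group
      rw [h3, h]
      group
    · rintro rfl
      group
  by_cases h : g * y * g⁻¹ = x
  · rw [if_pos h, if_pos (h2.mpr h)]
  · rw [if_neg h, if_neg (fun h' => h (h2.mp h'))]

theorem isIntegral_cl (y x : G) : IsIntegral ℤ (cl y x) := by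
  classical
  rw [cl]
  apply isIntegral_sum
  intro g _
  split_ifs
  · exact isIntegral_one
  · exact isIntegral_zero

theorem sum_cl (y : G) (f : G → ℂ) : ∑ x, cl y x * f x = ∑ g : G, f (g * y * g⁻¹) := by
  classical
  simp only [cl, Finset.sum_mul]
  rw [Finset.sum_comm]
  refine Finset.sum_congr rfl fun g _ => ?_
  rw [Finset.sum_eq_single (g * y * g⁻¹)]
  · rw [if_pos rfl, one_mul]
  · intro b _ hb
    rw [if_neg (Ne.symm hb), zero_mul]
  · intro h
    exact absurd (Finset.mem_univ _) h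

theorem wt_cl {θ : G → ℂ} (hθ : IsIrr θ) (y : G) :
    wt θ (cl y) = (Nat.card G : ℂ) / θ 1 * θ y := by
  rw [wt, sum_cl]
  have h1 : ∀ g : G, θ (g * y * g⁻¹) = θ y := fun g => hθ.conj_eq g y
  simp only [h1]
  rw [Finset.sum_const, Finset.card_univ, nsmul_eq_mul, Nat.card_eq_fintype_card]
  ring

theorem isIntegral_codeg {θ : G → ℂ} (hθ : IsIrr θ) (y : G) :
    IsIntegral ℤ ((Nat.card G : ℂ) / θ 1 * θ y) := by
  rw [← wt_cl hθ]
  exact isIntegral_wt hθ _ (cl_conj y) (isIntegral_cl y)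

/-- The product of the central character at `F` and at the class of `y`. -/
theorem wt_cv {θ : G → ℂ} (hθ : IsIrr θ) (y : G) (F : G → ℂ)
    (hF : ∀ g x, F (g * x * g⁻¹) = F x) :
    wt θ (cv F (cl y)) = ∑ u, F u * ((Nat.card G : ℂ) / θ 1 * θ (u * y)) := by
  have h1 : ∑ x, cv F (cl y) x * θ x = ∑ u, F u * ((Nat.card G : ℂ) * θ (u * y)) := by
    simp only [cv, Finset.sum_mul]
    rw [Finset.sum_comm]
    have h2 : ∀ u : G, ∑ x, F u * cl y (u⁻¹ * x) * θ x = ∑ g : G, F u * θ (u * (g * y * g⁻¹)) := by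
      intro u
      rw [← Finset.mul_sum]
      have h3 : ∑ x, F u * cl y (u⁻¹ * x) * θ x = F u * ∑ z, cl y z * θ (u * z) := by
        rw [Finset.mul_sum]
        refine Fintype.sum_equiv (Equiv.mulLeft u⁻¹) _ _ fun x => ?_
        have h4 : (Equiv.mulLeft u⁻¹) x = u⁻¹ * x := rfl
        rw [h4, mul_inv_cancel_left]
        ring
      rw [h3, sum_cl y (fun z => θ (u * z))]
    simp only [h2]
    rw [Finset.sum_comm]
    have h5 : ∀ g : G, ∑ u, F u * θ (u * (g * y * g⁻¹)) = ∑ u, F u * θ (u * y) := by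
      intro g
      refine Fintype.sum_equiv (MulAut.conj g⁻¹).toEquiv _ _ fun u => ?_
      have h6 : (MulAut.conj g⁻¹).toEquiv u = g⁻¹ * u * g⁻¹⁻¹ := rfl
      rw [h6, hF]
      congr 1
      have h7 : g⁻¹ * u * g⁻¹⁻¹ * y = g⁻¹ * (u * (g * y * g⁻¹)) * g⁻¹⁻¹ := by group
      rw [h7, hθ.conj_eq]
    simp only [h5]
    rw [Finset.sum_const, Finset.card_univ, nsmul_eq_mul, ← Nat.card_eq_fintype_card,
      Finset.mul_sum]
    refine Finset.sum_congr rfl fun u _ => ?_
    ring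
  rw [wt, h1, Finset.sum_div]
  refine Finset.sum_congr rfl fun u _ => ?_
  ring

theorem red_wt_mul (𝔐 : Ideal (integralClosure ℤ ℂ)) {θ : G → ℂ} (hθ : IsIrr θ)
    {f f' : G → ℂ} (hf : ∀ g x, f (g * x * g⁻¹) = f x) (hf' : ∀ g x, f' (g * x * g⁻¹) = f' x)
    (hi : ∀ x, IsIntegral ℤ (f x)) (hi' : ∀ x, IsIntegral ℤ (f' x)) :
    red 𝔐 (wt θ (cv f f')) = red 𝔐 (wt θ f) * red 𝔐 (wt θ f') := by
  classical
  have hψ' : IsIrr (fun s : (⊤ : Subgroup G) => θ (Subgroup.topEquiv s)) :=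
    hθ.comp_mulEquiv Subgroup.topEquiv
  have h1 := red_wt_cv 𝔐 hψ' (multOn_self 𝔐 hψ') hf hf' hi hi'
  have h2 : ∀ F : G → ℂ, wt (fun s : (⊤ : Subgroup G) => θ (Subgroup.topEquiv s))
      (fun s => F (s : G)) = wt θ F := fun F => wt_comp_equiv (Subgroup.topEquiv (G := G)) θ F
  rw [h2, h2, h2] at h1
  exact h1

end Cls

end BRK

open _root_.Pool.Agent.DPC.BRK in
/-- BRK. -/
theorem BRK_thm : Stmt_BRK := by
  intro G B _ _ _ _ 𝔐 ℓ _ h𝔐 hℓ κ P hP θ hθ hθ0 hθP y hy _ hy0 F hF hFP hFi hFx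
  classical
  have hprime : 𝔐.IsPrime := h𝔐.isPrime
  have h1 := red_wt_mul 𝔐 hθ hF (cl_conj y) hFi (isIntegral_cl y)
  -- the right factor does not vanish
  have h2 : red 𝔐 (wt θ (cl y)) ≠ 0 := by
    have hc : IsIntegral ℤ ((Nat.card G : ℂ) / θ 1) := by
      obtain ⟨n, N, hn, hn', hN, _⟩ := exists_codeg hθ hθ0
      have hn0 : (n : ℂ) ≠ 0 := by exact_mod_cast hn.ne'
      have h3 : (Nat.card G : ℂ) / θ 1 = (N : ℂ) := by
        rw [hn', hN]
        push_cast
        field_simp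
      rw [h3]
      exact Pool.Agent.Lib_helper13.isIntegral_natCast N
    rw [wt_cl hθ, red_mul 𝔐 hc (isIntegral_char hθ y)]
    exact mul_ne_zero (red_codeg_ne_zero 𝔐 hℓ hθ hθ0) hy0
  -- the product vanishes
  have h3 : red 𝔐 (wt θ (cv F (cl y))) = 0 := by
    rw [wt_cv hθ y F hF, red_sum 𝔐 _ _ (fun u _ => (hFi u).mul (isIntegral_codeg hθ (u * y)))]
    let _ : MulAction P G :=
      { smul := fun b x => κ (b : B) x
        one_smul := fun x => by
          change κ ((1 : P) : B) x = x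
          simp
        mul_smul := fun a b x => by
          change κ ((a * b : P) : B) x = κ (a : B) (κ (b : B) x)
          rw [Subgroup.coe_mul, map_mul, MulAut.mul_apply] }
    have hsmul : ∀ (b : P) (x : G), b • x = κ (b : B) x := fun _ _ => rfl
    rw [sum_eq_sum_fixed hP (nsmul_quot_eq_zero 𝔐 hℓ)]
    · apply Finset.sum_eq_zero
      intro u hu
      have hu' := (Finset.mem_filter.mp hu).2
      have hux : u ∈ FX κ P := by
        rw [mem_FX]
        intro b hb
        exact hu' ⟨b, hb⟩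
      rw [red_mul 𝔐 (hFi u) (isIntegral_codeg hθ (u * y)), hFx u hux, zero_mul]
    · intro b x
      rw [hsmul, hFP b b.2]
      have h4 : θ (κ (b : B) x * y) = θ (x * y) := by
        have h5 : κ (b : B) y = y := (mem_FX.mp hy) b b.2
        have h6 : κ (b : B) x * y = κ (b : B) (x * y) := by
          rw [map_mul, h5]
        rw [h6, hθP b b.2]
      rw [h4]
  rw [h3] at h1
  rcases mul_eq_zero.mp h1.symm with h | h
  · exact h
  · exact absurd h h2

end Pool.Agent.DPC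


end

section

/-!
# Module W0: the local extension for one coordinate
-/

set_option autoImplicit false
set_option linter.unusedSectionVars false
set_option linter.unusedVariables false

namespace Pool.Agent.DPC

open Pool.Agent.DP Pool.Agent.Lib_helper13 Representation
open Pool.Agent.Lib_helper13.Dade (pCore DadeHolds dadeSum)

namespace W0

section Cls

variable {B H : Type} [Group B] [Group H] (i : H →* B) (y : B)

open Classical in
/-- The indicator of the class of `y` under the image of `i`. -/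
noncomputable def F (x : B) : ℂ := if ∃ h, x = i h * y * (i h)⁻¹ then 1 else 0

theorem F_int (x : B) : IsIntegral ℤ (F i y x) := by
  unfold F
  split_ifs
  · exact isIntegral_one
  · exact isIntegral_zero

theorem F_eq {x x' : B} (h : (∃ h, x = i h * y * (i h)⁻¹) ↔ ∃ h, x' = i h * y * (i h)⁻¹) :
    F i y x = F i y x' := by
  classical
  unfold F
  by_cases h1 : ∃ h, x = i h * y * (i h)⁻¹
  · rw [if_pos h1, if_pos (h.mp h1)]
  · rw [if_neg h1, if_neg (fun h2 => h1 (h.mpr h2))]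

variable [Fintype H]

open Classical in
theorem cnt (x : B) : (Nat.card {h : H // i h * y = y * i h} : ℂ) * F i y x =
    ∑ h : H, if i h * y * (i h)⁻¹ = x then 1 else 0 := by
  rw [Finset.sum_boole]
  unfold F
  split_ifs with hx
  · obtain ⟨h0, hh0⟩ := hx
    rw [mul_one, Nat.card_eq_fintype_card, Fintype.card_subtype]
    congr 1
    refine Finset.card_bij (fun h _ => h0 * h) ?_ ?_ ?_
    · intro h hh
      simp only [Finset.mem_filter, Finset.mem_univ, true_and] at hh ⊢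
      rw [map_mul, hh0, mul_inv_rev]
      have : i h * y * (i h)⁻¹ = y := by rw [hh, mul_inv_cancel_right]
      calc i h0 * i h * y * ((i h)⁻¹ * (i h0)⁻¹) = i h0 * (i h * y * (i h)⁻¹) * (i h0)⁻¹ := by
            group
        _ = i h0 * y * (i h0)⁻¹ := by rw [this]
    · intro a _ b _ hab
      exact mul_left_cancel hab
    · intro h hh
      simp only [Finset.mem_filter, Finset.mem_univ, true_and] at hh
      refine ⟨h0⁻¹ * h, ?_, by group⟩
      simp only [Finset.mem_filter, Finset.mem_univ, true_and]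
      rw [map_mul, map_inv]
      rw [hh0] at hh
      have h2 : i h * y = i h0 * y * (i h0)⁻¹ * i h := by rw [← hh]; group
      rw [mul_assoc, h2]
      group
  · rw [mul_zero]
    symm
    rw [Nat.cast_eq_zero, Finset.card_eq_zero, Finset.filter_eq_empty_iff]
    intro h _ hh
    exact hx ⟨h, hh.symm⟩

theorem key (S : Subgroup B) [Fintype S] (f : B → ℂ) (hS : ∀ h, i h * y * (i h)⁻¹ ∈ S)
    (hf : ∀ h, f (i h * y * (i h)⁻¹) = f y) :
    (Nat.card {h : H // i h * y = y * i h} : ℂ) * ∑ x : S, F i y x * f x =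
      Nat.card H * f y := by
  classical
  rw [Finset.mul_sum]
  have h1 : ∀ x : S, (Nat.card {h : H // i h * y = y * i h} : ℂ) * (F i y x * f x) =
      ∑ h : H, if i h * y * (i h)⁻¹ = x then f x else 0 := by
    intro x
    rw [← mul_assoc, cnt, Finset.sum_mul]
    refine Finset.sum_congr rfl fun h _ => ?_
    split_ifs <;> simp
  rw [Finset.sum_congr rfl fun x _ => h1 x, Finset.sum_comm]
  have h2 : ∀ h : H, (∑ x : S, if i h * y * (i h)⁻¹ = (x : B) then f x else 0) = f y := by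
    intro h
    rw [Finset.sum_eq_single (⟨i h * y * (i h)⁻¹, hS h⟩ : S)]
    · rw [if_pos rfl]
      exact hf h
    · intro b _ hb
      rw [if_neg]
      intro hc
      apply hb
      apply Subtype.ext
      exact hc.symm
    · intro h3
      exact absurd (Finset.mem_univ _) h3
  rw [Finset.sum_congr rfl fun h _ => h2 h]
  rw [Finset.sum_const, Finset.card_univ, nsmul_eq_mul, Nat.card_eq_fintype_card]

end Cls

theorem isIrr_top {Y : Type} [Group Y] [Fintype Y] {K0 : Subgroup Y} (h : K0 = ⊤) {χ : Y → ℂ}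
    (hχ : IsIrr χ) : IsIrr (fun s : K0 => χ s) := by
  subst h
  exact hχ.comp_mulEquiv Subgroup.topEquiv

theorem isIrr_of_res {Y H : Type} [Group Y] [Group H] [Fintype H] (i : H →* Y) {f : Y → ℂ}
    (hf : IsChr f) (h : IsIrr (fun k => f (i k))) : IsIrr f := by
  obtain ⟨n, r, rfl⟩ := hf
  exact ⟨n, r, EXTBR.irr_of_comp i r h, rfl⟩

/-- Integrality of weights. -/
theorem integ {B H : Type} [Group B] [Group H] [Fintype H] (S : Subgroup B) [Fintype S]
    (i : H →* B) (hi : Function.Injective i) (hiS : ∀ h, i h ∈ S)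
    (hn : ∀ b ∈ S, ∀ h, ∃ h', b * i h * b⁻¹ = i h') (f : B → ℂ)
    (hf : IsChr (fun s : S => f s)) (hres : IsIrr (fun h => f (i h))) (F : B → ℂ)
    (hF : ∀ x, IsIntegral ℤ (F x)) (hinv : ∀ h x, F (i h * x * (i h)⁻¹) = F x) :
    IsIntegral ℤ ((∑ x : S, F x * f x) / f 1) := by
  let j : H →* S := i.codRestrict S hiS
  have hj : Function.Injective j := by
    intro a b hab
    exact hi (congrArg Subtype.val hab)
  let N : Subgroup S := j.range
  have hN : N.Normal := by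
    constructor
    rintro _ ⟨h, rfl⟩ g
    obtain ⟨h', hh'⟩ := hn g g.2 h
    exact ⟨h', Subtype.ext hh'.symm⟩
  let e : H ≃* N := MonoidHom.ofInjective hj
  have : Fintype N := Fintype.ofFinite N
  have hcl : ClG (N.subtype : N →* S) (MulAut.conjNormal : S →* MulAut N)
      (QuotientGroup.mk' N) := by
    refine ⟨N.subtype_injective, ?_, ?_⟩
    · intro y a
      exact MulAut.conjNormal_apply y a
    · intro y
      rw [QuotientGroup.mk'_apply, QuotientGroup.eq_one_iff]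
      simp
  have h1 : IsIrr (fun s : S => f s) := isIrr_of_res j hf hres
  have h2 : IsIrr (fun n : N => f ((n : S) : B)) := by
    have h3 := hres.comp_mulEquiv e.symm
    have h4 : (fun h => f (i h)) ∘ e.symm = fun n : N => f ((n : S) : B) := by
      funext n
      obtain ⟨h, rfl⟩ := e.surjective n
      simp only [Function.comp_apply, MulEquiv.symm_apply_apply]
      rfl
    rwa [h4] at h3
  have h5 := INTH_thm N S (S ⧸ N) N.subtype MulAut.conjNormal (QuotientGroup.mk' N) hcl ⊤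
    (fun s : S => f s) ⟨isIrr_top rfl h1, fun x hx => absurd (Subgroup.mem_top x) hx⟩
    ⟨isIrr_top (Subgroup.comap_top _) h2, fun x hx => absurd (by simp) hx⟩
    (fun s : S => F s) (fun x => hF x) (by
      intro h x
      obtain ⟨a, ha⟩ := h.2
      have h6 : ((h : S) : B) = i a := by
        rw [← ha]
        rfl
      show F (((h : S) : B) * (x : B) * ((h : S) : B)⁻¹) = F x
      rw [h6]
      exact hinv a x)
  exact h5

/-- The weight of the indicator of a class. -/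
theorem weight {B H : Type} [Group B] [Group H] [Fintype H] (S : Subgroup B) [Fintype S]
    (i : H →* B) (hi : Function.Injective i) (hiS : ∀ h, i h ∈ S)
    (hn : ∀ b ∈ S, ∀ h, ∃ h', b * i h * b⁻¹ = i h') (f : B → ℂ)
    (hf : IsChr (fun s : S => f s)) (hres : IsIrr (fun h => f (i h))) (y : B) (hy : y ∈ S) :
    ∃ w : ℂ, IsIntegral ℤ w ∧ (Nat.card H : ℂ) / f 1 * f y =
      (Nat.card {h : H // i h * y = y * i h} : ℂ) * w ∧
      ∀ (M : Subgroup B) [Fintype M], (∀ h, i h * y * (i h)⁻¹ ∈ M) →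
        (∑ x : M, F i y x * f x) / f 1 = w := by
  have hfy : ∀ h, f (i h * y * (i h)⁻¹) = f y := fun h =>
    hf.conj_eq (⟨i h, hiS h⟩ : S) ⟨y, hy⟩
  have hyS : ∀ h, i h * y * (i h)⁻¹ ∈ S := fun h =>
    S.mul_mem (S.mul_mem (hiS h) hy) (S.inv_mem (hiS h))
  have hc : (Nat.card {h : H // i h * y = y * i h} : ℂ) ≠ 0 := by
    have : Nonempty {h : H // i h * y = y * i h} := ⟨⟨1, by simp⟩⟩
    have : Nat.card {h : H // i h * y = y * i h} ≠ 0 := Nat.card_pos.ne'
    exact_mod_cast this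
  refine ⟨(∑ x : S, F i y x * f x) / f 1, ?_, ?_, ?_⟩
  · refine integ S i hi hiS hn f hf hres (F i y) (F_int i y) ?_
    intro a x
    refine F_eq i y ?_
    constructor
    · rintro ⟨h, hh⟩
      refine ⟨a⁻¹ * h, ?_⟩
      have : x = (i a)⁻¹ * (i a * x * (i a)⁻¹) * i a := by group
      rw [this, hh]
      simp only [map_mul, map_inv, mul_inv_rev, inv_inv]
      group
    · rintro ⟨h, hh⟩
      refine ⟨a * h, ?_⟩
      rw [hh]
      simp only [map_mul, mul_inv_rev]
      group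
  · have h1 := key i y S f hyS hfy
    rw [mul_div_assoc', h1]
    ring
  · intro M _ hM
    have h1 := key i y S f hyS hfy
    have h2 := key i y M f hM hfy
    have h3 := mul_left_cancel₀ hc (h1.trans h2.symm)
    rw [h3]

section Inv

variable {G B : Type} [Group G] [Group B] (ι : G →* B) (κ : B →* MulAut G)
  (act : ∀ b g, ι (κ b g) = b * ι g * b⁻¹) (y : B)

/-- The elements which preserve the indicator. -/
def Ss {X : Type} (F : B → X) : Subgroup B where
  carrier := {g | ∀ x, F (g * x * g⁻¹) = F x}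
  one_mem' := by
    intro x
    simp
  mul_mem' := by
    intro a b ha hb x
    have : a * b * x * (a * b)⁻¹ = a * (b * x * b⁻¹) * a⁻¹ := by group
    rw [this, ha, hb]
  inv_mem' := by
    intro a ha x
    have h := ha (a⁻¹ * x * a⁻¹⁻¹)
    rw [← h]
    congr 1
    group

include act in
theorem mem_Ss_of_comm {g : B} (hg : g * y = y * g) : g ∈ Ss (F ι y) := by
  have aux : ∀ g : B, g * y = y * g → ∀ x, (∃ h, x = ι h * y * (ι h)⁻¹) →
      ∃ h, g * x * g⁻¹ = ι h * y * (ι h)⁻¹ := by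
    rintro g hg x ⟨h, rfl⟩
    refine ⟨κ g h, ?_⟩
    rw [act]
    have : g⁻¹ * y * g = y := by
      rw [mul_assoc, ← hg, inv_mul_cancel_left]
    calc g * (ι h * y * (ι h)⁻¹) * g⁻¹
        = g * (ι h * (g⁻¹ * y * g) * (ι h)⁻¹) * g⁻¹ := by rw [this]
      _ = g * ι h * g⁻¹ * y * (g * ι h * g⁻¹)⁻¹ := by group
  intro x
  refine F_eq ι y ⟨fun h => ?_, fun h => aux g hg x h⟩
  have hg' : g⁻¹ * y = y * g⁻¹ := by
    have : g * y * g⁻¹ = y := by rw [hg, mul_inv_cancel_right]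
    calc g⁻¹ * y = g⁻¹ * (g * y * g⁻¹) := by rw [this]
      _ = y * g⁻¹ := by group
  have h1 := aux g⁻¹ hg' _ h
  have h2 : g⁻¹ * (g * x * g⁻¹) * g⁻¹⁻¹ = x := by group
  rwa [h2] at h1

theorem mem_Ss_of_range (a : G) : ι a ∈ Ss (F ι y) := by
  intro x
  refine F_eq ι y ⟨?_, ?_⟩
  · rintro ⟨h, hh⟩
    refine ⟨a⁻¹ * h, ?_⟩
    have : x = (ι a)⁻¹ * (ι a * x * (ι a)⁻¹) * ι a := by group
    rw [this, hh]
    simp only [map_mul, map_inv, mul_inv_rev, inv_inv]
    group
  · rintro ⟨h, hh⟩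
    refine ⟨a * h, ?_⟩
    rw [hh]
    simp only [map_mul, mul_inv_rev]
    group

end Inv

end W0

open _root_.Pool.Agent.DPC.W0 in
/-- W0: the local extension for one coordinate. -/
theorem W0_thm (h1 : Stmt_W0A) (h2 : Stmt_SYLB) (h3 : Stmt_DGT) : Stmt_W0 := by
  classical
  intro G B C _ _ _ _ _ 𝔐 ℓ _ h𝔐 hℓ ι κ ρ hL P hP hPι T hιT hPT E θ hE hθ hθ0 hEθ θ' hθ' hθ'0 hD
  have hprime : 𝔐.IsPrime := h𝔐.isPrime
  obtain ⟨E', hE'1, hE'2, hE'3, hE'4⟩ :=
    h1 G B C 𝔐 ℓ h𝔐 hℓ ι κ ρ hL P hP hPι T hιT hPT E θ hE hθ hθ0 hEθ θ' hθ' hθ'0 hD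
  obtain ⟨ε, hε, hε1, hε2⟩ := h3 G B 𝔐 ℓ h𝔐 hℓ κ P hP θ' θ hθ' hθ'0 hθ hθ0 hD
  refine ⟨E', ε, hε, hE'1, hE'2, hE'3, ?_⟩
  intro y hy
  have hyT : y ∈ T := hy.1
  have hyP : y ∈ Subgroup.centralizer (P : Set B) := hy.2
  have act := hL.cl.act
  obtain ⟨hs1, hs2⟩ := h2 G B ℓ ι κ hL.cl.inj act P hP hPι y hyP
  -- the embedding of the fixed points
  let i' : ↥(FX κ P) →* B := ι.comp (FX κ P).subtype
  have hi' : Function.Injective i' := hL.cl.inj.comp Subtype.val_injective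
  set D : Subgroup B := T ⊓ Subgroup.centralizer (P : Set B) with hDdef
  have hι1 : θ 1 = E 1 := by rw [← hEθ 1, map_one]
  have hι1' : θ' 1 = E' 1 := by
    rw [← hE'2 1]
    simp
  have hi'D : ∀ h, i' h ∈ D := by
    intro h
    refine Subgroup.mem_inf.mpr ⟨hιT ⟨(h : G), rfl⟩, Subgroup.mem_centralizer_iff.mpr ?_⟩
    intro p hp
    have h4 := h.2 p hp
    have h5 := act p (h : G)
    rw [h4] at h5
    show p * ι (h : G) = ι (h : G) * p
    rw [eq_mul_inv_iff_mul_eq] at h5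
    exact h5.symm
  have hr1 : IsIrr (fun h : G => E (ι h)) := by
    have : (fun h : G => E (ι h)) = θ := funext hEθ
    rw [this]
    exact hθ
  have hr2 : IsIrr (fun h : FX κ P => E' (i' h)) := by
    have : (fun h : FX κ P => E' (i' h)) = θ' := funext hE'2
    rw [this]
    exact hθ'
  obtain ⟨w, hw1, hw2, hw3⟩ := weight T ι hL.cl.inj (fun h => hιT ⟨h, rfl⟩)
    (fun b _ h => ⟨κ b h, (act b h).symm⟩) E hE hr1 y hyT
  obtain ⟨w', hw1', hw2', hw3'⟩ := weight D i' hi' hi'D (by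
    intro b hb h
    refine ⟨⟨κ b h, ?_⟩, (act b h).symm⟩
    intro p hp
    have h4 : p * b = b * p := Subgroup.mem_centralizer_iff.mp hb.2 p hp
    rw [← MulAut.mul_apply, ← map_mul, h4, map_mul, MulAut.mul_apply, h.2 p hp]) E' hE'1 hr2 y hy
  -- the centralizers
  have hfix : ∀ g : G, κ y g = g ↔ ι g * y = y * ι g := by
    intro g
    constructor
    · intro h
      have h5 := act y g
      rw [h] at h5
      rw [eq_mul_inv_iff_mul_eq] at h5
      exact h5
    · intro h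
      apply hL.cl.inj
      rw [act, ← h, mul_inv_cancel_right]
  have c1 : Nat.card {h : G // ι h * y = y * ι h} = Nat.card {g : G // κ y g = g} :=
    Nat.card_congr (Equiv.subtypeEquivRight fun g => (hfix g).symm)
  have c2 : Nat.card {h : FX κ P // i' h * y = y * i' h} =
      Nat.card {g : FX κ P // κ y g = g} :=
    Nat.card_congr (Equiv.subtypeEquivRight fun g => (hfix (g : G)).symm)
  rw [c1, ← hι1] at hw2
  rw [c2, ← hι1'] at hw2'
  rw [← hι1] at hw3
  rw [← hι1'] at hw3'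
  set c : ℕ := Nat.card {g : G // κ y g = g} with hc
  set c' : ℕ := Nat.card {g : FX κ P // κ y g = g} with hc'
  -- integrality
  have hEy : IsIntegral ℤ (E y) :=
    isIntegral_char (isIrr_of_res (ι.codRestrict T fun h => hιT ⟨h, rfl⟩) hE hr1) (⟨y, hyT⟩ : T)
  have hE'y : IsIntegral ℤ (E' y) :=
    isIntegral_char (isIrr_of_res (i'.codRestrict D hi'D) hE'1 hr2) (⟨y, hy⟩ : D)
  have codeg : ∀ {Y : Type} [Group Y] [Fintype Y] {χ : Y → ℂ}, IsIrr χ → HasDefect ℓ χ 0 →
      IsIntegral ℤ ((Nat.card Y : ℂ) / χ 1) := by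
    intro Y _ _ χ hχ hχ0
    obtain ⟨n, N, hn, hn', hN, -⟩ := exists_codeg hχ hχ0
    have hn0 : (n : ℂ) ≠ 0 := by exact_mod_cast hn.ne'
    have : (Nat.card Y : ℂ) / χ 1 = (N : ℂ) := by
      rw [hn', hN]
      push_cast
      field_simp
    rw [this]
    exact Lib_helper13.isIntegral_natCast N
  have n1 := red_codeg_ne_zero 𝔐 hℓ hθ hθ0
  have n2 := red_codeg_ne_zero 𝔐 hℓ hθ' hθ'0
  have r1 := congrArg (red 𝔐) hw2
  have r2 := congrArg (red 𝔐) hw2'
  rw [red_mul 𝔐 (codeg hθ hθ0) hEy, red_mul 𝔐 (Lib_helper13.isIntegral_natCast c) hw1] at r1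
  rw [red_mul 𝔐 (codeg hθ' hθ'0) hE'y, red_mul 𝔐 (Lib_helper13.isIntegral_natCast c') hw1'] at r2
  have hchar : CharP ((integralClosure ℤ ℂ) ⧸ 𝔐) ℓ := quot_char 𝔐 hℓ
  have hcc : red 𝔐 (c : ℂ) = red 𝔐 (c' : ℂ) := by
    rw [red_natCast, red_natCast]
    exact (CharP.natCast_eq_natCast _ ℓ).mpr hs1
  by_cases hdiv : ℓ ∣ c'
  · -- both values vanish
    have z2 : red 𝔐 (c' : ℂ) = 0 := by
      rw [red_natCast]
      exact (CharP.cast_eq_zero_iff _ ℓ c').mpr hdiv
    rw [hcc, z2, zero_mul] at r1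
    rw [z2, zero_mul] at r2
    have e1 := (mul_eq_zero.mp r1).resolve_left n1
    have e2 := (mul_eq_zero.mp r2).resolve_left n2
    rw [e1, e2, mul_zero]
  · -- the weights agree
    obtain ⟨hs3, hs4⟩ := hs2 (by
      intro g hg hgy k hk
      by_contra hne
      apply hdiv
      -- the centralizer as a subgroup
      let Cy : Subgroup (FX κ P) :=
        { carrier := {g | κ y g = g}
          one_mem' := map_one _
          mul_mem' := by
            intro a b ha hb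
            show κ y ((a : G) * b) = a * b
            rw [map_mul, ha, hb]
          inv_mem' := by
            intro a ha
            show κ y ((a : G)⁻¹) = (a : G)⁻¹
            rw [map_inv, ha] }
      have hcard : c' = Nat.card Cy := rfl
      rw [hcard]
      let g' : Cy := ⟨⟨g, hg⟩, hgy⟩
      have hg'1 : g' ≠ 1 := by
        intro h
        apply hne
        have := congrArg (fun z : Cy => ((z : FX κ P) : G)) h
        exact this
      have hg'k : g' ^ ℓ ^ k = 1 := by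
        apply Subtype.ext
        apply Subtype.ext
        exact hk
      have ho : orderOf g' ∣ ℓ ^ k := orderOf_dvd_of_pow_eq_one hg'k
      obtain ⟨m, -, hm⟩ := (Nat.dvd_prime_pow (Fact.out : ℓ.Prime)).mp ho
      have hm0 : m ≠ 0 := by
        rintro rfl
        rw [pow_zero, orderOf_eq_one_iff] at hm
        exact hg'1 hm
      have h5 : ℓ ∣ orderOf g' := by
        rw [hm]
        exact dvd_pow_self ℓ hm0
      exact h5.trans (orderOf_dvd_natCard g'))
    -- the group `M`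
    let M : Subgroup B := ι.range ⊔ Subgroup.zpowers y ⊔ P
    have hM1 : ι.range ≤ M := le_sup_left.trans le_sup_left
    have hMy : y ∈ M := (le_sup_right.trans le_sup_left : Subgroup.zpowers y ≤ M)
      (Subgroup.mem_zpowers y)
    have hMP : P ≤ M := le_sup_right
    have hPC : P ≤ Subgroup.centralizer (P : Set B) := by
      intro p hp
      rw [Subgroup.mem_centralizer_iff]
      intro q hq
      have hcom : ρ q * ρ p = ρ p * ρ q := by
        have := hL.cyc
        let _ : CommGroup C := IsCyclic.commGroup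
        exact mul_comm _ _
      have h5 : ρ (q * p * q⁻¹ * p⁻¹) = 1 := by
        rw [map_mul, map_mul, map_mul, map_inv, map_inv, hcom]
        group
      have h6 : q * p * q⁻¹ * p⁻¹ ∈ P ⊓ ι.range :=
        ⟨P.mul_mem (P.mul_mem (P.mul_mem hq hp) (P.inv_mem hq)) (P.inv_mem hp),
          (hL.cl.ker _).mp h5⟩
      rw [hPι, Subgroup.mem_bot] at h6
      have h7 : q * p = p * q := by
        have : q * p * q⁻¹ * p⁻¹ = 1 := h6
        rw [mul_inv_eq_one, mul_inv_eq_iff_eq_mul] at this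
        exact this
      exact h7
    have hMle : M ≤ ι.range ⊔ D := by
      refine sup_le (sup_le le_sup_left ?_) ?_
      · rw [Subgroup.zpowers_le]
        exact (le_sup_right : D ≤ ι.range ⊔ D) hy
      · exact (le_inf hPT hPC).trans le_sup_right
    have hMS : M ≤ Ss (F ι y) := by
      refine sup_le (sup_le ?_ ?_) ?_
      · rintro _ ⟨a, rfl⟩
        exact mem_Ss_of_range ι y a
      · rw [Subgroup.zpowers_le]
        exact mem_Ss_of_comm ι κ act y rfl
      · intro p hp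
        exact mem_Ss_of_comm ι κ act y (Subgroup.mem_centralizer_iff.mp hyP p hp)
    have key1 := hE'4 M hM1 hMP hMle (F ι y) (fun g hg x _ => hMS hg x) (F_int ι y)
    have hcls : ∀ h, ι h * y * (ι h)⁻¹ ∈ M := fun h =>
      M.mul_mem (M.mul_mem (hM1 ⟨h, rfl⟩) hMy) (M.inv_mem (hM1 ⟨h, rfl⟩))
    have hcls' : ∀ h, i' h * y * (i' h)⁻¹ ∈ M ⊓ Subgroup.centralizer (P : Set B) := fun h =>
      ⟨hcls h, (Subgroup.centralizer (P : Set B)).mul_mem
        ((Subgroup.centralizer (P : Set B)).mul_mem (hi'D h).2 hyP)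
        ((Subgroup.centralizer (P : Set B)).inv_mem (hi'D h).2)⟩
    have hFF : ∀ x : ↥(M ⊓ Subgroup.centralizer (P : Set B)), F ι y x = F i' y x := by
      intro x
      unfold F
      by_cases hx : ∃ h, (x : B) = i' h * y * (i' h)⁻¹
      · rw [if_pos hx]
        obtain ⟨h, hh⟩ := hx
        rw [if_pos ⟨(h : G), hh⟩]
      · rw [if_neg hx, if_neg]
        rintro ⟨g, hg⟩
        have h5 : ι g * y * (ι g)⁻¹ ∈ Subgroup.centralizer (P : Set B) := by
          rw [← hg]
          exact x.2.2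
        obtain ⟨h, hh, he⟩ := hs4 g h5
        exact hx ⟨⟨h, hh⟩, by rw [hg, he]; rfl⟩
    have e1 := hw3 M hcls
    have e2 := hw3' (M ⊓ Subgroup.centralizer (P : Set B)) hcls'
    simp only [hFF] at key1
    rw [e1, e2] at key1
    -- conclusion
    rw [key1, hcc, ← r2, hε2] at r1
    have r3 : red 𝔐 ((Nat.card G : ℂ) / θ 1) * red 𝔐 (E y) =
        red 𝔐 ((Nat.card G : ℂ) / θ 1) * (red 𝔐 ε * red 𝔐 (E' y)) := by
      rw [r1]
      ring
    exact mul_left_cancel₀ n1 r3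

end Pool.Agent.DPC


end

section

/-!
# Module AMB: the amalgam
-/

set_option autoImplicit false

namespace Pool.Agent.DPG

open Pool.Agent.DP Pool.Agent.DPC Pool.Agent.DPM Pool.Agent.DPN Pool.Agent.DPF
  Pool.Agent.Lib_helper13 Representation
open Pool.Agent.Lib_helper13.Dade (pCore DadeHolds dadeSum)

namespace AMB

variable {Q K1 Λ : Type} [Group Q] [Group K1] [Group Λ]

/-- The action of `Λ` on `Q`. -/
def ac (α : K1 →* MulAut Q) (S : Subgroup K1) (π2 : Λ →* S) : Λ →* MulAut Q :=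
  α.comp (S.subtype.comp π2)

theorem ac_apply (α : K1 →* MulAut Q) (S : Subgroup K1) (π2 : Λ →* S) (y : Λ) (x : Q) :
    ac α S π2 y x = α ((π2 y : S) : K1) x := rfl

/-- The elements which are identified with `1`. -/
def RR {q : Q →* K1} {α : K1 →* MulAut Q} {S : Subgroup K1} {π2 : Λ →* S}
    {j : ↥(S.comap q) →* Λ} (hα : ∀ x a, α (q x) a = x * a * x⁻¹)
    (hj : ∀ a : ↥(S.comap q), ((π2 (j a) : S) : K1) = q a) :
    Subgroup (Q ⋊[ac α S π2] Λ) where
  carrier := {g | ∃ a : ↥(S.comap q), g.left = (a : Q)⁻¹ ∧ g.right = j a}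
  one_mem' := ⟨1, by simp, by simp⟩
  mul_mem' := by
    rintro g h ⟨a, ha, ha'⟩ ⟨b, hb, hb'⟩
    refine ⟨a * b, ?_, ?_⟩
    · rw [SemidirectProduct.mul_left, ha, hb, ha', ac_apply, hj, hα, Subgroup.coe_mul]
      group
    · rw [SemidirectProduct.mul_right, ha', hb', map_mul]
  inv_mem' := by
    rintro g ⟨a, ha, ha'⟩
    refine ⟨a⁻¹, ?_, ?_⟩
    · rw [SemidirectProduct.inv_left, ha, ha', ac_apply, Subgroup.coe_inv, ← map_inv j]
      rw [hj, hα, Subgroup.coe_inv]
      group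
    · rw [SemidirectProduct.inv_right, ha', map_inv]

theorem RR_normal {q : Q →* K1} {α : K1 →* MulAut Q} {S : Subgroup K1} {π2 : Λ →* S}
    {j : ↥(S.comap q) →* Λ} (hα : ∀ x a, α (q x) a = x * a * x⁻¹)
    (hq : ∀ k x, q (α k x) = k * q x * k⁻¹)
    (hj : ∀ a : ↥(S.comap q), ((π2 (j a) : S) : K1) = q a)
    (hc : ∀ (y : Λ) (a b : ↥(S.comap q)), (b : Q) = α (π2 y : S) a → j b = y * j a * y⁻¹) :
    (RR hα hj).Normal := by
  constructor
  rintro g ⟨a, ha, ha'⟩ h
  have hm : α ((π2 h.right : S) : K1) (a : Q) ∈ S.comap q := by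
    rw [Subgroup.mem_comap, hq]
    exact S.mul_mem (S.mul_mem (π2 h.right).2 a.2) (S.inv_mem (π2 h.right).2)
  have h1 := hc h.right a ⟨_, hm⟩ rfl
  refine ⟨⟨_, hm⟩, ?_, ?_⟩
  · have h2 : (h * g * h⁻¹).left =
        h.left * α ((π2 h.right : S) : K1) g.left *
          (α ((π2 (h.right * g.right * h.right⁻¹) : S) : K1) h.left⁻¹) := by
      rw [SemidirectProduct.mul_left, SemidirectProduct.mul_left, SemidirectProduct.inv_left,
        SemidirectProduct.mul_right, ac_apply, ac_apply, ac_apply, map_mul π2,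
        map_mul π2, Subgroup.coe_mul, Subgroup.coe_mul, map_mul α, map_mul α,
        MulAut.mul_apply, MulAut.mul_apply]
      simp only [MulAut.mul_apply, map_mul, Subgroup.coe_mul]
    rw [h2, ha, ha', ← h1, hj, hα]
    simp only [map_inv]
    group
  · rw [SemidirectProduct.mul_right, SemidirectProduct.mul_right, SemidirectProduct.inv_right,
      ha', h1]

theorem exists_am [Finite Q] [Finite Λ] {q : Q →* K1} {α : K1 →* MulAut Q} {S : Subgroup K1}
    {π2 : Λ →* S} {j : ↥(S.comap q) →* Λ} (hα : ∀ x a, α (q x) a = x * a * x⁻¹)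
    (hq : ∀ k x, q (α k x) = k * q x * k⁻¹)
    (hj : ∀ a : ↥(S.comap q), ((π2 (j a) : S) : K1) = q a)
    (hc : ∀ (y : Λ) (a b : ↥(S.comap q)), (b : Q) = α (π2 y : S) a → j b = y * j a * y⁻¹)
    (hi : Function.Injective j) :
    ∃ (L1 : Type) (_ : Group L1) (_ : Fintype L1) (π1 : L1 →* K1) (ι : Q →* L1) (i : Λ →* L1),
      Function.Injective ι ∧ Function.Injective i ∧ (∀ x, π1 (ι x) = q x) ∧
      (∀ y, π1 (i y) = (π2 y : S)) ∧ (∀ a : ↥(S.comap q), i (j a) = ι a) ∧
      (∀ l, ∃ x y, l = ι x * i y) ∧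
      ∀ y x, i y * ι x * (i y)⁻¹ = ι (α ((π2 y : S) : K1) x) := by
  have := RR_normal hα hq hj hc
  have : Finite (Q ⋊[ac α S π2] Λ) :=
    Finite.of_equiv (Q × Λ) SemidirectProduct.equivProd.symm
  let f : Q ⋊[ac α S π2] Λ →* K1 :=
    SemidirectProduct.lift q (S.subtype.comp π2) (by
      intro y
      ext x
      change q (α ((π2 y : S) : K1) x) = ((π2 y : S) : K1) * q x * ((π2 y : S) : K1)⁻¹
      exact hq _ _)
  have hf : ∀ g : Q ⋊[ac α S π2] Λ, f g = q g.left * ((π2 g.right : S) : K1) := by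
    intro g
    rfl
  have hRf : ∀ g ∈ RR hα hj, f g = 1 := by
    rintro g ⟨a, ha, ha'⟩
    rw [hf, ha, ha', hj, map_inv, inv_mul_cancel]
  let mk := QuotientGroup.mk' (RR hα hj)
  have hmk : ∀ g, mk g = 1 ↔ g ∈ RR hα hj := by
    intro g
    exact QuotientGroup.eq_one_iff g
  refine ⟨(Q ⋊[ac α S π2] Λ) ⧸ RR hα hj, inferInstance, Fintype.ofFinite _,
    QuotientGroup.lift (RR hα hj) f hRf, mk.comp SemidirectProduct.inl,
    mk.comp SemidirectProduct.inr, ?_, ?_, ?_, ?_, ?_, ?_, ?_⟩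
  · rw [injective_iff_map_eq_one]
    intro x hx
    rw [MonoidHom.comp_apply, hmk] at hx
    obtain ⟨a, ha, ha'⟩ := hx
    rw [SemidirectProduct.right_inl] at ha'
    rw [SemidirectProduct.left_inl] at ha
    have h1 : a = 1 := hi (by rw [← ha', map_one])
    rw [ha, h1]
    simp
  · rw [injective_iff_map_eq_one]
    intro y hy
    rw [MonoidHom.comp_apply, hmk] at hy
    obtain ⟨a, ha, ha'⟩ := hy
    rw [SemidirectProduct.right_inr] at ha'
    rw [SemidirectProduct.left_inr] at ha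
    have h1 : a = 1 := by
      apply Subtype.ext
      have h2 : (a : Q) = 1 := by
        rw [← inv_inv (a : Q), ← ha, inv_one]
      exact h2
    rw [ha', h1, map_one]
  · intro x
    change f (SemidirectProduct.inl x) = q x
    rw [hf]
    simp
  · intro y
    change f (SemidirectProduct.inr y) = _
    rw [hf]
    simp
  · intro a
    rw [MonoidHom.comp_apply, MonoidHom.comp_apply]
    symm
    rw [← inv_mul_eq_one, ← map_inv, ← map_mul, hmk]
    refine ⟨a, ?_, ?_⟩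
    · rw [← map_inv, SemidirectProduct.mul_left, SemidirectProduct.left_inl,
        SemidirectProduct.right_inl, SemidirectProduct.left_inr]
      simp
    · rw [← map_inv, SemidirectProduct.mul_right, SemidirectProduct.right_inl,
        SemidirectProduct.right_inr, one_mul]
  · intro l
    obtain ⟨g, rfl⟩ := QuotientGroup.mk'_surjective _ l
    refine ⟨g.left, g.right, ?_⟩
    rw [MonoidHom.comp_apply, MonoidHom.comp_apply, ← map_mul,
      SemidirectProduct.inl_left_mul_inr_right]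
  · intro y x
    rw [MonoidHom.comp_apply, MonoidHom.comp_apply, MonoidHom.comp_apply, ← map_inv,
      ← map_mul, ← map_mul, ← ac_apply, SemidirectProduct.inl_aut, map_inv]

end AMB

open _root_.Pool.Agent.DPG.AMB in
theorem AMB_thm : Stmt_AMB := by
  intro Q K1 Λ _ _ _ _ _ _ q α μQ hα hq hz S f hf hS π2 μ2 j E hs hc hμ hji hj hcj hμj hE hEj
    hEz
  obtain ⟨L1, gL, fL, π1, ι, i, ιi, ii, πι, πi, ij, gen, cji⟩ :=
    exists_am (Q := Q) (K1 := K1) (Λ := Λ) hα hq hj hcj hji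
  have hr : ∀ l, π1 l ∈ S → ∃ y, i y = l := by
    intro l hl
    obtain ⟨x, y, rfl⟩ := gen l
    rw [map_mul, πι, πi] at hl
    have hx : x ∈ S.comap q := by
      rw [Subgroup.mem_comap]
      have h1 := S.mul_mem hl (S.inv_mem (π2 y).2)
      rw [mul_inv_cancel_right] at h1
      exact h1
    refine ⟨j ⟨x, hx⟩ * y, ?_⟩
    rw [map_mul, ij]
  have hr' : ∀ y, π1 (i y) ∈ S := by
    intro y
    rw [πi]
    exact (π2 y).2
  have hk : ∀ z : π1.ker, ∃ u : π2.ker, i (u : Λ) = z := by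
    intro z
    have h1 : π1 (z : L1) = 1 := z.2
    obtain ⟨y, hy⟩ := hr z (by rw [h1]; exact S.one_mem)
    refine ⟨⟨y, ?_⟩, hy⟩
    rw [MonoidHom.mem_ker]
    apply Subtype.ext
    rw [← πi, hy, h1]
    rfl
  choose k hk using hk
  let kh : π1.ker →* π2.ker :=
    { toFun := k
      map_one' := by
        apply Subtype.ext
        apply ii
        rw [hk, Subgroup.coe_one, Subgroup.coe_one, map_one]
      map_mul' := by
        intro a b
        apply Subtype.ext
        apply ii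
        rw [hk, Subgroup.coe_mul, Subgroup.coe_mul, map_mul, hk, hk] }
  have hk' : ∀ s : ↥(S.comap π1), ∃ y, i y = s := fun s => hr s s.2
  choose k' hk' using hk'
  let kh' : ↥(S.comap π1) →* Λ :=
    { toFun := k'
      map_one' := by
        apply ii
        rw [hk', Subgroup.coe_one, map_one]
      map_mul' := by
        intro a b
        apply ii
        rw [hk', Subgroup.coe_mul, map_mul, hk', hk'] }
  classical
  let F : L1 → ℂ := fun l => if h : ∃ y, i y = l then E h.choose else 0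
  have hF : ∀ y, F (i y) = E y := by
    intro y
    have h : ∃ y', i y' = i y := ⟨y, rfl⟩
    have h1 : F (i y) = E h.choose := dif_pos h
    rw [h1]
    exact congrArg E (ii h.choose_spec)
  have hF0 : ∀ l, π1 l ∉ S → F l = 0 := by
    intro l hl
    apply dif_neg
    rintro ⟨y, rfl⟩
    exact hl (hr' y)
  have hFι : ∀ x ∈ S.comap q, F (ι x) = f x := by
    intro x hx
    have h1 := ij ⟨x, hx⟩
    change i (j ⟨x, hx⟩) = ι x at h1
    rw [← h1, hF, hEj]
  refine ⟨L1, gL, fL, π1, μ2.comp kh, ι, F, ⟨?_, ?_, ?_, ιi, πι, ?_, ?_⟩, ⟨?_, ?_⟩, hFι, ?_⟩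
  · -- surjective
    rw [← MonoidHom.range_eq_top, eq_top_iff, ← hS, sup_le_iff]
    constructor
    · rintro _ ⟨x, rfl⟩
      exact ⟨ι x, πι x⟩
    · intro s hs'
      obtain ⟨y, hy⟩ := hs ⟨s, hs'⟩
      refine ⟨i y, ?_⟩
      rw [πi, hy]
  · -- central
    intro z hz'
    obtain ⟨u, hu⟩ : ∃ u : π2.ker, i (u : Λ) = z := ⟨k ⟨z, hz'⟩, hk ⟨z, hz'⟩⟩
    rw [Subgroup.mem_center_iff]
    intro l
    obtain ⟨x, y, rfl⟩ := gen l
    have h1 : i (u : Λ) * ι x = ι x * i (u : Λ) := by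
      have h2 := cji (u : Λ) x
      have h3 : π2 (u : Λ) = 1 := u.2
      rw [h3, Subgroup.coe_one, map_one, MulAut.one_apply] at h2
      exact mul_inv_eq_iff_eq_mul.1 h2
    have h2 : i (u : Λ) * i y = i y * i (u : Λ) := by
      have h3 := Subgroup.mem_center_iff.1 (hc u.2) y
      rw [← map_mul, ← map_mul, h3]
    rw [← hu, mul_assoc, ← h2, ← mul_assoc, ← h1, mul_assoc]
  · -- injective
    intro a b hab
    have h1 : k a = k b := hμ hab
    apply Subtype.ext
    rw [← hk a, ← hk b, h1]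
  · intro l x
    obtain ⟨x', y, rfl⟩ := gen l
    rw [map_mul, πι, πi, map_mul, MulAut.mul_apply, hα, map_mul, map_mul, ← cji, map_inv]
    group
  · intro z h
    have hz' : (z : Q) ∈ S.comap q := by
      rw [Subgroup.mem_comap]
      have h1 : q (z : Q) = 1 := z.2
      rw [h1]
      exact S.one_mem
    have h1 : ((k ⟨ι z, h⟩ : π2.ker) : Λ) = j ⟨z, hz'⟩ := by
      apply ii
      rw [hk, ij]
    have h2 : j ⟨z, hz'⟩ ∈ π2.ker := by
      rw [← h1]
      exact (k ⟨ι z, h⟩).2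
    have h3 := hμj z ⟨z, hz'⟩ h2 rfl
    rw [← h3]
    change μ2 (k ⟨ι z, h⟩) = _
    congr 1
    exact Subtype.ext h1
  · -- irreducible
    let i0 : ↥(S.comap q) →* ↥(S.comap π1) :=
      (ι.comp (S.comap q).subtype).codRestrict (S.comap π1) (by
        intro a
        rw [Subgroup.mem_comap, MonoidHom.comp_apply, πι]
        exact a.2)
    have hc1 : IsChr (fun s : ↥(S.comap π1) => F s) := by
      have h1 := hE.comp kh'
      have h2 : (fun s : ↥(S.comap π1) => F s) = fun s => E (kh' s) := by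
        funext s
        have h3 : i (kh' s) = s := hk' s
        rw [← h3, hF]
      rw [h2]
      exact h1
    refine W0.isIrr_of_res i0 hc1 ?_
    have h2 : (fun a : ↥(S.comap q) => F (i0 a)) = fun a : ↥(S.comap q) => f a := by
      funext a
      exact hFι a a.2
    exact h2 ▸ hf.1
  · intro l hl
    exact hF0 l hl
  · intro z x
    by_cases hx : π1 x ∈ S
    · obtain ⟨y, rfl⟩ := hr x hx
      have h1 : (z : L1) * i y = i ((k z : Λ) * y) := by
        rw [map_mul, hk]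
      rw [h1, hF, hF, hEz]
      rfl
    · rw [hF0 x hx, hF0, mul_zero]
      have h1 : π1 (z : L1) = 1 := z.2
      rw [map_mul, h1, one_mul]
      exact hx

end Pool.Agent.DPG


end

section

/-!
# Module RFE: existence of reference data
-/

set_option autoImplicit false

namespace Pool.Agent.DPG

open Pool.Agent.DP Pool.Agent.DPC Pool.Agent.DPM Pool.Agent.DPN Pool.Agent.DPF
  Pool.Agent.DPK Pool.Agent.Lib_helper13 Representation
open Pool.Agent.Lib_helper13.Dade (pCore DadeHolds dadeSum)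

namespace RFE

section

variable {L : Type} [Group L] [Fintype L]

/-- Products of invariant functions are invariant. -/
theorem conv_civ {S : Subgroup L} {u v : L → ℤ} (hu : CIv S u) (hv : CIv S v) :
    CIv S (conv u v) := by
  intro g hg x
  rw [conv, conv]
  symm
  refine Fintype.sum_equiv (MulAut.conj g).toEquiv _ _ ?_
  intro y
  have h1 : (MulAut.conj g).toEquiv y = g * y * g⁻¹ := rfl
  rw [h1, hu g hg]
  have h2 : (g * y * g⁻¹)⁻¹ * (g * x * g⁻¹) = g * (y⁻¹ * x) * g⁻¹ := by group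
  rw [h2, hv g hg]

/-- The support of a product. -/
theorem conv_son {K : Type} [Group K] (π : L →* K) (N : Subgroup K) [hN : N.Normal] {x : L}
    {u v : L → ℤ} (hu : SOn {y | π (x⁻¹ * y) ∈ N} u) (hv : SOn {y | π (x * y) ∈ N} v) :
    SOn (N.comap π : Set L) (conv u v) := by
  intro z hz
  rw [conv]
  refine Finset.sum_eq_zero fun y _ => ?_
  by_cases h1 : π (x⁻¹ * y) ∈ N
  · by_cases h2 : π (x * (y⁻¹ * z)) ∈ N
    · exfalso
      apply hz
      have h3 : z = y * x⁻¹ * (x * (y⁻¹ * z)) := by group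
      have h4 : π (y * x⁻¹) ∈ N := by
        have h5 : y * x⁻¹ = x * (x⁻¹ * y) * x⁻¹ := by group
        rw [h5, map_mul, map_mul, map_inv]
        exact hN.conj_mem _ h1 _
      change π z ∈ N
      rw [h3, map_mul]
      exact N.mul_mem h4 h2
    · rw [hv _ h2, mul_zero]
  · rw [hu _ h1, zero_mul]

/-- The scalars of a conjugate. -/
theorem sc_cjF (𝔐 : Ideal (integralClosure ℤ ℂ)) {S : Subgroup L} {u : L → ℤ} (hu : CIv S u)
    {l : L} (hl : l ∈ S) (f : L → ℂ) : sc 𝔐 (cjF l f) u = sc 𝔐 f u := by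
  have h1 : ∑ x, ((u x : ℤ) : ℂ) * cjF l f x = ∑ x, ((u x : ℤ) : ℂ) * f x := by
    symm
    refine Fintype.sum_equiv (MulAut.conj l).toEquiv _ _ ?_
    intro x
    have h2 : (MulAut.conj l).toEquiv x = l * x * l⁻¹ := rfl
    rw [h2, hu l hl, cjF]
    congr 2
    group
  have h2 : cjF l f 1 = f 1 := by
    rw [cjF]
    congr 1
    group
  rw [sc, sc, h1, h2]

end

end RFE

open _root_.Pool.Agent.DPG.RFE in
/-- RFE: existence of reference data. -/
theorem RFE_thm (h1 : Stmt_NPT) (h2 : Stmt_CLS) (h3 : Stmt_CJN) (h4 : Stmt_CJS)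
    (h5 : Stmt_CST) (h6 : Stmt_AMA) (h7 : Stmt_AMB) (h8 : Stmt_SUL) (h9 : Stmt_ZEX)
    (h10 : Stmt_ZIN) : Stmt_RFE := by
  classical
  intro L K K1 Q Ω _ _ _ _ _ _ _ _ _ _ 𝔐 ℓ _ hmax hℓ π μ φ q α ε μQ hWD M M1 hMM ω hSTB hSPP
    σ θ hch hclo hB
  obtain ⟨hNn, hqn, hcst⟩ := h5 L K K1 Q Ω ℓ π μ φ q α ε μQ hWD
  have hMn := hMM.nm
  have hM1n := hMM.nm1
  obtain ⟨f, e, he, hfi, hfo, hfs, hfv, hfe, ⟨f0, hf0⟩, hff⟩ :=
    h1 L K 𝔐 ℓ hmax hℓ π hWD.πs hWD.πc μ (NN' π ε) M hMM.le ω hSTB hSPP σ θ hch hB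
  obtain ⟨n, σr, fr, hchr, hσ, hfri, hfro, hqs, hfrv, hTF⟩ :=
    h2 L K K1 Q Ω ℓ π μ φ q α ε μQ hWD σ f hch hclo hfi hfo hfs hfv
  -- the conjugate
  have hstb : stb (cstC φ (NN' π ε) σr) =
      (stb σ).map (MulAut.conj (π (ε n)⁻¹)).toMonoidHom := by
    have e1 := h4 K ℓ M (π (ε n))⁻¹ (π (ε n)) (cstC φ (NN' π ε) σr)
    have e2 := h4 K ℓ M (π (ε n))⁻¹ (π (ε n)) σ
    have e3 : cjC (π (ε n))⁻¹ σ = cstC φ (NN' π ε) σr := by
      rw [hσ, ← e1.2.1, inv_mul_cancel, e1.1]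
    rw [map_inv, ← e2.2.2.2.1, e3]
  have hBr : BPs 𝔐 π μ M ω (stb (cstC φ (NN' π ε) σr)) (cjF (ε n)⁻¹ θ) := by
    rw [hstb]
    exact (h3 L K 𝔐 π hWD.πs hWD.πc μ M (ε n)⁻¹ (stb σ) θ).1 ω hB
  have hfr' : IrrOn (AL π (NN' π ε) (stb (cstC φ (NN' π ε) σr))) (cjF (ε n)⁻¹ f) := by
    have e1 : BPs 𝔐 π μ (NN' π ε) (cg 𝔐 f) (stb σ) f :=
      ⟨hfi, hfo, fun _ _ => rfl, hfs, hfv⟩
    have e2 := (h3 L K 𝔐 π hWD.πs hWD.πc μ (NN' π ε) (ε n)⁻¹ (stb σ) f).1 (cg 𝔐 f) e1
    rw [hstb]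
    exact e2.irr
  -- the amalgam
  obtain ⟨Λ, _, _, π2, μ2, j, E, a1, a2, a3, a4, a5, a6, a7, a8, a9, a10⟩ :=
    h6 Q K1 q α μQ hWD.qα hWD.qe hWD.αz hWD.μQi (stb σr) fr hfri hfro hfrv
  obtain ⟨L1, _, _, π1, μ1, ι, F, hLD, hFi, hFι, hFo⟩ :=
    h7 Q K1 Λ q α μQ hWD.qα hWD.qe hWD.αz (stb σr) fr hfri hqs π2 μ2 j E a1 a2 a3 a4 a5 a6 a7
      a8 a9 a10
  -- the reference character
  obtain ⟨Fr, hFr⟩ : ∃ Fr : L1 → ℂ, Fr = fun x => if x ∈ AL π1 M1 (stb σr) then F x else 0 :=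
    ⟨_, rfl⟩
  have hFr1 : ∀ x ∈ AL π1 M1 (stb σr), Fr x = F x := by
    intro x hx
    rw [hFr]
    exact if_pos hx
  have hFr0 : ∀ x, x ∉ AL π1 M1 (stb σr) → Fr x = 0 := by
    intro x hx
    rw [hFr]
    exact if_neg hx
  have hFrι : ∀ x, Fr (ι x) = fr x := by
    intro x
    by_cases hx : q x ∈ stb σr
    · rw [hFr1, hFι x hx]
      change π1 (ι x) ∈ M1 ⊓ stb σr
      rw [hLD.πι]
      exact ⟨hMM.le1 ⟨x, rfl⟩, hx⟩
    · rw [hFr0, hfri.2 x hx]
      intro h
      have h' : π1 (ι x) ∈ M1 ⊓ stb σr := h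
      rw [hLD.πι] at h'
      exact hx h'.2
  have hc : IsChr (fun s : ↥((stb σr).comap π1) => F s) := hFi.1.isChr
  have hres : ∀ R : Subgroup K1, q.range ≤ R → R ≤ M1 → IsIrr (fun s : AL π1 R (stb σr) => Fr s) := by
    intro R hR1 hR2
    have hle : AL π1 R (stb σr) ≤ (stb σr).comap π1 := fun x hx => hx.2
    have hle' : AL π1 R (stb σr) ≤ AL π1 M1 (stb σr) := fun x hx => ⟨hR2 hx.1, hx.2⟩
    have hc1 : IsChr (fun s : AL π1 R (stb σr) => Fr s) := by
      have e1 := hc.comp (Subgroup.inclusion hle)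
      have e2 : (fun s : AL π1 R (stb σr) => Fr s) = fun s => F (Subgroup.inclusion hle s) := by
        funext s
        exact hFr1 _ (hle' s.2)
      rw [e2]
      exact e1
    let i0 : ↥((stb σr).comap q) →* ↥(AL π1 R (stb σr)) :=
      (ι.comp ((stb σr).comap q).subtype).codRestrict (AL π1 R (stb σr)) (by
        intro a
        change π1 (ι a) ∈ R ⊓ stb σr
        rw [hLD.πι]
        exact ⟨hR1 ⟨a, rfl⟩, a.2⟩)
    refine W0.isIrr_of_res i0 hc1 ?_
    have e2 : (fun a : ↥((stb σr).comap q) => Fr (i0 a)) = fun a : ↥((stb σr).comap q) => fr a := by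
      funext a
      exact hFrι a
    exact e2 ▸ hfri.1
  have hEF : EF π1 q.range M1 (stb σr) Fr :=
    ⟨⟨hres M1 hMM.le1 le_rfl, hFr0⟩, hres q.range le_rfl hMM.le1, by rw [hqs]; exact le_top⟩
  have hOv : Ov π1 μ1 Fr := by
    intro z x
    have e1 : (z : L1) * x ∈ AL π1 M1 (stb σr) ↔ x ∈ AL π1 M1 (stb σr) := by
      have e2 : π1 (z : L1) = 1 := z.2
      rw [Subgroup.mem_comap, Subgroup.mem_comap, map_mul, e2, one_mul]
    by_cases hx : x ∈ AL π1 M1 (stb σr)
    · rw [hFr1 _ hx, hFr1 _ (e1.2 hx), hFo]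
    · rw [hFr0 _ hx, hFr0 _ (fun h => hx (e1.1 h)), mul_zero]
  have hiv : ∀ t, π1 t ∈ stb σr → ∀ x, Fr (t * x * t⁻¹) = Fr x := by
    intro t ht x
    have e1 : t * x * t⁻¹ ∈ AL π1 M1 (stb σr) ↔ x ∈ AL π1 M1 (stb σr) := by
      have e2 : π1 (t * x * t⁻¹) = π1 t * π1 x * (π1 t)⁻¹ := by
        rw [map_mul, map_mul, map_inv]
      rw [Subgroup.mem_comap, Subgroup.mem_comap, e2, Subgroup.mem_inf, Subgroup.mem_inf]
      constructor
      · rintro ⟨e3, e4⟩
        refine ⟨?_, ?_⟩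
        · have e5 := hM1n.conj_mem _ e3 (π1 t)⁻¹
          have e6 : (π1 t)⁻¹ * (π1 t * π1 x * (π1 t)⁻¹) * (π1 t)⁻¹⁻¹ = π1 x := by group
          rwa [e6] at e5
        · have e5 := (stb σr).mul_mem ((stb σr).mul_mem ((stb σr).inv_mem ht) e4) ht
          have e6 : (π1 t)⁻¹ * (π1 t * π1 x * (π1 t)⁻¹) * π1 t = π1 x := by group
          rwa [e6] at e5
      · rintro ⟨e3, e4⟩
        exact ⟨hM1n.conj_mem _ e3 _,
          (stb σr).mul_mem ((stb σr).mul_mem ht e4) ((stb σr).inv_mem ht)⟩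
    by_cases hx : x ∈ AL π1 M1 (stb σr)
    · rw [hFr1 _ hx, hFr1 _ (e1.2 hx)]
      exact hFi.1.conj_eq ⟨t, ht⟩ ⟨x, hx.2⟩
    · rw [hFr0 _ hx, hFr0 _ (fun h => hx (e1.1 h))]
  -- the values at the elements of the base group
  have hval : ∀ m : Ω → Q, cjF (ε n)⁻¹ f (ε m) = ∏ o, Fr (ι (m o)) := by
    intro m
    rw [hTF.1 m]
    exact Finset.prod_congr rfl fun o _ => (hFrι (m o)).symm
  have hεN : ∀ m : Ω → Q, π (ε m) ∈ NN' π ε := fun m => ⟨ε m, ⟨m, rfl⟩, rfl⟩
  have hSUP : SUP 𝔐 π1 q.range M1 Fr := by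
    refine h8 L K K1 Q L1 Ω 𝔐 ℓ hmax hℓ π μ φ q α ε μQ π1 μ1 ι M M1 hWD hLD hMM σr Fr hchr hEF
      hOv (cjF (ε n)⁻¹ f) hfr' hval ?_
    intro x hx
    obtain ⟨u, v, hu, hv, hus, hvs, hne⟩ := hSPP f0 hf0 x hx
    refine ⟨u, v, hu, hv, hus, hvs, ?_⟩
    have e1 := conv_civ hu hv
    have e2 := conv_son π (NN' π ε) hus hvs
    have hl : (ε n)⁻¹ ∈ (NN' π ε).comap π := Subgroup.inv_mem _ (hεN n)
    rw [sc_cjF 𝔐 e1 hl, hff f0 hf0 _ e1 e2]
    exact hne
  have hθr : ∀ m : Ω → Q, cjF (ε n)⁻¹ θ (ε m) = e * ∏ o, Fr (ι (m o)) := by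
    intro m
    rw [← hval m, cjF, cjF]
    have e0 : π ((ε n)⁻¹⁻¹ * ε m * (ε n)⁻¹) ∈ NN' π ε := by
      rw [inv_inv, map_mul, map_mul, map_inv]
      exact hNn.conj_mem _ (hεN m) _
    by_cases hy : π ((ε n)⁻¹⁻¹ * ε m * (ε n)⁻¹) ∈ stb σ
    · exact hfe _ ⟨e0, hy⟩
    · rw [hB.irr.2 _ (fun h => hy h.2), hfi.2 _ (fun h => hy h.2), mul_zero]
  obtain ⟨ζ, hZ, hTP⟩ := h9 L K K1 Q L1 Ω ℓ π μ φ q α ε μQ π1 μ1 ι M M1 hWD hLD hMM σr Fr hchr
    hEF hOv (cjF (ε n)⁻¹ θ) e hBr.irr hBr.ovl hθr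
  have hzi := (h10 L K K1 Q L1 Ω ℓ π μ φ q α ε μQ π1 μ1 ι M M1 hWD hLD hMM σr Fr hchr
    hEF hOv hqs hiv ζ hZ (cjF (ε n)⁻¹ θ) hTP).1 hBr.iv
  exact ⟨L1, inferInstance, inferInstance, π1, μ1, ι, σr, Fr, ζ, cjF (ε n)⁻¹ θ,
    ⟨hWD, hLD, hMM, hchr, hEF, hOv, hqs, hiv, hSUP, hZ, hzi⟩, hBr, hTP⟩

end Pool.Agent.DPG


end
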