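import Mathlib
import Pool.Agent.DAM.C13
import Pool.Agent.DAM.C23
import Pool.Agent.DAM.C35

/-! Parts: DPW.RINAP, DPK.SEC -/

section

/-!
# The centralizer of an `ℓ`-subgroup

Module RINAP: `Stmt_RINAP`.
-/

namespace Pool.Agent.DPW

open Pool.Agent.DP Pool.Agent.DPV Pool.Agent.Lib_helper13 Representation
open Pool.Agent.Lib_helper13.Dade (pCore DadeHolds)

namespace RINAP

section

variable {G B C Ω X K : Type} [Group G] [Group B] [Group C] [Group X] [Group K]
  {ι : G →* B} {κ : B →* MulAut G} {ρ : B →* C}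

theorem kap (h : ClG ι κ ρ) (g a : G) : κ (ι g) a = g * a * g⁻¹ := by
  apply h.inj
  rw [h.act, map_mul, map_mul, map_inv]

/-- `(φ (a b))` in the coordinate `a (b w)`. -/
theorem lmul (φ : X →* Gam (Equiv.Perm Ω) Ω B) (a b : X) (w : Ω) :
    (φ (a * b)).left ((φ (a * b)).right • w) =
      (φ a).left ((φ a).right • (φ b).right • w) * (φ b).left ((φ b).right • w) := by
  rw [map_mul]
  change (φ a).left (((φ a).right * (φ b).right) • w) *
    (φ b).left ((φ a).right⁻¹ • ((φ a).right * (φ b).right) • w) = _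
  rw [mul_smul, inv_smul_smul]

theorem rmul (φ : X →* Gam (Equiv.Perm Ω) Ω B) (a b : X) (w : Ω) :
    (φ (a * b)).right • w = (φ a).right • (φ b).right • w := by
  rw [map_mul, SemidirectProduct.mul_right, mul_smul]

theorem rone (φ : X →* Gam (Equiv.Perm Ω) Ω B) (w : Ω) : (φ 1).right • w = w := by
  rw [map_one, SemidirectProduct.one_right, one_smul]

theorem lone (φ : X →* Gam (Equiv.Perm Ω) Ω B) (w : Ω) : (φ 1).left w = 1 := by
  rw [map_one, SemidirectProduct.one_left, Pi.one_apply]

/-- The centralizer of `Q` in the base group. -/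
theorem cent (e : (Ω → G) →* X) (p : X →* K) (φ : X →* Gam (Equiv.Perm Ω) Ω B)
    (h : ClG e ((wB κ Ω).comp φ) p) (Q : Subgroup X) (n : Ω → G) :
    e n ∈ Subgroup.centralizer (Q : Set X) ↔
      ∀ q ∈ Q, ∀ w, κ ((φ q).left ((φ q).right • w)) (n w) = n ((φ q).right • w) := by
  rw [Subgroup.mem_centralizer_iff]
  constructor
  · intro h1 q hq w
    have h2 : e (wB κ Ω (φ q) n) = e n := by
      have h3 := h.act q n
      rw [MonoidHom.comp_apply] at h3
      rw [h3, h1 q hq, mul_inv_cancel_right]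
    have h4 := congrFun (h.inj h2) ((φ q).right • w)
    rw [wB_apply, inv_smul_smul] at h4
    exact h4
  · intro h1 q hq
    have h2 : wB κ Ω (φ q) n = n := by
      funext o
      rw [wB_apply]
      have h3 := h1 q hq ((φ q).right⁻¹ • o)
      rw [smul_inv_smul] at h3
      exact h3
    have h3 := h.act q n
    rw [MonoidHom.comp_apply, h2] at h3
    nth_rewrite 2 [h3]
    rw [inv_mul_cancel_right]

end

end RINAP

open _root_.Pool.Agent.DPW.RINAP in
theorem RINAP_thm : Stmt_RINAP := by
  classical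
  intro Ω G B C X K _ _ _ _ _ _ _ _ _ _ ℓ _ ι κ ρ hS hcop e p φ hE Q hQ hQe hcore
  have hcl := hS.cl
  have hE1 := hE.cl
  -- the local homomorphisms are trivial
  have key : ∀ q ∈ Q, ∀ w : Ω, (φ q).right • w = w → (φ q).left w = 1 := by
    intro q0 hq0 w hq0w
    -- the stabilizer and its image
    set P : Subgroup B :=
      { carrier := {b | ∃ q ∈ Q, (φ q).right • w = w ∧ b = (φ q).left w}
        one_mem' := ⟨1, one_mem _, rone φ w, (lone φ w).symm⟩
        mul_mem' := by
          rintro _ _ ⟨a, ha, haw, rfl⟩ ⟨b, hb, hbw, rfl⟩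
          refine ⟨a * b, mul_mem ha hb, by rw [rmul, hbw, haw], ?_⟩
          have h1 := lmul φ a b w
          rw [rmul, hbw, haw] at h1
          exact h1.symm
        inv_mem' := by
          rintro _ ⟨a, ha, haw, rfl⟩
          have h2 : (φ a⁻¹).right • w = w := by
            have h3 := rmul φ a⁻¹ a w
            rw [inv_mul_cancel, rone, haw] at h3
            exact h3.symm
          refine ⟨a⁻¹, inv_mem ha, h2, ?_⟩
          have h1 := lmul φ a⁻¹ a w
          rw [inv_mul_cancel, rone, lone, haw, h2] at h1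
          exact (eq_inv_of_mul_eq_one_left h1.symm).symm } with hP
    have hPdef : ∀ b, b ∈ P ↔ ∃ q ∈ Q, (φ q).right • w = w ∧ b = (φ q).left w := fun b => Iff.rfl
    have hpow : ∀ q : X, (φ q).right • w = w → ∀ k : ℕ,
        (φ (q ^ k)).right • w = w ∧ (φ (q ^ k)).left w = (φ q).left w ^ k := by
      intro q hq k
      induction k with
      | zero => rw [pow_zero, pow_zero]; exact ⟨rone φ w, lone φ w⟩
      | succ k ih =>
        have h1 := lmul φ (q ^ k) q w
        have h2 := rmul φ (q ^ k) q w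
        rw [hq, ih.1] at h2
        rw [h2, hq, ih.1, ih.2] at h1
        rw [pow_succ, pow_succ]
        exact ⟨h2, h1⟩
    have hPp : IsPGroup ℓ P := by
      rintro ⟨b, q, hq, hqw, rfl⟩
      obtain ⟨k, hk⟩ := hQ ⟨q, hq⟩
      refine ⟨k, ?_⟩
      apply Subtype.ext
      have h1 : q ^ ℓ ^ k = 1 := congrArg Subtype.val hk
      change (φ q).left w ^ ℓ ^ k = 1
      rw [← (hpow q hqw (ℓ ^ k)).2, h1, lone]
    -- the image in `C` is trivial
    have hPr : ∀ b ∈ P, b ∈ ι.range := by
      intro b hb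
      rw [← hcl.ker]
      obtain ⟨k, hk⟩ := hPp ⟨b, hb⟩
      have h1 : b ^ ℓ ^ k = 1 := congrArg Subtype.val hk
      have h2 : (ρ b) ^ ℓ ^ k = 1 := by rw [← map_pow, h1, map_one]
      have : Finite C := Finite.of_surjective ρ hS.surj
      have h3 : (ρ b) ^ Nat.card C = 1 := pow_card_eq_one'
      have h4 : Nat.Coprime (ℓ ^ k) (Nat.card C) :=
        Nat.Coprime.pow_left k ((Nat.Prime.coprime_iff_not_dvd Fact.out).mpr hcop)
      have h5 := pow_gcd_eq_one.mpr ⟨h2, h3⟩
      rw [Nat.Coprime.gcd_eq_one h4, pow_one] at h5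
      exact h5
    by_contra hne
    -- a nontrivial central element
    set P' : Subgroup G := P.comap ι with hP'
    have hP'p : IsPGroup ℓ P' := hPp.comap_of_injective ι hcl.inj
    have hmem : (φ q0).left w ∈ P := ⟨q0, hq0, hq0w, rfl⟩
    obtain ⟨g0, hg0⟩ := hPr _ hmem
    have hg0P : g0 ∈ P' := by
      rw [hP', Subgroup.mem_comap, hg0]
      exact hmem
    have hnt : Nontrivial P' := by
      refine ⟨⟨⟨g0, hg0P⟩, 1, ?_⟩⟩
      intro h
      apply hne
      have h1 : g0 = 1 := congrArg Subtype.val h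
      rw [← hg0, h1, map_one]
    have : Finite P' := inferInstance
    obtain ⟨⟨z, hz⟩, hz1⟩ := (Subgroup.nontrivial_iff_exists_ne_one _).mp
      (hP'p.center_nontrivial)
    obtain ⟨hzc, hzne⟩ := hz1
    have hzcomm : ∀ g ∈ P', g * z * g⁻¹ = z := by
      intro g hg
      have h1 := Subgroup.mem_center_iff.mp hzc ⟨g, hg⟩
      have h2 : g * z = z * g := congrArg Subtype.val h1
      rw [h2, mul_inv_cancel_right]
    -- the element of the base group
    set n : Ω → G := fun o => if h : ∃ q ∈ Q, (φ q).right • w = o then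
      κ ((φ h.choose).left o) z else 1 with hn
    have hn1 : ∀ q ∈ Q, n ((φ q).right • w) = κ ((φ q).left ((φ q).right • w)) z := by
      intro q hq
      have hex : ∃ q' ∈ Q, (φ q').right • w = (φ q).right • w := ⟨q, hq, rfl⟩
      have h0 : n ((φ q).right • w) = κ ((φ hex.choose).left ((φ q).right • w)) z := by
        rw [hn]
        exact dif_pos hex
      obtain ⟨h1, h2⟩ := hex.choose_spec
      set q' := hex.choose with hq'
      -- `s = q⁻¹ q'` fixes `w`
      have h3 : (φ (q⁻¹ * q')).right • w = w := by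
        rw [rmul, h2, ← rmul, inv_mul_cancel, rone]
      have h4 := lmul φ q (q⁻¹ * q') w
      rw [mul_inv_cancel_left, h3, h2] at h4
      have h5 : (φ (q⁻¹ * q')).left w ∈ P := ⟨q⁻¹ * q', mul_mem (inv_mem hq) h1, h3, rfl⟩
      obtain ⟨g, hg⟩ := hPr _ h5
      have h6 : g ∈ P' := by
        rw [hP', Subgroup.mem_comap, hg]
        exact h5
      rw [h0, h4, ← hg, map_mul, MulAut.mul_apply, kap hcl, hzcomm g h6]
    have hn2 : ∀ o, (¬ ∃ q ∈ Q, (φ q).right • w = o) → n o = 1 := by
      intro o ho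
      rw [hn]
      exact dif_neg ho
    have hnc : e n ∈ Subgroup.centralizer (Q : Set X) := by
      rw [cent e p φ hE1 Q n]
      intro q hq o
      by_cases ho : ∃ q' ∈ Q, (φ q').right • w = o
      · obtain ⟨q', hq', rfl⟩ := ho
        have e1 := hn1 _ (mul_mem hq hq')
        rw [lmul, rmul, map_mul, MulAut.mul_apply] at e1
        rw [hn1 q' hq', e1]
      · rw [hn2 o ho, map_one, hn2]
        rintro ⟨q', hq', h1⟩
        apply ho
        refine ⟨q⁻¹ * q', mul_mem (inv_mem hq) hq', ?_⟩
        rw [rmul, h1, ← rmul, inv_mul_cancel, rone]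
    -- it is central
    have hzmem : e n ∈ cN e.range Q := Subgroup.mem_inf.mpr ⟨⟨n, rfl⟩, hnc⟩
    have hcomm : ∀ m : Ω → G, e m ∈ Subgroup.centralizer (Q : Set X) → n * m = m * n := by
      intro m hm
      rw [cent e p φ hE1 Q m] at hm
      funext o
      rw [Pi.mul_apply, Pi.mul_apply]
      by_cases ho : ∃ q' ∈ Q, (φ q').right • w = o
      · obtain ⟨q', hq', rfl⟩ := ho
        rw [hn1 q' hq', ← hm q' hq' w, ← map_mul, ← map_mul]
        congr 1
        -- `m w` commutes with `z`
        obtain ⟨q1, hq1, hq1w, hb⟩ := (hPdef (ι z)).mp (Subgroup.mem_comap.mp hz)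
        have h1 := hm q1 hq1 w
        rw [hq1w, ← hb, kap hcl] at h1
        rw [mul_inv_eq_iff_eq_mul] at h1
        exact h1
      · rw [hn2 o ho, one_mul, mul_one]
    have hfin : e n = 1 := by
      have h1 : (⟨e n, hzmem⟩ : cN e.range Q) = 1 := by
        obtain ⟨k, hk⟩ := hP'p ⟨z, hz⟩
        have hzk : z ^ ℓ ^ k = 1 := congrArg Subtype.val hk
        refine ZR.central_one (ℓ := ℓ) hcore _ ?_ k ?_
        · rintro ⟨x, hx⟩
          obtain ⟨⟨m, rfl⟩, hm⟩ := Subgroup.mem_inf.mp hx
          apply Subtype.ext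
          change e n * e m = e m * e n
          rw [← map_mul, hcomm m hm, map_mul]
        · apply Subtype.ext
          change (e n) ^ ℓ ^ k = 1
          rw [← map_pow]
          have : n ^ ℓ ^ k = 1 := by
            funext o
            rw [Pi.pow_apply, Pi.one_apply]
            by_cases ho : ∃ q' ∈ Q, (φ q').right • w = o
            · obtain ⟨q', hq', rfl⟩ := ho
              rw [hn1 q' hq', ← map_pow, hzk, map_one]
            · rw [hn2 o ho, one_pow]
          rw [this, map_one]
      exact congrArg Subtype.val h1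
    have hn0 : n = 1 := hE1.inj (by rw [hfin, map_one])
    have h1 := hn1 1 (one_mem _)
    rw [rone, lone, hn0, Pi.one_apply, map_one, MulAut.one_apply] at h1
    apply hzne
    apply Subtype.ext
    exact h1.symm
  have key2 : ∀ q ∈ Q, ∀ q' ∈ Q, ∀ w, (φ q).right • w = (φ q').right • w →
      (φ q).left ((φ q).right • w) = (φ q').left ((φ q').right • w) := by
    intro q hq q' hq' w h
    have h3 : (φ (q'⁻¹ * q)).right • w = w := by
      rw [rmul, h, ← rmul, inv_mul_cancel, rone]
    have h4 := lmul φ q' (q'⁻¹ * q) w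
    rw [mul_inv_cancel_left, h3] at h4
    rw [h4, key _ (mul_mem (inv_mem hq') hq) w h3, mul_one]
  let S : Setoid Ω :=
    { r := fun w w' => ∃ q ∈ Q, (φ q).right • w = w'
      iseqv := by
        refine ⟨fun w => ⟨1, one_mem _, rone φ w⟩, ?_, ?_⟩
        · rintro w _ ⟨q, hq, rfl⟩
          exact ⟨q⁻¹, inv_mem hq, by rw [← rmul, inv_mul_cancel, rone]⟩
        · rintro w _ _ ⟨q, hq, rfl⟩ ⟨q', hq', rfl⟩
          exact ⟨q' * q, mul_mem hq' hq, by rw [rmul]⟩ }
  have hSr : ∀ w w', (Quotient.mk S w = Quotient.mk S w') ↔ ∃ q ∈ Q, (φ q).right • w = w' :=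
    fun w w' => Quotient.eq (r := S)
  have hex : ∀ w, ∃ q ∈ Q, (φ q).right • (Quotient.mk S w).out = w := fun w =>
    (hSr _ _).mp (Quotient.out_eq _)
  choose qq hqQ hqq using hex
  have hu : ∀ q ∈ Q, ∀ w, (φ (qq ((φ q).right • w))).left ((φ q).right • w) =
      (φ q).left ((φ q).right • w) * (φ (qq w)).left w := by
    intro q hq w
    have h1 : Quotient.mk S ((φ q).right • w) = Quotient.mk S w := ((hSr _ _).mpr ⟨q, hq, rfl⟩).symm
    have h2 := hqq ((φ q).right • w)
    rw [h1] at h2
    have h3 := hqq w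
    have h4 := key2 (qq ((φ q).right • w)) (hqQ _) (q * qq w) (mul_mem hq (hqQ _))
      (Quotient.mk S w).out (by rw [h2, rmul, h3])
    rw [h2, lmul, h3] at h4
    exact h4
  refine ⟨Quotient S, Fintype.ofFinite _, Classical.decEq _, Quotient.mk S,
    fun w => (φ (qq w)).left w, Quotient.mk_surjective, hSr, ?_, hu, ?_⟩
  · intro o
    obtain ⟨w0, rfl⟩ := Quotient.exists_rep o
    let act : MulAction Q Ω :=
      MulAction.compHom Ω ((SemidirectProduct.rightHom.comp φ).comp Q.subtype)
    have hsm : ∀ (q : Q) (w : Ω), q • w = (φ (q : X)).right • w := fun _ _ => rfl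
    obtain ⟨k, hk⟩ := hQ.card_orbit w0
    refine ⟨k, ?_⟩
    rw [← hk]
    refine Nat.card_congr (Equiv.subtypeEquivRight ?_)
    intro w
    rw [MulAction.mem_orbit_iff, eq_comm, hSr]
    constructor
    · rintro ⟨q, hq, h⟩
      exact ⟨⟨q, hq⟩, h⟩
    · rintro ⟨q, h⟩
      exact ⟨q, q.2, h⟩
  · intro n
    rw [cent e p φ hE1 Q n]
    constructor
    · intro h
      refine ⟨fun o => (κ ((φ (qq o.out)).left o.out))⁻¹ (n o.out), ?_⟩
      funext w
      have h1 := h (qq w) (hqQ w) (Quotient.mk S w).out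
      rw [hqq w] at h1
      have h2 := hu (qq w) (hqQ w) (Quotient.mk S w).out
      rw [hqq w] at h2
      change n w = κ ((φ (qq w)).left w) _
      rw [h2, map_mul, MulAut.mul_apply, MulAut.apply_inv_self, h1]
    · rintro ⟨n', rfl⟩ q hq w
      have h1 := hu q hq w
      have h2 : Quotient.mk S ((φ q).right • w) = Quotient.mk S w :=
        ((hSr _ _).mpr ⟨q, hq, rfl⟩).symm
      change κ _ (κ ((φ (qq w)).left w) (n' (Quotient.mk S w))) =
        κ ((φ (qq ((φ q).right • w))).left ((φ q).right • w)) (n' (Quotient.mk S ((φ q).right • w)))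
      rw [h1, h2, map_mul, MulAut.mul_apply]

end Pool.Agent.DPW


end

section

/-!
# The groups all of whose almost simple sections are sections of a given group
-/

namespace Pool.Agent.DPK

open Pool.Agent.Lib_helper13.Dade (pCore DadeHolds)

/-- The class of the groups `Y` such that every group `A` with a nonabelian simple normal subgroup
`S` of order divisible by `ℓ` and with trivial centralizer which is an image of a subgroup of `Y` is
an image of a subgroup of `X`. -/
def SecC (ℓ : ℕ) (X : Type) [Group X] (Y : Type) [Group Y] : Prop :=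
  ∀ (H : Subgroup Y) (A : Type) [Group A] (f : H →* A), Function.Surjective f →
    ∀ S : Subgroup A, S.Normal → IsSimpleGroup S → (∃ a ∈ S, ∃ b ∈ S, a * b ≠ b * a) →
    Subgroup.centralizer (S : Set A) = ⊥ → ℓ ∣ Nat.card S →
    ∃ (T : Subgroup X) (g : T →* A), Function.Surjective g

theorem SecC_self (ℓ : ℕ) (X : Type) [Group X] : SecC ℓ X X := by
  intro H A _ f hf S _ _ _ _ _
  exact ⟨H, f, hf⟩

theorem SecC_GC (ℓ : ℕ) (X : Type) [Group X] : GC (SecC ℓ X) where
  im := by
    intro Y Y' _ _ _ f hf hY H A _ g hg S hSn hSs hSa hSc hSl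
    refine hY (H.comap f) A (g.comp ((f.comp (H.comap f).subtype).codRestrict H
      (fun x => x.2))) ?_ S hSn hSs hSa hSc hSl
    intro a
    obtain ⟨h, rfl⟩ := hg a
    obtain ⟨y, hy⟩ := hf h
    refine ⟨⟨y, ?_⟩, ?_⟩
    · rw [Subgroup.mem_comap, hy]
      exact h.2
    · rw [MonoidHom.comp_apply]
      congr 1
      exact Subtype.ext hy
  up := by
    intro Y Y' _ _ _ f hker hY H A _ g hg S hSn hSs hSa hSc hSl
    -- the restriction of `f` to `H` and its kernel
    have hk : (f.subgroupMap H).ker ≤ g.ker := by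
      intro x hx
      have hx1 : f x = 1 := by
        have h1 := (MonoidHom.mem_ker).mp hx
        have h2 := congrArg Subtype.val h1
        simpa using h2
      have hx2 : (x : Y) ∈ Subgroup.center Y := hker (MonoidHom.mem_ker.mpr hx1)
      have hx3 : g x ∈ Subgroup.centralizer (S : Set A) := by
        rw [Subgroup.mem_centralizer_iff]
        intro s _
        obtain ⟨t, rfl⟩ := hg s
        rw [← map_mul, ← map_mul]
        congr 1
        apply Subtype.ext
        exact (Subgroup.mem_center_iff.mp hx2 t)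
      rw [hSc, Subgroup.mem_bot] at hx3
      exact MonoidHom.mem_ker.mpr hx3
    have hs : Function.Surjective (f.subgroupMap H) := f.subgroupMap_surjective H
    refine hY (H.map f) A ((f.subgroupMap H).liftOfSurjective hs ⟨g, hk⟩) ?_ S hSn hSs hSa hSc hSl
    intro a
    obtain ⟨h, rfl⟩ := hg a
    refine ⟨f.subgroupMap H h, ?_⟩
    exact MonoidHom.liftOfRightInverse_comp_apply _ _ _ _ h

end Pool.Agent.DPK


end
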