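import Mathlib
import Pool.Agent.DAM.C01
import Pool.Agent.DAM.C11
import Pool.Agent.DAM.C12

/-! Parts: DPC.TJ, DPB.BRF -/

section

/-!
# The sum over the data whose group contains `J` vanishes
-/

namespace Pool.Agent.DPC

open Pool.Agent.DP

open Pool.Agent.Lib_helper13 Representation
open Pool.Agent.Lib_helper13.Dade (pCore DadeHolds)

namespace TJ

theorem irrOn_of_mem {G : Type*} [Group G] [Fintype G] {S : Subgroup G} {f : G → ℂ}
    (hf : f ∈ irrOn S) : IrrOn S f := by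
  classical
  rw [irrOn, Finset.mem_image] at hf
  obtain ⟨ψ, hψ, rfl⟩ := hf
  refine ⟨?_, fun x hx => ext0_of_not_mem ψ hx⟩
  have h : (fun s : S => ext0 ψ (s : G)) = ψ := by
    funext s
    simp [ext0]
  rw [h]
  exact mem_irrF.mp hψ

theorem cg_comp {G : Type*} [Group G] [Fintype G] (𝔐 : Ideal (integralClosure ℤ ℂ))
    (α : MulAut G) (θ : G → ℂ) (g : G) : cg 𝔐 (fun x => θ (α x)) g = cg 𝔐 θ (α g) := by
  change red 𝔐 ((∑ x, conjInd x g * θ (α x)) / θ (α 1)) =
    red 𝔐 ((∑ x, conjInd x (α g) * θ x) / θ 1)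
  rw [map_one]
  congr 2
  refine Fintype.sum_equiv α.toEquiv _ _ fun x => ?_
  change conjInd x g * θ (α x) = conjInd (α x) (α g) * θ (α x)
  congr 1
  refine conjInd_congr ?_
  constructor
  · intro h
    exact MonoidHom.map_isConj α.toMonoidHom h
  · intro h
    have h' := MonoidHom.map_isConj α.symm.toMonoidHom h
    simpa using h'

theorem dzT_transport {G B C : Type*} [Group G] [Group B] [Group C] [Fintype G]
    (𝔐 : Ideal (integralClosure ℤ ℂ)) (ℓ : ℕ) {ι : G →* B} {κ : B →* MulAut G} {ρ : B →* C}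
    (cl : ClG ι κ ρ) (a : B) {β : Set (B → (integralClosure ℤ ℂ) ⧸ 𝔐)} (h : dzT 𝔐 ℓ ι β) :
    dzT 𝔐 ℓ ι ((fun b0 x => b0 (a⁻¹ * x * a)) '' β) := by
  obtain ⟨b, hb, θ, h1, h2, h3⟩ := h
  refine ⟨_, ⟨b, hb, rfl⟩, fun x => θ (κ a⁻¹ x), ?_, ?_, ?_⟩
  · exact h1.comp_mulEquiv (κ a⁻¹)
  · exact (hasDefect_comp_equiv (κ a⁻¹)).mpr h2
  · intro g
    have h4 : a⁻¹ * ι g * a = ι (κ a⁻¹ g) := by rw [cl.act, inv_inv]
    change b (a⁻¹ * ι g * a) = _
    rw [h4, h3, cg_comp]

theorem expand {Q : Type*} [Fintype Q] [DecidableEq Q] (n d : Q → ℕ) (hn : ∀ w, 1 ≤ n w)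
    (e : ℕ) :
    (if ∑ w, n w * d w = e then (1 : ℚ) else 0) =
      ∑ E ∈ (Fintype.piFinset (fun _ : Q => Finset.range (e + 1))).filter
        (fun E => ∑ w, n w * E w = e), ∏ w, (if d w = E w then (1 : ℚ) else 0) := by
  have h1 : ∀ E : Q → ℕ, ∏ w, (if d w = E w then (1 : ℚ) else 0) = if d = E then 1 else 0 := by
    intro E
    by_cases h : d = E
    · subst h
      simp
    · rw [if_neg h]
      obtain ⟨w, hw⟩ := Function.ne_iff.mp h
      exact Finset.prod_eq_zero (Finset.mem_univ w) (if_neg hw)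
  simp_rw [h1]
  rw [Finset.sum_ite_eq]
  refine if_congr ?_ rfl rfl
  rw [Finset.mem_filter, Fintype.mem_piFinset]
  constructor
  · intro h
    refine ⟨fun w => ?_, h⟩
    rw [Finset.mem_range]
    have h2 : n w * d w ≤ ∑ w, n w * d w :=
      Finset.single_le_sum (f := fun w => n w * d w) (fun _ _ => Nat.zero_le _)
        (Finset.mem_univ w)
    have h3 : d w ≤ n w * d w := Nat.le_mul_of_pos_left _ (hn w)
    omega
  · exact fun h => h.2

theorem ite_help (a b c : Prop) [Decidable (a ∧ b ∧ c)] [Decidable (a ∧ c)] [Decidable b] :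
    (if a ∧ b ∧ c then (1 : ℚ) else 0) = (if a ∧ c then 1 else 0) * (if b then 1 else 0) := by
  by_cases ha : a <;> by_cases hb : b <;> by_cases hc : c <;> simp [ha, hb, hc]

end TJ

open Classical in
theorem TJ_thm (h1 : Stmt_LIFT) (h2 : Stmt_CNTG) (h3 : Stmt_REPJ) (h4 : Stmt_TRBR)
    (h5 : Stmt_FIXR) (h6 : Stmt_EVALR) : Stmt_TJ := by
  intro O G B C Y K _ _ _ _ _ _ _ _ _ _ _ 𝔐 ℓ _ h𝔐 hℓ ι κ ρ hL hVS j p φ hE J e β hβ
  obtain ⟨o₀, ho₀⟩ := hβ
  obtain ⟨⟨r, t, hr⟩, -, hrep⟩ := h3 O G B C Y K ℓ ι κ ρ hL j p φ hE J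
  obtain ⟨hrr, hvg, -⟩ := hrep r t hr
  -- existence of transports
  have hex : ∀ τ ∈ ClCh O G ℓ, ∀ θ : O → G → ℂ, (∀ o, IrrOn (stb (comp τ o)) (θ o)) →
      J ≤ KB κ p φ τ θ → ∃ g : O → B, (∀ o, r o = o → g o = 1) ∧
        (∀ o, ρ (g o) = ρ ((φ (t o)).left o)) ∧ ∀ o, trB κ τ θ (r o) o (g o) := by
    intro τ hτ θ hθ hJ
    have h := h2 O G B C Y K ℓ ι κ ρ hL j p φ hE J r t hr τ hτ θ hθ hJ
    have h' : 0 < ∏ o ∈ Finset.univ.filter (fun o => r o ≠ o), Nat.card (stb (comp τ o)) :=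
      Finset.prod_pos fun o _ => Nat.card_pos
    rw [← h] at h'
    obtain ⟨⟨g, hg⟩⟩ := (Nat.card_pos_iff.mp h').1
    exact ⟨g, hg⟩
  by_cases hcomp : ∀ o, (fun (b0 : B → (integralClosure ℤ ℂ) ⧸ 𝔐) x =>
      b0 (((φ (t o)).left o)⁻¹ * x * (φ (t o)).left o)) '' β (r o) = β o
  swap
  · refine Finset.sum_eq_zero fun τ hτ => ?_
    rw [Finset.sum_eq_zero, mul_zero, mul_zero]
    intro θ hθ
    rw [if_neg]
    rintro ⟨hJ, -, hb⟩
    have hθ' : ∀ o, IrrOn (stb (comp τ o)) (θ o) := fun o =>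
      TJ.irrOn_of_mem (Fintype.mem_piFinset.mp hθ o)
    obtain ⟨g, -, hg2, hg3⟩ := hex τ hτ θ hθ' hJ
    apply hcomp
    intro o
    have h := (h1 O G B C Y K 𝔐 ℓ ι κ ρ hL j p φ hE J r t hr τ hτ θ hθ' g hg2 hg3).2 o
    rw [hb] at h
    exact h.symm
  -- the representatives
  let Q := {o : O // r o = o}
  let q : O → Q := fun o => ⟨r o, hrr o⟩
  let s : Q → O := Subtype.val
  have hqs : ∀ w, q (s w) = w := fun w => Subtype.ext w.2
  have hsq : ∀ o, s (q o) = r o := fun o => rfl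
  let n : Q → ℕ := fun w => (Finset.univ.filter (fun o => q o = w)).card
  have hn : ∀ w, 1 ≤ n w := by
    intro w
    refine Finset.card_pos.mpr ⟨s w, ?_⟩
    rw [Finset.mem_filter]
    exact ⟨Finset.mem_univ _, hqs w⟩
  let 𝒢 : Finset (O → B) := Finset.univ.filter (fun g => (∀ o, r o = o → g o = 1) ∧
    ∀ o, ρ (g o) = ρ ((φ (t o)).left o))
  let cond : Finset (Subgroup (O → G)) → (O → G → ℂ) → Prop := fun τ θ =>
    J ≤ KB κ p φ τ θ ∧ ∑ o, df ℓ (stb (comp τ o)) (θ o) = e ∧ bts 𝔐 ι κ ρ p φ τ θ J = β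
  let P0 : Finset (Subgroup (O → G)) → ℚ := fun τ =>
    ∏ o ∈ Finset.univ.filter (fun o => r o = o), (Nat.card (stb (comp τ o)) : ℚ)
  -- step A
  have hA : ∀ τ ∈ ClCh O G ℓ, ∀ θ ∈ Fintype.piFinset (fun o => irrOn (stb (comp τ o))),
      (∏ o, (Nat.card (stb (comp τ o)) : ℚ)) * (if cond τ θ then 1 else 0) =
        ∑ g ∈ 𝒢, if ∀ o, trB κ τ θ (s (q o)) o (g o) then
          P0 τ * (if cond τ θ then (1 : ℚ) else 0) else 0 := by
    intro τ hτ θ hθ
    have hθ' : ∀ o, IrrOn (stb (comp τ o)) (θ o) := fun o =>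
      TJ.irrOn_of_mem (Fintype.mem_piFinset.mp hθ o)
    by_cases hc : cond τ θ
    · rw [if_pos hc, mul_one, mul_one, ← Finset.sum_filter, Finset.sum_const, nsmul_eq_mul,
        Finset.filter_filter]
      have h := h2 O G B C Y K ℓ ι κ ρ hL j p φ hE J r t hr τ hτ θ hθ' hc.1
      rw [Nat.card_eq_fintype_card, Fintype.card_subtype] at h
      have h' : (Finset.univ.filter (fun g : O → B => ((∀ o, r o = o → g o = 1) ∧
          ∀ o, ρ (g o) = ρ ((φ (t o)).left o)) ∧ ∀ o, trB κ τ θ (s (q o)) o (g o))).card =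
          ∏ o ∈ Finset.univ.filter (fun o => r o ≠ o), Nat.card (stb (comp τ o)) := by
        rw [← h]
        congr 1
        ext g
        simp only [Finset.mem_filter, Finset.mem_univ, true_and, and_assoc, hsq]
      rw [h', Nat.cast_prod, mul_comm]
      exact (Finset.prod_filter_mul_prod_filter_not _ _ _).symm
    · rw [if_neg hc, mul_zero, mul_zero]
      simp
  -- step B
  have hB : ∑ τ ∈ ClCh O G ℓ, (-1 : ℚ) ^ τ.card * ((∏ o, (Nat.card (stb (comp τ o)) : ℚ)) *
        ∑ θ ∈ Fintype.piFinset (fun o => irrOn (stb (comp τ o))),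
          (if cond τ θ then 1 else 0)) =
      ∑ g ∈ 𝒢, ∑ τ ∈ ClCh O G ℓ, (-1 : ℚ) ^ τ.card *
        ∑ θ ∈ (Fintype.piFinset (fun o => irrOn (stb (comp τ o)))).filter
          (fun θ => ∀ o, trB κ τ θ (s (q o)) o (g o)),
          P0 τ * (if cond τ θ then (1 : ℚ) else 0) := by
    rw [Finset.sum_comm]
    refine Finset.sum_congr rfl fun τ hτ => ?_
    rw [← Finset.mul_sum, Finset.mul_sum]
    congr 1
    rw [Finset.sum_congr rfl (hA τ hτ), Finset.sum_comm]
    refine Finset.sum_congr rfl fun g _ => ?_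
    rw [Finset.sum_filter]
  refine hB.trans ?_
  refine Finset.sum_eq_zero fun g hg => ?_
  obtain ⟨hg1, hg2⟩ : (∀ o, r o = o → g o = 1) ∧ ∀ o, ρ (g o) = ρ ((φ (t o)).left o) := by
    have := (Finset.mem_filter.mp hg).2
    exact this
  let H : (Q → Finset (Subgroup G)) → (Q → G → ℂ) → ℚ := fun c th =>
    (∏ w, (Nat.card (stb (c w)) : ℚ)) *
      (if (∀ w, vg ρ p φ J w.1 ≤ (Stx κ (c w) (th w)).map ρ) ∧
        ∑ w, n w * df ℓ (stb (c w)) (th w) = e ∧
        ∀ w, bet 𝔐 ι κ ρ (c w) (th w) (vg ρ p φ J w.1) = β w.1 then 1 else 0)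
  -- step C
  have hC : ∀ τ ∈ ClCh O G ℓ, ∀ θ ∈ (Fintype.piFinset (fun o => irrOn (stb (comp τ o)))).filter
      (fun θ => ∀ o, trB κ τ θ (s (q o)) o (g o)),
      P0 τ * (if cond τ θ then (1 : ℚ) else 0) =
        H (fun w => comp τ (s w)) (fun w => θ (s w)) := by
    intro τ hτ θ hθ
    rw [Finset.mem_filter, Fintype.mem_piFinset] at hθ
    obtain ⟨hθ1, hθ2⟩ := hθ
    have hθ' : ∀ o, IrrOn (stb (comp τ o)) (θ o) := fun o => TJ.irrOn_of_mem (hθ1 o)
    have htr : ∀ o, trB κ τ θ (r o) o (g o) := hθ2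
    obtain ⟨hl1, hl2⟩ := h1 O G B C Y K 𝔐 ℓ ι κ ρ hL j p φ hE J r t hr τ hτ θ hθ' g hg2 htr
    have hdf : ∀ o, df ℓ (stb (comp τ o)) (θ o) = df ℓ (stb (comp τ (s (q o)))) (θ (s (q o))) :=
      fun o => (((h4 O G B C 𝔐 ℓ ι κ ρ hL τ θ hθ').2 (r o) o (g o) (htr o)).2.1).symm
    have hsum : ∑ o, df ℓ (stb (comp τ o)) (θ o) =
        ∑ w, n w * df ℓ (stb (comp τ (s w))) (θ (s w)) := by
      rw [← Finset.sum_fiberwise Finset.univ q]
      refine Finset.sum_congr rfl fun w _ => ?_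
      rw [Finset.sum_congr rfl (g := fun _ => df ℓ (stb (comp τ (s w))) (θ (s w)))]
      · rw [Finset.sum_const, smul_eq_mul]
      · intro o ho
        rw [hdf o, (Finset.mem_filter.mp ho).2]
    change _ = (∏ w : Q, (Nat.card (stb (comp τ (s w))) : ℚ)) * _
    congr 1
    · change ∏ o ∈ Finset.univ.filter (fun o => r o = o), (Nat.card (stb (comp τ o)) : ℚ) = _
      exact Finset.prod_subtype (p := fun o => r o = o) _
        (fun o => by rw [Finset.mem_filter]; exact and_iff_right (Finset.mem_univ _)) _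
    · refine if_congr ?_ rfl rfl
      refine and_congr ?_ (and_congr ?_ ?_)
      · rw [hl1]
        constructor
        · intro h w
          have h' := h w.1
          rw [w.2] at h'
          exact h'
        · intro h o
          exact h (q o)
      · rw [hsum]
      · constructor
        · intro h w
          have h' := congrFun h w.1
          rw [← h']
          rfl
        · intro h
          funext o
          rw [hl2 o, ← hcomp o]
          congr 1
          have h' := h (q o)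
          exact h'
  have hC' : ∑ τ ∈ ClCh O G ℓ, (-1 : ℚ) ^ τ.card *
        ∑ θ ∈ (Fintype.piFinset (fun o => irrOn (stb (comp τ o)))).filter
          (fun θ => ∀ o, trB κ τ θ (s (q o)) o (g o)),
          P0 τ * (if cond τ θ then (1 : ℚ) else 0) =
      ∑ τ ∈ ClCh O G ℓ, (-1 : ℚ) ^ τ.card *
        ∑ θ ∈ (Fintype.piFinset (fun o => irrOn (stb (comp τ o)))).filter
          (fun θ => ∀ o, trB κ τ θ (s (q o)) o (g o)),
          H (fun w => comp τ (s w)) (fun w => θ (s w)) := by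
    refine Finset.sum_congr rfl fun τ hτ => ?_
    rw [Finset.sum_congr rfl (hC τ hτ)]
  rw [hC', h5 O Q G B ℓ κ q s g hqs (fun w => hg1 _ w.2) H]
  -- step D
  have hD : ∀ c th, H c th = ∑ E ∈ (Fintype.piFinset (fun _ : Q => Finset.range (e + 1))).filter
        (fun E => ∑ w, n w * E w = e), ∏ w, ((Nat.card (stb (c w)) : ℚ) *
        (if vg ρ p φ J w.1 ≤ (Stx κ (c w) (th w)).map ρ ∧ df ℓ (stb (c w)) (th w) = E w ∧
          bet 𝔐 ι κ ρ (c w) (th w) (vg ρ p φ J w.1) = β w.1 then 1 else 0)) := by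
    intro c th
    have hite : ∀ E : Q → ℕ, ∏ w, ((Nat.card (stb (c w)) : ℚ) *
        (if vg ρ p φ J w.1 ≤ (Stx κ (c w) (th w)).map ρ ∧ df ℓ (stb (c w)) (th w) = E w ∧
          bet 𝔐 ι κ ρ (c w) (th w) (vg ρ p φ J w.1) = β w.1 then 1 else 0)) =
        ((∏ w, (Nat.card (stb (c w)) : ℚ)) *
          (if (∀ w, vg ρ p φ J w.1 ≤ (Stx κ (c w) (th w)).map ρ) ∧
            ∀ w, bet 𝔐 ι κ ρ (c w) (th w) (vg ρ p φ J w.1) = β w.1 then 1 else 0)) *
          ∏ w, (if df ℓ (stb (c w)) (th w) = E w then (1 : ℚ) else 0) := by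
      intro E
      rw [Finset.prod_mul_distrib, mul_assoc]
      congr 1
      by_cases hx : (∀ w, vg ρ p φ J w.1 ≤ (Stx κ (c w) (th w)).map ρ) ∧
            ∀ w, bet 𝔐 ι κ ρ (c w) (th w) (vg ρ p φ J w.1) = β w.1
      · rw [if_pos hx, one_mul]
        refine Finset.prod_congr rfl fun w _ => ?_
        refine if_congr ?_ rfl rfl
        exact ⟨fun h => h.2.1, fun h => ⟨hx.1 w, h, hx.2 w⟩⟩
      · rw [if_neg hx, zero_mul]
        rw [not_and_or, not_forall, not_forall] at hx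
        rcases hx with ⟨w, hw⟩ | ⟨w, hw⟩
        · exact Finset.prod_eq_zero (Finset.mem_univ w) (if_neg fun h => hw h.1)
        · exact Finset.prod_eq_zero (Finset.mem_univ w) (if_neg fun h => hw h.2.2)
    simp_rw [hite]
    rw [← Finset.mul_sum, ← TJ.expand n _ hn e, mul_assoc]
    change (∏ w, (Nat.card (stb (c w)) : ℚ)) * _ = _
    congr 1
    exact TJ.ite_help _ _ _
  have hD' : ∑ τ ∈ ClCh Q G ℓ, (-1 : ℚ) ^ τ.card *
      ∑ θ ∈ Fintype.piFinset (fun w => irrOn (stb (comp τ w))), H (fun w => comp τ w) θ =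
      ∑ E ∈ (Fintype.piFinset (fun _ : Q => Finset.range (e + 1))).filter
        (fun E => ∑ w, n w * E w = e), ∏ w : Q, VS 𝔐 ℓ ι κ ρ (vg ρ p φ J w.1) (β w.1) (E w) := by
    have hE' : ∀ E : Q → ℕ, ∏ w : Q, VS 𝔐 ℓ ι κ ρ (vg ρ p φ J w.1) (β w.1) (E w) =
        ∑ τ ∈ ClCh Q G ℓ, (-1 : ℚ) ^ τ.card *
          ∑ θ ∈ Fintype.piFinset (fun w => irrOn (stb (comp τ w))),
            ∏ w, ((Nat.card (stb (comp τ w)) : ℚ) *
        (if vg ρ p φ J w.1 ≤ (Stx κ (comp τ w) (θ w)).map ρ ∧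
          df ℓ (stb (comp τ w)) (θ w) = E w ∧
          bet 𝔐 ι κ ρ (comp τ w) (θ w) (vg ρ p φ J w.1) = β w.1 then 1 else 0)) := by
      intro E
      exact (h6 Q G ℓ (fun w σ ψ => (Nat.card (stb σ) : ℚ) *
        (if vg ρ p φ J w.1 ≤ (Stx κ σ ψ).map ρ ∧
          df ℓ (stb σ) ψ = E w ∧
          bet 𝔐 ι κ ρ σ ψ (vg ρ p φ J w.1) = β w.1 then 1 else 0))).symm
    simp_rw [hE']
    rw [Finset.sum_comm]
    refine Finset.sum_congr rfl fun τ _ => ?_
    rw [Finset.sum_congr rfl (fun θ _ => hD _ _), Finset.sum_comm, Finset.mul_sum]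
  rw [hD']
  refine Finset.sum_eq_zero fun E _ => ?_
  refine Finset.prod_eq_zero (Finset.mem_univ (q o₀)) ?_
  apply hVS
  intro hdz
  apply ho₀
  rw [← hcomp o₀]
  exact TJ.dzT_transport 𝔐 ℓ hL.cl _ hdz

end Pool.Agent.DPC


end

section

/-!
# BRF: powers of group algebra elements modulo commutators
-/

namespace Pool.Agent.DPB

open Pool.Agent.Lib_helper13 Representation

namespace BRF

/-- The expansion of a power of a sum in a ring which need not be commutative. -/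
theorem sum_pow_words {A H : Type} [Semiring A] [Fintype H] (x : H → A) (m : ℕ) :
    (∑ h, x h) ^ m = ∑ w : Fin m → H, (List.ofFn fun i => x (w i)).prod := by
  induction m with
  | zero => simp
  | succ m ih =>
    rw [pow_succ', ih, Finset.sum_mul_sum, ← Fintype.sum_prod_type']
    refine Fintype.sum_equiv (Fin.consEquiv fun _ => H) _ _ fun p => ?_
    rw [List.ofFn_succ, List.prod_cons]
    rfl

variable {A F H : Type} [Semiring A]

/-- A trace function does not change when a word is shifted by one place. -/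
theorem shift_one (Λ : A → F) (hΛ : ∀ a b, Λ (a * b) = Λ (b * a)) (x : H → A) (k : ℕ)
    (w : Fin (k + 1) → H) :
    Λ (List.ofFn fun i => x (w (i + 1))).prod = Λ (List.ofFn fun i => x (w i)).prod := by
  have h1 : (List.ofFn fun i => x (w i)).prod
      = x (w 0) * (List.ofFn fun i : Fin k => x (w i.succ)).prod := by
    rw [List.ofFn_succ, List.prod_cons]
  have h2 : (List.ofFn fun i => x (w (i + 1))).prod
      = (List.ofFn fun i : Fin k => x (w i.succ)).prod * x (w 0) := by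
    rw [List.ofFn_succ', List.concat_eq_append, List.prod_append, List.prod_singleton]
    have e1 : ∀ i : Fin k, (Fin.castSucc i + 1 : Fin (k + 1)) = i.succ := fun i =>
      Fin.coeSucc_eq_succ
    have e2 : (Fin.last k + 1 : Fin (k + 1)) = 0 := Fin.last_add_one k
    simp only [e1, e2]
  rw [h1, h2, hΛ]

/-- A trace function does not change when a word is shifted. -/
theorem shift_all (Λ : A → F) (hΛ : ∀ a b, Λ (a * b) = Λ (b * a)) (x : H → A) (k : ℕ)
    (q : Fin (k + 1)) : ∀ w : Fin (k + 1) → H,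
      Λ (List.ofFn fun i => x (w (i + q))).prod = Λ (List.ofFn fun i => x (w i)).prod := by
  induction q using Fin.induction with
  | zero => intro w; simp only [add_zero]
  | succ j ih =>
    intro w
    have h := shift_one Λ hΛ x k (fun i => w (i + j.castSucc))
    rw [ih w] at h
    rw [← h]
    have e1 : ∀ i : Fin (k + 1), i + j.succ = i + 1 + j.castSucc := by
      intro i
      have : (j.castSucc + 1 : Fin (k + 1)) = j.succ := Fin.coeSucc_eq_succ
      rw [← this, add_assoc, add_comm 1]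
    simp only [e1]

/-- The action on words by shifts. -/
@[reducible] def act (H : Type) (k : ℕ) : MulAction (Multiplicative (Fin (k + 1))) (Fin (k + 1) → H) where
  smul q w := fun i => w (i + q.toAdd)
  one_smul w := by
    funext i
    show w (i + 0) = w i
    rw [add_zero]
  mul_smul p q w := by
    funext i
    show w (i + (p.toAdd + q.toAdd)) = w (i + p.toAdd + q.toAdd)
    rw [add_assoc]

end BRF

open _root_.Pool.Agent.DPB.BRF in
theorem BRF_thm : Stmt_BRF := by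
  classical
  intro ℓ hℓ F H _ _ _ _ Λ hΛ z n
  obtain ⟨k, hk⟩ : ∃ k, ℓ ^ n = k + 1 :=
    ⟨ℓ ^ n - 1, (Nat.succ_pred_eq_of_pos (pow_pos hℓ.out.pos n)).symm⟩
  rw [sum_pow_words (fun h => MonoidAlgebra.single h (z h)), map_sum, hk]
  letI := act H k
  have hQ : IsPGroup ℓ (Multiplicative (Fin (k + 1))) := by
    apply IsPGroup.of_card (n := n)
    rw [Nat.card_eq_fintype_card, Fintype.card_multiplicative, Fintype.card_fin, hk]
  have hM : ∀ m : F, ℓ • m = 0 := by
    intro m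
    rw [nsmul_eq_mul, CharP.cast_eq_zero, zero_mul]
  rw [sum_eq_sum_fixed hQ hM (fun w : Fin (k + 1) → H =>
    Λ (List.ofFn fun i => MonoidAlgebra.single (w i) (z (w i))).prod)]
  · symm
    refine Finset.sum_bij (fun h _ => fun _ : Fin (k + 1) => h) ?_ ?_ ?_ ?_
    · intro h _
      rw [Finset.mem_filter]
      exact ⟨Finset.mem_univ _, fun q => rfl⟩
    · intro h _ h' _ he
      exact congrFun he 0
    · intro w hw
      have hw' := (Finset.mem_filter.mp hw).2
      refine ⟨w 0, Finset.mem_univ _, ?_⟩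
      funext i
      have h1 := congrFun (hw' (Multiplicative.ofAdd i)) 0
      have h2 : w (0 + i) = w 0 := h1
      rw [zero_add] at h2
      exact h2.symm
    · intro h _
      rw [List.ofFn_const, List.prod_replicate, MonoidAlgebra.single_pow]
      have h1 : (MonoidAlgebra.single (h ^ (k + 1)) (z h ^ (k + 1)) : MonoidAlgebra F H)
          = (z h ^ (k + 1)) • MonoidAlgebra.single (h ^ (k + 1)) 1 := by
        rw [MonoidAlgebra.smul_single, smul_eq_mul, mul_one]
      rw [h1, map_smul, smul_eq_mul]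
  · intro q w
    exact shift_all (fun a => Λ a) hΛ (fun h => MonoidAlgebra.single h (z h)) k q.toAdd w

end Pool.Agent.DPB


end
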