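import Mathlib
import Pool.Agent.DAM.C01
import Pool.Agent.DAM.C11
import Pool.Agent.DAM.C14
import Pool.Agent.DAM.C18
import Pool.Agent.DAM.C19
import Pool.Agent.DAM.C20
import Pool.Agent.DAM.C22
import Pool.Agent.DAM.C26
import Pool.Agent.DAM.C27
import Pool.Agent.DAM.C29
import Pool.Agent.DAM.C40
import Pool.Agent.DAM.C80

/-! Parts: DPT.MLX, DPT.OUTS, DPV.ASCV, DPB.BRM, DPW.CNTB, DPX.CNTI, DPX.CNTX, DPX.ATNX, DPX.NILO, DPX.MT2X, DPG.SST -/

section

/-!
# MLX: the values of the characters over a linear character of the kernel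
-/

set_option autoImplicit false
set_option linter.unusedSectionVars false

namespace Pool.Agent.DPT

open Pool.Agent.DP Pool.Agent.DPC Pool.Agent.DPM Pool.Agent.DPN Pool.Agent.Lib_helper13
open Representation
open Pool.Agent.Lib_helper13.Dade (pCore DadeHolds dadeSum)
open Pool.Agent.DPX (Stmt_OSIX)

namespace MLX

theorem sum_comp_surj {X Y : Type*} [Group X] [Fintype X] [Group Y] [Fintype Y] (p : X →* Y)
    (hp : Function.Surjective p) (f : Y → ℂ) :
    ∑ x, f (p x) = (Nat.card p.ker : ℂ) * ∑ y, f y := by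
  classical
  rw [← Finset.sum_fiberwise_of_maps_to (s := Finset.univ) (t := Finset.univ) (g := p)
    (fun _ _ => Finset.mem_univ _), Finset.mul_sum]
  refine Finset.sum_congr rfl fun y _ => ?_
  have h1 : ∀ x ∈ Finset.univ.filter (fun x => p x = y), f (p x) = f y := by
    intro x hx
    rw [(Finset.mem_filter.mp hx).2]
  rw [Finset.sum_congr rfl h1, Finset.sum_const, nsmul_eq_mul]
  congr 2
  obtain ⟨x0, hx0⟩ := hp y
  rw [← Fintype.card_subtype, ← Nat.card_eq_fintype_card]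
  refine Nat.card_congr ⟨fun x => ⟨x0⁻¹ * x.1, ?_⟩, fun x => ⟨x0 * x.1, ?_⟩, ?_, ?_⟩
  · rw [MonoidHom.mem_ker, map_mul, map_inv, x.2, hx0, inv_mul_cancel]
  · rw [map_mul, MonoidHom.mem_ker.mp x.2, hx0, mul_one]
  · intro x
    apply Subtype.ext
    simp
  · intro x
    apply Subtype.ext
    simp

theorem isIrr_comp_surj {X Y : Type*} [Group X] [Fintype X] [Group Y] [Fintype Y] (p : X →* Y)
    (hp : Function.Surjective p) {χ : Y → ℂ} (hχ : IsIrr χ) : IsIrr (fun x => χ (p x)) := by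
  refine (hχ.isChr.comp p).isIrr ?_
  have h1 := sum_comp_surj p hp (fun y => χ y * χ y⁻¹)
  have h2 : ∀ x, χ (p x) * χ (p x⁻¹) = (fun y => χ y * χ y⁻¹) (p x) := by
    intro x
    simp
  rw [Finset.sum_congr rfl fun x _ => h2 x, h1, hχ.sum_self]
  have h3 : Nat.card X = Nat.card p.ker * Nat.card Y := by
    have h4 := Subgroup.card_mul_index p.ker
    rw [← h4, Subgroup.index_ker, MonoidHom.range_eq_top.mpr hp]
    congr 1
    exact Nat.card_congr Subgroup.topEquiv.toEquiv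
  rw [h3]
  push_cast
  rfl

/-- An element of order prime to `ℓ` times a central element of `ℓ`-power order. -/
theorem dvd_order {T : Type} [Group T] {ℓ : ℕ} [hp : Fact ℓ.Prime]
    {Z : Subgroup T} (hZ : Z ≤ Subgroup.center T) (hZp : IsPGroup ℓ Z) {z : Z} (hz : z ≠ 1)
    {y : T} (hy : ¬ ℓ ∣ orderOf y) : ℓ ∣ orderOf ((z : T) * y) := by
  obtain ⟨n, hn⟩ := hZp z
  have hn' : (z : T) ^ ℓ ^ n = 1 := by
    have := congrArg (fun w : Z => (w : T)) hn
    simpa using this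
  have h1 : orderOf (z : T) ∣ ℓ ^ n := orderOf_dvd_of_pow_eq_one hn'
  obtain ⟨j, hj, hj'⟩ := (Nat.dvd_prime_pow hp.out).mp h1
  have hj0 : j ≠ 0 := by
    rintro rfl
    rw [pow_zero, orderOf_eq_one_iff] at hj'
    exact hz (Subtype.ext hj')
  have hc : Commute (z : T) y := (Subgroup.mem_center_iff.mp (hZ z.2) y).symm
  have hcop : (orderOf (z : T)).Coprime (orderOf y) := by
    rw [hj']
    exact Nat.Coprime.pow_left _ ((Nat.Prime.coprime_iff_not_dvd hp.out).mpr hy)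
  rw [hc.orderOf_mul_eq_mul_orderOf_of_coprime hcop, hj']
  exact Dvd.dvd.mul_right (dvd_pow_self ℓ hj0) _

section Key

variable {T : Type} [Group T] [Fintype T] (𝔐 : Ideal (integralClosure ℤ ℂ)) (ℓ : ℕ)
  [Fact ℓ.Prime]

/-- The values of the characters of a block of minimal defect. -/
theorem key (h2 : Stmt_MINX) (h3 : Stmt_OSIX) (h𝔐 : 𝔐.IsMaximal)
    (hℓ : (ℓ : integralClosure ℤ ℂ) ∈ 𝔐) (Z : Subgroup T) (hZ : Z ≤ Subgroup.center T)
    (hZp : IsPGroup ℓ Z) (ψ₀ : T → ℂ) (hψ₀ : IsIrr ψ₀)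
    (hd : HasDefect ℓ ψ₀ (padicValNat ℓ (Nat.card Z))) (ψ : T → ℂ) (hψ : IsIrr ψ)
    (hc : cen 𝔐 (MonoidHom.id T) ψ = cen 𝔐 (MonoidHom.id T) ψ₀) :
    (∀ y, ¬ ℓ ∣ orderOf y → ψ y = ψ₀ y) ∧
      ∀ y, (∀ z ∈ Z, ℓ ∣ orderOf (z * y)) → ψ y = 0 := by
  classical
  have hfZ : Fintype Z := Fintype.ofFinite Z
  set B : Finset (T → ℂ) := (irrF T).filter
    (fun χ => cen 𝔐 (MonoidHom.id T) χ = cen 𝔐 (MonoidHom.id T) ψ₀) with hB
  have hmem : ∀ χ, χ ∈ B ↔ IsIrr χ ∧
      cen 𝔐 (MonoidHom.id T) χ = cen 𝔐 (MonoidHom.id T) ψ₀ := by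
    intro χ
    rw [hB, Finset.mem_filter, mem_irrF]
  have hex : ∀ χ : T → ℂ, ∃ μ : Z →* ℂˣ, IsIrr χ →
      ∀ (z : Z) (x : T), χ (z * x) = ((μ z : ℂˣ) : ℂ) * χ x := by
    intro χ
    by_cases h : IsIrr χ
    · obtain ⟨μ, hμ⟩ := BTC.exists_cc hZ h
      exact ⟨μ, fun _ => hμ⟩
    · exact ⟨1, fun h' => absurd h' h⟩
  choose μ hμ using hex
  have hinj : ∀ χ ∈ B, ∀ χ' ∈ B, μ χ = μ χ' → χ = χ' := by
    intro χ h χ' h' he
    rw [hmem] at h h'
    refine (h2 T 𝔐 ℓ h𝔐 hℓ Z hZ hZp ψ₀ hψ₀ hd).2 (μ χ) χ χ' h.1 h'.1 h.2 h'.2 (hμ χ h.1) ?_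
    intro z x
    rw [he]
    exact hμ χ' h'.1 z x
  have hos : ∀ g : T, ℓ ∣ orderOf g → ∑ χ ∈ B, χ 1 * χ g = 0 := by
    intro g hg
    exact h3 T 𝔐 ℓ h𝔐 hℓ ψ₀ hψ₀ g hg
  have hS : ∀ y : T, ∀ χ' ∈ B, ∑ z : Z, (((μ χ' z)⁻¹ : ℂˣ) : ℂ) * ∑ χ ∈ B, χ 1 * χ (z * y) =
      (Nat.card Z : ℂ) * (χ' 1 * χ' y) := by
    intro y χ' hχ'
    have e1 : ∀ z : Z, (((μ χ' z)⁻¹ : ℂˣ) : ℂ) * ∑ χ ∈ B, χ 1 * χ (z * y) =
        ∑ χ ∈ B, (((μ χ z : ℂˣ) : ℂ) * (((μ χ' z)⁻¹ : ℂˣ) : ℂ)) * (χ 1 * χ y) := by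
      intro z
      rw [Finset.mul_sum]
      refine Finset.sum_congr rfl fun χ hχ => ?_
      rw [hμ χ ((hmem χ).mp hχ).1 z y]
      ring
    rw [Finset.sum_congr rfl fun z _ => e1 z, Finset.sum_comm]
    have e2 : ∀ χ ∈ B, ∑ z : Z, (((μ χ z : ℂˣ) : ℂ) * (((μ χ' z)⁻¹ : ℂˣ) : ℂ)) * (χ 1 * χ y) =
        if χ = χ' then (Nat.card Z : ℂ) * (χ' 1 * χ' y) else 0 := by
      intro χ hχ
      rw [← Finset.sum_mul]
      by_cases he : χ = χ'
      · rw [if_pos he, he]
        congr 1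
        have e3 : ∀ z : Z, ((μ χ' z : ℂˣ) : ℂ) * (((μ χ' z)⁻¹ : ℂˣ) : ℂ) = 1 := by
          intro z
          rw [← Units.val_mul, mul_inv_cancel, Units.val_one]
        rw [Finset.sum_congr rfl fun z _ => e3 z, Finset.sum_const, Finset.card_univ,
          Nat.card_eq_fintype_card, nsmul_eq_mul, mul_one]
      · rw [if_neg he, BTC.sum_lin (μ χ) (μ χ') (fun h => he (hinj χ hχ χ' hχ' h.symm)), zero_mul]
    rw [Finset.sum_congr rfl e2, Finset.sum_ite_eq' B χ' (fun _ => (Nat.card Z : ℂ) * (χ' 1 * χ' y)),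
      if_pos hχ']
  have hZ0 : (Nat.card Z : ℂ) ≠ 0 := natCard_ne_zero
  have hψB : ψ ∈ B := (hmem ψ).mpr ⟨hψ, hc⟩
  have hψ₀B : ψ₀ ∈ B := (hmem ψ₀).mpr ⟨hψ₀, rfl⟩
  -- the sums at the elements of order prime to `ℓ`
  have hA : ∀ y, ¬ ℓ ∣ orderOf y → ψ 1 * ψ y = ψ₀ 1 * ψ₀ y := by
    intro y hy
    have e1 : ∀ χ' ∈ B, ∑ z : Z, (((μ χ' z)⁻¹ : ℂˣ) : ℂ) * ∑ χ ∈ B, χ 1 * χ (z * y) =
        ∑ χ ∈ B, χ 1 * χ y := by
      intro χ' hχ'
      rw [Finset.sum_eq_single (1 : Z)]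
      · rw [map_one, inv_one, Units.val_one, one_mul]
        refine Finset.sum_congr rfl fun χ _ => ?_
        rw [OneMemClass.coe_one, one_mul]
      · intro z _ hz
        rw [hos _ (dvd_order hZ hZp hz hy), mul_zero]
      · intro h
        exact absurd (Finset.mem_univ _) h
    have e2 := (hS y ψ hψB).symm.trans (e1 ψ hψB)
    have e3 := (hS y ψ₀ hψ₀B).symm.trans (e1 ψ₀ hψ₀B)
    exact mul_left_cancel₀ hZ0 (e2.trans e3.symm)
  have h11 : ψ 1 = ψ₀ 1 := by
    have e1 := hA 1 (by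
      rw [orderOf_one]
      exact (Fact.out : ℓ.Prime).one_lt.not_ge ∘ Nat.le_of_dvd one_pos)
    obtain ⟨n, hn, hn'⟩ := hψ.exists_degree
    obtain ⟨m, hm, hm'⟩ := hψ₀.exists_degree
    rw [hn', hm'] at e1 ⊢
    have e2 : n * n = m * m := by exact_mod_cast e1
    have e3 : n = m := Nat.mul_self_inj.mp e2
    rw [e3]
  constructor
  · intro y hy
    have e1 := hA y hy
    rw [h11] at e1
    exact mul_left_cancel₀ hψ₀.one_ne_zero e1
  · intro y hy
    have e1 : ∑ z : Z, (((μ ψ z)⁻¹ : ℂˣ) : ℂ) * ∑ χ ∈ B, χ 1 * χ (z * y) = 0 := by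
      refine Finset.sum_eq_zero fun z _ => ?_
      rw [hos _ (hy z z.2), mul_zero]
    rw [hS y ψ hψB] at e1
    rcases mul_eq_zero.mp e1 with e2 | e2
    · exact absurd e2 hZ0
    · rcases mul_eq_zero.mp e2 with e3 | e3
      · exact absurd e3 hψ.one_ne_zero
      · exact e3

end Key

/-- The inflation of a character of defect zero. -/
theorem ml_infl {Y G : Type} [Group Y] [Fintype Y] [Group G] [Fintype G]
    (𝔐 : Ideal (integralClosure ℤ ℂ)) (ℓ : ℕ) (k : Y →* G) (C : Subgroup G)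
    (hC : C ≤ k.range) (θ : G → ℂ) (hθ : ID ℓ C 0 θ) : ML 𝔐 k 1 C θ (fun y => θ (k y)) := by
  refine ⟨⟨?_, ?_⟩, ?_, rfl⟩
  · let p : ↥(C.comap k) →* C :=
      (k.comp (C.comap k).subtype).codRestrict C (fun y => y.2)
    have hp : Function.Surjective p := by
      rintro ⟨c, hc⟩
      obtain ⟨y, rfl⟩ := hC hc
      exact ⟨⟨y, hc⟩, rfl⟩
    exact isIrr_comp_surj p hp hθ.1.1
  · intro y hy
    exact hθ.1.2 _ hy
  · intro z y
    have e : k ((z : Y) * y) = k y := by rw [map_mul, MonoidHom.mem_ker.mp z.2, one_mul]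
    change θ (k ((z : Y) * y)) = _
    rw [e]
    simp

end MLX

open _root_.Pool.Agent.DPT.MLX in
theorem MLX_thm (h1 : Stmt_MLE) (h2 : Stmt_MINX) (h3 : Stmt_OSIX) : Stmt_MLX := by
  intro Y G _ _ _ _ 𝔐 ℓ _ h𝔐 hℓ k hk lam C hC θ hθ
  have hI := ml_infl 𝔐 ℓ k C hC θ hθ
  have hId : ID ℓ (C.comap k) (padicValNat ℓ (Nat.card k.ker)) (fun y => θ (k y)) :=
    ((h1 Y G 𝔐 ℓ h𝔐 hℓ k hk 1 C hC).1 θ hθ).2.2.1 _ hI
  have hle : k.ker ≤ C.comap k := by
    intro z hz
    rw [Subgroup.mem_comap, MonoidHom.mem_ker.mp hz]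
    exact C.one_mem
  set Z : Subgroup ↥(C.comap k) := k.ker.subgroupOf (C.comap k) with hZdef
  have eZ : Z ≃* k.ker := Subgroup.subgroupOfEquivOfLe hle
  have hZc : Z ≤ Subgroup.center ↥(C.comap k) := by
    intro z hz
    rw [Subgroup.mem_center_iff]
    intro y
    apply Subtype.ext
    exact Subgroup.mem_center_iff.mp (hk.cen (Subgroup.mem_subgroupOf.mp hz)) y
  have hZp : IsPGroup ℓ Z := hk.pg.of_injective eZ.toMonoidHom eZ.injective
  have hcard : Nat.card Z = Nat.card k.ker := Nat.card_congr eZ.toEquiv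
  have hd : HasDefect ℓ (fun y : ↥(C.comap k) => θ (k y)) (padicValNat ℓ (Nat.card Z)) := by
    rw [hcard]
    exact hId.2
  -- the key lemma
  have hkey := fun (ψ : ↥(C.comap k) → ℂ) (hψ : IsIrr ψ) hc =>
    key (T := ↥(C.comap k)) 𝔐 ℓ h2 h3 h𝔐 hℓ Z hZc hZp (fun y : ↥(C.comap k) => θ (k y))
      hI.1.1 hd ψ hψ hc
  have hdvd : ∀ y : ↥(C.comap k), ℓ ∣ orderOf (k y) → ∀ z ∈ Z, ℓ ∣ orderOf (z * y) := by
    intro y hy z hz
    have e : k ((z * y : ↥(C.comap k)) : Y) = k y := by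
      rw [Subgroup.coe_mul, map_mul, MonoidHom.mem_ker.mp (Subgroup.mem_subgroupOf.mp hz), one_mul]
    have e2 : orderOf (k ((z * y : ↥(C.comap k)) : Y)) ∣ orderOf (z * y) := by
      rw [← Subgroup.orderOf_coe (z * y)]
      exact orderOf_map_dvd k _
    rw [e] at e2
    exact hy.trans e2
  refine ⟨?_, ?_⟩
  · intro x hx
    by_cases hxC : x ∈ C
    · obtain ⟨y, rfl⟩ := hC hxC
      exact (hkey _ hI.1.1 rfl).2 ⟨y, hxC⟩ (hdvd ⟨y, hxC⟩ hx)
    · exact hθ.1.2 x hxC
  · intro χ hχ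
    have hk2 := hkey (fun y => χ y) hχ.1.1 hχ.2.2
    have hA : ∀ y, ¬ ℓ ∣ orderOf y → χ y = θ (k y) := by
      intro y hy
      by_cases hyC : y ∈ C.comap k
      · refine hk2.1 ⟨y, hyC⟩ ?_
        rw [← Subgroup.orderOf_coe]
        exact hy
      · rw [hχ.1.2 y hyC]
        exact (hθ.1.2 _ hyC).symm
    refine ⟨hA, ?_, ?_⟩
    · intro y hy
      by_cases hyC : y ∈ C.comap k
      · exact hk2.2 ⟨y, hyC⟩ (hdvd ⟨y, hyC⟩ hy)
      · exact hχ.1.2 y hyC
    · have e1 := hA 1 (by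
        rw [orderOf_one]
        exact (Fact.out : ℓ.Prime).one_lt.not_ge ∘ Nat.le_of_dvd one_pos)
      rw [map_one] at e1
      exact e1

end Pool.Agent.DPT


end

section

/-!
# Module OUTS: from the normal subgroup `O` to `N`
-/

set_option autoImplicit false
set_option linter.unusedSectionVars false

namespace Pool.Agent.DPT

open Pool.Agent.DP Pool.Agent.DPC Pool.Agent.DPM Pool.Agent.DPN Pool.Agent.Lib_helper13
open Representation

namespace OUTS

section Conv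

variable {X : Type} [Group X] [Fintype X]

/-- A convolution of invariant functions is invariant. -/
theorem conv_inv (a v : X → ℤ) (b : X) (ha : ∀ z, a (b * z * b⁻¹) = a z)
    (hv : ∀ z, v (b * z * b⁻¹) = v z) (z : X) : conv a v (b * z * b⁻¹) = conv a v z := by
  rw [conv, conv]
  symm
  refine Fintype.sum_equiv (MulAut.conj b).toEquiv _ _ fun w => ?_
  have e1 : (MulAut.conj b).toEquiv w = b * w * b⁻¹ := rfl
  rw [e1, ha]
  congr 1
  have e2 : (b * w * b⁻¹)⁻¹ * (b * z * b⁻¹) = b * (w⁻¹ * z) * b⁻¹ := by group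
  rw [e2, hv]

/-- Convolution powers of invariant functions are invariant. -/
theorem cpow_inv (c : X → ℤ) (b : X) (hc : ∀ z, c (b * z * b⁻¹) = c z) (n : ℕ) (z : X) :
    cpow c n (b * z * b⁻¹) = cpow c n z := by
  classical
  induction n generalizing z with
  | zero =>
    simp only [cpow]
    by_cases h : z = 1
    · subst h
      simp
    · rw [if_neg, if_neg h]
      intro h1
      apply h
      have h2 : z = b⁻¹ * (b * z * b⁻¹) * b := by group
      rw [h2, h1]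
      group
  | succ n ih =>
    simp only [cpow]
    exact conv_inv (cpow c n) c b ih hc z

/-- The support of a convolution. -/
theorem conv_ne {G : Type} [Group G] (p : X →* G) (c c' : X → ℤ) (g g' : G)
    (hc : ∀ z, c z ≠ 0 → p z = g) (hc' : ∀ z, c' z ≠ 0 → p z = g') (z : X)
    (hz : conv c c' z ≠ 0) : p z = g * g' := by
  rw [conv] at hz
  obtain ⟨w, _, hw⟩ := Finset.exists_ne_zero_of_sum_ne_zero hz
  have h1 := hc w (left_ne_zero_of_mul hw)
  have h2 := hc' _ (right_ne_zero_of_mul hw)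
  have h3 : z = w * (w⁻¹ * z) := by group
  rw [h3, map_mul, h1, h2]

/-- The support of a convolution power. -/
theorem cpow_ne {G : Type} [Group G] (p : X →* G) (c : X → ℤ) (g : G)
    (hc : ∀ z, c z ≠ 0 → p z = g) (n : ℕ) (z : X) (hz : cpow c n z ≠ 0) : p z = g ^ n := by
  classical
  induction n generalizing z with
  | zero =>
    simp only [cpow] at hz
    split_ifs at hz with h
    · rw [h, map_one, pow_zero]
    · exact absurd rfl hz
  | succ n ih =>
    simp only [cpow] at hz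
    rw [pow_succ]
    exact conv_ne p (cpow c n) c _ _ ih hc z hz

/-- Two functions commute under convolution if the support of the second preserves the first. -/
theorem conv_comm' (c c' : X → ℤ) (h : ∀ t, c' t ≠ 0 → ∀ q, c (t * q * t⁻¹) = c q) :
    conv c c' = conv c' c := by
  funext z
  rw [conv, conv]
  refine Fintype.sum_equiv ((Equiv.inv X).trans (Equiv.mulRight z)) _ _ fun w => ?_
  have e1 : ((Equiv.inv X).trans (Equiv.mulRight z)) w = w⁻¹ * z := rfl
  rw [e1]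
  by_cases h0 : c' (w⁻¹ * z) = 0
  · rw [h0, mul_zero, zero_mul]
  · have h1 := h _ h0 ((w⁻¹ * z)⁻¹ * z)
    have h2 : w⁻¹ * z * ((w⁻¹ * z)⁻¹ * z) * (w⁻¹ * z)⁻¹ = w := by group
    rw [h2] at h1
    rw [h1, mul_comm]

/-- Powers of commuting functions. -/
theorem conv_cpow (c c' : X → ℤ) (h : conv c c' = conv c' c) (n : ℕ) :
    conv (cpow c n) (cpow c' n) = cpow (conv c c') n := by
  apply elt_injective
  rw [elt_conv, elt_cpow, elt_cpow, elt_cpow, elt_conv]
  have h1 : Commute (elt c) (elt c') := by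
    change elt c * elt c' = elt c' * elt c
    rw [← elt_conv, ← elt_conv, h]
  exact (h1.mul_pow n).symm

end Conv

section Cl

variable {X : Type} [Group X] (O : Subgroup X) (y : X)

theorem clO_ne {z : X} (h : clO O y z ≠ 0) : ∃ o ∈ O, z = o * y * o⁻¹ := by
  unfold clO at h
  split_ifs at h with h1
  · exact h1
  · exact absurd rfl h

theorem clO_inv (b : X) (hb : b ∈ O) (z : X) : clO O y (b * z * b⁻¹) = clO O y z := by
  unfold clO
  congr 1
  apply propext
  constructor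
  · rintro ⟨d, hd, h⟩
    refine ⟨b⁻¹ * d, O.mul_mem (O.inv_mem hb) hd, ?_⟩
    have h1 : z = b⁻¹ * (b * z * b⁻¹) * b := by group
    rw [h1, h]
    group
  · rintro ⟨d, hd, rfl⟩
    exact ⟨b * d, O.mul_mem hb hd, by group⟩

theorem clO_inv_self (hO : O.Normal) (z : X) : clO O y (y⁻¹ * z * y) = clO O y z := by
  unfold clO
  congr 1
  apply propext
  constructor
  · rintro ⟨d, hd, h⟩
    refine ⟨y * d * y⁻¹, hO.conj_mem _ hd _, ?_⟩
    have h1 : z = y * (y⁻¹ * z * y) * y⁻¹ := by group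
    rw [h1, h]
    group
  · rintro ⟨d, hd, rfl⟩
    refine ⟨y⁻¹ * d * y⁻¹⁻¹, hO.conj_mem _ hd _, ?_⟩
    group

end Cl

/-- A large power of `ℓ` which is congruent to one modulo `m`. -/
theorem exists_pow {X : Type} [Group X] [Finite X] (ℓ : ℕ) [hp : Fact ℓ.Prime]
    (N O : Subgroup X) (hpg : ∀ x ∈ O, ∃ n : ℕ, x ^ ℓ ^ n ∈ N) (m : ℕ) (hm : ¬ ℓ ∣ m) :
    ∃ s k : ℕ, s = m * k + 1 ∧ ∀ o ∈ O, o ^ s ∈ N := by
  classical
  have : Fintype X := Fintype.ofFinite X
  choose! n hn using hpg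
  have hm0 : m ≠ 0 := by
    rintro rfl
    exact hm (dvd_zero _)
  set b : ℕ := Finset.univ.sup n with hb
  have hcop : Nat.Coprime ℓ m := (Nat.Prime.coprime_iff_not_dvd hp.out).mpr hm
  have hφ : 0 < Nat.totient m := Nat.totient_pos.mpr (Nat.pos_of_ne_zero hm0)
  have h1 : ℓ ^ (Nat.totient m * b) ≡ 1 [MOD m] := by
    rw [pow_mul]
    have h2 := (Nat.ModEq.pow_totient hcop).pow b
    rwa [one_pow] at h2
  have h1' : 1 ≤ ℓ ^ (Nat.totient m * b) := Nat.one_le_pow _ _ hp.out.pos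
  have h3 : m ∣ ℓ ^ (Nat.totient m * b) - 1 := (Nat.modEq_iff_dvd' h1').mp h1.symm
  obtain ⟨k, hk⟩ := h3
  refine ⟨ℓ ^ (Nat.totient m * b), k, ?_, ?_⟩
  · rw [← hk]
    omega
  · intro o ho
    have h4 : n o ≤ Nat.totient m * b := by
      have h5 : n o ≤ b := Finset.le_sup (f := n) (Finset.mem_univ o)
      calc n o ≤ b := h5
        _ = 1 * b := (one_mul b).symm
        _ ≤ Nat.totient m * b := Nat.mul_le_mul_right b hφ
    obtain ⟨c, hc⟩ := Nat.exists_eq_add_of_le h4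
    rw [hc, pow_add, pow_mul]
    exact N.pow_mem (hn o ho) _

end OUTS

open _root_.Pool.Agent.DPT.OUTS in
/-- OUTS. -/
theorem OUTS_thm (h1 : Stmt_SUMM) : Stmt_OUTS := by
  classical
  intro X _ _ 𝔐 ℓ _ hmax hℓ N O hN hO hNO hpg χ hχ ξ hξ hip x hxO hxm y y' hy hy' hyN hy'N hne
  have hprime : 𝔐.IsPrime := hmax.isPrime
  obtain ⟨m, hm, hxm⟩ := hxm
  obtain ⟨s, k, hs, hsN⟩ := exists_pow ℓ N O hpg m hm
  -- the quotient
  let p : X →* X ⧸ N := QuotientGroup.mk' N
  have hp1 : ∀ z, p z = 1 ↔ z ∈ N := fun z => QuotientGroup.eq_one_iff z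
  have hpc : ∀ o ∈ O, p x * p o = p o * p x := by
    intro o ho
    have h2 := (hp1 _).mpr (hxO o ho)
    rw [map_mul, map_mul, map_mul, map_inv, map_inv, mul_inv_eq_one, mul_inv_eq_iff_eq_mul] at h2
    exact h2
  have hps : ∀ o ∈ O, p o ^ s = 1 := by
    intro o ho
    rw [← map_pow, hp1]
    exact hsN o ho
  have hpx : p x ^ s = p x := by
    rw [hs, pow_succ, pow_mul, ← map_pow, (hp1 _).mpr hxm, one_pow, one_mul]
  have hpy : p y ^ s = p x := by
    have h2 : y = x * (x⁻¹ * y) := by group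
    have h3 : Commute (p x) (p (x⁻¹ * y)) := hpc _ hy
    rw [h2, map_mul, h3.mul_pow, hpx, hps _ hy, mul_one]
  have hpy' : p y' ^ s = (p x)⁻¹ := by
    have h2 : y' = x⁻¹ * (x * y') := by group
    have h3 : Commute (p x) (p (x * y')) := hpc _ hy'
    rw [h2, map_mul, map_inv, h3.inv_left.mul_pow, inv_pow, hpx, hps _ hy', mul_one]
  -- the classes
  have hcl : ∀ w : X, (∀ o ∈ O, ∃ n ∈ N, o * w * o⁻¹ = n * w * n⁻¹) → ∀ z, clO O w z ≠ 0 →
      p z = p w := by
    intro w hw z hz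
    obtain ⟨o, ho, rfl⟩ := clO_ne O w hz
    obtain ⟨n, hn, h2⟩ := hw o ho
    rw [h2, map_mul, map_mul, map_inv, (hp1 n).mpr hn]
    group
  have hyy' : y' * y ∈ O := by
    have h2 : y' * y = x⁻¹ * (x * y') * x⁻¹⁻¹ * (x⁻¹ * y) := by group
    rw [h2]
    exact O.mul_mem (hO.conj_mem _ hy' _) hy
  have hcomm : conv (clO O y) (clO O y') = conv (clO O y') (clO O y) := by
    apply conv_comm'
    intro t ht q
    obtain ⟨o, ho, rfl⟩ := clO_ne O y' ht
    have h2 : o * y' * o⁻¹ * y ∈ O := by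
      have h3 : o * y' * o⁻¹ * y = o * (y' * y) * (y⁻¹ * o⁻¹ * y⁻¹⁻¹) := by group
      rw [h3]
      exact O.mul_mem (O.mul_mem ho hyy') (hO.conj_mem _ (O.inv_mem ho) _)
    have h4 : o * y' * o⁻¹ * q * (o * y' * o⁻¹)⁻¹ =
        (o * y' * o⁻¹ * y) * (y⁻¹ * q * y) * (o * y' * o⁻¹ * y)⁻¹ := by group
    rw [h4, clO_inv O y _ h2, clO_inv_self O y hO]
  -- the functions
  have hh : SuppClass O (conv (clO O y) (clO O y')) := by
    constructor
    · intro z hz
      by_contra h2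
      apply hz
      rw [conv] at h2
      obtain ⟨w, _, hw⟩ := Finset.exists_ne_zero_of_sum_ne_zero h2
      obtain ⟨o, ho, h3⟩ := clO_ne O y (left_ne_zero_of_mul hw)
      obtain ⟨o', ho', h4⟩ := clO_ne O y' (right_ne_zero_of_mul hw)
      have h5 : z = (o * y * o⁻¹) * (o' * y' * o'⁻¹) := by
        rw [← h3, ← h4]
        group
      have h6 : y * y' ∈ O := by
        have h7 : y * y' = y * (y' * y) * y⁻¹ := by group
        rw [h7]
        exact hO.conj_mem _ hyy' _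
      have h7 : z = o * (y * (o⁻¹ * o') * y⁻¹) * (y * y') * o'⁻¹ := by
        rw [h5]
        group
      rw [h7]
      exact O.mul_mem (O.mul_mem (O.mul_mem ho
        (hO.conj_mem _ (O.mul_mem (O.inv_mem ho) ho') _)) h6) (O.inv_mem ho')
    · intro g hg z
      exact conv_inv _ _ g (clO_inv O y g hg) (clO_inv O y' g hg) z
  have hui : ∀ a ∈ O, ∀ z, cpow (clO O y) s (a * z * a⁻¹) = cpow (clO O y) s z :=
    fun a ha z => cpow_inv _ a (clO_inv O y a ha) s z
  have hvi : ∀ a ∈ O, ∀ z, cpow (clO O y') s (a * z * a⁻¹) = cpow (clO O y') s z :=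
    fun a ha z => cpow_inv _ a (clO_inv O y' a ha) s z
  have hus : ∀ z, cpow (clO O y) s z ≠ 0 → p z = p x := by
    intro z hz
    rw [← hpy]
    exact cpow_ne p _ _ (hcl y hyN) s z hz
  have hvs : ∀ z, cpow (clO O y') s z ≠ 0 → p z = (p x)⁻¹ := by
    intro z hz
    rw [← hpy']
    exact cpow_ne p _ _ (hcl y' hy'N) s z hz
  refine ⟨cpow (clO O y) s, cpow (clO O y') s, hui, hvi, ?_, ?_, ?_⟩
  · intro z hz
    rw [← hp1, map_mul, map_inv, hus z hz, inv_mul_cancel]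
  · intro z hz
    rw [← hp1, map_mul, hvs z hz, mul_inv_cancel]
  have hsupp : ∀ z, conv (cpow (clO O y) s) (cpow (clO O y') s) z ≠ 0 → z ∈ N := by
    intro z hz
    rw [← hp1, conv_ne p _ _ _ _ hus hvs z hz, mul_inv_cancel]
  have hLam := Lam_cpow 𝔐 hχ (multOn_self 𝔐 hχ) hh s
  rw [← conv_cpow _ _ hcomm] at hLam
  have hne' : Lam 𝔐 χ (conv (cpow (clO O y) s) (cpow (clO O y') s)) ≠ 0 := by
    rw [hLam]
    exact pow_ne_zero s hne
  -- passing to `N`
  let θ : N.subgroupOf O → ℂ := fun n => ξ ((n : O) : X)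
  have hθ : IsIrr θ := hξ.1.comp_mulEquiv (Subgroup.subgroupOfEquivOfLe hNO)
  have hclg : ClG (N.subgroupOf O).subtype (MulAut.conjNormal (H := N.subgroupOf O))
      (QuotientGroup.mk' (N.subgroupOf O)) := by
    refine ⟨Subtype.val_injective, fun y a => ?_, fun y => ?_⟩
    · exact MulAut.conjNormal_apply y a
    · rw [QuotientGroup.mk'_apply, QuotientGroup.eq_one_iff, Subgroup.range_subtype]
  have hS := (h1 (N.subgroupOf O) O (O ⧸ N.subgroupOf O) _ _ _ hclg).2.2.2 θ χ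
    (fun o => ((conv (cpow (clO O y) s) (cpow (clO O y') s) (o : X) : ℤ) : ℂ)) hθ hχ hip
    (by
      intro g z
      have h2 := conv_inv (cpow (clO O y) s) (cpow (clO O y') s) (g : X)
        (fun z => hui _ g.2 z) (fun z => hvi _ g.2 z) (z : X)
      have h3 : ((g * z * g⁻¹ : O) : X) = (g : X) * (z : X) * (g : X)⁻¹ := rfl
      rw [h3, h2])
    (by
      intro z hz
      by_contra h2
      apply hz
      rw [Subgroup.range_subtype, Subgroup.mem_subgroupOf]
      apply hsupp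
      intro h3
      exact h2 (by rw [h3, Int.cast_zero]))
  have hfin : wS N ξ (fun z =>
      ((conv (cpow (clO O y) s) (cpow (clO O y') s) z : ℤ) : ℂ)) =
      wt χ (fun o => ((conv (cpow (clO O y) s) (cpow (clO O y') s) (o : X) : ℤ) : ℂ)) := by
    rw [hS, wS, ← wt_comp_equiv (Subgroup.subgroupOfEquivOfLe hNO)]
    rfl
  rw [hfin]
  exact hne'

end Pool.Agent.DPT


end

section

/-!
# ASCV: the weighted sums form a class function
-/

namespace Pool.Agent.DPV

open Pool.Agent.DP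

open Pool.Agent.Lib_helper13 Representation
open Pool.Agent.Lib_helper13.Dade (pCore DadeHolds)

namespace ASCV

theorem aiv {O : Type} (k : Equiv.Perm O) (o : O) : k (k⁻¹ o) = o := k.apply_symm_apply o

theorem iav {O : Type} (k : Equiv.Perm O) (o : O) : k⁻¹ (k o) = o := k.symm_apply_apply o

/-! ### Traces of the extended matrices -/

section Mat

variable {O B : Type} [Fintype O] [DecidableEq O] [Group B]

/-- the index type -/
abbrev Ix (m : O → ℕ) : Type := {f // f ∈ Fintype.piFinset (fun o => Finset.range (m o))}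

/-- the matrix of a permutation and a family -/
noncomputable def AM (m : O → ℕ) (M : O → B → ℕ → ℕ → ℂ) (k : Equiv.Perm O) (n : O → B) :
    Matrix (Ix m) (Ix m) ℂ := fun f f' =>
  ∏ o, M o (n o) ((f : O → ℕ) o) ((f' : O → ℕ) (k⁻¹ o))

omit [Group B] in
theorem TH_eq (m : O → ℕ) (M : O → B → ℕ → ℕ → ℂ) (k : Equiv.Perm O) (n : O → B) :
    TH m M k n = (AM m M k n).trace := by
  rw [Matrix.trace, TH, ← Finset.sum_coe_sort (Fintype.piFinset fun o => Finset.range (m o))]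
  rfl

theorem AM_mul {S : O → Subgroup B} {θ : O → B → ℂ} {m : O → ℕ} {M : O → B → ℕ → ℕ → ℂ}
    {k l : Equiv.Perm O} (hSk : ∀ o, S (k o) = S o) (hmk : ∀ o, m (k o) = m o)
    (hMk : ∀ o, M (k o) = M o) (hml : ∀ o, m (l o) = m o)
    (hMD : ∀ o, MD (S o) (θ o) (m o) (M o)) {n n' : O → B} (hn : ∀ o, n o ∈ S o)
    (hn' : ∀ o, n' o ∈ S o) :
    AM m M (k * l) (fun o => n o * n' (k⁻¹ o)) = AM m M k n * AM m M l n' := by
  have hSk' : ∀ o, S (k⁻¹ o) = S o := by
    intro o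
    have := hSk (k⁻¹ o)
    rw [aiv] at this
    exact this.symm
  have hmk' : ∀ o, m (k⁻¹ o) = m o := by
    intro o
    have := hmk (k⁻¹ o)
    rw [aiv] at this
    exact this.symm
  have hMk' : ∀ o, M (k⁻¹ o) = M o := by
    intro o
    have := hMk (k⁻¹ o)
    rw [aiv] at this
    exact this.symm
  have hml' : ∀ o, m (l⁻¹ o) = m o := by
    intro o
    have := hml (l⁻¹ o)
    rw [aiv] at this
    exact this.symm
  ext f f''
  have hf := Fintype.mem_piFinset.1 f.2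
  have hf'' := Fintype.mem_piFinset.1 f''.2
  rw [Matrix.mul_apply]
  have h1 : AM m M (k * l) (fun o => n o * n' (k⁻¹ o)) f f'' =
      ∏ o, ∑ j ∈ Finset.range (m o),
        M o (n o) ((f : O → ℕ) o) j * M o (n' (k⁻¹ o)) j ((f'' : O → ℕ) (l⁻¹ (k⁻¹ o))) := by
    rw [AM]
    apply Finset.prod_congr rfl
    intro o _
    have e2 : (k * l)⁻¹ o = l⁻¹ (k⁻¹ o) := by
      rw [mul_inv_rev]
      rfl
    rw [e2]
    have hz : n' (k⁻¹ o) ∈ S o := by
      have := hn' (k⁻¹ o)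
      rwa [hSk'] at this
    have hr : (f'' : O → ℕ) (l⁻¹ (k⁻¹ o)) < m o := by
      have := Finset.mem_range.1 (hf'' (l⁻¹ (k⁻¹ o)))
      rwa [hml', hmk'] at this
    exact (hMD o).mul _ (hn o) _ hz _ (Finset.mem_range.1 (hf o)) _ hr
  rw [h1, Finset.prod_univ_sum]
  have h2 : ∀ f' : Ix m, AM m M k n f f' * AM m M l n' f' f'' =
      ∏ o, (M o (n o) ((f : O → ℕ) o) ((f' : O → ℕ) (k⁻¹ o)) *
        M o (n' (k⁻¹ o)) ((f' : O → ℕ) (k⁻¹ o)) ((f'' : O → ℕ) (l⁻¹ (k⁻¹ o)))) := by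
    intro f'
    rw [Finset.prod_mul_distrib]
    congr 1
    rw [AM]
    symm
    refine (Fintype.prod_equiv k⁻¹ _ _ ?_)
    intro o
    rw [hMk']
  rw [Finset.sum_congr rfl (fun f' _ => h2 f')]
  refine (Finset.sum_bij' (fun (f' : Ix m) _ => fun o => (f' : O → ℕ) (k⁻¹ o))
    (fun g hg => (⟨fun o => g (k o), ?_⟩ : Ix m)) ?_ ?_ ?_ ?_ ?_).symm
  · rw [Fintype.mem_piFinset] at hg ⊢
    intro o
    have := hg (k o)
    rwa [hmk] at this
  · intro f' _
    rw [Fintype.mem_piFinset]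
    intro o
    have := Fintype.mem_piFinset.1 f'.2 (k⁻¹ o)
    rwa [hmk'] at this
  · intro g _
    exact Finset.mem_univ _
  · intro f' _
    apply Subtype.ext
    funext o
    change (f' : O → ℕ) (k⁻¹ (k o)) = _
    rw [iav]
  · intro g _
    funext o
    change g (k (k⁻¹ o)) = _
    rw [aiv]
  · intro f' _
    rfl

end Mat

/-! ### The standardized left components -/

section Zz

variable {O G B C Y K : Type} [Group G] [Group B] [Group C] [Group Y] [Group K]

theorem zz_mul (φ : Y →* Gam (Equiv.Perm O) O B) (g : O → B) (x y : Y) (o : O) :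
    zz φ g (x * y) o = zz φ g x o * zz φ g y ((φ x).right⁻¹ • o) := by
  have h1 : (φ (x * y)).left o = (φ x).left o * (φ y).left ((φ x).right⁻¹ • o) := by
    rw [map_mul]
    rfl
  have h2 : (φ (x * y)).right⁻¹ • o = (φ y).right⁻¹ • (φ x).right⁻¹ • o := by
    rw [map_mul, SemidirectProduct.mul_right, mul_inv_rev, mul_smul]
  unfold zz
  rw [h1, h2]
  group

theorem zz_one (φ : Y →* Gam (Equiv.Perm O) O B) (g : O → B) (o : O) : zz φ g 1 o = 1 := by
  unfold zz
  rw [map_one]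
  have h1 : ((1 : Gam (Equiv.Perm O) O B).right⁻¹ • o) = o := by
    rw [SemidirectProduct.one_right, inv_one, one_smul]
  rw [h1]
  simp

end Zz

end ASCV

open _root_.Pool.Agent.DPV.ASCV in
/-- ASCV: the weighted sums form a class function. -/
theorem ASCV_thm : Stmt_ASCV := by
  classical
  intro O G B C Y K _ _ _ _ _ _ _ _ _ _ ℓ ι κ ρ hL j p φ hE J U g S θ m M hD k hk l hl F hF
  -- invariance under inverses
  have hSi : ∀ y, p y ∈ J → ∀ o, S ((φ y).right⁻¹ • o) = S o := by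
    intro y hy o
    have h1 := hD.cS y hy ((φ y).right⁻¹ • o)
    rw [smul_inv_smul] at h1
    exact h1.symm
  have hmul : ∀ x y, p x ∈ J → (∀ o, zz φ g x o ∈ S o) → (∀ o, zz φ g y o ∈ S o) →
      ∀ o, zz φ g (x * y) o ∈ S o := by
    intro x y hx h1 h2 o
    rw [zz_mul]
    have h3 := h2 ((φ x).right⁻¹ • o)
    rw [hSi x hx o] at h3
    exact (S o).mul_mem (h1 o) h3
  have hinv : ∀ x, p x ∈ J → (∀ o, zz φ g x o ∈ S o) → ∀ o, zz φ g x⁻¹ o ∈ S o := by
    intro x hx h1 o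
    have h2 := zz_mul φ g x⁻¹ x o
    rw [inv_mul_cancel, zz_one] at h2
    have h3 : zz φ g x⁻¹ o = (zz φ g x ((φ x⁻¹).right⁻¹ • o))⁻¹ :=
      eq_inv_of_mul_eq_one_left h2.symm
    have h4 : (φ x⁻¹).right⁻¹ • o = (φ x).right • o := by
      rw [map_inv, SemidirectProduct.inv_right, inv_inv]
    rw [h3, h4]
    have h5 := h1 ((φ x).right • o)
    rw [hD.cS x hx o] at h5
    exact (S o).inv_mem h5
  -- an element above `l`
  obtain ⟨y0, hy0, hz0⟩ : ∃ y0, p y0 = l ∧ ∀ o, zz φ g y0 o ∈ S o := by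
    obtain ⟨y, hy⟩ := hE.surj l
    have hyJ : p y ∈ J := by
      rw [hy]
      exact hl
    have h1 : ∀ o, ∃ x : G, ι x * zz φ g y o ∈ S o := by
      intro o
      obtain ⟨s, hs, hs2⟩ := hD.adp y hyJ o
      have h2 : ρ (s * (zz φ g y o)⁻¹) = 1 := by
        rw [map_mul, map_inv, hs2, mul_inv_cancel]
      obtain ⟨x, hx⟩ := (hL.cl.ker _).1 h2
      refine ⟨x, ?_⟩
      rw [hx, inv_mul_cancel_right]
      exact hs
    choose x hx using h1
    refine ⟨j (fun o => κ (g o) (x o)) * y, ?_, ?_⟩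
    · rw [map_mul, hy]
      have h2 : p (j (fun o => κ (g o) (x o))) = 1 := (hE.cl.ker _).2 ⟨_, rfl⟩
      rw [h2, one_mul]
    · intro o
      rw [zz_mul]
      have h3 : (φ (j (fun o => κ (g o) (x o)))).right = 1 := by
        rw [hE.jn]
        rfl
      have h4 : zz φ g (j (fun o => κ (g o) (x o))) o = ι (x o) := by
        unfold zz
        rw [h3, inv_one, one_smul, hE.jn]
        change (g o)⁻¹ * ι (κ (g o) (x o)) * g o = ι (x o)
        rw [hL.cl.act]
        group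
      rw [h3, h4, inv_one, one_smul]
      exact hx o
  have hy0J : p y0 ∈ J := by
    rw [hy0]
    exact hl
  -- commutation of the traces
  have hcomm : ∀ x y, p x ∈ J → p y ∈ J → (∀ o, zz φ g x o ∈ S o) → (∀ o, zz φ g y o ∈ S o) →
      TH m M (φ (x * y)).right (zz φ g (x * y)) = TH m M (φ (y * x)).right (zz φ g (y * x)) := by
    have h1 : ∀ x y, p x ∈ J → p y ∈ J → (∀ o, zz φ g x o ∈ S o) → (∀ o, zz φ g y o ∈ S o) →
        TH m M (φ (x * y)).right (zz φ g (x * y)) =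
          (AM m M (φ x).right (zz φ g x) * AM m M (φ y).right (zz φ g y)).trace := by
      intro x y hx hy hzx hzy
      have h2 := AM_mul (θ := θ) (k := (φ x).right) (l := (φ y).right) (fun o => hD.cS x hx o)
        (fun o => hD.cm x hx o) (fun o => hD.cM x hx o) (fun o => hD.cm y hy o) hD.md hzx hzy
      rw [← h2, TH_eq]
      have h3 : (φ (x * y)).right = (φ x).right * (φ y).right := by
        rw [map_mul, SemidirectProduct.mul_right]
      have h4 : zz φ g (x * y) = fun o => zz φ g x o * zz φ g y ((φ x).right⁻¹ o) := by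
        funext o
        exact zz_mul φ g x y o
      rw [h3, h4]
    intro x y hx hy hzx hzy
    rw [h1 x y hx hy hzx hzy, h1 y x hy hx hzy hzx, Matrix.trace_mul_comm]
  -- the bijection
  unfold AS
  congr 1
  symm
  refine Fintype.sum_equiv (MulAut.conj y0).toEquiv _ _ ?_
  intro y
  have hc : (MulAut.conj y0).toEquiv y = y0 * y * y0⁻¹ := rfl
  rw [hc]
  have hiff : (p y = k ∧ ∀ o, zz φ g y o ∈ S o) ↔
      (p (y0 * y * y0⁻¹) = l * k * l⁻¹ ∧ ∀ o, zz φ g (y0 * y * y0⁻¹) o ∈ S o) := by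
    constructor
    · rintro ⟨h1, h2⟩
      refine ⟨by rw [map_mul, map_mul, map_inv, hy0, h1], ?_⟩
      have h3 : p (y0 * y) ∈ J := by
        rw [map_mul, h1]
        exact J.mul_mem hy0J hk
      exact hmul (y0 * y) y0⁻¹ h3 (hmul y0 y hy0J hz0 h2) (hinv y0 hy0J hz0)
    · rintro ⟨h1, h2⟩
      have h3 : p y = k := by
        rw [map_mul, map_mul, map_inv, hy0] at h1
        exact mul_left_cancel (mul_right_cancel h1)
      refine ⟨h3, ?_⟩
      have h4 : y = y0⁻¹ * (y0 * y * y0⁻¹) * y0 := by group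
      have h5 : p y0⁻¹ ∈ J := by
        rw [map_inv]
        exact J.inv_mem hy0J
      have h6 : p (y0 * y * y0⁻¹) ∈ J := by
        rw [h1]
        exact J.mul_mem (J.mul_mem hl hk) (J.inv_mem hl)
      rw [h4]
      exact hmul (y0⁻¹ * (y0 * y * y0⁻¹)) y0 (by
        rw [map_mul]
        exact J.mul_mem h5 h6) (hmul y0⁻¹ _ h5 (hinv y0 hy0J hz0) h2) hz0
  by_cases h : p y = k ∧ ∀ o, zz φ g y o ∈ S o
  · rw [if_pos h, if_pos (hiff.1 h), hF y0 y]
    congr 1
    have h5 : p y0⁻¹ ∈ J := by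
      rw [map_inv]
      exact J.inv_mem hy0J
    have h7 : p y ∈ J := by
      rw [h.1]
      exact hk
    have h8 : p (y * y0⁻¹) ∈ J := by
      rw [map_mul]
      exact J.mul_mem h7 h5
    have h9 := hcomm y0 (y * y0⁻¹) hy0J h8 hz0 (hmul y y0⁻¹ h7 h.2 (hinv y0 hy0J hz0))
    have e1 : y0 * (y * y0⁻¹) = y0 * y * y0⁻¹ := by group
    have e2 : y * y0⁻¹ * y0 = y := by group
    rw [e1, e2] at h9
    exact h9.symm
  · rw [if_neg h, if_neg fun h' => h (hiff.2 h')]

end Pool.Agent.DPV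


end

section

/-!
# BRM: the multiplicities on the class functions which depend on the `ℓ'`-parts
-/

set_option autoImplicit false

namespace Pool.Agent.DPB

open Pool.Agent.Lib_helper13 Representation

namespace BRM

/-- Powers of `f - μ` on an eigenvector. -/
theorem pow_apply {F V : Type} [Field F] [AddCommGroup V] [Module F V] (f : Module.End F V)
    (μ c : F) (v : V) (h : f v = c • v) (k : ℕ) :
    ((f - μ • (1 : Module.End F V)) ^ k) v = (c - μ) ^ k • v := by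
  induction k with
  | zero => simp
  | succ k ih =>
    rw [pow_succ', Module.End.mul_apply, ih, map_smul, LinearMap.sub_apply, h,
      LinearMap.smul_apply, Module.End.one_apply, ← sub_smul, smul_smul, pow_succ]

end BRM

/-- BRM. -/
theorem BRM_thm (h1 : Stmt_BRL) (h2 : Stmt_BRS) (h3 : Stmt_BRE) : Stmt_BRM := by
  intro ℓ _ F H _ _ _ _ _ z hz μ
  have hli : LinearIndependent F (fun φ : {φ : H → F // IsBr F φ} => (φ : H → F)) := h1 F H
  have hfin : Finite {φ : H → F // IsBr F φ} := hli.finite_of_isNoetherian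
  have hft : Fintype {φ : H → F // IsBr F φ} := Fintype.ofFinite _
  have heig : ∀ φ : {φ : H → F // IsBr F φ}, ∃ c : F, Lz z (φ : H → F) = c • (φ : H → F) := by
    rintro ⟨φ, n, ρ, hρ, rfl⟩
    obtain ⟨-, h⟩ := h3 F H (Fin n → F) ρ hρ
    obtain ⟨c, -, hc⟩ := h z hz
    exact ⟨c, hc⟩
  choose c hc using heig
  let b : {φ : {φ : H → F // IsBr F φ} // c φ = μ} → (H → F) := fun φ => (φ.1 : H → F)
  have hb : LinearIndependent F b := hli.comp _ Subtype.val_injective
  have hS : Finite {φ : {φ : H → F // IsBr F φ} // c φ = μ} := inferInstance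
  have hSt : Fintype {φ : {φ : H → F // IsBr F φ} // c φ = μ} := Fintype.ofFinite _
  have hker : (Lz z).maxGenEigenspace μ ⊓ CFr ℓ F H = Submodule.span F (Set.range b) := by
    apply le_antisymm
    · rintro v ⟨hv1, hv2⟩
      rw [h2 ℓ F H] at hv2
      have hr : {φ : H → F | IsBr F φ} =
          Set.range (fun φ : {φ : H → F // IsBr F φ} => (φ : H → F)) := by
        simp
      rw [hr] at hv2
      obtain ⟨a, ha⟩ := (Submodule.mem_span_range_iff_exists_fun F).1 hv2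
      obtain ⟨k, hk⟩ := (Module.End.mem_maxGenEigenspace _ _ _).1 hv1
      rw [← ha, map_sum] at hk
      have hk' : ∑ φ, (a φ * (c φ - μ) ^ k) • (φ : H → F) = 0 := by
        rw [← hk]
        refine Finset.sum_congr rfl fun φ _ => ?_
        rw [map_smul, BRM.pow_apply _ μ (c φ) _ (hc φ) k, smul_smul]
      have hz0 := Fintype.linearIndependent_iff.1 hli _ hk'
      rw [← ha]
      refine Submodule.sum_mem _ fun φ _ => ?_
      by_cases hφ : c φ = μ
      · exact Submodule.smul_mem _ _ (Submodule.subset_span ⟨⟨φ, hφ⟩, rfl⟩)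
      · have h0 : a φ = 0 := by
          have := hz0 φ
          rcases mul_eq_zero.1 this with h | h
          · exact h
          · exact absurd h (pow_ne_zero k (sub_ne_zero.2 hφ))
        rw [h0, zero_smul]
        exact Submodule.zero_mem _
    · rw [Submodule.span_le]
      rintro _ ⟨φ, rfl⟩
      refine ⟨?_, ?_⟩
      · refine (Module.End.mem_maxGenEigenspace _ _ _).2 ⟨1, ?_⟩
        rw [BRM.pow_apply _ μ (c φ.1) _ (hc φ.1) 1, φ.2, sub_self, pow_one, zero_smul]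
      · change (φ.1 : H → F) ∈ CFr ℓ F H
        rw [h2 ℓ F H]
        exact Submodule.subset_span φ.1.2
  unfold mlt
  rw [hker, finrank_span_eq_card hb, ← Nat.card_eq_fintype_card]
  refine Nat.card_congr ⟨fun φ => ⟨φ.1, φ.1.2, by rw [hc φ.1, φ.2]⟩,
    fun φ => ⟨⟨φ.1, φ.2.1⟩, ?_⟩, fun φ => rfl, fun φ => rfl⟩
  have h := hc ⟨φ.1, φ.2.1⟩
  have h' : c ⟨φ.1, φ.2.1⟩ • φ.1 = μ • φ.1 := h.symm.trans φ.2.2
  have hne : φ.1 ≠ 0 := hli.ne_zero ⟨φ.1, φ.2.1⟩
  exact smul_left_injective F hne h'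

end Pool.Agent.DPB


end

section

/-!
# CNTB: the number of characters in a block of defect one and in its local counterpart
-/

namespace Pool.Agent.DPW

open Pool.Agent.DPB Pool.Agent.Lib_helper13 Representation

namespace CNTB

theorem bre : Stmt_BRE := BRE_thm DEN_thm

theorem brm : Stmt_BRM :=
  BRM_thm (BRL_thm DEN_thm) (BRS_thm DEN_thm BRR_thm BRF_thm) bre

section Main

variable {T : Type} [Group T] [Fintype T] {𝔐 : Ideal (integralClosure ℤ ℂ)} {ℓ : ℕ}
  [hℓp : Fact ℓ.Prime] {F : Type} [Field F] [IsAlgClosed F] [CharP F ℓ]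
  {r : integralClosure ℤ ℂ →+* F} {P : Subgroup T} [Fintype (NP P)]
  {a : T → integralClosure ℤ ℂ} {χ₀ : T → ℂ}

/-- The element `a` separates the block of `χ₀` from the other blocks. -/
def Sp (𝔐 : Ideal (integralClosure ℤ ℂ)) (a : T → integralClosure ℤ ℂ) (χ₀ : T → ℂ) : Prop :=
  ∀ χ : T → ℂ, IsIrr χ → (cen 𝔐 (MonoidHom.id T) χ = cen 𝔐 (MonoidHom.id T) χ₀ ↔
    red 𝔐 (wt χ (fun h => (a h : ℂ))) = 1)

theorem red_one' (𝔐 : Ideal (integralClosure ℤ ℂ)) : red 𝔐 (((1 : integralClosure ℤ ℂ) : ℂ)) = 1 := by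
  rw [red_of_integral 𝔐 (1 : integralClosure ℤ ℂ).2]
  rfl

theorem red_iff1 (hk : RingHom.ker r = 𝔐) (b : integralClosure ℤ ℂ) :
    red 𝔐 (b : ℂ) = 1 ↔ r b = 1 := by
  have h := CNT.red_iff 𝔐 r hk b 1
  rw [red_one', map_one] at h
  exact h

/-- The characters of the block are counted by a multiplicity. -/
theorem count_T (hk : RingHom.ker r = 𝔐) (ha : ∀ g x, a (g * x * g⁻¹) = a x)
    (hsep : Sp 𝔐 a χ₀) :
    Nat.card {χ : T → ℂ // IsIrr χ ∧ cen 𝔐 (MonoidHom.id T) χ = cen 𝔐 (MonoidHom.id T) χ₀} =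
      mlt (CF F T) (Lz fun h => r (a h)) 1 := by
  rw [CHP_thm F T r a ha]
  refine Nat.card_congr (Equiv.subtypeEquivRight fun χ => ?_)
  refine and_congr_right fun hχ => ?_
  rw [hsep χ hχ, red_iff1 hk ⟨_, CNT.isInt hχ ha⟩]
  constructor
  · intro h
    exact ⟨_, rfl, h⟩
  · rintro ⟨b, hb, hb'⟩
    have h1 : b = ⟨_, CNT.isInt hχ ha⟩ := Subtype.ext hb
    rwa [← h1]

/-- The characters of the local counterpart are counted by a multiplicity. -/
theorem count_N (hmax : 𝔐.IsMaximal) (hℓ : (ℓ : integralClosure ℤ ℂ) ∈ 𝔐)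
    (hP : Nat.card P = ℓ) (hk : RingHom.ker r = 𝔐) (ha : ∀ g x, a (g * x * g⁻¹) = a x)
    (hsep : Sp 𝔐 a χ₀) :
    Nat.card {ψ : NP P → ℂ // IsIrr ψ ∧
        cen 𝔐 (Subgroup.normalizer (P : Set T)).subtype ψ = cen 𝔐 (MonoidHom.id T) χ₀} =
      mlt (CF F (NP P)) (Lz (brz P fun h => r (a h))) 1 := by
  rw [CNT.brz_eq P r a, CHP_thm F (NP P) r (CNT.ba P a) (CNT.ba_conj P ha)]
  refine Nat.card_congr (Equiv.subtypeEquivRight fun ψ => ?_)
  refine and_congr_right fun hψ => ?_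
  obtain ⟨⟨χ, hχ, hc⟩, hL, -⟩ := LOC_thm T 𝔐 ℓ hmax hℓ P hP ψ hψ
  have hr := hL χ hχ hc a ha
  have hfun : (fun n : NP P => brz (F := ℂ) P (fun h => (a h : ℂ)) n) =
      fun n => (CNT.ba P a n : ℂ) := funext fun n => CNT.brz_eq_coe P a n
  rw [hfun] at hr
  have h1 : cen 𝔐 (Subgroup.normalizer (P : Set T)).subtype ψ = cen 𝔐 (MonoidHom.id T) χ₀ ↔
      red 𝔐 (wt ψ (fun n => (CNT.ba P a n : ℂ))) = 1 := by
    rw [← hc, hsep χ hχ, hr]
  have hi := CNT.isInt hψ (CNT.ba_conj P ha)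
  rw [h1, red_iff1 hk ⟨_, hi⟩]
  constructor
  · intro h
    exact ⟨_, rfl, h⟩
  · rintro ⟨b, hb, hb'⟩
    have h1 : b = ⟨_, hi⟩ := Subtype.ext hb
    rwa [← h1]

/-- No projective simple module belongs to the block. -/
theorem not_proj (h3 : Stmt_NPJB) (hk : RingHom.ker r = 𝔐) (hrs : Function.Surjective r)
    (ha : ∀ g x, a (g * x * g⁻¹) = a x) (hsep : Sp 𝔐 a χ₀)
    (hD : D1 ℓ (cen 𝔐 (MonoidHom.id T) χ₀)) {x₀ : T} (hBK : BK ℓ P x₀ (fun h => r (a h)))
    {n : ℕ} (ρ : Representation F T (Fin n → F)) (hρ : ρ.IsIrreducible)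
    (hev : Zop ρ (fun h => r (a h)) = 1) : NPr P ρ := by
  by_contra hnp
  obtain ⟨z1, hz1, hz1v, hz1o⟩ := h3 ℓ F T (Fin n → F) P x₀ _ hBK ρ hρ hev hnp
  obtain ⟨χ, hχ, hlift⟩ := LFT_thm F T (Fin n → F) r ρ hρ
  have hne : ρ.character ≠ 0 := (bre F T (Fin n → F) ρ hρ).1
  have hnt : Nontrivial (Fin n → F) := by
    by_contra hnt
    rw [not_nontrivial_iff_subsingleton] at hnt
    apply hne
    funext g
    have h0 : ρ g = 0 := LinearMap.ext fun v => Subsingleton.elim _ _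
    simp [Representation.character, h0]
  have hb := hlift a ha ⟨_, CNT.isInt hχ ha⟩ rfl
  rw [hev] at hb
  have hb' : (1 : F) • (1 : Module.End F (Fin n → F)) =
      r ⟨_, CNT.isInt hχ ha⟩ • (1 : Module.End F (Fin n → F)) := by
    rw [one_smul]
    exact hb
  have h1 := CNT.smul_one_inj hb'
  have hcen : cen 𝔐 (MonoidHom.id T) χ = cen 𝔐 (MonoidHom.id T) χ₀ := by
    rw [hsep χ hχ, red_iff1 hk ⟨_, CNT.isInt hχ ha⟩, ← h1]
  -- lift `z1`
  classical
  have hsec : ∃ s : F → integralClosure ℤ ℂ, s 0 = 0 ∧ ∀ x, r (s x) = x := by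
    refine ⟨fun x => if x = 0 then 0 else Function.surjInv hrs x, if_pos rfl, fun x => ?_⟩
    by_cases hx : x = 0
    · simp [hx]
    · simp only [if_neg hx]
      exact Function.surjInv_eq hrs x
  obtain ⟨s, hs0, hs⟩ := hsec
  have ha1 : ∀ g x, s (z1 (g * x * g⁻¹)) = s (z1 x) := fun g x => by rw [hz1 g x]
  have hz1' : (fun h => r (s (z1 h))) = z1 := funext fun h => hs _
  have hi1 : IsIntegral ℤ (wt χ (fun h => (s (z1 h) : ℂ))) :=
    CNT.isInt (a := fun h => s (z1 h)) hχ ha1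
  have hb1 := hlift (fun h => s (z1 h)) ha1 ⟨_, hi1⟩ rfl
  rw [hz1', hz1o] at hb1
  have h5' : (1 : F) • (1 : Module.End F (Fin n → F)) =
      r ⟨_, hi1⟩ • (1 : Module.End F (Fin n → F)) := by
    rw [one_smul]
    exact hb1
  have h6 := CNT.smul_one_inj h5'
  have h7 : red 𝔐 (wt χ (fun h => (s (z1 h) : ℂ))) = 0 := by
    have h8 : red 𝔐 (wt χ (fun h => (s (z1 h) : ℂ))) =
        pair 𝔐 (fun h => (s (z1 h) : ℂ)) (cen 𝔐 (MonoidHom.id T) χ) :=
      red_wt_eq_pair 𝔐 (MonoidHom.id T) hχ (fun h => (s (z1 h) : ℂ))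
        (fun g x => by rw [ha1]) (fun x => (s (z1 x)).2)
    rw [h8, pair, hcen]
    refine finsum_eq_zero_of_forall_eq_zero fun C => ?_
    by_cases hC : cen 𝔐 (MonoidHom.id T) χ₀ C.out = 0
    · rw [hC, mul_zero]
    · have hd := hD.2 _ hC
      obtain ⟨u, hu⟩ := exists_prime_orderOf_dvd_card' ℓ hd
      have e1 : u.1 * C.out = C.out * u.1 := Subgroup.mem_centralizer_singleton_iff.mp u.2
      have e2 : u.1 ^ ℓ = 1 := by
        have e3 : u ^ ℓ = 1 := by
          rw [← hu]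
          exact pow_orderOf_eq_one u
        exact congrArg Subtype.val e3
      have e4 : u.1 ≠ 1 := by
        intro e5
        have e6 : u = 1 := Subtype.ext e5
        rw [e6, orderOf_one] at hu
        exact hℓp.out.one_lt.ne hu
      have e7 : ((s (z1 C.out) : integralClosure ℤ ℂ) : ℂ) = 0 := by
        rw [hz1v _ _ e4 e2 e1, hs0]
        rfl
      rw [e7, red_zero, zero_mul]
  have h8' := (CNT.red_zero_iff 𝔐 r hk ⟨_, hi1⟩).1 h7
  rw [h8'] at h6
  exact one_ne_zero h6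

/-- The main count. -/
theorem main (h2 : Stmt_LEQB) (h3 : Stmt_NPJB) (h4 : Stmt_SNGB) (hmax : 𝔐.IsMaximal)
    (hℓ : (ℓ : integralClosure ℤ ℂ) ∈ 𝔐) (hP : Nat.card P = ℓ) (hk : RingHom.ker r = 𝔐)
    (hrs : Function.Surjective r) (ha : ∀ g x, a (g * x * g⁻¹) = a x) (hsep : Sp 𝔐 a χ₀)
    (hD : D1 ℓ (cen 𝔐 (MonoidHom.id T) χ₀)) {x₀ : T} (hBK : BK ℓ P x₀ (fun h => r (a h))) :
    Nat.card {χ : T → ℂ // IsIrr χ ∧ cen 𝔐 (MonoidHom.id T) χ = cen 𝔐 (MonoidHom.id T) χ₀} =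
    Nat.card {ψ : NP P → ℂ // IsIrr ψ ∧
        cen 𝔐 (Subgroup.normalizer (P : Set T)).subtype ψ = cen 𝔐 (MonoidHom.id T) χ₀} := by
  rw [count_T (r := r) hk ha hsep, count_N (r := r) hmax hℓ hP hk ha hsep]
  have hz : (fun h => r (a h)) ∈ CF F T := hBK.cf
  have hzN : brz P (fun h => r (a h)) ∈ CF F (NP P) := by
    rw [CNT.brz_eq P r a]
    intro g x
    show r (CNT.ba P a (g * x * g⁻¹)) = r (CNT.ba P a x)
    rw [CNT.ba_conj P ha]
  have hreg : mlt (CFr ℓ F T) (Lz fun h => r (a h)) 1 =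
      mlt (CFr ℓ F (NP P)) (Lz (brz P fun h => r (a h))) 1 := by
    rw [brm ℓ F T _ hz 1, brm ℓ F (NP P) _ hzN 1]
    have e1 := h2 ℓ F T P x₀ _ hBK fun n ρ hρ hev =>
      not_proj h3 hk hrs ha hsep hD hBK ρ hρ hev
    simp only [one_smul]
    exact e1
  have e2 := h4 ℓ F T P x₀ _ hBK
  rw [hreg] at e2
  exact Nat.add_right_cancel e2

end Main

end CNTB

/-- CNTB: the number of characters in a block of defect one and in its local counterpart. -/
theorem CNTB_thm (h1 : Stmt_IDMB) (h2 : Stmt_LEQB) (h3 : Stmt_NPJB) (h4 : Stmt_SNGB) :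
    Stmt_CNTB := by
  intro T _ _ 𝔐 ℓ _ hmax hℓ χ₀ hχ₀ hD P _ x₀ hAt
  let _ : Field ((integralClosure ℤ ℂ) ⧸ 𝔐) := Ideal.Quotient.field 𝔐
  have hrs : Function.Surjective (Ideal.Quotient.mk 𝔐) := Ideal.Quotient.mk_surjective
  have hac : IsAlgClosed ((integralClosure ℤ ℂ) ⧸ 𝔐) := ACF_thm _ (Ideal.Quotient.mk 𝔐) hrs
  have hch : CharP ((integralClosure ℤ ℂ) ⧸ 𝔐) ℓ := by
    rw [CharP.charP_iff_prime_eq_zero (Fact.out : ℓ.Prime)]
    rw [← map_natCast (Ideal.Quotient.mk 𝔐)]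
    exact Ideal.Quotient.eq_zero_iff_mem.mpr hℓ
  obtain ⟨a, ha, hid, hv1, hv0, hfac⟩ := h1 _ T 𝔐 ℓ hmax hℓ (Ideal.Quotient.mk 𝔐) hrs
    Ideal.mk_ker χ₀ hχ₀
  have hsep : CNTB.Sp 𝔐 a χ₀ := by
    intro χ hχ
    constructor
    · exact hv1 χ hχ
    · intro h
      by_contra hne
      rw [hv0 χ hχ hne] at h
      exact zero_ne_one h
  have hBK : BK ℓ P x₀ (fun h => Ideal.Quotient.mk 𝔐 (a h)) :=
    { cf := fun g x => by
        show Ideal.Quotient.mk 𝔐 (a (g * x * g⁻¹)) = Ideal.Quotient.mk 𝔐 (a x)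
        rw [ha]
      idem := hid
      card := hAt.card
      cen := hAt.cen
      sq := hAt.sq
      fac := hfac x₀ hAt.ne }
  exact CNTB.main (r := Ideal.Quotient.mk 𝔐) h2 h3 h4 hmax hℓ hAt.card Ideal.mk_ker hrs ha hsep
    hD hBK

end Pool.Agent.DPW


end

section

/-!
# Theorem X, module CNTI: the dimensions of the centres of the block and of the local block
-/

namespace Pool.Agent.DPX

open Pool.Agent.DPB Pool.Agent.DPW Representation

namespace CNTI

theorem brm : Stmt_BRM :=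
  BRM_thm (BRL_thm DEN_thm) (BRS_thm DEN_thm BRR_thm BRF_thm) (BRE_thm DEN_thm)

end CNTI

theorem CNTI_thm (h1 : Stmt_LEQX) (h2 : Stmt_SNGX) : Stmt_CNTI := by
  intro ℓ n _ F T _ _ _ _ _ P₁ P _ x₀ e hB hP hN
  have hc := h2 ℓ n F T P₁ P x₀ e hB
  have b1 := CNTI.brm ℓ F T e hB.cf 1
  have b2 := CNTI.brm ℓ F (NP P₁) (brz P₁ e) (DPB.LEQ.brz_mem P₁ hB.cf) 1
  have hl := h1 ℓ n F T P₁ P x₀ e hB hP hN
  simp only [one_smul] at b1 b2
  rw [b1, b2, hl] at hc
  exact Nat.add_right_cancel hc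

end Pool.Agent.DPX


end

section

/-!
# CNTX: the number of characters in a block and in its local counterpart
-/

set_option autoImplicit false

namespace Pool.Agent.DPX

open Pool.Agent.DP Pool.Agent.DPB Pool.Agent.DPW Pool.Agent.Lib_helper13 Representation

namespace CNTX

theorem pos_of_cycD {ℓ n : ℕ} [hp : Fact ℓ.Prime] {T : Type} [Group T] [Finite T]
    {P₁ P : Subgroup T} {x₀ : T} (h : CycD ℓ n P₁ P x₀) : 0 < n := by
  rcases Nat.eq_zero_or_pos n with h0 | h0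
  · exfalso
    have h1 : Nat.card P = 1 := by rw [h.card, h0, pow_zero]
    have h2 : Nat.card P₁ ≤ Nat.card P := Subgroup.card_le_of_le h.le
    rw [h1, h.c1] at h2
    exact absurd hp.out.one_lt (not_lt.mpr h2)
  · exact h0

end CNTX

/-- CNTX: the number of characters in a block and in its local counterpart. -/
theorem CNTX_thm (h1 : Stmt_NIXX) (h2 : Stmt_IDX) (h3 : Stmt_BKNX) (h4 : Stmt_CNTI) :
    Stmt_CNTX := by
  have _ := h3
  intro T _ _ 𝔐 ℓ n _ hmax hℓ χ₀ hχ₀ P₁ P _ x₀ hAt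
  let _ : Field ((integralClosure ℤ ℂ) ⧸ 𝔐) := Ideal.Quotient.field 𝔐
  have hrs : Function.Surjective (Ideal.Quotient.mk 𝔐) := Ideal.Quotient.mk_surjective
  have hac : IsAlgClosed ((integralClosure ℤ ℂ) ⧸ 𝔐) := ACF_thm _ (Ideal.Quotient.mk 𝔐) hrs
  have hch : CharP ((integralClosure ℤ ℂ) ⧸ 𝔐) ℓ := by
    rw [CharP.charP_iff_prime_eq_zero (Fact.out : ℓ.Prime)]
    rw [← map_natCast (Ideal.Quotient.mk 𝔐)]
    exact Ideal.Quotient.eq_zero_iff_mem.mpr hℓ
  obtain ⟨a, ha, hPrm, hval, -, -, hBK, -⟩ := h2 _ T 𝔐 ℓ hmax hℓ (Ideal.Quotient.mk 𝔐) hrs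
    Ideal.mk_ker χ₀ hχ₀
  have hsep : CNTB.Sp 𝔐 a χ₀ := by
    intro χ hχ
    have h := hval χ hχ
    constructor
    · intro he
      rw [h, if_pos he]
    · intro h5
      by_contra hne
      rw [h, if_neg hne] at h5
      exact zero_ne_one h5
  obtain ⟨hB, -⟩ := hBK n P₁ P x₀ hAt
  have hn : 0 < n := CNTX.pos_of_cycD hAt.cd
  have hN := h1 ℓ n ((integralClosure ℤ ℂ) ⧸ 𝔐) hn
  have hc := h4 ℓ n _ T P₁ P x₀ _ hB hPrm hN
  rw [CNTB.count_T (r := Ideal.Quotient.mk 𝔐) Ideal.mk_ker ha hsep,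
    CNTB.count_N (r := Ideal.Quotient.mk 𝔐) hmax hℓ hAt.cd.c1 Ideal.mk_ker ha hsep]
  exact hc

end Pool.Agent.DPX


end

section

/-!
# ATNX: the block of the normalizer
-/

set_option autoImplicit false

namespace Pool.Agent.DPX

open Pool.Agent.DP Pool.Agent.DPB Pool.Agent.DPW Pool.Agent.Lib_helper13 Representation

namespace ATNX

open Pool.Agent.DPW.IDMB

section Uniq

variable {F N : Type} [Field F] [Group N] [Fintype N]

/-- two primitive idempotents with a nonzero product are equal -/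
theorem prm_eq {e f : N → F} (he : Prm e) (hf : Prm f) (h : cvF e f ≠ 0) : e = f := by
  have hmem := PRMX.cvF_mem he.1 hf.1
  have hc : cvF e f = cvF f e := PRMX.cvF_comm e hf.1
  have h1 : cvF e (cvF e f) = cvF e f := by rw [← PRMX.cvF_assoc, he.2.1]
  have h2 : cvF f (cvF e f) = cvF e f := by rw [hc, ← PRMX.cvF_assoc, hf.2.1]
  have h3 : cvF (cvF e f) (cvF e f) = cvF e f := by rw [PRMX.cvF_assoc, h2, h1]
  rcases he.2.2.2 _ hmem h3 h1 with h4 | h4
  · exact absurd h4 h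
  · rcases hf.2.2.2 _ hmem h3 h2 with h5 | h5
    · exact absurd h5 h
    · rw [← h4, h5]

end Uniq

section Main

variable {T : Type} [Group T] [Fintype T] {𝔐 : Ideal (integralClosure ℤ ℂ)} {ℓ : ℕ}
  [hℓp : Fact ℓ.Prime] {P : Subgroup T} [Fintype (NP P)]
  {a : T → integralClosure ℤ ℂ} {χ₀ : T → ℂ}

/-- the values of the central characters of the normalizer at the Brauer image -/
theorem val_ba (hmax : 𝔐.IsMaximal) (hℓ : (ℓ : integralClosure ℤ ℂ) ∈ 𝔐)
    (hP : Nat.card P = ℓ) (ha : ∀ g x, a (g * x * g⁻¹) = a x) {ψ : NP P → ℂ} (hψ : IsIrr ψ)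
    {χ : T → ℂ} (hχ : IsIrr χ)
    (hc : cen 𝔐 (MonoidHom.id T) χ = cen 𝔐 (Subgroup.normalizer (P : Set T)).subtype ψ) :
    red 𝔐 (wt ψ (fun n => (CNT.ba P a n : ℂ))) = red 𝔐 (wt χ (fun h => (a h : ℂ))) := by
  obtain ⟨-, hL, -⟩ := LOC_thm T 𝔐 ℓ hmax hℓ P hP ψ hψ
  have hr := hL χ hχ hc a ha
  have hfun : (fun n : NP P => brz (F := ℂ) P (fun h => (a h : ℂ)) n) =
      fun n => (CNT.ba P a n : ℂ) := funext fun n => CNT.brz_eq_coe P a n
  rw [hfun] at hr
  exact hr

end Main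

end ATNX

/-- **ATNX** -/
theorem ATNX_thm (h1 : Stmt_IDX) (h2 : Stmt_SUPX) (h3 : Stmt_BKNX) (h4 : Stmt_PRMX) :
    Stmt_ATNX := by
  classical
  intro T _ _ 𝔐 ℓ n _ hmax hℓ χ₀ hχ₀ P₁ P _ x₀ hAt hx ψ hψ hψc
  let _ : Field ((integralClosure ℤ ℂ) ⧸ 𝔐) := Ideal.Quotient.field 𝔐
  have hrs : Function.Surjective (Ideal.Quotient.mk 𝔐) := Ideal.Quotient.mk_surjective
  have hch : CharP ((integralClosure ℤ ℂ) ⧸ 𝔐) ℓ := by
    rw [CharP.charP_iff_prime_eq_zero (Fact.out : ℓ.Prime)]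
    rw [← map_natCast (Ideal.Quotient.mk 𝔐)]
    exact Ideal.Quotient.eq_zero_iff_mem.mpr hℓ
  have hker : RingHom.ker (Ideal.Quotient.mk 𝔐) = 𝔐 := Ideal.mk_ker
  have hP : Nat.card P₁ = ℓ := hAt.cd.c1
  set r := Ideal.Quotient.mk 𝔐 with hrdef
  -- the idempotent of the group
  obtain ⟨a, ha, haP, hav, -, -, haB, -⟩ := h1 _ T 𝔐 ℓ hmax hℓ r hrs hker χ₀ hχ₀
  obtain ⟨hBK, -⟩ := haB n P₁ P x₀ hAt
  have hPeb := h4 ℓ n _ T P₁ P x₀ _ hBK haP
  obtain ⟨hPle, hBN⟩ := h3.2 ℓ n _ T P₁ P x₀ _ hBK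
  obtain ⟨hcls, hBKN⟩ := hBN hx
  -- the idempotent of the character of the normalizer
  obtain ⟨c, hc, hcP, hcv, hcf, -, -, -⟩ := h1 _ (NP P₁) 𝔐 ℓ hmax hℓ r hrs hker ψ hψ
  -- the values at the Brauer image
  have hval : ∀ ψ' : NP P₁ → ℂ, IsIrr ψ' →
      red 𝔐 (wt ψ' (fun n => (CNT.ba P₁ a n : ℂ))) =
        if cen 𝔐 (Subgroup.normalizer (P₁ : Set T)).subtype ψ' =
          cen 𝔐 (MonoidHom.id T) χ₀ then 1 else 0 := by
    intro ψ' hψ'
    obtain ⟨⟨χ, hχ, hcc⟩, -, -⟩ := LOC_thm T 𝔐 ℓ hmax hℓ P₁ hP ψ' hψ'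
    rw [ATNX.val_ba hmax hℓ hP ha hψ' hχ hcc, hav χ hχ, hcc]
  -- the two idempotents are equal
  have hba := CNT.ba_conj P₁ ha
  have hIc : ∀ ψ' : NP P₁ → ℂ, IsIrr ψ' → IsIntegral ℤ (wt ψ' (fun n => (c n : ℂ))) :=
    fun ψ' hψ' => CNT.isInt hψ' hc
  have hIb : ∀ ψ' : NP P₁ → ℂ, IsIrr ψ' →
      IsIntegral ℤ (wt ψ' (fun n => (CNT.ba P₁ a n : ℂ))) :=
    fun ψ' hψ' => CNT.isInt hψ' hba
  have hro : ∀ z : ℂ, IsIntegral ℤ z → (red 𝔐 z = 1 → IDMB.ro r z = 1) := by
    intro z hz h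
    rw [← red_one] at h
    rw [← IDMB.ro_one r]
    exact (IDMB.red_eq_iff_ro r hker hz isIntegral_one).1 h
  have hlamc : IDMB.lam r ψ (fun x => r (c x)) = 1 := by
    rw [IDMB.lam_red r hψ c hc]
    apply hro _ (hIc ψ hψ)
    rw [hcv ψ hψ, if_pos rfl]
  have hlamb : IDMB.lam r ψ (brz P₁ fun x => r (a x)) = 1 := by
    rw [CNT.brz_eq P₁ r a, IDMB.lam_red r hψ _ hba]
    apply hro _ (hIb ψ hψ)
    rw [hval ψ hψ, if_pos hψc]
  have heq : brz P₁ (fun x => r (a x)) = fun x => r (c x) := by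
    apply ATNX.prm_eq hPeb hcP
    intro h0
    have h5 := IDMB.lam_mul r hrs hψ hPeb.1 hcP.1
    rw [h0, hlamb, hlamc, one_mul] at h5
    have h6 := IDMB.lam_smul r ψ (0 : (integralClosure ℤ ℂ) ⧸ 𝔐)
      (0 : NP P₁ → (integralClosure ℤ ℂ) ⧸ 𝔐)
    rw [zero_smul, zero_mul, h5] at h6
    exact one_ne_zero h6
  refine ⟨⟨hBKN.cd, ?_, ?_⟩, ?_⟩
  · -- the value at `x₀`
    intro h0
    apply hAt.ne
    let i : T → integralClosure ℤ ℂ := fun y => if IsConj y x₀ then 1 else 0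
    have hi : ∀ g x, i (g * x * g⁻¹) = i x := by
      intro g x
      show (if IsConj (g * x * g⁻¹) x₀ then (1 : integralClosure ℤ ℂ) else 0) =
        if IsConj x x₀ then 1 else 0
      have h5 : IsConj x (g * x * g⁻¹) := isConj_iff.2 ⟨g, rfl⟩
      exact if_congr ⟨fun h => h5.trans h, fun h => h5.symm.trans h⟩ rfl rfl
    have h5 : red 𝔐 (wt ψ (fun n => (CNT.ba P₁ i n : ℂ))) =
        red 𝔐 (wt χ₀ (fun h => (i h : ℂ))) :=
      ATNX.val_ba hmax hℓ hP hi hψ hχ₀ hψc.symm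
    have h6 : (fun h => (i h : ℂ)) = fun h => conjInd (MonoidHom.id T h) x₀ := by
      funext h
      show ((if IsConj h x₀ then (1 : integralClosure ℤ ℂ) else 0 : integralClosure ℤ ℂ) : ℂ) =
        conjInd h x₀
      unfold conjInd
      split_ifs
      · rfl
      · rfl
    have h7 : (fun n : NP P₁ => (CNT.ba P₁ i n : ℂ)) =
        fun n => conjInd (MonoidHom.id (NP P₁) n) ⟨x₀, hx⟩ := by
      funext m
      have h8 := congrFun hcls m
      have h9 : ∀ z : T, (∃ g, z = g * x₀ * g⁻¹) ↔ IsConj z x₀ := by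
        intro z
        rw [isConj_comm, isConj_iff]
        exact ⟨fun ⟨g, hg⟩ => ⟨g, hg.symm⟩, fun ⟨g, hg⟩ => ⟨g, hg.symm⟩⟩
      have h10 : ∀ z : NP P₁, (∃ g, z = g * (⟨x₀, hx⟩ : NP P₁) * g⁻¹) ↔
          IsConj z (⟨x₀, hx⟩ : NP P₁) := by
        intro z
        rw [isConj_comm, isConj_iff]
        exact ⟨fun ⟨g, hg⟩ => ⟨g, hg.symm⟩, fun ⟨g, hg⟩ => ⟨g, hg.symm⟩⟩
      have hi1 : ∀ z : T, IsConj z x₀ → i z = 1 := fun z h => if_pos h
      have hi0 : ∀ z : T, ¬ IsConj z x₀ → i z = 0 := fun z h => if_neg h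
      have hj1 : IsConj m (⟨x₀, hx⟩ : NP P₁) → conjInd m (⟨x₀, hx⟩ : NP P₁) = 1 :=
        fun h => if_pos h
      have hj0 : ¬ IsConj m (⟨x₀, hx⟩ : NP P₁) → conjInd m (⟨x₀, hx⟩ : NP P₁) = 0 :=
        fun h => if_neg h
      show (CNT.ba P₁ i m : ℂ) = conjInd m (⟨x₀, hx⟩ : NP P₁)
      unfold brz clsF at h8
      unfold CNT.ba
      by_cases hm : (m : T) ∈ Subgroup.centralizer (P₁ : Set T)
      · rw [if_pos hm] at h8 ⊢
        by_cases hm1 : IsConj (m : T) x₀
        · rw [if_pos ((h9 m).2 hm1)] at h8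
          rw [hi1 _ hm1]
          by_cases hm2 : IsConj m (⟨x₀, hx⟩ : NP P₁)
          · rw [hj1 hm2]
            rfl
          · rw [if_neg (fun h => hm2 ((h10 m).1 h))] at h8
            exact absurd h8 one_ne_zero
        · rw [if_neg (fun h => hm1 ((h9 m).1 h))] at h8
          rw [hi0 _ hm1]
          by_cases hm2 : IsConj m (⟨x₀, hx⟩ : NP P₁)
          · rw [if_pos ((h10 m).2 hm2)] at h8
            exact absurd h8.symm one_ne_zero
          · rw [hj0 hm2]
            rfl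
      · rw [if_neg hm] at h8 ⊢
        by_cases hm2 : IsConj m (⟨x₀, hx⟩ : NP P₁)
        · rw [if_pos ((h10 m).2 hm2)] at h8
          exact absurd h8.symm one_ne_zero
        · rw [hj0 hm2]
          rfl
    rw [h6, h7] at h5
    show red 𝔐 (wt χ₀ (fun y => conjInd (MonoidHom.id T y) x₀)) = 0
    rw [← h5]
    exact h0
  · -- the defect
    intro x hxne
    obtain ⟨y, hy, hyc⟩ := hcf x hxne
    obtain ⟨h, hh, hQ⟩ := hBKN.nz
    rw [heq, hyc] at hh
    have hPg : IsPGroup ℓ (P.subgroupOf (Subgroup.normalizer (P₁ : Set T))) :=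
      IsPGroup.of_card hBKN.cd.card
    obtain ⟨t, ht⟩ := h2.1 ℓ _ (NP P₁) x y hy h hh _ hPg hQ
    rw [← hBKN.cd.card]
    have hle : (P.subgroupOf (Subgroup.normalizer (P₁ : Set T))).map
        (MulAut.conj t).toMonoidHom ≤ Subgroup.centralizer ({x} : Set (NP P₁)) := by
      rintro _ ⟨u, hu, rfl⟩
      rw [Subgroup.mem_centralizer_singleton_iff]
      exact ht u hu
    have hcard : Nat.card ((P.subgroupOf (Subgroup.normalizer (P₁ : Set T))).map
        (MulAut.conj t).toMonoidHom) =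
          Nat.card (P.subgroupOf (Subgroup.normalizer (P₁ : Set T))) :=
      Subgroup.card_map_of_injective (MulAut.conj t).injective
    rw [← hcard]
    exact Subgroup.card_dvd_of_le hle
  · -- the block
    intro ψ' hψ'
    have h5 : cen 𝔐 (MonoidHom.id (NP P₁)) ψ' = cen 𝔐 (MonoidHom.id (NP P₁)) ψ ↔
        red 𝔐 (wt ψ' (fun n => (c n : ℂ))) = 1 := by
      rw [hcv ψ' hψ']
      constructor
      · intro h
        rw [if_pos h]
      · intro h
        by_contra h6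
        rw [if_neg h6] at h
        exact zero_ne_one h
    have h6 : cen 𝔐 (Subgroup.normalizer (P₁ : Set T)).subtype ψ' =
        cen 𝔐 (MonoidHom.id T) χ₀ ↔
        red 𝔐 (wt ψ' (fun n => (CNT.ba P₁ a n : ℂ))) = 1 := by
      rw [hval ψ' hψ']
      constructor
      · intro h
        rw [if_pos h]
      · intro h
        by_contra h6
        rw [if_neg h6] at h
        exact zero_ne_one h
    rw [h5, h6]
    have h7 : red 𝔐 (wt ψ' (fun n => (c n : ℂ))) =
        red 𝔐 (wt ψ' (fun n => (CNT.ba P₁ a n : ℂ))) := by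
      rw [IDMB.red_eq_iff_ro r hker (hIc ψ' hψ') (hIb ψ' hψ'), ← IDMB.lam_red r hψ' c hc,
        ← IDMB.lam_red r hψ' _ hba, ← heq, CNT.brz_eq P₁ r a]
    rw [h7]

end Pool.Agent.DPX


end

section

/-!
# NILO: the number of characters in a block whose defect groups contain a central subgroup of
order `ℓ`
-/

namespace Pool.Agent.DPX

open Pool.Agent.DP Pool.Agent.DPB Pool.Agent.DPW Pool.Agent.Lib_helper13 Representation

/-- NILO: the number of characters in a block whose defect groups contain a central subgroup of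
order `ℓ`. -/
theorem NILO_thm (h1 : Stmt_NIXX) (h2 : Stmt_IDX) (h3 : Stmt_CENX) : Stmt_NILO := by
  intro C _ _ 𝔐 ℓ n _ hmax hℓ P₁ P x₀ hcen φ₀ hφ₀ hAt
  let _ : Field ((integralClosure ℤ ℂ) ⧸ 𝔐) := Ideal.Quotient.field 𝔐
  have hrs : Function.Surjective (Ideal.Quotient.mk 𝔐) := Ideal.Quotient.mk_surjective
  have hac : IsAlgClosed ((integralClosure ℤ ℂ) ⧸ 𝔐) := ACF_thm _ (Ideal.Quotient.mk 𝔐) hrs
  have hch : CharP ((integralClosure ℤ ℂ) ⧸ 𝔐) ℓ := by
    rw [CharP.charP_iff_prime_eq_zero (Fact.out : ℓ.Prime)]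
    rw [← map_natCast (Ideal.Quotient.mk 𝔐)]
    exact Ideal.Quotient.eq_zero_iff_mem.mpr hℓ
  obtain ⟨a, ha, hprm, hred, -, -, hbk, -⟩ := h2 _ C 𝔐 ℓ hmax hℓ (Ideal.Quotient.mk 𝔐) hrs
    Ideal.mk_ker φ₀ hφ₀
  obtain ⟨hB, -⟩ := hbk n P₁ P x₀ hAt
  have hn : 0 < n := by
    rcases Nat.eq_zero_or_pos n with h | h
    · exfalso
      have hc1 := hAt.cd.c1
      have hc2 := hAt.cd.card
      rw [h, pow_zero] at hc2
      have hd : Nat.card P₁ ∣ Nat.card P := Subgroup.card_dvd_of_le hAt.cd.le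
      rw [hc1, hc2] at hd
      exact (Fact.out : ℓ.Prime).one_lt.ne' (Nat.dvd_one.mp hd)
    · exact h
  obtain ⟨m, E, z, hN⟩ := h1 ℓ n _ hn C P₁ P x₀ _ hB hprm hcen
  obtain ⟨hcf, hidem, hne, -⟩ := hprm
  have hm := (h3 _ C _ hcf hidem hne m (ℓ ^ n) E z hN).1
  have hsep : CNTB.Sp 𝔐 a φ₀ := by
    intro χ hχ
    rw [hred χ hχ]
    by_cases hc : cen 𝔐 (MonoidHom.id C) χ = cen 𝔐 (MonoidHom.id C) φ₀
    · rw [if_pos hc]
      exact ⟨fun _ => rfl, fun _ => hc⟩
    · rw [if_neg hc]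
      exact ⟨fun h => absurd h hc, fun h => absurd h zero_ne_one⟩
  rw [CNTB.count_T (r := Ideal.Quotient.mk 𝔐) Ideal.mk_ker ha hsep]
  exact hm

end Pool.Agent.DPX


end

section

/-!
# MT2X: the values at the elements whose powers contain the subgroup of order `ℓ`
-/

set_option autoImplicit false

namespace Pool.Agent.DPX

open Pool.Agent.DP Pool.Agent.DPV Pool.Agent.DPB Pool.Agent.DPW Pool.Agent.Lib_helper13
open Representation

namespace MT2X

/-! ### Cyclic groups -/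

section Cyc

/-- a cyclic group has at most one subgroup of a given order -/
lemma uniq {C : Type} [Group C] [Finite C] [IsCyclic C] {A B : Subgroup C}
    (h : Nat.card A = Nat.card B) : A = B := by
  classical
  have : Fintype C := Fintype.ofFinite C
  set n := Nat.card A with hn
  have hn0 : 0 < n := Nat.card_pos
  set S : Set C := {a : C | a ^ n = 1} with hS
  have hSn : S.ncard ≤ n := by
    have h1 := IsCyclic.card_pow_eq_one_le (α := C) hn0
    have h2 : S.ncard = (Finset.univ.filter fun a : C => a ^ n = 1).card := by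
      rw [← Set.ncard_coe_finset]
      congr 1
      ext a
      simp [hS]
    rw [h2]
    exact h1
  have key : ∀ D : Subgroup C, Nat.card D = n → (D : Set C) = S := by
    intro D hD
    apply Set.eq_of_subset_of_ncard_le _ _ (Set.toFinite S)
    · intro a ha
      have h1 : (⟨a, ha⟩ : D) ^ Nat.card D = 1 := pow_card_eq_one'
      rw [hD] at h1
      exact congrArg Subtype.val h1
    · have h1 : (D : Set C).ncard = n := by
        rw [← hD]
        rfl
      rw [h1]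
      exact hSn
  exact SetLike.coe_injective ((key A hn.symm).trans (key B h.symm).symm)

variable {T : Type} [Group T]

lemma card_subgroupOf {A P : Subgroup T} (h : A ≤ P) : Nat.card (A.subgroupOf P) = Nat.card A :=
  Nat.card_congr (Subgroup.subgroupOfEquivOfLe h).toEquiv

lemma uniq' [Finite T] {P A B : Subgroup T} (hP : IsCyclic P) (hA : A ≤ P) (hB : B ≤ P)
    (h : Nat.card A = Nat.card B) : A = B := by
  have h1 : A.subgroupOf P = B.subgroupOf P := by
    apply uniq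
    rw [card_subgroupOf hA, card_subgroupOf hB, h]
  have h2 := Subgroup.subgroupOf_inj.1 h1
  rwa [inf_eq_left.2 hA, inf_eq_left.2 hB] at h2

/-- the decomposition of an element into the `ℓ`-part and the `ℓ'`-part -/
lemma dec [Finite T] {ℓ : ℕ} [hℓ : Fact ℓ.Prime] {P₁ : Subgroup T} (hc : Nat.card P₁ = ℓ) {g : T}
    (hg : P₁ ≤ Subgroup.zpowers g) : ∃ (k r : ℕ) (u s : T), u ∈ Subgroup.zpowers g ∧
      s ∈ Subgroup.zpowers g ∧ u * s = g ∧ u ^ ℓ ^ (k + 1) = 1 ∧ s ^ r = 1 ∧ ¬ ℓ ∣ r ∧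
      P₁ = Subgroup.zpowers (u ^ ℓ ^ k) ∧ orderOf (u ^ ℓ ^ k) = ℓ := by
  have hN0 : orderOf g ≠ 0 := (orderOf_pos g).ne'
  have hd : ℓ ∣ orderOf g := by
    rw [← Nat.card_zpowers, ← hc]
    exact Subgroup.card_dvd_of_le hg
  obtain ⟨m, r, hr, hN⟩ := Nat.exists_eq_pow_mul_and_not_dvd hN0 ℓ hℓ.out.ne_one
  have hm : m ≠ 0 := by
    rintro rfl
    rw [pow_zero, one_mul] at hN
    rw [hN] at hd
    exact hr hd
  obtain ⟨k, rfl⟩ := Nat.exists_eq_succ_of_ne_zero hm
  have hcop : IsCoprime ((ℓ ^ (k + 1) : ℕ) : ℤ) (r : ℤ) := by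
    rw [Nat.isCoprime_iff_coprime]
    exact Nat.Coprime.pow_left _ ((Nat.Prime.coprime_iff_not_dvd hℓ.out).2 hr)
  obtain ⟨a, b, hab⟩ := hcop
  have hgN : g ^ ((ℓ ^ (k + 1) * r : ℕ) : ℤ) = 1 := by
    have h1 : g ^ orderOf g = 1 := pow_orderOf_eq_one g
    rw [hN] at h1
    rw [zpow_natCast]
    exact h1
  have hkey : ∀ c : ℤ, g ^ (((ℓ ^ (k + 1) * r : ℕ) : ℤ) * c) = 1 := by
    intro c
    rw [zpow_mul, hgN, one_zpow]
  have hu1 : (g ^ (b * r)) ^ ℓ ^ (k + 1) = 1 := by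
    rw [← zpow_natCast, ← zpow_mul, ← hkey b]
    congr 1
    push_cast
    ring
  have hs1 : (g ^ (a * (ℓ ^ (k + 1) : ℕ))) ^ r = 1 := by
    rw [← zpow_natCast, ← zpow_mul, ← hkey a]
    congr 1
    push_cast
    ring
  have hord : orderOf ((g ^ (b * r)) ^ ℓ ^ k) = ℓ := by
    apply orderOf_eq_prime
    · rw [← pow_mul, ← pow_succ]
      exact hu1
    · intro h1
      rw [← zpow_natCast, ← zpow_mul] at h1
      have h2 := orderOf_dvd_iff_zpow_eq_one.2 h1
      rw [hN] at h2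
      obtain ⟨c, hc'⟩ := h2
      have hr0 : (r : ℤ) ≠ 0 := by
        intro h0
        apply hr
        rw [Int.natCast_eq_zero.1 h0]
        exact dvd_zero ℓ
      have hl0 : ((ℓ : ℤ) ^ k) ≠ 0 := pow_ne_zero _ (by exact_mod_cast hℓ.out.ne_zero)
      have h3 : b = ℓ * c := by
        have h4 : (r : ℤ) * (ℓ : ℤ) ^ k * b = (r : ℤ) * (ℓ : ℤ) ^ k * (ℓ * c) := by
          push_cast at hc'
          rw [pow_succ] at hc'
          linear_combination hc'
        exact mul_left_cancel₀ (mul_ne_zero hr0 hl0) h4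
      have h5 : (ℓ : ℤ) ∣ 1 := by
        rw [← hab, h3]
        apply dvd_add
        · apply Dvd.dvd.mul_left
          push_cast
          exact dvd_pow_self _ (Nat.succ_ne_zero k)
        · exact Dvd.dvd.mul_right (dvd_mul_right _ _) _
      have h6 : ℓ ∣ 1 := by exact_mod_cast h5
      exact hℓ.out.one_lt.ne' (Nat.dvd_one.1 h6)
  refine ⟨k, r, g ^ (b * r), g ^ (a * (ℓ ^ (k + 1) : ℕ)), Subgroup.zpow_mem_zpowers _ _,
    Subgroup.zpow_mem_zpowers _ _, ?_, hu1, hs1, hr, ?_, hord⟩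
  · rw [← zpow_add, add_comm, hab, zpow_one]
  · apply uniq' (P := Subgroup.zpowers g) inferInstance hg
    · rw [Subgroup.zpowers_le]
      exact pow_mem (Subgroup.zpow_mem_zpowers _ _) _
    · rw [hc, Nat.card_zpowers, hord]

end Cyc

/-! ### Traces over subgroups -/

section Tr

variable {F H V : Type} [Field F] [Group H] [Fintype H] [AddCommGroup V] [Module F V]

/-- a sum over a cyclic group -/
lemma sum_zp {M : Type} [AddCommMonoid M] {P₁ : Subgroup H} [Fintype P₁] {x : H}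
    (hx : P₁ = Subgroup.zpowers x) (f : H → M) :
    ∑ p : P₁, f p = ∑ i ∈ Finset.range (orderOf x), f (x ^ i) := by
  have hm : ∀ i : ℕ, x ^ i ∈ P₁ := by
    intro i
    rw [hx]
    exact Subgroup.npow_mem_zpowers x i
  symm
  apply Finset.sum_nbij (fun i => (⟨x ^ i, hm i⟩ : P₁))
  · intro i _
    exact Finset.mem_univ _
  · intro i hi j hj hij
    rw [Finset.mem_coe, Finset.mem_range] at hi hj
    exact pow_injOn_Iio_orderOf hi hj (congrArg Subtype.val hij)
  · intro h _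
    have h1 : (h : H) ∈ Subgroup.zpowers x := by
      rw [← hx]
      exact h.2
    classical
    obtain ⟨j, hj⟩ := Finset.mem_image.1 ((mem_zpowers_iff_mem_range_orderOf (x := x)).1 h1)
    exact ⟨j, hj.1, Subtype.ext hj.2⟩
  · intro i _
    rfl

open Classical in
/-- the fixed vectors which are traces for a group are traces for a subgroup -/
lemma fix_tr (ρ : Representation F H V) {P₁ P : Subgroup H} (hle : P₁ ≤ P) (h : V →ₗ[F] V)
    {x : H} (hx : P₁ = Subgroup.zpowers x) {v : V} (hv : ρ x v = v)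
    (hP : trS P ρ ρ h v = v) : ∃ w, v = ∑ i ∈ Finset.range (orderOf x), ρ (x ^ i) w := by
  obtain ⟨R, hR, -⟩ := P₁.exists_isComplement_right (1 : H)
  have hfix : ∀ p ∈ P₁, ρ p⁻¹ v = v := by
    intro p hp
    have h1 : ∀ n : ℤ, ρ (x ^ n) v = v := by
      intro n
      have h2 : ∀ m : ℕ, ρ (x ^ m) v = v := by
        intro m
        induction m with
        | zero => rw [pow_zero, map_one, Module.End.one_apply]
        | succ m ih => rw [pow_succ, map_mul, Module.End.mul_apply, hv, ih]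
      cases n with
      | ofNat m =>
        rw [Int.ofNat_eq_natCast, zpow_natCast]
        exact h2 m
      | negSucc m =>
        rw [zpow_negSucc]
        have h3 := congrArg (ρ (x ^ (m + 1))⁻¹) (h2 (m + 1))
        rw [← Module.End.mul_apply, ← map_mul, inv_mul_cancel, map_one, Module.End.one_apply] at h3
        exact h3.symm
    rw [hx, Subgroup.mem_zpowers_iff] at hp
    obtain ⟨n, rfl⟩ := hp
    rw [← zpow_neg]
    exact h1 (-n)
  have hRf : Fintype R := Fintype.ofFinite R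
  refine ⟨∑ q : R, if (q : H) ∈ P then ρ q (h (ρ (q : H)⁻¹ v)) else 0, ?_⟩
  have h1 : v = ∑ y : H, if y ∈ P then ρ y (h (ρ y⁻¹ v)) else 0 := by
    conv_lhs => rw [← hP]
    rw [trS, LinearMap.sum_apply]
    refine Finset.sum_congr rfl fun y _ => ?_
    split_ifs
    · rfl
    · rfl
  have h2 : ∑ y : H, (if y ∈ P then ρ y (h (ρ y⁻¹ v)) else 0) =
      ∑ z : P₁ × R, if ((z.1 : H) * (z.2 : H)) ∈ P then
        ρ ((z.1 : H) * (z.2 : H)) (h (ρ ((z.1 : H) * (z.2 : H))⁻¹ v)) else 0 := by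
    refine (Fintype.sum_bijective (fun z : P₁ × R => (z.1 : H) * (z.2 : H)) hR _ _ fun z => ?_).symm
    rfl
  have h3 : ∀ z : P₁ × R, (if ((z.1 : H) * (z.2 : H)) ∈ P then
        ρ ((z.1 : H) * (z.2 : H)) (h (ρ ((z.1 : H) * (z.2 : H))⁻¹ v)) else 0) =
      ρ (z.1 : H) (if (z.2 : H) ∈ P then ρ (z.2 : H) (h (ρ (z.2 : H)⁻¹ v)) else 0) := by
    intro z
    have h4 : ((z.1 : H) * (z.2 : H)) ∈ P ↔ (z.2 : H) ∈ P :=
      Subgroup.mul_mem_cancel_left P (hle z.1.2)
    by_cases h5 : (z.2 : H) ∈ P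
    · rw [if_pos (h4.2 h5), if_pos h5, mul_inv_rev, map_mul, map_mul, Module.End.mul_apply,
        Module.End.mul_apply, hfix _ z.1.2]
    · rw [if_neg (fun h6 => h5 (h4.1 h6)), if_neg h5, map_zero]
  refine h1.trans ?_
  rw [h2, Finset.sum_congr rfl fun z _ => h3 z, Fintype.sum_prod_type]
  simp only [← map_sum]
  exact sum_zp hx fun i => ρ i (∑ q : R, if (q : H) ∈ P then ρ q (h (ρ (q : H)⁻¹ v)) else 0)

end Tr

/-! ### The idempotent matrix -/

section Mat

variable {N : Type} [Group N] [Fintype N] {O : ValuationSubring ℂ} {d : ℕ}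

/-- the matrix of an element of the group algebra -/
noncomputable def mj (M : N →* Matrix (Fin d) (Fin d) O) (a : N → O) : Matrix (Fin d) (Fin d) O :=
  ∑ n, a n • M n

lemma mj_comm (M : N →* Matrix (Fin d) (Fin d) O) {a : N → O} (ha : ∀ g x, a (g * x * g⁻¹) = a x)
    (g : N) : M g * mj M a = mj M a * M g := by
  rw [mj, Finset.mul_sum, Finset.sum_mul]
  refine Fintype.sum_equiv (MulAut.conj g).toEquiv _ _ fun n => ?_
  have h1 : (MulAut.conj g).toEquiv n = g * n * g⁻¹ := rfl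
  rw [h1, ha, Matrix.mul_smul, Matrix.smul_mul, ← map_mul, ← map_mul]
  congr 2
  group

lemma mj_idem (M : N →* Matrix (Fin d) (Fin d) O) {a : N → O}
    (ha : cvF (fun n => (a n : ℂ)) (fun n => (a n : ℂ)) = fun n => (a n : ℂ)) :
    mj M a * mj M a = mj M a := by
  have h0 : ∀ x, ∑ y, a y * a (y⁻¹ * x) = a x := by
    intro x
    have h1 := congrFun ha x
    apply Subtype.ext
    rw [cvF] at h1
    rw [← h1]
    push_cast
    rfl
  rw [mj, Finset.sum_mul]
  have h1 : ∀ y : N, a y • M y * ∑ n, a n • M n = ∑ x, (a y * a (y⁻¹ * x)) • M x := by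
    intro y
    rw [Finset.mul_sum]
    refine Fintype.sum_equiv (Equiv.mulLeft y) _ _ fun n => ?_
    have h2 : (Equiv.mulLeft y) n = y * n := rfl
    rw [h2, inv_mul_cancel_left, Matrix.smul_mul, Matrix.mul_smul, smul_smul, map_mul]
  simp only [h1]
  rw [Finset.sum_comm]
  refine Finset.sum_congr rfl fun x _ => ?_
  rw [← Finset.sum_smul, h0]

/-- a class function is determined by its weights -/
lemma eq_of_wt {f : N → ℂ} (hf : ∀ g x, f (g * x * g⁻¹) = f x)
    (h : ∀ χ : N → ℂ, IsIrr χ → ∑ x, f x * χ x = 0) : f = 0 := by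
  have h2 : (fun x => f x⁻¹) = 0 := by
    apply class_fn_eq_zero
    · intro g x
      have : (g * x * g⁻¹)⁻¹ = g * x⁻¹ * g⁻¹ := by group
      rw [this, hf]
    · intro χ hχ
      rw [← h χ hχ]
      refine Fintype.sum_equiv (Equiv.inv N) _ _ fun x => ?_
      rfl
  ext x
  have := congrFun h2 x⁻¹
  simpa using this

lemma cvF_conj {a b : N → ℂ} (ha : a ∈ CF ℂ N) (hb : b ∈ CF ℂ N) (g x : N) :
    cvF a b (g * x * g⁻¹) = cvF a b x := by
  rw [cvF, cvF]
  refine (Fintype.sum_equiv (MulAut.conj g).toEquiv _ _ fun y => ?_).symm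
  have h1 : (MulAut.conj g).toEquiv y = g * y * g⁻¹ := rfl
  rw [h1, ha g y]
  have h2 : (g * y * g⁻¹)⁻¹ * (g * x * g⁻¹) = g * (y⁻¹ * x) * g⁻¹ := by group
  rw [h2, hb g (y⁻¹ * x)]

lemma idem_of_wt {a : N → ℂ} (ha : a ∈ CF ℂ N)
    (h : ∀ χ : N → ℂ, IsIrr χ → wt χ a = 0 ∨ wt χ a = 1) : cvF a a = a := by
  have h1 : (fun x => cvF a a x - a x) = 0 := by
    apply eq_of_wt
    · intro g x
      rw [cvF_conj ha ha, ha g x]
    · intro χ hχ
      have h2 : ∀ g, ∑ y, a y * χ (y * g) = wt χ a * χ g := by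
        intro g
        have h3 := congrFun (CHP.eigen hχ ha) g
        rw [Lz_apply] at h3
        exact h3
      have h4 : ∑ x, a x * χ x = wt χ a * χ 1 := by
        have h5 := h2 1
        simp only [mul_one] at h5
        exact h5
      have h6 : ∑ x, cvF a a x * χ x = wt χ a * (wt χ a * χ 1) := by
        rw [← h4, Finset.mul_sum]
        simp only [cvF, Finset.sum_mul]
        rw [Finset.sum_comm]
        have h7 : ∀ y : N, ∑ x, a y * a (y⁻¹ * x) * χ x = ∑ z, a y * a z * χ (y * z) := by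
          intro y
          refine Fintype.sum_equiv (Equiv.mulLeft y⁻¹) _ _ fun x => ?_
          have h8 : (Equiv.mulLeft y⁻¹) x = y⁻¹ * x := rfl
          rw [h8, mul_inv_cancel_left]
        simp only [h7]
        rw [Finset.sum_comm]
        refine Finset.sum_congr rfl fun z _ => ?_
        have h9 : ∑ y, a y * a z * χ (y * z) = a z * ∑ y, a y * χ (y * z) := by
          rw [Finset.mul_sum]
          exact Finset.sum_congr rfl fun y _ => by ring
        rw [h9, h2]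
        ring
      simp only [sub_mul]
      rw [Finset.sum_sub_distrib, h6, h4]
      rcases h χ hχ with h0 | h0
      · rw [h0]
        ring
      · rw [h0]
        ring
  funext x
  exact sub_eq_zero.1 (congrFun h1 x)

/-- the trace of the product with the matrix of a class function -/
lemma trace_mj (M : N →* Matrix (Fin d) (Fin d) O) {a : N → O}
    (ha : (fun n => (a n : ℂ)) ∈ CF ℂ N) (g : N) :
    (((mj M a * M g).trace : O) : ℂ) = ∑ ψ ∈ irrF N,
      ip (fun n => (((M n).trace : O) : ℂ)) ψ * (wt ψ (fun n => (a n : ℂ)) * ψ g) := by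
  set θ : N → ℂ := fun n => (((M n).trace : O) : ℂ) with hθ
  have hcl : ∀ g x, θ (g * x * g⁻¹) = θ x := by
    intro g x
    have h1 : (M (g * x * g⁻¹)).trace = (M x).trace := by
      rw [map_mul, map_mul, Matrix.trace_mul_cycle, ← map_mul, inv_mul_cancel, map_one,
        one_mul]
    exact congrArg (fun y : O => (y : ℂ)) h1
  have h1 : (((mj M a * M g).trace : O) : ℂ) = ∑ n, (a n : ℂ) * θ (n * g) := by
    rw [mj, Finset.sum_mul, Matrix.trace_sum]
    push_cast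
    refine Finset.sum_congr rfl fun n _ => ?_
    rw [Matrix.smul_mul, Matrix.trace_smul, ← map_mul]
    rfl
  rw [h1]
  have h2 := class_fn_expand θ hcl
  have h3 : ∀ n, θ (n * g) = ∑ ψ ∈ irrF N, ip θ ψ * ψ (n * g) := fun n => congrFun h2 (n * g)
  simp only [h3, Finset.mul_sum]
  rw [Finset.sum_comm]
  refine Finset.sum_congr rfl fun ψ hψ => ?_
  have h4 := congrFun (CHP.eigen (mem_irrF.1 hψ) ha) g
  rw [Lz_apply] at h4
  have h5 : ∑ n, (a n : ℂ) * ψ (n * g) = wt ψ (fun n => (a n : ℂ)) * ψ g := h4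
  rw [← h5, Finset.mul_sum]
  exact Finset.sum_congr rfl fun n _ => by ring

/-- the reduction of the matrix of an element of the group algebra -/
lemma red_mj (M : N →* Matrix (Fin d) (Fin d) O) (a : N → O) :
    Matrix.toLin' ((mj M a).map (IsLocalRing.residue O)) =
      Zop (redM M) (fun n => IsLocalRing.residue O (a n)) := by
  rw [mj, ← RingHom.mapMatrix_apply, map_sum, map_sum, Zop]
  refine Finset.sum_congr rfl fun n _ => ?_
  have h1 : (IsLocalRing.residue O).mapMatrix (a n • M n) =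
      IsLocalRing.residue O (a n) • (IsLocalRing.residue O).mapMatrix (M n) := by
    ext i j
    simp [RingHom.mapMatrix_apply]
  rw [h1, map_smul]
  rfl

end Mat

/-! ### The main argument -/

section Fld

variable {ℓ : ℕ} {𝔐 : Ideal (integralClosure ℤ ℂ)} {O : ValuationSubring ℂ}

lemma res_eq_zero (hO : VR ℓ 𝔐 O) (x : integralClosure ℤ ℂ) : hO.res x = 0 ↔ x ∈ 𝔐 := by
  rw [hO.max x]
  show IsLocalRing.residue O (hO.inc x) = 0 ↔ _
  rw [IsLocalRing.residue_eq_zero_iff]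
  exact O.valuation_lt_one_iff (hO.inc x)

/-- the map of the residue fields -/
noncomputable def ff (hO : VR ℓ 𝔐 O) :
    (integralClosure ℤ ℂ) ⧸ 𝔐 →+* IsLocalRing.ResidueField O :=
  Ideal.Quotient.lift 𝔐 hO.res fun x hx => (res_eq_zero hO x).2 hx

lemma ff_mk (hO : VR ℓ 𝔐 O) (x : integralClosure ℤ ℂ) :
    ff hO (Ideal.Quotient.mk 𝔐 x) = hO.res x := rfl

lemma ff_red (hO : VR ℓ 𝔐 O) {x : ℂ} (hx : IsIntegral ℤ x) :
    ff hO (red 𝔐 x) = hO.res ⟨x, hx⟩ := by
  rw [red_of_integral 𝔐 hx]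
  rfl

lemma ff_inj (hO : VR ℓ 𝔐 O) : Function.Injective (ff hO) := by
  rw [injective_iff_map_eq_zero]
  intro x hx
  obtain ⟨y, rfl⟩ := Ideal.Quotient.mk_surjective x
  rw [ff_mk, res_eq_zero] at hx
  exact Ideal.Quotient.eq_zero_iff_mem.2 hx

end Fld

/-- an idempotent class function has the eigenvalue `1` -/
lemma pos_mlt {F H : Type} [Field F] [Group H] [Fintype H] {e : H → F} (hcf : e ∈ CF F H)
    (hid : cvF e e = e) {y : H} (hy : e y ≠ 0) : 0 < mlt (CF F H) (Lz e) 1 := by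
  rw [mlt, Module.finrank_pos_iff]
  have hφ : (fun g : H => e g⁻¹) ∈ (Lz e).maxGenEigenspace 1 ⊓ CF F H := by
    constructor
    · apply Module.End.mem_maxGenEigenspace _ _ _ |>.2
      refine ⟨1, ?_⟩
      rw [pow_one, LinearMap.sub_apply, one_smul, Module.End.one_apply, sub_eq_zero]
      funext g
      rw [Lz_apply]
      have e1 := congrFun hid g⁻¹
      rw [cvF] at e1
      rw [← e1]
      refine Finset.sum_congr rfl fun z _ => ?_
      congr 1
      have e2 := hcf z (z⁻¹ * g⁻¹)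
      rw [← e2]
      congr 1
      group
    · intro g x
      have e3 : (g * x * g⁻¹)⁻¹ = g * x⁻¹ * g⁻¹ := by group
      show e (g * x * g⁻¹)⁻¹ = e x⁻¹
      rw [e3]
      exact hcf g x⁻¹
  refine ⟨⟨_, hφ⟩, 0, fun e5 => hy ?_⟩
  have e4 := congrFun (congrArg Subtype.val e5) y⁻¹
  simpa using e4

open Classical in
/-- the data for the proof -/
lemma core (h1 : Stmt_VALX) (h2 : Stmt_FEXX) (h3 : Stmt_RLZX) (h5 : Stmt_IDOX)
    (h6 : Stmt_IDX) (h7 : Stmt_BKNX) (h9 : Stmt_KEX) (h10 : Stmt_ATNX)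
    {T : Type} [Group T] [Fintype T] {𝔐 : Ideal (integralClosure ℤ ℂ)} {ℓ n : ℕ}
    [Fact ℓ.Prime] (hmax : 𝔐.IsMaximal) (hℓ : (ℓ : integralClosure ℤ ℂ) ∈ 𝔐)
    {χ : T → ℂ} (hχ : IsIrr χ) {P₁ P : Subgroup T} [Fintype (NP P₁)] {x₀ : T}
    (hAt : AtX ℓ n (cen 𝔐 (MonoidHom.id T) χ) P₁ P x₀) :
    ∃ (O : ValuationSubring ℂ) (_ : VR ℓ 𝔐 O) (d : ℕ) (M : T →* Matrix (Fin d) (Fin d) O)
      (eh : NP P₁ → O) (h : (Fin d → IsLocalRing.ResidueField O) →ₗ[IsLocalRing.ResidueField O]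
        (Fin d → IsLocalRing.ResidueField O)),
      (∀ g, (((M g).trace : O) : ℂ) = χ g) ∧ (∀ g x, eh (g * x * g⁻¹) = eh x) ∧
      (∀ ψ : NP P₁ → ℂ, IsIrr ψ → wt ψ (fun x => (eh x : ℂ)) =
        if cen 𝔐 (Subgroup.normalizer (P₁ : Set T)).subtype ψ = cen 𝔐 (MonoidHom.id T) χ
          then 1 else 0) ∧
      1 = Zop (rN P₁ (redM M)) (fun x => IsLocalRing.residue O (eh x)) +
        trS P (redM M) (redM M) h := by
  obtain ⟨O, hO⟩ := h1 𝔐 ℓ hmax hℓ
  obtain ⟨d, M, hd, hM, hMa⟩ := h3 O T χ hχ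
  let _ : Field ((integralClosure ℤ ℂ) ⧸ 𝔐) := Ideal.Quotient.field 𝔐
  have hrs : Function.Surjective (Ideal.Quotient.mk 𝔐) := Ideal.Quotient.mk_surjective
  have hac : IsAlgClosed ((integralClosure ℤ ℂ) ⧸ 𝔐) := ACF_thm _ (Ideal.Quotient.mk 𝔐) hrs
  have hch : CharP ((integralClosure ℤ ℂ) ⧸ 𝔐) ℓ := by
    rw [CharP.charP_iff_prime_eq_zero (Fact.out : ℓ.Prime)]
    rw [← map_natCast (Ideal.Quotient.mk 𝔐)]
    exact Ideal.Quotient.eq_zero_iff_mem.mpr hℓ
  have hchK : CharP (IsLocalRing.ResidueField O) ℓ := hO.chr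
  obtain ⟨a, ha, hPrm, hval, -, -, hBK, -⟩ := h6 _ T 𝔐 ℓ hmax hℓ (Ideal.Quotient.mk 𝔐) hrs
    Ideal.mk_ker χ hχ
  have hsep : CNTB.Sp 𝔐 a χ := by
    intro χ' hχ'
    have h := hval χ' hχ'
    constructor
    · intro he
      rw [h, if_pos he]
    · intro h5
      by_contra hne
      rw [h, if_neg hne] at h5
      exact zero_ne_one h5
  obtain ⟨hB, -⟩ := hBK n P₁ P x₀ hAt
  obtain ⟨-, -, hf3, hf4, -⟩ := h2 ℓ n _ _ T (ff hO)
  have hBO := hf3 P₁ P x₀ _ hB
  -- the value of `e`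
  have hone : Zop (redM M) (fun x => ff hO (Ideal.Quotient.mk 𝔐 (a x))) = 1 := by
    obtain ⟨w, hw, hw'⟩ := hMa (fun x => hO.inc (a x)) (fun g x => by rw [ha])
    have e1 : Zop (redM M) (fun x => ff hO (Ideal.Quotient.mk 𝔐 (a x))) =
        Matrix.toLin' ((mj M (fun x => hO.inc (a x))).map (IsLocalRing.residue O)) := by
      rw [red_mj]
      rfl
    have hi := CNT.isInt hχ ha
    have e2 : w = hO.inc ⟨_, hi⟩ := Subtype.ext hw
    have e3 : IsLocalRing.residue O w = 1 := by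
      rw [e2]
      show hO.res ⟨_, hi⟩ = 1
      rw [← ff_red hO hi, hval χ hχ, if_pos rfl, map_one]
    rw [e1, mj, hw', ← RingHom.mapMatrix_apply]
    have e4 : (IsLocalRing.residue O).mapMatrix (w • (1 : Matrix (Fin d) (Fin d) O)) = 1 := by
      ext i j
      rw [RingHom.mapMatrix_apply, Matrix.map_apply, Matrix.smul_apply, smul_eq_mul, map_mul, e3,
        one_mul, Matrix.one_apply, Matrix.one_apply]
      split_ifs
      · exact map_one _
      · exact map_zero _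
    rw [e4, Matrix.toLin'_one]
    rfl
  -- the point `x₀` is in the normalizer
  have hx : x₀ ∈ Subgroup.normalizer (P₁ : Set T) := by
    apply Subgroup.centralizer_le_normalizer
    rw [Subgroup.mem_centralizer_iff]
    intro u hu
    exact hAt.cd.cen u (hAt.cd.le hu)
  -- a character of the normalizer
  have hN1 := (h7.2 ℓ n _ T P₁ P x₀ _ hB).2 hx
  have hBN := hN1.2
  obtain ⟨ψ₀, hψ₀, hψ₀c⟩ : ∃ ψ₀ : NP P₁ → ℂ, IsIrr ψ₀ ∧
      cen 𝔐 (Subgroup.normalizer (P₁ : Set T)).subtype ψ₀ = cen 𝔐 (MonoidHom.id T) χ := by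
    have hcard := CNTB.count_N (r := Ideal.Quotient.mk 𝔐) hmax hℓ hAt.cd.c1 Ideal.mk_ker ha hsep
    obtain ⟨y, hy, -⟩ := hBN.nz
    have hpos := pos_mlt hBN.cf hBN.idem hy
    rw [← hcard] at hpos
    obtain ⟨⟨ψ₀, h11, h12⟩⟩ := (Nat.card_pos_iff.1 hpos).1
    exact ⟨ψ₀, h11, h12⟩
  obtain ⟨-, hblk⟩ := h10 T 𝔐 ℓ n hmax hℓ χ hχ P₁ P x₀ hAt hx ψ₀ hψ₀ hψ₀c
  obtain ⟨eh, heh1, -, heh3, -, heh5⟩ := h5 𝔐 ℓ hmax hℓ O hO (NP P₁) ψ₀ hψ₀
  have hres : ∀ x, IsLocalRing.residue O (eh x) = hO.res (CNT.ba P₁ a x) := by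
    apply heh5 _ (CNT.ba_conj P₁ ha)
    · have e1 := congrArg (fun F : NP P₁ → (integralClosure ℤ ℂ) ⧸ 𝔐 => fun x => ff hO (F x))
        hBN.idem
      rw [CNT.brz_eq] at e1
      have e2 := (h2 ℓ n _ _ (NP P₁) (ff hO)).1 (fun x => Ideal.Quotient.mk 𝔐 (CNT.ba P₁ a x))
        (fun x => Ideal.Quotient.mk 𝔐 (CNT.ba P₁ a x))
      exact e2.trans e1
    · intro ψ hψ
      obtain ⟨⟨χ', hχ', hc⟩, hL, -⟩ := LOC_thm T 𝔐 ℓ hmax hℓ P₁ hAt.cd.c1 ψ hψ
      have hr := hL χ' hχ' hc a ha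
      have hfun : (fun n : NP P₁ => brz (F := ℂ) P₁ (fun h => (a h : ℂ)) n) =
          fun n => (CNT.ba P₁ a n : ℂ) := funext fun n => CNT.brz_eq_coe P₁ a n
      rw [hfun] at hr
      rw [hr, hval χ' hχ', hc]
      exact if_congr (hblk ψ hψ).symm rfl rfl
  obtain ⟨⟨h, hh⟩, -⟩ := h9 ℓ n _ T (Fin d → IsLocalRing.ResidueField O) P₁ P x₀ _ hBO (redM M)
  refine ⟨O, hO, d, M, eh, h, hM, heh1, ?_, ?_⟩
  · intro ψ hψ
    rw [heh3 ψ hψ]
    exact if_congr (hblk ψ hψ) rfl rfl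
  · rw [← hone, hh]
    congr 2
    rw [hf4 P₁, CNT.brz_eq]
    funext x
    rw [hres]
    rfl

section Fin

variable {T : Type} [Group T] [Fintype T] {O : ValuationSubring ℂ} {d : ℕ}

/-- the restriction to the normalizer -/
noncomputable def mN (M : T →* Matrix (Fin d) (Fin d) O) (P₁ : Subgroup T) :
    NP P₁ →* Matrix (Fin d) (Fin d) O := M.comp (Subgroup.normalizer (P₁ : Set T)).subtype

omit [Fintype T] in
lemma redM_mN (M : T →* Matrix (Fin d) (Fin d) O) (P₁ : Subgroup T) :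
    redM (mN M P₁) = rN P₁ (redM M) := rfl

lemma residue_trace (A : Matrix (Fin d) (Fin d) O) :
    IsLocalRing.residue O A.trace = LinearMap.trace (IsLocalRing.ResidueField O)
      (Fin d → IsLocalRing.ResidueField O)
      (Matrix.toLin' (A.map (IsLocalRing.residue O))) := by
  rw [Matrix.trace_toLin'_eq, Matrix.trace, Matrix.trace, map_sum]
  rfl

lemma red_one_sub (A : Matrix (Fin d) (Fin d) O) :
    Matrix.toLin' ((1 - A).map (IsLocalRing.residue O)) =
      1 - Matrix.toLin' (A.map (IsLocalRing.residue O)) := by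
  rw [← RingHom.mapMatrix_apply, ← RingHom.mapMatrix_apply, map_sub, map_one, map_sub,
    Matrix.toLin'_one]
  rfl

lemma redMul (A B : Matrix (Fin d) (Fin d) O) :
    Matrix.toLin' ((A * B).map (IsLocalRing.residue O)) =
      Matrix.toLin' (A.map (IsLocalRing.residue O)) ∘ₗ
        Matrix.toLin' (B.map (IsLocalRing.residue O)) := by
  rw [← RingHom.mapMatrix_apply, map_mul, Matrix.toLin'_mul]
  rfl

open Classical in
/-- the trace of the sum of the conjugates -/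
lemma trace_trS {F V : Type} [Field F] [AddCommGroup V] [Module F V]
    (ρ : Representation F T V) (P : Subgroup T) (h : V →ₗ[F] V) {g : T}
    (hg : ∀ u ∈ P, u * g = g * u) (hc : ((Nat.card P : ℕ) : F) = 0) :
    LinearMap.trace F V (trS P ρ ρ h * ρ g) = 0 := by
  rw [trS, Finset.sum_mul, map_sum]
  have h1 : ∀ x : T, LinearMap.trace F V ((if x ∈ P then ρ x ∘ₗ h ∘ₗ ρ x⁻¹ else 0) * ρ g) =
      if x ∈ P then LinearMap.trace F V (h * ρ g) else 0 := by
    intro x
    split_ifs with hx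
    · have h2 : (ρ x ∘ₗ h ∘ₗ ρ x⁻¹) * ρ g = ρ x * (h * (ρ g * ρ x⁻¹)) := by
        have h3 : ρ x⁻¹ * ρ g = ρ g * ρ x⁻¹ := by
          rw [← map_mul, ← map_mul]
          congr 1
          have h4 := hg x⁻¹ (P.inv_mem hx)
          exact h4
        rw [← h3]
        rfl
      rw [h2, LinearMap.trace_mul_comm]
      have h5 : h * (ρ g * ρ x⁻¹) * ρ x = h * ρ g := by
        rw [mul_assoc, mul_assoc, ← map_mul ρ x⁻¹ x, inv_mul_cancel, map_one, mul_one]
      rw [h5]
    · rw [zero_mul, map_zero]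
  simp only [h1]
  rw [← Finset.sum_filter, Finset.sum_const, nsmul_eq_mul]
  have h6 : (Finset.univ.filter fun x : T => x ∈ P).card = Nat.card P := by
    rw [Nat.card_eq_fintype_card, Fintype.card_subtype]
  rw [h6, hc, zero_mul]

end Fin

end MT2X

open _root_.Pool.Agent.DPX.MT2X

open Classical in
/-- MT2X: the values at the elements whose powers contain the subgroup of order `ℓ`. -/
theorem MT2X_thm (h1 : Stmt_VALX) (h2 : Stmt_FEXX) (h3 : Stmt_RLZX) (h4 : Stmt_VANX)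
    (h5 : Stmt_IDOX) (h6 : Stmt_IDX) (h7 : Stmt_BKNX) (h8 : Stmt_PRMX) (h9 : Stmt_KEX)
    (h10 : Stmt_ATNX) : Stmt_MT2X := by
  have _ := h8
  intro T _ _ 𝔐 ℓ n hℓp hmax hℓ χ hχ P₁ P _ x₀ hAt
  obtain ⟨O, hO, d, M, eh, h, hM, heh1, heh3, hone⟩ := core h1 h2 h3 h5 h6 h7 h9 h10 hmax hℓ hχ hAt
  have hchK : CharP (IsLocalRing.ResidueField O) ℓ := hO.chr
  have hcf : (fun x => (eh x : ℂ)) ∈ CF ℂ (NP P₁) := by
    intro g x
    show ((eh (g * x * g⁻¹) : O) : ℂ) = (eh x : ℂ)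
    rw [heh1]
  have hid : mj (mN M P₁) eh * mj (mN M P₁) eh = mj (mN M P₁) eh := by
    apply mj_idem
    apply idem_of_wt hcf
    intro ψ hψ
    rw [heh3 ψ hψ]
    split_ifs
    · exact Or.inr rfl
    · exact Or.inl rfl
  set J := mj (mN M P₁) eh with hJ
  have hred : Matrix.toLin' ((1 - J).map (IsLocalRing.residue O)) =
      trS P (redM M) (redM M) h := by
    rw [red_one_sub, hJ, red_mj, redM_mN, hone, add_sub_cancel_left]
  have htr : ∀ g : NP P₁, (((J * M (g : T)).trace : O) : ℂ) =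
      ∑ ψ ∈ irrF (NP P₁) with cen 𝔐 (Subgroup.normalizer (P₁ : Set T)).subtype ψ =
          cen 𝔐 (MonoidHom.id T) χ, ip (fun s : NP P₁ => χ s) ψ * ψ g := by
    intro g
    have e1 := trace_mj (mN M P₁) hcf g
    have e2 : (fun n : NP P₁ => (((mN M P₁ n).trace : O) : ℂ)) = fun s : NP P₁ => χ s :=
      funext fun s => hM s
    rw [e2] at e1
    rw [Finset.sum_filter]
    refine e1.trans (Finset.sum_congr rfl fun ψ hψ => ?_)
    rw [heh3 ψ (mem_irrF.1 hψ)]
    split_ifs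
    · rw [one_mul]
    · rw [zero_mul, mul_zero]
  refine ⟨?_, ?_⟩
  · intro g hg
    obtain ⟨k, r, u, s, hu, hs, hus, hu1, hs1, hr, hz, hord⟩ := dec hAt.cd.c1 hg
    have hle : Subgroup.zpowers (g : T) ≤ Subgroup.normalizer (P₁ : Set T) := by
      rw [Subgroup.zpowers_le]
      exact g.2
    have hcomm : ∀ x ∈ Subgroup.zpowers (g : T), M x * (1 - J) = (1 - J) * M x := by
      intro x hx
      have e1 : M x * J = J * M x := mj_comm (mN M P₁) heh1 ⟨x, hle hx⟩
      rw [mul_sub, sub_mul, mul_one, one_mul, e1]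
    have husc : u * s = s * u := by
      obtain ⟨i, rfl⟩ := Subgroup.mem_zpowers_iff.1 hu
      obtain ⟨j, rfl⟩ := Subgroup.mem_zpowers_iff.1 hs
      exact (Commute.zpow_zpow_self (g : T) i j)
    have hv := h4 O ℓ k r d hO.chr hr (M u) (M s) (1 - J)
      (by rw [← map_pow, hu1, map_one]) (by rw [← map_pow, hs1, map_one])
      (by
        rw [mul_sub, mul_one, sub_mul, one_mul, hid, sub_self, sub_zero])
      (by rw [← map_mul, ← map_mul, husc]) (hcomm u hu) (hcomm s hs)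
      (by
        intro v hv1 hv2
        rw [← map_pow] at hv2
        have e1 : trS P (redM M) (redM M) h v = v := by
          rw [← hred]
          exact hv1
        obtain ⟨w, hw⟩ := fix_tr (redM M) hAt.cd.le h hz (v := v) hv2 e1
        refine ⟨w, hw.trans ?_⟩
        rw [hord]
        refine Finset.sum_congr rfl fun i _ => ?_
        rw [← map_pow M u, ← map_pow M]
        rfl)
    have e1 : (M u * M s * (1 - J)).trace = (M (g : T)).trace - (J * M (g : T)).trace := by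
      rw [← map_mul, hus, mul_sub, mul_one, Matrix.trace_sub, Matrix.trace_mul_comm (M (g : T)) J]
    rw [e1, sub_eq_zero] at hv
    rw [← hM, hv]
    exact htr g
  · intro g hg
    rw [← htr g]
    have hi : IsIntegral ℤ (χ g) := isIntegral_char hχ g
    have hi' : IsIntegral ℤ (((J * M (g : T)).trace : O) : ℂ) := by
      rw [htr g]
      apply isIntegral_sum
      intro ψ hψ
      have hψ' : IsIrr ψ := mem_irrF.1 (Finset.mem_filter.1 hψ).1
      refine IsIntegral.mul ?_ (isIntegral_char hψ' g)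
      obtain ⟨m, hm⟩ := (hχ.isChr.comp (Subgroup.normalizer (P₁ : Set T)).subtype).exists_mult
        hψ'.isChr
      have e1 : ip (fun s : NP P₁ => χ s) ψ = m := by
        rw [ip]
        have e2 : ∑ g : NP P₁, χ g * ψ g⁻¹ = Nat.card (NP P₁) * m := hm
        rw [e2, mul_div_cancel_left₀ _ natCard_ne_zero]
      rw [e1]
      exact Lib_helper13.isIntegral_natCast _
    apply ff_inj hO
    rw [ff_red hO hi, ff_red hO hi']
    have e1 : hO.res ⟨_, hi⟩ = IsLocalRing.residue O (M (g : T)).trace := by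
      show IsLocalRing.residue O _ = _
      congr 1
      exact Subtype.ext (hM _).symm
    have e2 : hO.res ⟨_, hi'⟩ = IsLocalRing.residue O (J * M (g : T)).trace := rfl
    rw [e1, e2, ← sub_eq_zero, ← map_sub]
    have e3 : (M (g : T)).trace - (J * M (g : T)).trace = ((1 - J) * M (g : T)).trace := by
      rw [sub_mul, one_mul, Matrix.trace_sub]
    rw [e3, residue_trace, redMul, hred]
    have hn : n ≠ 0 := by
      rintro rfl
      have e4 := hAt.cd.card
      rw [pow_zero] at e4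
      have e5 : Nat.card P₁ ≤ Nat.card P := Subgroup.card_le_of_le hAt.cd.le
      rw [e4, hAt.cd.c1] at e5
      exact absurd hℓp.out.one_lt (not_lt.mpr e5)
    have hz : ((Nat.card P : ℕ) : IsLocalRing.ResidueField O) = 0 := by
      rw [hAt.cd.card, Nat.cast_pow, CharP.cast_eq_zero, zero_pow hn]
    exact trace_trS (redM M) P h (fun u hu => hg u hu) hz

end Pool.Agent.DPX


end

section

/-!
# The elements of the support stabilize the characters
-/

namespace Pool.Agent.DPG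

open Pool.Agent.DP Pool.Agent.DPC Pool.Agent.DPM Pool.Agent.DPN Pool.Agent.DPF
  Pool.Agent.Lib_helper13 Representation
open Pool.Agent.Lib_helper13.Dade (pCore DadeHolds dadeSum)

namespace SST

/-- A twisted invariant function acts as zero on a character that is moved by the twist. -/
theorem core {A : Type} [Group A] [Fintype A] {χ : A → ℂ} (h : IsIrr χ) (c : A ≃* A)
    (hne : (fun a => χ (c.symm a)) ≠ χ) (w : A → ℂ)
    (hw : ∀ n a, w (c.symm n * a * n⁻¹) = w a) (b : A) :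
    ∑ a, w a * χ (a * b) = 0 := by
  have h' : IsIrr (χ ∘ c.symm) := h.comp_mulEquiv c.symm
  obtain ⟨n, ρ, hρ, rfl⟩ := h
  let ρ' : Representation ℂ A (Fin n → ℂ) := ρ.comp c.symm.toMonoidHom
  have hch : ρ'.character = ρ.character ∘ c.symm := rfl
  have hρ' : ρ'.IsIrreducible := by
    rw [irreducible_iff_sum, hch]
    exact h'.sum_self
  have hE : IsEmpty (Representation.Equiv ρ ρ') := by
    constructor
    intro e
    apply hne
    have := char_iso e
    rw [hch] at this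
    exact this.symm
  have hS : Subsingleton (IntertwiningMap ρ ρ') := inferInstance
  let W : (Fin n → ℂ) →ₗ[ℂ] (Fin n → ℂ) := ∑ a, w a • ρ a
  have hW : ∀ g, W ∘ₗ ρ g = ρ' g ∘ₗ W := by
    intro g
    change (∑ a, w a • ρ a) * ρ g = ρ (c.symm g) * (∑ a, w a • ρ a)
    rw [Finset.sum_mul, Finset.mul_sum]
    symm
    refine Fintype.sum_equiv ((Equiv.mulLeft (c.symm g)).trans (Equiv.mulRight g⁻¹)) _ _ ?_
    intro a
    simp only [Equiv.trans_apply, Equiv.coe_mulLeft, Equiv.coe_mulRight]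
    rw [hw, smul_mul_assoc, mul_smul_comm, ← map_mul, ← map_mul]
    congr 2
    group
  have hW0 : W = 0 := by
    have h1 : (⟨W, hW⟩ : IntertwiningMap ρ ρ') = 0 := Subsingleton.elim _ _
    have h2 := congrArg (fun F : IntertwiningMap ρ ρ' => F.toLinearMap) h1
    simpa using h2
  have h3 : LinearMap.trace ℂ _ (W * ρ b) = 0 := by
    rw [hW0, zero_mul, map_zero]
  change LinearMap.trace ℂ _ ((∑ a, w a • ρ a) * ρ b) = 0 at h3
  rw [Finset.sum_mul, map_sum] at h3
  rw [← h3]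
  refine Finset.sum_congr rfl fun a _ => ?_
  rw [smul_mul_assoc, map_smul, ← map_mul]
  rfl

theorem sum_sub {L : Type} [Group L] [Fintype L] (A : Subgroup L) [Fintype A] (F : L → ℂ)
    (h : ∀ x, x ∉ A → F x = 0) : ∑ x, F x = ∑ a : A, F a := by
  classical
  have h1 := Fintype.sum_subtype_add_sum_subtype (fun x => x ∈ A) F
  rw [← h1]
  have h2 : ∑ i : {x // ¬ x ∈ A}, F i = 0 := Finset.sum_eq_zero fun i _ => h i i.2
  rw [h2, add_zero]
  refine Finset.sum_congr ?_ fun _ _ => rfl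
  ext x
  simp

end SST

theorem SST_thm (h1 : Stmt_CHB) : Stmt_SST := by
  intro L K _ _ _ _ 𝔐 ℓ _ hM hℓ π hπ hz N _ σ hσ f hf x0 u v hu hv hsu hsv hne
  classical
  have hC := h1 L K 𝔐 ℓ hM hℓ π hπ hz N σ hσ f hf u v hu hv
  rw [hC] at hne
  have hex : ∃ t, π t ∈ stb σ ∧ π (x0⁻¹ * t) ∈ N := by
    by_contra hcon
    push Not at hcon
    apply hne
    have h0 : ∀ x y : L, (if π y ∈ stb σ then u y * v (y⁻¹ * x) else 0) = 0 := by
      intro x y
      split_ifs with hy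
      · rw [hsu y (hcon y hy), zero_mul]
      · rfl
    unfold sc
    simp only [h0, Finset.sum_const_zero, Int.cast_zero, zero_mul, zero_div]
    exact red_zero 𝔐
  refine ⟨hex, ?_⟩
  intro t ht htN
  by_contra hcon
  push Not at hcon
  obtain ⟨x1, hx1⟩ := hcon
  apply hne
  set A : Subgroup L := AL π N (stb σ) with hA
  have hmem : ∀ a, a ∈ A ↔ π a ∈ N ∧ π a ∈ stb σ := by
    intro a
    rw [hA, Subgroup.mem_comap, Subgroup.mem_inf]
  have hcj : ∀ a, a ∈ A ↔ t * a * t⁻¹ ∈ A := by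
    intro a
    rw [hmem, hmem, map_mul, map_mul, map_inv]
    constructor
    · rintro ⟨h1, h2⟩
      exact ⟨Subgroup.Normal.conj_mem inferInstance _ h1 _,
        (stb σ).mul_mem ((stb σ).mul_mem ht h2) ((stb σ).inv_mem ht)⟩
    · rintro ⟨h1, h2⟩
      constructor
      · have := Subgroup.Normal.conj_mem (inferInstance : N.Normal) _ h1 (π t)⁻¹
        have e : (π t)⁻¹ * (π t * π a * (π t)⁻¹) * (π t)⁻¹⁻¹ = π a := by group
        rwa [e] at this
      · have := (stb σ).mul_mem ((stb σ).mul_mem ((stb σ).inv_mem ht) h2) ht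
        have e : (π t)⁻¹ * (π t * π a * (π t)⁻¹) * π t = π a := by group
        rwa [e] at this
  let c : A ≃* A :=
    { toFun := fun a => ⟨t * a * t⁻¹, (hcj a).mp a.2⟩
      invFun := fun a => ⟨t⁻¹ * a * t, by
        rw [hcj]
        have e : t * (t⁻¹ * (a : L) * t) * t⁻¹ = a := by group
        rw [e]
        exact a.2⟩
      left_inv := fun a => Subtype.ext (by simp only []; group)
      right_inv := fun a => Subtype.ext (by simp only []; group)
      map_mul' := fun a b => Subtype.ext (by simp only [Subgroup.coe_mul]; group) }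
  have hc : ∀ a : A, ((c a : A) : L) = t * a * t⁻¹ := fun a => rfl
  have hcs : ∀ a : A, ((c.symm a : A) : L) = t⁻¹ * a * t := fun a => rfl
  let χ : A → ℂ := fun a => f (t * a * t⁻¹)
  have hχ : IsIrr χ := by
    have := hf.1.comp_mulEquiv c
    exact this
  have hχc : (fun a => χ (c.symm a)) = fun a : A => f a := by
    funext a
    change f (t * ((c.symm a : A) : L) * t⁻¹) = f a
    rw [hcs]
    congr 1
    group
  have hneχ : (fun a => χ (c.symm a)) ≠ χ := by
    rw [hχc]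
    intro he
    apply hx1
    by_cases hx : x1 ∈ A
    · exact (congrFun he ⟨x1, hx⟩).symm
    · rw [hf.2 x1 hx, hf.2 _ (fun h => hx ((hcj x1).mpr h))]
  let w : A → ℂ := fun a => ((u (t * a) : ℤ) : ℂ)
  have hw : ∀ n a : A, w (c.symm n * a * n⁻¹) = w a := by
    intro n a
    change ((u (t * ((c.symm n * a * n⁻¹ : A) : L)) : ℤ) : ℂ) = ((u (t * a) : ℤ) : ℂ)
    have e : t * ((c.symm n * a * n⁻¹ : A) : L) = (n : L) * (t * a) * (n : L)⁻¹ := by
      rw [Subgroup.coe_mul, Subgroup.coe_mul, hcs, Subgroup.coe_inv]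
      group
    rw [e, hu n ?_ (t * a)]
    rw [Subgroup.mem_comap]
    exact ((hmem n).mp n.2).1
  have hcore := SST.core hχ c hneχ w hw
  have hsum : ∑ x, (((if True then ∑ y : L, (if π y ∈ stb σ then u y * v (y⁻¹ * x) else 0)
      else 0 : ℤ) : ℤ) : ℂ) * f x = 0 := by
    simp only [if_true]
    have hA1 : ∀ x, ((∑ y : L, (if π y ∈ stb σ then u y * v (y⁻¹ * x) else 0) : ℤ) : ℂ) * f x =
        ∑ y : L, (((if π y ∈ stb σ then u y * v (y⁻¹ * x) else 0 : ℤ) : ℤ) : ℂ) * f x := by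
      intro x
      rw [Int.cast_sum, Finset.sum_mul]
    simp only [hA1]
    rw [Finset.sum_comm]
    have hA2 : ∀ G : L → L → ℂ, ∑ y, ∑ x, G x y = ∑ a, ∑ b, G (t * a * b * t⁻¹) (t * a) := by
      intro G
      symm
      refine Fintype.sum_equiv (Equiv.mulLeft t) _ _ ?_
      intro a
      refine Fintype.sum_equiv ((Equiv.mulLeft (t * a)).trans (Equiv.mulRight t⁻¹)) _ _ ?_
      intro b
      simp only [Equiv.trans_apply, Equiv.coe_mulLeft, Equiv.coe_mulRight]
    rw [hA2]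
    rw [SST.sum_sub A _ ?_]
    · have hA3 : ∀ a : A, ∑ b : L, (((if π (t * a) ∈ stb σ then
          u (t * a) * v ((t * a)⁻¹ * (t * a * b * t⁻¹)) else 0 : ℤ) : ℤ) : ℂ) *
            f (t * a * b * t⁻¹) =
          ∑ b : A, ((v (b * t⁻¹) : ℤ) : ℂ) * (w a * χ (a * b)) := by
        intro a
        rw [SST.sum_sub A _ ?_]
        · refine Finset.sum_congr rfl fun b _ => ?_
          have e1 : π (t * (a : L)) ∈ stb σ := by
            rw [map_mul]
            exact (stb σ).mul_mem ht ((hmem a).mp a.2).2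
          have e2 : (t * (a : L))⁻¹ * (t * a * b * t⁻¹) = b * t⁻¹ := by group
          rw [if_pos e1, e2]
          change _ = ((v (b * t⁻¹) : ℤ) : ℂ) * (((u (t * a) : ℤ) : ℂ) *
            f (t * ((a * b : A) : L) * t⁻¹))
          have e3 : t * (a : L) * b * t⁻¹ = t * ((a * b : A) : L) * t⁻¹ := by
            rw [Subgroup.coe_mul]
            group
          rw [e3]
          push_cast
          ring
        · intro b hb
          rw [hf.2, mul_zero]
          intro hcon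
          apply hb
          have e3 : t * (a : L) * b * t⁻¹ = t * ((a : L) * b) * t⁻¹ := by group
          rw [e3] at hcon
          have h4 := (hcj _).mpr hcon
          have h5 := A.mul_mem (A.inv_mem a.2) h4
          have e4 : (a : L)⁻¹ * (a * b) = b := by group
          rwa [e4] at h5
      simp only [hA3]
      rw [Finset.sum_comm]
      apply Finset.sum_eq_zero
      intro b _
      rw [← Finset.mul_sum, hcore b, mul_zero]
    · intro a ha
      apply Finset.sum_eq_zero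
      intro b _
      by_cases h4 : π (t * a) ∈ stb σ
      · rw [if_pos h4, hsu (t * a) ?_, zero_mul, Int.cast_zero, zero_mul]
        intro h5
        apply ha
        rw [hmem]
        constructor
        · have h6 := N.mul_mem (N.inv_mem htN) h5
          have e : (π (x0⁻¹ * t))⁻¹ * π (x0⁻¹ * (t * a)) = π a := by
            rw [← map_inv, ← map_mul]
            congr 1
            group
          rwa [e] at h6
        · have h6 := (stb σ).mul_mem ((stb σ).inv_mem ht) h4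
          have e : (π t)⁻¹ * π (t * a) = π a := by
            rw [← map_inv, ← map_mul]
            congr 1
            group
          rwa [e] at h6
      · rw [if_neg h4, Int.cast_zero, zero_mul]
  simp only [if_true] at hsum
  unfold sc
  have e : (∑ x, ((∑ y : L, (if π y ∈ stb σ then u y * v (y⁻¹ * x) else 0) : ℤ) : ℂ) * f x) /
      f 1 = 0 := by
    rw [hsum, zero_div]
  rw [e]
  exact red_zero 𝔐

end Pool.Agent.DPG


end
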