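import Mathlib
import Pool.Agent.DAM.C01
import Pool.Agent.DAM.C08
import Pool.Agent.DAM.C11

/-! Parts: DP.PERA, DPB.SNG -/

section

/-!
# Dade's conjecture for `G ^ Ω ⋊ R`: the inertia group (module PERA)
-/

set_option linter.unusedSectionVars false

namespace Pool.Agent.DP

open Pool.Agent.Lib_helper13 Representation

namespace PERA

theorem comp_transport {O G : Type*} [Group G] [Fintype O] [DecidableEq O] [Fintype G] {τ : Finset (Subgroup (O → G))} {a b : O} {g : G}
    (h : ∀ D ∈ τ, (prj a D).map (MulAut.conj g).toMonoidHom = prj b D) :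
    mapCh (MulAut.conj g).toMonoidHom (comp τ a) = comp τ b := by
  ext E
  rw [mem_mapCh, mem_comp]
  constructor
  · rintro ⟨D', hD', rfl⟩
    obtain ⟨h1, D, hD, rfl⟩ := mem_comp.mp hD'
    refine ⟨?_, D, hD, (h D hD).symm⟩
    intro h2
    exact h1 ((Subgroup.map_eq_bot_iff_of_injective _ (MulAut.conj g).injective).mp h2)
  · rintro ⟨h1, D, hD, rfl⟩
    refine ⟨prj a D, mem_comp.mpr ⟨?_, D, hD, rfl⟩, h D hD⟩
    intro h2
    rw [← h D hD, h2, Subgroup.map_bot] at h1
    exact h1 rfl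

theorem stb_transport {O G : Type*} [Group G] [Fintype O] [DecidableEq O] [Fintype G] {τ : Finset (Subgroup (O → G))} {a b : O} {g : G}
    (h : ∀ D ∈ τ, (prj a D).map (MulAut.conj g).toMonoidHom = prj b D) :
    (stb (comp τ a)).map (MulAut.conj g).toMonoidHom = stb (comp τ b) := by
  rw [← comp_transport h]
  exact (stb_mapCh_equiv (MulAut.conj g) (comp τ a)).symm

theorem irrOn_transport {G : Type*} [Group G] [Fintype G] {S S' : Subgroup G} {f : G → ℂ} {g : G}
    (hS : S'.map (MulAut.conj g).toMonoidHom = S) (hf : IrrOn S f) :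
    IrrOn S' (fun x => f (g * x * g⁻¹)) := by
  subst hS
  refine ⟨?_, ?_⟩
  · have hF : Fintype (Subgroup.map (MulAut.conj g).toMonoidHom S') := Fintype.ofFinite _
    have hF' : Fintype S' := Fintype.ofFinite _
    exact hf.1.comp_mulEquiv ((MulAut.conj g).subgroupMap S')
  · intro x hx
    apply hf.2
    rintro ⟨y, hy, hy'⟩
    apply hx
    have h1 : g * y * g⁻¹ = g * x * g⁻¹ := hy'
    have h2 : y = x := by simpa using h1
    rwa [← h2]

theorem mem_YT_iff {K O G : Type*} [Group K] [MulAction K O] [Group G]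
    {τ : Finset (Subgroup (O → G))} {y : Gam K O G} :
    y ∈ YT K τ ↔ ∀ D ∈ τ, D.map (wAct (MulAction.toPerm y.right⁻¹) y.left) = D := by
  have hc : (MulAut.conj y).toMonoidHom.comp (iN K O G) =
      (iN K O G).comp (wAct (MulAction.toPerm y.right⁻¹) y.left) := by
    apply MonoidHom.ext
    intro a
    exact (conj_iN y a).symm
  rw [mem_stb]
  constructor
  · intro h D hD
    have h1 := h (D.map (iN K O G)) (mem_mapCh.mpr ⟨D, hD, rfl⟩)
    rw [Subgroup.map_map, hc, ← Subgroup.map_map] at h1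
    exact Subgroup.map_injective SemidirectProduct.inl_injective h1
  · intro h E hE
    obtain ⟨D, hD, rfl⟩ := mem_mapCh.mp hE
    rw [Subgroup.map_map, hc, ← Subgroup.map_map, h D hD]

theorem mem_YT_prj {K O G : Type*} [Group K] [MulAction K O] [Group G] [Fintype O]
    [DecidableEq O] [Fintype G] {τ : Finset (Subgroup (O → G))}
    (hτ : ∀ D ∈ τ, cl D = D) {y : Gam K O G} :
    y ∈ YT K τ ↔ ∀ o, ∀ D ∈ τ,
      (prj (y.right⁻¹ • o) D).map (MulAut.conj (y.left o)).toMonoidHom = prj o D := by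
  rw [mem_YT_iff]
  constructor
  · intro h o D hD
    exact (prj_wAct_fixed (hτ D hD)).mp (h D hD) o
  · intro h D hD
    exact (prj_wAct_fixed (hτ D hD)).mpr fun o => h o D hD

section

variable {K O G : Type} [Group K] [Finite K] [MulAction K O] [Fintype O] [DecidableEq O]
  [Group G] [Fintype G] {ℓ : ℕ} {τ : Finset (Subgroup (O → G))} {θ : O → G → ℂ}

theorem part4 (hτ : ∀ D ∈ τ, cl D = D) (y : Gam K O G)
    (h : ∀ o, trP τ θ (y.right⁻¹ • o) o (y.left o)) :
    y ∈ YT K τ ∧ y.right ∈ Kp K (prt τ θ) := by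
  refine ⟨?_, fun o => ⟨y.left o, h o⟩⟩
  rw [mem_YT_prj hτ]
  intro o D hD
  exact (h o).1 D hD

theorem part1 (h2 : Stmt_IRRPI) (hτ : ∀ D ∈ τ, cl D = D)
    (hθ : ∀ o, IrrOn (stb (comp τ o)) (θ o)) (y : YT K τ) :
    y ∈ inert (cT K τ) (fun a => ∏ o, θ o ((a : O → G) o)) ↔
      ∀ o, trP τ θ ((y : Gam K O G).right⁻¹ • o) o ((y : Gam K O G).left o) := by
  obtain ⟨y, hy⟩ := y
  have hy' := (mem_YT_prj hτ).mp hy
  constructor
  · intro h o
    refine ⟨hy' o, ?_⟩
    have h3 : ∀ a : stb τ,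
        ∏ o, θ o (y.left o * (a : O → G) (y.right⁻¹ • o) * (y.left o)⁻¹) =
          ∏ o, θ o ((a : O → G) o) := h
    have hk : ∀ o : O, y.right⁻¹ • y.right • o = o := fun o => inv_smul_smul _ _
    have h4 : θ = fun o x => θ (y.right • o)
        (y.left (y.right • o) * x * (y.left (y.right • o))⁻¹) := by
      apply (h2 O G (fun o => stb (comp τ o)) (stb τ) (stb_closed hτ)).2.1 _ _ hθ
      · intro o
        apply irrOn_transport (S := stb (comp τ (y.right • o))) _ (hθ _)
        apply stb_transport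
        intro D hD
        have h5 := hy' (y.right • o) D hD
        rw [hk] at h5
        exact h5
      · intro a
        rw [← h3 a]
        rw [← Equiv.prod_comp (MulAction.toPerm y.right) (fun o => θ o (y.left o *
          (a : O → G) (y.right⁻¹ • o) * (y.left o)⁻¹))]
        refine Finset.prod_congr rfl fun o _ => ?_
        change _ = θ (y.right • o) (y.left (y.right • o) * (a : O → G) o *
          (y.left (y.right • o))⁻¹)
        rw [MulAction.toPerm_apply, hk]
    intro x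
    have h5 := congrFun (congrFun h4 (y.right⁻¹ • o)) x
    simp only [smul_inv_smul] at h5
    exact h5.symm
  · intro h a
    change ∏ o, θ o (y.left o * (a : O → G) (y.right⁻¹ • o) * (y.left o)⁻¹) =
      ∏ o, θ o ((a : O → G) o)
    rw [← Equiv.prod_comp (MulAction.toPerm y.right⁻¹) (fun o => θ o ((a : O → G) o))]
    refine Finset.prod_congr rfl fun o _ => ?_
    exact (h o).2 _

/-- The inertia group as a set of pairs. -/
noncomputable def inertEquiv (h2 : Stmt_IRRPI) (hτ : ∀ D ∈ τ, cl D = D)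
    (hθ : ∀ o, IrrOn (stb (comp τ o)) (θ o)) :
    inert (cT K τ) (fun a => ∏ o, θ o ((a : O → G) o)) ≃
      (k : Kp K (prt τ θ)) × (∀ o, {g : G // trP τ θ ((k : K)⁻¹ • o) o g}) where
  toFun y := ⟨⟨(y : Gam K O G).right,
      (part4 hτ _ ((part1 h2 hτ hθ (y : YT K τ)).mp y.2)).2⟩,
    fun o => ⟨(y : Gam K O G).left o, (part1 h2 hτ hθ (y : YT K τ)).mp y.2 o⟩⟩
  invFun z := ⟨⟨⟨fun o => z.2 o, z.1⟩, (part4 hτ _ (fun o => (z.2 o).2)).1⟩,
    (part1 h2 hτ hθ _).mpr (fun o => (z.2 o).2)⟩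
  left_inv _ := rfl
  right_inv _ := rfl

end

end PERA

open _root_.Pool.Agent.DP.PERA in
theorem PERA_thm (h1 : Stmt_TRC) (h2 : Stmt_IRRPI) : Stmt_PERA := by
  intro K O G _ _ _ _ _ _ _ ℓ τ θ hτ' hθ
  have hτ : ∀ D ∈ τ, cl D = D := (mem_ClCh.mp hτ').2
  refine ⟨part1 h2 hτ hθ, ?_, ?_, part4 hτ⟩
  · ext k
    constructor
    · rintro ⟨y, hy, rfl⟩
      exact (part4 hτ _ ((part1 h2 hτ hθ y).mp hy)).2
    · intro hk
      choose g hg using hk
      exact ⟨⟨⟨g, k⟩, (part4 hτ _ hg).1⟩, (part1 h2 hτ hθ _).mpr hg, rfl⟩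
  · have hF : Fintype (Kp K (prt τ θ)) := Fintype.ofFinite _
    rw [Nat.card_congr (inertEquiv h2 hτ hθ), Nat.card_sigma]
    have h3 : ∀ k : Kp K (prt τ θ), Nat.card (∀ o, {g : G // trP τ θ ((k : K)⁻¹ • o) o g}) =
        ∏ o, Nat.card (stb (comp τ o)) := by
      intro k
      rw [Nat.card_pi]
      refine Finset.prod_congr rfl fun o _ => ?_
      exact ((h1 O G τ θ hθ).2.2 _ _ (k.2 o)).2
    rw [Finset.sum_congr rfl fun k _ => h3 k, Finset.sum_const, Finset.card_univ, smul_eq_mul,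
      Nat.card_eq_fintype_card]

end Pool.Agent.DP


end

section

/-!
# SNG: the class functions modulo those which depend only on the `ℓ'`-parts
-/

namespace Pool.Agent.DPB

open Pool.Agent.Lib_helper13 Representation

namespace SNG

/-! ### An exponent for the `ℓ'`-parts -/

/-- `g ^ k` is the `ℓ'`-part of `g`. -/
structure Ex0 (ℓ k : ℕ) (H : Type) [Group H] : Prop where
  idem : ∀ g : H, (g ^ k) ^ k = g ^ k
  kill : ∀ u : H, (∃ j : ℕ, u ^ ℓ ^ j = 1) → u ^ k = 1
  sing : ∀ g : H, (g * (g ^ k)⁻¹) ^ ℓ = 1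

/-- The same with a Sylow subgroup of prime order. -/
structure Ex (ℓ k : ℕ) {T : Type} [Group T] (P : Subgroup T) : Prop extends Ex0 ℓ k T where
  card : Nat.card P = ℓ
  nrm : ∀ u : T, u ∈ Subgroup.normalizer (P : Set T) → u ^ ℓ = 1 → u ∈ P
  syl : ∀ u : T, u ^ ℓ = 1 → u ≠ 1 → ∃ t : T, t * u * t⁻¹ ∈ P

theorem exists_ex (ℓ : ℕ) [hℓ : Fact ℓ.Prime] {T : Type} [Group T] [Finite T] (P : Subgroup T)
    (hP : Nat.card P = ℓ) (hi : ¬ ℓ ∣ P.index) : ∃ k, Ex ℓ k P := by
  have hcT : Nat.card T = ℓ * P.index := by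
    rw [← hP]
    exact P.card_mul_index.symm
  have hcop : Nat.Coprime ℓ P.index := (Nat.Prime.coprime_iff_not_dvd hℓ.out).mpr hi
  obtain ⟨k, hk0, hk1⟩ := Nat.chineseRemainder hcop 0 1
  have hpow : ∀ (g : T) (a b : ℕ), a ≡ b [MOD ℓ * P.index] → g ^ a = g ^ b := by
    intro g a b h
    rw [pow_eq_pow_iff_modEq]
    refine h.of_dvd ?_
    rw [← hcT]
    exact orderOf_dvd_natCard g
  refine ⟨k, ⟨⟨?_, ?_, ?_⟩, hP, ?_, ?_⟩⟩
  · intro g
    rw [← pow_mul]
    apply hpow
    rw [← Nat.modEq_and_modEq_iff_modEq_mul hcop]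
    constructor
    · exact (hk0.mul hk0).trans (by simpa using hk0.symm)
    · exact (hk1.mul hk1).trans (by simpa using hk1.symm)
  · rintro u ⟨j, hj⟩
    have h1 : orderOf u ∣ ℓ ^ j := orderOf_dvd_of_pow_eq_one hj
    have h2 : orderOf u ∣ ℓ * P.index := by
      rw [← hcT]
      exact orderOf_dvd_natCard u
    have h3 : Nat.Coprime (orderOf u) P.index :=
      Nat.Coprime.coprime_dvd_left h1 (Nat.Coprime.pow_left j hcop)
    have h4 : orderOf u ∣ ℓ := h3.dvd_of_dvd_mul_right h2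
    exact orderOf_dvd_iff_pow_eq_one.mp (h4.trans ((Nat.modEq_zero_iff_dvd).mp hk0))
  · intro g
    have h1 : Commute g (g ^ k)⁻¹ := ((Commute.refl g).pow_right k).inv_right
    rw [h1.mul_pow, inv_pow, ← pow_mul, mul_inv_eq_one]
    apply hpow
    rw [← Nat.modEq_and_modEq_iff_modEq_mul hcop]
    constructor
    · exact ((Nat.modEq_zero_iff_dvd).mpr (dvd_refl ℓ)).trans
        ((Nat.modEq_zero_iff_dvd).mpr (dvd_mul_left ℓ k)).symm
    · have h := hk1.symm.mul_right ℓ
      rwa [one_mul] at h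
  · intro u hu hul
    have hle : P ≤ Subgroup.normalizer (P : Set T) := Subgroup.le_normalizer
    have h1 := Subgroup.relIndex_mul_index hle
    have h2 := Subgroup.pow_index_mem (P.subgroupOf (Subgroup.normalizer (P : Set T))) ⟨u, hu⟩
    rw [Subgroup.mem_subgroupOf] at h2
    have h3 : u ^ (P.relIndex (Subgroup.normalizer (P : Set T))) ∈ P := h2
    have h4 : u ^ P.index ∈ P := by
      rw [← h1, pow_mul]
      exact P.pow_mem h3 _
    obtain ⟨c, -, hc⟩ := Nat.exists_mul_mod_eq_one_of_coprime hcop.symm hℓ.out.one_lt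
    have h5 : u ^ (P.index * c) = u := by
      rw [pow_eq_pow_mod _ hul, hc, pow_one]
    rw [← h5, pow_mul]
    exact P.pow_mem h4 _
  · intro u hul hu1
    have hord : orderOf u = ℓ := orderOf_eq_prime hul hu1
    have hQ : IsPGroup ℓ (Subgroup.zpowers u) :=
      IsPGroup.of_card (n := 1) (by rw [Nat.card_zpowers, hord, pow_one])
    obtain ⟨Q, hQle⟩ := hQ.exists_le_sylow
    have hfac : (Nat.card T).factorization ℓ = 1 := by
      rw [hcT, Nat.factorization_mul hℓ.out.ne_zero (by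
        intro h0
        exact hi (by rw [h0]; exact dvd_zero _)), Finsupp.add_apply, hℓ.out.factorization_self,
        Nat.factorization_eq_zero_of_not_dvd hi]
    let P' : Sylow ℓ T := Sylow.ofCard P (by rw [hfac, pow_one, hP])
    have hP' : (P' : Subgroup T) = P := rfl
    obtain ⟨t, ht⟩ := MulAction.exists_smul_eq T Q P'
    refine ⟨t, ?_⟩
    rw [← hP', ← ht]
    have hu : u ∈ (Q : Subgroup T) := hQle (Subgroup.mem_zpowers u)
    exact Subgroup.smul_mem_pointwise_smul u (MulAut.conj t) _ hu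

section

variable {ℓ k : ℕ} {T : Type} [Group T] {P : Subgroup T}

/-- The `ℓ`-part. -/
def lp (k : ℕ) {H : Type} [Group H] (g : H) : H := g * (g ^ k)⁻¹

theorem lp_comm {H : Type} [Group H] (g : H) : Commute (lp k g) g :=
  (Commute.refl g).mul_left ((Commute.refl g).pow_left k).inv_left

theorem pow_mul_lp {H : Type} [Group H] (g : H) : g ^ k * lp k g = g := by
  have h : Commute (g ^ k) g := (Commute.refl g).pow_left k
  rw [lp, ← mul_assoc, h.eq, mul_assoc, mul_inv_cancel, mul_one]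

theorem lp_eq_one {H : Type} [Group H] (g : H) : lp k g = 1 ↔ g ^ k = g := by
  rw [lp, mul_inv_eq_one, eq_comm]

theorem lp_conj {H : Type} [Group H] (t g : H) : lp k (t * g * t⁻¹) = t * lp k g * t⁻¹ := by
  rw [lp, lp, conj_pow]
  group

theorem Ex0.lp_pow {H : Type} [Group H] (e : Ex0 ℓ k H) (g : H) : lp k g ^ ℓ = 1 := e.sing g

theorem Ex.gen [Fact ℓ.Prime] (e : Ex ℓ k P) {p0 p : T} (h0 : p0 ∈ P) (h1 : p0 ≠ 1)
    (hp : p ∈ P) : ∃ j : ℤ, p0 ^ j = p := by
  have h := mem_zpowers_of_prime_card (G := P) e.card (g := ⟨p0, h0⟩) (g' := ⟨p, hp⟩)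
    (fun h => h1 (congrArg Subtype.val h))
  obtain ⟨j, hj⟩ := Subgroup.mem_zpowers_iff.mp h
  exact ⟨j, congrArg Subtype.val hj⟩

/-- A singular element of the normalizer centralizes `P`. -/
theorem Ex.cent [Fact ℓ.Prime] (e : Ex ℓ k P) {n : T} (h : lp k n ∈ P) (h1 : lp k n ≠ 1) :
    n ∈ Subgroup.centralizer (P : Set T) := by
  rw [Subgroup.mem_centralizer_iff]
  intro p hp
  obtain ⟨j, rfl⟩ := e.gen h h1 hp
  exact ((lp_comm n).zpow_left j).eq

theorem lp_mem_nrm {n : T} (h : n ∈ Subgroup.normalizer (P : Set T)) :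
    lp k n ∈ Subgroup.normalizer (P : Set T) :=
  Subgroup.mul_mem _ h (Subgroup.inv_mem _ (Subgroup.pow_mem _ h k))

theorem Ex.lp_mem (e : Ex ℓ k P) {n : T} (h : n ∈ Subgroup.normalizer (P : Set T)) :
    lp k n ∈ P := e.nrm _ (lp_mem_nrm h) (e.toEx0.lp_pow n)

/-- A singular element is conjugate to an element which centralizes `P`. -/
theorem Ex.conj_cent [Fact ℓ.Prime] (e : Ex ℓ k P) {g : T} (h1 : lp k g ≠ 1) :
    ∃ t : T, t * g * t⁻¹ ∈ Subgroup.centralizer (P : Set T) := by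
  obtain ⟨t, ht⟩ := e.syl _ (e.toEx0.lp_pow g) h1
  rw [← lp_conj] at ht
  refine ⟨t, e.cent ht ?_⟩
  rw [lp_conj]
  intro h
  exact h1 (conj_eq_one_iff.mp h)

/-- Two singular elements of the normalizer which are conjugate are conjugate in the
normalizer. -/
theorem Ex.fusion [Fact ℓ.Prime] (e : Ex ℓ k P) {n n' t : T}
    (hn : n ∈ Subgroup.normalizer (P : Set T)) (hn' : n' ∈ Subgroup.normalizer (P : Set T))
    (h1 : lp k n ≠ 1) (ht : t * n * t⁻¹ = n') : t ∈ Subgroup.normalizer (P : Set T) := by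
  have h2 := e.lp_mem hn
  have h3 := e.lp_mem hn'
  have h4 : t * lp k n * t⁻¹ = lp k n' := by rw [← lp_conj, ht]
  have h5 : lp k n' ≠ 1 := by
    rw [← h4]
    intro h
    exact h1 (conj_eq_one_iff.mp h)
  rw [Subgroup.mem_normalizer_iff]
  intro p
  constructor
  · intro hp
    obtain ⟨j, rfl⟩ := e.gen h2 h1 hp
    rw [← conj_zpow, h4]
    exact P.zpow_mem h3 j
  · intro hp
    obtain ⟨j, hj⟩ := e.gen h3 h5 hp
    rw [← h4, conj_zpow] at hj
    have h6 : lp k n ^ j = p := by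
      have := mul_right_cancel hj
      exact mul_left_cancel this
    rw [← h6]
    exact P.zpow_mem h2 j

theorem cent_le_nrm {h : T} (hh : h ∈ Subgroup.centralizer (P : Set T)) :
    h ∈ Subgroup.normalizer (P : Set T) := by
  rw [Subgroup.mem_normalizer_iff]
  intro p
  rw [Subgroup.mem_centralizer_iff] at hh
  constructor
  · intro hp
    rw [← hh p hp, mul_inv_cancel_right]
    exact hp
  · intro hp
    have h1 := hh _ hp
    have h2 : h * p * h⁻¹ = p := by
      have h3 : h * p * h⁻¹ * h = h * p := by group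
      rw [h3] at h1
      exact (mul_left_cancel h1).symm
    rwa [h2] at hp

end

/-! ### Class functions -/

section

variable {ℓ k : ℕ} {F H : Type} [Field F] [Group H]

theorem mem_CFr_iff (e : Ex0 ℓ k H) {φ : H → F} (hφ : φ ∈ CF F H) :
    φ ∈ CFr ℓ F H ↔ ∀ g, φ g = φ (g ^ k) := by
  constructor
  · rintro ⟨_, h⟩ g
    have h1 := h (g ^ k) (lp k g) ((lp_comm g).pow_right k).symm.eq
      ⟨1, by rw [pow_one]; exact e.lp_pow g⟩
    rw [pow_mul_lp] at h1
    exact h1
  · intro h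
    refine ⟨hφ, fun x u hxu hu => ?_⟩
    have hc : Commute x u := hxu
    rw [h (x * u), hc.mul_pow, e.kill u hu, mul_one, ← h x]

/-- The difference of a function and its values at the `ℓ'`-parts. -/
def DD (F : Type) [Field F] (k : ℕ) {N H : Type} [Group N] [Group H] (i : N →* H) :
    (H → F) →ₗ[F] (N → F) where
  toFun φ := fun n => φ (i n) - φ (i n ^ k)
  map_add' φ ψ := by
    funext n
    simp only [Pi.add_apply]
    ring
  map_smul' c φ := by
    funext n
    simp only [Pi.smul_apply, smul_eq_mul, RingHom.id_apply]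
    ring

theorem DD_apply {N : Type} [Group N] (i : N →* H) (φ : H → F) (n : N) :
    DD F k i φ n = φ (i n) - φ (i n ^ k) := rfl

end

section

variable {ℓ k : ℕ} {F T : Type} [Field F] [Group T] {P : Subgroup T}

theorem Ex.toN (e : Ex ℓ k P) : Ex0 ℓ k (NP P) where
  idem g := Subtype.ext (e.idem g)
  kill u hu := by
    obtain ⟨j, hj⟩ := hu
    exact Subtype.ext (e.kill u ⟨j, congrArg Subtype.val hj⟩)
  sing g := Subtype.ext (e.sing g)

theorem lp_coe (n : NP P) : ((lp k n : NP P) : T) = lp k (n : T) := rfl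

/-- The embedding of the normalizer. -/
abbrev iN (P : Subgroup T) : NP P →* T := (Subgroup.normalizer (P : Set T)).subtype

theorem res_mem_CF {φ : T → F} (hφ : φ ∈ CF F T) : (fun n : NP P => φ n) ∈ CF F (NP P) :=
  fun g x => hφ g x

theorem DD_res (φ : T → F) : DD F k (iN P) φ = DD F k (MonoidHom.id (NP P)) (fun n => φ n) := rfl

theorem part_one [Fact ℓ.Prime] (e : Ex ℓ k P) :
    CF F T ⊓ LinearMap.ker (DD F k (iN P)) = CFr ℓ F T := by
  ext φ
  constructor
  · rintro ⟨h1, h2⟩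
    rw [mem_CFr_iff e.toEx0 h1]
    intro g
    by_cases hg : lp k g = 1
    · rw [(lp_eq_one g).mp hg]
    · obtain ⟨t, ht⟩ := e.conj_cent hg
      have h3 := congrFun (LinearMap.mem_ker.mp h2) (⟨t * g * t⁻¹, cent_le_nrm ht⟩ : NP P)
      rw [DD_apply, Pi.zero_apply, sub_eq_zero] at h3
      have h4 : φ (t * g * t⁻¹) = φ ((t * g * t⁻¹) ^ k) := h3
      rw [conj_pow, h1, h1] at h4
      exact h4
  · intro h
    refine ⟨h.1, ?_⟩
    rw [SetLike.mem_coe, LinearMap.mem_ker]
    funext n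
    rw [DD_apply, (mem_CFr_iff e.toEx0 h.1).mp h, sub_self, Pi.zero_apply]

theorem part_two (e : Ex ℓ k P) :
    CF F (NP P) ⊓ LinearMap.ker (DD F k (MonoidHom.id (NP P))) = CFr ℓ F (NP P) := by
  ext φ
  constructor
  · rintro ⟨h1, h2⟩
    rw [mem_CFr_iff e.toN h1]
    intro g
    have h3 := congrFun (LinearMap.mem_ker.mp h2) g
    rw [DD_apply, Pi.zero_apply, sub_eq_zero] at h3
    exact h3
  · intro h
    refine ⟨h.1, ?_⟩
    rw [SetLike.mem_coe, LinearMap.mem_ker]
    funext n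
    rw [DD_apply, MonoidHom.id_apply, ← (mem_CFr_iff e.toN h.1).mp h, sub_self, Pi.zero_apply]

open Classical in
/-- The function on `T` which corresponds to the function `x` on the singular elements of the
normalizer. -/
noncomputable def lft (k : ℕ) (P : Subgroup T) (x : NP P → F) (g : T) : F :=
  if h : ∃ n : NP P, lp k g ≠ 1 ∧ ∃ t : T, t * g * t⁻¹ = n then x h.choose else 0

theorem lft_of [Fact ℓ.Prime] (e : Ex ℓ k P) {x : NP P → F} (hx : x ∈ CF F (NP P)) {g t : T}
    {n : NP P} (h1 : lp k g ≠ 1) (ht : t * g * t⁻¹ = n) : lft k P x g = x n := by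
  have h : ∃ n : NP P, lp k g ≠ 1 ∧ ∃ t : T, t * g * t⁻¹ = n := ⟨n, h1, t, ht⟩
  rw [lft, dif_pos h]
  obtain ⟨_, t', ht'⟩ := h.choose_spec
  have h2 : (t * t'⁻¹) * (h.choose : T) * (t * t'⁻¹)⁻¹ = (n : T) := by
    rw [← ht', ← ht]
    group
  have h3 : lp k (h.choose : T) ≠ 1 := by
    rw [← ht', lp_conj]
    intro h4
    exact h1 (conj_eq_one_iff.mp h4)
  have h4 := e.fusion h.choose.2 n.2 h3 h2
  have h5 := hx ⟨t * t'⁻¹, h4⟩ h.choose
  rw [← h5]
  congr 1
  exact Subtype.ext h2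

theorem lft_of_eq_one {x : NP P → F} {g : T} (h1 : lp k g = 1) : lft k P x g = 0 := by
  rw [lft, dif_neg]
  rintro ⟨n, h2, _⟩
  exact h2 h1

theorem lft_mem [Fact ℓ.Prime] (e : Ex ℓ k P) {x : NP P → F} (hx : x ∈ CF F (NP P)) :
    lft k P x ∈ CF F T := by
  intro s g
  by_cases hg : lp k g = 1
  · rw [lft_of_eq_one hg, lft_of_eq_one]
    rw [lp_conj, hg, mul_one, mul_inv_cancel]
  · obtain ⟨t, ht⟩ := e.conj_cent hg
    have hg' : lp k (s * g * s⁻¹) ≠ 1 := by
      rw [lp_conj]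
      intro h
      exact hg (conj_eq_one_iff.mp h)
    have h1 := lft_of e hx (n := ⟨_, cent_le_nrm ht⟩) hg (rfl : t * g * t⁻¹ = _)
    have h2 := lft_of e hx (n := ⟨_, cent_le_nrm ht⟩) hg'
      (by group : (t * s⁻¹) * (s * g * s⁻¹) * (t * s⁻¹)⁻¹ = t * g * t⁻¹)
    rw [h1, h2]

theorem DD_mem (k : ℕ) {φ : NP P → F} (hφ : φ ∈ CF F (NP P)) :
    DD F k (MonoidHom.id (NP P)) φ ∈ CF F (NP P) := by
  intro g x
  rw [DD_apply, DD_apply, MonoidHom.id_apply, MonoidHom.id_apply, conj_pow, hφ, hφ]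

theorem part_three [Fact ℓ.Prime] (e : Ex ℓ k P) :
    (CF F T).map (DD F k (iN P)) = (CF F (NP P)).map (DD F k (MonoidHom.id (NP P))) := by
  ext x
  rw [Submodule.mem_map, Submodule.mem_map]
  constructor
  · rintro ⟨φ, hφ, rfl⟩
    exact ⟨fun n => φ n, res_mem_CF hφ, (DD_res φ).symm⟩
  · rintro ⟨φ, hφ, rfl⟩
    refine ⟨lft k P (DD F k (MonoidHom.id (NP P)) φ), lft_mem e (DD_mem k hφ), ?_⟩
    funext n
    have h2 : lft k P (DD F k (MonoidHom.id (NP P)) φ) (iN P n ^ k) = 0 := by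
      apply lft_of_eq_one
      rw [lp_eq_one]
      exact e.idem _
    rw [DD_apply, h2, sub_zero]
    by_cases hn : lp k (n : T) = 1
    · rw [show iN P n = (n : T) from rfl, lft_of_eq_one hn, DD_apply, MonoidHom.id_apply]
      have h3 : n ^ k = n := Subtype.ext ((lp_eq_one (n : T)).mp hn)
      rw [h3, sub_self]
    · exact lft_of e (DD_mem k hφ) (t := 1) hn (by simp)

end

section

variable {ℓ k : ℕ} {F T : Type} [Field F] [Group T] {P : Subgroup T} [Fintype (NP P)]

/-- The operator of the Brauer image preserves the functions of the `ℓ'`-parts. -/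
theorem Lz_brz_pow (e : Ex ℓ k P) (z : T → F) {ψ : NP P → F}
    (hψ : ∀ x u : NP P, x * u = u * x → (∃ j : ℕ, u ^ ℓ ^ j = 1) → ψ (x * u) = ψ x) (n : NP P) :
    Lz (brz P z) ψ n = Lz (brz P z) ψ (n ^ k) := by
  rw [Lz_apply, Lz_apply]
  refine Finset.sum_congr rfl fun h _ => ?_
  by_cases hh : (h : T) ∈ Subgroup.centralizer (P : Set T)
  · congr 1
    have h1 : h * n = h * n ^ k * lp k n := by
      rw [mul_assoc, pow_mul_lp]
    rw [h1]
    apply hψ
    · have h2 : Commute h (lp k n) := by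
        apply Subtype.ext
        exact (Subgroup.mem_centralizer_iff.mp hh _ (e.lp_mem n.2)).symm
      have h3 : Commute (n ^ k) (lp k n) := ((lp_comm n).pow_right k).symm
      exact (h2.mul_left h3).eq
    · exact ⟨1, by rw [pow_one]; exact e.toN.lp_pow n⟩
  · rw [brz, if_neg hh, zero_mul, zero_mul]

theorem part_five (e : Ex ℓ k P) (z : T → F) (φ : NP P → F) :
    DD F k (MonoidHom.id (NP P)) (Lz (brz P z) φ) =
      (DD F k (MonoidHom.id (NP P)) ∘ₗ Lz (brz P z)) (DD F k (MonoidHom.id (NP P)) φ) := by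
  have h1 : DD F k (MonoidHom.id (NP P)) φ = φ - fun n => φ (n ^ k) := rfl
  rw [LinearMap.comp_apply, h1, map_sub, map_sub]
  have h2 : DD F k (MonoidHom.id (NP P)) (Lz (brz P z) fun n => φ (n ^ k)) = 0 := by
    funext n
    rw [DD_apply, Pi.zero_apply, sub_eq_zero, MonoidHom.id_apply]
    refine Lz_brz_pow e z ?_ n
    intro x u hxu hu
    have hc : Commute x u := hxu
    change φ ((x * u) ^ k) = φ (x ^ k)
    rw [hc.mul_pow, e.toN.kill u hu, mul_one]
  rw [h2, sub_zero]

theorem part_four [Fintype T] [Fact ℓ.Prime] [CharP F ℓ] (e : Ex ℓ k P) {z : T → F}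
    (hz : z ∈ CF F T) {φ : T → F} (hφ : φ ∈ CF F T) :
    DD F k (iN P) (Lz z φ) = DD F k (MonoidHom.id (NP P)) (Lz (brz P z) fun n => φ n) := by
  classical
  funext n
  rw [DD_apply, DD_apply, MonoidHom.id_apply, Lz_apply, Lz_apply, Lz_apply, Lz_apply]
  rw [show iN P n = (n : T) from rfl]
  by_cases hn : lp k (n : T) = 1
  · have h3 : (n : T) ^ k = n := (lp_eq_one (n : T)).mp hn
    have h4 : n ^ k = n := Subtype.ext h3
    rw [h3, h4, sub_self, sub_self]
  · have hcn := e.cent (e.lp_mem n.2) hn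
    rw [Subgroup.mem_centralizer_iff] at hcn
    let s : T → F := fun h => z h * φ (h * n) - z h * φ (h * (n : T) ^ k)
    rw [← Finset.sum_sub_distrib, ← Finset.sum_sub_distrib]
    have hP : IsPGroup ℓ P := IsPGroup.of_card (n := 1) (by rw [e.card, pow_one])
    let act : MulAction P T :=
      { smul := fun p h => (p : T) * h * (p : T)⁻¹
        one_smul := by
          intro h
          change ((1 : P) : T) * h * ((1 : P) : T)⁻¹ = h
          simp
        mul_smul := by
          intro a b h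
          change ((a * b : P) : T) * h * ((a * b : P) : T)⁻¹ = a.1 * (b.1 * h * b.1⁻¹) * a.1⁻¹
          simp [mul_assoc] }
    have hsmul : ∀ (p : P) (h : T), p • h = (p : T) * h * (p : T)⁻¹ := fun _ _ => rfl
    have hM : ∀ m : F, ℓ • m = 0 := by
      intro m
      rw [nsmul_eq_mul, CharP.cast_eq_zero, zero_mul]
    have hs : ∀ (p : P) (h : T), s (p • h) = s h := by
      intro p h
      have h1 : (p : T) * n = n * p := hcn p p.2
      have h2 : Commute (p : T) (n : T) := h1
      have h3 : Commute (p : T) ((n : T) ^ k) := h2.pow_right k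
      have e1 : (p : T) * h * (p : T)⁻¹ * n = p * (h * n) * (p : T)⁻¹ := by
        rw [mul_assoc, h2.inv_left.eq]
        group
      have e2 : (p : T) * h * (p : T)⁻¹ * (n : T) ^ k = p * (h * (n : T) ^ k) * (p : T)⁻¹ := by
        rw [mul_assoc, h3.inv_left.eq]
        group
      simp only [s, hsmul]
      rw [e1, e2, hz, hφ, hφ]
    have h5 := sum_eq_sum_fixed hP hM s hs
    have h6 : ∀ h : T, (∀ p : P, p • h = h) ↔ h ∈ Subgroup.centralizer (P : Set T) := by
      intro h
      rw [Subgroup.mem_centralizer_iff]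
      constructor
      · intro hh p hp
        have := hh ⟨p, hp⟩
        rw [hsmul] at this
        exact mul_inv_eq_iff_eq_mul.mp this
      · intro hh p
        rw [hsmul, hh p p.2, mul_inv_cancel_right]
    change ∑ h, s h = _
    rw [h5, Finset.sum_filter]
    symm
    refine Fintype.sum_of_injective (fun h : NP P => (h : T)) Subtype.val_injective _ _ ?_ ?_
    · intro h hh
      rw [if_neg]
      rw [h6]
      intro hc
      exact hh ⟨⟨h, cent_le_nrm hc⟩, rfl⟩
    · intro h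
      by_cases hc : (h : T) ∈ Subgroup.centralizer (P : Set T)
      · rw [if_pos ((h6 h).mpr hc), brz, if_pos hc]
        rfl
      · rw [if_neg (fun h' => hc ((h6 h).mp h')), brz, if_neg hc, zero_mul, zero_mul, sub_self]

end

end SNG

open _root_.Pool.Agent.DPB.SNG in
theorem SNG_thm : Stmt_SNG := by
  intro ℓ _ F T _ _ _ _ P _ hP hi z hz
  obtain ⟨k, e⟩ := exists_ex ℓ P hP hi
  refine ⟨DD F k (iN P), DD F k (MonoidHom.id (NP P)),
    DD F k (MonoidHom.id (NP P)) ∘ₗ Lz (brz P z), part_one e, part_two e, part_three e, ?_, ?_⟩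
  · intro φ hφ
    rw [part_four e hz hφ, DD_res φ]
    exact part_five e z _
  · intro φ _
    exact part_five e z φ

end Pool.Agent.DPB


end
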