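import Mathlib
import Pool.Agent.DAM.C04
import Pool.Agent.DAM.C07
import Pool.Agent.DAM.C08
import Pool.Agent.DAM.C11
import Pool.Agent.DAM.C12
import Pool.Agent.DAM.C14
import Pool.Agent.DAM.C15
import Pool.Agent.DAM.C22
import Pool.Agent.DAM.C26
import Pool.Agent.DAM.C32
import Pool.Agent.DAM.C41
import Pool.Agent.DAM.C43
import Pool.Agent.DAM.C44
import Pool.Agent.DAM.C84

/-! Parts: DPN.MIXP, DPN.UMN, DPT.B0F, DPK.UMNr, DPK.B0Fr, DPC.REPJ, DPV.REPV, DPC.JOIN, DPW.SNGB, DPX.SNGX, DPX.QUOX, DPX.ZACX -/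

section

/-!
# MIXP: refinement of the central functions
-/

set_option autoImplicit false

namespace Pool.Agent.DPN

open Pool.Agent.DP Pool.Agent.DPC Pool.Agent.DPM Pool.Agent.Lib_helper13 Representation
open Pool.Agent.Lib_helper13.Dade (pCore DadeHolds dadeSum)

open Classical in
/-- MIXP: refinement of the central functions. -/
theorem MIXP_thm : Stmt_MIXP := by
  intro Y X _ _ _ _ 𝔐 ℓ _ d Z i P
  -- all central functions
  let Call : Finset (Y → (integralClosure ℤ ℂ) ⧸ 𝔐) :=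
    (Ch ℓ Z).biUnion fun σ => (irrF (stb σ)).image fun ψ => cen 𝔐 (stb σ).subtype ψ
  let F : Finset (Y → (integralClosure ℤ ℂ) ⧸ 𝔐) :=
    Call.filter fun ω => (fun g => pair 𝔐 (fun y => conjInd (i y) g) ω) ∈ P
  refine ⟨F, ?_⟩
  unfold DK KK
  rw [Finset.sum_comm]
  refine Finset.sum_congr rfl fun σ hσ => ?_
  rw [← Finset.mul_sum, ← Finset.mul_sum]
  congr 2
  rw [MXM.card_split 𝔐 (stb σ).subtype ℓ d _ F]
  · rw [Nat.cast_sum]
  · intro ψ hψ
    have hc : cen 𝔐 (i.comp (stb σ).subtype) ψ =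
        fun g => pair 𝔐 (fun y => conjInd (i y) g) (cen 𝔐 (stb σ).subtype ψ) :=
      funext fun g => MXM.cen_comp 𝔐 i _ hψ g
    rw [hc, Finset.mem_filter]
    constructor
    · intro h1
      refine ⟨?_, h1⟩
      rw [Finset.mem_biUnion]
      exact ⟨σ, hσ, Finset.mem_image_of_mem _ (mem_irrF.2 hψ)⟩
    · intro h1
      exact h1.2

end Pool.Agent.DPN


end

section

/-!
# The intersection of normal subgroups of a minimal counterexample
-/

namespace Pool.Agent.DPN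

open Pool.Agent.DP Pool.Agent.DPC Pool.Agent.DPM Pool.Agent.Lib_helper13 Representation
open Pool.Agent.Lib_helper13.Dade (pCore DadeHolds dadeSum)

namespace UMN

theorem val_le {ℓ : ℕ} [Fact ℓ.Prime] {a b : ℕ} (h : a ∣ b) (hb : b ≠ 0) :
    padicValNat ℓ a ≤ padicValNat ℓ b :=
  (padicValNat_dvd_iff_le hb).mp (dvd_trans pow_padicValNat_dvd h)

/-- A nonvanishing chain sum comes from a character of a subgroup. -/
theorem le_val {G : Type} [Group G] [Fintype G] (𝔐 : Ideal (integralClosure ℤ ℂ)) (ℓ d : ℕ)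
    [Fact ℓ.Prime] (Z : Subgroup G) (ω : G → (integralClosure ℤ ℂ) ⧸ 𝔐)
    (h : KK 𝔐 ℓ d Z ω ≠ 0) : d ≤ padicValNat ℓ (Nat.card G) := by
  obtain ⟨σ, _, h1⟩ := Finset.exists_ne_zero_of_sum_ne_zero h
  have h2 : cnt 𝔐 ℓ d (stb σ).subtype ω ≠ 0 := by
    intro h0
    apply h1
    rw [h0]
    simp
  rw [cnt] at h2
  obtain ⟨⟨ψ, _, ⟨n, _, hv⟩, _⟩⟩ := (Nat.card_ne_zero.mp h2).1
  have h5 := val_le (ℓ := ℓ) (Subgroup.card_subgroup_dvd_card (stb σ)) Nat.card_pos.ne'
  omega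

/-- A normal subgroup of index prime to `ℓ` which is an `ℓ`-group modulo the centre. -/
theorem val_core {X : Type} [Group X] [Finite X] (ℓ : ℕ) [Fact ℓ.Prime] (M : Subgroup X)
    (hM : M.Normal) (hi : ¬ ℓ ∣ M.index) (hp : ∀ x ∈ M, ∃ k : ℕ, x ^ ℓ ^ k ∈ Subgroup.center X) :
    padicValNat ℓ (Nat.card X) ≤ padicValNat ℓ (Nat.card (pCore ℓ X)) := by
  have hprime : ℓ.Prime := Fact.out
  let f : M →* X ⧸ Subgroup.center X := (QuotientGroup.mk' (Subgroup.center X)).comp M.subtype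
  have hk : f.rangeRestrict.ker ≤ Subgroup.center M := by
    intro x hx
    rw [MonoidHom.ker_rangeRestrict] at hx
    have h1 : (x : X) ∈ Subgroup.center X := (QuotientGroup.eq_one_iff (x : X)).mp hx
    rw [Subgroup.mem_center_iff] at h1 ⊢
    intro y
    exact Subtype.ext (h1 y)
  have hr : IsPGroup ℓ f.range := by
    rintro ⟨y, x, rfl⟩
    obtain ⟨k, hk⟩ := hp x x.2
    refine ⟨k, Subtype.ext ?_⟩
    have h1 : ((x : X) ^ ℓ ^ k : X ⧸ Subgroup.center X) = 1 := (QuotientGroup.eq_one_iff _).mpr hk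
    exact h1
  have hrn : Group.IsNilpotent f.range := hr.isNilpotent
  have hn : Group.IsNilpotent M := Subgroup.isNilpotent_of_ker_le_center f.rangeRestrict hk
  obtain ⟨S⟩ : Nonempty (Sylow ℓ M) := inferInstance
  have hS : (S : Subgroup M).Normal :=
    ((Group.isNilpotent_of_finite_tfae (G := M)).out 0 3 rfl rfl).mp hn ℓ ‹_› S
  have hc : (S : Subgroup M).Characteristic := Sylow.characteristic_of_normal S hS
  have h1 : ((S : Subgroup M).map M.subtype).Normal := ConjAct.normal_of_characteristic_of_normal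
  have h2 : IsPGroup ℓ ((S : Subgroup M).map M.subtype) := S.isPGroup'.map _
  have h3 : (S : Subgroup M).map M.subtype ≤ pCore ℓ X := le_sSup ⟨h1, h2⟩
  have h4 : Nat.card ((S : Subgroup M).map M.subtype) = Nat.card S :=
    (Nat.card_congr ((S : Subgroup M).equivMapOfInjective _ M.subtype_injective).toEquiv).symm
  have h5 := val_le (ℓ := ℓ) (Subgroup.card_dvd_of_le h3) Nat.card_pos.ne'
  have h6 : padicValNat ℓ (Nat.card S) = padicValNat ℓ (Nat.card M) := by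
    rw [S.card_eq_multiplicity, padicValNat.prime_pow, Nat.factorization_def _ hprime]
  have h7 : Nat.card X = Nat.card M * M.index := M.card_mul_index.symm
  have h8 : padicValNat ℓ (Nat.card X) = padicValNat ℓ (Nat.card M) := by
    rw [h7, padicValNat.mul Nat.card_pos.ne' M.index_ne_zero_of_finite,
      padicValNat.eq_zero_of_not_dvd hi, add_zero]
  rw [h4, h6, ← h8] at h5
  exact h5

end UMN

theorem UMN_thm (h1 : Stmt_STRN) (h2 : Stmt_DLO) : Stmt_UMN := by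
  intro X _ _ ℓ hℓ hcore hHQ hD N N' hN hN' hNc hNc'
  refine lt_of_le_of_ne (le_inf hNc.le hNc'.le) fun e => ?_
  have hprime : ℓ.Prime := Fact.out
  obtain ⟨P, hPn, hNP, hP, hPi, _⟩ := h1 X ℓ hcore hHQ hD N hN hNc
  obtain ⟨P', hPn', hNP', hP', hPi', _⟩ := h1 X ℓ hcore hHQ hD N' hN' hNc'
  have hM : (P ⊓ P').Normal := inferInstance
  have hi : ¬ ℓ ∣ (P ⊓ P').index := by
    rw [← Subgroup.relIndex_mul_index (inf_le_left : P ⊓ P' ≤ P), Subgroup.inf_relIndex_left]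
    intro h
    rcases hprime.dvd_mul.mp h with h | h
    · exact hPi' (h.trans (Subgroup.relIndex_dvd_index_of_normal P' P))
    · exact hPi h
  have hp : ∀ x ∈ P ⊓ P', ∃ k : ℕ, x ^ ℓ ^ k ∈ Subgroup.center X := by
    intro x hx
    obtain ⟨k, hk⟩ := hP x hx.1
    obtain ⟨k', hk'⟩ := hP' x hx.2
    refine ⟨k + k', ?_⟩
    rw [e]
    constructor
    · rw [pow_add, pow_mul]
      exact N.pow_mem hk _
    · rw [pow_add, mul_comm, pow_mul]
      exact N'.pow_mem hk' _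
  have h3 := UMN.val_core ℓ (P ⊓ P') hM hi hp
  obtain ⟨𝔐, _, _, d, ω, hd, hK⟩ := h2 X ℓ hcore hD
  have h4 := UMN.le_val 𝔐 ℓ d (pCore ℓ X) ω hK
  omega

end Pool.Agent.DPN


end

section

/-!
# B0F: the minimal normal subgroup of a minimal counterexample
-/

set_option autoImplicit false

namespace Pool.Agent.DPT

open Pool.Agent.DP Pool.Agent.DPC Pool.Agent.DPM Pool.Agent.DPN Pool.Agent.Lib_helper13
open Representation
open Pool.Agent.Lib_helper13.Dade (pCore DadeHolds dadeSum)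

namespace B0F

/-- The `ℓ`-part of the order of a nilpotent normal subgroup. -/
theorem val_nil {X : Type} [Group X] [Finite X] (ℓ : ℕ) [Fact ℓ.Prime] (M : Subgroup X)
    (hM : M.Normal) (hn : Group.IsNilpotent M) :
    padicValNat ℓ (Nat.card M) ≤ padicValNat ℓ (Nat.card (pCore ℓ X)) := by
  have hprime : ℓ.Prime := Fact.out
  obtain ⟨S⟩ : Nonempty (Sylow ℓ M) := inferInstance
  have hS : (S : Subgroup M).Normal :=
    ((Group.isNilpotent_of_finite_tfae (G := M)).out 0 3 rfl rfl).mp hn ℓ ‹_› S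
  have hc : (S : Subgroup M).Characteristic := Sylow.characteristic_of_normal S hS
  have h1 : ((S : Subgroup M).map M.subtype).Normal := ConjAct.normal_of_characteristic_of_normal
  have h2 : IsPGroup ℓ ((S : Subgroup M).map M.subtype) := S.isPGroup'.map _
  have h3 : (S : Subgroup M).map M.subtype ≤ pCore ℓ X := le_sSup ⟨h1, h2⟩
  have h4 : Nat.card ((S : Subgroup M).map M.subtype) = Nat.card S :=
    (Nat.card_congr ((S : Subgroup M).equivMapOfInjective _ M.subtype_injective).toEquiv).symm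
  have h5 := UMN.val_le (ℓ := ℓ) (Subgroup.card_dvd_of_le h3) Nat.card_pos.ne'
  have h6 : padicValNat ℓ (Nat.card S) = padicValNat ℓ (Nat.card M) := by
    rw [S.card_eq_multiplicity, padicValNat.prime_pow, Nat.factorization_def _ hprime]
  rw [h4, h6] at h5
  exact h5

/-- The `ℓ`-part of the order of the centre. -/
theorem val_center {X : Type} [Group X] [Finite X] (ℓ : ℕ) [Fact ℓ.Prime]
    (h : pCore ℓ X ≤ Subgroup.center X) :
    padicValNat ℓ (Nat.card (Subgroup.center X)) = padicValNat ℓ (Nat.card (pCore ℓ X)) := by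
  apply le_antisymm
  · let _ : CommGroup (Subgroup.center X) :=
      { (inferInstance : Group (Subgroup.center X)) with
        mul_comm := fun a b => Subtype.ext (Subgroup.mem_center_iff.mp b.2 a) }
    have h1 : Group.IsNilpotent (Subgroup.center X) := CommGroup.isNilpotent
    exact val_nil ℓ _ inferInstance h1
  · exact UMN.val_le (ℓ := ℓ) (Subgroup.card_dvd_of_le h) Nat.card_pos.ne'

theorem card_eq {X : Type} [Group X] (C M : Subgroup X) (hCM : C ≤ M) :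
    Nat.card M = Nat.card C * C.relIndex M := by
  have h1 := Subgroup.card_mul_index (C.subgroupOf M)
  rw [Nat.card_congr (Subgroup.subgroupOfEquivOfLe hCM).toEquiv] at h1
  exact h1.symm

/-- A subgroup without elements of order `ℓ` modulo the centre. -/
theorem val_of_root {X : Type} [Group X] [Finite X] (ℓ : ℕ) [Fact ℓ.Prime] (C M : Subgroup X)
    (hC : C.Normal) (hCM : C ≤ M) (h : ∀ x ∈ M, x ^ ℓ ∈ C → x ∈ C) :
    padicValNat ℓ (Nat.card M) = padicValNat ℓ (Nat.card C) := by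
  have hprime : ℓ.Prime := Fact.out
  have hd : ¬ ℓ ∣ C.relIndex M := by
    intro hd
    have h1 : ℓ ∣ Nat.card (M ⧸ C.subgroupOf M) := hd
    obtain ⟨q, hq⟩ := exists_prime_orderOf_dvd_card' ℓ h1
    obtain ⟨x, rfl⟩ := QuotientGroup.mk_surjective q
    have h2 : ((x ^ ℓ : M) : M ⧸ C.subgroupOf M) = 1 := by
      rw [QuotientGroup.mk_pow, ← hq, pow_orderOf_eq_one]
    rw [QuotientGroup.eq_one_iff, Subgroup.mem_subgroupOf, Subgroup.coe_pow] at h2
    have h3 : ((x : M) : M ⧸ C.subgroupOf M) = 1 := by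
      rw [QuotientGroup.eq_one_iff, Subgroup.mem_subgroupOf]
      exact h x x.2 h2
    rw [h3, orderOf_one] at hq
    exact hprime.one_lt.ne hq
  have h1 : Nat.card M = Nat.card C * C.relIndex M := by
    exact card_eq C M hCM
  rw [h1, padicValNat.mul Nat.card_pos.ne', padicValNat.eq_zero_of_not_dvd hd, add_zero]
  intro h0
  apply hd
  rw [h0]
  exact dvd_zero _

/-- If the `ℓ`-parts of the orders are equal, there are no elements of order `ℓ` modulo `C`. -/
theorem root_of_val {X : Type} [Group X] [Finite X] (ℓ : ℕ) [Fact ℓ.Prime] (C M : Subgroup X)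
    (hC : C.Normal) (hCM : C ≤ M) (hv : padicValNat ℓ (Nat.card M) ≤ padicValNat ℓ (Nat.card C)) :
    ∀ x ∈ M, x ^ ℓ ∈ C → x ∈ C := by
  have hprime : ℓ.Prime := Fact.out
  have h1 : Nat.card M = Nat.card C * C.relIndex M := by
    exact card_eq C M hCM
  have h0 : C.relIndex M ≠ 0 := by
    intro h0
    rw [h0, mul_zero] at h1
    exact Nat.card_pos.ne' h1
  have hd : ¬ ℓ ∣ C.relIndex M := by
    intro hd
    rw [h1, padicValNat.mul Nat.card_pos.ne' h0] at hv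
    have := one_le_padicValNat_of_dvd h0 hd
    omega
  intro x hx hxC
  have h2 : ((⟨x, hx⟩ : M) : M ⧸ C.subgroupOf M) ^ ℓ = 1 := by
    rw [← QuotientGroup.mk_pow, QuotientGroup.eq_one_iff, Subgroup.mem_subgroupOf]
    exact hxC
  have h3 : orderOf ((⟨x, hx⟩ : M) : M ⧸ C.subgroupOf M) ∣ ℓ := orderOf_dvd_of_pow_eq_one h2
  have h4 : orderOf ((⟨x, hx⟩ : M) : M ⧸ C.subgroupOf M) = 1 := by
    rcases (Nat.dvd_prime hprime).mp h3 with h | h
    · exact h
    · exfalso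
      apply hd
      have h5 : orderOf ((⟨x, hx⟩ : M) : M ⧸ C.subgroupOf M) ∣ Nat.card (M ⧸ C.subgroupOf M) :=
        orderOf_dvd_natCard _
      rw [h] at h5
      exact h5
  rw [orderOf_eq_one_iff, QuotientGroup.eq_one_iff, Subgroup.mem_subgroupOf] at h4
  exact h4

/-- A subgroup with commutators in the centre is nilpotent. -/
theorem nil_of_comm {X : Type} [Group X] (N : Subgroup X)
    (h : ∀ x ∈ N, ∀ y ∈ N, x * y * x⁻¹ * y⁻¹ ∈ Subgroup.center X) : Group.IsNilpotent N := by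
  let f : N →* X ⧸ Subgroup.center X := (QuotientGroup.mk' (Subgroup.center X)).comp N.subtype
  have hk : f.rangeRestrict.ker ≤ Subgroup.center N := by
    intro x hx
    rw [MonoidHom.ker_rangeRestrict] at hx
    have h1 : (x : X) ∈ Subgroup.center X := (QuotientGroup.eq_one_iff (x : X)).mp hx
    rw [Subgroup.mem_center_iff] at h1 ⊢
    intro y
    exact Subtype.ext (h1 y)
  have hcomm : ∀ a b : f.range, a * b = b * a := by
    rintro ⟨_, x, rfl⟩ ⟨_, y, rfl⟩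
    apply Subtype.ext
    change ((x : X) : X ⧸ Subgroup.center X) * ((y : X) : X ⧸ Subgroup.center X) =
      ((y : X) : X ⧸ Subgroup.center X) * ((x : X) : X ⧸ Subgroup.center X)
    have h2 : (((x : X) * y * (x : X)⁻¹ * (y : X)⁻¹ : X) : X ⧸ Subgroup.center X) = 1 :=
      (QuotientGroup.eq_one_iff _).mpr (h x x.2 y y.2)
    rw [QuotientGroup.mk_mul, QuotientGroup.mk_mul, QuotientGroup.mk_mul, QuotientGroup.mk_inv,
      QuotientGroup.mk_inv, mul_inv_eq_one, mul_inv_eq_iff_eq_mul] at h2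
    exact h2
  let _ : CommGroup f.range := { (inferInstance : Group f.range) with mul_comm := hcomm }
  have hrn : Group.IsNilpotent f.range := CommGroup.isNilpotent
  exact Subgroup.isNilpotent_of_ker_le_center f.rangeRestrict hk

/-- A nonvanishing chain sum comes from an irreducible character. -/
theorem exists_irr {L : Type} [Group L] [Fintype L] (𝔐 : Ideal (integralClosure ℤ ℂ))
    [h𝔐 : 𝔐.IsPrime] {ℓ : ℕ} [Fact ℓ.Prime] (hℓ : (ℓ : integralClosure ℤ ℂ) ∈ 𝔐) {d : ℕ}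
    {Z : Subgroup L} {lam : L → (integralClosure ℤ ℂ) ⧸ 𝔐} (h : KK 𝔐 ℓ d Z lam ≠ 0) :
    ∃ ξ : L → ℂ, IsIrr ξ ∧ cen 𝔐 (MonoidHom.id L) ξ = lam := by
  obtain ⟨τ, hτ, ψ, hψ, -, hcen'⟩ := KK_ne_zero 𝔐 h
  obtain ⟨χ, hχ, hcen⟩ := exists_irr_of_mult 𝔐 hψ (exists_irr_of_chain 𝔐 hℓ hτ hψ)
  exact ⟨χ, hχ, by rw [hcen]; exact funext hcen'⟩

/-- Part (1a). -/
theorem root (h1 : Stmt_OUT1) (h2 : Stmt_DZ6) {X : Type} [Group X] [Fintype X]
    (𝔐 : Ideal (integralClosure ℤ ℂ)) (ℓ : ℕ) [Fact ℓ.Prime] (h𝔐 : 𝔐.IsMaximal)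
    (hℓ : (ℓ : integralClosure ℤ ℂ) ∈ 𝔐) (hcore : pCore ℓ X ≤ Subgroup.center X)
    (hHQ : HQ ℓ ((Subgroup.center X).index - 1)) (d : ℕ)
    (ω : X → (integralClosure ℤ ℂ) ⧸ 𝔐) (hd : padicValNat ℓ (Nat.card (pCore ℓ X)) < d)
    (hK : KK 𝔐 ℓ d (pCore ℓ X) ω ≠ 0) (N : Subgroup X) (hN : N.Normal)
    (hNc : Subgroup.center X < N) :
    ∃ x ∈ N, x ^ ℓ ∈ Subgroup.center X ∧ x ∉ Subgroup.center X := by
  classical
  by_contra hcon
  push Not at hcon
  have hP : 𝔐.IsPrime := h𝔐.isPrime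
  obtain ⟨M, hM, hNM, hMr, H, iH, fH, f, hfs, hfk, hHH⟩ :=
    h1 X 𝔐 ℓ h𝔐 hℓ hcore hHQ d ω hd hK N hN hNc
  have hCM : Subgroup.center X ≤ M := hNc.le.trans hNM
  have hMv : padicValNat ℓ (Nat.card M) = padicValNat ℓ (Nat.card (pCore ℓ X)) := by
    rw [← val_center ℓ hcore]
    apply val_of_root ℓ _ M inferInstance hCM
    intro x hx hxC
    exact hcon x (hMr x hx (hNc.le hxC)) hxC
  obtain ⟨χ, hχ, hω⟩ := exists_irr 𝔐 hℓ hK
  obtain ⟨ξ, hξ, hip⟩ := CLG.exists_under M.subtype hχ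
  obtain ⟨a, n, hn, han⟩ := hξ.exists_defect (ℓ := ℓ)
  have hZM : pCore ℓ X ≤ M := hcore.trans hCM
  have hZc : Nat.card ((pCore ℓ X).subgroupOf M) = Nat.card (pCore ℓ X) :=
    Nat.card_congr (Subgroup.subgroupOfEquivOfLe hZM).toEquiv
  have hge : padicValNat ℓ (Nat.card (pCore ℓ X)) ≤ a := by
    rw [← hZc]
    refine DLO.defect_ge (DEFA_thm TWC_thm TWN_thm) ℓ ((pCore ℓ X).subgroupOf M) ?_ hξ
      ⟨n, hn, han⟩
    intro z hz
    rw [Subgroup.mem_center_iff]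
    intro g
    apply Subtype.ext
    exact Subgroup.mem_center_iff.mp (hcore (Subgroup.mem_subgroupOf.mp hz)) g
  have hdef : HasDefect ℓ ξ (padicValNat ℓ (Nat.card (pCore ℓ X))) :=
    ⟨n, hn, by omega⟩
  have h0 := h2 X H 𝔐 ℓ h𝔐 hℓ hHH (pCore ℓ X) M hcore (isPGroup_pCore ℓ) hZM f hfs hfk χ ξ hχ
    hξ hdef hip d hd
  rw [hω] at h0
  exact hK h0

end B0F

theorem B0F_thm (h1 : Stmt_OUT1) (h2 : Stmt_DZ6) (h3 : Stmt_UMN) (h4 : Stmt_DLO) :
    Stmt_B0F := by
  classical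
  intro X _ _ ℓ _ hcore hHQ hD
  obtain ⟨𝔐, h𝔐, hℓ, d, ω, hd, hK⟩ := h4 X ℓ hcore hD
  have hA : ∀ N : Subgroup X, N.Normal → Subgroup.center X < N →
      ∃ x ∈ N, x ^ ℓ ∈ Subgroup.center X ∧ x ∉ Subgroup.center X := fun N hN hNc =>
    B0F.root h1 h2 𝔐 ℓ h𝔐 hℓ hcore hHQ d ω hd hK N hN hNc
  refine ⟨fun N hN hNc => ⟨hA N hN hNc, ?_⟩, ?_⟩
  · by_contra hcon
    push Not at hcon
    have hnil := B0F.nil_of_comm N hcon
    have hv := B0F.val_nil ℓ N hN hnil
    rw [← B0F.val_center ℓ hcore] at hv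
    obtain ⟨x, hx, hxC, hxn⟩ := hA N hN hNc
    exact hxn (B0F.root_of_val ℓ (Subgroup.center X) N inferInstance hNc.le hv x hx hxC)
  · have hne : Subgroup.center X ≠ ⊤ := by
      intro htop
      have h5 := UMN.le_val 𝔐 ℓ d (pCore ℓ X) ω hK
      have h6 := B0F.val_center ℓ hcore
      rw [htop, Subgroup.card_top] at h6
      omega
    obtain ⟨N, ⟨hN, hNc⟩, hmin⟩ :=
      Set.Finite.exists_minimal (s := {N : Subgroup X | N.Normal ∧ Subgroup.center X < N})
        (Set.toFinite _) ⟨⊤, inferInstance, lt_top_iff_ne_top.mpr hne⟩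
    refine ⟨N, hN, hNc, fun N' hN' hNc' => ?_⟩
    have h5 := h3 X ℓ hcore hHQ hD N N' hN hN' hNc hNc'
    have h6 : (N ⊓ N').Normal := inferInstance
    exact (hmin ⟨h6, h5⟩ inf_le_left).trans inf_le_right

end Pool.Agent.DPT


end

section

/-!
# The intersection of normal subgroups of a minimal counterexample in a class
-/

namespace Pool.Agent.DPK

open Pool.Agent.DP Pool.Agent.DPC Pool.Agent.DPM Pool.Agent.DPN Pool.Agent.Lib_helper13
open Representation
open Pool.Agent.Lib_helper13.Dade (pCore DadeHolds dadeSum)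

theorem UMNr_thm (Cl : ∀ (Y : Type) [Group Y], Prop) (_hC : GC Cl) (h1 : Stmt_STRNr Cl)
    (h2 : Stmt_DLO) : Stmt_UMNr Cl := by
  intro X _ _ ℓ hℓ hcore hCl hHR hD N N' hN hN' hNc hNc'
  refine lt_of_le_of_ne (le_inf hNc.le hNc'.le) fun e => ?_
  have hprime : ℓ.Prime := Fact.out
  obtain ⟨P, hPn, hNP, hP, hPi, _⟩ := h1 X ℓ hcore hCl hHR hD N hN hNc
  obtain ⟨P', hPn', hNP', hP', hPi', _⟩ := h1 X ℓ hcore hCl hHR hD N' hN' hNc'
  have hM : (P ⊓ P').Normal := inferInstance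
  have hi : ¬ ℓ ∣ (P ⊓ P').index := by
    rw [← Subgroup.relIndex_mul_index (inf_le_left : P ⊓ P' ≤ P), Subgroup.inf_relIndex_left]
    intro h
    rcases hprime.dvd_mul.mp h with h | h
    · exact hPi' (h.trans (Subgroup.relIndex_dvd_index_of_normal P' P))
    · exact hPi h
  have hp : ∀ x ∈ P ⊓ P', ∃ k : ℕ, x ^ ℓ ^ k ∈ Subgroup.center X := by
    intro x hx
    obtain ⟨k, hk⟩ := hP x hx.1
    obtain ⟨k', hk'⟩ := hP' x hx.2
    refine ⟨k + k', ?_⟩
    rw [e]
    constructor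
    · rw [pow_add, pow_mul]
      exact N.pow_mem hk _
    · rw [pow_add, mul_comm, pow_mul]
      exact N'.pow_mem hk' _
  have h3 := UMN.val_core ℓ (P ⊓ P') hM hi hp
  obtain ⟨𝔐, _, _, d, ω, hd, hK⟩ := h2 X ℓ hcore hD
  have h4 := UMN.le_val 𝔐 ℓ d (pCore ℓ X) ω hK
  omega

end Pool.Agent.DPK


end

section

/-!
# B0F for the groups of a class: the minimal normal subgroup of a minimal counterexample
-/

set_option autoImplicit false

namespace Pool.Agent.DPK

open Pool.Agent.DP Pool.Agent.DPC Pool.Agent.DPM Pool.Agent.DPN Pool.Agent.DPT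
open Pool.Agent.Lib_helper13
open Representation
open Pool.Agent.Lib_helper13.Dade (pCore DadeHolds dadeSum)

namespace B0Fr

/-- Part (1a), for the groups of a class. -/
theorem root {Cl : ∀ (Y : Type) [Group Y], Prop} (h1 : Stmt_OUT1r Cl) (h2 : Stmt_DZ6)
    {X : Type} [Group X] [Fintype X]
    (𝔐 : Ideal (integralClosure ℤ ℂ)) (ℓ : ℕ) [Fact ℓ.Prime] (h𝔐 : 𝔐.IsMaximal)
    (hℓ : (ℓ : integralClosure ℤ ℂ) ∈ 𝔐) (hcore : pCore ℓ X ≤ Subgroup.center X)
    (hCl : Cl X) (hHR : HR Cl ℓ ((Subgroup.center X).index - 1)) (d : ℕ)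
    (ω : X → (integralClosure ℤ ℂ) ⧸ 𝔐) (hd : padicValNat ℓ (Nat.card (pCore ℓ X)) < d)
    (hK : KK 𝔐 ℓ d (pCore ℓ X) ω ≠ 0) (N : Subgroup X) (hN : N.Normal)
    (hNc : Subgroup.center X < N) :
    ∃ x ∈ N, x ^ ℓ ∈ Subgroup.center X ∧ x ∉ Subgroup.center X := by
  classical
  by_contra hcon
  push Not at hcon
  have hP : 𝔐.IsPrime := h𝔐.isPrime
  obtain ⟨M, hM, hNM, hMr, H, iH, fH, f, hfs, hfk, hHH⟩ :=
    h1 X 𝔐 ℓ h𝔐 hℓ hcore hCl hHR d ω hd hK N hN hNc
  have hCM : Subgroup.center X ≤ M := hNc.le.trans hNM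
  have hMv : padicValNat ℓ (Nat.card M) = padicValNat ℓ (Nat.card (pCore ℓ X)) := by
    rw [← B0F.val_center ℓ hcore]
    apply B0F.val_of_root ℓ _ M inferInstance hCM
    intro x hx hxC
    exact hcon x (hMr x hx (hNc.le hxC)) hxC
  obtain ⟨χ, hχ, hω⟩ := B0F.exists_irr 𝔐 hℓ hK
  obtain ⟨ξ, hξ, hip⟩ := CLG.exists_under M.subtype hχ
  obtain ⟨a, n, hn, han⟩ := hξ.exists_defect (ℓ := ℓ)
  have hZM : pCore ℓ X ≤ M := hcore.trans hCM
  have hZc : Nat.card ((pCore ℓ X).subgroupOf M) = Nat.card (pCore ℓ X) :=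
    Nat.card_congr (Subgroup.subgroupOfEquivOfLe hZM).toEquiv
  have hge : padicValNat ℓ (Nat.card (pCore ℓ X)) ≤ a := by
    rw [← hZc]
    refine DLO.defect_ge (DEFA_thm TWC_thm TWN_thm) ℓ ((pCore ℓ X).subgroupOf M) ?_ hξ
      ⟨n, hn, han⟩
    intro z hz
    rw [Subgroup.mem_center_iff]
    intro g
    apply Subtype.ext
    exact Subgroup.mem_center_iff.mp (hcore (Subgroup.mem_subgroupOf.mp hz)) g
  have hdef : HasDefect ℓ ξ (padicValNat ℓ (Nat.card (pCore ℓ X))) :=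
    ⟨n, hn, by omega⟩
  have h0 := h2 X H 𝔐 ℓ h𝔐 hℓ hHH (pCore ℓ X) M hcore (isPGroup_pCore ℓ) hZM f hfs hfk χ ξ hχ
    hξ hdef hip d hd
  rw [hω] at h0
  exact hK h0

end B0Fr

theorem B0Fr_thm (Cl : ∀ (Y : Type) [Group Y], Prop) (_hC : GC Cl) (h1 : Stmt_OUT1r Cl)
    (h2 : Stmt_DZ6) (h3 : Stmt_UMNr Cl) (h4 : Stmt_DLO) : Stmt_B0Fr Cl := by
  classical
  intro X _ _ ℓ _ hcore hCl hHR hD
  obtain ⟨𝔐, h𝔐, hℓ, d, ω, hd, hK⟩ := h4 X ℓ hcore hD
  have hA : ∀ N : Subgroup X, N.Normal → Subgroup.center X < N →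
      ∃ x ∈ N, x ^ ℓ ∈ Subgroup.center X ∧ x ∉ Subgroup.center X := fun N hN hNc =>
    B0Fr.root h1 h2 𝔐 ℓ h𝔐 hℓ hcore hCl hHR d ω hd hK N hN hNc
  refine ⟨fun N hN hNc => ⟨hA N hN hNc, ?_⟩, ?_⟩
  · by_contra hcon
    push Not at hcon
    have hnil := B0F.nil_of_comm N hcon
    have hv := B0F.val_nil ℓ N hN hnil
    rw [← B0F.val_center ℓ hcore] at hv
    obtain ⟨x, hx, hxC, hxn⟩ := hA N hN hNc
    exact hxn (B0F.root_of_val ℓ (Subgroup.center X) N inferInstance hNc.le hv x hx hxC)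
  · have hne : Subgroup.center X ≠ ⊤ := by
      intro htop
      have h5 := UMN.le_val 𝔐 ℓ d (pCore ℓ X) ω hK
      have h6 := B0F.val_center ℓ hcore
      rw [htop, Subgroup.card_top] at h6
      omega
    obtain ⟨N, ⟨hN, hNc⟩, hmin⟩ :=
      Set.Finite.exists_minimal (s := {N : Subgroup X | N.Normal ∧ Subgroup.center X < N})
        (Set.toFinite _) ⟨⊤, inferInstance, lt_top_iff_ne_top.mpr hne⟩
    refine ⟨N, hN, hNc, fun N' hN' hNc' => ?_⟩
    have h5 := h3 X ℓ hcore hCl hHR hD N N' hN hN' hNc hNc'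
    have h6 : (N ⊓ N').Normal := inferInstance
    exact (hmin ⟨h6, h5⟩ inf_le_left).trans inf_le_right

end Pool.Agent.DPK


end

section

/-!
# REPJ: representatives of the orbits, vertex groups along orbits
-/

namespace Pool.Agent.DPC

open Pool.Agent.DP

open Pool.Agent.Lib_helper13

namespace REPJ

variable {O B C Y K : Type} [Group B] [Group C] [Group Y] [Group K]
  {ρ : B →* C} {p : Y →* K} {φ : Y →* Gam (Equiv.Perm O) O B} {J : Subgroup K}

theorem right_mul (x y : Y) (o : O) :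
    (φ (x * y)).right • o = (φ x).right • (φ y).right • o := by
  rw [map_mul, SemidirectProduct.mul_right, mul_smul]

theorem right_inv (x : Y) (o : O) : (φ x⁻¹).right • o = (φ x).right⁻¹ • o := by
  rw [map_inv, SemidirectProduct.inv_right]

theorem left_mul (x y : Y) (o : O) :
    (φ (x * y)).left o = (φ x).left o * (φ y).left ((φ x).right⁻¹ • o) := by
  rw [map_mul]
  rfl

theorem left_inv (x : Y) (o : O) :
    (φ x⁻¹).left o = ((φ x).left ((φ x).right • o))⁻¹ := by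
  rw [map_inv]
  change ((φ x).left ((φ x).right⁻¹⁻¹ • o))⁻¹ = _
  rw [inv_inv]

/-- The orbit relation. -/
def orel (p : Y →* K) (φ : Y →* Gam (Equiv.Perm O) O B) (J : Subgroup K) : Setoid O where
  r a b := ∃ y, p y ∈ J ∧ (φ y).right • a = b
  iseqv := by
    refine ⟨?_, ?_, ?_⟩
    · intro a
      refine ⟨1, by rw [map_one]; exact J.one_mem, ?_⟩
      rw [map_one, SemidirectProduct.one_right, one_smul]
    · rintro a b ⟨y, hy, rfl⟩
      refine ⟨y⁻¹, by rw [map_inv]; exact J.inv_mem hy, ?_⟩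
      rw [right_inv, inv_smul_smul]
    · rintro a b c ⟨x, hx, rfl⟩ ⟨y, hy, rfl⟩
      refine ⟨y * x, by rw [map_mul]; exact J.mul_mem hy hx, ?_⟩
      rw [right_mul]

theorem exists_rep : ∃ (r : O → O) (t : O → Y), RepJ p φ J r t := by
  classical
  let S := orel p φ J
  let r : O → O := fun o => Quotient.out (Quotient.mk S o)
  have hr : ∀ o, ∃ y, p y ∈ J ∧ (φ y).right • r o = o := fun o => Quotient.mk_out o
  refine ⟨r, fun o => if r o = o then 1 else (hr o).choose, ?_, ?_, ?_, ?_⟩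
  · intro o
    by_cases h : r o = o
    · simp only [h, if_true, map_one]
      exact J.one_mem
    · simp only [h, if_false]
      exact (hr o).choose_spec.1
  · intro o
    by_cases h : r o = o
    · simp only [if_pos h, map_one, SemidirectProduct.one_right, one_smul]
      exact h
    · simp only [if_neg h]
      exact (hr o).choose_spec.2
  · intro y hy o
    have h1 : Quotient.mk S ((φ y).right • o) = Quotient.mk S o := by
      symm
      exact Quotient.sound ⟨y, hy, rfl⟩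
    show Quotient.out (Quotient.mk S ((φ y).right • o)) = Quotient.out (Quotient.mk S o)
    rw [h1]
  · intro o h
    simp only [if_pos h]

theorem vg_le (hc : ∀ a b : C, a * b = b * a) {y : Y} (hy : p y ∈ J) (o : O) :
    vg ρ p φ J ((φ y).right • o) ≤ vg ρ p φ J o := by
  rintro _ ⟨z, hz, hzo, rfl⟩
  refine ⟨y⁻¹ * z * y, ?_, ?_, ?_⟩
  · rw [map_mul, map_mul, map_inv]
    exact J.mul_mem (J.mul_mem (J.inv_mem hy) hz) hy
  · rw [right_mul, right_mul, hzo, right_inv, inv_smul_smul]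
  · rw [left_mul, left_mul, left_inv]
    have h1 : (φ y⁻¹).right⁻¹ • o = (φ y).right • o := by
      rw [map_inv, SemidirectProduct.inv_right, inv_inv]
    have h2 : (φ (y⁻¹ * z)).right⁻¹ • o = (φ y).right • o := by
      rw [inv_smul_eq_iff, right_mul, hzo, right_inv, inv_smul_smul]
    rw [h1, h2, map_mul, map_mul, map_inv, hc _ (ρ ((φ z).left _)), mul_assoc, inv_mul_cancel,
      mul_one]

theorem vg_eq (hc : ∀ a b : C, a * b = b * a) {y : Y} (hy : p y ∈ J) (o : O) :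
    vg ρ p φ J ((φ y).right • o) = vg ρ p φ J o := by
  apply le_antisymm (vg_le hc hy o)
  have h1 := vg_le (ρ := ρ) (φ := φ) (J := J) hc (y := y⁻¹)
    (by rw [map_inv]; exact J.inv_mem hy) ((φ y).right • o)
  rw [right_inv, inv_smul_smul] at h1
  exact h1

end REPJ

open _root_.Pool.Agent.DPC.REPJ in
theorem REPJ_thm : Stmt_REPJ := by
  intro O G B C Y K _ _ _ _ _ _ _ _ _ _ ℓ ι κ ρ hL j p φ hE J
  have hc : ∀ a b : C, a * b = b * a := by
    have := hL.cyc
    obtain ⟨g, hg⟩ := IsCyclic.exists_generator (α := C)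
    intro a b
    obtain ⟨m, rfl⟩ := Subgroup.mem_zpowers_iff.mp (hg a)
    obtain ⟨n, rfl⟩ := Subgroup.mem_zpowers_iff.mp (hg b)
    rw [← zpow_add, ← zpow_add, add_comm]
  refine ⟨exists_rep, fun y hy o => vg_eq hc hy o, ?_⟩
  intro r t hrt
  refine ⟨?_, ?_, ?_⟩
  · intro o
    have h := hrt.con (t o) (hrt.mem o) (r o)
    rw [hrt.map o] at h
    exact h.symm
  · intro o
    have h := vg_eq (ρ := ρ) (φ := φ) hc (hrt.mem o) (r o)
    rw [hrt.map o] at h
    exact h.symm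
  · intro y hy g hg o
    set o' : O := (φ y).right⁻¹ • o with ho'
    have hyo : (φ y).right • o' = o := by rw [ho', smul_inv_smul]
    have hro : r o' = r o := by
      have h := hrt.con y hy o'
      rw [hyo] at h
      exact h.symm
    refine ⟨(t o)⁻¹ * y * t o', ?_, ?_, ?_⟩
    · rw [map_mul, map_mul, map_inv]
      exact J.mul_mem (J.mul_mem (J.inv_mem (hrt.mem o)) hy) (hrt.mem o')
    · rw [right_mul, right_mul, ← hro, hrt.map o', hyo, right_inv, inv_smul_eq_iff, hro,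
        hrt.map o]
    · rw [left_mul, left_mul, left_inv, hrt.map o]
      have h1 : (φ (t o)⁻¹).right⁻¹ • r o = o := by
        rw [map_inv, SemidirectProduct.inv_right, inv_inv, hrt.map o]
      have h2 : (φ ((t o)⁻¹ * y)).right⁻¹ • r o = o' := by
        rw [inv_smul_eq_iff, right_mul, hyo, right_inv, eq_inv_smul_iff, hrt.map o]
      rw [h1, h2]
      show _ = ρ ((g o)⁻¹ * (φ y).left o * g ((φ y).right⁻¹ • o))
      rw [map_mul, map_mul, map_inv, map_mul, map_mul, map_inv, hg o, ← ho', hg o']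

end Pool.Agent.DPC


end

section

/-!
# REPV: representatives of the orbits, vertex groups along orbits
-/

namespace Pool.Agent.DPV

open Pool.Agent.DP Pool.Agent.Lib_helper13 Representation
open Pool.Agent.Lib_helper13.Dade (pCore DadeHolds dadeSum)

namespace REPV

open Pool.Agent.DPC.REPJ

variable {O B C Y K : Type} [Group B] [Group C] [Group Y] [Group K]
  {ρ : B →* C} {p : Y →* K} {φ : Y →* Gam (Equiv.Perm O) O B} {J : Subgroup K}

/-- Conjugation with `y` maps the vertex group at `o` into the vertex group at `y o`. -/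
theorem vg_mem {y : Y} (hy : p y ∈ J) (o : O) {c : C} (hc : c ∈ vg ρ p φ J o) :
    ρ ((φ y).left ((φ y).right • o)) * c * (ρ ((φ y).left ((φ y).right • o)))⁻¹ ∈
      vg ρ p φ J ((φ y).right • o) := by
  obtain ⟨z, hz, hzo, rfl⟩ := hc
  refine ⟨y * z * y⁻¹, ?_, ?_, ?_⟩
  · rw [map_mul, map_mul, map_inv]
    exact J.mul_mem (J.mul_mem hy hz) (J.inv_mem hy)
  · rw [right_mul, right_mul, right_inv, inv_smul_smul, hzo]
  · rw [left_mul, left_mul, left_inv]
    have h1 : (φ y).right⁻¹ • (φ y).right • o = o := inv_smul_smul _ _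
    have h2 : (φ (y * z)).right⁻¹ • (φ y).right • o = o := by
      rw [inv_smul_eq_iff, right_mul, hzo]
    rw [h1, h2, map_mul, map_mul, map_inv]

theorem vg_map {y : Y} (hy : p y ∈ J) (o : O) :
    vg ρ p φ J ((φ y).right • o) =
      (vg ρ p φ J o).map
        (MulAut.conj (ρ ((φ y).left ((φ y).right • o)))).toMonoidHom := by
  ext c
  rw [Subgroup.mem_map_equiv, MulAut.conj_symm_apply]
  constructor
  · intro hc
    have h1 := vg_mem (ρ := ρ) (φ := φ) (J := J) (y := y⁻¹)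
      (by rw [map_inv]; exact J.inv_mem hy) ((φ y).right • o) hc
    rw [right_inv, inv_smul_smul, left_inv, map_inv, inv_inv] at h1
    exact h1
  · intro hc
    have h1 := vg_mem (ρ := ρ) (φ := φ) (J := J) hy o hc
    have e : ∀ a b : C, a * (a⁻¹ * b * a) * a⁻¹ = b := by
      intro a b
      group
    rw [e] at h1
    exact h1

end REPV

open Pool.Agent.DPC.REPJ in
theorem REPV_thm : Stmt_REPV := by
  intro O G B C Y K _ _ _ _ _ _ _ _ _ _ ι κ ρ hL j p φ hE J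
  refine ⟨exists_rep, fun y hy o => REPV.vg_map hy o, ?_⟩
  intro r t hrt
  refine ⟨?_, ?_, ?_⟩
  · intro o
    have h := hrt.con (t o) (hrt.mem o) (r o)
    rw [hrt.map o] at h
    exact h.symm
  · intro o
    have h := REPV.vg_map (ρ := ρ) (φ := φ) (hrt.mem o) (r o)
    rw [hrt.map o] at h
    exact h
  · intro y hy g hg o
    set o' : O := (φ y).right⁻¹ • o with ho'
    have hyo : (φ y).right • o' = o := by rw [ho', smul_inv_smul]
    have hro : r o' = r o := by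
      have h := hrt.con y hy o'
      rw [hyo] at h
      exact h.symm
    refine ⟨(t o)⁻¹ * y * t o', ?_, ?_, ?_⟩
    · rw [map_mul, map_mul, map_inv]
      exact J.mul_mem (J.mul_mem (J.inv_mem (hrt.mem o)) hy) (hrt.mem o')
    · rw [right_mul, right_mul, ← hro, hrt.map o', hyo, right_inv, inv_smul_eq_iff, hro,
        hrt.map o]
    · rw [left_mul, left_mul, left_inv, hrt.map o]
      have h1 : (φ (t o)⁻¹).right⁻¹ • r o = o := by
        rw [map_inv, SemidirectProduct.inv_right, inv_inv, hrt.map o]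
      have h2 : (φ ((t o)⁻¹ * y)).right⁻¹ • r o = o' := by
        rw [inv_smul_eq_iff, right_mul, hyo, right_inv, eq_inv_smul_iff, hrt.map o]
      rw [h1, h2]
      show _ = ρ ((g o)⁻¹ * (φ y).left o * g ((φ y).right⁻¹ • o))
      rw [map_mul, map_mul, map_inv, map_mul, map_mul, map_inv, hg o, ← ho', hg o']

end Pool.Agent.DPV


end

section

/-!
# Chains of a direct product of two normal subgroups
-/

set_option linter.unusedSectionVars false

namespace Pool.Agent.DPC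

open Pool.Agent.DP Pool.Agent.Lib_helper13

namespace JOIN

variable {Y : Type} [Group Y] {P Q : Subgroup Y}

/-- The two factors. -/
def KK (P Q : Subgroup Y) : Bool → Subgroup Y := fun b => if b then P else Q

theorem mem_E {v : Bool → Y} : v ∈ pK (KK P Q) ↔ v true ∈ P ∧ v false ∈ Q := by
  rw [mem_pK]
  constructor
  · intro h
    exact ⟨by simpa [KK] using h true, by simpa [KK] using h false⟩
  · rintro ⟨h1, h2⟩ b
    cases b
    · simpa [KK] using h2
    · simpa [KK] using h1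

theorem comm [hP : P.Normal] [hQ : Q.Normal] (hd : Q ⊓ P = ⊥) {x y : Y} (hx : x ∈ P)
    (hy : y ∈ Q) : x * y = y * x :=
  Subgroup.commute_of_normal_of_disjoint P Q hP hQ (disjoint_iff.mpr (by rw [inf_comm, hd])) x y
    hx hy

/-- The product map. -/
def mu [P.Normal] [Q.Normal] (hd : Q ⊓ P = ⊥) : pK (KK P Q) →* Y where
  toFun v := v.1 true * v.1 false
  map_one' := by simp
  map_mul' v w := by
    have h1 := comm hd (mem_E.mp w.2).1 (mem_E.mp v.2).2
    change (v.1 true * w.1 true) * (v.1 false * w.1 false)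
      = (v.1 true * v.1 false) * (w.1 true * w.1 false)
    calc (v.1 true * w.1 true) * (v.1 false * w.1 false)
        = v.1 true * (w.1 true * v.1 false) * w.1 false := by group
      _ = (v.1 true * v.1 false) * (w.1 true * w.1 false) := by rw [h1]; group

theorem mu_apply [P.Normal] [Q.Normal] (hd : Q ⊓ P = ⊥) (v : pK (KK P Q)) :
    mu hd v = v.1 true * v.1 false := rfl

theorem mu_injective [P.Normal] [Q.Normal] (hd : Q ⊓ P = ⊥) :
    Function.Injective (mu (P := P) (Q := Q) hd) := by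
  rw [injective_iff_map_eq_one]
  intro v hv
  rw [mu_apply] at hv
  obtain ⟨h1, h2⟩ := mem_E.mp v.2
  have h3 : v.1 true = (v.1 false)⁻¹ := eq_inv_of_mul_eq_one_left hv
  have h4 : v.1 true ∈ Q ⊓ P := ⟨by rw [h3]; exact Q.inv_mem h2, h1⟩
  rw [hd, Subgroup.mem_bot] at h4
  have h5 : v.1 false = 1 := by
    rw [h4, one_mul] at hv
    exact hv
  apply Subtype.ext
  ext b
  cases b
  · exact h5
  · exact h4

theorem range_mu [P.Normal] [Q.Normal] (hd : Q ⊓ P = ⊥) :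
    (mu (P := P) (Q := Q) hd).range = P ⊔ Q := by
  ext y
  rw [MonoidHom.mem_range, ← SetLike.mem_coe (p := P ⊔ Q), Subgroup.mul_normal, Set.mem_mul]
  constructor
  · rintro ⟨v, rfl⟩
    exact ⟨v.1 true, (mem_E.mp v.2).1, v.1 false, (mem_E.mp v.2).2, rfl⟩
  · rintro ⟨a, ha, b, hb, rfl⟩
    exact ⟨⟨fun c => if c then a else b, mem_E.mpr ⟨by simpa using ha, by simpa using hb⟩⟩,
      by simp [mu_apply]⟩

/-- The diagonal. -/
def dg (Y : Type) [Group Y] : Y →* (Bool → Y) where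
  toFun y := fun _ => y
  map_one' := rfl
  map_mul' _ _ := rfl

theorem conj_mem [P.Normal] [Q.Normal] (y : Y) (v : pK (KK P Q)) :
    dg Y y * v.1 * (dg Y y)⁻¹ ∈ pK (KK P Q) := by
  obtain ⟨h1, h2⟩ := mem_E.mp v.2
  exact mem_E.mpr ⟨Subgroup.Normal.conj_mem inferInstance _ h1 y,
    Subgroup.Normal.conj_mem inferInstance _ h2 y⟩

/-- Conjugation by elements of the diagonal. -/
def cj [P.Normal] [Q.Normal] (y : Y) : pK (KK P Q) →* pK (KK P Q) :=
  ((MulAut.conj (dg Y y)).toMonoidHom.comp (pK (KK P Q)).subtype).codRestrict _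
    (fun v => conj_mem y v)

theorem stb_mu [P.Normal] [Q.Normal] (hd : Q ⊓ P = ⊥)
    (ρ : Finset (Subgroup (pK (KK P Q)))) :
    stb (mapCh (mu hd) ρ) = (stb (mapCh (pK (KK P Q)).subtype ρ)).comap (dg Y) := by
  have e1 : ∀ y : Y, (MulAut.conj y).toMonoidHom.comp (mu (P := P) (Q := Q) hd)
      = (mu hd).comp (cj y) := by
    intro y
    ext v
    change y * (v.1 true * v.1 false) * y⁻¹ = (y * v.1 true * y⁻¹) * (y * v.1 false * y⁻¹)
    group
  have e2 : ∀ y : Y, (MulAut.conj (dg Y y)).toMonoidHom.comp (pK (KK P Q)).subtype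
      = (pK (KK P Q)).subtype.comp (cj y) := fun y => rfl
  have k1 : ∀ (y : Y) (D : Subgroup (pK (KK P Q))),
      (D.map (mu hd)).map (MulAut.conj y).toMonoidHom = D.map (mu hd) ↔ D.map (cj y) = D := by
    intro y D
    rw [Subgroup.map_map, e1, ← Subgroup.map_map]
    exact (Subgroup.map_injective (mu_injective hd)).eq_iff
  have k2 : ∀ (y : Y) (D : Subgroup (pK (KK P Q))),
      (D.map (pK (KK P Q)).subtype).map (MulAut.conj (dg Y y)).toMonoidHom
        = D.map (pK (KK P Q)).subtype ↔ D.map (cj y) = D := by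
    intro y D
    rw [Subgroup.map_map, e2, ← Subgroup.map_map]
    exact (Subgroup.map_injective (Subgroup.subtype_injective _)).eq_iff
  ext y
  rw [Subgroup.mem_comap, mem_stb, mem_stb]
  constructor
  · intro h D' hD'
    obtain ⟨D, hD, rfl⟩ := mem_mapCh.mp hD'
    exact (k2 y D).mpr ((k1 y D).mp (h _ (mem_mapCh.mpr ⟨D, hD, rfl⟩)))
  · intro h D' hD'
    obtain ⟨D, hD, rfl⟩ := mem_mapCh.mp hD'
    exact (k1 y D).mpr ((k2 y D).mp (h _ (mem_mapCh.mpr ⟨D, hD, rfl⟩)))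

theorem comap_stb_closed {σ : Finset (Subgroup (Bool → Y))} (hσ : ∀ D ∈ σ, cl D = D)
    [Fintype Y] : (stb σ).comap (dg Y) = stb (comp σ true) ⊓ stb (comp σ false) := by
  ext y
  rw [Subgroup.mem_comap, stb_closed hσ, mem_pK, Subgroup.mem_inf]
  constructor
  · intro h
    exact ⟨h true, h false⟩
  · rintro ⟨h1, h2⟩ b
    cases b
    · exact h2
    · exact h1

theorem le_iff_comp {σ : Finset (Subgroup (Bool → Y))} (hσ : ∀ D ∈ σ, cl D = D)
    [Fintype Y] : (∀ D ∈ σ, D ≤ pK (KK P Q)) ↔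
      (∀ D ∈ comp σ true, D ≤ P) ∧ ∀ D ∈ comp σ false, D ≤ Q := by
  have h0 : ∀ D ∈ σ, D ≤ pK (KK P Q) ↔ prj true D ≤ P ∧ prj false D ≤ Q := by
    intro D hD
    conv_lhs => rw [← hσ D hD, cl, pK_le_pK]
    constructor
    · intro h
      exact ⟨by simpa [KK] using h true, by simpa [KK] using h false⟩
    · rintro ⟨h1, h2⟩ b
      cases b
      · simpa [KK] using h2
      · simpa [KK] using h1
  constructor
  · intro h
    constructor
    · intro K hK
      obtain ⟨_, D, hD, rfl⟩ := mem_comp.mp hK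
      exact ((h0 D hD).mp (h D hD)).1
    · intro K hK
      obtain ⟨_, D, hD, rfl⟩ := mem_comp.mp hK
      exact ((h0 D hD).mp (h D hD)).2
  · rintro ⟨h1, h2⟩ D hD
    rw [h0 D hD]
    constructor
    · by_cases h : prj true D = ⊥
      · rw [h]
        exact bot_le
      · exact h1 _ (mem_comp.mpr ⟨h, D, hD, rfl⟩)
    · by_cases h : prj false D = ⊥
      · rw [h]
        exact bot_le
      · exact h2 _ (mem_comp.mpr ⟨h, D, hD, rfl⟩)

/-- Sums over pairs. -/
theorem sum_bool {α : Type*} [DecidableEq α] (S : Finset α) (f : (Bool → α) → ℚ) :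
    ∑ p ∈ Fintype.piFinset (fun _ : Bool => S), f p
      = ∑ a ∈ S, ∑ b ∈ S, f (fun c => if c then b else a) := by
  rw [← Finset.sum_product']
  symm
  apply Finset.sum_bij (fun (x : α × α) _ => fun c : Bool => if c then x.2 else x.1)
  · intro x hx
    rw [Finset.mem_product] at hx
    rw [Fintype.mem_piFinset]
    intro c
    cases c
    · simpa using hx.1
    · simpa using hx.2
  · intro x _ y _ h
    have h1 := congrFun h true
    have h2 := congrFun h false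
    exact Prod.ext (by simpa using h2) (by simpa using h1)
  · intro p hp
    rw [Fintype.mem_piFinset] at hp
    refine ⟨(p false, p true), Finset.mem_product.mpr ⟨hp _, hp _⟩, ?_⟩
    ext1 c
    cases c <;> rfl
  · intro x _
    rfl

open Classical in
/-- Sums over the chains of a subgroup. -/
theorem sum_range {A B : Type*} [Group A] [Group B] [Fintype A] [Fintype B] {i : A →* B}
    (hi : Function.Injective i) (ℓ : ℕ) (F : Finset (Subgroup B) → ℚ) :
    ∑ τ ∈ Ch ℓ (⊥ : Subgroup A), (-1 : ℚ) ^ τ.card * F (mapCh i τ)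
      = ∑ σ ∈ Ch ℓ (⊥ : Subgroup B), (-1 : ℚ) ^ σ.card
        * (if ∀ D ∈ σ, D ≤ i.range then F σ else 0) := by
  have h := sum_Ch_range hi ℓ (⊥ : Subgroup A) (fun σ => (-1 : ℚ) ^ σ.card * F σ)
  rw [Subgroup.map_bot] at h
  simp only [card_mapCh hi] at h
  rw [← h, Finset.sum_filter]
  refine Finset.sum_congr rfl fun σ _ => ?_
  split_ifs <;> simp

end JOIN

open _root_.Pool.Agent.DPC.JOIN in
theorem JOIN_thm : Stmt_JOIN := by
  classical
  intro Y N _ _ _ _ ℓ _ j M2 M hj hjn hM2n hdis hM W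
  have := hjn
  have := hM2n
  have hr : M = (mu (P := j.range) (Q := M2) hdis).range := by rw [hM, range_mu]
  subst hr
  -- the left side
  let e' := MonoidHom.ofInjective (mu_injective (P := j.range) (Q := M2) hdis)
  have hZ : (⊥ : Subgroup (mu (P := j.range) (Q := M2) hdis).range)
      = (⊥ : Subgroup (pK (KK j.range M2))).map e'.toMonoidHom := by rw [Subgroup.map_bot]
  have hsub : (mu (P := j.range) (Q := M2) hdis).range.subtype.comp e'.toMonoidHom
      = mu hdis := by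
    ext v
    rfl
  rw [hZ, sum_Ch_equiv e' ℓ ⊥ (fun τ => (-1 : ℚ) ^ τ.card
    * W (stb (mapCh (mu (P := j.range) (Q := M2) hdis).range.subtype τ)))]
  have h1 : ∀ τ : Finset (Subgroup (pK (KK j.range M2))),
      (-1 : ℚ) ^ (mapCh e'.toMonoidHom τ).card
        * W (stb (mapCh (mu (P := j.range) (Q := M2) hdis).range.subtype
          (mapCh e'.toMonoidHom τ)))
      = (-1 : ℚ) ^ τ.card * (fun σ => W ((stb σ).comap (dg Y)))
          (mapCh (pK (KK j.range M2)).subtype τ) := by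
    intro τ
    rw [card_mapCh (i := e'.toMonoidHom) e'.injective, mapCh_comp, hsub, stb_mu]
  rw [Finset.sum_congr rfl fun τ _ => h1 τ,
    sum_range (Subgroup.subtype_injective _) ℓ (fun σ => W ((stb σ).comap (dg Y)))]
  rw [sum_closed ℓ (fun σ => if ∀ D ∈ σ, D ≤ (pK (KK j.range M2)).subtype.range
    then W ((stb σ).comap (dg Y)) else 0)]
  · let Φ : (Bool → Finset (Subgroup Y)) → ℚ := fun p =>
      if (∀ D ∈ p true, D ≤ j.range) ∧ ∀ D ∈ p false, D ≤ M2 then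
        W (stb (p true) ⊓ stb (p false)) else 0
    have h2 : ∀ σ ∈ ClCh Bool Y ℓ, (-1 : ℚ) ^ σ.card
        * (if ∀ D ∈ σ, D ≤ (pK (KK j.range M2)).subtype.range
          then W ((stb σ).comap (dg Y)) else 0) = (-1 : ℚ) ^ σ.card * Φ (comp σ) := by
      intro σ hσ
      have h3 := (mem_ClCh.mp hσ).2
      rw [Subgroup.range_subtype, comap_stb_closed h3]
      simp only [le_iff_comp h3, Φ]
    rw [Finset.sum_congr rfl h2, sum_closed_comp ℓ Φ, sum_bool]
    -- the right side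
    have h4 : ∀ τ2 : Finset (Subgroup M2), ∑ τ1 ∈ Ch ℓ (⊥ : Subgroup N), (-1 : ℚ) ^ τ1.card *
        W (stb (mapCh j τ1) ⊓ stb (mapCh M2.subtype τ2))
        = (fun σ2 => ∑ σ1 ∈ Ch ℓ (⊥ : Subgroup Y), (-1 : ℚ) ^ σ1.card
          * (if ∀ D ∈ σ1, D ≤ j.range then W (stb σ1 ⊓ stb σ2) else 0))
          (mapCh M2.subtype τ2) := fun τ2 =>
      sum_range hj ℓ (fun σ1 => W (stb σ1 ⊓ stb (mapCh M2.subtype τ2)))
    simp only [h4]
    rw [sum_range (Subgroup.subtype_injective M2) ℓ (fun σ2 =>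
      ∑ σ1 ∈ Ch ℓ (⊥ : Subgroup Y), (-1 : ℚ) ^ σ1.card
          * (if ∀ D ∈ σ1, D ≤ j.range then W (stb σ1 ⊓ stb σ2) else 0))]
    refine Finset.sum_congr rfl fun a _ => ?_
    rw [Subgroup.range_subtype]
    by_cases ha : ∀ D ∈ a, D ≤ M2
    · rw [if_pos ha, Finset.mul_sum]
      refine Finset.sum_congr rfl fun b _ => ?_
      simp only [Φ, Fintype.prod_bool, if_true, Bool.false_eq_true, if_false]
      by_cases hb : ∀ D ∈ b, D ≤ j.range
      · rw [if_pos ⟨hb, ha⟩, if_pos hb]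
        ring
      · rw [if_neg (fun h => hb h.1), if_neg hb]
        ring
    · rw [if_neg ha, mul_zero]
      refine Finset.sum_eq_zero fun b _ => ?_
      simp only [Φ, if_true, Bool.false_eq_true, if_false]
      rw [if_neg (fun h => ha h.2), mul_zero]
  · intro σ _ D hD
    have h5 : (∀ D' ∈ insert (cl D) σ, D' ≤ (pK (KK j.range M2)).subtype.range) ↔
        ∀ D' ∈ σ, D' ≤ (pK (KK j.range M2)).subtype.range := by
      constructor
      · exact fun h D' hD' => h D' (Finset.mem_insert_of_mem hD')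
      · intro h D' hD'
        rcases Finset.mem_insert.mp hD' with rfl | hD'
        · have h6 := cl_mono (h D hD)
          rw [Subgroup.range_subtype] at h6 ⊢
          rwa [cl_pK] at h6
        · exact h D' hD'
    simp only [h5]
    rw [stb_insert_cl hD]

end Pool.Agent.DPC


end

section

/-!
# SNGB: the class functions modulo those which depend only on the `ℓ'`-parts, for a block of
defect one
-/

namespace Pool.Agent.DPW

open Pool.Agent.DP Pool.Agent.DPV Pool.Agent.DPB Pool.Agent.Lib_helper13 Representation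
open Pool.Agent.Lib_helper13.Dade (pCore DadeHolds dadeSum)

namespace SNGB

open Pool.Agent.DPB.SNG (lp lp_comm pow_mul_lp lp_eq_one lp_conj cent_le_nrm iN)

section

variable {ℓ : ℕ} {F H : Type} [Field F] [Group H]

theorem pg_zpowers {u : H} {j : ℕ} (h : u ^ ℓ ^ j = 1) : IsPGroup ℓ (Subgroup.zpowers u) := by
  rintro ⟨v, hv⟩
  obtain ⟨i, rfl⟩ := Subgroup.mem_zpowers_iff.mp hv
  refine ⟨j, Subtype.ext ?_⟩
  show (u ^ i) ^ ℓ ^ j = 1
  rw [← zpow_natCast, zpow_comm, zpow_natCast, h, one_zpow]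

theorem comm_zpowers {u x : H} (h : u * x = x * u) : ∀ v ∈ Subgroup.zpowers u, v * x = x * v := by
  intro v hv
  obtain ⟨i, rfl⟩ := Subgroup.mem_zpowers_iff.mp hv
  have hc : Commute u x := h
  exact (hc.zpow_left i).eq

theorem sum_fix [Fintype H] [hℓ : Fact ℓ.Prime] [CharP F ℓ] (Q : Subgroup H) (hQ : IsPGroup ℓ Q)
    (s : H → F) (hs : ∀ u ∈ Q, ∀ h, s (u * h * u⁻¹) = s h) :
    open Classical in ∑ h, s h = ∑ h, if (∀ u ∈ Q, u * h = h * u) then s h else 0 := by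
  classical
  let act : MulAction Q H :=
    { smul := fun p h => (p : H) * h * (p : H)⁻¹
      one_smul := by
        intro h
        change ((1 : Q) : H) * h * ((1 : Q) : H)⁻¹ = h
        simp
      mul_smul := by
        intro a b h
        change ((a * b : Q) : H) * h * ((a * b : Q) : H)⁻¹ = a.1 * (b.1 * h * b.1⁻¹) * a.1⁻¹
        simp [mul_assoc] }
  have hsmul : ∀ (p : Q) (h : H), p • h = (p : H) * h * (p : H)⁻¹ := fun _ _ => rfl
  have hM : ∀ m : F, ℓ • m = 0 := by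
    intro m
    rw [nsmul_eq_mul, CharP.cast_eq_zero, zero_mul]
  have h5 := sum_eq_sum_fixed hQ hM s (fun p h => by rw [hsmul]; exact hs p p.2 h)
  rw [h5, Finset.sum_filter]
  refine Finset.sum_congr rfl fun h _ => ?_
  have h6 : (∀ p : Q, p • h = h) ↔ ∀ u ∈ Q, u * h = h * u := by
    constructor
    · intro hh p hp
      have := hh ⟨p, hp⟩
      rw [hsmul] at this
      exact mul_inv_eq_iff_eq_mul.mp this
    · intro hh p
      rw [hsmul, hh p p.2, mul_inv_cancel_right]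
  by_cases hf : ∀ p : Q, p • h = h
  · rw [if_pos hf, if_pos (h6.mp hf)]
  · rw [if_neg hf, if_neg (fun h' => hf (h6.mpr h'))]

/-- Every `ℓ`-subgroup of the centralizer of `g` is conjugate into `P`. -/
def SS (ℓ : ℕ) (P : Subgroup H) (g : H) : Prop :=
  ∀ Q : Subgroup H, IsPGroup ℓ Q → (∀ u ∈ Q, u * g = g * u) → ∃ t, ∀ u ∈ Q, t * u * t⁻¹ ∈ P

theorem SS_conj {P : Subgroup H} {g : H} (h : SS ℓ P g) (t : H) : SS ℓ P (t * g * t⁻¹) := by
  intro Q hQ hc
  obtain ⟨t', ht'⟩ := h (Q.map (MulAut.conj t⁻¹).toMonoidHom) (hQ.map _) (by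
    rintro _ ⟨u, hu, rfl⟩
    show t⁻¹ * u * t⁻¹⁻¹ * g = g * (t⁻¹ * u * t⁻¹⁻¹)
    have h1 := hc u hu
    calc t⁻¹ * u * t⁻¹⁻¹ * g = t⁻¹ * (u * (t * g * t⁻¹)) * t := by group
      _ = t⁻¹ * (t * g * t⁻¹ * u) * t := by rw [h1]
      _ = _ := by group)
  refine ⟨t' * t⁻¹, fun u hu => ?_⟩
  have h2 := ht' _ ⟨u, hu, rfl⟩
  have h3 : t' * (t⁻¹ * u * t⁻¹⁻¹) * t'⁻¹ ∈ P := h2
  have h4 : t' * t⁻¹ * u * (t' * t⁻¹)⁻¹ = t' * (t⁻¹ * u * t⁻¹⁻¹) * t'⁻¹ := by group
  rw [h4]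
  exact h3

theorem SS_conj_iff {P : Subgroup H} {g : H} (t : H) : SS ℓ P (t * g * t⁻¹) ↔ SS ℓ P g := by
  refine ⟨fun h => ?_, fun h => SS_conj h t⟩
  have h1 := SS_conj h t⁻¹
  have h2 : t⁻¹ * (t * g * t⁻¹) * t⁻¹⁻¹ = g := by group
  rwa [h2] at h1

theorem SS_pow {P : Subgroup H} {g : H} {k : ℕ} (h : SS ℓ P (g ^ k)) : SS ℓ P g := by
  intro Q hQ hc
  refine h Q hQ fun u hu => ?_
  have h1 : Commute u g := hc u hu
  exact (h1.pow_right k).eq

variable (F) in
/-- The class functions which vanish outside of `SS`. -/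
def WW (ℓ : ℕ) (P : Subgroup H) : Submodule F (H → F) where
  carrier := {φ | φ ∈ CF F H ∧ ∀ g, ¬ SS ℓ P g → φ g = 0}
  zero_mem' := ⟨Submodule.zero_mem _, fun _ _ => rfl⟩
  add_mem' := by
    rintro φ ψ ⟨hφ, hφ'⟩ ⟨hψ, hψ'⟩
    refine ⟨Submodule.add_mem _ hφ hψ, fun g hg => ?_⟩
    rw [Pi.add_apply, hφ' g hg, hψ' g hg, add_zero]
  smul_mem' := by
    rintro c φ ⟨hφ, hφ'⟩
    refine ⟨Submodule.smul_mem _ c hφ, fun g hg => ?_⟩
    rw [Pi.smul_apply, hφ' g hg, smul_zero]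

theorem WW_le (P : Subgroup H) : WW F ℓ P ≤ CF F H := fun _ h => h.1

theorem Lz_mem [Fintype H] {z φ : H → F} (hz : z ∈ CF F H) (hφ : φ ∈ CF F H) :
    Lz z φ ∈ CF F H := by
  intro g x
  rw [Lz_apply, Lz_apply]
  refine Fintype.sum_equiv (MulAut.conj g⁻¹).toEquiv _ _ fun h => ?_
  show z h * φ (h * (g * x * g⁻¹)) = z (g⁻¹ * h * g⁻¹⁻¹) * φ (g⁻¹ * h * g⁻¹⁻¹ * x)
  rw [hz g⁻¹ h]
  congr 1
  rw [← hφ g⁻¹]
  congr 1
  group

theorem Lz_mem_WW [Fintype H] [Fact ℓ.Prime] [CharP F ℓ] {P : Subgroup H} {z φ : H → F}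
    (hz : z ∈ CF F H) (hsup : ∀ h, z h ≠ 0 → SS ℓ P h) (hφ : φ ∈ CF F H) :
    Lz z φ ∈ WW F ℓ P := by
  classical
  refine ⟨Lz_mem hz hφ, fun g hg => ?_⟩
  unfold SS at hg
  push Not at hg
  obtain ⟨Q, hQ, hc, hn⟩ := hg
  rw [Lz_apply, sum_fix Q hQ]
  · refine Finset.sum_eq_zero fun h _ => ?_
    by_cases hf : ∀ u ∈ Q, u * h = h * u
    · rw [if_pos hf]
      by_cases hzh : z h = 0
      · rw [hzh, zero_mul]
      · obtain ⟨t, ht⟩ := hsup h hzh Q hQ hf
        obtain ⟨u, hu, hu'⟩ := hn t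
        exact absurd (ht u hu) hu'
    · rw [if_neg hf]
  · intro u hu h
    have h1 : Commute u g := hc u hu
    have e1 : u * h * u⁻¹ * g = u * (h * g) * u⁻¹ := by
      rw [mul_assoc, h1.inv_left.eq]
      group
    rw [e1, hz, hφ]

theorem Lz_mem_CFr [Fintype H] [Fact ℓ.Prime] [CharP F ℓ] {z φ : H → F}
    (hz : z ∈ CF F H) (hφ : φ ∈ CFr ℓ F H) : Lz z φ ∈ CFr ℓ F H := by
  classical
  refine ⟨Lz_mem hz hφ.1, fun x u hxu hu => ?_⟩
  obtain ⟨j, hj⟩ := hu
  rw [← sub_eq_zero, Lz_apply, Lz_apply, ← Finset.sum_sub_distrib,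
    sum_fix (Subgroup.zpowers u) (pg_zpowers hj)]
  · refine Finset.sum_eq_zero fun h _ => ?_
    by_cases hf : ∀ v ∈ Subgroup.zpowers u, v * h = h * v
    · rw [if_pos hf]
      have h1 := hf u (Subgroup.mem_zpowers u)
      have h2 : φ (h * (x * u)) = φ (h * x) := by
        rw [← mul_assoc]
        refine hφ.2 (h * x) u ?_ ⟨j, hj⟩
        rw [mul_assoc, hxu, ← mul_assoc, ← h1, mul_assoc]
      rw [h2, sub_self]
    · rw [if_neg hf]
  · intro v hv h
    have h1 : Commute v x := comm_zpowers hxu.symm v hv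
    have h2 : Commute v u := comm_zpowers rfl v hv
    have h3 : Commute v (x * u) := h1.mul_right h2
    have e1 : v * h * v⁻¹ * (x * u) = v * (h * (x * u)) * v⁻¹ := by
      rw [mul_assoc, h3.inv_left.eq]
      group
    have e2 : v * h * v⁻¹ * x = v * (h * x) * v⁻¹ := by
      rw [mul_assoc, h1.inv_left.eq]
      group
    rw [e1, e2, hz, hφ.1, hφ.1]

theorem Lz_Lz [Fintype H] (z z' φ : H → F) : Lz z (Lz z' φ) = Lz (cvF z' z) φ := by
  funext g
  rw [Lz_apply, Lz_apply]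
  simp only [Lz_apply, cvF, Finset.mul_sum, Finset.sum_mul]
  rw [Finset.sum_comm]
  conv_rhs => rw [Finset.sum_comm]
  refine Finset.sum_congr rfl fun y _ => ?_
  symm
  refine Fintype.sum_equiv (Equiv.mulLeft y⁻¹) _ _ fun x => ?_
  show z' y * z (y⁻¹ * x) * φ (x * g) = z (y⁻¹ * x) * (z' y * φ (y * (y⁻¹ * x * g)))
  have e : y * (y⁻¹ * x * g) = x * g := by group
  rw [e]
  ring

theorem mlt_idem {V : Type} [AddCommGroup V] [Module F V] {f : Module.End F V}
    (hf : ∀ v, f (f v) = f v) {W W' : Submodule F V} (h1 : W' ≤ W) (h2 : ∀ v ∈ W, f v ∈ W') :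
    mlt W f 1 = mlt W' f 1 := by
  have key : ∀ v, v ∈ f.maxGenEigenspace 1 → f v = v := by
    intro v hv
    rw [Module.End.mem_maxGenEigenspace] at hv
    obtain ⟨n, hn⟩ := hv
    have hid : ∀ w, (f - (1 : F) • (1 : Module.End F V)) w = f w - w := by
      intro w
      rw [LinearMap.sub_apply, LinearMap.smul_apply, Module.End.one_apply, one_smul]
    have hpow : ∀ n : ℕ, ((f - (1 : F) • (1 : Module.End F V)) ^ (n + 1)) v =
        (-1 : F) ^ n • (f v - v) := by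
      intro n
      induction n with
      | zero => rw [zero_add, pow_one, hid, pow_zero, one_smul]
      | succ n ih =>
        rw [pow_succ', Module.End.mul_apply, ih, map_smul, hid, map_sub, hf, sub_self, zero_sub,
          pow_succ, mul_smul, neg_one_smul]
    rcases n with _ | n
    · rw [pow_zero, Module.End.one_apply] at hn
      rw [hn, map_zero]
    · rw [hpow] at hn
      rw [smul_eq_zero] at hn
      rcases hn with hn | hn
      · exact absurd hn (pow_ne_zero _ (neg_ne_zero.mpr one_ne_zero))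
      · exact sub_eq_zero.mp hn
  have e : f.maxGenEigenspace 1 ⊓ W = f.maxGenEigenspace 1 ⊓ W' := by
    ext v
    constructor
    · rintro ⟨h3, h4⟩
      refine ⟨h3, ?_⟩
      have h5 := h2 v h4
      rwa [key v h3] at h5
    · rintro ⟨h3, h4⟩
      exact ⟨h3, h1 h4⟩
  unfold mlt
  rw [e]

/-- `g ^ k` is the `ℓ'`-part of `g`. -/
structure EK (ℓ k : ℕ) (H : Type) [Group H] : Prop where
  idem : ∀ g : H, (g ^ k) ^ k = g ^ k
  kill : ∀ u : H, (∃ j : ℕ, u ^ ℓ ^ j = 1) → u ^ k = 1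
  sing : ∀ g : H, ∃ j : ℕ, (lp k g) ^ ℓ ^ j = 1

theorem exists_ek (ℓ : ℕ) [hℓ : Fact ℓ.Prime] (T : Type) [Group T] [Finite T] :
    ∃ k, EK ℓ k T := by
  obtain ⟨a, m, hm, hcT⟩ := Nat.exists_eq_pow_mul_and_not_dvd (n := Nat.card T)
    Nat.card_pos.ne' ℓ hℓ.out.ne_one
  have hcop0 : Nat.Coprime ℓ m := (Nat.Prime.coprime_iff_not_dvd hℓ.out).mpr hm
  have hcop : Nat.Coprime (ℓ ^ a) m := Nat.Coprime.pow_left a hcop0
  obtain ⟨k, hk0, hk1⟩ := Nat.chineseRemainder hcop 0 1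
  have hpow : ∀ (g : T) (a' b : ℕ), a' ≡ b [MOD ℓ ^ a * m] → g ^ a' = g ^ b := by
    intro g a' b h
    rw [pow_eq_pow_iff_modEq]
    refine h.of_dvd ?_
    rw [← hcT]
    exact orderOf_dvd_natCard g
  refine ⟨k, ⟨?_, ?_, ?_⟩⟩
  · intro g
    rw [← pow_mul]
    apply hpow
    rw [← Nat.modEq_and_modEq_iff_modEq_mul hcop]
    constructor
    · exact (hk0.mul hk0).trans (by simpa using hk0.symm)
    · exact (hk1.mul hk1).trans (by simpa using hk1.symm)
  · rintro u ⟨j, hj⟩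
    have h1 : orderOf u ∣ ℓ ^ j := orderOf_dvd_of_pow_eq_one hj
    have h2 : orderOf u ∣ ℓ ^ a * m := by
      rw [← hcT]
      exact orderOf_dvd_natCard u
    have h3 : Nat.Coprime (orderOf u) m :=
      Nat.Coprime.coprime_dvd_left h1 (Nat.Coprime.pow_left j hcop0)
    have h4 : orderOf u ∣ ℓ ^ a := h3.dvd_of_dvd_mul_right h2
    exact orderOf_dvd_iff_pow_eq_one.mp (h4.trans ((Nat.modEq_zero_iff_dvd).mp hk0))
  · intro g
    refine ⟨a, ?_⟩
    have h1 : Commute g (g ^ k)⁻¹ := ((Commute.refl g).pow_right k).inv_right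
    rw [Pool.Agent.DPB.SNG.lp, h1.mul_pow, inv_pow, ← pow_mul, mul_inv_eq_one]
    apply hpow
    rw [← Nat.modEq_and_modEq_iff_modEq_mul hcop]
    constructor
    · exact ((Nat.modEq_zero_iff_dvd).mpr (dvd_refl _)).trans
        ((Nat.modEq_zero_iff_dvd).mpr (dvd_mul_left _ k)).symm
    · have h := hk1.symm.mul_right (ℓ ^ a)
      rwa [one_mul] at h

variable {k : ℕ}

theorem mem_CFr_iff (e : EK ℓ k H) {φ : H → F} (hφ : φ ∈ CF F H) :
    φ ∈ CFr ℓ F H ↔ ∀ g, φ g = φ (g ^ k) := by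
  constructor
  · rintro ⟨_, h⟩ g
    have h1 := h (g ^ k) (lp k g) ((lp_comm g).pow_right k).symm.eq (e.sing g)
    rw [pow_mul_lp] at h1
    exact h1
  · intro h
    refine ⟨hφ, fun x u hxu hu => ?_⟩
    have hc : Commute x u := hxu
    rw [h (x * u), hc.mul_pow, e.kill u hu, mul_one, ← h x]

theorem lp_pow (e : EK ℓ k H) (g : H) : lp k (g ^ k) = 1 := (lp_eq_one _).mpr (e.idem g)

end

section

variable {ℓ k : ℕ} {F T : Type} [Field F] [Group T] {P : Subgroup T}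

theorem EK.toN (e : EK ℓ k T) : EK ℓ k (NP P) where
  idem g := Subtype.ext (e.idem g)
  kill u hu := by
    obtain ⟨j, hj⟩ := hu
    exact Subtype.ext (e.kill u ⟨j, congrArg Subtype.val hj⟩)
  sing g := by
    obtain ⟨j, hj⟩ := e.sing g.1
    exact ⟨j, Subtype.ext hj⟩

theorem gen [Fact ℓ.Prime] (hc : Nat.card P = ℓ) {p0 p : T} (h0 : p0 ∈ P) (h1 : p0 ≠ 1)
    (hp : p ∈ P) : ∃ j : ℤ, p0 ^ j = p := by
  have h := mem_zpowers_of_prime_card (G := P) hc (g := ⟨p0, h0⟩) (g' := ⟨p, hp⟩)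
    (fun h => h1 (congrArg Subtype.val h))
  obtain ⟨j, hj⟩ := Subgroup.mem_zpowers_iff.mp h
  exact ⟨j, congrArg Subtype.val hj⟩

/-- An element which commutes with a non trivial element of `P` centralizes `P`. -/
theorem cent_of [Fact ℓ.Prime] (hc : Nat.card P = ℓ) {p0 x : T} (h0 : p0 ∈ P) (h1 : p0 ≠ 1)
    (hx : Commute p0 x) : x ∈ Subgroup.centralizer (P : Set T) := by
  rw [Subgroup.mem_centralizer_iff]
  intro p hp
  obtain ⟨j, rfl⟩ := gen hc h0 h1 hp
  exact (hx.zpow_left j).eq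

/-- The subgroup `P` of its normalizer. -/
abbrev PN (P : Subgroup T) : Subgroup (NP P) :=
  P.subgroupOf (Subgroup.normalizer (P : Set T))

/-- The condition on the elements of the normalizer. -/
def CC (ℓ k : ℕ) (P : Subgroup T) (n : NP P) : Prop :=
  lp k (n : T) ∈ P ∧ lp k (n : T) ≠ 1 ∧ SS ℓ (PN P) n

theorem CC.cent [Fact ℓ.Prime] (hc : Nat.card P = ℓ) {n : NP P} (h : CC ℓ k P n) :
    (n : T) ∈ Subgroup.centralizer (P : Set T) :=
  cent_of hc h.1 h.2.1 (lp_comm _)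

theorem mem_P_of {t u : T} (ht : t ∈ Subgroup.normalizer (P : Set T)) (h : t * u * t⁻¹ ∈ P) :
    u ∈ P := (Subgroup.mem_normalizer_iff.mp ht u).mpr h

/-- (A1) -/
theorem a1 [Fact ℓ.Prime] (hc : Nat.card P = ℓ) {n : NP P} (h : CC ℓ k P n) :
    SS ℓ P (n : T) := by
  intro Q hQ hcom
  have h1 : ∀ u ∈ Q, u ∈ Subgroup.normalizer (P : Set T) := by
    intro u hu
    apply cent_le_nrm
    refine cent_of hc h.1 h.2.1 ?_
    have h2 : Commute u (n : T) := hcom u hu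
    exact (h2.symm.mul_left (h2.symm.pow_left k).inv_left)
  have hQ' : IsPGroup ℓ (Q.subgroupOf (Subgroup.normalizer (P : Set T))) := by
    rintro ⟨⟨v, hv⟩, hv'⟩
    obtain ⟨j, hj⟩ := hQ ⟨v, hv'⟩
    have h5 : v ^ ℓ ^ j = 1 := congrArg Subtype.val hj
    exact ⟨j, Subtype.ext (Subtype.ext h5)⟩
  obtain ⟨t, ht⟩ := h.2.2 (Q.subgroupOf (Subgroup.normalizer (P : Set T))) hQ' (by
    intro u hu
    exact Subtype.ext (hcom u hu))
  refine ⟨t, fun u hu => ?_⟩
  exact ht ⟨u, h1 u hu⟩ hu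

/-- (A2) -/
theorem a2 [Finite T] [Fact ℓ.Prime] (hc : Nat.card P = ℓ) {n : NP P}
    (hn : (n : T) ∈ Subgroup.centralizer (P : Set T)) (h : SS ℓ P (n : T)) :
    SS ℓ (PN P) n := by
  intro Q hQ hcom
  have hP : IsPGroup ℓ P := IsPGroup.of_card (n := 1) (by rw [hc, pow_one])
  have hQT : IsPGroup ℓ (Q.map (iN P)) := hQ.map _
  have hle : Q.map (iN P) ≤ Subgroup.normalizer (P : Set T) := by
    rintro _ ⟨u, _, rfl⟩
    exact u.2
  have hR : IsPGroup ℓ (Q.map (iN P) ⊔ P : Subgroup T) := hQT.to_sup_of_normal_right' hP hle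
  have hRc : (Q.map (iN P) ⊔ P : Subgroup T) ≤ Subgroup.centralizer ({(n : T)} : Set T) := by
    rw [sup_le_iff]
    constructor
    · rintro _ ⟨u, hu, rfl⟩
      rw [Subgroup.mem_centralizer_iff]
      rintro _ rfl
      exact (congrArg Subtype.val (hcom u hu)).symm
    · intro p hp
      rw [Subgroup.mem_centralizer_iff]
      rintro _ rfl
      exact (Subgroup.mem_centralizer_iff.mp hn p hp).symm
  obtain ⟨t, ht⟩ := h _ hR (fun u hu =>
    (Subgroup.mem_centralizer_iff.mp (hRc hu) (n : T) rfl).symm)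
  have htN : t ∈ Subgroup.normalizer (P : Set T) := by
    have h1 : P.map (MulAut.conj t).toMonoidHom ≤ P := by
      rintro _ ⟨p, hp, rfl⟩
      exact ht p (Subgroup.mem_sup_right hp)
    have h2 : P.map (MulAut.conj t).toMonoidHom = P := by
      apply Subgroup.eq_of_le_of_card_ge h1
      rw [Subgroup.card_map_of_injective (MulAut.conj t).injective]
    rw [Subgroup.mem_normalizer_iff]
    intro p
    constructor
    · intro hp
      exact ht p (Subgroup.mem_sup_right hp)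
    · intro hp
      rw [← h2] at hp
      obtain ⟨p', hp', e⟩ := hp
      have e' : t * p' * t⁻¹ = t * p * t⁻¹ := e
      have : p' = p := mul_left_cancel (mul_right_cancel e')
      rwa [← this]
  refine ⟨1, fun u hu => ?_⟩
  rw [one_mul, inv_one, mul_one, Subgroup.mem_subgroupOf]
  exact mem_P_of htN (ht u (Subgroup.mem_sup_left ⟨u, hu, rfl⟩))

/-- An `ℓ`-subgroup of the normalizer centralizes `P`. -/
theorem pgroup_cent [Finite T] [hℓ : Fact ℓ.Prime] (hc : Nat.card P = ℓ) {Q : Subgroup (NP P)}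
    (hQ : IsPGroup ℓ Q) : ∀ u ∈ Q, (u : T) ∈ Subgroup.centralizer (P : Set T) := by
  let act : MulAction Q P :=
    { smul := fun q p => ⟨(q.1 : T) * p * (q.1 : T)⁻¹,
        (Subgroup.mem_normalizer_iff.mp q.1.2 p.1).mp p.2⟩
      one_smul := by
        intro p
        apply Subtype.ext
        change (((1 : Q) : NP P) : T) * p * (((1 : Q) : NP P) : T)⁻¹ = p
        simp
      mul_smul := by
        intro a b p
        apply Subtype.ext
        change (((a * b : Q) : NP P) : T) * p * (((a * b : Q) : NP P) : T)⁻¹ =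
          (a.1 : T) * ((b.1 : T) * p * (b.1 : T)⁻¹) * (a.1 : T)⁻¹
        simp [mul_assoc] }
  have h1 : (1 : P) ∈ MulAction.fixedPoints Q P := by
    intro q
    apply Subtype.ext
    change (q.1 : T) * ((1 : P) : T) * (q.1 : T)⁻¹ = ((1 : P) : T)
    simp
  obtain ⟨p0, hp0, hne⟩ := hQ.exists_fixed_point_of_prime_dvd_card_of_fixed_point P
    (by rw [hc]) h1
  intro u hu
  refine cent_of hc p0.2 (fun h => hne (Subtype.ext h.symm)) ?_
  have h2 := congrArg Subtype.val (hp0 ⟨u, hu⟩)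
  have h3 : (u : T) * p0 * (u : T)⁻¹ = p0 := h2
  exact (mul_inv_eq_iff_eq_mul.mp h3).symm

/-- (A3) -/
theorem a3 [Finite T] [Fact ℓ.Prime] (hc : Nat.card P = ℓ) {n : NP P} (h : CC ℓ k P n) :
    SS ℓ (PN P) (n ^ k) := by
  intro Q hQ hcom
  refine h.2.2 Q hQ fun u hu => ?_
  apply Subtype.ext
  have h1 : Commute (u : T) ((n : T) ^ k) := congrArg Subtype.val (hcom u hu)
  have h2 : Commute (u : T) (lp k (n : T)) :=
    (Subgroup.mem_centralizer_iff.mp (pgroup_cent hc hQ u hu) _ h.1).symm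
  have h3 := h1.mul_right h2
  rw [pow_mul_lp] at h3
  exact h3.eq

/-- (A4) -/
theorem a4 [Finite T] [Fact ℓ.Prime] (hc : Nat.card P = ℓ) (e : EK ℓ k T) {g : T}
    (h : SS ℓ P g) (hg : lp k g ≠ 1) :
    ∃ (t : T) (n : NP P), t * g * t⁻¹ = n ∧ CC ℓ k P n := by
  obtain ⟨j, hj⟩ := e.sing g
  obtain ⟨t, ht⟩ := h (Subgroup.zpowers (lp k g)) (pg_zpowers hj) (comm_zpowers (lp_comm g).eq)
  have h1 := ht _ (Subgroup.mem_zpowers _)
  rw [← lp_conj] at h1
  have h2 : lp k (t * g * t⁻¹) ≠ 1 := by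
    rw [lp_conj]
    intro h'
    exact hg (conj_eq_one_iff.mp h')
  have h3 := cent_of hc h1 h2 (lp_comm _)
  refine ⟨t, ⟨t * g * t⁻¹, cent_le_nrm h3⟩, rfl, h1, h2, a2 hc h3 (SS_conj h t)⟩

/-- (A5) -/
theorem a5 (e : EK ℓ k T) {n : NP P} (h : SS ℓ (PN P) n) (hn : lp k (n : T) ≠ 1) :
    CC ℓ k P n := by
  obtain ⟨j, hj⟩ := (e.toN (P := P)).sing n
  obtain ⟨t, ht⟩ := h (Subgroup.zpowers (lp k n)) (pg_zpowers hj) (comm_zpowers (lp_comm n).eq)
  have h1 := ht _ (Subgroup.mem_zpowers _)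
  have h2 : (t : T) * lp k (n : T) * (t : T)⁻¹ ∈ P := h1
  exact ⟨mem_P_of t.2 h2, hn, h⟩

/-- (A6) -/
theorem a6 [Fact ℓ.Prime] (hc : Nat.card P = ℓ) {n n' : NP P} {t : T} (hn : CC ℓ k P n)
    (hn' : CC ℓ k P n') (ht : t * (n : T) * t⁻¹ = n') :
    t ∈ Subgroup.normalizer (P : Set T) := by
  have h4 : t * lp k (n : T) * t⁻¹ = lp k (n' : T) := by rw [← lp_conj, ht]
  rw [Subgroup.mem_normalizer_iff]
  intro p
  constructor
  · intro hp
    obtain ⟨j, rfl⟩ := gen hc hn.1 hn.2.1 hp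
    rw [← conj_zpow, h4]
    exact P.zpow_mem hn'.1 j
  · intro hp
    obtain ⟨j, hj⟩ := gen hc hn'.1 hn'.2.1 hp
    rw [← h4, conj_zpow] at hj
    have h6 : lp k (n : T) ^ j = p := by
      have := mul_right_cancel hj
      exact mul_left_cancel this
    rw [← h6]
    exact P.zpow_mem hn.1 j

theorem CC_conj {n : NP P} (s : NP P) (h : CC ℓ k P n) : CC ℓ k P (s * n * s⁻¹) := by
  refine ⟨?_, ?_, SS_conj h.2.2 s⟩
  · show lp k ((s : T) * n * (s : T)⁻¹) ∈ P
    rw [lp_conj]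
    exact (Subgroup.mem_normalizer_iff.mp s.2 _).mp h.1
  · show lp k ((s : T) * n * (s : T)⁻¹) ≠ 1
    rw [lp_conj]
    intro h'
    exact h.2.1 (conj_eq_one_iff.mp h')

theorem CC_conj_iff {n : NP P} (s : NP P) : CC ℓ k P (s * n * s⁻¹) ↔ CC ℓ k P n := by
  refine ⟨fun h => ?_, CC_conj s⟩
  have h1 := CC_conj s⁻¹ h
  have h2 : s⁻¹ * (s * n * s⁻¹) * s⁻¹⁻¹ = n := by group
  rwa [h2] at h1

theorem not_CC_pow (e : EK ℓ k T) (n : NP P) : ¬ CC ℓ k P (n ^ k) := by
  intro h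
  exact h.2.1 (lp_pow e (n : T))

open Classical in
/-- The difference of a function and its values at the `ℓ'`-parts. -/
noncomputable def DD (F : Type) [Field F] (ℓ k : ℕ) (P : Subgroup T) {H : Type} [Group H]
    (i : NP P →* H) : (H → F) →ₗ[F] (NP P → F) where
  toFun φ := fun n => if CC ℓ k P n then φ (i n) - φ (i n ^ k) else 0
  map_add' φ ψ := by
    funext n
    simp only [Pi.add_apply]
    split_ifs
    · ring
    · ring
  map_smul' c φ := by
    funext n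
    simp only [Pi.smul_apply, smul_eq_mul, RingHom.id_apply]
    split_ifs
    · ring
    · ring

theorem DD_pos {H : Type} [Group H] (i : NP P →* H) (φ : H → F) {n : NP P}
    (h : CC ℓ k P n) : DD F ℓ k P i φ n = φ (i n) - φ (i n ^ k) := if_pos h

theorem DD_neg {H : Type} [Group H] (i : NP P →* H) (φ : H → F) {n : NP P}
    (h : ¬ CC ℓ k P n) : DD F ℓ k P i φ n = 0 := if_neg h

theorem DD_CFr {H : Type} [Group H] (e : EK ℓ k H) (i : NP P →* H) {φ : H → F}
    (h : φ ∈ CFr ℓ F H) : DD F ℓ k P i φ = 0 := by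
  funext n
  by_cases hn : CC ℓ k P n
  · rw [DD_pos i φ hn, ← (mem_CFr_iff e h.1).mp h, sub_self, Pi.zero_apply]
  · rw [DD_neg i φ hn, Pi.zero_apply]

theorem part_one [Finite T] [Fact ℓ.Prime] (hc : Nat.card P = ℓ) (e : EK ℓ k T) :
    WW F ℓ P ⊓ LinearMap.ker (DD F ℓ k P (iN P)) = WW F ℓ P ⊓ CFr ℓ F T := by
  ext φ
  constructor
  · rintro ⟨h1, h2⟩
    refine ⟨h1, ?_⟩
    rw [SetLike.mem_coe, mem_CFr_iff e h1.1]
    intro g
    by_cases hg : lp k g = 1
    · rw [(lp_eq_one g).mp hg]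
    · by_cases hs : SS ℓ P g
      · obtain ⟨t, n, ht, hn⟩ := a4 hc e hs hg
        have h3 := congrFun (LinearMap.mem_ker.mp h2) n
        rw [DD_pos (iN P) φ hn, Pi.zero_apply, sub_eq_zero] at h3
        have h4 : φ (n : T) = φ ((n : T) ^ k) := h3
        rw [← ht, conj_pow, h1.1, h1.1] at h4
        exact h4
      · rw [h1.2 g hs, h1.2 (g ^ k) fun h' => hs (SS_pow h')]
  · rintro ⟨h1, h2⟩
    exact ⟨h1, LinearMap.mem_ker.mpr (DD_CFr e (iN P) h2)⟩

theorem part_two (e : EK ℓ k T) :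
    WW F ℓ (PN P) ⊓ LinearMap.ker (DD F ℓ k P (MonoidHom.id (NP P))) =
      WW F ℓ (PN P) ⊓ CFr ℓ F (NP P) := by
  ext φ
  constructor
  · rintro ⟨h1, h2⟩
    refine ⟨h1, ?_⟩
    rw [SetLike.mem_coe, mem_CFr_iff e.toN h1.1]
    intro g
    by_cases hg : lp k (g : T) = 1
    · have h3 : g ^ k = g := Subtype.ext ((lp_eq_one (g : T)).mp hg)
      rw [h3]
    · by_cases hs : SS ℓ (PN P) g
      · have h3 := congrFun (LinearMap.mem_ker.mp h2) g
        rw [DD_pos _ φ (a5 e hs hg), Pi.zero_apply, sub_eq_zero] at h3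
        exact h3
      · rw [h1.2 g hs, h1.2 (g ^ k) fun h' => hs (SS_pow h')]
  · rintro ⟨h1, h2⟩
    exact ⟨h1, LinearMap.mem_ker.mpr (DD_CFr e.toN _ h2)⟩

open Classical in
/-- The restriction to the normalizer, cut off outside of `SS`. -/
noncomputable def rs (ℓ : ℕ) (P : Subgroup T) (φ : T → F) (n : NP P) : F :=
  if SS ℓ (PN P) n then φ n else 0

theorem rs_pos {φ : T → F} {n : NP P} (h : SS ℓ (PN P) n) : rs ℓ P φ n = φ n := if_pos h

theorem rs_neg {φ : T → F} {n : NP P} (h : ¬ SS ℓ (PN P) n) : rs ℓ P φ n = 0 := if_neg h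

theorem rs_mem {φ : T → F} (hφ : φ ∈ CF F T) : rs ℓ P φ ∈ WW F ℓ (PN P) := by
  refine ⟨fun g x => ?_, fun g hg => rs_neg hg⟩
  by_cases h : SS ℓ (PN P) x
  · rw [rs_pos h, rs_pos (SS_conj h g)]
    exact hφ g x
  · rw [rs_neg h, rs_neg fun h' => h ((SS_conj_iff g).mp h')]

theorem DD_rs [Finite T] [Fact ℓ.Prime] (hc : Nat.card P = ℓ) (φ : T → F) :
    DD F ℓ k P (iN P) φ = DD F ℓ k P (MonoidHom.id (NP P)) (rs ℓ P φ) := by
  funext n
  by_cases hn : CC ℓ k P n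
  · rw [DD_pos _ _ hn, DD_pos _ _ hn, MonoidHom.id_apply, rs_pos hn.2.2, rs_pos (a3 hc hn)]
    rfl
  · rw [DD_neg _ _ hn, DD_neg _ _ hn]

open Classical in
/-- The function on `T` which corresponds to a function on the normalizer. -/
noncomputable def lft (ℓ k : ℕ) (P : Subgroup T) (x : NP P → F) (g : T) : F :=
  if h : ∃ n : NP P, CC ℓ k P n ∧ ∃ t : T, t * g * t⁻¹ = n then x h.choose else 0

theorem lft_of [Fact ℓ.Prime] (hc : Nat.card P = ℓ) {x : NP P → F} (hx : x ∈ CF F (NP P))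
    {g t : T} {n : NP P} (h1 : CC ℓ k P n) (ht : t * g * t⁻¹ = n) : lft ℓ k P x g = x n := by
  have h : ∃ n : NP P, CC ℓ k P n ∧ ∃ t : T, t * g * t⁻¹ = n := ⟨n, h1, t, ht⟩
  rw [lft, dif_pos h]
  obtain ⟨h3, t', ht'⟩ := h.choose_spec
  have h2 : (t * t'⁻¹) * (h.choose : T) * (t * t'⁻¹)⁻¹ = (n : T) := by
    rw [← ht', ← ht]
    group
  have h4 := a6 hc h3 h1 h2
  have h5 := hx ⟨t * t'⁻¹, h4⟩ h.choose
  rw [← h5]
  congr 1
  exact Subtype.ext h2

theorem lft_of_not {x : NP P → F} {g : T} (h1 : ¬ ∃ n : NP P, CC ℓ k P n ∧ ∃ t : T,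
    t * g * t⁻¹ = n) : lft ℓ k P x g = 0 := by
  rw [lft, dif_neg h1]

theorem lft_mem [Fact ℓ.Prime] (hc : Nat.card P = ℓ) {x : NP P → F} (hx : x ∈ CF F (NP P)) :
    lft ℓ k P x ∈ WW F ℓ P := by
  refine ⟨fun s g => ?_, fun g hg => ?_⟩
  · by_cases h : ∃ n : NP P, CC ℓ k P n ∧ ∃ t : T, t * g * t⁻¹ = n
    · obtain ⟨n, hn, t, ht⟩ := h
      have h2 : (t * s⁻¹) * (s * g * s⁻¹) * (t * s⁻¹)⁻¹ = n := by
        rw [← ht]
        group
      rw [lft_of hc hx hn ht, lft_of hc hx hn h2]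
    · rw [lft_of_not h, lft_of_not]
      rintro ⟨n, hn, t, ht⟩
      refine h ⟨n, hn, t * s, ?_⟩
      rw [← ht]
      group
  · apply lft_of_not
    rintro ⟨n, hn, t, ht⟩
    apply hg
    rw [← SS_conj_iff t, ht]
    exact a1 hc hn

theorem part_three [Finite T] [Fact ℓ.Prime] (hc : Nat.card P = ℓ) (e : EK ℓ k T) :
    (WW F ℓ P).map (DD F ℓ k P (iN P)) =
      (WW F ℓ (PN P)).map (DD F ℓ k P (MonoidHom.id (NP P))) := by
  ext x
  rw [Submodule.mem_map, Submodule.mem_map]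
  constructor
  · rintro ⟨φ, hφ, rfl⟩
    exact ⟨rs ℓ P φ, rs_mem hφ.1, (DD_rs hc φ).symm⟩
  · rintro ⟨φ, hφ, rfl⟩
    have hx : DD F ℓ k P (MonoidHom.id (NP P)) φ ∈ CF F (NP P) := by
      intro g x
      by_cases h : CC ℓ k P x
      · rw [DD_pos _ _ h, DD_pos _ _ (CC_conj g h), MonoidHom.id_apply, MonoidHom.id_apply,
          conj_pow, hφ.1, hφ.1]
      · rw [DD_neg _ _ h, DD_neg _ _ fun h' => h ((CC_conj_iff g).mp h')]
    refine ⟨lft ℓ k P (DD F ℓ k P (MonoidHom.id (NP P)) φ), lft_mem hc hx, ?_⟩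
    funext n
    by_cases hn : CC ℓ k P n
    · have h2 : lft ℓ k P (DD F ℓ k P (MonoidHom.id (NP P)) φ) (iN P n ^ k) = 0 := by
        apply lft_of_not
        rintro ⟨n', hn', t, ht⟩
        apply hn'.2.1
        rw [← ht, lp_conj]
        have h3 : lp k (iN P n ^ k) = 1 := lp_pow e _
        rw [h3]
        group
      rw [DD_pos _ _ hn, h2, sub_zero]
      exact lft_of hc hx hn (t := 1) (by
        show 1 * (n : T) * 1⁻¹ = n
        group)
    · rw [DD_neg _ _ hn, DD_neg _ _ hn]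

end

section

variable {ℓ k : ℕ} {F T : Type} [Field F] [Group T] {P : Subgroup T} [Fintype (NP P)]

theorem part_five [Fact ℓ.Prime] [CharP F ℓ] (e : EK ℓ k T) {z : NP P → F}
    (hz : z ∈ CF F (NP P)) {φ : NP P → F} (hφ : φ ∈ WW F ℓ (PN P)) :
    DD F ℓ k P (MonoidHom.id (NP P)) (Lz z φ) =
      (DD F ℓ k P (MonoidHom.id (NP P)) ∘ₗ Lz z) (DD F ℓ k P (MonoidHom.id (NP P)) φ) := by
  have h1 : φ - DD F ℓ k P (MonoidHom.id (NP P)) φ ∈ CFr ℓ F (NP P) := by
    have hcf : φ - DD F ℓ k P (MonoidHom.id (NP P)) φ ∈ CF F (NP P) := by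
      apply Submodule.sub_mem _ hφ.1
      intro g x
      by_cases h : CC ℓ k P x
      · rw [DD_pos _ _ h, DD_pos _ _ (CC_conj g h), MonoidHom.id_apply, MonoidHom.id_apply,
          conj_pow, hφ.1, hφ.1]
      · rw [DD_neg _ _ h, DD_neg _ _ fun h' => h ((CC_conj_iff g).mp h')]
    rw [mem_CFr_iff e.toN hcf]
    intro g
    rw [Pi.sub_apply, Pi.sub_apply, DD_neg _ _ (not_CC_pow e g), sub_zero]
    by_cases h : CC ℓ k P g
    · rw [DD_pos _ _ h, MonoidHom.id_apply, sub_sub_cancel]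
    · rw [DD_neg _ _ h, sub_zero]
      by_cases hg : lp k (g : T) = 1
      · have h3 : g ^ k = g := Subtype.ext ((lp_eq_one (g : T)).mp hg)
        rw [h3]
      · have hs : ¬ SS ℓ (PN P) g := fun h' => h (a5 e h' hg)
        rw [hφ.2 g hs, hφ.2 (g ^ k) fun h' => hs (SS_pow h')]
  have h2 := DD_CFr e.toN (MonoidHom.id (NP P)) (Lz_mem_CFr hz h1)
  rw [map_sub, map_sub, sub_eq_zero] at h2
  rw [LinearMap.comp_apply]
  exact h2

theorem Lz_eq [Fintype T] [Fact ℓ.Prime] [CharP F ℓ] (hc : Nat.card P = ℓ) {z : T → F}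
    (hz : z ∈ CF F T) {φ : T → F} (hφ : φ ∈ WW F ℓ P) {m : NP P}
    (hm : (m : T) ∈ Subgroup.centralizer (P : Set T)) :
    Lz z φ (m : T) = Lz (brz P z) (rs ℓ P φ) m := by
  classical
  rw [Lz_apply, Lz_apply]
  have hP : IsPGroup ℓ P := IsPGroup.of_card (n := 1) (by rw [hc, pow_one])
  rw [sum_fix P hP]
  · symm
    refine Fintype.sum_of_injective (fun h : NP P => (h : T)) Subtype.val_injective _ _ ?_ ?_
    · intro h hh
      rw [if_neg]
      intro hf
      apply hh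
      exact ⟨⟨h, cent_le_nrm (Subgroup.mem_centralizer_iff.mpr hf)⟩, rfl⟩
    · intro h
      by_cases hh : (h : T) ∈ Subgroup.centralizer (P : Set T)
      · have hh' : ∀ u ∈ P, u * (h : T) = h * u := Subgroup.mem_centralizer_iff.mp hh
        rw [if_pos hh', brz, if_pos hh]
        congr 1
        by_cases hs : SS ℓ (PN P) (h * m)
        · rw [rs_pos hs]
          rfl
        · rw [rs_neg hs]
          symm
          apply hφ.2
          intro h'
          exact hs (a2 hc (n := h * m) (Subgroup.mul_mem _ hh hm) h')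
      · have hh' : ¬ ∀ u ∈ P, u * (h : T) = h * u := fun h' =>
          hh (Subgroup.mem_centralizer_iff.mpr h')
        rw [if_neg hh', brz, if_neg hh, zero_mul]
  · intro u hu h
    have h1 : Commute u (m : T) := Subgroup.mem_centralizer_iff.mp hm u hu
    have e1 : u * h * u⁻¹ * m = u * (h * m) * u⁻¹ := by
      rw [mul_assoc, h1.inv_left.eq]
      group
    rw [e1, hz, hφ.1]

theorem part_four [Fintype T] [Fact ℓ.Prime] [CharP F ℓ] (hc : Nat.card P = ℓ) {z : T → F}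
    (hz : z ∈ CF F T) {φ : T → F} (hφ : φ ∈ WW F ℓ P) :
    DD F ℓ k P (iN P) (Lz z φ) =
      DD F ℓ k P (MonoidHom.id (NP P)) (Lz (brz P z) (rs ℓ P φ)) := by
  funext n
  by_cases hn : CC ℓ k P n
  · rw [DD_pos _ _ hn, DD_pos _ _ hn, MonoidHom.id_apply]
    have hcn := hn.cent hc
    have h1 := Lz_eq (m := n) hc hz hφ hcn
    have h2 := Lz_eq (m := n ^ k) hc hz hφ (Subgroup.pow_mem _ hcn k)
    rw [← h1, ← h2]
    rfl
  · rw [DD_neg _ _ hn, DD_neg _ _ hn]

end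

end SNGB

open _root_.Pool.Agent.DPW.SNGB in
theorem SNGB_thm (h1 : Stmt_SUPB) (h2 : Stmt_BKN) : Stmt_SNGB := by
  intro ℓ _ F T _ _ _ _ P _ x₀ e hB
  obtain ⟨k, ek⟩ := exists_ek ℓ T
  have hx : x₀ ∈ Subgroup.normalizer (P : Set T) :=
    Pool.Agent.DPB.SNG.cent_le_nrm (Subgroup.mem_centralizer_iff.mpr fun u hu => hB.cen u hu)
  have hBN := h2 ℓ F T P x₀ e hB hx
  have hs1 : ∀ h, e h ≠ 0 → SS ℓ P h := fun h hh => h1 ℓ F T P x₀ e hB h hh
  have hs2 : ∀ h, brz P e h ≠ 0 → SS ℓ (PN P) h := fun h hh =>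
    h1 ℓ F (NP P) (PN P) ⟨x₀, hx⟩ (brz P e) hBN h hh
  have hi1 : ∀ v, Lz e (Lz e v) = Lz e v := fun v => by rw [Lz_Lz, hB.idem]
  have hi2 : ∀ v, Lz (brz P e) (Lz (brz P e) v) = Lz (brz P e) v := fun v => by
    rw [Lz_Lz, hBN.idem]
  have m1 : mlt (CF F T) (Lz e) 1 = mlt (WW F ℓ P) (Lz e) 1 :=
    mlt_idem hi1 (WW_le P) fun v hv => Lz_mem_WW hB.cf hs1 hv
  have m2 : mlt (CFr ℓ F T) (Lz e) 1 = mlt (WW F ℓ P ⊓ CFr ℓ F T) (Lz e) 1 :=
    mlt_idem hi1 inf_le_right fun v hv => ⟨Lz_mem_WW hB.cf hs1 hv.1, Lz_mem_CFr hB.cf hv⟩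
  have m3 : mlt (CF F (NP P)) (Lz (brz P e)) 1 = mlt (WW F ℓ (PN P)) (Lz (brz P e)) 1 :=
    mlt_idem hi2 (WW_le _) fun v hv => Lz_mem_WW hBN.cf hs2 hv
  have m4 : mlt (CFr ℓ F (NP P)) (Lz (brz P e)) 1 =
      mlt (WW F ℓ (PN P) ⊓ CFr ℓ F (NP P)) (Lz (brz P e)) 1 :=
    mlt_idem hi2 inf_le_right fun v hv => ⟨Lz_mem_WW hBN.cf hs2 hv.1, Lz_mem_CFr hBN.cf hv⟩
  have l1 := LIN_thm F (T → F) (NP P → F) (Lz e)
    (DD F ℓ k P (MonoidHom.id (NP P)) ∘ₗ Lz (brz P e))
    (DD F ℓ k P (Pool.Agent.DPB.SNG.iN P)) (WW F ℓ P)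
    (fun v hv => Lz_mem_WW hB.cf hs1 hv.1) (fun v hv => by
      rw [part_four hB.card hB.cf hv, DD_rs hB.card v]
      exact part_five ek hBN.cf (rs_mem hv.1)) 1
  have l2 := LIN_thm F (NP P → F) (NP P → F) (Lz (brz P e))
    (DD F ℓ k P (MonoidHom.id (NP P)) ∘ₗ Lz (brz P e))
    (DD F ℓ k P (MonoidHom.id (NP P))) (WW F ℓ (PN P))
    (fun v hv => Lz_mem_WW hBN.cf hs2 hv.1) (fun v hv => part_five ek hBN.cf hv) 1
  rw [part_one hB.card ek, part_three hB.card ek] at l1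
  rw [part_two ek] at l2
  rw [m1, m2, m3, m4, l1, l2]
  ring

end Pool.Agent.DPW


end

section

/-!
# Theorem X, SNGX: the class functions modulo those which depend only on the `ℓ'`-parts
-/

namespace Pool.Agent.DPX

open Pool.Agent.DP Pool.Agent.DPV Pool.Agent.DPB Pool.Agent.DPW Pool.Agent.Lib_helper13
open Representation

namespace SNGX

open Pool.Agent.DPB.SNG (lp lp_comm pow_mul_lp lp_eq_one lp_conj cent_le_nrm iN)
open Pool.Agent.DPW.SNGB (pg_zpowers comm_zpowers sum_fix SS SS_conj SS_conj_iff SS_pow WW WW_le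
  Lz_mem Lz_mem_WW Lz_mem_CFr Lz_Lz mlt_idem EK exists_ek mem_CFr_iff lp_pow)

/-- The data of a cyclic `ℓ`-subgroup `P` with its subgroup `P₁` of order `ℓ`. -/
structure GD (ℓ : ℕ) {T : Type} [Group T] (P₁ P : Subgroup T) : Prop where
  le : P₁ ≤ P
  c1 : Nat.card P₁ = ℓ
  cyc : IsCyclic P
  g1 : ∀ R : Subgroup T, IsCyclic R → P₁ ≤ R → ∀ Q ≤ R, Nat.card Q = ℓ → Q = P₁
  g2 : ∀ p ∈ P, p ≠ 1 → P₁ ≤ Subgroup.zpowers p
  g4 : ∀ t : T, (∀ u ∈ P₁, u * t = t * u) →
      (∀ Q : Subgroup T, IsPGroup ℓ Q → Q ≤ Subgroup.normalizer (P₁ : Set T) →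
        (∀ u ∈ Q, u * t = t * u) → IsCyclic Q) →
      ∀ Q : Subgroup T, IsPGroup ℓ Q → (∀ u ∈ Q, u * t = t * u) →
        ∃ c, c * t = t * c ∧ ∀ u ∈ Q, c * u * c⁻¹ ∈ Subgroup.normalizer (P₁ : Set T)

section

variable {ℓ k : ℕ} {F T : Type} [Field F] [Group T] {P₁ P : Subgroup T}

/-- The subgroup `P` in the normalizer of `P₁`. -/
abbrev QN (P₁ P : Subgroup T) : Subgroup (NP P₁) :=
  P.subgroupOf (Subgroup.normalizer (P₁ : Set T))

/-- The condition on the elements of the normalizer. -/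
def CX (ℓ k : ℕ) (P₁ P : Subgroup T) (n : NP P₁) : Prop :=
  P₁ ≤ Subgroup.zpowers (lp k (n : T)) ∧ SS ℓ (QN P₁ P) n

/-- An element which commutes with `p` centralizes the subgroup `P₁` of `⟨p⟩`. -/
theorem cent_of_le {p x : T} (h : P₁ ≤ Subgroup.zpowers p) (hx : Commute p x) :
    x ∈ Subgroup.centralizer (P₁ : Set T) := by
  rw [Subgroup.mem_centralizer_iff]
  intro q hq
  obtain ⟨j, rfl⟩ := Subgroup.mem_zpowers_iff.mp (h hq)
  exact (hx.zpow_left j).eq

theorem CX.cent {n : NP P₁} (h : CX ℓ k P₁ P n) :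
    (n : T) ∈ Subgroup.centralizer (P₁ : Set T) :=
  cent_of_le h.1 (lp_comm _)

theorem le_zp_conj {s : T} (hs : s ∈ Subgroup.normalizer (P₁ : Set T)) {p : T}
    (h : P₁ ≤ Subgroup.zpowers p) : P₁ ≤ Subgroup.zpowers (s * p * s⁻¹) := by
  intro q hq
  have h1 : s⁻¹ * q * s ∈ P₁ := by
    rw [Subgroup.mem_normalizer_iff.mp hs]
    have e : s * (s⁻¹ * q * s) * s⁻¹ = q := by group
    rw [e]
    exact hq
  obtain ⟨j, hj⟩ := Subgroup.mem_zpowers_iff.mp (h h1)
  refine Subgroup.mem_zpowers_iff.mpr ⟨j, ?_⟩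
  rw [conj_zpow, hj]
  group

theorem nrm_of (d : GD ℓ P₁ P) {t : T} {R : Subgroup T} (hR : IsCyclic R) (h1 : P₁ ≤ R)
    (h : ∀ u ∈ P₁, t * u * t⁻¹ ∈ R) : t ∈ Subgroup.normalizer (P₁ : Set T) := by
  have e1 : P₁.map (MulAut.conj t).toMonoidHom = P₁ := by
    apply d.g1 R hR h1
    · rintro _ ⟨p, hp, rfl⟩
      exact h p hp
    · rw [Subgroup.card_map_of_injective (MulAut.conj t).injective]
      exact d.c1
  rw [Subgroup.mem_normalizer_iff]
  intro p
  constructor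
  · intro hp
    rw [← e1]
    exact ⟨p, hp, rfl⟩
  · intro hp
    rw [← e1] at hp
    obtain ⟨p', hp', e⟩ := hp
    have e' : t * p' * t⁻¹ = t * p * t⁻¹ := e
    have : p' = p := mul_left_cancel (mul_right_cancel e')
    rwa [← this]

/-- (A1) -/
theorem a1 (d : GD ℓ P₁ P) {n : NP P₁} (hn : (n : T) ∈ Subgroup.centralizer (P₁ : Set T))
    (h : SS ℓ (QN P₁ P) n) : SS ℓ P (n : T) := by
  have key : ∀ Q : Subgroup T, IsPGroup ℓ Q → Q ≤ Subgroup.normalizer (P₁ : Set T) →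
      (∀ u ∈ Q, u * (n : T) = n * u) → ∃ t : T, ∀ u ∈ Q, t * u * t⁻¹ ∈ P := by
    intro Q hQ hle hcom
    have hQ' : IsPGroup ℓ (Q.subgroupOf (Subgroup.normalizer (P₁ : Set T))) := by
      rintro ⟨⟨v, hv⟩, hv'⟩
      obtain ⟨j, hj⟩ := hQ ⟨v, hv'⟩
      have h5 : v ^ ℓ ^ j = 1 := congrArg Subtype.val hj
      exact ⟨j, Subtype.ext (Subtype.ext h5)⟩
    obtain ⟨t, ht⟩ := h (Q.subgroupOf (Subgroup.normalizer (P₁ : Set T))) hQ' (by
      intro u hu
      exact Subtype.ext (hcom u hu))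
    exact ⟨t, fun u hu => ht ⟨u, hle hu⟩ hu⟩
  have hcyc : ∀ Q : Subgroup T, IsPGroup ℓ Q → Q ≤ Subgroup.normalizer (P₁ : Set T) →
      (∀ u ∈ Q, u * (n : T) = n * u) → IsCyclic Q := by
    intro Q hQ hle hcom
    obtain ⟨t, ht⟩ := key Q hQ hle hcom
    have hcP : IsCyclic P := d.cyc
    let f : Q →* P :=
      ((MulAut.conj t).toMonoidHom.comp Q.subtype).codRestrict P fun u => ht u u.2
    refine isCyclic_of_injective f ?_
    intro a b hab
    have h1 : t * (a : T) * t⁻¹ = t * (b : T) * t⁻¹ := congrArg Subtype.val hab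
    exact Subtype.ext (mul_left_cancel (mul_right_cancel h1))
  intro Q hQ hcom
  obtain ⟨c, hc, hcN⟩ := d.g4 n (fun u hu => Subgroup.mem_centralizer_iff.mp hn u hu) hcyc Q hQ hcom
  obtain ⟨t, ht⟩ := key (Q.map (MulAut.conj c).toMonoidHom) (hQ.map _) (by
    rintro _ ⟨u, hu, rfl⟩
    exact hcN u hu) (by
    rintro _ ⟨u, hu, rfl⟩
    show c * u * c⁻¹ * (n : T) = n * (c * u * c⁻¹)
    have h1 : Commute c (n : T) := hc
    have h2 : Commute u (n : T) := hcom u hu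
    exact ((h1.mul_left h2).mul_left h1.inv_left).eq)
  refine ⟨t * c, fun u hu => ?_⟩
  have h3 : t * (c * u * c⁻¹) * t⁻¹ ∈ P := ht _ ⟨u, hu, rfl⟩
  have h4 : t * c * u * (t * c)⁻¹ = t * (c * u * c⁻¹) * t⁻¹ := by group
  rw [h4]
  exact h3

/-- (A2) -/
theorem a2 [Fact ℓ.Prime] (d : GD ℓ P₁ P) {n : NP P₁}
    (hn : (n : T) ∈ Subgroup.centralizer (P₁ : Set T)) (h : SS ℓ P (n : T)) :
    SS ℓ (QN P₁ P) n := by
  intro Q hQ hcom
  have hP : IsPGroup ℓ P₁ := IsPGroup.of_card (n := 1) (by rw [d.c1, pow_one])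
  have hQT : IsPGroup ℓ (Q.map (iN P₁)) := hQ.map _
  have hle : Q.map (iN P₁) ≤ Subgroup.normalizer (P₁ : Set T) := by
    rintro _ ⟨u, _, rfl⟩
    exact u.2
  have hR : IsPGroup ℓ (Q.map (iN P₁) ⊔ P₁ : Subgroup T) := hQT.to_sup_of_normal_right' hP hle
  have hRc : (Q.map (iN P₁) ⊔ P₁ : Subgroup T) ≤ Subgroup.centralizer ({(n : T)} : Set T) := by
    rw [sup_le_iff]
    constructor
    · rintro _ ⟨u, hu, rfl⟩
      rw [Subgroup.mem_centralizer_iff]
      rintro _ rfl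
      exact (congrArg Subtype.val (hcom u hu)).symm
    · intro p hp
      rw [Subgroup.mem_centralizer_iff]
      rintro _ rfl
      exact (Subgroup.mem_centralizer_iff.mp hn p hp).symm
  obtain ⟨t, ht⟩ := h _ hR (fun u hu =>
    (Subgroup.mem_centralizer_iff.mp (hRc hu) (n : T) rfl).symm)
  have htN : t ∈ Subgroup.normalizer (P₁ : Set T) :=
    nrm_of d d.cyc d.le fun p hp => ht p (Subgroup.mem_sup_right hp)
  refine ⟨⟨t, htN⟩, fun u hu => ?_⟩
  rw [Subgroup.mem_subgroupOf]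
  exact ht u (Subgroup.mem_sup_left ⟨u, hu, rfl⟩)

/-- (A4) -/
theorem a4 [Fact ℓ.Prime] (d : GD ℓ P₁ P) (e : EK ℓ k T) {g : T}
    (h : SS ℓ P g) (hg : lp k g ≠ 1) :
    ∃ (t : T) (n : NP P₁), t * g * t⁻¹ = n ∧ CX ℓ k P₁ P n := by
  obtain ⟨j, hj⟩ := e.sing g
  obtain ⟨t, ht⟩ := h (Subgroup.zpowers (lp k g)) (pg_zpowers hj) (comm_zpowers (lp_comm g).eq)
  have h1 := ht _ (Subgroup.mem_zpowers _)
  rw [← lp_conj] at h1
  have h2 : lp k (t * g * t⁻¹) ≠ 1 := by
    rw [lp_conj]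
    intro h'
    exact hg (conj_eq_one_iff.mp h')
  have h0 := d.g2 _ h1 h2
  have h3 := cent_of_le h0 (lp_comm _)
  exact ⟨t, ⟨t * g * t⁻¹, cent_le_nrm h3⟩, rfl, h0, a2 d h3 (SS_conj h t)⟩

/-- (A5) -/
theorem a5 (d : GD ℓ P₁ P) (e : EK ℓ k T) {n : NP P₁} (h : SS ℓ (QN P₁ P) n)
    (hn : lp k (n : T) ≠ 1) : CX ℓ k P₁ P n := by
  obtain ⟨j, hj⟩ := (EK.toN (P := P₁) e).sing n
  obtain ⟨t, ht⟩ := h (Subgroup.zpowers (lp k n)) (pg_zpowers hj) (comm_zpowers (lp_comm n).eq)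
  have h1 := ht _ (Subgroup.mem_zpowers _)
  have h2 : (t : T) * lp k (n : T) * (t : T)⁻¹ ∈ P := h1
  have h3 : (t : T) * lp k (n : T) * (t : T)⁻¹ ≠ 1 := fun h' => hn (conj_eq_one_iff.mp h')
  have h5 := le_zp_conj (s := (t : T)⁻¹) (Subgroup.inv_mem _ t.2) (d.g2 _ h2 h3)
  have h6 : (t : T)⁻¹ * ((t : T) * lp k (n : T) * (t : T)⁻¹) * (t : T)⁻¹⁻¹ = lp k (n : T) := by
    group
  rw [h6] at h5
  exact ⟨h5, h⟩

/-- (A6) -/
theorem a6 (d : GD ℓ P₁ P) {n n' : NP P₁} {t : T} (hn : CX ℓ k P₁ P n)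
    (hn' : CX ℓ k P₁ P n') (ht : t * (n : T) * t⁻¹ = n') :
    t ∈ Subgroup.normalizer (P₁ : Set T) := by
  have h4 : t * lp k (n : T) * t⁻¹ = lp k (n' : T) := by rw [← lp_conj, ht]
  refine nrm_of d (R := Subgroup.zpowers (lp k (n' : T))) inferInstance hn'.1 fun u hu => ?_
  obtain ⟨j, rfl⟩ := Subgroup.mem_zpowers_iff.mp (hn.1 hu)
  rw [← conj_zpow, h4]
  exact Subgroup.zpow_mem _ (Subgroup.mem_zpowers _) j

theorem CX_conj {n : NP P₁} (s : NP P₁) (h : CX ℓ k P₁ P n) : CX ℓ k P₁ P (s * n * s⁻¹) := by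
  refine ⟨?_, SS_conj h.2 s⟩
  show P₁ ≤ Subgroup.zpowers (lp k ((s : T) * n * (s : T)⁻¹))
  rw [lp_conj]
  exact le_zp_conj s.2 h.1

theorem CX_conj_iff {n : NP P₁} (s : NP P₁) :
    CX ℓ k P₁ P (s * n * s⁻¹) ↔ CX ℓ k P₁ P n := by
  refine ⟨fun h => ?_, CX_conj s⟩
  have h1 := CX_conj s⁻¹ h
  have h2 : s⁻¹ * (s * n * s⁻¹) * s⁻¹⁻¹ = n := by group
  rwa [h2] at h1

theorem CX.ne [hℓ : Fact ℓ.Prime] (d : GD ℓ P₁ P) {n : NP P₁} (h : CX ℓ k P₁ P n) :
    lp k (n : T) ≠ 1 := by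
  intro h'
  have h1 := h.1
  rw [h', Subgroup.zpowers_one_eq_bot, le_bot_iff] at h1
  have h2 := d.c1
  rw [h1, Subgroup.card_bot] at h2
  exact hℓ.out.one_lt.ne h2

theorem not_CX_pow [Fact ℓ.Prime] (d : GD ℓ P₁ P) (e : EK ℓ k T) (n : NP P₁) :
    ¬ CX ℓ k P₁ P (n ^ k) := by
  intro h
  exact h.ne d (lp_pow e (n : T))

open Classical in
/-- The difference of a function and its values at the `ℓ'`-parts. -/
noncomputable def DD (F : Type) [Field F] (ℓ k : ℕ) (P₁ P : Subgroup T) {H : Type} [Group H]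
    (i : NP P₁ →* H) : (H → F) →ₗ[F] (NP P₁ → F) where
  toFun φ := fun n => if CX ℓ k P₁ P n then φ (i n) - φ (i n ^ k) else 0
  map_add' φ ψ := by
    funext n
    simp only [Pi.add_apply]
    split_ifs
    · ring
    · ring
  map_smul' c φ := by
    funext n
    simp only [Pi.smul_apply, smul_eq_mul, RingHom.id_apply]
    split_ifs
    · ring
    · ring

theorem DD_pos {H : Type} [Group H] (i : NP P₁ →* H) (φ : H → F) {n : NP P₁}
    (h : CX ℓ k P₁ P n) : DD F ℓ k P₁ P i φ n = φ (i n) - φ (i n ^ k) := if_pos h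

theorem DD_neg {H : Type} [Group H] (i : NP P₁ →* H) (φ : H → F) {n : NP P₁}
    (h : ¬ CX ℓ k P₁ P n) : DD F ℓ k P₁ P i φ n = 0 := if_neg h

theorem DD_CFr {H : Type} [Group H] (e : EK ℓ k H) (i : NP P₁ →* H) {φ : H → F}
    (h : φ ∈ CFr ℓ F H) : DD F ℓ k P₁ P i φ = 0 := by
  funext n
  by_cases hn : CX ℓ k P₁ P n
  · rw [DD_pos i φ hn, ← (mem_CFr_iff e h.1).mp h, sub_self, Pi.zero_apply]
  · rw [DD_neg i φ hn, Pi.zero_apply]

theorem part_one [Fact ℓ.Prime] (d : GD ℓ P₁ P) (e : EK ℓ k T) :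
    WW F ℓ P ⊓ LinearMap.ker (DD F ℓ k P₁ P (iN P₁)) = WW F ℓ P ⊓ CFr ℓ F T := by
  ext φ
  constructor
  · rintro ⟨h1, h2⟩
    refine ⟨h1, ?_⟩
    rw [SetLike.mem_coe, mem_CFr_iff e h1.1]
    intro g
    by_cases hg : lp k g = 1
    · rw [(lp_eq_one g).mp hg]
    · by_cases hs : SS ℓ P g
      · obtain ⟨t, n, ht, hn⟩ := a4 d e hs hg
        have h3 := congrFun (LinearMap.mem_ker.mp h2) n
        rw [DD_pos (iN P₁) φ hn, Pi.zero_apply, sub_eq_zero] at h3
        have h4 : φ (n : T) = φ ((n : T) ^ k) := h3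
        rw [← ht, conj_pow, h1.1, h1.1] at h4
        exact h4
      · rw [h1.2 g hs, h1.2 (g ^ k) fun h' => hs (SS_pow h')]
  · rintro ⟨h1, h2⟩
    exact ⟨h1, LinearMap.mem_ker.mpr (DD_CFr e (iN P₁) h2)⟩

theorem part_two (d : GD ℓ P₁ P) (e : EK ℓ k T) :
    WW F ℓ (QN P₁ P) ⊓ LinearMap.ker (DD F ℓ k P₁ P (MonoidHom.id (NP P₁))) =
      WW F ℓ (QN P₁ P) ⊓ CFr ℓ F (NP P₁) := by
  ext φ
  constructor
  · rintro ⟨h1, h2⟩
    refine ⟨h1, ?_⟩
    rw [SetLike.mem_coe, mem_CFr_iff e.toN h1.1]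
    intro g
    by_cases hg : lp k (g : T) = 1
    · have h3 : g ^ k = g := Subtype.ext ((lp_eq_one (g : T)).mp hg)
      rw [h3]
    · by_cases hs : SS ℓ (QN P₁ P) g
      · have h3 := congrFun (LinearMap.mem_ker.mp h2) g
        rw [DD_pos _ φ (a5 d e hs hg), Pi.zero_apply, sub_eq_zero] at h3
        exact h3
      · rw [h1.2 g hs, h1.2 (g ^ k) fun h' => hs (SS_pow h')]
  · rintro ⟨h1, h2⟩
    exact ⟨h1, LinearMap.mem_ker.mpr (DD_CFr e.toN _ h2)⟩

open Classical in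
/-- The restriction to the normalizer, cut off outside of `SS`. -/
noncomputable def rs (ℓ : ℕ) (P₁ P : Subgroup T) (φ : T → F) (n : NP P₁) : F :=
  if SS ℓ (QN P₁ P) n then φ n else 0

theorem rs_pos {φ : T → F} {n : NP P₁} (h : SS ℓ (QN P₁ P) n) : rs ℓ P₁ P φ n = φ n := if_pos h

theorem rs_neg {φ : T → F} {n : NP P₁} (h : ¬ SS ℓ (QN P₁ P) n) : rs ℓ P₁ P φ n = 0 :=
  if_neg h

theorem rs_mem {φ : T → F} (hφ : φ ∈ CF F T) : rs ℓ P₁ P φ ∈ WW F ℓ (QN P₁ P) := by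
  refine ⟨fun g x => ?_, fun g hg => rs_neg hg⟩
  by_cases h : SS ℓ (QN P₁ P) x
  · rw [rs_pos h, rs_pos (SS_conj h g)]
    exact hφ g x
  · rw [rs_neg h, rs_neg fun h' => h ((SS_conj_iff g).mp h')]

/-- A function of `WW` agrees with its cut off restriction on the centralizer of `P₁`. -/
theorem rs_cent [Fact ℓ.Prime] (d : GD ℓ P₁ P) {φ : T → F} (hφ : φ ∈ WW F ℓ P) {n : NP P₁}
    (hn : (n : T) ∈ Subgroup.centralizer (P₁ : Set T)) : rs ℓ P₁ P φ n = φ (n : T) := by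
  by_cases h : SS ℓ (QN P₁ P) n
  · exact rs_pos h
  · rw [rs_neg h, hφ.2 _ fun h' => h (a2 d hn h')]

theorem DD_rs [Fact ℓ.Prime] (d : GD ℓ P₁ P) {φ : T → F} (hφ : φ ∈ WW F ℓ P) :
    DD F ℓ k P₁ P (iN P₁) φ = DD F ℓ k P₁ P (MonoidHom.id (NP P₁)) (rs ℓ P₁ P φ) := by
  funext n
  by_cases hn : CX ℓ k P₁ P n
  · rw [DD_pos _ _ hn, DD_pos _ _ hn, MonoidHom.id_apply, rs_cent d hφ hn.cent,
      rs_cent d hφ (n := n ^ k) (Subgroup.pow_mem _ hn.cent k)]
    rfl
  · rw [DD_neg _ _ hn, DD_neg _ _ hn]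

open Classical in
/-- The function on `T` which corresponds to a function on the normalizer. -/
noncomputable def lft (ℓ k : ℕ) (P₁ P : Subgroup T) (x : NP P₁ → F) (g : T) : F :=
  if h : ∃ n : NP P₁, CX ℓ k P₁ P n ∧ ∃ t : T, t * g * t⁻¹ = n then x h.choose else 0

theorem lft_of (d : GD ℓ P₁ P) {x : NP P₁ → F} (hx : x ∈ CF F (NP P₁))
    {g t : T} {n : NP P₁} (h1 : CX ℓ k P₁ P n) (ht : t * g * t⁻¹ = n) :
    lft ℓ k P₁ P x g = x n := by
  have h : ∃ n : NP P₁, CX ℓ k P₁ P n ∧ ∃ t : T, t * g * t⁻¹ = n := ⟨n, h1, t, ht⟩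
  rw [lft, dif_pos h]
  obtain ⟨h3, t', ht'⟩ := h.choose_spec
  have h2 : (t * t'⁻¹) * (h.choose : T) * (t * t'⁻¹)⁻¹ = (n : T) := by
    rw [← ht', ← ht]
    group
  have h4 := a6 d h3 h1 h2
  have h5 := hx ⟨t * t'⁻¹, h4⟩ h.choose
  rw [← h5]
  congr 1
  exact Subtype.ext h2

theorem lft_of_not {x : NP P₁ → F} {g : T} (h1 : ¬ ∃ n : NP P₁, CX ℓ k P₁ P n ∧ ∃ t : T,
    t * g * t⁻¹ = n) : lft ℓ k P₁ P x g = 0 := by
  rw [lft, dif_neg h1]

theorem lft_mem (d : GD ℓ P₁ P) {x : NP P₁ → F} (hx : x ∈ CF F (NP P₁)) :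
    lft ℓ k P₁ P x ∈ WW F ℓ P := by
  refine ⟨fun s g => ?_, fun g hg => ?_⟩
  · by_cases h : ∃ n : NP P₁, CX ℓ k P₁ P n ∧ ∃ t : T, t * g * t⁻¹ = n
    · obtain ⟨n, hn, t, ht⟩ := h
      have h2 : (t * s⁻¹) * (s * g * s⁻¹) * (t * s⁻¹)⁻¹ = n := by
        rw [← ht]
        group
      rw [lft_of d hx hn ht, lft_of d hx hn h2]
    · rw [lft_of_not h, lft_of_not]
      rintro ⟨n, hn, t, ht⟩
      refine h ⟨n, hn, t * s, ?_⟩
      rw [← ht]
      group
  · apply lft_of_not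
    rintro ⟨n, hn, t, ht⟩
    apply hg
    rw [← SS_conj_iff t, ht]
    exact a1 d hn.cent hn.2

theorem DD_id_mem {φ : NP P₁ → F} (hφ : φ ∈ CF F (NP P₁)) :
    DD F ℓ k P₁ P (MonoidHom.id (NP P₁)) φ ∈ CF F (NP P₁) := by
  intro g x
  by_cases h : CX ℓ k P₁ P x
  · rw [DD_pos _ _ h, DD_pos _ _ (CX_conj g h), MonoidHom.id_apply, MonoidHom.id_apply,
      conj_pow, hφ, hφ]
  · rw [DD_neg _ _ h, DD_neg _ _ fun h' => h ((CX_conj_iff g).mp h')]

theorem part_three [Fact ℓ.Prime] (d : GD ℓ P₁ P) (e : EK ℓ k T) :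
    (WW F ℓ P).map (DD F ℓ k P₁ P (iN P₁)) =
      (WW F ℓ (QN P₁ P)).map (DD F ℓ k P₁ P (MonoidHom.id (NP P₁))) := by
  ext x
  rw [Submodule.mem_map, Submodule.mem_map]
  constructor
  · rintro ⟨φ, hφ, rfl⟩
    exact ⟨rs ℓ P₁ P φ, rs_mem hφ.1, (DD_rs d hφ).symm⟩
  · rintro ⟨φ, hφ, rfl⟩
    have hx : DD F ℓ k P₁ P (MonoidHom.id (NP P₁)) φ ∈ CF F (NP P₁) := DD_id_mem hφ.1
    refine ⟨lft ℓ k P₁ P (DD F ℓ k P₁ P (MonoidHom.id (NP P₁)) φ), lft_mem d hx, ?_⟩
    funext n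
    by_cases hn : CX ℓ k P₁ P n
    · have h2 : lft ℓ k P₁ P (DD F ℓ k P₁ P (MonoidHom.id (NP P₁)) φ) (iN P₁ n ^ k) = 0 := by
        apply lft_of_not
        rintro ⟨n', hn', t, ht⟩
        apply hn'.ne d
        rw [← ht, lp_conj]
        have h3 : lp k (iN P₁ n ^ k) = 1 := lp_pow e _
        rw [h3]
        group
      rw [DD_pos _ _ hn, h2, sub_zero]
      exact lft_of d hx hn (t := 1) (by
        show 1 * (n : T) * 1⁻¹ = n
        group)
    · rw [DD_neg _ _ hn, DD_neg _ _ hn]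

end

section

variable {ℓ k : ℕ} {F T : Type} [Field F] [Group T] {P₁ P : Subgroup T} [Fintype (NP P₁)]

theorem part_five [Fact ℓ.Prime] [CharP F ℓ] (d : GD ℓ P₁ P) (e : EK ℓ k T) {z : NP P₁ → F}
    (hz : z ∈ CF F (NP P₁)) {φ : NP P₁ → F} (hφ : φ ∈ WW F ℓ (QN P₁ P)) :
    DD F ℓ k P₁ P (MonoidHom.id (NP P₁)) (Lz z φ) =
      (DD F ℓ k P₁ P (MonoidHom.id (NP P₁)) ∘ₗ Lz z)
        (DD F ℓ k P₁ P (MonoidHom.id (NP P₁)) φ) := by
  have h1 : φ - DD F ℓ k P₁ P (MonoidHom.id (NP P₁)) φ ∈ CFr ℓ F (NP P₁) := by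
    have hcf : φ - DD F ℓ k P₁ P (MonoidHom.id (NP P₁)) φ ∈ CF F (NP P₁) :=
      Submodule.sub_mem _ hφ.1 (DD_id_mem hφ.1)
    rw [mem_CFr_iff e.toN hcf]
    intro g
    rw [Pi.sub_apply, Pi.sub_apply, DD_neg _ _ (not_CX_pow d e g), sub_zero]
    by_cases h : CX ℓ k P₁ P g
    · rw [DD_pos _ _ h, MonoidHom.id_apply, sub_sub_cancel]
    · rw [DD_neg _ _ h, sub_zero]
      by_cases hg : lp k (g : T) = 1
      · have h3 : g ^ k = g := Subtype.ext ((lp_eq_one (g : T)).mp hg)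
        rw [h3]
      · have hs : ¬ SS ℓ (QN P₁ P) g := fun h' => h (a5 d e h' hg)
        rw [hφ.2 g hs, hφ.2 (g ^ k) fun h' => hs (SS_pow h')]
  have h2 := DD_CFr (P := P) e.toN (MonoidHom.id (NP P₁)) (Lz_mem_CFr hz h1)
  rw [map_sub, map_sub, sub_eq_zero] at h2
  rw [LinearMap.comp_apply]
  exact h2

theorem Lz_eq [Fintype T] [Fact ℓ.Prime] [CharP F ℓ] (d : GD ℓ P₁ P) {z : T → F}
    (hz : z ∈ CF F T) {φ : T → F} (hφ : φ ∈ WW F ℓ P) {m : NP P₁}
    (hm : (m : T) ∈ Subgroup.centralizer (P₁ : Set T)) :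
    Lz z φ (m : T) = Lz (brz P₁ z) (rs ℓ P₁ P φ) m := by
  classical
  rw [Lz_apply, Lz_apply]
  have hP : IsPGroup ℓ P₁ := IsPGroup.of_card (n := 1) (by rw [d.c1, pow_one])
  rw [sum_fix P₁ hP]
  · symm
    refine Fintype.sum_of_injective (fun h : NP P₁ => (h : T)) Subtype.val_injective _ _ ?_ ?_
    · intro h hh
      rw [if_neg]
      intro hf
      apply hh
      exact ⟨⟨h, cent_le_nrm (Subgroup.mem_centralizer_iff.mpr hf)⟩, rfl⟩
    · intro h
      by_cases hh : (h : T) ∈ Subgroup.centralizer (P₁ : Set T)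
      · have hh' : ∀ u ∈ P₁, u * (h : T) = h * u := Subgroup.mem_centralizer_iff.mp hh
        rw [if_pos hh', brz, if_pos hh,
          rs_cent d hφ (n := h * m) (Subgroup.mul_mem _ hh hm)]
        rfl
      · have hh' : ¬ ∀ u ∈ P₁, u * (h : T) = h * u := fun h' =>
          hh (Subgroup.mem_centralizer_iff.mpr h')
        rw [if_neg hh', brz, if_neg hh, zero_mul]
  · intro u hu h
    have h1 : Commute u (m : T) := Subgroup.mem_centralizer_iff.mp hm u hu
    have e1 : u * h * u⁻¹ * m = u * (h * m) * u⁻¹ := by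
      rw [mul_assoc, h1.inv_left.eq]
      group
    rw [e1, hz, hφ.1]

theorem part_four [Fintype T] [Fact ℓ.Prime] [CharP F ℓ] (d : GD ℓ P₁ P) {z : T → F}
    (hz : z ∈ CF F T) {φ : T → F} (hφ : φ ∈ WW F ℓ P) :
    DD F ℓ k P₁ P (iN P₁) (Lz z φ) =
      DD F ℓ k P₁ P (MonoidHom.id (NP P₁)) (Lz (brz P₁ z) (rs ℓ P₁ P φ)) := by
  funext n
  by_cases hn : CX ℓ k P₁ P n
  · rw [DD_pos _ _ hn, DD_pos _ _ hn, MonoidHom.id_apply]
    have h1 := Lz_eq (m := n) d hz hφ hn.cent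
    have h2 := Lz_eq (m := n ^ k) d hz hφ (Subgroup.pow_mem _ hn.cent k)
    rw [← h1, ← h2]
    rfl
  · rw [DD_neg _ _ hn, DD_neg _ _ hn]

end

end SNGX

open _root_.Pool.Agent.DPX.SNGX in
open Pool.Agent.DPW.SNGB (SS WW WW_le Lz_mem_WW Lz_mem_CFr Lz_Lz mlt_idem exists_ek) in
theorem SNGX_thm (h1 : Stmt_SUPX) (h2 : Stmt_GCX) (h3 : Stmt_BKNX) : Stmt_SNGX := by
  intro ℓ n _ F T _ _ _ _ P₁ P _ x₀ e hB
  obtain ⟨k, ek⟩ := exists_ek ℓ T
  have hx : x₀ ∈ Subgroup.normalizer (P₁ : Set T) :=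
    Pool.Agent.DPB.SNG.cent_le_nrm (Subgroup.mem_centralizer_iff.mpr fun u hu =>
      hB.cd.cen u (hB.cd.le hu))
  have hBN := ((h3.2 ℓ n F T P₁ P x₀ e hB).2 hx).2
  have hPp : IsPGroup ℓ P := IsPGroup.of_card hB.cd.card
  obtain ⟨g1, g2, -, g4⟩ := h2 ℓ T P₁ hB.cd.c1
  have d : GD ℓ P₁ P :=
    { le := hB.cd.le
      c1 := hB.cd.c1
      cyc := hB.cd.cyc
      g1 := g1
      g2 := g2 P hB.cd.cyc hB.cd.le hPp
      g4 := fun t ht hc Q hQ hQt => (g4 t ht hc Q hQ hQt).2 }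
  have hs1 : ∀ h, e h ≠ 0 → SS ℓ P h := fun h hh => h1.2.2 ℓ n F T P₁ P x₀ e hB h hh
  have hs2 : ∀ h, brz P₁ e h ≠ 0 → SS ℓ (QN P₁ P) h := fun h hh =>
    h1.2.2 ℓ n F (NP P₁) _ (QN P₁ P) ⟨x₀, hx⟩ (brz P₁ e) hBN h hh
  have hi1 : ∀ v, Lz e (Lz e v) = Lz e v := fun v => by rw [Lz_Lz, hB.idem]
  have hi2 : ∀ v, Lz (brz P₁ e) (Lz (brz P₁ e) v) = Lz (brz P₁ e) v := fun v => by
    rw [Lz_Lz, hBN.idem]
  have m1 : mlt (CF F T) (Lz e) 1 = mlt (WW F ℓ P) (Lz e) 1 :=
    mlt_idem hi1 (WW_le P) fun v hv => Lz_mem_WW hB.cf hs1 hv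
  have m2 : mlt (CFr ℓ F T) (Lz e) 1 = mlt (WW F ℓ P ⊓ CFr ℓ F T) (Lz e) 1 :=
    mlt_idem hi1 inf_le_right fun v hv => ⟨Lz_mem_WW hB.cf hs1 hv.1, Lz_mem_CFr hB.cf hv⟩
  have m3 : mlt (CF F (NP P₁)) (Lz (brz P₁ e)) 1 =
      mlt (WW F ℓ (QN P₁ P)) (Lz (brz P₁ e)) 1 :=
    mlt_idem hi2 (WW_le _) fun v hv => Lz_mem_WW hBN.cf hs2 hv
  have m4 : mlt (CFr ℓ F (NP P₁)) (Lz (brz P₁ e)) 1 =
      mlt (WW F ℓ (QN P₁ P) ⊓ CFr ℓ F (NP P₁)) (Lz (brz P₁ e)) 1 :=
    mlt_idem hi2 inf_le_right fun v hv => ⟨Lz_mem_WW hBN.cf hs2 hv.1, Lz_mem_CFr hBN.cf hv⟩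
  have l1 := LIN_thm F (T → F) (NP P₁ → F) (Lz e)
    (DD F ℓ k P₁ P (MonoidHom.id (NP P₁)) ∘ₗ Lz (brz P₁ e))
    (DD F ℓ k P₁ P (Pool.Agent.DPB.SNG.iN P₁)) (WW F ℓ P)
    (fun v hv => Lz_mem_WW hB.cf hs1 hv.1) (fun v hv => by
      rw [part_four d hB.cf hv, DD_rs d hv]
      exact part_five d ek hBN.cf (rs_mem hv.1)) 1
  have l2 := LIN_thm F (NP P₁ → F) (NP P₁ → F) (Lz (brz P₁ e))
    (DD F ℓ k P₁ P (MonoidHom.id (NP P₁)) ∘ₗ Lz (brz P₁ e))
    (DD F ℓ k P₁ P (MonoidHom.id (NP P₁))) (WW F ℓ (QN P₁ P))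
    (fun v hv => Lz_mem_WW hBN.cf hs2 hv.1) (fun v hv => part_five d ek hBN.cf hv) 1
  rw [part_one d ek, part_three d ek] at l1
  rw [part_two d ek] at l2
  rw [m1, m2, m3, m4, l1, l2]
  ring

end Pool.Agent.DPX


end

section

/-!
# QUOX: the block of the quotient by a central subgroup of order `ℓ`
-/

set_option autoImplicit false

namespace Pool.Agent.DPX

open Pool.Agent.DPB Pool.Agent.DPW Representation

namespace QUOX

section Grp

variable {T S : Type} [Group T] [Finite T] [Group S] (π : T →* S) (ℓ n : ℕ)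

/-- The subgroup of order `ℓ` of a cyclic group of order `ℓ ^ (n + 1)`. -/
theorem eq_zpowers (hℓ : 0 < ℓ) (P₁ : Subgroup T) (y : T) (h1 : P₁ ≤ Subgroup.zpowers y)
    (hc : Nat.card P₁ = ℓ) (hy : orderOf y = ℓ ^ (n + 1)) :
    P₁ = Subgroup.zpowers (y ^ ℓ ^ n) := by
  have hle : P₁ ≤ Subgroup.zpowers (y ^ ℓ ^ n) := by
    intro u hu
    obtain ⟨k, hk⟩ := Subgroup.mem_zpowers_iff.1 (h1 hu)
    have h2 : u ^ ℓ = 1 := by
      have h3 : (⟨u, hu⟩ : P₁) ^ Nat.card P₁ = 1 := pow_card_eq_one'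
      rw [hc] at h3
      exact congrArg Subtype.val h3
    have h4 : y ^ (k * ℓ) = 1 := by
      rw [zpow_mul, hk, zpow_natCast, h2]
    have h5 : ((orderOf y : ℕ) : ℤ) ∣ k * ℓ := orderOf_dvd_iff_zpow_eq_one.2 h4
    rw [hy] at h5
    have h6 : ((ℓ ^ n : ℕ) : ℤ) ∣ k := by
      have h7 : ((ℓ ^ (n + 1) : ℕ) : ℤ) = ((ℓ ^ n : ℕ) : ℤ) * ℓ := by
        push_cast
        ring
      rw [h7] at h5
      exact Int.dvd_of_mul_dvd_mul_right (by exact_mod_cast hℓ.ne') h5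
    obtain ⟨m, hm⟩ := h6
    refine Subgroup.mem_zpowers_iff.2 ⟨m, ?_⟩
    rw [← hk, hm, zpow_mul, zpow_natCast]
  refine Subgroup.eq_of_le_of_card_ge hle ?_
  rw [hc, Nat.card_zpowers, orderOf_pow_of_dvd (pow_ne_zero _ hℓ.ne')
    (by rw [hy]; exact pow_dvd_pow _ (Nat.le_succ n)), hy, pow_succ,
    Nat.mul_div_cancel_left _ (Nat.pow_pos hℓ)]

/-- The order of the image of the generator. -/
theorem orderOf_map (hℓ : 0 < ℓ) (P₁ : Subgroup T) (y : T) (h1 : P₁ ≤ Subgroup.zpowers y)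
    (hker : π.ker = P₁) (hc : Nat.card P₁ = ℓ) (hy : orderOf y = ℓ ^ (n + 1)) :
    orderOf (π y) = ℓ ^ n := by
  have h2 := eq_zpowers ℓ n hℓ P₁ y h1 hc hy
  apply Nat.dvd_antisymm
  · apply orderOf_dvd_of_pow_eq_one
    rw [← map_pow, ← MonoidHom.mem_ker, hker, h2]
    exact Subgroup.mem_zpowers _
  · have h3 : y ^ orderOf (π y) ∈ P₁ := by
      rw [← hker, MonoidHom.mem_ker, map_pow, pow_orderOf_eq_one]
    have h4 : (y ^ orderOf (π y)) ^ ℓ = 1 := by
      have h5 : (⟨_, h3⟩ : P₁) ^ Nat.card P₁ = 1 := pow_card_eq_one'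
      rw [hc] at h5
      exact congrArg Subtype.val h5
    rw [← pow_mul] at h4
    have h6 := orderOf_dvd_of_pow_eq_one h4
    rw [hy, pow_succ] at h6
    exact Nat.dvd_of_mul_dvd_mul_right hℓ h6

omit [Finite T] in
/-- The normalizer of the subgroup of order `ℓ` of the image is its centralizer. -/
theorem normalizer_le (hℓ : 0 < ℓ) (hπ : Function.Surjective π) (P₁ : Subgroup T) (z : T)
    (hker : π.ker = P₁) (hcen : P₁ ≤ Subgroup.center T) (hz : P₁ = Subgroup.zpowers (z ^ ℓ))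
    (ho : orderOf z = ℓ ^ 2) :
    Subgroup.normalizer ((Subgroup.zpowers (π z) : Subgroup S) : Set S) ≤
      Subgroup.centralizer ((Subgroup.zpowers (π z) : Subgroup S) : Set S) := by
  intro s hs
  obtain ⟨t, rfl⟩ := hπ s
  have h1 : π t * π z * (π t)⁻¹ ∈ Subgroup.zpowers (π z) :=
    (Subgroup.mem_normalizer_iff.1 hs (π z)).1 (Subgroup.mem_zpowers _)
  obtain ⟨a, ha⟩ := Subgroup.mem_zpowers_iff.1 h1
  have h2 : t * z * t⁻¹ * (z ^ a)⁻¹ ∈ P₁ := by
    rw [← hker, MonoidHom.mem_ker, map_mul, map_mul, map_mul, map_inv, map_inv, map_zpow, ha,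
      mul_inv_cancel]
  rw [hz] at h2
  obtain ⟨b, hb⟩ := Subgroup.mem_zpowers_iff.1 h2
  have h3 : t * z * t⁻¹ = z ^ (ℓ * b + a) := by
    rw [zpow_add, zpow_mul, zpow_natCast, hb, inv_mul_cancel_right]
  set c : ℤ := ℓ * b + a with hc
  have h4 : z ^ ℓ ∈ Subgroup.center T := by
    apply hcen
    rw [hz]
    exact Subgroup.mem_zpowers _
  have h5 : z ^ ((ℓ : ℤ) * (c - 1)) = 1 := by
    have h6 : t * z ^ ℓ * t⁻¹ = z ^ ℓ := by
      rw [Subgroup.mem_center_iff.1 h4 t, mul_inv_cancel_right]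
    have h7 : t * z ^ ℓ * t⁻¹ = (t * z * t⁻¹) ^ ℓ := by
      have := map_pow (MulAut.conj t) z ℓ
      simp only [MulAut.conj_apply] at this
      exact this
    rw [h7, h3, ← zpow_natCast, ← zpow_mul, ← zpow_natCast] at h6
    have h8 : (ℓ : ℤ) * (c - 1) = c * ℓ - ℓ := by ring
    rw [h8, zpow_sub, h6, mul_inv_cancel]
  have h6 : ((orderOf z : ℕ) : ℤ) ∣ (ℓ : ℤ) * (c - 1) := orderOf_dvd_iff_zpow_eq_one.2 h5
  have h7 : (ℓ : ℤ) ∣ c - 1 := by
    rw [ho] at h6
    have h8 : ((ℓ ^ 2 : ℕ) : ℤ) = (ℓ : ℤ) * ℓ := by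
      push_cast
      ring
    rw [h8] at h6
    exact Int.dvd_of_mul_dvd_mul_left (by exact_mod_cast hℓ.ne') h6
  obtain ⟨m, hm⟩ := h7
  have h8 : π (z ^ (c - 1)) = 1 := by
    rw [← MonoidHom.mem_ker, hker, hz, hm, zpow_mul, zpow_natCast]
    exact Subgroup.zpow_mem _ (Subgroup.mem_zpowers _) m
  have h9 : π t * π z * (π t)⁻¹ = π z := by
    have h10 : π (t * z * t⁻¹) = π z := by
      have h11 : c = (c - 1) + 1 := by ring
      rw [h3, h11, zpow_add, map_mul, h8, one_mul, zpow_one]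
    rw [map_mul, map_mul, map_inv] at h10
    exact h10
  have h10 : Commute (π t) (π z) := by
    have := congrArg (fun x => x * π t) h9
    simp only [inv_mul_cancel_right] at this
    exact this
  rw [Subgroup.mem_centralizer_iff]
  intro u hu
  obtain ⟨k, hk⟩ := Subgroup.mem_zpowers_iff.1 hu
  rw [← hk]
  exact ((h10.zpow_right k).eq).symm

end Grp

end QUOX

open _root_.Pool.Agent.DPX.QUOX in
theorem QUOX_thm (h1 : Stmt_QUAX) : Stmt_QUOX := by
  intro ℓ n _ F T S _ _ _ _ _ _ _ π P₁ P x₀ e hπ hker hcen hn hB hprm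
  have hℓ : ℓ.Prime := Fact.out
  obtain ⟨q1, q2, q3, q4, q5⟩ := h1 ℓ (n + 1) F T S π P₁ P x₀ e hπ hker hcen hB hprm
  obtain ⟨y, hy⟩ := (Subgroup.isCyclic_iff_exists_zpowers_eq_top P).1 hB.cd.cyc
  have ho : orderOf y = ℓ ^ (n + 1) := by
    rw [← Nat.card_zpowers, hy, hB.cd.card]
  have hle : P₁ ≤ Subgroup.zpowers y := by
    rw [hy]
    exact hB.cd.le
  have hP1 := eq_zpowers ℓ n hℓ.pos P₁ y hle hB.cd.c1 ho
  have hoπ := orderOf_map π ℓ n hℓ.pos P₁ y hle hker hB.cd.c1 ho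
  obtain ⟨m, rfl⟩ : ∃ m, n = m + 1 := ⟨n - 1, by omega⟩
  have hmap : P.map π = Subgroup.zpowers (π y) := by
    rw [← hy, MonoidHom.map_zpowers]
  have hz1 : π (y ^ ℓ ^ m) = (π y) ^ ℓ ^ m := map_pow _ _ _
  have hz2 : (y ^ ℓ ^ m) ^ ℓ = y ^ ℓ ^ (m + 1) := by
    rw [← pow_mul, ← pow_succ]
  have hz3 : orderOf (y ^ ℓ ^ m) = ℓ ^ 2 := by
    rw [orderOf_pow_of_dvd (pow_ne_zero _ hℓ.ne_zero)
      (by rw [ho]; exact pow_dvd_pow _ (by omega)), ho,
      show m + 1 + 1 = m + 2 from rfl, pow_add, Nat.mul_div_cancel_left _ (Nat.pow_pos hℓ.pos)]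
  refine ⟨Subgroup.zpowers (π (y ^ ℓ ^ m)), ⟨⟨?_, ?_, ?_, ?_, ?_, ?_⟩, q3.1, q3.2.1, q4, q5⟩,
    q3, ?_⟩
  · rw [hmap, Subgroup.zpowers_le, hz1]
    exact Subgroup.pow_mem _ (Subgroup.mem_zpowers _) _
  · rw [Nat.card_zpowers, hz1, orderOf_pow_of_dvd (pow_ne_zero _ hℓ.ne_zero)
      (by rw [hoπ]; exact pow_dvd_pow _ (by omega)), hoπ, pow_succ,
      Nat.mul_div_cancel_left _ (Nat.pow_pos hℓ.pos)]
  · exact (Subgroup.isCyclic_iff_exists_zpowers_eq_top _).2 ⟨π y, hmap.symm⟩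
  · rw [hmap, Nat.card_zpowers, hoπ]
  · rintro _ ⟨p, hp, rfl⟩
    rw [← map_mul, ← map_mul, hB.cd.cen p hp]
  · intro hdvd
    apply hB.cd.sq
    rw [q1, pow_succ, mul_comm]
    exact mul_dvd_mul_left ℓ hdvd
  · exact normalizer_le π ℓ hℓ.pos hπ P₁ (y ^ ℓ ^ m) hker hcen (by rw [hz2]; exact hP1) hz3

end Pool.Agent.DPX


end

section

/-!
# ZACX: the action of an automorphism on the centre of a block

The centre of the block is `F[X] / (X ^ c)`; the automorphism acts by the substitution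
`X ↦ q`, where `q = X q₁` and `q₁(0) = k`.
-/

set_option autoImplicit false

namespace Pool.Agent.DPX

open Pool.Agent.DPB Pool.Agent.DPW Representation

namespace ZACX

variable {F T : Type} [Field F] [Group T] [Fintype T]

theorem cvF_assoc (a b c : T → F) : cvF (cvF a b) c = cvF a (cvF b c) := by
  funext x
  simp only [cvF, Finset.sum_mul, Finset.mul_sum]
  rw [Finset.sum_comm]
  refine Finset.sum_congr rfl fun y _ => ?_
  rw [← Equiv.sum_comp (Equiv.mulLeft y)]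
  refine Finset.sum_congr rfl fun u _ => ?_
  simp only [Equiv.coe_mulLeft, inv_mul_cancel_left, mul_inv_rev]
  rw [mul_assoc, mul_assoc (u⁻¹)]

theorem cvF_comm {z : T → F} (hz : z ∈ CF F T) (b : T → F) : cvF z b = cvF b z := by
  funext x
  simp only [cvF]
  rw [← Equiv.sum_comp ((Equiv.inv T).trans (Equiv.mulLeft x))]
  refine Finset.sum_congr rfl fun u _ => ?_
  have h1 : z (x * u⁻¹) = z (u⁻¹ * x) := by
    have h := hz (u⁻¹) (x * u⁻¹)
    rw [← h]
    congr 1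
    group
  simp only [Equiv.trans_apply, Equiv.inv_apply, Equiv.coe_mulLeft]
  rw [h1, mul_comm]
  congr 2
  group

theorem cvF_mem {a b : T → F} (ha : a ∈ CF F T) (hb : b ∈ CF F T) : cvF a b ∈ CF F T := by
  intro g x
  simp only [cvF]
  rw [← Equiv.sum_comp (MulAut.conj g).toEquiv]
  refine Finset.sum_congr rfl fun u _ => ?_
  have e1 : (MulAut.conj g).toEquiv u = g * u * g⁻¹ := rfl
  rw [e1, ha g u]
  have h2 : (g * u * g⁻¹)⁻¹ * (g * x * g⁻¹) = g * (u⁻¹ * x) * g⁻¹ := by group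
  rw [h2, hb g (u⁻¹ * x)]

theorem cvF_zero (a : T → F) : cvF a (0 : T → F) = 0 := by
  funext x
  simp [cvF]

theorem zero_cvF (a : T → F) : cvF (0 : T → F) a = 0 := by
  funext x
  simp [cvF]

theorem cvF_smul (r : F) (a b : T → F) : cvF a (r • b) = r • cvF a b := by
  funext x
  simp only [cvF, Pi.smul_apply, smul_eq_mul, Finset.mul_sum]
  refine Finset.sum_congr rfl fun y _ => ?_
  ring

theorem smul_cvF (r : F) (a b : T → F) : cvF (r • a) b = r • cvF a b := by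
  funext x
  simp only [cvF, Pi.smul_apply, smul_eq_mul, Finset.mul_sum]
  refine Finset.sum_congr rfl fun y _ => ?_
  ring

theorem cvF_sum {ι : Type} (s : Finset ι) (a : T → F) (b : ι → T → F) :
    cvF a (∑ i ∈ s, b i) = ∑ i ∈ s, cvF a (b i) := by
  funext x
  simp only [cvF, Finset.sum_apply, Finset.mul_sum]
  exact Finset.sum_comm

theorem sum_cvF {ι : Type} (s : Finset ι) (a : T → F) (b : ι → T → F) :
    cvF (∑ i ∈ s, b i) a = ∑ i ∈ s, cvF (b i) a := by
  funext x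
  simp only [cvF, Finset.sum_apply, Finset.sum_mul]
  exact Finset.sum_comm

open Classical in
theorem cvF_one (a : T → F) : cvF a (Pi.single 1 1) = a := by
  funext x
  unfold cvF
  rw [Finset.sum_eq_single x]
  · simp
  · intro y _ hy
    rw [Pi.single_eq_of_ne, mul_zero]
    intro h
    exact hy (inv_mul_eq_one.1 h)
  · intro h
    exact absurd (Finset.mem_univ x) h

omit [Fintype T] in
open Classical in
theorem one_mem : (Pi.single 1 1 : T → F) ∈ CF F T := by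
  intro g x
  by_cases hx : x = 1
  · subst hx
    simp
  · rw [Pi.single_eq_of_ne hx, Pi.single_eq_of_ne]
    intro h
    apply hx
    calc x = g⁻¹ * (g * x * g⁻¹) * g := by group
      _ = 1 := by rw [h]; group

theorem cvp_mem {z : T → F} (hz : z ∈ CF F T) (k : ℕ) : cvp z k ∈ CF F T := by
  induction k with
  | zero => exact one_mem
  | succ k ih => exact cvF_mem ih hz

theorem cvp_add (z : T → F) (a b : ℕ) : cvp z (a + b) = cvF (cvp z a) (cvp z b) := by
  induction b with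
  | zero => exact (cvF_one _).symm
  | succ b ih =>
    show cvF (cvp z (a + b)) z = cvF (cvp z a) (cvF (cvp z b) z)
    rw [ih, cvF_assoc]


section nil

variable {e : T → F} {m c : ℕ} {E : Fin m → Fin m → T → F} {z : T → F}

omit [Fintype T] in
theorem Z_mul [Fintype T] (e z : T → F) (k l : ℕ) :
    cvF (cvF e (cvp z k)) (cvp z l) = cvF e (cvp z (k + l)) := by
  rw [cvF_assoc, ← cvp_add]

theorem Z_zero (H : NilB e m c E z) {k : ℕ} (hk : c ≤ k) : cvF e (cvp z k) = 0 := by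
  obtain ⟨l, rfl⟩ := Nat.exists_eq_add_of_le hk
  rw [← Z_mul, H.nl, zero_cvF]

theorem indep (H : NilB e m c E z) :
    LinearIndependent F (fun k : Fin c => cvF e (cvp z k)) := by
  rw [Fintype.linearIndependent_iff]
  intro a ha
  have key : ∀ n : ℕ, ∀ k : Fin c, (k : ℕ) = n → a k = 0 := by
    intro n
    induction n using Nat.strong_induction_on with
    | _ n ih =>
      intro k hk
      have h1 : cvF (∑ i : Fin c, a i • cvF e (cvp z i)) (cvp z (c - 1 - k)) = 0 := by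
        rw [ha, zero_cvF]
      rw [sum_cvF, Finset.sum_eq_single k] at h1
      · rw [smul_cvF, Z_mul, show (k : ℕ) + (c - 1 - k) = c - 1 by omega, smul_eq_zero] at h1
        rcases h1 with h1 | h1
        · exact h1
        · exact absurd h1 (H.nn (c - 1) (by omega))
      · intro j _ hj
        rw [smul_cvF, Z_mul]
        rcases lt_or_ge (j : ℕ) k with h2 | h2
        · rw [ih j (hk ▸ h2) j rfl, zero_smul]
        · have h3 : (j : ℕ) ≠ k := fun h => hj (Fin.ext h)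
          rw [Z_zero H (by omega), smul_zero]
      · intro h
        exact absurd (Finset.mem_univ _) h
  exact fun k => key k k rfl

end nil

/-- The inversion. -/
noncomputable def inv' : (T → F) ≃ₗ[F] (T → F) := LinearEquiv.funCongrLeft F F (Equiv.inv T)

omit [Fintype T] in
theorem inv'_apply (w : T → F) (g : T) : inv' w g = w g⁻¹ := rfl

omit [Fintype T] in
theorem inv'_mem {w : T → F} (hw : w ∈ CF F T) : inv' w ∈ CF F T := by
  intro g x
  rw [inv'_apply, inv'_apply, ← hw g x⁻¹]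
  congr 1
  group

omit [Fintype T] in
theorem inv'_inv' (w : T → F) : inv' (inv' w) = w := by
  funext g
  rw [inv'_apply, inv'_apply, inv_inv]

theorem inv'_Lz (e : T → F) {v : T → F} (hv : v ∈ CF F T) : inv' (Lz e v) = cvF e (inv' v) := by
  funext g
  rw [inv'_apply, Lz_apply]
  unfold cvF
  refine Finset.sum_congr rfl fun y _ => ?_
  rw [inv'_apply, ← hv g (y⁻¹ * g)⁻¹]
  congr 2
  group


theorem cvF_add (a b c : T → F) : cvF a (b + c) = cvF a b + cvF a c := by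
  funext x
  simp only [cvF, Pi.add_apply, mul_add, Finset.sum_add_distrib]

theorem add_cvF (a b c : T → F) : cvF (a + b) c = cvF a c + cvF b c := by
  funext x
  simp only [cvF, Pi.add_apply, add_mul, Finset.sum_add_distrib]

open Classical in
theorem one_cvF (a : T → F) : cvF (Pi.single 1 1) a = a := by
  rw [cvF_comm one_mem, cvF_one]

section poly

open Polynomial

variable {e : T → F} {m c : ℕ} {E : Fin m → Fin m → T → F} {z : T → F}

/-- The value of the polynomial `p` at `z` in the algebra with the unit element `e`. -/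
noncomputable def PP (e z : T → F) (c : ℕ) : Polynomial F →ₗ[F] (T → F) :=
  ∑ k ∈ Finset.range c, (Polynomial.lcoeff F k).smulRight (cvF e (cvp z k))

theorem PP_apply (e z : T → F) (c : ℕ) (p : Polynomial F) :
    PP e z c p = ∑ k ∈ Finset.range c, p.coeff k • cvF e (cvp z k) := by
  unfold PP
  rw [LinearMap.sum_apply]
  rfl

theorem PP_monomial (H : NilB e m c E z) (k : ℕ) (r : F) :
    PP e z c (monomial k r) = r • cvF e (cvp z k) := by
  rw [PP_apply]
  rcases lt_or_ge k c with hk | hk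
  · rw [Finset.sum_eq_single k]
    · rw [coeff_monomial, if_pos rfl]
    · intro b _ hb
      rw [coeff_monomial, if_neg (Ne.symm hb), zero_smul]
    · intro h
      exact absurd (Finset.mem_range.2 hk) h
  · rw [Z_zero H hk, smul_zero]
    refine Finset.sum_eq_zero fun b hb => ?_
    rw [coeff_monomial, if_neg (fun h => by have := Finset.mem_range.1 hb; omega), zero_smul]

theorem PP_one (H : NilB e m c E z) : PP e z c 1 = e := by
  have h := PP_monomial H 0 1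
  rw [monomial_zero_one] at h
  rw [h, one_smul]
  exact cvF_one e

theorem PP_X_pow (H : NilB e m c E z) (k : ℕ) : PP e z c (X ^ k) = cvF e (cvp z k) := by
  rw [X_pow_eq_monomial, PP_monomial H, one_smul]

theorem PP_mul (H : NilB e m c E z) (he : e ∈ CF F T) (hee : cvF e e = e)
    (p q : Polynomial F) : PP e z c (p * q) = cvF (PP e z c p) (PP e z c q) := by
  induction p using Polynomial.induction_on' with
  | add p₁ p₂ h₁ h₂ => rw [add_mul, map_add, map_add, add_cvF, h₁, h₂]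
  | monomial i r =>
    induction q using Polynomial.induction_on' with
    | add q₁ q₂ h₁ h₂ => rw [mul_add, map_add, map_add, cvF_add, h₁, h₂]
    | monomial j s =>
      rw [monomial_mul_monomial, PP_monomial H, PP_monomial H, PP_monomial H, cvF_smul,
        smul_cvF, smul_smul, mul_comm r s]
      congr 1
      rw [cvF_assoc, ← cvF_assoc (cvp z i), ← cvF_comm he (cvp z i), cvF_assoc, ← cvF_assoc e e,
        hee, ← cvp_add]

theorem PP_mem (H : NilB e m c E z) (he : e ∈ CF F T) (p : Polynomial F) :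
    PP e z c p ∈ CF F T := by
  rw [PP_apply]
  exact Submodule.sum_mem _ fun k _ => Submodule.smul_mem _ _ (cvF_mem he (cvp_mem H.zc k))

theorem e_PP (H : NilB e m c E z) (he : e ∈ CF F T) (hee : cvF e e = e) (p : Polynomial F) :
    cvF e (PP e z c p) = PP e z c p := by
  have h := PP_mul H he hee 1 p
  rw [one_mul, PP_one H] at h
  exact h.symm

theorem PP_eq_zero (H : NilB e m c E z) {p : Polynomial F} (hp : PP e z c p = 0) :
    (X : Polynomial F) ^ c ∣ p := by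
  rw [PP_apply] at hp
  have h2 : ∑ i : Fin c, p.coeff (i : ℕ) • cvF e (cvp z (i : ℕ)) = 0 :=
    (Finset.sum_range (fun k => p.coeff k • cvF e (cvp z k))).symm.trans hp
  have h3 := indep H
  rw [Fintype.linearIndependent_iff] at h3
  have h4 := h3 (fun i : Fin c => p.coeff (i : ℕ)) h2
  rw [Polynomial.X_pow_dvd_iff]
  intro d hd
  exact h4 ⟨d, hd⟩

theorem PP_surj (H : NilB e m c E z) {w : T → F} (hw : ∃ t : ℕ → F,
    w = ∑ k ∈ Finset.range c, t k • cvF e (cvp z k)) : ∃ p, w = PP e z c p := by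
  obtain ⟨t, rfl⟩ := hw
  refine ⟨∑ k ∈ Finset.range c, monomial k (t k), ?_⟩
  rw [map_sum]
  exact Finset.sum_congr rfl fun k _ => (PP_monomial H k (t k)).symm

end poly

section kap

open Polynomial

variable {e : T → F} {m c : ℕ} {E : Fin m → Fin m → T → F} {z : T → F} {κ : MulAut T}

theorem K_cvF (κ : MulAut T) (a b : T → F) :
    (fun x => cvF a b (κ x)) = cvF (fun x => a (κ x)) (fun x => b (κ x)) := by
  funext x
  simp only [cvF]
  refine (Fintype.sum_equiv κ.toEquiv _ _ fun y => ?_).symm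
  have h : κ.toEquiv y = κ y := rfl
  rw [h, ← map_inv, ← map_mul]

omit [Fintype T] in
theorem K_mem (κ : MulAut T) {w : T → F} (hw : w ∈ CF F T) : (fun x => w (κ x)) ∈ CF F T := by
  intro g x
  show w (κ (g * x * g⁻¹)) = w (κ x)
  rw [map_mul, map_mul, map_inv]
  exact hw _ _

theorem y_succ (e z : T → F) (k : ℕ) :
    cvF e (cvp z (k + 1)) = cvF (cvF e (cvp z k)) z := by
  show cvF e (cvF (cvp z k) z) = _
  rw [cvF_assoc]

theorem K_PP (H : NilB e m c E z) (he : e ∈ CF F T) (hee : cvF e e = e)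
    (hκ : ∀ x, e (κ x) = e x) {q : Polynomial F} (hq : (fun x => z (κ x)) = PP e z c q)
    (p : Polynomial F) : (fun x => PP e z c p (κ x)) = PP e z c (p.comp q) := by
  have hy : ∀ k : ℕ, (fun x => cvF e (cvp z k) (κ x)) = PP e z c (q ^ k) := by
    intro k
    induction k with
    | zero =>
      rw [pow_zero, PP_one H]
      funext x
      have h : cvF e (cvp z 0) = e := cvF_one e
      rw [h]
      exact hκ x
    | succ k ih =>
      rw [y_succ, K_cvF, ih, hq, pow_succ, PP_mul H he hee]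
  induction p using Polynomial.induction_on' with
  | add p₁ p₂ h₁ h₂ =>
    rw [add_comp, map_add, map_add, ← h₁, ← h₂]
    rfl
  | monomial i r =>
    rw [PP_monomial H, monomial_comp, ← smul_eq_C_mul, map_smul, ← hy i]
    rfl

theorem exists_sq {R : Type} [CommRing R] (d : R) (k : ℕ) :
    ∃ s : R, (1 + d) ^ k = 1 + k * d + d ^ 2 * s := by
  induction k with
  | zero => exact ⟨0, by simp⟩
  | succ k ih =>
    obtain ⟨s, hs⟩ := ih
    refine ⟨k + s + s * d, ?_⟩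
    rw [pow_succ, hs]
    push_cast
    ring

theorem trans_pow (H : NilB e m c E z) (he : e ∈ CF F T) (hee : cvF e e = e) (u : T)
    {d : Polynomial F} (hd : (fun x => e (u⁻¹ * x) - e x) = PP e z c d) (j : ℕ) :
    (fun x => e ((u ^ j)⁻¹ * x)) = PP e z c ((1 + d) ^ j) := by
  have h1 : (fun x => e (u⁻¹ * x)) = PP e z c (1 + d) := by
    rw [map_add, PP_one H, ← hd]
    funext x
    show e (u⁻¹ * x) = e x + (e (u⁻¹ * x) - e x)
    ring
  have h2 : ∀ f : T → F, cvF e f = f → cvF (fun x => e (u⁻¹ * x)) f = fun x => f (u⁻¹ * x) := by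
    intro f hf
    funext x
    conv_rhs => rw [← hf]
    simp only [cvF]
    refine Fintype.sum_equiv (Equiv.mulLeft u⁻¹) _ _ fun y => ?_
    rw [Equiv.coe_mulLeft]
    congr 2
    group
  induction j with
  | zero =>
    rw [pow_zero, pow_zero, PP_one H]
    funext x
    rw [inv_one, one_mul]
  | succ j ih =>
    have h3 := h2 _ (e_PP H he hee ((1 + d) ^ j))
    rw [pow_succ' (1 + d), PP_mul H he hee, ← h1, h3, ← ih]
    funext x
    show e ((u ^ (j + 1))⁻¹ * x) = e ((u ^ j)⁻¹ * (u⁻¹ * x))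
    rw [pow_succ', mul_inv_rev, mul_assoc]

/-- The constant term of `q` is zero. -/
theorem X_dvd_q (H : NilB e m c E z) (he : e ∈ CF F T) (hee : cvF e e = e)
    (hκ : ∀ x, e (κ x) = e x) (hc : 0 < c) {q : Polynomial F}
    (hq : (fun x => z (κ x)) = PP e z c q) : (X : Polynomial F) ∣ q := by
  have h1 := K_PP H he hee hκ hq (X ^ c)
  rw [X_pow_comp, PP_X_pow H, Z_zero H le_rfl] at h1
  have h2 : PP e z c (q ^ c) = 0 := h1.symm
  have h3 := PP_eq_zero H h2
  exact Polynomial.prime_X.dvd_of_dvd_pow ((dvd_pow_self X hc.ne').trans h3)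

end kap

section alpha

open Polynomial

variable {e : T → F} {m c : ℕ} {E : Fin m → Fin m → T → F} {z : T → F} {κ : MulAut T}

/-- The equation `α ^ a = k`. -/
theorem alpha_pow (H : NilB e m c E z) (he : e ∈ CF F T) (hee : cvF e e = e)
    (hκ : ∀ x, e (κ x) = e x)
    (hspan : ∀ w ∈ CF F T, cvF e w = w → ∃ t : ℕ → F,
      w = ∑ k ∈ Finset.range c, t k • cvF e (cvp z k))
    {q₁ : Polynomial F} (hq : (fun x => z (κ x)) = PP e z c (X * q₁)) {a : ℕ} (ha : 0 < a)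
    (hac : a < c) (k : ℕ) (u : T) (hu : κ (u ^ k) = u) {w : T → F} (hw : w ∈ CF F T)
    (hew : cvF e w = w) (hinv : ∃ w' ∈ CF F T, cvF w w' = e)
    (hd : ∀ x, e (u⁻¹ * x) - e x = cvF w (cvp z a) x) :
    (q₁.coeff 0) ^ a = (k : F) := by
  obtain ⟨w', hw', hww⟩ := hinv
  obtain ⟨wp, hwp⟩ := PP_surj H (hspan w hw hew)
  obtain ⟨wq, hwq⟩ := PP_surj H (hspan (cvF e w') (cvF_mem he hw')
    (by rw [← cvF_assoc, hee]))
  have h1 : PP e z c (wp * wq - 1) = 0 := by
    rw [map_sub, PP_mul H he hee, ← hwp, ← hwq, PP_one H, ← cvF_assoc, ← cvF_comm he w, hew,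
      hww, sub_self]
  have hX : ∀ p : Polynomial F, PP e z c p = 0 → p.coeff 0 = 0 := by
    intro p hp
    have h := PP_eq_zero H hp
    rw [X_pow_dvd_iff] at h
    exact h 0 (by omega)
  have h2 : wp.coeff 0 ≠ 0 := by
    intro h
    have h3 := hX _ h1
    rw [coeff_sub, mul_coeff_zero, h, zero_mul, coeff_one_zero, zero_sub, neg_eq_zero] at h3
    exact one_ne_zero h3
  have hdP : (fun x => e (u⁻¹ * x) - e x) = PP e z c (wp * X ^ a) := by
    rw [PP_mul H he hee, ← hwp, PP_X_pow H, ← cvF_assoc, ← cvF_comm he w, hew]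
    funext x
    exact hd x
  -- the image under the automorphism
  have h3 := K_PP H he hee hκ hq (wp * X ^ a)
  rw [← hdP] at h3
  have h4 : (fun x => e (u⁻¹ * κ x) - e (κ x)) =
      PP e z c ((1 + wp * X ^ a) ^ k - 1) := by
    rw [map_sub, ← trans_pow H he hee u hdP k, PP_one H]
    funext x
    show e (u⁻¹ * κ x) - e (κ x) = e ((u ^ k)⁻¹ * x) - e x
    rw [hκ x, ← hκ ((u ^ k)⁻¹ * x), map_mul, map_inv, hu]
  have h5 : PP e z c ((wp * X ^ a).comp (X * q₁) - ((1 + wp * X ^ a) ^ k - 1)) = 0 := by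
    rw [map_sub, ← h3, ← h4, sub_self]
  have h6 := PP_eq_zero H h5
  obtain ⟨s, hs⟩ := exists_sq (wp * X ^ a) k
  have h7 : (wp * X ^ a).comp (X * q₁) - ((1 + wp * X ^ a) ^ k - 1) =
      X ^ a * (wp.comp (X * q₁) * q₁ ^ a - (k : Polynomial F) * wp - wp ^ 2 * X ^ a * s) := by
    rw [hs, mul_comp, X_pow_comp, mul_pow]
    ring
  rw [h7] at h6
  have h8 : (X : Polynomial F) ^ (a + 1) ∣
      X ^ a * (wp.comp (X * q₁) * q₁ ^ a - (k : Polynomial F) * wp - wp ^ 2 * X ^ a * s) :=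
    (pow_dvd_pow X (by omega)).trans h6
  rw [pow_succ] at h8
  have h9 := (mul_dvd_mul_iff_left (pow_ne_zero a X_ne_zero)).1 h8
  rw [X_dvd_iff] at h9
  have h10 : (wp.comp (X * q₁)).coeff 0 = wp.coeff 0 := by
    rw [coeff_zero_eq_eval_zero, coeff_zero_eq_eval_zero, eval_comp, eval_mul, eval_X, zero_mul]
  have h11 : ((k : Polynomial F)).coeff 0 = (k : F) := by
    rw [coeff_natCast_ite, if_pos rfl]
  have h12 : (q₁ ^ a).coeff 0 = q₁.coeff 0 ^ a := by
    rw [coeff_zero_eq_eval_zero, eval_pow, ← coeff_zero_eq_eval_zero]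
  rw [coeff_sub, coeff_sub, mul_coeff_zero, h10, h12, mul_coeff_zero, h11, mul_coeff_zero,
    mul_coeff_zero, coeff_X_pow, if_neg ha.ne, mul_zero, zero_mul, sub_zero, mul_comm (k : F),
    ← mul_sub, mul_eq_zero] at h9
  rcases h9 with h9 | h9
  · exact absurd h9 h2
  · exact sub_eq_zero.1 h9

theorem alpha_eq (ℓ n : ℕ) [Fact ℓ.Prime] [CharP F ℓ] (α : F) (k : ℕ)
    (h : α ^ (ℓ ^ n) = (k : F)) : α = (k : F) := by
  apply iterateFrobenius_inj F ℓ n
  rw [map_natCast, iterateFrobenius_def, h]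

end alpha

section chp

open Polynomial

variable {e : T → F} {m c : ℕ} {E : Fin m → Fin m → T → F} {z : T → F} {κ : MulAut T}

/-- The centre of the block. -/
def Zs (e z : T → F) (c : ℕ) : Submodule F (T → F) :=
  Submodule.span F (Set.range fun k : Fin c => cvF e (cvp z k))

theorem mem_Zs (H : NilB e m c E z) (he : e ∈ CF F T) (hee : cvF e e = e)
    (hspan : ∀ w ∈ CF F T, cvF e w = w → ∃ t : ℕ → F,
      w = ∑ k ∈ Finset.range c, t k • cvF e (cvp z k)) (w : T → F) :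
    w ∈ Zs e z c ↔ w ∈ CF F T ∧ cvF e w = w := by
  constructor
  · intro hw
    refine Submodule.span_induction (p := fun w _ => w ∈ CF F T ∧ cvF e w = w)
      ?_ ?_ ?_ ?_ hw
    · rintro _ ⟨k, rfl⟩
      exact ⟨cvF_mem he (cvp_mem H.zc k), by rw [← cvF_assoc, hee]⟩
    · exact ⟨(CF F T).zero_mem, cvF_zero e⟩
    · rintro a b _ _ ⟨ha, ha'⟩ ⟨hb, hb'⟩
      exact ⟨(CF F T).add_mem ha hb, by rw [cvF_add, ha', hb']⟩
    · rintro r a _ ⟨ha, ha'⟩
      exact ⟨(CF F T).smul_mem r ha, by rw [cvF_smul, ha']⟩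
  · rintro ⟨h1, h2⟩
    obtain ⟨t, ht⟩ := hspan w h1 h2
    rw [ht]
    exact Submodule.sum_mem _ fun k hk => Submodule.smul_mem _ _
      (Submodule.subset_span ⟨⟨k, Finset.mem_range.1 hk⟩, rfl⟩)

theorem K_Zs (H : NilB e m c E z) (he : e ∈ CF F T) (hee : cvF e e = e)
    (hspan : ∀ w ∈ CF F T, cvF e w = w → ∃ t : ℕ → F,
      w = ∑ k ∈ Finset.range c, t k • cvF e (cvp z k)) (hκ : ∀ x, e (κ x) = e x) :
    ∀ w ∈ Zs e z c, LinearMap.funLeft F F κ w ∈ Zs e z c := by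
  intro w hw
  rw [mem_Zs H he hee hspan] at hw ⊢
  refine ⟨K_mem κ hw.1, ?_⟩
  have h := K_cvF κ e w
  rw [hw.2] at h
  have h2 : (fun x => e (κ x)) = e := funext hκ
  rw [h2] at h
  exact h.symm

/-- The automorphism on the centre of the block. -/
noncomputable def KZ {e z : T → F} {c : ℕ} {κ : MulAut T}
    (h : ∀ w ∈ Zs e z c, LinearMap.funLeft F F κ w ∈ Zs e z c) : Module.End F (Zs e z c) :=
  (LinearMap.funLeft F F κ).restrict h

theorem charpoly_KZ (H : NilB e m c E z) (he : e ∈ CF F T) (hee : cvF e e = e)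
    (hκ : ∀ x, e (κ x) = e x) (h : ∀ w ∈ Zs e z c, LinearMap.funLeft F F κ w ∈ Zs e z c)
    {q₁ : Polynomial F} (hq : (fun x => z (κ x)) = PP e z c (X * q₁)) :
    (KZ h).charpoly = ∏ i : Fin c, (X - C ((q₁.coeff 0) ^ (i : ℕ))) := by
  classical
  let b : Module.Basis (Fin c) F (Zs e z c) := Module.Basis.span (indep H)
  have hb : ∀ i : Fin c, ((b i : Zs e z c) : T → F) = cvF e (cvp z i) := fun i =>
    congrArg Subtype.val (Module.Basis.span_apply (indep H) i)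
  have hent : ∀ i j : Fin c, LinearMap.toMatrix b b (KZ h) i j =
      ((X * q₁) ^ (j : ℕ)).coeff i := by
    intro i j
    rw [LinearMap.toMatrix_apply]
    have h1 : KZ h (b j) = ∑ i : Fin c, (((X * q₁) ^ (j : ℕ)).coeff i) • b i := by
      apply Subtype.ext
      rw [AddSubmonoidClass.coe_finsetSum]
      have h2 := K_PP H he hee hκ hq (X ^ (j : ℕ))
      rw [X_pow_comp, PP_X_pow H, PP_apply, Finset.sum_range] at h2
      have h3 : ((KZ h (b j) : Zs e z c) : T → F) = fun x => cvF e (cvp z j) (κ x) := by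
        rw [← hb j]
        rfl
      rw [h3, h2]
      refine Finset.sum_congr rfl fun k _ => ?_
      rw [Submodule.coe_smul, hb k]
    rw [h1, Module.Basis.repr_sum_self]
  rw [← LinearMap.charpoly_toMatrix (KZ h) b, ← Matrix.charpoly_transpose,
    Matrix.charpoly_of_isUpperTriangular]
  · refine Finset.prod_congr rfl fun i _ => ?_
    rw [Matrix.transpose_apply, hent, mul_pow]
    congr 2
    have h4 : (X ^ (i : ℕ) * q₁ ^ (i : ℕ)).coeff ((i : ℕ)) = (q₁ ^ (i : ℕ)).coeff 0 := by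
      rw [coeff_X_pow_mul', if_pos le_rfl, Nat.sub_self]
    rw [h4, coeff_zero_eq_eval_zero, eval_pow, ← coeff_zero_eq_eval_zero]
  · intro i j hij
    rw [Matrix.transpose_apply, hent, mul_pow, coeff_X_pow_mul', if_neg]
    have : (j : ℕ) < i := hij
    omega

theorem rootMult_prod {ι : Type} [Fintype ι] (a : ι → F) (μ : F) :
    (∏ i : ι, (X - C (a i))).rootMultiplicity μ = Nat.card {i : ι // a i = μ} := by
  classical
  have h1 : (∏ i : ι, (X - C (a i))).roots = Multiset.map a Finset.univ.val := by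
    have h2 : (∏ i : ι, (X - C (a i))) =
        (Multiset.map (fun r => X - C r) (Multiset.map a Finset.univ.val)).prod := by
      rw [Multiset.map_map]
      rfl
    rw [h2, roots_multiset_prod_X_sub_C]
  rw [← count_roots, h1, Multiset.count_map, Nat.card_eq_fintype_card, Fintype.card_subtype]
  rw [Finset.card_def, Finset.filter_val]
  congr 2
  funext i
  exact propext eq_comm

end chp

section mlt

variable {e : T → F} {m c : ℕ} {E : Fin m → Fin m → T → F} {z : T → F} {κ : MulAut T}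

theorem sub_smul_apply {V : Type} [AddCommGroup V] [Module F V] (f : Module.End F V) (μ : F)
    (v : V) : (f - μ • (1 : Module.End F V)) v = f v - μ • v := by
  rw [LinearMap.sub_apply, LinearMap.smul_apply, Module.End.one_apply]

/-- The operator on the class functions and the automorphism on the centre of the block. -/
theorem inv'_A (e : T → F) (hκ : ∀ x, e (κ x) = e x) {v : T → F} (hv : v ∈ CF F T) :
    inv' ((Lz e ∘ₗ LinearMap.funLeft F F κ) v) = fun x => cvF e (inv' v) (κ x) := by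
  have h1 : (fun x => v (κ x)) ∈ CF F T := K_mem κ hv
  have h2 : inv' (Lz e (fun x => v (κ x))) = cvF e (inv' (fun x => v (κ x))) := inv'_Lz e h1
  rw [K_cvF]
  have h3 : (fun x => e (κ x)) = e := funext hκ
  rw [h3]
  have h4 : inv' (fun x => v (κ x)) = fun x => inv' v (κ x) := by
    funext x
    rw [inv'_apply, inv'_apply, map_inv]
  rw [← h4, ← h2]
  rfl

theorem e_of_gen (he : e ∈ CF F T) (hee : cvF e e = e) (hκ : ∀ x, e (κ x) = e x) {μ : F}
    (hμ : μ ≠ 0) (N : ℕ) : ∀ v ∈ CF F T,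
    ((Lz e ∘ₗ LinearMap.funLeft F F κ - μ • (1 : Module.End F (T → F))) ^ N) v = 0 →
      cvF e (inv' v) = inv' v := by
  induction N with
  | zero =>
    intro v _ hv
    rw [pow_zero, Module.End.one_apply] at hv
    rw [hv, map_zero, cvF_zero]
  | succ N ih =>
    intro v hv h0
    set A := Lz e ∘ₗ LinearMap.funLeft F F κ with hA
    have h1 : (fun x => cvF e (inv' v) (κ x)) ∈ CF F T :=
      K_mem κ (cvF_mem he (inv'_mem hv))
    have h2 : A v ∈ CF F T := by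
      have h := inv'_mem (F := F) (T := T) h1
      rw [← inv'_A e hκ hv, inv'_inv'] at h
      exact h
    have h3 : (A - μ • (1 : Module.End F (T → F))) v ∈ CF F T := by
      rw [sub_smul_apply]
      exact (CF F T).sub_mem h2 ((CF F T).smul_mem μ hv)
    have h4 := ih _ h3 (by rw [← Module.End.mul_apply, ← pow_succ]; exact h0)
    rw [sub_smul_apply, map_sub, map_smul, inv'_A e hκ hv] at h4
    have h5 : cvF e (fun x => cvF e (inv' v) (κ x)) = fun x => cvF e (inv' v) (κ x) := by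
      have h6 := K_cvF κ e (cvF e (inv' v))
      have h7 : (fun x => e (κ x)) = e := funext hκ
      rw [h7, ← cvF_assoc, hee] at h6
      exact h6.symm
    have h8 : ∀ a b : T → F, cvF e (a - b) = cvF e a - cvF e b := by
      intro a b
      funext x
      simp only [cvF, Pi.sub_apply, mul_sub, Finset.sum_sub_distrib]
    rw [h8, h5, cvF_smul] at h4
    have h9 : μ • cvF e (inv' v) = μ • inv' v := sub_right_injective h4
    exact smul_right_injective _ hμ h9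

theorem A_pow (e z : T → F) (c : ℕ) (hZ : ∀ w ∈ Zs e z c, w ∈ CF F T ∧ cvF e w = w)
    (hκ : ∀ x, e (κ x) = e x) (h : ∀ w ∈ Zs e z c, LinearMap.funLeft F F κ w ∈ Zs e z c)
    (μ : F) (N : ℕ) (w : Zs e z c) :
    ((Lz e ∘ₗ LinearMap.funLeft F F κ - μ • (1 : Module.End F (T → F))) ^ N) (inv' (w : T → F)) =
      inv' ((((KZ h - μ • (1 : Module.End F (Zs e z c))) ^ N) w : Zs e z c) : T → F) := by
  induction N generalizing w with
  | zero => rfl
  | succ N ih =>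
    rw [pow_succ, pow_succ, Module.End.mul_apply, Module.End.mul_apply, ← ih]
    congr 1
    rw [sub_smul_apply, sub_smul_apply]
    have h1 := inv'_A e hκ (inv'_mem (hZ w w.2).1)
    rw [inv'_inv', (hZ w w.2).2] at h1
    have h2 : (Lz e ∘ₗ LinearMap.funLeft F F κ) (inv' (w : T → F)) =
        inv' (fun x => (w : T → F) (κ x)) := by
      rw [← h1, inv'_inv']
    rw [h2]
    have h3 : ((KZ h w - μ • w : Zs e z c) : T → F) = (fun x => (w : T → F) (κ x)) -
        μ • (w : T → F) := rfl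
    rw [h3, map_sub, map_smul]

theorem mlt_eq (H : NilB e m c E z) (he : e ∈ CF F T) (hee : cvF e e = e)
    (hspan : ∀ w ∈ CF F T, cvF e w = w → ∃ t : ℕ → F,
      w = ∑ k ∈ Finset.range c, t k • cvF e (cvp z k)) (hκ : ∀ x, e (κ x) = e x)
    (h : ∀ w ∈ Zs e z c, LinearMap.funLeft F F κ w ∈ Zs e z c) {μ : F} (hμ : μ ≠ 0) :
    mlt (CF F T) (Lz e ∘ₗ LinearMap.funLeft F F κ) μ = (KZ h).charpoly.rootMultiplicity μ := by
  have hZ : ∀ w ∈ Zs e z c, w ∈ CF F T ∧ cvF e w = w :=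
    fun w hw => (mem_Zs H he hee hspan w).1 hw
  have h1 : Module.End.maxGenEigenspace (Lz e ∘ₗ LinearMap.funLeft F F κ) μ ⊓ CF F T =
      (((KZ h).maxGenEigenspace μ).map (Zs e z c).subtype).map
        (inv' (F := F) (T := T)).toLinearMap := by
    ext v
    rw [Submodule.mem_inf, Submodule.mem_map, Module.End.mem_maxGenEigenspace]
    constructor
    · rintro ⟨⟨N, hN⟩, hv⟩
      have h2 := e_of_gen he hee hκ hμ N v hv hN
      have h3 : inv' v ∈ Zs e z c := (mem_Zs H he hee hspan _).2 ⟨inv'_mem hv, h2⟩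
      refine ⟨inv' v, ?_, inv'_inv' v⟩
      rw [Submodule.mem_map]
      refine ⟨⟨inv' v, h3⟩, ?_, rfl⟩
      rw [Module.End.mem_maxGenEigenspace]
      refine ⟨N, ?_⟩
      have h4 := A_pow e z c hZ hκ h μ N ⟨inv' v, h3⟩
      rw [inv'_inv', hN] at h4
      apply Subtype.ext
      apply (inv' (F := F) (T := T)).injective
      rw [← h4]
      exact (map_zero _).symm
    · rintro ⟨w, hw, rfl⟩
      rw [Submodule.mem_map] at hw
      obtain ⟨w, hw, rfl⟩ := hw
      rw [Module.End.mem_maxGenEigenspace] at hw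
      obtain ⟨N, hN⟩ := hw
      refine ⟨⟨N, ?_⟩, inv'_mem (hZ w w.2).1⟩
      have h4 := A_pow e z c hZ hκ h μ N w
      rw [hN] at h4
      exact h4.trans (map_zero _)
  unfold mlt
  rw [h1, LinearEquiv.finrank_map_eq, Submodule.finrank_map_subtype_eq,
    LinearMap.finrank_maxGenEigenspace_eq]

theorem KZ_pow (h : ∀ w ∈ Zs e z c, LinearMap.funLeft F F κ w ∈ Zs e z c) (N : ℕ) :
    ∀ w : Zs e z c, (((KZ h ^ N) w : Zs e z c) : T → F) = fun x => (w : T → F) ((κ ^ N) x) := by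
  induction N with
  | zero => intro w; rfl
  | succ N ih =>
    intro w
    have h1 : (KZ h ^ (N + 1)) w = (KZ h ^ N) (KZ h w) := by
      rw [pow_succ, Module.End.mul_apply]
    rw [h1, ih]
    funext x
    show (w : T → F) (κ ((κ ^ N) x)) = (w : T → F) ((κ ^ (N + 1)) x)
    rw [pow_succ', MulAut.mul_apply]

end mlt

end ZACX

open _root_.Pool.Agent.DPX.ZACX Polynomial in
/-- ZACX: the action of an automorphism on the centre of a block whose defect groups contain a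
central subgroup of order `ℓ`. -/
theorem ZACX_thm (h1 : Stmt_DIMX) (h2 : Stmt_CENX) : Stmt_ZACX := by
  classical
  intro ℓ n _ F C _ _ _ _ P₁ hcen hcard e he hee hne m E z H κ hκ k hk
  have hnor : P₁.Normal := by
    refine ⟨fun u hu g => ?_⟩
    have h := Subgroup.mem_center_iff.mp (hcen hu) g
    rw [h, mul_inv_cancel_right]
    exact hu
  have : Fintype (C ⧸ P₁) := Fintype.ofFinite _
  have hp : ℓ.Prime := Fact.out
  have hspan := (h2 F C e he hee hne m (ℓ ^ n) E z H).2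
  obtain ⟨a, ha, -, hd⟩ := h1 ℓ F C (C ⧸ P₁) (QuotientGroup.mk' P₁) P₁ e
    (QuotientGroup.mk'_surjective P₁) (QuotientGroup.ker_mk' P₁) hcen hcard he hee hne m (ℓ ^ n)
    E z H
  have hn : ∃ n', n = n' + 1 := by
    rcases n with _ | n
    · rw [pow_zero] at ha
      exact absurd (Nat.eq_one_of_mul_eq_one_right ha.symm) hp.one_lt.ne'
    · exact ⟨n, rfl⟩
  obtain ⟨n', rfl⟩ := hn
  have ha' : a = ℓ ^ n' := by
    rw [pow_succ, mul_comm] at ha
    exact (Nat.eq_of_mul_eq_mul_left hp.pos ha).symm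
  have hc0 : 0 < ℓ ^ (n' + 1) := pow_pos hp.pos _
  have hKZ := K_Zs H he hee hspan hκ
  -- the polynomial of the automorphism
  have hzK : (fun x => z (κ x)) ∈ CF F C ∧ cvF e (fun x => z (κ x)) = fun x => z (κ x) := by
    refine ⟨K_mem κ H.zc, ?_⟩
    have h := K_cvF κ e z
    have h3 : (fun x => e (κ x)) = e := funext hκ
    rw [H.ze, h3] at h
    exact h.symm
  obtain ⟨q, hq⟩ := PP_surj H (hspan _ hzK.1 hzK.2)
  obtain ⟨q₁, rfl⟩ := X_dvd_q H he hee hκ hc0 hq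
  -- the constant term
  have hα : q₁.coeff 0 = (k : F) := by
    obtain ⟨u, hu, hu1⟩ : ∃ u ∈ P₁, u ≠ 1 := by
      by_contra hcon
      push Not at hcon
      have h3 : P₁ = ⊥ := (Subgroup.eq_bot_iff_forall P₁).2 hcon
      rw [h3, Subgroup.card_bot] at hcard
      exact hp.one_lt.ne hcard
    obtain ⟨w, hw, hew, hinv, hdw⟩ := hd u hu hu1
    have h4 := alpha_pow H he hee hκ hspan hq (a := a)
      (by rw [ha']; exact pow_pos hp.pos _)
      (by rw [ha']; exact Nat.pow_lt_pow_right hp.one_lt (Nat.lt_succ_self n'))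
      k u (hk u hu) hw hew hinv hdw
    rw [ha'] at h4
    exact alpha_eq ℓ n' _ k h4
  have hch := charpoly_KZ H he hee hκ hKZ hq
  rw [hα] at hch
  constructor
  · intro μ hμ
    rw [mlt_eq H he hee hspan hκ hKZ hμ, hch, rootMult_prod]
  · rintro hk1 ⟨N, hN, g, hg⟩ w hw hew x
    rw [hk1] at hch
    have h5 : (KZ hKZ).charpoly = X ^ (ℓ ^ (n' + 1)) - 1 := by
      rw [hch]
      simp only [one_pow, Finset.prod_const, Finset.card_univ, Fintype.card_fin, map_one]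
      rw [sub_pow_char_pow, one_pow]
    have h6 := LinearMap.aeval_self_charpoly (KZ hKZ)
    rw [h5, map_sub, map_pow, aeval_X, map_one, sub_eq_zero] at h6
    have h8 : KZ hKZ ^ N = 1 := by
      apply LinearMap.ext
      intro w
      apply Subtype.ext
      rw [KZ_pow]
      funext x
      rw [hg]
      exact ((mem_Zs H he hee hspan _).1 w.2).1 g x
    have h9 := pow_gcd_eq_one.2 ⟨h8, h6⟩
    have h10 : N.gcd (ℓ ^ (n' + 1)) = 1 :=
      Nat.Coprime.pow_right _ ((Nat.Prime.coprime_iff_not_dvd hp).2 hN).symm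
    rw [h10, pow_one] at h9
    have h11 : w ∈ Zs e z (ℓ ^ (n' + 1)) := (mem_Zs H he hee hspan w).2 ⟨hw, hew⟩
    have h12 := congrArg (fun f : Module.End F (Zs e z (ℓ ^ (n' + 1))) =>
      ((f ⟨w, h11⟩ : Zs e z (ℓ ^ (n' + 1))) : C → F) x) h9
    exact h12

end Pool.Agent.DPX


end
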