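import Mathlib
import Pool.Agent.DAM.C08
import Pool.Agent.DAM.C10
import Pool.Agent.DAM.C11
import Pool.Agent.DAM.C12
import Pool.Agent.DAM.C14
import Pool.Agent.DAM.C15
import Pool.Agent.DAM.C17
import Pool.Agent.DAM.C18
import Pool.Agent.DAM.C19
import Pool.Agent.DAM.C20
import Pool.Agent.DAM.C21
import Pool.Agent.DAM.C22
import Pool.Agent.DAM.C23
import Pool.Agent.DAM.C24
import Pool.Agent.DAM.C25
import Pool.Agent.DAM.C26
import Pool.Agent.DAM.C29
import Pool.Agent.DAM.C31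
import Pool.Agent.DAM.C32
import Pool.Agent.DAM.C34
import Pool.Agent.DAM.C37
import Pool.Agent.DAM.C39
import Pool.Agent.DAM.C41
import Pool.Agent.DAM.C42
import Pool.Agent.DAM.C43
import Pool.Agent.DAM.C44
import Pool.Agent.DAM.C46
import Pool.Agent.DAM.C47
import Pool.Agent.DAM.C48
import Pool.Agent.DAM.C49
import Pool.Agent.DAM.C51
import Pool.Agent.DAM.C52
import Pool.Agent.DAM.C54
import Pool.Agent.DAM.C55
import Pool.Agent.DAM.C56
import Pool.Agent.DAM.C58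
import Pool.Agent.DAM.C59
import Pool.Agent.DAM.C61
import Pool.Agent.DAM.C62
import Pool.Agent.DAM.C63
import Pool.Agent.DAM.C66
import Pool.Agent.DAM.C67
import Pool.Agent.DAM.C71
import Pool.Agent.DAM.C73
import Pool.Agent.DAM.C75
import Pool.Agent.DAM.C77
import Pool.Agent.DAM.C79
import Pool.Agent.DAM.C80
import Pool.Agent.DAM.C81
import Pool.Agent.DAM.C83
import Pool.Agent.DAM.C84
import Pool.Agent.DAM.C85
import Pool.Agent.DAM.C86
import Pool.Agent.DAM.C87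
import Pool.Agent.DAM.C88

/-! Parts: DPN.YVL, DPK.CONSr, DP.FinalR, DP.Main, DP.CLOSED, DP.TRC, DP.All, DP.LKA, DP.ASH, DP.ASC, DP.PERCR, DP.CNTG, DP.COMBR, DP.ZRR, DP.AllR, DPC.ASH, DPV.ASV, DPV.HATC, DPV.RX0V, DPC.LTR, DPC.ASC, DPC.CNTG, DPC.AllC, DPB.PDZ, DPB.AllB, DPV.FIXV, DPW.FXB, DPG.IRC, DPH.TDQ -/

section

/-!
# YVL: the scalars of the class functions on the fibre product
-/

namespace Pool.Agent.DPN

open Pool.Agent.DP Pool.Agent.DPC Pool.Agent.DPM Pool.Agent.Lib_helper13 Representation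

namespace YVL

variable {A T H W B V : Type} [Group A] [Fintype A] [Group T] [Fintype T] [Group H] [Fintype H]
    [Group W] [Fintype W] [Group B] [Fintype B] [Group V] [Fintype V]

omit [Fintype A] [Fintype T] in
/-- Conjugates of invariant functions are invariant. -/
theorem aiv_conj {j : A →* T} (hn : ∀ t a, ∃ a', j a' = t * j a * t⁻¹) {u : T → ℤ}
    (hu : AIv j u) (t : T) : AIv j (fun x => u (t⁻¹ * x * t)) := by
  intro a x
  obtain ⟨a', ha'⟩ := hn t⁻¹ a
  show u (t⁻¹ * (j a * x * (j a)⁻¹) * t) = u (t⁻¹ * x * t)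
  rw [← hu a' (t⁻¹ * x * t), ha']
  congr 1
  group

open Classical in
/-- The sum over the fibre is additive. -/
theorem fib_sum (β : B →* V) (E : B → ℂ) (d : ℂ) (F : V → B → ℂ) (s v : V) :
    fib β E d (fun b => ∑ v' : V, if v'⁻¹ * β b * v' = s then F v' b else 0) v =
      ∑ v' : V, if v' * s * v'⁻¹ = v then fib β E d (F v') v else 0 := by
  unfold fib
  have h1 : ∀ b : B, (if β b = v then
      (∑ v' : V, if v'⁻¹ * β b * v' = s then F v' b else 0) * E b else 0) =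
      ∑ v' : V, if v' * s * v'⁻¹ = v then (if β b = v then F v' b * E b else 0) else 0 := by
    intro b
    by_cases hb : β b = v
    · simp only [if_pos hb]
      rw [Finset.sum_mul]
      refine Finset.sum_congr rfl fun v' _ => ?_
      have e : (v'⁻¹ * β b * v' = s) ↔ v' * s * v'⁻¹ = v := by
        rw [hb]
        constructor
        · rintro rfl
          group
        · intro h
          rw [← h]
          group
      by_cases h : v' * s * v'⁻¹ = v
      · rw [if_pos h, if_pos (e.2 h)]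
      · rw [if_neg h, if_neg (fun h' => h (e.1 h')), zero_mul]
    · simp only [if_neg hb]
      simp
  rw [Finset.sum_congr rfl fun b _ => h1 b, Finset.sum_comm, Finset.sum_div]
  refine Finset.sum_congr rfl fun v' _ => ?_
  by_cases h : v' * s * v'⁻¹ = v
  · simp only [if_pos h]
  · simp only [if_neg h]
    simp

end YVL

open _root_.Pool.Agent.DPN.YVL in
theorem YVL_thm : Stmt_YVL := by
  classical
  intro A T H W B V _ _ _ _ _ _ _ _ _ _ _ _ 𝔐 ℓ _ _ _ a j p θ π μ Lm hR hn hθ f α β hαβ jB cB hC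
    hα E hE hr hL u hu s t ht v
  rw [fib_sum β E (θ 1) (fun v' b => ((u ((t v')⁻¹ * α b * t v') : ℤ) : ℂ)) s v]
  have hint : ∀ v' : V, IsIntegral ℤ
      (fib β E (θ 1) (fun b => ((u ((t v')⁻¹ * α b * t v') : ℤ) : ℂ)) v) := by
    intro v'
    refine FIBI.int_fib hC hθ hE hr _ ?_ ?_ v
    · intro x b
      have h2 := aiv_conj hn hu (t v') x (α b)
      have h3 : α (jB x * b * (jB x)⁻¹) = j x * α b * (j x)⁻¹ := by
        rw [map_mul, map_mul, map_inv, hα]
      simp only at h2 ⊢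
      rw [h3, h2]
    · intro b
      exact isIntegral_algebraMap
  rw [red_sum]
  · have h1 : ∀ v' : V, red 𝔐 (if v' * s * v'⁻¹ = v then
        fib β E (θ 1) (fun b => ((u ((t v')⁻¹ * α b * t v') : ℤ) : ℂ)) v else 0) =
        if v' * s * v'⁻¹ = v then Lm u (f s) else 0 := by
      intro v'
      by_cases h : v' * s * v'⁻¹ = v
      · rw [if_pos h, if_pos h, hL _ (aiv_conj hn hu (t v')) v,
          ← hR.eqv u hu (t v') (f v') (ht v') (f s), ← h]
        congr 1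
        rw [map_mul, map_mul, map_inv]
      · rw [if_neg h, if_neg h, red_zero]
    rw [Finset.sum_congr rfl fun v' _ => h1 v', ← Finset.sum_filter, Finset.sum_const,
      nsmul_eq_mul, Nat.card_eq_fintype_card, Fintype.card_subtype]
  · intro v' _
    by_cases h : v' * s * v'⁻¹ = v
    · rw [if_pos h]
      exact hint v'
    · rw [if_neg h]
      exact isIntegral_zero

end Pool.Agent.DPN


end

section

/-!
# CONSr: only the characters with the same defect as `θ` contribute (groups of a class)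
-/

namespace Pool.Agent.DPK

open Pool.Agent.DP Pool.Agent.DPC Pool.Agent.DPM Pool.Agent.DPN Pool.Agent.Lib_helper13
open Representation
open Pool.Agent.Lib_helper13.Dade (pCore DadeHolds dadeSum)

/-- CONS: only the characters with the same defect as `θ` contribute. -/
theorem CONSr_thm (Cl : ∀ (Y : Type) [Group Y], Prop) (_hC : GC Cl) (h1 : Stmt_TDMr Cl) :
    Stmt_CONSr Cl := by
  classical
  intro A T H X _ _ _ _ _ _ _ _ 𝔐 ℓ _ hmax hℓ j c p hcl hp hcore hCl hHQ θ hθ hinv a d ha hda i ω m hm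
  rcases lt_or_gt_of_ne hda with hd | hd
  · refine Finset.sum_eq_zero fun V _ => ?_
    rw [CONS.small 𝔐 ℓ hcl hθ ha hd i {ω} V, mul_zero, mul_zero]
  · obtain ⟨Γ, L, _, _, _, _, e, q, r, E, U, μ, π, htw⟩ := TWC_thm A T H j c p hcl hp θ hθ hinv
    obtain ⟨F, hF1, hF2, hF3⟩ :=
      TWF_thm A T H Γ L X j c p hcl hp θ hθ hinv e q r E U μ π htw i
    have htdm := h1 L H 𝔐 ℓ hmax hℓ π htw.πs hcore hCl hHQ U μ htw.Uc htw.πk htw.cyc htw.inj
      (d - a + padicValNat ℓ (Nat.card U)) (by omega) m hm {c | ∀ g, pair 𝔐 (F g) c = ω g}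
    rw [← htdm]
    refine Finset.sum_congr rfl fun V _ => ?_
    obtain ⟨_, _, _, _, _, _, hdef, hcnt⟩ :=
      TWN_thm A T H Γ L ℓ j c p hcl hp θ hθ hinv e q r E U μ π htw V
    have key : Nat.card {ψ : ↥(V.comap p) → ℂ // IsIrr ψ ∧
          ip (fun a : A => ext0 ψ (j a)) θ ≠ 0 ∧ (HasDefect ℓ ψ d ∧
          cen 𝔐 (i.comp (V.comap p).subtype) ψ ∈ ({ω} : Set _))} =
        Nat.card {η : ↥(V.comap π) → ℂ // IsIrr η ∧ OvL U μ _ η ∧
          (HasDefect ℓ η (d - a + padicValNat ℓ (Nat.card U)) ∧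
          cen 𝔐 (V.comap π).subtype η ∈ {c | ∀ g, pair 𝔐 (F g) c = ω g})} := by
      apply hcnt (fun ψ => HasDefect ℓ ψ d ∧
          cen 𝔐 (i.comp (V.comap p).subtype) ψ ∈ ({ω} : Set _))
        (fun η => HasDefect ℓ η (d - a + padicValNat ℓ (Nat.card U)) ∧
          cen 𝔐 (V.comap π).subtype η ∈ {c | ∀ g, pair 𝔐 (F g) c = ω g})
      intro ψ η hψ hip hη hov hcor
      obtain ⟨d1, hd1⟩ := hψ.exists_defect (ℓ := ℓ)
      obtain ⟨d2, hd2⟩ := hη.exists_defect (ℓ := ℓ)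
      have h2 := hdef ψ η a d1 d2 hη hcor ha hd1 hd2
      have h3 : ∀ g, cen 𝔐 (i.comp (V.comap p).subtype) ψ g =
          pair 𝔐 (F g) (cen 𝔐 (V.comap π).subtype η) := by
        intro g
        have h4 := hF3 V ψ η hψ hη hov hcor g
        have h5 := red_wt_eq_pair 𝔐 (V.comap π).subtype hη (F g) (hF1 g) (hF2 g)
        rw [← h5]
        unfold cen
        exact congrArg (red 𝔐) h4
      refine and_congr ?_ ?_
      · constructor
        · intro h6
          have h7 : d1 = d := hd1.unique h6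
          have h8 : d - a + padicValNat ℓ (Nat.card U) = d2 := by omega
          rw [h8]
          exact hd2
        · intro h6
          have h7 : d2 = d - a + padicValNat ℓ (Nat.card U) := hd2.unique h6
          have h8 : d = d1 := by omega
          rw [h8]
          exact hd1
      · rw [Set.mem_singleton_iff, Set.mem_ofPred_eq]
        constructor
        · intro h6 g
          rw [← h3 g, h6]
        · intro h6
          funext g
          rw [h3 g, h6 g]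
    congr 2
    exact congrArg (Nat.cast (R := ℚ)) key

end Pool.Agent.DPK


end

section

/-!
# Theorem R: assembly
-/

namespace Pool.Agent.DP

open Pool.Agent.Lib_helper13 Representation
open Pool.Agent.Lib_helper13.Dade (pCore DadeHolds dadeSum IsIrrChar)

/-- The contribution of an outer chain. -/
theorem inner_zeroR (hRINNER : Stmt_RINNER) (hCORE : Stmt_CORE) (hCLOSEDR : Stmt_CLOSEDR)
    (hCLIFFR : Stmt_CLIFFR) (hVV : Stmt_VV) (hTJ : Stmt_TJ) (hCOMBR : Stmt_COMBR)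
    (hBLKBR : Stmt_BLKBR) (hBLKCR : Stmt_BLKCR)
    (Ω G B C X K : Type) [Fintype Ω] [DecidableEq Ω] [Group G] [Fintype G] [Group B]
    [Fintype B] [Group C] [Group X] [Fintype X] [Group K] (𝔐 : Ideal (integralClosure ℤ ℂ))
    (ℓ : ℕ) [Fact ℓ.Prime] (h𝔐 : 𝔐.IsMaximal) (hℓ : (ℓ : integralClosure ℤ ℂ) ∈ 𝔐)
    (ι : G →* B) (κ : B →* MulAut G) (ρ : B →* C) (hL : LocS ℓ ι κ ρ)
    (hD : ∀ T : Subgroup B, ι.range ≤ T → DadeHolds ℓ T)
    (e : (Ω → G) →* X) (p : X →* K) (φ : X →* Gam (Equiv.Perm Ω) Ω B) (hE : ExtS ι κ e p φ)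
    (χ : X → ℂ) (ξ : Ω → G → ℂ) (w : Ω) (e' : ℕ) (hχ : IsIrr χ) (hξ : ∀ a, IsIrr (ξ a))
    (hover : ip (resj e χ) (fun n => ∏ a, ξ a (n a)) ≠ 0)
    (he : HasDefect ℓ (ξ w) e') (he0 : 0 < e') (Z : Subgroup X) (hZn : Z.Normal)
    (heN : e.range.Normal) (hZ : IsPGroup ℓ Z) (hZN : Z ⊓ e.range = ⊥) (d : ℕ)
    (c : Finset (Subgroup X)) (hc : IsCh ℓ Z c) (hcN : ∀ D ∈ c, D ⊓ e.range = ⊥) :
    innerS ℓ Z e.range (WW 𝔐 ℓ d (cen 𝔐 (MonoidHom.id X) χ)) c = 0 := by
  classical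
  rcases hRINNER Ω G B C X K ℓ ι κ ρ hL e p φ hE Z hZn hZ hZN c hc hcN with h | h
  · exact hCORE X ℓ Z e.range _ c hc h
  · obtain ⟨O, K', _, _, _, _, π, u, j, p', φ', hE', hπ, hcard, hj, hrange, hsum⟩ := h
    rw [hsum]
    obtain ⟨Φ, hΦ, hsupp⟩ := hCLIFFR O G B C (stb c) K' X 𝔐 ℓ h𝔐 hℓ ι κ ρ hL j p' φ' hE' d
      (stb c).subtype (cen 𝔐 (MonoidHom.id X) χ)
    have h1 := hCLOSEDR O G B (stb c) K' ℓ ι κ j p' φ' hE'
      (fun S => WW 𝔐 ℓ d (cen 𝔐 (MonoidHom.id X) χ) (S.map (stb c).subtype))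
    rw [h1]
    have h2 := hCOMBR O G B C (stb c) K' 𝔐 ℓ ι κ ρ hL j p' φ' hE'
      (hTJ O G B C (stb c) K' 𝔐 ℓ h𝔐 hℓ ι κ ρ hL
        (hVV G B C 𝔐 ℓ ι κ ρ hL h𝔐 hℓ hD) j p' φ' hE') Φ (by
      intro J d' β hne
      by_contra hcon
      push Not at hcon
      obtain ⟨τ, hτ, θ, hθ, hb, ψ, hψ, hcen, hψθ⟩ := hsupp J d' β hne
      obtain ⟨h3, h4, ψ', hψ', h5, h6⟩ := hBLKCR O G B C (stb c) K' X 𝔐 ℓ h𝔐 hℓ ι κ ρ hL j p' φ'
        hE' (stb c).subtype τ hτ θ hθ ψ hψ hψθ J (fun o => by rw [hb]; exact hcon o)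
      exact hBLKBR Ω O G B X (stb c) K K' 𝔐 ℓ h𝔐 hℓ ι κ e p φ j p' φ' hE hE' (stb c).subtype π u
        hcard hj hrange χ ξ w e' hχ hξ hover he he0 ψ' θ hψ' h3 h4 h5
        (fun g => by rw [h6 g, hcen g]))
    rw [← h2]
    refine Finset.sum_congr rfl fun τ hτ => ?_
    rw [WW_map 𝔐 ℓ d _ (stb c).subtype (Subgroup.subtype_injective _), hΦ τ hτ]

/-- The vanishing of the sums of Dade. -/
theorem finalR (hSPLIT : Stmt_SPLIT) (hCORE : Stmt_CORE) (hRINNER : Stmt_RINNER)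
    (hCLOSEDR : Stmt_CLOSEDR) (hZRR : Stmt_ZRR)
    (hCLIFFR : Stmt_CLIFFR) (hVV : Stmt_VV) (hTJ : Stmt_TJ) (hCOMBR : Stmt_COMBR)
    (hBLKBR : Stmt_BLKBR) (hBLKCR : Stmt_BLKCR)
    (Ω G B C X K : Type) [Fintype Ω] [DecidableEq Ω] [Group G] [Fintype G] [Group B]
    [Fintype B] [Group C] [Group X] [Fintype X] [Group K] (𝔐 : Ideal (integralClosure ℤ ℂ))
    (ℓ : ℕ) [Fact ℓ.Prime] (h𝔐 : 𝔐.IsMaximal) (hℓ : (ℓ : integralClosure ℤ ℂ) ∈ 𝔐)
    (ι : G →* B) (κ : B →* MulAut G) (ρ : B →* C) (hL : LocS ℓ ι κ ρ)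
    (hD : ∀ T : Subgroup B, ι.range ≤ T → DadeHolds ℓ T)
    (e : (Ω → G) →* X) (p : X →* K) (φ : X →* Gam (Equiv.Perm Ω) Ω B) (hE : ExtS ι κ e p φ)
    (χ : X → ℂ) (ξ : Ω → G → ℂ) (w : Ω) (e' : ℕ) (hχ : IsIrr χ) (hξ : ∀ a, IsIrr (ξ a))
    (hover : ip (resj e χ) (fun n => ∏ a, ξ a (n a)) ≠ 0)
    (he : HasDefect ℓ (ξ w) e') (he0 : 0 < e') (d : ℕ) : dadeSum 𝔐 ℓ χ d = 0 := by
  classical
  obtain ⟨hZn, hZ, heN, hZN⟩ := hZRR Ω G B X K ℓ ι κ hL.core e p φ hE
  have h1 := dadeSum_eq 𝔐 ℓ d hχ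
  have h2 : KK 𝔐 ℓ d (pCore ℓ X) (cen 𝔐 (MonoidHom.id X) χ) = 0 := by
    rw [KK]
    have h3 := hSPLIT X ℓ (pCore ℓ X) e.range hZ hZN
      (WW 𝔐 ℓ d (cen 𝔐 (MonoidHom.id X) χ))
    refine Eq.trans h3 ?_
    refine Finset.sum_eq_zero fun c hc => ?_
    have hc' : IsCh ℓ (pCore ℓ X) c ∧ ∀ D ∈ c, D ⊓ e.range = ⊥ := by
      rw [OutC, Finset.mem_filter, mem_Ch] at hc
      exact hc
    rw [inner_zeroR hRINNER hCORE hCLOSEDR hCLIFFR hVV hTJ hCOMBR hBLKBR hBLKCR Ω G B C X K 𝔐 ℓ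
      h𝔐 hℓ ι κ ρ hL hD e p φ hE χ ξ w e' hχ hξ hover he he0 (pCore ℓ X) hZn heN hZ hZN d c hc'.1
      hc'.2, mul_zero]
  rw [h2] at h1
  have h3 : (Nat.card X : ℚ) ≠ 0 := by exact_mod_cast Nat.card_pos.ne'
  have h4 := (mul_eq_zero.mp h1).resolve_left h3
  exact_mod_cast h4

theorem mainR' (hSPLIT : Stmt_SPLIT) (hCORE : Stmt_CORE) (hRINNER : Stmt_RINNER)
    (hCLOSEDR : Stmt_CLOSEDR) (hZRR : Stmt_ZRR) (hRX0 : Stmt_RX0)
    (hCLIFFR : Stmt_CLIFFR) (hVV : Stmt_VV) (hTJ : Stmt_TJ) (hCOMBR : Stmt_COMBR)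
    (hBLKBR : Stmt_BLKBR) (hBLKCR : Stmt_BLKCR)
    (ℓ : ℕ) (hℓ : ℓ.Prime) (G : Type) [Group G] [Finite G] (hcen : Subgroup.center G = ⊥)
    (hcore : pCore ℓ G = ⊥) (a : MulAut G) (A : Subgroup (MulAut G))
    (hA : A = (MulAut.conj : G →* MulAut G).range ⊔ Subgroup.zpowers a)
    (hcop : ¬ ℓ ∣ (MulAut.conj : G →* MulAut G).range.relIndex A)
    (hD : ∀ T : Subgroup (MulAut G), (MulAut.conj : G →* MulAut G).range ≤ T → T ≤ A →
      DadeHolds ℓ T)
    (X Ω : Type) [Group X] [Finite X] [Fintype Ω] (e : (Ω → G) →* X)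
    (he : Function.Injective e)
    (hact : ∀ y : X, ∃ (s : Equiv.Perm Ω) (α : Ω → MulAut G), (∀ i, α i ∈ A) ∧
      ∀ x : Ω → G, y * e x * y⁻¹ = e (fun i => α i (x (s i))))
    (𝔐 : Ideal (integralClosure ℤ ℂ)) (h𝔐 : 𝔐.IsMaximal)
    (hℓ𝔐 : (ℓ : integralClosure ℤ ℂ) ∈ 𝔐) (ξ : Ω → G → ℂ) (hξ : ∀ a, IsIrrChar (ξ a)) (w : Ω)
    (hw : ¬ Dade.HasDefect ℓ (ξ w) 0) (χ : X → ℂ) (hχ : IsIrrChar χ)
    (hover : ∑ᶠ x : Ω → G, χ (e x) * ∏ i, ξ i (x i)⁻¹ ≠ 0) (d : ℕ) : dadeSum 𝔐 ℓ χ d = 0 := by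
  classical
  have hf : Fact ℓ.Prime := ⟨hℓ⟩
  have hG' : Fintype G := Fintype.ofFinite G
  have hX' : Fintype X := Fintype.ofFinite X
  have hnt : Nontrivial G := by
    by_contra hcon
    rw [not_nontrivial_iff_subsingleton] at hcon
    obtain ⟨n, hn, hn'⟩ := IsIrr.exists_degree (χ := ξ w) (hξ w)
    apply hw
    refine ⟨n, hn', ?_⟩
    have h1 : Nat.card G = 1 := Nat.card_of_subsingleton 1
    have h2 : n ∣ Nat.card G := IsIrr.degree_dvd (χ := ξ w) (hξ w) hn'
    rw [h1] at h2 ⊢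
    rw [Nat.dvd_one.mp h2, zero_add]
  obtain ⟨e', he'⟩ := IsIrr.exists_defect (ℓ := ℓ) (χ := ξ w) (hξ w)
  have he0 : 0 < e' := by
    rcases Nat.eq_zero_or_pos e' with rfl | h
    · exact absurd he' hw
    · exact h
  obtain ⟨B, C, K, _, _, _, _, _, ι, κ, ρ, p, φ, hL, hDB, hE⟩ :=
    hRX0 G X Ω ℓ hcore hcen hnt a A hA hcop hD e he hact
  refine finalR hSPLIT hCORE hRINNER hCLOSEDR hZRR hCLIFFR hVV hTJ hCOMBR hBLKBR hBLKCR Ω G B C X K
    𝔐 ℓ h𝔐 hℓ𝔐 ι κ ρ hL hDB e p φ hE χ ξ w e' hχ hξ ?_ he' he0 d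
  rw [finsum_eq_sum_of_fintype] at hover
  rw [ip]
  refine div_ne_zero ?_ natCard_ne_zero
  exact hover

end Pool.Agent.DP


end

section

/-!
# Dade's conjecture for `G ^ Ω ⋊ R`: the theorem
-/

namespace Pool.Agent.DP

open Pool.Agent.Lib_helper13 Representation
open Pool.Agent.Lib_helper13.Dade (pCore DadeHolds dadeSum IsIrrChar)

theorem main' (hSPLIT : Stmt_SPLIT) (hCORE : Stmt_CORE) (hCOMPL : Stmt_COMPL)
    (hCONJ : Stmt_CONJ) (hINNER : Stmt_INNER) (hCLOSED : Stmt_CLOSED) (hZR : Stmt_ZR)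
    (hCLIFF : Stmt_CLIFF) (hCOMB : Stmt_COMB) (hBLKB : Stmt_BLKB) (hBLKC : Stmt_BLKC)
    (ℓ : ℕ) (hℓ : ℓ.Prime) (G : Type) [Group G] [Finite G]
    (hcore : pCore ℓ G = ⊥) (hG : DadeHolds ℓ G) (R Ω : Type) [Group R] [Finite R] [Fintype Ω]
    [MulAction R Ω] (𝔐 : Ideal (integralClosure ℤ ℂ)) (h𝔐 : 𝔐.IsMaximal)
    (hℓ𝔐 : (ℓ : integralClosure ℤ ℂ) ∈ 𝔐) (ξ : Ω → G → ℂ) (hξ : ∀ a, IsIrrChar (ξ a)) (w : Ω)
    (hw : ¬ Dade.HasDefect ℓ (ξ w) 0) (χ : Gam R Ω G → ℂ) (hχ : IsIrrChar χ)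
    (hover : LiesOver χ ξ) (d : ℕ) : dadeSum 𝔐 ℓ χ d = 0 := by
  classical
  have hf : Fact ℓ.Prime := ⟨hℓ⟩
  have hG' : Fintype G := Fintype.ofFinite G
  obtain ⟨e, he⟩ := IsIrr.exists_defect (ℓ := ℓ) (χ := ξ w) (hξ w)
  have he0 : 0 < e := by
    rcases Nat.eq_zero_or_pos e with rfl | h
    · exact absurd he hw
    · exact h
  refine final hSPLIT hCORE hCOMPL hCONJ hINNER hCLOSED hZR hCLIFF hCOMB hBLKB hBLKC R Ω G 𝔐 ℓ
    h𝔐 hℓ𝔐 hcore hG χ ξ w e hχ hξ ?_ he he0 d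
  rw [LiesOver, finsum_eq_sum_of_fintype] at hover
  rw [ip]
  refine div_ne_zero ?_ natCard_ne_zero
  exact hover

end Pool.Agent.DP


end

section

/-!
# CLOSED: restriction to chains of product subgroups
-/

namespace Pool.Agent.DP

open Pool.Agent.Lib_helper13 Representation

namespace CLOSED

variable {K O G : Type*} [Group K] [MulAction K O] [Group G]

theorem map_conj (y : Gam K O G) (D : Subgroup (O → G)) :
    (D.map (iN K O G)).map (MulAut.conj y).toMonoidHom =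
      (D.map (wAct (MulAction.toPerm (y.right⁻¹)) y.left)).map (iN K O G) := by
  rw [Subgroup.map_map, Subgroup.map_map]
  congr 1
  apply MonoidHom.ext
  intro x
  change y * iN K O G x * y⁻¹ = iN K O G _
  rw [← conj_iN]
  rfl

theorem fixed_iff (y : Gam K O G) (D : Subgroup (O → G)) :
    (D.map (iN K O G)).map (MulAut.conj y).toMonoidHom = D.map (iN K O G) ↔
      D.map (wAct (MulAction.toPerm (y.right⁻¹)) y.left) = D := by
  rw [map_conj]
  exact (Subgroup.map_injective (SemidirectProduct.inl_injective (φ := pAct K O G))).eq_iff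

theorem mem_YT {τ : Finset (Subgroup (O → G))} {y : Gam K O G} :
    y ∈ YT K τ ↔ ∀ D ∈ τ, D.map (wAct (MulAction.toPerm (y.right⁻¹)) y.left) = D := by
  rw [YT, mem_stb]
  constructor
  · intro h D hD
    exact (fixed_iff y D).1 (h _ (mem_mapCh.2 ⟨D, hD, rfl⟩))
  · intro h E hE
    obtain ⟨D, hD, rfl⟩ := mem_mapCh.1 hE
    exact (fixed_iff y D).2 (h D hD)

theorem YT_insert [DecidableEq (Subgroup (O → G))] {τ : Finset (Subgroup (O → G))}
    {D : Subgroup (O → G)} (hD : D ∈ τ) : YT K (insert (cl D) τ) = YT K τ := by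
  ext y
  rw [mem_YT, mem_YT]
  constructor
  · intro h E hE
    exact h E (Finset.mem_insert_of_mem hE)
  · intro h E hE
    rcases Finset.mem_insert.1 hE with rfl | hE
    · exact cl_fixed (h D hD)
    · exact h E hE

end CLOSED

/-- CLOSED. -/
theorem CLOSED_thm : Stmt_CLOSED := by
  intro K O G _ _ _ _ _ _ _ ℓ W
  classical
  refine sum_closed ℓ (fun τ => W (YT K τ)) fun τ _ D hD => ?_
  rw [CLOSED.YT_insert hD]

end Pool.Agent.DP


end

section

/-!
# Dade's conjecture for `G ^ Ω ⋊ R`: transporters (module TRC)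
-/

namespace Pool.Agent.DP

open Pool.Agent.Lib_helper13 Representation
open Pool.Agent.Lib_helper13.Dade (pCore DadeHolds)

namespace TRC

variable {O G : Type*} [Group G]

theorem map_one_conj (H : Subgroup G) : H.map (MulAut.conj (1 : G)).toMonoidHom = H := by
  have h : (MulAut.conj (1 : G)).toMonoidHom = MonoidHom.id G := by
    ext x
    simp
  rw [h, Subgroup.map_id]

theorem map_mul_conj (H : Subgroup G) (g g' : G) :
    H.map (MulAut.conj (g' * g)).toMonoidHom =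
      (H.map (MulAut.conj g).toMonoidHom).map (MulAut.conj g').toMonoidHom := by
  rw [Subgroup.map_map]
  congr 1
  ext x
  simp [mul_assoc]

theorem trP_mul {τ : Finset (Subgroup (O → G))} {θ : O → G → ℂ} {a b c : O} {g g' : G}
    (h : trP τ θ a b g) (h' : trP τ θ b c g') : trP τ θ a c (g' * g) := by
  refine ⟨fun D hD => ?_, fun x => ?_⟩
  · rw [map_mul_conj, h.1 D hD, h'.1 D hD]
  · rw [← h.2 x, ← h'.2 (g * x * g⁻¹)]
    congr 1
    group

theorem trP_inv {τ : Finset (Subgroup (O → G))} {θ : O → G → ℂ} {a b : O} {g : G}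
    (h : trP τ θ a b g) : trP τ θ b a g⁻¹ := by
  refine ⟨fun D hD => ?_, fun x => ?_⟩
  · rw [← h.1 D hD, ← map_mul_conj, inv_mul_cancel, map_one_conj]
  · rw [← h.2]
    congr 1
    group

theorem conj_irr {S : Subgroup G} {f : G → ℂ} (hf : IrrOn S f) {g : G} (hg : g ∈ S)
    (x : G) : f (g * x * g⁻¹) = f x := by
  by_cases hx : x ∈ S
  · obtain ⟨n, ρ, -, hρ⟩ := hf.1
    have h1 := congrFun hρ (⟨g, hg⟩ * ⟨x, hx⟩ * (⟨g, hg⟩ : S)⁻¹)
    have h2 := congrFun hρ (⟨x, hx⟩ : S)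
    rw [Representation.char_conj] at h1
    exact h1.symm.trans h2
  · have hx' : g * x * g⁻¹ ∉ S := by
      intro h
      apply hx
      have h3 := S.mul_mem (S.mul_mem (S.inv_mem hg) h) hg
      have h4 : g⁻¹ * (g * x * g⁻¹) * g = x := by group
      rwa [h4] at h3
    rw [hf.2 _ hx, hf.2 _ hx']

theorem trP_self [Fintype O] [DecidableEq O] [Fintype G] (τ : Finset (Subgroup (O → G))) (θ : O → G → ℂ)
    (hθ : ∀ o, IrrOn (stb (comp τ o)) (θ o)) (o : O) (g : G) :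
    trP τ θ o o g ↔ g ∈ stb (comp τ o) := by
  constructor
  · intro h
    rw [mem_stb]
    intro K hK
    obtain ⟨-, D, hD, rfl⟩ := mem_comp.mp hK
    exact h.1 D hD
  · intro h
    refine ⟨fun D hD => ?_, fun x => conj_irr (hθ o) h x⟩
    by_cases hb : prj o D = ⊥
    · rw [hb, Subgroup.map_bot]
    · exact mem_stb.mp h _ (mem_comp.mpr ⟨hb, D, hD, rfl⟩)

end TRC

theorem TRC_thm : Stmt_TRC := by
  intro O G _ _ _ _ τ θ hθ
  have h1 : ∀ o g, trP τ θ o o g ↔ g ∈ stb (comp τ o) := TRC.trP_self τ θ hθ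
  have h2 : ∀ a b g, trP τ θ a b g →
      (stb (comp τ a)).map (MulAut.conj g).toMonoidHom = stb (comp τ b) := by
    intro a b g hg
    ext x
    rw [Subgroup.mem_map]
    constructor
    · rintro ⟨y, hy, rfl⟩
      have h3 := TRC.trP_mul (TRC.trP_mul (TRC.trP_inv hg) ((h1 a y).mpr hy)) hg
      rw [← h1]
      have h4 : (MulAut.conj g).toMonoidHom y = g * (y * g⁻¹) := by
        simp [mul_assoc]
      rw [h4]
      exact h3
    · intro hx
      have h3 := TRC.trP_mul (TRC.trP_mul hg ((h1 b x).mpr hx)) (TRC.trP_inv hg)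
      refine ⟨g⁻¹ * (x * g), (h1 a _).mp h3, ?_⟩
      simp [mul_assoc]
  refine ⟨h1, h2, ?_⟩
  rintro a b ⟨g₀, hg₀⟩
  constructor
  · rw [← h2 a b g₀ hg₀]
    exact (Nat.card_congr ((stb (comp τ a)).equivMapOfInjective _
      (MulAut.conj g₀).injective).toEquiv)
  · refine Nat.card_congr
      { toFun := fun g => ⟨g.1 * g₀⁻¹, (h1 b _).mp (TRC.trP_mul (TRC.trP_inv hg₀) g.2)⟩
        invFun := fun s => ⟨s.1 * g₀, TRC.trP_mul hg₀ ((h1 b _).mpr s.2)⟩
        left_inv := fun g => Subtype.ext (by simp)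
        right_inv := fun s => Subtype.ext (by simp) }

end Pool.Agent.DP


end

section

/-!
# Dade's conjecture for `G ^ Ω ⋊ R`: all modules together
-/

namespace Pool.Agent.DP

open Pool.Agent.Lib_helper13 Representation
open Pool.Agent.Lib_helper13.Dade (pCore DadeHolds dadeSum IsIrrChar)

theorem aa_all : Stmt_AA := AA_thm AAK_thm TENS_thm

theorem pera_all : Stmt_PERA := PERA_thm TRC_thm IRRPI_thm

theorem perb_all : Stmt_PERB := PERB_thm TRC_thm DZT_thm TENS_thm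

theorem perc_all : Stmt_PERC := PERC_thm pera_all perb_all TENS_thm

theorem perd_all : Stmt_PERD := PERD_thm pera_all perc_all IND_thm

theorem mind_all : Stmt_MIND := MIND_thm aa_all AACL_thm

theorem gall_all : Stmt_GALL := GALL_thm COSET_thm SUMM_thm

theorem ccor_all : Stmt_CCOR := CCOR_thm IND_thm SUMM_thm

theorem clg_all : Stmt_CLG := CLG_thm gall_all ccor_all SUMM_thm

theorem cliff_all : Stmt_CLIFF := CLIFF_thm clg_all IRRPI_thm pera_all perd_all mind_all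

theorem comb_all : Stmt_COMB := COMB_thm TRC_thm FIX_thm EVAL_thm

theorem blkb_all : Stmt_BLKB := BLKB_thm BLKA_thm SUMM_thm IRRPI_thm

theorem blkc_all : Stmt_BLKC := BLKC_thm NODZ_thm DZT_thm

/-- The theorem. -/
theorem main (ℓ : ℕ) (hℓ : ℓ.Prime) (G : Type) [Group G] [Finite G]
    (hcore : pCore ℓ G = ⊥) (hG : DadeHolds ℓ G) (R Ω : Type) [Group R] [Finite R] [Fintype Ω]
    [MulAction R Ω] (𝔐 : Ideal (integralClosure ℤ ℂ)) (h𝔐 : 𝔐.IsMaximal)
    (hℓ𝔐 : (ℓ : integralClosure ℤ ℂ) ∈ 𝔐) (ξ : Ω → G → ℂ) (hξ : ∀ a, IsIrrChar (ξ a)) (w : Ω)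
    (hw : ¬ Dade.HasDefect ℓ (ξ w) 0) (χ : Gam R Ω G → ℂ) (hχ : IsIrrChar χ)
    (hover : LiesOver χ ξ) (d : ℕ) : dadeSum 𝔐 ℓ χ d = 0 :=
  main' SPLIT_thm CORE_thm COMPL_thm CONJ_thm INNER_thm CLOSED_thm ZR_thm cliff_all comb_all
    blkb_all blkc_all ℓ hℓ G hcore hG R Ω 𝔐 h𝔐 hℓ𝔐 ξ hξ w hw χ hχ hover d

end Pool.Agent.DP


end

section

/-!
# Module LKA: the chains of the inverse image of a subgroup of `C`
-/

namespace Pool.Agent.DP

open Pool.Agent.Lib_helper13 Representation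
open Pool.Agent.Lib_helper13.Dade (pCore DadeHolds)

namespace LKA

variable {G B C : Type} [Group G] [Group B] [Group C]
  {ι : G →* B} {κ : B →* MulAut G} {ρ : B →* C}

theorem rho_iota (cl : ClG ι κ ρ) (g : G) : ρ (ι g) = 1 := (cl.ker (ι g)).mpr ⟨g, rfl⟩

/-- The embedding of `G` in the inverse image of `L`. -/
noncomputable def iT (cl : ClG ι κ ρ) (L : Subgroup C) : G →* L.comap ρ :=
  ι.codRestrict (L.comap ρ) (fun g => by
    rw [Subgroup.mem_comap, rho_iota cl]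
    exact L.one_mem)

theorem iT_coe (cl : ClG ι κ ρ) (L : Subgroup C) (g : G) : ((iT cl L g : L.comap ρ) : B) = ι g :=
  rfl

theorem iT_injective (cl : ClG ι κ ρ) (L : Subgroup C) : Function.Injective (iT cl L) := by
  intro a b hab
  apply cl.inj
  exact congrArg Subtype.val hab

/-- The `ℓ`-subgroups of the inverse image of `L` lie in the image of `G`. -/
theorem le_range (cl : ClG ι κ ρ) (L : Subgroup C) (ℓ : ℕ) (hℓ : ℓ.Prime)
    (hC : ¬ ℓ ∣ Nat.card C) (D : Subgroup (L.comap ρ)) (hD : IsPGroup ℓ D) :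
    D ≤ (iT cl L).range := by
  intro d hd
  obtain ⟨k, hk⟩ := hD ⟨d, hd⟩
  have h1 : (d : B) ^ ℓ ^ k = 1 := by
    have := congrArg (fun x : D => ((x : L.comap ρ) : B)) hk
    simpa using this
  have h2 : (ρ (d : B)) ^ ℓ ^ k = 1 := by rw [← map_pow, h1, map_one]
  have h3 : (ρ (d : B)) ^ Nat.card C = 1 := pow_card_eq_one'
  have h4 : Nat.Coprime (ℓ ^ k) (Nat.card C) :=
    Nat.Coprime.pow_left k ((Nat.Prime.coprime_iff_not_dvd hℓ).mpr hC)
  have h5 : orderOf (ρ (d : B)) = 1 :=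
    Nat.eq_one_of_dvd_coprimes h4 (orderOf_dvd_of_pow_eq_one h2) (orderOf_dvd_of_pow_eq_one h3)
  rw [orderOf_eq_one_iff] at h5
  obtain ⟨g, hg⟩ := (cl.ker (d : B)).mp h5
  exact ⟨g, Subtype.ext hg⟩

theorem conj_iT (cl : ClG ι κ ρ) (L : Subgroup C) (y : L.comap ρ) (g : G) :
    iT cl L (κ (y : B) g) = y * iT cl L g * y⁻¹ := by
  apply Subtype.ext
  exact cl.act (y : B) g

theorem map_conj (cl : ClG ι κ ρ) (L : Subgroup C) (y : L.comap ρ) (D : Subgroup G) :
    (D.map (iT cl L)).map (MulAut.conj y).toMonoidHom =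
      (D.map (κ (y : B)).toMonoidHom).map (iT cl L) := by
  rw [Subgroup.map_map, Subgroup.map_map]
  congr 1
  ext g
  simp only [MonoidHom.comp_apply]
  change ((y * iT cl L g * y⁻¹ : L.comap ρ) : B) = ((iT cl L (κ (y : B) g) : L.comap ρ) : B)
  rw [conj_iT]

theorem stb_eq (cl : ClG ι κ ρ) (L : Subgroup C) (τ : Finset (Subgroup G)) :
    stb (mapCh (iT cl L) τ) = (Stx κ τ (fun _ => 0)).comap (L.comap ρ).subtype := by
  ext y
  rw [mem_stb, Subgroup.mem_comap]
  constructor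
  · intro h
    refine ⟨fun D hD => ?_, fun _ => rfl⟩
    have h1 := h (D.map (iT cl L)) (mem_mapCh.mpr ⟨D, hD, rfl⟩)
    rw [map_conj] at h1
    exact Subgroup.map_injective (iT_injective cl L) h1
  · rintro ⟨h, -⟩ D' hD'
    obtain ⟨D, hD, rfl⟩ := mem_mapCh.mp hD'
    rw [map_conj]
    have h1 : D.map (κ (y : B)).toMonoidHom = D := h D hD
    rw [h1]

end LKA

open _root_.Pool.Agent.DP.LKA in
theorem LKA_thm : Stmt_LKA := by
  intro G B C _ _ _ _ _ ℓ hℓ ι κ ρ h L _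
  have hr := fun D hD => le_range h.cl L ℓ hℓ.out h.cop D hD
  have hinj := iT_injective h.cl L
  constructor
  · rw [pCore_eq_bot_iff]
    intro N hN hN'
    have hcore := h.core
    rw [pCore_eq_bot_iff] at hcore
    have h1 : N.comap (iT h.cl L) = ⊥ := by
      apply hcore
      · exact hN.comap _
      · exact hN'.comap_of_injective _ hinj
    rw [← Subgroup.map_comap_eq_self (hr N hN'), h1, Subgroup.map_bot]
  · intro W
    classical
    have h1 := sum_Ch_range hinj ℓ (⊥ : Subgroup G)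
      (fun σ : Finset (Subgroup (L.comap ρ)) => (-1 : ℚ) ^ σ.card * W (stb σ))
    rw [Subgroup.map_bot, Finset.filter_true_of_mem] at h1
    · rw [h1]
      refine Finset.sum_congr rfl fun τ _ => ?_
      rw [card_mapCh hinj, stb_eq]
    · intro σ hσ D hD
      exact hr D ((mem_Ch.mp hσ).1 D hD).1

end Pool.Agent.DP


end

section

/-!
ASH: the weighted sums over `Y` depend only on the central functions.
-/

namespace Pool.Agent.DP.ASH

open Pool.Agent.Lib_helper13 Pool.Agent.DP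

section

variable {O G B C Y K : Type} [Group G] [Group B] [Group C] [Group Y] [Group K]
  {ι : G →* B} {κ : B →* MulAut G} {ρ : B →* C} {j : (O → G) →* Y} {p : Y →* K}
  {φ : Y →* Gam (Equiv.Perm O) O B}

theorem left_conj (h : ExtS ι κ j p φ) (a : O → G) (y : Y) (o : O) :
    (φ (j a * y * (j a)⁻¹)).left o =
      ι (a o) * (φ y).left o * (ι (a ((φ y).right⁻¹ • o)))⁻¹ := by
  rw [map_mul, map_mul, map_inv, h.jn]
  change (ι (a o) * (φ y).left ((1 : Equiv.Perm O)⁻¹ • o)) *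
    (((fun o => ι (a o) : O → B)) ((1 : Equiv.Perm O)⁻¹⁻¹ •
      ((1 : Equiv.Perm O) * (φ y).right)⁻¹ • o))⁻¹ = _
  simp

theorem right_conj (h : ExtS ι κ j p φ) (a : O → G) (y : Y) :
    (φ (j a * y * (j a)⁻¹)).right = (φ y).right := by
  rw [map_mul, map_mul, map_inv, h.jn]
  simp

theorem right_mul (h : ExtS ι κ j p φ) (a : O → G) (y : Y) :
    (φ (j a * y)).right = (φ y).right := by
  rw [map_mul, h.jn]
  simp

theorem zz_conj (h : ExtS ι κ j p φ) (hcl : ClG ι κ ρ) (g : O → B) (x : O → G) (y : Y) :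
    zz φ g (j (fun o => κ (g o) (x o)) * y * (j (fun o => κ (g o) (x o)))⁻¹) =
      fun o => ι (x o) * zz φ g y o * (ι (x ((φ y).right⁻¹ o)))⁻¹ := by
  funext o
  unfold zz
  rw [left_conj h, right_conj h, hcl.act, hcl.act]
  rw [Equiv.Perm.smul_def]
  group

theorem zz_change (h : ExtS ι κ j p φ) (g g' : O → B) (c : O → G)
    (hc : ∀ o, g' o = ι (c o) * g o) (y : Y) :
    zz φ g' (j c * y * (j c)⁻¹) = zz φ g y := by
  funext o
  unfold zz
  rw [left_conj h, right_conj h, hc, hc]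
  group

/-- the conjugate of `j n * y` by `j a` -/
def cj (κ : B →* MulAut G) (φ : Y →* Gam (Equiv.Perm O) O B) (y : Y) (a : O → G) :
    (O → G) ≃ (O → G) :=
  (Equiv.mulLeft a).trans (Equiv.mulRight (wB κ O (φ y) a⁻¹))

theorem cj_spec (h : ExtS ι κ j p φ) (y : Y) (a n : O → G) :
    j (cj κ φ y a n) * y = j a * (j n * y) * (j a)⁻¹ := by
  have h1 : j (wB κ O (φ y) a⁻¹) = y * (j a)⁻¹ * y⁻¹ := by
    have h2 := h.cl.act y a⁻¹
    rw [map_inv j] at h2
    exact h2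
  change j (a * n * wB κ O (φ y) a⁻¹) * y = _
  rw [map_mul, map_mul, h1]
  group

theorem sum_conj [Fintype O] [DecidableEq O] [Fintype G] (h : ExtS ι κ j p φ) (y : Y)
    (a : O → G) (H : Y → ℂ) :
    ∑ n : O → G, H (j a * (j n * y) * (j a)⁻¹) = ∑ n : O → G, H (j n * y) := by
  have h1 := Equiv.sum_comp (cj κ φ y a) (fun n => H (j n * y))
  rw [← h1]
  exact Finset.sum_congr rfl fun n _ => by rw [cj_spec h]

open Classical in
/-- the function on the coordinates -/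
noncomputable def Ft [Fintype O] [DecidableEq O] [Fintype G] (j : (O → G) →* Y)
    (φ : Y →* Gam (Equiv.Perm O) O B) (g : O → B) (y0 : Y) (F : Y → ℂ) (z : O → B) : ℂ :=
  ∑ n : O → G, if zz φ g (j n * y0) = z then F (j n * y0) else 0

theorem Ft_inv [Fintype O] [DecidableEq O] [Fintype G] (h : ExtS ι κ j p φ) (hcl : ClG ι κ ρ)
    (g : O → B) (y0 : Y) (F : Y → ℂ) (hF : ∀ y x, F (y * x * y⁻¹) = F x) (x : O → G)
    (z : O → B) :
    Ft j φ g y0 F (fun o => ι (x o) * z o * (ι (x ((φ y0).right⁻¹ o)))⁻¹) =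
      Ft j φ g y0 F z := by
  classical
  unfold Ft
  rw [← sum_conj h y0 (fun o => κ (g o) (x o)) (fun y => if zz φ g y = (fun o => ι (x o) * z o *
    (ι (x ((φ y0).right⁻¹ o)))⁻¹) then F y else 0)]
  refine Finset.sum_congr rfl fun n _ => ?_
  rw [hF, zz_conj h hcl, right_mul h]
  refine if_congr ?_ rfl rfl
  constructor
  · intro h1
    funext o
    have h2 := congrFun h1 o
    simpa using h2
  · intro h1
    rw [h1]

theorem Ft_change [Fintype O] [DecidableEq O] [Fintype G] (h : ExtS ι κ j p φ) (hcl : ClG ι κ ρ)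
    (g g' : O → B) (hg : ∀ o, ρ (g' o) = ρ (g o)) (y0 : Y) (F : Y → ℂ)
    (hF : ∀ y x, F (y * x * y⁻¹) = F x) :
    Ft j φ g' y0 F = Ft j φ g y0 F := by
  classical
  have h1 : ∀ o, ∃ c : G, g' o = ι c * g o := by
    intro o
    have h2 : ρ (g' o * (g o)⁻¹) = 1 := by
      rw [map_mul, map_inv, hg, mul_inv_cancel]
    obtain ⟨c, hc⟩ := (hcl.ker _).mp h2
    exact ⟨c, by rw [hc]; group⟩
  choose c hc using h1
  funext z
  unfold Ft
  rw [← sum_conj h y0 c (fun y => if zz φ g' y = z then F y else 0)]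
  refine Finset.sum_congr rfl fun n _ => ?_
  rw [hF, zz_change h g g' c hc]

theorem sum_fibre [Fintype O] [DecidableEq O] [Fintype G] [Fintype Y] [DecidableEq K]
    (h : ExtS ι κ j p φ) (k : K) (y0 : Y) (hy0 : p y0 = k) (H : Y → ℂ) :
    ∑ y : Y, (if p y = k then H y else 0) = ∑ n : O → G, H (j n * y0) := by
  symm
  refine Fintype.sum_of_injective (fun n : O → G => j n * y0) ?_ _ _ ?_ ?_
  · intro a b hab
    exact h.cl.inj (mul_right_cancel hab)
  · intro y hy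
    rw [if_neg]
    intro hk
    apply hy
    have h1 : p (y * y0⁻¹) = 1 := by
      rw [map_mul, map_inv, hk, hy0, mul_inv_cancel]
    obtain ⟨n, hn⟩ := (h.cl.ker _).mp h1
    exact ⟨n, by change j n * y0 = y; rw [hn]; group⟩
  · intro n
    have h1 : p (j n * y0) = k := by
      rw [map_mul, (h.cl.ker (j n)).mpr ⟨n, rfl⟩, one_mul, hy0]
    rw [if_pos h1]

theorem AS_eq [Fintype O] [DecidableEq O] [Fintype G] [Fintype B] [Fintype Y]
    (h : ExtS ι κ j p φ) (g : O → B) (S : O → Subgroup B) (θ : O → B → ℂ) (m : O → ℕ)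
    (M : O → B → ℕ → ℕ → ℂ) (k : K) (y0 : Y) (hy0 : p y0 = k) (F : Y → ℂ) :
    AS p φ g S θ m M k F = aS S θ m M (φ y0).right (Ft j φ g y0 F) := by
  classical
  unfold AS aS
  congr 1
  have h1 : ∀ y : Y, (if p y = k ∧ ∀ o, zz φ g y o ∈ S o then
      F y * TH m M (φ y).right (zz φ g y) else 0) =
      if p y = k then (if ∀ o, zz φ g y o ∈ S o then
        F y * TH m M (φ y).right (zz φ g y) else 0) else 0 := by
    intro y
    exact ite_and _ _ _ _
  rw [Finset.sum_congr rfl fun y _ => h1 y, sum_fibre h k y0 hy0]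
  have h2 : ∑ n : ∀ o, S o, Ft j φ g y0 F (fun o => n o) *
      TH m M (φ y0).right (fun o => (n o : B)) =
      ∑ z : O → B, if ∀ o, z o ∈ S o then Ft j φ g y0 F z * TH m M (φ y0).right z else 0 := by
    refine Fintype.sum_of_injective (fun (n : ∀ o, S o) (o : O) => (n o : B)) ?_ _ _ ?_ ?_
    · intro a b hab
      funext o
      apply Subtype.ext
      exact congrFun hab o
    · intro z hz
      rw [if_neg]
      intro hcon
      exact hz ⟨fun o => ⟨z o, hcon o⟩, rfl⟩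
    · intro n
      rw [if_pos fun o => (n o).2]
  rw [h2]
  have h3 : ∀ z : O → B, (if ∀ o, z o ∈ S o then
      Ft j φ g y0 F z * TH m M (φ y0).right z else 0) =
      ∑ n : O → G, if z = zz φ g (j n * y0) then (if ∀ o, z o ∈ S o then
        F (j n * y0) * TH m M (φ y0).right z else 0) else 0 := by
    intro z
    by_cases hz : ∀ o, z o ∈ S o
    · rw [if_pos hz]
      unfold Ft
      rw [Finset.sum_mul]
      refine Finset.sum_congr rfl fun n _ => ?_
      by_cases h4 : zz φ g (j n * y0) = z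
      · rw [if_pos h4, if_pos h4.symm, if_pos hz]
      · rw [if_neg h4, if_neg (fun h5 => h4 h5.symm), zero_mul]
    · rw [if_neg hz]
      symm
      refine Finset.sum_eq_zero fun n _ => ?_
      rw [if_neg hz, ite_self]
  rw [Finset.sum_congr rfl fun z _ => h3 z, Finset.sum_comm]
  refine Finset.sum_congr rfl fun n _ => ?_
  rw [Finset.sum_ite_eq' Finset.univ (zz φ g (j n * y0)), if_pos (Finset.mem_univ _),
    right_mul h]

theorem Ft_int [Fintype O] [DecidableEq O] [Fintype G] (g : O → B) (y0 : Y) (F : Y → ℂ)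
    (hF : ∀ y, IsIntegral ℤ (F y)) (z : O → B) : IsIntegral ℤ (Ft j φ g y0 F z) := by
  unfold Ft
  refine IsIntegral.sum _ fun n _ => ?_
  split_ifs
  · exact hF _
  · exact isIntegral_zero

end

end Pool.Agent.DP.ASH

namespace Pool.Agent.DP

open Pool.Agent.Lib_helper13 Pool.Agent.DP.ASH in
theorem ASH_thm (h1 : Stmt_AAH) : Stmt_ASH := by
  classical
  intro O G B C Y K _ _ _ _ _ _ _ _ _ _ 𝔐 ℓ _ hmax hℓ ι κ ρ hL j p φ hE J g g' S S' θ θ' m m'
    M M' hd hd' hg hcg k hk F hF hFi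
  obtain ⟨y0, hy0⟩ := hE.surj k
  have hy : p y0 ∈ J := by rw [hy0]; exact hk
  rw [AS_eq hE g S θ m M k y0 hy0 F, AS_eq hE g' S' θ' m' M' k y0 hy0 F,
    Ft_change hE hL.cl g g' hg y0 F hF]
  exact h1 O G B C 𝔐 ℓ hmax hℓ ι κ ρ hL.cl hL.surj (φ y0).right S S' θ θ' m m' M M'
    (hd.cS y0 hy) (hd.cθ y0 hy) (hd.cm y0 hy) (hd.cM y0 hy)
    (hd'.cS y0 hy) (hd'.cθ y0 hy) (hd'.cm y0 hy) (hd'.cM y0 hy)
    hd.irr hd.res hd'.irr hd'.res hd.md hd'.md hd.dz hd'.dz
    (fun o => by rw [hd.img o, hd'.img o]) hcg (Ft j φ g y0 F)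
    (Ft_inv hE hL.cl g y0 F hF) (Ft_int g y0 F hFi)

end Pool.Agent.DP


end

section

/-!
# ASC: the weighted sums form a class function
-/

namespace Pool.Agent.DP

open Pool.Agent.Lib_helper13 Representation
open Pool.Agent.Lib_helper13.Dade (pCore DadeHolds)

namespace ASC

theorem aiv {O : Type} (k : Equiv.Perm O) (o : O) : k (k⁻¹ o) = o := k.apply_symm_apply o

theorem iav {O : Type} (k : Equiv.Perm O) (o : O) : k⁻¹ (k o) = o := k.symm_apply_apply o

/-! ### Traces of the extended matrices -/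

section Mat

variable {O B : Type} [Fintype O] [DecidableEq O] [Group B]

/-- the index type -/
abbrev Ix (m : O → ℕ) : Type := {f // f ∈ Fintype.piFinset (fun o => Finset.range (m o))}

/-- the matrix of a permutation and a family -/
noncomputable def AM (m : O → ℕ) (M : O → B → ℕ → ℕ → ℂ) (k : Equiv.Perm O) (n : O → B) :
    Matrix (Ix m) (Ix m) ℂ := fun f f' =>
  ∏ o, M o (n o) ((f : O → ℕ) o) ((f' : O → ℕ) (k⁻¹ o))

omit [Group B] in
theorem TH_eq (m : O → ℕ) (M : O → B → ℕ → ℕ → ℂ) (k : Equiv.Perm O) (n : O → B) :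
    TH m M k n = (AM m M k n).trace := by
  rw [Matrix.trace, TH, ← Finset.sum_coe_sort (Fintype.piFinset fun o => Finset.range (m o))]
  rfl

theorem AM_mul {S : O → Subgroup B} {θ : O → B → ℂ} {m : O → ℕ} {M : O → B → ℕ → ℕ → ℂ}
    {k l : Equiv.Perm O} (hSk : ∀ o, S (k o) = S o) (hmk : ∀ o, m (k o) = m o)
    (hMk : ∀ o, M (k o) = M o) (hml : ∀ o, m (l o) = m o)
    (hMD : ∀ o, MD (S o) (θ o) (m o) (M o)) {n n' : O → B} (hn : ∀ o, n o ∈ S o)
    (hn' : ∀ o, n' o ∈ S o) :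
    AM m M (k * l) (fun o => n o * n' (k⁻¹ o)) = AM m M k n * AM m M l n' := by
  have hSk' : ∀ o, S (k⁻¹ o) = S o := by
    intro o
    have := hSk (k⁻¹ o)
    rw [aiv] at this
    exact this.symm
  have hmk' : ∀ o, m (k⁻¹ o) = m o := by
    intro o
    have := hmk (k⁻¹ o)
    rw [aiv] at this
    exact this.symm
  have hMk' : ∀ o, M (k⁻¹ o) = M o := by
    intro o
    have := hMk (k⁻¹ o)
    rw [aiv] at this
    exact this.symm
  have hml' : ∀ o, m (l⁻¹ o) = m o := by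
    intro o
    have := hml (l⁻¹ o)
    rw [aiv] at this
    exact this.symm
  ext f f''
  have hf := Fintype.mem_piFinset.1 f.2
  have hf'' := Fintype.mem_piFinset.1 f''.2
  rw [Matrix.mul_apply]
  have h1 : AM m M (k * l) (fun o => n o * n' (k⁻¹ o)) f f'' =
      ∏ o, ∑ j ∈ Finset.range (m o),
        M o (n o) ((f : O → ℕ) o) j * M o (n' (k⁻¹ o)) j ((f'' : O → ℕ) (l⁻¹ (k⁻¹ o))) := by
    rw [AM]
    apply Finset.prod_congr rfl
    intro o _
    have e2 : (k * l)⁻¹ o = l⁻¹ (k⁻¹ o) := by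
      rw [mul_inv_rev]
      rfl
    rw [e2]
    have hz : n' (k⁻¹ o) ∈ S o := by
      have := hn' (k⁻¹ o)
      rwa [hSk'] at this
    have hr : (f'' : O → ℕ) (l⁻¹ (k⁻¹ o)) < m o := by
      have := Finset.mem_range.1 (hf'' (l⁻¹ (k⁻¹ o)))
      rwa [hml', hmk'] at this
    exact (hMD o).mul _ (hn o) _ hz _ (Finset.mem_range.1 (hf o)) _ hr
  rw [h1, Finset.prod_univ_sum]
  have h2 : ∀ f' : Ix m, AM m M k n f f' * AM m M l n' f' f'' =
      ∏ o, (M o (n o) ((f : O → ℕ) o) ((f' : O → ℕ) (k⁻¹ o)) *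
        M o (n' (k⁻¹ o)) ((f' : O → ℕ) (k⁻¹ o)) ((f'' : O → ℕ) (l⁻¹ (k⁻¹ o)))) := by
    intro f'
    rw [Finset.prod_mul_distrib]
    congr 1
    rw [AM]
    symm
    refine (Fintype.prod_equiv k⁻¹ _ _ ?_)
    intro o
    rw [hMk']
  rw [Finset.sum_congr rfl (fun f' _ => h2 f')]
  refine (Finset.sum_bij' (fun (f' : Ix m) _ => fun o => (f' : O → ℕ) (k⁻¹ o))
    (fun g hg => (⟨fun o => g (k o), ?_⟩ : Ix m)) ?_ ?_ ?_ ?_ ?_).symm
  · rw [Fintype.mem_piFinset] at hg ⊢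
    intro o
    have := hg (k o)
    rwa [hmk] at this
  · intro f' _
    rw [Fintype.mem_piFinset]
    intro o
    have := Fintype.mem_piFinset.1 f'.2 (k⁻¹ o)
    rwa [hmk'] at this
  · intro g _
    exact Finset.mem_univ _
  · intro f' _
    apply Subtype.ext
    funext o
    change (f' : O → ℕ) (k⁻¹ (k o)) = _
    rw [iav]
  · intro g _
    funext o
    change g (k (k⁻¹ o)) = _
    rw [aiv]
  · intro f' _
    rfl

end Mat

/-! ### The standardized left components -/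

section Zz

variable {O G B C Y K : Type} [Group G] [Group B] [Group C] [Group Y] [Group K]

theorem zz_mul (φ : Y →* Gam (Equiv.Perm O) O B) (g : O → B) (x y : Y) (o : O) :
    zz φ g (x * y) o = zz φ g x o * zz φ g y ((φ x).right⁻¹ • o) := by
  have h1 : (φ (x * y)).left o = (φ x).left o * (φ y).left ((φ x).right⁻¹ • o) := by
    rw [map_mul]
    rfl
  have h2 : (φ (x * y)).right⁻¹ • o = (φ y).right⁻¹ • (φ x).right⁻¹ • o := by
    rw [map_mul, SemidirectProduct.mul_right, mul_inv_rev, mul_smul]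
  unfold zz
  rw [h1, h2]
  group

theorem zz_one (φ : Y →* Gam (Equiv.Perm O) O B) (g : O → B) (o : O) : zz φ g 1 o = 1 := by
  unfold zz
  rw [map_one]
  have h1 : ((1 : Gam (Equiv.Perm O) O B).right⁻¹ • o) = o := by
    rw [SemidirectProduct.one_right, inv_one, one_smul]
  rw [h1]
  simp

end Zz

end ASC

open _root_.Pool.Agent.DP.ASC in
/-- ASC: the weighted sums form a class function. -/
theorem ASC_thm : Stmt_ASC := by
  classical
  intro O G B C Y K _ _ _ _ _ _ _ _ _ _ ℓ ι κ ρ hL j p φ hE J g S θ m M hD k hk l hl F hF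
  -- invariance under inverses
  have hSi : ∀ y, p y ∈ J → ∀ o, S ((φ y).right⁻¹ • o) = S o := by
    intro y hy o
    have h1 := hD.cS y hy ((φ y).right⁻¹ • o)
    rw [smul_inv_smul] at h1
    exact h1.symm
  have hmul : ∀ x y, p x ∈ J → (∀ o, zz φ g x o ∈ S o) → (∀ o, zz φ g y o ∈ S o) →
      ∀ o, zz φ g (x * y) o ∈ S o := by
    intro x y hx h1 h2 o
    rw [zz_mul]
    have h3 := h2 ((φ x).right⁻¹ • o)
    rw [hSi x hx o] at h3
    exact (S o).mul_mem (h1 o) h3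
  have hinv : ∀ x, p x ∈ J → (∀ o, zz φ g x o ∈ S o) → ∀ o, zz φ g x⁻¹ o ∈ S o := by
    intro x hx h1 o
    have h2 := zz_mul φ g x⁻¹ x o
    rw [inv_mul_cancel, zz_one] at h2
    have h3 : zz φ g x⁻¹ o = (zz φ g x ((φ x⁻¹).right⁻¹ • o))⁻¹ :=
      eq_inv_of_mul_eq_one_left h2.symm
    have h4 : (φ x⁻¹).right⁻¹ • o = (φ x).right • o := by
      rw [map_inv, SemidirectProduct.inv_right, inv_inv]
    rw [h3, h4]
    have h5 := h1 ((φ x).right • o)
    rw [hD.cS x hx o] at h5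
    exact (S o).inv_mem h5
  -- an element above `l`
  obtain ⟨y0, hy0, hz0⟩ : ∃ y0, p y0 = l ∧ ∀ o, zz φ g y0 o ∈ S o := by
    obtain ⟨y, hy⟩ := hE.surj l
    have hyJ : p y ∈ J := by
      rw [hy]
      exact hl
    have h1 : ∀ o, ∃ x : G, ι x * zz φ g y o ∈ S o := by
      intro o
      obtain ⟨s, hs, hs2⟩ := hD.adp y hyJ o
      have h2 : ρ (s * (zz φ g y o)⁻¹) = 1 := by
        rw [map_mul, map_inv, hs2, mul_inv_cancel]
      obtain ⟨x, hx⟩ := (hL.cl.ker _).1 h2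
      refine ⟨x, ?_⟩
      rw [hx, inv_mul_cancel_right]
      exact hs
    choose x hx using h1
    refine ⟨j (fun o => κ (g o) (x o)) * y, ?_, ?_⟩
    · rw [map_mul, hy]
      have h2 : p (j (fun o => κ (g o) (x o))) = 1 := (hE.cl.ker _).2 ⟨_, rfl⟩
      rw [h2, one_mul]
    · intro o
      rw [zz_mul]
      have h3 : (φ (j (fun o => κ (g o) (x o)))).right = 1 := by
        rw [hE.jn]
        rfl
      have h4 : zz φ g (j (fun o => κ (g o) (x o))) o = ι (x o) := by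
        unfold zz
        rw [h3, inv_one, one_smul, hE.jn]
        change (g o)⁻¹ * ι (κ (g o) (x o)) * g o = ι (x o)
        rw [hL.cl.act]
        group
      rw [h3, h4, inv_one, one_smul]
      exact hx o
  have hy0J : p y0 ∈ J := by
    rw [hy0]
    exact hl
  -- commutation of the traces
  have hcomm : ∀ x y, p x ∈ J → p y ∈ J → (∀ o, zz φ g x o ∈ S o) → (∀ o, zz φ g y o ∈ S o) →
      TH m M (φ (x * y)).right (zz φ g (x * y)) = TH m M (φ (y * x)).right (zz φ g (y * x)) := by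
    have h1 : ∀ x y, p x ∈ J → p y ∈ J → (∀ o, zz φ g x o ∈ S o) → (∀ o, zz φ g y o ∈ S o) →
        TH m M (φ (x * y)).right (zz φ g (x * y)) =
          (AM m M (φ x).right (zz φ g x) * AM m M (φ y).right (zz φ g y)).trace := by
      intro x y hx hy hzx hzy
      have h2 := AM_mul (θ := θ) (k := (φ x).right) (l := (φ y).right) (fun o => hD.cS x hx o)
        (fun o => hD.cm x hx o) (fun o => hD.cM x hx o) (fun o => hD.cm y hy o) hD.md hzx hzy
      rw [← h2, TH_eq]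
      have h3 : (φ (x * y)).right = (φ x).right * (φ y).right := by
        rw [map_mul, SemidirectProduct.mul_right]
      have h4 : zz φ g (x * y) = fun o => zz φ g x o * zz φ g y ((φ x).right⁻¹ o) := by
        funext o
        exact zz_mul φ g x y o
      rw [h3, h4]
    intro x y hx hy hzx hzy
    rw [h1 x y hx hy hzx hzy, h1 y x hy hx hzy hzx, Matrix.trace_mul_comm]
  -- the bijection
  unfold AS
  congr 1
  symm
  refine Fintype.sum_equiv (MulAut.conj y0).toEquiv _ _ ?_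
  intro y
  have hc : (MulAut.conj y0).toEquiv y = y0 * y * y0⁻¹ := rfl
  rw [hc]
  have hiff : (p y = k ∧ ∀ o, zz φ g y o ∈ S o) ↔
      (p (y0 * y * y0⁻¹) = l * k * l⁻¹ ∧ ∀ o, zz φ g (y0 * y * y0⁻¹) o ∈ S o) := by
    constructor
    · rintro ⟨h1, h2⟩
      refine ⟨by rw [map_mul, map_mul, map_inv, hy0, h1], ?_⟩
      have h3 : p (y0 * y) ∈ J := by
        rw [map_mul, h1]
        exact J.mul_mem hy0J hk
      exact hmul (y0 * y) y0⁻¹ h3 (hmul y0 y hy0J hz0 h2) (hinv y0 hy0J hz0)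
    · rintro ⟨h1, h2⟩
      have h3 : p y = k := by
        rw [map_mul, map_mul, map_inv, hy0] at h1
        exact mul_left_cancel (mul_right_cancel h1)
      refine ⟨h3, ?_⟩
      have h4 : y = y0⁻¹ * (y0 * y * y0⁻¹) * y0 := by group
      have h5 : p y0⁻¹ ∈ J := by
        rw [map_inv]
        exact J.inv_mem hy0J
      have h6 : p (y0 * y * y0⁻¹) ∈ J := by
        rw [h1]
        exact J.mul_mem (J.mul_mem hl hk) (J.inv_mem hl)
      rw [h4]
      exact hmul (y0⁻¹ * (y0 * y * y0⁻¹)) y0 (by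
        rw [map_mul]
        exact J.mul_mem h5 h6) (hmul y0⁻¹ _ h5 (hinv y0 hy0J hz0) h2) hz0
  by_cases h : p y = k ∧ ∀ o, zz φ g y o ∈ S o
  · rw [if_pos h, if_pos (hiff.1 h), hF y0 y]
    congr 1
    have h5 : p y0⁻¹ ∈ J := by
      rw [map_inv]
      exact J.inv_mem hy0J
    have h7 : p y ∈ J := by
      rw [h.1]
      exact hk
    have h8 : p (y * y0⁻¹) ∈ J := by
      rw [map_mul]
      exact J.mul_mem h7 h5
    have h9 := hcomm y0 (y * y0⁻¹) hy0J h8 hz0 (hmul y y0⁻¹ h7 h.2 (hinv y0 hy0J hz0))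
    have e1 : y0 * (y * y0⁻¹) = y0 * y * y0⁻¹ := by group
    have e2 : y * y0⁻¹ * y0 = y := by group
    rw [e1, e2] at h9
    exact h9.symm
  · rw [if_neg h, if_neg fun h' => h (hiff.2 h')]

end Pool.Agent.DP


end

section

set_option linter.unusedSectionVars false

/-! PERCR: the extension to the inertia group, in terms of standard data (theorem R). -/

namespace Pool.Agent.DP

open Pool.Agent.Lib_helper13 Representation

namespace PERCR

variable {O G B C Y K : Type} [Fintype O] [DecidableEq O] [Group G] [Fintype G] [Group B]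
  [Fintype B] [Group C] [Group Y] [Fintype Y] [Group K] [Finite K]

theorem zz_mul (φ : Y →* Gam (Equiv.Perm O) O B) (g : O → B) (x y : Y) (o : O) :
    zz φ g (x * y) o = zz φ g x o * zz φ g y ((φ x).right⁻¹ • o) := by
  have h1 : (φ (x * y)).left o = (φ x).left o * (φ y).left ((φ x).right⁻¹ • o) := by
    rw [map_mul]
    rfl
  have h2 : (φ (x * y)).right⁻¹ • o = (φ y).right⁻¹ • (φ x).right⁻¹ • o := by
    rw [map_mul]
    change ((φ x).right * (φ y).right)⁻¹ • o = _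
    rw [mul_inv_rev, mul_smul]
  rw [zz, zz, zz, h1, h2]
  group

theorem zz_one (φ : Y →* Gam (Equiv.Perm O) O B) (g : O → B) (o : O) : zz φ g 1 o = 1 := by
  rw [zz, map_one]
  simp

/-- the first statement -/
theorem mem_iff (hR : Stmt_REPJ) (hT : Stmt_TRBR) (ℓ : ℕ) [Fact ℓ.Prime]
    (ι : G →* B) (κ : B →* MulAut G) (ρ : B →* C) (hloc : LocS ℓ ι κ ρ)
    (j : (O → G) →* Y) (p : Y →* K) (φ : Y →* Gam (Equiv.Perm O) O B) (h : ExtS ι κ j p φ)
    (τ : Finset (Subgroup (O → G))) (θ : O → G → ℂ)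
    (hθ : ∀ o, IrrOn (stb (comp τ o)) (θ o))
    (r : O → O) (t : O → Y) (g : O → B) (S : O → Subgroup B) (f : O → B → ℂ) (m : O → ℕ)
    (M : O → B → ℕ → ℕ → ℂ) (hst : StdR ℓ ι κ ρ p φ τ θ r t g S f m M) (y : Y) :
    (p y ∈ KB κ p φ τ θ ∧ ∀ o, zz φ g y o ∈ S o) ↔ y ∈ InY κ φ τ θ := by
  have hTR := (hT O G B C (⊥ : Ideal (integralClosure ℤ ℂ)) ℓ ι κ ρ hloc τ θ hθ).1
  have hRP := ((hR O G B C Y K ℓ ι κ ρ hloc j p φ h (KB κ p φ τ θ)).2.2 r t hst.rp).2.2
  have key : ∀ y, p y ∈ KB κ p φ τ θ → ∀ o, zz φ g y o ∈ S o ↔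
      trB κ τ θ ((φ y).right⁻¹ • o) o ((φ y).left o) := by
    intro y hy o
    have h1 : r ((φ y).right⁻¹ • o) = r o := by
      have h2 := hst.rp.con y hy ((φ y).right⁻¹ • o)
      rw [smul_inv_smul] at h2
      exact h2.symm
    have h3 := hst.tr o
    have h4 := hst.tr ((φ y).right⁻¹ • o)
    rw [h1] at h4
    have h5 : ρ (zz φ g y o) ∈ vg ρ p φ (KB κ p φ τ θ) (r o) := hRP y hy g hst.rg o
    rw [hst.hS o]
    constructor
    · intro hz
      have h6 := (hTR (r o) (zz φ g y o)).mpr hz.1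
      have h7 := (h3.mul h6).mul h4.inv
      have h8 : g o * zz φ g y o * (g ((φ y).right⁻¹ • o))⁻¹ = (φ y).left o := by
        rw [zz]
        group
      rwa [h8] at h7
    · intro hz
      refine ⟨(hTR (r o) (zz φ g y o)).mp ?_, h5⟩
      have h6 := (h3.inv.mul hz).mul h4
      exact h6
  constructor
  · rintro ⟨h1, h2⟩ o
    exact (key y h1 o).mp (h2 o)
  · intro hy
    have h1 : p y ∈ KB κ p φ τ θ := ⟨y, hy, rfl⟩
    exact ⟨h1, fun o => (key y h1 o).mpr (hy o)⟩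

end PERCR

open _root_.Pool.Agent.DP.PERCR in
theorem PERCR_thm (hA : Stmt_PERAR) (hR : Stmt_REPJ) (hT : Stmt_TRBR) : Stmt_PERCR := by
  classical
  intro O G B C Y K _ _ _ _ _ _ _ _ _ _ _ ℓ _ ι κ ρ hloc j p φ h τ hτ θ hθ r t g S f m M hst
  have hmem := mem_iff hR hT ℓ ι κ ρ hloc j p φ h τ θ hθ r t g S f m M hst
  refine ⟨hmem, ?_⟩
  obtain ⟨hle, hin, -, -, -⟩ := hA O G B C Y K ℓ ι κ ρ hloc j p φ h τ hτ θ hθ
  set J := KB κ p φ τ θ with hJ
  set I := inert (cS h.cl τ) (fun a => ∏ o, θ o ((a : O → G) o)) with hI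
  -- the group of permutations
  let L : Subgroup (Equiv.Perm O) :=
    (J.comap p).map ((SemidirectProduct.rightHom : Gam (Equiv.Perm O) O B →* Equiv.Perm O).comp φ)
  have hL : ∀ l : L, ∃ y, p y ∈ J ∧ (φ y).right = (l : Equiv.Perm O) := by
    rintro ⟨l, y, hy, rfl⟩
    exact ⟨y, hy, rfl⟩
  have hSS : ∀ (l : L) o, S (l • o) = S o := by
    intro l o
    obtain ⟨y, hy, hl⟩ := hL l
    have h1 := hst.sd.cS y hy o
    rw [hl] at h1
    exact h1
  have hmm : ∀ (l : L) o, m (l • o) = m o := by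
    intro l o
    obtain ⟨y, hy, hl⟩ := hL l
    have h1 := hst.sd.cm y hy o
    rw [hl] at h1
    exact h1
  have hMM : ∀ (l : L) o, M (l • o) = M o := by
    intro l o
    obtain ⟨y, hy, hl⟩ := hL l
    have h1 := hst.sd.cM y hy o
    rw [hl] at h1
    exact h1
  have hTE := TENS_thm.2 L O B S hSS f m M hmm hMM hst.sd.md
  have hIn : ∀ s : I, ((s : YS j τ) : Y) ∈ InY κ φ τ θ := fun s => (hin s.1).mp s.2
  have hpJ : ∀ s : I, p ((s : YS j τ) : Y) ∈ J := fun s => ((hmem _).mpr (hIn s)).1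
  have hzS : ∀ (s : I) (o : O), zz φ g ((s : YS j τ) : Y) o ∈ S o :=
    fun s => ((hmem _).mpr (hIn s)).2
  let Ψ : I →* stdS (L := L) S hSS :=
    { toFun := fun s => ⟨⟨zz φ g ((s : YS j τ) : Y), ⟨(φ ((s : YS j τ) : Y)).right,
        ⟨((s : YS j τ) : Y), hpJ s, rfl⟩⟩⟩, hzS s⟩
      map_one' := by
        apply Subtype.ext
        apply SemidirectProduct.ext
        · ext o
          exact zz_one φ g o
        · apply Subtype.ext
          change (φ 1).right = 1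
          rw [map_one]
          rfl
      map_mul' := by
        intro x y
        apply Subtype.ext
        apply SemidirectProduct.ext
        · ext o
          exact zz_mul φ g _ _ o
        · apply Subtype.ext
          change (φ (((x : YS j τ) : Y) * ((y : YS j τ) : Y))).right = _
          rw [map_mul]
          rfl }
  let E : I → ℂ := fun s => TH m M (φ ((s : YS j τ) : Y)).right (zz φ g ((s : YS j τ) : Y))
  have hE1 : IsChr E := hTE.1.comp Ψ
  have hE2 : ∀ a (ha : jS h.cl τ a ∈ I), E ⟨jS h.cl τ a, ha⟩ = ∏ o, θ o ((a : O → G) o) := by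
    intro a ha
    have hφ : φ (j (a : O → G)) = SemidirectProduct.inl (fun o => ι ((a : O → G) o)) := h.jn _
    have h0 : zz φ g (j (a : O → G)) = fun o => ι (κ (g o)⁻¹ ((a : O → G) o)) := by
      funext o
      rw [zz, hφ, hloc.cl.act]
      simp
    have h1 : E ⟨jS h.cl τ a, ha⟩ = TH m M 1 (fun o => ι (κ (g o)⁻¹ ((a : O → G) o))) := by
      change TH m M (φ (j (a : O → G))).right (zz φ g (j (a : O → G))) = _
      rw [h0, hφ]
      rfl
    rw [h1, hTE.2]
    · refine Finset.prod_congr rfl fun o _ => ?_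
      rw [(hst.ex o).2]
      have h2 := (hst.tr o).2 (κ (g o)⁻¹ ((a : O → G) o))
      rw [← h2, ← MulAut.mul_apply, ← map_mul, mul_inv_cancel, map_one, MulAut.one_apply]
    · intro o
      have h2 := hzS ⟨jS h.cl τ a, ha⟩ o
      change zz φ g (j (a : O → G)) o ∈ S o at h2
      rwa [h0] at h2
  refine ⟨E, hE1, hE2, ?_⟩
  intro η hη F hF
  have hone : E 1 = ∏ o, f o 1 := by
    have h0 : zz φ g 1 = fun _ => (1 : B) := by
      funext o
      exact zz_one φ g o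
    have h1 : E 1 = TH m M 1 (fun _ => (1 : B)) := by
      change TH m M (φ 1).right (zz φ g 1) = _
      rw [h0, map_one]
      rfl
    rw [h1, hTE.2]
    intro o
    exact (S o).one_mem
  have hext : ext0 η (pS p j τ ((1 : I) : YS j τ)) = η 1 := by
    have h1 : pS p j τ ((1 : I) : YS j τ) = 1 := map_one _
    rw [h1, ext0_of_mem η J.one_mem]
    rfl
  -- both sides are sums over `Y`
  have hsum1 : ∑ s : I, F ((s : YS j τ) : Y) * (E s * ext0 η (pS p j τ s)) =
      ∑ y : Y, if y ∈ InY κ φ τ θ then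
        F y * (TH m M (φ y).right (zz φ g y) * ext0 η (p y)) else 0 := by
    rw [← Finset.sum_filter]
    refine Finset.sum_bij' (fun (s : I) _ => ((s : YS j τ) : Y))
      (fun y hy => ⟨⟨y, hle (Finset.mem_filter.mp hy).2⟩,
        (hin _).mpr (Finset.mem_filter.mp hy).2⟩) ?_ ?_ ?_ ?_ ?_
    · intro s _
      exact Finset.mem_filter.mpr ⟨Finset.mem_univ _, hIn s⟩
    · intro y _
      exact Finset.mem_univ _
    · intro s _
      rfl
    · intro y _
      rfl
    · intro s _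
      rfl
  have hsum2 : ∑ k : J, AS p φ g S f m M (k : K) F * η k =
      (∑ y : Y, if y ∈ InY κ φ τ θ then
        F y * (TH m M (φ y).right (zz φ g y) * ext0 η (p y)) else 0) / ∏ o, f o 1 := by
    have h1 : ∀ k : J, AS p φ g S f m M (k : K) F * η k =
        (∑ y : Y, if p y = k ∧ ∀ o, zz φ g y o ∈ S o then
          F y * (TH m M (φ y).right (zz φ g y) * η k) else 0) / ∏ o, f o 1 := by
      intro k
      rw [AS, div_mul_eq_mul_div, Finset.sum_mul]
      congr 1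
      refine Finset.sum_congr rfl fun y _ => ?_
      by_cases hc : p y = k ∧ ∀ o, zz φ g y o ∈ S o
      · rw [if_pos hc, if_pos hc]
        ring
      · rw [if_neg hc, if_neg hc, zero_mul]
    rw [Finset.sum_congr rfl fun k _ => h1 k, ← Finset.sum_div, Finset.sum_comm]
    congr 1
    refine Finset.sum_congr rfl fun y _ => ?_
    by_cases hy : y ∈ InY κ φ τ θ
    · rw [if_pos hy]
      obtain ⟨hy1, hy2⟩ := (hmem y).mpr hy
      rw [Finset.sum_eq_single (⟨p y, hy1⟩ : J)]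
      · rw [if_pos ⟨rfl, hy2⟩, ext0_of_mem η hy1]
      · intro k _ hk
        rw [if_neg]
        rintro ⟨h2, -⟩
        exact hk (Subtype.ext h2.symm)
      · intro h2
        exact absurd (Finset.mem_univ _) h2
    · rw [if_neg hy]
      refine Finset.sum_eq_zero fun k _ => ?_
      rw [if_neg]
      rintro ⟨h2, h3⟩
      refine hy ((hmem y).mp ⟨?_, h3⟩)
      rw [h2]
      exact k.2
  rw [wt, wt, hsum1, hsum2, hone, hext, div_div]

end Pool.Agent.DP


end

section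

/-!
# The number of transports
-/

namespace Pool.Agent.DP

open Pool.Agent.Lib_helper13 Representation

namespace CNTG

/-- Elements with the same image in `K` act by the same permutation, with the same left
components modulo `G`. -/
theorem same_image {O G B C Y K : Type} [Group G] [Group B] [Group C] [Group Y] [Group K]
    {ℓ : ℕ} {ι : G →* B} {κ : B →* MulAut G} {ρ : B →* C} (hL : LocS ℓ ι κ ρ)
    {j : (O → G) →* Y} {p : Y →* K} {φ : Y →* Gam (Equiv.Perm O) O B} (hE : ExtS ι κ j p φ)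
    {x y : Y} (h : p x = p y) :
    (φ x).right = (φ y).right ∧ ∀ o, ρ ((φ x).left o) = ρ ((φ y).left o) := by
  have h1 : p (x * y⁻¹) = 1 := by rw [map_mul, map_inv, h, mul_inv_cancel]
  obtain ⟨n, hn⟩ := (hE.cl.ker (x * y⁻¹)).mp h1
  have hx : x = j n * y := by rw [hn, inv_mul_cancel_right]
  have h2 : φ x = SemidirectProduct.inl (fun o => ι (n o)) * φ y := by
    rw [hx, map_mul, hE.jn]
  constructor
  · rw [h2, SemidirectProduct.mul_right, SemidirectProduct.right_inl, one_mul]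
  · intro o
    rw [h2]
    have h3 : (SemidirectProduct.inl (fun o => ι (n o)) * φ y :
        Gam (Equiv.Perm O) O B).left o = ι (n o) * (φ y).left o := by
      rw [SemidirectProduct.mul_left, SemidirectProduct.left_inl, SemidirectProduct.right_inl,
        map_one]
      rfl
    rw [h3, map_mul, (hL.cl.ker (ι (n o))).mpr ⟨n o, rfl⟩, one_mul]

end CNTG

open _root_.Pool.Agent.DP.CNTG

theorem CNTG_thm (h1 : Stmt_TRBR) : Stmt_CNTG := by
  classical
  intro O G B C Y K _ _ _ _ _ _ _ _ _ _ _ ℓ _ ι κ ρ hL j p φ hE J r t hr τ hτ θ hθ hJ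
  obtain ⟨-, h2⟩ := h1 O G B C ⊥ ℓ ι κ ρ hL τ θ hθ
  have e1 : {g : O → B // (∀ o, r o = o → g o = 1) ∧
      (∀ o, ρ (g o) = ρ ((φ (t o)).left o)) ∧ ∀ o, trB κ τ θ (r o) o (g o)} ≃
      ((o : O) → {h : B // (r o = o → h = 1) ∧ ρ h = ρ ((φ (t o)).left o) ∧
        trB κ τ θ (r o) o h}) :=
    { toFun := fun g o => ⟨g.1 o, g.2.1 o, g.2.2.1 o, g.2.2.2 o⟩
      invFun := fun f => ⟨fun o => (f o).1, fun o => (f o).2.1, fun o => (f o).2.2.1,
        fun o => (f o).2.2.2⟩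
      left_inv := fun g => rfl
      right_inv := fun f => rfl }
  rw [Nat.card_congr e1, Nat.card_pi, Finset.prod_filter]
  refine Finset.prod_congr rfl fun o _ => ?_
  by_cases ho : r o = o
  · rw [if_neg (not_not.mpr ho)]
    rw [Nat.card_eq_one_iff_unique]
    constructor
    · constructor
      intro a b
      apply Subtype.ext
      rw [a.2.1 ho, b.2.1 ho]
    · refine ⟨⟨1, fun _ => rfl, ?_, ?_⟩⟩
      · have h3 : (φ (t o)).left o = 1 := by
          rw [hr.one o ho, map_one]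
          rfl
        rw [h3]
      · rw [ho]
        exact trB.one κ τ θ o
  · rw [if_pos ho]
    obtain ⟨y, hy, hy2⟩ := hJ (hr.mem o)
    obtain ⟨h3, h4⟩ := same_image hL hE hy2
    have h5 : (φ y).right⁻¹ • o = r o := by
      rw [inv_smul_eq_iff, h3, hr.map]
    have h6 : trB κ τ θ (r o) o ((φ y).left o) := by
      have h := hy o
      rw [h5] at h
      exact h
    obtain ⟨-, -, -, h7, -⟩ := h2 (r o) o _ h6
    rw [← h7]
    refine Nat.card_congr (Equiv.subtypeEquivRight fun h => ?_)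
    rw [h4]
    constructor
    · rintro ⟨-, ha, hb⟩
      exact ⟨hb, ha⟩
    · rintro ⟨ha, hb⟩
      exact ⟨fun h => absurd h ho, hb, ha⟩

end Pool.Agent.DP


end

section

/-!
# COMBR: the vanishing of the combinatorial sum (theorem R)
-/

namespace Pool.Agent.DP.COMBR

open Pool.Agent.Lib_helper13 Representation

theorem vg_mono {O B C Y K : Type*} [Group B] [Group C] [Group Y] [Group K]
    (ρ : B →* C) (p : Y →* K) (φ : Y →* Gam (Equiv.Perm O) O B) {J J' : Subgroup K} (h : J ≤ J')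
    (o : O) : vg ρ p φ J o ≤ vg ρ p φ J' o := by
  rintro c ⟨y, hy, h2, h3⟩
  exact ⟨y, h hy, h2, h3⟩

/-- The type is invariant under truncation. -/
theorem dzT_trn {G B C : Type} [Group G] [Fintype G] [Group B] [Group C]
    (𝔐 : Ideal (integralClosure ℤ ℂ)) (ℓ : ℕ) {ι : G →* B} {κ : B →* MulAut G} {ρ : B →* C}
    (hcl : ClG ι κ ρ) (L : Subgroup C) (β : Set (B → (integralClosure ℤ ℂ) ⧸ 𝔐)) :
    dzT 𝔐 ℓ ι ((fun b => trn ρ L b) '' β) ↔ dzT 𝔐 ℓ ι β := by
  have h1 : ∀ (b : B → (integralClosure ℤ ℂ) ⧸ 𝔐) (g : G), trn ρ L b (ι g) = b (ι g) := by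
    intro b g
    have h2 : ρ (ι g) = 1 := (hcl.ker (ι g)).mpr ⟨g, rfl⟩
    rw [trn, if_pos (by rw [h2]; exact L.one_mem)]
  constructor
  · rintro ⟨_, ⟨b, hb, rfl⟩, θ, h2, h3, h4⟩
    refine ⟨b, hb, θ, h2, h3, fun g => ?_⟩
    rw [← h4 g]
    exact (h1 b g).symm
  · rintro ⟨b, hb, θ, h2, h3, h4⟩
    refine ⟨_, ⟨b, hb, rfl⟩, θ, h2, h3, fun g => ?_⟩
    rw [← h4 g]
    exact h1 b g

theorem ite_dec (P : Prop) (d1 d2 : Decidable P) (a b : ℚ) :
    @ite _ P d1 a b = @ite _ P d2 a b := by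
  by_cases h : P
  · rw [if_pos h, if_pos h]
  · rw [if_neg h, if_neg h]

section Gen

variable {I P E V : Type*} [PartialOrder P] [Finite P] (s : Finset I) (w : I → ℚ) (k : I → P)
  (e : I → E) (v : I → P → V) (r : P → V → V) (good : V → Prop)

open Classical in
/-- Downward induction. -/
theorem down (hr : ∀ i ∈ s, ∀ J ≤ k i, v i J = r J (v i (k i)))
    (hg : ∀ J u, good (r J u) → good u)
    (h : ∀ J e0 u, good u →
      ∑ i ∈ s, w i * (if J ≤ k i ∧ e i = e0 ∧ v i J = u then 1 else 0) = 0)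
    (J : P) : ∀ (e0 : E) (u : V), good u →
      ∑ i ∈ s, w i * (if k i = J ∧ e i = e0 ∧ v i (k i) = u then 1 else 0) = 0 := by
  have hwf : WellFounded (fun a b : P => a > b) := wellFounded_gt
  induction J using hwf.induction with
  | _ J ih =>
    intro e0 u hu
    have h1 := h J e0 u hu
    have h2 : ∑ i ∈ s, w i * (if J < k i ∧ e i = e0 ∧ r J (v i (k i)) = u then 1 else 0) = 0 := by
      have := COMB.sum_vanish s w (fun i => (k i, e i, v i (k i)))
        (fun x : P × E × V => if J < x.1 ∧ x.2.1 = e0 ∧ r J x.2.2 = u then 1 else 0) (by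
          rintro ⟨J', e', u'⟩ hx
          by_cases h3 : J < J' ∧ e' = e0 ∧ r J u' = u
          · have h4 := ih J' h3.1 e' u' (hg J u' (by rw [h3.2.2]; exact hu))
            refine Eq.trans ?_ h4
            refine Finset.sum_congr rfl fun i _ => ?_
            congr 1
            by_cases h5 : (k i, e i, v i (k i)) = (J', e', u')
            · rw [if_pos h5, if_pos (by simpa only [Prod.mk.injEq] using h5)]
            · rw [if_neg h5, if_neg (fun h6 => h5 (by simpa only [Prod.mk.injEq] using h6))]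
          · exact absurd (if_neg h3) hx)
      exact this
    have h3 : ∑ i ∈ s, w i * (if J ≤ k i ∧ e i = e0 ∧ v i J = u then 1 else 0) =
        ∑ i ∈ s, w i * (if J < k i ∧ e i = e0 ∧ r J (v i (k i)) = u then 1 else 0) +
          ∑ i ∈ s, w i * (if k i = J ∧ e i = e0 ∧ v i (k i) = u then 1 else 0) := by
      rw [← Finset.sum_add_distrib]
      refine Finset.sum_congr rfl fun i hi => ?_
      by_cases h4 : k i = J
      · have h7 : ¬ (J < k i ∧ e i = e0 ∧ r J (v i (k i)) = u) := by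
          rintro ⟨h8, -⟩
          exact h8.ne h4.symm
        rw [if_neg h7, mul_zero, zero_add]
        congr 1
        refine if_congr ?_ rfl rfl
        rw [h4]
        simp
      · have h7 : ¬ (k i = J ∧ e i = e0 ∧ v i (k i) = u) := fun h8 => h4 h8.1
        rw [if_neg h7, mul_zero, add_zero]
        congr 1
        refine if_congr ?_ rfl rfl
        constructor
        · rintro ⟨a, b, c⟩
          refine ⟨lt_of_le_of_ne a (Ne.symm h4), b, ?_⟩
          rw [← hr i hi J a]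
          exact c
        · rintro ⟨a, b, c⟩
          refine ⟨a.le, b, ?_⟩
          rw [hr i hi J a.le]
          exact c
    rw [h1, h2, zero_add] at h3
    exact h3.symm

end Gen

end Pool.Agent.DP.COMBR

namespace Pool.Agent.DP

open Pool.Agent.Lib_helper13 Representation

open Classical in
theorem COMBR_thm (h1 : Stmt_EXTBR) : Stmt_COMBR := by
  intro O G B C Y K _ _ _ _ _ _ _ _ _ _ _ 𝔐 ℓ _ ι κ ρ hL j p φ hE hT Φ hΦ
  have hdown := COMBR.down (P := Subgroup K) (E := ℕ)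
    (V := O → Set (B → (integralClosure ℤ ℂ) ⧸ 𝔐))
    ((ClCh O G ℓ).sigma (fun τ => Fintype.piFinset (fun o => irrOn (stb (comp τ o)))))
    (fun x => (-1 : ℚ) ^ x.1.card * ∏ o, (Nat.card (stb (comp x.1 o)) : ℚ))
    (fun x => KB κ p φ x.1 x.2)
    (fun x => ∑ o, df ℓ (stb (comp x.1 o)) (x.2 o))
    (fun x J => bts 𝔐 ι κ ρ p φ x.1 x.2 J)
    (fun J β o => (fun b => trn ρ (vg ρ p φ J o) b) '' β o)
    (fun β => ∃ o, ¬ dzT 𝔐 ℓ ι (β o))
    (by
      rintro ⟨τ, θ⟩ hx J hJ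
      rw [Finset.mem_sigma, Fintype.mem_piFinset] at hx
      funext o
      exact (h1 G B C 𝔐 ℓ ι κ ρ hL (comp τ o) (θ o) (COMB.irrOn_of_mem (hx.2 o)) _ _
        (COMBR.vg_mono ρ p φ hJ o)).2.2)
    (by
      rintro J β ⟨o, ho⟩
      refine ⟨o, fun h => ho ?_⟩
      exact (COMBR.dzT_trn 𝔐 ℓ hL.cl _ _).mpr h)
    (by
      intro J e0 β hβ
      refine Eq.trans ?_ (hT J e0 β hβ)
      rw [Finset.sum_sigma]
      refine Finset.sum_congr rfl fun τ _ => ?_
      rw [← mul_assoc, Finset.mul_sum]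
      refine Finset.sum_congr rfl fun θ _ => ?_
      congr 1
      exact COMBR.ite_dec _ _ _ _ _)
  have key := COMB.sum_vanish
    ((ClCh O G ℓ).sigma (fun τ => Fintype.piFinset (fun o => irrOn (stb (comp τ o)))))
    (fun x => (-1 : ℚ) ^ x.1.card * ∏ o, (Nat.card (stb (comp x.1 o)) : ℚ))
    (fun x => (KB κ p φ x.1 x.2, ∑ o, df ℓ (stb (comp x.1 o)) (x.2 o),
      bts 𝔐 ι κ ρ p φ x.1 x.2 (KB κ p φ x.1 x.2)))
    (fun v : Subgroup K × ℕ × (O → Set (B → (integralClosure ℤ ℂ) ⧸ 𝔐)) => Φ v.1 v.2.1 v.2.2)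
    (by
      rintro ⟨J, e0, β⟩ hv
      refine Eq.trans ?_ (hdown J e0 β (hΦ J e0 β hv))
      refine Finset.sum_congr rfl fun x _ => ?_
      congr 1
      by_cases h5 : (KB κ p φ x.1 x.2, ∑ o, df ℓ (stb (comp x.1 o)) (x.2 o),
        bts 𝔐 ι κ ρ p φ x.1 x.2 (KB κ p φ x.1 x.2)) = (J, e0, β)
      · rw [if_pos h5, if_pos (by simpa only [Prod.mk.injEq] using h5)]
      · rw [if_neg h5, if_neg (fun h6 => h5 (by simpa only [Prod.mk.injEq] using h6))])
  rw [Finset.sum_sigma] at key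
  refine Eq.trans ?_ key
  refine Finset.sum_congr rfl fun τ _ => ?_
  rw [← mul_assoc, Finset.mul_sum]

end Pool.Agent.DP


end

section

/-!
# Module ZRR: the largest normal `ℓ`-subgroup of `X` meets the base group trivially
-/

namespace Pool.Agent.DP

open Pool.Agent.Lib_helper13 Representation
open Pool.Agent.Lib_helper13.Dade (pCore DadeHolds)

/-- **Module ZRR.** -/
theorem ZRR_thm : Stmt_ZRR := by
  intro O G B X K _ _ _ _ _ _ _ ℓ _ ι κ hG j p φ hE
  obtain ⟨h1, h2⟩ := ZR.pCore_spec ℓ X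
  have hker : j.range = p.ker := by
    ext y
    rw [MonoidHom.mem_ker]
    exact (hE.cl.ker y).symm
  refine ⟨h1, h2, ?_, ?_⟩
  · rw [hker]
    infer_instance
  · rw [eq_bot_iff]
    rintro x ⟨hx, n, rfl⟩
    have h3 := pCore_eq_bot_iff.mp (pCore_pi hG O) ((pCore ℓ X).comap j) (h1.comap _)
      (h2.comap_of_injective j hE.cl.inj)
    have h4 : n ∈ (pCore ℓ X).comap j := hx
    rw [h3, Subgroup.mem_bot] at h4
    rw [h4, map_one]
    exact Subgroup.one_mem _

end Pool.Agent.DP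


end

section

/-!
# Theorem R: all modules together
-/

namespace Pool.Agent.DP

open Pool.Agent.Lib_helper13 Representation
open Pool.Agent.Lib_helper13.Dade (pCore DadeHolds dadeSum IsIrrChar)

theorem extar_all : Stmt_EXTAR := EXTAR_thm EXTC_thm

theorem extbr_all : Stmt_EXTBR := EXTBR_thm extar_all

theorem betg_all : Stmt_BETG := BETG_thm INTH_thm extar_all

theorem lkb_all : Stmt_LKB := LKB_thm extar_all

theorem ldz_all : Stmt_LDZ := LDZ_thm LKA_thm lkb_all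

theorem ltr_all : Stmt_LTR := LTR_thm INTH_thm

theorem lti_all : Stmt_LTI := LTI_thm INTH_thm

theorem mobb_all : Stmt_MOBB := MOBB_thm MOBA_thm

theorem vv_all : Stmt_VV :=
  VV_thm extar_all extbr_all CGT_thm betg_all LKA_thm lkb_all ldz_all ltr_all lti_all LSEP_thm
    mobb_all

theorem aah_all : Stmt_AAH := AAH_thm AAKH_thm INTH_thm

theorem ash_all : Stmt_ASH := ASH_thm aah_all

theorem mindr_all : Stmt_MINDR := MINDR_thm ash_all ASC_thm TWR_thm

theorem perar_all : Stmt_PERAR := PERAR_thm TRBR_thm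

theorem perbr_all : Stmt_PERBR := PERBR_thm extar_all perar_all REPJ_thm TRBR_thm

theorem percr_all : Stmt_PERCR := PERCR_thm perar_all REPJ_thm TRBR_thm

theorem perdr_all : Stmt_PERDR := PERDR_thm perar_all percr_all

theorem cliffr_all : Stmt_CLIFFR :=
  CLIFFR_thm extar_all perar_all REPJ_thm perbr_all perdr_all mindr_all

theorem lift_all : Stmt_LIFT := LIFT_thm TRBR_thm REPJ_thm perar_all CGT_thm

theorem cntg_all : Stmt_CNTG := CNTG_thm TRBR_thm

theorem tj_all : Stmt_TJ := TJ_thm lift_all cntg_all REPJ_thm TRBR_thm FIXR_thm EVALR_thm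

theorem combr_all : Stmt_COMBR := COMBR_thm extbr_all

theorem rx0_all : Stmt_RX0 := RX0_thm DHE_thm

theorem rinner_all : Stmt_RINNER := RINNER_thm RINA_thm RINB_thm

theorem blkbr_all : Stmt_BLKBR := BLKBR_thm BLKAR_thm

theorem blkcr_all : Stmt_BLKCR := BLKCR_thm CGT_thm

/-- The theorem. -/
theorem mainR (ℓ : ℕ) (hℓ : ℓ.Prime) (G : Type) [Group G] [Finite G]
    (hcen : Subgroup.center G = ⊥) (hcore : pCore ℓ G = ⊥) (a : MulAut G)
    (A : Subgroup (MulAut G))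
    (hA : A = (MulAut.conj : G →* MulAut G).range ⊔ Subgroup.zpowers a)
    (hcop : ¬ ℓ ∣ (MulAut.conj : G →* MulAut G).range.relIndex A)
    (hD : ∀ T : Subgroup (MulAut G), (MulAut.conj : G →* MulAut G).range ≤ T → T ≤ A →
      DadeHolds ℓ T)
    (X Ω : Type) [Group X] [Finite X] [Fintype Ω] (e : (Ω → G) →* X)
    (he : Function.Injective e)
    (hact : ∀ y : X, ∃ (s : Equiv.Perm Ω) (α : Ω → MulAut G), (∀ i, α i ∈ A) ∧
      ∀ x : Ω → G, y * e x * y⁻¹ = e (fun i => α i (x (s i))))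
    (𝔐 : Ideal (integralClosure ℤ ℂ)) (h𝔐 : 𝔐.IsMaximal)
    (hℓ𝔐 : (ℓ : integralClosure ℤ ℂ) ∈ 𝔐) (ξ : Ω → G → ℂ) (hξ : ∀ a, IsIrrChar (ξ a)) (w : Ω)
    (hw : ¬ Dade.HasDefect ℓ (ξ w) 0) (χ : X → ℂ) (hχ : IsIrrChar χ)
    (hover : ∑ᶠ x : Ω → G, χ (e x) * ∏ i, ξ i (x i)⁻¹ ≠ 0) (d : ℕ) : dadeSum 𝔐 ℓ χ d = 0 :=
  mainR' SPLIT_thm CORE_thm rinner_all CLOSEDR_thm ZRR_thm rx0_all cliffr_all vv_all tj_all
    combr_all blkbr_all blkcr_all ℓ hℓ G hcen hcore a A hA hcop hD X Ω e he hact 𝔐 h𝔐 hℓ𝔐 ξ hξ w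
    hw χ hχ hover d

end Pool.Agent.DP


end

section

/-!
ASH: the weighted sums over `Y` depend only on the central functions.
-/

namespace Pool.Agent.DPC.ASH

open Pool.Agent.DP

open Pool.Agent.Lib_helper13 Pool.Agent.DP

section

variable {O G B C Y K : Type} [Group G] [Group B] [Group C] [Group Y] [Group K]
  {ι : G →* B} {κ : B →* MulAut G} {ρ : B →* C} {j : (O → G) →* Y} {p : Y →* K}
  {φ : Y →* Gam (Equiv.Perm O) O B}

theorem left_conj (h : ExtS ι κ j p φ) (a : O → G) (y : Y) (o : O) :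
    (φ (j a * y * (j a)⁻¹)).left o =
      ι (a o) * (φ y).left o * (ι (a ((φ y).right⁻¹ • o)))⁻¹ := by
  rw [map_mul, map_mul, map_inv, h.jn]
  change (ι (a o) * (φ y).left ((1 : Equiv.Perm O)⁻¹ • o)) *
    (((fun o => ι (a o) : O → B)) ((1 : Equiv.Perm O)⁻¹⁻¹ •
      ((1 : Equiv.Perm O) * (φ y).right)⁻¹ • o))⁻¹ = _
  simp

theorem right_conj (h : ExtS ι κ j p φ) (a : O → G) (y : Y) :
    (φ (j a * y * (j a)⁻¹)).right = (φ y).right := by
  rw [map_mul, map_mul, map_inv, h.jn]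
  simp

theorem right_mul (h : ExtS ι κ j p φ) (a : O → G) (y : Y) :
    (φ (j a * y)).right = (φ y).right := by
  rw [map_mul, h.jn]
  simp

theorem zz_conj (h : ExtS ι κ j p φ) (hcl : ClG ι κ ρ) (g : O → B) (x : O → G) (y : Y) :
    zz φ g (j (fun o => κ (g o) (x o)) * y * (j (fun o => κ (g o) (x o)))⁻¹) =
      fun o => ι (x o) * zz φ g y o * (ι (x ((φ y).right⁻¹ o)))⁻¹ := by
  funext o
  unfold zz
  rw [left_conj h, right_conj h, hcl.act, hcl.act]
  rw [Equiv.Perm.smul_def]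
  group

theorem zz_change (h : ExtS ι κ j p φ) (g g' : O → B) (c : O → G)
    (hc : ∀ o, g' o = ι (c o) * g o) (y : Y) :
    zz φ g' (j c * y * (j c)⁻¹) = zz φ g y := by
  funext o
  unfold zz
  rw [left_conj h, right_conj h, hc, hc]
  group

/-- the conjugate of `j n * y` by `j a` -/
def cj (κ : B →* MulAut G) (φ : Y →* Gam (Equiv.Perm O) O B) (y : Y) (a : O → G) :
    (O → G) ≃ (O → G) :=
  (Equiv.mulLeft a).trans (Equiv.mulRight (wB κ O (φ y) a⁻¹))

theorem cj_spec (h : ExtS ι κ j p φ) (y : Y) (a n : O → G) :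
    j (cj κ φ y a n) * y = j a * (j n * y) * (j a)⁻¹ := by
  have h1 : j (wB κ O (φ y) a⁻¹) = y * (j a)⁻¹ * y⁻¹ := by
    have h2 := h.cl.act y a⁻¹
    rw [map_inv j] at h2
    exact h2
  change j (a * n * wB κ O (φ y) a⁻¹) * y = _
  rw [map_mul, map_mul, h1]
  group

theorem sum_conj [Fintype O] [DecidableEq O] [Fintype G] (h : ExtS ι κ j p φ) (y : Y)
    (a : O → G) (H : Y → ℂ) :
    ∑ n : O → G, H (j a * (j n * y) * (j a)⁻¹) = ∑ n : O → G, H (j n * y) := by
  have h1 := Equiv.sum_comp (cj κ φ y a) (fun n => H (j n * y))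
  rw [← h1]
  exact Finset.sum_congr rfl fun n _ => by rw [cj_spec h]

open Classical in
/-- the function on the coordinates -/
noncomputable def Ft [Fintype O] [DecidableEq O] [Fintype G] (j : (O → G) →* Y)
    (φ : Y →* Gam (Equiv.Perm O) O B) (g : O → B) (y0 : Y) (F : Y → ℂ) (z : O → B) : ℂ :=
  ∑ n : O → G, if zz φ g (j n * y0) = z then F (j n * y0) else 0

theorem Ft_inv [Fintype O] [DecidableEq O] [Fintype G] (h : ExtS ι κ j p φ) (hcl : ClG ι κ ρ)
    (g : O → B) (y0 : Y) (F : Y → ℂ) (hF : ∀ y x, F (y * x * y⁻¹) = F x) (x : O → G)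
    (z : O → B) :
    Ft j φ g y0 F (fun o => ι (x o) * z o * (ι (x ((φ y0).right⁻¹ o)))⁻¹) =
      Ft j φ g y0 F z := by
  classical
  unfold Ft
  rw [← sum_conj h y0 (fun o => κ (g o) (x o)) (fun y => if zz φ g y = (fun o => ι (x o) * z o *
    (ι (x ((φ y0).right⁻¹ o)))⁻¹) then F y else 0)]
  refine Finset.sum_congr rfl fun n _ => ?_
  rw [hF, zz_conj h hcl, right_mul h]
  refine if_congr ?_ rfl rfl
  constructor
  · intro h1
    funext o
    have h2 := congrFun h1 o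
    simpa using h2
  · intro h1
    rw [h1]

theorem Ft_change [Fintype O] [DecidableEq O] [Fintype G] (h : ExtS ι κ j p φ) (hcl : ClG ι κ ρ)
    (g g' : O → B) (hg : ∀ o, ρ (g' o) = ρ (g o)) (y0 : Y) (F : Y → ℂ)
    (hF : ∀ y x, F (y * x * y⁻¹) = F x) :
    Ft j φ g' y0 F = Ft j φ g y0 F := by
  classical
  have h1 : ∀ o, ∃ c : G, g' o = ι c * g o := by
    intro o
    have h2 : ρ (g' o * (g o)⁻¹) = 1 := by
      rw [map_mul, map_inv, hg, mul_inv_cancel]
    obtain ⟨c, hc⟩ := (hcl.ker _).mp h2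
    exact ⟨c, by rw [hc]; group⟩
  choose c hc using h1
  funext z
  unfold Ft
  rw [← sum_conj h y0 c (fun y => if zz φ g' y = z then F y else 0)]
  refine Finset.sum_congr rfl fun n _ => ?_
  rw [hF, zz_change h g g' c hc]

theorem sum_fibre [Fintype O] [DecidableEq O] [Fintype G] [Fintype Y] [DecidableEq K]
    (h : ExtS ι κ j p φ) (k : K) (y0 : Y) (hy0 : p y0 = k) (H : Y → ℂ) :
    ∑ y : Y, (if p y = k then H y else 0) = ∑ n : O → G, H (j n * y0) := by
  symm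
  refine Fintype.sum_of_injective (fun n : O → G => j n * y0) ?_ _ _ ?_ ?_
  · intro a b hab
    exact h.cl.inj (mul_right_cancel hab)
  · intro y hy
    rw [if_neg]
    intro hk
    apply hy
    have h1 : p (y * y0⁻¹) = 1 := by
      rw [map_mul, map_inv, hk, hy0, mul_inv_cancel]
    obtain ⟨n, hn⟩ := (h.cl.ker _).mp h1
    exact ⟨n, by change j n * y0 = y; rw [hn]; group⟩
  · intro n
    have h1 : p (j n * y0) = k := by
      rw [map_mul, (h.cl.ker (j n)).mpr ⟨n, rfl⟩, one_mul, hy0]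
    rw [if_pos h1]

theorem AS_eq [Fintype O] [DecidableEq O] [Fintype G] [Fintype B] [Fintype Y]
    (h : ExtS ι κ j p φ) (g : O → B) (S : O → Subgroup B) (θ : O → B → ℂ) (m : O → ℕ)
    (M : O → B → ℕ → ℕ → ℂ) (k : K) (y0 : Y) (hy0 : p y0 = k) (F : Y → ℂ) :
    AS p φ g S θ m M k F = aS S θ m M (φ y0).right (Ft j φ g y0 F) := by
  classical
  unfold AS aS
  congr 1
  have h1 : ∀ y : Y, (if p y = k ∧ ∀ o, zz φ g y o ∈ S o then
      F y * TH m M (φ y).right (zz φ g y) else 0) =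
      if p y = k then (if ∀ o, zz φ g y o ∈ S o then
        F y * TH m M (φ y).right (zz φ g y) else 0) else 0 := by
    intro y
    exact ite_and _ _ _ _
  rw [Finset.sum_congr rfl fun y _ => h1 y, sum_fibre h k y0 hy0]
  have h2 : ∑ n : ∀ o, S o, Ft j φ g y0 F (fun o => n o) *
      TH m M (φ y0).right (fun o => (n o : B)) =
      ∑ z : O → B, if ∀ o, z o ∈ S o then Ft j φ g y0 F z * TH m M (φ y0).right z else 0 := by
    refine Fintype.sum_of_injective (fun (n : ∀ o, S o) (o : O) => (n o : B)) ?_ _ _ ?_ ?_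
    · intro a b hab
      funext o
      apply Subtype.ext
      exact congrFun hab o
    · intro z hz
      rw [if_neg]
      intro hcon
      exact hz ⟨fun o => ⟨z o, hcon o⟩, rfl⟩
    · intro n
      rw [if_pos fun o => (n o).2]
  rw [h2]
  have h3 : ∀ z : O → B, (if ∀ o, z o ∈ S o then
      Ft j φ g y0 F z * TH m M (φ y0).right z else 0) =
      ∑ n : O → G, if z = zz φ g (j n * y0) then (if ∀ o, z o ∈ S o then
        F (j n * y0) * TH m M (φ y0).right z else 0) else 0 := by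
    intro z
    by_cases hz : ∀ o, z o ∈ S o
    · rw [if_pos hz]
      unfold Ft
      rw [Finset.sum_mul]
      refine Finset.sum_congr rfl fun n _ => ?_
      by_cases h4 : zz φ g (j n * y0) = z
      · rw [if_pos h4, if_pos h4.symm, if_pos hz]
      · rw [if_neg h4, if_neg (fun h5 => h4 h5.symm), zero_mul]
    · rw [if_neg hz]
      symm
      refine Finset.sum_eq_zero fun n _ => ?_
      rw [if_neg hz, ite_self]
  rw [Finset.sum_congr rfl fun z _ => h3 z, Finset.sum_comm]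
  refine Finset.sum_congr rfl fun n _ => ?_
  rw [Finset.sum_ite_eq' Finset.univ (zz φ g (j n * y0)), if_pos (Finset.mem_univ _),
    right_mul h]

theorem Ft_int [Fintype O] [DecidableEq O] [Fintype G] (g : O → B) (y0 : Y) (F : Y → ℂ)
    (hF : ∀ y, IsIntegral ℤ (F y)) (z : O → B) : IsIntegral ℤ (Ft j φ g y0 F z) := by
  unfold Ft
  refine IsIntegral.sum _ fun n _ => ?_
  split_ifs
  · exact hF _
  · exact isIntegral_zero

end

end Pool.Agent.DPC.ASH

namespace Pool.Agent.DPC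

open Pool.Agent.DP

open Pool.Agent.Lib_helper13 Pool.Agent.DPC.ASH in
theorem ASH_thm (h1 : Stmt_AAH) : Stmt_ASH := by
  classical
  intro O G B C Y K _ _ _ _ _ _ _ _ _ _ 𝔐 ℓ _ hmax hℓ ι κ ρ hL j p φ hE J g g' S S' θ θ' m m'
    M M' hd hd' hg hcg k hk F hF hFi
  obtain ⟨y0, hy0⟩ := hE.surj k
  have hy : p y0 ∈ J := by rw [hy0]; exact hk
  rw [AS_eq hE g S θ m M k y0 hy0 F, AS_eq hE g' S' θ' m' M' k y0 hy0 F,
    Ft_change hE hL.cl g g' hg y0 F hF]
  exact h1 O G B C 𝔐 ℓ hmax hℓ ι κ ρ hL.cl hL.surj (φ y0).right S S' θ θ' m m' M M'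
    (hd.cS y0 hy) (hd.cθ y0 hy) (hd.cm y0 hy) (hd.cM y0 hy)
    (hd'.cS y0 hy) (hd'.cθ y0 hy) (hd'.cm y0 hy) (hd'.cM y0 hy)
    hd.irr hd.res hd'.irr hd'.res hd.md hd'.md hd.dz hd'.dz
    (fun o => by rw [hd.img o, hd'.img o]) hcg (Ft j φ g y0 F)
    (Ft_inv hE hL.cl g y0 F hF) (Ft_int g y0 F hFi)

end Pool.Agent.DPC


end

section

/-!
ASV: the weighted sums over `Y` depend only on the central functions.
-/

namespace Pool.Agent.DPV

open Pool.Agent.DP Pool.Agent.Lib_helper13 Representation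
open Pool.Agent.Lib_helper13.Dade (pCore DadeHolds dadeSum)

open Pool.Agent.DPC.ASH in
theorem ASV_thm : Stmt_ASV := by
  classical
  intro O G B C Y K _ _ _ _ _ _ _ _ _ _ 𝔐 ℓ _ hmax hℓ ι κ ρ hL j p φ hE J U g g' S S' θ θ' m m'
    M M' hd hd' hg hcg k hk F hF hFi
  obtain ⟨y0, hy0⟩ := hE.surj k
  have hy : p y0 ∈ J := by rw [hy0]; exact hk
  rw [AS_eq hE g S θ m M k y0 hy0 F, AS_eq hE g' S' θ' m' M' k y0 hy0 F,
    Ft_change hE hL.cl g g' hg y0 F hF]
  exact aah_all O G B C 𝔐 ℓ hmax hℓ ι κ ρ hL.cl hL.surj (φ y0).right S S' θ θ' m m' M M'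
    (hd.cS y0 hy) (hd.cθ y0 hy) (hd.cm y0 hy) (hd.cM y0 hy)
    (hd'.cS y0 hy) (hd'.cθ y0 hy) (hd'.cm y0 hy) (hd'.cM y0 hy)
    hd.irr hd.res hd'.irr hd'.res hd.md hd'.md hd.dz hd'.dz
    (fun o => by rw [hd.img o, hd'.img o]) hcg (Ft j φ g y0 F)
    (Ft_inv hE hL.cl g y0 F hF) (Ft_int g y0 F hFi)

end Pool.Agent.DPV


end

section

/-!
# HATC: characters of a covering group with kernel of order prime to `ℓ`
-/

set_option linter.unusedSectionVars false

namespace Pool.Agent.DPV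

open Pool.Agent.DP Pool.Agent.Lib_helper13 Representation
open Pool.Agent.Lib_helper13.Dade (pCore DadeHolds dadeSum)

namespace HATC

section Sum

variable {S T : Type*} [Group S] [Fintype S] [Group T] [Fintype T]

/-- If the sum of an irreducible character over a kernel vanishes, all the sums over its cosets
vanish. -/
theorem sum_coset {π : S →* T} {θ : S → ℂ} (hθ : IsIrr θ) (h0 : ∑ k : π.ker, θ k = 0) (y : S) :
    ∑ k : π.ker, θ (k * y) = 0 := by
  classical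
  obtain ⟨n, ρ, hρ, rfl⟩ := hθ
  have : ρ.IsIrreducible := hρ
  set e : (Fin n → ℂ) →ₗ[ℂ] (Fin n → ℂ) := ∑ k : π.ker, ρ k with he
  obtain ⟨c, hc⟩ := exists_scalar ρ hρ e (by
    intro g x
    rw [he, LinearMap.sum_apply, LinearMap.sum_apply, map_sum]
    refine Fintype.sum_equiv (MulAut.conjNormal (H := π.ker) g⁻¹).toEquiv _ _ ?_
    intro k
    have h1 : (((MulAut.conjNormal (H := π.ker) g⁻¹).toEquiv k : π.ker) : S) =
        g⁻¹ * (k : S) * g := by
      change ((MulAut.conjNormal g⁻¹ k : π.ker) : S) = _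
      rw [MulAut.conjNormal_apply, inv_inv]
    rw [h1, ← Module.End.mul_apply, ← Module.End.mul_apply, ← map_mul, ← map_mul]
    congr 2
    group)
  have htr : LinearMap.trace ℂ (Fin n → ℂ) e = 0 := by
    rw [← h0, he, map_sum]
    rfl
  have hn : ρ.character 1 ≠ 0 := IsIrr.one_ne_zero ⟨n, ρ, hρ, rfl⟩
  have hc0 : c = 0 := by
    rw [hc, map_smul, smul_eq_mul] at htr
    rcases mul_eq_zero.mp htr with h | h
    · exact h
    · exfalso
      apply hn
      change LinearMap.trace ℂ (Fin n → ℂ) (ρ 1) = 0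
      rw [map_one]
      exact h
  have he0 : e = 0 := by rw [hc, hc0, zero_smul]
  have h1 : ∑ k : π.ker, ρ.character (k * y) = LinearMap.trace ℂ (Fin n → ℂ) (e * ρ y) := by
    rw [he, Finset.sum_mul, map_sum]
    refine Finset.sum_congr rfl fun k _ => ?_
    change LinearMap.trace ℂ _ (ρ (k * y)) = _
    rw [map_mul]
  rw [h1, he0, zero_mul, map_zero]

/-- The weight of such a character against an inflated function vanishes. -/
theorem wt_zero {π : S →* T} {θ : S → ℂ} (hθ : IsIrr θ) (h0 : ∑ k : π.ker, θ k = 0)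
    (F : T → ℂ) : wt θ (fun y => F (π y)) = 0 := by
  classical
  have h1 : ∀ k : π.ker, ∑ y : S, F (π y) * θ (k * y) = ∑ y : S, F (π y) * θ y := by
    intro k
    rw [← Equiv.sum_comp (Equiv.mulLeft (k : S)) (fun y => F (π y) * θ y)]
    refine Finset.sum_congr rfl fun y _ => ?_
    have h2 : (Equiv.mulLeft (k : S)) y = k * y := rfl
    rw [h2, map_mul, MonoidHom.mem_ker.mp k.2, one_mul]
  have h2 : (Nat.card π.ker : ℂ) * ∑ y : S, F (π y) * θ y = 0 := by
    have h3 : ∑ k : π.ker, ∑ y : S, F (π y) * θ (k * y) =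
        (Nat.card π.ker : ℂ) * ∑ y : S, F (π y) * θ y := by
      rw [Finset.sum_congr rfl fun k _ => h1 k, Finset.sum_const, Finset.card_univ,
        nsmul_eq_mul, Nat.card_eq_fintype_card]
    rw [← h3, Finset.sum_comm]
    refine Finset.sum_eq_zero fun y _ => ?_
    rw [← Finset.mul_sum, sum_coset hθ h0 y, mul_zero]
  rcases mul_eq_zero.mp h2 with h | h
  · exact absurd h natCard_ne_zero
  · rw [wt, h, zero_div]

end Sum

section Main

variable {S' S X : Type} [Group S'] [Fintype S'] [Group S] [Fintype S] [Group X]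
  (𝔐 : Ideal (integralClosure ℤ ℂ)) {ℓ : ℕ} [Fact ℓ.Prime]

/-- The central function of an inflated character. -/
theorem cen_infl {q : S' →* S} (hq : Function.Surjective q) (i : S →* X) {ψ : S → ℂ}
    (hψ : IsIrr ψ) (x : X) : cen 𝔐 (i.comp q) (fun y => ψ (q y)) x =
      (Nat.card q.ker : (integralClosure ℤ ℂ) ⧸ 𝔐) * cen 𝔐 i ψ x := by
  have h1 : wt (fun y => ψ (q y)) (fun y => conjInd ((i.comp q) y) x) =
      Nat.card q.ker * wt ψ (fun y => conjInd (i y) x) := by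
    rw [QB.wt_push q ψ, ← wt_smul]
    congr 1
    ext y
    exact QB.push_comp hq (fun y => conjInd (i y) x) y
  have hi : IsIntegral ℤ (wt ψ (fun y => conjInd (i y) x)) := by
    apply isIntegral_wt hψ
    · intro a b
      rw [map_mul, map_mul, map_inv]
      exact conjInd_conj _ _ _
    · intro b
      exact isIntegral_conjInd _ _
  rw [cen, cen, h1, red_natCast_mul 𝔐 _ hi, nsmul_eq_mul]

theorem card_ne [h𝔐 : 𝔐.IsPrime] (hℓ : (ℓ : integralClosure ℤ ℂ) ∈ 𝔐) {n : ℕ}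
    (hn : ¬ ℓ ∣ n) : (n : (integralClosure ℤ ℂ) ⧸ 𝔐) ≠ 0 := by
  have h1 := red_card_ne_zero 𝔐 hℓ hn
  have h2 := red_natCast_mul 𝔐 n isIntegral_one
  rw [mul_one, red_one, nsmul_eq_mul, mul_one] at h2
  rwa [h2] at h1

/-- Deflation. -/
theorem exists_defl [h𝔐 : 𝔐.IsPrime] (hℓ : (ℓ : integralClosure ℤ ℂ) ∈ 𝔐) {q : S' →* S}
    (hq : Function.Surjective q) (hk : ¬ ℓ ∣ Nat.card q.ker) (i : S →* X)
    {ω : X → (integralClosure ℤ ℂ) ⧸ 𝔐} (hω : ∃ x, ω x ≠ 0) {ψ' : S' → ℂ} (hψ' : IsIrr ψ')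
    (hc : ∀ x, cen 𝔐 (i.comp q) ψ' x = (Nat.card q.ker : (integralClosure ℤ ℂ) ⧸ 𝔐) * ω x) :
    ∃ ψ : S → ℂ, IsIrr ψ ∧ (∀ y, ψ' y = ψ (q y)) ∧ ∀ x, cen 𝔐 i ψ x = ω x := by
  have hcard := card_ne 𝔐 hℓ hk
  have h0 : ∑ k : q.ker, ψ' k ≠ 0 := by
    intro h0
    obtain ⟨x, hx⟩ := hω
    have h1 : cen 𝔐 (i.comp q) ψ' x = 0 := by
      rw [cen]
      have h2 : wt ψ' (fun y => conjInd ((i.comp q) y) x) = 0 :=
        wt_zero hψ' h0 (fun t => conjInd (i t) x)
      rw [h2, red_zero]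
    rw [hc x] at h1
    rcases mul_eq_zero.mp h1 with h | h
    · exact hcard h
    · exact hx h
  obtain ⟨ψ, hψ, h1⟩ := QB.defl hq hψ' h0
  refine ⟨ψ, hψ, h1, fun x => ?_⟩
  have h2 : ψ' = fun y => ψ (q y) := funext h1
  have h3 := hc x
  rw [h2, cen_infl 𝔐 hq i hψ x] at h3
  exact mul_left_cancel₀ hcard h3

end Main

end HATC

theorem HATC_thm : Stmt_HATC := by
  intro S' S X _ _ _ _ _ 𝔐 ℓ _ hmax hℓ q i hq hk ω hω
  have h𝔐 : 𝔐.IsPrime := hmax.isPrime
  refine ⟨fun ψ' hψ' hc => HATC.exists_defl 𝔐 hℓ hq hk i hω hψ' hc, fun d => ?_⟩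
  unfold cnt
  symm
  apply Nat.card_congr
  refine Equiv.ofBijective (fun ψ => ⟨fun y => ψ.1 (q y), QB.infl hq ψ.2.1,
    (QB.defect hq hk ψ.1 d).mpr ψ.2.2.1, fun x => by
      rw [HATC.cen_infl 𝔐 hq i ψ.2.1 x, ψ.2.2.2 x]⟩) ⟨?_, ?_⟩
  · intro ψ ψ' h
    apply Subtype.ext
    ext t
    obtain ⟨s, rfl⟩ := hq t
    exact congrFun (congrArg Subtype.val h) s
  · rintro ⟨θ, hθ, hd, hcen⟩
    obtain ⟨ψ, hψ, h1, h2⟩ := HATC.exists_defl 𝔐 hℓ hq hk i hω hθ hcen
    have h3 : θ = fun y => ψ (q y) := funext h1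
    subst h3
    exact ⟨⟨ψ, hψ, (QB.defect hq hk ψ d).mp hd, h2⟩, rfl⟩

end Pool.Agent.DPV


end

section

/-!
# RX0V: the structure of a group with a normal subgroup `G ^ Ω`, arbitrary outer automorphisms
-/

namespace Pool.Agent.DPV

open Pool.Agent.DP Pool.Agent.Lib_helper13 Representation
open Pool.Agent.Lib_helper13.Dade (pCore DadeHolds dadeSum)

/-- MODULE RX0V -/
theorem RX0V_thm : Stmt_RX0V := by
  classical
  intro G X Ω _ _ _ _ _ ℓ _ hcore hcen hnt A hIA hcop e he hX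
  have hIn : ((MulAut.conj : G →* MulAut G).range).Normal := RX0.conj_range_normal G
  have hfin : Finite (MulAut G) := RX0.finite_mulAut G
  let ι : G →* A := (MulAut.conj : G →* MulAut G).codRestrict A (fun g => hIA ⟨g, rfl⟩)
  let κ : A →* MulAut G := A.subtype
  let ρ : A →* A ⧸ (MulAut.conj : G →* MulAut G).range.subgroupOf A := QuotientGroup.mk' _
  have hκ : Function.Injective κ := A.subtype_injective
  have hex : ∀ y : X, ∃ z : Gam (Equiv.Perm Ω) Ω A, ∀ n, e (wB κ Ω z n) = y * e n * y⁻¹ := by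
    intro y
    obtain ⟨s, α, hα, h⟩ := hX y
    refine ⟨⟨fun i => ⟨α i, hα i⟩, s⁻¹⟩, fun n => ?_⟩
    rw [h n]
    congr 1
  choose φ0 hφ0 using hex
  have huniq : ∀ z z' : Gam (Equiv.Perm Ω) Ω A, (∀ n, e (wB κ Ω z n) = e (wB κ Ω z' n)) →
      z = z' := by
    intro z z' h
    apply RX0.wB_inj κ hκ
    apply MulEquiv.ext
    intro n
    exact he (h n)
  let φ : X →* Gam (Equiv.Perm Ω) Ω A := MonoidHom.mk' φ0 (by
    intro x y
    apply huniq
    intro n
    rw [hφ0, map_mul, MulAut.mul_apply, hφ0, hφ0]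
    group)
  have hen : e.range.Normal := by
    constructor
    rintro _ ⟨n, rfl⟩ y
    exact ⟨wB κ Ω (φ0 y) n, hφ0 y n⟩
  refine ⟨A, A ⧸ (MulAut.conj : G →* MulAut G).range.subgroupOf A, X ⧸ e.range, inferInstance,
    Fintype.ofFinite _, inferInstance, inferInstance, ι, κ, ρ,
    QuotientGroup.mk' _, φ, ?_, ?_⟩
  · refine ⟨⟨?_, ?_, ?_⟩, QuotientGroup.mk'_surjective _, hcop, hκ, hcore, hnt⟩
    · intro x y hxy
      exact RX0.conj_inj hcen (congrArg Subtype.val hxy)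
    · intro y x
      apply Subtype.ext
      change MulAut.conj ((y : MulAut G) x) = (y : MulAut G) * MulAut.conj x * (y : MulAut G)⁻¹
      ext z
      simp [MulAut.mul_apply]
    · intro y
      change QuotientGroup.mk' _ y = 1 ↔ _
      rw [QuotientGroup.mk'_apply, QuotientGroup.eq_one_iff, Subgroup.mem_subgroupOf]
      constructor
      · rintro ⟨g, hg⟩
        exact ⟨g, Subtype.ext hg⟩
      · rintro ⟨g, hg⟩
        exact ⟨g, congrArg Subtype.val hg⟩
  · refine ⟨⟨he, ?_, ?_⟩, QuotientGroup.mk'_surjective _, ?_⟩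
    · intro y n
      exact hφ0 y n
    · intro y
      rw [QuotientGroup.mk'_apply, QuotientGroup.eq_one_iff]
    · intro n
      apply huniq
      intro x
      change e (wB κ Ω (φ0 (e n)) x) = _
      rw [hφ0, ← map_inv, ← map_mul, ← map_mul]
      congr 1

end Pool.Agent.DPV


end

section

/-!
# Transitivity of the central functions

Module LTR: `Stmt_LTR`.
-/

namespace Pool.Agent.DPC

open Pool.Agent.DP

open Pool.Agent.Lib_helper13 Representation

namespace LTR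

section

variable {G B C : Type*} [Group G] [Group B] [Group C] {ι : G →* B} {κ : B →* MulAut G}
  {ρ : B →* C}

theorem kap (h : ClG ι κ ρ) (g a : G) : κ (ι g) a = g * a * g⁻¹ := by
  apply h.inj
  rw [h.act, map_mul, map_mul, map_inv]

theorem comap_Stx (h : ClG ι κ ρ) {σ : Finset (Subgroup G)} {ψ : G → ℂ}
    (hψ : IrrOn (stb σ) ψ) (L : Subgroup C) : (Stx κ σ ψ ⊓ L.comap ρ).comap ι = stb σ := by
  ext g
  rw [Subgroup.mem_comap, Subgroup.mem_inf, Subgroup.mem_comap, mem_stb]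
  have h1 : ρ (ι g) = 1 := (h.ker _).mpr ⟨g, rfl⟩
  have hk : (κ (ι g)).toMonoidHom = (MulAut.conj g).toMonoidHom := by
    ext a
    exact kap h g a
  constructor
  · rintro ⟨⟨h2, _⟩, _⟩ D hD
    rw [← hk]
    exact h2 D hD
  · intro h2
    refine ⟨⟨fun D hD => by rw [hk]; exact h2 D hD, fun a => ?_⟩, by rw [h1]; exact one_mem _⟩
    rw [kap h]
    have hg : g ∈ stb σ := mem_stb.mpr h2
    by_cases ha : a ∈ stb σ
    · exact hψ.1.conj_eq (⟨g, hg⟩ : stb σ) ⟨a, ha⟩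
    · rw [hψ.2 a ha]
      apply hψ.2
      intro h3
      apply ha
      have := mul_mem (mul_mem (inv_mem hg) h3) hg
      simpa [mul_assoc] using this

end

/-- Conjugacy under the subgroup `T`. -/
def cjS {B : Type*} [Group B] (T : Subgroup B) : Setoid B where
  r x y := ∃ t ∈ T, x = t * y * t⁻¹
  iseqv := by
    refine ⟨fun x => ⟨1, one_mem _, by simp⟩, ?_, ?_⟩
    · rintro x y ⟨t, ht, rfl⟩
      exact ⟨t⁻¹, inv_mem ht, by group⟩
    · rintro x y z ⟨t, ht, rfl⟩ ⟨s, hs, rfl⟩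
      exact ⟨t * s, mul_mem ht hs, by group⟩

end LTR

open _root_.Pool.Agent.DPC.LTR in
theorem LTR_thm (h1 : Stmt_INTH) : Stmt_LTR := by
  classical
  intro G B C _ _ _ _ _ 𝔐 ℓ _ ι κ ρ hS L' L hL
  have hcl := hS.cl
  set T := L.comap ρ with hT
  set T' := L'.comap ρ with hT'
  have hTT : T' ≤ T := Subgroup.comap_mono hL
  -- the part of the class of `g` which is contained in `T'`
  set O : B → Finset B := fun g => Finset.univ.filter (fun x => x ∈ T' ∧ ∃ t ∈ T, x = t * g * t⁻¹)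
    with hO
  set Q : B → Finset (Quotient (cjS T')) := fun g => (O g).image (Quotient.mk (cjS T')) with hQ
  have hrep : ∀ g, ∀ q ∈ Q g, q.out ∈ O g := by
    intro g q hq
    obtain ⟨x, hx, rfl⟩ := Finset.mem_image.mp hq
    obtain ⟨t, ht, hxt⟩ : (cjS T').r ((Quotient.mk (cjS T') x).out) x :=
      Quotient.exact (Quotient.out_eq _)
    obtain ⟨_, hx1, s, hs, hxs⟩ := Finset.mem_filter.mp hx
    refine Finset.mem_filter.mpr ⟨Finset.mem_univ _, ?_, t * s, mul_mem (hTT ht) hs, ?_⟩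
    · rw [hxt]
      exact mul_mem (mul_mem ht hx1) (inv_mem ht)
    · rw [hxt, hxs]
      group
  refine ⟨fun ω g => ∑ q ∈ Q g, if hq : q.out ∈ T' then ω ⟨q.out, hq⟩ else 0, ?_⟩
  intro σ ψ f hψ hf
  funext g
  -- `f` vanishes outside `T'`
  have hf0 : ∀ x, x ∉ T' → f x = 0 := fun x hx => hf.1.2 x fun h => hx h.2
  have hco := comap_Stx hcl hψ L'
  have hψ' : IrrOn ((Stx κ σ ψ ⊓ L'.comap ρ).comap ι) (fun h => f (ι h)) := by
    rw [hco]
    have : (fun h => f (ι h)) = ψ := by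
      funext h
      exact hf.2 h
    rw [this]
    exact hψ
  have hint : ∀ y, IsIntegral ℤ ((∑ x, cjT T' x y * f x) / f 1) := by
    intro y
    refine h1 G B C ι κ ρ hcl _ f hf.1 hψ' (fun x => cjT T' x y) (fun x => ?_) (fun h x => ?_)
    · unfold cjT
      split_ifs
      · exact isIntegral_one
      · exact isIntegral_zero
    · have hι : ι h ∈ T' := by
        rw [hT', Subgroup.mem_comap, (hcl.ker _).mpr ⟨h, rfl⟩]
        exact one_mem _
      unfold cjT
      congr 1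
      apply propext
      constructor
      · rintro ⟨t, ht, hxt⟩
        refine ⟨(ι h)⁻¹ * t, mul_mem (inv_mem hι) ht, ?_⟩
        calc x = (ι h)⁻¹ * (ι h * x * (ι h)⁻¹) * ι h := by group
          _ = _ := by rw [hxt]; group
      · rintro ⟨t, ht, rfl⟩
        exact ⟨ι h * t, mul_mem hι ht, by group⟩
  -- the sum over the class
  have hsum : ∑ x, cjT T x g * f x = ∑ q ∈ Q g, ∑ x, cjT T' x q.out * f x := by
    have e1 : ∑ x, cjT T x g * f x = ∑ x ∈ O g, f x := by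
      rw [hO, Finset.sum_filter]
      refine Finset.sum_congr rfl fun x _ => ?_
      by_cases hx : x ∈ T'
      · unfold cjT
        by_cases hc : ∃ t ∈ T, x = t * g * t⁻¹
        · rw [if_pos hc, if_pos ⟨hx, hc⟩, one_mul]
        · rw [if_neg hc, if_neg fun h => hc h.2, zero_mul]
      · rw [hf0 x hx, mul_zero, if_neg fun h => hx h.1]
    rw [e1, ← Finset.sum_fiberwise_of_maps_to (t := Q g) (g := Quotient.mk (cjS T'))
      (fun x hx => Finset.mem_image_of_mem _ hx)]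
    refine Finset.sum_congr rfl fun q hq => ?_
    have hqO := hrep g q hq
    obtain ⟨_, hq1, s, hs, hqs⟩ := Finset.mem_filter.mp hqO
    have e2 : (O g).filter (fun x => Quotient.mk (cjS T') x = q) =
        Finset.univ.filter (fun x => ∃ t ∈ T', x = t * q.out * t⁻¹) := by
      ext x
      simp only [Finset.mem_filter, Finset.mem_univ, true_and]
      constructor
      · rintro ⟨_, rfl⟩
        have : (cjS T').r x ((Quotient.mk (cjS T') x).out) :=
          Quotient.exact (Quotient.out_eq _).symm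
        exact this
      · rintro ⟨t, ht, hxt⟩
        refine ⟨Finset.mem_filter.mpr ⟨Finset.mem_univ _, ?_, t * s, mul_mem (hTT ht) hs, ?_⟩, ?_⟩
        · rw [hxt]
          exact mul_mem (mul_mem ht hq1) (inv_mem ht)
        · rw [hxt]
          nth_rewrite 1 [hqs]
          group
        · rw [← Quotient.out_eq q]
          exact Quotient.sound (s := cjS T') ⟨t, ht, hxt⟩
    rw [e2, Finset.sum_filter]
    refine Finset.sum_congr rfl fun x _ => ?_
    unfold cjT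
    split_ifs <;> simp
  have e3 : cgT 𝔐 T f g = ∑ q ∈ Q g, cgT 𝔐 T' f q.out := by
    unfold cgT
    rw [hsum, Finset.sum_div, red_sum 𝔐 _ _ fun q _ => hint q.out]
  rw [e3]
  refine Finset.sum_congr rfl fun q hq => ?_
  have hq1 : q.out ∈ T' := (Finset.mem_filter.mp (hrep g q hq)).2.1
  rw [dif_pos hq1]

end Pool.Agent.DPC


end

section

/-!
# ASC: the weighted sums form a class function
-/

namespace Pool.Agent.DPC

open Pool.Agent.DP

open Pool.Agent.Lib_helper13 Representation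
open Pool.Agent.Lib_helper13.Dade (pCore DadeHolds)

namespace ASC

theorem aiv {O : Type} (k : Equiv.Perm O) (o : O) : k (k⁻¹ o) = o := k.apply_symm_apply o

theorem iav {O : Type} (k : Equiv.Perm O) (o : O) : k⁻¹ (k o) = o := k.symm_apply_apply o

/-! ### Traces of the extended matrices -/

section Mat

variable {O B : Type} [Fintype O] [DecidableEq O] [Group B]

/-- the index type -/
abbrev Ix (m : O → ℕ) : Type := {f // f ∈ Fintype.piFinset (fun o => Finset.range (m o))}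

/-- the matrix of a permutation and a family -/
noncomputable def AM (m : O → ℕ) (M : O → B → ℕ → ℕ → ℂ) (k : Equiv.Perm O) (n : O → B) :
    Matrix (Ix m) (Ix m) ℂ := fun f f' =>
  ∏ o, M o (n o) ((f : O → ℕ) o) ((f' : O → ℕ) (k⁻¹ o))

omit [Group B] in
theorem TH_eq (m : O → ℕ) (M : O → B → ℕ → ℕ → ℂ) (k : Equiv.Perm O) (n : O → B) :
    TH m M k n = (AM m M k n).trace := by
  rw [Matrix.trace, TH, ← Finset.sum_coe_sort (Fintype.piFinset fun o => Finset.range (m o))]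
  rfl

theorem AM_mul {S : O → Subgroup B} {θ : O → B → ℂ} {m : O → ℕ} {M : O → B → ℕ → ℕ → ℂ}
    {k l : Equiv.Perm O} (hSk : ∀ o, S (k o) = S o) (hmk : ∀ o, m (k o) = m o)
    (hMk : ∀ o, M (k o) = M o) (hml : ∀ o, m (l o) = m o)
    (hMD : ∀ o, MD (S o) (θ o) (m o) (M o)) {n n' : O → B} (hn : ∀ o, n o ∈ S o)
    (hn' : ∀ o, n' o ∈ S o) :
    AM m M (k * l) (fun o => n o * n' (k⁻¹ o)) = AM m M k n * AM m M l n' := by
  have hSk' : ∀ o, S (k⁻¹ o) = S o := by
    intro o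
    have := hSk (k⁻¹ o)
    rw [aiv] at this
    exact this.symm
  have hmk' : ∀ o, m (k⁻¹ o) = m o := by
    intro o
    have := hmk (k⁻¹ o)
    rw [aiv] at this
    exact this.symm
  have hMk' : ∀ o, M (k⁻¹ o) = M o := by
    intro o
    have := hMk (k⁻¹ o)
    rw [aiv] at this
    exact this.symm
  have hml' : ∀ o, m (l⁻¹ o) = m o := by
    intro o
    have := hml (l⁻¹ o)
    rw [aiv] at this
    exact this.symm
  ext f f''
  have hf := Fintype.mem_piFinset.1 f.2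
  have hf'' := Fintype.mem_piFinset.1 f''.2
  rw [Matrix.mul_apply]
  have h1 : AM m M (k * l) (fun o => n o * n' (k⁻¹ o)) f f'' =
      ∏ o, ∑ j ∈ Finset.range (m o),
        M o (n o) ((f : O → ℕ) o) j * M o (n' (k⁻¹ o)) j ((f'' : O → ℕ) (l⁻¹ (k⁻¹ o))) := by
    rw [AM]
    apply Finset.prod_congr rfl
    intro o _
    have e2 : (k * l)⁻¹ o = l⁻¹ (k⁻¹ o) := by
      rw [mul_inv_rev]
      rfl
    rw [e2]
    have hz : n' (k⁻¹ o) ∈ S o := by
      have := hn' (k⁻¹ o)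
      rwa [hSk'] at this
    have hr : (f'' : O → ℕ) (l⁻¹ (k⁻¹ o)) < m o := by
      have := Finset.mem_range.1 (hf'' (l⁻¹ (k⁻¹ o)))
      rwa [hml', hmk'] at this
    exact (hMD o).mul _ (hn o) _ hz _ (Finset.mem_range.1 (hf o)) _ hr
  rw [h1, Finset.prod_univ_sum]
  have h2 : ∀ f' : Ix m, AM m M k n f f' * AM m M l n' f' f'' =
      ∏ o, (M o (n o) ((f : O → ℕ) o) ((f' : O → ℕ) (k⁻¹ o)) *
        M o (n' (k⁻¹ o)) ((f' : O → ℕ) (k⁻¹ o)) ((f'' : O → ℕ) (l⁻¹ (k⁻¹ o)))) := by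
    intro f'
    rw [Finset.prod_mul_distrib]
    congr 1
    rw [AM]
    symm
    refine (Fintype.prod_equiv k⁻¹ _ _ ?_)
    intro o
    rw [hMk']
  rw [Finset.sum_congr rfl (fun f' _ => h2 f')]
  refine (Finset.sum_bij' (fun (f' : Ix m) _ => fun o => (f' : O → ℕ) (k⁻¹ o))
    (fun g hg => (⟨fun o => g (k o), ?_⟩ : Ix m)) ?_ ?_ ?_ ?_ ?_).symm
  · rw [Fintype.mem_piFinset] at hg ⊢
    intro o
    have := hg (k o)
    rwa [hmk] at this
  · intro f' _
    rw [Fintype.mem_piFinset]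
    intro o
    have := Fintype.mem_piFinset.1 f'.2 (k⁻¹ o)
    rwa [hmk'] at this
  · intro g _
    exact Finset.mem_univ _
  · intro f' _
    apply Subtype.ext
    funext o
    change (f' : O → ℕ) (k⁻¹ (k o)) = _
    rw [iav]
  · intro g _
    funext o
    change g (k (k⁻¹ o)) = _
    rw [aiv]
  · intro f' _
    rfl

end Mat

/-! ### The standardized left components -/

section Zz

variable {O G B C Y K : Type} [Group G] [Group B] [Group C] [Group Y] [Group K]

theorem zz_mul (φ : Y →* Gam (Equiv.Perm O) O B) (g : O → B) (x y : Y) (o : O) :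
    zz φ g (x * y) o = zz φ g x o * zz φ g y ((φ x).right⁻¹ • o) := by
  have h1 : (φ (x * y)).left o = (φ x).left o * (φ y).left ((φ x).right⁻¹ • o) := by
    rw [map_mul]
    rfl
  have h2 : (φ (x * y)).right⁻¹ • o = (φ y).right⁻¹ • (φ x).right⁻¹ • o := by
    rw [map_mul, SemidirectProduct.mul_right, mul_inv_rev, mul_smul]
  unfold zz
  rw [h1, h2]
  group

theorem zz_one (φ : Y →* Gam (Equiv.Perm O) O B) (g : O → B) (o : O) : zz φ g 1 o = 1 := by
  unfold zz
  rw [map_one]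
  have h1 : ((1 : Gam (Equiv.Perm O) O B).right⁻¹ • o) = o := by
    rw [SemidirectProduct.one_right, inv_one, one_smul]
  rw [h1]
  simp

end Zz

end ASC

open _root_.Pool.Agent.DPC.ASC in
/-- ASC: the weighted sums form a class function. -/
theorem ASC_thm : Stmt_ASC := by
  classical
  intro O G B C Y K _ _ _ _ _ _ _ _ _ _ ℓ ι κ ρ hL j p φ hE J g S θ m M hD k hk l hl F hF
  -- invariance under inverses
  have hSi : ∀ y, p y ∈ J → ∀ o, S ((φ y).right⁻¹ • o) = S o := by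
    intro y hy o
    have h1 := hD.cS y hy ((φ y).right⁻¹ • o)
    rw [smul_inv_smul] at h1
    exact h1.symm
  have hmul : ∀ x y, p x ∈ J → (∀ o, zz φ g x o ∈ S o) → (∀ o, zz φ g y o ∈ S o) →
      ∀ o, zz φ g (x * y) o ∈ S o := by
    intro x y hx h1 h2 o
    rw [zz_mul]
    have h3 := h2 ((φ x).right⁻¹ • o)
    rw [hSi x hx o] at h3
    exact (S o).mul_mem (h1 o) h3
  have hinv : ∀ x, p x ∈ J → (∀ o, zz φ g x o ∈ S o) → ∀ o, zz φ g x⁻¹ o ∈ S o := by
    intro x hx h1 o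
    have h2 := zz_mul φ g x⁻¹ x o
    rw [inv_mul_cancel, zz_one] at h2
    have h3 : zz φ g x⁻¹ o = (zz φ g x ((φ x⁻¹).right⁻¹ • o))⁻¹ :=
      eq_inv_of_mul_eq_one_left h2.symm
    have h4 : (φ x⁻¹).right⁻¹ • o = (φ x).right • o := by
      rw [map_inv, SemidirectProduct.inv_right, inv_inv]
    rw [h3, h4]
    have h5 := h1 ((φ x).right • o)
    rw [hD.cS x hx o] at h5
    exact (S o).inv_mem h5
  -- an element above `l`
  obtain ⟨y0, hy0, hz0⟩ : ∃ y0, p y0 = l ∧ ∀ o, zz φ g y0 o ∈ S o := by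
    obtain ⟨y, hy⟩ := hE.surj l
    have hyJ : p y ∈ J := by
      rw [hy]
      exact hl
    have h1 : ∀ o, ∃ x : G, ι x * zz φ g y o ∈ S o := by
      intro o
      obtain ⟨s, hs, hs2⟩ := hD.adp y hyJ o
      have h2 : ρ (s * (zz φ g y o)⁻¹) = 1 := by
        rw [map_mul, map_inv, hs2, mul_inv_cancel]
      obtain ⟨x, hx⟩ := (hL.cl.ker _).1 h2
      refine ⟨x, ?_⟩
      rw [hx, inv_mul_cancel_right]
      exact hs
    choose x hx using h1
    refine ⟨j (fun o => κ (g o) (x o)) * y, ?_, ?_⟩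
    · rw [map_mul, hy]
      have h2 : p (j (fun o => κ (g o) (x o))) = 1 := (hE.cl.ker _).2 ⟨_, rfl⟩
      rw [h2, one_mul]
    · intro o
      rw [zz_mul]
      have h3 : (φ (j (fun o => κ (g o) (x o)))).right = 1 := by
        rw [hE.jn]
        rfl
      have h4 : zz φ g (j (fun o => κ (g o) (x o))) o = ι (x o) := by
        unfold zz
        rw [h3, inv_one, one_smul, hE.jn]
        change (g o)⁻¹ * ι (κ (g o) (x o)) * g o = ι (x o)
        rw [hL.cl.act]
        group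
      rw [h3, h4, inv_one, one_smul]
      exact hx o
  have hy0J : p y0 ∈ J := by
    rw [hy0]
    exact hl
  -- commutation of the traces
  have hcomm : ∀ x y, p x ∈ J → p y ∈ J → (∀ o, zz φ g x o ∈ S o) → (∀ o, zz φ g y o ∈ S o) →
      TH m M (φ (x * y)).right (zz φ g (x * y)) = TH m M (φ (y * x)).right (zz φ g (y * x)) := by
    have h1 : ∀ x y, p x ∈ J → p y ∈ J → (∀ o, zz φ g x o ∈ S o) → (∀ o, zz φ g y o ∈ S o) →
        TH m M (φ (x * y)).right (zz φ g (x * y)) =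
          (AM m M (φ x).right (zz φ g x) * AM m M (φ y).right (zz φ g y)).trace := by
      intro x y hx hy hzx hzy
      have h2 := AM_mul (θ := θ) (k := (φ x).right) (l := (φ y).right) (fun o => hD.cS x hx o)
        (fun o => hD.cm x hx o) (fun o => hD.cM x hx o) (fun o => hD.cm y hy o) hD.md hzx hzy
      rw [← h2, TH_eq]
      have h3 : (φ (x * y)).right = (φ x).right * (φ y).right := by
        rw [map_mul, SemidirectProduct.mul_right]
      have h4 : zz φ g (x * y) = fun o => zz φ g x o * zz φ g y ((φ x).right⁻¹ o) := by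
        funext o
        exact zz_mul φ g x y o
      rw [h3, h4]
    intro x y hx hy hzx hzy
    rw [h1 x y hx hy hzx hzy, h1 y x hy hx hzy hzx, Matrix.trace_mul_comm]
  -- the bijection
  unfold AS
  congr 1
  symm
  refine Fintype.sum_equiv (MulAut.conj y0).toEquiv _ _ ?_
  intro y
  have hc : (MulAut.conj y0).toEquiv y = y0 * y * y0⁻¹ := rfl
  rw [hc]
  have hiff : (p y = k ∧ ∀ o, zz φ g y o ∈ S o) ↔
      (p (y0 * y * y0⁻¹) = l * k * l⁻¹ ∧ ∀ o, zz φ g (y0 * y * y0⁻¹) o ∈ S o) := by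
    constructor
    · rintro ⟨h1, h2⟩
      refine ⟨by rw [map_mul, map_mul, map_inv, hy0, h1], ?_⟩
      have h3 : p (y0 * y) ∈ J := by
        rw [map_mul, h1]
        exact J.mul_mem hy0J hk
      exact hmul (y0 * y) y0⁻¹ h3 (hmul y0 y hy0J hz0 h2) (hinv y0 hy0J hz0)
    · rintro ⟨h1, h2⟩
      have h3 : p y = k := by
        rw [map_mul, map_mul, map_inv, hy0] at h1
        exact mul_left_cancel (mul_right_cancel h1)
      refine ⟨h3, ?_⟩
      have h4 : y = y0⁻¹ * (y0 * y * y0⁻¹) * y0 := by group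
      have h5 : p y0⁻¹ ∈ J := by
        rw [map_inv]
        exact J.inv_mem hy0J
      have h6 : p (y0 * y * y0⁻¹) ∈ J := by
        rw [h1]
        exact J.mul_mem (J.mul_mem hl hk) (J.inv_mem hl)
      rw [h4]
      exact hmul (y0⁻¹ * (y0 * y * y0⁻¹)) y0 (by
        rw [map_mul]
        exact J.mul_mem h5 h6) (hmul y0⁻¹ _ h5 (hinv y0 hy0J hz0) h2) hz0
  by_cases h : p y = k ∧ ∀ o, zz φ g y o ∈ S o
  · rw [if_pos h, if_pos (hiff.1 h), hF y0 y]
    congr 1
    have h5 : p y0⁻¹ ∈ J := by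
      rw [map_inv]
      exact J.inv_mem hy0J
    have h7 : p y ∈ J := by
      rw [h.1]
      exact hk
    have h8 : p (y * y0⁻¹) ∈ J := by
      rw [map_mul]
      exact J.mul_mem h7 h5
    have h9 := hcomm y0 (y * y0⁻¹) hy0J h8 hz0 (hmul y y0⁻¹ h7 h.2 (hinv y0 hy0J hz0))
    have e1 : y0 * (y * y0⁻¹) = y0 * y * y0⁻¹ := by group
    have e2 : y * y0⁻¹ * y0 = y := by group
    rw [e1, e2] at h9
    exact h9.symm
  · rw [if_neg h, if_neg fun h' => h (hiff.2 h')]

end Pool.Agent.DPC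


end

section

/-!
# The number of transports
-/

namespace Pool.Agent.DPC

open Pool.Agent.DP

open Pool.Agent.Lib_helper13 Representation

namespace CNTG

/-- Elements with the same image in `K` act by the same permutation, with the same left
components modulo `G`. -/
theorem same_image {O G B C Y K : Type} [Group G] [Group B] [Group C] [Group Y] [Group K]
    {ℓ : ℕ} {ι : G →* B} {κ : B →* MulAut G} {ρ : B →* C} (hL : LocW ℓ ι κ ρ)
    {j : (O → G) →* Y} {p : Y →* K} {φ : Y →* Gam (Equiv.Perm O) O B} (hE : ExtS ι κ j p φ)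
    {x y : Y} (h : p x = p y) :
    (φ x).right = (φ y).right ∧ ∀ o, ρ ((φ x).left o) = ρ ((φ y).left o) := by
  have h1 : p (x * y⁻¹) = 1 := by rw [map_mul, map_inv, h, mul_inv_cancel]
  obtain ⟨n, hn⟩ := (hE.cl.ker (x * y⁻¹)).mp h1
  have hx : x = j n * y := by rw [hn, inv_mul_cancel_right]
  have h2 : φ x = SemidirectProduct.inl (fun o => ι (n o)) * φ y := by
    rw [hx, map_mul, hE.jn]
  constructor
  · rw [h2, SemidirectProduct.mul_right, SemidirectProduct.right_inl, one_mul]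
  · intro o
    rw [h2]
    have h3 : (SemidirectProduct.inl (fun o => ι (n o)) * φ y :
        Gam (Equiv.Perm O) O B).left o = ι (n o) * (φ y).left o := by
      rw [SemidirectProduct.mul_left, SemidirectProduct.left_inl, SemidirectProduct.right_inl,
        map_one]
      rfl
    rw [h3, map_mul, (hL.cl.ker (ι (n o))).mpr ⟨n o, rfl⟩, one_mul]

end CNTG

open _root_.Pool.Agent.DPC.CNTG

theorem CNTG_thm (h1 : Stmt_TRBR) : Stmt_CNTG := by
  classical
  intro O G B C Y K _ _ _ _ _ _ _ _ _ _ _ ℓ _ ι κ ρ hL j p φ hE J r t hr τ hτ θ hθ hJ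
  obtain ⟨-, h2⟩ := h1 O G B C ⊥ ℓ ι κ ρ hL τ θ hθ
  have e1 : {g : O → B // (∀ o, r o = o → g o = 1) ∧
      (∀ o, ρ (g o) = ρ ((φ (t o)).left o)) ∧ ∀ o, trB κ τ θ (r o) o (g o)} ≃
      ((o : O) → {h : B // (r o = o → h = 1) ∧ ρ h = ρ ((φ (t o)).left o) ∧
        trB κ τ θ (r o) o h}) :=
    { toFun := fun g o => ⟨g.1 o, g.2.1 o, g.2.2.1 o, g.2.2.2 o⟩
      invFun := fun f => ⟨fun o => (f o).1, fun o => (f o).2.1, fun o => (f o).2.2.1,
        fun o => (f o).2.2.2⟩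
      left_inv := fun g => rfl
      right_inv := fun f => rfl }
  rw [Nat.card_congr e1, Nat.card_pi, Finset.prod_filter]
  refine Finset.prod_congr rfl fun o _ => ?_
  by_cases ho : r o = o
  · rw [if_neg (not_not.mpr ho)]
    rw [Nat.card_eq_one_iff_unique]
    constructor
    · constructor
      intro a b
      apply Subtype.ext
      rw [a.2.1 ho, b.2.1 ho]
    · refine ⟨⟨1, fun _ => rfl, ?_, ?_⟩⟩
      · have h3 : (φ (t o)).left o = 1 := by
          rw [hr.one o ho, map_one]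
          rfl
        rw [h3]
      · rw [ho]
        exact trB.one κ τ θ o
  · rw [if_pos ho]
    obtain ⟨y, hy, hy2⟩ := hJ (hr.mem o)
    obtain ⟨h3, h4⟩ := same_image hL hE hy2
    have h5 : (φ y).right⁻¹ • o = r o := by
      rw [inv_smul_eq_iff, h3, hr.map]
    have h6 : trB κ τ θ (r o) o ((φ y).left o) := by
      have h := hy o
      rw [h5] at h
      exact h
    obtain ⟨-, -, -, h7, -⟩ := h2 (r o) o _ h6
    rw [← h7]
    refine Nat.card_congr (Equiv.subtypeEquivRight fun h => ?_)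
    rw [h4]
    constructor
    · rintro ⟨-, ha, hb⟩
      exact ⟨hb, ha⟩
    · rintro ⟨ha, hb⟩
      exact ⟨fun h => absurd h ho, hb, ha⟩

end Pool.Agent.DPC


end

section

/-!
# Theorem C: all modules together
-/

namespace Pool.Agent.DPC

open Pool.Agent.DP Pool.Agent.Lib_helper13 Representation
open Pool.Agent.Lib_helper13.Dade (pCore DadeHolds dadeSum IsIrrChar)

theorem extar_c : Stmt_EXTAR := EXTAR_thm EXTC_thm

theorem extbr_c : Stmt_EXTBR := EXTBR_thm extar_c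

theorem betg_c : Stmt_BETG := BETG_thm INTH_thm extar_c

theorem ltr_c : Stmt_LTR := LTR_thm INTH_thm

theorem ash_c : Stmt_ASH := ASH_thm aah_all

theorem mindr_c : Stmt_MINDR := MINDR_thm ash_c ASC_thm TWR_thm

theorem perar_c : Stmt_PERAR := PERAR_thm TRBR_thm

theorem perbr_c : Stmt_PERBR := PERBR_thm extar_c perar_c REPJ_thm TRBR_thm

theorem percr_c : Stmt_PERCR := PERCR_thm perar_c REPJ_thm TRBR_thm

theorem perdr_c : Stmt_PERDR := PERDR_thm perar_c percr_c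

theorem cliffr_c : Stmt_CLIFFR :=
  CLIFFR_thm extar_c perar_c REPJ_thm perbr_c perdr_c mindr_c

theorem lift_c : Stmt_LIFT := LIFT_thm TRBR_thm REPJ_thm perar_c CGT_thm

theorem cntg_c : Stmt_CNTG := CNTG_thm TRBR_thm

theorem tj_c : Stmt_TJ := TJ_thm lift_c cntg_c REPJ_thm TRBR_thm FIXR_thm EVALR_thm

theorem combr_c : Stmt_COMBR := COMBR_thm extbr_c

theorem blkcr_c : Stmt_BLKCR := BLKCR_thm CGT_thm

theorem vvc_c : Stmt_VVC :=
  VVC_thm extar_c extbr_c betg_c ltr_c LTIC_thm (LKBC_thm extar_c) (LZC_thm extar_c) MOBBC_thm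

theorem dgn_c : Stmt_DGN := DGN_thm SYL_thm

theorem dgna_c : Stmt_DGNA := DGNA_thm dgn_c

theorem part_c : Stmt_PART := PART_thm DER_thm TWE_thm (SPA_thm MIX_thm) SDZ_thm dgna_c

theorem rin_c : Stmt_RIN := RIN_thm cliffr_c tj_c combr_c blkcr_c

theorem outc_c : Stmt_OUTC := OUTC_thm OUTB_thm dgn_c

/-- Theorem C. -/
theorem mainC (ℓ : ℕ) (hℓ : ℓ.Prime) (G : Type) [Group G] [Finite G]
    (hcen : Subgroup.center G = ⊥) (hcore : pCore ℓ G = ⊥) (a : MulAut G)
    (A : Subgroup (MulAut G))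
    (hA : A = (MulAut.conj : G →* MulAut G).range ⊔ Subgroup.zpowers a)
    (hD : ∀ T : Subgroup (MulAut G), (MulAut.conj : G →* MulAut G).range ≤ T → T ≤ A →
        ∀ E : Subgroup (MulAut G), E ≤ T → IsPGroup ℓ E →
        E ⊓ (MulAut.conj : G →* MulAut G).range = ⊥ →
        ∀ (H : Type) [Group H] [Finite H]
          (q : ↥(T ⊓ Subgroup.centralizer (E : Set (MulAut G))) →* H),
          Function.Surjective q → (∀ x, q x = 1 ↔ (x : MulAut G) ∈ E) → pCore ℓ H = ⊥ →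
          DadeHolds ℓ H)
    (X Ω : Type) [Group X] [Finite X] [Fintype Ω] (e : (Ω → G) →* X)
    (he : Function.Injective e)
    (hact : ∀ y : X, ∃ (s : Equiv.Perm Ω) (α : Ω → MulAut G), (∀ i, α i ∈ A) ∧
      ∀ x : Ω → G, y * e x * y⁻¹ = e (fun i => α i (x (s i))))
    (𝔐 : Ideal (integralClosure ℤ ℂ)) (h𝔐 : 𝔐.IsMaximal)
    (hℓ𝔐 : (ℓ : integralClosure ℤ ℂ) ∈ 𝔐) (ξ : Ω → G → ℂ) (hξ : ∀ a, IsIrrChar (ξ a)) (w : Ω)
    (hw : ¬ Dade.HasDefect ℓ (ξ w) 0) (χ : X → ℂ) (hχ : IsIrrChar χ)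
    (hover : ∑ᶠ x : Ω → G, χ (e x) * ∏ i, ξ i (x i)⁻¹ ≠ 0) (d : ℕ) : dadeSum 𝔐 ℓ χ d = 0 :=
  FinalC.mainC RXC_thm SPLIT_thm ZRR_thm INY_thm CORE_thm OUTA_thm MIX_thm outc_c DER_thm OUTD_thm
    JOIN_thm rin_c CONST_thm part_c DHR_thm vvc_c ℓ hℓ G hcen hcore a A hA hD X Ω e he hact 𝔐 h𝔐
    hℓ𝔐 ξ hξ w hw χ hχ hover d

end Pool.Agent.DPC


end

section

/-!
# Characters of positive defect vanish on the classes of defect zero
-/

namespace Pool.Agent.DPB

open Pool.Agent.Lib_helper13 Representation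

namespace PDZ

variable {T : Type} [Group T] [Fintype T]

open Classical in
/-- the order of the centralizer -/
noncomputable def cg (g : T) : ℕ := (Finset.univ.filter (fun t : T => t * g * t⁻¹ = g)).card

open Classical in
theorem card_fiber (g y : T) :
    (Finset.univ.filter (fun t : T => t * g * t⁻¹ = y)).card = if IsConj y g then cg g else 0 := by
  split_ifs with h
  · obtain ⟨c, hc⟩ := isConj_iff.mp h.symm
    unfold cg
    refine (Finset.card_equiv (Equiv.mulLeft c) fun t => ?_).symm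
    simp only [Finset.mem_filter, Finset.mem_univ, true_and, Equiv.coe_mulLeft]
    have e : c * t * g * (c * t)⁻¹ = c * (t * g * t⁻¹) * c⁻¹ := by group
    rw [e]
    constructor
    · intro h1
      rw [h1, hc]
    · intro h1
      rw [← hc] at h1
      exact mul_left_cancel (mul_right_cancel h1)
  · rw [Finset.card_eq_zero, Finset.filter_eq_empty_iff]
    intro t _ ht
    exact h (isConj_iff.mpr ⟨t, ht⟩).symm

open Classical in
theorem sum_class {χ : T → ℂ} (hχ : IsIrr χ) (g : T) :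
    (cg g : ℂ) * ∑ y, conjInd y g * χ y = Nat.card T * χ g := by
  have h1 : ∑ t : T, χ (t * g * t⁻¹) = Nat.card T * χ g := by
    rw [Finset.sum_congr rfl fun t _ => hχ.conj_eq t g]
    simp
  rw [← h1]
  rw [← Finset.sum_fiberwise (s := Finset.univ) (g := fun t : T => t * g * t⁻¹)
    (f := fun t : T => χ (t * g * t⁻¹)), Finset.mul_sum]
  refine Finset.sum_congr rfl fun y _ => ?_
  have h2 : ∑ t ∈ Finset.univ.filter (fun t : T => t * g * t⁻¹ = y), χ (t * g * t⁻¹) =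
      (Finset.univ.filter (fun t : T => t * g * t⁻¹ = y)).card * χ y := by
    rw [Finset.sum_congr rfl (g := fun _ => χ y) fun t ht => by
      rw [(Finset.mem_filter.mp ht).2]]
    simp
  rw [h2, card_fiber, conjInd]
  split_ifs
  · ring
  · simp

open Classical in
theorem not_dvd {ℓ : ℕ} [Fact ℓ.Prime] (g : T) (h : ∀ u : T, u ≠ 1 → u ^ ℓ = 1 → u * g ≠ g * u) :
    ¬ ℓ ∣ cg g := by
  intro hd
  have e : Nat.card (Subgroup.centralizer ({g} : Set T)) = cg g := by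
    unfold cg
    rw [Nat.card_eq_fintype_card, Fintype.card_subtype]
    congr 1
    ext t
    simp only [Finset.mem_filter, Finset.mem_univ, true_and]
    rw [Subgroup.mem_centralizer_singleton_iff]
    constructor
    · intro h1
      rw [h1]
      group
    · intro h1
      rw [mul_inv_eq_iff_eq_mul] at h1
      exact h1
  rw [← e] at hd
  obtain ⟨u, hu⟩ := exists_prime_orderOf_dvd_card' ℓ hd
  have h1 : u.1 * g = g * u.1 := Subgroup.mem_centralizer_singleton_iff.mp u.2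
  refine h u.1 ?_ ?_ h1
  · intro h2
    have h3 : u = 1 := Subtype.ext h2
    rw [h3, orderOf_one] at hu
    exact (Fact.out : ℓ.Prime).one_lt.ne hu
  · have h2 : u ^ ℓ = 1 := by
      rw [← hu]
      exact pow_orderOf_eq_one u
    exact congrArg Subtype.val h2

end PDZ

open _root_.Pool.Agent.DPB.PDZ in
theorem PDZ_thm : Stmt_PDZ := by
  intro T _ _ 𝔐 ℓ _ hM hℓ χ hχ h0 a ha hz
  have hP : 𝔐.IsPrime := hM.isPrime
  have h1 := red_wt_eq_pair 𝔐 (MonoidHom.id T) hχ (fun h => (a h : ℂ))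
    (fun g x => by rw [ha]) (fun x => (a x).2)
  have h1' : red 𝔐 (wt χ (fun h => (a h : ℂ))) =
      pair 𝔐 (fun h => (a h : ℂ)) (cen 𝔐 (MonoidHom.id T) χ) := h1
  rw [h1', pair]
  refine finsum_eq_zero_of_forall_eq_zero fun C => ?_
  set g := C.out
  by_cases hg : ∃ u : T, u ≠ 1 ∧ u ^ ℓ = 1 ∧ u * g = g * u
  · obtain ⟨u, hu1, hu2, hu3⟩ := hg
    rw [hz g u hu1 hu2 hu3]
    simp [red_zero]
  · have hnd : ¬ ℓ ∣ cg g := not_dvd g fun u hu1 hu2 hu3 => hg ⟨u, hu1, hu2, hu3⟩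
    have hne := red_card_ne_zero 𝔐 hℓ hnd
    obtain ⟨d, hd⟩ := hχ.exists_defect (ℓ := ℓ)
    obtain ⟨n, N, hn, hn', hN, hv⟩ := exists_codeg hχ hd
    have hdN : ℓ ∣ N := by
      by_contra h2
      have h3 : padicValNat ℓ N = 0 := padicValNat.eq_zero_of_not_dvd h2
      rw [h3] at hv
      rw [← hv] at hd
      exact h0 hd
    have hn0 : (n : ℂ) ≠ 0 := by exact_mod_cast hn.ne'
    have hw : (cg g : ℂ) * wt χ (fun y => conjInd y g) = N * χ g := by
      have h4 := sum_class hχ g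
      rw [wt, hn', ← mul_div_assoc, h4, hN]
      push_cast
      field_simp
    have hi : IsIntegral ℤ (wt χ (fun y => conjInd y g)) :=
      isIntegral_wt hχ _ (fun b x => conjInd_conj b x g) (fun y => isIntegral_conjInd y g)
    have h5 : red 𝔐 (cg g : ℂ) * cen 𝔐 (MonoidHom.id T) χ g = 0 := by
      have h6 : cen 𝔐 (MonoidHom.id T) χ g = red 𝔐 (wt χ (fun y => conjInd y g)) := rfl
      rw [h6, ← red_mul 𝔐 (Lib_helper13.isIntegral_natCast _) hi, hw,
        red_mul 𝔐 (Lib_helper13.isIntegral_natCast _) (isIntegral_char hχ _)]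
      have h7 : red 𝔐 (N : ℂ) = 0 := by
        obtain ⟨k, rfl⟩ := hdN
        refine red_eq_zero_of_mem 𝔐 ⟨(ℓ : integralClosure ℤ ℂ) * k, 𝔐.mul_mem_right _ hℓ, ?_⟩
        push_cast
        rfl
      rw [h7, zero_mul]
    rcases mul_eq_zero.mp h5 with h8 | h8
    · exact absurd h8 hne
    · rw [h8, mul_zero]

end Pool.Agent.DPB


end

section

/-!
# Dade's conjecture for groups whose order is not divisible by `ℓ ^ 2`, and powers of groups
-/

namespace Pool.Agent.DPB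

open Pool.Agent.Lib_helper13 Representation
open Pool.Agent.Lib_helper13.Dade (pCore DadeHolds dadeSum IsIrrChar)

theorem bre_all : Stmt_BRE := BRE_thm DEN_thm

theorem bru_all : Stmt_BRU := BRU_thm DEN_thm

theorem ext_all : Stmt_EXT := EXT_thm PTR_thm

theorem leq_all : Stmt_LEQ :=
  LEQ_thm PTR_thm KAI_thm KAH_thm (KB_thm ext_all TRF_thm PTR_thm)
    (KC_thm ext_all TRF_thm PTR_thm) KD_thm KE_thm bre_all bru_all

theorem brm_all : Stmt_BRM :=
  BRM_thm (BRL_thm DEN_thm) (BRS_thm DEN_thm BRR_thm BRF_thm) bre_all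

theorem cnt_all : Stmt_CNT :=
  CNT_thm ACF_thm LIN_thm CHP_thm brm_all bre_all SNG_thm leq_all (NPJ_thm DEN_thm) LFT_thm
    (SEP_thm ACF_thm) PDZ_thm LOC_thm

/-- Dade's conjecture for the groups whose order is not divisible by `ℓ ^ 2`. -/
theorem brd_all : Stmt_BRD := BRD_thm cnt_all LOC_thm

/-- A group between `Inn(G)` and `A` has a Sylow subgroup of order at most `ℓ`. -/
theorem card_between (ℓ : ℕ) (hℓ : ℓ.Prime) (G : Type) [Group G] [Finite G]
    (hG : ¬ ℓ ^ 2 ∣ Nat.card G) (A : Subgroup (MulAut G))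
    (hcop : ¬ ℓ ∣ (MulAut.conj : G →* MulAut G).range.relIndex A) (T : Subgroup (MulAut G))
    (h1 : (MulAut.conj : G →* MulAut G).range ≤ T) (h2 : T ≤ A) : ¬ ℓ ^ 2 ∣ Nat.card T := by
  intro h
  have e1 : Nat.card (MulAut.conj : G →* MulAut G).range *
      (MulAut.conj : G →* MulAut G).range.relIndex T = Nat.card T := by
    have h3 := Subgroup.relIndex_mul_relIndex ⊥ (MulAut.conj : G →* MulAut G).range T bot_le h1
    rwa [Subgroup.relIndex_bot_left, Subgroup.relIndex_bot_left] at h3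
  have e2 : ¬ ℓ ∣ (MulAut.conj : G →* MulAut G).range.relIndex T := fun h' =>
    hcop (h'.trans (Dvd.intro _ (Subgroup.relIndex_mul_relIndex _ T A h1 h2)))
  rw [← e1] at h
  have e3 : ℓ ^ 2 ∣ Nat.card (MulAut.conj : G →* MulAut G).range :=
    Nat.Coprime.dvd_of_dvd_mul_right
      (Nat.Coprime.pow_left 2 ((Nat.Prime.coprime_iff_not_dvd hℓ).2 e2)) h
  have e4 : Nat.card (MulAut.conj : G →* MulAut G).range ∣ Nat.card G :=
    Subgroup.card_range_dvd _
  exact hG (e3.trans e4)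

/-- Theorem U. -/
theorem mainU (ℓ : ℕ) (hℓ : ℓ.Prime) (G : Type) [Group G] [Finite G]
    (hcen : Subgroup.center G = ⊥) (hcore : pCore ℓ G = ⊥) (hG : ¬ ℓ ^ 2 ∣ Nat.card G)
    (a : MulAut G) (A : Subgroup (MulAut G))
    (hA : A = (MulAut.conj : G →* MulAut G).range ⊔ Subgroup.zpowers a)
    (hcop : ¬ ℓ ∣ (MulAut.conj : G →* MulAut G).range.relIndex A)
    (X Ω : Type) [Group X] [Finite X] [Fintype Ω] (e : (Ω → G) →* X)
    (he : Function.Injective e)
    (hact : ∀ y : X, ∃ (s : Equiv.Perm Ω) (α : Ω → MulAut G), (∀ i, α i ∈ A) ∧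
      ∀ x : Ω → G, y * e x * y⁻¹ = e (fun i => α i (x (s i))))
    (𝔐 : Ideal (integralClosure ℤ ℂ)) (h𝔐 : 𝔐.IsMaximal)
    (hℓ𝔐 : (ℓ : integralClosure ℤ ℂ) ∈ 𝔐) (ξ : Ω → G → ℂ) (hξ : ∀ a, IsIrrChar (ξ a)) (w : Ω)
    (hw : ¬ Dade.HasDefect ℓ (ξ w) 0) (χ : X → ℂ) (hχ : IsIrrChar χ)
    (hover : ∑ᶠ x : Ω → G, χ (e x) * ∏ i, ξ i (x i)⁻¹ ≠ 0) (d : ℕ) : dadeSum 𝔐 ℓ χ d = 0 :=
  Pool.Agent.DP.mainR ℓ hℓ G hcen hcore a A hA hcop
    (fun T h1 h2 => brd_all ℓ T hℓ (card_between ℓ hℓ G hG A hcop T h1 h2)) X Ω e he hact 𝔐 h𝔐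
    hℓ𝔐 ξ hξ w hw χ hχ hover d

end Pool.Agent.DPB


end

section

/-!
# FIXV: the numbers of characters fixed by one element
-/

namespace Pool.Agent.DPV

open Pool.Agent.DP Pool.Agent.DPC Pool.Agent.DPB Pool.Agent.Lib_helper13 Representation
open Pool.Agent.Lib_helper13.Dade (pCore DadeHolds dadeSum)

namespace FIXV

/-- Two finite types are equally numerous if the fibres of two maps are. -/
theorem card_eq_of_fibers {α β γ : Type*} [Finite α] [Finite β] (f : α → γ) (g : β → γ)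
    (h : ∀ c, Nat.card {a // f a = c} = Nat.card {b // g b = c}) : Nat.card α = Nat.card β := by
  have e : ∀ c, Nonempty ({a // f a = c} ≃ {b // g b = c}) := fun c =>
    Finite.card_eq.mp (h c)
  exact Nat.card_congr ((Equiv.sigmaFiberEquiv f).symm.trans
    ((Equiv.sigmaCongrRight fun c => (e c).some).trans (Equiv.sigmaFiberEquiv g)))

section Restr

variable {G B C : Type} [Group G] [Group B] [Group C]

/-- Restriction of the local data to the inverse image of a subgroup. -/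
theorem clG_restr {ι : G →* B} {κ : B →* MulAut G} {ρ : B →* C} (h : ClG ι κ ρ)
    (L : Subgroup C) (ι' : G →* L.comap ρ) (hι : ∀ g, (ι' g : B) = ι g)
    (ρ' : L.comap ρ →* L) (hρ : ∀ b, (ρ' b : C) = ρ b) :
    ClG ι' (κ.comp (L.comap ρ).subtype) ρ' where
  inj := by
    intro a b hab
    apply h.inj
    rw [← hι, ← hι, hab]
  act := by
    intro y a
    apply Subtype.ext
    have h1 := h.act (y : B) a
    rw [← hι, ← hι] at h1
    exact h1
  ker := by
    intro y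
    constructor
    · intro hy
      have h1 : ρ (y : B) = 1 := by
        rw [← hρ, hy]
        rfl
      obtain ⟨g, hg⟩ := (h.ker (y : B)).mp h1
      exact ⟨g, Subtype.ext ((hι g).trans hg)⟩
    · rintro ⟨g, rfl⟩
      apply Subtype.ext
      rw [hρ, hι]
      exact (h.ker (ι g)).mpr ⟨g, rfl⟩

/-- The restriction of `ρ`. -/
def rhoR (ρ : B →* C) (L : Subgroup C) : L.comap ρ →* L :=
  (ρ.comp (L.comap ρ).subtype).codRestrict L (fun b => b.2)

theorem rhoR_apply (ρ : B →* C) (L : Subgroup C) (b : L.comap ρ) :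
    (rhoR ρ L b : C) = ρ b := rfl

theorem rhoR_surj {ρ : B →* C} (hs : Function.Surjective ρ) (L : Subgroup C) :
    Function.Surjective (rhoR ρ L) := by
  rintro ⟨x, hx⟩
  obtain ⟨b, rfl⟩ := hs x
  exact ⟨⟨b, hx⟩, Subtype.ext rfl⟩

/-- The restriction of `ι`. -/
def iotaR {ι : G →* B} {κ : B →* MulAut G} {ρ : B →* C} (h : ClG ι κ ρ) (L : Subgroup C) :
    G →* L.comap ρ :=
  ι.codRestrict (L.comap ρ) (fun g => by
    have h1 : ρ (ι g) = 1 := (h.ker (ι g)).mpr ⟨g, rfl⟩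
    rw [Subgroup.mem_comap, h1]
    exact L.one_mem)

theorem iotaR_apply {ι : G →* B} {κ : B →* MulAut G} {ρ : B →* C} (h : ClG ι κ ρ)
    (L : Subgroup C) (g : G) : (iotaR h L g : B) = ι g := rfl

end Restr

section Dade

variable {G B C : Type} [Group G] [Group B] [Group C]

/-- The order of `B` is not divisible by `ℓ ^ 2`. -/
theorem card_B {ι : G →* B} {κ : B →* MulAut G} {ρ : B →* C} (h : ClG ι κ ρ)
    (hs : Function.Surjective ρ) (ℓ : ℕ) [hℓ : Fact ℓ.Prime] (hC : ¬ ℓ ∣ Nat.card C)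
    (P : Subgroup G) (hP : Nat.card P = ℓ) (hi : ¬ ℓ ∣ P.index) : ¬ ℓ ^ 2 ∣ Nat.card B := by
  intro hd
  have h1 : Nat.card ρ.ker * ρ.ker.index = Nat.card B := Subgroup.card_mul_index _
  have h2 : ρ.ker.index = Nat.card C := by
    rw [Subgroup.index_ker, MonoidHom.range_eq_top.mpr hs]
    exact Nat.card_congr Subgroup.topEquiv.toEquiv
  have h3 : ρ.ker = ι.range := by
    ext y
    exact h.ker y
  have h4 : Nat.card ρ.ker = Nat.card G := by
    rw [h3]
    exact Nat.card_congr (MonoidHom.ofInjective h.inj).symm.toEquiv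
  have h5 : Nat.card P * P.index = Nat.card G := Subgroup.card_mul_index P
  rw [← h1, h2, h4, ← h5, hP, mul_assoc, pow_two] at hd
  have h6 : ℓ ∣ P.index * Nat.card C := Nat.dvd_of_mul_dvd_mul_left hℓ.out.pos hd
  rcases hℓ.out.dvd_mul.mp h6 with h7 | h7
  · exact hi h7
  · exact hC h7

/-- The hypothesis `DH` holds. -/
theorem dh_of_card (ℓ : ℕ) [hℓ : Fact ℓ.Prime] (ι : G →* B) (hB : ¬ ℓ ^ 2 ∣ Nat.card B) :
    DH ℓ ι := by
  intro T _ E _ _ _ H _ _ q hq _ _
  refine brd_all ℓ H hℓ.out fun hd => hB ?_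
  have h1 : Nat.card H ∣ Nat.card ↥(T ⊓ Subgroup.centralizer (E : Set B)) := by
    have h2 := Subgroup.card_range_dvd q
    rw [MonoidHom.range_eq_top.mpr hq] at h2
    rwa [Nat.card_congr Subgroup.topEquiv.toEquiv] at h2
  exact (hd.trans h1).trans (Subgroup.card_subgroup_dvd_card _)

end Dade

section Stab

variable {G B C : Type} [Group G] [Group B] [Group C]

theorem mem_map_iff (κ : B →* MulAut G) (ρ : B →* C) (c : C) (σ : Finset (Subgroup G))
    (ψ : G → ℂ) : c ∈ (Stx κ σ ψ).map ρ ↔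
      (⊤ : Subgroup (Subgroup.zpowers c)) ≤
        (Stx (κ.comp ((Subgroup.zpowers c).comap ρ).subtype) σ ψ).map
          (rhoR ρ (Subgroup.zpowers c)) := by
  constructor
  · rintro ⟨b, hb, hbc⟩
    have h1 : b ∈ (Subgroup.zpowers c).comap ρ := by
      rw [Subgroup.mem_comap, hbc]
      exact Subgroup.mem_zpowers c
    rintro ⟨x, hx⟩ _
    obtain ⟨k, rfl⟩ := Subgroup.mem_zpowers_iff.mp hx
    refine ⟨(⟨b, h1⟩ : (Subgroup.zpowers c).comap ρ) ^ k, ?_, ?_⟩
    · apply Subgroup.zpow_mem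
      exact hb
    · apply Subtype.ext
      rw [map_zpow, SubgroupClass.coe_zpow]
      change (ρ b) ^ k = c ^ k
      rw [hbc]
  · intro h
    obtain ⟨b, hb, hbc⟩ := h (Subgroup.mem_top ⟨c, Subgroup.mem_zpowers c⟩)
    refine ⟨b, hb, ?_⟩
    have h1 := congrArg Subtype.val hbc
    exact h1

end Stab

end FIXV

/-- MODULE FIXV -/
theorem FIXV_thm (h1 : Stmt_VSX) : Stmt_FIXV := by
  classical
  intro G B C _ _ _ _ _ 𝔐 ℓ _ hmax hℓ𝔐 ι κ ρ hL hC P hP hi ω hω c
  have hBc := FIXV.card_B hL.cl hL.surj ℓ hC P hP hi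
  -- the data for the group generated by `c`
  let C1 : Subgroup C := Subgroup.zpowers c
  let ι1 : G →* C1.comap ρ := FIXV.iotaR hL.cl C1
  let κ1 : C1.comap ρ →* MulAut G := κ.comp (C1.comap ρ).subtype
  let ρ1 : C1.comap ρ →* C1 := FIXV.rhoR ρ C1
  have hcl : ClG ι1 κ1 ρ1 := FIXV.clG_restr hL.cl C1 ι1 (fun _ => rfl) ρ1 (fun _ => rfl)
  have hsurj : Function.Surjective ρ1 := FIXV.rhoR_surj hL.surj C1
  have hcyc : IsCyclic C1 := Subgroup.isCyclic_zpowers c
  have hW : LocW ℓ ι1 κ1 ρ1 := ⟨hcl, hsurj, hcyc⟩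
  have hN : LocN ι1 κ1 ρ1 := ⟨hcl, hsurj⟩
  have hB1 : ¬ ℓ ^ 2 ∣ Nat.card (C1.comap ρ) := fun h =>
    hBc (h.trans (Subgroup.card_subgroup_dvd_card _))
  have hPZ : ∀ (L : Subgroup C1) (ι' : G →* L.comap ρ1), (∀ g, (ι' g : C1.comap ρ) = ι1 g) →
      PZ 𝔐 ℓ ι' (κ1.comp (L.comap ρ1).subtype) := by
    intro L ι' hι'
    have hW' : LocW ℓ ι' (κ1.comp (L.comap ρ1).subtype) (FIXV.rhoR ρ1 L) :=
      ⟨FIXV.clG_restr hcl L ι' hι' _ (fun _ => rfl), FIXV.rhoR_surj hsurj L, inferInstance⟩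
    refine part_c G (L.comap ρ1) L 𝔐 ℓ hmax hℓ𝔐 ι' _ _ hW' ?_
    exact FIXV.dh_of_card ℓ ι' fun h => hB1 (h.trans (Subgroup.card_subgroup_dvd_card _))
  have hVS : ∀ (β : Set (C1.comap ρ → (integralClosure ℤ ℂ) ⧸ 𝔐)) (e : ℕ), ¬ dzT 𝔐 ℓ ι1 β →
      Nat.card {θ : G → ℂ // IrrOn (stb ∅) θ ∧ (⊤ : Subgroup C1) ≤ (Stx κ1 ∅ θ).map ρ1 ∧
          df ℓ (stb (∅ : Finset (Subgroup G))) θ = e ∧ bet 𝔐 ι1 κ1 ρ1 ∅ θ ⊤ = β} =
        Nat.card {ψ : G → ℂ // IrrOn (stb {P}) ψ ∧ (⊤ : Subgroup C1) ≤ (Stx κ1 {P} ψ).map ρ1 ∧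
          df ℓ (stb {P}) ψ = e ∧ bet 𝔐 ι1 κ1 ρ1 {P} ψ ⊤ = β} := by
    intro β e hβ
    have h2 := vvc_c G (C1.comap ρ) C1 𝔐 ℓ ι1 κ1 ρ1 hW hmax hℓ𝔐 hPZ ⊤ β e hβ
    rw [h1 G (C1.comap ρ) C1 𝔐 ℓ ι1 κ1 ρ1 hN P hP hi ⊤ β e] at h2
    have h3 : (Nat.card G : ℚ) ≠ 0 := Nat.cast_ne_zero.mpr Nat.card_pos.ne'
    have h4 := (mul_eq_zero.mp h2).resolve_left h3
    exact Nat.cast_injective (sub_eq_zero.mp h4)
  -- the members of the classes determine the central functions
  have hmem : ∀ (σ : Finset (Subgroup G)) (θ : G → ℂ),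
      ∀ b ∈ bet 𝔐 ι1 κ1 ρ1 σ θ (⊤ : Subgroup C1), ∀ g, b (ι1 g) = cg 𝔐 θ g := by
    rintro σ θ b ⟨f, hf, rfl⟩ g
    rw [← AAH.cg_of_cgT 𝔐 ι1 hcl.inj f g]
    have h2 : (fun h => f (ι1 h)) = θ := funext hf.2
    rw [h2]
  have hne : ∀ (σ : Finset (Subgroup G)) (θ : G → ℂ), IrrOn (stb σ) θ →
      (bet 𝔐 ι1 κ1 ρ1 σ θ (⊤ : Subgroup C1)).Nonempty := by
    intro σ θ hθ
    obtain ⟨f, hf⟩ := (extar_c G (C1.comap ρ) C1 ℓ ι1 κ1 ρ1 hW σ θ hθ ⊤).2.2.1
    exact ⟨_, f, hf, rfl⟩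
  -- the fibres
  have hfib : ∀ (σ : Finset (Subgroup G)) (β : Set (C1.comap ρ → (integralClosure ℤ ℂ) ⧸ 𝔐))
      (e : ℕ), (∃ b ∈ β, ∀ g, b (ι1 g) = ω g) →
      Nat.card {x : {θ : G → ℂ // IrrOn (stb σ) θ ∧ (∀ g, cg 𝔐 θ g = ω g) ∧
        c ∈ (Stx κ σ θ).map ρ} // (bet 𝔐 ι1 κ1 ρ1 σ x.1 (⊤ : Subgroup C1),
          df ℓ (stb σ) x.1) = (β, e)} =
      Nat.card {θ : G → ℂ // IrrOn (stb σ) θ ∧ (⊤ : Subgroup C1) ≤ (Stx κ1 σ θ).map ρ1 ∧
          df ℓ (stb σ) θ = e ∧ bet 𝔐 ι1 κ1 ρ1 σ θ ⊤ = β} := by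
    rintro σ β e ⟨b, hb, hbω⟩
    refine Nat.card_congr ⟨fun x => ⟨x.1.1, x.1.2.1, (FIXV.mem_map_iff κ ρ c σ x.1.1).mp x.1.2.2.2,
      (congrArg Prod.snd x.2), (congrArg Prod.fst x.2)⟩,
      fun y => ⟨⟨y.1, y.2.1, fun g => ?_, (FIXV.mem_map_iff κ ρ c σ y.1).mpr y.2.2.1⟩,
        Prod.ext y.2.2.2.2 y.2.2.2.1⟩, fun x => rfl, fun y => rfl⟩
    rw [← hbω g]
    exact (hmem σ y.1 b (by rw [y.2.2.2.2]; exact hb) g).symm
  have hfin : ∀ (σ : Finset (Subgroup G)), Finite {θ : G → ℂ // IrrOn (stb σ) θ ∧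
      (∀ g, cg 𝔐 θ g = ω g) ∧ c ∈ (Stx κ σ θ).map ρ} := fun σ =>
    Set.Finite.subset (irrOn (stb σ)).finite_toSet
      (fun θ hθ => Finset.mem_coe.mpr (IRRPI.mem_irrOn.mpr hθ.1))
  have hf0 := hfin ∅
  have hf1 := hfin {P}
  refine FIXV.card_eq_of_fibers
    (fun x => (bet 𝔐 ι1 κ1 ρ1 ∅ x.1 (⊤ : Subgroup C1), df ℓ (stb (∅ : Finset (Subgroup G))) x.1))
    (fun x => (bet 𝔐 ι1 κ1 ρ1 {P} x.1 (⊤ : Subgroup C1), df ℓ (stb {P}) x.1)) ?_
  rintro ⟨β, e⟩
  by_cases hβ : ∃ b ∈ β, ∀ g, b (ι1 g) = ω g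
  · by_cases hz : dzT 𝔐 ℓ ι1 β
    · -- no character has the class `β`
      have hno : ∀ (σ : Finset (Subgroup G)) (θ : G → ℂ),
          bet 𝔐 ι1 κ1 ρ1 σ θ (⊤ : Subgroup C1) ≠ β := by
        intro σ θ he
        obtain ⟨b, hb, hbω⟩ := hβ
        obtain ⟨b', hb', θ0, h01, h02, h03⟩ := hz
        rw [← he] at hb hb'
        refine hω ⟨θ0, h01, h02, fun g => ?_⟩
        rw [← h03 g, hmem σ θ b' hb' g, ← hmem σ θ b hb g, hbω g]
      rw [Nat.card_eq_zero.mpr (Or.inl ⟨fun x => hno _ _ (congrArg Prod.fst x.2)⟩),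
        Nat.card_eq_zero.mpr (Or.inl ⟨fun x => hno _ _ (congrArg Prod.fst x.2)⟩)]
    · rw [hfib ∅ β e hβ, hfib {P} β e hβ]
      exact hVS β e hz
  · have hno : ∀ (σ : Finset (Subgroup G)) (θ : G → ℂ), IrrOn (stb σ) θ →
        (∀ g, cg 𝔐 θ g = ω g) → bet 𝔐 ι1 κ1 ρ1 σ θ (⊤ : Subgroup C1) ≠ β := by
      intro σ θ hθ hcg he
      obtain ⟨b, hb⟩ := hne σ θ hθ
      refine hβ ⟨b, he ▸ hb, fun g => ?_⟩
      rw [hmem σ θ b hb g, hcg g]
    rw [Nat.card_eq_zero.mpr (Or.inl ⟨fun x => hno _ _ x.1.2.1 x.1.2.2.1 (congrArg Prod.fst x.2)⟩),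
      Nat.card_eq_zero.mpr (Or.inl ⟨fun x => hno _ _ x.1.2.1 x.1.2.2.1
        (congrArg Prod.fst x.2)⟩)]

end Pool.Agent.DPV


end

section

/-!
# FXB: the number of characters over an invariant set of characters of a normal subgroup
-/

namespace Pool.Agent.DPW

open Pool.Agent.DP Pool.Agent.DPV Pool.Agent.Lib_helper13 Representation
open Pool.Agent.Lib_helper13.Dade (pCore DadeHolds dadeSum)

namespace FXB

/-- The number of irreducible characters of a commutative group. -/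
theorem card_comm {M : Type} [Group M] [Finite M] (hM : ∀ x y : M, x * y = y * x) :
    Nat.card {η : M → ℂ // IsIrr η} = Nat.card M := by
  classical
  letI : Fintype M := Fintype.ofFinite M
  have h1 : Nat.card {η : M → ℂ // IsIrr η} = (irrF M).card := by
    rw [← Fintype.card_coe, ← Nat.card_eq_fintype_card]
    exact Nat.card_congr (Equiv.subtypeEquivRight fun χ => mem_irrF.symm)
  rw [h1]
  have h2 : ∑ x : M, ∑ ψ ∈ irrF M, ψ x * ψ x⁻¹ = ∑ x : M, (Nat.card M : ℂ) := by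
    refine Finset.sum_congr rfl fun x _ => ?_
    rw [column_orth x x, Finset.filter_true_of_mem, Finset.card_univ, Nat.card_eq_fintype_card]
    intro z _
    rw [hM z x, mul_inv_cancel_right]
  rw [Finset.sum_comm] at h2
  have h3 : ∑ ψ ∈ irrF M, ∑ x : M, ψ x * ψ x⁻¹ = ∑ ψ ∈ irrF M, (Nat.card M : ℂ) :=
    Finset.sum_congr rfl fun ψ hψ => (mem_irrF.mp hψ).sum_self
  rw [h3, Finset.sum_const, Finset.sum_const, nsmul_eq_mul, nsmul_eq_mul, Finset.card_univ,
    ← Nat.card_eq_fintype_card] at h2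
  have h4 : ((irrF M).card : ℂ) = (Nat.card M : ℂ) :=
    mul_right_cancel₀ natCard_ne_zero h2
  exact_mod_cast h4

variable {A Y K : Type} [Group A] [Fintype A] [Group Y] [Fintype Y] [Group K]
  {j : A →* Y} {c : Y →* MulAut A} {p : Y →* K}

/-- The order of the inertia group. -/
theorem card_inert (hj : ClG j c p) {θ : A → ℂ} (hθ : IsIrr θ) :
    Nat.card (inert c θ) = Nat.card A * Nat.card ((inert c θ).map p) := by
  have h : (inert c θ).map p = (inert c θ).map p := rfl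
  have h1 := Subgroup.card_eq_card_quotient_mul_card_subgroup (CLG.qS h).ker
  have h2 : Nat.card (inert c θ ⧸ (CLG.qS h).ker) = Nat.card ((inert c θ).map p) :=
    Nat.card_congr (QuotientGroup.quotientKerEquivOfSurjective _ (CLG.qS_surj h)).toEquiv
  have h3 : Nat.card (CLG.qS h).ker = Nat.card A := by
    have h4 : (CLG.qS h).ker = (CLG.jS hj hθ).range := by
      ext y
      rw [MonoidHom.mem_ker]
      exact (CLG.clG_S hj hθ h).ker y
    rw [h4]
    exact Nat.card_congr (MonoidHom.ofInjective (CLG.clG_S hj hθ h).inj).symm.toEquiv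
  rw [h1, h2, h3, mul_comm]

end FXB

open _root_.Pool.Agent.DPW.FXB in
theorem FXB_thm : Stmt_FXB := by
  classical
  intro A Y K _ _ _ _ _ _ j c p hj hK hE Om hOm
  obtain ⟨-, hS2, -, -⟩ := SUMM_thm A Y K j c p hj
  have hex : ∀ θ : A → ℂ, ∃ E : inert c θ → ℂ, IsIrr θ → IsChr E ∧
      ∀ a (ha : j a ∈ inert c θ), E ⟨j a, ha⟩ = θ a := by
    intro θ
    by_cases h : IsIrr θ
    · obtain ⟨E, hE⟩ := hE θ h
      exact ⟨E, fun _ => hE⟩
    · exact ⟨fun _ => 0, fun h' => absurd h' h⟩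
  choose E hE' using hex
  obtain ⟨hc1, hc2⟩ := clg_all A Y K j c p hj (fun θ => (inert c θ).map p) E
    (fun θ hθ => ⟨rfl, (hE' θ hθ).1, (hE' θ hθ).2⟩)
  rw [hc2 (fun χ => ∃ θ : A → ℂ, IsIrr θ ∧ Om θ ∧ ip (resj j χ) θ ≠ 0), Finset.sum_filter]
  refine Finset.sum_congr rfl fun θ hθ => ?_
  have hθ' := mem_irrF.mp hθ
  split_ifs with hO
  · have h1 : Nat.card {η : (inert c θ).map p → ℂ // IsIrr η ∧
        ∃ θ' : A → ℂ, IsIrr θ' ∧ Om θ' ∧
          ip (resj j (indc (inert c θ) (fun s => E θ s * ext0 η (p s)))) θ' ≠ 0} =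
        Nat.card ((inert c θ).map p) := by
      rw [← card_comm (M := (inert c θ).map p)
        (fun x y => Subtype.ext (hK (x : K) (y : K)))]
      refine Nat.card_congr (Equiv.subtypeEquivRight fun η => ?_)
      constructor
      · exact fun h => h.1
      · exact fun h => ⟨h, θ, hθ', hO, (hc1 θ hθ' η h).2⟩
    rw [h1, card_inert hj hθ']
    push_cast
    ring
  · have h1 : Nat.card {η : (inert c θ).map p → ℂ // IsIrr η ∧
        ∃ θ' : A → ℂ, IsIrr θ' ∧ Om θ' ∧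
          ip (resj j (indc (inert c θ) (fun s => E θ s * ext0 η (p s)))) θ' ≠ 0} = 0 := by
      have hem : IsEmpty {η : (inert c θ).map p → ℂ // IsIrr η ∧
          ∃ θ' : A → ℂ, IsIrr θ' ∧ Om θ' ∧
            ip (resj j (indc (inert c θ) (fun s => E θ s * ext0 η (p s)))) θ' ≠ 0} := by
        constructor
        rintro ⟨η, hη, θ', h1, h2, h3⟩
        obtain ⟨ha, hb⟩ := hc1 θ hθ' η hη
        obtain ⟨y, hy⟩ := hS2 θ θ' _ hθ' h1 ha hb h3
        apply hO
        have h4 := hOm y⁻¹ θ' h2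
        have h5 : (fun a => θ' (c y⁻¹ a)) = θ := by
          funext a
          rw [← hy, ← MulAut.mul_apply, ← map_mul, mul_inv_cancel, map_one, MulAut.one_apply]
        rwa [h5] at h4
      exact Nat.card_of_isEmpty
    rw [h1]
    push_cast
    ring

end Pool.Agent.DPW


end

section

/-!
# IRC: characters of the normal subgroup in the block of a character of the stabilizer of a chain
-/

set_option autoImplicit false

namespace Pool.Agent.DPG

open Pool.Agent.DP Pool.Agent.DPC Pool.Agent.DPM Pool.Agent.DPN Pool.Agent.DPF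
  Pool.Agent.Lib_helper13 Representation
open Pool.Agent.Lib_helper13.Dade (pCore DadeHolds dadeSum)

namespace IRC

section

variable {L : Type} [Group L] [Fintype L] {𝔐 : Ideal (integralClosure ℤ ℂ)}

/-- The scalar of a function supported on a subgroup. -/
theorem sc_sub (S : Subgroup L) [Fintype S] {F : L → ℂ} (hF : ∀ x, x ∉ S → F x = 0)
    (u : L → ℤ) :
    sc 𝔐 F u = red 𝔐 (wt (fun s : S => F s) (fun s : S => ((u s : ℤ) : ℂ))) := by
  classical
  have h1 : ∑ x, ((u x : ℤ) : ℂ) * F x = ∑ s : S, ((u s : ℤ) : ℂ) * F s := by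
    rw [← Finset.sum_filter_of_ne (p := fun x => x ∈ S)]
    · exact Finset.sum_subtype _ (by simp) _
    · intro x _ hx
      by_contra h
      exact hx (by rw [hF x h, mul_zero])
  rw [sc, wt, h1]
  rfl

end

section

variable {Y X : Type} [Group Y] [Fintype Y] [Group X] {𝔐 : Ideal (integralClosure ℤ ℂ)}

/-- The central function at a central element. -/
theorem cen_central (i : Y →* X) (hi : Function.Injective i) (ψ : Y → ℂ) (z : Y)
    (hz : i z ∈ Subgroup.center X) : cen 𝔐 i ψ (i z) = red 𝔐 (ψ z / ψ 1) := by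
  classical
  rw [cen, wt]
  congr 2
  rw [Finset.sum_eq_single z]
  · rw [conjInd_of (IsConj.refl _), one_mul]
  · intro y _ hy
    rw [conjInd_of_not, zero_mul]
    intro hc
    obtain ⟨c, hc⟩ := isConj_iff.mp hc
    apply hy
    apply hi
    have h1 : c * i y = i z * c := by
      rw [← hc]
      group
    have h2 : c * i z = i z * c := Subgroup.mem_center_iff.mp hz c
    exact mul_left_cancel (h1.trans h2.symm)
  · intro h
    exact absurd (Finset.mem_univ _) h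

end

/-- The elements of `ℓ`-power order of a central subgroup. -/
def tor {G : Type} [Group G] (ℓ : ℕ) (U : Subgroup G) (hU : U ≤ Subgroup.center G) :
    Subgroup G where
  carrier := {g | g ∈ U ∧ ∃ k : ℕ, g ^ ℓ ^ k = 1}
  one_mem' := ⟨U.one_mem, 0, one_pow _⟩
  mul_mem' := by
    rintro a b ⟨ha, j, hj⟩ ⟨hb, k, hk⟩
    refine ⟨U.mul_mem ha hb, j + k, ?_⟩
    have hc : Commute a b := (Subgroup.mem_center_iff.mp (hU ha) b).symm
    rw [hc.mul_pow, pow_add, pow_mul, hj, one_pow, mul_comm (ℓ ^ j), pow_mul, hk, one_pow,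
      one_mul]
  inv_mem' := by
    rintro a ⟨ha, j, hj⟩
    refine ⟨U.inv_mem ha, j, ?_⟩
    rw [inv_pow, hj, inv_one]

theorem isPGroup_tor {G : Type} [Group G] (ℓ : ℕ) (U : Subgroup G)
    (hU : U ≤ Subgroup.center G) : IsPGroup ℓ (tor ℓ U hU) := by
  rintro ⟨g, hg, k, hk⟩
  exact ⟨k, Subtype.ext hk⟩

/-- Some power of exponent prime to `ℓ` is an `ℓ`-element. -/
theorem exists_pow {G : Type} [Group G] [Finite G] {ℓ : ℕ} [hp : Fact ℓ.Prime] (g : G) :
    ∃ m : ℕ, ¬ ℓ ∣ m ∧ ∃ k : ℕ, (g ^ m) ^ ℓ ^ k = 1 := by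
  have h0 : orderOf g ≠ 0 := (orderOf_pos g).ne'
  refine ⟨orderOf g / ℓ ^ (orderOf g).factorization ℓ, ?_, (orderOf g).factorization ℓ, ?_⟩
  · exact Nat.not_dvd_ordCompl hp.out h0
  · rw [← pow_mul, mul_comm, Nat.ordProj_mul_ordCompl_eq_self, pow_orderOf_eq_one]

end IRC

open _root_.Pool.Agent.DPG.IRC in
/-- IRC: characters of the normal subgroup in the block of a character of the stabilizer of a
chain. -/
theorem IRC_thm (h1 : Stmt_CHT) : Stmt_IRC := by
  classical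
  intro L K _ _ _ _ 𝔐 ℓ _ hmax hℓ π hπ hπc μ M _ σ hσ G hG hGo
  have := hmax.isPrime
  obtain ⟨Z, τ, -, -, hτ, -, hst⟩ := h1 L K ℓ π hπ hπc M σ hσ
  rw [mem_Ch] at hτ
  -- the two forms of the stabilizer
  let e : ↥(stb τ) ≃* ↥(AL π M (stb σ)) :=
    { toFun := fun s => ⟨((s : ↥(M.comap π)) : L), by
        rw [Subgroup.mem_comap, Subgroup.mem_inf]
        exact ⟨(s : ↥(M.comap π)).2, (hst s).mp s.2⟩⟩
      invFun := fun t => ⟨⟨(t : L), (Subgroup.mem_inf.mp (Subgroup.mem_comap.mp t.2)).1⟩,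
        (hst _).mpr (Subgroup.mem_inf.mp (Subgroup.mem_comap.mp t.2)).2⟩
      left_inv := fun s => rfl
      right_inv := fun t => rfl
      map_mul' := fun s t => rfl }
  have hψ : IsIrr (fun s : ↥(stb τ) => G ((s : ↥(M.comap π)) : L)) :=
    hG.1.comp_mulEquiv e
  have hm := exists_irr_of_chain 𝔐 hℓ hτ hψ
  obtain ⟨χ', hχ', hcχ'⟩ := exists_irr_of_mult 𝔐 hψ hm
  -- the kernel in the subgroup
  obtain ⟨U, hUdef⟩ : ∃ U : Subgroup ↥(M.comap π), U = π.ker.subgroupOf (M.comap π) :=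
    ⟨_, rfl⟩
  have hUm : ∀ z : ↥(M.comap π), z ∈ U ↔ (z : L) ∈ π.ker := by
    intro z
    rw [hUdef, Subgroup.mem_subgroupOf]
  have hU : U ≤ Subgroup.center ↥(M.comap π) := by
    intro z hz
    rw [Subgroup.mem_center_iff]
    intro g
    exact Subtype.ext (Subgroup.mem_center_iff.mp (hπc ((hUm z).mp hz)) g)
  let μU : U →* ℂˣ := μ.comp
    { toFun := fun z => ⟨((z : ↥(M.comap π)) : L), (hUm _).mp z.2⟩
      map_one' := rfl
      map_mul' := fun a b => rfl }
  have hμU : ∀ (z : U) (h : ((z : ↥(M.comap π)) : L) ∈ π.ker),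
      μU z = μ ⟨((z : ↥(M.comap π)) : L), h⟩ := fun _ _ => rfl
  -- the character over the restriction to the elements of `ℓ`-power order
  have hZc : tor ℓ U hU ≤ Subgroup.center ↥(M.comap π) := fun z hz => hU hz.1
  obtain ⟨χ, hχ, hχZ, hcχ⟩ := BTC_thm ↥(M.comap π) 𝔐 ℓ hmax hℓ (tor ℓ U hU) hZc
    (isPGroup_tor ℓ U hU) (μU.comp (Subgroup.inclusion (fun z hz => hz.1))) χ' hχ'
  have hcc : cen 𝔐 (MonoidHom.id ↥(M.comap π)) χ =
      cen 𝔐 (stb τ).subtype (fun s : ↥(stb τ) => G ((s : ↥(M.comap π)) : L)) :=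
    hcχ.trans hcχ'
  obtain ⟨ν, hν⟩ := BTC.exists_cc hU hχ
  have hχ1 : χ 1 ≠ 0 := hχ.one_ne_zero
  have hG1 : G 1 ≠ 0 := hψ.one_ne_zero
  have hsts : ∀ z ∈ U, z ∈ stb τ := by
    intro z hz
    rw [hst, MonoidHom.mem_ker.mp ((hUm z).mp hz)]
    exact Subgroup.one_mem _
  have hfo : ∀ (φ : U →* ℂˣ) (z : U), ∃ n : ℕ, 0 < n ∧ ((φ z : ℂˣ) : ℂ) ^ n = 1 := by
    intro φ z
    refine ⟨orderOf z, orderOf_pos z, ?_⟩
    rw [← Units.val_pow_eq_pow_val, ← map_pow, pow_orderOf_eq_one, map_one, Units.val_one]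
  have hint : ∀ (φ : U →* ℂˣ) (z : U), IsIntegral ℤ ((φ z : ℂˣ) : ℂ) := by
    intro φ z
    obtain ⟨n, hn, h⟩ := hfo φ z
    refine IsIntegral.of_pow hn ?_
    rw [h]
    exact isIntegral_one
  have hred : ∀ z : U, red 𝔐 ((ν z : ℂˣ) : ℂ) = red 𝔐 ((μU z : ℂˣ) : ℂ) := by
    intro z
    have e1 := congrFun hcc (z : ↥(M.comap π))
    have e2 := cen_central (𝔐 := 𝔐) (MonoidHom.id ↥(M.comap π)) (fun _ _ h => h) χ
      (z : ↥(M.comap π)) (hU z.2)
    have e3 := cen_central (𝔐 := 𝔐) (stb τ).subtype Subtype.val_injective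
      (fun s : ↥(stb τ) => G ((s : ↥(M.comap π)) : L)) ⟨z, hsts z z.2⟩ (hU z.2)
    have e4 : χ z / χ 1 = ((ν z : ℂˣ) : ℂ) := by
      have := hν z 1
      rw [mul_one] at this
      rw [this, mul_div_assoc, div_self hχ1, mul_one]
    have e5 : G ((z : ↥(M.comap π)) : L) / G 1 = ((μU z : ℂˣ) : ℂ) := by
      have := hGo ⟨((z : ↥(M.comap π)) : L), (hUm _).mp z.2⟩ 1
      rw [mul_one] at this
      rw [this, mul_div_assoc, div_self hG1, mul_one]
      rfl
    rw [e4] at e2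
    have e6 : cen 𝔐 (stb τ).subtype (fun s : ↥(stb τ) => G ((s : ↥(M.comap π)) : L))
        (z : ↥(M.comap π)) = red 𝔐 (G ((z : ↥(M.comap π)) : L) / G 1) := e3
    rw [e5] at e6
    exact e2.symm.trans (e1.trans e6)
  have hνμ : ∀ z : U, ν z = μU z := by
    intro z
    obtain ⟨m, hm, k, hk⟩ := exists_pow (ℓ := ℓ) (z : ↥(M.comap π))
    obtain ⟨κ, hκ⟩ : ∃ κ : U →* ℂˣ, κ = ν / μU := ⟨_, rfl⟩
    have hκ1 : κ z ^ m = 1 := by
      have hz : (z : ↥(M.comap π)) ^ m ∈ tor ℓ U hU := ⟨U.pow_mem z.2 m, k, hk⟩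
      have h2 := hχZ ⟨_, hz⟩ 1
      have h3 := hν (z ^ m) 1
      have h4 : ((ν (z ^ m) : ℂˣ) : ℂ) = ((μU (z ^ m) : ℂˣ) : ℂ) := by
        have h5 : ((ν (z ^ m) : ℂˣ) : ℂ) * χ 1 = ((μU (z ^ m) : ℂˣ) : ℂ) * χ 1 :=
          h3.symm.trans h2
        exact mul_right_cancel₀ hχ1 h5
      rw [← map_pow, hκ, MonoidHom.div_apply, Units.ext h4, div_self']
    have hκr : red 𝔐 ((κ z : ℂˣ) : ℂ) = 1 := by
      have h2 : ((κ z : ℂˣ) : ℂ) * ((μU z : ℂˣ) : ℂ) = ((ν z : ℂˣ) : ℂ) := by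
        rw [← Units.val_mul, hκ, MonoidHom.div_apply, div_mul_cancel]
      have h3 : red 𝔐 ((κ z : ℂˣ) : ℂ) * red 𝔐 ((μU z : ℂˣ) : ℂ) =
          red 𝔐 ((μU z : ℂˣ) : ℂ) := by
        rw [← red_mul 𝔐 (hint κ z) (hint μU z), h2, hred]
      have h4 : red 𝔐 ((μU z : ℂˣ) : ℂ) * red 𝔐 ((μU z⁻¹ : ℂˣ) : ℂ) = 1 := by
        rw [← red_mul 𝔐 (hint μU z) (hint μU z⁻¹), ← Units.val_mul, ← map_mul,
          mul_inv_cancel, map_one, Units.val_one, red_one]
      have h5 := congrArg (fun t => t * red 𝔐 ((μU z⁻¹ : ℂˣ) : ℂ)) h3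
      simp only [mul_assoc, h4, mul_one] at h5
      exact h5
    have h6 : ((κ z : ℂˣ) : ℂ) = 1 := by
      refine GALX.root_eq 𝔐 hℓ hm ?_ (one_pow m) ?_
      · rw [← Units.val_pow_eq_pow_val, hκ1, Units.val_one]
      · rw [hκr, red_one]
    have h7 : κ z = 1 := Units.ext h6
    rw [hκ, MonoidHom.div_apply, div_eq_one] at h7
    exact h7
  refine ⟨ext0 χ, ⟨?_, fun x hx => ext0_of_not_mem χ hx⟩, ?_, ?_⟩
  · have h2 : (fun s : ↥(M.comap π) => ext0 χ (s : L)) = χ := by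
      funext s
      exact ext0_of_mem χ s.2
    rw [h2]
    exact hχ
  · intro z x
    have hz : (z : L) ∈ M.comap π := by
      rw [Subgroup.mem_comap, MonoidHom.mem_ker.mp z.2]
      exact Subgroup.one_mem _
    by_cases hx : x ∈ M.comap π
    · rw [ext0_of_mem χ hx, ext0_of_mem χ ((M.comap π).mul_mem hz hx)]
      have h2 := hν ⟨⟨(z : L), hz⟩, (hUm _).mpr z.2⟩ ⟨x, hx⟩
      rw [hνμ] at h2
      exact h2
    · rw [ext0_of_not_mem χ hx, ext0_of_not_mem χ, mul_zero]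
      intro h
      exact hx (((M.comap π).mul_mem_cancel_left hz).mp h)
  · intro u hu _
    have h2 : (fun s : ↥(M.comap π) => ext0 χ (s : L)) = χ := by
      funext s
      exact ext0_of_mem χ s.2
    have hui : ∀ g x : ↥(M.comap π), ((u ((g * x * g⁻¹ : ↥(M.comap π)) : L) : ℤ) : ℂ) =
        ((u (x : L) : ℤ) : ℂ) := by
      intro g x
      have := hu g g.2 x
      simp only [Subgroup.coe_mul, Subgroup.coe_inv]
      rw [this]
    have e1 := red_wt_eq_pair 𝔐 (MonoidHom.id ↥(M.comap π)) hχ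
      (fun s => ((u (s : L) : ℤ) : ℂ)) hui
      (fun x => Pool.Agent.Lib_helper13.isIntegral_intCast _)
    have e2 := red_wt_eq_pair 𝔐 (stb τ).subtype hψ
      (fun s => ((u (s : L) : ℤ) : ℂ)) hui
      (fun x => Pool.Agent.Lib_helper13.isIntegral_intCast _)
    rw [sc_sub (M.comap π) (fun x hx => ext0_of_not_mem χ hx), h2,
      sc_sub (AL π M (stb σ)) hG.2]
    have e3 := wt_comp_equiv e (fun t : ↥(AL π M (stb σ)) => G t)
      (fun t : ↥(AL π M (stb σ)) => ((u (t : L) : ℤ) : ℂ))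
    rw [← e3]
    rw [hcc] at e1
    exact e1.trans e2.symm

end Pool.Agent.DPG


end

section

/-!
# TDQ: a nonvanishing twisted chain sum gives a counterexample
-/

set_option linter.unusedSectionVars false

namespace Pool.Agent.DPH

open Pool.Agent.DP Pool.Agent.DPC Pool.Agent.DPM Pool.Agent.DPN Pool.Agent.DPF
  Pool.Agent.Lib_helper13 Representation
open Pool.Agent.Lib_helper13.Dade (pCore DadeHolds dadeSum)

open Classical in
/-- **TDQ** -/
theorem TDQ_thm : Stmt_TDQ := by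
  intro L K _ _ _ _ 𝔐 ℓ _ hmax hℓ π hπs hcore hUc μ hinj d x hd hne
  have hπk : ∀ l, π l = 1 ↔ l ∈ π.ker := fun l => MonoidHom.mem_ker.symm
  have hcyc : IsCyclic π.ker := isCyclic_of_injective_ringHom ((Units.coeHom ℂ).comp μ)
    (Units.val_injective.comp hinj)
  have hx : ∑ σ ∈ Ch ℓ (⊥ : Subgroup K),
        ((-1 : ℚ) ^ σ.card * (Nat.card (stb σ) : ℚ)) *
        Nat.card {η : ↥((stb σ).comap π) → ℂ // IsIrr η ∧ OvL π.ker μ _ η ∧
          HasDefect ℓ η d ∧ cen 𝔐 ((stb σ).comap π).subtype η = x} ≠ 0 := by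
    intro h0
    apply hne
    unfold DKU
    rw [← h0]
    refine Finset.sum_congr rfl fun σ _ => ?_
    rw [mul_assoc]
    congr 3
    refine Nat.card_congr (Equiv.subtypeEquivRight fun η => ?_)
    constructor
    · rintro ⟨h1, h2, h3, h4⟩
      exact ⟨h1, h2, h3, funext fun g => h4 g (Subgroup.mem_top _)⟩
    · rintro ⟨h1, h2, h3, h4⟩
      exact ⟨h1, h2, h3, fun g _ => congrFun h4 g⟩
  -- isolation
  have hUS : ∀ σ ∈ Ch ℓ (⊥ : Subgroup K), π.ker ≤ (stb σ).comap π := by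
    intro σ _ u hu
    rw [Subgroup.mem_comap, (hπk u).mpr hu]
    exact one_mem _
  obtain ⟨L', iL', fL', q', d', c', hq's, hq'U, hq'p, hd', hsum, -⟩ :=
    all_ISOL L (Finset (Subgroup K)) 𝔐 ℓ hmax hℓ π.ker μ hUc hcyc hinj (Ch ℓ (⊥ : Subgroup K))
      (fun σ => (-1 : ℚ) ^ σ.card * (Nat.card (stb σ) : ℚ)) (fun σ => (stb σ).comap π) hUS
      d x hx
  -- the projection of the quotient
  have hker : q'.ker ≤ π.ker := hq'U
  let π' : L' →* K := q'.liftOfSurjective hq's ⟨π, hker⟩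
  have hπ' : ∀ l, π' (q' l) = π l := fun l => MonoidHom.liftOfRightInverse_comp_apply _ _ _ _ l
  have hπ's : Function.Surjective π' := by
    intro k
    obtain ⟨l, hl⟩ := hπs k
    exact ⟨q' l, by rw [hπ', hl]⟩
  have hπ'k : π'.ker = π.ker.map q' := by
    ext l'
    obtain ⟨l, rfl⟩ := hq's l'
    rw [MonoidHom.mem_ker, hπ', hπk, Subgroup.mem_map]
    constructor
    · intro h
      exact ⟨l, h, rfl⟩
    · rintro ⟨u, hu, hul⟩
      have h6 : u⁻¹ * l ∈ q'.ker := by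
        rw [MonoidHom.mem_ker, map_mul, map_inv, hul, inv_mul_cancel]
      have h7 := π.ker.mul_mem hu (hq'U h6)
      rwa [mul_inv_cancel_left] at h7
  have hcent : π'.ker ≤ Subgroup.center L' := by
    rw [hπ'k]
    rintro _ ⟨u, hu, rfl⟩
    rw [Subgroup.mem_center_iff]
    intro g
    obtain ⟨l, rfl⟩ := hq's g
    rw [← map_mul, ← map_mul, Subgroup.mem_center_iff.mp (hUc hu) l]
  have hmap : ∀ V : Subgroup K, (V.comap π).map q' = V.comap π' := by
    intro V
    ext l'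
    obtain ⟨l, rfl⟩ := hq's l'
    rw [Subgroup.mem_comap, hπ', Subgroup.mem_map]
    constructor
    · rintro ⟨u, hu, hul⟩
      rw [Subgroup.mem_comap] at hu
      rwa [← hπ', ← hul, hπ']
    · intro h
      exact ⟨l, h, rfl⟩
  obtain ⟨h6, h7, h8⟩ := CHC_thm L' K ℓ π' hπ's hcent hcore
  have h9 : KK 𝔐 ℓ d' (pCore ℓ L') c' ≠ 0 := by
    have h10 := h8 (fun S => Nat.card S * cnt 𝔐 ℓ d' S.subtype c')
    rw [KK, h10]
    have h11 : ∑ σ ∈ Ch ℓ (⊥ : Subgroup K), (-1 : ℚ) ^ σ.card *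
        ((Nat.card ↥((stb σ).comap π') : ℚ) * cnt 𝔐 ℓ d' ((stb σ).comap π').subtype c') =
        (Nat.card π'.ker : ℚ) * ∑ σ ∈ Ch ℓ (⊥ : Subgroup K),
          (-1 : ℚ) ^ σ.card * (Nat.card (stb σ) : ℚ) *
            cnt 𝔐 ℓ d' (((stb σ).comap π).map q').subtype c' := by
      rw [Finset.mul_sum]
      refine Finset.sum_congr rfl fun σ _ => ?_
      rw [TD.card_comap π' hπ's, hmap, Nat.cast_mul]
      ring
    rw [h11]
    refine mul_ne_zero ?_ hsum
    exact Nat.cast_ne_zero.mpr Nat.card_pos.ne'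
  refine ⟨L', iL', inferInstance, q', hq's, hq'U, hq'p, h6, fun h14 => ?_⟩
  obtain ⟨h15, -⟩ := all_DZC L' 𝔐 ℓ hmax hℓ h6 h14 d' c' h9
  rw [h7] at h15
  have h16 : d' ≤ padicValNat ℓ (Nat.card π'.ker) :=
    (Nat.pow_le_pow_iff_right (Fact.out : ℓ.Prime).one_lt).mp h15
  have h17 : Nat.card π.ker = Nat.card π'.ker * Nat.card q'.ker := by
    have h18 := TD.card_comap q' hq's (π.ker.map q')
    rw [Subgroup.comap_map_eq_self hq'U] at h18
    rw [h18, hπ'k, mul_comm]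
  have h19 : padicValNat ℓ (Nat.card π.ker) = padicValNat ℓ (Nat.card π'.ker) +
      padicValNat ℓ (Nat.card q'.ker) := by
    rw [h17, padicValNat.mul Nat.card_pos.ne' Nat.card_pos.ne']
  omega

end Pool.Agent.DPH


end
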