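import Mathlib
import Pool.Agent.DAM.C14
import Pool.Agent.DAM.C22
import Pool.Agent.DAM.C24
import Pool.Agent.DAM.C25
import Pool.Agent.DAM.C35
import Pool.Agent.DAM.C64
import Pool.Agent.DAM.C89

/-! Parts: DPW.HATQ, DPW.FIXW, DPX.FIXX -/

section

/-!
# HATQ: the chain sums of a group and of its quotient by a normal subgroup of order prime to `ℓ`
-/

set_option autoImplicit false
set_option linter.unusedSectionVars false

namespace Pool.Agent.DPW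

open Pool.Agent.DP Pool.Agent.DPV Pool.Agent.Lib_helper13 Representation
open Pool.Agent.Lib_helper13.Dade (pCore DadeHolds dadeSum)

theorem HATQ_thm : Stmt_HATQ := by
  intro X Y _ _ _ _ 𝔐 ℓ _ h𝔐 hℓ p hp hk Z hn hpg χ hχ d
  classical
  have e1 := QN_thm X ℓ Z (fun S => (Nat.card S : ℚ) *
    cnt 𝔐 ℓ d S.subtype (cen 𝔐 (MonoidHom.id X) (fun x => χ (p x))))
  have e2 := QN_thm Y ℓ (Z.map p) (fun S => (Nat.card S : ℚ) *
    cnt 𝔐 ℓ d S.subtype (cen 𝔐 (MonoidHom.id Y) χ))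
  obtain ⟨c1, c2⟩ := QC_thm X Y ℓ p hp hk Z hpg
  have c3 := c2 (fun σ => (cnt 𝔐 ℓ d (stb σ).subtype (cen 𝔐 (MonoidHom.id Y) χ) : ℚ))
  rw [KK, KK]
  refine e1.trans ?_
  refine Eq.trans ?_ (c3.trans (congrArg (fun z => (Nat.card p.ker : ℚ) * z) e2.symm))
  refine Finset.sum_congr rfl fun σ hσ => ?_
  obtain ⟨Q, q1, q2, q3, q4⟩ := QL.normal_chain hpg hσ
  have b := QB_thm X Y 𝔐 ℓ h𝔐 hℓ p hp hk (stb σ) Q q1 q2 q3 q4 χ d hχ
  have hσ' : IsCh ℓ Z σ := by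
    rw [NCh, Finset.mem_filter, mem_Ch] at hσ
    exact hσ.1
  rw [c1 σ hσ'] at b
  rw [b]

end Pool.Agent.DPW


end

section

/-!
# FIXW: the numbers of characters fixed by one element
-/

namespace Pool.Agent.DPW

open Pool.Agent.DP Pool.Agent.DPV Pool.Agent.Lib_helper13 Representation
open Pool.Agent.Lib_helper13.Dade (pCore DadeHolds dadeSum)

namespace FIXW

section

variable {G B C : Type} [Group G] [Group B] [Group C] {ι : G →* B} {κ : B →* MulAut G}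
  {ρ : B →* C}

/-- The stabilizer in the inverse image of `L`. -/
def stxEquiv (κ : B →* MulAut G) (ρ : B →* C) (L : Subgroup C) (σ : Finset (Subgroup G))
    (ψ : G → ℂ) : Stx (κ.comp (L.comap ρ).subtype) σ ψ ≃*
      (Stx κ σ ψ ⊓ L.comap ρ : Subgroup B) where
  toFun s := ⟨((s : L.comap ρ) : B), Subgroup.mem_inf.mpr ⟨s.2, s.1.2⟩⟩
  invFun t := ⟨⟨(t : B), (Subgroup.mem_inf.mp t.2).2⟩, (Subgroup.mem_inf.mp t.2).1⟩
  left_inv _ := rfl
  right_inv _ := rfl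
  map_mul' _ _ := rfl

/-- Restriction of the local data to the inverse image of a subgroup. -/
theorem locV_restr [Finite G] [Finite B] (h : LocV ι κ ρ) (L : Subgroup C) :
    LocV (FIXV.iotaR h.cl L) (κ.comp (L.comap ρ).subtype) (FIXV.rhoR ρ L) where
  cl := FIXV.clG_restr h.cl L _ (fun _ => rfl) _ (fun _ => rfl)
  surj := FIXV.rhoR_surj h.surj L
  ext := by
    intro σ ψ hψ
    obtain ⟨f, hf, he⟩ := h.ext σ ψ hψ
    refine ⟨fun b => f b, ⟨?_, ?_⟩, fun g => he g⟩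
    · have h1 : IsIrr (fun s : (Stx κ σ ψ ⊓ L.comap ρ : Subgroup B) => f s) := by
        refine Pool.Agent.DPC.EXTBR.irrOn_trn ι (A := stb σ) inf_le_left ?_ hf.1 ?_
        · intro a ha
          have hc := Pool.Agent.DPC.EXTAR.comap_eq h.cl hψ L
          rw [← hc] at ha
          exact ha
        · have h2 : (fun a : stb σ => f (ι a)) = fun a : stb σ => ψ a := by
            funext a
            exact he a
          rw [h2]
          exact hψ.1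
      have : Fintype (Stx κ σ ψ ⊓ L.comap ρ : Subgroup B) := Fintype.ofFinite _
      have : Fintype (Stx (κ.comp (L.comap ρ).subtype) σ ψ) := Fintype.ofFinite _
      exact h1.comp_mulEquiv (stxEquiv κ ρ L σ ψ)
    · intro x hx
      exact hf.2 x fun h => hx h

/-- The image of the stabilizer in the inverse image of `L`. -/
theorem card_map_restr (κ : B →* MulAut G) (ρ : B →* C) (L : Subgroup C)
    (σ : Finset (Subgroup G)) (ψ : G → ℂ) :
    Nat.card ((Stx (κ.comp (L.comap ρ).subtype) σ ψ).map (FIXV.rhoR ρ L)) =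
      Nat.card ↥((Stx κ σ ψ).map ρ ⊓ L) := by
  have h1 : ((Stx (κ.comp (L.comap ρ).subtype) σ ψ).map (FIXV.rhoR ρ L)).map L.subtype =
      (Stx κ σ ψ).map ρ ⊓ L := by
    ext x
    constructor
    · rintro ⟨_, ⟨b, hb, rfl⟩, rfl⟩
      exact ⟨⟨(b : B), hb, rfl⟩, b.2⟩
    · rintro ⟨⟨b, hb, rfl⟩, hx⟩
      exact ⟨⟨ρ b, hx⟩, ⟨⟨b, hx⟩, hb, rfl⟩, rfl⟩
  rw [← h1]
  exact (Subgroup.card_map_of_injective L.subtype_injective).symm

/-- The central function is invariant under the stabilizer. -/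
theorem cg_stx [Fintype G] (𝔐 : Ideal (integralClosure ℤ ℂ)) {σ : Finset (Subgroup G)}
    {θ : G → ℂ} {b : B} (hb : b ∈ Stx κ σ θ) (g : G) : cg 𝔐 θ (κ b g) = cg 𝔐 θ g := by
  rw [← TJV.cg_comp 𝔐 (κ b) θ g]
  have h1 : (fun x => θ (κ b x)) = θ := funext hb.2
  rw [h1]

/-- The central function is invariant under `G`. -/
theorem cg_iota [Fintype G] (𝔐 : Ideal (integralClosure ℤ ℂ)) (h : ClG ι κ ρ) (θ : G → ℂ)
    (u g : G) : cg 𝔐 θ (κ (ι u) g) = cg 𝔐 θ g := by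
  rw [Pool.Agent.DPC.EXTAR.kap_conj h]
  change cg 𝔐 θ (u * g * u⁻¹) = cg 𝔐 θ g
  unfold cg
  have h1 : ∀ x, conjInd x (u * g * u⁻¹) = conjInd x g := by
    intro x
    refine conjInd_congr ?_
    have h2 : IsConj g (u * g * u⁻¹) := isConj_iff.mpr ⟨u, rfl⟩
    exact ⟨fun h3 => h3.trans h2.symm, fun h3 => h3.trans h2⟩
  simp only [h1]

/-- If some element over `c` stabilizes a character with central function `ω` then `ω` is
invariant under all elements over the powers of `c`. -/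
theorem inv_of_mem [Fintype G] (𝔐 : Ideal (integralClosure ℤ ℂ)) (h : ClG ι κ ρ)
    {σ : Finset (Subgroup G)} {θ : G → ℂ} {ω : G → (integralClosure ℤ ℂ) ⧸ 𝔐}
    (hω : ∀ g, cg 𝔐 θ g = ω g) {c : C} (hc : c ∈ (Stx κ σ θ).map ρ) (b : B)
    (hb : ρ b ∈ Subgroup.zpowers c) (g : G) : ω (κ b g) = ω g := by
  obtain ⟨b0, hb0, hb0c⟩ := hc
  obtain ⟨k, hk⟩ := Subgroup.mem_zpowers_iff.mp hb
  have h1 : ρ (b * (b0 ^ k)⁻¹) = 1 := by
    rw [map_mul, map_inv, map_zpow, hb0c, hk, mul_inv_cancel]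
  obtain ⟨u, hu⟩ := (h.ker _).mp h1
  have h2 : b = ι u * b0 ^ k := by rw [hu, inv_mul_cancel_right]
  have h3 : b0 ^ k ∈ Stx κ σ θ := Subgroup.zpow_mem _ hb0 k
  rw [← hω, ← hω, h2, map_mul, MulAut.mul_apply, cg_iota 𝔐 h, cg_stx 𝔐 h3]

end

end FIXW

/-- MODULE FIXW -/
theorem FIXW_thm (h1 : Stmt_FXC) (h2 : Stmt_FXD) : Stmt_FIXW := by
  classical
  intro G B C _ _ _ _ _ 𝔐 ℓ _ hmax hℓ𝔐 ι κ ρ hL hC ω hω P x₀ hP c
  have hfin : Finite C := Finite.of_surjective ρ hL.surj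
  by_cases hinv : ∀ b, ρ b ∈ Subgroup.zpowers c → ∀ g, ω (κ b g) = ω g
  · -- the counting statement for the subgroups of `⟨c⟩`
    have hcount : ∀ Γ : Subgroup C, Γ ≤ Subgroup.zpowers c →
        ∑ θ ∈ irrOn (stb (∅ : Finset (Subgroup G))) with (∀ g, cg 𝔐 θ g = ω g),
          (Nat.card ↥((Stx κ ∅ θ).map ρ ⊓ Γ)) ^ 2 =
        ∑ ψ ∈ irrOn (stb {P}) with (∀ g, cg 𝔐 ψ g = ω g),
          (Nat.card ↥((Stx κ {P} ψ).map ρ ⊓ Γ)) ^ 2 := by
      intro Γ hΓ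
      have : Fintype (Γ.comap ρ) := Fintype.ofFinite _
      have h3 := h2 G (Γ.comap ρ) Γ 𝔐 ℓ hmax hℓ𝔐 (FIXV.iotaR hL.cl Γ)
        (κ.comp (Γ.comap ρ).subtype) (FIXV.rhoR ρ Γ) (FIXW.locV_restr hL Γ)
        (fun h => hC (h.trans (Subgroup.card_subgroup_dvd_card Γ)))
        (by
          rintro ⟨x, hx⟩ ⟨y, hy⟩
          obtain ⟨k, rfl⟩ := Subgroup.mem_zpowers_iff.mp (hΓ hx)
          obtain ⟨l, rfl⟩ := Subgroup.mem_zpowers_iff.mp (hΓ hy)
          apply Subtype.ext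
          change c ^ k * c ^ l = c ^ l * c ^ k
          rw [← zpow_add, ← zpow_add, add_comm])
        ω hω P x₀ hP (fun b g => hinv b (hΓ b.2) g)
      simp only [FIXW.card_map_restr] at h3
      exact h3
    have h4 := h1 C
      ↥((irrOn (stb (∅ : Finset (Subgroup G)))).filter (fun θ => ∀ g, cg 𝔐 θ g = ω g))
      ↥((irrOn (stb ({P} : Finset (Subgroup G)))).filter (fun θ => ∀ g, cg 𝔐 θ g = ω g)) c
      (fun i => (Stx κ ∅ i.1).map ρ) (fun i => (Stx κ {P} i.1).map ρ) (by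
        intro Γ hΓ
        exact (Finset.sum_coe_sort _
          (fun θ : G → ℂ => (Nat.card ↥((Stx κ ∅ θ).map ρ ⊓ Γ)) ^ 2)).trans
            ((hcount Γ hΓ).trans (Finset.sum_coe_sort _
              (fun θ : G → ℂ => (Nat.card ↥((Stx κ {P} θ).map ρ ⊓ Γ)) ^ 2)).symm))
    have hcard : ∀ σ : Finset (Subgroup G),
        Nat.card {θ : G → ℂ // IrrOn (stb σ) θ ∧ (∀ g, cg 𝔐 θ g = ω g) ∧
          c ∈ (Stx κ σ θ).map ρ} =
        Nat.card {i : ↥((irrOn (stb σ)).filter (fun θ => ∀ g, cg 𝔐 θ g = ω g)) //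
          c ∈ (Stx κ σ i.1).map ρ} := by
      intro σ
      refine Nat.card_congr ⟨fun x => ⟨⟨x.1, Finset.mem_filter.mpr
        ⟨IRRPI.mem_irrOn.mpr x.2.1, x.2.2.1⟩⟩, x.2.2.2⟩,
        fun y => ⟨y.1.1, IRRPI.mem_irrOn.mp (Finset.mem_filter.mp y.1.2).1,
          (Finset.mem_filter.mp y.1.2).2, y.2⟩, fun x => rfl, fun y => rfl⟩
    rw [hcard ∅, hcard {P}]
    exact h4
  · have hno : ∀ (σ : Finset (Subgroup G)) (θ : G → ℂ), (∀ g, cg 𝔐 θ g = ω g) →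
        c ∉ (Stx κ σ θ).map ρ := by
      intro σ θ hθ hc
      exact hinv fun b hb g => FIXW.inv_of_mem 𝔐 hL.cl hθ hc b hb g
    rw [Nat.card_eq_zero.mpr (Or.inl ⟨fun x => hno _ _ x.2.2.1 x.2.2.2⟩),
      Nat.card_eq_zero.mpr (Or.inl ⟨fun x => hno _ _ x.2.2.1 x.2.2.2⟩)]

end Pool.Agent.DPW


end

section

/-!
# FIXX: the numbers of characters fixed by one element, cyclic defect groups
-/

namespace Pool.Agent.DPX

open Pool.Agent.DP Pool.Agent.DPV Pool.Agent.DPB Pool.Agent.DPW Pool.Agent.Lib_helper13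
open Representation
open Pool.Agent.Lib_helper13.Dade (pCore DadeHolds dadeSum)

/-- MODULE FIXX -/
theorem FIXX_thm (h2 : Stmt_FXDX) : Stmt_FIXX := by
  classical
  intro G B C _ _ _ _ _ 𝔐 ℓ n _ hmax hℓ𝔐 ι κ ρ hL hC ω P₁ P x₀ hP c
  have hfin : Finite C := Finite.of_surjective ρ hL.surj
  by_cases hinv : ∀ b, ρ b ∈ Subgroup.zpowers c → ∀ g, ω (κ b g) = ω g
  · -- the counting statement for the subgroups of `⟨c⟩`
    have hcount : ∀ Γ : Subgroup C, Γ ≤ Subgroup.zpowers c →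
        ∑ θ ∈ irrOn (stb (∅ : Finset (Subgroup G))) with (∀ g, cg 𝔐 θ g = ω g),
          (Nat.card ↥((Stx κ ∅ θ).map ρ ⊓ Γ)) ^ 2 =
        ∑ ψ ∈ irrOn (stb {P₁}) with (∀ g, cg 𝔐 ψ g = ω g),
          (Nat.card ↥((Stx κ {P₁} ψ).map ρ ⊓ Γ)) ^ 2 := by
      intro Γ hΓ
      have : Fintype (Γ.comap ρ) := Fintype.ofFinite _
      have h3 := h2 G (Γ.comap ρ) Γ 𝔐 ℓ n hmax hℓ𝔐 (FIXV.iotaR hL.cl Γ)
        (κ.comp (Γ.comap ρ).subtype) (FIXV.rhoR ρ Γ) (FIXW.locV_restr hL Γ)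
        (fun h => hC (h.trans (Subgroup.card_subgroup_dvd_card Γ)))
        (by
          rintro ⟨x, hx⟩ ⟨y, hy⟩
          obtain ⟨k, rfl⟩ := Subgroup.mem_zpowers_iff.mp (hΓ hx)
          obtain ⟨l, rfl⟩ := Subgroup.mem_zpowers_iff.mp (hΓ hy)
          apply Subtype.ext
          change c ^ k * c ^ l = c ^ l * c ^ k
          rw [← zpow_add, ← zpow_add, add_comm])
        ω P₁ P x₀ hP (fun b g => hinv b (hΓ b.2) g)
      simp only [FIXW.card_map_restr] at h3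
      exact h3
    have h4 := FXC_thm C
      ↥((irrOn (stb (∅ : Finset (Subgroup G)))).filter (fun θ => ∀ g, cg 𝔐 θ g = ω g))
      ↥((irrOn (stb ({P₁} : Finset (Subgroup G)))).filter (fun θ => ∀ g, cg 𝔐 θ g = ω g)) c
      (fun i => (Stx κ ∅ i.1).map ρ) (fun i => (Stx κ {P₁} i.1).map ρ) (by
        intro Γ hΓ
        exact (Finset.sum_coe_sort _
          (fun θ : G → ℂ => (Nat.card ↥((Stx κ ∅ θ).map ρ ⊓ Γ)) ^ 2)).trans
            ((hcount Γ hΓ).trans (Finset.sum_coe_sort _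
              (fun θ : G → ℂ => (Nat.card ↥((Stx κ {P₁} θ).map ρ ⊓ Γ)) ^ 2)).symm))
    have hcard : ∀ σ : Finset (Subgroup G),
        Nat.card {θ : G → ℂ // IrrOn (stb σ) θ ∧ (∀ g, cg 𝔐 θ g = ω g) ∧
          c ∈ (Stx κ σ θ).map ρ} =
        Nat.card {i : ↥((irrOn (stb σ)).filter (fun θ => ∀ g, cg 𝔐 θ g = ω g)) //
          c ∈ (Stx κ σ i.1).map ρ} := by
      intro σ
      refine Nat.card_congr ⟨fun x => ⟨⟨x.1, Finset.mem_filter.mpr
        ⟨IRRPI.mem_irrOn.mpr x.2.1, x.2.2.1⟩⟩, x.2.2.2⟩,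
        fun y => ⟨y.1.1, IRRPI.mem_irrOn.mp (Finset.mem_filter.mp y.1.2).1,
          (Finset.mem_filter.mp y.1.2).2, y.2⟩, fun x => rfl, fun y => rfl⟩
    rw [hcard ∅, hcard {P₁}]
    exact h4
  · have hno : ∀ (σ : Finset (Subgroup G)) (θ : G → ℂ), (∀ g, cg 𝔐 θ g = ω g) →
        c ∉ (Stx κ σ θ).map ρ := by
      intro σ θ hθ hc
      exact hinv fun b hb g => FIXW.inv_of_mem 𝔐 hL.cl hθ hc b hb g
    rw [Nat.card_eq_zero.mpr (Or.inl ⟨fun x => hno _ _ x.2.2.1 x.2.2.2⟩),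
      Nat.card_eq_zero.mpr (Or.inl ⟨fun x => hno _ _ x.2.2.1 x.2.2.2⟩)]

end Pool.Agent.DPX


end
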