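import Mathlib
import Pool.Agent.DAM.C14
import Pool.Agent.DAM.C22
import Pool.Agent.DAM.C51
import Pool.Agent.DAM.C89
import Pool.Agent.DAM.C90

/-! Parts: DPW.LEQB, DPX.LEQX, DPX.FXDX -/

section

/-!
# LEQB: the irreducible representations of the block and of the local block
-/

namespace Pool.Agent.DPW

open Pool.Agent.DPB Pool.Agent.Lib_helper13 Representation

namespace LEQB

/-- The block of an irreducible representation is seen on its trace function. -/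
theorem fix_iff {F H V : Type} [Field F] [IsAlgClosed F] [Group H] [Fintype H]
    [AddCommGroup V] [Module F V] [Module.Finite F V] (ρ : Representation F H V)
    (hρ : ρ.IsIrreducible) (z : H → F) (hz : z ∈ CF F H) :
    Lz z ρ.character = ρ.character ↔ Zop ρ z = 1 := by
  obtain ⟨h0, h1⟩ := bre_all F H V ρ hρ
  obtain ⟨μ, hμ, hμ'⟩ := h1 z hz
  rw [hμ, hμ']
  constructor
  · intro h
    have h' : (μ - 1) • ρ.character = 0 := by rw [sub_smul, h, one_smul, sub_self]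
    rcases smul_eq_zero.1 h' with h'' | h''
    · rw [sub_eq_zero.1 h'', one_smul]
    · exact absurd h'' h0
  · intro h
    have h' : (μ - 1) • (1 : Module.End F V) = 0 := by rw [sub_smul, h, one_smul, sub_self]
    rcases smul_eq_zero.1 h' with h'' | h''
    · rw [sub_eq_zero.1 h'', one_smul]
    · exfalso
      apply h0
      funext g
      have h2 : ρ g = 0 := by
        rw [← mul_one (ρ g), h'', mul_zero]
      rw [Representation.character, h2]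
      exact map_zero _

/-- The relation between trace functions. -/
def Rel {F T : Type} [Field F] [Group T] [Fintype T] (P : Subgroup T) [Fintype (NP P)]
    (e : T → F) (φ : T → F) (θ : NP P → F) : Prop :=
  ∃ (n : ℕ) (ρ : Representation F T (Fin n → F)) (m : ℕ)
    (σ : Representation F (NP P) (Fin m → F)), ρ.IsIrreducible ∧ ρ.character = φ ∧
      Zop ρ e = 1 ∧ σ.IsIrreducible ∧ σ.character = θ ∧ Zop σ (brz P e) = 1 ∧ Emb P ρ σ

end LEQB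

open _root_.Pool.Agent.DPW.LEQB in
/-- LEQB: the irreducible representations of the block and of the local block. -/
theorem LEQB_thm (h1 : Stmt_KAIB) (h2 : Stmt_KAHB) (h3 : Stmt_KBB) (h4 : Stmt_KCB)
    (h5 : Stmt_KDB) : Stmt_LEQB := by
  intro ℓ _ F T _ _ _ _ _ P _ x₀ e hB hNP
  have hz : e ∈ CF F T := hB.cf
  have hz' : brz P e ∈ CF F (NP P) := DPB.LEQ.brz_mem P hz
  -- uniqueness
  have hu1 : ∀ (φ : T → F) (θ θ' : NP P → F), Rel P e φ θ → Rel P e φ θ' → θ = θ' := by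
    rintro φ θ θ' ⟨n, ρ, m, σ, hρ, rfl, hρe, hσ, rfl, hσe, hE⟩
      ⟨n', ρ', m', σ', hρ', hφ', hρe', hσ', rfl, hσe', hE'⟩
    obtain ⟨e', he⟩ := bru_all F T (Fin n' → F) (Fin n → F) ρ' ρ hρ' hρ hφ'
    exact h3 ℓ F T (Fin n → F) (Fin m → F) (Fin m' → F) P x₀ e hB ρ σ σ' hρ hσ hσ' hσe hσe' hE
      (DPB.LEQ.emb_left P ρ' ρ σ' e' he hE')
  have hu2 : ∀ (φ φ' : T → F) (θ : NP P → F), Rel P e φ θ → Rel P e φ' θ → φ = φ' := by
    rintro φ φ' θ ⟨n, ρ, m, σ, hρ, rfl, hρe, hσ, rfl, hσe, hE⟩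
      ⟨n', ρ', m', σ', hρ', rfl, hρe', hσ', hθ', hσe', hE'⟩
    obtain ⟨e', he⟩ := bru_all F (NP P) (Fin m → F) (Fin m' → F) σ σ' hσ hσ' hθ'.symm
    exact h4 ℓ F T (Fin n → F) (Fin n' → F) (Fin m → F) P x₀ e hB ρ ρ' σ hρ hρ' hσ hσe hE
      (DPB.LEQ.emb_right P ρ' σ σ' e' he hE')
  -- existence
  have he1 : ∀ φ : T → F, IsBr F φ → Lz e φ = φ → ∃ θ, Rel P e φ θ := by
    rintro φ ⟨n, ρ, hρ, rfl⟩ hφ
    have hρe := (fix_iff ρ hρ e hz).1 hφ
    obtain ⟨m, σ, hσ, hσe, hE⟩ := h5 ℓ F T (Fin n → F) P x₀ e hB ρ hρe (hNP n ρ hρ hρe)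
    exact ⟨σ.character, n, ρ, m, σ, hρ, rfl, hρe, hσ, rfl, hσe, hE⟩
  have he2 : ∀ θ : NP P → F, IsBr F θ → Lz (brz P e) θ = θ →
      ∃ φ, (IsBr F φ ∧ Lz e φ = φ) ∧ Rel P e φ θ := by
    rintro θ ⟨m, σ, hσ, rfl⟩ hθ
    have hσe := (fix_iff σ hσ (brz P e) hz').1 hθ
    obtain ⟨n, ρ, hE, hρe⟩ := h1 ℓ F T (Fin m → F) P x₀ e hB σ hσ hσe
    obtain ⟨n', ρ', hρ', hE', hρe'⟩ := h2 ℓ F T (Fin m → F) (Fin n → F) P x₀ e hB ρ σ hσ hσe
      hρe hE
    exact ⟨ρ'.character, ⟨⟨n', ρ', hρ', rfl⟩, (fix_iff ρ' hρ' e hz).2 hρe'⟩, n', ρ', m, σ, hρ',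
      rfl, hρe', hσ, rfl, hσe, hE'⟩
  have hbr : ∀ (φ : T → F) (θ : NP P → F), Rel P e φ θ → IsBr F θ ∧ Lz (brz P e) θ = θ := by
    rintro φ θ ⟨n, ρ, m, σ, hρ, rfl, hρe, hσ, rfl, hσe, hE⟩
    exact ⟨⟨m, σ, hσ, rfl⟩, (fix_iff σ hσ (brz P e) hz').2 hσe⟩
  choose f hf using he1
  refine Nat.card_congr (Equiv.ofBijective (fun φ => ⟨f φ.1 φ.2.1 φ.2.2,
    hbr _ _ (hf φ.1 φ.2.1 φ.2.2)⟩) ⟨?_, ?_⟩)
  · rintro ⟨φ, hφ⟩ ⟨φ', hφ'⟩ h
    have h' : f φ hφ.1 hφ.2 = f φ' hφ'.1 hφ'.2 := congrArg Subtype.val h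
    apply Subtype.ext
    have k1 := hf φ hφ.1 hφ.2
    have k2 := hf φ' hφ'.1 hφ'.2
    rw [← h'] at k2
    exact hu2 φ φ' _ k1 k2
  · rintro ⟨θ, hθ, hθ'⟩
    obtain ⟨φ, hφ, hR⟩ := he2 θ hθ hθ'
    refine ⟨⟨φ, hφ⟩, Subtype.ext ?_⟩
    exact hu1 φ _ _ (hf φ hφ.1 hφ.2) hR

end Pool.Agent.DPW


end

section

/-!
# Theorem X, module LEQX: the irreducible representations of the block and of the local block
-/

namespace Pool.Agent.DPX

open Pool.Agent.DPB Pool.Agent.DPW Pool.Agent.Lib_helper13 Representation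

namespace LEQX

section tr

variable {F H V V' W W' : Type} [Field F] [Group H] [Fintype H] [AddCommGroup V] [Module F V]
  [AddCommGroup V'] [Module F V'] [AddCommGroup W] [Module F W] [AddCommGroup W'] [Module F W']

theorem comp_tr1 (σ : Representation F H W) (ρ : Representation F H V)
    (ρ' : Representation F H V') (f : W →ₗ[F] V) (Φ : V →ₗ[F] V') (hΦ : Eqv ρ ρ' Φ) :
    Φ ∘ₗ tr1 σ ρ f = tr1 σ ρ' (Φ ∘ₗ f) := by
  ext w
  simp only [tr1, LinearMap.comp_apply, LinearMap.sum_apply, map_sum]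
  exact Finset.sum_congr rfl fun h _ => hΦ h _

theorem tr1_comp (σ : Representation F H W) (σ' : Representation F H W')
    (ρ : Representation F H V) (f : W →ₗ[F] V) (Φ : W' →ₗ[F] W) (hΦ : Eqv σ' σ Φ) :
    tr1 σ ρ f ∘ₗ Φ = tr1 σ' ρ (f ∘ₗ Φ) := by
  ext w
  simp only [tr1, LinearMap.comp_apply, LinearMap.sum_apply]
  exact Finset.sum_congr rfl fun h _ => by rw [hΦ h⁻¹ w]

theorem tr1_neg (σ : Representation F H W) (ρ : Representation F H V) (f : W →ₗ[F] V) :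
    tr1 σ ρ (-f) = -tr1 σ ρ f := by
  ext w
  simp only [tr1, LinearMap.comp_apply, LinearMap.sum_apply, LinearMap.neg_apply, map_neg,
    Finset.sum_neg_distrib]

/-- The operator of a function commutes with equivariant maps. -/
theorem zop_eqv (σ : Representation F H W) (ρ : Representation F H V) (j : W →ₗ[F] V)
    (hj : Eqv σ ρ j) (z : H → F) : Zop ρ z ∘ₗ j = j ∘ₗ Zop σ z := by
  ext w
  simp only [Zop, LinearMap.comp_apply, LinearMap.sum_apply, LinearMap.smul_apply, map_sum,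
    map_smul]
  exact Finset.sum_congr rfl fun h _ => by rw [hj h w]

end tr

section emb

variable {F T V V' W W' : Type} [Field F] [Group T] [Fintype T] [AddCommGroup V] [Module F V]
  [AddCommGroup V'] [Module F V'] [AddCommGroup W] [Module F W] [AddCommGroup W'] [Module F W']

omit [Fintype T] in
/-- Change of the large representation. -/
theorem emb_left (P : Subgroup T) [Fintype (NP P)] (ρ : Representation F T V)
    (ρ' : Representation F T V') (σ : Representation F (NP P) W) (e : V ≃ₗ[F] V')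
    (he : ∀ g v, e (ρ g v) = ρ' g (e v)) (h : EmbX P ρ σ) : EmbX P ρ' σ := by
  obtain ⟨j, hj, hp⟩ := h
  refine ⟨e.toLinearMap ∘ₗ j, fun n u => ?_, ?_⟩
  · have h1 : j (σ n u) = ρ (n : T) (j u) := hj n u
    show e (j (σ n u)) = ρ' (n : T) (e (j u))
    rw [h1, he]
  · rintro ⟨f, hf⟩
    apply hp
    refine ⟨e.symm.toLinearMap ∘ₗ f, ?_⟩
    have he' : Eqv (rN P ρ') (rN P ρ) e.symm.toLinearMap := by
      intro n v
      show e.symm (ρ' (n : T) v) = ρ (n : T) (e.symm v)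
      rw [LinearEquiv.symm_apply_eq, he, e.apply_symm_apply]
    rw [← comp_tr1 σ (rN P ρ') (rN P ρ) f _ he', ← hf]
    ext w
    show j w = e.symm (e (j w))
    rw [e.symm_apply_apply]

omit [Fintype T] in
/-- Change of the small representation. -/
theorem emb_right (P : Subgroup T) [Fintype (NP P)] (ρ : Representation F T V)
    (σ : Representation F (NP P) W) (σ' : Representation F (NP P) W') (e : W ≃ₗ[F] W')
    (he : ∀ g v, e (σ g v) = σ' g (e v)) (h : EmbX P ρ σ') : EmbX P ρ σ := by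
  obtain ⟨j, hj, hp⟩ := h
  refine ⟨j ∘ₗ e.toLinearMap, fun n u => ?_, ?_⟩
  · have h1 : j (σ' n (e u)) = ρ (n : T) (j (e u)) := hj n (e u)
    show j (e (σ n u)) = ρ (n : T) (j (e u))
    rw [he, h1]
  · rintro ⟨f, hf⟩
    apply hp
    refine ⟨f ∘ₗ e.symm.toLinearMap, ?_⟩
    have he' : Eqv σ' σ e.symm.toLinearMap := by
      intro n v
      show e.symm (σ' n v) = σ n (e.symm v)
      rw [LinearEquiv.symm_apply_eq, he, e.apply_symm_apply]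
    rw [← tr1_comp σ σ' (rN P ρ) f _ he', ← hf]
    ext w
    show j w = j (e (e.symm w))
    rw [e.apply_symm_apply]

end emb

/-- The relation between trace functions. -/
def Rel {F T : Type} [Field F] [Group T] [Fintype T] (P : Subgroup T) [Fintype (NP P)]
    (e : T → F) (φ : T → F) (θ : NP P → F) : Prop :=
  ∃ (n : ℕ) (ρ : Representation F T (Fin n → F)) (m : ℕ)
    (σ : Representation F (NP P) (Fin m → F)), ρ.IsIrreducible ∧ ρ.character = φ ∧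
      Zop ρ e = 1 ∧ σ.IsIrreducible ∧ σ.character = θ ∧ Zop σ (brz P e) = 1 ∧ EmbX P ρ σ

end LEQX

open _root_.Pool.Agent.DPX.LEQX in
/-- LEQX: the irreducible representations of the block and of the local block. -/
theorem LEQX_thm (h1 : Stmt_BKNX) (_h2 : Stmt_PRMX) (h3 : Stmt_KEX) (h4 : Stmt_KAIX)
    (h5 : Stmt_KAHX) (h6 : Stmt_KDX) (h7 : Stmt_NPRX) (h8 : Stmt_KBX) (h9 : Stmt_KCX) :
    Stmt_LEQX := by
  intro ℓ k _ F T _ _ _ _ _ P₁ P _ x₀ e hB hPrm hNIX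
  have hz : e ∈ CF F T := hB.cf
  obtain ⟨hz', hid⟩ := h1.1 ℓ F T P₁ hB.cd.c1 e hz e hz
  rw [hB.idem] at hid
  -- uniqueness
  have hu1 : ∀ (φ : T → F) (θ θ' : NP P₁ → F), Rel P₁ e φ θ → Rel P₁ e φ θ' → θ = θ' := by
    rintro φ θ θ' ⟨n, ρ, m, σ, hρ, rfl, hρe, hσ, rfl, hσe, hE⟩
      ⟨n', ρ', m', σ', hρ', hφ', hρe', hσ', rfl, hσe', hE'⟩
    obtain ⟨e', he⟩ := bru_all F T (Fin n' → F) (Fin n → F) ρ' ρ hρ' hρ hφ'
    exact h8 ℓ k F T (Fin n → F) (Fin m → F) (Fin m' → F) P₁ P x₀ e hB hPrm hNIX ρ σ σ' hρ hσ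
      hσ' hσe hσe' hE (emb_left P₁ ρ' ρ σ' e' he hE')
  have hu2 : ∀ (φ φ' : T → F) (θ : NP P₁ → F), Rel P₁ e φ θ → Rel P₁ e φ' θ → φ = φ' := by
    rintro φ φ' θ ⟨n, ρ, m, σ, hρ, rfl, hρe, hσ, rfl, hσe, hE⟩
      ⟨n', ρ', m', σ', hρ', rfl, hρe', hσ', hθ', hσe', hE'⟩
    obtain ⟨e', he⟩ := bru_all F (NP P₁) (Fin m → F) (Fin m' → F) σ σ' hσ hσ' hθ'.symm
    exact h9 ℓ k F T (Fin n → F) (Fin n' → F) (Fin m → F) P₁ P x₀ e hB hPrm hNIX ρ ρ' σ hρ hρ'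
      hσ hσe hE (emb_right P₁ ρ' σ σ' e' he hE')
  -- existence
  have he1 : ∀ φ : T → F, IsBr F φ → Lz e φ = φ → ∃ θ, Rel P₁ e φ θ := by
    rintro φ ⟨n, ρ, hρ, rfl⟩ hφ
    have hρe := (LEQB.fix_iff ρ hρ e hz).1 hφ
    obtain ⟨-, h10, -⟩ := h7 ℓ k F T (Fin n → F) P₁ P x₀ e hB hPrm ρ hρ hρe
    obtain ⟨m, σ, j, hσ, hσe, hj, hjp⟩ := h6 F (NP P₁) (Fin n → F) (rN P₁ ρ) (brz P₁ e) hz'
      hid.symm h10
    exact ⟨σ.character, n, ρ, m, σ, hρ, rfl, hρe, hσ, rfl, hσe, j, hj, hjp⟩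
  have he2 : ∀ θ : NP P₁ → F, IsBr F θ → Lz (brz P₁ e) θ = θ →
      ∃ φ, (IsBr F φ ∧ Lz e φ = φ) ∧ Rel P₁ e φ θ := by
    rintro θ ⟨m, σ, hσ, rfl⟩ hθ
    have hσe := (LEQB.fix_iff σ hσ (brz P₁ e) hz').1 hθ
    obtain ⟨n, ρ, hE⟩ := h4 ℓ F T (Fin m → F) P₁ hB.cd.c1 σ hσ
    obtain ⟨n', ρ', hρ', hE'⟩ := h5 F T (Fin m → F) (Fin n → F) P₁ ρ σ hE
    have hρe' : Zop ρ' e = 1 := by
      obtain ⟨-, hev⟩ := bre_all F T (Fin n' → F) ρ' hρ'
      obtain ⟨μ, hμ, -⟩ := hev e hz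
      have h10 : Zop ρ' e * Zop ρ' e = Zop ρ' e := by
        rw [← RPRB.zop_cvF, hB.idem]
      by_cases h0 : μ = 0
      · exfalso
        obtain ⟨j, hj, hjp⟩ := hE'
        have h11 : Zop (rN P₁ ρ') (brz P₁ e) ∘ₗ j = j := by
          rw [zop_eqv σ (rN P₁ ρ') j hj, hσe]
          rfl
        obtain ⟨g, hg⟩ := (h3 ℓ k F T (Fin n' → F) P₁ P x₀ e hB ρ').2 (Fin m → F) σ j hj h11
        rw [hμ, h0, zero_smul] at hg
        apply hjp
        refine ⟨-g, ?_⟩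
        rw [tr1_neg]
        have h12 : (0 : Module.End F (Fin n' → F)) ∘ₗ j = 0 := LinearMap.zero_comp j
        rw [h12] at hg
        exact eq_neg_of_add_eq_zero_left hg.symm
      · rw [hμ, smul_mul_smul_comm, mul_one, mul_smul] at h10
        have h11 := (smul_right_injective (Module.End F (Fin n' → F)) h0) h10
        rw [hμ]
        exact h11
    exact ⟨ρ'.character, ⟨⟨n', ρ', hρ', rfl⟩, (LEQB.fix_iff ρ' hρ' e hz).2 hρe'⟩, n', ρ', m, σ,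
      hρ', rfl, hρe', hσ, rfl, hσe, hE'⟩
  have hbr : ∀ (φ : T → F) (θ : NP P₁ → F), Rel P₁ e φ θ →
      IsBr F θ ∧ Lz (brz P₁ e) θ = θ := by
    rintro φ θ ⟨n, ρ, m, σ, hρ, rfl, hρe, hσ, rfl, hσe, hE⟩
    exact ⟨⟨m, σ, hσ, rfl⟩, (LEQB.fix_iff σ hσ (brz P₁ e) hz').2 hσe⟩
  choose f hf using he1
  refine Nat.card_congr (Equiv.ofBijective (fun φ => ⟨f φ.1 φ.2.1 φ.2.2,
    hbr _ _ (hf φ.1 φ.2.1 φ.2.2)⟩) ⟨?_, ?_⟩)
  · rintro ⟨φ, hφ⟩ ⟨φ', hφ'⟩ h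
    have h' : f φ hφ.1 hφ.2 = f φ' hφ'.1 hφ'.2 := congrArg Subtype.val h
    apply Subtype.ext
    have k1 := hf φ hφ.1 hφ.2
    have k2 := hf φ' hφ'.1 hφ'.2
    rw [← h'] at k2
    exact hu2 φ φ' _ k1 k2
  · rintro ⟨θ, hθ, hθ'⟩
    obtain ⟨φ, hφ, hR⟩ := he2 θ hθ hθ'
    refine ⟨⟨φ, hφ⟩, Subtype.ext ?_⟩
    exact hu1 φ _ _ (hf φ hφ.1 hφ.2) hR

end Pool.Agent.DPX


end

section

/-!
# Theorem X, module FXDX: the sums of the squares of the orders of the stabilizers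
-/

namespace Pool.Agent.DPX

open Pool.Agent.DP Pool.Agent.DPV Pool.Agent.DPB Pool.Agent.DPW Pool.Agent.Lib_helper13
open Representation

open Pool.Agent.DPW.FXD in
theorem FXDX_thm (h1 : Stmt_FXAX) (h3 : Stmt_FXGX) : Stmt_FXDX := by
  classical
  have h2 : Stmt_FXB := FXB_thm
  intro G B C _ _ _ _ _ 𝔐 ℓ n _ h𝔐 hℓ ι κ ρ hV hC hcomm ω P₁ P x₀ hP hinv
  have hprime : 𝔐.IsPrime := h𝔐.isPrime
  have hfin : Finite C := Finite.of_surjective ρ hV.surj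
  have hPch : IsCh ℓ (⊥ : Subgroup G) {P₁} := by
    constructor
    · intro D hD
      rw [Finset.mem_singleton] at hD
      subst hD
      refine ⟨IsPGroup.of_card (n := 1) (by rw [hP.cd.c1, pow_one]), bot_lt_iff_ne_bot.mpr ?_⟩
      intro h
      have h4 := hP.cd.c1
      rw [h, Subgroup.card_bot] at h4
      exact (Fact.out : ℓ.Prime).one_lt.ne h4
    · simp
  by_cases hex : ∃ θ : G → ℂ, IsIrr θ ∧ cen 𝔐 (MonoidHom.id G) θ = ω
  · have hA := h1 G B C 𝔐 ℓ n h𝔐 hℓ ι κ ρ hV hC ω P₁ P x₀ hP hinv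
    have hG := h3 G B C 𝔐 ℓ n h𝔐 hℓ ι κ ρ hV.locN ω P₁ P x₀ hP hinv hex
    have hB1 := h2 G B C ι κ ρ hV.cl hcomm (ext_0 hV)
      (fun θ => cen 𝔐 (MonoidHom.id G) θ = ω) (by
        intro b θ hθ
        funext g
        rw [cen_aut 𝔐 (MonoidHom.id G) (κ b) (κ b) (fun a => rfl) θ g, hθ, hinv])
    have hB2 := h2 (stb {P₁}) (YS ι {P₁}) C (jS hV.cl {P₁}) (cS hV.cl {P₁}) (pS ρ ι {P₁})
      (clG_S hV.cl {P₁}) hcomm (ext_S hV {P₁})
      (fun ψ => cen 𝔐 (stb {P₁}).subtype ψ = ω) (by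
        intro y ψ hψ
        funext g
        rw [cen_aut 𝔐 (stb {P₁}).subtype (cS hV.cl {P₁} y) (κ (y : B))
          (fun a => cS_apply hV.cl {P₁} y a) ψ g, hψ, hinv])
    rw [sum_0 𝔐 ω (fun θ => cen 𝔐 (MonoidHom.id G) θ = ω) (fun _ => Iff.rfl),
      sum_S 𝔐 hV.cl {P₁} ω (fun ψ => cen 𝔐 (stb {P₁}).subtype ψ = ω) (fun _ => Iff.rfl)]
    have hc1 : (Nat.card B : ℚ) = Nat.card G * Nat.card C := by
      exact_mod_cast card_Y hV.cl hV.surj
    have hsur : Function.Surjective (pS ρ ι {P₁}) := by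
      intro c
      have hc : c ∈ (YS ι {P₁}).map ρ := by rw [hG]; exact Subgroup.mem_top c
      obtain ⟨b, hb, rfl⟩ := hc
      exact ⟨⟨b, hb⟩, rfl⟩
    have hc2 : (Nat.card (YS ι {P₁}) : ℚ) = Nat.card (stb {P₁}) * Nat.card C := by
      exact_mod_cast card_Y (clG_S hV.cl {P₁}) hsur
    have hn1 : (Nat.card G : ℚ) ≠ 0 := by exact_mod_cast Nat.card_pos.ne'
    have hn2 : (Nat.card (stb {P₁}) : ℚ) ≠ 0 := by exact_mod_cast Nat.card_pos.ne'
    rw [← Finset.mul_sum, hc1, hA, mul_assoc] at hB1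
    rw [← Finset.mul_sum, hc2, mul_assoc] at hB2
    have e1 := mul_left_cancel₀ hn1 hB1
    have e2 := mul_left_cancel₀ hn2 hB2
    have e3 := e1.symm.trans e2
    exact_mod_cast e3
  · rw [Finset.sum_eq_zero, Finset.sum_eq_zero]
    · intro ψ hψ
      rw [Finset.mem_filter] at hψ
      exact absurd (exists_irr 𝔐 hℓ hPch hψ.1 hψ.2) hex
    · intro ψ hψ
      rw [Finset.mem_filter] at hψ
      exact absurd (exists_irr 𝔐 hℓ (isCh_empty ℓ ⊥) hψ.1 hψ.2) hex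

end Pool.Agent.DPX


end
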