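import Mathlib
import Pool.Agent.DAM.C109
import Pool.Agent.DAM.C11
import Pool.Agent.DAM.C14
import Pool.Agent.DAM.C20
import Pool.Agent.DAM.C22
import Pool.Agent.DAM.C23
import Pool.Agent.DAM.C26
import Pool.Agent.DAM.C27
import Pool.Agent.DAM.C32
import Pool.Agent.DAM.C49
import Pool.Agent.DAM.C90

/-! Parts: DPX.IDOX, DPT.COPR, DPT.CAT, DPK.PS2r, DPX.MATX -/

section

/-!
# IDOX: the block idempotents over the valuation ring
-/

namespace Pool.Agent.DPX

open Pool.Agent.DP Pool.Agent.DPV Pool.Agent.DPB Pool.Agent.DPW Pool.Agent.Lib_helper13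
open Representation

namespace IDOX

open LFT

set_option linter.unusedSectionVars false

section Conv

variable {T : Type} [Group T] [Fintype T] {A : Type} [CommRing A]

theorem cv_sub (a b c : T → A) : LFT.cv a (b - c) = LFT.cv a b - LFT.cv a c := by
  funext x
  simp only [LFT.cv, Pi.sub_apply, mul_sub, Finset.sum_sub_distrib]

theorem sub_cv (a b c : T → A) : LFT.cv (a - b) c = LFT.cv a c - LFT.cv b c := by
  funext x
  simp only [LFT.cv, Pi.sub_apply, sub_mul, Finset.sum_sub_distrib]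

theorem cv_assoc (a b c : T → A) : LFT.cv (LFT.cv a b) c = LFT.cv a (LFT.cv b c) := by
  funext x
  simp only [LFT.cv, Finset.sum_mul, Finset.mul_sum]
  rw [Finset.sum_comm]
  refine Finset.sum_congr rfl fun y _ => ?_
  refine Fintype.sum_equiv (Equiv.mulLeft y⁻¹) _ _ fun z => ?_
  rw [Equiv.coe_mulLeft, mul_assoc]
  congr 3
  group

theorem cv_comm (a : T → A) {b : T → A} (hb : ∀ g x, b (g * x * g⁻¹) = b x) :
    LFT.cv a b = LFT.cv b a := by
  funext x
  simp only [LFT.cv]
  refine Fintype.sum_equiv ((Equiv.inv T).trans (Equiv.mulLeft x)) _ _ fun y => ?_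
  change a y * b (y⁻¹ * x) = b (x * y⁻¹) * a ((x * y⁻¹)⁻¹ * x)
  have h1 : (x * y⁻¹)⁻¹ * x = y := by group
  have h2 : b (x * y⁻¹) = b (y⁻¹ * x) := by
    rw [← hb x (y⁻¹ * x)]
    congr 1
    group
  rw [h1, h2, mul_comm]

theorem sub_class {a b : T → A} (ha : ∀ g x, a (g * x * g⁻¹) = a x)
    (hb : ∀ g x, b (g * x * g⁻¹) = b x) (g x : T) : (a - b) (g * x * g⁻¹) = (a - b) x := by
  rw [Pi.sub_apply, Pi.sub_apply, ha, hb]

/-- difference of an idempotent and its product with a commuting idempotent -/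
theorem idem_sub {e f : T → A} (he : LFT.cv e e = e) (hf : LFT.cv f f = f) (hc : LFT.cv f e = LFT.cv e f) :
    LFT.cv (e - LFT.cv e f) (e - LFT.cv e f) = e - LFT.cv e f := by
  have h1 : LFT.cv e (LFT.cv e f) = LFT.cv e f := by rw [← cv_assoc, he]
  have h2 : LFT.cv (LFT.cv e f) e = LFT.cv e f := by rw [cv_assoc, hc, ← cv_assoc, he]
  have h3 : LFT.cv (LFT.cv e f) (LFT.cv e f) = LFT.cv e f := by
    rw [← cv_assoc, h2, cv_assoc, hf]
  rw [sub_cv, cv_sub, cv_sub, he, h1, h2, h3, sub_self, sub_zero]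

open Classical in
/-- the unit -/
noncomputable def un (c : A) (x : T) : A := if x = 1 then c else 0

theorem un_class (c : A) (g x : T) : un (T := T) c (g * x * g⁻¹) = un c x := by
  by_cases h : x = 1
  · have h' : g * x * g⁻¹ = 1 := by rw [h]; group
    rw [un, un, if_pos h', if_pos h]
  · have h' : g * x * g⁻¹ ≠ 1 := by
      intro e
      rw [mul_inv_eq_one, mul_eq_left] at e
      exact h e
    rw [un, un, if_neg h', if_neg h]

theorem cv_un (a : T → A) (c : A) : LFT.cv a (un c) = fun x => a x * c := by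
  classical
  funext x
  simp only [LFT.cv]
  rw [Finset.sum_eq_single x]
  · rw [un, if_pos (inv_mul_cancel x)]
  · intro y _ hy
    rw [un, if_neg, mul_zero]
    intro h
    exact hy (inv_mul_eq_one.1 h)
  · intro h
    exact absurd (Finset.mem_univ _) h

end Conv

section C

variable {T : Type} [Group T] [Fintype T]

theorem wt_un {χ : T → ℂ} (hχ : IsIrr χ) (c : ℂ) : wt χ (un c) = c := by
  classical
  rw [wt, Finset.sum_eq_single 1]
  · rw [un, if_pos rfl, mul_div_assoc, div_self hχ.one_ne_zero, mul_one]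
  · intro b _ hb
    rw [un, if_neg hb, zero_mul]
  · simp

theorem wt_sub (χ a b : T → ℂ) : wt χ (a - b) = wt χ a - wt χ b := by
  simp only [wt, Pi.sub_apply, sub_mul, Finset.sum_sub_distrib, sub_div]

/-- a class function is determined by its `wt` -/
theorem eq_zero_of_wt {z : T → ℂ} (hz : ∀ g x, z (g * x * g⁻¹) = z x)
    (h : ∀ χ, IsIrr χ → wt χ z = 0) : z = 0 := by
  have h1 : (fun h => z h⁻¹) = 0 := by
    apply class_fn_eq_zero
    · intro g x
      have : (g * x * g⁻¹)⁻¹ = g * x⁻¹ * g⁻¹ := by group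
      rw [this, hz]
    · intro χ hχ
      have h3 := h χ hχ
      rw [wt, div_eq_zero_iff] at h3
      have h4 := h3.resolve_right hχ.one_ne_zero
      rw [← h4]
      exact Fintype.sum_equiv (Equiv.inv T) _ _ fun g => rfl
  funext x
  have h3 := congrFun h1 x⁻¹
  simp only [inv_inv, Pi.zero_apply] at h3
  exact h3

/-- a class function in terms of its `wt` -/
theorem expand {z : T → ℂ} (hz : ∀ g x, z (g * x * g⁻¹) = z x) (x : T) :
    z x = (∑ χ ∈ irrF T, wt χ z * (χ 1 * χ x⁻¹)) / Nat.card T := by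
  have h := congrFun (class_fn_expand (fun h => z h⁻¹) (by
    intro g x
    have : (g * x * g⁻¹)⁻¹ = g * x⁻¹ * g⁻¹ := by group
    rw [this, hz])) x⁻¹
  simp only [inv_inv] at h
  rw [h, Finset.sum_div]
  refine Finset.sum_congr rfl fun χ hχ => ?_
  have hχ' := mem_irrF.1 hχ
  have h1 : ∑ g, z g⁻¹ * χ g⁻¹ = ∑ g, z g * χ g :=
    Fintype.sum_equiv (Equiv.inv T) _ _ fun g => rfl
  rw [ip, h1, wt]
  field_simp [hχ'.one_ne_zero]

end C

section O

variable {T : Type} [Group T] [Fintype T] {O : ValuationSubring ℂ}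

/-- complex values -/
def cx (a : T → O) : T → ℂ := fun x => (a x : ℂ)

theorem cx_class {a : T → O} (ha : ∀ g x, a (g * x * g⁻¹) = a x) (g x : T) :
    cx a (g * x * g⁻¹) = cx a x := by
  unfold cx
  rw [ha]

theorem cx_cv (a b : T → O) : cx (LFT.cv a b) = LFT.cv (cx a) (cx b) := by
  funext x
  exact cv_map O.subtype a b x

theorem cx_sub (a b : T → O) : cx (a - b) = cx a - cx b := rfl

theorem cx_un (c : O) : cx (un (T := T) c) = un (c : ℂ) := by
  funext x
  unfold cx un
  split_ifs <;> rfl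

theorem cx_inj {a b : T → O} (h : cx a = cx b) : a = b := by
  funext x
  exact Subtype.ext (congrFun h x)

/-- polynomials in a class function -/
theorem exists_poly (a : T → O) (ha : ∀ g x, a (g * x * g⁻¹) = a x) (p : Polynomial O) :
    ∃ e : T → O, (∀ g x, e (g * x * g⁻¹) = e x) ∧ ∀ χ : T → ℂ, IsIrr χ → ∀ w : O,
      (w : ℂ) = wt χ (cx a) → wt χ (cx e) = ((p.eval w : O) : ℂ) := by
  induction p using Polynomial.induction_on with
  | C c =>
    refine ⟨un c, un_class c, fun χ hχ w hw => ?_⟩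
    rw [cx_un, wt_un hχ, Polynomial.eval_C]
  | add p q hp hq =>
    obtain ⟨e, he, h1⟩ := hp
    obtain ⟨e', he', h2⟩ := hq
    refine ⟨e + e', fun g x => by rw [Pi.add_apply, Pi.add_apply, he, he'],
      fun χ hχ w hw => ?_⟩
    have h3 : cx (e + e') = cx e + cx e' := rfl
    rw [h3, wt_add, h1 χ hχ w hw, h2 χ hχ w hw, Polynomial.eval_add]
    rfl
  | monomial n c h =>
    obtain ⟨e, he, h1⟩ := h
    refine ⟨LFT.cv e a, cv_class he ha, fun χ hχ w hw => ?_⟩
    have h2 : (Polynomial.C c * Polynomial.X ^ (n + 1)).eval w =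
        (Polynomial.C c * Polynomial.X ^ n).eval w * w := by
      rw [pow_succ, ← mul_assoc, Polynomial.eval_mul, Polynomial.eval_X]
    rw [cx_cv, wt_cv hχ (cx_class he) (cx_class ha), h1 χ hχ w hw, ← hw, h2]
    rfl

/-- an idempotent which is nilpotent vanishes -/
theorem eq_zero_of_idem (g : T → O) (hg : ∀ h x, g (h * x * h⁻¹) = g x)
    (hw : ∀ χ : T → ℂ, IsIrr χ → ∃ w : O, (w : ℂ) = wt χ (cx g) ∧
      IsLocalRing.residue O w = 0)
    (hi : LFT.cv (fun x => IsLocalRing.residue O (g x)) (fun x => IsLocalRing.residue O (g x)) =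
      fun x => IsLocalRing.residue O (g x)) (x : T) : IsLocalRing.residue O (g x) = 0 := by
  classical
  have key : ∀ S : Finset (T → ℂ), (∀ χ ∈ S, IsIrr χ) → ∃ d : T → O,
      (∀ h x, d (h * x * h⁻¹) = d x) ∧ (∀ χ ∈ S, wt χ (cx d) = 0) ∧
      (fun x => IsLocalRing.residue O (d x)) = fun x => IsLocalRing.residue O (g x) := by
    intro S
    induction S using Finset.induction_on with
    | empty =>
      intro _
      exact ⟨g, hg, fun χ hχ => absurd hχ (by simp), rfl⟩
    | insert χ S hχS ih =>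
      intro hS
      obtain ⟨d, hd, hd0, hd1⟩ := ih fun χ' h' => hS χ' (Finset.mem_insert_of_mem h')
      obtain ⟨w, hw1, hw2⟩ := hw χ (hS χ (Finset.mem_insert_self _ _))
      have hc := sub_class hg (un_class (T := T) w)
      refine ⟨LFT.cv d (g - un w), cv_class hd hc, ?_, ?_⟩
      · intro χ' hχ'
        have hi' := hS χ' hχ'
        rw [cx_cv, wt_cv hi' (cx_class hd) (cx_class hc), cx_sub, wt_sub, cx_un, wt_un hi']
        rcases Finset.mem_insert.1 hχ' with h | h
        · rw [h, ← hw1, sub_self, mul_zero]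
        · rw [hd0 χ' h, zero_mul]
      · funext y
        rw [cv_map (IsLocalRing.residue O), hd1]
        have e1 : (fun h => IsLocalRing.residue O ((g - un w : T → O) h)) =
            fun x => IsLocalRing.residue O (g x) := by
          funext h
          rw [Pi.sub_apply, map_sub]
          have : IsLocalRing.residue O (un w h) = 0 := by
            unfold un
            split_ifs
            · exact hw2
            · exact map_zero _
          rw [this, sub_zero]
        rw [e1]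
        exact congrFun hi y
  obtain ⟨d, hd, hd0, hd1⟩ := key (irrF T) fun χ hχ => mem_irrF.1 hχ
  have h0 : cx d = 0 := eq_zero_of_wt (cx_class hd) fun χ hχ => hd0 χ (mem_irrF.2 hχ)
  have h1 : d x = 0 := Subtype.ext (congrFun h0 x)
  rw [← congrFun hd1 x]
  change IsLocalRing.residue O (d x) = 0
  rw [h1, map_zero]

end O

section Red

variable {𝔐 : Ideal (integralClosure ℤ ℂ)} {ℓ : ℕ} {O : ValuationSubring ℂ}

theorem res_eq_zero (hO : VR ℓ 𝔐 O) {x : integralClosure ℤ ℂ} :
    IsLocalRing.residue O (hO.inc x) = 0 ↔ x ∈ 𝔐 := by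
  rw [IsLocalRing.residue_eq_zero_iff, ValuationSubring.valuation_lt_one_iff, hO.max]
  rfl

theorem isUnit_sub (hO : VR ℓ 𝔐 O) {x y : integralClosure ℤ ℂ}
    (h : red 𝔐 (x : ℂ) ≠ red 𝔐 (y : ℂ)) : IsUnit (hO.inc x - hO.inc y) := by
  rw [ValuationSubring.valuation_eq_one_iff]
  refine le_antisymm (ValuationSubring.valuation_le_one _ _) ?_
  by_contra hlt
  rw [not_le] at hlt
  have h1 : x - y ∈ 𝔐 := by
    rw [hO.max]
    exact hlt
  apply h
  rw [red_of_integral 𝔐 x.2, red_of_integral 𝔐 y.2]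
  exact Ideal.Quotient.eq.2 h1

end Red

end IDOX

open _root_.Pool.Agent.DPX.IDOX LFT in
theorem IDOX_thm : Stmt_IDOX := by
  classical
  intro 𝔐 ℓ _ hM hℓ O hO T _ _ χ₀ hχ₀
  obtain ⟨a, ha, hsep⟩ := SEP_thm ACF_thm T 𝔐 hM
  have hac : ∀ g x, (fun h => (a h : ℂ)) (g * x * g⁻¹) = (fun h => (a h : ℂ)) x := by
    intro g x
    change ((a (g * x * g⁻¹) : integralClosure ℤ ℂ) : ℂ) = a x
    rw [ha]
  have hint : ∀ (b : T → integralClosure ℤ ℂ), (∀ g x, b (g * x * g⁻¹) = b x) →
      ∀ χ : T → ℂ, IsIrr χ → IsIntegral ℤ (wt χ (fun h => (b h : ℂ))) := by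
    intro b hb χ hχ
    refine isIntegral_wt hχ _ (fun g x => ?_) fun y => (b y).2
    change ((b (g * x * g⁻¹) : integralClosure ℤ ℂ) : ℂ) = b x
    rw [hb]
  let W : (T → ℂ) → integralClosure ℤ ℂ := fun χ =>
    if h : IsIntegral ℤ (wt χ (fun h => (a h : ℂ))) then ⟨_, h⟩ else 0
  have hW : ∀ χ, IsIrr χ → ((W χ : integralClosure ℤ ℂ) : ℂ) = wt χ (fun h => (a h : ℂ)) := by
    intro χ hχ
    simp only [W]
    rw [dif_pos (hint a ha χ hχ)]
  let B : (T → ℂ) → Prop := fun χ => cen 𝔐 (MonoidHom.id T) χ = cen 𝔐 (MonoidHom.id T) χ₀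
  let f1 : Polynomial O := ∏ χ ∈ (irrF T).filter B,
    (Polynomial.X - Polynomial.C (hO.inc (W χ)))
  let f2 : Polynomial O := ∏ χ ∈ (irrF T).filter (fun χ => ¬ B χ),
    (Polynomial.X - Polynomial.C (hO.inc (W χ)))
  have hcop : IsCoprime f1 f2 := by
    refine IsCoprime.prod_left fun χ hχ => IsCoprime.prod_right fun χ' hχ' => ?_
    apply Polynomial.isCoprime_X_sub_C_of_isUnit_sub
    rw [Finset.mem_filter, mem_irrF] at hχ hχ'
    apply isUnit_sub hO
    rw [hW χ hχ.1, hW χ' hχ'.1]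
    intro h
    exact hχ'.2 (((hsep χ χ' hχ.1 hχ'.1).2 h).symm.trans hχ.2)
  obtain ⟨u, v, huv⟩ := hcop
  have hev : ∀ χ, IsIrr χ → (v * f2).eval (hO.inc (W χ)) = if B χ then 1 else 0 := by
    intro χ hχ
    split_ifs with hB
    · have h1 := congrArg (Polynomial.eval (hO.inc (W χ))) huv
      have h2 : f1.eval (hO.inc (W χ)) = 0 := by
        simp only [f1]
        rw [Polynomial.eval_prod]
        refine Finset.prod_eq_zero (Finset.mem_filter.2 ⟨mem_irrF.2 hχ, hB⟩) ?_
        simp
      rw [Polynomial.eval_add, Polynomial.eval_mul, h2, mul_zero, zero_add,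
        Polynomial.eval_one] at h1
      exact h1
    · have h2 : f2.eval (hO.inc (W χ)) = 0 := by
        simp only [f2]
        rw [Polynomial.eval_prod]
        refine Finset.prod_eq_zero (Finset.mem_filter.2 ⟨mem_irrF.2 hχ, hB⟩) ?_
        simp
      rw [Polynomial.eval_mul, h2, mul_zero]
  obtain ⟨eh, heh, hwt0⟩ := exists_poly (T := T) (fun x => hO.inc (a x))
    (fun g x => by rw [ha]) (v * f2)
  have hwt : ∀ χ : T → ℂ, IsIrr χ → wt χ (cx eh) = if B χ then 1 else 0 := by
    intro χ hχ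
    rw [hwt0 χ hχ (hO.inc (W χ)) (hW χ hχ), hev χ hχ]
    split_ifs <;> rfl
  have hidem : LFT.cv eh eh = eh := by
    apply cx_inj
    have h1 : cx (LFT.cv eh eh) - cx eh = 0 := by
      apply eq_zero_of_wt
      · exact sub_class (cx_class (cv_class heh heh)) (cx_class heh)
      · intro χ hχ
        rw [wt_sub, cx_cv, wt_cv hχ (cx_class heh) (cx_class heh), hwt χ hχ]
        split_ifs <;> simp
    exact sub_eq_zero.1 h1
  have hres : LFT.cv (fun x => IsLocalRing.residue O (eh x)) (fun x => IsLocalRing.residue O (eh x)) =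
      fun x => IsLocalRing.residue O (eh x) := by
    funext x
    rw [← cv_map (IsLocalRing.residue O), hidem]
  refine ⟨eh, heh, ?_, hwt, hres, ?_⟩
  · intro x
    have h1 := expand (cx_class heh) x
    change cx eh x = _
    rw [h1, Finset.sum_filter]
    congr 1
    refine Finset.sum_congr rfl fun χ hχ => ?_
    rw [hwt χ (mem_irrF.1 hχ)]
    split_ifs
    · rw [one_mul]
    · rw [zero_mul]
  · intro b hb hbi hbw
    have hbi' : LFT.cv (fun x => hO.res (b x)) (fun x => hO.res (b x)) = fun x => hO.res (b x) := hbi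
    -- the class function with values in `O`
    let c : T → O := fun x => hO.inc (b x)
    have hc : ∀ g x, c (g * x * g⁻¹) = c x := fun g x => by
      simp only [c]
      rw [hb]
    have hcr : (fun x => IsLocalRing.residue O (c x)) = fun x => hO.res (b x) := rfl
    have hcw : ∀ χ : T → ℂ, IsIrr χ → ∃ w : O, (w : ℂ) = wt χ (cx c) ∧
        IsLocalRing.residue O w = if B χ then 1 else 0 := by
      intro χ hχ
      refine ⟨hO.inc ⟨_, hint b hb χ hχ⟩, rfl, ?_⟩
      have h1 := hbw χ hχ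
      rw [red_of_integral 𝔐 (hint b hb χ hχ)] at h1
      split_ifs with hB
      · rw [if_pos hB] at h1
        have h2 : (⟨_, hint b hb χ hχ⟩ : integralClosure ℤ ℂ) - 1 ∈ 𝔐 := by
          rw [← Ideal.Quotient.eq, h1, map_one]
        have h3 := (res_eq_zero hO).2 h2
        rw [map_sub, map_sub, map_one, map_one, sub_eq_zero] at h3
        exact h3
      · rw [if_neg hB] at h1
        exact (res_eq_zero hO).2 (Ideal.Quotient.eq_zero_iff_mem.1 h1)
    -- the products
    have hec : LFT.cv c eh = LFT.cv eh c := cv_comm c heh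
    have hecr : LFT.cv (fun x => IsLocalRing.residue O (c x)) (fun x => IsLocalRing.residue O (eh x)) =
        LFT.cv (fun x => IsLocalRing.residue O (eh x)) (fun x => IsLocalRing.residue O (c x)) := by
      funext x
      rw [← cv_map (IsLocalRing.residue O), ← cv_map (IsLocalRing.residue O), hec]
    have hprod : (fun x => IsLocalRing.residue O (LFT.cv eh c x)) =
        LFT.cv (fun x => IsLocalRing.residue O (eh x)) (fun x => IsLocalRing.residue O (c x)) := by
      funext x
      exact cv_map (IsLocalRing.residue O) eh c x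
    have hwe : ∀ χ : T → ℂ, IsIrr χ → ∃ w : O, (w : ℂ) = wt χ (cx eh) ∧
        IsLocalRing.residue O w = if B χ then 1 else 0 := by
      intro χ hχ
      refine ⟨if B χ then 1 else 0, ?_, ?_⟩
      · rw [hwt χ hχ]
        split_ifs <;> rfl
      · split_ifs
        · exact map_one _
        · exact map_zero _
    have hwp : ∀ χ : T → ℂ, IsIrr χ → ∃ w : O, (w : ℂ) = wt χ (cx (LFT.cv eh c)) ∧
        IsLocalRing.residue O w = if B χ then 1 else 0 := by
      intro χ hχ
      obtain ⟨w1, h1, h1'⟩ := hwe χ hχ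
      obtain ⟨w2, h2, h2'⟩ := hcw χ hχ
      refine ⟨w1 * w2, ?_, ?_⟩
      · rw [cx_cv, wt_cv hχ (cx_class heh) (cx_class hc), ← h1, ← h2]
        rfl
      · rw [map_mul, h1', h2']
        split_ifs <;> simp
    -- the two differences
    have g1 : ∀ x, IsLocalRing.residue O ((eh - LFT.cv eh c : T → O) x) = 0 := by
      intro x
      refine eq_zero_of_idem (eh - LFT.cv eh c) (sub_class heh (cv_class heh hc)) ?_ ?_ x
      · intro χ hχ
        obtain ⟨w1, h1, h1'⟩ := hwe χ hχ
        obtain ⟨w2, h2, h2'⟩ := hwp χ hχ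
        refine ⟨w1 - w2, ?_, ?_⟩
        · rw [cx_sub, wt_sub, ← h1, ← h2]
          rfl
        · rw [map_sub, h1', h2', sub_self]
      · have e1 : (fun x => IsLocalRing.residue O ((eh - LFT.cv eh c : T → O) x)) =
            (fun x => IsLocalRing.residue O (eh x)) -
              LFT.cv (fun x => IsLocalRing.residue O (eh x)) (fun x => IsLocalRing.residue O (c x)) := by
          rw [← hprod]
          funext x
          rw [Pi.sub_apply, Pi.sub_apply, map_sub]
        rw [e1]
        exact idem_sub hres (by rw [hcr]; exact hbi') hecr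
    have g2 : ∀ x, IsLocalRing.residue O ((c - LFT.cv c eh : T → O) x) = 0 := by
      intro x
      refine eq_zero_of_idem (c - LFT.cv c eh) (sub_class hc (cv_class hc heh)) ?_ ?_ x
      · intro χ hχ
        obtain ⟨w1, h1, h1'⟩ := hcw χ hχ
        obtain ⟨w2, h2, h2'⟩ := hwp χ hχ
        refine ⟨w1 - w2, ?_, ?_⟩
        · rw [cx_sub, wt_sub, hec, ← h1, ← h2]
          rfl
        · rw [map_sub, h1', h2', sub_self]
      · have e1 : (fun x => IsLocalRing.residue O ((c - LFT.cv c eh : T → O) x)) =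
            (fun x => IsLocalRing.residue O (c x)) -
              LFT.cv (fun x => IsLocalRing.residue O (c x))
                (fun x => IsLocalRing.residue O (eh x)) := by
          rw [hecr, ← hprod, ← hec]
          funext x
          rw [Pi.sub_apply, Pi.sub_apply, map_sub]
        rw [e1]
        exact idem_sub (by rw [hcr]; exact hbi') hres hecr.symm
    intro x
    have h1 := g1 x
    have h2 := g2 x
    rw [Pi.sub_apply, map_sub, sub_eq_zero] at h1 h2
    rw [h1, ← hec, ← h2]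
    rfl

end Pool.Agent.DPX


end

section

/-!
# COPR: coprime action
-/

namespace Pool.Agent.DPT

namespace COPR

theorem prime_step {G : Type} [Group G] [Finite G] {q : ℕ} (hq : q.Prime) (H K : Subgroup G)
    (y : G) (hcard : ¬ q ∣ Nat.card K) (hKH : K ≤ H)
    (hyH : ∀ h ∈ H, y * h * y⁻¹ * h⁻¹ ∈ K) (hyK : ∀ k ∈ K, y * k * y⁻¹ ∈ K)
    (hyq : ∀ h ∈ H, y ^ q * h = h * y ^ q) (c : G) (hc : c ∈ H) :
    ∃ x ∈ K, ∃ c' ∈ H, c' * y = y * c' ∧ c = x * c' := by
  classical
  have : Fact q.Prime := ⟨hq⟩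
  have : Fintype K := Fintype.ofFinite K
  set f : K → K := fun x => ⟨y * x * y⁻¹ * (y * c * y⁻¹ * c⁻¹),
    K.mul_mem (hyK x x.2) (hyH c hc)⟩ with hf
  have hfc : ∀ x : K, ((f x : K) : G) * c = y * (x * c) * y⁻¹ := by
    intro x
    simp only [hf]
    group
  have hinj : Function.Injective f := by
    intro a b hab
    have h1 : ((f a : K) : G) * c = ((f b : K) : G) * c := by rw [hab]
    rw [hfc, hfc] at h1
    have h2 : (a : G) = b := by
      have h3 := mul_left_cancel (mul_right_cancel h1)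
      exact mul_right_cancel h3
    exact Subtype.ext h2
  have hbij : Function.Bijective f := Finite.injective_iff_bijective.mp hinj
  set σ : Equiv.Perm K := Equiv.ofBijective f hbij with hσ
  have hσf : ∀ x, σ x = f x := fun x => rfl
  have hpow : ∀ (i : ℕ) (x : K), (((σ ^ i) x : K) : G) * c = y ^ i * (x * c) * (y ^ i)⁻¹ := by
    intro i
    induction i with
    | zero => intro x; simp
    | succ i ih =>
      intro x
      rw [pow_succ' σ, Equiv.Perm.mul_apply, hσf, hfc, ih x, pow_succ' y, mul_inv_rev]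
      group
  have hσq : σ ^ q ^ 1 = 1 := by
    rw [pow_one]
    ext x
    have h1 := hpow q x
    have h2 : ((x : G) * c) ∈ H := H.mul_mem (hKH x.2) hc
    rw [hyq _ h2, mul_assoc, mul_inv_cancel, mul_one] at h1
    have h3 := mul_right_cancel h1
    rw [h3]
    rfl
  have hcard' : ¬ q ∣ Fintype.card K := by rwa [← Nat.card_eq_fintype_card]
  obtain ⟨x0, hx0⟩ := Equiv.Perm.exists_fixed_point_of_prime hcard' hσq
  have hfix : (x0 : G) * c = y * (x0 * c) * y⁻¹ := by
    have := hfc x0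
    rw [← hσf, hx0] at this
    exact this
  refine ⟨(x0 : G)⁻¹, K.inv_mem x0.2, x0 * c, H.mul_mem (hKH x0.2) hc, ?_, by group⟩
  have h4 : (x0 : G) * c * y = y * (x0 * c) * y⁻¹ * y := congrArg (· * y) hfix
  rw [inv_mul_cancel_right] at h4
  exact h4

theorem main {G : Type} [Group G] [Finite G] {ℓ : ℕ} (hℓ : ℓ.Prime) {R₁ R₀ : Subgroup G}
    (hp : IsPGroup ℓ R₁) (h01 : R₀ ≤ R₁) :
    ∀ n : ℕ, ∀ y : G, (∀ r ∈ R₁, y * r * y⁻¹ * r⁻¹ ∈ R₀) → (∀ r ∈ R₁, y * r * y⁻¹ ∈ R₁) →
      (∀ r ∈ R₀, y * r * y⁻¹ ∈ R₀) → ¬ ℓ ∣ n → (∀ r ∈ R₁, y ^ n * r = r * y ^ n) →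
      ∀ r ∈ R₁, ∃ x ∈ R₀, ∃ c ∈ R₁, c * y = y * c ∧ r = x * c := by
  intro n
  induction n using Nat.strong_induction_on with
  | _ n ih =>
    intro y h1 h2 h3 hn hc r hr
    rcases Nat.lt_trichotomy n 1 with h | h | h
    · exfalso
      apply hn
      have : n = 0 := by omega
      rw [this]
      exact dvd_zero _
    · subst h
      refine ⟨1, R₀.one_mem, r, hr, ?_, by simp⟩
      have := hc r hr
      rw [pow_one] at this
      exact this.symm
    · have hn1 : n ≠ 1 := by omega
      set q := n.minFac with hqdef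
      have hq : q.Prime := Nat.minFac_prime hn1
      obtain ⟨m, hm⟩ := Nat.minFac_dvd n
      rw [← hqdef] at hm
      have hqℓ : q ≠ ℓ := by
        intro h
        apply hn
        rw [hm, h]
        exact dvd_mul_right _ _
      have hm0 : 0 < m := by
        rcases Nat.eq_zero_or_pos m with h0 | h0
        · rw [h0] at hm; omega
        · exact h0
      have hmn : m < n := by
        rw [hm]
        have := hq.two_le
        nlinarith
      have hmℓ : ¬ ℓ ∣ m := fun h => hn (by rw [hm]; exact dvd_mul_of_dvd_right h _)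
      -- powers of y
      have p3 : ∀ i : ℕ, ∀ r ∈ R₀, y ^ i * r * (y ^ i)⁻¹ ∈ R₀ := by
        intro i
        induction i with
        | zero => intro r hr; simpa using hr
        | succ i ihi =>
          intro r hr
          have := h3 _ (ihi r hr)
          have e : y ^ (i + 1) * r * (y ^ (i + 1))⁻¹ = y * (y ^ i * r * (y ^ i)⁻¹) * y⁻¹ := by
            rw [pow_succ' y, mul_inv_rev]; group
          rw [e]; exact this
      have p2 : ∀ i : ℕ, ∀ r ∈ R₁, y ^ i * r * (y ^ i)⁻¹ ∈ R₁ := by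
        intro i
        induction i with
        | zero => intro r hr; simpa using hr
        | succ i ihi =>
          intro r hr
          have := h2 _ (ihi r hr)
          have e : y ^ (i + 1) * r * (y ^ (i + 1))⁻¹ = y * (y ^ i * r * (y ^ i)⁻¹) * y⁻¹ := by
            rw [pow_succ' y, mul_inv_rev]; group
          rw [e]; exact this
      have p1 : ∀ i : ℕ, ∀ r ∈ R₁, y ^ i * r * (y ^ i)⁻¹ * r⁻¹ ∈ R₀ := by
        intro i
        induction i with
        | zero => intro r hr; simp [R₀.one_mem]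
        | succ i ihi =>
          intro r hr
          have a1 := h1 _ (p2 i r hr)
          have a2 := ihi r hr
          have e : y ^ (i + 1) * r * (y ^ (i + 1))⁻¹ * r⁻¹ =
              (y * (y ^ i * r * (y ^ i)⁻¹) * y⁻¹ * (y ^ i * r * (y ^ i)⁻¹)⁻¹) *
                (y ^ i * r * (y ^ i)⁻¹ * r⁻¹) := by
            rw [pow_succ' y, mul_inv_rev]; group
          rw [e]
          exact R₀.mul_mem a1 a2
      obtain ⟨x, hx, c, hcR, hcy, hrc⟩ := ih m hmn (y ^ q) (p1 q) (p2 q) (p3 q) hmℓ (by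
        intro r hr
        rw [← pow_mul, ← hm]
        exact hc r hr) r hr
      -- the prime step
      set H : Subgroup G := R₁ ⊓ Subgroup.centralizer {y ^ q} with hH
      set K : Subgroup G := R₀ ⊓ H with hK
      have memH : ∀ g, g ∈ H ↔ g ∈ R₁ ∧ y ^ q * g = g * y ^ q := by
        intro g
        rw [hH, Subgroup.mem_inf, Subgroup.mem_centralizer_singleton_iff]
        constructor
        · rintro ⟨a, b⟩; exact ⟨a, b.symm⟩
        · rintro ⟨a, b⟩; exact ⟨a, b.symm⟩
      have hcH : c ∈ H := (memH c).mpr ⟨hcR, hcy.symm⟩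
      have conjH : ∀ h ∈ H, y * h * y⁻¹ ∈ H := by
        intro h hh
        obtain ⟨a, b⟩ := (memH h).mp hh
        refine (memH _).mpr ⟨h2 h a, ?_⟩
        have e1 : y ^ q * y = y * y ^ q := by rw [← pow_succ, ← pow_succ']
        have e2 : y ^ q * y⁻¹ = y⁻¹ * y ^ q := by
          rw [mul_inv_eq_iff_eq_mul, mul_assoc, e1, inv_mul_cancel_left]
        calc y ^ q * (y * h * y⁻¹) = (y ^ q * y) * h * y⁻¹ := by group
          _ = y * (y ^ q * h) * y⁻¹ := by rw [e1]; group
          _ = y * (h * y ^ q) * y⁻¹ := by rw [b]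
          _ = y * h * (y ^ q * y⁻¹) := by group
          _ = y * h * (y⁻¹ * y ^ q) := by rw [e2]
          _ = y * h * y⁻¹ * y ^ q := by group
      have hKcard : ¬ q ∣ Nat.card K := by
        have hKp : IsPGroup ℓ K := hp.to_le (le_trans inf_le_left h01)
        have : Fact ℓ.Prime := ⟨hℓ⟩
        obtain ⟨k, hk⟩ := (IsPGroup.iff_card.mp hKp)
        rw [hk]
        intro hd
        exact hqℓ ((Nat.prime_dvd_prime_iff_eq hq hℓ).mp (hq.dvd_of_dvd_pow hd))
      obtain ⟨x', hx', c', hc', hcy', hcc⟩ := prime_step hq H K y hKcard inf_le_right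
        (by
          intro h hh
          obtain ⟨a, b⟩ := (memH h).mp hh
          exact ⟨h1 h a, H.mul_mem (conjH h hh) (H.inv_mem hh)⟩)
        (by
          intro k hk
          exact ⟨h3 k hk.1, conjH k hk.2⟩)
        (by
          intro h hh
          exact ((memH h).mp hh).2) c hcH
      refine ⟨x * x', R₀.mul_mem hx hx'.1, c', ((memH c').mp hc').1, hcy', ?_⟩
      rw [hrc, hcc]
      group

end COPR

theorem COPR_thm : Stmt_COPR := by
  intro G _ _ ℓ hℓ R₁ R₀ y hp h01 _ h1 h2 h3 n hn hc r hr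
  exact COPR.main hℓ.out hp h01 n y h1 h2 h3 hn hc r hr

end Pool.Agent.DPT


end

section

/-!
# The character of defect zero of the image of `M₀` in the quotient (CAT)
-/

namespace Pool.Agent.DPT

open Pool.Agent.DP Pool.Agent.DPC Pool.Agent.DPM Pool.Agent.DPN Pool.Agent.Lib_helper13
open Representation

namespace CAT

/-- The subgroup of the elements of `ℓ`-power order of an abelian group. -/
theorem card_ppart {U : Type} [Group U] [Finite U] (ℓ : ℕ) [hℓ : Fact ℓ.Prime] (P : Subgroup U)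
    (hc : ∀ x y : U, x * y = y * x) (hP : ∀ x, x ∈ P ↔ ∃ n : ℕ, x ^ ℓ ^ n = 1) :
    padicValNat ℓ (Nat.card P) = padicValNat ℓ (Nat.card U) := by
  have hn : P.Normal := ⟨fun x hx g => by
    have h1 : g * x * g⁻¹ = x := by rw [hc g x, mul_inv_cancel_right]
    rw [h1]
    exact hx⟩
  have hi : ¬ ℓ ∣ P.index := by
    intro hd
    rw [Subgroup.index] at hd
    obtain ⟨q, hq⟩ := exists_prime_orderOf_dvd_card' (G := U ⧸ P) ℓ hd
    obtain ⟨x, rfl⟩ := QuotientGroup.mk_surjective q
    have h1 : x ^ ℓ ∈ P := by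
      rw [← QuotientGroup.eq_one_iff, QuotientGroup.mk_pow, ← hq, pow_orderOf_eq_one]
    obtain ⟨n, hn'⟩ := (hP _).1 h1
    have h2 : x ∈ P := by
      rw [hP]
      exact ⟨n + 1, by rw [pow_succ', pow_mul, hn']⟩
    rw [(QuotientGroup.eq_one_iff x).2 h2, orderOf_one] at hq
    exact hℓ.out.one_lt.ne hq
  have h3 := Subgroup.card_mul_index P
  rw [← h3, padicValNat.mul Nat.card_pos.ne' (Subgroup.index_ne_zero_of_finite),
    padicValNat.eq_zero_of_not_dvd hi, add_zero]

/-- Conjugation by `y` on a subgroup normalized by `y`. -/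
def cj {Y : Type} [Group Y] (H : Subgroup Y) (y : Y) (h : ∀ c, c ∈ H ↔ y * c * y⁻¹ ∈ H) :
    H ≃* H where
  toFun z := ⟨y * z * y⁻¹, (h z).1 z.2⟩
  invFun z := ⟨y⁻¹ * z * y, (h _).2 (by
    have h1 : y * (y⁻¹ * (z : Y) * y) * y⁻¹ = z := by group
    rw [h1]
    exact z.2)⟩
  left_inv z := by
    apply Subtype.ext
    change y⁻¹ * (y * (z : Y) * y⁻¹) * y = z
    group
  right_inv z := by
    apply Subtype.ext
    change y * (y⁻¹ * (z : Y) * y) * y⁻¹ = z
    group
  map_mul' a b := by
    apply Subtype.ext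
    change y * ((a : Y) * b) * y⁻¹ = y * (a : Y) * y⁻¹ * (y * (b : Y) * y⁻¹)
    group

theorem cen_equiv {H : Type} [Group H] [Fintype H] (𝔐 : Ideal (integralClosure ℤ ℂ))
    (e : H ≃* H) (f : H → ℂ) (g : H) :
    cen 𝔐 (MonoidHom.id H) (fun s => f (e s)) g = cen 𝔐 (MonoidHom.id H) f (e g) := by
  have h1 : (fun s : H => conjInd ((MonoidHom.id H) s) g) =
      fun s => (fun y => conjInd ((MonoidHom.id H) y) (e g)) (e s) := by
    funext s
    refine conjInd_congr ⟨fun h => ?_, fun h => ?_⟩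
    · exact e.toMonoidHom.map_isConj h
    · have h2 := e.symm.toMonoidHom.map_isConj h
      simpa using h2
  rw [cen, cen, h1, wt_comp_equiv e f (fun y => conjInd ((MonoidHom.id H) y) (e g))]

/-- `C` is an automorphism image: transport of `ID`. -/
theorem id_conj {G : Type} [Group G] [Fintype G] {ℓ d : ℕ} {C : Subgroup G} {θ : G → ℂ}
    (h : ID ℓ C d θ) (g : G) (hg : ∀ c, c ∈ C ↔ g * c * g⁻¹ ∈ C) :
    ID ℓ C d (fun x => θ (g * x * g⁻¹)) := by
  refine ⟨⟨h.1.1.comp_mulEquiv (cj C g hg), fun x hx => ?_⟩, ?_⟩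
  · exact h.1.2 _ fun h' => hx ((hg x).2 h')
  · exact (hasDefect_comp_equiv (cj C g hg) (ψ := fun s : C => θ s)).2 h.2

/-- The whole group as the inverse image of a subgroup which contains the range. -/
def eT {Y G : Type} [Group Y] [Group G] (k : Y →* G) (C : Subgroup G) (h : ∀ y, k y ∈ C) :
    ↥(C.comap k) ≃* Y where
  toFun y := y
  invFun y := ⟨y, h y⟩
  left_inv _ := rfl
  right_inv _ := rfl
  map_mul' _ _ := rfl

end CAT

open _root_.Pool.Agent.DPT.CAT in
theorem CAT_thm (h1 : Stmt_MLE) (h2 : Stmt_MLV) : Stmt_CAT := by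
  classical
  intro L K G _ _ _ _ _ _ 𝔐 ℓ _ h𝔐 hℓ π hπ hU μ Q M M₀ ν hLN k' hk' hkk θ₀ hθ₀ hov
  set Mh : Subgroup L := M₀.comap π with hMh
  have hMn : Mh.Normal := hLN.M0n.comap π
  set C : Subgroup G := Mh.map k' with hC
  let k₀ : ↥Mh →* G := k'.comp Mh.subtype
  have hk₀ : ∀ m : ↥Mh, k₀ m = k' (m : L) := fun _ => rfl
  have hr : k₀.range = C := by
    ext x
    constructor
    · rintro ⟨m, rfl⟩
      exact ⟨m, m.2, rfl⟩
    · rintro ⟨m, hm, rfl⟩
      exact ⟨⟨m, hm⟩, rfl⟩
  have hkC : ∀ m : ↥Mh, k₀ m ∈ C := fun m => ⟨m, m.2, rfl⟩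
  have hUM : ∀ u, π u = 1 → u ∈ Mh := by
    intro u hu
    rw [hMh, Subgroup.mem_comap, hu]
    exact M₀.one_mem
  -- the kernel
  have hker : ∀ m : ↥Mh, m ∈ k₀.ker ↔ π (m : L) = 1 ∧ ∃ n : ℕ, (m : L) ^ ℓ ^ n = 1 := by
    intro m
    rw [MonoidHom.mem_ker, hk₀, hkk]
    constructor
    · rintro ⟨ha, hb⟩
      refine ⟨?_, hb⟩
      have hc : π (m : L) ∈ Q ⊓ M := Subgroup.mem_inf.2 ⟨ha, hLN.le m.2⟩
      rw [hLN.QM] at hc
      exact Subgroup.mem_bot.1 hc
    · rintro ⟨ha, hb⟩
      refine ⟨?_, hb⟩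
      rw [ha]
      exact Q.one_mem
  have hFC : FC ℓ k₀ := by
    refine ⟨?_, ?_⟩
    · intro z hz
      rw [Subgroup.mem_center_iff]
      intro y
      apply Subtype.ext
      exact Subgroup.mem_center_iff.1 (hU (MonoidHom.mem_ker.2 ((hker z).1 hz).1)) y
    · intro z
      obtain ⟨n, hn⟩ := ((hker z).1 z.2).2
      exact ⟨n, Subtype.ext (Subtype.ext hn)⟩
  have hcard : padicValNat ℓ (Nat.card k₀.ker) = padicValNat ℓ (Nat.card π.ker) := by
    have hcU : ∀ x y : π.ker, x * y = y * x := by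
      intro x y
      apply Subtype.ext
      exact (Subgroup.mem_center_iff.1 (hU x.2) y).symm
    let j : k₀.ker →* π.ker :=
      { toFun := fun z => ⟨((z : ↥Mh) : L), MonoidHom.mem_ker.2 ((hker z).1 z.2).1⟩
        map_one' := rfl
        map_mul' := fun _ _ => rfl }
    have hj : Function.Injective j := by
      intro a b hab
      apply Subtype.ext
      apply Subtype.ext
      exact congrArg (fun w : π.ker => (w : L)) hab
    rw [← card_ppart ℓ j.range hcU]
    · rw [Nat.card_congr (MonoidHom.ofInjective hj).toEquiv]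
    · intro x
      constructor
      · rintro ⟨z, rfl⟩
        obtain ⟨n, hn⟩ := ((hker z).1 z.2).2
        exact ⟨n, Subtype.ext hn⟩
      · rintro ⟨n, hn⟩
        have hx : π (x : L) = 1 := MonoidHom.mem_ker.1 x.2
        exact ⟨⟨⟨x, hUM x hx⟩, (hker _).2 ⟨hx, n, congrArg Subtype.val hn⟩⟩, rfl⟩
  -- the linear character of the kernel
  let jk : k₀.ker →* π.ker :=
    { toFun := fun z => ⟨((z : ↥Mh) : L), MonoidHom.mem_ker.2 ((hker z).1 z.2).1⟩
      map_one' := rfl
      map_mul' := fun _ _ => rfl }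
  let lam : k₀.ker →* ℂˣ := μ.comp jk
  let χ₀ : ↥Mh → ℂ := fun m => θ₀ (m : L)
  have hCr : C ≤ k₀.range := hr.ge
  let e : ↥(C.comap k₀) ≃* ↥Mh := eT k₀ C hkC
  have hID : ID ℓ (C.comap k₀) (padicValNat ℓ (Nat.card k₀.ker)) χ₀ := by
    refine ⟨⟨hθ₀.1.1.comp_mulEquiv e, fun x hx => absurd (hkC x) hx⟩, ?_⟩
    rw [hcard]
    exact (hasDefect_comp_equiv e (ψ := χ₀)).2 hθ₀.2
  have hovK : OvK k₀ lam χ₀ := fun z y => hov (jk z) (y : L)
  obtain ⟨hA, hB⟩ := h1 ↥Mh G 𝔐 ℓ h𝔐 hℓ k₀ hFC lam C hCr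
  obtain ⟨θb, hθb, hML⟩ := hB χ₀ hID hovK
  obtain ⟨hV1, hV2⟩ := h2 ↥Mh G 𝔐 ℓ h𝔐 hℓ k₀ hFC lam C hCr θb χ₀ hθb hML
  have hw : ∀ F₀ : ↥Mh → ℂ, ∀ F : L → ℂ, (∀ m : ↥Mh, F₀ m = F m) →
      wS (C.comap k₀) χ₀ F₀ = wS Mh θ₀ F := by
    intro F₀ F hF
    have ha := wt_comp_equiv e χ₀ (fun m : ↥Mh => F m)
    have hb : F₀ = fun m : ↥Mh => F m := funext hF
    unfold wS
    rw [hb]
    exact ha
  refine ⟨θb, ⟨hθb, ?_, ?_, ?_⟩⟩
  · intro x
    -- conjugates
    have hMx : ∀ c, c ∈ Mh ↔ x * c * x⁻¹ ∈ Mh := by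
      intro c
      constructor
      · intro hc
        exact hMn.conj_mem c hc x
      · intro hc
        have ha := hMn.conj_mem _ hc x⁻¹
        have hb : x⁻¹ * (x * c * x⁻¹) * x⁻¹⁻¹ = c := by group
        rw [hb] at ha
        exact ha
    have hCx : ∀ c, c ∈ C ↔ k' x * c * (k' x)⁻¹ ∈ C := by
      have hCn : C.Normal := hMn.map k' hk'
      intro c
      constructor
      · intro hc
        exact hCn.conj_mem c hc (k' x)
      · intro hc
        have ha := hCn.conj_mem _ hc (k' x)⁻¹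
        have hb : (k' x)⁻¹ * (k' x * c * (k' x)⁻¹) * (k' x)⁻¹⁻¹ = c := by group
        rw [hb] at ha
        exact ha
    have hIDx : ID ℓ C 0 (fun g => θb (k' x * g * (k' x)⁻¹)) := id_conj hθb (k' x) hCx
    let a : ↥Mh ≃* ↥Mh := cj Mh x hMx
    let b : ↥(C.comap k₀) ≃* ↥(C.comap k₀) := (e.trans a).trans e.symm
    have hMLx : ML 𝔐 k₀ lam C (fun g => θb (k' x * g * (k' x)⁻¹)) (fun m => χ₀ (a m)) := by
      refine ⟨⟨hML.1.1.comp_mulEquiv b, fun y hy => absurd (hkC y) hy⟩, ?_, ?_⟩
      · intro z y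
        have hz := Subgroup.mem_center_iff.1 (hU (jk z).2) x
        have ha : x * (((z : ↥Mh) : L) * (y : L)) * x⁻¹ =
            ((jk z : π.ker) : L) * (x * (y : L) * x⁻¹) := by
          change x * (((jk z : π.ker) : L) * (y : L)) * x⁻¹ = _
          rw [← mul_assoc, hz]
          group
        change θ₀ (x * (((z : ↥Mh) : L) * (y : L)) * x⁻¹) = _
        rw [ha]
        exact hov (jk z) _
      · funext g
        have hc1 := cen_equiv 𝔐 b (fun s : ↥(C.comap k₀) => χ₀ s) g
        have hc2 := cen_equiv 𝔐 b (fun s : ↥(C.comap k₀) => θb (k₀ s)) g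
        have hc3 : (fun s : ↥(C.comap k₀) => θb (k' x * k₀ (s : ↥Mh) * (k' x)⁻¹)) =
            fun s => (fun s : ↥(C.comap k₀) => θb (k₀ s)) (b s) := by
          funext s
          change _ = θb (k' (x * ((s : ↥Mh) : L) * x⁻¹))
          rw [map_mul, map_mul, map_inv]
          rfl
        rw [hc3, hc2, ← congrFun hML.2.2, ← hc1]
        rfl
    constructor
    · intro hx
      have ha : (fun g => θb (k' x * g * (k' x)⁻¹)) = θb := funext hx
      rw [ha] at hMLx
      have hb := (hA θb hθb).2.1 _ _ hMLx hML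
      intro y
      by_cases hy : y ∈ Mh
      · exact congrFun hb ⟨y, hy⟩
      · rw [hθ₀.1.2 y hy]
        exact hθ₀.1.2 _ fun h => hy ((hMx y).2 h)
    · intro hx
      have ha : (fun m => χ₀ (a m)) = χ₀ := by
        funext m
        exact hx m
      rw [ha] at hMLx
      have hb := (hA θb hθb).2.2.2 χ₀ _ hIDx hML hMLx
      intro g
      exact (congrFun hb g).symm
  · intro F hF hi hz
    have ha := hV1 (fun m => F m) (fun n _ y _ => hF n y) (fun y => hi y)
    rw [hw _ F (fun _ => rfl)] at ha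
    have hb : pu k₀ (fun m : ↥Mh => F m) = pu k' F := by
      funext g
      unfold pu
      have hc : ∀ y ∈ (Finset.univ : Finset L), y ∉ Finset.univ.filter (fun y => y ∈ Mh) →
          (if k' y = g then F y else 0) = 0 := by
        intro y _ hy
        have hy' : π y ∉ M₀ := fun h => hy (Finset.mem_filter.2 ⟨Finset.mem_univ _, h⟩)
        rw [hz y hy', ite_self]
      rw [← Finset.sum_subset (Finset.subset_univ (Finset.univ.filter (fun y => y ∈ Mh))) hc]
      refine (Finset.sum_subtype (Finset.univ.filter fun y : L => y ∈ Mh) ?_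
        (fun y => if k' y = g then F y else 0)).symm
      intro y
      rw [Finset.mem_filter]
      exact ⟨fun h => h.2, fun h => ⟨Finset.mem_univ _, h⟩⟩
    rw [hb] at ha
    exact ha
  · intro F hF hi _
    have ha := hV2 F (fun n _ y _ => hF n y) hi
    rw [hw _ (rg ℓ k' F) ?_] at ha
    · exact ha
    · intro m
      unfold rg
      rw [hk₀, Subgroup.orderOf_coe]

end Pool.Agent.DPT


end

section

/-!
# PS2r: the sums over the chains of a normal subgroup vanish (arbitrary linear characters), for the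
groups of a class
-/

set_option autoImplicit false

namespace Pool.Agent.DPK

open Pool.Agent.DP Pool.Agent.DPC Pool.Agent.DPM Pool.Agent.DPN Pool.Agent.DPF
  Pool.Agent.Lib_helper13 Representation
open Pool.Agent.Lib_helper13.Dade (pCore DadeHolds dadeSum)

namespace PS2r

open Pool.Agent.DPF.PS2 (card_split defect_iff cf)

variable {L K H L' : Type} [Group L] [Fintype L] [Group K] [Fintype K] [Group H] [Fintype H]
  [Group L'] [Fintype L']

theorem main (Cl : ∀ (Y : Type) [Group Y], Prop) (h1 : Stmt_PS1r Cl) (𝔐 : Ideal (integralClosure ℤ ℂ)) (ℓ : ℕ) [Fact ℓ.Prime]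
    (hmax : 𝔐.IsMaximal) (hℓ : (ℓ : integralClosure ℤ ℂ) ∈ 𝔐) (q : L →* L')
    (hq : Function.Surjective q) (π' : L' →* K) (hπ' : Function.Surjective π')
    (hc : (π'.comp q).ker ≤ Subgroup.center L) (μ' : π'.ker →* ℂˣ)
    (hμ' : Function.Injective μ') (hCl : Cl K) (hHR : HR Cl ℓ (Nat.card K)) (M : Subgroup K) [M.Normal]
    (p : K →* H) (hp : Function.Surjective p) (hpM : ∀ k, p k = 1 ↔ k ∈ M) (P : Subgroup H)
    (hP : SylAb ℓ P) (ω : L → (integralClosure ℤ ℂ) ⧸ 𝔐)
    (hPos : Pos 𝔐 ℓ (π'.comp q) (PUL.pm q π' μ') M ω) (d : ℕ) :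
    PHU 𝔐 ℓ d (π'.comp q) (PUL.pm q π' μ') M ⊤ ω = 0 := by
  classical
  have hk : q.ker ≤ (π'.comp q).ker := by
    intro w hw
    rw [MonoidHom.mem_ker, MonoidHom.comp_apply, (MonoidHom.mem_ker).1 hw, map_one]
  have hfc : q.ker ≤ Subgroup.center L := hk.trans hc
  have hc' : π'.ker ≤ Subgroup.center L' := by
    intro x hx
    obtain ⟨l, rfl⟩ := hq x
    have h2 : l ∈ Subgroup.center L := hc hx
    rw [Subgroup.mem_center_iff]
    intro y
    obtain ⟨m, rfl⟩ := hq y
    rw [← map_mul, ← map_mul, Subgroup.mem_center_iff.1 h2 m]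
  have hcyc : IsCyclic π'.ker :=
    isCyclic_of_subgroup_isDomain ((Units.coeHom ℂ).comp μ') (Units.val_injective.comp hμ')
  have hcard : Nat.card (π'.comp q).ker = Nat.card q.ker * Nat.card π'.ker := by
    have hs : Function.Surjective (PUL.km q π') := by
      rintro ⟨y, hy⟩
      obtain ⟨x, rfl⟩ := hq y
      exact ⟨⟨x, hy⟩, rfl⟩
    rw [QINF.card_eq (PUL.km q π') hs]
    congr 1
    refine Nat.card_congr ⟨fun z => ⟨((z : (π'.comp q).ker) : L), ?_⟩,
      fun z => ⟨⟨(z : L), hk z.2⟩, ?_⟩, fun z => rfl, fun z => rfl⟩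
    · have h1 := (MonoidHom.mem_ker).1 z.2
      rw [MonoidHom.mem_ker]
      exact congrArg Subtype.val h1
    · rw [MonoidHom.mem_ker]
      apply Subtype.ext
      exact (MonoidHom.mem_ker).1 z.2
  have hval : padicValNat ℓ (Nat.card (π'.comp q).ker) =
      padicValNat ℓ (Nat.card π'.ker) + padicValNat ℓ (Nat.card q.ker) := by
    rw [hcard, padicValNat.mul Nat.card_pos.ne' Nat.card_pos.ne', add_comm]
  -- the counts
  by_cases hd : padicValNat ℓ (Nat.card q.ker) ≤ d
  swap
  · unfold PHU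
    refine Finset.sum_eq_zero fun τ _ => ?_
    have h2 : Nat.card {ψ : ↥(SL (π'.comp q) M τ ⊤) → ℂ // IsIrr ψ ∧
        OvL (π'.comp q).ker (PUL.pm q π' μ') _ ψ ∧ HasDefect ℓ ψ d ∧
        ∀ g ∈ M.comap (π'.comp q), cen 𝔐 (SL (π'.comp q) M τ ⊤).subtype ψ g = ω g} =
        Nat.card {η' : ↥(SL π' M τ ⊤) → ℂ // IsIrr η' ∧ OvL π'.ker μ' _ η' ∧ False} := by
      refine PUL.card_eq q π' μ' hq (⊤ ⊓ stb (mapCh M.subtype τ)) _ _ ?_
      intro η' hη'
      rw [defect_iff ℓ (PUL.map_eq q π' hq (⊤ ⊓ stb (mapCh M.subtype τ)))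
        (PUL.ker_le q π' _) hη' d]
      exact ⟨fun h3 => hd h3.1.1, fun h3 => h3.elim⟩
    have h3 : Nat.card {η' : ↥(SL π' M τ ⊤) → ℂ // IsIrr η' ∧ OvL π'.ker μ' _ η' ∧ False} = 0 := by
      have : IsEmpty {η' : ↥(SL π' M τ ⊤) → ℂ // IsIrr η' ∧ OvL π'.ker μ' _ η' ∧ False} :=
        ⟨fun x => x.2.2.2⟩
      exact Nat.card_of_isEmpty
    rw [h2, h3]
    simp
  -- the functions
  let Call : Finset (L' → (integralClosure ℤ ℂ) ⧸ 𝔐) :=
    (Ch ℓ (⊥ : Subgroup M)).biUnion fun τ =>
      (irrF (SL π' M τ ⊤)).image fun η' => cf 𝔐 (M.comap π') (SL π' M τ ⊤) η'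
  let F : Finset (L' → (integralClosure ℤ ℂ) ⧸ 𝔐) :=
    Call.filter fun ω' => ∀ g ∈ M.comap (π'.comp q),
      (QINF.nst q g : (integralClosure ℤ ℂ) ⧸ 𝔐) * ω' (q g) = ω g
  have hF0 : ∀ ω' ∈ F, ∀ x, x ∉ M.comap π' → ω' x = 0 := by
    intro ω' hω' x hx
    rw [Finset.mem_filter, Finset.mem_biUnion] at hω'
    obtain ⟨⟨τ, _, h2⟩, _⟩ := hω'
    rw [Finset.mem_image] at h2
    obtain ⟨η', _, rfl⟩ := h2
    exact if_neg hx
  have hFn : ∀ ω' ∈ F, ∀ g ∈ M.comap (π'.comp q),
      (QINF.nst q g : (integralClosure ℤ ℂ) ⧸ 𝔐) * ω' (q g) = ω g := by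
    intro ω' hω'
    rw [Finset.mem_filter] at hω'
    exact hω'.2
  have hsum : PHU 𝔐 ℓ d (π'.comp q) (PUL.pm q π' μ') M ⊤ ω =
      ∑ ω' ∈ F, PHU 𝔐 ℓ (d - padicValNat ℓ (Nat.card q.ker)) π' μ' M ⊤ ω' := by
    unfold PHU
    rw [Finset.sum_comm]
    refine Finset.sum_congr rfl fun τ hτ => ?_
    rw [← Finset.mul_sum, ← Finset.mul_sum, ← Nat.cast_sum]
    congr 3
    have h2 : Nat.card {ψ : ↥(SL (π'.comp q) M τ ⊤) → ℂ // IsIrr ψ ∧
        OvL (π'.comp q).ker (PUL.pm q π' μ') _ ψ ∧ HasDefect ℓ ψ d ∧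
        ∀ g ∈ M.comap (π'.comp q), cen 𝔐 (SL (π'.comp q) M τ ⊤).subtype ψ g = ω g} =
        Nat.card {η' : ↥(SL π' M τ ⊤) → ℂ // IsIrr η' ∧ OvL π'.ker μ' _ η' ∧
          HasDefect ℓ η' (d - padicValNat ℓ (Nat.card q.ker)) ∧
          ∀ g ∈ M.comap (π'.comp q), (QINF.nst q g : (integralClosure ℤ ℂ) ⧸ 𝔐) *
            cen 𝔐 (SL π' M τ ⊤).subtype η' (q g) = ω g} := by
      refine PUL.card_eq q π' μ' hq (⊤ ⊓ stb (mapCh M.subtype τ)) _ _ ?_
      intro η' hη'
      rw [defect_iff ℓ (PUL.map_eq q π' hq (⊤ ⊓ stb (mapCh M.subtype τ)))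
        (PUL.ker_le q π' _) hη' d]
      have h3 := PUL.cen_eq q 𝔐 hq hfc _ _
        (PUL.map_eq q π' hq (⊤ ⊓ stb (mapCh M.subtype τ))) (PUL.ker_le q π' _) hη'
      rw [h3]
      exact ⟨fun h4 => ⟨h4.1.2, h4.2⟩, fun h4 => ⟨⟨hd, h4.1⟩, h4.2⟩⟩
    rw [h2]
    refine card_split _ _ _ (cf 𝔐 (M.comap π') (SL π' M τ ⊤)) F _ ?_ ?_
    · intro η' hη' _ _
      rw [Finset.mem_filter]
      have h4 : ∀ g ∈ M.comap (π'.comp q),
          cf 𝔐 (M.comap π') (SL π' M τ ⊤) η' (q g) = cen 𝔐 (SL π' M τ ⊤).subtype η' (q g) :=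
        fun g hg => if_pos hg
      constructor
      · intro h5
        refine ⟨?_, fun g hg => ?_⟩
        · rw [Finset.mem_biUnion]
          exact ⟨τ, hτ, Finset.mem_image_of_mem _ (mem_irrF.2 hη')⟩
        · rw [h4 g hg]
          exact h5 g hg
      · intro h5 g hg
        rw [← h4 g hg]
        exact h5.2 g hg
    · intro ω' hω' η'
      constructor
      · intro h4
        funext x
        by_cases hx : x ∈ M.comap π'
        · rw [← h4 x hx]
          exact if_pos hx
        · rw [hF0 ω' hω' x hx]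
          exact if_neg hx
      · intro h4 x hx
        rw [← h4]
        exact (if_pos hx).symm
  rw [hsum]
  refine Finset.sum_eq_zero fun ω' hω' => ?_
  refine h1 L' K H 𝔐 ℓ hmax hℓ π' hπ' hc' hcyc μ' hμ' hCl hHR M p hp hpM P hP ω' ?_ _
  -- positivity
  intro θ' hθ' hov hdef hcen
  have hmap := PUL.map_eq q π' hq M
  have hle := PUL.ker_le q π' M
  refine hPos (fun x => θ' (PUL.rst q _ _ hmap x)) ?_ ?_ ?_ ?_
  · exact QINF.irr_inf _ (PUL.rst_surj q _ _ hmap) hθ'
  · intro s t hs
    have h2 := hov (PUL.rst q _ _ hmap s) (PUL.rst q _ _ hmap t) hs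
    rw [← map_mul] at h2
    exact h2
  · rw [defect_iff ℓ hmap hle hθ', hval]
    refine ⟨Nat.le_add_left _ _, ?_⟩
    rw [Nat.add_sub_cancel]
    exact hdef
  · intro g hg
    have h3 := PUL.cen_eq q 𝔐 hq hfc _ _ hmap hle hθ'
    have h4 := congrFun h3 g
    rw [hcen (q g) hg] at h4
    rw [← hFn ω' hω' g hg]
    exact h4

end PS2r

/-- **PS2r** -/
theorem PS2r_thm (Cl : ∀ (Y : Type) [Group Y], Prop) (_ : GC Cl) (h1 : Stmt_PS1r Cl)
    (_ : Stmt_CQI) : Stmt_PS2r Cl := by
  intro L K H _ _ _ _ _ _ 𝔐 ℓ _ hmax hℓ π hπ hc μ hCl hHR M _ p hp hpM P hP ω hPos d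
  obtain ⟨L', _, _, q, π', μ', hq, hπ', hcomp, hμ', hz⟩ :=
    Pool.Agent.DPF.PS2.exists_quot L K π hπ hc μ
  subst hcomp
  have hμ : μ = PUL.pm q π' μ' := by
    ext z
    rw [← hz z z.2]
    rfl
  subst hμ
  exact PS2r.main Cl h1 𝔐 ℓ hmax hℓ q hq π' hπ' hc μ' hμ' hCl hHR M p hp hpM P hP ω hPos d

end Pool.Agent.DPK


end

section

/-!
# MATX: lifting of matrix units
-/

set_option autoImplicit false

namespace Pool.Agent.DPX.MATX

open Pool.Agent.DPB Pool.Agent.DPW Representation

section Ring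

variable {R S : Type} [Ring R] [Ring S] (f : R →+* S) {e : R}

/-- products of matrices with entries in an ideal -/
theorem pow_entry {m : ℕ} (J : Ideal R) (N : Matrix (Fin m) (Fin m) R) (hN : ∀ i j, N i j ∈ J)
    (k : ℕ) : ∀ i j, (N ^ (k + 1)) i j ∈ J ^ (k + 1) := by
  induction k with
  | zero =>
      intro i j
      rw [zero_add, pow_one, Submodule.pow_one]
      exact hN i j
  | succ k ih =>
      intro i j
      rw [pow_succ, Matrix.mul_apply, Submodule.pow_succ]
      exact Ideal.sum_mem _ fun l _ => Ideal.mul_mem_mul (ih i l) (hN l j)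

theorem lift_idem (J : Ideal R)
    (hJ : ∀ x, x ∈ J ↔ e * x = x ∧ f x = 0) {K : ℕ} (hK : J ^ (K + 1) = ⊥) (z : R)
    (hz : e * z = z) (hz2 : f z * f z = f z) :
    ∃ E : R, E * E = E ∧ e * E = E ∧ f E = f z := by
  have : J.IsTwoSided := ⟨fun {a} b ha => by
    rw [hJ] at ha ⊢
    rw [← mul_assoc, ha.1, map_mul, ha.2, zero_mul]
    exact ⟨rfl, rfl⟩⟩
  have hnil : ∀ x ∈ RingHom.ker (Ideal.Quotient.mk J), IsNilpotent x := by
    intro x hx
    rw [Ideal.mk_ker] at hx
    refine ⟨K + 1, ?_⟩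
    have h1 : ∀ k : ℕ, x ^ (k + 1) ∈ J ^ (k + 1) := by
      intro k
      induction k with
      | zero => rw [zero_add, pow_one, Submodule.pow_one]; exact hx
      | succ k ih => rw [pow_succ, Submodule.pow_succ]; exact Ideal.mul_mem_mul ih hx
    have h2 := h1 K
    rw [hK] at h2
    exact h2
  have hid : IsIdempotentElem (Ideal.Quotient.mk J z) := by
    rw [IsIdempotentElem, ← map_mul, Ideal.Quotient.eq, hJ]
    constructor
    · rw [mul_sub, ← mul_assoc, hz]
    · rw [map_sub, map_mul, hz2, sub_self]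
  obtain ⟨E, hE1, hE2⟩ := exists_isIdempotentElem_eq_of_ker_isNilpotent (Ideal.Quotient.mk J) hnil
    _ ⟨z, rfl⟩ hid
  rw [Ideal.Quotient.eq, hJ] at hE2
  refine ⟨E, hE1, ?_, ?_⟩
  · have h1 := hE2.1
    rw [mul_sub, hz] at h1
    exact sub_left_injective h1
  · have h1 := hE2.2
    rw [map_sub, sub_eq_zero] at h1
    exact h1

/-- lifting of matrix units -/
theorem lift_units {m : ℕ} (hc : ∀ x, e * x = x * e) (he : e * e = e) (fe : f e = 1)
    (J : Ideal R) (hJ : ∀ x, x ∈ J ↔ e * x = x ∧ f x = 0) {K : ℕ} (hK : J ^ (K + 1) = ⊥)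
    (s : Fin m → Fin m → S) (hs : ∀ i j k l, s i j * s k l = if j = k then s i l else 0)
    (hs1 : ∑ i, s i i = 1) (z0 : Fin m → Fin m → R) (hz0 : ∀ i j, f (z0 i j) = s i j)
    (i0 : Fin m) :
    ∃ E : Fin m → Fin m → R, (∀ i j k l, E i j * E k l = if j = k then E i l else 0) ∧
      ∑ i, E i i = e ∧ ∀ i j, f (E i j) = s i j := by
  classical
  -- the lifts in `e R`
  obtain ⟨z, hz, hze⟩ : ∃ z : Fin m → Fin m → R, (∀ i j, f (z i j) = s i j) ∧
      ∀ i j, e * z i j = z i j :=
    ⟨fun i j => e * z0 i j, fun i j => by rw [map_mul, fe, one_mul, hz0],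
      fun i j => by rw [← mul_assoc, he]⟩
  obtain ⟨E0, hE1, hE2, hE3⟩ := lift_idem f J hJ hK (z i0 i0) (hze i0 i0)
    (by rw [hz, hs, if_pos rfl])
  rw [hz] at hE3
  obtain ⟨N, hN⟩ : ∃ N : Matrix (Fin m) (Fin m) R, ∀ i j, N i j =
      E0 * z i0 i * (z j i0 * E0) - if i = j then E0 else 0 :=
    ⟨Matrix.of fun i j => E0 * z i0 i * (z j i0 * E0) - if i = j then E0 else 0, fun _ _ => rfl⟩
  have hNJ : ∀ i j, N i j ∈ J := by
    intro i j
    rw [hJ, hN]
    constructor
    · have h1 : e * (E0 * z i0 i * (z j i0 * E0)) = E0 * z i0 i * (z j i0 * E0) := by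
        rw [← mul_assoc, ← mul_assoc e, hE2]
      rw [mul_sub, h1]
      split_ifs
      · rw [hE2]
      · rw [mul_zero]
    · rw [map_sub, map_mul, map_mul, map_mul, hz, hz, hE3, hs, if_pos rfl, hs, if_pos rfl, hs]
      split_ifs
      · rw [hE3, sub_self]
      · rw [map_zero, sub_self]
  have hNl : ∀ i j, N i j * E0 = N i j := by
    intro i j
    have h1 : E0 * z i0 i * (z j i0 * E0) * E0 = E0 * z i0 i * (z j i0 * E0) := by
      rw [mul_assoc, mul_assoc (z j i0), hE1]
    rw [hN, sub_mul, h1]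
    split_ifs
    · rw [hE1]
    · rw [zero_mul]
  have hnil : IsNilpotent N := by
    refine ⟨K + 1, ?_⟩
    ext i j
    have h1 := pow_entry J N hNJ K i j
    rw [hK] at h1
    exact h1
  obtain ⟨H, hHN⟩ : ∃ H : Matrix (Fin m) (Fin m) R, H * (1 + N) = 1 := by
    obtain ⟨U, hU⟩ := hnil.isUnit_one_add
    exact ⟨↑U⁻¹, by rw [← hU, Units.inv_mul]⟩
  -- the value of `f` on `H`
  have hfH : ∀ i j, f (H i j) = if i = j then 1 else 0 := by
    have h1 : (H * (1 + N)).map f = H.map f := by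
      ext i j
      rw [Matrix.map_apply, Matrix.map_apply, Matrix.mul_apply, map_sum,
        Finset.sum_eq_single j]
      · rw [map_mul, Matrix.add_apply, map_add, Matrix.one_apply_eq, map_one,
          ((hJ _).1 (hNJ j j)).2, add_zero, mul_one]
      · intro k _ hk
        rw [map_mul, Matrix.add_apply, map_add, Matrix.one_apply_ne hk, map_zero,
          ((hJ _).1 (hNJ k j)).2, add_zero, mul_zero]
      · intro h; exact absurd (Finset.mem_univ _) h
    intro i j
    have h2 := congrFun (congrFun h1 i) j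
    rw [hHN, Matrix.map_apply, Matrix.map_apply, Matrix.one_apply] at h2
    rw [← h2]
    split_ifs
    · rw [map_one]
    · rw [map_zero]
  set Xc : Fin m → R := fun i => z i i0 * E0 with hX
  set Yr : Fin m → R := fun i => ∑ k, E0 * H i k * (E0 * z i0 k) with hY
  have hYX : ∀ i j, Yr i * Xc j = if i = j then E0 else 0 := by
    intro i j
    have h1 : Yr i * Xc j = ∑ k, E0 * H i k * ((1 + N) k j * E0) := by
      show (∑ k, E0 * H i k * (E0 * z i0 k)) * (z j i0 * E0) = _
      rw [Finset.sum_mul]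
      apply Finset.sum_congr rfl
      intro k _
      rw [mul_assoc (E0 * H i k)]
      congr 1
      rw [Matrix.add_apply, add_mul, hNl, hN, Matrix.one_apply]
      split_ifs
      · rw [one_mul, add_sub_cancel]
      · rw [zero_mul, zero_add, sub_zero]
    have h2 : ∑ k, E0 * H i k * ((1 + N) k j * E0) = E0 * (H * (1 + N)) i j * E0 := by
      rw [Matrix.mul_apply, Finset.mul_sum, Finset.sum_mul]
      apply Finset.sum_congr rfl
      intro k _
      simp only [mul_assoc]
    rw [h1, h2, hHN, Matrix.one_apply]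
    split_ifs
    · rw [mul_one, hE1]
    · rw [mul_zero, zero_mul]
  have hXE : ∀ i, Xc i * E0 = Xc i := by
    intro i
    show z i i0 * E0 * E0 = z i i0 * E0
    rw [mul_assoc, hE1]
  have hfX : ∀ i, f (Xc i) = s i i0 := by
    intro i
    show f (z i i0 * E0) = _
    rw [map_mul, hz, hE3, hs, if_pos rfl]
  have hfY : ∀ i, f (Yr i) = s i0 i := by
    intro i
    show f (∑ k, E0 * H i k * (E0 * z i0 k)) = _
    rw [map_sum, Finset.sum_eq_single i]
    · rw [map_mul, map_mul, map_mul, hfH, if_pos rfl, mul_one, hE3, hz, hs, if_pos rfl, hs,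
        if_pos rfl]
    · intro k _ hk
      rw [map_mul, map_mul, hfH, if_neg hk.symm, mul_zero, zero_mul]
    · intro h; exact absurd (Finset.mem_univ _) h
  refine ⟨fun i j => Xc i * Yr j, ?_, ?_, ?_⟩
  · intro i j k l
    show Xc i * Yr j * (Xc k * Yr l) = _
    rw [mul_assoc, ← mul_assoc (Yr j), hYX]
    split_ifs
    · rw [← mul_assoc, hXE]
    · rw [zero_mul, mul_zero]
  · set e' : R := ∑ i, Xc i * Yr i with he'
    have h1 : e' * e' = e' := by
      rw [he', Finset.sum_mul]
      apply Finset.sum_congr rfl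
      intro i _
      rw [Finset.mul_sum, Finset.sum_eq_single i]
      · rw [mul_assoc, ← mul_assoc (Yr i), hYX, if_pos rfl, ← mul_assoc, hXE]
      · intro j _ hj
        rw [mul_assoc, ← mul_assoc (Yr i), hYX, if_neg hj.symm, zero_mul, mul_zero]
      · intro h; exact absurd (Finset.mem_univ _) h
    have h2 : e * e' = e' := by
      rw [he', Finset.mul_sum]
      apply Finset.sum_congr rfl
      intro i _
      show e * (z i i0 * E0 * Yr i) = z i i0 * E0 * Yr i
      rw [← mul_assoc, ← mul_assoc, hze]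
    have h3 : e' * e = e' := by rw [← hc, h2]
    have h4 : f e' = 1 := by
      rw [he', map_sum, ← hs1]
      apply Finset.sum_congr rfl
      intro i _
      rw [map_mul, hfX, hfY, hs, if_pos rfl]
    have h5 : (e - e') ∈ J := by
      rw [hJ]
      exact ⟨by rw [mul_sub, he, h2], by rw [map_sub, fe, h4, sub_self]⟩
    have h6 : (e - e') * (e - e') = e - e' := by
      rw [sub_mul, mul_sub, mul_sub, he, h2, h3, h1]
      simp
    have h7 : ∀ k : ℕ, e - e' ∈ J ^ (k + 1) := by
      intro k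
      induction k with
      | zero => rw [zero_add, Submodule.pow_one]; exact h5
      | succ k ih => rw [← h6, Submodule.pow_succ]; exact Ideal.mul_mem_mul ih h5
    have h8 := h7 K
    rw [hK] at h8
    exact (sub_eq_zero.1 h8).symm
  · intro i j
    show f (Xc i * Yr j) = s i j
    rw [map_mul, hfX, hfY, hs, if_pos rfl]

end Ring

section Alg

variable {F T : Type} [Field F] [Group T] [Fintype T]

/-- the element of the group algebra -/
noncomputable def Ael (a : T → F) : MonoidAlgebra F T := ∑ h, MonoidAlgebra.single h (a h)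

omit [Group T] in
theorem coeff_Ael (a : T → F) (h : T) : (Ael a).coeff h = a h := by
  classical
  unfold Ael
  rw [MonoidAlgebra.coeff_sum, Finsupp.finsetSum_apply, Finset.sum_eq_single h]
  · rw [MonoidAlgebra.coeff_single, Finsupp.single_eq_same]
  · intro k _ hk
    rw [MonoidAlgebra.coeff_single, Finsupp.single_eq_of_ne hk.symm]
  · intro h1; exact absurd (Finset.mem_univ _) h1

omit [Group T] in
theorem Ael_coeff (x : MonoidAlgebra F T) : Ael (fun h => x.coeff h) = x := by
  apply MonoidAlgebra.ext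
  apply Finsupp.ext
  intro h
  exact coeff_Ael _ h

omit [Group T] in
theorem Ael_inj {a b : T → F} (h : Ael a = Ael b) : a = b := by
  funext t
  rw [← coeff_Ael a, h, coeff_Ael]

theorem Ael_mul (a b : T → F) : Ael (cvF a b) = Ael a * Ael b := by
  classical
  unfold Ael cvF
  rw [Finset.sum_mul]
  have h1 : ∀ y : T, MonoidAlgebra.single y (a y) * ∑ z, MonoidAlgebra.single z (b z) =
      ∑ x, MonoidAlgebra.single x (a y * b (y⁻¹ * x)) := by
    intro y
    rw [Finset.mul_sum]
    refine Fintype.sum_equiv (Equiv.mulLeft y) _ _ fun z => ?_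
    rw [Equiv.coe_mulLeft, inv_mul_cancel_left, MonoidAlgebra.single_mul_single]
  rw [Finset.sum_congr rfl fun y _ => h1 y, Finset.sum_comm]
  refine Finset.sum_congr rfl fun x _ => ?_
  exact map_sum (MonoidAlgebra.singleAddHom x) _ _

omit [Group T] in
theorem Ael_sum {ι : Type} (s : Finset ι) (a : ι → T → F) :
    Ael (∑ i ∈ s, a i) = ∑ i ∈ s, Ael (a i) := by
  apply MonoidAlgebra.ext
  apply Finsupp.ext
  intro h
  rw [coeff_Ael, MonoidAlgebra.coeff_sum, Finsupp.finsetSum_apply, Finset.sum_apply]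
  exact Finset.sum_congr rfl fun i _ => (coeff_Ael _ _).symm

theorem Ael_zero : Ael (0 : T → F) = 0 := by
  unfold Ael
  apply Finset.sum_eq_zero
  intro i _
  exact MonoidAlgebra.single_zero _

theorem Ael_one [DecidableEq T] : Ael (Pi.single 1 1 : T → F) = 1 := by
  unfold Ael
  rw [Finset.sum_eq_single 1]
  · rw [Pi.single_eq_same]
    rfl
  · intro k _ hk
    rw [Pi.single_eq_of_ne hk, MonoidAlgebra.single_zero]
  · intro h1; exact absurd (Finset.mem_univ _) h1

variable {V W : Type} [AddCommGroup V] [Module F V] [AddCommGroup W] [Module F W]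

theorem asAlg_Ael (ρ : Representation F T V) (a : T → F) :
    ρ.asAlgebraHom (Ael a) = Zop ρ a := by
  rw [← DEN.zop_eq]
  congr 1
  funext h
  exact coeff_Ael a h

theorem Zop_eqv (ρ : Representation F T V) (σ : Representation F T W) (ε : V ≃ₗ[F] W)
    (h : ∀ g v, ε (ρ g v) = σ g (ε v)) (z : T → F) (v : V) :
    Zop σ z (ε v) = ε (Zop ρ z v) := by
  unfold Zop
  rw [LinearMap.sum_apply, LinearMap.sum_apply, map_sum]
  refine Finset.sum_congr rfl fun g _ => ?_
  rw [LinearMap.smul_apply, LinearMap.smul_apply, map_smul, h]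

end Alg

section Char

variable {F T V : Type} [Field F] [Group T] [AddCommGroup V] [Module F V]
  [Module.Finite F V]

/-- the character is a Brauer character -/
theorem isBr_character (ρ : Representation F T V) (hρ : ρ.IsIrreducible) :
    IsBr F ρ.character := by
  refine ⟨Module.finrank F V, KAH.trans ρ (Module.finBasis F V).equivFun,
    KAH.trans_irr _ hρ, ?_⟩
  funext g
  show LinearMap.trace F _ (((Module.finBasis F V).equivFun.toLinearMap ∘ₗ ρ g ∘ₗ
    (Module.finBasis F V).equivFun.symm.toLinearMap)) = LinearMap.trace F V (ρ g)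
  rw [← LinearMap.trace_conj' (ρ g) (Module.finBasis F V).equivFun]
  rfl

end Char

section Main

variable {F T V : Type} [Field F] [IsAlgClosed F] [Group T] [Fintype T] [AddCommGroup V]
  [Module F V] [Module.Finite F V] {e : T → F}

/-- the irreducible representations of the block -/
theorem zero_of_zero (he : e ∈ CF F T) (hee : cvF e e = e) (ρ : Representation F T V)
    (hρ : ρ.IsIrreducible) (h1 : Zop ρ e = 1)
    (hu : Nat.card {φ : T → F // IsBr F φ ∧ Lz e φ = φ} = 1) {W : Type} [AddCommGroup W]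
    [Module F W] [Module.Finite F W] (σ : Representation F T W) (hσ : σ.IsIrreducible)
    {x : MonoidAlgebra F T} (hx : Ael e * x = x) (hx0 : ρ.asAlgebraHom x = 0) :
    σ.asAlgebraHom x = 0 := by
  obtain ⟨hχ0, hχ⟩ := BRE_thm DEN_thm F T V ρ hρ
  obtain ⟨hψ0, hψ⟩ := BRE_thm DEN_thm F T W σ hσ
  obtain ⟨μ, hμ1, hμ2⟩ := hχ e he
  obtain ⟨ν, hν1, hν2⟩ := hψ e he
  obtain ⟨v, hv⟩ := BRU.exists_ne_zero ρ hρ
  obtain ⟨w, hw⟩ := BRU.exists_ne_zero σ hσ
  have hμ : μ = 1 := by
    rw [h1] at hμ1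
    have h2 := LinearMap.congr_fun hμ1 v
    rw [LinearMap.smul_apply, Module.End.one_apply] at h2
    by_contra h3
    apply hv
    have h4 : (μ - 1) • v = 0 := by rw [sub_smul, one_smul, ← h2, sub_self]
    rcases smul_eq_zero.1 h4 with h5 | h5
    · exact absurd (sub_eq_zero.1 h5) h3
    · exact h5
  have hν : ν * ν = ν := by
    have h2 := RPRB.zop_cvF σ e e
    rw [hee, hν1] at h2
    have h3 := LinearMap.congr_fun h2 w
    rw [LinearMap.smul_apply, Module.End.mul_apply, LinearMap.smul_apply, LinearMap.smul_apply,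
      Module.End.one_apply, Module.End.one_apply, smul_smul] at h3
    by_contra h4
    apply hw
    have h5 : (ν * ν - ν) • w = 0 := by rw [sub_smul, ← h3, sub_self]
    rcases smul_eq_zero.1 h5 with h6 | h6
    · exact absurd (sub_eq_zero.1 h6) h4
    · exact h6
  have hν' : ν = 0 ∨ ν = 1 := by
    have h2 : ν * (ν - 1) = 0 := by rw [mul_sub, hν, mul_one, sub_self]
    rcases mul_eq_zero.1 h2 with h3 | h3
    · exact Or.inl h3
    · exact Or.inr (sub_eq_zero.1 h3)
  rcases hν' with h2 | h2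
  · rw [← hx, map_mul, asAlg_Ael, hν1, h2, zero_smul, zero_mul]
  · rw [h2, one_smul] at hν2
    rw [hμ, one_smul] at hμ2
    obtain ⟨h3, _⟩ := Nat.card_eq_one_iff_unique.1 hu
    have h4 : (⟨ρ.character, isBr_character ρ hρ, hμ2⟩ :
        {φ : T → F // IsBr F φ ∧ Lz e φ = φ}) = ⟨σ.character, isBr_character σ hσ, hν2⟩ :=
      Subsingleton.elim _ _
    have h5 : ρ.character = σ.character := congrArg Subtype.val h4
    obtain ⟨ε, hε⟩ := BRU_thm DEN_thm F T V W ρ σ hρ hσ h5
    apply LinearMap.ext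
    intro w
    rw [← DEN.zop_eq, LinearMap.zero_apply]
    obtain ⟨v, rfl⟩ := ε.surjective w
    rw [Zop_eqv ρ σ ε hε, DEN.zop_eq, hx0, LinearMap.zero_apply, map_zero]

end Main

section OfMod

variable {F T M : Type} [Field F] [Group T] [AddCommGroup M] [Module F M]
  [Module (MonoidAlgebra F T) M] [IsScalarTower F (MonoidAlgebra F T) M]

theorem asAlg_ofModule (x : MonoidAlgebra F T) (m : M) :
    (Representation.ofModule' (k := F) (G := T) M).asAlgebraHom x m = x • m := by
  have h1 : (Representation.ofModule' (k := F) (G := T) M).asAlgebraHom =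
      Algebra.lsmul F F M := by
    rw [Representation.asAlgebraHom_def]
    exact Equiv.apply_symm_apply _ _
  rw [h1]
  rfl

theorem irr_ofModule [IsSimpleModule (MonoidAlgebra F T) M] :
    (Representation.ofModule' (k := F) (G := T) M).IsIrreducible := by
  have hst : ∀ (S : Subrepresentation (Representation.ofModule' (k := F) (G := T) M))
      (x : MonoidAlgebra F T) (v : M), v ∈ S.toSubmodule → x • v ∈ S.toSubmodule := by
    intro S x v hv
    rw [← asAlg_ofModule]
    induction x using MonoidAlgebra.induction_linear with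
    | zero =>
      rw [map_zero]
      exact S.toSubmodule.zero_mem
    | add x y hx hy =>
      rw [map_add]
      exact S.toSubmodule.add_mem hx hy
    | single h c =>
      rw [Representation.asAlgebraHom_single]
      exact S.toSubmodule.smul_mem _ (S.apply_mem_toSubmodule h hv)
  have hnt : Nontrivial M := IsSimpleModule.nontrivial (MonoidAlgebra F T) M
  refine { exists_pair_ne := ⟨⊥, ⊤, ?_⟩, eq_bot_or_eq_top := ?_ }
  · intro h
    obtain ⟨v, hv⟩ := exists_ne (0 : M)
    apply hv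
    have h1 : v ∈ (⊤ : Subrepresentation
        (Representation.ofModule' (k := F) (G := T) M)).toSubmodule := by
      change v ∈ (⊤ : Submodule F M)
      trivial
    rw [← h] at h1
    exact h1
  · intro S
    let S' : Submodule (MonoidAlgebra F T) M :=
      { carrier := S.toSubmodule
        add_mem' := fun ha hb => S.toSubmodule.add_mem ha hb
        zero_mem' := S.toSubmodule.zero_mem
        smul_mem' := fun c v hv => hst S c v hv }
    rcases eq_bot_or_eq_top S' with h | h
    · left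
      apply Subrepresentation.toSubmodule_injective
      apply SetLike.ext
      intro v
      constructor
      · intro hv
        have h1 : v ∈ S' := hv
        rw [h] at h1
        exact h1
      · intro hv
        have h1 : v ∈ S' := by rw [h]; exact hv
        exact h1
    · right
      apply Subrepresentation.toSubmodule_injective
      apply SetLike.ext
      intro v
      constructor
      · intro _
        exact trivial
      · intro hv
        have h1 : v ∈ S' := by rw [h]; exact trivial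
        exact h1

end OfMod

section Main

variable {F T V : Type} [Field F] [IsAlgClosed F] [Group T] [Fintype T] [AddCommGroup V]
  [Module F V] [Module.Finite F V] {e : T → F}

/-- the kernel on the block is in the radical -/
theorem mem_jacobson (he : e ∈ CF F T) (hee : cvF e e = e) (ρ : Representation F T V)
    (hρ : ρ.IsIrreducible) (h1 : Zop ρ e = 1)
    (hu : Nat.card {φ : T → F // IsBr F φ ∧ Lz e φ = φ} = 1)
    {x : MonoidAlgebra F T} (hx : Ael e * x = x) (hx0 : ρ.asAlgebraHom x = 0) :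
    x ∈ Ring.jacobson (MonoidAlgebra F T) := by
  rw [Ring.jacobson_eq_sInf_isMaximal, Submodule.mem_sInf]
  intro I hI
  have hs : IsSimpleModule (MonoidAlgebra F T) (MonoidAlgebra F T ⧸ I) :=
    isSimpleModule_iff_isCoatom.2 (Ideal.isMaximal_def.1 hI)
  have hfin : Module.Finite F (MonoidAlgebra F T ⧸ I) := by
    have h2 : Module.Finite (MonoidAlgebra F T) (MonoidAlgebra F T ⧸ I) := inferInstance
    exact Module.Finite.trans (MonoidAlgebra F T) _
  have h2 := zero_of_zero he hee ρ hρ h1 hu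
    (Representation.ofModule' (k := F) (G := T) (MonoidAlgebra F T ⧸ I)) irr_ofModule hx hx0
  have h4 : x • (Submodule.Quotient.mk (1 : MonoidAlgebra F T) : MonoidAlgebra F T ⧸ I) = 0 := by
    rw [← asAlg_ofModule, h2, LinearMap.zero_apply]
  rw [← Submodule.Quotient.mk_smul, smul_eq_mul, mul_one, Submodule.Quotient.mk_eq_zero] at h4
  exact h4

end Main

open Pool.Agent.DPB.DEN in
/-- the block as an ideal of the kernel -/
noncomputable def JJ {F T V : Type} [Field F] [Group T] [Fintype T] [AddCommGroup V] [Module F V]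
    (ρ : Representation F T V) (ε : MonoidAlgebra F T) (hε : ∀ x, ε * x = x * ε) :
    Ideal (MonoidAlgebra F T) where
  carrier := {x | ε * x = x ∧ ρ.asAlgebraHom x = 0}
  add_mem' := by
    rintro a b ⟨ha, ha'⟩ ⟨hb, hb'⟩
    exact ⟨by rw [mul_add, ha, hb], by rw [map_add, ha', hb', add_zero]⟩
  zero_mem' := ⟨mul_zero _, map_zero _⟩
  smul_mem' := by
    rintro c a ⟨ha, ha'⟩
    refine ⟨?_, ?_⟩
    · show ε * (c * a) = c * a
      rw [← mul_assoc, hε, mul_assoc, ha]
    · show ρ.asAlgebraHom (c * a) = 0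
      rw [map_mul, ha', mul_zero]

theorem MATX_thm' {F T V : Type} [Field F] [IsAlgClosed F] [Group T] [Fintype T]
    [AddCommGroup V] [Module F V] [Module.Finite F V] (e : T → F) (he : e ∈ CF F T)
    (hee : cvF e e = e) (ρ : Representation F T V) (hρ : ρ.IsIrreducible) (h1 : Zop ρ e = 1)
    (hu : Nat.card {φ : T → F // IsBr F φ ∧ Lz e φ = φ} = 1) :
    ∃ (m : ℕ) (E : Fin m → Fin m → T → F) (b : Module.Basis (Fin m) F V) (K : ℕ),
      (∀ i j k l, cvF (E i j) (E k l) = if j = k then E i l else 0) ∧ ∑ i, E i i = e ∧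
      (∀ i j k, Zop ρ (E i j) (b k) = if j = k then b i else 0) ∧
      ∀ a : ℕ → T → F, (∀ i, cvF e (a i) = a i ∧ Zop ρ (a i) = 0) → cvq a K = 0 := by
  classical
  -- centrality
  have hec : ∀ x, Ael e * x = x * Ael e := by
    intro x
    have he' : ∀ g x, e (g * x * g⁻¹) = e x := he
    rw [← Ael_coeff x, ← Ael_mul, ← Ael_mul]
    congr 1
    funext t
    unfold cvF
    refine Fintype.sum_equiv ((Equiv.inv T).trans (Equiv.mulRight t)) _ _ fun y => ?_
    show e y * x.coeff (y⁻¹ * t) = x.coeff (y⁻¹ * t) * e ((y⁻¹ * t)⁻¹ * t)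
    have h2 : (y⁻¹ * t)⁻¹ * t = t⁻¹ * y * t⁻¹⁻¹ := by group
    rw [h2, he', mul_comm]
  have heA : Ael e * Ael e = Ael e := by rw [← Ael_mul, hee]
  have hfe : ρ.asAlgebraHom (Ael e) = 1 := by rw [asAlg_Ael, h1]
  set J := JJ ρ (Ael e) hec with hJdef
  have hJ : ∀ x, x ∈ J ↔ Ael e * x = x ∧ ρ.asAlgebraHom x = 0 := fun x => Iff.rfl
  have hle : J ≤ Ring.jacobson (MonoidAlgebra F T) := fun x hx =>
    mem_jacobson he hee ρ hρ h1 hu ((hJ x).1 hx).1 ((hJ x).1 hx).2
  have hart : IsArtinianRing (MonoidAlgebra F T) := IsArtinianRing.of_finite F _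
  obtain ⟨K, hK⟩ : IsNilpotent (Ring.jacobson (MonoidAlgebra F T)) :=
    IsSemiprimaryRing.isNilpotent
  have hpow : ∀ k : ℕ, J ^ (k + 1) ≤ Ring.jacobson (MonoidAlgebra F T) ^ (k + 1) := by
    intro k
    induction k with
    | zero => rw [zero_add, Submodule.pow_one, Submodule.pow_one]; exact hle
    | succ k ih => rw [Submodule.pow_succ, Submodule.pow_succ]; exact Ideal.mul_mono ih hle
  have hJK : J ^ (K + 1) = ⊥ := by
    rw [eq_bot_iff]
    refine (hpow K).trans ?_
    rw [Submodule.pow_succ, hK]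
    rw [Ideal.mul_le]
    intro r hr s _
    rw [Submodule.zero_eq_bot, Submodule.mem_bot] at hr
    rw [hr, zero_mul]
    exact Submodule.zero_mem _
  -- the matrix units
  set m := Module.finrank F V with hm
  set b := Module.finBasis F V with hb
  let s : Fin m → Fin m → Module.End F V := fun i j => (b.coord j).smulRight (b i)
  have hsa : ∀ i j k, s i j (b k) = if j = k then b i else 0 := by
    intro i j k
    show b.coord j (b k) • b i = _
    rw [Module.Basis.coord_apply, Module.Basis.repr_self, Finsupp.single_apply]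
    by_cases h : k = j
    · rw [if_pos h, if_pos h.symm, one_smul]
    · rw [if_neg h, if_neg (fun h2 => h h2.symm), zero_smul]
  have hs : ∀ i j k l, s i j * s k l = if j = k then s i l else 0 := by
    intro i j k l
    refine b.ext fun p => ?_
    rw [Module.End.mul_apply, hsa]
    by_cases h : l = p
    · rw [if_pos h, hsa]
      by_cases h2 : j = k
      · rw [if_pos h2, if_pos h2, hsa, if_pos h]
      · rw [if_neg h2, if_neg h2, LinearMap.zero_apply]
    · rw [if_neg h, map_zero]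
      by_cases h2 : j = k
      · rw [if_pos h2, hsa, if_neg h]
      · rw [if_neg h2, LinearMap.zero_apply]
  have hs1 : ∑ i, s i i = 1 := by
    refine b.ext fun p => ?_
    rw [LinearMap.sum_apply, Finset.sum_eq_single p]
    · rw [hsa, if_pos rfl, Module.End.one_apply]
    · intro i _ hi
      rw [hsa, if_neg hi]
    · intro h; exact absurd (Finset.mem_univ _) h
  have hz : ∀ i j, ∃ z : T → F, Zop ρ z = s i j := by
    intro i j
    obtain ⟨z, hz⟩ := DEN_thm F T Unit (fun _ => V) (fun _ => ρ) (fun _ => hρ)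
      (fun i j hij => absurd (Subsingleton.elim i j) hij) (fun _ => s i j)
    exact ⟨z, hz ()⟩
  choose z hz using hz
  have hm0 : 0 < m := by
    obtain ⟨v, hv⟩ := BRU.exists_ne_zero ρ hρ
    have : Nontrivial V := ⟨v, 0, hv⟩
    exact Module.finrank_pos
  obtain ⟨E, hE1, hE2, hE3⟩ := lift_units (ρ.asAlgebraHom : MonoidAlgebra F T →+* Module.End F V)
    hec heA hfe J hJ hJK s hs hs1 (fun i j => Ael (z i j))
    (fun i j => by
      show ρ.asAlgebraHom (Ael (z i j)) = s i j
      rw [asAlg_Ael, hz]) ⟨0, hm0⟩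
  refine ⟨m, fun i j => fun h => (E i j).coeff h, b, K + 1, ?_, ?_, ?_, ?_⟩
  · intro i j k l
    apply Ael_inj
    rw [Ael_mul, Ael_coeff, Ael_coeff, hE1]
    by_cases h : j = k
    · rw [if_pos h, if_pos h, Ael_coeff]
    · rw [if_neg h, if_neg h, Ael_zero]
  · apply Ael_inj
    rw [Ael_sum, ← hE2]
    exact Finset.sum_congr rfl fun i _ => Ael_coeff _
  · intro i j k
    have h2 : Zop ρ (fun h => (E i j).coeff h) = s i j := by
      rw [DEN.zop_eq]
      exact hE3 i j
    rw [h2, hsa]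
  · intro a ha
    have h2 : ∀ k : ℕ, Ael (cvq a (k + 1)) ∈ J ^ (k + 1) := by
      intro k
      induction k with
      | zero =>
        rw [zero_add, Submodule.pow_one]
        show Ael (cvF (Pi.single 1 1) (a 0)) ∈ J
        rw [Ael_mul, Ael_one, one_mul, hJ]
        exact ⟨by rw [← Ael_mul, (ha 0).1], by rw [asAlg_Ael, (ha 0).2]⟩
      | succ k ih =>
        rw [Submodule.pow_succ]
        show Ael (cvF (cvq a (k + 1)) (a (k + 1))) ∈ _
        rw [Ael_mul]
        refine Ideal.mul_mem_mul ih ?_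
        rw [hJ]
        exact ⟨by rw [← Ael_mul, (ha _).1], by rw [asAlg_Ael, (ha _).2]⟩
    apply Ael_inj
    have h3 := h2 K
    rw [hJK] at h3
    rw [Ael_zero]
    exact h3

end Pool.Agent.DPX.MATX

namespace Pool.Agent.DPX

open Pool.Agent.DPB Pool.Agent.DPW Representation

/-- **MATX** -/
theorem MATX_thm : Stmt_MATX := by
  intro F T V _ _ _ _ _ _ _ e he hee ρ hρ h1 hu
  exact MATX.MATX_thm' e he hee ρ hρ h1 hu

end Pool.Agent.DPX


end
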