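import Mathlib
import Pool.Agent.DAM.C11
import Pool.Agent.DAM.C22

/-! Parts: DPX.ACTX -/

section

/-!
# ACTX: the action of the automorphisms on the characters of a block whose defect groups contain
a central subgroup of order `ℓ`
-/

set_option autoImplicit false

namespace Pool.Agent.DPX

open Pool.Agent.DP Pool.Agent.DPB Pool.Agent.DPW Pool.Agent.Lib_helper13 Representation

namespace ACTX

section auto

variable {C : Type} [Group C] [Fintype C] {𝔐 : Ideal (integralClosure ℤ ℂ)}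

theorem cen_comp (κ : MulAut C) (χ : C → ℂ) (x : C) :
    cen 𝔐 (MonoidHom.id C) (fun y => χ (κ y)) x = cen 𝔐 (MonoidHom.id C) χ (κ x) := by
  have h1 := wt_comp_equiv κ χ (fun y => conjInd y (κ x))
  unfold cen
  congr 1
  show wt (fun y => χ (κ y)) (fun y => conjInd y x) = wt χ (fun y => conjInd y (κ x))
  rw [← h1]
  congr 1
  funext y
  apply conjInd_congr
  show IsConj y x ↔ IsConj (κ y) (κ x)
  rw [isConj_iff, isConj_iff]
  constructor
  · rintro ⟨c, rfl⟩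
    exact ⟨κ c, by rw [map_mul, map_mul, map_inv]⟩
  · rintro ⟨c, hc⟩
    obtain ⟨d, rfl⟩ := κ.surjective c
    refine ⟨d, κ.injective ?_⟩
    rw [map_mul, map_mul, map_inv, hc]

omit [Fintype C] in
/-- The iterates of the action. -/
theorem iter (κ : MulAut C) (χ : C → ℂ) (N : ℕ) :
    (fun (f : C → ℂ) (x : C) => f (κ x))^[N] χ = fun x => χ ((κ ^ N) x) := by
  induction N with
  | zero => rfl
  | succ N ih =>
    rw [Function.iterate_succ_apply', ih]
    funext x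
    change χ ((κ ^ N) (κ x)) = χ ((κ ^ (N + 1)) x)
    rw [pow_succ, MulAut.mul_apply]

end auto

section count

/-- Counting residue classes. -/
theorem count_one {F : Type} [Field F] (k : F) (r : ℕ) (ho : 1 < orderOf k) :
    Nat.card {i : Fin (1 + orderOf k * r) // k ^ (i : ℕ) = 1} = 1 + r ∧
      Nat.card {i : Fin (1 + orderOf k * r) // k ^ (i : ℕ) = k} = r := by
  classical
  have hcard : ∀ (b : ℕ) (p : ℕ → Prop) [DecidablePred p],
      Nat.card {i : Fin b // p i} = Nat.count p b := by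
    intro b p _
    have e0 : Nat.card ↥(Finset.filter p (Finset.range b)) = Nat.count p b := by
      rw [Nat.card_eq_fintype_card, Fintype.card_coe, Nat.count_eq_card_filter_range]
    rw [← e0]
    refine Nat.card_congr ⟨fun i => ⟨i.1, ?_⟩, fun i => ⟨⟨i.1, ?_⟩, ?_⟩, ?_, ?_⟩
    · rw [Finset.mem_filter, Finset.mem_range]
      exact ⟨i.1.2, i.2⟩
    · have h := i.2
      rw [Finset.mem_filter, Finset.mem_range] at h
      exact h.1
    · have h := i.2
      rw [Finset.mem_filter, Finset.mem_range] at h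
      exact h.2
    · intro i
      rfl
    · intro i
      rfl
  have hfin : IsOfFinOrder k := by
    rw [← orderOf_pos_iff]
    omega
  have hdiv : (1 + orderOf k * r) / orderOf k = r := by
    rw [Nat.add_mul_div_left _ _ (by omega), Nat.div_eq_of_lt ho, zero_add]
  have hmod : (1 + orderOf k * r) % orderOf k = 1 := by
    rw [Nat.add_mul_mod_self_left, Nat.mod_eq_of_lt ho]
  constructor
  · have e1 : ∀ i : ℕ, k ^ i = 1 ↔ i ≡ 0 [MOD orderOf k] := by
      intro i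
      rw [← hfin.pow_eq_pow_iff_modEq, pow_zero]
    rw [hcard _ (fun i => k ^ i = 1)]
    have e2 : Nat.count (fun i => k ^ i = 1) (1 + orderOf k * r) =
        Nat.count (fun i => i ≡ 0 [MOD orderOf k]) (1 + orderOf k * r) := by
      rw [Nat.count_eq_card_filter_range, Nat.count_eq_card_filter_range]
      congr 1
      ext i
      rw [Finset.mem_filter, Finset.mem_filter, e1]
    rw [e2, Nat.count_modEq_card _ (by omega), hdiv, hmod, Nat.zero_mod, if_pos (by omega)]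
    omega
  · have e1 : ∀ i : ℕ, k ^ i = k ↔ i ≡ 1 [MOD orderOf k] := by
      intro i
      rw [← hfin.pow_eq_pow_iff_modEq, pow_one]
    rw [hcard _ (fun i => k ^ i = k)]
    have e2 : Nat.count (fun i => k ^ i = k) (1 + orderOf k * r) =
        Nat.count (fun i => i ≡ 1 [MOD orderOf k]) (1 + orderOf k * r) := by
      rw [Nat.count_eq_card_filter_range, Nat.count_eq_card_filter_range]
      congr 1
      ext i
      rw [Finset.mem_filter, Finset.mem_filter, e1]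
    rw [e2, Nat.count_modEq_card _ (by omega), hdiv, hmod, Nat.mod_eq_of_lt ho,
      if_neg (by omega)]
    omega

/-- If the sum of the reciprocals is the number of the terms, all terms are one. -/
theorem all_one {α : Type} (I : Finset α) (p : α → ℕ) (hp : ∀ χ ∈ I, 0 < p χ)
    (h : (I.card : ℚ) = ∑ χ ∈ I, (1 : ℚ) / p χ) : ∀ χ ∈ I, p χ = 1 := by
  have h1 : ∀ χ ∈ I, (1 : ℚ) / p χ ≤ 1 := by
    intro χ hχ
    have h2 : (1 : ℚ) ≤ p χ := by exact_mod_cast hp χ hχ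
    rw [div_le_one (by linarith)]
    exact h2
  have h2 : ∑ χ ∈ I, (1 : ℚ) / p χ = ∑ χ ∈ I, (1 : ℚ) := by
    rw [← h, Finset.sum_const, nsmul_eq_mul, mul_one]
  have h3 := (Finset.sum_eq_sum_iff_of_le h1).1 h2
  intro χ hχ
  have h4 := h3 χ hχ
  have h5 : (0 : ℚ) < p χ := by exact_mod_cast hp χ hχ
  rw [div_eq_one_iff_eq h5.ne'] at h4
  exact_mod_cast h4.symm

/-- The combinatorial part: exactly one fixed point. -/
theorem one_fixed {α : Type} (I A : Finset α) (hA : A ⊆ I) (p : α → ℕ) (o r : ℕ)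
    (hI : I.card = 1 + o * r) (hp : ∀ χ ∈ I, 0 < p χ) (ho : ∀ χ ∈ A, o ≤ p χ) (ho1 : 1 < o)
    (h1 : ((1 + r : ℕ) : ℚ) = ∑ χ ∈ I, (1 : ℚ) / p χ)
    (h2 : ((r : ℕ) : ℚ) = ∑ χ ∈ A, (1 : ℚ) / p χ) :
    ∃ φ ∈ I, p φ = 1 ∧ ∀ χ ∈ I, χ ∉ A → χ = φ := by
  classical
  have h3 : (∑ χ ∈ I \ A, (1 : ℚ) / p χ) + ∑ χ ∈ A, (1 : ℚ) / p χ = ∑ χ ∈ I, (1 : ℚ) / p χ :=
    Finset.sum_sdiff hA
  have h4 : ∑ χ ∈ I \ A, (1 : ℚ) / p χ = 1 := by
    rw [← h1, ← h2] at h3
    push_cast at h3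
    linarith
  have h5 : (r : ℚ) * o ≤ A.card := by
    have h6 : ∀ χ ∈ A, (1 : ℚ) / p χ ≤ 1 / o := by
      intro χ hχ
      have h7 : (o : ℚ) ≤ p χ := by exact_mod_cast ho χ hχ
      have h8 : (0 : ℚ) < o := by exact_mod_cast (by omega : 0 < o)
      exact one_div_le_one_div_of_le h8 h7
    have h9 := Finset.sum_le_sum h6
    rw [← h2, Finset.sum_const, nsmul_eq_mul] at h9
    have h8 : (0 : ℚ) < o := by exact_mod_cast (by omega : 0 < o)
    calc (r : ℚ) * o ≤ (A.card * (1 / o)) * o := by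
          exact mul_le_mul_of_nonneg_right h9 h8.le
      _ = A.card := by
          field_simp
  have h6 : o * r ≤ A.card := by
    have h7 : ((o * r : ℕ) : ℚ) ≤ (A.card : ℕ) := by
      push_cast
      linarith
    exact_mod_cast h7
  have h7 : (I \ A).card ≤ 1 := by
    rw [Finset.card_sdiff_of_subset hA, hI]
    omega
  have h8 : (I \ A).Nonempty := by
    rw [Finset.nonempty_iff_ne_empty]
    intro h
    rw [h, Finset.sum_empty] at h4
    exact zero_ne_one h4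
  obtain ⟨φ, hφ⟩ := h8
  have h9 : ∀ χ ∈ I \ A, χ = φ := by
    intro χ hχ
    exact Finset.card_le_one.1 h7 χ hχ φ hφ
  refine ⟨φ, (Finset.mem_sdiff.1 hφ).1, ?_, fun χ hχ hχA =>
    h9 χ (Finset.mem_sdiff.2 ⟨hχ, hχA⟩)⟩
  have h10 : I \ A = {φ} := by
    ext χ
    rw [Finset.mem_singleton]
    constructor
    · exact h9 χ
    · rintro rfl
      exact hφ
  rw [h10, Finset.sum_singleton] at h4
  have h11 : (0 : ℚ) < p φ := by exact_mod_cast hp φ (Finset.mem_sdiff.1 hφ).1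
  rw [div_eq_one_iff_eq h11.ne'] at h4
  exact_mod_cast h4.symm

end count

end ACTX

open _root_.Pool.Agent.DPX.ACTX in
theorem ACTX_thm (h1 : Stmt_NIXX) (h2 : Stmt_IDX) (h3 : Stmt_NILO) (h4 : Stmt_ZACX)
    (h5 : Stmt_CHAX) : Stmt_ACTX := by
  classical
  intro C _ _ 𝔐 ℓ n hℓp hmax hℓ P₁ P x₀ hcen φ₀ hφ₀ hAt κ hκ hκP hκN
  have hprime : ℓ.Prime := hℓp.out
  let _ : Field ((integralClosure ℤ ℂ) ⧸ 𝔐) := Ideal.Quotient.field 𝔐
  have hrs : Function.Surjective (Ideal.Quotient.mk 𝔐) := Ideal.Quotient.mk_surjective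
  have hac : IsAlgClosed ((integralClosure ℤ ℂ) ⧸ 𝔐) := ACF_thm _ (Ideal.Quotient.mk 𝔐) hrs
  have hch : CharP ((integralClosure ℤ ℂ) ⧸ 𝔐) ℓ := by
    rw [CharP.charP_iff_prime_eq_zero hprime]
    rw [← map_natCast (Ideal.Quotient.mk 𝔐)]
    exact Ideal.Quotient.eq_zero_iff_mem.mpr hℓ
  obtain ⟨a, ha, hprm, hval, -, -, hat, huniq⟩ := h2 _ C 𝔐 ℓ hmax hℓ (Ideal.Quotient.mk 𝔐) hrs
    Ideal.mk_ker φ₀ hφ₀
  obtain ⟨hBK, -⟩ := hat n P₁ P x₀ hAt
  obtain ⟨e, he⟩ : ∃ e : C → (integralClosure ℤ ℂ) ⧸ 𝔐,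
    e = fun x => Ideal.Quotient.mk 𝔐 (a x) := ⟨_, rfl⟩
  rw [← he] at hprm hBK
  -- the idempotent is invariant
  have hinv : ∀ x, e (κ x) = e x := by
    intro x
    have h6 := huniq (fun x => a (κ x)) (by
      intro g x
      rw [map_mul, map_mul, map_inv, ha]) (by
      have h7 := hprm.2.1
      rw [he] at h7
      funext x
      have h8 := congrFun h7 (κ x)
      rw [← h8]
      show ∑ y, _ = ∑ y, _
      refine Fintype.sum_equiv κ.toEquiv _ _ fun y => ?_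
      show Ideal.Quotient.mk 𝔐 (a (κ y)) * Ideal.Quotient.mk 𝔐 (a (κ (y⁻¹ * x))) =
        Ideal.Quotient.mk 𝔐 (a (κ y)) * Ideal.Quotient.mk 𝔐 (a ((κ y)⁻¹ * κ x))
      rw [map_mul, map_inv]) (by
      intro χ hχ
      have h7 : wt χ (fun h => ((a (κ h) : integralClosure ℤ ℂ) : ℂ)) =
          wt (fun y => χ (κ.symm y)) (fun h => ((a h : integralClosure ℤ ℂ) : ℂ)) := by
        have h8 := wt_comp_equiv κ (fun y => χ (κ.symm y))
          (fun h => ((a h : integralClosure ℤ ℂ) : ℂ))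
        rw [← h8]
        congr 1
        funext y
        rw [MulEquiv.symm_apply_apply]
      have h12 := hval (fun y => χ (κ.symm y)) (hχ.comp_mulEquiv κ.symm)
      rw [h7, h12, hval χ hχ]
      have h9 : cen 𝔐 (MonoidHom.id C) (fun y => χ (κ.symm y)) =
          cen 𝔐 (MonoidHom.id C) φ₀ ↔
          cen 𝔐 (MonoidHom.id C) χ = cen 𝔐 (MonoidHom.id C) φ₀ := by
        have h10 : ∀ x, cen 𝔐 (MonoidHom.id C) (fun y => χ (κ.symm y)) (κ x) =
            cen 𝔐 (MonoidHom.id C) χ x := by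
          intro x
          have h11 := cen_comp (𝔐 := 𝔐) κ (fun y => χ (κ.symm y)) x
          rw [← h11]
          congr 1
          funext y
          rw [MulEquiv.symm_apply_apply]
        constructor
        · intro h
          funext x
          rw [← h10, h, hκ]
        · intro h
          funext x
          obtain ⟨y, rfl⟩ := κ.surjective x
          rw [h10, h, hκ]
      simp only [h9]) x
    rw [he]
    exact h6
  -- the structure
  have hn : 0 < n := by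
    rcases Nat.eq_zero_or_pos n with h6 | h6
    · exfalso
      have h7 := hAt.cd.card
      rw [h6, pow_zero] at h7
      have h8 := Subgroup.card_le_card_group (P₁.subgroupOf P)
      have h9 : Nat.card P₁ ≤ Nat.card P := Subgroup.card_le_of_le hAt.cd.le
      rw [hAt.cd.c1, h7] at h9
      exact absurd hprime.one_lt (by omega)
    · exact h6
  obtain ⟨m, E, z, hNil⟩ := h1 ℓ n ((integralClosure ℤ ℂ) ⧸ 𝔐) hn C P₁ P x₀ e hBK hprm hcen
  -- the exponent
  have hP1 : Nat.card P₁ = ℓ := hAt.cd.c1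
  have hcyc : IsCyclic P₁ := isCyclic_of_prime_card hP1
  obtain ⟨g, hg⟩ := hcyc.exists_generator
  have hsurj : ∀ u ∈ P₁, ∃ v ∈ P₁, κ v = u := by
    have h6 : Function.Injective (fun u : P₁ => (⟨κ u, hκP u u.2⟩ : P₁)) := by
      intro u v h
      have h7 := congrArg Subtype.val h
      exact Subtype.ext (κ.injective h7)
    have h7 := Finite.surjective_of_injective h6
    intro u hu
    obtain ⟨v, hv⟩ := h7 ⟨u, hu⟩
    exact ⟨v, v.2, congrArg Subtype.val hv⟩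
  obtain ⟨k, hk⟩ : ∃ k : ℕ, ∀ u ∈ P₁, κ (u ^ k) = u := by
    obtain ⟨v, hv, hvg⟩ := hsurj g g.2
    have h6 : (⟨v, hv⟩ : P₁) ∈ Submonoid.powers g := by
      rw [mem_powers_iff_mem_zpowers]
      exact hg _
    obtain ⟨k, hk⟩ := h6
    have hk' : (g : C) ^ k = v := congrArg Subtype.val hk
    refine ⟨k, ?_⟩
    intro u hu
    have h7 : (⟨u, hu⟩ : P₁) ∈ Submonoid.powers g := by
      rw [mem_powers_iff_mem_zpowers]
      exact hg _
    obtain ⟨j, hj⟩ := h7
    have hj' : (g : C) ^ j = u := congrArg Subtype.val hj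
    rw [← hj', ← pow_mul, mul_comm, pow_mul, hk', map_pow, hvg]
  obtain ⟨hmlt, -⟩ := h4 ℓ n ((integralClosure ℤ ℂ) ⧸ 𝔐) C P₁ hcen hP1 e hprm.1 hprm.2.1
    hprm.2.2.1 m E z hNil κ hinv k hk
  have hcard := h3 C 𝔐 ℓ n hmax hℓ P₁ P x₀ hcen φ₀ hφ₀ hAt
  obtain ⟨N, hN, y, hy⟩ := hκN
  have hN0 : 0 < N := by
    rcases Nat.eq_zero_or_pos N with h6 | h6
    · exact absurd (h6 ▸ dvd_zero ℓ) hN
    · exact h6
  have hNχ : ∀ (χ : C → ℂ) (x : C), IsIrr χ → χ ((κ ^ N) x) = χ x := by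
    intro χ x hχ
    rw [hy, hχ.conj_eq]
  have hCH := h5 ((integralClosure ℤ ℂ) ⧸ 𝔐) C 𝔐 ℓ hmax hℓ (Ideal.Quotient.mk 𝔐) hrs
    Ideal.mk_ker φ₀ hφ₀ a ha hval κ hκ ⟨N, hN, hNχ⟩
  rw [← he] at hCH
  -- periods
  obtain ⟨p, hp⟩ : ∃ p : (C → ℂ) → ℕ, p = fun χ =>
    Function.minimalPeriod (fun (f : C → ℂ) (x : C) => f (κ x)) χ := ⟨_, rfl⟩
  have hppos : ∀ χ : C → ℂ, IsIrr χ → 0 < p χ := by
    intro χ hχ
    rw [hp]
    refine Function.IsPeriodicPt.minimalPeriod_pos hN0 ?_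
    show (fun (f : C → ℂ) (x : C) => f (κ x))^[N] χ = χ
    rw [iter]
    funext x
    exact hNχ χ x hχ
  have hpone : ∀ χ : C → ℂ, p χ = 1 ↔ ∀ x, χ (κ x) = χ x := by
    intro χ
    rw [hp]
    show Function.minimalPeriod _ _ = 1 ↔ _
    rw [Function.minimalPeriod_eq_one_iff_isFixedPt]
    constructor
    · intro h x
      exact congrFun h x
    · intro h
      funext x
      exact h x
  obtain ⟨I, hI⟩ : ∃ I : Finset (C → ℂ), ∀ χ, χ ∈ I ↔ IsIrr χ ∧
      cen 𝔐 (MonoidHom.id C) χ = cen 𝔐 (MonoidHom.id C) φ₀ := by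
    refine ⟨(irrF C).filter fun χ => cen 𝔐 (MonoidHom.id C) χ = cen 𝔐 (MonoidHom.id C) φ₀, ?_⟩
    intro χ
    rw [Finset.mem_filter, mem_irrF]
  have hIcard : I.card = ℓ ^ n := by
    rw [← hcard]
    exact (Nat.subtype_card I hI).symm
  have hkey : ∀ μ : (integralClosure ℤ ℂ) ⧸ 𝔐, μ ≠ 0 →
      (Nat.card {i : Fin (ℓ ^ n) // (k : (integralClosure ℤ ℂ) ⧸ 𝔐) ^ (i : ℕ) = μ} : ℚ) =
        ∑ χ ∈ I.filter (fun χ => μ ^ p χ = 1), (1 : ℚ) / p χ := by
    intro μ hμ
    rw [← hmlt μ hμ, hCH μ hμ]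
    refine Finset.sum_congr ?_ fun χ _ => ?_
    · ext χ
      rw [Finset.mem_filter, Finset.mem_filter, hI, mem_irrF, hp, and_assoc]
    · rw [hp]
  have hsum1 : ∑ χ ∈ I.filter (fun χ => (1 : (integralClosure ℤ ℂ) ⧸ 𝔐) ^ p χ = 1),
      (1 : ℚ) / p χ = ∑ χ ∈ I, (1 : ℚ) / p χ := by
    refine Finset.sum_congr ?_ fun _ _ => rfl
    ext χ
    rw [Finset.mem_filter, one_pow]
    exact ⟨fun h => h.1, fun h => ⟨h, rfl⟩⟩
  constructor
  · -- trivial action
    intro htriv φ hφ hφc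
    have hk1 : (k : (integralClosure ℤ ℂ) ⧸ 𝔐) = 1 := by
      have h6 : (g : C) ^ k = g := by
        have h7 := hk g g.2
        rw [htriv _ (Subgroup.pow_mem _ g.2 k)] at h7
        exact h7
      have h7 : g ^ k = g ^ 1 := by
        rw [pow_one]
        exact Subtype.ext h6
      have h8 : k ≡ 1 [MOD orderOf g] := pow_eq_pow_iff_modEq.1 h7
      have h9 : orderOf g = ℓ := by
        rw [← hP1]
        exact orderOf_eq_card_of_forall_mem_zpowers hg
      rw [h9] at h8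
      have h10 := (CharP.natCast_eq_natCast ((integralClosure ℤ ℂ) ⧸ 𝔐) ℓ).2 h8
      rw [h10, Nat.cast_one]
    have h6 := hkey 1 one_ne_zero
    rw [hsum1] at h6
    have h7 : Nat.card {i : Fin (ℓ ^ n) // (k : (integralClosure ℤ ℂ) ⧸ 𝔐) ^ (i : ℕ) = 1} =
        I.card := by
      rw [hIcard, hk1]
      have h8 : Nat.card {i : Fin (ℓ ^ n) // (1 : (integralClosure ℤ ℂ) ⧸ 𝔐) ^ (i : ℕ) = 1} =
          Nat.card (Fin (ℓ ^ n)) :=
        Nat.card_congr (Equiv.subtypeUnivEquiv fun i => one_pow _)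
      rw [h8, Nat.card_fin]
    rw [h7] at h6
    have h8 := all_one I p (fun χ hχ => hppos χ ((hI χ).1 hχ).1) h6 φ ((hI φ).2 ⟨hφ, hφc⟩)
    exact (hpone φ).1 h8
  · -- nontrivial action
    rintro ⟨u, hu, hκu⟩
    have hord : ∀ v ∈ P₁, v ^ ℓ = 1 := by
      intro v hv
      have h6 : (⟨v, hv⟩ : P₁) ^ Nat.card P₁ = 1 := pow_card_eq_one'
      rw [hP1] at h6
      exact congrArg Subtype.val h6
    have hk1 : (k : (integralClosure ℤ ℂ) ⧸ 𝔐) ≠ 1 := by
      intro h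
      apply hκu
      have h6 : (k : (integralClosure ℤ ℂ) ⧸ 𝔐) = (1 : ℕ) := by
        rw [h, Nat.cast_one]
      have h7 := (CharP.natCast_eq_natCast ((integralClosure ℤ ℂ) ⧸ 𝔐) ℓ).1 h6
      have h8 : u ^ k = u := by
        have h9 : k ≡ 1 [MOD orderOf u] :=
          h7.of_dvd (orderOf_dvd_of_pow_eq_one (hord u hu))
        have h10 := pow_eq_pow_iff_modEq.2 h9
        rw [pow_one] at h10
        exact h10
      have h9 := hk u hu
      rw [h8] at h9
      exact h9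
    have hk0 : (k : (integralClosure ℤ ℂ) ⧸ 𝔐) ≠ 0 := by
      intro h
      rw [CharP.cast_eq_zero_iff ((integralClosure ℤ ℂ) ⧸ 𝔐) ℓ] at h
      obtain ⟨c, hc⟩ := h
      have h6 := hk u hu
      rw [hc, pow_mul, hord u hu, one_pow, map_one] at h6
      apply hκu
      rw [← h6, map_one]
    have hfer : (k : (integralClosure ℤ ℂ) ⧸ 𝔐) ^ (ℓ - 1) = 1 := by
      have h6 : (k : (integralClosure ℤ ℂ) ⧸ 𝔐) ^ ℓ = k := by
        have h7 := map_natCast (frobenius ((integralClosure ℤ ℂ) ⧸ 𝔐) ℓ) k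
        rw [frobenius_def] at h7
        exact h7
      have h7 : (k : (integralClosure ℤ ℂ) ⧸ 𝔐) ^ (ℓ - 1) * k = 1 * k := by
        rw [← pow_succ, Nat.sub_add_cancel hprime.one_le, h6, one_mul]
      exact mul_right_cancel₀ hk0 h7
    obtain ⟨o, ho⟩ : ∃ o, o = orderOf (k : (integralClosure ℤ ℂ) ⧸ 𝔐) := ⟨_, rfl⟩
    have hodvd : o ∣ ℓ - 1 := by
      rw [ho]
      exact orderOf_dvd_of_pow_eq_one hfer
    have ho1 : 1 < o := by
      have h6 : 0 < o := Nat.pos_of_dvd_of_pos hodvd (Nat.sub_pos_of_lt hprime.one_lt)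
      have h7 : o ≠ 1 := by
        rw [ho]
        intro h8
        exact hk1 (orderOf_eq_one_iff.1 h8)
      omega
    obtain ⟨r, hr⟩ : ∃ r, ℓ ^ n = 1 + o * r := by
      have h6 : ℓ - 1 ∣ ℓ ^ n - 1 := by
        have h7 := Nat.sub_dvd_pow_sub_pow ℓ 1 n
        rw [one_pow] at h7
        exact h7
      obtain ⟨r, hr⟩ := hodvd.trans h6
      refine ⟨r, ?_⟩
      have h7 : 0 < ℓ ^ n := pow_pos hprime.pos n
      omega
    obtain ⟨hc1, hc2⟩ := count_one (k : (integralClosure ℤ ℂ) ⧸ 𝔐) r (ho ▸ ho1)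
    rw [← ho, ← hr] at hc1 hc2
    have h6 := hkey 1 one_ne_zero
    rw [hsum1, hc1] at h6
    have h7 := hkey k hk0
    rw [hc2] at h7
    obtain ⟨φ₁, hφ₁, hp₁, huq⟩ := one_fixed I
      (I.filter fun χ => (k : (integralClosure ℤ ℂ) ⧸ 𝔐) ^ p χ = 1)
      (Finset.filter_subset _ _) p o r (by rw [hIcard, hr])
      (fun χ hχ => hppos χ ((hI χ).1 hχ).1) (by
        intro χ hχ
        rw [Finset.mem_filter] at hχ
        rw [ho]
        exact orderOf_le_of_pow_eq_one (hppos χ ((hI χ).1 hχ.1).1) hχ.2) ho1 h6 h7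
    refine ⟨φ₁, ((hI φ₁).1 hφ₁).1, ((hI φ₁).1 hφ₁).2, (hpone φ₁).1 hp₁, ?_⟩
    intro φ hφ hφc hfix
    refine huq φ ((hI φ).2 ⟨hφ, hφc⟩) ?_
    intro h8
    rw [Finset.mem_filter, (hpone φ).2 hfix, pow_one] at h8
    exact hk1 h8.2

end Pool.Agent.DPX


end
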