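import Mathlib
import Pool.Agent.DAM.C01
import Pool.Agent.DAM.C14

/-! Parts: DPX.E1ZX, DPX.QUAX -/

section

/-!
# Theorem X: outer derivations for a truncated polynomial algebra
-/

namespace Pool.Agent.DPX

open Pool.Agent.DPB Pool.Agent.DPW Representation

namespace E1ZX

variable {F N V : Type} [Field F] [Group N] [Fintype N] [AddCommGroup V] [Module F V]

theorem sum_cvF {W : Type} [AddCommGroup W] [Module F W] (a b : N → F) (q : N → W) :
    ∑ x, cvF a b x • q x = ∑ y, ∑ u, (a y * b u) • q (y * u) := by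
  simp only [cvF, Finset.sum_smul]
  rw [Finset.sum_comm]
  refine Finset.sum_congr rfl fun y _ => ?_
  rw [← Equiv.sum_comp (Equiv.mulLeft y)]
  refine Finset.sum_congr rfl fun u _ => ?_
  simp

/-- The linear extension of a function on the group. -/
noncomputable def Dl (δ : N → Module.End F V) : (N → F) →ₗ[F] Module.End F V where
  toFun a := ∑ h, a h • δ h
  map_add' a b := by simp [add_smul, Finset.sum_add_distrib]
  map_smul' r a := by simp [Finset.smul_sum, mul_smul]

theorem Dl_apply (δ : N → Module.End F V) (a : N → F) : Dl δ a = ∑ h, a h • δ h := rfl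

/-- The operator of an element of the group algebra. -/
noncomputable def Zl (ρ : Representation F N V) : (N → F) →ₗ[F] Module.End F V := Dl fun h => ρ h

theorem Zl_eq (ρ : Representation F N V) (a : N → F) : Zl ρ a = Zop ρ a := rfl

theorem Zl_apply (ρ : Representation F N V) (a : N → F) : Zl ρ a = ∑ h, a h • ρ h := rfl

open Classical in
theorem Dl_single (δ : N → Module.End F V) (g : N) : Dl δ (Pi.single g 1) = δ g := by
  rw [Dl_apply, Finset.sum_eq_single g]
  · simp
  · intro b _ hb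
    rw [Pi.single_eq_of_ne hb, zero_smul]
  · intro h
    exact absurd (Finset.mem_univ _) h

open Classical in
theorem Zl_single (ρ : Representation F N V) (g : N) : Zl ρ (Pi.single g 1) = ρ g :=
  Dl_single _ g

theorem Zl_cvF (ρ : Representation F N V) (a b : N → F) :
    Zl ρ (cvF a b) = Zl ρ a * Zl ρ b := by
  rw [Zl_apply, Zl_apply, Zl_apply, sum_cvF, Finset.sum_mul]
  refine Finset.sum_congr rfl fun y _ => ?_
  rw [Finset.mul_sum]
  refine Finset.sum_congr rfl fun u _ => ?_
  rw [map_mul, smul_mul_smul_comm]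

/-- Derivations. -/
def IsD (ρ : Representation F N V) (δ : N → Module.End F V) : Prop :=
  ∀ g h, δ (g * h) = ρ g * δ h + δ g * ρ h

theorem Dl_cvF {ρ : Representation F N V} {δ : N → Module.End F V} (hδ : IsD ρ δ)
    (a b : N → F) : Dl δ (cvF a b) = Zl ρ a * Dl δ b + Dl δ a * Zl ρ b := by
  rw [Dl_apply, sum_cvF, Zl_apply, Zl_apply, Dl_apply, Dl_apply, Finset.sum_mul, Finset.sum_mul,
    ← Finset.sum_add_distrib]
  refine Finset.sum_congr rfl fun y _ => ?_
  rw [Finset.mul_sum, Finset.mul_sum, ← Finset.sum_add_distrib]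
  refine Finset.sum_congr rfl fun u _ => ?_
  rw [hδ, smul_add, smul_mul_smul_comm, smul_mul_smul_comm]

theorem IsD.one {ρ : Representation F N V} {δ : N → Module.End F V} (hδ : IsD ρ δ) :
    δ 1 = 0 := by
  have h := hδ 1 1
  rw [mul_one, map_one, one_mul, mul_one] at h
  simpa using h

/-- The difference with an inner derivation. -/
def sub1 (ρ : Representation F N V) (δ : N → Module.End F V) (X : Module.End F V) (g : N) :
    Module.End F V := δ g - (ρ g * X - X * ρ g)

theorem IsD.sub1 {ρ : Representation F N V} {δ : N → Module.End F V} (hδ : IsD ρ δ)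
    (X : Module.End F V) : IsD ρ (sub1 ρ δ X) := by
  intro g h
  simp only [E1ZX.sub1, hδ g h, map_mul]
  noncomm_ring

theorem Dl_sub1 (ρ : Representation F N V) (δ : N → Module.End F V) (X : Module.End F V)
    (a : N → F) : Dl (sub1 ρ δ X) a = Dl δ a - (Zl ρ a * X - X * Zl ρ a) := by
  rw [Dl_apply, Dl_apply, Zl_apply, Finset.sum_mul, Finset.mul_sum, ← Finset.sum_sub_distrib,
    ← Finset.sum_sub_distrib]
  refine Finset.sum_congr rfl fun h _ => ?_
  rw [sub1, smul_sub, smul_sub, smul_mul_assoc, mul_smul_comm]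

/-- The data of a truncated polynomial algebra in the algebra of endomorphisms. -/
structure Dat (ρ : Representation F N V) (m : ℕ) (A : Fin m → Fin m → Module.End F V)
    (zz ee : Module.End F V) : Prop where
  mu : ∀ i j k l, A i j * A k l = if j = k then A i l else 0
  on : ∑ i, A i i = ee
  zA : ∀ i j, zz * A i j = A i j * zz
  zr : ∀ g, zz * ρ g = ρ g * zz
  er : ∀ g, ee * ρ g = ρ g * ee
  ez : ee * zz = zz
  sp : ∀ Y : Module.End F V, (∀ i j, Y * A i j = A i j * Y) → Y * zz = zz * Y → ee * Y = Y →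
    ∀ g, Y * ρ g = ρ g * Y

section D

variable {ρ : Representation F N V} {m : ℕ} {A : Fin m → Fin m → Module.End F V}
  {zz ee : Module.End F V}

theorem Dat.eA (h : Dat ρ m A zz ee) (k l : Fin m) : ee * A k l = A k l := by
  rw [← h.on, Finset.sum_mul, Finset.sum_eq_single k]
  · rw [h.mu, if_pos rfl]
  · intro b _ hb
    rw [h.mu, if_neg hb]
  · intro h
    exact absurd (Finset.mem_univ _) h

theorem Dat.Ae (h : Dat ρ m A zz ee) (k l : Fin m) : A k l * ee = A k l := by
  rw [← h.on, Finset.mul_sum, Finset.sum_eq_single l]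
  · rw [h.mu, if_pos rfl]
  · intro b _ hb
    rw [h.mu, if_neg (Ne.symm hb)]
  · intro h
    exact absurd (Finset.mem_univ _) h

theorem Dat.comm_ee (h : Dat ρ m A zz ee) {Y : Module.End F V}
    (hY : ∀ i j, Y * A i j = A i j * Y) : Y * ee = ee * Y := by
  rw [← h.on, Finset.mul_sum, Finset.sum_mul]
  exact Finset.sum_congr rfl fun i _ => hY i i

/-- The endomorphisms of the part of `ee` which commute with the matrix units. -/
def MM (A : Fin m → Fin m → Module.End F V) (ee : Module.End F V) :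
    Submodule F (Module.End F V) where
  carrier := {Y | (∀ i j, Y * A i j = A i j * Y) ∧ ee * Y = Y}
  zero_mem' := ⟨fun i j => by rw [zero_mul, mul_zero], mul_zero _⟩
  add_mem' := by
    rintro a b ⟨ha, ha'⟩ ⟨hb, hb'⟩
    exact ⟨fun i j => by rw [add_mul, mul_add, ha, hb], by rw [mul_add, ha', hb']⟩
  smul_mem' := by
    rintro r a ⟨ha, ha'⟩
    exact ⟨fun i j => by rw [smul_mul_assoc, mul_smul_comm, ha], by rw [mul_smul_comm, ha']⟩

theorem sum_mem_MM (h : Dat ρ m A zz ee) (i0 : Fin m) (f : Module.End F V) :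
    ∑ i, A i i0 * f * A i0 i ∈ MM A ee := by
  refine ⟨fun k l => ?_, ?_⟩
  · rw [Finset.sum_mul, Finset.mul_sum]
    rw [Finset.sum_eq_single k, Finset.sum_eq_single l]
    · rw [mul_assoc, h.mu, if_pos rfl, ← mul_assoc, ← mul_assoc, h.mu, if_pos rfl]
    · intro b _ hb
      rw [← mul_assoc, ← mul_assoc, h.mu, if_neg (Ne.symm hb), zero_mul, zero_mul]
    · intro h
      exact absurd (Finset.mem_univ _) h
    · intro b _ hb
      rw [mul_assoc, h.mu, if_neg hb, mul_zero]
    · intro h
      exact absurd (Finset.mem_univ _) h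
  · rw [Finset.mul_sum]
    refine Finset.sum_congr rfl fun i _ => ?_
    rw [← mul_assoc, ← mul_assoc, h.eA]

theorem eq_zero_of_trace [Module.Finite F V] {W : Module.End F V}
    (hW : ∀ f : Module.End F V, LinearMap.trace F V (W * f) = 0) : W = 0 := by
  refine LinearMap.ext fun v => ?_
  rw [LinearMap.zero_apply]
  by_contra hv
  obtain ⟨φ, hφ⟩ := not_forall.mp ((Module.forall_dual_apply_eq_zero_iff F (W v)).not.mpr hv)
  apply hφ
  have h := hW (φ.smulRight v)
  have h2 : W * (φ.smulRight v) = φ.smulRight (W v) := by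
    refine LinearMap.ext fun x => ?_
    simp
  rw [h2, LinearMap.trace_smulRight] at h
  exact h

/-- An endomorphism orthogonal to the endomorphisms of the module is a commutator with `zz`. -/
theorem Dat.exists_comm [Module.Finite F V] (h : Dat ρ m A zz ee) (i0 : Fin m)
    {D : Module.End F V} (hD : D ∈ MM A ee)
    (ho : ∀ Y : Module.End F V, (∀ g, Y * ρ g = ρ g * Y) → ee * Y = Y →
      LinearMap.trace F V (Y * A i0 i0 * D) = 0) :
    ∃ X ∈ MM A ee, D = zz * X - X * zz := by
  classical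
  -- the commutator map
  have hT : ∀ X ∈ MM A ee, zz * X - X * zz ∈ MM A ee := by
    rintro X ⟨hX, hX'⟩
    refine ⟨fun i j => ?_, ?_⟩
    · have e1 : zz * X * A i j = A i j * (zz * X) := by
        rw [mul_assoc, hX, ← mul_assoc, h.zA, mul_assoc]
      have e2 : X * zz * A i j = A i j * (X * zz) := by
        rw [mul_assoc, h.zA, ← mul_assoc, hX, mul_assoc]
      rw [sub_mul, mul_sub, e1, e2]
    · have e3 : ee * (zz * X) = zz * X := by rw [← mul_assoc, h.ez]
      have e4 : ee * (X * zz) = X * zz := by rw [← mul_assoc, hX']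
      rw [mul_sub, e3, e4]
  let T : ↥(MM A ee) →ₗ[F] ↥(MM A ee) :=
    { toFun := fun X => ⟨zz * X.1 - X.1 * zz, hT X.1 X.2⟩
      map_add' := by
        intro a b
        apply Subtype.ext
        simp only [Submodule.coe_add]
        noncomm_ring
      map_smul' := by
        intro r a
        apply Subtype.ext
        simp only [Submodule.coe_smul, RingHom.id_apply, mul_smul_comm, smul_mul_assoc, smul_sub] }
  let Φ : ↥(MM A ee) →ₗ[F] Module.Dual F ↥(MM A ee) :=
    { toFun := fun Y =>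
        { toFun := fun X => LinearMap.trace F V (Y.1 * A i0 i0 * X.1)
          map_add' := by
            intro a b
            simp only [Submodule.coe_add, mul_add, map_add]
          map_smul' := by
            intro r a
            simp only [Submodule.coe_smul, RingHom.id_apply, mul_smul_comm, map_smul] }
      map_add' := by
        intro a b
        refine LinearMap.ext fun X => ?_
        simp only [Submodule.coe_add, add_mul, map_add, LinearMap.coe_mk, AddHom.coe_mk,
          LinearMap.add_apply]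
      map_smul' := by
        intro r a
        refine LinearMap.ext fun X => ?_
        simp only [Submodule.coe_smul, RingHom.id_apply, smul_mul_assoc, map_smul,
          LinearMap.coe_mk, AddHom.coe_mk, LinearMap.smul_apply] }
  have hΦa : ∀ Y X : ↥(MM A ee), Φ Y X = LinearMap.trace F V (Y.1 * A i0 i0 * X.1) :=
    fun _ _ => rfl
  have hnd : ∀ Y ∈ MM A ee, (∀ X ∈ MM A ee, LinearMap.trace F V (Y * A i0 i0 * X) = 0) →
      Y = 0 := by
    rintro Y ⟨hY, hY'⟩ hX
    have h1 : Y * A i0 i0 = 0 := by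
      refine eq_zero_of_trace fun f => ?_
      have h2 := hX _ (sum_mem_MM h i0 f)
      rw [Finset.mul_sum, Finset.sum_eq_single i0] at h2
      · have h3 : Y * A i0 i0 * (A i0 i0 * f * A i0 i0) = Y * A i0 i0 * f * A i0 i0 := by
          rw [← mul_assoc, ← mul_assoc, mul_assoc Y, h.mu, if_pos rfl]
        rw [h3, LinearMap.trace_mul_comm, ← mul_assoc, ← mul_assoc, ← hY, mul_assoc Y, h.mu,
          if_pos rfl] at h2
        exact h2
      · intro b _ hb
        rw [← mul_assoc, ← mul_assoc, mul_assoc Y, h.mu, if_neg (Ne.symm hb), mul_zero,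
          zero_mul, zero_mul]
      · intro h
        exact absurd (Finset.mem_univ _) h
    have h4 : Y = Y * ee := by rw [h.comm_ee hY, hY']
    rw [h4, ← h.on, Finset.mul_sum]
    refine Finset.sum_eq_zero fun i _ => ?_
    have h5 : A i i = A i i0 * A i0 i0 * A i0 i := by
      rw [h.mu, if_pos rfl, h.mu, if_pos rfl]
    rw [h5, ← mul_assoc, ← mul_assoc, hY, mul_assoc (A i i0), h1, mul_zero, zero_mul]
  have hinj : Function.Injective Φ := by
    rw [← LinearMap.ker_eq_bot, LinearMap.ker_eq_bot']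
    intro Y hY
    apply Subtype.ext
    exact hnd Y.1 Y.2 fun X hX => by
      have := congrArg (fun φ => φ ⟨X, hX⟩) hY
      exact this
  have hsurj : Function.Surjective Φ :=
    (LinearMap.injective_iff_surjective_of_finrank_eq_finrank
      (Subspace.dual_finrank_eq (K := F) (V := ↥(MM A ee))).symm).mp hinj
  by_contra hcon
  have hDT : (⟨D, hD⟩ : ↥(MM A ee)) ∉ LinearMap.range T := by
    rintro ⟨X, hX⟩
    exact hcon ⟨X.1, X.2, (congrArg Subtype.val hX).symm⟩
  obtain ⟨φ, hφ, hφ'⟩ := Submodule.exists_dual_map_eq_bot_of_notMem hDT inferInstance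
  obtain ⟨Y, rfl⟩ := hsurj φ
  have hφT : ∀ X, Φ Y (T X) = 0 := by
    intro X
    have h1 : Φ Y (T X) ∈ (LinearMap.range T).map (Φ Y) := ⟨T X, ⟨X, rfl⟩, rfl⟩
    rw [hφ', Submodule.mem_bot] at h1
    exact h1
  have hYA := Y.2.1
  have hTY : T Y = 0 := by
    apply Subtype.ext
    refine hnd _ (T Y).2 fun X hX => ?_
    have h1 := hφT ⟨X, hX⟩
    rw [hΦa] at h1
    change LinearMap.trace F V (Y.1 * A i0 i0 * (zz * X - X * zz)) = 0 at h1
    change LinearMap.trace F V ((zz * Y.1 - Y.1 * zz) * A i0 i0 * X) = 0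
    have e1 : LinearMap.trace F V (Y.1 * A i0 i0 * (X * zz)) =
        LinearMap.trace F V (zz * Y.1 * A i0 i0 * X) := by
      rw [← mul_assoc, LinearMap.trace_mul_comm, ← mul_assoc, ← mul_assoc]
    have e2 : Y.1 * A i0 i0 * (zz * X) = Y.1 * zz * A i0 i0 * X := by
      rw [mul_assoc Y.1 zz, h.zA]
      simp only [mul_assoc]
    rw [mul_sub, map_sub, e1, e2] at h1
    rw [sub_mul, sub_mul, map_sub, ← neg_sub, h1, neg_zero]
  have hYz : Y.1 * zz = zz * Y.1 := by
    have h1 := congrArg Subtype.val hTY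
    change zz * Y.1 - Y.1 * zz = 0 at h1
    exact (sub_eq_zero.mp h1).symm
  apply hφ
  rw [hΦa]
  exact ho Y.1 (h.sp Y.1 hYA hYz Y.2.2) Y.2.2

/-- The traces are orthogonal to the derivations. -/
theorem Dat.trace_zero (h : Dat ρ m A zz ee) (i0 : Fin m) {δ : N → Module.End F V}
    (hδ : IsD ρ δ) {z : N → F} (hz : zz = Zl ρ z)
    (hc : ∀ g, Dl δ z * ρ g + zz * δ g = ρ g * Dl δ z + δ g * zz) (f : Module.End F V) :
    LinearMap.trace F V ((∑ g, ρ g * f * ρ g⁻¹) * A i0 i0 * Dl δ z) = 0 := by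
  -- the sums
  set t0 : Module.End F V := ∑ g, ρ g⁻¹ * A i0 i0 * ρ g with ht0
  set S0 : Module.End F V := ∑ g, ρ g⁻¹ * A i0 i0 * δ g with hS0
  have h1 : ∀ b, S0 * ρ b = ρ b * S0 - t0 * δ b := by
    intro b
    have e1 : ∑ g, ρ g⁻¹ * A i0 i0 * δ (g * b) = ρ b * S0 := by
      rw [hS0, Finset.mul_sum, ← Equiv.sum_comp (Equiv.mulRight b⁻¹)]
      refine Finset.sum_congr rfl fun g _ => ?_
      simp only [Equiv.coe_mulRight, inv_mul_cancel_right, mul_inv_rev, inv_inv, map_mul]
      simp only [mul_assoc]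
    have e2 : S0 * ρ b + t0 * δ b = ρ b * S0 := by
      rw [← e1, hS0, ht0, Finset.sum_mul, Finset.sum_mul, ← Finset.sum_add_distrib]
      refine Finset.sum_congr rfl fun g _ => ?_
      rw [hδ, mul_add]
      simp only [mul_assoc]
      rw [add_comm]
    rw [← e2, add_sub_cancel_right]
  have h2 : S0 * zz = zz * S0 - t0 * Dl δ z := by
    rw [hz, Zl_apply, Dl_apply, Finset.mul_sum, Finset.sum_mul, Finset.mul_sum,
      ← Finset.sum_sub_distrib]
    refine Finset.sum_congr rfl fun b _ => ?_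
    rw [mul_smul_comm, smul_mul_assoc, mul_smul_comm, h1, smul_sub]
  have hB : ∑ g, ρ g⁻¹ * A i0 i0 * Dl δ z * ρ g = 0 := by
    have e1 : ∀ g, ρ g⁻¹ * A i0 i0 * Dl δ z * ρ g =
        ρ g⁻¹ * A i0 i0 * ρ g * Dl δ z + ρ g⁻¹ * A i0 i0 * δ g * zz -
          zz * (ρ g⁻¹ * A i0 i0 * δ g) := by
      intro g
      have e2 : Dl δ z * ρ g = ρ g * Dl δ z + δ g * zz - zz * δ g := by
        rw [← hc g, add_sub_cancel_right]
      have e3 : zz * (ρ g⁻¹ * A i0 i0 * δ g) = ρ g⁻¹ * A i0 i0 * (zz * δ g) := by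
        rw [← mul_assoc, ← mul_assoc, h.zr, mul_assoc (ρ g⁻¹), h.zA]
        simp only [mul_assoc]
      rw [mul_assoc, e2, e3, mul_sub, mul_add]
      simp only [mul_assoc]
    rw [Finset.sum_congr rfl fun g _ => e1 g, Finset.sum_sub_distrib, Finset.sum_add_distrib,
      ← Finset.sum_mul, ← Finset.sum_mul, ← Finset.mul_sum, ← ht0, ← hS0, h2]
    abel
  rw [Finset.sum_mul, Finset.sum_mul, map_sum]
  have e4 : ∀ g, LinearMap.trace F V (ρ g * f * ρ g⁻¹ * A i0 i0 * Dl δ z) =
      LinearMap.trace F V (f * (ρ g⁻¹ * A i0 i0 * Dl δ z * ρ g)) := by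
    intro g
    rw [mul_assoc (ρ g * f), mul_assoc (ρ g * f), mul_assoc (ρ g), LinearMap.trace_mul_comm]
    simp only [mul_assoc]
  rw [Finset.sum_congr rfl fun g _ => e4 g, ← map_sum, ← Finset.mul_sum, hB, mul_zero, map_zero]

/-- A derivation which is orthogonal to the endomorphisms of the module is inner. -/
theorem Dat.inner [Module.Finite F V] (h : Dat ρ m A zz ee) (i0 : Fin m)
    {δ : N → Module.End F V} (hδ : IsD ρ δ) {z e : N → F} {E : Fin m → Fin m → N → F}
    (hz : zz = Zl ρ z) (he : ee = Zl ρ e) (hE : ∀ i j, A i j = Zl ρ (E i j))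
    (hmu : ∀ i j k l, cvF (E i j) (E k l) = if j = k then E i l else 0)
    (hon : ∑ i, E i i = e) (hzE : ∀ i j, cvF z (E i j) = cvF (E i j) z)
    (heδ : ∀ g, ee * δ g = δ g) (hδe : ∀ g, δ g * ee = δ g)
    (hsp : ∀ a, ∃ (c : ℕ) (t : ℕ → Fin m → Fin m → F),
      cvF e a = ∑ k ∈ Finset.range c, ∑ i, ∑ j, t k i j • cvF (cvp z k) (E i j))
    (ho : ∀ Y : Module.End F V, (∀ g, Y * ρ g = ρ g * Y) → ee * Y = Y →
      LinearMap.trace F V (Y * A i0 i0 * Dl δ z) = 0) :
    ∃ X : Module.End F V, ∀ g, δ g = ρ g * X - X * ρ g := by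
  classical
  have heD : ∀ a, ee * Dl δ a = Dl δ a := by
    intro a
    rw [Dl_apply, Finset.mul_sum]
    exact Finset.sum_congr rfl fun g _ => by rw [mul_smul_comm, heδ]
  have hDe : ∀ a, Dl δ a * ee = Dl δ a := by
    intro a
    rw [Dl_apply, Finset.sum_mul]
    exact Finset.sum_congr rfl fun g _ => by rw [smul_mul_assoc, hδe]
  set X1 : Module.End F V := ∑ i, A i i0 * Dl δ (E i0 i) with hX1
  have hDmu : ∀ i j k l, A i j * Dl δ (E k l) + Dl δ (E i j) * A k l =
      if j = k then Dl δ (E i l) else 0 := by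
    intro i j k l
    rw [hE i j, hE k l, ← Dl_cvF hδ, hmu]
    split_ifs
    · rfl
    · exact map_zero _
  have hX1c : ∀ k l, A k l * X1 - X1 * A k l = Dl δ (E k l) := by
    intro k l
    have e1 : A k l * X1 = A k i0 * Dl δ (E i0 l) := by
      rw [hX1, Finset.mul_sum, Finset.sum_eq_single l]
      · rw [← mul_assoc, h.mu, if_pos rfl]
      · intro b _ hb
        rw [← mul_assoc, h.mu, if_neg (Ne.symm hb), zero_mul]
      · intro h
        exact absurd (Finset.mem_univ _) h
    have e2 : X1 * A k l = A k i0 * Dl δ (E i0 l) - Dl δ (E k l) := by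
      have e3 : ∀ i, A i i0 * Dl δ (E i0 i) * A k l =
          (if i = k then A i i0 * Dl δ (E i0 l) else 0) - A i i * Dl δ (E k l) := by
        intro i
        have e4 : Dl δ (E i0 i) * A k l =
            (if i = k then Dl δ (E i0 l) else 0) - A i0 i * Dl δ (E k l) := by
          rw [← hDmu i0 i k l, add_sub_cancel_left]
        rw [mul_assoc, e4, mul_sub, mul_ite, mul_zero, ← mul_assoc, h.mu, if_pos rfl]
      rw [hX1, Finset.sum_mul, Finset.sum_congr rfl fun i _ => e3 i, Finset.sum_sub_distrib,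
        Finset.sum_ite_eq' Finset.univ k, if_pos (Finset.mem_univ _), ← Finset.sum_mul, h.on, heD]
    rw [e1, e2, sub_sub_cancel]
  have heX1 : ee * X1 = X1 := by
    rw [hX1, Finset.mul_sum]
    exact Finset.sum_congr rfl fun i _ => by rw [← mul_assoc, h.eA]
  have hX1e : X1 * ee = X1 := by
    rw [hX1, Finset.sum_mul]
    exact Finset.sum_congr rfl fun i _ => by rw [mul_assoc, hDe]
  set δ1 : N → Module.End F V := sub1 ρ δ X1 with hδ1
  have hδ1d : IsD ρ δ1 := hδ.sub1 X1
  have hδ1E : ∀ k l, Dl δ1 (E k l) = 0 := by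
    intro k l
    rw [hδ1, Dl_sub1, ← hE, hX1c, sub_self]
  have hδ1z : Dl δ1 z = Dl δ z - (zz * X1 - X1 * zz) := by
    rw [hδ1, Dl_sub1, ← hz]
  have hzM : Dl δ1 z ∈ MM A ee := by
    refine ⟨fun i j => ?_, ?_⟩
    · have e1 := Dl_cvF hδ1d z (E i j)
      have e2 := Dl_cvF hδ1d (E i j) z
      rw [hzE, e2, hδ1E, zero_mul, add_zero, mul_zero, zero_add, ← hE] at e1
      exact e1.symm
    · have e3 : ee * (zz * X1) = zz * X1 := by rw [← mul_assoc, h.ez]
      have e4 : ee * (X1 * zz) = X1 * zz := by rw [← mul_assoc, heX1]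
      rw [hδ1z, mul_sub, mul_sub, heD, e3, e4]
  obtain ⟨X2, hX2, hX2z⟩ := h.exists_comm i0 hzM (by
    intro Y hY hY'
    have hYA : ∀ i j, Y * A i j = A i j * Y := by
      intro i j
      rw [hE, Zl_apply, Finset.mul_sum, Finset.sum_mul]
      exact Finset.sum_congr rfl fun g _ => by rw [mul_smul_comm, smul_mul_assoc, hY]
    have hYz : Y * zz = zz * Y := by
      rw [hz, Zl_apply, Finset.mul_sum, Finset.sum_mul]
      exact Finset.sum_congr rfl fun g _ => by rw [mul_smul_comm, smul_mul_assoc, hY]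
    have e1 : LinearMap.trace F V (Y * A i0 i0 * (X1 * zz)) =
        LinearMap.trace F V (Y * A i0 i0 * (zz * X1)) := by
      rw [← mul_assoc, LinearMap.trace_mul_comm, ← mul_assoc, ← mul_assoc, ← hYz, mul_assoc Y,
        h.zA]
      simp only [mul_assoc]
    rw [hδ1z, mul_sub, mul_sub, map_sub, map_sub, e1, sub_self, sub_zero]
    exact ho Y hY hY')
  have hX2e : X2 * ee = X2 := by rw [h.comm_ee hX2.1, hX2.2]
  set δ2 : N → Module.End F V := sub1 ρ δ1 X2 with hδ2
  have hδ2d : IsD ρ δ2 := hδ1d.sub1 X2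
  have hδ2E : ∀ k l, Dl δ2 (E k l) = 0 := by
    intro k l
    rw [hδ2, Dl_sub1, hδ1E, ← hE, ← hX2.1 k l, sub_self, sub_zero]
  have hδ2z : Dl δ2 z = 0 := by
    rw [hδ2, Dl_sub1, ← hz, hX2z, sub_self]
  have hδ2p : ∀ k, Dl δ2 (cvp z k) = 0 := by
    intro k
    induction k with
    | zero =>
      change Dl δ2 (Pi.single 1 1) = 0
      rw [Dl_single, hδ2d.one]
    | succ k ih =>
      change Dl δ2 (cvF (cvp z k) z) = 0
      rw [Dl_cvF hδ2d, hδ2z, ih, mul_zero, zero_mul, add_zero]
  have hδ2e : ∀ a, Dl δ2 (cvF e a) = 0 := by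
    intro a
    obtain ⟨c, t, ht⟩ := hsp a
    rw [ht]
    simp only [map_sum, map_smul]
    refine Finset.sum_eq_zero fun k _ => Finset.sum_eq_zero fun i _ =>
      Finset.sum_eq_zero fun j _ => ?_
    rw [Dl_cvF hδ2d, hδ2p, hδ2E, mul_zero, zero_mul, add_zero, smul_zero]
  have hδ2e' : Dl δ2 e = 0 := by
    rw [← hon, map_sum]
    exact Finset.sum_eq_zero fun i _ => hδ2E i i
  refine ⟨X1 + X2, fun g => ?_⟩
  have h1 : ee * δ2 g = 0 := by
    have h2 := hδ2e (Pi.single g 1)
    rw [Dl_cvF hδ2d, hδ2e', zero_mul, add_zero, Dl_single, ← he] at h2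
    exact h2
  have h3 : δ2 g = δ g - (ρ g * X1 - X1 * ρ g) - (ρ g * X2 - X2 * ρ g) := by
    rw [hδ2, hδ1]
    rfl
  have h4 : ee * δ2 g = δ2 g := by
    have c1 : ee * (ρ g * X1) = ρ g * X1 := by rw [← mul_assoc, h.er, mul_assoc, heX1]
    have c2 : ee * (X1 * ρ g) = X1 * ρ g := by rw [← mul_assoc, heX1]
    have c3 : ee * (ρ g * X2) = ρ g * X2 := by rw [← mul_assoc, h.er, mul_assoc, hX2.2]
    have c4 : ee * (X2 * ρ g) = X2 * ρ g := by rw [← mul_assoc, hX2.2]
    rw [h3, mul_sub, mul_sub, mul_sub, mul_sub, heδ, c1, c2, c3, c4]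
  rw [h4, h3] at h1
  have h5 : δ g = (ρ g * X1 - X1 * ρ g) + (ρ g * X2 - X2 * ρ g) := by
    rw [sub_sub] at h1
    exact sub_eq_zero.mp h1
  rw [h5]
  noncomm_ring

end D

end E1ZX

open _root_.Pool.Agent.DPX.E1ZX in
theorem E1ZX_thm : Stmt_E1ZX := by
  intro F N V _ _ _ _ _ _ e hecf hee m c E z hNil ρ hyp δ₁ δ₂ hδ₁ hδ₂ hs₁ hs₂
  classical
  obtain ⟨hmu, hon, hzc, hze, hsp, hnl, hnn⟩ := hNil
  have hδ₁' : IsD ρ δ₁ := hδ₁
  have hδ₂' : IsD ρ δ₂ := hδ₂
  have heδ₁ : ∀ g, Zl ρ e * δ₁ g = δ₁ g := fun g => (hs₁ g).1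
  have hδe₁ : ∀ g, δ₁ g * Zl ρ e = δ₁ g := fun g => (hs₁ g).2
  have heδ₂ : ∀ g, Zl ρ e * δ₂ g = δ₂ g := fun g => (hs₂ g).1
  have hδe₂ : ∀ g, δ₂ g * Zl ρ e = δ₂ g := fun g => (hs₂ g).2
  rcases Nat.eq_zero_or_pos m with hm | hm
  · subst hm
    have he0 : e = 0 := by rw [← hon, Finset.univ_eq_empty, Finset.sum_empty]
    refine ⟨1, 0, 0, Or.inl one_ne_zero, fun g => ?_⟩
    have h1 := heδ₁ g
    rw [he0, map_zero, zero_mul] at h1
    rw [← h1]
    simp
  · have hcomm : ∀ a, cvF z a = cvF a z := fun a => LOCX.cvF_comm hzc a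
    have hecomm : ∀ a, cvF e a = cvF a e := fun a => LOCX.cvF_comm hecf a
    have hcvp : ∀ (Y : Module.End F V), Y * Zl ρ z = Zl ρ z * Y → ∀ k,
        Y * Zl ρ (cvp z k) = Zl ρ (cvp z k) * Y := by
      intro Y hY k
      induction k with
      | zero =>
        change Y * Zl ρ (Pi.single 1 1) = Zl ρ (Pi.single 1 1) * Y
        rw [Zl_single, map_one, mul_one, one_mul]
      | succ k ih =>
        change Y * Zl ρ (cvF (cvp z k) z) = Zl ρ (cvF (cvp z k) z) * Y
        rw [Zl_cvF, ← mul_assoc, ih, mul_assoc, hY, mul_assoc]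
    have hD : Dat ρ m (fun i j => Zl ρ (E i j)) (Zl ρ z) (Zl ρ e) := by
      have her : ∀ g, Zl ρ e * ρ g = ρ g * Zl ρ e := by
        intro g
        rw [← Zl_single ρ g, ← Zl_cvF, hecomm, Zl_cvF]
      refine ⟨?_, ?_, ?_, ?_, her, ?_, ?_⟩
      · intro i j k l
        rw [← Zl_cvF, hmu]
        split_ifs
        · rfl
        · exact map_zero _
      · rw [← hon, map_sum]
      · intro i j
        rw [← Zl_cvF, hcomm, Zl_cvF]
      · intro g
        rw [← Zl_single ρ g, ← Zl_cvF, hcomm, Zl_cvF]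
      · rw [← Zl_cvF, hze]
      · intro Y hYA hYz hYe g
        have hYe' : Y * Zl ρ e = Y := by
          rw [← hon, map_sum, Finset.mul_sum, Finset.sum_congr rfl fun i _ => hYA i i,
            ← Finset.sum_mul, ← map_sum, hon, hYe]
        have h1 : Y * (Zl ρ e * ρ g) = Zl ρ e * ρ g * Y := by
          rw [← Zl_single ρ g, ← Zl_cvF]
          obtain ⟨t, ht⟩ := hsp (Pi.single g 1)
          rw [ht]
          simp only [map_sum, map_smul, Finset.mul_sum, Finset.sum_mul]
          refine Finset.sum_congr rfl fun k _ => Finset.sum_congr rfl fun i _ =>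
            Finset.sum_congr rfl fun j _ => ?_
          rw [Zl_cvF, mul_smul_comm, smul_mul_assoc, ← mul_assoc, hcvp Y hYz k, mul_assoc, hYA,
            mul_assoc]
        calc Y * ρ g = Y * Zl ρ e * ρ g := by rw [hYe']
          _ = Zl ρ e * ρ g * Y := by rw [mul_assoc, h1]
          _ = ρ g * Y := by rw [her, mul_assoc, hYe]
    let i0 : Fin m := ⟨0, hm⟩
    have hc : ∀ (δ : N → Module.End F V), IsD ρ δ → ∀ g,
        Dl δ z * ρ g + Zl ρ z * δ g = ρ g * Dl δ z + δ g * Zl ρ z := by
      intro δ hδ g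
      have h1 := Dl_cvF hδ z (Pi.single g 1)
      have h2 := Dl_cvF hδ (Pi.single g 1) z
      rw [hcomm, h2, Dl_single, Zl_single] at h1
      rw [h1, add_comm]
    set p₁ : F := LinearMap.trace F V (Zl ρ e * Zl ρ (E i0 i0) * Dl δ₁ z) with hp₁
    set p₂ : F := LinearMap.trace F V (Zl ρ e * Zl ρ (E i0 i0) * Dl δ₂ z) with hp₂
    obtain ⟨c₁, c₂, hne, hcc⟩ : ∃ c₁ c₂ : F, (c₁ ≠ 0 ∨ c₂ ≠ 0) ∧ c₁ * p₁ + c₂ * p₂ = 0 := by
      by_cases h1 : p₁ = 0
      · exact ⟨1, 0, Or.inl one_ne_zero, by rw [h1]; ring⟩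
      · exact ⟨-p₂, p₁, Or.inr h1, by ring⟩
    set δ : N → Module.End F V := fun g => c₁ • δ₁ g + c₂ • δ₂ g with hδdef
    have hδ : IsD ρ δ := by
      intro g h
      simp only [hδdef]
      rw [hδ₁' g h, hδ₂' g h]
      simp only [smul_add, mul_add, add_mul, mul_smul_comm, smul_mul_assoc]
      abel
    have hDδ : ∀ a, Dl δ a = c₁ • Dl δ₁ a + c₂ • Dl δ₂ a := by
      intro a
      rw [Dl_apply, Dl_apply, Dl_apply, Finset.smul_sum, Finset.smul_sum,
        ← Finset.sum_add_distrib]
      refine Finset.sum_congr rfl fun g _ => ?_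
      rw [smul_add, smul_comm (a g), smul_comm (a g)]
    obtain ⟨X, hX⟩ := hD.inner i0 hδ (z := z) (e := e) (E := E) rfl rfl (fun _ _ => rfl) hmu hon
      (fun i j => hcomm _)
      (fun g => by
        simp only [hδdef, mul_add, mul_smul_comm]
        rw [heδ₁, heδ₂])
      (fun g => by
        simp only [hδdef, add_mul, smul_mul_assoc]
        rw [hδe₁, hδe₂])
      (fun a => ⟨c, hsp a⟩)
      (by
        intro Y hY hYe
        obtain ⟨μ, f, hf⟩ := hyp Y (fun g v => congrArg (fun φ => φ v) (hY g)) hYe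
        have e1 : Y = μ • Zl ρ e + ∑ g, ρ g * f * ρ g⁻¹ := by
          rw [hf]
          rfl
        have e2 : LinearMap.trace F V (Zl ρ e * Zl ρ (E i0 i0) * Dl δ z) = 0 := by
          rw [hDδ, mul_add, map_add, mul_smul_comm, mul_smul_comm, map_smul, map_smul, ← hp₁,
            ← hp₂, smul_eq_mul, smul_eq_mul, hcc]
        rw [e1, add_mul, add_mul, map_add, smul_mul_assoc, smul_mul_assoc, map_smul, e2,
          smul_zero, zero_add]
        exact hD.trace_zero i0 hδ rfl (hc δ hδ) f)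
    exact ⟨c₁, c₂, X, hne, fun g => hX g⟩

end Pool.Agent.DPX


end

section

/-!
# QUAX: the idempotent of the quotient by a central subgroup of order `ℓ`
-/

set_option autoImplicit false

namespace Pool.Agent.DPX

open Pool.Agent.DPB Pool.Agent.DPW Pool.Agent.Lib_helper13 Representation

namespace QUAX

open LOCX

section Basic

variable {F T S : Type} [Field F] [Group T] [Fintype T] [Group S] [Fintype S] [DecidableEq S]

/-- The inverse image of a function. -/
def pl (π : T →* S) (φ : S → F) (x : T) : F := φ (π x)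

theorem psh_add (π : T →* S) (a b : T → F) : psh π (a + b) = psh π a + psh π b := by
  funext s
  simp only [psh, Pi.add_apply, Finset.sum_add_distrib]

theorem psh_sub (π : T →* S) (a b : T → F) : psh π (a - b) = psh π a - psh π b := by
  funext s
  simp only [psh, Pi.sub_apply, Finset.sum_sub_distrib]

theorem sum_psh (π : T →* S) (a : T → F) (g : S → F) :
    ∑ s, psh π a s * g s = ∑ x, a x * g (π x) := by
  simp only [psh, Finset.sum_mul, Finset.sum_filter]
  rw [Finset.sum_comm]
  refine Finset.sum_congr rfl fun x _ => ?_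
  rw [Finset.sum_eq_single (π x)]
  · rw [if_pos rfl]
  · intro s _ hs
    rw [if_neg hs.symm, zero_mul]
  · intro h
    exact absurd (Finset.mem_univ _) h

theorem cvF_pl (π : T →* S) (a : T → F) (φ : S → F) : cvF a (pl π φ) = pl π (cvF (psh π a) φ) := by
  funext x
  simp only [cvF, pl]
  rw [sum_psh π a fun s => φ (s⁻¹ * π x)]
  refine Finset.sum_congr rfl fun y _ => ?_
  rw [map_mul, map_inv]

theorem pl_cvF (π : T →* S) (a : T → F) (φ : S → F) : cvF (pl π φ) a = pl π (cvF φ (psh π a)) := by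
  funext x
  simp only [cvF, pl]
  rw [← Equiv.sum_comp ((Equiv.inv T).trans (Equiv.mulLeft x)),
    ← Equiv.sum_comp ((Equiv.inv S).trans (Equiv.mulLeft (π x)))]
  have h1 := sum_psh π a fun s => φ (π x * s⁻¹)
  calc ∑ i, φ (π (((Equiv.inv T).trans (Equiv.mulLeft x)) i)) *
        a ((((Equiv.inv T).trans (Equiv.mulLeft x)) i)⁻¹ * x)
      = ∑ y, a y * φ (π x * (π y)⁻¹) := by
        refine Finset.sum_congr rfl fun y _ => ?_
        simp only [Equiv.trans_apply, Equiv.inv_apply, Equiv.coe_mulLeft, map_mul, map_inv]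
        rw [mul_comm]
        congr 2
        group
    _ = ∑ s, psh π a s * φ (π x * s⁻¹) := h1.symm
    _ = _ := by
        refine Finset.sum_congr rfl fun s _ => ?_
        simp only [Equiv.trans_apply, Equiv.inv_apply, Equiv.coe_mulLeft]
        rw [mul_comm]
        congr 2
        group

theorem psh_cvF (π : T →* S) (a b : T → F) : psh π (cvF a b) = cvF (psh π a) (psh π b) := by
  funext s
  have h1 : cvF (psh π a) (psh π b) s = ∑ y, a y * psh π b ((π y)⁻¹ * s) := by
    unfold cvF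
    exact sum_psh π a fun s' => psh π b (s'⁻¹ * s)
  rw [h1]
  simp only [psh, cvF, Finset.sum_filter, Finset.mul_sum, mul_ite, mul_zero]
  have h2 : ∀ x : T, (if π x = s then ∑ y, a y * b (y⁻¹ * x) else 0) =
      ∑ y, if π x = s then a y * b (y⁻¹ * x) else 0 := by
    intro x
    split_ifs
    · rfl
    · simp
  rw [Finset.sum_congr rfl fun x _ => h2 x, Finset.sum_comm]
  refine Finset.sum_congr rfl fun y _ => ?_
  rw [← Equiv.sum_comp (Equiv.mulLeft y)]
  refine Finset.sum_congr rfl fun z _ => ?_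
  rw [Equiv.coe_mulLeft, inv_mul_cancel_left, map_mul]
  have h3 : (π y * π z = s) = (π z = (π y)⁻¹ * s) := by
    apply propext
    exact ⟨fun h => by rw [← h, inv_mul_cancel_left], fun h => by rw [h, mul_inv_cancel_left]⟩
  simp only [h3]

theorem psh_mem (π : T →* S) (hπ : Function.Surjective π) {a : T → F} (ha : a ∈ CF F T) :
    psh π a ∈ CF F S := by
  intro g s
  obtain ⟨g, rfl⟩ := hπ g
  simp only [psh, Finset.sum_filter]
  rw [← Equiv.sum_comp (MulAut.conj g).toEquiv]
  refine Finset.sum_congr rfl fun z _ => ?_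
  have e1 : (MulAut.conj g).toEquiv z = g * z * g⁻¹ := rfl
  rw [e1, map_mul, map_mul, map_inv, ha g z]
  have h3 : (π g * π z * (π g)⁻¹ = π g * s * (π g)⁻¹) = (π z = s) := by
    apply propext
    rw [mul_left_inj, mul_right_inj]
  simp only [h3]

theorem psh_surj (π : T →* S) (hπ : Function.Surjective π) (φ : S → F) :
    ∃ a : T → F, psh π a = φ := by
  classical
  refine ⟨fun x => if x = Function.surjInv hπ (π x) then φ (π x) else 0, ?_⟩
  funext s
  have hs := Function.surjInv_eq hπ s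
  simp only [psh, Finset.sum_filter]
  rw [Finset.sum_eq_single (Function.surjInv hπ s)]
  · rw [if_pos hs, hs, if_pos rfl]
  · intro x _ hx
    split_ifs with h1 h2
    · exact absurd (by rw [h2, h1]) hx
    · rfl
    · rfl
  · intro h
    exact absurd (Finset.mem_univ _) h

theorem psh_pl {ℓ : ℕ} [CharP F ℓ] (π : T →* S) (hk : Nat.card π.ker = ℓ) (φ : S → F) :
    psh π (pl π φ) = 0 := by
  classical
  funext s
  simp only [psh, pl]
  rw [Finset.sum_congr rfl (g := fun _ => φ s) fun x hx => by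
    rw [(Finset.mem_filter.1 hx).2], Finset.sum_const]
  by_cases hs : s ∈ Set.range π
  · rw [MonoidHom.card_fiber_eq_of_mem_range π hs ⟨1, map_one π⟩]
    have h1 : (Finset.univ.filter fun g => π g = 1).card = ℓ := by
      rw [← hk, Nat.card_eq_fintype_card, Fintype.card_subtype]
      refine congrArg Finset.card (Finset.ext fun g => ?_)
      simp [MonoidHom.mem_ker]
    rw [h1, nsmul_eq_mul, CharP.cast_eq_zero, zero_mul]
    rfl
  · have h1 : (Finset.univ.filter fun g => π g = s) = ∅ := by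
      ext g
      simp only [Finset.mem_filter, Finset.mem_univ, true_and, Finset.notMem_empty, iff_false]
      exact fun h => hs ⟨g, h⟩
    rw [h1]
    simp

/-- The unit of the group algebra. -/
noncomputable def dl (F T : Type) [Field F] [Group T] : T → F := fun x => by
  classical
  exact if x = 1 then 1 else 0

theorem dl_cvF (a : T → F) : cvF (dl F T) a = a := by
  classical
  funext x
  simp only [cvF, dl]
  rw [Finset.sum_eq_single 1]
  · simp
  · intro b _ hb
    rw [if_neg hb, zero_mul]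
  · intro h
    exact absurd (Finset.mem_univ _) h

theorem cvF_dl (a : T → F) : cvF a (dl F T) = a := by
  classical
  funext x
  simp only [cvF, dl]
  rw [Finset.sum_eq_single x]
  · simp
  · intro b _ hb
    rw [if_neg, mul_zero]
    intro h
    apply hb
    have h1 := congrArg (fun t => b * t) h
    simpa using h1.symm
  · intro h
    exact absurd (Finset.mem_univ _) h

theorem cvF_add_left (a b c : T → F) : cvF (a + b) c = cvF a c + cvF b c := by
  funext x
  simp only [cvF, Pi.add_apply, add_mul, Finset.sum_add_distrib]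

theorem cvF_sub_left (a b c : T → F) : cvF (a - b) c = cvF a c - cvF b c := by
  funext x
  simp only [cvF, Pi.sub_apply, sub_mul, Finset.sum_sub_distrib]

theorem cvF_sub_right (a b c : T → F) : cvF a (b - c) = cvF a b - cvF a c := by
  funext x
  simp only [cvF, Pi.sub_apply, mul_sub, Finset.sum_sub_distrib]

theorem cvF_zero_left (c : T → F) : cvF 0 c = 0 := by
  funext x
  simp [cvF]

theorem cvF_zero_right (c : T → F) : cvF c 0 = 0 := by
  funext x
  simp [cvF]

theorem mulz_apply (z w : T → F) : mulz z w = cvF z w := rfl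

theorem mulz_cvF (a b : T → F) : mulz (cvF a b) = mulz a * mulz b := by
  apply LinearMap.ext
  intro w
  rw [Module.End.mul_apply, mulz_apply, mulz_apply, mulz_apply, cvF_assoc]

theorem mulz_sub (a b : T → F) : mulz (a - b) = mulz a - mulz b := by
  apply LinearMap.ext
  intro w
  rw [LinearMap.sub_apply, mulz_apply, mulz_apply, mulz_apply, cvF_sub_left]

theorem mulz_dl (a : T → F) : mulz a (dl F T) = a := cvF_dl a

/-- The translation by `u`. -/
def tU (F : Type) [Field F] (u : T) : (T → F) →ₗ[F] (T → F) where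
  toFun a := fun x => a (u⁻¹ * x)
  map_add' _ _ := rfl
  map_smul' _ _ := rfl

theorem tU_apply (u : T) (a : T → F) (x : T) : tU F u a x = a (u⁻¹ * x) := rfl

theorem tU_pow (u : T) (k : ℕ) (a : T → F) (x : T) : (tU F u ^ k) a x = a ((u ^ k)⁻¹ * x) := by
  induction k generalizing x with
  | zero => simp
  | succ k ih =>
    rw [pow_succ', Module.End.mul_apply, tU_apply, ih]
    congr 1
    rw [pow_succ', mul_inv_rev, mul_assoc]

theorem tU_left (u : T) (a b : T → F) : cvF (tU F u a) b = tU F u (cvF a b) := by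
  funext x
  rw [tU_apply]
  simp only [cvF]
  rw [← Equiv.sum_comp (Equiv.mulLeft u)]
  refine Finset.sum_congr rfl fun y _ => ?_
  rw [Equiv.coe_mulLeft, tU_apply, inv_mul_cancel_left]
  congr 2
  group

theorem tU_right {u : T} (hu : ∀ t, u * t = t * u) (a b : T → F) :
    cvF a (tU F u b) = tU F u (cvF a b) := by
  funext x
  rw [tU_apply]
  simp only [cvF]
  refine Finset.sum_congr rfl fun y _ => ?_
  rw [tU_apply]
  congr 2
  have h1 : u⁻¹ * y⁻¹ = y⁻¹ * u⁻¹ := by
    rw [← mul_inv_rev, ← mul_inv_rev, hu]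
  rw [← mul_assoc, h1, mul_assoc]

/-- The nilpotent operator `u - 1`. -/
def nU (F : Type) [Field F] (u : T) : (T → F) →ₗ[F] (T → F) := tU F u - 1

theorem nU_apply (u : T) (a : T → F) : nU F u a = tU F u a - a := rfl

theorem nU_left (u : T) (a b : T → F) : cvF (nU F u a) b = nU F u (cvF a b) := by
  rw [nU_apply, nU_apply, cvF_sub_left, tU_left]

theorem nU_right {u : T} (hu : ∀ t, u * t = t * u) (a b : T → F) :
    cvF a (nU F u b) = nU F u (cvF a b) := by
  rw [nU_apply, nU_apply, cvF_sub_right, tU_right hu]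

theorem nU_pow_right {u : T} (hu : ∀ t, u * t = t * u) (k : ℕ) (a b : T → F) :
    cvF a ((nU F u ^ k) b) = (nU F u ^ k) (cvF a b) := by
  induction k with
  | zero => simp
  | succ k ih =>
    rw [pow_succ', Module.End.mul_apply, Module.End.mul_apply, nU_right hu, ih]

theorem frob {ℓ : ℕ} [Fact ℓ.Prime] [CharP F ℓ] {V : Type} [AddCommGroup V] [Module F V]
    (A B : Module.End F V) (h : Commute A B) : (A - B) ^ ℓ = A ^ ℓ - B ^ ℓ := by
  rcases subsingleton_or_nontrivial V with hV | hV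
  · apply LinearMap.ext
    intro v
    exact Subsingleton.elim _ _
  · have : CharP (Module.End F V) ℓ :=
      charP_of_injective_algebraMap (algebraMap F (Module.End F V)).injective ℓ
    exact sub_pow_char_of_commute _ h

theorem nU_pow {ℓ : ℕ} [Fact ℓ.Prime] [CharP F ℓ] {u : T} (hu : u ^ ℓ = 1) :
    (nU F u : Module.End F (T → F)) ^ ℓ = 0 := by
  unfold nU
  rw [frob (ℓ := ℓ) _ _ (Commute.one_right _), one_pow, sub_eq_zero]
  apply LinearMap.ext
  intro a
  funext x
  rw [tU_pow, hu, inv_one, one_mul]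
  rfl

/-- The invariant functions are inverse images. -/
theorem inv_pl (π : T →* S) (hπ : Function.Surjective π) {u : T}
    (hg : π.ker ≤ Subgroup.zpowers u) (a : T → F) (ha : tU F u a = a) :
    ∃ φ : S → F, a = pl π φ := by
  have h1 : ∀ x, a (u * x) = a x := by
    intro x
    have h2 := congrFun ha (u * x)
    rw [tU_apply, inv_mul_cancel_left] at h2
    exact h2.symm
  have h2 : ∀ (k : ℕ) (x : T), a (u ^ k * x) = a x := by
    intro k
    induction k with
    | zero => simp
    | succ k ih =>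
      intro x
      rw [pow_succ', mul_assoc, h1, ih]
  have h3 : ∀ v ∈ Subgroup.zpowers u, ∀ x, a (v * x) = a x := by
    classical
    intro v hv x
    rw [mem_zpowers_iff_mem_range_orderOf] at hv
    obtain ⟨k, -, rfl⟩ := Finset.mem_image.1 hv
    exact h2 k x
  refine ⟨fun s => a (Function.surjInv hπ s), ?_⟩
  funext x
  have h4 : x * (Function.surjInv hπ (π x))⁻¹ ∈ π.ker := by
    rw [MonoidHom.mem_ker, map_mul, map_inv, Function.surjInv_eq hπ, mul_inv_cancel]
  have h5 := h3 _ (hg h4) (Function.surjInv hπ (π x))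
  rw [inv_mul_cancel_right] at h5
  exact h5

variable {ℓ : ℕ} [Fact ℓ.Prime] [CharP F ℓ]

/-- The elements of the kernel are nilpotent. -/
theorem nil (π : T →* S) (hπ : Function.Surjective π) {u : T}
    (hg : π.ker ≤ Subgroup.zpowers u) (hu : ∀ t, u * t = t * u) (hul : u ^ ℓ = 1) (j : T → F)
    (hj : psh π j = 0) : (mulz j) ^ ℓ = 0 := by
  have key : ∀ (k : ℕ) (a : T → F), (nU F u ^ k) a = 0 → (mulz j ^ k) a = 0 := by
    intro k
    induction k with
    | zero =>
      intro a ha
      simpa using ha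
    | succ k ih =>
      intro a ha
      rw [pow_succ, Module.End.mul_apply]
      apply ih
      rw [mulz_apply, ← nU_pow_right hu]
      have h1 : tU F u ((nU F u ^ k) a) = (nU F u ^ k) a := by
        rw [pow_succ', Module.End.mul_apply, nU_apply, sub_eq_zero] at ha
        exact ha
      obtain ⟨φ, hφ⟩ := inv_pl π hπ hg _ h1
      rw [hφ, cvF_pl, hj, cvF_zero_left]
      rfl
  apply LinearMap.ext
  intro a
  exact key ℓ a (by rw [nU_pow hul]; rfl)

theorem idem_zero (π : T →* S) (hπ : Function.Surjective π) {u : T}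
    (hg : π.ker ≤ Subgroup.zpowers u) (hu : ∀ t, u * t = t * u) (hul : u ^ ℓ = 1) (e : T → F)
    (hee : cvF e e = e) (he : psh π e = 0) : e = 0 := by
  have h1 : ∀ k : ℕ, (mulz e ^ k) e = e := by
    intro k
    induction k with
    | zero => simp
    | succ k ih => rw [pow_succ', Module.End.mul_apply, ih, mulz_apply, hee]
  rw [← h1 ℓ, nil π hπ hg hu hul e he]
  rfl

theorem lift (π : T →* S) (hπ : Function.Surjective π) {u : T}
    (hg : π.ker ≤ Subgroup.zpowers u) (hu : ∀ t, u * t = t * u) (hul : u ^ ℓ = 1) (f' : S → F)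
    (hf' : cvF f' f' = f') : ∃ f : T → F, cvF f f = f ∧ psh π f = f' := by
  obtain ⟨b, hb⟩ := psh_surj π hπ f'
  have h1 : psh π (cvF b b - b) = 0 := by
    rw [psh_sub, psh_cvF, hb, hf', sub_self]
  have h2 := nil π hπ hg hu hul _ h1
  rw [mulz_sub, mulz_cvF, frob (ℓ := ℓ) _ _ ((Commute.refl _).mul_left (Commute.refl _)),
    sub_eq_zero] at h2
  have h2' : mulz b ^ ℓ * mulz b ^ ℓ = mulz b ^ ℓ := by
    rw [← pow_add]
    rw [← pow_two, ← pow_mul, two_mul] at h2
    exact h2
  refine ⟨(mulz b ^ ℓ) (dl F T), ?_, ?_⟩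
  · rw [← mulz_pow_cvF, dl_cvF, ← Module.End.mul_apply, h2']
  · have h3 : ∀ k : ℕ, psh π ((mulz b ^ (k + 1)) (dl F T)) = f' := by
      intro k
      induction k with
      | zero => rw [zero_add, pow_one, mulz_dl, hb]
      | succ k ih => rw [pow_succ', Module.End.mul_apply, mulz_apply, psh_cvF, hb, ih, hf']
    obtain ⟨k, hk⟩ := Nat.exists_eq_succ_of_ne_zero (Fact.out : ℓ.Prime).ne_zero
    rw [hk]
    exact h3 k

/-- The idempotents over central ones are central. -/
theorem central (π : T →* S) (hπ : Function.Surjective π) {u : T}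
    (hg : π.ker ≤ Subgroup.zpowers u) (hu : ∀ t, u * t = t * u) (hul : u ^ ℓ = 1) (f : T → F)
    (hf : cvF f f = f) (hf' : psh π f ∈ CF F S) : f ∈ CF F T := by
  have A : ∀ (k : ℕ) (m : T → F), cvF f m = m → cvF m f = 0 → (nU F u ^ k) m = 0 → m = 0 := by
    intro k
    induction k with
    | zero =>
      intro m _ _ h
      simpa using h
    | succ k ih =>
      intro m h1 h2 h3
      rw [pow_succ, Module.End.mul_apply] at h3
      have h4 := ih (nU F u m) (by rw [nU_right hu, h1]) (by rw [nU_left, h2, map_zero]) h3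
      rw [nU_apply, sub_eq_zero] at h4
      obtain ⟨φ, hφ⟩ := inv_pl π hπ hg _ h4
      rw [hφ, pl_cvF] at h2
      rw [← h1, hφ, cvF_pl]
      rw [← LOCX.cvF_comm hf'] at h2
      exact h2
  have B : ∀ (k : ℕ) (m : T → F), cvF f m = 0 → cvF m f = m → (nU F u ^ k) m = 0 → m = 0 := by
    intro k
    induction k with
    | zero =>
      intro m _ _ h
      simpa using h
    | succ k ih =>
      intro m h1 h2 h3
      rw [pow_succ, Module.End.mul_apply] at h3
      have h4 := ih (nU F u m) (by rw [nU_right hu, h1, map_zero]) (by rw [nU_left, h2]) h3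
      rw [nU_apply, sub_eq_zero] at h4
      obtain ⟨φ, hφ⟩ := inv_pl π hπ hg _ h4
      rw [hφ, cvF_pl] at h1
      rw [← h2, hφ, pl_cvF, ← LOCX.cvF_comm hf']
      exact h1
  have hall : ∀ a : T → F, cvF f a = cvF a f := by
    intro a
    have h1 : cvF f a - cvF (cvF f a) f = 0 := by
      refine A ℓ _ ?_ ?_ (by rw [nU_pow hul]; rfl)
      · rw [cvF_sub_right, ← LOCX.cvF_assoc, ← LOCX.cvF_assoc, ← LOCX.cvF_assoc, hf]
      · rw [cvF_sub_left, LOCX.cvF_assoc (cvF f a), hf, sub_self]
    have h2 : cvF a f - cvF (cvF f a) f = 0 := by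
      refine B ℓ _ ?_ ?_ (by rw [nU_pow hul]; rfl)
      · rw [cvF_sub_right, ← LOCX.cvF_assoc, ← LOCX.cvF_assoc, ← LOCX.cvF_assoc, hf, sub_self]
      · rw [cvF_sub_left, LOCX.cvF_assoc (cvF f a), LOCX.cvF_assoc a, hf]
    rw [sub_eq_zero] at h1 h2
    rw [h1, h2]
  intro g x
  classical
  have h1 := congrFun (hall (fun t => if t = g then 1 else 0)) (g * x)
  simp only [cvF] at h1
  rw [Finset.sum_eq_single (g * x * g⁻¹)] at h1
  · rw [Finset.sum_eq_single g] at h1
    · have e1 : (g * x * g⁻¹)⁻¹ * (g * x) = g := by group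
      rw [if_pos e1, mul_one, if_pos rfl, one_mul, inv_mul_cancel_left] at h1
      exact h1
    · intro b _ hb
      rw [if_neg hb, zero_mul]
    · intro h
      exact absurd (Finset.mem_univ _) h
  · intro b _ hb
    rw [if_neg, mul_zero]
    intro h
    apply hb
    have h3 : g * x = b * g := inv_mul_eq_iff_eq_mul.1 h
    rw [h3, mul_inv_cancel_right]
  · intro h
    exact absurd (Finset.mem_univ _) h

/-- A conjugate of `x₀` in the coset of the kernel is `x₀`. -/
theorem claim (π : T →* S) (hπ : Function.Surjective π) (hk : Nat.card π.ker = ℓ)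
    (hc : π.ker ≤ Subgroup.center T) (x₀ : T) (e y : T → F) (hee : cvF e e = e)
    (hey : e = cvF (clsF F x₀) y) (h0 : e ≠ 0) (u : T) (hu : u ∈ π.ker)
    (hx : ∃ g, x₀ * u = g * x₀ * g⁻¹) : u = 1 := by
  by_contra hne
  apply h0
  have hcu : ∀ t, u * t = t * u := fun t => (Subgroup.mem_center_iff.1 (hc hu) t).symm
  have hg : π.ker ≤ Subgroup.zpowers u := by
    intro v hv
    have h1 : (⟨v, hv⟩ : π.ker) ∈ Subgroup.zpowers (⟨u, hu⟩ : π.ker) := by
      apply mem_zpowers_of_prime_card hk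
      intro h
      exact hne (congrArg Subtype.val h)
    obtain ⟨k, hk'⟩ := Subgroup.mem_zpowers_iff.1 h1
    exact Subgroup.mem_zpowers_iff.2 ⟨k, congrArg Subtype.val hk'⟩
  obtain ⟨g₀, hg₀⟩ := hx
  have hcls : tU F u (clsF F x₀) = clsF F x₀ := by
    classical
    funext x
    rw [tU_apply]
    unfold clsF
    have h1 : (∃ g, u⁻¹ * x = g * x₀ * g⁻¹) ↔ ∃ g, x = g * x₀ * g⁻¹ := by
      constructor
      · rintro ⟨g, h⟩
        refine ⟨g * g₀, ?_⟩
        have h2 : x = u * (g * x₀ * g⁻¹) := by rw [← h, mul_inv_cancel_left]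
        calc x = u * g * x₀ * g⁻¹ := by rw [h2]; group
          _ = g * (x₀ * u) * g⁻¹ := by
            rw [hcu g, mul_assoc g u x₀, hcu x₀]
          _ = g * g₀ * x₀ * (g * g₀)⁻¹ := by rw [hg₀]; group
      · rintro ⟨g, h⟩
        refine ⟨g * g₀⁻¹, ?_⟩
        have h3 : g₀⁻¹ * (x₀ * u) * g₀ = x₀ := by
          rw [hg₀]
          group
        have h4 : g₀⁻¹ * x₀ * g₀ * u = x₀ := by
          calc g₀⁻¹ * x₀ * g₀ * u = g₀⁻¹ * x₀ * (g₀ * u) := by rw [mul_assoc]
            _ = g₀⁻¹ * x₀ * (u * g₀) := by rw [hcu g₀]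
            _ = g₀⁻¹ * (x₀ * u) * g₀ := by group
            _ = x₀ := h3
        have h5 : g₀⁻¹ * x₀ * g₀ = x₀ * u⁻¹ := by
          rw [eq_mul_inv_iff_mul_eq]
          exact h4
        have hcu' : u⁻¹ * g = g * u⁻¹ := by
          rw [inv_mul_eq_iff_eq_mul, ← mul_assoc, hcu g, mul_inv_cancel_right]
        have hcu'' : u⁻¹ * x₀ = x₀ * u⁻¹ := by
          rw [inv_mul_eq_iff_eq_mul, ← mul_assoc, hcu x₀, mul_inv_cancel_right]
        calc u⁻¹ * x = u⁻¹ * g * x₀ * g⁻¹ := by rw [h]; group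
          _ = g * (u⁻¹ * x₀) * g⁻¹ := by rw [hcu']; group
          _ = g * (g₀⁻¹ * x₀ * g₀) * g⁻¹ := by rw [hcu'', h5]
          _ = g * g₀⁻¹ * x₀ * (g * g₀⁻¹)⁻¹ := by group
    by_cases h2 : ∃ g, x = g * x₀ * g⁻¹
    · rw [if_pos h2, if_pos (h1.2 h2)]
    · rw [if_neg h2, if_neg fun h => h2 (h1.1 h)]
  have he : tU F u e = e := by
    rw [hey, ← tU_left, hcls]
  obtain ⟨φ, hφ⟩ := inv_pl π hπ hg e he
  have h6 : psh π e = 0 := by
    rw [hφ]
    exact psh_pl (ℓ := ℓ) π hk φ
  rw [← hee]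
  conv_lhs => rw [hφ]
  rw [cvF_pl, ← hφ, h6, cvF_zero_left]
  rfl

theorem comap_cen (π : T →* S) (x₀ : T)
    (hcl : ∀ u ∈ π.ker, (∃ g, x₀ * u = g * x₀ * g⁻¹) → u = 1) :
    (Subgroup.centralizer ({π x₀} : Set S)).comap π = Subgroup.centralizer ({x₀} : Set T) := by
  ext t
  rw [Subgroup.mem_comap, Subgroup.mem_centralizer_iff, Subgroup.mem_centralizer_iff]
  constructor
  · intro h x hx
    rw [Set.mem_singleton_iff] at hx
    subst hx
    have h1 := h (π x) rfl
    rw [← map_mul, ← map_mul] at h1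
    have h2 : x⁻¹ * (t * x * t⁻¹) ∈ π.ker := by
      rw [MonoidHom.mem_ker, map_mul, map_mul, ← h1, ← map_mul, map_inv]
      simp
    have h3 := hcl _ h2 ⟨t, by group⟩
    have h4 : t * x * t⁻¹ = x := by
      have h5 := inv_mul_eq_iff_eq_mul.1 h3
      rw [h5, mul_one]
    exact (mul_inv_eq_iff_eq_mul.1 h4).symm
  · intro h s hs
    rw [Set.mem_singleton_iff] at hs
    subst hs
    rw [← map_mul, ← map_mul, h x₀ rfl]

theorem card_cen (π : T →* S) (hπ : Function.Surjective π) (hk : Nat.card π.ker = ℓ) (x₀ : T)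
    (hcl : ∀ u ∈ π.ker, (∃ g, x₀ * u = g * x₀ * g⁻¹) → u = 1) :
    Nat.card (Subgroup.centralizer ({x₀} : Set T)) =
      ℓ * Nat.card (Subgroup.centralizer ({π x₀} : Set S)) := by
  have h1 := (Subgroup.centralizer ({x₀} : Set T)).card_mul_index
  have h2 := (Subgroup.centralizer ({π x₀} : Set S)).card_mul_index
  have h3 : (Subgroup.centralizer ({x₀} : Set T)).index =
      (Subgroup.centralizer ({π x₀} : Set S)).index := by
    rw [← comap_cen π x₀ hcl, Subgroup.index_comap_of_surjective _ hπ]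
  have h4 : Nat.card T = ℓ * Nat.card S := by
    have h5 := π.ker.card_mul_index
    rw [hk, Subgroup.index_ker, MonoidHom.range_eq_top.2 hπ, Subgroup.card_top] at h5
    exact h5.symm
  have h6 : (Subgroup.centralizer ({π x₀} : Set S)).index ≠ 0 := Subgroup.index_ne_zero_of_finite
  apply Nat.eq_of_mul_eq_mul_right (Nat.pos_of_ne_zero h6)
  rw [← h3, h1, h4, ← h2, h3, mul_assoc]

theorem psh_cls (π : T →* S) (hπ : Function.Surjective π) (hc : π.ker ≤ Subgroup.center T)
    (x₀ : T) (hcl : ∀ u ∈ π.ker, (∃ g, x₀ * u = g * x₀ * g⁻¹) → u = 1) :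
    psh π (clsF F x₀) = clsF F (π x₀) := by
  classical
  funext s
  unfold psh
  by_cases hs : ∃ g, s = g * π x₀ * g⁻¹
  · obtain ⟨g', hg'⟩ := id hs
    obtain ⟨g, rfl⟩ := hπ g'
    have h1 : clsF F (π x₀) s = 1 := by
      unfold clsF
      rw [if_pos hs]
    rw [h1, Finset.sum_eq_single (g * x₀ * g⁻¹)]
    · unfold clsF
      rw [if_pos ⟨g, rfl⟩]
    · intro t ht htne
      have ht' := (Finset.mem_filter.1 ht).2
      unfold clsF
      rw [if_neg]
      rintro ⟨a, ha⟩
      apply htne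
      have h2 : (g * x₀ * g⁻¹)⁻¹ * t ∈ π.ker := by
        rw [MonoidHom.mem_ker, map_mul, ht', hg', map_inv, map_mul, map_mul, map_inv,
          inv_mul_cancel]
      have hcv := Subgroup.mem_center_iff.1 (hc h2)
      have h3 : (g * x₀ * g⁻¹)⁻¹ * t = 1 := by
        apply hcl _ h2
        refine ⟨g⁻¹ * a, ?_⟩
        have h4 : x₀ * ((g * x₀ * g⁻¹)⁻¹ * t) = g⁻¹ * (g * x₀ * g⁻¹ *
            ((g * x₀ * g⁻¹)⁻¹ * t)) * g := by
          calc x₀ * ((g * x₀ * g⁻¹)⁻¹ * t) = g⁻¹ * (g * x₀ * g⁻¹) *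
              (g * ((g * x₀ * g⁻¹)⁻¹ * t)) := by group
            _ = g⁻¹ * (g * x₀ * g⁻¹) * (((g * x₀ * g⁻¹)⁻¹ * t) * g) := by rw [hcv g]
            _ = _ := by group
        rw [h4, mul_inv_cancel_left, ha]
        group
      have h5 := inv_mul_eq_iff_eq_mul.1 h3
      rw [h5, mul_one]
    · intro h
      exfalso
      apply h
      rw [Finset.mem_filter]
      refine ⟨Finset.mem_univ _, ?_⟩
      rw [hg']
      simp
  · have h1 : clsF F (π x₀) s = 0 := by
      unfold clsF
      rw [if_neg hs]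
    rw [h1]
    refine Finset.sum_eq_zero fun t ht => ?_
    have ht' := (Finset.mem_filter.1 ht).2
    unfold clsF
    rw [if_neg]
    rintro ⟨a, ha⟩
    apply hs
    refine ⟨π a, ?_⟩
    rw [← ht', ha]
    simp

theorem exists_nz (π : T →* S) (hπ : Function.Surjective π) (hk : Nat.card π.ker = ℓ)
    (hc : π.ker ≤ Subgroup.center T) (P : Subgroup T) (hP : IsPGroup ℓ P)
    (e : T → F) (he : e ∈ CF F T) (hee : cvF e e = e) (hnz : ∃ h, e h ≠ 0 ∧ ∀ u ∈ P, u * h = h * u) :
    ∃ h, psh π e h ≠ 0 ∧ ∀ u ∈ P.map π, u * h = h * u := by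
  classical
  obtain ⟨u, hu1⟩ : ∃ u : π.ker, u ≠ 1 := by
    have : Nontrivial π.ker := by
      rw [← Finite.one_lt_card_iff_nontrivial, hk]
      exact (Fact.out : ℓ.Prime).one_lt
    exact exists_ne 1
  have hcu : ∀ t, (u : T) * t = t * u := fun t => (Subgroup.mem_center_iff.1 (hc u.2) t).symm
  have hg : π.ker ≤ Subgroup.zpowers (u : T) := by
    intro v hv
    have h1 : (⟨v, hv⟩ : π.ker) ∈ Subgroup.zpowers u := mem_zpowers_of_prime_card hk hu1
    obtain ⟨k, hk'⟩ := Subgroup.mem_zpowers_iff.1 h1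
    exact Subgroup.mem_zpowers_iff.2 ⟨k, congrArg Subtype.val hk'⟩
  have hul : (u : T) ^ ℓ = 1 := by
    have h1 : u ^ ℓ = 1 := by
      rw [← hk]
      exact pow_card_eq_one'
    exact congrArg Subtype.val h1
  let er : T → F := fun x => if x ∈ Subgroup.centralizer (P : Set T) then e x else 0
  have hcen : ∀ x, x ∈ Subgroup.centralizer (P : Set T) ↔ ∀ p ∈ P, p * x * p⁻¹ = x := by
    intro x
    rw [Subgroup.mem_centralizer_iff]
    exact forall₂_congr fun p _ => mul_inv_eq_iff_eq_mul.symm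
  have hM : ∀ m : F, ℓ • m = 0 := by
    intro m
    rw [nsmul_eq_mul, CharP.cast_eq_zero, zero_mul]
  have her : cvF er er = er := by
    funext x
    show ∑ y, er y * er (y⁻¹ * x) = er x
    by_cases hx : x ∈ Subgroup.centralizer (P : Set T)
    · have h1 : er x = ∑ y, e y * e (y⁻¹ * x) := by
        show (if x ∈ Subgroup.centralizer (P : Set T) then e x else 0) = _
        rw [if_pos hx]
        exact (congrFun hee x).symm
      rw [h1]
      let _ : MulAction P T :=
        { smul := fun q y => (q : T) * y * (q : T)⁻¹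
          one_smul := by
            intro y
            change ((1 : P) : T) * y * ((1 : P) : T)⁻¹ = y
            simp
          mul_smul := by
            intro a b y
            change ((a * b : P) : T) * y * ((a * b : P) : T)⁻¹ =
              a.1 * (b.1 * y * b.1⁻¹) * a.1⁻¹
            simp [mul_assoc] }
      have hsmul : ∀ (q : P) (y : T), q • y = (q : T) * y * (q : T)⁻¹ := fun _ _ => rfl
      have hs : ∀ (q : P) (y : T), e (q • y) * e ((q • y)⁻¹ * x) = e y * e (y⁻¹ * x) := by
        intro q y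
        rw [hsmul, he]
        have h2 : ((q : T) * y * (q : T)⁻¹)⁻¹ * x = (q : T) * (y⁻¹ * x) * (q : T)⁻¹ := by
          have h3 : (q : T) * x * (q : T)⁻¹ = x := (hcen x).1 hx q q.2
          calc ((q : T) * y * (q : T)⁻¹)⁻¹ * x =
              ((q : T) * y * (q : T)⁻¹)⁻¹ * ((q : T) * x * (q : T)⁻¹) := by rw [h3]
            _ = _ := by group
        rw [h2, he]
      rw [sum_eq_sum_fixed hP hM (fun y => e y * e (y⁻¹ * x)) hs]
      rw [Finset.sum_filter]
      refine Finset.sum_congr rfl fun y _ => ?_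
      have h3 : (∀ q : P, q • y = y) ↔ y ∈ Subgroup.centralizer (P : Set T) := by
        rw [hcen]
        exact ⟨fun h p hp => h ⟨p, hp⟩, fun h q => h q q.2⟩
      by_cases hy : y ∈ Subgroup.centralizer (P : Set T)
      · rw [if_pos (h3.2 hy)]
        show (if y ∈ Subgroup.centralizer (P : Set T) then e y else 0) *
          (if y⁻¹ * x ∈ Subgroup.centralizer (P : Set T) then e (y⁻¹ * x) else 0) = _
        rw [if_pos hy, if_pos (mul_mem (inv_mem hy) hx)]
      · rw [if_neg fun h => hy (h3.1 h)]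
        show (if y ∈ Subgroup.centralizer (P : Set T) then e y else 0) * _ = _
        rw [if_neg hy, zero_mul]
    · have h1 : er x = 0 := if_neg hx
      rw [h1]
      refine Finset.sum_eq_zero fun y _ => ?_
      by_cases hy : y ∈ Subgroup.centralizer (P : Set T)
      · have h2 : y⁻¹ * x ∉ Subgroup.centralizer (P : Set T) := by
          intro h
          apply hx
          have h3 := mul_mem hy h
          rwa [mul_inv_cancel_left] at h3
        have h3 : er (y⁻¹ * x) = 0 := if_neg h2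
        rw [h3, mul_zero]
      · have h3 : er y = 0 := if_neg hy
        rw [h3, zero_mul]
  have her0 : er ≠ 0 := by
    obtain ⟨h, hh, hh'⟩ := hnz
    intro h0
    apply hh
    have h1 : h ∈ Subgroup.centralizer (P : Set T) := by
      rw [Subgroup.mem_centralizer_iff]
      exact hh'
    have h2 := congrFun h0 h
    have h3 : er h = e h := if_pos h1
    rw [h3] at h2
    exact h2
  have hp : psh π er ≠ 0 := fun h =>
    her0 (idem_zero π hπ hg hcu hul er her h)
  obtain ⟨s, hs⟩ := Function.ne_iff.1 hp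
  have hs' : psh π er s ≠ 0 := hs
  obtain ⟨t, ht, ht0⟩ := Finset.exists_ne_zero_of_sum_ne_zero hs'
  have hts : π t = s := (Finset.mem_filter.1 ht).2
  have htc : t ∈ Subgroup.centralizer (P : Set T) := by
    by_contra h
    exact ht0 (if_neg h)
  refine ⟨s, ?_, ?_⟩
  · have h1 : psh π e s = psh π er s := by
      unfold psh
      refine Finset.sum_congr rfl fun x hx => ?_
      have hxs : π x = s := (Finset.mem_filter.1 hx).2
      have h2 : t⁻¹ * x ∈ π.ker := by
        rw [MonoidHom.mem_ker, map_mul, map_inv, hts, hxs, inv_mul_cancel]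
      have h3 : x ∈ Subgroup.centralizer (P : Set T) := by
        have h4 : t⁻¹ * x ∈ Subgroup.centralizer (P : Set T) :=
          Subgroup.center_le_centralizer _ (hc h2)
        have h5 := mul_mem htc h4
        rwa [mul_inv_cancel_left] at h5
      exact (if_pos h3).symm
    rw [h1]
    exact hs'
  · rintro _ ⟨p, hp, rfl⟩
    rw [← hts, ← map_mul, ← map_mul]
    congr 1
    exact Subgroup.mem_centralizer_iff.1 htc p hp

end Basic

end QUAX

open _root_.Pool.Agent.DPX.QUAX in
/-- QUAX. -/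
theorem QUAX_thm (h1 : Stmt_SUPX) : Stmt_QUAX := by
  intro ℓ n _ F T S _ _ _ _ _ _ _ π P₁ P x₀ e hπ hker hcen hB hprm
  obtain ⟨hecf, hee, he0, hprim⟩ := hprm
  have hk : Nat.card π.ker = ℓ := by
    rw [hker]
    exact hB.cd.c1
  have hc : π.ker ≤ Subgroup.center T := by
    rw [hker]
    exact hcen
  obtain ⟨y, hy, hey⟩ := hB.fac
  have hcl : ∀ u ∈ π.ker, (∃ g, x₀ * u = g * x₀ * g⁻¹) → u = 1 := fun u hu hx =>
    claim π hπ hk hc x₀ e y hee hey he0 u hu hx
  have hP : IsPGroup ℓ P := IsPGroup.of_card hB.cd.card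
  have hE := exists_nz π hπ hk hc P hP e hecf hee hB.nz
  have hcls : psh π (clsF F x₀) = clsF F (π x₀) := psh_cls π hπ hc x₀ hcl
  obtain ⟨u, hu1⟩ : ∃ u : π.ker, u ≠ 1 := by
    have : Nontrivial π.ker := by
      rw [← Finite.one_lt_card_iff_nontrivial, hk]
      exact (Fact.out : ℓ.Prime).one_lt
    exact exists_ne 1
  have hcu : ∀ t, (u : T) * t = t * u := fun t => (Subgroup.mem_center_iff.1 (hc u.2) t).symm
  have hg : π.ker ≤ Subgroup.zpowers (u : T) := by
    intro v hv
    have h1 : (⟨v, hv⟩ : π.ker) ∈ Subgroup.zpowers u := mem_zpowers_of_prime_card hk hu1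
    obtain ⟨k, hk'⟩ := Subgroup.mem_zpowers_iff.1 h1
    exact Subgroup.mem_zpowers_iff.2 ⟨k, congrArg Subtype.val hk'⟩
  have hul : (u : T) ^ ℓ = 1 := by
    have h1 : u ^ ℓ = 1 := by
      rw [← hk]
      exact pow_card_eq_one'
    exact congrArg Subtype.val h1
  refine ⟨card_cen π hπ hk x₀ hcl, hcls, ⟨psh_mem π hπ hecf, ?_, ?_, ?_⟩,
    ⟨psh π y, psh_mem π hπ hy, ?_⟩, hE⟩
  · rw [← psh_cvF, hee]
  · obtain ⟨h, hh, -⟩ := hE
    intro h0
    exact hh (congrFun h0 h)
  · intro f' hf' hff hef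
    obtain ⟨f, hf, hpf⟩ := lift π hπ hg hcu hul f' hff
    have hfc : f ∈ CF F T := central π hπ hg hcu hul f hf (by rw [hpf]; exact hf')
    have h2 : cvF (cvF e f) (cvF e f) = cvF e f := by
      rw [LOCX.cvF_assoc, ← LOCX.cvF_assoc f, ← LOCX.cvF_comm hecf f, LOCX.cvF_assoc, hf,
        ← LOCX.cvF_assoc, hee]
    rcases hprim (cvF e f) (LOCX.cvF_mem hecf hfc) h2 (by rw [← LOCX.cvF_assoc, hee]) with h3 | h3
    · left
      rw [← hef, ← hpf, ← psh_cvF, h3]
      funext s
      simp [psh]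
    · right
      rw [← hef, ← hpf, ← psh_cvF, h3]
  · rw [← hcls, ← psh_cvF, ← hey]

end Pool.Agent.DPX


end
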