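import Mathlib
import Pool.Agent.DAM.C01
import Pool.Agent.DAM.C11
import Pool.Agent.DAM.C14
import Pool.Agent.DAM.C15
import Pool.Agent.DAM.C22
import Pool.Agent.DAM.C26
import Pool.Agent.DAM.C27
import Pool.Agent.DAM.C37
import Pool.Agent.DAM.C44
import Pool.Agent.DAM.C45
import Pool.Agent.DAM.C66
import Pool.Agent.DAM.C85

/-! Parts: DPT.DEFR, DPT.CHI, DPT.PSY, DPV.PRJB, DPW.NPJB, DPX.SCXX -/

section

/-!
# DEFR: a criterion for the smallest possible defect
-/

set_option autoImplicit false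

namespace Pool.Agent.DPT

open Pool.Agent.DP Pool.Agent.DPC Pool.Agent.DPM Pool.Agent.DPN Pool.Agent.Lib_helper13
open Representation

namespace DEFR

/-- The class equation: the size of a conjugacy class times the order of the centralizer. -/
theorem card_class_mul {L : Type} [Group L] [Finite L] (y : L) :
    (ConjClasses.mk y).carrier.ncard * Nat.card (Subgroup.centralizer {y}) = Nat.card L := by
  rw [← ConjAct.orbit_eq_carrier_conjClasses, ← MulAction.index_stabilizer,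
    Subgroup.nat_card_centralizer_nat_card_stabilizer, mul_comm]
  exact Subgroup.card_mul_index (MulAction.stabilizer (ConjAct L) y)

/-- The sum of a class function with integral values is divisible by each common divisor of the
sizes of the classes in its support. -/
theorem sum_dvd {L : Type} [Group L] [Fintype L] (h : L → ℂ)
    (hc : ∀ g x, h (g * x * g⁻¹) = h x) (hi : ∀ x, IsIntegral ℤ (h x)) (N : ℕ)
    (hN : ∀ y, h y ≠ 0 → N ∣ (ConjClasses.mk y).carrier.ncard) :
    ∃ a : ℂ, IsIntegral ℤ a ∧ ∑ y, h y = N * a := by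
  classical
  have h1 : ∀ c : ConjClasses L, ∃ a : ℂ, IsIntegral ℤ a ∧
      ∑ y ∈ Finset.univ.filter (fun y => ConjClasses.mk y = c), h y = N * a := by
    intro c
    obtain ⟨x, rfl⟩ := c.exists_rep
    have h2 : ∀ y ∈ Finset.univ.filter (fun y : L => ConjClasses.mk y = ConjClasses.mk x),
        h y = h x := by
      intro y hy
      have h3 : ConjClasses.mk y = ConjClasses.mk x := (Finset.mem_filter.mp hy).2
      rw [ConjClasses.mk_eq_mk_iff_isConj] at h3
      obtain ⟨g, hg⟩ := isConj_iff.mp h3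
      rw [← hg, hc]
    have h3 : ∑ y ∈ Finset.univ.filter (fun y : L => ConjClasses.mk y = ConjClasses.mk x), h y =
        ((ConjClasses.mk x).carrier.ncard : ℂ) * h x := by
      rw [Finset.sum_congr rfl h2, Finset.sum_const, nsmul_eq_mul]
      congr 2
      rw [← Set.ncard_coe_finset]
      congr 1
      ext y
      simp only [Finset.coe_filter, Finset.mem_univ, true_and, Set.mem_ofPred_eq]
      exact ConjClasses.mem_carrier_iff_mk_eq.symm
    by_cases hx : h x = 0
    · refine ⟨0, isIntegral_zero, ?_⟩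
      rw [h3, hx, mul_zero, mul_zero]
    · obtain ⟨m, hm⟩ := hN x hx
      refine ⟨m * h x, (Pool.Agent.Lib_helper13.isIntegral_natCast m).mul (hi x), ?_⟩
      rw [h3, hm]
      push_cast
      ring
  choose a ha ha' using h1
  refine ⟨∑ c, a c, isIntegral_sum _ _ fun c _ => ha c, ?_⟩
  rw [Finset.mul_sum, ← Finset.sum_fiberwise Finset.univ (fun y => ConjClasses.mk y) h]
  exact Finset.sum_congr rfl fun c _ => ha' c

/-- A Sylow subgroup argument: if all elements of `ℓ`-power order of the group lie in the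
subgroup `Z`, the `ℓ`-part of the order is at most that of `Z`. -/
theorem val_le {K : Type} [Group K] [Finite K] (ℓ : ℕ) [Fact ℓ.Prime] {W : Type} [Group W]
    [Finite W] (T : Subgroup W) (j : K →* W) (hj : Function.Injective j)
    (h : ∀ g : K, ∀ n : ℕ, g ^ ℓ ^ n = 1 → j g ∈ T) :
    padicValNat ℓ (Nat.card K) ≤ padicValNat ℓ (Nat.card T) := by
  obtain ⟨P⟩ : Nonempty (Sylow ℓ K) := inferInstance
  have h1 : ∀ g : P, j g ∈ T := by
    intro g
    obtain ⟨n, hn⟩ := P.isPGroup' g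
    apply h g n
    have h2 := congrArg (Subtype.val) hn
    simpa using h2
  have hinj : Function.Injective ((j.comp (P : Subgroup K).subtype).codRestrict T h1) := by
    intro a b hab
    have h2 := congrArg (Subtype.val) hab
    apply Subtype.ext
    apply hj
    exact h2
  have h3 := Subgroup.card_dvd_of_injective _ hinj
  have h4 : ℓ ^ (padicValNat ℓ (Nat.card K)) ∣ Nat.card T := by
    have h5 := P.card_eq_multiplicity
    rw [Nat.factorization_def _ (Fact.out : ℓ.Prime)] at h5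
    rw [← h5]
    exact h3
  exact (padicValNat_dvd_iff_le Nat.card_pos.ne').mp h4

/-- The order of the inverse image. -/
theorem card_comap {Y G : Type} [Group Y] [Finite Y] [Group G] [Finite G] (k : Y →* G)
    (C : Subgroup G) (hC : C ≤ k.range) :
    Nat.card (C.comap k) = Nat.card k.ker * Nat.card C := by
  have hs : Function.Surjective (k.subgroupComap C) := by
    rintro ⟨c, hc⟩
    obtain ⟨y, rfl⟩ := hC hc
    exact ⟨⟨y, hc⟩, rfl⟩
  have h1 := Subgroup.card_mul_index (k.subgroupComap C).ker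
  rw [Subgroup.index_ker, MonoidHom.range_eq_top_of_surjective _ hs, Subgroup.card_top] at h1
  rw [← h1]
  congr 1
  refine Nat.card_congr ⟨fun y => ⟨y.1.1, ?_⟩, fun y => ⟨⟨y.1, ?_⟩, ?_⟩, fun y => ?_, fun y => ?_⟩
  · exact congrArg Subtype.val (MonoidHom.mem_ker.mp y.2)
  · rw [Subgroup.mem_comap, MonoidHom.mem_ker.mp y.2]
    exact C.one_mem
  · rw [MonoidHom.mem_ker]
    exact Subtype.ext (MonoidHom.mem_ker.mp y.2)
  · rfl
  · rfl

/-- The sizes of the classes. -/
theorem class_dvd {Y G : Type} [Group Y] [Finite Y] [Group G] [Finite G] (ℓ : ℕ) [Fact ℓ.Prime]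
    (k : Y →* G) (C : Subgroup G) (hC : C ≤ k.range) (x : G)
    (hcen : ∀ g ∈ C, g * x = x * g → ∀ n : ℕ, g ^ ℓ ^ n = 1 → g = 1) (y : C.comap k)
    (g : G) (hg : g ∈ C) (hy : k y = g * x * g⁻¹) :
    ℓ ^ padicValNat ℓ (Nat.card C) ∣ (ConjClasses.mk y).carrier.ncard := by
  have h1 : padicValNat ℓ (Nat.card (Subgroup.centralizer {y})) ≤
      padicValNat ℓ (Nat.card k.ker) := by
    apply val_le ℓ k.ker ((C.comap k).subtype.comp (Subgroup.centralizer {y}).subtype)
    · exact (C.comap k).subtype_injective.comp (Subgroup.centralizer {y}).subtype_injective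
    · intro c n hn
      have h2 : (c : C.comap k) * y = y * c := Subgroup.mem_centralizer_singleton_iff.mp c.2
      have h3 : k (c : C.comap k) * k y = k y * k (c : C.comap k) := by
        rw [← map_mul, ← map_mul]
        exact congrArg (fun t : C.comap k => k t) h2
      have h4 : k (c : C.comap k) ∈ C := (c : C.comap k).2
      have h5 : (k (c : C.comap k)) ^ ℓ ^ n = 1 := by
        have h6 := congrArg (fun t : Subgroup.centralizer {y} => k (t : C.comap k)) hn
        simpa using h6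
      have h7 := hcen (g⁻¹ * k (c : C.comap k) * g) (C.mul_mem (C.mul_mem (C.inv_mem hg) h4) hg)
        (by
          rw [hy] at h3
          have h8 : g⁻¹ * (k (c : C.comap k) * (g * x * g⁻¹)) * g =
              g⁻¹ * (g * x * g⁻¹ * k (c : C.comap k)) * g := by rw [h3]
          calc g⁻¹ * k (c : C.comap k) * g * x = g⁻¹ * (k (c : C.comap k) * (g * x * g⁻¹)) * g := by
                group
            _ = g⁻¹ * (g * x * g⁻¹ * k (c : C.comap k)) * g := h8
            _ = x * (g⁻¹ * k (c : C.comap k) * g) := by group) n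
        (by
          have h9 : (g⁻¹ * k (c : C.comap k) * g) ^ ℓ ^ n =
              g⁻¹ * (k (c : C.comap k)) ^ ℓ ^ n * g := by
            have := conj_pow (i := ℓ ^ n) (a := g⁻¹) (b := k (c : C.comap k))
            rw [inv_inv] at this
            exact this
          rw [h9, h5]
          group)
      rw [MonoidHom.mem_ker]
      change k (c : C.comap k) = 1
      have h10 : g * (g⁻¹ * k (c : C.comap k) * g) * g⁻¹ = g * 1 * g⁻¹ := by rw [h7]
      calc k (c : C.comap k) = g * (g⁻¹ * k (c : C.comap k) * g) * g⁻¹ := by group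
        _ = g * 1 * g⁻¹ := h10
        _ = 1 := by group
  have h2 := card_class_mul y
  have h3 := card_comap k C hC
  have hn0 : (ConjClasses.mk y).carrier.ncard ≠ 0 := by
    intro h0
    rw [h0, zero_mul] at h2
    exact Nat.card_pos.ne' h2.symm
  have h4 : padicValNat ℓ ((ConjClasses.mk y).carrier.ncard) +
      padicValNat ℓ (Nat.card (Subgroup.centralizer {y})) =
      padicValNat ℓ (Nat.card k.ker) + padicValNat ℓ (Nat.card C) := by
    rw [← padicValNat.mul hn0 Nat.card_pos.ne', ← padicValNat.mul Nat.card_pos.ne'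
      Nat.card_pos.ne', h2, h3]
  rw [padicValNat_dvd_iff_le hn0]
  omega

end DEFR

theorem DEFR_thm (h1 : Stmt_DEFA) : Stmt_DEFR := by
  intro Y G _ _ _ _ 𝔐 ℓ _ h𝔐 hℓ k hk lam C hC χ hχ hOv x hx hcen F hF hFi hFs hred
  classical
  have hP : 𝔐.IsPrime := h𝔐.isPrime
  refine ⟨hχ, ?_⟩
  have hψ : IsIrr (fun s : C.comap k => χ s) := hχ.1
  obtain ⟨d, n, hn, hdn⟩ := hψ.exists_defect (ℓ := ℓ)
  have hker : k.ker ≤ C.comap k := by
    intro z hz
    rw [Subgroup.mem_comap, MonoidHom.mem_ker.mp hz]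
    exact C.one_mem
  have hZc : Nat.card (k.ker.subgroupOf (C.comap k)) = Nat.card k.ker :=
    Nat.card_congr (Subgroup.subgroupOfEquivOfLe hker).toEquiv
  have hge : padicValNat ℓ (Nat.card k.ker) ≤ d := by
    rw [← hZc]
    refine DLO.defect_ge h1 ℓ (k.ker.subgroupOf (C.comap k)) ?_ hψ ⟨n, hn, hdn⟩
    intro z hz
    rw [Subgroup.mem_center_iff]
    intro g
    apply Subtype.ext
    exact Subgroup.mem_center_iff.mp (hk.cen (Subgroup.mem_subgroupOf.mp hz)) g
  have hcard := DEFR.card_comap k C hC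
  have hvL : padicValNat ℓ (Nat.card (C.comap k)) =
      padicValNat ℓ (Nat.card k.ker) + padicValNat ℓ (Nat.card C) := by
    rw [hcard, padicValNat.mul Nat.card_pos.ne' Nat.card_pos.ne']
  refine ⟨n, hn, ?_⟩
  by_contra hne
  have hlt : padicValNat ℓ n < padicValNat ℓ (Nat.card C) := by omega
  have hn0 : n ≠ 0 := by
    rintro rfl
    apply hψ.one_ne_zero
    change (fun s : C.comap k => χ s) 1 = 0
    rw [hn, Nat.cast_zero]
  obtain ⟨a, ha, hsum⟩ := DEFR.sum_dvd (fun y : C.comap k => F y * χ y)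
    (by
      intro g y
      have h2 : χ ((g : Y) * y * (g : Y)⁻¹) = χ y := hψ.conj_eq g y
      have h3 := hF g g.2 y y.2
      change F ((g : Y) * y * (g : Y)⁻¹) * χ ((g : Y) * y * (g : Y)⁻¹) = F y * χ y
      rw [h3, h2])
    (fun y => (hFi y).mul (isIntegral_char hψ y)) (ℓ ^ padicValNat ℓ (Nat.card C))
    (by
      intro y hy
      have hFy : F y ≠ 0 := by
        intro h0
        apply hy
        change F y * χ y = 0
        rw [h0, zero_mul]
      obtain ⟨g, hg, hgy⟩ := hFs y y.2 hFy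
      exact DEFR.class_dvd ℓ k C hC x hcen y g hg hgy)
  have hwt : IsIntegral ℤ (wS (C.comap k) χ F) := by
    apply isIntegral_wt hψ
    · intro g y
      exact hF g g.2 y y.2
    · intro y
      exact hFi y
  obtain ⟨m, hm⟩ : ℓ ^ padicValNat ℓ n ∣ n := pow_padicValNat_dvd
  have hmℓ : ¬ ℓ ∣ m := by
    rintro ⟨t, ht⟩
    have h2 : ℓ ^ (padicValNat ℓ n + 1) ∣ n := ⟨t, by
      rw [pow_succ, mul_assoc, ← ht]
      exact hm⟩
    have h3 := (padicValNat_dvd_iff_le hn0).mp h2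
    omega
  have hℓ0 : (ℓ : ℂ) ≠ 0 := by exact_mod_cast (Fact.out : ℓ.Prime).ne_zero
  obtain ⟨e, he⟩ : ∃ e, padicValNat ℓ (Nat.card C) = padicValNat ℓ n + 1 + e :=
    ⟨_, (Nat.add_sub_of_le hlt).symm⟩
  have hmul : (m : ℂ) * wS (C.comap k) χ F = (ℓ : ℕ) * ((ℓ : ℂ) ^ e * a) := by
    have h2 : wS (C.comap k) χ F = (((ℓ ^ padicValNat ℓ (Nat.card C) : ℕ) : ℂ) * a) / n := by
      change (∑ y : C.comap k, F y * χ y) / (fun s : C.comap k => χ s) 1 = _
      rw [hn, hsum]
    have hnC : (n : ℂ) = (ℓ : ℂ) ^ padicValNat ℓ n * m := by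
      have : ((ℓ ^ padicValNat ℓ n * m : ℕ) : ℂ) = (ℓ : ℂ) ^ padicValNat ℓ n * m := by
        push_cast
        ring
      rw [← this, ← hm]
    have hm0 : (m : ℂ) ≠ 0 := by
      intro h0
      apply hn0
      have : m = 0 := by exact_mod_cast h0
      rw [hm, this, mul_zero]
    have hp0 : (ℓ : ℂ) ^ padicValNat ℓ n ≠ 0 := pow_ne_zero _ hℓ0
    rw [h2, he, Nat.cast_pow, pow_add, pow_add, pow_one]
    rw [mul_div_assoc', eq_comm, eq_div_iff (by exact_mod_cast hn0)]
    rw [hnC]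
    ring
  apply hred
  have hz : red 𝔐 ((ℓ : ℕ) * ((ℓ : ℂ) ^ e * a)) = 0 := by
    rw [red_natCast_mul 𝔐 ℓ (((Pool.Agent.Lib_helper13.isIntegral_natCast ℓ).pow e).mul ha)]
    exact nsmul_quot_eq_zero 𝔐 hℓ _
  rw [← hmul, red_mul 𝔐 (Pool.Agent.Lib_helper13.isIntegral_natCast m) hwt] at hz
  rcases mul_eq_zero.mp hz with h | h
  · exact absurd h (red_card_ne_zero 𝔐 hℓ hmℓ)
  · exact h

end Pool.Agent.DPT


end

section

/-!
# CHI: the chains of `M` as chains of `K`
-/

namespace Pool.Agent.DPT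

open Pool.Agent.DP Pool.Agent.DPC Pool.Agent.DPM Pool.Agent.DPN Pool.Agent.Lib_helper13
open Representation

theorem CHI_thm : Stmt_CHI := by
  classical
  intro K _ _ ℓ M W
  have h := sum_Ch_range (i := M.subtype) M.subtype_injective ℓ (⊥ : Subgroup M)
    (fun σ => (-1 : ℚ) ^ σ.card * W (stb σ))
  rw [Subgroup.map_bot] at h
  unfold CS
  have h1 : ∀ σ : Finset (Subgroup K), (∀ D ∈ σ, D ≤ M.subtype.range) ↔ ∀ D ∈ σ, D ≤ M := by
    intro σ
    rw [Subgroup.range_subtype]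
  rw [Finset.filter_congr (fun σ _ => h1 σ)] at h
  have h2 : ∑ τ ∈ Ch ℓ (⊥ : Subgroup M), (-1 : ℚ) ^ τ.card * W (stb (mapCh M.subtype τ)) =
      ∑ τ ∈ Ch ℓ (⊥ : Subgroup M),
        (-1 : ℚ) ^ (mapCh M.subtype τ).card * W (stb (mapCh M.subtype τ)) := by
    apply Finset.sum_congr rfl
    intro τ _
    rw [card_mapCh M.subtype_injective]
  rw [h2]
  exact h.symm

end Pool.Agent.DPT


end

section

/-!
# Module DPT_PSY: the sum over the chains of a minimal counterexample and the sum over the chains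
of a normal subgroup (the statement PSZ of DPF)
-/

namespace Pool.Agent.DPT

open Pool.Agent.DP Pool.Agent.DPC Pool.Agent.DPM Pool.Agent.DPN Pool.Agent.Lib_helper13
open Representation
open Pool.Agent.Lib_helper13.Dade (pCore DadeHolds dadeSum)

namespace PSY

/-- A nontrivial chain of `ℓ`-subgroups of a group without normal `ℓ`-subgroups is not
normalized by the group. -/
theorem stb_ne_top {K : Type} [Group K] [Fintype K] {ℓ : ℕ} (hcore : pCore ℓ K = ⊥)
    {c : Finset (Subgroup K)} (hc : IsCh ℓ ⊥ c) (hne : c.Nonempty) : stb c ≠ ⊤ := by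
  intro htop
  have h1 : (tp (⊥ : Subgroup K) c).Normal := PSN.tp_normal hc hne htop
  have h2 : IsPGroup ℓ (tp (⊥ : Subgroup K) c) := (hc.1 _ (PSN.tp_mem hc hne)).1
  have h3 : tp (⊥ : Subgroup K) c ≠ ⊥ := (hc.1 _ (PSN.tp_mem hc hne)).2.ne'
  have h4 : tp (⊥ : Subgroup K) c ≤ pCore ℓ K := le_sSup ⟨h1, h2⟩
  rw [hcore] at h4
  exact h3 (le_bot_iff.mp h4)

/-- The stabilizer of a nontrivial chain is smaller than the group. -/
theorem card_stb_lt {K : Type} [Group K] [Fintype K] {ℓ : ℕ} (hcore : pCore ℓ K = ⊥)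
    {c : Finset (Subgroup K)} (hc : IsCh ℓ ⊥ c) (hne : c.Nonempty) :
    Nat.card ↥(stb c) < Nat.card K := by
  refine lt_of_le_of_ne (Subgroup.card_le_card_group _) ?_
  intro h
  exact stb_ne_top hcore hc hne (Subgroup.eq_top_of_card_eq _ h)

end PSY

open _root_.Pool.Agent.DPT.PSY in
/-- MODULE DPT_PSY -/
theorem PSY_thm (h1 : Stmt_PSN) (h2 : Stmt_CRS) (h3 : Stmt_OCN) (h4 : Stmt_SPLM)
    (h5 : Stmt_CHI) : Stmt_PSY := by
  classical
  intro L K H _ _ _ _ _ _ 𝔐 ℓ _ h𝔐 hℓ π hπ hker μ hcore hQ M hM p _ hpk P hP ω hPos d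
  rw [PSO.DKU_eq, PSO.PHU_eq h5, PSN.CS_top_eq h4 ℓ M hM]
  have hemp : (∅ : Finset (Subgroup K)) ∈ OutC ℓ (⊥ : Subgroup K) M := by
    rw [OutC, Finset.mem_filter, mem_Ch]
    exact ⟨isCh_empty ℓ ⊥, by simp⟩
  rw [← Finset.add_sum_erase _ _ hemp, PSN.innerS_empty h5, Finset.card_empty, pow_zero,
    one_mul, Finset.sum_eq_zero, add_zero]
  intro c hc
  rw [Finset.mem_erase, OutC, Finset.mem_filter, mem_Ch] at hc
  obtain ⟨hc0, hc1, hc2⟩ := hc
  by_contra hne
  have hin : innerS ℓ ⊥ M (WF 𝔐 ℓ d π μ M ω) c ≠ 0 := right_ne_zero_of_mul hne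
  have hlt := card_stb_lt hcore hc1 (Finset.nonempty_iff_ne_empty.mpr hc0)
  have hPL : PL ℓ ↥(stb c) := h2 ℓ _ (h1 ℓ _ (hQ _ hlt))
  exact PSO.not_GdF hPos (h3 L K H 𝔐 ℓ h𝔐 hℓ π hπ hker μ M hM p hpk (PSO.hh hP) c hc1 hc2 hPL
    ω d hin)

end Pool.Agent.DPT


end

section

/-!
# PRJB: extension of an invariant character to a fibre product
-/

namespace Pool.Agent.DPV

open Pool.Agent.DP Pool.Agent.Lib_helper13 Representation
open Pool.Agent.Lib_helper13.Dade (pCore DadeHolds dadeSum)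

namespace PRJB

/-- A representation whose restriction is irreducible is irreducible. -/
theorem irr_of_res {A Y : Type} [Group A] [Group Y] {n : ℕ}
    (ρ : Representation ℂ Y (Fin n → ℂ)) (R : Representation ℂ A (Fin n → ℂ))
    (j : A →* Y) (h : ∀ a, ρ (j a) = R a) (hR : R.IsIrreducible) : ρ.IsIrreducible := by
  let F : Subrepresentation ρ → Subrepresentation R := fun U =>
    ⟨U.toSubmodule, fun g v hv => by
      rw [← h]
      exact U.apply_mem_toSubmodule (j g) hv⟩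
  refine { exists_pair_ne := ?_, eq_bot_or_eq_top := ?_ }
  · refine ⟨⊥, ⊤, fun hbt => ?_⟩
    obtain ⟨x, y, hxy⟩ := hR.exists_pair_ne
    apply hxy
    have h1 : ∀ v : Fin n → ℂ, v = 0 := by
      intro v
      have h2 : v ∈ (⊤ : Subrepresentation ρ) := by
        change v ∈ (⊤ : Submodule ℂ (Fin n → ℂ))
        trivial
      rw [← hbt] at h2
      change v ∈ (⊥ : Submodule ℂ (Fin n → ℂ)) at h2
      simpa using h2
    ext v
    rw [h1 v]
    constructor
    · intro _
      exact y.toSubmodule.zero_mem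
    · intro _
      exact x.toSubmodule.zero_mem
  · intro U
    rcases hR.eq_bot_or_eq_top (F U) with h1 | h1
    · left
      have h2 := congrArg Subrepresentation.toSubmodule h1
      change U.toSubmodule = ⊥ at h2
      ext v
      change v ∈ U.toSubmodule ↔ v ∈ (⊥ : Submodule ℂ (Fin n → ℂ))
      rw [h2]
    · right
      have h2 := congrArg Subrepresentation.toSubmodule h1
      change U.toSubmodule = ⊤ at h2
      ext v
      change v ∈ U.toSubmodule ↔ v ∈ (⊤ : Submodule ℂ (Fin n → ℂ))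
      rw [h2]

variable {D S K : Type} [Group D] [Group S] [Group K] {n : ℕ}

/-- The covering group of `S`. -/
def Gb (k : ℕ) (hk : k ≠ 0) (T : S → Module.End ℂ (Fin n → ℂ)) (h1 : T 1 = 1)
    (hT : ∀ y y', ∃ ζ : ℂ, ζ ^ k = 1 ∧ T y * T y' = ζ • T (y * y')) :
    Subgroup (S × (Module.End ℂ (Fin n → ℂ))ˣ) where
  carrier := {x | ∃ ζ : ℂ, ζ ^ k = 1 ∧ (x.2 : Module.End ℂ (Fin n → ℂ)) = ζ • T x.1}
  one_mem' := ⟨1, one_pow k, by
    show ((1 : (Module.End ℂ (Fin n → ℂ))ˣ) : Module.End ℂ (Fin n → ℂ)) = (1 : ℂ) • T 1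
    rw [h1, one_smul, Units.val_one]⟩
  mul_mem' := by
    rintro ⟨y, u⟩ ⟨y', u'⟩ ⟨ζ, hζ, hu⟩ ⟨ζ', hζ', hu'⟩
    obtain ⟨η, hη, hyy⟩ := hT y y'
    refine ⟨ζ * ζ' * η, by rw [mul_pow, mul_pow, hζ, hζ', hη, one_mul, one_mul], ?_⟩
    show ((u * u' : (Module.End ℂ (Fin n → ℂ))ˣ) : Module.End ℂ (Fin n → ℂ)) =
      (ζ * ζ' * η) • T (y * y')
    change (u : Module.End ℂ (Fin n → ℂ)) = ζ • T y at hu
    change (u' : Module.End ℂ (Fin n → ℂ)) = ζ' • T y' at hu'
    rw [Units.val_mul, hu, hu', smul_mul_smul_comm, hyy, smul_smul]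
  inv_mem' := by
    rintro ⟨y, u⟩ ⟨ζ, hζ, hu⟩
    obtain ⟨η, hη, hyy⟩ := hT y y⁻¹
    have hζ0 : ζ ≠ 0 := by
      rintro rfl
      rw [zero_pow hk] at hζ
      exact zero_ne_one hζ
    have hη0 : η ≠ 0 := by
      rintro rfl
      rw [zero_pow hk] at hη
      exact zero_ne_one hη
    refine ⟨ζ⁻¹ * η⁻¹, by rw [mul_pow, inv_pow, inv_pow, hζ, hη, inv_one, one_mul], ?_⟩
    change (u : Module.End ℂ (Fin n → ℂ)) = ζ • T y at hu
    show ((u⁻¹ : (Module.End ℂ (Fin n → ℂ))ˣ) : Module.End ℂ (Fin n → ℂ)) =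
      (ζ⁻¹ * η⁻¹) • T y⁻¹
    have h2 : (u : Module.End ℂ (Fin n → ℂ)) * ((ζ⁻¹ * η⁻¹) • T y⁻¹) = 1 := by
      have h3 : ζ * (ζ⁻¹ * η⁻¹) * η = 1 := by
        rw [← mul_assoc, mul_inv_cancel₀ hζ0, one_mul, inv_mul_cancel₀ hη0]
      rw [hu, smul_mul_smul_comm, hyy, mul_inv_cancel, h1, smul_smul, h3, one_smul]
    calc ((u⁻¹ : (Module.End ℂ (Fin n → ℂ))ˣ) : Module.End ℂ (Fin n → ℂ))
        = ((u⁻¹ : (Module.End ℂ (Fin n → ℂ))ˣ) : Module.End ℂ (Fin n → ℂ)) *
          ((u : Module.End ℂ (Fin n → ℂ)) * ((ζ⁻¹ * η⁻¹) • T y⁻¹)) := by rw [h2, mul_one]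
      _ = (ζ⁻¹ * η⁻¹) • T y⁻¹ := by rw [← mul_assoc, Units.inv_mul, one_mul]

theorem finite_Gb [Finite S] (k : ℕ) (hk : k ≠ 0) (T : S → Module.End ℂ (Fin n → ℂ))
    (h1 : T 1 = 1) (hT : ∀ y y', ∃ ζ : ℂ, ζ ^ k = 1 ∧ T y * T y' = ζ • T (y * y')) :
    Finite (Gb k hk T h1 hT) := by
  have hf : Finite {ζ : ℂ // ζ ^ k = 1} := by
    have h2 : {ζ : ℂ | ζ ^ k = 1}.Finite := by
      refine (Finset.finite_toSet (Polynomial.nthRootsFinset k (1 : ℂ))).subset ?_
      intro ζ hζ
      exact (Polynomial.mem_nthRootsFinset (Nat.pos_of_ne_zero hk) (1 : ℂ)).mpr hζ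
    exact h2.to_subtype
  let F : Gb k hk T h1 hT → S × {ζ : ℂ // ζ ^ k = 1} := fun x =>
    (x.1.1, ⟨Classical.choose x.2, (Classical.choose_spec x.2).1⟩)
  refine Finite.of_injective F ?_
  intro x x' hxx
  have h3 : x.1.1 = x'.1.1 := (Prod.ext_iff.mp hxx).1
  have h4 : Classical.choose x.2 = Classical.choose x'.2 :=
    Subtype.ext_iff.mp (Prod.ext_iff.mp hxx).2
  have h5 := (Classical.choose_spec x.2).2
  have h6 := (Classical.choose_spec x'.2).2
  rw [h4, h3, ← h6] at h5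
  exact Subtype.ext (Prod.ext h3 (Units.ext h5))

end PRJB

open Classical in
theorem PRJB_thm (h1 : Stmt_PRJA) : Stmt_PRJB := by
  intro D S K _ _ _ _ _ j c p hcl θ hθ hinv
  obtain ⟨n, R, hR, rfl⟩ := hθ
  obtain ⟨T, hTj, hTm, hTc, hTu, hTT⟩ := h1 D S K j c p hcl n R hR hinv
  have hfr : Finite p.range := by
    have : Function.Surjective p.rangeRestrict := p.rangeRestrict_surjective
    exact Finite.of_surjective _ this
  have hk : Nat.card p.range ≠ 0 := Nat.card_pos.ne'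
  have hT1 : T 1 = 1 := by
    rw [← map_one j, hTj, map_one]
  let G := PRJB.Gb (Nat.card p.range) hk T hT1 hTT
  have hfG : Finite G := PRJB.finite_Gb (Nat.card p.range) hk T hT1 hTT
  have hmem : ∀ (y : S) (u : (Module.End ℂ (Fin n → ℂ))ˣ), (y, u) ∈ G ↔
      ∃ ζ : ℂ, ζ ^ Nat.card p.range = 1 ∧ (u : Module.End ℂ (Fin n → ℂ)) = ζ • T y :=
    fun y u => Iff.rfl
  -- the embedding of `D`
  let iR : D →* (Module.End ℂ (Fin n → ℂ))ˣ := MonoidHom.toHomUnits R
  have hiR : ∀ a, ((iR a : (Module.End ℂ (Fin n → ℂ))ˣ) : Module.End ℂ (Fin n → ℂ)) = R a :=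
    fun a => rfl
  let iD : D →* G := (j.prod iR).codRestrict G (fun a => (hmem (j a) (iR a)).mpr
    ⟨1, one_pow _, by rw [hiR, hTj, one_smul]⟩)
  have hiD : ∀ a, ((iD a : G) : S × (Module.End ℂ (Fin n → ℂ))ˣ) = (j a, iR a) := fun a => rfl
  have hN : iD.range.Normal := by
    constructor
    rintro x ⟨a, rfl⟩ g
    obtain ⟨⟨y, u⟩, hg⟩ := g
    obtain ⟨ζ, hζ, hu⟩ := (hmem y u).mp hg
    refine ⟨c y a, ?_⟩
    apply Subtype.ext
    apply Prod.ext
    · show j (c y a) = y * j a * y⁻¹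
      exact hcl.act y a
    · show iR (c y a) = u * iR a * u⁻¹
      rw [eq_mul_inv_iff_mul_eq]
      apply Units.ext
      rw [Units.val_mul, Units.val_mul, hiR, hiR, hu, mul_smul_comm, smul_mul_assoc, hTc]
  let Γ : Type := G ⧸ iD.range
  let pG : G →* K := p.comp ((MonoidHom.fst S (Module.End ℂ (Fin n → ℂ))ˣ).comp G.subtype)
  have hpG : ∀ x : G, pG x = p x.1.1 := fun x => rfl
  let q : Γ →* K := QuotientGroup.lift iD.range pG (by
    rintro x ⟨a, rfl⟩
    show p (j a) = 1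
    exact (hcl.ker (j a)).mpr ⟨a, rfl⟩)
  have hq : ∀ x : G, q (QuotientGroup.mk x) = p x.1.1 := fun x => rfl
  have hfΓ : Finite Γ := Quotient.finite _
  refine ⟨Γ, inferInstance, hfΓ, q, ?_, ?_, ?_⟩
  · apply le_antisymm
    · rintro z ⟨γ, rfl⟩
      obtain ⟨x, rfl⟩ := QuotientGroup.mk_surjective γ
      exact ⟨x.1.1, rfl⟩
    · rintro z ⟨y, rfl⟩
      obtain ⟨u, hu⟩ := hTu y
      refine ⟨QuotientGroup.mk (⟨(y, u), (hmem y u).mpr ⟨1, one_pow _, by rw [one_smul, hu]⟩⟩ : G),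
        rfl⟩
  · intro r hr hdvd
    have : Fact r.Prime := ⟨hr⟩
    obtain ⟨x, hx⟩ := exists_prime_orderOf_dvd_card' (G := q.ker) r hdvd
    obtain ⟨⟨γ, hγ⟩, rfl⟩ : ∃ z : q.ker, z = x := ⟨x, rfl⟩
    obtain ⟨g, rfl⟩ := QuotientGroup.mk_surjective γ
    rw [MonoidHom.mem_ker, hq] at hγ
    obtain ⟨a, ha⟩ := (hcl.ker _).mp hγ
    rw [← hx]
    apply orderOf_dvd_of_pow_eq_one
    apply Subtype.ext
    show (QuotientGroup.mk g : Γ) ^ Nat.card p.range = 1
    rw [← QuotientGroup.mk_pow]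
    refine (QuotientGroup.eq_one_iff _).mpr ⟨a ^ Nat.card p.range, ?_⟩
    obtain ⟨ζ, hζ, hu⟩ := (hmem g.1.1 g.1.2).mp g.2
    apply Subtype.ext
    apply Prod.ext
    · show j (a ^ Nat.card p.range) = g.1.1 ^ Nat.card p.range
      rw [map_pow, ha]
    · show iR (a ^ Nat.card p.range) = g.1.2 ^ Nat.card p.range
      apply Units.ext
      rw [hiR, map_pow, Units.val_pow_eq_pow_val, hu, smul_pow, hζ, one_smul, ← ha, hTj]
  · -- the fibre product
    let E := MonoidHom.eqLocus (p.comp (MonoidHom.fst S Γ)) (q.comp (MonoidHom.snd S Γ))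
    have hE : ∀ (y : S) (γ : Γ), (y, γ) ∈ E ↔ p y = q γ := fun y γ => Iff.rfl
    let Φ : G →* E :=
      (((MonoidHom.fst S (Module.End ℂ (Fin n → ℂ))ˣ).comp G.subtype).prod
        (QuotientGroup.mk' iD.range)).codRestrict E (fun x => (hE _ _).mpr rfl)
    have hΦ : ∀ x : G, ((Φ x : E) : S × Γ) = (x.1.1, QuotientGroup.mk x) := fun x => rfl
    have hinj : Function.Injective Φ := by
      intro x x' hxx
      have h2 := congrArg (fun z : E => (z : S × Γ)) hxx
      simp only [hΦ] at h2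
      have h3 : x.1.1 = x'.1.1 := (Prod.ext_iff.mp h2).1
      have h4 : (QuotientGroup.mk x : Γ) = QuotientGroup.mk x' := (Prod.ext_iff.mp h2).2
      obtain ⟨a, ha⟩ := QuotientGroup.eq.mp h4
      have h5 : j a = 1 := by
        have h6 := congrArg (fun z : G => z.1.1) ha
        change j a = x.1.1⁻¹ * x'.1.1 at h6
        rw [h6, h3, inv_mul_cancel]
      have h7 : a = 1 := hcl.inj (by rw [h5, map_one])
      rw [h7, map_one] at ha
      exact (inv_mul_eq_one.mp ha.symm)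
    have hsurj : Function.Surjective Φ := by
      rintro ⟨⟨y, γ⟩, hz⟩
      obtain ⟨g, rfl⟩ := QuotientGroup.mk_surjective γ
      have h2 : p y = p g.1.1 := (hE y _).mp hz
      have h3 : p (g.1.1⁻¹ * y) = 1 := by rw [map_mul, map_inv, h2, inv_mul_cancel]
      obtain ⟨a, ha⟩ := (hcl.ker _).mp h3
      refine ⟨g * iD a, ?_⟩
      apply Subtype.ext
      rw [hΦ]
      apply Prod.ext
      · show g.1.1 * j a = y
        rw [ha, mul_inv_cancel_left]
      · show (QuotientGroup.mk (g * iD a) : Γ) = QuotientGroup.mk g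
        apply QuotientGroup.eq.mpr
        rw [mul_inv_rev, inv_mul_cancel_right]
        exact inv_mem ⟨a, rfl⟩
    let e : G ≃* E := MulEquiv.ofBijective Φ ⟨hinj, hsurj⟩
    let ρ : Representation ℂ E (Fin n → ℂ) :=
      (Units.coeHom (Module.End ℂ (Fin n → ℂ))).comp
        (((MonoidHom.snd S (Module.End ℂ (Fin n → ℂ))ˣ).comp G.subtype).comp
          e.symm.toMonoidHom)
    have hρ : ∀ a, ρ (Φ (iD a)) = R a := by
      intro a
      show ((e.symm (Φ (iD a)) : G).1.2 : Module.End ℂ (Fin n → ℂ)) = R a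
      have h2 : e.symm (Φ (iD a)) = iD a := e.symm_apply_apply (iD a)
      rw [h2]
      exact hiR a
    refine ⟨fun x => if h : x ∈ E then ρ.character ⟨x, h⟩ else 0, ?_, fun a => ?_⟩
    · refine ⟨n, ρ, PRJB.irr_of_res ρ R (Φ.comp iD) hρ hR, ?_⟩
      funext x
      show ρ.character x = if h : (x : S × Γ) ∈ E then ρ.character ⟨x, h⟩ else 0
      rw [dif_pos x.2]
    · have h2 : ((j a, 1) : S × Γ) = ((Φ (iD a) : E) : S × Γ) := by
        rw [hΦ]
        apply Prod.ext
        · rfl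
        · show (1 : Γ) = QuotientGroup.mk (iD a)
          have h5 : iD a ∈ iD.range := ⟨a, rfl⟩
          exact ((QuotientGroup.eq_one_iff (iD a)).mpr h5).symm
      have h3 : ((j a, 1) : S × Γ) ∈ E := by
        rw [h2]
        exact (Φ (iD a)).2
      show (if h : ((j a, 1) : S × Γ) ∈ E then ρ.character ⟨(j a, 1), h⟩ else 0) = R.character a
      rw [dif_pos h3]
      have h4 : (⟨(j a, 1), h3⟩ : E) = Φ (iD a) := Subtype.ext h2
      rw [h4]
      show LinearMap.trace ℂ _ (ρ (Φ (iD a))) = LinearMap.trace ℂ _ (R a)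
      rw [hρ]

end Pool.Agent.DPV


end

section

/-!
# NPJB: projective irreducible representations of the block
-/

set_option autoImplicit false

namespace Pool.Agent.DPW

open Pool.Agent.DP Pool.Agent.DPV Pool.Agent.DPB Pool.Agent.Lib_helper13 Representation

namespace NPJB

variable {F T V : Type} [Field F] [Group T] [Fintype T]
  [AddCommGroup V] [Module F V] (P : Subgroup T) (ρ : Representation F T V)

theorem trP_mul (α α₀ : Module.End F V) (hc : ∀ p ∈ P, ∀ v, α (ρ p v) = ρ p (α v)) :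
    Pool.Agent.DPB.NPJ.trP P ρ (α * α₀) = α * Pool.Agent.DPB.NPJ.trP P ρ α₀ := by
  classical
  unfold Pool.Agent.DPB.NPJ.trP
  rw [Finset.mul_sum]
  refine Finset.sum_congr rfl fun h _ => ?_
  by_cases hh : h ∈ P
  · rw [if_pos hh, if_pos hh]
    have h1 : ρ h * α = α * ρ h := LinearMap.ext fun v => (hc h hh v).symm
    rw [← mul_assoc, h1]
    simp only [mul_assoc]
  · rw [if_neg hh, if_neg hh, mul_zero]

theorem sum_all (α α₀ : Module.End F V) (hα₀ : Pool.Agent.DPB.NPJ.trP P ρ α₀ = 1)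
    (hc : ∀ p ∈ P, ∀ v, α (ρ p v) = ρ p (α v)) (hα : trC P ρ ρ α = 1) :
    ∑ t, ρ t * (α * α₀) * ρ t⁻¹ = 1 := by
  classical
  rw [← hα]
  unfold trC
  rw [← Finset.sum_fiberwise Finset.univ (fun t : T => (t : T ⧸ P))]
  refine Finset.sum_congr rfl fun q _ => ?_
  rw [Finset.sum_filter]
  have h2 : ∑ t : T, (if (t : T ⧸ P) = q then ρ t * (α * α₀) * ρ t⁻¹ else 0) =
      ∑ h : T, (if h ∈ P then ρ (q.out * h) * (α * α₀) * ρ (q.out * h)⁻¹ else 0) := by
    refine (Fintype.sum_equiv (Equiv.mulLeft q.out) _ _ fun h => ?_).symm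
    simp only [Equiv.coe_mulLeft]
    have h3 : (((q.out * h : T)) : T ⧸ P) = q ↔ h ∈ P := by
      conv_lhs => rw [← QuotientGroup.out_eq' q]
      rw [eq_comm, QuotientGroup.eq]
      simp
    by_cases hh : h ∈ P
    · rw [if_pos hh, if_pos (h3.2 hh)]
    · rw [if_neg hh, if_neg (fun h4 => hh (h3.1 h4))]
  rw [h2]
  have h5 : ∑ h : T, (if h ∈ P then ρ (q.out * h) * (α * α₀) * ρ (q.out * h)⁻¹ else 0) =
      ρ q.out * Pool.Agent.DPB.NPJ.trP P ρ (α * α₀) * ρ q.out⁻¹ := by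
    unfold Pool.Agent.DPB.NPJ.trP
    rw [Finset.mul_sum, Finset.sum_mul]
    refine Finset.sum_congr rfl fun h _ => ?_
    by_cases hh : h ∈ P
    · rw [if_pos hh, if_pos hh, map_mul, mul_inv_rev, map_mul]
      simp only [mul_assoc]
    · rw [if_neg hh, if_neg hh, mul_zero, zero_mul]
  rw [h5, trP_mul P ρ α α₀ hc, hα₀, mul_one]
  rfl

end NPJB

theorem NPJB_thm (h1 : Stmt_RPRB) : Stmt_NPJB := by
  intro ℓ _ F T V _ _ _ _ _ _ _ _ P x₀ e hBK ρ hirr he hn
  classical
  obtain ⟨α₀, hα₀⟩ := Pool.Agent.DPB.NPJ.exists_alpha P ρ hBK.card hn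
  obtain ⟨α, hc, hα⟩ := h1 ℓ F T V P x₀ e hBK ρ he
  obtain ⟨b, hb⟩ := Pool.Agent.DPB.DEN_thm F T Unit (fun _ => V) (fun _ => ρ) (fun _ => hirr)
    (fun i j hij => absurd (Subsingleton.elim i j) hij)
    (fun _ => (α * α₀ : Module.End F V))
  have hb := hb ()
  refine ⟨fun g => ∑ t, b (t⁻¹ * g * t), ?_, ?_, ?_⟩
  · intro g x
    refine Fintype.sum_equiv (Equiv.mulLeft g⁻¹) _ _ fun t => ?_
    simp only [Equiv.coe_mulLeft]
    congr 1
    group
  · intro g u hu hul hug
    have hord : IsPGroup ℓ (Subgroup.zpowers u) := by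
      intro y
      refine ⟨1, ?_⟩
      obtain ⟨n, hn'⟩ := Subgroup.mem_zpowers_iff.1 y.2
      apply Subtype.ext
      rw [pow_one, Subgroup.coe_pow, ← hn', ← zpow_natCast, ← zpow_mul, mul_comm n, zpow_mul,
        zpow_natCast, hul, one_zpow]
      rfl
    have h2 := sum_eq_sum_fixed (X := T) hord (M := F) (fun m => by
      rw [← Nat.cast_smul_eq_nsmul F, CharP.cast_eq_zero F ℓ, zero_smul])
      (fun t => b (t⁻¹ * g * t)) (by
        intro q t
        have hcomm : (q : T) * g = g * (q : T) := by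
          obtain ⟨n, hn'⟩ := Subgroup.mem_zpowers_iff.1 q.2
          rw [← hn']
          have : Commute u g := hug
          exact (this.zpow_left n).eq
        have h3 : ((q • t : T))⁻¹ * g * (q • t) = t⁻¹ * g * t := by
          change ((q : T) * t)⁻¹ * g * ((q : T) * t) = t⁻¹ * g * t
          have h4 : (q : T)⁻¹ * g * (q : T) = g := by
            rw [mul_assoc, ← hcomm, ← mul_assoc, inv_mul_cancel, one_mul]
          calc ((q : T) * t)⁻¹ * g * ((q : T) * t) = t⁻¹ * ((q : T)⁻¹ * g * (q : T)) * t := by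
                group
            _ = t⁻¹ * g * t := by rw [h4]
        change b (((q • t : T))⁻¹ * g * (q • t)) = b (t⁻¹ * g * t)
        rw [h3])
    change ∑ t, b (t⁻¹ * g * t) = 0
    rw [h2]
    refine Finset.sum_eq_zero fun t ht => ?_
    exfalso
    have h5 := (Finset.mem_filter.1 ht).2 ⟨u, Subgroup.mem_zpowers u⟩
    have h6 : u * t = t := h5
    exact hu (mul_eq_right.1 h6)
  · have h7 : Zop ρ (fun g => ∑ t, b (t⁻¹ * g * t)) =
        ∑ t, ρ t * Zop ρ b * ρ t⁻¹ := by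
      unfold Zop
      simp only [Finset.sum_smul, Finset.mul_sum, Finset.sum_mul]
      rw [Finset.sum_comm]
      refine Finset.sum_congr rfl fun t _ => ?_
      refine Fintype.sum_equiv (MulAut.conj t⁻¹).toEquiv _ _ fun g => ?_
      have h8 : (MulAut.conj t⁻¹).toEquiv g = t⁻¹ * g * t := by
        simp
      rw [h8]
      rw [Algebra.mul_smul_comm, Algebra.smul_mul_assoc, ← map_mul, ← map_mul]
      congr 2
      group
    rw [h7, hb]
    exact NPJB.sum_all P ρ α α₀ hα₀ hc hα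

end Pool.Agent.DPW


end

section

/-!
# Theorem X: central functions of the extensions of a character of a block whose defect groups
contain a central subgroup of order `ℓ`
-/

set_option linter.unusedSectionVars false

namespace Pool.Agent.DPX

open Pool.Agent.DP Pool.Agent.DPV Pool.Agent.DPB Pool.Agent.DPW Pool.Agent.Lib_helper13
  Representation

namespace SCXX

/-! ### Matrix units -/

section mat

variable {F A : Type} [Field F] [Ring A] [Algebra F A]

open SPX

variable {e : A} {m c : ℕ} {E : Fin m → Fin m → A} {z : A}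

theorem corner (h : MU F e m c E z) (i0 : Fin m) (y : A) :
    ∃ t : ℕ → F, E i0 i0 * y * E i0 i0 = ∑ k ∈ Finset.range c, t k • (z ^ k * E i0 i0) := by
  obtain ⟨t, ht⟩ := h.sp y
  refine ⟨fun k => t k i0 i0, ?_⟩
  have h1 : E i0 i0 * y * E i0 i0 = E i0 i0 * (e * y) * E i0 i0 := by
    rw [← mul_assoc, h.Ee]
  rw [h1, ht, Finset.mul_sum, Finset.sum_mul]
  refine Finset.sum_congr rfl fun k _ => ?_
  rw [Finset.mul_sum, Finset.sum_mul, Finset.sum_eq_single i0]
  · rw [Finset.mul_sum, Finset.sum_mul, Finset.sum_eq_single i0]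
    · rw [mul_smul_comm, smul_mul_assoc, ← mul_assoc, (h.zc.pow k) (E i0 i0), mul_assoc, mul_assoc,
        h.mu, if_pos rfl, h.mu, if_pos rfl]
    · intro j _ hj
      rw [mul_smul_comm, smul_mul_assoc, mul_assoc, mul_assoc, h.mu, if_neg hj, mul_zero,
        mul_zero, smul_zero]
    · intro h'
      exact absurd (Finset.mem_univ i0) h'
  · intro k' _ hk
    rw [Finset.mul_sum, Finset.sum_mul]
    refine Finset.sum_eq_zero fun j _ => ?_
    rw [mul_smul_comm, smul_mul_assoc, ← mul_assoc, (h.zc.pow k) (E i0 i0), mul_assoc (z ^ k),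
      h.mu, if_neg (Ne.symm hk), mul_zero, zero_mul, smul_zero]
  · intro h'
    exact absurd (Finset.mem_univ i0) h'

theorem e00_ne (h : MU F e m c E z) (h0 : e ≠ 0) (i0 : Fin m) : E i0 i0 ≠ 0 := by
  intro h1
  apply h0
  rw [← h.on]
  refine Finset.sum_eq_zero fun i _ => ?_
  have h2 : E i i = E i i0 * E i0 i0 * E i0 i := by
    rw [h.mu, if_pos rfl, h.mu, if_pos rfl]
  rw [h2, h1, mul_zero, zero_mul]

/-- Two systems of matrix units are conjugate. -/
theorem inner (h : MU F e m c E z) (h0 : e ≠ 0) (hc : 0 < c) (i0 : Fin m)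
    (E' : Fin m → Fin m → A) (mu' : ∀ i j k l, E' i j * E' k l = if j = k then E' i l else 0)
    (on' : ∑ i, E' i i = e) :
    ∃ X X' : A, X * E' i0 i0 * X' = E i0 i0 := by
  classical
  have h00 := e00_ne h h0 i0
  have hid : E i0 i0 * E i0 i0 = E i0 i0 := by rw [h.mu, if_pos rfl]
  choose t ht using fun i => corner h i0 (E' i i0 * E' i0 i)
  have hsum : E i0 i0 = ∑ i, E i0 i0 * (E' i i0 * E' i0 i) * E i0 i0 := by
    rw [← Finset.sum_mul, ← Finset.mul_sum]
    have h1 : ∑ i, E' i i0 * E' i0 i = e := by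
      rw [← on']
      refine Finset.sum_congr rfl fun i _ => ?_
      rw [mu', if_pos rfl]
    rw [h1, h.Ee, hid]
  obtain ⟨d, rfl⟩ := Nat.exists_eq_succ_of_ne_zero hc.ne'
  have hex : ∃ i, t i 0 ≠ 0 := by
    by_contra hno
    push Not at hno
    apply h00
    have h1 : E i0 i0 = z * (∑ i, ∑ k ∈ Finset.range d, t i (k + 1) • (z ^ k * E i0 i0)) := by
      conv_lhs => rw [hsum]
      rw [Finset.mul_sum]
      refine Finset.sum_congr rfl fun i _ => ?_
      rw [ht i, Finset.sum_range_succ', hno i, zero_smul, add_zero, Finset.mul_sum]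
      refine Finset.sum_congr rfl fun k _ => ?_
      rw [mul_smul_comm, ← mul_assoc, ← pow_succ']
    have h2 : IsNilpotent (E i0 i0) := by
      rw [h1]
      exact nil_mul h.zc h.nil _
    exact IsIdempotentElem.eq_zero_of_isNilpotent hid h2
  obtain ⟨i, hi⟩ := hex
  let s : A := ∑ k ∈ Finset.range d, t i (k + 1) • z ^ k
  have hsc : Cen s := Cen.sum fun k _ => (h.zc.pow k).smul _
  have hV : IsUnit (t i 0 • (1 : A) + z * s) := by
    have h1 : IsUnit (t i 0 • (1 : A)) := by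
      refine ⟨⟨t i 0 • 1, (t i 0)⁻¹ • 1, ?_, ?_⟩, rfl⟩
      · rw [smul_mul_smul_comm, mul_one, mul_inv_cancel₀ hi, one_smul]
      · rw [smul_mul_smul_comm, mul_one, inv_mul_cancel₀ hi, one_smul]
    exact (nil_mul h.zc h.nil s).isUnit_add_left_of_commute h1 ((h.zc.mul hsc).commute _)
  obtain ⟨V, hVe⟩ := hV
  have hφ : E i0 i0 * (E' i i0 * E' i0 i) * E i0 i0 = (V : A) * E i0 i0 := by
    rw [ht i, hVe, Finset.sum_range_succ', pow_zero, one_mul, add_mul, smul_mul_assoc, one_mul,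
      add_comm]
    congr 1
    simp only [s, Finset.mul_sum, Finset.sum_mul, mul_smul_comm, smul_mul_assoc]
    refine Finset.sum_congr rfl fun k _ => ?_
    rw [← pow_succ']
  have hVc : Cen (V : A) := by
    rw [hVe]
    exact (Cen.one.smul _).add (h.zc.mul hsc)
  refine ⟨((V⁻¹ : Aˣ) : A) * (E i0 i0 * E' i i0), E' i0 i * E i0 i0, ?_⟩
  have h3 : E' i i0 * E' i0 i0 = E' i i0 := by rw [mu', if_pos rfl]
  calc ((V⁻¹ : Aˣ) : A) * (E i0 i0 * E' i i0) * E' i0 i0 * (E' i0 i * E i0 i0)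
      = ((V⁻¹ : Aˣ) : A) * (E i0 i0 * ((E' i i0 * E' i0 i0) * E' i0 i) * E i0 i0) := by
        simp only [mul_assoc]
    _ = ((V⁻¹ : Aˣ) : A) * ((V : A) * E i0 i0) := by rw [h3, hφ]
    _ = E i0 i0 := by rw [← mul_assoc, Units.inv_mul, one_mul]

end mat

/-! ### The elements of the coset -/

section coset

variable {F A B : Type} [Field F] [Ring A] [Algebra F A] [Ring B] [Algebra F B]

open SPX

variable {e : A} {m c : ℕ} {E : Fin m → Fin m → A} {z : A}

/-- The sum of the conjugates. -/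
def ww (ι : A →ₐ[F] B) (E : Fin m → Fin m → A) (i0 : Fin m) (v : B) : B :=
  ∑ i, ι (E i i0) * v * ι (E i0 i)

theorem ww_comm (h : MU F e m c E z) (he : Cen e) (ι : A →ₐ[F] B) (i0 : Fin m) {v : B}
    (hv : ι z * v = v * ι z) (a : A) : ι a * ww ι E i0 v = ww ι E i0 v * ι a := by
  classical
  have hl : ∀ k l, ι (E k l) * ww ι E i0 v = ι (E k i0) * v * ι (E i0 l) := by
    intro k l
    rw [ww, Finset.mul_sum, Finset.sum_eq_single l]
    · rw [← mul_assoc, ← mul_assoc, ← map_mul, h.mu, if_pos rfl]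
    · intro i _ hi
      rw [← mul_assoc, ← mul_assoc, ← map_mul, h.mu, if_neg (Ne.symm hi), map_zero, zero_mul,
        zero_mul]
    · intro h'
      exact absurd (Finset.mem_univ l) h'
  have hr : ∀ k l, ww ι E i0 v * ι (E k l) = ι (E k i0) * v * ι (E i0 l) := by
    intro k l
    rw [ww, Finset.sum_mul, Finset.sum_eq_single k]
    · rw [mul_assoc, ← map_mul, h.mu, if_pos rfl]
    · intro i _ hi
      rw [mul_assoc, ← map_mul, h.mu, if_neg hi, map_zero, mul_zero]
    · intro h'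
      exact absurd (Finset.mem_univ k) h'
  have hz : ι z * ww ι E i0 v = ww ι E i0 v * ι z := by
    rw [ww, Finset.mul_sum, Finset.sum_mul]
    refine Finset.sum_congr rfl fun i _ => ?_
    calc ι z * (ι (E i i0) * v * ι (E i0 i)) = ι (z * E i i0) * v * ι (E i0 i) := by
          rw [map_mul]
          simp only [mul_assoc]
      _ = ι (E i i0) * (ι z * v) * ι (E i0 i) := by
          rw [← h.zc (E i i0), map_mul]
          simp only [mul_assoc]
      _ = ι (E i i0) * v * ι (z * E i0 i) := by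
          rw [hv, map_mul]
          simp only [mul_assoc]
      _ = _ := by
          rw [← h.zc (E i0 i), map_mul]
          simp only [mul_assoc]
  have hzk : ∀ k : ℕ, ι z ^ k * ww ι E i0 v = ww ι E i0 v * ι z ^ k := fun k =>
    ((show Commute (ι z) (ww ι E i0 v) from hz).pow_left k)
  have hel : ι e * ww ι E i0 v = ww ι E i0 v := by
    rw [ww, Finset.mul_sum]
    refine Finset.sum_congr rfl fun i _ => ?_
    rw [← mul_assoc, ← mul_assoc, ← map_mul, h.eE]
  have her : ww ι E i0 v * ι e = ww ι E i0 v := by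
    rw [ww, Finset.sum_mul]
    refine Finset.sum_congr rfl fun i _ => ?_
    rw [mul_assoc, ← map_mul, h.Ee]
  have hea : ι (e * a) * ww ι E i0 v = ww ι E i0 v * ι (e * a) := by
    obtain ⟨t, ht⟩ := h.sp a
    rw [ht]
    simp only [map_sum, map_smul, map_mul, map_pow, Finset.sum_mul, Finset.mul_sum,
      smul_mul_assoc, mul_smul_comm]
    refine Finset.sum_congr rfl fun k _ => Finset.sum_congr rfl fun i _ =>
      Finset.sum_congr rfl fun j _ => ?_
    rw [mul_assoc, hl, ← hr, ← mul_assoc, hzk, mul_assoc]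
  calc ι a * ww ι E i0 v = ι a * (ι e * ww ι E i0 v) := by rw [hel]
    _ = ι (e * a) * ww ι E i0 v := by rw [← mul_assoc, ← map_mul, he a]
    _ = ww ι E i0 v * ι (e * a) := hea
    _ = ww ι E i0 v * ι e * ι a := by rw [map_mul, mul_assoc]
    _ = ww ι E i0 v * ι a := by rw [her]

theorem ww_mul (h : MU F e m c E z) (ι : A →ₐ[F] B) (i0 : Fin m) {v v' : B}
    (hv : v * ι (E i0 i0) * v' = ι (E i0 i0)) : ww ι E i0 v * ww ι E i0 v' = ι e := by
  classical
  rw [ww, Finset.sum_mul, ← h.on, map_sum]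
  refine Finset.sum_congr rfl fun i _ => ?_
  rw [ww, Finset.mul_sum, Finset.sum_eq_single i]
  · calc ι (E i i0) * v * ι (E i0 i) * (ι (E i i0) * v' * ι (E i0 i))
        = ι (E i i0) * (v * ι (E i0 i * E i i0) * v') * ι (E i0 i) := by
          rw [map_mul]
          simp only [mul_assoc]
      _ = ι (E i i0) * ι (E i0 i0) * ι (E i0 i) := by rw [h.mu, if_pos rfl, hv]
      _ = ι (E i i) := by
          rw [← map_mul, ← map_mul, h.mu, if_pos rfl, h.mu, if_pos rfl]
  · intro j _ hj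
    calc ι (E i i0) * v * ι (E i0 i) * (ι (E j i0) * v' * ι (E i0 j))
        = ι (E i i0) * (v * ι (E i0 i * E j i0) * v') * ι (E i0 j) := by
          rw [map_mul]
          simp only [mul_assoc]
      _ = 0 := by
          rw [h.mu, if_neg (Ne.symm hj), map_zero, mul_zero, zero_mul, mul_zero, zero_mul]
  · intro h'
    exact absurd (Finset.mem_univ i) h'

end coset

/-! ### Central functions -/

section wts

variable {M : Type} [Group M] [Fintype M] {C : Subgroup M} {E : M → ℂ}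

theorem cvF_inv {b b' : M → ℂ} (hb : ∀ c ∈ C, ∀ x, b (c * x * c⁻¹) = b x)
    (hb' : ∀ c ∈ C, ∀ x, b' (c * x * c⁻¹) = b' x) :
    ∀ c ∈ C, ∀ x, cvF b b' (c * x * c⁻¹) = cvF b b' x := by
  intro c hc x
  show ∑ y, b y * b' (y⁻¹ * (c * x * c⁻¹)) = ∑ y, b y * b' (y⁻¹ * x)
  symm
  refine Fintype.sum_equiv (MulAut.conj c).toEquiv _ _ fun y => ?_
  show b y * b' (y⁻¹ * x) = b (c * y * c⁻¹) * b' ((c * y * c⁻¹)⁻¹ * (c * x * c⁻¹))
  have h : (c * y * c⁻¹)⁻¹ * (c * x * c⁻¹) = c * (y⁻¹ * x) * c⁻¹ := by group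
  rw [h, hb c hc, hb' c hc]

theorem wt_cvF (h1 : IsIrr E) (h2 : IsIrr (fun c : C => E c)) {b b' : M → ℂ}
    (hb : ∀ c ∈ C, ∀ x, b (c * x * c⁻¹) = b x)
    (hb' : ∀ c ∈ C, ∀ x, b' (c * x * c⁻¹) = b' x) :
    wt E (cvF b b') = wt E b * wt E b' := by
  obtain ⟨n, R, hn, hR, rfl⟩ := SCT.rep_of h1 h2
  let i0 : Fin n := ⟨0, Nat.pos_of_ne_zero hn⟩
  let w : Fin n → ℂ := Pi.single i0 1
  have s1 := SCT.scal R hR hn b hb (wt R.character b' • w)
  have s2 := SCT.scal R hR hn b' hb' w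
  have s3 := SCT.scal R hR hn (cvF b b') (cvF_inv hb hb') w
  have e1 : ∑ x, cvF b b' x • R x w = ∑ y, b y • R y (∑ u, b' u • R u w) := by
    simp only [map_sum, map_smul, Finset.smul_sum, cvF, Finset.sum_smul]
    rw [Finset.sum_comm]
    refine Finset.sum_congr rfl fun y _ => ?_
    symm
    refine Fintype.sum_equiv (Equiv.mulLeft y) _ _ fun u => ?_
    show b y • b' u • R y (R u w) = (b y * b' (y⁻¹ * (y * u))) • R (y * u) w
    rw [inv_mul_cancel_left, map_mul, smul_smul]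
    rfl
  rw [s3, s2] at e1
  change wt R.character (cvF b b') • w = ∑ y, b y • R y (wt R.character b' • w) at e1
  rw [s1] at e1
  change wt R.character (cvF b b') • w = wt R.character b • wt R.character b' • w at e1
  have e2 := congrFun e1 i0
  simp only [Pi.smul_apply, smul_eq_mul, w, Pi.single_eq_same, mul_one] at e2
  exact e2

theorem cjT_inv (g : M) : ∀ c ∈ C, ∀ x, cjT C (c * x * c⁻¹) g = cjT C x g := by
  intro c hc x
  have h0 : (∃ t ∈ C, c * x * c⁻¹ = t * g * t⁻¹) ↔ ∃ t ∈ C, x = t * g * t⁻¹ := ⟨?_, ?_⟩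
  · unfold cjT
    by_cases h : ∃ t ∈ C, x = t * g * t⁻¹
    · rw [if_pos h, if_pos (h0.2 h)]
    · rw [if_neg h, if_neg fun h' => h (h0.1 h')]
  · rintro ⟨t, ht, e⟩
    refine ⟨c⁻¹ * t, C.mul_mem (C.inv_mem hc) ht, ?_⟩
    have h1 : x = c⁻¹ * (c * x * c⁻¹) * c := by group
    rw [h1, e]
    group
  · rintro ⟨t, ht, e⟩
    refine ⟨c * t, C.mul_mem hc ht, ?_⟩
    rw [e]
    group

theorem int_cjT (h1 : IsIrr E) (h2 : IsIrr (fun c : C => E c)) (g : M) :
    IsIntegral ℤ ((∑ x, cjT C x g * E x) / E 1) := by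
  refine SCT.int_wt h1 h2 (fun x => cjT C x g) (cjT_inv g) fun x => ?_
  unfold cjT
  split_ifs
  · exact isIntegral_one
  · exact isIntegral_zero

open Classical in
/-- The expansion in the classes. -/
theorem red_wt_cls (𝔐 : Ideal (integralClosure ℤ ℂ)) (h1 : IsIrr E)
    (h2 : IsIrr (fun c : C => E c)) (b : M → integralClosure ℤ ℂ)
    (hb : ∀ c ∈ C, ∀ x, b (c * x * c⁻¹) = b x) :
    red 𝔐 (wt E (fun x => (b x : ℂ))) =
      ∑ q : Quotient (EXPV.cjS C), red 𝔐 (b q.out : ℂ) * cgT 𝔐 C E q.out := by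
  rw [EXPV.wt_classes C (fun x => (b x : ℂ)) E (fun c hc x => by rw [hb c hc x]),
    red_sum 𝔐 _ _ fun q _ => (b q.out).2.mul (int_cjT h1 h2 _)]
  refine Finset.sum_congr rfl fun q _ => ?_
  rw [red_mul 𝔐 (b q.out).2 (int_cjT h1 h2 _)]
  rfl

theorem red_congr (𝔐 : Ideal (integralClosure ℤ ℂ)) {F : Type} [Field F]
    {r : integralClosure ℤ ℂ →+* F} (hk : RingHom.ker r = 𝔐) {x y : integralClosure ℤ ℂ}
    (h : r x = r y) : red 𝔐 (x : ℂ) = red 𝔐 (y : ℂ) := by
  rw [red_of_integral 𝔐 x.2, red_of_integral 𝔐 y.2, Ideal.Quotient.eq, ← hk, RingHom.mem_ker]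
  have h1 : r (x - y) = 0 := by rw [map_sub, h, sub_self]
  exact h1

end wts

/-! ### The automorphism -/

section aut

variable {C : Type} [Group C] [Fintype C] (𝔐 : Ideal (integralClosure ℤ ℂ))

theorem cen_aut (κ : MulAut C) (χ : C → ℂ) (g : C) :
    cen 𝔐 (MonoidHom.id C) (fun x => χ (κ x)) g = cen 𝔐 (MonoidHom.id C) χ (κ g) := by
  rw [cen, cen, ← wt_comp_equiv κ χ]
  congr 2
  funext y
  refine conjInd_congr ?_
  show IsConj y g ↔ IsConj (κ y) (κ g)
  rw [isConj_iff, isConj_iff]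
  constructor
  · rintro ⟨c, rfl⟩
    exact ⟨κ c, by rw [map_mul, map_mul, map_inv]⟩
  · rintro ⟨c, h⟩
    refine ⟨κ.symm c, κ.injective ?_⟩
    rw [map_mul, map_mul, map_inv, MulEquiv.apply_symm_apply, h]

theorem inv_e {F : Type} [Field F] {r : integralClosure ℤ ℂ →+* F} {φ : C → ℂ} (κ : MulAut C)
    (hφ : ∀ x, φ (κ x) = φ x) {a : C → integralClosure ℤ ℂ}
    (ha : ∀ g x, a (g * x * g⁻¹) = a x)
    (hee : cvF (fun x => r (a x)) (fun x => r (a x)) = fun x => r (a x)) (W : (C → ℂ) → Prop)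
    [DecidablePred W] (hW : ∀ χ, W χ ↔ cen 𝔐 (MonoidHom.id C) χ = cen 𝔐 (MonoidHom.id C) φ)
    (hwt : ∀ χ : C → ℂ, IsIrr χ → red 𝔐 (wt χ (fun h => (a h : ℂ))) = if W χ then 1 else 0)
    (hu : ∀ a' : C → integralClosure ℤ ℂ, (∀ g x, a' (g * x * g⁻¹) = a' x) →
      cvF (fun x => r (a' x)) (fun x => r (a' x)) = (fun x => r (a' x)) →
      (∀ χ : C → ℂ, IsIrr χ → red 𝔐 (wt χ (fun h => (a' h : ℂ))) =
        red 𝔐 (wt χ (fun h => (a h : ℂ)))) → ∀ x, r (a' x) = r (a x)) :
    ∀ x, r (a (κ x)) = r (a x) := by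
  refine hu (fun x => a (κ x)) ?_ ?_ ?_
  · intro g x
    rw [map_mul, map_mul, map_inv, ha]
  · funext x
    have h1 := congrFun hee (κ x)
    rw [← h1]
    show ∑ y, r (a (κ y)) * r (a (κ (y⁻¹ * x))) = ∑ y, r (a y) * r (a (y⁻¹ * κ x))
    refine Fintype.sum_equiv κ.toEquiv _ _ fun y => ?_
    show r (a (κ y)) * r (a (κ (y⁻¹ * x))) = r (a (κ y)) * r (a ((κ y)⁻¹ * κ x))
    rw [map_mul, map_inv]
  · intro χ hχ
    have hχ' : IsIrr (fun x => χ (κ.symm x)) := hχ.comp_mulEquiv κ.symm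
    have h1 : wt χ (fun h => (a (κ h) : ℂ)) = wt (fun x => χ (κ.symm x)) (fun h => (a h : ℂ)) := by
      rw [← wt_comp_equiv κ (fun x => χ (κ.symm x)) (fun h => (a h : ℂ))]
      congr 1
      funext y
      rw [MulEquiv.symm_apply_apply]
    rw [h1, hwt _ hχ', hwt _ hχ]
    refine if_congr ?_ rfl rfl
    rw [hW, hW]
    have h2 : ∀ g, cen 𝔐 (MonoidHom.id C) χ g =
        cen 𝔐 (MonoidHom.id C) (fun x => χ (κ.symm x)) (κ g) := by
      intro g
      rw [← cen_aut]
      congr 1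
      funext y
      rw [MulEquiv.symm_apply_apply]
    have h3 : ∀ g, cen 𝔐 (MonoidHom.id C) φ g = cen 𝔐 (MonoidHom.id C) φ (κ g) := by
      intro g
      rw [← cen_aut]
      congr 1
      funext y
      exact (hφ y).symm
    constructor
    · intro h
      funext g
      rw [h2, h, ← h3]
    · intro h
      funext g
      have h4 := congrFun h (κ.symm g)
      rw [h2, h3, MulEquiv.apply_symm_apply] at h4
      exact h4

end aut

/-! ### The elements of the group algebra -/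

section grp

open SPX

variable {F : Type} [Field F]

theorem mu_al {C : Type} [Group C] [Fintype C] {e : C → F} {m c : ℕ}
    {E : Fin m → Fin m → C → F} {z : C → F} (h : NilB e m c E z) :
    MU F (al e) m c (fun i j => al (E i j)) (al z) where
  mu i j k l := by
    rw [← al_cvF, h.mu]
    split_ifs
    · rfl
    · exact al_zero
  on := by rw [← al_sum, h.on]
  zc := al_cen.1 h.zc
  ze := by rw [← al_cvF, h.ze]
  sp a := by
    obtain ⟨t, ht⟩ := h.sp (fn a)
    refine ⟨t, ?_⟩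
    have h1 := congrArg al ht
    rw [al_cvF, al_fn] at h1
    rw [h1, al_sum]
    refine Finset.sum_congr rfl fun k _ => ?_
    rw [al_sum]
    refine Finset.sum_congr rfl fun i _ => ?_
    rw [al_sum]
    refine Finset.sum_congr rfl fun j _ => ?_
    rw [al_smul, al_cvF, al_cvp]
  nl := by rw [← al_cvp, ← al_cvF, h.nl, al_zero]

variable {M : Type} [Group M] [Fintype M] (C : Subgroup M)

theorem fn_inv {w : MonoidAlgebra F M} (hw : ∀ a, ii F C a * w = w * ii F C a) :
    ∀ c ∈ C, ∀ x, fn w (c * x * c⁻¹) = fn w x := by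
  intro c hc x
  have h1 := hw (MonoidAlgebra.single ⟨c, hc⟩ 1)
  rw [ii_single] at h1
  have h2 := congrArg (fun r : MonoidAlgebra F M => r.coeff (c * x)) h1
  simp only at h2
  rw [MonoidAlgebra.coeff_single_mul_apply, MonoidAlgebra.coeff_mul_single_apply, one_mul,
    mul_one, inv_mul_cancel_left] at h2
  exact h2.symm

theorem gm_fix [C.Normal] {a : C → F} {z : M} (h : ∀ x, a (MulAut.conjNormal z x) = a x) :
    gm F C z (al a) = al a := by
  apply MonoidAlgebra.ext
  ext x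
  rw [gm_coeff]
  show a (MulAut.conjNormal z⁻¹ x) = a x
  rw [← h (MulAut.conjNormal z⁻¹ x), ← MulAut.mul_apply, ← map_mul, mul_inv_cancel, map_one]
  rfl

theorem grp [C.Normal] {e : C → F} (he : e ∈ CF F C) (h0 : e ≠ 0) {m c : ℕ}
    {E : Fin m → Fin m → C → F} {zz : C → F} (h : NilB e m c E zz) (hm : 0 < m) (hc : 0 < c)
    (z : M) (hez : ∀ x, e (MulAut.conjNormal z x) = e x)
    (hzz : ∀ x, zz (MulAut.conjNormal z x) = zz x) :
    ∃ f f' : M → F, (∀ c ∈ C, ∀ x, f (c * x * c⁻¹) = f x) ∧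
      (∀ c ∈ C, ∀ x, f' (c * x * c⁻¹) = f' x) ∧ (∀ x, x * z⁻¹ ∉ C → f x = 0) ∧
      (∀ x : C, cvF f f' x = e x) ∧ ∀ x, x ∉ C → cvF f f' x = 0 := by
  classical
  have hM := mu_al h
  have h0' : al e ≠ 0 := by
    intro h1
    exact h0 (al_inj (by rw [h1, al_zero]))
  have heC : Cen (al e) := al_cen.1 he
  let i0 : Fin m := ⟨0, hm⟩
  have hγe := gm_fix C hez
  have hγz := gm_fix C hzz
  obtain ⟨X, X', hX⟩ := inner hM h0' hc i0 (fun i j => gm F C z (al (E i j)))
    (by
      intro i j k l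
      rw [← map_mul, hM.mu]
      split_ifs
      · rfl
      · exact map_zero _)
    (by rw [← map_sum, hM.on, hγe])
  let g : MonoidAlgebra F M := MonoidAlgebra.single z 1
  let g' : MonoidAlgebra F M := MonoidAlgebra.single z⁻¹ 1
  have hgg' : g * g' = 1 := by
    show MonoidAlgebra.single z 1 * MonoidAlgebra.single z⁻¹ 1 = _
    rw [MonoidAlgebra.single_mul_single, mul_inv_cancel, mul_one]
    rfl
  have hg'g : g' * g = 1 := by
    show MonoidAlgebra.single z⁻¹ 1 * MonoidAlgebra.single z 1 = _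
    rw [MonoidAlgebra.single_mul_single, inv_mul_cancel, mul_one]
    rfl
  have hg : ∀ a, g * ii F C a = ii F C (gm F C z a) * g := fun a => ii_comm C z 1 a
  have hgz : g * ii F C (al zz) = ii F C (al zz) * g := by rw [hg, hγz]
  have hgz' : g' * ii F C (al zz) = ii F C (al zz) * g' := by
    calc g' * ii F C (al zz) = g' * ii F C (al zz) * (g * g') := by rw [hgg', mul_one]
      _ = g' * (ii F C (al zz) * g) * g' := by simp only [mul_assoc]
      _ = g' * g * ii F C (al zz) * g' := by rw [← hgz]; simp only [mul_assoc]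
      _ = _ := by rw [hg'g, one_mul]
  have hv : ii F C (al zz) * (ii F C X * g) = ii F C X * g * ii F C (al zz) := by
    rw [mul_assoc, hgz, ← mul_assoc, ← mul_assoc, ← map_mul, ← map_mul, hM.zc X]
  have hv' : ii F C (al zz) * (g' * ii F C X') = g' * ii F C X' * ii F C (al zz) := by
    rw [mul_assoc, ← map_mul, hM.zc X', map_mul, ← mul_assoc, ← mul_assoc, hgz']
  have hvv : ii F C X * g * ii F C (al (E i0 i0)) * (g' * ii F C X') =
      ii F C (al (E i0 i0)) := by
    calc ii F C X * g * ii F C (al (E i0 i0)) * (g' * ii F C X')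
        = ii F C X * (g * ii F C (al (E i0 i0))) * g' * ii F C X' := by simp only [mul_assoc]
      _ = ii F C X * ii F C (gm F C z (al (E i0 i0))) * (g * g') * ii F C X' := by
          rw [hg]
          simp only [mul_assoc]
      _ = ii F C (X * gm F C z (al (E i0 i0)) * X') := by
          rw [hgg', mul_one, map_mul, map_mul]
      _ = _ := by rw [hX]
  let w := ww (ii F C) (fun i j => al (E i j)) i0 (ii F C X * g)
  let w' := ww (ii F C) (fun i j => al (E i j)) i0 (g' * ii F C X')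
  have hww : w * w' = ii F C (al e) := ww_mul hM (ii F C) i0 hvv
  have hcv : cvF (fn w) (fn w') = fn (ii F C (al e)) := by
    apply al_inj
    rw [al_cvF, al_fn, al_fn, al_fn, hww]
  refine ⟨fn w, fn w', fn_inv C fun a => ww_comm hM heC (ii F C) i0 hv a,
    fn_inv C fun a => ww_comm hM heC (ii F C) i0 hv' a, ?_, ?_, ?_⟩
  · have hwb : w = ii F C (∑ i, al (E i i0) * X * gm F C z (al (E i0 i))) * g := by
      rw [map_sum, Finset.sum_mul]
      refine Finset.sum_congr rfl fun i _ => ?_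
      show ii F C (al (E i i0)) * (ii F C X * g) * ii F C (al (E i0 i)) = _
      calc ii F C (al (E i i0)) * (ii F C X * g) * ii F C (al (E i0 i))
          = ii F C (al (E i i0)) * ii F C X * (g * ii F C (al (E i0 i))) := by
            simp only [mul_assoc]
        _ = _ := by
            rw [hg, map_mul, map_mul]
            simp only [mul_assoc]
    intro x hx
    show w.coeff x = 0
    rw [hwb]
    show (ii F C (∑ i, al (E i i0) * X * gm F C z (al (E i0 i))) *
      MonoidAlgebra.single z 1).coeff x = 0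
    rw [MonoidAlgebra.coeff_mul_single_apply, mul_one]
    exact ii_coeff' C _ _ hx
  · intro x
    rw [hcv]
    exact ii_coeff C (al e) x
  · intro x hx
    rw [hcv]
    exact ii_coeff' C (al e) x hx

end grp

/-! ### The main part -/

open Classical in
theorem core (h1 : Stmt_NIXX) (h2 : Stmt_IDX) (h3 : Stmt_UNSX) (h4 : Stmt_ZACX) (M : Type)
    [Group M] [Fintype M] (𝔐 : Ideal (integralClosure ℤ ℂ)) (ℓ n : ℕ) [Fact ℓ.Prime]
    (hMax : 𝔐.IsMaximal) (hℓ : (ℓ : integralClosure ℤ ℂ) ∈ 𝔐) (F : Type) [Field F]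
    [IsAlgClosed F] [CharP F ℓ] (r : integralClosure ℤ ℂ →+* F) (hr : Function.Surjective r)
    (hk : RingHom.ker r = 𝔐) (P₁ C : Subgroup M) [C.Normal]
    (hP : ∀ u ∈ P₁, ∀ x, u * x = x * u) (hidx : ¬ ℓ ∣ C.index) (E : M → ℂ) (hE : IsIrr E)
    (hEC : IsIrr (fun c : C => E c)) (Q : Subgroup C) (x₀ : C)
    (hAt : AtX ℓ n (cen 𝔐 (MonoidHom.id C) (fun c : C => E c)) (P₁.subgroupOf C) Q x₀)
    (z : M) : ∃ t, t * z⁻¹ ∈ C ∧ cgT 𝔐 C E t ≠ 0 := by
  obtain ⟨a, ha, hprm, hwt, -, -, hBK, huniq⟩ :=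
    h2 F C 𝔐 ℓ hMax hℓ r hr hk (fun c : C => E c) hEC
  have hB := (hBK n _ Q x₀ hAt).1
  obtain ⟨heCF, hee, hene, -⟩ := id hprm
  have hn : 0 < n := by
    rcases Nat.eq_zero_or_pos n with h | h
    · exfalso
      have e1 := hAt.cd.card
      rw [h, pow_zero] at e1
      have e2 := Subgroup.card_dvd_of_le hAt.cd.le
      rw [hAt.cd.c1, e1] at e2
      exact (Fact.out : ℓ.Prime).one_lt.ne' (Nat.dvd_one.mp e2)
    · exact h
  have hcen : P₁.subgroupOf C ≤ Subgroup.center C := by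
    intro u hu
    rw [Subgroup.mem_center_iff]
    intro x
    exact Subtype.ext (hP u hu x).symm
  obtain ⟨m, E0, zz, hNil⟩ := h1 ℓ n F hn C (P₁.subgroupOf C) Q x₀ _ hB hprm hcen
  obtain ⟨hm, hc, -⟩ := h3 F C _ heCF hee hene m (ℓ ^ n) E0 zz hNil
  have heκ : ∀ x, r (a (MulAut.conjNormal z x)) = r (a x) := by
    refine inv_e 𝔐 (MulAut.conjNormal z : MulAut C) ?_ ha hee _ (fun χ => Iff.rfl) hwt huniq
    intro x
    show E ((MulAut.conjNormal z x : C) : M) = E x
    rw [MulAut.conjNormal_apply, hE.conj_eq]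
  have hzκ : ∀ x, zz (MulAut.conjNormal z x) = zz x := by
    refine ((h4 ℓ n F C (P₁.subgroupOf C) hcen hAt.cd.c1 _ heCF hee hene m E0 zz hNil
      (MulAut.conjNormal z : MulAut C) heκ 1 ?_).2 ?_ ⟨C.index, hidx,
        ⟨z ^ C.index, C.pow_index_mem z⟩, ?_⟩ zz hNil.zc hNil.ze)
    · intro u hu
      rw [pow_one]
      apply Subtype.ext
      rw [MulAut.conjNormal_apply, ← hP u hu z, mul_inv_cancel_right]
    · exact Nat.cast_one
    · intro x
      rw [← map_pow]
      apply Subtype.ext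
      rw [MulAut.conjNormal_apply]
      rfl
  obtain ⟨f, f', hf, hf', hs, hp1, hp2⟩ := grp C heCF hene hNil hm hc z heκ hzκ
  let s : F → integralClosure ℤ ℂ := fun y => if y = 0 then 0 else Function.surjInv hr y
  have hs1 : ∀ y, r (s y) = y := by
    intro y
    show r (if y = 0 then 0 else Function.surjInv hr y) = y
    split_ifs with h
    · rw [map_zero, h]
    · exact Function.surjInv_eq hr y
  have hs0 : s 0 = 0 := if_pos rfl
  let b : M → integralClosure ℤ ℂ := fun x => s (f x)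
  let b' : M → integralClosure ℤ ℂ := fun x => s (f' x)
  have hb : ∀ c ∈ C, ∀ x, b (c * x * c⁻¹) = b x := by
    intro c hc x
    show s (f (c * x * c⁻¹)) = s (f x)
    rw [hf c hc]
  have hb' : ∀ c ∈ C, ∀ x, b' (c * x * c⁻¹) = b' x := by
    intro c hc x
    show s (f' (c * x * c⁻¹)) = s (f' x)
    rw [hf' c hc]
  have hbC : ∀ c ∈ C, ∀ x, (b (c * x * c⁻¹) : ℂ) = b x := fun c hc x => by rw [hb c hc x]
  have hbC' : ∀ c ∈ C, ∀ x, (b' (c * x * c⁻¹) : ℂ) = b' x := fun c hc x => by rw [hb' c hc x]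
  let d : M → integralClosure ℤ ℂ := fun x => ∑ y, b y * b' (y⁻¹ * x)
  have hd : (fun x => (d x : ℂ)) = cvF (fun x => (b x : ℂ)) (fun x => (b' x : ℂ)) := by
    funext x
    show ((∑ y, b y * b' (y⁻¹ * x) : integralClosure ℤ ℂ) : ℂ) = ∑ y, (b y : ℂ) * b' (y⁻¹ * x)
    push_cast
    rfl
  have hdinv : ∀ c ∈ C, ∀ x, d (c * x * c⁻¹) = d x := by
    intro c hc x
    apply Subtype.ext
    have h5 := congrFun hd (c * x * c⁻¹)
    have h6 := congrFun hd x
    rw [cvF_inv hbC hbC' c hc x, ← h6] at h5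
    exact h5
  let ae : M → integralClosure ℤ ℂ := fun x => if h : x ∈ C then a ⟨x, h⟩ else 0
  have hae : ∀ (x : M) (h : x ∈ C), ae x = a ⟨x, h⟩ := fun x h => dif_pos h
  have hae' : ∀ x : M, x ∉ C → ae x = 0 := fun x h => dif_neg h
  have haeinv : ∀ c ∈ C, ∀ x, ae (c * x * c⁻¹) = ae x := by
    intro c hc x
    by_cases hx : x ∈ C
    · rw [hae x hx, hae _ (C.mul_mem (C.mul_mem hc hx) (C.inv_mem hc))]
      exact ha ⟨c, hc⟩ ⟨x, hx⟩
    · rw [hae' x hx, hae']
      intro h5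
      apply hx
      have h6 : x = c⁻¹ * (c * x * c⁻¹) * c := by group
      rw [h6]
      exact C.mul_mem (C.mul_mem (C.inv_mem hc) h5) hc
  have hrd : ∀ x, r (d x) = r (ae x) := by
    intro x
    have h5 : r (d x) = cvF f f' x := by
      show r (∑ y, b y * b' (y⁻¹ * x)) = ∑ y, f y * f' (y⁻¹ * x)
      rw [map_sum]
      refine Finset.sum_congr rfl fun y _ => ?_
      rw [map_mul, hs1, hs1]
    rw [h5]
    by_cases hx : x ∈ C
    · rw [hae x hx]
      exact hp1 ⟨x, hx⟩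
    · rw [hae' x hx, map_zero]
      exact hp2 x hx
  have e1 : red 𝔐 (wt E (fun x => (d x : ℂ))) = red 𝔐 (wt E (fun x => (ae x : ℂ))) := by
    rw [red_wt_cls 𝔐 hE hEC d hdinv, red_wt_cls 𝔐 hE hEC ae haeinv]
    refine Finset.sum_congr rfl fun q _ => ?_
    rw [red_congr 𝔐 hk (hrd _)]
  have e2 : wt E (fun x => (ae x : ℂ)) = wt (fun c : C => E c) (fun h => (a h : ℂ)) := by
    unfold wt
    congr 1
    have h5 : ∀ x : M, x ∉ C → (ae x : ℂ) * E x = 0 := by
      intro x hx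
      rw [hae' x hx]
      simp
    rw [← Finset.sum_filter_of_ne (s := Finset.univ) (p := fun y => y ∈ C)
      (f := fun y : M => (ae y : ℂ) * E y)
      (fun y _ hy => by
        by_contra h6
        exact hy (h5 y h6))]
    rw [Finset.sum_subtype (p := fun y => y ∈ C) _ (fun y => by simp)
      fun y : M => (ae y : ℂ) * E y]
    refine Finset.sum_congr rfl fun y _ => ?_
    rw [hae y y.2]
  have e3 : red 𝔐 (wt (fun c : C => E c) (fun h => (a h : ℂ))) = 1 := by
    rw [hwt _ hEC, if_pos rfl]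
  have e4 : red 𝔐 (wt E (fun x => (b x : ℂ))) * red 𝔐 (wt E (fun x => (b' x : ℂ))) = 1 := by
    have i1 : IsIntegral ℤ (wt E (fun x => (b x : ℂ))) :=
      SCT.int_wt hE hEC _ hbC fun x => (b x).2
    have i2 : IsIntegral ℤ (wt E (fun x => (b' x : ℂ))) :=
      SCT.int_wt hE hEC _ hbC' fun x => (b' x).2
    rw [← red_mul 𝔐 i1 i2, ← wt_cvF hE hEC hbC hbC', ← hd, e1, e2, e3]
  by_contra hno
  push Not at hno
  have e5 : red 𝔐 (wt E (fun x => (b x : ℂ))) = 0 := by
    rw [red_wt_cls 𝔐 hE hEC b hb]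
    refine Finset.sum_eq_zero fun q _ => ?_
    by_cases hq : (q.out : M) * z⁻¹ ∈ C
    · rw [hno _ hq, mul_zero]
    · have h5 : b q.out = 0 := by
        show s (f q.out) = 0
        rw [hs _ hq, hs0]
      rw [h5]
      have h6 : red 𝔐 (((0 : integralClosure ℤ ℂ) : integralClosure ℤ ℂ) : ℂ) = 0 := red_zero 𝔐
      rw [h6, zero_mul]
  rw [e5, zero_mul] at e4
  have : Nontrivial ((integralClosure ℤ ℂ) ⧸ 𝔐) := Ideal.Quotient.nontrivial_iff.mpr hMax.ne_top
  exact zero_ne_one e4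

end SCXX

theorem SCXX_thm (h1 : Stmt_NIXX) (h2 : Stmt_IDX) (h3 : Stmt_UNSX) (h4 : Stmt_ZACX) :
    Stmt_SCXX := by
  intro M _ _ 𝔐 ℓ n hℓp hMax hℓ P₁ C _ _ hP hidx E hE hEC Q x₀ hAt z
  have hPrime : 𝔐.IsPrime := hMax.isPrime
  let _ : Field ((integralClosure ℤ ℂ) ⧸ 𝔐) := Ideal.Quotient.field 𝔐
  have hac : IsAlgClosed ((integralClosure ℤ ℂ) ⧸ 𝔐) :=
    ACF_thm _ (Ideal.Quotient.mk 𝔐) Ideal.Quotient.mk_surjective
  have hch : CharP ((integralClosure ℤ ℂ) ⧸ 𝔐) ℓ := quot_char 𝔐 hℓ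
  exact SCXX.core h1 h2 h3 h4 M 𝔐 ℓ n hMax hℓ ((integralClosure ℤ ℂ) ⧸ 𝔐)
    (Ideal.Quotient.mk 𝔐) Ideal.Quotient.mk_surjective Ideal.mk_ker P₁ C hP hidx E hE hEC Q x₀
    hAt z

end Pool.Agent.DPX


end
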