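import Mathlib
import Pool.Agent.DAM.C02
import Pool.Agent.DAM.C11
import Pool.Agent.DAM.C14
import Pool.Agent.DAM.C19
import Pool.Agent.DAM.C26
import Pool.Agent.DAM.C27
import Pool.Agent.DAM.C32
import Pool.Agent.DAM.C38
import Pool.Agent.DAM.C40
import Pool.Agent.DAM.C43
import Pool.Agent.DAM.C44
import Pool.Agent.DAM.C45
import Pool.Agent.DAM.C56
import Pool.Agent.DAM.C58
import Pool.Agent.DAM.C62
import Pool.Agent.DAM.C90
import Pool.Agent.DAM.C97

/-! Parts: DPT.BTX, DPT.MLT, DPT.BTF, DPT.SPLM, DPT.STN, DPT.STC, DPT.DGM, DPK.STBr, DPW.KBB, DPX.NPRX, DPX.ALGX -/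

section

/-!
# BTX: existence, uniqueness and bimultiplicativity of the commutator form
-/

namespace Pool.Agent.DPT

open Pool.Agent.DP Pool.Agent.DPC Pool.Agent.DPM Pool.Agent.DPN Pool.Agent.Lib_helper13
  Representation

namespace BTX

theorem clG {Y : Type} [Group Y] (N : Subgroup Y) [N.Normal] :
    ClG N.subtype (MulAut.conjNormal : Y →* MulAut N) (QuotientGroup.mk' N) where
  inj := N.subtype_injective
  act := fun y a => MulAut.conjNormal_apply y a
  ker := by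
    intro y
    rw [QuotientGroup.mk'_apply, QuotientGroup.eq_one_iff, Subgroup.range_subtype]

variable {G : Type} [Group G] [Fintype G]

omit [Fintype G] in
theorem nrm {N Y S : Subgroup G} (hYS : Y ≤ S) (hn : ∀ s ∈ S, ∀ n ∈ N, s * n * s⁻¹ ∈ N) :
    (N.subgroupOf Y).Normal := by
  refine ⟨fun a ha g => ?_⟩
  rw [Subgroup.mem_subgroupOf] at ha ⊢
  exact hn g (hYS g.2) a ha

theorem irrA {N Y : Subgroup G} (hNY : N ≤ Y) {θ : G → ℂ} (hθ : IrrOn N θ) :
    IsIrr (fun a : N.subgroupOf Y => θ ((a : Y) : G)) :=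
  hθ.1.comp_mulEquiv (Subgroup.subgroupOfEquivOfLe hNY)

/-- Uniqueness of the value of the commutator form. -/
theorem uniq {N S : Subgroup G} (hNS : N ≤ S) (hn : ∀ s ∈ S, ∀ n ∈ N, s * n * s⁻¹ ∈ N)
    (hc : ∀ s ∈ S, ∀ t ∈ S, s * t * s⁻¹ * t⁻¹ ∈ N) {θ : G → ℂ} (hθ : IrrOn N θ) {s t : G}
    (hs : s ∈ S) (ht : t ∈ S) {ζ ζ' : ℂ} (h : BT N θ s t ζ) (h' : BT N θ s t ζ') : ζ = ζ' := by
  classical
  obtain ⟨E, hE, hEn, hEs⟩ := h
  obtain ⟨E', hE', hEn', hEs'⟩ := h'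
  have hNY : N ≤ N ⊔ Subgroup.zpowers t := le_sup_left
  have hYS : N ⊔ Subgroup.zpowers t ≤ S := sup_le hNS (Subgroup.zpowers_le.mpr ht)
  have htY : t ∈ N ⊔ Subgroup.zpowers t :=
    (le_sup_right : Subgroup.zpowers t ≤ _) (Subgroup.mem_zpowers t)
  generalize hY : N ⊔ Subgroup.zpowers t = Y at hE hE' hNY hYS htY
  have hN1 : (N.subgroupOf Y).Normal := nrm hYS hn
  let _ : Fintype ↥Y := Fintype.ofFinite _
  let _ : Fintype ↥(N.subgroupOf Y) := Fintype.ofFinite _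
  let _ : Fintype (↥Y ⧸ N.subgroupOf Y) := Fintype.ofFinite _
  have hθA := irrA hNY hθ
  have hcl := clG (N.subgroupOf Y)
  have hG := GALL_thm COSET_thm SUMM_thm ↥(N.subgroupOf Y) ↥Y (↥Y ⧸ N.subgroupOf Y)
    (N.subgroupOf Y).subtype MulAut.conjNormal (QuotientGroup.mk' (N.subgroupOf Y)) hcl
    (QuotientGroup.mk'_surjective _) (fun a => θ ((a : Y) : G)) (fun y => E y) hθA hE.1.isChr
    (fun a => hEn _ (Subgroup.mem_subgroupOf.mp a.2))
  have hr : resj (N.subgroupOf Y).subtype (fun y : Y => E' y) =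
      fun a : N.subgroupOf Y => θ ((a : Y) : G) := by
    funext a
    exact hEn' _ (Subgroup.mem_subgroupOf.mp a.2)
  obtain ⟨η, -, hη⟩ := hG.2.2 (fun y => E' y) hE'.1 (by
    rw [hr, ip_self hθA]
    exact one_ne_zero)
  have hη' : ∀ y : Y, E' y = E y * η (QuotientGroup.mk' (N.subgroupOf Y) y) := fun y =>
    congrFun hη y
  -- a non vanishing value
  have hcos := COSET_thm ↥(N.subgroupOf Y) ↥Y (↥Y ⧸ N.subgroupOf Y)
    (N.subgroupOf Y).subtype MulAut.conjNormal (QuotientGroup.mk' (N.subgroupOf Y)) hcl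
    (fun a => θ ((a : Y) : G)) (fun y => E' y) hθA hE'.1.isChr
    (fun a => hEn' _ (Subgroup.mem_subgroupOf.mp a.2)) ⟨t, htY⟩
  have hex : ∃ n ∈ N, E' (t * n) ≠ 0 := by
    by_contra hcon
    push Not at hcon
    rw [Finset.sum_eq_zero] at hcos
    · exact natCard_ne_zero hcos.symm
    · intro a _
      have h1 : E' (((⟨t, htY⟩ : Y) * (N.subgroupOf Y).subtype a : Y) : G) = 0 :=
        hcon _ (Subgroup.mem_subgroupOf.mp a.2)
      rw [h1, zero_mul]
  obtain ⟨n, hnN, hne⟩ := hex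
  have htn : t * n ∈ Y := Y.mul_mem htY (hNY hnN)
  have hcn : s * (t * n) * s⁻¹ * (t * n)⁻¹ ∈ N := hc s hs (t * n) (hYS htn)
  have hsn : s * (t * n) * s⁻¹ ∈ Y := by
    have h1 : s * (t * n) * s⁻¹ * (t * n)⁻¹ * (t * n) = s * (t * n) * s⁻¹ := by group
    rw [← h1]
    exact Y.mul_mem (hNY hcn) htn
  have hq : QuotientGroup.mk' (N.subgroupOf Y) ⟨s * (t * n) * s⁻¹, hsn⟩ =
      QuotientGroup.mk' (N.subgroupOf Y) ⟨t * n, htn⟩ := by
    have h1 : (⟨s * (t * n) * s⁻¹, hsn⟩ : Y) =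
        ⟨s * (t * n) * s⁻¹ * (t * n)⁻¹, hNY hcn⟩ * ⟨t * n, htn⟩ := by
      apply Subtype.ext
      change s * (t * n) * s⁻¹ = s * (t * n) * s⁻¹ * (t * n)⁻¹ * (t * n)
      group
    rw [h1, map_mul]
    have h2 : QuotientGroup.mk' (N.subgroupOf Y)
        (⟨s * (t * n) * s⁻¹ * (t * n)⁻¹, hNY hcn⟩ : Y) = 1 := by
      rw [QuotientGroup.mk'_apply, QuotientGroup.eq_one_iff]
      exact Subgroup.mem_subgroupOf.mpr hcn
    rw [h2, one_mul]
  have e1 : E (s * (t * n) * s⁻¹) = ζ * E (t * n) := by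
    have h1 := hEs 1 n hnN
    rwa [zpow_one, zpow_one] at h1
  have e2 : E' (s * (t * n) * s⁻¹) = ζ' * E' (t * n) := by
    have h1 := hEs' 1 n hnN
    rwa [zpow_one, zpow_one] at h1
  have e3 : E' (s * (t * n) * s⁻¹) = ζ * E' (t * n) := by
    have h1 := hη' ⟨s * (t * n) * s⁻¹, hsn⟩
    have h2 := hη' ⟨t * n, htn⟩
    rw [hq] at h1
    change E' (s * (t * n) * s⁻¹) = E (s * (t * n) * s⁻¹) * _ at h1
    change E' (t * n) = E (t * n) * _ at h2
    rw [h1, h2, e1, mul_assoc]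
  rw [e2] at e3
  exact (mul_right_cancel₀ hne e3).symm

end BTX

open _root_.Pool.Agent.DPT.BTX in
theorem BTX_thm (h1 : Stmt_TWC) (h2 : Stmt_BTW) : Stmt_BTX := by
  intro G _ _ N S hNS hn hc θ hθ hS
  classical
  have hN1 : (N.subgroupOf S).Normal := nrm le_rfl hn
  let _ : Fintype ↥S := Fintype.ofFinite _
  let _ : Fintype ↥(N.subgroupOf S) := Fintype.ofFinite _
  have hθA := irrA hNS hθ
  have hcl := clG (N.subgroupOf S)
  have hinv : ∀ (t : S) (a : N.subgroupOf S),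
      (fun a : N.subgroupOf S => θ ((a : S) : G)) ((MulAut.conjNormal t :
        MulAut (N.subgroupOf S)) a) = (fun a : N.subgroupOf S => θ ((a : S) : G)) a := by
    intro t a
    change θ ((((MulAut.conjNormal t : MulAut (N.subgroupOf S)) a : N.subgroupOf S) : S) : G) =
      θ ((a : S) : G)
    rw [MulAut.conjNormal_apply]
    exact hS t.2 ((a : S) : G)
  obtain ⟨Γ, L, iΓ, fΓ, iL, fL, e, q, r, E, U, μ, π, hT⟩ := h1 ↥(N.subgroupOf S) ↥S
    (↥S ⧸ N.subgroupOf S) (N.subgroupOf S).subtype MulAut.conjNormal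
    (QuotientGroup.mk' (N.subgroupOf S)) hcl (QuotientGroup.mk'_surjective _)
    (fun a => θ ((a : S) : G)) hθA hinv
  -- the quotient is abelian
  have hab : ∀ x y : ↥S ⧸ N.subgroupOf S, x * y * x⁻¹ * y⁻¹ = 1 := by
    intro x y
    obtain ⟨x, rfl⟩ := QuotientGroup.mk'_surjective _ x
    obtain ⟨y, rfl⟩ := QuotientGroup.mk'_surjective _ y
    rw [← map_inv, ← map_inv, ← map_mul, ← map_mul, ← map_mul, QuotientGroup.mk'_apply,
      QuotientGroup.eq_one_iff]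
    exact Subgroup.mem_subgroupOf.mpr (hc x x.2 y y.2)
  have hU : ∀ l l' : L, l * l' * l⁻¹ * l'⁻¹ ∈ U := by
    intro l l'
    rw [← hT.πk, map_mul, map_mul, map_mul, map_inv, map_inv]
    exact hab _ _
  -- the values on `Γ`
  have hB : ∀ γ γ' : Γ, BT N θ (r γ : S) (r γ' : S)
      ((μ ⟨q γ * q γ' * (q γ)⁻¹ * (q γ')⁻¹, hU _ _⟩ : ℂˣ) : ℂ) := by
    intro γ γ'
    have hrange : (S.subtype.comp (N.subgroupOf S).subtype).range = N := by
      ext x
      constructor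
      · rintro ⟨a, rfl⟩
        exact Subgroup.mem_subgroupOf.mp a.2
      · intro hx
        exact ⟨⟨⟨x, hNS hx⟩, Subgroup.mem_subgroupOf.mpr hx⟩, rfl⟩
    have h := h2 ↥(N.subgroupOf S) ↥S (↥S ⧸ N.subgroupOf S) Γ L G (N.subgroupOf S).subtype
      MulAut.conjNormal (QuotientGroup.mk' (N.subgroupOf S)) hcl
      (QuotientGroup.mk'_surjective _) (fun a => θ ((a : S) : G)) hθA hinv e q r E U μ π hT
      S.subtype S.subtype_injective θ (fun a => rfl)
      (fun x hx => hθ.2 x (by rwa [hrange] at hx)) γ γ' (hU _ _)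
    rw [hrange] at h
    exact h
  -- lifts
  have hlift : ∀ s : G, ∃ γ : Γ, s ∈ S → ((r γ : S) : G) = s := by
    intro s
    by_cases hs : s ∈ S
    · obtain ⟨γ, hγ⟩ := hT.rs ⟨s, hs⟩
      exact ⟨γ, fun _ => by rw [hγ]⟩
    · exact ⟨1, fun h => absurd h hs⟩
  choose g hg using hlift
  have hval : ∀ s ∈ S, ∀ t ∈ S, ∀ γ γ' : Γ, ((r γ : S) : G) = s → ((r γ' : S) : G) = t →
      μ ⟨q γ * q γ' * (q γ)⁻¹ * (q γ')⁻¹, hU _ _⟩ =
        μ ⟨q (g s) * q (g t) * (q (g s))⁻¹ * (q (g t))⁻¹, hU _ _⟩ := by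
    intro s hs t ht γ γ' hγ hγ'
    have ha := hB γ γ'
    have hb := hB (g s) (g t)
    rw [hγ, hγ'] at ha
    rw [hg s hs, hg t ht] at hb
    exact Units.ext (uniq hNS hn hc hθ hs ht ha hb)
  have hcen : ∀ u ∈ U, ∀ l : L, u * l = l * u := fun u hu l =>
    (Subgroup.mem_center_iff.mp (hT.Uc hu) l).symm
  refine ⟨fun s t => μ ⟨q (g s) * q (g t) * (q (g s))⁻¹ * (q (g t))⁻¹, hU _ _⟩, ?_, ?_, ?_⟩
  · intro s hs t ht ζ
    have hb := hB (g s) (g t)
    rw [hg s hs, hg t ht] at hb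
    constructor
    · intro h
      exact uniq hNS hn hc hθ hs ht h hb
    · intro h
      rw [h]
      exact hb
  · intro s hs t ht u hu
    constructor
    · have h3 : ((r (g s * g t) : S) : G) = s * t := by
        rw [map_mul, Subgroup.coe_mul, hg s hs, hg t ht]
      have h4 := hval (s * t) (S.mul_mem hs ht) u hu (g s * g t) (g u) h3 (hg u hu)
      refine h4.symm.trans ?_
      beta_reduce
      rw [← map_mul μ]
      congr 1
      apply Subtype.ext
      change q (g s * g t) * q (g u) * (q (g s * g t))⁻¹ * (q (g u))⁻¹ =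
        (q (g s) * q (g u) * (q (g s))⁻¹ * (q (g u))⁻¹) *
          (q (g t) * q (g u) * (q (g t))⁻¹ * (q (g u))⁻¹)
      have h5 := hcen _ (hU (q (g t)) (q (g u))) (q (g u) * (q (g s))⁻¹ * (q (g u))⁻¹)
      rw [map_mul]
      calc q (g s) * q (g t) * q (g u) * (q (g s) * q (g t))⁻¹ * (q (g u))⁻¹
          = q (g s) * ((q (g t) * q (g u) * (q (g t))⁻¹ * (q (g u))⁻¹) *
            (q (g u) * (q (g s))⁻¹ * (q (g u))⁻¹)) := by group
        _ = q (g s) * ((q (g u) * (q (g s))⁻¹ * (q (g u))⁻¹) *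
            (q (g t) * q (g u) * (q (g t))⁻¹ * (q (g u))⁻¹)) := by rw [h5]
        _ = (q (g s) * q (g u) * (q (g s))⁻¹ * (q (g u))⁻¹) *
            (q (g t) * q (g u) * (q (g t))⁻¹ * (q (g u))⁻¹) := by group
    · have h3 : ((r (g t * g u) : S) : G) = t * u := by
        rw [map_mul, Subgroup.coe_mul, hg t ht, hg u hu]
      have h4 := hval s hs (t * u) (S.mul_mem ht hu) (g s) (g t * g u) (hg s hs) h3
      refine h4.symm.trans ?_
      beta_reduce
      rw [← map_mul μ]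
      congr 1
      apply Subtype.ext
      change q (g s) * q (g t * g u) * (q (g s))⁻¹ * (q (g t * g u))⁻¹ =
        (q (g s) * q (g t) * (q (g s))⁻¹ * (q (g t))⁻¹) *
          (q (g s) * q (g u) * (q (g s))⁻¹ * (q (g u))⁻¹)
      have h5 := hcen _ (hU (q (g s)) (q (g u))) ((q (g t))⁻¹)
      rw [map_mul]
      calc q (g s) * (q (g t) * q (g u)) * (q (g s))⁻¹ * (q (g t) * q (g u))⁻¹
          = q (g s) * q (g t) * (q (g s))⁻¹ * ((q (g s) * q (g u) * (q (g s))⁻¹ *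
            (q (g u))⁻¹) * (q (g t))⁻¹) := by group
        _ = q (g s) * q (g t) * (q (g s))⁻¹ * ((q (g t))⁻¹ * (q (g s) * q (g u) *
            (q (g s))⁻¹ * (q (g u))⁻¹)) := by rw [h5]
        _ = (q (g s) * q (g t) * (q (g s))⁻¹ * (q (g t))⁻¹) *
            (q (g s) * q (g u) * (q (g s))⁻¹ * (q (g u))⁻¹) := by group
  · intro s hs
    change μ ⟨q (g s) * q (g s) * (q (g s))⁻¹ * (q (g s))⁻¹, hU _ _⟩ = 1
    have h3 : (⟨q (g s) * q (g s) * (q (g s))⁻¹ * (q (g s))⁻¹, hU _ _⟩ : U) = 1 := by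
      apply Subtype.ext
      change q (g s) * q (g s) * (q (g s))⁻¹ * (q (g s))⁻¹ = 1
      group
    rw [h3, map_one]

end Pool.Agent.DPT


end

section

/-!
# Conjugates of corresponding characters (MLT)
-/

namespace Pool.Agent.DPT

open Pool.Agent.DP Pool.Agent.DPC Pool.Agent.DPM Pool.Agent.DPN Pool.Agent.Lib_helper13
open Representation

namespace MLT

/-- Conjugation by `y` on a subgroup normalized by `y`. -/
def cj {Y : Type} [Group Y] (H : Subgroup Y) (y : Y) (h : ∀ c, c ∈ H ↔ y * c * y⁻¹ ∈ H) :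
    H ≃* H where
  toFun z := ⟨y * z * y⁻¹, (h z).1 z.2⟩
  invFun z := ⟨y⁻¹ * z * y, (h _).2 (by
    have h1 : y * (y⁻¹ * (z : Y) * y) * y⁻¹ = z := by group
    rw [h1]
    exact z.2)⟩
  left_inv z := by
    apply Subtype.ext
    change y⁻¹ * (y * (z : Y) * y⁻¹) * y = z
    group
  right_inv z := by
    apply Subtype.ext
    change y * (y⁻¹ * (z : Y) * y) * y⁻¹ = z
    group
  map_mul' a b := by
    apply Subtype.ext
    change y * ((a : Y) * b) * y⁻¹ = y * (a : Y) * y⁻¹ * (y * (b : Y) * y⁻¹)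
    group

theorem cen_equiv {H : Type} [Group H] [Fintype H] (𝔐 : Ideal (integralClosure ℤ ℂ))
    (e : H ≃* H) (f : H → ℂ) (g : H) :
    cen 𝔐 (MonoidHom.id H) (fun s => f (e s)) g = cen 𝔐 (MonoidHom.id H) f (e g) := by
  have h1 : (fun s : H => conjInd ((MonoidHom.id H) s) g) =
      fun s => (fun y => conjInd ((MonoidHom.id H) y) (e g)) (e s) := by
    funext s
    refine conjInd_congr ⟨fun h => ?_, fun h => ?_⟩
    · exact e.toMonoidHom.map_isConj h
    · have h2 := e.symm.toMonoidHom.map_isConj h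
      simpa using h2
  rw [cen, cen, h1, wt_comp_equiv e f (fun y => conjInd ((MonoidHom.id H) y) (e g))]

end MLT

theorem MLT_thm : Stmt_MLT := by
  intro Y G _ _ _ _ 𝔐 ℓ k hk lam C θ χ hML y hy
  obtain ⟨⟨hirr, hzero⟩, hov, hcen⟩ := hML
  have hH : ∀ c, c ∈ C.comap k ↔ y * c * y⁻¹ ∈ C.comap k := by
    intro c
    rw [Subgroup.mem_comap, Subgroup.mem_comap, hy (k c)]
    simp only [map_mul, map_inv]
  refine ⟨⟨hirr.comp_mulEquiv (MLT.cj (C.comap k) y hH), fun x hx => ?_⟩, fun z w => ?_, ?_⟩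
  · exact hzero _ fun h => hx ((hH x).2 h)
  · have hz := Subgroup.mem_center_iff.1 (hk.cen z.2) y
    have h1 : y * ((z : Y) * w) * y⁻¹ = z * (y * w * y⁻¹) := by
      calc y * ((z : Y) * w) * y⁻¹ = (y * z) * w * y⁻¹ := by group
        _ = (z * y) * w * y⁻¹ := by rw [hz]
        _ = z * (y * w * y⁻¹) := by group
    change χ (y * ((z : Y) * w) * y⁻¹) = ((lam z : ℂˣ) : ℂ) * χ (y * w * y⁻¹)
    rw [h1]
    exact hov z _
  · funext g
    have h1 := MLT.cen_equiv 𝔐 (MLT.cj (C.comap k) y hH) (fun s => χ s) g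
    have h2 := MLT.cen_equiv 𝔐 (MLT.cj (C.comap k) y hH) (fun s => θ (k s)) g
    have h3 : (fun s : ↥(C.comap k) => θ (k y * k (s : Y) * (k y)⁻¹)) =
        fun s => (fun s : ↥(C.comap k) => θ (k s)) (MLT.cj (C.comap k) y hH s) := by
      funext s
      change _ = θ (k (y * (s : Y) * y⁻¹))
      rw [map_mul, map_mul, map_inv]
    rw [h3, h2, ← congrFun hcen, ← h1]
    rfl

end Pool.Agent.DPT


end

section

/-!
# BTF: the commutator forms of corresponding characters of `N` and its inverse image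
-/

namespace Pool.Agent.DPT

open Pool.Agent.DP Pool.Agent.DPC Pool.Agent.DPM Pool.Agent.DPN Pool.Agent.Lib_helper13
open Representation

namespace BTF

section Grp

variable {G : Type} [Group G]

theorem iff_conj [Finite G] {N : Subgroup G} {a : G} (h : ∀ n ∈ N, a * n * a⁻¹ ∈ N) (c : G) :
    c ∈ N ↔ a * c * a⁻¹ ∈ N := by
  refine ⟨h c, fun hc => ?_⟩
  have hinj : Function.Injective (fun n : N => (⟨a * n * a⁻¹, h n n.2⟩ : N)) := by
    intro m n hmn
    have h1 : a * (m : G) * a⁻¹ = a * n * a⁻¹ := congrArg Subtype.val hmn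
    exact Subtype.ext (mul_left_cancel (mul_right_cancel h1))
  obtain ⟨n, hn⟩ := Finite.surjective_of_injective hinj ⟨_, hc⟩
  have h1 : a * (n : G) * a⁻¹ = a * c * a⁻¹ := congrArg Subtype.val hn
  rw [← mul_left_cancel (mul_right_cancel h1)]
  exact n.2

theorem mem_nor [Finite G] {N : Subgroup G} {a : G} (h : ∀ n ∈ N, a * n * a⁻¹ ∈ N) :
    a ∈ Subgroup.normalizer (N : Set G) :=
  Subgroup.mem_normalizer_iff.2 (iff_conj h)

theorem nor_conj {N : Subgroup G} {a : G} (h : a ∈ Subgroup.normalizer (N : Set G)) {n : G}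
    (hn : n ∈ N) : a * n * a⁻¹ ∈ N := (Subgroup.mem_normalizer_iff.1 h n).1 hn

/-- The elements of the group generated by `N` and `b`. -/
theorem mem_gen [Finite G] {N : Subgroup G} {b : G} (h : ∀ n ∈ N, b * n * b⁻¹ ∈ N) {g : G}
    (hg : g ∈ N ⊔ Subgroup.zpowers b) : ∃ i : ℤ, ∃ n ∈ N, g = b ^ i * n := by
  have hb := mem_nor h
  let P : Subgroup G :=
    { carrier := {g | ∃ i : ℤ, ∃ n ∈ N, g = b ^ i * n}
      one_mem' := ⟨0, 1, N.one_mem, by simp⟩
      mul_mem' := by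
        rintro _ _ ⟨i, n, hn, rfl⟩ ⟨j, m, hm, rfl⟩
        refine ⟨i + j, b ^ (-j) * n * (b ^ (-j))⁻¹ * m, N.mul_mem (nor_conj (zpow_mem hb _) hn) hm,
          ?_⟩
        rw [zpow_add, zpow_neg]
        group
      inv_mem' := by
        rintro _ ⟨i, n, hn, rfl⟩
        refine ⟨-i, b ^ i * n⁻¹ * (b ^ i)⁻¹, nor_conj (zpow_mem hb _) (N.inv_mem hn), ?_⟩
        rw [zpow_neg]
        group }
  have hP : N ⊔ Subgroup.zpowers b ≤ P := by
    refine sup_le (fun n hn => ⟨0, n, hn, by simp⟩) ?_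
    rw [Subgroup.zpowers_le]
    exact ⟨1, 1, N.one_mem, by simp⟩
  exact hP hg

theorem nor_gen [Finite G] {N : Subgroup G} {b : G} (h : ∀ n ∈ N, b * n * b⁻¹ ∈ N) :
    N ⊔ Subgroup.zpowers b ≤ Subgroup.normalizer (N : Set G) :=
  sup_le Subgroup.le_normalizer (Subgroup.zpowers_le.2 (mem_nor h))

theorem le_sx {N : Subgroup G} {θ : G → ℂ} (hθ : IrrOn N θ) : N ≤ sx θ := by
  intro n hn x
  by_cases hx : x ∈ N
  · exact hθ.1.conj_eq (⟨n, hn⟩ : N) ⟨x, hx⟩
  · rw [hθ.2 x hx, hθ.2]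
    intro h'
    apply hx
    have := N.mul_mem (N.mul_mem (N.inv_mem hn) h') hn
    rwa [show n⁻¹ * (n * x * n⁻¹) * n = x by group] at this

/-- A group which contains `N` and two elements which commute modulo `N`. -/
theorem exS [Finite G] {N : Subgroup G} {θ : G → ℂ} (hθ : IrrOn N θ) {a b : G}
    (ha : ∀ n ∈ N, a * n * a⁻¹ ∈ N) (hb : ∀ n ∈ N, b * n * b⁻¹ ∈ N) (ha' : a ∈ sx θ)
    (hb' : b ∈ sx θ) (hab : a * b * a⁻¹ * b⁻¹ ∈ N) :
    ∃ S : Subgroup G, N ≤ S ∧ a ∈ S ∧ b ∈ S ∧ (∀ s ∈ S, ∀ n ∈ N, s * n * s⁻¹ ∈ N) ∧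
      (∀ s ∈ S, ∀ t ∈ S, s * t * s⁻¹ * t⁻¹ ∈ N) ∧ S ≤ sx θ := by
  set M : Subgroup G := Subgroup.normalizer (N : Set G) ⊓ sx θ with hM
  have haM : a ∈ M := ⟨mem_nor ha, ha'⟩
  have hbM : b ∈ M := ⟨mem_nor hb, hb'⟩
  have hNM : N ≤ M := le_inf Subgroup.le_normalizer (le_sx hθ)
  have hn : (N.subgroupOf M).Normal := BTX.nrm le_rfl fun s hs n hn => nor_conj hs.1 hn
  have h1 : ∀ c ∈ Subgroup.closure {QuotientGroup.mk' (N.subgroupOf M) ⟨a, haM⟩,
      QuotientGroup.mk' (N.subgroupOf M) ⟨b, hbM⟩},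
      ∀ d ∈ Subgroup.closure {QuotientGroup.mk' (N.subgroupOf M) ⟨a, haM⟩,
      QuotientGroup.mk' (N.subgroupOf M) ⟨b, hbM⟩}, c * d = d * c := by
    have hab' : QuotientGroup.mk' (N.subgroupOf M) ⟨a, haM⟩ *
        QuotientGroup.mk' (N.subgroupOf M) ⟨b, hbM⟩ =
        QuotientGroup.mk' (N.subgroupOf M) ⟨b, hbM⟩ *
        QuotientGroup.mk' (N.subgroupOf M) ⟨a, haM⟩ := by
      have h2 : QuotientGroup.mk' (N.subgroupOf M) ((⟨a, haM⟩ : M) * ⟨b, hbM⟩ * (⟨a, haM⟩ : M)⁻¹ *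
          (⟨b, hbM⟩ : M)⁻¹) = 1 := by
        rw [QuotientGroup.mk'_apply, QuotientGroup.eq_one_iff]
        exact Subgroup.mem_subgroupOf.mpr hab
      rw [map_mul, map_mul, map_mul, map_inv, map_inv] at h2
      have h3 := congrArg (fun z => z * QuotientGroup.mk' (N.subgroupOf M) ⟨b, hbM⟩ *
        QuotientGroup.mk' (N.subgroupOf M) ⟨a, haM⟩) h2
      simpa [mul_assoc] using h3
    intro c hc d hd
    have h2 : c ∈ Subgroup.centralizer (Subgroup.closure
        {QuotientGroup.mk' (N.subgroupOf M) ⟨a, haM⟩,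
          QuotientGroup.mk' (N.subgroupOf M) ⟨b, hbM⟩} : Set (M ⧸ N.subgroupOf M)) := by
      revert hc
      suffices h3 : Subgroup.closure {QuotientGroup.mk' (N.subgroupOf M) ⟨a, haM⟩,
          QuotientGroup.mk' (N.subgroupOf M) ⟨b, hbM⟩} ≤ _ from fun hc => h3 hc
      rw [Subgroup.centralizer_closure, Subgroup.closure_le]
      intro e he
      rw [SetLike.mem_coe, Subgroup.mem_centralizer_iff]
      intro f hf
      rcases he with rfl | he
      · rcases hf with rfl | hf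
        · rfl
        · rw [Set.mem_singleton_iff.1 hf]
          exact hab'.symm
      · rw [Set.mem_singleton_iff.1 he]
        rcases hf with rfl | hf
        · exact hab'
        · rw [Set.mem_singleton_iff.1 hf]
    exact (Subgroup.mem_centralizer_iff.1 h2 d hd).symm
  set C : Subgroup (M ⧸ N.subgroupOf M) := Subgroup.closure
    {QuotientGroup.mk' (N.subgroupOf M) ⟨a, haM⟩,
      QuotientGroup.mk' (N.subgroupOf M) ⟨b, hbM⟩} with hC
  refine ⟨(C.comap (QuotientGroup.mk' (N.subgroupOf M))).map M.subtype, ?_, ?_, ?_, ?_, ?_, ?_⟩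
  · intro n hn'
    refine ⟨⟨n, hNM hn'⟩, ?_, rfl⟩
    have h2 : QuotientGroup.mk' (N.subgroupOf M) ⟨n, hNM hn'⟩ = 1 := by
      rw [QuotientGroup.mk'_apply, QuotientGroup.eq_one_iff]
      exact Subgroup.mem_subgroupOf.mpr hn'
    change QuotientGroup.mk' (N.subgroupOf M) ⟨n, hNM hn'⟩ ∈ C
    rw [h2]
    exact C.one_mem
  · exact ⟨⟨a, haM⟩, Subgroup.subset_closure (Set.mem_insert _ _), rfl⟩
  · exact ⟨⟨b, hbM⟩, Subgroup.subset_closure (Set.mem_insert_of_mem _ (Set.mem_singleton _)), rfl⟩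
  · rintro _ ⟨s, -, rfl⟩ n hn'
    exact nor_conj s.2.1 hn'
  · rintro _ ⟨s, hs, rfl⟩ _ ⟨t, ht, rfl⟩
    have h2 : QuotientGroup.mk' (N.subgroupOf M) (s * t * s⁻¹ * t⁻¹) = 1 := by
      rw [map_mul, map_mul, map_mul, map_inv, map_inv, h1 _ hs _ ht]
      group
    rw [QuotientGroup.mk'_apply, QuotientGroup.eq_one_iff] at h2
    exact Subgroup.mem_subgroupOf.mp h2
  · rintro _ ⟨s, -, rfl⟩
    exact s.2.2

/-- The order of the quotient is prime to `ℓ`. -/
theorem val_gen [Finite G] {N : Subgroup G} {b : G} (h : ∀ n ∈ N, b * n * b⁻¹ ∈ N) {ℓ : ℕ}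
    [Fact ℓ.Prime] {n : ℕ} (hn : ¬ ℓ ∣ n) (hb : b ^ n ∈ N) :
    padicValNat ℓ (Nat.card ↥(N ⊔ Subgroup.zpowers b)) = padicValNat ℓ (Nat.card N) := by
  have hle : N ≤ N ⊔ Subgroup.zpowers b := le_sup_left
  have hbm : b ∈ N ⊔ Subgroup.zpowers b :=
    (le_sup_right : Subgroup.zpowers b ≤ _) (Subgroup.mem_zpowers b)
  have hg := fun g => mem_gen (g := g) h
  have hno := nor_gen h
  generalize N ⊔ Subgroup.zpowers b = S at hle hbm hg hno ⊢
  have hN : (N.subgroupOf S).Normal := BTX.nrm le_rfl fun s hs n hn => nor_conj (hno hs) hn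
  set π := QuotientGroup.mk' (N.subgroupOf S) with hπ
  have h1 : ∀ q : S ⧸ N.subgroupOf S, q ∈ Subgroup.zpowers (π ⟨b, hbm⟩) := by
    intro q
    obtain ⟨s, rfl⟩ := QuotientGroup.mk'_surjective _ q
    obtain ⟨i, m, hm, hs⟩ := hg s s.2
    have h2 : s = (⟨b, hbm⟩ : S) ^ i * ⟨m, hle hm⟩ := Subtype.ext hs
    have h3 : π ⟨m, hle hm⟩ = 1 := by
      rw [hπ, QuotientGroup.mk'_apply, QuotientGroup.eq_one_iff]
      exact Subgroup.mem_subgroupOf.mpr hm
    rw [h2, ← hπ, map_mul, h3, mul_one, map_zpow]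
    exact Subgroup.zpow_mem_zpowers _ i
  have h2 : Nat.card (S ⧸ N.subgroupOf S) ∣ n := by
    rw [← orderOf_eq_card_of_forall_mem_zpowers h1]
    apply orderOf_dvd_of_pow_eq_one
    rw [← map_pow, hπ, QuotientGroup.mk'_apply, QuotientGroup.eq_one_iff]
    exact Subgroup.mem_subgroupOf.mpr hb
  have h3 : Nat.card S = Nat.card (S ⧸ N.subgroupOf S) * Nat.card N := by
    rw [Subgroup.card_eq_card_quotient_mul_card_subgroup (N.subgroupOf S),
      Nat.card_congr (Subgroup.subgroupOfEquivOfLe hle).toEquiv]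
  have h4 : ¬ ℓ ∣ Nat.card (S ⧸ N.subgroupOf S) := fun h => hn (h.trans h2)
  rw [h3, padicValNat.mul Nat.card_pos.ne' Nat.card_pos.ne', padicValNat.eq_zero_of_not_dvd h4,
    zero_add]

/-- Two extensions of `θ` differ by a character of the quotient. -/
theorem ex_eta [Fintype G] {N S : Subgroup G} (hNS : N ≤ S) [hN : (N.subgroupOf S).Normal]
    {θ E E' : G → ℂ} (hθ : IrrOn N θ) (hE : IrrOn S E) (hE' : IrrOn S E')
    (hEn : ∀ n ∈ N, E n = θ n) (hEn' : ∀ n ∈ N, E' n = θ n) :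
    ∃ η : S ⧸ N.subgroupOf S → ℂ, IsIrr η ∧
      (∀ s : S, E' s = E s * η (QuotientGroup.mk' (N.subgroupOf S) s)) ∧
      ∀ s ∈ S, ∃ n ∈ N, E (s * n) ≠ 0 := by
  classical
  let _ : Fintype ↥S := Fintype.ofFinite _
  let _ : Fintype ↥(N.subgroupOf S) := Fintype.ofFinite _
  let _ : Fintype (↥S ⧸ N.subgroupOf S) := Fintype.ofFinite _
  have hθA := BTX.irrA hNS hθ
  have hcl := BTX.clG (N.subgroupOf S)
  have hG := GALL_thm COSET_thm SUMM_thm ↥(N.subgroupOf S) ↥S (↥S ⧸ N.subgroupOf S)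
    (N.subgroupOf S).subtype MulAut.conjNormal (QuotientGroup.mk' (N.subgroupOf S)) hcl
    (QuotientGroup.mk'_surjective _) (fun a => θ ((a : S) : G)) (fun y => E y) hθA hE.1.isChr
    (fun a => hEn _ (Subgroup.mem_subgroupOf.mp a.2))
  have hr : resj (N.subgroupOf S).subtype (fun y : S => E' y) =
      fun a : N.subgroupOf S => θ ((a : S) : G) := by
    funext a
    exact hEn' _ (Subgroup.mem_subgroupOf.mp a.2)
  obtain ⟨η, hη0, hη⟩ := hG.2.2 (fun y => E' y) hE'.1 (by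
    rw [hr, ip_self hθA]
    exact one_ne_zero)
  refine ⟨η, hη0, fun y => congrFun hη y, fun t ht => ?_⟩
  have hcos := COSET_thm ↥(N.subgroupOf S) ↥S (↥S ⧸ N.subgroupOf S)
    (N.subgroupOf S).subtype MulAut.conjNormal (QuotientGroup.mk' (N.subgroupOf S)) hcl
    (fun a => θ ((a : S) : G)) (fun y => E y) hθA hE.1.isChr
    (fun a => hEn _ (Subgroup.mem_subgroupOf.mp a.2)) ⟨t, ht⟩
  by_contra hcon
  push Not at hcon
  rw [Finset.sum_eq_zero] at hcos
  · exact natCard_ne_zero hcos.symm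
  · intro a _
    have h1 : E (((⟨t, ht⟩ : S) * (N.subgroupOf S).subtype a : S) : G) = 0 :=
      hcon _ (Subgroup.mem_subgroupOf.mp a.2)
    rw [h1, zero_mul]

end Grp

section Main

theorem cen_mul {H : Type} [Group H] [Fintype H] (𝔐 : Ideal (integralClosure ℤ ℂ)) {f η : H → ℂ}
    (hf : IsIrr f) (h1 : η 1 = 1) (hc : ∀ g x, η (g * x * g⁻¹) = η x)
    (hi : ∀ x, IsIntegral ℤ (η x)) (g : H) :
    cen 𝔐 (MonoidHom.id H) (fun y => f y * η y) g =
      red 𝔐 (η g) * cen 𝔐 (MonoidHom.id H) f g := by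
  have h2 : wt (fun y => f y * η y) (fun y => conjInd ((MonoidHom.id H) y) g) =
      η g * wt f (fun y => conjInd ((MonoidHom.id H) y) g) := by
    rw [wt, wt, h1, mul_one, ← mul_div_assoc, Finset.mul_sum]
    congr 1
    refine Finset.sum_congr rfl fun y _ => ?_
    rw [MonoidHom.id_apply, conjInd]
    split_ifs with h
    · obtain ⟨c, hc'⟩ := isConj_iff.mp h
      rw [← hc', hc]
      ring
    · ring
  rw [cen, cen, h2, red_mul 𝔐 (hi g) (isIntegral_wt_conj _ hf g)]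

variable {Y G : Type} [Group Y] [Group G]

theorem clGY (k : Y →* G) (N N' : Subgroup G) [hN : (N.subgroupOf N').Normal]
    [hY : ((N.comap k).subgroupOf (N'.comap k)).Normal] :
    ClG ((N.comap k).subgroupOf (N'.comap k)).subtype
      (MulAut.conjNormal : ↥(N'.comap k) →* MulAut ↥((N.comap k).subgroupOf (N'.comap k)))
      ((QuotientGroup.mk' (N.subgroupOf N')).comp (MLE.kT k N')) where
  inj := Subgroup.subtype_injective _
  act := fun y a => MulAut.conjNormal_apply y a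
  ker := by
    intro y
    rw [MonoidHom.comp_apply, QuotientGroup.mk'_apply, QuotientGroup.eq_one_iff,
      Subgroup.range_subtype]
    exact Iff.rfl

theorem comap_gen {k : Y →* G} {N : Subgroup G} (hN : N ≤ k.range) (y : Y) :
    (N ⊔ Subgroup.zpowers (k y)).comap k = N.comap k ⊔ Subgroup.zpowers y := by
  have h1 : N ⊔ Subgroup.zpowers (k y) = (N.comap k ⊔ Subgroup.zpowers y).map k := by
    rw [Subgroup.map_sup, Subgroup.map_comap_eq_self hN, MonoidHom.map_zpowers]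
  rw [h1]
  apply Subgroup.comap_map_eq_self
  refine le_trans (fun z hz => ?_) le_sup_left
  rw [Subgroup.mem_comap, MonoidHom.mem_ker.1 hz]
  exact N.one_mem

end Main

end BTF

open _root_.Pool.Agent.DPT.BTF in
/-- BTF: the commutator forms of corresponding characters of `N` and its inverse image. -/
theorem BTF_thm (h1 : Stmt_MLE) (_h2 : Stmt_MLX) (h3 : Stmt_MLT) (h4 : Stmt_MLR)
    (h5 : Stmt_BTX) : Stmt_BTF := by
  classical
  intro Y G _ _ _ _ 𝔐 ℓ _ hM hℓ k hk lam N hN θ χ hθ hχ x y hx hy hxs hys hxy n hn hyn ζ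
  obtain ⟨S, hNS, hxS, hyS, hSn, hSc, hSs⟩ := exS hθ.1 hx hy hxs hys hxy
  obtain ⟨β, b1, -, -⟩ := h5 G N S hNS hSn hSc θ hθ.1 hSs
  have hSχ : S.comap k ≤ sx χ := by
    intro z hz w
    have h6 := h3 Y G 𝔐 ℓ k hk lam N θ χ hχ z (iff_conj (hSn (k z) hz))
    have h7 : (fun g => θ (k z * g * (k z)⁻¹)) = θ := funext (hSs hz)
    rw [h7] at h6
    exact congrFun (((h1 Y G 𝔐 ℓ hM hℓ k hk lam N hN).1 θ hθ).2.1 _ _ h6 hχ) w
  obtain ⟨β', b1', -, -⟩ := h5 Y (N.comap k) (S.comap k) (Subgroup.comap_mono hNS)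
    (fun s hs m hm => by
      rw [Subgroup.mem_comap] at hs hm ⊢
      rw [map_mul, map_mul, map_inv]
      exact hSn _ hs _ hm)
    (fun s hs t ht => by
      rw [Subgroup.mem_comap] at hs ht ⊢
      rw [map_mul, map_mul, map_mul, map_inv, map_inv]
      exact hSc _ hs _ ht) χ hχ.1 hSχ
  -- one direction is enough
  suffices key : ∀ ζ, BT N θ (k x) (k y) ζ → BT (N.comap k) χ x y ζ by
    have h6 := key _ ((b1 _ hxS _ hyS _).2 rfl)
    rw [b1' x hxS y hyS] at h6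
    rw [b1' x hxS y hyS, b1 _ hxS _ hyS, h6]
  clear ζ
  rintro ζ ⟨E, hE, hEn, hEs⟩
  have hcom := comap_gen hN y
  have hN'r : N ⊔ Subgroup.zpowers (k y) ≤ k.range :=
    sup_le hN (Subgroup.zpowers_le.2 ⟨y, rfl⟩)
  have hNN' : N ≤ N ⊔ Subgroup.zpowers (k y) := le_sup_left
  have hyN' : k y ∈ N ⊔ Subgroup.zpowers (k y) :=
    (le_sup_right : Subgroup.zpowers (k y) ≤ _) (Subgroup.mem_zpowers _)
  have hN'S : N ⊔ Subgroup.zpowers (k y) ≤ S := sup_le hNS (Subgroup.zpowers_le.2 hyS)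
  have hval := val_gen hy hn hyn
  unfold BT
  rw [← hcom]
  generalize N ⊔ Subgroup.zpowers (k y) = N' at hE hN'r hNN' hyN' hN'S hval ⊢
  have hE0 : ID ℓ N' 0 E := by
    obtain ⟨m, hm, hm'⟩ := hθ.2
    refine ⟨hE, m, ?_, ?_⟩
    · exact (hEn 1 N.one_mem).trans hm
    · rw [hval]
      exact hm'
  obtain ⟨χ', hχ'⟩ := ((h1 Y G 𝔐 ℓ hM hℓ k hk lam N' hN'r).1 E hE0).1
  have hr := h4 Y G 𝔐 ℓ hM hℓ k hk lam N N' hNN' hN'r θ E hθ hE0 hEn χ χ' hχ hχ'
  have hxN' : ∀ c ∈ N', k x * c * (k x)⁻¹ ∈ N' := by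
    intro c hc
    have h6 : k x * c * (k x)⁻¹ = (k x * c * (k x)⁻¹ * c⁻¹) * c := by group
    rw [h6]
    exact N'.mul_mem (hNN' (hSc _ hxS _ (hN'S hc))) hc
  have hT := h3 Y G 𝔐 ℓ k hk lam N' E χ' hχ' x (iff_conj hxN')
  have hE' : IrrOn N' (fun g => E (k x * g * (k x)⁻¹)) :=
    ⟨hE.1.comp_mulEquiv (MLT.cj N' (k x) (iff_conj hxN')),
      fun g hg => hE.2 _ fun h => hg ((iff_conj hxN' g).2 h)⟩
  have hE'0 : ID ℓ N' 0 (fun g => E (k x * g * (k x)⁻¹)) := by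
    obtain ⟨m, hm, hm'⟩ := hE0.2
    refine ⟨hE', m, ?_, hm'⟩
    have h6 : k x * ((1 : N') : G) * (k x)⁻¹ = ((1 : N') : G) := by
      rw [Subgroup.coe_one]
      group
    change E (k x * ((1 : N') : G) * (k x)⁻¹) = m
    rw [h6]
    exact hm
  have hEn' : ∀ n ∈ N, (fun g => E (k x * g * (k x)⁻¹)) n = θ n := by
    intro n hn
    exact (hEn _ (hx n hn)).trans (hxs n)
  have hNn : (N.subgroupOf N').Normal := BTX.nrm hN'S hSn
  have hYn : ((N.comap k).subgroupOf (N'.comap k)).Normal := by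
    refine BTX.nrm (S := S.comap k) (Subgroup.comap_mono hN'S) (fun s hs m hm => ?_)
    rw [Subgroup.mem_comap] at hs hm ⊢
    rw [map_mul, map_mul, map_inv]
    exact hSn _ hs _ hm
  obtain ⟨η, hη, hηE, hne⟩ := ex_eta hNN' hθ.1 hE hE' hEn hEn'
  have hmk : ∀ (g n : G) (hg : g ∈ N') (hn : n ∈ N),
      QuotientGroup.mk' (N.subgroupOf N') ⟨g * n, N'.mul_mem hg (hNN' hn)⟩ =
        QuotientGroup.mk' (N.subgroupOf N') ⟨g, hg⟩ := by
    intro g n hg hn
    have h6 : (⟨g * n, N'.mul_mem hg (hNN' hn)⟩ : N') = ⟨g, hg⟩ * ⟨n, hNN' hn⟩ := rfl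
    have h7 : QuotientGroup.mk' (N.subgroupOf N') (⟨n, hNN' hn⟩ : N') = 1 := by
      rw [QuotientGroup.mk'_apply, QuotientGroup.eq_one_iff]
      exact Subgroup.mem_subgroupOf.mpr hn
    rw [h6, map_mul, h7, mul_one]
  have hηz : ∀ (i : ℤ) (h : k y ^ i ∈ N'),
      η (QuotientGroup.mk' (N.subgroupOf N') ⟨k y ^ i, h⟩) = ζ ^ i := by
    intro i h
    obtain ⟨m, hm, hne'⟩ := hne _ h
    have h6 := hηE ⟨k y ^ i * m, N'.mul_mem h (hNN' hm)⟩
    rw [hmk _ _ h hm] at h6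
    have h7 := hEs i m hm
    have h8 : ζ ^ i * E (k y ^ i * m) = E (k y ^ i * m) *
      η (QuotientGroup.mk' (N.subgroupOf N') ⟨k y ^ i, h⟩) := h7.symm.trans h6
    rw [mul_comm (ζ ^ i)] at h8
    exact (mul_left_cancel₀ hne' h8).symm
  have hη1 : η 1 = 1 := by
    have h6 : QuotientGroup.mk' (N.subgroupOf N') ⟨k y ^ (0 : ℤ), N'.zpow_mem hyN' 0⟩ = 1 := by
      have h7 : (⟨k y ^ (0 : ℤ), N'.zpow_mem hyN' 0⟩ : N') = 1 := Subtype.ext (zpow_zero _)
      rw [h7, map_one]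
    have h7 := hηz 0 (N'.zpow_mem hyN' 0)
    rwa [h6, zpow_zero] at h7
  -- the product with the linear character
  let q' : ↥(N'.comap k) →* ↥N' ⧸ N.subgroupOf N' :=
    (QuotientGroup.mk' (N.subgroupOf N')).comp (MLE.kT k N')
  have hq's : Function.Surjective q' :=
    (QuotientGroup.mk'_surjective _).comp (MLE.kT_surj hN'r)
  have hNY : N.comap k ≤ N'.comap k := Subgroup.comap_mono hNN'
  have hirr : IsIrr (fun z : ↥(N'.comap k) => χ' z * η (q' z)) := by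
    let _ : Fintype ↥(N'.comap k) := Fintype.ofFinite _
    let _ : Fintype ↥((N.comap k).subgroupOf (N'.comap k)) := Fintype.ofFinite _
    let _ : Fintype (↥N' ⧸ N.subgroupOf N') := Fintype.ofFinite _
    exact ((GALL_thm COSET_thm SUMM_thm ↥((N.comap k).subgroupOf (N'.comap k)) ↥(N'.comap k)
      (↥N' ⧸ N.subgroupOf N') ((N.comap k).subgroupOf (N'.comap k)).subtype MulAut.conjNormal q'
      (clGY k N N') hq's (fun a => χ ((a : ↥(N'.comap k)) : Y)) (fun z => χ' z)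
      (BTX.irrA hNY hχ.1) hχ'.1.1.isChr
      (fun a => hr _ (Subgroup.mem_subgroupOf.mp a.2))).1 η hη).1
  have hML : ML 𝔐 k lam N' (fun g => E (k x * g * (k x)⁻¹))
      (ext0 (fun z : ↥(N'.comap k) => χ' z * η (q' z))) := by
    refine ⟨MLE.irrOn_ext0 hirr, MLE.ovK_ext0 ?_, ?_⟩
    · intro z w
      have h6 : q' ((z : ↥(N'.comap k)) * w) = q' w := by
        rw [map_mul]
        have h7 : q' (z : ↥(N'.comap k)) = 1 := by
          change QuotientGroup.mk' (N.subgroupOf N') (MLE.kT k N' (z : ↥(N'.comap k))) = 1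
          rw [MonoidHom.mem_ker.1 z.2, map_one]
        rw [h7, one_mul]
      rw [h6, MLE.ovT hχ'.2.1 N' z w, mul_assoc]
    · rw [MLE.ext0_coe]
      have h6 : (fun z : ↥(N'.comap k) => (fun g => E (k x * g * (k x)⁻¹)) (k z)) =
          fun z : ↥(N'.comap k) => E (k z) * η (q' z) := by
        funext z
        exact hηE (MLE.kT k N' z)
      rw [h6]
      have h7 : ∀ g z : ↥(N'.comap k), η (q' (g * z * g⁻¹)) = η (q' z) := by
        intro g z
        rw [map_mul, map_mul, map_inv, hη.conj_eq]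
      have h8 : η (q' 1) = 1 := by rw [map_one, hη1]
      let _ : Fintype (↥N' ⧸ N.subgroupOf N') := Fintype.ofFinite _
      funext g
      rw [cen_mul 𝔐 hχ'.1.1 h8 h7 (fun z => isIntegral_char hη _) g,
        cen_mul 𝔐 (f := fun z : ↥(N'.comap k) => E (k z))
          (QINF.irr_inf (MLE.kT k N') (MLE.kT_surj hN'r) hE.1) h8 h7
          (fun z => isIntegral_char hη _) g, hχ'.2.2]
  have huniq := ((h1 Y G 𝔐 ℓ hM hℓ k hk lam N' hN'r).1 _ hE'0).2.1 _ _ hT hML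
  refine ⟨χ', hχ'.1, hr, fun i m hm => ?_⟩
  have hyi : y ^ i * m ∈ N'.comap k := by
    refine (N'.comap k).mul_mem (zpow_mem ?_ i) (hNY hm)
    exact hyN'
  have h6 := congrFun huniq (y ^ i * m)
  rw [ext0_of_mem _ hyi] at h6
  have hyk : k y ^ i ∈ N' := zpow_mem hyN' i
  have h7 : q' ⟨y ^ i * m, hyi⟩ = QuotientGroup.mk' (N.subgroupOf N') ⟨k y ^ i, hyk⟩ := by
    rw [← hmk _ _ hyk hm]
    change QuotientGroup.mk' (N.subgroupOf N') (MLE.kT k N' ⟨y ^ i * m, hyi⟩) = _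
    congr 1
    apply Subtype.ext
    change k (y ^ i * m) = k y ^ i * k m
    rw [map_mul, map_zpow]
  rw [h7, hηz i hyk, mul_comm (χ' _)] at h6
  exact h6

end Pool.Agent.DPT


end

section

set_option linter.unusedSectionVars false

/-!
# Module DPT_SPLM: outer and inner chains below a normal subgroup
-/

namespace Pool.Agent.DPT

open Pool.Agent.DP Pool.Agent.DPC Pool.Agent.DPM Pool.Agent.DPN Pool.Agent.Lib_helper13
open Representation

namespace SPLM

open Pool.Agent.DP.SPLIT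

section Main

variable {X : Type*} [Group X] [Fintype X]

theorem tp_bot_le {M : Subgroup X} {c : Finset (Subgroup X)} (h : ∀ D ∈ c, D ≤ M) :
    tp (⊥ : Subgroup X) c ≤ M := by
  apply sup_le _ bot_le
  rw [Finset.sup_le_iff]
  exact h

open Classical in
/-- the chains of subgroups of `M` with outer part `c` -/
noncomputable def SM (ℓ : ℕ) (N M : Subgroup X) (c : Finset (Subgroup X)) :
    Finset (Finset (Subgroup X)) :=
  (SC ℓ (⊥ : Subgroup X) N c).filter (fun σ => ∀ D ∈ σ, D ≤ M)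

theorem mem_SM {ℓ : ℕ} {N M : Subgroup X} {c σ : Finset (Subgroup X)} :
    σ ∈ SM ℓ N M c ↔ (IsCh ℓ ⊥ σ ∧ outer N σ = c) ∧ ∀ D ∈ σ, D ≤ M := by
  classical
  rw [SM, Finset.mem_filter, mem_SC]

theorem closed_eq {ℓ : ℕ} {N M : Subgroup X} (hNM : N ≤ M) {c : Finset (Subgroup X)}
    (hM : ∀ D ∈ c, D ≤ M) (σ : Finset (Subgroup X)) :
    (σ ∈ SM ℓ N M c ∧ ∀ R ∈ σ, R ⊓ N ≠ ⊥ → fo N (tp ⊥ c) R = R) ↔ σ ∈ SCC ℓ ⊥ N c := by
  rw [mem_SM, mem_SCC]
  constructor
  · rintro ⟨⟨h1, _⟩, h3⟩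
    exact ⟨h1, h3⟩
  · rintro ⟨h1, h3⟩
    refine ⟨⟨h1, ?_⟩, h3⟩
    intro D hD
    by_cases hDN : D ⊓ N = ⊥
    · apply hM
      rw [← h1.2]
      exact mem_outer.mpr ⟨hD, hDN⟩
    · rw [← h3 D hD hDN]
      refine sup_le (tp_bot_le hM) ?_
      exact inf_le_right.trans (inf_le_left.trans hNM)

theorem toggle_sumM {ℓ : ℕ} [Fact ℓ.Prime] {N M : Subgroup X} [N.Normal]
    (hNM : N ≤ M) (W : Subgroup X → ℚ) {c : Finset (Subgroup X)}
    (hc : IsCh ℓ ⊥ c) (hN : ∀ D ∈ c, D ⊓ N = ⊥) (hM : ∀ D ∈ c, D ≤ M) :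
    ∑ σ ∈ SM ℓ N M c, (-1 : ℚ) ^ σ.card * W (stb σ) =
      ∑ σ ∈ SCC ℓ ⊥ N c, (-1 : ℚ) ^ σ.card * W (stb σ) := by
  classical
  have hZN : (⊥ : Subgroup X) ⊓ N = ⊥ := bot_inf_eq _
  have hQN : tp ⊥ c ⊓ N = ⊥ := tp_inf hZN hc hN
  have hQM : tp (⊥ : Subgroup X) c ≤ M := tp_bot_le hM
  have hSCC : SCC ℓ ⊥ N c =
      (SM ℓ N M c).filter (fun σ => ∀ R ∈ σ, R ⊓ N ≠ ⊥ → fo N (tp ⊥ c) R = R) := by
    ext σ
    rw [Finset.mem_filter]
    exact (closed_eq hNM hM σ).symm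
  rw [hSCC, ← Finset.sum_filter_add_sum_filter_not (SM ℓ N M c)
    (fun σ => ∀ R ∈ σ, R ⊓ N ≠ ⊥ → fo N (tp ⊥ c) R = R)]
  rw [add_eq_left]
  obtain ⟨C, hC⟩ : ∃ C : Finset (Finset (Subgroup X)),
      C = (SM ℓ N M c).filter
        (fun σ => ¬ ∀ R ∈ σ, R ⊓ N ≠ ⊥ → fo N (tp ⊥ c) R = R) := ⟨_, rfl⟩
  obtain ⟨T, hT⟩ : ∃ T : Finset (Subgroup X) → Subgroup X,
      ∀ σ, T σ = (σ.filter (fun R => R ⊓ N ≠ ⊥ ∧ fo N (tp ⊥ c) R ≠ R)).inf id :=
    ⟨_, fun _ => rfl⟩
  rw [← hC]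
  have hmem : ∀ σ ∈ C, T σ ∈ σ ∧ T σ ⊓ N ≠ ⊥ ∧ fo N (tp ⊥ c) (T σ) ≠ T σ := by
    intro σ hσ
    rw [hC, Finset.mem_filter, mem_SM] at hσ
    obtain ⟨⟨⟨h1, _⟩, _⟩, h2⟩ := hσ
    push Not at h2
    obtain ⟨D, hD, hD', hD''⟩ := h2
    have h3 : T σ ∈ σ.filter (fun R => R ⊓ N ≠ ⊥ ∧ fo N (tp ⊥ c) R ≠ R) := by
      rw [hT]
      apply Pool.Agent.DP.SPLIT.inf_mem_of_chain
      · intro A hA B hB
        exact h1.total (Finset.mem_filter.mp hA).1 (Finset.mem_filter.mp hB).1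
      · exact ⟨D, Finset.mem_filter.mpr ⟨hD, hD', hD''⟩⟩
    rw [Finset.mem_filter] at h3
    exact h3
  have hle : ∀ σ ∈ C, tp ⊥ c ≤ T σ := by
    intro σ hσ
    obtain ⟨h1, h2, _⟩ := hmem σ hσ
    rw [hC, Finset.mem_filter, mem_SM] at hσ
    refine tp_le (N := N) hσ.1.1.1 (fun D hD => ?_) h1 h2
    rw [← hσ.1.1.2] at hD
    exact mem_outer.mp hD
  have hEN : ∀ σ ∈ C, fo N (tp ⊥ c) (T σ) ⊓ N ≠ ⊥ := by
    intro σ hσ h
    obtain ⟨h1, h2, _⟩ := hmem σ hσ
    have hle' := hle σ hσ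
    rw [hC, Finset.mem_filter, mem_SM] at hσ
    have h3 : T σ ⊓ cN N (tp ⊥ c) ≠ ⊥ := inf_C_ne_bot (hσ.1.1.1.1 _ h1).1 hle' h2
    apply h3
    rw [fo, sup_inf_N inf_le_right hQN] at h
    exact h
  have hEM : ∀ σ, fo N (tp ⊥ c) (T σ) ≤ M := by
    intro σ
    refine sup_le hQM ?_
    exact inf_le_right.trans (inf_le_left.trans hNM)
  have hins : ∀ σ, T (insert (fo N (tp ⊥ c) (T σ)) σ) = T σ := by
    intro σ
    rw [hT (insert (fo N (tp ⊥ c) (T σ)) σ), Finset.filter_insert, if_neg, ← hT]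
    rintro ⟨_, h⟩
    exact h (fo_fo hQN)
  have hers : ∀ σ, T (σ.erase (fo N (tp ⊥ c) (T σ))) = T σ := by
    intro σ
    rw [hT (σ.erase (fo N (tp ⊥ c) (T σ))), Finset.filter_erase, Finset.erase_eq_of_notMem, ← hT]
    intro h
    exact (Finset.mem_filter.mp h).2.2 (fo_fo hQN)
  apply sum_toggle C (fun σ => fo N (tp ⊥ c) (T σ)) (fun σ => W (stb σ))
  · intro σ hσ hn
    obtain ⟨h1, h2, h3⟩ := hmem σ hσ
    have hle' := hle σ hσ
    have hEN' := hEN σ hσ
    rw [hC, Finset.mem_filter, mem_SM] at hσ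
    obtain ⟨⟨⟨hch, hou⟩, hsM⟩, hnc⟩ := hσ
    have hout : ∀ D, D ∈ c ↔ D ∈ σ ∧ D ⊓ N = ⊥ := by
      intro D
      rw [← hou]
      exact mem_outer
    refine ⟨?_, by rw [hins], ?_⟩
    · rw [hC, Finset.mem_filter, mem_SM]
      refine ⟨⟨⟨hch.insert ?_ ?_ ?_, ?_⟩, ?_⟩, ?_⟩
      · exact (hch.1 _ h1).1.to_le (fo_le hle')
      · refine lt_of_le_of_ne bot_le ?_
        intro h4
        apply hEN'
        rw [← h4]
        exact hZN
      · intro D hD
        by_cases hDN : D ⊓ N = ⊥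
        · left
          exact (le_tp ((hout D).mpr ⟨hD, hDN⟩)).trans le_sup_left
        · rcases hch.total hD h1 with h4 | h4
          · by_cases h5 : fo N (tp ⊥ c) D = D
            · left
              rw [← h5]
              exact fo_mono h4
            · right
              refine (fo_le hle').trans ?_
              rw [hT]
              exact Finset.inf_le (f := id) (Finset.mem_filter.mpr ⟨hD, hDN, h5⟩)
          · right
            exact (fo_le hle').trans h4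
      · have h5 := hou
        rw [outer] at h5 ⊢
        rw [Finset.filter_insert, if_neg hEN']
        exact h5
      · intro D hD
        rcases Finset.mem_insert.mp hD with rfl | hD
        · exact hEM σ
        · exact hsM D hD
      · push Not
        exact ⟨T σ, Finset.mem_insert_of_mem h1, h2, h3⟩
    · change W (stb (insert (fo N (tp ⊥ c) (T σ)) σ)) = W (stb σ)
      congr 1
      ext g
      rw [mem_stb, mem_stb]
      constructor
      · intro h E hE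
        exact h E (Finset.mem_insert_of_mem hE)
      · intro h E hE
        rcases Finset.mem_insert.mp hE with rfl | hE
        · apply map_conj_fo _ (h _ h1)
          apply map_conj_tp hc
          rw [mem_stb]
          intro D hD
          exact h D ((hout D).mp hD).1
        · exact h E hE
  · intro σ hσ hn
    obtain ⟨h1, h2, h3⟩ := hmem σ hσ
    have hEN' := hEN σ hσ
    rw [hC, Finset.mem_filter, mem_SM] at hσ
    obtain ⟨⟨⟨hch, hou⟩, hsM⟩, hnc⟩ := hσ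
    refine ⟨?_, by rw [hers]⟩
    rw [hC, Finset.mem_filter, mem_SM]
    refine ⟨⟨⟨hch.subset (Finset.erase_subset _ _), ?_⟩, ?_⟩, ?_⟩
    · have h5 := hou
      rw [outer] at h5 ⊢
      rw [Finset.filter_erase, Finset.erase_eq_of_notMem]
      · exact h5
      · intro h
        exact hEN' (Finset.mem_filter.mp h).2
    · intro D hD
      exact hsM D (Finset.mem_of_mem_erase hD)
    · push Not
      exact ⟨T σ, Finset.mem_erase.mpr ⟨fun h => h3 h.symm, h1⟩, h2, h3⟩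

end Main

end SPLM

open Pool.Agent.DP.SPLIT _root_.Pool.Agent.DPT.SPLM in
/-- MODULE DPT_SPLM -/
theorem SPLM_thm : Stmt_SPLM := by
  classical
  intro G _ _ ℓ _ N M hNn _ hNM W
  have := hNn
  have hmaps : ∀ σ ∈ (Ch ℓ (⊥ : Subgroup G)).filter (fun σ => ∀ D ∈ σ, D ≤ M),
      outer N σ ∈ (OutC ℓ (⊥ : Subgroup G) N).filter (fun c => ∀ D ∈ c, D ≤ M) := by
    intro σ hσ
    rw [Finset.mem_filter, mem_Ch] at hσ
    rw [Finset.mem_filter, OutC, Finset.mem_filter, mem_Ch]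
    refine ⟨⟨hσ.1.subset (Finset.filter_subset _ _), fun D hD => ?_⟩, fun D hD => ?_⟩
    · exact (mem_outer.mp hD).2
    · exact hσ.2 D (mem_outer.mp hD).1
  rw [← Finset.sum_fiberwise_of_maps_to hmaps]
  refine Finset.sum_congr rfl fun c hc => ?_
  rw [Finset.mem_filter, OutC, Finset.mem_filter, mem_Ch] at hc
  obtain ⟨⟨hc1, hc2⟩, hc3⟩ := hc
  have h1 : ((Ch ℓ (⊥ : Subgroup G)).filter (fun σ => ∀ D ∈ σ, D ≤ M)).filter
      (fun σ => outer N σ = c) = SM ℓ N M c := by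
    ext σ
    rw [mem_SM, Finset.mem_filter, Finset.mem_filter, mem_Ch]
    tauto
  rw [h1, toggle_sumM hNM W hc1 hc2 hc3,
    closed_sum (IsPGroup.of_bot (p := ℓ)) (bot_inf_eq N) W hc1 hc2]

end Pool.Agent.DPT


end

section

/-!
# STN: stable blocks are determined by the invariant functions
-/

set_option autoImplicit false
set_option linter.unusedSectionVars false
set_option linter.unusedVariables false

namespace Pool.Agent.DPT

open Pool.Agent.DP Pool.Agent.DPC Pool.Agent.DPM Pool.Agent.DPN Pool.Agent.Lib_helper13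
open Representation
open Pool.Agent.Lib_helper13.Dade (pCore DadeHolds dadeSum)

namespace STN

open Pool.Agent.DPC.LTIC (Icf pull)
open Pool.Agent.DPC.DGE (lam lam_apply)

variable {X : Type} [Group X] [Fintype X]

theorem cgT_in (𝔐 : Ideal (integralClosure ℤ ℂ)) (N : Subgroup X) [Fintype N] {f : X → ℂ}
    (hf : ∀ x, x ∉ N → f x = 0) (n : N) :
    cgT 𝔐 N f (n : X) = cen 𝔐 (MonoidHom.id N) (fun s : N => f s) n := by
  classical
  have h1 : ∑ x : N, conjInd x n * f x = ∑ x, cjT N x (n : X) * f x := by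
    refine Fintype.sum_of_injective (fun x : N => (x : X)) Subtype.coe_injective _ _ ?_ ?_
    · intro b hb
      rw [hf b, mul_zero]
      intro hb'
      exact hb ⟨⟨b, hb'⟩, rfl⟩
    · intro x
      have h2 : IsConj x n ↔ ∃ t ∈ N, (x : X) = t * (n : X) * t⁻¹ := by
        rw [isConj_comm, isConj_iff]
        constructor
        · rintro ⟨t, ht⟩
          exact ⟨t, t.2, by rw [← ht]; rfl⟩
        · rintro ⟨t, ht, hx⟩
          exact ⟨⟨t, ht⟩, (Subtype.ext hx).symm⟩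
      have h3 : conjInd x n = cjT N (x : X) (n : X) := by
        rw [conjInd, cjT]
        by_cases hc : ∃ t ∈ N, (x : X) = t * (n : X) * t⁻¹
        · rw [if_pos hc, if_pos (h2.mpr hc)]
        · rw [if_neg hc, if_neg (fun h4 => hc (h2.mp h4))]
      rw [h3]
  rw [cgT, cen, wt, ← h1]
  rfl

theorem cgT_out (𝔐 : Ideal (integralClosure ℤ ℂ)) (N : Subgroup X) {f : X → ℂ}
    (hf : ∀ x, x ∉ N → f x = 0) {x : X} (hx : x ∉ N) : cgT 𝔐 N f x = 0 := by
  classical
  rw [cgT, Finset.sum_eq_zero, zero_div, red_zero]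
  intro y _
  rw [cjT]
  by_cases hc : ∃ t ∈ N, y = t * x * t⁻¹
  · obtain ⟨t, ht, rfl⟩ := hc
    rw [hf, mul_zero]
    intro h
    refine hx ?_
    have h1 := N.mul_mem (N.mul_mem (N.inv_mem ht) h) ht
    have h2 : t⁻¹ * (t * x * t⁻¹) * t = x := by group
    rwa [h2] at h1
  · rw [if_neg hc, zero_mul]

theorem cgT_ext (𝔐 : Ideal (integralClosure ℤ ℂ)) (N : Subgroup X) [Fintype N] {f f' : X → ℂ}
    (hf : ∀ x, x ∉ N → f x = 0) (hf' : ∀ x, x ∉ N → f' x = 0)
    (h : cen 𝔐 (MonoidHom.id N) (fun s : N => f s) =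
      cen 𝔐 (MonoidHom.id N) (fun s : N => f' s)) : cgT 𝔐 N f = cgT 𝔐 N f' := by
  funext x
  by_cases hx : x ∈ N
  · have h1 := cgT_in 𝔐 N hf ⟨x, hx⟩
    have h2 := cgT_in 𝔐 N hf' ⟨x, hx⟩
    have h3 := congrFun h ⟨x, hx⟩
    exact h1.trans (h3.trans h2.symm)
  · rw [cgT_out 𝔐 N hf hx, cgT_out 𝔐 N hf' hx]

/-- Conjugation by the elements of `D` on `N`. -/
def cj {N D : Subgroup X} (hD : ∀ r ∈ D, ∀ n ∈ N, r * n * r⁻¹ ∈ N) (r : D) : N ≃* N where
  toFun n := ⟨r * n * (r : X)⁻¹, hD r r.2 n n.2⟩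
  invFun n := ⟨(r : X)⁻¹ * n * r, by
    have h := hD (r : X)⁻¹ (D.inv_mem r.2) n n.2
    rwa [inv_inv] at h⟩
  left_inv n := Subtype.ext (by
    show (r : X)⁻¹ * (r * n * (r : X)⁻¹) * r = n
    group)
  right_inv n := Subtype.ext (by
    show (r : X) * ((r : X)⁻¹ * n * r) * (r : X)⁻¹ = n
    group)
  map_mul' a b := Subtype.ext (by
    show (r : X) * (a * b) * (r : X)⁻¹ = (r * a * (r : X)⁻¹) * (r * b * (r : X)⁻¹)
    group)

theorem cj_coe {N D : Subgroup X} (hD : ∀ r ∈ D, ∀ n ∈ N, r * n * r⁻¹ ∈ N) (r : D) (n : N) :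
    ((cj hD r n : N) : X) = r * n * (r : X)⁻¹ := rfl

theorem cj_mul {N D : Subgroup X} (hD : ∀ r ∈ D, ∀ n ∈ N, r * n * r⁻¹ ∈ N) (r s : D) (n : N) :
    cj hD r (cj hD s n) = cj hD (r * s) n := by
  apply Subtype.ext
  rw [cj_coe, cj_coe, cj_coe, Subgroup.coe_mul]
  group

theorem cj_one {N D : Subgroup X} (hD : ∀ r ∈ D, ∀ n ∈ N, r * n * r⁻¹ ∈ N) (n : N) :
    cj hD 1 n = n := by
  apply Subtype.ext
  rw [cj_coe, Subgroup.coe_one]
  group

/-- The block of a character is stable. -/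
theorem cen_cj (𝔐 : Ideal (integralClosure ℤ ℂ)) {N D : Subgroup X} [Fintype N]
    (hD : ∀ r ∈ D, ∀ n ∈ N, r * n * r⁻¹ ∈ N) {f : X → ℂ}
    (hf : ∀ x, x ∉ N → f x = 0) (h : D ≤ sx (cgT 𝔐 N f)) (r : D) :
    cen 𝔐 (MonoidHom.id N) (fun s : N => f ((cj hD r s : N) : X)) =
      cen 𝔐 (MonoidHom.id N) (fun s : N => f s) := by
  funext g
  have h1 : cen 𝔐 (MonoidHom.id N) (fun s : N => f ((cj hD r s : N) : X)) g =
      cen 𝔐 (MonoidHom.id N) (fun s : N => f s) (cj hD r g) := by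
    rw [cen, cen, ← wt_comp_equiv (cj hD r) (fun s : N => f s)]
    congr 2
    funext y
    apply conjInd_congr
    rw [isConj_iff, isConj_iff]
    constructor
    · rintro ⟨c, hc⟩
      refine ⟨cj hD r c, ?_⟩
      rw [← hc]
      simp only [MonoidHom.id_apply, map_mul, map_inv]
    · rintro ⟨c, hc⟩
      refine ⟨(cj hD r).symm c, ?_⟩
      apply (cj hD r).injective
      rw [← hc]
      simp only [MonoidHom.id_apply, map_mul, map_inv, MulEquiv.apply_symm_apply]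
  rw [h1, ← cgT_in 𝔐 N hf, ← cgT_in 𝔐 N hf, cj_coe]
  exact h r.2 _

end STN

open _root_.Pool.Agent.DPT.STN Pool.Agent.DPC.LTIC Pool.Agent.DPC.DGE in
theorem STN_thm : Stmt_STN := by
  classical
  intro X _ _ 𝔐 ℓ _ hM hl N D hD ξ ξ₁ hξ hξ₁ hs hs₁ h
  by_contra hne
  have hcen : cen 𝔐 (MonoidHom.id N) (fun s : N => ξ₁ s) ≠
      cen 𝔐 (MonoidHom.id N) (fun s : N => ξ s) := by
    intro h1
    exact hne (cgT_ext 𝔐 N hξ.2 hξ₁.2 h1.symm)
  letI : Field ((integralClosure ℤ ℂ) ⧸ 𝔐) := Ideal.Quotient.field 𝔐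
  obtain ⟨a, ha, -, ha1, ha0, -⟩ := DPW.IDMB_thm ((integralClosure ℤ ℂ) ⧸ 𝔐) N 𝔐 ℓ hM hl
    (Ideal.Quotient.mk 𝔐) Ideal.Quotient.mk_surjective Ideal.mk_ker (fun s : N => ξ s) hξ.1
  obtain ⟨b, hb⟩ : ∃ b : Icf N, b.fn = fun n => (a n : ℂ) :=
    ⟨⟨fun n => (a n : ℂ), fun g x => by rw [ha], fun x => (a x).2⟩, rfl⟩
  obtain ⟨P, hP⟩ : ∃ P : Icf N, P = ∏ r : D, pull (cj hD r) b := ⟨_, rfl⟩
  have hinv : ∀ s : D, pull (cj hD s) P = P := by
    intro s
    rw [hP, map_prod]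
    refine Fintype.prod_equiv (Equiv.mulRight s) _ _ fun r => ?_
    apply Icf.ext'
    intro x
    rw [pull_apply, pull_apply, pull_apply, cj_mul]
    rfl
  have hfac : ∀ (χ : X → ℂ) (hχ : IsIrr (fun s : N => χ s)) (r : D),
      lam 𝔐 hχ (pull (cj hD r) b) =
        red 𝔐 (wt (fun s : N => χ ((cj hD r⁻¹ s : N) : X)) (fun n => (a n : ℂ))) := by
    intro χ hχ r
    rw [lam_apply, ← wt_comp_equiv (cj hD r) (fun s : N => χ ((cj hD r⁻¹ s : N) : X))]
    congr 2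
    · funext y
      rw [cj_mul, inv_mul_cancel, cj_one]
    · funext y
      rw [pull_apply, hb]
  have hone : lam 𝔐 hξ.1 P = 1 := by
    rw [hP, map_prod]
    refine Finset.prod_eq_one fun r _ => ?_
    rw [hfac]
    exact ha1 _ (hξ.1.comp_mulEquiv (cj hD r⁻¹)) (cen_cj 𝔐 hD hξ.2 hs r⁻¹)
  have hzero : lam 𝔐 hξ₁.1 P = 0 := by
    rw [hP, map_prod]
    refine Finset.prod_eq_zero (Finset.mem_univ (1 : D)) ?_
    rw [hfac]
    refine ha0 _ (hξ₁.1.comp_mulEquiv (cj hD (1 : D)⁻¹)) ?_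
    rw [cen_cj 𝔐 hD hξ₁.2 hs₁]
    exact hcen
  obtain ⟨F, hF⟩ : ∃ F : X → ℂ, F = fun x => if hx : x ∈ N then P.fn ⟨x, hx⟩ else 0 := ⟨_, rfl⟩
  have hFN : ∀ n : N, F n = P.fn n := by
    intro n
    rw [hF]
    exact dif_pos n.2
  have hmain := h F ?_ ?_ ?_
  · have h1 : ∀ (χ : X → ℂ) (hχ : IsIrr (fun s : N => χ s)),
        red 𝔐 (wS N χ F) = lam 𝔐 hχ P := by
      intro χ hχ
      rw [lam_apply, wS]
      congr 2
      funext n
      exact hFN n
    rw [h1 ξ hξ.1, h1 ξ₁ hξ₁.1, hone, hzero] at hmain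
    exact one_ne_zero hmain
  · intro n hn x hx
    have h1 := hFN ⟨n * x * n⁻¹, N.mul_mem (N.mul_mem hn hx) (N.inv_mem hn)⟩
    have h2 := hFN ⟨x, hx⟩
    have h3 := P.cl ⟨n, hn⟩ ⟨x, hx⟩
    exact h1.trans (h3.trans h2.symm)
  · intro r hr x hx
    have h1 := hFN (cj hD ⟨r, hr⟩ ⟨x, hx⟩)
    have h2 := hFN ⟨x, hx⟩
    have h3 : P.fn (cj hD ⟨r, hr⟩ ⟨x, hx⟩) = P.fn ⟨x, hx⟩ := by
      rw [← pull_apply, hinv]
    exact h1.trans (h3.trans h2.symm)
  · intro x
    rw [hF]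
    by_cases hx : x ∈ N
    · simp only [hx, dif_pos]
      exact P.int _
    · simp only [hx, dif_neg, not_false_eq_true]
      exact isIntegral_zero

end Pool.Agent.DPT


end

section

/-!
# STC: the characters of the stabilizer of a chain, sorted by the blocks of the normal subgroup
-/

set_option autoImplicit false
set_option linter.unusedSectionVars false

namespace Pool.Agent.DPT

open Pool.Agent.DP Pool.Agent.DPC Pool.Agent.DPM Pool.Agent.DPN Pool.Agent.Lib_helper13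
open Representation

namespace STC

variable {X : Type} [Group X] [Fintype X]

/-! ### Subgroups of subgroups -/

theorem wt_sub {A T : Subgroup X} (hA : A ≤ T) (f F : X → ℂ) :
    wt (fun a : A.subgroupOf T => f ((a : T) : X)) (fun a => F ((a : T) : X)) = wS A f F :=
  wt_comp_equiv (Subgroup.subgroupOfEquivOfLe hA) (fun a : A => f a) (fun a : A => F a)

theorem ip_sub {A T : Subgroup X} (hA : A ≤ T) (f F : X → ℂ) :
    ip (fun a : A.subgroupOf T => f ((a : T) : X)) (fun a => F ((a : T) : X)) = iS A f F := by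
  rw [iS, ip, ip, Nat.card_congr (Subgroup.subgroupOfEquivOfLe hA).toEquiv]
  congr 1
  exact Fintype.sum_equiv (Subgroup.subgroupOfEquivOfLe hA).toEquiv _ _ (fun a => rfl)

theorem irr_sub {A T : Subgroup X} (hA : A ≤ T) {f : X → ℂ} (hf : IrrOn A f) :
    IsIrr (fun a : A.subgroupOf T => f ((a : T) : X)) :=
  hf.1.comp_mulEquiv (Subgroup.subgroupOfEquivOfLe hA)

theorem mem_irrOn' {S : Subgroup X} {f : X → ℂ} : f ∈ irrOn S ↔ IrrOn S f := by
  classical
  rw [irrOn, Finset.mem_image]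
  constructor
  · rintro ⟨ψ, hψ, rfl⟩
    exact STB.irrOn_ext0 (mem_irrF.mp hψ)
  · intro h
    exact ⟨fun s : S => f s, mem_irrF.mpr h.1, STB.ext0_res h.2⟩

/-! ### Clifford theory -/

/-- One term of the sum. -/
theorem term (ℓ d : ℕ) (S A : Subgroup X) (hA : A ≤ S) (T : Subgroup S) (T' : Subgroup X)
    (hT : ∀ s : S, s ∈ T ↔ (s : X) ∈ T') (hT' : T' ≤ S) (hAT : A ≤ T') (θ' : X → ℂ)
    (P : (X → ℂ) → Prop)
    (hP : ∀ T ≤ S, ∀ ψ χ : X → ℂ, IrrOn T ψ → (∀ x, x ∉ S → χ x = 0) →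
      (∀ F : X → ℂ, (∀ s ∈ S, ∀ x, F (s * x * s⁻¹) = F x) → wS S χ F = wS T ψ F) →
      (P χ ↔ P ψ)) :
    Nat.card {ψ : T → ℂ // IsIrr ψ ∧
        ip (fun a : A.subgroupOf S => ext0 ψ ((A.subgroupOf S).subtype a))
          (fun a => θ' ((a : S) : X)) ≠ 0 ∧ HasDefect ℓ ψ d ∧ P (ext0 (indc T ψ))} =
      Nat.card {ψ : X → ℂ // ID ℓ T' d ψ ∧ iS A ψ θ' ≠ 0 ∧ P ψ} := by
  classical
  obtain ⟨e, he⟩ : ∃ e : T ≃* T', ∀ t : T, ((e t : T') : X) = ((t : S) : X) :=
    ⟨{ toFun := fun t => ⟨(t : S), (hT t).mp t.2⟩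
       invFun := fun t => ⟨⟨t, hT' t.2⟩, (hT _).mpr t.2⟩
       left_inv := fun t => rfl
       right_inv := fun t => rfl
       map_mul' := fun a b => rfl }, fun t => rfl⟩
  rw [STB.card_ID ℓ d T' (fun ψ => iS A ψ θ' ≠ 0 ∧ P ψ)]
  apply card_irr_equiv e
  intro ψ hψ
  have h1 : ip (fun a : A.subgroupOf S => ext0 (fun t => ψ (e t)) ((A.subgroupOf S).subtype a))
      (fun a => θ' ((a : S) : X)) = iS A (ext0 ψ) θ' := by
    rw [← ip_sub hA]
    congr 1
    funext a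
    have ha : ((a : S) : X) ∈ A := Subgroup.mem_subgroupOf.mp a.2
    have h2 : (a : S) ∈ T := (hT _).mpr (hAT ha)
    have h3 : ext0 (fun t => ψ (e t)) ((A.subgroupOf S).subtype a) = ψ (e ⟨(a : S), h2⟩) :=
      ext0_of_mem _ h2
    rw [h3, ext0_of_mem ψ (hAT ha)]
    exact congrArg ψ (Subtype.ext (he _))
  have h4 : HasDefect ℓ (fun t => ψ (e t)) d ↔ HasDefect ℓ ψ d := hasDefect_comp_equiv e
  have h5 : P (ext0 (indc T (fun t => ψ (e t)))) ↔ P (ext0 ψ) := by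
    refine hP T' hT' _ _ (STB.irrOn_ext0 hψ) (fun x hx => ext0_of_not_mem _ hx) ?_
    intro F hF
    have hψ1 : (fun t => ψ (e t)) 1 ≠ 0 := by
      obtain ⟨n, hn0, hn⟩ := hψ.exists_degree
      simp only [map_one, hn]
      exact_mod_cast hn0.ne'
    have h6 := (IND_thm S T (fun t => ψ (e t))).2.2.2 hψ1 (fun s : S => F s)
      (fun g x => hF g g.2 x)
    have h7 : wS S (ext0 (indc T (fun t => ψ (e t)))) F =
        wt (indc T (fun t => ψ (e t))) (fun s : S => F s) := by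
      rw [wS, STB.ext0_coe]
    rw [h7, h6, wS, STB.ext0_coe, ← wt_comp_equiv e]
    congr 1
    funext s
    rw [he]
  rw [h1, h4, h5]
  tauto

/-- CLC for subgroups. -/
theorem clc (ℓ : ℕ) [Fact ℓ.Prime] (S A : Subgroup X) (hA : A ≤ S)
    (hn : ∀ s ∈ S, ∀ a ∈ A, s * a * s⁻¹ ∈ A) (P : (X → ℂ) → Prop)
    (hP : ∀ T ≤ S, ∀ ψ χ : X → ℂ, IrrOn T ψ → (∀ x, x ∉ S → χ x = 0) →
      (∀ F : X → ℂ, (∀ s ∈ S, ∀ x, F (s * x * s⁻¹) = F x) → wS S χ F = wS T ψ F) →
      (P χ ↔ P ψ)) (d : ℕ) :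
    (Nat.card S : ℚ) * Nat.card {ψ : X → ℂ // ID ℓ S d ψ ∧ P ψ} =
      ∑ θ ∈ irrOn A, (Nat.card ↥(S ⊓ sx θ) : ℚ) *
        Nat.card {ψ : X → ℂ // ID ℓ (S ⊓ sx θ) d ψ ∧ iS A ψ θ ≠ 0 ∧ P ψ} := by
  classical
  have : (A.subgroupOf S).Normal := ⟨fun a ha s => by
    rw [Subgroup.mem_subgroupOf] at ha ⊢
    exact hn s s.2 a ha⟩
  have h := CLC_thm (A.subgroupOf S) S (S ⧸ A.subgroupOf S) ℓ (A.subgroupOf S).subtype
    (MulAut.conjNormal (H := A.subgroupOf S)) (QuotientGroup.mk' (A.subgroupOf S)) (CVX.clg _)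
    (fun χ => P (ext0 χ)) d
  rw [STB.card_ID ℓ d S P, h]
  symm
  have hlift : ∀ θ : A.subgroupOf S → ℂ, ∀ a : A.subgroupOf S,
      ext0 (fun a : A => θ ((Subgroup.subgroupOfEquivOfLe hA).symm a)) ((a : S) : X) = θ a := by
    intro θ a
    rw [ext0_of_mem _ (Subgroup.mem_subgroupOf.mp a.2)]
    rfl
  refine Finset.sum_nbij' (fun θ => fun a : A.subgroupOf S => θ ((a : S) : X))
    (fun θ => ext0 (fun a : A => θ ((Subgroup.subgroupOfEquivOfLe hA).symm a))) ?_ ?_ ?_ ?_ ?_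
  · intro θ hθ
    exact mem_irrF.mpr (irr_sub hA (mem_irrOn'.mp hθ))
  · intro θ hθ
    exact mem_irrOn'.mpr (STB.irrOn_ext0
      ((mem_irrF.mp hθ).comp_mulEquiv (Subgroup.subgroupOfEquivOfLe hA).symm))
  · intro θ hθ
    have h1 := mem_irrOn'.mp hθ
    exact STB.ext0_res h1.2
  · intro θ hθ
    funext a
    exact hlift θ a
  · intro θ hθ
    have h1 := mem_irrOn'.mp hθ
    have hle : A ≤ S ⊓ sx θ := by
      refine le_inf hA ?_
      intro a ha
      rw [mem_sx]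
      intro x
      by_cases hx : x ∈ A
      · exact h1.1.conj_eq ⟨a, ha⟩ ⟨x, hx⟩
      · rw [h1.2 x hx, h1.2]
        intro h2
        apply hx
        have h3 := A.mul_mem (A.mul_mem (A.inv_mem ha) h2) ha
        have h4 : a⁻¹ * (a * x * a⁻¹) * a = x := by group
        rwa [h4] at h3
    have hT : ∀ s : S, s ∈ inert (MulAut.conjNormal (H := A.subgroupOf S))
        (fun a : A.subgroupOf S => θ ((a : S) : X)) ↔ (s : X) ∈ S ⊓ sx θ := by
      intro s
      rw [Subgroup.mem_inf, mem_sx]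
      constructor
      · intro h2
        refine ⟨s.2, ?_⟩
        intro x
        by_cases hx : x ∈ A
        · have h3 := h2 ⟨⟨x, hA hx⟩, Subgroup.mem_subgroupOf.mpr hx⟩
          exact h3
        · rw [h1.2 x hx, h1.2]
          intro h3
          apply hx
          have h4 := hn (s : X)⁻¹ (S.inv_mem s.2) _ h3
          have h5 : (s : X)⁻¹ * ((s : X) * x * (s : X)⁻¹) * (s : X)⁻¹⁻¹ = x := by group
          rwa [h5] at h4
      · rintro ⟨-, h2⟩ a
        exact h2 ((a : S) : X)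
    have h2 := term ℓ d S A hA (inert (MulAut.conjNormal (H := A.subgroupOf S))
      (fun a : A.subgroupOf S => θ ((a : S) : X))) (S ⊓ sx θ) hT inf_le_left hle θ P hP
    have h3 : Nat.card (inert (MulAut.conjNormal (H := A.subgroupOf S))
        (fun a : A.subgroupOf S => θ ((a : S) : X))) = Nat.card ↥(S ⊓ sx θ) := by
      refine Nat.card_congr ⟨fun t => ⟨(t : S), (hT t).mp t.2⟩,
        fun t => ⟨⟨t, (Subgroup.mem_inf.mp t.2).1⟩, (hT _).mpr t.2⟩, fun t => rfl, fun t => rfl⟩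
    rw [h3, h2]

/-- Weights of functions which vanish outside a normal subgroup. -/
theorem summ (T A : Subgroup X) (hA : A ≤ T) (hn : ∀ s ∈ T, ∀ a ∈ A, s * a * s⁻¹ ∈ A)
    {ψ θ : X → ℂ} (hψ : IrrOn T ψ) (hθ : IrrOn A θ) (h : iS A ψ θ ≠ 0) (F : X → ℂ)
    (hF : ∀ s ∈ T, ∀ x, F (s * x * s⁻¹) = F x) (h0 : ∀ x ∈ T, x ∉ A → F x = 0) :
    wS T ψ F = wS A θ F := by
  classical
  have : (A.subgroupOf T).Normal := ⟨fun a ha s => by
    rw [Subgroup.mem_subgroupOf] at ha ⊢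
    exact hn s s.2 a ha⟩
  have h1 := (SUMM_thm (A.subgroupOf T) T (T ⧸ A.subgroupOf T) (A.subgroupOf T).subtype
    (MulAut.conjNormal (H := A.subgroupOf T)) (QuotientGroup.mk' (A.subgroupOf T))
    (CVX.clg _)).2.2.2 (fun a : A.subgroupOf T => θ ((a : T) : X)) (fun t : T => ψ t)
    (fun t : T => F t) (irr_sub hA hθ) hψ.1 ?_ (fun g x => hF g g.2 x) ?_
  · rw [wS, h1, ← wt_sub hA]
    rfl
  · have h2 := ip_sub hA ψ θ
    rw [← h2] at h
    exact h
  · intro y hy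
    refine h0 y y.2 ?_
    intro hyA
    apply hy
    rw [Subgroup.range_subtype]
    exact Subgroup.mem_subgroupOf.mpr hyA

/-! ### Central functions -/

theorem cen_gen (𝔐 : Ideal (integralClosure ℤ ℂ)) {K L : Type} [Group K] [Fintype K] [Group L]
    (j : K →* L) (i : L →* X) (hi : Function.Injective i) (hj : Function.Injective j)
    (T : Subgroup X) (hT : i.range = T) (f : X → ℂ) (hf : ∀ x, f x ≠ 0 → ∃ k, i (j k) = x)
    (g : L) : cen 𝔐 j (fun k => f (i (j k))) g = cgT 𝔐 T f (i g) := by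
  classical
  have h1 : ∑ k, conjInd (j k) g * f (i (j k)) = ∑ x, cjT T x (i g) * f x := by
    refine Fintype.sum_of_injective (fun k => i (j k)) (hi.comp hj) _ _ ?_ ?_
    · intro x hx
      by_cases h2 : f x = 0
      · rw [h2, mul_zero]
      · exact absurd (hf x h2) hx
    · intro k
      have h2 : conjInd (j k) g = cjT T (i (j k)) (i g) := by
        rw [conjInd, cjT]
        refine STB.ite_eq ?_
        rw [isConj_comm, isConj_iff]
        constructor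
        · rintro ⟨c, hc⟩
          refine ⟨i c, by rw [← hT]; exact ⟨c, rfl⟩, ?_⟩
          rw [← hc]
          simp only [map_mul, map_inv]
        · rintro ⟨t, ht, hx⟩
          rw [← hT] at ht
          obtain ⟨c, rfl⟩ := ht
          refine ⟨c, ?_⟩
          apply hi
          rw [hx]
          simp only [map_mul, map_inv]
      rw [h2]
  rw [cen, wt, cgT, ← h1]
  simp only [map_one]

/-- CVX for subgroups. -/
theorem cvx (𝔐 : Ideal (integralClosure ℤ ℂ)) (ℓ : ℕ) [Fact ℓ.Prime] (hM : 𝔐.IsMaximal)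
    (hl : (ℓ : integralClosure ℤ ℂ) ∈ 𝔐) (T N : Subgroup X) (hN : N.Normal) (hNT : N ≤ T)
    {ξ ξ₁ : X → ℂ} (hξ : IrrOn N ξ) (hξ₁ : IrrOn N ξ₁)
    (h : ∀ x ∈ N, cgT 𝔐 T ξ x = cgT 𝔐 T ξ₁ x) :
    ∃ t ∈ T, cgT 𝔐 N (fun x => ξ₁ (t * x * t⁻¹)) = cgT 𝔐 N ξ := by
  classical
  have h1 : ∀ f : X → ℂ, (∀ x, x ∉ N → f x = 0) → ∀ g : T,
      cen 𝔐 (N.subgroupOf T).subtype (fun m : N.subgroupOf T => f ((m : T) : X)) g =
        cgT 𝔐 T f g := by
    intro f hf g
    refine cen_gen 𝔐 (N.subgroupOf T).subtype T.subtype T.subtype_injective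
      (N.subgroupOf T).subtype_injective T T.range_subtype f ?_ g
    intro x hx
    have hxN : x ∈ N := by
      by_contra hx'
      exact hx (hf x hx')
    exact ⟨⟨⟨x, hNT hxN⟩, Subgroup.mem_subgroupOf.mpr hxN⟩, rfl⟩
  have h2 : ∀ f : X → ℂ, (∀ x, x ∉ N → f x = 0) → ∀ g : N.subgroupOf T,
      cen 𝔐 (MonoidHom.id (N.subgroupOf T)) (fun m : N.subgroupOf T => f ((m : T) : X)) g =
        cgT 𝔐 N f ((g : T) : X) := by
    intro f hf g
    refine cen_gen 𝔐 (MonoidHom.id (N.subgroupOf T)) (T.subtype.comp (N.subgroupOf T).subtype)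
      (T.subtype_injective.comp (N.subgroupOf T).subtype_injective) Function.injective_id N
      ?_ f ?_ g
    · rw [MonoidHom.range_comp, Subgroup.range_subtype, STB.map_subgroupOf hNT]
    · intro x hx
      have hxN : x ∈ N := by
        by_contra hx'
        exact hx (hf x hx')
      exact ⟨⟨⟨x, hNT hxN⟩, Subgroup.mem_subgroupOf.mpr hxN⟩, rfl⟩
  obtain ⟨t, -, ht, -⟩ := CVX_thm T 𝔐 ℓ hM hl (N.subgroupOf T)
    (fun m : N.subgroupOf T => ξ ((m : T) : X)) (fun m : N.subgroupOf T => ξ₁ ((m : T) : X))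
    (irr_sub hNT hξ) (irr_sub hNT hξ₁) (fun g hg => by
      rw [h1 ξ hξ.2, h1 ξ₁ hξ₁.2]
      exact h g (Subgroup.mem_subgroupOf.mp hg))
  refine ⟨t, t.2, ?_⟩
  have hv : ∀ x, x ∉ N → (fun x => ξ₁ ((t : X) * x * (t : X)⁻¹)) x = 0 := by
    intro x hx
    refine hξ₁.2 _ ?_
    intro h3
    apply hx
    have h4 := hN.conj_mem _ h3 (t : X)⁻¹
    have h5 : (t : X)⁻¹ * ((t : X) * x * (t : X)⁻¹) * (t : X)⁻¹⁻¹ = x := by group
    rwa [h5] at h4
  funext x
  by_cases hx : x ∈ N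
  · have h3 := congrFun ht ⟨⟨x, hNT hx⟩, Subgroup.mem_subgroupOf.mpr hx⟩
    rw [h2 ξ hξ.2] at h3
    have h4 := h2 (fun x => ξ₁ ((t : X) * x * (t : X)⁻¹)) hv
      ⟨⟨x, hNT hx⟩, Subgroup.mem_subgroupOf.mpr hx⟩
    exact h4.symm.trans h3
  · rw [STN.cgT_out 𝔐 N hv hx, STN.cgT_out 𝔐 N hξ.2 hx]

/-- The central functions with respect to greater subgroups. -/
theorem cgT_mono (𝔐 : Ideal (integralClosure ℤ ℂ)) {T N : Subgroup X} (hNT : N ≤ T)
    {ξ ξ₁ : X → ℂ} (hξ : IrrOn N ξ) (hξ₁ : IrrOn N ξ₁) (h : cgT 𝔐 N ξ = cgT 𝔐 N ξ₁) :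
    cgT 𝔐 T ξ = cgT 𝔐 T ξ₁ := by
  classical
  have hc : cen 𝔐 (MonoidHom.id N) (fun s : N => ξ s) =
      cen 𝔐 (MonoidHom.id N) (fun s : N => ξ₁ s) := by
    funext n
    rw [← STN.cgT_in 𝔐 N hξ.2, ← STN.cgT_in 𝔐 N hξ₁.2, h]
  funext x
  rw [STB.cgT_eq 𝔐 T N hξ.2, STB.cgT_eq 𝔐 T N hξ₁.2]
  have h1 := red_wt_eq_pair 𝔐 (MonoidHom.id N) hξ.1 (fun s : N => cjT T (s : X) x)
    (fun g y => STB.cjT_conj (hNT g.2) (y : X) x) (fun y => STB.isIntegral_cjT T _ _)
  have h2 := red_wt_eq_pair 𝔐 (MonoidHom.id N) hξ₁.1 (fun s : N => cjT T (s : X) x)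
    (fun g y => STB.cjT_conj (hNT g.2) (y : X) x) (fun y => STB.isIntegral_cjT T _ _)
  rw [hc, ← h2] at h1
  exact h1

/-- The normal subgroup stabilizes its blocks. -/
theorem le_sx_cgT (𝔐 : Ideal (integralClosure ℤ ℂ)) {N : Subgroup X} (f : X → ℂ) :
    N ≤ sx (cgT 𝔐 N f) := by
  classical
  intro n hn
  rw [mem_sx]
  intro x
  rw [cgT, cgT]
  congr 3
  funext y
  congr 1
  rw [cjT, cjT]
  refine STB.ite_eq ?_
  constructor
  · rintro ⟨t, ht, h⟩
    refine ⟨t * n, N.mul_mem ht hn, ?_⟩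
    rw [h]
    group
  · rintro ⟨t, ht, h⟩
    refine ⟨t * n⁻¹, N.mul_mem ht (N.inv_mem hn), ?_⟩
    rw [h]
    group

/-- Conjugation of a normalized subgroup. -/
theorem exists_conj {A : Subgroup X} {s : X} (hs : ∀ x, s * x * s⁻¹ ∈ A ↔ x ∈ A) :
    ∃ e : A ≃* A, ∀ a : A, ((e a : A) : X) = s * a * s⁻¹ := by
  refine ⟨{ toFun := fun a => ⟨s * a * s⁻¹, (hs a).mpr a.2⟩
            invFun := fun a => ⟨s⁻¹ * a * s, (hs _).mp ?_⟩
            left_inv := ?_
            right_inv := ?_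
            map_mul' := ?_ }, fun a => rfl⟩
  · have h : s * (s⁻¹ * (a : X) * s) * s⁻¹ = a := by group
    rw [h]
    exact a.2
  · intro a
    apply Subtype.ext
    change s⁻¹ * (s * (a : X) * s⁻¹) * s = a
    group
  · intro a
    apply Subtype.ext
    change s * (s⁻¹ * (a : X) * s) * s⁻¹ = a
    group
  · intro a b
    apply Subtype.ext
    change s * ((a : X) * b) * s⁻¹ = (s * a * s⁻¹) * (s * b * s⁻¹)
    group

/-- Transport of weights by conjugation. -/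
theorem wS_conj {A : Subgroup X} {s : X} (hs : ∀ x, s * x * s⁻¹ ∈ A ↔ x ∈ A) (f F : X → ℂ) :
    wS A (fun x => f (s * x * s⁻¹)) (fun x => F (s * x * s⁻¹)) = wS A f F := by
  obtain ⟨e, he⟩ := exists_conj hs
  rw [wS, wS, ← wt_comp_equiv e (fun a : A => f a)]
  congr 1
  · funext a
    rw [he]
  · funext a
    rw [he]

theorem irr_conj {A : Subgroup X} {s : X} (hs : ∀ x, s * x * s⁻¹ ∈ A ↔ x ∈ A) {f : X → ℂ}
    (hf : IrrOn A f) : IrrOn A (fun x => f (s * x * s⁻¹)) := by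
  obtain ⟨e, he⟩ := exists_conj hs
  constructor
  · have h := hf.1.comp_mulEquiv e
    have h1 : (fun a : A => f ((e a : A) : X)) = fun a : A => f (s * a * s⁻¹) := by
      funext a
      rw [he]
    rw [← h1]
    exact h
  · intro x hx
    exact hf.2 _ (fun h => hx ((hs x).mp h))

/-- The stabilizer of a chain normalizes the greatest member. -/
theorem tp_norm {Z : Subgroup X} (hZ : Z ≤ Subgroup.center X) {σ : Finset (Subgroup X)} {s : X}
    (hs : s ∈ stb σ) {r : X} (hr : r ∈ tp Z σ) : s * r * s⁻¹ ∈ tp Z σ := by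
  have h1 : tp Z σ ≤ (tp Z σ).comap (MulAut.conj s).toMonoidHom := by
    conv_lhs => rw [tp]
    refine sup_le (Finset.sup_le fun D hD => ?_) ?_
    · intro x hx
      have h2 : s * x * s⁻¹ ∈ D := (mem_stb'.mp hs D hD x).mp hx
      exact (le_sup_of_le_left (Finset.le_sup (f := id) hD) : D ≤ tp Z σ) h2
    · intro x hx
      have h2 : s * x * s⁻¹ = x := by
        rw [Subgroup.mem_center_iff.mp (hZ hx) s, mul_inv_cancel_right]
      have h3 : x ∈ tp Z σ := (le_sup_right : Z ≤ tp Z σ) hx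
      change s * x * s⁻¹ ∈ tp Z σ
      rw [h2]
      exact h3
  exact h1 hr

/-- The number of the elements which transport one function to another. -/
theorem card_coset {α : Type} (b : X → α) (g₀ : X) :
    Nat.card {g : X // (fun x => b (g * x * g⁻¹)) = fun x => b (g₀ * x * g₀⁻¹)} =
      Nat.card (sx b) := by
  refine Nat.card_congr ⟨fun g => ⟨g.1 * g₀⁻¹, ?_⟩, fun s => ⟨s.1 * g₀, ?_⟩, ?_, ?_⟩
  · rw [mem_sx]
    intro x
    have h := congrFun g.2 (g₀⁻¹ * x * g₀)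
    have h1 : g.1 * g₀⁻¹ * x * (g.1 * g₀⁻¹)⁻¹ = g.1 * (g₀⁻¹ * x * g₀) * g.1⁻¹ := by group
    have h2 : g₀ * (g₀⁻¹ * x * g₀) * g₀⁻¹ = x := by group
    rw [h1]
    refine h.trans ?_
    change b (g₀ * (g₀⁻¹ * x * g₀) * g₀⁻¹) = b x
    rw [h2]
  · funext x
    have h := mem_sx.mp s.2 (g₀ * x * g₀⁻¹)
    rw [← h]
    congr 1
    group
  · intro g
    apply Subtype.ext
    change g.1 * g₀⁻¹ * g₀ = g.1
    group
  · intro s
    apply Subtype.ext
    change s.1 * g₀ * g₀⁻¹ = s.1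
    group

/-- The inertia group of a character of the stabilizer of the chain stabilizes the block. -/
theorem inert_le (h2 : Stmt_STN) (𝔐 : Ideal (integralClosure ℤ ℂ)) (ℓ : ℕ) [Fact ℓ.Prime]
    (hM : 𝔐.IsMaximal) (hl : (ℓ : integralClosure ℤ ℂ) ∈ 𝔐) {N S Q : Subgroup X}
    (hN : N.Normal) (hQ : ∀ s ∈ S, ∀ r ∈ Q, s * r * s⁻¹ ∈ Q) {θ' ξ : X → ℂ} (hξ : IrrOn N ξ)
    (hs : Q ≤ sx (cgT 𝔐 N ξ))
    (hw : ∀ F : X → ℂ, (∀ n ∈ N, ∀ x ∈ N, F (n * x * n⁻¹) = F x) →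
        (∀ r ∈ Q, ∀ x ∈ N, F (r * x * r⁻¹) = F x) → (∀ x, IsIntegral ℤ (F x)) →
        red 𝔐 (wS (S ⊓ N) θ' F) = red 𝔐 (wS N ξ F)) :
    S ⊓ sx θ' ≤ sx (cgT 𝔐 N ξ) := by
  intro s hs'
  obtain ⟨hsS, hsθ⟩ := Subgroup.mem_inf.mp hs'
  have hNs : ∀ x, s * x * s⁻¹ ∈ N ↔ x ∈ N := by
    intro x
    constructor
    · intro h
      have h4 := hN.conj_mem _ h s⁻¹
      have h5 : s⁻¹ * (s * x * s⁻¹) * s⁻¹⁻¹ = x := by group
      rwa [h5] at h4
    · intro h
      exact hN.conj_mem x h s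
  have hSs : ∀ x, s * x * s⁻¹ ∈ S ↔ x ∈ S := by
    intro x
    constructor
    · intro h
      have h4 := S.mul_mem (S.mul_mem (S.inv_mem hsS) h) hsS
      have h5 : s⁻¹ * (s * x * s⁻¹) * s = x := by group
      rwa [h5] at h4
    · intro h
      exact S.mul_mem (S.mul_mem hsS h) (S.inv_mem hsS)
  have hSN : ∀ x, s * x * s⁻¹ ∈ S ⊓ N ↔ x ∈ S ⊓ N := by
    intro x
    rw [Subgroup.mem_inf, Subgroup.mem_inf, hSs, hNs]
  have hmv : cgT 𝔐 N (fun x => ξ (s * x * s⁻¹)) = fun y => cgT 𝔐 N ξ (s * y * s⁻¹) := by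
    funext y
    exact STB.cgT_move 𝔐 ξ s y
  have h3 : cgT 𝔐 N (fun x => ξ (s * x * s⁻¹)) = cgT 𝔐 N ξ := by
    refine h2 X 𝔐 ℓ hM hl N Q (fun r _ n hn => hN.conj_mem n hn r) _ _ (irr_conj hNs hξ) hξ
      ?_ hs ?_
    · intro r hr
      rw [mem_sx, hmv]
      intro x
      change cgT 𝔐 N ξ (s * (r * x * r⁻¹) * s⁻¹) = cgT 𝔐 N ξ (s * x * s⁻¹)
      have h4 := mem_sx.mp (hs (hQ s hsS r hr)) (s * x * s⁻¹)
      rw [← h4]
      congr 1
      group
    · intro F ha hb hc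
      obtain ⟨F', hF'⟩ : ∃ F' : X → ℂ, F' = fun x => F (s⁻¹ * x * s) := ⟨_, rfl⟩
      have hFF : F = fun x => F' (s * x * s⁻¹) := by
        funext x
        rw [hF']
        change F x = F (s⁻¹ * (s * x * s⁻¹) * s)
        congr 1
        group
      have ha' : ∀ n ∈ N, ∀ x ∈ N, F' (n * x * n⁻¹) = F' x := by
        intro n hn x hx
        rw [hF']
        change F (s⁻¹ * (n * x * n⁻¹) * s) = F (s⁻¹ * x * s)
        have h5 : s⁻¹ * n * s ∈ N := by
          have h6 := hN.conj_mem n hn s⁻¹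
          rwa [inv_inv] at h6
        have h7 : s⁻¹ * x * s ∈ N := by
          have h6 := hN.conj_mem x hx s⁻¹
          rwa [inv_inv] at h6
        rw [← ha _ h5 _ h7]
        congr 1
        group
      have hb' : ∀ r ∈ Q, ∀ x ∈ N, F' (r * x * r⁻¹) = F' x := by
        intro r hr x hx
        rw [hF']
        change F (s⁻¹ * (r * x * r⁻¹) * s) = F (s⁻¹ * x * s)
        have h5 : s⁻¹ * r * s ∈ Q := by
          have h6 := hQ s⁻¹ (S.inv_mem hsS) r hr
          rwa [inv_inv] at h6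
        have h7 : s⁻¹ * x * s ∈ N := by
          have h6 := hN.conj_mem x hx s⁻¹
          rwa [inv_inv] at h6
        rw [← hb _ h5 _ h7]
        congr 1
        group
      have hc' : ∀ x, IsIntegral ℤ (F' x) := by
        intro x
        rw [hF']
        exact hc _
      have h8 : wS N (fun x => ξ (s * x * s⁻¹)) F = wS N ξ F' := by
        rw [hFF]
        exact wS_conj hNs ξ F'
      have h9 : wS (S ⊓ N) θ' F = wS (S ⊓ N) θ' F' := by
        have h10 := wS_conj hSN θ' F'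
        rw [← h10, ← hFF]
        congr 1
        funext x
        exact (mem_sx.mp hsθ x).symm
      rw [h8, ← hw F ha hb hc, h9, hw F' ha' hb' hc']
  rw [hmv] at h3
  rw [mem_sx]
  intro x
  exact congrFun h3 x

/-- Central functions are determined by the weights. -/
theorem cgT_inv (𝔐 : Ideal (integralClosure ℤ ℂ)) {S T T' : Subgroup X} (hS : S ≤ T')
    {ψ χ : X → ℂ} (hψ : IrrOn T ψ) (hχ : ∀ x, x ∉ S → χ x = 0)
    (h : ∀ F : X → ℂ, (∀ s ∈ S, ∀ x, F (s * x * s⁻¹) = F x) → wS S χ F = wS T ψ F) :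
    cgT 𝔐 T' χ = cgT 𝔐 T' ψ := by
  funext x
  rw [STB.cgT_eq 𝔐 T' S hχ, STB.cgT_eq 𝔐 T' T hψ.2]
  exact congrArg (red 𝔐) (h (fun y => cjT T' y x) (fun s hs y => STB.cjT_conj (hS hs) y x))

/-- The central function on the normal subgroup. -/
theorem key (𝔐 : Ideal (integralClosure ℤ ℂ)) {N S Q T T' : Subgroup X} (hN : N.Normal)
    (hNT : N ≤ T') (hQT : Q ≤ T') (hT : T ≤ T') (hTS : T ≤ S) (hST : S ⊓ N ≤ T)
    {θ' ξ ψ : X → ℂ} (hθ : IrrOn (S ⊓ N) θ') (hξ : IrrOn N ξ)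
    (hw : ∀ F : X → ℂ, (∀ n ∈ N, ∀ x ∈ N, F (n * x * n⁻¹) = F x) →
        (∀ r ∈ Q, ∀ x ∈ N, F (r * x * r⁻¹) = F x) → (∀ x, IsIntegral ℤ (F x)) →
        red 𝔐 (wS (S ⊓ N) θ' F) = red 𝔐 (wS N ξ F))
    (hψ : IrrOn T ψ) (hov : iS (S ⊓ N) ψ θ' ≠ 0) {x : X} (hx : x ∈ N) :
    cgT 𝔐 T' ψ x = cgT 𝔐 T' ξ x := by
  classical
  have h1 : wS T ψ (fun y => cjT T' y x) = wS (S ⊓ N) θ' (fun y => cjT T' y x) := by
    refine summ T (S ⊓ N) hST ?_ hψ hθ hov _ (fun s hs y => STB.cjT_conj (hT hs) y x) ?_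
    · intro s hs a ha
      obtain ⟨ha1, ha2⟩ := Subgroup.mem_inf.mp ha
      exact Subgroup.mem_inf.mpr ⟨S.mul_mem (S.mul_mem (hTS hs) ha1) (S.inv_mem (hTS hs)),
        hN.conj_mem a ha2 s⟩
    · intro y hy hyn
      rw [cjT, if_neg]
      rintro ⟨t, -, rfl⟩
      exact hyn (Subgroup.mem_inf.mpr ⟨hTS hy, hN.conj_mem x hx t⟩)
  have h2 := hw (fun y => cjT T' y x) (fun n hn y _ => STB.cjT_conj (hNT hn) y x)
    (fun r hr y _ => STB.cjT_conj (hQT hr) y x) (fun y => STB.isIntegral_cjT T' y x)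
  rw [STB.cgT_eq 𝔐 T' T hψ.2, STB.cgT_eq 𝔐 T' N hξ.2]
  change red 𝔐 (wS T ψ (fun y => cjT T' y x)) = red 𝔐 (wS N ξ (fun y => cjT T' y x))
  rw [h1, h2]

end STC

open _root_.Pool.Agent.DPT.STC in
/-- STC. -/
theorem STC_thm (h1 : Stmt_STT) (h2 : Stmt_STN) : Stmt_STC := by
  classical
  intro X _ _ 𝔐 ℓ _ hM hl Z N hZ hN ω ξ₀ hξ₀ hω σ hσ d
  have hQ : ∀ s ∈ stb σ, ∀ r ∈ tp Z σ, s * r * s⁻¹ ∈ tp Z σ := fun s hs r hr => tp_norm hZ hs hr
  have hNs : ∀ s x : X, s * x * s⁻¹ ∈ N ↔ x ∈ N := by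
    intro s x
    constructor
    · intro h
      have h4 := hN.conj_mem _ h s⁻¹
      have h5 : s⁻¹ * (s * x * s⁻¹) * s⁻¹⁻¹ = x := by group
      rwa [h5] at h4
    · intro h
      exact hN.conj_mem x h s
  have hΞ : ∀ θ' : X → ℂ, ∃ ξ : X → ℂ, IrrOn (stb σ ⊓ N) θ' →
      (IrrOn N ξ ∧ tp Z σ ≤ sx (cgT 𝔐 N ξ) ∧
      ∀ F : X → ℂ, (∀ n ∈ N, ∀ x ∈ N, F (n * x * n⁻¹) = F x) →
        (∀ r ∈ tp Z σ, ∀ x ∈ N, F (r * x * r⁻¹) = F x) → (∀ x, IsIntegral ℤ (F x)) →
        red 𝔐 (wS (stb σ ⊓ N) θ' F) = red 𝔐 (wS N ξ F)) := by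
    intro θ'
    by_cases h : IrrOn (stb σ ⊓ N) θ'
    · obtain ⟨ξ, hξ⟩ := h1 X 𝔐 ℓ hM hl Z N hZ hN σ hσ θ' h
      exact ⟨ξ, fun _ => hξ⟩
    · exact ⟨0, fun h' => absurd h' h⟩
  choose Ξ hΞ using hΞ
  have hle : ∀ θ' : X → ℂ, IrrOn (stb σ ⊓ N) θ' → stb σ ⊓ sx θ' ≤ sx (cgT 𝔐 N (Ξ θ')) := by
    intro θ' hθ
    obtain ⟨a1, a2, a3⟩ := hΞ θ' hθ
    exact inert_le h2 𝔐 ℓ hM hl hN hQ a1 a2 a3
  have hNθ : ∀ θ' : X → ℂ, IrrOn (stb σ ⊓ N) θ' → stb σ ⊓ N ≤ stb σ ⊓ sx θ' := by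
    intro θ' hθ
    refine le_inf inf_le_left ?_
    intro a ha
    rw [mem_sx]
    intro x
    by_cases hx : x ∈ stb σ ⊓ N
    · exact hθ.1.conj_eq ⟨a, ha⟩ ⟨x, hx⟩
    · rw [hθ.2 x hx, hθ.2]
      intro h2
      apply hx
      have h3 := (stb σ ⊓ N).mul_mem ((stb σ ⊓ N).mul_mem ((stb σ ⊓ N).inv_mem ha) h2) ha
      have h4 : a⁻¹ * (a * x * a⁻¹) * a = x := by group
      rwa [h4] at h3
  -- the number of the characters over one character
  obtain ⟨n, hn⟩ : ∃ n : (X → ℂ) → ℕ, ∀ θ', n θ' = Nat.card {ψ : X → ℂ //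
      ID ℓ (stb σ ⊓ sx θ') d ψ ∧ iS (stb σ ⊓ N) ψ θ' ≠ 0 ∧ cgT 𝔐 ⊤ ψ = ω} :=
    ⟨fun θ' => _, fun θ' => rfl⟩
  -- the left side
  have hleft : (Nat.card (stb σ) : ℚ) *
      Nat.card {ψ : X → ℂ // ID ℓ (stb σ) d ψ ∧ cgT 𝔐 ⊤ ψ = ω} =
      ∑ θ' ∈ irrOn (stb σ ⊓ N), (Nat.card ↥(stb σ ⊓ sx θ') : ℚ) * n θ' := by
    rw [clc ℓ (stb σ) (stb σ ⊓ N) inf_le_left ?_ (fun ψ => cgT 𝔐 ⊤ ψ = ω) ?_ d]
    · refine Finset.sum_congr rfl fun θ' _ => ?_
      rw [hn]
    · intro s hs a ha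
      obtain ⟨ha1, ha2⟩ := Subgroup.mem_inf.mp ha
      exact Subgroup.mem_inf.mpr ⟨(stb σ).mul_mem ((stb σ).mul_mem hs ha1) ((stb σ).inv_mem hs),
        hN.conj_mem a ha2 s⟩
    · intro T _ ψ χ hψ hχ h
      rw [cgT_inv 𝔐 le_top hψ hχ h]
  -- the blocks
  have hb : ∀ g : X, cgT 𝔐 N (fun x => ξ₀ (g * x * g⁻¹)) = fun y => cgT 𝔐 N ξ₀ (g * y * g⁻¹) := by
    intro g
    funext y
    exact STB.cgT_move 𝔐 ξ₀ g y
  have hcount : ∀ θ' ∈ irrOn (stb σ ⊓ N), (Nat.card (sx (cgT 𝔐 N ξ₀)) : ℚ) * n θ' =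
      ∑ g : X, if cgT 𝔐 N (fun x => ξ₀ (g * x * g⁻¹)) = cgT 𝔐 N (Ξ θ') then (n θ' : ℚ)
        else 0 := by
    intro θ' hθ'
    have hθ := mem_irrOn'.mp hθ'
    obtain ⟨a1, a2, a3⟩ := hΞ θ' hθ
    by_cases h0 : n θ' = 0
    · rw [h0]
      simp
    · have hne : Nonempty {ψ : X → ℂ // ID ℓ (stb σ ⊓ sx θ') d ψ ∧
          iS (stb σ ⊓ N) ψ θ' ≠ 0 ∧ cgT 𝔐 ⊤ ψ = ω} := by
        by_contra h3
        apply h0
        rw [hn]
        rw [not_nonempty_iff] at h3
        exact Nat.card_of_isEmpty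
      obtain ⟨ψ, hψ1, hψ2, hψ3⟩ := hne
      obtain ⟨g₀, -, hg₀⟩ := cvx 𝔐 ℓ hM hl ⊤ N hN le_top a1 hξ₀ (fun x hx => by
        rw [hω x hx, ← hψ3]
        exact (key 𝔐 hN le_top le_top le_top inf_le_left (hNθ θ' hθ) hθ a1 a3 hψ1.1 hψ2 hx).symm)
      rw [← Finset.sum_filter, Finset.sum_const, nsmul_eq_mul]
      congr 2
      have h3 := card_coset (cgT 𝔐 N ξ₀) g₀
      rw [← h3, Nat.card_eq_fintype_card, Fintype.card_subtype]
      congr 1
      ext g
      simp only [Finset.mem_filter, Finset.mem_univ, true_and]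
      rw [← hg₀, hb, hb]
  have hterm : ∀ g : X, (if tp Z σ ≤ sx (cgT 𝔐 N (fun x => ξ₀ (g * x * g⁻¹))) then
        (Nat.card ↥(stb σ ⊓ sx (cgT 𝔐 N (fun x => ξ₀ (g * x * g⁻¹)))) : ℚ) *
          Nat.card {ψ : X → ℂ // ID ℓ (stb σ ⊓ sx (cgT 𝔐 N (fun x => ξ₀ (g * x * g⁻¹)))) d ψ ∧
            cgT 𝔐 ⊤ ψ = ω ∧ ∀ x ∈ N,
              cgT 𝔐 (sx (cgT 𝔐 N (fun x => ξ₀ (g * x * g⁻¹)))) ψ x =
                cgT 𝔐 (sx (cgT 𝔐 N (fun x => ξ₀ (g * x * g⁻¹))))
                  (fun x => ξ₀ (g * x * g⁻¹)) x}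
        else 0) = ∑ θ' ∈ irrOn (stb σ ⊓ N),
          if cgT 𝔐 N (fun x => ξ₀ (g * x * g⁻¹)) = cgT 𝔐 N (Ξ θ') then
            (Nat.card ↥(stb σ ⊓ sx θ') : ℚ) * n θ' else 0 := by
    intro g
    obtain ⟨ζ, hζ⟩ : ∃ ζ : X → ℂ, ζ = fun x => ξ₀ (g * x * g⁻¹) := ⟨_, rfl⟩
    rw [← hζ]
    have hζi : IrrOn N ζ := by
      rw [hζ]
      exact irr_conj (hNs g) hξ₀
    have hNb : N ≤ sx (cgT 𝔐 N ζ) := le_sx_cgT 𝔐 ζ
    by_cases hQb : tp Z σ ≤ sx (cgT 𝔐 N ζ)
    · rw [if_pos hQb, clc ℓ (stb σ ⊓ sx (cgT 𝔐 N ζ)) (stb σ ⊓ N) (inf_le_inf_left _ hNb) ?_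
        (fun ψ => cgT 𝔐 ⊤ ψ = ω ∧ ∀ x ∈ N, cgT 𝔐 (sx (cgT 𝔐 N ζ)) ψ x =
          cgT 𝔐 (sx (cgT 𝔐 N ζ)) ζ x) ?_ d]
      · refine Finset.sum_congr rfl fun θ' hθ' => ?_
        have hθ := mem_irrOn'.mp hθ'
        obtain ⟨a1, a2, a3⟩ := hΞ θ' hθ
        by_cases he : cgT 𝔐 N ζ = cgT 𝔐 N (Ξ θ')
        · rw [if_pos he, hn]
          have hg : stb σ ⊓ sx (cgT 𝔐 N ζ) ⊓ sx θ' = stb σ ⊓ sx θ' := by
            apply le_antisymm
            · exact inf_le_inf_right _ inf_le_left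
            · refine le_inf (le_inf inf_le_left ?_) inf_le_right
              rw [he]
              exact hle θ' hθ
          rw [hg]
          congr 2
          refine Nat.card_congr (Equiv.subtypeEquivRight fun ψ => ?_)
          constructor
          · rintro ⟨b1, b2, b3, -⟩
            exact ⟨b1, b2, b3⟩
          · rintro ⟨b1, b2, b3⟩
            refine ⟨b1, b2, b3, ?_⟩
            intro x hx
            rw [key 𝔐 hN hNb hQb (by rw [he]; exact hle θ' hθ) inf_le_left (hNθ θ' hθ) hθ a1 a3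
              b1.1 b2 hx, cgT_mono 𝔐 hNb a1 hζi he.symm]
        · rw [if_neg he]
          have hem : IsEmpty {ψ : X → ℂ // ID ℓ (stb σ ⊓ sx (cgT 𝔐 N ζ) ⊓ sx θ') d ψ ∧
              iS (stb σ ⊓ N) ψ θ' ≠ 0 ∧ cgT 𝔐 ⊤ ψ = ω ∧ ∀ x ∈ N,
                cgT 𝔐 (sx (cgT 𝔐 N ζ)) ψ x = cgT 𝔐 (sx (cgT 𝔐 N ζ)) ζ x} := by
            constructor
            rintro ⟨ψ, b1, b2, b3, b4⟩
            apply he
            obtain ⟨t, ht, ht'⟩ := cvx 𝔐 ℓ hM hl (sx (cgT 𝔐 N ζ)) N hN hNb a1 hζi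
              (fun x hx => by
                rw [← b4 x hx]
                exact (key 𝔐 hN hNb hQb (inf_le_left.trans inf_le_right)
                  (inf_le_left.trans inf_le_left)
                  (le_inf (inf_le_inf_left _ hNb) ((hNθ θ' hθ).trans inf_le_right))
                  hθ a1 a3 b1.1 b2 hx).symm)
            rw [← ht']
            funext x
            rw [STB.cgT_move]
            exact (mem_sx.mp ht x).symm
          have hz := @Nat.card_of_isEmpty _ hem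
          rw [hz, Nat.cast_zero, mul_zero]
      · intro s hs a ha
        obtain ⟨ha1, ha2⟩ := Subgroup.mem_inf.mp ha
        have hs1 := (Subgroup.mem_inf.mp hs).1
        exact Subgroup.mem_inf.mpr
          ⟨(stb σ).mul_mem ((stb σ).mul_mem hs1 ha1) ((stb σ).inv_mem hs1),
          hN.conj_mem a ha2 s⟩
      · intro T _ ψ χ hψ hχ h
        rw [cgT_inv 𝔐 le_top hψ hχ h, cgT_inv 𝔐 inf_le_right hψ hχ h]
    · rw [if_neg hQb]
      symm
      apply Finset.sum_eq_zero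
      intro θ' hθ'
      rw [if_neg]
      intro he
      apply hQb
      rw [he]
      exact (hΞ θ' (mem_irrOn'.mp hθ')).2.1
  rw [Finset.sum_congr rfl fun g _ => hterm g, Finset.sum_comm, hleft, Finset.mul_sum]
  refine Finset.sum_congr rfl fun θ' hθ' => ?_
  rw [mul_left_comm, hcount θ' hθ', Finset.mul_sum]
  refine Finset.sum_congr rfl fun g _ => ?_
  rw [mul_ite, mul_zero]

end Pool.Agent.DPT


end

section

/-!
# DGM: passage from the centralizer of an `ℓ`-subgroup in `M` to `M`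
-/

set_option linter.unusedSectionVars false

namespace Pool.Agent.DPT

open Pool.Agent.DP Pool.Agent.DPC Pool.Agent.DPM Pool.Agent.DPN Pool.Agent.Lib_helper13
open Representation
open Pool.Agent.Lib_helper13.Dade (pCore DadeHolds dadeSum)

namespace DGM

/-! ### Sums over the fibres -/

section Pu

variable {Y G : Type} [Group Y] [Fintype Y] [Group G] [Fintype G] {k : Y →* G}

theorem pu_class (hk : Function.Surjective k) {F : Y → ℂ}
    (hF : ∀ g x, F (g * x * g⁻¹) = F x) (n x : G) :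
    pu k F (n * x * n⁻¹) = pu k F x := by
  classical
  obtain ⟨m, rfl⟩ := hk n
  unfold pu
  symm
  refine Fintype.sum_equiv (MulAut.conj m).toEquiv _ _ fun y => ?_
  change (if k y = x then F y else 0) =
    if k (m * y * m⁻¹) = k m * x * (k m)⁻¹ then F (m * y * m⁻¹) else 0
  rw [hF, map_mul, map_mul, map_inv]
  by_cases h : k y = x
  · rw [if_pos h, if_pos (by rw [h])]
  · rw [if_neg h, if_neg]
    intro h'
    exact h (mul_left_cancel (mul_right_cancel h'))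

theorem pu_int {F : Y → ℂ} (hi : ∀ x, IsIntegral ℤ (F x)) (x : G) :
    IsIntegral ℤ (pu k F x) := by
  classical
  unfold pu
  refine IsIntegral.sum _ fun y _ => ?_
  by_cases h : k y = x
  · rw [if_pos h]
    exact hi y
  · rw [if_neg h]
    exact isIntegral_zero

end Pu

/-! ### The central function -/

section Cg

variable {L : Type} [Group L] [Fintype L]

theorem cjT_top (x g : L) : cjT ⊤ x g = conjInd x g := by
  classical
  unfold cjT conjInd
  by_cases h : IsConj x g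
  · rw [if_pos h, if_pos]
    obtain ⟨c, hc⟩ := isConj_iff.mp h.symm
    exact ⟨c, Subgroup.mem_top c, hc.symm⟩
  · rw [if_neg h, if_neg]
    rintro ⟨t, -, ht⟩
    apply h
    rw [ht]
    exact (isConj_iff.mpr ⟨t, rfl⟩).symm

theorem wS_sum {S : Subgroup L} {θ F : L → ℂ} (h : ∀ x, x ∉ S → θ x = 0) :
    wS S θ F = (∑ x, F x * θ x) / θ 1 := by
  unfold wS wt
  have h1 : ∑ y : S, F y * θ y = ∑ x, F x * θ x := by
    refine Fintype.sum_of_injective (fun y : S => (y : L)) Subtype.val_injective _ _ ?_ ?_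
    · intro x hx
      rw [h x, mul_zero]
      intro hx'
      exact hx ⟨⟨x, hx'⟩, rfl⟩
    · intro y
      rfl
  rw [h1]
  rfl

theorem cgT_eq (𝔐 : Ideal (integralClosure ℤ ℂ)) {S : Subgroup L} {θ : L → ℂ}
    (h : ∀ x, x ∉ S → θ x = 0) (g : L) :
    cgT 𝔐 ⊤ θ g = red 𝔐 (wS S θ (fun x => conjInd x g)) := by
  rw [wS_sum h]
  unfold cgT
  simp only [cjT_top]

end Cg

/-! ### The Sylow subgroup of the kernel -/

section Ker

variable {L K G : Type} [Group L] [Finite L] [Group K] [Group G] {ℓ : ℕ} [hℓp : Fact ℓ.Prime]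
  {π : L →* K} {k : L →* G}

theorem val_ker (hker : ∀ x, k x = 1 ↔ π x = 1 ∧ ∃ n : ℕ, x ^ ℓ ^ n = 1) :
    padicValNat ℓ (Nat.card k.ker) = padicValNat ℓ (Nat.card π.ker) := by
  have hle : k.ker ≤ π.ker := fun x hx => ((hker x).1 hx).1
  have hn : (k.ker.subgroupOf π.ker).Normal := inferInstance
  have h1 := Subgroup.card_mul_index (k.ker.subgroupOf π.ker)
  have h2 : Nat.card (k.ker.subgroupOf π.ker) = Nat.card k.ker :=
    Nat.card_congr (Subgroup.subgroupOfEquivOfLe hle).toEquiv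
  have h3 : ¬ ℓ ∣ (k.ker.subgroupOf π.ker).index := by
    intro hd
    rw [Subgroup.index_eq_card] at hd
    obtain ⟨x, hx⟩ := exists_prime_orderOf_dvd_card' ℓ hd
    obtain ⟨u, rfl⟩ := QuotientGroup.mk_surjective x
    have h4 : ((u : ↥π.ker ⧸ k.ker.subgroupOf π.ker)) ^ ℓ = 1 := by
      rw [← hx]
      exact pow_orderOf_eq_one _
    rw [← QuotientGroup.mk_pow, QuotientGroup.eq_one_iff, Subgroup.mem_subgroupOf] at h4
    obtain ⟨-, n, hn'⟩ := (hker _).1 (MonoidHom.mem_ker.mp h4)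
    have h5 : (u : ↥π.ker ⧸ k.ker.subgroupOf π.ker) = 1 := by
      rw [QuotientGroup.eq_one_iff, Subgroup.mem_subgroupOf]
      refine (hker _).2 ⟨u.2, n + 1, ?_⟩
      rw [pow_succ', pow_mul]
      exact hn'
    rw [h5, orderOf_one] at hx
    exact hℓp.out.one_lt.ne hx
  rw [← h1, h2, padicValNat.mul Nat.card_pos.ne' Subgroup.index_ne_zero_of_finite,
    padicValNat.eq_zero_of_not_dvd h3, add_zero]

/-- A lift of an `ℓ`-subgroup to an `ℓ`-subgroup. -/
theorem lift_pg (hπ : Function.Surjective π) {R : Subgroup K} [Finite K] (hR : IsPGroup ℓ R) :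
    ∃ P : Subgroup L, IsPGroup ℓ P ∧ P.map π = R := by
  obtain ⟨P0⟩ : Nonempty (Sylow ℓ ↥(R.comap π)) := inferInstance
  let p : ↥(R.comap π) →* ↥R := π.subgroupComap R
  have hp : Function.Surjective p := π.subgroupComap_surjective_of_surjective R hπ
  have h1 : ((P0 : Subgroup ↥(R.comap π)).map p).index ∣ (P0 : Subgroup ↥(R.comap π)).index :=
    Subgroup.index_map_dvd _ hp
  have h2 : ¬ ℓ ∣ (P0 : Subgroup ↥(R.comap π)).index := P0.not_dvd_index
  obtain ⟨n, hn⟩ := IsPGroup.iff_card.mp hR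
  have h3 : ((P0 : Subgroup ↥(R.comap π)).map p).index ∣ ℓ ^ n := by
    rw [← hn]
    exact Subgroup.index_dvd_card _
  have h4 : (P0 : Subgroup ↥(R.comap π)).map p = ⊤ := by
    rw [← Subgroup.index_eq_one]
    obtain ⟨m, -, hm⟩ := (Nat.dvd_prime_pow hℓp.out).mp h3
    rcases Nat.eq_zero_or_pos m with h0 | h0
    · rw [hm, h0, pow_zero]
    · exfalso
      apply h2
      refine dvd_trans ?_ h1
      rw [hm]
      exact dvd_pow_self ℓ h0.ne'
  refine ⟨(P0 : Subgroup ↥(R.comap π)).map (R.comap π).subtype, P0.isPGroup'.map _, ?_⟩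
  ext r
  constructor
  · rintro ⟨x, ⟨y, hy, rfl⟩, rfl⟩
    exact y.2
  · intro hr
    have h5 : (⟨r, hr⟩ : R) ∈ (P0 : Subgroup ↥(R.comap π)).map p := by
      rw [h4]
      exact Subgroup.mem_top _
    obtain ⟨y, hy, hy'⟩ := h5
    exact ⟨y, ⟨y, hy, rfl⟩, congrArg Subtype.val hy'⟩

end Ker

/-! ### The main step -/

section Core

variable {L K G : Type} [Group L] [Fintype L] [Group K] [Fintype K] [Group G] [Fintype G]
  {𝔐 : Ideal (integralClosure ℤ ℂ)} {ℓ : ℕ} [hℓp : Fact ℓ.Prime] {π : L →* K} {k : L →* G}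

theorem fc (hc : π.ker ≤ Subgroup.center L)
    (hker : ∀ x, k x = 1 ↔ π x = 1 ∧ ∃ n : ℕ, x ^ ℓ ^ n = 1) : FC ℓ k where
  cen := fun x hx => hc ((hker x).1 hx).1
  pg := by
    rintro ⟨x, hx⟩
    obtain ⟨-, n, hn⟩ := (hker x).1 hx
    exact ⟨n, Subtype.ext hn⟩

theorem mem_cN_iff (hc : π.ker ≤ Subgroup.center L)
    (hker : ∀ x, k x = 1 ↔ π x = 1 ∧ ∃ n : ℕ, x ^ ℓ ^ n = 1) {M R : Subgroup K}
    {P : Subgroup L} (hP : IsPGroup ℓ P) (hPR : P.map π = R) :
    (cN ((M.comap π).map k) (P.map k)).comap k = (cN M R).comap π := by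
  have hkle : k.ker ≤ M.comap π := by
    intro x hx
    rw [Subgroup.mem_comap, ((hker x).1 hx).1]
    exact M.one_mem
  have hN : ((M.comap π).map k).comap k = M.comap π := Subgroup.comap_map_eq_self hkle
  ext m
  rw [Subgroup.mem_comap, Subgroup.mem_comap]
  unfold Pool.Agent.DP.cN
  rw [Subgroup.mem_inf, Subgroup.mem_inf, Subgroup.mem_centralizer_iff,
    Subgroup.mem_centralizer_iff, ← Subgroup.mem_comap, hN, Subgroup.mem_comap]
  refine and_congr_right fun _ => ?_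
  constructor
  · intro h r hr
    rw [← hPR] at hr
    obtain ⟨p, hp, rfl⟩ := hr
    have h1 := h (k p) ⟨p, hp, rfl⟩
    have h2 : k (p * m * p⁻¹ * m⁻¹) = 1 := by
      rw [map_mul, map_mul, map_mul, map_inv, map_inv, h1]
      group
    have h3 := ((hker _).1 h2).1
    rw [map_mul, map_mul, map_mul, map_inv, map_inv, mul_inv_eq_one, mul_inv_eq_iff_eq_mul] at h3
    exact h3
  · intro h y hy
    obtain ⟨p, hp, rfl⟩ := hy
    have h1 : π p * π m = π m * π p := by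
      apply h
      rw [← hPR]
      exact ⟨p, hp, rfl⟩
    obtain ⟨n, hn⟩ := hP ⟨p, hp⟩
    have hn' : p ^ ℓ ^ n = 1 := congrArg Subtype.val hn
    have hu : π (m * p * m⁻¹ * p⁻¹) = 1 := by
      rw [map_mul, map_mul, map_mul, map_inv, map_inv, ← h1]
      group
    have hcom : Commute (m * p * m⁻¹ * p⁻¹) p :=
      (Subgroup.mem_center_iff.mp (hc (MonoidHom.mem_ker.mpr hu)) p).symm
    have h2 : (m * p * m⁻¹) ^ ℓ ^ n = 1 := by
      rw [conj_pow, hn', mul_one, mul_inv_cancel]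
    have h3 : m * p * m⁻¹ * p⁻¹ * p = m * p * m⁻¹ := inv_mul_cancel_right _ p
    have h4 : (m * p * m⁻¹ * p⁻¹) ^ ℓ ^ n = 1 := by
      have h5 := hcom.mul_pow (ℓ ^ n)
      rw [h3, h2, hn', mul_one] at h5
      exact h5.symm
    have h6 : k (m * p * m⁻¹ * p⁻¹) = 1 := (hker _).2 ⟨hu, n, h4⟩
    rw [map_mul, map_mul, map_mul, map_inv, map_inv, mul_inv_eq_one, mul_inv_eq_iff_eq_mul] at h6
    exact h6.symm

theorem core (h1 : Stmt_MLE) (h2 : Stmt_MLV) (h3 : Stmt_DGSB) (hM : 𝔐.IsMaximal)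
    (hℓ : (ℓ : integralClosure ℤ ℂ) ∈ 𝔐) (hπ : Function.Surjective π)
    (hc : π.ker ≤ Subgroup.center L) (μ : π.ker →* ℂˣ) (M R : Subgroup K) (hMn : M.Normal)
    (hR : IsPGroup ℓ R) (θ' : L → ℂ)
    (hθ' : ID ℓ ((cN M R).comap π) (padicValNat ℓ (Nat.card π.ker)) θ') (hov : OvK π μ θ')
    (hk : Function.Surjective k)
    (hker : ∀ x, k x = 1 ↔ π x = 1 ∧ ∃ n : ℕ, x ^ ℓ ^ n = 1) :
    ∃ θ : L → ℂ, ID ℓ (M.comap π) (padicValNat ℓ (Nat.card π.ker)) θ ∧ OvK π μ θ ∧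
      ∀ g, cgT 𝔐 ⊤ θ g = cgT 𝔐 ⊤ θ' g := by
  classical
  have hFC : FC ℓ k := fc hc hker
  have hv := val_ker (ℓ := ℓ) hker
  have hle : k.ker ≤ π.ker := fun x hx => ((hker x).1 hx).1
  have hkle : k.ker ≤ M.comap π := by
    intro x hx
    rw [Subgroup.mem_comap, ((hker x).1 hx).1]
    exact M.one_mem
  obtain ⟨P, hP, hPR⟩ := lift_pg (ℓ := ℓ) hπ hR
  have hC := mem_cN_iff (ℓ := ℓ) (M := M) hc hker hP hPR
  have hN : ((M.comap π).map k).comap k = M.comap π := Subgroup.comap_map_eq_self hkle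
  have hNn : ((M.comap π).map k).Normal := (hMn.comap π).map k hk
  let lam : k.ker →* ℂˣ := μ.comp (Subgroup.inclusion hle)
  have hov' : OvK k lam θ' := fun z y => hov ⟨z, hle z.2⟩ y
  have htop : ∀ C : Subgroup G, C ≤ k.range := by
    intro C
    rw [MonoidHom.range_eq_top.mpr hk]
    exact le_top
  obtain ⟨θ₁, hθ₁, hML₁⟩ := (h1 L G 𝔐 ℓ hM hℓ k hFC lam
    (cN ((M.comap π).map k) (P.map k)) (htop _)).2 θ' (by rw [hC, hv]; exact hθ') hov'
  obtain ⟨θ₂, hθ₂, hDG⟩ := (h3 G 𝔐 ℓ hM hℓ ((M.comap π).map k) (P.map k) (hP.map k)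
    (fun r _ n hn => hNn.conj_mem n hn r)).1 θ₁ hθ₁
  obtain ⟨⟨θ, hML⟩, -, hID, -⟩ := (h1 L G 𝔐 ℓ hM hℓ k hFC lam ((M.comap π).map k)
    (htop _)).1 θ₂ hθ₂
  have hθ := hID θ hML
  rw [hN, hv] at hθ
  have hF : ∀ F : L → ℂ, (∀ g x, F (g * x * g⁻¹) = F x) → (∀ x, IsIntegral ℤ (F x)) →
      red 𝔐 (wS (M.comap π) θ F) = red 𝔐 (wS ((cN M R).comap π) θ' F) := by
    intro F hF hi
    have e1 := (h2 L G 𝔐 ℓ hM hℓ k hFC lam ((M.comap π).map k) (htop _) θ₂ θ hθ₂ hML).1 F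
      (fun n _ x _ => hF n x) hi
    have e2 := (h2 L G 𝔐 ℓ hM hℓ k hFC lam (cN ((M.comap π).map k) (P.map k)) (htop _)
      θ₁ θ' hθ₁ hML₁).1 F (fun n _ x _ => hF n x) hi
    have e3 := hDG (pu k F) (fun n _ x _ => pu_class hk hF n x)
      (fun r _ x _ => pu_class hk hF r x) (pu_int hi)
    rw [hN] at e1
    rw [hC] at e2
    rw [e1, e2, e3]
  have hcg : ∀ g, cgT 𝔐 ⊤ θ g = cgT 𝔐 ⊤ θ' g := by
    intro g
    rw [cgT_eq 𝔐 hθ.1.2 g, cgT_eq 𝔐 hθ'.1.2 g]
    exact hF _ (fun h x => conjInd_conj h x g) (fun x => isIntegral_conjInd x g)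
  refine ⟨θ, hθ, ?_, hcg⟩
  -- the central character
  have hUM : π.ker ≤ M.comap π := by
    intro x hx
    rw [Subgroup.mem_comap, MonoidHom.mem_ker.mp hx]
    exact M.one_mem
  have hUC : π.ker ≤ (cN M R).comap π := by
    intro x hx
    rw [Subgroup.mem_comap, MonoidHom.mem_ker.mp hx]
    exact (cN M R).one_mem
  obtain ⟨ν, hν⟩ := ISOL.exists_lin hc hUM hθ.1.1
  obtain ⟨ν', hν'⟩ := ISOL.exists_lin hc hUC hθ'.1.1
  have hθ1 : θ 1 ≠ 0 := hθ.1.1.one_ne_zero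
  have hθ1' : θ' 1 ≠ 0 := hθ'.1.1.one_ne_zero
  have hνθ : ∀ (u : π.ker) (y : L), θ (u * y) = ((ν u : ℂˣ) : ℂ) * θ y := by
    intro u y
    by_cases hy : y ∈ M.comap π
    · exact ISOL.lin_apply hUM hν u ⟨y, hy⟩
    · rw [hθ.1.2 y hy, mul_zero]
      apply hθ.1.2
      intro h
      exact hy (((M.comap π).mul_mem_cancel_left (hUM u.2)).1 h)
  have hμν' : ∀ u : π.ker, ν' u = μ u := by
    intro u
    have e1 := ISOL.lin_apply hUC hν' u 1
    have e2 := hov u 1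
    have e3 : θ' ((u : L) * 1) = ((ν' u : ℂˣ) : ℂ) * θ' 1 := e1
    rw [e3] at e2
    exact Units.ext (mul_right_cancel₀ hθ1' e2)
  have hred : ∀ u : π.ker, red 𝔐 ((ν u : ℂˣ) : ℂ) = red 𝔐 ((μ u : ℂˣ) : ℂ) := by
    intro u
    have e1 := ISOL.cen_apply 𝔐 hc hUM hθ.1.1 hν u
    have e2 := ISOL.cen_apply 𝔐 hc hUC hθ'.1.1 hν' u
    rw [hμν' u] at e2
    rw [← e1, ← e2]
    have e3 := hcg u
    rw [cgT_eq 𝔐 hθ.1.2 (u : L), cgT_eq 𝔐 hθ'.1.2 (u : L)] at e3
    exact e3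
  have hlam : ∀ u : π.ker, (u : L) ∈ k.ker → ν u = μ u := by
    intro u hu
    have e1 := hνθ u 1
    have e2 : θ ((u : L) * 1) = ((lam ⟨u, hu⟩ : ℂˣ) : ℂ) * θ 1 := hML.2.1 ⟨u, hu⟩ 1
    rw [e1] at e2
    exact Units.ext (mul_right_cancel₀ hθ1 e2)
  have hint : ∀ (w : ℂˣ) (n : ℕ), 0 < n → w ^ n = 1 → IsIntegral ℤ (w : ℂ) := by
    intro w n hn hw
    apply IsIntegral.of_pow hn
    rw [← Units.val_pow_eq_pow_val, hw]
    exact isIntegral_one
  have heq : ∀ u : π.ker, ν u = μ u := by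
    intro u
    have hn0 : orderOf u ≠ 0 := (orderOf_pos u).ne'
    obtain ⟨a, m, hm, hnm⟩ := Nat.exists_eq_pow_mul_and_not_dvd hn0 ℓ hℓp.out.ne_one
    have hum : ((u ^ m : π.ker) : L) ∈ k.ker := by
      refine (hker _).2 ⟨(u ^ m).2, a, ?_⟩
      rw [← Subgroup.coe_pow, ← pow_mul, mul_comm, ← hnm, pow_orderOf_eq_one]
      rfl
    have e1 := hlam (u ^ m) hum
    rw [map_pow, map_pow] at e1
    have e2 : (ν u * (μ u)⁻¹) ^ m = 1 := by
      rw [mul_pow, e1, inv_pow, mul_inv_cancel]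
    have i1 : IsIntegral ℤ ((ν u : ℂˣ) : ℂ) :=
      hint _ _ (orderOf_pos u) (by rw [← map_pow, pow_orderOf_eq_one, map_one])
    have i2 : IsIntegral ℤ ((μ u : ℂˣ) : ℂ) :=
      hint _ _ (orderOf_pos u) (by rw [← map_pow, pow_orderOf_eq_one, map_one])
    have i3 : IsIntegral ℤ (((μ u)⁻¹ : ℂˣ) : ℂ) :=
      hint _ _ (orderOf_pos u) (by rw [inv_pow, ← map_pow, pow_orderOf_eq_one, map_one, inv_one])
    have e3 : red 𝔐 (((ν u * (μ u)⁻¹ : ℂˣ)) : ℂ) = 1 := by
      rw [Units.val_mul, red_mul 𝔐 i1 i3, hred u, ← red_mul 𝔐 i2 i3, Units.mul_inv, red_one]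
    have e4 : ((ν u * (μ u)⁻¹ : ℂˣ) : ℂ) = 1 := by
      refine ISOL.eq_one_of_red hM hℓ (m := m) ?_ hm e3
      rw [← Units.val_pow_eq_pow_val, e2, Units.val_one]
    have e5 : ν u * (μ u)⁻¹ = 1 := Units.ext e4
    exact mul_inv_eq_one.mp e5
  intro u y
  rw [hνθ u y, heq u]

end Core

end DGM

theorem DGM_thm (h1 : Stmt_MLE) (h2 : Stmt_MLV) (h3 : Stmt_DGSB) : Stmt_DGM := by
  intro L K _ _ _ _ 𝔐 ℓ hℓp hM hℓ π hπ hc μ M R hMn hR θ' hθ' hov
  classical
  have hcomm : ∀ x, π x = 1 → ∀ y, x * y = y * x := fun x hx y =>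
    (Subgroup.mem_center_iff.mp (hc (MonoidHom.mem_ker.mpr hx)) y).symm
  let Z : Subgroup L :=
    { carrier := {x | π x = 1 ∧ ∃ n : ℕ, x ^ ℓ ^ n = 1}
      one_mem' := ⟨map_one π, 0, one_pow _⟩
      mul_mem' := by
        rintro x y ⟨hx, n, hn⟩ ⟨hy, m, hm⟩
        refine ⟨by rw [map_mul, hx, hy, one_mul], n + m, ?_⟩
        have h4 : Commute x y := hcomm x hx y
        rw [h4.mul_pow, pow_add, pow_mul, hn, one_pow, one_mul, mul_comm (ℓ ^ n), pow_mul, hm,
          one_pow]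
      inv_mem' := by
        rintro x ⟨hx, n, hn⟩
        exact ⟨by rw [map_inv, hx, inv_one], n, by rw [inv_pow, hn, inv_one]⟩ }
  have hZn : Z.Normal := by
    constructor
    intro x hx g
    have h4 : g * x * g⁻¹ = x := by
      rw [← hcomm x hx.1 g, mul_inv_cancel_right]
    rw [h4]
    exact hx
  let _ : Fintype (L ⧸ Z) := Fintype.ofFinite _
  refine DGM.core (k := QuotientGroup.mk' Z) h1 h2 h3 hM hℓ hπ hc μ M R hMn hR θ' hθ' hov
    (QuotientGroup.mk'_surjective Z) ?_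
  intro x
  rw [QuotientGroup.mk'_apply, QuotientGroup.eq_one_iff]
  exact Iff.rfl

end Pool.Agent.DPT


end

section

/-!
# STBr: the blocks of the normal subgroups of a minimal counterexample are stable (for the groups
of a class)
-/

namespace Pool.Agent.DPK

open Pool.Agent.DP Pool.Agent.DPC Pool.Agent.DPM Pool.Agent.DPN Pool.Agent.DPT
open Pool.Agent.Lib_helper13
open Representation
open Pool.Agent.Lib_helper13.Dade (pCore DadeHolds dadeSum)

open Pool.Agent.DPT.STB in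
theorem STBr_thm (Cl : ∀ (Y : Type) [Group Y], Prop) (hC : GC Cl) (h1 : Stmt_STC)
    (h2 : Stmt_DKVr Cl) : Stmt_STBr Cl := by
  classical
  intro X _ _ 𝔐 ℓ _ hM hl n hX hn hidx Z N hZ hZp hN d hd ω hKK ξ hξ hω
  by_contra hne
  apply hKK
  have hpos : (Nat.card (sx (cgT 𝔐 N ξ)) : ℚ) ≠ 0 := by
    exact_mod_cast (Nat.card_pos (α := ↥(sx (cgT 𝔐 N ξ)))).ne'
  refine (mul_eq_zero.mp ?_).resolve_left hpos
  rw [KK, Finset.mul_sum]
  have hterm : ∀ σ ∈ Ch ℓ Z, (Nat.card (sx (cgT 𝔐 N ξ)) : ℚ) *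
      ((-1 : ℚ) ^ σ.card * ((Nat.card (stb σ) : ℚ) * cnt 𝔐 ℓ d (stb σ).subtype ω)) =
      (-1 : ℚ) ^ σ.card * ((Nat.card (sx (cgT 𝔐 N ξ)) : ℚ) * ((Nat.card (stb σ) : ℚ) *
        Nat.card {ψ : X → ℂ // ID ℓ (stb σ) d ψ ∧ cgT 𝔐 ⊤ ψ = ω})) := by
    intro σ _
    rw [cnt_eq, mul_left_comm]
  rw [Finset.sum_congr rfl hterm]
  have hterm2 : ∀ σ ∈ Ch ℓ Z, _ = _ := fun σ hσ =>
    congrArg (fun q : ℚ => (-1 : ℚ) ^ σ.card * q)
      (h1 X 𝔐 ℓ hM hl Z N hZ hN ω ξ hξ hω σ (mem_Ch.mp hσ) d)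
  rw [Finset.sum_congr rfl hterm2]
  simp only [Finset.mul_sum]
  rw [Finset.sum_comm]
  apply Finset.sum_eq_zero
  intro g _
  have hcY : Subgroup.center X ≤ sx (cgT 𝔐 N (fun x => ξ (g * x * g⁻¹))) := center_le_sx _
  have hY : sx (cgT 𝔐 N (fun x => ξ (g * x * g⁻¹))) ≠ ⊤ := fun h => hne (sx_top 𝔐 ξ g h)
  have hs := sum_eq 𝔐 ℓ d Z (sx (cgT 𝔐 N (fun x => ξ (g * x * g⁻¹)))) N (hZ.trans hcY) ω
    (cgT 𝔐 (sx (cgT 𝔐 N (fun x => ξ (g * x * g⁻¹)))) (fun x => ξ (g * x * g⁻¹)))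
  refine Eq.trans ?_ (hs.trans ?_)
  · refine Finset.sum_congr rfl fun σ _ => ?_
    congr 1
  · refine h2 _ _ 𝔐 ℓ hM hl n (hC.sub hX _) hn (index_le hcY hY hidx) _ ?_ ?_ d ?_ _ _
    · intro y hy
      rw [Subgroup.mem_center_iff]
      intro x
      apply Subtype.ext
      exact Subgroup.mem_center_iff.mp (hZ (Subgroup.mem_subgroupOf.mp hy)) (x : X)
    · exact hZp.of_injective
        ((Subgroup.subgroupOfEquivOfLe (hZ.trans hcY)).toMonoidHom)
        (Subgroup.subgroupOfEquivOfLe (hZ.trans hcY)).injective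
    · rw [Nat.card_congr (Subgroup.subgroupOfEquivOfLe (hZ.trans hcY)).toEquiv]
      exact hd

end Pool.Agent.DPK


end

section

/-!
# KBB: at most one irreducible representation of the local block occurs
-/

namespace Pool.Agent.DPW

open Pool.Agent.DPB Pool.Agent.Lib_helper13 Representation

open Pool.Agent.DPB.KB in
/-- KBB: at most one irreducible representation of the local block occurs. -/
theorem KBB_thm (h1 : Stmt_BKN) (h2 : Stmt_RPRB) (h3 : Stmt_EXTB) (h4 : Stmt_TRFB) :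
    Stmt_KBB := by
  intro ℓ _ F T V W W' _ _ _ _ _ _ _ _ _ _ _ _ _ _ P _ x₀ e hB ρ σ σ' hρ hσ hσ' hz hz' hE hE'
  by_contra hne
  set P' : Subgroup (NP P) := P.subgroupOf (Subgroup.normalizer (P : Set T)) with hP'
  have hnorm : P'.Normal := Subgroup.normal_in_normalizer
  have hcard : Nat.card P' = ℓ := by
    rw [← hB.card]
    exact Nat.card_congr (Subgroup.subgroupOfEquivOfLe Subgroup.le_normalizer).toEquiv
  have hx : x₀ ∈ Subgroup.normalizer (P : Set T) := by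
    rw [Subgroup.mem_normalizer_iff]
    intro u
    have key : ∀ v ∈ P, x₀ * v * x₀⁻¹ = v := by
      intro v hv
      rw [← hB.cen v hv, mul_assoc, mul_inv_cancel, mul_one]
    constructor
    · intro hu
      rw [key u hu]
      exact hu
    · intro hu
      have h := key _ hu
      have e1 : x₀ * u * x₀⁻¹ = u := by
        have e2 : x₀ * (x₀ * u * x₀⁻¹) * x₀⁻¹ = x₀ * u * x₀⁻¹ := h
        exact mul_left_cancel (a := x₀) (mul_right_cancel (b := x₀⁻¹) e2)
      rw [e1] at hu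
      exact hu
  obtain ⟨j, hj, wj, hwj⟩ := hE
  obtain ⟨j', hj', wj', hwj'⟩ := hE'
  have htN : tN P' (rN P ρ) = tN P ρ := tN_norm P ρ
  have ejj : Eqv σ (rN P ρ) j := fun n w => hj n w
  have ejj' : Eqv σ' (rN P ρ) j' := fun n w => hj' n w
  have hσP : ∀ p ∈ P', σ p = 1 := PTR_thm ℓ F (NP P) W σ P' hcard hσ
  have hσP' : ∀ p ∈ P', σ' p = 1 := PTR_thm ℓ F (NP P) W' σ' P' hcard hσ'
  have hfix : ∀ w, ∀ p ∈ P, ρ p (j w) = j w := by
    intro w p hp
    have := hj ⟨p, Subgroup.le_normalizer hp⟩ w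
    rw [hσP ⟨p, Subgroup.le_normalizer hp⟩ (by rw [hP', Subgroup.mem_subgroupOf]; exact hp)] at this
    exact this.symm
  have hfix' : ∀ w, ∀ p ∈ P, ρ p (j' w) = j' w := by
    intro w p hp
    have := hj' ⟨p, Subgroup.le_normalizer hp⟩ w
    rw [hσP' ⟨p, Subgroup.le_normalizer hp⟩ (by rw [hP', Subgroup.mem_subgroupOf]; exact hp)] at this
    exact this.symm
  have hBN := h1 ℓ F T P x₀ e hB hx
  obtain ⟨α, -, hα⟩ := h2 ℓ F (NP P) W P' ⟨x₀, hx⟩ (brz P e) hBN σ hz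
  have key : ∃ f : V →ₗ[F] V, (∀ p ∈ P', ∀ v, f (rN P ρ p v) = rN P ρ p (f v)) ∧
      (∀ w, trC P' (rN P ρ) (rN P ρ) f (j w) = j w) ∧
      ∀ (W2 : Type) [AddCommGroup W2] [Module F W2] (τ : Representation F (NP P) W2)
        (k : W2 →ₗ[F] V), Eqv τ (rN P ρ) k → (∀ p ∈ P', τ p = 1) →
        (∀ g : W2 →ₗ[F] W, Eqv τ σ g → g = 0) →
          ∀ w, trC P' (rN P ρ) (rN P ρ) f (k w) = 0 := by
    have hr : ∃ w, j w ∉ LinearMap.range (tN P' (rN P ρ)) := ⟨wj, by rw [htN]; exact hwj⟩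
    rcases h3 ℓ F (NP P) V V W (rN P ρ) (rN P ρ) σ P' hcard hσ α hα j j ejj ejj hr hr with h | h
    · exact h
    · exact h
  obtain ⟨f, hf, hfj, hfk⟩ := key
  have hfj' : ∀ w, trC P' (rN P ρ) (rN P ρ) f (j' w) = 0 := by
    refine hfk W' σ' j' ejj' hσP' ?_
    intro g hg
    exact eqv_zero σ' σ hσ' hσ (fun e => hne e.symm) g hg
  have hfP : ∀ p ∈ P, ∀ v, f (ρ p v) = ρ p (f v) := by
    intro p hp v
    exact hf ⟨p, Subgroup.le_normalizer hp⟩ (by rw [hP', Subgroup.mem_subgroupOf]; exact hp) v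
  obtain ⟨hf', hff⟩ := h4 ℓ F T V V ρ ρ P hB.card f hfP
  obtain ⟨c, hc⟩ := exists_scalar ρ hρ _ hf'
  have hc1 : c = 1 := by
    by_contra hc1
    apply hwj
    have := hff (j wj) (hfix wj)
    rw [hfj, hc] at this
    have e : (c - 1) • j wj ∈ LinearMap.range (tN P ρ) := by
      rw [sub_smul, one_smul]
      exact this
    have e2 := (LinearMap.range (tN P ρ)).smul_mem (c - 1)⁻¹ e
    rwa [smul_smul, inv_mul_cancel₀ (sub_ne_zero.2 hc1), one_smul] at e2
  apply hwj'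
  have := hff (j' wj') (hfix' wj')
  rw [hfj', hc, hc1, one_smul, sub_zero] at this
  exact this

end Pool.Agent.DPW


end

section

/-!
# Theorem X, module NPRX: the irreducible representations in `e` are not projective
-/

set_option autoImplicit false

namespace Pool.Agent.DPX

open Pool.Agent.DPB Pool.Agent.DPW Pool.Agent.Lib_helper13 Representation

namespace NPRX

section alg

variable {F T : Type} [Field F] [Group T] [Fintype T]

theorem cvF_assoc (a b c : T → F) : cvF (cvF a b) c = cvF a (cvF b c) := by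
  apply IDMB.Lz_inj
  rw [IDMB.Lz_cvF, IDMB.Lz_cvF, IDMB.Lz_cvF, IDMB.Lz_cvF, mul_assoc]

variable {V : Type} [AddCommGroup V] [Module F V]

theorem zop_cvp (ρ : Representation F T V) (z : T → F) (hz : Zop ρ z = 1) (k : ℕ) :
    Zop ρ (cvp z k) = 1 := by
  classical
  induction k with
  | zero =>
    show Zop ρ (Pi.single 1 1) = 1
    unfold Zop
    rw [Finset.sum_eq_single 1]
    · rw [Pi.single_eq_same, one_smul, map_one]
    · intro b _ hb
      rw [Pi.single_eq_of_ne hb, zero_smul]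
    · intro h
      exact absurd (Finset.mem_univ _) h
  | succ k ih =>
    show Zop ρ (cvF (cvp z k) z) = 1
    rw [RPRB.zop_cvF, ih, hz, mul_one]

/-- The class function of a trace vanishes at the elements centralized by an element of order
`ℓ`. -/
theorem van (ℓ : ℕ) [Fact ℓ.Prime] [CharP F ℓ] (b : T → F) (g u : T) (hu : u ≠ 1)
    (hul : u ^ ℓ = 1) (hug : u * g = g * u) : ∑ t, b (t⁻¹ * g * t) = 0 := by
  classical
  have hord : IsPGroup ℓ (Subgroup.zpowers u) := by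
    intro y
    refine ⟨1, ?_⟩
    obtain ⟨n, hn'⟩ := Subgroup.mem_zpowers_iff.1 y.2
    apply Subtype.ext
    rw [pow_one, Subgroup.coe_pow, ← hn', ← zpow_natCast, ← zpow_mul, mul_comm n, zpow_mul,
      zpow_natCast, hul, one_zpow]
    rfl
  have h2 := sum_eq_sum_fixed (X := T) hord (M := F) (fun m => by
    rw [← Nat.cast_smul_eq_nsmul F, CharP.cast_eq_zero F ℓ, zero_smul])
    (fun t => b (t⁻¹ * g * t)) (by
      intro q t
      have hcomm : (q : T) * g = g * (q : T) := by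
        obtain ⟨n, hn'⟩ := Subgroup.mem_zpowers_iff.1 q.2
        rw [← hn']
        have : Commute u g := hug
        exact (this.zpow_left n).eq
      have h3 : ((q • t : T))⁻¹ * g * (q • t) = t⁻¹ * g * t := by
        change ((q : T) * t)⁻¹ * g * ((q : T) * t) = t⁻¹ * g * t
        have h4 : (q : T)⁻¹ * g * (q : T) = g := by
          rw [mul_assoc, ← hcomm, ← mul_assoc, inv_mul_cancel, one_mul]
        calc ((q : T) * t)⁻¹ * g * ((q : T) * t) = t⁻¹ * ((q : T)⁻¹ * g * (q : T)) * t := by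
              group
          _ = t⁻¹ * g * t := by rw [h4]
      change b (((q • t : T))⁻¹ * g * (q • t)) = b (t⁻¹ * g * t)
      rw [h3])
  rw [h2]
  refine Finset.sum_eq_zero fun t ht => ?_
  exfalso
  have h5 := (Finset.mem_filter.1 ht).2 ⟨u, Subgroup.mem_zpowers u⟩
  have h6 : u * t = t := h5
  exact hu (mul_eq_right.1 h6)

/-- If a product of two class functions does not vanish at an element centralized by the
`ℓ`-group `Q`, then the first factor does not vanish at such an element. -/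
theorem sup (ℓ : ℕ) [Fact ℓ.Prime] [CharP F ℓ] {z w : T → F} (hz : z ∈ CF F T)
    (hw : w ∈ CF F T) (h : T) (hh : cvF z w h ≠ 0) (Q : Subgroup T) (hQ : IsPGroup ℓ Q)
    (hQh : ∀ u ∈ Q, u * h = h * u) : ∃ y, z y ≠ 0 ∧ ∀ u ∈ Q, u * y = y * u := by
  classical
  let _ : MulAction Q T :=
    { smul := fun q y => (q : T) * y * (q : T)⁻¹
      one_smul := by
        intro y
        change ((1 : Q) : T) * y * ((1 : Q) : T)⁻¹ = y
        simp
      mul_smul := by
        intro a b y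
        change ((a * b : Q) : T) * y * ((a * b : Q) : T)⁻¹ = a.1 * (b.1 * y * b.1⁻¹) * a.1⁻¹
        simp [mul_assoc] }
  have hsmul : ∀ (q : Q) (y : T), q • y = (q : T) * y * (q : T)⁻¹ := fun _ _ => rfl
  have hM : ∀ m : F, ℓ • m = 0 := by
    intro m
    rw [nsmul_eq_mul, CharP.cast_eq_zero, zero_mul]
  have hs : ∀ (q : Q) (y : T), z (q • y) * w ((q • y)⁻¹ * h) = z y * w (y⁻¹ * h) := by
    intro q y
    rw [hsmul, hz]
    have h1 : ((q : T) * y * (q : T)⁻¹)⁻¹ * h = (q : T) * (y⁻¹ * h) * (q : T)⁻¹ := by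
      have h2 : (q : T)⁻¹ * h = h * (q : T)⁻¹ := by
        rw [inv_mul_eq_iff_eq_mul, ← mul_assoc, hQh q q.2, mul_inv_cancel_right]
      calc ((q : T) * y * (q : T)⁻¹)⁻¹ * h = (q : T) * y⁻¹ * ((q : T)⁻¹ * h) := by group
        _ = (q : T) * (y⁻¹ * h) * (q : T)⁻¹ := by rw [h2]; group
    rw [h1, hw]
  change ∑ y, z y * w (y⁻¹ * h) ≠ 0 at hh
  rw [sum_eq_sum_fixed hQ hM (fun y => z y * w (y⁻¹ * h)) hs] at hh
  obtain ⟨y, hy, hy0⟩ := Finset.exists_ne_zero_of_sum_ne_zero hh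
  have hfix := (Finset.mem_filter.mp hy).2
  refine ⟨y, left_ne_zero_of_mul hy0, fun u hu => ?_⟩
  have h1 : u * y * u⁻¹ = y := hfix ⟨u, hu⟩
  exact mul_inv_eq_iff_eq_mul.mp h1

theorem zop_tr (ρ : Representation F T V) (b : T → F) :
    Zop ρ (fun g => ∑ t, b (t⁻¹ * g * t)) = ∑ t, ρ t * Zop ρ b * ρ t⁻¹ := by
  unfold Zop
  simp only [Finset.sum_smul, Finset.mul_sum, Finset.sum_mul]
  rw [Finset.sum_comm]
  refine Finset.sum_congr rfl fun t _ => ?_
  refine Fintype.sum_equiv (MulAut.conj t⁻¹).toEquiv _ _ fun g => ?_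
  have h8 : (MulAut.conj t⁻¹).toEquiv g = t⁻¹ * g * t := by
    simp
  rw [h8]
  rw [Algebra.mul_smul_comm, Algebra.smul_mul_assoc, ← map_mul, ← map_mul]
  congr 2
  group

/-- The irreducible representations in `e` are not projective. -/
theorem part_a (h4 : Stmt_LOCX) (ℓ n : ℕ) [Fact ℓ.Prime] [IsAlgClosed F] [CharP F ℓ]
    [Module.Finite F V] (P₁ P : Subgroup T) (x₀ : T) (e : T → F) (hB : BKX ℓ n P₁ P x₀ e)
    (hP : Prm e) (ρ : Representation F T V) (hirr : ρ.IsIrreducible) (he : Zop ρ e = 1) :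
    ¬ Prj ρ ρ 1 := by
  classical
  rintro ⟨g, hg⟩
  obtain ⟨b, hb⟩ := Pool.Agent.DPB.DEN_thm F T Unit (fun _ => V) (fun _ => ρ) (fun _ => hirr)
    (fun i j hij => absurd (Subsingleton.elim i j) hij) (fun _ => (g : Module.End F V))
  have hb := hb ()
  set z : T → F := fun g => ∑ t, b (t⁻¹ * g * t) with hz
  have hzc : z ∈ CF F T := by
    intro g x
    refine Fintype.sum_equiv (Equiv.mulLeft g⁻¹) _ _ fun t => ?_
    simp only [Equiv.coe_mulLeft]
    congr 1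
    group
  have hz1 : Zop ρ z = 1 := by
    rw [hz, zop_tr, hb, hg]
    unfold tr1
    exact Finset.sum_congr rfl fun t _ => mul_assoc _ _ _
  have hec := hB.cf
  have hez1 : Zop ρ (cvF e z) = 1 := by rw [RPRB.zop_cvF, he, hz1, mul_one]
  have hnt : Nontrivial V := by
    rcases subsingleton_or_nontrivial V with hV | hV
    · exfalso
      have h0 : e ∈ CF F T := hec
      have hs : Subsingleton (Subrepresentation ρ) := by
        refine ⟨fun a b => ?_⟩
        apply Subrepresentation.toSubmodule_injective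
        exact Subsingleton.elim _ _
      have h1 := hirr.exists_pair_ne
      obtain ⟨a, b, hab⟩ := h1
      exact hab (Subsingleton.elim a b)
    · exact hV
  rcases h4 F T e hP (cvF e z) (IDMB.cvF_mem hec hzc)
    (by rw [← cvF_assoc, hB.idem]) with ⟨k, hk⟩ | ⟨w, hw, hew, hzw⟩
  · have h1 := zop_cvp ρ _ hez1 k
    rw [hk] at h1
    have h2 : Zop ρ (0 : T → F) = 0 := by
      unfold Zop
      exact Finset.sum_eq_zero fun h _ => by rw [Pi.zero_apply, zero_smul]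
    rw [h2] at h1
    exact zero_ne_one h1
  · have h1 : cvF z w = e := by
      rw [← hew, ← cvF_assoc, IDMB.cvF_comm z hec]
      exact hzw
    obtain ⟨h, hh, hPh⟩ := hB.nz
    rw [← h1] at hh
    have hPl : IsPGroup ℓ P := IsPGroup.of_card hB.cd.card
    obtain ⟨y, hy, hPy⟩ := sup ℓ hzc hw h hh P hPl hPh
    have h2 : ∃ u ∈ P₁, u ≠ 1 := by
      by_contra h3
      push Not at h3
      have h4 : Nat.card P₁ = 1 := by
        rw [Subgroup.card_eq_one]
        exact (Subgroup.eq_bot_iff_forall _).2 h3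
      rw [hB.cd.c1] at h4
      exact (Fact.out : ℓ.Prime).one_lt.ne' h4
    obtain ⟨u, hu, hu1⟩ := h2
    have hul : u ^ ℓ = 1 := by
      have h3 : (⟨u, hu⟩ : P₁) ^ Nat.card P₁ = 1 := pow_card_eq_one'
      rw [hB.cd.c1] at h3
      exact congrArg Subtype.val h3
    exact hy (van ℓ b y u hu1 hul (hPy u (hB.cd.le hu)))

end alg

section traces

variable {F T V : Type} [Field F] [Group T] [Fintype T] [AddCommGroup V] [Module F V]

theorem trS_eq (P : Subgroup T) (ρ : Representation F T V) (f : V →ₗ[F] V) :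
    trS P ρ ρ f = Pool.Agent.DPB.NPJ.trP P ρ f := by
  unfold trS Pool.Agent.DPB.NPJ.trP
  refine Finset.sum_congr rfl fun h _ => ?_
  by_cases hh : h ∈ P
  · rw [if_pos hh, if_pos hh]
    exact (mul_assoc _ _ _).symm
  · rw [if_neg hh, if_neg hh]

theorem trS_add (P : Subgroup T) (ρ : Representation F T V) (f g : V →ₗ[F] V) :
    trS P ρ ρ (f + g) = trS P ρ ρ f + trS P ρ ρ g := by
  unfold trS
  rw [← Finset.sum_add_distrib]
  refine Finset.sum_congr rfl fun h _ => ?_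
  by_cases hh : h ∈ P
  · rw [if_pos hh, if_pos hh, if_pos hh, LinearMap.add_comp, LinearMap.comp_add]
  · rw [if_neg hh, if_neg hh, if_neg hh, add_zero]

/-- The trace is a trace over the subgroup `Q`. -/
theorem tr1_eq_trS (Q : Subgroup T) (ρ : Representation F T V) (f : V →ₗ[F] V) :
    ∃ g : V →ₗ[F] V, tr1 ρ ρ f = trS Q ρ ρ g := by
  classical
  let f' : Module.End F V := f
  let g : Module.End F V := ∑ q : T ⧸ Q, ρ q.out⁻¹ * f' * ρ q.out
  refine ⟨g, ?_⟩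
  have h0 : tr1 ρ ρ f = ∑ t : T, ρ t⁻¹ * f' * ρ t := by
    unfold tr1
    refine Fintype.sum_equiv (Equiv.inv T) _ _ fun t => ?_
    show ρ t * (f' * ρ t⁻¹) = ρ t⁻¹⁻¹ * f' * ρ t⁻¹
    rw [inv_inv, mul_assoc]
  have h1 : trS Q ρ ρ g = ∑ h : T, if h ∈ Q then ρ h⁻¹ * g * ρ h else 0 := by
    unfold trS
    refine Fintype.sum_equiv (Equiv.inv T) _ _ fun t => ?_
    have h2 : (Equiv.inv T) t ∈ Q ↔ t ∈ Q := Q.inv_mem_iff
    by_cases ht : t ∈ Q
    · rw [if_pos ht, if_pos (h2.2 ht)]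
      show ρ t * (g * ρ t⁻¹) = ρ t⁻¹⁻¹ * g * ρ t⁻¹
      rw [inv_inv, mul_assoc]
    · rw [if_neg ht, if_neg (fun h3 => ht (h2.1 h3))]
  rw [h0, h1]
  have h2 : ∀ h : T, (if h ∈ Q then ρ h⁻¹ * g * ρ h else 0) =
      ∑ q : T ⧸ Q, if h ∈ Q then ρ (q.out * h)⁻¹ * f' * ρ (q.out * h) else 0 := by
    intro h
    by_cases hh : h ∈ Q
    · simp only [if_pos hh]
      show ρ h⁻¹ * (∑ q : T ⧸ Q, ρ q.out⁻¹ * f' * ρ q.out) * ρ h = _
      rw [Finset.mul_sum, Finset.sum_mul]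
      refine Finset.sum_congr rfl fun q _ => ?_
      rw [mul_inv_rev, map_mul, map_mul]
      simp only [mul_assoc]
    · simp only [if_neg hh, Finset.sum_const_zero]
  rw [Finset.sum_congr rfl fun h _ => h2 h, Finset.sum_comm,
    ← Finset.sum_fiberwise Finset.univ (fun t : T => (t : T ⧸ Q))]
  refine Finset.sum_congr rfl fun q _ => ?_
  rw [Finset.sum_filter]
  refine (Fintype.sum_equiv (Equiv.mulLeft q.out) _ _ fun h => ?_).symm
  simp only [Equiv.coe_mulLeft]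
  have h3 : (((q.out * h : T)) : T ⧸ Q) = q ↔ h ∈ Q := by
    conv_lhs => rw [← QuotientGroup.out_eq' q]
    rw [eq_comm, QuotientGroup.eq]
    simp
  by_cases hh : h ∈ Q
  · rw [if_pos hh, if_pos (h3.2 hh)]
  · rw [if_neg hh, if_neg (fun h4 => hh (h3.1 h4))]

/-- The trace over a subgroup of the normalizer. -/
theorem trS_sub (P₁ P : Subgroup T) [Fintype (NP P₁)]
    (hle : P ≤ Subgroup.normalizer (P₁ : Set T)) (ρ : Representation F T V) (f : V →ₗ[F] V) :
    trS (P.subgroupOf (Subgroup.normalizer (P₁ : Set T))) (rN P₁ ρ) (rN P₁ ρ) f =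
      trS P ρ ρ f := by
  classical
  unfold trS
  have h1 : (∑ h : T, if h ∈ P then ρ h ∘ₗ f ∘ₗ ρ h⁻¹ else 0) =
      ∑ h ∈ Finset.univ.filter (fun h : T => h ∈ Subgroup.normalizer (P₁ : Set T)),
        if h ∈ P then ρ h ∘ₗ f ∘ₗ ρ h⁻¹ else 0 := by
    rw [Finset.sum_filter]
    refine Finset.sum_congr rfl fun h _ => ?_
    by_cases hh : h ∈ P
    · rw [if_pos hh, if_pos (hle hh)]
    · rw [if_neg hh, ite_self]
  have h2 : (∑ h : T, if h ∈ P then ρ h ∘ₗ f ∘ₗ ρ h⁻¹ else 0) =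
      ∑ h : NP P₁, if (h : T) ∈ P then ρ h ∘ₗ f ∘ₗ ρ (h : T)⁻¹ else 0 := by
    rw [h1]
    exact Finset.sum_subtype _ (fun x => by simp) _
  rw [h2]
  refine Finset.sum_congr rfl fun h _ => ?_
  by_cases hh : (h : T) ∈ P
  · rw [if_pos hh, if_pos (Subgroup.mem_subgroupOf.2 hh)]
    rfl
  · rw [if_neg hh, if_neg (fun h3 => hh (Subgroup.mem_subgroupOf.1 h3))]

end traces

end NPRX

open _root_.Pool.Agent.DPX.NPRX in
/-- NPRX. -/
theorem NPRX_thm (_h1 : Stmt_SUPX) (h2 : Stmt_RPRX) (h3 : Stmt_KEX) (h4 : Stmt_LOCX) :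
    Stmt_NPRX := by
  intro ℓ n _ F T V _ _ _ _ _ _ _ _ P₁ P _ x₀ e hB hP ρ hirr he
  have ha := part_a h4 ℓ n P₁ P x₀ e hB hP ρ hirr he
  have hc : ¬ ∃ g : V →ₗ[F] V, trS P ρ ρ g = 1 := by
    rintro ⟨g, hg⟩
    obtain ⟨α, hα, hαe⟩ := h2 ℓ n F T V P₁ P x₀ e hB ρ
    rw [he] at hαe
    have h5 := NPJB.sum_all P ρ α g (by rw [← trS_eq]; exact hg) hα hαe
    refine ha ⟨α * g, ?_⟩
    rw [← h5]
    unfold tr1
    exact Finset.sum_congr rfl fun t _ => mul_assoc _ _ _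
  refine ⟨ha, ?_, hc⟩
  rintro ⟨f, hf⟩
  have hle : P ≤ Subgroup.normalizer (P₁ : Set T) := by
    have := hB.cd.cyc
    intro p hp
    have hcomm : ∀ u ∈ P, p * u * p⁻¹ = u := by
      intro u hu
      have h5 : (⟨p, hp⟩ : P) * ⟨u, hu⟩ = ⟨u, hu⟩ * ⟨p, hp⟩ := by
        let _ := IsCyclic.commGroup (α := P)
        exact mul_comm _ _
      have h6 : p * u = u * p := congrArg Subtype.val h5
      rw [h6, mul_inv_cancel_right]
    rw [Subgroup.mem_normalizer_iff]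
    intro h
    constructor
    · intro hh
      rw [hcomm h (hB.cd.le hh)]
      exact hh
    · intro hh
      have h5 := hB.cd.le hh
      have h6 : h ∈ P := by
        have h7 : h = p⁻¹ * (p * h * p⁻¹) * p := by group
        rw [h7]
        exact P.mul_mem (P.mul_mem (P.inv_mem hp) h5) hp
      rwa [hcomm h h6] at hh
  obtain ⟨g, hg⟩ := tr1_eq_trS (P.subgroupOf (Subgroup.normalizer (P₁ : Set T))) (rN P₁ ρ) f
  obtain ⟨⟨h, hh⟩, -⟩ := h3 ℓ n F T V P₁ P x₀ e hB ρ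
  refine hc ⟨g + h, ?_⟩
  rw [trS_add, ← trS_sub P₁ P hle, ← hg, ← hf, ← hh, he]

end Pool.Agent.DPX


end

section

/-!
# ALGX: the algebra of a block with one irreducible representation
-/

namespace Pool.Agent.DPX

namespace ALGX

noncomputable section abs

variable {F A V : Type} [Field F] [Ring A] [Algebra F A] [AddCommGroup V] [Module F V]

/-- products -/
def prd (a : ℕ → A) : ℕ → A
  | 0 => 1
  | k + 1 => prd a k * a k

theorem prd_congr {a a' : ℕ → A} : ∀ {k : ℕ}, (∀ i < k, a i = a' i) → prd a k = prd a' k := by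
  intro k
  induction k with
  | zero => intro _; rfl
  | succ k ih =>
    intro h
    show prd a k * a k = prd a' k * a' k
    rw [ih fun i hi => h i (Nat.lt_succ_of_lt hi), h k (Nat.lt_succ_self k)]

/-- products of elements of a subspace -/
theorem pow_le (N : Submodule F A) (k : ℕ) :
    N ^ k ≤ Submodule.span F {x | ∃ a : ℕ → A, (∀ i, a i ∈ N) ∧ prd a k = x} := by
  induction k with
  | zero =>
    rw [pow_zero, Submodule.one_le]
    exact Submodule.subset_span ⟨fun _ => 0, fun _ => N.zero_mem, rfl⟩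
  | succ k ih =>
    rw [pow_succ, Submodule.mul_le]
    intro x hx y hy
    have hx' := ih hx
    clear hx
    induction hx' using Submodule.span_induction with
    | mem x hx =>
      obtain ⟨a, ha, rfl⟩ := hx
      refine Submodule.subset_span ⟨fun i => if i < k then a i else y, fun i => ?_, ?_⟩
      · show (if i < k then a i else y) ∈ N
        split_ifs
        · exact ha i
        · exact hy
      · show prd (fun i => if i < k then a i else y) k * (if k < k then a k else y) = prd a k * y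
        rw [if_neg (lt_irrefl k)]
        congr 1
        exact prd_congr fun i hi => if_pos hi
    | zero => rw [zero_mul]; exact Submodule.zero_mem _
    | add x x' _ _ h h' => rw [add_mul]; exact Submodule.add_mem _ h h'
    | smul c x _ h => rw [smul_mul_assoc]; exact Submodule.smul_mem _ _ h

variable {m : ℕ}

/-- matrix units and a representation -/
structure Dat (E : Fin (m + 1) → Fin (m + 1) → A) (R : A →ₐ[F] Module.End F V)
    (b : Module.Basis (Fin (m + 1)) F V) : Prop where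
  mu : ∀ i j k l, E i j * E k l = if j = k then E i l else 0
  ce : ∀ a, (∑ i, E i i) * a = a * ∑ i, E i i
  rb : ∀ i j k, R (E i j) (b k) = if j = k then b i else 0

/-- the coefficient -/
def chi (R : A →ₐ[F] Module.End F V) (b : Module.Basis (Fin (m + 1)) F V) : A →ₗ[F] F :=
  (b.coord 0) ∘ₗ ((LinearMap.applyₗ (b 0)) ∘ₗ R.toLinearMap)

theorem chi_apply (R : A →ₐ[F] Module.End F V) (b : Module.Basis (Fin (m + 1)) F V) (a : A) :
    chi R b a = b.coord 0 (R a (b 0)) := rfl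

variable {E : Fin (m + 1) → Fin (m + 1) → A} {R : A →ₐ[F] Module.End F V}
  {b : Module.Basis (Fin (m + 1)) F V}

theorem Dat.mul (h : Dat E R b) (i j l : Fin (m + 1)) : E i j * E j l = E i l := by
  rw [h.mu, if_pos rfl]

theorem Dat.eE (h : Dat E R b) (i j : Fin (m + 1)) : (∑ k, E k k) * E i j = E i j := by
  rw [Finset.sum_mul, Finset.sum_eq_single i]
  · exact h.mul i i j
  · intro k _ hk
    rw [h.mu, if_neg hk]
  · intro hi
    exact absurd (Finset.mem_univ i) hi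

theorem Dat.Ee (h : Dat E R b) (i j : Fin (m + 1)) : E i j * (∑ k, E k k) = E i j := by
  rw [← h.ce, h.eE]

/-- the matrix units on vectors -/
theorem Dat.rv (h : Dat E R b) (i j : Fin (m + 1)) (v : V) : R (E i j) v = b.coord j v • b i := by
  conv_lhs => rw [← b.sum_repr v, map_sum]
  rw [Finset.sum_eq_single j]
  · rw [map_smul, h.rb, if_pos rfl]
    rfl
  · intro k _ hk
    rw [map_smul, h.rb, if_neg (Ne.symm hk), smul_zero]
  · intro hj
    exact absurd (Finset.mem_univ j) hj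

/-- the corner -/
def Cor (E : Fin (m + 1) → Fin (m + 1) → A) (r : A) : Prop := E 0 0 * r = r ∧ r * E 0 0 = r

theorem Dat.cor (h : Dat E R b) (i j : Fin (m + 1)) (a : A) : Cor E (E 0 i * a * E j 0) := by
  constructor
  · rw [← mul_assoc, ← mul_assoc, h.mul]
  · rw [mul_assoc, h.mul]

theorem Cor.mul {r s : A} (hr : Cor E r) (hs : Cor E s) : Cor E (r * s) := by
  constructor
  · rw [← mul_assoc, hr.1]
  · rw [mul_assoc, hs.2]

theorem Dat.chi_coef (h : Dat E R b) (i j : Fin (m + 1)) (a : A) :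
    chi R b (E 0 i * a * E j 0) = b.coord i (R a (b j)) := by
  rw [chi_apply, map_mul, map_mul, Module.End.mul_apply, Module.End.mul_apply, h.rb, if_pos rfl,
    h.rv, map_smul, Module.Basis.coord_apply _ 0 (b 0), b.repr_self, Finsupp.single_eq_same,
    smul_eq_mul, mul_one]

theorem Dat.rcor (h : Dat E R b) {r : A} (hr : Cor E r) (k : Fin (m + 1)) :
    R r (b k) = if k = 0 then chi R b r • b 0 else 0 := by
  split_ifs with hk
  · subst hk
    conv_lhs => rw [← hr.1, map_mul, Module.End.mul_apply, h.rv]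
    rfl
  · rw [← hr.2, map_mul, Module.End.mul_apply, h.rb, if_neg (Ne.symm hk), map_zero]

theorem Dat.chi_mul (h : Dat E R b) {r s : A} (hs : Cor E s) :
    chi R b (r * s) = chi R b r * chi R b s := by
  rw [chi_apply, map_mul, Module.End.mul_apply, h.rcor hs, if_pos rfl, map_smul, map_smul,
    smul_eq_mul, ← chi_apply, mul_comm]

theorem Dat.chi_E (h : Dat E R b) : chi R b (E 0 0) = 1 := by
  rw [chi_apply, h.rb, if_pos rfl, Module.Basis.coord_apply, b.repr_self, Finsupp.single_eq_same]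

/-- the radical of the corner -/
def NN (E : Fin (m + 1) → Fin (m + 1) → A) (R : A →ₐ[F] Module.End F V)
    (b : Module.Basis (Fin (m + 1)) F V) : Submodule F A where
  carrier := {r | Cor E r ∧ chi R b r = 0}
  zero_mem' := ⟨⟨mul_zero _, zero_mul _⟩, map_zero _⟩
  add_mem' := by
    rintro r s ⟨⟨h1, h2⟩, h3⟩ ⟨⟨h4, h5⟩, h6⟩
    exact ⟨⟨by rw [mul_add, h1, h4], by rw [add_mul, h2, h5]⟩, by rw [map_add, h3, h6, add_zero]⟩
  smul_mem' := by
    rintro c r ⟨⟨h1, h2⟩, h3⟩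
    exact ⟨⟨by rw [mul_smul_comm, h1], by rw [smul_mul_assoc, h2]⟩, by rw [map_smul, h3, smul_zero]⟩

theorem Dat.NN_mul (h : Dat E R b) {r s : A} (hr : r ∈ NN E R b) (hs : s ∈ NN E R b) :
    r * s ∈ NN E R b :=
  ⟨hr.1.mul hs.1, by rw [h.chi_mul hs.1, hs.2, mul_zero]⟩

theorem Dat.NN_sub (h : Dat E R b) {r : A} (hr : Cor E r) :
    r - chi R b r • E 0 0 ∈ NN E R b := by
  refine ⟨⟨?_, ?_⟩, ?_⟩
  · rw [mul_sub, hr.1, mul_smul_comm, h.mul]
  · rw [sub_mul, hr.2, smul_mul_assoc, h.mul]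
  · rw [map_sub, map_smul, h.chi_E, smul_eq_mul, mul_one, sub_self]

theorem Dat.NN_R (h : Dat E R b) {r : A} (hr : r ∈ NN E R b) : R r = 0 := by
  refine b.ext fun k => ?_
  rw [h.rcor hr.1, hr.2, zero_smul, ite_self]
  rfl

theorem Dat.NN_e (h : Dat E R b) {r : A} (hr : r ∈ NN E R b) : (∑ i, E i i) * r = r := by
  rw [← hr.1.1, ← mul_assoc, h.eE]

/-- the functional -/
def dd (E : Fin (m + 1) → Fin (m + 1) → A) (R : A →ₐ[F] Module.End F V)
    (b : Module.Basis (Fin (m + 1)) F V) (f : A →ₗ[F] F) : A →ₗ[F] F :=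
  f - f (E 0 0) • chi R b

theorem dd_apply (f : A →ₗ[F] F) (a : A) : dd E R b f a = f (a - chi R b a • E 0 0) := by
  rw [map_sub, map_smul]
  show f a - f (E 0 0) * chi R b a = f a - chi R b a * f (E 0 0)
  rw [mul_comm]

theorem Dat.dd_mul (h : Dat E R b) {f : A →ₗ[F] F}
    (hf : ∀ r ∈ NN E R b, ∀ s ∈ NN E R b, f (r * s) = 0) {r s : A} (hr : Cor E r)
    (hs : Cor E s) : dd E R b f (r * s) = chi R b r * dd E R b f s + dd E R b f r * chi R b s := by
  have h0 := hf _ (h.NN_sub hr) _ (h.NN_sub hs)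
  rw [dd_apply, dd_apply, dd_apply, h.chi_mul hs]
  have e1 : (r - chi R b r • E 0 0) * (s - chi R b s • E 0 0) =
      (r * s - (chi R b r * chi R b s) • E 0 0) - chi R b r • (s - chi R b s • E 0 0) -
        chi R b s • (r - chi R b r • E 0 0) := by
    rw [sub_mul, mul_sub, mul_sub, mul_smul_comm, hr.2, smul_mul_assoc, hs.1, smul_mul_assoc,
      mul_smul_comm, h.mul, smul_sub, smul_sub, smul_smul, smul_smul, mul_comm (chi R b s)]
    abel
  rw [e1, map_sub, map_sub, map_smul, map_smul] at h0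
  rw [smul_eq_mul, smul_eq_mul] at h0
  linear_combination h0

/-- the derivation of a functional -/
def Del (E : Fin (m + 1) → Fin (m + 1) → A) (R : A →ₐ[F] Module.End F V)
    (b : Module.Basis (Fin (m + 1)) F V) (f : A →ₗ[F] F) : A →ₗ[F] Module.End F V :=
  ∑ i, ∑ j, (LinearMap.toSpanSingleton F (Module.End F V) (R (E i j))) ∘ₗ (dd E R b f) ∘ₗ
    (LinearMap.mulRight F (E j 0)) ∘ₗ (LinearMap.mulLeft F (E 0 i))

theorem Dat.Del_apply (h : Dat E R b) (f : A →ₗ[F] F) (a : A) (j : Fin (m + 1)) :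
    Del E R b f a (b j) = ∑ i, dd E R b f (E 0 i * a * E j 0) • b i := by
  unfold Del
  simp only [LinearMap.sum_apply]
  refine Finset.sum_congr rfl fun i _ => ?_
  rw [Finset.sum_eq_single j]
  · show (dd E R b f (E 0 i * a * E j 0) • R (E i j)) (b j) = _
    rw [LinearMap.smul_apply, h.rb, if_pos rfl]
  · intro k _ hk
    show (dd E R b f (E 0 i * a * E k 0) • R (E i k)) (b j) = _
    rw [LinearMap.smul_apply, h.rb, if_neg hk, smul_zero]
  · intro hj
    exact absurd (Finset.mem_univ j) hj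

theorem Dat.R_apply (h : Dat E R b) (a : A) (j : Fin (m + 1)) :
    R a (b j) = ∑ i, chi R b (E 0 i * a * E j 0) • b i := by
  conv_lhs => rw [← b.sum_repr (R a (b j))]
  exact Finset.sum_congr rfl fun i _ => by rw [h.chi_coef]; rfl

/-- the product of the coefficients -/
theorem Dat.coef_mul (h : Dat E R b) (i j : Fin (m + 1)) (x y : A) :
    E 0 i * (x * y) * E j 0 = ∑ k, (E 0 i * x * E k 0) * (E 0 k * y * E j 0) := by
  have e1 : ∀ k, (E 0 i * x * E k 0) * (E 0 k * y * E j 0) = E 0 i * x * E k k * (y * E j 0) := by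
    intro k
    rw [← h.mul k 0 k]
    simp only [mul_assoc]
  have e2 : E 0 i * x * (∑ k, E k k) = E 0 i * x := by
    rw [mul_assoc, ← h.ce, ← mul_assoc, h.Ee]
  rw [Finset.sum_congr rfl fun k _ => e1 k, ← Finset.sum_mul, ← Finset.mul_sum, e2]
  simp only [mul_assoc]

theorem Dat.Del_mul (h : Dat E R b) {f : A →ₗ[F] F}
    (hf : ∀ r ∈ NN E R b, ∀ s ∈ NN E R b, f (r * s) = 0) (x y : A) :
    Del E R b f (x * y) = R x * Del E R b f y + Del E R b f x * R y := by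
  refine b.ext fun j => ?_
  rw [LinearMap.add_apply, Module.End.mul_apply, Module.End.mul_apply, h.Del_apply, h.Del_apply,
    h.R_apply y, map_sum, map_sum]
  have e1 : ∀ k, R x (dd E R b f (E 0 k * y * E j 0) • b k) =
      ∑ i, (chi R b (E 0 i * x * E k 0) * dd E R b f (E 0 k * y * E j 0)) • b i := by
    intro k
    rw [map_smul, h.R_apply, Finset.smul_sum]
    exact Finset.sum_congr rfl fun i _ => by rw [smul_smul, mul_comm]
  have e2 : ∀ k, Del E R b f x (chi R b (E 0 k * y * E j 0) • b k) =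
      ∑ i, (dd E R b f (E 0 i * x * E k 0) * chi R b (E 0 k * y * E j 0)) • b i := by
    intro k
    rw [map_smul, h.Del_apply, Finset.smul_sum]
    exact Finset.sum_congr rfl fun i _ => by rw [smul_smul, mul_comm]
  rw [Finset.sum_congr rfl fun k _ => e1 k, Finset.sum_congr rfl fun k _ => e2 k,
    Finset.sum_comm, Finset.sum_comm (f := fun k i =>
      (dd E R b f (E 0 i * x * E k 0) * chi R b (E 0 k * y * E j 0)) • b i),
    ← Finset.sum_add_distrib]
  refine Finset.sum_congr rfl fun i _ => ?_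
  rw [h.coef_mul, map_sum, Finset.sum_smul, ← Finset.sum_add_distrib]
  refine Finset.sum_congr rfl fun k _ => ?_
  rw [h.dd_mul hf (h.cor i k x) (h.cor k j y), add_smul]

/-- outer derivations -/
def DD (R : A →ₐ[F] Module.End F V) : Prop :=
  ∀ D₁ D₂ : A →ₗ[F] Module.End F V, (∀ x y, D₁ (x * y) = R x * D₁ y + D₁ x * R y) →
    (∀ x y, D₂ (x * y) = R x * D₂ y + D₂ x * R y) →
    ∃ (c₁ c₂ : F) (X : Module.End F V), (c₁ ≠ 0 ∨ c₂ ≠ 0) ∧
      ∀ a, c₁ • D₁ a + c₂ • D₂ a = R a * X - X * R a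

theorem Dat.Del_NN (h : Dat E R b) (f : A →ₗ[F] F) {r : A} (hr : r ∈ NN E R b) :
    Del E R b f r (b 0) = f r • b 0 := by
  rw [h.Del_apply, Finset.sum_eq_single 0]
  · rw [hr.1.1, hr.1.2, dd_apply, hr.2, zero_smul, sub_zero]
  · intro i _ hi
    have h1 : E 0 i * r * E 0 0 = 0 := by
      rw [← hr.1.1, ← mul_assoc, h.mu, if_neg hi, zero_mul, zero_mul]
    rw [h1, map_zero, zero_smul]
  · intro h0
    exact absurd (Finset.mem_univ _) h0

/-- the radical of the corner is generated by one element modulo its square -/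
theorem Dat.key (h : Dat E R b) (hD : DD R) :
    ∃ z ∈ NN E R b, NN E R b ≤ Submodule.span F {z} ⊔ NN E R b ^ 2 := by
  by_cases h1 : NN E R b ≤ NN E R b ^ 2
  · exact ⟨0, (NN E R b).zero_mem, h1.trans le_sup_right⟩
  obtain ⟨z, hz, hz2⟩ := SetLike.not_le_iff_exists.1 h1
  refine ⟨z, hz, ?_⟩
  by_contra h2
  obtain ⟨y, hy, hy2⟩ := SetLike.not_le_iff_exists.1 h2
  obtain ⟨f1, hf1, hf1'⟩ := Submodule.exists_le_ker_of_notMem hz2
  obtain ⟨f2, hf2, hf2'⟩ := Submodule.exists_le_ker_of_notMem hy2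
  have hN2 : ∀ f : A →ₗ[F] F, NN E R b ^ 2 ≤ LinearMap.ker f →
      ∀ r ∈ NN E R b, ∀ s ∈ NN E R b, f (r * s) = 0 := fun f hf r hr s hs =>
    hf (by rw [pow_two]; exact Submodule.mul_mem_mul hr hs)
  obtain ⟨c1, c2, X, hc, hX⟩ := hD (Del E R b f1) (Del E R b f2) (h.Del_mul (hN2 f1 hf1'))
    (h.Del_mul (hN2 f2 (le_sup_right.trans hf2')))
  have hall : ∀ r ∈ NN E R b, c1 * f1 r + c2 * f2 r = 0 := by
    intro r hr
    have h3 := congrArg (fun g : Module.End F V => b.coord 0 (g (b 0))) (hX r)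
    simp only [h.NN_R hr, zero_mul, mul_zero, sub_zero, LinearMap.add_apply,
      LinearMap.smul_apply, h.Del_NN _ hr, map_add, map_smul, Module.Basis.coord_apply,
      b.repr_self, Finsupp.single_eq_same, smul_eq_mul, mul_one, LinearMap.zero_apply,
      map_zero] at h3
    exact h3
  have e1 := hall z hz
  have e2 : f2 z = 0 := hf2' (Submodule.mem_sup_left (Submodule.mem_span_singleton_self z))
  rw [e2, mul_zero, add_zero] at e1
  have c10 : c1 = 0 := (mul_eq_zero.1 e1).resolve_right hf1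
  have e3 := hall y hy
  rw [c10, zero_mul, zero_add] at e3
  have c20 : c2 = 0 := (mul_eq_zero.1 e3).resolve_right hf2
  rcases hc with hc | hc
  · exact hc c10
  · exact hc c20

theorem Dat.NN2 (h : Dat E R b) : NN E R b ^ 2 ≤ NN E R b := by
  rw [pow_two, Submodule.mul_le]
  exact fun r hr s hs => h.NN_mul hr hs

theorem Dat.step (h : Dat E R b) {z : A} (hz : z ∈ NN E R b)
    (hN : NN E R b ≤ Submodule.span F {z} ⊔ NN E R b ^ 2) (k : ℕ) :
    NN E R b ^ (k + 1) ≤ Submodule.span F {z ^ (k + 1)} ⊔ NN E R b ^ (k + 2) := by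
  have hz' : Submodule.span F {z} ≤ NN E R b := by
    rw [Submodule.span_singleton_le_iff_mem]
    exact hz
  induction k with
  | zero => rw [zero_add, pow_one, pow_one]; exact hN
  | succ k ih =>
    have hzk : Submodule.span F {z ^ (k + 1)} ≤ NN E R b ^ (k + 1) := by
      rw [Submodule.span_singleton_le_iff_mem]
      exact Submodule.pow_mem_pow _ hz _
    rw [pow_succ]
    refine (mul_le_mul' ih hN).trans ?_
    rw [Submodule.sup_mul, Submodule.mul_sup, Submodule.mul_sup]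
    refine sup_le (sup_le ?_ ?_) (sup_le ?_ ?_)
    · rw [Submodule.span_mul_span, Set.singleton_mul_singleton, ← pow_succ]
      exact le_sup_left
    · refine ((mul_le_mul' hzk le_rfl).trans ?_).trans le_sup_right
      rw [← pow_add]
    · refine ((mul_le_mul' le_rfl hz').trans ?_).trans le_sup_right
      rw [← pow_succ]
    · refine ((mul_le_mul' le_rfl h.NN2).trans ?_).trans le_sup_right
      rw [← pow_succ]

theorem Dat.spn (h : Dat E R b) {z : A} (hz : z ∈ NN E R b)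
    (hN : NN E R b ≤ Submodule.span F {z} ⊔ NN E R b ^ 2) (k : ℕ) :
    NN E R b ≤ Submodule.span F (Set.range fun j : ℕ => E 0 0 * z ^ j) ⊔ NN E R b ^ (k + 1) := by
  induction k with
  | zero => rw [zero_add, pow_one]; exact le_sup_right
  | succ k ih =>
    refine ih.trans (sup_le le_sup_left ((h.step hz hN k).trans (sup_le ?_ le_sup_right)))
    rw [Submodule.span_singleton_le_iff_mem]
    refine Submodule.mem_sup_left (Submodule.subset_span ⟨k + 1, ?_⟩)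
    show E 0 0 * z ^ (k + 1) = z ^ (k + 1)
    rw [pow_succ', ← mul_assoc, hz.1.1]

/-- the structure of the algebra -/
theorem Dat.final (h : Dat E R b) (hD : DD R) (K : ℕ)
    (hK : ∀ a : ℕ → A, (∀ i, (∑ i, E i i) * a i = a i ∧ R (a i) = 0) → prd a K = 0) :
    ∃ (c : ℕ) (z : A), (∀ a, z * a = a * z) ∧ (∑ i, E i i) * z = z ∧
      (∀ a, ∃ t : ℕ → Fin (m + 1) → Fin (m + 1) → F, (∑ i, E i i) * a =
        ∑ k ∈ Finset.range c, ∑ i, ∑ j, t k i j • (z ^ k * E i j)) ∧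
      (∑ i, E i i) * z ^ c = 0 ∧ ∀ k < c, (∑ i, E i i) * z ^ k ≠ 0 := by
  classical
  obtain ⟨y, hy, hN⟩ := h.key hD
  -- nilpotency
  have hnil : NN E R b ^ (K + 1) ≤ ⊥ := by
    refine (pow_le (NN E R b) (K + 1)).trans ?_
    rw [Submodule.span_le]
    rintro x ⟨a, ha, rfl⟩
    show prd a K * a K = 0
    rw [hK a fun i => ⟨h.NN_e (ha i), h.NN_R (ha i)⟩, zero_mul]
  have hy0 : y ^ (K + 1) = 0 := hnil (Submodule.pow_mem_pow _ hy _)
  have hE0 : E 0 0 ≠ 0 := by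
    intro h0
    have h1 := h.chi_E
    rw [h0, map_zero] at h1
    exact zero_ne_one h1
  have hcor : ∀ r : A, Cor E r →
      r ∈ Submodule.span F (Set.range fun j : ℕ => E 0 0 * y ^ j) := by
    intro r hr
    have h1 := ((h.spn hy hN K).trans (sup_le le_rfl (hnil.trans bot_le))) (h.NN_sub hr)
    have h2 : r = (r - chi R b r • E 0 0) + chi R b r • (E 0 0 * y ^ 0) := by
      rw [pow_zero, mul_one, sub_add_cancel]
    rw [h2]
    exact Submodule.add_mem _ h1 (Submodule.smul_mem _ _ (Submodule.subset_span ⟨0, rfl⟩))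
  have hex : ∃ c, 1 ≤ c ∧ y ^ c = 0 := ⟨K + 1, Nat.succ_le_succ (Nat.zero_le K), hy0⟩
  obtain ⟨c, ⟨hc1, hc2⟩, hc3⟩ : ∃ c, (1 ≤ c ∧ y ^ c = 0) ∧ ∀ k < c, 1 ≤ k → y ^ k ≠ 0 :=
    ⟨Nat.find hex, Nat.find_spec hex, fun k hk h1 h2 => Nat.find_min hex hk ⟨h1, h2⟩⟩
  have hcoef : ∀ r : A, Cor E r → ∃ t : ℕ → F, r = ∑ k ∈ Finset.range c,
      t k • (E 0 0 * y ^ k) := by
    intro r hr
    have h1 := hcor r hr
    clear hr
    induction h1 using Submodule.span_induction with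
    | mem x hx =>
      obtain ⟨j, rfl⟩ := hx
      by_cases hj : j < c
      · refine ⟨Pi.single j 1, ?_⟩
        rw [Finset.sum_eq_single j]
        · rw [Pi.single_eq_same, one_smul]
        · intro k _ hk
          rw [Pi.single_eq_of_ne hk, zero_smul]
        · intro h2
          exact absurd (Finset.mem_range.2 hj) h2
      · refine ⟨0, ?_⟩
        have h2 : y ^ j = 0 := pow_eq_zero_of_le (not_lt.1 hj) hc2
        simp [h2]
    | zero => exact ⟨0, by simp⟩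
    | add x x' _ _ h h' =>
      obtain ⟨t, rfl⟩ := h
      obtain ⟨t', rfl⟩ := h'
      refine ⟨t + t', ?_⟩
      rw [← Finset.sum_add_distrib]
      exact Finset.sum_congr rfl fun k _ => (add_smul _ _ _).symm
    | smul q x _ h =>
      obtain ⟨t, rfl⟩ := h
      refine ⟨q • t, ?_⟩
      rw [Finset.smul_sum]
      exact Finset.sum_congr rfl fun k _ => (smul_smul _ _ _)
  have hcomm : ∀ r : A, Cor E r → y * r = r * y := by
    intro r hr
    obtain ⟨t, rfl⟩ := hcoef r hr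
    rw [Finset.mul_sum, Finset.sum_mul]
    refine Finset.sum_congr rfl fun k _ => ?_
    rw [mul_smul_comm, smul_mul_assoc, ← mul_assoc, hy.1.2, mul_assoc, ← pow_succ, pow_succ',
      ← mul_assoc, hy.1.1]
  -- the central element
  obtain ⟨z, hz⟩ : ∃ z, z = ∑ i, E i 0 * y * E 0 i := ⟨_, rfl⟩
  have hzE : ∀ i j, z * E i j = E i 0 * y * E 0 j := by
    intro i j
    rw [hz, Finset.sum_mul, Finset.sum_eq_single i]
    · rw [mul_assoc _ (E 0 i), h.mul]
    · intro k _ hk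
      rw [mul_assoc _ (E 0 k), h.mu, if_neg hk, mul_zero]
    · intro hi
      exact absurd (Finset.mem_univ i) hi
  have hEz : ∀ i j, E i j * z = E i 0 * y * E 0 j := by
    intro i j
    rw [hz, Finset.mul_sum, Finset.sum_eq_single j]
    · rw [← mul_assoc, ← mul_assoc, h.mul]
    · intro k _ hk
      rw [← mul_assoc, ← mul_assoc, h.mu, if_neg (Ne.symm hk), zero_mul, zero_mul]
    · intro hj
      exact absurd (Finset.mem_univ j) hj
  have hze : z * (∑ i, E i i) = z := by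
    rw [Finset.mul_sum, Finset.sum_congr rfl fun i _ => hzE i i, ← hz]
  have hez : (∑ i, E i i) * z = z := by rw [h.ce, hze]
  have hzk : ∀ k i j, z ^ k * E i j = E i 0 * y ^ k * E 0 j := by
    intro k i j
    induction k with
    | zero => rw [pow_zero, one_mul, pow_zero, mul_one, h.mul]
    | succ k ih =>
      rw [pow_succ', mul_assoc, ih, ← mul_assoc, ← mul_assoc, hzE, pow_succ', mul_assoc (E i 0) y,
        hy.1.2]
      simp only [mul_assoc]
  have hea : ∀ a, (∑ i, E i i) * a = ∑ i, ∑ j, E i 0 * (E 0 i * a * E j 0) * E 0 j := by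
    intro a
    have e1 : (∑ i, E i i) * a = (∑ i, E i i) * a * (∑ j, E j j) := by
      rw [mul_assoc, ← h.ce a, ← mul_assoc, Finset.mul_sum, Finset.sum_congr rfl
        fun i _ => h.eE i i]
    rw [e1, Finset.sum_mul, Finset.sum_mul]
    refine Finset.sum_congr rfl fun i _ => ?_
    rw [Finset.mul_sum]
    refine Finset.sum_congr rfl fun j _ => ?_
    rw [← h.mul i 0 i, ← h.mul j 0 j]
    simp only [mul_assoc]
  have hcen : ∀ a, z * a = a * z := by
    intro a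
    have e1 : z * a = z * ((∑ i, E i i) * a) := by rw [← mul_assoc, hze]
    have e2 : a * z = ((∑ i, E i i) * a) * z := by rw [h.ce, mul_assoc, hez]
    rw [e1, e2, hea, Finset.mul_sum, Finset.sum_mul]
    refine Finset.sum_congr rfl fun i _ => ?_
    rw [Finset.mul_sum, Finset.sum_mul]
    refine Finset.sum_congr rfl fun j _ => ?_
    have e3 := hcomm _ (h.cor i j a)
    have e4 : y * (E 0 0) = y := hy.1.2
    calc z * (E i 0 * (E 0 i * a * E j 0) * E 0 j)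
        = (z * E i 0) * (E 0 i * a * E j 0) * E 0 j := by simp only [mul_assoc]
      _ = E i 0 * (y * (E 0 i * a * E j 0)) * E 0 j := by
          rw [hzE, mul_assoc (E i 0) y, e4]
          simp only [mul_assoc]
      _ = E i 0 * ((E 0 i * a * E j 0) * y) * E 0 j := by rw [e3]
      _ = E i 0 * (E 0 i * a * E j 0) * (E 0 0 * y * E 0 j) := by
          rw [hy.1.1]
          simp only [mul_assoc]
      _ = E i 0 * (E 0 i * a * E j 0) * E 0 j * z := by
          rw [← hEz]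
          simp only [mul_assoc]
  refine ⟨c, z, hcen, hez, ?_, ?_, ?_⟩
  · intro a
    choose t ht using fun (i j : Fin (m + 1)) => hcoef _ (h.cor i j a)
    refine ⟨fun k i j => t i j k, ?_⟩
    rw [hea]
    symm
    rw [Finset.sum_comm]
    refine Finset.sum_congr rfl fun i _ => ?_
    rw [Finset.sum_comm]
    refine Finset.sum_congr rfl fun j _ => ?_
    symm
    rw [ht i j]
    rw [Finset.mul_sum, Finset.sum_mul]
    refine Finset.sum_congr rfl fun k _ => ?_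
    rw [hzk, mul_smul_comm, smul_mul_assoc, ← mul_assoc (E i 0), h.mul]
  · rw [h.ce, Finset.mul_sum]
    refine Finset.sum_eq_zero fun i _ => ?_
    rw [hzk, hc2, mul_zero, zero_mul]
  · intro k hk h0
    have h1 : z ^ k * E 0 0 = 0 := by
      rw [h.ce] at h0
      rw [← h.eE 0 0, ← mul_assoc, h0, zero_mul]
    rw [hzk] at h1
    rcases Nat.eq_zero_or_pos k with rfl | hk0
    · rw [pow_zero, mul_one, h.mul] at h1
      exact hE0 h1
    · obtain ⟨j, rfl⟩ : ∃ j, k = j + 1 := ⟨k - 1, by omega⟩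
      apply hc3 _ hk hk0
      rw [← h1, mul_assoc, pow_succ, mul_assoc, hy.1.2, ← pow_succ, pow_succ', ← mul_assoc,
        hy.1.1]

end abs

/-! ### the group algebra -/

noncomputable section ga

open Pool.Agent.DPB Pool.Agent.DPW Representation

/-- the group algebra -/
def GA (F T : Type) : Type := T → F

variable {F T : Type} [Field F] [Group T] [Fintype T]

instance instAddGA : AddCommGroup (GA F T) := inferInstanceAs (AddCommGroup (T → F))

instance instModGA : Module F (GA F T) := inferInstanceAs (Module F (T → F))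

/-- the unit -/
def un (F T : Type) [Field F] [Group T] [Fintype T] : T → F := cvp (0 : T → F) 0

theorem un_self : un F T 1 = 1 := by
  classical
  exact Pi.single_eq_same (M := fun _ : T => F) (1 : T) (1 : F)

theorem un_ne {y : T} (hy : y ≠ 1) : un F T y = 0 := by
  classical
  exact Pi.single_eq_of_ne hy _

theorem un_mul (a : T → F) : cvF (un F T) a = a := by
  funext x
  show ∑ y, un F T y * a (y⁻¹ * x) = a x
  rw [Finset.sum_eq_single 1]
  · rw [un_self, one_mul, inv_one, one_mul]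
  · intro y _ hy
    rw [un_ne hy, zero_mul]
  · intro h
    exact absurd (Finset.mem_univ _) h

theorem mul_un (a : T → F) : cvF a (un F T) = a := by
  funext x
  show ∑ y, a y * un F T (y⁻¹ * x) = a x
  rw [Finset.sum_eq_single x]
  · rw [inv_mul_cancel, un_self, mul_one]
  · intro y _ hy
    have h1 : y⁻¹ * x ≠ 1 := fun h => hy (inv_mul_eq_one.1 h)
    rw [un_ne h1, mul_zero]
  · intro h
    exact absurd (Finset.mem_univ _) h

theorem cv_assoc (a b c : T → F) : cvF (cvF a b) c = cvF a (cvF b c) := by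
  apply IDMB.Lz_inj
  rw [IDMB.Lz_cvF, IDMB.Lz_cvF, IDMB.Lz_cvF, IDMB.Lz_cvF, mul_assoc]

theorem cv_add (a b c : T → F) : cvF a (b + c) = cvF a b + cvF a c := by
  funext x
  show ∑ y, a y * (b (y⁻¹ * x) + c (y⁻¹ * x)) = ∑ y, a y * b (y⁻¹ * x) + ∑ y, a y * c (y⁻¹ * x)
  rw [← Finset.sum_add_distrib]
  exact Finset.sum_congr rfl fun y _ => mul_add _ _ _

theorem add_cv (a b c : T → F) : cvF (a + b) c = cvF a c + cvF b c := by
  funext x
  show ∑ y, (a y + b y) * c (y⁻¹ * x) = ∑ y, a y * c (y⁻¹ * x) + ∑ y, b y * c (y⁻¹ * x)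
  rw [← Finset.sum_add_distrib]
  exact Finset.sum_congr rfl fun y _ => add_mul _ _ _

theorem smul_cv (q : F) (a b : T → F) : cvF (q • a) b = q • cvF a b := by
  funext x
  show ∑ y, (q * a y) * b (y⁻¹ * x) = q * ∑ y, a y * b (y⁻¹ * x)
  rw [Finset.mul_sum]
  exact Finset.sum_congr rfl fun y _ => mul_assoc _ _ _

theorem cv_smul (q : F) (a b : T → F) : cvF a (q • b) = q • cvF a b := by
  funext x
  show ∑ y, a y * (q * b (y⁻¹ * x)) = q * ∑ y, a y * b (y⁻¹ * x)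
  rw [Finset.mul_sum]
  exact Finset.sum_congr rfl fun y _ => mul_left_comm _ _ _

theorem zero_cv (a : T → F) : cvF 0 a = 0 := by
  funext x
  show ∑ y, (0 : F) * a (y⁻¹ * x) = 0
  simp

theorem cv_zero (a : T → F) : cvF a 0 = 0 := by
  funext x
  show ∑ y, a y * (0 : F) = 0
  simp

instance instRingGA : Ring (GA F T) where
  __ := instAddGA
  mul a b := cvF (F := F) (T := T) a b
  one := un F T
  mul_assoc := cv_assoc
  left_distrib := cv_add
  right_distrib := add_cv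
  zero_mul := zero_cv
  mul_zero := cv_zero
  one_mul := un_mul
  mul_one := mul_un

instance instAlgGA : Algebra F (GA F T) :=
  Algebra.ofModule (fun q a b => smul_cv q a b) (fun q a b => cv_smul q a b)

variable {V : Type} [AddCommGroup V] [Module F V]

/-- a function as an element of the group algebra -/
def mk (a : T → F) : GA F T := a

/-- the operators -/
def opr (ρ : Representation F T V) : GA F T →ₐ[F] Module.End F V :=
  AlgHom.ofLinearMap
    { toFun := fun a => Zop ρ a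
      map_add' := fun a b => by
        show ∑ h, (a h + b h) • ρ h = ∑ h, a h • ρ h + ∑ h, b h • ρ h
        rw [← Finset.sum_add_distrib]
        exact Finset.sum_congr rfl fun h _ => add_smul _ _ _
      map_smul' := fun q a => by
        show ∑ h, (q * a h) • ρ h = q • ∑ h, a h • ρ h
        rw [Finset.smul_sum]
        exact Finset.sum_congr rfl fun h _ => (smul_smul _ _ _).symm }
    (by
      show ∑ h, un F T h • ρ h = 1
      rw [Finset.sum_eq_single 1]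
      · rw [un_self, one_smul, map_one]
      · intro y _ hy
        rw [un_ne hy, zero_smul]
      · intro h
        exact absurd (Finset.mem_univ _) h)
    (fun a b => RPRB.zop_cvF ρ a b)

theorem opr_apply (ρ : Representation F T V) (a : T → F) : opr ρ a = Zop ρ a := rfl

open Classical in
/-- the group elements -/
def gp (F : Type) {T : Type} [Field F] (g : T) : T → F := Pi.single g 1

omit [Group T] [Fintype T] in
theorem gp_self (g : T) : gp F g g = 1 := by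
  classical
  exact Pi.single_eq_same _ _

omit [Group T] [Fintype T] in
theorem gp_ne {g y : T} (hy : y ≠ g) : gp F g y = 0 := by
  classical
  exact Pi.single_eq_of_ne hy _

theorem opr_gp (ρ : Representation F T V) (g : T) : opr ρ (mk (gp F g)) = ρ g := by
  show ∑ h, gp F g h • ρ h = ρ g
  rw [Finset.sum_eq_single g]
  · rw [gp_self, one_smul]
  · intro y _ hy
    rw [gp_ne hy, zero_smul]
  · intro h
    exact absurd (Finset.mem_univ _) h

theorem gp_mul' (g : T) (a : T → F) (x : T) : cvF (gp F g) a x = a (g⁻¹ * x) := by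
  show ∑ y, gp F g y * a (y⁻¹ * x) = a (g⁻¹ * x)
  rw [Finset.sum_eq_single g]
  · rw [gp_self, one_mul]
  · intro y _ hy
    rw [gp_ne hy, zero_mul]
  · intro h
    exact absurd (Finset.mem_univ _) h

theorem mul_gp' (g : T) (a : T → F) (x : T) : cvF a (gp F g) x = a (x * g⁻¹) := by
  show ∑ y, a y * gp F g (y⁻¹ * x) = a (x * g⁻¹)
  rw [Finset.sum_eq_single (x * g⁻¹)]
  · have h1 : (x * g⁻¹)⁻¹ * x = g := by group
    rw [h1, gp_self, mul_one]
  · intro y _ hy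
    have h1 : y⁻¹ * x ≠ g := by
      rintro rfl
      apply hy
      group
    rw [gp_ne h1, mul_zero]
  · intro h
    exact absurd (Finset.mem_univ _) h

theorem gp_mul (g h : T) : cvF (gp F g) (gp F h) = gp F (g * h) := by
  funext x
  rw [gp_mul']
  by_cases hx : x = g * h
  · rw [hx, inv_mul_cancel_left, gp_self, gp_self]
  · have h1 : g⁻¹ * x ≠ h := fun h2 => hx (by rw [← h2, mul_inv_cancel_left])
    rw [gp_ne h1, gp_ne hx]

omit [Group T] in
theorem gp_sum (a : T → F) : a = ∑ g, a g • gp F g := by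
  funext x
  rw [Finset.sum_apply, Finset.sum_eq_single x]
  · rw [Pi.smul_apply, gp_self, smul_eq_mul, mul_one]
  · intro y _ hy
    rw [Pi.smul_apply, gp_ne (Ne.symm hy), smul_zero]
  · intro h
    exact absurd (Finset.mem_univ _) h

theorem dd_of (ρ : Representation F T V) (h : DR2 ρ) : DD (opr ρ) := by
  intro D₁ D₂ h1 h2
  have key : ∀ D : GA F T →ₗ[F] Module.End F V, (∀ x y, D (x * y) = opr ρ x * D y + D x * opr ρ y) →
      IsDer ρ fun g => D (mk (gp F g)) := by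
    intro D hD g k
    show D (mk (gp F (g * k))) = ρ g * D (mk (gp F k)) + D (mk (gp F g)) * ρ k
    have h3 := hD (mk (gp F g)) (mk (gp F k))
    rw [opr_gp, opr_gp] at h3
    rw [← h3, ← gp_mul]
    rfl
  obtain ⟨c₁, c₂, X, hc, hX⟩ := h _ _ (key D₁ h1) (key D₂ h2)
  refine ⟨c₁, c₂, X, hc, fun a => ?_⟩
  obtain ⟨a, rfl⟩ : ∃ a' : T → F, mk a' = a := ⟨a, rfl⟩
  have hX' : ∀ g, c₁ • D₁ (mk (gp F g)) + c₂ • D₂ (mk (gp F g)) =
      opr ρ (mk (gp F g)) * X - X * opr ρ (mk (gp F g)) := by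
    intro g
    rw [opr_gp]
    exact hX g
  have h3 : mk a = ∑ g, a g • mk (gp F g) := gp_sum a
  have e1 : ∀ D : GA F T →ₗ[F] Module.End F V, D (mk a) = ∑ g, a g • D (mk (gp F g)) := by
    intro D
    rw [h3, map_sum]
    exact Finset.sum_congr rfl fun g _ => map_smul _ _ _
  have e2 : opr ρ (mk a) = ∑ g, a g • opr ρ (mk (gp F g)) := e1 (opr ρ).toLinearMap
  rw [e1 D₁, e1 D₂, e2, Finset.smul_sum, Finset.smul_sum, Finset.sum_mul, Finset.mul_sum,
    ← Finset.sum_add_distrib, ← Finset.sum_sub_distrib]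
  refine Finset.sum_congr rfl fun g _ => ?_
  rw [smul_mul_assoc, mul_smul_comm, ← smul_sub, ← hX' g, smul_add, smul_comm c₁, smul_comm c₂]

theorem cvp_eq (z : T → F) (k : ℕ) : mk (cvp z k) = mk z ^ k := by
  induction k with
  | zero => rw [pow_zero]; rfl
  | succ k ih =>
    rw [pow_succ, ← ih]
    rfl

theorem cvq_eq (a : ℕ → T → F) (k : ℕ) : mk (cvq a k) = prd (fun i => mk (a i)) k := by
  induction k with
  | zero => rfl
  | succ k ih =>
    show mk (cvq a k) * mk (a k) = prd (fun i => mk (a i)) k * mk (a k)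
    rw [ih]

end ga

end ALGX

open _root_.Pool.Agent.DPX.ALGX Pool.Agent.DPB Pool.Agent.DPW Representation in
theorem ALGX_thm (h1 : Stmt_MATX) : Stmt_ALGX := by
  intro F T V _ _ _ _ _ _ _ e heC hee ρ hirr hρe hcard hder
  obtain ⟨m, E, b, K, hE, hsum, hb, hK⟩ := h1 F T V e heC hee ρ hirr hρe hcard
  have hV : Nontrivial V := by
    by_contra hn
    rw [not_nontrivial_iff_subsingleton] at hn
    obtain ⟨a, b, hab⟩ := hirr.toNontrivial
    apply hab
    apply Subrepresentation.toSubmodule_injective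
    exact Subsingleton.elim _ _
  obtain ⟨m, rfl⟩ : ∃ m', m = m' + 1 := by
    rcases m with _ | m
    · exfalso
      have hsub : Subsingleton V := b.repr.toEquiv.subsingleton
      exact not_subsingleton V hsub
    · exact ⟨m, rfl⟩
  have hsum' : ∑ i, mk (E i i) = mk e := hsum
  have hdat : Dat (F := F) (fun i j => mk (E i j)) (opr ρ) b := by
    refine ⟨fun i j k l => ?_, fun a => ?_, fun i j k => hb i j k⟩
    · have h2 := hE i j k l
      show mk (cvF (E i j) (E k l)) = _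
      rw [h2]
      split_ifs
      · rfl
      · rfl
    · rw [hsum']
      exact (IDMB.cvF_comm (F := F) (T := T) a heC).symm
  obtain ⟨c, z, hz1, hz2, hz3, hz4, hz5⟩ := hdat.final (dd_of ρ hder) K (by
    intro a ha
    obtain ⟨a, rfl⟩ : ∃ a' : ℕ → T → F, (fun i => mk (a' i)) = a := ⟨fun i => a i, rfl⟩
    rw [← cvq_eq, hK a fun i => ?_]
    · rfl
    · have h2 := ha i
      rw [hsum'] at h2
      exact h2)
  rw [hsum'] at hz2 hz4 hz5
  obtain ⟨z, rfl⟩ : ∃ z' : T → F, mk z' = z := ⟨z, rfl⟩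
  refine ⟨m + 1, c, E, z, hE, hsum, ?_, hz2, ?_, ?_, ?_⟩
  · intro g x
    have h3 : cvF z (gp F g) (g * x) = cvF (gp F g) z (g * x) :=
      congrFun (hz1 (mk (gp F g))) (g * x)
    rw [mul_gp', gp_mul', inv_mul_cancel_left] at h3
    exact h3
  · intro a
    obtain ⟨t, ht⟩ := hz3 (mk a)
    rw [hsum'] at ht
    refine ⟨t, ?_⟩
    have h2 : ∀ k i j, t k i j • (mk z ^ k * mk (E i j)) =
        mk (t k i j • cvF (cvp z k) (E i j)) := by
      intro k i j
      rw [← cvp_eq]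
      rfl
    simp only [h2] at ht
    exact ht
  · rw [← cvp_eq] at hz4
    exact hz4
  · intro k hk
    have h2 := hz5 k hk
    rw [← cvp_eq] at h2
    exact h2

end Pool.Agent.DPX


end
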