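import Mathlib
import Pool.Agent.DAM.C14
import Pool.Agent.DAM.C67

/-! Parts: DPN.SQN, DPX.UNX -/

section

/-!
# SQN: the weighted numbers of characters depend only on the intersection with a normal subgroup of
prime index
-/

set_option linter.unusedSectionVars false

namespace Pool.Agent.DPN

open Pool.Agent.DP Pool.Agent.DPC Pool.Agent.DPM Pool.Agent.Lib_helper13 Representation
open Pool.Agent.Lib_helper13.Dade (pCore DadeHolds dadeSum)

namespace SQN

section Act

variable {W : Type} [Group W]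

/-- The action of `G` on a normal subgroup by conjugation. -/
def cA (G G' : Subgroup W) (h : ∀ y ∈ G, ∀ k ∈ G', y * k * y⁻¹ ∈ G') : G →* MulAut G' where
  toFun y :=
    { toFun := fun k => ⟨y * k * (y : W)⁻¹, h y y.2 k k.2⟩
      invFun := fun k => ⟨(y : W)⁻¹ * k * y, by
        have h1 := h (y : W)⁻¹ (G.inv_mem y.2) k k.2
        rwa [inv_inv] at h1⟩
      left_inv := fun k => by
        apply Subtype.ext
        simp only
        group
      right_inv := fun k => by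
        apply Subtype.ext
        simp only
        group
      map_mul' := fun k l => by
        apply Subtype.ext
        simp only [Subgroup.coe_mul]
        group }
  map_one' := by
    ext k
    simp
  map_mul' x y := by
    ext k
    change ((x * y : G) : W) * k * ((x * y : G) : W)⁻¹ =
      (x : W) * ((y : W) * k * (y : W)⁻¹) * (x : W)⁻¹
    rw [Subgroup.coe_mul]
    group

theorem coe_cA (G G' : Subgroup W) (h : ∀ y ∈ G, ∀ k ∈ G', y * k * y⁻¹ ∈ G') (y : G) (k : G') :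
    ((cA G G' h y k : G') : W) = y * k * (y : W)⁻¹ := rfl

end Act

section Lin

variable {W : Type} [Group W] [Fintype W] {K : Subgroup W}

/-- The linear characters of a central subgroup under an irreducible character and a constituent
of its restriction agree. -/
theorem lin_eq (hK : K ≤ Subgroup.center W) {G G' : Subgroup W} (hle : G' ≤ G) (hKG' : K ≤ G')
    {η : G → ℂ} {ζ : G' → ℂ} (hip : ip (resj (Subgroup.inclusion hle) η) ζ ≠ 0)
    {ν ν' : K →* ℂˣ} (h1 : OvL K ν G η) (h2 : OvL K ν' G' ζ) : ν = ν' := by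
  classical
  ext u
  have hsum : ∑ g, resj (Subgroup.inclusion hle) η g * ζ g⁻¹ ≠ 0 := by
    intro h0
    apply hip
    rw [ip, h0, zero_div]
  set u' : G' := ⟨u, hKG' u.2⟩ with hu'
  have hcomm : ∀ g : G', g⁻¹ * u'⁻¹ = u'⁻¹ * g⁻¹ := by
    intro g
    apply Subtype.ext
    have h3 := Subgroup.mem_center_iff.mp (hK (K.inv_mem u.2)) ((g : W)⁻¹)
    exact h3
  have h3 : ∑ g, resj (Subgroup.inclusion hle) η g * ζ g⁻¹ =
      ((ν u : ℂˣ) : ℂ) * ((ν' u⁻¹ : ℂˣ) : ℂ) *
        ∑ g, resj (Subgroup.inclusion hle) η g * ζ g⁻¹ := by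
    refine (Equiv.sum_comp (Equiv.mulLeft u')
      (fun g => resj (Subgroup.inclusion hle) η g * ζ g⁻¹)).symm.trans ?_
    rw [Finset.mul_sum]
    refine Finset.sum_congr rfl fun g _ => ?_
    have h4 : resj (Subgroup.inclusion hle) η (u' * g) =
        ((ν u : ℂˣ) : ℂ) * resj (Subgroup.inclusion hle) η g := by
      unfold resj
      rw [map_mul]
      exact h1 (Subgroup.inclusion hle u') (Subgroup.inclusion hle g) u.2
    have h5 : ζ (u' * g)⁻¹ = ((ν' u⁻¹ : ℂˣ) : ℂ) * ζ g⁻¹ := by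
      rw [mul_inv_rev, hcomm]
      exact h2 u'⁻¹ g⁻¹ (K.inv_mem u.2)
    rw [Equiv.coe_mulLeft, h4, h5]
    ring
  have h6 : ((ν u : ℂˣ) : ℂ) * ((ν' u⁻¹ : ℂˣ) : ℂ) = 1 := by
    have h7 : (1 - ((ν u : ℂˣ) : ℂ) * ((ν' u⁻¹ : ℂˣ) : ℂ)) *
        ∑ g, resj (Subgroup.inclusion hle) η g * ζ g⁻¹ = 0 := by
      rw [sub_mul, one_mul, ← h3, sub_self]
    rcases mul_eq_zero.mp h7 with h8 | h8
    · exact (sub_eq_zero.mp h8).symm
    · exact absurd h8 hsum
  rw [map_inv] at h6
  have h8 : ν u * (ν' u)⁻¹ = 1 := by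
    apply Units.ext
    rw [Units.val_mul, Units.val_one]
    exact h6
  rw [mul_inv_eq_one.mp h8]

theorem ovl_iff (hK : K ≤ Subgroup.center W) {G G' : Subgroup W} (hle : G' ≤ G) (hKG' : K ≤ G')
    {η : G → ℂ} {ζ : G' → ℂ} (hη : IsIrr η) (hζ : IsIrr ζ)
    (hip : ip (resj (Subgroup.inclusion hle) η) ζ ≠ 0) (μ : K →* ℂˣ) :
    OvL K μ G η ↔ OvL K μ G' ζ := by
  obtain ⟨ν, hν⟩ := ISOL.exists_lin hK (hKG'.trans hle) hη
  obtain ⟨ν', hν'⟩ := ISOL.exists_lin hK hKG' hζ
  have h1 := lin_eq hK hle hKG' hip hν hν'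
  constructor
  · intro h
    rw [ISOL.lin_unique (hKG'.trans hle) hη h hν, h1]
    exact hν'
  · intro h
    rw [ISOL.lin_unique hKG' hζ h hν', ← h1]
    exact hν

end Lin

/-- The arithmetic of the sums. -/
theorem arith {q n : ℕ} (hq : 0 < q) (N N' M I : ℕ → ℕ)
    (h0 : q * N 0 = M 0) (hs : ∀ e, q * N (e + 1) = M (e + 1) + q * (q * I e))
    (h' : ∀ e, N' e = M e + I e) (hn : I n = 0) :
    (q : ℚ) * ∑ e ∈ Finset.range (n + 1), ((q : ℚ) ^ (2 * e))⁻¹ * N e =
      ∑ e ∈ Finset.range (n + 1), ((q : ℚ) ^ (2 * e))⁻¹ * N' e := by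
  have hq' : (q : ℚ) ≠ 0 := by exact_mod_cast hq.ne'
  have e1 : ∑ e ∈ Finset.range (n + 1), ((q : ℚ) ^ (2 * e))⁻¹ * N' e =
      ∑ e ∈ Finset.range (n + 1), ((q : ℚ) ^ (2 * e))⁻¹ * M e +
        ∑ e ∈ Finset.range n, ((q : ℚ) ^ (2 * e))⁻¹ * I e := by
    have h1 : ∑ e ∈ Finset.range n, ((q : ℚ) ^ (2 * e))⁻¹ * I e =
        ∑ e ∈ Finset.range (n + 1), ((q : ℚ) ^ (2 * e))⁻¹ * I e := by
      rw [Finset.sum_range_succ, hn, Nat.cast_zero, mul_zero, add_zero]
    rw [h1, ← Finset.sum_add_distrib]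
    refine Finset.sum_congr rfl fun e _ => ?_
    rw [h' e]
    push_cast
    ring
  rw [e1, Finset.mul_sum, Finset.sum_range_succ', Finset.sum_range_succ']
  have e2 : ∀ e, (q : ℚ) * (((q : ℚ) ^ (2 * (e + 1)))⁻¹ * (N (e + 1) : ℚ)) =
      ((q : ℚ) ^ (2 * (e + 1)))⁻¹ * (M (e + 1) : ℚ) + ((q : ℚ) ^ (2 * e))⁻¹ * (I e : ℚ) := by
    intro e
    have h1 : (q : ℚ) * (N (e + 1) : ℚ) = M (e + 1) + q * (q * I e) := by exact_mod_cast hs e
    have h2 : ((q : ℚ) ^ (2 * (e + 1)))⁻¹ * (q * q) = ((q : ℚ) ^ (2 * e))⁻¹ := by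
      rw [mul_add, mul_one, pow_add]
      field_simp
    calc (q : ℚ) * (((q : ℚ) ^ (2 * (e + 1)))⁻¹ * (N (e + 1) : ℚ))
        = ((q : ℚ) ^ (2 * (e + 1)))⁻¹ * ((q : ℚ) * (N (e + 1) : ℚ)) := by ring
      _ = ((q : ℚ) ^ (2 * (e + 1)))⁻¹ * (M (e + 1) : ℚ) +
          ((q : ℚ) ^ (2 * (e + 1)))⁻¹ * (q * q) * (I e : ℚ) := by rw [h1]; ring
      _ = _ := by rw [h2]
  rw [Finset.sum_congr rfl fun e _ => e2 e, Finset.sum_add_distrib]
  have e3 : (q : ℚ) * (((q : ℚ) ^ (2 * 0))⁻¹ * (N 0 : ℚ)) = ((q : ℚ) ^ (2 * 0))⁻¹ * (M 0 : ℚ) := by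
    have h1 : (q : ℚ) * (N 0 : ℚ) = M 0 := by exact_mod_cast h0
    rw [← h1]
    ring
  rw [e3]
  ring

/-- The count of irreducible characters as the cardinality of a filter. -/
theorem card_sub {Y : Type} [Group Y] [Fintype Y] (P : (Y → ℂ) → Prop) [DecidablePred P] :
    Nat.card {η : Y → ℂ // IsIrr η ∧ P η} = ((irrF Y).filter P).card := by
  apply Nat.subtype_card
  intro ψ
  rw [Finset.mem_filter, mem_irrF]

end SQN

open _root_.Pool.Agent.DPN.SQN in
/-- SQN: the weighted numbers of characters depend only on the intersection with a normal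
subgroup of index `ℓ`. -/
theorem SQN_thm : Stmt_SQN := by
  classical
  intro H W _ _ _ _ 𝔐 ℓ _ π hπ R hRn hkR μ hKc D hD S hSn hSi hRS V V' hV'
  have hℓ : ℓ.Prime := Fact.out
  by_cases hVS : V ≤ S
  · have : V' = V := by rw [hV']; exact inf_eq_left.mpr hVS
    rw [this]
  -- the groups
  set G := V.comap π with hG
  set G' := V'.comap π with hG'
  have hV'V : V' ≤ V := by rw [hV']; exact inf_le_left
  have hV'S : V' ≤ S := by rw [hV']; exact inf_le_right
  have hle : G' ≤ G := Subgroup.comap_mono hV'V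
  have hnorm : ∀ y ∈ G, ∀ k ∈ G', y * k * y⁻¹ ∈ G' := by
    intro y hy k hk
    rw [hG', Subgroup.mem_comap] at hk ⊢
    rw [hG, Subgroup.mem_comap] at hy
    rw [hV'] at hk ⊢
    rw [map_mul, map_mul, map_inv]
    exact ⟨V.mul_mem (V.mul_mem hy hk.1) (V.inv_mem hy), hSn.conj_mem _ hk.2 _⟩
  have hKG' : π.ker ≤ G' := by
    intro x hx
    rw [hG', Subgroup.mem_comap, MonoidHom.mem_ker.mp hx]
    exact Subgroup.one_mem _
  -- the quotient
  have hcardQ : Nat.card (H ⧸ S) = ℓ := by rw [← Subgroup.index_eq_card]; exact hSi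
  have hcyc : IsCyclic (H ⧸ S) := isCyclic_of_prime_card hcardQ
  set e := zmodCyclicMulEquiv hcyc with he
  have hfinC : Finite (Multiplicative (ZMod (Nat.card (H ⧸ S)))) := Finite.of_equiv _ e.symm.toEquiv
  have hcardC : Nat.card (Multiplicative (ZMod (Nat.card (H ⧸ S)))) = ℓ := by
    rw [Nat.card_congr e.toEquiv, hcardQ]
  have hprimeC : Fact (Nat.Prime (Nat.card (Multiplicative (ZMod (Nat.card (H ⧸ S)))))) :=
    ⟨by rw [hcardC]; exact hℓ⟩
  set φ : G →* Multiplicative (ZMod (Nat.card (H ⧸ S))) :=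
    e.symm.toMonoidHom.comp ((QuotientGroup.mk' S).comp (π.comp G.subtype)) with hφ
  have hφ1 : ∀ y : G, φ y = 1 ↔ π y ∈ S := by
    intro y
    change e.symm (QuotientGroup.mk' S (π y)) = 1 ↔ _
    rw [EmbeddingLike.map_eq_one_iff]
    exact QuotientGroup.eq_one_iff _
  have hc : Cliff (Subgroup.inclusion hle) φ (cA G G' hnorm) ℓ := by
    refine ⟨hℓ, Subgroup.inclusion_injective hle, ?_, ?_, ?_, hcardC⟩
    · rw [← MonoidHom.range_eq_top]
      rcases Subgroup.eq_bot_or_eq_top_of_prime_card φ.range with h1 | h1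
      · exfalso
        apply hVS
        intro v hv
        obtain ⟨x, rfl⟩ := hπ v
        have h2 : φ ⟨x, hv⟩ ∈ φ.range := ⟨_, rfl⟩
        rw [h1, Subgroup.mem_bot] at h2
        exact (hφ1 ⟨x, hv⟩).mp h2
      · exact h1
    · intro y
      rw [hφ1]
      constructor
      · intro h1
        have h2 : (y : W) ∈ G' := by
          rw [hG', Subgroup.mem_comap, hV']
          exact ⟨y.2, h1⟩
        exact ⟨⟨y, h2⟩, rfl⟩
      · rintro ⟨k, rfl⟩
        have h2 : π (k : W) ∈ V' := k.2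
        exact hV'S h2
    · intro y k
      apply Subtype.ext
      rfl
  have hclg : ClG (Subgroup.inclusion hle) (cA G G' hnorm) φ := ⟨hc.inj, hc.act, hc.ker⟩
  -- the order of `V`
  have hcard : Nat.card V = ℓ * Nat.card V' := by
    have h1 := hc.card_mul
    have h2 : ∀ U : Subgroup H, Nat.card ↥(U.comap π) = Nat.card π.ker * Nat.card U := by
      intro U
      have h3 := DPM.TD.card_comap π hπ U
      exact h3
    rw [hG, hG', h2, h2] at h1
    have h4 : 0 < Nat.card π.ker := Nat.card_pos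
    apply Nat.eq_of_mul_eq_mul_left h4
    rw [h1]
    ring
  -- the invariants of the characters above and below
  have hD' : ∀ (ψ : G → ℂ) (θ : G' → ℂ), IsIrr ψ → IsIrr θ →
      ip (resj (Subgroup.inclusion hle) ψ) θ ≠ 0 →
      (D (cen 𝔐 G.subtype ψ) ↔ D (cen 𝔐 G'.subtype θ)) := by
    intro ψ θ hψ hθ hip
    apply hD
    intro w hw
    exact RCE_thm G' G _ W 𝔐 _ _ _ hclg G.subtype R hRn (by
      intro t ht
      rw [← hc.ker, hφ1]
      exact hRS ht) ψ θ hψ hθ hip w hw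
  set n := padicValNat ℓ (Nat.card W) with hn
  set N : ℕ → ℕ := fun e => Nat.card {η : G → ℂ // IsIrr η ∧ OvL π.ker μ _ η ∧ HasDefect ℓ η e ∧
    D (cen 𝔐 G.subtype η)} with hN
  set N' : ℕ → ℕ := fun e => Nat.card {η : G' → ℂ // IsIrr η ∧ OvL π.ker μ _ η ∧
    HasDefect ℓ η e ∧ D (cen 𝔐 G'.subtype η)} with hN'
  set Q : ℕ → (G' → ℂ) → Prop := fun e ζ => OvL π.ker μ G' ζ ∧ HasDefect ℓ ζ e ∧
    D (cen 𝔐 G'.subtype ζ) with hQ
  set M : ℕ → ℕ := fun e =>
    ((irrF G').filter (fun θ => ¬ Inv (cA G G' hnorm) θ ∧ Q e θ)).card with hM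
  set I : ℕ → ℕ := fun e =>
    ((irrF G').filter (fun θ => Inv (cA G G' hnorm) θ ∧ Q e θ)).card with hI
  have hvℓ : padicValNat ℓ ℓ = 1 := padicValNat_self
  have hNe : ∀ e, N e = ((irrF G).filter (fun η => OvL π.ker μ _ η ∧ HasDefect ℓ η e ∧
      D (cen 𝔐 G.subtype η))).card := fun e => card_sub _
  have hN'e : ∀ e, N' e = ((irrF G').filter (Q e)).card := fun e => card_sub _
  have hmoved : ∀ e (ψ : G → ℂ) (θ : G' → ℂ), IsIrr ψ → IsIrr θ →
      ¬ Inv (cA G G' hnorm) θ → ip (resj (Subgroup.inclusion hle) ψ) θ ≠ 0 →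
      ((OvL π.ker μ _ ψ ∧ HasDefect ℓ ψ e ∧ D (cen 𝔐 G.subtype ψ)) ↔ Q e θ) := by
    intro e ψ θ hψ hθ hinv hip
    rw [ovl_iff hKc hle hKG' hψ hθ hip μ, hc.hasDefect_moved hθ hinv hψ hip e,
      hD' ψ θ hψ hθ hip]
  have harith := arith (n := n) hℓ.pos N N' M I ?_ ?_ ?_ ?_
  · rw [hcard]
    push_cast
    rw [← harith]
    ring
  · -- defect zero
    rw [hNe, hc.count (fun η => OvL π.ker μ _ η ∧ HasDefect ℓ η 0 ∧ D (cen 𝔐 G.subtype η))
      (fun _ => False) (Q 0)]
    · simp [hM]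
    · intro ψ θ hψ hθ hinv hip
      simp only [iff_false]
      rintro ⟨-, h1, -⟩
      obtain ⟨e', -, h2⟩ := (hc.hasDefect_inv hθ hinv hψ hip 0).mp h1
      rw [hvℓ] at h2
      omega
    · exact hmoved 0
  · intro e
    rw [hNe, hc.count (fun η => OvL π.ker μ _ η ∧ HasDefect ℓ η (e + 1) ∧
      D (cen 𝔐 G.subtype η)) (Q e) (Q (e + 1))]
    · intro ψ θ hψ hθ hinv hip
      rw [ovl_iff hKc hle hKG' hψ hθ hip μ, hc.hasDefect_inv hθ hinv hψ hip (e + 1),
        hD' ψ θ hψ hθ hip, hvℓ]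
      constructor
      · rintro ⟨h1, ⟨e', h2, h3⟩, h4⟩
        have : e' = e := by omega
        rw [this] at h2
        exact ⟨h1, h2, h4⟩
      · rintro ⟨h1, h2, h4⟩
        exact ⟨h1, ⟨e, h2, rfl⟩, h4⟩
    · exact hmoved (e + 1)
  · intro e
    rw [hN'e, hM, hI]
    have h1 := Finset.card_filter_add_card_filter_not (s := (irrF G').filter (Q e))
      (fun θ => Inv (cA G G' hnorm) θ)
    rw [Finset.filter_filter, Finset.filter_filter] at h1
    rw [← h1, add_comm]
    congr 1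
    · congr 1
      ext θ
      simp only [Finset.mem_filter]
      tauto
    · congr 1
      ext θ
      simp only [Finset.mem_filter]
      tauto
  · -- no invariant character has defect `n`
    rw [hI]
    simp only
    rw [Finset.card_eq_zero, Finset.filter_eq_empty_iff]
    rintro θ hθ ⟨hinv, -, ⟨m, hm1, hm2⟩, -⟩
    have h1 : Nat.card G = ℓ * Nat.card G' := hc.card_mul
    have h2 : Nat.card G ∣ Nat.card W := Subgroup.card_subgroup_dvd_card G
    have h3 : padicValNat ℓ (Nat.card G) ≤ n := by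
      rw [hn]
      exact (padicValNat_dvd_iff_le (Nat.card_pos.ne')).mp
        ((pow_padicValNat_dvd).trans h2)
    rw [h1, padicValNat.mul hℓ.ne_zero Nat.card_pos.ne', hvℓ] at h3
    omega

end Pool.Agent.DPN


end

section

/-!
# UNX: extension of homomorphisms
-/

set_option autoImplicit false
set_option linter.unusedSectionVars false

namespace Pool.Agent.DPX

open Pool.Agent.DPB Pool.Agent.DPW Representation

namespace UNX

section Basic

variable {F T V V' W : Type} [Field F] [Group T] [Fintype T] [AddCommGroup V] [Module F V]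
  [AddCommGroup V'] [Module F V'] [AddCommGroup W] [Module F W]

theorem zop_apply (ρ : Representation F T V) (z : T → F) (v : V) :
    Zop ρ z v = ∑ h, z h • ρ h v := by
  unfold Zop
  rw [LinearMap.sum_apply]
  rfl

theorem zop_eqv {ρ : Representation F T V} {ρ' : Representation F T V'}
    {f : V →ₗ[F] V'} (hf : Eqv ρ ρ' f) (z : T → F) (v : V) : f (Zop ρ z v) = Zop ρ' z (f v) := by
  rw [zop_apply, zop_apply, map_sum]
  refine Finset.sum_congr rfl fun h _ => ?_
  rw [map_smul, hf h v]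

theorem zop_comm (ρ : Representation F T V) {z : T → F} (hz : z ∈ CF F T) (g : T) (v : V) :
    ρ g (Zop ρ z v) = Zop ρ z (ρ g v) := by
  rw [zop_apply, zop_apply, map_sum]
  refine Fintype.sum_equiv (MulAut.conj g).toEquiv _ _ fun h => ?_
  have e1 : z (g * h * g⁻¹) = z h := hz g h
  change ρ g (z h • ρ h v) = z (g * h * g⁻¹) • ρ (g * h * g⁻¹) (ρ g v)
  rw [e1, map_smul, ← Module.End.mul_apply, ← Module.End.mul_apply, ← map_mul, ← map_mul,
    inv_mul_cancel_right]

theorem zop_cvF (ρ : Representation F T V) (a b : T → F) (v : V) :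
    Zop ρ (cvF a b) v = Zop ρ a (Zop ρ b v) := by
  rw [zop_apply, zop_apply, zop_apply]
  have h1 : ∀ x : T, cvF a b x • ρ x v = ∑ y, (a y * b (y⁻¹ * x)) • ρ x v := by
    intro x
    unfold cvF
    rw [Finset.sum_smul]
  rw [Finset.sum_congr rfl fun x _ => h1 x, Finset.sum_comm]
  refine Finset.sum_congr rfl fun y _ => ?_
  rw [map_sum, Finset.smul_sum]
  refine Fintype.sum_equiv (Equiv.mulLeft y⁻¹) _ _ fun x => ?_
  change (a y * b (y⁻¹ * x)) • ρ x v = a y • ρ y (b (y⁻¹ * x) • ρ (y⁻¹ * x) v)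
  rw [map_smul, smul_smul, ← Module.End.mul_apply, ← map_mul, mul_inv_cancel_left]

theorem zop_cvp (ρ : Representation F T V) (z : T → F) (k : ℕ) :
    Zop ρ (cvp z k) = Zop ρ z ^ k := by
  induction k with
  | zero =>
    rw [pow_zero]
    ext v
    rw [zop_apply, Finset.sum_eq_single 1]
    · simp [cvp]
    · intro h _ hh
      simp [cvp, hh]
    · intro h
      exact absurd (Finset.mem_univ _) h
  | succ k ih =>
    ext v
    rw [pow_succ, Module.End.mul_apply, ← ih]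
    exact zop_cvF ρ _ _ v

theorem zop_zero (ρ : Representation F T V) : Zop ρ (0 : T → F) = 0 := by
  ext v
  rw [zop_apply]
  simp

/-- The submodules of an irreducible representation. -/
theorem irr_cases {σ : Representation F T W} (hσ : σ.IsIrreducible) (U : Submodule F W)
    (hU : ∀ (g : T) (w : W), w ∈ U → σ g w ∈ U) : U = ⊥ ∨ U = ⊤ := by
  have h : IsSimpleOrder (Subrepresentation σ) := hσ
  rcases h.eq_bot_or_eq_top ⟨U, fun g w hw => hU g w hw⟩ with h1 | h1
  · left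
    exact congrArg Subrepresentation.toSubmodule h1
  · right
    exact congrArg Subrepresentation.toSubmodule h1

theorem irr_nontriv {σ : Representation F T W} (hσ : σ.IsIrreducible) : ∃ w : W, w ≠ 0 := by
  by_contra hcon
  push Not at hcon
  have h : IsSimpleOrder (Subrepresentation σ) := hσ
  obtain ⟨a, b, hab⟩ := h.exists_pair_ne
  apply hab
  apply Subrepresentation.toSubmodule_injective
  ext w
  rw [hcon w]
  exact ⟨fun _ => Submodule.zero_mem _, fun _ => Submodule.zero_mem _⟩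

/-- A linear map which commutes with the representations, from an irreducible one, is injective. -/
theorem irr_inj {σ : Representation F T W} (hσ : σ.IsIrreducible) {ρ : Representation F T V}
    {j : W →ₗ[F] V} (hj : Eqv σ ρ j) (h0 : j ≠ 0) (w : W) (hw : j w = 0) : w = 0 := by
  rcases irr_cases hσ (LinearMap.ker j) (fun g w hw => by
    rw [LinearMap.mem_ker] at hw ⊢
    rw [hj, hw, map_zero]) with h | h
  · have : w ∈ LinearMap.ker j := hw
    rw [h] at this
    exact (Submodule.mem_bot F).1 this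
  · exact absurd (LinearMap.ker_eq_top.1 h) h0

/-- The terms of `trC` depend only on the cosets. -/
theorem term_eq (P : Subgroup T) (ρ : Representation F T V) (ρ' : Representation F T V')
    (f : V →ₗ[F] V') (hf : ∀ p ∈ P, ∀ v, f (ρ p v) = ρ' p (f v)) (a b : T)
    (hab : (a : T ⧸ P) = (b : T ⧸ P)) (v : V) :
    ρ' a (f (ρ a⁻¹ v)) = ρ' b (f (ρ b⁻¹ v)) := by
  have h1 : a⁻¹ * b ∈ P := QuotientGroup.eq.1 hab
  have h2 : ρ a⁻¹ v = ρ (a⁻¹ * b) (ρ b⁻¹ v) := by
    rw [← Module.End.mul_apply, ← map_mul]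
    congr 2
    group
  have h3 : ρ' a (ρ' (a⁻¹ * b) (f (ρ b⁻¹ v))) = ρ' b (f (ρ b⁻¹ v)) := by
    rw [← Module.End.mul_apply, ← map_mul]
    congr 2
    group
  rw [h2, hf _ h1, h3]

open Classical in
theorem trC_apply (P : Subgroup T) (ρ : Representation F T V) (ρ' : Representation F T V')
    (f : V →ₗ[F] V') (v : V) :
    trC P ρ ρ' f v = ∑ q : T ⧸ P, ρ' q.out (f (ρ q.out⁻¹ v)) := by
  unfold trC
  rw [LinearMap.sum_apply]
  rfl

/-- `trC f` commutes with the representations if `f` commutes with `P`. -/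
theorem trC_eqv (P : Subgroup T) (ρ : Representation F T V) (ρ' : Representation F T V')
    (f : V →ₗ[F] V') (hf : ∀ p ∈ P, ∀ v, f (ρ p v) = ρ' p (f v)) :
    Eqv ρ ρ' (trC P ρ ρ' f) := by
  classical
  intro g v
  rw [trC_apply, trC_apply, map_sum]
  refine (Function.Bijective.sum_comp (MulAction.bijective g)
    (fun q : T ⧸ P => ρ' q.out (f (ρ q.out⁻¹ (ρ g v))))).symm.trans ?_
  refine Finset.sum_congr rfl fun q _ => ?_
  have h1 : (((g • q).out : T) : T ⧸ P) = ((g * q.out : T) : T ⧸ P) := by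
    have e1 : ∀ r : T ⧸ P, ((r.out : T) : T ⧸ P) = r := fun r => Quotient.out_eq r
    rw [e1]
    show g • q = g • ((q.out : T) : T ⧸ P)
    rw [e1]
  have h2 := term_eq P ρ ρ' f hf _ _ h1 (ρ g v)
  rw [h2]
  have h3 : ρ (g * q.out)⁻¹ (ρ g v) = ρ q.out⁻¹ v := by
    rw [← Module.End.mul_apply, ← map_mul]
    congr 2
    group
  rw [h3, map_mul]
  rfl

/-- Extension of a linear map. -/
theorem ext_ker (f : V →ₗ[F] V') (g : V →ₗ[F] W) (h : ∀ v, f v = 0 → g v = 0) :
    ∃ u : V' →ₗ[F] W, ∀ v, u (f v) = g v := by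
  obtain ⟨s, hs⟩ := f.rangeRestrict.exists_rightInverse_of_surjective f.range_rangeRestrict
  obtain ⟨u, hu⟩ := (g ∘ₗ s).exists_extend
  refine ⟨u, fun v => ?_⟩
  have h1 : u (f v) = g (s ⟨f v, ⟨v, rfl⟩⟩) := LinearMap.congr_fun hu ⟨f v, ⟨v, rfl⟩⟩
  have h2 : f (s ⟨f v, ⟨v, rfl⟩⟩) = f v :=
    congrArg Subtype.val (LinearMap.congr_fun hs ⟨f v, ⟨v, rfl⟩⟩)
  rw [h1]
  have h3 := h (s ⟨f v, ⟨v, rfl⟩⟩ - v) (by rw [map_sub, h2, sub_self])
  rw [map_sub, sub_eq_zero] at h3
  exact h3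

end Basic

/-- The index of the centralizer of a normal subgroup of prime order is not zero in `F`. -/
theorem index_ne {H F : Type} [Field F] [Group H] [Fintype H] {ℓ : ℕ} [Fact ℓ.Prime] [CharP F ℓ]
    (P : Subgroup H) [P.Normal] (hP : Nat.card P = ℓ) :
    ((Subgroup.centralizer (P : Set H)).index : F) ≠ 0 := by
  have hc : IsCyclic P := isCyclic_of_prime_card hP
  let α : H →* MulAut P := MulAut.conjNormal
  have hα : α.ker ≤ Subgroup.centralizer (P : Set H) := by
    intro h hh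
    rw [MonoidHom.mem_ker] at hh
    rw [Subgroup.mem_centralizer_iff]
    intro u hu
    have h2 : ((α h ⟨u, hu⟩ : P) : H) = u := by rw [hh]; rfl
    have h3 : h * u * h⁻¹ = u := h2
    rw [mul_inv_eq_iff_eq_mul] at h3
    exact h3.symm
  have h1 : (Subgroup.centralizer (P : Set H)).index ∣ α.ker.index := Subgroup.index_dvd_of_le hα
  have h2 : α.ker.index = Nat.card α.range := Subgroup.index_ker α
  have h3 : Nat.card α.range ≤ Nat.card (MulAut P) := Subgroup.card_le_card_group _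
  have h4 : Nat.card (MulAut P) = Nat.totient ℓ := by
    rw [IsCyclic.card_mulAut, hP]
  have h5 : Nat.totient ℓ < ℓ := Nat.totient_lt ℓ (Fact.out : ℓ.Prime).one_lt
  have h6 : 0 < α.ker.index := Nat.pos_of_ne_zero Subgroup.index_ne_zero_of_finite
  have h7 := Nat.le_of_dvd h6 h1
  have h8 : 0 < (Subgroup.centralizer (P : Set H)).index :=
    Nat.pos_of_ne_zero Subgroup.index_ne_zero_of_finite
  intro h9
  have h10 := Nat.le_of_dvd h8 ((CharP.cast_eq_zero_iff F ℓ _).1 h9)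
  omega

/-- The data of SPX. -/
structure Dat {F N : Type} [Field F] [Group N] [Fintype N] (C : Subgroup N) (e z : N → F)
    (s K : ℕ) (a b : Fin s → N → F) : Prop where
  ind : (C.index : F) ≠ 0
  ecf : e ∈ CF F N
  idem : cvF e e = e
  nil : cvp z K = 0
  ea : ∀ i, cvF e (a i) = a i
  be : ∀ i, cvF (b i) e = b i
  rng : ∀ (V : Type) [AddCommGroup V] [Module F V] (ρ : Representation F N V)
    (t : ℕ) (g : N) (v : V), ρ g ((Zop ρ z ^ t) v) ∈ LinearMap.range (Zop ρ z ^ t)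
  one : ∀ (V : Type) [AddCommGroup V] [Module F V] (ρ : Representation F N V),
    ∑ i, Zop ρ (a i) ∘ₗ Zop ρ (b i) = Zop ρ e
  av : ∀ (V : Type) [AddCommGroup V] [Module F V] (ρ : Representation F N V)
    (V' : Type) [AddCommGroup V'] [Module F V'] (ρ' : Representation F N V')
    (f : V →ₗ[F] V'), f ∘ₗ Zop ρ z = Zop ρ' z ∘ₗ f → ∀ c ∈ C,
      ρ' c ∘ₗ (∑ i, Zop ρ' (a i) ∘ₗ f ∘ₗ Zop ρ (b i)) =
        (∑ i, Zop ρ' (a i) ∘ₗ f ∘ₗ Zop ρ (b i)) ∘ₗ ρ c

section Main

variable {F N V V' W : Type} [Field F] [Group N] [Fintype N] [AddCommGroup V] [Module F V]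
  [AddCommGroup V'] [Module F V'] [AddCommGroup W] [Module F W]
  {C : Subgroup N} {e z : N → F} {s K : ℕ} {a b : Fin s → N → F}

theorem Dat.pow_eq (D : Dat C e z s K a b) (ρ : Representation F N V) : Zop ρ z ^ K = 0 := by
  rw [← zop_cvp, D.nil, zop_zero]

/-- `z` acts as zero on the irreducible representations. -/
theorem Dat.irr (D : Dat C e z s K a b) {σ : Representation F N W} (hσ : σ.IsIrreducible) :
    Zop σ z = 0 := by
  rcases irr_cases hσ (LinearMap.range (Zop σ z)) (fun g w hw => by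
    obtain ⟨v, rfl⟩ := hw
    have := D.rng W σ 1 g v
    rwa [pow_one] at this) with h | h
  · exact LinearMap.range_eq_bot.1 h
  · exfalso
    have hs : Function.Surjective (Zop σ z) := LinearMap.range_eq_top.1 h
    have hk : ∀ k : ℕ, Function.Surjective (Zop σ z ^ k) := by
      intro k
      rw [Module.End.coe_pow]
      exact hs.iterate k
    obtain ⟨w, hw⟩ := irr_nontriv hσ
    obtain ⟨v, hv⟩ := hk K w
    rw [D.pow_eq σ] at hv
    exact hw hv.symm

/-- `e` acts as zero or as one on the irreducible representations. -/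
theorem Dat.e_irr (D : Dat C e z s K a b) {σ : Representation F N W} (hσ : σ.IsIrreducible) :
    Zop σ e = 0 ∨ Zop σ e = 1 := by
  rcases irr_cases hσ (LinearMap.range (Zop σ e)) (fun g w hw => by
    obtain ⟨v, rfl⟩ := hw
    exact ⟨σ g v, (zop_comm σ D.ecf g v).symm⟩) with h | h
  · exact Or.inl (LinearMap.range_eq_bot.1 h)
  · refine Or.inr ?_
    have hs : Function.Surjective (Zop σ e) := LinearMap.range_eq_top.1 h
    ext w
    obtain ⟨v, rfl⟩ := hs w
    rw [← zop_cvF, D.idem]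
    rfl

/-- The map `∑ a f b`. -/
noncomputable def mid (a b : Fin s → N → F) (ρ : Representation F N V)
    (ρ' : Representation F N V') (f : V →ₗ[F] V') : V →ₗ[F] V' :=
  ∑ i, Zop ρ' (a i) ∘ₗ f ∘ₗ Zop ρ (b i)

theorem mid_apply (ρ : Representation F N V) (ρ' : Representation F N V') (f : V →ₗ[F] V')
    (v : V) : mid a b ρ ρ' f v = ∑ i, Zop ρ' (a i) (f (Zop ρ (b i) v)) := by
  unfold mid
  rw [LinearMap.sum_apply]
  rfl

/-- The average of `∑ a f b` over the cosets. -/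
noncomputable def avg (C : Subgroup N) (a b : Fin s → N → F) (ρ : Representation F N V)
    (ρ' : Representation F N V') (f : V →ₗ[F] V') : V →ₗ[F] V' :=
  (C.index : F)⁻¹ • trC C ρ ρ' (mid a b ρ ρ' f)

theorem Dat.avg_eqv (D : Dat C e z s K a b) (ρ : Representation F N V)
    (ρ' : Representation F N V') (f : V →ₗ[F] V') (hf : f ∘ₗ Zop ρ z = Zop ρ' z ∘ₗ f) :
    Eqv ρ ρ' (avg C a b ρ ρ' f) := by
  intro g v
  have h := trC_eqv C ρ ρ' (mid a b ρ ρ' f) (fun c hc v => by
    have := LinearMap.congr_fun (D.av V ρ V' ρ' f hf c hc) v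
    exact this.symm) g v
  unfold avg
  rw [LinearMap.smul_apply, LinearMap.smul_apply, map_smul, h]

theorem Dat.avg_e (D : Dat C e z s K a b) (ρ : Representation F N V)
    (ρ' : Representation F N V') (f : V →ₗ[F] V') (v : V) :
    Zop ρ' e (avg C a b ρ ρ' f v) = avg C a b ρ ρ' f v := by
  classical
  have h1 : ∀ v, Zop ρ' e (mid a b ρ ρ' f v) = mid a b ρ ρ' f v := by
    intro v
    rw [mid_apply, map_sum]
    refine Finset.sum_congr rfl fun i _ => ?_
    rw [← zop_cvF, D.ea]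
  unfold avg
  rw [LinearMap.smul_apply, map_smul, trC_apply, map_sum]
  congr 1
  refine Finset.sum_congr rfl fun q _ => ?_
  rw [← zop_comm ρ' D.ecf, h1]

/-- The average on the image of a homomorphism. -/
theorem Dat.avg_comp (D : Dat C e z s K a b) (ρ : Representation F N V)
    (ρ' : Representation F N V') (f : V →ₗ[F] V') (σ : Representation F N W) (k : W →ₗ[F] V)
    (g : W →ₗ[F] V') (hk : Eqv σ ρ k) (hg : Eqv σ ρ' g) (hge : ∀ w, Zop ρ' e (g w) = g w)
    (hfk : ∀ w, f (k w) = g w) (w : W) : avg C a b ρ ρ' f (k w) = g w := by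
  classical
  have h1 : ∀ w, mid a b ρ ρ' f (k w) = g w := by
    intro w
    have h2 := LinearMap.congr_fun (D.one V' ρ') (g w)
    rw [hge, LinearMap.sum_apply] at h2
    rw [mid_apply, ← h2]
    refine Finset.sum_congr rfl fun i _ => ?_
    rw [LinearMap.comp_apply, ← zop_eqv hk, hfk, zop_eqv hg]
  unfold avg
  rw [LinearMap.smul_apply, trC_apply]
  have h3 : ∀ q : N ⧸ C, ρ' q.out (mid a b ρ ρ' f (ρ q.out⁻¹ (k w))) = g w := by
    intro q
    rw [← hk, h1, ← hg, ← Module.End.mul_apply, ← map_mul, mul_inv_cancel, map_one]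
    rfl
  rw [Finset.sum_congr rfl fun q _ => h3 q, Finset.sum_const, Finset.card_univ,
    ← Nat.cast_smul_eq_nsmul F, ← Nat.card_eq_fintype_card, ← Subgroup.index_eq_card,
    inv_smul_smul₀ D.ind]

theorem Dat.avg_comp0 (D : Dat C e z s K a b) (ρ : Representation F N V)
    (ρ' : Representation F N V') (f : V →ₗ[F] V') (σ : Representation F N W) (k : W →ₗ[F] V)
    (hk : Eqv σ ρ k) (hke : ∀ w, Zop ρ e (k w) = 0) (w : W) :
    avg C a b ρ ρ' f (k w) = 0 := by
  classical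
  have h1 : ∀ w, mid a b ρ ρ' f (k w) = 0 := by
    intro w
    rw [mid_apply]
    refine Finset.sum_eq_zero fun i _ => ?_
    rw [← D.be i, zop_cvF, hke, map_zero, map_zero, map_zero]
  unfold avg
  rw [LinearMap.smul_apply, trC_apply]
  have h3 : ∀ q : N ⧸ C, ρ' q.out (mid a b ρ ρ' f (ρ q.out⁻¹ (k w))) = 0 := by
    intro q
    rw [← hk, h1, map_zero]
  rw [Finset.sum_congr rfl fun q _ => h3 q, Finset.sum_const_zero, smul_zero]

/-- The largest submodule of `e V` on which `z` acts as zero. -/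
def MM (e z : N → F) (ρ : Representation F N V) (he : e ∈ CF F N) : Subrepresentation ρ where
  toSubmodule :=
    { carrier := {v | Zop ρ e v = v ∧ ∀ g, Zop ρ z (ρ g v) = 0}
      zero_mem' := ⟨map_zero _, fun g => by rw [map_zero, map_zero]⟩
      add_mem' := by
        rintro v w ⟨h1, h2⟩ ⟨h3, h4⟩
        exact ⟨by rw [map_add, h1, h3], fun g => by rw [map_add, map_add, h2, h4, add_zero]⟩
      smul_mem' := by
        rintro c v ⟨h1, h2⟩
        exact ⟨by rw [map_smul, h1], fun g => by rw [map_smul, map_smul, h2, smul_zero]⟩ }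
  apply_mem_toSubmodule := by
    rintro h v ⟨h1, h2⟩
    refine ⟨by rw [← zop_comm ρ he, h1], fun g => ?_⟩
    have h3 := h2 (g * h)
    rw [map_mul] at h3
    exact h3

theorem mem_MM {ρ : Representation F N V} {he : e ∈ CF F N} {v : V} :
    v ∈ (MM e z ρ he).toSubmodule ↔ Zop ρ e v = v ∧ ∀ g, Zop ρ z (ρ g v) = 0 := Iff.rfl

theorem sub_eqv (ρ : Representation F N V) (U : Subrepresentation ρ) :
    Eqv U.toRepresentation ρ U.toSubmodule.subtype := fun _ _ => rfl

/-- Submodules of `MM` which are intersections. -/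
def MI (ρ : Representation F N V) (M : Subrepresentation ρ) (R : Submodule F V)
    (hR : ∀ (g : N) (v : V), v ∈ R → ρ g v ∈ R) : Subrepresentation ρ where
  toSubmodule := M.toSubmodule ⊓ R
  apply_mem_toSubmodule := by
    rintro h v ⟨h1, h2⟩
    exact ⟨M.apply_mem_toSubmodule h h1, hR h v h2⟩

/-- The linear map `θ`. -/
theorem Dat.theta (D : Dat C e z s K a b) {ρ : Representation F N V}
    {σ : Representation F N W} (hσ : σ.IsIrreducible) (hσe : Zop σ e = 1)
    {j : W →ₗ[F] V} (hj : Eqv σ ρ j) (t : ℕ)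
    (h1 : ∀ w, j w ∈ LinearMap.range (Zop ρ z ^ (t + 1)) → w = 0) :
    ∃ θ : V →ₗ[F] W, (∀ w, θ (j w) = w) ∧ (∀ v, θ ((Zop ρ z ^ (t + 1)) v) = 0) ∧
      ∀ (g : N) (v : V), v ∈ (MM e z ρ D.ecf).toSubmodule → θ (ρ g v) = σ g (θ v) := by
  obtain ⟨R, hRdef⟩ : ∃ R, R = LinearMap.range (Zop ρ z ^ (t + 1)) := ⟨_, rfl⟩
  have hRst : ∀ (g : N) (v : V), v ∈ R → ρ g v ∈ R := by
    intro g v hv
    rw [hRdef] at hv ⊢
    obtain ⟨v, rfl⟩ := hv
    exact D.rng V ρ (t + 1) g v
  obtain ⟨M, hM⟩ : ∃ M, M = MM e z ρ D.ecf := ⟨_, rfl⟩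
  have hjM : ∀ w, j w ∈ M.toSubmodule := by
    intro w
    rw [hM, mem_MM]
    refine ⟨?_, fun g => ?_⟩
    · rw [← zop_eqv hj, hσe]
      rfl
    · rw [← hj, ← zop_eqv hj, D.irr hσ, LinearMap.zero_apply, map_zero]
  -- a linear map which vanishes on `R`
  obtain ⟨p', hp'⟩ := ext_ker (R.mkQ ∘ₗ j) (LinearMap.id : W →ₗ[F] W) (fun w hw => by
    have h2 : j w ∈ R := by
      rw [← Submodule.Quotient.mk_eq_zero]
      exact hw
    rw [hRdef] at h2
    exact h1 w h2)
  obtain ⟨p, hp⟩ : ∃ p : V →ₗ[F] W, p = p' ∘ₗ R.mkQ := ⟨_, rfl⟩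
  have hpj : ∀ w, p (j w) = w := by
    intro w
    rw [hp]
    exact hp' w
  have hpR : ∀ v ∈ R, p v = 0 := by
    intro v hv
    rw [hp, LinearMap.comp_apply, Submodule.mkQ_apply, (Submodule.Quotient.mk_eq_zero R).2 hv,
      map_zero]
  -- the average
  obtain ⟨q, hq⟩ : ∃ q : M.toSubmodule →ₗ[F] W,
    q = avg C a b M.toRepresentation σ (p ∘ₗ M.toSubmodule.subtype) := ⟨_, rfl⟩
  have hMz0 : ∀ v ∈ M.toSubmodule, Zop ρ z v = 0 := by
    intro v h4
    rw [hM, mem_MM] at h4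
    have h5 := h4.2 1
    rwa [map_one] at h5
  have hMz : ∀ m : M.toSubmodule, Zop M.toRepresentation z m = 0 := by
    intro m
    apply Subtype.ext
    have h2 := zop_eqv (sub_eqv ρ M) z m
    have h3 : Zop ρ z (m : V) = 0 := hMz0 _ m.2
    have h6 : ((Zop M.toRepresentation z m : M.toSubmodule) : V) = Zop ρ z (m : V) := h2
    rw [h6, h3]
    rfl
  have hqe : Eqv M.toRepresentation σ q := by
    rw [hq]
    refine D.avg_eqv _ _ _ ?_
    ext m
    rw [LinearMap.comp_apply, hMz, map_zero, LinearMap.comp_apply, D.irr hσ]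
    rfl
  have hqj : ∀ w, q ⟨j w, hjM w⟩ = w := by
    intro w
    rw [hq]
    refine D.avg_comp M.toRepresentation σ _ σ (j.codRestrict M.toSubmodule hjM) LinearMap.id
      ?_ ?_ ?_ ?_ w
    · intro g w
      apply Subtype.ext
      exact hj g w
    · intro g w
      rfl
    · intro w
      rw [hσe]
      rfl
    · intro w
      exact hpj w
  have hqR : ∀ m : M.toSubmodule, (m : V) ∈ R → q m = 0 := by
    intro m hm
    rw [hq]
    have hle : (MI ρ M R hRst).toSubmodule ≤ M.toSubmodule := inf_le_left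
    refine D.avg_comp M.toRepresentation σ _ (MI ρ M R hRst).toRepresentation
      (Submodule.inclusion hle) 0 ?_ ?_ ?_ ?_ ⟨(m : V), ⟨m.2, hm⟩⟩
    · intro g v
      rfl
    · intro g v
      rw [LinearMap.zero_apply, LinearMap.zero_apply, map_zero]
    · intro v
      rw [LinearMap.zero_apply, map_zero]
    · intro v
      exact hpR _ v.2.2
  -- the extension
  obtain ⟨u, hu⟩ := ext_ker (R.mkQ ∘ₗ M.toSubmodule.subtype) q (fun m hm => by
    refine hqR m ?_
    rw [← Submodule.Quotient.mk_eq_zero]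
    exact hm)
  have hθ : ∀ v (hv : v ∈ M.toSubmodule), (u ∘ₗ R.mkQ) v = q ⟨v, hv⟩ := fun v hv => hu ⟨v, hv⟩
  refine ⟨u ∘ₗ R.mkQ, ?_, ?_, ?_⟩
  · intro w
    rw [hθ _ (hjM w), hqj]
  · intro v
    have h2 : (Zop ρ z ^ (t + 1)) v ∈ R := by
      rw [hRdef]
      exact ⟨v, rfl⟩
    rw [LinearMap.comp_apply, Submodule.mkQ_apply, (Submodule.Quotient.mk_eq_zero R).2 h2,
      map_zero]
  · intro g v hv
    rw [← hM] at hv
    rw [hθ v hv, hθ _ (M.apply_mem_toSubmodule g hv), ← hqe]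
    rfl

/-- The main lemma. -/
theorem Dat.main (D : Dat C e z s K a b) (ρ : Representation F N V)
    (ρ' : Representation F N V') (σ : Representation F N W) (hσ : σ.IsIrreducible)
    (hσe : Zop σ e = 1) (j : W →ₗ[F] V) (j' : W →ₗ[F] V') (hj : Eqv σ ρ j) (hj' : Eqv σ ρ' j')
    (t : ℕ) (h1 : ∀ w, j w ∈ LinearMap.range (Zop ρ z ^ (t + 1)) → w = 0)
    (h2 : ∀ w, j' w ∈ LinearMap.range (Zop ρ' z ^ t)) :
    ∃ f : V →ₗ[F] V', Eqv ρ ρ' f ∧ Zop ρ' e ∘ₗ f = f ∧ f ∘ₗ j = j' ∧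
        ∀ (W2 : Type) [AddCommGroup W2] [Module F W2] [Module.Finite F W2]
          (τ : Representation F N W2) (k : W2 →ₗ[F] V), τ.IsIrreducible → Eqv τ ρ k →
          (∀ g : W2 →ₗ[F] W, Eqv τ σ g → g = 0) → f ∘ₗ k = 0 := by
  obtain ⟨θ, hθj, hθR, hθM⟩ := D.theta hσ hσe hj t h1
  -- the linear map `u`
  obtain ⟨u, hu⟩ := Module.projective_lifting_property (Zop ρ' z ^ t).rangeRestrict
    (j'.codRestrict _ h2) (LinearMap.surjective_rangeRestrict _)
  have hu' : ∀ w, (Zop ρ' z ^ t) (u w) = j' w := fun w =>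
    congrArg Subtype.val (LinearMap.congr_fun hu w)
  have hzj' : ∀ w, Zop ρ' z (j' w) = 0 := by
    intro w
    rw [← zop_eqv hj', D.irr hσ, LinearMap.zero_apply, map_zero]
  obtain ⟨f₀, hf₀⟩ : ∃ f₀ : V →ₗ[F] V', ∀ v, f₀ v =
      ∑ i ∈ Finset.range (t + 1), (Zop ρ' z ^ i) (u (θ ((Zop ρ z ^ (t - i)) v))) := by
    refine ⟨∑ i ∈ Finset.range (t + 1), (Zop ρ' z ^ i) ∘ₗ u ∘ₗ θ ∘ₗ (Zop ρ z ^ (t - i)), ?_⟩
    intro v
    rw [LinearMap.sum_apply]
    rfl
  have hcom : f₀ ∘ₗ Zop ρ z = Zop ρ' z ∘ₗ f₀ := by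
    ext v
    rw [LinearMap.comp_apply, LinearMap.comp_apply, hf₀, hf₀, map_sum, Finset.sum_range_succ',
      Finset.sum_range_succ]
    congr 1
    · refine Finset.sum_congr rfl fun i hi => ?_
      rw [Finset.mem_range] at hi
      rw [← Module.End.mul_apply (Zop ρ z ^ (t - (i + 1))), ← pow_succ,
        ← Module.End.mul_apply (Zop ρ' z), ← pow_succ']
      congr 4
      congr 2
      omega
    · have h3 : (Zop ρ z ^ (t - 0)) (Zop ρ z v) = (Zop ρ z ^ (t + 1)) v := by
        rw [pow_succ, Nat.sub_zero]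
        rfl
      rw [h3, hθR, map_zero, map_zero, hu', hzj']
  -- on submodules which are killed by `z`
  have hkill : ∀ v, Zop ρ z v = 0 → f₀ v = j' (θ v) := by
    intro v hv
    rw [hf₀, Finset.sum_range_succ, Finset.sum_eq_zero, zero_add, Nat.sub_self, pow_zero, hu']
    · rfl
    · intro i hi
      rw [Finset.mem_range] at hi
      obtain ⟨m, hm⟩ : ∃ m, t - i = m + 1 := ⟨t - i - 1, by omega⟩
      rw [hm, pow_succ, Module.End.mul_apply, hv, map_zero, map_zero, map_zero, map_zero]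
  refine ⟨avg C a b ρ ρ' f₀, D.avg_eqv ρ ρ' f₀ hcom, ?_, ?_, ?_⟩
  · ext v
    exact D.avg_e ρ ρ' f₀ v
  · ext w
    refine D.avg_comp ρ ρ' f₀ σ j j' hj hj' ?_ ?_ w
    · intro w
      rw [← zop_eqv hj', hσe]
      rfl
    · intro w
      rw [hkill, hθj]
      rw [← zop_eqv hj, D.irr hσ, LinearMap.zero_apply, map_zero]
  · intro W2 _ _ _ τ k hτ hk hno
    ext w
    rcases D.e_irr hτ with h | h
    · refine D.avg_comp0 ρ ρ' f₀ τ k hk ?_ w
      intro w
      rw [← zop_eqv hk, h, LinearMap.zero_apply, map_zero]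
    · have hkz : ∀ w, Zop ρ z (k w) = 0 := by
        intro w
        rw [← zop_eqv hk, D.irr hτ, LinearMap.zero_apply, map_zero]
      have hkM : ∀ w, k w ∈ (MM e z ρ D.ecf).toSubmodule := by
        intro w
        rw [mem_MM]
        refine ⟨?_, fun g => ?_⟩
        · rw [← zop_eqv hk, h]
          rfl
        · rw [← hk, hkz]
      have hθk : θ ∘ₗ k = 0 := by
        refine hno _ ?_
        intro g w
        rw [LinearMap.comp_apply, hk, hθM g _ (hkM w)]
        rfl
      refine D.avg_comp ρ ρ' f₀ τ k 0 hk ?_ ?_ ?_ w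
      · intro g w
        rw [LinearMap.zero_apply, LinearMap.zero_apply, map_zero]
      · intro w
        rw [LinearMap.zero_apply, map_zero]
      · intro w
        have h3 : θ (k w) = 0 := LinearMap.congr_fun hθk w
        rw [hkill _ (hkz w), h3, map_zero]
        rfl

/-- The greatest `t` such that the image is contained in `z ^ t V`. -/
theorem Dat.level (D : Dat C e z s K a b) {ρ : Representation F N V}
    {σ : Representation F N W} (hσ : σ.IsIrreducible) {j : W →ₗ[F] V} (hj : Eqv σ ρ j)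
    (h0 : j ≠ 0) : ∃ t, (∀ w, j w ∈ LinearMap.range (Zop ρ z ^ t)) ∧
      ∀ w, j w ∈ LinearMap.range (Zop ρ z ^ (t + 1)) → w = 0 := by
  classical
  have hex : ∃ t, ¬ ∀ w, j w ∈ LinearMap.range (Zop ρ z ^ (t + 1)) := by
    refine ⟨K, fun h => h0 ?_⟩
    ext w
    obtain ⟨v, hv⟩ := h w
    rw [pow_succ, D.pow_eq ρ, zero_mul] at hv
    exact hv.symm
  obtain ⟨t, ht, hmin⟩ : ∃ t, (¬ ∀ w, j w ∈ LinearMap.range (Zop ρ z ^ (t + 1))) ∧
      ∀ m < t, ∀ w, j w ∈ LinearMap.range (Zop ρ z ^ (m + 1)) := by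
    refine ⟨Nat.find hex, Nat.find_spec hex, fun m hm => ?_⟩
    have := Nat.find_min hex hm
    rwa [not_not] at this
  refine ⟨t, ?_, ?_⟩
  · rcases t with _ | t
    · intro w
      exact ⟨j w, by rw [pow_zero]; rfl⟩
    · exact hmin t (Nat.lt_succ_self t)
  · intro w hw
    rcases irr_cases hσ ((LinearMap.range (Zop ρ z ^ (t + 1))).comap j) (fun g w hw => by
      rw [Submodule.mem_comap] at hw ⊢
      rw [hj]
      obtain ⟨v, hv⟩ := hw
      rw [← hv]
      exact D.rng V ρ (t + 1) g v) with h | h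
    · have h3 : w ∈ (LinearMap.range (Zop ρ z ^ (t + 1))).comap j := hw
      rw [h] at h3
      exact (Submodule.mem_bot F).1 h3
    · exfalso
      apply ht
      intro w
      have h3 : w ∈ (LinearMap.range (Zop ρ z ^ (t + 1))).comap j := by
        rw [h]
        exact Submodule.mem_top
      exact h3

theorem range_mono (ρ : Representation F N V) {t t' : ℕ} (h : t ≤ t') {v : V}
    (hv : v ∈ LinearMap.range (Zop ρ z ^ t')) : v ∈ LinearMap.range (Zop ρ z ^ t) := by
  obtain ⟨v, rfl⟩ := hv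
  obtain ⟨k, rfl⟩ := Nat.exists_eq_add_of_le h
  exact ⟨(Zop ρ z ^ k) v, by rw [pow_add]; rfl⟩

end Main

end UNX

open _root_.Pool.Agent.DPX.UNX in
/-- UNX: extension of homomorphisms. -/
theorem UNX_thm (h1 : Stmt_SPX) : Stmt_UNX := by
  intro ℓ n _ F N V V' W _ _ _ _ _ _ _ _ _ _ _ _ _ _ P₁ P _ x₀ e hB hP hsup hN ρ ρ' σ hσ hσe j j'
    hj0 hj0' hj hj'
  obtain ⟨z, s, K, a, b, hez, hzK, hea, hbe, hall⟩ := h1 ℓ n F N P₁ P x₀ e hB hP hsup hN
  have D : Dat (Subgroup.centralizer (P₁ : Set N)) e z s K a b :=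
    { ind := index_ne P₁ hB.cd.c1
      ecf := hB.cf
      idem := hB.idem
      nil := hzK
      ea := hea
      be := hbe
      rng := fun V _ _ ρ => (hall V ρ).2.1
      one := fun V _ _ ρ => (hall V ρ).2.2.1
      av := fun V _ _ ρ V' _ _ ρ' f hf => (hall V ρ).2.2.2 V' ρ' f hf }
  obtain ⟨t, ht1, ht2⟩ := D.level hσ hj hj0
  obtain ⟨t', ht1', ht2'⟩ := D.level hσ hj' hj0'
  rcases le_total t t' with h | h
  · left
    exact D.main ρ ρ' σ hσ hσe j j' hj hj' t ht2 (fun w => range_mono ρ' h (ht1' w))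
  · right
    exact D.main ρ' ρ σ hσ hσe j' j hj' hj t' ht2' (fun w => range_mono ρ h (ht1 w))

end Pool.Agent.DPX


end
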