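import Mathlib
import Pool.Agent.DAM.C19
import Pool.Agent.DAM.C35
import Pool.Agent.DAM.C48
import Pool.Agent.DAM.C66

/-! Parts: DPW.BLKP -/

section

/-!
# Theorem W: the blocks over a block with an admissible property in some coordinate
-/

namespace Pool.Agent.DPW

open Pool.Agent.DP Pool.Agent.DPV Pool.Agent.Lib_helper13 Representation
open Pool.Agent.Lib_helper13.Dade (pCore DadeHolds dadeSum)

namespace BLKP

theorem wt_pK {O G : Type} [Fintype O] [DecidableEq O] [Group G] [Fintype G]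
    (S : O → Subgroup G) (A : Subgroup (O → G)) (hA : A = pK S) (θ h : O → G → ℂ) :
    wt (fun a : A => ∏ o, θ o ((a : O → G) o)) (fun a : A => ∏ o, h o ((a : O → G) o)) =
      ∏ o, wt (fun s : S o => θ o s) (fun s : S o => h o s) := by
  subst hA
  rw [← wt_prodFn, ← wt_comp_equiv (pKEquiv S)]
  rfl

end BLKP

open _root_.Pool.Agent.DPW.BLKP BLKBR in
/-- BLKP. -/
theorem BLKP_thm (h1 : Stmt_IDFP) : Stmt_BLKP := by
  intro Ω O G B X Y K K' _ _ _ _ _ _ _ _ _ _ _ _ _ _ 𝔐 ℓ _ h𝔐 hℓ ι κ e p φ j p' φ' hX hY Pr hPr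
    i π u hπ hi1 hi2 χ ξ w hχ hξ hipχ hw τ hτ θ hθ ψ hψ hipψ hcen
  have hprime : 𝔐.IsPrime := h𝔐.isPrime
  obtain ⟨f, hfc, hfk, hf0, hf1⟩ := h1 G B 𝔐 ℓ h𝔐 hℓ κ Pr hPr
  choose q hq using hπ
  by_contra hcon
  have hcon' : ∀ o, ¬ Pr (fun g => cg 𝔐 (θ o) g) := fun o ho => hcon ⟨o, ho⟩
  have hS : Stmt_SUMM := SUMM_thm
  have hτ' := mem_ClCh.mp hτ
  have hstb : stb τ = pK (fun o => stb (comp τ o)) := stb_closed hτ'.2
  have hirr : IsIrr (fun a : stb τ => ∏ o, θ o ((a : O → G) o)) :=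
    (IRRPI_thm O G (fun o => stb (comp τ o)) (stb τ) hstb).1 θ hθ
  -- the two weights agree modulo the ideal
  have hA : red 𝔐 (wt χ (fun x => yF e f x)) =
      red 𝔐 (wt ψ (fun y : YS j τ => yF e f (i y))) := by
    have ha := red_wt_eq_pair 𝔐 (MonoidHom.id X) hχ (fun x => yF e f x)
      (fun g x => yF_class hX.cl hfk g x) (fun x => yF_integral f x)
    have hb := red_wt_eq_pair 𝔐 (i.comp (YS j τ).subtype) hψ (fun x => yF e f x)
      (fun g x => yF_class hX.cl hfk g x) (fun x => yF_integral f x)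
    have hc : cen 𝔐 (i.comp (YS j τ).subtype) ψ = cen 𝔐 (MonoidHom.id X) χ := funext hcen
    rw [hc] at hb
    exact ha.trans hb.symm
  -- the weight of `χ`
  have hB : wt χ (fun x => yF e f x) = ∏ a, wt (ξ a) (fun x => (f x : ℂ)) := by
    rw [(hS (Ω → G) X K e ((wB κ Ω).comp φ) p hX.cl).2.2.2 (prodFn ξ) χ (fun x => yF e f x)
      (isIrr_prodFn hξ) hχ hipχ (fun g x => yF_class hX.cl hfk g x) (fun y hy => yF_zero f hy)]
    rw [← wt_prodFn]
    congr 1
    ext n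
    exact yF_e hX.cl.inj f n
  -- the weight of `ψ`
  have hC : wt ψ (fun y : YS j τ => yF e f (i y)) =
      ∏ o, wt (fun s : stb (comp τ o) => θ o s)
        (fun s : stb (comp τ o) => (f (s : G) : ℂ) ^ ℓ ^ q o) := by
    rw [(hS (stb τ) (YS j τ) K' (jS hY.cl τ) (cS hY.cl τ) (pS p' j τ)
      (clG_S hY.cl τ)).2.2.2 (fun a => ∏ o, θ o ((a : O → G) o)) ψ
      (fun y : YS j τ => yF e f (i y)) hirr hψ hipψ ?_ ?_]
    · rw [← wt_pK (fun o => stb (comp τ o)) (stb τ) hstb θ (fun o x => (f x : ℂ) ^ ℓ ^ q o)]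
      congr 1
      ext a
      change yF e f (i (j (a : O → G))) = _
      rw [hi1, yF_e hX.cl.inj]
      have h2 : ∀ b : Ω, ((f (κ (u b) ((a : O → G) (π b))) : ℤ) : ℂ) =
          (f ((a : O → G) (π b)) : ℂ) := by
        intro b
        rw [hfk]
      rw [Finset.prod_congr rfl fun b _ => h2 b,
        BLKB.prod_pow π (fun o => (f ((a : O → G) o) : ℂ))]
      simp only [hq]
    · intro g x
      change yF e f (i ((g : Y) * (x : Y) * (g : Y)⁻¹)) = _
      rw [map_mul, map_mul, map_inv, yF_class hX.cl hfk]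
    · intro y hy
      apply yF_zero
      intro h
      obtain ⟨a, ha⟩ := hi2 (y : Y) h
      apply hy
      refine ⟨⟨a, (mem_YS hY.cl τ).mp (by rw [ha]; exact y.2)⟩, ?_⟩
      exact Subtype.ext ha
  have hint : ∀ (φ : G → ℂ), IsIrr φ → IsIntegral ℤ (wt φ (fun x => (f x : ℂ))) := by
    intro φ hφ
    apply isIntegral_wt hφ
    · intro g x
      rw [hfc]
    · intro x
      exact BLKB.intCast_integral _
  have hintp : ∀ (S : Subgroup G) (φ : S → ℂ) (k : ℕ), IsIrr φ →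
      IsIntegral ℤ (wt φ (fun x : S => (f (x : G) : ℂ) ^ ℓ ^ k)) := by
    intro S φ k hφ
    apply isIntegral_wt hφ
    · intro g x
      change (f ((g : G) * (x : G) * (g : G)⁻¹) : ℂ) ^ ℓ ^ k = _
      rw [hfc]
    · intro x
      exact (BLKB.intCast_integral _).pow _
  rw [hB, hC, red_prod 𝔐 _ _ fun a _ => hint _ (hξ a),
    red_prod 𝔐 _ _ fun o _ => hintp _ _ _ (hθ o).1,
    Finset.prod_eq_zero (Finset.mem_univ w) (hf0 (ξ w) (hξ w) hw)] at hA
  refine (Finset.prod_ne_zero_iff.mpr fun o _ => ?_) hA.symm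
  have hD : red 𝔐 (wt (fun s : stb (comp τ o) => θ o s)
      (fun s : stb (comp τ o) => (f (s : G) : ℂ) ^ ℓ ^ q o)) =
      red 𝔐 (wt (fun s : stb (comp τ o) => θ o s)
      (fun s : stb (comp τ o) => (f (s : G) : ℂ))) := by
    apply red_wt_eq 𝔐 hℓ (hθ o).1 (⊥ : Subgroup (stb (comp τ o))) IsPGroup.of_bot
    · intro g x
      change (f ((g : G) * (x : G) * (g : G)⁻¹) : ℂ) ^ ℓ ^ q o = _
      rw [hfc]
    · intro x
      exact (BLKB.intCast_integral _).pow _
    · intro g x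
      change (f ((g : G) * (x : G) * (g : G)⁻¹) : ℂ) = _
      rw [hfc]
    · intro x
      exact BLKB.intCast_integral _
    · intro x _
      exact BLKB.red_pow_int 𝔐 hℓ (q o) (f (x : G))
  rw [hD]
  obtain ⟨χ', hχ', hc'⟩ := exists_irr_of_mult 𝔐 (hθ o).1
    (exists_irr_of_chain 𝔐 hℓ (comp_isCh hτ'.1 o) (hθ o).1)
  have hcg : (fun g => cg 𝔐 χ' g) = fun g => cg 𝔐 (θ o) g := by
    funext g
    have h3 := congrFun hc' g
    rw [AA.cg_eq 𝔐 (stb (comp τ o)) (hθ o) g] at h3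
    rw [← h3]
    rfl
  have hE : red 𝔐 (wt (fun s : stb (comp τ o) => θ o s)
      (fun s : stb (comp τ o) => (f (s : G) : ℂ))) = red 𝔐 (wt χ' (fun x => (f x : ℂ))) := by
    have ha := red_wt_eq_pair 𝔐 (MonoidHom.id G) hχ' (fun x => (f x : ℂ))
      (fun g x => by rw [hfc]) (fun x => BLKB.intCast_integral _)
    have hb := red_wt_eq_pair 𝔐 (stb (comp τ o)).subtype (hθ o).1 (fun x => (f x : ℂ))
      (fun g x => by rw [hfc]) (fun x => BLKB.intCast_integral _)
    rw [← hc'] at hb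
    exact hb.trans ha.symm
  rw [hE]
  apply hf1 χ' hχ'
  rw [hcg]
  exact hcon' o

end Pool.Agent.DPW


end
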