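import Mathlib
import Pool.Agent.DAM.C26
import Pool.Agent.DAM.C35

/-! Parts: DPT.DGSC, DPT.TYC, DPW.IDFP -/

section

/-!
# DGSC: the correspondence of characters of defect zero and conjugation
-/

namespace Pool.Agent.DPT

open Pool.Agent.DP Pool.Agent.DPC Pool.Agent.DPM Pool.Agent.DPN Pool.Agent.Lib_helper13
open Representation

namespace DGSC

variable {G : Type} [Group G]

/-- Conjugation by `g` maps `N'` onto `N`. -/
noncomputable def cj (g : G) (N N' : Subgroup G) (h : ∀ x, x ∈ N' ↔ g * x * g⁻¹ ∈ N) :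
    N' ≃* N where
  toFun x := ⟨g * x * g⁻¹, (h x).1 x.2⟩
  invFun y := ⟨g⁻¹ * y * g, (h _).2 (by
    have e : g * (g⁻¹ * (y : G) * g) * g⁻¹ = y := by group
    rw [e]
    exact y.2)⟩
  left_inv x := by
    apply Subtype.ext
    change g⁻¹ * (g * (x : G) * g⁻¹) * g = x
    group
  right_inv y := by
    apply Subtype.ext
    change g * (g⁻¹ * (y : G) * g) * g⁻¹ = y
    group
  map_mul' x y := by
    apply Subtype.ext
    change g * ((x : G) * y) * g⁻¹ = g * x * g⁻¹ * (g * y * g⁻¹)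
    group

theorem wS_cj [Fintype G] (g : G) (N N' : Subgroup G) (h : ∀ x, x ∈ N' ↔ g * x * g⁻¹ ∈ N)
    (θ F : G → ℂ) :
    wS N' (fun x => θ (g * x * g⁻¹)) (fun x => F (g * x * g⁻¹)) = wS N θ F :=
  wt_comp_equiv (cj g N N' h) (fun s : N => θ s) (fun s : N => F s)

end DGSC

/-- DGSC: conjugates. -/
theorem DGSC_thm : Stmt_DGSC := by
  intro G _ _ 𝔐 ℓ d g
  constructor
  · intro N N' θ h hθ
    obtain ⟨⟨h1, h2⟩, h3⟩ := hθ
    refine ⟨⟨?_, ?_⟩, ?_⟩
    · exact h1.comp_mulEquiv (DGSC.cj g N N' h)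
    · intro x hx
      exact h2 _ (fun hh => hx ((h x).2 hh))
    · exact (hasDefect_comp_equiv (DGSC.cj g N N' h)).2 h3
  · intro N N' R R' θ' θ hN hR hD
    have hc : ∀ x, x ∈ cN N' R' ↔ g * x * g⁻¹ ∈ cN N R := by
      intro x
      simp only [DP.cN, Subgroup.mem_inf, Subgroup.mem_centralizer_iff, SetLike.mem_coe]
      constructor
      · rintro ⟨h1, h2⟩
        refine ⟨(hN x).1 h1, ?_⟩
        intro r hr
        have e : g * (g⁻¹ * r * g) * g⁻¹ = r := by group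
        have h3 := h2 (g⁻¹ * r * g) ((hR _).2 (by rw [e]; exact hr))
        have e1 : r * (g * x * g⁻¹) = g * (g⁻¹ * r * g * x) * g⁻¹ := by group
        have e2 : g * x * g⁻¹ * r = g * (x * (g⁻¹ * r * g)) * g⁻¹ := by group
        rw [e1, e2, h3]
      · rintro ⟨h1, h2⟩
        refine ⟨(hN x).2 h1, ?_⟩
        intro r hr
        have h3 := h2 (g * r * g⁻¹) ((hR r).1 hr)
        have e1 : r * x = g⁻¹ * (g * r * g⁻¹ * (g * x * g⁻¹)) * g := by group
        have e2 : x * r = g⁻¹ * (g * x * g⁻¹ * (g * r * g⁻¹)) * g := by group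
        rw [e1, e2, h3]
    refine ⟨hc, ?_⟩
    intro F hF1 hF2 hF3
    have e : (fun x => F (g⁻¹ * (g * x * g⁻¹) * g)) = F := by
      funext x
      congr 1
      group
    have h1 := DGSC.wS_cj g (cN N R) (cN N' R') hc θ' (fun x => F (g⁻¹ * x * g))
    have h2 := DGSC.wS_cj g N N' hN θ (fun x => F (g⁻¹ * x * g))
    simp only [e] at h1 h2
    rw [h1, h2]
    refine hD (fun x => F (g⁻¹ * x * g)) ?_ ?_ (fun x => hF3 _)
    · intro n hn x hx
      have hn' : g⁻¹ * n * g ∈ N' := (hN _).2 (by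
        have e : g * (g⁻¹ * n * g) * g⁻¹ = n := by group
        rw [e]; exact hn)
      have hx' : g⁻¹ * x * g ∈ N' := (hN _).2 (by
        have e : g * (g⁻¹ * x * g) * g⁻¹ = x := by group
        rw [e]; exact hx)
      have h3 := hF1 _ hn' _ hx'
      have e3 : g⁻¹ * n * g * (g⁻¹ * x * g) * (g⁻¹ * n * g)⁻¹ = g⁻¹ * (n * x * n⁻¹) * g := by group
      rw [e3] at h3
      exact h3
    · intro r hr x hx
      have hr' : g⁻¹ * r * g ∈ R' := (hR _).2 (by
        have e : g * (g⁻¹ * r * g) * g⁻¹ = r := by group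
        rw [e]; exact hr)
      have hx' : g⁻¹ * x * g ∈ N' := (hN _).2 (by
        have e : g * (g⁻¹ * x * g) * g⁻¹ = x := by group
        rw [e]; exact hx)
      have h3 := hF2 _ hr' _ hx'
      have e3 : g⁻¹ * r * g * (g⁻¹ * x * g) * (g⁻¹ * r * g)⁻¹ = g⁻¹ * (r * x * r⁻¹) * g := by group
      rw [e3] at h3
      exact h3

end Pool.Agent.DPT


end

section

/-!
# TYC: characters of defect zero of the same type are conjugate
-/

namespace Pool.Agent.DPT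

open Pool.Agent.DP Pool.Agent.DPC Pool.Agent.DPM Pool.Agent.DPN Pool.Agent.Lib_helper13
open Representation

namespace TYC

variable {G : Type} [Group G] [Fintype G]

open Classical in
/-- The conjugates of a function. -/
noncomputable def cjs (θ : G → ℂ) : Finset (G → ℂ) :=
  Finset.univ.image (fun g : G => fun x => θ (g * x * g⁻¹))

theorem mem_cjs {θ η : G → ℂ} : η ∈ cjs θ ↔ ∃ g, ∀ x, η x = θ (g * x * g⁻¹) := by
  classical
  unfold cjs
  rw [Finset.mem_image]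
  constructor
  · rintro ⟨g, -, rfl⟩
    exact ⟨g, fun _ => rfl⟩
  · rintro ⟨g, hg⟩
    exact ⟨g, Finset.mem_univ _, funext fun x => (hg x).symm⟩

theorem cj_mem {θ η : G → ℂ} (h : η ∈ cjs θ) (k : G) :
    (fun x => η (k * x * k⁻¹)) ∈ cjs θ := by
  obtain ⟨g, hg⟩ := mem_cjs.1 h
  refine mem_cjs.2 ⟨g * k, fun x => ?_⟩
  rw [hg]
  congr 1
  group

/-- The sum of the conjugates at the inverse. -/
noncomputable def Fs (θ : G → ℂ) (x : G) : ℂ := ∑ η ∈ cjs θ, η x⁻¹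

theorem Fs_conj (θ : G → ℂ) (g x : G) : Fs θ (g * x * g⁻¹) = Fs θ x := by
  unfold Fs
  refine Finset.sum_nbij' (fun η => fun y => η (g * y * g⁻¹)) (fun η => fun y => η (g⁻¹ * y * g⁻¹⁻¹))
    (fun η h => cj_mem h g) (fun η h => cj_mem h g⁻¹) ?_ ?_ ?_
  · intro η _
    funext y
    change η (g * (g⁻¹ * y * g⁻¹⁻¹) * g⁻¹) = η y
    congr 1
    group
  · intro η _
    funext y
    change η (g⁻¹ * (g * y * g⁻¹) * g⁻¹⁻¹) = η y
    congr 1
    group
  · intro η _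
    change η (g * x * g⁻¹)⁻¹ = η (g * x⁻¹ * g⁻¹)
    congr 1
    group

theorem irr_of_mem {M₀ : Subgroup G} (hM : M₀.Normal) {θ η : G → ℂ} (hθ : IrrOn M₀ θ)
    (h : η ∈ cjs θ) : IrrOn M₀ η := by
  obtain ⟨g, hg⟩ := mem_cjs.1 h
  have hm : ∀ x, x ∈ M₀ ↔ g * x * g⁻¹ ∈ M₀ := fun x => (hM.mem_comm_iff.trans (by
    rw [← mul_assoc, inv_mul_cancel, one_mul])).symm
  have h1 : (fun s : M₀ => η s) = (fun s : M₀ => θ s) ∘ DGSC.cj g M₀ M₀ hm :=
    funext fun s => hg s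
  refine ⟨?_, fun x hx => ?_⟩
  · rw [h1]
    exact hθ.1.comp_mulEquiv (DGSC.cj g M₀ M₀ hm)
  · rw [hg]
    exact hθ.2 _ fun hh => hx ((hm x).2 hh)

theorem isIntegral_of_irrOn {M₀ : Subgroup G} {η : G → ℂ} (h : IrrOn M₀ η) (x : G) :
    IsIntegral ℤ (η x) := by
  by_cases hx : x ∈ M₀
  · exact isIntegral_char h.1 (⟨x, hx⟩ : M₀)
  · rw [h.2 x hx]
    exact isIntegral_zero

/-- The weight of the sum of the conjugates. -/
theorem wS_Fs {M₀ : Subgroup G} (hM : M₀.Normal) {θ ξ : G → ℂ} (hθ : IrrOn M₀ θ)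
    (hξ : IrrOn M₀ ξ) :
    (ξ ∈ cjs θ → wS M₀ ξ (Fs θ) = (Nat.card M₀ : ℂ) / ξ 1) ∧
      (ξ ∉ cjs θ → wS M₀ ξ (Fs θ) = 0) := by
  have h1 : wS M₀ ξ (Fs θ) =
      ∑ η ∈ cjs θ, (Nat.card M₀ : ℂ) * ip (fun s : M₀ => ξ s) (fun s : M₀ => η s) / ξ 1 := by
    change wt (fun s : M₀ => ξ s) (fun s : M₀ => ∑ η ∈ cjs θ, η (s : G)⁻¹) = _
    rw [wt_sum]
    refine Finset.sum_congr rfl fun η _ => ?_
    have hc : (Nat.card M₀ : ℂ) ≠ 0 := natCard_ne_zero
    unfold wt ip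
    rw [mul_div_cancel₀ _ hc]
    congr 1
    refine Finset.sum_congr rfl fun s _ => ?_
    rw [mul_comm]
    rfl
  have h2 : ∀ η ∈ cjs θ, η ≠ ξ → ip (fun s : M₀ => ξ s) (fun s : M₀ => η s) = 0 := by
    intro η hη hne
    refine ip_ne hξ.1 (irr_of_mem hM hθ hη).1 fun he => hne ?_
    funext x
    by_cases hx : x ∈ M₀
    · exact (congrFun he (⟨x, hx⟩ : M₀)).symm
    · rw [hξ.2 x hx, (irr_of_mem hM hθ hη).2 x hx]
  rw [h1]
  constructor
  · intro h
    rw [Finset.sum_eq_single_of_mem ξ h fun η hη hne => by rw [h2 η hη hne, mul_zero, zero_div],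
      ip_self hξ.1, mul_one]
  · intro h
    exact Finset.sum_eq_zero fun η hη => by
      rw [h2 η hη (fun he => h (he ▸ hη)), mul_zero, zero_div]

end TYC

open _root_.Pool.Agent.DPT.TYC in
theorem TYC_thm : Stmt_TYC := by
  intro G _ _ 𝔐 ℓ _ h𝔐 hℓ M₀ hM ξ θ₀ hξ hθ
  have : 𝔐.IsPrime := h𝔐.isPrime
  constructor
  · intro h
    by_contra hn
    have hn' : ξ ∉ cjs θ₀ := fun hh => hn (mem_cjs.1 hh)
    have h0 : θ₀ ∈ cjs θ₀ := mem_cjs.2 ⟨1, fun x => by rw [one_mul, inv_one, mul_one]⟩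
    have e := h (Fs θ₀) (Fs_conj θ₀)
      (fun x => isIntegral_sum _ _ fun η hη => isIntegral_of_irrOn (irr_of_mem hM hθ.1 hη) _)
      (fun x hx => Finset.sum_eq_zero fun η hη => (irr_of_mem hM hθ.1 hη).2 _
        fun hh => hx (by rw [← inv_inv x]; exact M₀.inv_mem hh))
    rw [(wS_Fs hM hθ.1 hξ.1).2 hn', (wS_Fs hM hθ.1 hθ.1).1 h0, red_zero] at e
    have h3 := red_codeg_ne_zero 𝔐 hℓ (χ := fun s : M₀ => θ₀ s) hθ.1.1 hθ.2
    exact h3 e.symm
  · rintro ⟨g, hg⟩ F hF1 _ _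
    have hm : ∀ x, x ∈ M₀ ↔ g * x * g⁻¹ ∈ M₀ := fun x => (hM.mem_comm_iff.trans (by
      rw [← mul_assoc, inv_mul_cancel, one_mul])).symm
    have h1 := DGSC.wS_cj g M₀ M₀ hm θ₀ F
    have h2 : (fun x => θ₀ (g * x * g⁻¹)) = ξ := funext fun x => (hg x).symm
    have h3 : (fun x => F (g * x * g⁻¹)) = F := funext fun x => hF1 g x
    rw [h2, h3] at h1
    rw [h1]

end Pool.Agent.DPT


end

section

/-!
# Theorem W: module IDFP

Prime avoidance in the centre of the integral group ring. The kernels of the central characters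
modulo `𝔐` are prime ideals of the centre, and an inclusion between two of them makes the two
central characters conjugate under a power of the Frobenius map.
-/

namespace Pool.Agent.DPW.IDFP

open Pool.Agent.DP Pool.Agent.DPV Pool.Agent.Lib_helper13 Representation
open Pool.Agent.Lib_helper13.Dade (pCore DadeHolds dadeSum)
open Polynomial

/-! ### Homomorphisms to a field of characteristic `ℓ` -/

theorem frob_lift {F : Type*} [Field F] {ℓ : ℕ} [Fact ℓ.Prime] [CharP F ℓ] (L : Subring F)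
    [Finite L] (θ : L →+* F) : ∃ n : ℕ, ∀ x : L, θ x = (x : F) ^ ℓ ^ n := by
  classical
  let _ : Fintype L := Fintype.ofFinite L
  let _ : Field L := Fintype.fieldOfDomain L
  have _ : CharP L ℓ := RingHom.charP L.subtype Subtype.val_injective ℓ
  let _ : Algebra (ZMod ℓ) L := ZMod.algebra L ℓ
  have hq : 1 < Fintype.card L := Fintype.one_lt_card
  have hx : ∀ x : L, x ^ Fintype.card L = x := fun x => FiniteField.pow_card x
  have h0 : (X ^ Fintype.card L - X : F[X]) ≠ 0 := FiniteField.X_pow_card_sub_X_ne_zero F hq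
  have hT : (Finset.univ.image (fun x : L => (x : F))) =
      (X ^ Fintype.card L - X : F[X]).roots.toFinset := by
    apply Finset.eq_of_subset_of_card_le
    · intro y hy
      obtain ⟨x, -, rfl⟩ := Finset.mem_image.mp hy
      rw [Multiset.mem_toFinset, mem_roots h0, IsRoot.def, eval_sub, eval_pow, eval_X, sub_eq_zero]
      exact congrArg Subtype.val (hx x)
    · rw [Finset.card_image_of_injective _ Subtype.val_injective, Finset.card_univ]
      refine (Multiset.toFinset_card_le _).trans ((card_roots' _).trans ?_)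
      rw [FiniteField.X_pow_card_sub_X_natDegree_eq F hq]
  have hθ : ∀ x : L, θ x ∈ L := by
    intro x
    have h1 : θ x ∈ (X ^ Fintype.card L - X : F[X]).roots.toFinset := by
      rw [Multiset.mem_toFinset, mem_roots h0, IsRoot.def, eval_sub, eval_pow, eval_X, sub_eq_zero,
        ← map_pow, hx]
    rw [← hT] at h1
    obtain ⟨y, -, hy⟩ := Finset.mem_image.mp h1
    rw [← hy]
    exact y.2
  let θ' : L →ₐ[ZMod ℓ] L :=
    { θ.codRestrict L hθ with
      commutes' := fun r => RingHom.congr_fun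
        (RingHom.ext_zmod ((θ.codRestrict L hθ).comp (algebraMap (ZMod ℓ) L))
          (algebraMap (ZMod ℓ) L)) r }
  obtain ⟨n, hn⟩ := (FiniteField.bijective_frobeniusAlgHom_pow (ZMod ℓ) L).2 θ'
  refine ⟨n, fun x => ?_⟩
  have h1 : θ' x = x ^ ℓ ^ (n : ℕ) := by
    rw [← hn]
    simp only [AlgHom.coe_pow, FiniteField.coe_frobeniusAlgHom, ZMod.card, pow_iterate]
  exact congrArg Subtype.val h1

theorem ker_le {Z F : Type*} [CommRing Z] (hZ : Module.Finite ℤ Z) [Field F] {ℓ : ℕ}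
    [Fact ℓ.Prime] [CharP F ℓ] (φ ψ : Z →+* F) (h : RingHom.ker φ ≤ RingHom.ker ψ) :
    ∃ n : ℕ, ∀ z, ψ z = φ z ^ ℓ ^ n := by
  have hs : Function.Surjective φ.rangeRestrict := φ.rangeRestrict_surjective
  have _ : Module.Finite ℤ φ.range :=
    Module.Finite.of_surjective (φ.rangeRestrict.toIntAlgHom.toLinearMap) hs
  have _ : Finite φ.range := by
    apply Module.finite_of_fg_torsion
    intro x
    refine ⟨⟨(ℓ : ℤ), mem_nonZeroDivisors_of_ne_zero
      (by exact_mod_cast (Fact.out : ℓ.Prime).ne_zero)⟩, ?_⟩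
    apply Subtype.ext
    change (ℓ : ℤ) • (x : F) = 0
    rw [zsmul_eq_mul, Int.cast_natCast, CharP.cast_eq_zero, zero_mul]
  have hk : RingHom.ker φ.rangeRestrict ≤ RingHom.ker ψ := by
    intro z hz
    apply h
    rw [RingHom.mem_ker] at hz ⊢
    exact congrArg Subtype.val hz
  obtain ⟨n, hn⟩ := frob_lift (ℓ := ℓ) φ.range
    (RingHom.liftOfSurjective φ.rangeRestrict hs ⟨ψ, hk⟩)
  refine ⟨n, fun z => ?_⟩
  have h1 := hn (φ.rangeRestrict z)
  rw [RingHom.liftOfSurjective_comp_apply] at h1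
  exact h1

/-! ### The centre of the integral group ring -/

section Cent

variable {G : Type} [Group G] [Fintype G] (𝔐 : Ideal (integralClosure ℤ ℂ))

theorem cen_finite : @Module.Finite ℤ (Subalgebra.center ℤ (MonoidAlgebra ℤ G)) _ _
    (AddCommGroup.toIntModule _) := by
  have h1 : Module.Finite ℤ (Subalgebra.center ℤ (MonoidAlgebra ℤ G)) :=
    Module.Finite.of_injective (Subalgebra.center ℤ (MonoidAlgebra ℤ G)).val.toLinearMap
      Subtype.val_injective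
  have h2 : (AddCommGroup.toIntModule (Subalgebra.center ℤ (MonoidAlgebra ℤ G))) =
      Subalgebra.module' _ := Subsingleton.elim _ _
  rw [h2]
  exact h1

/-- The central character modulo `𝔐`. -/
noncomputable def lam {χ : G → ℂ} (hχ : IsIrr χ) :
    Subalgebra.center ℤ (MonoidAlgebra ℤ G) →+* (integralClosure ℤ ℂ) ⧸ 𝔐 where
  toFun z := red 𝔐 (om χ z)
  map_one' := (congrArg (red 𝔐) (om_one hχ)).trans (red_one 𝔐)
  map_mul' z w := (congrArg (red 𝔐) (om_mul hχ z.2 w.2)).trans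
    (red_mul 𝔐 (isIntegral_om hχ z.2) (isIntegral_om hχ w.2))
  map_zero' := (congrArg (red 𝔐) (om_zero χ)).trans (red_zero 𝔐)
  map_add' z w := (congrArg (red 𝔐) (om_add χ z w)).trans
    (red_add 𝔐 (isIntegral_om hχ z.2) (isIntegral_om hχ w.2))

omit [Fintype G] in
theorem coeff_conj (z : Subalgebra.center ℤ (MonoidAlgebra ℤ G)) (g x : G) :
    (z : MonoidAlgebra ℤ G).coeff (g * x * g⁻¹) = (z : MonoidAlgebra ℤ G).coeff x := by
  have h1 := Subalgebra.mem_center_iff.mp z.2 (MonoidAlgebra.single g (1 : ℤ))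
  have h2 := congrArg (fun w : MonoidAlgebra ℤ G => w.coeff (g * x)) h1
  simp only [MonoidAlgebra.coeff_single_mul_apply, MonoidAlgebra.coeff_mul_single_apply,
    inv_mul_cancel_left, one_mul, mul_one] at h2
  exact h2.symm

open Classical in
/-- The class sum of `g`. -/
noncomputable def cl (g : G) : Subalgebra.center ℤ (MonoidAlgebra ℤ G) :=
  ⟨elt (fun x => if IsConj x g then 1 else 0), elt_mem_center _ (by
    intro a x
    have h : IsConj (a * x * a⁻¹) g ↔ IsConj x g := by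
      have h1 : IsConj x (a * x * a⁻¹) := isConj_iff.mpr ⟨a, rfl⟩
      exact ⟨fun h => h1.trans h, fun h => h1.symm.trans h⟩
    simp only [h])⟩

theorem lam_cl {χ : G → ℂ} (hχ : IsIrr χ) (g : G) : lam 𝔐 hχ (cl g) = cg 𝔐 χ g := by
  change red 𝔐 (om χ (elt _)) = _
  rw [om_elt, cg]
  congr 2
  refine Finset.sum_congr rfl fun x _ => ?_
  by_cases h : IsConj x g <;> simp [conjInd]

/-- The action of an automorphism on the centre. -/
noncomputable def ac (α : MulAut G) :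
    Subalgebra.center ℤ (MonoidAlgebra ℤ G) →+* Subalgebra.center ℤ (MonoidAlgebra ℤ G) where
  toFun z := ⟨MonoidAlgebra.domCongr ℤ ℤ (MulEquiv.symm α) z, by
    rw [Subalgebra.mem_center_iff]
    intro b
    obtain ⟨c, rfl⟩ := (MonoidAlgebra.domCongr ℤ ℤ (MulEquiv.symm α)).surjective b
    rw [← map_mul, ← map_mul, Subalgebra.mem_center_iff.mp z.2 c]⟩
  map_one' := Subtype.ext (map_one (MonoidAlgebra.domCongr ℤ ℤ (MulEquiv.symm α)))
  map_mul' z w := Subtype.ext (map_mul (MonoidAlgebra.domCongr ℤ ℤ (MulEquiv.symm α)) _ _)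
  map_zero' := Subtype.ext (map_zero (MonoidAlgebra.domCongr ℤ ℤ (MulEquiv.symm α)))
  map_add' z w := Subtype.ext (map_add (MonoidAlgebra.domCongr ℤ ℤ (MulEquiv.symm α)) _ _)

omit [Fintype G] in
theorem ac_coeff (α : MulAut G) (z : Subalgebra.center ℤ (MonoidAlgebra ℤ G)) (x : G) :
    (ac α z : MonoidAlgebra ℤ G).coeff x = (z : MonoidAlgebra ℤ G).coeff (α x) :=
  MonoidAlgebra.coeff_domCongr _ _ _

omit [Fintype G] in
theorem cen_ext {z w : Subalgebra.center ℤ (MonoidAlgebra ℤ G)}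
    (h : ∀ x, (z : MonoidAlgebra ℤ G).coeff x = (w : MonoidAlgebra ℤ G).coeff x) : z = w := by
  apply Subtype.ext
  apply MonoidAlgebra.coeff_injective
  exact Finsupp.ext h

omit [Fintype G] in
theorem ac_ac (α β : MulAut G) (z : Subalgebra.center ℤ (MonoidAlgebra ℤ G)) :
    ac β (ac α z) = ac (α * β) z := by
  apply cen_ext
  intro x
  rw [ac_coeff, ac_coeff, ac_coeff]
  rfl

theorem lam_ac {χ : G → ℂ} (hχ : IsIrr χ) (α : MulAut G)
    (z : Subalgebra.center ℤ (MonoidAlgebra ℤ G)) :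
    lam 𝔐 hχ (ac α z) = lam 𝔐 (hχ.comp_mulEquiv (MulEquiv.symm α)) z := by
  change red 𝔐 (om χ (ac α z)) = red 𝔐 (om (fun x => χ (MulEquiv.symm α x)) z)
  congr 1
  rw [om, om, map_one]
  congr 1
  refine Fintype.sum_equiv (MulEquiv.toEquiv α) _ _ ?_
  intro x
  rw [ac_coeff]
  change _ = _ * χ (MulEquiv.symm α (α x))
  rw [MulEquiv.symm_apply_apply]
  rfl

theorem cg_comp (χ : G → ℂ) (α : MulAut G) (g : G) :
    cg 𝔐 (fun x => χ (MulEquiv.symm α x)) g = cg 𝔐 χ (α⁻¹ g) := by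
  rw [cg, cg, map_one]
  congr 2
  refine Fintype.sum_equiv (MulEquiv.toEquiv (MulEquiv.symm α)) _ _ ?_
  intro x
  change _ = conjInd (MulEquiv.symm α x) (MulEquiv.symm α g) * χ (MulEquiv.symm α x)
  congr 1
  apply conjInd_congr
  constructor
  · intro h
    exact (MulEquiv.symm α).toMonoidHom.map_isConj h
  · intro h
    have h1 := (MulEquiv.toMonoidHom α).map_isConj h
    change IsConj (α (MulEquiv.symm α x)) (α (MulEquiv.symm α g)) at h1
    rw [MulEquiv.apply_symm_apply, MulEquiv.apply_symm_apply] at h1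
    exact h1

/-- The kernel of the central character. -/
noncomputable def kr (χ : G → ℂ) : Ideal (Subalgebra.center ℤ (MonoidAlgebra ℤ G)) :=
  open Classical in if h : IsIrr χ then RingHom.ker (lam 𝔐 h) else ⊤

theorem mem_kr {χ : G → ℂ} (h : IsIrr χ) (z : Subalgebra.center ℤ (MonoidAlgebra ℤ G)) :
    z ∈ kr 𝔐 χ ↔ lam 𝔐 h z = 0 := by
  rw [kr, dif_pos h, RingHom.mem_ker]

theorem kr_prime [𝔐.IsPrime] {χ : G → ℂ} (h : IsIrr χ) : (kr 𝔐 χ).IsPrime := by
  rw [kr, dif_pos h]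
  exact RingHom.ker_isPrime _

omit [Group G] [Fintype G] in
theorem frb_iter {ℓ : ℕ} {Pr : (G → (integralClosure ℤ ℂ) ⧸ 𝔐) → Prop}
    (h : ∀ ω : G → (integralClosure ℤ ℂ) ⧸ 𝔐, Pr (fun g => ω g ^ ℓ) ↔ Pr ω) (n : ℕ) :
    ∀ ω : G → (integralClosure ℤ ℂ) ⧸ 𝔐, Pr (fun g => ω g ^ ℓ ^ n) ↔ Pr ω := by
  induction n with
  | zero =>
    intro ω
    simp only [pow_zero, pow_one]
  | succ n ih =>
    intro ω
    rw [← ih ω, ← h (fun g => ω g ^ ℓ ^ n)]
    simp only [← pow_mul, ← pow_succ]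

/-- A central element which separates the blocks with the property from the others. -/
theorem sep {ℓ : ℕ} [Fact ℓ.Prime] (h𝔐 : 𝔐.IsMaximal) (hℓ : (ℓ : integralClosure ℤ ℂ) ∈ 𝔐)
    {Pr : (G → (integralClosure ℤ ℂ) ⧸ 𝔐) → Prop}
    (h : ∀ ω : G → (integralClosure ℤ ℂ) ⧸ 𝔐, Pr (fun g => ω g ^ ℓ) ↔ Pr ω) :
    ∃ z : Subalgebra.center ℤ (MonoidAlgebra ℤ G),
      (∀ (χ : G → ℂ) (hχ : IsIrr χ), Pr (fun g => cg 𝔐 χ g) → lam 𝔐 hχ z = 0) ∧
      ∀ (χ : G → ℂ) (hχ : IsIrr χ), ¬ Pr (fun g => cg 𝔐 χ g) → lam 𝔐 hχ z ≠ 0 := by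
  classical
  have hp : 𝔐.IsPrime := h𝔐.isPrime
  by_contra hcon
  push Not at hcon
  have hsub : ((((irrF G).filter (fun χ => Pr (fun g => cg 𝔐 χ g))).inf (kr 𝔐) :
      Ideal (Subalgebra.center ℤ (MonoidAlgebra ℤ G))) :
      Set (Subalgebra.center ℤ (MonoidAlgebra ℤ G))) ⊆
      ⋃ χ ∈ (((irrF G).filter (fun χ => ¬ Pr (fun g => cg 𝔐 χ g)) : Finset (G → ℂ)) :
        Set (G → ℂ)), (kr 𝔐 χ : Set (Subalgebra.center ℤ (MonoidAlgebra ℤ G))) := by
    intro z hz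
    obtain ⟨χ, hχ, h1, h2⟩ := hcon z (by
      intro χ hχ h1
      have h2 : (((irrF G).filter (fun χ => Pr (fun g => cg 𝔐 χ g))).inf (kr 𝔐)) ≤ kr 𝔐 χ :=
        Finset.inf_le (Finset.mem_filter.mpr ⟨mem_irrF.mpr hχ, h1⟩)
      exact (mem_kr 𝔐 hχ z).mp (h2 hz))
    exact Set.mem_biUnion (Finset.mem_coe.mpr (Finset.mem_filter.mpr ⟨mem_irrF.mpr hχ, h1⟩))
      ((mem_kr 𝔐 hχ z).mpr h2)
  obtain ⟨χ, hχ, hle⟩ := (Ideal.subset_union_prime (0 : G → ℂ) 0 (fun χ hχ _ _ =>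
    kr_prime 𝔐 (mem_irrF.mp (Finset.mem_filter.mp hχ).1))).mp hsub
  obtain ⟨hχ1, hχ2⟩ := Finset.mem_filter.mp hχ
  rw [mem_irrF] at hχ1
  obtain ⟨χ', hχ', hle'⟩ := (kr_prime 𝔐 hχ1).inf_le'.mp hle
  obtain ⟨hχ1', hχ2'⟩ := Finset.mem_filter.mp hχ'
  rw [mem_irrF] at hχ1'
  let _ : Field ((integralClosure ℤ ℂ) ⧸ 𝔐) := Ideal.Quotient.field 𝔐
  have hch : CharP ((integralClosure ℤ ℂ) ⧸ 𝔐) ℓ := quot_char 𝔐 hℓ
  obtain ⟨n, hn⟩ := ker_le (ℓ := ℓ) cen_finite (lam 𝔐 hχ1') (lam 𝔐 hχ1) (by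
    intro z hz
    rw [RingHom.mem_ker] at hz ⊢
    exact (mem_kr 𝔐 hχ1 z).mp (hle' ((mem_kr 𝔐 hχ1' z).mpr hz)))
  apply hχ2
  have h1 : (fun g => cg 𝔐 χ g) = fun g => cg 𝔐 χ' g ^ ℓ ^ n := by
    funext g
    rw [← lam_cl 𝔐 hχ1, ← lam_cl 𝔐 hχ1']
    exact hn (cl g)
  rw [h1]
  exact (frb_iter 𝔐 h n _).mpr hχ2'

end Cent

end Pool.Agent.DPW.IDFP

namespace Pool.Agent.DPW

open Pool.Agent.DP Pool.Agent.DPV Pool.Agent.Lib_helper13 Representation
open Pool.Agent.Lib_helper13.Dade (pCore DadeHolds dadeSum)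

theorem IDFP_thm : Stmt_IDFP := by
  intro G B _ _ _ 𝔐 ℓ _ h𝔐 hℓ κ Pr hPr
  classical
  have hp : 𝔐.IsPrime := h𝔐.isPrime
  obtain ⟨z, hz1, hz2⟩ := IDFP.sep 𝔐 h𝔐 hℓ hPr.frb
  let _ : Fintype κ.range := Fintype.ofFinite _
  have hinv : ∀ b : B, IDFP.ac (κ b) (∏ α : κ.range, IDFP.ac (α : MulAut G) z) =
      ∏ α : κ.range, IDFP.ac (α : MulAut G) z := by
    intro b
    rw [map_prod]
    refine Fintype.prod_equiv (Equiv.mulRight (⟨κ b, b, rfl⟩ : κ.range)) _ _ ?_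
    intro α
    rw [IDFP.ac_ac]
    rfl
  refine ⟨fun x => ((∏ α : κ.range, IDFP.ac (α : MulAut G) z :
    Subalgebra.center ℤ (MonoidAlgebra ℤ G)) : MonoidAlgebra ℤ G).coeff x, ?_, ?_, ?_, ?_⟩
  · intro g x
    exact IDFP.coeff_conj _ g x
  · intro b x
    exact (IDFP.ac_coeff (κ b) _ x).symm.trans (by rw [hinv])
  · intro χ hχ h1
    change IDFP.lam 𝔐 hχ (∏ α : κ.range, IDFP.ac (α : MulAut G) z) = 0
    rw [map_prod]
    apply Finset.prod_eq_zero (Finset.mem_univ (1 : κ.range))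
    rw [IDFP.lam_ac]
    exact hz1 χ hχ h1
  · intro χ hχ h1
    change IDFP.lam 𝔐 hχ (∏ α : κ.range, IDFP.ac (α : MulAut G) z) ≠ 0
    rw [map_prod, Finset.prod_ne_zero_iff]
    intro α _
    rw [IDFP.lam_ac]
    apply hz2
    intro h2
    apply h1
    obtain ⟨b, hb⟩ := α.2
    apply hPr.inv b⁻¹
    have h3 : (fun g => cg 𝔐 (fun x => χ (MulEquiv.symm (α : MulAut G) x)) g) =
        fun g => cg 𝔐 χ (κ b⁻¹ g) := by
      funext g
      rw [IDFP.cg_comp, map_inv, hb]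
    rw [← h3]
    exact h2

end Pool.Agent.DPW


end
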