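import Mathlib
import Pool.Agent.DAM.C39
import Pool.Agent.DAM.C67

/-! Parts: DPN.YCA, DPK.GRB -/

section

/-!
# YCA: the pairs which contribute for the fibre product
-/

namespace Pool.Agent.DPN

open Pool.Agent.DP Pool.Agent.DPC Pool.Agent.DPM Pool.Agent.Lib_helper13 Representation
open Pool.Agent.Lib_helper13.Dade (pCore DadeHolds dadeSum)

namespace YCA

section Frame

variable {A T H : Type} [Group A] [Group T] [Group H] {j : A →* T} {c : T →* MulAut A}
  {p : T →* H}

/-- The embedding of the normal subgroup in the inverse image of `V`. -/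
def jV (h : ClG j c p) (V : Subgroup H) : A →* ↥(V.comap p) :=
  j.codRestrict _ (fun m => by
    change p (j m) ∈ V
    rw [(h.ker (j m)).mpr ⟨m, rfl⟩]
    exact V.one_mem)

theorem clG_V (h : ClG j c p) (V : Subgroup H) :
    ClG (jV h V) (c.comp (V.comap p).subtype) (p.comp (V.comap p).subtype) where
  inj := by
    intro a b hab
    have h1 : ((jV h V a : ↥(V.comap p)) : T) = (jV h V b : T) := by rw [hab]
    exact h.inj h1
  act := fun y a => Subtype.ext (h.act y a)
  ker := by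
    intro y
    constructor
    · intro h1
      obtain ⟨a, ha⟩ := (h.ker (y : T)).mp h1
      exact ⟨a, Subtype.ext ha⟩
    · rintro ⟨a, rfl⟩
      exact (h.ker (j a)).mpr ⟨a, rfl⟩

theorem ext0_jV (h : ClG j c p) (V : Subgroup H) (ψ : ↥(V.comap p) → ℂ) :
    (fun a : A => ext0 ψ (j a)) = resj (jV h V) ψ := by
  funext a
  have h1 : j a ∈ V.comap p := (jV h V a).2
  rw [ext0_of_mem _ h1]
  rfl

/-- The order of an inverse image. -/
theorem card_V [Finite T] [Finite H] (h : ClG j c p) (V : Subgroup H) (ℓ : ℕ) [Fact ℓ.Prime]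
    (hl : ¬ ℓ ∣ Nat.card H) :
    padicValNat ℓ (Nat.card ↥(V.comap p)) = padicValNat ℓ (Nat.card A) := by
  have hV := clG_V h V
  have h1 : Nat.card ↥(V.comap p) = Nat.card (p.comp (V.comap p).subtype).range *
      Nat.card (p.comp (V.comap p).subtype).ker := by
    rw [Subgroup.card_eq_card_quotient_mul_card_subgroup (p.comp (V.comap p).subtype).ker,
      Nat.card_congr
        (QuotientGroup.quotientKerEquivRange (p.comp (V.comap p).subtype)).toEquiv]
  have h2 : Nat.card A = Nat.card (p.comp (V.comap p).subtype).ker := by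
    refine Nat.card_congr (Equiv.ofBijective
      (fun a => ⟨jV h V a, (hV.ker _).mpr ⟨a, rfl⟩⟩) ⟨?_, ?_⟩)
    · intro a b hab
      apply hV.inj
      exact congrArg Subtype.val hab
    · rintro ⟨y, hy⟩
      obtain ⟨a, ha⟩ := (hV.ker y).mp hy
      exact ⟨a, Subtype.ext ha⟩
  have hr : ¬ ℓ ∣ Nat.card (p.comp (V.comap p).subtype).range := fun hd =>
    hl (hd.trans (Subgroup.card_subgroup_dvd_card _))
  rw [h1, padicValNat.mul Nat.card_pos.ne' Nat.card_pos.ne', padicValNat.eq_zero_of_not_dvd hr,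
    zero_add, h2]

/-- The defect of a character over an invariant character of a normal subgroup of index prime
to `ℓ`. -/
theorem defect [Fintype A] [Fintype T] [Finite H] (h : ClG j c p) (V : Subgroup H) (ℓ : ℕ)
    [Fact ℓ.Prime] (hl : ¬ ℓ ∣ Nat.card H) {θ : A → ℂ} (hθ : IsIrr θ)
    (hinv : ∀ t a, θ (c t a) = θ a) {ψ : ↥(V.comap p) → ℂ} (hψ : IsIrr ψ)
    (hip : ip (resj (jV h V) ψ) θ ≠ 0) {a : ℕ} (ha : HasDefect ℓ ψ a) : HasDefect ℓ θ a := by
  classical
  have hV := clG_V h V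
  obtain ⟨b, hb⟩ := hθ.exists_defect (ℓ := ℓ)
  have h1 : b ≤ a := all_DEFA A ↥(V.comap p) H ℓ (jV h V) _ _ hV ψ θ hψ hθ hip a b ha hb
  have h2 : a ≤ b := by
    obtain ⟨m, hm⟩ := (hψ.resj (jV h V)).exists_ip hθ.isChr
    have hdeg : ψ 1 = m * θ 1 := by
      have h3 := congrFun (class_fn_expand (resj (jV h V) ψ)
        (fun g x => (hψ.resj (jV h V)).conj_eq g x)) 1
      have h4 : ∑ χ ∈ irrF A, ip (resj (jV h V) ψ) χ * χ 1 = ip (resj (jV h V) ψ) θ * θ 1 := by
        refine Finset.sum_eq_single θ ?_ ?_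
        · intro χ hχ hne
          by_contra h0
          have h5 : ip (resj (jV h V) ψ) χ ≠ 0 := left_ne_zero_of_mul h0
          obtain ⟨y, hy⟩ := (SUMM_thm A ↥(V.comap p) H (jV h V) _ _ hV).2.1 θ χ ψ hθ
            (mem_irrF.mp hχ) hψ hip h5
          apply hne
          funext x
          rw [← hy x]
          exact hinv _ _
        · intro h0
          exact absurd (mem_irrF.mpr hθ) h0
      rw [h4, hm] at h3
      rw [← h3, resj, map_one]
    obtain ⟨n, hn, hn'⟩ := ha
    obtain ⟨k, hk, hk'⟩ := hb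
    have hn0 : n ≠ 0 := by
      rintro rfl
      exact hψ.one_ne_zero (by rw [hn]; simp)
    have hnm : n = m * k := by
      rw [hn, hk] at hdeg
      exact_mod_cast hdeg
    have hm0 : m ≠ 0 := by
      rintro rfl
      exact hn0 (by rw [hnm, zero_mul])
    have hk0 : k ≠ 0 := by
      rintro rfl
      exact hn0 (by rw [hnm, mul_zero])
    rw [card_V h V ℓ hl, hk', hnm, padicValNat.mul hm0 hk0] at hn'
    omega
  rw [le_antisymm h2 h1]
  exact hb

end Frame

end YCA

open _root_.Pool.Agent.DPN.YCA in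
theorem YCA_thm (h1 : Stmt_BEQ) (h2 : Stmt_YPR) : Stmt_YCA := by
  classical
  intro O X H W _ _ _ _ _ _ _ _ 𝔐 ℓ _ h𝔐 hℓ j c p h hp a Z Λ π R μ Lm hF τ₀ θ₀ hP V hVR hlV
    t S u y τ hτ θ hθ hFP V' hNT
  have hf := clG_f h (π.comp V.subtype)
  have hS := clG_S hf τ
  rw [NT] at hNT
  have hne : Nat.card {ψ : ↥(V'.comap (pS (fsnd p (π.comp V.subtype))
      (finj h (π.comp V.subtype)) τ)) → ℂ // IsIrr ψ ∧
      ip (fun a => ext0 ψ (jS hf τ a)) θ ≠ 0 ∧ HasDefect ℓ ψ a ∧
      cen 𝔐 ((YS (finj h (π.comp V.subtype)) τ).subtype.comp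
        (V'.comap (pS (fsnd p (π.comp V.subtype)) (finj h (π.comp V.subtype)) τ)).subtype) ψ ∈
        PY h (π.comp V.subtype) 𝔐 τ₀ θ₀ t S u y} ≠ 0 := by
    intro h0
    apply hNT
    rw [h0, Nat.cast_zero]
  have hne2 : Nonempty {ψ : ↥(V'.comap (pS (fsnd p (π.comp V.subtype))
      (finj h (π.comp V.subtype)) τ)) → ℂ // IsIrr ψ ∧
      ip (fun a => ext0 ψ (jS hf τ a)) θ ≠ 0 ∧ HasDefect ℓ ψ a ∧
      cen 𝔐 ((YS (finj h (π.comp V.subtype)) τ).subtype.comp
        (V'.comap (pS (fsnd p (π.comp V.subtype)) (finj h (π.comp V.subtype)) τ)).subtype) ψ ∈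
        PY h (π.comp V.subtype) 𝔐 τ₀ θ₀ t S u y} := by
    by_contra hc
    rw [not_nonempty_iff] at hc
    exact hne Nat.card_of_isEmpty
  obtain ⟨ψ, hψ, hip, hdef, hPY⟩ := hne2
  rw [ext0_jV hS V' ψ] at hip
  have hdθ : HasDefect ℓ θ a := defect hS V' ℓ hlV hθ hFP.2 hψ hip hdef
  have hSV := clG_V hS V'
  -- the central function of `θ`
  have hnorm : (finj h (π.comp V.subtype)).range.Normal := by
    have hk : (finj h (π.comp V.subtype)).range = (fsnd p (π.comp V.subtype)).ker := by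
      ext x
      rw [MonoidHom.mem_ker]
      exact (hf.ker x).symm
    rw [hk]
    infer_instance
  have hr := RCE_thm (stb τ) ↥(V'.comap (pS (fsnd p (π.comp V.subtype))
      (finj h (π.comp V.subtype)) τ)) V ↥(fpr p (π.comp V.subtype)) 𝔐 (jV hS V') _ _ hSV
      ((YS (finj h (π.comp V.subtype)) τ).subtype.comp
        (V'.comap (pS (fsnd p (π.comp V.subtype)) (finj h (π.comp V.subtype)) τ)).subtype)
      (finj h (π.comp V.subtype)).range hnorm ?_ ψ θ hψ hθ hip
  · have hcen : cen 𝔐 (stb τ).subtype θ = cen 𝔐 (stb τ₀).subtype θ₀ := by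
      refine (h1 O ↥(fpr p (π.comp V.subtype)) V 𝔐 ℓ h𝔐 hℓ _ _ _ hf Z τ hτ θ hθ).2 τ₀ hP.ch θ₀
        hP.irr ?_ ?_
      · intro x o
        exact (h1 O X H 𝔐 ℓ h𝔐 hℓ j c p h Z τ₀ hP.ch θ₀ hP.irr).1 hP.fp _ o
      · intro o
        rw [← hPY.1 o, hr _ ⟨o, rfl⟩]
        rfl
    exact (h2 O X H W 𝔐 ℓ h𝔐 hℓ j c p h hp a Z Λ π R μ Lm hF τ₀ θ₀ hP V hVR τ hτ θ hθ hdθ
      (hcen.trans hP.cn)).mp hFP
  · intro x hx
    apply (hSV.ker x).mp
    exact (hf.ker _).mpr hx

end Pool.Agent.DPN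


end

section

/-!
# GRB: the images of `N` and `M` in the quotient by the centre
-/

set_option autoImplicit false

namespace Pool.Agent.DPK

open Pool.Agent.DP Pool.Agent.DPC Pool.Agent.DPM Pool.Agent.DPN Pool.Agent.DPT Pool.Agent.DPF
open Pool.Agent.Lib_helper13
open Representation

namespace GRB

/-- A prime does not divide the index if there are no elements of order `ℓ` in the quotient. -/
theorem not_dvd {X : Type} [Group X] [Finite X] (ℓ : ℕ) [Fact ℓ.Prime] (C M : Subgroup X)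
    (hC : C.Normal) (h : ∀ x ∈ M, x ^ ℓ ∈ C → x ∈ C) : ¬ ℓ ∣ C.relIndex M := by
  have hprime : ℓ.Prime := Fact.out
  intro hd
  have h1 : ℓ ∣ Nat.card (M ⧸ C.subgroupOf M) := hd
  obtain ⟨q, hq⟩ := exists_prime_orderOf_dvd_card' ℓ h1
  obtain ⟨x, rfl⟩ := QuotientGroup.mk_surjective q
  have h2 : ((x ^ ℓ : M) : M ⧸ C.subgroupOf M) = 1 := by
    rw [QuotientGroup.mk_pow, ← hq, pow_orderOf_eq_one]
  rw [QuotientGroup.eq_one_iff, Subgroup.mem_subgroupOf, Subgroup.coe_pow] at h2
  have h3 : ((x : M) : M ⧸ C.subgroupOf M) = 1 := by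
    rw [QuotientGroup.eq_one_iff, Subgroup.mem_subgroupOf]
    exact h x x.2 h2
  rw [h3, orderOf_one] at hq
  exact hprime.one_lt.ne hq

end GRB

theorem GRB_thm : Stmt_GRB := by
  intro X K _ _ _ _ ℓ _ π hπ hk N hN hlt hmin hab
  have hle : π.ker ≤ N := by
    rw [hk]
    exact hlt.le
  have hNn : (N.map π).Normal := hN.map π hπ
  obtain ⟨x, hx, y, hy, hxy⟩ := hab
  have hab' : π x * π y ≠ π y * π x := by
    intro h
    apply hxy
    rw [← hk, MonoidHom.mem_ker, map_mul, map_mul, map_mul, map_inv, map_inv, h]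
    group
  have hmin' : ∀ N' : Subgroup K, N'.Normal → N' ≠ ⊥ → N.map π ≤ N' := by
    intro N' hN' hne
    rw [Subgroup.map_le_iff_le_comap]
    apply hmin _ (hN'.comap π)
    rw [← hk]
    refine lt_of_le_of_ne (Subgroup.ker_le_comap π N') ?_
    intro h
    apply hne
    rw [eq_bot_iff]
    intro z hz
    obtain ⟨w, rfl⟩ := hπ z
    have hw : w ∈ π.ker := by
      rw [h]
      exact hz
    rw [Subgroup.mem_bot]
    exact hw
  refine ⟨hNn, ?_, hmin', ⟨π x, Subgroup.mem_map_of_mem π hx, π y, Subgroup.mem_map_of_mem π hy,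
    hab'⟩, ?_, ?_, ?_⟩
  · intro h
    apply hab'
    have h1 : π x ∈ N.map π := Subgroup.mem_map_of_mem π hx
    rw [h, Subgroup.mem_bot] at h1
    rw [h1, one_mul, mul_one]
  · by_contra hne
    have h1 := hmin' (Subgroup.centralizer (N.map π : Set K)) inferInstance hne
    have h2 := h1 (Subgroup.mem_map_of_mem π hx)
    rw [Subgroup.mem_centralizer_iff] at h2
    exact hab' (h2 (π y) (Subgroup.mem_map_of_mem π hy)).symm
  · intro hs
    have hker : (π.subgroupMap N).ker = (Subgroup.center X).subgroupOf N := by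
      ext z
      rw [MonoidHom.mem_ker, Subgroup.mem_subgroupOf, ← hk, MonoidHom.mem_ker]
      constructor
      · intro h
        exact congrArg Subtype.val h
      · intro h
        exact Subtype.ext h
    have e : (N ⧸ (Subgroup.center X).subgroupOf N) ≃* N.map π :=
      (QuotientGroup.quotientMulEquivOfEq hker.symm).trans
        (QuotientGroup.quotientKerEquivOfSurjective _ (π.subgroupMap_surjective N))
    exact (MulEquiv.isSimpleGroup_congr e).mpr hs
  · intro M hNM hM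
    refine ⟨Subgroup.map_mono hNM, ?_⟩
    rw [Subgroup.relIndex_map_map, sup_eq_left.mpr hle, sup_eq_left.mpr (hle.trans hNM)]
    exact GRB.not_dvd ℓ N M hN hM

end Pool.Agent.DPK


end
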