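import Mathlib
import Pool.Agent.DAM.C06
import Pool.Agent.DAM.C26
import Pool.Agent.DAM.C27
import Pool.Agent.DAM.C28
import Pool.Agent.DAM.C31
import Pool.Agent.DAM.C32
import Pool.Agent.DAM.C38
import Pool.Agent.DAM.C58
import Pool.Agent.DAM.C95

/-! Parts: DPC.DGT, DPT.OUTG, DPT.CHG, DPT.CAE, DPT.OUTH -/

section

/-!
# Module DGT: the values of corresponding characters of defect zero
-/

set_option autoImplicit false

namespace Pool.Agent.DPC

open Pool.Agent.DP Pool.Agent.Lib_helper13 Representation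
open Pool.Agent.Lib_helper13.Dade (pCore DadeHolds dadeSum)

namespace DGT

section Fix

variable {G B : Type} [Group G] [Fintype G] [Group B]

/-- The centralizers of `y` in `G` and in the fixed points have congruent orders. -/
theorem card_modEq {ℓ : ℕ} [Fact ℓ.Prime] (κ : B →* MulAut G) (P : Subgroup B)
    (hP : IsPGroup ℓ P) (y : FX κ P) :
    Nat.card (Subgroup.centralizer ({(y : G)} : Set G)) ≡
      Nat.card (Subgroup.centralizer ({y} : Set (FX κ P))) [MOD ℓ] := by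
  classical
  let S : Type := Subgroup.centralizer ({(y : G)} : Set G)
  have hκS : ∀ (b : P) (s : G), s ∈ Subgroup.centralizer ({(y : G)} : Set G) →
      κ b s ∈ Subgroup.centralizer ({(y : G)} : Set G) := by
    intro b s hs
    rw [Subgroup.mem_centralizer_singleton_iff] at hs ⊢
    have h1 : κ (b : B) (y : G) = y := y.2 b b.2
    have h2 := congrArg (κ (b : B)) hs
    rwa [map_mul, map_mul, h1] at h2
  let act : MulAction P S :=
    { smul := fun b s => ⟨κ b s.1, hκS b s.1 s.2⟩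
      one_smul := fun s => Subtype.ext (by
        change κ ((1 : P) : B) s.1 = s.1
        rw [Subgroup.coe_one, map_one]
        rfl)
      mul_smul := fun b c s => Subtype.ext (by
        change κ ((b * c : P) : B) s.1 = κ (b : B) (κ (c : B) s.1)
        rw [Subgroup.coe_mul, map_mul]
        rfl) }
  have h1 := hP.card_modEq_card_fixedPoints S
  have h2 : Nat.card (MulAction.fixedPoints P S) =
      Nat.card (Subgroup.centralizer ({y} : Set (FX κ P))) := by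
    refine Nat.card_congr
      { toFun := fun s => ⟨⟨s.1.1, fun b hb => congrArg Subtype.val (s.2 ⟨b, hb⟩)⟩, ?_⟩
        invFun := fun s => ⟨⟨s.1.1, ?_⟩, fun b => Subtype.ext (s.1.2 b.1 b.2)⟩
        left_inv := fun s => rfl
        right_inv := fun s => rfl }
    · have h := s.1.2
      rw [Subgroup.mem_centralizer_singleton_iff] at h ⊢
      exact Subtype.ext h
    · have h := s.2
      rw [Subgroup.mem_centralizer_singleton_iff] at h ⊢
      exact congrArg Subtype.val h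
  rw [← h2]
  exact h1

end Fix

section Red

variable (𝔐 : Ideal (integralClosure ℤ ℂ))

theorem red_nat_modEq [h𝔐 : 𝔐.IsPrime] {ℓ : ℕ} [Fact ℓ.Prime]
    (hℓ : (ℓ : integralClosure ℤ ℂ) ∈ 𝔐) {a b : ℕ} (h : a ≡ b [MOD ℓ]) :
    red 𝔐 (a : ℂ) = red 𝔐 (b : ℂ) := by
  have : CharP ((integralClosure ℤ ℂ) ⧸ 𝔐) ℓ := quot_char 𝔐 hℓ
  rw [red_natCast, red_natCast]
  exact (CharP.natCast_eq_natCast' _ ℓ h)

/-- The value at `y` of a character in terms of the central character. -/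
theorem red_val {Y : Type} [Group Y] [Fintype Y] {ℓ : ℕ} [Fact ℓ.Prime]
    {χ : Y → ℂ} (hχ : IsIrr χ) (h0 : HasDefect ℓ χ 0) (y : Y) :
    red 𝔐 ((Nat.card Y : ℂ) / χ 1) * red 𝔐 (χ y) =
      red 𝔐 (Nat.card (Subgroup.centralizer ({y} : Set Y)) : ℂ) *
        red 𝔐 (om χ (elt (BLKA.cls y))) := by
  obtain ⟨n, M, hn0, hn, hM, hv⟩ := exists_codeg hχ h0
  have h3 := BLKA.mul_om_cls hχ y hn0 hn (DGN.card_centralizer y) hM
  have hint := isIntegral_om hχ (elt_mem_center (BLKA.cls y) (BLKA.cls_conj y))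
  have h6 : (Nat.card Y : ℂ) / χ 1 = M := by
    have hn' : (n : ℂ) ≠ 0 := by exact_mod_cast hn0.ne'
    rw [hn, hM]
    push_cast
    field_simp
  rw [h6, ← red_mul 𝔐 (Lib_helper13.isIntegral_natCast M) (isIntegral_char hχ y), ← h3,
    red_mul 𝔐 (Lib_helper13.isIntegral_natCast _) hint]

theorem isIntegral_codeg {Y : Type} [Group Y] [Fintype Y] {ℓ : ℕ} [Fact ℓ.Prime]
    {χ : Y → ℂ} (hχ : IsIrr χ) (h0 : HasDefect ℓ χ 0) :
    IsIntegral ℤ ((Nat.card Y : ℂ) / χ 1) := by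
  obtain ⟨n, M, hn0, hn, hM, hv⟩ := exists_codeg hχ h0
  have h6 : (Nat.card Y : ℂ) / χ 1 = M := by
    have hn' : (n : ℂ) ≠ 0 := by exact_mod_cast hn0.ne'
    rw [hn, hM]
    push_cast
    field_simp
  rw [h6]
  exact Lib_helper13.isIntegral_natCast M

open Classical in
theorem cls_one_or_zero {Y : Type} [Group Y] [Fintype Y] (y x : Y) :
    BLKA.cls y x = if IsConj y x then 1 else 0 := by
  rw [BLKA.cls]
  congr 1
  rw [ConjClasses.mk_eq_mk_iff_isConj]
  exact propext ⟨fun h => h.symm, fun h => h.symm⟩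

end Red

end DGT

theorem DGT_thm (h1 : Stmt_DGV) : Stmt_DGT := by
  intro G B _ _ _ _ 𝔐 ℓ _ h𝔐 hℓ κ P hP θ' θ hθ' hθ'0 hθ hθ0 hD
  classical
  have hprime : 𝔐.IsPrime := h𝔐.isPrime
  have hV := h1 G B 𝔐 ℓ h𝔐 hℓ κ P hP θ' θ hθ' hθ hθ0 hD
  have hN' := red_codeg_ne_zero 𝔐 hℓ hθ' hθ'0
  have hN := red_codeg_ne_zero 𝔐 hℓ hθ hθ0
  -- the values
  have key : ∀ y : FX κ P, red 𝔐 ((Nat.card (FX κ P) : ℂ) / θ' 1) * red 𝔐 (θ' y) =
      red 𝔐 ((Nat.card G : ℂ) / θ 1) * red 𝔐 (θ y) := by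
    intro y
    rw [DGT.red_val 𝔐 hθ' hθ'0 y, DGT.red_val 𝔐 hθ hθ0 (y : G)]
    have hmod := DGT.card_modEq κ P hP y
    rw [DGT.red_nat_modEq 𝔐 hℓ hmod]
    by_cases hc : ℓ ∣ Nat.card (Subgroup.centralizer ({y} : Set (FX κ P)))
    · have h2 : red 𝔐 (Nat.card (Subgroup.centralizer ({y} : Set (FX κ P))) : ℂ) = 0 := by
        have h3 := BLKA.red_mul_of_dvd 𝔐 hℓ hc (a := 1) isIntegral_one
        rwa [mul_one] at h3
      rw [h2, zero_mul, zero_mul]
    · congr 1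
      obtain ⟨hs1, hs2⟩ := SYL_thm G B ℓ κ P hP y.1 y.2 (by
        intro g hg hgy k hk
        have h2 := DGN.elt_eq_one y hc ⟨g, hg⟩ (Subtype.ext hgy) k (Subtype.ext hk)
        exact congrArg Subtype.val h2)
      have hk := hD (fun x => ((BLKA.cls (y : G) x : ℤ) : ℂ)) ?_ ?_ ?_
      rotate_left
      · intro g x
        rw [BLKA.cls_conj]
      · intro b hb x
        congr 1
        rw [DGT.cls_one_or_zero, DGT.cls_one_or_zero]
        congr 1
        apply propext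
        constructor
        · intro h
          obtain ⟨c, hc⟩ := isConj_iff.mp h
          refine isConj_iff.mpr ⟨κ b⁻¹ c, ?_⟩
          have e1 : κ b⁻¹ (κ b x) = x := by
            rw [← MulAut.mul_apply, ← map_mul, inv_mul_cancel, map_one, MulAut.one_apply]
          have e2 : κ b⁻¹ (y : G) = y := y.2 _ (inv_mem hb)
          have e3 := congrArg (κ b⁻¹) hc
          rw [e1, map_mul (κ b⁻¹), map_mul (κ b⁻¹), map_inv (κ b⁻¹) c, e2] at e3
          exact e3
        · intro h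
          obtain ⟨c, hc⟩ := isConj_iff.mp h
          refine isConj_iff.mpr ⟨κ b c, ?_⟩
          have e2 : κ b (y : G) = y := y.2 _ hb
          have e3 := congrArg (κ b) hc
          rw [map_mul (κ b), map_mul (κ b), map_inv (κ b) c, e2] at e3
          exact e3
      · intro x
        exact isIntegral_algebraMap (R := ℤ) (A := ℂ) (x := BLKA.cls (y : G) x)
      have e1 : wt θ' (fun x => ((BLKA.cls (y : G) (x : G) : ℤ) : ℂ)) =
          om θ' (elt (BLKA.cls y)) := by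
        rw [om_elt, wt]
        congr 1
        refine Finset.sum_congr rfl fun x _ => ?_
        congr 2
        rw [DGT.cls_one_or_zero]
        by_cases hx : IsConj y x
        · have h2 : IsConj (y : G) (x : G) := by
            obtain ⟨c, hc⟩ := isConj_iff.mp hx
            exact isConj_iff.mpr ⟨c, by rw [← hc]; rfl⟩
          rw [if_pos h2, BLKA.cls, if_pos (ConjClasses.mk_eq_mk_iff_isConj.mpr hx.symm)]
        · have h2 : ¬ IsConj (y : G) (x : G) := by
            intro h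
            apply hx
            obtain ⟨c, hc⟩ := isConj_iff.mp h
            obtain ⟨h, hh, hh2⟩ := hs2 c (by rw [hc]; exact x.2)
            refine isConj_iff.mpr ⟨⟨h, hh⟩, Subtype.ext ?_⟩
            change h * y * h⁻¹ = x
            rw [← hh2, hc]
          rw [if_neg h2, BLKA.cls,
            if_neg (fun h => hx (ConjClasses.mk_eq_mk_iff_isConj.mp h).symm)]
      have e2 : wt θ (fun x => ((BLKA.cls (y : G) x : ℤ) : ℂ)) =
          om θ (elt (BLKA.cls (y : G))) := by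
        rw [om_elt, wt]
      rw [e1, e2] at hk
      exact hk
  -- the factor
  obtain ⟨μ, hμ⟩ : ∃ μ : integralClosure ℤ ℂ,
      Ideal.Quotient.mk 𝔐 μ * red 𝔐 ((Nat.card G : ℂ) / θ 1) =
        red 𝔐 ((Nat.card (FX κ P) : ℂ) / θ' 1) := by
    let _ : Field ((integralClosure ℤ ℂ) ⧸ 𝔐) := Ideal.Quotient.field 𝔐
    obtain ⟨μ, hμ⟩ := Ideal.Quotient.mk_surjective (I := 𝔐)
      (red 𝔐 ((Nat.card (FX κ P) : ℂ) / θ' 1) / red 𝔐 ((Nat.card G : ℂ) / θ 1))
    refine ⟨μ, ?_⟩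
    rw [hμ]
    exact div_mul_cancel₀ _ hN
  have hμr : red 𝔐 (μ : ℂ) = Ideal.Quotient.mk 𝔐 μ := red_of_integral 𝔐 μ.2
  have hval : ∀ y : FX κ P, red 𝔐 (θ y) = red 𝔐 (μ : ℂ) * red 𝔐 (θ' y) := by
    intro y
    have h2 := key y
    rw [← hμ, ← hμr] at h2
    have h3 : red 𝔐 ((Nat.card G : ℂ) / θ 1) * (red 𝔐 (μ : ℂ) * red 𝔐 (θ' y)) =
        red 𝔐 ((Nat.card G : ℂ) / θ 1) * red 𝔐 (θ y) := by
      rw [← h2]
      ring
    exact (mul_left_cancel₀ hN h3).symm
  rw [← hμr] at hμ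
  -- the square of the factor
  have hsq : red 𝔐 (μ : ℂ) * red 𝔐 (μ : ℂ) = 1 := by
    have h2 := hD (fun x => θ x⁻¹) ?_ ?_ ?_
    rotate_left
    · intro g x
      have : (g * x * g⁻¹)⁻¹ = g * x⁻¹ * g⁻¹ := by group
      rw [this, hθ.conj_eq]
    · intro b hb x
      rw [← map_inv, hV b hb]
    · intro x
      exact isIntegral_char hθ _
    have h3 : wt θ (fun x => θ x⁻¹) = (Nat.card G : ℂ) / θ 1 := by
      rw [wt, ← hθ.sum_self]
      congr 1
      exact Finset.sum_congr rfl fun y _ => mul_comm _ _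
    have h4 : wt θ' (fun x => (μ : ℂ) * θ' x⁻¹) =
        (μ : ℂ) * ((Nat.card (FX κ P) : ℂ) / θ' 1) := by
      rw [wt_smul]
      congr 1
      rw [wt, ← hθ'.sum_self]
      congr 1
      exact Finset.sum_congr rfl fun y _ => mul_comm _ _
    have h5 : red 𝔐 (wt θ' (fun x => θ (x : G)⁻¹)) =
        red 𝔐 (wt θ' (fun x => (μ : ℂ) * θ' x⁻¹)) := by
      refine red_wt_eq 𝔐 hℓ hθ' ⊥ IsPGroup.of_bot _ _ ?_ ?_ ?_ ?_ ?_
      · intro g x
        have : (((g * x * g⁻¹ : FX κ P) : G))⁻¹ = (g : G) * (x : G)⁻¹ * (g : G)⁻¹ := by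
          push_cast
          group
        show θ (((g * x * g⁻¹ : FX κ P) : G))⁻¹ = θ (x : G)⁻¹
        rw [this, hθ.conj_eq]
      · intro x
        exact isIntegral_char hθ _
      · intro g x
        have : (g * x * g⁻¹)⁻¹ = g * x⁻¹ * g⁻¹ := by group
        show (μ : ℂ) * θ' (g * x * g⁻¹)⁻¹ = (μ : ℂ) * θ' x⁻¹
        rw [this, hθ'.conj_eq]
      · intro x
        exact IsIntegral.mul μ.2 (isIntegral_char hθ' _)
      · intro x _
        rw [red_mul 𝔐 μ.2 (isIntegral_char hθ' _)]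
        exact hval x⁻¹
    rw [h5, h4, h3, red_mul 𝔐 μ.2 (DGT.isIntegral_codeg hθ' hθ'0), ← hμ] at h2
    have h6 : (red 𝔐 (μ : ℂ) * red 𝔐 (μ : ℂ)) * red 𝔐 ((Nat.card G : ℂ) / θ 1) =
        1 * red 𝔐 ((Nat.card G : ℂ) / θ 1) := by
      rw [one_mul, mul_assoc]
      exact h2
    exact mul_right_cancel₀ hN h6
  have hcase : red 𝔐 (μ : ℂ) = 1 ∨ red 𝔐 (μ : ℂ) = -1 := mul_self_eq_one_iff.mp hsq
  rcases hcase with h | h
  · refine ⟨1, Or.inl rfl, ?_, ?_⟩
    · intro y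
      rw [hval y, h, red_one]
    · rw [← hμ, h, red_one]
  · have hm1 : red 𝔐 (-1 : ℂ) = -1 := by
      have h7 := red_add 𝔐 (a := -1) (b := 1) isIntegral_one.neg isIntegral_one
      rw [neg_add_cancel, red_zero, red_one] at h7
      exact eq_neg_of_add_eq_zero_left h7.symm
    refine ⟨-1, Or.inr rfl, ?_, ?_⟩
    · intro y
      rw [hval y, h, hm1]
    · rw [← hμ, h, hm1]

end Pool.Agent.DPC


end

section

/-!
# OUTG: a normal subgroup with quotient in the class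
-/

namespace Pool.Agent.DPT

open Pool.Agent.DP Pool.Agent.DPC Pool.Agent.DPM Pool.Agent.DPN Pool.Agent.Lib_helper13
open Representation
open Pool.Agent.Lib_helper13.Dade (pCore DadeHolds dadeSum)

namespace OUTG

/-- Raising to a power which is a multiple of the index of the centre. -/
theorem pow_mul_center {G : Type} [Group G] [Finite G] (x y : G) (k : ℕ) :
    (x * y) ^ ((Subgroup.center G).index * k) =
      x ^ ((Subgroup.center G).index * k) * y ^ ((Subgroup.center G).index * k) := by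
  have h : ∀ g : G, g ^ ((Subgroup.center G).index * k) =
      ((MonoidHom.transferCenterPow G g ^ k : Subgroup.center G) : G) := by
    intro g
    rw [pow_mul, Subgroup.coe_pow, MonoidHom.transferCenterPow_apply]
  have hc : Commute (MonoidHom.transferCenterPow G x) (MonoidHom.transferCenterPow G y) := by
    apply Subtype.ext
    exact (Subgroup.mem_center_iff.mp (MonoidHom.transferCenterPow G y).2 _)
  rw [h, h, h, map_mul, hc.mul_pow, Subgroup.coe_mul]

/-- The elements of `C` some power of which, of exponent prime to `ℓ`, lies in `N`. -/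
theorem mul_mem_aux {X : Type} [Group X] [Finite X] (ℓ : ℕ) [hl : Fact ℓ.Prime]
    (N O C : Subgroup X) [N.Normal] [O.Normal] (hNO : N ≤ O) (hO : ¬ ℓ ∣ O.index)
    (hC : ∀ y ∈ C, ∀ o ∈ O, y * o * y⁻¹ * o⁻¹ ∈ N) (x y : X) (hx : x ∈ C) (hy : y ∈ C)
    (m m' : ℕ) (hm : ¬ ℓ ∣ m) (hm' : ¬ ℓ ∣ m') (hxm : x ^ m ∈ N) (hym : y ^ m' ∈ N) :
    ∃ k : ℕ, ¬ ℓ ∣ k ∧ (x * y) ^ k ∈ N := by
  classical
  let q := QuotientGroup.mk' N
  let Cb : Subgroup (X ⧸ N) := C.map q
  let Ob : Subgroup (X ⧸ N) := O.map q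
  have hObn : Ob.Normal := Subgroup.Normal.map inferInstance q (QuotientGroup.mk'_surjective N)
  have hObi : Ob.index = O.index :=
    Subgroup.index_map_eq O (QuotientGroup.mk'_surjective N)
      (by rw [QuotientGroup.ker_mk']; exact hNO)
  have hle : Ob.subgroupOf Cb ≤ Subgroup.center Cb := by
    intro z hz
    rw [Subgroup.mem_subgroupOf] at hz
    rw [Subgroup.mem_center_iff]
    intro g
    obtain ⟨o, ho, hoz⟩ := hz
    obtain ⟨c, hc, hcg⟩ := g.2
    apply Subtype.ext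
    rw [Subgroup.coe_mul, Subgroup.coe_mul, ← hoz, ← hcg]
    have h1 : q (c * o * c⁻¹ * o⁻¹) = 1 := by
      rw [← MonoidHom.mem_ker, QuotientGroup.ker_mk']
      exact hC c hc o ho
    rw [map_mul, map_mul, map_mul, map_inv, map_inv] at h1
    have h2 := mul_inv_eq_one.mp h1
    exact mul_inv_eq_iff_eq_mul.mp h2
  have hcd : (Subgroup.center Cb).index ∣ O.index := by
    have h1 := Subgroup.index_dvd_of_le hle
    have h2 : (Ob.subgroupOf Cb).index ∣ Ob.index := Subgroup.relIndex_dvd_index_of_normal Ob Cb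
    rw [hObi] at h2
    exact h1.trans h2
  set c := (Subgroup.center Cb).index with hcdef
  have hcl : ¬ ℓ ∣ c := fun h => hO (h.trans hcd)
  refine ⟨c * (m * m'), ?_, ?_⟩
  · intro h
    rcases (hl.out.dvd_mul).mp h with h | h
    · exact hcl h
    · rcases (hl.out.dvd_mul).mp h with h | h
      · exact hm h
      · exact hm' h
  · have hxb : q x ^ m = 1 := by
      rw [← map_pow, ← MonoidHom.mem_ker, QuotientGroup.ker_mk']
      exact hxm
    have hyb : q y ^ m' = 1 := by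
      rw [← map_pow, ← MonoidHom.mem_ker, QuotientGroup.ker_mk']
      exact hym
    have key := pow_mul_center (G := Cb) ⟨q x, Subgroup.mem_map_of_mem q hx⟩
      ⟨q y, Subgroup.mem_map_of_mem q hy⟩ (m * m')
    have key2 : (q x * q y) ^ (c * (m * m')) = q x ^ (c * (m * m')) * q y ^ (c * (m * m')) :=
      congrArg (fun z : Cb => (z : X ⧸ N)) key
    have hx1 : q x ^ (c * (m * m')) = 1 := by
      rw [show c * (m * m') = m * (c * m') by ring, pow_mul, hxb, one_pow]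
    have hy1 : q y ^ (c * (m * m')) = 1 := by
      rw [show c * (m * m') = m' * (c * m) by ring, pow_mul, hyb, one_pow]
    rw [hx1, hy1, one_mul, ← map_mul, ← map_pow, ← MonoidHom.mem_ker, QuotientGroup.ker_mk'] at key2
    exact key2

end OUTG

theorem OUTG_thm : Stmt_OUTG := by
  classical
  intro X _ _ ℓ hl N O Q hN hO hQ hNO hOQ hpow hcomm hcop hcen
  -- the index of `O`
  have hOi : ¬ ℓ ∣ O.index := by
    intro h
    have h1 : ℓ ∣ Nat.card (X ⧸ O) := by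
      rw [← Subgroup.index_eq_card]
      exact h
    obtain ⟨g, hg⟩ := exists_prime_orderOf_dvd_card' ℓ h1
    obtain ⟨x, rfl⟩ := QuotientGroup.mk'_surjective O g
    have h2 : x ^ ℓ ∈ O := by
      rw [← QuotientGroup.ker_mk' O, MonoidHom.mem_ker, map_pow, ← hg]
      exact pow_orderOf_eq_one _
    have h3 := hcop x h2
    have h4 : QuotientGroup.mk' O x = 1 := by
      rw [← MonoidHom.mem_ker, QuotientGroup.ker_mk']
      exact h3
    rw [h4, orderOf_one] at hg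
    exact hl.out.one_lt.ne hg
  -- the subgroup `C`
  let C : Subgroup X :=
    { carrier := {y | ∀ o ∈ O, y * o * y⁻¹ * o⁻¹ ∈ N}
      one_mem' := by
        intro o _
        simp [N.one_mem]
      mul_mem' := by
        intro a b ha hb o ho
        have h1 := hb o ho
        have h2 : b * o * b⁻¹ ∈ O := hO.conj_mem o ho b
        have h3 := ha _ h2
        have h4 : a * b * o * (a * b)⁻¹ * o⁻¹ =
            (a * (b * o * b⁻¹) * a⁻¹ * (b * o * b⁻¹)⁻¹) * (b * o * b⁻¹ * o⁻¹) := by group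
        change a * b * o * (a * b)⁻¹ * o⁻¹ ∈ N
        rw [h4]
        exact N.mul_mem h3 h1
      inv_mem' := by
        intro a ha o ho
        have h2 : a⁻¹ * o * a⁻¹⁻¹ ∈ O := hO.conj_mem o ho a⁻¹
        have h3 := N.inv_mem (ha _ h2)
        have h4 : a⁻¹ * o * a⁻¹⁻¹ * o⁻¹ =
          (a * (a⁻¹ * o * a⁻¹⁻¹) * a⁻¹ * (a⁻¹ * o * a⁻¹⁻¹)⁻¹)⁻¹ := by group
        change a⁻¹ * o * a⁻¹⁻¹ * o⁻¹ ∈ N
        rw [h4]
        exact h3 }
  have hCmem : ∀ y, y ∈ C ↔ ∀ o ∈ O, y * o * y⁻¹ * o⁻¹ ∈ N := fun y => Iff.rfl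
  have hCconj : ∀ y ∈ C, ∀ g : X, g * y * g⁻¹ ∈ C := by
    intro y hy g
    rw [hCmem] at hy ⊢
    intro o ho
    have h1 := hy (g⁻¹ * o * g) (by
      have := hO.conj_mem o ho g⁻¹
      rwa [inv_inv] at this)
    have h2 := hN.conj_mem _ h1 g
    have h3 : g * y * g⁻¹ * o * (g * y * g⁻¹)⁻¹ * o⁻¹ =
        g * (y * (g⁻¹ * o * g) * y⁻¹ * (g⁻¹ * o * g)⁻¹) * g⁻¹ := by group
    rw [h3]
    exact h2
  have hNC : ∀ n ∈ N, n ∈ C := by
    intro n hn
    rw [hCmem]
    intro o ho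
    have h1 := hN.conj_mem _ (N.inv_mem hn) o
    have h3 : n * o * n⁻¹ * o⁻¹ = n * (o * n⁻¹ * o⁻¹) := by group
    rw [h3]
    exact N.mul_mem hn h1
  let M : Subgroup X :=
    { carrier := {x | x ∈ C ∧ ∃ m : ℕ, ¬ ℓ ∣ m ∧ x ^ m ∈ N}
      one_mem' := ⟨C.one_mem, 1, fun h => hl.out.one_lt.ne' (Nat.dvd_one.mp h), by
        rw [one_pow]; exact N.one_mem⟩
      mul_mem' := by
        rintro a b ⟨ha, m, hm, ham⟩ ⟨hb, m', hm', hbm⟩
        exact ⟨C.mul_mem ha hb, OUTG.mul_mem_aux ℓ N O C hNO hOi (fun y hy => hy) a b ha hb m m'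
          hm hm' ham hbm⟩
      inv_mem' := by
        rintro a ⟨ha, m, hm, ham⟩
        refine ⟨C.inv_mem ha, m, hm, ?_⟩
        rw [inv_pow]
        exact N.inv_mem ham }
  have hMmem : ∀ x, x ∈ M ↔ x ∈ C ∧ ∃ m : ℕ, ¬ ℓ ∣ m ∧ x ^ m ∈ N := fun x => Iff.rfl
  have hMn : M.Normal := by
    constructor
    intro x hx g
    rw [hMmem] at hx ⊢
    obtain ⟨hx, m, hm, hxm⟩ := hx
    refine ⟨hCconj x hx g, m, hm, ?_⟩
    rw [conj_pow]
    exact hN.conj_mem _ hxm g
  have hNM : N ≤ M := by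
    intro n hn
    rw [hMmem]
    refine ⟨hNC n hn, 1, fun h => hl.out.one_lt.ne' (Nat.dvd_one.mp h), ?_⟩
    rw [pow_one]
    exact hn
  refine ⟨M, hMn, hNM, ?_, ?_⟩
  · intro x hx hxl
    rw [hMmem] at hx
    obtain ⟨-, m, hm, hxm⟩ := hx
    have hco : IsCoprime (ℓ : ℤ) (m : ℤ) := by
      rw [Nat.isCoprime_iff_coprime]
      exact (Nat.Prime.coprime_iff_not_dvd hl.out).mpr hm
    obtain ⟨a, b, hab⟩ := hco
    have h1 : x = (x ^ ℓ) ^ a * (x ^ m) ^ b := by
      rw [← zpow_natCast x ℓ, ← zpow_natCast x m, ← zpow_mul, ← zpow_mul, ← zpow_add,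
        mul_comm (ℓ : ℤ) a, mul_comm (m : ℤ) b, hab, zpow_one]
    rw [h1]
    exact N.mul_mem (N.zpow_mem hxl a) (N.zpow_mem hxm b)
  · refine ⟨X ⧸ M, inferInstance, inferInstance, QuotientGroup.mk' M,
      QuotientGroup.mk'_surjective M, ?_, ?_⟩
    · intro x
      rw [← MonoidHom.mem_ker, QuotientGroup.ker_mk']
    · refine ⟨O.map (QuotientGroup.mk' M),
        Subgroup.Normal.map hO _ (QuotientGroup.mk'_surjective M), ?_, ?_, ?_⟩
      · rintro ⟨g, o, ho, rfl⟩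
        obtain ⟨n, hn⟩ := hpow o ho
        refine ⟨n, ?_⟩
        apply Subtype.ext
        change (QuotientGroup.mk' M o) ^ ℓ ^ n = 1
        rw [← map_pow, ← MonoidHom.mem_ker, QuotientGroup.ker_mk']
        exact hNM hn
      · intro h
        exact hOi (h.trans (Subgroup.index_map_dvd O (QuotientGroup.mk'_surjective M)))
      · have hmain : ∀ z ∈ Q, QuotientGroup.mk' M z ∈ O.map (QuotientGroup.mk' M) := by
          intro z hz
          obtain ⟨y, hzy, hy⟩ := hcen z hz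
          -- a power of `y` lies in `O`
          have hyO : y ^ O.index ∈ O := by
            exact Subgroup.pow_index_mem O y
          obtain ⟨a, ha⟩ := hpow _ hyO
          have hco : IsCoprime ((O.index : ℕ) : ℤ) ((ℓ ^ a : ℕ) : ℤ) := by
            rw [Nat.isCoprime_iff_coprime]
            exact (Nat.Coprime.pow_left a ((Nat.Prime.coprime_iff_not_dvd hl.out).mpr hOi)).symm
          obtain ⟨u, v, huv⟩ := hco
          have h1 : y = (y ^ O.index) ^ u * (y ^ (ℓ ^ a)) ^ v := by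
            rw [← zpow_natCast y O.index, ← zpow_natCast y (ℓ ^ a), ← zpow_mul, ← zpow_mul,
              ← zpow_add, mul_comm ((O.index : ℕ) : ℤ) u, mul_comm ((ℓ ^ a : ℕ) : ℤ) v, huv,
              zpow_one]
          have h2 : (y ^ (ℓ ^ a)) ^ v ∈ M := by
            apply M.zpow_mem
            rw [hMmem]
            refine ⟨C.pow_mem hy _, O.index, hOi, ?_⟩
            rw [← pow_mul, mul_comm, pow_mul]
            exact ha
          have h3 : QuotientGroup.mk' M y ∈ O.map (QuotientGroup.mk' M) := by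
            rw [h1, map_mul]
            apply Subgroup.mul_mem
            · exact Subgroup.mem_map_of_mem _ (O.zpow_mem hyO u)
            · have h4 : QuotientGroup.mk' M ((y ^ (ℓ ^ a)) ^ v) = 1 := by
                rw [← MonoidHom.mem_ker, QuotientGroup.ker_mk']
                exact h2
              rw [h4]
              exact Subgroup.one_mem _
          have h5 : z = y * (z⁻¹ * y)⁻¹ := by group
          rw [h5, map_mul]
          exact Subgroup.mul_mem _ h3 (Subgroup.mem_map_of_mem _ (O.inv_mem hzy))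
        intro x y
        obtain ⟨x, rfl⟩ := QuotientGroup.mk'_surjective M x
        obtain ⟨y, rfl⟩ := QuotientGroup.mk'_surjective M y
        rw [← map_inv, ← map_inv, ← map_mul, ← map_mul, ← map_mul]
        exact hmain _ (hcomm x y)

end Pool.Agent.DPT


end

section

/-!
# CHG: the chains of `M` and of its image in another quotient
-/

namespace Pool.Agent.DPT

open Pool.Agent.DP Pool.Agent.DPC Pool.Agent.DPM Pool.Agent.DPN Pool.Agent.Lib_helper13
open Representation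
open Pool.Agent.Lib_helper13.Dade (pCore DadeHolds dadeSum)

namespace CHG

/-- Raising to a power which is a multiple of the index of the centre. -/
theorem pow_mul_center {G : Type} [Group G] [Finite G] (x y : G) (k : ℕ) :
    (x * y) ^ ((Subgroup.center G).index * k) =
      x ^ ((Subgroup.center G).index * k) * y ^ ((Subgroup.center G).index * k) := by
  have h : ∀ g : G, g ^ ((Subgroup.center G).index * k) =
      ((MonoidHom.transferCenterPow G g ^ k : Subgroup.center G) : G) := by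
    intro g
    rw [pow_mul, Subgroup.coe_pow, MonoidHom.transferCenterPow_apply]
  have hc : Commute (MonoidHom.transferCenterPow G x) (MonoidHom.transferCenterPow G y) := by
    apply Subtype.ext
    exact (Subgroup.mem_center_iff.mp (MonoidHom.transferCenterPow G y).2 _)
  rw [h, h, h, map_mul, hc.mul_pow, Subgroup.coe_mul]

/-- An element of `ℓ`-power order and of order prime to `ℓ` is trivial. -/
theorem eq_one_of_pow {G : Type} [Group G] (ℓ : ℕ) [hl : Fact ℓ.Prime] (g : G) (n m : ℕ)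
    (hm : ¬ ℓ ∣ m) (h1 : g ^ ℓ ^ n = 1) (h2 : g ^ m = 1) : g = 1 := by
  have hco : Nat.Coprime (ℓ ^ n) m :=
    Nat.Coprime.pow_left n ((Nat.Prime.coprime_iff_not_dvd hl.out).mpr hm)
  have h3 := orderOf_dvd_of_pow_eq_one h1
  have h4 := orderOf_dvd_of_pow_eq_one h2
  have h5 : orderOf g = 1 := Nat.eq_one_of_dvd_coprimes hco h3 h4
  exact orderOf_eq_one_iff.mp h5

/-- The decomposition of an element. -/
theorem split {T : Type} [Group T] [Finite T] (ℓ : ℕ) [hl : Fact ℓ.Prime] (t : T) :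
    ∃ a b : ℤ, t = t ^ a * t ^ b ∧ (∃ n : ℕ, (t ^ a) ^ ℓ ^ n = 1) ∧
      ∃ m : ℕ, ¬ ℓ ∣ m ∧ (t ^ b) ^ m = 1 := by
  obtain ⟨n, m, hm, hN⟩ := Nat.exists_eq_pow_mul_and_not_dvd (orderOf_pos t).ne' ℓ hl.out.ne_one
  have hco : IsCoprime ((ℓ ^ n : ℕ) : ℤ) (m : ℤ) := by
    rw [Nat.isCoprime_iff_coprime]
    exact Nat.Coprime.pow_left n ((Nat.Prime.coprime_iff_not_dvd hl.out).mpr hm)
  obtain ⟨α, β, hαβ⟩ := hco
  have ht : t ^ ((ℓ ^ n : ℕ) * (m : ℕ)) = 1 := by
    rw [← hN]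
    exact pow_orderOf_eq_one t
  refine ⟨β * m, α * (ℓ ^ n : ℕ), ?_, ⟨n, ?_⟩, m, hm, ?_⟩
  · rw [← zpow_add, add_comm, hαβ, zpow_one]
  · rw [← zpow_natCast, ← zpow_mul]
    have : β * (m : ℤ) * ((ℓ ^ n : ℕ) : ℤ) = ((ℓ ^ n * m : ℕ) : ℤ) * β := by
      push_cast
      ring
    rw [this, zpow_mul, zpow_natCast, ht, one_zpow]
  · rw [← zpow_natCast, ← zpow_mul]
    have : α * ((ℓ ^ n : ℕ) : ℤ) * (m : ℤ) = ((ℓ ^ n * m : ℕ) : ℤ) * α := by
      push_cast
      ring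
    rw [this, zpow_mul, zpow_natCast, ht, one_zpow]

section

variable {T K G : Type} [Group T] [Group K] [Group G] {ℓ : ℕ} {ρ : T →* K} {κ : T →* G}
  {M : Subgroup K}

/-- The product of elements of `ℓ`-power order above `D` is of `ℓ`-power order. -/
theorem mulP [Finite T] [hl : Fact ℓ.Prime] (hker : ρ.ker ≤ Subgroup.center T) {D : Subgroup K}
    (hD : IsPGroup ℓ D) {x y : T} (hx : ρ x ∈ D) (hy : ρ y ∈ D) (hxn : ∃ n : ℕ, x ^ ℓ ^ n = 1)
    (hyn : ∃ n : ℕ, y ^ ℓ ^ n = 1) : ∃ n : ℕ, (x * y) ^ ℓ ^ n = 1 := by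
  obtain ⟨n, hn⟩ := hxn
  obtain ⟨n', hn'⟩ := hyn
  have hq : IsPGroup ℓ (↥(D.comap ρ) ⧸ Subgroup.center ↥(D.comap ρ)) := by
    intro q
    obtain ⟨g, rfl⟩ := QuotientGroup.mk'_surjective _ q
    obtain ⟨k, hk⟩ := hD ⟨ρ (g : T), g.2⟩
    refine ⟨k, ?_⟩
    rw [← map_pow, ← MonoidHom.mem_ker, QuotientGroup.ker_mk', Subgroup.mem_center_iff]
    intro h
    have h1 : ρ ((g : T) ^ ℓ ^ k) = 1 := by
      rw [map_pow]
      exact congrArg Subtype.val hk
    have h2 : (g : T) ^ ℓ ^ k ∈ Subgroup.center T := hker h1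
    apply Subtype.ext
    rw [Subgroup.coe_mul, Subgroup.coe_mul, Subgroup.coe_pow]
    exact Subgroup.mem_center_iff.mp h2 _
  obtain ⟨a, ha⟩ := IsPGroup.iff_card.mp hq
  rw [← Subgroup.index_eq_card] at ha
  refine ⟨a + (n + n'), ?_⟩
  have key := pow_mul_center (⟨x, hx⟩ : ↥(D.comap ρ)) ⟨y, hy⟩ (ℓ ^ (n + n'))
  rw [ha, ← pow_add] at key
  have key2 : (x * y) ^ ℓ ^ (a + (n + n')) =
      x ^ ℓ ^ (a + (n + n')) * y ^ ℓ ^ (a + (n + n')) :=
    congrArg (fun z : ↥(D.comap ρ) => (z : T)) key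
  rw [key2]
  have h1 : x ^ ℓ ^ (a + (n + n')) = 1 := by
    rw [show a + (n + n') = n + (a + n') by ring, pow_add, pow_mul, hn, one_pow]
  have h2 : y ^ ℓ ^ (a + (n + n')) = 1 := by
    rw [show a + (n + n') = n' + (a + n) by ring, pow_add, pow_mul, hn', one_pow]
  rw [h1, h2, one_mul]

/-- The elements of `ℓ`-power order above `D`. -/
def eP (ℓ : ℕ) (ρ : T →* K) (D : Subgroup K) : Subgroup T :=
  Subgroup.closure {t | ρ t ∈ D ∧ ∃ n : ℕ, t ^ ℓ ^ n = 1}

theorem mem_eP [Finite T] [Fact ℓ.Prime] (hker : ρ.ker ≤ Subgroup.center T) {D : Subgroup K}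
    (hD : IsPGroup ℓ D) {t : T} : t ∈ eP ℓ ρ D ↔ ρ t ∈ D ∧ ∃ n : ℕ, t ^ ℓ ^ n = 1 := by
  constructor
  · intro h
    induction h using Subgroup.closure_induction with
    | mem x hx => exact hx
    | one =>
      refine ⟨?_, 0, one_pow _⟩
      rw [map_one]
      exact D.one_mem
    | mul x y _ _ hx hy =>
      refine ⟨?_, mulP hker hD hx.1 hy.1 hx.2 hy.2⟩
      rw [map_mul]
      exact D.mul_mem hx.1 hy.1
    | inv x _ hx =>
      obtain ⟨hx1, n, hn⟩ := hx
      refine ⟨?_, n, ?_⟩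
      · rw [map_inv]
        exact D.inv_mem hx1
      · rw [inv_pow, hn, inv_one]
  · intro h
    exact Subgroup.subset_closure h

/-- The subgroup of `G` which belongs to `D`. -/
def sharp (ℓ : ℕ) (ρ : T →* K) (κ : T →* G) (D : Subgroup K) : Subgroup G := (eP ℓ ρ D).map κ

/-- The subgroup of `K` which belongs to `E`. -/
def flat (ρ : T →* K) (κ : T →* G) (M : Subgroup K) (E : Subgroup G) : Subgroup K :=
  (M.comap ρ ⊓ E.comap κ).map ρ

theorem mem_sharp [Finite T] [Fact ℓ.Prime] (hker : ρ.ker ≤ Subgroup.center T) {D : Subgroup K}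
    (hD : IsPGroup ℓ D) {y : G} :
    y ∈ sharp ℓ ρ κ D ↔ ∃ t, ρ t ∈ D ∧ (∃ n : ℕ, t ^ ℓ ^ n = 1) ∧ κ t = y := by
  rw [sharp, Subgroup.mem_map]
  constructor
  · rintro ⟨t, ht, rfl⟩
    obtain ⟨h1, h2⟩ := (mem_eP hker hD).mp ht
    exact ⟨t, h1, h2, rfl⟩
  · rintro ⟨t, h1, h2, rfl⟩
    exact ⟨t, (mem_eP hker hD).mpr ⟨h1, h2⟩, rfl⟩

theorem mem_flat {E : Subgroup G} {y : K} :
    y ∈ flat ρ κ M E ↔ ∃ t, ρ t ∈ M ∧ κ t ∈ E ∧ ρ t = y := by
  rw [flat, Subgroup.mem_map]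
  constructor
  · rintro ⟨t, ht, rfl⟩
    exact ⟨t, ht.1, ht.2, rfl⟩
  · rintro ⟨t, h1, h2, rfl⟩
    exact ⟨t, ⟨h1, h2⟩, rfl⟩

theorem flat_le {E : Subgroup G} : flat ρ κ M E ≤ M := by
  intro y hy
  obtain ⟨t, h1, -, rfl⟩ := mem_flat.mp hy
  exact h1

theorem flat_mono {E E' : Subgroup G} (h : E ≤ E') : flat ρ κ M E ≤ flat ρ κ M E' := by
  intro y hy
  obtain ⟨t, h1, h2, rfl⟩ := mem_flat.mp hy
  exact mem_flat.mpr ⟨t, h1, h h2, rfl⟩

theorem sharp_mono {D D' : Subgroup K} (h : D ≤ D') : sharp ℓ ρ κ D ≤ sharp ℓ ρ κ D' := by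
  apply Subgroup.map_mono
  apply Subgroup.closure_mono
  rintro t ⟨h1, h2⟩
  exact ⟨h h1, h2⟩

theorem sharp_le [Finite T] [Fact ℓ.Prime] (hker : ρ.ker ≤ Subgroup.center T) {D : Subgroup K}
    (hD : IsPGroup ℓ D) (hDM : D ≤ M) : sharp ℓ ρ κ D ≤ (M.comap ρ).map κ := by
  intro y hy
  obtain ⟨t, h1, -, rfl⟩ := (mem_sharp hker hD).mp hy
  exact ⟨t, hDM h1, rfl⟩

theorem isPGroup_sharp [Finite T] [Fact ℓ.Prime] (hker : ρ.ker ≤ Subgroup.center T)
    {D : Subgroup K} (hD : IsPGroup ℓ D) : IsPGroup ℓ (sharp ℓ ρ κ D) := by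
  rintro ⟨y, hy⟩
  obtain ⟨t, -, ⟨n, hn⟩, rfl⟩ := (mem_sharp hker hD).mp hy
  refine ⟨n, Subtype.ext ?_⟩
  change κ t ^ ℓ ^ n = 1
  rw [← map_pow, hn, map_one]

theorem isPGroup_flat (ha : ∀ t, ρ t ∈ M → κ t = 1 → ρ t = 1) {E : Subgroup G}
    (hE : IsPGroup ℓ E) : IsPGroup ℓ (flat ρ κ M E) := by
  rintro ⟨y, hy⟩
  obtain ⟨t, h1, h2, rfl⟩ := mem_flat.mp hy
  obtain ⟨n, hn⟩ := hE ⟨κ t, h2⟩
  refine ⟨n, Subtype.ext ?_⟩
  change ρ t ^ ℓ ^ n = 1
  rw [← map_pow]
  apply ha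
  · rw [map_pow]
    exact M.pow_mem h1 _
  · rw [map_pow]
    exact congrArg Subtype.val hn

theorem flat_sharp [Finite T] [hl : Fact ℓ.Prime] (hker : ρ.ker ≤ Subgroup.center T)
    (hM : M ≤ ρ.range) (ha : ∀ t, ρ t ∈ M → κ t = 1 → ρ t = 1) {D : Subgroup K}
    (hD : IsPGroup ℓ D) (hDM : D ≤ M) : flat ρ κ M (sharp ℓ ρ κ D) = D := by
  ext y
  rw [mem_flat]
  constructor
  · rintro ⟨t, h1, h2, rfl⟩
    obtain ⟨s, hs, -, hst⟩ := (mem_sharp hker hD).mp h2
    have h3 : ρ (t * s⁻¹) = 1 := by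
      apply ha
      · rw [map_mul, map_inv]
        exact M.mul_mem h1 (M.inv_mem (hDM hs))
      · rw [map_mul, map_inv, hst, mul_inv_cancel]
    rw [map_mul, map_inv, mul_inv_eq_one] at h3
    rw [h3]
    exact hs
  · intro hy
    obtain ⟨t, rfl⟩ := hM (hDM hy)
    obtain ⟨a, b, hab, ⟨n, hn⟩, m, hm, hbm⟩ := split ℓ t
    have h1 : ρ (t ^ b) = 1 := by
      have h2 : ρ (t ^ b) ∈ D := by
        rw [map_zpow]
        exact D.zpow_mem hy b
      obtain ⟨k, hk⟩ := hD ⟨ρ (t ^ b), h2⟩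
      apply eq_one_of_pow ℓ _ k m hm
      · exact congrArg Subtype.val hk
      · rw [← map_pow, hbm, map_one]
    have h2 : ρ t = ρ (t ^ a) := by
      conv_lhs => rw [hab, map_mul, h1, mul_one]
    have h3 : ρ (t ^ a) ∈ D := by
      rw [← h2]
      exact hy
    exact ⟨t ^ a, hDM h3, (mem_sharp hker hD).mpr ⟨t ^ a, h3, ⟨n, hn⟩, rfl⟩, h2.symm⟩

theorem sharp_flat [Finite T] [hl : Fact ℓ.Prime] (hker : ρ.ker ≤ Subgroup.center T)
    (hκ : Function.Surjective κ) (ha : ∀ t, ρ t ∈ M → κ t = 1 → ρ t = 1)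
    (hb : ∀ t, ρ t = 1 → (∃ n : ℕ, t ^ ℓ ^ n = 1) → κ t = 1) {E : Subgroup G}
    (hE : IsPGroup ℓ E) (hEM : E ≤ (M.comap ρ).map κ) :
    sharp ℓ ρ κ (flat ρ κ M E) = E := by
  have hF : IsPGroup ℓ (flat ρ κ M E) := isPGroup_flat ha hE
  ext y
  rw [mem_sharp hker hF]
  constructor
  · rintro ⟨s, hs, ⟨n, hn⟩, rfl⟩
    obtain ⟨t, h1, h2, h3⟩ := mem_flat.mp hs
    -- `z = t⁻¹ * s` is in the kernel of `ρ`
    have hz : ρ (t⁻¹ * s) = 1 := by
      rw [map_mul, map_inv, h3, inv_mul_cancel]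
    obtain ⟨a, b, hab, hna, m, hm, hbm⟩ := split ℓ (t⁻¹ * s)
    have h4 : κ ((t⁻¹ * s) ^ a) = 1 := by
      apply hb _ _ hna
      rw [map_zpow, hz, one_zpow]
    have h5 : κ (t⁻¹ * s) = κ ((t⁻¹ * s) ^ b) := by
      conv_lhs => rw [hab, map_mul, h4, one_mul]
    have hzc : t⁻¹ * s ∈ Subgroup.center T := hker hz
    have hcomm : κ t * κ (t⁻¹ * s) = κ (t⁻¹ * s) * κ t := by
      rw [← map_mul, ← map_mul, Subgroup.mem_center_iff.mp hzc t]
    have hs1 : κ s = κ t * κ (t⁻¹ * s) := by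
      rw [← map_mul, mul_inv_cancel_left]
    obtain ⟨k, hk⟩ := hE ⟨κ t, h2⟩
    have hk' : κ t ^ ℓ ^ k = 1 := congrArg Subtype.val hk
    have h6 : κ (t⁻¹ * s) ^ ℓ ^ (n + k) = 1 := by
      have h7 : κ s ^ ℓ ^ (n + k) = 1 := by
        rw [pow_add, pow_mul, ← map_pow, hn, map_one, one_pow]
      have h8 : κ t ^ ℓ ^ (n + k) = 1 := by
        rw [pow_add, mul_comm, pow_mul, hk', one_pow]
      have hc : Commute (κ t) (κ (t⁻¹ * s)) := hcomm
      rw [hs1, hc.mul_pow, h8, one_mul] at h7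
      exact h7
    have h7 : κ (t⁻¹ * s) = 1 := by
      apply eq_one_of_pow ℓ _ (n + k) m hm h6
      rw [h5, ← map_pow, hbm, map_one]
    rw [hs1, h7, mul_one]
    exact h2
  · intro hy
    obtain ⟨t, ht, rfl⟩ := hEM hy
    obtain ⟨a, b, hab, hna, m, hm, hbm⟩ := split ℓ t
    have h1 : κ (t ^ b) = 1 := by
      have h2 : κ (t ^ b) ∈ E := by
        rw [map_zpow]
        exact E.zpow_mem hy b
      obtain ⟨k, hk⟩ := hE ⟨κ (t ^ b), h2⟩
      apply eq_one_of_pow ℓ _ k m hm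
      · exact congrArg Subtype.val hk
      · rw [← map_pow, hbm, map_one]
    have h2 : κ t = κ (t ^ a) := by
      conv_lhs => rw [hab, map_mul, h1, mul_one]
    refine ⟨t ^ a, mem_flat.mpr ⟨t ^ a, ?_, ?_, rfl⟩, hna, h2.symm⟩
    · rw [map_zpow]
      exact M.zpow_mem ht a
    · rw [← h2]
      exact hy

/-- The normalizers. -/
theorem normalizer_iff [Finite T] [hl : Fact ℓ.Prime] (hker : ρ.ker ≤ Subgroup.center T)
    (hM : M ≤ ρ.range) (hMn : ∀ t, ∀ y ∈ M, ρ t * y * (ρ t)⁻¹ ∈ M)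
    (ha : ∀ t, ρ t ∈ M → κ t = 1 → ρ t = 1) {D : Subgroup K} (hD : IsPGroup ℓ D) (hDM : D ≤ M)
    (t : T) : (∀ x, x ∈ D ↔ ρ t * x * (ρ t)⁻¹ ∈ D) ↔
      ∀ y, y ∈ sharp ℓ ρ κ D ↔ κ t * y * (κ t)⁻¹ ∈ sharp ℓ ρ κ D := by
  constructor
  · intro h y
    rw [mem_sharp hker hD, mem_sharp hker hD]
    constructor
    · rintro ⟨s, h1, ⟨n, hn⟩, rfl⟩
      refine ⟨t * s * t⁻¹, ?_, ⟨n, ?_⟩, ?_⟩
      · rw [map_mul, map_mul, map_inv]
        exact (h _).mp h1
      · rw [conj_pow, hn, mul_one, mul_inv_cancel]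
      · rw [map_mul, map_mul, map_inv]
    · rintro ⟨s, h1, ⟨n, hn⟩, h2⟩
      refine ⟨t⁻¹ * s * t⁻¹⁻¹, ?_, ⟨n, ?_⟩, ?_⟩
      · rw [h]
        have h3 : ρ t * ρ (t⁻¹ * s * t⁻¹⁻¹) * (ρ t)⁻¹ = ρ s := by
          rw [← map_mul, ← map_inv, ← map_mul]
          congr 1
          group
        rw [h3]
        exact h1
      · rw [conj_pow, hn, mul_one, mul_inv_cancel]
      · simp only [map_mul, map_inv, h2]
        group
  · intro h
    -- one direction for all elements whose image normalizes `sharp D`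
    have key : ∀ s : T, (∀ y, y ∈ sharp ℓ ρ κ D → κ s * y * (κ s)⁻¹ ∈ sharp ℓ ρ κ D) →
        ∀ x ∈ D, ρ s * x * (ρ s)⁻¹ ∈ D := by
      intro s hs x hx
      rw [← flat_sharp hker hM ha hD hDM] at hx ⊢
      obtain ⟨r, h1, h2, rfl⟩ := mem_flat.mp hx
      refine mem_flat.mpr ⟨s * r * s⁻¹, ?_, ?_, ?_⟩
      · rw [map_mul, map_mul, map_inv]
        exact hMn s _ h1
      · rw [map_mul, map_mul, map_inv]
        exact hs _ h2
      · rw [map_mul, map_mul, map_inv]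
    intro x
    constructor
    · intro hx
      exact key t (fun y hy => (h y).mp hy) x hx
    · intro hx
      have h1 := key t⁻¹ (fun y hy => by
        rw [h, map_inv]
        have : κ t * ((κ t)⁻¹ * y * (κ t)⁻¹⁻¹) * (κ t)⁻¹ = y := by group
        rw [this]
        exact hy) _ hx
      rw [map_inv] at h1
      have h2 : (ρ t)⁻¹ * (ρ t * x * (ρ t)⁻¹) * (ρ t)⁻¹⁻¹ = x := by group
      rw [h2] at h1
      exact h1

end

end CHG

open _root_.Pool.Agent.DPT.CHG in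
theorem CHG_thm : Stmt_CHG := by
  classical
  intro T K G _ _ _ _ _ _ ℓ hl ρ hker M hM hMn κ hκ ha hb W
  unfold CS
  have hbotE : ∀ D : Subgroup K, IsPGroup ℓ D → D ≤ M → ⊥ < D → ⊥ < sharp ℓ ρ κ D := by
    intro D hD hDM h
    rw [bot_lt_iff_ne_bot] at h ⊢
    intro h1
    apply h
    rw [← flat_sharp hker hM ha hD hDM, h1, eq_bot_iff]
    intro y hy
    obtain ⟨t, h2, h3, rfl⟩ := mem_flat.mp hy
    exact Subgroup.mem_bot.mpr (ha t h2 (Subgroup.mem_bot.mp h3))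
  have hbotD : ∀ E : Subgroup G, IsPGroup ℓ E → E ≤ (M.comap ρ).map κ → ⊥ < E →
      ⊥ < flat ρ κ M E := by
    intro E hE hEM h
    rw [bot_lt_iff_ne_bot] at h ⊢
    intro h1
    apply h
    rw [← sharp_flat hker hκ ha hb hE hEM, h1, eq_bot_iff]
    intro y hy
    obtain ⟨t, h2, h3, rfl⟩ := (mem_sharp hker IsPGroup.of_bot).mp hy
    exact Subgroup.mem_bot.mpr (hb t (Subgroup.mem_bot.mp h2) h3)
  refine Finset.sum_nbij' (fun σ => σ.image (sharp ℓ ρ κ)) (fun τ => τ.image (flat ρ κ M))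
    ?_ ?_ ?_ ?_ ?_
  · intro σ hσ
    rw [Finset.mem_filter, mem_Ch] at hσ ⊢
    obtain ⟨hσ, hσM⟩ := hσ
    refine ⟨⟨?_, ?_⟩, ?_⟩
    · intro E hE
      obtain ⟨D, hD, rfl⟩ := Finset.mem_image.mp hE
      exact ⟨isPGroup_sharp hker (hσ.1 D hD).1,
        hbotE D (hσ.1 D hD).1 (hσM D hD) (hσ.1 D hD).2⟩
    · intro E hE E' hE' _
      obtain ⟨D, hD, rfl⟩ := Finset.mem_image.mp (Finset.mem_coe.mp hE)
      obtain ⟨D', hD', rfl⟩ := Finset.mem_image.mp (Finset.mem_coe.mp hE')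
      exact (hσ.total hD hD').imp sharp_mono sharp_mono
    · intro E hE
      obtain ⟨D, hD, rfl⟩ := Finset.mem_image.mp hE
      exact sharp_le hker (hσ.1 D hD).1 (hσM D hD)
  · intro τ hτ
    rw [Finset.mem_filter, mem_Ch] at hτ ⊢
    obtain ⟨hτ, hτM⟩ := hτ
    refine ⟨⟨?_, ?_⟩, ?_⟩
    · intro D hD
      obtain ⟨E, hE, rfl⟩ := Finset.mem_image.mp hD
      exact ⟨isPGroup_flat ha (hτ.1 E hE).1,
        hbotD E (hτ.1 E hE).1 (hτM E hE) (hτ.1 E hE).2⟩
    · intro D hD D' hD' _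
      obtain ⟨E, hE, rfl⟩ := Finset.mem_image.mp (Finset.mem_coe.mp hD)
      obtain ⟨E', hE', rfl⟩ := Finset.mem_image.mp (Finset.mem_coe.mp hD')
      exact (hτ.total hE hE').imp flat_mono flat_mono
    · intro D hD
      obtain ⟨E, hE, rfl⟩ := Finset.mem_image.mp hD
      exact flat_le
  · intro σ hσ
    rw [Finset.mem_filter, mem_Ch] at hσ
    obtain ⟨hσ, hσM⟩ := hσ
    change (σ.image (sharp ℓ ρ κ)).image (flat ρ κ M) = σ
    rw [Finset.image_image]
    have h1 : σ.image (flat ρ κ M ∘ sharp ℓ ρ κ) = σ.image id := by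
      apply Finset.image_congr
      intro D hD
      exact flat_sharp hker hM ha (hσ.1 D (Finset.mem_coe.mp hD)).1 (hσM D (Finset.mem_coe.mp hD))
    rw [h1, Finset.image_id]
  · intro τ hτ
    rw [Finset.mem_filter, mem_Ch] at hτ
    obtain ⟨hτ, hτM⟩ := hτ
    change (τ.image (flat ρ κ M)).image (sharp ℓ ρ κ) = τ
    rw [Finset.image_image]
    have h1 : τ.image (sharp ℓ ρ κ ∘ flat ρ κ M) = τ.image id := by
      apply Finset.image_congr
      intro E hE
      exact sharp_flat hker hκ ha hb (hτ.1 E (Finset.mem_coe.mp hE)).1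
        (hτM E (Finset.mem_coe.mp hE))
    rw [h1, Finset.image_id]
  · intro σ hσ
    rw [Finset.mem_filter, mem_Ch] at hσ
    obtain ⟨hσ, hσM⟩ := hσ
    have hcard : (σ.image (sharp ℓ ρ κ)).card = σ.card := by
      apply Finset.card_image_of_injOn
      intro D hD D' hD' h
      have h1 := congrArg (flat ρ κ M) h
      rw [flat_sharp hker hM ha (hσ.1 D (Finset.mem_coe.mp hD)).1 (hσM D (Finset.mem_coe.mp hD)),
        flat_sharp hker hM ha (hσ.1 D' (Finset.mem_coe.mp hD')).1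
          (hσM D' (Finset.mem_coe.mp hD'))] at h1
      exact h1
    have hstb : (stb σ).comap ρ = (stb (σ.image (sharp ℓ ρ κ))).comap κ := by
      ext t
      rw [Subgroup.mem_comap, Subgroup.mem_comap, mem_stb', mem_stb']
      constructor
      · intro h E hE
        obtain ⟨D, hD, rfl⟩ := Finset.mem_image.mp hE
        exact (normalizer_iff hker hM hMn ha (hσ.1 D hD).1 (hσM D hD) t).mp (h D hD)
      · intro h D hD
        exact (normalizer_iff hker hM hMn ha (hσ.1 D hD).1 (hσM D hD) t).mpr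
          (h _ (Finset.mem_image_of_mem _ hD))
    change (-1 : ℚ) ^ σ.card * W ((stb σ).comap ρ) =
      (-1 : ℚ) ^ (σ.image (sharp ℓ ρ κ)).card * W ((stb (σ.image (sharp ℓ ρ κ))).comap κ)
    rw [hcard, hstb]

end Pool.Agent.DPT


end

section

/-!
# CAE: the condition on the central function is a condition on the type
-/

set_option linter.unusedSectionVars false

namespace Pool.Agent.DPT

open Pool.Agent.DP Pool.Agent.DPC Pool.Agent.DPM Pool.Agent.DPN Pool.Agent.Lib_helper13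
open Representation
open Pool.Agent.Lib_helper13.Dade (pCore DadeHolds dadeSum)

namespace CAE

/-! ### Elements of order prime to `ℓ` -/

section Ord

variable {L : Type} [Group L] [Finite L] {ℓ : ℕ} [hℓ : Fact ℓ.Prime]

theorem coprime_pow {n : ℕ} (h : ¬ ℓ ∣ n) (m : ℕ) : n.Coprime (ℓ ^ m) :=
  Nat.Coprime.pow_right m ((hℓ.out.coprime_iff_not_dvd.mpr h).symm)

/-- An element of order prime to `ℓ` is a power of each of its `ℓ`-power powers. -/
theorem mem_of_pow {H : Subgroup L} {y : L} (ho : ¬ ℓ ∣ orderOf y) {m : ℕ}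
    (h : y ^ ℓ ^ m ∈ H) : y ∈ H := by
  obtain ⟨u, hu1, hu2⟩ := Nat.chineseRemainder (coprime_pow ho m) 1 0
  obtain ⟨c, hc⟩ := Nat.modEq_zero_iff_dvd.mp hu2
  have h1 : y ^ u = y := by
    have h2 : y ^ u = y ^ 1 := pow_eq_pow_iff_modEq.mpr hu1
    rw [h2, pow_one]
  rw [← h1, hc, pow_mul]
  exact H.pow_mem h c

/-- Commuting elements of order prime to `ℓ` which differ by an element of `ℓ`-power order. -/
theorem eq_of_mul {a b z : L} (hz : b = a * z) (hc : a * z = z * a) (ha : ¬ ℓ ∣ orderOf a)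
    (hb : ¬ ℓ ∣ orderOf b) {n : ℕ} (hn : z ^ ℓ ^ n = 1) : a = b := by
  have hcz : Commute a z := hc
  have h1 : z ^ (orderOf a * orderOf b) = 1 := by
    have h2 := hcz.mul_pow (orderOf a * orderOf b)
    rw [← hz] at h2
    have h3 : b ^ (orderOf a * orderOf b) = 1 := by
      rw [mul_comm, pow_mul, pow_orderOf_eq_one, one_pow]
    have h4 : a ^ (orderOf a * orderOf b) = 1 := by
      rw [pow_mul, pow_orderOf_eq_one, one_pow]
    rw [h3, h4, one_mul] at h2
    exact h2.symm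
  have hnd : ¬ ℓ ∣ orderOf a * orderOf b := by
    intro hd
    rcases (hℓ.out.dvd_mul).mp hd with h5 | h5
    · exact ha h5
    · exact hb h5
  have h6 : orderOf z = 1 := by
    apply Nat.eq_one_of_dvd_coprimes (coprime_pow hnd n)
    · exact orderOf_dvd_of_pow_eq_one h1
    · exact orderOf_dvd_of_pow_eq_one hn
  rw [hz, orderOf_eq_one_iff.mp h6, mul_one]

/-- A preimage of order prime to `ℓ`. -/
theorem exists_lift {Y : Type} [Group Y] (q : L →* Y) (t : L) (ho : ¬ ℓ ∣ orderOf (q t)) :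
    ∃ a : L, q a = q t ∧ ¬ ℓ ∣ orderOf a := by
  have hpos : orderOf t ≠ 0 := (orderOf_pos t).ne'
  obtain ⟨m, N, hN, hmN⟩ := Nat.exists_eq_pow_mul_and_not_dvd hpos ℓ hℓ.out.ne_one
  obtain ⟨u, hu1, hu2⟩ := Nat.chineseRemainder (coprime_pow hN m) 1 0
  obtain ⟨c, hc⟩ := Nat.modEq_zero_iff_dvd.mp hu2
  refine ⟨t ^ u, ?_, ?_⟩
  · rw [map_pow]
    have h1 : orderOf (q t) ∣ N := by
      have h2 : orderOf (q t) ∣ ℓ ^ m * N := by
        rw [← hmN]
        exact orderOf_map_dvd q t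
      exact (coprime_pow ho m).dvd_of_dvd_mul_left h2
    have h3 : q t ^ u = q t ^ 1 := pow_eq_pow_iff_modEq.mpr (hu1.of_dvd h1)
    rw [h3, pow_one]
  · intro hd
    apply hN
    refine hd.trans (orderOf_dvd_of_pow_eq_one ?_)
    rw [← pow_mul, hc]
    have h2 : ℓ ^ m * c * N = orderOf t * c := by
      rw [hmN]
      ring
    rw [h2, pow_mul, pow_orderOf_eq_one, one_pow]

end Ord

/-! ### Class functions and their weights -/

section Fun

variable {Y G : Type} [Group Y] [Fintype Y] [Group G] (ℓ : ℕ) (k : Y →* G)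

theorem rg_class {F : G → ℂ} (hF : ∀ g x, F (g * x * g⁻¹) = F x) (n x : Y) :
    rg ℓ k F (n * x * n⁻¹) = rg ℓ k F x := by
  unfold rg
  have h4 : orderOf (n * x * n⁻¹) = orderOf x := by
    have h5 := (MulAut.conj n).orderOf_eq x
    rw [MulAut.conj_apply] at h5
    exact h5
  rw [h4]
  by_cases h5 : ℓ ∣ orderOf x
  · rw [if_pos h5, if_pos h5]
  · rw [if_neg h5, if_neg h5, map_mul, map_mul, map_inv]
    exact hF (k n) (k x)

theorem rg_int {F : G → ℂ} (hi : ∀ x, IsIntegral ℤ (F x)) (x : Y) :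
    IsIntegral ℤ (rg ℓ k F x) := by
  unfold rg
  by_cases h5 : ℓ ∣ orderOf x
  · rw [if_pos h5]
    exact isIntegral_zero
  · rw [if_neg h5]
    exact hi _

theorem rg_ne {F : G → ℂ} {x : Y} (h : rg ℓ k F x ≠ 0) : ¬ ℓ ∣ orderOf x ∧ F (k x) ≠ 0 := by
  unfold rg at h
  by_cases h5 : ℓ ∣ orderOf x
  · rw [if_pos h5] at h
    exact absurd rfl h
  · rw [if_neg h5] at h
    exact ⟨h5, h⟩

theorem rg_eq {F : G → ℂ} {x : Y} (h : ¬ ℓ ∣ orderOf x) : rg ℓ k F x = F (k x) := by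
  unfold rg
  rw [if_neg h]

theorem pu_class (hk : Function.Surjective k) {F : Y → ℂ}
    (hF : ∀ g x, F (g * x * g⁻¹) = F x) (n x : G) :
    pu k F (n * x * n⁻¹) = pu k F x := by
  classical
  obtain ⟨m, rfl⟩ := hk n
  unfold pu
  symm
  refine Fintype.sum_equiv (MulAut.conj m).toEquiv _ _ fun y => ?_
  change (if k y = x then F y else 0) =
    if k (m * y * m⁻¹) = k m * x * (k m)⁻¹ then F (m * y * m⁻¹) else 0
  rw [hF, map_mul, map_mul, map_inv]
  by_cases h : k y = x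
  · rw [if_pos h, if_pos (by rw [h])]
  · rw [if_neg h, if_neg]
    intro h'
    exact h (mul_left_cancel (mul_right_cancel h'))

theorem pu_int {F : Y → ℂ} (hi : ∀ x, IsIntegral ℤ (F x)) (x : G) :
    IsIntegral ℤ (pu k F x) := by
  classical
  unfold pu
  refine IsIntegral.sum _ fun y _ => ?_
  by_cases h : k y = x
  · rw [if_pos h]
    exact hi y
  · rw [if_neg h]
    exact isIntegral_zero

theorem pu_supp {F : Y → ℂ} {x : G} (h : ∀ y, k y = x → F y = 0) : pu k F x = 0 := by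
  classical
  unfold pu
  refine Finset.sum_eq_zero fun y _ => ?_
  by_cases h1 : k y = x
  · rw [if_pos h1]
    exact h y h1
  · rw [if_neg h1]

end Fun

section Wt

variable {L : Type} [Group L] [Fintype L] (𝔐 : Ideal (integralClosure ℤ ℂ))

theorem pair_congr {F : L → ℂ} {c c' : L → (integralClosure ℤ ℂ) ⧸ 𝔐}
    (h : ∀ x, F x ≠ 0 → c x = c' x) : pair 𝔐 F c = pair 𝔐 F c' := by
  unfold pair
  refine finsum_congr fun C => ?_
  by_cases hC : F C.out = 0
  · rw [hC, red_zero, zero_mul, zero_mul]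
  · rw [h _ hC]

theorem wS_pair {S : Subgroup L} {ψ F : L → ℂ} (hψ : IrrOn S ψ)
    (hF : ∀ g x, F (g * x * g⁻¹) = F x) (hi : ∀ x, IsIntegral ℤ (F x)) :
    red 𝔐 (wS S ψ F) = pair 𝔐 F (cen 𝔐 S.subtype (fun s => ψ s)) :=
  red_wt_eq_pair 𝔐 S.subtype hψ.1 F hF hi

theorem cgT_top {S : Subgroup L} {ψ : L → ℂ} (h : ∀ x, x ∉ S → ψ x = 0) (g : L) :
    cgT 𝔐 ⊤ ψ g = red 𝔐 (wS S ψ (fun y => conjInd y g)) := by
  rw [STB.cgT_eq 𝔐 ⊤ S h g]
  unfold wS
  congr 2
  funext s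
  rw [STB.cjT_top]

theorem cen_top {S : Subgroup L} {ψ : L → ℂ} (h : ∀ x, x ∉ S → ψ x = 0) (g : L) :
    cen 𝔐 S.subtype (fun s => ψ s) g = cgT 𝔐 ⊤ ψ g := by
  rw [cgT_top 𝔐 h g]
  rfl

/-- The weights of a class function depend only on the central function on the support. -/
theorem wS_congr {S T : Subgroup L} {ψ θ F : L → ℂ} (hψ : IrrOn S ψ) (hθ : IrrOn T θ)
    (hF : ∀ g x, F (g * x * g⁻¹) = F x) (hi : ∀ x, IsIntegral ℤ (F x))
    (h : ∀ x, F x ≠ 0 → cgT 𝔐 ⊤ ψ x = cgT 𝔐 ⊤ θ x) :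
    red 𝔐 (wS S ψ F) = red 𝔐 (wS T θ F) := by
  rw [wS_pair 𝔐 hψ hF hi, wS_pair 𝔐 hθ hF hi]
  apply pair_congr
  intro x hx
  rw [cen_top 𝔐 hψ.2, cen_top 𝔐 hθ.2]
  exact h x hx

theorem conjInd_ne {g y : L} (h : conjInd y g ≠ 0) : ∃ c, y = c * g * c⁻¹ := by
  classical
  unfold conjInd at h
  have h1 : IsConj y g := by
    by_contra h2
    exact h (if_neg h2)
  obtain ⟨c, hc⟩ := isConj_iff.mp h1.symm
  exact ⟨c, hc.symm⟩

end Wt

/-! ### The quotients -/

section Quot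

variable {L K Y G : Type} [Group L] [Fintype L] [Group K] [Fintype K] [Group Y] [Fintype Y]
  [Group G] [Fintype G] {ℓ : ℕ} [hℓp : Fact ℓ.Prime] {π : L →* K} {μ : π.ker →* ℂˣ}
  {Q M M₀ : Subgroup K} {ν : L → ℂ} {k' : L →* G} {q : ↥(sx ν) →* Y} {k : Y →* G}
  {lam : k.ker →* ℂˣ}

theorem le_sx (hLN : LN ℓ π μ Q M M₀ ν) {m : L} (h : π m ∈ M₀) : m ∈ sx ν :=
  (hLN.st m (hLN.le h)).mp h

theorem C_le (hLN : LN ℓ π μ Q M M₀ ν) (hX : XD ℓ π Q ν k' q k lam) :
    (M₀.comap π).map k' ≤ k.range := by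
  rintro c ⟨m, hm, rfl⟩
  exact ⟨q ⟨m, le_sx hLN hm⟩, hX.kq _⟩

theorem C_normal (hLN : LN ℓ π μ Q M M₀ ν) (hX : XD ℓ π Q ν k' q k lam) :
    ((M₀.comap π).map k').Normal := by
  have h1 : (M₀.comap π).Normal := hLN.M0n.comap π
  exact h1.map k' hX.ks

/-- Elements of order prime to `ℓ` of the inverse image of the image of the inverse image of
`M₀`. -/
theorem mem_of_order (hLN : LN ℓ π μ Q M M₀ ν) (hX : XD ℓ π Q ν k' q k lam) {y : L}
    (ho : ¬ ℓ ∣ orderOf y) (hy : k' y ∈ (M₀.comap π).map k') : π y ∈ M₀ := by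
  obtain ⟨m, hm, hmy⟩ := hy
  have hk1 : k' (m⁻¹ * y) = 1 := by
    rw [map_mul, map_inv, hmy, inv_mul_cancel]
  obtain ⟨hQ, n, hn⟩ := (hX.kk _).mp hk1
  have hc : Commute m (m⁻¹ * y) := hLN.cm m (m⁻¹ * y) hm hQ
  have h1 : y = m * (m⁻¹ * y) := by group
  have h2 : y ^ ℓ ^ n ∈ M₀.comap π := by
    have h3 := hc.mul_pow (ℓ ^ n)
    rw [← h1, hn, mul_one] at h3
    rw [h3]
    exact (M₀.comap π).pow_mem hm _
  exact mem_of_pow (H := M₀.comap π) ho h2

/-- The weights of the functions `rg`. -/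
theorem wS_rg (hLN : LN ℓ π μ Q M M₀ ν) (hX : XD ℓ π Q ν k' q k lam) {S : Subgroup G}
    {ψ : L → ℂ} {ψY : Y → ℂ} (hq : ∀ t : sx ν, ψ t = ψY (q t)) {F : G → ℂ}
    (h0 : ∀ x, x ∉ (M₀.comap π).map k' → F x = 0) :
    wS (S.comap k' ⊓ sx ν) ψ (rg ℓ k' F) = wS (S.comap k) ψY (rg ℓ k F) := by
  classical
  have hsupp : ∀ x : L, rg ℓ k' F x ≠ 0 → ¬ ℓ ∣ orderOf x ∧ π x ∈ M₀ ∧ F (k' x) ≠ 0 := by
    intro x hx
    obtain ⟨h1, h2⟩ := rg_ne ℓ k' hx
    refine ⟨h1, mem_of_order hLN hX h1 ?_, h2⟩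
    by_contra h3
    exact h2 (h0 _ h3)
  have hone : ψ ((1 : ↥(S.comap k' ⊓ sx ν)) : L) = ψY ((1 : ↥(S.comap k)) : Y) := by
    have h := hq 1
    rw [map_one] at h
    exact h
  unfold wS wt
  change (∑ y : ↥(S.comap k' ⊓ sx ν), rg ℓ k' F y * ψ y) /
      ψ ((1 : ↥(S.comap k' ⊓ sx ν)) : L) =
    (∑ y : ↥(S.comap k), rg ℓ k F y * ψY y) / ψY ((1 : ↥(S.comap k)) : Y)
  rw [hone]
  congr 1
  refine Finset.sum_bij_ne_zero
    (fun a _ _ => (⟨q ⟨a, a.2.2⟩, by
      rw [Subgroup.mem_comap, hX.kq]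
      exact a.2.1⟩ : ↥(S.comap k))) (fun _ _ _ => Finset.mem_univ _) ?_ ?_ ?_
  · intro a _ ha b _ hb hab
    have hab' : q ⟨a, a.2.2⟩ = q ⟨b, b.2.2⟩ := congrArg Subtype.val hab
    obtain ⟨ha1, ha2, -⟩ := hsupp a (left_ne_zero_of_mul ha)
    obtain ⟨hb1, hb2, -⟩ := hsupp b (left_ne_zero_of_mul hb)
    have h1 : q (⟨a, a.2.2⟩⁻¹ * ⟨b, b.2.2⟩) = 1 := by
      rw [map_mul, map_inv, hab', inv_mul_cancel]
    have h2 := ((hX.qk _).mp h1).1
    obtain ⟨hQ, n, hn⟩ := (hX.kk _).mp h2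
    apply Subtype.ext
    have h3 : ((⟨a, a.2.2⟩⁻¹ * ⟨b, b.2.2⟩ : ↥(sx ν)) : L) = (a : L)⁻¹ * b := rfl
    rw [h3] at hQ hn
    exact eq_of_mul (z := (a : L)⁻¹ * b) (by group) (hLN.cm a _ ha2 hQ) ha1 hb1 hn
  · intro y _ hy
    obtain ⟨hy1, hy2⟩ := rg_ne ℓ k (left_ne_zero_of_mul hy)
    obtain ⟨t, ht⟩ := hX.qs y
    obtain ⟨a, ha, hao⟩ := exists_lift (ℓ := ℓ) q t (by rw [ht]; exact hy1)
    have hao' : ¬ ℓ ∣ orderOf (a : L) := by
      have h1 := orderOf_injective (sx ν).subtype (sx ν).subtype_injective a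
      rw [← h1] at hao
      exact hao
    have hka : k' (a : L) = k y := by
      rw [← hX.kq, ha, ht]
    have haS : (a : L) ∈ S.comap k' ⊓ sx ν := by
      refine ⟨?_, a.2⟩
      change k' (a : L) ∈ S
      rw [hka]
      exact y.2
    refine ⟨⟨a, haS⟩, Finset.mem_univ _, ?_, ?_⟩
    · have h1 : rg ℓ k' F (a : L) = rg ℓ k F y := by
        rw [rg_eq ℓ k' hao', rg_eq ℓ k hy1, hka]
      have h2 : ψ (a : L) = ψY y := by
        rw [hq, ha, ht]
      change rg ℓ k' F (a : L) * ψ (a : L) ≠ 0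
      rw [h1, h2]
      exact hy
    · apply Subtype.ext
      change q ⟨a, _⟩ = y
      rw [← ht, ← ha]
  · intro a _ ha
    obtain ⟨ha1, -, -⟩ := hsupp a (left_ne_zero_of_mul ha)
    have h1 : ¬ ℓ ∣ orderOf (q ⟨a, a.2.2⟩) := by
      intro h2
      apply ha1
      have h3 := orderOf_injective (sx ν).subtype (sx ν).subtype_injective ⟨a, a.2.2⟩
      have h4 : (sx ν).subtype ⟨a, a.2.2⟩ = (a : L) := rfl
      rw [← h4, h3]
      exact h2.trans (orderOf_map_dvd q _)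
    change rg ℓ k' F (a : L) * ψ (a : L) =
      rg ℓ k F (q ⟨a, a.2.2⟩) * ψY (q ⟨a, a.2.2⟩)
    rw [rg_eq ℓ k' ha1, rg_eq ℓ k h1, hX.kq, ← hq]

/-- The weights of functions which are summed over the fibres of `q`. -/
theorem wS_q (hX : XD ℓ π Q ν k' q k lam) {S : Subgroup G} {ψ : L → ℂ} {ψY : Y → ℂ}
    (hq : ∀ t : sx ν, ψ t = ψY (q t)) (F : L → ℂ) :
    wS (S.comap k' ⊓ sx ν) ψ F = wS (S.comap k) ψY (pu q (fun t : sx ν => F t)) := by
  classical
  rw [← MLV.wS_pu q (S.comap k) ψY (fun t : sx ν => F t)]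
  have hone : ψ ((1 : ↥(S.comap k' ⊓ sx ν)) : L) =
      ψY (q ((1 : ↥((S.comap k).comap q)) : ↥(sx ν))) := by
    have h := hq 1
    exact h
  unfold wS wt
  change (∑ y : ↥(S.comap k' ⊓ sx ν), F y * ψ y) / ψ ((1 : ↥(S.comap k' ⊓ sx ν)) : L) =
    (∑ y : ↥((S.comap k).comap q), F ((y : ↥(sx ν)) : L) * ψY (q y)) /
      ψY (q ((1 : ↥((S.comap k).comap q)) : ↥(sx ν)))
  rw [hone]
  congr 1
  refine Finset.sum_bij' (fun a _ => (⟨⟨a, a.2.2⟩, by
      rw [Subgroup.mem_comap, Subgroup.mem_comap, hX.kq]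
      exact a.2.1⟩ : ↥((S.comap k).comap q)))
    (fun b _ => (⟨((b : ↥(sx ν)) : L), by
      refine ⟨?_, (b : ↥(sx ν)).2⟩
      change k' ((b : ↥(sx ν)) : L) ∈ S
      rw [← hX.kq]
      exact b.2⟩ : ↥(S.comap k' ⊓ sx ν)))
    (fun _ _ => Finset.mem_univ _) (fun _ _ => Finset.mem_univ _)
    (fun _ _ => rfl) (fun _ _ => rfl) ?_
  intro a _
  change F (a : L) * ψ (a : L) = F (a : L) * ψY (q ⟨a, a.2.2⟩)
  rw [← hq]

/-- The sums over the fibres of `k'`. -/
theorem pu_pu (hX : XD ℓ π Q ν k' q k lam) {F : L → ℂ} (h0 : ∀ x, x ∉ sx ν → F x = 0) :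
    pu k (pu q (fun t : sx ν => F t)) = pu k' F := by
  classical
  funext x
  unfold pu
  have h1 : ∀ y : Y, (if k y = x then ∑ t : sx ν, if q t = y then F t else 0 else 0) =
      ∑ t : sx ν, if q t = y then (if k y = x then F t else 0) else 0 := by
    intro y
    by_cases h : k y = x
    · rw [if_pos h]
      refine Finset.sum_congr rfl fun t _ => ?_
      rw [if_pos h]
    · rw [if_neg h]
      symm
      refine Finset.sum_eq_zero fun t _ => ?_
      rw [if_neg h, ite_self]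
  rw [Finset.sum_congr rfl fun y _ => h1 y, Finset.sum_comm]
  have h2 : ∀ t : sx ν, (∑ y : Y, if q t = y then (if k y = x then F t else 0) else 0) =
      if k' (t : L) = x then F t else 0 := by
    intro t
    rw [Finset.sum_ite_eq, if_pos (Finset.mem_univ _), hX.kq]
  rw [Finset.sum_congr rfl fun t _ => h2 t]
  refine Fintype.sum_of_injective (fun t : sx ν => (t : L)) Subtype.val_injective _ _ ?_
    (fun s => rfl)
  intro y hy
  rw [h0 y (fun h3 => hy ⟨⟨y, h3⟩, rfl⟩), ite_self]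

end Quot

end CAE

open _root_.Pool.Agent.DPT.CAE in
/-- CAE: the condition on the central function is a condition on the type. -/
theorem CAE_thm (h1 : Stmt_TY0) (h2 : Stmt_MLV) (h3 : Stmt_SUMM) : Stmt_CAE := by
  intro L K Y G _ _ _ _ _ _ _ _ 𝔐 ℓ _ hmax hℓ π hπ hcen μ Q M M₀ ν hLN k' q k lam hX ω θ₀ θb
    hθ₀ hov₀ hω hTB S hS ψ ψY hψ hψY hq hov
  have hCn := C_normal hLN hX
  have hCk := C_le hLN hX
  constructor
  · intro hcg F hF hi h0
    have hF' := rg_class ℓ k' hF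
    have hi' := rg_int ℓ k' hi
    rw [← wS_rg hLN hX hq h0, ← hTB.rg F hF hi h0]
    refine wS_congr 𝔐 hψ hθ₀.1 hF' hi' ?_
    intro x hx
    obtain ⟨hx1, hx2⟩ := rg_ne ℓ k' hx
    have hx3 : π x ∈ M₀ := by
      refine mem_of_order hLN hX hx1 ?_
      by_contra hx4
      exact hx2 (h0 _ hx4)
    rw [hcg x hx3, hω x hx3]
  · intro hty g hg
    have hF : ∀ a x : L, (fun y => conjInd y g) (a * x * a⁻¹) = (fun y => conjInd y g) x :=
      fun a x => conjInd_conj a x g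
    have hi : ∀ x : L, IsIntegral ℤ ((fun y => conjInd y g) x) := fun x =>
      isIntegral_conjInd x g
    have h0 : ∀ x : L, π x ∉ M₀ → (fun y => conjInd y g) x = 0 := by
      intro x hx
      by_contra hne
      obtain ⟨c, rfl⟩ := conjInd_ne hne
      apply hx
      rw [map_mul, map_mul, map_inv]
      exact hLN.M0n.conj_mem _ hg _
    have h0' : ∀ x : L, x ∉ sx ν → (fun y => conjInd y g) x = 0 := fun x hx =>
      h0 x fun h => hx (le_sx hLN h)
    have hle : (S ⊓ (M₀.comap π).map k').comap k ≤ S.comap k := Subgroup.comap_mono inf_le_left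
    obtain ⟨χ', hχ', hip'⟩ := BTR.exists_under hle hψY
    obtain ⟨θ', hθ', hML', hw⟩ := h1 Y G 𝔐 ℓ hmax hℓ k hX.fc lam _ hCn hCk θb hTB.dz S ψY hψY
      hov hty χ' hχ' hip'
    have hFq : ∀ a x : sx ν, (fun t : sx ν => (fun y => conjInd y g) (t : L)) (a * x * a⁻¹) =
        (fun t : sx ν => (fun y => conjInd y g) (t : L)) x := fun a x => hF a x
    have hFY := pu_class q hX.qs (F := fun t : sx ν => (fun y => conjInd y g) (t : L)) hFq
    have hiY := pu_int q (F := fun t : sx ν => (fun y => conjInd y g) (t : L)) fun t => hi t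
    have e1 := wS_q hX (S := S) hq (fun y => conjInd y g)
    have e2 : wS (S.comap k) ψY (pu q (fun t : sx ν => (fun y => conjInd y g) (t : L))) =
        wS ((S ⊓ (M₀.comap π).map k').comap k) χ'
          (pu q (fun t : sx ν => (fun y => conjInd y g) (t : L))) := by
      refine BTR.wS_under h3 hle ?_ hψY hχ' hip' (fun a _ x _ => hFY a x) ?_
      · intro s hs m hm
        rw [Subgroup.mem_comap] at hs hm ⊢
        rw [map_mul, map_mul, map_inv]
        exact ⟨S.mul_mem (S.mul_mem hs hm.1) (S.inv_mem hs), hCn.conj_mem _ hm.2 _⟩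
      · intro x hx hx'
        refine pu_supp q fun t ht => ?_
        by_contra hne
        apply hx'
        refine ⟨hx, ?_⟩
        have h5 : π (t : L) ∈ M₀ := by
          by_contra h6
          exact hne (h0 _ h6)
        rw [← ht, hX.kq]
        exact ⟨t, h5, rfl⟩
    have e3 := (h2 Y G 𝔐 ℓ hmax hℓ k hX.fc lam _ (inf_le_right.trans hCk) θ' χ' hθ' hML').1
      (pu q (fun t : sx ν => (fun y => conjInd y g) (t : L))) (fun a _ x _ => hFY a x) hiY
    have e4 := pu_pu hX h0'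
    have e5 := hw (pu k' (fun y => conjInd y g)) (pu_class k' hX.ks hF) (pu_int k' hi) (by
      intro x hx
      refine pu_supp k' fun y hy => h0 y fun h5 => hx ?_
      rw [← hy]
      exact ⟨y, h5, rfl⟩)
    have e6 := hTB.pu (fun y => conjInd y g) hF hi h0
    rw [cgT_top 𝔐 hψ.2, e1, e2, e3, e4, e5, ← e6, ← hω g hg, cgT_top 𝔐 hθ₀.1.2]

end Pool.Agent.DPT


end

section

/-!
# OUTH: a normal subgroup with quotient in the class
-/

namespace Pool.Agent.DPT

open Pool.Agent.DP Pool.Agent.DPC Pool.Agent.DPM Pool.Agent.DPN Pool.Agent.Lib_helper13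
open Representation
open Pool.Agent.Lib_helper13.Dade (pCore DadeHolds dadeSum)

theorem OUTH_thm : Stmt_OUTH := by
  classical
  intro X _ _ ℓ hl N O Q hN hO hQ hNO hOQ hpow hcomm hcop hcen
  -- the index of `O`
  have hOi : ¬ ℓ ∣ O.index := by
    intro h
    have h1 : ℓ ∣ Nat.card (X ⧸ O) := by
      rw [← Subgroup.index_eq_card]
      exact h
    obtain ⟨g, hg⟩ := exists_prime_orderOf_dvd_card' ℓ h1
    obtain ⟨x, rfl⟩ := QuotientGroup.mk'_surjective O g
    have h2 : x ^ ℓ ∈ O := by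
      rw [← QuotientGroup.ker_mk' O, MonoidHom.mem_ker, map_pow, ← hg]
      exact pow_orderOf_eq_one _
    have h3 := hcop x h2
    have h4 : QuotientGroup.mk' O x = 1 := by
      rw [← MonoidHom.mem_ker, QuotientGroup.ker_mk']
      exact h3
    rw [h4, orderOf_one] at hg
    exact hl.out.one_lt.ne hg
  -- the subgroup `C`
  let C : Subgroup X :=
    { carrier := {y | ∀ o ∈ O, y * o * y⁻¹ * o⁻¹ ∈ N}
      one_mem' := by
        intro o _
        simp [N.one_mem]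
      mul_mem' := by
        intro a b ha hb o ho
        have h1 := hb o ho
        have h2 : b * o * b⁻¹ ∈ O := hO.conj_mem o ho b
        have h3 := ha _ h2
        have h4 : a * b * o * (a * b)⁻¹ * o⁻¹ =
            (a * (b * o * b⁻¹) * a⁻¹ * (b * o * b⁻¹)⁻¹) * (b * o * b⁻¹ * o⁻¹) := by group
        change a * b * o * (a * b)⁻¹ * o⁻¹ ∈ N
        rw [h4]
        exact N.mul_mem h3 h1
      inv_mem' := by
        intro a ha o ho
        have h2 : a⁻¹ * o * a⁻¹⁻¹ ∈ O := hO.conj_mem o ho a⁻¹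
        have h3 := N.inv_mem (ha _ h2)
        have h4 : a⁻¹ * o * a⁻¹⁻¹ * o⁻¹ =
          (a * (a⁻¹ * o * a⁻¹⁻¹) * a⁻¹ * (a⁻¹ * o * a⁻¹⁻¹)⁻¹)⁻¹ := by group
        change a⁻¹ * o * a⁻¹⁻¹ * o⁻¹ ∈ N
        rw [h4]
        exact h3 }
  have hCmem : ∀ y, y ∈ C ↔ ∀ o ∈ O, y * o * y⁻¹ * o⁻¹ ∈ N := fun y => Iff.rfl
  have hCconj : ∀ y ∈ C, ∀ g : X, g * y * g⁻¹ ∈ C := by
    intro y hy g
    rw [hCmem] at hy ⊢
    intro o ho
    have h1 := hy (g⁻¹ * o * g) (by
      have := hO.conj_mem o ho g⁻¹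
      rwa [inv_inv] at this)
    have h2 := hN.conj_mem _ h1 g
    have h3 : g * y * g⁻¹ * o * (g * y * g⁻¹)⁻¹ * o⁻¹ =
        g * (y * (g⁻¹ * o * g) * y⁻¹ * (g⁻¹ * o * g)⁻¹) * g⁻¹ := by group
    rw [h3]
    exact h2
  have hNC : ∀ n ∈ N, n ∈ C := by
    intro n hn
    rw [hCmem]
    intro o ho
    have h1 := hN.conj_mem _ (N.inv_mem hn) o
    have h3 : n * o * n⁻¹ * o⁻¹ = n * (o * n⁻¹ * o⁻¹) := by group
    rw [h3]
    exact N.mul_mem hn h1
  let M : Subgroup X :=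
    { carrier := {x | x ∈ Q ∧ x ∈ C ∧ ∃ m : ℕ, ¬ ℓ ∣ m ∧ x ^ m ∈ N}
      one_mem' := ⟨Q.one_mem, C.one_mem, 1, fun h => hl.out.one_lt.ne' (Nat.dvd_one.mp h), by
        rw [one_pow]; exact N.one_mem⟩
      mul_mem' := by
        rintro a b ⟨haQ, ha, m, hm, ham⟩ ⟨hbQ, hb, m', hm', hbm⟩
        exact ⟨Q.mul_mem haQ hbQ, C.mul_mem ha hb, OUTG.mul_mem_aux ℓ N O C hNO hOi (fun y hy => hy) a b ha hb m m'
          hm hm' ham hbm⟩
      inv_mem' := by
        rintro a ⟨haQ, ha, m, hm, ham⟩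
        refine ⟨Q.inv_mem haQ, C.inv_mem ha, m, hm, ?_⟩
        rw [inv_pow]
        exact N.inv_mem ham }
  have hMmem : ∀ x, x ∈ M ↔ x ∈ Q ∧ x ∈ C ∧ ∃ m : ℕ, ¬ ℓ ∣ m ∧ x ^ m ∈ N := fun x => Iff.rfl
  have hMn : M.Normal := by
    constructor
    intro x hx g
    rw [hMmem] at hx ⊢
    obtain ⟨hxQ, hx, m, hm, hxm⟩ := hx
    refine ⟨hQ.conj_mem x hxQ g, hCconj x hx g, m, hm, ?_⟩
    rw [conj_pow]
    exact hN.conj_mem _ hxm g
  have hNM : N ≤ M := by
    intro n hn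
    rw [hMmem]
    refine ⟨hOQ (hNO hn), hNC n hn, 1, fun h => hl.out.one_lt.ne' (Nat.dvd_one.mp h), ?_⟩
    rw [pow_one]
    exact hn
  refine ⟨M, hMn, hNM, fun x hx => ((hMmem x).mp hx).1, ?_,
    fun x hx => ((hMmem x).mp hx).2.2, fun x hx => ((hMmem x).mp hx).2.1, ?_⟩
  · intro x hx hxl
    rw [hMmem] at hx
    obtain ⟨-, -, m, hm, hxm⟩ := hx
    have hco : IsCoprime (ℓ : ℤ) (m : ℤ) := by
      rw [Nat.isCoprime_iff_coprime]
      exact (Nat.Prime.coprime_iff_not_dvd hl.out).mpr hm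
    obtain ⟨a, b, hab⟩ := hco
    have h1 : x = (x ^ ℓ) ^ a * (x ^ m) ^ b := by
      rw [← zpow_natCast x ℓ, ← zpow_natCast x m, ← zpow_mul, ← zpow_mul, ← zpow_add,
        mul_comm (ℓ : ℤ) a, mul_comm (m : ℤ) b, hab, zpow_one]
    rw [h1]
    exact N.mul_mem (N.zpow_mem hxl a) (N.zpow_mem hxm b)
  · refine ⟨X ⧸ M, inferInstance, inferInstance, QuotientGroup.mk' M,
      QuotientGroup.mk'_surjective M, ?_, ?_⟩
    · intro x
      rw [← MonoidHom.mem_ker, QuotientGroup.ker_mk']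
    · refine ⟨O.map (QuotientGroup.mk' M),
        Subgroup.Normal.map hO _ (QuotientGroup.mk'_surjective M), ?_, ?_, ?_⟩
      · rintro ⟨g, o, ho, rfl⟩
        obtain ⟨n, hn⟩ := hpow o ho
        refine ⟨n, ?_⟩
        apply Subtype.ext
        change (QuotientGroup.mk' M o) ^ ℓ ^ n = 1
        rw [← map_pow, ← MonoidHom.mem_ker, QuotientGroup.ker_mk']
        exact hNM hn
      · intro h
        exact hOi (h.trans (Subgroup.index_map_dvd O (QuotientGroup.mk'_surjective M)))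
      · have hmain : ∀ z ∈ Q, QuotientGroup.mk' M z ∈ O.map (QuotientGroup.mk' M) := by
          intro z hz
          obtain ⟨y, hzy, hy⟩ := hcen z hz
          have hyQ : y ∈ Q := by
            have h0 : y = z * (z⁻¹ * y) := by group
            rw [h0]
            exact Q.mul_mem hz (hOQ hzy)
          -- a power of `y` lies in `O`
          have hyO : y ^ O.index ∈ O := by
            exact Subgroup.pow_index_mem O y
          obtain ⟨a, ha⟩ := hpow _ hyO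
          have hco : IsCoprime ((O.index : ℕ) : ℤ) ((ℓ ^ a : ℕ) : ℤ) := by
            rw [Nat.isCoprime_iff_coprime]
            exact (Nat.Coprime.pow_left a ((Nat.Prime.coprime_iff_not_dvd hl.out).mpr hOi)).symm
          obtain ⟨u, v, huv⟩ := hco
          have h1 : y = (y ^ O.index) ^ u * (y ^ (ℓ ^ a)) ^ v := by
            rw [← zpow_natCast y O.index, ← zpow_natCast y (ℓ ^ a), ← zpow_mul, ← zpow_mul,
              ← zpow_add, mul_comm ((O.index : ℕ) : ℤ) u, mul_comm ((ℓ ^ a : ℕ) : ℤ) v, huv,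
              zpow_one]
          have h2 : (y ^ (ℓ ^ a)) ^ v ∈ M := by
            apply M.zpow_mem
            rw [hMmem]
            refine ⟨Q.pow_mem hyQ _, C.pow_mem hy _, O.index, hOi, ?_⟩
            rw [← pow_mul, mul_comm, pow_mul]
            exact ha
          have h3 : QuotientGroup.mk' M y ∈ O.map (QuotientGroup.mk' M) := by
            rw [h1, map_mul]
            apply Subgroup.mul_mem
            · exact Subgroup.mem_map_of_mem _ (O.zpow_mem hyO u)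
            · have h4 : QuotientGroup.mk' M ((y ^ (ℓ ^ a)) ^ v) = 1 := by
                rw [← MonoidHom.mem_ker, QuotientGroup.ker_mk']
                exact h2
              rw [h4]
              exact Subgroup.one_mem _
          have h5 : z = y * (z⁻¹ * y)⁻¹ := by group
          rw [h5, map_mul]
          exact Subgroup.mul_mem _ h3 (Subgroup.mem_map_of_mem _ (O.inv_mem hzy))
        intro x y
        obtain ⟨x, rfl⟩ := QuotientGroup.mk'_surjective M x
        obtain ⟨y, rfl⟩ := QuotientGroup.mk'_surjective M y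
        rw [← map_inv, ← map_inv, ← map_mul, ← map_mul, ← map_mul]
        exact hmain _ (hcomm x y)

end Pool.Agent.DPT


end
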