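import Mathlib
import Pool.Agent.DAM.C01
import Pool.Agent.DAM.C15
import Pool.Agent.DAM.C24
import Pool.Agent.DAM.C27
import Pool.Agent.DAM.C29
import Pool.Agent.DAM.C38
import Pool.Agent.DAM.C50

/-! Parts: DPN.RRN, DPT.CAN -/

section

/-!
# The group of the elements on which the scalars do not vanish
-/

namespace Pool.Agent.DPN

open Pool.Agent.DP Pool.Agent.DPC Pool.Agent.DPM Pool.Agent.Lib_helper13 Representation

namespace RRN

section Basic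

variable {O X H : Type} [Group O] [Fintype O] [Group X] [Fintype X] [Group H] {j : O →* X}
  {c : X →* MulAut O} {p : X →* H}

theorem aiv_res (h : ClG j c p) (τ : Finset (Subgroup O)) {M : Type} {u : X → M}
    (hu : AIv j u) : AIv (jS h τ) (fun t : YS j τ => u t) := by
  intro a x
  exact hu (a : O) (x : X)

theorem aiv_conv {u v : X → ℤ} (hu : AIv j u) (hv : AIv j v) : AIv j (conv u v) := by
  intro a x
  rw [conv, conv]
  apply Fintype.sum_bijective (fun y : X => (j a)⁻¹ * y * j a)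
  · constructor
    · intro y z hyz
      simpa using hyz
    · intro y
      refine ⟨j a * y * (j a)⁻¹, ?_⟩
      simp [mul_assoc]
  · intro y
    have h1 : u ((j a)⁻¹ * y * j a) = u y := by
      have := hu a ((j a)⁻¹ * y * j a)
      rw [← this]
      congr 1
      group
    have h2 : v (((j a)⁻¹ * y * j a)⁻¹ * x) = v (y⁻¹ * (j a * x * (j a)⁻¹)) := by
      have := hv a (((j a)⁻¹ * y * j a)⁻¹ * x)
      rw [← this]
      congr 1
      group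
    rw [h1, h2]

theorem conv_support {u v : X → ℤ} {g g' : H} (hu : ∀ y, p y ≠ g → u y = 0)
    (hv : ∀ y, p y ≠ g' → v y = 0) (x : X) (hx : p x ≠ g * g') : conv u v x = 0 := by
  rw [conv]
  apply Finset.sum_eq_zero
  intro y _
  by_cases h1 : p y = g
  · rw [hv (y⁻¹ * x), mul_zero]
    intro h2
    apply hx
    rw [map_mul, map_inv, h1, inv_mul_eq_iff_eq_mul] at h2
    exact h2
  · rw [hu y h1, zero_mul]

open Classical in
/-- The indicator of the identity. -/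
noncomputable def dl (X : Type) [Group X] (x : X) : ℤ := if x = 1 then 1 else 0

theorem aiv_dl : AIv j (dl X) := by
  intro a x
  rw [dl, dl]
  have h1 : (j a * x * (j a)⁻¹ = 1) ↔ x = 1 := by
    constructor
    · intro h1
      have h2 : x = (j a)⁻¹ * (j a * x * (j a)⁻¹) * j a := by group
      rw [h2, h1]
      group
    · rintro rfl
      group
  by_cases hx : x = 1
  · rw [if_pos (h1.mpr hx), if_pos hx]
  · rw [if_neg (fun h2 => hx (h1.mp h2)), if_neg hx]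

theorem dl_support (x : X) (hx : p x ≠ 1) : dl X x = 0 := by
  rw [dl, if_neg]
  rintro rfl
  exact hx (map_one p)

/-- Conjugation of an invariant function. -/
theorem aiv_conj (h : ClG j c p) {u : X → ℤ} (hu : AIv j u) (t : X) :
    AIv j (fun x => u (t⁻¹ * x * t)) := by
  intro a x
  have h1 : j (c t⁻¹ a) = t⁻¹ * j a * t := by
    rw [h.act, inv_inv]
  have h2 := hu (c t⁻¹ a) (t⁻¹ * x * t)
  rw [h1] at h2
  show u (t⁻¹ * (j a * x * (j a)⁻¹) * t) = u (t⁻¹ * x * t)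
  rw [← h2]
  congr 1
  group

end Basic

section Main

variable {O X H W : Type} [Group O] [Fintype O] [Group X] [Fintype X] [Group H] [Fintype H]
  [Group W] [Fintype W] {𝔐 : Ideal (integralClosure ℤ ℂ)} {ℓ : ℕ} [Fact ℓ.Prime]
  {j : O →* X} {c : X →* MulAut O} {p : X →* H} {h : ClG j c p} {a : ℕ} {Z : Subgroup O}
  {Λ : O → (integralClosure ℤ ℂ) ⧸ 𝔐} {π : W →* H}

/-- The condition which defines the group. -/
def Q (p : X →* H) (j : O →* X) (τ : Finset (Subgroup O)) (π : W →* H)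
    (Lm : (YS j τ → ℤ) → W → (integralClosure ℤ ℂ) ⧸ 𝔐) (w : W) : Prop :=
  ∃ u : X → ℤ, AIv j u ∧ (∀ x, p x ≠ π w → u x = 0) ∧ Lm (fun t => u t) w ≠ 0

theorem Q_trans (h2 : Stmt_KEYN) (hM : 𝔐.IsMaximal) (hl : (ℓ : integralClosure ℤ ℂ) ∈ 𝔐)
    {τ τ' : Finset (Subgroup O)} {θ : stb τ → ℂ} {θ' : stb τ' → ℂ}
    (hP : Pr h 𝔐 ℓ a Z Λ τ θ) (hP' : Pr h 𝔐 ℓ a Z Λ τ' θ') {μ μ' : π.ker →* ℂˣ}
    {Lm : (YS j τ → ℤ) → W → (integralClosure ℤ ℂ) ⧸ 𝔐}
    {Lm' : (YS j τ' → ℤ) → W → (integralClosure ℤ ℂ) ⧸ 𝔐}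
    (hR : RDS 𝔐 ℓ a (jS h τ) (pS p j τ) θ π μ Lm)
    (hR' : RDS 𝔐 ℓ a (jS h τ') (pS p j τ') θ' π μ' Lm') {w : W}
    (hw : Q p j τ π Lm w) : Q p j τ' π Lm' w := by
  obtain ⟨u, hu, hs, hn⟩ := hw
  refine ⟨u, hu, hs, ?_⟩
  intro h0
  haveI := hM
  have hn0 : 0 < orderOf w := orderOf_pos w
  have hl1 : ∀ x ∈ List.replicate (orderOf w) (u, w),
      AIv j x.1 ∧ ∀ y, p y ≠ π x.2 → x.1 y = 0 := by
    intro x hx
    rw [List.eq_of_mem_replicate hx]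
    exact ⟨hu, hs⟩
  have hl2 : ((List.replicate (orderOf w) (u, w)).map Prod.snd).prod = 1 := by
    rw [List.map_replicate, List.prod_replicate, pow_orderOf_eq_one]
  have e1 := h2 O X H W 𝔐 ℓ hM hl j c p h a Z Λ τ θ hP π μ Lm hR
    (List.replicate (orderOf w) (u, w)) hl1 hl2
  have e2 := h2 O X H W 𝔐 ℓ hM hl j c p h a Z Λ τ' θ' hP' π μ' Lm' hR'
    (List.replicate (orderOf w) (u, w)) hl1 hl2
  rw [← e2, List.map_replicate, List.map_replicate, List.prod_replicate,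
    List.prod_replicate] at e1
  simp only at e1
  rw [h0, zero_pow hn0.ne'] at e1
  haveI : IsDomain ((integralClosure ℤ ℂ) ⧸ 𝔐) := Ideal.Quotient.isDomain 𝔐
  exact hn (pow_eq_zero_iff hn0.ne' |>.mp e1)

theorem Q_dl {τ : Finset (Subgroup O)} {θ : stb τ → ℂ}
    (hM : 𝔐.IsMaximal) (hP : Pr h 𝔐 ℓ a Z Λ τ θ) {μ : π.ker →* ℂˣ}
    {Lm : (YS j τ → ℤ) → W → (integralClosure ℤ ℂ) ⧸ 𝔐}
    (hR : RDS 𝔐 ℓ a (jS h τ) (pS p j τ) θ π μ Lm) :
    Lm (fun t : YS j τ => dl X t) 1 = 1 := by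
  rw [hR.one _ (aiv_res h τ aiv_dl)]
  have h1 : wt θ (fun b => ((dl X ((jS h τ b : YS j τ) : X) : ℤ) : ℂ)) = 1 := by
    rw [wt, div_eq_one_iff_eq hP.irr.one_ne_zero, Finset.sum_eq_single (1 : stb τ)]
    · simp [dl]
    · intro b _ hb
      rw [dl, if_neg]
      · simp
      · intro h3
        apply hb
        apply Subtype.ext
        apply h.inj
        have h4 : ((jS h τ b : YS j τ) : X) = j (b : O) := rfl
        rw [h4] at h3
        rw [h3]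
        simp
    · intro h3
      exact absurd (Finset.mem_univ _) h3
  rw [h1, red_one]

theorem Q_ker {τ : Finset (Subgroup O)} {θ : stb τ → ℂ}
    (hM : 𝔐.IsMaximal) (hP : Pr h 𝔐 ℓ a Z Λ τ θ) {μ : π.ker →* ℂˣ}
    {Lm : (YS j τ → ℤ) → W → (integralClosure ℤ ℂ) ⧸ 𝔐}
    (hR : RDS 𝔐 ℓ a (jS h τ) (pS p j τ) θ π μ Lm) {z : W} (hz : z ∈ π.ker) :
    Q p j τ π Lm z := by
  haveI := hM
  haveI : IsDomain ((integralClosure ℤ ℂ) ⧸ 𝔐) := Ideal.Quotient.isDomain 𝔐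
  refine ⟨dl X, aiv_dl, ?_, ?_⟩
  · intro x hx
    rw [MonoidHom.mem_ker.mp hz] at hx
    exact dl_support x hx
  · intro h0
    have h1 := hR.ctr _ (aiv_res h τ aiv_dl) ⟨z, hz⟩ 1
    rw [Q_dl hM hP hR] at h1
    simp only [mul_one] at h1
    rw [h0, mul_zero] at h1
    exact zero_ne_one h1

theorem Q_mul (h1 : Stmt_MUN) (hM : 𝔐.IsMaximal) (hl : (ℓ : integralClosure ℤ ℂ) ∈ 𝔐)
    {τ : Finset (Subgroup O)} {θ : stb τ → ℂ}
    (hP : Pr h 𝔐 ℓ a Z Λ τ θ) {μ : π.ker →* ℂˣ}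
    {Lm : (YS j τ → ℤ) → W → (integralClosure ℤ ℂ) ⧸ 𝔐}
    (hR : RDS 𝔐 ℓ a (jS h τ) (pS p j τ) θ π μ Lm) {w w' : W}
    (hw : Q p j τ π Lm w) (hw' : Q p j τ π Lm w') : Q p j τ π Lm (w * w') := by
  haveI := hM
  haveI : IsDomain ((integralClosure ℤ ℂ) ⧸ 𝔐) := Ideal.Quotient.isDomain 𝔐
  obtain ⟨u, hu, hs, hn⟩ := hw
  obtain ⟨v, hv, hs', hn'⟩ := hw'
  refine ⟨conv u v, aiv_conv hu hv, ?_, ?_⟩
  · intro x hx
    rw [map_mul] at hx
    exact conv_support hs hs' x hx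
  · rw [h1 O X H W 𝔐 ℓ hM hl j c p h a Z Λ τ θ hP π μ Lm hR u v w w' hu hv hs hs']
    exact mul_ne_zero hn hn'

theorem Q_conj {τ : Finset (Subgroup O)} {θ : stb τ → ℂ}
    (hP : Pr h 𝔐 ℓ a Z Λ τ θ) {μ : π.ker →* ℂˣ}
    {Lm : (YS j τ → ℤ) → W → (integralClosure ℤ ℂ) ⧸ 𝔐}
    (hR : RDS 𝔐 ℓ a (jS h τ) (pS p j τ) θ π μ Lm) {w : W} (g : W)
    (hw : Q p j τ π Lm w) : Q p j τ π Lm (g * w * g⁻¹) := by
  obtain ⟨u, hu, hs, hn⟩ := hw
  obtain ⟨t, ht⟩ := hP.fp.1 (π g)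
  have ht' : p (t : X) = π g := ht
  refine ⟨fun x => u ((t : X)⁻¹ * x * t), aiv_conj h hu _, ?_, ?_⟩
  · intro x hx
    apply hs
    intro h2
    apply hx
    rw [map_mul, map_mul, map_inv, ht'] at h2
    rw [map_mul, map_mul, map_inv, ← h2]
    group
  · have h3 := hR.eqv _ (aiv_res h τ hu) t g ht w
    rw [← h3] at hn
    exact hn

end Main

end RRN

open _root_.Pool.Agent.DPN.RRN in
theorem RRN_thm (h1 : Stmt_MUN) (h2 : Stmt_KEYN) : Stmt_RRN := by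
  intro O X H W _ _ _ _ _ _ _ _ 𝔐 ℓ _ hM hl j c p h a Z Λ π hπ hc hk μ Lm hR
  by_cases hex : ∃ τ θ, Pr h 𝔐 ℓ a Z Λ τ θ
  · obtain ⟨τ, θ, hP⟩ := hex
    have hRR := hR τ θ hP
    have hone : Q p j τ π (Lm τ θ) 1 := Q_ker hM hP hRR (one_mem _)
    have hpow : ∀ (w : W), Q p j τ π (Lm τ θ) w → ∀ n : ℕ, Q p j τ π (Lm τ θ) (w ^ n) := by
      intro w hw n
      induction n with
      | zero => simpa using hone
      | succ n ih =>
        rw [pow_succ]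
        exact Q_mul h1 hM hl hP hRR ih hw
    let R : Subgroup W :=
      { carrier := {w | Q p j τ π (Lm τ θ) w}
        mul_mem' := fun hw hw' => Q_mul h1 hM hl hP hRR hw hw'
        one_mem' := hone
        inv_mem' := by
          intro w hw
          have h3 : w⁻¹ = w ^ (orderOf w - 1) := by
            rw [inv_eq_iff_mul_eq_one, ← pow_succ', Nat.sub_add_cancel (orderOf_pos w),
              pow_orderOf_eq_one]
          show Q p j τ π (Lm τ θ) w⁻¹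
          rw [h3]
          exact hpow w hw _ }
    refine ⟨R, hπ, hc, hk, hR, ⟨fun w hw g => ?_⟩, fun z hz => ?_, ?_⟩
    · exact Q_conj hP hRR g hw
    · exact Q_ker hM hP hRR hz
    · intro τ' θ' hP' w
      exact ⟨fun hw => Q_trans h2 hM hl hP hP' hRR (hR τ' θ' hP') hw,
        fun hw => Q_trans h2 hM hl hP' hP (hR τ' θ' hP') hRR hw⟩
  · refine ⟨⊤, hπ, hc, hk, hR, inferInstance, le_top, ?_⟩
    intro τ θ hP
    exact absurd ⟨τ, θ, hP⟩ hex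

end Pool.Agent.DPN


end

section

/-!
# CAN: the numbers of the characters of the stabilizer of a linear character and of the quotient
-/

set_option autoImplicit false

namespace Pool.Agent.DPT

open Pool.Agent.DP Pool.Agent.DPC Pool.Agent.DPM Pool.Agent.DPN Pool.Agent.Lib_helper13
open Representation

namespace CAN

section Lin

variable {L : Type} [Group L] [Fintype L]

/-- Clifford's theorem for an invariant linear character of a normal subgroup. -/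
theorem lin_over (S A : Subgroup L) (hAS : A ≤ S) {ν ψ : L → ℂ} (hψ : IrrOn S ψ)
    (hmul : ∀ x ∈ A, ∀ y ∈ A, ν (x * y) = ν x * ν y) (hν0 : ∀ x, x ∉ A → ν x = 0)
    (hinv : ∀ s ∈ S, ∀ x, ν (s * x * s⁻¹) = ν x) (h : iS A ψ ν ≠ 0) :
    ∀ a ∈ A, ∀ t, ψ (a * t) = ν a * ψ t := by
  classical
  obtain ⟨⟨n, ρ, hρ, hc⟩, h0⟩ := hψ
  have hc' : ∀ s : S, ρ.character s = ψ s := fun s => congrFun hc s
  have hf : ∀ g x : S, (fun s : S => ν s) (g * x * g⁻¹) = (fun s : S => ν s) x :=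
    fun g x => hinv g g.2 x
  obtain ⟨c, hcc⟩ := exists_scalar ρ hρ (opSum (fun s : S => ν s) ρ)
    (fun g x => opSum_comm _ hf ρ g x)
  -- the scalar does not vanish
  have hc0 : c ≠ 0 := by
    rintro rfl
    apply h
    have h1 : LinearMap.trace ℂ (Fin n → ℂ) (opSum (fun s : S => ν s) ρ) = 0 := by
      rw [hcc, zero_smul, map_zero]
    have h2 : LinearMap.trace ℂ (Fin n → ℂ) (opSum (fun s : S => ν s) ρ) =
        ∑ s : S, ν s * ψ (s : L)⁻¹ := by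
      rw [opSum, map_sum]
      refine Finset.sum_congr rfl fun s _ => ?_
      rw [map_smul, smul_eq_mul]
      congr 1
      exact hc' s⁻¹
    rw [iS, ip_comm, ip]
    have h3 : ∑ a : A, ν a * ψ ((a⁻¹ : A) : L) = ∑ s : S, ν s * ψ (s : L)⁻¹ := by
      refine Fintype.sum_of_injective (fun a : A => (⟨a, hAS a.2⟩ : S)) ?_ _ _ ?_ ?_
      · intro a b hab
        exact Subtype.ext (congrArg (fun s : S => (s : L)) hab)
      · intro s hs
        have h4 : (s : L) ∉ A := fun h5 => hs ⟨⟨s, h5⟩, rfl⟩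
        rw [hν0 _ h4, zero_mul]
      · intro a
        rfl
    rw [h3, ← h2, h1, zero_div]
  intro a ha t
  by_cases ht : t ∈ S
  · have key : ρ ⟨a, hAS ha⟩ = ν a • LinearMap.id := by
      have h1 : ∀ v, ρ ⟨a, hAS ha⟩ (opSum (fun s : S => ν s) ρ v) =
          ν a • opSum (fun s : S => ν s) ρ v := by
        intro v
        rw [opSum_apply, map_sum, Finset.smul_sum]
        refine Fintype.sum_equiv (Equiv.mulRight (⟨a, hAS ha⟩ : S)⁻¹) _ _ ?_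
        intro s
        rw [map_smul, Equiv.coe_mulRight, ← Module.End.mul_apply, ← map_mul, mul_inv_rev, inv_inv]
        change ν s • _ = ν a • ν ((s : L) * a⁻¹) • _
        rw [smul_smul]
        congr 1
        by_cases hs : (s : L) ∈ A
        · rw [← hmul a ha _ (A.mul_mem hs (A.inv_mem ha))]
          have h2 := hinv a (hAS ha) (s : L)
          rw [← mul_assoc, h2]
        · rw [hν0 _ hs, hν0 ((s : L) * a⁻¹), mul_zero]
          intro h2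
          apply hs
          have h3 := A.mul_mem h2 ha
          rwa [inv_mul_cancel_right] at h3
      apply LinearMap.ext
      intro v
      have h2 := h1 v
      rw [hcc] at h2
      have h3 : ρ ⟨a, hAS ha⟩ ((c • LinearMap.id : (Fin n → ℂ) →ₗ[ℂ] (Fin n → ℂ)) v) =
          c • ρ ⟨a, hAS ha⟩ v := by
        rw [LinearMap.smul_apply, LinearMap.id_apply, map_smul]
      rw [h3, LinearMap.smul_apply, LinearMap.id_apply, smul_comm] at h2
      have h4 := smul_right_injective (Fin n → ℂ) hc0 h2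
      rw [h4]
      rfl
    have h1 : ρ.character (⟨a, hAS ha⟩ * ⟨t, ht⟩) = ν a * ρ.character ⟨t, ht⟩ := by
      change LinearMap.trace ℂ _ (ρ (⟨a, hAS ha⟩ * ⟨t, ht⟩)) =
        ν a * LinearMap.trace ℂ _ (ρ ⟨t, ht⟩)
      rw [map_mul, key]
      have h2 : (ν a • LinearMap.id : (Fin n → ℂ) →ₗ[ℂ] (Fin n → ℂ)) * ρ ⟨t, ht⟩ =
          ν a • ρ ⟨t, ht⟩ := by
        apply LinearMap.ext
        intro v
        rfl
      rw [h2, map_smul, smul_eq_mul]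
    rw [hc', hc'] at h1
    exact h1
  · rw [h0 t ht, h0 (a * t), mul_zero]
    intro h1
    apply ht
    have h2 := S.mul_mem (S.inv_mem (hAS ha)) h1
    rwa [inv_mul_cancel_left] at h2

/-- An irreducible character of degree one of an abelian group is multiplicative. -/
theorem mul_of_ab (A : Subgroup L) {ν : L → ℂ} (hν : IrrOn A ν) (h1 : ν 1 = 1)
    (hab : ∀ x ∈ A, ∀ y ∈ A, x * y = y * x) : ∀ x ∈ A, ∀ y, ν (x * y) = ν x * ν y := by
  classical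
  have hZ : (⊤ : Subgroup A) ≤ Subgroup.center A := by
    intro z _
    rw [Subgroup.mem_center_iff]
    intro g
    exact Subtype.ext (hab g g.2 z z.2)
  obtain ⟨μ, hμ⟩ := BTC.exists_cc hZ hν.1
  have h2 : ∀ x y : A, ν (x * y) = ((μ ⟨x, trivial⟩ : ℂˣ) : ℂ) * ν y :=
    fun x y => hμ ⟨x, trivial⟩ y
  intro x hx y
  by_cases hy : y ∈ A
  · have h3 := h2 ⟨x, hx⟩ 1
    have h4 := h2 ⟨x, hx⟩ ⟨y, hy⟩
    simp only [OneMemClass.coe_one, mul_one] at h3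
    rw [h1, mul_one] at h3
    rw [h3]
    exact h4
  · rw [hν.2 y hy, hν.2 (x * y), mul_zero]
    intro h3
    apply hy
    have h4 := A.mul_mem (A.inv_mem hx) h3
    rwa [inv_mul_cancel_left] at h4

/-- The decomposition of an element into a part of order prime to `ℓ` and a part of order a power
of `ℓ`. -/
theorem exists_parts (ℓ : ℕ) [hl : Fact ℓ.Prime] (x : L) (n : ℕ) :
    ∃ (s : ℕ) (m : ℕ), ℓ ^ n ∣ s ∧ ¬ ℓ ∣ m ∧ (x ^ s) ^ m = 1 ∧
      ∃ a : ℕ, ((x ^ s)⁻¹ * x) ^ ℓ ^ a = 1 := by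
  have hx : orderOf x ≠ 0 := (orderOf_pos x).ne'
  have hm : ¬ ℓ ∣ orderOf x / ℓ ^ (orderOf x).factorization ℓ :=
    Nat.not_dvd_ordCompl hl.out hx
  set m := orderOf x / ℓ ^ (orderOf x).factorization ℓ with hmdef
  set a := (orderOf x).factorization ℓ with ha
  have ho : ℓ ^ a * m = orderOf x := Nat.ordProj_mul_ordCompl_eq_self _ _
  have hcop : Nat.Coprime (ℓ ^ (n + a)) m :=
    Nat.Coprime.pow_left _ ((Nat.Prime.coprime_iff_not_dvd hl.out).mpr hm)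
  obtain ⟨s, hs1, hs2⟩ := Nat.chineseRemainder hcop 0 1
  have hd : ℓ ^ (n + a) ∣ s := (Nat.modEq_zero_iff_dvd).mp hs1
  refine ⟨s, m, (pow_dvd_pow ℓ (Nat.le_add_right n a)).trans hd, hm, ?_, a, ?_⟩
  · rw [← pow_mul]
    apply orderOf_dvd_iff_pow_eq_one.mp
    rw [← ho]
    exact Nat.mul_dvd_mul ((pow_dvd_pow ℓ (Nat.le_add_left a n)).trans hd) (dvd_refl m)
  · have hcomm : Commute (x ^ s)⁻¹ x := (Commute.refl x).pow_left s |>.inv_left
    have h1 : (x ^ s) ^ ℓ ^ a = x ^ ℓ ^ a := by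
      rw [← pow_mul, pow_eq_pow_iff_modEq, ← ho, mul_comm s]
      have h2 : ℓ ^ a * s ≡ ℓ ^ a * 1 [MOD ℓ ^ a * m] := Nat.ModEq.mul_left' _ hs2
      rwa [mul_one] at h2
    rw [hcomm.mul_pow, inv_pow, h1, inv_mul_cancel]

end Lin

section Main

variable {L K Y G : Type} [Group L] [Fintype L] [Group K] [Fintype K] [Group Y] [Fintype Y]
  [Group G] [Fintype G] {ℓ : ℕ} [hl : Fact ℓ.Prime] {π : L →* K} {μ : π.ker →* ℂˣ}
  {Q M M₀ : Subgroup K} {ν : L → ℂ} {k' : L →* G} {q : ↥(sx ν) →* Y} {k : Y →* G}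
  {lam : k.ker →* ℂˣ}

omit [Fintype L] [Fintype K] hl in
theorem Q_le_sx (hN : LN ℓ π μ Q M M₀ ν) {x : L} (hx : π x ∈ Q) : x ∈ sx ν := by
  intro y
  by_cases hy : π y ∈ Q
  · rw [hN.ab x y hx hy, mul_inv_cancel_right]
  · have h1 : π (x * y * x⁻¹) ∉ Q := by
      intro h
      apply hy
      have h2 := hN.Qn.conj_mem _ h (π x)⁻¹
      have h3 : (π x)⁻¹ * π (x * y * x⁻¹) * (π x)⁻¹⁻¹ = π y := by
        rw [map_mul, map_mul, map_inv]
        group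
      rwa [h3] at h2
    rw [hN.irr.2 _ hy, hN.irr.2 _ h1]

/-- An element of the inverse image of `Q` is the product of an element of the kernel of `π` of
order prime to `ℓ` and of an element of the kernel of `k'`. -/
theorem Q_parts (hN : LN ℓ π μ Q M M₀ ν) (hX : XD ℓ π Q ν k' q k lam) {x : L} (hx : π x ∈ Q) :
    ∃ u z : L, x = u * z ∧ π u = 1 ∧ k' z = 1 ∧ ∃ m : ℕ, ¬ ℓ ∣ m ∧ u ^ m = 1 := by
  obtain ⟨n, hn⟩ := hN.Qp ⟨π x, hx⟩
  have hn' : (π x) ^ ℓ ^ n = 1 := congrArg Subtype.val hn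
  obtain ⟨s, m, hs, hm, h1, h2⟩ := exists_parts ℓ x n
  have h3 : π (x ^ s) = 1 := by
    obtain ⟨c, rfl⟩ := hs
    rw [map_pow, pow_mul, hn', one_pow]
  refine ⟨x ^ s, (x ^ s)⁻¹ * x, ?_, h3, ?_, m, hm, h1⟩
  · rw [mul_inv_cancel_left]
  · rw [hX.kk]
    refine ⟨?_, h2⟩
    rw [map_mul, map_inv, h3, inv_one, one_mul]
    exact hx

theorem Q_le_S (hN : LN ℓ π μ Q M M₀ ν) (hX : XD ℓ π Q ν k' q k lam) {S : Subgroup G}
    (hS : ∀ x, π x = 1 → k' x ∈ S) : Q.comap π ≤ S.comap k' ⊓ sx ν := by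
  intro x hx
  refine ⟨?_, Q_le_sx hN hx⟩
  obtain ⟨u, z, rfl, hu, hz, -⟩ := Q_parts hN hX hx
  change k' (u * z) ∈ S
  rw [map_mul, hz, mul_one]
  exact hS u hu

/-- The projection of the stabilizer in the inverse image of `S`. -/
noncomputable def qT (hX : XD ℓ π Q ν k' q k lam) (S : Subgroup G) :
    ↥(S.comap k' ⊓ sx ν) →* ↥(S.comap k) :=
  (q.comp (Subgroup.inclusion (inf_le_right : S.comap k' ⊓ sx ν ≤ sx ν))).codRestrict (S.comap k)
    (fun t => by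
      change k (q ⟨(t : L), t.2.2⟩) ∈ S
      rw [hX.kq]
      exact t.2.1)

omit [Fintype L] [Fintype K] [Fintype Y] [Fintype G] hl in
theorem qT_surj (hX : XD ℓ π Q ν k' q k lam) (S : Subgroup G) :
    Function.Surjective (qT hX S) := by
  rintro ⟨y, hy⟩
  obtain ⟨t, rfl⟩ := hX.qs y
  refine ⟨⟨t, ?_, t.2⟩, rfl⟩
  have h1 : k (q t) ∈ S := hy
  rwa [hX.kq] at h1

omit [Fintype L] [Fintype K] [Fintype Y] [Fintype G] hl in
theorem card_kerT (hX : XD ℓ π Q ν k' q k lam) (S : Subgroup G) :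
    Nat.card (qT hX S).ker = Nat.card q.ker := by
  refine Nat.card_congr ⟨fun t => ⟨⟨((t : ↥(S.comap k' ⊓ sx ν)) : L), t.1.2.2⟩, ?_⟩,
    fun t => ⟨⟨((t : sx ν) : L), ?_, (t : sx ν).2⟩, ?_⟩, fun t => rfl, fun t => rfl⟩
  · exact congrArg Subtype.val (MonoidHom.mem_ker.mp t.2)
  · have h1 : k (q (t : sx ν)) = 1 := by rw [MonoidHom.mem_ker.mp t.2, map_one]
    rw [hX.kq] at h1
    change k' ((t : sx ν) : L) ∈ S
    rw [h1]
    exact S.one_mem
  · rw [MonoidHom.mem_ker]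
    apply Subtype.ext
    exact MonoidHom.mem_ker.mp t.2

theorem card_S (hN : LN ℓ π μ Q M M₀ ν) (hX : XD ℓ π Q ν k' q k lam) (S : Subgroup G) :
    Nat.card ↥(S.comap k' ⊓ sx ν) = Nat.card ↥(S ⊓ k.range) * Nat.card k'.ker := by
  let f : ↥(S.comap k' ⊓ sx ν) →* ↥(S ⊓ k.range) :=
    (k'.comp (Subgroup.subtype _)).codRestrict (S ⊓ k.range)
      (fun t => ⟨t.2.1, ⟨q ⟨(t : L), t.2.2⟩, hX.kq _⟩⟩)
  have hf : Function.Surjective f := by
    rintro ⟨x, hx, y, rfl⟩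
    obtain ⟨t, rfl⟩ := hX.qs y
    refine ⟨⟨t, ?_, t.2⟩, ?_⟩
    · have h1 : k (q t) ∈ S := hx
      rwa [hX.kq] at h1
    · exact Subtype.ext (hX.kq t).symm
  have hker : Nat.card f.ker = Nat.card k'.ker := by
    refine Nat.card_congr ⟨fun t => ⟨((t : ↥(S.comap k' ⊓ sx ν)) : L), ?_⟩,
      fun t => ⟨⟨(t : L), ?_, ?_⟩, ?_⟩, fun t => rfl, fun t => rfl⟩
    · exact congrArg Subtype.val (MonoidHom.mem_ker.mp t.2)
    · change k' (t : L) ∈ S
      rw [MonoidHom.mem_ker.mp t.2]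
      exact S.one_mem
    · exact Q_le_sx hN ((hX.kk _).mp (MonoidHom.mem_ker.mp t.2)).1
    · rw [MonoidHom.mem_ker]
      apply Subtype.ext
      exact MonoidHom.mem_ker.mp t.2
  rw [QINF.card_eq f hf, hker, mul_comm]

/-- The character of the stabilizer which belongs to the character `η` of the quotient. -/
noncomputable def up (hX : XD ℓ π Q ν k' q k lam) (S : Subgroup G) (η : ↥(S.comap k) → ℂ) :
    L → ℂ := ext0 (fun t => η (qT hX S t))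

omit [Fintype L] [Fintype K] [Fintype Y] [Fintype G] hl in
theorem up_q (hX : XD ℓ π Q ν k' q k lam) (S : Subgroup G) (η : ↥(S.comap k) → ℂ) (t : sx ν) :
    up hX S η t = ext0 η (q t) := by
  by_cases ht : k' (t : L) ∈ S
  · have h1 : (t : L) ∈ S.comap k' ⊓ sx ν := ⟨ht, t.2⟩
    have h2 : q t ∈ S.comap k := by
      rw [Subgroup.mem_comap, hX.kq]
      exact ht
    rw [up, ext0_of_mem _ h1, ext0_of_mem _ h2]
    rfl
  · have h1 : (t : L) ∉ S.comap k' ⊓ sx ν := fun h => ht h.1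
    have h2 : q t ∉ S.comap k := by
      rw [Subgroup.mem_comap, hX.kq]
      exact ht
    rw [up, ext0_of_not_mem _ h1, ext0_of_not_mem _ h2]

theorem up_irr (hX : XD ℓ π Q ν k' q k lam) (S : Subgroup G) {η : ↥(S.comap k) → ℂ}
    (hη : IsIrr η) : IrrOn (S.comap k' ⊓ sx ν) (up hX S η) := by
  classical
  exact STB.irrOn_ext0 (QINF.irr_inf (qT hX S) (qT_surj hX S) hη)

/-- Over `ν` above, over `lam` below. -/
theorem ov_down (hX : XD ℓ π Q ν k' q k lam) (S : Subgroup G) (η : ↥(S.comap k) → ℂ)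
    (h : ∀ a, π a ∈ Q → ∀ t, up hX S η (a * t) = ν a * up hX S η t) : OvK k lam (ext0 η) := by
  intro z y
  obtain ⟨z, hz⟩ := z
  obtain ⟨t, rfl⟩ := hX.qs z
  obtain ⟨u, rfl⟩ := hX.qs y
  have h1 : k' (t : L) = 1 := by rw [← hX.kq]; exact hz
  have h2 := h t ((hX.kk _).mp h1).1 u
  have h3 := up_q hX S η (t * u)
  rw [hX.lm t hz, ← up_q hX S η u, ← h2]
  rw [map_mul] at h3
  exact h3.symm

omit [Fintype K] in
theorem cgT_center (𝔐 : Ideal (integralClosure ℤ ℂ)) {u : L} (hu : u ∈ Subgroup.center L)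
    (f : L → ℂ) : cgT 𝔐 ⊤ f u = red 𝔐 (f u / f 1) := by
  classical
  have h1 : ∀ x : L, cjT (⊤ : Subgroup L) x u * f x = if x = u then f u else 0 := by
    intro x
    rw [cjT]
    by_cases hx : x = u
    · rw [if_pos hx, if_pos ⟨1, trivial, by rw [hx]; group⟩, one_mul, hx]
    · rw [if_neg hx, if_neg, zero_mul]
      rintro ⟨t, -, ht⟩
      apply hx
      rw [ht, Subgroup.mem_center_iff.mp hu t, mul_inv_cancel_right]
  rw [cgT, Finset.sum_congr rfl fun x _ => h1 x, Finset.sum_ite_eq' Finset.univ u,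
    if_pos (Finset.mem_univ u)]

/-- The values on the inverse image of `Q`. -/
theorem val_Q {𝔐 : Ideal (integralClosure ℤ ℂ)} (h𝔐 : 𝔐.IsMaximal)
    (hℓ : (ℓ : integralClosure ℤ ℂ) ∈ 𝔐) (hcen : π.ker ≤ Subgroup.center L)
    (hN : LN ℓ π μ Q M M₀ ν) (hX : XD ℓ π Q ν k' q k lam)
    {θ₀ : L → ℂ} (hθ : IrrOn (M₀.comap π) θ₀) (hov : OvK π μ θ₀) {S : Subgroup G}
    (hS : ∀ x, π x = 1 → k' x ∈ S) {η : ↥(S.comap k) → ℂ} (hη : IsIrr η)
    (hk : OvK k lam (ext0 η))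
    (hcg : ∀ g, π g = 1 → cgT 𝔐 ⊤ (up hX S η) g = cgT 𝔐 ⊤ θ₀ g) :
    ∀ x, π x ∈ Q → up hX S η x = ν x * up hX S η 1 := by
  classical
  have hp : 𝔐.IsPrime := h𝔐.isPrime
  intro x hx
  obtain ⟨u, z, rfl, hu, hz, m, hm, hum⟩ := Q_parts hN hX hx
  have hirr := up_irr hX S hη
  -- the value at `z`
  have hzs : z ∈ sx ν := Q_le_sx hN ((hX.kk _).mp hz).1
  have h1 : up hX S η z = ν z * up hX S η 1 := by
    have h2 := up_q hX S η ⟨z, hzs⟩
    have h3 : k (q ⟨z, hzs⟩) = 1 := by rw [hX.kq]; exact hz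
    have h4 := hk ⟨q ⟨z, hzs⟩, h3⟩ 1
    have h5 := up_q hX S η 1
    rw [map_one] at h5
    rw [mul_one, hX.lm ⟨z, hzs⟩ h3, ← h5, ← h2] at h4
    exact h4
  -- the central character on the kernel of `π`
  have hZ : (π.ker).subgroupOf (S.comap k' ⊓ sx ν) ≤
      Subgroup.center ↥(S.comap k' ⊓ sx ν) := by
    intro w hw
    rw [Subgroup.mem_center_iff]
    intro g
    exact Subtype.ext (Subgroup.mem_center_iff.mp (hcen hw) g)
  obtain ⟨μ', hμ'⟩ := BTC.exists_cc hZ hirr.1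
  have huS : u ∈ S.comap k' ⊓ sx ν := by
    refine ⟨hS u hu, Q_le_sx hN ?_⟩
    rw [hu]
    exact Q.one_mem
  have hzS : z ∈ S.comap k' ⊓ sx ν := by
    refine ⟨?_, hzs⟩
    change k' z ∈ S
    rw [hz]
    exact S.one_mem
  have huk : (⟨u, huS⟩ : ↥(S.comap k' ⊓ sx ν)) ∈ (π.ker).subgroupOf (S.comap k' ⊓ sx ν) := hu
  have h2 : ∀ t : ↥(S.comap k' ⊓ sx ν), up hX S η (u * t) =
      ((μ' ⟨⟨u, huS⟩, huk⟩ : ℂˣ) : ℂ) * up hX S η t := fun t => hμ' ⟨⟨u, huS⟩, huk⟩ t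
  have hne : up hX S η 1 ≠ 0 := hirr.1.one_ne_zero
  have hθ1 : θ₀ 1 ≠ 0 := hθ.1.one_ne_zero
  have h3 : up hX S η u / up hX S η 1 = ((μ' ⟨⟨u, huS⟩, huk⟩ : ℂˣ) : ℂ) := by
    have h4 := h2 1
    rw [OneMemClass.coe_one, mul_one] at h4
    rw [h4, mul_div_assoc, div_self hne, mul_one]
  have h4 : θ₀ u / θ₀ 1 = ((μ ⟨u, hu⟩ : ℂˣ) : ℂ) := by
    have h5 := hov ⟨u, hu⟩ 1
    rw [mul_one] at h5
    rw [h5, mul_div_assoc, div_self hθ1, mul_one]
  have h5 := hcg u hu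
  rw [cgT_center 𝔐 (hcen hu), cgT_center 𝔐 (hcen hu), h3, h4] at h5
  have h6 : ((μ' ⟨⟨u, huS⟩, huk⟩ : ℂˣ) : ℂ) = ((μ ⟨u, hu⟩ : ℂˣ) : ℂ) := by
    have ha : ((μ' ⟨⟨u, huS⟩, huk⟩ : ℂˣ) : ℂ) ^ m = 1 := by
      rw [← Units.val_pow_eq_pow_val, ← map_pow]
      have h7 : (⟨⟨u, huS⟩, huk⟩ : (π.ker).subgroupOf (S.comap k' ⊓ sx ν)) ^ m = 1 := by
        apply Subtype.ext
        apply Subtype.ext
        exact hum
      rw [h7, map_one, Units.val_one]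
    have hb : ((μ ⟨u, hu⟩ : ℂˣ) : ℂ) ^ m = 1 := by
      rw [← Units.val_pow_eq_pow_val, ← map_pow]
      have h7 : (⟨u, hu⟩ : π.ker) ^ m = 1 := Subtype.ext hum
      rw [h7, map_one, Units.val_one]
    have hm0 : 0 < m := by
      rcases Nat.eq_zero_or_pos m with h | h
      · exact absurd (h ▸ dvd_zero ℓ) hm
      · exact h
    have hbne : ((μ ⟨u, hu⟩ : ℂˣ) : ℂ) ≠ 0 := Units.ne_zero _
    have hbi : (((μ ⟨u, hu⟩ : ℂˣ) : ℂ)⁻¹) ^ m = 1 := by rw [inv_pow, hb, inv_one]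
    have hz1 : ((μ' ⟨⟨u, huS⟩, huk⟩ : ℂˣ) : ℂ) * ((μ ⟨u, hu⟩ : ℂˣ) : ℂ)⁻¹ = 1 := by
      apply PSDB.eq_one_of_red 𝔐 hℓ hm
      · rw [mul_pow, ha, hbi, one_mul]
      · rw [red_mul 𝔐 (PSDB.isIntegral_of_pow_eq hm0 ha) (PSDB.isIntegral_of_pow_eq hm0 hbi), h5,
          ← red_mul 𝔐 (PSDB.isIntegral_of_pow_eq hm0 hb) (PSDB.isIntegral_of_pow_eq hm0 hbi),
          mul_inv_cancel₀ hbne, red_one]
    calc ((μ' ⟨⟨u, huS⟩, huk⟩ : ℂˣ) : ℂ)
        = ((μ' ⟨⟨u, huS⟩, huk⟩ : ℂˣ) : ℂ) * ((μ ⟨u, hu⟩ : ℂˣ) : ℂ)⁻¹ *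
            ((μ ⟨u, hu⟩ : ℂˣ) : ℂ) := by
          rw [mul_assoc, inv_mul_cancel₀ hbne, mul_one]
      _ = ((μ ⟨u, hu⟩ : ℂˣ) : ℂ) := by rw [hz1, one_mul]
  have h7 := h2 ⟨z, hzS⟩
  have h8 : ν (u * z) = ((μ ⟨u, hu⟩ : ℂˣ) : ℂ) * ν z := hN.ov ⟨u, hu⟩ z
  rw [h8, mul_assoc, ← h1, ← h6]
  exact h7

/-- The inner product with `ν`. -/
theorem iS_ne {ψ : L → ℂ} {A : Subgroup L} (hν : IrrOn A ν) (h1 : ψ 1 ≠ 0)
    (h : ∀ x ∈ A, ψ x = ν x * ψ 1) : iS A ψ ν ≠ 0 := by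
  classical
  have h2 : iS A ψ ν = ψ 1 * ip (fun a : A => ν a) (fun a : A => ν a) := by
    rw [iS, ip, ip, mul_div_assoc', Finset.mul_sum]
    congr 1
    refine Finset.sum_congr rfl fun a _ => ?_
    rw [h a a.2]
    ring
  rw [h2, ip_self hν.1, mul_one]
  exact h1

/-- The key equivalence. -/
theorem key (h1 : Stmt_CAE) {𝔐 : Ideal (integralClosure ℤ ℂ)} (h𝔐 : 𝔐.IsMaximal)
    (hℓ : (ℓ : integralClosure ℤ ℂ) ∈ 𝔐) (hsurj : Function.Surjective π)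
    (hcen : π.ker ≤ Subgroup.center L)
    (hN : LN ℓ π μ Q M M₀ ν) (hX : XD ℓ π Q ν k' q k lam)
    {ω : L → (integralClosure ℤ ℂ) ⧸ 𝔐} {θ₀ : L → ℂ} {θb : G → ℂ}
    (hθ : ID ℓ (M₀.comap π) (padicValNat ℓ (Nat.card π.ker)) θ₀) (hov : OvK π μ θ₀)
    (hω : ∀ g, π g ∈ M₀ → cgT 𝔐 ⊤ θ₀ g = ω g) (hω0 : ∀ g, π g ∈ M → π g ∉ M₀ → ω g = 0)
    (hT : TB 𝔐 ℓ π M₀ k' θ₀ θb) {S : Subgroup G}
    (hS : ∀ x, π x = 1 → k' x ∈ S) {η : ↥(S.comap k) → ℂ} (hη : IsIrr η) :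
    (iS (Q.comap π) (up hX S η) ν ≠ 0 ∧ ∀ g, π g ∈ M → cgT 𝔐 ⊤ (up hX S η) g = ω g) ↔
      (OvK k lam (ext0 η) ∧ TyR 𝔐 ℓ k ((M₀.comap π).map k') S (ext0 η) θb) := by
  classical
  have hirr := up_irr hX S hη
  have hab : ∀ x ∈ Q.comap π, ∀ y ∈ Q.comap π, x * y = y * x := fun x hx y hy => hN.ab x y hx hy
  have hcae : OvK k lam (ext0 η) → ((∀ g, π g ∈ M₀ → cgT 𝔐 ⊤ (up hX S η) g = ω g) ↔
      TyR 𝔐 ℓ k ((M₀.comap π).map k') S (ext0 η) θb) := fun h =>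
    h1 L K Y G 𝔐 ℓ h𝔐 hℓ π hsurj hcen μ Q M M₀ ν hN k' q k lam hX ω θ₀ θb hθ hov hω hT S hS
      (up hX S η) (ext0 η) hirr (STB.irrOn_ext0 hη) (up_q hX S η) h
  constructor
  · rintro ⟨h2, h3⟩
    have h4 := lin_over (S.comap k' ⊓ sx ν) (Q.comap π) (Q_le_S hN hX hS) hirr
      (fun x hx y _ => mul_of_ab (Q.comap π) hN.irr hN.lin hab x hx y) hN.irr.2
      (fun s hs x => hs.2 x) h2
    have h5 := ov_down hX S η (fun a ha t => h4 a ha t)
    exact ⟨h5, (hcae h5).mp (fun g hg => h3 g (hN.le hg))⟩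
  · rintro ⟨h2, h3⟩
    have h4 := (hcae h2).mpr h3
    refine ⟨?_, ?_⟩
    · refine iS_ne hN.irr hirr.1.one_ne_zero ?_
      refine val_Q h𝔐 hℓ hcen hN hX hθ.1 hov hS hη h2 ?_
      intro g hg
      have hg' : π g ∈ M₀ := by
        rw [hg]
        exact M₀.one_mem
      rw [h4 g hg', hω g hg']
    · intro g hg
      by_cases hg' : π g ∈ M₀
      · exact h4 g hg'
      · rw [hω0 g hg hg', cgT]
        have h5 : ∑ x, cjT (⊤ : Subgroup L) x g * up hX S η x = 0 := by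
          refine Finset.sum_eq_zero fun x _ => ?_
          rw [cjT]
          split_ifs with h6
          · obtain ⟨t, -, rfl⟩ := h6
            have h7 : π (t * g * t⁻¹) ∈ M := by
              rw [map_mul, map_mul, map_inv]
              exact hN.Mn.conj_mem _ hg _
            have h8 : t * g * t⁻¹ ∉ sx ν := by
              rw [← hN.st _ h7]
              intro h9
              apply hg'
              have h10 := hN.M0n.conj_mem _ h9 (π t)⁻¹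
              have h11 : (π t)⁻¹ * π (t * g * t⁻¹) * (π t)⁻¹⁻¹ = π g := by
                rw [map_mul, map_mul, map_inv]
                group
              rwa [h11] at h10
            rw [hirr.2 _ (fun h => h8 h.2), mul_zero]
          · rw [zero_mul]
        rw [h5, zero_div, red_zero]

/-- Every character over `ν` comes from the quotient. -/
theorem exists_down (hN : LN ℓ π μ Q M M₀ ν) (hX : XD ℓ π Q ν k' q k lam) {S : Subgroup G}
    (hS : ∀ x, π x = 1 → k' x ∈ S) {θ : ↥(S.comap k' ⊓ sx ν) → ℂ} (hθ : IsIrr θ)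
    (h : iS (Q.comap π) (ext0 θ) ν ≠ 0) :
    ∃ η : ↥(S.comap k) → ℂ, IsIrr η ∧ θ = fun t => η (qT hX S t) := by
  classical
  have hab : ∀ x ∈ Q.comap π, ∀ y ∈ Q.comap π, x * y = y * x := fun x hx y hy => hN.ab x y hx hy
  have h4 := lin_over (S.comap k' ⊓ sx ν) (Q.comap π) (Q_le_S hN hX hS) (STB.irrOn_ext0 hθ)
    (fun x hx y _ => mul_of_ab (Q.comap π) hN.irr hN.lin hab x hx y) hN.irr.2
    (fun s hs x => hs.2 x) h
  apply QINF.exists_inf (qT hX S) (qT_surj hX S) hθ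
  intro x y hx
  have h5 : q ⟨(x : L), x.2.2⟩ = 1 := congrArg Subtype.val hx
  have h6 := (hX.qk ⟨(x : L), x.2.2⟩).mp h5
  have h7 := h4 x ((hX.kk _).mp h6.1).1 y
  rw [h6.2, one_mul] at h7
  have h8 : ext0 θ ((x * y : ↥(S.comap k' ⊓ sx ν)) : L) = ext0 θ (y : L) := h7
  rw [ext0_of_mem θ (x * y).2, ext0_of_mem θ y.2] at h8
  exact h8

end Main

end CAN

open _root_.Pool.Agent.DPT.CAN in
theorem CAN_thm (h1 : Stmt_CAE) : Stmt_CAN := by
  classical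
  intro L K Y G _ _ _ _ _ _ _ _ 𝔐 ℓ _ h𝔐 hℓ π hsurj hcen μ Q M M₀ ν hN k' q k lam hX ω θ₀ θb hθ hov
    hω hω0 hT S hS
  have hv : padicValNat ℓ (Nat.card (qT hX S).ker) = padicValNat ℓ (Nat.card q.ker) := by
    rw [card_kerT]
  refine ⟨card_S hN hX S, ?_, ?_⟩
  · intro d
    rw [STB.card_ID ℓ (d + padicValNat ℓ (Nat.card q.ker)) (S.comap k' ⊓ sx ν)
        (fun ψ => iS (Q.comap π) ψ ν ≠ 0 ∧ ∀ g, π g ∈ M → cgT 𝔐 ⊤ ψ g = ω g),
      STB.card_ID ℓ d (S.comap k)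
        (fun ψ => OvK k lam ψ ∧ TyR 𝔐 ℓ k ((M₀.comap π).map k') S ψ θb)]
    symm
    refine Nat.card_congr (Equiv.ofBijective
      (fun η => ⟨fun t => η.1 (qT hX S t), QINF.irr_inf (qT hX S) (qT_surj hX S) η.2.1, ?_, ?_⟩)
      ⟨?_, ?_⟩)
    · rw [← hv]
      exact (QINF.defect_inf (qT hX S) ℓ (qT_surj hX S) η.1 d).mpr η.2.2.1
    · exact (key h1 h𝔐 hℓ hsurj hcen hN hX hθ hov hω hω0 hT hS η.2.1).mpr η.2.2.2
    · intro η η' h
      apply Subtype.ext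
      funext y
      obtain ⟨t, rfl⟩ := qT_surj hX S y
      exact congrFun (congrArg Subtype.val h) t
    · rintro ⟨θ, hθi, hθd, hθ2⟩
      obtain ⟨η, hη, rfl⟩ := exists_down hN hX hS hθi hθ2.1
      refine ⟨⟨η, hη, ?_, ?_⟩, rfl⟩
      · rw [← hv] at hθd
        exact (QINF.defect_inf (qT hX S) ℓ (qT_surj hX S) η d).mp hθd
      · exact (key h1 h𝔐 hℓ hsurj hcen hN hX hθ hov hω hω0 hT hS hη).mp hθ2
  · intro d hd
    rw [STB.card_ID ℓ d (S.comap k' ⊓ sx ν)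
        (fun ψ => iS (Q.comap π) ψ ν ≠ 0 ∧ ∀ g, π g ∈ M → cgT 𝔐 ⊤ ψ g = ω g)]
    rw [Nat.card_eq_zero]
    left
    refine ⟨?_⟩
    rintro ⟨θ, hθi, hθd, hθ2⟩
    obtain ⟨η, hη, rfl⟩ := exists_down hN hX hS hθi hθ2.1
    obtain ⟨e, he⟩ := hη.exists_defect (ℓ := ℓ)
    have h3 := (QINF.defect_inf (qT hX S) ℓ (qT_surj hX S) η e).mpr he
    have h4 := hθd.unique h3
    omega

end Pool.Agent.DPT


end
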