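import Mathlib
import Pool.Agent.DAM.C67

/-! Parts: DPN.YCB -/

section

/-!
# YCB: the number of characters over a fixed pair for the fibre product
-/

namespace Pool.Agent.DPN

open Pool.Agent.DP Pool.Agent.DPC Pool.Agent.DPM Pool.Agent.Lib_helper13 Representation
open Pool.Agent.Lib_helper13.Dade (pCore DadeHolds dadeSum)

namespace YCB

/-! ### The frame of an inverse image -/

section Frame

variable {A T K : Type} [Group A] [Group T] [Group K] {j : A →* T} {c : T →* MulAut A}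
  {p : T →* K}

theorem mem_YS_iff (h : ClG j c p) (τ : Finset (Subgroup A)) (y : T) :
    y ∈ YS j τ ↔ ∀ D ∈ τ, ∀ x, x ∈ D ↔ c y x ∈ D := by
  change y ∈ stb (mapCh j τ) ↔ _
  rw [mem_stb']
  constructor
  · intro h1 D hD x
    have h2 := h1 (D.map j) (mem_mapCh.mpr ⟨D, hD, rfl⟩) (j x)
    rw [← h.act, Subgroup.mem_map_iff_mem h.inj, Subgroup.mem_map_iff_mem h.inj] at h2
    exact h2
  · intro h1 E hE z
    obtain ⟨D, hD, rfl⟩ := mem_mapCh.mp hE
    constructor
    · rintro ⟨x, hx, rfl⟩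
      rw [← h.act]
      exact ⟨c y x, (h1 D hD x).mp hx, rfl⟩
    · rintro ⟨x, hx, hx'⟩
      have h3 : z = j (c y⁻¹ x) := by
        rw [h.act, hx']
        group
      rw [h3]
      refine ⟨_, (h1 D hD _).mpr ?_, rfl⟩
      have h4 : c y (c y⁻¹ x) = x := by
        rw [← MulAut.mul_apply, ← map_mul, mul_inv_cancel, map_one, MulAut.one_apply]
      rw [h4]
      exact hx

/-- The embedding of the normal subgroup in the inverse image of `V`. -/
def jV (h : ClG j c p) (V : Subgroup K) : A →* ↥(V.comap p) :=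
  j.codRestrict _ (fun a => by
    change p (j a) ∈ V
    rw [(h.ker _).mpr ⟨a, rfl⟩]
    exact V.one_mem)

theorem clG_V (h : ClG j c p) (V : Subgroup K) :
    ClG (jV h V) (c.comp (V.comap p).subtype) (p.subgroupComap V) where
  inj := by
    intro a b hab
    exact h.inj (congrArg Subtype.val hab)
  act := fun y a => Subtype.ext (h.act (y : T) a)
  ker := by
    intro y
    constructor
    · intro h1
      have h2 : p (y : T) = 1 := congrArg Subtype.val h1
      obtain ⟨a, ha⟩ := (h.ker (y : T)).mp h2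
      exact ⟨a, Subtype.ext ha⟩
    · rintro ⟨a, rfl⟩
      exact Subtype.ext ((h.ker _).mpr ⟨a, rfl⟩)

theorem surj_V (V : Subgroup K) (hp : Function.Surjective p) :
    Function.Surjective (p.subgroupComap V) := by
  intro v
  obtain ⟨t, ht⟩ := hp (v : K)
  refine ⟨⟨t, ?_⟩, Subtype.ext ht⟩
  change p t ∈ V
  rw [ht]
  exact v.2

theorem card_V [Finite T] (h : ClG j c p) (V : Subgroup K) (hp : Function.Surjective p) :
    Nat.card ↥(V.comap p) = Nat.card A * Nat.card V := by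
  rw [EXPB.card_comap, MonoidHom.range_eq_top.mpr hp, inf_top_eq]
  congr 1
  symm
  refine Nat.card_congr (Equiv.ofBijective (fun a => ⟨j a, (h.ker _).mpr ⟨a, rfl⟩⟩) ⟨?_, ?_⟩)
  · intro a b hab
    exact h.inj (congrArg Subtype.val hab)
  · rintro ⟨y, hy⟩
    obtain ⟨a, ha⟩ := (h.ker y).mp hy
    exact ⟨a, Subtype.ext ha⟩

variable [Fintype A] [Fintype T] [Fintype K]

/-- The characters of an inverse image over an extendible character. -/
theorem count (h : ClG j c p) (hp : Function.Surjective p) {θ : A → ℂ} {E : T → ℂ}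
    (hθ : IsIrr θ) (hE : IsChr E) (hEθ : ∀ a, E (j a) = θ a) (V : Subgroup K)
    (P : (↥(V.comap p) → ℂ) → Prop) (Q : (V → ℂ) → Prop)
    (hPQ : ∀ ζ : V → ℂ, IsIrr ζ →
      IsIrr (fun y : ↥(V.comap p) => E y * ζ (p.subgroupComap V y)) →
      ip (resj (jV h V) (fun y : ↥(V.comap p) => E y * ζ (p.subgroupComap V y))) θ ≠ 0 →
      (P (fun y => E y * ζ (p.subgroupComap V y)) ↔ Q ζ)) :
    Nat.card {ψ : ↥(V.comap p) → ℂ // IsIrr ψ ∧ ip (fun a : A => ext0 ψ (j a)) θ ≠ 0 ∧ P ψ} =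
      Nat.card {ζ : V → ℂ // IsIrr ζ ∧ Q ζ} := by
  classical
  have hf : Fintype ↥(V.comap p) := Fintype.ofFinite _
  have hf' : Fintype V := Fintype.ofFinite _
  obtain ⟨g1, g2, g3⟩ := b_GALL A ↥(V.comap p) V (jV h V) (c.comp (V.comap p).subtype)
    (p.subgroupComap V) (clG_V h V) (surj_V V hp) θ (fun y => E (y : T)) hθ
    (hE.comp (V.comap p).subtype) hEθ
  have hres : ∀ ψ : ↥(V.comap p) → ℂ, (fun a : A => ext0 ψ (j a)) = resj (jV h V) ψ := by
    intro ψ
    funext a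
    have h1 : j a ∈ V.comap p := (jV h V a).2
    rw [ext0_of_mem ψ h1]
    rfl
  symm
  refine Nat.card_congr (Equiv.ofBijective (fun ζ => ⟨fun y => E (y : T) *
    ζ.1 (p.subgroupComap V y), (g1 ζ.1 ζ.2.1).1, ?_, ?_⟩) ⟨?_, ?_⟩)
  · rw [hres]
    exact (g1 ζ.1 ζ.2.1).2
  · exact (hPQ ζ.1 ζ.2.1 (g1 ζ.1 ζ.2.1).1 (g1 ζ.1 ζ.2.1).2).mpr ζ.2.2
  · intro ζ ζ' hζ
    exact Subtype.ext (g2 ζ.1 ζ'.1 ζ.2.1 ζ'.2.1 (congrArg Subtype.val hζ))
  · rintro ⟨ψ, hψ, hψ1, hψ2⟩
    rw [hres] at hψ1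
    obtain ⟨η, hη, rfl⟩ := g3 ψ hψ hψ1
    exact ⟨⟨η, hη, (hPQ η hη hψ hψ1).mp hψ2⟩, rfl⟩

theorem defect {ℓ : ℕ} [Fact ℓ.Prime] (h : ClG j c p) (hp : Function.Surjective p) {θ : A → ℂ}
    {E : T → ℂ} (hθ : IsIrr θ) (hEθ : ∀ a, E (j a) = θ a) {a : ℕ}
    (hd : HasDefect ℓ θ a) (hK : ¬ ℓ ∣ Nat.card K) (V : Subgroup K) (ζ : V → ℂ) (hζ : IsIrr ζ) :
    HasDefect ℓ (fun y : ↥(V.comap p) => E y * ζ (p.subgroupComap V y)) a := by
  classical
  have hf' : Fintype V := Fintype.ofFinite _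
  obtain ⟨m, hm, hm'⟩ := hd
  obtain ⟨n, hn, hn'⟩ := hζ.exists_degree
  have hV : ¬ ℓ ∣ Nat.card V := fun h1 => hK (h1.trans (Subgroup.card_subgroup_dvd_card V))
  have hnV : ¬ ℓ ∣ n := fun h1 => hV (h1.trans (hζ.degree_dvd hn'))
  have hm0 : m ≠ 0 := by
    rintro rfl
    exact hθ.one_ne_zero (by rw [hm]; simp)
  refine ⟨m * n, ?_, ?_⟩
  · have h1 : E ((1 : ↥(V.comap p)) : T) = m := by
      rw [← hm, ← hEθ 1, map_one]
      rfl
    have h2 : ζ (p.subgroupComap V 1) = n := by rw [map_one, hn']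
    change E ((1 : ↥(V.comap p)) : T) * ζ (p.subgroupComap V 1) = _
    rw [h1, h2]
    push_cast
    ring
  · rw [card_V h V hp, padicValNat.mul Nat.card_pos.ne' Nat.card_pos.ne', hm',
      padicValNat.mul hm0 hn.ne', padicValNat.eq_zero_of_not_dvd hV,
      padicValNat.eq_zero_of_not_dvd hnV]
    ring

omit [Fintype A] [Fintype K] in
/-- The weighted sums over the fibres for an inverse image. -/
theorem fib_V (V : Subgroup K) [hfin : Fintype ↥(V.comap p)] (E F : T → ℂ) (t : ℂ) (v : V) :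
    fib (p.subgroupComap V) (fun y : ↥(V.comap p) => E y) t (fun y => F y) v =
      fib p E t F (v : K) := by
  classical
  rw [fib, fib]
  congr 1
  have h1 := Finset.sum_subtype (Finset.univ.filter (fun x : T => x ∈ V.comap p))
    (p := fun x => x ∈ V.comap p) (F := hfin) (by simp) (fun x => if p x = v then F x * E x else 0)
  have h2 : ∑ x : T, (if p x = v then F x * E x else 0) =
      ∑ x ∈ Finset.univ.filter (fun x : T => x ∈ V.comap p),
        (if p x = v then F x * E x else 0) := by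
    symm
    apply Finset.sum_subset (Finset.subset_univ _)
    intro x _ hx
    rw [if_neg]
    intro h3
    apply hx
    rw [Finset.mem_filter]
    refine ⟨Finset.mem_univ _, ?_⟩
    change p x ∈ V
    rw [h3]
    exact v.2
  have h4 : ∀ x : ↥(V.comap p), (p.subgroupComap V x = v ↔ p (x : T) = (v : K)) := by
    intro x
    constructor
    · intro h5
      exact congrArg Subtype.val h5
    · intro h5
      exact Subtype.ext h5
  calc _ = ∑ x : ↥(V.comap p), (if p (x : T) = (v : K) then F x * E x else 0) := by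
        refine Finset.sum_congr rfl fun x _ => ?_
        by_cases hx : p (x : T) = (v : K)
        · rw [if_pos ((h4 x).mpr hx), if_pos hx]
        · rw [if_neg (fun h5 => hx ((h4 x).mp h5)), if_neg hx]
    _ = _ := by
        rw [h2, h1]

omit [Fintype A] [Fintype T] [Fintype K] in
theorem AIv_congr {M : Type} (h : ClG j c p) {u : T → M} (hu : AIv j u) {x y : T}
    (hxy : p x = p y) (z : T) : u (x⁻¹ * z * x) = u (y⁻¹ * z * y) := by
  have h1 : p (y⁻¹ * x) = 1 := by rw [map_mul, map_inv, hxy, inv_mul_cancel]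
  obtain ⟨o, ho⟩ := (h.ker _).mp h1
  have h2 : x = y * j o := by
    rw [ho]
    group
  have h3 : x⁻¹ * z * x = j o⁻¹ * (y⁻¹ * z * y) * (j o⁻¹)⁻¹ := by
    rw [h2, map_inv]
    group
  rw [h3]
  exact hu o⁻¹ _

end Frame

/-! ### Class functions -/

theorem wt_scale {V : Type} [Group V] [Fintype V] (𝔐 : Ideal (integralClosure ℤ ℂ))
    {ζ : V → ℂ} (hζ : IsIrr ζ) (F N : V → ℂ) (hF : ∀ g x, F (g * x * g⁻¹) = F x)
    (hFi : ∀ x, IsIntegral ℤ (F x)) (hN : ∀ g x, N (g * x * g⁻¹) = N x)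
    (hNi : ∀ x, IsIntegral ℤ (N x)) (L : (integralClosure ℤ ℂ) ⧸ 𝔐)
    (h : ∀ v, red 𝔐 (F v) = red 𝔐 (N v) * L) : red 𝔐 (wt ζ F) = L * red 𝔐 (wt ζ N) := by
  classical
  have h1 := red_wt_eq_pair 𝔐 (MonoidHom.id V) hζ F hF hFi
  have h2 := red_wt_eq_pair 𝔐 (MonoidHom.id V) hζ N hN hNi
  have h3 : (fun y => F (MonoidHom.id V y)) = F := rfl
  have h4 : (fun y => N (MonoidHom.id V y)) = N := rfl
  rw [h3] at h1
  rw [h4] at h2
  rw [h1, h2, pair, pair, finsum_eq_sum_of_fintype, finsum_eq_sum_of_fintype, Finset.mul_sum]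
  refine Finset.sum_congr rfl fun C _ => ?_
  rw [h]
  ring

section Num

variable {V : Type} [Group V] [Fintype V]

/-- The number of the elements of `V` which conjugate `s` to `v`. -/
noncomputable def nm (s v : V) : ℂ := (Nat.card {v' : V // v' * s * v'⁻¹ = v} : ℂ)

omit [Fintype V] in
theorem nm_conj (s g v : V) : nm s (g * v * g⁻¹) = nm s v := by
  rw [nm, nm]
  congr 1
  refine Nat.card_congr
    { toFun := fun x => ⟨g⁻¹ * x.1, ?_⟩
      invFun := fun x => ⟨g * x.1, ?_⟩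
      left_inv := ?_
      right_inv := ?_ }
  · have h1 := x.2
    calc g⁻¹ * x.1 * s * (g⁻¹ * x.1)⁻¹ = g⁻¹ * (x.1 * s * x.1⁻¹) * g := by group
      _ = v := by rw [h1]; group
  · have h1 := x.2
    calc g * x.1 * s * (g * x.1)⁻¹ = g * (x.1 * s * x.1⁻¹) * g⁻¹ := by group
      _ = g * v * g⁻¹ := by rw [h1]
  · intro x
    apply Subtype.ext
    simp
  · intro x
    apply Subtype.ext
    simp

omit [Fintype V] in
theorem nm_int (s v : V) : IsIntegral ℤ (nm s v) :=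
  Pool.Agent.Lib_helper13.isIntegral_natCast _

theorem nm_eq [DecidableEq V] (s v : V) : nm s v = ∑ x : V, if x * s * x⁻¹ = v then 1 else 0 := by
  rw [nm, Finset.sum_boole, Nat.card_eq_fintype_card, Fintype.card_subtype]

theorem wt_nm (V' : Subgroup V) [Fintype V'] (ζ : V' → ℂ) (s : V) :
    wt ζ (fun v : V' => nm s (v : V)) = (∑ v : V, ext0 ζ (v * s * v⁻¹)) / ζ 1 := by
  classical
  rw [wt]
  congr 1
  simp only [nm_eq, Finset.sum_mul]
  rw [Finset.sum_comm]
  refine Finset.sum_congr rfl fun x _ => ?_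
  by_cases hx : x * s * x⁻¹ ∈ V'
  · rw [ext0_of_mem ζ hx, Finset.sum_eq_single (⟨x * s * x⁻¹, hx⟩ : V')]
    · simp
    · intro b _ hb
      rw [if_neg, zero_mul]
      intro h1
      exact hb (Subtype.ext h1.symm)
    · intro h1
      exact absurd (Finset.mem_univ _) h1
  · rw [ext0_of_not_mem ζ hx]
    apply Finset.sum_eq_zero
    intro b _
    rw [if_neg, zero_mul]
    intro h1
    exact hx (h1 ▸ b.2)

end Num

/-! ### The fibre product -/

section Fib

variable {O X V H : Type} [Group O] [Group X] [Group V] [Group H] {j : O →* X}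
  {c : X →* MulAut O} {p : X →* H}

theorem mem_YSf (h : ClG j c p) (g : V →* H) (τ : Finset (Subgroup O)) (x : fpr p g) :
    x ∈ YS (finj h g) τ ↔ (x : X × V).1 ∈ YS j τ := by
  rw [mem_YS_iff (clG_f h g), mem_YS_iff h]
  rfl

/-- The first projection. -/
noncomputable def al (h : ClG j c p) (g : V →* H) (τ : Finset (Subgroup O)) :
    YS (finj h g) τ →* YS j τ :=
  ((ffst p g).comp (YS (finj h g) τ).subtype).codRestrict (YS j τ)
    (fun x => (mem_YSf h g τ (x : fpr p g)).mp x.2)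

theorem al_p (h : ClG j c p) (g : V →* H) (τ : Finset (Subgroup O)) (b : YS (finj h g) τ) :
    pS p j τ (al h g τ b) = g (pS (fsnd p g) (finj h g) τ b) :=
  mem_fpr.mp (b : fpr p g).2

theorem al_ex (h : ClG j c p) (g : V →* H) (τ : Finset (Subgroup O)) (t : YS j τ) (v : V)
    (htv : pS p j τ t = g v) :
    ∃! b, al h g τ b = t ∧ pS (fsnd p g) (finj h g) τ b = v := by
  refine ⟨⟨⟨((t : X), v), htv⟩, (mem_YSf h g τ _).mpr t.2⟩, ⟨rfl, rfl⟩, ?_⟩
  rintro b ⟨hb1, hb2⟩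
  apply Subtype.ext
  apply Subtype.ext
  apply Prod.ext
  · exact congrArg Subtype.val hb1
  · exact hb2

theorem be_surj (h : ClG j c p) (g : V →* H) (τ : Finset (Subgroup O))
    (hs : Function.Surjective (pS p j τ)) :
    Function.Surjective (pS (fsnd p g) (finj h g) τ) := by
  intro v
  obtain ⟨t, ht⟩ := hs (g v)
  obtain ⟨b, hb, -⟩ := al_ex h g τ t v ht
  exact ⟨b, hb.2⟩

theorem uY_conj [Fintype V] (h : ClG j c p) (g : V →* H) {t : V → X} (ht : ∀ v, p (t v) = g v)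
    {u : X → ℤ} (hu : AIv j u) (s : V) (y b : fpr p g) :
    uY p g t u s (y * b * y⁻¹) = uY p g t u s b := by
  classical
  rw [uY, uY]
  refine Fintype.sum_equiv (Equiv.mulLeft ((y : X × V).2⁻¹)) _ _ fun v => ?_
  have h1 : ((y * b * y⁻¹ : fpr p g) : X × V).2 =
      (y : X × V).2 * (b : X × V).2 * (y : X × V).2⁻¹ := rfl
  have h2 : ((y * b * y⁻¹ : fpr p g) : X × V).1 =
      (y : X × V).1 * (b : X × V).1 * (y : X × V).1⁻¹ := rfl
  have h3 : v⁻¹ * ((y * b * y⁻¹ : fpr p g) : X × V).2 * v =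
      (Equiv.mulLeft ((y : X × V).2⁻¹) v)⁻¹ * (b : X × V).2 *
        Equiv.mulLeft ((y : X × V).2⁻¹) v := by
    rw [h1, Equiv.coe_mulLeft]
    group
  have h4 : (t v)⁻¹ * ((y * b * y⁻¹ : fpr p g) : X × V).1 * t v =
      ((y : X × V).1⁻¹ * t v)⁻¹ * (b : X × V).1 * ((y : X × V).1⁻¹ * t v) := by
    rw [h2]
    group
  have h5 : p ((y : X × V).1⁻¹ * t v) = p (t (Equiv.mulLeft ((y : X × V).2⁻¹) v)) := by
    rw [map_mul, map_inv, ht, ht, Equiv.coe_mulLeft, map_mul, map_inv, mem_fpr.mp y.2]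
  rw [h3, h4, AIv_congr h hu h5]

theorem uY_int [Fintype V] (g : V →* H) (t : V → X) (u : X → ℤ) (s : V) (b : fpr p g) :
    IsIntegral ℤ (uY p g t u s b) := by
  classical
  rw [uY]
  apply isIntegral_sum
  intro v _
  split_ifs
  · exact isIntegral_algebraMap (R := ℤ) (A := ℂ) (x := (u _ : ℤ))
  · exact isIntegral_zero

/-- The first condition of `PY`. -/
theorem first [Fintype O] [Finite X] [Finite V] (h : ClG j c p) (g : V →* H)
    (𝔐 : Ideal (integralClosure ℤ ℂ)) (τ τ₀ : Finset (Subgroup O)) (θ : stb τ → ℂ)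
    (θ₀ : stb τ₀ → ℂ) (hθ : IsIrr θ) (hθ₀ : IsIrr θ₀)
    (hc : cen 𝔐 (stb τ).subtype θ = cen 𝔐 (stb τ₀).subtype θ₀) (o : O) :
    cen 𝔐 ((finj h g).comp (stb τ).subtype) θ (finj h g o) =
      cen 𝔐 ((finj h g).comp (stb τ₀).subtype) θ₀ (finj h g o) := by
  have h1 : ∀ y x : O, conjInd (finj h g (y * x * y⁻¹)) (finj h g o) =
      conjInd (finj h g x) (finj h g o) := by
    intro y x
    rw [map_mul, map_mul, map_inv, conjInd_conj]
  have h2 : ∀ x : O, IsIntegral ℤ (conjInd (finj h g x) (finj h g o)) :=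
    fun x => isIntegral_conjInd _ _
  have h3 := red_wt_eq_pair 𝔐 (stb τ).subtype hθ
    (fun x => conjInd (finj h g x) (finj h g o)) h1 h2
  have h4 := red_wt_eq_pair 𝔐 (stb τ₀).subtype hθ₀
    (fun x => conjInd (finj h g x) (finj h g o)) h1 h2
  rw [hc, ← h4] at h3
  exact h3

end Fib

end YCB

theorem YCB_thm (h1 : Stmt_YVL) (h2 : Stmt_YSL) : Stmt_YCB := by
  classical
  intro O X H W _ _ _ _ _ _ _ _ 𝔐 ℓ _ hM hℓ j c p h hp a Z Λ π R μ Lm hF τ₀ θ₀ hP₀ ν hν V hV
    t ht u hu χ hχ y hy τ θ hP V' hV'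
  have hRn : R.Normal := hF.Rn
  have hSn : (R.subgroupOf V).Normal := inferInstance
  have hpr : 𝔐.IsPrime := hM.isPrime
  -- the frame of the fibre product
  have hg := clG_f h (π.comp V.subtype)
  have hgS := clG_S (clG_f h (π.comp V.subtype)) τ
  have hbs := YCB.be_surj h (π.comp V.subtype) τ hP.fp.1
  have hRD := hF.rds τ θ hP
  obtain ⟨E, hE, hE1, hE2⟩ := hRD.ext (YS (finj h (π.comp V.subtype)) τ) V hV V.subtype
    (YCB.al h (π.comp V.subtype) τ)
    (pS (fsnd p (π.comp V.subtype)) (finj h (π.comp V.subtype)) τ)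
    (YCB.al_p h (π.comp V.subtype) τ) (YCB.al_ex h (π.comp V.subtype) τ)
  have hEθ : ∀ o, E (jS (clG_f h (π.comp V.subtype)) τ o) = θ o := by
    intro o
    exact hE1 _ o rfl rfl
  -- the elements of the stabilizer
  have hex : ∀ v : V, ∃ x : YS j τ, pS p j τ x = π v := fun v => hP.fp.1 (π v)
  choose t' ht' using hex
  have hirr : ∀ {G : Type} [Group G] [Finite G] (f : G →* ℂˣ) (x : G),
      IsIntegral ℤ ((f x : ℂˣ) : ℂ) := by
    intro G _ _ f x
    apply IsIntegral.of_pow (n := Nat.card G) Nat.card_pos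
    have h3 : ((f x : ℂˣ) : ℂ) ^ Nat.card G = 1 := by
      rw [← Units.val_pow_eq_pow_val, ← map_pow, pow_card_eq_one', map_one, Units.val_one]
    rw [h3]
    exact isIntegral_one
  -- the linear character
  have hlam : ∃ lam : R.subgroupOf V →* ℂˣ, ∀ (s : V) (hs : s ∈ R.subgroupOf V),
      lam ⟨s, hs⟩ = χ ⟨s, hs⟩ * ν τ θ ⟨(s : W), Subgroup.mem_subgroupOf.mp hs⟩ :=
    ⟨χ * ((ν τ θ).comp (V.subtype.subgroupComap R) : R.subgroupOf V →* ℂˣ), fun s hs => rfl⟩
  obtain ⟨lam, hlam⟩ := hlam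
  have hlami : ∀ (v : V) (r r' : R.subgroupOf V), (r' : V) = v * r * v⁻¹ → lam r' = lam r := by
    rintro v ⟨r, hr⟩ ⟨r', hr'⟩ hrr
    rw [hlam, hlam, hχ v ⟨r, hr⟩ ⟨r', hr'⟩ hrr]
    congr 1
    apply hν.inv τ θ hP v
    change (r' : W) = v * r * (v : W)⁻¹
    have h3 : r' = v * r * v⁻¹ := hrr
    rw [h3]
    rfl
  have hY' := h2 V 𝔐 ℓ hM hℓ hV (R.subgroupOf V) lam hlami V' hV'
  rw [NT]
  refine congrArg Nat.cast (YCB.count hgS hbs hP.irr hE hEθ V' (fun ψ => HasDefect ℓ ψ a ∧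
    cen 𝔐 ((YS (finj h (π.comp V.subtype)) τ).subtype.comp (V'.comap
      (pS (fsnd p (π.comp V.subtype)) (finj h (π.comp V.subtype)) τ)).subtype) ψ ∈
      PY h (π.comp V.subtype) 𝔐 τ₀ θ₀ t (R.subgroupOf V) u y)
    (fun ζ => ∀ (s : V) (hs : s ∈ R.subgroupOf V) (hs' : s ∈ V'),
        ζ ⟨s, hs'⟩ = ζ 1 * (((χ ⟨s, hs⟩ : ℂˣ) : ℂ) *
          ((ν τ θ ⟨(s : W), Subgroup.mem_subgroupOf.mp hs⟩ : ℂˣ) : ℂ))) ?_)
  intro ζ hζ hψ hψθ
  have hY := hY' ζ hζ
  have hdef := YCB.defect hgS hbs hP.irr hEθ hP.df hV V' ζ hζ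
  have hfirst : ∀ o, cen 𝔐 ((YS (finj h (π.comp V.subtype)) τ).subtype.comp (V'.comap
      (pS (fsnd p (π.comp V.subtype)) (finj h (π.comp V.subtype)) τ)).subtype)
        (fun y => E y * ζ ((pS (fsnd p (π.comp V.subtype)) (finj h (π.comp V.subtype))
          τ).subgroupComap V' y)) (finj h (π.comp V.subtype) o) =
      cen 𝔐 ((finj h (π.comp V.subtype)).comp (stb τ₀).subtype) θ₀
        (finj h (π.comp V.subtype) o) := by
    intro o
    have hker : (finj h (π.comp V.subtype)).range = (fsnd p (π.comp V.subtype)).ker := by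
      ext x
      rw [MonoidHom.mem_ker]
      exact (hg.ker x).symm
    have h3 := RCE_thm (stb τ) ↥(V'.comap (pS (fsnd p (π.comp V.subtype))
      (finj h (π.comp V.subtype)) τ)) V' (fpr p (π.comp V.subtype)) 𝔐 (YCB.jV hgS V') _ _
      (YCB.clG_V hgS V') ((YS (finj h (π.comp V.subtype)) τ).subtype.comp (V'.comap
      (pS (fsnd p (π.comp V.subtype)) (finj h (π.comp V.subtype)) τ)).subtype)
      (finj h (π.comp V.subtype)).range (by rw [hker]; infer_instance) (by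
        rintro x ⟨o', ho'⟩
        have h4 : pS (fsnd p (π.comp V.subtype)) (finj h (π.comp V.subtype)) τ x = 1 := by
          change fsnd p (π.comp V.subtype) _ = 1
          rw [hg.ker]
          exact ⟨o', ho'⟩
        obtain ⟨b, hb⟩ := (hgS.ker _).mp h4
        exact ⟨b, Subtype.ext hb⟩) _ θ hψ hP.irr hψθ (finj h (π.comp V.subtype) o) ⟨o, rfl⟩
    refine h3.trans ?_
    exact YCB.first h (π.comp V.subtype) 𝔐 τ τ₀ θ θ₀ hP.irr hP₀.irr (hP.cn.trans hP₀.cn.symm) o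
  -- the second condition
  have hsecond : ∀ s (hs : s ∈ R.subgroupOf V),
      (pair 𝔐 (uY p (π.comp V.subtype) t (u s) s)
        (cen 𝔐 ((YS (finj h (π.comp V.subtype)) τ).subtype.comp (V'.comap
      (pS (fsnd p (π.comp V.subtype)) (finj h (π.comp V.subtype)) τ)).subtype)
        (fun y => E y * ζ ((pS (fsnd p (π.comp V.subtype)) (finj h (π.comp V.subtype))
          τ).subgroupComap V' y))) = (Nat.card V : ℕ) * y s ↔
      red 𝔐 ((∑ v : V, ext0 ζ (v * s * v⁻¹)) / ζ 1) =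
        (Nat.card V : ℕ) * red 𝔐 ((lam ⟨s, hs⟩ : ℂˣ) : ℂ)) := by
    intro s hs
    obtain ⟨hu1, hu2, hu3⟩ := hu s hs
    have hcl := YCB.uY_conj h (π.comp V.subtype) ht hu1 s
    have hint := YCB.uY_int (p := p) (π.comp V.subtype) t (u s) s
    rw [← red_wt_eq_pair 𝔐 _ hψ _ hcl hint]
    obtain ⟨f1, f2, f3, f4⟩ := FIBI_thm (stb τ) ↥(V'.comap (pS (fsnd p (π.comp V.subtype))
      (finj h (π.comp V.subtype)) τ)) V' 𝔐 (YCB.jV hgS V') _ _ (YCB.clG_V hgS V') θ
      (fun y => E y) hP.irr (hE.comp (V'.comap (pS (fsnd p (π.comp V.subtype))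
      (finj h (π.comp V.subtype)) τ)).subtype) hEθ
    rw [f4 ζ]
    have hu' : AIv (jS h τ) (fun x : YS j τ => u s x) := fun o x => hu1 (o : O) (x : X)
    have hYV := h1 (stb τ) (YS j τ) H W (YS (finj h (π.comp V.subtype)) τ) V 𝔐 ℓ hM hℓ a
      (jS h τ) (pS p j τ) θ π (μ τ θ) (Lm τ θ) hRD
      (fun x o => ⟨cS h τ x o, (clG_S h τ).act x o⟩) hP.irr V.subtype
      (YCB.al h (π.comp V.subtype) τ)
      (pS (fsnd p (π.comp V.subtype)) (finj h (π.comp V.subtype)) τ)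
      (YCB.al_p h (π.comp V.subtype) τ) (jS (clG_f h (π.comp V.subtype)) τ)
      (cS (clG_f h (π.comp V.subtype)) τ) hgS (fun _ => rfl) E hE hEθ hE2
      (fun x : YS j τ => u s x) hu' s t' ht'
    have hYV' : ∀ v : V, red 𝔐 (fib (pS (fsnd p (π.comp V.subtype)) (finj h (π.comp V.subtype)) τ)
        E (θ 1) (fun b : YS (finj h (π.comp V.subtype)) τ =>
          uY p (π.comp V.subtype) t (u s) s (b : fpr p (π.comp V.subtype))) v) =
        (Nat.card {v' : V // v' * s * v'⁻¹ = v} : ℕ) * Lm τ θ (fun x => u s x) s := by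
      intro v
      refine (congrArg (red 𝔐) (congrArg (fun F => fib (pS (fsnd p (π.comp V.subtype))
        (finj h (π.comp V.subtype)) τ) E (θ 1) F v) (funext fun b => ?_))).trans (hYV v)
      rw [uY]
      refine Finset.sum_congr rfl fun v' _ => ?_
      have h5 : p (t v') = p (t' v' : X) := (ht v').trans (ht' v').symm
      have h6 := YCB.AIv_congr h hu1 h5 ((b : fpr p (π.comp V.subtype)) : X × V).1
      by_cases h7 : v'⁻¹ * ((b : fpr p (π.comp V.subtype)) : X × V).2 * v' = s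
      · have h8 : v'⁻¹ * pS (fsnd p (π.comp V.subtype)) (finj h (π.comp V.subtype)) τ b * v' = s :=
          h7
        rw [if_pos h7, if_pos h8, h6]
        rfl
      · have h8 : ¬ v'⁻¹ * pS (fsnd p (π.comp V.subtype)) (finj h (π.comp V.subtype)) τ b * v' =
          s := h7
        rw [if_neg h7, if_neg h8]
    have hscale := YCB.wt_scale 𝔐 hζ (fib ((pS (fsnd p (π.comp V.subtype))
        (finj h (π.comp V.subtype)) τ).subgroupComap V')
        (fun y => E y) (θ 1) (fun y => uY p (π.comp V.subtype) t (u s) s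
          ((YS (finj h (π.comp V.subtype)) τ).subtype.comp (V'.comap
          (pS (fsnd p (π.comp V.subtype)) (finj h (π.comp V.subtype)) τ)).subtype y)))
      (fun v : V' => YCB.nm s (v : V)) ?_ ?_ ?_ ?_ (Lm τ θ (fun x => u s x) s) ?_
    rotate_left
    · intro w v
      obtain ⟨y', rfl⟩ := YCB.surj_V V' hbs w
      exact f3 _ (fun y' x => hcl _ _) y' v
    · exact f1 _ (fun o x => hcl _ _) (fun x => hint _)
    · intro w v
      exact YCB.nm_conj s (w : V) (v : V)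
    · intro v
      exact YCB.nm_int s (v : V)
    · intro v
      have h6 := YCB.fib_V (p := pS (fsnd p (π.comp V.subtype)) (finj h (π.comp V.subtype)) τ)
        V' E (fun b => uY p (π.comp V.subtype) t (u s) s (b : fpr p (π.comp V.subtype)))
        (θ 1) v
      refine (congrArg (red 𝔐) h6).trans ((hYV' v).trans ?_)
      congr 1
      have h7 := red_natCast_mul 𝔐 (Nat.card {v' : V // v' * s * v'⁻¹ = (v : V)})
        (isIntegral_one (R := ℤ) (B := ℂ))
      rw [mul_one, red_one, nsmul_one] at h7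
      exact h7.symm
    have hL := hν.rel τ θ hP (u s) hu1 ⟨(s : W), Subgroup.mem_subgroupOf.mp hs⟩
    rw [hy s hs]
    have hL0 : Lm τ θ (fun x => u s x) s ≠ 0 := by
      intro h7
      apply hu3
      refine hL.trans ?_
      rw [h7, mul_zero]
    have h8 : red 𝔐 ((lam ⟨s, hs⟩ : ℂˣ) : ℂ) = red 𝔐 ((χ ⟨s, hs⟩ : ℂˣ) : ℂ) *
        red 𝔐 ((ν τ θ ⟨(s : W), Subgroup.mem_subgroupOf.mp hs⟩ : ℂˣ) : ℂ) := by
      rw [hlam, Units.val_mul, red_mul 𝔐 (hirr _ _) (hirr _ _)]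
    have h9 := YCB.wt_nm V' ζ s
    rw [h9] at hscale
    refine (Eq.congr_left hscale).trans ?_
    rw [h8]
    have h10 : ((Nat.card V : ℕ) : (integralClosure ℤ ℂ) ⧸ 𝔐) *
        (Lm τ₀ θ₀ (fun x => u s x) s * red 𝔐 ((χ ⟨s, hs⟩ : ℂˣ) : ℂ)) =
        Lm τ θ (fun x => u s x) s * ((Nat.card V : ℕ) * (red 𝔐 ((χ ⟨s, hs⟩ : ℂˣ) : ℂ) *
        red 𝔐 ((ν τ θ ⟨(s : W), Subgroup.mem_subgroupOf.mp hs⟩ : ℂˣ) : ℂ))) := by
      have hL' : Lm τ₀ θ₀ (fun x => u s x) s =
        red 𝔐 ((ν τ θ ⟨(s : W), Subgroup.mem_subgroupOf.mp hs⟩ : ℂˣ) : ℂ) *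
          Lm τ θ (fun x => u s x) s := hL
      rw [hL']
      ring
    rw [h10]
    exact mul_right_inj' hL0
  constructor
  · rintro ⟨-, -, h4⟩ s hs hs'
    have h5 := hY.mp (fun s hs => (hsecond s hs).mp (h4 s hs)) s hs hs'
    rw [h5, hlam, Units.val_mul]
  · intro h4
    refine ⟨hdef, hfirst, fun s hs => (hsecond s hs).mpr (hY.mpr (fun s hs hs' => ?_) s hs)⟩
    rw [h4 s hs hs', hlam, Units.val_mul]

end Pool.Agent.DPN


end
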