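import Mathlib
import Pool.Agent.DAM.C18
import Pool.Agent.DAM.C19
import Pool.Agent.DAM.C22
import Pool.Agent.DAM.C24
import Pool.Agent.DAM.C26
import Pool.Agent.DAM.C28
import Pool.Agent.DAM.C32
import Pool.Agent.DAM.C33
import Pool.Agent.DAM.C39
import Pool.Agent.DAM.C40
import Pool.Agent.DAM.C44
import Pool.Agent.DAM.C50
import Pool.Agent.DAM.C67
import Pool.Agent.DAM.C69

/-! Parts: DPX.OSIX, DPT.DGSB, DPG.BEM, DPG.NPT, DPG.PSN, DPG.RIY, DPG.DWNA, DPG.DWN, DPG.TROA, DPG.TROB, DPG.TRO, DPG.POL, DPG.UPP, DPH.DTP -/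

section

/-!
# OSIX: orthogonality for the elements whose order is divisible by `ℓ`
-/

set_option autoImplicit false
set_option linter.unusedSectionVars false

namespace Pool.Agent.DPX

open Pool.Agent.DP Pool.Agent.DPB Pool.Agent.DPW Pool.Agent.Lib_helper13 Representation

namespace OSIX

section Mat

variable {T R : Type} [Group T] [Fintype T] [CommRing R]

open Classical in
/-- The matrices of the left multiplications. -/
noncomputable def lm (T R : Type) [Group T] [Fintype T] [CommRing R] : T →* Matrix T T R where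
  toFun g := Matrix.of fun x y => if x = g * y then 1 else 0
  map_one' := by
    ext x y
    rw [Matrix.of_apply, Matrix.one_apply, one_mul]
  map_mul' g h := by
    ext x y
    rw [Matrix.mul_apply, Finset.sum_eq_single (h * y)]
    · simp only [Matrix.of_apply, if_true, mul_one, mul_assoc]
    · intro z _ hz
      rw [Matrix.of_apply, Matrix.of_apply, if_neg hz, mul_zero]
    · intro h
      exact absurd (Finset.mem_univ _) h

open Classical in
theorem lm_apply (g x y : T) : lm T R g x y = if x = g * y then 1 else 0 := rfl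

theorem lm_mul_apply (g : T) (A : Matrix T T R) (x y : T) :
    (lm T R g * A) x y = A (g⁻¹ * x) y := by
  classical
  rw [Matrix.mul_apply, Finset.sum_eq_single (g⁻¹ * x)]
  · rw [lm_apply, if_pos (by group), one_mul]
  · intro z _ hz
    rw [lm_apply, if_neg, zero_mul]
    intro h
    apply hz
    rw [h, inv_mul_cancel_left]
  · intro h
    exact absurd (Finset.mem_univ _) h

theorem mul_lm_apply (g : T) (A : Matrix T T R) (x y : T) :
    (A * lm T R g) x y = A x (g * y) := by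
  classical
  rw [Matrix.mul_apply, Finset.sum_eq_single (g * y)]
  · rw [lm_apply, if_pos rfl, mul_one]
  · intro z _ hz
    rw [lm_apply, if_neg hz, mul_zero]
  · intro h
    exact absurd (Finset.mem_univ _) h

theorem lm_mulVec {K : Type} [CommRing K] (f : R →+* K) (g : T) (v : T → K) (x : T) :
    ((lm T R g).map f).mulVec v x = v (g⁻¹ * x) := by
  classical
  rw [Matrix.mulVec, dotProduct, Finset.sum_eq_single (g⁻¹ * x)]
  · rw [Matrix.map_apply, lm_apply, if_pos (by group), map_one, one_mul]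
  · intro z _ hz
    rw [Matrix.map_apply, lm_apply, if_neg, map_zero, zero_mul]
    intro h
    apply hz
    rw [h, inv_mul_cancel_left]
  · intro h
    exact absurd (Finset.mem_univ _) h

/-- The matrix of the right multiplication by a function. -/
def rm (a : T → R) : Matrix T T R := Matrix.of fun x y => a (y⁻¹ * x)

theorem rm_apply (a : T → R) (x y : T) : rm a x y = a (y⁻¹ * x) := rfl

theorem lm_rm (g : T) (a : T → R) : lm T R g * rm a = rm a * lm T R g := by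
  ext x y
  rw [lm_mul_apply, mul_lm_apply, rm_apply, rm_apply]
  congr 1
  group

theorem rm_rm {a : T → R} (ha : ∀ x, ∑ y, a y * a (y⁻¹ * x) = a x) : rm a * rm a = rm a := by
  ext x y
  rw [Matrix.mul_apply, rm_apply, ← ha (y⁻¹ * x)]
  refine Fintype.sum_equiv (Equiv.mulLeft y⁻¹) _ _ fun z => ?_
  rw [rm_apply, rm_apply, mul_comm]
  congr 1
  have : (Equiv.mulLeft y⁻¹) z = y⁻¹ * z := rfl
  rw [this]
  congr 1
  group

theorem trace_eq (g : T) {a : T → R} (ha : ∀ g x, a (g * x * g⁻¹) = a x) :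
    (lm T R g * rm a).trace = Fintype.card T • a g⁻¹ := by
  rw [Matrix.trace]
  have h : ∀ x, (lm T R g * rm a).diag x = a g⁻¹ := by
    intro x
    rw [Matrix.diag_apply, lm_mul_apply, rm_apply]
    have := ha x⁻¹ g⁻¹
    rw [inv_inv] at this
    rw [← this]
    congr 1
    group
  rw [Finset.sum_congr rfl fun x _ => h x, Finset.sum_const, Finset.card_univ]

/-- A function which is invariant under a cyclic group of order `ℓ` is a trace. -/
theorem exists_trace {K : Type} [CommRing K] {ℓ : ℕ} {u : T} (hu : orderOf u = ℓ) (hℓ : 0 < ℓ)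
    (v : T → K) (hv : ∀ x, v (u⁻¹ * x) = v x) :
    ∃ w : T → K, ∀ x, v x = ∑ i ∈ Finset.range ℓ, w ((u ^ i)⁻¹ * x) := by
  classical
  obtain ⟨H, hH⟩ : ∃ H, H = Subgroup.zpowers u := ⟨_, rfl⟩
  obtain ⟨rep, hrep⟩ : ∃ rep : T → T, ∀ x, rep x =
      (Quotient.mk (QuotientGroup.rightRel H) x).out := ⟨_, fun _ => rfl⟩
  have h1 : ∀ x, ∃ h ∈ H, rep x = h * x := by
    intro x
    have h2 : (QuotientGroup.rightRel H) (rep x) x := by
      rw [hrep]
      exact Quotient.mk_out x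
    rw [QuotientGroup.rightRel_apply] at h2
    refine ⟨rep x * x⁻¹, ?_, by group⟩
    have h3 := H.inv_mem h2
    rwa [mul_inv_rev, inv_inv] at h3
  have h4 : ∀ x h, h ∈ H → rep (h * x) = rep x := by
    intro x h hh
    rw [hrep, hrep]
    congr 1
    apply Quotient.sound
    change (QuotientGroup.rightRel H) _ _
    rw [QuotientGroup.rightRel_apply]
    have : x * (h * x)⁻¹ = h⁻¹ := by group
    rw [this]
    exact H.inv_mem hh
  have hvp : ∀ (i : ℕ) x, v ((u ^ i)⁻¹ * x) = v x := by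
    intro i
    induction i with
    | zero => intro x; simp
    | succ i ih =>
      intro x
      have : (u ^ (i + 1))⁻¹ * x = u⁻¹ * ((u ^ i)⁻¹ * x) := by
        rw [pow_succ]
        group
      rw [this, hv, ih]
  have hmem : ∀ i : ℕ, (u ^ i)⁻¹ ∈ H := by
    intro i
    rw [hH]
    exact Subgroup.inv_mem _ (Subgroup.pow_mem _ (Subgroup.mem_zpowers u) i)
  refine ⟨fun x => if x = rep x then v x else 0, fun x => ?_⟩
  obtain ⟨h, hh, hx⟩ := h1 x
  obtain ⟨i, hi, hui⟩ : ∃ i < ℓ, u ^ i = h⁻¹ := by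
    have h2 : h⁻¹ ∈ Subgroup.zpowers u := by
      rw [← hH]
      exact H.inv_mem hh
    have h3 : IsOfFinOrder u := isOfFinOrder_of_finite u
    rw [← h3.mem_powers_iff_mem_zpowers, h3.mem_powers_iff_mem_range_orderOf] at h2
    obtain ⟨i, hi, hi'⟩ := Finset.mem_image.1 h2
    exact ⟨i, by rwa [Finset.mem_range, hu] at hi, hi'⟩
  rw [Finset.sum_eq_single i]
  · have h5 : (u ^ i)⁻¹ * x = rep ((u ^ i)⁻¹ * x) := by
      rw [h4 x _ (hmem i), hui, inv_inv, hx]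
    change v x = if (u ^ i)⁻¹ * x = rep ((u ^ i)⁻¹ * x) then v ((u ^ i)⁻¹ * x) else 0
    rw [if_pos h5, hvp]
  · intro j hj hji
    change (if (u ^ j)⁻¹ * x = rep ((u ^ j)⁻¹ * x) then v ((u ^ j)⁻¹ * x) else 0) = 0
    rw [if_neg]
    intro h5
    rw [h4 x _ (hmem j), hx] at h5
    have h6 : (u ^ j)⁻¹ = h := mul_right_cancel h5
    have h7 : u ^ j = u ^ i := by
      rw [hui, ← h6, inv_inv]
    apply hji
    have h8 : j ∈ Set.Iio (orderOf u) := by
      rw [hu]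
      exact Finset.mem_range.1 hj
    have h9 : i ∈ Set.Iio (orderOf u) := by
      rw [hu]
      exact hi
    exact pow_injOn_Iio_orderOf h8 h9 h7
  · intro h5
    exact absurd (Finset.mem_range.2 hi) h5

end Mat

/-- The decomposition of an element into commuting factors of coprime orders. -/
theorem parts {T : Type} [Group T] [Finite T] {ℓ : ℕ} [hp : Fact ℓ.Prime] (g : T)
    (hg : ℓ ∣ orderOf g) :
    ∃ (k r : ℕ) (u s : T), ¬ ℓ ∣ r ∧ u ^ ℓ ^ (k + 1) = 1 ∧ s ^ r = 1 ∧ u * s = g ∧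
      u * s = s * u ∧ orderOf (u ^ ℓ ^ k) = ℓ := by
  have hpos : orderOf g ≠ 0 := (orderOf_pos g).ne'
  obtain ⟨a, r, hr, hn⟩ := Nat.exists_eq_pow_mul_and_not_dvd hpos ℓ hp.out.ne_one
  rcases a with _ | k
  · exfalso
    rw [pow_zero, one_mul] at hn
    rw [hn] at hg
    exact hr hg
  have hco : Nat.Coprime (ℓ ^ (k + 1)) r :=
    Nat.Coprime.pow_left _ ((Nat.Prime.coprime_iff_not_dvd hp.out).2 hr)
  obtain ⟨y, x, hxy⟩ := Nat.isCoprime_iff_coprime.2 hco
  have hgn : g ^ ((ℓ ^ (k + 1) * r : ℕ) : ℤ) = 1 := by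
    rw [zpow_natCast, ← hn, pow_orderOf_eq_one]
  refine ⟨k, r, g ^ (x * r), g ^ (y * ((ℓ ^ (k + 1) : ℕ) : ℤ)), hr, ?_, ?_, ?_, ?_, ?_⟩
  · rw [← zpow_natCast, ← zpow_mul]
    have : x * (r : ℤ) * ((ℓ ^ (k + 1) : ℕ) : ℤ) = ((ℓ ^ (k + 1) * r : ℕ) : ℤ) * x := by
      push_cast
      ring
    rw [this, zpow_mul, hgn, one_zpow]
  · rw [← zpow_natCast, ← zpow_mul]
    have : y * ((ℓ ^ (k + 1) : ℕ) : ℤ) * (r : ℤ) = ((ℓ ^ (k + 1) * r : ℕ) : ℤ) * y := by
      push_cast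
      ring
    rw [this, zpow_mul, hgn, one_zpow]
  · rw [← zpow_add]
    have : x * (r : ℤ) + y * ((ℓ ^ (k + 1) : ℕ) : ℤ) = 1 := by
      rw [← hxy]
      ring
    rw [this, zpow_one]
  · rw [← zpow_add, ← zpow_add, add_comm]
  · apply orderOf_eq_prime
    · rw [← pow_mul, ← pow_succ, ← zpow_natCast, ← zpow_mul]
      have : x * (r : ℤ) * ((ℓ ^ (k + 1) : ℕ) : ℤ) = ((ℓ ^ (k + 1) * r : ℕ) : ℤ) * x := by
        push_cast
        ring
      rw [this, zpow_mul, hgn, one_zpow]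
    · intro h
      rw [← zpow_natCast, ← zpow_mul] at h
      have h1 := orderOf_dvd_iff_zpow_eq_one.2 h
      rw [hn] at h1
      have h2 : ((ℓ ^ k * r : ℕ) : ℤ) * (ℓ : ℤ) ∣ ((ℓ ^ k * r : ℕ) : ℤ) * x := by
        have e1 : ((ℓ ^ k * r : ℕ) : ℤ) * (ℓ : ℤ) = ((ℓ ^ (k + 1) * r : ℕ) : ℤ) := by
          push_cast
          ring
        have e2 : ((ℓ ^ k * r : ℕ) : ℤ) * x = x * (r : ℤ) * ((ℓ ^ k : ℕ) : ℤ) := by
          push_cast
          ring
        rw [e1, e2]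
        exact h1
      have hr0 : r ≠ 0 := by
        rintro rfl
        exact hr (dvd_zero _)
      have h3 : ((ℓ ^ k * r : ℕ) : ℤ) ≠ 0 := by
        exact_mod_cast Nat.mul_ne_zero (pow_ne_zero _ hp.out.ne_zero) hr0
      have h4 : (ℓ : ℤ) ∣ x := (mul_dvd_mul_iff_left h3).1 h2
      have h5 : (ℓ : ℤ) ∣ 1 := by
        rw [← hxy]
        refine dvd_add ?_ (h4.mul_right _)
        push_cast
        rw [pow_succ]
        exact (dvd_mul_left _ _).mul_left _
      have h6 : ℓ ∣ 1 := by exact_mod_cast h5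
      exact hp.out.one_lt.ne' (Nat.dvd_one.1 h6)

end OSIX

open _root_.Pool.Agent.DPX.OSIX in
/-- OSIX: orthogonality for the elements whose order is divisible by `ℓ`. -/
theorem OSIX_thm (h1 : Stmt_VALX) (h2 : Stmt_IDOX) (h3 : Stmt_VANX) : Stmt_OSIX := by
  classical
  intro T _ _ 𝔐 ℓ _ hmax hℓ χ₀ hχ₀ g hg
  obtain ⟨O, hO⟩ := h1 𝔐 ℓ hmax hℓ
  obtain ⟨eh, hcl, hval, hwt, -, -⟩ := h2 𝔐 ℓ hmax hℓ O hO T χ₀ hχ₀
  obtain ⟨k, r, u, s, hr, hu, hs, hus, hcom, hord⟩ := parts g hg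
  -- the idempotent
  have hE : (fun x => (eh x : ℂ)) ∈ CF ℂ T := fun g x =>
    congrArg (fun t : O => (t : ℂ)) (hcl g x)
  have hid : cvF (fun x => (eh x : ℂ)) (fun x => (eh x : ℂ)) = fun x => (eh x : ℂ) := by
    have hf : (fun x : T => cvF (fun x => (eh x : ℂ)) (fun x => (eh x : ℂ)) x⁻¹ - (eh x⁻¹ : ℂ)) =
        0 := by
      refine class_fn_eq_zero _ ?_ ?_
      · intro g x
        have e1 : (g * x * g⁻¹)⁻¹ = g * x⁻¹ * g⁻¹ := by group
        rw [e1, IDMB.cvF_mem hE hE g x⁻¹, hcl]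
      · intro χ hχ
        have e2 : ∑ g : T, (cvF (fun x => (eh x : ℂ)) (fun x => (eh x : ℂ)) g⁻¹ - (eh g⁻¹ : ℂ)) *
            χ g⁻¹ = ∑ g : T, (cvF (fun x => (eh x : ℂ)) (fun x => (eh x : ℂ)) g - (eh g : ℂ)) *
            χ g := Fintype.sum_equiv (Equiv.inv T) _ _ fun g => rfl
        rw [e2]
        have e3 := IDMB.wt_cv hχ hE hE
        rw [hwt χ hχ] at e3
        have e4 := hwt χ hχ
        have e5 : wt χ (cvF (fun x => (eh x : ℂ)) (fun x => (eh x : ℂ))) =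
            wt χ (fun x => (eh x : ℂ)) := by
          rw [e3, e4]
          split_ifs <;> simp
        unfold wt at e5
        rw [div_left_inj' hχ.one_ne_zero] at e5
        simp only [sub_mul]
        rw [Finset.sum_sub_distrib, e5, sub_self]
    funext x
    have := congrFun hf x⁻¹
    simp only [inv_inv] at this
    exact sub_eq_zero.1 this
  have hid' : ∀ x, ∑ y, eh y * eh (y⁻¹ * x) = eh x := by
    intro x
    apply Subtype.ext
    have := congrFun hid x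
    rw [← this]
    unfold cvF
    push_cast
    rfl
  -- the matrices
  let e := Fintype.equivFin T
  let R := Matrix.reindexAlgEquiv O O e
  have hRU : ∀ i : ℕ, (R (lm T O u)) ^ i = R (lm T O (u ^ i)) := fun i => by
    rw [← map_pow, ← map_pow]
  have hRmap : ∀ (A : Matrix T T O) (v : Fin (Fintype.card T) → IsLocalRing.ResidueField O)
      (x : T), ((R A).map (IsLocalRing.residue O)).mulVec v (e x) =
        (A.map (IsLocalRing.residue O)).mulVec (fun y => v (e y)) x := by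
    intro A v x
    rw [Matrix.mulVec, dotProduct, Matrix.mulVec, dotProduct]
    refine (Fintype.sum_equiv e _ _ fun y => ?_).symm
    have : R A (e x) (e y) = A x y := by
      change A (e.symm (e x)) (e.symm (e y)) = A x y
      rw [e.symm_apply_apply, e.symm_apply_apply]
    rw [Matrix.map_apply, Matrix.map_apply, this]
  have hfin := h3 O ℓ k r (Fintype.card T) hO.chr hr (R (lm T O u)) (R (lm T O s)) (R (rm eh))
    (by rw [hRU, hu, map_one, map_one]) (by rw [← map_pow, ← map_pow, hs, map_one, map_one])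
    (by rw [← map_mul, rm_rm hid'])
    (by rw [← map_mul, ← map_mul, ← map_mul, ← map_mul, hcom])
    (by rw [← map_mul, ← map_mul, lm_rm]) (by rw [← map_mul, ← map_mul, lm_rm])
    (by
      intro v _ hv
      rw [hRU] at hv
      have hv' : ∀ x, (fun y => v (e y)) ((u ^ ℓ ^ k)⁻¹ * x) = (fun y => v (e y)) x := by
        intro x
        have e1 := congrFun hv (e x)
        rw [hRmap, lm_mulVec] at e1
        exact e1
      obtain ⟨w, hw⟩ := exists_trace hord (Fact.out : ℓ.Prime).pos (fun y => v (e y)) hv'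
      refine ⟨fun i => w (e.symm i), ?_⟩
      funext i
      obtain ⟨x, rfl⟩ := e.surjective i
      rw [Finset.sum_apply]
      have e2 : v (e x) = _ := hw x
      rw [e2]
      refine Finset.sum_congr rfl fun i _ => ?_
      rw [hRU, ← map_pow, ← map_pow, hRmap, lm_mulVec]
      congr 1
      simp only [e.symm_apply_apply])
  rw [← map_mul, ← map_mul, ← map_mul, hus] at hfin
  have htr : ∀ A : Matrix T T O, (R A).trace = A.trace := by
    intro A
    rw [Matrix.trace, Matrix.trace]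
    refine (Fintype.sum_equiv e _ _ fun x => ?_).symm
    change A x x = A (e.symm (e x)) (e.symm (e x))
    rw [e.symm_apply_apply]
  rw [htr, trace_eq g hcl] at hfin
  have h5 : (Fintype.card T : ℂ) * (eh g⁻¹ : ℂ) = 0 := by
    have := congrArg (fun t : O => (t : ℂ)) hfin
    rw [nsmul_eq_mul] at this
    push_cast at this
    exact this
  rw [hval, inv_inv, Nat.card_eq_fintype_card, mul_div_cancel₀] at h5
  · exact h5
  · exact_mod_cast Fintype.card_ne_zero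

end Pool.Agent.DPX


end

section

/-!
# DGSB: existence, values and uniqueness of the correspondence for subgroups
-/

namespace Pool.Agent.DPT

open Pool.Agent.DP Pool.Agent.DPC Pool.Agent.DPM Pool.Agent.DPN Pool.Agent.Lib_helper13
open Representation
open Pool.Agent.Lib_helper13.Dade (pCore DadeHolds dadeSum)

namespace DGSB

variable {G : Type} [Group G]

/-- The fixed points of the action are the centralizer. -/
noncomputable def eFX {N R : Subgroup G} (κ : R →* MulAut N)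
    (h : ∀ n : N, n ∈ FX κ ⊤ ↔ (n : G) ∈ cN N R) : ↥(FX κ ⊤) ≃* ↥(cN N R) where
  toFun n := ⟨((n : N) : G), (h n).mp n.2⟩
  invFun x := ⟨⟨(x : G), x.2.1⟩, (h _).mpr x.2⟩
  left_inv _ := rfl
  right_inv _ := rfl
  map_mul' _ _ := rfl

theorem ext0_fun {S : Subgroup G} (ψ : S → ℂ) : (fun s : S => ext0 ψ (s : G)) = ψ := by
  funext s
  rw [ext0_of_mem ψ s.2]

theorem id_loc [Fintype G] {N R : Subgroup G} {ℓ : ℕ} (κ : R →* MulAut N)
    (h : ∀ n : N, n ∈ FX κ ⊤ ↔ (n : G) ∈ cN N R) {θ' : G → ℂ} (hθ : ID ℓ (cN N R) 0 θ') :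
    IsIrr (fun n : ↥(FX κ ⊤) => θ' ((n : N) : G)) ∧
      HasDefect ℓ (fun n : ↥(FX κ ⊤) => θ' ((n : N) : G)) 0 := by
  refine ⟨?_, ?_⟩
  · exact hθ.1.1.comp_mulEquiv (eFX κ h)
  · exact (hasDefect_comp_equiv (eFX κ h)).mpr hθ.2

end DGSB

open _root_.Pool.Agent.DPT.DGSB in
theorem DGSB_thm (h1 : Stmt_DGSA) (h2 : Stmt_DGN) (h3 : Stmt_DGV) (h4 : Stmt_DGT)
    (h5 : Stmt_DGJ) : Stmt_DGSB := by
  intro G _ _ 𝔐 ℓ _ hM hℓ N R hR hN
  obtain ⟨κ, hκ, hF, hD⟩ := h1 G 𝔐 N R hN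
  have hT : IsPGroup ℓ (⊤ : Subgroup R) := hR.to_subgroup _
  refine ⟨?_, ?_, ?_, ?_⟩
  · intro θ' hθ'
    obtain ⟨i1, i2⟩ := id_loc κ hF hθ'
    obtain ⟨ξ, x1, x2, x3⟩ := h2 N R 𝔐 ℓ hM hℓ κ ⊤ hT _ i1 i2
    refine ⟨ext0 ξ, ⟨⟨?_, fun x hx => ext0_of_not_mem ξ hx⟩, ?_⟩, ?_⟩
    · rw [ext0_fun]
      exact x1
    · rw [ext0_fun]
      exact x2
    · refine (hD θ' (ext0 ξ)).mp ?_
      rw [ext0_fun]
      exact x3
  · intro θ' θ hθ' hθ hDG
    obtain ⟨i1, i2⟩ := id_loc κ hF hθ'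
    have hDr := (hD θ' θ).mpr hDG
    refine ⟨?_, ?_⟩
    · intro r hr
      have hv := h3 N R 𝔐 ℓ hM hℓ κ ⊤ hT _ _ i1 hθ.1.1 hθ.2 hDr ⟨r, hr⟩ trivial
      rw [mem_sx]
      intro x
      by_cases hx : x ∈ N
      · have h := hv ⟨x, hx⟩
        have e := hκ ⟨r, hr⟩ ⟨x, hx⟩
        simp only at h e
        rw [e] at h
        exact h
      · have hx' : r * x * r⁻¹ ∉ N := by
          intro hc
          apply hx
          have h := hN r⁻¹ (R.inv_mem hr) _ hc
          have e : r⁻¹ * (r * x * r⁻¹) * r⁻¹⁻¹ = x := by group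
          rwa [e] at h
        rw [hθ.1.2 _ hx, hθ.1.2 _ hx']
    · obtain ⟨ε, he, hv, -⟩ := h4 N R 𝔐 ℓ hM hℓ κ ⊤ hT _ _ i1 i2 hθ.1.1 hθ.2 hDr
      exact ⟨ε, he, fun x hx => hv ⟨⟨x, hx.1⟩, (hF _).mpr hx⟩⟩
  · intro θ' θ₁ θ₂ hθ' hθ₁ hθ₂ hd₁ hd₂
    obtain ⟨i1, i2⟩ := id_loc κ hF hθ'
    have h := (h5 N R 𝔐 ℓ hM hℓ κ ⊤ hT).1 _ _ _ i1 hθ₁.1.1 hθ₁.2 hθ₂.1.1
      ((hD θ' θ₁).mpr hd₁) ((hD θ' θ₂).mpr hd₂)
    funext x
    by_cases hx : x ∈ N
    · exact congrFun h ⟨x, hx⟩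
    · rw [hθ₁.1.2 _ hx, hθ₂.1.2 _ hx]
  · intro θ₁ θ₂ θ hθ₁ hθ₂ hθ hd₁ hd₂
    obtain ⟨i1, i2⟩ := id_loc κ hF hθ₁
    obtain ⟨j1, j2⟩ := id_loc κ hF hθ₂
    have h := (h5 N R 𝔐 ℓ hM hℓ κ ⊤ hT).2 _ _ _ i1 i2 j1 j2 hθ.1.1 hθ.2
      ((hD θ₁ θ).mpr hd₁) ((hD θ₂ θ).mpr hd₂)
    funext x
    by_cases hx : x ∈ cN N R
    · exact congrFun h ⟨⟨x, hx.1⟩, (hF _).mpr hx⟩
    · rw [hθ₁.1.2 _ hx, hθ₂.1.2 _ hx]

end Pool.Agent.DPT


end

section

/-!
# BEM: invariant pairs with the same central function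
-/

set_option autoImplicit false

namespace Pool.Agent.DPG

open Pool.Agent.DP Pool.Agent.DPC Pool.Agent.DPM Pool.Agent.DPN Pool.Agent.DPF
  Pool.Agent.Lib_helper13 Representation
open Pool.Agent.Lib_helper13.Dade (pCore DadeHolds dadeSum)

namespace BEM

section

variable {L : Type} [Group L] [Fintype L] {𝔐 : Ideal (integralClosure ℤ ℂ)}

/-- The scalar of a function supported on a subgroup. -/
theorem sc_sub (S : Subgroup L) [Fintype S] {F : L → ℂ} (hF : ∀ x, x ∉ S → F x = 0)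
    (u : L → ℤ) :
    sc 𝔐 F u = red 𝔐 (wt (fun s : S => F s) (fun s : S => ((u s : ℤ) : ℂ))) := by
  classical
  have h1 : ∑ x, ((u x : ℤ) : ℂ) * F x = ∑ s : S, ((u s : ℤ) : ℂ) * F s := by
    rw [← Finset.sum_filter_of_ne (p := fun x => x ∈ S)]
    · exact Finset.sum_subtype _ (by simp) _
    · intro x _ hx
      by_contra h
      exact hx (by rw [hF x h, mul_zero])
  rw [sc, wt, h1]
  rfl

open Classical in
/-- The integral indicator function of a class. -/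
noncomputable def cI (g x : L) : ℤ := if IsConj x g then 1 else 0

theorem cI_cast (g x : L) : ((cI g x : ℤ) : ℂ) = conjInd x g := by
  classical
  rw [cI, conjInd]
  split_ifs
  · simp
  · simp

theorem cg_eq (F : L → ℂ) (g : L) : cg 𝔐 F g = sc 𝔐 F (cI g) := by
  rw [cg, sc]
  congr 2
  refine Finset.sum_congr rfl fun x _ => ?_
  rw [cI_cast]

theorem cI_conj (g s x : L) : cI g (s * x * s⁻¹) = cI g x := by
  have h : ((cI g (s * x * s⁻¹) : ℤ) : ℂ) = ((cI g x : ℤ) : ℂ) := by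
    rw [cI_cast, cI_cast, conjInd_conj]
  exact_mod_cast h

theorem cI_not_mem (S : Subgroup L) [S.Normal] {g x : L} (hg : g ∈ S) (hx : x ∉ S) :
    cI g x = 0 := by
  rw [cI, if_neg]
  intro h
  obtain ⟨c, hc⟩ := isConj_iff.mp h.symm
  exact hx (hc ▸ Subgroup.Normal.conj_mem ‹S.Normal› g hg c)

/-- The central function on the whole group. -/
theorem cen_eq (S : Subgroup L) [S.Normal] [Fintype S] {F : L → ℂ} (hF : ∀ x, x ∉ S → F x = 0)
    {G : L → ℂ} (hFG : ∀ u : L → ℤ, CIv S u → SOn (S : Set L) u → sc 𝔐 F u = sc 𝔐 G u)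
    {ω : L → (integralClosure ℤ ℂ) ⧸ 𝔐} (hG : ∀ g ∈ S, cg 𝔐 G g = ω g) (g : L) :
    cen 𝔐 S.subtype (fun s : S => F s) g = open Classical in if g ∈ S then ω g else 0 := by
  classical
  have h1 : (fun y : S => conjInd (S.subtype y) g) = fun s : S => ((cI g s : ℤ) : ℂ) := by
    funext s
    rw [cI_cast]
    rfl
  rw [cen, h1]
  split_ifs with hg
  · rw [← sc_sub S hF, hFG (cI g) (fun s _ x => cI_conj g s x)
      (fun x hx => cI_not_mem S hg hx), ← cg_eq, hG g hg]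
  · have h2 : (fun s : S => ((cI g s : ℤ) : ℂ)) = fun _ => 0 := by
      funext s
      rw [cI, if_neg]
      · simp
      · intro h
        obtain ⟨c, hc⟩ := isConj_iff.mp h
        exact hg (hc ▸ Subgroup.Normal.conj_mem ‹S.Normal› _ s.2 c)
    rw [h2, wt]
    simp [red_zero]

/-- Conjugation by elements of the group. -/
theorem sc_conj {K : Type} [Group K] {π : L →* K} (hπ : Function.Surjective π) {M S : Subgroup K}
    [M.Normal] (hMS : M ⊔ S = ⊤) {G : L → ℂ} (hG : ∀ t, π t ∈ S → ∀ x, G (t * x * t⁻¹) = G x)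
    {u : L → ℤ} (hu : CIv (M.comap π) u) (l : L) :
    sc 𝔐 G (fun x => u (l * x * l⁻¹)) = sc 𝔐 G u := by
  have h1 : π l ∈ M ⊔ S := by
    rw [hMS]
    exact Subgroup.mem_top _
  obtain ⟨m, hm, t, ht, hmt⟩ := Subgroup.mem_sup_of_normal_left.mp h1
  obtain ⟨t', rfl⟩ := hπ t
  have hm' : π (l * t'⁻¹) = m := by
    rw [map_mul, map_inv, ← hmt, mul_inv_cancel_right]
  rw [sc, sc]
  congr 2
  refine Fintype.sum_equiv (MulAut.conj t').toEquiv _ _ fun x => ?_
  have h3 : (MulAut.conj t').toEquiv x = t' * x * t'⁻¹ := rfl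
  rw [h3, hG t' ht]
  congr 2
  have h4 := hu (l * t'⁻¹) (by rw [Subgroup.mem_comap, hm']; exact hm) (t' * x * t'⁻¹)
  rw [← h4]
  congr 1
  group

end

end BEM

open _root_.Pool.Agent.DPG.BEM in
/-- BEM: invariant pairs with the same central function on the classes of the group have the same
central function on the classes of the normal subgroup. -/
theorem BEM_thm (h1 : Stmt_IRC) : Stmt_BEM := by
  classical
  intro L K _ _ _ _ 𝔐 ℓ _ hmax hℓ π hπ hπc μ M _ ω σ σ' G G' hσ hσ' hG hG' u hu hus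
  haveI hS : (M.comap π).Normal := inferInstance
  haveI hfin : Fintype ↥(M.comap π) := Fintype.ofFinite _
  obtain ⟨χ, hχ, -, hχG⟩ := h1 L K 𝔐 ℓ hmax hℓ π hπ hπc μ M σ hσ G hG.irr hG.ovl
  obtain ⟨χ', hχ', -, hχG'⟩ := h1 L K 𝔐 ℓ hmax hℓ π hπ hπc μ M σ' hσ' G' hG'.irr hG'.ovl
  have hc := cen_eq (𝔐 := 𝔐) (M.comap π) hχ.2 hχG (ω := ω) (fun g hg => hG.cn g hg)
  have hc' := cen_eq (𝔐 := 𝔐) (M.comap π) hχ'.2 hχG' (ω := ω) (fun g hg => hG'.cn g hg)
  have hcc : cen 𝔐 (M.comap π).subtype (fun s : ↥(M.comap π) => χ s) =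
      cen 𝔐 (M.comap π).subtype (fun s : ↥(M.comap π) => χ' s) := by
    funext g
    rw [hc, hc']
  have hcl : ClG (M.comap π).subtype (MulAut.conjNormal : L →* MulAut ↥(M.comap π))
      (QuotientGroup.mk' (M.comap π)) := by
    refine ⟨Subtype.val_injective, fun y a => ?_, fun y => ?_⟩
    · exact MulAut.conjNormal_apply y a
    · rw [Subgroup.range_subtype, QuotientGroup.mk'_apply, QuotientGroup.eq_one_iff]
  obtain ⟨y, hy⟩ := Pool.Agent.DPW.COVW_thm (↥(M.comap π)) L (L ⧸ M.comap π) 𝔐 ℓ hmax hℓ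
    (M.comap π).subtype (MulAut.conjNormal : L →* MulAut ↥(M.comap π))
    (QuotientGroup.mk' (M.comap π)) hcl (fun s => χ s) (fun s => χ' s) hχ.1 hχ'.1 (by
      intro a ha hai
      have hf1 : ∀ g x, (ext0 a : L → ℂ) (g * x * g⁻¹) = ext0 a x := by
        intro g x
        by_cases hx : x ∈ M.comap π
        · have h2 : g * x * g⁻¹ ∈ M.comap π := hS.conj_mem x hx g
          rw [ext0_of_mem a hx, ext0_of_mem a h2, ← ha g ⟨x, hx⟩]
          congr 1
        · have h2 : g * x * g⁻¹ ∉ M.comap π := by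
            intro h3
            apply hx
            have h4 := hS.conj_mem _ h3 g⁻¹
            have h5 : g⁻¹ * (g * x * g⁻¹) * g⁻¹⁻¹ = x := by group
            rwa [h5] at h4
          rw [ext0_of_not_mem a hx, ext0_of_not_mem a h2]
      have hf2 : ∀ x, IsIntegral ℤ ((ext0 a : L → ℂ) x) := by
        intro x
        by_cases hx : x ∈ M.comap π
        · rw [ext0_of_mem a hx]
          exact hai _
        · rw [ext0_of_not_mem a hx]
          exact isIntegral_zero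
      have hf3 : (fun s : ↥(M.comap π) => (ext0 a : L → ℂ) ((M.comap π).subtype s)) = a := by
        funext s
        exact ext0_of_mem a s.2
      have e1 := red_wt_eq_pair 𝔐 (M.comap π).subtype hχ.1 (ext0 a) hf1 hf2
      have e2 := red_wt_eq_pair 𝔐 (M.comap π).subtype hχ'.1 (ext0 a) hf1 hf2
      rw [hf3] at e1 e2
      rw [e1, e2, hcc])
  -- the functions on the normal subgroup
  have hirr : IsIrr (fun x : ↥(M.comap π) => χ' (MulAut.conjNormal y x : ↥(M.comap π))) :=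
    hχ'.1.comp_mulEquiv (MulAut.conjNormal y)
  have hv : ∀ v : L → ℤ, CIv (M.comap π) v →
      red 𝔐 (wt (fun s : ↥(M.comap π) => χ s) (fun s => ((v s : ℤ) : ℂ))) =
      red 𝔐 (wt (fun x : ↥(M.comap π) => χ' (MulAut.conjNormal y x : ↥(M.comap π)))
        (fun s => ((v s : ℤ) : ℂ))) := by
    intro v hv
    have e1 := red_wt_eq_pair 𝔐 (MonoidHom.id ↥(M.comap π)) hχ.1
      (fun s => ((v s : ℤ) : ℂ)) (by
        intro g x
        have := hv g g.2 x
        simp only [Subgroup.coe_mul, Subgroup.coe_inv]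
        rw [this]) (fun x => Pool.Agent.Lib_helper13.isIntegral_intCast _)
    have e2 := red_wt_eq_pair 𝔐 (MonoidHom.id ↥(M.comap π)) hirr
      (fun s => ((v s : ℤ) : ℂ)) (by
        intro g x
        have := hv g g.2 x
        simp only [Subgroup.coe_mul, Subgroup.coe_inv]
        rw [this]) (fun x => Pool.Agent.Lib_helper13.isIntegral_intCast _)
    rw [hy] at e2
    exact e1.trans e2.symm
  have h2 : sc 𝔐 χ u = sc 𝔐 χ' (fun x => u (y⁻¹ * x * y⁻¹⁻¹)) := by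
    rw [sc_sub (M.comap π) hχ.2, sc_sub (M.comap π) hχ'.2, hv u hu]
    have h3 := wt_comp_equiv (MulAut.conjNormal y : ↥(M.comap π) ≃* ↥(M.comap π))
      (fun s : ↥(M.comap π) => χ' s)
      (fun s : ↥(M.comap π) => ((u (y⁻¹ * (s : L) * y⁻¹⁻¹) : ℤ) : ℂ))
    rw [← h3]
    congr 2
    funext s
    congr 2
    rw [MulAut.conjNormal_apply]
    group
  rw [← hχG u hu hus, h2, hχG' (fun x => u (y⁻¹ * x * y⁻¹⁻¹)), sc_conj hπ hG'.sj hG'.iv hu]
  · intro s hs x
    have h3 := hu (y⁻¹ * s * y⁻¹⁻¹) (hS.conj_mem s hs y⁻¹) (y⁻¹ * x * y⁻¹⁻¹)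
    change u (y⁻¹ * (s * x * s⁻¹) * y⁻¹⁻¹) = u (y⁻¹ * x * y⁻¹⁻¹)
    rw [← h3]
    congr 1
    group
  · intro x hx
    apply hus
    intro h3
    apply hx
    have h4 := hS.conj_mem _ h3 y
    have h5 : y * (y⁻¹ * x * y⁻¹⁻¹) * y⁻¹ = x := by group
    rwa [h5] at h4

end Pool.Agent.DPG


end

section

/-!
# NPT: the restriction to the normal subgroup `N` of a pair
-/

set_option autoImplicit false

namespace Pool.Agent.DPG

open Pool.Agent.DP Pool.Agent.DPC Pool.Agent.DPM Pool.Agent.DPN Pool.Agent.DPF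
  Pool.Agent.Lib_helper13 Representation
open Pool.Agent.Lib_helper13.Dade (pCore DadeHolds dadeSum)

namespace NPT

section

variable {L : Type} [Group L] [Fintype L] {𝔐 : Ideal (integralClosure ℤ ℂ)}

/-- Characters of a normal subgroup with the same central function on the classes of the group
belong to conjugate blocks. -/
theorem agree (ℓ : ℕ) [Fact ℓ.Prime] (hmax : 𝔐.IsMaximal)
    (hℓ : (ℓ : integralClosure ℤ ℂ) ∈ 𝔐) (S : Subgroup L) [hS : S.Normal] {χ χ' : L → ℂ}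
    (hχ : IrrOn S χ) (hχ' : IrrOn S χ') (hcg : ∀ g ∈ S, cg 𝔐 χ g = cg 𝔐 χ' g) :
    ∃ y : L, ∀ u : L → ℤ, CIv S u →
      sc 𝔐 χ u = sc 𝔐 χ' (fun x => u (y * x * y⁻¹)) := by
  classical
  haveI hfin : Fintype ↥S := Fintype.ofFinite _
  have hcc : cen 𝔐 S.subtype (fun s : ↥S => χ s) = cen 𝔐 S.subtype (fun s : ↥S => χ' s) := by
    funext g
    rw [BEM.cen_eq (𝔐 := 𝔐) S hχ.2 (G := χ) (fun _ _ _ => rfl)
      (ω := fun g => cg 𝔐 χ g) (fun g _ => rfl),
      BEM.cen_eq (𝔐 := 𝔐) S hχ'.2 (G := χ') (fun _ _ _ => rfl)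
      (ω := fun g => cg 𝔐 χ' g) (fun g _ => rfl)]
    split_ifs with hg
    · exact hcg g hg
    · rfl
  have hcl : ClG S.subtype (MulAut.conjNormal : L →* MulAut ↥S)
      (QuotientGroup.mk' S) := by
    refine ⟨Subtype.val_injective, fun y a => ?_, fun y => ?_⟩
    · exact MulAut.conjNormal_apply y a
    · rw [Subgroup.range_subtype, QuotientGroup.mk'_apply, QuotientGroup.eq_one_iff]
  obtain ⟨y, hy⟩ := Pool.Agent.DPW.COVW_thm (↥S) L (L ⧸ S) 𝔐 ℓ hmax hℓ
    S.subtype (MulAut.conjNormal : L →* MulAut ↥S)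
    (QuotientGroup.mk' S) hcl (fun s => χ s) (fun s => χ' s) hχ.1 hχ'.1 (by
      intro a ha hai
      have hf1 : ∀ g x, (ext0 a : L → ℂ) (g * x * g⁻¹) = ext0 a x := by
        intro g x
        by_cases hx : x ∈ S
        · have h2 : g * x * g⁻¹ ∈ S := hS.conj_mem x hx g
          rw [ext0_of_mem a hx, ext0_of_mem a h2, ← ha g ⟨x, hx⟩]
          congr 1
        · have h2 : g * x * g⁻¹ ∉ S := by
            intro h3
            apply hx
            have h4 := hS.conj_mem _ h3 g⁻¹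
            have h5 : g⁻¹ * (g * x * g⁻¹) * g⁻¹⁻¹ = x := by group
            rwa [h5] at h4
          rw [ext0_of_not_mem a hx, ext0_of_not_mem a h2]
      have hf2 : ∀ x, IsIntegral ℤ ((ext0 a : L → ℂ) x) := by
        intro x
        by_cases hx : x ∈ S
        · rw [ext0_of_mem a hx]
          exact hai _
        · rw [ext0_of_not_mem a hx]
          exact isIntegral_zero
      have hf3 : (fun s : ↥S => (ext0 a : L → ℂ) (S.subtype s)) = a := by
        funext s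
        exact ext0_of_mem a s.2
      have e1 := red_wt_eq_pair 𝔐 S.subtype hχ.1 (ext0 a) hf1 hf2
      have e2 := red_wt_eq_pair 𝔐 S.subtype hχ'.1 (ext0 a) hf1 hf2
      rw [hf3] at e1 e2
      rw [e1, e2, hcc])
  refine ⟨y⁻¹, fun u hu => ?_⟩
  have hirr : IsIrr (fun x : ↥S => χ' (MulAut.conjNormal y x : ↥S)) :=
    hχ'.1.comp_mulEquiv (MulAut.conjNormal y)
  have hv : red 𝔐 (wt (fun s : ↥S => χ s) (fun s => ((u s : ℤ) : ℂ))) =
      red 𝔐 (wt (fun x : ↥S => χ' (MulAut.conjNormal y x : ↥S))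
        (fun s => ((u s : ℤ) : ℂ))) := by
    have e1 := red_wt_eq_pair 𝔐 (MonoidHom.id ↥S) hχ.1
      (fun s => ((u s : ℤ) : ℂ)) (by
        intro g x
        have := hu g g.2 x
        simp only [Subgroup.coe_mul, Subgroup.coe_inv]
        rw [this]) (fun x => Pool.Agent.Lib_helper13.isIntegral_intCast _)
    have e2 := red_wt_eq_pair 𝔐 (MonoidHom.id ↥S) hirr
      (fun s => ((u s : ℤ) : ℂ)) (by
        intro g x
        have := hu g g.2 x
        simp only [Subgroup.coe_mul, Subgroup.coe_inv]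
        rw [this]) (fun x => Pool.Agent.Lib_helper13.isIntegral_intCast _)
    rw [hy] at e2
    exact e1.trans e2.symm
  rw [BEM.sc_sub S hχ.2, BEM.sc_sub S hχ'.2, hv]
  have h3 := wt_comp_equiv (MulAut.conjNormal y : ↥S ≃* ↥S)
    (fun s : ↥S => χ' s)
    (fun s : ↥S => ((u (y⁻¹ * (s : L) * y⁻¹⁻¹) : ℤ) : ℂ))
  rw [← h3]
  congr 2
  funext s
  congr 2
  rw [MulAut.conjNormal_apply]
  group

/-- The action by conjugation of `T` on `A`. -/
def cj (A T : Subgroup L) (hN : ∀ t ∈ T, ∀ a, a ∈ A ↔ t * a * t⁻¹ ∈ A) : T →* MulAut A where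
  toFun t :=
    { toFun := fun a => ⟨t * a * (t : L)⁻¹, (hN t t.2 a).mp a.2⟩
      invFun := fun a => ⟨(t : L)⁻¹ * a * t, by
        rw [hN t t.2]
        have e : (t : L) * ((t : L)⁻¹ * (a : L) * t) * (t : L)⁻¹ = a := by group
        rw [e]
        exact a.2⟩
      left_inv := fun a => Subtype.ext (by simp only []; group)
      right_inv := fun a => Subtype.ext (by simp only []; group)
      map_mul' := fun a b => Subtype.ext (by simp only [Subgroup.coe_mul]; group) }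
  map_one' := by
    ext a
    change (1 : L) * a * (1 : L)⁻¹ = a
    group
  map_mul' := by
    intro s t
    ext a
    change ((s : L) * t) * a * ((s : L) * t)⁻¹ = s * (t * a * (t : L)⁻¹) * (s : L)⁻¹
    group

theorem cj_apply (A T : Subgroup L) (hN : ∀ t ∈ T, ∀ a, a ∈ A ↔ t * a * t⁻¹ ∈ A) (t : T)
    (a : A) : ((cj A T hN t a : A) : L) = t * a * (t : L)⁻¹ := rfl

theorem normal (A T : Subgroup L) (hN : ∀ t ∈ T, ∀ a, a ∈ A ↔ t * a * t⁻¹ ∈ A) :
    (A.subgroupOf T).Normal := by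
  constructor
  intro a ha t
  rw [Subgroup.mem_subgroupOf] at ha ⊢
  exact (hN t t.2 a).mp ha

theorem clg (A T : Subgroup L) (hAT : A ≤ T)
    (hN : ∀ t ∈ T, ∀ a, a ∈ A ↔ t * a * t⁻¹ ∈ A) :
    haveI := normal A T hN
    ClG (Subgroup.inclusion hAT) (cj A T hN) (QuotientGroup.mk' (A.subgroupOf T)) := by
  haveI := normal A T hN
  refine ⟨Subgroup.inclusion_injective hAT, fun y a => Subtype.ext ?_, fun y => ?_⟩
  · rfl
  · rw [QuotientGroup.mk'_apply, QuotientGroup.eq_one_iff, Subgroup.mem_subgroupOf]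
    constructor
    · intro h
      exact ⟨⟨y, h⟩, Subtype.ext rfl⟩
    · rintro ⟨a, rfl⟩
      exact a.2

/-- A constituent of the restriction lies over the same linear character. -/
theorem ov {K : Type} [Group K] {π : L →* K} (hπc : π.ker ≤ Subgroup.center L)
    {μ : π.ker →* ℂˣ} {A T : Subgroup L} (hAT : A ≤ T) (hk : π.ker ≤ A) {θ : L → ℂ}
    (hθ : Ov π μ θ) {f : A → ℂ} [Fintype A] (hf : IsIrr f)
    (hip : ip (resj (Subgroup.inclusion hAT) (fun t : T => θ t)) f ≠ 0) :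
    Ov π μ (ext0 f : L → ℂ) := by
  classical
  intro z x
  have hzc : ∀ g : L, (z : L) * g = g * z := fun g =>
    ((Subgroup.mem_center_iff.mp (hπc z.2)) g).symm
  by_cases hx : x ∈ A
  · have hzx : (z : L) * x ∈ A := A.mul_mem (hk z.2) hx
    rw [ext0_of_mem f hx, ext0_of_mem f hzx]
    obtain ⟨c, hc⟩ := TWN.central hf (z := ⟨z, hk z.2⟩) (by
      intro g
      exact Subtype.ext (hzc g))
    have h1 : f ⟨(z : L) * x, hzx⟩ = c * f ⟨x, hx⟩ := hc ⟨x, hx⟩
    rw [h1]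
    congr 1
    -- the scalars agree
    have hs : ∑ s : A, θ s * f s⁻¹ ≠ 0 := by
      intro h
      apply hip
      rw [ip]
      have e : ∑ g : A, resj (Subgroup.inclusion hAT) (fun t : T => θ t) g * f g⁻¹ =
          ∑ s : A, θ s * f s⁻¹ := rfl
      rw [e, h, zero_div]
    have h2 : c * ∑ s : A, θ s * f s⁻¹ = ((μ z : ℂˣ) : ℂ) * ∑ s : A, θ s * f s⁻¹ := by
      rw [Finset.mul_sum, Finset.mul_sum]
      symm
      refine Fintype.sum_equiv (Equiv.mulLeft (⟨z, hk z.2⟩ : A)) _ _ fun s => ?_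
      have e1 : θ (((⟨z, hk z.2⟩ : A) * s : A) : L) = ((μ z : ℂˣ) : ℂ) * θ s := hθ z s
      have e2 : f s⁻¹ = c * f ((⟨z, hk z.2⟩ : A) * s)⁻¹ := by
        rw [← hc]
        congr 1
        apply Subtype.ext
        change (s : L)⁻¹ = (z : L) * ((z : L) * s)⁻¹
        rw [mul_inv_rev, hzc]
        group
      change ((μ z : ℂˣ) : ℂ) * (θ s * f s⁻¹) =
        c * (θ (((⟨z, hk z.2⟩ : A) * s : A) : L) * f ((⟨z, hk z.2⟩ : A) * s)⁻¹)
      rw [e1, e2]
      ring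
    exact mul_right_cancel₀ hs h2
  · have hzx : (z : L) * x ∉ A := by
      intro h
      apply hx
      have := A.mul_mem (A.inv_mem (hk z.2)) h
      rwa [inv_mul_cancel_left] at this
    rw [ext0_of_not_mem f hx, ext0_of_not_mem f hzx, mul_zero]

/-- Products of invariant functions are invariant. -/
theorem conv_civ {S : Subgroup L} {u v : L → ℤ} (hu : CIv S u) (hv : CIv S v) :
    CIv S (conv u v) := by
  intro g hg x
  rw [conv, conv]
  symm
  refine Fintype.sum_equiv (MulAut.conj g).toEquiv _ _ ?_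
  intro y
  have h1 : (MulAut.conj g).toEquiv y = g * y * g⁻¹ := rfl
  rw [h1, hu g hg]
  have h2 : (g * y * g⁻¹)⁻¹ * (g * x * g⁻¹) = g * (y⁻¹ * x) * g⁻¹ := by group
  rw [h2, hv g hg]

end

end NPT

open _root_.Pool.Agent.DPG.NPT in
/-- NPT: the restriction to `N` of a pair. -/
theorem NPT_thm (h1 : Stmt_IRC) (h2 : Stmt_SST) : Stmt_NPT := by
  classical
  intro L K _ _ _ _ 𝔐 ℓ _ hmax hℓ π hπ hπc μ N M _ _ hNM ω hSTB hSPP σ θ hσ hθ
  haveI hNn : (N.comap π).Normal := inferInstance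
  haveI : Fintype ↥(AL π N (stb σ)) := Fintype.ofFinite _
  haveI : Fintype ↥(AL π M (stb σ)) := Fintype.ofFinite _
  have hAT : AL π N (stb σ) ≤ AL π M (stb σ) :=
    Subgroup.comap_mono (inf_le_inf_right _ hNM)
  have hmem : ∀ (N' : Subgroup K) a, a ∈ AL π N' (stb σ) ↔ π a ∈ N' ∧ π a ∈ stb σ := by
    intro N' a
    rw [Subgroup.mem_comap, Subgroup.mem_inf]
  have hN0 : ∀ t, π t ∈ stb σ → ∀ a, a ∈ AL π N (stb σ) ↔ t * a * t⁻¹ ∈ AL π N (stb σ) := by
    intro t ht a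
    rw [hmem, hmem, map_mul, map_mul, map_inv]
    constructor
    · rintro ⟨h1, h2⟩
      exact ⟨Subgroup.Normal.conj_mem inferInstance _ h1 _,
        (stb σ).mul_mem ((stb σ).mul_mem ht h2) ((stb σ).inv_mem ht)⟩
    · rintro ⟨h1, h2⟩
      constructor
      · have := Subgroup.Normal.conj_mem (inferInstance : N.Normal) _ h1 (π t)⁻¹
        have e : (π t)⁻¹ * (π t * π a * (π t)⁻¹) * (π t)⁻¹⁻¹ = π a := by group
        rwa [e] at this
      · have := (stb σ).mul_mem ((stb σ).mul_mem ((stb σ).inv_mem ht) h2) ht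
        have e : (π t)⁻¹ * (π t * π a * (π t)⁻¹) * π t = π a := by group
        rwa [e] at this
  have hN : ∀ t ∈ AL π M (stb σ), ∀ a, a ∈ AL π N (stb σ) ↔
      t * a * t⁻¹ ∈ AL π N (stb σ) := fun t ht => hN0 t ((hmem M t).mp ht).2
  have hker : π.ker ≤ AL π N (stb σ) := by
    intro z hz
    rw [hmem, MonoidHom.mem_ker.mp hz]
    exact ⟨N.one_mem, (stb σ).one_mem⟩
  haveI hnq := normal _ _ hN
  have hcl := clg _ _ hAT hN
  obtain ⟨f', hf', hip⟩ := Cliff.exists_under hθ.irr.1 (Subgroup.inclusion hAT)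
  have hfe : (fun s : ↥(AL π N (stb σ)) => (ext0 f' : L → ℂ) s) = f' := by
    funext s
    exact ext0_of_mem f' s.2
  have hf : IrrOn (AL π N (stb σ)) (ext0 f') :=
    ⟨by rw [hfe]; exact hf', fun x hx => ext0_of_not_mem f' hx⟩
  have hov : Ov π μ (ext0 f' : L → ℂ) := ov hπc hAT hker hθ.ovl hf' hip
  obtain ⟨χ, hχ, hχo, hχs⟩ := h1 L K 𝔐 ℓ hmax hℓ π hπ hπc μ N σ hσ (ext0 f') hf hov
  -- the central function
  have hcg : ∀ g, π g ∈ N → cg 𝔐 χ g = ω g := by
    intro g hg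
    have hgN : g ∈ N.comap π := hg
    have hsu : SOn (N.comap π : Set L) (BEM.cI g) := fun x hx =>
      BEM.cI_not_mem (N.comap π) hgN hx
    rw [BEM.cg_eq, hχs (BEM.cI g) (fun s _ x => BEM.cI_conj g s x) hsu,
      ← hθ.cn g (hNM hg), BEM.cg_eq, BEM.sc_sub (AL π N (stb σ)) hf.2,
      BEM.sc_sub (AL π M (stb σ)) hθ.irr.2, hfe]
    have h3 := (SUMM_thm _ _ _ _ _ _ hcl).2.2.2 f' (fun t : ↥(AL π M (stb σ)) => θ t)
      (fun t => ((BEM.cI g t : ℤ) : ℂ)) hf' hθ.irr.1 hip (by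
        intro s x
        simp only [Subgroup.coe_mul, Subgroup.coe_inv]
        rw [BEM.cI_conj]) (by
        intro t ht
        rw [BEM.cI_not_mem (N.comap π) hgN, Int.cast_zero]
        intro h4
        apply ht
        refine ⟨⟨t, ?_⟩, Subtype.ext rfl⟩
        rw [hmem]
        exact ⟨h4, ((hmem M t).mp t.2).2⟩)
    rw [h3]
    rfl
  have hcvd : Cvd 𝔐 π μ N ω χ := ⟨hχ, hχo, hcg⟩
  -- the elements of the support
  have hsup : ∀ x, π x ∈ M → (∃ t, π t ∈ stb σ ∧ π (x⁻¹ * t) ∈ N) ∧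
      ∀ t, π t ∈ stb σ → π (x⁻¹ * t) ∈ N → ∀ y, (ext0 f' : L → ℂ) (t * y * t⁻¹) = ext0 f' y := by
    intro x hx
    obtain ⟨u, v, hu, hv, hus, hvs, hne⟩ := hSPP χ hcvd x hx
    apply h2 L K 𝔐 ℓ hmax hℓ π hπ hπc N σ hσ (ext0 f') hf x u v hu hv hus hvs
    rw [← hχs]
    · exact hne
    · exact conv_civ hu hv
    · intro y hy
      rw [conv]
      refine Finset.sum_eq_zero fun z _ => ?_
      by_cases hz : π (x⁻¹ * z) ∈ N
      · rw [hvs, mul_zero]
        intro h3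
        apply hy
        have h4 : π (x * (z⁻¹ * y)) ∈ N := h3
        have h5 : π x⁻¹ * (π (x * (z⁻¹ * y))) * (π x⁻¹)⁻¹ ∈ N :=
          Subgroup.Normal.conj_mem inferInstance _ h4 _
        have h6 := N.mul_mem (N.mul_mem hz h5) (N.one_mem)
        have h7 : π (x⁻¹ * z) * (π x⁻¹ * (π (x * (z⁻¹ * y))) * (π x⁻¹)⁻¹) * 1 =
            (π x)⁻¹ * π y * π x := by
          simp only [map_mul, map_inv]
          group
        rw [h7] at h6
        have h8 : π x * ((π x)⁻¹ * π y * π x) * (π x)⁻¹ ∈ N :=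
          Subgroup.Normal.conj_mem inferInstance _ h6 _
        have h9 : π x * ((π x)⁻¹ * π y * π x) * (π x)⁻¹ = π y := by group
        rw [h9] at h8
        exact h8
      · rw [hus z hz, zero_mul]
  have hinv : ∀ t, π t ∈ M → π t ∈ stb σ →
      ∀ y, (ext0 f' : L → ℂ) (t * y * t⁻¹) = ext0 f' y := by
    intro t htM ht
    refine (hsup t htM).2 t ht ?_
    rw [inv_mul_cancel, map_one]
    exact N.one_mem
  have htop : N ⊔ stb σ = ⊤ := by
    rw [eq_top_iff, ← hθ.sj]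
    refine sup_le ?_ le_sup_right
    intro m hm
    obtain ⟨x, rfl⟩ := hπ m
    obtain ⟨t, ht, htN⟩ := (hsup x hm).1
    have e : π x = π t * (π (x⁻¹ * t))⁻¹ := by
      rw [map_mul, map_inv]
      group
    rw [e]
    exact (N ⊔ stb σ).mul_mem (Subgroup.mem_sup_right ht)
      ((N ⊔ stb σ).inv_mem (Subgroup.mem_sup_left htN))
  -- the restriction of `θ`
  obtain ⟨e, he⟩ := (hθ.irr.1.resj (Subgroup.inclusion hAT)).exists_ip hf'.isChr
  have hres : ∀ x ∈ AL π N (stb σ), θ x = e * (ext0 f' : L → ℂ) x := by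
    intro x hx
    have h3 := congrFun (class_fn_expand (resj (Subgroup.inclusion hAT)
      (fun t : ↥(AL π M (stb σ)) => θ t)) (resj_class hθ.irr.1)) ⟨x, hx⟩
    have h4 : θ x = resj (Subgroup.inclusion hAT)
      (fun t : ↥(AL π M (stb σ)) => θ t) ⟨x, hx⟩ := rfl
    rw [h4, h3, Finset.sum_eq_single f']
    · rw [he, ext0_of_mem f' hx]
    · intro f'' hf'' hne
      by_cases h5 : ip (resj (Subgroup.inclusion hAT)
        (fun t : ↥(AL π M (stb σ)) => θ t)) f'' = 0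
      · rw [h5, zero_mul]
      · exfalso
        obtain ⟨y, hy⟩ := (SUMM_thm _ _ _ _ _ _ hcl).2.1 f' f''
          (fun t : ↥(AL π M (stb σ)) => θ t) hf' (mem_irrF.mp hf'') hθ.irr.1 hip h5
        apply hne
        funext a
        rw [← hy a]
        have h6 := hinv y ((hmem M y).mp y.2).1 ((hmem M y).mp y.2).2 a
        rw [ext0_of_mem f' a.2, ext0_of_mem f' ((hN y y.2 a).mp a.2)] at h6
        exact h6
    · intro h5
      exact absurd (mem_irrF.mpr hf') h5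
  have he0 : e ≠ 0 := by
    rintro rfl
    apply hip
    rw [he, Nat.cast_zero]
  refine ⟨ext0 f', e, he0, hf, hov, htop, ?_, hres, ⟨χ, hcvd⟩, ?_⟩
  · intro t ht x
    by_cases hx : x ∈ AL π N (stb σ)
    · have h3 := hθ.iv t ht x
      rw [hres x hx, hres _ ((hN0 t ht x).mp hx)] at h3
      exact mul_left_cancel₀ (Nat.cast_ne_zero.mpr he0) h3
    · rw [ext0_of_not_mem f' hx, ext0_of_not_mem f' (fun h => hx ((hN0 t ht x).mpr h))]
  · intro f0 hf0 u hu hus
    obtain ⟨y, hy⟩ := agree ℓ hmax hℓ (N.comap π) hχ hf0.1 (fun g hg => by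
      rw [hcg g hg, hf0.2.2 g hg])
    rw [← hχs u hu hus, hy u hu]
    exact hSTB f0 hf0 u hu hus y

end Pool.Agent.DPG


end

section

/-!
# PSN: no character of the inverse image of `N` covered by `ω` has minimal defect
-/

set_option autoImplicit false

namespace Pool.Agent.DPG

open Pool.Agent.DP Pool.Agent.DPC Pool.Agent.DPM Pool.Agent.DPN Pool.Agent.DPF
  Pool.Agent.Lib_helper13 Representation
open Pool.Agent.Lib_helper13.Dade (pCore DadeHolds dadeSum)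

namespace PSN

section

variable {L : Type} [Group L] [Fintype L] {𝔐 : Ideal (integralClosure ℤ ℂ)}

/-- Characters with the same scalars of the invariant functions belong to the same block. -/
theorem cen_id (S : Subgroup L) [Fintype S] {F G : L → ℂ} (hF : ∀ x, x ∉ S → F x = 0)
    (hG : ∀ x, x ∉ S → G x = 0)
    (h : ∀ u : L → ℤ, CIv S u → SOn (S : Set L) u → sc 𝔐 F u = sc 𝔐 G u) :
    cen 𝔐 (MonoidHom.id S) (fun s : S => F s) = cen 𝔐 (MonoidHom.id S) (fun s : S => G s) := by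
  classical
  funext g
  obtain ⟨u, hu1, hu2⟩ : ∃ u : L → ℤ, (∀ s : S, u s = if IsConj s g then 1 else 0) ∧
      ∀ x, x ∉ S → u x = 0 := by
    refine ⟨fun x => if h : x ∈ S then (if IsConj (⟨x, h⟩ : S) g then 1 else 0) else 0, ?_, ?_⟩
    · intro s
      simp only [s.2, dif_pos]
    · intro x hx
      simp only [hx, dif_neg, not_false_eq_true]
  have hu : CIv S u := by
    intro s hs x
    by_cases hx : x ∈ S
    · have h1 := hu1 (⟨s, hs⟩ * ⟨x, hx⟩ * ⟨s, hs⟩⁻¹)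
      have h2 := hu1 ⟨x, hx⟩
      have h3 : IsConj ((⟨s, hs⟩ * ⟨x, hx⟩ * ⟨s, hs⟩⁻¹ : S)) g ↔ IsConj (⟨x, hx⟩ : S) g := by
        have h4 : IsConj (⟨x, hx⟩ : S) (⟨s, hs⟩ * ⟨x, hx⟩ * ⟨s, hs⟩⁻¹) :=
          isConj_iff.mpr ⟨⟨s, hs⟩, rfl⟩
        exact ⟨fun h => h4.trans h, fun h => h4.symm.trans h⟩
      simp only [h3] at h1
      exact h1.trans h2.symm
    · have h1 : s * x * s⁻¹ ∉ S := by
        intro h2
        apply hx
        have h3 := S.mul_mem (S.mul_mem (S.inv_mem hs) h2) hs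
        have h4 : s⁻¹ * (s * x * s⁻¹) * s = x := by group
        rwa [h4] at h3
      rw [hu2 _ h1, hu2 _ hx]
  have h1 : (fun y : S => conjInd ((MonoidHom.id S) y) g) = fun s : S => ((u s : ℤ) : ℂ) := by
    funext s
    rw [hu1, conjInd]
    simp only [MonoidHom.id_apply]
    split_ifs
    · simp
    · simp
  rw [cen, cen, h1, ← BEM.sc_sub S hF, ← BEM.sc_sub S hG, h u hu hu2]

end

/-- Two characters of a block over the same linear character of a central subgroup `C` are equal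
if one of them has the defect of `C`. -/
theorem min_eq {N : Type} [Group N] [Fintype N] {𝔐 : Ideal (integralClosure ℤ ℂ)} {ℓ : ℕ}
    [Fact ℓ.Prime] (hmax : 𝔐.IsMaximal) (hℓ : (ℓ : integralClosure ℤ ℂ) ∈ 𝔐) (C : Subgroup N)
    (hC : C ≤ Subgroup.center N) (lam : C →* ℂˣ) {ψ χ : N → ℂ} (hψ : IsIrr ψ) (hχ : IsIrr χ)
    (hd : HasDefect ℓ ψ (padicValNat ℓ (Nat.card C)))
    (hc : cen 𝔐 (MonoidHom.id N) χ = cen 𝔐 (MonoidHom.id N) ψ)
    (hψl : ∀ (z : C) (x : N), ψ (z * x) = ((lam z : ℂˣ) : ℂ) * ψ x)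
    (hχl : ∀ (z : C) (x : N), χ (z * x) = ((lam z : ℂˣ) : ℂ) * χ x) : χ = ψ := by
  classical
  obtain ⟨P⟩ : Nonempty (Sylow ℓ C) := inferInstance
  have hcard : Nat.card ↥((P : Subgroup C).map C.subtype) = Nat.card P :=
    Nat.card_congr ((P : Subgroup C).equivMapOfInjective C.subtype
      C.subtype_injective).toEquiv.symm
  have hv : padicValNat ℓ (Nat.card ↥((P : Subgroup C).map C.subtype)) =
      padicValNat ℓ (Nat.card C) := by
    rw [hcard, Sylow.card_eq_multiplicity, padicValNat.prime_pow, Nat.factorization_def _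
      (Fact.out : ℓ.Prime)]
  have hle : (P : Subgroup C).map C.subtype ≤ C := by
    rintro _ ⟨x, -, rfl⟩
    exact x.2
  refine (MINX_thm N 𝔐 ℓ hmax hℓ ((P : Subgroup C).map C.subtype) (hle.trans hC)
    (P.2.map C.subtype) ψ hψ (by rw [hv]; exact hd)).2
    (lam.comp (Subgroup.inclusion hle)) χ ψ hχ hψ hc rfl ?_ ?_
  · intro z x
    exact hχl (Subgroup.inclusion hle z) x
  · intro z x
    exact hψl (Subgroup.inclusion hle z) x

/-- The defects of a character and of a constituent of its restriction to a normal subgroup of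
index prime to `ℓ`. -/
theorem defect {A Y K : Type} [Group A] [Fintype A] [Group Y] [Fintype Y] [Group K]
    {j : A →* Y} {c : Y →* MulAut A} {p : Y →* K} (hc : ClG j c p) {ℓ : ℕ} [Fact ℓ.Prime]
    (hcard : padicValNat ℓ (Nat.card Y) = padicValNat ℓ (Nat.card A)) {η : Y → ℂ} {κ : A → ℂ}
    (hη : IsIrr η) (hκ : IsIrr κ) (h0 : ip (resj j η) κ ≠ 0) {a : ℕ} (ha : HasDefect ℓ κ a) :
    HasDefect ℓ η a := by
  obtain ⟨d, hd⟩ := hη.exists_defect (ℓ := ℓ)
  have h1 : a ≤ d := all_DEFA A Y K ℓ j c p hc η κ hη hκ h0 d a hd ha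
  have hd' := hd
  obtain ⟨m, hm⟩ := DGI.degree_mul hc hη hκ h0
  obtain ⟨n, hn, hn'⟩ := hd
  obtain ⟨k, hk, hk'⟩ := ha
  have hn0 : n ≠ 0 := by
    rintro rfl
    exact hη.one_ne_zero (by rw [hn]; simp)
  have h2 : n = m * k := by
    have : (n : ℂ) = m * k := by rw [← hn, hm, hk]
    exact_mod_cast this
  have hm0 : m ≠ 0 := by
    rintro rfl
    exact hn0 (by rw [h2, zero_mul])
  have hk0 : k ≠ 0 := by
    rintro rfl
    exact hn0 (by rw [h2, mul_zero])
  have h3 : padicValNat ℓ n = padicValNat ℓ m + padicValNat ℓ k := by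
    rw [h2, padicValNat.mul hm0 hk0]
  have h4 : d = a := by omega
  rw [← h4]
  exact hd'

end PSN

open _root_.Pool.Agent.DPG.PSN in
/-- PSN: no character of the inverse image of `N` covered by `ω` has minimal defect. -/
theorem PSN_thm (h1 : Stmt_IRC) : Stmt_PSN := by
  classical
  intro L K _ _ _ _ 𝔐 ℓ _ hmax hℓ π hπ hπc μ N M _ _ hNM hidx ω hpos hSTB σ θ hσ hθ f0 hf0 f hf
    hfo hfs hdef
  haveI hNn : (N.comap π).Normal := inferInstance
  haveI hMn : (M.comap π).Normal := inferInstance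
  haveI : Fintype ↥(N.comap π) := Fintype.ofFinite _
  haveI : Fintype ↥(M.comap π) := Fintype.ofFinite _
  have hle : N.comap π ≤ M.comap π := Subgroup.comap_mono hNM
  have hk : π.ker ≤ N.comap π := by
    intro z hz
    rw [Subgroup.mem_comap, MonoidHom.mem_ker.mp hz]
    exact N.one_mem
  obtain ⟨χ, hχ, hχo, hχs⟩ := h1 L K 𝔐 ℓ hmax hℓ π hπ hπc μ M σ hσ θ hθ.irr hθ.ovl
  have hcen := BEM.cen_eq (𝔐 := 𝔐) (M.comap π) hχ.2 hχs (ω := ω) (fun g hg => hθ.cn g hg)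
  have hcgχ : ∀ g, π g ∈ M → cg 𝔐 χ g = ω g := by
    intro g hg
    have hgM : g ∈ M.comap π := hg
    rw [BEM.cg_eq, hχs (BEM.cI g) (fun s _ x => BEM.cI_conj g s x)
      (fun x hx => BEM.cI_not_mem (M.comap π) hgM hx), ← BEM.cg_eq, hθ.cn g hg]
  -- a constituent of the restriction
  have hN : ∀ t ∈ M.comap π, ∀ a, a ∈ N.comap π ↔ t * a * t⁻¹ ∈ N.comap π := by
    intro t _ a
    constructor
    · intro ha
      exact hNn.conj_mem a ha t
    · intro ha
      have h2 := hNn.conj_mem _ ha t⁻¹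
      have e : t⁻¹ * (t * a * t⁻¹) * t⁻¹⁻¹ = a := by group
      rwa [e] at h2
  haveI hnq := NPT.normal _ _ hN
  have hcl := NPT.clg _ _ hle hN
  obtain ⟨f', hf', hip⟩ := Cliff.exists_under hχ.1 (Subgroup.inclusion hle)
  have hfe : (fun s : ↥(N.comap π) => (ext0 f' : L → ℂ) s) = f' := by
    funext s
    exact ext0_of_mem f' s.2
  have hfI : IrrOn (N.comap π) (ext0 f') :=
    ⟨by rw [hfe]; exact hf', fun x hx => ext0_of_not_mem f' hx⟩
  have hov : Ov π μ (ext0 f' : L → ℂ) := NPT.ov hπc hle hk hχo hf' hip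
  have hcg : ∀ g, π g ∈ N → cg 𝔐 (ext0 f' : L → ℂ) g = ω g := by
    intro g hg
    have hgN : g ∈ N.comap π := hg
    rw [← hcgχ g (hNM hg), BEM.cg_eq, BEM.cg_eq, BEM.sc_sub (N.comap π) hfI.2,
      BEM.sc_sub (M.comap π) hχ.2, hfe]
    have h3 := (SUMM_thm _ _ _ _ _ _ hcl).2.2.2 f' (fun t : ↥(M.comap π) => χ t)
      (fun t => ((BEM.cI g t : ℤ) : ℂ)) hf' hχ.1 hip (by
        intro s x
        simp only [Subgroup.coe_mul, Subgroup.coe_inv]
        rw [BEM.cI_conj]) (by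
        intro t ht
        rw [BEM.cI_not_mem (N.comap π) hgN, Int.cast_zero]
        intro h4
        apply ht
        exact ⟨⟨t, h4⟩, Subtype.ext rfl⟩)
    rw [h3]
    rfl
  -- the constituent belongs to the block of `f`
  have hsc : ∀ u : L → ℤ, CIv (N.comap π) u → SOn (N.comap π : Set L) u →
      sc 𝔐 (ext0 f' : L → ℂ) u = sc 𝔐 f u := by
    intro u hu hus
    obtain ⟨y, hy⟩ := NPT.agree ℓ hmax hℓ (N.comap π) hfI hf0.1 (fun g hg => by
      rw [hcg g hg, hf0.2.2 g hg])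
    rw [hy u hu, hfs u hu hus]
    exact hSTB f0 hf0 u hu hus y
  have hblk := cen_id (N.comap π) hfI.2 hf.2 hsc
  -- the two characters are equal
  have hC : (π.ker.subgroupOf (N.comap π)) ≤ Subgroup.center ↥(N.comap π) := by
    intro z hz
    rw [Subgroup.mem_subgroupOf] at hz
    rw [Subgroup.mem_center_iff]
    intro g
    exact Subtype.ext (Subgroup.mem_center_iff.mp (hπc hz) g)
  have hcC : Nat.card ↥(π.ker.subgroupOf (N.comap π)) = Nat.card π.ker :=
    Nat.card_congr (Subgroup.subgroupOfEquivOfLe hk).toEquiv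
  have heq : (fun s : ↥(N.comap π) => (ext0 f' : L → ℂ) s) = fun s : ↥(N.comap π) => f s := by
    refine min_eq hmax hℓ (π.ker.subgroupOf (N.comap π)) hC
      (μ.comp (Subgroup.subgroupOfEquivOfLe hk).toMonoidHom) hf.1 hfI.1 ?_ hblk ?_ ?_
    · rw [hcC]
      exact hdef
    · intro z x
      exact hfo ⟨((z : ↥(N.comap π)) : L), z.2⟩ x
    · intro z x
      exact hov ⟨((z : ↥(N.comap π)) : L), z.2⟩ x
  have hdf' : HasDefect ℓ f' (padicValNat ℓ (Nat.card π.ker)) := by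
    rw [← hfe, heq]
    exact hdef
  -- the defect of `χ`
  have hri : (N.comap π).relIndex (M.comap π) = N.relIndex M := by
    rw [Subgroup.relIndex_comap, Subgroup.map_comap_eq_self_of_surjective hπ]
  have hcard : padicValNat ℓ (Nat.card ↥(M.comap π)) = padicValNat ℓ (Nat.card ↥(N.comap π)) := by
    have h2 := Subgroup.card_mul_index ((N.comap π).subgroupOf (M.comap π))
    have h3 : Nat.card ↥((N.comap π).subgroupOf (M.comap π)) = Nat.card ↥(N.comap π) :=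
      Nat.card_congr (Subgroup.subgroupOfEquivOfLe hle).toEquiv
    have h4 : ((N.comap π).subgroupOf (M.comap π)).index = N.relIndex M := hri
    rw [h3, h4] at h2
    have h5 : N.relIndex M ≠ 0 := by
      intro h6
      rw [h6] at hidx
      exact hidx (dvd_zero ℓ)
    rw [← h2, padicValNat.mul Nat.card_pos.ne' h5, padicValNat.eq_zero_of_not_dvd hidx, add_zero]
  have hdχ := defect hcl hcard hχ.1 hf' hip hdf'
  refine hpos (fun s : ↥(M.comap π) => χ s) hχ.1 ?_ hdχ ?_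
  · intro s t hs
    exact hχo ⟨(s : L), hs⟩ t
  · intro g hg
    have h6 := hcen g
    rw [if_pos hg] at h6
    rw [← h6]
    congr 1
    exact Subsingleton.elim _ _

end Pool.Agent.DPG


end

section

/-!
# RIY: uniqueness of the extension with prescribed scalars
-/

namespace Pool.Agent.DPG

open Pool.Agent.DP Pool.Agent.DPC Pool.Agent.DPM Pool.Agent.DPN Pool.Agent.DPF
  Pool.Agent.Lib_helper13 Representation

namespace RIY

theorem trace_mul_one_dim (f g : (Fin 1 → ℂ) →ₗ[ℂ] (Fin 1 → ℂ)) :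
    LinearMap.trace ℂ _ (f * g) = LinearMap.trace ℂ _ f * LinearMap.trace ℂ _ g := by
  rw [LinearMap.trace_eq_matrix_trace ℂ (Pi.basisFun ℂ (Fin 1)),
    LinearMap.trace_eq_matrix_trace ℂ (Pi.basisFun ℂ (Fin 1)),
    LinearMap.trace_eq_matrix_trace ℂ (Pi.basisFun ℂ (Fin 1)), LinearMap.toMatrix_mul]
  simp [Matrix.trace, Matrix.mul_apply]

/-- A character of degree one is multiplicative. -/
theorem lin_mul {K : Type} [Group K] {η : K → ℂ} (h : IsIrr η) (h1 : η 1 = 1) (a b : K) :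
    η (a * b) = η a * η b := by
  obtain ⟨n, ρ, _, rfl⟩ := h
  have hn : n = 1 := by
    rw [char_one] at h1
    simpa using h1
  subst hn
  change LinearMap.trace ℂ _ (ρ (a * b)) = LinearMap.trace ℂ _ (ρ a) * LinearMap.trace ℂ _ (ρ b)
  rw [map_mul]
  exact trace_mul_one_dim _ _

/-- A character of degree one: the values are roots of unity. -/
theorem lin_pow {K : Type} [Group K] [Finite K] {η : K → ℂ} (h : IsIrr η) (h1 : η 1 = 1)
    (a : K) : η a ^ Nat.card K = 1 := by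
  let lam : K →* ℂ := { toFun := η, map_one' := h1, map_mul' := lin_mul h h1 }
  change lam a ^ Nat.card K = 1
  rw [← map_pow, pow_card_eq_one', map_one]

/-- A nonzero reduction is the reduction of an integral number. -/
theorem integral_of_red {𝔐 : Ideal (integralClosure ℤ ℂ)} {a : ℂ} (h : red 𝔐 a ≠ 0) :
    IsIntegral ℤ a := by
  classical
  by_contra hn
  apply h
  unfold red
  rw [dif_neg hn]

/-- The index. -/
theorem relIndex_eq {K : Type} [Group K] (N M S : Subgroup K) [N.Normal] (hNM : N ≤ M)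
    (hc : M ≤ N ⊔ S) : (N ⊓ S).relIndex (M ⊓ S) = N.relIndex M := by
  have h1 : N ⊓ S = N ⊓ (M ⊓ S) := by
    rw [← inf_assoc, inf_eq_left.2 hNM]
  have h2 : (M ⊓ S) ⊔ N = M := by
    apply le_antisymm
    · exact sup_le inf_le_left hNM
    · intro x hx
      obtain ⟨n, hn, s, hs, rfl⟩ := Subgroup.mem_sup_of_normal_left.1 (hc hx)
      have hs' : s ∈ M := (M.mul_mem_cancel_left (hNM hn)).1 hx
      exact (M ⊓ S ⊔ N).mul_mem (Subgroup.mem_sup_right hn)
        (Subgroup.mem_sup_left (Subgroup.mem_inf.2 ⟨hs', hs⟩))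
  rw [h1, Subgroup.inf_relIndex_right, ← Subgroup.relIndex_sup_right (H := M ⊓ S) (K := N), h2]

theorem clG_normal {G : Type} [Group G] (N : Subgroup G) [N.Normal] :
    ClG N.subtype (MulAut.conjNormal : G →* MulAut N) (QuotientGroup.mk' N) where
  inj := N.subtype_injective
  act := fun y a => MulAut.conjNormal_apply y a
  ker := fun y => by
    rw [Subgroup.range_subtype, QuotientGroup.mk'_apply, QuotientGroup.eq_one_iff]

end RIY

open _root_.Pool.Agent.DPG.RIY in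
theorem RIY_thm : Stmt_RIY := by
  classical
  intro L K _ _ _ _ 𝔐 ℓ _ h𝔐 hℓ π hπ hU N M _ _ hNM hi S F F' hF hF' hA hSUP hsc
  have hpr : 𝔐.IsPrime := h𝔐.isPrime
  set T : Subgroup L := AL π M S with hT
  set A : Subgroup L := AL π N S with hAd
  have hAT : A ≤ T := Subgroup.comap_mono (inf_le_inf_right S hNM)
  have hAn : (A.subgroupOf T).Normal := by
    refine ⟨fun a ha t => ?_⟩
    have ha' : π (a : L) ∈ N ⊓ S := Subgroup.mem_subgroupOf.1 ha
    have ht' : π (t : L) ∈ M ⊓ S := t.2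
    rw [Subgroup.mem_subgroupOf]
    change π (((t * a * t⁻¹ : T) : L)) ∈ N ⊓ S
    have h1 : π (((t * a * t⁻¹ : T) : L)) = π (t : L) * π (a : L) * (π (t : L))⁻¹ := by
      simp only [Subgroup.coe_mul, Subgroup.coe_inv, map_mul, map_inv]
    rw [h1]
    refine Subgroup.mem_inf.2 ⟨?_, ?_⟩
    · exact Subgroup.Normal.conj_mem inferInstance _ (Subgroup.mem_inf.1 ha').1 _
    · exact S.mul_mem (S.mul_mem (Subgroup.mem_inf.1 ht').2 (Subgroup.mem_inf.1 ha').2)
        (S.inv_mem (Subgroup.mem_inf.1 ht').2)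
  have hc := clG_normal (A.subgroupOf T)
  let eA : ↥(A.subgroupOf T) ≃* A := Subgroup.subgroupOfEquivOfLe hAT
  have hθ : IsIrr (fun a : ↥(A.subgroupOf T) => F ((a : T) : L)) :=
    hF.res.comp_mulEquiv eA
  have hE : IsIrr (fun t : T => F t) := hF.irr.1
  have hψ : IsIrr (fun t : T => F' t) := hF'.irr.1
  have hres : resj (A.subgroupOf T).subtype (fun t : T => F' t) =
      fun a : ↥(A.subgroupOf T) => F ((a : T) : L) := by
    funext a
    exact (hA _ (Subgroup.mem_subgroupOf.1 a.2)).symm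
  have : Fintype (↥T ⧸ A.subgroupOf T) := Fintype.ofFinite _
  obtain ⟨η, hη, hηe⟩ := (b_GALL ↥(A.subgroupOf T) ↥T (↥T ⧸ A.subgroupOf T)
    (A.subgroupOf T).subtype _ (QuotientGroup.mk' (A.subgroupOf T)) hc
    (QuotientGroup.mk'_surjective _) _ (fun t : T => F t) hθ hE.isChr (fun a => rfl)).2.2
    (fun t : T => F' t) hψ (by
      rw [hres, ip_self hθ]
      exact one_ne_zero)
  -- the degree
  have h11 : F' 1 = F 1 := (hA 1 A.one_mem).symm
  have hF1 : F 1 ≠ 0 := hE.one_ne_zero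
  have hη1 : η 1 = 1 := by
    have h1 := congrFun hηe 1
    change F' 1 = F 1 * η (QuotientGroup.mk' (A.subgroupOf T) 1) at h1
    rw [map_one, h11] at h1
    exact (mul_left_cancel₀ hF1 (h1.symm.trans (mul_one (F 1)).symm))
  have hcard : ¬ ℓ ∣ Nat.card (↥T ⧸ A.subgroupOf T) := by
    have h1 : Nat.card (↥T ⧸ A.subgroupOf T) = N.relIndex M := by
      have h2 : Nat.card (↥T ⧸ A.subgroupOf T) = A.relIndex T := rfl
      rw [h2, hAd, hT, Subgroup.relIndex_comap, Subgroup.map_comap_eq_self_of_surjective hπ,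
        relIndex_eq N M S hNM hF.cov]
    rw [h1]
    exact hi
  -- the values
  have hval : ∀ t : T, η (QuotientGroup.mk' (A.subgroupOf T) t) = 1 := by
    intro t
    obtain ⟨u, hu, hus, hu0⟩ := hSUP t (Subgroup.mem_inf.1 t.2).1
    have h1 : ∑ x, ((u x : ℤ) : ℂ) * F' x =
        η (QuotientGroup.mk' (A.subgroupOf T) t) * ∑ x, ((u x : ℤ) : ℂ) * F x := by
      rw [Finset.mul_sum]
      refine Finset.sum_congr rfl fun x _ => ?_
      by_cases hx : π ((t : L)⁻¹ * x) ∈ N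
      · by_cases hxT : x ∈ T
        · have h2 : F' x = F x * η (QuotientGroup.mk' (A.subgroupOf T) ⟨x, hxT⟩) :=
            congrFun hηe ⟨x, hxT⟩
          have h3 : QuotientGroup.mk' (A.subgroupOf T) ⟨x, hxT⟩ =
              QuotientGroup.mk' (A.subgroupOf T) t := by
            rw [QuotientGroup.mk'_apply, QuotientGroup.mk'_apply, eq_comm, QuotientGroup.eq,
              Subgroup.mem_subgroupOf]
            change π ((t : L)⁻¹ * x) ∈ N ⊓ S
            refine Subgroup.mem_inf.2 ⟨hx, ?_⟩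
            rw [map_mul, map_inv]
            exact S.mul_mem (S.inv_mem (Subgroup.mem_inf.1 t.2).2) (Subgroup.mem_inf.1 hxT).2
          rw [h2, h3]
          ring
        · rw [hF.irr.2 x hxT, hF'.irr.2 x hxT, mul_zero, mul_zero]
      · rw [hus x hx]
        simp
    have h2 : sc 𝔐 F' u = red 𝔐 (η (QuotientGroup.mk' (A.subgroupOf T) t)) * sc 𝔐 F u := by
      have h3 : IsIntegral ℤ ((∑ x, ((u x : ℤ) : ℂ) * F x) / F 1) := integral_of_red hu0
      have h4 : IsIntegral ℤ (η (QuotientGroup.mk' (A.subgroupOf T) t)) :=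
        PSDB.isIntegral_of_pow_eq Nat.card_pos (lin_pow hη hη1 _)
      unfold sc
      rw [← red_mul 𝔐 h4 h3, h1, h11, mul_div_assoc]
    rw [← hsc u hu] at h2
    have h5 : red 𝔐 (η (QuotientGroup.mk' (A.subgroupOf T) t)) = 1 := by
      have h6 : red 𝔐 (η (QuotientGroup.mk' (A.subgroupOf T) t)) * sc 𝔐 F u = 1 * sc 𝔐 F u := by
        rw [one_mul]
        exact h2.symm
      exact mul_right_cancel₀ hu0 h6
    exact PSDB.eq_one_of_red 𝔐 hℓ hcard (lin_pow hη hη1 _) h5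
  funext x
  by_cases hx : x ∈ T
  · have h1 : F' x = F x * η (QuotientGroup.mk' (A.subgroupOf T) ⟨x, hx⟩) := congrFun hηe ⟨x, hx⟩
    rw [h1, hval, mul_one]
  · rw [hF.irr.2 x hx, hF'.irr.2 x hx]

end Pool.Agent.DPG


end

section

/-!
# DWN, first part: transfer of characters between `Q` and `L1`
-/

set_option autoImplicit false

namespace Pool.Agent.DPG

open Pool.Agent.DP Pool.Agent.DPC Pool.Agent.DPM Pool.Agent.DPN Pool.Agent.DPF
  Pool.Agent.DPK Pool.Agent.Lib_helper13 Representation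
open Pool.Agent.Lib_helper13.Dade (pCore DadeHolds dadeSum)

namespace DWN

section

variable {K1 Q L1 : Type} [Group K1] [Group Q] [Fintype Q] [Group L1] [Fintype L1]
  {q : Q →* K1} {α : K1 →* MulAut Q} {μQ : q.ker →* ℂˣ} {π1 : L1 →* K1} {μ1 : π1.ker →* ℂˣ}
  {ι : Q →* L1}

omit [Fintype Q] [Fintype L1] in
theorem mem_range (hld : LD q α μQ π1 μ1 ι) {y : L1} (hy : π1 y ∈ q.range) :
    ∃ (z : π1.ker) (x : Q), y = z * ι x := by
  obtain ⟨x, hx⟩ := hy
  refine ⟨⟨y * (ι x)⁻¹, ?_⟩, x, ?_⟩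
  · rw [MonoidHom.mem_ker, map_mul, map_inv, hld.πι, hx, mul_inv_cancel]
  · change y = y * (ι x)⁻¹ * ι x
    group

omit [Fintype Q] [Fintype L1] in
theorem zcomm (hld : LD q α μQ π1 μ1 ι) (z : π1.ker) (y : L1) : y * z = z * y :=
  Subgroup.mem_center_iff.mp (hld.c z.2) y

/-- The character of `π1.ker × (S.comap q)`. -/
theorem irr_prod (S : Subgroup K1) {f : Q → ℂ} (hf : IrrOn (S.comap q) f) :
    IsIrr (fun x : π1.ker × ↥(S.comap q) => ((μ1 x.1 : ℂˣ) : ℂ) * f x.2) := by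
  classical
  haveI : Fintype ↥(S.comap q) := Fintype.ofFinite _
  haveI : Fintype ↥π1.ker := Fintype.ofFinite _
  have h1 : IsChr (fun x : π1.ker × ↥(S.comap q) => ((μ1 x.1 : ℂˣ) : ℂ)) :=
    (isChr_lin μ1).comp (MonoidHom.fst π1.ker ↥(S.comap q))
  have h2 : IsChr (fun x : π1.ker × ↥(S.comap q) => f x.2) :=
    hf.1.isChr.comp (MonoidHom.snd π1.ker ↥(S.comap q))
  refine (h1.mul h2).isIrr ?_
  have h3 : ∀ x : π1.ker × ↥(S.comap q),
      ((μ1 x.1 : ℂˣ) : ℂ) * f x.2 * (((μ1 x⁻¹.1 : ℂˣ) : ℂ) * f x⁻¹.2) =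
        f x.2 * f ((x.2)⁻¹ : ↥(S.comap q)) := by
    intro x
    have h4 : ((μ1 x.1 : ℂˣ) : ℂ) * ((μ1 x⁻¹.1 : ℂˣ) : ℂ) = 1 := by
      rw [← Units.val_mul, ← map_mul, Prod.fst_inv, mul_inv_cancel, map_one, Units.val_one]
    have h5 : x⁻¹.2 = (x.2)⁻¹ := rfl
    rw [h5]
    linear_combination (f x.2 * f ((x.2)⁻¹ : ↥(S.comap q))) * h4
  rw [Finset.sum_congr rfl fun x _ => h3 x, Fintype.sum_prod_type]
  simp only
  have h6 := hf.1.sum_self
  rw [Finset.sum_congr rfl fun (z : π1.ker) _ => h6, Finset.sum_const, Finset.card_univ,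
    Nat.card_prod, nsmul_eq_mul, Nat.card_eq_fintype_card (α := π1.ker)]
  push_cast
  ring

/-- The character of the group generated by `ι(Q)` and the kernel. -/
theorem transfer (hld : LD q α μQ π1 μ1 ι) (S : Subgroup K1) {f : Q → ℂ}
    (hf : IrrOn (S.comap q) f) (ho : Ov q μQ f) :
    ∃ F : L1 → ℂ, IrrOn (AL π1 q.range S) F ∧ Ov π1 μ1 F ∧ ∀ x, F (ι x) = f x := by
  classical
  haveI : Fintype ↥(S.comap q) := Fintype.ofFinite _
  haveI : Fintype ↥π1.ker := Fintype.ofFinite _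
  haveI : Fintype ↥(AL π1 q.range S) := Fintype.ofFinite _
  have hm : ∀ (z : π1.ker) (x : Q), (z : L1) * ι x ∈ AL π1 q.range S ↔ x ∈ S.comap q := by
    intro z x
    rw [Subgroup.mem_comap, Subgroup.mem_inf, map_mul, MonoidHom.mem_ker.mp z.2, one_mul,
      hld.πι, Subgroup.mem_comap]
    exact ⟨fun h => h.2, fun h => ⟨⟨x, rfl⟩, h⟩⟩
  let Ψ : π1.ker × ↥(S.comap q) →* ↥(AL π1 q.range S) :=
    { toFun := fun x => ⟨(x.1 : L1) * ι x.2, (hm x.1 x.2).mpr x.2.2⟩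
      map_one' := Subtype.ext (by simp)
      map_mul' := fun x y => Subtype.ext (by
        change ((x.1 : L1) * y.1) * ι ((x.2 : Q) * y.2) = (x.1 * ι x.2) * (y.1 * ι y.2)
        have h := zcomm hld y.1 (ι x.2)
        rw [map_mul]
        calc (x.1 : L1) * y.1 * (ι x.2 * ι y.2) = x.1 * (y.1 * ι x.2) * ι y.2 := by group
          _ = x.1 * (ι x.2 * y.1) * ι y.2 := by rw [h]
          _ = _ := by group) }
  have hΨ : ∀ x, ((Ψ x : ↥(AL π1 q.range S)) : L1) = x.1 * ι x.2 := fun x => rfl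
  have hs : Function.Surjective Ψ := by
    rintro ⟨y, hy⟩
    have hy' := hy
    rw [Subgroup.mem_comap, Subgroup.mem_inf] at hy'
    obtain ⟨z, x, rfl⟩ := mem_range hld hy'.1
    exact ⟨(z, ⟨x, (hm z x).mp hy⟩), Subtype.ext rfl⟩
  obtain ⟨η, hη, he⟩ := QINF.exists_inf Ψ hs (irr_prod (μ1 := μ1) S hf) (by
    intro x y hx
    have h1 : (x.1 : L1) * ι x.2 = 1 := congrArg Subtype.val hx
    have h2 : q x.2 = 1 := by
      rw [← hld.πι]
      have h3 := congrArg π1 h1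
      rw [map_mul, MonoidHom.mem_ker.mp x.1.2, one_mul, map_one] at h3
      exact h3
    have h4 : (ι x.2 : L1) ∈ π1.ker := by
      rw [MonoidHom.mem_ker, hld.πι, h2]
    have h5 : x.1 * ⟨ι x.2, h4⟩ = 1 := Subtype.ext h1
    have h6 : ((μ1 x.1 : ℂˣ) : ℂ) * ((μ1 ⟨ι x.2, h4⟩ : ℂˣ) : ℂ) = 1 := by
      rw [← Units.val_mul, ← map_mul, h5, map_one, Units.val_one]
    have h7 := hld.μι ⟨x.2, h2⟩ h4
    have h8 := ho ⟨x.2, h2⟩ y.2
    rw [← h7] at h8
    change ((μ1 (x.1 * y.1) : ℂˣ) : ℂ) * f ((x.2 : Q) * y.2) = ((μ1 y.1 : ℂˣ) : ℂ) * f y.2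
    have h9 : f ((x.2 : Q) * y.2) = ((μ1 ⟨ι x.2, h4⟩ : ℂˣ) : ℂ) * f y.2 := h8
    rw [h9, map_mul, Units.val_mul]
    linear_combination (((μ1 y.1 : ℂˣ) : ℂ) * f y.2) * h6)
  have he' : ∀ (z : π1.ker) (x : Q) (hx : x ∈ S.comap q),
      (ext0 η : L1 → ℂ) (z * ι x) = ((μ1 z : ℂˣ) : ℂ) * f x := by
    intro z x hx
    rw [ext0_of_mem η ((hm z x).mpr hx)]
    exact (congrFun he (z, ⟨x, hx⟩)).symm
  have hz' : ∀ (z : π1.ker) (x : Q), (ext0 η : L1 → ℂ) (z * ι x) = ((μ1 z : ℂˣ) : ℂ) * f x := by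
    intro z x
    by_cases hx : x ∈ S.comap q
    · exact he' z x hx
    · rw [ext0_of_not_mem η (fun h => hx ((hm z x).mp h)), hf.2 x hx, mul_zero]
  refine ⟨ext0 η, ⟨?_, fun x hx => ext0_of_not_mem η hx⟩, ?_, ?_⟩
  · have : (fun s : ↥(AL π1 q.range S) => (ext0 η : L1 → ℂ) s) = η := by
      funext s
      exact ext0_of_mem η s.2
    rw [this]
    exact hη
  · intro z y
    by_cases hy : π1 y ∈ q.range
    · obtain ⟨z', x, rfl⟩ := mem_range hld hy
      have h1 : (z : L1) * (z' * ι x) = ((z * z' : π1.ker) : L1) * ι x := by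
        rw [Subgroup.coe_mul, mul_assoc]
      rw [h1, hz', hz', map_mul, Units.val_mul, mul_assoc]
    · have h1 : ∀ w : L1, π1 w ∉ q.range → (ext0 η : L1 → ℂ) w = 0 := by
        intro w hw
        refine ext0_of_not_mem η (fun h => hw ?_)
        rw [Subgroup.mem_comap, Subgroup.mem_inf] at h
        exact h.1
      rw [h1 y hy, h1, mul_zero]
      rw [map_mul, MonoidHom.mem_ker.mp z.2, one_mul]
      exact hy
  · intro x
    have := hz' 1 x
    rwa [Subgroup.coe_one, one_mul, map_one, Units.val_one, one_mul] at this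

/-- The restriction to `ι(Q)` of a character. -/
theorem restr (hld : LD q α μQ π1 μ1 ι) (S : Subgroup K1) {F : L1 → ℂ}
    (hF : IsIrr (fun a : AL π1 q.range S => F a)) (hF0 : ∀ x, q x ∉ S → F (ι x) = 0)
    (ho : Ov π1 μ1 F) : IrrOn (S.comap q) (fun x => F (ι x)) ∧ Ov q μQ (fun x => F (ι x)) := by
  classical
  haveI : Fintype ↥(S.comap q) := Fintype.ofFinite _
  haveI : Fintype ↥π1.ker := Fintype.ofFinite _
  haveI : Fintype ↥(AL π1 q.range S) := Fintype.ofFinite _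
  have hm : ∀ (z : π1.ker) (x : Q), (z : L1) * ι x ∈ AL π1 q.range S ↔ x ∈ S.comap q := by
    intro z x
    rw [Subgroup.mem_comap, Subgroup.mem_inf, map_mul, MonoidHom.mem_ker.mp z.2, one_mul,
      hld.πι, Subgroup.mem_comap]
    exact ⟨fun h => h.2, fun h => ⟨⟨x, rfl⟩, h⟩⟩
  let Ψ : π1.ker × ↥(S.comap q) →* ↥(AL π1 q.range S) :=
    { toFun := fun x => ⟨(x.1 : L1) * ι x.2, (hm x.1 x.2).mpr x.2.2⟩
      map_one' := Subtype.ext (by simp)
      map_mul' := fun x y => Subtype.ext (by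
        change ((x.1 : L1) * y.1) * ι ((x.2 : Q) * y.2) = (x.1 * ι x.2) * (y.1 * ι y.2)
        have h := zcomm hld y.1 (ι x.2)
        rw [map_mul]
        calc (x.1 : L1) * y.1 * (ι x.2 * ι y.2) = x.1 * (y.1 * ι x.2) * ι y.2 := by group
          _ = x.1 * (ι x.2 * y.1) * ι y.2 := by rw [h]
          _ = _ := by group) }
  have hs : Function.Surjective Ψ := by
    rintro ⟨y, hy⟩
    have hy' := hy
    rw [Subgroup.mem_comap, Subgroup.mem_inf] at hy'
    obtain ⟨z, x, rfl⟩ := mem_range hld hy'.1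
    exact ⟨(z, ⟨x, (hm z x).mp hy⟩), Subtype.ext rfl⟩
  have h1 := QINF.irr_inf Ψ hs hF
  have h2 : IsChr (fun x : ↥(S.comap q) => F (ι x)) := by
    have h3 := h1.isChr.comp (MonoidHom.inr π1.ker ↥(S.comap q))
    have h4 : (fun x : ↥(S.comap q) => F (ι x)) = fun x : ↥(S.comap q) =>
        (fun a => (fun a : AL π1 q.range S => F a) (Ψ a))
          ((MonoidHom.inr π1.ker ↥(S.comap q)) x) := by
      funext x
      change F (ι x) = F (((1 : π1.ker) : L1) * ι x)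
      rw [Subgroup.coe_one, one_mul]
    rw [h4]
    exact h3
  refine ⟨⟨h2.isIrr ?_, fun x hx => hF0 x hx⟩, ?_⟩
  · have h5 := h1.sum_self
    have h6 : ∀ x : π1.ker × ↥(S.comap q), (fun a : AL π1 q.range S => F a) (Ψ x) *
        (fun a : AL π1 q.range S => F a) (Ψ x⁻¹) =
          F (ι x.2) * F (ι ((x.2)⁻¹ : ↥(S.comap q))) := by
      intro x
      have h7 : (fun a : AL π1 q.range S => F a) (Ψ x) = ((μ1 x.1 : ℂˣ) : ℂ) * F (ι x.2) :=
        ho x.1 (ι x.2)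
      have h8 : (fun a : AL π1 q.range S => F a) (Ψ x⁻¹) =
          ((μ1 (x.1)⁻¹ : ℂˣ) : ℂ) * F (ι ((x.2)⁻¹ : ↥(S.comap q))) :=
        ho (x.1)⁻¹ (ι ((x.2)⁻¹ : ↥(S.comap q)))
      rw [h7, h8]
      have h4 : ((μ1 x.1 : ℂˣ) : ℂ) * ((μ1 (x.1)⁻¹ : ℂˣ) : ℂ) = 1 := by
        rw [← Units.val_mul, ← map_mul, mul_inv_cancel, map_one, Units.val_one]
      linear_combination (F (ι x.2) * F (ι ((x.2)⁻¹ : ↥(S.comap q)))) * h4
    rw [Finset.sum_congr rfl fun x _ => h6 x, Fintype.sum_prod_type] at h5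
    simp only at h5
    rw [Finset.sum_const, Finset.card_univ, Nat.card_prod, nsmul_eq_mul,
      Nat.card_eq_fintype_card (α := π1.ker), Nat.cast_mul] at h5
    exact mul_left_cancel₀ (Nat.cast_ne_zero.mpr Fintype.card_ne_zero) h5
  · intro z x
    have h3 : (ι z : L1) ∈ π1.ker := by
      rw [MonoidHom.mem_ker, hld.πι]
      exact z.2
    have h4 := ho ⟨ι z, h3⟩ (ι x)
    change F (ι (z * x)) = ((μQ z : ℂˣ) : ℂ) * F (ι x)
    rw [map_mul, ← hld.μι z h3]
    exact h4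

/-- Comparison of scalars. -/
theorem sc_eq {𝔐 : Ideal (integralClosure ℤ ℂ)} (hmax : 𝔐.IsMaximal)
    (hld : LD q α μQ π1 μ1 ι) {S S' : Subgroup K1} {F F' : L1 → ℂ}
    (hF : IrrOn (S.comap q) (fun x => F (ι x))) (ho : Ov π1 μ1 F)
    (hF' : IrrOn (S'.comap q) (fun x => F' (ι x))) (ho' : Ov π1 μ1 F')
    (h : ∀ w : Q → ℤ, CIv ⊤ w → sc 𝔐 (fun x => F (ι x)) w = sc 𝔐 (fun x => F' (ι x)) w)
    (u : L1 → ℤ) (hu : CIv (q.range.comap π1) u)
    (hus : SOn (q.range.comap π1 : Set L1) u) : sc 𝔐 F u = sc 𝔐 F' u := by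
  classical
  haveI : 𝔐.IsPrime := hmax.isPrime
  haveI : Fintype (L1 ⧸ ι.range) := Fintype.ofFinite _
  -- the integrality of the scalars
  have hint : ∀ (T : Subgroup K1) (G : L1 → ℂ), IrrOn (T.comap q) (fun x => G (ι x)) →
      ∀ w : Q → ℤ, CIv ⊤ w → IsIntegral ℤ ((∑ x, ((w x : ℤ) : ℂ) * G (ι x)) / G 1) := by
    intro T G hG w hw
    haveI : Fintype ↥(T.comap q) := Fintype.ofFinite _
    have h1 : (∑ x, ((w x : ℤ) : ℂ) * G (ι x)) / G 1 =
        wt (fun s : ↥(T.comap q) => G (ι s)) (fun s => ((w s : ℤ) : ℂ)) := by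
      rw [wt]
      have h2 : ∑ x, ((w x : ℤ) : ℂ) * G (ι x) =
          ∑ s : ↥(T.comap q), ((w s : ℤ) : ℂ) * G (ι s) := by
        rw [← Finset.sum_filter_of_ne (p := fun x => x ∈ T.comap q)]
        · exact Finset.sum_subtype _ (by simp) _
        · intro x _ hx
          by_contra h
          have h0 : G (ι x) = 0 := hG.2 x h
          exact hx (by rw [h0, mul_zero])
      rw [h2]
      congr 1
      change G 1 = G (ι 1)
      rw [map_one]
    rw [h1]
    refine isIntegral_wt hG.1 (fun s : ↥(T.comap q) => ((w s : ℤ) : ℂ)) (fun g x => ?_)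
      (fun x => Pool.Agent.Lib_helper13.isIntegral_intCast _)
    have := hw g (Subgroup.mem_top _) x
    simp only [Subgroup.coe_mul, Subgroup.coe_inv]
    rw [this]
  -- the decomposition into cosets
  have hdec : ∀ G : L1 → ℂ, (∑ y, ((u y : ℤ) : ℂ) * G y) / G 1 =
      ∑ c : L1 ⧸ ι.range, (∑ x : Q, ((u (c.out * ι x) : ℤ) : ℂ) * G (c.out * ι x)) / G 1 := by
    intro G
    rw [← Finset.sum_div]
    congr 1
    rw [← Fintype.sum_prod_type' (f := fun (c : L1 ⧸ ι.range) (x : Q) =>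
      ((u (c.out * ι x) : ℤ) : ℂ) * G (c.out * ι x))]
    symm
    refine Fintype.sum_bijective (fun x : (L1 ⧸ ι.range) × Q => x.1.out * ι x.2) ⟨?_, ?_⟩ _ _
      (fun x => rfl)
    · rintro ⟨c, x⟩ ⟨c', x'⟩ hxx
      have h1 : c.out * ι x = c'.out * ι x' := hxx
      have h2 : c = c' := by
        have h3 : (QuotientGroup.mk (c.out * ι x) : L1 ⧸ ι.range) = c := by
          rw [QuotientGroup.mk_mul_of_mem _ (show ι x ∈ ι.range from ⟨x, rfl⟩)]
          exact Quotient.out_eq' c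
        have h4 : (QuotientGroup.mk (c'.out * ι x') : L1 ⧸ ι.range) = c' := by
          rw [QuotientGroup.mk_mul_of_mem _ (show ι x' ∈ ι.range from ⟨x', rfl⟩)]
          exact Quotient.out_eq' c'
        rw [← h3, ← h4, h1]
      subst h2
      have h3 := mul_left_cancel h1
      rw [hld.ιi h3]
    · intro y
      have h1 : (QuotientGroup.mk ((QuotientGroup.mk y : L1 ⧸ ι.range).out) : L1 ⧸ ι.range) =
          QuotientGroup.mk y := Quotient.out_eq' _
      obtain ⟨x, hx⟩ := QuotientGroup.eq.mp h1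
      refine ⟨(QuotientGroup.mk y, x), ?_⟩
      change (QuotientGroup.mk y : L1 ⧸ ι.range).out * ι x = y
      rw [hx]
      group
  -- the terms
  have hterm : ∀ (T : Subgroup K1) (G : L1 → ℂ), IrrOn (T.comap q) (fun x => G (ι x)) →
      Ov π1 μ1 G → ∀ (z : π1.ker) (x0 : Q),
      (∑ x : Q, ((u (z * ι x0 * ι x) : ℤ) : ℂ) * G (z * ι x0 * ι x)) / G 1 =
        ((μ1 z : ℂˣ) : ℂ) * ((∑ x, ((u (z * ι x) : ℤ) : ℂ) * G (ι x)) / G 1) := by
    intro T G hG hoG z x0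
    rw [← mul_div_assoc, Finset.mul_sum]
    congr 1
    refine Fintype.sum_equiv (Equiv.mulLeft x0) _ _ fun x => ?_
    have h1 : (z : L1) * ι x0 * ι x = z * ι (x0 * x) := by rw [map_mul, mul_assoc]
    change _ = ((μ1 z : ℂˣ) : ℂ) * (((u (z * ι (x0 * x)) : ℤ) : ℂ) * G (ι (x0 * x)))
    rw [h1, hoG z (ι (x0 * x))]
    ring
  have hw : ∀ z : π1.ker, CIv ⊤ (fun x : Q => u (z * ι x)) := by
    intro z a _ x
    change u (z * ι (a * x * a⁻¹)) = u (z * ι x)
    have h1 : (z : L1) * ι (a * x * a⁻¹) = ι a * (z * ι x) * (ι a)⁻¹ := by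
      rw [map_mul, map_mul, map_inv]
      have h := zcomm hld z (ι a)
      calc (z : L1) * (ι a * ι x * (ι a)⁻¹) = (z * ι a) * ι x * (ι a)⁻¹ := by group
        _ = (ι a * z) * ι x * (ι a)⁻¹ := by rw [h]
        _ = _ := by group
    rw [h1, hu (ι a)]
    rw [Subgroup.mem_comap, hld.πι]
    exact ⟨a, rfl⟩
  have hμ : ∀ z : π1.ker, IsIntegral ℤ ((μ1 z : ℂˣ) : ℂ) := by
    intro z
    have h1 : ((μ1 z : ℂˣ) : ℂ) ^ Nat.card π1.ker = 1 := by
      rw [← Units.val_pow_eq_pow_val, ← map_pow, pow_card_eq_one', map_one, Units.val_one]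
    refine IsIntegral.of_pow (n := Nat.card π1.ker) Nat.card_pos ?_
    rw [h1]
    exact isIntegral_one
  have hcase : ∀ c : L1 ⧸ ι.range,
      (∃ (z : π1.ker) (x0 : Q), c.out = z * ι x0) ∨ ∀ x : Q, u (c.out * ι x) = 0 := by
    intro c
    by_cases hc : π1 c.out ∈ q.range
    · left
      exact mem_range hld hc
    · right
      intro x
      apply hus
      intro h1
      apply hc
      have h2 : π1 (c.out * ι x) ∈ q.range := h1
      rw [map_mul, hld.πι] at h2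
      have h3 := q.range.mul_mem h2 (q.range.inv_mem ⟨x, rfl⟩)
      rwa [mul_inv_cancel_right] at h3
  have hI : ∀ (T : Subgroup K1) (G : L1 → ℂ), IrrOn (T.comap q) (fun x => G (ι x)) →
      Ov π1 μ1 G → ∀ c : L1 ⧸ ι.range,
      IsIntegral ℤ ((∑ x : Q, ((u (c.out * ι x) : ℤ) : ℂ) * G (c.out * ι x)) / G 1) := by
    intro T G hG hoG c
    rcases hcase c with ⟨z, x0, hc⟩ | hc
    · rw [hc, hterm T G hG hoG]
      exact (hμ z).mul (hint T G hG _ (hw z))
    · have : (∑ x : Q, ((u (c.out * ι x) : ℤ) : ℂ) * G (c.out * ι x)) / G 1 = 0 := by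
        rw [Finset.sum_eq_zero, zero_div]
        intro x _
        rw [hc x, Int.cast_zero, zero_mul]
      rw [this]
      exact isIntegral_zero
  rw [sc, sc, hdec F, hdec F', red_sum 𝔐 _ _ (fun c _ => hI S F hF ho c),
    red_sum 𝔐 _ _ (fun c _ => hI S' F' hF' ho' c)]
  refine Finset.sum_congr rfl fun c _ => ?_
  rcases hcase c with ⟨z, x0, hc⟩ | hc
  · rw [hc, hterm S F hF ho, hterm S' F' hF' ho',
      red_mul 𝔐 (hμ z) (hint S F hF _ (hw z)), red_mul 𝔐 (hμ z) (hint S' F' hF' _ (hw z))]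
    congr 1
    have h1 := h _ (hw z)
    rw [sc, sc] at h1
    simp only [map_one] at h1
    exact h1
  · have h0 : ∀ G : L1 → ℂ,
        (∑ x : Q, ((u (c.out * ι x) : ℤ) : ℂ) * G (c.out * ι x)) / G 1 = 0 := by
      intro G
      rw [Finset.sum_eq_zero, zero_div]
      intro x _
      rw [hc x, Int.cast_zero, zero_mul]
    rw [h0, h0]

end

end DWN

end Pool.Agent.DPG


end

section

/-!
# DWN: every pair of `L` of a closed chain is conjugate to a pair which belongs to a pair of `L1`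
-/

set_option autoImplicit false

namespace Pool.Agent.DPG

open Pool.Agent.DP Pool.Agent.DPC Pool.Agent.DPM Pool.Agent.DPN Pool.Agent.DPF
  Pool.Agent.DPK Pool.Agent.Lib_helper13 Representation
open Pool.Agent.Lib_helper13.Dade (pCore DadeHolds dadeSum)

namespace DWN

section

variable {L K : Type} [Group L] [Fintype L] [Group K] {π : L →* K}

theorem mem_AL {N S : Subgroup K} {x : L} : x ∈ AL π N S ↔ π x ∈ N ∧ π x ∈ S := by
  rw [Subgroup.mem_comap, Subgroup.mem_inf]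

/-- An extension lies over the same linear character. -/
theorem ov_ext (hπc : π.ker ≤ Subgroup.center L) {μ : π.ker →* ℂˣ} {N M S : Subgroup K}
    {F f : L → ℂ} (hF : EF π N M S F) (hf : ∀ x ∈ AL π N S, F x = f x) (ho : Ov π μ f) :
    Ov π μ F := by
  classical
  haveI : Fintype ↥(AL π M S) := Fintype.ofFinite _
  intro z x
  have hzc : ∀ g : L, (z : L) * g = g * z := fun g =>
    ((Subgroup.mem_center_iff.mp (hπc z.2)) g).symm
  have hz : ∀ N' : Subgroup K, (z : L) ∈ AL π N' S := by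
    intro N'
    rw [mem_AL, MonoidHom.mem_ker.mp z.2]
    exact ⟨N'.one_mem, S.one_mem⟩
  have h1 : ∀ N' : Subgroup K, (1 : L) ∈ AL π N' S := fun N' => (AL π N' S).one_mem
  obtain ⟨c, hc⟩ := TWN.central hF.irr.1 (z := ⟨z, hz M⟩) (fun g => Subtype.ext (hzc g))
  have h2 : F z = c * F 1 := by
    have h3 := hc 1
    change F ((z : L) * 1) = c * F 1 at h3
    rwa [mul_one] at h3
  have h4 : F z = ((μ z : ℂˣ) : ℂ) * F 1 := by
    rw [hf _ (hz N), hf _ (h1 N)]
    have h5 := ho z 1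
    rwa [mul_one] at h5
  have h6 : F 1 ≠ 0 := hF.irr.1.one_ne_zero
  have h7 : c = ((μ z : ℂˣ) : ℂ) := mul_right_cancel₀ h6 (h2.symm.trans h4)
  by_cases hx : x ∈ AL π M S
  · rw [← h7]
    exact hc ⟨x, hx⟩
  · rw [hF.irr.2 x hx, hF.irr.2, mul_zero]
    intro h8
    apply hx
    have h9 := (AL π M S).mul_mem ((AL π M S).inv_mem (hz M)) h8
    rwa [inv_mul_cancel_left] at h9

/-- Conjugation of an extension. -/
theorem ef_conj {N M S : Subgroup K} [hNn : N.Normal] [hMn : M.Normal] {F : L → ℂ}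
    (hF : EF π N M S F) (t : L) (ht : π t ∈ S) : EF π N M S (fun x => F (t * x * t⁻¹)) := by
  have hN0 : ∀ (N' : Subgroup K), N'.Normal → ∀ t ∈ S.comap π, ∀ a,
      a ∈ AL π N' S ↔ t * a * t⁻¹ ∈ AL π N' S := by
    intro N' hN' t ht a
    rw [Subgroup.mem_comap] at ht
    rw [mem_AL, mem_AL, map_mul, map_mul, map_inv]
    constructor
    · rintro ⟨h1, h2⟩
      exact ⟨hN'.conj_mem _ h1 _, S.mul_mem (S.mul_mem ht h2) (S.inv_mem ht)⟩
    · rintro ⟨h1, h2⟩
      constructor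
      · have := hN'.conj_mem _ h1 (π t)⁻¹
        have e : (π t)⁻¹ * (π t * π a * (π t)⁻¹) * (π t)⁻¹⁻¹ = π a := by group
        rwa [e] at this
      · have := S.mul_mem (S.mul_mem (S.inv_mem ht) h2) ht
        have e : (π t)⁻¹ * (π t * π a * (π t)⁻¹) * π t = π a := by group
        rwa [e] at this
  refine ⟨⟨?_, ?_⟩, ?_, hF.cov⟩
  · exact hF.irr.1.comp_mulEquiv
      (NPT.cj (AL π M S) (S.comap π) (hN0 M hMn) ⟨t, ht⟩)
  · intro x hx
    exact hF.irr.2 _ fun h => hx ((hN0 M hMn t ht x).mpr h)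
  · exact hF.res.comp_mulEquiv
      (NPT.cj (AL π N S) (S.comap π) (hN0 N hNn) ⟨t, ht⟩)

/-- The scalars of a multiple. -/
theorem sc_smul (𝔐 : Ideal (integralClosure ℤ ℂ)) {F G : L → ℂ} {c : ℂ} (hc : c ≠ 0)
    (h : ∀ x, F x = c * G x) (u : L → ℤ) : sc 𝔐 F u = sc 𝔐 G u := by
  rw [sc, sc]
  congr 1
  have h1 : ∑ x, ((u x : ℤ) : ℂ) * F x = c * ∑ x, ((u x : ℤ) : ℂ) * G x := by
    rw [Finset.mul_sum]
    refine Finset.sum_congr rfl fun x _ => ?_
    rw [h x]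
    ring
  rw [h1, h 1, mul_div_mul_left _ _ hc]

/-- The scalars of a conjugate. -/
theorem sc_cj (𝔐 : Ideal (integralClosure ℤ ℂ)) {F : L → ℂ} (t : L) (u : L → ℤ) :
    sc 𝔐 (fun x => F (t * x * t⁻¹)) u = sc 𝔐 F (fun x => u (t⁻¹ * x * t)) := by
  rw [sc, sc]
  have h0 : F (t * 1 * t⁻¹) = F 1 := by
    rw [mul_one, mul_inv_cancel]
  rw [h0]
  congr 2
  refine Fintype.sum_equiv (MulAut.conj t).toEquiv _ _ fun x => ?_
  have h3 : (MulAut.conj t).toEquiv x = t * x * t⁻¹ := rfl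
  rw [h3]
  have h4 : t⁻¹ * (t * x * t⁻¹) * t = x := by group
  rw [h4]

/-- Conjugation of an invariant function. -/
theorem civ_conj {S : Subgroup L} (hS : S.Normal) {u : L → ℤ} (hu : CIv S u) (t : L) :
    CIv S (fun x => u (t⁻¹ * x * t)) := by
  intro s hs x
  have h1 := hu (t⁻¹ * s * t⁻¹⁻¹) (hS.conj_mem s hs t⁻¹) (t⁻¹ * x * t)
  change u (t⁻¹ * (s * x * s⁻¹) * t) = u (t⁻¹ * x * t)
  rw [← h1]
  congr 1
  group

end

end DWN

open _root_.Pool.Agent.DPG.DWN in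
/-- DWN: every pair of `L` of a closed chain is conjugate to a pair which belongs to a pair
of `L1`. -/
theorem DWN_thm (h1 : Stmt_NPT) (h2 : Stmt_CLS) (h3 : Stmt_CJN) (h4 : Stmt_CJS)
    (h5 : Stmt_CST) (h6 : Stmt_LMT) (h7 : Stmt_TNA) (h8 : Stmt_RIX) (h9 : Stmt_RIY)
    (h10 : Stmt_ZEX) (h11 : Stmt_BEM) (h12 : Stmt_CMB) : Stmt_DWN := by
  classical
  intro L K K1 Q L1 Ω _ _ _ _ _ _ _ _ _ _ _ _ 𝔐 ℓ _ hmax hℓ π μ φ q α ε μQ π1 μ1 ι M M1 σr Fr ζ
    R ω θr hTPr hθr hSTB hSPP σ θ hσ hClo hθ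
  haveI hNn : (NN' π ε).Normal := WDB.normal_NN R.wd
  haveI hqn : q.range.Normal := WDB.normal_range R.wd
  haveI hMn : M.Normal := R.mm.nm
  haveI hM1n : M1.Normal := R.mm.nm1
  obtain ⟨-, -, hCST⟩ := h5 L K K1 Q Ω ℓ π μ φ q α ε μQ R.wd
  -- the restriction to `N`
  obtain ⟨f, e, he, hf, hfo, hsj, hfi, hθf, ⟨f0, hf0⟩, hsc⟩ :=
    h1 L K 𝔐 ℓ hmax hℓ π R.wd.πs R.wd.πc μ (NN' π ε) M R.mm.le ω hSTB hSPP σ θ hσ hθ
  obtain ⟨n, σ1, f1, hσ1, hσe, hf1, hf1o, hsj1, hf1i, hTF⟩ :=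
    h2 L K K1 Q Ω ℓ π μ φ q α ε μQ R.wd σ f hσ hClo hf hfo hsj hfi
  obtain ⟨hC1, -⟩ := hCST σ1 hσ1
  obtain ⟨hCr, -⟩ := hCST σr R.ch
  -- the conjugate
  have hstb : (stb σ).map (MulAut.conj (π (ε n)⁻¹)).toMonoidHom =
      stb (cstC φ (NN' π ε) σ1) := by
    obtain ⟨e1, e2, -⟩ := h4 K ℓ M (π (ε n))⁻¹ (π (ε n)) (cstC φ (NN' π ε) σ1)
    obtain ⟨-, -, -, e4, -⟩ := h4 K ℓ M (π (ε n)⁻¹) 1 σ
    rw [← e4, hσe, map_inv, ← e2, inv_mul_cancel, e1]
  have hθ1 : BPs 𝔐 π μ M ω (stb (cstC φ (NN' π ε) σ1)) (cjF (ε n)⁻¹ θ) := by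
    rw [← hstb]
    exact (h3 L K 𝔐 π R.wd.πs R.wd.πc μ M (ε n)⁻¹ (stb σ) θ).1 ω hθ
  -- values on `N`
  have hval : ∀ (σ' : Finset (Subgroup K)) (θ' f' : L → ℂ) (e' : ℕ),
      IrrOn (AL π M (stb σ')) θ' → IrrOn (AL π (NN' π ε) (stb σ')) f' →
      (∀ x ∈ AL π (NN' π ε) (stb σ'), θ' x = e' * f' x) →
      ∀ x, π x ∈ NN' π ε → θ' x = e' * f' x := by
    intro σ' θ' f' e' hθ' hf' h x hx
    by_cases hxs : π x ∈ stb σ'
    · exact h x (mem_AL.mpr ⟨hx, hxs⟩)
    · rw [hθ'.2 x fun h => hxs (mem_AL.mp h).2, hf'.2 x fun h => hxs (mem_AL.mp h).2, mul_zero]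
  have hθ1v : ∀ m : Ω → Q, cjF (ε n)⁻¹ θ (ε m) = e * ∏ o, f1 (m o) := by
    intro m
    rw [← hTF.1 m]
    refine hval σ θ f e hθ.irr hf hθf _ ?_
    rw [inv_inv, ← map_inv, ← map_mul, ← map_mul]
    exact WDB.πε_mem R.wd _
  -- the reference pair
  obtain ⟨f', e', he', hf', hfo', hsj', hfi', hθf', -, hsc'⟩ :=
    h1 L K 𝔐 ℓ hmax hℓ π R.wd.πs R.wd.πc μ (NN' π ε) M R.mm.le ω hSTB hSPP
      (cstC φ (NN' π ε) σr) θr hCr hθr
  have hFr0 : ∀ x, q x ∉ stb σr → Fr (ι x) = 0 := by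
    intro x hx
    refine R.ef.irr.2 _ fun h => hx ?_
    rw [← R.ld.πι]
    exact (mem_AL.mp h).2
  obtain ⟨hFrι, hFrιo⟩ := restr R.ld (stb σr) R.ef.res hFr0 R.ov
  obtain ⟨F'', hF'', -, hTF''⟩ := (h7 L K K1 Q Ω π μ φ q α ε μQ R.wd (fun _ => stb σr)).1
    (fun _ x => Fr (ι x)) (fun _ => ⟨hFrι, hFrιo⟩)
  have hθrv : ∀ m : Ω → Q, (e' : ℂ) * f' (ε m) = ζ 1 * ∏ o, Fr (ι (m o)) := by
    intro m
    rw [← hval _ θr f' e' hθr.irr hf' hθf' _ (WDB.πε_mem R.wd m)]
    have h13 := hTPr.2 (dY ε ι m) (WDB.dY_mem_MY R.wd R.ld R.mm.le m)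
    have h14 := R.zt.d m 1
    rw [one_mul] at h14
    rw [h14] at h13
    rw [mul_comm]
    exact h13
  have hec : (e' : ℂ) ≠ 0 := Nat.cast_ne_zero.mpr he'
  have hζ1 : ζ 1 ≠ 0 := by
    intro h0
    have h13 := hθrv 1
    rw [h0, zero_mul, map_one] at h13
    rcases mul_eq_zero.mp h13 with h14 | h14
    · exact hec h14
    · exact hf'.1.one_ne_zero h14
  have hf'F : ∀ x, f' x = (ζ 1 / e') * F'' x := by
    intro x
    by_cases hx : x ∈ ε.range
    · obtain ⟨m, rfl⟩ := hx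
      rw [hTF''.1 m, div_mul_eq_mul_div, eq_div_iff hec, ← hθrv m]
      ring
    · rw [hTF''.2 x hx, mul_zero]
      refine hf'.2 x fun h => hx ?_
      obtain ⟨m, hm⟩ := (WDB.mem_comap_NN R.wd).mp (mem_AL.mp h).1
      exact ⟨m, hm⟩
  have hsc2 : ∀ u : L → ℤ, CIv ((NN' π ε).comap π) u → SOn ((NN' π ε).comap π : Set L) u →
      sc 𝔐 (cjF (ε n)⁻¹ f) u = sc 𝔐 F'' u := by
    intro u hu hus
    have e1 : sc 𝔐 (cjF (ε n)⁻¹ f) u = sc 𝔐 f u := by
      have h13 := sc_cj 𝔐 (F := f) (ε n) u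
      have h14 : (fun x => f (ε n * x * (ε n)⁻¹)) = cjF (ε n)⁻¹ f := by
        funext x
        rw [cjF, inv_inv]
      have h15 : (fun x => u ((ε n)⁻¹ * x * ε n)) = u := by
        funext x
        have h16 := hu (ε n)⁻¹ (Subgroup.inv_mem _ (WDB.πε_mem R.wd n)) x
        rwa [inv_inv] at h16
      rw [h14, h15] at h13
      exact h13
    rw [e1, hsc f0 hf0 u hu hus, ← hsc' f0 hf0 u hu hus,
      sc_smul 𝔐 (div_ne_zero hζ1 hec) hf'F u]
  have hscQ := (h6 L K K1 Q Ω 𝔐 ℓ hmax hℓ π μ φ q α ε μQ R.wd (fun _ => stb σ1)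
    (fun _ => stb σr) (fun _ => f1) (fun _ x => Fr (ι x)) (cjF (ε n)⁻¹ f) F''
    (fun _ => ⟨hf1, hf1o⟩) (fun _ => ⟨hFrι, hFrιo⟩) hTF hTF'').mpr hsc2
  -- transfer to `L1`
  obtain ⟨fh, hfh, hfho, hfhι⟩ := transfer R.ld (stb σ1) hf1 hf1o
  have hfhf : (fun x => fh (ι x)) = f1 := funext hfhι
  have hsc3 : ∀ u : L1 → ℤ, CIv (q.range.comap π1) u → SOn (q.range.comap π1 : Set L1) u →
      sc 𝔐 fh u = sc 𝔐 Fr u := by
    intro u hu hus
    refine sc_eq hmax R.ld (S := stb σ1) (S' := stb σr) (by rw [hfhf]; exact hf1) hfho hFrι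
      R.ov (fun w hw => ?_) u hu hus
    rw [hfhf]
    exact hscQ (Classical.arbitrary Ω) w hw
  obtain ⟨-, -, F1, hEF1, hF1f, hF1s⟩ := h8 L1 K1 𝔐 ℓ hmax hℓ π1 R.ld.s R.ld.c q.range M1
    R.mm.le1 R.mm.cop1 σr Fr R.ch R.ef R.sup σ1 fh hσ1 hfh hsc3
  have hF1o : Ov π1 μ1 F1 := ov_ext R.ld.c hEF1 hF1f hfho
  have hF1ι : ∀ x, F1 (ι x) = f1 x := by
    intro x
    by_cases hx : q x ∈ stb σ1
    · rw [hF1f _ (mem_AL.mpr ⟨by rw [R.ld.πι]; exact ⟨x, rfl⟩, by rw [R.ld.πι]; exact hx⟩),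
        hfhι]
    · rw [hf1.2 x hx, hEF1.irr.2]
      intro h
      apply hx
      rw [← R.ld.πι]
      exact (mem_AL.mp h).2
  have hF1v : ∀ (z : π1.ker) (x : Q), F1 (z * ι x) = ((μ1 z : ℂˣ) : ℂ) * f1 x := by
    intro z x
    rw [hF1o z (ι x), hF1ι]
  -- the invariance
  have hqc : (q.range.comap π1).Normal := inferInstance
  have hSUP1 : SUP 𝔐 π1 q.range M1 F1 := by
    intro x hx
    obtain ⟨u, hu, hus, hne⟩ := R.sup x hx
    refine ⟨u, hu, hus, ?_⟩
    rw [hF1s u hu]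
    exact hne
  have hF1i : ∀ t, π1 t ∈ stb σ1 → ∀ x, F1 (t * x * t⁻¹) = F1 x := by
    intro t ht x
    have hEFt := ef_conj hEF1 t ht
    have h13 := h9 L1 K1 𝔐 ℓ hmax hℓ π1 R.ld.s R.ld.c q.range M1 R.mm.le1 R.mm.cop1 (stb σ1)
      F1 (fun x => F1 (t * x * t⁻¹)) hEF1 hEFt (by
        intro y hy
        obtain ⟨z, w, rfl⟩ := mem_range R.ld (mem_AL.mp hy).1
        have h14 : t * (z * ι w) * t⁻¹ = z * ι (α (π1 t) w) := by
          rw [R.ld.ια]
          have h15 := zcomm R.ld z t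
          calc t * (z * ι w) * t⁻¹ = (t * z) * ι w * t⁻¹ := by group
            _ = (z * t) * ι w * t⁻¹ := by rw [h15]
            _ = _ := by group
        change F1 (z * ι w) = F1 (t * (z * ι w) * t⁻¹)
        rw [h14, hF1v, hF1v, hf1i (π1 t) ht w]) hSUP1 (by
        intro u hu
        rw [sc_cj 𝔐 t u, hF1s u hu, hF1s _ (civ_conj hqc hu t)]
        have h14 := BEM.sc_conj (𝔐 := 𝔐) R.ld.s R.sj R.iv hu t⁻¹
        rw [inv_inv] at h14
        exact h14.symm)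
    exact (congrFun h13 x).symm
  have hBPs1 : BPs 𝔐 π1 μ1 M1 (cg 𝔐 Fr) (stb σ1) F1 := by
    refine ⟨hEF1.irr, hF1o, fun g _ => ?_, ?_, hF1i⟩
    · rw [BEM.cg_eq, BEM.cg_eq, hF1s]
      intro s _ x
      exact BEM.cI_conj g s x
    · rw [eq_top_iff, ← hsj1]
      exact sup_le_sup_right R.mm.le1 _
  -- the quotient
  obtain ⟨ζ1, hZ1, hTP1⟩ := h10 L K K1 Q L1 Ω ℓ π μ φ q α ε μQ π1 μ1 ι M M1 R.wd R.ld R.mm
    σ1 F1 hσ1 hEF1 hF1o (cjF (ε n)⁻¹ θ) e hθ1.irr hθ1.ovl (by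
      intro m
      rw [hθ1v m]
      congr 1
      exact Finset.prod_congr rfl fun o _ => (hF1ι (m o)).symm)
  have hBEM := h11 L K 𝔐 ℓ hmax hℓ π R.wd.πs R.wd.πc μ M ω (cstC φ (NN' π ε) σr)
    (cstC φ (NN' π ε) σ1) θr (cjF (ε n)⁻¹ θ) ⟨hCr.1, fun D hD => (hCr.2 D hD).trans R.mm.le⟩
    ⟨hC1.1, fun D hD => (hC1.2 D hD).trans R.mm.le⟩ hθr hθ1
  have hζζ : ζ = ζ1 := h12 L K K1 Q L1 Ω 𝔐 ℓ hmax hℓ π μ φ q α ε μQ π1 μ1 ι M M1 R.wd R.ld
    R.mm (stb σr) (stb σ1) Fr F1 R.ef hEF1 R.ov hF1o R.sup (fun u hu => (hF1s u hu).symm)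
    ζ ζ1 R.zt hZ1 (stb (cstC φ (NN' π ε) σr)) (stb (cstC φ (NN' π ε) σ1)) θr
    (cjF (ε n)⁻¹ θ) hθr.irr hθ1.irr hTPr hTP1 hBEM
  refine ⟨n, σ1, F1, ⟨hσ1.1, fun D hD => (hσ1.2 D hD).trans R.mm.le1⟩, hBPs1, hσe, ?_⟩
  rw [hζζ]
  exact hTP1

end Pool.Agent.DPG


end

section

/-!
# TRO: preliminaries on the wreath product data
-/

set_option autoImplicit false

namespace Pool.Agent.DPG

open Pool.Agent.DP Pool.Agent.DPC Pool.Agent.DPM Pool.Agent.DPN Pool.Agent.DPF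
  Pool.Agent.DPK Pool.Agent.Lib_helper13 Representation
open Pool.Agent.Lib_helper13.Dade (pCore DadeHolds dadeSum)

namespace TRO

set_option linter.unusedSectionVars false

section

variable {L K K1 Q Ω : Type} [Group L] [Group K] [Group K1] [Group Q] [Fintype Ω]
  {π : L →* K} {μ : π.ker →* ℂˣ} {φ : K →* Gam (Equiv.Perm Ω) Ω K1} {q : Q →* K1}
  {α : K1 →* MulAut Q} {ε : (Ω → Q) →* L} {μQ : q.ker →* ℂˣ}

theorem mem_N (h : WD π μ φ q α ε μQ) (k : K) :
    k ∈ NN' π ε ↔ (φ k).right = 1 ∧ ∀ o, (φ k).left o ∈ q.range := by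
  constructor
  · rintro ⟨l, ⟨n, rfl⟩, rfl⟩
    rw [h.φε]
    exact ⟨rfl, fun o => ⟨n o, rfl⟩⟩
  · rintro ⟨h1, h2⟩
    choose n hn using h2
    refine ⟨ε n, ⟨n, rfl⟩, h.φi ?_⟩
    rw [h.φε]
    apply SemidirectProduct.ext
    · funext o
      exact hn o
    · exact h1.symm

theorem exists_N (h : WD π μ φ q α ε μQ) (s : Ω → K1) (hs : ∀ o, s o ∈ q.range) :
    ∃ k ∈ NN' π ε, (φ k).right = 1 ∧ ∀ o, (φ k).left o = s o := by
  choose n hn using hs
  refine ⟨π (ε n), ⟨ε n, ⟨n, rfl⟩, rfl⟩, ?_, ?_⟩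
  · rw [h.φε]
    rfl
  · intro o
    rw [h.φε]
    exact hn o

theorem comap_N (h : WD π μ φ q α ε μQ) : (NN' π ε).comap π = ε.range := by
  ext x
  constructor
  · rintro ⟨l, hl, hlx⟩
    have h1 : x * l⁻¹ ∈ π.ker := by
      rw [MonoidHom.mem_ker, map_mul, map_inv, hlx, mul_inv_cancel]
    have h2 := ε.range.mul_mem (h.kr h1) hl
    rwa [inv_mul_cancel_right] at h2
  · intro hx
    exact ⟨x, hx, rfl⟩

theorem normal_N (h : WD π μ φ q α ε μQ) : (NN' π ε).Normal := by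
  refine ⟨?_⟩
  rintro _ ⟨_, ⟨n, rfl⟩, rfl⟩ k
  obtain ⟨l, rfl⟩ := h.πs k
  refine ⟨l * ε n * l⁻¹, ⟨_, h.cj l n⟩, ?_⟩
  rw [map_mul, map_mul, map_inv]

theorem left_conj (g x : Gam (Equiv.Perm Ω) Ω K1) (hx : x.right = 1) (o : Ω) :
    (g * x * g⁻¹).left o = g.left o * x.left (g.right⁻¹ • o) * (g.left o)⁻¹ := by
  change (g * x).left o * (g⁻¹).left ((g * x).right⁻¹ • o) = _
  have h1 : (g * x).right = g.right := by
    rw [SemidirectProduct.mul_right, hx, mul_one]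
  rw [h1]
  have h2 : (g⁻¹).left (g.right⁻¹ • o) = (g.left (g.right⁻¹⁻¹ • g.right⁻¹ • o))⁻¹ := rfl
  rw [h2, inv_inv, smul_inv_smul]
  rfl

theorem right_conj (g x : Gam (Equiv.Perm Ω) Ω K1) (hx : x.right = 1) :
    (g * x * g⁻¹).right = 1 := by
  rw [SemidirectProduct.mul_right, SemidirectProduct.mul_right, hx, mul_one,
    SemidirectProduct.inv_right, mul_inv_cancel]

theorem pi_eps_eq_one (h : WD π μ φ q α ε μQ) (n : Ω → Q) :
    π (ε n) = 1 ↔ ∀ o, q (n o) = 1 := by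
  rw [← map_eq_one_iff φ h.φi, h.φε]
  constructor
  · intro h1 o
    have h2 := congrArg (fun g => g.left o) h1
    exact h2
  · intro h1
    apply SemidirectProduct.ext
    · funext o
      exact h1 o
    · rfl

theorem card_eq [Finite L] [Finite Q] (h : WD π μ φ q α ε μQ) : ∃ r : ℕ, r ≠ 0 ∧
    Nat.card Q ^ Fintype.card Ω = Nat.card q.ker ^ Fintype.card Ω * r ∧
    Nat.card ↥((NN' π ε).comap π) = Nat.card π.ker * r := by
  have h0 : Nat.card ↥((NN' π ε).comap π) = Nat.card π.ker * π.ker.relIndex ε.range := by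
    rw [comap_N h]
    have h2 := Subgroup.relIndex_mul_relIndex (⊥ : Subgroup L) π.ker ε.range bot_le h.kr
    rw [Subgroup.relIndex_bot_left, Subgroup.relIndex_bot_left] at h2
    exact h2.symm
  refine ⟨π.ker.relIndex ε.range, ?_, ?_, h0⟩
  · intro h1
    rw [h1, mul_zero] at h0
    exact Nat.card_pos.ne' h0
  · have h1 : Nat.card ↥(π.ker.comap ε) = Nat.card q.ker ^ Fintype.card Ω := by
      rw [← Nat.card_eq_fintype_card (α := Ω), ← Nat.card_fun]
      refine Nat.card_congr ⟨fun n o => ⟨n.1 o, ?_⟩, fun z => ⟨fun o => (z o : Q), ?_⟩, ?_, ?_⟩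
      · exact (pi_eps_eq_one h n.1).mp n.2 o
      · exact (pi_eps_eq_one h _).mpr fun o => (z o).2
      · intro n
        rfl
      · intro z
        rfl
    rw [← h1, ← Subgroup.index_comap, Subgroup.card_mul_index, Nat.card_fun,
      Nat.card_eq_fintype_card (α := Ω)]

/-! ### The chains in one coordinate -/

open Classical in
/-- The elements whose coordinate at `o` lies in `D` and whose other coordinates are trivial. -/
noncomputable def P (φ : K →* Gam (Equiv.Perm Ω) Ω K1) (o : Ω) (D : Subgroup K1) : Subgroup K :=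
  PS φ (Function.update (fun _ => ⊥) o D)

theorem mem_P {φ : K →* Gam (Equiv.Perm Ω) Ω K1} {o : Ω} {D : Subgroup K1} {k : K} :
    k ∈ P φ o D ↔ (φ k).right = 1 ∧ (φ k).left o ∈ D ∧ ∀ w, w ≠ o → (φ k).left w = 1 := by
  classical
  constructor
  · rintro ⟨h1, h2⟩
    refine ⟨h1, ?_, ?_⟩
    · have h3 := h2 o
      rwa [Function.update_self] at h3
    · intro w hw
      have h3 := h2 w
      rw [Function.update_of_ne hw] at h3
      exact h3
  · rintro ⟨h1, h2, h3⟩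
    refine ⟨h1, ?_⟩
    intro w
    by_cases hw : w = o
    · subst hw
      rw [Function.update_self]
      exact h2
    · rw [Function.update_of_ne hw, h3 w hw]
      exact Subgroup.one_mem _

theorem exists_P (h : WD π μ φ q α ε μQ) (o : Ω) {D : Subgroup K1} (hD : D ≤ q.range) {d : K1}
    (hd : d ∈ D) : ∃ k ∈ P φ o D, (φ k).left o = d := by
  classical
  obtain ⟨k, -, hk, hk'⟩ := exists_N h (Function.update (fun _ => 1) o d) (by
    intro w
    by_cases hw : w = o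
    · subst hw
      rw [Function.update_self]
      exact hD hd
    · rw [Function.update_of_ne hw]
      exact Subgroup.one_mem _)
  have h1 : (φ k).left o = d := by
    rw [hk', Function.update_self]
  refine ⟨k, mem_P.mpr ⟨hk, by rw [h1]; exact hd, ?_⟩, h1⟩
  intro w hw
  rw [hk', Function.update_of_ne hw]

theorem P_le_N (h : WD π μ φ q α ε μQ) (o : Ω) {D : Subgroup K1} (hD : D ≤ q.range) :
    P φ o D ≤ NN' π ε := by
  intro k hk
  obtain ⟨h1, h2, h3⟩ := mem_P.mp hk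
  refine (mem_N h k).mpr ⟨h1, ?_⟩
  intro w
  by_cases hw : w = o
  · subst hw
    exact hD h2
  · rw [h3 w hw]
    exact Subgroup.one_mem _

theorem P_mono (o : Ω) {D E : Subgroup K1} (hDE : D ≤ E) : P φ o D ≤ P φ o E := by
  intro k hk
  obtain ⟨h1, h2, h3⟩ := mem_P.mp hk
  exact mem_P.mpr ⟨h1, hDE h2, h3⟩

theorem P_pgroup (h : WD π μ φ q α ε μQ) (o : Ω) {ℓ : ℕ} {D : Subgroup K1} (hD : IsPGroup ℓ D) :
    IsPGroup ℓ (P φ o D) := by
  have hm : ∀ a b : ↥(P φ o D), (φ (a * b : K)).left o = (φ a).left o * (φ b).left o := by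
    intro a b
    rw [map_mul]
    change (φ a).left o * (φ b).left ((φ a).right⁻¹ • o) = _
    rw [(mem_P.mp a.2).1, inv_one, one_smul]
  let f : ↥(P φ o D) →* D :=
    { toFun := fun k => ⟨(φ k).left o, (mem_P.mp k.2).2.1⟩
      map_one' := by
        apply Subtype.ext
        change (φ ((1 : ↥(P φ o D)) : K)).left o = 1
        rw [Subgroup.coe_one, map_one]
        rfl
      map_mul' := by
        intro a b
        apply Subtype.ext
        exact hm a b }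
  refine hD.of_injective f ?_
  intro a b hab
  apply Subtype.ext
  apply h.φi
  obtain ⟨a1, -, a3⟩ := mem_P.mp a.2
  obtain ⟨b1, -, b3⟩ := mem_P.mp b.2
  apply SemidirectProduct.ext
  · funext w
    by_cases hw : w = o
    · subst hw
      exact congrArg Subtype.val hab
    · rw [a3 w hw, b3 w hw]
  · rw [a1, b1]

open Classical in
/-- The chain in one coordinate. -/
noncomputable def PC (φ : K →* Gam (Equiv.Perm Ω) Ω K1) (o : Ω) (σ : Finset (Subgroup K1)) :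
    Finset (Subgroup K) :=
  σ.image (P φ o)

theorem mem_PC {φ : K →* Gam (Equiv.Perm Ω) Ω K1} {o : Ω} {σ : Finset (Subgroup K1)}
    {E : Subgroup K} : E ∈ PC φ o σ ↔ ∃ D ∈ σ, P φ o D = E := by
  classical
  rw [PC, Finset.mem_image]

theorem chN_PC (h : WD π μ φ q α ε μQ) (o : Ω) {ℓ : ℕ} {σ : Finset (Subgroup K1)}
    (hσ : ChN ℓ q.range σ) : ChN ℓ (NN' π ε) (PC φ o σ) := by
  refine ⟨⟨?_, ?_⟩, ?_⟩
  · intro E hE
    obtain ⟨D, hD, rfl⟩ := mem_PC.mp hE
    refine ⟨P_pgroup h o (hσ.1.1 D hD).1, ?_⟩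
    rw [bot_lt_iff_ne_bot]
    intro hb
    apply (hσ.1.1 D hD).2.ne'
    rw [Subgroup.eq_bot_iff_forall]
    intro d hd
    obtain ⟨k, hk, hk'⟩ := exists_P h o (hσ.2 D hD) hd
    rw [hb, Subgroup.mem_bot] at hk
    rw [← hk', hk, map_one]
    rfl
  · intro E hE F hF _
    obtain ⟨D, hD, rfl⟩ := mem_PC.mp (Finset.mem_coe.mp hE)
    obtain ⟨D', hD', rfl⟩ := mem_PC.mp (Finset.mem_coe.mp hF)
    exact (hσ.1.total hD hD').imp (P_mono o) (P_mono o)
  · intro E hE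
    obtain ⟨D, hD, rfl⟩ := mem_PC.mp hE
    exact P_le_N h o (hσ.2 D hD)

/-- One coordinate of the elements which normalize the chain in one coordinate. -/
theorem stb_aux (h : WD π μ φ q α ε μQ) (o : Ω) {ℓ : ℕ} {σ : Finset (Subgroup K1)}
    (hσ : ChN ℓ q.range σ) {k : K} (hk1 : (φ k).right = 1) (hk : k ∈ stb (PC φ o σ))
    {D : Subgroup K1} (hD : D ∈ σ) {d : K1} (hd : d ∈ D) :
    (φ k).left o * d * ((φ k).left o)⁻¹ ∈ D := by
  obtain ⟨x, hx, hx'⟩ := exists_P h o (hσ.2 D hD) hd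
  have h1 := (mem_stb'.mp hk (P φ o D) (mem_PC.mpr ⟨D, hD, rfl⟩) x).mp hx
  obtain ⟨-, h2, -⟩ := mem_P.mp h1
  rw [map_mul, map_mul, map_inv, left_conj _ _ (mem_P.mp hx).1, hk1, inv_one, one_smul, hx'] at h2
  exact h2

theorem left_inv_of {g : Gam (Equiv.Perm Ω) Ω K1} (hg : g.right = 1) (o : Ω) :
    (g⁻¹).left o = (g.left o)⁻¹ := by
  have h2 : (g⁻¹).left o = (g.left (g.right⁻¹⁻¹ • o))⁻¹ := rfl
  rw [h2, hg, inv_one, inv_one, one_smul]

open Classical in
/-- The stabilizer in `N` of the chain in one coordinate. -/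
theorem inf_stb (h : WD π μ φ q α ε μQ) (o : Ω) {ℓ : ℕ} {σ : Finset (Subgroup K1)}
    (hσ : ChN ℓ q.range σ) : NN' π ε ⊓ PS φ (Function.update (fun _ => ⊤) o (stb σ)) =
      NN' π ε ⊓ stb (PC φ o σ) := by
  ext k
  rw [Subgroup.mem_inf, Subgroup.mem_inf]
  refine and_congr_right fun hkN => ?_
  have hk1 : (φ k).right = 1 := ((mem_N h k).mp hkN).1
  have hkey : k ∈ PS φ (Function.update (fun _ => ⊤) o (stb σ)) ↔ (φ k).left o ∈ stb σ := by
    constructor
    · rintro ⟨-, h2⟩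
      have h3 := h2 o
      rwa [Function.update_self] at h3
    · intro h1
      refine ⟨hk1, fun w => ?_⟩
      by_cases hw : w = o
      · subst hw
        rw [Function.update_self]
        exact h1
      · rw [Function.update_of_ne hw]
        exact Subgroup.mem_top _
  rw [hkey]
  constructor
  · intro h1
    rw [mem_stb']
    intro E hE x
    obtain ⟨D, hD, rfl⟩ := mem_PC.mp hE
    have h2 := mem_stb'.mp h1 D hD
    have hright : (φ (k * x * k⁻¹)).right = 1 ↔ (φ x).right = 1 := by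
      rw [map_mul, map_mul, map_inv, SemidirectProduct.mul_right, SemidirectProduct.mul_right,
        SemidirectProduct.inv_right, hk1, one_mul, inv_one, mul_one]
    have hleft : (φ x).right = 1 → ∀ w, (φ (k * x * k⁻¹)).left w =
        (φ k).left w * (φ x).left w * ((φ k).left w)⁻¹ := by
      intro hx w
      rw [map_mul, map_mul, map_inv, left_conj _ _ hx, hk1, inv_one, one_smul]
    rw [mem_P, mem_P, hright]
    refine and_congr_right fun hx => ?_
    rw [hleft hx, ← h2]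
    refine and_congr_right fun _ => ?_
    refine forall_congr' fun w => ?_
    refine imp_congr_right fun _ => ?_
    rw [hleft hx]
    constructor
    · intro h3
      rw [h3]
      group
    · intro h3
      have h4 := mul_inv_eq_one.mp h3
      exact mul_eq_left.mp h4
  · intro h1
    rw [mem_stb']
    intro D hD x
    constructor
    · intro hx
      exact stb_aux h o hσ hk1 h1 hD hx
    · intro hx
      have h3 := stb_aux h o hσ (k := k⁻¹) (by
        rw [map_inv, SemidirectProduct.inv_right, hk1, inv_one])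
        ((stb (PC φ o σ)).inv_mem h1) hD hx
      rw [map_inv, left_inv_of hk1] at h3
      have h4 : ((φ k).left o)⁻¹ * ((φ k).left o * x * ((φ k).left o)⁻¹) *
          (((φ k).left o)⁻¹)⁻¹ = x := by group
      rwa [h4] at h3

/-- The elements which normalize a nonempty chain in one coordinate fix this coordinate. -/
theorem stb_fix (h : WD π μ φ q α ε μQ) (o : Ω) {ℓ : ℕ} {σ : Finset (Subgroup K1)}
    (hσ : ChN ℓ q.range σ) (hne : σ.Nonempty) {k : K} (hk : k ∈ stb (PC φ o σ)) :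
    (φ k).right o = o := by
  by_contra hno
  obtain ⟨D, hD⟩ := hne
  apply (hσ.1.1 D hD).2.ne'
  rw [Subgroup.eq_bot_iff_forall]
  intro d hd
  obtain ⟨x, hx, hx'⟩ := exists_P h o (hσ.2 D hD) hd
  have h1 := (mem_stb'.mp hk (P φ o D) (mem_PC.mpr ⟨D, hD, rfl⟩) x).mp hx
  obtain ⟨-, -, h3⟩ := mem_P.mp h1
  have h4 := h3 _ hno
  rw [map_mul, map_mul, map_inv, left_conj _ _ (mem_P.mp hx).1] at h4
  have h5 : (φ k).right⁻¹ • (φ k).right o = o := by
    change (φ k).right⁻¹ ((φ k).right o) = o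
    simp
  rw [h5, hx'] at h4
  exact mul_eq_left.mp (mul_inv_eq_one.mp h4)

end

end TRO

end Pool.Agent.DPG


end

section

/-!
# TRO: a nonempty chain with a character in the block of a character of `Q`
-/

set_option autoImplicit false

namespace Pool.Agent.DPG

open Pool.Agent.DP Pool.Agent.DPC Pool.Agent.DPM Pool.Agent.DPN Pool.Agent.DPF
  Pool.Agent.DPK Pool.Agent.Lib_helper13 Representation
open Pool.Agent.Lib_helper13.Dade (pCore DadeHolds dadeSum)
open Pool.Agent.DP.IRRPI (irrOn_ext0 res_ext0)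

namespace TRO

section Sc

variable {G : Type} [Group G] [Fintype G] {𝔐 : Ideal (integralClosure ℤ ℂ)}

theorem cg_eq_cen (S : Subgroup G) [Fintype S] {F : G → ℂ} (hF : ∀ x, x ∉ S → F x = 0) (g : G) :
    cg 𝔐 F g = cen 𝔐 S.subtype (fun s : S => F s) g := by
  rw [BEM.cg_eq, BEM.sc_sub S hF, cen]
  congr 2
  funext s
  exact BEM.cI_cast g s

theorem sc_pair {S : Subgroup G} {F : G → ℂ} (hF : IrrOn S F) {u : G → ℤ}
    (hu : CIv (⊤ : Subgroup G) u) :
    sc 𝔐 F u = pair 𝔐 (fun x => ((u x : ℤ) : ℂ)) (cg 𝔐 F) := by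
  classical
  rw [BEM.sc_sub S hF.2]
  have h1 := red_wt_eq_pair 𝔐 S.subtype hF.1 (fun x => ((u x : ℤ) : ℂ)) (by
    intro g x
    rw [hu g (Subgroup.mem_top g) x]) (fun x => Pool.Agent.Lib_helper13.isIntegral_intCast _)
  have h2 : (cg 𝔐 F) = cen 𝔐 S.subtype (fun s : S => F s) := by
    funext g
    exact cg_eq_cen S hF.2 g
  rw [h2]
  exact h1

end Sc

theorem irrOn_congr {G : Type} [Group G] {S T : Subgroup G} (h : S = T) {f : G → ℂ}
    (hf : IrrOn S f) : IrrOn T f := by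
  subst h
  exact hf

theorem hasDefect_congr {G : Type} [Group G] {ℓ d : ℕ} {S T : Subgroup G} (h : S = T)
    {f : G → ℂ} (hf : HasDefect ℓ (fun s : S => f s) d) : HasDefect ℓ (fun s : T => f s) d := by
  subst h
  exact hf

theorem irrOn_top {G : Type} [Group G] [Fintype G] {f : G → ℂ} : IrrOn (⊤ : Subgroup G) f ↔ IsIrr f := by
  constructor
  · intro h
    exact h.1.comp_mulEquiv (Subgroup.topEquiv (G := G)).symm
  · intro h
    exact ⟨h.comp_mulEquiv (Subgroup.topEquiv (G := G)), fun x hx => absurd (Subgroup.mem_top x) hx⟩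

theorem hasDefect_top' {G : Type} [Group G] [Fintype G] {ℓ d : ℕ} {f : G → ℂ} :
    HasDefect ℓ (fun s : (⊤ : Subgroup G) => f s) d ↔ HasDefect ℓ f d :=
  hasDefect_comp_equiv (Subgroup.topEquiv (G := G)) (ψ := f)

theorem sylAb_unit (ℓ : ℕ) [hℓ : Fact ℓ.Prime] : SylAb ℓ (⊥ : Subgroup Unit) := by
  refine ⟨inferInstance, ?_, ?_, ?_⟩
  · exact IsPGroup.of_bot
  · intro h
    have h1 : (⊥ : Subgroup Unit).index = 1 := by
      rw [Subgroup.index_bot]
      simp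
    rw [h1] at h
    exact hℓ.out.one_lt.ne' (Nat.dvd_one.mp h)
  · intro x y
    exact Subgroup.mem_bot.mpr (Subsingleton.elim _ _)

theorem exists_chain (Cl : ∀ (Y : Type) [Group Y], Prop) (h1 : Stmt_PS1r Cl) (Q K1 : Type)
    [Group Q] [Fintype Q] [Group K1] [Fintype K1] (𝔐 : Ideal (integralClosure ℤ ℂ)) (ℓ : ℕ)
    [Fact ℓ.Prime] (hM : 𝔐.IsMaximal) (hℓ : (ℓ : integralClosure ℤ ℂ) ∈ 𝔐) (q : Q →* K1)
    (hq : q.ker ≤ Subgroup.center Q) (μ : q.ker →* ℂˣ) (hμ : Function.Injective μ)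
    (hC : Cl q.range) (hH : HR Cl ℓ (Nat.card q.range)) (f : Q → ℂ)
    (hf : IrrOn (⊤ : Subgroup Q) f) (hfo : Ov q μ f)
    (hno : ∀ g, IrrOn (⊤ : Subgroup Q) g → Ov q μ g →
      (∀ u : Q → ℤ, CIv (⊤ : Subgroup Q) u → sc 𝔐 g u = sc 𝔐 f u) →
      ¬ HasDefect ℓ g (padicValNat ℓ (Nat.card q.ker))) :
    ∃ (σ : Finset (Subgroup K1)) (f1 : Q → ℂ), ChN ℓ q.range σ ∧ σ.Nonempty ∧
      IrrOn ((stb σ).comap q) f1 ∧ Ov q μ f1 ∧
      ∀ u : Q → ℤ, CIv (⊤ : Subgroup Q) u → sc 𝔐 f1 u = sc 𝔐 f u := by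
  classical
  have hfr : Fintype q.range := Fintype.ofFinite _
  have hker : q.rangeRestrict.ker = q.ker := MonoidHom.ker_rangeRestrict q
  let μ' : q.rangeRestrict.ker →* ℂˣ := μ.comp (Subgroup.inclusion hker.le)
  have hμ' : Function.Injective μ' := hμ.comp (Subgroup.inclusion_injective hker.le)
  have hcyc : IsCyclic q.rangeRestrict.ker :=
    isCyclic_of_injective_ringHom ((Units.coeHom ℂ).comp μ') (Units.val_injective.comp hμ')
  have hpos : Pos 𝔐 ℓ q.rangeRestrict μ' ⊤ (cg 𝔐 f) := by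
    intro θ hθ hov hd hcen
    have hT : (⊤ : Subgroup q.range).comap q.rangeRestrict = ⊤ := Subgroup.comap_top _
    have hmem : ∀ x, x ∈ (⊤ : Subgroup q.range).comap q.rangeRestrict := fun x => by
      rw [hT]
      exact Subgroup.mem_top x
    have hI := irrOn_ext0 hθ
    refine hno (ext0 θ) (irrOn_congr hT hI) ?_ ?_ ?_
    · intro z x
      have h2 := hov ⟨z, hmem z⟩ ⟨x, hmem x⟩ (by rw [hker]; exact z.2)
      rw [ext0_of_mem θ (hmem (z * x)), ext0_of_mem θ (hmem x)]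
      exact h2
    · intro u hu
      rw [sc_pair (irrOn_congr hT hI) hu, sc_pair hf hu]
      congr 1
      funext g
      rw [← hcen g (hmem g), cg_eq_cen _ hI.2, res_ext0]
    · apply hasDefect_top'.mp
      apply hasDefect_congr hT
      rw [res_ext0, ← hker]
      exact hd
  obtain ⟨d, hd⟩ := (irrOn_top.mp hf).exists_defect (ℓ := ℓ)
  have hsum := h1 Q q.range Unit 𝔐 ℓ hM hℓ q.rangeRestrict q.rangeRestrict_surjective
    (by rw [hker]; exact hq) hcyc μ' hμ' hC hH ⊤ 1 (fun _ => ⟨1, rfl⟩) (fun k => by simp) ⊥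
    (sylAb_unit ℓ) (cg 𝔐 f) hpos d
  have hex : ∃ τ ∈ Ch ℓ (⊥ : Subgroup ↥(⊤ : Subgroup q.range)), τ.Nonempty ∧
      Nonempty {ψ : ↥(SL q.rangeRestrict ⊤ τ ⊤) → ℂ // IsIrr ψ ∧
        OvL q.rangeRestrict.ker μ' _ ψ ∧ HasDefect ℓ ψ d ∧
        ∀ g ∈ (⊤ : Subgroup q.range).comap q.rangeRestrict,
          cen 𝔐 (SL q.rangeRestrict ⊤ τ ⊤).subtype ψ g = cg 𝔐 f g} := by
    by_contra hcon
    rw [PHU, Finset.sum_eq_single ∅] at hsum
    · rw [Finset.card_empty, pow_zero, one_mul, mul_eq_zero] at hsum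
      rcases hsum with h2 | h2
      · exact Nat.card_pos.ne' (by exact_mod_cast h2)
      · have hS : SL q.rangeRestrict ⊤ ∅ ⊤ = ⊤ := by
          have h3 : mapCh (⊤ : Subgroup q.range).subtype ∅ = ∅ := by
            rw [mapCh, Finset.image_empty]
          change ((⊤ : Subgroup q.range) ⊓
            stb (mapCh (⊤ : Subgroup q.range).subtype ∅)).comap q.rangeRestrict = ⊤
          rw [h3, stb_empty, inf_top_eq, Subgroup.comap_top]
        have hI := irrOn_congr hS.symm hf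
        have hne : Nonempty {ψ : ↥(SL q.rangeRestrict ⊤ ∅ ⊤) → ℂ // IsIrr ψ ∧
            OvL q.rangeRestrict.ker μ' _ ψ ∧ HasDefect ℓ ψ d ∧
            ∀ g ∈ (⊤ : Subgroup q.range).comap q.rangeRestrict,
              cen 𝔐 (SL q.rangeRestrict ⊤ ∅ ⊤).subtype ψ g = cg 𝔐 f g} := by
          refine ⟨fun s => f s, hI.1, ?_, hasDefect_congr hS.symm (hasDefect_top'.mpr hd), ?_⟩
          · intro s t hst
            exact hfo ⟨s, by rw [← hker]; exact hst⟩ t
          · intro g _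
            rw [cg_eq_cen _ hI.2]
        have hfin : Finite {ψ : ↥(SL q.rangeRestrict ⊤ ∅ ⊤) → ℂ // IsIrr ψ ∧
            OvL q.rangeRestrict.ker μ' _ ψ ∧ HasDefect ℓ ψ d ∧
            ∀ g ∈ (⊤ : Subgroup q.range).comap q.rangeRestrict,
              cen 𝔐 (SL q.rangeRestrict ⊤ ∅ ⊤).subtype ψ g = cg 𝔐 f g} :=
          Set.Finite.to_subtype (finite_isIrr.subset fun ψ hψ => hψ.1)
        exact Nat.card_pos.ne' (by exact_mod_cast h2)
    · intro τ hτ hne
      have h2 : IsEmpty {ψ : ↥(SL q.rangeRestrict ⊤ τ ⊤) → ℂ // IsIrr ψ ∧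
        OvL q.rangeRestrict.ker μ' _ ψ ∧ HasDefect ℓ ψ d ∧
        ∀ g ∈ (⊤ : Subgroup q.range).comap q.rangeRestrict,
          cen 𝔐 (SL q.rangeRestrict ⊤ τ ⊤).subtype ψ g = cg 𝔐 f g} := by
        rw [← not_nonempty_iff]
        intro h3
        exact hcon ⟨τ, hτ, Finset.nonempty_iff_ne_empty.mpr hne, h3⟩
      rw [Nat.card_eq_zero.mpr (Or.inl h2)]
      simp
    · intro h2
      exact absurd (mem_Ch.mpr (isCh_empty ℓ _)) h2
  obtain ⟨τ, hτ, ⟨D0, hD0⟩, ⟨ψ, hψ, hψo, -, hψc⟩⟩ := hex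
  have hiT : Function.Injective (⊤ : Subgroup q.range).subtype := Subtype.val_injective
  have hiq : Function.Injective q.range.subtype := Subtype.val_injective
  have hSL : SL q.rangeRestrict ⊤ τ ⊤ =
      (stb (mapCh q.range.subtype (mapCh (⊤ : Subgroup q.range).subtype τ))).comap q := by
    have h2 := comap_stb_mapCh hiq (mapCh (⊤ : Subgroup q.range).subtype τ)
    change ((⊤ : Subgroup q.range) ⊓
      stb (mapCh (⊤ : Subgroup q.range).subtype τ)).comap q.rangeRestrict = _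
    rw [top_inf_eq, ← h2]
    rfl
  have hI := irrOn_ext0 hψ
  refine ⟨mapCh q.range.subtype (mapCh (⊤ : Subgroup q.range).subtype τ), ext0 ψ, ⟨?_, ?_⟩,
    ⟨(D0.map _).map _, mem_mapCh.mpr ⟨_, mem_mapCh.mpr ⟨_, hD0, rfl⟩, rfl⟩⟩,
    irrOn_congr hSL hI, ?_, ?_⟩
  · have h3 := (isCh_mapCh_iff (Z := (⊥ : Subgroup ↥(⊤ : Subgroup q.range))) hiT).mpr
      (mem_Ch.mp hτ)
    rw [Subgroup.map_bot] at h3
    have h4 := (isCh_mapCh_iff (Z := (⊥ : Subgroup q.range)) hiq).mpr h3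
    rw [Subgroup.map_bot] at h4
    exact h4
  · intro D hD
    obtain ⟨D', -, rfl⟩ := mem_mapCh.mp hD
    exact Subgroup.map_subtype_le _
  · intro z x
    have hz : (z : Q) ∈ SL q.rangeRestrict ⊤ τ ⊤ := by
      rw [hSL, Subgroup.mem_comap, MonoidHom.mem_ker.mp z.2]
      exact Subgroup.one_mem _
    by_cases hx : x ∈ SL q.rangeRestrict ⊤ τ ⊤
    · rw [ext0_of_mem ψ hx, ext0_of_mem ψ (Subgroup.mul_mem _ hz hx)]
      exact hψo ⟨z, hz⟩ ⟨x, hx⟩ (by rw [hker]; exact z.2)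
    · have hzx : (z : Q) * x ∉ SL q.rangeRestrict ⊤ τ ⊤ := by
        intro h3
        apply hx
        have h4 := Subgroup.mul_mem _ (Subgroup.inv_mem _ hz) h3
        rwa [inv_mul_cancel_left] at h4
      rw [ext0_of_not_mem ψ hx, ext0_of_not_mem ψ hzx, mul_zero]
  · intro u hu
    rw [sc_pair hI hu, sc_pair hf hu]
    congr 1
    funext g
    rw [cg_eq_cen _ hI.2, res_ext0]
    exact hψc g (Subgroup.mem_top _)

end TRO

end Pool.Agent.DPG


end

section

/-!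
# TRO: the group `M` acts trivially on `Ω`
-/

set_option autoImplicit false
set_option linter.unusedSectionVars false

namespace Pool.Agent.DPG

open Pool.Agent.DP Pool.Agent.DPC Pool.Agent.DPM Pool.Agent.DPN Pool.Agent.DPF
  Pool.Agent.DPK Pool.Agent.Lib_helper13 Representation
open Pool.Agent.Lib_helper13.Dade (pCore DadeHolds dadeSum)

namespace TRO

theorem sc_comp {G : Type} [Group G] [Fintype G] {𝔐 : Ideal (integralClosure ℤ ℂ)} (a : G ≃* G)
    (F : G → ℂ) (u : G → ℤ) :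
    sc 𝔐 (fun x => F (a x)) u = sc 𝔐 F (fun x => u (a.symm x)) := by
  rw [sc, sc, map_one]
  congr 2
  refine Fintype.sum_equiv a.toEquiv _ _ fun x => ?_
  change ((u x : ℤ) : ℂ) * F (a x) = ((u (a.symm (a x)) : ℤ) : ℂ) * F (a x)
  rw [MulEquiv.symm_apply_apply]

section

variable {L K K1 Q Ω : Type} [Group L] [Fintype L] [Group K] [Fintype K] [Group K1] [Fintype K1]
  [Group Q] [Fintype Q] [Fintype Ω] {𝔐 : Ideal (integralClosure ℤ ℂ)}
  {π : L →* K} {μ : π.ker →* ℂˣ} {φ : K →* Gam (Equiv.Perm Ω) Ω K1} {q : Q →* K1}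
  {α : K1 →* MulAut Q} {ε : (Ω → Q) →* L} {μQ : q.ker →* ℂˣ}
  {ω : L → (integralClosure ℤ ℂ) ⧸ 𝔐} {f0 : L → ℂ} {f : Ω → Q → ℂ}

theorem twist (h : WD π μ φ q α ε μQ) {g : Q → ℂ}
    (hg : IrrOn (⊤ : Subgroup Q) g ∧ Ov q μQ g) (b : K1) :
    IrrOn ((⊤ : Subgroup K1).comap q) (fun x => g (α b x)) ∧ Ov q μQ (fun x => g (α b x)) := by
  constructor
  · rw [Subgroup.comap_top]
    exact irrOn_top.mpr ((irrOn_top.mp hg.1).comp_mulEquiv (α b))
  · intro z x
    change g (α b (z * x)) = _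
    rw [map_mul, h.αz b z z.2]
    exact hg.2 z _

theorem sc_move (h6 : Stmt_LMT) (ℓ : ℕ) [Fact ℓ.Prime] (hM : 𝔐.IsMaximal)
    (hℓ : (ℓ : integralClosure ℤ ℂ) ∈ 𝔐) (h : WD π μ φ q α ε μQ)
    (hstb : STB 𝔐 π μ (NN' π ε) ω) (hf0 : Cvd 𝔐 π μ (NN' π ε) ω f0)
    (hf : ∀ o, IrrOn (⊤ : Subgroup Q) (f o) ∧ Ov q μQ (f o)) (hTF : TF ε f f0) (k : K) (w : Ω)
    {u : Q → ℤ} (hu : CIv (⊤ : Subgroup Q) u) :
    sc 𝔐 (fun x => f ((φ k).right w) (α ((φ k).left ((φ k).right w)) x)) u =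
      sc 𝔐 (f w) u := by
  classical
  obtain ⟨l, rfl⟩ := h.πs k
  have hT : ∀ o, IrrOn ((⊤ : Subgroup K1).comap q) (f o) ∧ Ov q μQ (f o) := by
    intro o
    rw [Subgroup.comap_top]
    exact hf o
  have hTF' : TF ε (fun w x => f ((φ (π l)).right w) (α ((φ (π l)).left ((φ (π l)).right w)) x))
      (fun x => f0 (l * x * l⁻¹)) := by
    constructor
    · intro n
      change f0 (l * ε n * l⁻¹) = _
      rw [← h.cj, hTF.1, ← Equiv.prod_comp (φ (π l)).right]
      refine Finset.prod_congr rfl fun w _ => ?_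
      rw [wB_apply]
      have h7 : (φ (π l)).right⁻¹ • (φ (π l)).right w = w := by
        change (φ (π l)).right⁻¹ ((φ (π l)).right w) = w
        simp
      rw [h7]
    · intro l' hl'
      apply hTF.2
      intro h7
      apply hl'
      rw [← comap_N h] at h7 ⊢
      have h8 := (normal_N h).comap π
      have h9 := h8.conj_mem _ h7 l⁻¹
      have h10 : l⁻¹ * (l * l' * l⁻¹) * l⁻¹⁻¹ = l' := by group
      rwa [h10] at h9
  have h7 := (h6 L K K1 Q Ω 𝔐 ℓ hM hℓ π μ φ q α ε μQ h (fun _ => ⊤) (fun _ => ⊤) _ f _ f0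
    (fun w => twist h (hf _) _) hT hTF' hTF).mpr (by
      intro v hv hv'
      rw [← hstb f0 hf0 v hv hv' l⁻¹, sc, sc]
      have h8 : l * 1 * l⁻¹ = 1 := by group
      rw [h8]
      congr 2
      refine Fintype.sum_equiv (MulAut.conj l).toEquiv _ _ fun x => ?_
      have h9 : (MulAut.conj l).toEquiv x = l * x * l⁻¹ := rfl
      have h10 : l⁻¹ * (l * x * l⁻¹) * l⁻¹⁻¹ = x := by group
      rw [h9, h10])
  exact h7 w u hu

theorem AL_top (h : WD π μ φ q α ε μQ) :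
    AL π (NN' π ε) (PS φ (fun _ => ⊤)) = (NN' π ε).comap π := by
  have h1 : NN' π ε ⊓ PS φ (fun _ => (⊤ : Subgroup K1)) = NN' π ε := by
    rw [inf_eq_left]
    intro k hk
    exact ⟨((mem_N h k).mp hk).1, fun o => Subgroup.mem_top _⟩
  change (NN' π ε ⊓ PS φ (fun _ => (⊤ : Subgroup K1))).comap π = _
  rw [h1]

theorem no_min (h3 : Stmt_PSN) (h5 : Stmt_TNA) (h6 : Stmt_LMT) (ℓ : ℕ) [Fact ℓ.Prime]
    (hM : 𝔐.IsMaximal) (hℓ : (ℓ : integralClosure ℤ ℂ) ∈ 𝔐) (h : WD π μ φ q α ε μQ)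
    (M : Subgroup K) [M.Normal] (hNM : NN' π ε ≤ M) (hidx : ¬ ℓ ∣ (NN' π ε).relIndex M)
    (hpos : Pos 𝔐 ℓ π μ M ω)
    (hstb : STB 𝔐 π μ (NN' π ε) ω) {σ : Finset (Subgroup K)} {θ : L → ℂ}
    (hσ : ChN ℓ (NN' π ε) σ) (hθ : BPs 𝔐 π μ M ω (stb σ) θ)
    (hf0 : Cvd 𝔐 π μ (NN' π ε) ω f0)
    (hf : ∀ o, IrrOn (⊤ : Subgroup Q) (f o) ∧ Ov q μQ (f o)) (hTF : TF ε f f0) (o : Ω)
    (g : Q → ℂ) (hg : IrrOn (⊤ : Subgroup Q) g) (hgo : Ov q μQ g)
    (hgs : ∀ u : Q → ℤ, CIv (⊤ : Subgroup Q) u → sc 𝔐 g u = sc 𝔐 (f o) u) :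
    ¬ HasDefect ℓ g (padicValNat ℓ (Nat.card q.ker)) := by
  classical
  rintro ⟨m, hm, hm'⟩
  choose k hk using fun w => h.tr w o
  have hgg : ∀ w, IrrOn ((⊤ : Subgroup K1).comap q) (fun x => g (α ((φ (k w)).left o) x)) ∧
      Ov q μQ (fun x => g (α ((φ (k w)).left o) x)) := fun w => twist h ⟨hg, hgo⟩ _
  have hT : ∀ o, IrrOn ((⊤ : Subgroup K1).comap q) (f o) ∧ Ov q μQ (f o) := by
    intro o
    rw [Subgroup.comap_top]
    exact hf o
  have hsc : ∀ (w : Ω) (u : Q → ℤ), CIv (⊤ : Subgroup Q) u →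
      sc 𝔐 (fun x => g (α ((φ (k w)).left o) x)) u = sc 𝔐 (f w) u := by
    intro w u hu
    have e1 := sc_move h6 ℓ hM hℓ h hstb hf0 hf hTF (k w) w hu
    rw [hk w] at e1
    have hu' : CIv (⊤ : Subgroup Q) (fun x => u ((α ((φ (k w)).left o)).symm x)) := by
      intro s _ x
      change u _ = u _
      rw [map_mul, map_mul, map_inv]
      exact hu _ (Subgroup.mem_top _) _
    rw [← e1, sc_comp (α ((φ (k w)).left o)) g, sc_comp (α ((φ (k w)).left o)) (f o),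
      hgs _ hu']
  obtain ⟨G, hG1, hG2, hG3⟩ := (h5 L K K1 Q Ω π μ φ q α ε μQ h (fun _ => ⊤)).1
    (fun w x => g (α ((φ (k w)).left o) x)) hgg
  have hscG := (h6 L K K1 Q Ω 𝔐 ℓ hM hℓ π μ φ q α ε μQ h (fun _ => ⊤) (fun _ => ⊤) _ f G f0
    hgg hT hG3 hTF).mp hsc
  have hNn : (NN' π ε).Normal := normal_N h
  refine h3 L K 𝔐 ℓ hM hℓ π h.πs h.πc μ (NN' π ε) M hNM hidx ω hpos hstb σ θ
    ⟨hσ.1, fun D hD => (hσ.2 D hD).trans hNM⟩ hθ f0 hf0 G (irrOn_congr (AL_top h) hG1) hG2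
    hscG ?_
  have hm0 : m ≠ 0 := by
    rintro rfl
    obtain ⟨n, hn, hn'⟩ := (irrOn_top.mp hg).exists_degree
    rw [hm] at hn'
    have : n = 0 := by exact_mod_cast hn'.symm
    omega
  refine ⟨m ^ Fintype.card Ω, ?_, ?_⟩
  · change G 1 = _
    have h7 := hG3.1 1
    rw [map_one] at h7
    rw [h7]
    have h8 : ∀ w ∈ (Finset.univ : Finset Ω),
        g (α ((φ (k w)).left o) ((1 : Ω → Q) w)) = (m : ℂ) := by
      intro w _
      rw [Pi.one_apply, map_one, hm]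
    rw [Finset.prod_congr rfl h8, Finset.prod_const, Finset.card_univ, Nat.cast_pow]
  · obtain ⟨r, hr, h7, h8⟩ := card_eq h
    have h9 := congrArg (padicValNat ℓ) h7
    rw [h8, padicValNat.mul Nat.card_pos.ne' hr, padicValNat.pow]
    rw [padicValNat.mul (pow_ne_zero _ Nat.card_pos.ne') hr,
      padicValNat.pow, padicValNat.pow, hm', mul_add] at h9
    omega

end

end TRO

open _root_.Pool.Agent.DPG.TRO in
/-- TRO: `M` acts trivially on `Ω`. -/
theorem TRO_thm (Cl : ∀ (Y : Type) [Group Y], Prop) (h1 : Stmt_PS1r Cl) (h2 : Stmt_NPT)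
    (h3 : Stmt_PSN) (h4 : Stmt_SST) (h5 : Stmt_TNA) (h6 : Stmt_LMT) : Stmt_TRO Cl := by
  classical
  intro L K K1 Q Ω _ _ _ _ _ _ _ _ _ 𝔐 ℓ _ hM hℓ π μ φ q α ε μQ h hC hH M _ hNM hidx ω hpos
    hstb hspp σ θ hσ hθ m hm
  have hNn : (NN' π ε).Normal := normal_N h
  obtain ⟨-, -, -, -, -, -, -, -, ⟨f0, hf0⟩, -⟩ := h2 L K 𝔐 ℓ hM hℓ π h.πs h.πc μ (NN' π ε) M
    hNM ω hstb hspp σ θ hσ hθ
  obtain ⟨f, hfT, hTF⟩ := (h5 L K K1 Q Ω π μ φ q α ε μQ h (fun _ => ⊤)).2.1 f0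
    (irrOn_congr (AL_top h).symm hf0.1) hf0.2.1
  have hf : ∀ o, IrrOn (⊤ : Subgroup Q) (f o) ∧ Ov q μQ (f o) := by
    intro o
    have h7 := hfT o
    rw [Subgroup.comap_top] at h7
    exact h7
  have hqc : q.ker ≤ Subgroup.center Q := by
    intro z hz
    rw [Subgroup.mem_center_iff]
    intro x
    have h7 := h.αz (q x) z hz
    rw [h.qα] at h7
    have h8 : x * z * x⁻¹ * x = z * x := by rw [h7]
    rwa [inv_mul_cancel_right] at h8
  ext o
  rw [Equiv.Perm.one_apply]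
  obtain ⟨σ1, f1, hσ1, hne, hf1, hf1o, hf1s⟩ := exists_chain Cl h1 Q K1 𝔐 ℓ hM hℓ q hqc μQ h.μQi
    hC hH (f o) (hf o).1 (hf o).2
    (no_min h3 h5 h6 ℓ hM hℓ h M hNM hidx hpos hstb hσ hθ hf0 hf hTF o)
  have hP := chN_PC h o hσ1
  have hS' : ∀ w, IrrOn ((Function.update (fun _ => (⊤ : Subgroup K1)) o (stb σ1) w).comap q)
      (Function.update f o f1 w) ∧ Ov q μQ (Function.update f o f1 w) := by
    intro w
    by_cases hw : w = o
    · subst hw
      rw [Function.update_self, Function.update_self]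
      exact ⟨hf1, hf1o⟩
    · rw [Function.update_of_ne hw, Function.update_of_ne hw]
      exact hfT w
  obtain ⟨G, hG1, hG2, hG3⟩ := (h5 L K K1 Q Ω π μ φ q α ε μQ h
    (Function.update (fun _ => (⊤ : Subgroup K1)) o (stb σ1))).1 (Function.update f o f1) hS'
  have hG4 : IrrOn (AL π (NN' π ε) (stb (PC φ o σ1))) G := by
    refine irrOn_congr ?_ hG1
    change (NN' π ε ⊓ PS φ _).comap π = (NN' π ε ⊓ _).comap π
    rw [← inf_stb h o hσ1]
  have hGs := (h6 L K K1 Q Ω 𝔐 ℓ hM hℓ π μ φ q α ε μQ h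
    (Function.update (fun _ => (⊤ : Subgroup K1)) o (stb σ1)) (fun _ => ⊤)
    (Function.update f o f1) f G f0 hS' hfT hG3 hTF).mp (by
      intro w u hu
      by_cases hw : w = o
      · subst hw
        rw [Function.update_self]
        exact hf1s u hu
      · rw [Function.update_of_ne hw])
  obtain ⟨x, hx⟩ := h.πs m
  obtain ⟨u, v, hu, hv, hus, hvs, huv⟩ := hspp f0 hf0 x (by rw [hx]; exact hm)
  have hcs : SOn ((NN' π ε).comap π : Set L) (conv u v) := by
    intro z hz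
    rw [conv]
    refine Finset.sum_eq_zero fun y _ => ?_
    by_cases hy : u y = 0
    · rw [hy, zero_mul]
    · by_cases hy' : v (y⁻¹ * z) = 0
      · rw [hy', mul_zero]
      · exfalso
        apply hz
        have e1 : π (x⁻¹ * y) ∈ NN' π ε := by
          by_contra h7
          exact hy (hus y h7)
        have e2 : π (x * (y⁻¹ * z)) ∈ NN' π ε := by
          by_contra h7
          exact hy' (hvs _ h7)
        have e3 := hNn.conj_mem _ e1 (π x)
        have e4 := (NN' π ε).mul_mem e3 e2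
        have e5 : π x * π (x⁻¹ * y) * (π x)⁻¹ * π (x * (y⁻¹ * z)) = π z := by
          simp only [map_mul, map_inv]
          group
        rw [e5] at e4
        exact e4
  have hne0 : sc 𝔐 G (conv u v) ≠ 0 := by
    rw [hGs _ (NPT.conv_civ hu hv) hcs]
    exact huv
  obtain ⟨⟨t, ht, ht'⟩, -⟩ := h4 L K 𝔐 ℓ hM hℓ π h.πs h.πc (NN' π ε) (PC φ o σ1) hP G hG4 x u v
    hu hv hus hvs hne0
  have h7 := stb_fix h o hσ1 hne ht
  have h8 := ((mem_N h _).mp ht').1
  have h9 : (φ (π t)).right = (φ m).right := by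
    rw [map_mul, map_inv, hx, map_mul, map_inv, SemidirectProduct.mul_right,
      SemidirectProduct.inv_right] at h8
    exact (inv_mul_eq_one.mp h8).symm
  rw [← h9]
  exact h7

end Pool.Agent.DPG


end

section

/-!
# POL: no character of `L1` in the block of the reference pair has minimal defect
-/

set_option autoImplicit false

namespace Pool.Agent.DPG

open Pool.Agent.DP Pool.Agent.DPC Pool.Agent.DPM Pool.Agent.DPN Pool.Agent.DPF
  Pool.Agent.DPK Pool.Agent.Lib_helper13 Representation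
open Pool.Agent.Lib_helper13.Dade (pCore DadeHolds dadeSum)

namespace POL

section Lin

variable {K1 Q L1 : Type} [Group K1] [Group Q] [Group L1] {q : Q →* K1} {α : K1 →* MulAut Q}
  {μQ : q.ker →* ℂˣ} {π1 : L1 →* K1} {μ1 : π1.ker →* ℂˣ} {ι : Q →* L1}

/-- The map `(z, b) ↦ z * ι b`. -/
def zi (h : LD q α μQ π1 μ1 ι) (S : Subgroup K1) :
    π1.ker × ↥(S.comap q) →* ↥(AL π1 q.range S) where
  toFun x := ⟨(x.1 : L1) * ι x.2, by
    rw [Subgroup.mem_comap, map_mul, MonoidHom.mem_ker.mp x.1.2, one_mul, h.πι]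
    exact ⟨⟨_, rfl⟩, x.2.2⟩⟩
  map_one' := by
    apply Subtype.ext
    simp
  map_mul' := by
    intro x y
    apply Subtype.ext
    have h1 := WDB.kerπ1_comm h y.1.2 (ι x.2)
    change ((x.1 : L1) * y.1) * ι (x.2 * y.2) = (x.1 : L1) * ι x.2 * (y.1 * ι y.2)
    rw [map_mul]
    calc ((x.1 : L1) * y.1) * (ι x.2 * ι y.2) = x.1 * (y.1 * ι x.2) * ι y.2 := by group
      _ = x.1 * (ι x.2 * y.1) * ι y.2 := by rw [h1]
      _ = (x.1 : L1) * ι x.2 * (y.1 * ι y.2) := by group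

theorem zi_surj (h : LD q α μQ π1 μ1 ι) (S : Subgroup K1) :
    Function.Surjective (zi h S) := by
  rintro ⟨a, ha⟩
  have ha1 : π1 a ∈ q.range := (Subgroup.mem_comap.mp ha).1
  have ha2 : π1 a ∈ S := (Subgroup.mem_comap.mp ha).2
  obtain ⟨z, hz, x, rfl⟩ := (WDB.mem_comap_range h).mp ha1
  have hx : x ∈ S.comap q := by
    rw [Subgroup.mem_comap]
    rwa [map_mul, MonoidHom.mem_ker.mp hz, one_mul, h.πι] at ha2
  exact ⟨(⟨z, hz⟩, ⟨x, hx⟩), rfl⟩

/-- The restriction to `Q` is irreducible. -/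
theorem irr_ι [Fintype L1] [Fintype Q] (h : LD q α μQ π1 μ1 ι) (S : Subgroup K1) {F : L1 → ℂ}
    (hF : IsIrr (fun a : AL π1 q.range S => F a)) (ho : Ov π1 μ1 F) :
    IsIrr (fun b : ↥(S.comap q) => F (ι b)) := by
  classical
  have : Fintype π1.ker := Fintype.ofFinite _
  have : Fintype ↥(S.comap q) := Fintype.ofFinite _
  have : Fintype ↥(AL π1 q.range S) := Fintype.ofFinite _
  have h1 : IsChr (fun b : ↥(S.comap q) => F (ι b)) := by
    have h2 := hF.isChr.comp ((zi h S).comp (MonoidHom.inr π1.ker ↥(S.comap q)))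
    have e : (fun b : ↥(S.comap q) => F (ι b)) = fun x => (fun a : AL π1 q.range S => F a)
        (((zi h S).comp (MonoidHom.inr π1.ker ↥(S.comap q))) x) := by
      funext b
      change F (ι b) = F ((1 : L1) * ι b)
      rw [one_mul]
    rw [e]
    exact h2
  refine h1.isIrr ?_
  have h2 := TWF.sum_comp_surj (zi h S) (zi_surj h S)
    (fun a : AL π1 q.range S => F a * F (a⁻¹ : AL π1 q.range S))
  rw [hF.sum_self] at h2
  have h3 : Nat.card (π1.ker × ↥(S.comap q)) =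
      Nat.card (zi h S).ker * Nat.card ↥(AL π1 q.range S) := by
    have h4 := Subgroup.card_mul_index (zi h S).ker
    rw [← h4, Subgroup.index_ker, MonoidHom.range_eq_top.mpr (zi_surj h S)]
    congr 1
    exact Nat.card_congr Subgroup.topEquiv.toEquiv
  have h4 : ∀ x : π1.ker × ↥(S.comap q),
      F ((zi h S x : AL π1 q.range S) : L1) *
        F (((zi h S x)⁻¹ : AL π1 q.range S) : L1) = F (ι x.2) * F (ι (x.2⁻¹ : ↥(S.comap q))) := by
    intro x
    have e1 : ((zi h S x : AL π1 q.range S) : L1) = (x.1 : L1) * ι x.2 := rfl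
    have e2 : (((zi h S x)⁻¹ : AL π1 q.range S) : L1) =
        ((x.1⁻¹ : π1.ker) : L1) * ι (x.2⁻¹ : ↥(S.comap q)) := by
      rw [← map_inv]
      rfl
    rw [e1, e2, ho, ho, map_inv]
    have e3 : ((μ1 x.1 : ℂˣ) : ℂ) * (((μ1 x.1)⁻¹ : ℂˣ) : ℂ) = 1 := (μ1 x.1).mul_inv
    calc ((μ1 x.1 : ℂˣ) : ℂ) * F (ι x.2) * ((((μ1 x.1)⁻¹ : ℂˣ) : ℂ) *
          F (ι (x.2⁻¹ : ↥(S.comap q))))
        = (((μ1 x.1 : ℂˣ) : ℂ) * (((μ1 x.1)⁻¹ : ℂˣ) : ℂ)) *
          (F (ι x.2) * F (ι (x.2⁻¹ : ↥(S.comap q)))) := by ring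
      _ = _ := by rw [e3, one_mul]
  have h5 : ∑ x : π1.ker × ↥(S.comap q), F (ι x.2) * F (ι (x.2⁻¹ : ↥(S.comap q))) =
      (Nat.card (zi h S).ker : ℂ) * Nat.card ↥(AL π1 q.range S) := by
    rw [← h2]
    exact Finset.sum_congr rfl fun x _ => (h4 x).symm
  rw [Fintype.sum_prod_type] at h5
  simp only [Finset.sum_const, Finset.card_univ, nsmul_eq_mul] at h5
  have h6 : (Nat.card (zi h S).ker : ℂ) * Nat.card ↥(AL π1 q.range S) =
      (Fintype.card π1.ker : ℂ) * Nat.card ↥(S.comap q) := by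
    rw [← Nat.cast_mul, ← h3, Nat.card_prod, Nat.cast_mul, Nat.card_eq_fintype_card]
  rw [h6] at h5
  have h7 : (Fintype.card π1.ker : ℂ) ≠ 0 := by
    exact_mod_cast Fintype.card_ne_zero
  exact mul_left_cancel₀ h7 h5

/-- The restriction to `Q`. -/
theorem irrOn_ι [Fintype L1] [Fintype Q] (h : LD q α μQ π1 μ1 ι) {M1 : Subgroup K1}
    (S : Subgroup K1) {F : L1 → ℂ} (hF : EF π1 q.range M1 S F) (ho : Ov π1 μ1 F) :
    IrrOn (S.comap q) (fun x => F (ι x)) ∧ Ov q μQ (fun x => F (ι x)) := by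
  refine ⟨⟨irr_ι h S hF.res ho, fun x hx => ?_⟩, fun z x => ?_⟩
  · apply hF.irr.2
    intro h1
    apply hx
    have h2 : π1 (ι x) ∈ M1 ⊓ S := h1
    rw [h.πι] at h2
    exact h2.2
  · have h1 : ι z ∈ π1.ker := (WDB.ι_ker h).mpr z.2
    change F (ι ((z : Q) * x)) = _
    rw [map_mul]
    have h2 := ho ⟨ι z, h1⟩ (ι x)
    rw [h.μι] at h2
    exact h2

open Classical in
/-- The function on `L1` which belongs to a function on `Q`. -/
noncomputable def WW [Fintype Q] (ι : Q →* L1) (w : Q → ℤ) (y : L1) : ℤ :=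
  ∑ x : Q, if ι x = y then w x else 0

open Classical in
theorem WW_sum [Fintype L1] [Fintype Q] (F : L1 → ℂ) (w : Q → ℤ) :
    ∑ y, ((WW ι w y : ℤ) : ℂ) * F y = ∑ x, ((w x : ℤ) : ℂ) * F (ι x) := by
  have h1 : ∀ y, ((WW ι w y : ℤ) : ℂ) * F y =
      ∑ x : Q, if ι x = y then ((w x : ℤ) : ℂ) * F y else 0 := by
    intro y
    rw [WW, Int.cast_sum, Finset.sum_mul]
    refine Finset.sum_congr rfl fun x _ => ?_
    split_ifs
    · rfl
    · rw [Int.cast_zero, zero_mul]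
  rw [Finset.sum_congr rfl fun y _ => h1 y, Finset.sum_comm]
  refine Finset.sum_congr rfl fun x _ => ?_
  rw [Finset.sum_ite_eq, if_pos (Finset.mem_univ _)]

theorem sc_WW [Fintype L1] [Fintype Q] {𝔐 : Ideal (integralClosure ℤ ℂ)} (F : L1 → ℂ)
    (w : Q → ℤ) : sc 𝔐 F (WW ι w) = sc 𝔐 (fun x => F (ι x)) w := by
  rw [sc, sc, WW_sum, map_one]

open Classical in
theorem WW_civ [Fintype Q] (h : LD q α μQ π1 μ1 ι) {w : Q → ℤ} (hw : CIv ⊤ w) :
    CIv (q.range.comap π1) (WW ι w) := by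
  intro s hs y
  obtain ⟨z, hz, a, rfl⟩ := (WDB.mem_comap_range h).mp hs
  rw [WW, WW]
  symm
  refine Fintype.sum_equiv (MulAut.conj a).toEquiv _ _ fun x => ?_
  have h1 : (MulAut.conj a).toEquiv x = a * x * a⁻¹ := rfl
  have h2 : z * ι a * y * (z * ι a)⁻¹ = ι a * y * (ι a)⁻¹ := by
    have h3 := WDB.kerπ1_comm h hz (ι a * y * (ι a)⁻¹)
    calc z * ι a * y * (z * ι a)⁻¹ = z * (ι a * y * (ι a)⁻¹) * z⁻¹ := by group
      _ = ι a * y * (ι a)⁻¹ * z * z⁻¹ := by rw [h3]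
      _ = ι a * y * (ι a)⁻¹ := by group
  have h3 : ι (a * x * a⁻¹) = ι a * y * (ι a)⁻¹ ↔ ι x = y := by
    rw [map_mul, map_mul, map_inv]
    constructor
    · intro h
      exact mul_left_cancel (mul_right_cancel h)
    · intro h
      rw [h]
  rw [h1, hw a trivial, h2]
  by_cases hx : ι x = y
  · rw [if_pos hx, if_pos (h3.mpr hx)]
  · rw [if_neg hx, if_neg fun h => hx (h3.mp h)]

end Lin

section Data

variable {L K K1 Q Ω : Type} [Group L] [Group K] [Group K1] [Group Q] [Fintype Ω]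
  {π : L →* K} {μ : π.ker →* ℂˣ} {φ : K →* Gam (Equiv.Perm Ω) Ω K1} {q : Q →* K1}
  {α : K1 →* MulAut Q} {ε : (Ω → Q) →* L} {μQ : q.ker →* ℂˣ}

omit [Fintype Ω] in
theorem pow_coords {k : K} (hk : (φ k).right = 1) (m : ℕ) :
    (φ (k ^ m)).right = 1 ∧ ∀ o, (φ (k ^ m)).left o = ((φ k).left o) ^ m := by
  induction m with
  | zero =>
    rw [pow_zero, map_one]
    exact ⟨rfl, fun o => by rw [pow_zero]; rfl⟩
  | succ m ih =>
    rw [pow_succ, map_mul]
    refine ⟨by rw [WDB.mul_right, ih.1, hk, mul_one], fun o => ?_⟩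
    rw [WDB.mul_left, ih.1, ih.2, pow_succ]
    rfl

open Classical in
/-- The chain with constant coordinates is a chain of `N`. -/
theorem chN_cst [Nonempty Ω] [Finite K1] (h : WD π μ φ q α ε μQ) (ℓ : ℕ) [Fact ℓ.Prime]
    {σ : Finset (Subgroup K1)} (hσ : ChN ℓ q.range σ) :
    ChN ℓ (NN' π ε) (cstC φ (NN' π ε) σ) := by
  have hle : ∀ D : Subgroup K1, cst φ (NN' π ε) D ≤ NN' π ε := fun D k hk => hk.1
  refine ⟨⟨?_, ?_⟩, ?_⟩
  · intro E hE
    rw [cstC, Finset.mem_image] at hE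
    obtain ⟨D, hD, rfl⟩ := hE
    obtain ⟨hp, hlt⟩ := hσ.1.1 D hD
    refine ⟨?_, ?_⟩
    · obtain ⟨n, hn⟩ := IsPGroup.iff_card.mp hp
      rintro ⟨k, hk, hk1, hk2⟩
      refine ⟨n, Subtype.ext ?_⟩
      change k ^ ℓ ^ n = 1
      obtain ⟨e1, e2⟩ := pow_coords (φ := φ) hk1 (ℓ ^ n)
      refine WDB.eq_of_coords h ?_ fun o => ?_
      · rw [e1, map_one]
        rfl
      · rw [e2, map_one, ← hn]
        exact congrArg Subtype.val (pow_card_eq_one' (x := (⟨_, hk2 o⟩ : D)))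
    · rw [bot_lt_iff_ne_bot] at hlt ⊢
      intro hb
      apply hlt
      rw [Subgroup.eq_bot_iff_forall] at hb ⊢
      intro d hd
      obtain ⟨n, -, hn1, hn2⟩ := WDB.exists_NN h (fun _ => d) (fun _ => hσ.2 D hD hd)
      have h1 : π (ε n) ∈ cst φ (NN' π ε) D :=
        ⟨WDB.πε_mem h n, hn1, fun o => by rw [hn2]; exact hd⟩
      have h2 := hb _ h1
      obtain ⟨o⟩ := ‹Nonempty Ω›
      rw [← hn2 o, h2, map_one]
      rfl
  · rw [cstC, Finset.coe_image]
    rintro _ ⟨D, hD, rfl⟩ _ ⟨D', hD', rfl⟩ -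
    have hmono : ∀ D D' : Subgroup K1, D ≤ D' → cst φ (NN' π ε) D ≤ cst φ (NN' π ε) D' :=
      fun D D' hDD k hk => ⟨hk.1, hk.2.1, fun o => hDD (hk.2.2 o)⟩
    rcases hσ.1.total (Finset.mem_coe.mp hD) (Finset.mem_coe.mp hD') with h1 | h1
    · exact Or.inl (hmono _ _ h1)
    · exact Or.inr (hmono _ _ h1)
  · intro E hE
    rw [cstC, Finset.mem_image] at hE
    obtain ⟨D, hD, rfl⟩ := hE
    exact hle D

/-- `N` acts trivially. -/
theorem AL_top (h : WD π μ φ q α ε μQ) :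
    AL π (NN' π ε) (PS φ (fun _ => ⊤)) = (NN' π ε).comap π := by
  have h1 : NN' π ε ⊓ PS φ (fun _ => ⊤) = NN' π ε := by
    rw [inf_eq_left]
    intro k hk
    exact ⟨((WDB.mem_NN h).mp hk).1, fun _ => trivial⟩
  rw [AL, h1]

end Data

/-- Proportional functions have the same scalars. -/
theorem sc_prop {L : Type} [Group L] [Fintype L] {𝔐 : Ideal (integralClosure ℤ ℂ)}
    {f F : L → ℂ} {c : ℂ} (hc : c ≠ 0) (hf : ∀ x, f x = c * F x) (u : L → ℤ) :
    sc 𝔐 f u = sc 𝔐 F u := by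
  have h1 : ∑ x, ((u x : ℤ) : ℂ) * f x = c * ∑ x, ((u x : ℤ) : ℂ) * F x := by
    rw [Finset.mul_sum]
    refine Finset.sum_congr rfl fun x _ => ?_
    rw [hf x]
    ring
  rw [sc, sc, h1, hf 1, mul_div_mul_left _ _ hc]

end POL

open _root_.Pool.Agent.DPG.POL in
/-- POL: no character of `L1` in the block of the reference pair has minimal defect. -/
theorem POL_thm (h1 : Stmt_PSN) (h2 : Stmt_NPT) (h3 : Stmt_RIU) (h4 : Stmt_IRC)
    (h5 : Stmt_LMT) (h6 : Stmt_TNA) : Stmt_POL := by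
  classical
  intro L K K1 Q L1 Ω _ _ _ _ _ _ _ _ _ _ _ _ 𝔐 ℓ _ hmax hℓ π μ φ q α ε μQ π1 μ1 ι M M1 σr
    Fr ζ hR ω θr hTP hB hSTB hSPP hPos θ hθ hθo hθd hcen
  have hNn : (NN' π ε).Normal := WDB.normal_NN hR.wd
  have hqn : q.range.Normal := WDB.normal_range hR.wd
  have hMn : M.Normal := hR.mm.nm
  have hM1n : M1.Normal := hR.mm.nm1
  have hM1n' : (M1.comap π1).Normal := inferInstance
  -- the character of the inverse image of `M1`
  have hGe : (fun s : ↥(M1.comap π1) => (ext0 θ : L1 → ℂ) s) = θ :=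
    funext fun s => ext0_of_mem θ s.2
  have hG : IrrOn (M1.comap π1) (ext0 θ : L1 → ℂ) :=
    ⟨by rw [hGe]; exact hθ, fun x hx => ext0_of_not_mem θ hx⟩
  have hkM : ∀ z : π1.ker, (z : L1) ∈ M1.comap π1 := by
    intro z
    rw [Subgroup.mem_comap, MonoidHom.mem_ker.mp z.2]
    exact M1.one_mem
  have hGo : Ov π1 μ1 (ext0 θ : L1 → ℂ) := by
    intro z x
    by_cases hx : x ∈ M1.comap π1
    · have hzx : (z : L1) * x ∈ M1.comap π1 := Subgroup.mul_mem _ (hkM z) hx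
      rw [ext0_of_mem θ hx, ext0_of_mem θ hzx]
      exact hθo ⟨z, hkM z⟩ ⟨x, hx⟩ z.2
    · have hzx : (z : L1) * x ∉ M1.comap π1 := by
        intro h
        apply hx
        have := Subgroup.mul_mem _ (Subgroup.inv_mem _ (hkM z)) h
        rwa [inv_mul_cancel_left] at this
      rw [ext0_of_not_mem θ hx, ext0_of_not_mem θ hzx, mul_zero]
  -- a character of the inverse image of `M1` in the block of the reference pair
  obtain ⟨χ, hχ, hχo, hχs⟩ := h4 L1 K1 𝔐 ℓ hmax hℓ π1 hR.ld.s hR.ld.c μ1 M1 σr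
    ⟨hR.ch.1, fun D hD => (hR.ch.2 D hD).trans hR.mm.le1⟩ Fr hR.ef.irr hR.ov
  have hcg : ∀ g ∈ M1.comap π1, cg 𝔐 (ext0 θ : L1 → ℂ) g = cg 𝔐 χ g := by
    intro g hg
    have hsu : SOn (M1.comap π1 : Set L1) (BEM.cI g) := fun x hx =>
      BEM.cI_not_mem (M1.comap π1) hg hx
    rw [BEM.cg_eq χ, hχs (BEM.cI g) (fun s _ x => BEM.cI_conj g s x) hsu, ← BEM.cg_eq,
      ← hcen g hg, BEM.cg_eq, BEM.sc_sub (M1.comap π1) hG.2, hGe, cen]
    congr 2
    funext s
    exact BEM.cI_cast g (s : L1)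
  obtain ⟨y, hy⟩ := NPT.agree ℓ hmax hℓ (M1.comap π1) hG hχ hcg
  have hMt : M1 ⊔ stb σr = ⊤ := by
    rw [eq_top_iff, ← hR.sj]
    exact sup_le_sup_right hR.mm.le1 _
  have hs1 : ∀ u : L1 → ℤ, CIv (M1.comap π1) u → SOn (M1.comap π1 : Set L1) u →
      sc 𝔐 (ext0 θ : L1 → ℂ) u = sc 𝔐 Fr u := by
    intro u hu hus
    rw [hy u hu, hχs (fun x => u (y * x * y⁻¹)), BEM.sc_conj hR.ld.s hMt hR.iv hu]
    · intro s hs x
      have h7 := hu (y * s * y⁻¹) (hM1n'.conj_mem s hs y) (y * x * y⁻¹)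
      change u (y * (s * x * s⁻¹) * y⁻¹) = u (y * x * y⁻¹)
      rw [← h7]
      congr 1
      group
    · intro x hx
      apply hus
      intro h7
      apply hx
      have h8 := hM1n'.conj_mem _ h7 y⁻¹
      have h9 : y⁻¹ * (y * x * y⁻¹) * y⁻¹⁻¹ = x := by group
      rwa [h9] at h8
  -- it extends a character of the inverse image of `q.range`
  obtain ⟨hEF, hs2⟩ := h3 L1 K1 𝔐 ℓ hmax hℓ π1 hR.ld.s hR.ld.c q.range M1 hR.mm.le1
    hR.mm.cop1 σr Fr hR.ch hR.ef hR.sup ∅ (ext0 θ : L1 → ℂ)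
    ⟨isCh_empty ℓ ⊥, fun D hD => absurd hD (Finset.notMem_empty D)⟩ (by
      rw [AL, stb_empty, inf_top_eq]
      exact hG) hs1
  rw [stb_empty] at hEF
  obtain ⟨hg, hgo⟩ := irrOn_ι hR.ld ⊤ hEF hGo
  obtain ⟨hr, hro⟩ := irrOn_ι hR.ld (stb σr) hR.ef hR.ov
  have hsg : ∀ w : Q → ℤ, CIv ⊤ w →
      sc 𝔐 (fun x => (ext0 θ : L1 → ℂ) (ι x)) w = sc 𝔐 (fun x => Fr (ι x)) w := by
    intro w hw
    rw [← sc_WW, ← sc_WW, hs2 _ (WW_civ hR.ld hw)]
  -- the products
  obtain ⟨Fg, hFg, hFgo, hFgT⟩ := (h6 L K K1 Q Ω π μ φ q α ε μQ hR.wd (fun _ => ⊤)).1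
    (fun _ x => (ext0 θ : L1 → ℂ) (ι x)) (fun _ => ⟨hg, hgo⟩)
  obtain ⟨Fq, -, -, hFqT⟩ := (h6 L K K1 Q Ω π μ φ q α ε μQ hR.wd (fun _ => stb σr)).1
    (fun _ x => Fr (ι x)) (fun _ => ⟨hr, hro⟩)
  have hsF := (h5 L K K1 Q Ω 𝔐 ℓ hmax hℓ π μ φ q α ε μQ hR.wd (fun _ => ⊤)
    (fun _ => stb σr) (fun _ x => (ext0 θ : L1 → ℂ) (ι x)) (fun _ x => Fr (ι x)) Fg Fq
    (fun _ => ⟨hg, hgo⟩) (fun _ => ⟨hr, hro⟩) hFgT hFqT).mp (fun _ => hsg)
  rw [AL_top hR.wd] at hFg
  -- the restriction of the pair to `N`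
  have hch := chN_cst hR.wd ℓ hR.ch
  obtain ⟨f, e, he, hf, hfo, htop, hfi, hfe, ⟨f0, hf0⟩, hff⟩ := h2 L K 𝔐 ℓ hmax hℓ π
    hR.wd.πs hR.wd.πc μ (NN' π ε) M hR.mm.le ω hSTB hSPP (cstC φ (NN' π ε) σr) θr hch hB
  have hθε : ∀ n : Ω → Q, θr (ε n) = ζ 1 * Fq (ε n) := by
    intro n
    have h7 := hTP.2 (dY ε ι n) (WDB.dY_mem_MY hR.wd hR.ld hR.mm.le n)
    have h8 := hR.zt.d n 1
    rw [one_mul] at h8
    rw [h8] at h7
    rw [hFqT.1 n, mul_comm]
    exact h7
  have hk : ∀ l, (e : ℂ) * f l = ζ 1 * Fq l := by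
    intro l
    by_cases hl : l ∈ ε.range
    · obtain ⟨n, rfl⟩ := hl
      by_cases hl2 : ε n ∈ AL π (NN' π ε) (stb (cstC φ (NN' π ε) σr))
      · rw [← hfe _ hl2, hθε]
      · rw [hf.2 _ hl2, mul_zero, ← hθε, hB.irr.2]
        intro h7
        exact hl2 ⟨WDB.πε_mem hR.wd n, h7.2⟩
    · rw [hFqT.2 l hl, mul_zero, hf.2, mul_zero]
      intro h7
      exact hl ((WDB.mem_comap_NN hR.wd).mp h7.1)
  have he' : (e : ℂ) ≠ 0 := Nat.cast_ne_zero.mpr he
  have hfc : ∀ l, f l = ζ 1 / e * Fq l := by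
    intro l
    rw [div_mul_eq_mul_div, ← hk l, mul_div_cancel_left₀ _ he']
  have hc : ζ 1 / e ≠ 0 := by
    intro h7
    have h8 : f 1 = 0 := by rw [hfc 1, h7, zero_mul]
    exact hf.1.one_ne_zero h8
  refine h1 L K 𝔐 ℓ hmax hℓ π hR.wd.πs hR.wd.πc μ (NN' π ε) M hR.mm.le hR.mm.cop ω hPos hSTB
    (cstC φ (NN' π ε) σr) θr ⟨hch.1, fun D hD => (hch.2 D hD).trans hR.mm.le⟩ hB f0 hf0 Fg
    hFg hFgo (fun u hu hus => by
      rw [hsF u hu hus, ← sc_prop hc hfc u, hff f0 hf0 u hu hus]) ?_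
  -- the defect
  obtain ⟨n, hn1, hn2⟩ := hθd
  have hn0 : n ≠ 0 := by
    rintro rfl
    exact hθ.one_ne_zero (by rw [hn1, Nat.cast_zero])
  refine ⟨n ^ Fintype.card Ω, ?_, ?_⟩
  · have h7 := hFgT.1 1
    rw [map_one] at h7
    have h8 : (fun s : ↥((NN' π ε).comap π) => Fg s) 1 = Fg 1 := rfl
    rw [h8, h7]
    have h9 : ∀ o : Ω, (ext0 θ : L1 → ℂ) (ι ((1 : Ω → Q) o)) = n := by
      intro o
      rw [Pi.one_apply, map_one, ← hn1]
      exact ext0_of_mem θ (Subgroup.one_mem _)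
    rw [Finset.prod_congr rfl fun o _ => h9 o, Finset.prod_const, Finset.card_univ,
      Nat.cast_pow]
  · have c1 := TWN.card_comap π1 hR.ld.s M1
    have c2 := TWN.card_comap π hR.wd.πs (NN' π ε)
    have c3 := WDB.card_NN hR.wd
    have c4 := Subgroup.relIndex_mul_relIndex ⊥ q.range M1 bot_le hR.mm.le1
    rw [Subgroup.relIndex_bot_left, Subgroup.relIndex_bot_left] at c4
    have c5 : q.range.relIndex M1 ≠ 0 := by
      intro h7
      rw [h7, mul_zero] at c4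
      exact Nat.card_pos.ne c4
    rw [c1, padicValNat.mul Nat.card_pos.ne' Nat.card_pos.ne', ← c4,
      padicValNat.mul Nat.card_pos.ne' c5, padicValNat.eq_zero_of_not_dvd hR.mm.cop1,
      add_zero] at hn2
    rw [c2, padicValNat.mul Nat.card_pos.ne' Nat.card_pos.ne', c3,
      padicValNat.pow, padicValNat.pow, Nat.add_left_cancel hn2]

end Pool.Agent.DPG


end

section

/-!
# UPP: the pairs of `L` which belong to the pairs of `L1`
-/

set_option autoImplicit false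

namespace Pool.Agent.DPG

open Pool.Agent.DP Pool.Agent.DPC Pool.Agent.DPM Pool.Agent.DPN Pool.Agent.DPF
  Pool.Agent.Lib_helper13 Representation
open Pool.Agent.Lib_helper13.Dade (pCore DadeHolds dadeSum)

namespace UPP

/-- Two functions with the same scalars have the same central function. -/
theorem cg_of_sc {L : Type} [Group L] [Fintype L] (𝔐 : Ideal (integralClosure ℤ ℂ))
    (S : Subgroup L) {F G : L → ℂ} (h : ∀ u : L → ℤ, CIv S u → sc 𝔐 F u = sc 𝔐 G u) (g : L) :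
    cg 𝔐 F g = cg 𝔐 G g := by
  rw [BEM.cg_eq, BEM.cg_eq]
  exact h (BEM.cI g) fun s _ x => BEM.cI_conj g s x

end UPP

theorem UPP_thm (h1 : Stmt_RSC) (h2 : Stmt_ZCO) (h3 : Stmt_CMA) (h4 : Stmt_ZIN)
    (h5 : Stmt_CST) : Stmt_UPP := by
  intro L K K1 Q L1 Ω _ _ _ _ _ _ _ _ _ _ _ _ 𝔐 ℓ _ hM hℓ π μ φ q α ε μQ π1 μ1 ι M M1 σr Fr ζ r
    ω θr hTr hBr σ F hσ hF
  obtain ⟨-, hR⟩ := h1 L K K1 Q L1 Ω 𝔐 ℓ hM hℓ π μ φ q α ε μQ π1 μ1 ι M M1 σr Fr ζ r
  obtain ⟨hq, hE, hs, hsc⟩ := hR σ F hσ hF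
  obtain ⟨θ, hθ, hov, hT⟩ := h2 L K K1 Q L1 Ω ℓ π μ φ q α ε μQ π1 μ1 ι M M1 r.wd r.ld r.mm σ F
    hq hE hF.ovl ζ r.zt
  obtain ⟨-, -, hC⟩ := h5 L K K1 Q Ω ℓ π μ φ q α ε μQ r.wd
  obtain ⟨-, -, -, -, -, hC6, -⟩ := hC σ hq
  have hcm := h3 L K K1 Q L1 Ω 𝔐 ℓ hM hℓ π μ φ q α ε μQ π1 μ1 ι M M1 r.wd r.ld r.mm (stb σ)
    (stb σr) F Fr hE r.ef hF.ovl r.ov hsc ζ r.zt (stb (cstC φ (NN' π ε) σ))
    (stb (cstC φ (NN' π ε) σr)) θ θr hθ hBr.irr hT hTr
  refine ⟨θ, hT, hθ, hov, ?_, ?_, ?_⟩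
  · intro g hg
    rw [UPP.cg_of_sc 𝔐 (M.comap π) hcm g]
    exact hBr.cn g hg
  · have h6 := hC6 hs
    rw [eq_top_iff] at h6 ⊢
    exact h6.trans (sup_le_sup_right r.mm.le _)
  · exact (h4 L K K1 Q L1 Ω ℓ π μ φ q α ε μQ π1 μ1 ι M M1 r.wd r.ld r.mm σ F hq hE hF.ovl hs hF.iv
      ζ r.zt θ hT).2 r.zi

end Pool.Agent.DPG


end

section

/-!
# DTP: passage from the blocks of a normal subgroup to the blocks of the group
-/

set_option linter.unusedSectionVars false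

namespace Pool.Agent.DPH

open Pool.Agent.DP Pool.Agent.DPC Pool.Agent.DPM Pool.Agent.DPN Pool.Agent.DPF
  Pool.Agent.DPG Pool.Agent.Lib_helper13 Representation
open Pool.Agent.Lib_helper13.Dade (pCore DadeHolds dadeSum)

namespace DTP

variable {L K : Type} [Group L] [Fintype L] [Group K] [Fintype K]

theorem ker_central_subgroupOf {π : L →* K} (hUc : π.ker ≤ Subgroup.center L) (S : Subgroup L) :
    π.ker.subgroupOf S ≤ Subgroup.center S := by
  intro z hz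
  rw [Subgroup.mem_center_iff]
  intro g
  apply Subtype.ext
  exact Subgroup.mem_center_iff.mp (hUc (Subgroup.mem_subgroupOf.mp hz)) g

theorem ker_le_comap (π : L →* K) (V : Subgroup K) : π.ker ≤ V.comap π := by
  intro z hz
  rw [Subgroup.mem_comap, MonoidHom.mem_ker.mp hz]
  exact V.one_mem

/-- The defect of a character of a subgroup which contains the kernel. -/
theorem defect_ge {π : L →* K} (hUc : π.ker ≤ Subgroup.center L) (ℓ : ℕ) [Fact ℓ.Prime]
    (S : Subgroup L) [Fintype S] (hS : π.ker ≤ S) {ψ : S → ℂ} (hψ : IsIrr ψ) {d : ℕ}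
    (hd : HasDefect ℓ ψ d) : padicValNat ℓ (Nat.card π.ker) ≤ d := by
  have h := DLO.defect_ge all_DEFA ℓ (π.ker.subgroupOf S) (ker_central_subgroupOf hUc S) hψ hd
  rwa [Nat.card_congr (Subgroup.subgroupOfEquivOfLe hS).toEquiv] at h

/-- No character of the inverse image of the stabilizer of a nonempty chain has minimal defect. -/
theorem no_min {π : L →* K} (hπs : Function.Surjective π) (hUc : π.ker ≤ Subgroup.center L)
    (𝔐 : Ideal (integralClosure ℤ ℂ)) (ℓ : ℕ) [Fact ℓ.Prime] (hmax : 𝔐.IsMaximal)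
    (hℓ : (ℓ : integralClosure ℤ ℂ) ∈ 𝔐) (hcore : pCore ℓ K = ⊥) {σ : Finset (Subgroup K)}
    (hσ : IsCh ℓ ⊥ σ) (hne : σ.Nonempty) [Fintype ↥((stb σ).comap π)]
    {ψ : ↥((stb σ).comap π) → ℂ} (hψ : IsIrr ψ)
    (hd : HasDefect ℓ ψ (padicValNat ℓ (Nat.card π.ker))) : False := by
  classical
  obtain ⟨D, hD, hbot⟩ := hσ.exists_bot hne
  obtain ⟨D', ⟨hD'p, hD'c⟩, hD'm⟩ := CHC.exists_lift' hπs hUc hcore D (hσ.1 D hD).1
  have hDS : D ≤ stb σ := by
    intro x hx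
    rw [mem_stb']
    intro E hE w
    have hxE := hbot E hE hx
    constructor
    · intro hw
      exact mul_mem (mul_mem hxE hw) (inv_mem hxE)
    · intro hw
      have h2 : w = x⁻¹ * (x * w * x⁻¹) * x := by group
      rw [h2]
      exact mul_mem (mul_mem (inv_mem hxE) hw) hxE
  have hD'S : D' ≤ (stb σ).comap π := by
    intro x hx
    rw [Subgroup.mem_comap]
    apply hDS
    rw [← hD'm]
    exact Subgroup.mem_map_of_mem π hx
  have hnorm : ∀ t ∈ (stb σ).comap π, ∀ x, x ∈ D' ↔ t * x * t⁻¹ ∈ D' := by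
    intro t ht x
    have h1 : t ∈ stb ({D'} : Finset (Subgroup L)) := by
      rw [CHC.stb_eq hUc hπs (σ := {D'}) (by
        intro E hE
        rw [Finset.mem_singleton] at hE
        subst hE
        exact ⟨hD'p, hD'c⟩), Subgroup.mem_comap, mem_stb']
      intro E hE y
      obtain ⟨E', hE', rfl⟩ := mem_mapCh.1 hE
      rw [Finset.mem_singleton] at hE'
      subst hE'
      rw [hD'm]
      exact mem_stb'.mp (Subgroup.mem_comap.mp ht) D hD y
    exact mem_stb'.mp h1 D' (Finset.mem_singleton_self _) x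
  have hcle : pCore ℓ L ≤ π.ker := CHC.core_le_ker hπs hcore
  have hcS : pCore ℓ L ≤ (stb σ).comap π := hcle.trans (ker_le_comap π _)
  have hv : padicValNat ℓ (Nat.card ↥((pCore ℓ L).subgroupOf ((stb σ).comap π))) =
      padicValNat ℓ (Nat.card π.ker) := by
    rw [Nat.card_congr (Subgroup.subgroupOfEquivOfLe hcS).toEquiv,
      CHC.card_core hπs hUc hcore, padicValNat.prime_pow]
  refine DLO.no_min MINX_thm BTC_thm 𝔐 ℓ hmax hℓ ((pCore ℓ L).subgroupOf ((stb σ).comap π))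
    (D'.subgroupOf ((stb σ).comap π)) ?_ ?_ ?_ ?_ ?_ hψ (by rw [hv]; exact hd)
  · refine le_trans ?_ (ker_central_subgroupOf hUc ((stb σ).comap π))
    intro z hz
    rw [Subgroup.mem_subgroupOf] at hz ⊢
    exact hcle hz
  · exact (isPGroup_pCore ℓ).of_equiv (Subgroup.subgroupOfEquivOfLe hcS).symm
  · refine ⟨fun n hn g => ?_⟩
    rw [Subgroup.mem_subgroupOf] at hn ⊢
    exact (hnorm g g.2 n).mp hn
  · exact hD'p.of_equiv (Subgroup.subgroupOfEquivOfLe hD'S).symm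
  · intro hle
    have h1 : D' ≤ π.ker := by
      intro x hx
      apply hcle
      exact Subgroup.mem_subgroupOf.mp (hle (Subgroup.mem_subgroupOf.mpr hx :
        (⟨x, hD'S hx⟩ : ↥((stb σ).comap π)) ∈ D'.subgroupOf ((stb σ).comap π)))
    have h2 : D = ⊥ := by
      rw [← hD'm, Subgroup.map_eq_bot_iff]
      exact h1
    exact (hσ.1 D hD).2.ne' h2

/-- A constituent of the restriction to the inverse image of a normal subgroup of a character of
minimal defect. -/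
theorem top {π : L →* K} (hUc : π.ker ≤ Subgroup.center L)
    (𝔐 : Ideal (integralClosure ℤ ℂ)) (ℓ : ℕ) [Fact ℓ.Prime] (μ : π.ker →* ℂˣ) (M : Subgroup K)
    [M.Normal] (ω : L → (integralClosure ℤ ℂ) ⧸ 𝔐) {χ : L → ℂ} (hχ : IsIrr χ)
    (hχo : Ov π μ χ) (hd : HasDefect ℓ χ (padicValNat ℓ (Nat.card π.ker)))
    (hc : ∀ g ∈ M.comap π, cen 𝔐 (MonoidHom.id L) χ g = ω g) : ¬ Pos 𝔐 ℓ π μ M ω := by
  classical
  intro hpos
  have hMn : (M.comap π).Normal := inferInstance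
  have hk := ker_le_comap π M
  obtain ⟨θ, hθ, hip⟩ := Cliff.exists_under hχ (M.comap π).subtype
  have hcl : ClG (M.comap π).subtype (MulAut.conjNormal : L →* MulAut ↥(M.comap π))
      (QuotientGroup.mk' (M.comap π)) := by
    refine ⟨Subtype.val_injective, fun y a => ?_, fun y => ?_⟩
    · exact MulAut.conjNormal_apply y a
    · rw [Subgroup.range_subtype, QuotientGroup.mk'_apply, QuotientGroup.eq_one_iff]
  obtain ⟨e, he⟩ := hθ.exists_defect (ℓ := ℓ)
  have h1 : e ≤ padicValNat ℓ (Nat.card π.ker) :=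
    all_DEFA _ L (L ⧸ M.comap π) ℓ _ _ _ hcl χ θ hχ hθ hip _ e hd he
  have h2 : padicValNat ℓ (Nat.card π.ker) ≤ e := defect_ge hUc ℓ (M.comap π) hk hθ he
  have h3 : e = padicValNat ℓ (Nat.card π.ker) := le_antisymm h1 h2
  have hov : Ov π μ (ext0 θ : L → ℂ) := by
    have hle : M.comap π ≤ (⊤ : Subgroup L) := le_top
    refine NPT.ov hUc hle hk hχo hθ ?_
    exact hip
  refine hpos θ hθ ?_ (h3 ▸ he) ?_
  · intro s t hs
    have h4 := hov ⟨(s : L), hs⟩ (t : L)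
    rw [ext0_of_mem θ t.2, ext0_of_mem θ ((M.comap π).mul_mem s.2 t.2)] at h4
    exact h4
  · intro g hg
    rw [← hc g hg]
    have h5 := (SUMM_thm _ _ _ _ _ _ hcl).2.2.2 θ χ (fun y => conjInd y g) hθ hχ hip
      (fun a x => conjInd_conj _ _ _) (by
        intro y hy
        rw [conjInd, if_neg]
        intro h6
        apply hy
        rw [Subgroup.range_subtype]
        obtain ⟨c, hc'⟩ := isConj_iff.mp h6.symm
        rw [← hc']
        exact hMn.conj_mem g hg c)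
    rw [cen, cen]
    have h6 : wt χ (fun y => conjInd ((MonoidHom.id L) y) g) =
        wt θ (fun y => conjInd ((M.comap π).subtype y) g) := h5
    rw [h6]

end DTP

open Classical in
/-- **DTP** -/
theorem DTP_thm : Stmt_DTP := by
  intro L K _ _ _ _ 𝔐 ℓ _ hmax hℓ π hπs hcore hUc μ M hM d ω hpos hne
  have := hM
  refine ⟨?_, ?_⟩
  · -- the defect
    rw [DKU] at hne
    obtain ⟨σ, hσ, hne'⟩ := Finset.exists_ne_zero_of_sum_ne_zero hne
    have hcd : Nat.card {ψ : ↥((stb σ).comap π) → ℂ // IsIrr ψ ∧ OvL π.ker μ _ ψ ∧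
        HasDefect ℓ ψ d ∧ ∀ g ∈ M.comap π, cen 𝔐 ((stb σ).comap π).subtype ψ g = ω g} ≠ 0 := by
      intro h
      apply hne'
      rw [h, Nat.cast_zero, mul_zero, mul_zero]
    rw [Nat.card_ne_zero] at hcd
    obtain ⟨⟨ψ, hψ, hψo, hψd, hψc⟩⟩ := hcd.1
    have hge := DTP.defect_ge hUc ℓ _ (DTP.ker_le_comap π (stb σ)) hψ hψd
    by_contra hcon
    have hdv : d = padicValNat ℓ (Nat.card π.ker) := le_antisymm (not_lt.mp hcon) hge
    rw [hdv] at hψd
    rcases σ.eq_empty_or_nonempty with hσe | hσn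
    · subst hσe
      have hStop : (stb (∅ : Finset (Subgroup K))).comap π = ⊤ := by
        rw [stb_empty, Subgroup.comap_top]
      let e' : ↥((stb (∅ : Finset (Subgroup K))).comap π) ≃* L :=
        (MulEquiv.subgroupCongr hStop).trans Subgroup.topEquiv
      have he' : ∀ y, e' y = (y : L) := fun y => rfl
      have hback : (fun y : ↥((stb (∅ : Finset (Subgroup K))).comap π) =>
          (fun x : L => ψ (e'.symm x)) (e' y)) = ψ := by
        funext y
        simp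
      have hirr : IsIrr (fun x : L => ψ (e'.symm x)) := hψ.comp_mulEquiv e'.symm
      refine DTP.top hUc 𝔐 ℓ μ M ω hirr ?_ ?_ ?_ hpos
      · intro z x
        have h1 := hψo (e'.symm z) (e'.symm x) (by
          have h2 : ((e'.symm (z : L)) : L) = z := by rw [← he', MulEquiv.apply_symm_apply]
          rw [h2]
          exact z.2)
        have h3 : (⟨((e'.symm (z : L)) : L), (by
          have h2 : ((e'.symm (z : L)) : L) = z := by rw [← he', MulEquiv.apply_symm_apply]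
          rw [h2]
          exact z.2)⟩ : π.ker) = z := by
          apply Subtype.ext
          change ((e'.symm (z : L)) : L) = z
          rw [← he', MulEquiv.apply_symm_apply]
        rw [h3, ← map_mul] at h1
        exact h1
      · rw [← hasDefect_comp_equiv e', hback]
        exact hψd
      · intro g hg
        have h2 := congrFun (cen_comp_equiv 𝔐 e' (MonoidHom.id L) (fun x : L => ψ (e'.symm x))) g
        rw [hback] at h2
        rw [← h2, ← hψc g hg]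
        rfl
    · exact DTP.no_min hπs hUc 𝔐 ℓ hmax hℓ hcore (mem_Ch.mp hσ) hσn hψ hψd
  · -- split according to the central function
    have hfin : (⋃ σ ∈ Ch ℓ (⊥ : Subgroup K), {x : L → (integralClosure ℤ ℂ) ⧸ 𝔐 |
        ∃ ψ : ↥((stb σ).comap π) → ℂ, IsIrr ψ ∧
        cen 𝔐 ((stb σ).comap π).subtype ψ = x}).Finite := by
      apply Set.Finite.biUnion (Finset.finite_toSet _)
      intro τ _
      exact finite_cen 𝔐 _
    have hC : ∀ σ ∈ Ch ℓ (⊥ : Subgroup K), ∀ ψ : ↥((stb σ).comap π) → ℂ, IsIrr ψ →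
        cen 𝔐 ((stb σ).comap π).subtype ψ ∈ hfin.toFinset := by
      intro σ hσ ψ hψ
      rw [Set.Finite.mem_toFinset, Set.mem_iUnion₂]
      exact ⟨σ, hσ, ψ, hψ, rfl⟩
    have hsplit : DKU 𝔐 ℓ d π μ M ω =
        ∑ x ∈ hfin.toFinset, ∑ σ ∈ Ch ℓ (⊥ : Subgroup K),
          ((-1 : ℚ) ^ σ.card * (Nat.card (stb σ) : ℚ)) *
          Nat.card {η : ↥((stb σ).comap π) → ℂ // IsIrr η ∧ (OvL π.ker μ _ η ∧
            HasDefect ℓ η d ∧ ∀ g ∈ M.comap π, cen 𝔐 ((stb σ).comap π).subtype η g = ω g) ∧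
            cen 𝔐 ((stb σ).comap π).subtype η = x} := by
      rw [Finset.sum_comm, DKU]
      refine Finset.sum_congr rfl fun σ hσ => ?_
      rw [TD.card_split (fun η : ↥((stb σ).comap π) → ℂ => OvL π.ker μ _ η ∧
          HasDefect ℓ η d ∧ ∀ g ∈ M.comap π, cen 𝔐 ((stb σ).comap π).subtype η g = ω g)
        (fun η => cen 𝔐 ((stb σ).comap π).subtype η) hfin.toFinset (hC σ hσ)]
      rw [Nat.cast_sum, Finset.mul_sum, Finset.mul_sum]
      refine Finset.sum_congr rfl fun x _ => ?_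
      rw [mul_assoc]
    rw [hsplit] at hne
    obtain ⟨x, -, hx'⟩ := Finset.exists_ne_zero_of_sum_ne_zero hne
    have hxQ : ∀ g ∈ M.comap π, x g = ω g := by
      intro g hg
      by_contra hxn
      apply hx'
      refine Finset.sum_eq_zero fun σ hσ => ?_
      have hempty : IsEmpty {η : ↥((stb σ).comap π) → ℂ // IsIrr η ∧ (OvL π.ker μ _ η ∧
            HasDefect ℓ η d ∧ ∀ g ∈ M.comap π, cen 𝔐 ((stb σ).comap π).subtype η g = ω g) ∧
            cen 𝔐 ((stb σ).comap π).subtype η = x} := by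
        constructor
        rintro ⟨η, h1, ⟨-, -, h2⟩, h3⟩
        apply hxn
        rw [← h3]
        exact h2 g hg
      rw [@Nat.card_of_isEmpty _ hempty, Nat.cast_zero, mul_zero]
    refine ⟨x, fun h0 => hx' ?_⟩
    rw [← h0, DKU]
    refine Finset.sum_congr rfl fun σ _ => ?_
    rw [mul_assoc]
    congr 3
    refine Nat.card_congr (Equiv.subtypeEquivRight fun η => ?_)
    constructor
    · rintro ⟨h1, ⟨h2, h3, -⟩, h4⟩
      exact ⟨h1, h2, h3, fun g _ => congrFun h4 g⟩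
    · rintro ⟨h1, h2, h3, h4⟩
      have h5 : cen 𝔐 ((stb σ).comap π).subtype η = x :=
        funext fun g => h4 g (Subgroup.mem_top _)
      exact ⟨h1, ⟨h2, h3, fun g hg => by rw [h5]; exact hxQ g hg⟩, h5⟩

end Pool.Agent.DPH


end
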