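import Mathlib
import Pool.Agent.DAM.C08
import Pool.Agent.DAM.C11
import Pool.Agent.DAM.C14
import Pool.Agent.DAM.C18
import Pool.Agent.DAM.C22
import Pool.Agent.DAM.C23
import Pool.Agent.DAM.C25
import Pool.Agent.DAM.C28
import Pool.Agent.DAM.C32
import Pool.Agent.DAM.C39
import Pool.Agent.DAM.C40
import Pool.Agent.DAM.C49
import Pool.Agent.DAM.C52
import Pool.Agent.DAM.C64
import Pool.Agent.DAM.C74
import Pool.Agent.DAM.C79
import Pool.Agent.DAM.C81
import Pool.Agent.DAM.C90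

/-! Parts: DPK.YFRr, DPW.GDW, DPX.GDX, DPX.REGX, DPG.STK, DPH.CPR -/

section

/-!
# The chain sums of the fibre product vanish, for the groups of a class (module YFRr)
-/

set_option linter.unusedSectionVars false

namespace Pool.Agent.DPK

open Pool.Agent.DP Pool.Agent.DPC Pool.Agent.DPM Pool.Agent.DPN Pool.Agent.Lib_helper13
open Representation
open Pool.Agent.Lib_helper13.Dade (pCore DadeHolds dadeSum)

namespace YFRr

/-- The fibre product belongs to the class. -/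
theorem cl_fpr {Cl : ∀ (Y : Type) [Group Y], Prop} (hC : GC Cl) {X H V : Type} [Group X]
    [Finite X] [Group H] [Finite H] [Group V] [Finite V] (p : X →* H) (g : V →* H) (hX : Cl X)
    (hg : g.ker ≤ Subgroup.center V) : Cl (fpr p g) := by
  refine hC.up (fpr p g) X ((MonoidHom.fst X V).comp (fpr p g).subtype) ?_ hX
  intro y hy
  have h1 : ((y : X × V)).1 = 1 := hy
  have h2 : g (y : X × V).2 = 1 := by
    have h3 := (mem_fpr.mp y.2)
    rw [← h3, h1, map_one]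
  have h4 : (y : X × V).2 ∈ Subgroup.center V := hg h2
  rw [Subgroup.mem_center_iff]
  intro z
  apply Subtype.ext
  apply Prod.ext
  · change (z : X × V).1 * (y : X × V).1 = (y : X × V).1 * (z : X × V).1
    rw [h1, mul_one, one_mul]
  · exact Subgroup.mem_center_iff.mp h4 _

end YFRr

theorem YFRr_thm (Cl : ∀ (Y : Type) [Group Y], Prop) (hC : GC Cl) (h1 : Stmt_DKVr Cl) :
    Stmt_YFRr Cl := by
  intro O X H V _ _ _ _ _ _ _ _ 𝔐 ℓ _ hM hℓ j c p h hp n hX hHR hc hn Z hZ hZc g hg hgs d hd P V'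
  have : Fintype ↥(fpr p g) := Fintype.ofFinite _
  exact h1 _ _ 𝔐 ℓ hM hℓ n (hC.sub (YFRr.cl_fpr hC p g hX hg) _) hHR
    (YFR.index_le h g hp hc n hn hg hgs V') _
    (YFR.center_Z h g Z hZc V') (YFR.pgroup_Z h g ℓ Z hZ V') d
    (by rw [YFR.card_Z h g Z V']; exact hd) _ P

end Pool.Agent.DPK


end

section

/-!
# GDW: the elements `t` for which `P` is a Sylow subgroup of the centralizer
-/

namespace Pool.Agent.DPW

open Pool.Agent.DP Pool.Agent.DPV Pool.Agent.Lib_helper13 Representation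
open Pool.Agent.Lib_helper13.Dade (pCore DadeHolds dadeSum)

namespace GDW

/-- Sylow's theorem in the subgroup `K`. -/
theorem conj_stb {G : Type} [Group G] [Finite G] {ℓ : ℕ} [Fact ℓ.Prime] {P K : Subgroup G}
    (hPc : Nat.card P = ℓ) (hK : ¬ ℓ ^ 2 ∣ Nat.card K) (hPK : P ≤ K)
    (g : G) (hg : ∀ u ∈ P, g⁻¹ * u * g ∈ K) :
    ∃ c ∈ K, g * c ∈ stb ({P} : Finset (Subgroup G)) := by
  classical
  have hPg : IsPGroup ℓ P := IsPGroup.of_card (n := 1) (by rw [hPc, pow_one])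
  -- the two Sylow subgroups of `K`
  let P1 : Subgroup K := P.subgroupOf K
  let e1 : P1 ≃* P := Subgroup.subgroupOfEquivOfLe hPK
  have c1 : Nat.card P1 = ℓ := by rw [Nat.card_congr e1.toEquiv, hPc]
  have p1 : IsPGroup ℓ P1 := IsPGroup.of_card (n := 1) (by rw [c1, pow_one])
  have i1 : ¬ ℓ ∣ P1.index := by
    intro h
    apply hK
    rw [← P1.card_mul_index, c1, pow_two]
    exact Nat.mul_dvd_mul_left ℓ h
  let Pg : Subgroup G := P.map (MulAut.conj g⁻¹).toMonoidHom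
  have hPgK : Pg ≤ K := by
    rintro _ ⟨u, hu, rfl⟩
    have h1 : (MulAut.conj g⁻¹).toMonoidHom u = g⁻¹ * u * g := by
      change g⁻¹ * u * g⁻¹⁻¹ = _
      rw [inv_inv]
    rw [h1]
    exact hg u hu
  have cPg : Nat.card Pg = ℓ := by
    have h1 : Function.Injective (MulAut.conj g⁻¹).toMonoidHom := (MulAut.conj g⁻¹).injective
    rw [Subgroup.card_map_of_injective h1, hPc]
  let P2 : Subgroup K := Pg.subgroupOf K
  let e2 : P2 ≃* Pg := Subgroup.subgroupOfEquivOfLe hPgK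
  have c2 : Nat.card P2 = ℓ := by rw [Nat.card_congr e2.toEquiv, cPg]
  have p2 : IsPGroup ℓ P2 := IsPGroup.of_card (n := 1) (by rw [c2, pow_one])
  have i2 : ¬ ℓ ∣ P2.index := by
    have h1 := P1.card_mul_index
    have h2 := P2.card_mul_index
    rw [c1] at h1
    rw [c2, ← h1] at h2
    have h3 := Nat.eq_of_mul_eq_mul_left (Fact.out : ℓ.Prime).pos h2
    rw [h3]
    exact i1
  let S1 : Sylow ℓ K := p1.toSylow i1
  let S2 : Sylow ℓ K := p2.toSylow i2
  obtain ⟨c, hc⟩ := MulAction.exists_smul_eq K S1 S2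
  refine ⟨c, c.2, ?_⟩
  have key : ∀ u ∈ P, (g * c) * u * (g * c)⁻¹ ∈ P := by
    intro u hu
    have h1 : (⟨u, hPK hu⟩ : K) ∈ S1 := Subgroup.mem_subgroupOf.mpr hu
    have h2 : c * ⟨u, hPK hu⟩ * c⁻¹ ∈ c • S1 :=
      Subgroup.smul_mem_pointwise_smul _ (MulAut.conj c) (S1 : Subgroup K) h1
    rw [hc] at h2
    have h3 : ((c * ⟨u, hPK hu⟩ * c⁻¹ : K) : G) ∈ Pg := Subgroup.mem_subgroupOf.mp h2
    obtain ⟨v, hv, hv'⟩ := h3
    have h4 : (MulAut.conj g⁻¹).toMonoidHom v = g⁻¹ * v * g := by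
      change g⁻¹ * v * g⁻¹⁻¹ = _
      rw [inv_inv]
    rw [h4] at hv'
    have h5 : (g * c) * u * (g * c)⁻¹ = g * ((c * ⟨u, hPK hu⟩ * c⁻¹ : K) : G) * g⁻¹ := by
      push_cast
      group
    rw [h5, ← hv']
    have h6 : g * (g⁻¹ * v * g) * g⁻¹ = v := by group
    rw [h6]
    exact hv
  rw [mem_stb]
  intro D hD
  rw [Finset.mem_singleton] at hD
  subst hD
  apply Subgroup.eq_of_le_of_card_ge
  · rintro _ ⟨u, hu, rfl⟩
    exact key u hu
  · have h1 : Function.Injective (MulAut.conj (g * c)).toMonoidHom :=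
      (MulAut.conj (g * c)).injective
    rw [Subgroup.card_map_of_injective h1]

section Fix

variable {G B C : Type} [Group G] [Group B] [Group C] {ι : G →* B} {κ : B →* MulAut G}
  {ρ : B →* C}

/-- The elements of `G` fixed by `κ t`. -/
def fixK (κ : B →* MulAut G) (t : B) : Subgroup G where
  carrier := {h | κ t h = h}
  one_mem' := map_one _
  mul_mem' := fun {a b} ha hb => by
    change κ t (a * b) = a * b
    rw [map_mul, show κ t a = a from ha, show κ t b = b from hb]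
  inv_mem' := fun {a} ha => by
    change κ t a⁻¹ = a⁻¹
    rw [map_inv, show κ t a = a from ha]

theorem mem_fixK {t : B} {h : G} : h ∈ fixK κ t ↔ κ t h = h := Iff.rfl

theorem comm_iff (hV : ClG ι κ ρ) (x : B) (u : G) :
    ι u * x = x * ι u ↔ κ x u = u := by
  constructor
  · intro h1
    apply hV.inj
    rw [hV.act, ← h1]
    group
  · intro h
    have h1 := hV.act x u
    rw [h] at h1
    conv_lhs => rw [h1]
    group

theorem conj_iff (hV : ClG ι κ ρ) (x : B) (u : G) :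
    (ι u) * x * (ι u)⁻¹ = x ↔ κ x u = u := by
  rw [mul_inv_eq_iff_eq_mul, comm_iff hV]

theorem card_fixK (hV : ClG ι κ ρ) (t : B) :
    Nat.card ↥(Subgroup.centralizer ({t} : Set B) ⊓ ι.range) = Nat.card (fixK κ t) := by
  have h : (fixK κ t).map ι = Subgroup.centralizer ({t} : Set B) ⊓ ι.range := by
    ext x
    rw [Subgroup.mem_inf, Subgroup.mem_centralizer_singleton_iff, Subgroup.mem_map]
    constructor
    · rintro ⟨u, hu, rfl⟩
      exact ⟨(comm_iff hV t u).mpr hu, ⟨u, rfl⟩⟩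
    · rintro ⟨h1, ⟨u, rfl⟩⟩
      exact ⟨u, (comm_iff hV t u).mp h1, rfl⟩
  rw [← h, Subgroup.card_map_of_injective hV.inj]

end Fix

/-- Part (1). -/
theorem part1 (hB : Stmt_BRC) (G B C : Type) [Group G] [Fintype G] [Group B] [Fintype B]
    [Group C] (𝔐 : Ideal (integralClosure ℤ ℂ)) (ℓ : ℕ) [Fact ℓ.Prime] (h𝔐 : 𝔐.IsMaximal)
    (hℓ : (ℓ : integralClosure ℤ ℂ) ∈ 𝔐)
    (ι : G →* B) (κ : B →* MulAut G) (ρ : B →* C) (hV : LocN ι κ ρ)
    (P : Subgroup G) (hPc : Nat.card P = ℓ) (ψ : G → ℂ) (hψ : IrrOn (stb {P}) ψ)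
    (L : Subgroup C) (f : B → ℂ) (hf : ExtL ι κ ρ {P} ψ L f) (t : B)
    (htP : ∀ u ∈ P, κ t u = u)
    (ht2 : ¬ ℓ ^ 2 ∣ Nat.card ↥(Subgroup.centralizer ({t} : Set B) ⊓ ι.range)) :
    cgT 𝔐 ι.range f t = cgT 𝔐 ((stb {P}).map ι) f t := by
  classical
  refine (hB G B C 𝔐 ℓ h𝔐 hℓ ι κ ρ hV P hPc ψ hψ L f hf (fun x => cjT ι.range x t) ?_ ?_).2
    (fun x => cjT ((stb {P}).map ι) x t) ?_ ?_ ?_
  · intro n _ x
    exact BRV.cjT_conj (MonoidHom.mem_range.mpr ⟨n, rfl⟩) x t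
  · intro x
    exact BRV.isIntegral_cjT _ _ _
  · intro n hn x
    exact BRV.cjT_conj (Subgroup.mem_map.mpr ⟨n, hn, rfl⟩) x t
  · intro x
    exact BRV.isIntegral_cjT _ _ _
  · intro x _ hx
    congr 1
    apply BRV.cjT_congr
    constructor
    · rintro ⟨_, ⟨g, rfl⟩, hg⟩
      obtain ⟨c, hc, hgc⟩ := conj_stb hPc (K := fixK κ t)
        (by rw [← card_fixK hV.cl]; exact ht2) (fun u hu => htP u hu) g (by
          intro u hu
          rw [mem_fixK, ← conj_iff hV.cl]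
          have h1 := (conj_iff hV.cl x u).mpr (hx u hu)
          rw [hg] at h1
          have h2 : ι (g⁻¹ * u * g) * t * (ι (g⁻¹ * u * g))⁻¹ =
              (ι g)⁻¹ * (ι u * (ι g * t * (ι g)⁻¹) * (ι u)⁻¹) * ι g := by
            rw [map_mul, map_mul, map_inv]
            group
          rw [h2, h1]
          group)
      refine ⟨ι (g * c), ⟨g * c, hgc, rfl⟩, ?_⟩
      have h3 : ι c * t * (ι c)⁻¹ = t := (conj_iff hV.cl t c).mpr hc
      have h4 : ι (g * c) * t * (ι (g * c))⁻¹ = ι g * (ι c * t * (ι c)⁻¹) * (ι g)⁻¹ := by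
        rw [map_mul]
        group
      rw [h4, h3, hg]
    · rintro ⟨_, ⟨g, _, rfl⟩, hg⟩
      exact ⟨ι g, ⟨g, rfl⟩, hg⟩

/-- `G` with the trivial quotient. -/
theorem locN_id (G : Type) [Group G] :
    LocN (MonoidHom.id G) (MulAut.conj (G := G)) (1 : G →* PUnit.{1}) where
  cl :=
    { inj := fun _ _ h => h
      act := fun _ _ => rfl
      ker := fun y => ⟨fun _ => ⟨y, rfl⟩, fun _ => rfl⟩ }
  surj := fun _ => ⟨1, rfl⟩

/-- Part (2). -/
theorem part2 (hB : Stmt_BRC) (G : Type) [Group G] [Fintype G]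
    (𝔐 : Ideal (integralClosure ℤ ℂ)) (ℓ : ℕ) [Fact ℓ.Prime] (h𝔐 : 𝔐.IsMaximal)
    (hℓ : (ℓ : integralClosure ℤ ℂ) ∈ 𝔐)
    (P : Subgroup G) (hPc : Nat.card P = ℓ) (ψ : G → ℂ) (hψ : IrrOn (stb {P}) ψ)
    (x₀ : G) (hx : ∀ u ∈ P, u * x₀ = x₀ * u)
    (hx2 : ¬ ℓ ^ 2 ∣ Nat.card (Subgroup.centralizer ({x₀} : Set G))) :
    cg 𝔐 ψ x₀ = red 𝔐 (wt ψ (fun x => cjT (stb {P}) x x₀)) := by
  classical
  have hN := locN_id G
  have hex : ExtL (MonoidHom.id G) (MulAut.conj (G := G)) (1 : G →* PUnit.{1}) {P} ψ ⊤ ψ := by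
    refine ⟨?_, fun _ => rfl⟩
    have h1 := LTR.comap_Stx hN.cl hψ (⊤ : Subgroup PUnit.{1})
    rw [Subgroup.comap_id] at h1
    rw [h1]
    exact hψ
  have h2 := part1 hB G G PUnit.{1} 𝔐 ℓ h𝔐 hℓ (MonoidHom.id G) (MulAut.conj (G := G)) 1 hN P hPc
    ψ hψ ⊤ ψ hex x₀ (by
      intro u hu
      rw [← comm_iff hN.cl]
      exact hx u hu) (by
      rw [MonoidHom.range_eq_top.mpr Function.surjective_id, inf_top_eq]
      exact hx2)
  rw [Subgroup.map_id] at h2
  have h3 := CGT.partB 𝔐 hN.cl ψ x₀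
  exact h3.symm.trans h2

/-- Part (3). -/
theorem part3 (G B C : Type) [Group G] [Fintype G] [Group B] [Fintype B]
    [Group C] (𝔐 : Ideal (integralClosure ℤ ℂ)) (ℓ : ℕ) [Fact ℓ.Prime]
    (hℓ : (ℓ : integralClosure ℤ ℂ) ∈ 𝔐)
    (ι : G →* B) (κ : B →* MulAut G) (ρ : B →* C) (hV : LocN ι κ ρ)
    (P : Subgroup G) (hPc : Nat.card P = ℓ) (x₀ : G)
    (hx2 : ¬ ℓ ^ 2 ∣ Nat.card (Subgroup.centralizer ({x₀} : Set G)))
    (a : B → ℂ) (ha : ∀ n ∈ stb {P}, ∀ x, a (ι n * x * (ι n)⁻¹) = a x)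
    (hai : ∀ x, IsIntegral ℤ (a x)) (t : B) (htP : ∀ u ∈ P, κ t u = u)
    (ht2 : ℓ ^ 2 ∣ Nat.card ↥(Subgroup.centralizer ({t} : Set B) ⊓ ι.range)) :
    red 𝔐 (∑ y : G, cjT (stb {P}) y x₀ * a ((ι y)⁻¹ * t)) = 0 := by
  classical
  rw [card_fixK hV.cl] at ht2
  -- a subgroup of order `ℓ ^ 2`
  have hP1 : Nat.card (P.subgroupOf (fixK κ t)) = ℓ ^ 1 := by
    have hPK : P ≤ fixK κ t := fun u hu => htP u hu
    rw [Nat.card_congr (Subgroup.subgroupOfEquivOfLe hPK).toEquiv, hPc, pow_one]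
  obtain ⟨R0, hR0, hPR0⟩ := Sylow.exists_subgroup_card_pow_succ (n := 1) ht2 hP1
  let R : Subgroup G := R0.map (fixK κ t).subtype
  have hRc : Nat.card R = ℓ ^ 2 := by
    rw [Subgroup.card_map_of_injective (Subgroup.subtype_injective _), hR0]
  have hRt : ∀ r ∈ R, κ t r = r := by
    rintro _ ⟨r, _, rfl⟩
    exact r.2
  have hPR : P ≤ R := by
    intro u hu
    exact ⟨⟨u, htP u hu⟩, hPR0 (Subgroup.mem_subgroupOf.mpr hu), rfl⟩
  have hRg : IsPGroup ℓ R := IsPGroup.of_card (n := 2) hRc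
  have hcomm : ∀ x y : R, x * y = y * x :=
    IsPGroup.commutative_of_card_eq_prime_sq hRc
  have hRs : R ≤ stb ({P} : Finset (Subgroup G)) := by
    intro r hr
    rw [mem_stb]
    intro D hD
    rw [Finset.mem_singleton] at hD
    subst hD
    have h1 : Function.Injective (MulAut.conj r).toMonoidHom := (MulAut.conj r).injective
    apply Subgroup.eq_of_le_of_card_ge
    · rintro _ ⟨v, hv, rfl⟩
      change r * v * r⁻¹ ∈ D
      have h2 := congrArg Subtype.val (hcomm ⟨r, hr⟩ ⟨v, hPR hv⟩)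
      have h3 : r * v = v * r := h2
      rw [h3, mul_inv_cancel_right]
      exact hv
    · rw [Subgroup.card_map_of_injective h1]
  -- the action
  let act : MulAction R G :=
    { smul := fun r x => (r : G) * x * (r : G)⁻¹
      one_smul := fun x => by
        change ((1 : R) : G) * x * ((1 : R) : G)⁻¹ = x
        rw [Subgroup.coe_one]
        group
      mul_smul := fun a b x => by
        change ((a * b : R) : G) * x * ((a * b : R) : G)⁻¹ =
          (a : G) * ((b : G) * x * (b : G)⁻¹) * (a : G)⁻¹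
        rw [Subgroup.coe_mul]
        group }
  have hsmul : ∀ (r : R) (x : G), r • x = (r : G) * x * (r : G)⁻¹ := fun _ _ => rfl
  rw [red_sum 𝔐 _ _ fun y _ => (BRV.isIntegral_cjT _ _ _).mul (hai _)]
  rw [sum_eq_sum_fixed hRg (nsmul_quot_eq_zero 𝔐 hℓ)
    (fun y => red 𝔐 (cjT (stb {P}) y x₀ * a ((ι y)⁻¹ * t)))]
  · refine Finset.sum_eq_zero fun y hy => ?_
    have hy' := (Finset.mem_filter.mp hy).2
    have h0 : cjT (stb {P}) y x₀ = 0 := by
      unfold cjT
      rw [if_neg]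
      rintro ⟨n, _, rfl⟩
      apply hx2
      have h1 : R.map (MulAut.conj n⁻¹).toMonoidHom ≤ Subgroup.centralizer ({x₀} : Set G) := by
        rintro _ ⟨r, hr, rfl⟩
        rw [Subgroup.mem_centralizer_singleton_iff]
        change n⁻¹ * r * n⁻¹⁻¹ * x₀ = x₀ * (n⁻¹ * r * n⁻¹⁻¹)
        have h2 := hy' ⟨r, hr⟩
        rw [hsmul] at h2
        have h3 : r * (n * x₀ * n⁻¹) = (n * x₀ * n⁻¹) * r := by
          rw [← mul_inv_eq_iff_eq_mul]
          exact h2
        calc n⁻¹ * r * n⁻¹⁻¹ * x₀ = n⁻¹ * (r * (n * x₀ * n⁻¹)) * n := by group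
          _ = _ := by rw [h3]; group
      have h4 := Subgroup.card_dvd_of_le h1
      rwa [Subgroup.card_map_of_injective (MulAut.conj n⁻¹).injective, hRc] at h4
    rw [h0, zero_mul, red_zero]
  · intro r y
    change red 𝔐 (cjT (stb {P}) (r • y) x₀ * a ((ι (r • y))⁻¹ * t)) = _
    rw [hsmul, BRV.cjT_conj (hRs r.2)]
    have h1 : ι (r : G) * t = t * ι (r : G) := (comm_iff hV.cl t r).mpr (hRt r r.2)
    have h2 : (ι ((r : G) * y * (r : G)⁻¹))⁻¹ * t =
        ι (r : G) * ((ι y)⁻¹ * t) * (ι (r : G))⁻¹ := by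
      rw [map_mul, map_mul, map_inv]
      have h3 : (ι (r : G) * ι y * (ι (r : G))⁻¹)⁻¹ * t =
          ι (r : G) * (ι y)⁻¹ * ((ι (r : G))⁻¹ * t) := by group
      have h4 : (ι (r : G))⁻¹ * t = t * (ι (r : G))⁻¹ := by
        rw [inv_mul_eq_iff_eq_mul, ← mul_assoc, h1]
        group
      rw [h3, h4]
      group
    rw [h2, ha r (hRs r.2)]

end GDW

theorem GDW_thm (h1 : Stmt_BRC) : Stmt_GDW := by
  intro G B C _ _ _ _ _ 𝔐 ℓ _ h𝔐 hℓ ι κ ρ hV P hPc ψ hψ
  refine ⟨fun L f hf t _ htP ht2 =>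
    GDW.part1 h1 G B C 𝔐 ℓ h𝔐 hℓ ι κ ρ hV P hPc ψ hψ L f hf t htP ht2, ?_⟩
  intro x₀ hx hx2
  refine ⟨GDW.part2 h1 G 𝔐 ℓ h𝔐 hℓ P hPc ψ hψ x₀ hx hx2, ?_⟩
  intro a ha hai t htP ht2
  exact GDW.part3 G B C 𝔐 ℓ hℓ ι κ ρ hV P hPc x₀ hx2 a ha hai t htP ht2

end Pool.Agent.DPW


end

section

/-!
# GDX: the elements for which the Sylow subgroups of the centralizer are cyclic
-/

namespace Pool.Agent.DPX

open Pool.Agent.DP Pool.Agent.DPV Pool.Agent.DPB Pool.Agent.DPW Pool.Agent.Lib_helper13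
open Representation

namespace GDX

/-- The preimage of an element of the normalizer of the image is in the stabilizer. -/
theorem mem_stb_of {G B : Type} [Group G] [Finite G] [Group B] {ι : G →* B}
    (hι : Function.Injective ι) {P₁ : Subgroup G} {n : G}
    (hn : ι n ∈ Subgroup.normalizer ((P₁.map ι : Subgroup B) : Set B)) :
    n ∈ stb ({P₁} : Finset (Subgroup G)) := by
  rw [mem_stb]
  intro D hD
  rw [Finset.mem_singleton] at hD
  subst hD
  rw [Subgroup.mem_normalizer_iff] at hn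
  have hinj : Function.Injective (MulAut.conj n).toMonoidHom := (MulAut.conj n).injective
  apply Subgroup.eq_of_le_of_card_ge
  · rintro _ ⟨u, hu, rfl⟩
    have h1 : ι u ∈ D.map ι := ⟨u, hu, rfl⟩
    have h2 := (hn (ι u)).mp h1
    obtain ⟨v, hv, hv'⟩ := h2
    have h3 : ι v = ι (n * u * n⁻¹) := by
      rw [hv', map_mul, map_mul, map_inv]
    have h4 : v = n * u * n⁻¹ := hι h3
    have h5 : (MulAut.conj n).toMonoidHom u = n * u * n⁻¹ := rfl
    rw [h5, ← h4]
    exact hv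
  · rw [Subgroup.card_map_of_injective hinj]

/-- Part (1). -/
theorem part1 (h1 : Stmt_GCSX) (G B C : Type) [Group G] [Fintype G] [Group B] [Fintype B]
    [Group C] (𝔐 : Ideal (integralClosure ℤ ℂ)) (ℓ : ℕ) [Fact ℓ.Prime] (h𝔐 : 𝔐.IsMaximal)
    (hℓ : (ℓ : integralClosure ℤ ℂ) ∈ 𝔐)
    (ι : G →* B) (κ : B →* MulAut G) (ρ : B →* C) (hV : LocN ι κ ρ)
    (P₁ : Subgroup G) (hPc : Nat.card P₁ = ℓ) (ψ : G → ℂ) (hψ : IrrOn (stb {P₁}) ψ)
    (L : Subgroup C) (f : B → ℂ) (hf : ExtL ι κ ρ {P₁} ψ L f) (t : B)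
    (htP : ∀ u ∈ P₁, κ t u = u) (ht2 : CyC ℓ ι.range t) :
    cgT 𝔐 ι.range f t = cgT 𝔐 ((stb {P₁}).map ι) f t := by
  classical
  refine (BRC_thm G B C 𝔐 ℓ h𝔐 hℓ ι κ ρ hV P₁ hPc ψ hψ L f hf (fun x => cjT ι.range x t)
    ?_ ?_).2 (fun x => cjT ((stb {P₁}).map ι) x t) ?_ ?_ ?_
  · intro n _ x
    exact BRV.cjT_conj (MonoidHom.mem_range.mpr ⟨n, rfl⟩) x t
  · intro x
    exact BRV.isIntegral_cjT _ _ _
  · intro n hn x
    exact BRV.cjT_conj (Subgroup.mem_map.mpr ⟨n, hn, rfl⟩) x t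
  · intro x
    exact BRV.isIntegral_cjT _ _ _
  · intro x _ hx
    congr 1
    apply BRV.cjT_congr
    constructor
    · rintro ⟨_, ⟨g, rfl⟩, hg⟩
      have hc : Nat.card (P₁.map ι) = ℓ := by
        rw [Subgroup.card_map_of_injective hV.cl.inj, hPc]
      have hle : P₁.map ι ≤ ι.range := by
        rintro _ ⟨u, _, rfl⟩
        exact ⟨u, rfl⟩
      have hct : ∀ u ∈ P₁.map ι, u * t = t * u := by
        rintro _ ⟨u, hu, rfl⟩
        exact (GDW.comm_iff hV.cl t u).mpr (htP u hu)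
      obtain ⟨m, hm, hmt⟩ := (h1 ℓ B ι.range (P₁.map ι) hc hle t hct).1 ht2 (ι g) ⟨g, rfl⟩ (by
        rintro _ ⟨u, hu, rfl⟩
        rw [← hg]
        exact (GDW.comm_iff hV.cl x u).mpr (hx u hu))
      obtain ⟨⟨n, rfl⟩, hn⟩ := Subgroup.mem_inf.mp hm
      refine ⟨ι n, ⟨n, mem_stb_of hV.cl.inj hn, rfl⟩, ?_⟩
      rw [hmt, hg]
    · rintro ⟨_, ⟨g, _, rfl⟩, hg⟩
      exact ⟨ι g, ⟨g, rfl⟩, hg⟩

/-- Part (2). -/
theorem part2 (h1 : Stmt_GCSX) (G : Type) [Group G] [Fintype G]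
    (𝔐 : Ideal (integralClosure ℤ ℂ)) (ℓ : ℕ) [Fact ℓ.Prime] (h𝔐 : 𝔐.IsMaximal)
    (hℓ : (ℓ : integralClosure ℤ ℂ) ∈ 𝔐)
    (P₁ : Subgroup G) (hPc : Nat.card P₁ = ℓ) (ψ : G → ℂ) (hψ : IrrOn (stb {P₁}) ψ)
    (x₀ : G) (hx : ∀ u ∈ P₁, u * x₀ = x₀ * u) (hx2 : CyC ℓ ⊤ x₀) :
    cg 𝔐 ψ x₀ = red 𝔐 (wt ψ (fun x => cjT (stb {P₁}) x x₀)) := by
  classical
  have hN := GDW.locN_id G
  have hex : ExtL (MonoidHom.id G) (MulAut.conj (G := G)) (1 : G →* PUnit.{1}) {P₁} ψ ⊤ ψ := by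
    refine ⟨?_, fun _ => rfl⟩
    have h1 := LTR.comap_Stx hN.cl hψ (⊤ : Subgroup PUnit.{1})
    rw [Subgroup.comap_id] at h1
    rw [h1]
    exact hψ
  have h2 := part1 h1 G G PUnit.{1} 𝔐 ℓ h𝔐 hℓ (MonoidHom.id G) (MulAut.conj (G := G)) 1 hN P₁
    hPc ψ hψ ⊤ ψ hex x₀ (by
      intro u hu
      rw [← GDW.comm_iff hN.cl]
      exact hx u hu) (fun Q hQ _ hQc => hx2 Q hQ le_top hQc)
  rw [Subgroup.map_id] at h2
  have h3 := CGT.partB 𝔐 hN.cl ψ x₀
  exact h3.symm.trans h2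

/-- Part (3). -/
theorem part3 (h1 : Stmt_GCSX) (G B C : Type) [Group G] [Fintype G] [Group B] [Fintype B]
    [Group C] (𝔐 : Ideal (integralClosure ℤ ℂ)) (ℓ : ℕ) [Fact ℓ.Prime]
    (hℓ : (ℓ : integralClosure ℤ ℂ) ∈ 𝔐)
    (ι : G →* B) (κ : B →* MulAut G) (ρ : B →* C) (hV : LocN ι κ ρ)
    (P₁ : Subgroup G) (hPc : Nat.card P₁ = ℓ) (x₀ : G) (hx2 : CyC ℓ ⊤ x₀)
    (a : B → ℂ) (ha : ∀ n ∈ stb {P₁}, ∀ x, a (ι n * x * (ι n)⁻¹) = a x)
    (hai : ∀ x, IsIntegral ℤ (a x)) (t : B) (htP : ∀ u ∈ P₁, κ t u = u)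
    (ht2 : ¬ CyC ℓ ι.range t) :
    red 𝔐 (∑ y : G, cjT (stb {P₁}) y x₀ * a ((ι y)⁻¹ * t)) = 0 := by
  classical
  have hc : Nat.card (P₁.map ι) = ℓ := by
    rw [Subgroup.card_map_of_injective hV.cl.inj, hPc]
  have hle : P₁.map ι ≤ ι.range := by
    rintro _ ⟨u, _, rfl⟩
    exact ⟨u, rfl⟩
  have hct : ∀ u ∈ P₁.map ι, u * t = t * u := by
    rintro _ ⟨u, hu, rfl⟩
    exact (GDW.comm_iff hV.cl t u).mpr (htP u hu)
  have hnc : ¬ CyC ℓ (ι.range ⊓ Subgroup.normalizer ((P₁.map ι : Subgroup B) : Set B)) t :=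
    fun h => ht2 ((h1 ℓ B ι.range (P₁.map ι) hc hle t hct).2 h)
  unfold CyC at hnc
  push Not at hnc
  obtain ⟨Q, hQg, hQle, hQt, hQc⟩ := hnc
  let R : Subgroup G := Q.comap ι
  have hRg : IsPGroup ℓ R := hQg.comap_of_injective ι hV.cl.inj
  have hRs : R ≤ stb ({P₁} : Finset (Subgroup G)) := fun r hr =>
    mem_stb_of hV.cl.inj (Subgroup.mem_inf.mp (hQle (Subgroup.mem_comap.mp hr))).2
  have hRt : ∀ r ∈ R, κ t r = r := fun r hr =>
    (GDW.comm_iff hV.cl t r).mp (hQt (ι r) (Subgroup.mem_comap.mp hr))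
  have hRc : ¬ IsCyclic R := by
    intro hcyc
    apply hQc
    have hmap : R.map ι = Q := by
      apply Subgroup.map_comap_eq_self
      exact fun q hq => (Subgroup.mem_inf.mp (hQle hq)).1
    have e : R ≃* Q := (R.equivMapOfInjective ι hV.cl.inj).trans (MulEquiv.subgroupCongr hmap)
    exact isCyclic_of_surjective e e.surjective
  -- the action
  let act : MulAction R G :=
    { smul := fun r x => (r : G) * x * (r : G)⁻¹
      one_smul := fun x => by
        change ((1 : R) : G) * x * ((1 : R) : G)⁻¹ = x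
        rw [Subgroup.coe_one]
        group
      mul_smul := fun a b x => by
        change ((a * b : R) : G) * x * ((a * b : R) : G)⁻¹ =
          (a : G) * ((b : G) * x * (b : G)⁻¹) * (a : G)⁻¹
        rw [Subgroup.coe_mul]
        group }
  have hsmul : ∀ (r : R) (x : G), r • x = (r : G) * x * (r : G)⁻¹ := fun _ _ => rfl
  rw [red_sum 𝔐 _ _ fun y _ => (BRV.isIntegral_cjT _ _ _).mul (hai _)]
  rw [sum_eq_sum_fixed hRg (nsmul_quot_eq_zero 𝔐 hℓ)
    (fun y => red 𝔐 (cjT (stb {P₁}) y x₀ * a ((ι y)⁻¹ * t)))]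
  · refine Finset.sum_eq_zero fun y hy => ?_
    have hy' := (Finset.mem_filter.mp hy).2
    have h0 : cjT (stb {P₁}) y x₀ = 0 := by
      unfold cjT
      rw [if_neg]
      rintro ⟨n, _, rfl⟩
      apply hRc
      have hinj : Function.Injective (MulAut.conj n⁻¹).toMonoidHom :=
        (MulAut.conj n⁻¹).injective
      have h2 : IsCyclic (R.map (MulAut.conj n⁻¹).toMonoidHom) := by
        apply hx2 _ (hRg.map _) le_top
        rintro _ ⟨r, hr, rfl⟩
        change n⁻¹ * r * n⁻¹⁻¹ * x₀ = x₀ * (n⁻¹ * r * n⁻¹⁻¹)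
        have h2 := hy' ⟨r, hr⟩
        rw [hsmul] at h2
        have h3 : r * (n * x₀ * n⁻¹) = (n * x₀ * n⁻¹) * r := by
          rw [← mul_inv_eq_iff_eq_mul]
          exact h2
        calc n⁻¹ * r * n⁻¹⁻¹ * x₀ = n⁻¹ * (r * (n * x₀ * n⁻¹)) * n := by group
          _ = _ := by rw [h3]; group
      let e := R.equivMapOfInjective (MulAut.conj n⁻¹).toMonoidHom hinj
      exact isCyclic_of_surjective e.symm e.symm.surjective
    rw [h0, zero_mul, red_zero]
  · intro r y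
    rw [hsmul, BRV.cjT_conj (hRs r.2)]
    have h1 : ι (r : G) * t = t * ι (r : G) := (GDW.comm_iff hV.cl t r).mpr (hRt r r.2)
    have h2 : (ι ((r : G) * y * (r : G)⁻¹))⁻¹ * t =
        ι (r : G) * ((ι y)⁻¹ * t) * (ι (r : G))⁻¹ := by
      rw [map_mul, map_mul, map_inv]
      have h3 : (ι (r : G) * ι y * (ι (r : G))⁻¹)⁻¹ * t =
          ι (r : G) * (ι y)⁻¹ * ((ι (r : G))⁻¹ * t) := by group
      have h4 : (ι (r : G))⁻¹ * t = t * (ι (r : G))⁻¹ := by
        rw [inv_mul_eq_iff_eq_mul, ← mul_assoc, h1]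
        group
      rw [h3, h4]
      group
    rw [h2, ha r (hRs r.2)]

end GDX

theorem GDX_thm (h1 : Stmt_GCSX) : Stmt_GDX := by
  intro G B C _ _ _ _ _ 𝔐 ℓ _ h𝔐 hℓ ι κ ρ hV P₁ hPc ψ hψ
  refine ⟨fun L f hf t _ htP ht2 =>
    GDX.part1 h1 G B C 𝔐 ℓ h𝔐 hℓ ι κ ρ hV P₁ hPc ψ hψ L f hf t htP ht2, ?_⟩
  intro x₀ hx hx2
  refine ⟨GDX.part2 h1 G 𝔐 ℓ h𝔐 hℓ P₁ hPc ψ hψ x₀ hx hx2, ?_⟩
  intro a ha hai t htP ht2
  exact GDX.part3 h1 G B C 𝔐 ℓ hℓ ι κ ρ hV P₁ hPc x₀ hx2 a ha hai t htP ht2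

end Pool.Agent.DPX


end

section

/-!
# REGX: the characters of a block whose defect groups contain a central subgroup of order `ℓ`
-/

set_option autoImplicit false

namespace Pool.Agent.DPX

open Pool.Agent.DP Pool.Agent.DPV Pool.Agent.DPB Pool.Agent.DPW Pool.Agent.Lib_helper13
open Representation

namespace REGX

section ops

variable {F T V : Type} [Field F] [Group T] [Fintype T] [AddCommGroup V] [Module F V]

/-- `Zop` as a linear map. -/
def zl (ρ : Representation F T V) : (T → F) →ₗ[F] Module.End F V where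
  toFun := Zop ρ
  map_add' a b := by
    unfold Zop
    simp only [Pi.add_apply, add_smul, Finset.sum_add_distrib]
  map_smul' c a := by
    unfold Zop
    simp only [Pi.smul_apply, smul_eq_mul, mul_smul, Finset.smul_sum, RingHom.id_apply]

theorem zl_apply (ρ : Representation F T V) (a : T → F) : zl ρ a = Zop ρ a := rfl

theorem zop_zero (ρ : Representation F T V) : Zop ρ (0 : T → F) = 0 := (zl ρ).map_zero

/-- If `e` acts as the identity then `e` fixes the trace function. -/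
theorem Lz_char (ρ : Representation F T V) (e : T → F) (he : Zop ρ e = 1) :
    Lz e ρ.character = ρ.character := by
  funext g
  rw [Lz_apply]
  have h1 : ∑ h, e h * ρ.character (h * g) = LinearMap.trace F V (Zop ρ e * ρ g) := by
    unfold Zop
    rw [Finset.sum_mul, map_sum]
    refine Finset.sum_congr rfl fun h _ => ?_
    rw [smul_mul_assoc, map_smul, smul_eq_mul, ← map_mul]
    rfl
  rw [h1, he, one_mul]
  rfl

variable {e : T → F} {m c : ℕ} {E : Fin m → Fin m → T → F} {z : T → F}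

theorem zmul (hN : NilB e m c E z) (ρ : Representation F T V) (i j k l : Fin m) (v : V) :
    Zop ρ (E i j) (Zop ρ (E k l) v) = if j = k then Zop ρ (E i l) v else 0 := by
  have h1 := congrArg (Zop ρ) (hN.mu i j k l)
  rw [RPRB.zop_cvF] at h1
  have h2 := LinearMap.congr_fun h1 v
  rw [Module.End.mul_apply] at h2
  rw [h2]
  split_ifs
  · rfl
  · rw [zop_zero]
    rfl

theorem zsum (hN : NilB e m c E z) (ρ : Representation F T V) (he : Zop ρ e = 1) (v : V) :
    ∑ i, Zop ρ (E i i) v = v := by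
  have h1 : ∑ i, Zop ρ (E i i) = 1 := by
    rw [← he, ← hN.on, ← zl_apply, map_sum]
    rfl
  have h2 := LinearMap.congr_fun h1 v
  rw [LinearMap.sum_apply] at h2
  exact h2

/-- The dimension of a module is a multiple of `m`. -/
theorem dvd_dim [Module.Finite F V] (hN : NilB e m c E z) (hm : 0 < m)
    (ρ : Representation F T V) (he : Zop ρ e = 1) : m ∣ Module.finrank F V := by
  classical
  let o : Fin m := ⟨0, hm⟩
  let W : Submodule F V := LinearMap.range (Zop ρ (E o o))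
  have hW : ∀ w : W, Zop ρ (E o o) (w : V) = w := by
    rintro ⟨_, ⟨v, rfl⟩⟩
    show Zop ρ (E o o) (Zop ρ (E o o) v) = _
    rw [zmul hN, if_pos rfl]
  let f : V ≃ₗ[F] (Fin m → W) :=
    { toFun := fun v i => ⟨Zop ρ (E o i) v, ⟨Zop ρ (E o i) v, by rw [zmul hN, if_pos rfl]⟩⟩
      map_add' := by
        intro a b
        funext i
        apply Subtype.ext
        exact map_add _ _ _
      map_smul' := by
        intro r a
        funext i
        apply Subtype.ext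
        exact map_smul _ _ _
      invFun := fun w => ∑ i, Zop ρ (E i o) (w i : V)
      left_inv := by
        intro v
        show ∑ i, Zop ρ (E i o) (Zop ρ (E o i) v) = v
        rw [← zsum hN ρ he v]
        refine Finset.sum_congr rfl fun i _ => ?_
        rw [zmul hN, if_pos rfl, zsum hN ρ he v]
      right_inv := by
        intro w
        funext j
        apply Subtype.ext
        show Zop ρ (E o j) (∑ i, Zop ρ (E i o) (w i : V)) = w j
        rw [map_sum, Finset.sum_eq_single j]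
        · rw [zmul hN, if_pos rfl, hW]
        · intro i _ hi
          rw [zmul hN, if_neg (fun h => hi h.symm)]
        · intro h
          exact absurd (Finset.mem_univ j) h }
  rw [f.finrank_eq, Module.finrank_pi_fintype, Finset.sum_const, Finset.card_univ,
    Fintype.card_fin, smul_eq_mul]
  exact dvd_mul_right _ _

/-- A module of dimension `m` is irreducible. -/
theorem irr_of_dim [Module.Finite F V] (hN : NilB e m c E z) (hm : 0 < m)
    (ρ : Representation F T V) (he : Zop ρ e = 1) (hd : Module.finrank F V = m) :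
    ρ.IsIrreducible := by
  classical
  have hnt : Nontrivial V := Module.finrank_pos_iff.1 (by omega : 0 < Module.finrank F V)
  have hne : Nontrivial (Subrepresentation ρ) := by
    refine ⟨⟨⊥, ⊤, fun h => ?_⟩⟩
    have h1 := congrArg Subrepresentation.toSubmodule h
    exact bot_ne_top h1
  refine { toNontrivial := hne, eq_bot_or_eq_top := fun W => ?_ }
  have heW : Zop W.toRepresentation e = 1 := by
    refine LinearMap.ext fun w => ?_
    apply Subtype.ext
    have h1 : ((Zop W.toRepresentation e w : W.toSubmodule) : V) = Zop ρ e w := by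
      unfold Zop
      rw [LinearMap.sum_apply, LinearMap.sum_apply, Submodule.coe_sum]
      rfl
    rw [h1, he]
    rfl
  have hdv := dvd_dim hN hm W.toRepresentation heW
  rcases Nat.eq_zero_or_pos (Module.finrank F W.toSubmodule) with h0 | h0
  · left
    apply Subrepresentation.toSubmodule_injective
    exact Submodule.finrank_eq_zero.1 h0
  · right
    apply Subrepresentation.toSubmodule_injective
    have h1 := Nat.le_of_dvd h0 hdv
    have h2 := Submodule.finrank_le W.toSubmodule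
    exact Submodule.eq_top_of_finrank_eq (by omega)

/-- The rank of the multiplication by `e`. -/
theorem rank_le_of_nilB {d : ℕ} (ε : Fin d ≃ T) (hN : NilB e m c E z) (he : e ∈ CF F T)
    (J : Matrix (Fin d) (Fin d) F) (hJ : ∀ i j, J i j = e ((ε j)⁻¹ * ε i)) :
    J.rank ≤ c * (m * m) := by
  classical
  let b : Fin c × (Fin m × Fin m) → (Fin d → F) := fun x i =>
    cvF (cvp z x.1) (E x.2.1 x.2.2) (ε i)
  have h1 : LinearMap.range J.mulVecLin ≤ Submodule.span F (Set.range b) := by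
    rintro _ ⟨v, rfl⟩
    obtain ⟨t, ht⟩ := hN.sp (fun x => v (ε.symm x))
    have h2 : J.mulVecLin v = fun i => cvF e (fun x => v (ε.symm x)) (ε i) := by
      funext i
      rw [Matrix.mulVecLin_apply, Matrix.mulVec, dotProduct, cvF]
      refine Fintype.sum_equiv ((ε.trans (Equiv.inv T)).trans (Equiv.mulLeft (ε i))) _ _ fun x => ?_
      have h3 : ((ε.trans (Equiv.inv T)).trans (Equiv.mulLeft (ε i))) x = ε i * (ε x)⁻¹ := rfl
      rw [h3, hJ, mul_inv_rev, inv_inv, inv_mul_cancel_right, Equiv.symm_apply_apply]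
      have h4 := he (ε i) ((ε x)⁻¹ * ε i)
      rw [← h4]
      congr 2
      group
    rw [h2, ht]
    have h3 : (fun i => (∑ k ∈ Finset.range c, ∑ p, ∑ q, t k p q • cvF (cvp z k) (E p q) : T → F)
        (ε i)) = ∑ k ∈ Finset.range c, ∑ p, ∑ q, t k p q • (fun i => cvF (cvp z k) (E p q) (ε i)) := by
      funext i
      simp only [Finset.sum_apply, Pi.smul_apply]
    rw [h3]
    refine Submodule.sum_mem _ fun k hk => Submodule.sum_mem _ fun p _ =>
      Submodule.sum_mem _ fun q _ => Submodule.smul_mem _ _ (Submodule.subset_span ?_)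
    exact ⟨(⟨k, Finset.mem_range.1 hk⟩, (p, q)), rfl⟩
  have h2 := Submodule.finrank_mono h1
  have h3 := finrank_range_le_card (R := F) b
  rw [Fintype.card_prod, Fintype.card_prod, Fintype.card_fin, Fintype.card_fin] at h3
  exact h2.trans h3

end ops

section cpx

variable {T : Type} [Group T] [Fintype T]

/-- A class function all whose weights are zero is zero. -/
theorem zero_of_wt {f : T → ℂ} (hf : f ∈ CF ℂ T) (h : ∀ χ : T → ℂ, IsIrr χ → wt χ f = 0) :
    f = 0 := by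
  have h1 : (fun x => f x⁻¹) = 0 := by
    refine class_fn_eq_zero _ ?_ ?_
    · intro g x
      have h2 : (g * x * g⁻¹)⁻¹ = g * x⁻¹ * g⁻¹ := by group
      rw [h2]
      exact hf g _
    · intro χ hχ
      have h2 := h χ hχ
      rw [wt, div_eq_zero_iff] at h2
      rcases h2 with h2 | h2
      · rw [← h2]
        exact Fintype.sum_equiv (Equiv.inv T) _ _ fun g => rfl
      · exact absurd h2 hχ.one_ne_zero
  funext x
  have h2 := congrFun h1 x⁻¹
  simpa using h2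

theorem wt_eq_Lz (χ f : T → ℂ) : wt χ f = Lz f χ 1 / χ 1 := by
  rw [wt, Lz_apply]
  simp only [mul_one]

theorem wt_cvF {χ a b : T → ℂ} (hχ : IsIrr χ) (ha : a ∈ CF ℂ T) (hb : b ∈ CF ℂ T) :
    wt χ (cvF a b) = wt χ a * wt χ b := by
  rw [wt_eq_Lz, IDMB.Lz_cvF, Module.End.mul_apply, CHP.eigen hχ ha, map_smul, CHP.eigen hχ hb]
  simp only [Pi.smul_apply, smul_eq_mul]
  field_simp [hχ.one_ne_zero]

theorem wt_sub (χ a b : T → ℂ) : wt χ (a - b) = wt χ a - wt χ b := by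
  rw [wt, wt, wt, ← sub_div]
  congr 1
  rw [← Finset.sum_sub_distrib]
  refine Finset.sum_congr rfl fun y _ => ?_
  rw [Pi.sub_apply, sub_mul]

/-- A class function all whose weights are `0` or `1` is idempotent. -/
theorem idem_of_wt {f : T → ℂ} (hf : f ∈ CF ℂ T)
    (h : ∀ χ : T → ℂ, IsIrr χ → wt χ f = 0 ∨ wt χ f = 1) : cvF f f = f := by
  have h1 : cvF f f - f = 0 := by
    refine zero_of_wt ((CF ℂ T).sub_mem (IDMB.cvF_mem hf hf) hf) fun χ hχ => ?_
    rw [wt_sub, wt_cvF hχ hf hf]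
    rcases h χ hχ with h2 | h2
    · rw [h2, mul_zero, sub_zero]
    · rw [h2, mul_one, sub_self]
  exact sub_eq_zero.1 h1

end cpx

section val

open Polynomial

variable {𝔐 : Ideal (integralClosure ℤ ℂ)} {ℓ : ℕ} {O : ValuationSubring ℂ}

theorem res_zero_iff (hO : VR ℓ 𝔐 O) (x : integralClosure ℤ ℂ) : hO.res x = 0 ↔ x ∈ 𝔐 := by
  rw [hO.max]
  show IsLocalRing.residue O (hO.inc x) = 0 ↔ _
  rw [IsLocalRing.residue_eq_zero_iff, ValuationSubring.valuation_lt_one_iff]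
  rfl

/-- The reduction is injective on the roots of unity of order prime to `ℓ`. -/
theorem root_inj [Fact ℓ.Prime] (hch : CharP (IsLocalRing.ResidueField O) ℓ) {r : ℕ}
    (hr : ¬ ℓ ∣ r) {ξ ξ' : O} (h : ξ ^ r = 1) (h' : ξ' ^ r = 1)
    (he : IsLocalRing.residue O ξ = IsLocalRing.residue O ξ') : ξ = ξ' := by
  have hr0 : r ≠ 0 := by
    rintro rfl
    exact hr (dvd_zero _)
  have hmul : ξ' * ξ' ^ (r - 1) = 1 := by
    rw [← pow_succ', Nat.sub_add_cancel (Nat.pos_of_ne_zero hr0), h']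
  set η : O := ξ * ξ' ^ (r - 1) with hη
  have h1 : η ^ r = 1 := by
    rw [hη, mul_pow, h, one_mul, ← pow_mul, mul_comm, pow_mul, h', one_pow]
  have h2 : IsLocalRing.residue O η = 1 := by
    rw [hη, map_mul, he, ← map_mul, hmul, map_one]
  by_cases h3 : η = 1
  · calc ξ = ξ * (ξ' * ξ' ^ (r - 1)) := by rw [hmul, mul_one]
      _ = η * ξ' := by rw [hη]; ring
      _ = ξ' := by rw [h3, one_mul]
  · exfalso
    have h4 : (∑ i ∈ Finset.range r, η ^ i) * (η - 1) = 0 := by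
      rw [geom_sum_mul, h1, sub_self]
    rcases mul_eq_zero.1 h4 with h5 | h5
    · have h6 := congrArg (IsLocalRing.residue O) h5
      rw [map_sum, map_zero] at h6
      simp only [map_pow, h2, one_pow, Finset.sum_const, Finset.card_range, nsmul_eq_mul,
        mul_one] at h6
      exact hr ((CharP.cast_eq_zero_iff _ ℓ r).1 h6)
    · exact h3 (sub_eq_zero.1 h5)

/-- The characteristic polynomial of a matrix of order prime to `ℓ`. -/
theorem charpoly_prod (hO : VR ℓ 𝔐 O) {r d : ℕ} (hr : r ≠ 0) (A : Matrix (Fin d) (Fin d) O)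
    (hA : A ^ r = 1) : ∃ R : Multiset O, A.charpoly = (R.map fun ξ => X - C ξ).prod ∧
      A.trace = R.sum ∧ ∀ ξ ∈ R, ξ ^ r = 1 := by
  classical
  set B : Matrix (Fin d) (Fin d) ℂ := A.map O.subtype with hB
  have hBr : B ^ r = 1 := by
    have h1 := congrArg O.subtype.mapMatrix hA
    rw [map_pow, map_one] at h1
    exact h1
  have hroot : ∀ ξ ∈ B.charpoly.roots, ξ ^ r = 1 := by
    intro ξ hξ
    have h1 : IsRoot (Matrix.toLin' B).charpoly ξ := by
      rw [Matrix.charpoly_toLin']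
      exact Polynomial.isRoot_of_mem_roots hξ
    have h2 := (Module.End.hasEigenvalue_iff_isRoot_charpoly _ _).2 h1
    obtain ⟨v, hv⟩ := h2.exists_hasEigenvector
    have h3 : (Matrix.toLin' B ^ r) v = ξ ^ r • v := hv.pow_apply r
    rw [← Matrix.toLin'_pow, hBr, Matrix.toLin'_one, LinearMap.id_apply] at h3
    have h4 : (ξ ^ r - 1) • v = 0 := by rw [sub_smul, ← h3, one_smul, sub_self]
    rcases smul_eq_zero.1 h4 with h5 | h5
    · exact sub_eq_zero.1 h5
    · exact absurd h5 hv.2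
  have hmem : ∀ ξ ∈ B.charpoly.roots, ξ ∈ O := by
    intro ξ hξ
    have h1 : IsIntegral ℤ ξ := IsIntegral.of_pow (Nat.pos_of_ne_zero hr) (by
      rw [hroot ξ hξ]
      exact isIntegral_one)
    exact hO.int ⟨ξ, h1⟩
  obtain ⟨R, hR⟩ : ∃ R : Multiset O, R.map O.subtype = B.charpoly.roots := by
    refine ⟨B.charpoly.roots.pmap (fun x hx => ⟨x, hx⟩) hmem, ?_⟩
    rw [Multiset.map_pmap]
    exact (Multiset.pmap_eq_map _ _ _ _).trans (Multiset.map_id' _)
  have hinj : Function.Injective O.subtype := Subtype.val_injective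
  refine ⟨R, ?_, ?_, ?_⟩
  · apply Polynomial.map_injective O.subtype hinj
    have h1 : (A.charpoly).map O.subtype = B.charpoly := by
      rw [hB, Matrix.charpoly_map]
    rw [h1]
    have h2 : B.charpoly = (B.charpoly.roots.map fun ξ => X - C ξ).prod :=
      (IsAlgClosed.splits B.charpoly).eq_prod_roots_of_monic B.charpoly_monic
    rw [h2, ← hR, Polynomial.map_multiset_prod, Multiset.map_map, Multiset.map_map]
    congr 1
    refine Multiset.map_congr rfl fun ξ _ => ?_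
    simp
  · apply hinj
    have h1 : O.subtype A.trace = B.trace := by
      rw [hB, Matrix.trace, Matrix.trace, map_sum]
      rfl
    rw [h1, Matrix.trace_eq_sum_roots_charpoly, ← hR, map_multiset_sum]
  · intro ξ hξ
    apply hinj
    rw [map_pow, map_one]
    apply hroot
    rw [← hR]
    exact Multiset.mem_map_of_mem _ hξ

/-- Matrices whose reductions have the same characteristic polynomial have the same trace. -/
theorem trace_eq [Fact ℓ.Prime] (hO : VR ℓ 𝔐 O) {r d d' : ℕ} (hr : ¬ ℓ ∣ r)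
    (A : Matrix (Fin d) (Fin d) O) (B : Matrix (Fin d') (Fin d') O) (hA : A ^ r = 1)
    (hB : B ^ r = 1)
    (h : (A.map (IsLocalRing.residue O)).charpoly = (B.map (IsLocalRing.residue O)).charpoly) :
    A.trace = B.trace := by
  classical
  have hr0 : r ≠ 0 := by
    rintro rfl
    exact hr (dvd_zero _)
  obtain ⟨R, hR1, hR2, hR3⟩ := charpoly_prod hO hr0 A hA
  obtain ⟨S, hS1, hS2, hS3⟩ := charpoly_prod hO hr0 B hB
  rw [Matrix.charpoly_map, Matrix.charpoly_map, hR1, hS1, Polynomial.map_multiset_prod,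
    Polynomial.map_multiset_prod, Multiset.map_map, Multiset.map_map] at h
  have key : ∀ R : Multiset O, (Multiset.map (Polynomial.map (IsLocalRing.residue O) ∘
      fun ξ => X - C ξ) R) = (R.map (IsLocalRing.residue O)).map fun ξ => X - C ξ := by
    intro R
    rw [Multiset.map_map]
    refine Multiset.map_congr rfl fun ξ _ => ?_
    simp
  rw [key, key] at h
  have h1 := congrArg Polynomial.roots h
  rw [Polynomial.roots_multiset_prod_X_sub_C, Polynomial.roots_multiset_prod_X_sub_C] at h1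
  -- the inverse of the reduction
  let s : IsLocalRing.ResidueField O → O := Function.invFunOn (IsLocalRing.residue O)
    {ξ : O | ξ ^ r = 1}
  have hs : ∀ ξ : O, ξ ^ r = 1 → s (IsLocalRing.residue O ξ) = ξ := by
    intro ξ hξ
    have h2 : ∃ a ∈ {ξ : O | ξ ^ r = 1}, IsLocalRing.residue O a = IsLocalRing.residue O ξ :=
      ⟨ξ, hξ, rfl⟩
    have h3 := Function.invFunOn_mem h2
    have h4 := Function.invFunOn_eq h2
    exact root_inj hO.chr hr h3 hξ h4
  have h2 := congrArg (Multiset.map s) h1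
  rw [Multiset.map_map, Multiset.map_map] at h2
  have h3 : ∀ R : Multiset O, (∀ ξ ∈ R, ξ ^ r = 1) →
      Multiset.map (s ∘ IsLocalRing.residue O) R = R := by
    intro R hR
    calc Multiset.map (s ∘ IsLocalRing.residue O) R = Multiset.map id R :=
          Multiset.map_congr rfl fun ξ hξ => hs ξ (hR ξ hξ)
      _ = R := Multiset.map_id R
  rw [h3 R hR3, h3 S hS3] at h2
  rw [hR2, hS2, h2]

/-- The rank of an idempotent matrix. -/
theorem rank_eq_trace {d : ℕ} (J : Matrix (Fin d) (Fin d) ℂ) (h : J * J = J) :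
    (J.rank : ℂ) = J.trace := by
  have h1 : IsIdempotentElem (Matrix.toLin' J) := by
    show Matrix.toLin' J * Matrix.toLin' J = _
    rw [Module.End.mul_eq_comp, ← Matrix.toLin'_mul, h]
  have h2 := (LinearMap.IsIdempotentElem.isProj_range _ h1).trace
  rw [Matrix.trace_toLin'_eq] at h2
  rw [h2]
  rfl

end val

section deg

variable {𝔐 : Ideal (integralClosure ℤ ℂ)} {ℓ : ℕ} {O : ValuationSubring ℂ}
  {T : Type} [Group T] [Fintype T]

theorem res_congr (hO : VR ℓ 𝔐 O) {x y : integralClosure ℤ ℂ}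
    (h : Ideal.Quotient.mk 𝔐 x = Ideal.Quotient.mk 𝔐 y) : hO.res x = hO.res y := by
  rw [← sub_eq_zero, ← map_sub, res_zero_iff, ← Ideal.Quotient.eq]
  exact h

/-- The reduction of an algebraic integer in `O`. -/
theorem residue_eq (hO : VR ℓ 𝔐 O) {z : ℂ} (hz : IsIntegral ℤ z) {w : O} (hw : (w : ℂ) = z)
    {y : integralClosure ℤ ℂ} (h : red 𝔐 z = Ideal.Quotient.mk 𝔐 y) :
    IsLocalRing.residue O w = hO.res y := by
  rw [red_of_integral 𝔐 hz] at h
  rw [← res_congr hO h]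
  show IsLocalRing.residue O w = IsLocalRing.residue O (hO.inc ⟨z, hz⟩)
  congr 1
  exact Subtype.ext hw

/-- The reduction of a matrix representation as a representation of the group algebra. -/
theorem zop_redM {d : ℕ} (M : T →* Matrix (Fin d) (Fin d) O) (a : T → O) :
    Zop (redM M) (fun x => IsLocalRing.residue O (a x)) =
      Matrix.toLin' ((∑ h, a h • M h).map (IsLocalRing.residue O)) := by
  classical
  unfold Zop
  rw [← RingHom.mapMatrix_apply, map_sum, map_sum]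
  refine Finset.sum_congr rfl fun h _ => ?_
  have h1 : (IsLocalRing.residue O).mapMatrix (a h • M h) =
      IsLocalRing.residue O (a h) • (IsLocalRing.residue O).mapMatrix (M h) := by
    ext i j
    simp [RingHom.mapMatrix_apply]
  rw [h1, map_smul]
  rfl

/-- The block idempotent acts as the identity on the reduction of the representations of the
block. -/
theorem zop_one (hO : VR ℓ 𝔐 O) (a : T → integralClosure ℤ ℂ)
    (ha : ∀ g x, a (g * x * g⁻¹) = a x) {χ : T → ℂ} (hχ : IsIrr χ)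
    (h1 : red 𝔐 (wt χ (fun h => (a h : ℂ))) = 1) {d : ℕ} (M : T →* Matrix (Fin d) (Fin d) O)
    (hM : ∀ a : T → O, (∀ g x, a (g * x * g⁻¹) = a x) →
        ∃ w : O, (w : ℂ) = wt χ (fun h => (a h : ℂ)) ∧
          ∑ h, a h • M h = w • (1 : Matrix (Fin d) (Fin d) O)) :
    Zop (redM M) (fun x => hO.res (a x)) = 1 := by
  classical
  obtain ⟨w, hw, hw'⟩ := hM (fun x => hO.inc (a x)) (fun g x => by rw [ha])
  have hi : IsIntegral ℤ (wt χ (fun h => (a h : ℂ))) := by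
    apply isIntegral_wt hχ
    · intro g x
      rw [ha]
    · intro x
      exact (a x).2
  have h2 : IsLocalRing.residue O w = 1 := by
    have h3 := residue_eq hO hi (w := w) hw (y := 1) (by rw [h1, map_one])
    rw [h3, map_one]
  have h3 := zop_redM M (fun x => hO.inc (a x))
  rw [hw'] at h3
  have h4 : ((w • (1 : Matrix (Fin d) (Fin d) O)).map (IsLocalRing.residue O)) = 1 := by
    ext i j
    rw [Matrix.map_apply, Matrix.smul_apply, smul_eq_mul, map_mul, h2, one_mul, Matrix.one_apply,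
      Matrix.one_apply]
    split_ifs
    · exact map_one _
    · exact map_zero _
  rw [h4, Matrix.toLin'_one] at h3
  exact h3

/-- The degrees of the characters of the block. -/
theorem degrees (h8 : Stmt_RKOX) {eh : T → O} (hcl : ∀ g x, eh (g * x * g⁻¹) = eh x)
    (I : Finset (T → ℂ))
    (hval : ∀ x, (eh x : ℂ) = (∑ χ ∈ I, χ 1 * χ x⁻¹) / Nat.card T)
    (hwt : ∀ χ : T → ℂ, IsIrr χ → wt χ (fun x => (eh x : ℂ)) = 0 ∨
      wt χ (fun x => (eh x : ℂ)) = 1)
    {m c : ℕ} {E : Fin m → Fin m → T → IsLocalRing.ResidueField O}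
    {z : T → IsLocalRing.ResidueField O}
    (hN : NilB (fun x => IsLocalRing.residue O (eh x)) m c E z) (_hm : 0 < m)
    (hI : I.card = c) (hdeg : ∀ χ ∈ I, ∃ k : ℕ, 0 < k ∧ χ 1 = ((m * k : ℕ) : ℂ)) :
    ∀ χ ∈ I, χ 1 = (m : ℂ) := by
  classical
  have hcE : (fun x => (eh x : ℂ)) ∈ CF ℂ T := by
    intro g x
    show ((eh (g * x * g⁻¹) : O) : ℂ) = eh x
    rw [hcl]
  have hidem : cvF (fun x => (eh x : ℂ)) (fun x => (eh x : ℂ)) = fun x => (eh x : ℂ) :=
    idem_of_wt hcE hwt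
  set d := Fintype.card T with hd
  let ε : Fin d ≃ T := (Fintype.equivFin T).symm
  let J : Matrix (Fin d) (Fin d) O := fun i j => eh ((ε j)⁻¹ * ε i)
  have hinj : Function.Injective O.subtype := Subtype.val_injective
  have hJJ : J * J = J := by
    ext i j
    show ((J * J) i j : ℂ) = (J i j : ℂ)
    have h1 := congrFun hidem ((ε j)⁻¹ * ε i)
    have h2 : ((J * J) i j : ℂ) = ∑ k, (eh ((ε k)⁻¹ * ε i) : ℂ) * (eh ((ε j)⁻¹ * ε k) : ℂ) := by
      rw [Matrix.mul_apply]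
      push_cast
      rfl
    rw [h2]
    rw [← h1, cvF]
    refine Fintype.sum_equiv (ε.trans (Equiv.mulLeft (ε j)⁻¹)) _ _ fun k => ?_
    have h3 : (ε.trans (Equiv.mulLeft (ε j)⁻¹)) k = (ε j)⁻¹ * ε k := rfl
    rw [h3, mul_comm]
    congr 3
    group
  have hrk := (h8 O d J).2 hJJ
  have h1 : (J.map (IsLocalRing.residue O)).rank ≤ c * (m * m) := by
    refine rank_le_of_nilB ε hN ?_ _ fun i j => rfl
    intro g x
    show IsLocalRing.residue O (eh (g * x * g⁻¹)) = _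
    rw [hcl]
  have h2 : ((J.map (fun x : O => (x : ℂ))).rank : ℂ) = ∑ χ ∈ I, χ 1 * χ 1 := by
    rw [rank_eq_trace]
    · have h3 : (J.map (fun x : O => (x : ℂ))).trace = ∑ _i : Fin d, (eh 1 : ℂ) := by
        rw [Matrix.trace]
        refine Finset.sum_congr rfl fun i _ => ?_
        show ((eh ((ε i)⁻¹ * ε i) : O) : ℂ) = _
        rw [inv_mul_cancel]
      rw [h3, Finset.sum_const, Finset.card_univ, Fintype.card_fin, nsmul_eq_mul, hval, inv_one,
        hd, ← Nat.card_eq_fintype_card, mul_div_cancel₀]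
      exact_mod_cast Nat.card_pos.ne'
    · have h3 := congrArg (fun A : Matrix (Fin d) (Fin d) O => O.subtype.mapMatrix A) hJJ
      simp only [map_mul] at h3
      exact h3
  -- the degrees
  choose! k hk0 hk using hdeg
  have h3 : (((J.map (fun x : O => (x : ℂ))).rank : ℕ) : ℂ) =
      ((∑ χ ∈ I, (m * k χ) * (m * k χ) : ℕ) : ℂ) := by
    rw [h2]
    push_cast
    refine Finset.sum_congr rfl fun χ hχ => ?_
    rw [hk χ hχ]
    push_cast
    rfl
  have h4 : (J.map (fun x : O => (x : ℂ))).rank = ∑ χ ∈ I, (m * k χ) * (m * k χ) := by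
    exact_mod_cast h3
  have h5 : ∑ χ ∈ I, (m * k χ) * (m * k χ) ≤ ∑ _χ ∈ I, m * m := by
    rw [← h4, ← hrk, Finset.sum_const, smul_eq_mul, hI]
    exact h1
  have h6 : ∀ χ ∈ I, m * m ≤ (m * k χ) * (m * k χ) := by
    intro χ hχ
    have := Nat.le_mul_of_pos_right m (hk0 χ hχ)
    exact Nat.mul_le_mul this this
  have h7 := (Finset.sum_eq_sum_iff_of_le h6).1 (le_antisymm (Finset.sum_le_sum h6) h5)
  intro χ hχ
  have h8 := h7 χ hχ
  have h9 : m = m * k χ := Nat.mul_self_inj.1 h8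
  rw [hk χ hχ, ← h9]

/-- The values at the elements of order prime to `ℓ`. -/
theorem regular_eq [Fact ℓ.Prime] (hO : VR ℓ 𝔐 O) {m c : ℕ} {e : T → IsLocalRing.ResidueField O}
    {E : Fin m → Fin m → T → IsLocalRing.ResidueField O} {z : T → IsLocalRing.ResidueField O}
    (hN : NilB e m c E z) (hm : 0 < m)
    (hone : Nat.card {φ : T → IsLocalRing.ResidueField O //
      IsBr (IsLocalRing.ResidueField O) φ ∧ Lz e φ = φ} = 1)
    {d d' : ℕ} (M : T →* Matrix (Fin d) (Fin d) O) (M' : T →* Matrix (Fin d') (Fin d') O)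
    (hM : Zop (redM M) e = 1) (hM' : Zop (redM M') e = 1) (hd : d = m) (hd' : d' = m) (g : T)
    (hg : ¬ ℓ ∣ orderOf g) : (M g).trace = (M' g).trace := by
  classical
  have := hO.acl
  have hi : (redM M).IsIrreducible := irr_of_dim hN hm _ hM (by
    rw [Module.finrank_fintype_fun_eq_card, Fintype.card_fin, hd])
  have hi' : (redM M').IsIrreducible := irr_of_dim hN hm _ hM' (by
    rw [Module.finrank_fintype_fun_eq_card, Fintype.card_fin, hd'])
  have hch : (redM M).character = (redM M').character := by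
    rw [Nat.card_eq_one_iff_unique] at hone
    have h1 := hone.1.elim ⟨(redM M).character, ⟨d, redM M, hi, rfl⟩, Lz_char _ e hM⟩
      ⟨(redM M').character, ⟨d', redM M', hi', rfl⟩, Lz_char _ e hM'⟩
    exact congrArg Subtype.val h1
  obtain ⟨f, hf⟩ := BRU_thm DEN_thm (IsLocalRing.ResidueField O) T _ _ (redM M) (redM M') hi hi'
    hch
  refine trace_eq hO hg (M g) (M' g) ?_ ?_ ?_
  · rw [← map_pow, pow_orderOf_eq_one, map_one]
  · rw [← map_pow, pow_orderOf_eq_one, map_one]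
  · have h1 : redM M' g = f.conj (redM M g) := by
      refine LinearMap.ext fun v => ?_
      rw [LinearEquiv.conj_apply_apply, hf, LinearEquiv.apply_symm_apply]
    have h2 : (redM M' g).charpoly = (redM M g).charpoly := by
      rw [h1, LinearEquiv.charpoly_conj]
    have h3 : (Matrix.toLin' ((M' g).map (IsLocalRing.residue O))).charpoly =
      (Matrix.toLin' ((M g).map (IsLocalRing.residue O))).charpoly := h2
    rw [Matrix.charpoly_toLin', Matrix.charpoly_toLin'] at h3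
    exact h3.symm

end deg

section van

variable {ℓ : ℕ} {O : ValuationSubring ℂ} {T : Type} [Group T] [Fintype T]

/-- Decomposition of an element into its parts. -/
theorem parts [Fact ℓ.Prime] (g : T) (hg : ℓ ∣ orderOf g) :
    ∃ (k r : ℕ) (u s : T), ¬ ℓ ∣ r ∧ u ^ ℓ ^ (k + 1) = 1 ∧ s ^ r = 1 ∧ u * s = g ∧ u * s = s * u ∧
      u ∈ Subgroup.zpowers g ∧ u ^ ℓ ^ k ≠ 1 := by
  have hp : ℓ.Prime := Fact.out
  obtain ⟨k', r, hr, hk'⟩ := Nat.exists_eq_pow_mul_and_not_dvd (orderOf_pos g).ne' ℓ hp.ne_one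
  obtain ⟨k, rfl⟩ : ∃ k, k' = k + 1 := by
    rcases k' with _ | k
    · exfalso
      rw [pow_zero, one_mul] at hk'
      rw [hk'] at hg
      exact hr hg
    · exact ⟨k, rfl⟩
  have hcop : Nat.Coprime (ℓ ^ (k + 1)) r := Nat.Coprime.pow_left _ ((Nat.Prime.coprime_iff_not_dvd hp).2 hr)
  have hbez := Nat.gcd_eq_gcd_ab (ℓ ^ (k + 1)) r
  rw [hcop] at hbez
  set A := Nat.gcdA (ℓ ^ (k + 1)) r
  set B := Nat.gcdB (ℓ ^ (k + 1)) r
  have hg1 : g ^ ((ℓ ^ (k + 1) : ℕ) * (r : ℕ) : ℤ) = 1 := by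
    rw [← Nat.cast_mul, ← hk', zpow_natCast, pow_orderOf_eq_one]
  refine ⟨k, r, g ^ ((r : ℤ) * B), g ^ (((ℓ ^ (k + 1) : ℕ) : ℤ) * A), hr, ?_, ?_, ?_, ?_, ?_, ?_⟩
  · rw [← zpow_natCast, ← zpow_mul]
    have h1 : (r : ℤ) * B * ((ℓ ^ (k + 1) : ℕ) : ℤ) = ((ℓ ^ (k + 1) : ℕ) * (r : ℕ) : ℤ) * B := by ring
    rw [h1, zpow_mul, hg1, one_zpow]
  · rw [← zpow_natCast, ← zpow_mul]
    have h1 : ((ℓ ^ (k + 1) : ℕ) : ℤ) * A * (r : ℤ) = ((ℓ ^ (k + 1) : ℕ) * (r : ℕ) : ℤ) * A := by ring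
    rw [h1, zpow_mul, hg1, one_zpow]
  · rw [← zpow_add]
    have h1 : (r : ℤ) * B + ((ℓ ^ (k + 1) : ℕ) : ℤ) * A = 1 := by
      rw [add_comm]
      exact_mod_cast hbez.symm
    rw [h1, zpow_one]
  · rw [← zpow_add, ← zpow_add, add_comm]
  · exact Subgroup.zpow_mem_zpowers g _
  · intro h
    have h2 : g ^ (ℓ ^ k * r) = 1 := by
      have h3 : g = g ^ ((r : ℤ) * B) * g ^ (((ℓ ^ (k + 1) : ℕ) : ℤ) * A) := by
        rw [← zpow_add]
        have h1 : (r : ℤ) * B + ((ℓ ^ (k + 1) : ℕ) : ℤ) * A = 1 := by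
          rw [add_comm]
          exact_mod_cast hbez.symm
        rw [h1, zpow_one]
      have h4 : Commute (g ^ ((r : ℤ) * B)) (g ^ (((ℓ ^ (k + 1) : ℕ) : ℤ) * A)) := by
        show _ * _ = _ * _
        rw [← zpow_add, ← zpow_add, add_comm]
      have h5 : (g ^ (((ℓ ^ (k + 1) : ℕ) : ℤ) * A)) ^ r = 1 := by
        rw [← zpow_natCast, ← zpow_mul]
        have h1 : ((ℓ ^ (k + 1) : ℕ) : ℤ) * A * (r : ℤ) = ((ℓ ^ (k + 1) : ℕ) * (r : ℕ) : ℤ) * A := by ring
        rw [h1, zpow_mul, hg1, one_zpow]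
      conv_lhs => rw [h3]
      rw [h4.mul_pow, pow_mul, h, one_pow, one_mul, mul_comm (ℓ ^ k) r, pow_mul, h5, one_pow]
    have h3 := orderOf_dvd_of_pow_eq_one h2
    rw [hk', pow_succ, mul_assoc] at h3
    have h4 := Nat.dvd_of_mul_dvd_mul_left (pow_pos hp.pos k) h3
    have h5 : r ≠ 0 := by
      rintro rfl
      exact hr (dvd_zero _)
    have h6 := Nat.le_of_dvd (Nat.pos_of_ne_zero h5) h4
    have h7 := hp.one_lt
    nlinarith [Nat.pos_of_ne_zero h5]

/-- A cyclic group has at most one subgroup of a given order. -/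
theorem uniq {C : Type} [Group C] [Finite C] [IsCyclic C] {A B : Subgroup C}
    (h : Nat.card A = Nat.card B) : A = B := by
  classical
  have : Fintype C := Fintype.ofFinite C
  set n := Nat.card A with hn
  have hn0 : 0 < n := Nat.card_pos
  set S : Set C := {a : C | a ^ n = 1} with hS
  have hSn : S.ncard ≤ n := by
    have h1 := IsCyclic.card_pow_eq_one_le (α := C) hn0
    have h2 : S.ncard = (Finset.univ.filter fun a : C => a ^ n = 1).card := by
      rw [← Set.ncard_coe_finset]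
      congr 1
      ext a
      simp [hS]
    rw [h2]
    exact h1
  have key : ∀ D : Subgroup C, Nat.card D = n → (D : Set C) = S := by
    intro D hD
    apply Set.eq_of_subset_of_ncard_le _ _ (Set.toFinite S)
    · intro a ha
      have h1 : (⟨a, ha⟩ : D) ^ Nat.card D = 1 := pow_card_eq_one'
      rw [hD] at h1
      exact congrArg Subtype.val h1
    · have h1 : (D : Set C).ncard = n := by
        rw [← hD]
        rfl
      rw [h1]
      exact hSn
  exact SetLike.coe_injective ((key A hn.symm).trans (key B h.symm).symm)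

theorem uniq' {P A B : Subgroup T} (hP : IsCyclic P) (hA : A ≤ P) (hB : B ≤ P)
    (h : Nat.card A = Nat.card B) : A = B := by
  have hc : ∀ {A : Subgroup T}, A ≤ P → Nat.card (A.subgroupOf P) = Nat.card A := fun h =>
    Nat.card_congr (Subgroup.subgroupOfEquivOfLe h).toEquiv
  have h1 : A.subgroupOf P = B.subgroupOf P := by
    apply uniq
    rw [hc hA, hc hB, h]
  have h2 := Subgroup.subgroupOf_inj.1 h1
  rwa [inf_eq_left.2 hA, inf_eq_left.2 hB] at h2

/-- The values at the elements of order divisible by `ℓ` whose powers do not contain `P₁`. -/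
theorem singular_zero [Fact ℓ.Prime] (h9 : Stmt_VANX)
    (hch : CharP (IsLocalRing.ResidueField O) ℓ) (P₁ P : Subgroup T)
    (hcen : P₁ ≤ Subgroup.center T) (hc1 : Nat.card P₁ = ℓ) (hle : P₁ ≤ P) (hcyc : IsCyclic P)
    {d : ℕ} (M : T →* Matrix (Fin d) (Fin d) O)
    (α : (Fin d → IsLocalRing.ResidueField O) →ₗ[IsLocalRing.ResidueField O]
      (Fin d → IsLocalRing.ResidueField O))
    (hα : ∀ p ∈ P, ∀ v, α (redM M p v) = redM M p (α v)) (hα1 : trC P (redM M) (redM M) α = 1)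
    (g : T) (hg : ℓ ∣ orderOf g) (hP : ¬ P₁ ≤ Subgroup.zpowers g) : (M g).trace = 0 := by
  classical
  have hp : ℓ.Prime := Fact.out
  obtain ⟨k, r, u, s, hr, hu, hs, hus, hcomm, huz, hne⟩ := parts g hg
  set u' : T := u ^ ℓ ^ k with hu'
  have hord : orderOf u' = ℓ := orderOf_eq_prime (by rw [hu', ← pow_mul, ← pow_succ, hu]) hne
  have hQ : Subgroup.zpowers u' ≤ Subgroup.zpowers g := by
    rw [Subgroup.zpowers_le]
    exact Subgroup.pow_mem _ huz _
  -- the action on the cosets is free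
  have hfree : ∀ (p : Subgroup.zpowers u') (q : T ⧸ P), p • q = q → p = 1 := by
    intro p q hpq
    by_contra hp1
    have hp1' : (p : T) ≠ 1 := fun h => hp1 (Subtype.ext h)
    have hcQ : Nat.card (Subgroup.zpowers u') = ℓ := by rw [Nat.card_zpowers, hord]
    have hop : orderOf (p : T) = ℓ := by
      apply orderOf_eq_prime _ hp1'
      have h1 : p ^ Nat.card (Subgroup.zpowers u') = 1 := pow_card_eq_one'
      rw [hcQ] at h1
      exact congrArg Subtype.val h1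
    induction q using QuotientGroup.induction_on with
    | H t =>
      have h4 : (((p : T) * t : T) : T ⧸ P) = (t : T ⧸ P) := hpq
      have h5 : t⁻¹ * ((p : T) * t) ∈ P := QuotientGroup.eq.1 h4.symm
      have h6 : orderOf (t⁻¹ * ((p : T) * t)) = ℓ := by
        rw [← hop]
        have h7 : t⁻¹ * ((p : T) * t) = MulAut.conj t⁻¹ (p : T) := by
          rw [MulAut.conj_apply]
          group
        rw [h7]
        exact orderOf_injective (MulAut.conj t⁻¹).toMonoidHom (MulAut.conj t⁻¹).injective _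
      have h7 : Subgroup.zpowers (t⁻¹ * ((p : T) * t)) = P₁ := by
        apply uniq' hcyc (Subgroup.zpowers_le.2 h5) hle
        rw [Nat.card_zpowers, h6, hc1]
      have h8 : t⁻¹ * ((p : T) * t) ∈ P₁ := by
        rw [← h7]
        exact Subgroup.mem_zpowers _
      have h9' : t⁻¹ * ((p : T) * t) = p := by
        have h10 := Subgroup.mem_center_iff.1 (hcen h8) t
        have h11 : t * (t⁻¹ * ((p : T) * t)) = p * t := by group
        rw [h11] at h10
        exact (mul_right_cancel h10).symm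
      rw [h9'] at h7
      apply hP
      rw [← h7]
      exact (Subgroup.zpowers_le.2 p.2).trans hQ
  have hfix : ∀ v, redM M u' v = v → ∀ p ∈ Subgroup.zpowers u', redM M p v = v := by
    intro v hv p hp'
    obtain ⟨j, rfl⟩ := (mem_powers_iff_mem_zpowers.2 hp')
    show redM M (u' ^ j) v = v
    clear hp'
    rw [map_pow]
    induction j with
    | zero => rw [pow_zero]; rfl
    | succ j ih => rw [pow_succ, Module.End.mul_apply, hv, ih]
  have hsum : ∀ x, ∑ p : Subgroup.zpowers u', redM M (p : T) x =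
      ∑ i ∈ Finset.range ℓ, redM M (u' ^ i) x := by
    intro x
    rw [← hord, ← Fin.sum_univ_eq_sum_range (fun i => redM M (u' ^ i) x)]
    refine (Fintype.sum_equiv (finEquivZPowers (isOfFinOrder_of_finite u')) _ _ fun i => ?_).symm
    rw [finEquivZPowers_apply]
  have hUV := h9 O ℓ k r d hch hr (M u) (M s) 1 (by rw [← map_pow, hu, map_one])
    (by rw [← map_pow, hs, map_one]) (by rw [mul_one]) (by rw [← map_mul, ← map_mul, hcomm])
    (by rw [mul_one, one_mul]) (by rw [mul_one, one_mul]) ?_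
  · rw [mul_one, ← map_mul, hus] at hUV
    exact hUV
  · intro v _ hv
    have hv' : redM M u' v = v := by
      rw [← map_pow] at hv
      exact hv
    let N : Module.End (IsLocalRing.ResidueField O) (Fin d → IsLocalRing.ResidueField O) :=
      ∑ i ∈ Finset.range ℓ, redM M (u' ^ i)
    have hmem : v ∈ (LinearMap.range N).toAddSubmonoid := by
      have h1 : v = ∑ q : T ⧸ P, TRFB.cjq hα q v := by
        have h2 := LinearMap.congr_fun hα1 v
        rw [TRFB.trC_eq hα, LinearMap.sum_apply] at h2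
        exact h2.symm
      rw [h1]
      refine TRFB.sum_mem_free (P := Subgroup.zpowers u') (LinearMap.range N).toAddSubmonoid
        (fun q => TRFB.cjq hα q v) ?_ _ _ le_rfl ?_ ?_
      · intro q
        refine ⟨TRFB.cjq hα q v, ?_⟩
        show N (TRFB.cjq hα q v) = _
        have h2 : N (TRFB.cjq hα q v) = ∑ i ∈ Finset.range ℓ, redM M (u' ^ i)
            (TRFB.cjq hα q v) := LinearMap.sum_apply _ _ _
        rw [h2, ← hsum]
        refine Finset.sum_congr rfl fun p _ => ?_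
        have h3 := TRFB.cjq_smul hα (p : T) q v
        rw [hfix v hv' p p.2] at h3
        exact h3.symm
      · intro p q _
        exact Finset.mem_univ _
      · intro p q _ hpq
        exact hfree p q hpq
    obtain ⟨w, hw⟩ := hmem
    refine ⟨w, ?_⟩
    have h2 : N w = ∑ i ∈ Finset.range ℓ, redM M (u' ^ i) w := LinearMap.sum_apply _ _ _
    have hw' : N w = v := hw
    rw [← hw', h2]
    refine Finset.sum_congr rfl fun i _ => ?_
    rw [← map_pow, ← map_pow]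
    rfl

end van

end REGX

open _root_.Pool.Agent.DPX.REGX in
/-- REGX: the characters of a block whose defect groups contain a central subgroup of
order `ℓ`. -/
theorem REGX_thm (h1 : Stmt_NIXX) (h2 : Stmt_IDX) (h3 : Stmt_UNSX) (h4 : Stmt_NILO)
    (h5 : Stmt_VALX) (h6 : Stmt_FEXX) (h7 : Stmt_RLZX) (h8 : Stmt_RKOX) (h9 : Stmt_VANX)
    (h10 : Stmt_IDOX) (h11 : Stmt_OSIX) (h12 : Stmt_RPRX) : Stmt_REGX := by
  intro C _ _ 𝔐 ℓ n hℓp hmax hℓ P₁ P x₀ hcen φ₀ hφ₀ hAt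
  classical
  have hp : ℓ.Prime := hℓp.out
  have hpr : 𝔐.IsPrime := hmax.isPrime
  let _ : Field ((integralClosure ℤ ℂ) ⧸ 𝔐) := Ideal.Quotient.field 𝔐
  have hrs : Function.Surjective (Ideal.Quotient.mk 𝔐) := Ideal.Quotient.mk_surjective
  have hac : IsAlgClosed ((integralClosure ℤ ℂ) ⧸ 𝔐) := ACF_thm _ (Ideal.Quotient.mk 𝔐) hrs
  have hch : CharP ((integralClosure ℤ ℂ) ⧸ 𝔐) ℓ := by
    rw [CharP.charP_iff_prime_eq_zero hp]
    rw [← map_natCast (Ideal.Quotient.mk 𝔐)]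
    exact Ideal.Quotient.eq_zero_iff_mem.mpr hℓ
  obtain ⟨a, ha, hprm, hred, -, -, hbk, -⟩ := h2 _ C 𝔐 ℓ hmax hℓ (Ideal.Quotient.mk 𝔐) hrs
    Ideal.mk_ker φ₀ hφ₀
  obtain ⟨hB, -⟩ := hbk n P₁ P x₀ hAt
  have hn : 0 < n := by
    rcases Nat.eq_zero_or_pos n with h | h
    · exfalso
      have hc1 := hAt.cd.c1
      have hc2 := hAt.cd.card
      rw [h, pow_zero] at hc2
      have hd : Nat.card P₁ ∣ Nat.card P := Subgroup.card_dvd_of_le hAt.cd.le
      rw [hc1, hc2] at hd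
      exact hp.one_lt.ne' (Nat.dvd_one.mp hd)
    · exact h
  obtain ⟨m, E, z, hNF⟩ := h1 ℓ n _ hn C P₁ P x₀ _ hB hprm hcen
  obtain ⟨O, hO⟩ := h5 𝔐 ℓ hmax hℓ
  have hOa := hO.acl
  have hOc := hO.chr
  let f : (integralClosure ℤ ℂ) ⧸ 𝔐 →+* IsLocalRing.ResidueField O :=
    Ideal.Quotient.lift 𝔐 hO.res (fun x hx => (res_zero_iff hO x).2 hx)
  obtain ⟨-, -, fbk, -, fnil⟩ := h6 ℓ n _ (IsLocalRing.ResidueField O) C f
  have hNK := fnil _ m (ℓ ^ n) E z hNF
  have hBK := fbk P₁ P x₀ _ hB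
  have hef : (fun x => f (Ideal.Quotient.mk 𝔐 (a x))) = fun x => hO.res (a x) := rfl
  rw [hef] at hNK hBK
  have hne : (fun x => hO.res (a x)) ≠ 0 := by
    intro h
    obtain ⟨y, hy, -⟩ := hBK.nz
    exact hy (congrFun h y)
  obtain ⟨hm, -, -, hone⟩ := h3 _ C _ hBK.cf hBK.idem hne m (ℓ ^ n) _ _ hNK
  obtain ⟨eh, hecl, heval, hewt, -, heq⟩ := h10 𝔐 ℓ hmax hℓ O hO C φ₀ hφ₀
  have heE : ∀ x, IsLocalRing.residue O (eh x) = hO.res (a x) := heq a ha hBK.idem hred
  set I : Finset (C → ℂ) := (irrF C).filter (fun χ =>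
    cen 𝔐 (MonoidHom.id C) χ = cen 𝔐 (MonoidHom.id C) φ₀) with hI
  have hmemI : ∀ χ, χ ∈ I ↔ IsIrr χ ∧
      cen 𝔐 (MonoidHom.id C) χ = cen 𝔐 (MonoidHom.id C) φ₀ := by
    intro χ
    rw [hI, Finset.mem_filter, mem_irrF]
  have hcard : I.card = ℓ ^ n := by
    rw [← h4 C 𝔐 ℓ n hmax hℓ P₁ P x₀ hcen φ₀ hφ₀ hAt]
    symm
    exact (Nat.card_congr (Equiv.subtypeEquivRight fun χ => (hmemI χ).symm)).trans
      ((Nat.card_eq_fintype_card).trans (Fintype.card_coe I))
  have hrep : ∀ χ ∈ I, ∃ (d : ℕ) (M : C →* Matrix (Fin d) (Fin d) O), (d : ℂ) = χ 1 ∧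
      (∀ g, (((M g).trace : O) : ℂ) = χ g) ∧ Zop (redM M) (fun x => hO.res (a x)) = 1 := by
    intro χ hχ
    obtain ⟨hχ1, hχ2⟩ := (hmemI χ).1 hχ
    obtain ⟨d, M, hd, htr, hM⟩ := h7 O C χ hχ1
    refine ⟨d, M, hd, htr, zop_one hO a ha hχ1 ?_ M hM⟩
    rw [hred χ hχ1, if_pos hχ2]
  have hdeg : ∀ χ ∈ I, ∃ k : ℕ, 0 < k ∧ χ 1 = ((m * k : ℕ) : ℂ) := by
    intro χ hχ
    obtain ⟨d, M, hd, -, hM⟩ := hrep χ hχ
    have h13 := dvd_dim hNK hm (redM M) hM
    rw [Module.finrank_fintype_fun_eq_card, Fintype.card_fin] at h13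
    obtain ⟨k, hk⟩ := h13
    refine ⟨k, ?_, by rw [← hd, hk]⟩
    rcases Nat.eq_zero_or_pos k with h | h
    · exfalso
      rw [h, mul_zero] at hk
      rw [hk, Nat.cast_zero] at hd
      exact ((hmemI χ).1 hχ).1.one_ne_zero hd.symm
    · exact h
  have hNE : NilB (fun x => IsLocalRing.residue O (eh x)) m (ℓ ^ n)
      (fun i j x => f (E i j x)) (fun x => f (z x)) := by
    have h13 : (fun x => IsLocalRing.residue O (eh x)) = fun x => hO.res (a x) := funext heE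
    rw [h13]
    exact hNK
  have hdegm : ∀ χ ∈ I, χ 1 = (m : ℂ) := by
    refine degrees h8 hecl I heval ?_ hNE hm hcard hdeg
    intro χ hχ
    have h13 := hewt χ hχ
    by_cases h14 : cen 𝔐 (MonoidHom.id C) χ = cen 𝔐 (MonoidHom.id C) φ₀
    · rw [if_pos h14] at h13
      exact Or.inr h13
    · rw [if_neg h14] at h13
      exact Or.inl h13
  have h0I : φ₀ ∈ I := (hmemI φ₀).2 ⟨hφ₀, rfl⟩
  obtain ⟨d₀, M₀, hd₀, htr₀, hM₀⟩ := hrep φ₀ h0I
  have hd₀m : d₀ = m := by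
    have h13 := hdegm φ₀ h0I
    rw [← hd₀] at h13
    exact_mod_cast h13
  -- the first part
  have part1 : ∀ φ ∈ I, φ 1 = φ₀ 1 ∧ ∀ g, ¬ ℓ ∣ orderOf g → φ g = φ₀ g := by
    intro φ hφ
    refine ⟨by rw [hdegm φ hφ, hdegm φ₀ h0I], fun g hg => ?_⟩
    obtain ⟨d, M, hd, htr, hM⟩ := hrep φ hφ
    have hdm : d = m := by
      have h13 := hdegm φ hφ
      rw [← hd] at h13
      exact_mod_cast h13
    rw [← htr g, ← htr₀ g, regular_eq hO hNK hm hone M M₀ hM hM₀ hdm hd₀m g hg]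
  refine ⟨fun φ hφ hφ' => part1 φ ((hmemI φ).2 ⟨hφ, hφ'⟩), ?_, ?_⟩
  · intro g hg hgP
    obtain ⟨α, hα, hα1⟩ := h12 ℓ n (IsLocalRing.ResidueField O) C _ P₁ P x₀ _ hBK (redM M₀)
    rw [hM₀] at hα1
    rw [← htr₀ g, singular_zero h9 hOc P₁ P hcen hAt.cd.c1 hAt.cd.le hAt.cd.cyc M₀ α hα hα1 g hg
      hgP]
    rfl
  · have hm0 : (m : ℂ) ≠ 0 := by exact_mod_cast hm.ne'
    have hφm : φ₀ 1 = (m : ℂ) := hdegm φ₀ h0I
    obtain ⟨q, hq⟩ := hφ₀.degree_dvd hφm
    have hq0 : q ≠ 0 := by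
      rintro rfl
      exact Nat.card_pos.ne' hq
    obtain ⟨t, q', hq', hqt⟩ := Nat.exists_eq_pow_mul_and_not_dvd hq0 ℓ hp.ne_one
    have hq'0 : (q' : ℂ) ≠ 0 := by
      intro h
      have h13 : q' = 0 := by exact_mod_cast h
      rw [h13] at hq'
      exact hq' (dvd_zero _)
    have hℓ0 : (ℓ : ℂ) ≠ 0 := by exact_mod_cast hp.ne_zero
    have hcardC : (Nat.card C : ℂ) = m * ((ℓ : ℂ) ^ t * q') := by
      rw [hq, hqt]
      push_cast
      ring
    -- the values of the idempotent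
    have hreg : ∀ g, ¬ ℓ ∣ orderOf g →
        (ℓ : ℂ) ^ t * q' * (eh g⁻¹ : ℂ) = (ℓ : ℂ) ^ n * φ₀ g := by
      intro g hg
      have h13 : ∑ χ ∈ I, χ 1 * χ g⁻¹⁻¹ = (ℓ : ℂ) ^ n * (m * φ₀ g) := by
        rw [inv_inv]
        have h14 : ∀ χ ∈ I, χ 1 * χ g = m * φ₀ g := by
          intro χ hχ
          rw [hdegm χ hχ, (part1 χ hχ).2 g hg]
        rw [Finset.sum_congr rfl h14, Finset.sum_const, hcard, nsmul_eq_mul]
        push_cast
        ring
      rw [heval g⁻¹]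
      have h15 : ∑ χ ∈ irrF C with cen 𝔐 (MonoidHom.id C) χ =
        cen 𝔐 (MonoidHom.id C) φ₀, χ 1 * χ g⁻¹⁻¹ = (ℓ : ℂ) ^ n * (m * φ₀ g) := h13
      rw [h15, hcardC]
      field_simp
    have hsing : ∀ g, ℓ ∣ orderOf g → (eh g⁻¹ : ℂ) = 0 := by
      intro g hg
      rw [heval g⁻¹, inv_inv, h11 C 𝔐 ℓ hmax hℓ φ₀ hφ₀ g hg, zero_div]
    have htn : t = n := by
      rcases lt_trichotomy t n with hlt | heq' | hgt
      · exfalso
        obtain ⟨j, rfl⟩ : ∃ j, n = t + (j + 1) := ⟨n - t - 1, by omega⟩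
        apply hne
        funext x
        show hO.res (a x) = 0
        rw [← heE x]
        have h13 : x = x⁻¹⁻¹ := (inv_inv x).symm
        rw [h13]
        by_cases hx : ℓ ∣ orderOf x⁻¹
        · have h14 : eh x⁻¹⁻¹ = 0 := Subtype.ext (hsing _ hx)
          rw [h14, map_zero]
        · have h14 := hreg _ hx
          have h15 : (q' : O) * eh x⁻¹⁻¹ = (ℓ : O) * ((ℓ : O) ^ j * (M₀ x⁻¹).trace) := by
            apply Subtype.ext
            have h16 : (((q' : O) * eh x⁻¹⁻¹ : O) : ℂ) = (q' : ℂ) * (eh x⁻¹⁻¹ : ℂ) := by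
              push_cast
              rfl
            have h17 : (((ℓ : O) * ((ℓ : O) ^ j * (M₀ x⁻¹).trace) : O) : ℂ) =
                (ℓ : ℂ) * ((ℓ : ℂ) ^ j * φ₀ x⁻¹) := by
              rw [← htr₀]
              push_cast
              rfl
            rw [h16, h17]
            apply mul_left_cancel₀ (pow_ne_zero t hℓ0)
            rw [← mul_assoc, h14]
            ring
          have h16 := congrArg (IsLocalRing.residue O) h15
          rw [map_mul, map_mul, map_natCast, map_natCast,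
            CharP.cast_eq_zero (IsLocalRing.ResidueField O) ℓ, zero_mul] at h16
          rcases mul_eq_zero.1 h16 with h17 | h17
          · exact absurd ((CharP.cast_eq_zero_iff _ ℓ q').1 h17) hq'
          · exact h17
      · exact heq'
      · exfalso
        apply hAt.ne
        rw [DF1.cen_eq]
        have h13 := DF1.mul_w hφ₀ x₀ (q := (ℓ : ℂ) ^ t * q') (by rw [hcardC, hφm]; ring)
        obtain ⟨c', hc'⟩ : ℓ ^ n ∣ Nat.card (Subgroup.centralizer ({x₀} : Set C)) :=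
          hAt.mn x₀ hAt.ne
        have hc'd : ¬ ℓ ∣ c' := by
          rintro ⟨c'', rfl⟩
          apply hAt.cd.sq
          rw [hc', pow_succ]
          exact ⟨c'', by ring⟩
        obtain ⟨j, rfl⟩ : ∃ j, t = n + (j + 1) := ⟨t - n - 1, by omega⟩
        have h14 : (c' : ℂ) * DF1.w φ₀ x₀ = ((ℓ * (ℓ ^ j * q') : ℕ) : ℂ) * φ₀ x₀ := by
          apply mul_left_cancel₀ (pow_ne_zero n hℓ0)
          rw [hc'] at h13
          push_cast at h13 ⊢
          rw [← mul_assoc, h13]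
          ring
        refine DF1.red_cancel 𝔐 hℓ hc'd (DF1.isIntegral_w hφ₀ x₀) ?_
        rw [h14]
        exact DF1.red_mul_of_dvd 𝔐 hℓ (Dvd.intro _ rfl) (isIntegral_char hφ₀ x₀)
    refine ⟨q', hq', ?_⟩
    rw [hcardC, hφm, htn]
    ring

end Pool.Agent.DPX


end

section

/-!
# STK: the product of the coordinates of a commutator
-/

namespace Pool.Agent.DPG

open Pool.Agent.DP Pool.Agent.DPC Pool.Agent.DPM Pool.Agent.DPN Pool.Agent.DPF
  Pool.Agent.Lib_helper13 Representation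
open Pool.Agent.Lib_helper13.Dade (pCore DadeHolds dadeSum)
open Pool.Agent.DPC.WA (cc cc_mul)

namespace STK

section Coc

variable {G B C Δ : Type} [Group G] [Group B] [CommGroup C]

/-- A cocycle. -/
def Coc (a : G →* Equiv.Perm Δ) (c : G → Δ → B) : Prop :=
  ∀ g h d, c (g * h) d = c g (a h d) * c h d

variable {a : G →* Equiv.Perm Δ} {c : G → Δ → B} (hc : Coc a c)

include hc

theorem c_one (d : Δ) : c 1 d = 1 := by
  have h := hc 1 1 d
  rw [mul_one, map_one, Equiv.Perm.one_apply] at h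
  exact (mul_eq_left.1 h.symm)

theorem c_inv (g : G) (d : Δ) : c g⁻¹ (a g d) = (c g d)⁻¹ := by
  have h := hc g⁻¹ g d
  rw [inv_mul_cancel, c_one hc] at h
  exact eq_inv_of_mul_eq_one_left h.symm

variable {ι : C →* B} (hι : ∀ z b, ι z * b = b * ι z) {z : Δ → C} {x y : G}
  (hz : ∀ d, c (x * y * x⁻¹ * y⁻¹) d = ι (z d)) (ha : a (x * y * x⁻¹ * y⁻¹) = 1)

include hι hz ha

theorem L1 (k : ℕ) (e : Δ) :
    a ((x * y * x⁻¹ * y⁻¹ * y) ^ k) = a y ^ k ∧
    c ((x * y * x⁻¹ * y⁻¹ * y) ^ k) e =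
      ι (∏ j ∈ Finset.range k, z ((a y ^ (j + 1)) e)) * c (y ^ k) e := by
  induction k with
  | zero => simp [c_one hc]
  | succ k ih =>
    obtain ⟨ih1, ih2⟩ := ih
    refine ⟨?_, ?_⟩
    · rw [pow_succ', map_mul, ih1, map_mul, ha, one_mul, ← pow_succ']
    · rw [pow_succ', hc, ih1, ih2, hc, hz, Finset.prod_range_succ, map_mul, pow_succ' y,
        hc y (y ^ k), map_pow]
      have h : a y ((a y ^ k) e) = (a y ^ (k + 1)) e := by
        rw [pow_succ', Equiv.Perm.mul_apply]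
      rw [h]
      rw [mul_assoc, ← mul_assoc (c y _), ← hι _ (c y _)]
      rw [← mul_assoc, ← mul_assoc, ← mul_assoc, ← map_mul, ← map_mul, mul_comm (z _)]

theorem L2 {γ : ℕ} (hγ : a y ^ γ = 1) (d : Δ) :
    c x d * c (y ^ γ) d * (c x d)⁻¹ =
      ι (∏ j ∈ Finset.range γ, z ((a y ^ (j + 1)) (a x d))) * c (y ^ γ) (a x d) := by
  rw [← (L1 hc hι hz ha γ (a x d)).2]
  have h1 : x * y * x⁻¹ * y⁻¹ * y = x * y * x⁻¹ := by group
  rw [h1, conj_pow, hc, c_inv hc, hc]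
  have h2 : a x⁻¹ (a x d) = d := by
    rw [← Equiv.Perm.mul_apply, ← map_mul, inv_mul_cancel, map_one, Equiv.Perm.one_apply]
  rw [h2, map_pow, hγ, Equiv.Perm.one_apply]

theorem L3 {γ : ℕ} (hγ : a y ^ γ = 1) (d : Δ) (k : ℕ) :
    c (x ^ k) d * c (y ^ γ) d * (c (x ^ k) d)⁻¹ =
      ι (∏ i ∈ Finset.range k, ∏ j ∈ Finset.range γ, z ((a y ^ (j + 1)) ((a x ^ (i + 1)) d))) *
        c (y ^ γ) ((a x ^ k) d) := by
  induction k with
  | zero => simp [c_one hc]
  | succ k ih =>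
    rw [pow_succ', hc, map_pow]
    have h1 : c x ((a x ^ k) d) * c (x ^ k) d * c (y ^ γ) d * (c x ((a x ^ k) d) * c (x ^ k) d)⁻¹ =
        c x ((a x ^ k) d) * (c (x ^ k) d * c (y ^ γ) d * (c (x ^ k) d)⁻¹) *
          (c x ((a x ^ k) d))⁻¹ := by group
    rw [h1, ih, Finset.prod_range_succ, map_mul]
    have h2 := L2 hc hι hz ha hγ ((a x ^ k) d)
    have h3 : a x ((a x ^ k) d) = (a x ^ (k + 1)) d := by
      rw [pow_succ', Equiv.Perm.mul_apply]
    rw [h3] at h2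
    rw [← mul_assoc (c x _), ← hι _ (c x _), mul_assoc (ι _) (c x _), mul_assoc (ι _), h2,
      ← mul_assoc]

end Coc

section Comb

variable {Δ C : Type} [Fintype Δ] [CommGroup C]

/-- The points `Y ^ (j + 1) X ^ (i + 1) δ₀` are all the points. -/
theorem comb (X Y : Equiv.Perm Δ) (hXY : X * Y = Y * X) (d0 : Δ)
    (htr : ∀ d, ∃ i j : ℤ, (X ^ i * Y ^ j) d0 = d) :
    ∃ α β γ : ℕ, Y ^ γ = 1 ∧ (Y ^ β * X ^ α) d0 = d0 ∧
      (∀ i j : ℤ, (X ^ i * Y ^ j) d0 = d0 → ∃ k m : ℤ, i = α * k ∧ j = β * k + γ * m) ∧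
      ∀ z : Δ → C, ∏ i ∈ Finset.range α, ∏ j ∈ Finset.range γ,
        z ((Y ^ (j + 1)) ((X ^ (i + 1)) d0)) = ∏ d, z d := by
  classical
  have hcom : ∀ i j : ℤ, X ^ i * Y ^ j = Y ^ j * X ^ i := fun i j =>
    ((show Commute X Y from hXY).zpow_zpow i j).eq
  -- the period of Y
  obtain ⟨γ, hγ0, hγi⟩ : ∃ γ : ℕ, 0 < γ ∧ ∀ j : ℤ, (Y ^ j) d0 = d0 ↔ (γ : ℤ) ∣ j := by
    refine ⟨Function.minimalPeriod (Y • ·) d0, ?_, fun j => ?_⟩
    · exact Nat.pos_of_ne_zero (MulAction.minimalPeriod_pos Y d0).out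
    · change Y ^ j • d0 = d0 ↔ _
      exact MulAction.zpow_smul_eq_iff_minimalPeriod_dvd
  have hYfix : ∀ j : ℤ, (Y ^ j) d0 = d0 → Y ^ j = 1 := by
    intro j hj
    ext d
    obtain ⟨i, k, rfl⟩ := htr d
    rw [Equiv.Perm.one_apply, ← Equiv.Perm.mul_apply, ← mul_assoc, ← hcom i j, mul_assoc,
      ← zpow_add, add_comm, zpow_add, Equiv.Perm.mul_apply, Equiv.Perm.mul_apply, hj,
      ← Equiv.Perm.mul_apply]
  have hYγ : Y ^ γ = 1 := by
    have h := hYfix γ ((hγi γ).2 dvd_rfl)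
    rwa [zpow_natCast] at h
  have hsp : ∀ i j i' j' : ℤ, X ^ (i + i') * Y ^ (j + j') = (X ^ i * Y ^ j) * (X ^ i' * Y ^ j') := by
    intro i j i' j'
    rw [zpow_add, zpow_add, mul_assoc, ← mul_assoc (X ^ i'), hcom i' j, mul_assoc (Y ^ j),
      ← mul_assoc (X ^ i)]
  have hadd : ∀ i j i' j' : ℤ, (X ^ i * Y ^ j) d0 = d0 → (X ^ i' * Y ^ j') d0 = d0 →
      (X ^ (i + i') * Y ^ (j + j')) d0 = d0 := by
    intro i j i' j' h h'
    rw [hsp, Equiv.Perm.mul_apply, h', h]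
  have hmul : ∀ i j k : ℤ, (X ^ i * Y ^ j) d0 = d0 → (X ^ (i * k) * Y ^ (j * k)) d0 = d0 := by
    intro i j k h
    have e : X ^ (i * k) * Y ^ (j * k) = (X ^ i * Y ^ j) ^ k := by
      rw [(show Commute (X ^ i) (Y ^ j) from hcom i j).mul_zpow, ← zpow_mul, ← zpow_mul]
    rw [e]
    exact Equiv.Perm.zpow_apply_eq_self_of_apply_eq_self h k
  -- the period of X modulo Y
  have hex : ∃ n : ℕ, 0 < n ∧ ∃ j : ℤ, (X ^ (n : ℤ) * Y ^ j) d0 = d0 :=
    ⟨orderOf X, orderOf_pos X, 0, by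
      rw [zpow_natCast, pow_orderOf_eq_one, zpow_zero, mul_one, Equiv.Perm.one_apply]⟩
  obtain ⟨hα0, j1, hj1⟩ := Nat.find_spec hex
  have hmin : ∀ m : ℕ, m < Nat.find hex → ∀ j : ℤ, (X ^ (m : ℤ) * Y ^ j) d0 = d0 → m = 0 := by
    intro m hm j hj
    by_contra h0
    exact Nat.find_min hex hm ⟨Nat.pos_of_ne_zero h0, j, hj⟩
  generalize Nat.find hex = α at hα0 hj1 hmin
  obtain ⟨β, hβ⟩ : ∃ β : ℕ, (γ : ℤ) ∣ (β : ℤ) - j1 := by
    refine ⟨(j1 % γ).toNat, ?_⟩
    have h0 : 0 ≤ j1 % γ := Int.emod_nonneg _ (by exact_mod_cast hγ0.ne')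
    rw [Int.toNat_of_nonneg h0]
    exact ⟨-(j1 / γ), by have := Int.emod_add_mul_ediv j1 γ; linarith⟩
  have hβ1 : (X ^ (α : ℤ) * Y ^ (β : ℤ)) d0 = d0 := by
    have h := hadd α j1 0 (β - j1) hj1 (by
      rw [zpow_zero, one_mul]
      exact (hγi _).2 hβ)
    rwa [add_zero, add_sub_cancel] at h
  have hdiv : ∀ i j : ℤ, (X ^ i * Y ^ j) d0 = d0 → ∃ k m : ℤ, i = α * k ∧ j = β * k + γ * m := by
    intro i j h
    have hα1 : (α : ℤ) ≠ 0 := by exact_mod_cast hα0.ne'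
    have h1 := hadd i j (α * (-(i / α))) (β * (-(i / α))) h (hmul _ _ _ hβ1)
    have h2 : i + α * (-(i / α)) = i % α := by
      have := Int.emod_add_mul_ediv i α
      linarith
    have h3 : i % α = ((i % α).toNat : ℤ) := (Int.toNat_of_nonneg (Int.emod_nonneg _ hα1)).symm
    rw [h2, h3] at h1
    have h4 : (i % α).toNat < α := by
      have := Int.emod_lt_of_pos i (by exact_mod_cast hα0 : (0 : ℤ) < α)
      omega
    have h5 := hmin _ h4 _ h1
    rw [h5, Nat.cast_zero, zpow_zero, one_mul] at h1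
    obtain ⟨m, hm⟩ := (hγi _).1 h1
    refine ⟨i / α, m, ?_, ?_⟩
    · have h6 : i % α = 0 := by
        rw [h3, h5, Nat.cast_zero]
      rw [h6] at h2
      linarith
    · linarith
  refine ⟨α, β, γ, hYγ, ?_, hdiv, ?_⟩
  · rw [← (show Commute X Y from hXY).pow_pow α β]
    rwa [zpow_natCast, zpow_natCast] at hβ1
  · intro z
    rw [← Finset.prod_product']
    refine Finset.prod_nbij (fun p => (Y ^ (p.2 + 1)) ((X ^ (p.1 + 1)) d0))
      (fun _ _ => Finset.mem_univ _) ?_ ?_ (fun _ _ => rfl)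
    · rintro ⟨i, j⟩ h ⟨i', j'⟩ h' he
      simp only [Finset.coe_product, Finset.coe_range, Set.mem_prod, Set.mem_Iio] at h h'
      have h1 : (X ^ ((i : ℤ) - i') * Y ^ ((j : ℤ) - j')) d0 = d0 := by
        apply (X ^ ((i' : ℤ) + 1) * Y ^ ((j' : ℤ) + 1)).injective
        rw [← Equiv.Perm.mul_apply, ← hsp]
        have e1 : (i' : ℤ) + 1 + (i - i') = ((i + 1 : ℕ) : ℤ) := by push_cast; ring
        have e2 : (j' : ℤ) + 1 + (j - j') = ((j + 1 : ℕ) : ℤ) := by push_cast; ring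
        have e3 : (i' : ℤ) + 1 = ((i' + 1 : ℕ) : ℤ) := by push_cast; ring
        have e4 : (j' : ℤ) + 1 = ((j' + 1 : ℕ) : ℤ) := by push_cast; ring
        rw [e1, e2, e3, e4, hcom, hcom, zpow_natCast, zpow_natCast, zpow_natCast, zpow_natCast]
        exact he
      obtain ⟨k, m, hk, hm⟩ := hdiv _ _ h1
      have hk0 : k = 0 := by
        by_contra hk0
        have : (α : ℤ) ≤ |(i : ℤ) - i'| := by
          rw [hk, abs_mul, Nat.abs_cast]
          exact le_mul_of_one_le_right (by positivity) (Int.one_le_abs hk0)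
        have h7 : |(i : ℤ) - i'| < α := by
          rw [abs_lt]
          constructor <;> omega
        omega
      have hm0 : m = 0 := by
        rw [hk0, mul_zero, zero_add] at hm
        by_contra hm0
        have : (γ : ℤ) ≤ |(j : ℤ) - j'| := by
          rw [hm, abs_mul, Nat.abs_cast]
          exact le_mul_of_one_le_right (by positivity) (Int.one_le_abs hm0)
        have h7 : |(j : ℤ) - j'| < γ := by
          rw [abs_lt]
          constructor <;> omega
        omega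
      subst hk0 hm0
      simp only [Prod.mk.injEq]
      constructor <;> omega
    · intro d _
      obtain ⟨i, j, rfl⟩ := htr d
      have hα1 : (α : ℤ) ≠ 0 := by exact_mod_cast hα0.ne'
      have hγ1 : (γ : ℤ) ≠ 0 := by exact_mod_cast hγ0.ne'
      have hp := Int.emod_add_mul_ediv (i - 1) α
      have hp0 := Int.emod_nonneg (i - 1) hα1
      have hp1 := Int.emod_lt_of_pos (i - 1) (by exact_mod_cast hα0 : (0 : ℤ) < α)
      have hq := Int.emod_add_mul_ediv (j - β * ((i - 1) / α) - 1) γ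
      have hq0 := Int.emod_nonneg (j - β * ((i - 1) / α) - 1) hγ1
      have hq1 := Int.emod_lt_of_pos (j - β * ((i - 1) / α) - 1)
        (by exact_mod_cast hγ0 : (0 : ℤ) < γ)
      generalize (i - 1) / α = k at *
      generalize (j - β * k - 1) / γ = m at *
      generalize (i - 1) % α = p0 at *
      generalize (j - β * k - 1) % γ = q0 at *
      lift p0 to ℕ using hp0
      lift q0 to ℕ using hq0
      refine ⟨(p0, q0), ?_, ?_⟩
      · simp only [Finset.coe_product, Finset.coe_range, Set.mem_prod, Set.mem_Iio]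
        omega
      · simp only []
        have e1 : i = ((p0 + 1 : ℕ) : ℤ) + α * k := by push_cast; linarith
        have e2 : j = ((q0 + 1 : ℕ) : ℤ) + (β * k + γ * m) := by push_cast; linarith
        have e3 : (X ^ ((α : ℤ) * k) * Y ^ ((β : ℤ) * k + γ * m)) d0 = d0 := by
          have h := hadd (α * k) (β * k) 0 (γ * m) (hmul _ _ _ hβ1) (by
            rw [zpow_zero, one_mul]
            exact (hγi _).2 ⟨m, rfl⟩)
          rwa [add_zero] at h
        rw [e1, e2, hsp, Equiv.Perm.mul_apply (X ^ _ * Y ^ _), e3, hcom, zpow_natCast,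
          zpow_natCast]
        rfl

end Comb

end STK

theorem STK_thm : Stmt_STK := by
  classical
  intro G B Δ _ _ _ ψ x y C0 hC0 htr hr hc δ0
  -- the commutative group C0
  have hcomm : ∀ u v : C0, u * v = v * u := fun u v =>
    Subtype.ext ((Subgroup.mem_center_iff.1 (hC0 u.2) v).symm)
  let : CommGroup C0 := { (inferInstance : Group C0) with mul_comm := hcomm }
  let a : G →* Equiv.Perm Δ := SemidirectProduct.rightHom.comp ψ
  have haψ : ∀ g, a g = (ψ g).right := fun g => rfl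
  have hcoc : STK.Coc a (cc ψ) := fun g h d => cc_mul ψ g h d
  let z : Δ → C0 := fun d => ⟨(ψ (x * y * x⁻¹ * y⁻¹)).left d, hc d⟩
  have hι : ∀ (w : C0) (b : B), C0.subtype w * b = b * C0.subtype w := fun w b =>
    (Subgroup.mem_center_iff.1 (hC0 w.2) b).symm
  have hz : ∀ d, cc ψ (x * y * x⁻¹ * y⁻¹) d = C0.subtype (z d) := by
    intro d
    unfold cc
    rw [hr, one_smul]
    rfl
  have ha : a (x * y * x⁻¹ * y⁻¹) = 1 := hr
  have hXY : a x * a y = a y * a x := by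
    rw [map_mul, map_mul, map_mul, map_inv, map_inv, mul_inv_eq_one, mul_inv_eq_iff_eq_mul] at ha
    exact ha
  -- the elements which act trivially with coordinates in C0
  let K0 : Subgroup G :=
    { carrier := {g | a g = 1 ∧ ∀ d, cc ψ g d ∈ C0}
      one_mem' := ⟨map_one a, fun d => by rw [STK.c_one hcoc]; exact C0.one_mem⟩
      mul_mem' := by
        rintro g h ⟨h1, h2⟩ ⟨h3, h4⟩
        exact ⟨by rw [map_mul, h1, h3, one_mul], fun d => by
          rw [hcoc]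
          exact C0.mul_mem (h2 _) (h4 _)⟩
      inv_mem' := by
        rintro g ⟨h1, h2⟩
        refine ⟨by rw [map_inv, h1, inv_one], fun d => ?_⟩
        have h := STK.c_inv hcoc g d
        rw [h1, Equiv.Perm.one_apply] at h
        rw [h]
        exact C0.inv_mem (h2 d) }
  have hK0 : K0.Normal := by
    refine ⟨?_⟩
    rintro n ⟨h1, h2⟩ g
    refine ⟨by rw [map_mul, map_mul, h1, mul_one, map_inv, mul_inv_cancel], fun d => ?_⟩
    obtain ⟨d, rfl⟩ := (a g).surjective d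
    rw [hcoc, STK.c_inv hcoc, hcoc]
    have h3 : a g⁻¹ (a g d) = d := by
      rw [← Equiv.Perm.mul_apply, ← map_mul, inv_mul_cancel, map_one, Equiv.Perm.one_apply]
    rw [h3, h1, Equiv.Perm.one_apply]
    have h4 := hι ⟨_, h2 d⟩ (cc ψ g d)
    simp only [Subgroup.subtype_apply] at h4
    rw [← h4, mul_inv_cancel_right]
    exact h2 d
  have hgen : ∀ g ∈ Subgroup.closure {x, y}, ∃ i j : ℤ, (x ^ i * y ^ j)⁻¹ * g ∈ K0 := by
    have hq : Commute (QuotientGroup.mk' K0 x) (QuotientGroup.mk' K0 y) := by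
      have h : QuotientGroup.mk' K0 (x * y * x⁻¹ * y⁻¹) = 1 :=
        (QuotientGroup.eq_one_iff _).2 ⟨ha, fun d => by rw [hz]; exact (z d).2⟩
      rw [map_mul, map_mul, map_mul, map_inv, map_inv, mul_inv_eq_one,
        mul_inv_eq_iff_eq_mul] at h
      exact h
    have key : ∀ g ∈ Subgroup.closure {x, y}, ∃ i j : ℤ,
        QuotientGroup.mk' K0 g = QuotientGroup.mk' K0 x ^ i * QuotientGroup.mk' K0 y ^ j := by
      intro g hg
      induction hg using Subgroup.closure_induction with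
      | mem g hg =>
        rcases hg with rfl | hg
        · exact ⟨1, 0, by rw [zpow_one, zpow_zero, mul_one]⟩
        · rw [Set.mem_singleton_iff] at hg
          subst hg
          exact ⟨0, 1, by rw [zpow_one, zpow_zero, one_mul]⟩
      | one => exact ⟨0, 0, by rw [zpow_zero, zpow_zero, mul_one, map_one]⟩
      | mul g h _ _ ih1 ih2 =>
        obtain ⟨i, j, e1⟩ := ih1
        obtain ⟨k, l, e2⟩ := ih2
        refine ⟨i + k, j + l, ?_⟩
        rw [map_mul, e1, e2, zpow_add, zpow_add, mul_assoc, mul_assoc,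
          ← mul_assoc (QuotientGroup.mk' K0 y ^ j), ← mul_assoc (QuotientGroup.mk' K0 x ^ k),
          (hq.zpow_zpow k j).eq]
      | inv g _ ih =>
        obtain ⟨i, j, e1⟩ := ih
        refine ⟨-i, -j, ?_⟩
        rw [map_inv, e1, mul_inv_rev, ← zpow_neg, ← zpow_neg, (hq.zpow_zpow (-i) (-j)).eq]
    intro g hg
    obtain ⟨i, j, e⟩ := key g hg
    refine ⟨i, j, ?_⟩
    rw [← QuotientGroup.eq_one_iff]
    change QuotientGroup.mk' K0 _ = 1
    rw [map_mul, map_inv, map_mul, map_zpow, map_zpow, e, inv_mul_cancel]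
  have htr' : ∀ d, ∃ i j : ℤ, (a x ^ i * a y ^ j) δ0 = d := by
    intro d
    obtain ⟨g, hg, hgd⟩ := htr δ0 d
    obtain ⟨i, j, h1, _⟩ := hgen g hg
    refine ⟨i, j, ?_⟩
    rw [map_mul, map_inv, map_mul, map_zpow, map_zpow, inv_mul_eq_one] at h1
    rw [h1]
    exact hgd
  obtain ⟨α, β, γ, hγ, hu, hdiv, hprod⟩ := STK.comb (C := C0) (a x) (a y) hXY δ0 htr'
  have h3 := STK.L3 hcoc hι hz ha hγ δ0 α
  rw [hprod z] at h3
  set e := (a x ^ α) δ0 with he
  have hβe : (a y ^ β) e = δ0 := by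
    rw [he, ← Equiv.Perm.mul_apply]
    exact hu
  have hγe : ∀ d, (a y ^ γ) d = d := fun d => by rw [hγ, Equiv.Perm.one_apply]
  have hau : a (y ^ β * x ^ α) δ0 = δ0 := by
    rw [map_mul, map_pow, map_pow]
    exact hu
  have hav : a (y ^ γ) δ0 = δ0 := by
    rw [map_pow, hγe]
  have h4 : cc ψ (y ^ β) e * cc ψ (y ^ γ) e * (cc ψ (y ^ β) e)⁻¹ = cc ψ (y ^ γ) δ0 := by
    rw [mul_inv_eq_iff_eq_mul]
    have h5 := hcoc (y ^ β) (y ^ γ) e
    have h6 := hcoc (y ^ γ) (y ^ β) e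
    rw [map_pow, hγe] at h5
    rw [map_pow, hβe] at h6
    rw [← h5, ← h6, ← pow_add, ← pow_add, add_comm]
  have hU : cc ψ (y ^ β * x ^ α) δ0 = cc ψ (y ^ β) e * cc ψ (x ^ α) δ0 := by
    rw [hcoc, map_pow]
  have hcomU : cc ψ (y ^ β * x ^ α) δ0 * cc ψ (y ^ γ) δ0 * (cc ψ (y ^ β * x ^ α) δ0)⁻¹ =
      C0.subtype (∏ d, z d) * cc ψ (y ^ γ) δ0 := by
    rw [hU]
    have h7 : cc ψ (y ^ β) e * cc ψ (x ^ α) δ0 * cc ψ (y ^ γ) δ0 *
        (cc ψ (y ^ β) e * cc ψ (x ^ α) δ0)⁻¹ =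
        cc ψ (y ^ β) e * (cc ψ (x ^ α) δ0 * cc ψ (y ^ γ) δ0 * (cc ψ (x ^ α) δ0)⁻¹) *
          (cc ψ (y ^ β) e)⁻¹ := by group
    rw [h7, h3, ← mul_assoc (cc ψ (y ^ β) e), ← hι _ (cc ψ (y ^ β) e), mul_assoc (C0.subtype _),
      mul_assoc (C0.subtype _), h4]
  have hcomU' : cc ψ (y ^ β * x ^ α) δ0 * cc ψ (y ^ γ) δ0 * (cc ψ (y ^ β * x ^ α) δ0)⁻¹ *
      (cc ψ (y ^ γ) δ0)⁻¹ = C0.subtype (∏ d, z d) := by
    rw [hcomU, mul_inv_cancel_right]
  refine ⟨cc ψ (y ^ β * x ^ α) δ0, cc ψ (y ^ γ) δ0, ⟨?_, ?_⟩, ?_⟩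
  · rw [hcomU']
    exact (∏ d, z d).2
  · intro χ
    have h8 : (⟨cc ψ (y ^ β * x ^ α) δ0 * cc ψ (y ^ γ) δ0 * (cc ψ (y ^ β * x ^ α) δ0)⁻¹ *
      (cc ψ (y ^ γ) δ0)⁻¹, by rw [hcomU']; exact (∏ d, z d).2⟩ : C0) = ∏ d, z d :=
      Subtype.ext hcomU'
    rw [h8]
    exact map_prod χ z Finset.univ
  · -- the stabilizer
    let S0 : Subgroup G :=
      { carrier := {g | a g δ0 = δ0 ∧ cc ψ g δ0 ∈
          Subgroup.closure {cc ψ (y ^ β * x ^ α) δ0, cc ψ (y ^ γ) δ0} ⊔ C0}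
        one_mem' := ⟨by rw [map_one]; rfl, by rw [STK.c_one hcoc]; exact Subgroup.one_mem _⟩
        mul_mem' := by
          rintro g h ⟨h1, h2⟩ ⟨h3, h4⟩
          refine ⟨by rw [map_mul, Equiv.Perm.mul_apply, h3, h1], ?_⟩
          have h5 := hcoc g h δ0
          rw [h3] at h5
          rw [h5]
          exact Subgroup.mul_mem _ h2 h4
        inv_mem' := by
          rintro g ⟨h1, h2⟩
          have h5 : a g⁻¹ δ0 = δ0 := by
            have h6 : a g⁻¹ (a g δ0) = δ0 := by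
              rw [← Equiv.Perm.mul_apply, ← map_mul, inv_mul_cancel, map_one,
                Equiv.Perm.one_apply]
            rwa [h1] at h6
          refine ⟨h5, ?_⟩
          have h := STK.c_inv hcoc g δ0
          rw [h1] at h
          rw [h]
          exact Subgroup.inv_mem _ h2 }
    have hle : ∀ g, g ∈ K0 → g ∈ S0 := by
      rintro g ⟨h1, h2⟩
      exact ⟨by rw [h1]; rfl, Subgroup.mem_sup_right (h2 δ0)⟩
    have huS : y ^ β * x ^ α ∈ S0 := ⟨hau, Subgroup.mem_sup_left (Subgroup.subset_closure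
      (Set.mem_insert _ _))⟩
    have hvS : y ^ γ ∈ S0 := ⟨hav, Subgroup.mem_sup_left (Subgroup.subset_closure
      (Set.mem_insert_of_mem _ rfl))⟩
    intro g hg hgδ
    obtain ⟨i, j, hij⟩ := hgen g hg
    have hfix : (a x ^ i * a y ^ j) δ0 = δ0 := by
      have h1 := hij.1
      rw [map_mul, map_inv, map_mul, map_zpow, map_zpow, inv_mul_eq_one] at h1
      rw [h1]
      exact hgδ
    obtain ⟨k, m, rfl, rfl⟩ := hdiv i j hfix
    have hmem : ((y ^ β * x ^ α) ^ k * (y ^ γ) ^ m)⁻¹ * g ∈ K0 := by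
      have hq : Commute (QuotientGroup.mk' K0 x) (QuotientGroup.mk' K0 y) := by
        have h : QuotientGroup.mk' K0 (x * y * x⁻¹ * y⁻¹) = 1 :=
          (QuotientGroup.eq_one_iff _).2 ⟨ha, fun d => by rw [hz]; exact (z d).2⟩
        rw [map_mul, map_mul, map_mul, map_inv, map_inv, mul_inv_eq_one,
          mul_inv_eq_iff_eq_mul] at h
        exact h
      rw [← QuotientGroup.eq_one_iff] at hij ⊢
      change QuotientGroup.mk' K0 _ = 1 at hij
      change QuotientGroup.mk' K0 _ = 1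
      rw [map_mul, map_inv, inv_mul_eq_one] at hij ⊢
      rw [← hij]
      simp only [map_mul, map_zpow, map_pow]
      rw [((hq.symm.pow_pow β α)).mul_zpow, ← zpow_natCast, ← zpow_natCast, ← zpow_natCast,
        ← zpow_mul, ← zpow_mul, ← zpow_mul, (hq.symm.zpow_zpow _ _).eq, mul_assoc, ← zpow_add]
    have hgS : g ∈ S0 := by
      have h1 : g = ((y ^ β * x ^ α) ^ k * (y ^ γ) ^ m) *
          (((y ^ β * x ^ α) ^ k * (y ^ γ) ^ m)⁻¹ * g) := by group
      rw [h1]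
      exact S0.mul_mem (S0.mul_mem (S0.zpow_mem huS k) (S0.zpow_mem hvS m)) (hle _ hmem)
    have h9 := hgS.2
    have h10 : cc ψ g δ0 = (ψ g).left δ0 := by
      unfold cc
      rw [show (ψ g).right • δ0 = δ0 from hgδ]
    rw [h10] at h9
    exact h9

end Pool.Agent.DPG


end

section

/-!
# CPR: the chain sums of a central product
-/

set_option autoImplicit false

namespace Pool.Agent.DPH

open Pool.Agent.DP Pool.Agent.DPC Pool.Agent.DPM Pool.Agent.DPN Pool.Agent.DPF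
  Pool.Agent.Lib_helper13 Representation
open Pool.Agent.Lib_helper13.Dade (pCore DadeHolds dadeSum)

namespace CPR

section One

variable {B L K : Type} [Group B] [Group L] [Group K] (j : B →* L) (π : L →* K)

/-- Restriction of functions along `j`. -/
def rs (V : Subgroup K) (ψ : ↥(V.comap π) → ℂ) : ↥(V.comap (π.comp j)) → ℂ :=
  fun b => ψ ⟨j b, b.2⟩

theorem ker_mem (V : Subgroup K) (z : π.ker) : (z : L) ∈ V.comap π := by
  show π z ∈ V
  rw [MonoidHom.mem_ker.mp z.2]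
  exact V.one_mem

theorem mul_ker_mem (V : Subgroup K) (b : ↥(V.comap (π.comp j))) (z : π.ker) :
    j b * (z : L) ∈ V.comap π :=
  mul_mem (show j (b : B) ∈ V.comap π from b.2) (ker_mem π V z)

/-- The restriction of `j`. -/
def jV (V : Subgroup K) : ↥(V.comap (π.comp j)) →* ↥(V.comap π) :=
  (j.comp (V.comap (π.comp j)).subtype).codRestrict (V.comap π) (fun b => b.2)

theorem jV_coe (V : Subgroup K) (b : ↥(V.comap (π.comp j))) : (jV j π V b : L) = j b := rfl

/-- The product map. -/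
def mV (hc : π.ker ≤ Subgroup.center L) (V : Subgroup K) :
    ↥(V.comap (π.comp j)) × π.ker →* ↥(V.comap π) where
  toFun p := ⟨j p.1 * (p.2 : L), mul_ker_mem j π V p.1 p.2⟩
  map_one' := by
    apply Subtype.ext
    simp
  map_mul' := by
    rintro ⟨b, z⟩ ⟨b', z'⟩
    apply Subtype.ext
    show j ((b : B) * b') * ((z : L) * z') = (j b * z) * (j b' * z')
    have h1 := Subgroup.mem_center_iff.mp (hc z.2) (j b')
    rw [map_mul, mul_assoc (j (b : B)) (z : L), ← mul_assoc (z : L) (j (b' : B)), ← h1]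
    simp only [mul_assoc]

variable {j π}

theorem exists_jz (hs : Function.Surjective (π.comp j)) (x : L) :
    ∃ (b : B) (z : π.ker), x = j b * (z : L) := by
  obtain ⟨b, hb⟩ := hs (π x)
  refine ⟨b, ⟨(j b)⁻¹ * x, ?_⟩, by simp⟩
  rw [MonoidHom.mem_ker, map_mul, map_inv]
  have h1 : π (j b) = π x := hb
  rw [h1, inv_mul_cancel]

theorem mem_of_jz {V : Subgroup K} {b : B} {z : π.ker} (h : j b * (z : L) ∈ V.comap π) :
    b ∈ V.comap (π.comp j) := by
  have h1 : π (j b * (z : L)) ∈ V := h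
  rw [map_mul, MonoidHom.mem_ker.mp z.2, mul_one] at h1
  exact h1

theorem mV_surj (hc : π.ker ≤ Subgroup.center L) (hs : Function.Surjective (π.comp j))
    (V : Subgroup K) : Function.Surjective (mV j π hc V) := by
  rintro ⟨x, hx⟩
  obtain ⟨b, z, rfl⟩ := exists_jz hs x
  exact ⟨(⟨b, mem_of_jz hx⟩, z), rfl⟩

theorem ovl_mul {V : Subgroup K} {μ : π.ker →* ℂˣ} (hc : π.ker ≤ Subgroup.center L)
    {ψ : ↥(V.comap π) → ℂ} (ho : OvL π.ker μ _ ψ) (x : ↥(V.comap π)) (z : π.ker)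
    (h : (x : L) * (z : L) ∈ V.comap π) :
    ψ ⟨(x : L) * (z : L), h⟩ = ((μ z : ℂˣ) : ℂ) * ψ x := by
  have h1 := ho ⟨z, ker_mem π V z⟩ x z.2
  rw [← h1]
  congr 1
  apply Subtype.ext
  exact Subgroup.mem_center_iff.mp (hc z.2) (x : L)

theorem card_comap [Finite L] (hs : Function.Surjective π) (V : Subgroup K) :
    Nat.card ↥(V.comap π) = Nat.card V * Nat.card π.ker := by
  have h1 : Function.Surjective ((π.comp (V.comap π).subtype).codRestrict V (fun x => x.2)) := by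
    rintro ⟨v, hv⟩
    obtain ⟨x, rfl⟩ := hs v
    exact ⟨⟨x, hv⟩, rfl⟩
  have h2 := Subgroup.card_mul_index ((π.comp (V.comap π).subtype).codRestrict V (fun x => x.2)).ker
  rw [Subgroup.index_ker, MonoidHom.range_eq_top.mpr h1, Subgroup.card_top] at h2
  rw [← h2, mul_comm]
  congr 1
  refine Nat.card_congr ⟨fun x => ⟨(x : ↥(V.comap π)), ?_⟩, fun x => ⟨⟨x, ker_mem π V x⟩, ?_⟩,
    ?_, ?_⟩
  · have h3 := MonoidHom.mem_ker.mp x.2
    exact congrArg Subtype.val h3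
  · rw [MonoidHom.mem_ker]
    apply Subtype.ext
    exact MonoidHom.mem_ker.mp x.2
  · intro x
    rfl
  · intro x
    rfl

end One

section Two

variable {B L K : Type} [Group B] [Fintype B] [Group L] [Fintype L] [Group K] [Fintype K]
  {j : B →* L} {π : L →* K} {μ : π.ker →* ℂˣ} {μB : (π.comp j).ker →* ℂˣ}

omit [Fintype B] [Fintype L] [Fintype K] in
theorem rs_ovl (hμ : ∀ (u : (π.comp j).ker) (h : j u ∈ π.ker), μ ⟨j u, h⟩ = μB u)
    {V : Subgroup K} {ψ : ↥(V.comap π) → ℂ} (ho : OvL π.ker μ _ ψ) :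
    OvL (π.comp j).ker μB _ (rs j π V ψ) := by
  intro s t h
  have hk : j (s : B) ∈ π.ker := h
  have h1 := ho ⟨j s, s.2⟩ ⟨j t, t.2⟩ hk
  have h2 := hμ ⟨s, h⟩ hk
  rw [← h2]
  refine Eq.trans ?_ h1
  show ψ _ = ψ _
  congr 1
  apply Subtype.ext
  show j ((s : B) * t) = j s * j t
  rw [map_mul]

/-- The product of a function on `V_B` with `μ`. -/
def pr (μ : π.ker →* ℂˣ) {V : Subgroup K} (φ : ↥(V.comap (π.comp j)) → ℂ)
    (p : ↥(V.comap (π.comp j)) × π.ker) : ℂ :=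
  φ p.1 * ((μ p.2 : ℂˣ) : ℂ)

omit [Fintype K] in
theorem sum_pr {V : Subgroup K} (φ : ↥(V.comap (π.comp j)) → ℂ) :
    ∑ p, pr (j := j) μ φ p * pr (j := j) μ φ p⁻¹ =
      (∑ b, φ b * φ b⁻¹) * Nat.card π.ker := by
  rw [Fintype.sum_prod_type, Finset.sum_mul]
  refine Finset.sum_congr rfl fun b _ => ?_
  have h1 : ∀ z : π.ker, pr (j := j) μ φ (b, z) * pr (j := j) μ φ (b, z)⁻¹ = φ b * φ b⁻¹ := by
    intro z
    show φ b * ((μ z : ℂˣ) : ℂ) * (φ b⁻¹ * ((μ z⁻¹ : ℂˣ) : ℂ)) = φ b * φ b⁻¹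
    have h2 : ((μ z : ℂˣ) : ℂ) * ((μ z⁻¹ : ℂˣ) : ℂ) = 1 := by
      rw [← Units.val_mul, ← map_mul, mul_inv_cancel, map_one, Units.val_one]
    calc φ b * ((μ z : ℂˣ) : ℂ) * (φ b⁻¹ * ((μ z⁻¹ : ℂˣ) : ℂ))
        = φ b * φ b⁻¹ * (((μ z : ℂˣ) : ℂ) * ((μ z⁻¹ : ℂˣ) : ℂ)) := by ring
      _ = φ b * φ b⁻¹ := by rw [h2, mul_one]
  rw [Finset.sum_congr rfl (fun z _ => h1 z), Finset.sum_const, Finset.card_univ, nsmul_eq_mul,
    ← Nat.card_eq_fintype_card, mul_comm]

theorem pr_irr {V : Subgroup K} {φ : ↥(V.comap (π.comp j)) → ℂ} (hφ : IsIrr φ) :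
    IsIrr (pr (j := j) μ φ) := by
  have h1 : IsChr (pr (j := j) μ φ) := by
    have h2 := (hφ.isChr.comp (MonoidHom.fst ↥(V.comap (π.comp j)) π.ker)).mul
      ((isChr_lin μ).comp (MonoidHom.snd ↥(V.comap (π.comp j)) π.ker))
    exact h2
  apply h1.isIrr
  rw [sum_pr, hφ.sum_self, Nat.card_prod]
  push_cast
  rfl

omit [Fintype B] [Fintype L] [Fintype K] in
theorem pr_eq (hc : π.ker ≤ Subgroup.center L) {V : Subgroup K} {ψ : ↥(V.comap π) → ℂ}
    (ho : OvL π.ker μ _ ψ) (p : ↥(V.comap (π.comp j)) × π.ker) :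
    ψ (mV j π hc V p) = pr (j := j) μ (rs j π V ψ) p := by
  have h1 := ovl_mul hc ho (jV j π V p.1) p.2 (mul_ker_mem j π V p.1 p.2)
  show ψ ⟨j p.1 * (p.2 : L), _⟩ = ψ ⟨j p.1, _⟩ * ((μ p.2 : ℂˣ) : ℂ)
  rw [mul_comm]
  exact h1

theorem rs_irr (hc : π.ker ≤ Subgroup.center L) (hs : Function.Surjective (π.comp j))
    {V : Subgroup K} {ψ : ↥(V.comap π) → ℂ} (hψ : IsIrr ψ) (ho : OvL π.ker μ _ ψ) :
    IsIrr (rs j π V ψ) := by
  have h1 : IsChr (rs j π V ψ) := hψ.isChr.comp (jV j π V)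
  apply h1.isIrr
  have h2 := QB.infl (mV_surj hc hs V) hψ
  have h3 : (fun s => ψ (mV j π hc V s)) = pr (j := j) μ (rs j π V ψ) := by
    ext p
    exact pr_eq hc ho p
  rw [h3] at h2
  have h4 := h2.sum_self
  rw [sum_pr, Nat.card_prod] at h4
  push_cast at h4
  exact mul_right_cancel₀ natCard_ne_zero h4

theorem rs_inj (hc : π.ker ≤ Subgroup.center L) (hs : Function.Surjective (π.comp j))
    {V : Subgroup K} {ψ ψ' : ↥(V.comap π) → ℂ} (ho : OvL π.ker μ _ ψ) (ho' : OvL π.ker μ _ ψ')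
    (h : rs j π V ψ = rs j π V ψ') : ψ = ψ' := by
  ext x
  obtain ⟨p, rfl⟩ := mV_surj hc hs V x
  rw [pr_eq hc ho, pr_eq hc ho', h]

theorem rs_surj (hc : π.ker ≤ Subgroup.center L) (hs : Function.Surjective (π.comp j))
    (hμ : ∀ (u : (π.comp j).ker) (h : j u ∈ π.ker), μ ⟨j u, h⟩ = μB u)
    {V : Subgroup K} {φ : ↥(V.comap (π.comp j)) → ℂ} (hφ : IsIrr φ)
    (ho : OvL (π.comp j).ker μB _ φ) :
    ∃ ψ : ↥(V.comap π) → ℂ, IsIrr ψ ∧ OvL π.ker μ _ ψ ∧ rs j π V ψ = φ := by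
  have hk : ∀ p ∈ (mV j π hc V).ker, ∀ b, pr (j := j) μ φ (p * (b, 1)) = φ b := by
    rintro ⟨a, z⟩ hp b
    have h1 : j a * (z : L) = 1 := congrArg Subtype.val (MonoidHom.mem_ker.mp hp)
    have h2 : (a : B) ∈ (π.comp j).ker := by
      rw [MonoidHom.mem_ker]
      show π (j a) = 1
      have h3 := congrArg π h1
      rw [map_mul, MonoidHom.mem_ker.mp z.2, mul_one, map_one] at h3
      exact h3
    have h3 := hμ ⟨a, h2⟩ h2
    have h4 : (⟨j a, h2⟩ : π.ker) = z⁻¹ := by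
      apply Subtype.ext
      show j a = (z : L)⁻¹
      exact eq_inv_of_mul_eq_one_left h1
    rw [h4] at h3
    show φ (a * b) * ((μ (z * 1) : ℂˣ) : ℂ) = φ b
    rw [ho a b h2, mul_one]
    have h5 : ((μB ⟨a, h2⟩ : ℂˣ) : ℂ) * ((μ z : ℂˣ) : ℂ) = 1 := by
      rw [← h3, ← Units.val_mul, ← map_mul, inv_mul_cancel, map_one, Units.val_one]
    calc ((μB ⟨a, h2⟩ : ℂˣ) : ℂ) * φ b * ((μ z : ℂˣ) : ℂ)
        = ((μB ⟨a, h2⟩ : ℂˣ) : ℂ) * ((μ z : ℂˣ) : ℂ) * φ b := by ring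
      _ = φ b := by rw [h5, one_mul]
  have h0 : ∑ n : (mV j π hc V).ker, pr (j := j) μ φ n ≠ 0 := by
    have h1 : ∀ n : (mV j π hc V).ker, pr (j := j) μ φ n = φ 1 := by
      intro n
      have h2 := hk n n.2 1
      have h3 : (n : ↥(V.comap (π.comp j)) × π.ker) *
          ((1 : ↥(V.comap (π.comp j))), (1 : π.ker)) =
          (n : ↥(V.comap (π.comp j)) × π.ker) := mul_one _
      rw [h3] at h2
      exact h2
    rw [Finset.sum_congr rfl (fun n _ => h1 n), Finset.sum_const, Finset.card_univ, nsmul_eq_mul,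
      ← Nat.card_eq_fintype_card]
    exact mul_ne_zero natCard_ne_zero hφ.one_ne_zero
  obtain ⟨ψ, hψ, hψ'⟩ := QB.defl (mV_surj hc hs V) (pr_irr (μ := μ) hφ) h0
  refine ⟨ψ, hψ, ?_, ?_⟩
  · intro s t h
    obtain ⟨⟨b, z⟩, rfl⟩ := mV_surj hc hs V t
    have h1 : s * mV j π hc V (b, z) = mV j π hc V (b, ⟨s, h⟩ * z) := by
      apply Subtype.ext
      show (s : L) * (j b * (z : L)) = j b * ((s : L) * z)
      rw [← mul_assoc, ← mul_assoc, Subgroup.mem_center_iff.mp (hc h) (j b)]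
    rw [h1, ← hψ', ← hψ']
    show φ b * ((μ (⟨s, h⟩ * z) : ℂˣ) : ℂ) = _ * (φ b * ((μ z : ℂˣ) : ℂ))
    rw [map_mul, Units.val_mul]
    ring
  · ext b
    have h1 := hψ' (b, 1)
    have h2 : mV j π hc V (b, 1) = jV j π V b := by
      apply Subtype.ext
      show j b * ((1 : π.ker) : L) = j b
      rw [Subgroup.coe_one, mul_one]
    rw [h2] at h1
    show ψ (jV j π V b) = φ b
    rw [← h1]
    show φ b * ((μ 1 : ℂˣ) : ℂ) = φ b
    rw [map_one, Units.val_one, mul_one]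

theorem defect_iff (hs : Function.Surjective (π.comp j)) {ℓ : ℕ} [Fact ℓ.Prime] {V : Subgroup K}
    (ψ : ↥(V.comap π) → ℂ) {d d' : ℕ}
    (hd : d + padicValNat ℓ (Nat.card (π.comp j).ker) = d' + padicValNat ℓ (Nat.card π.ker)) :
    HasDefect ℓ ψ d ↔ HasDefect ℓ (rs j π V ψ) d' := by
  have hπ : Function.Surjective π := by
    intro k
    obtain ⟨b, hb⟩ := hs k
    exact ⟨j b, hb⟩
  have h1 : rs j π V ψ 1 = ψ 1 := by
    show ψ ⟨j (1 : B), _⟩ = ψ 1
    congr 1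
    apply Subtype.ext
    exact map_one j
  unfold HasDefect
  rw [h1, card_comap hπ V, card_comap hs V, padicValNat.mul Nat.card_pos.ne' Nat.card_pos.ne',
    padicValNat.mul Nat.card_pos.ne' Nat.card_pos.ne']
  constructor
  · rintro ⟨n, hn, hn'⟩
    exact ⟨n, hn, by omega⟩
  · rintro ⟨n, hn, hn'⟩
    exact ⟨n, hn, by omega⟩

theorem isIntegral_unit {G : Type} [Group G] [Finite G] (f : G →* ℂˣ) (g : G) :
    IsIntegral ℤ ((f g : ℂˣ) : ℂ) := by
  have h1 : ((f g : ℂˣ) : ℂ) ^ Nat.card G = 1 := by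
    rw [← Units.val_pow_eq_pow_val, ← map_pow, pow_card_eq_one', map_one, Units.val_one]
  refine IsIntegral.of_pow (Nat.card_pos (α := G)) ?_
  rw [h1]
  exact isIntegral_one

omit [Fintype B] [Fintype L] [Fintype K] in
theorem isConj_jz (hc : π.ker ≤ Subgroup.center L) (hs : Function.Surjective (π.comp j))
    (b : B) (z : π.ker) {x : L} (h : IsConj x (j b * (z : L))) :
    ∃ a : B, x = j (a * b * a⁻¹) * (z : L) := by
  obtain ⟨l, hl⟩ := isConj_iff.mp h.symm
  obtain ⟨a, w, rfl⟩ := exists_jz hs l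
  refine ⟨a, ?_⟩
  rw [← hl, map_mul, map_mul, map_inv]
  have h1 := Subgroup.mem_center_iff.mp (hc w.2)
  have h2 := Subgroup.mem_center_iff.mp (hc z.2)
  calc j a * (w : L) * (j b * (z : L)) * (j a * (w : L))⁻¹
      = j a * ((w : L) * (j b * (z : L) * (w : L)⁻¹)) * (j a)⁻¹ := by group
    _ = j a * (j b * (z : L)) * (j a)⁻¹ := by
        rw [← h1 (j b * (z : L) * (w : L)⁻¹), inv_mul_cancel_right]
    _ = j a * j b * ((z : L) * (j a)⁻¹) := by group
    _ = j a * j b * (j a)⁻¹ * (z : L) := by rw [← h2 (j a)⁻¹]; group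

omit [Fintype B] [Fintype L] [Fintype K] in
theorem isConj_iff_jz (hc : π.ker ≤ Subgroup.center L) (hj : Function.Injective j)
    (hs : Function.Surjective (π.comp j)) (a b : B) (z : π.ker) :
    IsConj (j a * (z : L)) (j b * (z : L)) ↔ IsConj a b := by
  constructor
  · intro h
    obtain ⟨c, hc'⟩ := isConj_jz hc hs b z h
    have h1 := hj (mul_right_cancel hc')
    exact (isConj_iff.mpr ⟨c, h1.symm⟩).symm
  · intro h
    obtain ⟨c, rfl⟩ := isConj_iff.mp h
    refine isConj_iff.mpr ⟨j c, ?_⟩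
    rw [map_mul, map_mul, map_inv]
    have h2 := Subgroup.mem_center_iff.mp (hc z.2)
    calc j c * (j a * (z : L)) * (j c)⁻¹ = j c * j a * ((z : L) * (j c)⁻¹) := by group
      _ = j c * j a * (j c)⁻¹ * (z : L) := by rw [← h2 (j c)⁻¹]; group

theorem wt_eq (hc : π.ker ≤ Subgroup.center L) (hj : Function.Injective j)
    (hs : Function.Surjective (π.comp j)) {V : Subgroup K} {ψ : ↥(V.comap π) → ℂ}
    (ho : OvL π.ker μ _ ψ) (b : B) (z : π.ker) :
    wt ψ (fun y => conjInd ((V.comap π).subtype y) (j b * (z : L))) =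
      ((μ z : ℂˣ) : ℂ) *
        wt (rs j π V ψ) (fun y => conjInd ((V.comap (π.comp j)).subtype y) b) := by
  have h1 : rs j π V ψ 1 = ψ 1 := by
    show ψ ⟨j (1 : B), _⟩ = ψ 1
    congr 1
    apply Subtype.ext
    exact map_one j
  rw [wt, wt, h1, ← mul_div_assoc, Finset.mul_sum]
  congr 1
  symm
  refine Fintype.sum_of_injective (fun a : ↥(V.comap (π.comp j)) => mV j π hc V (a, z)) ?_ _ _
    ?_ ?_
  · intro a a' h
    have h2 : j (a : B) * (z : L) = j (a' : B) * (z : L) := congrArg Subtype.val h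
    exact Subtype.ext (hj (mul_right_cancel h2))
  · intro y hy
    have h2 : conjInd ((V.comap π).subtype y) (j b * (z : L)) = 0 := by
      classical
      rw [conjInd, if_neg]
      intro h3
      obtain ⟨a, ha⟩ := isConj_jz hc hs b z h3
      apply hy
      have h4 : (V.comap π).subtype y ∈ V.comap π := y.2
      rw [ha] at h4
      exact ⟨⟨a * b * a⁻¹, mem_of_jz h4⟩, Subtype.ext ha.symm⟩
    rw [h2, zero_mul]
  · intro a
    have h2 : ψ (mV j π hc V (a, z)) = rs j π V ψ a * ((μ z : ℂˣ) : ℂ) := pr_eq hc ho (a, z)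
    have h3 : conjInd ((V.comap π).subtype (mV j π hc V (a, z))) (j b * (z : L)) =
        conjInd ((V.comap (π.comp j)).subtype a) b :=
      conjInd_congr (isConj_iff_jz hc hj hs a b z)
    rw [h2, h3]
    ring

theorem cen_eq (𝔐 : Ideal (integralClosure ℤ ℂ)) (hc : π.ker ≤ Subgroup.center L)
    (hj : Function.Injective j) (hs : Function.Surjective (π.comp j)) {V : Subgroup K}
    {ψ : ↥(V.comap π) → ℂ} (hψ : IsIrr ψ) (ho : OvL π.ker μ _ ψ) (b : B) (z : π.ker) :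
    cen 𝔐 (V.comap π).subtype ψ (j b * (z : L)) =
      red 𝔐 ((μ z : ℂˣ) : ℂ) * cen 𝔐 (V.comap (π.comp j)).subtype (rs j π V ψ) b := by
  rw [cen, cen, wt_eq hc hj hs ho, red_mul 𝔐 (isIntegral_unit μ z)]
  apply isIntegral_wt (rs_irr hc hs hψ ho)
  · intro g x
    exact conjInd_conj (g : B) (x : B) b
  · intro y
    exact isIntegral_conjInd _ _

theorem cen_j (𝔐 : Ideal (integralClosure ℤ ℂ)) (hc : π.ker ≤ Subgroup.center L)
    (hj : Function.Injective j) (hs : Function.Surjective (π.comp j)) {V : Subgroup K}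
    {ψ : ↥(V.comap π) → ℂ} (hψ : IsIrr ψ) (ho : OvL π.ker μ _ ψ) (b : B) :
    cen 𝔐 (V.comap π).subtype ψ (j b) =
      cen 𝔐 (V.comap (π.comp j)).subtype (rs j π V ψ) b := by
  have h1 := cen_eq 𝔐 hc hj hs hψ ho b 1
  rw [Subgroup.coe_one, mul_one, map_one, Units.val_one, red_one, one_mul] at h1
  exact h1

theorem dku_eq (𝔐 : Ideal (integralClosure ℤ ℂ)) {ℓ : ℕ} [Fact ℓ.Prime]
    (hc : π.ker ≤ Subgroup.center L) (hj : Function.Injective j)
    (hs : Function.Surjective (π.comp j))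
    (hμ : ∀ (u : (π.comp j).ker) (h : j u ∈ π.ker), μ ⟨j u, h⟩ = μB u) {d d' : ℕ}
    (hd : d + padicValNat ℓ (Nat.card (π.comp j).ker) = d' + padicValNat ℓ (Nat.card π.ker))
    (c : L → (integralClosure ℤ ℂ) ⧸ 𝔐)
    (hcr : ∀ (b : B) (z : π.ker), c (j b * (z : L)) = red 𝔐 ((μ z : ℂˣ) : ℂ) * c (j b)) :
    DKU 𝔐 ℓ d π μ ⊤ c = DKU 𝔐 ℓ d' (π.comp j) μB ⊤ (fun b => c (j b)) := by
  unfold DKU
  refine Finset.sum_congr rfl fun σ _ => ?_
  have hcard : Nat.card {ψ : ↥((stb σ).comap π) → ℂ // IsIrr ψ ∧ OvL π.ker μ _ ψ ∧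
      HasDefect ℓ ψ d ∧ ∀ g ∈ (⊤ : Subgroup K).comap π,
        cen 𝔐 ((stb σ).comap π).subtype ψ g = c g} =
      Nat.card {φ : ↥((stb σ).comap (π.comp j)) → ℂ // IsIrr φ ∧ OvL (π.comp j).ker μB _ φ ∧
      HasDefect ℓ φ d' ∧ ∀ g ∈ (⊤ : Subgroup K).comap (π.comp j),
        cen 𝔐 ((stb σ).comap (π.comp j)).subtype φ g = (fun b => c (j b)) g} := by
    refine Nat.card_congr (Equiv.ofBijective (fun ψ => ⟨rs j π (stb σ) ψ.1,
      rs_irr hc hs ψ.2.1 ψ.2.2.1, rs_ovl hμ ψ.2.2.1,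
      (defect_iff hs ψ.1 hd).mp ψ.2.2.2.1, ?_⟩) ⟨?_, ?_⟩)
    · intro b _
      rw [← cen_j 𝔐 hc hj hs ψ.2.1 ψ.2.2.1]
      exact ψ.2.2.2.2 (j b) (Subgroup.mem_top (π (j b)))
    · intro ψ ψ' h
      apply Subtype.ext
      exact rs_inj hc hs ψ.2.2.1 ψ'.2.2.1 (congrArg Subtype.val h)
    · rintro ⟨φ, h1, h2, h3, h4⟩
      obtain ⟨ψ, hψ, ho, rfl⟩ := rs_surj hc hs hμ h1 h2
      refine ⟨⟨ψ, hψ, ho, (defect_iff hs ψ hd).mpr h3, ?_⟩, rfl⟩
      intro g _
      obtain ⟨b, z, rfl⟩ := exists_jz hs g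
      rw [cen_eq 𝔐 hc hj hs hψ ho, h4 b (Subgroup.mem_top _), hcr]
  rw [hcard]

end Two

end CPR

open _root_.Pool.Agent.DPH.CPR in
theorem CPR_thm : Stmt_CPR := by
  intro B L K _ _ _ _ _ _ 𝔐 ℓ _ h𝔐 hℓ j π hj hs hc μ μB hμ
  have hex : ∀ {L' : Type} [Group L'] [Fintype L'] (π' : L' →* K) (μ' : π'.ker →* ℂˣ) (d : ℕ)
      (c : L' → (integralClosure ℤ ℂ) ⧸ 𝔐), DKU 𝔐 ℓ d π' μ' ⊤ c ≠ 0 →
      ∃ (σ : Finset (Subgroup K)) (ψ : ↥((stb σ).comap π') → ℂ), IsIrr ψ ∧
        OvL π'.ker μ' _ ψ ∧ ∀ g, cen 𝔐 ((stb σ).comap π').subtype ψ g = c g := by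
    intro L' _ _ π' μ' d c h
    obtain ⟨σ, _, hσ⟩ := Finset.exists_ne_zero_of_sum_ne_zero h
    have h1 : Nat.card {ψ : ↥((stb σ).comap π') → ℂ // IsIrr ψ ∧ OvL π'.ker μ' _ ψ ∧
        HasDefect ℓ ψ d ∧ ∀ g ∈ (⊤ : Subgroup K).comap π',
          cen 𝔐 ((stb σ).comap π').subtype ψ g = c g} ≠ 0 := by
      intro h2
      apply hσ
      rw [h2, Nat.cast_zero, mul_zero, mul_zero]
    obtain ⟨⟨ψ, h2, h3, _, h5⟩⟩ := (Nat.card_ne_zero.mp h1).1
    exact ⟨σ, ψ, h2, h3, fun g => h5 g (Subgroup.mem_top _)⟩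
  refine ⟨?_, ?_⟩
  · intro d c hd h
    obtain ⟨σ, ψ, h2, h3, h5⟩ := hex π μ d c h
    have hcr : ∀ (b : B) (z : π.ker), c (j b * (z : L)) = red 𝔐 ((μ z : ℂˣ) : ℂ) * c (j b) := by
      intro b z
      rw [← h5, ← h5, cen_eq 𝔐 hc hj hs h2 h3, cen_j 𝔐 hc hj hs h2 h3]
    refine ⟨d - padicValNat ℓ (Nat.card π.ker) + padicValNat ℓ (Nat.card (π.comp j).ker),
      fun b => c (j b), by omega, ?_⟩
    rw [← dku_eq 𝔐 hc hj hs hμ (d := d) (by omega) c hcr]
    exact h
  · intro d' c' hd h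
    obtain ⟨σ, φ, h2, h3, h5⟩ := hex (π.comp j) μB d' c' h
    obtain ⟨ψ, hψ, ho, rfl⟩ := rs_surj hc hs hμ h2 h3
    have hcr : ∀ (b : B) (z : π.ker), cen 𝔐 ((stb σ).comap π).subtype ψ (j b * (z : L)) =
        red 𝔐 ((μ z : ℂˣ) : ℂ) * cen 𝔐 ((stb σ).comap π).subtype ψ (j b) := by
      intro b z
      rw [cen_eq 𝔐 hc hj hs hψ ho, cen_j 𝔐 hc hj hs hψ ho]
    have hc' : (fun b => cen 𝔐 ((stb σ).comap π).subtype ψ (j b)) = c' := by
      ext b
      rw [cen_j 𝔐 hc hj hs hψ ho, h5]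
    refine ⟨d' - padicValNat ℓ (Nat.card (π.comp j).ker) + padicValNat ℓ (Nat.card π.ker),
      cen 𝔐 ((stb σ).comap π).subtype ψ, by omega, ?_⟩
    rw [dku_eq 𝔐 hc hj hs hμ (d' := d') (by omega) _ hcr, hc']
    exact h

end Pool.Agent.DPH


end
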