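import Mathlib
import Pool.Agent.DAM.C39

/-! Parts: DPH.STM -/

section

/-!
# STM: a central extension which belongs to the same class and whose kernel lies in the commutator
subgroup
-/

set_option autoImplicit false

namespace Pool.Agent.DPH

open Pool.Agent.DP Pool.Agent.DPC Pool.Agent.DPM Pool.Agent.DPN Pool.Agent.DPF
  Pool.Agent.Lib_helper13 Representation

namespace STM

/-- Extension of a linear character which is trivial on the commutators. -/
theorem ext_lin {V : Type} [Group V] [Finite V] (B : Subgroup V) (φ : B →* ℂˣ)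
    (hφ : ∀ b : B, (b : V) ∈ commutator V → φ b = 1) : ∃ ψ : V →* ℂˣ, ∀ b : B, ψ b = φ b := by
  classical
  let f : B →* Abelianization V := Abelianization.of.comp B.subtype
  let q : B →* f.range := f.rangeRestrict
  have hq : Function.Surjective q := f.rangeRestrict_surjective
  have hker : q.ker ≤ φ.ker := by
    intro b hb
    have h1 : f b = 1 := congrArg Subtype.val (MonoidHom.mem_ker.1 hb)
    have h2 : (b : V) ∈ (Abelianization.of : V →* Abelianization V).ker := h1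
    rw [Abelianization.ker_of] at h2
    exact hφ b h2
  obtain ⟨μ, hμ⟩ := MonoidHom.domRestrict_surjective ℂ f.range
    (MonoidHom.liftOfSurjective q hq ⟨φ, hker⟩)
  refine ⟨μ.comp Abelianization.of, fun b => ?_⟩
  have h1 := DFunLike.congr_fun hμ (q b)
  have h2 : MonoidHom.liftOfSurjective q hq ⟨φ, hker⟩ (q b) = φ b :=
    MonoidHom.liftOfRightInverse_comp_apply q _ (Function.rightInverse_surjInv hq) ⟨φ, hker⟩ b
  rw [h2] at h1
  exact h1

/-- An injective linear character of a finite group takes all roots of unity as values. -/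
theorem surj_roots {A : Type} [Group A] [Finite A] (μ : A →* ℂˣ) (hμ : Function.Injective μ)
    (v : ℂˣ) (hv : v ^ Nat.card A = 1) : ∃ t, μ t = v := by
  classical
  haveI : NeZero (Nat.card A) := ⟨Nat.card_pos.ne'⟩
  have h0 : ∀ t, μ t ∈ rootsOfUnity (Nat.card A) ℂ := by
    intro t
    rw [mem_rootsOfUnity, ← map_pow, pow_card_eq_one', map_one]
  let f : A → rootsOfUnity (Nat.card A) ℂ := fun t => ⟨μ t, h0 t⟩
  have hf : Function.Injective f := fun s t h => hμ (congrArg Subtype.val h)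
  have hc : Nat.card (rootsOfUnity (Nat.card A) ℂ) = Nat.card A :=
    Complex.card_rootsOfUnity _
  have hs : Function.Surjective f :=
    ((Nat.bijective_iff_injective_and_card f).mpr ⟨hf, hc.symm⟩).2
  obtain ⟨t, ht⟩ := hs ⟨v, (mem_rootsOfUnity _ v).mpr hv⟩
  exact ⟨t, congrArg Subtype.val ht⟩

end STM

open _root_.Pool.Agent.DPH.STM in
/-- STM: a central extension which belongs to the same class and whose kernel lies in the commutator
subgroup. -/
theorem STM_thm : Stmt_STM := by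
  classical
  intro L K _ _ _ _ π hπ hπc μ hμ
  -- the intersection with the commutator subgroup
  let A : Subgroup π.ker := (commutator L).subgroupOf π.ker
  set a : ℕ := Nat.card A with ha
  have ha0 : 0 < a := Nat.card_pos
  set m : ℕ := Nat.card L with hm
  have hm0 : 0 < m := Nat.card_pos
  set n : ℕ := a * m with hn
  haveI : NeZero n := ⟨(Nat.mul_pos ha0 hm0).ne'⟩
  obtain ⟨κ0, hκ0⟩ := ext_lin π.ker ((powMonoidHom a : ℂˣ →* ℂˣ).comp μ) (by
    intro u hu
    have h1 : (⟨u, Subgroup.mem_subgroupOf.mpr hu⟩ : A) ^ a = 1 := pow_card_eq_one'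
    have h2 : u ^ a = 1 := congrArg Subtype.val h1
    change μ u ^ a = 1
    rw [← map_pow, h2, map_one])
  have hκ0' : ∀ u : π.ker, κ0 u = μ u ^ a := hκ0
  have hμn : ∀ u : π.ker, μ u ∈ rootsOfUnity n ℂ := by
    intro u
    have h1 : (u : L) ^ m = 1 := pow_card_eq_one'
    have h2 : u ^ m = 1 := Subtype.ext h1
    rw [mem_rootsOfUnity, ← map_pow, hn, mul_comm, pow_mul, h2, one_pow, map_one]
  let μ' : π.ker →* rootsOfUnity n ℂ :=
    { toFun := fun u => ⟨μ u, hμn u⟩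
      map_one' := Subtype.ext (map_one μ)
      map_mul' := fun u v => Subtype.ext (map_mul μ u v) }
  have hμ'v : ∀ u, ((μ' u : rootsOfUnity n ℂ) : ℂˣ) = μ u := fun u => rfl
  let r : π.ker →* L × rootsOfUnity n ℂ :=
    { toFun := fun u => (u, (μ' u)⁻¹)
      map_one' := by rw [map_one, inv_one]; rfl
      map_mul' := fun u v => by
        rw [map_mul, mul_inv]
        rfl }
  have hR : r.range.Normal := by
    refine ⟨?_⟩
    rintro _ ⟨u, rfl⟩ ⟨l, w⟩
    refine ⟨u, ?_⟩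
    have h1 : l * (u : L) = u * l := Subgroup.mem_center_iff.mp (hπc u.2) l
    refine Prod.ext ?_ ?_
    · change (u : L) = l * u * l⁻¹
      rw [h1, mul_inv_cancel_right]
    · change (μ' u)⁻¹ = w * (μ' u)⁻¹ * w⁻¹
      rw [mul_comm w, mul_inv_cancel_right]
  let q : L × rootsOfUnity n ℂ →* (L × rootsOfUnity n ℂ) ⧸ r.range := QuotientGroup.mk' r.range
  have hq : Function.Surjective q := QuotientGroup.mk'_surjective r.range
  have hq1 : ∀ x, q x = 1 ↔ x ∈ r.range := fun x => QuotientGroup.eq_one_iff x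
  let i : L →* (L × rootsOfUnity n ℂ) ⧸ r.range := q.comp (MonoidHom.inl L (rootsOfUnity n ℂ))
  let j : rootsOfUnity n ℂ →* (L × rootsOfUnity n ℂ) ⧸ r.range :=
    q.comp (MonoidHom.inr L (rootsOfUnity n ℂ))
  let π1 : (L × rootsOfUnity n ℂ) ⧸ r.range →* K :=
    QuotientGroup.lift r.range (π.comp (MonoidHom.fst L (rootsOfUnity n ℂ))) (by
      rintro _ ⟨u, rfl⟩
      exact u.2)
  have hπ1 : ∀ x, π1 (q x) = π x.1 := fun x => rfl
  have hqi : ∀ l w, q (l, w) = i l * j w := by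
    intro l w
    change q (l, w) = q (l, 1) * q (1, w)
    rw [← map_mul]
    congr 1
    exact Prod.ext (mul_one l).symm (one_mul w).symm
  have hij : ∀ u : π.ker, i u = j (μ' u) := by
    intro u
    have h1 : q ((u : L), (μ' u)⁻¹) = 1 := (hq1 _).mpr ⟨u, rfl⟩
    rw [hqi, map_inv, mul_inv_eq_one] at h1
    exact h1
  have hjk : ∀ w, π1 (j w) = 1 := by
    intro w
    change π1 (q (1, w)) = 1
    rw [hπ1]
    exact map_one π
  have hik : ∀ l, π1 (i l) = π l := fun l => rfl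
  have hjinj : Function.Injective j := by
    rw [injective_iff_map_eq_one]
    intro w hw
    obtain ⟨u, hu⟩ := (hq1 (1, w)).mp hw
    have h1 : (u : L) = 1 := congrArg Prod.fst hu
    have h2 : (μ' u)⁻¹ = w := congrArg Prod.snd hu
    have h3 : u = 1 := Subtype.ext h1
    rw [← h2, h3, map_one, inv_one]
  have hjs : ∀ x, π1 x = 1 → ∃ w, j w = x := by
    intro x hx
    obtain ⟨⟨l, w⟩, rfl⟩ := hq x
    have h1 : l ∈ π.ker := hx
    refine ⟨μ' ⟨l, h1⟩ * w, ?_⟩
    rw [map_mul, ← hij, hqi]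
  have hjc : ∀ w x, x * j w = j w * x := by
    intro w x
    obtain ⟨⟨l, v⟩, rfl⟩ := hq x
    change q (l, v) * q (1, w) = q (1, w) * q (l, v)
    rw [← map_mul, ← map_mul]
    congr 1
    refine Prod.ext ?_ ?_
    · change l * 1 = 1 * l
      rw [mul_one, one_mul]
    · change v * w = w * v
      rw [mul_comm]
  let j' : rootsOfUnity n ℂ →* π1.ker :=
    { toFun := fun w => ⟨j w, hjk w⟩
      map_one' := Subtype.ext (map_one j)
      map_mul' := fun v w => Subtype.ext (map_mul j v w) }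
  have hj' : Function.Bijective j' := by
    refine ⟨fun v w h => hjinj (congrArg Subtype.val h), fun x => ?_⟩
    obtain ⟨w, hw⟩ := hjs x x.2
    exact ⟨w, Subtype.ext hw⟩
  let e : rootsOfUnity n ℂ ≃* π1.ker := MulEquiv.ofBijective j' hj'
  let μ1 : π1.ker →* ℂˣ := (rootsOfUnity n ℂ).subtype.comp e.symm.toMonoidHom
  have hμ1 : ∀ w (h : j w ∈ π1.ker), μ1 ⟨j w, h⟩ = w := by
    intro w h
    have h1 : e.symm ⟨j w, h⟩ = w := by
      rw [MulEquiv.symm_apply_eq]
      rfl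
    change ((e.symm ⟨j w, h⟩ : rootsOfUnity n ℂ) : ℂˣ) = w
    rw [h1]
  -- the linear character
  let κ : L × rootsOfUnity n ℂ →* ℂˣ :=
    κ0.comp (MonoidHom.fst L (rootsOfUnity n ℂ)) *
      ((powMonoidHom a : ℂˣ →* ℂˣ).comp (rootsOfUnity n ℂ).subtype).comp
        (MonoidHom.snd L (rootsOfUnity n ℂ))
  have hκ : ∀ l w, κ (l, w) = κ0 l * (w : ℂˣ) ^ a := fun l w => rfl
  let κ1 : (L × rootsOfUnity n ℂ) ⧸ r.range →* ℂˣ :=
    QuotientGroup.lift r.range κ (by
      rintro _ ⟨u, rfl⟩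
      change κ ((u : L), (μ' u)⁻¹) = 1
      rw [hκ, hκ0', Subgroup.coe_inv, hμ'v, inv_pow, mul_inv_cancel])
  have hκ1 : ∀ x, κ1 (q x) = κ x := fun x => rfl
  have hκj : ∀ w, κ1 (j w) = (w : ℂˣ) ^ a := by
    intro w
    change κ (1, w) = _
    rw [hκ, map_one, one_mul]
  have hdec : ∀ x, ∃ b ∈ κ1.ker, ∃ z ∈ π1.ker, x = b * z := by
    intro x
    obtain ⟨⟨l, v⟩, rfl⟩ := hq x
    obtain ⟨z, hz⟩ := IsAlgClosed.exists_pow_nat_eq ((κ0 l : ℂˣ) : ℂ) ha0
    have hz0 : z ≠ 0 := by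
      rintro rfl
      rw [zero_pow ha0.ne'] at hz
      exact (κ0 l).ne_zero hz.symm
    let w0 : ℂˣ := Units.mk0 z hz0
    have hw0 : w0 ^ a = κ0 l := by
      apply Units.ext
      rw [Units.val_pow_eq_pow_val, Units.val_mk0, hz]
    have hw0n : w0 ∈ rootsOfUnity n ℂ := by
      rw [mem_rootsOfUnity, hn, pow_mul, hw0, ← map_pow, hm, pow_card_eq_one', map_one]
    refine ⟨q (l, v) * (j (⟨w0, hw0n⟩ * v))⁻¹, ?_, j (⟨w0, hw0n⟩ * v), hjk _,
      (inv_mul_cancel_right _ _).symm⟩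
    rw [MonoidHom.mem_ker, map_mul, map_inv, hκ1, hκj, hκ, Subgroup.coe_mul, mul_pow]
    change κ0 l * (v : ℂˣ) ^ a * (w0 ^ a * (v : ℂˣ) ^ a)⁻¹ = 1
    rw [hw0, mul_inv_cancel]
  refine ⟨(L × rootsOfUnity n ℂ) ⧸ r.range, inferInstance, Fintype.ofFinite _, π1, μ1, i,
    κ1.ker, ?_, ?_, ?_, ?_, hik, ?_, hdec, ?_⟩
  · intro k
    obtain ⟨l, rfl⟩ := hπ k
    exact ⟨i l, hik l⟩
  · intro x hx
    obtain ⟨w, rfl⟩ := hjs x hx
    rw [Subgroup.mem_center_iff]
    exact hjc w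
  · intro x y h
    exact e.symm.injective (Subtype.ext h)
  · rw [injective_iff_map_eq_one]
    intro l hl
    obtain ⟨u, hu⟩ := (hq1 (l, 1)).mp hl
    have h1 : (u : L) = l := congrArg Prod.fst hu
    have h2 : (μ' u)⁻¹ = 1 := congrArg Prod.snd hu
    have h3 : μ u = 1 := congrArg Subtype.val (inv_eq_one.mp h2)
    have h4 : u = 1 := hμ (by rw [h3, map_one])
    rw [← h1, h4]
    rfl
  · intro u h
    have h1 : (⟨i u, h⟩ : π1.ker) = ⟨j (μ' u), hjk _⟩ := Subtype.ext (hij u)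
    rw [h1, hμ1]
    exact hμ'v u
  · intro x hx hx1
    obtain ⟨w, rfl⟩ := hjs x hx1
    have h1 : (w : ℂˣ) ^ a = 1 := by
      rw [← hκj]
      exact hx
    obtain ⟨t, ht⟩ := surj_roots (μ.comp A.subtype) (hμ.comp A.subtype_injective) (w : ℂˣ) h1
    have h2 : w = μ' t := Subtype.ext ht.symm
    have h3 : ((t : π.ker) : L) ∈ commutator L := Subgroup.mem_subgroupOf.mp t.2
    rw [h2, ← hij]
    have h4 : i ((t : π.ker) : L) ∈ (commutator L).map i := ⟨_, h3, rfl⟩
    rw [commutator_def, Subgroup.map_commutator] at h4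
    refine Subgroup.commutator_le.mpr ?_ h4
    intro g1 _ g2 _
    obtain ⟨b1, hb1, z1, hz1, rfl⟩ := hdec g1
    obtain ⟨b2, hb2, z2, hz2, rfl⟩ := hdec g2
    obtain ⟨w1, rfl⟩ := hjs z1 hz1
    obtain ⟨w2, rfl⟩ := hjs z2 hz2
    have h5 : b1 * j w1 * (b2 * j w2) * (b1 * j w1)⁻¹ * (b2 * j w2)⁻¹ =
        b1 * b2 * b1⁻¹ * b2⁻¹ := by
      have e1 := hjc w1
      have e2 := hjc w2
      rw [mul_inv_rev, mul_inv_rev]
      calc b1 * j w1 * (b2 * j w2) * ((j w1)⁻¹ * b1⁻¹) * ((j w2)⁻¹ * b2⁻¹)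
          = b1 * (j w1 * (b2 * j w2)) * (j w1)⁻¹ * b1⁻¹ * (j w2)⁻¹ * b2⁻¹ := by group
        _ = b1 * ((b2 * j w2) * j w1) * (j w1)⁻¹ * b1⁻¹ * (j w2)⁻¹ * b2⁻¹ := by
            rw [e1 (b2 * j w2)]
        _ = b1 * b2 * (j w2 * b1⁻¹) * (j w2)⁻¹ * b2⁻¹ := by group
        _ = b1 * b2 * (b1⁻¹ * j w2) * (j w2)⁻¹ * b2⁻¹ := by rw [e2 b1⁻¹]
        _ = _ := by group
    change b1 * j w1 * (b2 * j w2) * (b1 * j w1)⁻¹ * (b2 * j w2)⁻¹ ∈ _
    rw [h5]
    exact Subgroup.commutator_mem_commutator hb1 hb2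

end Pool.Agent.DPH


end
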