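import Mathlib
import Pool.Agent.DAM.C11
import Pool.Agent.DAM.C14
import Pool.Agent.DAM.C18
import Pool.Agent.DAM.C19
import Pool.Agent.DAM.C23
import Pool.Agent.DAM.C27
import Pool.Agent.DAM.C29
import Pool.Agent.DAM.C32
import Pool.Agent.DAM.C33
import Pool.Agent.DAM.C35
import Pool.Agent.DAM.C46
import Pool.Agent.DAM.C49
import Pool.Agent.DAM.C52
import Pool.Agent.DAM.C67
import Pool.Agent.DAM.C69
import Pool.Agent.DAM.C90

/-! Parts: DPN.TDM, DPT.TWG, DPK.TDMr, DPV.INNV, DPV.RINAV, DPW.CPA, DPW.TWOW, DPX.SSX, DPG.PST, DPG.BGA, DPG.SYT, DPG.CNB, DPG.CST, DPG.MMC, DPG.VCL -/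

section

set_option linter.unusedSectionVars false

/-!
# TDM: the twisted Moebius sums
-/

namespace Pool.Agent.DPN

open Pool.Agent.DP Pool.Agent.DPC Pool.Agent.DPM Pool.Agent.Lib_helper13 Representation
open Pool.Agent.Lib_helper13.Dade (pCore DadeHolds dadeSum)

namespace TDM

variable {L K : Type} [Group L] [Fintype L] [Group K] [Fintype K]

/-- The part of `U` in the inverse image of `V`, seen as a subgroup of the inverse image. -/
def uU (π : L →* K) (U : Subgroup L) (V : Subgroup K) : Subgroup ↥(V.comap π) :=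
  U.subgroupOf (V.comap π)

/-- The map from `uU` to `U`. -/
def toU (π : L →* K) (U : Subgroup L) (V : Subgroup K) : uU π U V →* U where
  toFun x := ⟨((x : ↥(V.comap π)) : L), Subgroup.mem_subgroupOf.mp x.2⟩
  map_one' := rfl
  map_mul' _ _ := rfl

theorem toU_inj (π : L →* K) (U : Subgroup L) (V : Subgroup K) :
    Function.Injective (toU π U V) := by
  intro x y hxy
  apply Subtype.ext
  apply Subtype.ext
  exact congrArg (fun z : U => (z : L)) hxy

theorem toU_surj {π : L →* K} {U : Subgroup L} (hU : ∀ l, π l = 1 ↔ l ∈ U) (V : Subgroup K) :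
    Function.Surjective (toU π U V) := by
  intro u
  have h1 : (u : L) ∈ V.comap π := by
    rw [Subgroup.mem_comap, (hU _).2 u.2]
    exact V.one_mem
  exact ⟨⟨⟨u, h1⟩, Subgroup.mem_subgroupOf.mpr u.2⟩, rfl⟩

theorem ovl_iff {π : L →* K} {U : Subgroup L} (μ : U →* ℂˣ) (V : Subgroup K) (S : Subgroup V)
    (ψ : ↥((S.map V.subtype).comap π) → ℂ) :
    OvL (uU π U V) (μ.comp (toU π U V)) (S.comap (TOP.pV π V)) (fun y => ψ (TOP.eqv V S y)) ↔
      OvL U μ ((S.map V.subtype).comap π) ψ := by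
  constructor
  · intro h s t hs
    have h1 := h ((TOP.eqv V S).symm s) ((TOP.eqv V S).symm t) (Subgroup.mem_subgroupOf.mpr hs)
    exact h1
  · intro h s t hs
    exact h (TOP.eqv V S s) (TOP.eqv V S t) (Subgroup.mem_subgroupOf.mp hs)

theorem count_eq {π : L →* K} {U : Subgroup L} (μ : U →* ℂˣ)
    (𝔐 : Ideal (integralClosure ℤ ℂ)) (ℓ d : ℕ) (Q : Set (L → (integralClosure ℤ ℂ) ⧸ 𝔐))
    (V : Subgroup K) (S : Subgroup V) :
    Nat.card {η : ↥(S.comap (TOP.pV π V)) → ℂ // IsIrr η ∧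
        OvL (uU π U V) (μ.comp (toU π U V)) _ η ∧ HasDefect ℓ η d ∧
        cen 𝔐 ((V.comap π).subtype.comp (S.comap (TOP.pV π V)).subtype) η ∈ Q} =
      Nat.card {η : ↥((S.map V.subtype).comap π) → ℂ // IsIrr η ∧ OvL U μ _ η ∧
        HasDefect ℓ η d ∧ cen 𝔐 ((S.map V.subtype).comap π).subtype η ∈ Q} := by
  classical
  refine card_irr_equiv (TOP.eqv V S) _ _ ?_
  intro ψ _
  rw [hasDefect_comp_equiv, ovl_iff]
  have h1 : cen 𝔐 ((V.comap π).subtype.comp (S.comap (TOP.pV π V)).subtype)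
      (fun y => ψ (TOP.eqv V S y)) = cen 𝔐 ((S.map V.subtype).comap π).subtype ψ :=
    cen_comp_equiv 𝔐 (TOP.eqv V S) ((S.map V.subtype).comap π).subtype ψ
  rw [h1]

end TDM

open _root_.Pool.Agent.DPN.TDM in
/-- TDM: the twisted Moebius sums. -/
theorem TDM_thm (h1 : Stmt_TDC) : Stmt_TDM := by
  classical
  intro L K _ _ _ _ 𝔐 ℓ _ hmax hℓ π hπ hcore hHQ U μ hUc hUk hcyc hinj d hd m hm Q
  refine all_INVU K ℓ hcore (fun V => (Nat.card V : ℚ) *
    Nat.card {η : ↥(V.comap π) → ℂ // IsIrr η ∧ OvL U μ _ η ∧ HasDefect ℓ η d ∧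
      cen 𝔐 (V.comap π).subtype η ∈ Q}) ?_ m hm
  intro V hV
  have hHV : HQ ℓ (Nat.card V) := TOP.HQ_mono (Subgroup.card_le_card_group V) hHQ
  let e : uU π U V ≃* U := MulEquiv.ofBijective (toU π U V) ⟨toU_inj π U V, toU_surj hUk V⟩
  have hcard : Nat.card (uU π U V) = Nat.card U := Nat.card_congr e.toEquiv
  have hc : uU π U V ≤ Subgroup.center ↥(V.comap π) := by
    intro x hx
    rw [Subgroup.mem_center_iff]
    intro y
    apply Subtype.ext
    exact Subgroup.mem_center_iff.1 (hUc (Subgroup.mem_subgroupOf.mp hx)) (y : L)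
  have hk : ∀ l : ↥(V.comap π), TOP.pV π V l = 1 ↔ l ∈ uU π U V := by
    intro l
    have h2 : TOP.pV π V l = 1 ↔ π (l : L) = 1 := by
      rw [Subtype.ext_iff]
      exact Iff.rfl
    rw [h2, hUk]
    exact Subgroup.mem_subgroupOf.symm
  have hcy : IsCyclic (uU π U V) := by
    have := hcyc
    exact isCyclic_of_surjective e.symm e.symm.surjective
  have h2 := h1 ↥(V.comap π) V L 𝔐 ℓ hmax hℓ (TOP.pV π V) (TOP.pV_surj hπ V) hV hHV (uU π U V)
    (μ.comp (toU π U V)) hc hk hcy (hinj.comp (toU_inj π U V)) d (by rw [hcard]; exact hd)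
    (V.comap π).subtype Q
  rw [← h2]
  refine Finset.sum_congr rfl fun σ _ => ?_
  congr 1
  have h8 : Nat.card ((stb σ).map V.subtype) = Nat.card (stb σ) :=
    Nat.card_congr ((stb σ).equivMapOfInjective _ V.subtype_injective).symm.toEquiv
  change (Nat.card ((stb σ).map V.subtype) : ℚ) * _ = _
  rw [h8, count_eq μ 𝔐 ℓ d Q V (stb σ)]

end Pool.Agent.DPN


end

section

/-!
# TWG: the weights of class functions in the twisted group
-/

set_option autoImplicit false

namespace Pool.Agent.DPT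

open Pool.Agent.DP Pool.Agent.DPC Pool.Agent.DPM Pool.Agent.DPN Pool.Agent.Lib_helper13
open Representation

open Pool.Agent.DPM.TWF in
theorem TWG_thm : Stmt_TWG := by
  classical
  intro A T K Γ L _ _ _ _ _ _ _ _ _ _ j c p hC hp θ hθ hinv e q r E U μ π h f hfc0 hfi0
  have hC' := clg hC h
  obtain ⟨f1, -, f3, f4⟩ := FIBI_thm A Γ L ⊥ e (c.comp r) q hC' θ E hθ h.Ec h.Ee
  set g : Γ → ℂ := fun γ => f (r γ) with hg
  have hfc : ∀ y x, g (y * x * y⁻¹) = g x := by
    intro y x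
    simp only [hg]
    rw [map_mul, map_mul, map_inv, hfc0]
  have hfi : ∀ x, IsIntegral ℤ (g x) := fun x => hfi0 _
  have hfz : ∀ z γ, r z = 1 → g (z * γ) = g γ := by
    intro z γ hz
    simp only [hg]
    rw [map_mul, hz, one_mul]
  have hBc : ∀ m l, fib q E (θ 1) g (m * l * m⁻¹) = fib q E (θ 1) g l := by
    intro m l
    obtain ⟨y, rfl⟩ := h.qs m
    exact f3 g hfc y l
  refine ⟨fun l => rs U h.Uc (fib q E (θ 1) g) l, ?_, ?_, ?_, ?_⟩
  · intro m l
    exact rs_conj U h.Uc _ hBc m l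
  · intro l
    show IsIntegral ℤ (rs U h.Uc (fib q E (θ 1) g) l)
    unfold rs
    split_ifs
    · exact f1 g (fun a x => hfc (e a) x) hfi l
    · exact isIntegral_zero
  · intro l hl
    show rs U h.Uc (fib q E (θ 1) g) l = 0
    unfold rs
    split_ifs
    · unfold fib
      rw [Finset.sum_eq_zero, zero_div]
      intro γ _
      split_ifs with h1
      · have h2 : g γ = 0 := by
          simp only [hg]
          apply hl
          rw [← h.πq, h1]
        rw [h2]
        ring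
      · rfl
    · rfl
  · intro V ψ η hψ hη hO hcor
    have h1 := rs_total U h.Uc μ h.inj (fib q E (θ 1) g) hBc
      (fun u l => B_mul hC h g hfz u l) (ext0 η) (fun u l => ext_eta h V η hO u l)
    have h2 := f4 (ext0 η) g
    have h3 : ∑ γ, g γ * (E γ * ext0 η (q γ)) =
        (Nat.card r.ker : ℂ) * ∑ t, f t * ext0 ψ t := by
      rw [← sum_comp_surj r h.rs (fun t => f t * ext0 ψ t)]
      refine Finset.sum_congr rfl fun γ _ => ?_
      simp only [hg]
      rw [ext_psi h V ψ η hcor γ]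
    have hE1 : E 1 = θ 1 := by rw [← h.Ee 1, map_one]
    have hψ1 : ψ 1 = E 1 * η 1 := by
      have h5 := ext_psi h V ψ η hcor 1
      rw [map_one, map_one, EVAL.ext0_one, EVAL.ext0_one] at h5
      exact h5
    have hU0 : (Nat.card U : ℂ) ≠ 0 := natCard_ne_zero
    rw [wt, wt] at h2
    simp only [map_one] at h2
    rw [h3, ← h1, card_ker hC h, EVAL.ext0_one, hE1] at h2
    rw [wt, wt, sum_ext0 (V.comap p) f ψ,
      sum_ext0 (V.comap π) (fun l => rs U h.Uc (fib q E (θ 1) g) l) η, hψ1, hE1]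
    rw [mul_div_assoc, mul_div_assoc] at h2
    exact mul_left_cancel₀ hU0 h2

end Pool.Agent.DPT


end

section

set_option linter.unusedSectionVars false

/-!
# TDM for a class of groups: the twisted Moebius sums
-/

namespace Pool.Agent.DPK

open Pool.Agent.DP Pool.Agent.DPC Pool.Agent.DPM Pool.Agent.DPN Pool.Agent.DPT Pool.Agent.DPF
open Pool.Agent.Lib_helper13
open Representation
open Pool.Agent.Lib_helper13.Dade (pCore DadeHolds dadeSum)

open Pool.Agent.DPN.TDM in
/-- TDM for a class: the twisted Moebius sums. -/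
theorem TDMr_thm (Cl : ∀ (Y : Type) [Group Y], Prop) (hC : GC Cl) (h1 : Stmt_TDCr Cl) :
    Stmt_TDMr Cl := by
  classical
  intro L K _ _ _ _ 𝔐 ℓ _ hmax hℓ π hπ hcore hCl hHQ U μ hUc hUk hcyc hinj d hd m hm Q
  refine all_INVU K ℓ hcore (fun V => (Nat.card V : ℚ) *
    Nat.card {η : ↥(V.comap π) → ℂ // IsIrr η ∧ OvL U μ _ η ∧ HasDefect ℓ η d ∧
      cen 𝔐 (V.comap π).subtype η ∈ Q}) ?_ m hm
  intro V hV
  have hHV : HR Cl ℓ (Nat.card V) := HR.mono hHQ (Subgroup.card_le_card_group V)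
  have hClV : Cl V := hC.sub hCl V
  let e : uU π U V ≃* U := MulEquiv.ofBijective (toU π U V) ⟨toU_inj π U V, toU_surj hUk V⟩
  have hcard : Nat.card (uU π U V) = Nat.card U := Nat.card_congr e.toEquiv
  have hc : uU π U V ≤ Subgroup.center ↥(V.comap π) := by
    intro x hx
    rw [Subgroup.mem_center_iff]
    intro y
    apply Subtype.ext
    exact Subgroup.mem_center_iff.1 (hUc (Subgroup.mem_subgroupOf.mp hx)) (y : L)
  have hk : ∀ l : ↥(V.comap π), TOP.pV π V l = 1 ↔ l ∈ uU π U V := by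
    intro l
    have h2 : TOP.pV π V l = 1 ↔ π (l : L) = 1 := by
      rw [Subtype.ext_iff]
      exact Iff.rfl
    rw [h2, hUk]
    exact Subgroup.mem_subgroupOf.symm
  have hcy : IsCyclic (uU π U V) := by
    have := hcyc
    exact isCyclic_of_surjective e.symm e.symm.surjective
  have h2 := h1 ↥(V.comap π) V L 𝔐 ℓ hmax hℓ (TOP.pV π V) (TOP.pV_surj hπ V) hV hClV hHV
    (uU π U V) (μ.comp (toU π U V)) hc hk hcy (hinj.comp (toU_inj π U V)) d
    (by rw [hcard]; exact hd) (V.comap π).subtype Q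
  rw [← h2]
  refine Finset.sum_congr rfl fun σ _ => ?_
  congr 1
  have h8 : Nat.card ((stb σ).map V.subtype) = Nat.card (stb σ) :=
    Nat.card_congr ((stb σ).equivMapOfInjective _ V.subtype_injective).symm.toEquiv
  change (Nat.card ((stb σ).map V.subtype) : ℚ) * _ = _
  rw [h8, count_eq μ 𝔐 ℓ d Q V (stb σ)]

end Pool.Agent.DPK


end

section

/-!
# INNV: the inner theorem (theorem V)
-/

namespace Pool.Agent.DPV

open Pool.Agent.DP Pool.Agent.Lib_helper13 Representation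
open Pool.Agent.Lib_helper13.Dade (pCore DadeHolds dadeSum)

theorem INNV_thm (h1 : Stmt_CLIFFV) (h2 : Stmt_TJV) (h3 : Stmt_COMBV) (h4 : Stmt_BLKCV) :
    Stmt_INNV := by
  intro O G B C Y K X _ _ _ _ _ _ _ _ _ _ _ _ 𝔐 ℓ _ h𝔐 hℓ ι κ ρ hL hVS j p φ hE i ω hω d
  classical
  obtain ⟨Φ, hΦ, hsupp⟩ := h1 O G B C Y K X 𝔐 ℓ h𝔐 hℓ ι κ ρ hL j p φ hE d i ω
  have h5 := CLOSEDR_thm O G B Y K ℓ ι κ j p φ hE
    (fun S => (Nat.card S : ℚ) * cnt 𝔐 ℓ d (i.comp S.subtype) ω)
  rw [h5]
  have h6 := h3 O G B C Y K 𝔐 ℓ ι κ ρ hL j p φ hE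
    (h2 O G B C Y K 𝔐 ℓ h𝔐 hℓ ι κ ρ hL hVS j p φ hE) Φ (by
      intro J d' β hne
      by_contra hcon
      push Not at hcon
      obtain ⟨τ, hτ, θ, hθ, hb, ψ, hψ, hcen, hψθ⟩ := hsupp J d' β hne
      obtain ⟨h7, h8, ψ', hψ', h9, h10⟩ := h4 O G B C Y K X 𝔐 ℓ h𝔐 hℓ ι κ ρ hL j p φ
        hE i τ hτ θ hθ ψ hψ hψθ J (fun o => by rw [hb]; exact hcon o)
      exact hω ψ' θ hψ' h7 h8 h9 (fun g => by rw [h10 g, hcen g]))
  rw [← h6]
  refine Finset.sum_congr rfl fun τ hτ => ?_
  rw [hΦ τ hτ]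

end Pool.Agent.DPV


end

section

/-!
# The centralizer of an `ℓ`-subgroup

Module RINAV: `Stmt_RINAV`.
-/

namespace Pool.Agent.DPV

open Pool.Agent.DP Pool.Agent.Lib_helper13 Representation
open Pool.Agent.Lib_helper13.Dade (pCore DadeHolds)

namespace RINAV

section

variable {G B C Ω X K : Type} [Group G] [Group B] [Group C] [Group X] [Group K]
  {ι : G →* B} {κ : B →* MulAut G} {ρ : B →* C}

theorem kap (h : ClG ι κ ρ) (g a : G) : κ (ι g) a = g * a * g⁻¹ := by
  apply h.inj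
  rw [h.act, map_mul, map_mul, map_inv]

/-- `(φ (a b))` in the coordinate `a (b w)`. -/
theorem lmul (φ : X →* Gam (Equiv.Perm Ω) Ω B) (a b : X) (w : Ω) :
    (φ (a * b)).left ((φ (a * b)).right • w) =
      (φ a).left ((φ a).right • (φ b).right • w) * (φ b).left ((φ b).right • w) := by
  rw [map_mul]
  change (φ a).left (((φ a).right * (φ b).right) • w) *
    (φ b).left ((φ a).right⁻¹ • ((φ a).right * (φ b).right) • w) = _
  rw [mul_smul, inv_smul_smul]

theorem rmul (φ : X →* Gam (Equiv.Perm Ω) Ω B) (a b : X) (w : Ω) :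
    (φ (a * b)).right • w = (φ a).right • (φ b).right • w := by
  rw [map_mul, SemidirectProduct.mul_right, mul_smul]

theorem rone (φ : X →* Gam (Equiv.Perm Ω) Ω B) (w : Ω) : (φ 1).right • w = w := by
  rw [map_one, SemidirectProduct.one_right, one_smul]

theorem lone (φ : X →* Gam (Equiv.Perm Ω) Ω B) (w : Ω) : (φ 1).left w = 1 := by
  rw [map_one, SemidirectProduct.one_left, Pi.one_apply]

/-- The centralizer of `Q` in the base group. -/
theorem cent (e : (Ω → G) →* X) (p : X →* K) (φ : X →* Gam (Equiv.Perm Ω) Ω B)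
    (h : ClG e ((wB κ Ω).comp φ) p) (Q : Subgroup X) (n : Ω → G) :
    e n ∈ Subgroup.centralizer (Q : Set X) ↔
      ∀ q ∈ Q, ∀ w, κ ((φ q).left ((φ q).right • w)) (n w) = n ((φ q).right • w) := by
  rw [Subgroup.mem_centralizer_iff]
  constructor
  · intro h1 q hq w
    have h2 : e (wB κ Ω (φ q) n) = e n := by
      have h3 := h.act q n
      rw [MonoidHom.comp_apply] at h3
      rw [h3, h1 q hq, mul_inv_cancel_right]
    have h4 := congrFun (h.inj h2) ((φ q).right • w)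
    rw [wB_apply, inv_smul_smul] at h4
    exact h4
  · intro h1 q hq
    have h2 : wB κ Ω (φ q) n = n := by
      funext o
      rw [wB_apply]
      have h3 := h1 q hq ((φ q).right⁻¹ • o)
      rw [smul_inv_smul] at h3
      exact h3
    have h3 := h.act q n
    rw [MonoidHom.comp_apply, h2] at h3
    nth_rewrite 2 [h3]
    rw [inv_mul_cancel_right]

end

end RINAV

open _root_.Pool.Agent.DPV.RINAV in
theorem RINAV_thm : Stmt_RINAV := by
  classical
  intro Ω G B C X K _ _ _ _ _ _ _ _ _ _ ℓ _ ι κ ρ hS e p φ hE Q hQ hQe hcore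
  have hcl := hS.cl
  have hE1 := hE.cl
  -- the local homomorphisms are trivial
  have key : ∀ q ∈ Q, ∀ w : Ω, (φ q).right • w = w → (φ q).left w = 1 := by
    intro q0 hq0 w hq0w
    -- the stabilizer and its image
    set P : Subgroup B :=
      { carrier := {b | ∃ q ∈ Q, (φ q).right • w = w ∧ b = (φ q).left w}
        one_mem' := ⟨1, one_mem _, rone φ w, (lone φ w).symm⟩
        mul_mem' := by
          rintro _ _ ⟨a, ha, haw, rfl⟩ ⟨b, hb, hbw, rfl⟩
          refine ⟨a * b, mul_mem ha hb, by rw [rmul, hbw, haw], ?_⟩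
          have h1 := lmul φ a b w
          rw [rmul, hbw, haw] at h1
          exact h1.symm
        inv_mem' := by
          rintro _ ⟨a, ha, haw, rfl⟩
          have h2 : (φ a⁻¹).right • w = w := by
            have h3 := rmul φ a⁻¹ a w
            rw [inv_mul_cancel, rone, haw] at h3
            exact h3.symm
          refine ⟨a⁻¹, inv_mem ha, h2, ?_⟩
          have h1 := lmul φ a⁻¹ a w
          rw [inv_mul_cancel, rone, lone, haw, h2] at h1
          exact (eq_inv_of_mul_eq_one_left h1.symm).symm } with hP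
    have hPdef : ∀ b, b ∈ P ↔ ∃ q ∈ Q, (φ q).right • w = w ∧ b = (φ q).left w := fun b => Iff.rfl
    have hpow : ∀ q : X, (φ q).right • w = w → ∀ k : ℕ,
        (φ (q ^ k)).right • w = w ∧ (φ (q ^ k)).left w = (φ q).left w ^ k := by
      intro q hq k
      induction k with
      | zero => rw [pow_zero, pow_zero]; exact ⟨rone φ w, lone φ w⟩
      | succ k ih =>
        have h1 := lmul φ (q ^ k) q w
        have h2 := rmul φ (q ^ k) q w
        rw [hq, ih.1] at h2
        rw [h2, hq, ih.1, ih.2] at h1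
        rw [pow_succ, pow_succ]
        exact ⟨h2, h1⟩
    have hPp : IsPGroup ℓ P := by
      rintro ⟨b, q, hq, hqw, rfl⟩
      obtain ⟨k, hk⟩ := hQ ⟨q, hq⟩
      refine ⟨k, ?_⟩
      apply Subtype.ext
      have h1 : q ^ ℓ ^ k = 1 := congrArg Subtype.val hk
      change (φ q).left w ^ ℓ ^ k = 1
      rw [← (hpow q hqw (ℓ ^ k)).2, h1, lone]
    -- the image in `C` is trivial
    have hPr : ∀ b ∈ P, b ∈ ι.range := by
      intro b hb
      rw [← hcl.ker]
      obtain ⟨k, hk⟩ := hPp ⟨b, hb⟩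
      have h1 : b ^ ℓ ^ k = 1 := congrArg Subtype.val hk
      have h2 : (ρ b) ^ ℓ ^ k = 1 := by rw [← map_pow, h1, map_one]
      have : Finite C := Finite.of_surjective ρ hS.surj
      have h3 : (ρ b) ^ Nat.card C = 1 := pow_card_eq_one'
      have h4 : Nat.Coprime (ℓ ^ k) (Nat.card C) :=
        Nat.Coprime.pow_left k ((Nat.Prime.coprime_iff_not_dvd Fact.out).mpr hS.cop)
      have h5 := pow_gcd_eq_one.mpr ⟨h2, h3⟩
      rw [Nat.Coprime.gcd_eq_one h4, pow_one] at h5
      exact h5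
    by_contra hne
    -- a nontrivial central element
    set P' : Subgroup G := P.comap ι with hP'
    have hP'p : IsPGroup ℓ P' := hPp.comap_of_injective ι hcl.inj
    have hmem : (φ q0).left w ∈ P := ⟨q0, hq0, hq0w, rfl⟩
    obtain ⟨g0, hg0⟩ := hPr _ hmem
    have hg0P : g0 ∈ P' := by
      rw [hP', Subgroup.mem_comap, hg0]
      exact hmem
    have hnt : Nontrivial P' := by
      refine ⟨⟨⟨g0, hg0P⟩, 1, ?_⟩⟩
      intro h
      apply hne
      have h1 : g0 = 1 := congrArg Subtype.val h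
      rw [← hg0, h1, map_one]
    have : Finite P' := inferInstance
    obtain ⟨⟨z, hz⟩, hz1⟩ := (Subgroup.nontrivial_iff_exists_ne_one _).mp
      (hP'p.center_nontrivial)
    obtain ⟨hzc, hzne⟩ := hz1
    have hzcomm : ∀ g ∈ P', g * z * g⁻¹ = z := by
      intro g hg
      have h1 := Subgroup.mem_center_iff.mp hzc ⟨g, hg⟩
      have h2 : g * z = z * g := congrArg Subtype.val h1
      rw [h2, mul_inv_cancel_right]
    -- the element of the base group
    set n : Ω → G := fun o => if h : ∃ q ∈ Q, (φ q).right • w = o then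
      κ ((φ h.choose).left o) z else 1 with hn
    have hn1 : ∀ q ∈ Q, n ((φ q).right • w) = κ ((φ q).left ((φ q).right • w)) z := by
      intro q hq
      have hex : ∃ q' ∈ Q, (φ q').right • w = (φ q).right • w := ⟨q, hq, rfl⟩
      have h0 : n ((φ q).right • w) = κ ((φ hex.choose).left ((φ q).right • w)) z := by
        rw [hn]
        exact dif_pos hex
      obtain ⟨h1, h2⟩ := hex.choose_spec
      set q' := hex.choose with hq'
      -- `s = q⁻¹ q'` fixes `w`
      have h3 : (φ (q⁻¹ * q')).right • w = w := by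
        rw [rmul, h2, ← rmul, inv_mul_cancel, rone]
      have h4 := lmul φ q (q⁻¹ * q') w
      rw [mul_inv_cancel_left, h3, h2] at h4
      have h5 : (φ (q⁻¹ * q')).left w ∈ P := ⟨q⁻¹ * q', mul_mem (inv_mem hq) h1, h3, rfl⟩
      obtain ⟨g, hg⟩ := hPr _ h5
      have h6 : g ∈ P' := by
        rw [hP', Subgroup.mem_comap, hg]
        exact h5
      rw [h0, h4, ← hg, map_mul, MulAut.mul_apply, kap hcl, hzcomm g h6]
    have hn2 : ∀ o, (¬ ∃ q ∈ Q, (φ q).right • w = o) → n o = 1 := by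
      intro o ho
      rw [hn]
      exact dif_neg ho
    have hnc : e n ∈ Subgroup.centralizer (Q : Set X) := by
      rw [cent e p φ hE1 Q n]
      intro q hq o
      by_cases ho : ∃ q' ∈ Q, (φ q').right • w = o
      · obtain ⟨q', hq', rfl⟩ := ho
        have e1 := hn1 _ (mul_mem hq hq')
        rw [lmul, rmul, map_mul, MulAut.mul_apply] at e1
        rw [hn1 q' hq', e1]
      · rw [hn2 o ho, map_one, hn2]
        rintro ⟨q', hq', h1⟩
        apply ho
        refine ⟨q⁻¹ * q', mul_mem (inv_mem hq) hq', ?_⟩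
        rw [rmul, h1, ← rmul, inv_mul_cancel, rone]
    -- it is central
    have hzmem : e n ∈ cN e.range Q := Subgroup.mem_inf.mpr ⟨⟨n, rfl⟩, hnc⟩
    have hcomm : ∀ m : Ω → G, e m ∈ Subgroup.centralizer (Q : Set X) → n * m = m * n := by
      intro m hm
      rw [cent e p φ hE1 Q m] at hm
      funext o
      rw [Pi.mul_apply, Pi.mul_apply]
      by_cases ho : ∃ q' ∈ Q, (φ q').right • w = o
      · obtain ⟨q', hq', rfl⟩ := ho
        rw [hn1 q' hq', ← hm q' hq' w, ← map_mul, ← map_mul]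
        congr 1
        -- `m w` commutes with `z`
        obtain ⟨q1, hq1, hq1w, hb⟩ := (hPdef (ι z)).mp (Subgroup.mem_comap.mp hz)
        have h1 := hm q1 hq1 w
        rw [hq1w, ← hb, kap hcl] at h1
        rw [mul_inv_eq_iff_eq_mul] at h1
        exact h1
      · rw [hn2 o ho, one_mul, mul_one]
    have hfin : e n = 1 := by
      have h1 : (⟨e n, hzmem⟩ : cN e.range Q) = 1 := by
        obtain ⟨k, hk⟩ := hP'p ⟨z, hz⟩
        have hzk : z ^ ℓ ^ k = 1 := congrArg Subtype.val hk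
        refine ZR.central_one (ℓ := ℓ) hcore _ ?_ k ?_
        · rintro ⟨x, hx⟩
          obtain ⟨⟨m, rfl⟩, hm⟩ := Subgroup.mem_inf.mp hx
          apply Subtype.ext
          change e n * e m = e m * e n
          rw [← map_mul, hcomm m hm, map_mul]
        · apply Subtype.ext
          change (e n) ^ ℓ ^ k = 1
          rw [← map_pow]
          have : n ^ ℓ ^ k = 1 := by
            funext o
            rw [Pi.pow_apply, Pi.one_apply]
            by_cases ho : ∃ q' ∈ Q, (φ q').right • w = o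
            · obtain ⟨q', hq', rfl⟩ := ho
              rw [hn1 q' hq', ← map_pow, hzk, map_one]
            · rw [hn2 o ho, one_pow]
          rw [this, map_one]
      exact congrArg Subtype.val h1
    have hn0 : n = 1 := hE1.inj (by rw [hfin, map_one])
    have h1 := hn1 1 (one_mem _)
    rw [rone, lone, hn0, Pi.one_apply, map_one, MulAut.one_apply] at h1
    apply hzne
    apply Subtype.ext
    exact h1.symm
  have key2 : ∀ q ∈ Q, ∀ q' ∈ Q, ∀ w, (φ q).right • w = (φ q').right • w →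
      (φ q).left ((φ q).right • w) = (φ q').left ((φ q').right • w) := by
    intro q hq q' hq' w h
    have h3 : (φ (q'⁻¹ * q)).right • w = w := by
      rw [rmul, h, ← rmul, inv_mul_cancel, rone]
    have h4 := lmul φ q' (q'⁻¹ * q) w
    rw [mul_inv_cancel_left, h3] at h4
    rw [h4, key _ (mul_mem (inv_mem hq') hq) w h3, mul_one]
  let S : Setoid Ω :=
    { r := fun w w' => ∃ q ∈ Q, (φ q).right • w = w'
      iseqv := by
        refine ⟨fun w => ⟨1, one_mem _, rone φ w⟩, ?_, ?_⟩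
        · rintro w _ ⟨q, hq, rfl⟩
          exact ⟨q⁻¹, inv_mem hq, by rw [← rmul, inv_mul_cancel, rone]⟩
        · rintro w _ _ ⟨q, hq, rfl⟩ ⟨q', hq', rfl⟩
          exact ⟨q' * q, mul_mem hq' hq, by rw [rmul]⟩ }
  have hSr : ∀ w w', (Quotient.mk S w = Quotient.mk S w') ↔ ∃ q ∈ Q, (φ q).right • w = w' :=
    fun w w' => Quotient.eq (r := S)
  have hex : ∀ w, ∃ q ∈ Q, (φ q).right • (Quotient.mk S w).out = w := fun w =>
    (hSr _ _).mp (Quotient.out_eq _)
  choose qq hqQ hqq using hex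
  have hu : ∀ q ∈ Q, ∀ w, (φ (qq ((φ q).right • w))).left ((φ q).right • w) =
      (φ q).left ((φ q).right • w) * (φ (qq w)).left w := by
    intro q hq w
    have h1 : Quotient.mk S ((φ q).right • w) = Quotient.mk S w := ((hSr _ _).mpr ⟨q, hq, rfl⟩).symm
    have h2 := hqq ((φ q).right • w)
    rw [h1] at h2
    have h3 := hqq w
    have h4 := key2 (qq ((φ q).right • w)) (hqQ _) (q * qq w) (mul_mem hq (hqQ _))
      (Quotient.mk S w).out (by rw [h2, rmul, h3])
    rw [h2, lmul, h3] at h4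
    exact h4
  refine ⟨Quotient S, Fintype.ofFinite _, Classical.decEq _, Quotient.mk S,
    fun w => (φ (qq w)).left w, Quotient.mk_surjective, hSr, ?_, hu, ?_⟩
  · intro o
    obtain ⟨w0, rfl⟩ := Quotient.exists_rep o
    let act : MulAction Q Ω :=
      MulAction.compHom Ω ((SemidirectProduct.rightHom.comp φ).comp Q.subtype)
    have hsm : ∀ (q : Q) (w : Ω), q • w = (φ (q : X)).right • w := fun _ _ => rfl
    obtain ⟨k, hk⟩ := hQ.card_orbit w0
    refine ⟨k, ?_⟩
    rw [← hk]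
    refine Nat.card_congr (Equiv.subtypeEquivRight ?_)
    intro w
    rw [MulAction.mem_orbit_iff, eq_comm, hSr]
    constructor
    · rintro ⟨q, hq, h⟩
      exact ⟨⟨q, hq⟩, h⟩
    · rintro ⟨q, h⟩
      exact ⟨q, q.2, h⟩
  · intro n
    rw [cent e p φ hE1 Q n]
    constructor
    · intro h
      refine ⟨fun o => (κ ((φ (qq o.out)).left o.out))⁻¹ (n o.out), ?_⟩
      funext w
      have h1 := h (qq w) (hqQ w) (Quotient.mk S w).out
      rw [hqq w] at h1
      have h2 := hu (qq w) (hqQ w) (Quotient.mk S w).out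
      rw [hqq w] at h2
      change n w = κ ((φ (qq w)).left w) _
      rw [h2, map_mul, MulAut.mul_apply, MulAut.apply_inv_self, h1]
    · rintro ⟨n', rfl⟩ q hq w
      have h1 := hu q hq w
      have h2 : Quotient.mk S ((φ q).right • w) = Quotient.mk S w :=
        ((hSr _ _).mpr ⟨q, hq, rfl⟩).symm
      change κ _ (κ ((φ (qq w)).left w) (n' (Quotient.mk S w))) =
        κ ((φ (qq ((φ q).right • w))).left ((φ q).right • w)) (n' (Quotient.mk S ((φ q).right • w)))
      rw [h1, h2, map_mul, MulAut.mul_apply]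

end Pool.Agent.DPV


end

section

/-!
# The central product of the conjugates of a subgroup
-/

namespace Pool.Agent.DPW

namespace CPA

variable {X : Type} [Group X] (K : Subgroup X)

/-- The normalizer. -/
abbrev Nz : Subgroup X := Subgroup.normalizer (K : Set X)

open Classical in
/-- Representatives. -/
noncomputable def rp (w : X ⧸ Nz K) : X := if w = ((1 : X) : X ⧸ Nz K) then 1 else w.out

theorem rp_mk (w : X ⧸ Nz K) : ((rp K w : X) : X ⧸ Nz K) = w := by
  unfold rp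
  split_ifs with h
  · exact h.symm
  · exact Quotient.out_eq' w

theorem rp_one : rp K ((1 : X) : X ⧸ Nz K) = 1 := by
  unfold rp
  rw [if_pos rfl]

theorem mk_mul_rp (y : X) (w : X ⧸ Nz K) : ((y * rp K w : X) : X ⧸ Nz K) = y • w := by
  conv_rhs => rw [← rp_mk K w]
  rfl

theorem tr_mem (y : X) (w : X ⧸ Nz K) : (rp K w)⁻¹ * y * rp K (y⁻¹ • w) ∈ Nz K := by
  rw [mul_assoc, ← QuotientGroup.eq, mk_mul_rp, rp_mk, smul_inv_smul]

/-- The action of `y` on the factor `w`. -/
noncomputable def al (y : X) (w : X ⧸ Nz K) : MulAut K :=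
  K.normalizerMonoidHom ⟨_, tr_mem K y w⟩

theorem al_coe (y : X) (w : X ⧸ Nz K) (k : K) : ((al K y w k : K) : X) =
    ((rp K w)⁻¹ * y * rp K (y⁻¹ • w)) * k * ((rp K w)⁻¹ * y * rp K (y⁻¹ • w))⁻¹ := rfl

/-- The action of `X`. -/
noncomputable def c0 (y : X) (n : X ⧸ Nz K → K) : X ⧸ Nz K → K :=
  fun w => al K y w (n (y⁻¹ • w))

theorem c0_map_mul (y : X) (n m : X ⧸ Nz K → K) : c0 K y (n * m) = c0 K y n * c0 K y m := by
  funext w
  exact map_mul (al K y w) _ _

theorem c0_one (n : X ⧸ Nz K → K) : c0 K 1 n = n := by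
  funext w
  apply Subtype.ext
  show ((al K 1 w (n ((1 : X)⁻¹ • w)) : K) : X) = n w
  have h : (1 : X)⁻¹ • w = w := by rw [inv_one, one_smul]
  rw [al_coe, h]
  group

theorem c0_mul (y z : X) (n : X ⧸ Nz K → K) : c0 K (y * z) n = c0 K y (c0 K z n) := by
  funext w
  apply Subtype.ext
  show ((al K (y * z) w (n ((y * z)⁻¹ • w)) : K) : X) =
    ((al K y w (al K z (y⁻¹ • w) (n (z⁻¹ • y⁻¹ • w))) : K) : X)
  have h : (y * z)⁻¹ • w = z⁻¹ • y⁻¹ • w := by rw [mul_inv_rev, mul_smul]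
  rw [al_coe, al_coe, al_coe, h]
  group

/-- The action of `X`. -/
noncomputable def cc : X →* MulAut (X ⧸ Nz K → K) where
  toFun y :=
    { toFun := c0 K y
      invFun := c0 K y⁻¹
      left_inv := fun n => by rw [← c0_mul, inv_mul_cancel, c0_one]
      right_inv := fun n => by rw [← c0_mul, mul_inv_cancel, c0_one]
      map_mul' := c0_map_mul K y }
  map_one' := MulEquiv.ext fun n => c0_one K n
  map_mul' y z := MulEquiv.ext fun n => c0_mul K y z n

theorem hom_ext {Ω : Type} [Fintype Ω] [DecidableEq Ω] {f g : (Ω → K) →* X}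
    (h : ∀ w k, f (Pi.mulSingle w k) = g (Pi.mulSingle w k)) : f = g :=
  MonoidHom.noncommPiCoprodEquiv.symm.injective
    (Subtype.ext (funext fun i => MonoidHom.ext fun x => h i x))

/-- The embedding of the factor `w`. -/
noncomputable def ph (w : X ⧸ Nz K) : K →* X := (MulAut.conj (rp K w)).toMonoidHom.comp K.subtype

theorem ph_apply (w : X ⧸ Nz K) (k : K) : ph K w k = rp K w * k * (rp K w)⁻¹ := rfl

theorem mem_Nz [Finite X] {x : X} (h : ∀ k ∈ K, x * k * x⁻¹ ∈ K) : x ∈ Nz K := by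
  rw [Subgroup.mem_normalizer_iff]
  have hinj : Function.Injective (fun k : K => (⟨x * k * x⁻¹, h k k.2⟩ : K)) := by
    intro a b hab
    have := congrArg Subtype.val hab
    simpa using this
  have hsur := Finite.surjective_of_injective hinj
  intro k
  refine ⟨h k, fun hk => ?_⟩
  obtain ⟨k', hk'⟩ := hsur ⟨_, hk⟩
  have := congrArg Subtype.val hk'
  simp only [mul_left_inj, mul_right_inj] at this
  rw [← this]
  exact k'.2

theorem comm_ph [Finite X] (hK : ∀ x : X, (∀ k ∈ K, x * k * x⁻¹ ∈ K) ∨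
      ∀ k ∈ K, ∀ k' ∈ K, (x * k * x⁻¹) * k' = k' * (x * k * x⁻¹)) :
    Pairwise fun w v => ∀ k k', Commute (ph K w k) (ph K v k') := by
  intro w v hwv k k'
  rcases hK ((rp K v)⁻¹ * rp K w) with h | h
  · exfalso
    apply hwv
    have h1 := mem_Nz K h
    rw [← QuotientGroup.eq, rp_mk, rp_mk] at h1
    exact h1.symm
  · have h1 := h k k.2 k' k'.2
    have h2 := congrArg (fun z => rp K v * z * (rp K v)⁻¹) h1
    show ph K w k * ph K v k' = ph K v k' * ph K w k
    rw [ph_apply, ph_apply]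
    calc rp K w * k * (rp K w)⁻¹ * (rp K v * k' * (rp K v)⁻¹) = rp K v *
          ((rp K v)⁻¹ * rp K w * k * ((rp K v)⁻¹ * rp K w)⁻¹ * k') * (rp K v)⁻¹ := by group
      _ = rp K v * (k' * ((rp K v)⁻¹ * rp K w * k * ((rp K v)⁻¹ * rp K w)⁻¹)) * (rp K v)⁻¹ := h2
      _ = _ := by group

end CPA

open _root_.Pool.Agent.DPW.CPA in
theorem CPA_thm : Stmt_CPA := by
  classical
  intro X _ _ K hK
  haveI : Fintype (X ⧸ Nz K) := Fintype.ofFinite _
  have hcomm := comm_ph K hK
  let e : (X ⧸ Nz K → K) →* X := MonoidHom.noncommPiCoprod (ph K) hcomm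
  have he : ∀ w k, e (Pi.mulSingle w k) = rp K w * k * (rp K w)⁻¹ := fun w k =>
    MonoidHom.noncommPiCoprod_mulSingle (ph K) w k
  have hs : ∀ y w (k : K), cc K y (Pi.mulSingle w k) =
      Pi.mulSingle (y • w) (al K y (y • w) k) := by
    intro y w k
    funext v
    show al K y v ((Pi.mulSingle w k : X ⧸ Nz K → K) (y⁻¹ • v)) = _
    by_cases hv : v = y • w
    · subst hv
      rw [inv_smul_smul, Pi.mulSingle_eq_same, Pi.mulSingle_eq_same]
    · rw [Pi.mulSingle_eq_of_ne hv, Pi.mulSingle_eq_of_ne, map_one]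
      intro h
      apply hv
      rw [← h, smul_inv_smul]
  have h2 : ∀ y n, e (cc K y n) = y * e n * y⁻¹ := by
    intro y n
    have : e.comp (cc K y).toMonoidHom = (MulAut.conj y).toMonoidHom.comp e := by
      apply hom_ext
      intro w k
      show e (cc K y (Pi.mulSingle w k)) = y * e (Pi.mulSingle w k) * y⁻¹
      rw [hs, he, he, al_coe, inv_smul_smul]
      group
    exact DFunLike.congr_fun this n
  have h6 : ∀ z w, (∀ k : K, (rp K w)⁻¹ * z * rp K w * k * ((rp K w)⁻¹ * z * rp K w)⁻¹ ∈ K) →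
      z⁻¹ • w = w := by
    intro z w h
    have h1 := mem_Nz K (x := (rp K w)⁻¹ * z * rp K w) fun k hk => h ⟨k, hk⟩
    rw [mul_assoc, ← QuotientGroup.eq, mk_mul_rp, rp_mk] at h1
    rw [inv_smul_eq_iff]
    exact h1
  refine ⟨X ⧸ Nz K, inferInstance, inferInstance, ((1 : X) : X ⧸ Nz K), e, cc K,
    fun y => MulAction.toPerm y⁻¹, al K, fun k => ?_, h2, fun y n w => rfl, fun y w => ?_,
    fun n m => ?_, fun z hz => ?_⟩
  · rw [he, rp_one]
    simp
  · exact ⟨_, tr_mem K y w, fun k => al_coe K y w k⟩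
  · funext w
    have hk : ∀ k : K, (rp K w)⁻¹ * e n * rp K w * k * ((rp K w)⁻¹ * e n * rp K w)⁻¹ =
        ((n w * k * (n w)⁻¹ : K) : X) := by
      intro k
      have h1 : e (n * Pi.mulSingle w k * n⁻¹) = e (Pi.mulSingle w (n w * k * (n w)⁻¹)) := by
        congr 1
        funext v
        by_cases hv : v = w
        · subst hv
          simp
        · simp [Pi.mulSingle_eq_of_ne hv]
      rw [map_mul, map_mul, map_inv, he, he] at h1
      have h3 := congrArg (fun z => (rp K w)⁻¹ * z * rp K w) h1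
      calc _ = (rp K w)⁻¹ * (e n * (rp K w * k * (rp K w)⁻¹) * (e n)⁻¹) * rp K w := by group
        _ = _ := h3
        _ = _ := by group
    have hw : (e n)⁻¹ • w = w := h6 (e n) w fun k => by
      rw [hk]
      exact SetLike.coe_mem _
    apply Subtype.ext
    show ((al K (e n) w (m ((e n)⁻¹ • w)) : K) : X) = ((n * m * n⁻¹) w : K)
    rw [al_coe, hw, hk]
    rfl
  · have hk : ∀ w (k : K), (rp K w)⁻¹ * z * rp K w * k * ((rp K w)⁻¹ * z * rp K w)⁻¹ = k := by
      intro w k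
      have h1 := hz (Pi.mulSingle w k)
      rw [he] at h1
      calc _ = (rp K w)⁻¹ * (z * (rp K w * k * (rp K w)⁻¹)) * z⁻¹ * rp K w := by group
        _ = (rp K w)⁻¹ * (rp K w * k * (rp K w)⁻¹ * z) * z⁻¹ * rp K w := by rw [h1]
        _ = _ := by group
    apply MulEquiv.ext
    intro n
    funext w
    have hw : z⁻¹ • w = w := h6 z w fun k => by
      rw [hk]
      exact SetLike.coe_mem _
    apply Subtype.ext
    show ((al K z w (n (z⁻¹ • w)) : K) : X) = (n w : K)
    rw [al_coe, hw, hk]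

end Pool.Agent.DPW


end

section

/-!
# TWOW: the stabilizers of the local characters of a block
-/

namespace Pool.Agent.DPW

open Pool.Agent.DP Pool.Agent.DPV Pool.Agent.Lib_helper13 Representation
open Pool.Agent.Lib_helper13.Dade (pCore DadeHolds dadeSum)

open Pool.Agent.DPV.TWOV in
theorem TWOW_thm (h1 : Stmt_BLW) (h2 : Stmt_DFW) (h3 : Stmt_TWW) : Stmt_TWOW := by
  intro G B C _ _ _ _ _ 𝔐 ℓ _ h𝔐 hℓ ι κ ρ hV P x₀ ψ ψ' hψ hψ' hcg hat htr
  have cl := hV.cl
  have hP := hat.card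
  have hb2 := h1 G 𝔐 ℓ h𝔐 hℓ P x₀ ψ ψ' hψ hψ' hcg hat
  have hfun : (fun g => cg 𝔐 ψ g) = fun g => cg 𝔐 ψ' g := funext hcg
  obtain ⟨-, m, hm, hm'⟩ := (h2 G 𝔐 ℓ h𝔐 hℓ ψ).2 P x₀ hat hψ
  have hat' := hat
  rw [hfun] at hat'
  obtain ⟨-, m2, hm2, hm2'⟩ := (h2 G 𝔐 ℓ h𝔐 hℓ ψ').2 P x₀ hat' hψ'
  apply Subgroup.map_mono
  intro b hb
  have hbH : b ∈ HH κ P := ⟨hb.1, fun _ => rfl⟩
  let _ : Fintype (HH κ P) := Fintype.ofFinite _
  have := PP_normal cl P
  have := NN_normal cl P
  have hle : PP ι κ P ≤ NS ι κ P := by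
    intro x hx
    rw [NS, Subgroup.mem_subgroupOf]
    exact Subgroup.map_mono (P_le_stb P) hx
  have hirr : ∀ f : G → ℂ, IrrOn (stb ({P} : Finset (Subgroup G))) f →
      IsIrr (fun n : NS ι κ P => f ((ee cl P).symm n : stb ({P} : Finset (Subgroup G)))) := by
    intro f hf
    exact hf.1.comp_mulEquiv (ee cl P).symm
  have hsy : ∀ (g : G) (hg : g ∈ stb ({P} : Finset (Subgroup G))),
      (((ee cl P).symm (ee cl P ⟨g, hg⟩) : stb ({P} : Finset (Subgroup G))) : G) = g := by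
    intro g hg
    rw [MulEquiv.symm_apply_apply]
  have hsy1 : (((ee cl P).symm 1 : stb ({P} : Finset (Subgroup G))) : G) = 1 := by
    rw [map_one]
    rfl
  have hcard : Nat.card (NS ι κ P) = Nat.card (stb ({P} : Finset (Subgroup G))) :=
    (Nat.card_congr (ee cl P).toEquiv).symm
  have htriv : ∀ f : G → ℂ, (∀ u : NS ι κ P, (u : HH κ P) ∈ PP ι κ P →
      f ((ee cl P).symm u : stb ({P} : Finset (Subgroup G))) =
        f ((ee cl P).symm 1 : stb ({P} : Finset (Subgroup G)))) ↔ ∀ u ∈ P, f u = f 1 := by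
    intro f
    constructor
    · intro h u hu
      have hus := P_le_stb P hu
      have h3 := h (ee cl P ⟨u, hus⟩) ⟨u, hu, rfl⟩
      rw [hsy, hsy1] at h3
      exact h3
    · intro h u hu
      rw [hsy1]
      apply h
      obtain ⟨s, rfl⟩ := (ee cl P).surjective u
      rw [MulEquiv.symm_apply_apply]
      obtain ⟨x, hx, hxs⟩ := hu
      have h4 : ι x = ι s := hxs
      have h5 : x = s := cl.inj h4
      rw [← h5]
      exact hx
  have hwt : ∀ a : NS ι κ P → ℂ, (∀ g x, a (g * x * g⁻¹) = a x) → (∀ x, IsIntegral ℤ (a x)) →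
      red 𝔐 (wt (fun n => ψ ((ee cl P).symm n : stb ({P} : Finset (Subgroup G)))) a) =
      red 𝔐 (wt (fun n => ψ' ((ee cl P).symm n : stb ({P} : Finset (Subgroup G)))) a) := by
    intro a ha1 ha2
    rw [wt_tr (ee cl P) ψ a, wt_tr (ee cl P) ψ' a]
    apply hb2
    · intro n hn x
      by_cases hx : x ∈ stb ({P} : Finset (Subgroup G))
      · have hx' : n * x * n⁻¹ ∈ stb ({P} : Finset (Subgroup G)) :=
          Subgroup.mul_mem _ (Subgroup.mul_mem _ hn hx) (Subgroup.inv_mem _ hn)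
        rw [ex0_mem _ a hx, ex0_mem _ a hx']
        have h3 : ee cl P ⟨n * x * n⁻¹, hx'⟩ =
            ee cl P ⟨n, hn⟩ * ee cl P ⟨x, hx⟩ * (ee cl P ⟨n, hn⟩)⁻¹ := by
          rw [← map_inv, ← map_mul, ← map_mul]
          rfl
        rw [h3, ha1]
      · have hx' : n * x * n⁻¹ ∉ stb ({P} : Finset (Subgroup G)) := by
          intro h3
          apply hx
          have h4 := Subgroup.mul_mem _ (Subgroup.mul_mem _ (Subgroup.inv_mem _ hn) h3) hn
          have h5 : n⁻¹ * (n * x * n⁻¹) * n = x := by group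
          rw [h5] at h4
          exact h4
        rw [ex0_not _ a hx, ex0_not _ a hx']
    · intro x
      by_cases hx : x ∈ stb ({P} : Finset (Subgroup G))
      · rw [ex0_mem _ a hx]
        exact ha2 _
      · rw [ex0_not _ a hx]
        exact isIntegral_zero
  have key := h3 (HH κ P) 𝔐 ℓ h𝔐 hℓ (PP ι κ P) (NS ι κ P) (by rw [card_PP cl, hP]) hle
    (fun n => ψ ((ee cl P).symm n : stb ({P} : Finset (Subgroup G))))
    (fun n => ψ' ((ee cl P).symm n : stb ({P} : Finset (Subgroup G))))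
    (hirr ψ hψ) (hirr ψ' hψ')
    ⟨m, hm, by rw [hcard, hsy1, hm']⟩ ⟨m2, hm2, by rw [hcard, hsy1, hm2']⟩
    (by
      funext g
      refine hwt _ ?_ ?_
      · intro n x
        exact conjInd_conj n x g
      · intro x
        exact isIntegral_conjInd _ _)
    ((htriv ψ).trans (htr.trans (htriv ψ').symm)) ⟨b, hbH⟩
    (by
      intro x y hxy
      obtain ⟨s, rfl⟩ := (ee cl P).surjective x
      obtain ⟨t, rfl⟩ := (ee cl P).surjective y
      rw [MulEquiv.symm_apply_apply, MulEquiv.symm_apply_apply]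
      have h3 := congrArg (fun z : HH κ P => (z : B)) hxy
      have h4 : ι (t : G) = b * ι (s : G) * b⁻¹ := h3
      rw [← cl.act] at h4
      rw [cl.inj h4]
      exact hb.2 _)
  refine ⟨hb.1, fun g => ?_⟩
  by_cases hg : g ∈ stb ({P} : Finset (Subgroup G))
  · have hg' := (stb_kap hbH g).mpr hg
    have h3 := key (ee cl P ⟨g, hg⟩) (ee cl P ⟨κ b g, hg'⟩) (by
      apply Subtype.ext
      exact cl.act b g)
    rw [hsy, hsy] at h3
    exact h3
  · have hg' : κ b g ∉ stb ({P} : Finset (Subgroup G)) := fun h => hg ((stb_kap hbH g).mp h)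
    rw [hψ'.2 _ hg, hψ'.2 _ hg']

end Pool.Agent.DPW


end

section

/-!
# SSX: a primitive central idempotent all of whose operators are traces belongs to a matrix
algebra
-/

set_option autoImplicit false

namespace Pool.Agent.DPX

open Pool.Agent.DPB Pool.Agent.DPW Representation

namespace SSX

section Alg

variable {F S : Type} [Field F] [Group S] [Fintype S]

theorem cvF_sub (a b c : S → F) : cvF a (b - c) = cvF a b - cvF a c := by
  funext x
  simp only [cvF, Pi.sub_apply, mul_sub, Finset.sum_sub_distrib]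

theorem cvF_smul (a b : S → F) (t : F) : cvF a (t • b) = t • cvF a b := by
  funext x
  simp only [cvF, Pi.smul_apply, smul_eq_mul, Finset.mul_sum]
  refine Finset.sum_congr rfl fun y _ => ?_
  ring

theorem cvF_sum {ι : Type} (s : Finset ι) (a : S → F) (f : ι → S → F) :
    cvF a (∑ i ∈ s, f i) = ∑ i ∈ s, cvF a (f i) := by
  classical
  induction s using Finset.induction_on with
  | empty => rw [Finset.sum_empty, Finset.sum_empty, PRMX.cvF_zero]
  | insert i s hi ih => rw [Finset.sum_insert hi, Finset.sum_insert hi, PRMX.cvF_add, ih]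

theorem zero_cvF (a : S → F) : cvF (0 : S → F) a = 0 := by
  funext x
  simp [cvF]

theorem sum_cvF {ι : Type} (s : Finset ι) (a : S → F) (f : ι → S → F) :
    cvF (∑ i ∈ s, f i) a = ∑ i ∈ s, cvF (f i) a := by
  classical
  induction s using Finset.induction_on with
  | empty => rw [Finset.sum_empty, Finset.sum_empty, zero_cvF]
  | insert i s hi ih => rw [Finset.sum_insert hi, Finset.sum_insert hi, PRMX.add_cvF, ih]

open Classical in
theorem one_cvF (a : S → F) : cvF (Pi.single 1 1) a = a := by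
  rw [← PRMX.cvF_comm a PRMX.one_mem, PRMX.cvF_one]

end Alg

section Ops

variable {F S V W : Type} [Field F] [Group S] [Fintype S] [AddCommGroup V] [Module F V]
  [AddCommGroup W] [Module F W]

/-- The operators commute with the homomorphisms. -/
theorem zop_eqv {ρ : Representation F S V} {σ : Representation F S W} {j : V →ₗ[F] W}
    (hj : Eqv ρ σ j) (a : S → F) (v : V) : j (Zop ρ a v) = Zop σ a (j v) := by
  unfold Zop
  rw [LinearMap.sum_apply, LinearMap.sum_apply, map_sum]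
  refine Finset.sum_congr rfl fun g _ => ?_
  rw [LinearMap.smul_apply, LinearMap.smul_apply, map_smul, hj]

theorem zop_sub (ρ : Representation F S V) (a b : S → F) :
    Zop ρ (a - b) = Zop ρ a - Zop ρ b := (UNSX.zl ρ).map_sub a b

theorem zop_smul (ρ : Representation F S V) (t : F) (a : S → F) :
    Zop ρ (t • a) = t • Zop ρ a := (UNSX.zl ρ).map_smul t a

theorem zop_sum {ι : Type} (s : Finset ι) (ρ : Representation F S V) (f : ι → S → F) :
    Zop ρ (∑ i ∈ s, f i) = ∑ i ∈ s, Zop ρ (f i) := map_sum (UNSX.zl ρ) f s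

end Ops

section Kill

variable {F S : Type} [Field F] [Group S] [Fintype S]

/-- An element of the ideal of `e` which annihilates the irreducible representations annihilates
all the representations. -/
theorem kill {e a : S → F} (he : e ∈ CF F S) (hea : cvF e a = a)
    (hproj : ∀ (V : Type) [AddCommGroup V] [Module F V] [Module.Finite F V]
      (σ : Representation F S V), ∃ g : V →ₗ[F] V, tr1 σ σ g = Zop σ e)
    (hirr : ∀ (n : ℕ) (σ : Representation F S (Fin n → F)), σ.IsIrreducible → Zop σ a = 0) :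
    ∀ (d : ℕ) (V : Type) [AddCommGroup V] [Module F V] [Module.Finite F V]
      (σ : Representation F S V), Module.finrank F V ≤ d → Zop σ a = 0 := by
  intro d
  induction d with
  | zero =>
    intro V _ _ _ σ hd
    have h0 : Subsingleton V := Module.finrank_zero_iff.1 (Nat.le_zero.1 hd)
    exact LinearMap.ext fun v => Subsingleton.elim _ _
  | succ d ih =>
    intro V _ _ _ σ hd
    by_cases hbt : (⊤ : Submodule F V) = ⊥
    · apply LinearMap.ext
      intro v
      have h1 : ∀ w : V, w = 0 := by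
        intro w
        have h2 : w ∈ (⊤ : Submodule F V) := Submodule.mem_top
        rw [hbt] at h2
        exact (Submodule.mem_bot F).1 h2
      rw [h1 (Zop σ a v), h1 ((0 : Module.End F V) v)]
    · obtain ⟨n, τ, j, hτ, hj, -, hinj⟩ := KD.exists_irr σ _ (⊤ : Submodule F V) le_rfl hbt
        (fun _ _ _ => Submodule.mem_top)
      have hje : Eqv τ σ j := hj
      obtain ⟨U, hU⟩ : ∃ U : Submodule F V, U = LinearMap.range j := ⟨_, rfl⟩
      have hUs : ∀ g, ∀ v ∈ U, σ g v ∈ U := by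
        intro g v hv
        rw [hU] at hv ⊢
        obtain ⟨w, rfl⟩ := hv
        exact ⟨τ g w, hj g w⟩
      have hntτ := UNSX.nontrivial_of_irr τ hτ
      have hUb : U ≠ ⊥ := by
        rw [hU]
        intro h
        obtain ⟨w, hw⟩ := exists_ne (0 : Fin n → F)
        apply hw
        apply hinj
        rw [map_zero]
        have h2 : j w ∈ LinearMap.range j := ⟨w, rfl⟩
        rw [h] at h2
        exact (Submodule.mem_bot F).1 h2
      have hlt : Module.finrank F (V ⧸ U) ≤ d := by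
        have h1 := Submodule.finrank_quotient_add_finrank U
        have h2 : 0 < Module.finrank F U := by
          rw [Module.finrank_pos_iff]
          exact Submodule.nontrivial_iff_ne_bot.2 hUb
        omega
      let σq : Representation F S (V ⧸ U) :=
        { toFun := fun g => U.mapQ U (σ g) (fun v hv => hUs g v hv)
          map_one' := by
            ext v
            simp
          map_mul' := by
            intro g h
            ext v
            simp }
      have hq : Eqv σ σq U.mkQ := fun g v => rfl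
      have hqa : Zop σq a = 0 := ih (V ⧸ U) σq hlt
      obtain ⟨g, hg⟩ := hproj (V ⧸ U) σq
      obtain ⟨s0, hs0⟩ := LinearMap.exists_rightInverse_of_surjective U.mkQ
        (LinearMap.range_eq_top.2 U.mkQ_surjective)
      obtain ⟨s, hs⟩ : ∃ s : (V ⧸ U) →ₗ[F] V, s = tr1 σq σ (s0 ∘ₗ g) := ⟨_, rfl⟩
      have hse : Eqv σq σ s := by
        rw [hs]
        exact KAHX.eqv_tr1 _ _ _
      have hqs : U.mkQ ∘ₗ s = Zop σq e := by
        rw [hs, KAHX.comp_tr1 hq, ← LinearMap.comp_assoc, hs0, LinearMap.id_comp, hg]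
      apply LinearMap.ext
      intro v
      have h1 : Zop σ e v - s (U.mkQ v) ∈ U := by
        rw [← Submodule.Quotient.mk_eq_zero, ← Submodule.mkQ_apply, map_sub,
          zop_eqv hq, sub_eq_zero]
        exact (LinearMap.congr_fun hqs (U.mkQ v)).symm
      have h1' : Zop σ e v - s (U.mkQ v) ∈ LinearMap.range j := hU.le h1
      obtain ⟨w, hw⟩ := h1'
      have h2 : Zop σ a (j w) = 0 := by
        rw [← zop_eqv hje, hirr n τ hτ, LinearMap.zero_apply, map_zero]
      rw [hw, map_sub, ← zop_eqv hse, hqa, LinearMap.zero_apply, map_zero, sub_zero] at h2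
      have h3 : Zop σ a = Zop σ a * Zop σ e := by
        rw [← RPRB.zop_cvF, PRMX.cvF_comm a he, hea]
      rw [h3]
      exact h2

/-- The regular representation is faithful. -/
theorem reg_faithful (a : S → F)
    (h : ∀ (σ : Representation F S (S → F)), Zop σ a = 0) : a = 0 := by
  classical
  let ρ : Representation F S (S → F) :=
    { toFun := fun g =>
        { toFun := fun f x => f (g⁻¹ * x)
          map_add' := fun _ _ => rfl
          map_smul' := fun _ _ => rfl }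
      map_one' := by
        apply LinearMap.ext
        intro f
        funext x
        change f (1⁻¹ * x) = f x
        rw [inv_one, one_mul]
      map_mul' := by
        intro g h
        apply LinearMap.ext
        intro f
        funext x
        change f ((g * h)⁻¹ * x) = f (h⁻¹ * (g⁻¹ * x))
        rw [mul_inv_rev, mul_assoc] }
  have hρ : ∀ g f x, ρ g f x = f (g⁻¹ * x) := fun _ _ _ => rfl
  funext g
  have h1 := congrFun (LinearMap.congr_fun (h ρ) (Pi.single 1 1)) g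
  unfold Zop at h1
  rw [LinearMap.sum_apply, Finset.sum_apply, Finset.sum_eq_single g] at h1
  · rw [LinearMap.smul_apply, Pi.smul_apply, hρ, inv_mul_cancel, Pi.single_eq_same,
      smul_eq_mul, mul_one] at h1
    exact h1
  · intro x _ hx
    have h2 : x⁻¹ * g ≠ 1 := by
      intro h3
      exact hx (inv_mul_eq_one.1 h3)
    rw [LinearMap.smul_apply, Pi.smul_apply, hρ, Pi.single_eq_of_ne h2, smul_zero]
  · intro h
    exact absurd (Finset.mem_univ g) h

/-- An element of the ideal of `e` which annihilates the irreducible representations is zero. -/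
theorem eq_zero {e a : S → F} (he : e ∈ CF F S) (hea : cvF e a = a)
    (hproj : ∀ (V : Type) [AddCommGroup V] [Module F V] [Module.Finite F V]
      (σ : Representation F S V), ∃ g : V →ₗ[F] V, tr1 σ σ g = Zop σ e)
    (hirr : ∀ (n : ℕ) (σ : Representation F S (Fin n → F)), σ.IsIrreducible → Zop σ a = 0) :
    a = 0 :=
  reg_faithful a fun σ => kill he hea hproj hirr _ _ σ le_rfl

end Kill

section Uniq

variable {F S : Type} [Field F] [IsAlgClosed F] [Group S] [Fintype S]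

/-- Scalar operators depend only on the trace function. -/
theorem scal_of_char {V W : Type} [AddCommGroup V] [Module F V] [Module.Finite F V]
    [AddCommGroup W] [Module F W] [Module.Finite F W] (ρ : Representation F S V)
    (σ : Representation F S W) (hρ : ρ.IsIrreducible) (hσ : σ.IsIrreducible)
    (hc : ρ.character = σ.character) (x : S → F) (c : F)
    (hx : Zop ρ x = c • (1 : Module.End F V)) : Zop σ x = c • (1 : Module.End F W) := by
  obtain ⟨f, hf⟩ := BRU_thm DEN_thm F S V W ρ σ hρ hσ hc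
  have hfe : Eqv ρ σ f.toLinearMap := fun g v => hf g v
  apply LinearMap.ext
  intro w
  obtain ⟨v, rfl⟩ := f.surjective w
  have h1 := zop_eqv hfe x v
  rw [hx] at h1
  have h2 : Zop σ x (f v) = f ((c • (1 : Module.End F V)) v) := h1.symm
  rw [h2, LinearMap.smul_apply, LinearMap.smul_apply, map_smul]
  rfl

theorem scal_e {V : Type} [AddCommGroup V] [Module F V] [Module.Finite F V] {e : S → F}
    (he : e ∈ CF F S) (hi : cvF e e = e) (ρ : Representation F S V) (hρ : ρ.IsIrreducible) :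
    Zop ρ e = 1 ∨ Zop ρ e = 0 := by
  obtain ⟨-, h1⟩ := BRE_thm DEN_thm F S V ρ hρ
  obtain ⟨μ, hμ, -⟩ := h1 e he
  have hnt := UNSX.nontrivial_of_irr ρ hρ
  obtain ⟨v, hv⟩ := exists_ne (0 : V)
  have h2 : Zop ρ e * Zop ρ e = Zop ρ e := by
    rw [← RPRB.zop_cvF, hi]
  rw [hμ] at h2
  have h3 := LinearMap.congr_fun h2 v
  have h4 : μ • μ • v = μ • v := h3
  rw [smul_smul] at h4
  have h5 : (μ * μ - μ) • v = 0 := by rw [sub_smul, h4, sub_self]
  rcases smul_eq_zero.1 h5 with h6 | h6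
  · have h7 : μ * (μ - 1) = 0 := by
      rw [mul_sub, mul_one]
      exact h6
    rcases mul_eq_zero.1 h7 with h8 | h8
    · right
      rw [hμ, h8, zero_smul]
    · left
      rw [hμ, sub_eq_zero.1 h8, one_smul]
  · exact absurd h6 hv

theorem uniq {e : S → F} (he : Prm e)
    (hproj : ∀ (V : Type) [AddCommGroup V] [Module F V] [Module.Finite F V]
      (σ : Representation F S V), ∃ g : V →ₗ[F] V, tr1 σ σ g = Zop σ e)
    (φ₀ φ₁ : {φ : S → F // IsBr F φ}) (h0 : Lz e φ₀ = φ₀) (h1 : Lz e φ₁ = φ₁) :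
    φ₀ = φ₁ := by
  classical
  obtain ⟨hcf, hid, hne, hprim⟩ := he
  have hfin : Finite {φ : S → F // IsBr F φ} := (BRL_thm DEN_thm F S).finite
  have hft : Fintype {φ : S → F // IsBr F φ} := Fintype.ofFinite _
  choose n ρ hρ using fun φ : {φ : S → F // IsBr F φ} => φ.2
  by_contra hcon
  obtain ⟨z0, hz0⟩ := DEN_thm F S {φ : S → F // IsBr F φ} (fun φ => Fin (n φ) → F)
    (fun φ => ρ φ) (fun φ => (hρ φ).1)
    (fun j k hjk f hf => BRL.eqv_eq_zero (ρ j) (ρ k) (hρ j).1 (hρ k).1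
      (by
        rw [(hρ j).2, (hρ k).2]
        intro h
        exact hjk (Subtype.ext h)) f hf)
    (fun φ => if φ = φ₀ then 1 else 0)
  obtain ⟨z, hz⟩ : ∃ z, z = cvF e z0 := ⟨_, rfl⟩
  have hez : cvF e z = z := by
    rw [hz, ← PRMX.cvF_assoc, hid]
  have he1 : ∀ φ : {φ : S → F // IsBr F φ}, Lz e φ = φ → Zop (ρ φ) e = 1 := by
    intro φ hφ
    apply (UNSX.fix_iff (ρ φ) (hρ φ).1 e hcf).1
    rw [(hρ φ).2]
    exact hφ
  have hzφ : ∀ φ, Zop (ρ φ) z = (if φ = φ₀ then (1 : F) else 0) • (1 : Module.End F _) := by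
    intro φ
    rw [hz, RPRB.zop_cvF, hz0 φ]
    split_ifs with h
    · subst h
      rw [he1 _ h0, one_smul, one_mul]
    · rw [mul_zero, zero_smul]
  have hzσ : ∀ (k : ℕ) (σ : Representation F S (Fin k → F)), σ.IsIrreducible →
      ∃ c : F, c * c = c ∧ Zop σ z = c • (1 : Module.End F (Fin k → F)) := by
    intro k σ hσ
    refine ⟨if (⟨σ.character, k, σ, hσ, rfl⟩ : {φ : S → F // IsBr F φ}) = φ₀ then (1 : F) else 0,
      ?_, ?_⟩
    · split_ifs
      · rw [one_mul]
      · rw [zero_mul]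
    · exact scal_of_char (ρ ⟨σ.character, k, σ, hσ, rfl⟩) σ (hρ _).1 hσ (hρ _).2 z _ (hzφ _)
  -- `z` is central
  have hzc : z ∈ CF F S := by
    intro g x
    have h2 : cvF z (Pi.single g 1) - cvF (Pi.single g 1) z = 0 := by
      refine eq_zero hcf ?_ hproj ?_
      · rw [cvF_sub, ← PRMX.cvF_assoc, ← PRMX.cvF_assoc, hez,
          ← PRMX.cvF_comm (Pi.single g 1) hcf, PRMX.cvF_assoc, hez]
      · intro k σ hσ
        obtain ⟨c, -, hc⟩ := hzσ k σ hσ
        rw [zop_sub, RPRB.zop_cvF, RPRB.zop_cvF, hc, smul_mul_assoc, mul_smul_comm, one_mul,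
          mul_one, sub_self]
    have h3 := congrFun (sub_eq_zero.1 h2) (g * x)
    unfold cvF at h3
    rw [Finset.sum_eq_single (g * x * g⁻¹), Finset.sum_eq_single g] at h3
    · have h4 : (g * x * g⁻¹)⁻¹ * (g * x) = g := by group
      rw [h4, inv_mul_cancel_left, Pi.single_eq_same, mul_one, one_mul] at h3
      exact h3
    · intro y _ hy
      rw [Pi.single_eq_of_ne hy, zero_mul]
    · intro h
      exact absurd (Finset.mem_univ _) h
    · intro y _ hy
      rw [Pi.single_eq_of_ne, mul_zero]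
      intro h
      apply hy
      rw [inv_mul_eq_iff_eq_mul] at h
      rw [h, mul_inv_cancel_right]
    · intro h
      exact absurd (Finset.mem_univ _) h
  -- `z` is an idempotent
  have hzi : cvF z z = z := by
    rw [← sub_eq_zero]
    refine eq_zero hcf ?_ hproj ?_
    · rw [cvF_sub, ← PRMX.cvF_assoc, hez]
    · intro k σ hσ
      obtain ⟨c, hcc, hc⟩ := hzσ k σ hσ
      rw [zop_sub, RPRB.zop_cvF, hc, smul_mul_assoc, one_mul, smul_smul, hcc, sub_self]
  rcases hprim z hzc hzi hez with h2 | h2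
  · have h3 := hzφ φ₀
    rw [h2, UNSX.zop_zero, if_pos rfl, one_smul] at h3
    have hnt := UNSX.nontrivial_of_irr (ρ φ₀) (hρ φ₀).1
    exact zero_ne_one h3
  · have h3 := hzφ φ₁
    rw [h2, he1 _ h1, if_neg (fun h => hcon h.symm), zero_smul] at h3
    have hnt := UNSX.nontrivial_of_irr (ρ φ₁) (hρ φ₁).1
    exact one_ne_zero h3

end Uniq

end SSX

open _root_.Pool.Agent.DPX.SSX in
/-- SSX. -/
theorem SSX_thm (h1 : Stmt_MATX) : Stmt_SSX := by
  classical
  intro F S _ _ _ _ e he hproj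
  have he' := he
  obtain ⟨hcf, hid, hne, hprim⟩ := he'
  obtain ⟨n, σ, hσ, hσe⟩ := UNSX.exists_irr hcf hid hne
  have hfix : Lz e σ.character = σ.character := (UNSX.fix_iff σ hσ e hcf).2 hσe
  have hcard : Nat.card {φ : S → F // IsBr F φ ∧ Lz e φ = φ} = 1 := by
    rw [Nat.card_eq_one_iff_unique]
    constructor
    · constructor
      rintro ⟨φ, hφ, hφ'⟩ ⟨ψ, hψ, hψ'⟩
      have h2 := uniq he hproj ⟨φ, hφ⟩ ⟨ψ, hψ⟩ hφ' hψ'
      apply Subtype.ext
      show φ = ψ
      exact Subtype.mk.inj h2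
    · exact ⟨⟨σ.character, ⟨n, σ, hσ, rfl⟩, hfix⟩⟩
  obtain ⟨m, E, b, K, hmu, hon, hact, -⟩ :=
    h1 F S (Fin n → F) e hcf hid σ hσ hσe hcard
  have h0 : cvp (0 : S → F) 0 = Pi.single 1 1 := by
    funext x
    unfold cvp
    by_cases hx : x = 1
    · subst hx
      rw [Pi.single_eq_same]
    · rw [Pi.single_eq_of_ne hx]
  have heE : ∀ i j, cvF e (E i j) = E i j := by
    intro i j
    rw [← hon, sum_cvF, Finset.sum_eq_single i]
    · rw [hmu, if_pos rfl]
    · intro k _ hk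
      rw [hmu, if_neg hk]
    · intro h
      exact absurd (Finset.mem_univ i) h
  refine ⟨m, E, ⟨hmu, hon, Submodule.zero_mem _, PRMX.cvF_zero e, ?_, ?_, ?_⟩⟩
  · intro a
    refine ⟨fun _ i j => b.repr (Zop σ a (b j)) i, ?_⟩
    rw [Finset.sum_range_one, h0]
    simp only [one_cvF]
    rw [← sub_eq_zero]
    refine eq_zero hcf ?_ hproj ?_
    · rw [cvF_sub, ← PRMX.cvF_assoc, hid, cvF_sum]
      congr 1
      refine Finset.sum_congr rfl fun i _ => ?_
      rw [cvF_sum]
      refine Finset.sum_congr rfl fun j _ => ?_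
      rw [cvF_smul, heE]
    · intro k τ hτ
      obtain ⟨d, hd⟩ : ∃ d, d = cvF e a -
        ∑ i, ∑ j, (b.repr (Zop σ a (b j)) i) • E i j := ⟨_, rfl⟩
      rw [← hd]
      have hed : cvF e d = d := by
        rw [hd, cvF_sub, ← PRMX.cvF_assoc, hid, cvF_sum]
        congr 1
        refine Finset.sum_congr rfl fun i _ => ?_
        rw [cvF_sum]
        refine Finset.sum_congr rfl fun j _ => ?_
        rw [cvF_smul, heE]
      rcases scal_e hcf hid τ hτ with h2 | h2
      · have h3 : σ.character = τ.character := by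
          have h4 := uniq he hproj ⟨σ.character, n, σ, hσ, rfl⟩ ⟨τ.character, k, τ, hτ, rfl⟩
            hfix ((UNSX.fix_iff τ hτ e hcf).2 h2)
          exact congrArg Subtype.val h4
        have h5 : Zop σ d = 0 := by
          apply b.ext
          intro l
          rw [hd, zop_sub, RPRB.zop_cvF, hσe, one_mul, LinearMap.sub_apply, zop_sum,
            LinearMap.sum_apply, LinearMap.zero_apply, sub_eq_zero]
          refine (b.sum_repr (Zop σ a (b l))).symm.trans ?_
          refine Finset.sum_congr rfl fun i _ => ?_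
          rw [zop_sum, LinearMap.sum_apply, Finset.sum_eq_single l]
          · rw [zop_smul, LinearMap.smul_apply, hact, if_pos rfl]
          · intro j _ hj
            rw [zop_smul, LinearMap.smul_apply, hact, if_neg hj, smul_zero]
          · intro h
            exact absurd (Finset.mem_univ l) h
        have h6 := scal_of_char σ τ hσ hτ h3 d 0 (by rw [h5, zero_smul])
        rw [h6, zero_smul]
      · rw [← hed, RPRB.zop_cvF, h2, zero_mul]
  · have h2 : cvp (0 : S → F) 1 = 0 := PRMX.cvF_zero _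
    rw [h2, PRMX.cvF_zero]
  · intro k hk
    have hk0 : k = 0 := by omega
    subst hk0
    rw [h0, PRMX.cvF_one]
    exact hne

end Pool.Agent.DPX


end

section

/-!
# PST: passage to the orbits of a Sylow subgroup
-/

namespace Pool.Agent.DPG

open Pool.Agent.DP Pool.Agent.DPC Pool.Agent.DPM Pool.Agent.DPN Pool.Agent.DPF
  Pool.Agent.Lib_helper13 Representation
open Pool.Agent.Lib_helper13.Dade (pCore DadeHolds dadeSum)

namespace PST

/-! ### Cocycles -/

theorem inv_app {G Ω : Type} [Group G] (a : G →* Equiv.Perm Ω) (g : G) (o : Ω) :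
    a g⁻¹ (a g o) = o := by
  rw [← Equiv.Perm.mul_apply, ← map_mul, inv_mul_cancel, map_one, Equiv.Perm.one_apply]

theorem app_inv {G Ω : Type} [Group G] (a : G →* Equiv.Perm Ω) (g : G) (o : Ω) :
    a g (a g⁻¹ o) = o := by
  rw [← Equiv.Perm.mul_apply, ← map_mul, mul_inv_cancel, map_one, Equiv.Perm.one_apply]

/-- A cocycle which is constant on the classes of an invariant equivalence relation gives a
homomorphism to the wreath product. -/
theorem descent {G Ω B : Type} [Group G] [Group B] (a : G →* Equiv.Perm Ω) (c : G → Ω → B)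
    (hc : ∀ g h o, c (g * h) o = c g (a h o) * c h o) (r : Setoid Ω)
    (hr : ∀ g o o', r o o' → r (a g o) (a g o')) (hcr : ∀ g o o', r o o' → c g o = c g o') :
    ∃ ψ' : G →* Gam (Equiv.Perm (Quotient r)) (Quotient r) B,
      (∀ g o, (ψ' g).right (Quotient.mk r o) = Quotient.mk r (a g o)) ∧
      ∀ g o, (ψ' g).left (Quotient.mk r (a g o)) = c g o := by
  have h1 : ∀ o, c 1 o = 1 := by
    intro o
    have h := hc 1 1 o
    rw [mul_one, map_one] at h
    simpa using h
  let p : G → Equiv.Perm (Quotient r) := fun g =>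
    { toFun := Quotient.map (a g) (fun o o' h => hr g o o' h)
      invFun := Quotient.map (a g⁻¹) (fun o o' h => hr g⁻¹ o o' h)
      left_inv := by
        intro q
        induction q using Quotient.inductionOn with
        | h o =>
          rw [Quotient.map_mk, Quotient.map_mk, inv_app]
      right_inv := by
        intro q
        induction q using Quotient.inductionOn with
        | h o =>
          rw [Quotient.map_mk, Quotient.map_mk, app_inv] }
  have hp : ∀ g o, p g (Quotient.mk r o) = Quotient.mk r (a g o) := fun g o => rfl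
  have hp' : ∀ g o, (p g)⁻¹ (Quotient.mk r o) = Quotient.mk r (a g⁻¹ o) := fun g o => rfl
  let le : G → Quotient r → B := fun g =>
    Quotient.lift (fun o => c g (a g⁻¹ o)) (fun o o' h => hcr g _ _ (hr g⁻¹ o o' h))
  have hl : ∀ g o, le g (Quotient.mk r o) = c g (a g⁻¹ o) := fun g o => rfl
  refine ⟨{ toFun := fun g => ⟨le g, p g⟩, map_one' := ?_, map_mul' := ?_ }, ?_, ?_⟩
  · apply SemidirectProduct.ext
    · funext q
      induction q using Quotient.inductionOn with
      | h o => exact h1 _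
    · ext q
      induction q using Quotient.inductionOn with
      | h o =>
        change p 1 (Quotient.mk r o) = _
        rw [hp, map_one]
        rfl
  · intro g h
    apply SemidirectProduct.ext
    · funext q
      induction q using Quotient.inductionOn with
      | h o =>
        change le (g * h) (Quotient.mk r o) =
          le g (Quotient.mk r o) * le h ((p g)⁻¹ (Quotient.mk r o))
        rw [hp', hl, hl, hl, hc, mul_inv_rev, map_mul, Equiv.Perm.mul_apply, app_inv]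
    · ext q
      induction q using Quotient.inductionOn with
      | h o =>
        change p (g * h) (Quotient.mk r o) = p g (p h (Quotient.mk r o))
        rw [hp, hp, hp, map_mul, Equiv.Perm.mul_apply]
  · intro g o
    exact hp g o
  · intro g o
    change le g (Quotient.mk r (a g o)) = _
    rw [hl, inv_app]

/-- Values of a cocycle at elements of order prime to the order of the group of values. -/
theorem triv {W Ω B : Type} [Group W] [Group B] [Finite B] (ℓ : ℕ) [hℓ : Fact ℓ.Prime]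
    (hB : ¬ ℓ ∣ Nat.card B) (a : W →* Equiv.Perm Ω) (c : W → Ω → B)
    (hc : ∀ g h o, c (g * h) o = c g (a h o) * c h o) (s : W) (o : Ω) (hs : a s o = o)
    (k : ℕ) (hk : s ^ ℓ ^ k = 1) : c s o = 1 := by
  have h1 : ∀ o, c 1 o = 1 := by
    intro o
    have h := hc 1 1 o
    rw [mul_one, map_one] at h
    simpa using h
  have h2 : ∀ n : ℕ, c (s ^ n) o = c s o ^ n := by
    intro n
    induction n with
    | zero => rw [pow_zero, pow_zero, h1]
    | succ n ih => rw [pow_succ, hc, hs, ih, pow_succ]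
  have h3 : c s o ^ ℓ ^ k = 1 := by rw [← h2, hk, h1]
  have h4 : orderOf (c s o) ∣ ℓ ^ k := orderOf_dvd_of_pow_eq_one h3
  have h5 : orderOf (c s o) ∣ Nat.card B := orderOf_dvd_natCard _
  have h6 : Nat.Coprime (ℓ ^ k) (Nat.card B) :=
    Nat.Coprime.pow_left k ((Nat.Prime.coprime_iff_not_dvd hℓ.out).mpr hB)
  have h7 : orderOf (c s o) ∣ 1 := by
    rw [← h6.gcd_eq_one]
    exact Nat.dvd_gcd h4 h5
  rw [← orderOf_eq_one_iff]
  exact Nat.dvd_one.mp h7

/-- A cocycle of `Q` which is trivial on the stabilizers is a coboundary. -/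
theorem cobd {W Ω B : Type} [Group W] [Group B] (Q : Subgroup W) (a : W →* Equiv.Perm Ω)
    (c : W → Ω → B) (hc : ∀ g h o, c (g * h) o = c g (a h o) * c h o)
    (ht : ∀ s ∈ Q, ∀ o, a s o = o → c s o = 1) (r : Setoid Ω)
    (hr : ∀ o o', r o o' ↔ ∃ s ∈ Q, a s o = o') (o0 : Ω) :
    ∃ z : Ω → B, z o0 = 1 ∧ ∀ s ∈ Q, ∀ o, c s o = z (a s o) * (z o)⁻¹ := by
  have h0 : ∀ o, ∃ s ∈ Q, a s (Quotient.mk r o).out = o := by
    intro o
    rw [← hr]
    exact Quotient.exact (Quotient.out_eq (Quotient.mk r o))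
  choose s hs1 hs2 using h0
  let z : Ω → B := fun o => c (s o) (Quotient.mk r o).out
  have hz : ∀ t ∈ Q, ∀ o, a t (Quotient.mk r o).out = o → c t (Quotient.mk r o).out = z o := by
    intro t htQ o hto
    have h1 : a ((s o)⁻¹ * t) (Quotient.mk r o).out = (Quotient.mk r o).out := by
      rw [map_mul, Equiv.Perm.mul_apply, hto, map_inv, Equiv.Perm.inv_eq_iff_eq, hs2]
    have h2 := ht _ (mul_mem (inv_mem (hs1 o)) htQ) _ h1
    have h3 := hc (s o) ((s o)⁻¹ * t) (Quotient.mk r o).out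
    rw [mul_inv_cancel_left, h1, h2, mul_one] at h3
    exact h3
  refine ⟨fun o => z o * (z o0)⁻¹, by simp, ?_⟩
  intro t htQ o
  have h1 : Quotient.mk r (a t o) = Quotient.mk r o := by
    apply Quotient.sound
    apply r.symm
    exact (hr _ _).mpr ⟨t, htQ, rfl⟩
  have h2 := hz (t * s o) (mul_mem htQ (hs1 o)) (a t o) (by
    rw [h1, map_mul, Equiv.Perm.mul_apply, hs2])
  rw [h1, hc, hs2] at h2
  change c t o = z (a t o) * (z o0)⁻¹ * (z o * (z o0)⁻¹)⁻¹
  rw [← h2]
  change c t o = c t o * z o * (z o0)⁻¹ * (z o * (z o0)⁻¹)⁻¹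
  group

/-- A product over the classes of an equivalence relation with classes of the same size. -/
theorem prod_cls {Ω M : Type} [CommMonoid M] [Fintype Ω] (r : Setoid Ω) [Fintype (Quotient r)]
    (n : ℕ) (hn : ∀ q : Quotient r, Nat.card {o // Quotient.mk r o = q} = n)
    (f : Quotient r → M) : ∏ o, f (Quotient.mk r o) = (∏ q, f q) ^ n := by
  classical
  rw [← Finset.prod_fiberwise Finset.univ (fun o => Quotient.mk r o), ← Finset.prod_pow]
  apply Finset.prod_congr rfl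
  intro q _
  rw [Finset.prod_congr rfl (g := fun _ => f q)]
  · rw [Finset.prod_const]
    congr 1
    rw [← hn q, Nat.card_eq_fintype_card, Fintype.card_subtype]
  · intro o ho
    rw [(Finset.mem_filter.mp ho).2]

/-- The commutator of a power. -/
theorem comm_pow {B : Type} [Group B] (U V ζ : B) (hζ : ζ ∈ Subgroup.center B)
    (h : U * V * U⁻¹ * V⁻¹ = ζ) (n : ℕ) : U ^ n * V * (U ^ n)⁻¹ * V⁻¹ = ζ ^ n := by
  have h1 : U * V * U⁻¹ = ζ * V := by rw [← h]; group
  have h2 : ∀ n : ℕ, U ^ n * V * (U ^ n)⁻¹ = ζ ^ n * V := by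
    intro n
    induction n with
    | zero => simp
    | succ n ih =>
      have h3 : U ^ (n + 1) * V * (U ^ (n + 1))⁻¹ = U * (U ^ n * V * (U ^ n)⁻¹) * U⁻¹ := by
        rw [pow_succ' U n]
        group
      have h4 : U * ζ ^ n = ζ ^ n * U := ((Subgroup.mem_center_iff.mp (pow_mem hζ n)) U)
      rw [h3, ih, ← mul_assoc, h4, mul_assoc, mul_assoc, ← mul_assoc U V, h1, pow_succ]
      group
  rw [h2]
  group

/-! ### The Sylow subgroup -/

theorem sylow_aux {W : Type} [Group W] [Finite W] (ℓ : ℕ) [hℓ : Fact ℓ.Prime]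
    (T P : Subgroup W) (hTn : T.Normal) (_hPn : P.Normal)
    (hP : ∀ x ∈ P, ∃ k : ℕ, x ^ ℓ ^ k ∈ T) :
    ∃ Q : Subgroup W, Q ≤ P ∧ IsPGroup ℓ Q ∧ P ≤ T ⊔ Q ∧
      Subgroup.normalizer (Q : Set W) ⊔ T = ⊤ := by
  classical
  obtain ⟨S⟩ : Nonempty (Sylow ℓ P) := inferInstance
  have hQP : (S : Subgroup P).map P.subtype ≤ P := by
    rintro _ ⟨x, _, rfl⟩
    exact x.2
  have h1 : T.subgroupOf P ⊔ (S : Subgroup P) = ⊤ := by
    have hpg : IsPGroup ℓ (P ⧸ T.subgroupOf P) := by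
      intro q
      induction q using QuotientGroup.induction_on with
      | H x =>
        obtain ⟨k, hk⟩ := hP x x.2
        refine ⟨k, ?_⟩
        rw [← QuotientGroup.mk_pow, QuotientGroup.eq_one_iff, Subgroup.mem_subgroupOf]
        exact hk
    obtain ⟨n, hn⟩ := IsPGroup.iff_card.mp hpg
    have h2 : (T.subgroupOf P ⊔ (S : Subgroup P)).index ∣ ℓ ^ n := by
      rw [← hn]
      exact Subgroup.index_dvd_of_le le_sup_left
    have h3 : (T.subgroupOf P ⊔ (S : Subgroup P)).index ∣ (S : Subgroup P).index :=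
      Subgroup.index_dvd_of_le le_sup_right
    have h4 : ¬ ℓ ∣ (S : Subgroup P).index := S.not_dvd_index
    have h5 : Nat.Coprime (ℓ ^ n) (S : Subgroup P).index :=
      Nat.Coprime.pow_left n ((Nat.Prime.coprime_iff_not_dvd hℓ.out).mpr h4)
    have h6 : (T.subgroupOf P ⊔ (S : Subgroup P)).index ∣ 1 := by
      rw [← h5.gcd_eq_one]
      exact Nat.dvd_gcd h2 h3
    exact Subgroup.index_eq_one.mp (Nat.dvd_one.mp h6)
  have h2 : P ≤ T ⊔ (S : Subgroup P).map P.subtype := by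
    have h3 : (T.subgroupOf P ⊔ (S : Subgroup P)).map P.subtype = P := by
      rw [h1, ← MonoidHom.range_eq_map, Subgroup.range_subtype]
    rw [Subgroup.map_sup] at h3
    nth_rewrite 1 [← h3]
    refine sup_le_sup_right ?_ _
    rintro _ ⟨x, hx, rfl⟩
    exact hx
  refine ⟨(S : Subgroup P).map P.subtype, hQP, S.isPGroup'.map _, h2, ?_⟩
  have h3 := Sylow.normalizer_sup_eq_top S
  rw [eq_top_iff, ← h3]
  refine sup_le le_sup_left (h2.trans (sup_le le_sup_right ?_))
  exact Subgroup.le_normalizer.trans le_sup_left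

/-- The product of the values of a linear character is trivial on the commutators. -/
theorem nrm {W B Ω : Type} [Group W] [Group B] [Fintype Ω]
    (ψ : W →* Gam (Equiv.Perm Ω) Ω B) (T : Subgroup W) (hTn : T.Normal) (C0 : Subgroup B)
    (hC : C0 ≤ Subgroup.center B) (hr : ∀ t ∈ T, (ψ t).right = 1)
    (hT : ∀ t ∈ T, ∀ o, (ψ t).left o ∈ C0) (χ : C0 →* ℂˣ) :
    ∃ N : T →* ℂˣ, (∀ t (ht : t ∈ T), N ⟨t, ht⟩ = ∏ o, χ ⟨(ψ t).left o, hT t ht o⟩) ∧
      ∀ t (ht : t ∈ T), t ∈ ⁅T, (⊤ : Subgroup W)⁆ → N ⟨t, ht⟩ = 1 := by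
  let N : T →* ℂˣ :=
    { toFun := fun t => ∏ o, χ ⟨(ψ t).left o, hT t t.2 o⟩
      map_one' := by
        apply Finset.prod_eq_one
        intro o _
        have h : (⟨(ψ ((1 : T) : W)).left o, hT _ (1 : T).2 o⟩ : C0) = 1 := by
          apply Subtype.ext
          simp
        rw [h, map_one]
      map_mul' := by
        intro s t
        rw [← Finset.prod_mul_distrib]
        apply Finset.prod_congr rfl
        intro o _
        rw [← map_mul]
        congr 1
        apply Subtype.ext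
        change (ψ ((s : W) * (t : W))).left o = (ψ s).left o * (ψ t).left o
        rw [map_mul]
        change (ψ s).left o * (ψ t).left ((ψ s).right⁻¹ o) = _
        rw [hr s s.2]
        simp }
  have hN : ∀ t (ht : t ∈ T), N ⟨t, ht⟩ = ∏ o, χ ⟨(ψ t).left o, hT t ht o⟩ :=
    fun t ht => rfl
  have hcj : ∀ t (ht : t ∈ T) (w : W), N ⟨w * t * w⁻¹, hTn.conj_mem t ht w⟩ = N ⟨t, ht⟩ := by
    intro t ht w
    rw [hN, hN]
    refine Fintype.prod_equiv (ψ w).right⁻¹ _ _ ?_
    intro o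
    congr 1
    apply Subtype.ext
    change (ψ (w * t * w⁻¹)).left o = (ψ t).left ((ψ w).right⁻¹ o)
    have h1 : (ψ t).left ((ψ w).right⁻¹ o) ∈ Subgroup.center B := hC (hT t ht _)
    rw [map_mul, map_mul, map_inv]
    change (ψ w).left o * (ψ t).left ((ψ w).right⁻¹ o) *
      ((ψ w).left ((ψ w).right⁻¹⁻¹ (((ψ w).right * (ψ t).right)⁻¹ o)))⁻¹ = _
    rw [hr t ht, mul_one, Subgroup.mem_center_iff.mp h1, inv_inv, ← Equiv.Perm.mul_apply,
      mul_inv_cancel, Equiv.Perm.one_apply, mul_inv_cancel_right]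
  refine ⟨N, hN, ?_⟩
  have h1 : ⁅T, (⊤ : Subgroup W)⁆ ≤ N.ker.map T.subtype := by
    rw [Subgroup.commutator_le]
    intro t ht w _
    refine ⟨⟨t, ht⟩ * ⟨w * t⁻¹ * w⁻¹, hTn.conj_mem _ (inv_mem ht) w⟩, ?_, ?_⟩
    · change N _ = 1
      rw [map_mul, hcj t⁻¹ (inv_mem ht) w, ← map_mul]
      have h2 : (⟨t, ht⟩ * ⟨t⁻¹, inv_mem ht⟩ : T) = 1 := by
        apply Subtype.ext
        exact mul_inv_cancel t
      rw [h2, map_one]
    · rw [commutatorElement_def]
      change t * (w * t⁻¹ * w⁻¹) = t * w * t⁻¹ * w⁻¹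
      group
  intro t ht hm
  obtain ⟨⟨s, hs⟩, hs1, hs2⟩ := h1 hm
  have hs3 : s = t := hs2
  subst hs3
  exact hs1

/-- Commutators modulo the commutators with `T`. -/
theorem comm_mod {W : Type} [Group W] (T : Subgroup W) (hTn : T.Normal) (x y s t : W)
    (hs : s ∈ T) (ht : t ∈ T) :
    (x * y * x⁻¹ * y⁻¹)⁻¹ * ((x * s) * (y * t) * (x * s)⁻¹ * (y * t)⁻¹) ∈
      ⁅T, (⊤ : Subgroup W)⁆ := by
  have hn : (⁅T, (⊤ : Subgroup W)⁆).Normal := Subgroup.commutator_normal T ⊤
  have hz : ∀ s ∈ T, ∀ w : W, (s : W ⧸ ⁅T, (⊤ : Subgroup W)⁆) * w = w * s := by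
    intro s hs w
    rw [← QuotientGroup.mk_mul, ← QuotientGroup.mk_mul]
    apply Eq.symm
    rw [QuotientGroup.eq]
    have h := Subgroup.commutator_mem_commutator (inv_mem hs) (Subgroup.mem_top w⁻¹)
    rw [commutatorElement_def] at h
    have h2 : (w * s)⁻¹ * (s * w) = s⁻¹ * w⁻¹ * s⁻¹⁻¹ * w⁻¹⁻¹ := by group
    rw [h2]
    exact h
  rw [← QuotientGroup.eq]
  simp only [QuotientGroup.mk_mul, QuotientGroup.mk_inv, mul_inv_rev]
  have h1 := hz s hs
  have h2 := hz t ht
  set X : W ⧸ ⁅T, (⊤ : Subgroup W)⁆ := (x : W ⧸ ⁅T, (⊤ : Subgroup W)⁆)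
  set Y : W ⧸ ⁅T, (⊤ : Subgroup W)⁆ := (y : W ⧸ ⁅T, (⊤ : Subgroup W)⁆)
  set S' : W ⧸ ⁅T, (⊤ : Subgroup W)⁆ := (s : W ⧸ ⁅T, (⊤ : Subgroup W)⁆)
  set T' : W ⧸ ⁅T, (⊤ : Subgroup W)⁆ := (t : W ⧸ ⁅T, (⊤ : Subgroup W)⁆)
  have hx : S' * X = X * S' := h1 x
  have hy : S' * Y = Y * S' := h1 y
  have hx' : T' * X = X * T' := h2 x
  have hs' : T' * S' = S' * T' := h2 s
  have hxi : T' * X⁻¹ = X⁻¹ * T' := by
    have := h2 x⁻¹
    simpa using this
  have hsi : T' * S'⁻¹ = S'⁻¹ * T' := by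
    have := h2 s⁻¹
    simpa using this
  calc X * Y * X⁻¹ * Y⁻¹ = X * (Y * S') * S'⁻¹ * X⁻¹ * Y⁻¹ := by group
    _ = X * (S' * Y) * S'⁻¹ * X⁻¹ * Y⁻¹ := by rw [hy]
    _ = X * S' * Y * (S'⁻¹ * X⁻¹) * T' * T'⁻¹ * Y⁻¹ := by group
    _ = X * S' * Y * (S'⁻¹ * (X⁻¹ * T')) * T'⁻¹ * Y⁻¹ := by group
    _ = X * S' * Y * (S'⁻¹ * (T' * X⁻¹)) * T'⁻¹ * Y⁻¹ := by rw [hxi]
    _ = X * S' * Y * ((S'⁻¹ * T') * X⁻¹) * T'⁻¹ * Y⁻¹ := by group
    _ = X * S' * Y * ((T' * S'⁻¹) * X⁻¹) * T'⁻¹ * Y⁻¹ := by rw [hsi]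
    _ = X * S' * (Y * T') * (S'⁻¹ * X⁻¹) * (T'⁻¹ * Y⁻¹) := by group

end PST

theorem PST_thm (h1 : Stmt_STK) : Stmt_PST := by
  intro W B Ω _ _ _ _ _ ℓ hℓ hB ψ T P hTn hPn hTP hP C0 hC hr hT htr x y e hxy he ht o0
  classical
  obtain ⟨Q, hQP, hQ, hPQ, hNT⟩ := PST.sylow_aux ℓ T P hTn hPn hP
  have hTcn : (⁅T, (⊤ : Subgroup W)⁆).Normal := Subgroup.commutator_normal T ⊤
  have hTT : ⁅T, (⊤ : Subgroup W)⁆ ≤ T := Subgroup.commutator_le_left T ⊤
  -- the cocycle
  let a : W →* Equiv.Perm Ω := SemidirectProduct.rightHom.comp ψ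
  have ha : ∀ w, a w = (ψ w).right := fun w => rfl
  let c : W → Ω → B := fun w o => (ψ w).left (a w o)
  have hcd : ∀ w o, c w o = (ψ w).left (a w o) := fun w o => rfl
  have hc : ∀ g h o, c (g * h) o = c g (a h o) * c h o := by
    intro g h o
    rw [hcd, hcd, hcd, map_mul a, Equiv.Perm.mul_apply, map_mul ψ]
    change (ψ g).left (a g (a h o)) * (ψ h).left ((a g)⁻¹ (a g (a h o))) = _
    rw [← map_inv, PST.inv_app]
  have haT : ∀ t ∈ T, ∀ o, a t o = o := by
    intro t ht o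
    rw [ha, hr t ht, Equiv.Perm.one_apply]
  have hcT : ∀ t ∈ T, ∀ o, c t o = (ψ t).left o := by
    intro t ht o
    rw [hcd, haT t ht]
  have hcTC : ∀ t ∈ T, ∀ o, c t o ∈ Subgroup.center B := by
    intro t ht o
    rw [hcT t ht]
    exact hC (hT t ht o)
  -- decompositions
  have hdec : ∀ w : W, ∃ g ∈ Subgroup.normalizer (Q : Set W), ∃ t ∈ T, g * t = w := by
    intro w
    have h2 : w ∈ Subgroup.normalizer (Q : Set W) ⊔ T := by
      rw [hNT]
      exact Subgroup.mem_top w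
    rw [← SetLike.mem_coe, Subgroup.mul_normal, Set.mem_mul] at h2
    obtain ⟨g, hg, t, ht, h3⟩ := h2
    exact ⟨g, hg, t, ht, h3⟩
  have hdecP : ∀ p ∈ P, ∃ t ∈ T, ∃ s ∈ Q, t * s = p := by
    intro p hp
    have h2 := hPQ hp
    rw [← SetLike.mem_coe, Subgroup.normal_mul, Set.mem_mul] at h2
    obtain ⟨t, ht, s, hs, h3⟩ := h2
    exact ⟨t, ht, s, hs, h3⟩
  obtain ⟨x', hx', t1, ht1, hxe⟩ := hdec x
  obtain ⟨y', hy', t2, ht2, hye⟩ := hdec y
  have he' : ∃ e' ∈ ⁅Q, Q⁆, e'⁻¹ * e ∈ ⁅T, (⊤ : Subgroup W)⁆ := by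
    have h2 : ⁅P, P⁆ ≤ ⁅Q, Q⁆ ⊔ ⁅T, (⊤ : Subgroup W)⁆ := by
      rw [Subgroup.commutator_le]
      intro p1 hp1 p2 hp2
      obtain ⟨s1, hs1, q1, hq1, rfl⟩ := hdecP p1 hp1
      obtain ⟨s2, hs2, q2, hq2, rfl⟩ := hdecP p2 hp2
      have h3 := PST.comm_mod T hTn q1 q2 (q1⁻¹ * s1 * q1) (q2⁻¹ * s2 * q2)
        (by simpa using hTn.conj_mem s1 hs1 q1⁻¹) (by simpa using hTn.conj_mem s2 hs2 q2⁻¹)
      have h4 : q1 * q2 * q1⁻¹ * q2⁻¹ ∈ ⁅Q, Q⁆ := Subgroup.commutator_mem_commutator hq1 hq2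
      have h5 := mul_mem (Subgroup.mem_sup_left (T := ⁅T, (⊤ : Subgroup W)⁆) h4)
        (Subgroup.mem_sup_right (S := ⁅Q, Q⁆) h3)
      rw [mul_inv_cancel_left] at h5
      have h6 : q1 * (q1⁻¹ * s1 * q1) = s1 * q1 := by group
      have h7 : q2 * (q2⁻¹ * s2 * q2) = s2 * q2 := by group
      rw [h6, h7] at h5
      exact h5
    have h3 := h2 he
    rw [← SetLike.mem_coe, Subgroup.mul_normal, Set.mem_mul] at h3
    obtain ⟨e', he', s, hs, h4⟩ := h3
    refine ⟨e', he', ?_⟩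
    rw [← h4, inv_mul_cancel_left]
    exact hs
  obtain ⟨e', heQ, hee⟩ := he'
  have heQ' : e' ∈ Q := by
    have h2 : ⁅Q, Q⁆ ≤ Q := by
      rw [Subgroup.commutator_le]
      intro q1 hq1 q2 hq2
      exact mul_mem (mul_mem (mul_mem hq1 hq2) (inv_mem hq1)) (inv_mem hq2)
    exact h2 heQ
  -- the element `t'`
  have htt : (x' * y' * x'⁻¹ * y'⁻¹ * e')⁻¹ * (x * y * x⁻¹ * y⁻¹ * e) ∈
      ⁅T, (⊤ : Subgroup W)⁆ := by
    have h2 := PST.comm_mod T hTn x' y' t1 t2 ht1 ht2
    rw [hxe, hye] at h2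
    have h3 := mul_mem (hTcn.conj_mem _ h2 e'⁻¹) hee
    have h4 : (x' * y' * x'⁻¹ * y'⁻¹ * e')⁻¹ * (x * y * x⁻¹ * y⁻¹ * e) =
      e'⁻¹ * ((x' * y' * x'⁻¹ * y'⁻¹)⁻¹ * (x * y * x⁻¹ * y⁻¹)) * e'⁻¹⁻¹ * (e'⁻¹ * e) := by
      group
    rw [h4]
    exact h3
  have ht' : x' * y' * x'⁻¹ * y'⁻¹ * e' ∈ T := by
    have h2 := mul_mem ht (inv_mem (hTT htt))
    have h3 : x * y * x⁻¹ * y⁻¹ * e *
      ((x' * y' * x'⁻¹ * y'⁻¹ * e')⁻¹ * (x * y * x⁻¹ * y⁻¹ * e))⁻¹ =
      x' * y' * x'⁻¹ * y'⁻¹ * e' := by group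
    rw [h3] at h2
    exact h2
  have hprod : ∀ χ : C0 →* ℂˣ,
      ∏ o, χ ⟨(ψ (x * y * x⁻¹ * y⁻¹ * e)).left o, hT _ ht o⟩ =
      ∏ o, χ ⟨(ψ (x' * y' * x'⁻¹ * y'⁻¹ * e')).left o, hT _ ht' o⟩ := by
    intro χ
    obtain ⟨N, hN1, hN2⟩ := PST.nrm ψ T hTn C0 hC hr hT χ
    rw [← hN1 _ ht, ← hN1 _ ht']
    have h2 := hN2 _ (hTT htt) htt
    have h3 : (⟨x * y * x⁻¹ * y⁻¹ * e, ht⟩ : T) = ⟨x' * y' * x'⁻¹ * y'⁻¹ * e', ht'⟩ *
        ⟨(x' * y' * x'⁻¹ * y'⁻¹ * e')⁻¹ * (x * y * x⁻¹ * y⁻¹ * e), hTT htt⟩ := by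
      apply Subtype.ext
      exact (mul_inv_cancel_left _ _).symm
    rw [h3, map_mul, h2, mul_one]
  -- the cocycle on `Q`
  have htrv : ∀ s ∈ Q, ∀ o, a s o = o → c s o = 1 := by
    intro s hs o hso
    obtain ⟨k, hk⟩ := hQ ⟨s, hs⟩
    exact PST.triv ℓ hB a c hc s o hso k (congrArg Subtype.val hk)
  let r : Setoid Ω :=
    { r := fun o o' => ∃ s ∈ Q, a s o = o'
      iseqv := by
        refine ⟨?_, ?_, ?_⟩
        · intro o
          exact ⟨1, one_mem Q, by rw [map_one, Equiv.Perm.one_apply]⟩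
        · rintro o _ ⟨s, hs, rfl⟩
          exact ⟨s⁻¹, inv_mem hs, PST.inv_app a s o⟩
        · rintro o _ _ ⟨s, hs, rfl⟩ ⟨t, ht, rfl⟩
          exact ⟨t * s, mul_mem ht hs, by rw [map_mul, Equiv.Perm.mul_apply]⟩ }
  have hrd : ∀ o o', r o o' ↔ ∃ s ∈ Q, a s o = o' := fun o o' => Iff.rfl
  obtain ⟨z, hz0, hz⟩ := PST.cobd Q a c hc htrv r hrd o0
  let c' : W → Ω → B := fun w o => (z (a w o))⁻¹ * c w o * z o
  have hcd' : ∀ w o, c' w o = (z (a w o))⁻¹ * c w o * z o := fun w o => rfl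
  have hc' : ∀ g h o, c' (g * h) o = c' g (a h o) * c' h o := by
    intro g h o
    rw [hcd', hcd', hcd', hc, map_mul, Equiv.Perm.mul_apply]
    group
  have hcQ : ∀ s ∈ Q, ∀ o, c' s o = 1 := by
    intro s hs o
    rw [hcd', hz s hs o]
    group
  have hcT' : ∀ t ∈ T, ∀ o, c' t o = (ψ t).left o := by
    intro t ht o
    rw [hcd', haT t ht, ← hcT t ht, mul_assoc, ← Subgroup.mem_center_iff.mp (hcTC t ht o),
      inv_mul_cancel_left]
  have hcinv : ∀ g ∈ Subgroup.normalizer (Q : Set W), ∀ s ∈ Q, ∀ o,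
      c' g (a s o) = c' g o := by
    intro g hg s hs o
    have h2 : g * s * g⁻¹ ∈ Q := (Subgroup.mem_normalizer_iff.mp hg s).mp hs
    have h3 : c' (g * s) o = c' (g * s * g⁻¹ * g) o := by
      congr 1
      group
    rw [hc', hc', hcQ s hs, hcQ _ h2, mul_one, one_mul] at h3
    exact h3
  have hrinv : ∀ g ∈ Subgroup.normalizer (Q : Set W), ∀ o o', r o o' → r (a g o) (a g o') := by
    rintro g hg o _ ⟨s, hs, rfl⟩
    refine ⟨g * s * g⁻¹, (Subgroup.mem_normalizer_iff.mp hg s).mp hs, ?_⟩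
    rw [← Equiv.Perm.mul_apply, ← map_mul, ← Equiv.Perm.mul_apply, ← map_mul]
    congr 2
    group
  obtain ⟨ψ', hψr, hψl⟩ := PST.descent (a.comp (Subgroup.normalizer (Q : Set W)).subtype)
    (fun g o => c' (g : W) o) (fun g h o => hc' g h o) r (fun g o o' h => hrinv g g.2 o o' h)
    (by
      rintro g o _ ⟨s, hs, rfl⟩
      exact (hcinv g g.2 s hs o).symm)
  have hψr' : ∀ (g : W) (hg : g ∈ Subgroup.normalizer (Q : Set W)) (o : Ω),
      (ψ' ⟨g, hg⟩).right (Quotient.mk r o) = Quotient.mk r (a g o) := fun g hg o => hψr ⟨g, hg⟩ o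
  have hψl' : ∀ (g : W) (hg : g ∈ Subgroup.normalizer (Q : Set W)) (o : Ω),
      (ψ' ⟨g, hg⟩).left (Quotient.mk r (a g o)) = c' g o := fun g hg o => hψl ⟨g, hg⟩ o
  have hQN : Q ≤ Subgroup.normalizer (Q : Set W) := Subgroup.le_normalizer
  -- the subgroup generated by `x'` and `y'`
  let xg : Subgroup.normalizer (Q : Set W) := ⟨x', hx'⟩
  let yg : Subgroup.normalizer (Q : Set W) := ⟨y', hy'⟩
  have hxm : x' ∈ (Subgroup.closure {xg, yg}).map (Subgroup.normalizer (Q : Set W)).subtype :=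
    ⟨xg, Subgroup.subset_closure (by simp), rfl⟩
  have hym : y' ∈ (Subgroup.closure {xg, yg}).map (Subgroup.normalizer (Q : Set W)).subtype :=
    ⟨yg, Subgroup.subset_closure (by simp), rfl⟩
  have hgen : (Subgroup.closure {xg, yg}).map (Subgroup.normalizer (Q : Set W)).subtype ⊔ P =
      ⊤ := by
    rw [eq_top_iff, ← hxy]
    refine sup_le ?_ le_sup_right
    rw [Subgroup.closure_le]
    intro w hw
    rcases hw with rfl | hw
    · rw [← hxe]
      exact mul_mem (Subgroup.mem_sup_left hxm) (Subgroup.mem_sup_right (hTP ht1))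
    · rw [Set.mem_singleton_iff] at hw
      rw [hw, ← hye]
      exact mul_mem (Subgroup.mem_sup_left hym) (Subgroup.mem_sup_right (hTP ht2))
  have hdecg : ∀ w : W, ∃ g ∈ Subgroup.closure {xg, yg}, ∃ t ∈ T, ∃ s ∈ Q,
      (g : W) * t * s = w := by
    intro w
    have h2 : w ∈ (Subgroup.closure {xg, yg}).map (Subgroup.normalizer (Q : Set W)).subtype ⊔
        P := by
      rw [hgen]
      exact Subgroup.mem_top w
    rw [← SetLike.mem_coe, Subgroup.mul_normal, Set.mem_mul] at h2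
    obtain ⟨_, ⟨g, hg, rfl⟩, p, hp, h3⟩ := h2
    obtain ⟨t, ht, s, hs, h4⟩ := hdecP p hp
    refine ⟨g, hg, t, ht, s, hs, ?_⟩
    rw [← h3, ← h4, mul_assoc]
    rfl
  -- the commutator
  have hcomm : xg * yg * xg⁻¹ * yg⁻¹ =
      ⟨x' * y' * x'⁻¹ * y'⁻¹, mul_mem (mul_mem (mul_mem hx' hy') (inv_mem hx')) (inv_mem hy')⟩ :=
    rfl
  have hright : (ψ' (xg * yg * xg⁻¹ * yg⁻¹)).right = 1 := by
    ext q
    induction q using Quotient.inductionOn with
    | h o =>
      rw [hcomm, hψr', Equiv.Perm.one_apply]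
      apply Quotient.sound
      change r _ _
      refine ⟨e', heQ', ?_⟩
      have h2 := hTn.conj_mem _ ht' e'
      have h3 : e' * (x' * y' * x'⁻¹ * y'⁻¹ * e') * e'⁻¹ = e' * (x' * y' * x'⁻¹ * y'⁻¹) := by
        group
      rw [h3] at h2
      rw [← Equiv.Perm.mul_apply, ← map_mul, haT _ h2]
  have hleft : ∀ o, (ψ' (xg * yg * xg⁻¹ * yg⁻¹)).left (Quotient.mk r o) =
      (ψ (x' * y' * x'⁻¹ * y'⁻¹ * e')).left o := by
    intro o
    rw [hcomm]
    have h2 : o = a (x' * y' * x'⁻¹ * y'⁻¹) (a e' o) := by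
      rw [← Equiv.Perm.mul_apply, ← map_mul, haT _ ht']
    have h3 := hψl' (x' * y' * x'⁻¹ * y'⁻¹)
      (mul_mem (mul_mem (mul_mem hx' hy') (inv_mem hx')) (inv_mem hy')) (a e' o)
    rw [← h2] at h3
    rw [h3, ← hcT' _ ht', hc' (x' * y' * x'⁻¹ * y'⁻¹) e' o, hcQ e' heQ', mul_one]
  -- the classes
  have hcls : ∃ k : ℕ, ∀ q : Quotient r, Nat.card {o // Quotient.mk r o = q} = ℓ ^ k := by
    let _ : MulAction Q Ω := MulAction.compHom Ω (a.comp Q.subtype)
    have hsm : ∀ (s : Q) (o : Ω), s • o = a s o := fun s o => rfl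
    obtain ⟨k, hk⟩ := hQ.card_orbit o0
    refine ⟨k, ?_⟩
    intro q
    induction q using Quotient.inductionOn with
    | h o =>
      rw [← hk]
      obtain ⟨w, hw⟩ := htr o o0
      obtain ⟨g, hg, t, ht, rfl⟩ := hdec w
      have hgo : a g o = o0 := by
        rw [← hw, ← ha, map_mul, Equiv.Perm.mul_apply, haT t ht]
      apply Nat.card_congr
      refine Equiv.subtypeEquiv (a g) ?_
      intro o1
      rw [MulAction.mem_orbit_iff]
      constructor
      · intro h
        have h2 : r o o1 := Quotient.exact h.symm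
        obtain ⟨s, hs, h3⟩ := hrinv g hg o o1 h2
        refine ⟨⟨s, hs⟩, ?_⟩
        rw [hsm, ← hgo]
        exact h3
      · rintro ⟨s, hs⟩
        rw [hsm, ← hgo] at hs
        apply Quotient.sound
        apply r.symm
        have h2 : r (a g o) (a g o1) := ⟨s, s.2, hs⟩
        have h3 := hrinv g⁻¹ (inv_mem hg) _ _ h2
        rw [PST.inv_app, PST.inv_app] at h3
        exact h3
  obtain ⟨k, hk⟩ := hcls
  -- transitivity
  have htr' : ∀ δ δ' : Quotient r, ∃ g ∈ Subgroup.closure {xg, yg}, (ψ' g).right δ = δ' := by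
    intro q q'
    induction q using Quotient.inductionOn with
    | h o =>
      induction q' using Quotient.inductionOn with
      | h o' =>
        obtain ⟨w, hw⟩ := htr o o'
        obtain ⟨g, hg, t, ht, s, hs, rfl⟩ := hdecg w
        refine ⟨g, hg, ?_⟩
        have h2 : Quotient.mk r o = Quotient.mk r (a s o) :=
          Quotient.sound ⟨s, hs, rfl⟩
        rw [h2, hψr' g g.2, ← hw, ← ha, map_mul, map_mul, Equiv.Perm.mul_apply,
          Equiv.Perm.mul_apply, haT t ht]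
  have hcm : ∀ δ, (ψ' (xg * yg * xg⁻¹ * yg⁻¹)).left δ ∈ C0 := by
    intro q
    induction q using Quotient.inductionOn with
    | h o =>
      rw [hleft]
      exact hT _ ht' o
  obtain ⟨U0, V, ⟨hUV, hχ⟩, hg0⟩ := h1 (Subgroup.normalizer (Q : Set W)) B (Quotient r) ψ' xg yg
    C0 hC htr' hright hcm (Quotient.mk r o0)
  have hpow := PST.comm_pow U0 V _ (hC hUV) rfl (ℓ ^ k)
  refine ⟨U0 ^ ℓ ^ k, V, ⟨?_, ?_⟩, ?_⟩
  · rw [hpow]
    exact pow_mem hUV _
  · intro χ
    rw [hprod χ]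
    have hUV' : U0 ^ ℓ ^ k * V * (U0 ^ ℓ ^ k)⁻¹ * V⁻¹ ∈ C0 := by
      rw [hpow]
      exact pow_mem hUV _
    have h2 : (⟨U0 ^ ℓ ^ k * V * (U0 ^ ℓ ^ k)⁻¹ * V⁻¹, hUV'⟩ : C0) =
        ⟨U0 * V * U0⁻¹ * V⁻¹, hUV⟩ ^ ℓ ^ k := by
      apply Subtype.ext
      exact hpow
    rw [h2, map_pow, hχ χ, ← PST.prod_cls r (ℓ ^ k) hk]
    apply Finset.prod_congr rfl
    intro o _
    congr 1
    apply Subtype.ext
    exact hleft o
  · intro w hw
    have hU0 : U0 ∈ Subgroup.closure {U0 ^ ℓ ^ k, V} := by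
      have h2 : Nat.Coprime (ℓ ^ k) (orderOf U0) := by
        refine Nat.Coprime.coprime_dvd_right (orderOf_dvd_natCard U0) ?_
        exact Nat.Coprime.pow_left k ((Nat.Prime.coprime_iff_not_dvd hℓ.out).mpr hB)
      obtain ⟨m, hm⟩ := exists_pow_eq_self_of_coprime h2
      have h3 : (U0 ^ ℓ ^ k) ^ m ∈ Subgroup.closure {U0 ^ ℓ ^ k, V} :=
        pow_mem (Subgroup.subset_closure (by simp)) m
      rw [hm] at h3
      exact h3
    have hle : Subgroup.closure {U0, V} ⊔ C0 ≤ Subgroup.closure {U0 ^ ℓ ^ k, V} ⊔ C0 := by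
      refine sup_le_sup_right ?_ _
      rw [Subgroup.closure_le]
      intro u hu
      rcases hu with rfl | hu
      · exact hU0
      · rw [Set.mem_singleton_iff] at hu
        rw [hu]
        apply Subgroup.subset_closure
        simp
    obtain ⟨g, hg, t, ht, s, hs, rfl⟩ := hdecg w
    have hgs : a g (a s o0) = o0 := by
      have h2 : a (g * t * s) o0 = o0 := hw
      rw [map_mul, map_mul, Equiv.Perm.mul_apply, Equiv.Perm.mul_apply, haT t ht] at h2
      exact h2
    have h2 : (ψ ((g : W) * t * s)).left o0 = c (g * t * s) o0 := by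
      rw [hcd]
      change _ = (ψ ((g : W) * t * s)).left ((ψ ((g : W) * t * s)).right o0)
      rw [hw]
    have h3 : c (g : W) (a s o0) = c' g (a s o0) * (z (a s o0))⁻¹ := by
      rw [hcd', hgs, hz0]
      group
    have h4 : c s o0 = z (a s o0) := by
      rw [hz s hs, hz0]
      group
    have h5 : c' (g : W) (a s o0) = (ψ' g).left (Quotient.mk r o0) := by
      have h6 := hψl' g g.2 (a s o0)
      rw [hgs] at h6
      exact h6.symm
    have h6 : (ψ' g).right (Quotient.mk r o0) = Quotient.mk r o0 := by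
      have h7 : Quotient.mk r o0 = Quotient.mk r (a s o0) :=
        Quotient.sound ⟨s, hs, rfl⟩
      have h8 := hψr' g g.2 (a s o0)
      rw [hgs, ← h7] at h8
      exact h8
    have h7 := hle (hg0 g hg h6)
    rw [h2, hc, hc, haT t ht, h3, h4, h5, mul_assoc _ (z (a s o0))⁻¹ (c t (a s o0)),
      Subgroup.mem_center_iff.mp (hcTC t ht (a s o0)), ← mul_assoc, mul_assoc,
      inv_mul_cancel, mul_one]
    refine mul_mem h7 (Subgroup.mem_sup_right ?_)
    rw [hcT t ht]
    exact hT t ht _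

end Pool.Agent.DPG


end

section

/-!
# BGA: the fixed pairs and the extensions in the two forms
-/

namespace Pool.Agent.DPG

open Pool.Agent.DP Pool.Agent.DPC Pool.Agent.DPM Pool.Agent.DPN Pool.Agent.DPF
  Pool.Agent.Lib_helper13 Representation
open Pool.Agent.Lib_helper13.Dade (pCore DadeHolds dadeSum)

namespace BGA

variable {L K H W : Type} [Group L] [Group K] [Group H] [Group W]

/-- The kernel is contained in `AL`. -/
theorem mem_AL_mul {π : L →* K} {N S : Subgroup K} {z x : L} (hz : π z = 1) :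
    z * x ∈ AL π N S ↔ x ∈ AL π N S := by
  rw [Subgroup.mem_comap, Subgroup.mem_comap, map_mul, hz, one_mul]

theorem mem_AL_conj {π : L →* K} {M S : Subgroup K} (hM : M.Normal) {t x : L} (ht : π t ∈ S) :
    t * x * t⁻¹ ∈ AL π M S ↔ x ∈ AL π M S := by
  have key : ∀ (t x : L), π t ∈ S → x ∈ AL π M S → t * x * t⁻¹ ∈ AL π M S := by
    intro t x ht hx
    have h1 : π x ∈ M ⊓ S := hx
    change π (t * x * t⁻¹) ∈ M ⊓ S
    rw [map_mul, map_mul, map_inv]
    exact ⟨hM.conj_mem _ h1.1 _, S.mul_mem (S.mul_mem ht h1.2) (S.inv_mem ht)⟩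
  constructor
  · intro h
    have h1 := key t⁻¹ _ (by rw [map_inv]; exact S.inv_mem ht) h
    have h2 : t⁻¹ * (t * x * t⁻¹) * t⁻¹⁻¹ = x := by group
    rwa [h2] at h1
  · exact key t x ht

/-- The extensions in the two forms. -/
theorem ext_iff [Finite L] [Finite W] (π : L →* K) (p : K →* H) (M : Subgroup K)
    (hp : ∀ k, p k = 1 ↔ k ∈ M) (πW : W →* H) (τ : Finset (Subgroup M))
    (θ : ↥(SL π M τ M) → ℂ) (ν : πW.ker →* ℂˣ) :
    EDt π p M πW τ θ ν ↔ EDb π p M πW (stb (mapCh M.subtype τ)) (ext0 θ) ν := by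
  classical
  constructor
  · rintro ⟨G, _, _, α, β, E, hF, hE⟩
    -- the isomorphism with the standard fibre product
    let f : G →* ↥(GS π p πW (stb (mapCh M.subtype τ))) :=
      { toFun := fun g => ⟨((α g : L), β g), (α g).2.2, hF.cm g⟩
        map_one' := by
          apply Subtype.ext
          simp
        map_mul' := by
          intro a b
          apply Subtype.ext
          simp }
    have hf : Function.Bijective f := by
      constructor
      · intro a b hab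
        have h1 : ((α a : L), β a) = ((α b : L), β b) := congrArg Subtype.val hab
        obtain ⟨h2, h3⟩ := Prod.mk.inj h1
        obtain ⟨g, hg, hu⟩ := hF.ex (α a) (β a) (hF.cm a)
        exact (hu a ⟨rfl, rfl⟩).trans (hu b ⟨Subtype.ext h2.symm, h3.symm⟩).symm
      · rintro ⟨⟨t, w⟩, h1, h2⟩
        obtain ⟨g, hg, -⟩ := hF.ex ⟨t, ⟨trivial, h1⟩⟩ w h2
        refine ⟨g, Subtype.ext (Prod.ext ?_ hg.2)⟩
        exact congrArg Subtype.val hg.1
    let e := MulEquiv.ofBijective f hf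
    have he : ∀ (x : ↥(GS π p πW (stb (mapCh M.subtype τ)))),
        ((α (e.symm x) : ↥(SL π M τ ⊤)) : L) = (x : L × W).1 ∧ β (e.symm x) = (x : L × W).2 := by
      intro x
      have h1 : f (e.symm x) = x := e.apply_symm_apply x
      have h2 : ((α (e.symm x) : L), β (e.symm x)) = (x : L × W) := congrArg Subtype.val h1
      exact ⟨congrArg Prod.fst h2, congrArg Prod.snd h2⟩
    refine ⟨ext0 (fun x => E (e.symm x)), ?_, fun x hx => ext0_of_not_mem _ hx, ?_, ?_⟩
    · have h1 : (fun x : ↥(GS π p πW (stb (mapCh M.subtype τ))) =>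
          ext0 (fun x => E (e.symm x)) (x : L × W)) = fun x => E (e.symm x) := by
        ext x
        rw [ext0_of_mem _ x.2]
      rw [h1]
      exact hE.Ec.comp e.symm.toMonoidHom
    · intro a ha ha'
      have h1 : ((a, 1) : L × W) ∈ GS π p πW (stb (mapCh M.subtype τ)) := by
        refine ⟨ha', ?_⟩
        change p (π a) = πW 1
        rw [map_one, (hp _).mpr ha]
      have h2 : a ∈ SL π M τ M := ⟨ha, ha'⟩
      rw [ext0_of_mem _ h1, ext0_of_mem _ h2]
      apply hE.Ee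
      · exact Subtype.ext (he ⟨_, h1⟩).1
      · exact (he ⟨_, h1⟩).2
    · intro z t w
      have hz : πW (z : W) = 1 := MonoidHom.mem_ker.mp z.2
      by_cases h1 : ((t, w) : L × W) ∈ GS π p πW (stb (mapCh M.subtype τ))
      · have h2 : ((t, z * w) : L × W) ∈ GS π p πW (stb (mapCh M.subtype τ)) := by
          refine ⟨h1.1, ?_⟩
          change p (π t) = πW (z * w)
          rw [map_mul, hz, one_mul]
          exact h1.2
        rw [ext0_of_mem _ h1, ext0_of_mem _ h2]
        apply hE.El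
        · exact Subtype.ext ((he ⟨_, h2⟩).1.trans (he ⟨_, h1⟩).1.symm)
        · rw [(he ⟨_, h2⟩).2, (he ⟨_, h1⟩).2]
      · have h2 : ((t, z * w) : L × W) ∉ GS π p πW (stb (mapCh M.subtype τ)) := by
          intro h3
          apply h1
          refine ⟨h3.1, ?_⟩
          have h4 : p (π t) = πW (z * w) := h3.2
          rw [map_mul, hz, one_mul] at h4
          exact h4
        rw [ext0_of_not_mem _ h1, ext0_of_not_mem _ h2, mul_zero]
  · rintro ⟨E, hE1, hE2, hE3, hE4⟩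
    let α : ↥(GS π p πW (stb (mapCh M.subtype τ))) →* ↥(SL π M τ ⊤) :=
      { toFun := fun x => ⟨(x : L × W).1, ⟨trivial, x.2.1⟩⟩
        map_one' := by
          apply Subtype.ext
          simp
        map_mul' := by
          intro a b
          apply Subtype.ext
          simp }
    let β : ↥(GS π p πW (stb (mapCh M.subtype τ))) →* W :=
      (MonoidHom.snd L W).comp (GS π p πW (stb (mapCh M.subtype τ))).subtype
    refine ⟨_, inferInstance, inferInstance, α, β, fun x => E x, ⟨fun g => g.2.2, ?_⟩,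
      ⟨hE1, ?_, ?_⟩⟩
    · intro t w h
      refine ⟨⟨((t : L), w), t.2.2, h⟩, ⟨rfl, rfl⟩, ?_⟩
      rintro ⟨⟨t', w'⟩, h'⟩ ⟨h1, h2⟩
      apply Subtype.ext
      exact Prod.ext (congrArg Subtype.val h1) h2
    · intro a g h1 h2
      have h3 : (g : L × W) = ((a : L), 1) := Prod.ext (congrArg Subtype.val h1) h2
      change E (g : L × W) = θ a
      rw [h3, hE3 a a.2.1 a.2.2, ext0_of_mem _ a.2]
    · intro z g g' h1 h2
      have h3 : (g' : L × W) = ((g : L × W).1, z * (g : L × W).2) :=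
        Prod.ext (congrArg Subtype.val h1) h2
      change ((ν z : ℂˣ) : ℂ) * E (g' : L × W) = E (g : L × W)
      rw [h3]
      exact hE4 z _ _

end BGA

open _root_.Pool.Agent.DPG.BGA in
theorem BGA_thm : Stmt_BGA := by
  intro L K H W _ _ _ _ _ _ _ _ 𝔐 π hπ μ M hM p hp hpM ω τ θ
  refine ⟨?_, fun πW _ ν _ => ext_iff π p M hpM πW τ θ ν⟩
  have hcg : ∀ g, cg 𝔐 (ext0 θ) g = cen 𝔐 (SL π M τ M).subtype θ g := fun g => EVAL.cg_eq 𝔐 θ g
  constructor
  · intro h
    refine ⟨IRRPI.irrOn_ext0 h.irr, ?_, ?_, ?_, ?_⟩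
    · intro z x
      have hz : π (z : L) = 1 := MonoidHom.mem_ker.mp z.2
      by_cases hx : x ∈ SL π M τ M
      · have hzA : (z : L) ∈ SL π M τ M := by
          change π (z : L) ∈ M ⊓ _
          rw [hz]
          exact Subgroup.one_mem _
        have hzx : (z : L) * x ∈ SL π M τ M := Subgroup.mul_mem _ hzA hx
        rw [ext0_of_mem _ hx, ext0_of_mem _ hzx]
        exact h.ovl ⟨z, hzA⟩ ⟨x, hx⟩ z.2
      · have hzx : (z : L) * x ∉ SL π M τ M := fun h' => hx ((mem_AL_mul hz).mp h')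
        rw [ext0_of_not_mem _ hx, ext0_of_not_mem _ hzx, mul_zero]
    · intro g hg
      rw [hcg]
      exact h.cn g hg
    · rw [eq_top_iff]
      intro k _
      obtain ⟨s, hs, hs'⟩ := h.sj (p k)
      have h1 : k * s⁻¹ ∈ M := by
        rw [← hpM, map_mul, map_inv, hs', mul_inv_cancel]
      have h2 : k * s⁻¹ * s = k := by group
      rw [← h2]
      exact Subgroup.mul_mem_sup h1 hs
    · intro t ht x
      by_cases hx : x ∈ SL π M τ M
      · have hx' : t * x * t⁻¹ ∈ SL π M τ M := (mem_AL_conj hM ht).mpr hx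
        rw [ext0_of_mem _ hx, ext0_of_mem _ hx']
        exact h.iv t ⟨trivial, ht⟩ ⟨x, hx⟩ ⟨_, hx'⟩ rfl
      · have hx' : t * x * t⁻¹ ∉ SL π M τ M := fun h' => hx ((mem_AL_conj hM ht).mp h')
        rw [ext0_of_not_mem _ hx, ext0_of_not_mem _ hx']
  · intro h
    have hirr : IsIrr θ := by
      have h1 := h.irr.1
      rw [IRRPI.res_ext0] at h1
      exact h1
    refine ⟨hirr, ?_, ?_, ?_, ?_⟩
    · intro s t hs
      have h1 := h.ovl ⟨s, hs⟩ (t : L)
      change ext0 θ ((s : L) * (t : L)) = _ at h1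
      rw [ext0_of_mem θ t.2, ext0_of_mem θ (Subgroup.mul_mem _ s.2 t.2)] at h1
      exact h1
    · intro g hg
      rw [← hcg]
      exact h.cn g hg
    · intro y
      obtain ⟨k, rfl⟩ := hp y
      have h1 : k ∈ M ⊔ stb (mapCh M.subtype τ) := by
        rw [h.sj]
        trivial
      obtain ⟨m, hm, s, hs, rfl⟩ := Subgroup.mem_sup_of_normal_left.mp h1
      refine ⟨s, hs, ?_⟩
      rw [map_mul, (hpM m).mpr hm, one_mul]
    · intro t ht a b hab
      have h1 := h.iv t ht.2 a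
      rw [← hab, ext0_of_mem θ a.2, ext0_of_mem θ b.2] at h1
      exact h1

end Pool.Agent.DPG


end

section

/-!
# SYT: the quotient of the vertex group
-/

namespace Pool.Agent.DPG

open Pool.Agent.DP Pool.Agent.DPC Pool.Agent.DPM Pool.Agent.DPN Pool.Agent.DPF
  Pool.Agent.Lib_helper13 Representation

namespace SYT

variable {K K1 Ω : Type} [Group K] [Group K1]

/-- The stabilizer of `o`. -/
def st (φ : K →* Gam (Equiv.Perm Ω) Ω K1) (o : Ω) : Subgroup K where
  carrier := {k | (φ k).right o = o}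
  one_mem' := by
    change (φ 1).right o = o
    rw [map_one]
    rfl
  mul_mem' := by
    intro a b ha hb
    change (φ (a * b)).right o = o
    rw [map_mul]
    change (φ a).right ((φ b).right o) = o
    rw [show (φ b).right o = o from hb]
    exact ha
  inv_mem' := by
    intro a ha
    change (φ a⁻¹).right o = o
    rw [map_inv]
    change (φ a).right⁻¹ o = o
    rw [Equiv.Perm.inv_eq_iff_eq]
    exact (show (φ a).right o = o from ha).symm

/-- The coordinate of the elements of the stabilizer. -/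
def cf (φ : K →* Gam (Equiv.Perm Ω) Ω K1) (o : Ω) : st φ o →* K1 where
  toFun a := (φ a).left o
  map_one' := by
    change (φ 1).left o = 1
    rw [map_one]
    rfl
  map_mul' := by
    intro a b
    change (φ ((a : K) * b)).left o = (φ a).left o * (φ b).left o
    rw [map_mul]
    change (φ a).left o * (φ b).left ((φ a).right⁻¹ • o) = (φ a).left o * (φ b).left o
    have h : (φ (a : K)).right⁻¹ • o = o := by
      change (φ (a : K)).right⁻¹ o = o
      rw [Equiv.Perm.inv_eq_iff_eq]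
      exact (show (φ (a : K)).right o = o from a.2).symm
    rw [h]

end SYT

open _root_.Pool.Agent.DPG.SYT in
theorem SYT_thm : Stmt_SYT := by
  intro K K1 H Ω _ _ _ _ _ _ _ ℓ _ φ hφ M M1 _ hM hM1 p hp hpk P hP
  obtain ⟨o⟩ := ‹Nonempty Ω›
  let f : st φ o →* K1 ⧸ M1 := (QuotientGroup.mk' M1).comp (cf φ o)
  have hf : Function.Surjective f := by
    intro x
    obtain ⟨b, rfl⟩ := QuotientGroup.mk'_surjective M1 x
    obtain ⟨k, hk, hb⟩ := hφ o b
    exact ⟨⟨k, hk⟩, congrArg (QuotientGroup.mk' M1) hb⟩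
  have hfM : ∀ a : st φ o, (a : K) ∈ M → f a = 1 := by
    intro a ha
    exact (QuotientGroup.eq_one_iff _).2 (hM1 a ha o)
  haveI := hP.nrm
  haveI hn : (P.comap p).Normal := inferInstance
  let R : Subgroup (st φ o) := (P.comap p).subgroupOf (st φ o)
  haveI hR : R.Normal := inferInstance
  have hRm : ∀ a : st φ o, a ∈ R ↔ p a ∈ P := fun a => Iff.rfl
  refine ⟨R.map f, hR.map f hf, ?_, ?_, ?_⟩
  · rintro ⟨x, hx⟩
    obtain ⟨a, ha, rfl⟩ := hx
    obtain ⟨n, hn'⟩ := hP.pgr ⟨p a, (hRm a).1 ha⟩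
    refine ⟨n, Subtype.ext ?_⟩
    change (f a) ^ ℓ ^ n = 1
    rw [← map_pow]
    apply hfM
    rw [← hpk]
    have h1 := congrArg Subtype.val hn'
    change (p a) ^ ℓ ^ n = 1 at h1
    change p ((a : K) ^ ℓ ^ n) = 1
    rw [map_pow, h1]
  · intro h
    apply hP.idx
    have h1 : (R.map f).index ∣ R.index := Subgroup.index_map_dvd R hf
    have h2 : R.index ∣ (P.comap p).index := Subgroup.relIndex_dvd_index_of_normal _ _
    rw [Subgroup.index_comap_of_surjective P hp] at h2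
    exact h.trans (h1.trans h2)
  · intro x y
    obtain ⟨a, rfl⟩ := hf x
    obtain ⟨b, rfl⟩ := hf y
    refine ⟨a * b * a⁻¹ * b⁻¹, ?_, ?_⟩
    · change p ((a : K) * b * (a : K)⁻¹ * (b : K)⁻¹) ∈ P
      rw [map_mul, map_mul, map_mul, map_inv, map_inv]
      exact hP.abl _ _
    · rw [map_mul, map_mul, map_mul, map_inv, map_inv]

end Pool.Agent.DPG


end

section

/-!
# Dade's conjecture: minimal normal subgroups which are not simple: CNB

The wreath product data of a minimal normal subgroup which is not simple.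
-/

set_option linter.unusedSectionVars false

namespace Pool.Agent.DPG.CNB

open Pool.Agent.DP Pool.Agent.DPC Pool.Agent.DPM Pool.Agent.DPN Pool.Agent.DPF Pool.Agent.DPG
  Pool.Agent.DPG.WDB Pool.Agent.Lib_helper13 Representation
open scoped commutatorElement

/-! ### Central extensions of perfect groups -/

section Perf

variable {L K : Type} [Group L] [Group K] {π : L →* K} {E : Subgroup K}

theorem exists_comm (hπ : Function.Surjective π) (hEE : ⁅E, E⁆ = E) {u : L} (hu : π u ∈ E) :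
    ∃ v ∈ ⁅E.comap π, E.comap π⁆, ∃ z ∈ π.ker, u = v * z := by
  have h1 : (⁅E.comap π, E.comap π⁆).map π = E := by
    rw [Subgroup.map_commutator, Subgroup.map_comap_eq_self_of_surjective hπ, hEE]
  have h2 : π u ∈ (⁅E.comap π, E.comap π⁆).map π := by rw [h1]; exact hu
  obtain ⟨v, hv, hvu⟩ := h2
  refine ⟨v, hv, v⁻¹ * u, ?_, by rw [mul_inv_cancel_left]⟩
  rw [MonoidHom.mem_ker, map_mul, map_inv, hvu, inv_mul_cancel]

/-- An element whose image commutes with `E` commutes with the inverse image of `E`. -/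
theorem comm_of (hπ : Function.Surjective π) (hc : π.ker ≤ Subgroup.center L)
    (hEE : ⁅E, E⁆ = E) {a : L} (ha : ∀ y ∈ E, π a * y = y * π a) {u : L} (hu : π u ∈ E) :
    a * u = u * a := by
  have h1 : ∀ u : L, π u ∈ E → ∃ z ∈ π.ker, a * u * a⁻¹ = u * z := by
    intro u hu
    refine ⟨u⁻¹ * (a * u * a⁻¹), ?_, by rw [mul_inv_cancel_left]⟩
    rw [MonoidHom.mem_ker, map_mul, map_mul, map_mul, map_inv, map_inv, ha _ hu,
      mul_inv_cancel_right, inv_mul_cancel]
  have h2 : ⁅E.comap π, E.comap π⁆ ≤ Subgroup.centralizer {a} := by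
    rw [Subgroup.commutator_le]
    intro v hv w hw
    rw [Subgroup.mem_centralizer_singleton_iff]
    obtain ⟨z, hz, hz'⟩ := h1 v hv
    obtain ⟨z2, hz2, hz2'⟩ := h1 w hw
    have hzc := Subgroup.mem_center_iff.mp (hc hz)
    have hzc2 := Subgroup.mem_center_iff.mp (hc hz2)
    have h3 : a * ⁅v, w⁆ * a⁻¹ = ⁅v, w⁆ := by
      calc a * ⁅v, w⁆ * a⁻¹ = ⁅a * v * a⁻¹, a * w * a⁻¹⁆ := by
            rw [commutatorElement_def, commutatorElement_def]
            group
        _ = (v * z) * (w * z2) * (v * z)⁻¹ * (w * z2)⁻¹ := by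
            rw [hz', hz2', commutatorElement_def]
        _ = (v * z) * (w * z2) * (z⁻¹ * v⁻¹) * (z2⁻¹ * w⁻¹) := by
            rw [mul_inv_rev, mul_inv_rev]
        _ = v * (z * (w * (z2 * z⁻¹))) * v⁻¹ * (z2⁻¹ * w⁻¹) := by
            group
        _ = v * (w * z2) * v⁻¹ * (z2⁻¹ * w⁻¹) := by
            rw [← mul_assoc w z2 z⁻¹, ← mul_assoc z (w * z2) z⁻¹, ← hzc (w * z2),
              mul_inv_cancel_right]
        _ = v * w * (z2 * v⁻¹) * z2⁻¹ * w⁻¹ := by group
        _ = v * w * v⁻¹ * w⁻¹ := by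
            rw [← hzc2 v⁻¹]
            group
        _ = ⁅v, w⁆ := by rw [commutatorElement_def]
    rw [mul_inv_eq_iff_eq_mul] at h3
    first
    | exact h3
    | exact h3.symm
  obtain ⟨v, hv, z, hz, rfl⟩ := exists_comm hπ hEE hu
  have h3 := Subgroup.mem_centralizer_singleton_iff.mp (h2 hv)
  have h4 := Subgroup.mem_center_iff.mp (hc hz) a
  have h3' : a * v = v * a := by
    first
    | exact h3
    | exact h3.symm
  rw [← mul_assoc, h3', mul_assoc, h4, mul_assoc]

theorem cpa_hyp (hπ : Function.Surjective π) (hc : π.ker ≤ Subgroup.center L)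
    (hEE : ⁅E, E⁆ = E)
    (hE : ∀ k : K, E.map (MulAut.conj k).toMonoidHom = E ∨
      ∀ x ∈ E, ∀ y ∈ E, (k * x * k⁻¹) * y = y * (k * x * k⁻¹)) (x : L) :
    (∀ k ∈ E.comap π, x * k * x⁻¹ ∈ E.comap π) ∨
      ∀ k ∈ E.comap π, ∀ k' ∈ E.comap π, (x * k * x⁻¹) * k' = k' * (x * k * x⁻¹) := by
  rcases hE (π x) with h | h
  · left
    intro k hk
    rw [Subgroup.mem_comap, map_mul, map_mul, map_inv]
    rw [← h]
    exact ⟨π k, hk, rfl⟩
  · right
    intro k hk k' hk'
    refine comm_of hπ hc hEE (fun y hy => ?_) hk'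
    rw [map_mul, map_mul, map_inv]
    exact h _ hk y hy

end Perf

/-! ### The data of CPA -/

/-- The conclusion of CPA. -/
structure CD {L Ω' : Type} [Group L] [DecidableEq Ω'] (Q' : Subgroup L) (w₀ : Ω')
    (e : (Ω' → Q') →* L) (c : L →* MulAut (Ω' → Q')) (s : L → Equiv.Perm Ω')
    (ac : L → Ω' → MulAut Q') : Prop where
  e0 : ∀ k : Q', e (Pi.mulSingle w₀ k) = k
  ec : ∀ y n, e (c y n) = y * e n * y⁻¹
  cs : ∀ y n w, c y n w = ac y w (n (s y w))
  an : ∀ y w, ∃ z ∈ Subgroup.normalizer (Q' : Set L), ∀ k : Q', ((ac y w k : Q') : L) =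
    z * k * z⁻¹
  ce : ∀ n m, c (e n) m = n * m * n⁻¹
  cz : ∀ z : L, (∀ n, z * e n = e n * z) → c z = 1

section Data

variable {L Ω' : Type} [Group L] [DecidableEq Ω'] {Q' : Subgroup L} {w₀ : Ω'}
  {e : (Ω' → Q') →* L} {c : L →* MulAut (Ω' → Q')} {s : L → Equiv.Perm Ω'}
  {ac : L → Ω' → MulAut Q'}

theorem s_mul [Nontrivial Q'] (h : CD Q' w₀ e c s ac) (y y' : L) (w : Ω') :
    s (y * y') w = s y' (s y w) := by
  obtain ⟨x, hx⟩ := exists_ne (1 : Q')
  have h1 : ∀ n : Ω' → Q', ac (y * y') w (n (s (y * y') w)) =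
      ac y w (ac y' (s y w) (n (s y' (s y w)))) := by
    intro n
    rw [← h.cs, ← h.cs y', ← h.cs y, map_mul, MulAut.mul_apply]
  by_contra hne
  have h2 := h1 (Pi.mulSingle (s (y * y') w) x)
  rw [Pi.mulSingle_eq_same, Pi.mulSingle_eq_of_ne (Ne.symm hne), map_one, map_one] at h2
  exact hx ((map_eq_one_iff _ (ac (y * y') w).injective).mp h2)

theorem ac_mul [Nontrivial Q'] (h : CD Q' w₀ e c s ac) (y y' : L) (w : Ω') (x : Q') :
    ac (y * y') w x = ac y w (ac y' (s y w) x) := by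
  have h1 := h.cs (y * y') (fun _ => x) w
  rw [map_mul, MulAut.mul_apply, h.cs, h.cs] at h1
  exact h1.symm

theorem s_one [Nontrivial Q'] (h : CD Q' w₀ e c s ac) (w : Ω') : s 1 w = w := by
  have h1 := s_mul h 1 1 w
  rw [mul_one] at h1
  exact ((s 1).injective h1).symm

theorem ac_one [Nontrivial Q'] (h : CD Q' w₀ e c s ac) (w : Ω') (x : Q') : ac 1 w x = x := by
  have h1 := h.cs 1 (fun _ => x) w
  rw [map_one, MulAut.one_apply] at h1
  exact h1.symm

theorem s_inv [Nontrivial Q'] (h : CD Q' w₀ e c s ac) (y : L) (w : Ω') :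
    s y⁻¹ (s y w) = w := by
  rw [← s_mul h, mul_inv_cancel, s_one h]

theorem s_inv' [Nontrivial Q'] (h : CD Q' w₀ e c s ac) (y : L) (w : Ω') :
    s y (s y⁻¹ w) = w := by
  rw [← s_mul h, inv_mul_cancel, s_one h]

theorem ac_inv [Nontrivial Q'] (h : CD Q' w₀ e c s ac) (y : L) (w : Ω') (x : Q') :
    ac y w (ac y⁻¹ (s y w) x) = x := by
  rw [← ac_mul h, mul_inv_cancel, ac_one h]

theorem s_of_eq_one [Nontrivial Q'] (h : CD Q' w₀ e c s ac) {y : L} (hy : c y = 1) (w : Ω') :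
    s y w = w := by
  obtain ⟨x, hx⟩ := exists_ne (1 : Q')
  have h1 : ∀ n : Ω' → Q', n w = ac y w (n (s y w)) := by
    intro n
    rw [← h.cs, hy, MulAut.one_apply]
  by_contra hne
  have h2 := h1 (Pi.mulSingle w x)
  rw [Pi.mulSingle_eq_same, Pi.mulSingle_eq_of_ne hne, map_one] at h2
  exact hx h2

theorem ac_of_eq_one [Nontrivial Q'] (h : CD Q' w₀ e c s ac) {y : L} (hy : c y = 1) (w : Ω')
    (x : Q') : ac y w x = x := by
  have h1 := h.cs y (fun _ => x) w
  rw [hy, MulAut.one_apply] at h1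
  exact h1.symm

theorem s_e [Nontrivial Q'] (h : CD Q' w₀ e c s ac) (n : Ω' → Q') (w : Ω') :
    s (e n) w = w := by
  obtain ⟨x, hx⟩ := exists_ne (1 : Q')
  have h1 : ∀ m : Ω' → Q', n w * m w * (n w)⁻¹ = ac (e n) w (m (s (e n) w)) := by
    intro m
    rw [← h.cs, h.ce]
    rfl
  by_contra hne
  have h2 := h1 (Pi.mulSingle w x)
  rw [Pi.mulSingle_eq_same, Pi.mulSingle_eq_of_ne hne, map_one] at h2
  exact hx (conj_eq_one_iff.mp h2)

theorem ac_e [Nontrivial Q'] (h : CD Q' w₀ e c s ac) (n : Ω' → Q') (w : Ω') (x : Q') :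
    ac (e n) w x = n w * x * (n w)⁻¹ := by
  have h1 := h.cs (e n) (fun _ => x) w
  rw [h.ce] at h1
  exact h1.symm

theorem e_single (h : CD Q' w₀ e c s ac) (y : L) (w : Ω') (x : Q') :
    e (Pi.mulSingle w (ac y w x)) = y * e (Pi.mulSingle (s y w) x) * y⁻¹ := by
  rw [← h.ec]
  congr 1
  funext v
  rw [h.cs]
  by_cases hv : v = w
  · subst hv
    rw [Pi.mulSingle_eq_same, Pi.mulSingle_eq_same]
  · rw [Pi.mulSingle_eq_of_ne hv, Pi.mulSingle_eq_of_ne, map_one]
    exact fun h1 => hv ((s y).injective h1)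

theorem e_single0 (h : CD Q' w₀ e c s ac) {y : L} {w : Ω'} (hw : s y w = w₀) (x : Q') :
    e (Pi.mulSingle w (ac y w x)) = y * x * y⁻¹ := by
  rw [e_single h, hw, h.e0]

theorem e_single_comm {w w' : Ω'} (hw : w ≠ w') (x x' : Q') :
    e (Pi.mulSingle w x) * e (Pi.mulSingle w' x') =
      e (Pi.mulSingle w' x') * e (Pi.mulSingle w x) := by
  rw [← map_mul, ← map_mul]
  exact congrArg e (Pi.mulSingle_commute (f := fun _ => Q') hw x x').eq

end Data

/-! ### The orbit of `w₀` -/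

section Orb

variable {L Ω' : Type} [Group L] [DecidableEq Ω'] {Q' : Subgroup L} {w₀ : Ω'}
  {e : (Ω' → Q') →* L} {c : L →* MulAut (Ω' → Q')} {s : L → Equiv.Perm Ω'}
  {ac : L → Ω' → MulAut Q'}

/-- The orbit of `w₀`. -/
def Ow (s : L → Equiv.Perm Ω') (w₀ : Ω') (w : Ω') : Prop := ∃ y, s y w = w₀

theorem Ow_iff [Nontrivial Q'] (h : CD Q' w₀ e c s ac) (y : L) (w : Ω') :
    Ow s w₀ (s y w) ↔ Ow s w₀ w := by
  constructor
  · rintro ⟨y', hy'⟩
    exact ⟨y * y', by rw [s_mul h, hy']⟩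
  · rintro ⟨y', hy'⟩
    exact ⟨y⁻¹ * y', by rw [s_mul h, s_inv h, hy']⟩

theorem Ow_w0 [Nontrivial Q'] (h : CD Q' w₀ e c s ac) : Ow s w₀ w₀ := ⟨1, s_one h w₀⟩

/-- The orbit of `w₀` as a type. -/
abbrev Om (s : L → Equiv.Perm Ω') (w₀ : Ω') : Type := {w : Ω' // Ow s w₀ w}

/-- The permutation of the orbit. -/
def sO [Nontrivial Q'] (h : CD Q' w₀ e c s ac) (y : L) : Equiv.Perm (Om s w₀) :=
  (s y).subtypePerm (Ow_iff h y)

theorem sO_coe [Nontrivial Q'] (h : CD Q' w₀ e c s ac) (y : L) (w : Om s w₀) :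
    (sO h y w : Ω') = s y w := rfl

open Classical in
/-- The extension by 1. -/
noncomputable def ex (s : L → Equiv.Perm Ω') (w₀ : Ω') (Q : Type) [Group Q] :
    (Om s w₀ → Q) →* (Ω' → Q) where
  toFun n w := if h : Ow s w₀ w then n ⟨w, h⟩ else 1
  map_one' := by
    funext w
    simp
  map_mul' := by
    intro n m
    funext w
    by_cases h : Ow s w₀ w
    · simp [h]
    · simp [h]

theorem ex_of {Q : Type} [Group Q] (n : Om s w₀ → Q) {w : Ω'} (h : Ow s w₀ w) :
    ex s w₀ Q n w = n ⟨w, h⟩ := dif_pos h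

theorem ex_not {Q : Type} [Group Q] (n : Om s w₀ → Q) {w : Ω'} (h : ¬ Ow s w₀ w) :
    ex s w₀ Q n w = 1 := dif_neg h

theorem ex_single {Q : Type} [Group Q] (w : Om s w₀) (x : Q) :
    ex s w₀ Q (Pi.mulSingle w x) = Pi.mulSingle (w : Ω') x := by
  funext v
  by_cases hv : Ow s w₀ v
  · rw [ex_of _ hv]
    by_cases hvw : v = w
    · subst hvw
      rw [Pi.mulSingle_eq_same]
      exact (Pi.mulSingle_eq_same (M := fun _ : Ω' => Q) (w : Ω') x).symm
    · rw [Pi.mulSingle_eq_of_ne hvw, Pi.mulSingle_eq_of_ne]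
      exact fun h1 => hvw (congrArg Subtype.val h1)
  · rw [ex_not _ hv, Pi.mulSingle_eq_of_ne]
    exact fun h1 => hv (by rw [h1]; exact w.2)

/-- The automorphisms of `Q'` which are conjugations with elements of the normalizer. -/
def KN (Q' : Subgroup L) : Subgroup (MulAut Q') where
  carrier := {a | ∃ z ∈ Subgroup.normalizer (Q' : Set L), ∀ k : Q', ((a k : Q') : L) =
    z * k * z⁻¹}
  one_mem' := ⟨1, Subgroup.one_mem _, fun k => by simp⟩
  mul_mem' := by
    rintro a b ⟨z, hz, hz'⟩ ⟨z2, hz2, hz2'⟩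
    refine ⟨z * z2, Subgroup.mul_mem _ hz hz2, fun k => ?_⟩
    rw [MulAut.mul_apply, hz', hz2']
    group
  inv_mem' := by
    rintro a ⟨z, hz, hz'⟩
    refine ⟨z⁻¹, Subgroup.inv_mem _ hz, fun k => ?_⟩
    have h1 := hz' (a⁻¹ k)
    rw [MulAut.apply_inv_self] at h1
    rw [h1]
    group

/-- The homomorphism to the wreath product. -/
def ph1 [Nontrivial Q'] (h : CD Q' w₀ e c s ac) :
    L →* Gam (Equiv.Perm (Om s w₀)) (Om s w₀) (KN Q') where
  toFun y := ⟨fun w => ⟨ac y w, h.an y w⟩, (sO h y)⁻¹⟩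
  map_one' := by
    refine ext' ?_ fun w => ?_
    · change (sO h 1)⁻¹ = 1
      rw [inv_eq_one]
      refine Equiv.ext fun w => Subtype.ext ?_
      rw [sO_coe, s_one h]
      rfl
    · refine Subtype.ext (MulEquiv.ext fun x => ?_)
      exact ac_one h _ x
  map_mul' := by
    intro y y'
    refine ext' ?_ fun w => ?_
    · change (sO h (y * y'))⁻¹ = (sO h y)⁻¹ * (sO h y')⁻¹
      rw [← mul_inv_rev]
      congr 1
      refine Equiv.ext fun w => Subtype.ext ?_
      rw [sO_coe, s_mul h]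
      rfl
    · refine Subtype.ext (MulEquiv.ext fun x => ?_)
      exact ac_mul h y y' _ x

theorem ph1_left [Nontrivial Q'] (h : CD Q' w₀ e c s ac) (y : L) (w : Om s w₀) :
    (((ph1 h y).left w : KN Q') : MulAut Q') = ac y w := rfl

theorem ph1_right [Nontrivial Q'] (h : CD Q' w₀ e c s ac) (y : L) :
    (ph1 h y).right = (sO h y)⁻¹ := rfl

/-- The homomorphism of the power. -/
noncomputable def ep (s : L → Equiv.Perm Ω') (w₀ : Ω') (e : (Ω' → Q') →* L) :
    (Om s w₀ → Q') →* L :=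
  e.comp (ex s w₀ Q')

theorem ep_apply (n : Om s w₀ → Q') : ep s w₀ e n = e (ex s w₀ Q' n) := rfl

/-- Conjugations with elements of `Q'`. -/
def qq (Q' : Subgroup L) : Q' →* KN Q' where
  toFun x := ⟨MulAut.conj x, ⟨x, Subgroup.le_normalizer x.2, fun k => by
    rw [MulAut.conj_apply]
    rfl⟩⟩
  map_one' := Subtype.ext (map_one _)
  map_mul' := fun x y => Subtype.ext (map_mul _ x y)

theorem qq_coe (x : Q') : ((qq Q' x : KN Q') : MulAut Q') = MulAut.conj x := rfl

theorem ep_conj [Nontrivial Q'] (h : CD Q' w₀ e c s ac) (l : L) (n : Om s w₀ → Q') :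
    ep s w₀ e (wB (KN Q').subtype (Om s w₀) (ph1 h l) n) = l * ep s w₀ e n * l⁻¹ := by
  rw [ep_apply, ep_apply, ← h.ec]
  congr 1
  funext w
  rw [h.cs]
  by_cases hw : Ow s w₀ w
  · rw [ex_of _ hw, ex_of _ ((Ow_iff h l w).mpr hw)]
    rfl
  · rw [ex_not _ hw, ex_not _ (fun h1 => hw ((Ow_iff h l w).mp h1)), map_one]

theorem ph1_ep [Nontrivial Q'] (h : CD Q' w₀ e c s ac) (n : Om s w₀ → Q') :
    ph1 h (ep s w₀ e n) = gin (fun o => qq Q' (n o)) := by
  refine ext' ?_ fun w => ?_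
  · rw [ph1_right, gin_right, inv_eq_one]
    refine Equiv.ext fun w => Subtype.ext ?_
    rw [sO_coe, ep_apply, s_e h]
    rfl
  · refine Subtype.ext (MulEquiv.ext fun x => ?_)
    rw [ph1_left, gin_left, qq_coe, MulAut.conj_apply, ep_apply, ac_e h, ex_of _ w.2]

theorem ep_single [Nontrivial Q'] (h : CD Q' w₀ e c s ac) {y : L} {w : Om s w₀}
    (hw : s y w = w₀) (x : Q') :
    ep s w₀ e (Pi.mulSingle w (ac y w x)) = y * x * y⁻¹ := by
  rw [ep_apply, ex_single, e_single0 h hw]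

/-- A central element is trivial in the wreath product. -/
theorem ph1_of_comm [Nontrivial Q'] (h : CD Q' w₀ e c s ac) {y : L}
    (hy : ∀ n, y * e n = e n * y) : ph1 h y = 1 := by
  have h1 := h.cz y hy
  refine ext' ?_ fun w => ?_
  · change (sO h y)⁻¹ = 1
    rw [inv_eq_one]
    refine Equiv.ext fun w => Subtype.ext ?_
    rw [sO_coe, s_of_eq_one h h1]
    rfl
  · refine Subtype.ext (MulEquiv.ext fun x => ?_)
    rw [ph1_left, ac_of_eq_one h h1]
    rfl

theorem comm_of_ph1 [Nontrivial Q'] (h : CD Q' w₀ e c s ac) {y : L} (hy : ph1 h y = 1)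
    (n : Om s w₀ → Q') : y * ep s w₀ e n * y⁻¹ = ep s w₀ e n := by
  rw [← ep_conj h, hy, map_one]
  rfl

end Orb

/-! ### The theorem -/

section Thm

variable {L K : Type} [Group L] [Group K] {π : L →* K} {E N : Subgroup K} {Ω' : Type}
  [DecidableEq Ω'] {w₀ : Ω'} {e : (Ω' → E.comap π) →* L}
  {c : L →* MulAut (Ω' → E.comap π)} {s : L → Equiv.Perm Ω'}
  {ac : L → Ω' → MulAut (E.comap π)}

theorem exists_lift {G : Type} [Group G] (hπ : Function.Surjective π) (f : L →* G)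
    (hf : ∀ l, π l = 1 → f l = 1) : ∃ φ : K →* G, ∀ l, φ (π l) = f l := by
  choose r hr using hπ
  have h1 : ∀ l l', π l = π l' → f l = f l' := by
    intro l l' h
    have h2 : f (l * l'⁻¹) = 1 := hf _ (by rw [map_mul, map_inv, h, mul_inv_cancel])
    rw [map_mul, map_inv, mul_inv_eq_one] at h2
    exact h2
  refine ⟨⟨⟨fun k => f (r k), hf _ (hr 1)⟩, fun k k' => ?_⟩, fun l => h1 _ _ (hr _)⟩
  change f (r (k * k')) = f (r k) * f (r k')
  rw [← map_mul]
  exact h1 _ _ (by rw [hr, map_mul, hr, hr])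

theorem s_symm (s : L → Equiv.Perm Ω') (y : L) (w₀ : Ω') : s y ((s y).symm w₀) = w₀ :=
  (s y).apply_symm_apply w₀

/-- The conjugates of `Q'` lie in the range. -/
theorem conj_mem_range [Nontrivial (E.comap π)] (h : CD (E.comap π) w₀ e c s ac) (y : L)
    (x : E.comap π) : y * x * y⁻¹ ∈ (ep s w₀ e).range :=
  ⟨Pi.mulSingle ⟨(s y).symm w₀, y, s_symm s y w₀⟩ (ac y ((s y).symm w₀) x),
    ep_single h (w := ⟨(s y).symm w₀, y, s_symm s y w₀⟩) (s_symm s y w₀) x⟩

theorem single_eq [Nontrivial (E.comap π)] (h : CD (E.comap π) w₀ e c s ac) (w : Om s w₀)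
    (u : E.comap π) : ∃ y : L, s y w = w₀ ∧
      ep s w₀ e (Pi.mulSingle w u) = y * ((ac y w)⁻¹ u : E.comap π) * y⁻¹ := by
  obtain ⟨y, hy⟩ := w.2
  refine ⟨y, hy, ?_⟩
  have h2 := ep_single h hy ((ac y w)⁻¹ u)
  rw [MulAut.apply_inv_self] at h2
  exact h2

theorem NN_eq [Finite Ω'] [Nontrivial (E.comap π)] (h : CD (E.comap π) w₀ e c s ac)
    (hπ : Function.Surjective π) (hN : N.Normal) (hEN : E ≤ N)
    (hNE : (⨆ k : K, E.map (MulAut.conj k).toMonoidHom) = N) :
    (ep s w₀ e).range.map π = N := by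
  refine le_antisymm ?_ ?_
  · rintro _ ⟨_, ⟨n, rfl⟩, rfl⟩
    have h1 : n ∈ (N.comap π).comap (ep s w₀ e) := by
      refine Subgroup.pi_mem_of_mulSingle_mem n fun w => ?_
      obtain ⟨y, -, hy⟩ := single_eq h w (n w)
      rw [Subgroup.mem_comap, Subgroup.mem_comap, hy, map_mul, map_mul, map_inv]
      exact hN.conj_mem _ (hEN ((ac y w)⁻¹ (n w) : E.comap π).2) _
    exact h1
  · rw [← hNE]
    refine iSup_le fun k => ?_
    rintro _ ⟨x, hx, rfl⟩
    obtain ⟨y, rfl⟩ := hπ k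
    obtain ⟨x', rfl⟩ := hπ x
    refine ⟨y * x' * y⁻¹, conj_mem_range h y ⟨x', hx⟩, ?_⟩
    rw [map_mul, map_mul, map_inv]
    rfl

theorem ph1_eq_one [Finite Ω'] [Nontrivial (E.comap π)] (h : CD (E.comap π) w₀ e c s ac)
    (hπ : Function.Surjective π) (hc : π.ker ≤ Subgroup.center L) (hN : N.Normal)
    (hEN : E ≤ N) (hNE : (⨆ k : K, E.map (MulAut.conj k).toMonoidHom) = N)
    (hCN : ∀ k : K, (∀ x ∈ N, k * x = x * k) → k = 1) (y : L) :
    ph1 h y = 1 ↔ π y = 1 := by
  constructor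
  · intro h1
    refine hCN _ fun x hx => ?_
    rw [← NN_eq h hπ hN hEN hNE] at hx
    obtain ⟨_, ⟨n, rfl⟩, rfl⟩ := hx
    have h2 := comm_of_ph1 h h1 n
    rw [mul_inv_eq_iff_eq_mul] at h2
    rw [← map_mul, ← map_mul, h2]
  · intro h1
    refine ph1_of_comm h fun n => ?_
    exact (Subgroup.mem_center_iff.mp (hc h1) _).symm

theorem ker_qq (hπ : Function.Surjective π)
    (hZ : ∀ x ∈ E, (∀ y ∈ E, x * y = y * x) → x = 1) {z : E.comap π}
    (hz : z ∈ (qq (E.comap π)).ker) : π z = 1 := by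
  refine hZ _ z.2 fun y hy => ?_
  obtain ⟨y', rfl⟩ := hπ y
  have h1 : MulAut.conj z = 1 := congrArg Subtype.val (MonoidHom.mem_ker.mp hz)
  have h2 : MulAut.conj z (⟨y', hy⟩ : E.comap π) = ⟨y', hy⟩ := by
    rw [h1, MulAut.one_apply]
  rw [MulAut.conj_apply, mul_inv_eq_iff_eq_mul] at h2
  have h3 : (z : L) * y' = y' * z := congrArg Subtype.val h2
  rw [← map_mul, h3, map_mul]

/-- The kernel of the conjugation. -/
def inc (hπ : Function.Surjective π)
    (hZ : ∀ x ∈ E, (∀ y ∈ E, x * y = y * x) → x = 1) : (qq (E.comap π)).ker →* π.ker where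
  toFun z := ⟨((z : E.comap π) : L), ker_qq hπ hZ z.2⟩
  map_one' := rfl
  map_mul' := fun _ _ => rfl

theorem mu_prod [Finite Ω'] [Fintype (Om s w₀)] [Nontrivial (E.comap π)]
    (h : CD (E.comap π) w₀ e c s ac)
    (hπ : Function.Surjective π) (hc : π.ker ≤ Subgroup.center L) (hN : N.Normal)
    (hEN : E ≤ N) (hNE : (⨆ k : K, E.map (MulAut.conj k).toMonoidHom) = N)
    (hCN : ∀ k : K, (∀ x ∈ N, k * x = x * k) → k = 1)
    (hZ : ∀ x ∈ E, (∀ y ∈ E, x * y = y * x) → x = 1) (μ : π.ker →* ℂˣ)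
    (n : Om s w₀ → E.comap π) (hn : ∀ o, n o ∈ (qq (E.comap π)).ker)
    (h' : ep s w₀ e n ∈ π.ker) :
    μ ⟨ep s w₀ e n, h'⟩ = ∏ o, (μ.comp (inc hπ hZ)) ⟨n o, hn o⟩ := by
  classical
  have h1 : ∀ z : Om s w₀ → (qq (E.comap π)).ker,
      ep s w₀ e (fun o => (z o : E.comap π)) ∈ π.ker := by
    intro z
    rw [MonoidHom.mem_ker, ← ph1_eq_one h hπ hc hN hEN hNE hCN, ph1_ep h]
    have h2 : (fun o => qq (E.comap π) ((z o : E.comap π))) = fun _ => 1 := by
      funext o
      exact (z o).2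
    rw [h2]
    exact gin_one
  let F : (Om s w₀ → (qq (E.comap π)).ker) →* ℂˣ :=
    { toFun := fun z => μ ⟨ep s w₀ e (fun o => (z o : E.comap π)), h1 z⟩
      map_one' := by
        rw [← map_one μ]
        congr 1
        exact Subtype.ext (map_one (ep s w₀ e))
      map_mul' := by
        intro z z'
        rw [← map_mul]
        congr 1
        exact Subtype.ext (map_mul (ep s w₀ e) (fun o => (z o : E.comap π))
          (fun o => (z' o : E.comap π))) }
  let G : (Om s w₀ → (qq (E.comap π)).ker) →* ℂˣ :=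
    { toFun := fun z => ∏ o, (μ.comp (inc hπ hZ)) (z o)
      map_one' := by
        refine Finset.prod_eq_one fun o _ => ?_
        exact map_one _
      map_mul' := by
        intro z z'
        rw [← Finset.prod_mul_distrib]
        refine Finset.prod_congr rfl fun o _ => ?_
        exact map_mul _ _ _ }
  have h3 : ∀ z, z ∈ F.eqLocus G := by
    intro z
    refine Subgroup.pi_mem_of_mulSingle_mem z fun w => ?_
    generalize z w = z
    change μ ⟨ep s w₀ e (fun o => ((Pi.mulSingle w z : Om s w₀ → (qq (E.comap π)).ker) o :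
      E.comap π)), _⟩ = ∏ o, (μ.comp (inc hπ hZ)) ((Pi.mulSingle w z :
      Om s w₀ → (qq (E.comap π)).ker) o)
    rw [Finset.prod_eq_single w]
    · rw [Pi.mulSingle_eq_same]
      change _ = μ (inc hπ hZ z)
      congr 1
      refine Subtype.ext ?_
      change ep s w₀ e (fun o => ((Pi.mulSingle w z : Om s w₀ → (qq (E.comap π)).ker) o :
        E.comap π)) = ((z : E.comap π) : L)
      have h4 : (fun o => ((Pi.mulSingle w z : Om s w₀ → (qq (E.comap π)).ker) o :
          E.comap π)) = Pi.mulSingle w (z : E.comap π) := by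
        funext o
        by_cases ho : o = w
        · subst ho
          rw [Pi.mulSingle_eq_same, Pi.mulSingle_eq_same]
        · rw [Pi.mulSingle_eq_of_ne ho, Pi.mulSingle_eq_of_ne ho]
          rfl
      rw [h4]
      obtain ⟨y, hy, -⟩ := single_eq h w (z : E.comap π)
      have h5 : ac y w (z : E.comap π) = z := by
        obtain ⟨u, -, hu⟩ := h.an y w
        refine Subtype.ext ?_
        rw [hu, Subgroup.mem_center_iff.mp (hc (ker_qq hπ hZ z.2)) u, mul_inv_cancel_right]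
      have h6 := ep_single h hy (z : E.comap π)
      rw [h5] at h6
      rw [h6, Subgroup.mem_center_iff.mp (hc (ker_qq hπ hZ z.2)) y, mul_inv_cancel_right]
    · intro o _ ho
      rw [Pi.mulSingle_eq_of_ne ho, map_one]
    · intro h4
      exact absurd (Finset.mem_univ w) h4
  exact h3 (fun o => (⟨n o, hn o⟩ : (qq (E.comap π)).ker))

theorem exists_w0 [Nontrivial (E.comap π)] (h : CD (E.comap π) w₀ e c s ac)
    (hna : ∃ x y : E.comap π, x * y ≠ y * x) (b : KN (E.comap π)) :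
    ∃ z : L, s z w₀ = w₀ ∧ ac z w₀ = b := by
  obtain ⟨b, z, hz, hzb⟩ := b
  have h1 : s z w₀ = w₀ := by
    by_contra hne
    have hw' : s z ((s z).symm w₀) = w₀ := s_symm s z w₀
    have hne' : (s z).symm w₀ ≠ w₀ := by
      intro h2
      rw [h2] at hw'
      exact hne hw'
    obtain ⟨x, y, hxy⟩ := hna
    have h3 := e_single0 h hw' (b⁻¹ x)
    rw [← hzb, MulAut.apply_inv_self] at h3
    have h5 := e_single_comm (e := e) hne' (ac z ((s z).symm w₀) (b⁻¹ x)) y
    rw [h3, h.e0] at h5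
    exact hxy (Subtype.ext h5)
  refine ⟨z, h1, MulEquiv.ext fun x => Subtype.ext ?_⟩
  have h2 := e_single0 h h1 x
  rw [h.e0] at h2
  rw [h2, hzb]

theorem exists_o [Nontrivial (E.comap π)] (h : CD (E.comap π) w₀ e c s ac)
    (hna : ∃ x y : E.comap π, x * y ≠ y * x) (o : Om s w₀) (b : KN (E.comap π)) :
    ∃ l : L, (ph1 h l).right o = o ∧ (ph1 h l).left o = b := by
  obtain ⟨y, hy⟩ := o.2
  have h1 : (ph1 h y).right ⟨w₀, Ow_w0 h⟩ = o := by
    rw [ph1_right, Equiv.Perm.inv_eq_iff_eq]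
    exact Subtype.ext hy.symm
  have h1' : (ph1 h y).right⁻¹ o = ⟨w₀, Ow_w0 h⟩ := by
    rw [Equiv.Perm.inv_eq_iff_eq, h1]
  obtain ⟨z, hz, hzb⟩ := exists_w0 h hna (((ph1 h y).left o)⁻¹ * b * (ph1 h y).left o)
  have h2 : (ph1 h z).right ⟨w₀, Ow_w0 h⟩ = ⟨w₀, Ow_w0 h⟩ := by
    rw [ph1_right, Equiv.Perm.inv_eq_iff_eq]
    exact Subtype.ext hz.symm
  have h2' : (ph1 h z).right⁻¹ ⟨w₀, Ow_w0 h⟩ = ⟨w₀, Ow_w0 h⟩ := by
    rw [Equiv.Perm.inv_eq_iff_eq, h2]
  have h3 : (ph1 h z).left ⟨w₀, Ow_w0 h⟩ = ((ph1 h y).left o)⁻¹ * b * (ph1 h y).left o :=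
    Subtype.ext hzb
  refine ⟨y * z * y⁻¹, ?_, ?_⟩
  · rw [map_mul, map_mul, map_inv, mul_right, mul_right, inv_right]
    change (ph1 h y).right ((ph1 h z).right ((ph1 h y).right⁻¹ o)) = o
    rw [h1', h2, h1]
  · have h4 : ((ph1 h y).right * (ph1 h z).right)⁻¹ o = ⟨w₀, Ow_w0 h⟩ := by
      rw [mul_inv_rev]
      change (ph1 h z).right⁻¹ ((ph1 h y).right⁻¹ o) = _
      rw [h1', h2']
    rw [map_mul, map_mul, map_inv, mul_left, mul_left, inv_left, mul_right, h4, h1, h1', h3]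
    group

end Thm

end Pool.Agent.DPG.CNB

namespace Pool.Agent.DPG

open Pool.Agent.DPG.CNB Pool.Agent.DP Pool.Agent.DPG.WDB

/-- CNB: the wreath product data. -/
theorem CNB_thm : Stmt_CNB := by
  intro L K _ _ _ _ π hπ hc μ hμ N hN hCN E hEN hE1 hEE hZ hEk hNE hEne
  obtain ⟨Ω', _, _, w₀, e, c, s, ac, h1, h2, h3, h4, h5, h6⟩ :=
    Pool.Agent.DPW.CPA_thm L (E.comap π) (cpa_hyp hπ hc hEE hEk)
  have h : CD (E.comap π) w₀ e c s ac := ⟨h1, h2, h3, h4, h5, h6⟩
  have hna : ∃ x y : E.comap π, x * y ≠ y * x := by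
    by_contra hcon
    push Not at hcon
    refine hE1 ((Subgroup.eq_bot_iff_forall _).mpr fun x hx => hZ x hx fun y hy => ?_)
    obtain ⟨x', rfl⟩ := hπ x
    obtain ⟨y', rfl⟩ := hπ y
    have h7 : x' * y' = y' * x' := congrArg Subtype.val (hcon ⟨x', hx⟩ ⟨y', hy⟩)
    rw [← map_mul, h7, map_mul]
  have : Nontrivial (E.comap π) := by
    obtain ⟨x, y, hxy⟩ := hna
    exact ⟨x * y, y * x, hxy⟩
  obtain ⟨φ, hφ⟩ := exists_lift hπ (ph1 h)
    (fun l hl => (ph1_eq_one h hπ hc hN hEN hNE hCN l).mpr hl)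
  have : Fintype (Om s w₀) := Fintype.ofFinite _
  have tr : ∀ o o' : Om s w₀, ∃ k, (φ k).right o = o' := by
    intro o o'
    obtain ⟨y, hy⟩ := o.2
    obtain ⟨y', hy'⟩ := o'.2
    refine ⟨π (y' * y⁻¹), ?_⟩
    rw [hφ, ph1_right, Equiv.Perm.inv_eq_iff_eq]
    refine Subtype.ext ?_
    have h7 := s_inv h y (o : Ω')
    rw [hy] at h7
    rw [sO_coe, s_mul h, hy', h7]
  have sj : ∀ (o : Om s w₀) (b : KN (E.comap π)), ∃ k, (φ k).right o = o ∧ (φ k).left o = b := by
    intro o b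
    obtain ⟨l, hl, hl'⟩ := exists_o h hna o b
    exact ⟨π l, by rw [hφ, hl], by rw [hφ, hl']⟩
  have hcard : 1 < Fintype.card (Om s w₀) := by
    obtain ⟨k, hk⟩ := hEne
    obtain ⟨y, rfl⟩ := hπ k
    rw [Fintype.one_lt_card_iff]
    refine ⟨⟨(s y).symm w₀, y, s_symm s y w₀⟩, ⟨w₀, Ow_w0 h⟩, fun hcon => hk ?_⟩
    have h7 : (s y).symm w₀ = w₀ := congrArg Subtype.val hcon
    have h8 : s y w₀ = w₀ := by
      have h9 := s_symm s y w₀
      rw [h7] at h9
      exact h9
    have h9 : ∀ x : E.comap π, ((ac y w₀ x : E.comap π) : L) = y * x * y⁻¹ := by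
      intro x
      rw [← e_single0 h h8 x, h.e0]
    refine le_antisymm ?_ ?_
    · rintro _ ⟨x, hx, rfl⟩
      obtain ⟨x', rfl⟩ := hπ x
      have h10 := (ac y w₀ ⟨x', hx⟩).2
      rw [Subgroup.mem_comap, h9, map_mul, map_mul, map_inv] at h10
      exact h10
    · intro u hu
      obtain ⟨u', rfl⟩ := hπ u
      have h10 := h9 ((ac y w₀)⁻¹ ⟨u', hu⟩)
      rw [MulAut.apply_inv_self] at h10
      refine ⟨π (((ac y w₀)⁻¹ ⟨u', hu⟩ : E.comap π) : L), ((ac y w₀)⁻¹ ⟨u', hu⟩ : E.comap π).2, ?_⟩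
      change π y * π (((ac y w₀)⁻¹ ⟨u', hu⟩ : E.comap π) : L) * (π y)⁻¹ = π u'
      rw [← map_inv, ← map_mul, ← map_mul, ← h10]
  refine ⟨Om s w₀, KN (E.comap π), E.comap π, inferInstance, inferInstance,
    Fintype.ofFinite _, inferInstance, Fintype.ofFinite _, φ, qq (E.comap π),
    (KN (E.comap π)).subtype, ep s w₀ e, μ.comp (inc hπ hZ), ?_,
    NN_eq h hπ hN hEN hNE, hcard, ?_⟩
  · refine ⟨hπ, hc, hμ, ?_, ?_, ?_, ?_, ?_, ?_, ?_, ?_, ?_, tr, sj⟩
    · rw [injective_iff_map_eq_one]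
      intro k hk
      obtain ⟨l, rfl⟩ := hπ k
      rw [hφ] at hk
      exact (ph1_eq_one h hπ hc hN hEN hNE hCN l).mp hk
    · intro z z' hz
      have h7 := congrArg Subtype.val (hμ hz)
      exact Subtype.ext (Subtype.ext h7)
    · intro x a
      rfl
    · intro k x
      refine Subtype.ext (MulEquiv.ext fun a => ?_)
      change ((k : MulAut (E.comap π)) x) * a * ((k : MulAut (E.comap π)) x)⁻¹ =
        (k : MulAut (E.comap π)) (x * ((k : MulAut (E.comap π))⁻¹ a) * x⁻¹)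
      rw [map_mul, map_mul, MulAut.apply_inv_self, map_inv]
    · intro k z hz
      obtain ⟨k, u, hu, huk⟩ := k
      refine Subtype.ext ?_
      change ((k z : E.comap π) : L) = z
      rw [huk, Subgroup.mem_center_iff.mp (hc (ker_qq hπ hZ hz)) u, mul_inv_cancel_right]
    · intro n
      rw [hφ, ph1_ep h]
    · intro l n
      rw [hφ]
      exact ep_conj h l n
    · intro z hz
      have hzE : π z ∈ E := by
        rw [MonoidHom.mem_ker.mp hz]
        exact E.one_mem
      refine ⟨Pi.mulSingle ⟨w₀, Ow_w0 h⟩ ⟨z, hzE⟩, ?_⟩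
      rw [ep_apply, ex_single, h.e0]
    · intro n hn h'
      exact mu_prod h hπ hc hN hEN hNE hCN hZ μ n hn h'
  · have h7 : Nat.card (KN (E.comap π)) ≤
        Nat.card {k : K // (φ k).right ⟨w₀, Ow_w0 h⟩ = ⟨w₀, Ow_w0 h⟩} := by
      refine Nat.card_le_card_of_surjective (fun k => (φ (k : K)).left ⟨w₀, Ow_w0 h⟩)
        fun b => ?_
      obtain ⟨k, hk, hk'⟩ := sj ⟨w₀, Ow_w0 h⟩ b
      exact ⟨⟨k, hk⟩, hk'⟩
    refine lt_of_le_of_lt h7 ?_
    obtain ⟨o, ho⟩ := Fintype.exists_ne_of_one_lt_card hcard ⟨w₀, Ow_w0 h⟩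
    obtain ⟨k, hk⟩ := tr ⟨w₀, Ow_w0 h⟩ o
    exact Finite.card_subtype_lt (x := k) (fun h8 => ho (by rw [← hk, h8]))

end Pool.Agent.DPG


end

section

/-!
# CST: the chains with constant coordinates
-/

namespace Pool.Agent.DPG

open Pool.Agent.DP Pool.Agent.DPC Pool.Agent.DPM Pool.Agent.DPN Pool.Agent.DPF
  Pool.Agent.DPK Pool.Agent.Lib_helper13 Representation
open Pool.Agent.Lib_helper13.Dade (pCore DadeHolds dadeSum)

namespace CST

open WDB

section

variable {L K K1 Q Ω : Type} [Group L] [Group K] [Group K1] [Group Q] [Fintype Ω]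
  {π : L →* K} {μ : π.ker →* ℂˣ} {φ : K →* Gam (Equiv.Perm Ω) Ω K1} {q : Q →* K1}
  {α : K1 →* MulAut Q} {ε : (Ω → Q) →* L} {μQ : q.ker →* ℂˣ}

theorem mem_cst {N : Subgroup K} {D : Subgroup K1} {k : K} :
    k ∈ cst φ N D ↔ k ∈ N ∧ (φ k).right = 1 ∧ ∀ o, (φ k).left o ∈ D := Iff.rfl

theorem mem_cst' (h : WD π μ φ q α ε μQ) {D : Subgroup K1} (hD : D ≤ q.range) {k : K} :
    k ∈ cst φ (NN' π ε) D ↔ (φ k).right = 1 ∧ ∀ o, (φ k).left o ∈ D := by
  rw [mem_cst, mem_NN h]
  constructor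
  · rintro ⟨-, h2⟩
    exact h2
  · rintro ⟨h1, h2⟩
    exact ⟨⟨h1, fun o => hD (h2 o)⟩, h1, h2⟩

/-- The element of `cst D` all of whose coordinates are `x`. -/
theorem exists_const (h : WD π μ φ q α ε μQ) {D : Subgroup K1} (hD : D ≤ q.range) {x : K1}
    (hx : x ∈ D) : ∃ m ∈ cst φ (NN' π ε) D, ∀ o, (φ m).left o = x := by
  obtain ⟨n, -, h1, h2⟩ := exists_NN h (fun _ => x) fun _ => hD hx
  refine ⟨π (ε n), (mem_cst' h hD).mpr ⟨h1, fun o => ?_⟩, h2⟩
  rw [h2 o]
  exact hx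

theorem cst_mono {N : Subgroup K} {D D' : Subgroup K1} (hD : D ≤ D') :
    cst φ N D ≤ cst φ N D' :=
  fun _ hk => ⟨hk.1, hk.2.1, fun o => hD (hk.2.2 o)⟩

theorem le_of_cst_le [Nonempty Ω] (h : WD π μ φ q α ε μQ) {D D' : Subgroup K1}
    (hD : D ≤ q.range) (hc : cst φ (NN' π ε) D ≤ cst φ (NN' π ε) D') : D ≤ D' := by
  intro x hx
  obtain ⟨m, hm, hmx⟩ := exists_const h hD hx
  have h1 := (hc hm).2.2 (Classical.arbitrary Ω)
  rw [hmx] at h1
  exact h1

theorem cst_inj [Nonempty Ω] (h : WD π μ φ q α ε μQ) {D D' : Subgroup K1}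
    (hD : D ≤ q.range) (hD' : D' ≤ q.range)
    (hc : cst φ (NN' π ε) D = cst φ (NN' π ε) D') : D = D' :=
  le_antisymm (le_of_cst_le h hD hc.le) (le_of_cst_le h hD' hc.ge)

theorem card_cst (h : WD π μ φ q α ε μQ) {D : Subgroup K1} (hD : D ≤ q.range) :
    Nat.card (cst φ (NN' π ε) D) = Nat.card D ^ Fintype.card Ω := by
  have h1 : Nat.card (cst φ (NN' π ε) D) = Nat.card (Ω → D) := by
    refine Nat.card_congr (Equiv.ofBijective (fun k => fun o =>
      ⟨(φ (k : K)).left o, k.2.2.2 o⟩) ⟨?_, ?_⟩)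
    · intro k k' hk
      refine Subtype.ext (eq_of_coords h ?_ fun o => ?_)
      · rw [k.2.2.1, k'.2.2.1]
      · exact congrArg Subtype.val (congrFun hk o)
    · intro s
      obtain ⟨n, -, hn', hn⟩ := exists_NN h (fun o => (s o : K1)) fun o => hD (s o).2
      refine ⟨⟨π (ε n), (mem_cst' h hD).mpr ⟨hn', fun o => ?_⟩⟩, ?_⟩
      · rw [hn]
        exact (s o).2
      · funext o
        exact Subtype.ext (hn o)
  rw [h1, Nat.card_fun, Nat.card_eq_fintype_card (α := Ω)]

theorem isPGroup_cst [Finite K1] {ℓ : ℕ} [Fact ℓ.Prime] (h : WD π μ φ q α ε μQ)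
    {D : Subgroup K1} (hD : D ≤ q.range) (hp : IsPGroup ℓ D) :
    IsPGroup ℓ (cst φ (NN' π ε) D) := by
  obtain ⟨n, hn⟩ := IsPGroup.iff_card.mp hp
  refine IsPGroup.of_card (n := n * Fintype.card Ω) ?_
  rw [card_cst h hD, hn, pow_mul]

/-- The members of a chain are determined by their orders. -/
theorem chain_eq [Finite K1] {σ : Finset (Subgroup K1)}
    (hσ : IsChain (· ≤ ·) (σ : Set (Subgroup K1))) {D D' : Subgroup K1} (hD : D ∈ σ)
    (hD' : D' ∈ σ) (hc : Nat.card D = Nat.card D') : D = D' := by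
  rcases hσ.total (Finset.mem_coe.mpr hD) (Finset.mem_coe.mpr hD') with h1 | h1
  · exact Subgroup.eq_of_le_of_card_ge h1 hc.ge
  · exact (Subgroup.eq_of_le_of_card_ge h1 hc.le).symm

theorem mem_cstC {N : Subgroup K} {σ : Finset (Subgroup K1)} {E : Subgroup K} :
    E ∈ cstC φ N σ ↔ ∃ D ∈ σ, cst φ N D = E := by
  classical
  unfold cstC
  rw [Finset.mem_image]

theorem mem_cjC {G : Type} [Group G] {g : G} {σ : Finset (Subgroup G)} {E : Subgroup G} :
    E ∈ cjC g σ ↔ ∃ D ∈ σ, D.map (MulAut.conj g).toMonoidHom = E := by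
  classical
  unfold cjC
  rw [Finset.mem_image]

theorem mem_conj {G : Type} [Group G] {g x : G} {D : Subgroup G} :
    x ∈ D.map (MulAut.conj g).toMonoidHom ↔ ∃ y ∈ D, g * y * g⁻¹ = x := Iff.rfl

theorem conj_mem_aux (h : WD π μ φ q α ε μQ) {D : Subgroup K1} (hD : D ≤ q.range) {k : K}
    (hk : ∀ m, m ∈ cst φ (NN' π ε) D → k * m * k⁻¹ ∈ cst φ (NN' π ε) D) (o : Ω) {x : K1}
    (hx : x ∈ D) : (φ k).left o * x * ((φ k).left o)⁻¹ ∈ D := by
  obtain ⟨m, hm, hmx⟩ := exists_const h hD hx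
  have h1 := (hk m hm).2.2 o
  rw [map_mul, map_mul, map_inv, conj_left _ _ hm.2.1, hmx] at h1
  exact h1

theorem inv_coord (k : K) (o : Ω) :
    (φ k⁻¹).left ((φ k).right⁻¹ o) = ((φ k).left o)⁻¹ := by
  rw [map_inv, inv_left]
  have h1 : (φ k).right ((φ k).right⁻¹ o) = o := (φ k).right.apply_symm_apply o
  rw [h1]

theorem mem_stb_cst (h : WD π μ φ q α ε μQ) {σ : Finset (Subgroup K1)}
    (hσ : ∀ D ∈ σ, D ≤ q.range) (k : K) :
    k ∈ stb (cstC φ (NN' π ε) σ) ↔ ∀ o, (φ k).left o ∈ stb σ := by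
  constructor
  · intro hk o
    rw [mem_stb']
    intro D hD x
    have h1 := mem_stb'.mp hk _ (mem_cstC.mpr ⟨D, hD, rfl⟩)
    have h2 := mem_stb'.mp (Subgroup.inv_mem _ hk) _ (mem_cstC.mpr ⟨D, hD, rfl⟩)
    constructor
    · intro hx
      exact conj_mem_aux h (hσ D hD) (fun m hm => (h1 m).mp hm) o hx
    · intro hx
      have h3 := conj_mem_aux h (hσ D hD) (fun m hm => (h2 m).mp hm) ((φ k).right⁻¹ o) hx
      rw [inv_coord, inv_inv] at h3
      have h4 : ((φ k).left o)⁻¹ * ((φ k).left o * x * ((φ k).left o)⁻¹) * (φ k).left o = x := by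
        group
      rw [h4] at h3
      exact h3
  · intro hk
    have h0 : ∀ k' : K, (∀ o, (φ k').left o ∈ stb σ) → ∀ D ∈ σ, ∀ m ∈ cst φ (NN' π ε) D,
        k' * m * k'⁻¹ ∈ cst φ (NN' π ε) D := by
      intro k' hk' D hD m hm
      rw [mem_cst' h (hσ D hD), map_mul, map_mul, map_inv]
      refine ⟨conj_right _ _ hm.2.1, fun o => ?_⟩
      rw [conj_left _ _ hm.2.1]
      exact (mem_stb'.mp (hk' o) D hD _).mp (hm.2.2 _)
    have hk2 : ∀ o, (φ k⁻¹).left o ∈ stb σ := by
      intro o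
      rw [map_inv, inv_left]
      exact Subgroup.inv_mem _ (hk _)
    rw [mem_stb']
    intro E hE m
    obtain ⟨D, hD, rfl⟩ := mem_cstC.mp hE
    constructor
    · intro hm
      exact h0 k hk D hD m hm
    · intro hm
      have h1 := h0 k⁻¹ hk2 D hD _ hm
      have h2 : k⁻¹ * (k * m * k⁻¹) * k⁻¹⁻¹ = m := by group
      rw [h2] at h1
      exact h1

theorem inf_stb (h : WD π μ φ q α ε μQ) {σ : Finset (Subgroup K1)}
    (hσ : ∀ D ∈ σ, D ≤ q.range) :
    NN' π ε ⊓ stb (cstC φ (NN' π ε) σ) = cst φ (NN' π ε) (q.range ⊓ stb σ) := by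
  ext k
  rw [Subgroup.mem_inf, mem_stb_cst h hσ, mem_cst]
  constructor
  · rintro ⟨h1, h2⟩
    have h3 := (mem_NN h).mp h1
    exact ⟨h1, h3.1, fun o => ⟨h3.2 o, h2 o⟩⟩
  · rintro ⟨h1, -, h2⟩
    exact ⟨h1, fun o => (h2 o).2⟩

theorem sup_stb (h : WD π μ φ q α ε μQ) {σ : Finset (Subgroup K1)}
    (hσ : ∀ D ∈ σ, D ≤ q.range) (hs : q.range ⊔ stb σ = ⊤) :
    NN' π ε ⊔ stb (cstC φ (NN' π ε) σ) = ⊤ := by
  have hn : q.range.Normal := normal_range h
  rw [eq_top_iff]
  intro k _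
  have h1 : ∀ o, ∃ s ∈ q.range, ∃ t ∈ stb σ, s * t = (φ k).left o := by
    intro o
    rw [← Subgroup.mem_sup_of_normal_left, hs]
    trivial
  choose s hs1 t ht1 hst using h1
  obtain ⟨n, -, h2, h3⟩ := exists_NN h s hs1
  have h4 : (π (ε n))⁻¹ * k ∈ stb (cstC φ (NN' π ε) σ) := by
    rw [mem_stb_cst h hσ]
    intro o
    have h5 : (φ ((π (ε n))⁻¹ * k)).left o = t o := by
      rw [map_mul, map_inv, mul_left, inv_left, inv_right, h2, Equiv.Perm.one_apply, h3,
        inv_one, inv_one, Equiv.Perm.one_apply, ← hst o, inv_mul_cancel_left]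
    rw [h5]
    exact ht1 o
  have h5 : k = π (ε n) * ((π (ε n))⁻¹ * k) := by group
  rw [h5]
  exact Subgroup.mul_mem_sup (πε_mem h n) h4

theorem conj_cst [Nonempty Ω] (h : WD π μ φ q α ε μQ) {D D' : Subgroup K1}
    (hD : D ≤ q.range) (hD' : D' ≤ q.range) (n : Ω → Q) :
    (cst φ (NN' π ε) D).map (MulAut.conj (π (ε n))).toMonoidHom = cst φ (NN' π ε) D' ↔
      ∀ o, D.map (MulAut.conj (q (n o))).toMonoidHom = D' := by
  have hc : ∀ m, (φ m).right = 1 → ∀ o, (φ (π (ε n) * m * (π (ε n))⁻¹)).left o =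
      q (n o) * (φ m).left o * (q (n o))⁻¹ := by
    intro m hm o
    rw [map_mul, map_mul, map_inv, conj_left _ _ hm, φε_left h, φε_right h, inv_one,
      Equiv.Perm.one_apply]
  constructor
  · intro he o
    apply le_antisymm
    · rintro _ ⟨x, hx, rfl⟩
      obtain ⟨m, hm, hmx⟩ := exists_const h hD hx
      have h1 : π (ε n) * m * (π (ε n))⁻¹ ∈ cst φ (NN' π ε) D' := by
        rw [← he]
        exact ⟨m, hm, rfl⟩
      have h2 := h1.2.2 o
      rw [hc m hm.2.1, hmx] at h2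
      exact h2
    · intro y hy
      obtain ⟨m', hm', hmy⟩ := exists_const h hD' hy
      rw [← he] at hm'
      obtain ⟨m, hm, hmm⟩ := mem_conj.mp hm'
      rw [mem_conj]
      refine ⟨(φ m).left o, hm.2.2 o, ?_⟩
      rw [← hc m hm.2.1, hmm, hmy]
  · intro he
    apply le_antisymm
    · rintro _ ⟨m, hm, rfl⟩
      change π (ε n) * m * (π (ε n))⁻¹ ∈ cst φ (NN' π ε) D'
      rw [mem_cst' h hD']
      refine ⟨?_, fun o => ?_⟩
      · rw [map_mul, map_mul, map_inv]
        exact conj_right _ _ hm.2.1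
      · rw [hc m hm.2.1, ← he o]
        exact ⟨_, hm.2.2 o, rfl⟩
    · intro k hk
      rw [mem_conj]
      refine ⟨(π (ε n))⁻¹ * k * π (ε n), ?_, by group⟩
      have hr : (φ ((π (ε n))⁻¹ * k * π (ε n))).right = 1 := by
        rw [map_mul, map_mul, map_inv, mul_right, mul_right, inv_right, φε_right h, hk.2.1,
          inv_one, one_mul, one_mul]
      rw [mem_cst' h hD]
      refine ⟨hr, fun o => ?_⟩
      have h1 := hc _ hr o
      have h2 : π (ε n) * ((π (ε n))⁻¹ * k * π (ε n)) * (π (ε n))⁻¹ = k := by group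
      rw [h2] at h1
      have h3 : (φ k).left o ∈ D.map (MulAut.conj (q (n o))).toMonoidHom := by
        rw [he o]
        exact hk.2.2 o
      obtain ⟨x, hx, hxe⟩ := mem_conj.mp h3
      rw [h1] at hxe
      have h4 : x = (φ ((π (ε n))⁻¹ * k * π (ε n))).left o :=
        mul_left_cancel (mul_right_cancel hxe)
      rw [← h4]
      exact hx

theorem cjC_iff [Nonempty Ω] [Finite K1] (h : WD π μ φ q α ε μQ) {σ σ' : Finset (Subgroup K1)}
    (hσ : ∀ D ∈ σ, D ≤ q.range) (hσ' : ∀ D ∈ σ', D ≤ q.range)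
    (hch : IsChain (· ≤ ·) (σ' : Set (Subgroup K1))) (n : Ω → Q) :
    cjC (π (ε n)) (cstC φ (NN' π ε) σ) = cstC φ (NN' π ε) σ' ↔
      ∀ o, cjC (q (n o)) σ = σ' := by
  constructor
  · intro he o
    ext E
    rw [mem_cjC]
    constructor
    · rintro ⟨D, hD, rfl⟩
      have h1 : (cst φ (NN' π ε) D).map (MulAut.conj (π (ε n))).toMonoidHom ∈
          cstC φ (NN' π ε) σ' := by
        rw [← he, mem_cjC]
        exact ⟨_, mem_cstC.mpr ⟨D, hD, rfl⟩, rfl⟩
      obtain ⟨D', hD', h2⟩ := mem_cstC.mp h1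
      rw [(conj_cst h (hσ D hD) (hσ' D' hD') n).mp h2.symm o]
      exact hD'
    · intro hE
      have h1 : cst φ (NN' π ε) E ∈ cjC (π (ε n)) (cstC φ (NN' π ε) σ) := by
        rw [he, mem_cstC]
        exact ⟨E, hE, rfl⟩
      obtain ⟨E', hE', h2⟩ := mem_cjC.mp h1
      obtain ⟨D, hD, rfl⟩ := mem_cstC.mp hE'
      exact ⟨D, hD, (conj_cst h (hσ D hD) (hσ' E hE) n).mp h2 o⟩
  · intro he
    have hmem : ∀ D ∈ σ, ∀ o, D.map (MulAut.conj (q (n o))).toMonoidHom ∈ σ' := by
      intro D hD o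
      rw [← he o, mem_cjC]
      exact ⟨D, hD, rfl⟩
    have hkey : ∀ D ∈ σ, ∀ o o', D.map (MulAut.conj (q (n o))).toMonoidHom =
        D.map (MulAut.conj (q (n o'))).toMonoidHom := by
      intro D hD o o'
      refine chain_eq hch (hmem D hD o) (hmem D hD o') ?_
      have h1 : ∀ g : K1, Nat.card (D.map (MulAut.conj g).toMonoidHom) = Nat.card D := fun g =>
        (Nat.card_congr (D.equivMapOfInjective (MulAut.conj g).toMonoidHom
          (MulAut.conj g).injective).toEquiv).symm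
      rw [h1, h1]
    ext E
    rw [mem_cjC, mem_cstC]
    constructor
    · rintro ⟨E', hE', rfl⟩
      obtain ⟨D, hD, rfl⟩ := mem_cstC.mp hE'
      have h1 := hmem D hD (Classical.arbitrary Ω)
      refine ⟨_, h1, ?_⟩
      refine ((conj_cst h (hσ D hD) (hσ' _ h1) n).mpr fun o => ?_).symm
      exact hkey D hD o (Classical.arbitrary Ω)
    · rintro ⟨D', hD', rfl⟩
      have h1 := hD'
      rw [← he (Classical.arbitrary Ω), mem_cjC] at h1
      obtain ⟨D, hD, h2⟩ := h1
      refine ⟨_, mem_cstC.mpr ⟨D, hD, rfl⟩, ?_⟩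
      refine (conj_cst h (hσ D hD) (hσ' D' hD') n).mpr fun o => ?_
      rw [← h2]
      exact hkey D hD o (Classical.arbitrary Ω)

end

end CST

theorem CST_thm : Stmt_CST := by
  classical
  intro L K K1 Q Ω _ _ _ _ _ _ _ _ _ _ ℓ _ π μ φ q α ε μQ h
  refine ⟨WDB.normal_NN h, WDB.normal_range h, fun σ hσ => ?_⟩
  have hle : ∀ D ∈ σ, D ≤ q.range := hσ.2
  refine ⟨⟨⟨?_, ?_⟩, ?_⟩, ?_, ?_, fun k => CST.mem_stb_cst h hle k, ?_, CST.sup_stb h hle, ?_⟩
  · intro E hE
    obtain ⟨D, hD, rfl⟩ := CST.mem_cstC.mp hE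
    refine ⟨CST.isPGroup_cst h (hle D hD) (hσ.1.1 D hD).1, ?_⟩
    rw [bot_lt_iff_ne_bot]
    intro h1
    have h2 : D ≤ ⊥ := CST.le_of_cst_le h (hle D hD) (by rw [h1]; exact bot_le)
    exact (hσ.1.1 D hD).2.ne (le_bot_iff.mp h2).symm
  · intro E hE E' hE' _
    obtain ⟨D, hD, rfl⟩ := CST.mem_cstC.mp (Finset.mem_coe.mp hE)
    obtain ⟨D', hD', rfl⟩ := CST.mem_cstC.mp (Finset.mem_coe.mp hE')
    rcases hσ.1.total hD hD' with h1 | h1
    · exact Or.inl (CST.cst_mono h1)
    · exact Or.inr (CST.cst_mono h1)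
  · intro E hE
    obtain ⟨D, hD, rfl⟩ := CST.mem_cstC.mp hE
    exact fun k hk => hk.1
  · intro E hE k hk
    obtain ⟨D, hD, rfl⟩ := CST.mem_cstC.mp hE
    obtain ⟨hkN, hk2⟩ := hk
    refine ⟨hkN, ((WDB.mem_NN h).mp hkN).1, fun o => ?_⟩
    obtain ⟨d, hd, hdo⟩ := hk2 o
    rw [← hdo]
    exact hd.2.2 o
  · unfold cstC
    rw [Finset.card_image_of_injOn]
    intro D hD D' hD' he
    exact CST.cst_inj h (hle D hD) (hle D' hD') he
  · rw [CST.inf_stb h hle]
    exact CST.card_cst h inf_le_left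
  · intro σ' hσ' n
    exact CST.cjC_iff h hle hσ'.2 hσ'.1.2 n

end Pool.Agent.DPG


end

section

/-!
# The group of the coordinates of the elements of a normal subgroup (module MMC)
-/

set_option linter.unusedSectionVars false

namespace Pool.Agent.DPG

open Pool.Agent.DP Pool.Agent.DPC Pool.Agent.DPM Pool.Agent.DPN Pool.Agent.DPF
  Pool.Agent.DPK Pool.Agent.Lib_helper13 Representation
open Pool.Agent.Lib_helper13.Dade (pCore DadeHolds dadeSum)

namespace MMC

variable {B Ω : Type} [Group B]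

theorem mul_left' (a b : Gam (Equiv.Perm Ω) Ω B) (o : Ω) :
    (a * b).left o = a.left o * b.left (a.right⁻¹ o) := rfl

theorem mul_right' (a b : Gam (Equiv.Perm Ω) Ω B) : (a * b).right = a.right * b.right := rfl

theorem conj_left (g m : Gam (Equiv.Perm Ω) Ω B) (hm : m.right = 1) (o o' : Ω)
    (h : g.right o' = o) :
    (g * m * g⁻¹).left o = g.left o * m.left o' * (g.left o)⁻¹ := by
  have h1 : g.right⁻¹ o = o' := by
    rw [← h]
    exact Equiv.symm_apply_apply g.right o'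
  have h2 : (g * g⁻¹).left o = 1 := by
    rw [mul_inv_cancel]
    rfl
  rw [mul_left', h1] at h2
  have h3 : (g⁻¹).left o' = (g.left o)⁻¹ := (inv_eq_of_mul_eq_one_right h2).symm
  rw [mul_left', mul_left', mul_right', hm, mul_one, h1, h3]

variable {K : Type} [Group K]

/-- The coordinates at `o` of the elements of `M`. -/
def cd (φ : K →* Gam (Equiv.Perm Ω) Ω B) (M : Subgroup K) (hr : ∀ m ∈ M, (φ m).right = 1)
    (o : Ω) : M →* B where
  toFun m := (φ m).left o
  map_one' := by simp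
  map_mul' := by
    intro a b
    change (φ ((a : K) * b)).left o = _
    rw [map_mul, mul_left', hr a a.2]
    rfl

end MMC

theorem MMC_thm : Stmt_MMC := by
  intro L K K1 Q Ω _ _ _ _ _ _ _ _ _ _ ℓ _ π μ φ q α ε μQ hW M hMn hN hcop hr
  obtain ⟨o0⟩ := (inferInstance : Nonempty Ω)
  have hcj : ∀ (k m : K) (_ : m ∈ M) (o o' : Ω), (φ k).right o' = o →
      (φ (k * m * k⁻¹)).left o = (φ k).left o * (φ m).left o' * ((φ k).left o)⁻¹ := by
    intro k m hm o o' h
    rw [map_mul, map_mul, map_inv]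
    exact MMC.conj_left (φ k) (φ m) (hr m hm) o o' h
  set f := MMC.cd φ M hr o0 with hf
  have hmem : ∀ b, b ∈ f.range ↔ ∃ m ∈ M, (φ m).left o0 = b := by
    intro b
    constructor
    · rintro ⟨m, rfl⟩
      exact ⟨m, m.2, rfl⟩
    · rintro ⟨m, hm, rfl⟩
      exact ⟨⟨m, hm⟩, rfl⟩
  have hnorm : f.range.Normal := by
    constructor
    intro b hb x
    rw [hmem] at hb ⊢
    obtain ⟨m, hm, rfl⟩ := hb
    obtain ⟨k, hk1, hk2⟩ := hW.sj o0 x
    refine ⟨k * m * k⁻¹, hMn.conj_mem m hm k, ?_⟩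
    rw [hcj k m hm o0 o0 hk1, hk2]
  have hε : ∀ (n : Ω → Q) (o : Ω), (φ (π (ε n))).left o = q (n o) := by
    intro n o
    rw [hW.φε]
    rfl
  refine ⟨f.range, ⟨hMn, hnorm, hr, ?_, ?_, hN, hcop, ?_, ?_⟩⟩
  · intro m hm o
    obtain ⟨k, hk⟩ := hW.tr o0 o
    have h1 : k⁻¹ * m * k ∈ M := by
      have := hMn.conj_mem m hm k⁻¹
      rwa [inv_inv] at this
    have h2 : m = k * (k⁻¹ * m * k) * k⁻¹ := by group
    have h3 := hcj k (k⁻¹ * m * k) h1 o o0 hk
    rw [← h2] at h3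
    rw [h3]
    exact hnorm.conj_mem _ ((hmem _).mpr ⟨_, h1, rfl⟩) _
  · intro o b hb
    obtain ⟨k, hk⟩ := hW.tr o0 o
    have h1 := hnorm.conj_mem b hb ((φ k).left o)⁻¹
    rw [inv_inv, hmem] at h1
    obtain ⟨m, hm, hm'⟩ := h1
    refine ⟨k * m * k⁻¹, hMn.conj_mem m hm k, ?_⟩
    rw [hcj k m hm o o0 hk, hm']
    group
  · rintro _ ⟨a, rfl⟩
    rw [hmem]
    refine ⟨π (ε fun _ => a), hN ⟨ε fun _ => a, ⟨_, rfl⟩, rfl⟩, ?_⟩
    rw [hε]
  · intro hd
    apply hcop
    refine hd.trans ?_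
    have h1 : ((q.range.subgroupOf f.range).comap f.rangeRestrict).index =
        (q.range.subgroupOf f.range).index :=
      Subgroup.index_comap_of_surjective _ f.rangeRestrict_surjective
    change (q.range.subgroupOf f.range).index ∣ ((NN' π ε).subgroupOf M).index
    rw [← h1]
    apply Subgroup.index_dvd_of_le
    intro m hm
    rw [Subgroup.mem_subgroupOf] at hm
    obtain ⟨_, ⟨n, rfl⟩, hn⟩ := hm
    rw [Subgroup.mem_comap, Subgroup.mem_subgroupOf]
    change (φ (m : K)).left o0 ∈ q.range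
    rw [← hn, hε]
    exact ⟨_, rfl⟩

end Pool.Agent.DPG


end

section

/-!
# VCL: the vertex group belongs to the class
-/

namespace Pool.Agent.DPG

open Pool.Agent.DP Pool.Agent.DPC Pool.Agent.DPM Pool.Agent.DPN Pool.Agent.DPF
  Pool.Agent.DPK Pool.Agent.Lib_helper13 Representation

theorem VCL_thm (Cl : ∀ (Y : Type) [Group Y], Prop) : Stmt_VCL Cl := by
  intro hG K K1 Q Ω _ _ _ _ _ _ φ q hφ hK
  obtain ⟨o⟩ := ‹Nonempty Ω›
  have h1 : Cl K1 := by
    refine hG.im _ _ (SYT.cf φ o) ?_ (hG.sub hK (SYT.st φ o))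
    intro b
    obtain ⟨k, hk, hb⟩ := hφ o b
    exact ⟨⟨k, hk⟩, hb⟩
  exact ⟨h1, hG.sub h1 q.range⟩

end Pool.Agent.DPG


end
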