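import Mathlib
import Pool.Agent.DAM.C13
import Pool.Agent.DAM.C19
import Pool.Agent.DAM.C20

/-! Parts: DPM.PSC -/

section

/-!
# PSC: Clifford theory for a normal subgroup centralized by `N`
-/

namespace Pool.Agent.DPM

open Pool.Agent.DP Pool.Agent.DPC Pool.Agent.Lib_helper13 Representation
open Pool.Agent.Lib_helper13.Dade (pCore DadeHolds dadeSum)

namespace PSC

/-- Constituents of restrictions are constituents of restrictions. -/
theorem ip_trans {A K : Type*} [Group A] [Fintype A] [Group K] [Fintype K] (m : K →* A)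
    {ψ : A → ℂ} (hψ : IsChr ψ) {χ : A → ℂ} (hχ : IsIrr χ) {θ : K → ℂ} (hθ : IsIrr θ)
    (h1 : ip ψ χ ≠ 0) (h2 : ip (fun k => χ (m k)) θ ≠ 0) : ip (fun k => ψ (m k)) θ ≠ 0 := by
  classical
  have ha : ∀ φ : A → ℂ, ∃ n : ℕ, IsIrr φ → ip ψ φ = n := by
    intro φ
    by_cases hφ : IsIrr φ
    · obtain ⟨n, hn⟩ := hψ.exists_ip hφ.isChr
      exact ⟨n, fun _ => hn⟩
    · exact ⟨0, fun h => absurd h hφ⟩
  have hb : ∀ φ : A → ℂ, ∃ n : ℕ, IsIrr φ → ip (fun k => φ (m k)) θ = n := by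
    intro φ
    by_cases hφ : IsIrr φ
    · obtain ⟨n, hn⟩ := (hφ.isChr.comp m).exists_ip hθ.isChr
      exact ⟨n, fun _ => hn⟩
    · exact ⟨0, fun h => absurd h hφ⟩
  choose a ha using ha
  choose b hb using hb
  have h3 : ip (fun k => ψ (m k)) θ = ((∑ φ ∈ irrF A, a φ * b φ : ℕ) : ℂ) := by
    have h4 : (fun k => ψ (m k)) = fun k => ∑ φ ∈ irrF A, ip ψ φ * (fun k => φ (m k)) k := by
      funext k
      exact congrFun (class_fn_expand ψ hψ.conj_eq) (m k)
    rw [h4, ip_sum (irrF A) (fun φ => ip ψ φ) (fun φ k => φ (m k)) θ]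
    push_cast
    refine Finset.sum_congr rfl fun φ hφ => ?_
    rw [ha φ (mem_irrF.mp hφ), hb φ (mem_irrF.mp hφ)]
  rw [h3]
  intro h5
  have h6 : ∑ φ ∈ irrF A, a φ * b φ = 0 := by exact_mod_cast h5
  rw [Finset.sum_eq_zero_iff] at h6
  have h7 := h6 χ (mem_irrF.mpr hχ)
  rcases Nat.mul_eq_zero.mp h7 with h8 | h8
  · apply h1
    rw [ha χ hχ, h8, Nat.cast_zero]
  · apply h2
    rw [hb χ hχ, h8, Nat.cast_zero]

theorem exists_equiv {Y : Type*} [Group Y] {S T : Subgroup Y} (A₁ : Subgroup S)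
    (A₂ : Subgroup T) (h : A₁.map S.subtype = A₂.map T.subtype) :
    ∃ e : A₁ ≃* A₂, ∀ a : A₁, (((e a : A₂) : T) : Y) = ((a : S) : Y) := by
  let e₁ := A₁.equivMapOfInjective S.subtype S.subtype_injective
  let e₂ := A₂.equivMapOfInjective T.subtype T.subtype_injective
  refine ⟨(e₁.trans (MulEquiv.subgroupCongr h)).trans e₂.symm, fun a => ?_⟩
  obtain ⟨b, hb⟩ : ∃ b : A₂, b = ((e₁.trans (MulEquiv.subgroupCongr h)).trans e₂.symm) a :=
    ⟨_, rfl⟩
  rw [← hb]
  have h1 : e₂ b = MulEquiv.subgroupCongr h (e₁ a) := by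
    rw [hb]
    exact e₂.apply_symm_apply _
  have h2 : ((e₂ b : A₂.map T.subtype) : Y) = ((b : T) : Y) :=
    Subgroup.coe_equivMapOfInjective_apply _ _ _ _
  have h3 : ((e₁ a : A₁.map S.subtype) : Y) = ((a : S) : Y) :=
    Subgroup.coe_equivMapOfInjective_apply _ _ _ _
  rw [← h2, h1, ← h3]
  rfl

section Cl

variable {Y : Type} [Group Y] (Q : Subgroup Y) [Q.Normal]

theorem clG_Q : ClG Q.subtype (MulAut.conjNormal : Y →* MulAut Q) (QuotientGroup.mk' Q) where
  inj := Q.subtype_injective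
  act y a := MulAut.conjNormal_apply y a
  ker y := by
    rw [QuotientGroup.mk'_apply, QuotientGroup.eq_one_iff, Subgroup.range_subtype]

theorem clG_S (S : Subgroup Y) (hQ : Q ≤ S) :
    ClG (Subgroup.inclusion hQ) ((MulAut.conjNormal : Y →* MulAut Q).comp S.subtype)
      ((QuotientGroup.mk' Q).comp S.subtype) where
  inj := Subgroup.inclusion_injective hQ
  act y a := by
    apply Subtype.ext
    exact MulAut.conjNormal_apply (y : Y) a
  ker y := by
    show QuotientGroup.mk' Q (y : Y) = 1 ↔ _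
    rw [QuotientGroup.mk'_apply, QuotientGroup.eq_one_iff]
    constructor
    · intro h
      exact ⟨⟨y, h⟩, Subtype.ext rfl⟩
    · rintro ⟨a, rfl⟩
      exact a.2

variable {Q}

theorem le_inert {S : Subgroup Y} (hS : S ≤ Subgroup.centralizer (Q : Set Y)) (ν : Q → ℂ) :
    S ≤ inert (MulAut.conjNormal : Y →* MulAut Q) ν := by
  intro y hy a
  have h1 : MulAut.conjNormal y a = a := by
    apply Subtype.ext
    rw [MulAut.conjNormal_apply]
    have h2 := Subgroup.mem_centralizer_iff.1 (hS hy) a a.2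
    rw [← h2, mul_inv_cancel_right]
  rw [h1]

end Cl

section Cnt

variable {Y : Type} [Group Y]

theorem cen_indc (𝔐 : Ideal (integralClosure ℤ ℂ)) {S : Type} [Group S] [Fintype S]
    (i : S →* Y) (A : Subgroup S) (φ : A → ℂ) (hφ : φ 1 ≠ 0) :
    cen 𝔐 i (indc A φ) = cen 𝔐 (i.comp A.subtype) φ := by
  funext g
  unfold cen
  rw [(IND_thm S A φ).2.2.2 hφ]
  · rfl
  · intro s x
    refine conjInd_congr ⟨fun h => ?_, fun h => ?_⟩
    · rw [map_mul, map_mul, map_inv] at h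
      exact (isConj_iff.2 ⟨i s, rfl⟩).trans h
    · rw [map_mul, map_mul, map_inv]
      exact (isConj_iff.2 ⟨i s, rfl⟩ : IsConj (i x) (i s * i x * (i s)⁻¹)).symm.trans h

end Cnt

end PSC

open _root_.Pool.Agent.DPM.PSC in
/-- PSC: Clifford theory for a normal subgroup centralized by `N`. -/
theorem PSC_thm (h1 : Stmt_CLC) : Stmt_PSC := by
  classical
  intro Y _ _ 𝔐 ℓ _ h𝔐 hℓ Q N _ _ hNQ d ω hne
  -- the groups
  have hcl := clG_Q Q
  obtain ⟨T, hTdef⟩ : ∃ T : (Q → ℂ) → Subgroup Y,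
    ∀ ν, T ν = inert (MulAut.conjNormal : Y →* MulAut Q) ν := ⟨_, fun _ => rfl⟩
  have hNT : ∀ ν, N ≤ T ν := by
    intro ν
    rw [hTdef]
    exact le_inert hNQ ν
  have hCT : ∀ ν, Subgroup.center Y ≤ T ν := by
    intro ν
    rw [hTdef]
    exact le_inert (Subgroup.center_le_centralizer _) ν
  have hQT : ∀ ν, IsIrr ν → Q ≤ T ν := by
    intro ν hν y hy
    rw [hTdef]
    exact CCOR.mem_inert hcl hν ⟨y, hy⟩
  have hQS : ∀ τ : Finset (Subgroup N), Q ≤ stb (mapCh N.subtype τ) := by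
    intro τ y hy
    rw [mem_stb']
    intro D hD x
    obtain ⟨D', hD', rfl⟩ := mem_mapCh.1 hD
    have h3 : ∀ x ∈ N, y * x = x * y := by
      intro x hx
      exact Subgroup.mem_centralizer_iff.1 (hNQ hx) y hy
    constructor
    · rintro ⟨n, hn, rfl⟩
      refine ⟨n, hn, ?_⟩
      show (n : Y) = y * n * y⁻¹
      rw [h3 n n.2, mul_inv_cancel_right]
    · rintro ⟨n, hn, hn'⟩
      refine ⟨n, hn, ?_⟩
      have h4 : (n : Y) = y * x * y⁻¹ := hn'
      show (n : Y) = x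
      have h5 : y * x = n * y := by rw [h4, inv_mul_cancel_right]
      have h6 := h3 n n.2
      rw [← h5] at h6
      exact mul_left_cancel h6
  -- the numbers
  obtain ⟨X, hX⟩ : ∃ X : Finset (Subgroup N) → (Q → ℂ) → ℚ, ∀ τ ν, X τ ν =
      (Nat.card (inert ((MulAut.conjNormal : Y →* MulAut Q).comp
          (stb (mapCh N.subtype τ)).subtype) ν) : ℚ) *
        Nat.card {ψ : inert ((MulAut.conjNormal : Y →* MulAut Q).comp
            (stb (mapCh N.subtype τ)).subtype) ν → ℂ // IsIrr ψ ∧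
          ip (fun a => ext0 ψ (Subgroup.inclusion (hQS τ) a)) ν ≠ 0 ∧ HasDefect ℓ ψ d ∧
            ∀ g, cen 𝔐 (stb (mapCh N.subtype τ)).subtype (indc _ ψ) g = ω g} :=
    ⟨_, fun _ _ => rfl⟩
  have hII : II 𝔐 ℓ d N (MonoidHom.id Y) ω =
      ∑ ν ∈ irrF Q, ∑ τ ∈ Ch ℓ (⊥ : Subgroup N), (-1 : ℚ) ^ τ.card * X τ ν := by
    unfold II
    rw [Finset.sum_comm]
    refine Finset.sum_congr rfl fun τ _ => ?_
    rw [← Finset.mul_sum]
    congr 1
    have h2 := h1 Q (stb (mapCh N.subtype τ)) (Y ⧸ Q) ℓ (Subgroup.inclusion (hQS τ)) _ _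
      (clG_S Q (stb (mapCh N.subtype τ)) (hQS τ))
      (fun χ => ∀ g, cen 𝔐 (stb (mapCh N.subtype τ)).subtype χ g = ω g) d
    rw [Finset.sum_congr rfl fun ν _ => hX τ ν]
    exact h2
  -- the inner sums
  have hIJ : ∀ ν (hν : IsIrr ν), ∑ τ ∈ Ch ℓ (⊥ : Subgroup N), (-1 : ℚ) ^ τ.card * X τ ν =
      IJ 𝔐 ℓ d (Subgroup.inclusion (hQT ν hν)) ν (N.subgroupOf (T ν)) (T ν).subtype ω := by
    intro ν hν
    obtain ⟨e₀, he₀⟩ : ∃ e₀ : N ≃* N.subgroupOf (T ν), ∀ n, ((e₀ n : T ν) : Y) = n :=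
      ⟨(Subgroup.subgroupOfEquivOfLe (hNT ν)).symm, fun n => by
        obtain ⟨b, hb⟩ : ∃ b, b = (Subgroup.subgroupOfEquivOfLe (hNT ν)).symm n := ⟨_, rfl⟩
        rw [← hb]
        have h3 : Subgroup.subgroupOfEquivOfLe (hNT ν) b = n := by
          rw [hb, MulEquiv.apply_symm_apply]
        rw [← h3]
        rfl⟩
    unfold IJ
    have h2 := sum_Ch_equiv e₀ ℓ (⊥ : Subgroup N) (fun τ =>
      (-1 : ℚ) ^ τ.card * ((Nat.card ↥(stb (mapCh (N.subgroupOf (T ν)).subtype τ)) : ℚ) *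
      Nat.card {ψ : ↥(stb (mapCh (N.subgroupOf (T ν)).subtype τ)) → ℂ // IsIrr ψ ∧
        ip (fun x : Q => ext0 ψ (Subgroup.inclusion (hQT ν hν) x)) ν ≠ 0 ∧ HasDefect ℓ ψ d ∧
        cen 𝔐 ((T ν).subtype.comp (stb (mapCh (N.subgroupOf (T ν)).subtype τ)).subtype) ψ = ω}))
    rw [Subgroup.map_bot] at h2
    rw [h2]
    refine Finset.sum_congr rfl fun τ _ => ?_
    rw [card_mapCh (i := e₀.toMonoidHom) e₀.injective, hX]
    congr 1
    obtain ⟨S, hS⟩ : ∃ S, S = stb (mapCh N.subtype τ) := ⟨_, rfl⟩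
    obtain ⟨S', hS'⟩ : ∃ S', S' = stb (mapCh (N.subgroupOf (T ν)).subtype
      (mapCh e₀.toMonoidHom τ)) := ⟨_, rfl⟩
    have hQS' := hQS τ
    -- the stabilizer in `T`
    have hSS : S' = S.comap (T ν).subtype := by
      rw [hS, hS', ← comap_stb_mapCh (T ν).subtype_injective, mapCh_comp, mapCh_comp]
      congr 3
      ext n
      exact he₀ n
    have key : ∀ hQS'' : Q ≤ S,
        (Nat.card (inert ((MulAut.conjNormal : Y →* MulAut Q).comp S.subtype) ν) : ℚ) *
        Nat.card {ψ : inert ((MulAut.conjNormal : Y →* MulAut Q).comp S.subtype) ν → ℂ //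
          IsIrr ψ ∧ ip (fun a => ext0 ψ (Subgroup.inclusion hQS'' a)) ν ≠ 0 ∧
            HasDefect ℓ ψ d ∧ ∀ g, cen 𝔐 S.subtype (indc _ ψ) g = ω g} =
        (Nat.card S' : ℚ) * Nat.card {ψ : S' → ℂ // IsIrr ψ ∧
          ip (fun x : Q => ext0 ψ (Subgroup.inclusion (hQT ν hν) x)) ν ≠ 0 ∧ HasDefect ℓ ψ d ∧
          cen 𝔐 ((T ν).subtype.comp S'.subtype) ψ = ω} := by
      intro hQS''
      have hclS := clG_S Q S hQS''
      obtain ⟨e, he⟩ := exists_equiv
        (inert ((MulAut.conjNormal : Y →* MulAut Q).comp S.subtype) ν) S' (by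
          rw [hSS]
          ext y
          constructor
          · rintro ⟨s, hs, rfl⟩
            refine ⟨⟨s, ?_⟩, ?_, rfl⟩
            · rw [hTdef]
              exact hs
            · exact s.2
          · rintro ⟨t, ht, rfl⟩
            refine ⟨⟨t, ht⟩, ?_, rfl⟩
            exact (hTdef ν).le t.2)
      have hcard : Nat.card (inert ((MulAut.conjNormal : Y →* MulAut Q).comp S.subtype) ν) =
          Nat.card S' := Nat.card_congr e.toEquiv
      rw [hcard]
      congr 2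
      refine card_irr_equiv e _ _ fun ψ hψ => ?_
      have hψe : IsIrr (fun y => ψ (e y)) := hψ.comp_mulEquiv e
      have e1 : (fun a => ext0 (fun y => ψ (e y)) (Subgroup.inclusion hQS'' a)) =
          fun x : Q => ext0 ψ (Subgroup.inclusion (hQT ν hν) x) := by
        funext a
        have h3 : Subgroup.inclusion hQS'' a ∈
            inert ((MulAut.conjNormal : Y →* MulAut Q).comp S.subtype) ν :=
          CCOR.mem_inert hclS hν a
        have h4 : Subgroup.inclusion (hQT ν hν) a = ((e ⟨_, h3⟩ : S') : T ν) := by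
          apply Subtype.ext
          rw [he]
          rfl
        rw [ext0_of_mem _ h3, h4, ext0_of_mem _ (e ⟨_, h3⟩).2]
      have e2 : cen 𝔐 S.subtype (indc (inert ((MulAut.conjNormal : Y →* MulAut Q).comp
          S.subtype) ν) (fun y => ψ (e y))) = cen 𝔐 ((T ν).subtype.comp S'.subtype) ψ := by
        rw [cen_indc 𝔐 S.subtype _ _ hψe.one_ne_zero, ← cen_comp_equiv 𝔐 e]
        congr 1
        ext y
        exact (he y).symm
      rw [e1, e2, hasDefect_comp_equiv, ← funext_iff]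
    subst hS
    rw [key, hS']
  -- the choice
  rw [hII] at hne
  obtain ⟨ν, hν, hne'⟩ := Finset.exists_ne_zero_of_sum_ne_zero hne
  have hν' := mem_irrF.1 hν
  rw [hIJ ν hν'] at hne'
  refine ⟨T ν, hQT ν hν', ν, hNT ν, hCT ν, hν', ?_, hne', ?_⟩
  · intro t a b hb
    have h3 := (hTdef ν).le t.2
    have h4 : b = MulAut.conjNormal (t : Y) a := by
      apply Subtype.ext
      rw [hb, MulAut.conjNormal_apply]
    rw [h4]
    exact h3 a
  · intro ψ θ hψ hψν hθ hθ0 hψθ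
    have hT : T ν = inert (MulAut.conjNormal : Y →* MulAut Q) ν := hTdef ν
    obtain ⟨T', hT'⟩ : ∃ T', T' = T ν := ⟨_, rfl⟩
    have hirr : IsIrr (indc (T ν) ψ) := by
      have h3 : ∀ (T' : Subgroup Y) (hQ : Q ≤ T') (ψ : T' → ℂ),
          T' = inert (MulAut.conjNormal : Y →* MulAut Q) ν → IsIrr ψ →
          ip (resj (Subgroup.inclusion hQ) ψ) ν ≠ 0 → IsIrr (indc T' ψ) := by
        intro T' hQ ψ hT' hψ hψν
        subst hT'
        refine ((CCOR_thm IND_thm SUMM_thm Q Y (Y ⧸ Q) Q.subtype _ _ hcl ν hν').1 ψ hψ ?_).1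
        have h4 : (fun a => ext0 ψ (Q.subtype a)) = resj (Subgroup.inclusion hQ) ψ := by
          funext a
          exact ext0_of_mem ψ (hQ a.2)
        rw [h4]
        exact hψν
      exact h3 (T ν) (hQT ν hν') ψ hT hψ hψν
    obtain ⟨e₀, he₀⟩ : ∃ e₀ : N ≃* N.subgroupOf (T ν), ∀ n, ((e₀ n : T ν) : Y) = n :=
      ⟨(Subgroup.subgroupOfEquivOfLe (hNT ν)).symm, fun n => by
        obtain ⟨b, hb⟩ : ∃ b, b = (Subgroup.subgroupOfEquivOfLe (hNT ν)).symm n := ⟨_, rfl⟩
        rw [← hb]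
        have h3 : Subgroup.subgroupOfEquivOfLe (hNT ν) b = n := by
          rw [hb, MulEquiv.apply_symm_apply]
        rw [← h3]
        rfl⟩
    have hθ1 : IsIrr (fun n => θ (e₀ n)) := hθ.comp_mulEquiv e₀
    refine ⟨indc (T ν) ψ, fun n => θ (e₀ n), hirr, hθ1, hasDefect_comp_equiv e₀ |>.2 hθ0, ?_, ?_⟩
    · -- Frobenius reciprocity
      have h3 : ip (fun s : T ν => indc (T ν) ψ s) ψ ≠ 0 := by
        rw [ip_comm, ← (IND_thm Y (T ν) ψ).2.2.1 _ hirr.conj_eq, ip_self hirr]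
        exact one_ne_zero
      have h4 : ip (fun n : N => ψ (((N.subgroupOf (T ν)).subtype.comp e₀.toMonoidHom) n))
          (fun n => θ (e₀ n)) ≠ 0 := by
        have h5 : ip (fun n : N => ψ (((N.subgroupOf (T ν)).subtype.comp e₀.toMonoidHom) n))
            (fun n => θ (e₀ n)) = ip (resj (N.subgroupOf (T ν)).subtype ψ) θ := by
          unfold ip
          rw [Nat.card_congr e₀.toEquiv]
          congr 1
          refine Fintype.sum_equiv e₀.toEquiv _ _ fun n => ?_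
          have h6 : e₀ n⁻¹ = (e₀ n)⁻¹ := map_inv e₀ n
          show _ * θ (e₀ n⁻¹) = _ * θ (e₀ n)⁻¹
          rw [h6]
          rfl
        rw [h5]
        exact hψθ
      have h5 := ip_trans ((N.subgroupOf (T ν)).subtype.comp e₀.toMonoidHom)
        (hirr.isChr.comp (T ν).subtype) hψ hθ1 h3 h4
      have h6 : resj N.subtype (indc (T ν) ψ) = fun n : N => indc (T ν) ψ
          ((T ν).subtype (((N.subgroupOf (T ν)).subtype.comp e₀.toMonoidHom) n)) := by
        funext n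
        show indc (T ν) ψ (n : Y) = _
        rw [← he₀ n]
        rfl
      rw [h6]
      exact h5
    · rw [cen_indc 𝔐 (MonoidHom.id Y) (T ν) ψ hψ.one_ne_zero]
      rfl

end Pool.Agent.DPM


end
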