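import Mathlib
import Pool.Agent.DAM.C14
import Pool.Agent.DAM.C19
import Pool.Agent.DAM.C22
import Pool.Agent.DAM.C24
import Pool.Agent.DAM.C26
import Pool.Agent.DAM.C27
import Pool.Agent.DAM.C28
import Pool.Agent.DAM.C32
import Pool.Agent.DAM.C33
import Pool.Agent.DAM.C44
import Pool.Agent.DAM.C48
import Pool.Agent.DAM.C57
import Pool.Agent.DAM.C60
import Pool.Agent.DAM.C62
import Pool.Agent.DAM.C68
import Pool.Agent.DAM.C90
import Pool.Agent.DAM.C95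
import Pool.Agent.DAM.C96
import Pool.Agent.DAM.C97

/-! Parts: DPT.CQ, DPT.TYP, DPT.DZA, DPT.DZS, DPT.CLQ, DPT.TWQ, DPT.CBB, DPT.CII, DPK.PSNr, DPK.PSZr, DPV.HATY, DPX.DXMX, DPG.CNA -/

section

/-!
# CQ: the numbers of characters over two characters
-/

namespace Pool.Agent.DPT

open Pool.Agent.DP Pool.Agent.DPC Pool.Agent.DPM Pool.Agent.DPN Pool.Agent.Lib_helper13
open Representation

namespace CQ

/-! ### Counting by values -/

theorem card_eq_of_fibers {X₁ X₂ : Type} [Finite X₁] [Finite X₂] (g₁ : X₁ → ℂ) (g₂ : X₂ → ℂ)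
    (h : ∀ z, Nat.card {x : X₁ // g₁ x = z} = Nat.card {x : X₂ // g₂ x = z}) :
    Nat.card X₁ = Nat.card X₂ :=
  Nat.card_congr ((Equiv.sigmaFiberEquiv g₁).symm.trans
    ((Equiv.sigmaCongrRight fun z => (Finite.card_eq.mp (h z)).some).trans
      (Equiv.sigmaFiberEquiv g₂)))

/-- The characters over `μ` with a given value at one, and a condition on the value. -/
theorem card_fiber {L : Type} [Group L] (O : (L → ℂ) → Prop) (Q : ℂ → Prop) (z : ℂ) (hz : Q z) :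
    Nat.card {x : {η : L → ℂ // IsIrr η ∧ O η ∧ Q (η 1)} // x.1 1 = z} =
      Nat.card {η : L → ℂ // IsIrr η ∧ O η ∧ η 1 = z} := by
  refine Nat.card_congr ⟨fun x => ⟨x.1.1, x.1.2.1, x.1.2.2.1, x.2⟩,
    fun x => ⟨⟨x.1, x.2.1, x.2.2.1, ?_⟩, x.2.2.2⟩, ?_, ?_⟩
  · rw [x.2.2.2]
    exact hz
  · intro x
    rfl
  · intro x
    rfl

theorem card_fiber_empty {L : Type} [Group L] (O : (L → ℂ) → Prop) (Q : ℂ → Prop) (z : ℂ)
    (hz : ¬ Q z) :
    Nat.card {x : {η : L → ℂ // IsIrr η ∧ O η ∧ Q (η 1)} // x.1 1 = z} = 0 := by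
  have : IsEmpty {x : {η : L → ℂ // IsIrr η ∧ O η ∧ Q (η 1)} // x.1 1 = z} := by
    refine ⟨fun x => hz ?_⟩
    rw [← x.2]
    exact x.1.2.2.2
  exact Nat.card_of_isEmpty

/-! ### One side -/

section Side

variable {Y : Type} [Group Y]

/-- The conjugation action of `S` on the normal subgroup `N`. -/
theorem exists_act {K : Type} [Group K] (N S : Subgroup Y) (hNS : N ≤ S) (p : S →* K)
    (hk : ∀ x : S, p x = 1 ↔ (x : Y) ∈ N) :
    ∃ c : S →* MulAut N, ClG (Subgroup.inclusion hNS) c p ∧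
      ∀ (s : S) (n : N), ((c s n : N) : Y) = s * n * (s : Y)⁻¹ := by
  have hnorm : ∀ (s : S) (n : N), (s : Y) * n * (s : Y)⁻¹ ∈ N := by
    intro s n
    have h1 : p (s * Subgroup.inclusion hNS n * s⁻¹) = 1 := by
      have h2 : p (Subgroup.inclusion hNS n) = 1 := (hk _).2 n.2
      rw [map_mul, map_mul, h2, mul_one, map_inv, mul_inv_cancel]
    exact (hk _).1 h1
  let c : S →* MulAut N :=
    { toFun := fun s =>
        { toFun := fun n => ⟨s * n * (s : Y)⁻¹, hnorm s n⟩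
          invFun := fun n => ⟨(s⁻¹ : S) * n * ((s⁻¹ : S) : Y)⁻¹, hnorm s⁻¹ n⟩
          left_inv := fun n => Subtype.ext (by
            show ((s⁻¹ : S) : Y) * (s * n * (s : Y)⁻¹) * ((s⁻¹ : S) : Y)⁻¹ = n
            rw [Subgroup.coe_inv]
            group)
          right_inv := fun n => Subtype.ext (by
            show (s : Y) * (((s⁻¹ : S) : Y) * n * ((s⁻¹ : S) : Y)⁻¹) * (s : Y)⁻¹ = n
            rw [Subgroup.coe_inv]
            group)
          map_mul' := fun n n' => Subtype.ext (by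
            show (s : Y) * ((n * n' : N) : Y) * (s : Y)⁻¹ =
              (s * n * (s : Y)⁻¹) * (s * n' * (s : Y)⁻¹)
            rw [Subgroup.coe_mul]
            group) }
      map_one' := by
        refine MulEquiv.ext fun n => Subtype.ext ?_
        show ((1 : S) : Y) * n * ((1 : S) : Y)⁻¹ = n
        rw [Subgroup.coe_one]
        group
      map_mul' := fun s s' => by
        refine MulEquiv.ext fun n => Subtype.ext ?_
        show ((s * s' : S) : Y) * n * ((s * s' : S) : Y)⁻¹ =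
          s * (s' * n * (s' : Y)⁻¹) * (s : Y)⁻¹
        rw [Subgroup.coe_mul]
        group }
  refine ⟨c, ⟨Subgroup.inclusion_injective hNS, ?_, ?_⟩, ?_⟩
  · intro y a
    exact Subtype.ext rfl
  · intro y
    rw [hk]
    constructor
    · intro h
      exact ⟨⟨y, h⟩, Subtype.ext rfl⟩
    · rintro ⟨n, hn⟩
      rw [← hn]
      exact n.2
  · intro s n
    rfl

variable [Fintype Y]

/-- Characters as functions on the whole group. -/
theorem NO_eq (ℓ : ℕ) (S N : Subgroup Y) (hNS : N ≤ S) (θ : Y → ℂ) (d : ℕ) :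
    NO ℓ S N θ d = Nat.card {ψ : S → ℂ // IsIrr ψ ∧
      (ip (fun a : N => ψ (Subgroup.inclusion hNS a)) (fun n : N => θ n) ≠ 0 ∧
        HasDefect ℓ ψ d)} := by
  have hext : ∀ ψ : S → ℂ, (fun s : S => ext0 ψ (s : Y)) = ψ := by
    intro ψ
    funext s
    rw [ext0_of_mem ψ s.2]
  have hext2 : ∀ ψ : S → ℂ, iS N (ext0 ψ) θ =
      ip (fun a : N => ψ (Subgroup.inclusion hNS a)) (fun n : N => θ n) := by
    intro ψ
    unfold iS
    have h1 : (fun n : N => ext0 ψ (n : Y)) = fun a : N => ψ (Subgroup.inclusion hNS a) := by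
      funext a
      rw [ext0_of_mem ψ (hNS a.2)]
      rfl
    rw [h1]
  unfold NO
  refine Nat.card_congr ⟨fun ψ => ⟨fun s => ψ.1 s, ψ.2.1.1.1, ψ.2.2, ψ.2.1.2⟩,
    fun ψ => ⟨ext0 ψ.1, ⟨⟨?_, ?_⟩, ?_⟩, ?_⟩, ?_, ?_⟩
  · rw [hext]
    exact ψ.2.1
  · intro x hx
    exact ext0_of_not_mem ψ.1 hx
  · rw [hext]
    exact ψ.2.2.2
  · rw [hext2]
    exact ψ.2.2.1
  · intro ψ
    refine Subtype.ext (funext fun x => ?_)
    by_cases hx : x ∈ S
    · exact ext0_of_mem _ hx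
    · show ext0 (fun s : S => ψ.1 s) x = ψ.1 x
      rw [ext0_of_not_mem _ hx, ψ.2.1.1.2 x hx]
  · intro ψ
    exact Subtype.ext (hext ψ.1)

/-- The characters over `θ` and the characters over `μ`. -/
theorem side (hTWN : Stmt_TWN) {K Γ L : Type} [Group K] [Finite K] [Group Γ] [Fintype Γ]
    [Group L] [Fintype L] (ℓ : ℕ) [Fact ℓ.Prime] (N S : Subgroup Y) (hNS : N ≤ S) (p : S →* K)
    (hp : Function.Surjective p) (θ : Y → ℂ) (a : ℕ) (hID : ID ℓ N a θ) (c : S →* MulAut N)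
    (hc : ClG (Subgroup.inclusion hNS) c p) (hinv : ∀ s n, θ ((c s n : N) : Y) = θ (n : Y))
    (e : N →* Γ) (q : Γ →* L) (r : Γ →* S) (E : Γ → ℂ) (U : Subgroup L) (μ : U →* ℂˣ)
    (π : L →* K) (htw : TWD (Subgroup.inclusion hNS) p (fun n : N => θ n) e q r E U μ π)
    (d : ℕ) :
    NO ℓ S N θ d = Nat.card {η : L → ℂ // IsIrr η ∧
      (∀ (u : U) (l : L), η (u * l) = ((μ u : ℂˣ) : ℂ) * η l) ∧
      ∃ n : ℕ, η 1 = n ∧ d + padicValNat ℓ n = a + padicValNat ℓ (Nat.card K)} := by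
  classical
  have hcardU : Nat.card U ≠ 0 := Nat.card_pos.ne'
  have hcardK : Nat.card K ≠ 0 := Nat.card_pos.ne'
  obtain ⟨-, hcL, -, -, -, -, hdef, hcnt⟩ := hTWN N S K Γ L ℓ (Subgroup.inclusion hNS) c p hc hp
    (fun n : N => θ n) hID.1.1 hinv e q r E U μ π htw ⊤
  rw [NO_eq ℓ S N hNS θ d]
  -- the whole group as the inverse image of the whole group
  let eS : ↥((⊤ : Subgroup K).comap p) ≃* S :=
    (MulEquiv.subgroupCongr (Subgroup.comap_top p)).trans Subgroup.topEquiv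
  let eL : ↥((⊤ : Subgroup K).comap π) ≃* L :=
    (MulEquiv.subgroupCongr (Subgroup.comap_top π)).trans Subgroup.topEquiv
  have heS : ∀ x, eS x = (x : S) := fun x => rfl
  have heL : ∀ x, eL x = (x : L) := fun x => rfl
  have h1 := card_irr_equiv eS
    (fun ψ => ip (fun a : N => ext0 ψ (Subgroup.inclusion hNS a)) (fun n : N => θ n) ≠ 0 ∧
      HasDefect ℓ ψ d)
    (fun ψ => ip (fun a : N => ψ (Subgroup.inclusion hNS a)) (fun n : N => θ n) ≠ 0 ∧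
      HasDefect ℓ ψ d) (by
      intro ψ _
      have h2 : (fun a : N => ext0 (fun y => ψ (eS y)) (Subgroup.inclusion hNS a)) =
          fun a : N => ψ (Subgroup.inclusion hNS a) := by
        funext a
        rw [ext0_of_mem _ (show Subgroup.inclusion hNS a ∈ (⊤ : Subgroup K).comap p from
          Subgroup.mem_comap.2 (Subgroup.mem_top _))]
        rfl
      rw [h2]
      exact and_congr Iff.rfl (hasDefect_comp_equiv eS))
  rw [← h1]
  have h3 := hcnt (fun ψ => HasDefect ℓ ψ d)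
    (fun η => ∃ n : ℕ, η 1 = n ∧ d + padicValNat ℓ n = a + padicValNat ℓ (Nat.card K)) (by
      intro ψ η hψ hip hη hov hcor
      obtain ⟨d1, hd1⟩ := hψ.exists_defect (ℓ := ℓ)
      obtain ⟨d2, hd2⟩ := hη.exists_defect (ℓ := ℓ)
      have h4 := hdef ψ η a d1 d2 hη hcor hID.2 hd1 hd2
      obtain ⟨n, hn, hn'⟩ := hd2
      rw [hcL, Subgroup.card_top, padicValNat.mul hcardU hcardK] at hn'
      constructor
      · intro h5
        have h6 : d1 = d := hd1.unique h5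
        exact ⟨n, hn, by omega⟩
      · rintro ⟨n', hn1, hn2⟩
        have h6 : n' = n := by
          have h7 : (n' : ℂ) = (n : ℂ) := hn1.symm.trans hn
          exact_mod_cast h7
        have h8 : d = d1 := by
          rw [h6] at hn2
          omega
        rw [h8]
        exact hd1)
  rw [h3]
  exact card_irr_equiv eL
    (fun η => OvL U μ _ η ∧
      ∃ n : ℕ, η 1 = n ∧ d + padicValNat ℓ n = a + padicValNat ℓ (Nat.card K))
    (fun η => (∀ (u : U) (l : L), η (u * l) = ((μ u : ℂˣ) : ℂ) * η l) ∧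
      ∃ n : ℕ, η 1 = n ∧ d + padicValNat ℓ n = a + padicValNat ℓ (Nat.card K)) (by
      intro η _
      refine and_congr ?_ ?_
      · constructor
        · intro h u l
          obtain ⟨s, hs⟩ := eL.surjective (u : L)
          obtain ⟨t, ht⟩ := eL.surjective l
          have h5 : (s : L) = (u : L) := hs
          have h6 := h s t (by rw [h5]; exact u.2)
          have h7 : (⟨(s : L), by rw [h5]; exact u.2⟩ : U) = u := Subtype.ext h5
          rw [h7] at h6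
          have h8 : η (eL (s * t)) = ((μ u : ℂˣ) : ℂ) * η (eL t) := h6
          rw [map_mul, hs, ht] at h8
          exact h8
        · intro h s t hU
          show η (eL (s * t)) = ((μ ⟨s, hU⟩ : ℂˣ) : ℂ) * η (eL t)
          rw [map_mul]
          exact h ⟨s, hU⟩ (eL t)
      · show (∃ n : ℕ, η (eL 1) = n ∧ _) ↔ _
        rw [map_one])

/-- The commutator form takes one value. -/
theorem bt_unique (hBTX : Stmt_BTX) {K : Type} [Group K] (N S : Subgroup Y) (hNS : N ≤ S)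
    (p : S →* K) (hk : ∀ x : S, p x = 1 ↔ (x : Y) ∈ N) (θ : Y → ℂ) (hθ : IrrOn N θ)
    (hsx : S ≤ sx θ) (g g' : S) (hgg : (g : Y) * g' * (g : Y)⁻¹ * (g' : Y)⁻¹ ∈ N) (ζ ζ' : ℂ)
    (h : BT N θ g g' ζ) (h' : BT N θ g g' ζ') : ζ = ζ' := by
  have hcom : p g * p g' = p g' * p g := by
    have h1 : p (g * g' * g⁻¹ * g'⁻¹) = 1 := (hk _).2 hgg
    simp only [map_mul, map_inv] at h1
    have h2 : p g * p g' * (p g)⁻¹ = p g' := mul_inv_eq_one.1 h1
    rw [mul_inv_eq_iff_eq_mul] at h2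
    exact h2
  set C : Subgroup K := Subgroup.closure {p g, p g'} with hC
  have hgC : p g ∈ C := Subgroup.subset_closure (Set.mem_insert _ _)
  have hgC' : p g' ∈ C := Subgroup.subset_closure (Set.mem_insert_of_mem _ rfl)
  have hCc : C ≤ Subgroup.centralizer (C : Set K) := by
    rw [hC, Subgroup.closure_le]
    intro x hx
    have hx' : ∀ y ∈ C, y * x = x * y := by
      intro y hy
      have h3 : C ≤ Subgroup.centralizer {x} := by
        rw [hC, Subgroup.closure_le]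
        intro z hz
        rw [SetLike.mem_coe, Subgroup.mem_centralizer_iff]
        intro w hw
        rw [Set.mem_singleton_iff] at hw
        rw [hw]
        rcases hx with hx | hx <;> rcases hz with hz | hz
        · rw [hx, hz]
        · rw [Set.mem_singleton_iff] at hz
          rw [hx, hz]
          exact hcom
        · rw [Set.mem_singleton_iff] at hx
          rw [hx, hz]
          exact hcom.symm
        · rw [Set.mem_singleton_iff] at hx hz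
          rw [hx, hz]
      have h4 := Subgroup.mem_centralizer_iff.1 (h3 hy) x (Set.mem_singleton x)
      exact h4.symm
    rw [SetLike.mem_coe, Subgroup.mem_centralizer_iff]
    intro y hy
    exact hx' y hy
  have hCcomm : ∀ x ∈ C, ∀ y ∈ C, x * y = y * x := by
    intro x hx y hy
    exact (Subgroup.mem_centralizer_iff.1 (hCc hx) y hy).symm
  set T : Subgroup Y := (C.comap p).map S.subtype with hT
  have hmemT : ∀ x : S, p x ∈ C → (x : Y) ∈ T := by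
    intro x hx
    exact ⟨x, Subgroup.mem_comap.2 hx, rfl⟩
  have hNT : N ≤ T := by
    intro n hn
    refine hmemT ⟨n, hNS hn⟩ ?_
    rw [(hk ⟨n, hNS hn⟩).2 hn]
    exact C.one_mem
  have hTS : T ≤ S := by
    rintro _ ⟨x, _, rfl⟩
    exact x.2
  obtain ⟨β, hβ, -⟩ := hBTX Y N T hNT (by
    rintro _ ⟨s, hs, rfl⟩ n hn
    have h5 : p (s * ⟨n, hNS hn⟩ * s⁻¹) = 1 := by
      rw [map_mul, map_mul, (hk ⟨n, hNS hn⟩).2 hn, mul_one, map_inv, mul_inv_cancel]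
    exact (hk _).1 h5) (by
    rintro _ ⟨s, hs, rfl⟩ _ ⟨t, ht, rfl⟩
    have h5 : p (s * t * s⁻¹ * t⁻¹) = 1 := by
      have h6 := hCcomm (p s) hs (p t) ht
      simp only [map_mul, map_inv]
      rw [h6]
      group
    exact (hk _).1 h5) θ hθ (hTS.trans hsx)
  rw [(hβ g (hmemT g hgC) g' (hmemT g' hgC') ζ).1 h,
    (hβ g (hmemT g hgC) g' (hmemT g' hgC') ζ').1 h']

end Side

end CQ

theorem CQ_thm (h1 : Stmt_HHS) (h2 : Stmt_TWC) (h3 : Stmt_TWN) (h4 : Stmt_XIM)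
    (h5 : Stmt_DETL) (h6 : Stmt_EXTL) (h7 : Stmt_CNTW) (h8 : Stmt_BTW) (h9 : Stmt_BTX) :
    Stmt_CQ := by
  classical
  intro Y K _ _ _ _ ℓ _ hK N₁ S₁ N₂ S₂ hNS₁ hSS hN₂ hS₁ f hf θ₁ θ₂ a hID₁ hID₂ hsx₁ hsx₂ m hm
    hip hBT d
  have hNS₂ : N₂ ≤ S₂ := by
    rw [hN₂]
    exact inf_le_left
  have hNN : N₂ ≤ N₁ := by
    rw [hN₂]
    exact inf_le_right
  -- the quotients
  let p₁ : S₁ →* ↥f.range := f.rangeRestrict
  let i : S₂ →* S₁ := Subgroup.inclusion hSS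
  let p₂ : S₂ →* ↥f.range := p₁.comp i
  have hHH : HH ℓ ↥f.range := (h1 K ℓ hK).1 ↥f.range f.range.subtype (Subgroup.subtype_injective _)
  have hk₁ : ∀ x : S₁, p₁ x = 1 ↔ (x : Y) ∈ N₁ := by
    intro x
    rw [← hf]
    exact ⟨fun h => congrArg Subtype.val h, fun h => Subtype.ext h⟩
  have hk₂ : ∀ x : S₂, p₂ x = 1 ↔ (x : Y) ∈ N₂ := by
    intro x
    have h10 : p₂ x = 1 ↔ (x : Y) ∈ N₁ := hk₁ (i x)
    rw [h10, hN₂]
    exact ⟨fun h => ⟨x.2, h⟩, fun h => h.2⟩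
  have hp₁ : Function.Surjective p₁ := f.rangeRestrict_surjective
  have hp₂ : Function.Surjective p₂ := by
    have h10 : S₁ ≤ (p₂.range.comap p₁).map S₁.subtype := by
      conv_lhs => rw [hS₁]
      refine sup_le ?_ ?_
      · intro x hx
        exact ⟨⟨x, hSS hx⟩, Subgroup.mem_comap.2 ⟨⟨x, hx⟩, rfl⟩, rfl⟩
      · intro x hx
        refine ⟨⟨x, hNS₁ hx⟩, Subgroup.mem_comap.2 ?_, rfl⟩
        rw [(hk₁ ⟨x, hNS₁ hx⟩).2 hx]
        exact Subgroup.one_mem _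
    intro k
    obtain ⟨x, hx⟩ := hp₁ k
    obtain ⟨x', hx', hxx⟩ := h10 x.2
    have h11 : x' = x := Subtype.ext hxx
    rw [h11] at hx'
    obtain ⟨s, hs⟩ := Subgroup.mem_comap.1 hx'
    exact ⟨s, hs.trans hx⟩
  -- invariance
  have hsxN : N₁ ≤ sx θ₁ := by
    intro n hn
    rw [mem_sx]
    intro x
    by_cases hx : x ∈ N₁
    · exact hID₁.1.1.conj_eq ⟨n, hn⟩ ⟨x, hx⟩
    · rw [hID₁.1.2 x hx, hID₁.1.2]
      intro h
      apply hx
      have h10 := N₁.mul_mem (N₁.mul_mem (N₁.inv_mem hn) h) hn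
      have h11 : n⁻¹ * (n * x * n⁻¹) * n = x := by group
      rwa [h11] at h10
  have hsxS : S₁ ≤ sx θ₁ := by
    rw [hS₁]
    exact sup_le hsx₁ hsxN
  obtain ⟨c₁, hc₁, hc₁'⟩ := CQ.exists_act N₁ S₁ hNS₁ p₁ hk₁
  obtain ⟨c₂, hc₂, hc₂'⟩ := CQ.exists_act N₂ S₂ hNS₂ p₂ hk₂
  have hinv₁ : ∀ (s : S₁) (n : N₁), θ₁ ((c₁ s n : N₁) : Y) = θ₁ (n : Y) := by
    intro s n
    rw [hc₁']
    exact (mem_sx.1 (hsxS s.2)) n
  have hinv₂ : ∀ (s : S₂) (n : N₂), θ₂ ((c₂ s n : N₂) : Y) = θ₂ (n : Y) := by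
    intro s n
    rw [hc₂']
    exact (mem_sx.1 (hsx₂ s.2)) n
  obtain ⟨Γ₁, L₁, _, _, _, _, e₁, q₁, r₁, E₁, U₁, μ₁, π₁, tw₁⟩ :=
    h2 N₁ S₁ ↥f.range (Subgroup.inclusion hNS₁) c₁ p₁ hc₁ hp₁ (fun n => θ₁ n) hID₁.1.1 hinv₁
  obtain ⟨Γ₂, L₂, _, _, _, _, e₂, q₂, r₂, E₂, U₂, μ₂, π₂, tw₂⟩ :=
    h2 N₂ S₂ ↥f.range (Subgroup.inclusion hNS₂) c₂ p₂ hc₂ hp₂ (fun n => θ₂ n) hID₂.1.1 hinv₂
  rw [CQ.side h3 ℓ N₁ S₁ hNS₁ p₁ hp₁ θ₁ a hID₁ c₁ hc₁ hinv₁ e₁ q₁ r₁ E₁ U₁ μ₁ π₁ tw₁ d,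
    CQ.side h3 ℓ N₂ S₂ hNS₂ p₂ hp₂ θ₂ a hID₂ c₂ hc₂ hinv₂ e₂ q₂ r₂ E₂ U₂ μ₂ π₂ tw₂ d]
  -- the fibre product and its central subgroup
  let fW : ↥(fpr π₁ π₂) →* ↥f.range := π₁.comp (ffst π₁ π₂)
  let A : Subgroup ↥(fpr π₁ π₂) := fW.ker
  have hA1 : ∀ w ∈ A, ffst π₁ π₂ w ∈ U₁ := fun w hw => (tw₁.πk _).1 (MonoidHom.mem_ker.1 hw)
  have hA2 : ∀ w ∈ A, fsnd π₁ π₂ w ∈ U₂ := by
    intro w hw
    refine (tw₂.πk _).1 ?_
    have h10 : π₁ (ffst π₁ π₂ w) = π₂ (fsnd π₁ π₂ w) := w.2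
    rw [← h10]
    exact MonoidHom.mem_ker.1 hw
  let g₁ : A →* U₁ := ((ffst π₁ π₂).comp A.subtype).codRestrict U₁ (fun w => hA1 w w.2)
  let g₂ : A →* U₂ := ((fsnd π₁ π₂).comp A.subtype).codRestrict U₂ (fun w => hA2 w w.2)
  let χ : A →* ℂˣ := (μ₁.comp g₁)⁻¹ * μ₂.comp g₂
  have hχ : ∀ x : A, χ x = (μ₁ (g₁ x))⁻¹ * μ₂ (g₂ x) := fun x => rfl
  have hAc : A ≤ Subgroup.center ↥(fpr π₁ π₂) := by
    intro w hw
    rw [Subgroup.mem_center_iff]
    intro v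
    refine Subtype.ext (Prod.ext ?_ ?_)
    · exact (Subgroup.mem_center_iff.1 (tw₁.Uc (hA1 w hw))) (ffst π₁ π₂ v)
    · exact (Subgroup.mem_center_iff.1 (tw₂.Uc (hA2 w hw))) (fsnd π₁ π₂ v)
  -- the character of the space of homomorphisms
  obtain ⟨Ξ, hΞc, hΞ1, hΞμ⟩ := h4 N₁ S₁ Γ₁ L₁ N₂ S₂ Γ₂ L₂ ↥f.range (Subgroup.inclusion hNS₁) p₁
    (fun n => θ₁ n) e₁ q₁ r₁ E₁ U₁ μ₁ π₁ (Subgroup.inclusion hNS₂) p₂ (fun n => θ₂ n) e₂ q₂ r₂
    E₂ U₂ μ₂ π₂ tw₁ tw₂ hc₁.ker hc₂.ker hc₁.inj hc₂.inj hp₂ hID₁.1.1 hID₂.1.1 i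
    (Subgroup.inclusion hNN) (Subgroup.inclusion_injective hSS) (fun t => rfl) (fun x => rfl)
  have hΞm : Ξ 1 = m := by
    rw [hΞ1, ← hip]
    rfl
  have hm0 : m ≠ 0 := by
    intro h
    rw [h] at hm
    exact hm (dvd_zero ℓ)
  have hrel : ∀ (x : A) (w : ↥(fpr π₁ π₂)), Ξ (x * w) = ((χ x : ℂˣ) : ℂ) * Ξ w := by
    intro x w
    have h10 := hΞμ x w (hA1 x x.2) (hA2 x x.2)
    have h11 : ((μ₁ (g₁ x) : ℂˣ) : ℂ) * Ξ (x * w) = ((μ₂ (g₂ x) : ℂˣ) : ℂ) * Ξ w := h10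
    rw [hχ, Units.val_mul, Units.val_inv_eq_inv_val, mul_assoc, ← h11, ← mul_assoc,
      inv_mul_cancel₀ (Units.ne_zero _), one_mul]
  obtain ⟨δ, hδ⟩ := h5 ↥(fpr π₁ π₂) A χ Ξ m hΞc hΞm hrel hm0
  -- lifts
  have hlift : ∀ (w : ↥(fpr π₁ π₂)) (γ₂ : Γ₂), q₂ γ₂ = fsnd π₁ π₂ w →
      ∃ γ₁ : Γ₁, q₁ γ₁ = ffst π₁ π₂ w ∧ r₁ γ₁ = i (r₂ γ₂) := by
    intro w γ₂ hγ
    obtain ⟨γ₀, hγ₀⟩ := tw₁.qs (ffst π₁ π₂ w)
    have h10 : p₁ (r₁ γ₀) = p₁ (i (r₂ γ₂)) := by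
      have h11 : π₁ (ffst π₁ π₂ w) = π₂ (fsnd π₁ π₂ w) := w.2
      have h12 : p₁ (r₁ γ₀) = π₁ (q₁ γ₀) := (tw₁.πq γ₀).symm
      have h13 : p₂ (r₂ γ₂) = π₂ (q₂ γ₂) := (tw₂.πq γ₂).symm
      rw [h12, hγ₀, h11, ← hγ, ← h13]
      rfl
    have h14 : p₁ ((r₁ γ₀)⁻¹ * i (r₂ γ₂)) = 1 := by
      rw [map_mul, map_inv, h10, inv_mul_cancel]
    obtain ⟨x, hx⟩ := (hc₁.ker _).1 h14
    refine ⟨γ₀ * e₁ x, ?_, ?_⟩
    · rw [map_mul, (tw₁.qk _).2 ⟨x, rfl⟩, mul_one, hγ₀]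
    · rw [map_mul, tw₁.re, hx, mul_inv_cancel_left]
  -- the ranges
  have hr₁ : (S₁.subtype.comp (Subgroup.inclusion hNS₁)).range = N₁ := by
    ext x
    constructor
    · rintro ⟨n, rfl⟩
      exact n.2
    · intro hx
      exact ⟨⟨x, hx⟩, rfl⟩
  have hr₂ : (S₂.subtype.comp (Subgroup.inclusion hNS₂)).range = N₂ := by
    ext x
    constructor
    · rintro ⟨n, rfl⟩
      exact n.2
    · intro hx
      exact ⟨⟨x, hx⟩, rfl⟩
  -- commutators
  have hcomm : ∀ (x y : ↥(fpr π₁ π₂)) (h : x * y * x⁻¹ * y⁻¹ ∈ A) (n : ℕ), ¬ ℓ ∣ n →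
      x ^ n ∈ A → y ^ n ∈ A → χ ⟨x * y * x⁻¹ * y⁻¹, h⟩ = 1 := by
    intro x y h n hn hxn hyn
    obtain ⟨γ₂, hγ₂⟩ := tw₂.qs (fsnd π₁ π₂ x)
    obtain ⟨γ₂', hγ₂'⟩ := tw₂.qs (fsnd π₁ π₂ y)
    obtain ⟨γ₁, hγ₁, hrγ₁⟩ := hlift x γ₂ hγ₂
    obtain ⟨γ₁', hγ₁', hrγ₁'⟩ := hlift y γ₂' hγ₂'
    have hq1 : q₁ γ₁ * q₁ γ₁' * (q₁ γ₁)⁻¹ * (q₁ γ₁')⁻¹ =
        ffst π₁ π₂ (x * y * x⁻¹ * y⁻¹) := by
      rw [hγ₁, hγ₁']
      simp only [map_mul, map_inv]
    have hq2 : q₂ γ₂ * q₂ γ₂' * (q₂ γ₂)⁻¹ * (q₂ γ₂')⁻¹ =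
        fsnd π₁ π₂ (x * y * x⁻¹ * y⁻¹) := by
      rw [hγ₂, hγ₂']
      simp only [map_mul, map_inv]
    have hU1 : q₁ γ₁ * q₁ γ₁' * (q₁ γ₁)⁻¹ * (q₁ γ₁')⁻¹ ∈ U₁ := by
      rw [hq1]
      exact hA1 _ h
    have hU2 : q₂ γ₂ * q₂ γ₂' * (q₂ γ₂)⁻¹ * (q₂ γ₂')⁻¹ ∈ U₂ := by
      rw [hq2]
      exact hA2 _ h
    have hb1 := h8 N₁ S₁ ↥f.range Γ₁ L₁ Y (Subgroup.inclusion hNS₁) c₁ p₁ hc₁ hp₁
      (fun n => θ₁ n) hID₁.1.1 hinv₁ e₁ q₁ r₁ E₁ U₁ μ₁ π₁ tw₁ S₁.subtype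
      (Subgroup.subtype_injective _) θ₁ (fun _ => rfl) (fun z hz => hID₁.1.2 z (by
        rw [hr₁] at hz
        exact hz)) γ₁ γ₁' hU1
    have hb2 := h8 N₂ S₂ ↥f.range Γ₂ L₂ Y (Subgroup.inclusion hNS₂) c₂ p₂ hc₂ hp₂
      (fun n => θ₂ n) hID₂.1.1 hinv₂ e₂ q₂ r₂ E₂ U₂ μ₂ π₂ tw₂ S₂.subtype
      (Subgroup.subtype_injective _) θ₂ (fun _ => rfl) (fun z hz => hID₂.1.2 z (by
        rw [hr₂] at hz
        exact hz)) γ₂ γ₂' hU2
    rw [hr₁, hrγ₁, hrγ₁'] at hb1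
    rw [hr₂] at hb2
    have hb1' : BT N₁ θ₁ ((r₂ γ₂ : S₂) : Y) ((r₂ γ₂' : S₂) : Y)
        ((μ₁ ⟨_, hU1⟩ : ℂˣ) : ℂ) := hb1
    have hb2' : BT N₂ θ₂ ((r₂ γ₂ : S₂) : Y) ((r₂ γ₂' : S₂) : Y)
        ((μ₂ ⟨_, hU2⟩ : ℂˣ) : ℂ) := hb2
    -- the elements of `S₂`
    have hpq : ∀ γ, p₂ (r₂ γ) = π₂ (q₂ γ) := fun γ => (tw₂.πq γ).symm
    have hgg : ((r₂ γ₂ : S₂) : Y) * (r₂ γ₂' : S₂) * ((r₂ γ₂ : S₂) : Y)⁻¹ *
        ((r₂ γ₂' : S₂) : Y)⁻¹ ∈ N₂ := by
      have h10 : p₂ (r₂ γ₂ * r₂ γ₂' * (r₂ γ₂)⁻¹ * (r₂ γ₂')⁻¹) = 1 := by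
        have h11 : π₂ (q₂ γ₂ * q₂ γ₂' * (q₂ γ₂)⁻¹ * (q₂ γ₂')⁻¹) = 1 := (tw₂.πk _).2 hU2
        simp only [map_mul, map_inv] at h11 ⊢
        rw [hpq, hpq]
        exact h11
      exact (hk₂ _).1 h10
    have hpow : ∀ (w : ↥(fpr π₁ π₂)) (γ : Γ₂), q₂ γ = fsnd π₁ π₂ w → w ^ n ∈ A →
        ((r₂ γ : S₂) : Y) ^ n ∈ N₂ := by
      intro w γ hγ hw
      have h10 : p₂ ((r₂ γ) ^ n) = 1 := by
        have h11 : π₂ (fsnd π₁ π₂ (w ^ n)) = 1 := (tw₂.πk _).2 (hA2 _ hw)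
        rw [map_pow, map_pow] at h11
        rw [map_pow, hpq, hγ]
        exact h11
      exact (hk₂ _).1 h10
    have hb3 := hBT _ (r₂ γ₂).2 _ (r₂ γ₂').2 hgg n hn (hpow x γ₂ hγ₂ hxn)
      (hpow y γ₂' hγ₂' hyn) _ hb1'
    have hval := CQ.bt_unique h9 N₂ S₂ hNS₂ p₂ hk₂ θ₂ hID₂.1 hsx₂ (r₂ γ₂) (r₂ γ₂') hgg _ _
      hb3 hb2'
    have hg1 : g₁ ⟨x * y * x⁻¹ * y⁻¹, h⟩ = ⟨_, hU1⟩ := Subtype.ext hq1.symm
    have hg2 : g₂ ⟨x * y * x⁻¹ * y⁻¹, h⟩ = ⟨_, hU2⟩ := Subtype.ext hq2.symm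
    have hval' : μ₁ ⟨_, hU1⟩ = μ₂ ⟨_, hU2⟩ := Units.ext hval
    rw [hχ, hg1, hg2, hval', inv_mul_cancel]
  obtain ⟨κ, hκ⟩ := h6 ↥(fpr π₁ π₂) ↥f.range ℓ A hAc fW (fun w => MonoidHom.mem_ker.symm) hHH χ m
    hm ⟨δ, hδ⟩ hcomm
  -- the numbers of characters of a given degree
  have hcnt := h7 L₁ L₂ ↥f.range π₁ π₂ U₁ U₂ μ₁ μ₂ tw₁.πs tw₂.πs tw₁.πk tw₂.πk κ (by
    intro u hu₁ hu₂
    have huA : u ∈ A := MonoidHom.mem_ker.2 ((tw₁.πk _).2 hu₁)
    have h10 := hκ ⟨u, huA⟩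
    have h11 : κ u = (μ₁ (g₁ ⟨u, huA⟩))⁻¹ * μ₂ (g₂ ⟨u, huA⟩) := h10
    rw [h11]
    have h12 : g₁ ⟨u, huA⟩ = ⟨_, hu₁⟩ := Subtype.ext rfl
    have h13 : g₂ ⟨u, huA⟩ = ⟨_, hu₂⟩ := Subtype.ext rfl
    rw [h12, h13, mul_inv_cancel_left])
  let Q : ℂ → Prop := fun z => ∃ n : ℕ, z = n ∧
    d + padicValNat ℓ n = a + padicValNat ℓ (Nat.card ↥f.range)
  let X₁ : Type := {η : L₁ → ℂ // IsIrr η ∧
    (∀ (u : U₁) (l : L₁), η (u * l) = ((μ₁ u : ℂˣ) : ℂ) * η l) ∧ Q (η 1)}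
  let X₂ : Type := {η : L₂ → ℂ // IsIrr η ∧
    (∀ (u : U₂) (l : L₂), η (u * l) = ((μ₂ u : ℂˣ) : ℂ) * η l) ∧ Q (η 1)}
  have hfin₁ : Finite X₁ := Finite.of_injective
    (fun x : X₁ => (⟨x.1, x.2.1⟩ : {χ : L₁ → ℂ // IsIrr χ})) (fun x y hxy => by
      have h10 : (⟨x.1, x.2.1⟩ : {χ : L₁ → ℂ // IsIrr χ}) = ⟨y.1, y.2.1⟩ := hxy
      exact Subtype.ext (Subtype.mk.inj h10))
  have hfin₂ : Finite X₂ := Finite.of_injective
    (fun x : X₂ => (⟨x.1, x.2.1⟩ : {χ : L₂ → ℂ // IsIrr χ})) (fun x y hxy => by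
      have h10 : (⟨x.1, x.2.1⟩ : {χ : L₂ → ℂ // IsIrr χ}) = ⟨y.1, y.2.1⟩ := hxy
      exact Subtype.ext (Subtype.mk.inj h10))
  refine CQ.card_eq_of_fibers (X₁ := X₁) (X₂ := X₂) (fun x => x.1 1) (fun x => x.1 1) ?_
  intro z
  by_cases hz : Q z
  · rw [CQ.card_fiber (fun η : L₁ → ℂ => ∀ (u : U₁) (l : L₁), η (u * l) =
        ((μ₁ u : ℂˣ) : ℂ) * η l) Q z hz,
      CQ.card_fiber (fun η : L₂ → ℂ => ∀ (u : U₂) (l : L₂), η (u * l) =
        ((μ₂ u : ℂˣ) : ℂ) * η l) Q z hz]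
    obtain ⟨n, hn, -⟩ := hz
    rw [hn]
    exact hcnt n
  · rw [CQ.card_fiber_empty (fun η : L₁ → ℂ => ∀ (u : U₁) (l : L₁), η (u * l) =
        ((μ₁ u : ℂˣ) : ℂ) * η l) Q z hz,
      CQ.card_fiber_empty (fun η : L₂ → ℂ => ∀ (u : U₂) (l : L₂), η (u * l) =
        ((μ₂ u : ℂˣ) : ℂ) * η l) Q z hz]

end Pool.Agent.DPT


end

section

/-!
# TYP: the characters of the type of a character of defect zero
-/

set_option autoImplicit false

namespace Pool.Agent.DPT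

open Pool.Agent.DP Pool.Agent.DPC Pool.Agent.DPM Pool.Agent.DPN Pool.Agent.Lib_helper13
open Representation
open Pool.Agent.Lib_helper13.Dade (pCore DadeHolds dadeSum)

namespace TYP

section One

variable {Y : Type} [Group Y]

/-- The conjugation action of `S` on the subgroup `A` which it normalizes. -/
theorem exists_act (A S : Subgroup Y) (hAS : A ≤ S) (hn : ∀ s ∈ S, ∀ a ∈ A, s * a * s⁻¹ ∈ A) :
    ∃ (K : Type) (_ : Group K) (c : S →* MulAut A) (p : S →* K),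
      ClG (Subgroup.inclusion hAS) c p := by
  have hN : (A.subgroupOf S).Normal := by
    refine ⟨fun a ha s => ?_⟩
    rw [Subgroup.mem_subgroupOf] at ha ⊢
    exact hn s s.2 a ha
  let c : S →* MulAut A :=
    { toFun := fun s =>
        { toFun := fun n => ⟨s * n * (s : Y)⁻¹, hn s s.2 n n.2⟩
          invFun := fun n => ⟨(s⁻¹ : S) * n * ((s⁻¹ : S) : Y)⁻¹, hn _ (s⁻¹).2 n n.2⟩
          left_inv := fun n => Subtype.ext (by
            show ((s⁻¹ : S) : Y) * (s * n * (s : Y)⁻¹) * ((s⁻¹ : S) : Y)⁻¹ = n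
            rw [Subgroup.coe_inv]
            group)
          right_inv := fun n => Subtype.ext (by
            show (s : Y) * (((s⁻¹ : S) : Y) * n * ((s⁻¹ : S) : Y)⁻¹) * (s : Y)⁻¹ = n
            rw [Subgroup.coe_inv]
            group)
          map_mul' := fun n n' => Subtype.ext (by
            show (s : Y) * ((n * n' : A) : Y) * (s : Y)⁻¹ =
              (s * n * (s : Y)⁻¹) * (s * n' * (s : Y)⁻¹)
            rw [Subgroup.coe_mul]
            group) }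
      map_one' := by
        refine MulEquiv.ext fun n => Subtype.ext ?_
        show ((1 : S) : Y) * n * ((1 : S) : Y)⁻¹ = n
        rw [Subgroup.coe_one]
        group
      map_mul' := fun s s' => by
        refine MulEquiv.ext fun n => Subtype.ext ?_
        show ((s * s' : S) : Y) * n * ((s * s' : S) : Y)⁻¹ =
          s * (s' * n * (s' : Y)⁻¹) * (s : Y)⁻¹
        rw [Subgroup.coe_mul]
        group }
  refine ⟨S ⧸ A.subgroupOf S, inferInstance, c, QuotientGroup.mk' (A.subgroupOf S), ?_⟩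
  refine ⟨Subgroup.inclusion_injective hAS, fun y a => Subtype.ext rfl, ?_⟩
  intro y
  rw [QuotientGroup.mk'_apply, QuotientGroup.eq_one_iff, Subgroup.mem_subgroupOf]
  constructor
  · intro h
    exact ⟨⟨y, h⟩, Subtype.ext rfl⟩
  · rintro ⟨n, hn'⟩
    rw [← hn']
    exact n.2

variable [Fintype Y]

/-- The weights of characters of a normal subgroup. -/
theorem wS_normal (A S : Subgroup Y) (hAS : A ≤ S) (hn : ∀ s ∈ S, ∀ a ∈ A, s * a * s⁻¹ ∈ A)
    {ψ χ : Y → ℂ} (hψ : IrrOn S ψ) (hχ : IrrOn A χ) (hi : iS A ψ χ ≠ 0) {f : Y → ℂ}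
    (hf : ∀ s ∈ S, ∀ x ∈ S, f (s * x * s⁻¹) = f x) (h0 : ∀ x ∈ S, x ∉ A → f x = 0) :
    wS S ψ f = wS A χ f := by
  obtain ⟨K, _, c, p, hc⟩ := exists_act A S hAS hn
  have h := (SUMM_thm A S K (Subgroup.inclusion hAS) c p hc).2.2.2 (fun a => χ a)
    (fun s => ψ s) (fun s => f s) hχ.1 hψ.1 hi (fun g x => hf g g.2 x x.2) ?_
  · exact h
  · intro y hy
    apply h0 y y.2
    intro hyA
    exact hy ⟨⟨y, hyA⟩, Subtype.ext rfl⟩

/-- A character of a subgroup under a character. -/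
theorem exists_under (A S : Subgroup Y) (hAS : A ≤ S) {ψ : Y → ℂ} (hψ : IrrOn S ψ) :
    ∃ χ : Y → ℂ, IrrOn A χ ∧ iS A ψ χ ≠ 0 := by
  have hr : IsChr (fun a : A => ψ a) := hψ.1.isChr.comp (Subgroup.inclusion hAS)
  by_contra hcon
  push Not at hcon
  have h1 := congrFun (class_fn_expand (fun a : A => ψ a) (fun g x => hr.conj_eq g x)) 1
  have h2 : ∀ χ ∈ irrF A, ip (fun a : A => ψ a) χ * χ 1 = 0 := by
    intro χ hχ
    have h3 : (fun a : A => ext0 χ (a : Y)) = χ := by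
      funext a
      exact ext0_of_mem χ a.2
    have h4 := hcon (ext0 χ) ⟨by rw [h3]; exact mem_irrF.mp hχ, fun x hx =>
      ext0_of_not_mem χ hx⟩
    rw [iS, h3] at h4
    rw [h4, zero_mul]
  rw [Finset.sum_eq_zero h2] at h1
  exact hψ.1.one_ne_zero h1

end One

/-- The function `F ∘ k` on the elements of order prime to `ℓ` is a class function. -/
theorem rg_conj {Y G : Type} [Group Y] [Group G] (ℓ : ℕ) (k : Y →* G) (F : G → ℂ)
    {S : Subgroup G} (hF : ∀ s ∈ S, ∀ x ∈ S, F (s * x * s⁻¹) = F x) :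
    ∀ s ∈ S.comap k, ∀ x ∈ S.comap k, rg ℓ k F (s * x * s⁻¹) = rg ℓ k F x := by
  classical
  intro s hs x hx
  have h1 : orderOf (s * x * s⁻¹) = orderOf x := by
    have h2 := orderOf_injective (MulAut.conj s).toMonoidHom (MulAut.conj s).injective x
    rw [← h2]
    rfl
  unfold rg
  rw [h1, map_mul, map_mul, map_inv, hF _ hs _ hx]

end TYP

open _root_.Pool.Agent.DPT.TYP in
/-- TYP: the characters of the type of a character of defect zero. -/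
theorem TYP_thm (h1 : Stmt_TY0) (h2 : Stmt_TYC) (h3 : Stmt_DGSB) (h4 : Stmt_MLV)
    (_h5 : Stmt_SUMM) : Stmt_TYP := by
  intro Y G _ _ _ _ 𝔐 ℓ _ hM hℓ k hk lam M₀ hM₀ hMk θ₀ hθ₀ R S hR hSM ψ hψ hψl
  have hCk : cN M₀ R ≤ k.range := le_trans (hSM ▸ inf_le_right) hMk
  have hRn : ∀ r ∈ R, ∀ n ∈ M₀, r * n * r⁻¹ ∈ M₀ := fun r _ n hn => hM₀.conj_mem n hn r
  have hCS : (cN M₀ R).comap k ≤ S.comap k := by
    rw [← hSM]
    exact Subgroup.comap_mono inf_le_left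
  constructor
  · intro hT
    obtain ⟨χ', hχ', hi⟩ := exists_under ((cN M₀ R).comap k) (S.comap k) hCS hψ
    obtain ⟨θ', hθ', hML, hF⟩ := h1 Y G 𝔐 ℓ hM hℓ k hk lam M₀ hM₀ hMk θ₀ hθ₀ S ψ hψ hψl hT χ'
      (by rw [hSM]; exact hχ') (by rw [hSM]; exact hi)
    rw [hSM] at hθ' hML hF
    obtain ⟨ξ, hξ, hD⟩ := (h3 G 𝔐 ℓ hM hℓ M₀ R hR hRn).1 θ' hθ'
    refine ⟨θ', ξ, χ', hθ', hξ, hD, ?_, hML, hi⟩
    refine (h2 G 𝔐 ℓ hM hℓ M₀ hM₀ ξ θ₀ hξ hθ₀).1 ?_
    intro F hFc hFi hF0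
    rw [← hD F (fun n _ x _ => hFc n x) (fun r _ x _ => hFc r x) hFi]
    exact hF F hFc hFi hF0
  · rintro ⟨θ', ξ, χ', hθ', hξ, hD, hg, hML, hi⟩ F hFc hFi hF0
    have hn : ∀ s ∈ S.comap k, ∀ a ∈ (cN M₀ R).comap k, s * a * s⁻¹ ∈ (cN M₀ R).comap k := by
      intro s hs a ha
      rw [← hSM] at ha ⊢
      rw [Subgroup.mem_comap] at hs ha ⊢
      rw [map_mul, map_mul, map_inv]
      exact ⟨S.mul_mem (S.mul_mem hs ha.1) (S.inv_mem hs), hM₀.conj_mem _ ha.2 _⟩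
    have e1 : wS (S.comap k) ψ (rg ℓ k F) = wS ((cN M₀ R).comap k) χ' (rg ℓ k F) := by
      refine wS_normal _ _ hCS hn hψ hML.1 hi (rg_conj ℓ k F fun s _ x _ => hFc s x) ?_
      intro x hx hxC
      classical
      unfold rg
      split_ifs
      · rfl
      · apply hF0
        intro hxM
        apply hxC
        rw [← hSM]
        exact ⟨hx, hxM⟩
    rw [e1, (h4 Y G 𝔐 ℓ hM hℓ k hk lam (cN M₀ R) hCk θ' χ' hθ' hML).2 F
      (fun n _ x _ => hFc n x) hFi, hD F (fun n _ x _ => hFc n x) (fun r _ x _ => hFc r x) hFi]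
    exact (h2 G 𝔐 ℓ hM hℓ M₀ hM₀ ξ θ₀ hξ hθ₀).2 hg F hFc hFi hF0

end Pool.Agent.DPT


end

section

/-!
# DZA: the contribution of an outer chain
-/

set_option autoImplicit false
set_option linter.unusedSectionVars false

namespace Pool.Agent.DPT

open Pool.Agent.DP Pool.Agent.DPC Pool.Agent.DPM Pool.Agent.DPN Pool.Agent.Lib_helper13
open Representation
open Pool.Agent.Lib_helper13.Dade (pCore DadeHolds dadeSum)

namespace DZA

/-! ### Functions on subgroups -/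

section One

variable {Y : Type} [Group Y]

/-- The conjugation action of `S` on the subgroup `A` which it normalizes. -/
theorem exists_act (A S : Subgroup Y) (hAS : A ≤ S) (hn : ∀ s ∈ S, ∀ a ∈ A, s * a * s⁻¹ ∈ A) :
    ∃ (K : Type) (_ : Group K) (c : S →* MulAut A) (p : S →* K),
      ClG (Subgroup.inclusion hAS) c p ∧
        (∀ (s : S) (n : A), ((c s n : A) : Y) = s * n * (s : Y)⁻¹) ∧
        Function.Surjective p := by
  have hN : (A.subgroupOf S).Normal := by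
    refine ⟨fun a ha s => ?_⟩
    rw [Subgroup.mem_subgroupOf] at ha ⊢
    exact hn s s.2 a ha
  obtain ⟨c, hc, hc'⟩ := CQ.exists_act A S hAS (QuotientGroup.mk' (A.subgroupOf S)) (by
    intro x
    rw [QuotientGroup.mk'_apply, QuotientGroup.eq_one_iff, Subgroup.mem_subgroupOf])
  exact ⟨S ⧸ A.subgroupOf S, inferInstance, c, _, hc, hc', QuotientGroup.mk'_surjective _⟩

theorem ext0_coe {S : Subgroup Y} (ψ : S → ℂ) : (fun s : S => ext0 ψ (s : Y)) = ψ := by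
  funext s
  exact ext0_of_mem ψ s.2

theorem ext0_res {S : Subgroup Y} {f : Y → ℂ} (h : ∀ x, x ∉ S → f x = 0) :
    ext0 (fun s : S => f s) = f := by
  funext x
  by_cases hx : x ∈ S
  · rw [ext0_of_mem _ hx]
  · rw [ext0_of_not_mem _ hx, h x hx]

theorem irrOn_ext0 {S : Subgroup Y} {ψ : S → ℂ} (h : IsIrr ψ) : IrrOn S (ext0 ψ) :=
  ⟨by rw [ext0_coe]; exact h, fun _ hx => ext0_of_not_mem ψ hx⟩

theorem ext0_inj {S : Subgroup Y} {ψ ψ' : S → ℂ} (h : ext0 ψ = ext0 ψ') : ψ = ψ' := by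
  rw [← ext0_coe ψ, ← ext0_coe ψ', h]

theorem mem_irrOn [Fintype Y] {S : Subgroup Y} {f : Y → ℂ} : f ∈ irrOn S ↔ IrrOn S f := by
  classical
  unfold irrOn
  rw [Finset.mem_image]
  constructor
  · rintro ⟨ψ, hψ, rfl⟩
    exact irrOn_ext0 (mem_irrF.mp hψ)
  · intro h
    exact ⟨fun s => f s, mem_irrF.mpr h.1, ext0_res h.2⟩

/-- An irreducible character of `S` is invariant under `S`. -/
theorem le_sx {S : Subgroup Y} {f : Y → ℂ} [Finite Y] (h : IrrOn S f) : S ≤ sx f := by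
  have := Fintype.ofFinite Y
  intro s hs x
  by_cases hx : x ∈ S
  · exact h.1.conj_eq (⟨s, hs⟩ : S) ⟨x, hx⟩
  · have hx' : s * x * s⁻¹ ∉ S := by
      intro h'
      apply hx
      have := S.mul_mem (S.mul_mem (S.inv_mem hs) h') hs
      have e : s⁻¹ * (s * x * s⁻¹) * s = x := by group
      rwa [e] at this
    rw [h.2 x hx, h.2 _ hx']

variable [Fintype Y]

/-- The inertia group as a subgroup of the whole group. -/
theorem map_inert {A S : Subgroup Y} (hn : ∀ s ∈ S, ∀ a ∈ A, s * a * s⁻¹ ∈ A)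
    {c : S →* MulAut A} (hc : ∀ (s : S) (n : A), ((c s n : A) : Y) = s * n * (s : Y)⁻¹)
    (θ : A → ℂ) : (inert c θ).map S.subtype = S ⊓ sx (ext0 θ) := by
  ext y
  constructor
  · rintro ⟨s, hs, rfl⟩
    refine ⟨s.2, fun x => ?_⟩
    by_cases hx : x ∈ A
    · have h1 := hs ⟨x, hx⟩
      rw [ext0_of_mem θ hx, ← h1]
      have h2 : (s : Y) * x * (s : Y)⁻¹ ∈ A := hn s s.2 x hx
      rw [show S.subtype s * x * (S.subtype s)⁻¹ = (s : Y) * x * (s : Y)⁻¹ from rfl,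
        ext0_of_mem θ h2]
      exact congrArg θ (Subtype.ext (hc s ⟨x, hx⟩).symm)
    · have hx' : (s : Y) * x * (s : Y)⁻¹ ∉ A := by
        intro h'
        apply hx
        have h3 := hn (s : Y)⁻¹ (S.inv_mem s.2) _ h'
        have e : (s : Y)⁻¹ * ((s : Y) * x * (s : Y)⁻¹) * (s : Y)⁻¹⁻¹ = x := by group
        rwa [e] at h3
      rw [ext0_of_not_mem θ hx]
      exact ext0_of_not_mem θ hx'
  · rintro ⟨hy, hy'⟩
    refine ⟨⟨y, hy⟩, fun a => ?_, rfl⟩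
    have h1 := hy' a
    rw [ext0_of_mem θ a.2, ext0_of_mem θ (hn y hy a a.2)] at h1
    refine Eq.trans (congrArg θ (Subtype.ext ?_)) h1
    exact hc ⟨y, hy⟩ a

open Classical in
/-- Counting the irreducible characters of `S` by means of the Clifford correspondence. -/
theorem count (hCL : Stmt_CLC) (ℓ : ℕ) [Fact ℓ.Prime] {A S : Subgroup Y} (hAS : A ≤ S)
    (hn : ∀ s ∈ S, ∀ a ∈ A, s * a * s⁻¹ ∈ A) (d : ℕ) (P Q : (Y → ℂ) → Prop)
    (hPQ : ∀ ψ χ, IrrOn S ψ → IrrOn A χ → iS A ψ χ ≠ 0 → (P ψ ↔ Q χ)) :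
    (Nat.card S : ℚ) * Nat.card {ψ : Y → ℂ // ID ℓ S d ψ ∧ P ψ} =
      ∑ χ ∈ irrOn A, if Q χ then
        (Nat.card ↥(S ⊓ sx χ) : ℚ) * NO ℓ (S ⊓ sx χ) A χ d else 0 := by
  obtain ⟨K, _, c, p, hc, hc', -⟩ := exists_act A S hAS hn
  have h1 := hCL A S K ℓ (Subgroup.inclusion hAS) c p hc (fun ψ => P (ext0 ψ)) d
  have h2 : Nat.card {ψ : Y → ℂ // ID ℓ S d ψ ∧ P ψ} =
      Nat.card {χ : S → ℂ // IsIrr χ ∧ HasDefect ℓ χ d ∧ P (ext0 χ)} := by
    refine Nat.card_congr ⟨fun ψ => ⟨fun s => ψ.1 s, ψ.2.1.1.1, ψ.2.1.2, ?_⟩,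
      fun ψ => ⟨ext0 ψ.1, ⟨irrOn_ext0 ψ.2.1, ?_⟩, ψ.2.2.2⟩, ?_, ?_⟩
    · rw [ext0_res ψ.2.1.1.2]
      exact ψ.2.2
    · rw [ext0_coe]
      exact ψ.2.2.1
    · intro ψ
      exact Subtype.ext (ext0_res ψ.2.1.1.2)
    · intro ψ
      exact Subtype.ext (ext0_coe ψ.1)
  rw [h2, h1, irrOn, Finset.sum_image (fun _ _ _ _ h => ext0_inj h)]
  refine Finset.sum_congr rfl fun θ hθ => ?_
  have hθ' : IsIrr θ := mem_irrF.mp hθ
  have hcc := CCOR_thm IND_thm SUMM_thm A S K (Subgroup.inclusion hAS) c p hc θ hθ'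
  have hmap := map_inert hn hc' θ
  -- the inertia group in the whole group
  let e : inert c θ ≃* ↥(S ⊓ sx (ext0 θ)) :=
    ((inert c θ).equivMapOfInjective S.subtype S.subtype_injective).trans
      (MulEquiv.subgroupCongr hmap)
  have he : ∀ x : inert c θ, ((e x : ↥(S ⊓ sx (ext0 θ))) : Y) = ((x : S) : Y) := fun x => rfl
  have hcard : Nat.card (inert c θ) = Nat.card ↥(S ⊓ sx (ext0 θ)) := Nat.card_congr e.toEquiv
  have hA : A ≤ S ⊓ sx (ext0 θ) := le_inf hAS (le_sx (irrOn_ext0 hθ'))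
  -- the condition
  have hP : ∀ ψ : inert c θ → ℂ, IsIrr ψ →
      ip (fun a => ext0 ψ (Subgroup.inclusion hAS a)) θ ≠ 0 →
      (P (ext0 (indc (inert c θ) ψ)) ↔ Q (ext0 θ)) := by
    intro ψ hψ hip
    obtain ⟨i1, i2⟩ := hcc.1 ψ hψ hip
    refine hPQ _ _ (irrOn_ext0 i1) (irrOn_ext0 hθ') ?_
    intro h0
    apply i2
    rw [← h0, iS, ext0_coe]
    congr 1
    funext a
    exact (ext0_of_mem _ (hAS a.2)).symm
  split_ifs with hQ
  · rw [hcard, CQ.NO_eq ℓ _ A hA (ext0 θ) d]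
    congr 2
    have h3 : Nat.card {ψ : inert c θ → ℂ // IsIrr ψ ∧
        ip (fun a => ext0 ψ (Subgroup.inclusion hAS a)) θ ≠ 0 ∧ HasDefect ℓ ψ d ∧
          P (ext0 (indc (inert c θ) ψ))} =
        Nat.card {ψ : inert c θ → ℂ // IsIrr ψ ∧
          (ip (fun a => ext0 ψ (Subgroup.inclusion hAS a)) θ ≠ 0 ∧ HasDefect ℓ ψ d)} := by
      refine Nat.card_congr (Equiv.subtypeEquivRight fun ψ => ?_)
      constructor
      · rintro ⟨a1, a2, a3, -⟩
        exact ⟨a1, a2, a3⟩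
      · rintro ⟨a1, a2, a3⟩
        exact ⟨a1, a2, a3, (hP ψ a1 a2).mpr hQ⟩
    rw [h3]
    refine card_irr_equiv e _ _ ?_
    intro ψ hψ
    have h4 : (fun a : A => ext0 (fun y => ψ (e y)) (Subgroup.inclusion hAS a)) =
        fun a : A => ψ (Subgroup.inclusion hA a) := by
      funext a
      have ha : Subgroup.inclusion hAS a ∈ inert c θ := by
        have hb : (a : Y) ∈ (inert c θ).map S.subtype := by
          rw [hmap]
          exact hA a.2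
        obtain ⟨s, hs, hs'⟩ := hb
        have : s = Subgroup.inclusion hAS a := Subtype.ext hs'
        rw [← this]
        exact hs
      rw [ext0_of_mem _ ha]
      exact congrArg ψ (Subtype.ext rfl)
    rw [h4, ext0_coe]
    exact and_congr Iff.rfl (hasDefect_comp_equiv e)
  · have he0 : IsEmpty {ψ : inert c θ → ℂ // IsIrr ψ ∧
        ip (fun a => ext0 ψ (Subgroup.inclusion hAS a)) θ ≠ 0 ∧ HasDefect ℓ ψ d ∧
          P (ext0 (indc (inert c θ) ψ))} :=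
      ⟨fun ψ => hQ ((hP ψ.1 ψ.2.1 ψ.2.2.1).mp ψ.2.2.2.2)⟩
    have h0 : Nat.card {ψ : inert c θ → ℂ // IsIrr ψ ∧
        ip (fun a => ext0 ψ (Subgroup.inclusion hAS a)) θ ≠ 0 ∧ HasDefect ℓ ψ d ∧
          P (ext0 (indc (inert c θ) ψ))} = 0 := Nat.card_of_isEmpty
    rw [h0, Nat.cast_zero, mul_zero]

/-- The characters under an irreducible character are conjugate. -/
theorem conj_under {A S : Subgroup Y} (hAS : A ≤ S) (hn : ∀ s ∈ S, ∀ a ∈ A, s * a * s⁻¹ ∈ A)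
    {ψ χ χ' : Y → ℂ} (hψ : IrrOn S ψ) (hχ : IrrOn A χ) (hχ' : IrrOn A χ') (h1 : iS A ψ χ ≠ 0)
    (h2 : iS A ψ χ' ≠ 0) : ∃ y ∈ S, χ' = fun z => χ (y * z * y⁻¹) := by
  obtain ⟨K, _, c, p, hc, hc', -⟩ := exists_act A S hAS hn
  obtain ⟨y, hy⟩ := (SUMM_thm A S K (Subgroup.inclusion hAS) c p hc).2.1 (fun a => χ a)
    (fun a => χ' a) (fun s => ψ s) hχ.1 hχ'.1 hψ.1 h1 h2
  refine ⟨y, y.2, funext fun z => ?_⟩
  by_cases hz : z ∈ A
  · rw [← hy ⟨z, hz⟩, hc']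
  · have hz' : (y : Y) * z * (y : Y)⁻¹ ∉ A := by
      intro h'
      apply hz
      have h3 := hn (y : Y)⁻¹ (S.inv_mem y.2) _ h'
      have e : (y : Y)⁻¹ * ((y : Y) * z * (y : Y)⁻¹) * (y : Y)⁻¹⁻¹ = z := by group
      rwa [e] at h3
    rw [hχ'.2 z hz, hχ.2 _ hz']

end One

/-! ### The outer chain -/

/-- The stabilizer of an outer chain. -/
theorem outer (hZ : Stmt_ZST) {G : Type} [Group G] [Fintype G] (ℓ : ℕ) [Fact ℓ.Prime]
    (M : Subgroup G) (hM : M.Normal) (c : Finset (Subgroup G)) (hc : IsCh ℓ ⊥ c)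
    (hcM : ∀ D ∈ c, D ⊓ M = ⊥) :
    IsPGroup ℓ (tp ⊥ c) ∧ tp ⊥ c ⊓ M = ⊥ ∧
      stb c ≤ Subgroup.normalizer (tp ⊥ c : Set G) ∧ stb c ⊓ M = cN M (tp ⊥ c) := by
  let κ : G →* MulAut M := MulAut.conjNormal
  have hcl : ClG M.subtype κ (QuotientGroup.mk' M) := by
    refine ⟨M.subtype_injective, fun y a => MulAut.conjNormal_apply y a, fun y => ?_⟩
    rw [QuotientGroup.mk'_apply, QuotientGroup.eq_one_iff, Subgroup.range_subtype]
  have h := hZ M G (G ⧸ M) ℓ M.subtype κ (QuotientGroup.mk' M) hcl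
    (QuotientGroup.mk'_surjective M) ⊥ (IsPGroup.of_bot) (by rw [bot_inf_eq]) c hc
    (by rw [Subgroup.range_subtype]; exact hcM)
  rw [Subgroup.range_subtype] at h
  obtain ⟨h1, h2, -, -, -, -, h3, h4, -⟩ := h
  refine ⟨h1, h2, h3, ?_⟩
  ext x
  rw [Subgroup.mem_inf, DP.cN, Subgroup.mem_inf, and_comm]
  refine and_congr_right fun hx => ?_
  refine (h4 ⟨x, hx⟩).trans ?_
  rw [Subgroup.mem_centralizer_iff]
  constructor
  · intro h5 r hr
    have h6 := h5 r hr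
    have h7 : r * x * r⁻¹ = x := by
      have := congrArg Subtype.val h6
      exact this
    calc r * x = r * x * r⁻¹ * r := by group
      _ = x * r := by rw [h7]
  · intro h5 r hr
    apply Subtype.ext
    change r * x * r⁻¹ = x
    rw [h5 r hr]
    group

/-- A character over a character over `lam` lies over `lam`. -/
theorem ovK_over {Y G : Type} [Group Y] [Fintype Y] [Group G] [Fintype G] {ℓ : ℕ} {k : Y →* G}
    (hk : FC ℓ k) {lam : k.ker →* ℂˣ} {C S : Subgroup G} {ψ χ : Y → ℂ}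
    (hψ : IrrOn (S.comap k) ψ) (hχ : IrrOn (C.comap k) χ) (hOv : OvK k lam χ)
    (hne : iS (C.comap k) ψ χ ≠ 0) : OvK k lam ψ := by
  have hle := TY0.ker_le k S
  have hcen : k.ker.subgroupOf (S.comap k) ≤ Subgroup.center ↥(S.comap k) := by
    intro z hz
    rw [Subgroup.mem_center_iff]
    intro g
    apply Subtype.ext
    exact Subgroup.mem_center_iff.mp (hk.cen (Subgroup.mem_subgroupOf.mp hz)) g
  obtain ⟨μ, hμ⟩ := BTC.exists_cc hcen hψ.1
  let i : k.ker →* k.ker.subgroupOf (S.comap k) :=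
    { toFun := fun z => ⟨⟨z, hle z.2⟩, Subgroup.mem_subgroupOf.mpr z.2⟩
      map_one' := rfl
      map_mul' := fun _ _ => rfl }
  have hOv' : OvK k (μ.comp i) ψ := by
    intro z y
    by_cases hy : y ∈ S.comap k
    · exact hμ (i z) ⟨y, hy⟩
    · have hzy : (z : Y) * y ∉ S.comap k := fun h' =>
        hy (((S.comap k).mul_mem_cancel_left (hle z.2)).1 h')
      rw [hψ.2 y hy, hψ.2 _ hzy, mul_zero]
  have hOv2 : OvK k (μ.comp i) χ := TY0.ovK_under hk hχ hOv' hne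
  have heq : lam = μ.comp i := by
    ext z
    have h1 := hOv z 1
    have h2 := hOv2 z 1
    rw [h1] at h2
    exact mul_right_cancel₀ (hχ.1.one_ne_zero) h2
  rw [heq]
  exact hOv'

end DZA

open _root_.Pool.Agent.DPT.DZA in
open Classical in
/-- DZA: the contribution of an outer chain. -/
theorem DZA_thm (h1 : Stmt_CLC) (h2 : Stmt_TYP) (h3 : Stmt_DGSB) (h4 : Stmt_DGSC)
    (h5 : Stmt_MLE) (h6 : Stmt_MLT) (h7 : Stmt_DGQ) (h8 : Stmt_ZST) : Stmt_DZA := by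
  intro Y G K _ _ _ _ _ _ 𝔐 ℓ _ hmax hℓ hH k hk lam M₀ hM₀ hMk f hf θ₀ hθ₀ c hc hcM d
  obtain ⟨hQ, hQM, hQn, hSM⟩ := outer h8 ℓ M₀ hM₀ c hc hcM
  set Q : Subgroup G := tp ⊥ c with hQdef
  have hCM : cN M₀ Q ≤ M₀ := inf_le_left
  have hCk : cN M₀ Q ≤ k.range := hCM.trans hMk
  have hRn : ∀ r ∈ Q, ∀ n ∈ M₀, r * n * r⁻¹ ∈ M₀ := fun r _ n hn => hM₀.conj_mem n hn r
  have hMn : ∀ (x n : G), n ∈ M₀ ↔ x * n * x⁻¹ ∈ M₀ := by
    intro x n
    refine ⟨fun h => hM₀.conj_mem n h x, fun h => ?_⟩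
    have e1 := hM₀.conj_mem _ h x⁻¹
    have e2 : x⁻¹ * (x * n * x⁻¹) * x⁻¹⁻¹ = n := by group
    rwa [e2] at e1
  have hSQ : ∀ s ∈ stb c, ∀ r, r ∈ Q ↔ s * r * s⁻¹ ∈ Q := by
    intro s hs r
    exact Subgroup.mem_normalizer_iff.mp (hQn hs) r
  have hCn : ∀ s ∈ stb c, ∀ x, x ∈ cN M₀ Q ↔ s * x * s⁻¹ ∈ cN M₀ Q := fun s hs x =>
    DGQ.cN_conj (hMn s) (hSQ s hs) x
  have hCS : cN M₀ Q ≤ stb c := hSM ▸ inf_le_left
  have hCS' : (cN M₀ Q).comap k ≤ (stb c).comap k := Subgroup.comap_mono hCS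
  have hCn' : ∀ s ∈ (stb c).comap k, ∀ a ∈ (cN M₀ Q).comap k,
      s * a * s⁻¹ ∈ (cN M₀ Q).comap k := by
    intro s hs a ha
    rw [Subgroup.mem_comap] at hs ha ⊢
    rw [map_mul, map_mul, map_inv]
    exact (hCn _ hs _).mp ha
  obtain ⟨hE, -⟩ := h5 Y G 𝔐 ℓ hmax hℓ k hk lam (cN M₀ Q) hCk
  obtain ⟨hB1, hB2, hB3, hB4⟩ := h3 G 𝔐 ℓ hmax hℓ M₀ Q hQ hRn
  -- the orbit
  have horb : ∀ ξ : G → ℂ, (∃ g, ∀ x, ξ x = θ₀ (g * x * g⁻¹)) → ID ℓ M₀ 0 ξ := by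
    rintro ξ ⟨g, hg⟩
    have e1 : ξ = fun x => θ₀ (g * x * g⁻¹) := funext hg
    rw [e1]
    exact (h4 G 𝔐 ℓ 0 g).1 M₀ M₀ θ₀ (hMn g) hθ₀
  -- conjugation by elements of the stabilizer
  have hcj1 : ∀ s ∈ stb c, ∀ θ', ID ℓ (cN M₀ Q) 0 θ' →
      ID ℓ (cN M₀ Q) 0 (fun x => θ' (s * x * s⁻¹)) := fun s hs θ' h =>
    (h4 G 𝔐 ℓ 0 s).1 _ _ θ' (hCn s hs) h
  have hcj2 : ∀ s ∈ stb c, ∀ θ' ξ, DGs 𝔐 M₀ Q θ' ξ →
      DGs 𝔐 M₀ Q (fun x => θ' (s * x * s⁻¹)) (fun x => ξ (s * x * s⁻¹)) := fun s hs θ' ξ h =>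
    ((h4 G 𝔐 ℓ 0 s).2 M₀ M₀ Q Q θ' ξ (hMn s) (hSQ s hs) h).2
  have hcj3 : ∀ y ∈ (stb c).comap k, ∀ θ' χ', ML 𝔐 k lam (cN M₀ Q) θ' χ' →
      ML 𝔐 k lam (cN M₀ Q) (fun g => θ' (k y * g * (k y)⁻¹)) (fun z => χ' (y * z * y⁻¹)) :=
    fun y hy θ' χ' h => h6 Y G 𝔐 ℓ k hk lam _ θ' χ' h y (hCn (k y) hy)
  -- the relation
  let R : (Y → ℂ) → (G → ℂ) → Prop := fun χ' ξ =>
    ∃ θ', ID ℓ (cN M₀ Q) 0 θ' ∧ DGs 𝔐 M₀ Q θ' ξ ∧ ML 𝔐 k lam (cN M₀ Q) θ' χ'
  let orb : Finset (G → ℂ) := (irrOn M₀).filter (fun ξ => ∃ g, ∀ x, ξ x = θ₀ (g * x * g⁻¹))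
  have horb' : ∀ ξ, ξ ∈ orb ↔ ∃ g, ∀ x, ξ x = θ₀ (g * x * g⁻¹) := by
    intro ξ
    rw [Finset.mem_filter, DZA.mem_irrOn]
    exact ⟨fun h => h.2, fun h => ⟨(horb ξ h).1, h⟩⟩
  let T : (G → ℂ) → Subgroup G := fun ξ => stb c ⊓ k.range ⊓ sx ξ
  let hh : (G → ℂ) → ℚ := fun ξ => (Nat.card ↥(T ξ) : ℚ) * NM 𝔐 ℓ d k lam M₀ ξ (T ξ ⊔ M₀)
  have hR1 : ∀ χ' ξ₁ ξ₂, ξ₁ ∈ orb → ξ₂ ∈ orb → R χ' ξ₁ → R χ' ξ₂ → ξ₁ = ξ₂ := by
    rintro χ' ξ₁ ξ₂ hξ₁ hξ₂ ⟨θ₁, a1, a2, a3⟩ ⟨θ₂, b1, b2, b3⟩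
    have e1 : θ₁ = θ₂ := (hE θ₁ a1).2.2.2 χ' θ₂ b1 a3 b3
    subst e1
    exact hB3 θ₁ ξ₁ ξ₂ a1 (horb _ ((horb' _).mp hξ₁)) (horb _ ((horb' _).mp hξ₂)) a2 b2
  have hR2 : ∀ χ₁ χ₂ ξ, ξ ∈ orb → R χ₁ ξ → R χ₂ ξ → χ₁ = χ₂ := by
    rintro χ₁ χ₂ ξ hξ ⟨θ₁, a1, a2, a3⟩ ⟨θ₂, b1, b2, b3⟩
    have e1 : θ₁ = θ₂ := hB4 θ₁ θ₂ ξ a1 b1 (horb _ ((horb' _).mp hξ)) a2 b2
    subst e1
    exact (hE θ₁ a1).2.1 χ₁ χ₂ a3 b3
  -- the condition
  have hPQ : ∀ ψ χ', IrrOn ((stb c).comap k) ψ → IrrOn ((cN M₀ Q).comap k) χ' →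
      iS ((cN M₀ Q).comap k) ψ χ' ≠ 0 →
      ((OvK k lam ψ ∧ TyR 𝔐 ℓ k M₀ (stb c) ψ θ₀) ↔ ∃ ξ ∈ orb, R χ' ξ) := by
    intro ψ χ' hψ hχ' hi
    constructor
    · rintro ⟨hOv, hT⟩
      obtain ⟨θ₁, ξ₁, χ₁, a1, a2, a3, ⟨g, hg⟩, a5, a6⟩ := (h2 Y G 𝔐 ℓ hmax hℓ k hk lam M₀ hM₀ hMk
        θ₀ hθ₀ Q (stb c) hQ hSM ψ hψ hOv).mp hT
      obtain ⟨y, hy, hy'⟩ := conj_under hCS' hCn' hψ a5.1 hχ' a6 hi
      refine ⟨fun x => ξ₁ (k y * x * (k y)⁻¹), (horb' _).mpr ⟨g * k y, fun x => ?_⟩,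
        fun x => θ₁ (k y * x * (k y)⁻¹), hcj1 _ hy _ a1, hcj2 _ hy _ _ a3, ?_⟩
      · rw [hg]
        congr 1
        group
      · rw [hy']
        exact hcj3 y hy θ₁ χ₁ a5
    · rintro ⟨ξ, hξ, θ', a1, a2, a3⟩
      have hOv : OvK k lam ψ := ovK_over hk hψ hχ' a3.2.1 hi
      refine ⟨hOv, (h2 Y G 𝔐 ℓ hmax hℓ k hk lam M₀ hM₀ hMk
        θ₀ hθ₀ Q (stb c) hQ hSM ψ hψ hOv).mpr ⟨θ', ξ, χ', a1, ?_, a2, ?_, a3, hi⟩⟩
      · exact horb _ ((horb' _).mp hξ)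
      · exact (horb' _).mp hξ
  obtain ⟨QQ, hQQ⟩ : ∃ QQ : (Y → ℂ) → Prop, ∀ χ', QQ χ' ↔ ∃ ξ ∈ orb, R χ' ξ :=
    ⟨_, fun _ => Iff.rfl⟩
  have hcount := count h1 ℓ hCS' hCn' d (fun ψ => OvK k lam ψ ∧ TyR 𝔐 ℓ k M₀ (stb c) ψ θ₀)
    QQ (fun ψ χ' a b e => (hPQ ψ χ' a b e).trans (hQQ χ').symm)
  -- the inertia groups
  have hin : ∀ χ' ξ, ξ ∈ orb → R χ' ξ → (stb c).comap k ⊓ sx χ' = (T ξ).comap k := by
    rintro χ' ξ hξ ⟨θ', a1, a2, a3⟩
    have hξ' := horb _ ((horb' _).mp hξ)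
    ext y
    constructor
    · rintro ⟨hy, hy'⟩
      refine Subgroup.mem_comap.mpr ⟨⟨hy, ⟨y, rfl⟩⟩, ?_⟩
      have b1 := hcj3 y hy θ' χ' a3
      have b2 : (fun z => χ' (y * z * y⁻¹)) = χ' := funext fun z => hy' z
      rw [b2] at b1
      have b3 : θ' = fun g => θ' (k y * g * (k y)⁻¹) :=
        (hE θ' a1).2.2.2 χ' _ (hcj1 _ hy _ a1) a3 b1
      have b4 := hcj2 _ hy _ _ a2
      rw [← b3] at b4
      have b5 : (fun x => ξ (k y * x * (k y)⁻¹)) = ξ := by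
        refine hB3 θ' _ ξ a1 ?_ hξ' b4 a2
        exact (h4 G 𝔐 ℓ 0 (k y)).1 M₀ M₀ ξ (hMn (k y)) hξ'
      intro x
      exact congrFun b5 x
    · intro hy
      obtain ⟨⟨hy1, -⟩, hy2⟩ := Subgroup.mem_comap.mp hy
      refine ⟨hy1, ?_⟩
      have b4 := hcj2 _ hy1 _ _ a2
      have b5 : (fun x => ξ (k y * x * (k y)⁻¹)) = ξ := funext fun x => hy2 x
      rw [b5] at b4
      have b6 : (fun g => θ' (k y * g * (k y)⁻¹)) = θ' :=
        hB4 _ _ ξ (hcj1 _ hy1 _ a1) a1 hξ' b4 a2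
      have b7 := hcj3 y hy1 θ' χ' a3
      rw [b6] at b7
      have b8 := (hE θ' a1).2.1 _ _ b7 a3
      intro x
      exact congrFun b8 x
  -- the number of characters
  have hnum : ∀ χ' ξ, ξ ∈ orb → R χ' ξ →
      NO ℓ ((T ξ).comap k) ((cN M₀ Q).comap k) χ' d = NM 𝔐 ℓ d k lam M₀ ξ (T ξ ⊔ M₀) := by
    rintro χ' ξ hξ ⟨θ', a1, a2, a3⟩
    have hξ' := horb _ ((horb' _).mp hξ)
    obtain ⟨⟨χ, hχ⟩, huniq, -, -⟩ := (h5 Y G 𝔐 ℓ hmax hℓ k hk lam M₀ hMk).1 ξ hξ'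
    have hT1 : T ξ ≤ stb c := inf_le_left.trans inf_le_left
    have hT2 : T ξ ≤ k.range := inf_le_left.trans inf_le_right
    have hT3 : T ξ ≤ sx ξ := inf_le_right
    have b1 := h7 Y G K 𝔐 ℓ hmax hℓ hH k hk lam M₀ Q (T ξ) hMk f hf hQ hQM hRn hT2
      (fun s hs r hr => (hSQ s (hT1 hs) r).mp hr)
      (le_inf (le_inf hCS hCk) (hCM.trans (le_sx hξ'.1))) ξ θ' hξ' a1 a2 hT3 χ χ' hχ a3 d
    rw [← b1]
    unfold NO NM
    refine Nat.card_congr (Equiv.subtypeEquivRight fun ψ => ?_)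
    refine and_congr_right fun _ => ⟨fun h => ⟨χ, hχ, h⟩, ?_⟩
    rintro ⟨χ₁, c1, c2⟩
    rwa [huniq _ _ c1 hχ] at c2
  -- the terms
  have hZ0 : (Nat.card k.ker : ℚ) ≠ 0 := by
    have : Nat.card k.ker ≠ 0 := Nat.card_pos.ne'
    exact_mod_cast this
  have hcardT : ∀ S : Subgroup G, S ≤ k.range →
      (Nat.card ↥(S.comap k) : ℚ) = Nat.card k.ker * Nat.card S := by
    intro S hS
    rw [DEFR.card_comap k S hS, Nat.cast_mul]
  have hcardS : (Nat.card ↥((stb c).comap k) : ℚ) =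
      Nat.card k.ker * Nat.card ↥(stb c ⊓ k.range) := by
    have e1 : (stb c).comap k = (stb c ⊓ k.range).comap k := by
      ext y
      rw [Subgroup.mem_comap, Subgroup.mem_comap, Subgroup.mem_inf]
      exact ⟨fun h => ⟨h, ⟨y, rfl⟩⟩, fun h => h.1⟩
    rw [e1]
    exact hcardT _ inf_le_right
  have hterm : ∀ χ' ∈ irrOn ((cN M₀ Q).comap k), (if QQ χ' then
      (Nat.card ↥((stb c).comap k ⊓ sx χ') : ℚ) *
        NO ℓ ((stb c).comap k ⊓ sx χ') ((cN M₀ Q).comap k) χ' d else 0) =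
      ∑ ξ ∈ orb, if R χ' ξ then (Nat.card k.ker : ℚ) * hh ξ else 0 := by
    intro χ' _
    split_ifs with hex
    · obtain ⟨ξ, hξ, hRξ⟩ := (hQQ χ').mp hex
      rw [Finset.sum_eq_single ξ]
      · rw [if_pos hRξ, hin χ' ξ hξ hRξ, hnum χ' ξ hξ hRξ,
          hcardT (T ξ) (inf_le_left.trans inf_le_right), mul_assoc]
      · intro ξ₂ hξ₂ hne
        rw [if_neg]
        intro hR
        exact hne (hR1 χ' ξ₂ ξ hξ₂ hξ hR hRξ)
      · intro hn
        exact absurd hξ hn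
    · rw [Finset.sum_eq_zero]
      intro ξ hξ
      rw [if_neg]
      intro hR
      exact hex ((hQQ χ').mpr ⟨ξ, hξ, hR⟩)
  have hterm2 : ∀ ξ ∈ orb, (∑ χ' ∈ irrOn ((cN M₀ Q).comap k),
      if R χ' ξ then (Nat.card k.ker : ℚ) * hh ξ else 0) =
      (Nat.card k.ker : ℚ) *
        if ∃ θ', ID ℓ (cN M₀ Q) 0 θ' ∧ DGs 𝔐 M₀ Q θ' ξ then hh ξ else 0 := by
    intro ξ hξ
    split_ifs with hex
    · obtain ⟨θ', a1, a2⟩ := hex
      obtain ⟨⟨χ', hχ'⟩, -, -, -⟩ := hE θ' a1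
      have hRχ : R χ' ξ := ⟨θ', a1, a2, hχ'⟩
      rw [Finset.sum_eq_single χ']
      · rw [if_pos hRχ]
      · intro χ₂ _ hne
        rw [if_neg]
        intro hR
        exact hne (hR2 χ₂ χ' ξ hξ hR hRχ)
      · intro hn
        exact absurd (DZA.mem_irrOn.mpr hχ'.1) hn
    · rw [mul_zero]
      refine Finset.sum_eq_zero fun χ' _ => ?_
      rw [if_neg]
      rintro ⟨θ', a1, a2, -⟩
      exact hex ⟨θ', a1, a2⟩
  rw [Finset.sum_congr rfl hterm, Finset.sum_comm, Finset.sum_congr rfl hterm2,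
    ← Finset.mul_sum, hcardS, mul_assoc] at hcount
  exact mul_left_cancel₀ hZ0 hcount

end Pool.Agent.DPT


end

section

/-!
# DZS: the chain sum for the type of a character of defect zero
-/

set_option autoImplicit false

namespace Pool.Agent.DPT

open Pool.Agent.DP Pool.Agent.DPC Pool.Agent.DPM Pool.Agent.DPN Pool.Agent.Lib_helper13
open Representation

namespace DZS

/-- A sum with a condition in the summand. -/
theorem sum_aux {α : Type} (A B : Finset α) (Q : α → Prop) [DecidablePred Q] (f g : α → ℚ)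
    (h : ∀ c, c ∈ B ↔ c ∈ A ∧ Q c) :
    ∑ c ∈ A, f c * (if Q c then g c else 0) = ∑ c ∈ B, f c * g c := by
  classical
  have hB : B = A.filter Q := by
    ext c
    rw [h, Finset.mem_filter]
  rw [hB, Finset.sum_filter]
  refine Finset.sum_congr rfl fun c _ => ?_
  rw [mul_ite, mul_zero]

/-- The degree of a character of a normal subgroup divides the degrees of the characters over
it. -/
theorem deg_dvd {A Y K : Type} [Group A] [Fintype A] [Group Y] [Fintype Y] [Group K] {j : A →* Y}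
    {c : Y →* MulAut A} {p : Y →* K} (hc : ClG j c p) {χ : Y → ℂ} {θ : A → ℂ} (hχ : IsIrr χ)
    (hθ : IsIrr θ) (h : ip (resj j χ) θ ≠ 0) {n m : ℕ} (hn : χ 1 = n) (hm : θ 1 = m) :
    m ∣ n := by
  classical
  have h1 : ∀ η : A → ℂ, ∃ a : ℕ, IsIrr η → ip (resj j χ) η * η 1 = (m * a : ℕ) := by
    intro η
    by_cases hη : IsIrr η
    · by_cases h0 : ip (resj j χ) η = 0
      · exact ⟨0, fun _ => by rw [h0]; simp⟩
      · obtain ⟨y, hy⟩ := (SUMM_thm A Y K j c p hc).2.1 θ η χ hθ hη hχ h h0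
        obtain ⟨a, ha⟩ := (hχ.resj j).exists_ip hη.isChr
        refine ⟨a, fun _ => ?_⟩
        have h2 := hy 1
        rw [map_one, hm] at h2
        rw [ha, ← h2]
        push_cast
        ring
    · exact ⟨0, fun h => absurd h hη⟩
  choose a ha using h1
  have h2 := congrFun (class_fn_expand (resj j χ) (fun g x => resj_class hχ g x)) 1
  have h3 : resj j χ 1 = (n : ℂ) := by
    rw [← hn]
    change χ (j 1) = χ 1
    rw [map_one]
  rw [h3] at h2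
  have h4 : ∑ η ∈ irrF A, ip (resj j χ) η * η 1 = ((m * ∑ η ∈ irrF A, a η : ℕ) : ℂ) := by
    rw [Finset.mul_sum, Nat.cast_sum]
    exact Finset.sum_congr rfl fun η hη => ha η (mem_irrF.mp hη)
  have h5 : (n : ℂ) = ((m * ∑ η ∈ irrF A, a η : ℕ) : ℂ) := h2.trans h4
  exact ⟨_, Nat.cast_injective h5⟩

/-- The index is prime to `ℓ` if the quotient has no element of order `ℓ`. -/
theorem val_eq {G : Type} [Group G] [Finite G] (ℓ : ℕ) [hp : Fact ℓ.Prime] (N T : Subgroup G)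
    (hN : N.Normal) (hNT : N ≤ T) (h : ∀ x ∈ T, x ^ ℓ ∈ N → x ∈ N) :
    padicValNat ℓ (Nat.card T) = padicValNat ℓ (Nat.card N) := by
  have hn : (N.subgroupOf T).Normal := Subgroup.normal_subgroupOf
  have h1 := Subgroup.card_mul_index (N.subgroupOf T)
  have h2 : Nat.card (N.subgroupOf T) = Nat.card N :=
    Nat.card_congr (Subgroup.subgroupOfEquivOfLe hNT).toEquiv
  have h3 : ¬ ℓ ∣ (N.subgroupOf T).index := by
    intro h4
    rw [Subgroup.index] at h4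
    obtain ⟨x, hx⟩ := exists_prime_orderOf_dvd_card' ℓ h4
    obtain ⟨t, rfl⟩ := QuotientGroup.mk_surjective x
    have h5 : (t : T ⧸ N.subgroupOf T) ^ ℓ = 1 := by
      rw [← hx]
      exact pow_orderOf_eq_one _
    rw [← QuotientGroup.mk_pow, QuotientGroup.eq_one_iff, Subgroup.mem_subgroupOf] at h5
    have h6 := h t t.2 h5
    have h7 : (t : T ⧸ N.subgroupOf T) = 1 := by
      rw [QuotientGroup.eq_one_iff, Subgroup.mem_subgroupOf]
      exact h6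
    rw [h7, orderOf_one] at hx
    exact hp.out.one_lt.ne hx
  rw [← h1, h2, padicValNat.mul Nat.card_pos.ne' (Subgroup.index_ne_zero_of_finite),
    padicValNat.eq_zero_of_not_dvd h3, add_zero]

/-- The sums over the inverse images. -/
theorem ip_sub {Y : Type} [Group Y] [Fintype Y] (N T : Subgroup Y) (hNT : N ≤ T) (f g : Y → ℂ) :
    iS N f g = ip (fun a : N.subgroupOf T => f ((a : T) : Y))
      (fun a : N.subgroupOf T => g ((a : T) : Y)) := by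
  rw [iS, ip, ip]
  congr 1
  · symm
    exact Fintype.sum_equiv (Subgroup.subgroupOfEquivOfLe hNT).toEquiv _ _ fun a => rfl
  · congr 1
    exact (Nat.card_congr (Subgroup.subgroupOfEquivOfLe hNT).toEquiv).symm

section Main

variable {Y G : Type} [Group Y] [Fintype Y] [Group G] [Fintype G]
  {𝔐 : Ideal (integralClosure ℤ ℂ)} {ℓ : ℕ} [hp : Fact ℓ.Prime]

/-- The characters which have the type of `θ₀` do not exist if there is a normal `ℓ`-subgroup. -/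
theorem WR_zero (hTYI : Stmt_TYI) (h𝔐 : 𝔐.IsMaximal) (hℓ : (ℓ : integralClosure ℤ ℂ) ∈ 𝔐)
    {k : Y →* G} (hk : FC ℓ k) (lam : k.ker →* ℂˣ) {M₀ : Subgroup G} (hn : M₀.Normal)
    (hM₀ : M₀ ≤ k.range) {θ₀ : G → ℂ} (hθ₀ : ID ℓ M₀ 0 θ₀) (d : ℕ) (S D : Subgroup G)
    (hD : IsPGroup ℓ D) (hne : D ≠ ⊥) (hDS : D ≤ S ⊓ M₀)
    (hnD : ∀ s ∈ S, ∀ x ∈ D, s * x * s⁻¹ ∈ D) : WR 𝔐 ℓ d k lam M₀ θ₀ S = 0 := by
  have h1 : IsEmpty {ψ : Y → ℂ // ID ℓ (S.comap k) d ψ ∧ OvK k lam ψ ∧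
      TyR 𝔐 ℓ k M₀ S ψ θ₀} := by
    refine ⟨fun ψ => ?_⟩
    obtain ⟨ψ, h1, h2, h3⟩ := ψ
    exact hTYI Y G 𝔐 ℓ h𝔐 hℓ k hk lam M₀ hn hM₀ θ₀ hθ₀ S D hD hne hDS hnD ψ h1.1 h2 h3
  rw [WR, Nat.card_eq_zero.mpr (Or.inl h1), Nat.cast_zero, mul_zero]

/-- The inner sum. -/
theorem innerS_eq (hTYI : Stmt_TYI) (h𝔐 : 𝔐.IsMaximal) (hℓ : (ℓ : integralClosure ℤ ℂ) ∈ 𝔐)
    {k : Y →* G} (hk : FC ℓ k) (lam : k.ker →* ℂˣ) {M₀ : Subgroup G} (hn : M₀.Normal)
    (hM₀ : M₀ ≤ k.range) {θ₀ : G → ℂ} (hθ₀ : ID ℓ M₀ 0 θ₀) (d : ℕ) (c : Finset (Subgroup G)) :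
    innerS ℓ ⊥ M₀ (WR 𝔐 ℓ d k lam M₀ θ₀) c = WR 𝔐 ℓ d k lam M₀ θ₀ (stb c) := by
  classical
  rw [innerS, Finset.sum_eq_single ∅]
  · have h1 : mapCh (cN M₀ (tp ⊥ c)).subtype ∅ = ∅ := by
      rw [mapCh, Finset.image_empty]
    rw [h1, stb_empty, inf_top_eq, Finset.card_empty, pow_zero, one_mul]
  · intro τ hτ hne
    obtain ⟨T, hT, hbot⟩ := (mem_Ch.mp hτ).exists_bot (Finset.nonempty_iff_ne_empty.mpr hne)
    obtain ⟨hT1, hT2⟩ := (mem_Ch.mp hτ).1 T hT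
    have hTm : T.map (cN M₀ (tp ⊥ c)).subtype ∈ mapCh (cN M₀ (tp ⊥ c)).subtype τ :=
      mem_mapCh.mpr ⟨T, hT, rfl⟩
    have hle : T.map (cN M₀ (tp ⊥ c)).subtype ≤ cN M₀ (tp ⊥ c) := by
      rintro _ ⟨x, -, rfl⟩
      exact x.2
    have h1 : WR 𝔐 ℓ d k lam M₀ θ₀
        (stb c ⊓ stb (mapCh (cN M₀ (tp ⊥ c)).subtype τ)) = 0 := by
      apply WR_zero hTYI h𝔐 hℓ hk lam hn hM₀ hθ₀ d _ (T.map (cN M₀ (tp ⊥ c)).subtype)
      · exact hT1.map _
      · intro h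
        rw [Subgroup.map_eq_bot_iff_of_injective _ (cN M₀ (tp ⊥ c)).subtype_injective] at h
        exact hT2.ne h.symm
      · apply le_inf (le_inf _ _) (hle.trans inf_le_left)
        · intro x hx
          rw [mem_stb']
          intro D hD y
          have h2 := SPLIT.comm_of_le hle
          have h3 : D ≤ tp ⊥ c := SPLIT.le_tp hD
          constructor
          · intro hy
            rw [← h2 y (h3 hy) x hx, mul_inv_cancel_right]
            exact hy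
          · intro hy
            have h4 := h2 _ (h3 hy) x hx
            have h5 : x * y = x * (x * y * x⁻¹) := by
              rw [← h4, inv_mul_cancel_right]
            rw [mul_left_cancel h5]
            exact hy
        · intro x hx
          rw [mem_stb']
          intro D hD y
          obtain ⟨D', hD', rfl⟩ := mem_mapCh.mp hD
          have hx' : x ∈ D'.map (cN M₀ (tp ⊥ c)).subtype :=
            Subgroup.map_mono (hbot D' hD') hx
          constructor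
          · intro hy
            exact mul_mem (mul_mem hx' hy) (inv_mem hx')
          · intro hy
            have h2 := mul_mem (mul_mem (inv_mem hx') hy) hx'
            have h3 : x⁻¹ * (x * y * x⁻¹) * x = y := by group
            rwa [h3] at h2
      · intro s hs x hx
        exact (mem_stb'.mp (Subgroup.mem_inf.mp hs).2 _ hTm x).mp hx
    rw [h1, mul_zero]
  · intro h
    exact absurd (mem_Ch.mpr (isCh_empty ℓ _)) h

/-- The characters over a character of a normal subgroup of index prime to `ℓ`. -/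
theorem NM_zero (hDEFA : Stmt_DEFA) (hMLE : Stmt_MLE) (h𝔐 : 𝔐.IsMaximal)
    (hℓ : (ℓ : integralClosure ℤ ℂ) ∈ 𝔐) {k : Y →* G} (hk : FC ℓ k) (lam : k.ker →* ℂˣ)
    {M₀ : Subgroup G} (hn : M₀.Normal) (hM₀ : M₀ ≤ k.range) {ξ : G → ℂ} (hξ : ID ℓ M₀ 0 ξ)
    (T : Subgroup G) (hT : M₀ ≤ T) (hTk : T ≤ k.range) (hT1 : ∀ x ∈ T, x ^ ℓ ∈ M₀ → x ∈ M₀)
    (d : ℕ) (hd : d ≠ padicValNat ℓ (Nat.card k.ker)) : NM 𝔐 ℓ d k lam M₀ ξ T = 0 := by
  classical
  have h1 : IsEmpty {ψ : Y → ℂ // ID ℓ (T.comap k) d ψ ∧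
      ∃ χ, ML 𝔐 k lam M₀ ξ χ ∧ iS (M₀.comap k) ψ χ ≠ 0} := by
    refine ⟨fun ψ => ?_⟩
    obtain ⟨ψ, ⟨hψ1, hψ2⟩, χ, hχ, hip⟩ := ψ
    obtain ⟨hχ1, hχ2⟩ := ((hMLE Y G 𝔐 ℓ h𝔐 hℓ k hk lam M₀ hM₀).1 ξ hξ).2.2.1 χ hχ
    have hle : M₀.comap k ≤ T.comap k := Subgroup.comap_mono hT
    have hnk : (M₀.comap k).Normal := hn.comap k
    have hn1 : ((M₀.comap k).subgroupOf (T.comap k)).Normal := Subgroup.normal_subgroupOf
    let _ : Fintype ↥(T.comap k) := Fintype.ofFinite _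
    let _ : Fintype ↥((M₀.comap k).subgroupOf (T.comap k)) := Fintype.ofFinite _
    have hcl : ClG ((M₀.comap k).subgroupOf (T.comap k)).subtype
        (MulAut.conjNormal : ↥(T.comap k) →* MulAut ↥((M₀.comap k).subgroupOf (T.comap k)))
        (QuotientGroup.mk' ((M₀.comap k).subgroupOf (T.comap k))) := by
      refine ⟨Subgroup.subtype_injective _, fun y a => MulAut.conjNormal_apply y a, ?_⟩
      intro y
      rw [QuotientGroup.mk'_apply, QuotientGroup.eq_one_iff, Subgroup.range_subtype]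
    have hχA : IsIrr (fun a : (M₀.comap k).subgroupOf (T.comap k) => χ ((a : T.comap k) : Y)) :=
      hχ1.1.comp_mulEquiv (Subgroup.subgroupOfEquivOfLe hle)
    have hip' : ip (resj ((M₀.comap k).subgroupOf (T.comap k)).subtype
        (fun y : T.comap k => ψ y))
        (fun a : (M₀.comap k).subgroupOf (T.comap k) => χ ((a : T.comap k) : Y)) ≠ 0 := by
      rw [ip_sub _ _ hle] at hip
      exact hip
    have hdA : HasDefect ℓ (fun a : (M₀.comap k).subgroupOf (T.comap k) =>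
        χ ((a : T.comap k) : Y)) (padicValNat ℓ (Nat.card k.ker)) :=
      (hasDefect_comp_equiv (Subgroup.subgroupOfEquivOfLe hle)
        (ψ := fun y : M₀.comap k => χ y)).mpr hχ2
    have h2 := hDEFA _ _ _ ℓ _ _ _ hcl _ _ hψ1.1 hχA hip' _ _ hψ2 hdA
    obtain ⟨n, hn2, hn3⟩ := hψ2
    obtain ⟨m, hm2, hm3⟩ := hdA
    have h3 := deg_dvd hcl hψ1.1 hχA hip' hn2 hm2
    have hn0 : n ≠ 0 := by
      rintro rfl
      apply hψ1.1.one_ne_zero
      exact hn2.trans Nat.cast_zero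
    have h4 : padicValNat ℓ m ≤ padicValNat ℓ n := padicValNat_dvd_iff_le hn0 |>.mp
      (dvd_trans pow_padicValNat_dvd h3)
    have h5 : Nat.card ((M₀.comap k).subgroupOf (T.comap k)) = Nat.card (M₀.comap k) :=
      Nat.card_congr (Subgroup.subgroupOfEquivOfLe hle).toEquiv
    rw [h5, DEFR.card_comap k M₀ hM₀, padicValNat.mul Nat.card_pos.ne' Nat.card_pos.ne'] at hm3
    rw [DEFR.card_comap k T hTk, padicValNat.mul Nat.card_pos.ne' Nat.card_pos.ne',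
      val_eq ℓ M₀ T hn hT hT1] at hn3
    apply hd
    omega
  exact Nat.card_eq_zero.mpr (Or.inl h1)

omit hp in
/-- The conjugates of a character of defect zero. -/
theorem ID_conj {M₀ : Subgroup G} {θ₀ ξ : G → ℂ} (hθ₀ : ID ℓ M₀ 0 θ₀) (hξ : IrrOn M₀ ξ)
    (h : ∃ g, ∀ x, ξ x = θ₀ (g * x * g⁻¹)) : ID ℓ M₀ 0 ξ := by
  obtain ⟨g, hg⟩ := h
  obtain ⟨n, hn, hn2⟩ := hθ₀.2
  refine ⟨hξ, n, ?_, hn2⟩
  change ξ 1 = n
  rw [hg, mul_one, mul_inv_cancel]
  exact hn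

omit [Fintype G] in
/-- The stabilizer contains the group. -/
theorem le_sx {M₀ : Subgroup G} {ξ : G → ℂ} (hξ : IrrOn M₀ ξ) : M₀ ≤ sx ξ := by
  intro g hg
  rw [mem_sx]
  intro x
  by_cases hx : x ∈ M₀
  · have h1 := hξ.1.conj_eq ⟨g, hg⟩ ⟨x, hx⟩
    exact h1
  · rw [hξ.2 x hx]
    apply hξ.2
    intro h1
    apply hx
    have h2 := mul_mem (mul_mem (inv_mem hg) h1) hg
    have h3 : g⁻¹ * (g * x * g⁻¹) * g = x := by group
    rwa [h3] at h2

end Main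

end DZS

open _root_.Pool.Agent.DPT.DZS

theorem DZS_thm (h1 : Stmt_SPLM) (h2 : Stmt_TYI) (h3 : Stmt_DZA) (h4 : Stmt_DZB)
    (h5 : Stmt_DGSB) (h6 : Stmt_DEFA) (h7 : Stmt_MLE) : Stmt_DZS := by
  classical
  intro Y G K _ _ _ _ _ _ 𝔐 ℓ hp h𝔐 hℓ hK k hk lam M₀ M hnM₀ hnM hMM hM₀ f hf θ₀ hθ₀ d halt
  rw [h1 G ℓ M₀ M hnM₀ hnM hMM (WR 𝔐 ℓ d k lam M₀ θ₀)]
  have e1 : ∀ c ∈ (OutC ℓ (⊥ : Subgroup G) M₀).filter (fun c => ∀ D ∈ c, D ≤ M),
      (-1 : ℚ) ^ c.card * innerS ℓ ⊥ M₀ (WR 𝔐 ℓ d k lam M₀ θ₀) c =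
      ∑ ξ ∈ (irrOn M₀).filter (fun ξ => ∃ g, ∀ x, ξ x = θ₀ (g * x * g⁻¹)),
        (-1 : ℚ) ^ c.card * (if ∃ θ', ID ℓ (cN M₀ (tp ⊥ c)) 0 θ' ∧ DGs 𝔐 M₀ (tp ⊥ c) θ' ξ then
          (Nat.card ↥(stb c ⊓ k.range ⊓ sx ξ) : ℚ) *
            NM 𝔐 ℓ d k lam M₀ ξ (stb c ⊓ k.range ⊓ sx ξ ⊔ M₀)
        else 0) := by
    intro c hc
    rw [Finset.mem_filter, OutC, Finset.mem_filter, mem_Ch] at hc
    rw [innerS_eq h2 h𝔐 hℓ hk lam hnM₀ hM₀ hθ₀ d c,
      h3 Y G K 𝔐 ℓ h𝔐 hℓ hK k hk lam M₀ hnM₀ hM₀ f hf θ₀ hθ₀ c hc.1.1 hc.1.2 d, Finset.mul_sum]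
  rw [Finset.sum_congr rfl e1, Finset.sum_comm]
  apply Finset.sum_eq_zero
  intro ξ hξ
  rw [Finset.mem_filter, FIX.mem_irrOn] at hξ
  obtain ⟨hξ1, hξ2⟩ := hξ
  have hξ0 : ID ℓ M₀ 0 ξ := ID_conj hθ₀ hξ1 hξ2
  have hsx : M₀ ≤ sx ξ := le_sx hξ1
  -- the outer chains
  have hout : ∀ c ∈ OutC ℓ (⊥ : Subgroup G) M₀,
      (∃ θ', ID ℓ (cN M₀ (tp ⊥ c)) 0 θ' ∧ DGs 𝔐 M₀ (tp ⊥ c) θ' ξ) → ∀ D ∈ c, D ≤ sx ξ := by
    intro c hc hG D hD
    rw [OutC, Finset.mem_filter, mem_Ch] at hc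
    obtain ⟨θ', ht1, ht2⟩ := hG
    have hpg : IsPGroup ℓ (tp ⊥ c) := SPLIT.tp_isPGroup IsPGroup.of_bot hc.1
    have h8 := (h5 G 𝔐 ℓ h𝔐 hℓ M₀ (tp ⊥ c) hpg
      (fun r _ n hn => hnM₀.conj_mem n hn r)).2.1 θ' ξ ht1 hξ0 ht2
    exact (SPLIT.le_tp hD).trans h8.1
  rw [sum_aux _ ((OutC ℓ (⊥ : Subgroup G) M₀).filter (fun c => (∀ D ∈ c, D ≤ M ⊓ sx ξ) ∧
    ∃ θ', ID ℓ (cN M₀ (tp ⊥ c)) 0 θ' ∧ DGs 𝔐 M₀ (tp ⊥ c) θ' ξ))
    (fun c => ∃ θ', ID ℓ (cN M₀ (tp ⊥ c)) 0 θ' ∧ DGs 𝔐 M₀ (tp ⊥ c) θ' ξ)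
    (fun c => (-1 : ℚ) ^ c.card)
    (fun c => (Nat.card ↥(stb c ⊓ k.range ⊓ sx ξ) : ℚ) *
      NM 𝔐 ℓ d k lam M₀ ξ (stb c ⊓ k.range ⊓ sx ξ ⊔ M₀))]
  swap
  · intro c
    rw [Finset.mem_filter, Finset.mem_filter]
    constructor
    · rintro ⟨hc, hc1, hc2⟩
      exact ⟨⟨hc, fun D hD => (hc1 D hD).trans inf_le_left⟩, hc2⟩
    · rintro ⟨⟨hc, hc1⟩, hc2⟩
      exact ⟨hc, fun D hD => le_inf (hc1 D hD) (hout c hc hc2 D hD), hc2⟩
  rcases halt ξ hξ2 with ⟨O, hO1, hO2, hO3, hO4⟩ | ⟨hA, hB, hd⟩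
  · have h8 := h4 G 𝔐 ℓ h𝔐 hℓ M₀ hnM₀ ξ hξ0 (M ⊓ sx ξ) (k.range ⊓ sx ξ) O (le_inf hM₀ hsx)
      inf_le_right inf_le_right hO1 hO2 hO3
      (fun g hg x hx => hO4 g (Subgroup.mem_inf.mp hg).2 x hx)
      (fun g hg x hx => hO4 g (Subgroup.mem_inf.mp hg).2 x hx)
      (fun g hg x hx => by
        obtain ⟨hg1, hg2⟩ := Subgroup.mem_inf.mp hg
        obtain ⟨hx1, hx2⟩ := Subgroup.mem_inf.mp hx
        exact Subgroup.mem_inf.mpr ⟨hnM.conj_mem x hx1 g,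
          mul_mem (mul_mem hg2 hx2) (inv_mem hg2)⟩)
      (fun S => (NM 𝔐 ℓ d k lam M₀ ξ S : ℚ))
    rw [← h8]
    refine Finset.sum_congr rfl fun c _ => ?_
    rw [inf_assoc]
  · apply Finset.sum_eq_zero
    intro c hc
    rw [Finset.mem_filter, OutC, Finset.mem_filter, mem_Ch] at hc
    obtain ⟨⟨hc1, hc2⟩, hc3, -⟩ := hc
    have hempty : c = ∅ := by
      by_contra hne
      obtain ⟨D, hD⟩ := Finset.nonempty_iff_ne_empty.mpr hne
      obtain ⟨hD1, hD2⟩ := hc1.1 D hD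
      have hdvd : ℓ ∣ Nat.card D := by
        rcases hD1.card_eq_or_dvd with h | h
        · exact absurd (Subgroup.card_eq_one.mp h) hD2.ne'
        · exact h
      obtain ⟨x, hx⟩ := exists_prime_orderOf_dvd_card' ℓ hdvd
      have hxl : ((x : D) : G) ^ ℓ = 1 := by
        have h8 := pow_orderOf_eq_one x
        rw [hx] at h8
        have h9 := congrArg Subtype.val h8
        simpa using h9
      have hxM : (x : G) ∈ M₀ := by
        apply hA x (hc3 D hD x.2)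
        rw [hxl]
        exact one_mem _
      have hxb : (x : G) ∈ D ⊓ M₀ := Subgroup.mem_inf.mpr ⟨x.2, hxM⟩
      rw [hc2 D hD, Subgroup.mem_bot] at hxb
      have hx1 : x = 1 := Subtype.ext hxb
      rw [hx1, orderOf_one] at hx
      exact hp.out.one_lt.ne hx
    have hz : NM 𝔐 ℓ d k lam M₀ ξ (stb c ⊓ k.range ⊓ sx ξ ⊔ M₀) = 0 := by
      rw [hempty, stb_empty, top_inf_eq, sup_eq_left.mpr (le_inf hM₀ hsx)]
      exact NM_zero h6 h7 h𝔐 hℓ hk lam hnM₀ hM₀ hξ0 _ (le_inf hM₀ hsx) inf_le_left hB d hd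
    rw [hz, Nat.cast_zero, mul_zero, mul_zero]

end Pool.Agent.DPT


end

section

/-!
# CLQ: the decomposition according to the characters of a normal subgroup which commutes with `M`
-/

set_option autoImplicit false

namespace Pool.Agent.DPT

open Pool.Agent.DP Pool.Agent.DPC Pool.Agent.DPM Pool.Agent.DPN Pool.Agent.Lib_helper13
open Representation
open Pool.Agent.Lib_helper13.Dade (pCore DadeHolds dadeSum)

namespace CLQ

/-- A central element acts as a scalar. -/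
theorem central {S : Type} [Group S] [Fintype S] {χ : S → ℂ} (h : IsIrr χ) {z : S}
    (hz : ∀ g, z * g = g * z) : ∃ c : ℂ, ∀ g, χ (z * g) = c * χ g := by
  obtain ⟨n, ρ, hρ, rfl⟩ := h
  obtain ⟨c, hc⟩ := exists_scalar ρ hρ (ρ z) (by
    intro g x
    rw [← Module.End.mul_apply, ← Module.End.mul_apply, ← map_mul, ← map_mul, hz])
  refine ⟨c, fun g => ?_⟩
  change LinearMap.trace ℂ _ (ρ (z * g)) = c * LinearMap.trace ℂ _ (ρ g)
  have h1 : ρ (z * g) = c • ρ g := by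
    rw [map_mul, hc]
    ext x
    simp
  rw [h1, map_smul, smul_eq_mul]

/-- The scalars by which a central element acts on a character and on a constituent of its
restriction agree. -/
theorem central_iff {A Y : Type} [Group A] [Fintype A] [Group Y] [Fintype Y] {j : A →* Y}
    {χ : Y → ℂ} {θ : A → ℂ} (hχ : IsIrr χ) (hθ : IsIrr θ) (h : ip (fun a => χ (j a)) θ ≠ 0)
    {z : A} (hz : ∀ a, z * a = a * z) (hz' : ∀ y, j z * y = y * j z) (c : ℂ) :
    (∀ y, χ (j z * y) = c * χ y) ↔ ∀ a, θ (z * a) = c * θ a := by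
  obtain ⟨c₁, h₁⟩ := central hχ hz'
  obtain ⟨c₂, h₂⟩ := central hθ hz
  have hX : ∑ a : A, χ (j a) * θ a⁻¹ ≠ 0 := by
    intro h0
    apply h
    unfold ip
    rw [h0, zero_div]
  have e1 : ∑ a : A, χ (j a) * θ a⁻¹ = ∑ a : A, χ (j (z * a)) * θ (z * a)⁻¹ :=
    (Fintype.sum_equiv (Equiv.mulLeft z) _ _ fun a => rfl).symm
  have e2 : c₂ * ∑ a : A, χ (j a) * θ a⁻¹ = c₁ * ∑ a : A, χ (j a) * θ a⁻¹ := by
    have e3 : c₂ * ∑ a : A, χ (j (z * a)) * θ (z * a)⁻¹ = c₁ * ∑ a : A, χ (j a) * θ a⁻¹ := by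
      rw [Finset.mul_sum, Finset.mul_sum]
      refine Finset.sum_congr rfl fun a _ => ?_
      have e4 : θ a⁻¹ = c₂ * θ (z * a)⁻¹ := by
        rw [← h₂]
        congr 1
        rw [hz a]
        group
      rw [e4, map_mul, h₁]
      ring
    rw [← e1] at e3
    exact e3
  have hc : c₂ = c₁ := mul_right_cancel₀ hX e2
  subst hc
  constructor
  · intro h3 a
    have h4 : c₂ = c := by
      have h5 := h3 1
      rw [h₁] at h5
      exact mul_right_cancel₀ hχ.one_ne_zero h5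
    rw [← h4]
    exact h₂ a
  · intro h3 y
    have h4 : c₂ = c := by
      have h5 := h3 1
      rw [h₂] at h5
      exact mul_right_cancel₀ hθ.one_ne_zero h5
    rw [← h4]
    exact h₁ y

section Fun

variable {X : Type} [Group X]

theorem ext0_coe {S : Subgroup X} (θ : S → ℂ) : (fun s : S => ext0 θ (s : X)) = θ := by
  funext s
  exact ext0_of_mem θ s.2

theorem ext0_res {S : Subgroup X} {ψ : X → ℂ} (h : ∀ x, x ∉ S → ψ x = 0) :
    ext0 (fun s : S => ψ s) = ψ := by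
  funext x
  by_cases hx : x ∈ S
  · rw [ext0_of_mem _ hx]
  · rw [ext0_of_not_mem _ hx, h x hx]

theorem irrOn_ext0 {S : Subgroup X} {θ : S → ℂ} (h : IsIrr θ) : IrrOn S (ext0 θ) := by
  refine ⟨?_, fun x hx => ext0_of_not_mem θ hx⟩
  rw [ext0_coe]
  exact h

/-- Characters of `S` as functions on the group. -/
theorem card_ID [Fintype X] (ℓ d : ℕ) (S : Subgroup X) (Q : (X → ℂ) → Prop) :
    Nat.card {ψ : X → ℂ // ID ℓ S d ψ ∧ Q ψ} =
      Nat.card {θ : S → ℂ // IsIrr θ ∧ (HasDefect ℓ θ d ∧ Q (ext0 θ))} := by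
  refine Nat.card_congr ⟨fun ψ => ⟨fun s => ψ.1 s, ψ.2.1.1.1, ψ.2.1.2, ?_⟩,
    fun θ => ⟨ext0 θ.1, ⟨irrOn_ext0 θ.2.1, ?_⟩, θ.2.2.2⟩, ?_, ?_⟩
  · rw [ext0_res ψ.2.1.1.2]
    exact ψ.2.2
  · have h := θ.2.2.1
    rw [ext0_coe]
    exact h
  · intro ψ
    apply Subtype.ext
    exact ext0_res ψ.2.1.1.2
  · intro θ
    apply Subtype.ext
    exact ext0_coe θ.1

theorem ite_eq {p q : Prop} {hp : Decidable p} {hq : Decidable q} (h : p ↔ q) :
    @ite ℂ p hp 1 0 = @ite ℂ q hq 1 0 := by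
  by_cases h1 : p
  · rw [if_pos h1, if_pos (h.mp h1)]
  · rw [if_neg h1, if_neg fun h2 => h1 (h.mpr h2)]

theorem cgT_eq [Fintype X] (𝔐 : Ideal (integralClosure ℤ ℂ)) (T S : Subgroup X) {ψ : X → ℂ}
    (h : ∀ x, x ∉ S → ψ x = 0) (g : X) :
    cgT 𝔐 T ψ g = red 𝔐 (wt (fun s : S => ψ s) (fun s => cjT T (s : X) g)) := by
  classical
  have h1 : ∑ x : X, cjT T x g * ψ x = ∑ s : S, cjT T (s : X) g * ψ s := by
    symm
    refine Fintype.sum_of_injective (fun s : S => (s : X)) Subtype.val_injective _ _ ?_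
      (fun s => rfl)
    intro x hx
    rw [h x (fun h2 => hx ⟨⟨x, h2⟩, rfl⟩), mul_zero]
  rw [cgT, wt, h1]
  rfl

/-- The central function with respect to `⊤`. -/
theorem cjT_top (x g : X) : cjT (⊤ : Subgroup X) x g = conjInd x g := by
  classical
  rw [cjT, conjInd]
  refine ite_eq ?_
  constructor
  · rintro ⟨t, _, rfl⟩
    exact (isConj_iff.mpr ⟨t, rfl⟩).symm
  · intro h
    obtain ⟨t, ht⟩ := isConj_iff.mp h.symm
    exact ⟨t, trivial, ht.symm⟩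

theorem cen_eq [Fintype X] (𝔐 : Ideal (integralClosure ℤ ℂ)) (S : Subgroup X) (θ : S → ℂ)
    (g : X) : cen 𝔐 S.subtype θ g = cgT 𝔐 ⊤ (ext0 θ) g := by
  rw [cgT_eq 𝔐 ⊤ S (fun x hx => ext0_of_not_mem θ hx), cen, ext0_coe]
  congr 2
  funext s
  rw [cjT_top]
  rfl

end Fun

section Main

variable {L K : Type} [Group L] [Fintype L] [Group K]

omit [Fintype L] in
theorem ovK_ext0 (π : L →* K) (μ : π.ker →* ℂˣ) {S : Subgroup L} (hS : π.ker ≤ S)
    (χ : S → ℂ) : OvK π μ (ext0 χ) ↔ ∀ (z : π.ker) (y : S),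
      χ (⟨z, hS z.2⟩ * y) = ((μ z : ℂˣ) : ℂ) * χ y := by
  constructor
  · intro h z y
    have h1 := h z y
    rw [ext0_of_mem χ y.2, ext0_of_mem χ (S.mul_mem (hS z.2) y.2)] at h1
    exact h1
  · intro h z y
    by_cases hy : y ∈ S
    · rw [ext0_of_mem χ hy, ext0_of_mem χ (S.mul_mem (hS z.2) hy)]
      exact h z ⟨y, hy⟩
    · have hzy : (z : L) * y ∉ S := fun h' => hy ((S.mul_mem_cancel_left (hS z.2)).1 h')
      rw [ext0_of_not_mem χ hy, ext0_of_not_mem χ hzy, mul_zero]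

theorem ovK_iff (π : L →* K) (hπ : π.ker ≤ Subgroup.center L) (μ : π.ker →* ℂˣ)
    {N S : Subgroup L} (hN : N ≤ S) (hU : π.ker ≤ N) {χ : S → ℂ} {θ : N → ℂ} (hχ : IsIrr χ)
    (hθ : IsIrr θ) (h : ip (fun a => χ (Subgroup.inclusion hN a)) θ ≠ 0) :
    OvK π μ (ext0 χ) ↔ OvK π μ (ext0 θ) := by
  rw [ovK_ext0 π μ (hU.trans hN), ovK_ext0 π μ hU]
  refine forall_congr' fun z => ?_
  have hz := Subgroup.mem_center_iff.1 (hπ z.2)
  exact central_iff (j := Subgroup.inclusion hN) hχ hθ h (z := ⟨z, hU z.2⟩)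
    (fun a => Subtype.ext (hz a).symm) (fun y => Subtype.ext (hz y).symm) _

omit [Fintype L] in
/-- The inertia group as a subgroup of the big group. -/
theorem map_inert (N S : Subgroup L) [N.Normal] (θ : N → ℂ) :
    (inert ((MulAut.conjNormal : L →* MulAut N).comp S.subtype) θ).map S.subtype =
      S ⊓ sx (ext0 θ) := by
  have key : ∀ x : L, (∀ a : N, θ (MulAut.conjNormal x a) = θ a) ↔ x ∈ sx (ext0 θ) := by
    intro x
    rw [mem_sx]
    constructor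
    · intro h y
      by_cases hy : y ∈ N
      · have h1 : x * y * x⁻¹ ∈ N := Subgroup.Normal.conj_mem inferInstance y hy x
        rw [ext0_of_mem θ hy, ext0_of_mem θ h1, ← h ⟨y, hy⟩]
        congr 1
      · have h1 : x * y * x⁻¹ ∉ N := by
          intro h2
          apply hy
          have h3 : x⁻¹ * (x * y * x⁻¹) * x⁻¹⁻¹ ∈ N :=
            Subgroup.Normal.conj_mem inferInstance _ h2 x⁻¹
          have h4 : x⁻¹ * (x * y * x⁻¹) * x⁻¹⁻¹ = y := by group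
          rwa [h4] at h3
        rw [ext0_of_not_mem θ hy, ext0_of_not_mem θ h1]
    · intro h a
      have h0 := h a
      have h1 : x * (a : L) * x⁻¹ ∈ N := Subgroup.Normal.conj_mem inferInstance _ a.2 x
      rw [ext0_of_mem θ a.2, ext0_of_mem θ h1] at h0
      have h2 : MulAut.conjNormal x a = ⟨x * (a : L) * x⁻¹, h1⟩ := by
        apply Subtype.ext
        rw [MulAut.conjNormal_apply]
      rw [h2]
      exact h0
  ext x
  constructor
  · rintro ⟨s, hs, rfl⟩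
    exact ⟨s.2, (key s).1 hs⟩
  · rintro ⟨h1, h2⟩
    exact ⟨⟨x, h1⟩, (key x).2 h2, rfl⟩

/-- The inertia group as a subgroup of the big group. -/
noncomputable def eI (N S : Subgroup L) [N.Normal] (θ : N → ℂ) :
    ↥(inert ((MulAut.conjNormal : L →* MulAut N).comp S.subtype) θ) ≃* ↥(S ⊓ sx (ext0 θ)) :=
  (Subgroup.equivMapOfInjective _ S.subtype S.subtype_injective).trans
    (MulEquiv.subgroupCongr (map_inert N S θ))

theorem eI_coe (N S : Subgroup L) [N.Normal] (θ : N → ℂ)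
    (s : inert ((MulAut.conjNormal : L →* MulAut N).comp S.subtype) θ) :
    ((eI N S θ s : ↥(S ⊓ sx (ext0 θ))) : L) = ((s : S) : L) := rfl

/-- The counts of the characters over `θ`. -/
theorem card_over (ℓ d : ℕ) (𝔐 : Ideal (integralClosure ℤ ℂ)) (N S : Subgroup L) [N.Normal]
    (hN : N ≤ S) {θ : N → ℂ} (hθ : IsIrr θ) (R : L → Prop)
    (ω : L → (integralClosure ℤ ℂ) ⧸ 𝔐) :
    Nat.card {ψ : inert ((MulAut.conjNormal : L →* MulAut N).comp S.subtype) θ → ℂ //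
      IsIrr ψ ∧ ip (fun a => ext0 ψ (Subgroup.inclusion hN a)) θ ≠ 0 ∧ HasDefect ℓ ψ d ∧
        ∀ g, R g → cgT 𝔐 ⊤ (ext0 (indc _ ψ)) g = ω g} =
    Nat.card {ψ : L → ℂ // ID ℓ (S ⊓ sx (ext0 θ)) d ψ ∧ iS N ψ (ext0 θ) ≠ 0 ∧
      ∀ g, R g → cgT 𝔐 ⊤ ψ g = ω g} := by
  classical
  have hcl := PSC.clG_S N S hN
  rw [card_ID ℓ d (S ⊓ sx (ext0 θ)) (fun ψ => iS N ψ (ext0 θ) ≠ 0 ∧
    ∀ g, R g → cgT 𝔐 ⊤ ψ g = ω g)]
  refine card_irr_equiv (eI N S θ) _ _ fun ψ hψ => ?_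
  have hψe : IsIrr (fun y => ψ (eI N S θ y)) := hψ.comp_mulEquiv (eI N S θ)
  have e1 : (fun a => ext0 (fun y => ψ (eI N S θ y)) (Subgroup.inclusion hN a)) =
      fun n : N => ext0 ψ (n : L) := by
    funext a
    have h3 : Subgroup.inclusion hN a ∈
        inert ((MulAut.conjNormal : L →* MulAut N).comp S.subtype) θ :=
      CCOR.mem_inert hcl hθ a
    have h4 : ((eI N S θ ⟨_, h3⟩ : ↥(S ⊓ sx (ext0 θ))) : L) = (a : L) := rfl
    rw [ext0_of_mem _ h3, ← h4, ext0_of_mem _ (eI N S θ ⟨_, h3⟩).2]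
  have e2 : iS N (ext0 ψ) (ext0 θ) = ip (fun n : N => ext0 ψ (n : L)) θ := by
    unfold iS
    rw [ext0_coe]
  have e3 : ∀ g, cgT 𝔐 ⊤ (ext0 (indc (inert ((MulAut.conjNormal : L →* MulAut N).comp
      S.subtype) θ) (fun y => ψ (eI N S θ y)))) g = cgT 𝔐 ⊤ (ext0 ψ) g := by
    intro g
    rw [← cen_eq, ← cen_eq, PSC.cen_indc 𝔐 S.subtype _ _ hψe.one_ne_zero,
      ← cen_comp_equiv 𝔐 (eI N S θ)]
    rfl
  rw [e1, e2, hasDefect_comp_equiv]
  constructor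
  · rintro ⟨h1, h2, h3⟩
    refine ⟨h2, h1, fun g hg => ?_⟩
    rw [← e3]
    exact h3 g hg
  · rintro ⟨h2, h1, h3⟩
    refine ⟨h1, h2, fun g hg => ?_⟩
    rw [e3]
    exact h3 g hg

end Main

/-- The order of the inverse image. -/
theorem card_comap {L K : Type} [Group L] [Fintype L] [Group K] [Fintype K] (π : L →* K)
    (hπ : Function.Surjective π) (S : Subgroup K) :
    Nat.card (S.comap π) = Nat.card π.ker * Nat.card S := by
  have h1 : Nat.card (S.comap π) * (S.comap π).index = Nat.card L :=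
    Subgroup.card_mul_index _
  have h2 : Nat.card S * S.index = Nat.card K := Subgroup.card_mul_index _
  have h3 : (S.comap π).index = S.index := Subgroup.index_comap_of_surjective S hπ
  have h4 : Nat.card π.ker * π.ker.index = Nat.card L := Subgroup.card_mul_index _
  have h5 : π.ker.index = Nat.card K := by
    rw [Subgroup.index_ker]
    exact Nat.card_congr ((Equiv.setCongr (by
      rw [MonoidHom.coe_range]
      exact hπ.range_eq)).trans (Equiv.Set.univ K))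
  have h6 : S.index ≠ 0 := Subgroup.index_ne_zero_of_finite
  rw [h5, ← h2, ← h1, h3] at h4
  have h7 : (Nat.card π.ker * Nat.card S) * S.index = Nat.card (S.comap π) * S.index := by
    rw [← h4]
    ring
  exact (Nat.eq_of_mul_eq_mul_right (Nat.pos_of_ne_zero h6) h7).symm

end CLQ

open _root_.Pool.Agent.DPT.CLQ in
/-- CLQ: the decomposition according to the characters of a normal subgroup which commutes
with `M`. -/
theorem CLQ_thm (h1 : Stmt_CLC) : Stmt_CLQ := by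
  classical
  intro L K _ _ _ _ 𝔐 ℓ _ h𝔐 hℓ π hπs hπc μ M Q hM hQ hQM ω d hne
  have hQn : (Q.comap π).Normal := hQ.comap π
  have hU : π.ker ≤ Q.comap π := by
    intro x hx
    rw [Subgroup.mem_comap, MonoidHom.mem_ker.1 hx]
    exact Q.one_mem
  -- `Q` stabilizes the chains
  have hQS : ∀ σ : Finset (Subgroup K), (∀ D ∈ σ, D ≤ M) → Q ≤ stb σ := by
    intro σ hσ y hy
    rw [mem_stb']
    intro D hD x
    constructor
    · intro hx
      rw [hQM y hy x (hσ D hD hx), mul_inv_cancel_right]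
      exact hx
    · intro hx
      have h3 := hσ D hD hx
      have h4 := hQM y hy _ h3
      have h5 : y * x * y⁻¹ = x := by
        have h6 : y * x = x * y := by
          have h7 : y * (y * x * y⁻¹) * y⁻¹ = y * x * y⁻¹ := by
            rw [h4, mul_inv_cancel_right]
          have h8 : y * x * y⁻¹ = x := by
            have h9 : y⁻¹ * (y * (y * x * y⁻¹) * y⁻¹) * y = y⁻¹ * (y * x * y⁻¹) * y := by
              rw [h7]
            have h10 : y⁻¹ * (y * (y * x * y⁻¹) * y⁻¹) * y = y * x * y⁻¹ := by group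
            have h11 : y⁻¹ * (y * x * y⁻¹) * y = x := by group
            rw [h10, h11] at h9
            exact h9
          calc y * x = y * x * y⁻¹ * y := by group
            _ = x * y := by rw [h8]
        rw [h6, mul_inv_cancel_right]
      rwa [h5] at hx
  -- a single chain
  have key : ∀ S : Subgroup K, Q ≤ S → (Nat.card π.ker : ℚ) * WF 𝔐 ℓ d π μ M ω S =
      ∑ θ ∈ (irrF (Q.comap π)).filter (fun θ => OvK π μ (ext0 θ)),
        WN 𝔐 ℓ d π Q M (ext0 θ) ω S := by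
    intro S hS
    have hN : Q.comap π ≤ S.comap π := Subgroup.comap_mono hS
    have hcl := PSC.clG_S (Q.comap π) (S.comap π) hN
    have h2 := h1 ↥(Q.comap π) ↥(S.comap π) (L ⧸ Q.comap π) ℓ (Subgroup.inclusion hN) _ _ hcl
      (fun χ => OvK π μ (ext0 χ) ∧ ∀ g, π g ∈ M → cgT 𝔐 ⊤ (ext0 χ) g = ω g) d
    have h3 : (Nat.card π.ker : ℚ) * WF 𝔐 ℓ d π μ M ω S =
        (Nat.card ↥(S.comap π) : ℚ) * Nat.card {χ : ↥(S.comap π) → ℂ // IsIrr χ ∧
          HasDefect ℓ χ d ∧ OvK π μ (ext0 χ) ∧ ∀ g, π g ∈ M → cgT 𝔐 ⊤ (ext0 χ) g = ω g} := by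
      unfold WF
      rw [card_ID ℓ d (S.comap π) (fun ψ => OvK π μ ψ ∧ ∀ g, π g ∈ M → cgT 𝔐 ⊤ ψ g = ω g),
        card_comap π hπs S]
      push_cast
      ring
    rw [h3, h2, Finset.sum_filter]
    refine Finset.sum_congr rfl fun θ hθ => ?_
    have hθ' := mem_irrF.1 hθ
    have h4 : ∀ ψ : inert ((MulAut.conjNormal : L →* MulAut ↥(Q.comap π)).comp
        (S.comap π).subtype) θ → ℂ, IsIrr ψ →
        ip (fun a => ext0 ψ (Subgroup.inclusion hN a)) θ ≠ 0 →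
        (OvK π μ (ext0 (indc (inert ((MulAut.conjNormal : L →* MulAut ↥(Q.comap π)).comp
          (S.comap π).subtype) θ) ψ)) ↔ OvK π μ (ext0 θ)) := by
      intro ψ hψ hψθ
      obtain ⟨c1, -, -⟩ := CCOR_thm IND_thm SUMM_thm ↥(Q.comap π) ↥(S.comap π)
        (L ⧸ Q.comap π) (Subgroup.inclusion hN) _ _ hcl θ hθ'
      obtain ⟨h5, h6⟩ := c1 ψ hψ hψθ
      exact ovK_iff π hπc μ hN hU h5 hθ' h6
    by_cases hov : OvK π μ (ext0 θ)
    · rw [if_pos hov]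
      unfold WN
      rw [Nat.card_congr (eI (Q.comap π) (S.comap π) θ).toEquiv,
        ← card_over ℓ d 𝔐 (Q.comap π) (S.comap π) hN hθ' (fun g => π g ∈ M) ω]
      congr 2
      refine Nat.card_congr (Equiv.subtypeEquivRight fun ψ => ?_)
      constructor
      · rintro ⟨h5, h6, h7, h8, h9⟩
        exact ⟨h5, h6, h7, h9⟩
      · rintro ⟨h5, h6, h7, h9⟩
        exact ⟨h5, h6, h7, (h4 ψ h5 h6).2 hov, h9⟩
    · rw [if_neg hov]
      have h5 : IsEmpty {ψ : inert ((MulAut.conjNormal : L →* MulAut ↥(Q.comap π)).comp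
          (S.comap π).subtype) θ → ℂ // IsIrr ψ ∧
          ip (fun a => ext0 ψ (Subgroup.inclusion hN a)) θ ≠ 0 ∧ HasDefect ℓ ψ d ∧
          (OvK π μ (ext0 (indc (inert ((MulAut.conjNormal : L →* MulAut ↥(Q.comap π)).comp
            (S.comap π).subtype) θ) ψ)) ∧ ∀ g, π g ∈ M →
            cgT 𝔐 ⊤ (ext0 (indc (inert ((MulAut.conjNormal : L →* MulAut ↥(Q.comap π)).comp
              (S.comap π).subtype) θ) ψ)) g = ω g)} := by
        constructor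
        rintro ⟨ψ, h5, h6, h7, h8, h9⟩
        exact hov ((h4 ψ h5 h6).1 h8)
      refine mul_eq_zero_of_right _ ?_
      rw [Nat.cast_eq_zero]
      exact @Nat.card_of_isEmpty _ h5
  -- the sum over the chains
  have htot : (Nat.card π.ker : ℚ) * CS ℓ M (WF 𝔐 ℓ d π μ M ω) =
      ∑ θ ∈ (irrF (Q.comap π)).filter (fun θ => OvK π μ (ext0 θ)),
        CS ℓ M (WN 𝔐 ℓ d π Q M (ext0 θ) ω) := by
    unfold CS
    rw [Finset.sum_comm, Finset.mul_sum]
    refine Finset.sum_congr rfl fun σ hσ => ?_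
    rw [← Finset.mul_sum, ← key (stb σ) (hQS σ (Finset.mem_filter.1 hσ).2)]
    ring
  have hne' : (Nat.card π.ker : ℚ) * CS ℓ M (WF 𝔐 ℓ d π μ M ω) ≠ 0 := by
    refine mul_ne_zero ?_ hne
    exact_mod_cast Nat.card_pos.ne'
  rw [htot] at hne'
  obtain ⟨θ, hθ, hθ'⟩ := Finset.exists_ne_zero_of_sum_ne_zero hne'
  rw [Finset.mem_filter, mem_irrF] at hθ
  exact ⟨ext0 θ, irrOn_ext0 hθ.1, hθ.2, hθ'⟩

end Pool.Agent.DPT


end

section

/-!
# TWQ: the contribution of a character of a normal `ℓ`-subgroup which is fixed by `M`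
-/

set_option autoImplicit false

namespace Pool.Agent.DPT

open Pool.Agent.DP Pool.Agent.DPC Pool.Agent.DPM Pool.Agent.DPN Pool.Agent.Lib_helper13
open Representation
open Pool.Agent.Lib_helper13.Dade (pCore DadeHolds dadeSum)

namespace TWQ

/-- The stabilizer contains the group. -/
theorem le_sx {G : Type} [Group G] {C : Subgroup G} {ξ : G → ℂ} (hξ : IrrOn C ξ) : C ≤ sx ξ := by
  intro g hg
  rw [mem_sx]
  intro x
  by_cases hx : x ∈ C
  · exact hξ.1.conj_eq ⟨g, hg⟩ ⟨x, hx⟩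
  · rw [hξ.2 x hx]
    apply hξ.2
    intro h1
    apply hx
    have h2 := mul_mem (mul_mem (inv_mem hg) h1) hg
    have h3 : g⁻¹ * (g * x * g⁻¹) * g = x := by group
    rwa [h3] at h2

section Sub

variable {L : Type} [Group L]

/-- A subgroup of a subgroup as a subgroup of the group. -/
noncomputable def eM (S : Subgroup L) (V : Subgroup S) : V ≃* V.map S.subtype :=
  V.equivMapOfInjective S.subtype S.subtype_injective

theorem eM_coe (S : Subgroup L) (V : Subgroup S) (v : V) :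
    ((eM S V v : V.map S.subtype) : L) = ((v : S) : L) := rfl

variable [Fintype L]

/-- The central function as a weight. -/
theorem cgT_top (𝔐 : Ideal (integralClosure ℤ ℂ)) {S : Subgroup L} {ψ : L → ℂ}
    (h : ∀ x, x ∉ S → ψ x = 0) (g : L) :
    cgT 𝔐 ⊤ ψ g = red 𝔐 (wt (fun s : S => ψ s) (fun s => conjInd (s : L) g)) := by
  rw [CLQ.cgT_eq 𝔐 ⊤ S h]
  congr 2
  funext s
  rw [CLQ.cjT_top]

/-- The characters of a subgroup of `S` as functions on the group. -/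
theorem card_transfer (𝔐 : Ideal (integralClosure ℤ ℂ)) (ℓ d : ℕ) (S N : Subgroup L)
    (hNS : N ≤ S) (ν : L → ℂ) (V : Subgroup S) (hV : ∀ n : N, Subgroup.inclusion hNS n ∈ V)
    (R : L → Prop) (ω : L → (integralClosure ℤ ℂ) ⧸ 𝔐) :
    Nat.card {ψ : L → ℂ // ID ℓ (V.map S.subtype) d ψ ∧ iS N ψ ν ≠ 0 ∧
        ∀ g, R g → cgT 𝔐 ⊤ ψ g = ω g} =
      Nat.card {ψ : V → ℂ // IsIrr ψ ∧
        ip (fun a : N => ext0 ψ (Subgroup.inclusion hNS a)) (fun n : N => ν n) ≠ 0 ∧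
          (HasDefect ℓ ψ d ∧
            ∀ g, R g → red 𝔐 (wt ψ (fun y => conjInd ((y : S) : L) g)) = ω g)} := by
  classical
  rw [CLQ.card_ID ℓ d (V.map S.subtype)
    (fun ψ => iS N ψ ν ≠ 0 ∧ ∀ g, R g → cgT 𝔐 ⊤ ψ g = ω g)]
  symm
  refine card_irr_equiv (eM S V)
    (fun φ => ip (fun a : N => ext0 φ (Subgroup.inclusion hNS a)) (fun n : N => ν n) ≠ 0 ∧
      (HasDefect ℓ φ d ∧ ∀ g, R g → red 𝔐 (wt φ (fun y => conjInd ((y : S) : L) g)) = ω g))
    (fun φ => HasDefect ℓ φ d ∧ (iS N (ext0 φ) ν ≠ 0 ∧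
      ∀ g, R g → cgT 𝔐 ⊤ (ext0 φ) g = ω g)) ?_
  intro ψ _
  have e1 : (fun a : N => ext0 (fun y => ψ (eM S V y)) (Subgroup.inclusion hNS a)) =
      fun n : N => ext0 ψ (n : L) := by
    funext a
    rw [ext0_of_mem _ (hV a)]
    have h4 : ((eM S V ⟨_, hV a⟩ : V.map S.subtype) : L) = (a : L) := rfl
    rw [← h4, ext0_of_mem _ (eM S V ⟨_, hV a⟩).2]
  have e2 : iS N (ext0 ψ) ν = ip (fun n : N => ext0 ψ (n : L)) (fun n : N => ν n) := rfl
  have e3 : ∀ g, cgT 𝔐 ⊤ (ext0 ψ) g =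
      red 𝔐 (wt (fun y => ψ (eM S V y)) (fun y => conjInd ((y : S) : L) g)) := by
    intro g
    rw [cgT_top 𝔐 (fun x hx => ext0_of_not_mem ψ hx), CLQ.ext0_coe,
      ← wt_comp_equiv (eM S V)]
    rfl
  rw [e1, e2, hasDefect_comp_equiv]
  constructor
  · rintro ⟨h1, h2, h3⟩
    refine ⟨h2, h1, fun g hg => ?_⟩
    rw [e3]
    exact h3 g hg
  · rintro ⟨h2, h1, h3⟩
    refine ⟨h1, h2, fun g hg => ?_⟩
    rw [← e3]
    exact h3 g hg

end Sub

section Ov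

variable {Λ K' : Type} [Group Λ] [Group K'] (π : Λ →* K') (U : Subgroup Λ) (μ : U →* ℂˣ)

theorem ker_le {π : Λ →* K'} {U : Subgroup Λ} (hU : ∀ l, π l = 1 ↔ l ∈ U) : π.ker ≤ U :=
  fun l hl => (hU l).1 (MonoidHom.mem_ker.1 hl)

/-- The linear character of the kernel. -/
def mk (hU : ∀ l, π l = 1 ↔ l ∈ U) : π.ker →* ℂˣ := μ.comp (Subgroup.inclusion (ker_le hU))

theorem ovL_iff (hU : ∀ l, π l = 1 ↔ l ∈ U) (V : Subgroup K') (η : ↥(V.comap π) → ℂ) :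
    OvL U μ _ η ↔ OvK π (mk π U μ hU) (ext0 η) := by
  have hS : π.ker ≤ V.comap π := by
    intro z hz
    rw [Subgroup.mem_comap, MonoidHom.mem_ker.1 hz]
    exact V.one_mem
  rw [CLQ.ovK_ext0 π _ hS]
  constructor
  · intro h z y
    exact h ⟨z, hS z.2⟩ y ((hU _).1 z.2)
  · intro h s t hs
    exact h ⟨s, (hU _).2 hs⟩ t

variable [Fintype Λ]

theorem card_ov {ι : Type} (𝔐 : Ideal (integralClosure ℤ ℂ)) (ℓ d : ℕ)
    (hU : ∀ l, π l = 1 ↔ l ∈ U) (V : Subgroup K') (F : ι → Λ → ℂ)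
    (w : ι → (integralClosure ℤ ℂ) ⧸ 𝔐) :
    Nat.card {η : ↥(V.comap π) → ℂ // IsIrr η ∧ OvL U μ _ η ∧
        (HasDefect ℓ η d ∧ ∀ g, red 𝔐 (wt η (fun l => F g l)) = w g)} =
      Nat.card {η : Λ → ℂ // ID ℓ (V.comap π) d η ∧
        OvK π (mk π U μ hU) η ∧
        ∀ g, red 𝔐 (wS (V.comap π) η (F g)) = w g} := by
  rw [CLQ.card_ID ℓ d (V.comap π) (fun η => OvK π (mk π U μ hU) η ∧
    ∀ g, red 𝔐 (wS (V.comap π) η (F g)) = w g)]
  refine Nat.card_congr (Equiv.subtypeEquivRight fun η => ?_)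
  refine and_congr_right fun _ => ?_
  rw [ovL_iff π U μ hU V η]
  unfold wS
  rw [CLQ.ext0_coe]
  exact and_left_comm

end Ov

section Main

variable {L K K' H Γ Λ : Type} [Group L] [Fintype L] [Group K] [Fintype K] [Group K']
  [Fintype K'] [Group Γ] [Fintype Γ] [Group Λ] [Fintype Λ] {𝔐 : Ideal (integralClosure ℤ ℂ)}
  {ℓ : ℕ} [hp : Fact ℓ.Prime] {π : L →* K} {μ : π.ker →* ℂˣ} {Q M : Subgroup K} {ν : L → ℂ}
  {ω : L → (integralClosure ℤ ℂ) ⧸ 𝔐}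

/-- The weighted number in terms of the subgroups of the stabilizer. -/
noncomputable def WT (𝔐 : Ideal (integralClosure ℤ ℂ)) (ℓ d : ℕ) (π : L →* K)
    (Q M : Subgroup K) (ν : L → ℂ) (ω : L → (integralClosure ℤ ℂ) ⧸ 𝔐)
    (R : Subgroup ↥(sx ν)) : ℚ :=
  (Nat.card R : ℚ) * Nat.card {ψ : L → ℂ // ID ℓ (R.map (sx ν).subtype) d ψ ∧
    iS (Q.comap π) ψ ν ≠ 0 ∧ ∀ g, π g ∈ M → cgT 𝔐 ⊤ ψ g = ω g}

omit [Fintype K] hp in
theorem WN_eq (d : ℕ) (S : Subgroup K) : WN 𝔐 ℓ d π Q M ν ω S =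
    WT 𝔐 ℓ d π Q M ν ω (S.comap (π.comp (sx ν).subtype)) := by
  have h1 : (S.comap (π.comp (sx ν).subtype)).map (sx ν).subtype = S.comap π ⊓ sx ν := by
    rw [← Subgroup.comap_comap]
    exact Subgroup.subgroupOf_map_subtype _ _
  unfold WN WT
  rw [Nat.card_congr (eM _ (S.comap (π.comp (sx ν).subtype))).toEquiv, h1]

/-- The sum over the chains in terms of the quotient of the stabilizer. -/
theorem CS_eq (h4 : Stmt_CHG) (hπ : Function.Surjective π) (hπc : π.ker ≤ Subgroup.center L)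
    (hM : M.Normal) (hQM : Q ⊓ M = ⊥) (hMν : M.comap π ≤ sx ν) (p : ↥(sx ν) →* K')
    (hps : Function.Surjective p) (hk : ∀ x : sx ν, p x = 1 ↔ (x : L) ∈ Q.comap π) (d : ℕ) :
    CS ℓ M (WN 𝔐 ℓ d π Q M ν ω) = CS ℓ ((M.comap (π.comp (sx ν).subtype)).map p)
      (fun V => WT 𝔐 ℓ d π Q M ν ω (V.comap p)) := by
  classical
  have h := h4 ↥(sx ν) K K' ℓ (π.comp (sx ν).subtype) (by
      intro t ht
      rw [MonoidHom.mem_ker] at ht
      have h1 : (t : L) ∈ Subgroup.center L := hπc (MonoidHom.mem_ker.2 ht)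
      rw [Subgroup.mem_center_iff]
      intro g
      exact Subtype.ext (Subgroup.mem_center_iff.1 h1 g)) M (by
      intro y hy
      obtain ⟨x, rfl⟩ := hπ y
      exact ⟨⟨x, hMν hy⟩, rfl⟩)
    (fun t y hy => hM.conj_mem y hy _) p hps (by
      intro t ht ht1
      have h1 : (t : L) ∈ Q.comap π := (hk t).1 ht1
      have h2 : π (t : L) ∈ Q ⊓ M := ⟨h1, ht⟩
      rw [hQM, Subgroup.mem_bot] at h2
      exact h2) (by
      intro t ht _
      refine (hk t).2 ?_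
      have h1 : π (t : L) = 1 := ht
      rw [Subgroup.mem_comap, h1]
      exact Q.one_mem) (WT 𝔐 ℓ d π Q M ν ω)
  rw [← h]
  unfold CS
  refine Finset.sum_congr rfl fun σ _ => ?_
  rw [WN_eq]

omit [Fintype K] in
/-- The numbers of characters over `ν` and of characters over `μ`. -/
theorem WT_eq (h2 : Stmt_TWN) (hNS : Q.comap π ≤ sx ν) (p : ↥(sx ν) →* K')
    (hps : Function.Surjective p) (hk : ∀ x : sx ν, p x = 1 ↔ (x : L) ∈ Q.comap π)
    (c : ↥(sx ν) →* MulAut ↥(Q.comap π)) (hcl : ClG (Subgroup.inclusion hNS) c p)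
    (hinv : ∀ s n, ν ((c s n : Q.comap π) : L) = ν (n : L)) {a : ℕ}
    (hν : ID ℓ (Q.comap π) a ν) {e : ↥(Q.comap π) →* Γ} {q : Γ →* Λ} {r : Γ →* ↥(sx ν)}
    {E : Γ → ℂ} {U : Subgroup Λ} {μν : U →* ℂˣ} {πν : Λ →* K'}
    (tw : TWD (Subgroup.inclusion hNS) p (fun n : Q.comap π => ν n) e q r E U μν πν)
    (F : L → Λ → ℂ) (hF : ∀ g, π g ∈ M → ∀ (V : Subgroup K') (ψ : ↥(V.comap p) → ℂ)
      (η : ↥(V.comap πν) → ℂ), IsIrr ψ → IsIrr η → OvL U μν _ η → Cor p q r E πν V ψ η →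
        wt ψ (fun y => conjInd (((y : ↥(sx ν)) : L)) g) = wt η (fun l => F g l))
    (hF0 : ∀ g, π g ∉ M → ∀ l, F g l = 0) (w : L → (integralClosure ℤ ℂ) ⧸ 𝔐)
    (hw : ∀ g, π g ∈ M → w g = ω g) (hw0 : ∀ g, π g ∉ M → w g = 0) {d d' : ℕ}
    (hd : d + padicValNat ℓ (Nat.card U) = d' + a) (V : Subgroup K') :
    WT 𝔐 ℓ d π Q M ν ω (V.comap p) = (Nat.card ↥(Q.comap π) : ℚ) *
      WC 𝔐 ℓ d' πν (mk πν U μν tw.πk) F w V := by
  classical
  obtain ⟨hcT, -, -, -, -, -, hdef, hcnt⟩ := h2 ↥(Q.comap π) ↥(sx ν) K' Γ Λ ℓ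
    (Subgroup.inclusion hNS) c p hcl hps (fun n => ν n) hν.1.1 hinv e q r E U μν πν tw V
  have hV : ∀ n : Q.comap π, Subgroup.inclusion hNS n ∈ V.comap p := by
    intro n
    rw [Subgroup.mem_comap, (hk _).2 n.2]
    exact V.one_mem
  unfold WT WC
  rw [hcT, card_transfer 𝔐 ℓ d (sx ν) (Q.comap π) hNS ν (V.comap p) hV (fun g => π g ∈ M) ω,
    hcnt (fun ψ => HasDefect ℓ ψ d ∧
      ∀ g, π g ∈ M → red 𝔐 (wt ψ (fun y => conjInd ((y : sx ν) : L) g)) = ω g)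
      (fun η => HasDefect ℓ η d' ∧ ∀ g, red 𝔐 (wt η (fun l => F g l)) = w g) ?_,
    card_ov πν U μν 𝔐 ℓ d' tw.πk V F w]
  · push_cast
    ring
  · intro ψ η hψ hip hη hov hcor
    obtain ⟨d1, hd1⟩ := hψ.exists_defect (ℓ := ℓ)
    obtain ⟨d2, hd2⟩ := hη.exists_defect (ℓ := ℓ)
    have h4 := hdef ψ η a d1 d2 hη hcor hν.2 hd1 hd2
    refine and_congr ?_ ?_
    · constructor
      · intro h5
        have h6 : d1 = d := hd1.unique h5
        have h7 : d' = d2 := by omega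
        rw [h7]
        exact hd2
      · intro h5
        have h6 : d2 = d' := hd2.unique h5
        have h7 : d = d1 := by omega
        rw [h7]
        exact hd1
    · constructor
      · intro h g
        by_cases hg : π g ∈ M
        · rw [← hF g hg V ψ η hψ hη hov hcor, hw g hg]
          exact h g hg
        · have h5 : (fun l : ↥(V.comap πν) => F g l) = fun _ => 0 := by
            funext l
            exact hF0 g hg l
          rw [h5, hw0 g hg, wt]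
          simp only [zero_mul, Finset.sum_const_zero, zero_div]
          exact red_zero 𝔐
      · intro h g hg
        rw [hF g hg V ψ η hψ hη hov hcor, ← hw g hg]
        exact h g

omit [Fintype L] [Fintype K] [Fintype K'] in
/-- The quotient belongs to the class. -/
theorem hh_quot [Group H] [Finite H] (h5 : Stmt_HHS) (f : K →* H) (hf : ∀ x, f x = 1 ↔ x ∈ M)
    (hH : HH ℓ H) (p : ↥(sx ν) →* K') (hps : Function.Surjective p) (M' : Subgroup K')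
    (hM' : M' = (M.comap (π.comp (sx ν).subtype)).map p) (hn : M'.Normal) :
    HH ℓ (K' ⧸ M') := by
  have h1 : HH ℓ (f.comp (π.comp (sx ν).subtype)).range :=
    (h5 H ℓ hH).1 _ (f.comp (π.comp (sx ν).subtype)).range.subtype
      (Subgroup.subtype_injective _)
  have hs : Function.Surjective (f.comp (π.comp (sx ν).subtype)).rangeRestrict :=
    MonoidHom.rangeRestrict_surjective _
  have hker : (f.comp (π.comp (sx ν).subtype)).rangeRestrict.ker ≤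
      ((QuotientGroup.mk' M').comp p).ker := by
    intro t ht
    rw [MonoidHom.ker_rangeRestrict, MonoidHom.mem_ker] at ht
    have ht1 : f (π (t : L)) = 1 := ht
    have ht2 : π (t : L) ∈ M := (hf _).mp ht1
    rw [MonoidHom.mem_ker]
    change ((p t : K') : K' ⧸ M') = 1
    rw [QuotientGroup.eq_one_iff, hM']
    exact ⟨t, ht2, rfl⟩
  have h2 := (h5 _ ℓ h1).2.1 _
    ((f.comp (π.comp (sx ν).subtype)).rangeRestrict.liftOfSurjective hs ⟨_, hker⟩)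
  apply h2
  intro z
  obtain ⟨y, rfl⟩ := QuotientGroup.mk_surjective z
  obtain ⟨t, rfl⟩ := hps y
  refine ⟨(f.comp (π.comp (sx ν).subtype)).rangeRestrict t, ?_⟩
  exact MonoidHom.liftOfRightInverse_comp_apply
    (f.comp (π.comp (sx ν).subtype)).rangeRestrict (Function.surjInv hs)
    (Function.rightInverse_surjInv hs) ⟨_, hker⟩ t

omit hp in
/-- The order of the quotient. -/
theorem card_lt (hπ : Function.Surjective π) (hQ : Q ≠ ⊥) (hNS : Q.comap π ≤ sx ν)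
    (p : ↥(sx ν) →* K') (hps : Function.Surjective p)
    (hk : ∀ x : sx ν, p x = 1 ↔ (x : L) ∈ Q.comap π) : Nat.card K' < Nat.card K := by
  have e1 : Nat.card p.ker * p.ker.index = Nat.card ↥(sx ν) := Subgroup.card_mul_index _
  have e2 : p.ker.index = Nat.card K' := by
    rw [Subgroup.index_ker]
    exact Nat.card_congr ((Equiv.setCongr (by
      rw [MonoidHom.coe_range]
      exact hps.range_eq)).trans (Equiv.Set.univ K'))
  have e3 : p.ker = (Q.comap π).subgroupOf (sx ν) := by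
    ext x
    rw [MonoidHom.mem_ker, hk, Subgroup.mem_subgroupOf]
  have e4 : Nat.card p.ker = Nat.card π.ker * Nat.card Q := by
    rw [← CLQ.card_comap π hπ Q, e3]
    exact Nat.card_congr (Subgroup.subgroupOfEquivOfLe hNS).toEquiv
  have e5 : Nat.card L = Nat.card π.ker * Nat.card K := by
    have h := CLQ.card_comap π hπ ⊤
    rwa [Subgroup.comap_top, Subgroup.card_top, Subgroup.card_top] at h
  have e6 : Nat.card ↥(sx ν) ≤ Nat.card L := Subgroup.card_le_card_group _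
  have e7 : 1 < Nat.card Q := (Subgroup.one_lt_card_iff_ne_bot Q).2 hQ
  have e8 : 0 < Nat.card π.ker := Nat.card_pos
  have e9 : 0 < Nat.card K' := Nat.card_pos
  rw [← e1, e2, e4, e5, mul_assoc] at e6
  have e10 : Nat.card Q * Nat.card K' ≤ Nat.card K := Nat.le_of_mul_le_mul_left e6 e8
  nlinarith

omit [Fintype L] [Fintype K] [Fintype K'] hp in
/-- The inverse image of the image of `M`. -/
theorem map_eq (hMν : M.comap π ≤ sx ν) (hNS : Q.comap π ≤ sx ν) (p : ↥(sx ν) →* K')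
    (hk : ∀ x : sx ν, p x = 1 ↔ (x : L) ∈ Q.comap π) :
    ((((M.comap (π.comp (sx ν).subtype)).map p).comap p).map (sx ν).subtype) =
      M.comap π ⊔ Q.comap π := by
  apply le_antisymm
  · rintro _ ⟨t, ht, rfl⟩
    obtain ⟨m, hm, hmt⟩ := ht
    have h1 : p (m⁻¹ * t) = 1 := by
      rw [map_mul, map_inv, hmt, inv_mul_cancel]
    have h2 := (hk _).1 h1
    have h3 : (t : L) = (m : L) * ((m⁻¹ * t : ↥(sx ν)) : L) := by
      rw [Subgroup.coe_mul, Subgroup.coe_inv]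
      group
    change (t : L) ∈ _
    rw [h3]
    exact Subgroup.mul_mem_sup hm h2
  · refine sup_le ?_ ?_
    · intro x hx
      exact ⟨⟨x, hMν hx⟩, ⟨⟨x, hMν hx⟩, hx, rfl⟩, rfl⟩
    · intro x hx
      refine ⟨⟨x, hNS hx⟩, ?_, rfl⟩
      change p ⟨x, hNS hx⟩ ∈ (M.comap (π.comp (sx ν).subtype)).map p
      rw [(hk ⟨x, hNS hx⟩).2 hx]
      exact Subgroup.one_mem _

open Classical in
theorem main [Group H] [Finite H] (h1 : Stmt_TWC) (h2 : Stmt_TWN) (h3 : Stmt_TWG)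
    (h4 : Stmt_CHG) (h5 : Stmt_HHS) (h6 : Stmt_DEFM) (hmax : 𝔐.IsMaximal)
    (hℓ : (ℓ : integralClosure ℤ ℂ) ∈ 𝔐) (hπ : Function.Surjective π)
    (hπc : π.ker ≤ Subgroup.center L) (hM : M.Normal) (hQ : Q.Normal) (hQp : IsPGroup ℓ Q)
    (hQM : Q ⊓ M = ⊥) (f : K →* H) (hf : ∀ x, f x = 1 ↔ x ∈ M) (hH : HH ℓ H)
    (hPL : PL ℓ K') (hν : IrrOn (Q.comap π) ν) (hνμ : OvK π μ ν) (hMν : M.comap π ≤ sx ν)
    (p : ↥(sx ν) →* K') (hps : Function.Surjective p)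
    (hk : ∀ x : sx ν, p x = 1 ↔ (x : L) ∈ Q.comap π) (d : ℕ)
    (hCS : CS ℓ M (WN 𝔐 ℓ d π Q M ν ω) ≠ 0) : GdF 𝔐 ℓ π μ M ω := by
  have hNS : Q.comap π ≤ sx ν := le_sx hν
  obtain ⟨c, hcl, hcf⟩ := CQ.exists_act (Q.comap π) (sx ν) hNS p hk
  have hinv : ∀ s n, ν ((c s n : Q.comap π) : L) = ν (n : L) := by
    intro s n
    rw [hcf]
    exact mem_sx.1 s.2 n
  obtain ⟨a, ha⟩ := hν.1.exists_defect (ℓ := ℓ)
  have hID : ID ℓ (Q.comap π) a ν := ⟨hν, ha⟩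
  obtain ⟨Γ, Λ, _, _, _, _, e, q, r, E, U, μν, πν, tw⟩ := h1 ↥(Q.comap π) ↥(sx ν) K'
    (Subgroup.inclusion hNS) c p hcl hps (fun n => ν n) hν.1 hinv
  have hM' : ((M.comap (π.comp (sx ν).subtype)).map p).Normal := (hM.comap _).map p hps
  obtain ⟨M', hM'd⟩ : ∃ M' : Subgroup K', M' = (M.comap (π.comp (sx ν).subtype)).map p :=
    ⟨_, rfl⟩
  rw [← hM'd] at hM'
  -- the functions on the twisted group
  have hG : ∀ g : L, ∃ F : Λ → ℂ, (∀ h l, F (h * l * h⁻¹) = F l) ∧ (∀ l, IsIntegral ℤ (F l)) ∧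
      (∀ l, πν l ∉ M' → F l = 0) ∧ (π g ∉ M → ∀ l, F l = 0) ∧
      (π g ∈ M → ∀ (V : Subgroup K') (ψ : ↥(V.comap p) → ℂ) (η : ↥(V.comap πν) → ℂ),
        IsIrr ψ → IsIrr η → OvL U μν _ η → Cor p q r E πν V ψ η →
        wt ψ (fun y => conjInd (((y : ↥(sx ν)) : L)) g) = wt η (fun l => F l)) := by
    intro g
    by_cases hg : π g ∈ M
    · obtain ⟨F, F1, F2, F3, F4⟩ := h3 ↥(Q.comap π) ↥(sx ν) K' Γ Λ (Subgroup.inclusion hNS) c p
        hcl hps (fun n => ν n) hν.1 hinv e q r E U μν πν tw (fun t => conjInd (t : L) g)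
        (fun s t => conjInd_conj (s : L) (t : L) g) (fun t => isIntegral_conjInd _ _)
      refine ⟨F, F1, F2, fun l hl => F3 l fun t ht => ?_, fun h => absurd hg h, fun _ => F4⟩
      rw [conjInd, if_neg]
      intro hc
      apply hl
      obtain ⟨x, hx⟩ := isConj_iff.1 hc.symm
      rw [← ht, hM'd]
      refine ⟨t, ?_, rfl⟩
      change π (t : L) ∈ M
      rw [← hx, map_mul, map_mul, map_inv]
      exact hM.conj_mem _ hg _
    · exact ⟨fun _ => 0, fun _ _ => rfl, fun _ => isIntegral_zero, fun _ _ => rfl,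
        fun _ _ => rfl, fun h => absurd h hg⟩
  choose F F1 F2 F3 F4 F5 using hG
  have hV : ∀ (V : Subgroup K') (n : Q.comap π), Subgroup.inclusion hNS n ∈ V.comap p := by
    intro V n
    rw [Subgroup.mem_comap, (hk _).2 n.2]
    exact V.one_mem
  rw [CS_eq h4 hπ hπc hM hQM hMν p hps hk d, ← hM'd] at hCS
  -- the defect
  obtain ⟨d', hd'⟩ : ∃ d', d + padicValNat ℓ (Nat.card U) = d' + a := by
    obtain ⟨σ, -, hσ⟩ := Finset.exists_ne_zero_of_sum_ne_zero hCS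
    have hσ1 : WT 𝔐 ℓ d π Q M ν ω ((stb σ).comap p) ≠ 0 := right_ne_zero_of_mul hσ
    unfold WT at hσ1
    have hσ2 := right_ne_zero_of_mul hσ1
    rw [card_transfer 𝔐 ℓ d (sx ν) (Q.comap π) hNS ν ((stb σ).comap p) (hV _)
      (fun g => π g ∈ M) ω] at hσ2
    obtain ⟨⟨ψ, hψ, hip, hψd, -⟩⟩ := (Nat.card_ne_zero.1 (Nat.cast_ne_zero.1 hσ2)).1
    obtain ⟨-, -, -, hex, -, -, hdef, -⟩ := h2 ↥(Q.comap π) ↥(sx ν) K' Γ Λ ℓ
      (Subgroup.inclusion hNS) c p hcl hps (fun n => ν n) hν.1 hinv e q r E U μν πν tw (stb σ)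
    obtain ⟨η, hη, -, hcor⟩ := hex ψ hψ hip
    obtain ⟨d2, hd2⟩ := hη.exists_defect (ℓ := ℓ)
    exact ⟨d2, hdef ψ η a d d2 hη hcor ha hψd hd2⟩
  have hw : ∀ V : Subgroup K', WT 𝔐 ℓ d π Q M ν ω (V.comap p) =
      (Nat.card ↥(Q.comap π) : ℚ) * WC 𝔐 ℓ d' πν (mk πν U μν tw.πk) F
        (fun g => if π g ∈ M then ω g else 0) V := fun V =>
    WT_eq h2 hNS p hps hk c hcl hinv hID tw F F5 F4 _ (fun g hg => if_pos hg)
      (fun g hg => if_neg hg) hd' V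
  have hCS' : CS ℓ M' (WC 𝔐 ℓ d' πν (mk πν U μν tw.πk) F
      (fun g => if π g ∈ M then ω g else 0)) ≠ 0 := by
    intro h0
    apply hCS
    have h10 : CS ℓ M' (fun V => WT 𝔐 ℓ d π Q M ν ω (V.comap p)) =
        (Nat.card ↥(Q.comap π) : ℚ) * CS ℓ M' (WC 𝔐 ℓ d' πν
          (mk πν U μν tw.πk) F (fun g => if π g ∈ M then ω g else 0)) := by
      unfold CS
      rw [Finset.mul_sum]
      refine Finset.sum_congr rfl fun σ _ => ?_
      beta_reduce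
      rw [hw]
      ring
    rw [h10, h0, mul_zero]
  obtain ⟨θ₁, hθ₁, hov₁, hθw⟩ := hPL Λ (K' ⧸ M') L 𝔐 hmax hℓ πν tw.πs
    (fun z hz => tw.Uc ((tw.πk z).1 hz)) (mk πν U μν tw.πk) M' hM'
    (QuotientGroup.mk' M') (fun x => by rw [QuotientGroup.mk'_apply, QuotientGroup.eq_one_iff])
    (hh_quot h5 f hf hH p hps M' hM'd hM') F F1 F2 F3 _ d' hCS'
  -- the corresponding character over `ν`
  obtain ⟨-, -, hex, -, -, -, hdef, -⟩ := h2 ↥(Q.comap π) ↥(sx ν) K' Γ Λ ℓ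
    (Subgroup.inclusion hNS) c p hcl hps (fun n => ν n) hν.1 hinv e q r E U μν πν tw M'
  have hη₁ : OvL U μν _ (fun l : M'.comap πν => θ₁ l) := by
    refine (ovL_iff πν U μν tw.πk M' _).2 ?_
    rw [CLQ.ext0_res hθ₁.1.2]
    exact hov₁
  obtain ⟨ψ₁, hψ₁, hip₁, hcor₁⟩ := hex (fun l => θ₁ l) hθ₁.1.1 hη₁
  obtain ⟨d₁, hd₁⟩ := hψ₁.exists_defect (ℓ := ℓ)
  have hda := hdef ψ₁ _ a d₁ _ hθ₁.1.1 hcor₁ ha hd₁ hθ₁.2
  have hUk : πν.ker = U := by
    ext x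
    exact tw.πk x
  have hd₁a : d₁ = a := by
    rw [hUk] at hda
    omega
  rw [hd₁a] at hd₁
  have hne : Nat.card {ψ : L → ℂ // ID ℓ ((M'.comap p).map (sx ν).subtype) a ψ ∧
      iS (Q.comap π) ψ ν ≠ 0 ∧ ∀ g, π g ∈ M → cgT 𝔐 ⊤ ψ g = ω g} ≠ 0 := by
    rw [card_transfer 𝔐 ℓ a (sx ν) (Q.comap π) hNS ν (M'.comap p) (hV _)
      (fun g => π g ∈ M) ω]
    refine Nat.card_ne_zero.2 ⟨⟨ψ₁, hψ₁, hip₁, hd₁, fun g hg => ?_⟩, ?_⟩
    · rw [F5 g hg M' ψ₁ _ hψ₁ hθ₁.1.1 hη₁ hcor₁]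
      have h10 : red 𝔐 (wS (M'.comap πν) θ₁ (F g)) = ω g := (hθw g).trans (if_pos hg)
      exact h10
    · exact Finite.of_injective (fun x : {ψ : ↥(M'.comap p) → ℂ // IsIrr ψ ∧
        ip (fun a : Q.comap π => ext0 ψ (Subgroup.inclusion hNS a))
          (fun n : Q.comap π => ν n) ≠ 0 ∧ (HasDefect ℓ ψ a ∧
            ∀ g, π g ∈ M → red 𝔐 (wt ψ (fun y => conjInd ((y : sx ν) : L) g)) = ω g)} =>
          (⟨x.1, x.2.1⟩ : {χ : ↥(M'.comap p) → ℂ // IsIrr χ})) (fun x y hxy => by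
            have h10 : (⟨x.1, x.2.1⟩ : {χ : ↥(M'.comap p) → ℂ // IsIrr χ}) = ⟨y.1, y.2.1⟩ :=
              hxy
            exact Subtype.ext (Subtype.mk.inj h10))
  obtain ⟨⟨ψ, hψ, hψν, hψω⟩⟩ := (Nat.card_ne_zero.1 hne).1
  rw [hM'd, map_eq hMν hNS p hk] at hψ
  -- the character of the inverse image of `M`
  have hMn : (M.comap π).Normal := hM.comap π
  obtain ⟨θ, hθ, hψθ⟩ := TYP.exists_under (M.comap π) (M.comap π ⊔ Q.comap π) le_sup_left hψ.1
  have hkM : π.ker ≤ M.comap π := by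
    intro z hz
    rw [Subgroup.mem_comap, MonoidHom.mem_ker.1 hz]
    exact M.one_mem
  have hkQ : π.ker ≤ Q.comap π := by
    intro z hz
    rw [Subgroup.mem_comap, MonoidHom.mem_ker.1 hz]
    exact Q.one_mem
  refine ⟨θ, ?_, ?_, ?_⟩
  · refine h6 L ℓ π.ker (M.comap π) (Q.comap π) hπc hkM hkQ ?_ ?_ ?_ ν ψ θ hMν a hID hψ hψν hθ
      hψθ
    · intro x hx hx'
      rw [MonoidHom.mem_ker]
      have h10 : π x ∈ Q ⊓ M := ⟨hx', hx⟩
      rw [hQM, Subgroup.mem_bot] at h10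
      exact h10
    · intro m hm x hx
      rw [MonoidHom.mem_ker, map_mul, map_mul, map_mul, map_inv, map_inv]
      have h10 : π m * π x * (π m)⁻¹ * (π x)⁻¹ ∈ Q ⊓ M := by
        refine ⟨Q.mul_mem (hQ.conj_mem _ hx _) (Q.inv_mem hx), ?_⟩
        have h11 : π m * π x * (π m)⁻¹ * (π x)⁻¹ = π m * (π x * (π m)⁻¹ * (π x)⁻¹) := by group
        rw [h11]
        exact M.mul_mem hm (hM.conj_mem _ (M.inv_mem hm) _)
      rw [hQM, Subgroup.mem_bot] at h10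
      exact h10
    · intro x hx
      obtain ⟨n, hn⟩ := hQp ⟨π x, hx⟩
      refine ⟨n, ?_⟩
      rw [MonoidHom.mem_ker, map_pow]
      exact congrArg Subtype.val hn
  · have e1 := CLQ.ovK_iff π hπc μ (N := Q.comap π) (S := M.comap π ⊔ Q.comap π)
      le_sup_right hkQ (χ := fun s => ψ s) (θ := fun n => ν n) hψ.1.1 hν.1 hψν
    have e2 := CLQ.ovK_iff π hπc μ (N := M.comap π) (S := M.comap π ⊔ Q.comap π)
      le_sup_left hkM (χ := fun s => ψ s) (θ := fun n => θ n) hψ.1.1 hθ.1 hψθ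
    rw [CLQ.ext0_res hψ.1.2, CLQ.ext0_res hν.2] at e1
    rw [CLQ.ext0_res hψ.1.2, CLQ.ext0_res hθ.2] at e2
    exact e2.1 (e1.2 hνμ)
  · intro g hg
    rw [← hψω g hg, cgT_top 𝔐 hθ.2, cgT_top 𝔐 hψ.1.2]
    have h10 := TYP.wS_normal (M.comap π) (M.comap π ⊔ Q.comap π) le_sup_left
      (fun s _ x hx => hMn.conj_mem x hx s) hψ.1 hθ hψθ (f := fun x => conjInd x g)
      (fun s _ x _ => conjInd_conj s x g) (fun x _ hx => by
        rw [conjInd, if_neg]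
        intro hc
        apply hx
        obtain ⟨y, hy⟩ := isConj_iff.1 hc.symm
        rw [← hy]
        exact hMn.conj_mem g hg y)
    exact congrArg (red 𝔐) h10.symm

end Main

end TWQ

open _root_.Pool.Agent.DPT.TWQ in
theorem TWQ_thm (h1 : Stmt_TWC) (h2 : Stmt_TWN) (h3 : Stmt_TWG) (h4 : Stmt_CHG)
    (h5 : Stmt_HHS) (h6 : Stmt_DEFM) (_h7 : Stmt_SUMM) : Stmt_TWQ := by
  classical
  intro L K H _ _ _ _ _ _ 𝔐 ℓ _ hmax hℓ π hπ hπc μ M Q hM hQ hQp hQne hQM f hf hH hIH ν hν hνμ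
    hMν ω d hCS
  have hn : (Q.comap π).Normal := hQ.comap π
  have hNS : Q.comap π ≤ sx ν := le_sx hν
  have hn' : ((Q.comap π).subgroupOf (sx ν)).Normal := Subgroup.normal_subgroupOf
  have hk : ∀ x : sx ν, QuotientGroup.mk' ((Q.comap π).subgroupOf (sx ν)) x = 1 ↔
      (x : L) ∈ Q.comap π := by
    intro x
    rw [QuotientGroup.mk'_apply, QuotientGroup.eq_one_iff, Subgroup.mem_subgroupOf]
  let hfin : Fintype (↥(sx ν) ⧸ (Q.comap π).subgroupOf (sx ν)) := Fintype.ofFinite _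
  exact main (K' := ↥(sx ν) ⧸ (Q.comap π).subgroupOf (sx ν)) h1 h2 h3 h4 h5 h6 hmax hℓ hπ hπc hM
    hQ hQp hQM f hf hH (hIH _ (card_lt hπ hQne hNS _ (QuotientGroup.mk'_surjective _) hk)) hν hνμ
    hMν (QuotientGroup.mk' ((Q.comap π).subgroupOf (sx ν))) (QuotientGroup.mk'_surjective _) hk d
    hCS

end Pool.Agent.DPT


end

section

/-!
# CBB: a nonvanishing sum gives a character of minimal defect
-/

set_option linter.unusedSectionVars false

namespace Pool.Agent.DPT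

open Pool.Agent.DP Pool.Agent.DPC Pool.Agent.DPM Pool.Agent.DPN Pool.Agent.Lib_helper13
open Representation
open Pool.Agent.Lib_helper13.Dade (pCore DadeHolds dadeSum)

namespace CBB

/-! ### Subgroups of subgroups -/

section Sub

variable {L : Type} [Group L] [Fintype L] {T : Subgroup L}

theorem mem_map_sub {P : Subgroup T} {x : L} :
    x ∈ P.map T.subtype ↔ ∃ h : x ∈ T, (⟨x, h⟩ : T) ∈ P := by
  constructor
  · rintro ⟨t, ht, rfl⟩
    exact ⟨t.2, ht⟩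
  · rintro ⟨h, hp⟩
    exact ⟨⟨x, h⟩, hp, rfl⟩

/-- The subgroup `P` of `T` as a subgroup of the whole group. -/
noncomputable def eP (P : Subgroup T) : P ≃* ↥(P.map T.subtype) :=
  P.equivMapOfInjective T.subtype T.subtype_injective

theorem irrOn_sub {P : Subgroup T} {ψ : L → ℂ} :
    IrrOn (P.map T.subtype) ψ ↔ IrrOn P (fun t : T => ψ t) ∧ ∀ x, x ∉ T → ψ x = 0 := by
  constructor
  · rintro ⟨h1, h2⟩
    refine ⟨⟨h1.comp_mulEquiv (eP P), fun t ht => h2 t ?_⟩, fun x hx => h2 x ?_⟩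
    · intro h
      obtain ⟨h3, h4⟩ := mem_map_sub.mp h
      exact ht h4
    · intro h
      obtain ⟨h3, h4⟩ := mem_map_sub.mp h
      exact hx h3
  · rintro ⟨⟨h1, h2⟩, h3⟩
    refine ⟨?_, fun x hx => ?_⟩
    · have h4 := h1.comp_mulEquiv (eP P).symm
      have h5 : (fun s : ↥(P.map T.subtype) => ψ s) =
          fun s => (fun p : P => ψ ((p : T) : L)) ((eP P).symm s) := by
        funext s
        obtain ⟨p, rfl⟩ := (eP P).surjective s
        rw [MulEquiv.symm_apply_apply]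
        rfl
      rw [h5]
      exact h4
    · by_cases hT : x ∈ T
      · exact h2 ⟨x, hT⟩ fun h => hx (mem_map_sub.mpr ⟨hT, h⟩)
      · exact h3 x hT

theorem id_sub {ℓ d : ℕ} {P : Subgroup T} {ψ : L → ℂ} :
    ID ℓ (P.map T.subtype) d ψ ↔ ID ℓ P d (fun t : T => ψ t) ∧ ∀ x, x ∉ T → ψ x = 0 := by
  have h1 : HasDefect ℓ (fun s : ↥(P.map T.subtype) => ψ s) d ↔
      HasDefect ℓ (fun p : P => ψ ((p : T) : L)) d :=
    (hasDefect_comp_equiv (eP P) (ψ := fun s : ↥(P.map T.subtype) => ψ s)).symm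
  unfold ID
  rw [irrOn_sub, h1]
  tauto

theorem wS_sub (P : Subgroup T) (ψ F : L → ℂ) :
    wS (P.map T.subtype) ψ F = wS P (fun t : T => ψ t) (fun t : T => F t) :=
  (wt_comp_equiv (eP P) (fun s : ↥(P.map T.subtype) => ψ s)
    (fun s : ↥(P.map T.subtype) => F s)).symm

/-- The weight as a sum over the whole group. -/
theorem wS_sum (S : Subgroup L) {ψ F : L → ℂ} (h : ∀ x, x ∉ S → F x * ψ x = 0) :
    wS S ψ F = (∑ x, F x * ψ x) / ψ 1 := by
  classical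
  unfold wS wt
  congr 1
  rw [← Finset.sum_filter_add_sum_filter_not Finset.univ (fun x : L => x ∈ S)
    (fun x => F x * ψ x)]
  rw [Finset.sum_eq_zero (s := Finset.univ.filter fun x : L => ¬ x ∈ S), add_zero]
  · refine (Finset.sum_subtype (Finset.univ.filter fun x : L => x ∈ S) ?_
      (fun x => F x * ψ x)).symm
    intro x
    rw [Finset.mem_filter]
    exact ⟨fun h => h.2, fun h => ⟨Finset.mem_univ _, h⟩⟩
  · intro x hx
    exact h x (Finset.mem_filter.mp hx).2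

theorem cgT_wS (𝔐 : Ideal (integralClosure ℤ ℂ)) (S : Subgroup L) {ψ : L → ℂ}
    (h : ∀ x, x ∉ S → ψ x = 0) (g : L) :
    cgT 𝔐 ⊤ ψ g = red 𝔐 (wS S ψ (fun x => cjT ⊤ x g)) := by
  rw [wS_sum S (F := fun x => cjT ⊤ x g) (fun x hx => by rw [h x hx, mul_zero])]
  rfl

end Sub

/-! ### Characters over the linear character `ν` -/

section Over

variable {L : Type} [Group L] [Fintype L]

/-- A character of `S` over the `S`-invariant linear character `ν` of `A`. -/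
theorem over_mul {A S : Subgroup L} (hAS : A ≤ S) {ν ψ : L → ℂ} (hinv : S ≤ sx ν)
    (hν : ∀ x ∈ A, ∀ y ∈ A, ν (x * y) = ν x * ν y) (hν1 : ν 1 = 1)
    (hn : ∀ s ∈ S, ∀ a ∈ A, s * a * s⁻¹ ∈ A) (hψ : IrrOn S ψ) (hi : iS A ψ ν ≠ 0) :
    ∀ x ∈ A, ∀ t, ψ (x * t) = ν x * ψ t := by
  classical
  have hνne : ∀ x ∈ A, ν x ≠ 0 := by
    intro x hx h0
    have h1 := hν x hx x⁻¹ (A.inv_mem hx)
    rw [mul_inv_cancel, hν1, h0, zero_mul] at h1
    exact one_ne_zero h1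
  -- the linear character
  let lam : A.subgroupOf S →* ℂˣ := MonoidHom.toHomUnits
    { toFun := fun a => ν ((a : S) : L)
      map_one' := hν1
      map_mul' := fun a b => hν _ (Subgroup.mem_subgroupOf.mp a.2) _
        (Subgroup.mem_subgroupOf.mp b.2) }
  have hlam : ∀ a : A.subgroupOf S, ((lam a : ℂˣ) : ℂ) = ν ((a : S) : L) := fun a => rfl
  obtain ⟨n, ρ, hρ, hch⟩ := hψ.1
  have hχ : ∀ s : S, ρ.character s = ψ s := fun s => congrFun hch s
  -- the projection commutes with the group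
  have hcomm : ∀ (g : S) (x : Fin n → ℂ), DETL.pr lam ρ (ρ g x) = ρ g (DETL.pr lam ρ x) := by
    intro g x
    have h1 : DETL.pr lam ρ * ρ g = ρ g * DETL.pr lam ρ := by
      unfold DETL.pr
      rw [smul_mul_assoc, mul_smul_comm, Finset.sum_mul, Finset.mul_sum]
      congr 1
      let e : A.subgroupOf S ≃ A.subgroupOf S :=
        { toFun := fun a => ⟨g⁻¹ * a * g, by
            rw [Subgroup.mem_subgroupOf]
            have := hn (g : L)⁻¹ (S.inv_mem g.2) _ (Subgroup.mem_subgroupOf.mp a.2)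
            rw [inv_inv] at this
            exact this⟩
          invFun := fun a => ⟨g * a * g⁻¹, by
            rw [Subgroup.mem_subgroupOf]
            exact hn (g : L) g.2 _ (Subgroup.mem_subgroupOf.mp a.2)⟩
          left_inv := fun a => Subtype.ext (by
            change g * (g⁻¹ * a * g) * g⁻¹ = a
            group)
          right_inv := fun a => Subtype.ext (by
            change g⁻¹ * (g * a * g⁻¹) * g = a
            group) }
      refine Fintype.sum_equiv e _ _ fun a => ?_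
      rw [smul_mul_assoc, mul_smul_comm, ← map_mul, ← map_mul]
      have h2 : (a : S) * g = g * (e a : S) := by
        change (a : S) * g = g * (g⁻¹ * a * g)
        group
      have h3 : lam (e a) = lam a := by
        apply Units.ext
        rw [hlam, hlam]
        have h4 := mem_sx.mp (hinv (S.inv_mem g.2)) ((a : S) : L)
        rw [inv_inv] at h4
        exact h4
      rw [h2, h3]
    exact congrArg (fun f : (Fin n → ℂ) →ₗ[ℂ] (Fin n → ℂ) => f x) h1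
  obtain ⟨c, hc⟩ := exists_scalar ρ hρ (DETL.pr lam ρ) hcomm
  -- the trace of the projection
  have htr : LinearMap.trace ℂ _ (DETL.pr lam ρ) = iS A ψ ν := by
    unfold DETL.pr iS ip
    rw [map_smul, map_sum, smul_eq_mul, mul_comm, ← div_eq_mul_inv,
      Nat.card_congr (Subgroup.subgroupOfEquivOfLe hAS).toEquiv]
    congr 1
    refine Fintype.sum_equiv (Subgroup.subgroupOfEquivOfLe hAS).toEquiv _ _ fun a => ?_
    rw [map_smul, smul_eq_mul]
    have h1 : LinearMap.trace ℂ (Fin n → ℂ) (ρ (a : S)) = ψ ((a : S) : L) := hχ a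
    rw [h1, mul_comm]
    have h2 : (((lam a)⁻¹ : ℂˣ) : ℂ) = ν ((a : S) : L)⁻¹ := by
      rw [← map_inv, hlam]
      rfl
    rw [h2]
    rfl
  have hc0 : c ≠ 0 := by
    rintro rfl
    apply hi
    rw [← htr, hc, zero_smul, map_zero]
  have hsc : ∀ a : A.subgroupOf S, ρ (a : S) = ((lam a : ℂˣ) : ℂ) • (1 : (Fin n → ℂ) →ₗ[ℂ] _) := by
    intro a
    have h1 := DETL.mul_pr lam ρ a
    rw [hc] at h1
    have h2 : ρ (a : S) * (c • LinearMap.id : (Fin n → ℂ) →ₗ[ℂ] (Fin n → ℂ)) =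
        c • ρ (a : S) := by
      rw [mul_smul_comm]
      rfl
    rw [h2, smul_comm] at h1
    exact smul_right_injective _ hc0 h1
  intro x hx t
  by_cases ht : t ∈ S
  · have h1 := hχ (⟨x, hAS hx⟩ * ⟨t, ht⟩)
    have h2 : ψ (x * t) = ρ.character (⟨x, hAS hx⟩ * ⟨t, ht⟩) := h1.symm
    have h3 : ρ (⟨x, hAS hx⟩ * ⟨t, ht⟩ : S) = ν x • ρ (⟨t, ht⟩ : S) := by
      rw [map_mul, hsc ⟨⟨x, hAS hx⟩, Subgroup.mem_subgroupOf.mpr hx⟩, hlam, smul_mul_assoc,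
        one_mul]
    rw [h2]
    change LinearMap.trace ℂ _ (ρ (⟨x, hAS hx⟩ * ⟨t, ht⟩ : S)) = _
    rw [h3, map_smul, smul_eq_mul]
    have h4 : LinearMap.trace ℂ (Fin n → ℂ) (ρ (⟨t, ht⟩ : S)) = ψ t := hχ ⟨t, ht⟩
    rw [h4]
  · have h1 : x * t ∉ S := fun h => ht ((S.mul_mem_cancel_left (hAS hx)).mp h)
    rw [hψ.2 t ht, hψ.2 _ h1, mul_zero]

theorem iS_of_mul {A : Subgroup L} {ν ψ : L → ℂ}
    (hν : ∀ x ∈ A, ∀ y ∈ A, ν (x * y) = ν x * ν y) (hν1 : ν 1 = 1)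
    (h : ∀ x ∈ A, ∀ t, ψ (x * t) = ν x * ψ t) : iS A ψ ν = ψ 1 := by
  unfold iS ip
  have h1 : ∀ a : A, ψ (a : L) * ν ((a⁻¹ : A) : L) = ψ 1 := by
    intro a
    have h2 := h a a.2 1
    rw [mul_one] at h2
    have h3 := hν a a.2 (a : L)⁻¹ (A.inv_mem a.2)
    rw [mul_inv_cancel, hν1] at h3
    rw [h2, Subgroup.coe_inv]
    calc ν a * ψ 1 * ν (a : L)⁻¹ = (ν a * ν (a : L)⁻¹) * ψ 1 := by ring
      _ = ψ 1 := by rw [← h3, one_mul]
  rw [Finset.sum_congr rfl fun a _ => h1 a, Finset.sum_const, nsmul_eq_mul, Finset.card_univ,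
    ← Nat.card_eq_fintype_card, mul_comm, mul_div_assoc, div_self natCard_ne_zero, mul_one]

end Over

/-! ### The quotients -/

/-- The quotients of `T` by the kernel of `ν` and by the inverse image of `Q`. -/
structure QD {L K L2 K2 : Type} [Group L] [Group K] [Group L2] [Group K2] (π : L →* K)
    (Q : Subgroup K) (ν : L → ℂ) (T : Subgroup L) (q : T →* L2) (κ : T →* K2)
    (π2 : L2 →* K2) (ν2 : π2.ker →* ℂˣ) : Prop where
  qs : Function.Surjective q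
  κs : Function.Surjective κ
  comp : ∀ t, π2 (q t) = κ t
  κk : ∀ t : T, κ t = 1 ↔ π t ∈ Q
  qk : ∀ t : T, q t = 1 ↔ π t ∈ Q ∧ ν t = 1
  cen : π2.ker ≤ Subgroup.center L2
  lm : ∀ (t : T) (h : q t ∈ π2.ker), ((ν2 ⟨q t, h⟩ : ℂˣ) : ℂ) = ν t

section Quot

variable {L K : Type} [Group L] [Group K] {ℓ : ℕ} {π : L →* K} {μ : π.ker →* ℂˣ}
  {Q M M₀ : Subgroup K} {ν : L → ℂ}

/-- The kernel of `ν`. -/
def Q0 [Finite L] (h : LN ℓ π μ Q M M₀ ν) (T : Subgroup L) : Subgroup T where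
  carrier := {t | π t ∈ Q ∧ ν t = 1}
  one_mem' := ⟨by rw [Subgroup.coe_one, map_one]; exact Q.one_mem, h.lin⟩
  mul_mem' := by
    rintro x y ⟨hx, hx'⟩ ⟨hy, hy'⟩
    refine ⟨by rw [Subgroup.coe_mul, map_mul]; exact Q.mul_mem hx hy, ?_⟩
    change ν ((x : L) * y) = 1
    rw [(CAX.mul_nu h hx hy).1, hx', hy', mul_one]
  inv_mem' := by
    rintro x ⟨hx, hx'⟩
    have hi : π (x : L)⁻¹ ∈ Q := by
      rw [map_inv]
      exact Q.inv_mem hx
    refine ⟨hi, ?_⟩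
    have h1 := (CAX.mul_nu h hx hi).1
    rw [mul_inv_cancel, h.lin, hx', one_mul] at h1
    exact h1.symm

theorem exists_QD [Finite L] (h : LN ℓ π μ Q M M₀ ν) {T : Subgroup L} (hT : T ≤ sx ν) :
    ∃ (L2 K2 : Type) (_ : Group L2) (_ : Fintype L2) (_ : Group K2) (_ : Fintype K2)
      (q : T →* L2) (κ : T →* K2) (π2 : L2 →* K2) (ν2 : π2.ker →* ℂˣ),
      QD π Q ν T q κ π2 ν2 := by
  have hn1 : (Q0 h T).Normal := by
    constructor
    rintro x ⟨hx, hx'⟩ g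
    refine ⟨?_, ?_⟩
    · change π ((g : L) * x * (g : L)⁻¹) ∈ Q
      rw [map_mul, map_mul, map_inv]
      exact h.Qn.conj_mem _ hx _
    · change ν ((g : L) * x * (g : L)⁻¹) = 1
      rw [mem_sx.1 (hT g.2), hx']
  have hn2 : (Q.comap (π.comp T.subtype)).Normal := h.Qn.comap _
  let q : T →* T ⧸ Q0 h T := QuotientGroup.mk' _
  let κ : T →* T ⧸ Q.comap (π.comp T.subtype) := QuotientGroup.mk' _
  have hκ1 : ∀ t, κ t = 1 ↔ π t ∈ Q := fun t => QuotientGroup.eq_one_iff t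
  have hq1 : ∀ t, q t = 1 ↔ t ∈ Q0 h T := fun t => QuotientGroup.eq_one_iff t
  let π2 : T ⧸ Q0 h T →* T ⧸ Q.comap (π.comp T.subtype) :=
    QuotientGroup.lift (Q0 h T) κ (by
      intro t ht
      exact (hκ1 _).2 ht.1)
  have hqs : Function.Surjective q := QuotientGroup.mk'_surjective _
  have hkq : ∀ t : T, π2 (q t) = κ t := fun t => rfl
  have hwd : ∀ t t' : T, π t ∈ Q → π t' ∈ Q → q t = q t' → ν t = ν t' := by
    intro t t' ht ht' he
    have h1 : q (t⁻¹ * t') = 1 := by rw [map_mul, map_inv, he, inv_mul_cancel]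
    have h2 := ((hq1 _).1 h1)
    have h3 : ν ((t : L) * ((t⁻¹ * t' : T) : L)) = ν t * ν ((t⁻¹ * t' : T) : L) :=
      (CAX.mul_nu h ht h2.1).1
    have h4 : (t : L) * ((t⁻¹ * t' : T) : L) = t' := by
      rw [Subgroup.coe_mul, Subgroup.coe_inv]; group
    rw [h4, h2.2, mul_one] at h3
    exact h3.symm
  have hmemQ : ∀ t : T, q t ∈ π2.ker → π t ∈ Q := by
    intro t ht
    rw [MonoidHom.mem_ker, hkq] at ht
    exact (hκ1 _).1 ht
  have hex : ∀ z : π2.ker, ∃ t : T, q t = (z : T ⧸ Q0 h T) := fun z => hqs z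
  choose s hs using hex
  have hsQ : ∀ z : π2.ker, π ((s z : T) : L) ∈ Q := by
    intro z
    apply hmemQ
    rw [hs]
    exact z.2
  let f : π2.ker →* ℂ :=
    { toFun := fun z => ν (s z)
      map_one' := by
        have h1 : ν ((s 1 : T) : L) = ν ((1 : T) : L) :=
          hwd _ _ (hsQ 1) (by rw [Subgroup.coe_one, map_one]; exact Q.one_mem)
            (by rw [hs, map_one]; rfl)
        rw [h1]
        exact h.lin
      map_mul' := by
        intro a b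
        have h1 : ν ((s (a * b) : T) : L) = ν ((s a * s b : T) : L) :=
          hwd _ _ (hsQ _) (by rw [Subgroup.coe_mul, map_mul]; exact Q.mul_mem (hsQ a) (hsQ b))
            (by rw [hs, map_mul, hs, hs]; rfl)
        rw [h1, Subgroup.coe_mul, (CAX.mul_nu h (hsQ a) (hsQ b)).1] }
  refine ⟨T ⧸ Q0 h T, T ⧸ Q.comap (π.comp T.subtype), inferInstance, Fintype.ofFinite _,
    inferInstance, Fintype.ofFinite _, q, κ, π2, f.toHomUnits, ?_⟩
  refine ⟨hqs, QuotientGroup.mk'_surjective _, hkq, hκ1, fun t => hq1 t, ?_, ?_⟩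
  · intro z hz
    rw [Subgroup.mem_center_iff]
    intro y
    obtain ⟨x, rfl⟩ := hqs z
    obtain ⟨t, rfl⟩ := hqs y
    have hx := hmemQ x hz
    rw [← map_mul, ← map_mul]
    have hxi : π (x : L)⁻¹ ∈ Q := by
      rw [map_inv]
      exact Q.inv_mem hx
    have h1 : q ((x * t)⁻¹ * (t * x)) = 1 := by
      rw [hq1]
      have hy : π ((t : L)⁻¹ * (x : L)⁻¹ * (t : L)⁻¹⁻¹) ∈ Q := by
        have h9 := h.Qn.conj_mem _ hxi (π (t : L)⁻¹)
        rw [← map_inv π (t : L)⁻¹, ← map_mul, ← map_mul] at h9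
        exact h9
      have he : (((x * t)⁻¹ * (t * x) : T) : L) =
          ((t : L)⁻¹ * (x : L)⁻¹ * (t : L)⁻¹⁻¹) * x := by
        simp only [Subgroup.coe_mul, Subgroup.coe_inv]; group
      constructor
      · rw [he, map_mul]
        exact Q.mul_mem hy hx
      · rw [he, (CAX.mul_nu h hy hx).1, mem_sx.1 ((sx ν).inv_mem (hT t.2))]
        rw [← (CAX.mul_nu h hxi hx).1, inv_mul_cancel, h.lin]
    rw [map_mul, map_inv, inv_mul_eq_one] at h1
    exact h1.symm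
  · intro t ht
    rw [MonoidHom.coe_toHomUnits]
    change ν ((s ⟨q t, ht⟩ : T) : L) = ν t
    exact hwd _ _ (hsQ _) (hmemQ t ht) (hs _)

end Quot

/-! ### Inflation -/

section Infl

variable {X Y : Type} [Group X] [Fintype X] [Group Y] [Fintype Y] {q : X →* Y}

theorem subgroupComap_surj (hq : Function.Surjective q) (P : Subgroup Y) :
    Function.Surjective (q.subgroupComap P) := by
  rintro ⟨y, hy⟩
  obtain ⟨x, rfl⟩ := hq y
  exact ⟨⟨x, hy⟩, rfl⟩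

theorem irrOn_comap (hq : Function.Surjective q) (P : Subgroup Y) {θ : Y → ℂ} :
    IrrOn (P.comap q) (fun t => θ (q t)) ↔ IrrOn P θ := by
  constructor
  · rintro ⟨h1, h2⟩
    refine ⟨?_, fun y hy => ?_⟩
    · obtain ⟨η, h3, h4⟩ := QINF.exists_inf (q.subgroupComap P) (subgroupComap_surj hq P) h1 (by
        intro x y hx
        have h5 : q (x : X) = 1 := congrArg Subtype.val hx
        change θ (q ((x : X) * y)) = θ (q y)
        rw [map_mul, h5, one_mul])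
      have h6 : (fun s : P => θ s) = η := by
        funext s
        obtain ⟨t, rfl⟩ := subgroupComap_surj hq P s
        exact congrFun h4 t
      rw [h6]
      exact h3
    · obtain ⟨x, rfl⟩ := hq y
      exact h2 x hy
  · rintro ⟨h1, h2⟩
    exact ⟨MLV.isIrr_surj (q.subgroupComap P) (subgroupComap_surj hq P) h1, fun x hx => h2 _ hx⟩

theorem hd_comap {ℓ d : ℕ} [Fact ℓ.Prime] (hq : Function.Surjective q) (P : Subgroup Y)
    {θ : Y → ℂ} : HasDefect ℓ (fun t : ↥(P.comap q) => θ (q t)) (d + padicValNat ℓ (Nat.card q.ker))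
      ↔ HasDefect ℓ (fun s : P => θ s) d := by
  unfold HasDefect
  have h0 : (fun t : ↥(P.comap q) => θ (q t)) 1 = (fun s : P => θ s) 1 := by
    change θ (q 1) = θ 1
    rw [map_one]
  have h1 : padicValNat ℓ (Nat.card ↥(P.comap q)) =
      padicValNat ℓ (Nat.card q.ker) + padicValNat ℓ (Nat.card P) := by
    rw [DEFR.card_comap q P (fun y _ => hq y), padicValNat.mul Nat.card_pos.ne' Nat.card_pos.ne']
  rw [h1, h0]
  constructor
  · rintro ⟨n, h2, h3⟩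
    exact ⟨n, h2, by omega⟩
  · rintro ⟨n, h2, h3⟩
    exact ⟨n, h2, by omega⟩

theorem id_comap {ℓ d : ℕ} [Fact ℓ.Prime] (hq : Function.Surjective q) (P : Subgroup Y)
    {θ : Y → ℂ} : ID ℓ (P.comap q) (d + padicValNat ℓ (Nat.card q.ker)) (fun t => θ (q t)) ↔
      ID ℓ P d θ := by
  unfold ID
  rw [irrOn_comap hq P, hd_comap hq P]

end Infl

section QDs

variable {L K L2 K2 : Type} [Group L] [Fintype L] [Group K] [Group L2] [Fintype L2]
  [Group K2] [Fintype K2] {ℓ : ℕ} {π : L →* K} {μ : π.ker →* ℂˣ} {Q M M₀ : Subgroup K}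
  {ν : L → ℂ} {T : Subgroup L} {q : T →* L2} {κ : T →* K2} {π2 : L2 →* K2}
  {ν2 : π2.ker →* ℂˣ}

/-- Inflation to functions on the whole group. -/
noncomputable def E (q : T →* L2) (θ : L2 → ℂ) : L → ℂ := ext0 (fun t : T => θ (q t))

theorem E_mem (q : T →* L2) (θ : L2 → ℂ) (t : T) : E q θ t = θ (q t) := ext0_of_mem _ t.2

theorem E_mem' (q : T →* L2) (θ : L2 → ℂ) {x : L} (hx : x ∈ T) : E q θ x = θ (q ⟨x, hx⟩) :=
  ext0_of_mem _ hx

theorem E_not (q : T →* L2) (θ : L2 → ℂ) {x : L} (hx : x ∉ T) : E q θ x = 0 :=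
  ext0_of_not_mem _ hx

theorem E_coe (q : T →* L2) (θ : L2 → ℂ) : (fun t : T => E q θ t) = fun t => θ (q t) :=
  DZA.ext0_coe _

theorem E_one (q : T →* L2) (θ : L2 → ℂ) : E q θ 1 = θ 1 := by
  rw [E_mem' q θ T.one_mem]
  exact congrArg θ (map_one q)

theorem comap_eq (h : QD π Q ν T q κ π2 ν2) (S2 : Subgroup K2) :
    S2.comap κ = (S2.comap π2).comap q := by
  ext t
  rw [Subgroup.mem_comap, Subgroup.mem_comap, Subgroup.mem_comap, h.comp]

theorem E_irr (h : QD π Q ν T q κ π2 ν2) (S2 : Subgroup K2) {θ : L2 → ℂ} :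
    IrrOn ((S2.comap κ).map T.subtype) (E q θ) ↔ IrrOn (S2.comap π2) θ := by
  rw [irrOn_sub, E_coe, comap_eq h, irrOn_comap h.qs]
  exact ⟨fun h => h.1, fun h => ⟨h, fun x hx => E_not q θ hx⟩⟩

theorem E_id {d : ℕ} [Fact ℓ.Prime] (h : QD π Q ν T q κ π2 ν2) (S2 : Subgroup K2) {θ : L2 → ℂ} :
    ID ℓ ((S2.comap κ).map T.subtype) (d + padicValNat ℓ (Nat.card q.ker)) (E q θ) ↔
      ID ℓ (S2.comap π2) d θ := by
  rw [id_sub, E_coe, comap_eq h, id_comap h.qs]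
  exact ⟨fun h => h.1, fun h => ⟨h, fun x hx => E_not q θ hx⟩⟩

theorem E_ov (h : QD π Q ν T q κ π2 ν2) (hQT : Q.comap π ≤ T) {θ : L2 → ℂ} :
    OvK π2 ν2 θ ↔ ∀ x ∈ Q.comap π, ∀ t, E q θ (x * t) = ν x * E q θ t := by
  constructor
  · intro hO x hx t
    by_cases ht : t ∈ T
    · have hz : q ⟨x, hQT hx⟩ ∈ π2.ker := by
        rw [MonoidHom.mem_ker, h.comp]
        exact (h.κk _).mpr hx
      have h1 := hO ⟨q ⟨x, hQT hx⟩, hz⟩ (q ⟨t, ht⟩)
      rw [h.lm ⟨x, hQT hx⟩ hz] at h1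
      rw [E_mem' q θ (T.mul_mem (hQT hx) ht), E_mem' q θ ht]
      change θ (q (⟨x, hQT hx⟩ * ⟨t, ht⟩)) = _
      rw [map_mul]
      exact h1
    · rw [E_not q θ ht, E_not q θ (fun h' => ht ((T.mul_mem_cancel_left (hQT hx)).mp h')),
        mul_zero]
  · intro hE z y
    obtain ⟨x, hx⟩ := h.qs (z : L2)
    obtain ⟨t, rfl⟩ := h.qs y
    have hxQ : (x : L) ∈ Q.comap π := by
      have h1 : κ x = 1 := by
        rw [← h.comp, hx]
        exact z.2
      exact (h.κk x).mp h1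
    have hz : q x ∈ π2.ker := by
      rw [hx]
      exact z.2
    have h1 := hE x hxQ t
    have h2 : (⟨q x, hz⟩ : π2.ker) = z := Subtype.ext hx
    have h3 := h.lm x hz
    rw [h2] at h3
    rw [← hx, h3, ← map_mul, ← E_mem q θ t, ← E_mem q θ (x * t)]
    exact h1

/-- The functions which are inflated. -/
theorem exists_E (h : QD π Q ν T q κ π2 ν2) {ψ : L → ℂ}
    (h0 : ∀ x, x ∉ T → ψ x = 0) (hm : ∀ x ∈ Q.comap π, ∀ t, ψ (x * t) = ν x * ψ t) :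
    ∃ θ : L2 → ℂ, ψ = E q θ := by
  choose s hs using h.qs
  refine ⟨fun y => ψ (s y), ?_⟩
  funext x
  by_cases hx : x ∈ T
  · rw [E_mem' q _ hx]
    have h1 : q (⟨x, hx⟩ * (s (q ⟨x, hx⟩))⁻¹) = 1 := by
      rw [map_mul, map_inv, hs, mul_inv_cancel]
    obtain ⟨h2, h3⟩ := (h.qk _).mp h1
    have h4 := hm _ h2 (s (q ⟨x, hx⟩))
    rw [h3, one_mul] at h4
    rw [← h4]
    congr 1
    rw [Subgroup.coe_mul, Subgroup.coe_inv, inv_mul_cancel_right]
  · rw [h0 x hx, E_not q _ hx]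

theorem E_inj (h : QD π Q ν T q κ π2 ν2) {θ θ' : L2 → ℂ} (he : E q θ = E q θ') : θ = θ' := by
  funext y
  obtain ⟨t, rfl⟩ := h.qs y
  rw [← E_mem q θ, ← E_mem q θ', he]

/-- `Q̂` is contained in the inverse images. -/
theorem le_map (h : QD π Q ν T q κ π2 ν2) (hQT : Q.comap π ≤ T) (S2 : Subgroup K2) :
    Q.comap π ≤ (S2.comap κ).map T.subtype := by
  intro x hx
  refine mem_map_sub.mpr ⟨hQT hx, ?_⟩
  rw [Subgroup.mem_comap, (h.κk ⟨x, hQT hx⟩).mpr hx]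
  exact S2.one_mem

theorem E_of_over (hLN : LN ℓ π μ Q M M₀ ν) (h : QD π Q ν T q κ π2 ν2) (hQT : Q.comap π ≤ T)
    (hT : T ≤ sx ν) (S2 : Subgroup K2) {ψ : L → ℂ}
    (hψ : IrrOn ((S2.comap κ).map T.subtype) ψ) (hi : iS (Q.comap π) ψ ν ≠ 0) :
    ∃ θ : L2 → ℂ, ψ = E q θ ∧ OvK π2 ν2 θ := by
  have hST : (S2.comap κ).map T.subtype ≤ T := by
    intro x hx
    exact (mem_map_sub.mp hx).1
  have hm := over_mul (le_map h hQT S2) (hST.trans hT)
    (fun x hx y hy => (CAX.mul_nu hLN hx hy).1) hLN.lin (by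
      intro s _ a ha
      rw [Subgroup.mem_comap] at ha ⊢
      rw [map_mul, map_mul, map_inv]
      exact hLN.Qn.conj_mem _ ha _) hψ hi
  obtain ⟨θ, rfl⟩ := exists_E h (fun x hx => hψ.2 x fun h' => hx (hST h')) hm
  exact ⟨θ, rfl, (E_ov h hQT).mpr hm⟩

theorem iS_E (hLN : LN ℓ π μ Q M M₀ ν) (h : QD π Q ν T q κ π2 ν2) (hQT : Q.comap π ≤ T)
    {θ : L2 → ℂ} (hO : OvK π2 ν2 θ) : iS (Q.comap π) (E q θ) ν = θ 1 := by
  rw [iS_of_mul (fun x hx y hy => (CAX.mul_nu hLN hx hy).1) hLN.lin ((E_ov h hQT).mp hO), E_one]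

/-- The numbers of characters. -/
theorem card_E [Fact ℓ.Prime] (hLN : LN ℓ π μ Q M M₀ ν) (h : QD π Q ν T q κ π2 ν2)
    (hQT : Q.comap π ≤ T) (hT : T ≤ sx ν) (S2 : Subgroup K2) {d d2 : ℕ}
    (hd : d = d2 + padicValNat ℓ (Nat.card q.ker)) (P1 : (L → ℂ) → Prop) (P2 : (L2 → ℂ) → Prop)
    (hP : ∀ θ, IrrOn (S2.comap π2) θ → (P1 (E q θ) ↔ P2 θ)) :
    Nat.card {ψ : L → ℂ // ID ℓ ((S2.comap κ).map T.subtype) d ψ ∧ iS (Q.comap π) ψ ν ≠ 0 ∧
      P1 ψ} =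
    Nat.card {ψ : L2 → ℂ // ID ℓ (S2.comap π2) d2 ψ ∧ OvK π2 ν2 ψ ∧ P2 ψ} := by
  subst hd
  symm
  let f : {ψ : L2 → ℂ // ID ℓ (S2.comap π2) d2 ψ ∧ OvK π2 ν2 ψ ∧ P2 ψ} →
      {ψ : L → ℂ // ID ℓ ((S2.comap κ).map T.subtype) (d2 + padicValNat ℓ (Nat.card q.ker)) ψ ∧
        iS (Q.comap π) ψ ν ≠ 0 ∧ P1 ψ} := fun ψ =>
    ⟨E q ψ.1, (E_id h S2).mpr ψ.2.1, by
      rw [iS_E hLN h hQT ψ.2.2.1]
      exact ψ.2.1.1.1.one_ne_zero, (hP _ ψ.2.1.1).mpr ψ.2.2.2⟩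
  refine Nat.card_congr (Equiv.ofBijective f ⟨?_, ?_⟩)
  · intro ψ ψ' he
    exact Subtype.ext (E_inj h (congrArg Subtype.val he))
  · rintro ⟨ψ, h1, h2, h3⟩
    obtain ⟨θ, rfl, hO⟩ := E_of_over hLN h hQT hT S2 h1.1 h2
    have h4 := (E_id h S2).mp h1
    exact ⟨⟨θ, h4, hO, (hP _ h4.1).mp h3⟩, rfl⟩

/-- The weights. -/
theorem wS_E (h : QD π Q ν T q κ π2 ν2) (S2 : Subgroup K2) (θ : L2 → ℂ) (F : L → ℂ) :
    wS ((S2.comap κ).map T.subtype) (E q θ) F =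
      wS (S2.comap π2) θ (pu q (fun t : T => F t)) := by
  rw [wS_sub, E_coe, comap_eq h, MLV.wS_pu]

end QDs

/-! ### The character of the inverse image of `C` -/

section Fin

variable {L K L2 K2 : Type} [Group L] [Fintype L] [Group K] [Fintype K] [Group L2] [Fintype L2]
  [Group K2] [Fintype K2] {ℓ : ℕ} {π : L →* K} {μ : π.ker →* ℂˣ} {Q M M₀ : Subgroup K}
  {ν : L → ℂ} {T : Subgroup L} {q : T →* L2} {κ : T →* K2} {π2 : L2 →* K2}
  {ν2 : π2.ker →* ℂˣ}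

/-- The members of the image of `Ĉ`. -/
theorem mem_C2 (h : QD π Q ν T q κ π2 ν2) {C : Subgroup K} {C2 : Subgroup K2}
    (hC2 : C2 = (C.comap (π.comp T.subtype)).map κ) (t : T) :
    κ t ∈ C2 ↔ ∃ c x : T, π c ∈ C ∧ π x ∈ Q ∧ t = c * x := by
  rw [hC2]
  constructor
  · rintro ⟨c, hc, hct⟩
    refine ⟨c, c⁻¹ * t, hc, ?_, by group⟩
    apply (h.κk _).mp
    rw [map_mul, map_inv, ← hct, inv_mul_cancel]
  · rintro ⟨c, x, hc, hx, rfl⟩
    refine ⟨c, hc, ?_⟩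
    rw [map_mul, (h.κk x).mpr hx, mul_one]

theorem mem_q (h : QD π Q ν T q κ π2 ν2) {C : Subgroup K} {C2 : Subgroup K2}
    (hC2 : C2 = (C.comap (π.comp T.subtype)).map κ) {t : T} (ht : π t ∈ C) :
    q t ∈ C2.comap π2 := by
  rw [Subgroup.mem_comap, h.comp, mem_C2 h hC2]
  exact ⟨t, 1, ht, by rw [Subgroup.coe_one, map_one]; exact Q.one_mem, by group⟩

theorem mem_q' (h : QD π Q ν T q κ π2 ν2) {C : Subgroup K} {C2 : Subgroup K2}
    (hC2 : C2 = (C.comap (π.comp T.subtype)).map κ) {t : T} (ht : π t ∈ Q) :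
    q t ∈ C2.comap π2 := by
  rw [Subgroup.mem_comap, h.comp, mem_C2 h hC2]
  exact ⟨1, t, by rw [Subgroup.coe_one, map_one]; exact C.one_mem, ht, by group⟩

/-- The homomorphism from `Ĉ × Q̂`. -/
noncomputable def hm (h : QD π Q ν T q κ π2 ν2) {C : Subgroup K} (hCT : C.comap π ≤ T)
    (hQT : Q.comap π ≤ T) {C2 : Subgroup K2} (hC2 : C2 = (C.comap (π.comp T.subtype)).map κ)
    (hcm : ∀ m x, π m ∈ C → π x ∈ Q → m * x = x * m) :
    ↥(C.comap π) × ↥(Q.comap π) →* ↥(C2.comap π2) where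
  toFun p := ⟨q ⟨p.1, hCT p.1.2⟩ * q ⟨p.2, hQT p.2.2⟩,
    (C2.comap π2).mul_mem (mem_q h hC2 p.1.2) (mem_q' h hC2 p.2.2)⟩
  map_one' := by
    apply Subtype.ext
    change q 1 * q 1 = 1
    rw [map_one, one_mul]
  map_mul' := by
    intro a b
    apply Subtype.ext
    change q (⟨a.1, hCT a.1.2⟩ * ⟨b.1, hCT b.1.2⟩) * q (⟨a.2, hQT a.2.2⟩ * ⟨b.2, hQT b.2.2⟩) =
      q ⟨a.1, hCT a.1.2⟩ * q ⟨a.2, hQT a.2.2⟩ * (q ⟨b.1, hCT b.1.2⟩ * q ⟨b.2, hQT b.2.2⟩)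
    have h1 : q ⟨a.2, hQT a.2.2⟩ * q ⟨b.1, hCT b.1.2⟩ =
        q ⟨b.1, hCT b.1.2⟩ * q ⟨a.2, hQT a.2.2⟩ := by
      rw [← map_mul, ← map_mul]
      congr 1
      exact Subtype.ext (hcm _ _ b.1.2 a.2.2).symm
    rw [map_mul, map_mul, mul_assoc, mul_assoc, ← mul_assoc (q ⟨b.1, _⟩), ← h1, mul_assoc]

theorem hm_surj (h : QD π Q ν T q κ π2 ν2) {C : Subgroup K} (hCT : C.comap π ≤ T)
    (hQT : Q.comap π ≤ T) {C2 : Subgroup K2} (hC2 : C2 = (C.comap (π.comp T.subtype)).map κ)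
    (hcm : ∀ m x, π m ∈ C → π x ∈ Q → m * x = x * m) :
    Function.Surjective (hm h hCT hQT hC2 hcm) := by
  rintro ⟨y, hy⟩
  obtain ⟨t, rfl⟩ := h.qs y
  rw [Subgroup.mem_comap, h.comp, mem_C2 h hC2] at hy
  obtain ⟨c, x, hc, hx, rfl⟩ := hy
  refine ⟨(⟨c, hc⟩, ⟨x, hx⟩), Subtype.ext ?_⟩
  change q c * q x = q (c * x)
  rw [map_mul]

theorem irr_C (hLN : LN ℓ π μ Q M M₀ ν) (h : QD π Q ν T q κ π2 ν2) {C : Subgroup K}
    (hCT : C.comap π ≤ T)
    (hQT : Q.comap π ≤ T) {C2 : Subgroup K2} (hC2 : C2 = (C.comap (π.comp T.subtype)).map κ)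
    (hcm : ∀ m x, π m ∈ C → π x ∈ Q → m * x = x * m) {θ : L2 → ℂ}
    (hθ : IrrOn (C2.comap π2) θ) (hO : OvK π2 ν2 θ) :
    IsIrr (fun c : ↥(C.comap π) => E q θ c) := by
  have h1 := MLV.isIrr_surj (hm h hCT hQT hC2 hcm) (hm_surj h hCT hQT hC2 hcm) hθ.1
  have h2 := h1.sum_self
  have hE := (E_ov h hQT).mp hO
  have hval : ∀ p : ↥(C.comap π) × ↥(Q.comap π),
      θ ((hm h hCT hQT hC2 hcm p : ↥(C2.comap π2)) : L2) = ν p.2 * E q θ p.1 := by
    intro p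
    have h3 := hE p.2 p.2.2 p.1
    rw [← h3, ← hcm _ _ p.1.2 p.2.2, E_mem' q θ (T.mul_mem (hCT p.1.2) (hQT p.2.2))]
    change θ (q ⟨p.1, hCT p.1.2⟩ * q ⟨p.2, hQT p.2.2⟩) =
      θ (q (⟨p.1, hCT p.1.2⟩ * ⟨p.2, hQT p.2.2⟩))
    rw [map_mul]
  have h4 : ∀ p : ↥(C.comap π) × ↥(Q.comap π),
      (θ ((hm h hCT hQT hC2 hcm p : ↥(C2.comap π2)) : L2)) *
        (θ ((hm h hCT hQT hC2 hcm p⁻¹ : ↥(C2.comap π2)) : L2)) =
      E q θ p.1 * E q θ ((p.1⁻¹ : ↥(C.comap π)) : L) := by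
    intro p
    rw [hval, hval]
    have h5 := (CAX.mul_nu hLN p.2.2 ((Q.comap π).inv_mem p.2.2)).1
    rw [mul_inv_cancel, hLN.lin] at h5
    change ν p.2 * E q θ p.1 * (ν (p.2 : L)⁻¹ * E q θ ((p.1⁻¹ : ↥(C.comap π)) : L)) = _
    calc ν p.2 * E q θ p.1 * (ν (p.2 : L)⁻¹ * E q θ ((p.1⁻¹ : ↥(C.comap π)) : L))
        = (ν p.2 * ν (p.2 : L)⁻¹) * (E q θ p.1 * E q θ ((p.1⁻¹ : ↥(C.comap π)) : L)) := by ring
      _ = _ := by rw [← h5, one_mul]
  rw [Finset.sum_congr rfl fun p _ => h4 p, Fintype.sum_prod_type] at h2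
  have h6 : ∀ c : ↥(C.comap π), ∑ _x : ↥(Q.comap π),
      E q θ c * E q θ ((c⁻¹ : ↥(C.comap π)) : L) =
      (Nat.card ↥(Q.comap π) : ℂ) * (E q θ c * E q θ ((c⁻¹ : ↥(C.comap π)) : L)) := by
    intro c
    rw [Finset.sum_const, nsmul_eq_mul, Finset.card_univ, ← Nat.card_eq_fintype_card]
  rw [Finset.sum_congr rfl fun c _ => h6 c, ← Finset.mul_sum, Nat.card_prod, Nat.cast_mul,
    mul_comm (Nat.card ↥(C.comap π) : ℂ)] at h2
  have h7 := mul_left_cancel₀ natCard_ne_zero h2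
  let i : ↥(C.comap π) →* ↥(C2.comap π2) :=
    (q.comp (Subgroup.inclusion hCT)).codRestrict _ (fun c => mem_q h hC2 c.2)
  have h8 := hθ.1.isChr.comp i
  have h9 : (fun c : ↥(C.comap π) => θ ((i c : ↥(C2.comap π2)) : L2)) =
      fun c : ↥(C.comap π) => E q θ c := by
    funext c
    rw [E_mem' q θ (hCT c.2)]
    rfl
  rw [h9] at h8
  exact h8.isIrr h7

theorem card_C (h : QD π Q ν T q κ π2 ν2) (hπ : Function.Surjective π) {C : Subgroup K}
    (hCT : C.comap π ≤ T) (hCQ : ∀ x ∈ C, x ∈ Q → x = 1) {C2 : Subgroup K2}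
    (hC2 : C2 = (C.comap (π.comp T.subtype)).map κ) : Nat.card C2 = Nat.card C := by
  let D : Subgroup T := C.comap (π.comp T.subtype)
  let a : D →* C := (π.comp T.subtype).subgroupComap C
  let b : D →* C2 := (κ.comp D.subtype).codRestrict C2 (fun d => by
    rw [hC2]
    exact ⟨d, d.2, rfl⟩)
  have ha : Function.Surjective a := by
    rintro ⟨y, hy⟩
    obtain ⟨x, rfl⟩ := hπ y
    exact ⟨⟨⟨x, hCT hy⟩, hy⟩, rfl⟩
  have hb : Function.Surjective b := by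
    rintro ⟨y, hy⟩
    rw [hC2] at hy
    obtain ⟨x, hx, rfl⟩ := hy
    exact ⟨⟨x, hx⟩, rfl⟩
  have hk : a.ker = b.ker := by
    ext d
    rw [MonoidHom.mem_ker, MonoidHom.mem_ker]
    have hd : π ((d : T) : L) ∈ C := d.2
    constructor
    · intro h1
      have h2 : π ((d : T) : L) = 1 := congrArg Subtype.val h1
      apply Subtype.ext
      change κ (d : T) = 1
      rw [h.κk, h2]
      exact Q.one_mem
    · intro h1
      have h2 : κ (d : T) = 1 := congrArg Subtype.val h1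
      apply Subtype.ext
      change π ((d : T) : L) = 1
      exact hCQ _ hd ((h.κk _).mp h2)
  have h1 := QINF.card_eq a ha
  have h2 := QINF.card_eq b hb
  rw [h1, hk] at h2
  exact (Nat.eq_of_mul_eq_mul_left Nat.card_pos h2).symm

theorem final [Fact ℓ.Prime] (𝔐 : Ideal (integralClosure ℤ ℂ)) (hLN : LN ℓ π μ Q M M₀ ν)
    (h : QD π Q ν T q κ π2 ν2) (hπ : Function.Surjective π) (hQT : Q.comap π ≤ T)
    {C : Subgroup K} (hCM : C ≤ M₀) (hCT : C.comap π ≤ T)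
    (hTC : ∀ t : T, π t ∈ M₀ → π t ∈ C) {C2 : Subgroup K2}
    (hC2 : C2 = (C.comap (π.comp T.subtype)).map κ) {θ : L2 → ℂ}
    (hθ : ID ℓ (C2.comap π2) (padicValNat ℓ (Nat.card π2.ker)) θ) (hO : OvK π2 ν2 θ) :
    ∃ θC : L → ℂ, ID ℓ (C.comap π) (padicValNat ℓ (Nat.card π.ker)) θC ∧ OvK π μ θC ∧
      ∀ g, π g ∈ M₀ → cgT 𝔐 ⊤ θC g =
        red 𝔐 (wS (C2.comap π2) θ (pu q (fun t : T => cjT ⊤ (t : L) g))) := by
  classical
  have hcm : ∀ m x, π m ∈ C → π x ∈ Q → m * x = x * m := fun m x hm hx =>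
    hLN.cm m x (hCM hm) hx
  have hirr := irr_C hLN h hCT hQT hC2 hcm hθ.1 hO
  have hCQ : ∀ x ∈ C, x ∈ Q → x = 1 := by
    intro x hx hxQ
    have h1 : x ∈ Q ⊓ M := ⟨hxQ, hLN.le (hCM hx)⟩
    rw [hLN.QM] at h1
    exact Subgroup.mem_bot.mp h1
  have hE := (E_ov h hQT).mp hO
  have hmem : ∀ c, π c ∈ C → ext0 (fun c : ↥(C.comap π) => E q θ c) c = E q θ c := fun c hc =>
    ext0_of_mem (S := C.comap π) _ hc
  have hnot : ∀ c, π c ∉ C → ext0 (fun c : ↥(C.comap π) => E q θ c) c = 0 := fun c hc =>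
    ext0_of_not_mem (S := C.comap π) _ hc
  have hone : ext0 (fun c : ↥(C.comap π) => E q θ c) 1 = θ 1 := by
    rw [hmem 1 (by rw [map_one]; exact C.one_mem), E_one]
  refine ⟨ext0 (fun c : ↥(C.comap π) => E q θ c), ⟨DZA.irrOn_ext0 hirr, ?_⟩, ?_, ?_⟩
  · obtain ⟨n, hn, hn'⟩ := hθ.2
    refine ⟨n, ?_, ?_⟩
    · change ext0 (fun c : ↥(C.comap π) => E q θ c) 1 = n
      rw [hone]
      exact hn
    · have hs2 : Function.Surjective π2 := by
        intro y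
        obtain ⟨t, rfl⟩ := h.κs y
        exact ⟨q t, h.comp t⟩
      rw [DEFR.card_comap π2 C2 (fun y _ => hs2 y), card_C h hπ hCT hCQ hC2,
        padicValNat.mul Nat.card_pos.ne' Nat.card_pos.ne'] at hn'
      rw [DEFR.card_comap π C (fun y _ => hπ y),
        padicValNat.mul Nat.card_pos.ne' Nat.card_pos.ne']
      omega
  · intro z y
    have hz1 : π (z : L) = 1 := z.2
    have hzQ : (z : L) ∈ Q.comap π := by
      rw [Subgroup.mem_comap, hz1]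
      exact Q.one_mem
    have hνz : ν z = ((μ z : ℂˣ) : ℂ) := by
      have h1 := hLN.ov z 1
      rw [mul_one, hLN.lin, mul_one] at h1
      exact h1
    by_cases hy : π y ∈ C
    · have hzy : π ((z : L) * y) ∈ C := by
        rw [map_mul, hz1, one_mul]
        exact hy
      rw [hmem _ hzy, hmem _ hy, ← hνz]
      exact hE z hzQ y
    · have hzy : π ((z : L) * y) ∉ C := by
        rw [map_mul, hz1, one_mul]
        exact hy
      rw [hnot _ hzy, hnot _ hy, mul_zero]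
  · intro g hg
    have h1 := wS_E h C2 θ (fun x => cjT ⊤ x g)
    rw [← h1]
    have h2 := hθ.1
    rw [← E_irr h] at h2
    rw [wS_sum ((C2.comap κ).map T.subtype) (F := fun x => cjT ⊤ x g)
      (fun x hx => by rw [h2.2 x hx, mul_zero]), E_one]
    change red 𝔐 ((∑ x, cjT ⊤ x g * ext0 (fun c : ↥(C.comap π) => E q θ c) x) /
      ext0 (fun c : ↥(C.comap π) => E q θ c) 1) = _
    rw [hone]
    congr 2
    refine Finset.sum_congr rfl fun x _ => ?_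
    by_cases hx : π x ∈ C
    · rw [hmem x hx]
    · rw [hnot x hx, mul_zero]
      by_cases hxg : ∃ t ∈ (⊤ : Subgroup L), x = t * g * t⁻¹
      · obtain ⟨t, -, rfl⟩ := hxg
        have h3 : π (t * g * t⁻¹) ∈ M₀ := by
          rw [map_mul, map_mul, map_inv]
          exact hLN.M0n.conj_mem _ hg _
        have h4 : t * g * t⁻¹ ∉ T := by
          intro h5
          exact hx (hTC ⟨_, h5⟩ h3)
        rw [E_not q θ h4, mul_zero]
      · have h3 : cjT ⊤ x g = 0 := if_neg hxg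
        rw [h3, zero_mul]

end Fin

/-! ### The quotient and the functions -/

section Rest

variable {L K L2 K2 : Type} [Group L] [Fintype L] [Group K] [Fintype K] [Group L2] [Fintype L2]
  [Group K2] [Fintype K2] {ℓ : ℕ} {π : L →* K} {μ : π.ker →* ℂˣ} {Q M M₀ : Subgroup K}
  {ν : L → ℂ} {T : Subgroup L} {q : T →* L2} {κ : T →* K2} {π2 : L2 →* K2}
  {ν2 : π2.ker →* ℂˣ}

theorem hh [Fact ℓ.Prime] (h6 : Stmt_HHS) (hLN : LN ℓ π μ Q M M₀ ν)
    (h : QD π Q ν T q κ π2 ν2) {H : Type} [Group H] [Finite H] {f : K →* H}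
    (hf : ∀ x, f x = 1 ↔ x ∈ M) (hH : HH ℓ H) (hT : T ≤ sx ν) {C : Subgroup K}
    (hTC : ∀ t : T, π t ∈ M₀ → π t ∈ C) {C2 : Subgroup K2} [C2.Normal]
    (hC2 : C2 = (C.comap (π.comp T.subtype)).map κ) : HH ℓ (K2 ⧸ C2) := by
  let φ : T →* H := f.comp (π.comp T.subtype)
  let r : T →* K2 ⧸ C2 := (QuotientGroup.mk' C2).comp κ
  have h1 : HH ℓ ↥φ.range := (h6 H ℓ hH).1 ↥φ.range φ.range.subtype
    (Subgroup.subtype_injective _)
  have hr : ∀ t, φ t = 1 → r t = 1 := by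
    intro t ht
    have h2 : π t ∈ M := (hf _).mp ht
    have h3 : π t ∈ M₀ := (hLN.st t h2).mpr (hT t.2)
    change QuotientGroup.mk' C2 (κ t) = 1
    rw [QuotientGroup.mk'_apply, QuotientGroup.eq_one_iff, mem_C2 h hC2]
    exact ⟨t, 1, hTC t h3, by rw [Subgroup.coe_one, map_one]; exact Q.one_mem, by group⟩
  choose s hs using φ.rangeRestrict_surjective
  have hs' : ∀ x, φ (s x) = x := fun x => congrArg Subtype.val (hs x)
  have key : ∀ t t', φ t = φ t' → r t = r t' := by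
    intro t t' he
    have h2 := hr (t * t'⁻¹) (by rw [map_mul, map_inv, he, mul_inv_cancel])
    rw [map_mul, map_inv, mul_inv_eq_one] at h2
    exact h2
  let g : ↥φ.range →* K2 ⧸ C2 :=
    { toFun := fun x => r (s x)
      map_one' := by
        rw [← map_one r]
        apply key
        rw [hs', map_one]
        rfl
      map_mul' := by
        intro x y
        rw [← map_mul]
        apply key
        rw [hs', map_mul, hs', hs']
        rfl }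
  refine (h6 ↥φ.range ℓ h1).2.1 (K2 ⧸ C2) g ?_
  intro y
  obtain ⟨z, rfl⟩ := QuotientGroup.mk'_surjective C2 y
  obtain ⟨t, rfl⟩ := h.κs z
  refine ⟨φ.rangeRestrict t, ?_⟩
  exact key _ _ (hs' _)

theorem cjT_conj' (n x g : L) : cjT ⊤ (n * x * n⁻¹) g = cjT ⊤ x g := by
  have key : (∃ t ∈ (⊤ : Subgroup L), n * x * n⁻¹ = t * g * t⁻¹) ↔
      ∃ t ∈ (⊤ : Subgroup L), x = t * g * t⁻¹ := by
    constructor
    · rintro ⟨t, -, ht⟩
      refine ⟨n⁻¹ * t, Subgroup.mem_top _, ?_⟩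
      calc x = n⁻¹ * (n * x * n⁻¹) * n := by group
        _ = n⁻¹ * t * g * (n⁻¹ * t)⁻¹ := by rw [ht]; group
    · rintro ⟨t, -, rfl⟩
      exact ⟨n * t, Subgroup.mem_top _, by group⟩
  unfold cjT
  by_cases h : ∃ t ∈ (⊤ : Subgroup L), x = t * g * t⁻¹
  · rw [if_pos h, if_pos (key.mpr h)]
  · rw [if_neg h, if_neg (fun h' => h (key.mp h'))]

theorem cjT_int (x g : L) : IsIntegral ℤ (cjT ⊤ x g) := by
  classical
  unfold cjT
  split_ifs
  · exact isIntegral_one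
  · exact isIntegral_zero

theorem cjT_zero {x g : L} (h : ∀ t : L, x ≠ t * g * t⁻¹) : cjT ⊤ x g = 0 := by
  classical
  unfold cjT
  rw [if_neg]
  rintro ⟨t, -, ht⟩
  exact h t ht

/-- No conjugate of `g` fixes `ν`. -/
theorem cgT_zero (𝔐 : Ideal (integralClosure ℤ ℂ)) (hLN : LN ℓ π μ Q M M₀ ν) {ψ : L → ℂ}
    (h : ∀ x, x ∉ sx ν → ψ x = 0) {g : L} (hg : π g ∈ M) (hg' : π g ∉ M₀) :
    cgT 𝔐 ⊤ ψ g = 0 := by
  unfold cgT
  rw [Finset.sum_eq_zero, zero_div, red_zero]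
  intro x _
  by_cases hx : ∀ t : L, x ≠ t * g * t⁻¹
  · rw [cjT_zero hx, zero_mul]
  · push Not at hx
    obtain ⟨t, rfl⟩ := hx
    rw [h, mul_zero]
    intro hx'
    have h1 : π (t * g * t⁻¹) ∈ M := by
      rw [map_mul, map_mul, map_inv]
      exact hLN.Mn.conj_mem _ hg _
    have h2 := (hLN.st _ h1).mpr hx'
    apply hg'
    have h3 := hLN.M0n.conj_mem _ h2 (π t)⁻¹
    rw [map_mul, map_mul, map_inv] at h3
    have h4 : (π t)⁻¹ * (π t * π g * (π t)⁻¹) * (π t)⁻¹⁻¹ = π g := by group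
    rwa [h4] at h3

theorem card_lt (h : QD π Q ν T q κ π2 ν2) (hπ : Function.Surjective π)
    (hQT : Q.comap π ≤ T) (hQ : Q ≠ ⊥) : Nat.card K2 < Nat.card K := by
  have h1 := QINF.card_eq κ h.κs
  have h2 : Nat.card κ.ker = Nat.card ↥(Q.comap π) := by
    refine Nat.card_congr ⟨fun x => ⟨(x : T), (h.κk _).mp x.2⟩,
      fun x => ⟨⟨x, hQT x.2⟩, (h.κk ⟨x, hQT x.2⟩).mpr x.2⟩, fun x => ?_, fun x => ?_⟩
    · rfl
    · rfl
  have h3 := DEFR.card_comap π Q (fun y _ => hπ y)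
  have h4 := QINF.card_eq π hπ
  have h5 : Nat.card T ≤ Nat.card L := Subgroup.card_le_card_group T
  have h6 : 0 < Nat.card π.ker := Nat.card_pos
  have h7 : 1 < Nat.card Q := by
    rw [Subgroup.one_lt_card_iff_ne_bot]
    exact hQ
  have h8 : 0 < Nat.card K2 := Nat.card_pos
  rw [h1, h2, h3, h4, mul_assoc] at h5
  have h9 : Nat.card Q * Nat.card K2 ≤ Nat.card K := Nat.le_of_mul_le_mul_left h5 h6
  calc Nat.card K2 < Nat.card Q * Nat.card K2 := by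
        conv_lhs => rw [← one_mul (Nat.card K2)]
        exact Nat.mul_lt_mul_of_pos_right h7 h8
    _ ≤ _ := h9

end Rest

end CBB

open _root_.Pool.Agent.DPT.CBB in
/-- CBB: a nonvanishing sum gives a character of minimal defect of the inverse image of `M₀`. -/
theorem CBB_thm (h1 : Stmt_SPLM) (h2 : Stmt_CHG) (h3 : Stmt_CHI) (h4 : Stmt_DGM)
    (h5 : Stmt_ZST) (h6 : Stmt_HHS) : Stmt_CBB := by
  intro L K H _ _ _ _ _ _ 𝔐 ℓ _ hmax hℓ π hπ hcen μ Q M M₀ ν hLN hQ f hf hH hPL ω d hne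
  classical
  -- the outer chain
  have hspl := h1 K ℓ M₀ M hLN.M0n hLN.Mn hLN.le (WN 𝔐 ℓ d π Q M ν ω)
  unfold CS at hne
  rw [hspl] at hne
  obtain ⟨c, hc, hcne⟩ := Finset.exists_ne_zero_of_sum_ne_zero hne
  rw [Finset.mem_filter, OutC, Finset.mem_filter, mem_Ch] at hc
  obtain ⟨⟨hc1, hc2⟩, hc3⟩ := hc
  have hin : innerS ℓ ⊥ M₀ (WN 𝔐 ℓ d π Q M ν ω) c ≠ 0 := right_ne_zero_of_mul hcne
  obtain ⟨hRp, hRM, hRn, hstb⟩ := DZA.outer h5 ℓ M₀ hLN.M0n c hc1 hc2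
  obtain ⟨C, hC⟩ : ∃ C, C = cN M₀ (tp ⊥ c) := ⟨_, rfl⟩
  have hCs : stb c ⊓ M₀ = C := by rw [hC, hstb]
  have hCM : C ≤ M₀ := hCs ▸ inf_le_right
  obtain ⟨T, hTd⟩ : ∃ T : Subgroup L, T = (stb c).comap π ⊓ sx ν := ⟨_, rfl⟩
  have hT : T ≤ sx ν := hTd ▸ inf_le_right
  have hTs : ∀ t ∈ T, π t ∈ stb c := by
    intro t ht
    rw [hTd] at ht
    exact ht.1
  have hQT : Q.comap π ≤ T := by
    intro x hx
    rw [hTd]
    refine ⟨?_, CAX.le_sx hLN hx⟩
    change π x ∈ stb c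
    rw [mem_stb']
    have hcom : ∀ y ∈ M, π x * y * (π x)⁻¹ = y := by
      intro y hy
      have e1 : π x * y * (π x)⁻¹ * y⁻¹ ∈ Q ⊓ M := by
        refine ⟨?_, ?_⟩
        · have e2 := Q.mul_mem hx (hLN.Qn.conj_mem _ (Q.inv_mem hx) y)
          have e3 : π x * (y * (π x)⁻¹ * y⁻¹) = π x * y * (π x)⁻¹ * y⁻¹ := by group
          rwa [e3] at e2
        · exact M.mul_mem (hLN.Mn.conj_mem _ hy _) (M.inv_mem hy)
      rw [hLN.QM, Subgroup.mem_bot, mul_inv_eq_one] at e1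
      exact e1
    intro D hD y
    constructor
    · intro hy
      rw [hcom y (hc3 D hD hy)]
      exact hy
    · intro hy
      have e1 : y ∈ M := by
        have e2 := hLN.Mn.conj_mem _ (hc3 D hD hy) (π x)⁻¹
        have e3 : (π x)⁻¹ * (π x * y * (π x)⁻¹) * (π x)⁻¹⁻¹ = y := by group
        rwa [e3] at e2
      rwa [hcom y e1] at hy
  have hCT : C.comap π ≤ T := by
    intro x hx
    rw [← hCs] at hx
    rw [hTd]
    exact ⟨hx.1, (hLN.st x (hLN.le hx.2)).mp hx.2⟩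
  have hTC : ∀ t : T, π t ∈ M₀ → π t ∈ C := by
    intro t ht
    rw [← hCs]
    exact ⟨hTs t t.2, ht⟩
  obtain ⟨L2, K2, _, _, _, _, q, κ, π2, ν2, hQD⟩ := exists_QD hLN hT
  have hs2 : Function.Surjective π2 := by
    intro y
    obtain ⟨t, rfl⟩ := hQD.κs y
    exact ⟨q t, hQD.comp t⟩
  -- the summands
  obtain ⟨WT, hWTd⟩ : ∃ WT : Subgroup T → ℚ, ∀ P, WT P =
      (Nat.card ↥(P.map T.subtype) : ℚ) * Nat.card {ψ : L → ℂ // ID ℓ (P.map T.subtype) d ψ ∧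
        iS (Q.comap π) ψ ν ≠ 0 ∧ ∀ g, π g ∈ M → cgT 𝔐 ⊤ ψ g = ω g} := ⟨_, fun _ => rfl⟩
  have hWT : ∀ S : Subgroup K, WN 𝔐 ℓ d π Q M ν ω (stb c ⊓ S) =
      WT (S.comap (π.comp T.subtype)) := by
    intro S
    have e : (S.comap (π.comp T.subtype)).map T.subtype = (stb c ⊓ S).comap π ⊓ sx ν := by
      ext x
      rw [mem_map_sub]
      constructor
      · rintro ⟨hx, hS⟩
        exact ⟨⟨hTs x hx, hS⟩, hT hx⟩
      · rintro ⟨⟨e1, e2⟩, e3⟩
        exact ⟨by rw [hTd]; exact ⟨e1, e3⟩, e2⟩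
    rw [hWTd, e]
    rfl
  have hchi := h3 K ℓ C (fun S => WN 𝔐 ℓ d π Q M ν ω (stb c ⊓ S))
  have e1 : innerS ℓ ⊥ M₀ (WN 𝔐 ℓ d π Q M ν ω) c =
      CS ℓ C (fun S => WT (S.comap (π.comp T.subtype))) := by
    unfold innerS
    rw [← hC, hchi]
    congr 1
    funext S
    exact hWT S
  -- the chains of the quotient
  obtain ⟨C2, hC2⟩ : ∃ C2, C2 = (C.comap (π.comp T.subtype)).map κ := ⟨_, rfl⟩
  have hCn : ∀ t : T, ∀ y ∈ C, (π.comp T.subtype) t * y * ((π.comp T.subtype) t)⁻¹ ∈ C := by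
    intro t y hy
    rw [← hCs] at hy ⊢
    exact ⟨(stb c).mul_mem ((stb c).mul_mem (hTs t t.2) hy.1) ((stb c).inv_mem (hTs t t.2)),
      hLN.M0n.conj_mem _ hy.2 _⟩
  have hCQ : ∀ x ∈ C, x ∈ Q → x = 1 := by
    intro x hx hxQ
    have e2 : x ∈ Q ⊓ M := ⟨hxQ, hLN.le (hCM hx)⟩
    rw [hLN.QM] at e2
    exact Subgroup.mem_bot.mp e2
  have hchg := h2 ↥T K K2 ℓ (π.comp T.subtype) (by
      intro t ht
      rw [Subgroup.mem_center_iff]
      intro s
      apply Subtype.ext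
      have e2 : (t : L) ∈ Subgroup.center L := hcen ht
      exact Subgroup.mem_center_iff.mp e2 s) C (by
      intro y hy
      obtain ⟨x, rfl⟩ := hπ y
      exact ⟨⟨x, hCT hy⟩, rfl⟩) hCn κ hQD.κs (by
      intro t ht ht'
      exact hCQ _ ht ((hQD.κk t).mp ht')) (by
      intro t ht _
      rw [hQD.κk t]
      have e2 : π t = 1 := ht
      rw [e2]
      exact Q.one_mem) WT
  rw [e1, hchg, ← hC2] at hin
  -- some character
  obtain ⟨σ, hσ, hσne⟩ := Finset.exists_ne_zero_of_sum_ne_zero hin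
  have hWσ : WT ((stb σ).comap κ) ≠ 0 := right_ne_zero_of_mul hσne
  rw [hWTd] at hWσ
  have hcd : Nat.card {ψ : L → ℂ // ID ℓ (((stb σ).comap κ).map T.subtype) d ψ ∧
        iS (Q.comap π) ψ ν ≠ 0 ∧ ∀ g, π g ∈ M → cgT 𝔐 ⊤ ψ g = ω g} ≠ 0 := by
    intro e2
    apply hWσ
    rw [e2, Nat.cast_zero, mul_zero]
  have hnonempty := (Nat.card_ne_zero.mp hcd).1
  obtain ⟨ψ₀, hψ₀, hψi, hψω⟩ := hnonempty
  have hSx : ∀ (S2 : Subgroup K2) (x : L), x ∉ sx ν → x ∉ (S2.comap κ).map T.subtype := by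
    intro S2 x hx hx'
    exact hx (hT (mem_map_sub.mp hx').1)
  have hω0 : ∀ g, π g ∈ M → π g ∉ M₀ → ω g = 0 := by
    intro g hg hg'
    rw [← hψω g hg]
    exact cgT_zero 𝔐 hLN (fun x hx => hψ₀.1.2 x (hSx _ x hx)) hg hg'
  obtain ⟨d2, hd2⟩ : ∃ d2, d = d2 + padicValNat ℓ (Nat.card q.ker) := by
    obtain ⟨θ, hθ, -⟩ := E_of_over hLN hQD hQT hT (stb σ) hψ₀.1 hψi
    have e2 := hψ₀
    rw [hθ] at e2
    have e3 := (E_irr hQD (stb σ)).mp e2.1
    obtain ⟨d2, hd2⟩ := e3.1.exists_defect (ℓ := ℓ)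
    have e4 := (E_id (ℓ := ℓ) hQD (stb σ)).mpr ⟨e3, hd2⟩
    exact ⟨d2, e2.2.unique e4.2⟩
  -- the functions
  obtain ⟨F, hF⟩ : ∃ F : L → L2 → ℂ, ∀ g, F g =
      if π g ∈ M₀ then pu q (fun t : T => cjT ⊤ (t : L) g) else fun _ => 0 :=
    ⟨_, fun _ => rfl⟩
  obtain ⟨w, hw⟩ : ∃ w : L → (integralClosure ℤ ℂ) ⧸ 𝔐, ∀ g, w g =
      if π g ∈ M₀ then ω g else 0 := ⟨_, fun _ => rfl⟩
  have hzero : ∀ (S : Subgroup L2) (θ : L2 → ℂ), red 𝔐 (wS S θ (fun _ => 0)) = 0 := by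
    intro S θ
    unfold wS wt
    rw [Finset.sum_eq_zero (fun x _ => zero_mul _), zero_div, red_zero]
  have hW2 : ∀ S2 : Subgroup K2, WT (S2.comap κ) =
      (Nat.card κ.ker : ℚ) * WC 𝔐 ℓ d2 π2 ν2 F w S2 := by
    intro S2
    rw [hWTd]
    have e2 := card_E hLN hQD hQT hT S2 hd2 (fun ψ => ∀ g, π g ∈ M → cgT 𝔐 ⊤ ψ g = ω g)
      (fun θ => ∀ g, red 𝔐 (wS (S2.comap π2) θ (F g)) = w g) (by
        intro θ hθ
        have e3 : ∀ g, cgT 𝔐 ⊤ (E q θ) g =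
            red 𝔐 (wS (S2.comap π2) θ (pu q (fun t : T => cjT ⊤ (t : L) g))) := by
          intro g
          rw [cgT_wS 𝔐 ((S2.comap κ).map T.subtype) ((E_irr hQD S2).mpr hθ).2 g,
            wS_E hQD]
        constructor
        · intro hP g
          rw [hF, hw]
          by_cases hg : π g ∈ M₀
          · rw [if_pos hg, if_pos hg, ← e3]
            exact hP g (hLN.le hg)
          · rw [if_neg hg, if_neg hg]
            exact hzero _ _
        · intro hP g hg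
          by_cases hg' : π g ∈ M₀
          · have e4 := hP g
            rw [hF, hw, if_pos hg', if_pos hg', ← e3] at e4
            exact e4
          · rw [hω0 g hg hg']
            exact cgT_zero 𝔐 hLN (fun x hx =>
              ((E_irr hQD S2).mpr hθ).2 x (hSx S2 x hx)) hg hg')
    rw [e2]
    unfold WC
    rw [← Nat.card_congr (eP (S2.comap κ)).toEquiv,
      DEFR.card_comap κ S2 (fun y _ => hQD.κs y), Nat.cast_mul, mul_assoc]
  have hin2 : CS ℓ C2 (WC 𝔐 ℓ d2 π2 ν2 F w) ≠ 0 := by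
    intro e2
    apply hin
    have e3 : CS ℓ C2 (fun S => WT (S.comap κ)) =
        (Nat.card κ.ker : ℚ) * CS ℓ C2 (WC 𝔐 ℓ d2 π2 ν2 F w) := by
      unfold CS
      rw [Finset.mul_sum]
      refine Finset.sum_congr rfl fun τ _ => ?_
      change (-1 : ℚ) ^ τ.card * WT ((stb τ).comap κ) = _
      rw [hW2]
      ring
    rw [e3, e2, mul_zero]
  -- the induction hypothesis
  have hC2n : C2.Normal := by
    rw [hC2]
    refine Subgroup.Normal.map ⟨fun y hy t => ?_⟩ κ hQD.κs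
    rw [Subgroup.mem_comap, map_mul, map_mul, map_inv]
    exact hCn t _ hy
  have hHH : HH ℓ (K2 ⧸ C2) := hh h6 hLN hQD hf hH hT hTC hC2
  obtain ⟨θ, hθ, hO, hθw⟩ := hPL K2 (card_lt hQD hπ hQT hQ) L2 (K2 ⧸ C2) L 𝔐 hmax hℓ π2 hs2
    hQD.cen ν2 C2 hC2n (QuotientGroup.mk' C2) (fun x => QuotientGroup.eq_one_iff x) hHH F (by
      intro g a x
      rw [hF]
      by_cases hg : π g ∈ M₀
      · rw [if_pos hg]
        exact DZ6.pu_class q hQD.qs (fun n y => cjT_conj' (n : L) y g) a x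
      · rw [if_neg hg]) (by
      intro g x
      rw [hF]
      by_cases hg : π g ∈ M₀
      · rw [if_pos hg]
        exact DZ6.pu_int q (fun y => cjT_int (y : L) g) x
      · rw [if_neg hg]
        exact isIntegral_zero) (by
      intro g x hx
      rw [hF]
      by_cases hg : π g ∈ M₀
      · rw [if_pos hg]
        refine DZ6.pu_supp q (M₀ := C2.comap π2) (fun t ht => ?_) x hx
        apply cjT_zero
        intro s hs
        apply ht
        refine mem_q hQD hC2 (hTC t ?_)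
        rw [hs, map_mul, map_mul, map_inv]
        exact hLN.M0n.conj_mem _ hg _
      · rw [if_neg hg]) w d2 hin2
  obtain ⟨θC, a1, a2, a3⟩ := final 𝔐 hLN hQD hπ hQT hCM hCT hTC hC2 hθ hO
  rw [hC] at a1
  obtain ⟨θ₀, b1, b2, b3⟩ := h4 L K 𝔐 ℓ hmax hℓ π hπ hcen μ M₀ (tp ⊥ c) hLN.M0n hRp θC a1 a2
  refine ⟨θ₀, b1, b2, fun g hg => ?_⟩
  have e4 := hθw g
  rw [hF, hw, if_pos hg, if_pos hg] at e4
  rw [b3, a3 g hg]
  exact e4

end Pool.Agent.DPT


end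

section

/-!
# CII: the contribution of a character which is not fixed by `M`
-/

set_option autoImplicit false
set_option linter.unusedSectionVars false
set_option linter.unusedVariables false

namespace Pool.Agent.DPT

open Pool.Agent.DP Pool.Agent.DPC Pool.Agent.DPM Pool.Agent.DPN Pool.Agent.Lib_helper13
open Representation
open Pool.Agent.Lib_helper13.Dade (pCore DadeHolds dadeSum)

namespace CII

theorem red_zero' (𝔐 : Ideal (integralClosure ℤ ℂ)) : red 𝔐 0 = 0 := red_zero 𝔐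

/-- A function which vanishes at all conjugates of `g` has vanishing central function at `g`. -/
theorem cgT_zero {L : Type} [Group L] [Fintype L] (𝔐 : Ideal (integralClosure ℤ ℂ))
    (ψ : L → ℂ) (g : L) (h : ∀ t : L, ψ (t * g * t⁻¹) = 0) : cgT 𝔐 ⊤ ψ g = 0 := by
  classical
  rw [cgT, Finset.sum_eq_zero, zero_div, red_zero]
  intro y _
  rw [cjT]
  by_cases hc : ∃ t ∈ (⊤ : Subgroup L), y = t * g * t⁻¹
  · obtain ⟨t, _, rfl⟩ := hc
    rw [h, mul_zero]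
  · rw [if_neg hc, zero_mul]

end CII

theorem CII_thm (h1 : Stmt_CBB) (h2 : Stmt_CAZ) (h3 : Stmt_IDZ) : Stmt_CII := by
  classical
  intro L K H _ _ _ _ _ _ 𝔐 ℓ _ hmax hℓ π hπ hker μ Q M M₀ ν hLN hQ f hf hHH hPL ω d hCS
  obtain ⟨θ₀, hid, hov, hω⟩ :=
    h1 L K H 𝔐 ℓ hmax hℓ π hπ hker μ Q M M₀ ν hLN hQ f hf hHH hPL ω d hCS
  have hz : ∀ g, π g ∈ M → π g ∉ M₀ → ω g = 0 := by
    have hne : ∃ S : Subgroup K, WN 𝔐 ℓ d π Q M ν ω S ≠ 0 := by
      by_contra hall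
      apply hCS
      rw [CS]
      refine Finset.sum_eq_zero (fun σ _ => ?_)
      have h5 : WN 𝔐 ℓ d π Q M ν ω (stb σ) = 0 := by
        by_contra h6
        exact hall ⟨_, h6⟩
      rw [h5, mul_zero]
    obtain ⟨S, hS⟩ := hne
    have hcard : Nat.card {ψ : L → ℂ // ID ℓ (S.comap π ⊓ sx ν) d ψ ∧
        iS (Q.comap π) ψ ν ≠ 0 ∧ ∀ g, π g ∈ M → cgT 𝔐 ⊤ ψ g = ω g} ≠ 0 := by
      intro h0
      apply hS
      rw [WN, h0, Nat.cast_zero, mul_zero]
    have hnonempty : Nonempty {ψ : L → ℂ // ID ℓ (S.comap π ⊓ sx ν) d ψ ∧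
        iS (Q.comap π) ψ ν ≠ 0 ∧ ∀ g, π g ∈ M → cgT 𝔐 ⊤ ψ g = ω g} :=
      (Nat.card_ne_zero.mp hcard).1
    obtain ⟨ψ, hψ, _, hψω⟩ := hnonempty
    intro g hg hg0
    rw [← hψω g hg]
    apply CII.cgT_zero
    intro t
    apply hψ.1.2
    intro hmem
    have hsx : t * g * t⁻¹ ∈ sx ν := hmem.2
    have hM : π (t * g * t⁻¹) ∈ M := by
      rw [map_mul, map_mul, map_inv]
      exact hLN.Mn.conj_mem _ hg _
    have hM0 : π (t * g * t⁻¹) ∈ M₀ := (hLN.st _ hM).mpr hsx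
    apply hg0
    have h7 := hLN.M0n.conj_mem _ hM0 (π t)⁻¹
    have h8 : (π t)⁻¹ * π (t * g * t⁻¹) * (π t)⁻¹⁻¹ = π g := by
      rw [map_mul, map_mul, map_inv]
      group
    rwa [h8] at h7
  by_cases hex : ∃ m, π m ∈ M ∧ m ∈ sx θ₀ ∧ π m ∉ M₀
  · exact absurd (h2 L K H 𝔐 ℓ hmax hℓ π hπ hker μ Q M M₀ ν hLN f hf hHH ω θ₀ hid hov hω hz hex d)
      hCS
  · refine h3 L K 𝔐 ℓ hmax hℓ π hπ hker μ M M₀ hLN.Mn hLN.M0n hLN.le ω θ₀ hid hov hω hz ?_
    intro m hm hms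
    by_contra hm0
    exact hex ⟨m, hm, hms, hm0⟩

end Pool.Agent.DPT


end

section

set_option linter.unusedSectionVars false
set_option linter.unusedVariables false

/-!
# Module DPK_PSNr: the sums over the chains of the normal subgroups (for the groups of a class)
-/

namespace Pool.Agent.DPK

open Pool.Agent.DP Pool.Agent.DPC Pool.Agent.DPM Pool.Agent.DPN Pool.Agent.DPT
open Pool.Agent.Lib_helper13
open Representation
open Pool.Agent.Lib_helper13.Dade (pCore DadeHolds dadeSum)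

namespace PSNr

/-- The images of the subgroups of a central extension of a member of the class. -/
theorem mem_sec {Cl : ∀ (Y : Type) [Group Y], Prop} (hC : GC Cl) {L K K' : Type} [Group L]
    [Finite L] [Group K] [Group K'] (π : L →* K) (hπ : π.ker ≤ Subgroup.center L) (hK : Cl K)
    (T : Subgroup L) (κ : T →* K') (hκ : Function.Surjective κ) : Cl K' :=
  hC.im T K' κ hκ (hC.sub (hC.up L K π hπ hK) T)

open Pool.Agent.DPT.TWQ in
/-- TWQ for the groups of a class. -/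
theorem TWQr {Cl : ∀ (Y : Type) [Group Y], Prop} (hC : GC Cl) (h1 : Stmt_TWC) (h2 : Stmt_TWN)
    (h3 : Stmt_TWG) (h4 : Stmt_CHG) (h5 : Stmt_HHS) (h6 : Stmt_DEFM) :
    ∀ (L K H : Type) [Group L] [Fintype L] [Group K] [Fintype K] [Group H] [Finite H]
    (𝔐 : Ideal (integralClosure ℤ ℂ)) (ℓ : ℕ) [Fact ℓ.Prime], 𝔐.IsMaximal →
    (ℓ : integralClosure ℤ ℂ) ∈ 𝔐 → ∀ π : L →* K, Function.Surjective π →
    π.ker ≤ Subgroup.center L → ∀ (μ : π.ker →* ℂˣ) (M Q : Subgroup K), M.Normal → Q.Normal →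
    IsPGroup ℓ Q → Q ≠ ⊥ → Q ⊓ M = ⊥ → ∀ f : K →* H, (∀ x, f x = 1 ↔ x ∈ M) → HH ℓ H → Cl K →
    (∀ (K' : Type) [Group K'] [Fintype K'], Cl K' → Nat.card K' < Nat.card K → PL ℓ K') →
    ∀ ν : L → ℂ, IrrOn (Q.comap π) ν → OvK π μ ν → M.comap π ≤ sx ν →
    ∀ (ω : L → (integralClosure ℤ ℂ) ⧸ 𝔐) (d : ℕ),
    CS ℓ M (WN 𝔐 ℓ d π Q M ν ω) ≠ 0 → GdF 𝔐 ℓ π μ M ω := by
  classical
  intro L K H _ _ _ _ _ _ 𝔐 ℓ _ hmax hℓ π hπ hπc μ M Q hM hQ hQp hQne hQM f hf hH hK hIH ν hν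
    hνμ hMν ω d hCS
  have hn : (Q.comap π).Normal := hQ.comap π
  have hNS : Q.comap π ≤ sx ν := le_sx hν
  have hn' : ((Q.comap π).subgroupOf (sx ν)).Normal := Subgroup.normal_subgroupOf
  have hk : ∀ x : sx ν, QuotientGroup.mk' ((Q.comap π).subgroupOf (sx ν)) x = 1 ↔
      (x : L) ∈ Q.comap π := by
    intro x
    rw [QuotientGroup.mk'_apply, QuotientGroup.eq_one_iff, Subgroup.mem_subgroupOf]
  let hfin : Fintype (↥(sx ν) ⧸ (Q.comap π).subgroupOf (sx ν)) := Fintype.ofFinite _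
  exact main (K' := ↥(sx ν) ⧸ (Q.comap π).subgroupOf (sx ν)) h1 h2 h3 h4 h5 h6 hmax hℓ hπ hπc hM
    hQ hQp hQM f hf hH (hIH _ (mem_sec hC π hπc hK (sx ν)
      (QuotientGroup.mk' ((Q.comap π).subgroupOf (sx ν))) (QuotientGroup.mk'_surjective _))
      (card_lt hπ hQne hNS _ (QuotientGroup.mk'_surjective _) hk)) hν hνμ
    hMν (QuotientGroup.mk' ((Q.comap π).subgroupOf (sx ν))) (QuotientGroup.mk'_surjective _) hk d
    hCS

open Pool.Agent.DPT.CBB in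
/-- CBB for the groups of a class. -/
theorem CBBr {Cl : ∀ (Y : Type) [Group Y], Prop} (hGC : GC Cl) (h1 : Stmt_SPLM) (h2 : Stmt_CHG)
    (h3 : Stmt_CHI) (h4 : Stmt_DGM) (h5 : Stmt_ZST) (h6 : Stmt_HHS) :
    ∀ (L K H : Type) [Group L] [Fintype L] [Group K] [Fintype K] [Group H] [Finite H]
    (𝔐 : Ideal (integralClosure ℤ ℂ)) (ℓ : ℕ) [Fact ℓ.Prime], 𝔐.IsMaximal →
    (ℓ : integralClosure ℤ ℂ) ∈ 𝔐 → ∀ π : L →* K, Function.Surjective π →
    π.ker ≤ Subgroup.center L → ∀ (μ : π.ker →* ℂˣ) (Q M M₀ : Subgroup K) (ν : L → ℂ),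
    LN ℓ π μ Q M M₀ ν → Q ≠ ⊥ → ∀ f : K →* H, (∀ x, f x = 1 ↔ x ∈ M) → HH ℓ H → Cl K →
    (∀ (K' : Type) [Group K'] [Fintype K'], Cl K' → Nat.card K' < Nat.card K → PL ℓ K') →
    ∀ (ω : L → (integralClosure ℤ ℂ) ⧸ 𝔐) (d : ℕ),
    CS ℓ M (WN 𝔐 ℓ d π Q M ν ω) ≠ 0 → GdF 𝔐 ℓ π μ M₀ ω := by
  intro L K H _ _ _ _ _ _ 𝔐 ℓ _ hmax hℓ π hπ hcen μ Q M M₀ ν hLN hQ f hf hH hK hPL ω d hne
  classical
  -- the outer chain
  have hspl := h1 K ℓ M₀ M hLN.M0n hLN.Mn hLN.le (WN 𝔐 ℓ d π Q M ν ω)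
  unfold CS at hne
  rw [hspl] at hne
  obtain ⟨c, hc, hcne⟩ := Finset.exists_ne_zero_of_sum_ne_zero hne
  rw [Finset.mem_filter, OutC, Finset.mem_filter, mem_Ch] at hc
  obtain ⟨⟨hc1, hc2⟩, hc3⟩ := hc
  have hin : innerS ℓ ⊥ M₀ (WN 𝔐 ℓ d π Q M ν ω) c ≠ 0 := right_ne_zero_of_mul hcne
  obtain ⟨hRp, hRM, hRn, hstb⟩ := DZA.outer h5 ℓ M₀ hLN.M0n c hc1 hc2
  obtain ⟨C, hC⟩ : ∃ C, C = cN M₀ (tp ⊥ c) := ⟨_, rfl⟩
  have hCs : stb c ⊓ M₀ = C := by rw [hC, hstb]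
  have hCM : C ≤ M₀ := hCs ▸ inf_le_right
  obtain ⟨T, hTd⟩ : ∃ T : Subgroup L, T = (stb c).comap π ⊓ sx ν := ⟨_, rfl⟩
  have hT : T ≤ sx ν := hTd ▸ inf_le_right
  have hTs : ∀ t ∈ T, π t ∈ stb c := by
    intro t ht
    rw [hTd] at ht
    exact ht.1
  have hQT : Q.comap π ≤ T := by
    intro x hx
    rw [hTd]
    refine ⟨?_, CAX.le_sx hLN hx⟩
    change π x ∈ stb c
    rw [mem_stb']
    have hcom : ∀ y ∈ M, π x * y * (π x)⁻¹ = y := by
      intro y hy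
      have e1 : π x * y * (π x)⁻¹ * y⁻¹ ∈ Q ⊓ M := by
        refine ⟨?_, ?_⟩
        · have e2 := Q.mul_mem hx (hLN.Qn.conj_mem _ (Q.inv_mem hx) y)
          have e3 : π x * (y * (π x)⁻¹ * y⁻¹) = π x * y * (π x)⁻¹ * y⁻¹ := by group
          rwa [e3] at e2
        · exact M.mul_mem (hLN.Mn.conj_mem _ hy _) (M.inv_mem hy)
      rw [hLN.QM, Subgroup.mem_bot, mul_inv_eq_one] at e1
      exact e1
    intro D hD y
    constructor
    · intro hy
      rw [hcom y (hc3 D hD hy)]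
      exact hy
    · intro hy
      have e1 : y ∈ M := by
        have e2 := hLN.Mn.conj_mem _ (hc3 D hD hy) (π x)⁻¹
        have e3 : (π x)⁻¹ * (π x * y * (π x)⁻¹) * (π x)⁻¹⁻¹ = y := by group
        rwa [e3] at e2
      rwa [hcom y e1] at hy
  have hCT : C.comap π ≤ T := by
    intro x hx
    rw [← hCs] at hx
    rw [hTd]
    exact ⟨hx.1, (hLN.st x (hLN.le hx.2)).mp hx.2⟩
  have hTC : ∀ t : T, π t ∈ M₀ → π t ∈ C := by
    intro t ht
    rw [← hCs]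
    exact ⟨hTs t t.2, ht⟩
  obtain ⟨L2, K2, _, _, _, _, q, κ, π2, ν2, hQD⟩ := exists_QD hLN hT
  have hs2 : Function.Surjective π2 := by
    intro y
    obtain ⟨t, rfl⟩ := hQD.κs y
    exact ⟨q t, hQD.comp t⟩
  -- the summands
  obtain ⟨WT, hWTd⟩ : ∃ WT : Subgroup T → ℚ, ∀ P, WT P =
      (Nat.card ↥(P.map T.subtype) : ℚ) * Nat.card {ψ : L → ℂ // ID ℓ (P.map T.subtype) d ψ ∧
        iS (Q.comap π) ψ ν ≠ 0 ∧ ∀ g, π g ∈ M → cgT 𝔐 ⊤ ψ g = ω g} := ⟨_, fun _ => rfl⟩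
  have hWT : ∀ S : Subgroup K, WN 𝔐 ℓ d π Q M ν ω (stb c ⊓ S) =
      WT (S.comap (π.comp T.subtype)) := by
    intro S
    have e : (S.comap (π.comp T.subtype)).map T.subtype = (stb c ⊓ S).comap π ⊓ sx ν := by
      ext x
      rw [mem_map_sub]
      constructor
      · rintro ⟨hx, hS⟩
        exact ⟨⟨hTs x hx, hS⟩, hT hx⟩
      · rintro ⟨⟨e1, e2⟩, e3⟩
        exact ⟨by rw [hTd]; exact ⟨e1, e3⟩, e2⟩
    rw [hWTd, e]
    rfl
  have hchi := h3 K ℓ C (fun S => WN 𝔐 ℓ d π Q M ν ω (stb c ⊓ S))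
  have e1 : innerS ℓ ⊥ M₀ (WN 𝔐 ℓ d π Q M ν ω) c =
      CS ℓ C (fun S => WT (S.comap (π.comp T.subtype))) := by
    unfold innerS
    rw [← hC, hchi]
    congr 1
    funext S
    exact hWT S
  -- the chains of the quotient
  obtain ⟨C2, hC2⟩ : ∃ C2, C2 = (C.comap (π.comp T.subtype)).map κ := ⟨_, rfl⟩
  have hCn : ∀ t : T, ∀ y ∈ C, (π.comp T.subtype) t * y * ((π.comp T.subtype) t)⁻¹ ∈ C := by
    intro t y hy
    rw [← hCs] at hy ⊢
    exact ⟨(stb c).mul_mem ((stb c).mul_mem (hTs t t.2) hy.1) ((stb c).inv_mem (hTs t t.2)),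
      hLN.M0n.conj_mem _ hy.2 _⟩
  have hCQ : ∀ x ∈ C, x ∈ Q → x = 1 := by
    intro x hx hxQ
    have e2 : x ∈ Q ⊓ M := ⟨hxQ, hLN.le (hCM hx)⟩
    rw [hLN.QM] at e2
    exact Subgroup.mem_bot.mp e2
  have hchg := h2 ↥T K K2 ℓ (π.comp T.subtype) (by
      intro t ht
      rw [Subgroup.mem_center_iff]
      intro s
      apply Subtype.ext
      have e2 : (t : L) ∈ Subgroup.center L := hcen ht
      exact Subgroup.mem_center_iff.mp e2 s) C (by
      intro y hy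
      obtain ⟨x, rfl⟩ := hπ y
      exact ⟨⟨x, hCT hy⟩, rfl⟩) hCn κ hQD.κs (by
      intro t ht ht'
      exact hCQ _ ht ((hQD.κk t).mp ht')) (by
      intro t ht _
      rw [hQD.κk t]
      have e2 : π t = 1 := ht
      rw [e2]
      exact Q.one_mem) WT
  rw [e1, hchg, ← hC2] at hin
  -- some character
  obtain ⟨σ, hσ, hσne⟩ := Finset.exists_ne_zero_of_sum_ne_zero hin
  have hWσ : WT ((stb σ).comap κ) ≠ 0 := right_ne_zero_of_mul hσne
  rw [hWTd] at hWσ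
  have hcd : Nat.card {ψ : L → ℂ // ID ℓ (((stb σ).comap κ).map T.subtype) d ψ ∧
        iS (Q.comap π) ψ ν ≠ 0 ∧ ∀ g, π g ∈ M → cgT 𝔐 ⊤ ψ g = ω g} ≠ 0 := by
    intro e2
    apply hWσ
    rw [e2, Nat.cast_zero, mul_zero]
  have hnonempty := (Nat.card_ne_zero.mp hcd).1
  obtain ⟨ψ₀, hψ₀, hψi, hψω⟩ := hnonempty
  have hSx : ∀ (S2 : Subgroup K2) (x : L), x ∉ sx ν → x ∉ (S2.comap κ).map T.subtype := by
    intro S2 x hx hx'
    exact hx (hT (mem_map_sub.mp hx').1)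
  have hω0 : ∀ g, π g ∈ M → π g ∉ M₀ → ω g = 0 := by
    intro g hg hg'
    rw [← hψω g hg]
    exact cgT_zero 𝔐 hLN (fun x hx => hψ₀.1.2 x (hSx _ x hx)) hg hg'
  obtain ⟨d2, hd2⟩ : ∃ d2, d = d2 + padicValNat ℓ (Nat.card q.ker) := by
    obtain ⟨θ, hθ, -⟩ := E_of_over hLN hQD hQT hT (stb σ) hψ₀.1 hψi
    have e2 := hψ₀
    rw [hθ] at e2
    have e3 := (E_irr hQD (stb σ)).mp e2.1
    obtain ⟨d2, hd2⟩ := e3.1.exists_defect (ℓ := ℓ)
    have e4 := (E_id (ℓ := ℓ) hQD (stb σ)).mpr ⟨e3, hd2⟩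
    exact ⟨d2, e2.2.unique e4.2⟩
  -- the functions
  obtain ⟨F, hF⟩ : ∃ F : L → L2 → ℂ, ∀ g, F g =
      if π g ∈ M₀ then pu q (fun t : T => cjT ⊤ (t : L) g) else fun _ => 0 :=
    ⟨_, fun _ => rfl⟩
  obtain ⟨w, hw⟩ : ∃ w : L → (integralClosure ℤ ℂ) ⧸ 𝔐, ∀ g, w g =
      if π g ∈ M₀ then ω g else 0 := ⟨_, fun _ => rfl⟩
  have hzero : ∀ (S : Subgroup L2) (θ : L2 → ℂ), red 𝔐 (wS S θ (fun _ => 0)) = 0 := by
    intro S θ
    unfold wS wt
    rw [Finset.sum_eq_zero (fun x _ => zero_mul _), zero_div, red_zero]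
  have hW2 : ∀ S2 : Subgroup K2, WT (S2.comap κ) =
      (Nat.card κ.ker : ℚ) * WC 𝔐 ℓ d2 π2 ν2 F w S2 := by
    intro S2
    rw [hWTd]
    have e2 := card_E hLN hQD hQT hT S2 hd2 (fun ψ => ∀ g, π g ∈ M → cgT 𝔐 ⊤ ψ g = ω g)
      (fun θ => ∀ g, red 𝔐 (wS (S2.comap π2) θ (F g)) = w g) (by
        intro θ hθ
        have e3 : ∀ g, cgT 𝔐 ⊤ (E q θ) g =
            red 𝔐 (wS (S2.comap π2) θ (pu q (fun t : T => cjT ⊤ (t : L) g))) := by
          intro g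
          rw [cgT_wS 𝔐 ((S2.comap κ).map T.subtype) ((E_irr hQD S2).mpr hθ).2 g,
            wS_E hQD]
        constructor
        · intro hP g
          rw [hF, hw]
          by_cases hg : π g ∈ M₀
          · rw [if_pos hg, if_pos hg, ← e3]
            exact hP g (hLN.le hg)
          · rw [if_neg hg, if_neg hg]
            exact hzero _ _
        · intro hP g hg
          by_cases hg' : π g ∈ M₀
          · have e4 := hP g
            rw [hF, hw, if_pos hg', if_pos hg', ← e3] at e4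
            exact e4
          · rw [hω0 g hg hg']
            exact cgT_zero 𝔐 hLN (fun x hx =>
              ((E_irr hQD S2).mpr hθ).2 x (hSx S2 x hx)) hg hg')
    rw [e2]
    unfold WC
    rw [← Nat.card_congr (eP (S2.comap κ)).toEquiv,
      DEFR.card_comap κ S2 (fun y _ => hQD.κs y), Nat.cast_mul, mul_assoc]
  have hin2 : CS ℓ C2 (WC 𝔐 ℓ d2 π2 ν2 F w) ≠ 0 := by
    intro e2
    apply hin
    have e3 : CS ℓ C2 (fun S => WT (S.comap κ)) =
        (Nat.card κ.ker : ℚ) * CS ℓ C2 (WC 𝔐 ℓ d2 π2 ν2 F w) := by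
      unfold CS
      rw [Finset.mul_sum]
      refine Finset.sum_congr rfl fun τ _ => ?_
      change (-1 : ℚ) ^ τ.card * WT ((stb τ).comap κ) = _
      rw [hW2]
      ring
    rw [e3, e2, mul_zero]
  -- the induction hypothesis
  have hC2n : C2.Normal := by
    rw [hC2]
    refine Subgroup.Normal.map ⟨fun y hy t => ?_⟩ κ hQD.κs
    rw [Subgroup.mem_comap, map_mul, map_mul, map_inv]
    exact hCn t _ hy
  have hHH : HH ℓ (K2 ⧸ C2) := hh h6 hLN hQD hf hH hT hTC hC2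
  obtain ⟨θ, hθ, hO, hθw⟩ := hPL K2 (mem_sec hGC π hcen hK T κ hQD.κs)
    (card_lt hQD hπ hQT hQ) L2 (K2 ⧸ C2) L 𝔐 hmax hℓ π2 hs2
    hQD.cen ν2 C2 hC2n (QuotientGroup.mk' C2) (fun x => QuotientGroup.eq_one_iff x) hHH F (by
      intro g a x
      rw [hF]
      by_cases hg : π g ∈ M₀
      · rw [if_pos hg]
        exact DZ6.pu_class q hQD.qs (fun n y => cjT_conj' (n : L) y g) a x
      · rw [if_neg hg]) (by
      intro g x
      rw [hF]
      by_cases hg : π g ∈ M₀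
      · rw [if_pos hg]
        exact DZ6.pu_int q (fun y => cjT_int (y : L) g) x
      · rw [if_neg hg]
        exact isIntegral_zero) (by
      intro g x hx
      rw [hF]
      by_cases hg : π g ∈ M₀
      · rw [if_pos hg]
        refine DZ6.pu_supp q (M₀ := C2.comap π2) (fun t ht => ?_) x hx
        apply cjT_zero
        intro s hs
        apply ht
        refine mem_q hQD hC2 (hTC t ?_)
        rw [hs, map_mul, map_mul, map_inv]
        exact hLN.M0n.conj_mem _ hg _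
      · rw [if_neg hg]) w d2 hin2
  obtain ⟨θC, a1, a2, a3⟩ := final 𝔐 hLN hQD hπ hQT hCM hCT hTC hC2 hθ hO
  rw [hC] at a1
  obtain ⟨θ₀, b1, b2, b3⟩ := h4 L K 𝔐 ℓ hmax hℓ π hπ hcen μ M₀ (tp ⊥ c) hLN.M0n hRp θC a1 a2
  refine ⟨θ₀, b1, b2, fun g hg => ?_⟩
  have e4 := hθw g
  rw [hF, hw, if_pos hg, if_pos hg] at e4
  rw [b3, a3 g hg]
  exact e4

/-- CII for the groups of a class. -/
theorem CIIr {Cl : ∀ (Y : Type) [Group Y], Prop} (hC : GC Cl) (g1 : Stmt_SPLM) (g2 : Stmt_CHG)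
    (g3 : Stmt_CHI) (g4 : Stmt_DGM) (g5 : Stmt_ZST) (g6 : Stmt_HHS) (h2 : Stmt_CAZ)
    (h3 : Stmt_IDZ) :
    ∀ (L K H : Type) [Group L] [Fintype L] [Group K] [Fintype K] [Group H] [Finite H]
    (𝔐 : Ideal (integralClosure ℤ ℂ)) (ℓ : ℕ) [Fact ℓ.Prime], 𝔐.IsMaximal →
    (ℓ : integralClosure ℤ ℂ) ∈ 𝔐 → ∀ π : L →* K, Function.Surjective π →
    π.ker ≤ Subgroup.center L → ∀ (μ : π.ker →* ℂˣ) (Q M M₀ : Subgroup K) (ν : L → ℂ),
    LN ℓ π μ Q M M₀ ν → Q ≠ ⊥ → ∀ f : K →* H, (∀ x, f x = 1 ↔ x ∈ M) → HH ℓ H → Cl K →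
    (∀ (K' : Type) [Group K'] [Fintype K'], Cl K' → Nat.card K' < Nat.card K → PL ℓ K') →
    ∀ (ω : L → (integralClosure ℤ ℂ) ⧸ 𝔐) (d : ℕ),
    CS ℓ M (WN 𝔐 ℓ d π Q M ν ω) ≠ 0 → GdF 𝔐 ℓ π μ M ω := by
  classical
  intro L K H _ _ _ _ _ _ 𝔐 ℓ _ hmax hℓ π hπ hker μ Q M M₀ ν hLN hQ f hf hHH hK hPL ω d hCS
  obtain ⟨θ₀, hid, hov, hω⟩ :=
    CBBr hC g1 g2 g3 g4 g5 g6 L K H 𝔐 ℓ hmax hℓ π hπ hker μ Q M M₀ ν hLN hQ f hf hHH hK hPL ω d hCS
  have hz : ∀ g, π g ∈ M → π g ∉ M₀ → ω g = 0 := by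
    have hne : ∃ S : Subgroup K, WN 𝔐 ℓ d π Q M ν ω S ≠ 0 := by
      by_contra hall
      apply hCS
      rw [CS]
      refine Finset.sum_eq_zero (fun σ _ => ?_)
      have h5 : WN 𝔐 ℓ d π Q M ν ω (stb σ) = 0 := by
        by_contra h6
        exact hall ⟨_, h6⟩
      rw [h5, mul_zero]
    obtain ⟨S, hS⟩ := hne
    have hcard : Nat.card {ψ : L → ℂ // ID ℓ (S.comap π ⊓ sx ν) d ψ ∧
        iS (Q.comap π) ψ ν ≠ 0 ∧ ∀ g, π g ∈ M → cgT 𝔐 ⊤ ψ g = ω g} ≠ 0 := by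
      intro h0
      apply hS
      rw [WN, h0, Nat.cast_zero, mul_zero]
    have hnonempty : Nonempty {ψ : L → ℂ // ID ℓ (S.comap π ⊓ sx ν) d ψ ∧
        iS (Q.comap π) ψ ν ≠ 0 ∧ ∀ g, π g ∈ M → cgT 𝔐 ⊤ ψ g = ω g} :=
      (Nat.card_ne_zero.mp hcard).1
    obtain ⟨ψ, hψ, _, hψω⟩ := hnonempty
    intro g hg hg0
    rw [← hψω g hg]
    apply CII.cgT_zero
    intro t
    apply hψ.1.2
    intro hmem
    have hsx : t * g * t⁻¹ ∈ sx ν := hmem.2
    have hM : π (t * g * t⁻¹) ∈ M := by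
      rw [map_mul, map_mul, map_inv]
      exact hLN.Mn.conj_mem _ hg _
    have hM0 : π (t * g * t⁻¹) ∈ M₀ := (hLN.st _ hM).mpr hsx
    apply hg0
    have h7 := hLN.M0n.conj_mem _ hM0 (π t)⁻¹
    have h8 : (π t)⁻¹ * π (t * g * t⁻¹) * (π t)⁻¹⁻¹ = π g := by
      rw [map_mul, map_mul, map_inv]
      group
    rwa [h8] at h7
  by_cases hex : ∃ m, π m ∈ M ∧ m ∈ sx θ₀ ∧ π m ∉ M₀
  · exact absurd (h2 L K H 𝔐 ℓ hmax hℓ π hπ hker μ Q M M₀ ν hLN f hf hHH ω θ₀ hid hov hω hz hex d)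
      hCS
  · refine h3 L K 𝔐 ℓ hmax hℓ π hπ hker μ M M₀ hLN.Mn hLN.M0n hLN.le ω θ₀ hid hov hω hz ?_
    intro m hm hms
    by_contra hm0
    exact hex ⟨m, hm, hms, hm0⟩

end PSNr

open _root_.Pool.Agent.DPK.PSNr Pool.Agent.DPT.PSN in
/-- MODULE DPK_PSNr -/
theorem PSNr_thm (Cl : ∀ (Y : Type) [Group Y], Prop) (hC : GC Cl) (h1 : Stmt_SPLM)
    (h2 : Stmt_CRS) (h3 : Stmt_OCN) (h4 : Stmt_DDSr Cl) (h5 : Stmt_CLQ) (h6 : Stmt_TWC)
    (h6a : Stmt_TWN) (h6b : Stmt_TWG) (h6c : Stmt_CHG) (h6d : Stmt_HHS) (h6e : Stmt_DEFM)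
    (h7 : Stmt_LNQ) (h8 : Stmt_DGM) (h8a : Stmt_ZST) (h8b : Stmt_CAZ) (h8c : Stmt_IDZ)
    (h9 : Stmt_CHI) : Stmt_PSNr Cl := by
  classical
  intro ℓ _
  have main : ∀ n : ℕ, ∀ (K : Type) [Group K] [Fintype K], Nat.card K = n → Cl K →
      HR Cl ℓ n → PF ℓ K := by
    intro n
    induction n using Nat.strong_induction_on with
    | _ n ih =>
      intro K _ _ hn hK hHQ
      have hPL : ∀ (K' : Type) [Group K'] [Fintype K'], Cl K' → Nat.card K' < Nat.card K →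
          PL ℓ K' := by
        intro K' _ _ hK'c hK'
        apply h2
        rw [hn] at hK'
        exact ih _ hK' K' rfl hK'c (HR.mono hHQ hK'.le)
      intro L H _ _ _ _ 𝔐 h𝔐 hℓ π hπ hker hcyc μ hμ M hM f hf hHH ω d hne
      by_cases hQ : ∃ Q : Subgroup K, Q.Normal ∧ IsPGroup ℓ Q ∧ Q ≠ ⊥ ∧ Q ⊓ M = ⊥
      · -- a minimal one
        obtain ⟨Q, ⟨hQn, hQp, hQ1, hQM⟩, hmin⟩ : ∃ Q : Subgroup K,
            (Q.Normal ∧ IsPGroup ℓ Q ∧ Q ≠ ⊥ ∧ Q ⊓ M = ⊥) ∧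
            ∀ Q' : Subgroup K, (Q'.Normal ∧ IsPGroup ℓ Q' ∧ Q' ≠ ⊥ ∧ Q' ⊓ M = ⊥) →
              ¬ Q' < Q := by
          obtain ⟨Q, hQ⟩ := (Set.toFinite {Q : Subgroup K | Q.Normal ∧ IsPGroup ℓ Q ∧ Q ≠ ⊥ ∧
            Q ⊓ M = ⊥}).exists_minimal hQ
          exact ⟨Q, hQ.prop, fun Q' hQ' hlt => hlt.not_ge (hQ.le_of_le hQ' hlt.le)⟩
        have hQmin : ∀ Q' : Subgroup K, Q'.Normal → Q' ≤ Q → Q' = ⊥ ∨ Q' = Q := by
          intro Q' hQ'n hQ'
          by_cases h0 : Q' = ⊥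
          · exact Or.inl h0
          · right
            by_contra hne'
            refine hmin Q' ⟨hQ'n, hQp.to_le hQ', h0, ?_⟩ (lt_of_le_of_ne hQ' hne')
            rw [eq_bot_iff, ← hQM]
            exact inf_le_inf_right _ hQ'
        have hcomm : ∀ x ∈ Q, ∀ y ∈ M, x * y = y * x := by
          intro x hx y hy
          exact Subgroup.commute_of_normal_of_disjoint Q M hQn hM
            (disjoint_iff.mpr hQM) x y hx hy
        obtain ⟨ν, hν1, hν2, hν3⟩ := h5 L K 𝔐 ℓ h𝔐 hℓ π hπ hker μ M Q hM hQn hcomm ω d hne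
        by_cases hst : M.comap π ≤ sx ν
        · exact TWQr hC h6 h6a h6b h6c h6d h6e L K H 𝔐 ℓ h𝔐 hℓ π hπ hker μ M Q hM hQn hQp hQ1
            hQM f hf hHH hK hPL ν hν1 hν2 hst ω d hν3
        · obtain ⟨M₀, hLN⟩ := h7 L K ℓ π hπ hker μ hμ M Q hM hQn hQp hQmin hQM ν hν1 hν2 hst
          exact CIIr hC h1 h6c h9 h8 h8a h6d h8b h8c L K H 𝔐 ℓ h𝔐 hℓ π hπ hker μ Q M M₀ ν hLN hQ1
            f hf hHH hK hPL ω d hν3
      · by_cases htop : CS ℓ ⊤ (WF 𝔐 ℓ d π μ M ω) = 0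
        · rw [CS_top_eq h1 ℓ M hM] at htop
          have hemp : (∅ : Finset (Subgroup K)) ∈ OutC ℓ (⊥ : Subgroup K) M := by
            rw [OutC, Finset.mem_filter, mem_Ch]
            exact ⟨isCh_empty ℓ ⊥, by simp⟩
          rw [← Finset.add_sum_erase _ _ hemp, innerS_empty h9, Finset.card_empty, pow_zero,
            one_mul] at htop
          have hex : ∃ c ∈ (OutC ℓ (⊥ : Subgroup K) M).erase ∅,
              (-1 : ℚ) ^ c.card * innerS ℓ ⊥ M (WF 𝔐 ℓ d π μ M ω) c ≠ 0 := by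
            by_contra hcon
            push Not at hcon
            rw [Finset.sum_eq_zero hcon, add_zero] at htop
            exact hne htop
          obtain ⟨c, hc, hc'⟩ := hex
          rw [Finset.mem_erase, OutC, Finset.mem_filter, mem_Ch] at hc
          obtain ⟨hc0, hc1, hc2⟩ := hc
          have hcne : c.Nonempty := Finset.nonempty_iff_ne_empty.mpr hc0
          have hin : innerS ℓ ⊥ M (WF 𝔐 ℓ d π μ M ω) c ≠ 0 := right_ne_zero_of_mul hc'
          have hstb : stb c ≠ ⊤ := by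
            intro hst
            apply hQ
            refine ⟨tp ⊥ c, tp_normal hc1 hcne hst, (hc1.1 _ (tp_mem hc1 hcne)).1, ?_,
              hc2 _ (tp_mem hc1 hcne)⟩
            exact (hc1.1 _ (tp_mem hc1 hcne)).2.ne'
          have hlt : Nat.card ↥(stb c) < Nat.card K := by
            refine lt_of_le_of_ne (Subgroup.card_le_card_group _) ?_
            intro h
            exact hstb (Subgroup.eq_top_of_card_eq _ h)
          exact h3 L K H 𝔐 ℓ h𝔐 hℓ π hπ hker μ M hM f hf hHH c hc1 hc2 (hPL _ (hC.sub hK _) hlt)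
            ω d hin
        · rw [← hn] at hHQ
          exact h4 L K 𝔐 ℓ h𝔐 hℓ π hπ hker hcyc μ hμ hK hHQ M hM ω d htop
  intro K _ _ hK hHQ
  exact main _ K rfl hK hHQ

end Pool.Agent.DPK


end

section

/-!
# Module DPK_PSZr: the sum over the chains of a minimal counterexample and the sum over the chains
of a normal subgroup, for a class of groups
-/

namespace Pool.Agent.DPK

open Pool.Agent.DP Pool.Agent.DPC Pool.Agent.DPM Pool.Agent.DPN Pool.Agent.Lib_helper13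
open Pool.Agent.DPT
open Representation
open Pool.Agent.Lib_helper13.Dade (pCore DadeHolds dadeSum)

/-- MODULE DPK_PSZr -/
theorem PSZr_thm (Cl : ∀ (Y : Type) [Group Y], Prop) (hC : GC Cl) (h1 : Stmt_PSNr Cl)
    (h2 : Stmt_CRS) (h3 : Stmt_OCN) (h4 : Stmt_SPLM) (h5 : Stmt_CHI) : Stmt_PSZr Cl := by
  classical
  intro L K H _ _ _ _ _ _ 𝔐 ℓ _ h𝔐 hℓ π hπ hker μ hcore hCK hQ M hM p _ hpk P hP ω hPos d
  rw [PSO.DKU_eq, PSO.PHU_eq h5, PSN.CS_top_eq h4 ℓ M hM]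
  have hemp : (∅ : Finset (Subgroup K)) ∈ OutC ℓ (⊥ : Subgroup K) M := by
    rw [OutC, Finset.mem_filter, mem_Ch]
    exact ⟨isCh_empty ℓ ⊥, by simp⟩
  rw [← Finset.add_sum_erase _ _ hemp, PSN.innerS_empty h5, Finset.card_empty, pow_zero,
    one_mul, Finset.sum_eq_zero, add_zero]
  intro c hc
  rw [Finset.mem_erase, OutC, Finset.mem_filter, mem_Ch] at hc
  obtain ⟨hc0, hc1, hc2⟩ := hc
  by_contra hne
  have hin : innerS ℓ ⊥ M (WF 𝔐 ℓ d π μ M ω) c ≠ 0 := right_ne_zero_of_mul hne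
  have hlt := PSY.card_stb_lt hcore hc1 (Finset.nonempty_iff_ne_empty.mpr hc0)
  have hPL : PL ℓ ↥(stb c) := h2 ℓ _ (h1 ℓ _ (hC.sub hCK _) (hQ _ hlt))
  exact PSO.not_GdF hPos (h3 L K H 𝔐 ℓ h𝔐 hℓ π hπ hker μ M hM p hpk (PSO.hh hP) c hc1 hc2 hPL
    ω d hin)

end Pool.Agent.DPK


end

section

/-!
# Module HATY: the covering group of `Y`
-/

set_option autoImplicit false

namespace Pool.Agent.DPV

open Pool.Agent.DP Pool.Agent.Lib_helper13 Representation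
open Pool.Agent.Lib_helper13.Dade (pCore DadeHolds dadeSum)

namespace HATY

section ys

variable {A Y K : Type*} [Group A] [Group Y] [Group K] {j : A →* Y} {c : Y →* MulAut A}
  {p : Y →* K}

theorem mem_YS_act (h : ClG j c p) (τ : Finset (Subgroup A)) (y : Y) :
    y ∈ YS j τ ↔ ∀ D ∈ τ, ∀ a, a ∈ D ↔ c y a ∈ D := by
  have hj : ∀ (D : Subgroup A) (a : A), j a ∈ D.map j ↔ a ∈ D := by
    intro D a
    constructor
    · rintro ⟨b, hb, hab⟩
      exact h.inj hab ▸ hb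
    · intro ha
      exact ⟨a, ha, rfl⟩
  rw [mem_stb']
  constructor
  · intro h1 D hD a
    have h2 := h1 (D.map j) (mem_mapCh.mpr ⟨D, hD, rfl⟩) (j a)
    rw [← h.act, hj, hj] at h2
    exact h2
  · intro h1 E hE x
    obtain ⟨D, hD, rfl⟩ := mem_mapCh.mp hE
    constructor
    · rintro ⟨a, ha, rfl⟩
      rw [← h.act, hj]
      exact (h1 D hD a).mp ha
    · rintro ⟨d, hd, hdx⟩
      have h2 : c y (c y⁻¹ d) = d := by
        rw [← MulAut.mul_apply, ← map_mul, mul_inv_cancel, map_one, MulAut.one_apply]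
      have h3 : c y⁻¹ d ∈ D := by
        rw [h1 D hD, h2]
        exact hd
      refine ⟨c y⁻¹ d, h3, ?_⟩
      rw [h.act, inv_inv, hdx]
      group

end ys

section cover

variable {O G B B' Y : Type} [Group G] [Group B] [Group B'] [Group Y]

/-- The homomorphism of wreath products induced by `π`. -/
def mp (O : Type) (π : B' →* B) :
    Gam (Equiv.Perm O) O B' →* Gam (Equiv.Perm O) O B where
  toFun z := ⟨fun o => π (z.left o), z.right⟩
  map_one' := by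
    apply SemidirectProduct.ext
    · funext o
      exact map_one π
    · rfl
  map_mul' x y := by
    apply SemidirectProduct.ext
    · funext o
      exact map_mul π _ _
    · rfl

/-- The covering group. -/
def CY (π : B' →* B) (φ : Y →* Gam (Equiv.Perm O) O B) :
    Subgroup (Y × Gam (Equiv.Perm O) O B') where
  carrier := {x | φ x.1 = mp O π x.2}
  one_mem' := by
    change φ (1 : Y) = mp O π 1
    rw [map_one, map_one]
  mul_mem' := by
    intro x y hx hy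
    change φ (x.1 * y.1) = mp O π (x.2 * y.2)
    rw [map_mul, map_mul]
    exact congrArg₂ (· * ·) hx hy
  inv_mem' := by
    intro x hx
    change φ (x.1⁻¹) = mp O π (x.2⁻¹)
    rw [map_inv, map_inv]
    exact congrArg (·⁻¹) hx

theorem mem_CY {π : B' →* B} {φ : Y →* Gam (Equiv.Perm O) O B}
    {x : Y × Gam (Equiv.Perm O) O B'} : x ∈ CY π φ ↔ φ x.1 = mp O π x.2 := Iff.rfl

end cover

theorem card_ker {O G B B' Y : Type} [Fintype O] [Group G] [Group B] [Group B'] [Group Y]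
    (π : B' →* B) (φ : Y →* Gam (Equiv.Perm O) O B) :
    Nat.card ((MonoidHom.fst Y (Gam (Equiv.Perm O) O B')).comp (CY π φ).subtype).ker =
      Nat.card π.ker ^ Fintype.card O := by
  classical
  have e : ((MonoidHom.fst Y (Gam (Equiv.Perm O) O B')).comp (CY π φ).subtype).ker ≃
      (O → π.ker) :=
    { toFun := fun x o => ⟨(x : CY π φ).1.2.left o, by
        have h1 : (x : CY π φ).1.1 = 1 := x.2
        have h2 : φ (x : CY π φ).1.1 = mp O π (x : CY π φ).1.2 := (x : CY π φ).2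
        rw [h1, map_one] at h2
        have h3 := congrFun (congrArg SemidirectProduct.left h2) o
        exact h3.symm⟩
      invFun := fun f => ⟨⟨(1, SemidirectProduct.inl (fun o => ((f o : π.ker) : B'))), by
        rw [mem_CY]
        change φ (1 : Y) = _
        rw [map_one]
        apply SemidirectProduct.ext
        · funext o
          exact ((f o).2 : π (f o : B') = 1).symm
        · rfl⟩, rfl⟩
      left_inv := by
        intro x
        have h1 : (x : CY π φ).1.1 = 1 := x.2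
        have h2 : φ (x : CY π φ).1.1 = mp O π (x : CY π φ).1.2 := (x : CY π φ).2
        rw [h1, map_one] at h2
        have h3 : (1 : Equiv.Perm O) = (x : CY π φ).1.2.right := congrArg SemidirectProduct.right h2
        apply Subtype.ext
        apply Subtype.ext
        apply Prod.ext
        · exact h1.symm
        · apply SemidirectProduct.ext
          · rfl
          · exact h3
      right_inv := by
        intro f
        rfl }
  rw [Nat.card_congr e, Nat.card_pi, Finset.prod_const, Finset.card_univ]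

end HATY

open _root_.Pool.Agent.DPV.HATY in
theorem HATY_thm : Stmt_HATY := by
  intro O G B C B' C' Y K _ _ _ _ _ _ _ _ _ _ _ _ _ ℓ _ ι κ ρ hL ι' κ' ρ' π hL' hπ hι hκ hker
    j p φ hE
  classical
  have hfin : Finite (Gam (Equiv.Perm O) O B') :=
    Finite.of_equiv ((O → B') × Equiv.Perm O)
      (SemidirectProduct.equivProd (φ := pAct (Equiv.Perm O) O B')).symm
  have hmp : ∀ n : O → G, φ (j n) = mp O π (SemidirectProduct.inl (fun o => ι' (n o))) := by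
    intro n
    rw [hE.jn]
    apply SemidirectProduct.ext
    · funext o
      exact (hι (n o)).symm
    · rfl
  -- the embedding of the base group
  let j' : (O → G) →* CY π φ :=
    { toFun := fun n => ⟨(j n, SemidirectProduct.inl (fun o => ι' (n o))), hmp n⟩
      map_one' := by
        apply Subtype.ext
        apply Prod.ext
        · exact map_one j
        · apply SemidirectProduct.ext
          · funext o
            exact map_one ι'
          · rfl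
      map_mul' := by
        intro m n
        apply Subtype.ext
        apply Prod.ext
        · exact map_mul j m n
        · apply SemidirectProduct.ext
          · funext o
            exact map_mul ι' (m o) (n o)
          · rfl }
  let φ' : CY π φ →* Gam (Equiv.Perm O) O B' :=
    (MonoidHom.snd Y (Gam (Equiv.Perm O) O B')).comp (CY π φ).subtype
  let q : CY π φ →* Y := (MonoidHom.fst Y (Gam (Equiv.Perm O) O B')).comp (CY π φ).subtype
  have hact : ∀ (y : CY π φ) (a : O → G),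
      wB κ' O (φ' y) a = wB κ O (φ (q y)) a := by
    intro y a
    have h1 : φ (q y) = mp O π (φ' y) := y.2
    funext o
    rw [wB_apply, wB_apply, h1, hκ]
    rfl
  have hconj : ∀ (y : CY π φ) (a : O → G), j' (wB κ' O (φ' y) a) = y * j' a * y⁻¹ := by
    intro y a
    apply Subtype.ext
    apply Prod.ext
    · change j (wB κ' O (φ' y) a) = q y * j a * (q y)⁻¹
      rw [hact]
      exact hE.cl.act (q y) a
    · change SemidirectProduct.inl (fun o => ι' (wB κ' O (φ' y) a o)) =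
        φ' y * SemidirectProduct.inl (fun o => ι' (a o)) * (φ' y)⁻¹
      have h1 := conj_iN (K := Equiv.Perm O) (φ' y) (fun o => ι' (a o))
      refine Eq.trans ?_ h1
      apply SemidirectProduct.ext
      · funext o
        exact hL'.cl.act ((φ' y).left o) (a ((φ' y).right⁻¹ • o))
      · rfl
  have hnormal : j'.range.Normal := by
    refine ⟨?_⟩
    rintro _ ⟨a, rfl⟩ y
    exact ⟨_, hconj y a⟩
  let p' : CY π φ →* CY π φ ⧸ j'.range := QuotientGroup.mk' j'.range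
  have hcl : ClG j' ((wB κ' O).comp φ') p' :=
    { inj := by
        intro a b hab
        have h1 : j a = j b := congrArg (fun x : CY π φ => x.1.1) hab
        exact hE.cl.inj h1
      act := hconj
      ker := fun y => QuotientGroup.eq_one_iff y }
  have hq : Function.Surjective q := by
    intro y
    choose s hs using hπ
    refine ⟨⟨(y, ⟨fun o => s ((φ y).left o), (φ y).right⟩), ?_⟩, rfl⟩
    rw [mem_CY]
    apply SemidirectProduct.ext
    · funext o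
      exact (hs ((φ y).left o)).symm
    · rfl
  refine ⟨CY π φ, CY π φ ⧸ j'.range, inferInstance, Fintype.ofFinite _, inferInstance,
    inferInstance, j', p', φ', q, ⟨hcl, QuotientGroup.mk'_surjective _, fun n => rfl⟩, hq,
    fun n => rfl, ?_, ?_⟩
  · change ¬ ℓ ∣ Nat.card
      ((MonoidHom.fst Y (Gam (Equiv.Perm O) O B')).comp (CY π φ).subtype).ker
    rw [card_ker (G := G)]
    intro h
    exact hker ((Fact.out : ℓ.Prime).dvd_of_dvd_pow h)
  · intro τ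
    ext y
    rw [Subgroup.mem_comap, mem_YS_act hcl, mem_YS_act hE.cl]
    refine forall₂_congr fun D _ => forall_congr' fun a => ?_
    change (a ∈ D ↔ wB κ' O (φ' y) a ∈ D) ↔ (a ∈ D ↔ wB κ O (φ (q y)) a ∈ D)
    rw [hact]

end Pool.Agent.DPV


end

section

/-!
# Module DXMX: the defect groups of a block with cyclic defect groups
-/

set_option autoImplicit false

namespace Pool.Agent.DPX

open Pool.Agent.DP Pool.Agent.DPB Pool.Agent.DPW Pool.Agent.Lib_helper13 Representation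

namespace DXMX

open GCX

section

variable {T : Type} [Group T] [Fintype T] {ℓ : ℕ} [hp : Fact ℓ.Prime]

/-- A Sylow subgroup of a centralizer. -/
theorem syl (h : T) : ∃ (n : ℕ) (Q : Subgroup T), (∀ u ∈ Q, u * h = h * u) ∧ IsPGroup ℓ Q ∧
    Nat.card Q = ℓ ^ n ∧ ∀ m, ℓ ^ m ∣ Nat.card (Subgroup.centralizer ({h} : Set T)) → m ≤ n := by
  obtain ⟨C, hC⟩ : ∃ C, C = Subgroup.centralizer ({h} : Set T) := ⟨_, rfl⟩
  obtain ⟨S⟩ : Nonempty (Sylow ℓ C) := inferInstance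
  refine ⟨(Nat.card C).factorization ℓ, (S : Subgroup C).map C.subtype, ?_,
    S.isPGroup'.map C.subtype, ?_, ?_⟩
  · rintro u ⟨y, _, rfl⟩
    have h1 : (y : T) ∈ Subgroup.centralizer ({h} : Set T) := hC ▸ y.2
    exact mem_cen.1 h1
  · rw [← S.card_eq_multiplicity]
    exact (Nat.card_congr ((S : Subgroup C).equivMapOfInjective C.subtype
      C.subtype_injective).toEquiv).symm
  · intro m hm
    rw [← hC] at hm
    exact (hp.out.pow_dvd_iff_le_factorization Nat.card_pos.ne').1 hm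

theorem isCyclic_of_conj {Q P : Subgroup T} (hP : IsCyclic P) {t : T}
    (h : ∀ u ∈ Q, t * u * t⁻¹ ∈ P) : IsCyclic Q := by
  have h1 : cj t Q ≤ P := by
    intro x hx
    rw [mem_cj] at hx
    have h2 := h _ hx
    have e : t * (t⁻¹ * x * t) * t⁻¹ = x := by group
    rwa [e] at h2
  have h3 : IsCyclic (Q.map (MulAut.conj t).toMonoidHom) :=
    isCyclic_of_injective (Subgroup.inclusion h1) (Subgroup.inclusion_injective h1)
  exact isCyclic_of_surjective (Q.equivMapOfInjective (MulAut.conj t).toMonoidHom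
    (MulAut.conj t).injective).symm (Q.equivMapOfInjective (MulAut.conj t).toMonoidHom
    (MulAut.conj t).injective).symm.surjective

theorem cj_le_cen {Q : Subgroup T} {t x : T} (h : ∀ u ∈ Q, t * u * t⁻¹ * x = x * (t * u * t⁻¹)) :
    cj t Q ≤ Subgroup.centralizer ({x} : Set T) := by
  intro y hy
  rw [mem_cj] at hy
  have h2 := h _ hy
  have e : t * (t⁻¹ * y * t) * t⁻¹ = y := by group
  rw [e] at h2
  exact mem_cen.2 h2

theorem cj_cj (s t : T) (H : Subgroup T) : cj s (cj t H) = cj (s * t) H := by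
  ext x
  rw [mem_cj, mem_cj, mem_cj]
  have e : t⁻¹ * (s⁻¹ * x * s) * t = (s * t)⁻¹ * x * (s * t) := by group
  rw [e]

variable {F : Type} [Zero F]

/-- The abstract part. -/
theorem main (ω : T → F) (h : T) (hωh : ω h ≠ 0)
    (star : ∀ Q : Subgroup T, IsPGroup ℓ Q → (∀ u ∈ Q, u * h = h * u) → ∀ x, ω x ≠ 0 →
      ∃ t, ∀ u ∈ Q, t * u * t⁻¹ * x = x * (t * u * t⁻¹))
    (sup : ∀ (n : ℕ) (P₁ P : Subgroup T) (x₀ : T), CycD ℓ n P₁ P x₀ → ∀ Q : Subgroup T,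
      IsPGroup ℓ Q → (∀ u ∈ Q, u * x₀ = x₀ * u) →
      ∃ t, t * x₀ = x₀ * t ∧ ∀ u ∈ Q, t * u * t⁻¹ ∈ P) :
    (DX ℓ ω → ∃ (n : ℕ) (P₁ P : Subgroup T) (x₀ : T), AtX ℓ n ω P₁ P x₀) ∧
    ∀ (n : ℕ) (P₁ P : Subgroup T) (x₀ : T), AtX ℓ n ω P₁ P x₀ →
      0 < n ∧ DX ℓ ω ∧
      (∀ x, ω x ≠ 0 → ∃ t : T, ∀ u ∈ P, t * u * t⁻¹ * x = x * (t * u * t⁻¹)) ∧
      ∀ (n' : ℕ) (P₁' P' : Subgroup T) (x₀' : T), AtX ℓ n' ω P₁' P' x₀' →
        n' = n ∧ ∃ t : T, P₁' = P₁.map (MulAut.conj t).toMonoidHom ∧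
          P' = P.map (MulAut.conj t).toMonoidHom := by
  have hℓ : ℓ.Prime := hp.out
  obtain ⟨k, Q, hQh, hQp, hQc, hQm⟩ := syl (ℓ := ℓ) h
  have st := star Q hQp hQh
  -- every defect group is conjugate to `Q`
  have key : ∀ (n : ℕ) (P₁ P : Subgroup T) (x₀ : T), AtX ℓ n ω P₁ P x₀ →
      n = k ∧ ∃ s, P = cj s Q := by
    intro n P₁ P x₀ hA
    obtain ⟨t₁, ht₁⟩ := st x₀ hA.ne
    obtain ⟨t₂, -, ht₂⟩ := sup n P₁ P x₀ hA.cd (cj t₁ Q) (isPGroup_cj hQp)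
      (fun u hu => mem_cen.1 (cj_le_cen ht₁ hu))
    have hle : cj (t₂ * t₁) Q ≤ P := by
      rw [← cj_cj]
      intro x hx
      rw [mem_cj] at hx
      have h3 := ht₂ _ hx
      have e : t₂ * (t₂⁻¹ * x * t₂) * t₂⁻¹ = x := by group
      rwa [e] at h3
    have hnk : n ≤ k := hQm n (hA.mn h hωh)
    have hcard : Nat.card P ≤ Nat.card (cj (t₂ * t₁) Q) := by
      rw [card_cj, hQc, hA.cd.card]
      exact Nat.pow_le_pow_right hℓ.pos hnk
    have heq : cj (t₂ * t₁) Q = P := Subgroup.eq_of_le_of_card_ge hle hcard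
    refine ⟨?_, t₂ * t₁, heq.symm⟩
    have h4 : ℓ ^ n = ℓ ^ k := by
      rw [← hA.cd.card, ← heq, card_cj, hQc]
    exact Nat.pow_right_injective hℓ.two_le h4
  constructor
  · rintro ⟨⟨x, hx, hcyc⟩, hdvd⟩
    obtain ⟨t, ht⟩ := st x hx
    have hcQ : IsCyclic Q := by
      have h3 : IsCyclic (cj t Q) := hcyc (cj t Q) (isPGroup_cj hQp) (cj_le_cen ht)
      exact isCyclic_of_conj h3 fun u hu => conj_mem_cj hu
    have hk : 1 ≤ k := hQm 1 (by rw [pow_one]; exact hdvd h hωh)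
    have hdQ : ℓ ∣ Nat.card Q := by
      rw [hQc]
      exact dvd_pow_self _ (by omega)
    have : Fintype Q := Fintype.ofFinite Q
    obtain ⟨u, hu⟩ := exists_prime_orderOf_dvd_card' (G := Q) ℓ hdQ
    refine ⟨k, Subgroup.zpowers (u : T), Q, h, ?_⟩
    refine { cd := { le := ?_, c1 := ?_, cyc := hcQ, card := hQc, cen := hQh, sq := ?_ }
             ne := hωh
             mn := ?_ }
    · rw [Subgroup.zpowers_le]
      exact u.2
    · rw [Nat.card_zpowers, Subgroup.orderOf_coe, hu]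
    · intro h3
      have := hQm _ h3
      omega
    · intro y hy
      obtain ⟨s, hs⟩ := st y hy
      rw [← hQc, ← card_cj s Q]
      exact Subgroup.card_dvd_of_le (cj_le_cen hs)
  · intro n P₁ P x₀ hA
    have hn : 0 < n := by
      rcases Nat.eq_zero_or_pos n with h0 | h0
      · have h3 : Nat.card P₁ ∣ Nat.card P := Subgroup.card_dvd_of_le hA.cd.le
        rw [hA.cd.c1, hA.cd.card, h0, pow_zero] at h3
        exact absurd h3 hℓ.not_dvd_one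
      · exact h0
    obtain ⟨hnk, s, hs⟩ := key n P₁ P x₀ hA
    refine ⟨hn, ⟨⟨x₀, hA.ne, ?_⟩, ?_⟩, ?_, ?_⟩
    · intro R hR hRc
      obtain ⟨t, -, ht⟩ := sup n P₁ P x₀ hA.cd R hR fun u hu => mem_cen.1 (hRc hu)
      exact isCyclic_of_conj hA.cd.cyc ht
    · intro x hx
      exact (dvd_pow_self ℓ hn.ne').trans (hA.mn x hx)
    · intro x hx
      obtain ⟨t, ht⟩ := st x hx
      refine ⟨t * s⁻¹, fun u hu => ?_⟩
      rw [hs, mem_cj] at hu
      have h3 := ht _ hu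
      have e : t * s⁻¹ * u * (t * s⁻¹)⁻¹ = t * (s⁻¹ * u * s) * t⁻¹ := by group
      rw [e]
      exact h3
    · intro n' P₁' P' x₀' hA'
      obtain ⟨hnk', s', hs'⟩ := key n' P₁' P' x₀' hA'
      refine ⟨hnk'.trans hnk.symm, s' * s⁻¹, ?_, ?_⟩
      · have h3 : P' = cj (s' * s⁻¹) P := by
          rw [hs, cj_cj, inv_mul_cancel_right, hs']
        refine uniq' (P := P') hA'.cd.cyc hA'.cd.le ?_ ?_
        · rw [h3]
          exact Subgroup.map_mono hA.cd.le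
        · rw [hA'.cd.c1, ← hA.cd.c1]
          exact (card_cj (s' * s⁻¹) P₁).symm
      · have h3 : P' = cj (s' * s⁻¹) P := by
          rw [hs, cj_cj, inv_mul_cancel_right, hs']
        exact h3

end

end DXMX

/-- DXMX. -/
theorem DXMX_thm (h1 : Stmt_IDX) (h2 : Stmt_SUPX) : Stmt_DXMX := by
  intro T _ _ 𝔐 ℓ _ hmax hℓ χ₀ hχ₀
  let _ : Field ((integralClosure ℤ ℂ) ⧸ 𝔐) := Ideal.Quotient.field 𝔐
  have hrs : Function.Surjective (Ideal.Quotient.mk 𝔐) := Ideal.Quotient.mk_surjective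
  have hch : CharP ((integralClosure ℤ ℂ) ⧸ 𝔐) ℓ := by
    rw [CharP.charP_iff_prime_eq_zero (Fact.out : ℓ.Prime)]
    rw [← map_natCast (Ideal.Quotient.mk 𝔐)]
    exact Ideal.Quotient.eq_zero_iff_mem.mpr hℓ
  obtain ⟨a, -, -, -, hfac, ⟨h, hh, hωh⟩, -, -⟩ := h1 _ T 𝔐 ℓ hmax hℓ (Ideal.Quotient.mk 𝔐) hrs
    Ideal.mk_ker χ₀ hχ₀
  refine DXMX.main (cen 𝔐 (MonoidHom.id T) χ₀) h hωh ?_ (fun n P₁ P x₀ hc =>
    h2.2.1 ℓ n T P₁ P x₀ hc)
  intro Q hQ hQh x hx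
  obtain ⟨y, hy, hey⟩ := hfac x hx
  refine h2.1 ℓ _ T x y hy h ?_ Q hQ hQh
  rw [← hey]
  exact hh

end Pool.Agent.DPX


end

section

/-!
# Dade's conjecture: the factors of a minimal normal subgroup
-/

namespace Pool.Agent.DPG

open scoped commutatorElement

namespace CNA

variable {K : Type} [Group K]

/-- The conjugate of `E` with `k`. -/
def cg (E : Subgroup K) (k : K) : Subgroup K := E.map (MulAut.conj k).toMonoidHom

theorem mem_cg {E : Subgroup K} {k x : K} : x ∈ cg E k ↔ k⁻¹ * x * k ∈ E := by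
  unfold cg
  rw [Subgroup.mem_map]
  constructor
  · rintro ⟨y, hy, rfl⟩
    have : k⁻¹ * ((MulAut.conj k).toMonoidHom y) * k = y := by
      simp [MulAut.conj_apply, mul_assoc]
    rw [this]
    exact hy
  · intro h
    refine ⟨_, h, ?_⟩
    simp [MulAut.conj_apply, mul_assoc]

/-- `E` is a nontrivial subgroup of `N` normalized by `N`. -/
structure IsS (N E : Subgroup K) : Prop where
  le : E ≤ N
  ne : E ≠ ⊥
  nm : ∀ n ∈ N, ∀ x ∈ E, n * x * n⁻¹ ∈ E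

theorem isS_cg {N E : Subgroup K} [hN : N.Normal] (h : IsS N E) (k : K) : IsS N (cg E k) := by
  refine ⟨?_, ?_, ?_⟩
  · intro x hx
    have h1 := hN.conj_mem _ (h.le (mem_cg.1 hx)) k
    have h2 : k * (k⁻¹ * x * k) * k⁻¹ = x := by group
    rwa [h2] at h1
  · intro hb
    apply h.ne
    rw [Subgroup.eq_bot_iff_forall]
    intro x hx
    have h1 : k * x * k⁻¹ ∈ cg E k := by
      rw [mem_cg]
      have h2 : k⁻¹ * (k * x * k⁻¹) * k = x := by group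
      rwa [h2]
    rw [hb, Subgroup.mem_bot] at h1
    exact conj_eq_one_iff.1 h1
  · intro n hn x hx
    rw [mem_cg] at hx ⊢
    have h1 : k⁻¹ * n * k ∈ N := by
      have h2 := hN.conj_mem _ hn k⁻¹
      rwa [inv_inv] at h2
    have h3 := h.nm _ h1 _ hx
    have h4 : k⁻¹ * n * k * (k⁻¹ * x * k) * (k⁻¹ * n * k)⁻¹ = k⁻¹ * (n * x * n⁻¹) * k := by
      group
    rwa [h4] at h3

theorem exists_min [Finite K] {N : Subgroup K} [N.Normal] (hN : N ≠ ⊥) :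
    ∃ E : Subgroup K, IsS N E ∧ ∀ F : Subgroup K, IsS N F → F ≤ E → F = E := by
  have hne : {E : Subgroup K | IsS N E}.Nonempty := by
    refine ⟨N, le_rfl, hN, ?_⟩
    intro n hn x hx
    exact N.mul_mem (N.mul_mem hn hx) (N.inv_mem hn)
  obtain ⟨E, hE, hm⟩ := (Set.toFinite {E : Subgroup K | IsS N E}).exists_minimal hne
  exact ⟨E, hE, fun F hF hFE => le_antisymm hFE (hm hF hFE)⟩

theorem comm_of_disj {N E F : Subgroup K} (hE : IsS N E) (hF : IsS N F)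
    (h : F ⊓ E = ⊥) {x y : K} (hx : x ∈ F) (hy : y ∈ E) : x * y = y * x := by
  have h1 : x * y * x⁻¹ * y⁻¹ ∈ F ⊓ E := by
    refine ⟨?_, ?_⟩
    · have h2 : x * y * x⁻¹ * y⁻¹ = x * (y * x⁻¹ * y⁻¹) := by group
      rw [h2]
      exact F.mul_mem hx (hF.nm _ (hE.le hy) _ (F.inv_mem hx))
    · exact E.mul_mem (hE.nm _ (hF.le hx) _ hy) (E.inv_mem hy)
  rw [h, Subgroup.mem_bot] at h1
  have h3 : x * y * x⁻¹ = y := mul_inv_eq_one.1 h1
  exact mul_inv_eq_iff_eq_mul.1 h3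

end CNA

open _root_.Pool.Agent.DPG.CNA in
theorem CNA_thm : Stmt_CNA := by
  intro K _ _ N hNn hN hmin hna hns
  obtain ⟨E, hE, hEm⟩ := exists_min hN
  -- the two possibilities for a conjugate
  have key : ∀ k : K, cg E k = E ∨ cg E k ⊓ E = ⊥ := by
    intro k
    by_cases hb : cg E k ⊓ E = ⊥
    · exact Or.inr hb
    · left
      have h1 : IsS N (cg E k ⊓ E) := by
        refine ⟨le_trans inf_le_right hE.le, hb, ?_⟩
        intro n hn x hx
        exact ⟨(isS_cg hE k).nm n hn x hx.1, hE.nm n hn x hx.2⟩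
      have h2 := hEm _ h1 inf_le_right
      have h3 : E ≤ cg E k := by
        have h0 : cg E k ⊓ E ≤ cg E k := inf_le_left
        rwa [h2] at h0
      have h4 : Nat.card (cg E k) = Nat.card E :=
        (Nat.card_congr (E.equivMapOfInjective _ (MulAut.conj k).injective).toEquiv).symm
      exact (Subgroup.eq_of_le_of_card_ge h3 (le_of_eq h4)).symm
  have hcm : ∀ k : K, cg E k = E ∨ ∀ x ∈ cg E k, ∀ y ∈ E, x * y = y * x := by
    intro k
    rcases key k with h | h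
    · exact Or.inl h
    · exact Or.inr fun x hx y hy => comm_of_disj hE (isS_cg hE k) h hx hy
  have hsup : (⨆ k : K, cg E k) = N := by
    have hle : (⨆ k : K, cg E k) ≤ N := iSup_le fun k => (isS_cg hE k).le
    have hn : (⨆ k : K, cg E k).Normal := by
      constructor
      intro x hx g
      have h1 : (⨆ k : K, cg E k) ≤ (⨆ k : K, cg E k).comap (MulAut.conj g).toMonoidHom := by
        refine iSup_le fun k => ?_
        intro y hy
        rw [Subgroup.mem_comap]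
        refine (le_iSup (fun k => cg E k) (g * k)) ?_
        rw [mem_cg] at hy ⊢
        have h2 : (g * k)⁻¹ * ((MulAut.conj g).toMonoidHom y) * (g * k) = k⁻¹ * y * k := by
          change (g * k)⁻¹ * (g * y * g⁻¹) * (g * k) = k⁻¹ * y * k
          group
        rw [h2]
        exact hy
      exact h1 hx
    rcases hmin _ hn hle with h | h
    · exfalso
      apply hE.ne
      rw [eq_bot_iff, ← h]
      intro x hx
      refine (le_iSup (fun k => cg E k) 1) ?_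
      rw [mem_cg]
      simpa using hx
    · exact h
  have hnab : ¬ ∀ x ∈ E, ∀ y ∈ E, x * y = y * x := by
    intro hab
    have h1 : ∀ k l : K, ∀ x ∈ cg E k, ∀ y ∈ cg E l, x * y = y * x := by
      intro k l x hx y hy
      rw [mem_cg] at hx hy
      have hx' : l⁻¹ * x * l ∈ cg E (l⁻¹ * k) := by
        rw [mem_cg]
        have h2 : (l⁻¹ * k)⁻¹ * (l⁻¹ * x * l) * (l⁻¹ * k) = k⁻¹ * x * k := by group
        rwa [h2]
      have h3 : (l⁻¹ * x * l) * (l⁻¹ * y * l) = (l⁻¹ * y * l) * (l⁻¹ * x * l) := by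
        rcases hcm (l⁻¹ * k) with h | h
        · rw [h] at hx'
          exact hab _ hx' _ hy
        · exact h _ hx' _ hy
      have h4 : l⁻¹ * (x * y) * l = l⁻¹ * (y * x) * l := by
        calc l⁻¹ * (x * y) * l = (l⁻¹ * x * l) * (l⁻¹ * y * l) := by group
          _ = (l⁻¹ * y * l) * (l⁻¹ * x * l) := h3
          _ = l⁻¹ * (y * x) * l := by group
      exact mul_left_cancel (mul_right_cancel h4)
    have h2 : (⨆ k : K, cg E k) ≤
        Subgroup.centralizer ((⨆ k : K, cg E k : Subgroup K) : Set K) := by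
      refine iSup_le fun k => ?_
      rw [Subgroup.le_centralizer_iff]
      refine iSup_le fun l => ?_
      intro y hy
      rw [Subgroup.mem_centralizer_iff]
      intro x hx
      exact h1 k l x hx y hy
    obtain ⟨x, hx, y, hy, hxy⟩ := hna
    rw [hsup] at h2
    have h5 := (Subgroup.mem_centralizer_iff.1 (h2 hy)) x hx
    exact hxy h5
  have hperf : ⁅E, E⁆ = E := by
    have h1 : ⁅E, E⁆ ≠ ⊥ := by
      intro hb
      apply hnab
      intro x hx y hy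
      have h2 : ⁅x, y⁆ ∈ ⁅E, E⁆ := Subgroup.commutator_mem_commutator hx hy
      rw [hb, Subgroup.mem_bot, commutatorElement_eq_one_iff_mul_comm] at h2
      exact h2
    have hle : ⁅E, E⁆ ≤ E := Subgroup.commutator_le.2 fun x hx y hy => by
      rw [commutatorElement_def]
      exact E.mul_mem (E.mul_mem (E.mul_mem hx hy) (E.inv_mem hx)) (E.inv_mem hy)
    refine hEm _ ⟨hle.trans hE.le, h1, ?_⟩ hle
    intro n hn x hx
    have h3 : E.map (MulAut.conj n).toMonoidHom ≤ E := by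
      rintro _ ⟨y, hy, rfl⟩
      exact hE.nm n hn y hy
    have h4 : ⁅E, E⁆.map (MulAut.conj n).toMonoidHom ≤ ⁅E, E⁆ := by
      rw [Subgroup.map_commutator]
      exact Subgroup.commutator_mono h3 h3
    exact h4 (Subgroup.mem_map_of_mem _ hx)
  have hcen : ∀ x ∈ E, (∀ y ∈ E, x * y = y * x) → x = 1 := by
    by_contra hcon
    push Not at hcon
    obtain ⟨z, hz, hzc, hz1⟩ := hcon
    have h1 : IsS N (E ⊓ Subgroup.centralizer (E : Set K)) := by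
      refine ⟨le_trans inf_le_left hE.le, ?_, ?_⟩
      · intro hb
        apply hz1
        have h2 : z ∈ E ⊓ Subgroup.centralizer (E : Set K) := by
          refine ⟨hz, ?_⟩
          refine Subgroup.mem_centralizer_iff.2 ?_
          intro y hy
          exact (hzc y hy).symm
        rw [hb, Subgroup.mem_bot] at h2
        exact h2
      · intro n hn x hx
        refine ⟨hE.nm n hn x hx.1, ?_⟩
        refine Subgroup.mem_centralizer_iff.2 ?_
        intro y hy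
        have h2 : n⁻¹ * y * n ∈ E := by
          have h3 := hE.nm n⁻¹ (N.inv_mem hn) y hy
          rwa [inv_inv] at h3
        have h4 := (Subgroup.mem_centralizer_iff.1 hx.2) _ h2
        calc y * (n * x * n⁻¹) = n * ((n⁻¹ * y * n) * x) * n⁻¹ := by group
          _ = n * (x * (n⁻¹ * y * n)) * n⁻¹ := by rw [h4]
          _ = n * x * n⁻¹ * y := by group
    have h5 := hEm _ h1 inf_le_left
    apply hnab
    intro x hx y hy
    have h6 : x ∈ E ⊓ Subgroup.centralizer (E : Set K) := by rw [h5]; exact hx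
    exact ((Subgroup.mem_centralizer_iff.1 h6.2) y hy).symm
  have hmov : ∃ k : K, cg E k ≠ E := by
    by_contra hcon
    push Not at hcon
    have hEN : E = N := by
      rw [← hsup]
      apply le_antisymm
      · have h1 := le_iSup (fun k => cg E k) 1
        simp only [hcon 1] at h1
        exact h1
      · exact iSup_le fun k => le_of_eq (hcon k)
    apply hns
    have hnt : Nontrivial N := by
      rw [Subgroup.nontrivial_iff_ne_bot]
      exact hN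
    refine { toNontrivial := hnt, eq_bot_or_eq_top_of_normal := ?_ }
    intro H hH
    by_cases hb : H = ⊥
    · exact Or.inl hb
    · right
      have h1 : IsS N (H.map N.subtype) := by
        refine ⟨Subgroup.map_subtype_le H, ?_, ?_⟩
        · intro h2
          apply hb
          rwa [Subgroup.map_eq_bot_iff_of_injective _ N.subtype_injective] at h2
        · rintro n hn _ ⟨x, hx, rfl⟩
          exact ⟨⟨n, hn⟩ * x * ⟨n, hn⟩⁻¹, hH.conj_mem x hx ⟨n, hn⟩, rfl⟩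
      have h2 : H.map N.subtype ≤ E := by
        rw [hEN]
        exact Subgroup.map_subtype_le H
      have h3 := hEm _ h1 h2
      rw [eq_top_iff]
      intro x _
      have h4 : (x : K) ∈ H.map N.subtype := by
        rw [h3, hEN]
        exact x.2
      obtain ⟨y, hy, hyx⟩ := h4
      have h5 : y = x := Subtype.ext hyx
      rwa [← h5]
  refine ⟨E, hE.le, hE.ne, hperf, hcen, ?_, hsup, hmov⟩
  intro k
  rcases hcm k with h | h
  · exact Or.inl h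
  · right
    intro x hx y hy
    refine h _ ?_ y hy
    rw [mem_cg]
    have h2 : k⁻¹ * (k * x * k⁻¹) * k = x := by group
    rwa [h2]

end Pool.Agent.DPG


end
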