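import Mathlib
import Pool.Agent.DAM.C100
import Pool.Agent.DAM.C101
import Pool.Agent.DAM.C102
import Pool.Agent.DAM.C103
import Pool.Agent.DAM.C104
import Pool.Agent.DAM.C105
import Pool.Agent.DAM.C106
import Pool.Agent.DAM.C107
import Pool.Agent.DAM.C108
import Pool.Agent.DAM.C110
import Pool.Agent.DAM.C111
import Pool.Agent.DAM.C112
import Pool.Agent.DAM.C113
import Pool.Agent.DAM.C114
import Pool.Agent.DAM.C115
import Pool.Agent.DAM.C116
import Pool.Agent.DAM.C117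
import Pool.Agent.DAM.C118
import Pool.Agent.DAM.C119
import Pool.Agent.DAM.C120
import Pool.Agent.DAM.C121
import Pool.Agent.DAM.C122
import Pool.Agent.DAM.C123
import Pool.Agent.DAM.C124
import Pool.Agent.DAM.C125
import Pool.Agent.DAM.C126
import Pool.Agent.DAM.C127
import Pool.Agent.DAM.C14
import Pool.Agent.DAM.C15
import Pool.Agent.DAM.C18
import Pool.Agent.DAM.C19
import Pool.Agent.DAM.C21
import Pool.Agent.DAM.C22
import Pool.Agent.DAM.C24
import Pool.Agent.DAM.C26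
import Pool.Agent.DAM.C27
import Pool.Agent.DAM.C28
import Pool.Agent.DAM.C29
import Pool.Agent.DAM.C30
import Pool.Agent.DAM.C31
import Pool.Agent.DAM.C32
import Pool.Agent.DAM.C33
import Pool.Agent.DAM.C34
import Pool.Agent.DAM.C35
import Pool.Agent.DAM.C36
import Pool.Agent.DAM.C37
import Pool.Agent.DAM.C38
import Pool.Agent.DAM.C39
import Pool.Agent.DAM.C40
import Pool.Agent.DAM.C41
import Pool.Agent.DAM.C43
import Pool.Agent.DAM.C44
import Pool.Agent.DAM.C45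
import Pool.Agent.DAM.C50
import Pool.Agent.DAM.C51
import Pool.Agent.DAM.C52
import Pool.Agent.DAM.C54
import Pool.Agent.DAM.C55
import Pool.Agent.DAM.C56
import Pool.Agent.DAM.C57
import Pool.Agent.DAM.C58
import Pool.Agent.DAM.C62
import Pool.Agent.DAM.C63
import Pool.Agent.DAM.C64
import Pool.Agent.DAM.C65
import Pool.Agent.DAM.C66
import Pool.Agent.DAM.C67
import Pool.Agent.DAM.C68
import Pool.Agent.DAM.C69
import Pool.Agent.DAM.C70
import Pool.Agent.DAM.C72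
import Pool.Agent.DAM.C73
import Pool.Agent.DAM.C74
import Pool.Agent.DAM.C75
import Pool.Agent.DAM.C76
import Pool.Agent.DAM.C77
import Pool.Agent.DAM.C78
import Pool.Agent.DAM.C79
import Pool.Agent.DAM.C81
import Pool.Agent.DAM.C82
import Pool.Agent.DAM.C83
import Pool.Agent.DAM.C85
import Pool.Agent.DAM.C86
import Pool.Agent.DAM.C89
import Pool.Agent.DAM.C90
import Pool.Agent.DAM.C91
import Pool.Agent.DAM.C92
import Pool.Agent.DAM.C93
import Pool.Agent.DAM.C94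
import Pool.Agent.DAM.C95
import Pool.Agent.DAM.C96
import Pool.Agent.DAM.C97
import Pool.Agent.DAM.C98
import Pool.Agent.DAM.C99

/-! Parts: DPN.AllN, DPT.AllA, DPT.AllB, DPT.AllC, DPV.AllV, DPW.AllW, DPX.AllX, DPK.BAS, DPK.AllK, DPG.AllG, DPH.AllH, DPK.FinalK -/

section

/-!
# The quotients of a minimal counterexample to Dade's conjecture: all modules together
-/

namespace Pool.Agent.DPN

theorem all_FF : Stmt_FF := FF_thm FFA_thm FFC_thm

theorem all_DKV : Stmt_DKV := DKV_thm MIXP_thm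

theorem all_DLO : Stmt_DLO := DLO_thm MINX_thm

theorem all_TDM : Stmt_TDM := TDM_thm TDC_thm

theorem all_CONS : Stmt_CONS := CONS_thm all_TDM

theorem all_RDB : Stmt_RDB := RDB_thm RDF_thm MINX_thm

theorem all_RDX : Stmt_RDX := RDX_thm RDA_thm RDQ_thm all_RDB RDE_thm all_TDM

theorem all_WFP : Stmt_WFP := WFP_thm PUL_thm

theorem all_KEYN : Stmt_KEYN := KEYN_thm CHM_thm

theorem all_MUN : Stmt_MUN := MUN_thm all_KEYN

theorem all_RRN : Stmt_RRN := RRN_thm all_MUN all_KEYN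

theorem all_FAM : Stmt_FAM := FAM_thm all_RDX all_WFP all_RRN

theorem all_NUX : Stmt_NUX := NUX_thm all_KEYN all_MUN

theorem all_FXR : Stmt_FXR := FXR_thm all_KEYN CHM_thm

theorem all_ABF : Stmt_ABF := ABF_thm FRO_thm

theorem all_PHN : Stmt_PHN := PHN_thm all_ABF WGT_thm

theorem all_ABQ : Stmt_ABQ := ABQ_thm all_ABF WGT_thm SQN_thm

theorem all_YFR : Stmt_YFR := YFR_thm all_DKV

theorem all_YPR : Stmt_YPR := YPR_thm all_FXR

theorem all_YCA : Stmt_YCA := YCA_thm BEQ_thm all_YPR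

theorem all_YCB : Stmt_YCB := YCB_thm YVL_thm YSL_thm

theorem all_YCC : Stmt_YCC := YCC_thm FRO_thm

theorem all_YFF : Stmt_YFF := YFF_thm all_FF all_YFR all_YCA all_YCB all_YCC all_YPR

theorem all_FNA : Stmt_FNA := FNA_thm all_CONS BEQ_thm

theorem all_FINN : Stmt_FINN :=
  FINN_thm all_FF all_DKV all_FAM all_ABQ SUPG_thm all_NUX all_YFF FOU_thm all_PHN all_FNA FNB_thm

theorem all_STRN : Stmt_STRN := STRN_thm all_DLO all_FINN

theorem all_UMN : Stmt_UMN := UMN_thm all_STRN all_DLO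

end Pool.Agent.DPN


end

section

/-!
# The minimal normal subgroups of a minimal counterexample to Dade's conjecture: the modules of
part A together
-/

namespace Pool.Agent.DPT

open Pool.Agent.DP Pool.Agent.DPC Pool.Agent.DPM Pool.Agent.DPN

theorem all_DEFA : Stmt_DEFA := DEFA_thm TWC_thm TWN_thm

theorem all_OSIX : Pool.Agent.DPX.Stmt_OSIX :=
  Pool.Agent.DPX.OSIX_thm Pool.Agent.DPX.VALX_thm Pool.Agent.DPX.IDOX_thm
    (Pool.Agent.DPX.VANX_thm Pool.Agent.DPX.RKOX_thm)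

theorem all_MLE : Stmt_MLE := MLE_thm BTC_thm MINX_thm

theorem all_MLX : Stmt_MLX := MLX_thm all_MLE MINX_thm all_OSIX

theorem all_MLR : Stmt_MLR := MLR_thm all_MLX

theorem all_MLV : Stmt_MLV := MLV_thm all_MLX

theorem all_XIP : Stmt_XIP := XIP_thm all_MLX

theorem all_XIM : Stmt_XIM := XIM_thm AVG_thm

theorem all_DEFR : Stmt_DEFR := DEFR_thm all_DEFA

theorem all_GALL : Stmt_GALL := GALL_thm COSET_thm SUMM_thm

theorem all_DGV : Stmt_DGV := DGV_thm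

theorem all_DGT : Stmt_DGT := DGT_thm DGV_thm

theorem all_DGJ : Stmt_DGJ := DGJ_thm DGV_thm all_DGT

theorem all_DGN : Stmt_DGN := DGN_thm SYL_thm

theorem all_BTX : Stmt_BTX := BTX_thm TWC_thm BTW_thm

theorem all_DGSB : Stmt_DGSB := DGSB_thm DGSA_thm all_DGN DGV_thm all_DGT all_DGJ

theorem all_DGST : Stmt_DGST := DGST_thm all_DGSB

theorem all_BTR : Stmt_BTR := BTR_thm all_DGSB DGSC_thm all_BTX EXTC_thm all_GALL SUMM_thm

theorem all_BTL : Stmt_BTL :=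
  BTL_thm LAYG_thm COPR_thm all_DGST DGSR_thm DGSD_thm all_DGSB DGSC_thm all_BTX all_BTR

theorem all_BTF : Stmt_BTF := BTF_thm all_MLE all_MLX MLT_thm all_MLR all_BTX

theorem all_CQ : Stmt_CQ :=
  CQ_thm HHS_thm TWC_thm TWN_thm all_XIM DETL_thm EXTL_thm CNTW_thm BTW_thm all_BTX

theorem all_DGQ : Stmt_DGQ :=
  DGQ_thm all_CQ all_BTF all_BTL all_XIP all_MLE MLT_thm all_DGSB DGSC_thm

end Pool.Agent.DPT


end

section

/-!
# The minimal normal subgroups of a minimal counterexample to Dade's conjecture: the modules of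
part B together
-/

namespace Pool.Agent.DPT

open Pool.Agent.DP Pool.Agent.DPC Pool.Agent.DPM Pool.Agent.DPN

theorem all_TY0 : Stmt_TY0 := TY0_thm GCL_thm all_DEFR all_MLE all_MLV SUMM_thm

theorem all_TYP : Stmt_TYP := TYP_thm all_TY0 TYC_thm all_DGSB all_MLV SUMM_thm

theorem all_TYI : Stmt_TYI := TYI_thm all_TY0

theorem all_DZA : Stmt_DZA :=
  DZA_thm CLC_thm all_TYP all_DGSB DGSC_thm all_MLE MLT_thm all_DGQ ZST_thm

theorem all_DGE : Stmt_DGE := DGE_thm BRK_thm DGX_thm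

theorem all_DGU : Stmt_DGU := DGU_thm all_DGT

theorem all_DZB : Stmt_DZB := DZB_thm DGSA_thm DGSC_thm all_DGE all_DGU ZF_thm ZST_thm

theorem all_DZS : Stmt_DZS :=
  DZS_thm SPLM_thm all_TYI all_DZA all_DZB all_DGSB all_DEFA all_MLE

theorem all_BLM : Stmt_BLM :=
  BLM_thm Pool.Agent.DPX.VALX_thm Pool.Agent.DPX.IDOX_thm all_OSIX

theorem all_DZ6 : Stmt_DZ6 :=
  DZ6_thm all_DZS all_BLM TWL_thm CHZ_thm all_MLE all_MLV all_TY0 SUMM_thm HHS_thm

theorem all_STA : Stmt_STA := STA_thm SUMM_thm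

theorem all_STT : Stmt_STT := STT_thm all_STA

theorem all_STC : Stmt_STC := STC_thm all_STT STN_thm

theorem all_STB : Stmt_STB := STB_thm all_STC all_DKV

theorem all_OUTF : Stmt_OUTF := OUTF_thm all_FF all_DKV all_FNA all_FAM all_ABQ RCE_thm

theorem all_OUTN : Stmt_OUTN := OUTN_thm all_BLM

theorem all_OUT1 : Stmt_OUT1 :=
  OUT1_thm all_OUTF all_FINN all_OUTN OUTG_thm all_STB all_KEYN SUMM_thm

theorem all_B0F : Stmt_B0F := B0F_thm all_OUT1 all_DZ6 all_UMN all_DLO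

end Pool.Agent.DPT


end

section

/-!
# The minimal normal subgroups of a minimal counterexample to Dade's conjecture: the modules of
part C together
-/

namespace Pool.Agent.DPT

open Pool.Agent.DP Pool.Agent.DPC Pool.Agent.DPM Pool.Agent.DPN

theorem all_GALX : Stmt_GALX := GALX_thm GAU_thm

theorem all_ISOL : Stmt_ISOL := ISOL_thm all_GALX QINF_thm

theorem all_DZC : Stmt_DZC := DZC_thm BTC_thm

theorem all_DGM : Stmt_DGM := DGM_thm all_MLE all_MLV all_DGSB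

theorem all_OCN : Stmt_OCN := OCN_thm CHG_thm CHI_thm all_DGM ZST_thm

theorem all_DDS : Stmt_DDS := DDS_thm all_ISOL CHC_thm all_DZC BTC_thm MINX_thm all_DEFA SUMM_thm

theorem all_CLQ : Stmt_CLQ := CLQ_thm CLC_thm

theorem all_DEFM : Stmt_DEFM := DEFM_thm all_DEFA

theorem all_TWQ : Stmt_TWQ := TWQ_thm TWC_thm TWN_thm TWG_thm CHG_thm HHS_thm all_DEFM SUMM_thm

theorem all_CAT : Stmt_CAT := CAT_thm all_MLE all_MLV

theorem all_CAE : Stmt_CAE := CAE_thm all_TY0 all_MLV SUMM_thm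

theorem all_CAN : Stmt_CAN := CAN_thm all_CAE

theorem all_CAZ : Stmt_CAZ := CAZ_thm CAX_thm all_CAT all_CAN CHG_thm all_DZS HHS_thm

theorem all_CBB : Stmt_CBB := CBB_thm SPLM_thm CHG_thm CHI_thm all_DGM ZST_thm HHS_thm

theorem all_CII : Stmt_CII := CII_thm all_CBB all_CAZ IDZ_thm

theorem all_PSN : Stmt_PSN :=
  PSN_thm SPLM_thm CRS_thm all_OCN all_DDS all_CLQ all_TWQ LNQ_thm all_CII CHI_thm

theorem all_PSO : Stmt_PSO := PSO_thm all_PSN CHI_thm

theorem all_PSY : Stmt_PSY := PSY_thm all_PSN CRS_thm all_OCN SPLM_thm CHI_thm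

theorem all_OUTM : Stmt_OUTM := OUTM_thm all_BLM

theorem all_OUTS : Stmt_OUTS := OUTS_thm SUMM_thm

theorem all_OUT2 : Stmt_OUT2 :=
  OUT2_thm all_OUTF all_FINN all_OUTM all_OUTS OUTH_thm all_STB all_KEYN CVX_thm SUMM_thm

theorem all_GLU : Stmt_GLU := GLU_thm all_BLM TWL_thm all_DZ6 CHC_thm SUMM_thm

end Pool.Agent.DPT


end

section

/-!
# Theorem V: all modules together
-/

namespace Pool.Agent.DPV

open Pool.Agent.DP Pool.Agent.Lib_helper13 Representation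
open Pool.Agent.Lib_helper13.Dade (pCore DadeHolds dadeSum IsIrrChar)

theorem betv_all : Stmt_BETV := BETV_thm EXTV_thm

theorem minv_all : Stmt_MINV := MINV_thm ASV_thm ASCV_thm TWV_thm

theorem trv_all : Stmt_TRV := TRV_thm EXTV_thm

theorem perbv_all : Stmt_PERBV := PERBV_thm EXTV_thm PERAV_thm REPV_thm trv_all

theorem percv_all : Stmt_PERCV := PERCV_thm PERAV_thm REPV_thm trv_all

theorem perdv_all : Stmt_PERDV := PERDV_thm PERAV_thm percv_all

theorem cliffv_all : Stmt_CLIFFV :=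
  CLIFFV_thm EXTV_thm PERAV_thm REPV_thm perbv_all perdv_all minv_all

theorem tjv_all : Stmt_TJV :=
  TJV_thm (LIFTV_thm trv_all REPV_thm PERAV_thm) (CNTV_thm trv_all) REPV_thm trv_all

theorem innv_all : Stmt_INNV :=
  INNV_thm cliffv_all tjv_all (COMBV_thm betv_all PERAV_thm) BLKCV_thm

theorem hatg_all : Stmt_HATG := HATG_thm (PRJB_thm PRJA_thm) FRG_thm

theorem hati_all : Stmt_HATI := HATI_thm innv_all HATY_thm HATC_thm

theorem rinnv_all : Stmt_RINNV := RINNV_thm RINAV_thm RINBV_thm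

theorem nuv_all : Stmt_NUV := NUV_thm MULV_thm EXPV_thm

theorem beqv_all : Stmt_BEQV := BEQV_thm EXTV_thm betv_all nuv_all LINX_thm

theorem triv_all : Stmt_TRIV := TRIV_thm MULV_thm EXPV_thm

theorem cycv_all : Stmt_CYCV := CYCV_thm (CYH_thm CYA_thm CYE_thm) BRV_thm

theorem twov_all : Stmt_TWOV := TWOV_thm (TWH_thm ABL_thm) BRV_thm

theorem lvb_all : Stmt_LVB :=
  LVB_thm EXTV_thm beqv_all triv_all cycv_all twov_all VSX_thm (FIXV_thm VSX_thm)

/-- Theorem V. -/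
theorem mainV (ℓ : ℕ) (hℓ : ℓ.Prime) (G : Type) [Group G] [Finite G]
    (hcen : Subgroup.center G = ⊥) (hcore : pCore ℓ G = ⊥) (hG : ¬ ℓ ^ 2 ∣ Nat.card G)
    (A : Subgroup (MulAut G)) (hA : (MulAut.conj : G →* MulAut G).range ≤ A)
    (hcop : ¬ ℓ ∣ (MulAut.conj : G →* MulAut G).range.relIndex A)
    (X Ω : Type) [Group X] [Finite X] [Fintype Ω] (e : (Ω → G) →* X)
    (he : Function.Injective e)
    (hact : ∀ y : X, ∃ (s : Equiv.Perm Ω) (α : Ω → MulAut G), (∀ i, α i ∈ A) ∧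
      ∀ x : Ω → G, y * e x * y⁻¹ = e (fun i => α i (x (s i))))
    (𝔐 : Ideal (integralClosure ℤ ℂ)) (h𝔐 : 𝔐.IsMaximal)
    (hℓ𝔐 : (ℓ : integralClosure ℤ ℂ) ∈ 𝔐) (ξ : Ω → G → ℂ) (hξ : ∀ a, IsIrrChar (ξ a))
    (w : Ω) (hw : ¬ Dade.HasDefect ℓ (ξ w) 0) (χ : X → ℂ) (hχ : IsIrrChar χ)
    (hover : ∑ᶠ x : Ω → G, χ (e x) * ∏ i, ξ i (x i)⁻¹ ≠ 0) (d : ℕ) : dadeSum 𝔐 ℓ χ d = 0 :=
  mainV' SPLIT_thm CORE_thm rinnv_all ZRR_thm RX0V_thm hatg_all hati_all blkbr_all lvb_all ℓ hℓ G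
    hcen hcore hG A hA hcop X Ω e he hact 𝔐 h𝔐 hℓ𝔐 ξ hξ w hw χ hχ hover d

end Pool.Agent.DPV


end

section

/-!
# Theorem W: all modules together
-/

namespace Pool.Agent.DPW

open Pool.Agent.DP Pool.Agent.DPV Pool.Agent.Lib_helper13 Representation
open Pool.Agent.Lib_helper13.Dade (pCore DadeHolds dadeSum IsIrrChar)

/-! ### Global part -/

theorem tjp_all : Stmt_TJP :=
  TJP_thm (LIFTV_thm trv_all REPV_thm PERAV_thm) (CNTV_thm trv_all) REPV_thm trv_all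

theorem innp_all : Stmt_INNP :=
  INNP_thm cliffv_all tjp_all (COMBP_thm betv_all PERAV_thm)

theorem hatip_all : Stmt_HATIP := HATIP_thm innp_all HATY_thm HATC_thm

theorem rinnp_all : Stmt_RINNP := RINNP_thm RINAP_thm RINBP_thm

/-! ### Blocks of defect one -/

theorem cntb_all : Stmt_CNTB :=
  CNTB_thm IDMB_thm
    (LEQB_thm KAIB_thm (KAHB_thm BKN_thm RPRB_thm)
      (KBB_thm BKN_thm RPRB_thm EXTB_thm TRFB_thm) (KCB_thm BKN_thm RPRB_thm EXTB_thm TRFB_thm)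
      (KDB_thm BKN_thm RPRB_thm))
    (NPJB_thm RPRB_thm) (SNGB_thm SUPB_thm BKN_thm)

/-! ### Local part -/

theorem mulw_all : Stmt_MULW := MULW_thm BRC_thm

theorem beqw_all : Stmt_BEQW := BEQW_thm (NUVW_thm mulw_all)

theorem gdw_all : Stmt_GDW := GDW_thm BRC_thm

theorem dfw_all : Stmt_DFW := DFW_thm DF1_thm

theorem unq_all : Stmt_UNQ := UNQ_thm SCT_thm

theorem cycw_all : Stmt_CYCW :=
  CYCW_thm (LFW_thm BRC_thm gdw_all) dfw_all (CYAW_thm SCT_thm unq_all CYS_thm)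
    (CYBW_thm SCT_thm CYS_thm NUN_thm)

theorem twow_all : Stmt_TWOW :=
  TWOW_thm (BLW_thm BRC_thm gdw_all) dfw_all (TWW_thm unq_all COVW_thm)

theorem fixw_all : Stmt_FIXW :=
  FIXW_thm FXC_thm
    (FXD_thm (FXA_thm cntb_all (FXE_thm DF1_thm) (FXF_thm COVW_thm)) FXB_thm
      (FXG_thm CHNW_thm cntb_all))

theorem lvw_all : Stmt_LVW :=
  LVW_thm beqw_all (TRIW_thm mulw_all) cycw_all twow_all (VSXW_thm CHNW_thm) fixw_all CHNW_thm
    dfw_all

/-- Theorem W. -/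
theorem mainW1' (ℓ : ℕ) (hℓ : ℓ.Prime) (X : Type) [Group X] [Finite X] (K : Subgroup X)
    (hcomm : ∀ x : X, (∀ k ∈ K, x * k * x⁻¹ ∈ K) ∨
      ∀ k ∈ K, ∀ k' ∈ K, (x * k * x⁻¹) * k' = k' * (x * k * x⁻¹))
    (hcore : pCore ℓ K = ⊥)
    (hout : ¬ ℓ ∣ (K ⊔ Subgroup.centralizer (K : Set X)).relIndex
      (Subgroup.normalizer (K : Set X)))
    (𝔐 : Ideal (integralClosure ℤ ℂ)) (h𝔐 : 𝔐.IsMaximal)
    (hℓ𝔐 : (ℓ : integralClosure ℤ ℂ) ∈ 𝔐)
    (ξ : K → ℂ) (hξ : IsIrrChar ξ) (hd : ¬ Dade.HasDefect ℓ ξ 0)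
    (x : K) (hx : ¬ Dade.CongrMod 𝔐 (Dade.central ξ x) 0)
    (hx2 : ¬ ℓ ^ 2 ∣ Nat.card (Subgroup.centralizer ({x} : Set K)))
    (χ : X → ℂ) (hχ : IsIrrChar χ) (hover : ∑ᶠ k : K, χ k * ξ k⁻¹ ≠ 0) (d : ℕ) :
    dadeSum 𝔐 ℓ χ d = 0 :=
  mainW1 SPLIT_thm CORE_thm rinnp_all hatip_all (BLKP_thm IDFP_thm) CPA_thm CPZ_thm
    (CPB_thm SCH_thm) CPO_thm hatg_all HATQ_thm lvw_all ℓ hℓ X K hcomm hcore hout 𝔐 h𝔐 hℓ𝔐 ξ hξ
    hd x hx hx2 χ hχ hover d

end Pool.Agent.DPW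


end

section

/-!
# Theorem X: all modules together
-/

namespace Pool.Agent.DPX

open Pool.Agent.DP Pool.Agent.DPV Pool.Agent.DPW Pool.Agent.Lib_helper13 Representation
open Pool.Agent.Lib_helper13.Dade (pCore DadeHolds dadeSum IsIrrChar)

theorem supx_all : Stmt_SUPX :=
  SUPX_thm

theorem gcx_all : Stmt_GCX :=
  GCX_thm

theorem bknx_all : Stmt_BKNX :=
  BKNX_thm supx_all gcx_all

theorem locx_all : Stmt_LOCX :=
  LOCX_thm

theorem prmx_all : Stmt_PRMX :=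
  PRMX_thm supx_all gcx_all bknx_all locx_all

theorem rprx_all : Stmt_RPRX :=
  RPRX_thm

theorem kex_all : Stmt_KEX :=
  KEX_thm gcx_all bknx_all rprx_all

theorem trfx_all : Stmt_TRFX :=
  TRFX_thm gcx_all bknx_all rprx_all

theorem frex_all : Stmt_FREX :=
  FREX_thm

theorem fryx_all : Stmt_FRYX :=
  FRYX_thm

theorem kaix_all : Stmt_KAIX :=
  KAIX_thm

theorem kahx_all : Stmt_KAHX :=
  KAHX_thm

theorem kdx_all : Stmt_KDX :=
  KDX_thm

theorem nprx_all : Stmt_NPRX :=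
  NPRX_thm supx_all rprx_all kex_all locx_all

theorem spx_all : Stmt_SPX :=
  SPX_thm supx_all locx_all

theorem unx_all : Stmt_UNX :=
  UNX_thm spx_all

theorem kbx_all : Stmt_KBX :=
  KBX_thm bknx_all prmx_all unx_all trfx_all

theorem kcx_all : Stmt_KCX :=
  KCX_thm bknx_all prmx_all unx_all trfx_all

theorem leqx_all : Stmt_LEQX :=
  LEQX_thm bknx_all prmx_all kex_all kaix_all kahx_all kdx_all nprx_all kbx_all kcx_all

theorem sngx_all : Stmt_SNGX :=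
  SNGX_thm supx_all gcx_all bknx_all

theorem cnti_all : Stmt_CNTI :=
  CNTI_thm leqx_all sngx_all

theorem unsx_all : Stmt_UNSX :=
  UNSX_thm

theorem cenx_all : Stmt_CENX :=
  CENX_thm

theorem matx_all : Stmt_MATX :=
  MATX_thm

theorem algx_all : Stmt_ALGX :=
  ALGX_thm matx_all

theorem derp_all : Stmt_DERP :=
  DERP_thm

theorem e1zx_all : Stmt_E1ZX :=
  E1ZX_thm

theorem e1tx_all : Stmt_E1TX :=
  E1TX_thm bknx_all rprx_all kex_all trfx_all derp_all e1zx_all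

theorem derx_all : Stmt_DERX :=
  DERX_thm derp_all

theorem quax_all : Stmt_QUAX :=
  QUAX_thm supx_all

theorem quox_all : Stmt_QUOX :=
  QUOX_thm quax_all

theorem quzx_all : Stmt_QUZX :=
  QUZX_thm

theorem dimx_all : Stmt_DIMX :=
  DIMX_thm cenx_all

theorem ssx_all : Stmt_SSX :=
  SSX_thm matx_all

theorem basx_all : Stmt_BASX :=
  BASX_thm supx_all quax_all quzx_all ssx_all unsx_all cenx_all derx_all algx_all dimx_all

theorem stpx_all : Stmt_STPX :=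
  STPX_thm bknx_all prmx_all quox_all quzx_all unsx_all cenx_all leqx_all cnti_all nprx_all e1tx_all derx_all algx_all dimx_all

theorem nixx_all : Stmt_NIXX :=
  NIXX_thm basx_all stpx_all

theorem idx_all : Stmt_IDX :=
  IDX_thm supx_all

theorem dxmx_all : Stmt_DXMX :=
  DXMX_thm idx_all supx_all

theorem cntx_all : Stmt_CNTX :=
  CNTX_thm nixx_all idx_all bknx_all cnti_all

theorem atnx_all : Stmt_ATNX :=
  ATNX_thm idx_all supx_all bknx_all prmx_all

theorem atcx_all : Stmt_ATCX :=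
  ATCX_thm idx_all supx_all

theorem orbx_all : Stmt_ORBX :=
  ORBX_thm

theorem nilo_all : Stmt_NILO :=
  NILO_thm nixx_all idx_all cenx_all

theorem chax_all : Stmt_CHAX :=
  CHAX_thm

theorem zacx_all : Stmt_ZACX :=
  ZACX_thm dimx_all cenx_all

theorem actx_all : Stmt_ACTX :=
  ACTX_thm nixx_all idx_all nilo_all zacx_all chax_all

theorem scxx_all : Stmt_SCXX :=
  SCXX_thm nixx_all idx_all unsx_all zacx_all

theorem gcsx_all : Stmt_GCSX :=
  GCSX_thm

theorem gdx_all : Stmt_GDX :=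
  GDX_thm gcsx_all

theorem blx_all : Stmt_BLX :=
  BLX_thm gdx_all

theorem lfx_all : Stmt_LFX :=
  LFX_thm gdx_all

theorem chnx_all : Stmt_CHNX :=
  CHNX_thm

theorem vsxx_all : Stmt_VSXX :=
  VSXX_thm chnx_all

theorem cyax_all : Stmt_CYAX :=
  CYAX_thm scxx_all

theorem cybx_all : Stmt_CYBX :=
  CYBX_thm scxx_all

theorem cycx_all : Stmt_CYCX :=
  CYCX_thm atnx_all atcx_all actx_all lfx_all cyax_all cybx_all

theorem twx_all : Stmt_TWX :=
  TWX_thm atcx_all actx_all orbx_all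

theorem twox_all : Stmt_TWOX :=
  TWOX_thm atnx_all twx_all

theorem fxgx_all : Stmt_FXGX :=
  FXGX_thm dxmx_all

theorem admx_all : Stmt_ADMX :=
  ADMX_thm

theorem valx_all : Stmt_VALX :=
  VALX_thm

theorem fexx_all : Stmt_FEXX :=
  FEXX_thm

theorem rlzx_all : Stmt_RLZX :=
  RLZX_thm

theorem rkox_all : Stmt_RKOX :=
  RKOX_thm

theorem vanx_all : Stmt_VANX :=
  VANX_thm rkox_all

theorem idox_all : Stmt_IDOX :=
  IDOX_thm

theorem osix_all : Stmt_OSIX :=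
  OSIX_thm valx_all idox_all vanx_all

theorem mt2x_all : Stmt_MT2X :=
  MT2X_thm valx_all fexx_all rlzx_all vanx_all idox_all idx_all bknx_all prmx_all kex_all atnx_all

theorem regx_all : Stmt_REGX :=
  REGX_thm nixx_all idx_all unsx_all nilo_all valx_all fexx_all rlzx_all rkox_all vanx_all idox_all osix_all rprx_all

theorem frxx_all : Stmt_FRXX :=
  FRXX_thm actx_all

theorem nrmx_all : Stmt_NRMX :=
  NRMX_thm mt2x_all atnx_all atcx_all orbx_all regx_all osix_all frxx_all nilo_all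

theorem redx_all : Stmt_REDX :=
  REDX_thm mt2x_all atnx_all atcx_all orbx_all regx_all frxx_all

theorem comx_all : Stmt_COMX :=
  COMX_thm

theorem hgtx_all : Stmt_HGTX :=
  HGTX_thm idx_all osix_all idox_all valx_all cntx_all atnx_all atcx_all nilo_all frxx_all nrmx_all redx_all comx_all

theorem fxex_all : Stmt_FXEX :=
  FXEX_thm hgtx_all

theorem fxax_all : Stmt_FXAX :=
  FXAX_thm cntx_all fxex_all

theorem fxdx_all : Stmt_FXDX :=
  FXDX_thm fxax_all fxgx_all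

theorem fixx_all : Stmt_FIXX :=
  FIXX_thm fxdx_all

theorem dfx_all : Stmt_DFX :=
  DFX_thm atnx_all hgtx_all

theorem lvx_all : Stmt_LVX :=
  LVX_thm dxmx_all cycx_all twox_all vsxx_all fixx_all dfx_all

/-- Theorem X. -/
theorem mainX1' (ℓ : ℕ) (hℓ : ℓ.Prime) (X : Type) [Group X] [Finite X] (K : Subgroup X)
    (hcomm : ∀ x : X, (∀ k ∈ K, x * k * x⁻¹ ∈ K) ∨
      ∀ k ∈ K, ∀ k' ∈ K, (x * k * x⁻¹) * k' = k' * (x * k * x⁻¹))
    (hcore : pCore ℓ K = ⊥)
    (hout : ¬ ℓ ∣ (K ⊔ Subgroup.centralizer (K : Set X)).relIndex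
      (Subgroup.normalizer (K : Set X)))
    (𝔐 : Ideal (integralClosure ℤ ℂ)) (h𝔐 : 𝔐.IsMaximal)
    (hℓ𝔐 : (ℓ : integralClosure ℤ ℂ) ∈ 𝔐)
    (ξ : K → ℂ) (hξ : IsIrrChar ξ) (hd : ¬ Dade.HasDefect ℓ ξ 0)
    (x : K) (hx : ¬ Dade.CongrMod 𝔐 (Dade.central ξ x) 0)
    (hx2 : ∀ Q : Subgroup K, IsPGroup ℓ Q → (∀ u ∈ Q, u * x = x * u) → IsCyclic Q)
    (χ : X → ℂ) (hχ : IsIrrChar χ) (hover : ∑ᶠ k : K, χ k * ξ k⁻¹ ≠ 0) (d : ℕ) :
    dadeSum 𝔐 ℓ χ d = 0 :=
  mainX1 SPLIT_thm CORE_thm rinnp_all hatip_all (BLKP_thm IDFP_thm) CPA_thm CPZ_thm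
    (CPB_thm SCH_thm) CPO_thm hatg_all HATQ_thm admx_all lvx_all ℓ hℓ X K hcomm hcore hout 𝔐 h𝔐 hℓ𝔐 ξ
    hξ hd x hx hx2 χ hχ hover d

end Pool.Agent.DPX


end

section

/-!
# BAS: Dade's conjecture in the case of cyclic Sylow subgroups of the section
-/

set_option autoImplicit false

namespace Pool.Agent.DPK

open Pool.Agent.DP Pool.Agent.DPC Pool.Agent.DPM Pool.Agent.DPN Pool.Agent.DPT Pool.Agent.DPF
open Pool.Agent.Lib_helper13
open Representation
open Pool.Agent.Lib_helper13.Dade (pCore DadeHolds dadeSum)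

namespace BAS

/-- The central function at the identity. -/
theorem central_one {G : Type} [Group G] [Finite G] {χ : G → ℂ} (hχ : IsIrr χ) :
    Dade.central χ 1 = 1 := by
  have := Fintype.ofFinite G
  have h1 : (∑ᶠ (x : G) (_ : IsConj x 1), χ x) = χ 1 := by
    rw [finsum_eq_single _ (1 : G)]
    · rw [finsum_eq_single _ (IsConj.refl 1)]
      intro h hne
      exact absurd (Subsingleton.elim _ _) hne
    · intro x hx
      have h2 : ¬ IsConj x 1 := fun h => hx (isConj_one_left.mp h)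
      have h3 : IsEmpty (IsConj x 1) := ⟨h2⟩
      exact finsum_of_isEmpty _
  rw [Dade.central, h1, div_self hχ.one_ne_zero]

/-- The identity is not in a maximal ideal. -/
theorem not_congr {𝔐 : Ideal (integralClosure ℤ ℂ)} (h : 𝔐.IsMaximal) :
    ¬ Dade.CongrMod 𝔐 1 0 := by
  rintro ⟨m, hm, hm'⟩
  have h1 : m = 1 := by
    apply Subtype.ext
    rw [hm']
    simp
  rw [h1] at hm
  exact h.ne_top ((Ideal.eq_top_iff_one _).mpr hm)

/-- The numbers of characters depend only on the block. -/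
theorem kd_eq {G : Type} [Group G] {𝔐 : Ideal (integralClosure ℤ ℂ)} {χ χ' : G → ℂ}
    (h : Dade.SameBlock 𝔐 χ' χ) (ℓ d : ℕ) (S : Subgroup G) :
    Dade.kd 𝔐 ℓ χ d S = Dade.kd 𝔐 ℓ χ' d S := by
  have h1 : ∀ θ : S → ℂ, Dade.InducesTo 𝔐 S θ χ ↔ Dade.InducesTo 𝔐 S θ χ' := by
    intro θ
    constructor
    · intro h1 g
      obtain ⟨m, hm, hm'⟩ := h1 g
      obtain ⟨n, hn, hn'⟩ := h g
      refine ⟨m - n, 𝔐.sub_mem hm hn, ?_⟩
      push_cast
      rw [hm', hn']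
      ring
    · intro h1 g
      obtain ⟨m, hm, hm'⟩ := h1 g
      obtain ⟨n, hn, hn'⟩ := h g
      refine ⟨m + n, 𝔐.add_mem hm hn, ?_⟩
      push_cast
      rw [hm', hn']
      ring
  rw [Dade.kd, Dade.kd]
  simp only [h1]

/-- The alternating sums depend only on the block. -/
theorem dadeSum_eq {G : Type} [Group G] {𝔐 : Ideal (integralClosure ℤ ℂ)} {χ χ' : G → ℂ}
    (h : Dade.SameBlock 𝔐 χ' χ) (ℓ d : ℕ) : dadeSum 𝔐 ℓ χ d = dadeSum 𝔐 ℓ χ' d := by
  rw [dadeSum, dadeSum]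
  simp only [kd_eq h]

/-- A normal subgroup, the conjugation action and the quotient map. -/
theorem clG_normal {X : Type} [Group X] (K : Subgroup X) [K.Normal] :
    ClG K.subtype (MulAut.conjNormal (H := K)) (QuotientGroup.mk' K) where
  inj := Subtype.val_injective
  act := fun y a => by
    change ((MulAut.conjNormal y a : K) : X) = y * a * y⁻¹
    exact MulAut.conjNormal_apply y a
  ker := fun y => by
    rw [QuotientGroup.mk'_apply, QuotientGroup.eq_one_iff, Subgroup.range_subtype]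

end BAS

open _root_.Pool.Agent.DPK.BAS in
theorem BAS_thm (h1 : Stmt_BAG) : Stmt_BAS := by
  intro X _ _ ℓ hℓ hcore N hN hZN hNK hcyc hidx 𝔐 h𝔐 hℓ𝔐 χ _ hpos d
  obtain ⟨χ', e, hχ', hsame, hdef, hlt⟩ := hpos
  obtain ⟨hK, hNeq, hKcore, hKcyc, hval⟩ := h1 X ℓ hcore N hN hZN hNK hcyc
  have := Fintype.ofFinite X
  set K : Subgroup X := ⁅N, N⁆ with hKdef
  have := Fintype.ofFinite K
  have hχI : IsIrr χ' := hχ'
  obtain ⟨ξ, hξ, hip⟩ := CLG.exists_under K.subtype hχI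
  -- the defect of `ξ`
  have hd : ¬ Dade.HasDefect ℓ ξ 0 := by
    rintro ⟨n, hn, hv⟩
    obtain ⟨m, hm, hv'⟩ := hdef
    have hdvd : n ∣ m := DZS.deg_dvd (clG_normal K) hχI hξ hip hm hn
    have hm0 : m ≠ 0 := by
      rintro rfl
      exact hχI.one_ne_zero (by rw [hm, Nat.cast_zero])
    have h2 : padicValNat ℓ n ≤ padicValNat ℓ m := by
      obtain ⟨r, rfl⟩ := hdvd
      have h3 := (Nat.mul_ne_zero_iff.mp hm0)
      rw [padicValNat.mul h3.1 h3.2]
      omega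
    have h3 : padicValNat ℓ (Nat.card X) = padicValNat ℓ (Nat.card N) := by
      rw [← Subgroup.card_mul_index N, padicValNat.mul Nat.card_pos.ne'
        Subgroup.index_ne_zero_of_finite, padicValNat.eq_zero_of_not_dvd hidx, add_zero]
    have h4 : e ≤ padicValNat ℓ (Nat.card (pCore ℓ X)) := by omega
    have h5 : ℓ ^ e ∣ Nat.card (pCore ℓ X) :=
      (pow_dvd_pow ℓ h4).trans pow_padicValNat_dvd
    exact absurd (Nat.le_of_dvd Nat.card_pos h5) (not_le.mpr hlt)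
  rw [dadeSum_eq hsame]
  refine DPX.mainX1' ℓ hℓ.out X K ?_ hKcore ?_ 𝔐 h𝔐 hℓ𝔐 ξ hξ hd 1 ?_ ?_ χ' hχ' ?_ d
  · intro x
    exact Or.inl fun k hk => hK.conj_mem k hk x
  · intro h
    apply hidx
    have h2 : Subgroup.normalizer (K : Set X) = ⊤ := Subgroup.normalizer_eq_top_iff.mpr hK
    rw [h2, Subgroup.relIndex_top_right] at h
    refine h.trans (Subgroup.index_dvd_of_le ?_)
    rw [hNeq]
    refine sup_le_sup_left ?_ _
    exact Subgroup.center_le_centralizer _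
  · rw [central_one hξ]
    exact not_congr h𝔐
  · intro Q hQ _
    exact hKcyc Q hQ
  · rw [finsum_eq_sum_of_fintype]
    intro h
    apply hip
    rw [ip]
    have h2 : ∑ g : K, resj K.subtype χ' g * ξ g⁻¹ = 0 := h
    rw [h2, zero_div]

end Pool.Agent.DPK


end

section

/-!
# Dade's conjecture for the groups of a class: all modules together
-/

namespace Pool.Agent.DPK

open Pool.Agent.DP Pool.Agent.DPC Pool.Agent.DPM Pool.Agent.DPN Pool.Agent.DPT Pool.Agent.DPF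

section

variable (Cl : ∀ (Y : Type) [Group Y], Prop) (hC : GC Cl)

include hC

theorem all_DKVr : Stmt_DKVr Cl := DKVr_thm Cl hC MIXP_thm

theorem all_TDCr : Stmt_TDCr Cl := TDCr_thm Cl hC

theorem all_TDMr : Stmt_TDMr Cl := TDMr_thm Cl hC (all_TDCr Cl hC)

theorem all_CONSr : Stmt_CONSr Cl := CONSr_thm Cl hC (all_TDMr Cl hC)

theorem all_RDXr : Stmt_RDXr Cl :=
  RDXr_thm Cl hC RDA_thm RDQ_thm all_RDB RDE_thm (all_TDMr Cl hC)

theorem all_FAMr : Stmt_FAMr Cl := FAMr_thm Cl hC (all_RDXr Cl hC) all_WFP all_RRN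

theorem all_YFRr : Stmt_YFRr Cl := YFRr_thm Cl hC (all_DKVr Cl hC)

theorem all_YFFr : Stmt_YFFr Cl :=
  YFFr_thm Cl hC all_FF (all_YFRr Cl hC) all_YCA all_YCB all_YCC all_YPR

theorem all_FNAr : Stmt_FNAr Cl := FNAr_thm Cl hC (all_CONSr Cl hC) BEQ_thm

theorem all_FINNr : Stmt_FINNr Cl :=
  FINNr_thm Cl hC all_FF (all_DKVr Cl hC) (all_FAMr Cl hC) all_ABQ SUPG_thm all_NUX
    (all_YFFr Cl hC) FOU_thm all_PHN (all_FNAr Cl hC) FNB_thm

theorem all_STRNr : Stmt_STRNr Cl := STRNr_thm Cl hC all_DLO (all_FINNr Cl hC)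

theorem all_UMNr : Stmt_UMNr Cl := UMNr_thm Cl hC (all_STRNr Cl hC) all_DLO

theorem all_STBr : Stmt_STBr Cl := STBr_thm Cl hC all_STC (all_DKVr Cl hC)

theorem all_OUTFr : Stmt_OUTFr Cl :=
  OUTFr_thm Cl hC all_FF (all_DKVr Cl hC) (all_FNAr Cl hC) (all_FAMr Cl hC) all_ABQ RCE_thm

theorem all_OUT1r : Stmt_OUT1r Cl :=
  OUT1r_thm Cl hC (all_OUTFr Cl hC) (all_FINNr Cl hC) all_OUTN OUTG_thm (all_STBr Cl hC)
    all_KEYN SUMM_thm

theorem all_B0Fr : Stmt_B0Fr Cl :=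
  B0Fr_thm Cl hC (all_OUT1r Cl hC) all_DZ6 (all_UMNr Cl hC) all_DLO

theorem all_DDSr : Stmt_DDSr Cl :=
  DDSr_thm Cl hC Pool.Agent.DPT.all_ISOL CHC_thm Pool.Agent.DPT.all_DZC BTC_thm MINX_thm
    Pool.Agent.DPT.all_DEFA SUMM_thm

theorem all_PSNr : Stmt_PSNr Cl :=
  PSNr_thm Cl hC SPLM_thm CRS_thm all_OCN (all_DDSr Cl hC) all_CLQ TWC_thm TWN_thm TWG_thm
    CHG_thm HHS_thm all_DEFM LNQ_thm all_DGM ZST_thm all_CAZ IDZ_thm CHI_thm

theorem all_OUT2r : Stmt_OUT2r Cl :=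
  OUT2r_thm Cl hC (all_OUTFr Cl hC) (all_FINNr Cl hC) all_OUTM all_OUTS OUTH_thm
    (all_STBr Cl hC) all_KEYN CVX_thm SUMM_thm

theorem all_PS1r : Stmt_PS1r Cl := PS1r_thm Cl hC (all_PSNr Cl hC) CHI_thm

theorem all_PS2r : Stmt_PS2r Cl := PS2r_thm Cl hC (all_PS1r Cl hC) CQI_thm

theorem all_PS3r : Stmt_PS3r Cl := PS3r_thm Cl hC (all_PS2r Cl hC)

theorem all_T2Rr : Stmt_T2Rr Cl :=
  T2Rr_thm Cl hC (all_PS3r Cl hC) all_EXPU FBA_thm FBB_thm all_FBC

theorem all_T2Ar : Stmt_T2Ar Cl := T2Ar_thm Cl hC (all_T2Rr Cl hC) all_T2F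

theorem all_PSZr : Stmt_PSZr Cl :=
  PSZr_thm Cl hC (all_PSNr Cl hC) CRS_thm all_OCN SPLM_thm CHI_thm

theorem all_T2Br : Stmt_T2Br Cl :=
  T2Br_thm Cl hC (all_PSZr Cl hC) (all_PS3r Cl hC) all_EXPU all_T2D

end

theorem all_OSR : Stmt_OSR :=
  OSR_thm Pool.Agent.DPX.VALX_thm Pool.Agent.DPX.IDOX_thm all_OSIX

theorem all_QMI : Stmt_QMI := QMI_thm all_OSR QMF_thm

theorem all_QMA : Stmt_QMA := QMA_thm QMF_thm

theorem all_QMB : Stmt_QMB := QMB_thm QMF_thm

theorem all_QMC : Stmt_QMC := QMC_thm all_QMB all_QMI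

theorem all_QMD : Stmt_QMD := QMD_thm all_QMB

theorem all_QMU : Stmt_QMU := QMU_thm all_QMA all_QMC all_QMD

theorem all_BAS : Stmt_BAS := BAS_thm BAG_thm

end Pool.Agent.DPK


end

section

/-!
# Dade's conjecture: minimal normal subgroups which are not simple: the theorem
-/

namespace Pool.Agent.DPG

open Pool.Agent.DPF Pool.Agent.DPK

theorem all_CHT : Stmt_CHT := CHT_thm
theorem all_CHB : Stmt_CHB := CHB_thm all_CHT
theorem all_IRC : Stmt_IRC := IRC_thm all_CHT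
theorem all_SST : Stmt_SST := SST_thm all_CHB
theorem all_RIX : Stmt_RIX := RIX_thm all_CHT all_SST
theorem all_STK : Stmt_STK := STK_thm
theorem all_PST : Stmt_PST := PST_thm all_STK
theorem all_STO : Stmt_STO := STO_thm all_PST
theorem all_RIU : Stmt_RIU := RIU_thm all_RIX all_IRC
theorem all_NPT : Stmt_NPT := NPT_thm all_IRC all_SST
theorem all_AMA : Stmt_AMA := AMA_thm
theorem all_AMB : Stmt_AMB := AMB_thm
theorem all_BGA : Stmt_BGA := BGA_thm
theorem all_BGB : Stmt_BGB := BGB_thm all_BGA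
theorem all_PSN : Stmt_PSN := PSN_thm all_IRC
theorem all_BEM : Stmt_BEM := BEM_thm all_IRC
theorem all_CNO : Stmt_CNO := CNO_thm
theorem all_CJN : Stmt_CJN := CJN_thm
theorem all_CJS : Stmt_CJS := CJS_thm
theorem all_RIY : Stmt_RIY := RIY_thm
theorem all_SYT : Stmt_SYT := SYT_thm
theorem all_PLE : Stmt_PLE := PLE_thm

theorem all_CNA : Stmt_CNA := CNA_thm
theorem all_CNB : Stmt_CNB := CNB_thm
theorem all_CST : Stmt_CST := CST_thm
theorem all_TOG : Stmt_TOG := TOG_thm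
theorem all_TNA : Stmt_TNA := TNA_thm
theorem all_CLS : Stmt_CLS := CLS_thm all_TNA all_CST
theorem all_PRC : Stmt_PRC := PRC_thm
theorem all_LMT : Stmt_LMT := LMT_thm all_PRC
theorem all_PRF : Stmt_PRF := PRF_thm all_PRC
theorem all_MMC : Stmt_MMC := MMC_thm
theorem all_SUL : Stmt_SUL := SUL_thm all_CHB all_PRC all_CST
theorem all_ZEX : Stmt_ZEX := ZEX_thm all_CST
theorem all_ZCO : Stmt_ZCO := ZCO_thm all_CST all_TNA
theorem all_CMA : Stmt_CMA := CMA_thm all_PRF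
theorem all_CMB : Stmt_CMB := CMB_thm all_PRF
theorem all_ZIN : Stmt_ZIN := ZIN_thm all_CST
theorem all_DFT : Stmt_DFT := DFT_thm all_CST
theorem all_PSI : Stmt_PSI := PSI_thm all_CST all_TNA all_RIY
theorem all_RFE : Stmt_RFE :=
  RFE_thm all_NPT all_CLS all_CJN all_CJS all_CST all_AMA all_AMB all_SUL all_ZEX all_ZIN
theorem all_RSC : Stmt_RSC := RSC_thm all_BEM all_RIU
theorem all_UPP : Stmt_UPP := UPP_thm all_RSC all_ZCO all_CMA all_ZIN all_CST
theorem all_DWN : Stmt_DWN :=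
  DWN_thm all_NPT all_CLS all_CJN all_CJS all_CST all_LMT all_TNA all_RIX all_RIY all_ZEX
    all_BEM all_CMB
theorem all_POL : Stmt_POL := POL_thm all_PSN all_NPT all_RIU all_IRC all_LMT all_TNA
theorem all_TIE : Stmt_TIE := TIE_thm
theorem all_EDK : Stmt_EDK := EDK_thm all_TIE all_CST
theorem all_TQC : Stmt_TQC := TQC_thm all_PSI all_RSC
theorem all_TQB : Stmt_TQB :=
  TQB_thm all_UPP all_DWN all_RSC all_PSI all_CJN all_CJS all_CNO all_DFT all_STO all_CST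

section

variable (Cl : ∀ (Y : Type) [Group Y], Prop)

theorem all_VCL : Stmt_VCL Cl := VCL_thm Cl

theorem all_TRO (h1 : Stmt_PS1r Cl) : Stmt_TRO Cl :=
  TRO_thm Cl h1 all_NPT all_PSN all_SST all_TNA all_LMT

theorem all_LVT (h2 : Stmt_T2Ar Cl) : Stmt_LVT Cl := LVT_thm Cl h2 all_BGA all_BGB all_CJN

theorem all_TQA (h2 : Stmt_T2Ar Cl) : Stmt_TQA Cl :=
  TQA_thm Cl all_RFE all_POL all_SYT (all_LVT Cl h2) all_EDK all_TQC all_TQB all_PLE all_CJN
    all_RSC all_BGA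

/-- The theorem. -/
theorem all_TEN (h1 : Stmt_PS1r Cl) (h2 : Stmt_T2Ar Cl) (h3 : Stmt_T2Br Cl) : Stmt_TEN Cl :=
  TEN_thm Cl h3 all_CNA all_CNB (all_VCL Cl) (all_TRO Cl h1) all_MMC (all_TQA Cl h2) all_TOG
    all_BGA all_BGB

end

end Pool.Agent.DPG


end

section

/-!
# Dade's conjecture: counterexamples whose centre is cyclic and lies in the commutator subgroup
-/

namespace Pool.Agent.DPH

theorem all_STM : Stmt_STM := STM_thm
theorem all_CPR : Stmt_CPR := CPR_thm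
theorem all_TDQ : Stmt_TDQ := TDQ_thm
theorem all_DTP : Stmt_DTP := DTP_thm
theorem all_ZQC : Stmt_ZQC := ZQC_thm

/-- The theorem. -/
theorem all_STE : Stmt_STE := STE_thm all_STM all_CPR all_TDQ all_DTP all_ZQC

end Pool.Agent.DPH


end

section

/-!
# Dade's conjecture for a finite group follows from Dade's conjecture for certain central extensions
of almost simple groups
-/

namespace Pool.Agent.DPK

open Pool.Agent.DP Pool.Agent.DPC Pool.Agent.DPM Pool.Agent.DPN Pool.Agent.DPT Pool.Agent.DPF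
open Pool.Agent.Lib_helper13.Dade (pCore DadeHolds)

theorem all_FINS (Cl : ∀ (Y : Type) [Group Y], Prop) (hC : GC Cl) : Stmt_FINS Cl :=
  FINS_thm Cl hC
    (Pool.Agent.DPG.all_TEN Cl (all_PS1r Cl hC) (all_T2Ar Cl hC) (all_T2Br Cl hC))
    all_QMU BSA_thm BSB_thm GRA_thm GRB_thm (all_OUT2r Cl hC) all_GLU all_DLO
    Pool.Agent.DPH.all_STE

theorem all_MINS (Cl : ∀ (Y : Type) [Group Y], Prop) (hC : GC Cl) : Stmt_MINS Cl :=
  MINS_thm Cl (all_FINS Cl hC) (all_B0Fr Cl hC) (all_STRNr Cl hC) (all_OUT1r Cl hC) all_DLO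
    all_BAS GRB_thm CYS_thm CYQ_thm

/-- Dade's conjecture holds for `X` if it holds for the groups `Y` with `O_ℓ(Y) ≤ Z(Y) ≤ [Y, Y]`
and `Z(Y)` cyclic such that `Y / Z(Y)` is isomorphic to a quotient `A` of a subgroup of `X` with the
properties `CritA`. -/
theorem mainK (ℓ : ℕ) (hℓ : ℓ.Prime) (X : Type) [Group X] [Finite X]
    (hcore : pCore ℓ X ≤ Subgroup.center X)
    (hstem : ∀ (A : Type) [Group A], CritA ℓ A →
      (∃ (T : Subgroup X) (g : T →* A), Function.Surjective g) →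
      ∀ (Y : Type) [Group Y] [Finite Y] (π : Y →* A), Function.Surjective π →
        π.ker = Subgroup.center Y → IsCyclic (Subgroup.center Y) →
        Subgroup.center Y ≤ commutator Y → pCore ℓ Y ≤ Subgroup.center Y → DadeHolds ℓ Y) :
    DadeHolds ℓ X := by
  classical
  have hf : Fact ℓ.Prime := ⟨hℓ⟩
  have hmain : ∀ n : ℕ, HR (SecC ℓ X) ℓ n := by
    intro n
    induction n with
    | zero =>
      intro Y _ _ _ _ hi
      exact absurd (Nat.le_zero.mp hi) Subgroup.index_ne_zero_of_finite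
    | succ n ih =>
      intro V _ _ hCl hV hi
      by_contra hD
      let _ : Fintype V := Fintype.ofFinite V
      have hHR : HR (SecC ℓ X) ℓ ((Subgroup.center V).index - 1) := ih.mono (by omega)
      obtain ⟨hcrit, Y, iY, fY, πY, h1, h2, h3, h4, h5, h6⟩ :=
        all_MINS (SecC ℓ X) (SecC_GC ℓ X) V ℓ hV hCl hHR hD
      apply h6
      refine hstem (V ⧸ Subgroup.center V) hcrit ?_ Y πY h1 h2 h3 h4 h5
      obtain ⟨-, S, P, M, k1, k2, k3, k4, k5, -⟩ := hcrit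
      exact hCl ⊤ (V ⧸ Subgroup.center V)
        ((QuotientGroup.mk' (Subgroup.center V)).comp (⊤ : Subgroup V).subtype)
        (fun k => by
          obtain ⟨x, rfl⟩ := QuotientGroup.mk'_surjective _ k
          exact ⟨⟨x, Subgroup.mem_top x⟩, rfl⟩)
        S k1 k2 k3 k5 k4
  exact hmain _ X (SecC_self ℓ X) hcore le_rfl

end Pool.Agent.DPK


end
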