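import Mathlib
import Pool.Agent.DAM.C11
import Pool.Agent.DAM.C14
import Pool.Agent.DAM.C20

/-! Parts: DPW.KAHB -/

section

/-!
# Module KAHB: every irreducible representation of the local block which occurs, occurs in an
irreducible one
-/

set_option autoImplicit false

namespace Pool.Agent.DPW

open Pool.Agent.DPB Pool.Agent.Lib_helper13 Representation

namespace KAHB

open Pool.Agent.DPB.KAH

section Basic

variable {F T V V' W : Type} [Field F] [Group T] [AddCommGroup V] [Module F V]
  [AddCommGroup V'] [Module F V'] [AddCommGroup W] [Module F W]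

theorem zop_apply [Fintype T] (ρ : Representation F T V) (z : T → F) (v : V) :
    Zop ρ z v = ∑ h, z h • ρ h v := by
  unfold Zop
  rw [LinearMap.sum_apply]
  rfl

theorem zop_eqv [Fintype T] {ρ : Representation F T V} {ρ' : Representation F T V'}
    {f : V →ₗ[F] V'} (hf : Eqv ρ ρ' f) (z : T → F) (v : V) : f (Zop ρ z v) = Zop ρ' z (f v) := by
  rw [zop_apply, zop_apply, map_sum]
  refine Finset.sum_congr rfl fun h _ => ?_
  rw [map_smul, hf h v]

theorem zop_of_surjective [Fintype T] {ρ : Representation F T V} {ρ' : Representation F T V'}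
    {f : V →ₗ[F] V'} (hf : Eqv ρ ρ' f) (hs : Function.Surjective f) {z : T → F}
    (h : Zop ρ z = 1) : Zop ρ' z = 1 := by
  apply LinearMap.ext
  intro v'
  obtain ⟨v, rfl⟩ := hs v'
  rw [← zop_eqv hf z v, h]
  rfl

theorem zop_of_injective [Fintype T] {ρ : Representation F T V} {ρ' : Representation F T V'}
    {f : V →ₗ[F] V'} (hf : Eqv ρ ρ' f) (hs : Function.Injective f) {z : T → F}
    (h : Zop ρ' z = 1) : Zop ρ z = 1 := by
  apply LinearMap.ext
  intro v
  apply hs
  rw [zop_eqv hf z v, h]
  rfl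

theorem trC_apply [Fintype T] (P : Subgroup T) [Fintype (T ⧸ P)] (ρ : Representation F T V)
    (ρ' : Representation F T V') (f : V →ₗ[F] V') (v : V) :
    trC P ρ ρ' f v = ∑ q : T ⧸ P, ρ' q.out (f (ρ q.out⁻¹ v)) := by
  unfold trC
  rw [LinearMap.sum_apply]
  refine Finset.sum_congr ?_ fun _ _ => rfl
  ext q
  simp only [Finset.mem_univ]

/-- The relative trace over the cosets of `P` in its normalizer. -/
theorem avg [Fintype T] {P : Subgroup T} [Fintype (NP P)]
    {ρ : Representation F T V} {σ : Representation F (NP P) W}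
    (hσ : ∀ p : NP P, (p : T) ∈ P → σ p = 1) {α : W →ₗ[F] W}
    (hα : trC (P.subgroupOf (Subgroup.normalizer (P : Set T))) σ σ α = 1) {V₁ : Submodule F V}
    (hV : ∀ (g : T) (v : V), v ∈ V₁ → ρ g v ∈ V₁) {j y : W →ₗ[F] V}
    (hj : ∀ (n : NP P) (w : W), j (σ n w) = ρ (n : T) (j w))
    (hy : ∀ w, j w - tN P ρ (y w) ∈ V₁) :
    ∃ y' : W →ₗ[F] V, (∀ (n : NP P) (w : W), y' (σ n w) = ρ (n : T) (y' w)) ∧
      (∀ w, y' w ∈ LinearMap.range (tN P ρ)) ∧ ∀ w, j w - y' w ∈ V₁ := by
  classical
  obtain ⟨P', hP'⟩ : ∃ P' : Subgroup (NP P),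
    P' = P.subgroupOf (Subgroup.normalizer (P : Set T)) := ⟨_, rfl⟩
  rw [← hP'] at hα
  have hmem : ∀ p : NP P, p ∈ P' → (p : T) ∈ P := by
    intro p hp
    rw [hP'] at hp
    exact hp
  have : Fintype (NP P ⧸ P') := Fintype.ofFinite _
  obtain ⟨G, hG⟩ : ∃ G : NP P → W →ₗ[F] V,
    ∀ n w, G n w = ρ (n : T) (tN P ρ (y (α (σ n⁻¹ w)))) :=
    ⟨fun n => (ρ (n : T)) ∘ₗ tN P ρ ∘ₗ y ∘ₗ α ∘ₗ σ n⁻¹, fun _ _ => rfl⟩
  have hG1 : ∀ n p : NP P, p ∈ P' → G (n * p) = G n := by
    intro n p hp
    ext w
    rw [hG, hG, mul_inv_rev, map_mul, hσ p⁻¹ (by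
      have := hmem p⁻¹ (P'.inv_mem hp)
      exact this), one_mul, Subgroup.coe_mul, map_mul, Module.End.mul_apply,
      mul_tN P ρ (hmem p hp)]
  have hG2 : ∀ m n : NP P, ∀ w, G n (σ m w) = ρ (m : T) (G (m⁻¹ * n) w) := by
    intro m n w
    have h1 : σ (m⁻¹ * n)⁻¹ w = σ n⁻¹ (σ m w) := by
      rw [← Module.End.mul_apply, ← map_mul]
      congr 2
      rw [mul_inv_rev, inv_inv]
    have h2 : ∀ v, ρ (n : T) v = ρ (m : T) (ρ ((m⁻¹ * n : NP P) : T) v) := by
      intro v
      rw [← Module.End.mul_apply, ← map_mul]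
      congr 2
      rw [Subgroup.coe_mul, Subgroup.coe_inv, mul_inv_cancel_left]
    rw [hG, hG, h1, h2]
  have hG3 : ∀ n : NP P, G (n : NP P ⧸ P').out = G n := by
    intro n
    obtain ⟨p, hp⟩ := QuotientGroup.mk_out_eq_mul P' n
    rw [hp, hG1 n p p.2]
  refine ⟨∑ q : NP P ⧸ P', G q.out, ?_, ?_, ?_⟩
  · intro m w
    rw [LinearMap.sum_apply, LinearMap.sum_apply, map_sum]
    refine Fintype.sum_equiv (MulAction.toPerm m⁻¹) _ _ fun q => ?_
    rw [hG2]
    congr 2
    have h1 : (MulAction.toPerm m⁻¹) q = ((m⁻¹ * q.out : NP P) : NP P ⧸ P') := by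
      have h2 : (MulAction.toPerm m⁻¹) q = m⁻¹ • q := rfl
      rw [h2]
      conv_lhs => rw [← QuotientGroup.out_eq' q]
      rfl
    rw [h1, hG3]
  · intro w
    rw [LinearMap.sum_apply]
    refine Submodule.sum_mem _ fun q _ => ?_
    rw [hG, normalizer_tN]
    exact ⟨_, rfl⟩
  · intro w
    have h0 : w = ∑ q : NP P ⧸ P', σ q.out (α (σ q.out⁻¹ w)) := by
      have h1 := LinearMap.congr_fun hα w
      rw [trC_apply] at h1
      exact h1.symm
    have h1 : j w - (∑ q : NP P ⧸ P', G q.out) w =
        ∑ q : NP P ⧸ P', (j (σ q.out (α (σ q.out⁻¹ w))) - G q.out w) := by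
      rw [Finset.sum_sub_distrib, LinearMap.sum_apply, ← map_sum, ← h0]
    rw [h1]
    refine Submodule.sum_mem _ fun q _ => ?_
    have h2 := hV (q.out : T) _ (hy (α (σ q.out⁻¹ w)))
    rw [map_sub, ← hj, ← hG] at h2
    exact h2

end Basic

/-- The induction on the dimension. -/
theorem core {F T W : Type} [Field F] [Group T] [Fintype T]
    [AddCommGroup W] [Module F W] [Module.Finite F W] {P : Subgroup T} [Fintype (NP P)]
    {σ : Representation F (NP P) W} (e : T → F)
    (hσ : ∀ p : NP P, (p : T) ∈ P → σ p = 1) {α : W →ₗ[F] W}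
    (hα : trC (P.subgroupOf (Subgroup.normalizer (P : Set T))) σ σ α = 1) :
    ∀ (d : ℕ) (V : Type) [AddCommGroup V] [Module F V] [Module.Finite F V]
      (ρ : Representation F T V), Module.finrank F V = d → Zop ρ e = 1 → Emb P ρ σ →
      ∃ (n : ℕ) (ρ' : Representation F T (Fin n → F)), ρ'.IsIrreducible ∧ Emb P ρ' σ ∧
        Zop ρ' e = 1 := by
  intro d
  induction d using Nat.strong_induction_on with
  | _ d ih =>
    intro V _ _ _ ρ hd he hE
    by_cases hirr : ρ.IsIrreducible
    · let b : V ≃ₗ[F] (Fin (Module.finrank F V) → F) := (Module.finBasis F V).equivFun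
      exact ⟨_, trans ρ b, trans_irr b hirr, emb_of_eqv b hE,
        zop_of_surjective (trans_eqv ρ b) b.surjective he⟩
    · obtain ⟨j, hj, w₀, hw₀⟩ := hE
      have hnt : j w₀ ≠ 0 := by
        intro h
        apply hw₀
        rw [h]
        exact Submodule.zero_mem _
      have hex : ∃ a : Subrepresentation ρ, a ≠ ⊥ ∧ a ≠ ⊤ := by
        by_contra hcon
        push Not at hcon
        apply hirr
        refine { exists_pair_ne := ⟨⊥, ⊤, ?_⟩, eq_bot_or_eq_top := ?_ }
        · intro hbt
          apply hnt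
          have hxt : j w₀ ∈ (⊤ : Subrepresentation ρ) := by
            change j w₀ ∈ (⊤ : Submodule F V); trivial
          rw [← hbt] at hxt
          change j w₀ ∈ (⊥ : Submodule F V) at hxt
          simpa using hxt
        · intro a
          by_cases ha : a = ⊥
          · exact Or.inl ha
          · exact Or.inr (hcon a ha)
      obtain ⟨a, ha1, ha2⟩ := hex
      have hb1 : a.toSubmodule ≠ ⊥ := fun h => ha1 (Subrepresentation.toSubmodule_injective h)
      have hb2 : a.toSubmodule ≠ ⊤ := fun h => ha2 (Subrepresentation.toSubmodule_injective h)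
      have hlt1 : Module.finrank F a.toSubmodule < d := by
        rw [← hd]
        exact Submodule.finrank_lt hb2
      have hlt2 : Module.finrank F (V ⧸ a.toSubmodule) < d := by
        have h1 := Submodule.finrank_quotient_add_finrank a.toSubmodule
        have h2 : 0 < Module.finrank F a.toSubmodule := by
          rw [Module.finrank_pos_iff]
          exact Submodule.nontrivial_iff_ne_bot.2 hb1
        omega
      -- the quotient representation
      let ρq : Representation F T (V ⧸ a.toSubmodule) :=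
        { toFun := fun g => a.toSubmodule.mapQ a.toSubmodule (ρ g)
            (fun v hv => a.apply_mem_toSubmodule g hv)
          map_one' := by
            ext v
            simp
          map_mul' := by
            intro g h
            ext v
            simp }
      have hq : Eqv ρ ρq a.toSubmodule.mkQ := fun g v => rfl
      by_cases hcase : ∃ w, a.toSubmodule.mkQ (j w) ∉ LinearMap.range (tN P ρq)
      · refine ih _ hlt2 (V ⧸ a.toSubmodule) ρq rfl
          (zop_of_surjective hq a.toSubmodule.mkQ_surjective he)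
          ⟨a.toSubmodule.mkQ ∘ₗ j, ?_, hcase⟩
        intro n w
        rw [LinearMap.comp_apply, LinearMap.comp_apply, hj, hq]
      · push Not at hcase
        -- a linear lift
        have hlift : ∃ y : W →ₗ[F] V, ∀ w, j w - tN P ρ (y w) ∈ a.toSubmodule := by
          have hmem : ∀ w, (a.toSubmodule.mkQ ∘ₗ j) w ∈
              LinearMap.range (a.toSubmodule.mkQ ∘ₗ tN P ρ) := by
            intro w
            obtain ⟨v, hv⟩ := hcase w
            obtain ⟨v, rfl⟩ := a.toSubmodule.mkQ_surjective v
            exact ⟨v, by rw [LinearMap.comp_apply, LinearMap.comp_apply, tN_eqv P hq, hv]⟩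
          obtain ⟨y, hy⟩ := Module.projective_lifting_property
            (a.toSubmodule.mkQ ∘ₗ tN P ρ).rangeRestrict
            ((a.toSubmodule.mkQ ∘ₗ j).codRestrict _ hmem)
            (LinearMap.surjective_rangeRestrict _)
          refine ⟨y, fun w => ?_⟩
          have h1 := congrArg Subtype.val (LinearMap.congr_fun hy w)
          have h2 : a.toSubmodule.mkQ (tN P ρ (y w)) = a.toSubmodule.mkQ (j w) := h1
          rw [← Submodule.Quotient.mk_eq_zero, ← Submodule.mkQ_apply, map_sub, h2, sub_self]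
        obtain ⟨y, hy⟩ := hlift
        obtain ⟨y', hy1, hy2, hy3⟩ := avg hσ hα
          (V₁ := a.toSubmodule) (fun g v hv => a.apply_mem_toSubmodule g hv) hj hy
        have hs : Eqv a.toRepresentation ρ a.toSubmodule.subtype := fun g v => rfl
        refine ih _ hlt1 a.toSubmodule a.toRepresentation rfl
          (zop_of_injective hs a.toSubmodule.injective_subtype he)
          ⟨(j - y').codRestrict a.toSubmodule (fun w => hy3 w), ?_, w₀, ?_⟩
        · intro n w
          apply Subtype.ext
          show (j - y') (σ n w) = ρ (n : T) ((j - y') w)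
          rw [LinearMap.sub_apply, LinearMap.sub_apply, hj, hy1, map_sub]
        · rintro ⟨v, hv⟩
          apply hw₀
          have h1 := tN_eqv P hs v
          rw [hv] at h1
          have h2 : a.toSubmodule.subtype
              ((j - y').codRestrict a.toSubmodule (fun w => hy3 w) w₀) = j w₀ - y' w₀ := rfl
          rw [h2] at h1
          have h3 : j w₀ = tN P ρ (a.toSubmodule.subtype v) + y' w₀ := by
            rw [← h1]
            abel
          rw [h3]
          exact Submodule.add_mem _ ⟨_, rfl⟩ (hy2 w₀)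

end KAHB

/-- KAHB. -/
theorem KAHB_thm (h1 : Stmt_BKN) (h2 : Stmt_RPRB) : Stmt_KAHB := by
  intro ℓ _ F T W V _ _ _ _ _ _ _ _ _ _ P _ x₀ e hB ρ σ hσi hσe hρe hE
  have hx : x₀ ∈ Subgroup.normalizer (P : Set T) := by
    refine Subgroup.centralizer_le_normalizer (P : Set T) ?_
    rw [Subgroup.mem_centralizer_iff]
    intro u hu
    exact hB.cen u hu
  have hN := h1 ℓ F T P x₀ e hB hx
  obtain ⟨α, -, hα⟩ := h2 ℓ F (NP P) W _ _ _ hN σ hσe
  have hσ : ∀ p : NP P, (p : T) ∈ P → σ p = 1 := by
    intro p hp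
    have hnorm : (P.subgroupOf (Subgroup.normalizer (P : Set T))).Normal := by
      infer_instance
    exact PTR_thm ℓ F (NP P) W σ (P.subgroupOf (Subgroup.normalizer (P : Set T))) hN.card hσi p hp
  exact KAHB.core e hσ hα _ V ρ rfl hρe hE

end Pool.Agent.DPW


end
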