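import Mathlib
import Pool.Agent.DAM.C01
import Pool.Agent.DAM.C02
import Pool.Agent.DAM.C14
import Pool.Agent.DAM.C15
import Pool.Agent.DAM.C18
import Pool.Agent.DAM.C19
import Pool.Agent.DAM.C21
import Pool.Agent.DAM.C22
import Pool.Agent.DAM.C24
import Pool.Agent.DAM.C27
import Pool.Agent.DAM.C29
import Pool.Agent.DAM.C33
import Pool.Agent.DAM.C35
import Pool.Agent.DAM.C39
import Pool.Agent.DAM.C44
import Pool.Agent.DAM.C45
import Pool.Agent.DAM.C47
import Pool.Agent.DAM.C52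
import Pool.Agent.DAM.C55
import Pool.Agent.DAM.C85

/-! Parts: DPN.CHM, DPN.YPR, DPT.OUTM, DPV.HATG, DPW.CPO, DPX.NIXX, DPX.ATCX, DPG.RIXA, DPG.RIX, DPG.CHB, DPG.TQC -/

section

/-!
# CHM: products of invariant functions and their restrictions to the stabilizer of a chain
-/

namespace Pool.Agent.DPN

open Pool.Agent.DP Pool.Agent.DPC Pool.Agent.DPM Pool.Agent.Lib_helper13 Representation

namespace CHM

section Lists

variable {X : Type} [Group X] [Fintype X]



theorem elt_coeff_self (m : MonoidAlgebra ℤ X) : elt (fun x => m.coeff x) = m := by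
  apply MonoidAlgebra.ext
  ext x
  exact elt_coeff _ x

theorem pl_nil (x : X) [Decidable (x = 1)] : pl ([] : List (X → ℤ)) x = if x = 1 then 1 else 0 := by
  classical
  rw [pl, List.map_nil, List.prod_nil, MonoidAlgebra.one_def, MonoidAlgebra.coeff_single,
    Finsupp.single_apply]
  by_cases h : x = 1
  · rw [if_pos h, if_pos h.symm]
  · rw [if_neg h, if_neg (fun h' => h h'.symm)]

theorem pl_cons (u : X → ℤ) (l : List (X → ℤ)) (x : X) : pl (u :: l) x = conv u (pl l) x := by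
  have h1 : elt (pl l) = (l.map elt).prod := elt_coeff_self _
  rw [pl, List.map_cons, List.prod_cons, ← h1, ← elt_conv, elt_coeff]

open Classical in
/-- truncation to a subgroup -/
noncomputable def tr (S : Subgroup X) (u : X → ℤ) (x : X) : ℤ := if x ∈ S then u x else 0

theorem tr_supp (S : Subgroup X) (u : X → ℤ) {x : X} (hx : x ∉ S) : tr S u x = 0 := if_neg hx

theorem tr_mem (S : Subgroup X) (u : X → ℤ) {x : X} (hx : x ∈ S) : tr S u x = u x := if_pos hx

/-- Products of restricted functions are restrictions of products of truncated functions. -/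
theorem pl_restrict (T : Subgroup X) [Fintype T] (l : List (X → ℤ)) (t : T) :
    pl (l.map (fun (u : X → ℤ) (s : T) => u s)) t = pl (l.map (tr T)) (t : X) := by
  classical
  induction l generalizing t with
  | nil =>
    rw [List.map_nil, List.map_nil, pl_nil, pl_nil]
    by_cases h : t = 1
    · rw [if_pos h, if_pos (by rw [h]; rfl)]
    · have h2 : ¬ ((t : X) = 1) := fun h' => h (Subtype.ext h')
      rw [if_neg h, if_neg h2]
  | cons u l ih =>
    rw [List.map_cons, List.map_cons, pl_cons, pl_cons, conv, conv]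
    rw [← Finset.sum_subset (Finset.subset_univ (Finset.univ.filter (fun k : X => k ∈ T)))]
    · rw [← Finset.sum_subtype_eq_sum_filter, Finset.subtype_univ]
      refine Fintype.sum_equiv (Equiv.refl _) _ _ (fun s => ?_)
      have h1 : tr T u ((Equiv.refl { x // x ∈ T }) s : X) = u s := tr_mem T u s.2
      rw [h1, ih]
      rfl
    · intro y _ hy
      rw [tr_supp T u (fun h => hy (Finset.mem_filter.mpr ⟨Finset.mem_univ _, h⟩)), zero_mul]

/-- invariance under conjugation by one element -/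
def Iv (g : X) (u : X → ℤ) : Prop := ∀ x, u (g * x * g⁻¹) = u x

theorem conv_iv {g : X} {u v : X → ℤ} (hu : Iv g u) (hv : Iv g v) : Iv g (conv u v) := by
  intro x
  rw [conv, conv]
  symm
  refine Fintype.sum_equiv (MulAut.conj g).toEquiv _ _ ?_
  intro y
  have h1 : (MulAut.conj g).toEquiv y = g * y * g⁻¹ := rfl
  rw [h1, hu]
  have h2 : (g * y * g⁻¹)⁻¹ * (g * x * g⁻¹) = g * (y⁻¹ * x) * g⁻¹ := by group
  rw [h2, hv]

theorem pl_iv {g : X} (l : List (X → ℤ)) (hl : ∀ u ∈ l, Iv g u) : Iv g (pl l) := by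
  classical
  induction l with
  | nil =>
    intro x
    rw [pl_nil, pl_nil]
    have : g * x * g⁻¹ = 1 ↔ x = 1 := by
      constructor
      · intro h
        have h1 : x = g⁻¹ * (g * x * g⁻¹) * g := by group
        rw [h1, h]
        group
      · rintro rfl
        group
    simp only [this]
  | cons u l ih =>
    intro x
    rw [pl_cons, pl_cons]
    exact conv_iv (hl u List.mem_cons_self) (ih fun v hv => hl v (List.mem_cons_of_mem _ hv)) x

theorem tr_iv {S : Subgroup X} {g : X} (hg : g ∈ S) {u : X → ℤ} (hu : Iv g u) : Iv g (tr S u) := by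
  intro x
  have h1 : g * x * g⁻¹ ∈ S ↔ x ∈ S := by
    constructor
    · intro h
      have : x = g⁻¹ * (g * x * g⁻¹) * g := by group
      rw [this]
      exact mul_mem (mul_mem (inv_mem hg) h) hg
    · intro h
      exact mul_mem (mul_mem hg h) (inv_mem hg)
  by_cases hx : x ∈ S
  · rw [tr_mem S u hx, tr_mem S u (h1.mpr hx), hu]
  · rw [tr_supp S u hx, tr_supp S u (fun h => hx (h1.mp h))]

/-- Modulo `ℓ`, the products at the centralizer of an `ℓ`-subgroup `Q` only depend on the values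
at this centralizer. -/
theorem pl_mod {ℓ : ℕ} [Fact ℓ.Prime] (Q : Subgroup X) (hQ : IsPGroup ℓ Q) (S S' : Subgroup X)
    (hQS : Q ≤ S) (hSS' : S ≤ S') (hc : ∀ y ∈ S', (∀ q ∈ Q, q * y = y * q) → y ∈ S)
    (l : List (X → ℤ)) (hl : ∀ u ∈ l, ∀ q ∈ Q, Iv q u) (x : X)
    (hx : ∀ q ∈ Q, q * x = x * q) :
    ((pl (l.map (tr S)) x : ℤ) : ZMod ℓ) = ((pl (l.map (tr S')) x : ℤ) : ZMod ℓ) := by
  classical
  induction l generalizing x with
  | nil => rfl
  | cons u l ih =>
    have hl' : ∀ v ∈ l, ∀ q ∈ Q, Iv q v := fun v hv => hl v (List.mem_cons_of_mem _ hv)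
    have hu : ∀ q ∈ Q, Iv q u := hl u List.mem_cons_self
    rw [List.map_cons, List.map_cons, pl_cons, pl_cons, conv, conv, Int.cast_sum, Int.cast_sum]
    let _ : MulAction Q X :=
      { smul := fun q y => q.1 * y * q.1⁻¹
        one_smul := fun y => by change ((1 : Q) : X) * y * ((1 : Q) : X)⁻¹ = y; simp
        mul_smul := fun a b y => by
          change ((a * b : Q) : X) * y * ((a * b : Q) : X)⁻¹ = a.1 * (b.1 * y * b.1⁻¹) * a.1⁻¹
          simp [mul_assoc] }
    have hsmul : ∀ (q : Q) (y : X), q • y = q.1 * y * q.1⁻¹ := fun _ _ => rfl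
    have key : ∀ R : Subgroup X, Q ≤ R → ∀ (q : Q) (y : X),
        ((tr R u (q • y) * pl (l.map (tr R)) ((q • y)⁻¹ * x) : ℤ) : ZMod ℓ) =
          ((tr R u y * pl (l.map (tr R)) (y⁻¹ * x) : ℤ) : ZMod ℓ) := by
      intro R hR q y
      rw [hsmul]
      have h1 : tr R u (q.1 * y * q.1⁻¹) = tr R u y := tr_iv (hR q.2) (hu q.1 q.2) y
      have h2 : (q.1 * y * q.1⁻¹)⁻¹ * x = q.1 * (y⁻¹ * x) * q.1⁻¹ := by
        have h6 := hx q.1⁻¹ (inv_mem q.2)
        calc (q.1 * y * q.1⁻¹)⁻¹ * x = q.1 * y⁻¹ * (q.1⁻¹ * x) := by group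
          _ = q.1 * y⁻¹ * (x * q.1⁻¹) := by rw [h6]
          _ = _ := by group
      have h3 : pl (l.map (tr R)) (q.1 * (y⁻¹ * x) * q.1⁻¹) = pl (l.map (tr R)) (y⁻¹ * x) := by
        apply pl_iv
        intro v hv
        obtain ⟨w, hw, rfl⟩ := List.mem_map.mp hv
        exact tr_iv (hR q.2) (hl' w hw q.1 q.2)
      rw [h1, h2, h3]
    rw [sum_eq_sum_fixed hQ (M := ZMod ℓ) (by intro m; simp) _ (key S hQS),
      sum_eq_sum_fixed hQ (M := ZMod ℓ) (by intro m; simp) _ (key S' (hQS.trans hSS'))]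
    refine Finset.sum_congr rfl fun y hy => ?_
    have h2 := (Finset.mem_filter.mp hy).2
    have h3 : ∀ q ∈ Q, q * y = y * q := by
      intro q hq
      have h3 := h2 ⟨q, hq⟩
      rw [hsmul] at h3
      exact mul_inv_eq_iff_eq_mul.mp h3
    have h4 : ∀ q ∈ Q, q * (y⁻¹ * x) = y⁻¹ * x * q := by
      intro q hq
      have h5 : q * y⁻¹ = y⁻¹ * q := by
        have := h3 q hq
        calc q * y⁻¹ = y⁻¹ * (y * q) * y⁻¹ := by group
          _ = y⁻¹ * (q * y) * y⁻¹ := by rw [this]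
          _ = y⁻¹ * q := by group
      rw [← mul_assoc, h5, mul_assoc, hx q hq, mul_assoc]
    have h6 : tr S u y = tr S' u y := by
      by_cases hy' : y ∈ S'
      · rw [tr_mem S' u hy', tr_mem S u (hc y hy' h3)]
      · rw [tr_supp S' u hy', tr_supp S u (fun h => hy' (hSS' h))]
    rw [Int.cast_mul, Int.cast_mul, ih hl' _ h4, h6]

end Lists

theorem isIntegral_intCast' (n : ℤ) : IsIntegral ℤ (n : ℂ) := by
  have := isIntegral_algebraMap (R := ℤ) (A := ℂ) (x := n)
  simpa using this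

theorem red_int_eq (𝔐 : Ideal (integralClosure ℤ ℂ)) {ℓ : ℕ}
    (hℓ : (ℓ : integralClosure ℤ ℂ) ∈ 𝔐) {a b : ℤ} (h : (a : ZMod ℓ) = (b : ZMod ℓ)) :
    red 𝔐 ((a : ℤ) : ℂ) = red 𝔐 ((b : ℤ) : ℂ) := by
  rw [ZMod.intCast_eq_intCast_iff_dvd_sub] at h
  obtain ⟨w, hw⟩ := h
  have hb : b = a + ℓ * w := by linarith
  have h1 : ((b : ℤ) : ℂ) = (a : ℂ) + (ℓ : ℂ) * (w : ℂ) := by
    rw [hb]
    push_cast
    rfl
  rw [h1, red_add 𝔐 (isIntegral_intCast' a)
    ((isIntegral_natCast ℓ).mul (isIntegral_intCast' w)),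
    red_natCast_mul 𝔐 ℓ (isIntegral_intCast' w), nsmul_quot_eq_zero 𝔐 hℓ, add_zero]

section Main

variable {O X H : Type} [Group O] [Fintype O] [Group X] [Fintype X] [Group H]
variable {j : O →* X} {c : X →* MulAut O} {p : X →* H}

theorem YS_mono (j : O →* X) {σ σ' : Finset (Subgroup O)} (h : σ' ⊆ σ) : YS j σ ≤ YS j σ' := by
  intro g hg
  rw [YS, mem_stb'] at hg ⊢
  intro D hD
  obtain ⟨E, hE, rfl⟩ := mem_mapCh.mp hD
  exact hg _ (mem_mapCh.mpr ⟨E, h hE, rfl⟩)

theorem stb_mono {σ σ' : Finset (Subgroup O)} (h : σ' ⊆ σ) : stb σ ≤ stb σ' := by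
  intro g hg
  rw [mem_stb'] at hg ⊢
  intro D hD
  exact hg D (h hD)

/-- the induction on the number of the members of the chain -/
theorem main (h : ClG j c p) (𝔐 : Ideal (integralClosure ℤ ℂ)) [h𝔐 : 𝔐.IsPrime] {ℓ : ℕ}
    [Fact ℓ.Prime] (hℓ : (ℓ : integralClosure ℤ ℂ) ∈ 𝔐) (Z : Subgroup O) {S : Subgroup O}
    [Fintype S] {θ : S → ℂ} (hθ : IsIrr θ) (l : List (X → ℤ)) (hl : ∀ u ∈ l, AIv j u) :
    ∀ (n : ℕ) (σ : Finset (Subgroup O)), σ.card = n → IsCh ℓ Z σ → S ≤ stb σ →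
      MultOn 𝔐 θ (stb σ) →
      red 𝔐 (wt θ (fun a => ((pl (l.map (tr (YS j σ))) (j (a : O)) : ℤ) : ℂ))) =
        red 𝔐 (wt θ (fun a => ((pl l (j (a : O)) : ℤ) : ℂ))) := by
  classical
  have hiv : ∀ (σ : Finset (Subgroup O)) (g : O), g ∈ stb σ →
      Iv (j g) (pl (l.map (tr (YS j σ)))) := by
    intro σ g hg
    apply pl_iv
    intro v hv
    obtain ⟨w, hw, rfl⟩ := List.mem_map.mp hv
    exact tr_iv ((mem_YS h σ).mpr hg) (fun x => hl w hw g x)
  intro n
  induction n with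
  | zero =>
    intro σ hn _ _ _
    rw [Finset.card_eq_zero] at hn
    subst hn
    have h1 : YS j (∅ : Finset (Subgroup O)) = ⊤ := by
      rw [YS]
      have : mapCh j (∅ : Finset (Subgroup O)) = ∅ := by
        simp [mapCh]
      rw [this, stb_empty]
    have h2 : l.map (tr (YS j (∅ : Finset (Subgroup O)))) = l := by
      rw [h1]
      have : tr (⊤ : Subgroup X) = (id : (X → ℤ) → (X → ℤ)) := by
        funext u x
        exact tr_mem ⊤ u (Subgroup.mem_top x)
      rw [this, List.map_id]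
    rw [h2]
  | succ n ih =>
    intro σ hn hσ hS hm
    have hne : σ.Nonempty := by
      rw [← Finset.card_pos]; omega
    obtain ⟨D₁, hD₁, hbot⟩ := hσ.exists_bot hne
    have hsub : σ.erase D₁ ⊆ σ := Finset.erase_subset _ _
    have hle : stb σ ≤ stb (σ.erase D₁) := stb_mono hsub
    have hDp : IsPGroup ℓ D₁ := (hσ.1 D₁ hD₁).1
    have hDS : D₁ ≤ stb σ := by
      intro x hx
      rw [mem_stb']
      intro D hD z
      have hxD : x ∈ D := hbot D hD hx
      constructor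
      · intro hz
        exact mul_mem (mul_mem hxD hz) (inv_mem hxD)
      · intro hz
        have h4 : z = x⁻¹ * (x * z * x⁻¹) * x := by group
        rw [h4]
        exact mul_mem (mul_mem (inv_mem hxD) hz) hxD
    have hDn : ∀ g ∈ stb σ, ∀ q ∈ D₁, g * q * g⁻¹ ∈ D₁ := by
      intro g hg q hq
      exact (mem_stb'.mp hg D₁ hD₁ q).mp hq
    have hfixed : ∀ {A : Type} [Group A] (D : Subgroup A) (y : A), (∀ q ∈ D, q * y = y * q) →
        ∀ x, x ∈ D ↔ y * x * y⁻¹ ∈ D := by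
      intro A _ D y hyc
      have hfix : ∀ q ∈ D, y * q * y⁻¹ = q := by
        intro q hq
        rw [← hyc q hq]
        group
      intro x
      constructor
      · intro hx
        rw [hfix x hx]
        exact hx
      · intro hx
        have h1 := hfix _ hx
        have h2 : y * x * y⁻¹ = x := by
          have h3 : y * (y * x * y⁻¹) * y⁻¹ = y * x * y⁻¹ := h1
          exact mul_left_cancel (mul_right_cancel h3)
        rw [h2] at hx
        exact hx
    have hm' : MultOn 𝔐 θ (stb (σ.erase D₁)) := by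
      apply multOn_step 𝔐 hℓ hθ hS hle hm D₁ hDS hDp hDn
      intro y hy hyc
      rw [mem_stb'] at hy ⊢
      intro D hD
      by_cases hDD : D = D₁
      · subst hDD
        exact hfixed D y hyc
      · exact hy D (Finset.mem_erase.mpr ⟨hDD, hD⟩)
    rw [← ih (σ.erase D₁) (by rw [Finset.card_erase_of_mem hD₁, hn, Nat.add_sub_cancel])
      (hσ.subset hsub) (hS.trans hle) hm']
    refine red_wt_eq' 𝔐 hℓ hθ hS hm D₁ hDS hDp hDn
      (fun y : O => ((pl (l.map (tr (YS j σ))) (j y) : ℤ) : ℂ))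
      (fun y : O => ((pl (l.map (tr (YS j (σ.erase D₁)))) (j y) : ℤ) : ℂ)) ?_ ?_ ?_ ?_ ?_
    · intro g hg x _
      have h1 := hiv σ g hg (j x)
      rw [← map_inv, ← map_mul, ← map_mul] at h1
      change ((pl (l.map (tr (YS j σ))) (j (g * x * g⁻¹)) : ℤ) : ℂ) = _
      rw [h1]
    · intro y _
      exact isIntegral_intCast' _
    · intro g hg x _
      have h1 := hiv (σ.erase D₁) g (hle hg) (j x)
      rw [← map_inv, ← map_mul, ← map_mul] at h1
      change ((pl (l.map (tr (YS j (σ.erase D₁)))) (j (g * x * g⁻¹)) : ℤ) : ℂ) = _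
      rw [h1]
    · intro y _
      exact isIntegral_intCast' _
    · intro y _ hyc
      apply red_int_eq 𝔐 hℓ
      apply pl_mod (D₁.map j)
      · exact hDp.map j
      · rintro _ ⟨d, hd, rfl⟩
        exact (mem_YS h σ).mpr (hDS hd)
      · exact YS_mono j hsub
      · intro x hx hxc
        rw [YS, mem_stb'] at hx ⊢
        intro E hE
        obtain ⟨D, hD, rfl⟩ := mem_mapCh.mp hE
        by_cases hDD : D = D₁
        · subst hDD
          exact hfixed _ x hxc
        · exact hx _ (mem_mapCh.mpr ⟨D, Finset.mem_erase.mpr ⟨hDD, hD⟩, rfl⟩)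
      · intro u hu q hq
        obtain ⟨d, _, rfl⟩ := hq
        exact fun x => hl u hu d x
      · rintro _ ⟨d, hd, rfl⟩
        rw [← map_mul, ← map_mul, hyc d hd]

end Main

end CHM

theorem CHM_thm : Stmt_CHM := by
  intro O X H _ _ _ _ _ 𝔐 ℓ _ hM hℓ j c p h Z τ hτ θ hθ l hl
  have hprime : 𝔐.IsPrime := hM.isPrime
  rw [← CHM.main h 𝔐 hℓ Z hθ l hl τ.card τ rfl (mem_Ch.mp hτ) le_rfl (multOn_self 𝔐 hθ)]
  congr 2
  funext a
  rw [CHM.pl_restrict]
  rfl

end Pool.Agent.DPN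


end

section

/-!
# YPR: the fixed pairs for the fibre product
-/

namespace Pool.Agent.DPN

open Pool.Agent.DP Pool.Agent.DPC Pool.Agent.DPM Pool.Agent.Lib_helper13 Representation
open Pool.Agent.Lib_helper13.Dade (pCore DadeHolds dadeSum)

namespace YPR

/-- The stabilizer of a chain of the normal subgroup in terms of the action. -/
theorem mem_YS_iff {O X H : Type} [Group O] [Group X] [Group H] {j : O →* X}
    {c : X →* MulAut O} {p : X →* H} (h : ClG j c p) (τ : Finset (Subgroup O)) (y : X) :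
    y ∈ YS j τ ↔ ∀ D ∈ τ, ∀ a, a ∈ D ↔ c y a ∈ D := by
  rw [mem_stb']
  constructor
  · intro h1 D hD a
    have h2 := h1 (D.map j) (mem_mapCh.mpr ⟨D, hD, rfl⟩) (j a)
    rw [← h.act, Subgroup.mem_map_iff_mem h.inj, Subgroup.mem_map_iff_mem h.inj] at h2
    exact h2
  · intro h1 E hE x
    obtain ⟨D, hD, rfl⟩ := mem_mapCh.mp hE
    constructor
    · rintro ⟨a, ha, rfl⟩
      exact ⟨c y a, (h1 D hD a).mp ha, h.act y a⟩
    · rintro ⟨b, hb, hb'⟩
      refine ⟨c y⁻¹ b, ?_, ?_⟩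
      · refine (h1 D hD _).mpr ?_
        rw [← MulAut.mul_apply, ← map_mul, mul_inv_cancel, map_one, MulAut.one_apply]
        exact hb
      · rw [h.act, hb']
        group

end YPR

theorem YPR_thm (h1 : Stmt_FXR) : Stmt_YPR := by
  intro O X H W _ _ _ _ _ _ _ _ 𝔐 ℓ _ hM hl j c p h hp a Z Λ π R μ Lm hF τ₀ θ₀ h0 V hV τ hτ θ
    hθ hd hc
  have hfx := h1 O X H W 𝔐 ℓ hM hl j c p h a Z Λ π R μ Lm hF τ₀ θ₀ h0 τ hτ θ hθ hc
  have hRn : R.Normal := hF.Rn
  -- the stabilizers agree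
  have hmem : ∀ y : fpr p (π.comp V.subtype),
      y ∈ YS (finj h (π.comp V.subtype)) τ ↔ (y : X × V).1 ∈ YS j τ := by
    intro y
    rw [YPR.mem_YS_iff (clG_f h (π.comp V.subtype)) τ y, YPR.mem_YS_iff h τ]
    rfl
  constructor
  · rintro ⟨hs, hi⟩
    -- elements above `V`
    have hv : ∀ v : V, ∃ t : YS j τ, pS p j τ t = π v ∧ ∀ a, θ (cS h τ t a) = θ a := by
      intro v
      obtain ⟨y, hy⟩ := hs v
      refine ⟨⟨(y.1 : X × V).1, (hmem y.1).mp y.2⟩, ?_, fun a => hi y a⟩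
      have h2 : p (y.1 : X × V).1 = (π.comp V.subtype) (y.1 : X × V).2 := mem_fpr.mp y.1.2
      have h3 : (y.1 : X × V).2 = v := hy
      change p (y.1 : X × V).1 = π v
      rw [h2, h3]
      rfl
    -- elements above `W`
    have hw : ∀ w : W, ∃ t : YS j τ, pS p j τ t = π w ∧ ∀ a, θ (cS h τ t a) = θ a := by
      intro w
      have h2 : w ∈ ((V ⊔ R : Subgroup W) : Set W) := by
        rw [hV]
        trivial
      rw [Subgroup.mul_normal] at h2
      obtain ⟨v, hvV, r, hr, rfl⟩ := Set.mem_mul.mp h2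
      obtain ⟨t, ht, ht'⟩ := hv ⟨v, hvV⟩
      obtain ⟨⟨x, hx⟩, hx'⟩ := hfx r hr
      refine ⟨t * x, by rw [map_mul, ht, hx, map_mul], fun a => ?_⟩
      rw [map_mul, MulAut.mul_apply, ht', hx' x hx]
    have hπ : Function.Surjective π := hF.πs
    refine ⟨hτ, hθ, hd, hc, ?_, ?_⟩
    · intro k
      obtain ⟨w, rfl⟩ := hπ k
      obtain ⟨t, ht, -⟩ := hw w
      exact ⟨t, ht⟩
    · intro y a
      obtain ⟨w, hw1⟩ := hπ (pS p j τ y)
      obtain ⟨t, ht, ht'⟩ := hw w
      have h2 : pS p j τ (t⁻¹ * y) = 1 := by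
        rw [map_mul, map_inv, ht, hw1, inv_mul_cancel]
      obtain ⟨b, hb⟩ := ((clG_S h τ).ker _).mp h2
      have h3 : y = t * jS h τ b := by
        rw [hb, mul_inv_cancel_left]
      rw [h3, map_mul, MulAut.mul_apply, ht']
      have h4 : cS h τ (jS h τ b) a = b * a * b⁻¹ := by
        apply (clG_S h τ).inj
        rw [(clG_S h τ).act, map_mul, map_mul, map_inv]
      rw [h4, hθ.conj_eq]
  · intro hP
    obtain ⟨hs, hi⟩ := hP.fp
    refine ⟨?_, ?_⟩
    · intro v
      obtain ⟨t, ht⟩ := hs (π v)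
      have h2 : ((t : X), v) ∈ fpr p (π.comp V.subtype) := mem_fpr.mpr ht
      exact ⟨⟨⟨((t : X), v), h2⟩, (hmem _).mpr t.2⟩, rfl⟩
    · intro y a
      exact hi ⟨(y.1 : X × V).1, (hmem y.1).mp y.2⟩ a

end Pool.Agent.DPN


end

section

/-!
# OUTM: elements which centralize `O / N`
-/

set_option autoImplicit false
set_option linter.unusedSectionVars false

namespace Pool.Agent.DPT

open Pool.Agent.DP Pool.Agent.DPC Pool.Agent.DPM Pool.Agent.DPN Pool.Agent.Lib_helper13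
open Representation

namespace OUTM

open OUTN (clg cen_mem cen_conj_eq normal_of_coatom dvd_index cen_eq_cgT clB clB_conj conv_clO
  conv_conj intz)

variable {X : Type} [Group X] [Fintype X]

/-- The contribution of one class whose centralizer is contained in a maximal subgroup. -/
theorem class_zero (hBLM : Stmt_BLM) (𝔐 : Ideal (integralClosure ℤ ℂ)) (ℓ : ℕ)
    [Fact ℓ.Prime] (hmax : 𝔐.IsMaximal) (hℓ : (ℓ : integralClosure ℤ ℂ) ∈ 𝔐)
    (N O : Subgroup X) (hN : N.Normal) (hNO : N ≤ O)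
    (hpg : ∀ x ∈ O, ∃ n : ℕ, x ^ ℓ ^ n ∈ N) (χ : O → ℂ) (hχ : IsIrr χ) (ξ : X → ℂ)
    (hξ : IrrOn N ξ)
    (hip : ip (fun n : N.subgroupOf O => χ n) (fun n : N.subgroupOf O => ξ (n : O)) ≠ 0)
    (hst : O ≤ sx (cgT 𝔐 N ξ)) (y : X) (v : X → ℤ)
    (hv : ∀ a ∈ O, ∀ y, v (a * y * a⁻¹) = v y) (B : Subgroup O) (hB : IsCoatom B)
    (hAB : N.subgroupOf O ≤ B) (hC : ∀ o : O, (o : X) * y = y * (o : X) → o ∈ B) :
    red 𝔐 (wt χ (fun o => ((conv (OUTN.clO O y) v (o : X) : ℤ) : ℂ))) = 0 := by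
  classical
  have hprime : 𝔐.IsPrime := hmax.isPrime
  have hNn : (N.subgroupOf O).Normal := inferInstance
  have hpg' : ∀ o : O, ∃ n : ℕ, o ^ ℓ ^ n ∈ N.subgroupOf O := by
    intro o
    obtain ⟨n, hn⟩ := hpg o o.2
    exact ⟨n, hn⟩
  have hBn : B.Normal := normal_of_coatom ℓ (N.subgroupOf O) B hAB hpg' hB
  have hidx : ℓ ∣ B.index := dvd_index ℓ (N.subgroupOf O) B hAB hpg' hB.1
  -- the functions
  let w : X → ℤ := conv (clB O B y) v
  have hw : ∀ b ∈ B, ∀ z, w ((b : X) * z * (b : X)⁻¹) = w z := fun b hb z =>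
    conv_conj _ _ _ (fun z => clB_conj O B y b hb z) (fun z => hv _ b.2 z) z
  have hw' : ∀ b ∈ B, ∀ z, w ((b : X)⁻¹ * z * (b : X)) = w z := by
    intro b hb z
    have h1 := hw b⁻¹ (B.inv_mem hb) z
    push_cast at h1
    rw [inv_inv] at h1
    exact h1
  have hf : ∀ z : X, conv (OUTN.clO O y) v z =
      ∑ c : O ⧸ B, w ((c.out : X)⁻¹ * z * (c.out : X)) := fun z => conv_clO O B y hC v hv z
  -- outside `B`
  have hout : ∀ o : O, o ∉ B → ∀ c : O, w ((c : X)⁻¹ * (o : X) * (c : X)) = w (o : X) := by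
    intro o ho c
    have htop : B ⊔ Subgroup.zpowers o = ⊤ := by
      apply hB.2
      refine lt_of_le_of_ne le_sup_left ?_
      intro h
      apply ho
      rw [h]
      exact (le_sup_right : Subgroup.zpowers o ≤ _) (Subgroup.mem_zpowers o)
    have hc : c⁻¹ ∈ B ⊔ Subgroup.zpowers o := by
      rw [htop]
      trivial
    rw [Subgroup.mem_sup_of_normal_left] at hc
    obtain ⟨b, hb, s, hs, hbs⟩ := hc
    obtain ⟨i, rfl⟩ := Subgroup.mem_zpowers_iff.mp hs
    have h1 : (c : X)⁻¹ * (o : X) * (c : X) = (b : X) * (o : X) * (b : X)⁻¹ := by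
      have h2 : (c : X)⁻¹ = (b : X) * (o : X) ^ i := by
        have h3 : (((b * o ^ i : O)) : X) = ((c⁻¹ : O) : X) := by rw [hbs]
        push_cast at h3
        exact h3.symm
      have h4 : (c : X) = ((b : X) * (o : X) ^ i)⁻¹ := by rw [← h2, inv_inv]
      rw [h2, h4]
      group
    rw [h1, hw b hb]
  -- the splitting
  let g : O → ℂ := fun o => ((conv (OUTN.clO O y) v (o : X) : ℤ) : ℂ)
  let f₁ : O → ℂ := fun o => if o ∈ B then g o else 0
  let g₂ : O → ℂ := fun o => if o ∈ B then 0 else ((w (o : X) : ℤ) : ℂ)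
  have hgc : ∀ a x : O, g (a * x * a⁻¹) = g x := by
    intro a x
    have h1 := conv_conj (OUTN.clO O y) v (a : X) (fun z => OUTN.clO_conj O y a a.2 z)
      (fun z => hv _ a.2 z) (x : X)
    change ((conv (OUTN.clO O y) v ((a * x * a⁻¹ : O) : X) : ℤ) : ℂ) = _
    have h2 : ((a * x * a⁻¹ : O) : X) = (a : X) * (x : X) * (a : X)⁻¹ := rfl
    rw [h2, h1]
  have hmemB : ∀ a x : O, a * x * a⁻¹ ∈ B ↔ x ∈ B := by
    intro a x
    constructor
    · intro h
      have h1 := hBn.conj_mem _ h a⁻¹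
      have h2 : a⁻¹ * (a * x * a⁻¹) * a⁻¹⁻¹ = x := by group
      rwa [h2] at h1
    · intro h
      exact hBn.conj_mem _ h a
  have hf₁c : ∀ a x : O, f₁ (a * x * a⁻¹) = f₁ x := by
    intro a x
    change (if a * x * a⁻¹ ∈ B then g (a * x * a⁻¹) else 0) = if x ∈ B then g x else 0
    simp only [hmemB, hgc]
  have hf₁i : ∀ x : O, IsIntegral ℤ (f₁ x) := by
    intro x
    change IsIntegral ℤ (if x ∈ B then g x else 0)
    split_ifs
    · exact intz _
    · exact isIntegral_zero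
  have hg₂c : ∀ a x : O, g₂ (a * x * a⁻¹) = g₂ x := by
    intro a x
    change (if a * x * a⁻¹ ∈ B then 0 else ((w ((a * x * a⁻¹ : O) : X) : ℤ) : ℂ)) =
      if x ∈ B then 0 else ((w (x : X) : ℤ) : ℂ)
    simp only [hmemB]
    split_ifs with hx
    · rfl
    · have h1 := hout x hx a⁻¹
      push_cast at h1
      rw [inv_inv] at h1
      push_cast
      rw [h1]
  have hg₂i : ∀ x : O, IsIntegral ℤ (g₂ x) := by
    intro x
    change IsIntegral ℤ (if x ∈ B then 0 else ((w (x : X) : ℤ) : ℂ))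
    split_ifs
    · exact isIntegral_zero
    · exact intz _
  have hcard : (Finset.univ : Finset (O ⧸ B)).card = B.index := by
    rw [Finset.card_univ, ← Nat.card_eq_fintype_card]
    rfl
  have hsplit : g = fun o => f₁ o + (B.index : ℂ) * g₂ o := by
    funext o
    change g o = (if o ∈ B then g o else 0) +
      (B.index : ℂ) * (if o ∈ B then 0 else ((w (o : X) : ℤ) : ℂ))
    split_ifs with ho
    · ring
    · change ((conv (OUTN.clO O y) v (o : X) : ℤ) : ℂ) = _
      rw [hf, Finset.sum_congr rfl fun c _ => hout o ho c.out, Finset.sum_const, hcard,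
        nsmul_eq_mul, Int.cast_mul, Int.cast_natCast]
      ring
  have hwt : wt χ g = wt χ f₁ + (B.index : ℂ) * wt χ g₂ := by
    rw [hsplit]
    have h1 : (fun o => f₁ o + (B.index : ℂ) * g₂ o) =
        f₁ + fun o => (B.index : ℂ) * g₂ o := rfl
    rw [h1, wt_add, wt_smul]
  have hi1 : IsIntegral ℤ (wt χ f₁) := isIntegral_wt hχ f₁ hf₁c hf₁i
  have hi2 : IsIntegral ℤ (wt χ g₂) := isIntegral_wt hχ g₂ hg₂c hg₂i
  obtain ⟨k, hk⟩ := hidx
  have hkill : ∀ m : (integralClosure ℤ ℂ) ⧸ 𝔐, B.index • m = 0 := by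
    intro m
    rw [hk, mul_comm, mul_nsmul, nsmul_quot_eq_zero 𝔐 hℓ]
  have hz2 : red 𝔐 ((B.index : ℂ) * wt χ g₂) = 0 := by
    rw [red_natCast_mul 𝔐 _ hi2]
    exact hkill _
  -- the part on `B`
  obtain ⟨ψ, hψ, hχψ⟩ := MPR.exists_under B.subtype hχ
  have hθ : IsIrr (fun n : N.subgroupOf O => ξ ((n : O) : X)) :=
    hξ.1.comp_mulEquiv (Subgroup.subgroupOfEquivOfLe hNO)
  have hstab : ∀ o : O, cen 𝔐 (MonoidHom.id (N.subgroupOf O))
      (fun a => (fun n : N.subgroupOf O => ξ ((n : O) : X)) (MulAut.conjNormal o a)) =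
      cen 𝔐 (MonoidHom.id (N.subgroupOf O)) (fun n : N.subgroupOf O => ξ ((n : O) : X)) := by
    intro o
    funext a
    have h1 : cen 𝔐 (MonoidHom.id (N.subgroupOf O))
        (fun a => (fun n : N.subgroupOf O => ξ ((n : O) : X)) (MulAut.conjNormal o a)) a =
        cen 𝔐 (MonoidHom.id (N.subgroupOf O)) (fun n : N.subgroupOf O => ξ ((n : O) : X))
          (MulAut.conjNormal o a) := by
      rw [cen, cen]
      congr 1
      rw [← wt_comp_equiv (MulAut.conjNormal o : MulAut (N.subgroupOf O))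
        (fun n : N.subgroupOf O => ξ ((n : O) : X))]
      congr 1
      funext n
      apply conjInd_congr
      constructor
      · intro h
        exact ((MulAut.conjNormal o : MulAut (N.subgroupOf O)) : N.subgroupOf O →*
          N.subgroupOf O).map_isConj h
      · intro h
        have h2 := (((MulAut.conjNormal o : MulAut (N.subgroupOf O)).symm) : N.subgroupOf O →*
          N.subgroupOf O).map_isConj h
        simpa using h2
    rw [h1, cen_eq_cgT 𝔐 N O hNO ξ hξ.2, cen_eq_cgT 𝔐 N O hNO ξ hξ.2]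
    have h3 : (((MulAut.conjNormal o : MulAut (N.subgroupOf O)) a : O) : X) =
        (o : X) * ((a : O) : X) * (o : X)⁻¹ := rfl
    rw [h3]
    exact (mem_sx.mp (hst o.2)) _
  have hcen := cen_conj_eq hBLM 𝔐 ℓ hmax hℓ (N.subgroupOf O) B hAB hpg' hχ hθ hip hstab hψ hχψ
  have hres := (SUMM_thm B O (O ⧸ B) B.subtype _ _ (clg B)).2.2.2 ψ χ f₁ hψ hχ hχψ hf₁c (by
    intro x hx
    change (if x ∈ B then g x else 0) = 0
    rw [if_neg]
    intro h
    exact hx ⟨⟨x, h⟩, rfl⟩)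
  let F : B → ℂ := fun b => ((w ((b : O) : X) : ℤ) : ℂ)
  have hFc : ∀ a x : B, F (a * x * a⁻¹) = F x := by
    intro a x
    change ((w (((a * x * a⁻¹ : B) : O) : X) : ℤ) : ℂ) = _
    have h1 : (((a * x * a⁻¹ : B) : O) : X) =
        ((a : O) : X) * ((x : O) : X) * ((a : O) : X)⁻¹ := rfl
    rw [h1, hw _ a.2]
  have hFi : ∀ x : B, IsIntegral ℤ (F x) := fun x => intz _
  have hterm : ∀ c : O, wt ψ (fun b : B => ((w ((c : X)⁻¹ * ((b : O) : X) * (c : X)) : ℤ) : ℂ)) =
      wt (fun b => ψ (MulAut.conjNormal c b)) F := by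
    intro c
    rw [← wt_comp_equiv (MulAut.conjNormal c : MulAut B) ψ]
    congr 1
    funext b
    have h1 : (((MulAut.conjNormal c : MulAut B) b : O) : X) =
        (c : X) * ((b : O) : X) * (c : X)⁻¹ := rfl
    rw [h1]
    have h2 : (c : X)⁻¹ * ((c : X) * ((b : O) : X) * (c : X)⁻¹) * (c : X) = ((b : O) : X) := by
      group
    rw [h2]
  have hi3 : ∀ c : O, IsIntegral ℤ (wt (fun b => ψ (MulAut.conjNormal c b)) F) := fun c =>
    isIntegral_wt (hψ.comp_mulEquiv (MulAut.conjNormal c)) F hFc hFi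
  have hz1 : red 𝔐 (wt χ f₁) = 0 := by
    rw [hres]
    have h1 : (fun a : B => f₁ (B.subtype a)) = fun a : B => ∑ c : O ⧸ B,
        ((w ((c.out : X)⁻¹ * ((a : O) : X) * (c.out : X)) : ℤ) : ℂ) := by
      funext a
      change (if (a : O) ∈ B then g a else 0) = _
      rw [if_pos a.2]
      change ((conv (OUTN.clO O y) v ((a : O) : X) : ℤ) : ℂ) = _
      rw [hf]
      push_cast
      rfl
    rw [h1, wt_sum]
    simp only [hterm]
    rw [red_sum 𝔐 _ _ (fun c _ => hi3 c.out)]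
    have h2 : ∀ c : O, red 𝔐 (wt (fun b => ψ (MulAut.conjNormal c b)) F) =
        pair 𝔐 F (cen 𝔐 (MonoidHom.id B) ψ) := by
      intro c
      rw [← hcen c]
      exact red_wt_eq_pair 𝔐 (MonoidHom.id B) (hψ.comp_mulEquiv (MulAut.conjNormal c)) F hFc hFi
    rw [Finset.sum_congr rfl fun c _ => h2 c.out, Finset.sum_const, hcard]
    exact hkill _
  change red 𝔐 (wt χ g) = 0
  rw [hwt, red_add 𝔐 hi1 ((isIntegral_natCast _).mul hi2), hz1, hz2, add_zero]

/-- The elements which conjugate `y` as the elements of `N`. -/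
theorem class_cov (hBLM : Stmt_BLM) (𝔐 : Ideal (integralClosure ℤ ℂ)) (ℓ : ℕ)
    [Fact ℓ.Prime] (hmax : 𝔐.IsMaximal) (hℓ : (ℓ : integralClosure ℤ ℂ) ∈ 𝔐)
    (N O : Subgroup X) (hN : N.Normal) (hNO : N ≤ O)
    (hpg : ∀ x ∈ O, ∃ n : ℕ, x ^ ℓ ^ n ∈ N) (χ : O → ℂ) (hχ : IsIrr χ) (ξ : X → ℂ)
    (hξ : IrrOn N ξ)
    (hip : ip (fun n : N.subgroupOf O => χ n) (fun n : N.subgroupOf O => ξ (n : O)) ≠ 0)
    (hst : O ≤ sx (cgT 𝔐 N ξ)) (y : X) (v : X → ℤ)
    (hv : ∀ a ∈ O, ∀ y, v (a * y * a⁻¹) = v y)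
    (hne : red 𝔐 (wt χ (fun o => ((conv (OUTN.clO O y) v (o : X) : ℤ) : ℂ))) ≠ 0) :
    ∀ o ∈ O, ∃ n ∈ N, o * y * o⁻¹ = n * y * n⁻¹ := by
  have hNn : (N.subgroupOf O).Normal := inferInstance
  let D : Subgroup O := N.subgroupOf O ⊔ (Subgroup.centralizer {y}).subgroupOf O
  have hD : D = ⊤ := by
    by_contra h
    obtain ⟨B, hB, hDB⟩ := (eq_top_or_exists_le_coatom D).resolve_left h
    apply hne
    refine class_zero hBLM 𝔐 ℓ hmax hℓ N O hN hNO hpg χ hχ ξ hξ hip hst y v hv B hB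
      (le_sup_left.trans hDB) fun o ho => ?_
    apply hDB
    apply (le_sup_right : (Subgroup.centralizer {y}).subgroupOf O ≤ D)
    rw [Subgroup.mem_subgroupOf, Subgroup.mem_centralizer_iff]
    intro z hz
    rw [Set.mem_singleton_iff.1 hz]
    exact ho.symm
  intro o ho
  have h1 : (⟨o, ho⟩ : O) ∈ D := by
    rw [hD]
    trivial
  change (⟨o, ho⟩ : O) ∈ N.subgroupOf O ⊔ (Subgroup.centralizer {y}).subgroupOf O at h1
  rw [Subgroup.mem_sup_of_normal_left] at h1
  obtain ⟨n, hn, c, hc, h2⟩ := h1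
  refine ⟨(n : X), hn, ?_⟩
  have h3 : (n : X) * (c : X) = o := congrArg Subtype.val h2
  have h4 : y * (c : X) = (c : X) * y :=
    (Subgroup.mem_centralizer_iff.1 (Subgroup.mem_subgroupOf.1 hc)) y rfl
  rw [← h3]
  calc (n : X) * (c : X) * y * ((n : X) * (c : X))⁻¹
      = (n : X) * ((c : X) * y) * ((c : X)⁻¹ * (n : X)⁻¹) := by group
    _ = (n : X) * (y * (c : X)) * ((c : X)⁻¹ * (n : X)⁻¹) := by rw [h4]
    _ = (n : X) * y * (n : X)⁻¹ := by group

/-- Decomposition of an invariant function into classes. -/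
theorem exists_class (O : Subgroup X) (Z : (X → ℤ) → Prop) (h0 : ∀ u, (∀ y, u y = 0) → Z u)
    (h1 : ∀ (u u' : X → ℤ) (c : ℤ), (∀ a ∈ O, ∀ y, u (a * y * a⁻¹) = u y) →
      (∀ a ∈ O, ∀ y, u' (a * y * a⁻¹) = u' y) → Z u → Z u' → Z (fun z => u z + c * u' z))
    (u : X → ℤ) (hu : ∀ a ∈ O, ∀ y, u (a * y * a⁻¹) = u y)
    (h2 : ∀ y, u y ≠ 0 → Z (OUTN.clO O y)) : Z u := by
  classical
  have key : ∀ (n : ℕ) (u : X → ℤ), (∀ a ∈ O, ∀ y, u (a * y * a⁻¹) = u y) →
      (∀ y, u y ≠ 0 → Z (OUTN.clO O y)) → (Finset.univ.filter (fun y => u y ≠ 0)).card = n →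
      Z u := by
    intro n
    induction n using Nat.strong_induction_on with
    | _ n ih =>
      intro u hu hus hn
      by_cases h3 : ∀ y, u y = 0
      · exact h0 u h3
      · push Not at h3
        obtain ⟨y, hy0⟩ := h3
        have hE : ∀ z, OUTN.clO O y z ≠ 0 → u z = u y := by
          intro z hz
          unfold OUTN.clO at hz
          split_ifs at hz with h2
          · obtain ⟨b, hb, rfl⟩ := h2
            exact hu b hb y
          · exact absurd rfl hz
        have hE1 : ∀ z, OUTN.clO O y z = 0 ∨ OUTN.clO O y z = 1 := by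
          intro z
          unfold OUTN.clO
          split_ifs
          · exact Or.inr rfl
          · exact Or.inl rfl
        let u' : X → ℤ := fun z => u z - u y * OUTN.clO O y z
        have hu' : ∀ a ∈ O, ∀ z, u' (a * z * a⁻¹) = u' z := by
          intro a ha z
          change u (a * z * a⁻¹) - u y * OUTN.clO O y (a * z * a⁻¹) = _
          rw [hu a ha, OUTN.clO_conj O y a ha]
        have hsup : ∀ z, u' z ≠ 0 → u z ≠ 0 := by
          intro z hz h2
          apply hz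
          change u z - u y * OUTN.clO O y z = 0
          rcases hE1 z with h3 | h3
          · rw [h2, h3, mul_zero, sub_zero]
          · rw [h2, h3, ← hE z (by rw [h3]; exact one_ne_zero), h2]
            ring
        have hy' : u' y = 0 := by
          change u y - u y * OUTN.clO O y y = 0
          have h3 : OUTN.clO O y y = 1 := by
            unfold OUTN.clO
            rw [if_pos ⟨1, O.one_mem, by group⟩]
          rw [h3]
          ring
        have hlt : (Finset.univ.filter (fun z => u' z ≠ 0)).card < n := by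
          rw [← hn]
          apply Finset.card_lt_card
          refine (Finset.ssubset_iff_of_subset ?_).mpr ⟨y, ?_, ?_⟩
          · intro z hz
            rw [Finset.mem_filter] at hz ⊢
            exact ⟨hz.1, hsup z hz.2⟩
          · rw [Finset.mem_filter]
            exact ⟨Finset.mem_univ _, hy0⟩
          · rw [Finset.mem_filter]
            rintro ⟨_, h2⟩
            exact h2 hy'
        have h4 := ih _ hlt u' hu' (fun z hz => hus z (hsup z hz)) rfl
        have h5 := h1 u' (OUTN.clO O y) (u y) hu' (fun a ha z => OUTN.clO_conj O y a ha z) h4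
          (hus y hy0)
        have h6 : (fun z => u' z + u y * OUTN.clO O y z) = u := by
          funext z
          change (u z - u y * OUTN.clO O y z) + u y * OUTN.clO O y z = u z
          ring
        rw [h6] at h5
        exact h5
  exact key _ u hu h2 rfl

/-- The class of `y` commutes with the functions supported in `y⁻¹ O`. -/
theorem conv_comm (O : Subgroup X) (hO : O.Normal) (y : X) (v : X → ℤ)
    (hv : ∀ z, v z ≠ 0 → y * z ∈ O) : conv (OUTN.clO O y) v = conv v (OUTN.clO O y) := by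
  classical
  have hcl : ∀ z, v z ≠ 0 → ∀ w, OUTN.clO O y (z * w * z⁻¹) = OUTN.clO O y w := by
    intro z hz w
    have h1 := hv z hz
    unfold OUTN.clO
    congr 1
    apply propext
    constructor
    · rintro ⟨b, hb, h2⟩
      -- `w = z⁻¹ b y b⁻¹ z`, `z = y⁻¹ o`
      refine ⟨z⁻¹ * b * y⁻¹, ?_, ?_⟩
      · have h3 : z⁻¹ * b * y⁻¹ = (y * z)⁻¹ * (y * b * y⁻¹) := by group
        rw [h3]
        exact O.mul_mem (O.inv_mem h1) (hO.conj_mem _ hb _)
      · have h3 : w = z⁻¹ * (z * w * z⁻¹) * z := by group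
        rw [h3, h2]
        group
    · rintro ⟨b, hb, rfl⟩
      refine ⟨z * b * y, ?_, ?_⟩
      · have h3 : z * b * y = y⁻¹ * ((y * z) * b) * (y⁻¹)⁻¹ := by group
        rw [h3]
        exact hO.conj_mem _ (O.mul_mem h1 hb) _
      · group
  funext x
  rw [conv, conv]
  -- `w ↦ w⁻¹ x`
  have h1 : ∑ w : X, OUTN.clO O y w * v (w⁻¹ * x) = ∑ z : X, OUTN.clO O y (x * z⁻¹) * v z := by
    refine Fintype.sum_equiv ((Equiv.inv X).trans (Equiv.mulRight x)) _ _ fun w => ?_
    change OUTN.clO O y w * v (w⁻¹ * x) = OUTN.clO O y (x * (w⁻¹ * x)⁻¹) * v (w⁻¹ * x)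
    have h2 : x * (w⁻¹ * x)⁻¹ = w := by group
    rw [h2]
  rw [h1]
  refine Finset.sum_congr rfl fun z _ => ?_
  by_cases hz : v z = 0
  · rw [hz, mul_zero, zero_mul]
  · rw [← hcl z hz (z⁻¹ * x)]
    have h2 : z * (z⁻¹ * x) * z⁻¹ = x * z⁻¹ := by group
    rw [h2, mul_comm]

theorem clO_eq (O : Subgroup X) (y : X) : DPT.clO O y = OUTN.clO O y := by
  funext z
  unfold DPT.clO OUTN.clO
  by_cases h : ∃ o ∈ O, z = o * y * o⁻¹
  · rw [if_pos h, if_pos h]
  · rw [if_neg h, if_neg h]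

end OUTM

open _root_.Pool.Agent.DPT.OUTM in
/-- OUTM: elements which centralize `O / N`. -/
theorem OUTM_thm (h1 : Stmt_BLM) : Stmt_OUTM := by
  classical
  intro X _ _ 𝔐 ℓ _ hmax hℓ N O hN hO hNO hpg χ hχ ξ hξ hip hst x u v hu hv hus hvs hne
  have hprime : 𝔐.IsPrime := hmax.isPrime
  have hint : ∀ u v : X → ℤ, (∀ a ∈ O, ∀ y, u (a * y * a⁻¹) = u y) →
      (∀ a ∈ O, ∀ y, v (a * y * a⁻¹) = v y) →
      IsIntegral ℤ (wt χ (fun o => ((conv u v (o : X) : ℤ) : ℂ))) := by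
    intro u v hu hv
    apply isIntegral_wt hχ
    · intro a z
      have h2 := OUTN.conv_conj u v (a : X) (fun z => hu _ a.2 z) (fun z => hv _ a.2 z) (z : X)
      have h3 : ((a * z * a⁻¹ : O) : X) = (a : X) * (z : X) * (a : X)⁻¹ := rfl
      rw [h3, h2]
    · intro z
      exact OUTN.intz _
  have hcl : ∀ y : X, ∀ a ∈ O, ∀ z, OUTN.clO O y (a * z * a⁻¹) = OUTN.clO O y z :=
    fun y a ha z => OUTN.clO_conj O y a ha z
  -- the left factor
  obtain ⟨y, hy, hyne⟩ : ∃ y, u y ≠ 0 ∧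
      red 𝔐 (wt χ (fun o => ((conv (OUTN.clO O y) v (o : X) : ℤ) : ℂ))) ≠ 0 := by
    by_contra hcon
    push Not at hcon
    apply hne
    refine exists_class O
      (fun u => red 𝔐 (wt χ (fun o => ((conv u v (o : X) : ℤ) : ℂ))) = 0) ?_ ?_ u hu hcon
    · intro u hu0
      have h2 : (fun o : O => ((conv u v (o : X) : ℤ) : ℂ)) = fun _ => 0 := by
        funext o
        rw [conv, Finset.sum_eq_zero fun z _ => by rw [hu0 z, zero_mul], Int.cast_zero]
      rw [h2, wt]
      simp [red_zero]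
    · intro u u' c hu hu' hz hz'
      have h3 : (fun o : O => ((conv (fun z => u z + c * u' z) v (o : X) : ℤ) : ℂ)) =
          (fun o : O => ((conv u v (o : X) : ℤ) : ℂ)) +
            fun o : O => ((c : ℤ) : ℂ) * ((conv u' v (o : X) : ℤ) : ℂ) := by
        funext o
        change ((conv (fun z => u z + c * u' z) v (o : X) : ℤ) : ℂ) =
          ((conv u v (o : X) : ℤ) : ℂ) + ((c : ℤ) : ℂ) * ((conv u' v (o : X) : ℤ) : ℂ)
        rw [← Int.cast_mul, ← Int.cast_add]
        congr 1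
        rw [conv, conv, conv, Finset.mul_sum, ← Finset.sum_add_distrib]
        refine Finset.sum_congr rfl fun z _ => ?_
        ring
      rw [h3, wt_add, wt_smul, red_add 𝔐 (hint u v hu hv) ((OUTN.intz _).mul (hint u' v hu' hv)),
        red_mul 𝔐 (OUTN.intz _) (hint u' v hu' hv), hz, hz', mul_zero, add_zero]
  -- the right factor
  obtain ⟨y', hy', hyne'⟩ : ∃ y', v y' ≠ 0 ∧
      red 𝔐 (wt χ (fun o => ((conv (OUTN.clO O y) (OUTN.clO O y') (o : X) : ℤ) : ℂ))) ≠ 0 := by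
    by_contra hcon
    push Not at hcon
    apply hyne
    refine exists_class O
      (fun v => red 𝔐 (wt χ (fun o => ((conv (OUTN.clO O y) v (o : X) : ℤ) : ℂ))) = 0)
      ?_ ?_ v hv hcon
    · intro v hv0
      have h2 : (fun o : O => ((conv (OUTN.clO O y) v (o : X) : ℤ) : ℂ)) = fun _ => 0 := by
        funext o
        rw [conv, Finset.sum_eq_zero fun z _ => by rw [hv0 _, mul_zero], Int.cast_zero]
      rw [h2, wt]
      simp [red_zero]
    · intro v v' c hv hv' hz hz'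
      have h3 : (fun o : O => ((conv (OUTN.clO O y) (fun z => v z + c * v' z) (o : X) : ℤ) : ℂ)) =
          (fun o : O => ((conv (OUTN.clO O y) v (o : X) : ℤ) : ℂ)) +
            fun o : O => ((c : ℤ) : ℂ) * ((conv (OUTN.clO O y) v' (o : X) : ℤ) : ℂ) := by
        funext o
        change ((conv (OUTN.clO O y) (fun z => v z + c * v' z) (o : X) : ℤ) : ℂ) =
          ((conv (OUTN.clO O y) v (o : X) : ℤ) : ℂ) +
            ((c : ℤ) : ℂ) * ((conv (OUTN.clO O y) v' (o : X) : ℤ) : ℂ)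
        rw [← Int.cast_mul, ← Int.cast_add]
        congr 1
        rw [conv, conv, conv, Finset.mul_sum, ← Finset.sum_add_distrib]
        refine Finset.sum_congr rfl fun z _ => ?_
        ring
      rw [h3, wt_add, wt_smul, red_add 𝔐 (hint _ v (hcl y) hv)
          ((OUTN.intz _).mul (hint _ v' (hcl y) hv')),
        red_mul 𝔐 (OUTN.intz _) (hint _ v' (hcl y) hv'), hz, hz', mul_zero, add_zero]
  have hxy := hus y hy
  have hxy' := hvs y' hy'
  have hyy' : y * y' ∈ O := by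
    have h2 : y * y' = (x * (x⁻¹ * y) * x⁻¹) * (x * y') := by group
    rw [h2]
    exact O.mul_mem (hO.conj_mem _ hxy x) hxy'
  have hcomm : conv (OUTN.clO O y) (OUTN.clO O y') = conv (OUTN.clO O y') (OUTN.clO O y) := by
    apply conv_comm O hO
    intro z hz
    unfold OUTN.clO at hz
    split_ifs at hz with h2
    · obtain ⟨b, hb, rfl⟩ := h2
      have h3 : y * (b * y' * b⁻¹) = (y * b * y⁻¹) * (y * y') * b⁻¹ := by group
      rw [h3]
      exact O.mul_mem (O.mul_mem (hO.conj_mem _ hb y) hyy') (O.inv_mem hb)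
    · exact absurd rfl hz
  refine ⟨y, y', hxy, hxy', ?_, ?_, ?_⟩
  · exact class_cov h1 𝔐 ℓ hmax hℓ N O hN hNO hpg χ hχ ξ hξ hip hst y v hv hyne
  · rw [hcomm] at hyne'
    exact class_cov h1 𝔐 ℓ hmax hℓ N O hN hNO hpg χ hχ ξ hξ hip hst y' _ (hcl y) hyne'
  · rw [clO_eq, clO_eq]
    exact hyne'

end Pool.Agent.DPT


end

section

set_option linter.unusedSectionVars false

/-!
# HATG (theorem V): a covering group for which all characters extend
-/

namespace Pool.Agent.DPV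

open Pool.Agent.DP Pool.Agent.Lib_helper13 Representation
open Pool.Agent.Lib_helper13.Dade (pCore DadeHolds dadeSum)

namespace HATG

open Pool.Agent.DPC.EXTAR

/-- The inflation of an irreducible character whose restriction is irreducible. -/
theorem irr_comp {A H L : Type} [Group A] [Fintype A] [Group H] [Group L] (t : H →* L)
    (g : A →* H) (F : L → ℂ) (hF : IsIrr F) (θ : A → ℂ) (hθ : IsIrr θ)
    (h : ∀ a, F (t (g a)) = θ a) : IsIrr (fun x : H => F (t x)) := by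
  obtain ⟨n, R, hR, rfl⟩ := hF
  let R1 : Representation ℂ H (Fin n → ℂ) := R.comp t
  let R0 : Representation ℂ A (Fin n → ℂ) := R1.comp g
  have h0 : R0.character = θ := by
    funext a
    exact h a
  have h1 : R0.IsIrreducible := by
    apply irreducible_of_sum
    rw [h0]
    exact hθ.sum_self
  exact ⟨n, R1, EXTC.irr_of_res R1 R0 g (fun _ => rfl) h1, rfl⟩

section Loc

variable {G B C : Type} [Group G] [Group B] [Group C] {ι : G →* B} {κ : B →* MulAut G}
  {ρ : B →* C}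

/-- The embedding. -/
noncomputable def jX (h : ClG ι κ ρ) {σ : Finset (Subgroup G)} {ψ : G → ℂ}
    (hψ : IrrOn (stb σ) ψ) : stb σ →* Stx κ σ ψ :=
  (ι.comp (stb σ).subtype).codRestrict _ (fun a => (mem_Stx_iota h hψ a).mpr a.2)

theorem kap_memX (h : ClG ι κ ρ) {σ : Finset (Subgroup G)} {ψ : G → ℂ}
    (hψ : IrrOn (stb σ) ψ) (y : Stx κ σ ψ) (a : stb σ) : κ (y : B) (a : G) ∈ stb σ := by
  rw [← mem_Stx_iota h hψ, h.act]
  exact mul_mem (mul_mem y.2 ((mem_Stx_iota h hψ a).mpr a.2)) (inv_mem y.2)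

/-- The action. -/
noncomputable def cX (h : ClG ι κ ρ) {σ : Finset (Subgroup G)} {ψ : G → ℂ}
    (hψ : IrrOn (stb σ) ψ) : Stx κ σ ψ →* MulAut (stb σ) where
  toFun y :=
    { toFun := fun a => ⟨κ (y : B) (a : G), kap_memX h hψ y a⟩
      invFun := fun a => ⟨κ ((y⁻¹ : Stx κ σ ψ) : B) (a : G), kap_memX h hψ y⁻¹ a⟩
      left_inv := by
        intro a
        apply Subtype.ext
        change κ ((y⁻¹ : Stx κ σ ψ) : B) (κ (y : B) (a : G)) = a
        rw [← MulAut.mul_apply, ← map_mul]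
        simp
      right_inv := by
        intro a
        apply Subtype.ext
        change κ (y : B) (κ ((y⁻¹ : Stx κ σ ψ) : B) (a : G)) = a
        rw [← MulAut.mul_apply, ← map_mul]
        simp
      map_mul' := by
        intro a b
        apply Subtype.ext
        change κ (y : B) ((a * b : stb σ) : G) = κ (y : B) (a : G) * κ (y : B) (b : G)
        simp }
  map_one' := by
    ext a
    simp
  map_mul' := by
    intro x y
    ext a
    simp

/-- The projection. -/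
noncomputable def pX (κ : B →* MulAut G) (ρ : B →* C) (σ : Finset (Subgroup G)) (ψ : G → ℂ) :
    Stx κ σ ψ →* C := ρ.comp (Stx κ σ ψ).subtype

theorem clG_X (h : ClG ι κ ρ) {σ : Finset (Subgroup G)} {ψ : G → ℂ}
    (hψ : IrrOn (stb σ) ψ) : ClG (jX h hψ) (cX h hψ) (pX κ ρ σ ψ) where
  inj := by
    intro a b hab
    apply Subtype.ext
    apply h.inj
    exact congrArg Subtype.val hab
  act := by
    intro y a
    apply Subtype.ext
    exact h.act (y : B) (a : G)
  ker := by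
    intro y
    constructor
    · intro hy
      obtain ⟨g, hg⟩ := (h.ker (y : B)).mp hy
      have h1 : g ∈ stb σ := (mem_Stx_iota h hψ g).mp (by rw [hg]; exact y.2)
      exact ⟨⟨g, h1⟩, Subtype.ext hg⟩
    · rintro ⟨a, rfl⟩
      exact rho_iota h (a : G)

/-- The cover of a stabilizer. -/
theorem cover [Fintype G] [Fintype B] [Finite C] (h1 : Stmt_PRJB) {ℓ : ℕ} (hℓ : ℓ.Prime)
    (h : ClG ι κ ρ) (hC : ¬ ℓ ∣ Nat.card C) (σ : Finset (Subgroup G)) (ψ : G → ℂ)
    (hψ : IrrOn (stb σ) ψ) :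
    ∃ (Γ : Type) (_ : Group Γ) (_ : Finite Γ) (q : Γ →* C), q.range = (pX κ ρ σ ψ).range ∧
      ¬ ℓ ∣ Nat.card q.ker ∧
      ∃ f : Stx κ σ ψ × Γ → ℂ,
        IsIrr (fun x : MonoidHom.eqLocus ((pX κ ρ σ ψ).comp (MonoidHom.fst _ Γ))
          (q.comp (MonoidHom.snd _ Γ)) => f x) ∧ ∀ a, f (jX h hψ a, 1) = ψ a := by
  classical
  have i1 : Fintype (stb σ) := Fintype.ofFinite _
  have i2 : Fintype (Stx κ σ ψ) := Fintype.ofFinite _
  obtain ⟨Γ, i3, i4, q, hq1, hq2, f, hf1, hf2⟩ := h1 (stb σ) (Stx κ σ ψ) C (jX h hψ) (cX h hψ)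
    (pX κ ρ σ ψ) (clG_X h hψ) (fun a => ψ a) hψ.1 (fun y a => y.2.2 (a : G))
  refine ⟨Γ, i3, i4, q, hq1, ?_, f, hf1, hf2⟩
  intro hd
  exact hC ((hq2 ℓ hℓ hd).trans (Subgroup.card_subgroup_dvd_card _))

end Loc

theorem HATG_thm (h1 : Stmt_PRJB) (h2 : Stmt_FRG) : Stmt_HATG := by
  intro G B C _ _ _ _ _ ℓ hfact ι κ ρ hL hC
  classical
  have hℓ : ℓ.Prime := hfact.out
  have hc := hL.cl
  have hfC : Finite C := Finite.of_surjective ρ hL.surj
  let I : Type := (σ : Finset (Subgroup G)) × {ψ : G → ℂ // ψ ∈ irrOn (stb σ)}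
  have hI : ∀ i : I, IrrOn (stb i.1) i.2.1 := fun i => IRRPI.mem_irrOn.mp i.2.2
  have key := fun i : I => cover h1 hℓ hc hC i.1 i.2.1 (hI i)
  choose Γ iG iF q hq1 hq2 f hf1 hf2 using key
  obtain ⟨C', iC', fC', π, hπ, hπk, hs⟩ := h2 C I ℓ Γ q hq2
  choose s hs using hs
  let B' : Subgroup (B × C') :=
    MonoidHom.eqLocus (ρ.comp (MonoidHom.fst B C')) (π.comp (MonoidHom.snd B C'))
  have hB' : ∀ y : B', ρ (y : B × C').1 = π (y : B × C').2 := fun y => y.2
  let ι' : G →* B' := (MonoidHom.inl B C').comp ι |>.codRestrict B' (fun g => by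
    change ρ (ι g) = π 1
    rw [rho_iota hc, map_one])
  let π' : B' →* B := (MonoidHom.fst B C').comp B'.subtype
  let ρ' : B' →* C' := (MonoidHom.snd B C').comp B'.subtype
  have hc' : ClG ι' (κ.comp π') ρ' := by
    refine ⟨?_, ?_, ?_⟩
    · intro a b hab
      apply hc.inj
      exact congrArg (fun y : B' => (y : B × C').1) hab
    · intro y a
      apply Subtype.ext
      apply Prod.ext
      · exact hc.act (y : B × C').1 a
      · change (1 : C') = (y : B × C').2 * 1 * ((y : B × C').2)⁻¹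
        rw [mul_one, mul_inv_cancel]
    · intro y
      constructor
      · intro hy
        have h3 : (y : B × C').2 = 1 := hy
        have h4 : ρ (y : B × C').1 = 1 := by rw [hB' y, h3, map_one]
        obtain ⟨g, hg⟩ := (hc.ker _).mp h4
        refine ⟨g, ?_⟩
        apply Subtype.ext
        exact Prod.ext hg h3.symm
      · rintro ⟨g, rfl⟩
        rfl
  have hsurj' : Function.Surjective ρ' := by
    intro c
    obtain ⟨b, hb⟩ := hL.surj (π c)
    exact ⟨⟨(b, c), hb⟩, rfl⟩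
  have hπ' : Function.Surjective π' := by
    intro b
    obtain ⟨c, hcc⟩ := hπ (ρ b)
    exact ⟨⟨(b, c), hcc.symm⟩, rfl⟩
  refine ⟨B', C', inferInstance, Fintype.ofFinite _, iC', ι', κ.comp π', ρ', π',
    ⟨hc', hsurj', ?_⟩, hπ', fun g => rfl, rfl, ?_, ?_⟩
  · intro σ ψ hψ
    let i : I := ⟨σ, ψ, IRRPI.mem_irrOn.mpr hψ⟩
    have hmem : ∀ y : Stx (κ.comp π') σ ψ, π' y ∈ Stx κ σ ψ := fun y => y.2
    have hmem2 : ∀ y : Stx (κ.comp π') σ ψ, ρ' y ∈ (q i).range.comap π := by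
      intro y
      rw [Subgroup.mem_comap, hq1 i]
      refine ⟨⟨π' y, hmem y⟩, ?_⟩
      exact hB' y
    let a1 : Stx (κ.comp π') σ ψ →* Stx κ σ ψ :=
      (π'.comp (Stx (κ.comp π') σ ψ).subtype).codRestrict _ hmem
    let a2 : Stx (κ.comp π') σ ψ →* ↥((q i).range.comap π) :=
      (ρ'.comp (Stx (κ.comp π') σ ψ).subtype).codRestrict _ hmem2
    let E := MonoidHom.eqLocus ((pX κ ρ σ ψ).comp (MonoidHom.fst _ (Γ i)))
          ((q i).comp (MonoidHom.snd _ (Γ i)))
    let t : Stx (κ.comp π') σ ψ →* E := (a1.prod ((s i).comp a2)).codRestrict E (by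
      intro y
      change ρ (π' y) = q i (s i (a2 y))
      rw [hs i (a2 y)]
      exact hB' y)
    have hF := hf1 i
    have i5 : Fintype (stb σ) := Fintype.ofFinite _
    have hval : ∀ a : stb σ, f i ((t (jX hc' hψ a) : E) : Stx κ σ ψ × Γ i) = ψ a := by
      intro a
      refine Eq.trans ?_ (hf2 i a)
      apply congrArg (f i)
      apply Prod.ext
      · rfl
      · change s i (a2 (jX hc' hψ a)) = 1
        have h5 : a2 (jX hc' hψ a) = 1 := Subtype.ext rfl
        rw [h5, map_one]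
    have hirr : IsIrr (fun y : Stx (κ.comp π') σ ψ => f i ((t y : E) : Stx κ σ ψ × Γ i)) :=
      irr_comp t (jX hc' hψ) (fun x : E => f i x) hF (fun a : stb σ => ψ a) hψ.1 hval
    refine ⟨ext0 (fun y : Stx (κ.comp π') σ ψ => f i ((t y : E) : Stx κ σ ψ × Γ i)),
      IRRPI.irrOn_ext0 hirr, ?_⟩
    intro g
    by_cases hg : g ∈ stb σ
    · rw [ext0_of_mem _ ((mem_Stx_iota hc' hψ g).mpr hg)]
      exact hval ⟨g, hg⟩
    · rw [ext0_of_not_mem _ (fun hcc => hg ((mem_Stx_iota hc' hψ g).mp hcc)), hψ.2 g hg]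
  · have h6 : Nat.card π'.ker = Nat.card π.ker := by
      refine Nat.card_congr
        { toFun := fun y => ⟨ρ' y, ?_⟩
          invFun := fun z => ⟨⟨(1, z), ?_⟩, rfl⟩
          left_inv := ?_
          right_inv := ?_ }
      · have h7 : π' (y : B') = 1 := y.2
        change π (ρ' y) = 1
        have h8 : ρ (π' y) = π (ρ' y) := hB' y
        rw [← h8, h7, map_one]
      · have h7 : π (z : C') = 1 := z.2
        change ρ 1 = π z
        rw [h7, map_one]
      · intro y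
        apply Subtype.ext
        apply Subtype.ext
        have h7 : π' (y : B') = 1 := y.2
        exact Prod.ext h7.symm rfl
      · intro z
        rfl
    rw [h6]
    exact hπk
  · intro hd
    have h7 : Nat.card C' = Nat.card π.ker * Nat.card C := by
      rw [← Subgroup.card_mul_index π.ker, Subgroup.index_ker, MonoidHom.range_eq_top.mpr hπ,
        Subgroup.card_top]
    rw [h7] at hd
    rcases hℓ.dvd_mul.mp hd with h8 | h8
    · exact hπk h8
    · exact hC h8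

end HATG

theorem HATG_thm (h1 : Stmt_PRJB) (h2 : Stmt_FRG) : Stmt_HATG := HATG.HATG_thm h1 h2

end Pool.Agent.DPV


end

section

/-!
# The constituents of the restriction to the central product (module CPO)
-/

namespace Pool.Agent.DPW

open Pool.Agent.DP Pool.Agent.DPV Pool.Agent.Lib_helper13 Representation

namespace CPO

theorem prodFn_mulSingle {Ω K : Type} [Fintype Ω] [DecidableEq Ω] [Group K] (ξ' : Ω → K → ℂ)
    (w₀ : Ω) (k : K) :
    prodFn ξ' (Pi.mulSingle w₀ k) = (∏ w ∈ Finset.univ.erase w₀, ξ' w 1) * ξ' w₀ k := by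
  unfold prodFn
  rw [← Finset.mul_prod_erase Finset.univ _ (Finset.mem_univ w₀), mul_comm]
  congr 1
  · refine Finset.prod_congr rfl fun w hw => ?_
    rw [Pi.mulSingle_eq_of_ne (Finset.ne_of_mem_erase hw)]
  · rw [Pi.mulSingle_eq_same]

end CPO

open _root_.Pool.Agent.DPW.CPO in
theorem CPO_thm : Stmt_CPO := by
  intro X Ω _ _ _ _ K w₀ e he χ ξ hχ hξ hne
  by_contra hn
  push Not at hn
  apply hne
  have h := class_fn_expand (resj e χ) (fun g x => (hχ.resj e).conj_eq g x)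
  have h1 : (fun k : K => χ k) = fun k : K => ∑ θ ∈ irrF (Ω → K),
      ip (resj e χ) θ * θ (Pi.mulSingle w₀ k) := by
    funext k
    have h2 := congrFun h (Pi.mulSingle w₀ k)
    rw [resj, he] at h2
    exact h2
  rw [h1, ip_sum (irrF (Ω → K)) (fun θ => ip (resj e χ) θ)
    (fun θ (k : K) => θ (Pi.mulSingle w₀ k)) ξ]
  refine Finset.sum_eq_zero fun θ hθ => ?_
  obtain ⟨ξ', hξ', rfl⟩ := exists_prodFn (mem_irrF.mp hθ)
  by_cases h2 : ξ' w₀ = ξ
  · have h3 := hn ξ' hξ' h2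
    have h4 : prodFn ξ' = fun n : Ω → K => ∏ w, ξ' w (n w) := rfl
    rw [h4, h3, zero_mul]
  · have h5 : ip (fun k : K => prodFn ξ' (Pi.mulSingle w₀ k)) ξ = 0 := by
      have h6 := ip_ne (hξ' w₀) hξ h2
      simp only [prodFn_mulSingle]
      rw [ip] at h6 ⊢
      rw [← mul_zero (∏ w ∈ Finset.univ.erase w₀, ξ' w 1), ← h6, ← mul_div_assoc,
        Finset.mul_sum]
      congr 1
      exact Finset.sum_congr rfl fun g _ => by ring
    rw [h5, mul_zero]

end Pool.Agent.DPW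


end

section

/-!
# Theorem X: the structure theorem (module NIXX)
-/

namespace Pool.Agent.DPX

/-- NIXX: induction from BASX and STPX. -/
theorem NIXX_thm (h1 : Stmt_BASX) (h2 : Stmt_STPX) : Stmt_NIXX := by
  intro ℓ n _ F _ _ _ hn
  induction n, (Nat.succ_le_of_lt hn) using Nat.le_induction with
  | base => exact h1 ℓ F
  | succ m hm ih =>
    exact h2 ℓ m F (Nat.lt_of_succ_le hm) (ih (Nat.lt_of_succ_le hm))

end Pool.Agent.DPX


end

section

/-!
# Theorem X: the blocks of the centralizer of a normal subgroup of order `ℓ` (module DPX_ATCX)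
-/

set_option linter.unusedSectionVars false

namespace Pool.Agent.DPX.ATCX

open Pool.Agent.DP Pool.Agent.DPB Pool.Agent.DPW Pool.Agent.Lib_helper13 Representation
open Pool.Agent.DPW.IDMB Pool.Agent.DPW.COVW

section Alg

variable {F T : Type} [Field F] [Group T] [Fintype T]

/-- The unit minus the function. -/
noncomputable def cm (v : T → F) : T → F := dl F T + (-1 : F) • v

omit [Fintype T] in
theorem clsF_eq {x y a b : T} (h : (∃ g, a = g * x * g⁻¹) ↔ ∃ g, b = g * y * g⁻¹) :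
    clsF F x a = clsF F y b := by
  by_cases h1 : ∃ g, a = g * x * g⁻¹
  · have h2 : clsF F x a = 1 := if_pos h1
    have h3 : clsF F y b = 1 := if_pos (h.1 h1)
    rw [h2, h3]
  · have h2 : clsF F x a = 0 := if_neg h1
    have h3 : clsF F y b = 0 := if_neg (fun h4 => h1 (h.2 h4))
    rw [h2, h3]

theorem Lz_cm (v : T → F) : Lz (cm v) = 1 - Lz v := by
  unfold cm
  rw [Lz_add, Lz_dl, Lz_neg, sub_eq_add_neg]

theorem cm_mem {v : T → F} (hv : v ∈ CF F T) : cm v ∈ CF F T :=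
  (CF F T).add_mem dl_mem ((CF F T).smul_mem _ hv)

theorem ext_Lz {a b : T → F} (h : Lz a = Lz b) : a = b :=
  Lz_inj (congrArg (fun A : Module.End F (T → F) => A (dl F T)) h)

theorem comm_Lz {a b : T → F} (hb : b ∈ CF F T) : Lz a * Lz b = Lz b * Lz a := by
  rw [← Lz_cvF, ← Lz_cvF, cvF_comm a hb]

theorem idem_cm {v : T → F} (hv : cvF v v = v) : cvF (cm v) (cm v) = cm v := by
  apply ext_Lz
  have h1 : Lz v * Lz v = Lz v := by rw [← Lz_cvF, hv]
  rw [Lz_cvF, Lz_cm, mul_sub, sub_mul, one_mul, mul_one, sub_mul, one_mul, h1]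
  abel

theorem idem_mul {u v : T → F} (hv' : v ∈ CF F T) (hu : cvF u u = u) (hv : cvF v v = v) :
    cvF (cvF u v) (cvF u v) = cvF u v := by
  apply ext_Lz
  have h1 : Lz u * Lz u = Lz u := by rw [← Lz_cvF, hu]
  have h2 : Lz v * Lz v = Lz v := by rw [← Lz_cvF, hv]
  have h3 : Lz u * Lz v = Lz v * Lz u := comm_Lz hv'
  rw [Lz_cvF, Lz_cvF, mul_assoc, ← mul_assoc (Lz u), h3, mul_assoc, h1, ← mul_assoc, h2]

theorem idem_pp {Y : Type} [Group Y] (c : Y →* MulAut T) {e : T → F} (he : e ∈ CF F T)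
    (hee : cvF e e = e) (L : List Y) : cvF (pp c e L) (pp c e L) = pp c e L := by
  induction L with
  | nil =>
    apply ext_Lz
    show Lz (cvF (dl F T) (dl F T)) = Lz (dl F T)
    rw [Lz_cvF, Lz_dl, mul_one]
  | cons y L ih =>
    refine idem_mul (pp_mem c he L) ?_ ih
    refine idem_cm (v := tw c e y) ?_
    have h1 := cvF_comp (c y) e e
    rw [hee] at h1
    exact h1.symm

/-- The product of `1 - v` and the functions `1 - e ∘ c_y`. -/
theorem cm_pp {Y : Type} [Group Y] (c : Y →* MulAut T) {e v : T → F}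
    (h : ∀ y, cvF v (tw c e y) = tw c e y) (L : List Y) : cvF (cm v) (pp c e L) = cm v := by
  induction L with
  | nil =>
    apply ext_Lz
    show Lz (cvF (cm v) (dl F T)) = Lz (cm v)
    rw [Lz_cvF, Lz_dl, one_mul]
  | cons y L ih =>
    apply ext_Lz
    have h1 : Lz (cvF v (tw c e y)) = Lz (tw c e y) := by rw [h y]
    rw [Lz_cvF] at h1
    have h2 : Lz (pp c e L) * Lz (cm v) = Lz (cm v) := by rw [← Lz_cvF, ih]
    show Lz (cvF (cm v) (cvF (cm (tw c e y)) (pp c e L))) = Lz (cm v)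
    have h3 : Lz (cm (tw c e y)) * Lz (cm v) = Lz (cm v) := by
      rw [Lz_cm, Lz_cm, sub_mul, one_mul, mul_sub, mul_one, h1, sub_self, sub_zero]
    rw [Lz_cvF, Lz_cvF, mul_assoc, h3, h2]

/-- A nonzero coefficient of `1 - ∏ (1 - e ∘ c_y)`. -/
theorem exists_tw {Y : Type} [Group Y] (c : Y →* MulAut T) {e : T → F} (he : e ∈ CF F T)
    (L : List Y) (h : T) (hh : cm (pp c e L) h ≠ 0) :
    ∃ y : Y, ∃ q ∈ CF F T, cvF (tw c e y) q h ≠ 0 := by
  induction L with
  | nil =>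
    exfalso
    apply hh
    show dl F T h + (-1 : F) * dl F T h = 0
    ring
  | cons y L ih =>
    have h1 : cm (pp c e (y :: L)) = cm (pp c e L) + cvF (tw c e y) (pp c e L) := by
      apply ext_Lz
      show Lz (cm (cvF (cm (tw c e y)) (pp c e L))) = _
      rw [Lz_cm, Lz_cvF, Lz_cm, Lz_add, Lz_cm, Lz_cvF, mul_sub, mul_one]
      abel
    rw [h1] at hh
    by_cases h2 : cm (pp c e L) h = 0
    · refine ⟨y, pp c e L, pp_mem c he L, fun h3 => hh ?_⟩
      show cm (pp c e L) h + cvF (tw c e y) (pp c e L) h = 0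
      rw [h2, h3, add_zero]
    · exact ih h2

/-- The restriction of a product. -/
theorem cvF_sub (C : Subgroup T) {a : T → F} (b : T → F) (ha : ∀ x, x ∉ C → a x = 0) (c : C) :
    cvF a b (c : T) = cvF (fun x : C => a x) (fun x : C => b x) c := by
  classical
  show ∑ y, a y * b (y⁻¹ * (c : T)) = ∑ y : C, a y * b ((y⁻¹ * c : C) : T)
  symm
  refine Fintype.sum_of_injective (fun x : C => (x : T)) Subtype.coe_injective _ _ ?_ ?_
  · intro y hy
    rw [ha y, zero_mul]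
    intro h
    exact hy ⟨⟨y, h⟩, rfl⟩
  · intro y
    rfl

theorem cvF_out (C : Subgroup T) {a b : T → F} (ha : ∀ x, x ∉ C → a x = 0)
    (hb : ∀ x, x ∉ C → b x = 0) (x : T) (hx : x ∉ C) : cvF a b x = 0 := by
  show ∑ y, a y * b (y⁻¹ * x) = 0
  refine Finset.sum_eq_zero fun y _ => ?_
  by_cases hy : y ∈ C
  · rw [hb (y⁻¹ * x), mul_zero]
    intro h
    apply hx
    have h2 := C.mul_mem hy h
    rwa [mul_inv_cancel_left] at h2
  · rw [ha y hy, zero_mul]

end Alg

section Lam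

variable {F N : Type} [Field F] [Group N] [Fintype N] (r : integralClosure ℤ ℂ →+* F)

/-- The central character of a character of a normal subgroup. -/
theorem lam_cov (hr : Function.Surjective r) (C : Subgroup N) [C.Normal] {ψ : N → ℂ}
    (hψ : IsIrr ψ) {φ : C → ℂ} (hφ : IsIrr φ) (hip : ip (fun c : C => ψ c) φ ≠ 0) {z : N → F}
    (hz : z ∈ CF F N) (hz0 : ∀ x, x ∉ C → z x = 0) :
    lam r φ (fun c : C => z c) = lam r ψ z := by
  classical
  choose σ hσ using hr
  let a : N → integralClosure ℤ ℂ := fun x => if x ∈ C then σ (z x) else 0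
  have hCn : ∀ g x : N, g * x * g⁻¹ ∈ C ↔ x ∈ C := by
    intro g x
    constructor
    · intro h
      have h1 := (inferInstance : C.Normal).conj_mem _ h g⁻¹
      have h2 : g⁻¹ * (g * x * g⁻¹) * g⁻¹⁻¹ = x := by group
      rwa [h2] at h1
    · intro h
      exact (inferInstance : C.Normal).conj_mem _ h g
  have ha : ∀ g x, a (g * x * g⁻¹) = a x := by
    intro g x
    show (if g * x * g⁻¹ ∈ C then σ (z (g * x * g⁻¹)) else 0) = if x ∈ C then σ (z x) else 0
    simp only [hCn, hz g x]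
  have hra : z = fun x => r (a x) := by
    funext x
    show z x = r (if x ∈ C then σ (z x) else 0)
    by_cases hx : x ∈ C
    · rw [if_pos hx, hσ]
    · rw [if_neg hx, map_zero, hz0 x hx]
  have ha' : ∀ g x : C, (fun c : C => a c) (g * x * g⁻¹) = (fun c : C => a c) x := by
    intro g x
    exact ha g x
  have h1 := lam_red r hψ a ha
  have h2 := lam_red r hφ (fun c : C => a c) ha'
  have hcl : ClG C.subtype (MulAut.conjNormal (H := C)) (QuotientGroup.mk' C) := by
    refine ⟨Subtype.coe_injective, ?_, ?_⟩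
    · intro y x
      rfl
    · intro y
      rw [Subgroup.range_subtype]
      exact QuotientGroup.eq_one_iff y
  have h3 := SUMM.wt_eq hcl hφ hψ hip (fun h => (a h : ℂ))
    (fun g x => congrArg (fun t : integralClosure ℤ ℂ => (t : ℂ)) (ha g x)) (by
      intro y hy
      rw [Subgroup.range_subtype] at hy
      show ((if y ∈ C then σ (z y) else 0 : integralClosure ℤ ℂ) : ℂ) = 0
      rw [if_neg hy]
      rfl)
  have h4 : (fun c : C => z c) = fun c : C => r ((fun c : C => a c) c) := by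
    funext c
    exact congrFun hra c
  rw [h4, h2]
  conv_rhs => rw [hra, h1, h3]
  rfl

/-- The central character of the sum of a conjugacy class. -/
theorem lam_cls {𝔐 : Ideal (integralClosure ℤ ℂ)} (hker : RingHom.ker r = 𝔐) {χ : N → ℂ}
    (hχ : IsIrr χ) (x₀ : N) :
    lam r χ (clsF F x₀) ≠ 0 ↔ cen 𝔐 (MonoidHom.id N) χ x₀ ≠ 0 := by
  classical
  let cO : N → integralClosure ℤ ℂ := fun x => if ∃ g, x = g * x₀ * g⁻¹ then 1 else 0
  have hcO : ∀ g x, cO (g * x * g⁻¹) = cO x := by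
    intro g x
    refine if_congr ?_ rfl rfl
    constructor
    · rintro ⟨h, hh⟩
      refine ⟨g⁻¹ * h, ?_⟩
      have h1 : x = g⁻¹ * (g * x * g⁻¹) * g := by group
      rw [h1, hh]
      group
    · rintro ⟨h, rfl⟩
      exact ⟨g * h, by group⟩
  have hcc : clsF F x₀ = fun x => r (cO x) := by
    funext x
    show clsF F x₀ x = r (cO x)
    by_cases hx : ∃ g, x = g * x₀ * g⁻¹
    · have h1 : clsF F x₀ x = 1 := if_pos hx
      have h2 : cO x = 1 := if_pos hx
      rw [h1, h2, map_one]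
    · have h1 : clsF F x₀ x = 0 := if_neg hx
      have h2 : cO x = 0 := if_neg hx
      rw [h1, h2, map_zero]
  have hcint : (fun h => ((cO h : integralClosure ℤ ℂ) : ℂ)) =
      fun y => conjInd (MonoidHom.id N y) x₀ := by
    funext y
    show ((cO y : integralClosure ℤ ℂ) : ℂ) = conjInd y x₀
    have h1 : (∃ g, y = g * x₀ * g⁻¹) ↔ IsConj y x₀ := by
      constructor
      · rintro ⟨g, rfl⟩
        exact (isConj_iff.2 ⟨g, rfl⟩).symm
      · intro h
        obtain ⟨g, hg⟩ := isConj_iff.1 h.symm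
        exact ⟨g, hg.symm⟩
    by_cases h2 : IsConj y x₀
    · have h3 : conjInd y x₀ = 1 := if_pos h2
      have h4 : cO y = 1 := if_pos (h1.2 h2)
      rw [h3, h4]
      rfl
    · have h3 : conjInd y x₀ = 0 := if_neg h2
      have h4 : cO y = 0 := if_neg (fun h => h2 (h1.1 h))
      rw [h3, h4]
      rfl
  have hint : IsIntegral ℤ (wt χ (fun h => (cO h : ℂ))) :=
    isIntegral_wt hχ _ (fun g x => congrArg (fun t : integralClosure ℤ ℂ => (t : ℂ)) (hcO g x))
      fun y => (cO y).2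
  rw [hcc, lam_red r hχ cO hcO, not_iff_not]
  have h5 : cen 𝔐 (MonoidHom.id N) χ x₀ = red 𝔐 (wt χ (fun h => (cO h : ℂ))) := by
    rw [cen, hcint]
  rw [h5]
  have h6 := red_eq_iff_ro r hker hint isIntegral_zero
  rw [red_zero, ro_zero] at h6
  exact h6.symm

/-- A class with nonzero central character in an invariant function. -/
theorem exists_cls {𝔐 : Ideal (integralClosure ℤ ℂ)} (hker : RingHom.ker r = 𝔐) {χ : N → ℂ}
    (hχ : IsIrr χ) (z : N → F) (h : lam r χ z ≠ 0) :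
    ∃ x, z x ≠ 0 ∧ cen 𝔐 (MonoidHom.id N) χ x ≠ 0 := by
  classical
  have : Fintype (ConjClasses N) := Fintype.ofFinite _
  rw [lam_eq] at h
  obtain ⟨K, -, hK⟩ := Finset.exists_ne_zero_of_sum_ne_zero h
  refine ⟨CHP.rp K, left_ne_zero_of_mul hK, ?_⟩
  have h1 := right_ne_zero_of_mul hK
  have h2 : (fun y => conjInd (MonoidHom.id N y) (CHP.rp K)) = IDMB.ind K := by
    funext y
    show conjInd y (CHP.rp K) = IDMB.ind K y
    have h3 : IsConj y (CHP.rp K) ↔ ConjClasses.mk y = K := by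
      rw [← ConjClasses.mk_eq_mk_iff_isConj, CHP.mk_rp]
    by_cases h4 : IsConj y (CHP.rp K)
    · have h5 : conjInd y (CHP.rp K) = 1 := if_pos h4
      have h6 : IDMB.ind K y = 1 := if_pos (h3.1 h4)
      rw [h5, h6]
    · have h5 : conjInd y (CHP.rp K) = 0 := if_neg h4
      have h6 : IDMB.ind K y = 0 := if_neg (fun h7 => h4 (h3.2 h7))
      rw [h5, h6]
  rw [cen, h2]
  intro h4
  apply h1
  have h5 := (red_eq_iff_ro r hker (wt_ind_int hχ K) isIntegral_zero).1 (by rw [h4, red_zero])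
  rw [h5, ro_zero]

end Lam

section Grp

variable {N : Type} [Group N] [Fintype N]

/-- The order of a subgroup which is mapped into a centralizer. -/
theorem card_dvd_cen {S G : Type} [Group S] [Group G] [Finite G] (f : S →* G)
    (hf : Function.Injective f) (x : G) (h : ∀ s, f s * x = x * f s) :
    Nat.card S ∣ Nat.card (Subgroup.centralizer ({x} : Set G)) := by
  have h1 : ∀ s, f s ∈ Subgroup.centralizer ({x} : Set G) := by
    intro s
    rw [Subgroup.mem_centralizer_iff]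
    intro y hy
    rw [Set.mem_singleton_iff.1 hy]
    exact (h s).symm
  refine Subgroup.card_dvd_of_injective (f.codRestrict _ h1) ?_
  intro s t hst
  apply hf
  exact congrArg Subtype.val hst

end Grp

end Pool.Agent.DPX.ATCX

namespace Pool.Agent.DPX

open Pool.Agent.DP Pool.Agent.DPB Pool.Agent.DPW Pool.Agent.Lib_helper13 Representation
open Pool.Agent.DPW.IDMB Pool.Agent.DPW.COVW ATCX

theorem ATCX.main (h1 : Stmt_IDX) (h2 : Stmt_SUPX) (F : Type) [Field F] (N : Type) [Group N]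
    [Fintype N] (𝔐 : Ideal (integralClosure ℤ ℂ)) (ℓ n : ℕ) [Fact ℓ.Prime] (h𝔐 : 𝔐.IsMaximal)
    (hℓ : (ℓ : integralClosure ℤ ℂ) ∈ 𝔐) (r : integralClosure ℤ ℂ →+* F)
    (hr : Function.Surjective r) (hker : RingHom.ker r = 𝔐)
    (P₁ P : Subgroup N) [P₁.Normal] (x₀ : N) (ψ : N → ℂ) (hψ : IsIrr ψ)
    (hAt : AtX ℓ n (cen 𝔐 (MonoidHom.id N) ψ) P₁ P x₀)
    (C : Subgroup N) (hC : C = Subgroup.centralizer (P₁ : Set N)) (φ : C → ℂ) (hφ : IsIrr φ)
    (hip : ip (fun c : C => ψ c) φ ≠ 0) :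
      ∃ (P' : Subgroup C) (x' : C) (g : N), P' = (P.map (MulAut.conj g).toMonoidHom).subgroupOf C ∧
        (x' : N) = g * x₀ * g⁻¹ ∧
        AtX ℓ n (cen 𝔐 (MonoidHom.id C) φ) (P₁.subgroupOf C) P' x' := by
  classical
  have hchar : CharP F ℓ := by
    have h3 : (ℓ : F) = 0 := by
      rw [← map_natCast r]
      rw [← RingHom.mem_ker, hker]
      exact hℓ
    exact (CharP.charP_iff_prime_eq_zero Fact.out).2 h3
  have hCn : C.Normal := by
    rw [hC]
    infer_instance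
  -- the group theory
  have hcd := hAt.cd
  have hPcyc : IsCyclic P := hcd.cyc
  have hPcom : ∀ u ∈ P, ∀ v ∈ P, u * v = v * u := by
    intro u hu v hv
    exact congrArg Subtype.val (hPcyc.isMulCommutative.is_comm.comm (⟨u, hu⟩ : P) ⟨v, hv⟩)
  have hPC : P ≤ C := by
    intro u hu
    rw [hC, Subgroup.mem_centralizer_iff]
    intro v hv
    exact hPcom v (hcd.le hv) u hu
  have hP1C : P₁ ≤ C := hcd.le.trans hPC
  have hx0C : x₀ ∈ C := by
    rw [hC, Subgroup.mem_centralizer_iff]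
    intro v hv
    exact hcd.cen v (hcd.le hv)
  -- the idempotent of `N`
  obtain ⟨a, ha, hprm, hval, hfac, -, hbk, -⟩ := h1 F N 𝔐 ℓ h𝔐 hℓ r hr hker ψ hψ
  set e : N → F := fun x => r (a x) with he
  obtain ⟨hB, -⟩ := hbk n P₁ P x₀ hAt
  have hecf : e ∈ CF F N := hprm.1
  have hsupp : ∀ y, y ∉ C → e y = 0 := by
    intro y hy
    by_contra h3
    apply hy
    rw [hC]
    exact PRMX.supp_cen (ℓ := ℓ) P₁ hcd.c1 hecf hprm.2.1 y h3
  have hle1 : lam r ψ e = 1 := by
    have h3 := hval ψ hψ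
    rw [if_pos rfl] at h3
    have hint : IsIntegral ℤ (wt ψ (fun h => (a h : ℂ))) :=
      isIntegral_wt hψ _ (fun g x => congrArg (fun t : integralClosure ℤ ℂ => (t : ℂ)) (ha g x))
        fun y => (a y).2
    rw [← red_one 𝔐, red_eq_iff_ro r hker hint isIntegral_one, ro_one] at h3
    rw [he, lam_red r hψ a ha, h3]
  -- the idempotent of `C`
  obtain ⟨b, hb, hprmC, hvalC, hfacC, -⟩ := h1 F C 𝔐 ℓ h𝔐 hℓ r hr hker φ hφ
  set f : C → F := fun x => r (b x) with hf
  have hfcf : f ∈ CF F C := hprmC.1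
  have hlf1 : lam r φ f = 1 := by
    have h3 := hvalC φ hφ
    rw [if_pos rfl] at h3
    have hint : IsIntegral ℤ (wt φ (fun h => (b h : ℂ))) :=
      isIntegral_wt hφ _ (fun g x => congrArg (fun t : integralClosure ℤ ℂ => (t : ℂ)) (hb g x))
        fun y => (b y).2
    rw [← red_one 𝔐, red_eq_iff_ro r hker hint isIntegral_one, ro_one] at h3
    rw [hf, lam_red r hφ b hb, h3]
  -- the restriction of `e`
  set v : C → F := fun c => e c with hv
  have hvcf : v ∈ CF F C := fun g x => hecf g x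
  have hvv : cvF v v = v := by
    funext c
    rw [hv, ← cvF_sub C e hsupp c, hprm.2.1]
  have hlv : lam r φ v = 1 := by
    rw [hv, lam_cov r hr C hψ hφ hip hecf hsupp, hle1]
  have hfv : cvF f v = f := by
    rcases hprmC.2.2.2 (cvF f v) (IDMB.cvF_mem hfcf hvcf) (idem_mul hvcf hprmC.2.1 hvv) (by
      rw [← PRMX.cvF_assoc, hprmC.2.1]) with h3 | h3
    · exfalso
      have h4 := lam_mul r hr hφ hfcf hvcf
      rw [h3, hlv, hlf1, mul_one] at h4
      have h5 : lam r φ (0 : C → F) = 0 := by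
        have : Fintype (ConjClasses C) := Fintype.ofFinite _
        rw [lam_eq]
        exact Finset.sum_eq_zero fun K _ => zero_mul _
      rw [h5] at h4
      exact zero_ne_one h4
    · exact h3
  -- the conjugates
  set c : N →* MulAut C := MulAut.conjNormal with hc
  have hvinv : ∀ y, tw c v y = v := by
    intro y
    funext x
    exact hecf y x
  have hvt : ∀ y, cvF v (tw c f y) = tw c f y := by
    intro y
    have h3 := cvF_comp (c y) v f
    have h4 : cvF v f = f := by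
      rw [IDMB.cvF_comm v hfcf, hfv]
    rw [h4] at h3
    have h5 : (fun x => v (c y x)) = v := hvinv y
    rw [h5] at h3
    exact h3.symm
  set L := (Finset.univ : Finset N).toList with hL
  set g0 : C → F := cm (pp c f L) with hg0
  have hg0cf : g0 ∈ CF F C := cm_mem (pp_mem c hfcf L)
  have hg0i : cvF g0 g0 = g0 := idem_cm (idem_pp c hfcf hprmC.2.1 L)
  have hg0inv : ∀ y x, g0 (c y x) = g0 x := by
    intro y x
    have h3 : dl F C (c y x) = dl F C x := congrFun (dl_comp (F := F) (c y)) x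
    show dl F C (c y x) + (-1 : F) * pp c f L (c y x) = dl F C x + (-1 : F) * pp c f L x
    rw [h3, pp_inv c hfcf]
  have hvg : cvF v g0 = g0 := by
    have h3 := cm_pp c hvt L
    apply ext_Lz
    have h4 : Lz (cvF (cm v) (pp c f L)) = Lz (cm v) := by rw [h3]
    rw [Lz_cvF, Lz_cm, mul_sub, mul_one] at h4
    rw [Lz_cvF, hg0, Lz_cm, sub_mul, one_mul]
    have h5 : Lz (pp c f L) = 1 - Lz v + Lz (pp c f L) * Lz v := by rw [← h4]; abel
    have h6 : Lz (pp c f L) * Lz v = Lz (pp c f L) - 1 + Lz v := by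
      conv_rhs => rw [h5]
      abel
    rw [h6]
    abel
  have hlg : lam r φ g0 = 1 := by
    show lam r φ (dl F C + (-1 : F) • pp c f L) = 1
    rw [lam_add, lam_smul, lam_dl r hφ, lam_pp r hr c hfcf hφ]
    have h3 : (L.map fun y => 1 - lam r φ (tw c f y)).prod = 0 := by
      apply List.prod_eq_zero
      rw [List.mem_map]
      refine ⟨1, by rw [hL]; exact Finset.mem_toList.2 (Finset.mem_univ _), ?_⟩
      have h4 : tw c f 1 = f := by
        funext x
        show f (c 1 x) = f x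
        rw [map_one]
        rfl
      rw [h4, hlf1, sub_self]
    rw [h3, mul_zero, add_zero]
  -- the extension by zero
  let G : N → F := fun x => if h : x ∈ C then g0 ⟨x, h⟩ else 0
  have hGin : ∀ x : C, G x = g0 x := by
    intro x
    show (if h : (x : N) ∈ C then g0 ⟨x, h⟩ else 0) = g0 x
    rw [dif_pos x.2]
  have hGout : ∀ x, x ∉ C → G x = 0 := by
    intro x hx
    show (if h : x ∈ C then g0 ⟨x, h⟩ else 0) = 0
    rw [dif_neg hx]
  have hGcf : G ∈ CF F N := by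
    intro g x
    by_cases hx : x ∈ C
    · have h3 := hg0inv g ⟨x, hx⟩
      rw [← hGin, ← hGin] at h3
      exact h3
    · rw [hGout x hx, hGout]
      intro h3
      apply hx
      have h4 := hCn.conj_mem _ h3 g⁻¹
      have h5 : g⁻¹ * (g * x * g⁻¹) * g⁻¹⁻¹ = x := by group
      rwa [h5] at h4
  have hGC : (fun x : C => G x) = g0 := funext hGin
  have hGG : cvF G G = G := by
    funext x
    by_cases hx : x ∈ C
    · have h3 := cvF_sub C G hGout ⟨x, hx⟩
      rw [hGC, hg0i, ← hGin] at h3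
      exact h3
    · rw [cvF_out C hGout hGout x hx, hGout x hx]
  have heG : cvF e G = G := by
    funext x
    by_cases hx : x ∈ C
    · have h3 := cvF_sub C G hsupp ⟨x, hx⟩
      rw [hGC] at h3
      have h4 : cvF (fun x : C => e x) g0 = g0 := hvg
      rw [h4, ← hGin] at h3
      exact h3
    · rw [cvF_out C hsupp hGout x hx, hGout x hx]
  have hGe : G = e := by
    rcases hprm.2.2.2 G hGcf hGG heG with h3 | h3
    · exfalso
      have h4 : g0 = 0 := by
        rw [← hGC, h3]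
        rfl
      rw [h4] at hlg
      have h5 : lam r φ (0 : C → F) = 0 := by
        have : Fintype (ConjClasses C) := Fintype.ofFinite _
        rw [lam_eq]
        exact Finset.sum_eq_zero fun K _ => zero_mul _
      rw [h5] at hlg
      exact zero_ne_one hlg
    · exact h3
  -- the element `x'`
  have hclsN : clsF F x₀ ∈ CF F N := by
    intro g x
    refine clsF_eq ?_
    constructor
    · rintro ⟨h, hh⟩
      refine ⟨g⁻¹ * h, ?_⟩
      have h1 : x = g⁻¹ * (g * x * g⁻¹) * g := by group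
      rw [h1, hh]
      group
    · rintro ⟨h, rfl⟩
      exact ⟨g * h, by group⟩
  have hcls0 : ∀ x, x ∉ C → clsF F x₀ x = 0 := by
    intro x hx
    unfold clsF
    rw [if_neg]
    rintro ⟨g, rfl⟩
    exact hx (hCn.conj_mem _ hx0C g)
  have hlcls : lam r φ (fun x : C => clsF F x₀ x) ≠ 0 := by
    rw [lam_cov r hr C hψ hφ hip hclsN hcls0]
    exact (lam_cls r hker hψ x₀).2 hAt.ne
  obtain ⟨x', hx'1, hx'2⟩ := exists_cls r hker hφ (fun x : C => clsF F x₀ x) hlcls
  obtain ⟨g, hg⟩ : ∃ g, (x' : N) = g * x₀ * g⁻¹ := by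
    by_contra h3
    apply hx'1
    show clsF F x₀ (x' : N) = 0
    unfold clsF
    rw [if_neg h3]
  have hP'C : P.map (MulAut.conj g).toMonoidHom ≤ C := by
    rintro _ ⟨u, hu, rfl⟩
    exact hCn.conj_mem _ (hPC hu) g
  have hcardP' : Nat.card (P.map (MulAut.conj g).toMonoidHom) = ℓ ^ n := by
    rw [← hcd.card]
    exact (Nat.card_congr (P.equivMapOfInjective (MulAut.conj g).toMonoidHom
      (MulAut.conj g).injective).toEquiv).symm
  refine ⟨(P.map (MulAut.conj g).toMonoidHom).subgroupOf C, x', g, rfl, hg, ?_, hx'2, ?_⟩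
  · refine ⟨?_, ?_, ?_, ?_, ?_, ?_⟩
    · intro u hu
      rw [Subgroup.mem_subgroupOf] at hu ⊢
      refine ⟨g⁻¹ * (u : N) * g, ?_, ?_⟩
      · have h3 := (inferInstance : P₁.Normal).conj_mem _ hu g⁻¹
        rw [inv_inv] at h3
        exact hcd.le h3
      · show g * (g⁻¹ * (u : N) * g) * g⁻¹ = u
        group
    · rw [← hcd.c1]
      exact Nat.card_congr (Subgroup.subgroupOfEquivOfLe hP1C).toEquiv
    · have h3 : IsCyclic (P.map (MulAut.conj g).toMonoidHom) := by
        have e1 := P.equivMapOfInjective (MulAut.conj g).toMonoidHom (MulAut.conj g).injective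
        exact isCyclic_of_injective e1.symm.toMonoidHom e1.symm.injective
      exact isCyclic_of_injective (Subgroup.subgroupOfEquivOfLe hP'C).toMonoidHom
        (Subgroup.subgroupOfEquivOfLe hP'C).injective
    · rw [← hcardP']
      exact Nat.card_congr (Subgroup.subgroupOfEquivOfLe hP'C).toEquiv
    · intro u hu
      obtain ⟨w, hw, hw'⟩ := Subgroup.mem_subgroupOf.1 hu
      apply Subtype.ext
      show (u : N) * x' = x' * u
      have h3 : g * w * g⁻¹ = u := hw'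
      rw [hg, ← h3]
      have h4 := hcd.cen w hw
      calc g * w * g⁻¹ * (g * x₀ * g⁻¹) = g * (w * x₀) * g⁻¹ := by group
        _ = g * (x₀ * w) * g⁻¹ := by rw [h4]
        _ = g * x₀ * g⁻¹ * (g * w * g⁻¹) := by group
    · intro h3
      apply hcd.sq
      refine h3.trans ?_
      refine card_dvd_cen (((MulAut.conj g⁻¹).toMonoidHom.comp C.subtype).comp
        (Subgroup.centralizer ({x'} : Set C)).subtype) ?_ x₀ ?_
      · exact ((MulAut.conj g⁻¹).injective.comp Subtype.coe_injective).comp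
          Subtype.coe_injective
      · rintro ⟨s, hs⟩
        have h4 := Subgroup.mem_centralizer_iff.1 hs x' rfl
        have h5 : (x' : N) * s = s * x' := congrArg Subtype.val h4
        show g⁻¹ * (s : N) * g⁻¹⁻¹ * x₀ = x₀ * (g⁻¹ * (s : N) * g⁻¹⁻¹)
        have h6 : x₀ = g⁻¹ * x' * g := by rw [hg]; group
        rw [h6]
        calc g⁻¹ * (s : N) * g⁻¹⁻¹ * (g⁻¹ * x' * g) = g⁻¹ * (s * x') * g := by group
          _ = g⁻¹ * (x' * s) * g := by rw [h5]
          _ = g⁻¹ * x' * g * (g⁻¹ * (s : N) * g⁻¹⁻¹) := by group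
  · intro x hx
    obtain ⟨y, hy, hfy⟩ := hfacC x hx
    obtain ⟨h, hh, hPh⟩ := hB.nz
    have hhC : h ∈ C := by
      by_contra h3
      exact hh (hsupp h h3)
    have h3 : cm (pp c f L) ⟨h, hhC⟩ ≠ 0 := by
      rw [← hg0, ← hGin, hGe]
      exact hh
    obtain ⟨k, q, hq, hkq⟩ := exists_tw c hfcf L ⟨h, hhC⟩ h3
    -- the conjugate of the class
    have h4 : tw c f k = cvF (clsF F ((c k)⁻¹ x)) (tw c y k) := by
      have h5 : tw c f k = cvF (fun z => clsF F x (c k z)) (fun z => y (c k z)) := by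
        rw [← cvF_comp (c k) (clsF F x) y]
        funext z
        exact congrFun hfy (c k z)
      rw [h5]
      congr 1
      funext z
      refine clsF_eq ?_
      constructor
      · rintro ⟨s, hs⟩
        refine ⟨(c k)⁻¹ s, ?_⟩
        apply (c k).injective
        have h6 : c k ((c k)⁻¹ s) = s := MulEquiv.apply_symm_apply (c k) s
        have h7 : c k ((c k)⁻¹ x) = x := MulEquiv.apply_symm_apply (c k) x
        rw [hs, map_mul, map_mul, map_inv, h6, h7]
      · rintro ⟨s, hs⟩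
        refine ⟨c k s, ?_⟩
        have h7 : c k ((c k)⁻¹ x) = x := MulEquiv.apply_symm_apply (c k) x
        rw [hs, map_mul, map_mul, map_inv, h7]
    rw [h4, PRMX.cvF_assoc] at hkq
    have hyk : tw c y k ∈ CF F C := tw_mem c hy k
    have hPp : IsPGroup ℓ (P.subgroupOf C) := by
      refine IsPGroup.of_card (n := n) ?_
      rw [← hcd.card]
      exact Nat.card_congr (Subgroup.subgroupOfEquivOfLe hPC).toEquiv
    obtain ⟨t, ht⟩ := h2.1 ℓ F C ((c k)⁻¹ x) (cvF (tw c y k) q) (IDMB.cvF_mem hyk hq)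
      ⟨h, hhC⟩ hkq (P.subgroupOf C) hPp (by
        intro u hu
        apply Subtype.ext
        exact hPh u (Subgroup.mem_subgroupOf.1 hu))
    have hcard : Nat.card (P.subgroupOf C) = ℓ ^ n := by
      rw [← hcd.card]
      exact Nat.card_congr (Subgroup.subgroupOfEquivOfLe hPC).toEquiv
    rw [← hcard]
    refine card_dvd_cen (((c k).toMonoidHom.comp (MulAut.conj t).toMonoidHom).comp
      (P.subgroupOf C).subtype) ?_ x ?_
    · exact ((c k).injective.comp (MulAut.conj t).injective).comp Subtype.coe_injective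
    · rintro ⟨u, hu⟩
      have h5 := ht u hu
      have h6 := congrArg (c k) h5
      have h7 : c k ((c k)⁻¹ x) = x := MulEquiv.apply_symm_apply (c k) x
      have h8 : c k (t * u * t⁻¹ * ((c k)⁻¹ x)) = c k (t * u * t⁻¹) * c k ((c k)⁻¹ x) :=
        map_mul _ _ _
      have h9 : c k ((c k)⁻¹ x * (t * u * t⁻¹)) = c k ((c k)⁻¹ x) * c k (t * u * t⁻¹) :=
        map_mul _ _ _
      rw [h8, h9, h7] at h6
      exact h6

/-- ATCX. -/
theorem ATCX_thm (h1 : Stmt_IDX) (h2 : Stmt_SUPX) : Stmt_ATCX := by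
  intro N _ _ 𝔐 ℓ n _ h𝔐 hℓ P₁ P _ x₀ ψ hψ hAt C hC φ hφ hip
  let _ : Field ((integralClosure ℤ ℂ) ⧸ 𝔐) := Ideal.Quotient.field 𝔐
  exact ATCX.main h1 h2 _ N 𝔐 ℓ n h𝔐 hℓ (Ideal.Quotient.mk 𝔐) Ideal.Quotient.mk_surjective
    Ideal.mk_ker P₁ P x₀ ψ hψ hAt C hC φ hφ hip

end Pool.Agent.DPX


end

section

/-!
# Auxiliary facts for RIX
-/

set_option autoImplicit false

namespace Pool.Agent.DPG.RIX

open Pool.Agent.DP Pool.Agent.DPC Pool.Agent.DPM Pool.Agent.DPN Pool.Agent.DPF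
  Pool.Agent.Lib_helper13 Representation

/-! ### Products of invariant functions -/

section ListT

variable {A T : Type} [Group A] [Group T] [Fintype T]

/-- The scalar of a function. -/
noncomputable def lmT (E : T → ℂ) (u : T → ℤ) : ℂ := (∑ t, ((u t : ℤ) : ℂ) * E t) / E 1

theorem lmT_conv [Fintype A] (e : A →* T) {θ : A → ℂ} {E : T → ℂ} (hθ : IsIrr θ)
    (hE : IsChr E) (hr : ∀ a, E (e a) = θ a) (u v : T → ℤ) (hu : AIv e u) (hv : AIv e v) :
    lmT E (conv u v) = lmT E u * lmT E v := by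
  have h1 : E 1 = θ 1 := by rw [← hr 1, map_one]
  have h2 := RDA.prod_wt hθ hE hr (fun t => ((u t : ℤ) : ℂ)) (fun t => ((v t : ℤ) : ℂ))
    (fun a γ => by
      show ((u (e a * γ * (e a)⁻¹) : ℤ) : ℂ) = _
      rw [hu a γ])
    (fun a γ => by
      show ((v (e a * γ * (e a)⁻¹) : ℤ) : ℂ) = _
      rw [hv a γ])
  unfold lmT conv
  rw [h1]
  push_cast
  exact h2

theorem lmT_nil {E : T → ℂ} (h1 : E 1 ≠ 0) : lmT E (pl ([] : List (T → ℤ))) = 1 := by
  classical
  unfold lmT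
  rw [Finset.sum_eq_single (1 : T)]
  · rw [KEYN.pl_nil, if_pos rfl]
    push_cast
    rw [one_mul, div_self h1]
  · intro t _ ht
    rw [KEYN.pl_nil, if_neg ht]
    push_cast
    rw [zero_mul]
  · intro h
    exact absurd (Finset.mem_univ _) h

theorem lmT_pl [Fintype A] (e : A →* T) {θ : A → ℂ} {E : T → ℂ} (hθ : IsIrr θ)
    (hE : IsChr E) (hr : ∀ a, E (e a) = θ a) (l : List (T → ℤ)) (hl : ∀ u ∈ l, AIv e u) :
    lmT E (pl l) = (l.map (lmT E)).prod := by
  induction l with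
  | nil =>
    rw [List.map_nil, List.prod_nil]
    apply lmT_nil
    rw [← map_one e, hr]
    exact hθ.one_ne_zero
  | cons u l ih =>
    have hl' : ∀ v ∈ l, AIv e v := fun v hv => hl v (List.mem_cons_of_mem _ hv)
    rw [KEYN.pl_cons, lmT_conv e hθ hE hr u (pl l) (hl u List.mem_cons_self)
      (KEYN.aiv_pl e l hl'), ih hl', List.map_cons, List.prod_cons]

theorem lmT_int [Fintype A] {K : Type} [Group K] {j : A →* T} {c : T →* MulAut A} {p : T →* K}
    (hC : ClG j c p) {θ : A → ℂ} {E : T → ℂ} (hθ : IsIrr θ) (hE : IsChr E)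
    (hr : ∀ a, E (j a) = θ a) (u : T → ℤ) (hu : AIv j u) : IsIntegral ℤ (lmT E u) := by
  have h1 : E 1 = θ 1 := by rw [← hr 1, map_one]
  have h2 := FIBI.int_all hC hθ hE hr (fun t => ((u t : ℤ) : ℂ))
    (fun a γ => by
      show ((u (j a * γ * (j a)⁻¹) : ℤ) : ℂ) = _
      rw [hu a γ]) (fun x => _root_.isIntegral_intCast _)
  unfold lmT
  rw [h1]
  exact h2

theorem red_list_prod (𝔐 : Ideal (integralClosure ℤ ℂ)) (l : List ℂ)
    (hl : ∀ x ∈ l, IsIntegral ℤ x) : IsIntegral ℤ l.prod ∧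
      red 𝔐 l.prod = (l.map (red 𝔐)).prod := by
  induction l with
  | nil =>
    rw [List.prod_nil, List.map_nil, List.prod_nil]
    exact ⟨isIntegral_one, red_one 𝔐⟩
  | cons x l ih =>
    obtain ⟨h1, h2⟩ := ih fun y hy => hl y (List.mem_cons_of_mem _ hy)
    have h3 := hl x List.mem_cons_self
    rw [List.prod_cons, List.map_cons, List.prod_cons, red_mul 𝔐 h3 h1, h2]
    exact ⟨h3.mul h1, rfl⟩

theorem red_lmT_pl (𝔐 : Ideal (integralClosure ℤ ℂ)) [Fintype A] {K : Type} [Group K]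
    {j : A →* T} {c : T →* MulAut A} {p : T →* K}
    (hC : ClG j c p) {θ : A → ℂ} {E : T → ℂ} (hθ : IsIrr θ) (hE : IsChr E)
    (hr : ∀ a, E (j a) = θ a) (l : List (T → ℤ)) (hl : ∀ u ∈ l, AIv j u) :
    red 𝔐 (lmT E (pl l)) = (l.map (fun u => red 𝔐 (lmT E u))).prod := by
  rw [lmT_pl j hθ hE hr l hl, (red_list_prod 𝔐 _ _).2, List.map_map]
  · rfl
  · intro x hx
    obtain ⟨u, hu, rfl⟩ := List.mem_map.mp hx
    exact lmT_int hC hθ hE hr u (hl u hu)

end ListT

/-! ### Scalars in the large group -/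

section Big

variable {L : Type} [Group L] [Fintype L]

theorem sc_eq (𝔐 : Ideal (integralClosure ℤ ℂ)) (T : Subgroup L) [Fintype T] {F : L → ℂ}
    (hF : ∀ x, x ∉ T → F x = 0) (u : L → ℤ) :
    sc 𝔐 F u = red 𝔐 (lmT (fun t : T => F t) (fun t => u t)) := by
  classical
  unfold sc lmT
  congr 1
  congr 1
  rw [← Finset.sum_subset (Finset.subset_univ (Finset.univ.filter (fun k : L => k ∈ T)))]
  · rw [← Finset.sum_subtype_eq_sum_filter, Finset.subtype_univ]
  · intro y _ hy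
    rw [hF y (fun h => hy (Finset.mem_filter.mpr ⟨Finset.mem_univ _, h⟩)), mul_zero]

theorem sc_congr (𝔐 : Ideal (integralClosure ℤ ℂ)) (F : L → ℂ) {u v : L → ℤ}
    (h : ∀ x, F x ≠ 0 → u x = v x) : sc 𝔐 F u = sc 𝔐 F v := by
  unfold sc
  congr 2
  refine Finset.sum_congr rfl fun x _ => ?_
  by_cases hx : F x = 0
  · rw [hx, mul_zero, mul_zero]
  · rw [h x hx]

theorem sc_congr' (𝔐 : Ideal (integralClosure ℤ ℂ)) {F G : L → ℂ} {u : L → ℤ}
    (h1 : F 1 = G 1) (h : ∀ x, u x ≠ 0 → F x = G x) : sc 𝔐 F u = sc 𝔐 G u := by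
  unfold sc
  rw [h1]
  congr 2
  refine Finset.sum_congr rfl fun x _ => ?_
  by_cases hx : u x = 0
  · rw [hx, Int.cast_zero, zero_mul, zero_mul]
  · rw [h x hx]

end Big

/-! ### Lifting and extending linear characters -/

section Lift

theorem ext_hom {Λ : Type} [Group Λ] [Finite Λ] (U : Subgroup Λ) (hU : U ≤ Subgroup.center Λ)
    {ℓ : ℕ} [hp : Fact ℓ.Prime] (hidx : ¬ ℓ ∣ U.index) (κ : U →* ℂˣ) (a : ℕ)
    (hκ : ∀ z, κ z ^ ℓ ^ a = 1) :
    ∃ κ' : Λ →* ℂˣ, (∀ z : U, κ' z = κ z) ∧ ∀ g, κ' g ^ ℓ ^ a = 1 := by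
  classical
  have key : ∀ (g : Λ) (k : ℕ) (g₀ : Λ), g₀⁻¹ * g ^ k * g₀ ∈ U → g₀⁻¹ * g ^ k * g₀ = g ^ k := by
    intro g k g₀ h
    have h1 := Subgroup.mem_center_iff.mp (hU h) g₀
    have h2 : g₀ * (g₀⁻¹ * g ^ k * g₀) = g ^ k * g₀ := by group
    rw [h2] at h1
    exact (mul_right_cancel h1).symm
  have htr : ∀ g, MonoidHom.transfer κ g = κ ⟨g ^ U.index, MonoidHom.transfer_eq_pow_aux g (key g)⟩ :=
    fun g => MonoidHom.transfer_eq_pow κ g (key g)
  have hcop : Nat.Coprime U.index (ℓ ^ a) :=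
    (Nat.Coprime.pow_left a ((Nat.Prime.coprime_iff_not_dvd hp.out).2 hidx)).symm
  obtain ⟨m, hm⟩ : ∃ m : ℕ, U.index * m ≡ 1 [MOD ℓ ^ a] := by
    by_cases ha : a = 0
    · subst ha
      refine ⟨0, ?_⟩
      rw [pow_zero]
      exact Nat.modEq_one
    · have h1 : 1 < ℓ ^ a := Nat.one_lt_pow ha hp.out.one_lt
      obtain ⟨m, -, hm⟩ := Nat.exists_mul_mod_eq_one_of_coprime hcop h1
      exact ⟨m, by rw [Nat.ModEq, hm, Nat.mod_eq_of_lt h1]⟩
  refine ⟨(MonoidHom.transfer κ) ^ m, ?_, ?_⟩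
  · intro z
    rw [MonoidHom.pow_apply, htr]
    have h1 : (⟨(z : Λ) ^ U.index, MonoidHom.transfer_eq_pow_aux (z : Λ) (key z)⟩ : U) =
        z ^ U.index := Subtype.ext (by rw [Subgroup.coe_pow])
    rw [h1, map_pow, ← pow_mul]
    have h2 : orderOf (κ z) ∣ ℓ ^ a := orderOf_dvd_of_pow_eq_one (hκ z)
    have h3 := (pow_eq_pow_iff_modEq (x := κ z)).mpr (hm.of_dvd h2)
    rw [h3, pow_one]
  · intro g
    rw [MonoidHom.pow_apply, htr, ← pow_mul, mul_comm, pow_mul, hκ, one_pow]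

theorem lift_lin (𝔐 : Ideal (integralClosure ℤ ℂ)) (hmax : 𝔐.IsMaximal) {ℓ : ℕ}
    [hp : Fact ℓ.Prime] (hℓ : (ℓ : integralClosure ℤ ℂ) ∈ 𝔐) {Λ : Type} [Group Λ] [Finite Λ]
    (U : Subgroup Λ) (hU : U ≤ Subgroup.center Λ) (hidx : ¬ ℓ ∣ U.index) (μ : U →* ℂˣ)
    (ρ : Λ → (integralClosure ℤ ℂ) ⧸ 𝔐) (h1 : ρ 1 = 1) (hmul : ∀ r s, ρ (r * s) = ρ r * ρ s)
    (hμ : ∀ z : U, ρ z = red 𝔐 ((μ z : ℂˣ) : ℂ)) :
    ∃ ν : Λ →* ℂˣ, (∀ z : U, ν z = μ z) ∧ ∀ g, red 𝔐 ((ν g : ℂˣ) : ℂ) = ρ g := by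
  classical
  have hprime : 𝔐.IsPrime := hmax.isPrime
  obtain ⟨ν0, ⟨n, hn, hn'⟩, hν0⟩ := NUX.lift_hom 𝔐 hmax hℓ ρ h1 hmul
  have hn0 : 0 < n := Nat.pos_of_ne_zero (by rintro rfl; exact hn (dvd_zero ℓ))
  obtain ⟨a, N, hN, hcard⟩ := Nat.exists_eq_pow_mul_and_not_dvd
    (Nat.card_pos (α := U)).ne' ℓ hp.out.ne_one
  have hN0 : 0 < N := Nat.pos_of_ne_zero (by rintro rfl; exact hN (dvd_zero ℓ))
  let κ : U →* ℂˣ := μ * (ν0.comp U.subtype)⁻¹
  have hκv : ∀ z, κ z = μ z * (ν0 z)⁻¹ := fun z => rfl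
  have hμc : ∀ z : U, (μ z) ^ (ℓ ^ a * N) = 1 := by
    intro z
    rw [← hcard, ← map_pow, pow_card_eq_one', map_one]
  have hμi : ∀ z : U, IsIntegral ℤ ((μ z : ℂˣ) : ℂ) := RDA.isIntegral_unit U μ
  have hνi : ∀ g, IsIntegral ℤ (((ν0 g)⁻¹ : ℂˣ) : ℂ) := by
    intro g
    refine IsIntegral.of_pow hn0 ?_
    rw [← Units.val_pow_eq_pow_val, inv_pow, hn', inv_one, Units.val_one]
    exact isIntegral_one
  have hνi' : ∀ g, IsIntegral ℤ ((ν0 g : ℂˣ) : ℂ) := by
    intro g
    refine IsIntegral.of_pow hn0 ?_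
    rw [← Units.val_pow_eq_pow_val, hn', Units.val_one]
    exact isIntegral_one
  have hκi : ∀ z, IsIntegral ℤ ((κ z : ℂˣ) : ℂ) := by
    intro z
    rw [hκv, Units.val_mul]
    exact (hμi z).mul (hνi _)
  have hκr : ∀ z, red 𝔐 ((κ z : ℂˣ) : ℂ) = 1 := by
    intro z
    rw [hκv, Units.val_mul, red_mul 𝔐 (hμi z) (hνi _), ← hμ, ← hν0,
      ← red_mul 𝔐 (hνi' _) (hνi _), ← Units.val_mul, mul_inv_cancel, Units.val_one, red_one]
  obtain ⟨c, hc⟩ : ∃ c, c = ℓ ^ a := ⟨_, rfl⟩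
  have hκc : ∀ z, κ z ^ ℓ ^ a = 1 := by
    intro z
    apply Units.ext
    rw [Units.val_pow_eq_pow_val, Units.val_one]
    refine GALX.root_eq 𝔐 hℓ (m := N * n) ?_ ?_ (one_pow _) ?_
    · intro h
      rcases (Nat.Prime.dvd_mul hp.out).1 h with h | h
      · exact hN h
      · exact hn h
    · rw [← Units.val_pow_eq_pow_val, ← Units.val_pow_eq_pow_val, ← Units.val_one]
      congr 1
      rw [← pow_mul, hκv, mul_pow, ← mul_assoc, pow_mul (μ z), hμc, one_pow, one_mul, mul_comm,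
        pow_mul, inv_pow, hn', inv_one, one_pow]
    · rw [red_pow 𝔐 (hκi z), hκr, one_pow, red_one]
  obtain ⟨κ', hκ1, hκ2⟩ := ext_hom U hU hidx κ a hκc
  refine ⟨ν0 * κ', ?_, ?_⟩
  · intro z
    rw [MonoidHom.mul_apply, hκ1, hκv, mul_comm, inv_mul_cancel_right]
  · intro g
    have h5 : (((κ' g : ℂˣ) : ℂ)) ^ ℓ ^ a = 1 := by
      rw [← Units.val_pow_eq_pow_val, hκ2, Units.val_one]
    obtain ⟨h6, h7⟩ := red_eq_one_of_pow 𝔐 hℓ h5
    rw [MonoidHom.mul_apply, Units.val_mul, red_mul 𝔐 (hνi' g) h6, h7, mul_one, hν0]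

end Lift

/-! ### Chains -/

section CHL

variable {L K : Type} [Group L] [Fintype L] [Group K] [Fintype K]

omit [Fintype L] in
theorem clG_sub (S : Subgroup L) [S.Normal] :
    ClG S.subtype (MulAut.conjNormal : L →* MulAut S) (QuotientGroup.mk' S) where
  inj := Subtype.val_injective
  act := fun y a => MulAut.conjNormal_apply y a
  ker := fun y => by
    rw [← MonoidHom.mem_ker, QuotientGroup.ker_mk', Subgroup.range_subtype]

/-- The stabilizer of the chain in the normal subgroup. -/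
def eqA {π : L →* K} {N S : Subgroup K} {X : Subgroup ↥(N.comap π)}
    (h : ∀ s : ↥(N.comap π), s ∈ X ↔ π s ∈ S) : X ≃* AL π N S where
  toFun a := ⟨((a : ↥(N.comap π)) : L), ⟨(a : ↥(N.comap π)).2, (h _).mp a.2⟩⟩
  invFun x := ⟨⟨(x : L), x.2.1⟩, (h _).mpr x.2.2⟩
  left_inv _ := rfl
  right_inv _ := rfl
  map_mul' _ _ := rfl

/-- The product of a list of invariant functions and the stabilizer of a chain. -/
theorem chl (h3 : Stmt_CHT) (𝔐 : Ideal (integralClosure ℤ ℂ)) (ℓ : ℕ) [Fact ℓ.Prime]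
    (hM : 𝔐.IsMaximal) (hℓ : (ℓ : integralClosure ℤ ℂ) ∈ 𝔐) (π : L →* K)
    (hπ : Function.Surjective π) (hc : π.ker ≤ Subgroup.center L) (N : Subgroup K) [N.Normal]
    (σ : Finset (Subgroup K)) (hσ : ChN ℓ N σ) (f : L → ℂ) (hf : IrrOn (AL π N (stb σ)) f)
    (l : List (L → ℤ)) (hl : ∀ u ∈ l, CIv (N.comap π) u) :
    sc 𝔐 f (pl (l.map (CHM.tr ((stb σ).comap π)))) = sc 𝔐 f (pl l) := by
  classical
  obtain ⟨Z, τ, -, -, hτ, h4, h5⟩ := h3 L K ℓ π hπ hc N σ hσ
  have hC := clG_sub (N.comap π)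
  have hθ : IsIrr (fun a : stb τ => f ((a : ↥(N.comap π)) : L)) :=
    hf.1.comp_mulEquiv (eqA h5)
  have h6 := CHM_thm _ L _ 𝔐 ℓ hM hℓ (N.comap π).subtype MulAut.conjNormal
    (QuotientGroup.mk' _) hC Z τ hτ _ hθ l (fun u hu a x => hl u hu a a.2 x)
  have hb : ∀ w : L → ℤ, sc 𝔐 f w =
      red 𝔐 (wt (fun a : stb τ => f ((a : ↥(N.comap π)) : L))
        (fun a => ((w ((a : ↥(N.comap π)) : L) : ℤ) : ℂ))) := by
    intro w
    rw [sc_eq 𝔐 (AL π N (stb σ)) hf.2 w]
    unfold lmT wt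
    congr 2
    exact (Fintype.sum_equiv (eqA h5).toEquiv _ _ (fun a => rfl)).symm
  rw [hb, hb]
  refine Eq.trans ?_ h6
  congr 2
  funext a
  rw [CHM.pl_restrict, ← h4]
  rfl

end CHL

/-! ### Cosets -/

section Cos

variable {L K : Type} [Group L] [Fintype L] [Group K]

/-- `u` vanishes outside the fibre of `g`. -/
def Sp {X H : Type} [Group X] [Group H] (P : X →* H) (g : H) (u : X → ℤ) : Prop :=
  ∀ y, P y ≠ g → u y = 0

theorem sp_pl {X H : Type} [Group X] [Fintype X] [Group H] (P : X →* H)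
    (l : List ((X → ℤ) × H)) (hl : ∀ x ∈ l, Sp P x.2 x.1) :
    Sp P (l.map Prod.snd).prod (pl (l.map Prod.fst)) := by
  classical
  induction l with
  | nil =>
    intro y hy
    rw [List.map_nil, KEYN.pl_nil, if_neg]
    rintro rfl
    exact hy (by rw [map_one]; rfl)
  | cons x l ih =>
    rw [List.map_cons, List.map_cons, List.prod_cons, KEYN.pl_cons]
    exact KEYN.supp_conv P (hl x List.mem_cons_self)
      (ih fun y hy => hl y (List.mem_cons_of_mem _ hy))

theorem sp_tr {H : Type} [Group H] (P : L →* H) (T : Subgroup L) {g : H} {u : L → ℤ}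
    (hu : Sp P g u) : Sp P g (CHM.tr T u) := by
  intro y hy
  by_cases h : y ∈ T
  · rw [CHM.tr_mem T u h, hu y hy]
  · exact CHM.tr_supp T u h

omit [Fintype L] in
/-- The projection to the quotient. -/
def PN (π : L →* K) (N : Subgroup K) [N.Normal] : L →* K ⧸ N := (QuotientGroup.mk' N).comp π

omit [Fintype L] in
theorem PN_eq {π : L →* K} {N : Subgroup K} [N.Normal] {x y : L} :
    PN π N y = PN π N x ↔ π (x⁻¹ * y) ∈ N := by
  rw [eq_comm]
  show ((π x : K) : K ⧸ N) = ((π y : K) : K ⧸ N) ↔ _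
  rw [QuotientGroup.eq, map_mul, map_inv]

omit [Fintype L] in
theorem PN_one {π : L →* K} {N : Subgroup K} [N.Normal] {y : L} :
    PN π N y = 1 ↔ π y ∈ N := by
  have h := PN_eq (π := π) (N := N) (x := 1) (y := y)
  rw [map_one, inv_one, one_mul] at h
  exact h

omit [Fintype L] in
theorem sp_iff {π : L →* K} {N : Subgroup K} [N.Normal] {x : L} {u : L → ℤ} :
    Sp (PN π N) (PN π N x) u ↔ SOn {y | π (x⁻¹ * y) ∈ N} u := by
  constructor
  · intro h y hy
    exact h y (fun h' => hy (PN_eq.mp h'))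
  · intro h y hy
    exact h y (fun h' => hy (PN_eq.mpr h'))

theorem civ_pl {S : Subgroup L} (l : List (L → ℤ)) (hl : ∀ u ∈ l, CIv S u) :
    CIv S (pl l) := by
  intro s hs x
  exact CHM.pl_iv l (fun u hu y => hl u hu s hs y) x

end Cos

/-! ### Pairs -/

section Pair

variable {L K : Type} [Group L] [Fintype L] [Group K] (π : L →* K) (N M S : Subgroup K)

omit [Fintype L] in
/-- The normal subgroup of `AL π M S`. -/
abbrev AA : Subgroup ↥(AL π M S) := (AL π N S).subgroupOf (AL π M S)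

omit [Fintype L] in
theorem mem_AA {a : ↥(AL π M S)} : a ∈ AA π N M S ↔ π (a : L) ∈ N := by
  rw [Subgroup.mem_subgroupOf]
  constructor
  · intro h
    exact h.1
  · intro h
    exact ⟨h, a.2.2⟩

omit [Fintype L] in
theorem AA_normal [N.Normal] : (AA π N M S).Normal := by
  refine ⟨fun a ha g => ?_⟩
  rw [mem_AA] at ha ⊢
  have h1 : π ((g * a * g⁻¹ : ↥(AL π M S)) : L) = π (g : L) * π (a : L) * (π (g : L))⁻¹ := by
    rw [Subgroup.coe_mul, Subgroup.coe_mul, Subgroup.coe_inv, map_mul, map_mul, map_inv]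
  rw [h1]
  exact Subgroup.Normal.conj_mem inferInstance _ ha _

variable {π N M S}

omit [Fintype L] in
theorem AL_le (hNM : N ≤ M) : AL π N S ≤ AL π M S := fun _ hx => ⟨hNM hx.1, hx.2⟩

theorem irr_AA (hNM : N ≤ M) {f : L → ℂ} (hf : IsIrr (fun a : AL π N S => f a)) :
    IsIrr (fun a : AA π N M S => f ((a : ↥(AL π M S)) : L)) := by
  classical
  exact hf.comp_mulEquiv (Subgroup.subgroupOfEquivOfLe (AL_le hNM))

omit [Fintype L] in
theorem aiv_AA {u : L → ℤ} (hu : CIv (N.comap π) u) :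
    AIv (AA π N M S).subtype (fun t : ↥(AL π M S) => u t) := by
  intro a x
  exact hu ((a : ↥(AL π M S)) : L) ((mem_AA π N M S).mp a.2) (x : L)

/-- The product of the scalars of invariant functions. -/
theorem prd (𝔐 : Ideal (integralClosure ℤ ℂ)) [N.Normal] (hNM : N ≤ M) {F : L → ℂ}
    (hF : EF π N M S F) (l : List (L → ℤ)) (hl : ∀ u ∈ l, CIv (N.comap π) u) :
    sc 𝔐 F (pl (l.map (CHM.tr (AL π M S)))) = (l.map (sc 𝔐 F)).prod := by
  classical
  have hn := AA_normal π N M S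
  have hC := clG_sub (AA π N M S)
  rw [sc_eq 𝔐 (AL π M S) hF.irr.2]
  have h1 : (fun t : ↥(AL π M S) => pl (l.map (CHM.tr (AL π M S))) (t : L)) =
      pl (l.map (fun (u : L → ℤ) (t : ↥(AL π M S)) => u t)) := by
    funext t
    rw [CHM.pl_restrict]
  rw [h1, red_lmT_pl 𝔐 hC (irr_AA hNM hF.res) hF.irr.1.isChr (fun a => rfl), List.map_map]
  · congr 1
    refine List.map_congr_left fun u _ => ?_
    exact (sc_eq 𝔐 (AL π M S) hF.irr.2 u).symm
  · intro v hv
    obtain ⟨u, hu, rfl⟩ := List.mem_map.mp hv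
    exact aiv_AA (hl u hu)

theorem frl (h3 : Stmt_CHT) [Fintype K] (𝔐 : Ideal (integralClosure ℤ ℂ)) (ℓ : ℕ)
    [Fact ℓ.Prime] (hM : 𝔐.IsMaximal) (hℓ : (ℓ : integralClosure ℤ ℂ) ∈ 𝔐)
    (hπ : Function.Surjective π) (hc : π.ker ≤ Subgroup.center L) [N.Normal] (hNM : N ≤ M)
    {σ : Finset (Subgroup K)} (hσ : ChN ℓ N σ) {F : L → ℂ} (hF : EF π N M (stb σ) F)
    (l : List ((L → ℤ) × (K ⧸ N))) (hl : ∀ x ∈ l, CIv (N.comap π) x.1)
    (hs : ∀ x ∈ l, Sp (PN π N) x.2 x.1) (hm : ∀ x ∈ l, ∀ y, x.1 y ≠ 0 → π y ∈ M)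
    (h1 : (l.map Prod.snd).prod = 1) :
    sc 𝔐 F (pl (l.map Prod.fst)) = (l.map (fun x => sc 𝔐 F x.1)).prod := by
  classical
  have e0 : ∀ w : L → ℤ, Sp (PN π N) 1 w →
      sc 𝔐 F w = sc 𝔐 (fun x => if x ∈ AL π N (stb σ) then F x else 0) w := by
    intro w hw
    refine sc_congr' 𝔐 ?_ ?_
    · exact (if_pos (one_mem (AL π N (stb σ)))).symm
    · intro x hx
      by_cases h : x ∈ AL π N (stb σ)
      · rw [if_pos h]
      · rw [if_neg h]
        apply hF.irr.2
        intro h'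
        refine h ⟨?_, h'.2⟩
        by_contra h''
        exact hx (hw x fun h4 => h'' (PN_one.mp h4))
  have hf : IrrOn (AL π N (stb σ)) (fun x => if x ∈ AL π N (stb σ) then F x else 0) := by
    refine ⟨?_, fun x hx => if_neg hx⟩
    have h2 : (fun s : AL π N (stb σ) => (fun x => if x ∈ AL π N (stb σ) then F x else 0) (s : L))
        = fun s : AL π N (stb σ) => F s := by
      funext s
      exact if_pos s.2
    rw [h2]
    exact hF.res
  have hs1 : Sp (PN π N) 1 (pl (l.map Prod.fst)) := by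
    rw [← h1]
    exact sp_pl _ l hs
  have hs2 : Sp (PN π N) 1 (pl ((l.map Prod.fst).map (CHM.tr ((stb σ).comap π)))) := by
    have h4 := sp_pl (PN π N) (l.map fun x => (CHM.tr ((stb σ).comap π) x.1, x.2)) (by
      intro y hy
      obtain ⟨x, hx, rfl⟩ := List.mem_map.mp hy
      exact sp_tr _ _ (hs x hx))
    rw [List.map_map, List.map_map] at h4
    have h5 : (l.map (Prod.snd ∘ fun x : (L → ℤ) × (K ⧸ N) =>
        (CHM.tr ((stb σ).comap π) x.1, x.2))) = l.map Prod.snd := rfl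
    rw [h5, h1] at h4
    rw [List.map_map]
    exact h4
  have hl' : ∀ u ∈ l.map Prod.fst, CIv (N.comap π) u := by
    intro u hu
    obtain ⟨x, hx, rfl⟩ := List.mem_map.mp hu
    exact hl x hx
  have h6 := chl h3 𝔐 ℓ hM hℓ π hπ hc N σ hσ _ hf (l.map Prod.fst) hl'
  rw [e0 _ hs1, ← h6, ← e0 _ hs2]
  have h7 : (l.map Prod.fst).map (CHM.tr ((stb σ).comap π)) =
      (l.map Prod.fst).map (CHM.tr (AL π M (stb σ))) := by
    refine List.map_congr_left fun u hu => ?_
    obtain ⟨x, hx, rfl⟩ := List.mem_map.mp hu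
    funext y
    by_cases h8 : x.1 y = 0
    · have h9 : ∀ T : Subgroup L, CHM.tr T x.1 y = 0 := by
        intro T
        by_cases h : y ∈ T
        · rw [CHM.tr_mem T _ h, h8]
        · exact CHM.tr_supp T _ h
      rw [h9, h9]
    · have h9 := hm x hx y h8
      by_cases h : π y ∈ stb σ
      · rw [CHM.tr_mem _ _ (show y ∈ (stb σ).comap π from h),
          CHM.tr_mem _ _ (show y ∈ AL π M (stb σ) from ⟨h9, h⟩)]
      · rw [CHM.tr_supp _ _ (show y ∉ (stb σ).comap π from h),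
          CHM.tr_supp _ _ (show y ∉ AL π M (stb σ) from fun h' => h h'.2)]
  rw [h7, prd 𝔐 hNM hF _ hl', List.map_map]
  rfl

/-! ### Twisted groups -/

omit [Fintype L] in
/-- The embedding of the quotient of `AL π M S` in `K / N`. -/
def JJ (π : L →* K) (N M S : Subgroup K) [N.Normal] [(AA π N M S).Normal] :
    ↥(AL π M S) ⧸ AA π N M S →* K ⧸ N :=
  QuotientGroup.lift (AA π N M S) ((PN π N).comp (AL π M S).subtype)
    (fun a ha => PN_one.mpr ((mem_AA π N M S).mp ha))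

omit [Fintype L] in
theorem JJ_mk [N.Normal] [(AA π N M S).Normal] (t : ↥(AL π M S)) :
    JJ π N M S (QuotientGroup.mk' (AA π N M S) t) = PN π N t := rfl

omit [Fintype L] in
theorem JJ_inj [N.Normal] [(AA π N M S).Normal] : Function.Injective (JJ π N M S) := by
  rw [injective_iff_map_eq_one]
  intro c hc
  obtain ⟨t, rfl⟩ := QuotientGroup.mk'_surjective _ c
  rw [JJ_mk, PN_one] at hc
  rw [QuotientGroup.mk'_apply, QuotientGroup.eq_one_iff, mem_AA]
  exact hc

variable {Γ Λ : Type} [Group Γ] [Fintype Γ] [Group Λ] [Fintype Λ]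

omit [Fintype L] in
theorem sp_T [N.Normal] [(AA π N M S).Normal] {c : ↥(AL π M S) ⧸ AA π N M S} {u : L → ℤ}
    (hu : Sp (PN π N) (JJ π N M S c) u) :
    ∀ t : ↥(AL π M S), QuotientGroup.mk' (AA π N M S) t ≠ c → u t = 0 := by
  intro t ht
  apply hu
  intro h'
  exact ht (JJ_inj h')

/-- The reduced scalars of the twisted group are multiplicative. -/
theorem tl (𝔐 : Ideal (integralClosure ℤ ℂ)) (ℓ : ℕ) [Fact ℓ.Prime] (hM : 𝔐.IsMaximal)
    (hℓ : (ℓ : integralClosure ℤ ℂ) ∈ 𝔐) [N.Normal] {f : L → ℂ} [(AA π N M S).Normal]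
    (hθ : IsIrr (fun a : AA π N M S => f ((a : ↥(AL π M S)) : L)))
    (hinv : ∀ (t : ↥(AL π M S)) (x : L), f (t * x * (t : L)⁻¹) = f x)
    {e : AA π N M S →* Γ} {q : Γ →* Λ} {r : Γ →* ↥(AL π M S)} {E : Γ → ℂ} {U : Subgroup Λ}
    {μ : U →* ℂˣ} {ϖ : Λ →* ↥(AL π M S) ⧸ AA π N M S}
    (h : TWD (AA π N M S).subtype (QuotientGroup.mk' (AA π N M S))
      (fun a => f ((a : ↥(AL π M S)) : L)) e q r E U μ ϖ)
    (l : List ((L → ℤ) × Λ)) (hl : ∀ x ∈ l, CIv (N.comap π) x.1 ∧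
      Sp (PN π N) (JJ π N M S (ϖ x.2)) x.1) :
    (∀ t, QuotientGroup.mk' (AA π N M S) t ≠ ϖ (l.map Prod.snd).prod →
      pl ((l.map Prod.fst).map (fun (u : L → ℤ) (t : ↥(AL π M S)) => u t)) t = 0) ∧
    LmL 𝔐 (fun a : AA π N M S => f ((a : ↥(AL π M S)) : L)) q r E
      (pl ((l.map Prod.fst).map (fun (u : L → ℤ) (t : ↥(AL π M S)) => u t)))
      (l.map Prod.snd).prod =
    (l.map (fun x => LmL 𝔐 (fun a : AA π N M S => f ((a : ↥(AL π M S)) : L)) q r E
      (fun t : ↥(AL π M S) => x.1 t) x.2)).prod := by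
  classical
  have hC := clG_sub (AA π N M S)
  obtain ⟨-, -, r3, -, r5, -⟩ := RDA_thm (AA π N M S) (↥(AL π M S)) _ Γ Λ 𝔐 ℓ hM hℓ
    (AA π N M S).subtype MulAut.conjNormal (QuotientGroup.mk' (AA π N M S)) hC
    (QuotientGroup.mk'_surjective _) _ hθ (fun t a => by
      show f (((MulAut.conjNormal t a : AA π N M S) : ↥(AL π M S)) : L) = _
      rw [MulAut.conjNormal_apply]
      exact hinv t _) e q r E U μ ϖ h
  induction l with
  | nil =>
    constructor
    · intro t ht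
      rw [List.map_nil, List.map_nil, KEYN.pl_nil, if_neg]
      rintro rfl
      apply ht
      rw [List.map_nil, List.prod_nil, map_one, map_one]
    · simp only [List.map_nil, List.prod_nil]
      rw [r5 _ (KEYN.aiv_nil _)]
      have h1 : (fun b : AA π N M S => ((pl ([] : List (↥(AL π M S) → ℤ))
          ((AA π N M S).subtype b) : ℤ) : ℂ)) = fun b => if b = 1 then (1 : ℂ) else 0 := by
        ext b
        rw [KEYN.pl_nil]
        by_cases hb : b = 1
        · rw [hb, map_one, if_pos rfl, if_pos rfl]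
          norm_num
        · rw [if_neg hb, if_neg]
          · norm_num
          · intro h
            exact hb (Subtype.ext h)
      rw [h1]
      have h2 : wt (fun a : AA π N M S => f ((a : ↥(AL π M S)) : L))
          (fun b => if b = 1 then 1 else 0) = 1 := by
        rw [wt]
        simp only [ite_mul, one_mul, zero_mul, Finset.sum_ite_eq', Finset.mem_univ, if_true]
        exact div_self hθ.one_ne_zero
      rw [h2, red_one]
  | cons x l ih =>
    obtain ⟨hs, hm⟩ := ih fun y hy => hl y (List.mem_cons_of_mem _ hy)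
    obtain ⟨hx1, hx2⟩ := hl x List.mem_cons_self
    have ha : AIv (AA π N M S).subtype
        (pl ((l.map Prod.fst).map (fun (u : L → ℤ) (t : ↥(AL π M S)) => u t))) := by
      refine KEYN.aiv_pl _ _ fun u hu => ?_
      obtain ⟨v, hv, rfl⟩ := List.mem_map.mp hu
      obtain ⟨y, hy, rfl⟩ := List.mem_map.mp hv
      exact aiv_AA (hl y (List.mem_cons_of_mem _ hy)).1
    simp only [List.map_cons, List.prod_cons, KEYN.pl_cons]
    constructor
    · rw [map_mul]
      exact KEYN.supp_conv _ (sp_T hx2) hs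
    · rw [r3 _ _ (aiv_AA hx1) ha _ _ (sp_T hx2) hs, hm]

omit [Group K] [Fintype Γ] [Fintype Λ] [Group Γ] [Group Λ] in
theorem wt_sc [Group K] (𝔐 : Ideal (integralClosure ℤ ℂ)) {π : L →* K} {N M S : Subgroup K}
    (hNM : N ≤ M) {f : L → ℂ}
    (hf : ∀ x, x ∉ AL π N S → f x = 0) [Fintype (AA π N M S)] (w : L → ℤ) :
    sc 𝔐 f w = red 𝔐 (wt (fun a : AA π N M S => f ((a : ↥(AL π M S)) : L))
      (fun a => ((w ((a : ↥(AL π M S)) : L) : ℤ) : ℂ))) := by
  classical
  rw [sc_eq 𝔐 (AL π N S) hf w]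
  unfold lmT wt
  congr 2
  exact (Fintype.sum_equiv (Subgroup.subgroupOfEquivOfLe (AL_le hNM)).toEquiv _ _
    (fun a => rfl)).symm

omit [Fintype Γ] [Fintype Λ] [Group Γ] [Group Λ] in
theorem map_tr {l : List (L → ℤ)} (hm : ∀ u ∈ l, ∀ y, u y ≠ 0 → π y ∈ M) :
    l.map (CHM.tr (S.comap π)) = l.map (CHM.tr (AL π M S)) := by
  classical
  refine List.map_congr_left fun u hu => ?_
  funext y
  by_cases h8 : u y = 0
  · have h9 : ∀ T : Subgroup L, CHM.tr T u y = 0 := by
      intro T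
      by_cases h : y ∈ T
      · rw [CHM.tr_mem T _ h, h8]
      · exact CHM.tr_supp T _ h
    rw [h9, h9]
  · have h9 := hm u hu y h8
    by_cases h : π y ∈ S
    · rw [CHM.tr_mem _ _ (show y ∈ S.comap π from h),
        CHM.tr_mem _ _ (show y ∈ AL π M S from ⟨h9, h⟩)]
    · rw [CHM.tr_supp _ _ (show y ∉ S.comap π from h),
        CHM.tr_supp _ _ (show y ∉ AL π M S from fun h' => h h'.2)]

/-- The product of the reduced scalars. -/
theorem tm (h3 : Stmt_CHT) [Fintype K] (𝔐 : Ideal (integralClosure ℤ ℂ)) (ℓ : ℕ)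
    [Fact ℓ.Prime] (hM : 𝔐.IsMaximal)
    (hℓ : (ℓ : integralClosure ℤ ℂ) ∈ 𝔐) (hπ : Function.Surjective π)
    (hc : π.ker ≤ Subgroup.center L) [N.Normal] (hNM : N ≤ M) {σ : Finset (Subgroup K)}
    (hσ : ChN ℓ N σ) {f : L → ℂ} (hf : IrrOn (AL π N (stb σ)) f)
    [(AA π N M (stb σ)).Normal]
    (hinv : ∀ (t : ↥(AL π M (stb σ))) (x : L), f (t * x * (t : L)⁻¹) = f x)
    {e : AA π N M (stb σ) →* Γ} {q : Γ →* Λ} {r : Γ →* ↥(AL π M (stb σ))} {E : Γ → ℂ}
    {U : Subgroup Λ} {μ : U →* ℂˣ} {ϖ : Λ →* ↥(AL π M (stb σ)) ⧸ AA π N M (stb σ)}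
    (h : TWD (AA π N M (stb σ)).subtype (QuotientGroup.mk' (AA π N M (stb σ)))
      (fun a => f ((a : ↥(AL π M (stb σ))) : L)) e q r E U μ ϖ)
    (l : List ((L → ℤ) × Λ)) (hl : ∀ x ∈ l, CIv (N.comap π) x.1 ∧
      Sp (PN π N) (JJ π N M (stb σ) (ϖ x.2)) x.1)
    (hm : ∀ x ∈ l, ∀ y, x.1 y ≠ 0 → π y ∈ M) (h1 : (l.map Prod.snd).prod = 1) :
    (l.map (fun x => LmL 𝔐 (fun a : AA π N M (stb σ) => f ((a : ↥(AL π M (stb σ))) : L)) q r E
      (fun t : ↥(AL π M (stb σ)) => x.1 t) x.2)).prod = sc 𝔐 f (pl (l.map Prod.fst)) := by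
  classical
  have hC := clG_sub (AA π N M (stb σ))
  have hθ := irr_AA (π := π) (S := stb σ) hNM hf.1
  obtain ⟨-, -, -, -, r5, -⟩ := RDA_thm (AA π N M (stb σ)) (↥(AL π M (stb σ))) _ Γ Λ 𝔐 ℓ hM hℓ
    (AA π N M (stb σ)).subtype MulAut.conjNormal (QuotientGroup.mk' (AA π N M (stb σ))) hC
    (QuotientGroup.mk'_surjective _) _ hθ (fun t a => by
      show f (((MulAut.conjNormal t a : AA π N M (stb σ)) : ↥(AL π M (stb σ))) : L) = _
      rw [MulAut.conjNormal_apply]
      exact hinv t _) e q r E U μ ϖ h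
  have hl' : ∀ u ∈ l.map Prod.fst, CIv (N.comap π) u := by
    intro u hu
    obtain ⟨x, hx, rfl⟩ := List.mem_map.mp hu
    exact (hl x hx).1
  have ha : AIv (AA π N M (stb σ)).subtype
      (pl ((l.map Prod.fst).map (fun (u : L → ℤ) (t : ↥(AL π M (stb σ))) => u t))) := by
    refine KEYN.aiv_pl _ _ fun u hu => ?_
    obtain ⟨v, hv, rfl⟩ := List.mem_map.mp hu
    exact aiv_AA (hl' v hv)
  rw [← (tl 𝔐 ℓ hM hℓ hθ hinv h l hl).2, h1, r5 _ ha,
    ← chl h3 𝔐 ℓ hM hℓ π hπ hc N σ hσ f hf _ hl', map_tr, wt_sc (M := M) 𝔐 hNM hf.2]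
  · congr 2
    funext a
    rw [CHM.pl_restrict]
    rfl
  · intro u hu y hy
    obtain ⟨x, hx, rfl⟩ := List.mem_map.mp hu
    exact hm x hx y hy

end Pair

/-! ### Ratios -/

theorem ratio {k X Λ : Type} [Field k] [Group Λ] (W : X → Λ → Prop) (m : X → Λ → k) (s : X → k)
    (h : ∀ l : List (X × Λ), (∀ x ∈ l, W x.1 x.2) → (l.map Prod.snd).prod = 1 →
      (l.map (fun x => m x.1 x.2)).prod = (l.map (fun x => s x.1)).prod)
    (hs : ∀ γ, ∃ u, W u γ ∧ s u ≠ 0) :
    ∃ ρ : Λ → k, ρ 1 = 1 ∧ (∀ a b, ρ (a * b) = ρ a * ρ b) ∧ (∀ a, ρ a ≠ 0) ∧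
      ∀ u γ, W u γ → s u = ρ γ * m u γ := by
  choose v hvW hvs using hs
  have h2 : ∀ u γ, W u γ → m u γ * m (v γ⁻¹) γ⁻¹ = s u * s (v γ⁻¹) := by
    intro u γ hu
    have h3 := h [(u, γ), (v γ⁻¹, γ⁻¹)] (by
      intro x hx
      simp only [List.mem_cons, List.not_mem_nil, or_false] at hx
      rcases hx with rfl | rfl
      · exact hu
      · exact hvW _) (by simp)
    simpa using h3
  obtain ⟨ρ, hρ⟩ : ∃ ρ : Λ → k, ρ = fun γ => m (v γ⁻¹) γ⁻¹ / s (v γ⁻¹) := ⟨_, rfl⟩
  have h4 : ∀ u γ, W u γ → s u = ρ γ * m u γ := by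
    intro u γ hu
    have h5 := h2 u γ hu
    rw [hρ]
    have h6 := hvs γ⁻¹
    field_simp
    linear_combination -h5
  have h5 : ∀ γ, ρ γ ≠ 0 ∧ m (v γ) γ ≠ 0 := by
    intro γ
    have h6 := hvs γ
    rw [h4 _ γ (hvW γ)] at h6
    exact ⟨left_ne_zero_of_mul h6, right_ne_zero_of_mul h6⟩
  have h6 : ∀ a b, ρ (a * b) = ρ a * ρ b := by
    intro a b
    have h7 := h [(v a, a), (v b, b), (v (a * b)⁻¹, (a * b)⁻¹)] (by
      intro x hx
      simp only [List.mem_cons, List.not_mem_nil, or_false] at hx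
      rcases hx with rfl | rfl | rfl
      · exact hvW _
      · exact hvW _
      · exact hvW _) (by
        simp only [List.map_cons, List.map_nil, List.prod_cons, List.prod_nil]
        group)
    simp only [List.map_cons, List.map_nil, List.prod_cons, List.prod_nil, mul_one] at h7
    have h8 := h2 (v (a * b)) (a * b) (hvW _)
    rw [h4 _ a (hvW a), h4 _ b (hvW b), h4 _ (a * b)⁻¹ (hvW _)] at h7
    rw [h4 _ (a * b) (hvW _), h4 _ (a * b)⁻¹ (hvW _)] at h8
    obtain ⟨-, ma⟩ := h5 a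
    obtain ⟨-, mb⟩ := h5 b
    obtain ⟨-, mab⟩ := h5 (a * b)
    obtain ⟨ri, mi⟩ := h5 (a * b)⁻¹
    have h9 : ρ a * ρ b * ρ (a * b)⁻¹ = 1 := by
      have : (m (v a) a * m (v b) b * m (v (a * b)⁻¹) (a * b)⁻¹) *
          (ρ a * ρ b * ρ (a * b)⁻¹) = (m (v a) a * m (v b) b * m (v (a * b)⁻¹) (a * b)⁻¹) * 1 := by
        linear_combination -h7
      exact mul_left_cancel₀ (mul_ne_zero (mul_ne_zero ma mb) mi) this
    have h10 : ρ (a * b) * ρ (a * b)⁻¹ = 1 := by
      have : (m (v (a * b)) (a * b) * m (v (a * b)⁻¹) (a * b)⁻¹) *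
          (ρ (a * b) * ρ (a * b)⁻¹) = (m (v (a * b)) (a * b) * m (v (a * b)⁻¹) (a * b)⁻¹) * 1 := by
        linear_combination -h8
      exact mul_left_cancel₀ (mul_ne_zero mab mi) this
    exact mul_right_cancel₀ ri (h10.trans h9.symm)
  refine ⟨ρ, ?_, h6, fun a => (h5 a).1, h4⟩
  have h7 := h6 1 1
  rw [mul_one] at h7
  exact (mul_left_cancel₀ (h5 1).1 (by rw [← h7, mul_one]))

end Pool.Agent.DPG.RIX


end

section

/-!
# RIX: existence of an extension with prescribed scalars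
-/

set_option autoImplicit false

namespace Pool.Agent.DPG

open Pool.Agent.DP Pool.Agent.DPC Pool.Agent.DPM Pool.Agent.DPN Pool.Agent.DPF
  Pool.Agent.Lib_helper13 Representation

namespace RIX

section Aux

variable {L K : Type} [Group L] [Fintype L] [Group K] {π : L →* K} {N M S : Subgroup K}

theorem pl_two (u v : L → ℤ) : pl [u, v] = conv u v := by
  classical
  rw [KEYN.pl_cons, KEYN.pl_cons]
  congr 1
  funext x
  rw [conv, Finset.sum_eq_single x]
  · rw [inv_mul_cancel, KEYN.pl_nil, if_pos rfl, mul_one]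
  · intro y _ hy
    rw [KEYN.pl_nil, if_neg, mul_zero]
    intro h
    exact hy (inv_mul_eq_one.mp h)
  · intro h
    exact absurd (Finset.mem_univ _) h

omit [Fintype L] in
theorem idx [Finite L] (hπ : Function.Surjective π) [N.Normal] :
    (AA π N M S).index ∣ N.relIndex M := by
  have h1 : AA π N M S = N.comap (π.comp (AL π M S).subtype) := by
    ext a
    rw [mem_AA]
    rfl
  have h2 : (π.comp (AL π M S).subtype).range = M ⊓ S := by
    ext k
    constructor
    · rintro ⟨t, rfl⟩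
      exact t.2
    · intro hk
      obtain ⟨x, rfl⟩ := hπ k
      exact ⟨⟨x, hk⟩, rfl⟩
  rw [h1, Subgroup.index_comap, h2]
  have h3 : (N.subgroupOf M).relIndex ((M ⊓ S).subgroupOf M) = N.relIndex (M ⊓ S) :=
    Subgroup.relIndex_subgroupOf inf_le_left
  rw [← h3]
  exact Subgroup.relIndex_dvd_index_of_normal _ _

/-- The part of `u` on the coset `c`. -/
noncomputable def cut [N.Normal] [(AA π N M S).Normal] (c : ↥(AL π M S) ⧸ AA π N M S)
    (u : L → ℤ) (x : L) : ℤ := open Classical in if PN π N x = JJ π N M S c then u x else 0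

omit [Fintype L] in
theorem cut_civ [N.Normal] [(AA π N M S).Normal] (c : ↥(AL π M S) ⧸ AA π N M S)
    {u : L → ℤ} (hu : CIv (N.comap π) u) : CIv (N.comap π) (cut c u) := by
  intro s hs x
  have h1 : PN π N (s * x * s⁻¹) = PN π N x := by
    rw [map_mul, map_mul, map_inv, PN_one.mpr hs, one_mul, inv_one, mul_one]
  unfold cut
  rw [h1, hu s hs x]

omit [Fintype L] in
theorem cut_sp [N.Normal] [(AA π N M S).Normal] (c : ↥(AL π M S) ⧸ AA π N M S)
    (u : L → ℤ) : Sp (PN π N) (JJ π N M S c) (cut c u) := fun _ hy => if_neg hy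

omit [Fintype L] in
theorem cut_sum [N.Normal] [(AA π N M S).Normal] [Fintype (↥(AL π M S) ⧸ AA π N M S)]
    (hπ : Function.Surjective π) (hNM : N ≤ M) (hcov : M ≤ N ⊔ S) (u : L → ℤ) (x : L)
    (hx : π x ∈ M) : u x = ∑ c : ↥(AL π M S) ⧸ AA π N M S, cut c u x := by
  classical
  obtain ⟨n, hn, s, hs, hns⟩ := Subgroup.mem_sup_of_normal_left.mp (hcov hx)
  obtain ⟨t, rfl⟩ := hπ s
  have ht : π t ∈ M := by
    have h1 : π t = n⁻¹ * π x := by rw [← hns, inv_mul_cancel_left]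
    rw [h1]
    exact mul_mem (inv_mem (hNM hn)) hx
  have h2 : PN π N x = PN π N t := by
    rw [PN_eq, map_mul, map_inv, ← hns]
    have h3 : (π t)⁻¹ * (n * π t) = (π t)⁻¹ * n * ((π t)⁻¹)⁻¹ := by group
    rw [h3]
    exact Subgroup.Normal.conj_mem inferInstance _ hn _
  rw [Finset.sum_eq_single (QuotientGroup.mk' (AA π N M S) ⟨t, ⟨ht, hs⟩⟩)]
  · unfold cut
    rw [JJ_mk, if_pos h2]
  · intro c _ hc
    unfold cut
    rw [if_neg]
    intro h4
    apply hc
    apply JJ_inj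
    rw [JJ_mk, ← h4, h2]
  · intro h
    exact absurd (Finset.mem_univ _) h

theorem sc_sum (𝔐 : Ideal (integralClosure ℤ ℂ)) [N.Normal] (hNM : N ≤ M) {G : L → ℂ}
    (hG : EF π N M S G) {ι : Type} [Fintype ι] (w : ι → L → ℤ)
    (hw : ∀ i, CIv (N.comap π) (w i)) :
    sc 𝔐 G (fun x => ∑ i, w i x) = ∑ i, sc 𝔐 G (w i) := by
  classical
  have hn := AA_normal π N M S
  have hC := clG_sub (AA π N M S)
  rw [sc_eq 𝔐 (AL π M S) hG.irr.2]
  have h1 : ∀ i, sc 𝔐 G (w i) = red 𝔐 (lmT (fun t : ↥(AL π M S) => G t) (fun t => w i t)) :=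
    fun i => sc_eq 𝔐 (AL π M S) hG.irr.2 (w i)
  rw [Finset.sum_congr rfl fun i _ => h1 i, ← red_sum]
  · congr 1
    unfold lmT
    rw [← Finset.sum_div, Finset.sum_comm]
    congr 1
    refine Finset.sum_congr rfl fun t _ => ?_
    push_cast
    rw [Finset.sum_mul]
  · intro i _
    exact lmT_int hC (irr_AA hNM hG.res) hG.irr.1.isChr (fun a => rfl) _ (aiv_AA (hw i))

end Aux

theorem main (h2 : Stmt_SST) (h3 : Stmt_CHT) : Stmt_RIX := by
  classical
  intro L K _ _ _ _ 𝔐 ℓ _ hM hℓ π hπ hc N M _ _ hNM hidx σr Fr hσr hFr hSUP σ f hσ hf hff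
  let _ : Field ((integralClosure ℤ ℂ) ⧸ 𝔐) := Ideal.Quotient.field 𝔐
  have hprime : 𝔐.IsPrime := hM.isPrime
  have hsup : ∀ x : L, π x ∈ M → ∃ u : L → ℤ, CIv (N.comap π) u ∧
      Sp (PN π N) (PN π N x) u ∧ sc 𝔐 Fr u ≠ 0 := by
    intro x hx
    obtain ⟨u, h4, h5, h6⟩ := hSUP x hx
    exact ⟨u, h4, sp_iff.mpr h5, h6⟩
  have hspM : ∀ (x : L) (u : L → ℤ), π x ∈ M → Sp (PN π N) (PN π N x) u →
      ∀ y, u y ≠ 0 → π y ∈ M := by
    intro x u hx hu y hy
    have h4 : PN π N y = PN π N x := by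
      by_contra h5
      exact hy (hu y h5)
    rw [PN_eq, map_mul, map_inv] at h4
    have h5 := M.mul_mem hx (hNM h4)
    rwa [mul_inv_cancel_left] at h5
  have hlist : ∀ l : List ((L → ℤ) × (K ⧸ N)), (∀ x ∈ l, CIv (N.comap π) x.1) →
      (∀ x ∈ l, Sp (PN π N) x.2 x.1) → (∀ x ∈ l, ∀ y, x.1 y ≠ 0 → π y ∈ M) →
      (l.map Prod.snd).prod = 1 →
      sc 𝔐 f (pl (l.map Prod.fst)) = (l.map (fun x => sc 𝔐 Fr x.1)).prod := by
    intro l hl hs hm h1
    rw [← frl h3 𝔐 ℓ hM hℓ hπ hc hNM hσr hFr l hl hs hm h1]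
    apply hff
    · refine civ_pl _ fun u hu => ?_
      obtain ⟨x, hx, rfl⟩ := List.mem_map.mp hu
      exact hl x hx
    · intro x hx
      have h4 := sp_pl (PN π N) l hs
      rw [h1] at h4
      exact h4 x (fun h => hx (PN_one.mp h))
  have hst : ∀ x : L, π x ∈ M → (∃ t, π t ∈ stb σ ∧ π (x⁻¹ * t) ∈ N) ∧
      ∀ t, π t ∈ stb σ → π (x⁻¹ * t) ∈ N → ∀ y, f (t * y * t⁻¹) = f y := by
    intro x hx
    have hx' : π x⁻¹ ∈ M := by rw [map_inv]; exact inv_mem hx
    obtain ⟨u, hu1, hu2, hu3⟩ := hsup x hx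
    obtain ⟨v, hv1, hv2, hv3⟩ := hsup x⁻¹ hx'
    have h4 := hlist [(u, PN π N x), (v, PN π N x⁻¹)]
      (by
        intro y hy
        simp only [List.mem_cons, List.not_mem_nil, or_false] at hy
        rcases hy with rfl | rfl
        · exact hu1
        · exact hv1)
      (by
        intro y hy
        simp only [List.mem_cons, List.not_mem_nil, or_false] at hy
        rcases hy with rfl | rfl
        · exact hu2
        · exact hv2)
      (by
        intro y hy
        simp only [List.mem_cons, List.not_mem_nil, or_false] at hy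
        rcases hy with rfl | rfl
        · exact hspM x u hx hu2
        · exact hspM x⁻¹ v hx' hv2)
      (by
        simp only [List.map_cons, List.map_nil, List.prod_cons, List.prod_nil, mul_one]
        rw [← map_mul, mul_inv_cancel, map_one])
    simp only [List.map_cons, List.map_nil, List.prod_cons, List.prod_nil, mul_one] at h4
    rw [pl_two] at h4
    refine h2 L K 𝔐 ℓ hM hℓ π hπ hc N σ hσ f hf x u v hu1 hv1 (sp_iff.mp hu2) ?_ ?_
    · have h5 := sp_iff.mp hv2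
      rw [inv_inv] at h5
      exact h5
    · rw [h4]
      exact mul_ne_zero hu3 hv3
  have hcov : M ≤ N ⊔ stb σ := by
    intro m hm
    obtain ⟨x, rfl⟩ := hπ m
    obtain ⟨⟨t, ht1, ht2⟩, -⟩ := hst x hm
    rw [map_mul, map_inv] at ht2
    have h4 : π x = π t * ((π x)⁻¹ * π t)⁻¹ := by group
    rw [h4]
    exact mul_mem (Subgroup.mem_sup_right ht1) (inv_mem (Subgroup.mem_sup_left ht2))
  have hinv0 : ∀ t, π t ∈ M → π t ∈ stb σ → ∀ x, f (t * x * t⁻¹) = f x :=
    fun t h4 h5 => (hst t h4).2 t h5 (by rw [inv_mul_cancel, map_one]; exact N.one_mem)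
  refine ⟨hcov, hinv0, ?_⟩
  have hn := AA_normal π N M (stb σ)
  have hC := clG_sub (AA π N M (stb σ))
  have hθ := irr_AA (π := π) (S := stb σ) hNM hf.1
  have hinv : ∀ (t : ↥(AL π M (stb σ))) (x : L), f (t * x * (t : L)⁻¹) = f x :=
    fun t => hinv0 t t.2.1 t.2.2
  obtain ⟨Γ, Λ, _, _, _, _, e, q, r, E, U, μ, ϖ, h⟩ := TWC_thm _ _ _
    (AA π N M (stb σ)).subtype MulAut.conjNormal (QuotientGroup.mk' (AA π N M (stb σ))) hC
    (QuotientGroup.mk'_surjective _) _ hθ (fun t a => by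
      show f (((MulAut.conjNormal t a : AA π N M (stb σ)) : ↥(AL π M (stb σ))) : L) = _
      rw [MulAut.conjNormal_apply]
      exact hinv t _)
  have hCE : ClG e (MulAut.conjNormal.comp r) q := TWF.clg hC h
  obtain ⟨-, -, -, -, -, r6⟩ := RDA_thm (AA π N M (stb σ)) (↥(AL π M (stb σ))) _ Γ Λ 𝔐 ℓ hM hℓ
    (AA π N M (stb σ)).subtype MulAut.conjNormal (QuotientGroup.mk' (AA π N M (stb σ))) hC
    (QuotientGroup.mk'_surjective _) _ hθ (fun t a => by
      show f (((MulAut.conjNormal t a : AA π N M (stb σ)) : ↥(AL π M (stb σ))) : L) = _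
      rw [MulAut.conjNormal_apply]
      exact hinv t _) e q r E U μ ϖ h
  have hcM : ∀ (c : ↥(AL π M (stb σ)) ⧸ AA π N M (stb σ)) (u : L → ℤ),
      Sp (PN π N) (JJ π N M (stb σ) c) u → ∀ y, u y ≠ 0 → π y ∈ M := by
    intro c u hu
    obtain ⟨t, rfl⟩ := QuotientGroup.mk'_surjective _ c
    rw [JJ_mk] at hu
    exact hspM t u t.2.1 hu
  obtain ⟨ρ, ρ1, ρm, ρ0, ρs⟩ := ratio (k := (integralClosure ℤ ℂ) ⧸ 𝔐) (Λ := Λ)
    (fun (u : L → ℤ) (l : Λ) => CIv (N.comap π) u ∧ Sp (PN π N) (JJ π N M (stb σ) (ϖ l)) u)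
    (fun u l => LmL 𝔐 (fun a : AA π N M (stb σ) => f ((a : ↥(AL π M (stb σ))) : L)) q r E
      (fun t : ↥(AL π M (stb σ)) => u t) l)
    (fun u => sc 𝔐 Fr u)
    (by
      intro l hl h1
      have hm : ∀ x ∈ l, ∀ y, x.1 y ≠ 0 → π y ∈ M := fun x hx => hcM _ _ (hl x hx).2
      have h4 := tm h3 𝔐 ℓ hM hℓ hπ hc hNM hσ hf hinv h l hl hm h1
      have h5 := hlist (l.map fun x => (x.1, JJ π N M (stb σ) (ϖ x.2)))
        (by
          intro y hy
          obtain ⟨x, hx, rfl⟩ := List.mem_map.mp hy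
          exact (hl x hx).1)
        (by
          intro y hy
          obtain ⟨x, hx, rfl⟩ := List.mem_map.mp hy
          exact (hl x hx).2)
        (by
          intro y hy
          obtain ⟨x, hx, rfl⟩ := List.mem_map.mp hy
          exact hm x hx)
        (by
          have h6 : ((l.map fun x => (x.1, JJ π N M (stb σ) (ϖ x.2))).map Prod.snd) =
              (l.map Prod.snd).map ((JJ π N M (stb σ)).comp ϖ) := by
            rw [List.map_map, List.map_map]
            rfl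
          rw [h6, ← map_list_prod, h1, map_one])
      have h7 : ((l.map fun x => (x.1, JJ π N M (stb σ) (ϖ x.2))).map Prod.fst) =
          l.map Prod.fst := by
        rw [List.map_map]
        rfl
      have h8 : ((l.map fun x => (x.1, JJ π N M (stb σ) (ϖ x.2))).map
          (fun x => sc 𝔐 Fr x.1)) = l.map (fun x => sc 𝔐 Fr x.1) := by
        rw [List.map_map]
        rfl
      rw [h7, h8] at h5
      exact h4.trans h5)
    (by
      intro l
      obtain ⟨t, ht⟩ := QuotientGroup.mk'_surjective _ (ϖ l)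
      obtain ⟨u, hu1, hu2, hu3⟩ := hsup t t.2.1
      refine ⟨u, ⟨hu1, ?_⟩, hu3⟩
      rw [← ht, JJ_mk]
      exact hu2)
  have hρU : ∀ z : U, ρ z = red 𝔐 ((μ z : ℂˣ) : ℂ) := by
    intro z
    have hz : ϖ z = 1 := (h.πk _).mpr z.2
    obtain ⟨u, hu1, hu2, hu3⟩ := hsup 1 (by rw [map_one]; exact one_mem M)
    rw [map_one] at hu2
    have h4 := ρs u z ⟨hu1, by rw [hz, map_one]; exact hu2⟩
    have h5 := ρs u 1 ⟨hu1, by rw [map_one, map_one]; exact hu2⟩
    have h6 := r6 (fun t : ↥(AL π M (stb σ)) => u t) (aiv_AA hu1) z 1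
    rw [mul_one] at h6
    simp only [ρ1, one_mul] at h5
    rw [h5, ← h6] at h4
    have h7 : LmL 𝔐 (fun a : AA π N M (stb σ) => f ((a : ↥(AL π M (stb σ))) : L)) q r E
      (fun t : ↥(AL π M (stb σ)) => u t) (z : Λ) ≠ 0 := by
      intro h8
      apply hu3
      rw [h5, ← h6, h8, mul_zero]
    exact (mul_right_cancel₀ h7 h4).symm
  have hUidx : ¬ ℓ ∣ U.index := by
    have h4 : U = ϖ.ker := by
      ext l
      rw [MonoidHom.mem_ker, h.πk]
    rw [h4, Subgroup.index_ker, MonoidHom.range_eq_top.mpr h.πs]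
    intro h5
    apply hidx
    have h6 : Nat.card (⊤ : Subgroup (↥(AL π M (stb σ)) ⧸ AA π N M (stb σ))) =
        (AA π N M (stb σ)).index := by
      rw [Subgroup.card_top]
      rfl
    rw [h6] at h5
    exact h5.trans (idx hπ)
  obtain ⟨ν, hνU, hνr⟩ := lift_lin 𝔐 hM hℓ U h.Uc hUidx μ ρ ρ1 ρm hρU
  -- the extension
  have hE' : IsChr (fun γ => E γ * ((ν (q γ) : ℂˣ) : ℂ)) :=
    h.Ec.mul (isChr_lin (ν.comp q))
  have hEe : ∀ a, (fun γ => E γ * ((ν (q γ) : ℂˣ) : ℂ)) (e a) =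
      (fun a : AA π N M (stb σ) => f ((a : ↥(AL π M (stb σ))) : L)) a := by
    intro a
    show E (e a) * ((ν (q (e a)) : ℂˣ) : ℂ) = _
    rw [(h.qk _).mpr ⟨a, rfl⟩, map_one, Units.val_one, mul_one, h.Ee]
  have hirr : IsIrr (fun γ => E γ * ((ν (q γ) : ℂˣ) : ℂ)) := FIBI.irrE hθ hE' hEe
  obtain ⟨F', hF', hF'e⟩ := QINF.exists_inf r h.rs hirr (by
    intro z γ hz
    have hU : q z ∈ U := by
      rw [← h.πk, h.πq, hz, map_one]
    show E (z * γ) * ((ν (q (z * γ)) : ℂˣ) : ℂ) = E γ * ((ν (q γ) : ℂˣ) : ℂ)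
    rw [map_mul, map_mul, Units.val_mul, ← h.El z γ hU hz]
    have h4 := hνU ⟨q z, hU⟩
    rw [← h4]
    ring)
  have hF'f : ∀ a : AA π N M (stb σ), F' (a : ↥(AL π M (stb σ))) =
      f ((a : ↥(AL π M (stb σ))) : L) := by
    intro a
    have h4 : F' (r (e a)) = f ((a : ↥(AL π M (stb σ))) : L) :=
      (congrFun hF'e (e a)).symm.trans (hEe a)
    rw [h.re] at h4
    exact h4
  have hFx : ∀ x ∈ AL π N (stb σ), ext0 F' x = f x := by
    intro x hx
    have hx' : x ∈ AL π M (stb σ) := AL_le hNM hx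
    rw [ext0_of_mem F' hx']
    exact hF'f ⟨⟨x, hx'⟩, (mem_AA π N M (stb σ)).mpr hx.1⟩
  have hEF : EF π N M (stb σ) (ext0 F') := by
    refine ⟨⟨?_, fun x hx => ext0_of_not_mem F' hx⟩, ?_, hcov⟩
    · have h4 : (fun s : ↥(AL π M (stb σ)) => ext0 F' (s : L)) = F' := by
        funext s
        exact ext0_of_mem F' s.2
      rw [h4]
      exact hF'
    · have h4 : (fun a : AL π N (stb σ) => ext0 F' (a : L)) =
          fun a : AL π N (stb σ) => f (a : L) := by
        funext a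
        exact hFx a a.2
      rw [h4]
      exact hf.1
  refine ⟨ext0 F', hEF, hFx, ?_⟩
  -- the scalars
  have key : ∀ (l : Λ) (w : L → ℤ), CIv (N.comap π) w →
      Sp (PN π N) (JJ π N M (stb σ) (ϖ l)) w → sc 𝔐 (ext0 F') w = sc 𝔐 Fr w := by
    intro l w hw hs
    rw [ρs w l ⟨hw, hs⟩, ← hνr, sc_eq 𝔐 (AL π M (stb σ)) hEF.irr.2]
    unfold LmL
    have hνi : IsIntegral ℤ ((ν l : ℂˣ) : ℂ) := by
      refine IsIntegral.of_pow (Nat.card_pos (α := Λ)) ?_
      rw [← Units.val_pow_eq_pow_val, ← map_pow, pow_card_eq_one', map_one, Units.val_one]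
      exact isIntegral_one
    rw [← red_mul 𝔐 hνi]
    · congr 1
      have h4 : (fun t : ↥(AL π M (stb σ)) => ext0 F' (t : L)) = F' := by
        funext s
        exact ext0_of_mem F' s.2
      have h5 : F' 1 = f ((((1 : AA π N M (stb σ))) : ↥(AL π M (stb σ))) : L) := hF'f 1
      rw [h4]
      unfold lmT fib
      rw [h5, ← mul_div_assoc, Finset.mul_sum]
      congr 1
      have h6 : ∀ γ : Γ, ((ν l : ℂˣ) : ℂ) *
          (if q γ = l then ((w (r γ : L) : ℤ) : ℂ) * E γ else 0) =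
          if q γ = l then ((w (r γ : L) : ℤ) : ℂ) * F' (r γ) else 0 := by
        intro γ
        by_cases hγ : q γ = l
        · rw [if_pos hγ, if_pos hγ]
          have h7 : E γ * ((ν (q γ) : ℂˣ) : ℂ) = F' (r γ) := congrFun hF'e γ
          rw [← h7, hγ]
          ring
        · rw [if_neg hγ, if_neg hγ, mul_zero]
      rw [Finset.sum_congr rfl fun γ _ => h6 γ, ← Finset.sum_filter]
      have h7 : ∑ t : ↥(AL π M (stb σ)), ((w (t : L) : ℤ) : ℂ) * F' t =
          ∑ t ∈ Finset.univ.filter (fun t : ↥(AL π M (stb σ)) =>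
            QuotientGroup.mk' (AA π N M (stb σ)) t = ϖ l), ((w (t : L) : ℤ) : ℂ) * F' t := by
        rw [Finset.sum_filter]
        refine Finset.sum_congr rfl fun t _ => ?_
        by_cases ht : QuotientGroup.mk' (AA π N M (stb σ)) t = ϖ l
        · rw [if_pos ht]
        · rw [if_neg ht, sp_T hs t ht, Int.cast_zero, zero_mul]
      rw [h7]
      symm
      refine Finset.sum_bij (fun γ _ => r γ) ?_ ?_ ?_ ?_
      · intro γ hγ
        rw [Finset.mem_filter] at hγ ⊢
        exact ⟨Finset.mem_univ _, by rw [← h.πq, hγ.2]⟩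
      · intro γ hγ γ' hγ' hrr
        rw [Finset.mem_filter] at hγ hγ'
        exact RDA.inj_g hC h hrr (hγ.2.trans hγ'.2.symm)
      · intro t ht
        rw [Finset.mem_filter] at ht
        obtain ⟨g, hg, hgl⟩ := RDA.exists_g hC h ht.2
        exact ⟨g, by rw [Finset.mem_filter]; exact ⟨Finset.mem_univ _, hgl⟩, hg⟩
      · intro γ _
        rfl
    · exact FIBI.int_fib hCE hθ h.Ec h.Ee _
        (fun a γ => RDA.AIv_r h (aiv_AA hw) a γ) (fun γ => _root_.isIntegral_intCast _) l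
  intro u hu
  have hfin : Fintype (↥(AL π M (stb σ)) ⧸ AA π N M (stb σ)) := Fintype.ofFinite _
  have h4 : ∀ (S : Subgroup K) (G : L → ℂ), EF π N M S G → sc 𝔐 G u =
      ∑ c : ↥(AL π M (stb σ)) ⧸ AA π N M (stb σ), sc 𝔐 G (cut c u) := by
    intro S G hG
    rw [← sc_sum 𝔐 hNM hG (fun c : ↥(AL π M (stb σ)) ⧸ AA π N M (stb σ) => cut c u)
      (fun c => cut_civ c hu)]
    refine sc_congr 𝔐 G fun x hx => ?_
    refine cut_sum hπ hNM hcov u x ?_
    by_contra h5
    exact hx (hG.irr.2 x fun h6 => h5 h6.1)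
  rw [h4 _ _ hEF, h4 _ _ hFr]
  refine Finset.sum_congr rfl fun c _ => ?_
  obtain ⟨l, rfl⟩ := h.πs c
  exact key l _ (cut_civ _ hu) (cut_sp _ _)

end RIX

theorem RIX_thm (h1 : Stmt_CHT) (h2 : Stmt_SST) : Stmt_RIX := RIX.main h2 h1

end Pool.Agent.DPG


end

section

/-!
# CHB: products of invariant functions and their restrictions to the stabilizer of a chain
-/

namespace Pool.Agent.DPG

open Pool.Agent.DP Pool.Agent.DPC Pool.Agent.DPM Pool.Agent.DPN Pool.Agent.DPF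
  Pool.Agent.Lib_helper13 Representation

namespace CHB

theorem pl_two {X : Type} [Group X] [Fintype X] (u v : X → ℤ) (x : X) :
    pl [u, v] x = conv u v x := by
  classical
  rw [CHM.pl_cons]
  have h : (fun x => pl [v] x) = v := by
    funext y
    rw [CHM.pl_cons, conv]
    rw [Finset.sum_eq_single y]
    · rw [CHM.pl_nil, if_pos (inv_mul_cancel y), mul_one]
    · intro z _ hz
      rw [CHM.pl_nil, if_neg, mul_zero]
      intro h
      exact hz (inv_mul_eq_one.mp h)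
    · intro h
      exact absurd (Finset.mem_univ _) h
  rw [show pl [v] = v from h]

/-- The normal subgroup, its action and the quotient. -/
theorem clg {X : Type} [Group X] (O : Subgroup X) [O.Normal] :
    ClG O.subtype (MulAut.conjNormal (H := O)) (QuotientGroup.mk' O) where
  inj := O.subtype_injective
  act := by
    intro y a
    rw [Subgroup.coe_subtype, MulAut.conjNormal_apply]
  ker := by
    intro y
    rw [QuotientGroup.mk'_apply, QuotientGroup.eq_one_iff, Subgroup.range_subtype]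

/-- A sum over a subgroup. -/
theorem sum_sub {X M : Type} [Group X] [Fintype X] [AddCommMonoid M] (S : Subgroup X)
    [Fintype S] (F : X → M) (hF : ∀ x, x ∉ S → F x = 0) : ∑ x, F x = ∑ s : S, F s := by
  classical
  rw [← Finset.sum_subset (Finset.subset_univ (Finset.univ.filter (fun k : X => k ∈ S)))]
  · rw [← Finset.sum_subtype_eq_sum_filter, Finset.subtype_univ]
  · intro y _ hy
    exact hF y (fun h => hy (Finset.mem_filter.mpr ⟨Finset.mem_univ _, h⟩))

end CHB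

open _root_.Pool.Agent.DPG.CHB in
theorem CHB_thm (h1 : Stmt_CHT) : Stmt_CHB := by
  classical
  intro L K _ _ _ _ 𝔐 ℓ _ hM hℓ π hπ hc N _ σ hσ f hf u v hu hv
  obtain ⟨Z, τ, hZ1, hZ2, hτ, hs, hst⟩ := h1 L K ℓ π hπ hc N σ hσ
  have hcl := clg (N.comap π)
  -- the character of the stabilizer
  have hmem : ∀ a : ↥(N.comap π), a ∈ stb τ ↔ (a : L) ∈ AL π N (stb σ) := by
    intro a
    rw [hst, Subgroup.mem_comap, Subgroup.mem_inf]
    exact ⟨fun h => ⟨Subgroup.mem_comap.mp a.2, h⟩, fun h => h.2⟩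
  have hN : ∀ x : L, x ∈ AL π N (stb σ) → x ∈ N.comap π := by
    intro x hx
    exact (Subgroup.mem_inf.mp (Subgroup.mem_comap.mp hx)).1
  let e : stb τ ≃* ↥(AL π N (stb σ)) :=
    { toFun := fun a => ⟨((a : ↥(N.comap π)) : L), (hmem _).mp a.2⟩
      invFun := fun a => ⟨⟨(a : L), hN _ a.2⟩, (hmem _).mpr a.2⟩
      left_inv := fun a => rfl
      right_inv := fun a => rfl
      map_mul' := fun a b => rfl }
  have hθ : IsIrr (fun a : stb τ => f ((a : ↥(N.comap π)) : L)) := hf.1.comp_mulEquiv e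
  have hiv : ∀ w ∈ [u, v], AIv (N.comap π).subtype w := by
    intro w hw a x
    rcases List.mem_cons.mp hw with rfl | hw
    · exact hu a a.2 x
    · rw [List.mem_singleton.mp hw]
      exact hv a a.2 x
  have key := CHM_thm ↥(N.comap π) L (L ⧸ N.comap π) 𝔐 ℓ hM hℓ (N.comap π).subtype _ _ hcl Z τ hτ
    (fun a : stb τ => f ((a : ↥(N.comap π)) : L)) hθ [u, v] hiv
  -- the two sides
  have hsum : ∀ F : L → ℤ, (∑ x : L, ((F x : ℤ) : ℂ) * f x) / f 1 =
      wt (fun a : stb τ => f ((a : ↥(N.comap π)) : L))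
        (fun a : stb τ => ((F ((a : ↥(N.comap π)) : L) : ℤ) : ℂ)) := by
    intro F
    rw [wt]
    have h2 : (∑ x : L, ((F x : ℤ) : ℂ) * f x) =
        ∑ s : ↥(AL π N (stb σ)), ((F s : ℤ) : ℂ) * f s := by
      apply sum_sub (AL π N (stb σ)) (fun x => ((F x : ℤ) : ℂ) * f x)
      intro x hx
      change ((F x : ℤ) : ℂ) * f x = 0
      rw [hf.2 x hx, mul_zero]
    have h3 : (∑ s : ↥(AL π N (stb σ)), ((F s : ℤ) : ℂ) * f s) =
        ∑ a : stb τ, ((F ((a : ↥(N.comap π)) : L) : ℤ) : ℂ) * f ((a : ↥(N.comap π)) : L) := by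
      symm
      exact Fintype.sum_equiv e.toEquiv _ _ (fun s => rfl)
    rw [h2, h3]
    rfl
  rw [sc, sc, hsum, hsum]
  have hl : (fun a : stb τ => ((conv u v ((a : ↥(N.comap π)) : L) : ℤ) : ℂ)) =
      (fun a : stb τ => ((pl [u, v] ((N.comap π).subtype (a : ↥(N.comap π))) : ℤ) : ℂ)) := by
    funext a
    rw [pl_two]
    rfl
  rw [hl, ← key]
  congr 2
  funext a
  congr 1
  rw [List.map_cons, List.map_cons, List.map_nil, pl_two, conv]
  symm
  have h4 : (∑ y : L, if π y ∈ stb σ then u y * v (y⁻¹ * ((a : ↥(N.comap π)) : L)) else 0) =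
      ∑ y : ↥(YS (N.comap π).subtype τ), if π y ∈ stb σ then
        u y * v ((y : L)⁻¹ * ((a : ↥(N.comap π)) : L)) else 0 := by
    apply sum_sub (YS (N.comap π).subtype τ)
      (fun y => if π y ∈ stb σ then u y * v (y⁻¹ * ((a : ↥(N.comap π)) : L)) else 0)
    intro y hy
    change (if π y ∈ stb σ then u y * v (y⁻¹ * ((a : ↥(N.comap π)) : L)) else 0) = 0
    rw [if_neg]
    intro h
    apply hy
    change y ∈ stb (mapCh (N.comap π).subtype τ)
    rw [hs]
    exact Subgroup.mem_comap.mpr h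
  rw [h4]
  apply Finset.sum_congr rfl
  intro y _
  have h5 : π y ∈ stb σ := by
    have h6 : (y : L) ∈ stb (mapCh (N.comap π).subtype τ) := y.2
    rw [hs] at h6
    exact Subgroup.mem_comap.mp h6
  rw [if_pos h5]
  rfl

end Pool.Agent.DPG


end

section

/-!
# TQC: the linear characters of the pairs of the closed chains
-/

namespace Pool.Agent.DPG

open Pool.Agent.DP Pool.Agent.DPC Pool.Agent.DPM Pool.Agent.DPN Pool.Agent.DPF
  Pool.Agent.DPK Pool.Agent.Lib_helper13 Representation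

namespace TQC

variable {G : Type} [Group G]

/-- Conjugation of a subgroup by a product. -/
theorem map_conj_mul (g h : G) (S : Subgroup G) :
    S.map (MulAut.conj (g * h)).toMonoidHom =
      (S.map (MulAut.conj h).toMonoidHom).map (MulAut.conj g).toMonoidHom := by
  rw [Subgroup.map_map]
  congr 1
  rw [map_mul]
  rfl

theorem map_conj_one (S : Subgroup G) : S.map (MulAut.conj (1 : G)).toMonoidHom = S := by
  have h : (MulAut.conj (1 : G)).toMonoidHom = MonoidHom.id G := by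
    rw [map_one]
    rfl
  rw [h, Subgroup.map_id]

theorem cjF_mul (g h : G) (f : G → ℂ) : cjF (g * h) f = cjF g (cjF h f) := by
  funext x
  unfold cjF
  congr 1
  group

theorem cjF_one (f : G → ℂ) : cjF (1 : G) f = f := by
  funext x
  unfold cjF
  simp

end TQC

open Classical in
theorem TQC_thm (h1 : Stmt_PSI) (h2 : Stmt_RSC) : Stmt_TQC := by
  intro L K K1 Q L1 Ω _ _ _ _ _ _ _ _ _ _ _ _ 𝔐 ℓ _ hM hℓ π μ φ q α ε μQ π1 μ1 ι M M1 σr Fr ζ
    hRF X ξ ξ0 hξ
  have hR := (h2 L K K1 Q L1 Ω 𝔐 ℓ hM hℓ π μ φ q α ε μQ π1 μ1 ι M M1 σr Fr ζ hRF).2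
  have key : ∀ (σ σ' : Finset (Subgroup K1)) (F F' : L1 → ℂ) (θ θ' : L → ℂ) (n n' : Ω → Q),
      ChN ℓ M1 σ → BPs 𝔐 π1 μ1 M1 (cg 𝔐 Fr) (stb σ) F → TP π φ π1 M F ζ θ →
      ChN ℓ M1 σ' → BPs 𝔐 π1 μ1 M1 (cg 𝔐 Fr) (stb σ') F' → TP π φ π1 M F' ζ θ' →
      (stb (cstC φ (NN' π ε) σ)).map (MulAut.conj (π (ε n))).toMonoidHom =
        (stb (cstC φ (NN' π ε) σ')).map (MulAut.conj (π (ε n'))).toMonoidHom →
      cjF (ε n) θ = cjF (ε n') θ' → ξ (stb σ) F = ξ (stb σ') F' := by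
    intro σ σ' F F' θ θ' n n' a1 a2 a3 b1 b2 b3 hS hF
    obtain ⟨c1, c2, c3, c4⟩ := hR σ F a1 a2
    obtain ⟨d1, d2, d3, d4⟩ := hR σ' F' b1 b2
    have e1 : (stb (cstC φ (NN' π ε) σ)).map (MulAut.conj (π (ε (n'⁻¹ * n)))).toMonoidHom =
        stb (cstC φ (NN' π ε) σ') := by
      rw [map_mul, map_mul, TQC.map_conj_mul, hS, ← TQC.map_conj_mul, ← map_mul, ← map_mul,
        inv_mul_cancel, map_one, map_one, TQC.map_conj_one]
    have e2 : cjF (ε (n'⁻¹ * n)) θ = θ' := by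
      rw [map_mul, TQC.cjF_mul, hF, ← TQC.cjF_mul, ← map_mul, inv_mul_cancel, map_one,
        TQC.cjF_one]
    have e3 := (h1 L K K1 Q L1 Ω 𝔐 ℓ hM hℓ π μ φ q α ε μQ π1 μ1 ι M M1 σr Fr ζ hRF σ σ' F F'
      θ θ' c1 d1 c3 d3 c2 d2 a2.ovl b2.ovl c4 d4 a3 b3 (n'⁻¹ * n)).2 e1 e2
    obtain ⟨e4, e5⟩ := e3 (Classical.arbitrary Ω)
    have e6 : π1 (ι ((n'⁻¹ * n) (Classical.arbitrary Ω))) =
        q ((n'⁻¹ * n) (Classical.arbitrary Ω)) := hRF.ld.πι _
    have e7 := hξ (ι ((n'⁻¹ * n) (Classical.arbitrary Ω)))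
      (by
        rw [e6]
        exact hRF.mm.le1 ⟨_, rfl⟩) (stb σ) F
    rw [e6, e4, e5] at e7
    exact e7.symm
  refine ⟨fun S f =>
    if h : ∃ x : Finset (Subgroup K1) × (L1 → ℂ) × (L → ℂ) × (Ω → Q),
        ChN ℓ M1 x.1 ∧ BPs 𝔐 π1 μ1 M1 (cg 𝔐 Fr) (stb x.1) x.2.1 ∧
        TP π φ π1 M x.2.1 ζ x.2.2.1 ∧
        S = (stb (cstC φ (NN' π ε) x.1)).map (MulAut.conj (π (ε x.2.2.2))).toMonoidHom ∧
        f = cjF (ε x.2.2.2) x.2.2.1
    then ξ (stb h.choose.1) h.choose.2.1 else ξ0 S f, ?_, ?_⟩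
  · intro σ F θ n a1 a2 a3
    have h : ∃ x : Finset (Subgroup K1) × (L1 → ℂ) × (L → ℂ) × (Ω → Q),
        ChN ℓ M1 x.1 ∧ BPs 𝔐 π1 μ1 M1 (cg 𝔐 Fr) (stb x.1) x.2.1 ∧
        TP π φ π1 M x.2.1 ζ x.2.2.1 ∧
        (stb (cstC φ (NN' π ε) σ)).map (MulAut.conj (π (ε n))).toMonoidHom =
          (stb (cstC φ (NN' π ε) x.1)).map (MulAut.conj (π (ε x.2.2.2))).toMonoidHom ∧
        cjF (ε n) θ = cjF (ε x.2.2.2) x.2.2.1 := ⟨(σ, F, θ, n), a1, a2, a3, rfl, rfl⟩
    obtain ⟨b1, b2, b3, b4, b5⟩ := h.choose_spec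
    beta_reduce
    rw [dif_pos h]
    exact (key _ _ _ _ _ _ _ _ a1 a2 a3 b1 b2 b3 b4 b5).symm
  · intro S f
    by_cases h : ∃ x : Finset (Subgroup K1) × (L1 → ℂ) × (L → ℂ) × (Ω → Q),
        ChN ℓ M1 x.1 ∧ BPs 𝔐 π1 μ1 M1 (cg 𝔐 Fr) (stb x.1) x.2.1 ∧
        TP π φ π1 M x.2.1 ζ x.2.2.1 ∧
        S = (stb (cstC φ (NN' π ε) x.1)).map (MulAut.conj (π (ε x.2.2.2))).toMonoidHom ∧
        f = cjF (ε x.2.2.2) x.2.2.1
    · left
      obtain ⟨⟨σ, F, θ, n⟩, b1, b2, b3, b4, b5⟩ := h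
      exact ⟨σ, F, θ, n, b1, b2, b3, b4, b5⟩
    · right
      beta_reduce
      rw [dif_neg h]

end Pool.Agent.DPG


end
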